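import Pool.Agent.Lib.SixB.S3bEnv
import Pool.Agent.Lib.SixB.S3bDbl
import Pool.Agent.Lib.SixB.S3bCyl

/-!
# Turnings of the strands which end at the outer boundary

* `CovOK.turns`: `Rel.Turns` for a cylinder with pockets.
* `DblOK`: complex with pockets on one side of a straight cut line; `DblOK.t1`, `DblOK.sim` for the
  doubled complex, `DblOK.turnsU`, `DblOK.turnsD`: `Rel.Turns` for the doubles of the upper and of the
  lower part of a cylinder.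
* `boxLab`: label of the outer sides of a rectangle; `box_turns`: turnings of the outer arcs of a
  complex which is simulated in a rectangle of the plane.
-/

set_option autoImplicit false
set_option linter.unusedSectionVars false
set_option linter.unnecessarySeqFocus false

namespace Pool.Agent.SixB

open Pool.Agent.Perc Pool.Agent.Perc.Q

/-! ## No loops -/

theorem NoLoop.sheets {V Φ S : Type} {B : QC V Φ} (h : NoLoop B) (σ : Φ → ZMod 4 → Equiv.Perm S) :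
    NoLoop (SQ B σ) := fun f k e => h f.2 k (congrArg Prod.snd e)

theorem NoLoop.double {V Φ κ : Type} [DecidableEq V] [DecidableEq Φ] {Q : QC V Φ} (h : NoLoop Q)
    {F : Finset Φ} {m : κ → V × V} (hm : OneSided Q F m) : NoLoop (dbl Q F m hm) := by
  rintro ⟨f, b⟩ k e
  by_cases hf : f ∈ F
  · cases b
    · rw [dbl_false hf, dbl_false hf] at e
      exact h f k (dblV_inj e)
    · rw [dbl_true hf, dbl_true hf] at e
      have h1 := h f (2 - k)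
      rw [show (2 : ZMod 4) - k + 1 = 3 - k by ring, show (2 : ZMod 4) - k = 3 - (k + 1) by ring] at h1
      exact h1 (dblV_inj e).symm
  · unfold dbl at e
    simp only [hf, if_false] at e
    exact h f k (congrArg Prod.fst e)

theorem dF_mono {Φ : Type} {A A' : Set Φ} (h : A ⊆ A') : dF A ⊆ dF A' := fun _ hz => h hz

theorem sides_incl {V Φ : Type} {Q : QC V Φ} {A A' : Set Φ} (h : A ⊆ A') : Sides Q A ⊆ Sides Q A' :=
  fun _ ⟨f, hf, hk⟩ => ⟨f, h hf, hk⟩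

/-! ## Sides of the base sheet -/

section Base

variable {ι VB ΦB : Type} {B : QC VB ΦB} {p : ℤ × ℤ → VB} {pf : ℤ × ℤ → ΦB}
  {σ : ΦB → ZMod 4 → Equiv.Perm (Option ι)} {μ : ι → Mouth} {U : ι → Set (ℤ × ℤ)} {B0 B1 : Set ΦB}
  {J : Set ι} {i : ι} {e : VB × VB}

/-- a side of the base sheet -/
def lf0 (ι : Type) {VB : Type} (e : VB × VB) : (Option ι × VB) × (Option ι × VB) :=
  Prod.map (Prod.mk none) (Prod.mk none) e

theorem lf0_swap : lf0 ι e.swap = (lf0 ι e).swap := rfl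

theorem lf0_snd : Prod.map Prod.snd Prod.snd (lf0 ι e) = e := rfl

theorem lf0_inj {e e' : VB × VB} (h : lf0 ι e = lf0 ι e') : e = e' := by
  have := congrArg (Prod.map Prod.snd Prod.snd) h
  exact this

/-- base faces and the pockets `i ∈ J` -/
def covJ (pf : ℤ × ℤ → ΦB) (U : ι → Set (ℤ × ℤ)) (B0 : Set ΦB) (J : Set ι) :
    Set (Option ι × ΦB) := bF ι B0 ∪ ⋃ i ∈ J, pF pf i (U i)

theorem covJ_sub : covJ pf U B0 J ⊆ covF pf U B0 := by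
  rintro f (hf | hf)
  · exact Or.inl hf
  · obtain ⟨i, hf⟩ := Set.mem_iUnion.1 hf
    obtain ⟨-, hf⟩ := Set.mem_iUnion.1 hf
    exact Or.inr (Set.mem_iUnion.2 ⟨i, hf⟩)

theorem covJ_univ : covJ pf U B0 Set.univ = covF pf U B0 := by
  unfold covJ covF
  simp

theorem CovOK.mono (h : CovOK B p pf σ μ U B0) (hs : B1 ⊆ B0) : CovOK B p pf σ μ U B1 :=
  { h with
    sh0 := fun g hg => h.sh0 g (hs hg)
    tri := fun i f hf hg => h.tri i f hf (hs hg) }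

theorem CovOK.lf0_sd (h : CovOK B p pf σ μ U B0) {g : ΦB} (hg : g ∈ B0) (k : ZMod 4) :
    sd (SQ B σ) (none, g) k = lf0 ι (sd B g k) := by
  show ((σ g k none, B.c g k), (σ g (k + 1) none, B.c g (k + 1))) = _
  rw [h.sh0 g hg, h.sh0 g hg]
  rfl

theorem CovOK.side (h : CovOK B p pf σ μ U B0) (he : e ∈ Sides B B0) :
    lf0 ι e ∈ Sides (SQ B σ) (bF ι B0) := by
  obtain ⟨g, hg, k, rfl⟩ := he
  exact ⟨_, ⟨g, hg, rfl⟩, k, (h.lf0_sd hg k).symm⟩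

/-- A side of the base which is not a side of a base face or of a face over a mouth. -/
theorem CovOK.not_side (h : CovOK B p pf σ μ U B0)
    (he : e ∉ Sides B (B0 ∪ ⋃ i ∈ J, pf '' {f | (μ i).tri f})) :
    lf0 ι e ∉ Sides (SQ B σ) (covJ pf U B0 J) := by
  rintro ⟨z, hz | hz, k, hk⟩
  · obtain ⟨g, hg, rfl⟩ := hz
    rw [h.lf0_sd hg] at hk
    exact he ⟨g, Or.inl hg, k, lf0_inj hk⟩
  · obtain ⟨i, hz⟩ := Set.mem_iUnion.1 hz
    obtain ⟨hi, f, hf, rfl⟩ := Set.mem_iUnion.1 hz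
    have h1 : (none : Option ι) = σ (pf f) k (some i) := congrArg (fun z => z.1.1) hk
    rw [h.sh i f hf] at h1
    have h2 := shM_none.1 h1.symm
    have h3 : e = sd B (pf f) k := by
      have := congrArg (Prod.map Prod.snd Prod.snd) hk
      exact this
    exact he ⟨pf f, Or.inr (Set.mem_iUnion.2 ⟨i, Set.mem_iUnion.2 ⟨hi, f, adj_tri h2, rfl⟩⟩), k, h3⟩

end Base

/-- an outer side is an entering side -/
theorem mem_bS_of {V Φ : Type} [DecidableEq V] [DecidableEq Φ] {Q : QC V Φ} {F : Finset Φ} {a : V × V}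
    (h1 : a ∈ Sides Q (F : Set Φ)) (h2 : a.swap ∉ Sides Q (F : Set Φ)) : a ∈ bS Q F := by
  obtain ⟨f, hf, k, rfl⟩ := h1
  exact mem_bS.mpr ⟨sd_mem (Finset.mem_coe.1 hf) k, ini_of_bd h2⟩

/-! ## The cylinder with pockets -/

section CylTurns

variable {N : ℕ} [hN : Fact (3 ≤ N)] {ι : Type} [DecidableEq ι] {p pf : ℤ × ℤ → ZMod N × ℤ}
  {σ : ZMod N × ℤ → ZMod 4 → Equiv.Perm (Option ι)} {μ : ι → Mouth} {U : ι → Set (ℤ × ℤ)}
  {B0 : Set (ZMod N × ℤ)} {J : Set ι} {y₀ y₁ : ℤ}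

theorem bE_side {x : ZMod N} {y : ℤ} {A : Set (ZMod N × ℤ)} :
    bE x y ∈ Sides (CQ N) A ↔ (x, y) ∈ A := by
  constructor
  · rintro ⟨f, hf, k, h⟩
    have h1 : sd (CQ N) (x, y) 0 = sd (CQ N) f k := h
    obtain ⟨h2, -⟩ := sd_inj h1
    rw [h2]
    exact hf
  · intro h
    exact ⟨_, h, 0, rfl⟩

theorem bE_swap_side {x : ZMod N} {y : ℤ} {A : Set (ZMod N × ℤ)} :
    (bE x y).swap ∈ Sides (CQ N) A ↔ (x, y - 1) ∈ A := by
  have e : (bE x y).swap = sd (CQ N) (x, y - 1) 2 := csd_swap_0 x y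
  rw [e]
  constructor
  · rintro ⟨f, hf, k, h⟩
    obtain ⟨h2, -⟩ := sd_inj h
    rw [h2]
    exact hf
  · intro h
    exact ⟨_, h, 2, rfl⟩

/-- **TURNINGS OF THE CYLINDER WITH POCKETS.** -/
theorem CovOK.turns (h : CovOK (CQ N) p pf σ μ U B0) (hodd : Odd N) (hy : y₀ < y₁)
    {F : Finset (Option ι × (ZMod N × ℤ))}
    (hF : (F : Set (Option ι × (ZMod N × ℤ))) = covJ pf U B0 J)
    (hB : B0 ⊆ (cylF N y₀ y₁ : Set (ZMod N × ℤ)))
    (htri : ∀ i f, (μ i).tri f → pf f ∈ cylF N y₀ y₁)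
    (hbot : ∀ x, (x, y₀) ∈ B0) (htop : ∀ x, (x, y₁ - 1) ∈ B0)
    {Eb Et : Finset ((Option ι × (ZMod N × ℤ)) × (Option ι × (ZMod N × ℤ)))}
    (hb : ∀ a ∈ Eb, ∃ x, a = lf0 ι (bE x y₀)) (ht : ∀ a ∈ Et, ∃ x, a = lf0 ι (bE x y₁).swap)
    (ω : Option ι × (ZMod N × ℤ) → Bool) : Rel.Turns (SQ (CQ N) σ) F ω Eb Et := by
  have hFs : (F : Set (Option ι × (ZMod N × ℤ))) ⊆ covF pf U B0 := hF ▸ covJ_sub
  have hall : B0 ∪ ⋃ i ∈ J, pf '' {f | (μ i).tri f} ⊆ (cylF N y₀ y₁ : Set (ZMod N × ℤ)) := by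
    rintro g (hg | hg)
    · exact hB hg
    · obtain ⟨i, hg⟩ := Set.mem_iUnion.1 hg
      obtain ⟨-, f, hf, rfl⟩ := Set.mem_iUnion.1 hg
      exact Finset.mem_coe.2 (htri i f hf)
  have hbF : bF ι B0 ⊆ (F : Set (Option ι × (ZMod N × ℤ))) := by
    rw [hF]; exact Set.subset_union_left
  -- the bottom sides
  have kb : ∀ x, lf0 ι (bE x y₀) ∈ Sides (SQ (CQ N) σ) (bF ι B0) := fun x =>
    h.side (bE_side.2 (hbot x))
  have kt : ∀ x, lf0 ι (bE x y₁).swap ∈ Sides (SQ (CQ N) σ) (bF ι B0) := fun x =>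
    h.side (bE_swap_side.2 (htop x))
  have kb' : ∀ x, lf0 ι (bE x y₀) ∈ bS (SQ (CQ N) σ) F := by
    intro x
    refine mem_bS_of (sides_incl hbF (kb x)) ?_
    rw [hF]
    refine h.not_side (e := (bE x y₀).swap) fun hs => ?_
    have h1 := hall (bE_swap_side.1 hs)
    rw [Finset.mem_coe, mem_cylF_mk] at h1
    omega
  have kt' : ∀ x, lf0 ι (bE x y₁).swap ∈ bS (SQ (CQ N) σ) F := by
    intro x
    refine mem_bS_of (sides_incl hbF (kt x)) ?_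
    rw [hF]
    refine h.not_side (e := bE x y₁) fun hs => ?_
    have h1 := hall (bE_side.1 hs)
    rw [Finset.mem_coe, mem_cylF_mk] at h1
    omega
  have hbase : ∀ a ∈ Eb ∪ Et, a ∈ Sides (SQ (CQ N) σ) (bF ι B0) := by
    intro a ha
    rcases Finset.mem_union.1 ha with ha | ha
    · obtain ⟨x, rfl⟩ := hb a ha
      exact kb x
    · obtain ⟨x, rfl⟩ := ht a ha
      exact kt x
  have hlift : ∀ a ∈ Eb ∪ Et, a = lf0 ι (Prod.map Prod.snd Prod.snd a) := by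
    intro a ha
    rcases Finset.mem_union.1 ha with ha | ha
    · obtain ⟨x, rfl⟩ := hb a ha
      rfl
    · obtain ⟨x, rfl⟩ := ht a ha
      rfl
  refine turns_of_sim (φ := Prod.map Prod.snd Prod.snd) hy
    ((h.t1 (t1_cyl hodd) ω).mono hFs) (noLoop_CQ.sheets σ) (fun _ => rfl) ?_ ?_ ?_ ?_
  · intro a ha
    obtain ⟨x, rfl⟩ := hb a ha
    exact ⟨kb' x, x, rfl⟩
  · intro a ha
    obtain ⟨x, rfl⟩ := ht a ha
    exact ⟨kt' x, x, rfl⟩
  · intro a ha b hb hab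
    rw [hlift a ha, hlift b hb, hab]
  · intro a ha b hb n t hW
    obtain ⟨ω', -, h2⟩ := h.sim ω
    obtain ⟨n', h3⟩ := h2 a b.swap n t (Or.inl (hbase a ha))
      (Or.inr (by rw [Prod.swap_swap]; exact hbase b hb)) (hW.mono hFs subset_rfl)
    refine ⟨ω', n', h3.mono ?_ subset_rfl⟩
    rintro g (hg | hg)
    · exact hB hg
    · obtain ⟨i, f, hf, rfl⟩ := Set.mem_iUnion.1 hg
      exact Finset.mem_coe.2 (htri i f hf)

end CylTurns

/-! ## Doubled complexes -/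

section DblT

variable {ι κ VB ΦB : Type} [DecidableEq ι] [DecidableEq VB] [DecidableEq ΦB] {B : QC VB ΦB}
  {p : ℤ × ℤ → VB} {pf : ℤ × ℤ → ΦB}
  {σ : ΦB → ZMod 4 → Equiv.Perm (Option ι)} {μ : ι → Mouth} {U : ι → Set (ℤ × ℤ)} {B0 : Set ΦB}
  {J : Set ι} {m : κ → (Option ι × VB) × (Option ι × VB)} {θv : VB → VB} {θf : ΦB → ΦB}
  {s : ZMod 4} {H : Set ΦB} {F : Finset (Option ι × ΦB)} {hm : OneSided (SQ B σ) F m}

/-- A complex with pockets (those in `J`) on one side `H` of a cut line of the base. -/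
structure DblOK (B : QC VB ΦB) (p : ℤ × ℤ → VB) (pf : ℤ × ℤ → ΦB)
    (σ : ΦB → ZMod 4 → Equiv.Perm (Option ι)) (μ : ι → Mouth) (U : ι → Set (ℤ × ℤ)) (B0 : Set ΦB)
    (J : Set ι) (m : κ → (Option ι × VB) × (Option ι × VB)) (θv : VB → VB) (θf : ΦB → ΦB)
    (s : ZMod 4) (H : Set ΦB) : Prop where
  cov : CovOK B p pf σ μ U B0
  ref : RefOK B θv θf s H
  half0 : B0 ⊆ H
  halfT : ∀ i ∈ J, ∀ f, (μ i).tri f → pf f ∈ H
  cut : ∀ v, onCut m v → v.1 = none ∧ θv v.2 = v.2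
  nocut : ∀ i ∈ J, ∀ x, (μ i).x1 ≤ x → x ≤ (μ i).x2 → θv (p (x, (μ i).y)) ≠ p (x, (μ i).y)

/-- position of the vertices of the doubled complex -/
def dpos (θv : VB → VB) (z : (Option ι × VB) × Bool × Bool) : VB := dpv θv Prod.snd z

theorem DblOK.half (h : DblOK B p pf σ μ U B0 J m θv θf s H)
    (hF : (F : Set (Option ι × ΦB)) = covJ pf U B0 J) :
    ∃ (U' : J → Set (ℤ × ℤ)) (φ : J → ℤ × ℤ → Option ι × ΦB) (x₁ y : J → ℤ) (l : J → ℕ)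
      (r rt : J → ZMod 4) (φt : J → ℤ × ℤ → ΦB) (pos : J → ℤ × ℤ → VB),
      HalfOK (SQ B σ) B F (bF ι B0) Prod.snd Prod.snd (fun _ => 0) m θv θf s H U' φ x₁ y l r rt φt
        pos ∧ bF ι B0 ∪ ⋃ i, φ i '' U' i = covJ pf U B0 J ∧
        ∀ i, φt i '' Tri (x₁ i) (y i) (l i) = pf '' {f | (μ i).tri f} := by
  choose U' φ x₁ y l r φt pos hP hU' hT' using fun i : J => h.cov.exists_ppocket i
  have hcov : bF ι B0 ∪ ⋃ i, φ i '' U' i = covJ pf U B0 J := by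
    unfold covJ
    congr 1
    ext f
    simp only [hU', Set.mem_iUnion, Subtype.exists, exists_prop]
  have hsub : ∀ i : J, φ i '' U' i ⊆ (F : Set (Option ι × ΦB)) := by
    intro i
    rw [hF, ← hcov]
    exact (Set.subset_iUnion (fun i => φ i '' U' i) i).trans Set.subset_union_right
  refine ⟨U', φ, x₁, y, l, r, r, φt, pos, ?_, hcov, hT'⟩
  refine ⟨emb_base, hP, ?_, ?_, h.ref, ?_, hsub, ?_, ?_, ?_, ?_⟩
  · intro i j hij e he
    rw [hU'] at he ⊢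
    exact h.cov.glue (fun e => hij (Subtype.ext e)) he
  · intro i j hij
    rw [hT', hT', Set.disjoint_left]
    rintro _ ⟨f, hf, rfl⟩ ⟨g, hg, hfg⟩
    exact h.cov.tri' i j (fun e => hij (Subtype.ext e)) f g hf hg hfg.symm
  · rw [hF]; exact Set.subset_union_left
  · rintro _ ⟨_, ⟨g, hg, rfl⟩, rfl⟩
    exact h.half0 hg
  · intro i
    rw [hT']
    rintro _ ⟨f, hf, rfl⟩
    exact h.halfT i i.2 f hf
  · intro v hv
    exact (h.cut v hv).2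
  · intro i f hf k hc
    obtain ⟨h1, h2⟩ := h.cut _ hc
    have h3 : φ i f ∈ pF pf (i : ι) (U i) := by rw [← hU']; exact ⟨f, hf, rfl⟩
    obtain ⟨g, hg, hgf⟩ := h3
    rw [← hgf] at h1 h2
    have h4 : σ (pf g) k (some (i : ι)) = none := h1
    rw [h.cov.sh i g hg] at h4
    obtain ⟨x, a1, a2, a3⟩ := adj_pos (shM_none.1 h4)
    have h5 : θv (B.c (pf g) k) = B.c (pf g) k := h2
    rw [h.cov.cor, a3] at h5
    exact h.nocut i i.2 x a1 a2 h5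

/-- **T1 OF THE DOUBLED COMPLEX.** -/
theorem DblOK.t1 (h : DblOK B p pf σ μ U B0 J m θv θf s H)
    (hF : (F : Set (Option ι × ΦB)) = covJ pf U B0 J) (hT : ∀ ω', T1 B ω' Set.univ)
    (hm : OneSided (SQ B σ) F m) (ω : (Option ι × ΦB) × Bool → Bool) :
    T1 (dbl (SQ B σ) F m hm) ω (dF (F : Set (Option ι × ΦB))) := by
  obtain ⟨U', φ, x₁, y, l, r, rt, φt, pos, hH, h1, -⟩ := h.half hF
  have h2 := hH.t1_dbl (hm := hm) hT ω
  rw [h1, ← hF] at h2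
  exact h2

/-- **SIMULATION FOR THE DOUBLED COMPLEX.** -/
theorem DblOK.sim (h : DblOK B p pf σ μ U B0 J m θv θf s H)
    (hF : (F : Set (Option ι × ΦB)) = covJ pf U B0 J) (hm : OneSided (SQ B σ) F m)
    (ω : (Option ι × ΦB) × Bool → Bool) :
    ∃ ω' : ΦB → Bool, (∀ f ∈ B0, ω' f = ω ((none, f), false) ∧ ω' (θf f) = ω ((none, f), true)) ∧
      ∀ a b n t,
        (a ∈ Sides (dbl (SQ B σ) F m hm) (dF (bF ι B0)) ∨
          a.swap ∈ Sides (dbl (SQ B σ) F m hm) (dF (bF ι B0))) →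
        (b ∈ Sides (dbl (SQ B σ) F m hm) (dF (bF ι B0)) ∨
          b.swap ∈ Sides (dbl (SQ B σ) F m hm) (dF (bF ι B0))) →
        Walk (dbl (SQ B σ) F m hm) ω (dF (F : Set (Option ι × ΦB))) Set.univ n a b t →
        ∃ n', Walk B ω' {g | ∃ g' ∈ B0 ∪ ⋃ i ∈ J, pf '' {f | (μ i).tri f}, g = g' ∨ g = θf g'}
          Set.univ n' (Prod.map (dpos θv) (dpos θv) a) (Prod.map (dpos θv) (dpos θv) b) t := by
  obtain ⟨U', φ, x₁, y, l, r, rt, φt, pos, hH, h1, hT'⟩ := h.half hF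
  obtain ⟨ω', h2, h3⟩ := hH.sim_dbl (hm := hm) ω
  refine ⟨ω', fun f hf => h2 _ ⟨f, hf, rfl⟩, ?_⟩
  intro a b n t ha hb hW
  rw [h1, ← hF] at h3
  obtain ⟨n', h4⟩ := h3 a b n t ha hb hW
  refine ⟨n', h4.mono ?_ subset_rfl⟩
  rintro g ⟨g', hg' | hg', hgg⟩
  · obtain ⟨_, ⟨f, hf, rfl⟩, rfl⟩ := hg'
    exact ⟨f, Or.inl hf, hgg⟩
  · obtain ⟨i, hg'⟩ := Set.mem_iUnion.1 hg'
    rw [hT'] at hg'
    exact ⟨g', Or.inr (Set.mem_iUnion.2 ⟨i, Set.mem_iUnion.2 ⟨i.2, hg'⟩⟩), hgg⟩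

end DblT

/-! ## Sides of the doubled complex -/

section DblSides

variable {V Φ κ : Type} [DecidableEq V] [DecidableEq Φ] {Q : QC V Φ} {F : Finset Φ}
  {m : κ → V × V} {hm : OneSided Q F m} {A : Set Φ} {x : V × V}

theorem dbl_side_false (hA : A ⊆ (F : Set Φ)) (hx : ¬ (onCut m x.1 ∧ onCut m x.2)) :
    dblA m false x ∈ Sides (dbl Q F m hm) (dF A) ↔ x ∈ Sides Q A := by
  constructor
  · intro h
    obtain ⟨a, ha, h1 | h1⟩ := sides_dF hA h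
    · rw [dblA_inj h1]; exact ha
    · obtain ⟨h2, h3⟩ := cross_cut (a' := a.swap) h1
      exact absurd h3 hx
  · rintro ⟨f, hf, k, rfl⟩
    exact ⟨(f, false), hf, k, (sd_dbl_false (Finset.mem_coe.1 (hA hf)) k).symm⟩

theorem dbl_side_true (hA : A ⊆ (F : Set Φ)) (hx : ¬ (onCut m x.1 ∧ onCut m x.2)) :
    dblA m true x ∈ Sides (dbl Q F m hm) (dF A) ↔ x.swap ∈ Sides Q A := by
  constructor
  · intro h
    obtain ⟨a, ha, h1 | h1⟩ := sides_dF hA h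
    · obtain ⟨h2, h3⟩ := cross_cut h1.symm
      rw [h2] at h3
      exact absurd h3 hx
    · have h2 : dblA m true x = dblA m true a.swap := h1
      rw [dblA_inj h2, Prod.swap_swap]; exact ha
  · rintro ⟨f, hf, k, hk⟩
    refine ⟨(f, true), hf, 2 - k, ?_⟩
    rw [sd_dbl_true (Finset.mem_coe.1 (hA hf)), show (2 : ZMod 4) - (2 - k) = k by ring, ← hk,
      Prod.swap_swap]

theorem dblA_false_snd {VB : Type} (θv : VB → VB) (pv : V → VB) :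
    Prod.map (dpv θv pv) (dpv θv pv) (dblA m false x) = Prod.map pv pv x :=
  Prod.ext (dpv_false (θv := θv) (pv := pv) (m := m) x.1)
    (dpv_false (θv := θv) (pv := pv) (m := m) x.2)

theorem dblA_true_snd {VB : Type} {θv : VB → VB} {pv : V → VB}
    (hc : ∀ v, onCut m v → θv (pv v) = pv v) :
    Prod.map (dpv θv pv) (dpv θv pv) (dblA m true x) =
      Prod.map θv θv (Prod.map pv pv x) :=
  Prod.ext (dpv_true hc x.1) (dpv_true hc x.2)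

end DblSides

/-! ## Reflections -/

/-- reflection in the horizontal line of height `Y`: vertices -/
def hrv {α : Type} (Y : ℤ) (v : α × ℤ) : α × ℤ := (v.1, 2 * Y - v.2)

/-- faces -/
def hrf {α : Type} (Y : ℤ) (f : α × ℤ) : α × ℤ := (f.1, 2 * Y - 1 - f.2)

/-- reflection in the vertical line `x = X`: vertices -/
def vrv (X : ℤ) (v : ℤ × ℤ) : ℤ × ℤ := (2 * X - v.1, v.2)

/-- faces -/
def vrf (X : ℤ) (f : ℤ × ℤ) : ℤ × ℤ := (2 * X - 1 - f.1, f.2)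

theorem hrv_hrv {α : Type} (Y : ℤ) (v : α × ℤ) : hrv Y (hrv Y v) = v := by
  ext <;> simp [hrv]

theorem hrf_hrf {α : Type} (Y : ℤ) (v : α × ℤ) : hrf Y (hrf Y v) = v := by
  ext <;> simp [hrf]

theorem vrv_vrv (X : ℤ) (v : ℤ × ℤ) : vrv X (vrv X v) = v := by
  ext <;> simp [vrv]

theorem vrf_vrf (X : ℤ) (v : ℤ × ℤ) : vrf X (vrf X v) = v := by
  ext <;> simp [vrf]

theorem hcor_C {N : ℕ} [Fact (3 ≤ N)] (Y : ℤ) (f : ZMod N × ℤ) (k : ZMod 4) :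
    (CQ N).c (hrf Y f) (3 - k) = hrv Y ((CQ N).c f k) := by
  obtain ⟨x, y⟩ := f
  show corC N (x, 2 * Y - 1 - y) (3 - k) = hrv Y (corC N (x, y) k)
  rcases k4_cases k with rfl | rfl | rfl | rfl
  · rw [show (3 : ZMod 4) - 0 = 3 by decide, corC_3, corC_0]
    exact Prod.ext rfl (by simp only [hrv]; ring)
  · rw [show (3 : ZMod 4) - 1 = 2 by decide, corC_2, corC_1]
    exact Prod.ext rfl (by simp only [hrv]; ring)
  · rw [show (3 : ZMod 4) - 2 = 1 by decide, corC_1, corC_2]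
    exact Prod.ext rfl (by simp only [hrv]; ring)
  · rw [show (3 : ZMod 4) - 3 = 0 by decide, corC_0, corC_3]
    exact Prod.ext rfl (by simp only [hrv]; ring)

theorem hcor_Z (Y : ℤ) (f : ℤ × ℤ) (k : ZMod 4) : ZQ.c (hrf Y f) (3 - k) = hrv Y (ZQ.c f k) := by
  obtain ⟨x, y⟩ := f
  rcases k4_cases k with rfl | rfl | rfl | rfl
  · show ((x, 2 * Y - 1 - y + 1) : ℤ × ℤ) = (x, 2 * Y - y)
    ext <;> simp only <;> ring
  · show ((x + 1, 2 * Y - 1 - y + 1) : ℤ × ℤ) = (x + 1, 2 * Y - y)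
    ext <;> simp only <;> ring
  · show ((x + 1, 2 * Y - 1 - y) : ℤ × ℤ) = (x + 1, 2 * Y - (y + 1))
    ext <;> simp only <;> ring
  · show ((x, 2 * Y - 1 - y) : ℤ × ℤ) = (x, 2 * Y - (y + 1))
    ext <;> simp only <;> ring

theorem vcor_Z (X : ℤ) (f : ℤ × ℤ) (k : ZMod 4) : ZQ.c (vrf X f) (1 - k) = vrv X (ZQ.c f k) := by
  obtain ⟨x, y⟩ := f
  rcases k4_cases k with rfl | rfl | rfl | rfl
  · show ((2 * X - 1 - x + 1, y) : ℤ × ℤ) = (2 * X - x, y)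
    ext <;> simp only <;> ring
  · show ((2 * X - 1 - x, y) : ℤ × ℤ) = (2 * X - (x + 1), y)
    ext <;> simp only <;> ring
  · show ((2 * X - 1 - x, y + 1) : ℤ × ℤ) = (2 * X - (x + 1), y + 1)
    ext <;> simp only <;> ring
  · show ((2 * X - 1 - x + 1, y + 1) : ℤ × ℤ) = (2 * X - x, y + 1)
    ext <;> simp only <;> ring

theorem refC_up {N : ℕ} [Fact (3 ≤ N)] (Y : ℤ) :
    RefOK (CQ N) (hrv Y) (hrf Y) 3 {f : ZMod N × ℤ | Y ≤ f.2} :=
  ⟨Or.inl rfl, hrf_hrf Y, hrv_hrv Y, hcor_C Y, fun f hf hf' => by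
    have h1 : Y ≤ f.2 := hf
    have h2 : Y ≤ 2 * Y - 1 - f.2 := hf'
    omega⟩

theorem refC_dn {N : ℕ} [Fact (3 ≤ N)] (Y : ℤ) :
    RefOK (CQ N) (hrv Y) (hrf Y) 3 {f : ZMod N × ℤ | f.2 < Y} :=
  ⟨Or.inl rfl, hrf_hrf Y, hrv_hrv Y, hcor_C Y, fun f hf hf' => by
    have h1 : f.2 < Y := hf
    have h2 : 2 * Y - 1 - f.2 < Y := hf'
    omega⟩

theorem refZ_up (Y : ℤ) : RefOK ZQ (hrv Y) (hrf Y) 3 {f : ℤ × ℤ | Y ≤ f.2} :=
  ⟨Or.inl rfl, hrf_hrf Y, hrv_hrv Y, hcor_Z Y, fun f hf hf' => by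
    have h1 : Y ≤ f.2 := hf
    have h2 : Y ≤ 2 * Y - 1 - f.2 := hf'
    omega⟩

theorem refZ_dn (Y : ℤ) : RefOK ZQ (hrv Y) (hrf Y) 3 {f : ℤ × ℤ | f.2 < Y} :=
  ⟨Or.inl rfl, hrf_hrf Y, hrv_hrv Y, hcor_Z Y, fun f hf hf' => by
    have h1 : f.2 < Y := hf
    have h2 : 2 * Y - 1 - f.2 < Y := hf'
    omega⟩

theorem refZ_lf (X : ℤ) : RefOK ZQ (vrv X) (vrf X) 1 {f : ℤ × ℤ | f.1 < X} :=
  ⟨Or.inr rfl, vrf_vrf X, vrv_vrv X, vcor_Z X, fun f hf hf' => by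
    have h1 : f.1 < X := hf
    have h2 : 2 * X - 1 - f.1 < X := hf'
    omega⟩

theorem refZ_rt (X : ℤ) : RefOK ZQ (vrv X) (vrf X) 1 {f : ℤ × ℤ | X ≤ f.1} :=
  ⟨Or.inr rfl, vrf_vrf X, vrv_vrv X, vcor_Z X, fun f hf hf' => by
    have h1 : X ≤ f.1 := hf
    have h2 : X ≤ 2 * X - 1 - f.1 := hf'
    omega⟩
/-! ## The doubles of the upper and of the lower part of a cylinder -/

section DblTurns

set_option synthInstance.maxSize 1000

variable {N : ℕ} [hN : Fact (3 ≤ N)] {ι κ : Type} [DecidableEq ι] {p pf : ℤ × ℤ → ZMod N × ℤ}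
  {σ : ZMod N × ℤ → ZMod 4 → Equiv.Perm (Option ι)} {μ : ι → Mouth} {U : ι → Set (ℤ × ℤ)}
  {B0 : Set (ZMod N × ℤ)} {J : Set ι} {y₀ y₁ Y : ℤ}
  {m : κ → (Option ι × (ZMod N × ℤ)) × (Option ι × (ZMod N × ℤ))} {H : Set (ZMod N × ℤ)}
  {F : Finset (Option ι × (ZMod N × ℤ))} {F' : Finset ((Option ι × (ZMod N × ℤ)) × Bool)}
  {Eb Et : Finset (((Option ι × (ZMod N × ℤ)) × Bool × Bool) ×
    ((Option ι × (ZMod N × ℤ)) × Bool × Bool))}

theorem hrv_bE (x : ZMod N) (y : ℤ) : Prod.map (hrv Y) (hrv Y) (bE x y) = bE x (2 * Y - y) := rfl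

theorem coe_dF (hF' : ∀ z, z ∈ F' ↔ z.1 ∈ F) :
    (F' : Set ((Option ι × (ZMod N × ℤ)) × Bool)) = dF (F : Set (Option ι × (ZMod N × ℤ))) := by
  ext z
  rw [Finset.mem_coe, hF']
  rfl

/-- **TURNINGS OF THE DOUBLE OF THE UPPER PART**, window `[2 * Y - y₁, y₁]`. -/
theorem DblOK.turnsU (h : DblOK (CQ N) p pf σ μ U B0 J m (hrv Y) (hrf Y) 3 {f | Y ≤ f.2})
    (hodd : Odd N) (hy : Y < y₁) (hF : (F : Set (Option ι × (ZMod N × ℤ))) = covJ pf U B0 J)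
    (hm : OneSided (SQ (CQ N) σ) F m) (hB : ∀ g ∈ B0, g.2 < y₁)
    (htri : ∀ i ∈ J, ∀ f, (μ i).tri f → (pf f).2 < y₁) (htop : ∀ x, (x, y₁ - 1) ∈ B0)
    (hF' : ∀ z, z ∈ F' ↔ z.1 ∈ F) (hb : ∀ a ∈ Eb, ∃ x, a = dblA m true (lf0 ι (bE x y₁)))
    (ht : ∀ a ∈ Et, ∃ x, a = dblA m false (lf0 ι (bE x y₁).swap))
    (ω : (Option ι × (ZMod N × ℤ)) × Bool → Bool) :
    Rel.Turns (dbl (SQ (CQ N) σ) F m hm) F' ω Eb Et := by
  have hcF := coe_dF hF'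
  have hall : ∀ g ∈ B0 ∪ ⋃ i ∈ J, pf '' {f | (μ i).tri f}, Y ≤ g.2 ∧ g.2 < y₁ := by
    rintro g (hg | hg)
    · exact ⟨h.half0 hg, hB g hg⟩
    · obtain ⟨i, hg⟩ := Set.mem_iUnion.1 hg
      obtain ⟨hi, f, hf, rfl⟩ := Set.mem_iUnion.1 hg
      exact ⟨h.halfT i hi f hf, htri i hi f hf⟩
  have hbF : bF ι B0 ⊆ (F : Set (Option ι × (ZMod N × ℤ))) := by
    rw [hF]; exact Set.subset_union_left
  have hnc : ∀ x : ZMod N, ¬ onCut m (lf0 ι (bE x y₁)).1 := by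
    intro x hc
    have h1 : 2 * Y - y₁ = y₁ := congrArg (fun v : ZMod N × ℤ => v.2) (h.cut _ hc).2
    omega
  have hnc1 : ∀ x : ZMod N, ¬ (onCut m (lf0 ι (bE x y₁)).1 ∧ onCut m (lf0 ι (bE x y₁)).2) :=
    fun x hx => hnc x hx.1
  have hnc2 : ∀ x : ZMod N, ¬ (onCut m (lf0 ι (bE x y₁).swap).1 ∧
      onCut m (lf0 ι (bE x y₁).swap).2) := fun x hx => hnc x hx.2
  have k1 : ∀ x, lf0 ι (bE x y₁).swap ∈ Sides (SQ (CQ N) σ) (bF ι B0) := fun x =>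
    h.cov.side (bE_swap_side.2 (htop x))
  have k2 : ∀ x, lf0 ι (bE x y₁) ∉ Sides (SQ (CQ N) σ) (F : Set (Option ι × (ZMod N × ℤ))) := by
    intro x
    rw [hF]
    refine h.cov.not_side fun hs => ?_
    have h1 := hall _ (bE_side.1 hs)
    simp only at h1
    omega
  have kb : ∀ x, dblA m true (lf0 ι (bE x y₁)) ∈ Sides (dbl (SQ (CQ N) σ) F m hm) (dF (bF ι B0)) :=
    fun x => (dbl_side_true hbF (hnc1 x)).2 (k1 x)
  have kt : ∀ x, dblA m false (lf0 ι (bE x y₁).swap) ∈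
      Sides (dbl (SQ (CQ N) σ) F m hm) (dF (bF ι B0)) :=
    fun x => (dbl_side_false hbF (hnc2 x)).2 (k1 x)
  have kb' : ∀ x, dblA m true (lf0 ι (bE x y₁)) ∈ bS (dbl (SQ (CQ N) σ) F m hm) F' := by
    intro x
    refine mem_bS_of ?_ ?_
    · rw [hcF]; exact sides_incl (dF_mono hbF) (kb x)
    · rw [hcF]
      intro hs
      have h1 : dblA m true (lf0 ι (bE x y₁).swap) ∈ Sides (dbl (SQ (CQ N) σ) F m hm)
        (dF (F : Set (Option ι × (ZMod N × ℤ)))) := hs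
      exact k2 x ((dbl_side_true subset_rfl (hnc2 x)).1 h1)
  have kt' : ∀ x, dblA m false (lf0 ι (bE x y₁).swap) ∈ bS (dbl (SQ (CQ N) σ) F m hm) F' := by
    intro x
    refine mem_bS_of ?_ ?_
    · rw [hcF]; exact sides_incl (dF_mono hbF) (kt x)
    · rw [hcF]
      intro hs
      have h1 : dblA m false (lf0 ι (bE x y₁)) ∈ Sides (dbl (SQ (CQ N) σ) F m hm)
        (dF (F : Set (Option ι × (ZMod N × ℤ)))) := hs
      exact k2 x ((dbl_side_false subset_rfl (hnc1 x)).1 h1)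
  have pb : ∀ x, Prod.map (dpos (hrv Y)) (dpos (hrv Y)) (dblA m true (lf0 ι (bE x y₁))) =
      bE x (2 * Y - y₁) := fun x =>
    (dblA_true_snd (pv := Prod.snd) fun v hv => (h.cut v hv).2).trans rfl
  have pt : ∀ x, Prod.map (dpos (hrv Y)) (dpos (hrv Y)) (dblA m false (lf0 ι (bE x y₁).swap)) =
      (bE x y₁).swap := fun x => (dblA_false_snd (hrv Y) Prod.snd).trans rfl
  have hbase : ∀ a ∈ Eb ∪ Et, a ∈ Sides (dbl (SQ (CQ N) σ) F m hm) (dF (bF ι B0)) := by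
    intro a ha
    rcases Finset.mem_union.1 ha with ha | ha
    · obtain ⟨x, rfl⟩ := hb a ha
      exact kb x
    · obtain ⟨x, rfl⟩ := ht a ha
      exact kt x
  refine turns_of_sim (φ := Prod.map (dpos (hrv Y)) (dpos (hrv Y))) (y₀ := 2 * Y - y₁) (y₁ := y₁)
    (by omega) (hcF ▸ h.t1 hF (t1_cyl hodd) hm ω) ((noLoop_CQ.sheets σ).double hm) (fun _ => rfl)
    ?_ ?_ ?_ ?_
  · intro a ha
    obtain ⟨x, rfl⟩ := hb a ha
    exact ⟨kb' x, x, pb x⟩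
  · intro a ha
    obtain ⟨x, rfl⟩ := ht a ha
    exact ⟨kt' x, x, pt x⟩
  · intro a ha b hb' hab
    rcases Finset.mem_union.1 ha with ha | ha <;> rcases Finset.mem_union.1 hb' with hb' | hb'
    · obtain ⟨x, rfl⟩ := hb a ha
      obtain ⟨x', rfl⟩ := hb b hb'
      rw [pb, pb] at hab
      rw [(bE_inj hab).1]
    · obtain ⟨x, rfl⟩ := hb a ha
      obtain ⟨x', rfl⟩ := ht b hb'
      rw [pb, pt] at hab
      have h1 : 2 * Y - y₁ = y₁ := congrArg (fun e => e.1.2) hab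
      omega
    · obtain ⟨x, rfl⟩ := ht a ha
      obtain ⟨x', rfl⟩ := hb b hb'
      rw [pb, pt] at hab
      have h1 : y₁ = 2 * Y - y₁ := congrArg (fun e => e.1.2) hab
      omega
    · obtain ⟨x, rfl⟩ := ht a ha
      obtain ⟨x', rfl⟩ := ht b hb'
      rw [pt, pt] at hab
      rw [(bE_inj (Prod.swap_injective hab)).1]
  · intro a ha b hb' n t hW
    obtain ⟨ω', -, h2⟩ := h.sim hF hm ω
    rw [hcF] at hW
    obtain ⟨n', h3⟩ := h2 a b.swap n t (Or.inl (hbase a ha))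
      (Or.inr (by rw [Prod.swap_swap]; exact hbase b hb')) hW
    refine ⟨ω', n', h3.mono ?_ subset_rfl⟩
    rintro g ⟨g', hg', rfl | rfl⟩
    · have h1 := hall g hg'
      exact Finset.mem_coe.2 (mem_cylF.2 ⟨by omega, h1.2⟩)
    · have h1 := hall g' hg'
      refine Finset.mem_coe.2 (mem_cylF.2 ?_)
      show 2 * Y - y₁ ≤ 2 * Y - 1 - g'.2 ∧ 2 * Y - 1 - g'.2 < y₁
      omega

/-- **TURNINGS OF THE DOUBLE OF THE LOWER PART**, window `[y₀, 2 * Y - y₀]`. -/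
theorem DblOK.turnsD (h : DblOK (CQ N) p pf σ μ U B0 J m (hrv Y) (hrf Y) 3 {f | f.2 < Y})
    (hodd : Odd N) (hy : y₀ < Y) (hF : (F : Set (Option ι × (ZMod N × ℤ))) = covJ pf U B0 J)
    (hm : OneSided (SQ (CQ N) σ) F m) (hB : ∀ g ∈ B0, y₀ ≤ g.2)
    (htri : ∀ i ∈ J, ∀ f, (μ i).tri f → y₀ ≤ (pf f).2) (hbot : ∀ x, (x, y₀) ∈ B0)
    (hF' : ∀ z, z ∈ F' ↔ z.1 ∈ F) (hb : ∀ a ∈ Eb, ∃ x, a = dblA m false (lf0 ι (bE x y₀)))
    (ht : ∀ a ∈ Et, ∃ x, a = dblA m true (lf0 ι (bE x y₀).swap))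
    (ω : (Option ι × (ZMod N × ℤ)) × Bool → Bool) :
    Rel.Turns (dbl (SQ (CQ N) σ) F m hm) F' ω Eb Et := by
  have hcF := coe_dF hF'
  have hall : ∀ g ∈ B0 ∪ ⋃ i ∈ J, pf '' {f | (μ i).tri f}, y₀ ≤ g.2 ∧ g.2 < Y := by
    rintro g (hg | hg)
    · exact ⟨hB g hg, h.half0 hg⟩
    · obtain ⟨i, hg⟩ := Set.mem_iUnion.1 hg
      obtain ⟨hi, f, hf, rfl⟩ := Set.mem_iUnion.1 hg
      exact ⟨htri i hi f hf, h.halfT i hi f hf⟩
  have hbF : bF ι B0 ⊆ (F : Set (Option ι × (ZMod N × ℤ))) := by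
    rw [hF]; exact Set.subset_union_left
  have hnc : ∀ x : ZMod N, ¬ onCut m (lf0 ι (bE x y₀)).1 := by
    intro x hc
    have h1 : 2 * Y - y₀ = y₀ := congrArg (fun v : ZMod N × ℤ => v.2) (h.cut _ hc).2
    omega
  have hnc1 : ∀ x : ZMod N, ¬ (onCut m (lf0 ι (bE x y₀)).1 ∧ onCut m (lf0 ι (bE x y₀)).2) :=
    fun x hx => hnc x hx.1
  have hnc2 : ∀ x : ZMod N, ¬ (onCut m (lf0 ι (bE x y₀).swap).1 ∧
      onCut m (lf0 ι (bE x y₀).swap).2) := fun x hx => hnc x hx.2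
  have k1 : ∀ x, lf0 ι (bE x y₀) ∈ Sides (SQ (CQ N) σ) (bF ι B0) := fun x =>
    h.cov.side (bE_side.2 (hbot x))
  have k2 : ∀ x, lf0 ι (bE x y₀).swap ∉
      Sides (SQ (CQ N) σ) (F : Set (Option ι × (ZMod N × ℤ))) := by
    intro x
    rw [hF]
    refine h.cov.not_side fun hs => ?_
    have h1 := hall _ (bE_swap_side.1 hs)
    simp only at h1
    omega
  have kb : ∀ x, dblA m false (lf0 ι (bE x y₀)) ∈ Sides (dbl (SQ (CQ N) σ) F m hm) (dF (bF ι B0)) :=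
    fun x => (dbl_side_false hbF (hnc1 x)).2 (k1 x)
  have kt : ∀ x, dblA m true (lf0 ι (bE x y₀).swap) ∈
      Sides (dbl (SQ (CQ N) σ) F m hm) (dF (bF ι B0)) :=
    fun x => (dbl_side_true hbF (hnc2 x)).2 (k1 x)
  have kb' : ∀ x, dblA m false (lf0 ι (bE x y₀)) ∈ bS (dbl (SQ (CQ N) σ) F m hm) F' := by
    intro x
    refine mem_bS_of ?_ ?_
    · rw [hcF]; exact sides_incl (dF_mono hbF) (kb x)
    · rw [hcF]
      intro hs
      have h1 : dblA m false (lf0 ι (bE x y₀).swap) ∈ Sides (dbl (SQ (CQ N) σ) F m hm)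
        (dF (F : Set (Option ι × (ZMod N × ℤ)))) := hs
      exact k2 x ((dbl_side_false subset_rfl (hnc2 x)).1 h1)
  have kt' : ∀ x, dblA m true (lf0 ι (bE x y₀).swap) ∈ bS (dbl (SQ (CQ N) σ) F m hm) F' := by
    intro x
    refine mem_bS_of ?_ ?_
    · rw [hcF]; exact sides_incl (dF_mono hbF) (kt x)
    · rw [hcF]
      intro hs
      have h1 : dblA m true (lf0 ι (bE x y₀)) ∈ Sides (dbl (SQ (CQ N) σ) F m hm)
        (dF (F : Set (Option ι × (ZMod N × ℤ)))) := hs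
      exact k2 x ((dbl_side_true subset_rfl (hnc1 x)).1 h1)
  have pb : ∀ x, Prod.map (dpos (hrv Y)) (dpos (hrv Y)) (dblA m false (lf0 ι (bE x y₀))) =
      bE x y₀ := fun x => (dblA_false_snd (hrv Y) Prod.snd).trans rfl
  have pt : ∀ x, Prod.map (dpos (hrv Y)) (dpos (hrv Y)) (dblA m true (lf0 ι (bE x y₀).swap)) =
      (bE x (2 * Y - y₀)).swap := fun x =>
    (dblA_true_snd (pv := Prod.snd) fun v hv => (h.cut v hv).2).trans rfl
  have hbase : ∀ a ∈ Eb ∪ Et, a ∈ Sides (dbl (SQ (CQ N) σ) F m hm) (dF (bF ι B0)) := by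
    intro a ha
    rcases Finset.mem_union.1 ha with ha | ha
    · obtain ⟨x, rfl⟩ := hb a ha
      exact kb x
    · obtain ⟨x, rfl⟩ := ht a ha
      exact kt x
  refine turns_of_sim (φ := Prod.map (dpos (hrv Y)) (dpos (hrv Y))) (y₀ := y₀) (y₁ := 2 * Y - y₀)
    (by omega) (hcF ▸ h.t1 hF (t1_cyl hodd) hm ω) ((noLoop_CQ.sheets σ).double hm) (fun _ => rfl)
    ?_ ?_ ?_ ?_
  · intro a ha
    obtain ⟨x, rfl⟩ := hb a ha
    exact ⟨kb' x, x, pb x⟩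
  · intro a ha
    obtain ⟨x, rfl⟩ := ht a ha
    exact ⟨kt' x, x, pt x⟩
  · intro a ha b hb' hab
    rcases Finset.mem_union.1 ha with ha | ha <;> rcases Finset.mem_union.1 hb' with hb' | hb'
    · obtain ⟨x, rfl⟩ := hb a ha
      obtain ⟨x', rfl⟩ := hb b hb'
      rw [pb, pb] at hab
      rw [(bE_inj hab).1]
    · obtain ⟨x, rfl⟩ := hb a ha
      obtain ⟨x', rfl⟩ := ht b hb'
      rw [pb, pt] at hab
      have h1 : y₀ = 2 * Y - y₀ := congrArg (fun e => e.1.2) hab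
      omega
    · obtain ⟨x, rfl⟩ := ht a ha
      obtain ⟨x', rfl⟩ := hb b hb'
      rw [pb, pt] at hab
      have h1 : 2 * Y - y₀ = y₀ := congrArg (fun e => e.1.2) hab
      omega
    · obtain ⟨x, rfl⟩ := ht a ha
      obtain ⟨x', rfl⟩ := ht b hb'
      rw [pt, pt] at hab
      rw [(bE_inj (Prod.swap_injective hab)).1]
  · intro a ha b hb' n t hW
    obtain ⟨ω', -, h2⟩ := h.sim hF hm ω
    rw [hcF] at hW
    obtain ⟨n', h3⟩ := h2 a b.swap n t (Or.inl (hbase a ha))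
      (Or.inr (by rw [Prod.swap_swap]; exact hbase b hb')) hW
    refine ⟨ω', n', h3.mono ?_ subset_rfl⟩
    rintro g ⟨g', hg', rfl | rfl⟩
    · have h1 := hall g hg'
      exact Finset.mem_coe.2 (mem_cylF.2 ⟨h1.1, by omega⟩)
    · have h1 := hall g' hg'
      refine Finset.mem_coe.2 (mem_cylF.2 ?_)
      show y₀ ≤ 2 * Y - 1 - g'.2 ∧ 2 * Y - 1 - g'.2 < 2 * Y - y₀
      omega

end DblTurns

/-! ## Outer arcs of a box of the plane -/

/-- label of the outer sides of a rectangle (counterclockwise directed) in the gauge with the seam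
at the column `X` of the top: `-2` on the top to the left of `X`, `-1` left, `0` bottom, `1` right,
`2` on the top to the right of `X` -/
def boxLab (X : ℤ) (e : (ℤ × ℤ) × (ℤ × ℤ)) : ℤ :=
  if e.2.1 = e.1.1 + 1 then 0 else if e.2.2 = e.1.2 + 1 then 1 else
    if e.1.2 = e.2.2 + 1 then -1 else if e.1.1 ≤ X then -2 else 2

theorem boxLab_0 (X x y : ℤ) : boxLab X ((x, y), (x + 1, y)) = 0 := by
  unfold boxLab
  simp

theorem boxLab_1 (X x y : ℤ) : boxLab X ((x, y), (x, y + 1)) = 1 := by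
  unfold boxLab
  simp

theorem boxLab_2 (X x y : ℤ) : boxLab X ((x, y), (x - 1, y)) = if x ≤ X then -2 else 2 := by
  have h1 : ¬ (x - 1 = x + 1) := by omega
  have h2 : ¬ (y = y + 1) := by omega
  unfold boxLab
  simp only [h1, h2, if_false]

theorem boxLab_3 (X x y : ℤ) : boxLab X ((x, y), (x, y - 1)) = -1 := by
  have h1 : ¬ (x = x + 1) := by omega
  have h2 : ¬ (y - 1 = y + 1) := by omega
  have h3 : y = y - 1 + 1 := by omega
  unfold boxLab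
  simp only [h1, h2, if_false]
  exact if_pos h3

theorem seg_0 (x y i : ℤ) : (((x, y) : ℤ × ℤ) + i • dv 0, ((x, y) : ℤ × ℤ) + i • dv 0 + dv 0) =
    ((x + i, y), (x + i + 1, y)) := by
  rw [dv0]
  simp

theorem seg_1 (x y i : ℤ) : (((x, y) : ℤ × ℤ) + i • dv 1, ((x, y) : ℤ × ℤ) + i • dv 1 + dv 1) =
    ((x, y + i), (x, y + i + 1)) := by
  rw [dv1]
  simp

theorem seg_2 (x y i : ℤ) : (((x, y) : ℤ × ℤ) + i • dv 2, ((x, y) : ℤ × ℤ) + i • dv 2 + dv 2) =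
    ((x - i, y), (x - i - 1, y)) := by
  rw [dv2]
  simp [sub_eq_add_neg]

theorem seg_3 (x y i : ℤ) : (((x, y) : ℤ × ℤ) + i • dv 3, ((x, y) : ℤ × ℤ) + i • dv 3 + dv 3) =
    ((x, y - i), (x, y - i - 1)) := by
  rw [dv3]
  simp [sub_eq_add_neg]

theorem segm_lab {p : ℤ × ℤ} {a : ℤ} {n : ℕ} {x : ((ℤ × ℤ) × (ℤ × ℤ)) × ℤ}
    (h : x ∈ segm id p a n) : ∃ i : ℕ, i < n ∧
      x = ((p + (i : ℤ) • dv a, p + (i : ℤ) • dv a + dv a), a) := by
  induction n generalizing p with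
  | zero => rw [segm_zero] at h; exact absurd h (by simp)
  | succ n ih =>
    rw [segm_succ, List.mem_cons] at h
    rcases h with rfl | h
    · exact ⟨0, Nat.succ_pos n, by simp⟩
    · obtain ⟨i, hi, rfl⟩ := ih h
      refine ⟨i + 1, by omega, ?_⟩
      have h2 : p + dv a + (i : ℤ) • dv a = p + ((i + 1 : ℕ) : ℤ) • dv a := by
        push_cast
        rw [add_smul, one_smul, add_assoc, add_comm (dv a)]
      rw [h2]

theorem lft_mem {α : Type} {c : ℤ} {u : List ((α × α) × ℤ)} {x : (α × α) × ℤ} (h : x ∈ lft c u) :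
    ∃ y ∈ u, x = (y.1, y.2 + c) := by
  unfold lft at h
  obtain ⟨y, hy, rfl⟩ := List.mem_map.1 h
  exact ⟨y, hy, rfl⟩

/-- The boundary word of a rectangle which starts on the top at the column `X`. -/
theorem exists_boxW {x₀ x₁ y₀ y₁ X : ℤ} (hx : x₀ < x₁) (hy : y₀ < y₁) (h0 : x₀ ≤ X) (h1 : X ≤ x₁) :
    ∃ w, Disc ZQ (RS x₀ x₁ y₀ y₁) (Glued ZQ (RS x₀ x₁ y₀ y₁)) w ∧ ∀ x ∈ w, x.2 = boxLab X x.1 := by
  have hD := disc_RS (x₀ := x₀) (x₁ := x₁) (y₀ := y₀) (y₁ := y₁) hx hy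
  have e1 : (x₁ - x₀).toNat = (x₁ - X).toNat + (X - x₀).toNat := by omega
  have e2 : ((x₁, y₁) : ℤ × ℤ) + (((x₁ - X).toNat : ℕ) : ℤ) • dv 2 = (X, y₁) := by
    rw [dv2]
    ext
    · simp only [Prod.fst_add, Prod.smul_mk, smul_eq_mul]; omega
    · simp
  have e3 : rectW x₀ x₁ y₀ y₁ = (segm id (x₀, y₀) 0 (x₁ - x₀).toNat ++
      (segm id (x₁, y₀) 1 (y₁ - y₀).toNat ++ segm id (x₁, y₁) 2 (x₁ - X).toNat)) ++
      (segm id (X, y₁) 2 (X - x₀).toNat ++ segm id (x₀, y₁) 3 (y₁ - y₀).toNat) := by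
    unfold rectW
    have e4 : segm id (x₁, y₁) 2 (x₁ - x₀).toNat =
        segm id (x₁, y₁) 2 (x₁ - X).toNat ++ segm id (X, y₁) 2 (X - x₀).toNat := by
      rw [e1, segm_add, e2]
    rw [e4]
    simp
  rw [e3] at hD
  refine ⟨_, (Disc.rots hD).lft (-4), ?_⟩
  intro x hx'
  obtain ⟨y, hy', rfl⟩ := lft_mem hx'
  rw [List.mem_append] at hy'
  rcases hy' with hy' | hy'
  · rw [List.mem_append] at hy'
    rcases hy' with hy' | hy'
    · obtain ⟨i, hi, rfl⟩ := segm_lab hy'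
      show (2 : ℤ) + -4 = boxLab X ((X, y₁) + (i : ℤ) • dv 2, (X, y₁) + (i : ℤ) • dv 2 + dv 2)
      rw [seg_2, boxLab_2, if_pos (by omega)]
      norm_num
    · obtain ⟨i, hi, rfl⟩ := segm_lab hy'
      show (3 : ℤ) + -4 = boxLab X ((x₀, y₁) + (i : ℤ) • dv 3, (x₀, y₁) + (i : ℤ) • dv 3 + dv 3)
      rw [seg_3, boxLab_3]
      norm_num
  · obtain ⟨z, hz, rfl⟩ := lft_mem hy'
    rw [List.mem_append, List.mem_append] at hz
    rcases hz with hz | hz | hz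
    · obtain ⟨i, hi, rfl⟩ := segm_lab hz
      show (0 : ℤ) + 4 + -4 = boxLab X ((x₀, y₀) + (i : ℤ) • dv 0, (x₀, y₀) + (i : ℤ) • dv 0 + dv 0)
      rw [seg_0, boxLab_0]
      norm_num
    · obtain ⟨i, hi, rfl⟩ := segm_lab hz
      show (1 : ℤ) + 4 + -4 = boxLab X ((x₁, y₀) + (i : ℤ) • dv 1, (x₁, y₀) + (i : ℤ) • dv 1 + dv 1)
      rw [seg_1, boxLab_1]
      norm_num
    · obtain ⟨i, hi, rfl⟩ := segm_lab hz
      show (2 : ℤ) + 4 + -4 = boxLab X ((x₁, y₁) + (i : ℤ) • dv 2, (x₁, y₁) + (i : ℤ) • dv 2 + dv 2)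
      rw [seg_2, boxLab_2, if_neg (by omega)]
      norm_num

theorem two_of_mem' {α : Type} {w : List α} {x y : α} (hx : x ∈ w) (hy : y ∈ w) (hxy : x ≠ y) :
    (∃ u v, w = u ++ x :: v ∧ y ∈ v) ∨ ∃ u v, w = u ++ y :: v ∧ x ∈ v := by
  have h := two_of_mem (r := []) (s := []) hx hy hxy
  simpa using h

/-- **Turnings of walks between outer sides of a rectangle.** -/
theorem box_walk {x₀ x₁ y₀ y₁ X : ℤ} (hx : x₀ < x₁) (hy : y₀ < y₁) (h0 : x₀ ≤ X) (h1 : X ≤ x₁)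
    {w : ℤ × ℤ → Bool} {G : Set ((ℤ × ℤ) × (ℤ × ℤ))} {n : ℕ} {t : ℤ} {a b : (ℤ × ℤ) × (ℤ × ℤ)}
    (ha : a ∈ Sides ZQ (RS x₀ x₁ y₀ y₁)) (ha' : a.swap ∉ Sides ZQ (RS x₀ x₁ y₀ y₁))
    (hb : b ∈ Sides ZQ (RS x₀ x₁ y₀ y₁)) (hb' : b.swap ∉ Sides ZQ (RS x₀ x₁ y₀ y₁)) (hab : a ≠ b)
    (h : Walk ZQ w (RS x₀ x₁ y₀ y₁) G n a b.swap t) :
    t = boxLab X b - boxLab X a - 2 ∨ t = boxLab X b - boxLab X a + 2 := by
  obtain ⟨W, hD, hl⟩ := exists_boxW hx hy h0 h1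
  have h2 := h.interGlued.mono subset_rfl Set.inter_subset_right
  obtain ⟨x, hx1, rfl⟩ := List.mem_map.1 (hD.mem_of_bd ha ha')
  obtain ⟨y, hy1, rfl⟩ := List.mem_map.1 (hD.mem_of_bd hb hb')
  have hxy : x ≠ y := fun e => hab (by rw [e])
  rw [← hl x hx1, ← hl y hy1]
  rcases two_of_mem' hx1 hy1 hxy with ⟨u, v, h3, h4⟩ | ⟨u, v, h3, h4⟩
  · left
    exact hD.walk_fwd h3 h4 h2
  · right
    have := hD.walk_bwd h3 h4 h2
    omega

/-- **OUTER ARCS**: complex whose strands between outer sides are simulated in a rectangle. -/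
theorem box_turns {V Φ : Type} [DecidableEq V] [DecidableEq Φ] {Q : QC V Φ} {F : Finset Φ}
    {ω : Φ → Bool} {x₀ x₁ y₀ y₁ X : ℤ} (hx : x₀ < x₁) (hy : y₀ < y₁) (h0 : x₀ ≤ X) (h1 : X ≤ x₁)
    (hQ : NoLoop Q) {Eo : Finset (V × V)} {φ : V × V → (ℤ × ℤ) × (ℤ × ℤ)}
    (hφ : ∀ a, φ a.swap = (φ a).swap)
    (ho : ∀ a ∈ Eo, a ∈ bS Q F ∧ φ a ∈ Sides ZQ (RS x₀ x₁ y₀ y₁) ∧
      (φ a).swap ∉ Sides ZQ (RS x₀ x₁ y₀ y₁))
    (hinj : ∀ a ∈ Eo, ∀ b ∈ Eo, φ a = φ b → a = b)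
    (hsim : ∀ a ∈ Eo, ∀ b ∈ Eo, ∀ n t, Walk Q ω (F : Set Φ) Set.univ n a b.swap t →
      ∃ (ω' : ℤ × ℤ → Bool) (n' : ℕ),
        Walk ZQ ω' (RS x₀ x₁ y₀ y₁) Set.univ n' (φ a) (φ b.swap) t) {a : V × V} (ha : a ∈ Eo)
    (hm : mate Q F ω a ∈ Eo) :
    turn Q F ω a = boxLab X (φ (mate Q F ω a)) - boxLab X (φ a) - 2 ∨
      turn Q F ω a = boxLab X (φ (mate Q F ω a)) - boxLab X (φ a) + 2 := by
  obtain ⟨h2, h3, h4⟩ := ho a ha
  obtain ⟨-, h5, h6⟩ := ho _ hm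
  obtain ⟨n, hW⟩ := arc_walk (ω := ω) h2
  obtain ⟨ω', n', h7⟩ := hsim a ha _ hm n _ hW
  rw [hφ] at h7
  refine box_walk hx hy h0 h1 h3 h4 h5 h6 ?_ h7
  intro h8
  exact mate_ne hQ h2 (hinj _ ha _ hm h8).symm

/-! ## The plane with pockets and its doubles in a box -/

theorem nl_ZQ : NoLoop ZQ := by
  rintro ⟨x, y⟩ k
  change cor0 (x, y) k ≠ cor0 (x, y) (k + 1)
  have e1 : (0 : ZMod 4) + 1 = 1 := rfl
  have e2 : (1 : ZMod 4) + 1 = 2 := rfl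
  have e3 : (2 : ZMod 4) + 1 = 3 := rfl
  have e4 : (3 : ZMod 4) + 1 = 0 := rfl
  rcases k4_cases k with rfl | rfl | rfl | rfl
  · rw [e1, cor0_0, cor0_1]; simp
  · rw [e2, cor0_1, cor0_2]; simp
  · rw [e3, cor0_2, cor0_3]; simp
  · rw [e4, cor0_3, cor0_0]; simp

theorem RefOK.ref_sd {VB ΦB : Type} {B : QC VB ΦB} {θv : VB → VB} {θf : ΦB → ΦB} {s : ZMod 4}
    {H : Set ΦB} (h : RefOK B θv θf s H) (f : ΦB) (k : ZMod 4) :
    sd B (θf f) (s - 1 - k) = (Prod.map θv θv (SixB.sd B f k)).swap := by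
  unfold SixB.sd
  have h1 := h.cor f (k + 1)
  have h2 := h.cor f k
  rw [show s - (k + 1) = s - 1 - k by ring] at h1
  rw [show s - 1 - k + 1 = s - k by ring, h1, h2]
  rfl

section BoxT

set_option synthInstance.maxSize 1000

variable {ι κ : Type} [DecidableEq ι] {p pf : ℤ × ℤ → ℤ × ℤ}
  {σ : ℤ × ℤ → ZMod 4 → Equiv.Perm (Option ι)} {μ : ι → Mouth} {U : ι → Set (ℤ × ℤ)}
  {B0 : Set (ℤ × ℤ)} {J : Set ι} {x₀ x₁ y₀ y₁ X : ℤ}
  {m : κ → (Option ι × (ℤ × ℤ)) × (Option ι × (ℤ × ℤ))} {θv θf : ℤ × ℤ → ℤ × ℤ} {s : ZMod 4}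
  {H : Set (ℤ × ℤ)} {F : Finset (Option ι × (ℤ × ℤ))} {F' : Finset ((Option ι × (ℤ × ℤ)) × Bool)}

/-- **BOX TURNINGS OF THE PLANE WITH POCKETS.** -/
theorem CovOK.boxT (h : CovOK ZQ p pf σ μ U B0) (hx : x₀ < x₁) (hy : y₀ < y₁) (h0 : x₀ ≤ X)
    (h1 : X ≤ x₁) (hF : (F : Set (Option ι × (ℤ × ℤ))) = covJ pf U B0 J)
    (hB : B0 ⊆ RS x₀ x₁ y₀ y₁) (htri : ∀ i f, (μ i).tri f → pf f ∈ RS x₀ x₁ y₀ y₁)
    {Eo : Finset ((Option ι × (ℤ × ℤ)) × (Option ι × (ℤ × ℤ)))}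
    (ho : ∀ a ∈ Eo, ∃ e, a = lf0 ι e ∧ e ∈ Sides ZQ B0 ∧ e.swap ∉ Sides ZQ (RS x₀ x₁ y₀ y₁))
    (ω : Option ι × (ℤ × ℤ) → Bool) :
    T1 (SQ ZQ σ) ω (F : Set (Option ι × (ℤ × ℤ))) ∧
      ∀ a ∈ Eo, a ∈ bS (SQ ZQ σ) F ∧ (mate (SQ ZQ σ) F ω a ∈ Eo →
        turn (SQ ZQ σ) F ω a = boxLab X (Prod.map Prod.snd Prod.snd (mate (SQ ZQ σ) F ω a)) -
          boxLab X (Prod.map Prod.snd Prod.snd a) - 2 ∨
        turn (SQ ZQ σ) F ω a = boxLab X (Prod.map Prod.snd Prod.snd (mate (SQ ZQ σ) F ω a)) -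
          boxLab X (Prod.map Prod.snd Prod.snd a) + 2) := by
  have hFs : (F : Set (Option ι × (ℤ × ℤ))) ⊆ covF pf U B0 := hF ▸ covJ_sub
  have hall : B0 ∪ ⋃ i ∈ J, pf '' {f | (μ i).tri f} ⊆ RS x₀ x₁ y₀ y₁ := by
    rintro g (hg | hg)
    · exact hB hg
    · obtain ⟨i, hg⟩ := Set.mem_iUnion.1 hg
      obtain ⟨-, f, hf, rfl⟩ := Set.mem_iUnion.1 hg
      exact htri i f hf
  have hbF : bF ι B0 ⊆ (F : Set (Option ι × (ℤ × ℤ))) := by
    rw [hF]; exact Set.subset_union_left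
  have hbase : ∀ a ∈ Eo, a ∈ Sides (SQ ZQ σ) (bF ι B0) := by
    intro a ha
    obtain ⟨e, rfl, h2, -⟩ := ho a ha
    exact h.side h2
  have hbS : ∀ a ∈ Eo, a ∈ bS (SQ ZQ σ) F := by
    intro a ha
    refine mem_bS_of (sides_incl hbF (hbase a ha)) ?_
    obtain ⟨e, rfl, -, h3⟩ := ho a ha
    rw [hF]
    exact h.not_side (e := e.swap) fun hs => h3 (sides_incl hall hs)
  refine ⟨(h.t1 t1_plane ω).mono hFs, fun a ha => ⟨hbS a ha, fun hm => ?_⟩⟩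
  refine box_turns (φ := Prod.map Prod.snd Prod.snd) hx hy h0 h1 (nl_ZQ.sheets σ)
    (fun _ => rfl) ?_ ?_ ?_ ha hm
  · intro a ha
    obtain ⟨e, he, h2, h3⟩ := ho a ha
    refine ⟨hbS a ha, ?_, ?_⟩
    · rw [he]; exact sides_incl hB h2
    · rw [he]; exact h3
  · intro a ha b hb hab
    obtain ⟨e, rfl, -, -⟩ := ho a ha
    obtain ⟨e', rfl, -, -⟩ := ho b hb
    rw [lf0_snd, lf0_snd] at hab
    rw [hab]
  · intro a ha b hb n t hW
    obtain ⟨ω', -, h2⟩ := h.sim ω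
    obtain ⟨n', h3⟩ := h2 a b.swap n t (Or.inl (hbase a ha))
      (Or.inr (by rw [Prod.swap_swap]; exact hbase b hb)) (hW.mono hFs subset_rfl)
    refine ⟨ω', n', h3.mono ?_ subset_rfl⟩
    rintro g (hg | hg)
    · exact hB hg
    · obtain ⟨i, f, hf, rfl⟩ := Set.mem_iUnion.1 hg
      exact htri i f hf

/-- **BOX TURNINGS OF THE DOUBLED PLANE WITH POCKETS.** -/
theorem DblOK.boxT (h : DblOK ZQ p pf σ μ U B0 J m θv θf s H) (hx : x₀ < x₁) (hy : y₀ < y₁)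
    (h0 : x₀ ≤ X) (h1 : X ≤ x₁) (hF : (F : Set (Option ι × (ℤ × ℤ))) = covJ pf U B0 J)
    (hm : OneSided (SQ ZQ σ) F m)
    (hR : ∀ g ∈ B0 ∪ ⋃ i ∈ J, pf '' {f | (μ i).tri f}, g ∈ RS x₀ x₁ y₀ y₁ ∧ θf g ∈ RS x₀ x₁ y₀ y₁)
    (hF' : ∀ z, z ∈ F' ↔ z.1 ∈ F)
    {Eo : Finset (((Option ι × (ℤ × ℤ)) × Bool × Bool) × ((Option ι × (ℤ × ℤ)) × Bool × Bool))}
    (ho : ∀ a ∈ Eo, (∃ e, a = dblA m false (lf0 ι e) ∧ e ∈ Sides ZQ B0 ∧
        e.swap ∉ Sides ZQ (RS x₀ x₁ y₀ y₁)) ∨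
      ∃ e, a = dblA m true (lf0 ι e) ∧ e.swap ∈ Sides ZQ B0 ∧
        (Prod.map θv θv e).swap ∉ Sides ZQ (RS x₀ x₁ y₀ y₁))
    (ω : (Option ι × (ℤ × ℤ)) × Bool → Bool) :
    T1 (dbl (SQ ZQ σ) F m hm) ω (F' : Set ((Option ι × (ℤ × ℤ)) × Bool)) ∧
      ∀ a ∈ Eo, a ∈ bS (dbl (SQ ZQ σ) F m hm) F' ∧
        (mate (dbl (SQ ZQ σ) F m hm) F' ω a ∈ Eo →
        turn (dbl (SQ ZQ σ) F m hm) F' ω a =
          boxLab X (Prod.map (dpos θv) (dpos θv) (mate (dbl (SQ ZQ σ) F m hm) F' ω a)) -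
            boxLab X (Prod.map (dpos θv) (dpos θv) a) - 2 ∨
        turn (dbl (SQ ZQ σ) F m hm) F' ω a =
          boxLab X (Prod.map (dpos θv) (dpos θv) (mate (dbl (SQ ZQ σ) F m hm) F' ω a)) -
            boxLab X (Prod.map (dpos θv) (dpos θv) a) + 2) := by
  have hcF : (F' : Set ((Option ι × (ℤ × ℤ)) × Bool)) = dF (F : Set (Option ι × (ℤ × ℤ))) := by
    ext z
    rw [Finset.mem_coe, hF']
    rfl
  have hbF : bF ι B0 ⊆ (F : Set (Option ι × (ℤ × ℤ))) := by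
    rw [hF]; exact Set.subset_union_left
  have hRs : B0 ∪ ⋃ i ∈ J, pf '' {f | (μ i).tri f} ⊆ RS x₀ x₁ y₀ y₁ := fun g hg => (hR g hg).1
  have hsw : ∀ e : (ℤ × ℤ) × (ℤ × ℤ), e ∈ Sides ZQ (B0 ∪ ⋃ i ∈ J, pf '' {f | (μ i).tri f}) →
      (Prod.map θv θv e).swap ∈ Sides ZQ (RS x₀ x₁ y₀ y₁) := by
    rintro e ⟨g, hg, k, rfl⟩
    exact ⟨θf g, (hR g hg).2, _, (h.ref.ref_sd g k).symm⟩
  have hsw' : ∀ e : (ℤ × ℤ) × (ℤ × ℤ), e.swap ∈ Sides ZQ B0 →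
      Prod.map θv θv e ∈ Sides ZQ (RS x₀ x₁ y₀ y₁) := by
    rintro e he
    have := hsw e.swap (sides_incl Set.subset_union_left he)
    exact this
  -- ends on the cut line
  have hfix : ∀ e : (ℤ × ℤ) × (ℤ × ℤ), (onCut m (lf0 ι e).1 ∧ onCut m (lf0 ι e).2) →
      Prod.map θv θv e = e := by
    rintro e ⟨c1, c2⟩
    exact Prod.ext (h.cut _ c1).2 (h.cut _ c2).2
  have hncF : ∀ e : (ℤ × ℤ) × (ℤ × ℤ), e ∈ Sides ZQ B0 → e.swap ∉ Sides ZQ (RS x₀ x₁ y₀ y₁) →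
      ¬ (onCut m (lf0 ι e).1 ∧ onCut m (lf0 ι e).2) := by
    intro e h2 h3 hc
    apply h3
    have := hsw e (sides_incl Set.subset_union_left h2)
    rwa [hfix e hc] at this
  have hncT : ∀ e : (ℤ × ℤ) × (ℤ × ℤ), e.swap ∈ Sides ZQ B0 →
      (Prod.map θv θv e).swap ∉ Sides ZQ (RS x₀ x₁ y₀ y₁) →
      ¬ (onCut m (lf0 ι e).1 ∧ onCut m (lf0 ι e).2) := by
    intro e h2 h3 hc
    apply h3
    rw [hfix e hc]
    exact sides_incl (Set.subset_union_left.trans hRs) h2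
  have hbase : ∀ a ∈ Eo, a ∈ Sides (dbl (SQ ZQ σ) F m hm) (dF (bF ι B0)) := by
    intro a ha
    rcases ho a ha with ⟨e, rfl, h2, h3⟩ | ⟨e, rfl, h2, h3⟩
    · exact (dbl_side_false hbF (hncF e h2 h3)).2 (h.cov.side h2)
    · exact (dbl_side_true hbF (hncT e h2 h3)).2 (h.cov.side h2)
  have hbS : ∀ a ∈ Eo, a ∈ bS (dbl (SQ ZQ σ) F m hm) F' := by
    intro a ha
    refine mem_bS_of (by rw [hcF]; exact sides_incl (dF_mono hbF) (hbase a ha)) ?_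
    rw [hcF]
    rcases ho a ha with ⟨e, rfl, h2, h3⟩ | ⟨e, rfl, h2, h3⟩
    · intro hs
      have h4 : dblA m false (lf0 ι e.swap) ∈ Sides (dbl (SQ ZQ σ) F m hm)
        (dF (F : Set (Option ι × (ℤ × ℤ)))) := hs
      have h5 := (dbl_side_false subset_rfl (fun hc => hncF e h2 h3 ⟨hc.2, hc.1⟩)).1 h4
      rw [hF] at h5
      exact h.cov.not_side (fun hs => h3 (sides_incl hRs hs)) h5
    · intro hs
      have h4 : dblA m true (lf0 ι e.swap) ∈ Sides (dbl (SQ ZQ σ) F m hm)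
        (dF (F : Set (Option ι × (ℤ × ℤ)))) := hs
      have h5 := (dbl_side_true subset_rfl (fun hc => hncT e h2 h3 ⟨hc.2, hc.1⟩)).1 h4
      rw [hF] at h5
      exact h.cov.not_side (e := e) (fun hs => h3 (hsw e hs)) h5
  have pF' : ∀ e, Prod.map (dpos θv) (dpos θv) (dblA m false (lf0 ι e)) = e := fun e =>
    (dblA_false_snd θv Prod.snd).trans rfl
  have pT' : ∀ e, Prod.map (dpos θv) (dpos θv) (dblA m true (lf0 ι e)) = Prod.map θv θv e :=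
    fun e => (dblA_true_snd (pv := Prod.snd) fun v hv => (h.cut v hv).2).trans rfl
  have hcross : ∀ e e' : (ℤ × ℤ) × (ℤ × ℤ), e ∈ Sides ZQ B0 → e'.swap ∈ Sides ZQ B0 →
      e ≠ Prod.map θv θv e' := by
    rintro e e' ⟨g, hg, k, rfl⟩ ⟨g', hg', k', hk'⟩ he
    have h2 := h.ref.ref_sd g' k'
    rw [← hk'] at h2
    have h3 : SixB.sd ZQ (θf g') (s - 1 - k') = Prod.map θv θv e' := h2
    rw [← he] at h3
    obtain ⟨h4, -⟩ := sd_inj h3
    exact h.ref.half g' (h.half0 hg') (h4 ▸ h.half0 hg)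
  refine ⟨hcF ▸ h.t1 hF t1_plane hm ω, fun a ha => ⟨hbS a ha, fun hmm => ?_⟩⟩
  refine box_turns (φ := Prod.map (dpos θv) (dpos θv)) hx hy h0 h1
    ((nl_ZQ.sheets σ).double hm) (fun _ => rfl) ?_ ?_ ?_ ha hmm
  · intro a ha
    refine ⟨hbS a ha, ?_⟩
    rcases ho a ha with ⟨e, rfl, h2, h3⟩ | ⟨e, rfl, h2, h3⟩
    · rw [pF']
      exact ⟨sides_incl (Set.subset_union_left.trans hRs) h2, h3⟩
    · rw [pT']
      exact ⟨hsw' e h2, h3⟩
  · intro a ha b hb hab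
    rcases ho a ha with ⟨e, rfl, h2, h3⟩ | ⟨e, rfl, h2, h3⟩ <;>
      rcases ho b hb with ⟨e', rfl, h2', h3'⟩ | ⟨e', rfl, h2', h3'⟩
    · rw [pF', pF'] at hab
      rw [hab]
    · rw [pF', pT'] at hab
      exact absurd hab (hcross e e' h2 h2')
    · rw [pF', pT'] at hab
      exact absurd hab.symm (hcross e' e h2' h2)
    · rw [pT', pT'] at hab
      have h4 := congrArg (Prod.map θv θv) hab
      have h5 : e = e' := by
        refine Prod.ext ?_ ?_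
        · have := congrArg Prod.fst h4
          simpa only [Prod.map_fst, h.ref.invv] using this
        · have := congrArg Prod.snd h4
          simpa only [Prod.map_snd, h.ref.invv] using this
      rw [h5]
  · intro a ha b hb n t hW
    obtain ⟨ω', -, h2⟩ := h.sim hF hm ω
    rw [hcF] at hW
    obtain ⟨n', h3⟩ := h2 a b.swap n t (Or.inl (hbase a ha))
      (Or.inr (by rw [Prod.swap_swap]; exact hbase b hb)) hW
    refine ⟨ω', n', h3.mono ?_ subset_rfl⟩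
    rintro g ⟨g', hg', rfl | rfl⟩
    · exact (hR g hg').1
    · exact (hR g' hg').2

end BoxT

end Pool.Agent.SixB
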