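import Pool.Agent.Lib.SixB.S4Tower

/-!
# Normalised weights (6BD, block S4)

Blocks `k < K`, revealed sets `S k` (stopping sets), events `Gl k` (glued) and `Gd k` (good),
`glp W S Gl k` the conditional probability of `Gl k`, weights `hw` with `T_k hw = c 1[Gd k]`.
`abs_exr_le_weights` : if `G` is odd under the mirrors then
`|E G| <= E [M * prod (1 - c 1[Gd k])]`.  `prod_le_split` : counting of the bad blocks.
-/

set_option autoImplicit false

namespace Pool.Agent.SixB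

open Finset Pool.Agent.Perc Pool.Agent.PercT

variable {W : Finset (ℤ × ℤ)}

/-! ## (a) Telescoping -/

theorem tel_one (K : ℕ) (h : ℕ → ℝ) :
    ∑ k ∈ range K, h k * ∏ j ∈ Ico (k + 1) K, (1 - h j) + ∏ j ∈ range K, (1 - h j) = 1 := by
  induction K with
  | zero => simp
  | succ K ih =>
    rw [Finset.sum_range_succ, Finset.prod_range_succ, Finset.Ico_self, Finset.prod_empty]
    have h1 : ∑ k ∈ range K, h k * ∏ j ∈ Ico (k + 1) (K + 1), (1 - h j) =
        (∑ k ∈ range K, h k * ∏ j ∈ Ico (k + 1) K, (1 - h j)) * (1 - h K) := by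
      rw [Finset.sum_mul]
      refine Finset.sum_congr rfl fun k hk => ?_
      rw [Finset.prod_Ico_succ_top (Nat.succ_le_of_lt (Finset.mem_range.1 hk)), mul_assoc]
    rw [h1]
    linear_combination (1 - h K) * ih

theorem exr_tel (K : ℕ) (h : ℕ → Cfg → ℝ) (G : Cfg → ℝ) :
    exr W G = ∑ k ∈ range K, exr W (fun ω => G ω * h k ω * ∏ j ∈ Ico (k + 1) K, (1 - h j ω)) +
      exr W (fun ω => G ω * ∏ j ∈ range K, (1 - h j ω)) := by
  rw [← exr_sum, ← exr_add]
  refine exr_congr fun T _ => ?_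
  have h2 : ∑ k ∈ range K, G (cfg T) * h k (cfg T) * ∏ j ∈ Ico (k + 1) K, (1 - h j (cfg T)) =
      G (cfg T) * ∑ k ∈ range K, h k (cfg T) * ∏ j ∈ Ico (k + 1) K, (1 - h j (cfg T)) := by
    rw [Finset.mul_sum]
    exact Finset.sum_congr rfl fun k _ => by ring
  have h3 := tel_one K fun j => h j (cfg T)
  rw [h2, ← mul_add, h3, mul_one]

/-! ## (c) The product bound -/

theorem msb_finset_prod {ι : Type*} {s : Finset ι} {S : Cfg → Set (ℤ × ℤ)} {h : ι → Cfg → ℝ}
    (H : ∀ i ∈ s, Msb S (h i)) : Msb S fun ω => ∏ i ∈ s, h i ω :=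
  fun ω ω' hω => Finset.prod_congr rfl fun i hi => H i hi ω ω' hω

theorem Msb.one_sub {S : Cfg → Set (ℤ × ℤ)} {h : Cfg → ℝ} (H : Msb S h) :
    Msb S fun ω => 1 - h ω := fun ω ω' hω => by
  change 1 - h ω' = 1 - h ω
  rw [H ω ω' hω]

theorem exr_prod_le {K : ℕ} {S : ℕ → Cfg → Set (ℤ × ℤ)} {M : Cfg → ℝ} {h γ : ℕ → Cfg → ℝ}
    (hS : ∀ k < K, Stp (S k)) (h1 : ∀ k < K, ∀ ω, h k ω ≤ 1) (γ1 : ∀ k < K, ∀ ω, γ k ω ≤ 1)
    (hh : ∀ k < K, ∀ j < K, j ≠ k → Msb (S k) (h j))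
    (hγ : ∀ k < K, ∀ j < K, Msb (S k) (γ j))
    (hM : ∀ k < K, ∀ ω, ce W (S k) (fun ω => M ω * (1 - h k ω)) ω ≤
      ce W (S k) (fun ω => M ω * (1 - γ k ω)) ω) :
    exr W (fun ω => M ω * ∏ k ∈ range K, (1 - h k ω)) ≤
      exr W (fun ω => M ω * ∏ k ∈ range K, (1 - γ k ω)) := by
  have key : ∀ m ≤ K, exr W (fun ω => M ω * ∏ k ∈ range K, (1 - h k ω)) ≤
      exr W (fun ω => M ω * ((∏ k ∈ range m, (1 - γ k ω)) * ∏ k ∈ Ico m K, (1 - h k ω))) := by
    intro m
    induction m with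
    | zero =>
      intro _
      refine exr_mono fun T _ => ?_
      rw [Finset.range_zero, Finset.prod_empty, one_mul, Finset.range_eq_Ico]
    | succ m ih =>
      intro hm
      refine (ih (by omega)).trans ?_
      have hmK : m < K := by omega
      set R : Cfg → ℝ := fun ω => (∏ k ∈ range m, (1 - γ k ω)) * ∏ k ∈ Ico (m + 1) K, (1 - h k ω)
        with hR
      have hRm : Msb (S m) R := by
        refine Msb.mul (msb_finset_prod fun k hk => ?_) (msb_finset_prod fun k hk => ?_)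
        · exact (hγ m hmK k (by have := Finset.mem_range.1 hk; omega)).one_sub
        · have := Finset.mem_Ico.1 hk
          exact (hh m hmK k this.2 (by omega)).one_sub
      have hR0 : ∀ ω, 0 ≤ R ω := by
        intro ω
        refine mul_nonneg (Finset.prod_nonneg fun k hk => ?_) (Finset.prod_nonneg fun k hk => ?_)
        · have := γ1 k (by have := Finset.mem_range.1 hk; omega) ω
          linarith
        · have := h1 k (Finset.mem_Ico.1 hk).2 ω
          linarith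
      have e1 : exr W (fun ω => M ω * ((∏ k ∈ range m, (1 - γ k ω)) *
          ∏ k ∈ Ico m K, (1 - h k ω))) = exr W (fun ω => R ω * (M ω * (1 - h m ω))) := by
        refine exr_congr fun T _ => ?_
        rw [← Finset.prod_Ioo_mul_eq_prod_Ico hmK, hR]
        have : Ioo m K = Ico (m + 1) K := rfl
        rw [this]
        ring
      have e2 : exr W (fun ω => M ω * ((∏ k ∈ range (m + 1), (1 - γ k ω)) *
          ∏ k ∈ Ico (m + 1) K, (1 - h k ω))) = exr W (fun ω => R ω * (M ω * (1 - γ m ω))) := by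
        refine exr_congr fun T _ => ?_
        rw [Finset.prod_range_succ, hR]
        ring
      rw [e1, e2, ← exr_mul_ce (hS m hmK) hRm (fun ω => M ω * (1 - h m ω)),
        ← exr_mul_ce (hS m hmK) hRm (fun ω => M ω * (1 - γ m ω))]
      exact exr_mono fun T _ => mul_le_mul_of_nonneg_left (hM m hmK _) (hR0 _)
  refine (key K le_rfl).trans ?_
  refine exr_mono fun T _ => ?_
  rw [Finset.Ico_self, Finset.prod_empty, mul_one]

/-! ## The weights -/

open Classical in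
/-- Conditional probability of `Gl` given the faces of `S`. -/
noncomputable def glp (W : Finset (ℤ × ℤ)) (S : Cfg → Set (ℤ × ℤ)) (Gl : Set Cfg) : Cfg → ℝ :=
  ce W S fun ω => if ω ∈ Gl then 1 else 0

open Classical in
/-- Normalised weight: `c / glp` on `Gl` and `Gd`. -/
noncomputable def hw (W : Finset (ℤ × ℤ)) (S : Cfg → Set (ℤ × ℤ)) (Gl Gd : Set Cfg) (c : ℝ)
    (ω : Cfg) : ℝ := if ω ∈ Gl ∧ ω ∈ Gd then c / glp W S Gl ω else 0

theorem glp_eq_pr (S : Cfg → Set (ℤ × ℤ)) (Gl : Set Cfg) (ω : Cfg) :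
    glp W S Gl ω = pr W {ξ | mix (S ω) ω ξ ∈ Gl} := by
  classical
  unfold glp
  rw [← ce_ind]
  congr 1

theorem glp_nonneg (S : Cfg → Set (ℤ × ℤ)) (Gl : Set Cfg) (ω : Cfg) : 0 ≤ glp W S Gl ω := by
  classical
  refine ce_nonneg S (fun ω => ?_) ω
  split_ifs
  · exact zero_le_one
  · exact le_rfl

theorem glp_le_one (S : Cfg → Set (ℤ × ℤ)) (Gl : Set Cfg) (ω : Cfg) : glp W S Gl ω ≤ 1 := by
  classical
  have h := ce_mono (W := W) S (g := fun ω => if ω ∈ Gl then (1 : ℝ) else 0) (g' := fun _ => 1)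
    (fun ω => by
      split_ifs
      · exact le_rfl
      · exact zero_le_one) ω
  rw [ce_const] at h
  exact h

theorem glp_msb {S : Cfg → Set (ℤ × ℤ)} (hS : Stp S) (Gl : Set Cfg) : Msb S (glp W S Gl) := by
  classical
  exact ce_msb hS _

section Weights

variable {S : Cfg → Set (ℤ × ℤ)} {Gl Gd : Set Cfg} {c : ℝ}

theorem hw_nonneg (hc : 0 ≤ c) (ω : Cfg) : 0 ≤ hw W S Gl Gd c ω := by
  classical
  unfold hw
  split_ifs
  · exact div_nonneg hc (glp_nonneg S Gl ω)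
  · exact le_rfl

theorem hw_le_one (hc : 0 < c) (hπ : ∀ ω ∈ Gd, c ≤ glp W S Gl ω) (ω : Cfg) :
    hw W S Gl Gd c ω ≤ 1 := by
  classical
  unfold hw
  split_ifs with h
  · have := hπ ω h.2
    exact (div_le_one (hc.trans_le this)).2 this
  · exact zero_le_one

/-- `T_k (F * h_k)` when on the glued configurations `F` is a constant. -/
theorem ce_mul_hw (hS : Stp S) (hGd : Msb S fun ω => ω ∈ Gd) (hc : 0 < c)
    (hπ : ∀ ω ∈ Gd, c ≤ glp W S Gl ω) {F : Cfg → ℝ} {ω : Cfg} {a : ℝ} (hω : ω ∈ Gd)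
    (hF : ∀ ξ, mix (S ω) ω ξ ∈ Gl → F (mix (S ω) ω ξ) = a) :
    ce W S (fun ω => F ω * hw W S Gl Gd c ω) ω = a * c := by
  classical
  have hπ0 : 0 < glp W S Gl ω := hc.trans_le (hπ ω hω)
  have e : ∀ ξ, F (mix (S ω) ω ξ) * hw W S Gl Gd c (mix (S ω) ω ξ) =
      (a * (c / glp W S Gl ω)) * (if mix (S ω) ω ξ ∈ Gl then 1 else 0) := by
    intro ξ
    have h1 : mix (S ω) ω ξ ∈ Gd := by
      have := hGd.eq_mix ω ξ
      exact this.symm ▸ hω
    unfold hw
    rw [(glp_msb hS Gl).eq_mix ω ξ]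
    by_cases h2 : mix (S ω) ω ξ ∈ Gl
    · rw [if_pos ⟨h2, h1⟩, if_pos h2, hF ξ h2, mul_one]
    · rw [if_neg fun h => h2 h.1, if_neg h2, mul_zero, mul_zero]
  unfold ce
  simp only [e]
  rw [exr_mul_left]
  have h3 : exr W (fun ξ => if mix (S ω) ω ξ ∈ Gl then (1 : ℝ) else 0) = glp W S Gl ω := rfl
  rw [h3]
  field_simp

/-- Off `Gd` the weight vanishes. -/
theorem hw_mix_of_not (hGd : Msb S fun ω => ω ∈ Gd) {ω : Cfg} (hω : ω ∉ Gd) (ξ : Cfg) :
    hw W S Gl Gd c (mix (S ω) ω ξ) = 0 := by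
  classical
  unfold hw
  rw [if_neg fun h => hω ?_]
  have := hGd.eq_mix ω ξ
  exact this ▸ h.2

theorem ce_mul_hw_of_not (hGd : Msb S fun ω => ω ∈ Gd) {F : Cfg → ℝ} {ω : Cfg} (hω : ω ∉ Gd) :
    ce W S (fun ω => F ω * hw W S Gl Gd c ω) ω = 0 := by
  unfold ce
  simp only [hw_mix_of_not hGd hω, mul_zero]
  exact exr_const W 0

open Classical in
/-- The step of (c). -/
theorem ce_mul_one_sub_hw (hS : Stp S) (hGd : Msb S fun ω => ω ∈ Gd) (hc : 0 < c)
    (hπ : ∀ ω ∈ Gd, c ≤ glp W S Gl ω) {M n : Cfg → ℝ} (hn : Msb S n) (hn0 : ∀ ω, 0 ≤ n ω)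
    (hM : ∀ ω ∈ Gd, M ω = if ω ∈ Gl then n ω else 0) (ω : Cfg) :
    ce W S (fun ω => M ω * (1 - hw W S Gl Gd c ω)) ω ≤
      ce W S (fun ω => M ω * (1 - if ω ∈ Gd then c else 0)) ω := by
  have e1 : ce W S (fun ω => M ω * (1 - hw W S Gl Gd c ω)) ω =
      ce W S M ω - ce W S (fun ω => M ω * hw W S Gl Gd c ω) ω := by
    rw [← ce_sub]
    congr 1
    funext ω
    ring
  rw [e1]
  by_cases hω : ω ∈ Gd
  · have hmem : ∀ ξ, mix (S ω) ω ξ ∈ Gd := fun ξ => by
      have := hGd.eq_mix ω ξ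
      exact this.symm ▸ hω
    have hF : ∀ ξ, mix (S ω) ω ξ ∈ Gl → M (mix (S ω) ω ξ) = n ω := by
      intro ξ h
      rw [hM _ (hmem ξ), if_pos h, hn.eq_mix ω ξ]
    rw [ce_mul_hw hS hGd hc hπ hω hF]
    have e2 : ce W S (fun ω => M ω * (1 - if ω ∈ Gd then c else 0)) ω = ce W S M ω * (1 - c) := by
      unfold ce
      rw [← exr_mul_right]
      refine exr_congr fun T _ => ?_
      beta_reduce
      rw [if_pos (hmem _)]
    have e3 : ce W S M ω = n ω * glp W S Gl ω := by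
      unfold ce glp ce
      rw [← exr_mul_left]
      refine exr_congr fun T _ => ?_
      beta_reduce
      rw [hM _ (hmem _), hn.eq_mix ω]
      split_ifs <;> ring
    rw [e2, e3]
    have h1 := glp_le_one (W := W) S Gl ω
    have h2 := hn0 ω
    nlinarith [mul_nonneg (mul_nonneg h2 hc.le) (sub_nonneg.2 h1)]
  · rw [ce_mul_hw_of_not hGd hω, sub_zero]
    refine le_of_eq ?_
    unfold ce
    refine exr_congr fun T _ => ?_
    beta_reduce
    rw [if_neg, sub_zero, mul_one]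
    intro h
    have := hGd.eq_mix ω (cfg T)
    exact hω (this ▸ h)

/-! ## (b) The exact zero -/

/-- Exact cancellation by a mirror `μ`: `G` changes sign, the rest `R` does not. -/
theorem exr_hw_zero (hS : Stp S) (hGd : Msb S fun ω => ω ∈ Gd) (hc : 0 < c)
    (hπ : ∀ ω ∈ Gd, c ≤ glp W S Gl ω) {G R : Cfg → ℝ} (hR : Msb S R) {μ : Cfg → Cfg}
    (hμ : ∀ g : Cfg → ℝ, exr W (fun ω => g (μ ω)) = exr W g)
    (hμd : ∀ ω, μ ω ∈ Gd ↔ ω ∈ Gd)
    (hμS : ∀ ω ω' : Cfg, (∀ f ∈ S ω, ω f = ω' f) → ∀ f ∈ S (μ ω), μ ω f = μ ω' f)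
    (hμR : ∀ ω ∈ Gd, R (μ ω) = R ω)
    (hG : ∀ ω ω' : Cfg, ω ∈ Gd → ω ∈ Gl → ω' ∈ Gl → (∀ f ∈ S (μ ω), μ ω f = ω' f) →
      G ω' = -G ω) :
    exr W (fun ω => G ω * hw W S Gl Gd c ω * R ω) = 0 := by
  classical
  set Φ : Cfg → ℝ := fun ω => ce W S (fun ω => G ω * hw W S Gl Gd c ω) ω * R ω with hΦ
  have h1 : exr W (fun ω => G ω * hw W S Gl Gd c ω * R ω) = exr W Φ := by
    rw [← exr_ce hS]
    refine exr_congr fun T _ => ?_
    rw [hΦ]
    exact ce_mul_right hR _ _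
  have odd : ∀ ω, Φ (μ ω) = -Φ ω := by
    intro ω
    by_cases hω : ω ∈ Gd
    · have hω' : μ ω ∈ Gd := (hμd ω).2 hω
      -- a glued configuration above the mirror
      have hpos : 0 < glp W S Gl (μ ω) := hc.trans_le (hπ _ hω')
      obtain ⟨ξ, hξ⟩ : ∃ ξ, mix (S (μ ω)) (μ ω) ξ ∈ Gl := by
        by_contra hno
        push Not at hno
        have : glp W S Gl (μ ω) = 0 := by
          unfold glp ce
          simp only [hno, if_false]
          exact exr_const W 0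
        linarith
      set ω2 := mix (S (μ ω)) (μ ω) ξ with hω2
      have ag2 : ∀ f ∈ S (μ ω), μ ω f = ω2 f := agree_mix _ _ _
      -- values of `G` above `ω`
      have hF1 : ∀ ξ, mix (S ω) ω ξ ∈ Gl → G (mix (S ω) ω ξ) = -G ω2 := by
        intro ξ' h
        have hm : mix (S ω) ω ξ' ∈ Gd := by
          have := hGd.eq_mix ω ξ'
          exact this.symm ▸ hω
        have hSm : S (μ (mix (S ω) ω ξ')) = S (μ ω) := hS _ _ (hμS ω _ (agree_mix _ _ _))
        have := hG (mix (S ω) ω ξ') ω2 hm h hξ (by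
          rw [hSm]
          intro f hf
          rw [← hμS ω _ (agree_mix _ _ _) f hf]
          exact ag2 f hf)
        rw [this, neg_neg]
      -- values of `G` above the mirror
      obtain ⟨ξ0, hξ0⟩ : ∃ ξ, mix (S ω) ω ξ ∈ Gl := by
        by_contra hno
        push Not at hno
        have h0 : glp W S Gl ω = 0 := by
          unfold glp ce
          simp only [hno, if_false]
          exact exr_const W 0
        have := hπ ω hω
        linarith
      have hF2 : ∀ ξ, mix (S (μ ω)) (μ ω) ξ ∈ Gl → G (mix (S (μ ω)) (μ ω) ξ) = G ω2 := by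
        intro ξ' h
        have hm : mix (S ω) ω ξ0 ∈ Gd := by
          have := hGd.eq_mix ω ξ0
          exact this.symm ▸ hω
        have hSm : S (μ (mix (S ω) ω ξ0)) = S (μ ω) := hS _ _ (hμS ω _ (agree_mix _ _ _))
        have := hG (mix (S ω) ω ξ0) (mix (S (μ ω)) (μ ω) ξ') hm hξ0 h (by
          rw [hSm]
          intro f hf
          rw [← hμS ω _ (agree_mix _ _ _) f hf]
          exact agree_mix _ _ _ f hf)
        rw [this, hF1 ξ0 hξ0, neg_neg]
      rw [hΦ]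
      change ce W S (fun ω => G ω * hw W S Gl Gd c ω) (μ ω) * R (μ ω) =
        -(ce W S (fun ω => G ω * hw W S Gl Gd c ω) ω * R ω)
      rw [ce_mul_hw hS hGd hc hπ hω hF1, ce_mul_hw hS hGd hc hπ hω' hF2, hμR ω hω]
      ring
    · have hω' : μ ω ∉ Gd := fun h => hω ((hμd ω).1 h)
      change ce W S (fun ω => G ω * hw W S Gl Gd c ω) (μ ω) * R (μ ω) =
        -(ce W S (fun ω => G ω * hw W S Gl Gd c ω) ω * R ω)
      rw [ce_mul_hw_of_not hGd hω, ce_mul_hw_of_not hGd hω', zero_mul, zero_mul, neg_zero]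
  have h2 := hμ Φ
  simp only [odd] at h2
  rw [exr_neg] at h2
  rw [h1]
  linarith

end Weights

/-! ## The theorem of the normalised weights -/

open Classical in
/-- NORMALISED WEIGHTS. -/
theorem abs_exr_le_weights {K : ℕ} {S : ℕ → Cfg → Set (ℤ × ℤ)} {Gl Gd : ℕ → Set Cfg} {c : ℝ}
    {G M : Cfg → ℝ} {n : ℕ → Cfg → ℝ} {μ : ℕ → Cfg → Cfg}
    (hS : ∀ k < K, Stp (S k)) (hc : 0 < c) (hc1 : c ≤ 1)
    (hGd : ∀ k < K, ∀ j < K, Msb (S k) fun ω => ω ∈ Gd j)
    (hh : ∀ k < K, ∀ j < K, j ≠ k → Msb (S k) (hw W (S j) (Gl j) (Gd j) c))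
    (hπ : ∀ k < K, ∀ ω ∈ Gd k, c ≤ glp W (S k) (Gl k) ω)
    (hGM : ∀ ω, |G ω| ≤ M ω)
    (hn : ∀ k < K, Msb (S k) (n k)) (hn0 : ∀ k < K, ∀ ω, 0 ≤ n k ω)
    (hM : ∀ k < K, ∀ ω ∈ Gd k, M ω = if ω ∈ Gl k then n k ω else 0)
    (hμ : ∀ k < K, ∀ g : Cfg → ℝ, exr W (fun ω => g (μ k ω)) = exr W g)
    (hμd : ∀ k < K, ∀ ω, μ k ω ∈ Gd k ↔ ω ∈ Gd k)
    (hμS : ∀ k < K, ∀ ω ω' : Cfg, (∀ f ∈ S k ω, ω f = ω' f) →
      ∀ f ∈ S k (μ k ω), μ k ω f = μ k ω' f)
    (hμh : ∀ k < K, ∀ j < K, k < j → ∀ ω,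
      hw W (S j) (Gl j) (Gd j) c (μ k ω) = hw W (S j) (Gl j) (Gd j) c ω)
    (hG : ∀ k < K, ∀ ω ω' : Cfg, ω ∈ Gd k → ω ∈ Gl k → ω' ∈ Gl k →
      (∀ f ∈ S k (μ k ω), μ k ω f = ω' f) → G ω' = -G ω) :
    |exr W G| ≤ exr W (fun ω => M ω * ∏ k ∈ range K, (1 - if ω ∈ Gd k then c else 0)) := by
  have hw1 : ∀ k < K, ∀ ω, hw W (S k) (Gl k) (Gd k) c ω ≤ 1 := fun k hk ω =>
    hw_le_one hc (hπ k hk) ω
  rw [exr_tel K (fun k => hw W (S k) (Gl k) (Gd k) c) G]
  have h0 : ∑ k ∈ range K, exr W (fun ω => G ω * hw W (S k) (Gl k) (Gd k) c ω *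
      ∏ j ∈ Ico (k + 1) K, (1 - hw W (S j) (Gl j) (Gd j) c ω)) = 0 := by
    refine Finset.sum_eq_zero fun k hk => ?_
    have hk := Finset.mem_range.1 hk
    refine exr_hw_zero (hS k hk) (hGd k hk k hk) hc (hπ k hk)
      (msb_finset_prod fun j hj => ?_) (hμ k hk) (hμd k hk) (hμS k hk) (fun ω _ => ?_) (hG k hk)
    · have := Finset.mem_Ico.1 hj
      exact (hh k hk j this.2 (by omega)).one_sub
    · refine Finset.prod_congr rfl fun j hj => ?_
      have := Finset.mem_Ico.1 hj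
      rw [hμh k hk j this.2 (by omega)]
  rw [h0, zero_add]
  have h1 : |exr W (fun ω => G ω * ∏ j ∈ range K, (1 - hw W (S j) (Gl j) (Gd j) c ω))| ≤
      exr W (fun ω => M ω * ∏ j ∈ range K, (1 - hw W (S j) (Gl j) (Gd j) c ω)) := by
    refine (abs_exr_le _).trans (exr_mono fun T _ => ?_)
    rw [abs_mul]
    have hp : 0 ≤ ∏ j ∈ range K, (1 - hw W (S j) (Gl j) (Gd j) c (cfg T)) :=
      Finset.prod_nonneg fun j hj => sub_nonneg.2 (hw1 j (Finset.mem_range.1 hj) _)
    rw [abs_of_nonneg hp]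
    exact mul_le_mul_of_nonneg_right (hGM _) hp
  refine h1.trans ?_
  refine exr_prod_le hS hw1 (fun k _ ω => ?_) hh (fun k hk j hj => ?_) fun k hk ω => ?_
  · split_ifs
    · exact hc1
    · exact zero_le_one
  · exact (hGd k hk j hj).comp fun p => if p then c else 0
  · exact ce_mul_one_sub_hw (hS k hk) (hGd k hk k hk) hc (hπ k hk) (hn k hk) (hn0 k hk)
      (hM k hk) ω

/-! ## (d) Counting the bad blocks -/

theorem prod_le_split (K m : ℕ) {c : ℝ} (hc0 : 0 ≤ c) (hc1 : c ≤ 1) (P : ℕ → Prop)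
    [DecidablePred P] :
    ∏ k ∈ range K, (1 - if P k then c else 0) ≤ (1 - c) ^ (K - m) +
      ∑ B ∈ powersetCard m (range K), (if ∀ k ∈ B, ¬P k then (1 : ℝ) else 0) := by
  have hf0 : ∀ k, 0 ≤ 1 - (if P k then c else 0) := by
    intro k
    split_ifs
    · linarith
    · linarith
  have hf1 : ∀ k, 1 - (if P k then c else 0) ≤ 1 := by
    intro k
    split_ifs
    · linarith
    · linarith
  have hs : ∀ B ∈ powersetCard m (range K), 0 ≤ (if ∀ k ∈ B, ¬P k then (1 : ℝ) else 0) := by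
    intro B _
    split_ifs
    · exact zero_le_one
    · exact le_rfl
  have hq : 0 ≤ (1 - c) ^ (K - m) := pow_nonneg (by linarith) _
  by_cases hb : m ≤ ((range K).filter fun k => ¬P k).card
  · obtain ⟨B, hB, hBm⟩ := Finset.exists_subset_card_eq hb
    have h1 : B ∈ powersetCard m (range K) :=
      Finset.mem_powersetCard.2 ⟨hB.trans (Finset.filter_subset _ _), hBm⟩
    have h2 : (1 : ℝ) ≤ ∑ B ∈ powersetCard m (range K), (if ∀ k ∈ B, ¬P k then (1 : ℝ) else 0) := by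
      have := Finset.single_le_sum hs h1
      rw [if_pos fun k hk => (Finset.mem_filter.1 (hB hk)).2] at this
      exact this
    have h3 : ∏ k ∈ range K, (1 - if P k then c else 0) ≤ 1 :=
      Finset.prod_le_one (fun k _ => hf0 k) fun k _ => hf1 k
    linarith
  · push Not at hb
    have h1 : ∏ k ∈ range K, (1 - if P k then c else 0) =
        (1 - c) ^ ((range K).filter fun k => P k).card := by
      rw [← Finset.prod_const, ← Finset.prod_filter_mul_prod_filter_not (range K) fun k => P k]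
      rw [Finset.prod_congr rfl (g := fun _ => (1 - c)) fun k hk => by
        rw [if_pos (Finset.mem_filter.1 hk).2]]
      rw [Finset.prod_congr (s₁ := (range K).filter fun k => ¬P k) rfl (g := fun _ => (1 : ℝ))
        fun k hk => by rw [if_neg (Finset.mem_filter.1 hk).2, sub_zero], Finset.prod_const_one,
        mul_one]
    have h2 : ((range K).filter fun k => P k).card + ((range K).filter fun k => ¬P k).card = K := by
      rw [Finset.card_filter_add_card_filter_not, Finset.card_range]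
    rw [h1]
    have h3 : (1 - c) ^ ((range K).filter fun k => P k).card ≤ (1 - c) ^ (K - m) :=
      pow_le_pow_of_le_one (by linarith) (by linarith) (by omega)
    have h4 := Finset.sum_nonneg hs
    linarith

/-! ## Products over disjoint blocks -/

theorem DepF.mul {A B : Set (ℤ × ℤ)} {f g : Cfg → ℝ} (hf : DepF A f) (hg : DepF B g) :
    DepF (A ∪ B) fun ω => f ω * g ω := fun ω ω' h => by
  beta_reduce
  rw [hf ω ω' fun x hx => h x (Or.inl hx), hg ω ω' fun x hx => h x (Or.inr hx)]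

theorem DepF.comp {α β : Type*} {A : Set (ℤ × ℤ)} {g : Cfg → α} (hg : DepF A g) (φ : α → β) :
    DepF A fun ω => φ (g ω) := fun ω ω' h => congrArg φ (hg ω ω' h)

theorem depF_const {α : Type*} (A : Set (ℤ × ℤ)) (c : α) : DepF A fun _ => c := fun _ _ _ => rfl

theorem depF_prod {ι : Type*} {s : Finset ι} {D : ι → Set (ℤ × ℤ)} {F : ι → Cfg → ℝ}
    (hF : ∀ i ∈ s, DepF (D i) (F i)) : DepF (⋃ i ∈ s, D i) fun ω => ∏ i ∈ s, F i ω :=
  fun ω ω' h => Finset.prod_congr rfl fun i hi => hF i hi ω ω' fun f hf =>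
    h f (Set.mem_biUnion hi hf)

/-- Means of products of functions of disjoint blocks. -/
theorem exr_prod_disjoint {ι : Type*} {s : Finset ι} {D : ι → Set (ℤ × ℤ)} {F : ι → Cfg → ℝ}
    (hF : ∀ i ∈ s, DepF (D i) (F i)) (hD : ∀ i ∈ s, ∀ j ∈ s, i ≠ j → Disjoint (D i) (D j)) :
    exr W (fun ω => ∏ i ∈ s, F i ω) = ∏ i ∈ s, exr W (F i) := by
  classical
  induction s using Finset.induction_on with
  | empty =>
    simp only [Finset.prod_empty]
    exact exr_const W 1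
  | insert a s ha ih =>
    rw [Finset.prod_insert ha, ← ih (fun i hi => hF i (Finset.mem_insert_of_mem hi))
      fun i hi j hj => hD i (Finset.mem_insert_of_mem hi) j (Finset.mem_insert_of_mem hj)]
    rw [← exr_mul_of_disjoint (hF a (Finset.mem_insert_self a s))
      (depF_prod fun i hi => hF i (Finset.mem_insert_of_mem hi)) ?_]
    · refine exr_congr fun T _ => ?_
      rw [Finset.prod_insert ha]
    · rw [Set.disjoint_iUnion₂_right]
      intro i hi
      exact hD a (Finset.mem_insert_self a s) i (Finset.mem_insert_of_mem hi) fun h => ha (h ▸ hi)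

open Classical in
/-- Splitting by the number of bad blocks. -/
theorem exr_prod_split (K m : ℕ) {c : ℝ} (hc0 : 0 ≤ c) (hc1 : c ≤ 1) {M : Cfg → ℝ}
    (hM0 : ∀ ω, 0 ≤ M ω) (Gd : ℕ → Set Cfg) :
    exr W (fun ω => M ω * ∏ k ∈ range K, (1 - if ω ∈ Gd k then c else 0)) ≤
      (1 - c) ^ (K - m) * exr W M + ∑ B ∈ powersetCard m (range K),
        exr W (fun ω => M ω * (if ∀ k ∈ B, ω ∉ Gd k then (1 : ℝ) else 0)) := by
  have e : exr W (fun ω => M ω * ∏ k ∈ range K, (1 - if ω ∈ Gd k then c else 0)) ≤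
      exr W (fun ω => (1 - c) ^ (K - m) * M ω + ∑ B ∈ powersetCard m (range K),
        M ω * (if ∀ k ∈ B, ω ∉ Gd k then (1 : ℝ) else 0)) := by
    refine exr_mono fun T _ => ?_
    have := mul_le_mul_of_nonneg_left (prod_le_split K m hc0 hc1 fun k => cfg T ∈ Gd k)
      (hM0 (cfg T))
    rw [mul_add, Finset.mul_sum] at this
    rw [mul_comm ((1 - c) ^ (K - m))]
    exact this
  refine e.trans (le_of_eq ?_)
  rw [exr_add, exr_mul_left, exr_sum]

open Classical in
/-- A set `B` of bad blocks: unit functions `N k` on disjoint blocks, with mean at most `a`, and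
at most `a * ε` off `Gd k`. -/
theorem exr_bad_le {K : ℕ} {D : ℕ → Set (ℤ × ℤ)} {E : Set (ℤ × ℤ)} {Gd : ℕ → Set Cfg}
    {N : ℕ → Cfg → ℝ} {g M : Cfg → ℝ} {a ε : ℝ}
    (hD : ∀ i < K, ∀ j < K, i ≠ j → Disjoint (D i) (D j)) (hE : ∀ i < K, Disjoint E (D i))
    (hg : DepF E g) (hg0 : ∀ ω, 0 ≤ g ω)
    (hN : ∀ k < K, DepF (D k) (N k)) (hN0 : ∀ k < K, ∀ ω, 0 ≤ N k ω)
    (hGd : ∀ k < K, DepF (D k) fun ω => ω ∈ Gd k)
    (hM : ∀ ω, M ω ≤ g ω * ∏ k ∈ range K, N k ω)
    (h1 : ∀ k < K, exr W (N k) ≤ a)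
    (h2 : ∀ k < K, exr W (fun ω => N k ω * if ω ∈ Gd k then 0 else 1) ≤ a * ε)
    {B : Finset ℕ} (hBK : B ⊆ range K) :
    exr W (fun ω => M ω * (if ∀ k ∈ B, ω ∉ Gd k then (1 : ℝ) else 0)) ≤
      exr W g * (a ^ K * ε ^ B.card) := by
  set F : ℕ → Cfg → ℝ := fun k ω => if k ∈ B then N k ω * (if ω ∈ Gd k then 0 else 1) else N k ω
    with hF
  have hFd : ∀ k < K, DepF (D k) (F k) := by
    intro k hk
    by_cases hkB : k ∈ B
    · have : F k = fun ω => N k ω * (if ω ∈ Gd k then 0 else 1) := by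
        funext ω
        rw [hF]
        exact if_pos hkB
      rw [this]
      have h3 := (hN k hk).mul ((hGd k hk).comp fun p => if p then (0 : ℝ) else 1)
      rw [Set.union_self] at h3
      exact h3
    · have : F k = N k := by
        funext ω
        rw [hF]
        exact if_neg hkB
      rw [this]
      exact hN k hk
  have hF0 : ∀ k < K, ∀ ω, 0 ≤ F k ω := by
    intro k hk ω
    rw [hF]
    beta_reduce
    have := hN0 k hk ω
    split_ifs
    · rw [mul_zero]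
    · rw [mul_one]
      exact this
    · exact this
  have e1 : exr W (fun ω => M ω * (if ∀ k ∈ B, ω ∉ Gd k then (1 : ℝ) else 0)) ≤
      exr W (fun ω => g ω * ∏ k ∈ range K, F k ω) := by
    refine exr_mono fun T _ => ?_
    by_cases hb : ∀ k ∈ B, cfg T ∉ Gd k
    · rw [if_pos hb, mul_one]
      refine (hM _).trans (le_of_eq ?_)
      congr 1
      refine Finset.prod_congr rfl fun k _ => ?_
      rw [hF]
      beta_reduce
      by_cases hkB : k ∈ B
      · rw [if_pos hkB, if_neg (hb k hkB), mul_one]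
      · rw [if_neg hkB]
    · rw [if_neg hb, mul_zero]
      exact mul_nonneg (hg0 _) (Finset.prod_nonneg fun k hk => hF0 k (Finset.mem_range.1 hk) _)
  refine e1.trans ?_
  rw [exr_mul_of_disjoint hg (depF_prod fun k hk => hFd k (Finset.mem_range.1 hk))
    (Set.disjoint_iUnion₂_right.2 fun k hk => hE k (Finset.mem_range.1 hk)),
    exr_prod_disjoint (fun k hk => hFd k (Finset.mem_range.1 hk)) fun i hi j hj =>
      hD i (Finset.mem_range.1 hi) j (Finset.mem_range.1 hj)]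
  refine mul_le_mul_of_nonneg_left ?_ (exr_nonneg fun _ _ => hg0 _)
  have e2 : ∏ k ∈ range K, exr W (F k) ≤ ∏ k ∈ range K, (if k ∈ B then a * ε else a) := by
    refine Finset.prod_le_prod (fun k hk => exr_nonneg fun _ _ =>
      hF0 k (Finset.mem_range.1 hk) _) fun k hk => ?_
    have hk := Finset.mem_range.1 hk
    by_cases hkB : k ∈ B
    · rw [if_pos hkB]
      refine le_trans (le_of_eq ?_) (h2 k hk)
      refine exr_congr fun T _ => ?_
      rw [hF]
      exact if_pos hkB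
    · rw [if_neg hkB]
      refine le_trans (le_of_eq ?_) (h1 k hk)
      refine exr_congr fun T _ => ?_
      rw [hF]
      exact if_neg hkB
  refine e2.trans (le_of_eq ?_)
  have e3 : ∀ k, (if k ∈ B then a * ε else a) = a * (if k ∈ B then ε else 1) := by
    intro k
    split_ifs <;> ring
  simp only [e3]
  rw [Finset.prod_mul_distrib, Finset.prod_const, Finset.card_range, Finset.prod_ite_mem,
    Finset.inter_eq_right.2 hBK, Finset.prod_const]

open Classical in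
/-- The final bound, for disjoint blocks. -/
theorem weights_bound {K m : ℕ} {D : ℕ → Set (ℤ × ℤ)} {E : Set (ℤ × ℤ)} {Gd : ℕ → Set Cfg}
    {N : ℕ → Cfg → ℝ} {g M : Cfg → ℝ} {c a ε : ℝ} (hc0 : 0 ≤ c) (hc1 : c ≤ 1) (ha : 0 ≤ a)
    (hε : 0 ≤ ε)
    (hD : ∀ i < K, ∀ j < K, i ≠ j → Disjoint (D i) (D j)) (hE : ∀ i < K, Disjoint E (D i))
    (hg : DepF E g) (hg0 : ∀ ω, 0 ≤ g ω)
    (hN : ∀ k < K, DepF (D k) (N k)) (hN0 : ∀ k < K, ∀ ω, 0 ≤ N k ω)
    (hGd : ∀ k < K, DepF (D k) fun ω => ω ∈ Gd k)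
    (hM0 : ∀ ω, 0 ≤ M ω) (hM : ∀ ω, M ω ≤ g ω * ∏ k ∈ range K, N k ω)
    (h1 : ∀ k < K, exr W (N k) ≤ a)
    (h2 : ∀ k < K, exr W (fun ω => N k ω * if ω ∈ Gd k then 0 else 1) ≤ a * ε) :
    exr W (fun ω => M ω * ∏ k ∈ range K, (1 - if ω ∈ Gd k then c else 0)) ≤
      (1 - c) ^ (K - m) * exr W M + 2 ^ K * (exr W g * (a ^ K * ε ^ m)) := by
  refine (exr_prod_split K m hc0 hc1 hM0 Gd).trans (add_le_add le_rfl ?_)
  refine (Finset.sum_le_card_nsmul _ _ (exr W g * (a ^ K * ε ^ m)) fun B hB => ?_).trans ?_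
  · obtain ⟨hBK, hBm⟩ := Finset.mem_powersetCard.1 hB
    rw [← hBm]
    exact exr_bad_le hD hE hg hg0 hN hN0 hGd hM h1 h2 hBK
  · rw [Finset.card_powersetCard, Finset.card_range, nsmul_eq_mul]
    refine mul_le_mul_of_nonneg_right ?_ ?_
    · exact_mod_cast Nat.choose_le_two_pow K m
    · exact mul_nonneg (exr_nonneg fun _ _ => hg0 _)
        (mul_nonneg (pow_nonneg ha _) (pow_nonneg hε _))

/-! ## Locality of the weights -/

theorem msb_of_depF {α : Type*} {A : Set (ℤ × ℤ)} {g : Cfg → α} (hg : DepF A g)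
    {S : Cfg → Set (ℤ × ℤ)} (h : ∀ ω, A ⊆ S ω) : Msb S g :=
  fun ω ω' hω => (hg ω ω' fun f hf => hω f (h ω hf)).symm

/-- `glp` is a function of the faces of `D` if `Gl` is and `S` inside `D` is. -/
theorem glp_depF {S : Cfg → Set (ℤ × ℤ)} {Gl : Set Cfg} {D : Set (ℤ × ℤ)}
    (hGl : DepF D fun ω => ω ∈ Gl) (hS : DepF D fun ω => S ω ∩ D) : DepF D (glp W S Gl) := by
  classical
  intro ω ω' h
  unfold glp ce
  have e : ∀ ξ, (mix (S ω) ω ξ ∈ Gl) = (mix (S ω') ω' ξ ∈ Gl) := by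
    intro ξ
    refine hGl _ _ fun f hf => ?_
    have h1 : f ∈ S ω ↔ f ∈ S ω' := by
      have h2 : S ω ∩ D = S ω' ∩ D := hS ω ω' h
      constructor
      · intro h3
        have h4 : f ∈ S ω ∩ D := ⟨h3, hf⟩
        rw [h2] at h4
        exact h4.1
      · intro h3
        have h4 : f ∈ S ω' ∩ D := ⟨h3, hf⟩
        rw [← h2] at h4
        exact h4.1
    by_cases h3 : f ∈ S ω
    · rw [mix_of_mem h3, mix_of_mem (h1.1 h3), h f hf]
    · rw [mix_of_notMem h3, mix_of_notMem fun h4 => h3 (h1.2 h4)]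
  simp only [e]

/-- The weight is a function of the faces of `D`. -/
theorem hw_depF {S : Cfg → Set (ℤ × ℤ)} {Gl Gd : Set Cfg} {D : Set (ℤ × ℤ)} {c : ℝ}
    (hGl : DepF D fun ω => ω ∈ Gl) (hGd : DepF D fun ω => ω ∈ Gd)
    (hS : DepF D fun ω => S ω ∩ D) : DepF D (hw W S Gl Gd c) := by
  classical
  intro ω ω' h
  have h1 : (ω ∈ Gl) = (ω' ∈ Gl) := hGl ω ω' h
  have h2 : (ω ∈ Gd) = (ω' ∈ Gd) := hGd ω ω' h
  unfold hw
  simp only [h1, h2, glp_depF (W := W) hGl hS ω ω' h]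

/-! ## Mirrors -/

/-- The configuration seen through the face map `σ`, with the flips `b`. -/
def mirC (σ : ℤ × ℤ → ℤ × ℤ) (b : ℤ × ℤ → Bool) (ω : Cfg) : Cfg := fun f => xor (b f) (ω (σ f))

theorem mirC_mirC {σ : ℤ × ℤ → ℤ × ℤ} {b : ℤ × ℤ → Bool} (hσ : ∀ f, σ (σ f) = f)
    (hb : ∀ f, b (σ f) = b f) (ω : Cfg) : mirC σ b (mirC σ b ω) = ω := by
  funext f
  unfold mirC
  rw [hb, hσ, ← Bool.xor_assoc, Bool.xor_self, Bool.false_xor]

/-- A mirror preserves the law. -/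
theorem exr_mirC {σ : ℤ × ℤ → ℤ × ℤ} {b : ℤ × ℤ → Bool} (hσ : ∀ f, σ (σ f) = f)
    (hb : ∀ f, b (σ f) = b f) (hσW : ∀ f ∈ W, σ f ∈ W) (hbW : ∀ f, b f = true → f ∈ W)
    (g : Cfg → ℝ) : exr W (fun ω => g (mirC σ b ω)) = exr W g := by
  classical
  have key : ∀ T ⊆ W, cfg (W.filter fun f => mirC σ b (cfg T) f = true) = mirC σ b (cfg T) := by
    intro T hT
    funext f
    by_cases hf : f ∈ W
    · unfold cfg
      by_cases h : mirC σ b (cfg T) f = true
      · have h1 : f ∈ W.filter fun f => mirC σ b (cfg T) f = true :=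
          Finset.mem_filter.2 ⟨hf, h⟩
        exact (decide_eq_true h1).trans h.symm
      · have h1 : f ∉ W.filter fun f => mirC σ b (cfg T) f = true := fun h2 =>
          h (Finset.mem_filter.1 h2).2
        rw [Bool.not_eq_true] at h
        exact (decide_eq_false h1).trans h.symm
    · have h1 : f ∉ W.filter fun f => mirC σ b (cfg T) f = true := fun h2 =>
        hf (Finset.mem_filter.1 h2).1
      have h2 : σ f ∉ T := fun h3 => hf (by
        have := hσW _ (hT h3)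
        rw [hσ] at this
        exact this)
      have h3 : b f = false := by
        by_contra h4
        rw [Bool.not_eq_false] at h4
        exact hf (hbW f h4)
      have h4 : mirC σ b (cfg T) f = false := by
        unfold mirC cfg
        rw [h3, decide_eq_false h2]
        rfl
      exact (decide_eq_false h1).trans h4.symm
  unfold exr
  congr 1
  refine Finset.sum_nbij' (fun T => W.filter fun f => mirC σ b (cfg T) f = true)
    (fun T => W.filter fun f => mirC σ b (cfg T) f = true) ?_ ?_ ?_ ?_ ?_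
  · intro T _
    exact Finset.mem_powerset.2 (Finset.filter_subset _ _)
  · intro T _
    exact Finset.mem_powerset.2 (Finset.filter_subset _ _)
  · intro T hT
    rw [key T (Finset.mem_powerset.1 hT), mirC_mirC hσ hb]
    ext f
    rw [Finset.mem_filter]
    unfold cfg
    rw [decide_eq_true_iff]
    exact ⟨fun h => h.2, fun h => ⟨(Finset.mem_powerset.1 hT) h, h⟩⟩
  · intro T hT
    rw [key T (Finset.mem_powerset.1 hT), mirC_mirC hσ hb]
    ext f
    rw [Finset.mem_filter]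
    unfold cfg
    rw [decide_eq_true_iff]
    exact ⟨fun h => h.2, fun h => ⟨(Finset.mem_powerset.1 hT) h, h⟩⟩
  · intro T hT
    rw [key T (Finset.mem_powerset.1 hT)]

end Pool.Agent.SixB
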