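import Pool.Agent.Lib.SixB.S4HalfP
import Pool.Agent.Lib.SixB.S4Long

/-!
# A strand in a flat box does not reach its far parts (6BD, block S4, row (d))

A strand in the strip `0 ≤ y < u` which starts near the centre and has an edge at distance more than
`X` gives a lengthwise crossing of one of the rectangles `[m, X] × [0, u]`, `[-X, -m] × [0, u]`.
-/

set_option autoImplicit false

namespace Pool.Agent.SixB.Half

open Finset Pool.Agent.Perc Pool.Agent.PercD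

/-- Lengthwise crossings next to the box of half width `m`. -/
def Rk (m X u : ℤ) : Set Cfg :=
  {ω | ∃ c : ℤ, (c = 0 ∨ c = 1) ∧ (ω ∈ LR c m X 0 u ∨ ω ∈ LR c (-X) (-m) 0 u)}

theorem depOn_Rk (m X u : ℤ) :
    DepOn ((RF m X 0 u ∪ RF (-X) (-m) 0 u : Finset (ℤ × ℤ)) : Set (ℤ × ℤ)) (Rk m X u) := by
  intro ω ω' h
  rw [coe_union] at h
  have h1 : ∀ c, ω ∈ LR c m X 0 u ↔ ω' ∈ LR c m X 0 u := fun c =>
    depOn_LR c m X 0 u ω ω' fun f hf => h f (Or.inl hf)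
  have h2 : ∀ c, ω ∈ LR c (-X) (-m) 0 u ↔ ω' ∈ LR c (-X) (-m) 0 u := fun c =>
    depOn_LR c (-X) (-m) 0 u ω ω' fun f hf => h f (Or.inr hf)
  unfold Rk
  simp only [Set.mem_ofPred_eq, h1, h2]

/-- A connection from the centre to a far point. -/
theorem rk_of_conn {ω : Cfg} {F : Set (ℤ × ℤ)} {m X u : ℤ} (hF : ∀ f ∈ F, 0 ≤ f.2 ∧ f.2 < u)
    (hm : m < X) {p q : ℤ × ℤ} (hp : |p.1| ≤ m) (hq : X ≤ |q.1|) (h : Conn ω F p q) :
    ω ∈ Rk m X u := by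
  have hpar := Conn.parity h
  rw [abs_le] at hp
  refine ⟨(p.1 + p.2) % 2, by omega, ?_⟩
  rcases le_abs.1 hq with hq | hq
  · exact Or.inl (lr_of_conn hF hm (by omega) hp.2 hq h)
  · exact Or.inr (lr_of_conn hF (by omega) (u := q) (v := p) (by omega) (by omega) (by omega)
      (Conn.symm h))

/-- A strand from the centre to a far edge. -/
theorem rk_of_far {ω : Cfg} {F : Set (ℤ × ℤ)} {e t : UE} {m X u : ℤ}
    (hF : ∀ f ∈ F, 0 ≤ f.2 ∧ f.2 < u) (he : |(ua e).1| ≤ m) (hm : m < X) (ht : t ∈ MM ω F e)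
    (h1 : X ≤ |(ua t).1|) (h2 : X ≤ |(ub t).1|) : ω ∈ Rk m X u := by
  obtain ⟨p, q, hj, hp, hc⟩ := MM_conn (u := ua e) (v := ub e) (Or.inl ⟨rfl, rfl⟩) ht
  refine rk_of_conn (F := SS ω F e) (fun f hf => hF f hf.1) hm he ?_ hc
  rcases hj with ⟨rfl, -⟩ | ⟨rfl, -⟩
  · exact h1
  · exact h2

/-- The same with one end point of the far edge. -/
theorem rk_of_far' {ω : Cfg} {F : Set (ℤ × ℤ)} {e t : UE} {m X u : ℤ}
    (hF : ∀ f ∈ F, 0 ≤ f.2 ∧ f.2 < u) (he : |(ua e).1| ≤ m) (hm : m < X) (ht : t ∈ MM ω F e)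
    (h1 : X + 1 ≤ |(ua t).1| ∨ X + 1 ≤ |(ub t).1|) : ω ∈ Rk m X u := by
  have h3 : (ua t).1 ≤ (ub t).1 ∧ (ub t).1 ≤ (ua t).1 + 1 := by
    obtain ⟨x, y, b⟩ := t
    cases b <;> simp [ua, ub]
  refine rk_of_far hF he hm ht ?_ ?_
  · rcases h1 with h | h
    · omega
    · have := abs_le.1 (le_refl |(ua t).1|)
      rcases le_abs.1 h with h | h <;> rw [le_abs] <;> omega
  · rcases h1 with h | h
    · rcases le_abs.1 h with h | h <;> rw [le_abs] <;> omega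
    · omega

/-- The bad event: a strand from the box of radius `a` in the faces `F` of the strip has an edge at
distance more than `X`. -/
def BadIn (F : Set (ℤ × ℤ)) (a X : ℤ) : Set Cfg :=
  {ω | ∃ e t : UE, S3 (-a) (a + 1) a e ∧ t ∈ MM ω F e ∧
    (X + 1 ≤ |(ua t).1| ∨ X + 1 ≤ |(ub t).1|)}

theorem badIn_sub {F : Set (ℤ × ℤ)} {a m X u : ℤ} (hF : ∀ f ∈ F, 0 ≤ f.2 ∧ f.2 < u)
    (ha : a + 1 ≤ m) (hm : m < X) : BadIn F a X ⊆ Rk m X u := by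
  rintro ω ⟨e, t, he, ht, h⟩
  refine rk_of_far' hF ?_ hm ht h
  obtain ⟨x, y, b⟩ := e
  unfold S3 at he
  simp only at he
  rw [abs_le]
  cases b <;> simp [ua] at he ⊢ <;> omega

/-- Probability of the lengthwise crossings. -/
theorem pr_Rk : ∃ q : ℝ, 0 < q ∧ q < 1 ∧ ∀ (n : ℕ) (m X u : ℤ) (W : Finset (ℤ × ℤ)), 0 < u →
    m < X → n * u ≤ X - m → RF m X 0 u ∪ RF (-X) (-m) 0 u ⊆ W → pr W (Rk m X u) ≤ 4 * q ^ n := by
  obtain ⟨q, h0, h1, h⟩ := long_LR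
  refine ⟨q, h0, h1, fun n m X u W hu hm hn hW => ?_⟩
  have hW1 : RF m X 0 u ⊆ W := subset_union_left.trans hW
  have hW2 : RF (-X) (-m) 0 u ⊆ W := subset_union_right.trans hW
  have hsub : Rk m X u ⊆ (LR 0 m X 0 u ∪ LR 0 (-X) (-m) 0 u) ∪ (LR 1 m X 0 u ∪ LR 1 (-X) (-m) 0 u) := by
    rintro ω ⟨c, rfl | rfl, hc⟩
    · exact Or.inl hc
    · exact Or.inr hc
  have key : ∀ c : ℤ, pr W (LR c m X 0 u) ≤ q ^ n ∧ pr W (LR c (-X) (-m) 0 u) ≤ q ^ n := by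
    intro c
    have e1 := h n c m X 0 u W hu hn (by rwa [zero_add]) hm
    have e2 := h n c (-X) (-m) 0 u W hu (by omega) (by rwa [zero_add]) (by omega)
    rw [zero_add] at e1 e2
    exact ⟨e1, e2⟩
  have s1 := pr_mono W hsub
  have s2 := Perc.pr_union_le W (LR 0 m X 0 u ∪ LR 0 (-X) (-m) 0 u) (LR 1 m X 0 u ∪ LR 1 (-X) (-m) 0 u)
  have s3 := Perc.pr_union_le W (LR 0 m X 0 u) (LR 0 (-X) (-m) 0 u)
  have s4 := Perc.pr_union_le W (LR 1 m X 0 u) (LR 1 (-X) (-m) 0 u)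
  have k0 := key 0
  have k1 := key 1
  linarith [k0.1, k0.2, k1.1, k1.2]

/-- A strand of the flat box of height `u` which starts at the box of radius `a ≤ u / 2` does not
reach the distance `X`. -/
theorem pr_BadIn : ∃ q : ℝ, 0 < q ∧ q < 1 ∧ ∀ (n : ℕ) (F : Set (ℤ × ℤ)) (a X u : ℤ)
    (W : Finset (ℤ × ℤ)), (∀ f ∈ F, 0 ≤ f.2 ∧ f.2 < u) → 1 ≤ u → a + 1 ≤ 2 * u → 2 * u < X →
    n * u + 2 * u ≤ X → RF (2 * u) X 0 u ∪ RF (-X) (-(2 * u)) 0 u ⊆ W →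
      pr W (BadIn F a X) ≤ 4 * q ^ n := by
  obtain ⟨q, h0, h1, h⟩ := pr_Rk
  refine ⟨q, h0, h1, fun n F a X u W hF hu ha hX hn hW => ?_⟩
  exact (pr_mono W (badIn_sub hF ha hX)).trans (h n (2 * u) X u W (by omega) hX (by omega) hW)

end Pool.Agent.SixB.Half
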