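import Pool.Agent.Lib.SixB.S4HalfP

/-!
# A strand which leaves the neighbourhood of a wall point (6BD, block S4, row (d))

`x1_of_MM`: a strand of any region above the wall which joins the half box of radius `r` around a wall
point `v` to the outside of the half box of radius `R` crosses the half annulus `r : R`.
`BdO s r R`: one of the two half annuli `r : R` around the wall points `(s, 0)`, `(1 - s, 0)` is
crossed.
-/

set_option autoImplicit false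

namespace Pool.Agent.SixB

open Finset Pool.Agent.Perc Pool.Agent.PercD

namespace Half

variable {ω : Cfg} {F : Set (ℤ × ℤ)} {a e : UE}

theorem x1_of_MM (v : ℤ × ℤ) (hv : v.2 = 0) {r R : ℤ} (hr : 0 ≤ r) (hrR : r < R) (hF : F ⊆ Up)
    (he : I3 (v.1 - r) (v.1 + r) r e) (ha : a ∈ MM ω F e)
    (hn : ¬ I3 (v.1 - R) (v.1 + R) R a) : ω ∈ X1 v r R := by
  rcases last3 hF he ha with h4 | ⟨b, -, hb2, hb3⟩
  · exfalso
    apply hn
    unfold I3 InR at *
    omega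
  · have hbi : I3 (v.1 - R) (v.1 + R) R b := by
      have := hb2.inn (by omega) hr
      unfold I3 InR at *
      omega
    have hFu' : F \ (RF (v.1 - r) (v.1 + r) 0 r : Set (ℤ × ℤ)) ⊆ Up := fun f hf => hF hf.1
    have hsub : (F \ (RF (v.1 - r) (v.1 + r) 0 r : Set (ℤ × ℤ))) ∩
        (RF (v.1 - R) (v.1 + R) 0 R : Set (ℤ × ℤ)) ⊆ HA v r R := by
      rintro f ⟨⟨-, h5⟩, h6⟩
      exact ha_eq v hv ⟨h6, h5⟩
    rcases first3 hFu' hbi hb3 with ⟨-, h6⟩ | ⟨c, h5, h6⟩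
    · exact absurd h6 hn
    · exact ⟨b, c, hb2.bdR v hv hr, h6.bdR v hv (by omega), MM_mono hsub h5⟩

/-- A strand crosses one of the two half annuli `r : R` around `(s, 0)` and `(1 - s, 0)`. -/
def BdO (s r R : ℤ) : Set Cfg := X1 (s, 0) r R ∪ X1 (1 - s, 0) r R

/-- The support of `BdO`. -/
theorem depOn_BdO {s r R p q : ℤ} (h1 : p ≤ s - R - 1) (h2 : s + R ≤ q) (hR : R ≤ q) (hp : 0 ≤ p) :
    DepOn ((RF (-q) (q + 1) 0 q \ RF (-p) (p + 1) 0 p : Finset (ℤ × ℤ)) : Set (ℤ × ℤ))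
      (BdO s r R) := by
  have hs1 : HA (s, 0) r R ⊆
      ((RF (-q) (q + 1) 0 q \ RF (-p) (p + 1) 0 p : Finset (ℤ × ℤ)) : Set (ℤ × ℤ)) := by
    rintro f ⟨h3, -, h4⟩
    rw [mem_BR] at h3
    rw [coe_sdiff, Set.mem_sdiff, mem_RF', mem_RF']
    simp only at h3 h4
    omega
  have hs2 : HA (1 - s, 0) r R ⊆
      ((RF (-q) (q + 1) 0 q \ RF (-p) (p + 1) 0 p : Finset (ℤ × ℤ)) : Set (ℤ × ℤ)) := by
    rintro f ⟨h3, -, h4⟩
    rw [mem_BR] at h3
    rw [coe_sdiff, Set.mem_sdiff, mem_RF', mem_RF']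
    simp only at h3 h4
    omega
  intro ω ω' h
  unfold BdO
  rw [Set.mem_union, Set.mem_union, depOn_X1 _ _ _ ω ω' fun f hf => h f (hs1 hf),
    depOn_X1 _ _ _ ω ω' fun f hf => h f (hs2 hf)]

theorem bdO_le (H : OneLeg) : ∃ C : ℝ, 0 < C ∧ ∀ (s r R : ℤ) (W : Finset (ℤ × ℤ)), 1 ≤ r → r ≤ R →
    RF (-(s + R)) (s + R + 1) 0 (s + R) ⊆ W → 1 ≤ s → pr W (BdO s r R) ≤ C * ((r : ℝ) / R) := by
  obtain ⟨C, hC, h⟩ := x1_le H
  refine ⟨2 * C, by linarith, fun s r R W hr hR hW hs => ?_⟩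
  have hs1 : HA (s, 0) r R ⊆ (W : Set (ℤ × ℤ)) := by
    refine Set.Subset.trans ?_ (Finset.coe_subset.2 hW)
    rintro f ⟨h3, -, h4⟩
    rw [mem_BR] at h3
    rw [mem_RF']
    simp only at h3 h4
    omega
  have hs2 : HA (1 - s, 0) r R ⊆ (W : Set (ℤ × ℤ)) := by
    refine Set.Subset.trans ?_ (Finset.coe_subset.2 hW)
    rintro f ⟨h3, -, h4⟩
    rw [mem_BR] at h3
    rw [mem_RF']
    simp only at h3 h4
    omega
  have e1 := h (s, 0) r R W hr hR hs1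
  have e2 := h (1 - s, 0) r R W hr hR hs2
  have e3 := pr_union_le W (X1 (s, 0) r R) (X1 (1 - s, 0) r R)
  unfold BdO
  linarith

end Half

end Pool.Agent.SixB
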