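import Pool.Agent.Lib.SixB.TopEsc

/-!
# Gluing of two strands: path lifting at a tip
-/

set_option autoImplicit false

namespace Pool.Agent.SixB

open Finset Pool.Agent.Perc Pool.Agent.Perc6 Pool.Agent.PercT

variable {ω ξ : Cfg} {F' F G : Set (ℤ × ℤ)} {e t a : UE} {p q c z u v w : ℤ × ℤ}
  {Φ : ℤ × ℤ → ZMod 2} {M : Set UE}

/-- Bonds depend on the faces of the region only. -/
theorem conn_congr_on {ω ω' : Cfg} {F : Set (ℤ × ℤ)} (h : ∀ f ∈ F, ω f = ω' f)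
    (hc : Conn ω F u v) : Conn ω' F u v := by
  induction hc with
  | refl => exact Relation.ReflTransGen.refl
  | tail _ hb ih =>
    obtain ⟨x, y, hf, hb⟩ := hb
    exact ih.tail ⟨x, y, hf, by rw [← h _ hf]; exact hb⟩

private theorem conn_symm {ω : Cfg} {F : Set (ℤ × ℤ)} (h : Conn ω F u v) : Conn ω F v u := by
  induction h with
  | refl => exact Relation.ReflTransGen.refl
  | tail _ hb ih => exact Relation.ReflTransGen.head hb.symm ih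

theorem isPot_mono (hP : IsPot F M Φ) (h : F' ⊆ F) : IsPot F' M Φ := fun f hf => hP f (h hf)

/-- A strand of `F'` is even in a region `F` in which it does not leave `F'`. -/
theorem evenAt_of_closed (hM : ∀ f ∈ F, ∀ a ∈ MM ω F' e, IsSide f a → f ∈ F') {f : ℤ × ℤ}
    (hf : f ∈ F) : EvenAt (MM ω F' e) f := by
  by_cases h : f ∈ F'
  · exact evenAt_MM h
  · have h0 : ∀ a, IsSide f a → ind2 (a ∈ MM ω F' e) = 0 := fun a ha =>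
      ind2_neg fun hm => h (hM f hf a hm ha)
    unfold EvenAt
    rw [h0 _ (Or.inl rfl), h0 _ (Or.inr (Or.inl rfl)), h0 _ (Or.inr (Or.inr (Or.inl rfl))),
      h0 _ (Or.inr (Or.inr (Or.inr rfl)))]
    rfl

/-- A potential is constant on a face without sides in `M`. -/
theorem pot_free (hP : IsPot F M Φ) {f : ℤ × ℤ} (hf : f ∈ F) (hM : ∀ a ∈ M, ¬ IsSide f a)
    (hp : IsCor f p) (hq : IsCor f q) : Φ p = Φ q := by
  have key : ∀ {p q : ℤ × ℤ}, IsCor f p → IsCor f q → par p ≠ par q → Φ p = Φ q := by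
    intro p q hp hq hpq
    obtain ⟨a, ha, hj⟩ := exists_side hp hq hpq
    by_contra hne
    exact hM a ((hP.joins hf ha hj).2 hne) ha
  by_cases hpq : par p = par q
  · obtain ⟨r, hr, hpr⟩ : ∃ r, IsCor f r ∧ par p ≠ par r := by
      by_cases h : par p = par f
      · refine ⟨(f.1 + 1, f.2), by simp [IsCor], ?_⟩
        rw [h]; unfold par; simp only; omega
      · exact ⟨f, by simp [IsCor], h⟩
    rw [key hp hr hpr, key hq hr (by rw [← hpq]; exact hpr)]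
  · exact key hp hq hpq

/-- A potential is constant on a rectangle of faces without sides in `M`. -/
theorem pot_rect (hP : IsPot F M Φ) {x₀ x₁ y₀ y₁ : ℤ} (hx : x₀ < x₁) (hy : y₀ < y₁)
    (hR : ∀ f ∈ RF x₀ x₁ y₀ y₁, f ∈ F ∧ ∀ a ∈ M, ¬ IsSide f a)
    (hp : InR x₀ x₁ y₀ y₁ p) (hq : InR x₀ x₁ y₀ y₁ q) : Φ p = Φ q := by
  -- steps to the right
  have hor : ∀ x y : ℤ, x₀ ≤ x → x < x₁ → y₀ ≤ y → y ≤ y₁ → Φ (x + 1, y) = Φ (x, y) := by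
    intro x y h1 h2 h3 h4
    by_cases h5 : y < y₁
    · have h6 := hR (x, y) (PlanarB.mem_RF.2 ⟨⟨h1, h2⟩, ⟨h3, h5⟩⟩)
      exact pot_free hP h6.1 h6.2 (by simp [IsCor]) (by simp [IsCor])
    · have h6 := hR (x, y - 1) (PlanarB.mem_RF.2 ⟨⟨h1, h2⟩, ⟨by simp only; omega, by simp only; omega⟩⟩)
      exact pot_free hP h6.1 h6.2 (by simp [IsCor]) (by simp [IsCor])
  have ver : ∀ x y : ℤ, x₀ ≤ x → x ≤ x₁ → y₀ ≤ y → y < y₁ → Φ (x, y + 1) = Φ (x, y) := by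
    intro x y h1 h2 h3 h4
    by_cases h5 : x < x₁
    · have h6 := hR (x, y) (PlanarB.mem_RF.2 ⟨⟨h1, h5⟩, ⟨h3, h4⟩⟩)
      exact pot_free hP h6.1 h6.2 (by simp [IsCor]) (by simp [IsCor])
    · have h6 := hR (x - 1, y) (PlanarB.mem_RF.2 ⟨⟨by simp only; omega, by simp only; omega⟩, ⟨h3, h4⟩⟩)
      exact pot_free hP h6.1 h6.2 (by simp [IsCor]) (by simp [IsCor])
  have key : ∀ v : ℤ × ℤ, InR x₀ x₁ y₀ y₁ v → Φ v = Φ (x₀, y₀) := by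
    rintro ⟨x, y⟩ ⟨h1, h2, h3, h4⟩
    simp only at h1 h2 h3 h4
    have hx' : ∀ n : ℕ, x₀ + n ≤ x₁ → Φ (x₀ + n, y₀) = Φ (x₀, y₀) := by
      intro n
      induction n with
      | zero => intro _; simp
      | succ n ih =>
        intro hn
        push_cast at hn ⊢
        rw [← add_assoc, hor _ _ (by omega) (by omega) le_rfl hy.le]
        exact ih (by omega)
    have hy' : ∀ n : ℕ, y₀ + n ≤ y₁ → Φ (x, y₀ + n) = Φ (x, y₀) := by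
      intro n
      induction n with
      | zero => intro _; simp
      | succ n ih =>
        intro hn
        push_cast at hn ⊢
        rw [← add_assoc, ver _ _ h1 h2 (by omega) (by omega)]
        exact ih (by omega)
    have e1 := hy' (y - y₀).toNat (by rw [Int.toNat_of_nonneg (by omega)]; omega)
    have e2 := hx' (x - x₀).toNat (by rw [Int.toNat_of_nonneg (by omega)]; omega)
    rw [Int.toNat_of_nonneg (by omega)] at e1 e2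
    rw [show y₀ + (y - y₀) = y by ring] at e1
    rw [show x₀ + (x - x₀) = x by ring] at e2
    rw [e1, e2]
  rw [key p hp, key q hq]

/-- **Path lifting.** `M` is the strand of `e` in `F'`, with a potential in the larger region `F`.
A path of `ξ` in `F` that starts on the side of `p` and ends on the other side of the strand is
joined to `p` after the visited faces of the strand have been inserted. -/
theorem lift_conn (hP : IsPot F (MM ω F' e) Φ) (hF : F' ⊆ F)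
    (hM : ∀ f ∈ F, ∀ a ∈ MM ω F' e, IsSide f a → f ∈ F') (he : Joins e p q)
    (hs : ∃ f ∈ F', IsSide f e) (hG : G ⊆ F) (h : Conn ξ G u z) (hu : Φ u = Φ p)
    (hz : Φ z ≠ Φ p) (hpar : par u = par p) :
    Conn (mix (SS ω F' e) ω ξ) (G ∪ SS ω F' e) u p := by
  have hP' : IsPot F' (MM ω F' e) Φ := isPot_mono hP hF
  induction h using Relation.ReflTransGen.head_induction_on with
  | refl => exact absurd hu hz
  | @head v w hb hcn ih =>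
    obtain ⟨f, hf, hb', hcv, hcw⟩ := hb.exists_face
    by_cases hS : f ∈ SS ω F' e
    · -- the strand is met
      have h1 := hP'.ss_conn he hs hS hcv hpar hu
      refine conn_symm ?_
      have h2 : Conn (mix (SS ω F' e) ω ξ) (SS ω F' e) p v :=
        conn_congr_on (fun g hg => (mix_of_mem hg).symm) h1
      exact h2.mono Set.subset_union_right
    · have hfree : ∀ a ∈ MM ω F' e, ¬ IsSide f a := fun a ha hsd =>
        hS ⟨hM f (hG hf) a ha hsd, a, ha, hsd⟩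
      have h3 : Φ w = Φ v := pot_free hP (hG hf) hfree hcw hcv
      have h4 := ih (h3.trans hu) (hb'.par_eq.symm.trans hpar)
      refine Relation.ReflTransGen.head ?_ h4
      have h5 : Bond (mix (SS ω F' e) ω ξ) {f} v w :=
        hb'.congr (f := f) (by rw [mix_of_notMem hS])
      exact h5.of_single (Or.inl hf)

/-- **Lifting at a tip.** `t` is a unit edge of the strand of `e` in `F'` with ends `p`, `q`. A path
of `ξ` with the parity of `p` from `c` to `z` is joined to `p` if `c` and `p` (and `z` and `q`) are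
joined by rectangles of fresh faces. -/
theorem tip_lift (hpot : HasPot F) (hF : F' ⊆ F)
    (hM : ∀ f ∈ F, ∀ a ∈ MM ω F' e, IsSide f a → f ∈ F') (ht : t ∈ MM ω F' e)
    (hj : Joins t p q) (hs : ∃ f ∈ F', IsSide f e) (hs' : ∃ f ∈ F, IsSide f t)
    {x₀ x₁ y₀ y₁ x₂ x₃ y₂ y₃ : ℤ}
    (hx : x₀ < x₁) (hy : y₀ < y₁) (hR : ∀ f ∈ RF x₀ x₁ y₀ y₁, f ∈ F ∧ f ∉ F')
    (hp : InR x₀ x₁ y₀ y₁ p) (hc : InR x₀ x₁ y₀ y₁ c)
    (hx' : x₂ < x₃) (hy' : y₂ < y₃) (hR' : ∀ f ∈ RF x₂ x₃ y₂ y₃, f ∈ F ∧ f ∉ F')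
    (hq : InR x₂ x₃ y₂ y₃ q) (hz : InR x₂ x₃ y₂ y₃ z)
    (hG : G ⊆ F) (h : Conn ξ G c z) (hpar : par c = par p) :
    Conn (mix (SS ω F' e) ω ξ) (G ∪ SS ω F' e) c p := by
  obtain ⟨Φ, hP⟩ := hpot (MM ω F' e) fun f hf => evenAt_of_closed hM hf
  have hP' : IsPot F' (MM ω F' e) Φ := isPot_mono hP hF
  -- the ends of `e`
  obtain ⟨p₀, q₀, he, hpp⟩ : ∃ p₀ q₀, Joins e p₀ q₀ ∧ par p₀ = par p := by
    have h1 : Joins e (ua e) (ub e) := Or.inl ⟨rfl, rfl⟩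
    by_cases h2 : par (ua e) = par p
    · exact ⟨_, _, h1, h2⟩
    · refine ⟨_, _, h1.symm, ?_⟩
      have h3 := h1.par_ne
      have h4 := par_cases (ua e)
      have h5 := par_cases (ub e)
      have h6 := par_cases p
      omega
  have hmm := hP'.mm he ht hj hpp.symm
  have hc1 : Φ c = Φ p := pot_rect hP hx hy (fun f hf => ⟨(hR f hf).1, fun a ha hsd =>
    (hR f hf).2 (hM f (hR f hf).1 a ha hsd)⟩) hc hp
  have hz1 : Φ z = Φ q := pot_rect hP hx' hy' (fun f hf => ⟨(hR' f hf).1, fun a ha hsd =>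
    (hR' f hf).2 (hM f (hR' f hf).1 a ha hsd)⟩) hz hq
  have hne : Φ p ≠ Φ q := by
    obtain ⟨f, hf, hsd⟩ := hs'
    exact (hP.joins hf hsd hj).1 ht
  have h1 := lift_conn (u := c) (z := z) hP hF hM he hs hG h (by rw [hc1, hmm.1])
    (by rw [hz1, ← hmm.1]; exact hne.symm) (hpar.trans hpp.symm)
  -- from `p₀` to `p`
  obtain ⟨p', q', hj', hp', hcn⟩ := MM_conn he ht
  obtain ⟨rfl, -⟩ := hj.of_par hj' (hpp.symm.trans hp'.symm)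
  have h2 : Conn (mix (SS ω F' e) ω ξ) (SS ω F' e) p₀ p :=
    conn_congr_on (fun g hg => (mix_of_mem hg).symm) hcn
  exact h1.trans (h2.mono Set.subset_union_right)

/-! ### Strands -/

theorem MM_symm (h : a ∈ MM ω F e) : e ∈ MM ω F a := by
  change Relation.ReflTransGen _ e a at h
  change Relation.ReflTransGen _ a e
  induction h with
  | refl => exact Relation.ReflTransGen.refl
  | tail _ hs ih =>
    obtain ⟨f, hf, hm⟩ := hs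
    exact Relation.ReflTransGen.head ⟨f, hf, hm.symm⟩ ih

theorem MM_trans (h : a ∈ MM ω F e) (h' : t ∈ MM ω F a) : t ∈ MM ω F e :=
  Relation.ReflTransGen.trans h h'

/-- The unit edges of a strand are sides of faces of the region. -/
theorem MM_side (hs : ∃ f ∈ F, IsSide f e) (h : a ∈ MM ω F e) : ∃ f ∈ F, IsSide f a := by
  rcases Relation.ReflTransGen.cases_tail h with h' | ⟨b, -, f, hf, hm⟩
  · rw [← h'] at hs
    exact hs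
  · exact ⟨f, hf, hm.right⟩

theorem three_sides {f g k : ℤ × ℤ} (hf : IsSide f a) (hg : IsSide g a) (hk : IsSide k a) :
    f = g ∨ f = k ∨ g = k := by
  rcases C2Aux.eq_ahead hf with rfl | rfl <;> rcases C2Aux.eq_ahead hg with rfl | rfl <;>
    rcases C2Aux.eq_ahead hk with rfl | rfl <;> simp

/-- The strand of `e` in `F'` is closed in `F` if the faces behind its two ends are not in `F`. -/
theorem closed_of_ends (he : BdU F' e) (ht : t ∈ MM ω F' e) (hb : BdU F' t)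
    (hte : t ≠ e) (h1 : ∀ f ∈ F, IsSide f e → f ∈ F') (h2 : ∀ f ∈ F, IsSide f t → f ∈ F') :
    ∀ f ∈ F, ∀ a ∈ MM ω F' e, IsSide f a → f ∈ F' := by
  intro f hf a ha hsd
  by_contra hn
  have hba : BdU F' a := ⟨MM_side he.1 ha, f, hn, hsd⟩
  by_cases hae : a = e
  · subst hae
    exact hn (h1 f hf hsd)
  · have := bdU_unique he ht ha hb hba hte hae
    subst this
    exact hn (h2 f hf hsd)

/-! ### Boxes with slits -/

/-- The box `[x₀, x₁] × [0, y₁]` without the box `[a₀, a₁] × [0, a₂]`. -/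
def BoxD (x₀ x₁ y₁ a₀ a₁ a₂ : ℤ) : Set (ℤ × ℤ) :=
  {f | (x₀ ≤ f.1 ∧ f.1 < x₁ ∧ 0 ≤ f.2 ∧ f.2 < y₁) ∧ ¬ (a₀ ≤ f.1 ∧ f.1 < a₁ ∧ f.2 < a₂)}

theorem boxD_sub {x₀ x₁ y₁ a₀ a₁ a₂ : ℤ} {f : ℤ × ℤ} (h : f ∈ BoxD x₀ x₁ y₁ a₀ a₁ a₂) :
    f ∈ RF x₀ x₁ 0 y₁ :=
  PlanarB.mem_RF.2 ⟨⟨h.1.1, h.1.2.1⟩, ⟨h.1.2.2.1, h.1.2.2.2⟩⟩

theorem esc_boxD (x₀ x₁ y₁ a₀ a₁ a₂ : ℤ) : Esc (BoxD x₀ x₁ y₁ a₀ a₁ a₂) := by
  intro f hf R
  by_cases h : f ∈ RF x₀ x₁ 0 y₁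
  · rw [PlanarB.mem_RF] at h
    have h1 : a₀ ≤ f.1 ∧ f.1 < a₁ ∧ f.2 < a₂ := by
      by_contra h1
      exact hf ⟨⟨h.1.1, h.1.2, h.2.1, h.2.2⟩, h1⟩
    refine ray_escape (Or.inr (Or.inr (Or.inr fun k hk hn => hn.2 ⟨h1.1, h1.2.1, ?_⟩))) R
    simp only
    omega
  · exact out_escape (fun f hf => boxD_sub hf) h R

theorem hasPot_boxD (x₀ x₁ y₁ a₀ a₁ a₂ : ℤ) : HasPot (BoxD x₀ x₁ y₁ a₀ a₁ a₂) :=
  (esc_boxD x₀ x₁ y₁ a₀ a₁ a₂).hasPot fun _ hf => boxD_sub hf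

/-- The slit below the tip `(x, h)`. -/
theorem esc_slitD (x₀ x₁ y₁ x h : ℤ) :
    Esc {f : ℤ × ℤ | (x₀ ≤ f.1 ∧ f.1 < x₁ ∧ 0 ≤ f.2 ∧ f.2 < y₁) ∧ ¬ (f.1 = x ∧ f.2 < h)} := by
  intro f hf R
  by_cases h' : f ∈ RF x₀ x₁ 0 y₁
  · rw [PlanarB.mem_RF] at h'
    have h1 : f.1 = x ∧ f.2 < h := by
      by_contra h1
      exact hf ⟨⟨h'.1.1, h'.1.2, h'.2.1, h'.2.2⟩, h1⟩
    refine ray_escape (Or.inr (Or.inr (Or.inr fun k hk hn => hn.2 ⟨h1.1, ?_⟩))) R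
    simp only
    omega
  · exact out_escape (fun f hf => PlanarB.mem_RF.2 ⟨⟨hf.1.1, hf.1.2.1⟩, hf.1.2.2⟩) h' R

theorem hasPot_slitD (x₀ x₁ y₁ x h : ℤ) : HasPot
    {f : ℤ × ℤ | (x₀ ≤ f.1 ∧ f.1 < x₁ ∧ 0 ≤ f.2 ∧ f.2 < y₁) ∧ ¬ (f.1 = x ∧ f.2 < h)} :=
  (esc_slitD x₀ x₁ y₁ x h).hasPot fun _ hf =>
    PlanarB.mem_RF.2 ⟨⟨hf.1.1, hf.1.2.1⟩, hf.1.2.2⟩

/-- The slit above the tip `(x, h)`. -/
theorem esc_slitU (x₀ x₁ y₁ a₀ a₁ a₂ x h : ℤ) :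
    Esc {f : ℤ × ℤ | f ∈ BoxD x₀ x₁ y₁ a₀ a₁ a₂ ∧ ¬ (f.1 = x ∧ h ≤ f.2)} := by
  intro f hf R
  by_cases h' : f ∈ BoxD x₀ x₁ y₁ a₀ a₁ a₂
  · have h1 : f.1 = x ∧ h ≤ f.2 := by
      by_contra h1
      exact hf ⟨h', h1⟩
    refine ray_escape (Or.inr (Or.inr (Or.inl fun k hk hn => hn.2 ⟨h1.1, ?_⟩))) R
    simp only
    omega
  · obtain ⟨g, hg, hc⟩ := esc_boxD x₀ x₁ y₁ a₀ a₁ a₂ f h' R
    exact ⟨g, hg, chain_mono (fun f hf => hf.1) hc⟩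

theorem hasPot_slitU (x₀ x₁ y₁ a₀ a₁ a₂ x h : ℤ) : HasPot
    {f : ℤ × ℤ | f ∈ BoxD x₀ x₁ y₁ a₀ a₁ a₂ ∧ ¬ (f.1 = x ∧ h ≤ f.2)} :=
  (esc_slitU x₀ x₁ y₁ a₀ a₁ a₂ x h).hasPot fun _ hf => boxD_sub hf.1

/-! ### Tubes -/

/-- Paths of `ξ` with the parity of the east ends of the tips `(x, h)` (below) and `(x', h')`
(above): from a common vertex `c` east of the two tips, between the rows `h` and `h'`, over the upper
tip to a vertex `z` west of it, and under the lower tip to a vertex `z'` west of it. -/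
def TubE (ξ : Cfg) (x h x' h' l r d u : ℤ) : Prop :=
  ∃ (G G' : Set (ℤ × ℤ)) (c z z' : ℤ × ℤ),
    (∀ f ∈ G, l ≤ f.1 ∧ f.1 < r ∧ h ≤ f.2 ∧ f.2 < u ∧ ¬ (f.1 = x' ∧ f.2 < h')) ∧
    (∀ f ∈ G', l ≤ f.1 ∧ f.1 < r ∧ d ≤ f.2 ∧ f.2 < h' ∧ ¬ (f.1 = x ∧ h ≤ f.2)) ∧
    Conn ξ G c z ∧ Conn ξ G' c z' ∧ x < c.1 ∧ x' < c.1 ∧ c.1 < r ∧ h < c.2 ∧ c.2 < h' ∧
    z.2 = h' ∧ l ≤ z.1 ∧ z.1 < x' ∧ z'.2 = h ∧ l ≤ z'.1 ∧ z'.1 < x ∧ par c = par (x + 1, h)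

/-- The same on the west side. -/
def TubW (ξ : Cfg) (x h x' h' l r d u : ℤ) : Prop :=
  ∃ (G G' : Set (ℤ × ℤ)) (c z z' : ℤ × ℤ),
    (∀ f ∈ G, l ≤ f.1 ∧ f.1 < r ∧ h ≤ f.2 ∧ f.2 < u ∧ ¬ (f.1 = x' ∧ f.2 < h')) ∧
    (∀ f ∈ G', l ≤ f.1 ∧ f.1 < r ∧ d ≤ f.2 ∧ f.2 < h' ∧ ¬ (f.1 = x ∧ h ≤ f.2)) ∧
    Conn ξ G c z ∧ Conn ξ G' c z' ∧ c.1 ≤ x ∧ c.1 ≤ x' ∧ l < c.1 ∧ h < c.2 ∧ c.2 < h' ∧
    z.2 = h' ∧ x' + 1 < z.1 ∧ z.1 ≤ r ∧ z'.2 = h ∧ x + 1 < z'.1 ∧ z'.1 ≤ r ∧ par c = par (x, h)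

/-- The geometry: the boxes `[A₀, A₁] × [0, A₂] ⊆ [I₀, I₁] × [0, h] ⊆ [B₀, B₁] × [0, h'] ⊆
[X₀, X₁] × [0, Y₁]`, the tips `(x, h)`, `(x', h')` and the range `[l, r] × [d, u]` of the tubes. -/
structure Geo (X₀ X₁ Y₁ B₀ B₁ I₀ I₁ A₀ A₁ A₂ x h x' h' l r d u : ℤ) : Prop where
  b0 : X₀ < B₀
  b1 : B₁ < X₁
  b2 : h' < Y₁
  i0 : B₀ ≤ I₀
  i1 : I₁ ≤ B₁
  a0 : I₀ < A₀
  a1 : A₁ < I₁
  a2 : A₂ < h
  a3 : 0 ≤ A₂
  hh : h < h'
  ix : I₀ ≤ x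
  ix' : x < I₁
  bx : B₀ ≤ x'
  bx' : x' < B₁
  l0 : B₀ ≤ l
  r1 : r ≤ B₁
  d0 : A₂ ≤ d
  u1 : u ≤ Y₁

variable {X₀ X₁ Y₁ B₀ B₁ I₀ I₁ A₀ A₁ A₂ x h x' h' l r d U : ℤ} {eo ei : UE} {E : Set (ℤ × ℤ)}

theorem fo_closed (hg : Geo X₀ X₁ Y₁ B₀ B₁ I₀ I₁ A₀ A₁ A₂ x h x' h' l r d U)
    (he : ∃ f ∈ BoxD X₀ X₁ Y₁ B₀ B₁ h', IsSide f eo) (he' : ∃ f ∉ RF X₀ X₁ 0 Y₁, IsSide f eo)
    (ht : ((x', h', false) : UE) ∈ MM ω (BoxD X₀ X₁ Y₁ B₀ B₁ h') eo) :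
    ∀ f ∈ {f : ℤ × ℤ | (X₀ ≤ f.1 ∧ f.1 < X₁ ∧ 0 ≤ f.2 ∧ f.2 < Y₁) ∧ ¬ (f.1 = x' ∧ f.2 < h')},
      ∀ a ∈ MM ω (BoxD X₀ X₁ Y₁ B₀ B₁ h') eo, IsSide f a → f ∈ BoxD X₀ X₁ Y₁ B₀ B₁ h' := by
  obtain ⟨g, hgF, hgs⟩ := he
  obtain ⟨k, hk, hks⟩ := he'
  have hkF : k ∉ BoxD X₀ X₁ Y₁ B₀ B₁ h' := fun h => hk (boxD_sub h)
  have s1 : IsSide (x', h') ((x', h', false) : UE) := Or.inl rfl
  have s2 : IsSide (x', h' - 1) ((x', h', false) : UE) := by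
    right; right; left
    simp [to']
  have hb := hg.b0
  have hb1 := hg.b1
  have hb2 := hg.b2
  have hbx := hg.bx
  have hbx' := hg.bx'
  have hd := hg.d0
  have ha3 := hg.a3
  have ha2 := hg.a2
  have hh := hg.hh
  have m1 : ((x', h') : ℤ × ℤ) ∈ BoxD X₀ X₁ Y₁ B₀ B₁ h' :=
    ⟨⟨by simp only; omega, by simp only; omega, by simp only; omega, by simp only; omega⟩,
      fun hn => by simp only at hn; omega⟩
  have m2 : ((x', h' - 1) : ℤ × ℤ) ∉ BoxD X₀ X₁ Y₁ B₀ B₁ h' := fun hn =>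
    hn.2 ⟨hbx, hbx', by simp only; omega⟩
  refine closed_of_ends ⟨⟨g, hgF, hgs⟩, k, hkF, hks⟩ ht ⟨⟨_, m1, s1⟩, _, m2, s2⟩ ?_ ?_ ?_
  · rintro rfl
    rcases three_sides s1 s2 hks with h | h | h
    · simp only [Prod.mk.injEq] at h
      omega
    · exact hkF (h ▸ m1)
    · apply hk
      rw [← h, PlanarB.mem_RF]
      exact ⟨⟨by simp only; omega, by simp only; omega⟩, ⟨by simp only; omega, by simp only; omega⟩⟩
  · intro f hf hfs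
    rcases three_sides hgs hks hfs with h | h | h
    · exact absurd (h ▸ hgF) hkF
    · exact h ▸ hgF
    · exfalso
      apply hk
      rw [h, PlanarB.mem_RF]
      exact ⟨⟨hf.1.1, hf.1.2.1⟩, ⟨hf.1.2.2.1, hf.1.2.2.2⟩⟩
  · intro f hf hfs
    rcases three_sides s1 s2 hfs with h | h | h
    · simp only [Prod.mk.injEq] at h
      omega
    · exact h ▸ m1
    · exfalso
      apply hf.2
      rw [← h]
      exact ⟨rfl, by simp only; omega⟩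

theorem fi_closed (hg : Geo X₀ X₁ Y₁ B₀ B₁ I₀ I₁ A₀ A₁ A₂ x h x' h' l r d U)
    (he : ∃ f ∈ BoxD I₀ I₁ h A₀ A₁ A₂, IsSide f ei) (he' : ∃ f ∈ RF A₀ A₁ 0 A₂, IsSide f ei)
    (ht : ((x, h, false) : UE) ∈ MM ω (BoxD I₀ I₁ h A₀ A₁ A₂) ei) :
    ∀ f ∈ {f : ℤ × ℤ | f ∈ BoxD X₀ X₁ Y₁ A₀ A₁ A₂ ∧ ¬ (f.1 = x ∧ h ≤ f.2)},
      ∀ a ∈ MM ω (BoxD I₀ I₁ h A₀ A₁ A₂) ei, IsSide f a → f ∈ BoxD I₀ I₁ h A₀ A₁ A₂ := by
  obtain ⟨g, hgF, hgs⟩ := he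
  obtain ⟨k, hk, hks⟩ := he'
  rw [PlanarB.mem_RF] at hk
  have hkF : k ∉ BoxD I₀ I₁ h A₀ A₁ A₂ := fun h => h.2 ⟨hk.1.1, hk.1.2, hk.2.2⟩
  have s1 : IsSide (x, h) ((x, h, false) : UE) := Or.inl rfl
  have s2 : IsSide (x, h - 1) ((x, h, false) : UE) := by
    right; right; left
    simp [to']
  have ha0 := hg.a0
  have ha1 := hg.a1
  have hix := hg.ix
  have hix' := hg.ix'
  have ha3 := hg.a3
  have ha2 := hg.a2
  have m1 : ((x, h) : ℤ × ℤ) ∉ BoxD I₀ I₁ h A₀ A₁ A₂ := fun hn => by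
    have := hn.1.2.2.2
    simp only at this
    omega
  have m2 : ((x, h - 1) : ℤ × ℤ) ∈ BoxD I₀ I₁ h A₀ A₁ A₂ :=
    ⟨⟨by simp only; omega, by simp only; omega, by simp only; omega, by simp only; omega⟩,
      fun hn => by simp only at hn; omega⟩
  refine closed_of_ends ⟨⟨g, hgF, hgs⟩, k, hkF, hks⟩ ht ⟨⟨_, m2, s2⟩, _, m1, s1⟩ ?_ ?_ ?_
  · rintro rfl
    rcases three_sides s1 s2 hks with h | h | h
    · simp only [Prod.mk.injEq] at h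
      omega
    · rw [← h] at hk
      simp only at hk
      omega
    · exact hkF (h ▸ m2)
  · intro f hf hfs
    rcases three_sides hgs hks hfs with h | h | h
    · exact absurd (h ▸ hgF) hkF
    · exact h ▸ hgF
    · exfalso
      rw [h] at hk
      exact hf.1.2 ⟨hk.1.1, hk.1.2, hk.2.2⟩
  · intro f hf hfs
    rcases three_sides s1 s2 hfs with h | h | h
    · simp only [Prod.mk.injEq] at h
      omega
    · exfalso
      apply hf.2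
      rw [← h]
      exact ⟨rfl, le_rfl⟩
    · exact h ▸ m2

theorem side_bo (x y : ℤ) : IsSide (x, y) ((x, y, false) : UE) := Or.inl rfl

theorem side_to (x y : ℤ) : IsSide (x, y - 1) ((x, y, false) : UE) := by
  right; right; left
  simp [to']

theorem par_succ (x y : ℤ) : par (x + 1, y) ≠ par (x, y) := by
  unfold par
  simp only
  omega

/-- Lifting at the upper tip. -/
theorem out_lift (hg : Geo X₀ X₁ Y₁ B₀ B₁ I₀ I₁ A₀ A₁ A₂ x h x' h' l r d U)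
    (he : ∃ f ∈ BoxD X₀ X₁ Y₁ B₀ B₁ h', IsSide f eo) (he' : ∃ f ∉ RF X₀ X₁ 0 Y₁, IsSide f eo)
    (ht : ((x', h', false) : UE) ∈ MM ω (BoxD X₀ X₁ Y₁ B₀ B₁ h') eo)
    (hG : ∀ f ∈ G, l ≤ f.1 ∧ f.1 < r ∧ h ≤ f.2 ∧ f.2 < U ∧ ¬ (f.1 = x' ∧ f.2 < h'))
    (hc : Conn ξ G c z) (hc2 : h < c.2 ∧ c.2 < h') (hz : z.2 = h')
    (hpq : (p = (x' + 1, h') ∧ q = (x', h') ∧ x' < c.1 ∧ c.1 < r ∧ l ≤ z.1 ∧ z.1 < x') ∨
      (p = (x', h') ∧ q = (x' + 1, h') ∧ c.1 ≤ x' ∧ l < c.1 ∧ x' + 1 < z.1 ∧ z.1 ≤ r))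
    (hpar : par c = par p) :
    Conn (mix (SS ω (BoxD X₀ X₁ Y₁ B₀ B₁ h') eo) ω ξ)
      (G ∪ SS ω (BoxD X₀ X₁ Y₁ B₀ B₁ h') eo) c p := by
  obtain ⟨c1, c2⟩ := c
  obtain ⟨z1, z2⟩ := z
  obtain ⟨b0, b1, b2, i0, i1, a0, a1, a2, a3, hh, ix, ix', bx, bx', l0, r1, d0, u1⟩ := id hg
  simp only at hc2 hz hpq
  subst hz
  have hj : Joins ((x', z2, false) : UE) (x' + 1, z2) (x', z2) := Or.inr ⟨by simp [ub], rfl⟩
  have hs' : ∃ f ∈ {f : ℤ × ℤ | (X₀ ≤ f.1 ∧ f.1 < X₁ ∧ 0 ≤ f.2 ∧ f.2 < Y₁) ∧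
      ¬ (f.1 = x' ∧ f.2 < z2)}, IsSide f ((x', z2, false) : UE) :=
    ⟨(x', z2), ⟨⟨by simp only; omega, by simp only; omega, by simp only; omega,
      by simp only; omega⟩, fun hn => by simp only at hn; omega⟩, side_bo _ _⟩
  have hsub : BoxD X₀ X₁ Y₁ B₀ B₁ z2 ⊆ {f : ℤ × ℤ | (X₀ ≤ f.1 ∧ f.1 < X₁ ∧ 0 ≤ f.2 ∧ f.2 < Y₁) ∧
      ¬ (f.1 = x' ∧ f.2 < z2)} := fun f hf => ⟨hf.1, fun hn => hf.2 ⟨by omega, by omega, hn.2⟩⟩
  have hGF : G ⊆ {f : ℤ × ℤ | (X₀ ≤ f.1 ∧ f.1 < X₁ ∧ 0 ≤ f.2 ∧ f.2 < Y₁) ∧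
      ¬ (f.1 = x' ∧ f.2 < z2)} := fun f hf => by
    obtain ⟨g1, g2, g3, g4, g5⟩ := hG f hf
    exact ⟨⟨by omega, by omega, by omega, by omega⟩, g5⟩
  have hrect : ∀ {s₀ s₁ t₀ : ℤ}, B₀ ≤ s₀ → s₁ ≤ B₁ → 0 ≤ t₀ → (s₁ ≤ x' ∨ x' < s₀) →
      ∀ f ∈ RF s₀ s₁ t₀ z2, f ∈ {f : ℤ × ℤ | (X₀ ≤ f.1 ∧ f.1 < X₁ ∧ 0 ≤ f.2 ∧ f.2 < Y₁) ∧
        ¬ (f.1 = x' ∧ f.2 < z2)} ∧ f ∉ BoxD X₀ X₁ Y₁ B₀ B₁ z2 := by
    intro s₀ s₁ t₀ h1 h2 h3 h4 f hf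
    rw [PlanarB.mem_RF] at hf
    refine ⟨⟨⟨by omega, by omega, by omega, by omega⟩, fun hn => ?_⟩, fun hn => hn.2 ⟨by omega,
      by omega, hf.2.2⟩⟩
    rcases h4 with h4 | h4 <;> omega
  rcases hpq with ⟨rfl, rfl, h1, h2, h3, h4⟩ | ⟨rfl, rfl, h1, h2, h3, h4⟩
  · exact tip_lift (x₀ := x' + 1) (x₁ := c1 + 1) (y₀ := c2) (y₁ := z2) (x₂ := z1) (x₃ := x')
      (y₂ := z2 - 1) (y₃ := z2) (hasPot_slitD X₀ X₁ Y₁ x' z2) hsub (fo_closed hg he he' ht) ht hj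
      he hs' (by omega) hc2.2 (hrect (by omega) (by omega) (by omega) (Or.inr (by omega)))
      ⟨le_rfl, by simp only; omega, by simp only; omega, le_rfl⟩
      ⟨by simp only; omega, by simp only; omega, le_rfl, by simp only; omega⟩ h4 (by omega)
      (hrect (by omega) (by omega) (by omega) (Or.inl le_rfl))
      ⟨by simp only; omega, le_rfl, by simp only; omega, le_rfl⟩
      ⟨le_rfl, by simp only; omega, by simp only; omega, le_rfl⟩ hGF hc hpar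
  · exact tip_lift (x₀ := c1 - 1) (x₁ := x') (y₀ := c2) (y₁ := z2) (x₂ := x' + 1) (x₃ := z1)
      (y₂ := z2 - 1) (y₃ := z2) (hasPot_slitD X₀ X₁ Y₁ x' z2) hsub (fo_closed hg he he' ht) ht
      hj.symm he hs' (by omega) hc2.2 (hrect (by omega) (by omega) (by omega) (Or.inl le_rfl))
      ⟨by simp only; omega, le_rfl, by simp only; omega, le_rfl⟩
      ⟨by simp only; omega, by simp only; omega, le_rfl, by simp only; omega⟩ h3 (by omega)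
      (hrect (by omega) (by omega) (by omega) (Or.inr (by omega)))
      ⟨le_rfl, by simp only; omega, by simp only; omega, le_rfl⟩
      ⟨by simp only; omega, le_rfl, by simp only; omega, le_rfl⟩ hGF hc hpar

/-- Lifting at the lower tip. -/
theorem in_lift (hg : Geo X₀ X₁ Y₁ B₀ B₁ I₀ I₁ A₀ A₁ A₂ x h x' h' l r d U)
    (he : ∃ f ∈ BoxD I₀ I₁ h A₀ A₁ A₂, IsSide f ei) (he' : ∃ f ∈ RF A₀ A₁ 0 A₂, IsSide f ei)
    (ht : ((x, h, false) : UE) ∈ MM ω (BoxD I₀ I₁ h A₀ A₁ A₂) ei)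
    (hG : ∀ f ∈ G, l ≤ f.1 ∧ f.1 < r ∧ d ≤ f.2 ∧ f.2 < h' ∧ ¬ (f.1 = x ∧ h ≤ f.2))
    (hc : Conn ξ G c z) (hc2 : h < c.2 ∧ c.2 < h') (hz : z.2 = h)
    (hpq : (p = (x + 1, h) ∧ q = (x, h) ∧ x < c.1 ∧ c.1 < r ∧ l ≤ z.1 ∧ z.1 < x) ∨
      (p = (x, h) ∧ q = (x + 1, h) ∧ c.1 ≤ x ∧ l < c.1 ∧ x + 1 < z.1 ∧ z.1 ≤ r))
    (hpar : par c = par p) :
    Conn (mix (SS ω (BoxD I₀ I₁ h A₀ A₁ A₂) ei) ω ξ)
      (G ∪ SS ω (BoxD I₀ I₁ h A₀ A₁ A₂) ei) c p := by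
  obtain ⟨c1, c2⟩ := c
  obtain ⟨z1, z2⟩ := z
  obtain ⟨b0, b1, b2, i0, i1, a0, a1, a2, a3, hh, ix, ix', bx, bx', l0, r1, d0, u1⟩ := id hg
  simp only at hc2 hz hpq
  subst hz
  have hj : Joins ((x, z2, false) : UE) (x + 1, z2) (x, z2) := Or.inr ⟨by simp [ub], rfl⟩
  have hs' : ∃ f ∈ {f : ℤ × ℤ | f ∈ BoxD X₀ X₁ Y₁ A₀ A₁ A₂ ∧ ¬ (f.1 = x ∧ z2 ≤ f.2)},
      IsSide f ((x, z2, false) : UE) :=
    ⟨(x, z2 - 1), ⟨⟨⟨by simp only; omega, by simp only; omega, by simp only; omega,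
      by simp only; omega⟩, fun hn => by simp only at hn; omega⟩, fun hn => by
        simp only at hn; omega⟩, side_to _ _⟩
  have hsub : BoxD I₀ I₁ z2 A₀ A₁ A₂ ⊆
      {f : ℤ × ℤ | f ∈ BoxD X₀ X₁ Y₁ A₀ A₁ A₂ ∧ ¬ (f.1 = x ∧ z2 ≤ f.2)} := fun f hf => by
    have h1 := hf.1
    exact ⟨⟨⟨by omega, by omega, by omega, by omega⟩, hf.2⟩, fun hn => by omega⟩
  have hGF : G ⊆ {f : ℤ × ℤ | f ∈ BoxD X₀ X₁ Y₁ A₀ A₁ A₂ ∧ ¬ (f.1 = x ∧ z2 ≤ f.2)} :=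
    fun f hf => by
      obtain ⟨g1, g2, g3, g4, g5⟩ := hG f hf
      exact ⟨⟨⟨by omega, by omega, by omega, by omega⟩, fun hn => by omega⟩, g5⟩
  have hrect : ∀ {s₀ s₁ t₁ : ℤ}, B₀ ≤ s₀ → s₁ ≤ B₁ → t₁ ≤ h' → (s₁ ≤ x ∨ x < s₀) →
      ∀ f ∈ RF s₀ s₁ z2 t₁, f ∈ {f : ℤ × ℤ | f ∈ BoxD X₀ X₁ Y₁ A₀ A₁ A₂ ∧
        ¬ (f.1 = x ∧ z2 ≤ f.2)} ∧ f ∉ BoxD I₀ I₁ z2 A₀ A₁ A₂ := by
    intro s₀ s₁ t₁ h1 h2 h3 h4 f hf
    rw [PlanarB.mem_RF] at hf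
    refine ⟨⟨⟨⟨by omega, by omega, by omega, by omega⟩, fun hn => by omega⟩, fun hn => ?_⟩,
      fun hn => ?_⟩
    · rcases h4 with h4 | h4 <;> omega
    · have := hn.1.2.2.2
      omega
  rcases hpq with ⟨rfl, rfl, h1, h2, h3, h4⟩ | ⟨rfl, rfl, h1, h2, h3, h4⟩
  · exact tip_lift (x₀ := x + 1) (x₁ := c1 + 1) (y₀ := z2) (y₁ := c2) (x₂ := z1) (x₃ := x)
      (y₂ := z2) (y₃ := z2 + 1) (hasPot_slitU X₀ X₁ Y₁ A₀ A₁ A₂ x z2) hsub (fi_closed hg he he' ht)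
      ht hj he hs' (by omega) hc2.1 (hrect (by omega) (by omega) (by omega) (Or.inr (by omega)))
      ⟨le_rfl, by simp only; omega, le_rfl, by simp only; omega⟩
      ⟨by simp only; omega, by simp only; omega, by simp only; omega, le_rfl⟩ h4 (by omega)
      (hrect (by omega) (by omega) (by omega) (Or.inl le_rfl))
      ⟨by simp only; omega, le_rfl, le_rfl, by simp only; omega⟩
      ⟨le_rfl, by simp only; omega, le_rfl, by simp only; omega⟩ hGF hc hpar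
  · exact tip_lift (x₀ := c1 - 1) (x₁ := x) (y₀ := z2) (y₁ := c2) (x₂ := x + 1) (x₃ := z1)
      (y₂ := z2) (y₃ := z2 + 1) (hasPot_slitU X₀ X₁ Y₁ A₀ A₁ A₂ x z2) hsub (fi_closed hg he he' ht)
      ht hj.symm he hs' (by omega) hc2.1 (hrect (by omega) (by omega) (by omega) (Or.inl le_rfl))
      ⟨by simp only; omega, le_rfl, le_rfl, by simp only; omega⟩
      ⟨by simp only; omega, by simp only; omega, by simp only; omega, le_rfl⟩ h3 (by omega)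
      (hrect (by omega) (by omega) (by omega) (Or.inr (by omega)))
      ⟨le_rfl, by simp only; omega, le_rfl, by simp only; omega⟩
      ⟨by simp only; omega, le_rfl, le_rfl, by simp only; omega⟩ hGF hc hpar

/-- **Gluing.** The outer strand (from `eo` to the tip `(x', h')`) and the inner strand (from `ei` to
the tip `(x, h)`) are parts of one strand after resampling, if the two tubes exist in the resampled
configuration. -/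
theorem glue_flat (hg : Geo X₀ X₁ Y₁ B₀ B₁ I₀ I₁ A₀ A₁ A₂ x h x' h' l r d U)
    (heo : ∃ f ∈ BoxD X₀ X₁ Y₁ B₀ B₁ h', IsSide f eo) (heo' : ∃ f ∉ RF X₀ X₁ 0 Y₁, IsSide f eo)
    (hto : ((x', h', false) : UE) ∈ MM ω (BoxD X₀ X₁ Y₁ B₀ B₁ h') eo)
    (hei : ∃ f ∈ BoxD I₀ I₁ h A₀ A₁ A₂, IsSide f ei) (hei' : ∃ f ∈ RF A₀ A₁ 0 A₂, IsSide f ei)
    (hti : ((x, h, false) : UE) ∈ MM ω (BoxD I₀ I₁ h A₀ A₁ A₂) ei)
    (hpar : par (x, h) = par (x', h'))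
    (hEo : SS ω (BoxD X₀ X₁ Y₁ B₀ B₁ h') eo ⊆ E) (hEi : SS ω (BoxD I₀ I₁ h A₀ A₁ A₂) ei ⊆ E)
    (hEx : ∀ f ∈ E, l ≤ f.1 → f.1 < r → d ≤ f.2 → f.2 < U →
      f ∈ SS ω (BoxD X₀ X₁ Y₁ B₀ B₁ h') eo ∨ f ∈ SS ω (BoxD I₀ I₁ h A₀ A₁ A₂) ei)
    (hE : TubE ξ x h x' h' l r d U) (hW : TubW ξ x h x' h' l r d U) (hd : d ≤ h) (hu : h' ≤ U) :
    ei ∈ MM (mix E ω ξ) (BoxD X₀ X₁ Y₁ A₀ A₁ A₂) eo := by
  obtain ⟨b0, b1, b2, i0, i1, a0, a1, a2, a3, hh, ix, ix', bx, bx', l0, r1, d0, u1⟩ := id hg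
  set So := SS ω (BoxD X₀ X₁ Y₁ B₀ B₁ h') eo with hSo
  set Si := SS ω (BoxD I₀ I₁ h A₀ A₁ A₂) ei with hSi
  have hFo : BoxD X₀ X₁ Y₁ B₀ B₁ h' ⊆ BoxD X₀ X₁ Y₁ A₀ A₁ A₂ := fun f hf =>
    ⟨hf.1, fun hn => hf.2 ⟨by omega, by omega, by omega⟩⟩
  have hFi : BoxD I₀ I₁ h A₀ A₁ A₂ ⊆ BoxD X₀ X₁ Y₁ A₀ A₁ A₂ := fun f hf => by
    have h1 := hf.1
    exact ⟨⟨by omega, by omega, by omega, by omega⟩, hf.2⟩
  -- the mixture agrees with `ω` on the strands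
  have hmo : ∀ f ∈ So, ω f = mix E ω ξ f := fun f hf => (mix_of_mem (hEo hf)).symm
  have hmi : ∀ f ∈ Si, ω f = mix E ω ξ f := fun f hf => (mix_of_mem (hEi hf)).symm
  -- lifts
  have lo : ∀ {G : Set (ℤ × ℤ)} {c z p q : ℤ × ℤ},
      (∀ f ∈ G, l ≤ f.1 ∧ f.1 < r ∧ h ≤ f.2 ∧ f.2 < U ∧ ¬ (f.1 = x' ∧ f.2 < h')) →
      Conn ξ G c z → (h < c.2 ∧ c.2 < h') → z.2 = h' →
      ((p = (x' + 1, h') ∧ q = (x', h') ∧ x' < c.1 ∧ c.1 < r ∧ l ≤ z.1 ∧ z.1 < x') ∨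
      (p = (x', h') ∧ q = (x' + 1, h') ∧ c.1 ≤ x' ∧ l < c.1 ∧ x' + 1 < z.1 ∧ z.1 ≤ r)) →
      par c = par p → Conn (mix E ω ξ) (BoxD X₀ X₁ Y₁ A₀ A₁ A₂) c p := by
    intro G c z p q hG hc hc2 hz hpq hp
    have h1 := out_lift hg heo heo' hto hG hc hc2 hz hpq hp
    refine Conn.mono ?_ (conn_congr_on ?_ h1)
    · rintro f (hf | hf)
      · obtain ⟨g1, g2, g3, g4, g5⟩ := hG f hf
        exact ⟨⟨by omega, by omega, by omega, by omega⟩, fun hn => by omega⟩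
      · exact hFo hf.1
    · intro f hf
      by_cases hfo : f ∈ So
      · rw [mix_of_mem hfo, mix_of_mem (hEo hfo)]
      · rw [mix_of_notMem hfo, mix_of_notMem]
        intro hfE
        rcases hf with hf | hf
        · obtain ⟨g1, g2, g3, g4, g5⟩ := hG f hf
          rcases hEx f hfE g1 g2 (by omega) g4 with h2 | h2
          · exact hfo h2
          · have := h2.1.1.2.2.2
            omega
        · exact hfo hf
  have li : ∀ {G : Set (ℤ × ℤ)} {c z p q : ℤ × ℤ},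
      (∀ f ∈ G, l ≤ f.1 ∧ f.1 < r ∧ d ≤ f.2 ∧ f.2 < h' ∧ ¬ (f.1 = x ∧ h ≤ f.2)) →
      Conn ξ G c z → (h < c.2 ∧ c.2 < h') → z.2 = h →
      ((p = (x + 1, h) ∧ q = (x, h) ∧ x < c.1 ∧ c.1 < r ∧ l ≤ z.1 ∧ z.1 < x) ∨
      (p = (x, h) ∧ q = (x + 1, h) ∧ c.1 ≤ x ∧ l < c.1 ∧ x + 1 < z.1 ∧ z.1 ≤ r)) →
      par c = par p → Conn (mix E ω ξ) (BoxD X₀ X₁ Y₁ A₀ A₁ A₂) c p := by
    intro G c z p q hG hc hc2 hz hpq hp
    have h1 := in_lift hg hei hei' hti hG hc hc2 hz hpq hp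
    refine Conn.mono ?_ (conn_congr_on ?_ h1)
    · rintro f (hf | hf)
      · obtain ⟨g1, g2, g3, g4, g5⟩ := hG f hf
        exact ⟨⟨by omega, by omega, by omega, by omega⟩, fun hn => by omega⟩
      · exact hFi hf.1
    · intro f hf
      by_cases hfo : f ∈ Si
      · rw [mix_of_mem hfo, mix_of_mem (hEi hfo)]
      · rw [mix_of_notMem hfo, mix_of_notMem]
        intro hfE
        rcases hf with hf | hf
        · obtain ⟨g1, g2, g3, g4, g5⟩ := hG f hf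
          rcases hEx f hfE g1 g2 g3 (by omega) with h2 | h2
          · exact h2.1.2 ⟨by omega, by omega, g4⟩
          · exact hfo h2
        · exact hfo hf
  have hp1 : par (x + 1, h) = par (x' + 1, h') := by
    unfold par at hpar ⊢
    simp only at hpar ⊢
    omega
  obtain ⟨G, G', c, z, z', hG, hG', hc, hc', e1, e2, e3, e4, e5, e6, e7, e8, e9, e10, e11, e12⟩ := hE
  obtain ⟨K, K', k, y, y', hK, hK', hk, hk', f1, f2, f3, f4, f5, f6, f7, f8, f9, f10, f11, f12⟩ :=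
    hW
  have c1 := lo hG hc ⟨e4, e5⟩ e6 (Or.inl ⟨rfl, rfl, e2, e3, e7, e8⟩) (e12.trans hp1)
  have c2 := li hG' hc' ⟨e4, e5⟩ e9 (Or.inl ⟨rfl, rfl, e1, e3, e10, e11⟩) e12
  have c3 := lo hK hk ⟨f4, f5⟩ f6 (Or.inr ⟨rfl, rfl, f2, f3, f7, f8⟩) (f12.trans hpar)
  have c4 := li hK' hk' ⟨f4, f5⟩ f9 (Or.inr ⟨rfl, rfl, f1, f3, f10, f11⟩) f12
  -- the tips
  have mo : ((x', h', false) : UE) ∈ MM (mix E ω ξ) (BoxD X₀ X₁ Y₁ A₀ A₁ A₂) eo := by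
    rw [← MM_congr hmo] at hto
    exact MM_mono hFo hto
  have mi : ((x, h, false) : UE) ∈ MM (mix E ω ξ) (BoxD X₀ X₁ Y₁ A₀ A₁ A₂) ei := by
    rw [← MM_congr hmi] at hti
    exact MM_mono hFi hti
  obtain ⟨Φ, hP⟩ := hasPot_boxD X₀ X₁ Y₁ A₀ A₁ A₂
    (MM (mix E ω ξ) (BoxD X₀ X₁ Y₁ A₀ A₁ A₂) ((x', h', false) : UE)) fun f hf => evenAt_MM hf
  have key : ((x, h, false) : UE) ∈
      MM (mix E ω ξ) (BoxD X₀ X₁ Y₁ A₀ A₁ A₂) ((x', h', false) : UE) := by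
    refine hP.mem_of_conn (u := (x' + 1, h')) (v := (x', h')) (u' := (x + 1, h)) (v' := (x, h))
      (Or.inr ⟨by simp [ub], rfl⟩) ⟨(x', h'), ⟨⟨by simp only; omega, by simp only; omega,
        by simp only; omega, by simp only; omega⟩, fun hn => by simp only at hn; omega⟩,
        side_bo _ _⟩ (Or.inr ⟨by simp [ub], rfl⟩) ⟨(x, h), ⟨⟨by simp only; omega,
        by simp only; omega, by simp only; omega, by simp only; omega⟩,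
        fun hn => by simp only at hn; omega⟩, side_bo _ _⟩
      ((conn_symm c1).trans c2) ((conn_symm c3).trans c4)
  exact MM_trans mo (MM_trans key (MM_symm mi))

end Pool.Agent.SixB
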