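import Pool.Agent.Lib.SixB.S4LegDefs
import Pool.Agent.Lib.MP_6bd702_zc.Y007

/-!
# 6BD step 4, one leg: basic facts

Ends of crossing strands, first exit and last exit for general sets of faces, crossings of smaller
rings, dependence on the faces.
-/

set_option autoImplicit false

namespace Pool.Agent.SixB.Leg

open Finset Pool.Agent.Perc Pool.Agent.PercT Pool.Agent.PercD Pool.Agent.Perc6

variable {ω ω' : Cfg} {F F' : Set (ℤ × ℤ)} {e a t : UE} {f : ℤ × ℤ}

/-! ## Sides -/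

theorem side_false {x y : ℤ} : IsSide f (x, y, false) ↔ f = (x, y) ∨ f = (x, y - 1) := by
  obtain ⟨f1, f2⟩ := f
  simp only [IsSide, bo, le', to', ri, Prod.mk.injEq]
  simp
  omega

theorem side_true {x y : ℤ} : IsSide f (x, y, true) ↔ f = (x, y) ∨ f = (x - 1, y) := by
  obtain ⟨f1, f2⟩ := f
  simp only [IsSide, bo, le', to', ri, Prod.mk.injEq]
  simp
  omega

/-- The two faces of a side of the box: one inside, one outside. -/
theorem bdF_faces {w h : ℤ} {a : UE} (hw : 0 ≤ w) (hh : 1 ≤ h) (ha : BdF w h a) :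
    ∃ f g : ℤ × ℤ, IsSide f a ∧ IsSide g a ∧ f ∈ FB w h ∧ g ∉ FB w h ∧
      (∀ x, IsSide x a → x = f ∨ x = g) ∧ -w - 1 ≤ g.1 ∧ g.1 ≤ w + 1 ∧ 0 ≤ g.2 ∧ g.2 ≤ h := by
  obtain ⟨x, y, b⟩ := a
  unfold BdF at ha
  cases b
  · simp at ha
    refine ⟨(x, y - 1), (x, y), side_false.2 (Or.inr rfl), side_false.2 (Or.inl rfl), ?_, ?_, ?_,
      ?_⟩
    · rw [mem_FB]; simp only; omega
    · rw [mem_FB]; simp only; omega
    · intro z hz
      rw [side_false] at hz
      tauto
    · simp only; omega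
  · simp at ha
    rcases ha with ⟨rfl | rfl, h1, h2⟩
    · refine ⟨(-w, y), (-w - 1, y), side_true.2 (Or.inl rfl), side_true.2 (Or.inr rfl), ?_, ?_, ?_,
        ?_⟩
      · rw [mem_FB]; simp only; omega
      · rw [mem_FB]; simp only; omega
      · intro z hz
        rw [side_true] at hz
        tauto
      · simp only; omega
    · refine ⟨(w, y), (w + 1, y), side_true.2 (Or.inr (by simp)), side_true.2 (Or.inl rfl), ?_, ?_,
        ?_, ?_⟩
      · rw [mem_FB]; simp only; omega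
      · rw [mem_FB]; simp only; omega
      · intro z hz
        rw [side_true] at hz
        rcases hz with hz | hz
        · right; exact hz
        · left; rw [hz]; simp
      · simp only; omega

/-- A side of a face in the box and of a face `0 ≤ y` outside. -/
theorem bdF_of_faces {w h : ℤ} {a : UE} {f g : ℤ × ℤ} (hf : IsSide f a) (hg : IsSide g a)
    (hfF : f ∈ FB w h) (hgF : g ∉ FB w h) (hg0 : 0 ≤ g.2) : BdF w h a := by
  obtain ⟨x, y, b⟩ := a
  rw [mem_FB] at hfF hgF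
  unfold BdF
  cases b
  · rw [side_false] at hf hg
    right
    refine ⟨rfl, ?_⟩
    change y = h ∧ -w ≤ x ∧ x < w + 1
    rcases hf with rfl | rfl <;> rcases hg with rfl | rfl <;> simp only at hfF hgF hg0 <;> omega
  · rw [side_true] at hf hg
    left
    refine ⟨rfl, ?_⟩
    change (x = -w ∨ x = w + 1) ∧ 0 ≤ y ∧ y < h
    rcases hf with rfl | rfl <;> rcases hg with rfl | rfl <;> simp only at hfF hgF hg0 <;> omega

theorem BdH.disj {w w' : ℤ} (h : BdH w a) (h' : BdH w' a) (hw : 0 ≤ w) (hww : w < w') : False := by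
  obtain ⟨x, y, b⟩ := a
  unfold BdH BdF at h h'
  cases b <;> simp at h h' <;> omega

/-- The inner sides are boundary sides of the half ring. -/
theorem bdU_in {r R : ℤ} (hr : 1 ≤ r) (hR : r < R) (h : BdH r a) : BdU (HR r R) a := by
  obtain ⟨f, g, h1, h2, h3, h4, -, h6⟩ := bdF_faces (by omega) hr h
  refine ⟨⟨g, ?_, h2⟩, f, ?_, h1⟩
  · refine ⟨?_, h4⟩
    rw [mem_HB]
    omega
  · exact fun hf => hf.2 h3

/-- The outer sides are boundary sides of the half ring. -/
theorem bdU_out {r R : ℤ} (hr : 1 ≤ r) (hR : r < R) (h : BdH R a) : BdU (HR r R) a := by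
  obtain ⟨f, g, h1, h2, h3, h4, h5, h6⟩ := bdF_faces (by omega) (by omega) h
  refine ⟨⟨f, ⟨h3, ?_⟩, h1⟩, g, fun hg => h4 hg.1, h2⟩
  intro hf
  have hb : BdH r a := bdF_of_faces (f := f) (g := g) h1 h2 hf (fun hg => h4 (HB_mono hR.le hg))
    (by omega)
  exact hb.disj h (by omega) hR

/-- A set of faces without a face at `e`. -/
theorem MM_eq_single (h : ∀ f ∈ F, ¬ IsSide f e) : MM ω F e = {e} := by
  apply Set.Subset.antisymm
  · intro a ha
    rcases Relation.ReflTransGen.cases_head ha with h1 | ⟨c, ⟨f, hf, hm⟩, -⟩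
    · exact h1.symm
    · exact absurd hm.left (h f hf)
  · intro a ha
    rw [Set.mem_singleton_iff] at ha
    rw [ha]
    exact mem_MM_self

/-! ## First exit, last exit -/

/-- First exit: the component in `F` stays in `F'` or meets in `F'` a side of a face off `F'`. -/
theorem first_exit (ha : a ∈ MM ω F e) :
    a ∈ MM ω F' e ∨ ∃ b ∈ MM ω F' e, (∃ f ∈ F, f ∉ F' ∧ IsSide f b) ∧ a ∈ MM ω F b := by
  induction ha with
  | refl => exact Or.inl mem_MM_self
  | @tail b c hb hs ih =>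
    obtain ⟨f, hf, hm⟩ := hs
    rcases ih with ih | ⟨b', h1, h2, h3⟩
    · by_cases hf' : f ∈ F'
      · exact Or.inl (MM_step hf' hm ih)
      · exact Or.inr ⟨b, ih, ⟨f, hf, hf', hm.left⟩, MM_step hf hm mem_MM_self⟩
    · exact Or.inr ⟨b', h1, h2, MM_step hf hm h3⟩

/-- Last exit: the component in `F` avoids `F'` or comes back for the last time from `F'`. -/
theorem last_exit (ha : a ∈ MM ω F e) :
    a ∈ MM ω (F \ F') e ∨ ∃ b ∈ MM ω F e, (∃ f ∈ F', f ∈ F ∧ IsSide f b) ∧ a ∈ MM ω (F \ F') b := by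
  induction ha with
  | refl => exact Or.inl mem_MM_self
  | @tail b c hb hs ih =>
    obtain ⟨f, hf, hm⟩ := hs
    by_cases hf' : f ∈ F'
    · exact Or.inr ⟨c, Relation.ReflTransGen.tail hb ⟨f, hf, hm⟩, ⟨f, hf', hf, hm.right⟩,
        mem_MM_self⟩
    · rcases ih with ih | ⟨b', h1, h2, h3⟩
      · exact Or.inl (MM_step ⟨hf, hf'⟩ hm ih)
      · exact Or.inr ⟨b', h1, h2, MM_step ⟨hf, hf'⟩ hm h3⟩

/-! ## Ends of crossing strands -/

/-- The outer end is unique. -/
theorem out_unique {r R : ℤ} (hr : 1 ≤ r) (hR : r < R) {t' : UE} (he : BdH r e) (ht : BdH R t)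
    (ht' : BdH R t') (h : t ∈ MM ω (HR r R) e) (h' : t' ∈ MM ω (HR r R) e) : t = t' :=
  bdU_unique (bdU_in hr hR he) h h' (bdU_out hr hR ht) (bdU_out hr hR ht')
    (fun h => he.disj (h ▸ ht) (by omega) hR) fun h => he.disj (h ▸ ht') (by omega) hR

/-- The inner end is unique. -/
theorem in_unique {r R : ℤ} (hr : 1 ≤ r) (hR : r < R) {e' : UE} (he : BdH r e) (he' : BdH r e')
    (ht : BdH R t) (h : t ∈ MM ω (HR r R) e) (h' : t ∈ MM ω (HR r R) e') : e = e' :=
  bdU_unique (bdU_out hr hR ht) (MM_symm h) (MM_symm h') (bdU_in hr hR he) (bdU_in hr hR he')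
    (fun h => he.disj (h ▸ ht) (by omega) hR) fun h => he'.disj (h ▸ ht) (by omega) hR

theorem finite_bdH (r : ℤ) : {a : UE | BdH r a}.Finite := by
  refine ((Finset.Icc (-r) (r + 1) ×ˢ (Finset.Icc 0 r ×ˢ (Finset.univ : Finset Bool))).finite_toSet).subset ?_
  rintro ⟨x, y, b⟩ h
  rw [Set.mem_ofPred_eq] at h
  unfold BdH BdF at h
  rw [mem_coe, mem_product, mem_product, mem_Icc, mem_Icc]
  cases b <;> simp at h ⊢ <;> omega

theorem Crs_finite (ω : Cfg) (r R : ℤ) : (Crs ω r R).Finite :=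
  (finite_bdH r).subset fun _ h => h.1

theorem CrsO_finite (ω : Cfg) (r R : ℤ) : (CrsO ω r R).Finite :=
  (finite_bdH R).subset fun _ h => h.1

theorem one_le_nH {r R : ℤ} : 1 ≤ nH ω r R ↔ (Crs ω r R).Nonempty := by
  unfold nH
  rw [Nat.one_le_iff_ne_zero, ← Nat.pos_iff_ne_zero, Set.ncard_pos (Crs_finite ω r R)]

theorem nH_eq_one {r R : ℤ} : nH ω r R = 1 ↔ ∃ e, Crs ω r R = {e} := by
  unfold nH
  rw [Set.ncard_eq_one]

theorem nH_le_one {r R : ℤ} (h : ∀ e ∈ Crs ω r R, ∀ e' ∈ Crs ω r R, e = e') : nH ω r R ≤ 1 := by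
  unfold nH
  rw [Set.ncard_le_one (Crs_finite ω r R)]
  exact h

theorem Crs.out {r R : ℤ} (h : e ∈ Crs ω r R) : ∃ t ∈ CrsO ω r R, t ∈ MM ω (HR r R) e := by
  obtain ⟨h1, t, h2, h3⟩ := h
  exact ⟨t, ⟨h2, e, h1, h3⟩, h3⟩

theorem CrsO.inn {r R : ℤ} (h : t ∈ CrsO ω r R) : ∃ e ∈ Crs ω r R, t ∈ MM ω (HR r R) e := by
  obtain ⟨h1, e, h2, h3⟩ := h
  exact ⟨e, ⟨h2, t, h1, h3⟩, h3⟩

/-- If one strand crosses: its two ends. -/
theorem crsO_eq_single {r R : ℤ} (hr : 1 ≤ r) (hR : r < R) (h : Crs ω r R = {e}) :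
    ∃ t, CrsO ω r R = {t} ∧ BdH r e ∧ BdH R t ∧ t ∈ MM ω (HR r R) e := by
  have he : e ∈ Crs ω r R := by rw [h]; rfl
  obtain ⟨h1, t, h2, h3⟩ := he
  refine ⟨t, ?_, h1, h2, h3⟩
  apply Set.Subset.antisymm
  · intro t' ht'
    obtain ⟨e', he', hm⟩ := CrsO.inn ht'
    rw [h, Set.mem_singleton_iff] at he'
    subst he'
    rw [Set.mem_singleton_iff]
    exact out_unique hr hR h1 ht'.1 h2 hm h3
  · intro t' ht'
    rw [Set.mem_singleton_iff] at ht'
    subst ht'
    exact ⟨h2, e, h1, h3⟩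

/-! ## Smaller rings -/

theorem HR_mono {r r' R R' : ℤ} (h : r ≤ r') (h' : R' ≤ R) : HR r' R' ⊆ HR r R := by
  intro f hf
  rw [mem_HR] at hf ⊢
  omega

theorem HR_sdiff {r b R : ℤ} (h : r ≤ b) : HR r R \ HR r b = HR b R := by
  ext f
  rw [Set.mem_sdiff, mem_HR, mem_HR, mem_HR]
  omega

/-- A strand which crosses a ring crosses every smaller ring (all the ends are in the strand). -/
theorem cross_sub {r a b R : ℤ} (hr : 1 ≤ r) (hra : r ≤ a) (hab : a < b) (hbR : b ≤ R) {e t : UE}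
    (he : BdH r e) (ht : BdH R t) (h : t ∈ MM ω (HR r R) e) :
    ∃ e₁ t₁, BdH a e₁ ∧ BdH b t₁ ∧ t₁ ∈ MM ω (HR a b) e₁ ∧ e₁ ∈ MM ω (HR r b) e ∧
      t₁ ∈ MM ω (HR r b) e ∧ (a = r → e₁ = e) := by
  -- first exit from `HB b`
  have h1 : ∃ t₁, BdH b t₁ ∧ t₁ ∈ MM ω (HR r b) e := by
    rcases hbR.eq_or_lt with rfl | hbR'
    · exact ⟨t, ht, h⟩
    · rcases first_exit (F' := HR r b) h with h2 | ⟨t₁, h2, ⟨f, hf, hf', hs⟩, -⟩
      · exfalso
        have h3 : t ≠ e := fun h => he.disj (h ▸ ht) (by omega) (by omega)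
        rcases Relation.ReflTransGen.cases_tail h2 with h4 | ⟨c, -, g, hg, hm⟩
        · exact h3 h4
        · have hb : BdH b t := by
            obtain ⟨f1, g1, j1, j2, j3, j4, j5, j6⟩ := bdF_faces (by omega) (by omega) ht
            have hg1 := hg
            have hgR := HR_mono le_rfl hbR hg1
            rw [mem_HR] at hg1
            refine bdF_of_faces (f := g) (g := g1) hm.right j2 ?_ ?_ j6.2.2.1
            · rw [mem_FB]; exact hg1.1
            · intro hh
              exact j4 (HB_mono hbR hh)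
          exact hb.disj ht (by omega) hbR'
      · refine ⟨t₁, ?_, h2⟩
        rw [mem_HR] at hf hf'
        have hfb : f ∉ FB b b := by rw [mem_FB]; omega
        rcases Relation.ReflTransGen.cases_tail h2 with h4 | ⟨c, -, g, hg, hm⟩
        · subst h4
          obtain ⟨f1, g1, j1, j2, j3, j4, j5, j6⟩ := bdF_faces (by omega) (by omega) he
          rcases j5 f hs with rfl | rfl
          · exact absurd (HB_mono (by omega : r ≤ b) j3) hfb
          · exfalso
            apply hfb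
            rw [mem_FB]
            omega
        · rw [mem_HR] at hg
          exact bdF_of_faces (f := g) (g := f) hm.right hs (by rw [mem_FB]; exact hg.1) hfb
            (by omega)
  obtain ⟨t₁, ht₁, hm₁⟩ := h1
  rcases hra.eq_or_lt with rfl | hra'
  · exact ⟨e, t₁, he, ht₁, hm₁, mem_MM_self, hm₁, fun _ => rfl⟩
  -- last exit from `HB a`
  rcases last_exit (F' := HR r a) hm₁ with h2 | ⟨e₁, h2, ⟨f, hf, hf', hs⟩, h3⟩
  · exfalso
    rw [HR_sdiff hra] at h2
    have h4 : MM ω (HR a b) e = {e} := by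
      refine MM_eq_single fun f hf hs => ?_
      rw [mem_HR] at hf
      obtain ⟨f1, g1, j1, j2, j3, j4, j5, j6⟩ := bdF_faces (by omega) (by omega) he
      rcases j5 f hs with rfl | rfl
      · rw [mem_FB] at j3
        omega
      · omega
    rw [h4, Set.mem_singleton_iff] at h2
    exact he.disj (h2 ▸ ht₁) (by omega) (by omega)
  · rw [HR_sdiff hra] at h3
    refine ⟨e₁, t₁, ?_, ht₁, h3, h2, hm₁, fun h => absurd h (by omega)⟩
    rw [mem_HR] at hf
    rcases Relation.ReflTransGen.cases_head h3 with h4 | ⟨c, ⟨g, hg, hm⟩, -⟩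
    · exfalso
      subst h4
      obtain ⟨f1, g1, j1, j2, j3, j4, j5, j6⟩ := bdF_faces (by omega) (by omega) ht₁
      rw [mem_FB] at j3 j4
      have hb : BdH a e₁ := bdF_of_faces (f := f) (g := g1) hs j2 (by rw [mem_FB]; exact hf.1)
        (by rw [mem_FB]; omega) j6.2.2.1
      exact hb.disj ht₁ (by omega) hab
    · rw [mem_HR] at hg
      exact bdF_of_faces (f := f) (g := g) hs hm.left (by rw [mem_FB]; exact hf.1)
        (by rw [mem_FB]; exact hg.2) (by omega)

/-! ## Dependence on the faces -/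

theorem Crs_congr {r R : ℤ} (h : ∀ f ∈ HR r R, ω f = ω' f) : Crs ω' r R = Crs ω r R := by
  unfold Crs
  simp only [MM_congr' h]

theorem CrsO_congr {r R : ℤ} (h : ∀ f ∈ HR r R, ω f = ω' f) : CrsO ω' r R = CrsO ω r R := by
  unfold CrsO
  simp only [MM_congr' h]

theorem nH_congr {r R : ℤ} (h : ∀ f ∈ HR r R, ω f = ω' f) : nH ω' r R = nH ω r R := by
  unfold nH
  rw [Crs_congr h]

theorem depF_nH (r R : ℤ) : DepF (HR r R) fun ω => nH ω r R :=
  fun _ _ h => (nH_congr h).symm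

theorem depOn_nH (r R : ℤ) (P : ℕ → Prop) : DepOn (HR r R) {ω | P (nH ω r R)} := by
  intro ω ω' h
  rw [Set.mem_ofPred_eq, Set.mem_ofPred_eq, nH_congr h]

theorem depOn_Lg (r R : ℤ) : DepOn (HR r R) (Lg r R) := depOn_nH r R fun n => 1 ≤ n

/-- For windows: the half ring as a finite set. -/
theorem HR_coe (r R : ℤ) : HR r R = ((HB R \ HB r : Finset (ℤ × ℤ)) : Set (ℤ × ℤ)) := by
  ext f
  rw [mem_coe, mem_sdiff]
  rfl

end Pool.Agent.SixB.Leg
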