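import Pool.Agent.Lib.SixB.S4Tower
import Pool.Agent.Lib.MP_6bd702_z.Z023
import Pool.Agent.Lib.MP_6bd702_zc.Y007

/-!
# 6BD step 4: the mirror `x ↦ 1 - x`

* `mF` faces, `mV` vertices, `mS` unit edges, `mir ω` configurations: `mir ω (x, y) = !ω (-x, y)`.
* `muI I ω` : mirror of the faces of `I`, identity off `I`; `MSym I` : `I` is symmetric. For a symmetric
  finite `I ⊆ W` the map `muI I` preserves `exr W` and `pr W` and is an involution.
* components, visited faces, connections, potentials under `mir` and `muI I`.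
-/

set_option autoImplicit false

namespace Pool.Agent.SixB

open Finset Pool.Agent.Perc Pool.Agent.PercT Pool.Agent.Perc6

variable {ω ω' ξ : Cfg} {F G I J : Set (ℤ × ℤ)} {W : Finset (ℤ × ℤ)} {e a : UE} {f u v : ℤ × ℤ}

/-- mirror of a face -/
def mF (f : ℤ × ℤ) : ℤ × ℤ := (-f.1, f.2)

/-- mirror of a vertex -/
def mV (v : ℤ × ℤ) : ℤ × ℤ := (1 - v.1, v.2)

/-- mirror of a unit edge -/
def mS (a : UE) : UE := (if a.2.2 then 1 - a.1 else -a.1, a.2.1, a.2.2)

/-- mirror of a configuration -/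
def mir (ω : Cfg) : Cfg := fun f => !ω (mF f)

@[simp] theorem mF_mF (f : ℤ × ℤ) : mF (mF f) = f := by simp [mF]
@[simp] theorem mV_mV (v : ℤ × ℤ) : mV (mV v) = v := by simp [mV]
@[simp] theorem mS_mS (a : UE) : mS (mS a) = a := by
  obtain ⟨x, y, b⟩ := a
  cases b <;> simp [mS]
@[simp] theorem mS_false (x y : ℤ) : mS (x, y, false) = (-x, y, false) := by simp [mS]
@[simp] theorem mS_true (x y : ℤ) : mS (x, y, true) = (1 - x, y, true) := by simp [mS]
theorem mir_mir (ω : Cfg) : mir (mir ω) = ω := by funext f; simp [mir]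

theorem symX_f : (symX 1).f = ⟨mF, mF, mF_mF, mF_mF⟩ := by
  ext w
  · show 1 - w.1 - 1 = -w.1
    ring
  · rfl
theorem symX_v (v : ℤ × ℤ) : (symX 1).v v = mV v := rfl
theorem symX_s (a : UE) : (symX 1).s a = mS a := by
  obtain ⟨x, y, b⟩ := a
  cases b <;> simp [symX, hsymX, mS]
theorem symX_f' (f : ℤ × ℤ) : (symX 1).f f = mF f := by rw [symX_f]; rfl
theorem symX_act (ω : Cfg) : (symX 1).act ω = mir ω := by
  funext g
  show xor true (ω ((symX 1).f.symm g)) = !ω (mF g)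
  rw [symX_f]
  simp
theorem symX_image (F : Set (ℤ × ℤ)) : (symX 1).f '' F = mF '' F := by rw [symX_f]; rfl

theorem mF_inj : Function.Injective mF := fun a b h => by rw [← mF_mF a, h, mF_mF]
theorem mS_inj : Function.Injective mS := fun a b h => by rw [← mS_mS a, h, mS_mS]

theorem mem_image_mF : f ∈ mF '' F ↔ mF f ∈ F := by
  constructor
  · rintro ⟨g, hg, rfl⟩; rwa [mF_mF]
  · intro h; exact ⟨_, h, mF_mF f⟩

theorem mem_image_mS {M : Set UE} : a ∈ mS '' M ↔ mS a ∈ M := by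
  constructor
  · rintro ⟨g, hg, rfl⟩; rwa [mS_mS]
  · intro h; exact ⟨_, h, mS_mS a⟩

/-- symmetric set of faces -/
def MSym (I : Set (ℤ × ℤ)) : Prop := ∀ f, f ∈ I → mF f ∈ I

theorem MSym.iff (h : MSym I) : mF f ∈ I ↔ f ∈ I := by
  constructor
  · intro h1
    have := h _ h1
    rwa [mF_mF] at this
  · exact h f

theorem MSym.image (h : MSym I) : mF '' I = I := by
  ext f
  rw [mem_image_mF, h.iff]

theorem MSym.inter (h : MSym I) (h' : MSym J) : MSym (I ∩ J) := fun f hf => ⟨h f hf.1, h' f hf.2⟩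
theorem MSym.union (h : MSym I) (h' : MSym J) : MSym (I ∪ J) :=
  fun f hf => hf.imp (h f) (h' f)
theorem MSym.compl (h : MSym I) : MSym Iᶜ := fun _ hf hf' => hf (h.iff.mp hf')
theorem MSym.diff (h : MSym I) (h' : MSym J) : MSym (I \ J) :=
  fun f hf => ⟨h f hf.1, fun hh => hf.2 (h'.iff.mp hh)⟩

/-- symmetric rectangles -/
theorem msym_RF (w y₀ y₁ : ℤ) : MSym (RF (-w) (w + 1) y₀ y₁ : Set (ℤ × ℤ)) := by
  rintro ⟨x, y⟩ h
  simp only [RF, Finset.coe_product, Finset.coe_Ico, Set.mem_prod, Set.mem_Ico, mF] at h ⊢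
  omega

/-! ### Components -/

theorem mt_mir {g : ℤ × ℤ} {a a' : UE} : Mt (mir ω) (mF g) (mS a) (mS a') ↔ Mt ω g a a' := by
  have key : ∀ (ω : Cfg) (g : ℤ × ℤ) (a a' : UE), Mt ω g a a' → Mt (mir ω) (mF g) (mS a) (mS a') := by
    intro ω g a a' h
    have := (symX 1).toHSym.mt_act h
    rw [show (symX 1).toHSym.act ω = mir ω from symX_act ω,
      show (symX 1).toHSym.f g = mF g from symX_f' g, show (symX 1).toHSym.s a = mS a from symX_s a,
      show (symX 1).toHSym.s a' = mS a' from symX_s a'] at this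
    exact this
  refine ⟨fun h => ?_, key ω g a a'⟩
  have := key _ _ _ _ h
  rwa [mir_mir, mF_mF, mS_mS, mS_mS] at this

theorem MM_mir : MM (mir ω) (mF '' F) (mS e) = mS '' MM ω F e := by
  have := (symX 1).MM_act (ω := ω) (F := F) (e := e)
  rw [symX_act, symX_image, symX_s, show ((symX 1).s : UE → UE) = mS from funext symX_s] at this
  exact this

theorem SS_mir : SS (mir ω) (mF '' F) (mS e) = mF '' SS ω F e := by
  have := (symX 1).SS_act (ω := ω) (F := F) (e := e)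
  rw [symX_act, symX_image, symX_s, symX_image] at this
  exact this

theorem conn_mir : Conn (mir ω) (mF '' F) (mV u) (mV v) ↔ Conn ω F u v := by
  have := (symX 1).conn_iff (ω := ω) (F := F) (u := u) (v := v)
  rw [symX_act, symX_image, symX_v, symX_v] at this
  exact this

theorem joins_mir : Joins (mS e) (mV u) (mV v) ↔ Joins e u v := by
  have := (symX 1).joins_iff (a := e) (u := u) (v := v)
  rw [symX_s, symX_v, symX_v] at this
  exact this

theorem isSide_mir : IsSide (mF f) (mS a) ↔ IsSide f a := by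
  have := (symX 1).isSide_iff (g := f) (a := a)
  rw [symX_f', symX_s] at this
  exact this

theorem bdU_mir : BdU (mF '' F) (mS a) ↔ BdU F a := by
  unfold BdU
  constructor
  · rintro ⟨⟨f, hf, h1⟩, g, hg, h2⟩
    rw [mem_image_mF] at hf
    rw [mem_image_mF] at hg
    refine ⟨⟨_, hf, ?_⟩, _, hg, ?_⟩
    · rw [← isSide_mir, mF_mF]; exact h1
    · rw [← isSide_mir, mF_mF]; exact h2
  · rintro ⟨⟨f, hf, h1⟩, g, hg, h2⟩
    refine ⟨⟨mF f, ⟨f, hf, rfl⟩, isSide_mir.mpr h1⟩, mF g, ?_, isSide_mir.mpr h2⟩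
    rwa [mem_image_mF, mF_mF]

theorem ua_mS (a : UE) : (ua (mS a) = mV (ua a) ∧ ub (mS a) = mV (ub a)) ∨
    (ua (mS a) = mV (ub a) ∧ ub (mS a) = mV (ua a)) := by
  have h := joins_mir.mpr (Or.inl ⟨rfl, rfl⟩ : Joins a (ua a) (ub a))
  rcases h with ⟨h1, h2⟩ | ⟨h1, h2⟩
  · exact Or.inl ⟨h1.symm, h2.symm⟩
  · exact Or.inr ⟨h2.symm, h1.symm⟩

theorem isPot_mir {M : Set UE} {Φ : ℤ × ℤ → ZMod 2} (h : IsPot F M Φ) :
    IsPot (mF '' F) (mS '' M) (fun v => Φ (mV v)) := by
  intro f hf a ha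
  rw [mem_image_mF] at hf
  have h1 : IsSide (mF f) (mS a) := isSide_mir.mpr ha
  have h2 := h _ hf _ h1
  rw [mem_image_mS, h2]
  rcases ua_mS a with ⟨h3, h4⟩ | ⟨h3, h4⟩
  · rw [h3, h4]
  · rw [h3, h4, ne_comm]

theorem isPot_mir_iff {M : Set UE} {Φ : ℤ × ℤ → ZMod 2} :
    IsPot (mF '' F) (mS '' M) (fun v => Φ (mV v)) ↔ IsPot F M Φ := by
  refine ⟨fun h => ?_, isPot_mir⟩
  have h1 := isPot_mir h
  have e1 : mF '' (mF '' F) = F := by ext f; rw [mem_image_mF, mem_image_mF, mF_mF]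
  have e2 : mS '' (mS '' M) = M := by ext f; rw [mem_image_mS, mem_image_mS, mS_mS]
  rw [e1, e2] at h1
  have e3 : (fun v => Φ (mV (mV v))) = Φ := by funext v; rw [mV_mV]
  simpa only [e3] using h1

/-! ### Mirror of a part -/

/-- mirror of the faces of `I`, identity off `I` -/
noncomputable def muI (I : Set (ℤ × ℤ)) (ω : Cfg) : Cfg := mix I (mir ω) ω

theorem muI_mem (h : f ∈ I) : muI I ω f = !ω (mF f) := mix_of_mem h

theorem muI_notMem (h : f ∉ I) : muI I ω f = ω f := mix_of_notMem h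

theorem muI_muI (h : MSym I) (ω : Cfg) : muI I (muI I ω) = ω := by
  funext f
  by_cases hf : f ∈ I
  · rw [muI_mem hf, muI_mem (h f hf), mF_mF, Bool.not_not]
  · rw [muI_notMem hf, muI_notMem hf]

theorem MM_muI (hI : MSym I) (hF : F ⊆ I) : MM (muI I ω) (mF '' F) (mS e) = mS '' MM ω F e := by
  rw [← MM_mir]
  refine PercD.MM_congr' fun f hf => ?_
  rw [mem_image_mF] at hf
  have h1 : f ∈ I := by rw [← hI.iff]; exact hF hf
  rw [muI_mem h1]
  rfl

theorem SS_muI (hI : MSym I) (hF : F ⊆ I) : SS (muI I ω) (mF '' F) (mS e) = mF '' SS ω F e := by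
  rw [← SS_mir]
  unfold SS
  have h1 : MM (muI I ω) (mF '' F) (mS e) = MM (mir ω) (mF '' F) (mS e) := by
    rw [MM_muI hI hF, MM_mir]
  rw [h1]

theorem conn_muI (hI : MSym I) (hF : F ⊆ I) :
    Conn (muI I ω) (mF '' F) (mV u) (mV v) ↔ Conn ω F u v := by
  refine Iff.trans ?_ conn_mir
  have h1 : ∀ f ∈ mF '' F, muI I ω f = mir ω f := by
    intro f hf
    rw [mem_image_mF] at hf
    have h2 : f ∈ I := by rw [← hI.iff]; exact hF hf
    rw [muI_mem h2]
    rfl
  exact ⟨GridA.conn_congr _ h1, GridA.conn_congr _ fun f hf => (h1 f hf).symm⟩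

theorem MM_muI_off (hF : Disjoint F I) : MM (muI I ω) F e = MM ω F e := by
  refine PercD.MM_congr' fun f hf => ?_
  rw [muI_notMem fun h => Set.disjoint_left.mp hF hf h]

theorem SS_muI_off (hF : Disjoint F I) : SS (muI I ω) F e = SS ω F e := by
  unfold SS
  rw [MM_muI_off hF]

/-! ### Measure -/

/-- the set of faces of a mirrored configuration -/
noncomputable def muT (I : Set (ℤ × ℤ)) (W T : Finset (ℤ × ℤ)) : Finset (ℤ × ℤ) :=
  W.filter fun f => muI I (cfg T) f = true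

theorem muT_sub (I : Set (ℤ × ℤ)) (W T : Finset (ℤ × ℤ)) : muT I W T ⊆ W := Finset.filter_subset _ _

theorem muI_off_window (hIW : I ⊆ (W : Set (ℤ × ℤ))) {T : Finset (ℤ × ℤ)} (hT : T ⊆ W) :
    cfg (muT I W T) = muI I (cfg T) := by
  funext f
  show decide (f ∈ muT I W T) = muI I (cfg T) f
  unfold muT
  by_cases hf : f ∈ W
  · cases h : muI I (cfg T) f <;> simp [hf, h]
  · have h1 : f ∉ I := fun h => hf (hIW h)
    have h2 : f ∉ T := fun h => hf (hT h)
    have h3 : muI I (cfg T) f = false := by rw [muI_notMem h1]; simp [cfg, h2]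
    simp [hf, h3]

theorem cfg_inj {T U : Finset (ℤ × ℤ)} (h : cfg T = cfg U) : T = U := by
  ext f
  have := congrFun h f
  simpa [cfg] using this

theorem exr_muI (hI : MSym I) (hIW : I ⊆ (W : Set (ℤ × ℤ))) (g : Cfg → ℝ) :
    exr W (fun ω => g (muI I ω)) = exr W g := by
  classical
  unfold exr
  congr 1
  refine Finset.sum_nbij' (fun T => muT I W T) (fun T => muT I W T) ?_ ?_ ?_ ?_ ?_
  · intro T _
    exact Finset.mem_powerset.mpr (muT_sub I W T)
  · intro T _
    exact Finset.mem_powerset.mpr (muT_sub I W T)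
  · intro T hT
    rw [Finset.mem_powerset] at hT
    apply cfg_inj
    rw [muI_off_window hIW (muT_sub I W T), muI_off_window hIW hT, muI_muI hI]
  · intro T hT
    rw [Finset.mem_powerset] at hT
    apply cfg_inj
    rw [muI_off_window hIW (muT_sub I W T), muI_off_window hIW hT, muI_muI hI]
  · intro T hT
    rw [Finset.mem_powerset] at hT
    rw [muI_off_window hIW hT]

theorem pr_muI (hI : MSym I) (hIW : I ⊆ (W : Set (ℤ × ℤ))) (A : Set Cfg) :
    pr W {ω | muI I ω ∈ A} = pr W A := by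
  classical
  rw [← exr_ind A, ← exr_ind {ω | muI I ω ∈ A}]
  exact exr_muI hI hIW fun ω => if ω ∈ A then (1 : ℝ) else 0

/-- Mirror and resampling off a stopping set. -/
theorem muI_agree {S : Set (ℤ × ℤ)} (h : ∀ f ∈ S, ω f = ω' f) :
    ∀ f, (f ∈ I → mF f ∈ S) → (f ∉ I → f ∈ S) → muI I ω f = muI I ω' f := by
  intro f h1 h2
  by_cases hf : f ∈ I
  · rw [muI_mem hf, muI_mem hf, h _ (h1 hf)]
  · rw [muI_notMem hf, muI_notMem hf, h _ (h2 hf)]

end Pool.Agent.SixB
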