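import Pool.Agent.Lib.SixB.S4LegDefs
import Pool.Agent.Lib.SixB.S4Refl

/-!
# 6BD step 4, one leg oddness: row T4 (Mir)

The mirror of the inner box: the good event, the explored set, the mean, agreement on the explored
faces, the oddness hypothesis.
-/

set_option autoImplicit false

namespace Pool.Agent.SixB.Leg

open Finset Pool.Agent.Perc Pool.Agent.PercT

variable {ω ω' : Cfg} {a b w h : ℤ} {I F : Set (ℤ × ℤ)} {e t : UE} {f : ℤ × ℤ} {p : ℤ} {v : Lev}

theorem muC_eq (I : Set (ℤ × ℤ)) (ω : Cfg) : muC I ω = muI I ω := by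
  funext f
  by_cases hf : f ∈ I
  · rw [muI_mem hf]; exact if_pos hf
  · rw [muI_notMem hf]; exact if_neg hf

theorem muC_mem (h : f ∈ I) : muC I ω f = !ω (mF f) := if_pos h

theorem muC_notMem (h : f ∉ I) : muC I ω f = ω f := if_neg h

theorem bdF_mS : BdF w h (mS t) ↔ BdF w h t := by
  obtain ⟨x, y, c⟩ := t
  unfold BdF
  cases c
  · simp only [mS_false]
    simp
    omega
  · simp only [mS_true]
    simp
    omega

theorem msym_FB (w h : ℤ) : MSym (FB w h : Set (ℤ × ℤ)) := msym_RF w 0 h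

theorem msym_HB (w : ℤ) : MSym (HB w : Set (ℤ × ℤ)) := msym_RF w 0 w

theorem msym_HR (a b : ℤ) : MSym (HR a b) := (msym_HB b).diff (msym_HB a)

theorem msym_RI (v : Lev) : MSym (RI v) := (msym_FB v.s v.u).diff (msym_HB v.a)

theorem MM_mu (hI : MSym I) (hF : F ⊆ I) (hs : MSym F) : MM (muI I ω) F (mS e) = mS '' MM ω F e := by
  have := MM_muI (ω := ω) (e := e) hI hF
  rwa [hs.image] at this

theorem SS_mu (hI : MSym I) (hF : F ⊆ I) (hs : MSym F) : SS (muI I ω) F (mS e) = SixB.mF '' SS ω F e := by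
  have := SS_muI (ω := ω) (e := e) hI hF
  rwa [hs.image] at this

theorem HR_sub (h : b ≤ w) (h' : b ≤ p) : HR a b ⊆ (FB w p : Set (ℤ × ℤ)) := by
  intro f hf
  rw [mem_HR] at hf
  rw [Finset.mem_coe, mem_FB]
  omega

theorem crs_mu (hI : MSym I) (hb : HR a b ⊆ I) : Crs (muI I ω) a b = mS '' Crs ω a b := by
  ext e
  rw [mem_image_mS]
  unfold Crs BdH
  simp only [Set.mem_ofPred_eq]
  have h1 : MM (muI I ω) (HR a b) e = mS '' MM ω (HR a b) (mS e) := by
    have := MM_mu (ω := ω) (e := mS e) hI hb (msym_HR a b)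
    rwa [mS_mS] at this
  rw [h1]
  refine and_congr bdF_mS.symm ?_
  constructor
  · rintro ⟨t, h2, ht⟩
    rw [mem_image_mS] at ht
    exact ⟨_, bdF_mS.mpr h2, ht⟩
  · rintro ⟨t, h2, ht⟩
    exact ⟨mS t, bdF_mS.mpr h2, ⟨t, ht, rfl⟩⟩

theorem nH_mu (hI : MSym I) (hb : HR a b ⊆ I) : nH (muI I ω) a b = nH ω a b := by
  unfold nH
  rw [crs_mu hI hb, Set.ncard_image_of_injective _ mS_inj]

theorem crs_mu_off (hI : Disjoint (HR a b) I) : Crs (muI I ω) a b = Crs ω a b := by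
  unfold Crs
  simp only [MM_muI_off hI]

theorem crsO_mu_off (hI : Disjoint (HR a b) I) : CrsO (muI I ω) a b = CrsO ω a b := by
  unfold CrsO
  simp only [MM_muI_off hI]

theorem nH_mu_off (hI : Disjoint (HR a b) I) : nH (muI I ω) a b = nH ω a b := by
  unfold nH
  rw [crs_mu_off hI]

section Level

variable (hv : v.Ok)

include hv

theorem Lev.Ok.inner : HR v.a v.b ⊆ (FB v.s v.u : Set (ℤ × ℤ)) := by
  have h1 := hv.ha
  have h2 := hv.hb
  have h3 := hv.hu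
  have h4 := hv.hs
  exact HR_sub (by omega) (by omega)

theorem Lev.Ok.ring : Disjoint (HR v.a' v.b') (FB v.s v.u : Set (ℤ × ℤ)) := by
  have h1 := hv.ha
  have h2 := hv.hb
  have h3 := hv.hu
  have h4 := hv.hs
  have h5 := hv.hq
  have h6 := hv.ha'
  rw [Set.disjoint_left]
  intro f hf hf'
  rw [mem_HR] at hf
  rw [Finset.mem_coe, mem_FB] at hf'
  omega

theorem Lev.Ok.outer : Disjoint (RO v) (FB v.s v.u : Set (ℤ × ℤ)) := by
  have h1 := hv.ha
  have h2 := hv.hb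
  have h3 := hv.hu
  have h4 := hv.hs
  have h5 := hv.hq
  rw [Set.disjoint_left]
  intro f hf hf'
  rw [mem_RO] at hf
  rw [Finset.mem_coe, mem_FB] at hf'
  omega

theorem RI_sub_FB : RI v ⊆ (FB v.s v.u : Set (ℤ × ℤ)) := fun _ hf => hf.1

theorem tipI_mu : TipI v (muI (FB v.s v.u) ω) p ↔ TipI v ω (-p) := by
  have hI := msym_FB v.s v.u
  unfold TipI
  rw [crs_mu hI hv.inner]
  refine and_congr (by omega) ?_
  constructor
  · rintro ⟨e, ⟨e, he, rfl⟩, hf⟩
    rw [MM_mu hI (RI_sub_FB hv) (msym_RI v), mem_image_mS, mS_false] at hf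
    exact ⟨e, he, hf⟩
  · rintro ⟨e, he, hf⟩
    refine ⟨mS e, ⟨e, he, rfl⟩, ?_⟩
    rw [MM_mu hI (RI_sub_FB hv) (msym_RI v), mem_image_mS, mS_false]
    exact hf

theorem tipO_mu : TipO v (muI (FB v.s v.u) ω) p ↔ TipO v ω p := by
  unfold TipO
  rw [crsO_mu_off hv.ring]
  simp only [MM_muI_off hv.outer]

theorem gd_mu : muI (FB v.s v.u) ω ∈ Gd v ↔ ω ∈ Gd v := by
  unfold Gd
  rw [Set.mem_ofPred_eq, Set.mem_ofPred_eq, nH_mu (msym_FB v.s v.u) hv.inner, nH_mu_off hv.ring]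
  refine and_congr Iff.rfl (and_congr Iff.rfl ?_)
  constructor
  · rintro ⟨p, p', h1, h2, h3, h4, h5⟩
    rw [tipI_mu hv] at h1
    rw [tipO_mu hv] at h2
    refine ⟨-p, p', h1, h2, ?_, h4, by omega⟩
    rwa [mul_neg, abs_neg]
  · rintro ⟨p, p', h1, h2, h3, h4, h5⟩
    refine ⟨-p, p', ?_, ?_, ?_, h4, by omega⟩
    · rw [tipI_mu hv, neg_neg]
      exact h1
    · rw [tipO_mu hv]
      exact h2
    · rwa [mul_neg, abs_neg]

/-- the explored faces of the mirrored configuration -/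
theorem mem_EE_mu (f : ℤ × ℤ) : f ∈ EE v (muI (FB v.s v.u) ω) ↔ f ∈ HB v.b ∨ f ∉ HB v.a' ∨
    (∃ e ∈ Crs ω v.a v.b, SixB.mF f ∈ SS ω (RI v) e) ∨ ∃ t ∈ CrsO ω v.a' v.b', f ∈ SS ω (RO v) t := by
  have hI := msym_FB v.s v.u
  unfold EE
  rw [Set.mem_ofPred_eq, crs_mu hI hv.inner, crsO_mu_off hv.ring]
  refine or_congr Iff.rfl (or_congr Iff.rfl (or_congr ?_ ?_))
  · constructor
    · rintro ⟨e, ⟨e, he, rfl⟩, hf⟩
      rw [SS_mu hI (RI_sub_FB hv) (msym_RI v), mem_image_mF] at hf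
      exact ⟨e, he, hf⟩
    · rintro ⟨e, he, hf⟩
      refine ⟨mS e, ⟨e, he, rfl⟩, ?_⟩
      rw [SS_mu hI (RI_sub_FB hv) (msym_RI v), mem_image_mF]
      exact hf
  · simp only [SS_muI_off hv.outer]

theorem EE_inner (hf : f ∈ HB v.b) : f ∈ EE v ω := Or.inl hf

theorem EE_outer (hf : f ∉ HB v.a') : f ∈ EE v ω := Or.inr (Or.inl hf)

/-- agreement on the explored faces is transported by the mirror -/
theorem agree_mu (hω : ∀ f ∈ EE v ω, ω f = ω' f) :
    ∀ f ∈ EE v (muI (FB v.s v.u) ω), muI (FB v.s v.u) ω f = muI (FB v.s v.u) ω' f := by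
  have h1 := hv.ha
  have h2 := hv.hb
  have h3 := hv.hu
  have h4 := hv.hs
  have h5 := hv.hq
  have h6 := hv.ha'
  intro f hf
  rw [mem_EE_mu hv] at hf
  apply muI_agree hω
  · intro hfI
    rcases hf with hf | hf | hf | hf
    · exact Or.inl ((msym_HB v.b) f hf)
    · exfalso
      apply hf
      rw [Finset.mem_coe, mem_FB] at hfI
      rw [mem_HB]
      omega
    · exact Or.inr (Or.inr (Or.inl hf))
    · exfalso
      obtain ⟨t, -, hf⟩ := hf
      exact Set.disjoint_left.mp hv.outer hf.1 hfI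
  · intro hfI
    rcases hf with hf | hf | hf | hf
    · exact Or.inl hf
    · exact Or.inr (Or.inl hf)
    · exfalso
      obtain ⟨e, -, hf⟩ := hf
      exact hfI ((msym_FB v.s v.u).iff.mp hf.1.1)
    · exact Or.inr (Or.inr (Or.inr hf))

/-- **Row T4.** -/
theorem mir_lev : (∀ ω, muC (FB v.s v.u) ω ∈ Gd v ↔ ω ∈ Gd v) ∧
    ∀ (W : Finset (ℤ × ℤ)) (g : Cfg → ℝ), FB v.s v.u ⊆ W →
      exr W (fun ω => g (muC (FB v.s v.u) ω)) = exr W g := by
  refine ⟨fun ω => ?_, fun W g hW => ?_⟩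
  · rw [muC_eq]
    exact gd_mu hv
  · simp only [muC_eq]
    exact exr_muI (msym_FB v.s v.u) (by exact_mod_cast hW) g

/-- the oddness hypothesis of the abstract theorem -/
theorem odd_lev {G : Cfg → ℝ} {r R : ℤ} (hG : Anti G r R) (hr : r ≤ v.a) (hR : v.b' ≤ R)
    (hgd : ω ∈ Gd v) (hgl : ω ∈ Gl v) (hgl' : ω' ∈ Gl v)
    (hω : ∀ f ∈ EE v (muI (FB v.s v.u) ω), muI (FB v.s v.u) ω f = ω' f) : G ω' = -G ω := by
  have h1 := hv.ha
  have h2 := hv.hb
  have h3 := hv.hu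
  have h4 := hv.hs
  have h5 := hv.hq
  have h6 := hv.ha'
  have h7 := hv.hb'
  refine hG v.a v.b v.a' v.b' hr (by omega) (by omega) (by omega) hR ω ω' ?_ ?_ hgd.1 hgd.2.1
    hgl hgl'
  · intro f hf
    rw [← hω f (EE_outer hv hf), muI_notMem]
    intro hf'
    apply hf
    rw [Finset.mem_coe, mem_FB] at hf'
    rw [mem_HB]
    omega
  · intro f hf
    rw [← hω f (EE_inner hv hf), muI_mem]
    · rfl
    · rw [mem_HB] at hf
      rw [Finset.mem_coe, mem_FB]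
      omega

end Level

theorem mir : Mir := fun _ hv => mir_lev hv

end Pool.Agent.SixB.Leg
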