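import Mathlib

/-!
# 6BD step 4: from the number of levels to a power (pure analysis)
-/

set_option autoImplicit false

namespace Pool.Agent.SixB

/-- a geometric factor per level is a power of the ratio of the scales -/
theorem level_pow {lam L : ℝ} (h0 : 0 < lam) (h1 : lam < 1) (hL : 1 < L) (s : ℕ) :
    ∃ C γ : ℝ, 0 < C ∧ 0 < γ ∧ ∀ (K : ℕ) (x : ℝ), 0 < x → x ≤ 1 → 1 ≤ x * L ^ (K + s) →
      lam ^ K ≤ C * x ^ γ := by
  have hL0 : 0 < L := by linarith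
  have hlL : 0 < Real.log L := Real.log_pos hL
  have hll : Real.log lam < 0 := Real.log_neg h0 h1
  refine ⟨(lam ^ s)⁻¹, -Real.log lam / Real.log L, by positivity, div_pos (by linarith) hlL, ?_⟩
  intro K x hx _ hxK
  have h2 : 0 ≤ Real.log x + (K + s : ℕ) * Real.log L := by
    have := Real.log_nonneg hxK
    rwa [Real.log_mul hx.ne' (by positivity), Real.log_pow] at this
  have h3 : lam ^ (K + s) ≤ x ^ (-Real.log lam / Real.log L) := by
    rw [← Real.log_le_log_iff (by positivity) (Real.rpow_pos_of_pos hx _), Real.log_pow,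
      Real.log_rpow hx, div_mul_eq_mul_div, le_div_iff₀ hlL]
    nlinarith
  have h4 : lam ^ K = (lam ^ s)⁻¹ * lam ^ (K + s) := by
    rw [pow_add]
    field_simp
  rw [h4]
  exact mul_le_mul_of_nonneg_left h3 (by positivity)

/-- the two terms of the one leg theorem -/
theorem level_sum {c δ L : ℝ} (hc : 0 < c) (hc1 : c < 1) (hδ : 0 < δ) (hδ1 : δ < 1 / 4) (hL : 1 < L)
    (s : ℕ) : ∃ C γ : ℝ, 0 < C ∧ 0 < γ ∧ ∀ (K : ℕ) (x : ℝ), 0 < x → x ≤ 1 → 1 ≤ x * L ^ (K + s) →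
      (1 - c) ^ (K / 2) + 2 ^ K * δ ^ (K / 2) ≤ C * x ^ γ := by
  have ha : 0 < 1 - c := by linarith
  have ha1 : 1 - c < 1 := by linarith
  -- square roots
  obtain ⟨C1, γ1, hC1, hγ1, h1⟩ := level_pow (lam := Real.sqrt (1 - c)) (Real.sqrt_pos.mpr ha)
    (by rw [Real.sqrt_lt' one_pos]; linarith) hL s
  obtain ⟨C2, γ2, hC2, hγ2, h2⟩ := level_pow (lam := 2 * Real.sqrt δ) (by positivity)
    (by
      have : Real.sqrt δ < 1 / 2 := by
        rw [Real.sqrt_lt' (by norm_num)]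
        linarith
      linarith) hL s
  have key : ∀ (a : ℝ) (_ : 0 < a) (_ : a < 1) (K : ℕ), a ^ (K / 2) ≤ (Real.sqrt a)⁻¹ * Real.sqrt a ^ K := by
    intro a ha0 ha1 K
    have hs : 0 < Real.sqrt a := Real.sqrt_pos.mpr ha0
    have hs1 : Real.sqrt a ≤ 1 := by rw [Real.sqrt_le_left (by norm_num)]; linarith
    have e : a ^ (K / 2) = Real.sqrt a ^ (2 * (K / 2)) := by
      rw [pow_mul, Real.sq_sqrt ha0.le]
    rw [e]
    have h5 : Real.sqrt a * Real.sqrt a ^ (2 * (K / 2)) ≤ Real.sqrt a ^ K := by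
      rw [← pow_succ']
      exact pow_le_pow_of_le_one hs.le hs1 (by omega)
    rw [← mul_le_mul_iff_right₀ hs]
    calc Real.sqrt a * Real.sqrt a ^ (2 * (K / 2)) ≤ Real.sqrt a ^ K := h5
      _ = Real.sqrt a * ((Real.sqrt a)⁻¹ * Real.sqrt a ^ K) := by field_simp
  refine ⟨(Real.sqrt (1 - c))⁻¹ * C1 + (Real.sqrt δ)⁻¹ * C2, min γ1 γ2, by positivity,
    lt_min hγ1 hγ2, ?_⟩
  intro K x hx hx1 hxK
  have h6 := h1 K x hx hx1 hxK
  have h7 := h2 K x hx hx1 hxK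
  have hm1 : x ^ γ1 ≤ x ^ min γ1 γ2 := Real.rpow_le_rpow_of_exponent_ge hx hx1 (min_le_left _ _)
  have hm2 : x ^ γ2 ≤ x ^ min γ1 γ2 := Real.rpow_le_rpow_of_exponent_ge hx hx1 (min_le_right _ _)
  have h8 : (1 - c) ^ (K / 2) ≤ (Real.sqrt (1 - c))⁻¹ * (C1 * x ^ min γ1 γ2) := by
    refine (key _ ha ha1 K).trans (mul_le_mul_of_nonneg_left ?_ (by positivity))
    exact h6.trans (mul_le_mul_of_nonneg_left hm1 hC1.le)
  have h9 : 2 ^ K * δ ^ (K / 2) ≤ (Real.sqrt δ)⁻¹ * (C2 * x ^ min γ1 γ2) := by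
    have h10 := key δ hδ (by linarith) K
    have h11 : 2 ^ K * δ ^ (K / 2) ≤ (Real.sqrt δ)⁻¹ * (2 * Real.sqrt δ) ^ K := by
      calc 2 ^ K * δ ^ (K / 2) ≤ 2 ^ K * ((Real.sqrt δ)⁻¹ * Real.sqrt δ ^ K) :=
            mul_le_mul_of_nonneg_left h10 (by positivity)
        _ = (Real.sqrt δ)⁻¹ * (2 * Real.sqrt δ) ^ K := by rw [mul_pow]; ring
    refine h11.trans (mul_le_mul_of_nonneg_left ?_ (by positivity))
    exact h7.trans (mul_le_mul_of_nonneg_left hm2 hC2.le)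
  calc (1 - c) ^ (K / 2) + 2 ^ K * δ ^ (K / 2)
      ≤ (Real.sqrt (1 - c))⁻¹ * (C1 * x ^ min γ1 γ2) + (Real.sqrt δ)⁻¹ * (C2 * x ^ min γ1 γ2) :=
        add_le_add h8 h9
    _ = _ := by ring

end Pool.Agent.SixB
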