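import Pool.Agent.Lib.SixB.S4Alg
import Pool.Agent.Lib.SixB.S4LegMir
import Pool.Agent.Lib.SixB.S4Num

/-!
# 6BD step 4: one leg oddness, assembly (row T10)

`one_leg_of`: the rows Mono, Det, Mes, Glue, BadDet, BadPr, LegPr, ProdPr of S4LegDefs (and Mir, proved in
S4LegMir) and the theorem of the normalised weights (S4Alg) give `OneLegThm`.
-/

set_option autoImplicit false

namespace Pool.Agent.SixB.Leg

open Finset Pool.Agent.Perc Pool.Agent.PercT

variable {ω ω' : Cfg} {a b r R : ℤ} {W : Finset (ℤ × ℤ)}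

/-! ## Dependence -/

theorem crs_congr (h : ∀ f ∈ HR a b, ω f = ω' f) : Crs ω a b = Crs ω' a b := by
  unfold Crs
  have h1 : ∀ e, MM ω' (HR a b) e = MM ω (HR a b) e := fun e => PercD.MM_congr' h
  simp only [h1]

theorem nH_depF (a b : ℤ) : DepF (HR a b) (fun ω => nH ω a b) := by
  intro ω ω' h
  beta_reduce
  unfold nH
  rw [crs_congr h]

theorem lg_depF (a b : ℤ) : DepF (HR a b) (fun ω => ω ∈ Lg a b) := by
  intro ω ω' h
  have h1 : nH ω a b = nH ω' a b := nH_depF a b ω ω' h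
  unfold Lg
  beta_reduce
  rw [Set.mem_ofPred_eq, Set.mem_ofPred_eq, h1]

theorem HR_subset {a b a' b' : ℤ} (h : a' ≤ a) (h' : b ≤ b') : HR a b ⊆ HR a' b' := by
  intro f hf
  rw [mem_HR] at hf ⊢
  omega

theorem HR_disjoint {a b a' b' : ℤ} (h : b ≤ a') : Disjoint (HR a b) (HR a' b') := by
  rw [Set.disjoint_left]
  intro f hf hf'
  rw [mem_HR] at hf hf'
  omega

theorem HR_notMem {f : ℤ × ℤ} {c : ℤ} (h : c ≤ a) (hf : f ∈ HR a b) : f ∉ HB c := by
  rw [mem_HR] at hf
  rw [mem_HB]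
  omega

theorem HR_mem {f : ℤ × ℤ} {c : ℤ} (h : b ≤ c) (hf : f ∈ HR a b) : f ∈ HB c := by
  rw [mem_HR] at hf
  rw [mem_HB]
  omega

/-! ## The levels -/

theorem bas_one_le {M Lam Q : ℤ} (hP : Par M Lam Q) {a : ℤ} (ha : 1 ≤ a) (k : ℕ) : 1 ≤ bas M Q a k := by
  have hM := hP.hM
  have hL := hP.hL
  have hQ := hP.hQ
  unfold bas
  have h1 : 1 ≤ 8 * Q * M := by nlinarith
  have h2 : 1 ≤ (8 * Q * M) ^ k := one_le_pow₀ h1
  nlinarith

theorem bas_mono {M Lam Q : ℤ} (hP : Par M Lam Q) {a : ℤ} (ha : 1 ≤ a) {j k : ℕ} (h : j ≤ k) :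
    bas M Q a j ≤ bas M Q a k := by
  have hM := hP.hM
  have hL := hP.hL
  have hQ := hP.hQ
  unfold bas
  have h1 : 1 ≤ 8 * Q * M := by nlinarith
  exact mul_le_mul_of_nonneg_right (pow_le_pow_right₀ h1 h) (by omega)

theorem bas_zero (M Q a : ℤ) : bas M Q a 0 = a := by
  unfold bas
  rw [pow_zero, one_mul]

section Params

/-- the choice of the ratios -/
theorem exists_par {C c η : ℝ} (hC : 0 < C) (hc : 0 < c) (hη : 0 < η) :
    ∃ M Lam Q : ℤ, Par M Lam Q ∧ C * (1 / M + Lam * Real.exp (-c * Lam) + 1 / Q) ≤ η := by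
  set X : ℝ := 3 * C / η with hX
  set Y : ℝ := 6 * C / (c ^ 2 * η) with hY
  have hX0 : 0 < X := by positivity
  have hY0 : 0 < Y := by positivity
  set M : ℤ := max 8 ⌈X⌉ with hM
  set L : ℤ := max 8 ⌈Y⌉ with hL
  set Q : ℤ := max (64 * L) ⌈X⌉ with hQ
  have hM8 : 8 ≤ M := le_max_left _ _
  have hL8 : 8 ≤ L := le_max_left _ _
  have hQ8 : 64 * L ≤ Q := le_max_left _ _
  have hMX : X ≤ M := by
    have h1 : ⌈X⌉ ≤ M := le_max_right _ _
    exact (Int.le_ceil X).trans (by exact_mod_cast h1)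
  have hLY : Y ≤ L := by
    have h1 : ⌈Y⌉ ≤ L := le_max_right _ _
    exact (Int.le_ceil Y).trans (by exact_mod_cast h1)
  have hQX : X ≤ Q := by
    have h1 : ⌈X⌉ ≤ Q := le_max_right _ _
    exact (Int.le_ceil X).trans (by exact_mod_cast h1)
  refine ⟨M, L, Q, ⟨hM8, hL8, hQ8⟩, ?_⟩
  have hM0 : (0 : ℝ) < M := by
    have : (8 : ℝ) ≤ M := by exact_mod_cast hM8
    linarith
  have hL0 : (0 : ℝ) < L := by
    have : (8 : ℝ) ≤ L := by exact_mod_cast hL8
    linarith
  have hQ0 : (0 : ℝ) < Q := lt_of_lt_of_le hX0 hQX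
  have e1 : C * (1 / M) ≤ η / 3 := by
    rw [mul_one_div, div_le_iff₀ hM0]
    have : η / 3 * X = C := by rw [hX]; field_simp
    nlinarith
  have e2 : C * (1 / Q) ≤ η / 3 := by
    rw [mul_one_div, div_le_iff₀ hQ0]
    have : η / 3 * X = C := by rw [hX]; field_simp
    nlinarith
  have e3 : C * (L * Real.exp (-c * L)) ≤ η / 3 := by
    have h1 : (c * L) ^ 2 / 2 ≤ Real.exp (c * L) := by
      have := Real.quadratic_le_exp_of_nonneg (x := c * L) (by positivity)
      have h2 : 0 < c * L := by positivity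
      linarith
    have h2 : Real.exp (-c * L) = (Real.exp (c * L))⁻¹ := by
      rw [← Real.exp_neg]
      congr 1
      ring
    have h3 : (L : ℝ) * Real.exp (-c * L) ≤ 2 / (c ^ 2 * L) := by
      rw [h2, ← div_eq_mul_inv, div_le_div_iff₀ (Real.exp_pos _) (by positivity)]
      nlinarith
    have h4 : C * (2 / (c ^ 2 * L)) ≤ η / 3 := by
      rw [← mul_div_assoc, div_le_iff₀ (by positivity)]
      have h5 : η / 3 * (c ^ 2 * Y) = C * 2 := by
        rw [hY]
        field_simp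
        ring
      have h6 : η / 3 * (c ^ 2 * Y) ≤ η / 3 * (c ^ 2 * L) := by
        refine mul_le_mul_of_nonneg_left ?_ (by positivity)
        exact mul_le_mul_of_nonneg_left hLY (by positivity)
      linarith
    exact (mul_le_mul_of_nonneg_left h3 hC.le).trans h4
  have : C * (1 / M + L * Real.exp (-c * L) + 1 / Q) =
      C * (1 / M) + C * (L * Real.exp (-c * L)) + C * (1 / Q) := by ring
  rw [this]
  linarith

end Params

/-- the number of levels -/
theorem exists_levels {M Lam Q : ℤ} (hP : Par M Lam Q) (ha : 1 ≤ a) (h0 : M * a ≤ R) :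
    ∃ K : ℕ, M * bas M Q a K ≤ R ∧ R < M * bas M Q a (K + 1) := by
  have hM := hP.hM
  have hL := hP.hL
  have hQ := hP.hQ
  have hex : ∃ k : ℕ, R < M * bas M Q a k := by
    refine ⟨R.toNat, ?_⟩
    unfold bas
    have h1 : (2 : ℤ) ≤ 8 * Q * M := by nlinarith
    have h2 : (2 : ℤ) ^ R.toNat ≤ (8 * Q * M) ^ R.toNat := pow_le_pow_left₀ (by norm_num) h1 _
    have h3 : ((R.toNat : ℕ) : ℤ) < 2 ^ R.toNat := by exact_mod_cast Nat.lt_two_pow_self
    have h4 : R ≤ (R.toNat : ℤ) := Int.self_le_toNat R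
    have h5 : 0 < (8 * Q * M) ^ R.toNat := by positivity
    nlinarith [mul_nonneg (show (0 : ℤ) ≤ M - 1 by omega)
      (mul_nonneg h5.le (show (0 : ℤ) ≤ a by omega)), mul_nonneg h5.le (show (0 : ℤ) ≤ a - 1 by omega)]
  classical
  set n := Nat.find hex with hn
  have hspec := Nat.find_spec hex
  have hne : n ≠ 0 := by
    intro h
    rw [← hn, h, bas_zero] at hspec
    omega
  obtain ⟨K, hK⟩ := Nat.exists_eq_succ_of_ne_zero hne
  refine ⟨K, ?_, ?_⟩
  · have := Nat.find_min hex (m := K) (by omega)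
    omega
  · rw [← hn, hK] at hspec
    exact hspec

/-! ## The weights of one chain of levels -/

theorem indicator_glp (W : Finset (ℤ × ℤ)) (S : Cfg → Set (ℤ × ℤ)) (Gl : Set Cfg) :
    ce W S (Gl.indicator fun _ => (1 : ℝ)) = glp W S Gl := by
  classical
  funext ω
  unfold glp ce
  congr 1

open Classical in
theorem chain_le (hDet : Det) (hMes : Mes) {M Lam Q : ℤ} (hP : Par M Lam Q) {c : ℝ} (hc : 0 < c)
    (hc1 : c ≤ 1)
    (hg : ∀ (a : ℤ) (W : Finset (ℤ × ℤ)), 1 ≤ a → HB (lev M Lam Q a).b' ⊆ W →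
      ∀ ω ∈ Gd (lev M Lam Q a),
        c ≤ ce W (EE (lev M Lam Q a)) ((Gl (lev M Lam Q a)).indicator fun _ => (1 : ℝ)) ω)
    {G g : Cfg → ℝ} {K : ℕ} (hr : 1 ≤ r) (hra : r ≤ a) (hK : M * bas M Q a K ≤ R) (hW : HB R ⊆ W)
    (hg0 : ∀ ω, 0 ≤ g ω) (hGg : ∀ ω, |G ω| ≤ g ω * (nH ω r R : ℝ)) (hgD : DepF {f | f ∉ HB R} g)
    (hA : Anti G r R) :
    |exr W G| ≤ exr W (fun ω => g ω * (nH ω r R : ℝ) *
      ∏ k ∈ range K, (1 - if ω ∈ Gd (lev M Lam Q (bas M Q a k)) then c else 0)) := by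
  have ha : 1 ≤ a := hr.trans hra
  have hM := hP.hM
  set v : ℕ → Lev := fun k => lev M Lam Q (bas M Q a k) with hv
  have hok : ∀ k, (v k).Ok := fun k => hP.ok (bas_one_le hP ha k)
  have hva : ∀ k, (v k).a = bas M Q a k := fun k => rfl
  have hvb : ∀ k, (v k).b = M * bas M Q a k := fun k => rfl
  have hva' : ∀ k, (v k).a' = bas M Q a (k + 1) := fun k => (bas_succ M Lam Q a k).symm
  have hvb' : ∀ k, (v k).b' = M * bas M Q a (k + 1) := by
    intro k
    rw [bas_succ M Lam Q a k]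
    rfl
  have hbase : ∀ k, a ≤ (v k).a := by
    intro k
    rw [hva, ← bas_zero M Q a]
    simpa [bas_zero] using bas_mono hP ha (Nat.zero_le k)
  have hlt : ∀ j k, j < k → (v j).b' ≤ (v k).b := by
    intro j k hjk
    rw [hvb', hvb]
    exact mul_le_mul_of_nonneg_left (bas_mono hP ha hjk) (by omega)
  have hlt' : ∀ j k, k < j → (v k).a' ≤ (v j).a := by
    intro j k hjk
    rw [hva', hva]
    exact bas_mono hP ha hjk
  have hbR : ∀ k < K, (v k).b' ≤ R := by
    intro k hk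
    rw [hvb']
    exact (mul_le_mul_of_nonneg_left (bas_mono hP ha hk) (by omega)).trans hK
  have hsub : ∀ k < K, ∀ j < K, j ≠ k → ∀ ω, HR (v j).a (v j).b' ⊆ EE (v k) ω := by
    intro k _ j _ hjk ω f hf
    rcases lt_or_gt_of_ne hjk with h | h
    · exact Or.inl (HR_mem (hlt j k h) hf)
    · exact Or.inr (Or.inl (HR_notMem (hlt' j k h) hf))
  have hhw : ∀ j, DepF (HR (v j).a (v j).b') (hw W (EE (v j)) (Gl (v j)) (Gd (v j)) c) := by
    intro j ω ω' h
    have h1 := depF_iff.2 (hMes (v j) (hok j)).2.2.1 ω ω' h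
    have h2 := depF_iff.2 (hMes (v j) (hok j)).2.2.2.1 ω ω' h
    have h3 := (hMes (v j) (hok j)).2.2.2.2 W
    rw [indicator_glp] at h3
    unfold hw
    beta_reduce at h1 h2
    simp only [h1, h2, h3 ω ω' h]
  refine abs_exr_le_weights (S := fun k => EE (v k)) (Gl := fun k => Gl (v k))
    (Gd := fun k => Gd (v k)) (M := fun ω => g ω * (nH ω r R : ℝ))
    (n := fun k ω => g ω * (if 1 ≤ nH ω r (v k).b ∧ 1 ≤ nH ω (v k).a' R then 1 else 0))
    (μ := fun k => muI (FB (v k).s (v k).u)) ?_ hc hc1 ?_ ?_ ?_ hGg ?_ ?_ ?_ ?_ ?_ ?_ ?_ ?_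
  · exact fun k _ => (hMes (v k) (hok k)).1
  · intro k hk j hj
    by_cases hjk : j = k
    · subst hjk
      exact (hMes (v j) (hok j)).2.1
    · exact msb_of_depOn (hMes (v j) (hok j)).2.2.1 (hsub k hk j hj hjk)
  · intro k hk j hj hjk
    exact msb_of_depF (hhw j) (hsub k hk j hj hjk)
  · intro k hk ω hω
    have h1 := hg (bas M Q a k) W (bas_one_le hP ha k) ((HB_mono (hbR k hk)).trans hW) ω hω
    rwa [indicator_glp] at h1
  · -- n is a function of the explored faces
    intro k hk ω ω' h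
    have h1 : g ω' = g ω := by
      refine (hgD ω ω' fun f hf => h f (Or.inr (Or.inl fun h' => hf ?_))).symm
      have h2 : (v k).a' ≤ R := by
        have := hbR k hk
        have := (hok k).hb'
        have := (hok k).ha'
        have := (hok k).hq
        have := (hok k).hs
        have := (hok k).hu
        have := (hok k).hb
        have := (hok k).ha
        omega
      exact HB_mono h2 h'
    have h2 : nH ω' r (v k).b = nH ω r (v k).b :=
      (nH_depF r (v k).b ω ω' fun f hf => h f (Or.inl (HR_mem le_rfl hf))).symm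
    have h3 : nH ω' (v k).a' R = nH ω (v k).a' R :=
      (nH_depF (v k).a' R ω ω' fun f hf => h f (Or.inr (Or.inl (HR_notMem le_rfl hf)))).symm
    simp only [h1, h2, h3]
  · intro k _ ω
    refine mul_nonneg (hg0 ω) ?_
    split_ifs
    · exact zero_le_one
    · exact le_rfl
  · intro k hk ω hω
    have hra' : r ≤ (v k).a := hra.trans (hbase k)
    have h7 := (hok k).hb
    have h8 := (hok k).ha
    have h9 := (hok k).hu
    have h10 := (hok k).hs
    have h11 := (hok k).hq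
    have h12 := (hok k).ha'
    have h13 := (hok k).hb'
    obtain ⟨h1, h2⟩ := hDet ω r (v k).a (v k).b (v k).a' (v k).b' R hr hra' (by omega) (by omega)
      (by omega) (hbR k hk) hω.1 hω.2.1
    by_cases h3 : 1 ≤ nH ω r R
    · obtain ⟨h4, h5, h6⟩ := h2.1 h3
      have h14 : nH ω r R = 1 := le_antisymm h1 h3
      have h15 : ω ∈ Gl (v k) := h4
      rw [if_pos h15, if_pos ⟨h5, h6⟩, h14]
      norm_num
    · have h14 : nH ω r R = 0 := by omega
      rw [h14]
      by_cases h15 : ω ∈ Gl (v k)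
      · rw [if_pos h15, if_neg]
        · norm_num
        · rintro ⟨h5, h6⟩
          exact h3 (h2.2 ⟨h15, h5, h6⟩)
      · rw [if_neg h15]
        norm_num
  · intro k hk g'
    refine exr_muI (msym_FB _ _) ?_ g'
    intro f hf
    apply hW
    rw [Finset.mem_coe, mem_FB] at hf
    rw [mem_HB]
    have h7 := (hok k).hb
    have h8 := (hok k).ha
    have h9 := (hok k).hu
    have h10 := (hok k).hs
    have h11 := (hok k).hq
    have h12 := (hok k).ha'
    have h13 := (hok k).hb'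
    have h14 := hbR k hk
    omega
  · exact fun k _ ω => gd_mu (hok k)
  · exact fun k _ ω ω' h => agree_mu (hok k) h
  · intro k _ j _ hjk ω
    refine hhw j _ _ fun f hf => ?_
    refine muI_notMem fun hf' => ?_
    have h15 := HR_notMem (hlt' j k hjk) hf
    apply h15
    rw [Finset.mem_coe, mem_FB] at hf'
    rw [mem_HB]
    have h7 := (hok k).hb
    have h8 := (hok k).ha
    have h9 := (hok k).hu
    have h10 := (hok k).hs
    have h11 := (hok k).hq
    have h12 := (hok k).ha'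
    omega
  · intro k hk ω ω' h1 h2 h3 h4
    exact odd_lev (hok k) hA (hra.trans (hbase k)) (hbR k hk) h1 h2 h3 h4

/-! ## The bounds -/

/-- mean of `g * nH` restricted to an event of the outer ring -/
theorem exr_split (hMono : Mono) {g : Cfg → ℝ} {X : Set Cfg} (hr : 1 ≤ r) (hR : 4 * r < R)
    (hg0 : ∀ ω, 0 ≤ g ω) (hgD : DepF {f | f ∉ HB R} g) (hX : DepF (HR (4 * r) R) fun ω => ω ∈ X)
    {y : Cfg → ℝ} (hy0 : ∀ ω, 0 ≤ y ω) (hy1 : ∀ ω, y ω ≤ 1) (hy : ∀ ω, ω ∉ X → y ω = 0) :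
    exr W (fun ω => g ω * (nH ω r R : ℝ) * y ω) ≤
      exr W g * (exr W (fun ω => (nH ω r (4 * r) : ℝ)) * pr W (Lg (4 * r) R ∩ X)) := by
  classical
  obtain ⟨A, hA⟩ : ∃ A : Set Cfg, A = Lg (4 * r) R ∩ X := ⟨_, rfl⟩
  rw [← hA]
  have h1 : ∀ ω, g ω * (nH ω r R : ℝ) * y ω ≤
      g ω * ((nH ω r (4 * r) : ℝ) * (if ω ∈ A then 1 else 0)) := by
    intro ω
    rw [mul_assoc]
    refine mul_le_mul_of_nonneg_left ?_ (hg0 ω)
    by_cases h2 : 1 ≤ nH ω r R
    · obtain ⟨h3, -⟩ := hMono ω r r (4 * r) R hr le_rfl (by omega) hR.le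
      obtain ⟨-, h4⟩ := hMono ω r (4 * r) R R hr (by omega) hR le_rfl
      have h5 : ω ∈ Lg (4 * r) R := h4 h2
      have h6 : (nH ω r R : ℝ) ≤ nH ω r (4 * r) := by exact_mod_cast h3
      by_cases h7 : ω ∈ X
      · rw [if_pos (hA ▸ ⟨h5, h7⟩ : ω ∈ A)]
        exact mul_le_mul h6 (hy1 ω) (hy0 ω) (Nat.cast_nonneg _)
      · rw [hy ω h7, mul_zero]
        refine mul_nonneg (Nat.cast_nonneg _) ?_
        split_ifs
        · exact zero_le_one
        · exact le_rfl
    · have h3 : nH ω r R = 0 := by omega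
      rw [h3, Nat.cast_zero, zero_mul]
      refine mul_nonneg (Nat.cast_nonneg _) ?_
      split_ifs
      · exact zero_le_one
      · exact le_rfl
  refine (exr_mono (g' := fun ω => g ω * ((nH ω r (4 * r) : ℝ) *
    (if ω ∈ A then 1 else 0))) fun T _ => h1 (cfg T)).trans (le_of_eq ?_)
  have hL : DepF (HR (4 * r) R) fun ω => (if ω ∈ A then (1 : ℝ) else 0) := by
    intro ω ω' h
    have h2 := lg_depF (4 * r) R ω ω' h
    have h3 := hX ω ω' h
    beta_reduce at h2 h3 ⊢
    have h4 : (ω ∈ A) = (ω' ∈ A) := by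
      rw [hA, Set.mem_inter_iff, Set.mem_inter_iff, h2, h3]
    simp only [h4]
  have hN : DepF (HR r (4 * r)) fun ω => (nH ω r (4 * r) : ℝ) := fun ω ω' h => by
    have := nH_depF r (4 * r) ω ω' h
    beta_reduce at this ⊢
    rw [this]
  rw [exr_mul_of_disjoint hgD (DepF.mul hN hL), exr_mul_of_disjoint hN hL, exr_ind]
  · exact HR_disjoint le_rfl
  · rw [Set.disjoint_left]
    intro f hf hf'
    rcases hf' with hf' | hf'
    · exact hf (HR_mem (by omega) hf')
    · exact hf (HR_mem le_rfl hf')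

/-- **One leg oddness from the rows.** -/
theorem one_leg_of (hMono : Mono) (hDet : Det) (hMes : Mes) (hGlue : Glue) (hBadDet : BadDet)
    (hBadPr : BadPr) (hLegPr : LegPr) (hProdPr : ProdPr) : OneLegThm := by
  classical
  obtain ⟨Cb, cb, hCb, hcb, hBad⟩ := hBadPr
  obtain ⟨Cl, hCl, hLeg⟩ := hLegPr
  obtain ⟨Cp, hCp, hProd⟩ := hProdPr
  -- the ratios
  obtain ⟨M, Lam, Q, hP, hη⟩ := exists_par (C := Cb) (c := cb) (η := 1 / (256 * Cp)) hCb hcb
    (by positivity)
  have hM := hP.hM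
  have hLm := hP.hL
  have hQm := hP.hQ
  obtain ⟨c0, hc0, hgl⟩ := hGlue M Lam Q hP
  set c : ℝ := min c0 (1 / 2) with hcdef
  have hc : 0 < c := lt_min hc0 (by norm_num)
  have hc1 : c < 1 := lt_of_le_of_lt (min_le_right _ _) (by norm_num)
  -- bad levels
  set δ : ℝ := 1 / (256 * Cp) with hδ
  have hδ0 : 0 < δ := by positivity
  have hCδ : Cp * δ = 1 / 256 := by
    rw [hδ]
    field_simp
  have hδP : ∀ (a : ℤ) (W : Finset (ℤ × ℤ)), 1 ≤ a → HB (lev M Lam Q a).b' ⊆ W →
      pr W (Gl (lev M Lam Q a) \ Gd (lev M Lam Q a)) ≤ δ * ((a : ℝ) / (lev M Lam Q a).b') := by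
    intro a W ha hW
    have h1 := hBad M Lam Q hP a W ha hW
    have h2 := pr_mono W (hBadDet (lev M Lam Q a) (hP.ok ha))
    refine h2.trans (h1.trans (mul_le_mul_of_nonneg_right hη ?_))
    have h3 : 0 < (lev M Lam Q a).b' := by
      have := (hP.ok (a := a) ha)
      have h4 := this.ha
      have h5 := this.hb
      have h6 := this.hu
      have h7 := this.hs
      have h8 := this.hq
      have h9 := this.ha'
      have h10 := this.hb'
      omega
    have h4 : (0 : ℝ) < (lev M Lam Q a).b' := by exact_mod_cast h3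
    have h5 : (0 : ℝ) < a := by exact_mod_cast (by omega : 0 < a)
    positivity
  -- powers
  set L : ℝ := 8 * Q * M with hL
  have hMr : (8 : ℝ) ≤ M := by exact_mod_cast hM
  have hQr : (512 : ℝ) ≤ Q := by
    have : 512 ≤ Q := by omega
    exact_mod_cast this
  have hL1 : 1 < L := by rw [hL]; nlinarith
  obtain ⟨C1, γ1, hC1, hγ1, hp1⟩ := level_pow (lam := Real.sqrt (1 - c))
    (Real.sqrt_pos.mpr (by linarith)) (by rw [Real.sqrt_lt' one_pos]; linarith) hL1 2
  obtain ⟨C2, γ2, hC2, hγ2, hp2⟩ := level_pow (lam := 1 / 2) (by norm_num) (by norm_num) hL1 2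
  set γ : ℝ := min γ1 γ2 with hγ
  have hγ0 : 0 < γ := lt_min hγ1 hγ2
  refine ⟨4 * Cl * (Cl + Cp) * (C1 + 64 * C2) + Cl * (4 * M) ^ (1 + γ), γ, by positivity, hγ0, ?_⟩
  intro W G g r R hr hR hW hg0 hGg hgD hA
  have hrr : (0 : ℝ) < r := by exact_mod_cast (by omega : 0 < r)
  have hRr : (0 : ℝ) < R := by exact_mod_cast (by omega : 0 < R)
  set x : ℝ := (r : ℝ) / R with hx
  have hx0 : 0 < x := div_pos hrr hRr
  have hx1 : x ≤ 1 := by
    rw [hx, div_le_one hRr]
    exact_mod_cast (by omega : r ≤ R)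
  have hE0 : 0 ≤ exr W g := exr_nonneg fun T _ => hg0 _
  have hpow0 : 0 ≤ x ^ (1 + γ) := Real.rpow_nonneg hx0.le _
  have hn4 : exr W (fun ω => (nH ω r (4 * r) : ℝ)) ≤ Cl := by
    have h1 : HB (4 * r) ⊆ W := (HB_mono hR).trans hW
    exact (hLeg r (4 * r) W hr (by omega) h1).2 le_rfl
  have hn40 : 0 ≤ exr W (fun ω => (nH ω r (4 * r) : ℝ)) := exr_nonneg fun T _ => Nat.cast_nonneg _
  rcases lt_or_ge R (M * (4 * r)) with hsmall | hbig
  · -- few scales
    have h1 : |exr W G| ≤ exr W g * Cl := by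
      refine (abs_exr_le G).trans ?_
      have h2 : exr W (fun ω => |G ω|) ≤ exr W (fun ω => g ω * (nH ω r (4 * r) : ℝ)) := by
        refine exr_mono fun T _ => (hGg _).trans ?_
        refine mul_le_mul_of_nonneg_left ?_ (hg0 _)
        obtain ⟨h3, -⟩ := hMono (cfg T) r r (4 * r) R hr le_rfl (by omega) hR
        exact_mod_cast h3
      refine h2.trans ?_
      have hN : DepF (HR r (4 * r)) fun ω => (nH ω r (4 * r) : ℝ) := fun ω ω' h => by
        have := nH_depF r (4 * r) ω ω' h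
        beta_reduce at this ⊢
        rw [this]
      rw [exr_mul_of_disjoint hgD hN]
      · exact mul_le_mul_of_nonneg_left hn4 hE0
      · rw [Set.disjoint_left]
        intro f hf hf'
        exact hf (HR_mem (by omega) hf')
    have h2 : 1 ≤ (4 * M) ^ (1 + γ) * x ^ (1 + γ) := by
      rw [← Real.mul_rpow (by positivity) hx0.le]
      refine Real.one_le_rpow ?_ (by positivity)
      rw [hx, ← mul_div_assoc, le_div_iff₀ hRr, one_mul]
      have : R ≤ 4 * M * r := by nlinarith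
      exact_mod_cast this
    have h3 : 0 ≤ 4 * Cl * (Cl + Cp) * (C1 + 64 * C2) * x ^ (1 + γ) * exr W g := by positivity
    calc |exr W G| ≤ exr W g * Cl * 1 := by rw [mul_one]; exact h1
      _ ≤ exr W g * Cl * ((4 * M) ^ (1 + γ) * x ^ (1 + γ)) :=
          mul_le_mul_of_nonneg_left h2 (by positivity)
      _ ≤ _ := by nlinarith
  · obtain ⟨K, hK1, hK2⟩ := exists_levels (a := 4 * r) (R := R) hP (by omega) hbig
    have h4r : 4 * r < R := by nlinarith
    have hxK : 1 ≤ x * L ^ (K + 2) := by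
      rw [hx, div_mul_eq_mul_div, le_div_iff₀ hRr, one_mul]
      have h1 : (R : ℝ) ≤ M * ((8 * Q * M) ^ (K + 1) * (4 * r)) := by
        have h2 : R ≤ M * ((8 * Q * M) ^ (K + 1) * (4 * r)) := by
          have := hK2
          unfold bas at this
          omega
        exact_mod_cast h2
      refine h1.trans ?_
      rw [pow_succ L (K + 1), hL]
      have h3 : (0 : ℝ) < (8 * Q * M) ^ (K + 1) := by positivity
      have h4 : (M : ℝ) * 4 ≤ 8 * Q * M := by nlinarith
      calc (M : ℝ) * ((8 * Q * M) ^ (K + 1) * (4 * r)) = (M * 4) * ((8 * Q * M) ^ (K + 1) * r) := by ring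
        _ ≤ (8 * Q * M) * ((8 * Q * M) ^ (K + 1) * r) :=
            mul_le_mul_of_nonneg_right h4 (by positivity)
        _ = _ := by ring
    -- the main inequality
    have hmain := chain_le hDet hMes hP hc hc1.le (W := W) (G := G) (g := g) (r := r) (a := 4 * r)
      (R := R) (K := K)
      (fun a W ha hW ω hω => (min_le_left _ _).trans (hgl a W ha hW ω hω)) hr (by omega) hK1 hW hg0 hGg
      hgD hA
    have hM0 : ∀ ω, 0 ≤ g ω * (nH ω r R : ℝ) := fun ω => mul_nonneg (hg0 ω) (Nat.cast_nonneg _)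
    have hsplit := exr_prod_split (W := W) K (K / 2) hc.le hc1.le hM0
      (fun k => Gd (lev M Lam Q (bas M Q (4 * r) k)))
    have hratio : ((4 * r : ℤ) : ℝ) / R = 4 * x := by
      rw [hx]
      push_cast
      ring
    -- first term
    have t1 : exr W (fun ω => g ω * (nH ω r R : ℝ)) ≤ exr W g * (Cl * (Cl * (4 * x))) := by
      have h1 := exr_split (W := W) hMono (g := g) (X := Set.univ) hr h4r hg0 hgD
        (fun _ _ _ => rfl) (y := fun _ => 1) (fun _ => zero_le_one) (fun _ => le_rfl)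
        (fun ω h => absurd (Set.mem_univ ω) h)
      simp only [mul_one, Set.inter_univ] at h1
      refine h1.trans (mul_le_mul_of_nonneg_left ?_ hE0)
      refine mul_le_mul hn4 ?_ (pr_nonneg _ _) hCl.le
      have h2 := (hLeg (4 * r) R W (by omega) h4r.le hW).1
      rwa [hratio] at h2
    -- the other terms
    have hGdD : ∀ k < K, DepF (HR (4 * r) R) fun ω => ω ∈ Gd (lev M Lam Q (bas M Q (4 * r) k)) := by
      intro k hk
      have h1 := (hMes _ (hP.ok (bas_one_le hP (by omega : 1 ≤ 4 * r) k))).2.2.1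
      refine (depF_iff.2 h1).mono (HR_subset ?_ ?_)
      · change 4 * r ≤ bas M Q (4 * r) k
        have h2 := bas_mono hP (by omega : 1 ≤ 4 * r) (Nat.zero_le k)
        rwa [bas_zero] at h2
      · have h3 : (lev M Lam Q (bas M Q (4 * r) k)).b' = M * bas M Q (4 * r) (k + 1) := by
          rw [bas_succ M Lam Q (4 * r) k]
          rfl
        rw [h3]
        exact (mul_le_mul_of_nonneg_left (bas_mono hP (by omega) hk) (by omega)).trans hK1
    have t2 : ∀ B ∈ powersetCard (K / 2) (range K),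
        exr W (fun ω => g ω * (nH ω r R : ℝ) *
          (if ∀ k ∈ B, ω ∉ Gd (lev M Lam Q (bas M Q (4 * r) k)) then (1 : ℝ) else 0)) ≤
          exr W g * (Cl * (Cp * (1 / 256) ^ (K / 4) * (4 * x))) := by
      intro B hB
      obtain ⟨hBK, hBc⟩ := Finset.mem_powersetCard.1 hB
      have h1 := exr_split (W := W) hMono (g := g)
        (X := {ω | ∀ k ∈ B, ω ∉ Gd (lev M Lam Q (bas M Q (4 * r) k))}) hr h4r hg0 hgD
        (fun ω ω' h => by
          beta_reduce
          simp only [Set.mem_ofPred_eq]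
          refine propext (forall₂_congr fun k hk => not_congr ?_)
          exact iff_of_eq (hGdD k (Finset.mem_range.1 (hBK hk)) ω ω' h))
        (y := fun ω => if ∀ k ∈ B, ω ∉ Gd (lev M Lam Q (bas M Q (4 * r) k)) then (1 : ℝ) else 0)
        (fun ω => by split_ifs <;> norm_num) (fun ω => by split_ifs <;> norm_num)
        (fun ω h => if_neg h)
      refine h1.trans (mul_le_mul_of_nonneg_left ?_ hE0)
      refine mul_le_mul hn4 ?_ (pr_nonneg _ _) hCl.le
      have h2 := hProd M Lam Q δ hP hδ0.le (by rw [hCδ]; norm_num) hδP K (K / 4) B (4 * r) R W hBK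
        (by rw [hBc]; omega) (by omega) hK1 hW
      rw [hCδ, hratio] at h2
      exact h2
    have t3 : ∑ B ∈ powersetCard (K / 2) (range K),
        exr W (fun ω => g ω * (nH ω r R : ℝ) *
          (if ∀ k ∈ B, ω ∉ Gd (lev M Lam Q (bas M Q (4 * r) k)) then (1 : ℝ) else 0)) ≤
          2 ^ K * (exr W g * (Cl * (Cp * (1 / 256) ^ (K / 4) * (4 * x)))) := by
      refine (Finset.sum_le_card_nsmul _ _ _ t2).trans ?_
      rw [Finset.card_powersetCard, Finset.card_range, nsmul_eq_mul]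
      refine mul_le_mul_of_nonneg_right ?_ (by positivity)
      exact_mod_cast Nat.choose_le_two_pow K (K / 2)
    -- powers of the number of levels
    have hxg1 : x ^ γ1 ≤ x ^ γ := Real.rpow_le_rpow_of_exponent_ge hx0 hx1 (min_le_left _ _)
    have hxg2 : x ^ γ2 ≤ x ^ γ := Real.rpow_le_rpow_of_exponent_ge hx0 hx1 (min_le_right _ _)
    have p1 : (1 - c) ^ (K - K / 2) ≤ C1 * x ^ γ := by
      have h1 : (1 - c) ^ (K - K / 2) = Real.sqrt (1 - c) ^ (2 * (K - K / 2)) := by
        rw [pow_mul, Real.sq_sqrt (by linarith)]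
      have h2 : Real.sqrt (1 - c) ≤ 1 := by
        rw [Real.sqrt_le_left (by norm_num)]
        linarith
      rw [h1]
      calc Real.sqrt (1 - c) ^ (2 * (K - K / 2)) ≤ Real.sqrt (1 - c) ^ K :=
            pow_le_pow_of_le_one (Real.sqrt_nonneg _) h2 (by omega)
        _ ≤ C1 * x ^ γ1 := hp1 K x hx0 hx1 hxK
        _ ≤ C1 * x ^ γ := mul_le_mul_of_nonneg_left hxg1 hC1.le
    have p2 : 2 ^ K * (1 / 256 : ℝ) ^ (K / 4) ≤ 64 * (C2 * x ^ γ) := by
      have h1 : (1 / 256 : ℝ) ^ (K / 4) = (1 / 4) ^ (4 * (K / 4)) := by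
        rw [pow_mul]
        norm_num
      have h2 : (1 / 4 : ℝ) ^ (4 * (K / 4)) ≤ 64 * (1 / 4) ^ K := by
        have h3 : (1 / 4 : ℝ) ^ K = (1 / 4) ^ (4 * (K / 4)) * (1 / 4) ^ (K % 4) := by
          rw [← pow_add]
          congr 1
          omega
        have h4 : (1 / 64 : ℝ) ≤ (1 / 4) ^ (K % 4) := by
          have h5 : K % 4 ≤ 3 := by omega
          calc (1 / 64 : ℝ) = (1 / 4) ^ 3 := by norm_num
            _ ≤ (1 / 4) ^ (K % 4) := pow_le_pow_of_le_one (by norm_num) (by norm_num) h5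
        have h6 : (0 : ℝ) < (1 / 4) ^ (4 * (K / 4)) := by positivity
        rw [h3]
        nlinarith
      rw [h1]
      calc (2 : ℝ) ^ K * (1 / 4) ^ (4 * (K / 4)) ≤ 2 ^ K * (64 * (1 / 4) ^ K) :=
            mul_le_mul_of_nonneg_left h2 (by positivity)
        _ = 64 * (1 / 2) ^ K := by
            rw [show (1 / 2 : ℝ) = 2 * (1 / 4) by norm_num, mul_pow]
            ring
        _ ≤ 64 * (C2 * x ^ γ) := by
            refine mul_le_mul_of_nonneg_left ?_ (by norm_num)
            exact (hp2 K x hx0 hx1 hxK).trans (mul_le_mul_of_nonneg_left hxg2 hC2.le)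
    have hx2 : x ^ (1 + γ) = x * x ^ γ := by rw [Real.rpow_add hx0, Real.rpow_one]
    have hxγ : 0 < x ^ γ := Real.rpow_pos_of_pos hx0 _
    have hcp : 0 ≤ (1 - c) ^ (K - K / 2) := pow_nonneg (by linarith) _
    have s1 : (1 - c) ^ (K - K / 2) * exr W (fun ω => g ω * (nH ω r R : ℝ)) ≤
        C1 * x ^ γ * (exr W g * (Cl * (Cl * (4 * x)))) :=
      mul_le_mul p1 t1 (exr_nonneg fun T _ => hM0 _) (by positivity)
    have s2 : 2 ^ K * (exr W g * (Cl * (Cp * (1 / 256) ^ (K / 4) * (4 * x)))) ≤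
        64 * (C2 * x ^ γ) * (exr W g * (Cl * (Cp * (4 * x)))) := by
      have h1 := mul_le_mul_of_nonneg_right p2 (by positivity : 0 ≤ exr W g * (Cl * (Cp * (4 * x))))
      calc _ = 2 ^ K * (1 / 256 : ℝ) ^ (K / 4) * (exr W g * (Cl * (Cp * (4 * x)))) := by ring
        _ ≤ _ := h1
    have hfin := hmain.trans (hsplit.trans (add_le_add s1 (t3.trans s2)))
    refine hfin.trans ?_
    rw [hx2]
    have e0 : 0 ≤ Cl * (4 * (M : ℝ)) ^ (1 + γ) * (x * x ^ γ) * exr W g := by positivity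
    have e1 : 0 ≤ 4 * Cl * Cp * C1 * (x * x ^ γ) * exr W g := by positivity
    have e2 : 0 ≤ 4 * Cl * Cl * (64 * C2) * (x * x ^ γ) * exr W g := by positivity
    nlinarith

end Pool.Agent.SixB.Leg
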