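import Pool.Agent.Lib.SixB.S4A
import Pool.Agent.Lib.SixB.S0Clo

/-!
# 6BD: rings which are crossed once (every complex of quadrangles)

`I ⊆ M ⊆ F`, at most one leg of `M \ I` (`OneLeg`).
* `back_in`: backwards from a leg the strand stays in `M`.
* `forth_out`: from the end of a leg on the strand does not come back to `I`.
* `leg_of_out`: an edge of `dE Q I` from which the strand reaches `F \ M` is followed by a leg.
* `mem_iff_ring`: an edge of `dE Q I` is on the strand of the leg in `F` iff it is on the strand of the leg in `M`.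
* `Wt_erase_stable`: the product over the arcs other than the arc of `k ∉ wall Q F M` does not depend on the
  configuration in `I`.
-/

set_option autoImplicit false
set_option linter.unusedSectionVars false

namespace Pool.Agent.SixB.Tilt

open Pool.Agent.Perc.Q Relation

noncomputable section

variable {V Φ : Type} [DecidableEq V] [DecidableEq Φ]
variable {Q : QC V Φ} {F I M A B : Finset Φ} {ω ω' : Φ → Bool} {a b c e k l x y z : V × V}

theorem no_rev (hQ : NoLoop Q) (hx : Ah Q F x ∨ Ah Q F x.swap)
    (h : ReflTransGen (Nx Q ω (F : Set Φ)) x x.swap) : False :=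
  not_srel_swap hQ (mem_dE_ah.mpr hx) (srel_iff.mpr (Or.inl h))

/-- backwards from a leg the strand stays in `M` -/
theorem back_in (hQ : NoLoop Q) (hIM : I ⊆ M) (hMF : M ⊆ F) (h1 : OneLeg Q ω F I M)
    (hl : Leg Q ω F I M l) (h : ReflTransGen (Nx Q ω (F : Set Φ)) l.swap y) :
    ReflTransGen (Nx Q ω (M : Set Φ)) l.swap y := by
  induction h with
  | refl => exact ReflTransGen.refl
  | @tail y z _ hs ih =>
    rcases nx_or hs M with h2 | h2
    · exact ih.tail h2
    · exfalso
      obtain ⟨c, hc, d, hd1, hd2⟩ := leg_of_exit hIM hl.1 ih h2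
      have e := h1 _ _ hc hl
      subst e
      have h3 : ReflTransGen (Nx Q ω (F : Set Φ)) c.swap c :=
        rtg_sub hMF (ReflTransGen.head hd1 hd2)
      have h4 := no_rev hQ (x := c.swap) (F := F) (Or.inl (hl.1.mono (hIM.trans hMF)))
        (ω := ω) (by rw [Prod.swap_swap]; exact h3)
      exact h4

/-- from outside of `M` behind the leg the strand does not come back to `I` -/
theorem forth_out (hQ : NoLoop Q) (hIM : I ⊆ M) (hMF : M ⊆ F) (h1 : OneLeg Q ω F I M)
    (hl : Leg Q ω F I M l) (hlb : ReflTransGen (Nx Q ω (F : Set Φ)) l b) (hb : Ah Q (F \ M) b)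
    (h : ReflTransGen (Nx Q ω (F : Set Φ)) b y) :
    ReflTransGen (Nx Q ω ((F \ I : Finset Φ) : Set Φ)) b y := by
  induction h with
  | refl => exact ReflTransGen.refl
  | @tail y z _ hs ih =>
    rcases nx_or hs (F \ I) with h2 | h2
    · exact ih.tail h2
    · exfalso
      have hI : Ah Q I y := by
        obtain ⟨f, hf, m, e⟩ := h2
        rw [Finset.mem_sdiff, Finset.mem_sdiff] at hf
        refine ⟨f, ?_, m, e⟩
        by_contra h3
        exact hf.2 ⟨hf.1, h3⟩
      have h3 := leg_of_entry hIM hb ih hI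
      have e := h1 _ _ h3 hl
      have h4 : ReflTransGen (Nx Q ω (F : Set Φ)) l l.swap := by
        have h5 := ReflTransGen.trans hlb (rtg_sub Finset.sdiff_subset ih)
        rwa [← e, Prod.swap_swap, ← e] at *
      exact no_rev hQ (x := l) (F := F) (ω := ω) (Or.inr (hl.1.mono (hIM.trans hMF))) h4

/-- an edge of `I` from which the strand reaches `F \ M` is followed by a leg -/
theorem leg_of_out (hIM : I ⊆ M) (he : Ah Q I e ∨ Ah Q I e.swap)
    (h : ReflTransGen (Nx Q ω (F : Set Φ)) e y) (hy : Ah Q (F \ M) y) :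
    ∃ l, Leg Q ω F I M l ∧ ReflTransGen (Nx Q ω (F : Set Φ)) e l := by
  -- invariant: a leg is found, or the current edge enters `I`, or it is in the ring after a visit of `I`
  have key : (∃ l, Leg Q ω F I M l ∧ ReflTransGen (Nx Q ω (F : Set Φ)) e l) ∨ Ah Q I y ∨
      ∃ c, Ah Q I c.swap ∧ ReflTransGen (Nx Q ω (F : Set Φ)) e c ∧
        ReflTransGen (Nx Q ω ((M \ I : Finset Φ) : Set Φ)) c y := by
    clear hy
    induction h with
    | refl =>
      right
      rcases he with he | he
      · exact Or.inl he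
      · exact Or.inr ⟨e, he, ReflTransGen.refl, ReflTransGen.refl⟩
    | @tail y z hy hs ih =>
      rcases ih with ih | ih | ⟨c, h1, h2, h3⟩
      · exact Or.inl ih
      · right; right
        exact ⟨z, ah_right (nx_of_ah hs ih), hy.tail hs, ReflTransGen.refl⟩
      · by_cases hI : Ah Q I y
        · right; right
          exact ⟨z, ah_right (nx_of_ah hs hI), hy.tail hs, ReflTransGen.refl⟩
        · rcases nx_or hs M with h4 | h4
          · right; right
            refine ⟨c, h1, h2, h3.tail (nx_of_ah hs ?_)⟩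
            obtain ⟨f, hf, m, e⟩ := ah_left h4
            exact ⟨f, Finset.mem_sdiff.mpr ⟨hf, fun hfI => hI ⟨f, hfI, m, e⟩⟩, m, e⟩
          · left
            exact ⟨c, ⟨h1, y, h3, h4⟩, h2⟩
  rcases key with h1 | h1 | ⟨c, h1, h2, h3⟩
  · exact h1
  · exact (ah_disj (Finset.disjoint_sdiff (s := M) (t := F)) (h1.mono hIM) hy).elim
  · exact ⟨c, ⟨h1, y, h3, hy⟩, h2⟩

/-- a point of the strand behind `l` is on the ring piece or behind its end -/
theorem ring_or (hMF : M ⊆ F) (hb : Ah Q (F \ M) b)
    (hlb : ReflTransGen (Nx Q ω ((M \ I : Finset Φ) : Set Φ)) l b)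
    (h : ReflTransGen (Nx Q ω (F : Set Φ)) l e) :
    ReflTransGen (Nx Q ω ((M \ I : Finset Φ) : Set Φ)) l e ∨
      ReflTransGen (Nx Q ω (F : Set Φ)) b e := by
  have hu : Relator.RightUnique (Nx Q ω ((M \ I : Finset Φ) : Set Φ)) :=
    fun _ _ _ h h' => Nx.unique h h'
  induction h with
  | refl => exact Or.inl ReflTransGen.refl
  | @tail y z _ hs ih =>
    rcases ih with ih | ih
    · rcases ReflTransGen.total_of_right_unique hu ih hlb with h3 | h3
      · rcases ReflTransGen.cases_head h3 with rfl | ⟨d, h4, -⟩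
        · exact Or.inr (ReflTransGen.single hs)
        · have h5 := hs.unique (nx_mono (Finset.sdiff_subset.trans hMF) h4)
          subst h5
          exact Or.inl (ih.tail h4)
      · have h4 : b = y := by
          refine rtg_stop (fun h5 => ?_) h3
          exact ah_disj (Finset.disjoint_sdiff (s := M) (t := F)) (h5.mono Finset.sdiff_subset) hb
        subst h4
        exact Or.inr (ReflTransGen.single hs)
    · exact Or.inr (ih.tail hs)

/-- behind the end of the leg there is no edge of `I` -/
theorem no_edge_out (hQ : NoLoop Q) (hIM : I ⊆ M) (hMF : M ⊆ F) (h1 : OneLeg Q ω F I M)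
    (hl : Leg Q ω F I M l) (hlb : ReflTransGen (Nx Q ω (F : Set Φ)) l b) (hb : Ah Q (F \ M) b)
    (h : ReflTransGen (Nx Q ω (F : Set Φ)) b e) (he : Ah Q I e ∨ Ah Q I e.swap) : e = b := by
  have h4 := forth_out hQ hIM hMF h1 hl hlb hb h
  rcases he with he | he
  · exfalso
    have e1 := h1 _ _ (leg_of_entry hIM hb h4 he) hl
    have h5 : ReflTransGen (Nx Q ω (F : Set Φ)) l l.swap := by
      have h6 : e = l.swap := by rw [← e1, Prod.swap_swap]
      rw [← h6]
      exact hlb.trans h
    exact no_rev hQ (x := l) (F := F) (ω := ω) (Or.inr (hl.1.mono (hIM.trans hMF))) h5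
  · rcases ReflTransGen.cases_tail h4 with h5 | ⟨d, -, h5⟩
    · exact h5
    · exact (ah_disj (Finset.disjoint_sdiff (s := I) (t := F)) he (ah_right h5)).elim

/-- edges of `I` on the strand of the leg -/
theorem mem_iff_ring (hQ : NoLoop Q) (hIM : I ⊆ M) (hMF : M ⊆ F) (h1 : OneLeg Q ω F I M)
    (hl : Leg Q ω F I M l) (he : Ah Q I e ∨ Ah Q I e.swap) :
    SRel Q F ω l e ↔ SRel Q M ω l e := by
  constructor
  · intro h
    rcases srel_iff.mp h with h2 | h2
    · obtain ⟨hl1, b, hb1, hb2⟩ := hl
      have hl : Leg Q ω F I M l := ⟨hl1, b, hb1, hb2⟩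
      rcases ring_or hMF hb2 hb1 h2 with h3 | h3
      · exact srel_iff.mpr (Or.inl (rtg_sub Finset.sdiff_subset h3))
      · have h4 := no_edge_out hQ hIM hMF h1 hl
          (rtg_sub (Finset.sdiff_subset.trans hMF) hb1) hb2 h3 he
        rw [h4]
        exact srel_iff.mpr (Or.inl (rtg_sub Finset.sdiff_subset hb1))
    · have h3 := rtg_rev h2
      have h4 := back_in hQ hIM hMF h1 hl h3
      have h5 := rtg_rev h4
      rw [Prod.swap_swap, Prod.swap_swap] at h5
      exact srel_iff.mpr (Or.inr h5)
  · exact fun h => h.mono hMF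

/-- **the product over the other arcs.** `k` outside of the wall of `M`: the product over the arcs different
from the arc of `k` does not depend on the configuration in `I`. -/
theorem Wt_erase_stable {R : Type} [CommMonoid R] {τ : Sym2 (V × V) → R} (hQ : NoLoop Q)
    (hIM : I ⊆ M) (hMF : M ⊆ F) (hτ : Neutral Q F M τ) (h1 : OneLeg Q ω F I M)
    (hω : ∀ f, f ∉ I → ω f = ω' f) (hk : k ∈ bS Q F) (hkw : k ∉ wall Q F M) :
    ∏ p ∈ (arcs Q F ω').erase s(k, mate Q F ω' k), τ p =
      ∏ p ∈ (arcs Q F ω).erase s(k, mate Q F ω k), τ p := by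
  classical
  -- apply `Wt_stable` with `τ` replaced by `1` on the arcs of `k`
  let σ : Sym2 (V × V) → R := fun p => if k ∈ p then 1 else τ p
  have hσ : Neutral Q F M σ := by
    constructor
    · intro a ha b hb
      simp only [σ]
      rw [if_neg, hτ.one a ha b hb]
      rw [Sym2.mem_iff]
      rintro (rfl | rfl)
      · exact hkw ha
      · exact hkw hb
    · intro l hl hlw a ha b hb
      simp only [σ]
      by_cases hkl : k = l
      · subst hkl
        rw [if_pos (Sym2.mem_mk_left _ _), if_pos (Sym2.mem_mk_left _ _)]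
      · rw [if_neg, if_neg, hτ.eq l hl hlw a ha b hb]
        · rw [Sym2.mem_iff]
          rintro (rfl | rfl)
          · exact hkl rfl
          · exact hkw hb
        · rw [Sym2.mem_iff]
          rintro (rfl | rfl)
          · exact hkl rfl
          · exact hkw ha
  have key : ∀ ξ : Φ → Bool, ∏ p ∈ (arcs Q F ξ).erase s(k, mate Q F ξ k), τ p = Wt Q F σ ξ := by
    intro ξ
    unfold Wt
    have hmem : s(k, mate Q F ξ k) ∈ arcs Q F ξ := mem_arcs.mpr ⟨k, hk, rfl⟩
    rw [← Finset.mul_prod_erase (arcs Q F ξ) σ hmem]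
    have h2 : σ s(k, mate Q F ξ k) = 1 := by
      simp only [σ]
      rw [if_pos (Sym2.mem_mk_left _ _)]
    rw [h2, one_mul]
    refine Finset.prod_congr rfl fun p hp => ?_
    obtain ⟨h3, h4⟩ := Finset.mem_erase.mp hp
    simp only [σ]
    rw [if_neg]
    intro h5
    apply h3
    obtain ⟨a, ha, rfl⟩ := mem_arcs.mp h4
    rcases Sym2.mem_iff.mp h5 with rfl | h6
    · rfl
    · rw [h6, mate_mate ha, Sym2.eq_swap]
  rw [key, key]
  exact Wt_stable hQ hIM hMF hσ h1 hω

end

end Pool.Agent.SixB.Tilt
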