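import Pool.Agent.Lib.MP_6bd702_z.Z032
import Pool.Agent.Lib.MP_6bd702_z.Z018

/-!
# Conditional expectation off a stopping set (6BD, block S4)

`exr W g` : mean of `g` over the uniform configurations of the window `W` (real values).
`Stp S` : `S` is a stopping set.  `Msb S g` : `g` is a function of the faces of `S`.
`ce W S g ω` : mean of `g` when the faces off `S ω` are resampled (conditional expectation of `g`
given the faces of `S`).  Facts: `exr_ce`, `ce_ce` (tower), `ce_msb`, `ce_mul`, `ce_of_msb`,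
`ce_mono`, linearity, indicators, product rule `ce_mul_of_disjoint`.
-/

set_option autoImplicit false

namespace Pool.Agent.SixB

open Finset Pool.Agent.Perc Pool.Agent.PercT

variable {W : Finset (ℤ × ℤ)}

/-- Mean of a real function over the faces of the window `W`. -/
noncomputable def exr (W : Finset (ℤ × ℤ)) (g : Cfg → ℝ) : ℝ :=
  (∑ T ∈ W.powerset, g (cfg T)) / 2 ^ W.card

/-- Stopping set: the set `S ω` is determined by the faces of `S ω`. -/
def Stp (S : Cfg → Set (ℤ × ℤ)) : Prop :=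
  ∀ ω ω' : Cfg, (∀ f ∈ S ω, ω f = ω' f) → S ω' = S ω

/-- `g` is a function of the faces of the stopping set `S`. -/
def Msb {α : Type*} (S : Cfg → Set (ℤ × ℤ)) (g : Cfg → α) : Prop :=
  ∀ ω ω' : Cfg, (∀ f ∈ S ω, ω f = ω' f) → g ω' = g ω

/-- Conditional expectation given the faces of `S`. -/
noncomputable def ce (W : Finset (ℤ × ℤ)) (S : Cfg → Set (ℤ × ℤ)) (g : Cfg → ℝ) (ω : Cfg) : ℝ :=
  exr W fun ξ => g (mix (S ω) ω ξ)

/-! ## The mean -/

theorem two_pow_pos (W : Finset (ℤ × ℤ)) : (0 : ℝ) < 2 ^ W.card := by positivity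

theorem exr_congr {g g' : Cfg → ℝ} (h : ∀ T ⊆ W, g (cfg T) = g' (cfg T)) : exr W g = exr W g' := by
  unfold exr
  rw [Finset.sum_congr rfl fun T hT => h T (mem_powerset.1 hT)]

theorem exr_const (W : Finset (ℤ × ℤ)) (c : ℝ) : exr W (fun _ => c) = c := by
  unfold exr
  rw [Finset.sum_const, Finset.card_powerset, nsmul_eq_mul]
  have := two_pow_pos W
  push_cast
  field_simp

theorem exr_add (g g' : Cfg → ℝ) : exr W (fun ω => g ω + g' ω) = exr W g + exr W g' := by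
  unfold exr
  rw [Finset.sum_add_distrib, add_div]

theorem exr_sub (g g' : Cfg → ℝ) : exr W (fun ω => g ω - g' ω) = exr W g - exr W g' := by
  unfold exr
  rw [Finset.sum_sub_distrib, sub_div]

theorem exr_neg (g : Cfg → ℝ) : exr W (fun ω => -g ω) = -exr W g := by
  unfold exr
  rw [Finset.sum_neg_distrib, neg_div]

theorem exr_mul_left (c : ℝ) (g : Cfg → ℝ) : exr W (fun ω => c * g ω) = c * exr W g := by
  unfold exr
  rw [← Finset.mul_sum, mul_div_assoc]

theorem exr_mul_right (c : ℝ) (g : Cfg → ℝ) : exr W (fun ω => g ω * c) = exr W g * c := by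
  unfold exr
  rw [← Finset.sum_mul]
  ring

theorem exr_sum {ι : Type*} (s : Finset ι) (g : ι → Cfg → ℝ) :
    exr W (fun ω => ∑ i ∈ s, g i ω) = ∑ i ∈ s, exr W (g i) := by
  unfold exr
  rw [Finset.sum_comm, Finset.sum_div]

theorem exr_mono {g g' : Cfg → ℝ} (h : ∀ T ⊆ W, g (cfg T) ≤ g' (cfg T)) :
    exr W g ≤ exr W g' := by
  unfold exr
  exact div_le_div_of_nonneg_right (Finset.sum_le_sum fun T hT => h T (mem_powerset.1 hT))
    (two_pow_pos W).le

theorem exr_nonneg {g : Cfg → ℝ} (h : ∀ T ⊆ W, 0 ≤ g (cfg T)) : 0 ≤ exr W g := by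
  unfold exr
  exact div_nonneg (Finset.sum_nonneg fun T hT => h T (mem_powerset.1 hT)) (two_pow_pos W).le

theorem abs_exr_le (g : Cfg → ℝ) : |exr W g| ≤ exr W (fun ω => |g ω|) := by
  unfold exr
  rw [abs_div, abs_of_pos (two_pow_pos W)]
  exact div_le_div_of_nonneg_right (Finset.abs_sum_le_sum_abs _ _) (two_pow_pos W).le

open Classical in
/-- The mean of an indicator is the probability. -/
theorem exr_ind (A : Set Cfg) : exr W (fun ω => if ω ∈ A then (1 : ℝ) else 0) = pr W A := by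
  unfold exr
  rw [ProbA.pr_eq_sum]

theorem exr_indicator (A : Set Cfg) : exr W (A.indicator fun _ => (1 : ℝ)) = pr W A := by
  rw [← exr_ind A]
  rfl

/-! ## Resampling -/

/-- The mixture off a stopping set has the law of the first configuration (function form). -/
theorem exr_mix {S : Cfg → Set (ℤ × ℤ)} (hS : Stp S) (g : Cfg → ℝ) :
    exr W (fun ω => exr W fun ξ => g (mix (S ω) ω ξ)) = exr W g := by
  classical
  have key : ∀ T U : Finset (ℤ × ℤ), S (cfg (mixF (S (cfg T)) T U)) = S (cfg T) := by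
    intro T U
    refine hS _ _ fun f hf => ?_
    rw [cfg_mixF, mix_of_mem hf]
  have h1 : ∑ T ∈ W.powerset, ∑ U ∈ W.powerset, g (mix (S (cfg T)) (cfg T) (cfg U)) =
      ∑ p ∈ W.powerset ×ˢ W.powerset, g (cfg p.1) := by
    rw [← Finset.sum_product']
    refine Finset.sum_nbij' (fun p => (mixF (S (cfg p.1)) p.1 p.2, mixF (S (cfg p.1)) p.2 p.1))
      (fun p => (mixF (S (cfg p.1)) p.1 p.2, mixF (S (cfg p.1)) p.2 p.1)) ?_ ?_ ?_ ?_ ?_
    · intro p hp
      rw [Finset.mem_product, Finset.mem_powerset, Finset.mem_powerset] at hp ⊢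
      exact ⟨mixF_subset hp.1 hp.2, mixF_subset hp.2 hp.1⟩
    · intro p hp
      rw [Finset.mem_product, Finset.mem_powerset, Finset.mem_powerset] at hp ⊢
      exact ⟨mixF_subset hp.1 hp.2, mixF_subset hp.2 hp.1⟩
    · rintro ⟨T, U⟩ _
      simp only [key, mixF_mixF]
    · rintro ⟨T, U⟩ _
      simp only [key, mixF_mixF]
    · rintro ⟨T, U⟩ _
      simp only [cfg_mixF]
  rw [Finset.sum_product] at h1
  have h2 : ∑ T ∈ W.powerset, ∑ _U ∈ W.powerset, g (cfg T) =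
      2 ^ W.card * ∑ T ∈ W.powerset, g (cfg T) := by
    rw [Finset.mul_sum]
    refine Finset.sum_congr rfl fun T _ => ?_
    rw [Finset.sum_const, Finset.card_powerset, nsmul_eq_mul]
    push_cast
    rfl
  unfold exr
  rw [← Finset.sum_div]
  have h3 : ∑ T ∈ W.powerset, ∑ U ∈ W.powerset, g (mix (S (cfg T)) (cfg T) (cfg U)) =
      2 ^ W.card * ∑ T ∈ W.powerset, g (cfg T) := h1.trans h2
  rw [h3, mul_div_cancel_left₀ _ (two_pow_pos W).ne']

theorem exr_ce {S : Cfg → Set (ℤ × ℤ)} (hS : Stp S) (g : Cfg → ℝ) :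
    exr W (ce W S g) = exr W g := exr_mix hS g

theorem mix_eq_of_agree {S : Cfg → Set (ℤ × ℤ)} (hS : Stp S) {ω ω' : Cfg}
    (h : ∀ f ∈ S ω, ω f = ω' f) (ξ : Cfg) : mix (S ω') ω' ξ = mix (S ω) ω ξ := by
  rw [hS ω ω' h]
  funext f
  by_cases hf : f ∈ S ω
  · rw [mix_of_mem hf, mix_of_mem hf, h f hf]
  · rw [mix_of_notMem hf, mix_of_notMem hf]

/-- The conditional expectation is a function of the faces of `S`. -/
theorem ce_msb {S : Cfg → Set (ℤ × ℤ)} (hS : Stp S) (g : Cfg → ℝ) : Msb S (ce W S g) := by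
  intro ω ω' h
  unfold ce
  simp only [mix_eq_of_agree hS h]

theorem agree_mix (S : Set (ℤ × ℤ)) (ω ξ : Cfg) : ∀ f ∈ S, ω f = mix S ω ξ f := by
  intro f hf
  rw [mix_of_mem hf]

theorem stp_mix {S : Cfg → Set (ℤ × ℤ)} (hS : Stp S) (ω ξ : Cfg) :
    S (mix (S ω) ω ξ) = S ω := hS _ _ (agree_mix _ _ _)

theorem Msb.eq_mix {α : Type*} {S : Cfg → Set (ℤ × ℤ)} {g : Cfg → α} (hg : Msb S g)
    (ω ξ : Cfg) : g (mix (S ω) ω ξ) = g ω := hg _ _ (agree_mix _ _ _)

/-- A function of the faces of `S` is its own conditional expectation. -/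
theorem ce_of_msb {S : Cfg → Set (ℤ × ℤ)} {g : Cfg → ℝ} (hg : Msb S g) : ce W S g = g := by
  funext ω
  unfold ce
  simp only [hg.eq_mix]
  exact exr_const W _

/-- Functions of the faces of `S` can be pulled out. -/
theorem ce_mul {S : Cfg → Set (ℤ × ℤ)} {h : Cfg → ℝ} (hh : Msb S h) (g : Cfg → ℝ) (ω : Cfg) :
    ce W S (fun ω => h ω * g ω) ω = h ω * ce W S g ω := by
  unfold ce
  simp only [hh.eq_mix]
  exact exr_mul_left _ _

theorem ce_mul_right {S : Cfg → Set (ℤ × ℤ)} {h : Cfg → ℝ} (hh : Msb S h) (g : Cfg → ℝ)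
    (ω : Cfg) : ce W S (fun ω => g ω * h ω) ω = ce W S g ω * h ω := by
  unfold ce
  simp only [hh.eq_mix]
  exact exr_mul_right _ _

theorem exr_mul_ce {S : Cfg → Set (ℤ × ℤ)} (hS : Stp S) {h : Cfg → ℝ} (hh : Msb S h)
    (g : Cfg → ℝ) : exr W (fun ω => h ω * ce W S g ω) = exr W (fun ω => h ω * g ω) := by
  rw [← exr_ce hS (fun ω => h ω * g ω)]
  congr 1
  funext ω
  exact (ce_mul hh g ω).symm

open Classical in
/-- Indicators of `S`-events can be pulled out. -/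
theorem ce_ite {S : Cfg → Set (ℤ × ℤ)} {A : Set Cfg} (hA : Msb S (fun ω => ω ∈ A)) (g : Cfg → ℝ)
    (ω : Cfg) : ce W S (fun ω => if ω ∈ A then g ω else 0) ω = if ω ∈ A then ce W S g ω else 0 := by
  unfold ce
  have h : ∀ ξ, (mix (S ω) ω ξ ∈ A) = (ω ∈ A) := fun ξ => hA.eq_mix ω ξ
  by_cases h1 : ω ∈ A
  · simp only [h, h1, if_true]
  · simp only [h, h1, if_false]
    exact exr_const W 0

theorem ce_add (S : Cfg → Set (ℤ × ℤ)) (g g' : Cfg → ℝ) (ω : Cfg) :
    ce W S (fun ω => g ω + g' ω) ω = ce W S g ω + ce W S g' ω := exr_add _ _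

theorem ce_sub (S : Cfg → Set (ℤ × ℤ)) (g g' : Cfg → ℝ) (ω : Cfg) :
    ce W S (fun ω => g ω - g' ω) ω = ce W S g ω - ce W S g' ω := exr_sub _ _

theorem ce_neg (S : Cfg → Set (ℤ × ℤ)) (g : Cfg → ℝ) (ω : Cfg) :
    ce W S (fun ω => -g ω) ω = -ce W S g ω := exr_neg _

theorem ce_mul_left (S : Cfg → Set (ℤ × ℤ)) (c : ℝ) (g : Cfg → ℝ) (ω : Cfg) :
    ce W S (fun ω => c * g ω) ω = c * ce W S g ω := exr_mul_left _ _

theorem ce_sum {ι : Type*} (s : Finset ι) (S : Cfg → Set (ℤ × ℤ)) (g : ι → Cfg → ℝ) (ω : Cfg) :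
    ce W S (fun ω => ∑ i ∈ s, g i ω) ω = ∑ i ∈ s, ce W S (g i) ω :=
  exr_sum s fun i ξ => g i (mix (S ω) ω ξ)

theorem ce_const (S : Cfg → Set (ℤ × ℤ)) (c : ℝ) (ω : Cfg) : ce W S (fun _ => c) ω = c :=
  exr_const W c

theorem ce_mono (S : Cfg → Set (ℤ × ℤ)) {g g' : Cfg → ℝ} (h : ∀ ω, g ω ≤ g' ω) (ω : Cfg) :
    ce W S g ω ≤ ce W S g' ω := exr_mono fun _ _ => h _

theorem ce_nonneg (S : Cfg → Set (ℤ × ℤ)) {g : Cfg → ℝ} (h : ∀ ω, 0 ≤ g ω) (ω : Cfg) :
    0 ≤ ce W S g ω := exr_nonneg fun _ _ => h _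

theorem abs_ce_le (S : Cfg → Set (ℤ × ℤ)) (g : Cfg → ℝ) (ω : Cfg) :
    |ce W S g ω| ≤ ce W S (fun ω => |g ω|) ω := abs_exr_le _

/-- The conditional probability of an event. -/
theorem ce_ind (S : Cfg → Set (ℤ × ℤ)) (A : Set Cfg) (ω : Cfg) :
    ce W S (A.indicator fun _ => (1 : ℝ)) ω = pr W {ξ | mix (S ω) ω ξ ∈ A} := by
  rw [← exr_indicator]
  rfl

/-! ## Stopping sets -/

theorem stp_const (A : Set (ℤ × ℤ)) : Stp fun _ => A := fun _ _ _ => rfl

theorem Stp.union {S S' : Cfg → Set (ℤ × ℤ)} (h : Stp S) (h' : Stp S') :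
    Stp fun ω => S ω ∪ S' ω := by
  intro ω ω' hω
  change S ω' ∪ S' ω' = S ω ∪ S' ω
  rw [h ω ω' fun f hf => hω f (Or.inl hf), h' ω ω' fun f hf => hω f (Or.inr hf)]

/-- Exploring further: `R` is determined by the faces of `S ω ∪ R ω`. -/
theorem Stp.more {S R : Cfg → Set (ℤ × ℤ)} (h : Stp S)
    (h' : ∀ ω ω' : Cfg, (∀ f ∈ S ω ∪ R ω, ω f = ω' f) → R ω' = R ω) :
    Stp fun ω => S ω ∪ R ω := by
  intro ω ω' hω
  change S ω' ∪ R ω' = S ω ∪ R ω
  rw [h ω ω' fun f hf => hω f (Or.inl hf), h' ω ω' hω]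

theorem Msb.mono {α : Type*} {S S' : Cfg → Set (ℤ × ℤ)} {g : Cfg → α} (hg : Msb S g)
    (h : ∀ ω, S ω ⊆ S' ω) : Msb S' g :=
  fun ω ω' hω => hg ω ω' fun f hf => hω f (h ω hf)

theorem Msb.comp {α β : Type*} {S : Cfg → Set (ℤ × ℤ)} {g : Cfg → α} (hg : Msb S g)
    (φ : α → β) : Msb S fun ω => φ (g ω) := fun ω ω' h => congrArg φ (hg ω ω' h)

theorem Msb.prod {α β : Type*} {S : Cfg → Set (ℤ × ℤ)} {g : Cfg → α} {g' : Cfg → β}
    (hg : Msb S g) (hg' : Msb S g') : Msb S fun ω => (g ω, g' ω) :=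
  fun ω ω' h => Prod.ext (hg ω ω' h) (hg' ω ω' h)

theorem Msb.mul {S : Cfg → Set (ℤ × ℤ)} {g g' : Cfg → ℝ} (hg : Msb S g) (hg' : Msb S g') :
    Msb S fun ω => g ω * g' ω := fun ω ω' h => by
  change g ω' * g' ω' = g ω * g' ω
  rw [hg ω ω' h, hg' ω ω' h]

theorem msb_self {S : Cfg → Set (ℤ × ℤ)} (hS : Stp S) : Msb S S := hS

theorem msb_const {α : Type*} (S : Cfg → Set (ℤ × ℤ)) (c : α) : Msb S fun _ => c :=
  fun _ _ _ => rfl

theorem msb_of_depOn {A : Set (ℤ × ℤ)} {B : Set Cfg} (hB : DepOn A B) {S : Cfg → Set (ℤ × ℤ)}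
    (h : ∀ ω, A ⊆ S ω) : Msb S fun ω => ω ∈ B :=
  fun ω ω' hω => propext (hB ω' ω fun f hf => (hω f (h ω hf)).symm)

/-! ## The tower property -/

/-- Tower property: `S ω ⊆ S' ω`. -/
theorem ce_ce {S S' : Cfg → Set (ℤ × ℤ)} (hS : Stp S) (hS' : Stp S') (h : ∀ ω, S ω ⊆ S' ω)
    (g : Cfg → ℝ) (ω : Cfg) : ce W S (ce W S' g) ω = ce W S g ω := by
  unfold ce
  have hR : Stp fun ξ => S' (mix (S ω) ω ξ) := by
    intro ξ ξ' hξ
    refine hS' _ _ fun f hf => ?_
    by_cases hf' : f ∈ S ω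
    · rw [mix_of_mem hf', mix_of_mem hf']
    · rw [mix_of_notMem hf', mix_of_notMem hf']
      exact hξ f hf
  have key : ∀ ξ ξ' : Cfg, mix (S' (mix (S ω) ω ξ)) (mix (S ω) ω ξ) ξ' =
      mix (S ω) ω (mix (S' (mix (S ω) ω ξ)) ξ ξ') := by
    intro ξ ξ'
    funext f
    by_cases hf : f ∈ S ω
    · have h1 : f ∈ S' (mix (S ω) ω ξ) := h _ (by rw [stp_mix hS]; exact hf)
      rw [mix_of_mem h1, mix_of_mem hf, mix_of_mem hf]
    · rw [mix_of_notMem (S := S ω) (ξ := mix (S' (mix (S ω) ω ξ)) ξ ξ') hf]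
      by_cases h1 : f ∈ S' (mix (S ω) ω ξ)
      · rw [mix_of_mem h1, mix_of_mem h1, mix_of_notMem hf]
      · rw [mix_of_notMem h1, mix_of_notMem h1]
  simp only [key]
  exact exr_mix hR fun ξ => g (mix (S ω) ω ξ)

/-- The other order is trivial. -/
theorem ce_ce' {S S' : Cfg → Set (ℤ × ℤ)} (hS : Stp S) (h : ∀ ω, S ω ⊆ S' ω)
    (g : Cfg → ℝ) : ce W S' (ce W S g) = ce W S g := ce_of_msb ((ce_msb hS g).mono h)

/-- Upper bound through a finer exploration. -/
theorem ce_le_of {S S' : Cfg → Set (ℤ × ℤ)} (hS : Stp S) (hS' : Stp S') (h : ∀ ω, S ω ⊆ S' ω)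
    {g k : Cfg → ℝ} (hg : ∀ ω, ce W S' g ω ≤ k ω) (ω : Cfg) : ce W S g ω ≤ ce W S k ω := by
  rw [← ce_ce hS hS' h g ω]
  exact ce_mono S hg ω

/-- Lower bound through a finer exploration. -/
theorem le_ce_of {S S' : Cfg → Set (ℤ × ℤ)} (hS : Stp S) (hS' : Stp S') (h : ∀ ω, S ω ⊆ S' ω)
    {g k : Cfg → ℝ} (hg : ∀ ω, k ω ≤ ce W S' g ω) (ω : Cfg) : ce W S k ω ≤ ce W S g ω := by
  rw [← ce_ce hS hS' h g ω]
  exact ce_mono S hg ω

/-! ## Products of functions of disjoint sets of faces -/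

/-- `g` depends only on the faces of `A`. -/
def DepF {α : Type*} (A : Set (ℤ × ℤ)) (g : Cfg → α) : Prop :=
  ∀ ω ω' : Cfg, (∀ f ∈ A, ω f = ω' f) → g ω = g ω'

theorem DepF.mono {α : Type*} {A A' : Set (ℤ × ℤ)} {g : Cfg → α} (h : DepF A g) (hA : A ⊆ A') :
    DepF A' g := fun ω ω' hω => h ω ω' fun f hf => hω f (hA hf)

theorem depF_iff {A : Set (ℤ × ℤ)} {B : Set Cfg} : DepF A (fun ω => ω ∈ B) ↔ DepOn A B :=
  ⟨fun h ω ω' hω => iff_of_eq (h ω ω' hω), fun h ω ω' hω => propext (h ω ω' hω)⟩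

theorem depF_mix {α : Type*} {A : Set (ℤ × ℤ)} {g : Cfg → α} (hg : DepF A g) (ω ξ : Cfg) :
    g (mix A ω ξ) = g ω := (hg _ _ (agree_mix A ω ξ)).symm

theorem depF_mix_off {α : Type*} {A B : Set (ℤ × ℤ)} {g : Cfg → α} (hg : DepF B g)
    (hd : Disjoint A B) (ω ξ : Cfg) : g (mix A ω ξ) = g ξ :=
  hg _ _ fun f hf => mix_of_notMem fun h => Set.disjoint_left.1 hd h hf

/-- Means of functions of disjoint sets of faces multiply. -/
theorem exr_mul_of_disjoint {A B : Set (ℤ × ℤ)} {f g : Cfg → ℝ} (hf : DepF A f) (hg : DepF B g)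
    (hd : Disjoint A B) : exr W (fun ω => f ω * g ω) = exr W f * exr W g := by
  rw [← exr_mix (stp_const A) fun ω => f ω * g ω]
  have h : ∀ ω : Cfg, exr W (fun ξ => f (mix A ω ξ) * g (mix A ω ξ)) = f ω * exr W g := by
    intro ω
    simp only [depF_mix hf, depF_mix_off hg hd]
    exact exr_mul_left _ _
  simp only [h]
  exact exr_mul_right _ _

/-- Conditional version: given the faces of `S`, the two functions read disjoint sets of fresh
faces. -/
theorem ce_mul_of_disjoint {S : Cfg → Set (ℤ × ℤ)} {f g : Cfg → ℝ} {ω : Cfg}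
    {A B : Set (ℤ × ℤ)} (hf : DepF A fun ξ => f (mix (S ω) ω ξ))
    (hg : DepF B fun ξ => g (mix (S ω) ω ξ)) (hd : Disjoint A B) :
    ce W S (fun ω => f ω * g ω) ω = ce W S f ω * ce W S g ω :=
  exr_mul_of_disjoint hf hg hd

/-- If, given the faces of `S`, `g` reads only faces off `S` and is there equal to `k`. -/
theorem ce_eq_exr {S : Cfg → Set (ℤ × ℤ)} {g k : Cfg → ℝ} {ω : Cfg}
    (h : ∀ ξ, g (mix (S ω) ω ξ) = k ξ) : ce W S g ω = exr W k := by
  unfold ce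
  simp only [h]

/-- The window may be enlarged. -/
theorem exr_window {V : Finset (ℤ × ℤ)} (hV : V ⊆ W) {g : Cfg → ℝ} (hg : DepF (V : Set (ℤ × ℤ)) g) :
    exr W g = exr V g := by
  classical
  unfold exr
  have h1 : ∑ T ∈ W.powerset, g (cfg T) =
      ∑ p ∈ V.powerset ×ˢ (W \ V).powerset, g (cfg p.1) := by
    refine Finset.sum_nbij' (fun T => (T ∩ V, T \ V)) (fun p => p.1 ∪ p.2) ?_ ?_ ?_ ?_ ?_
    · intro T hT
      rw [Finset.mem_powerset] at hT
      rw [Finset.mem_product, Finset.mem_powerset, Finset.mem_powerset]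
      exact ⟨Finset.inter_subset_right, Finset.sdiff_subset_sdiff hT le_rfl⟩
    · rintro ⟨P, Q⟩ hp
      rw [Finset.mem_product, Finset.mem_powerset, Finset.mem_powerset] at hp
      rw [Finset.mem_powerset]
      exact Finset.union_subset (hp.1.trans hV) (hp.2.trans Finset.sdiff_subset)
    · intro T _
      ext f
      simp only [Finset.mem_union, Finset.mem_inter, Finset.mem_sdiff]
      tauto
    · rintro ⟨P, Q⟩ hp
      rw [Finset.mem_product, Finset.mem_powerset, Finset.mem_powerset] at hp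
      have hP := hp.1
      have hQ := hp.2
      refine Prod.ext ?_ ?_
      · ext f
        simp only [Finset.mem_union, Finset.mem_inter]
        constructor
        · rintro ⟨h | h, h'⟩
          · exact h
          · exact absurd h' (Finset.mem_sdiff.1 (hQ h)).2
        · exact fun h => ⟨Or.inl h, hP h⟩
      · ext f
        simp only [Finset.mem_union, Finset.mem_sdiff]
        constructor
        · rintro ⟨h | h, h'⟩
          · exact absurd (hP h) h'
          · exact h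
        · exact fun h => ⟨Or.inr h, (Finset.mem_sdiff.1 (hQ h)).2⟩
    · intro T _
      refine hg _ _ fun f hf => ?_
      unfold cfg
      have : f ∈ T ↔ f ∈ T ∩ V := by
        rw [Finset.mem_inter]
        exact ⟨fun h => ⟨h, hf⟩, fun h => h.1⟩
      simp only [this]
  have h2 : ∑ p ∈ V.powerset ×ˢ (W \ V).powerset, g (cfg p.1) =
      2 ^ (W \ V).card * ∑ T ∈ V.powerset, g (cfg T) := by
    rw [Finset.sum_product, Finset.mul_sum]
    refine Finset.sum_congr rfl fun T _ => ?_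
    change ∑ _U ∈ (W \ V).powerset, g (cfg T) = _
    rw [Finset.sum_const, Finset.card_powerset, nsmul_eq_mul]
    push_cast
    rfl
  have h3 : W.card = (W \ V).card + V.card := by
    rw [Finset.card_sdiff_add_card_eq_card hV]
  rw [h1, h2, h3, pow_add, mul_div_mul_left _ _ (two_pow_pos _).ne']

end Pool.Agent.SixB
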