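import Pool.Agent.Lib.SixB.S4W1
import Pool.Agent.Lib.SixB.PlaneS

/-!
# 6BD step 4, row SW2: the column sum of the strands which leave the half box, one leg

* `me`, `mf`: the mirror in `x = 1 / 2` on directed unit edges (left and right are exchanged) and faces,
  `smM`: it is a symmetry of the plane which reverses the orientation.
* `gOut_eq`: with one leg `c` the column sum of the strands which are not complete in `HB0 R` is
  `gN c` times the signed column sum `sgC` of the leg.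
* `sgC_mirror`: the signed column sum is odd.
* `anti_of`: the column sums of two glued configurations, one of which is the mirror of the other one inside,
  are opposite.
-/

set_option autoImplicit false
set_option linter.unusedSectionVars false

namespace Pool.Agent.SixB.LegG

open Pool.Agent.SixB Pool.Agent.SixB.Tilt Pool.Agent.Perc Pool.Agent.Perc.Q Relation

noncomputable section

/-! ## The mirror -/

/-- mirror of the vertices in `x = 1 / 2` -/
def mv (z : VZ) : VZ := (1 - z.1, z.2)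

/-- mirror of the faces -/
def mf (f : ℤ × ℤ) : ℤ × ℤ := (-f.1, f.2)

/-- mirror of directed unit edges -/
def me (e : DZ) : DZ := (mv e.2, mv e.1)

theorem mv_mv (z : VZ) : mv (mv z) = z := by
  unfold mv
  exact Prod.ext (by simp) rfl

theorem mf_mf (f : ℤ × ℤ) : mf (mf f) = f := by
  unfold mf
  exact Prod.ext (by simp) rfl

theorem me_me (e : DZ) : me (me e) = e := by
  unfold me
  simp only [mv_mv]

theorem me_swap (e : DZ) : me e.swap = (me e).swap := rfl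

theorem me_inj : Function.Injective me := Function.Involutive.injective me_me

theorem mv_cor0 (f : ℤ × ℤ) (k : ZMod 4) : mv (cor0 f k) = cor0 (mf f) (1 - k) := by
  obtain ⟨x, y⟩ := f
  rcases k4_cases k with rfl | rfl | rfl | rfl
  · rw [show (1 : ZMod 4) - 0 = 1 by decide]
    rw [cor0_1]
    change (1 - x, y) = _
    exact Prod.ext (by simp only [mf]; ring) rfl
  · rw [show (1 : ZMod 4) - 1 = 0 by decide, cor0_1]
    change (1 - (x + 1), y) = (-x, y)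
    exact Prod.ext (by simp only; ring) rfl
  · rw [show (1 : ZMod 4) - 2 = 3 by decide, cor0_2, cor0_3]
    change (1 - (x + 1), y + 1) = (-x, y + 1)
    exact Prod.ext (by simp only; ring) rfl
  · rw [show (1 : ZMod 4) - 3 = 2 by decide, cor0_2, cor0_3]
    change (1 - x, y + 1) = (-x + 1, y + 1)
    exact Prod.ext (by simp only; ring) rfl

theorem me_sd (f : ℤ × ℤ) (k : ZMod 4) : me (sd ZQ f k) = sd ZQ (mf f) (-k) := by
  change (mv (cor0 f (k + 1)), mv (cor0 f k)) = (cor0 (mf f) (-k), cor0 (mf f) (-k + 1))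
  rw [mv_cor0, mv_cor0, show (1 : ZMod 4) - (k + 1) = -k by ring, show (1 : ZMod 4) - k = -k + 1 by ring]

/-- the mirror is a symmetry of the plane -/
theorem smM (F : Finset (ℤ × ℤ)) {ω ω' : Cfg} (h : ∀ f ∈ F, ω' (mf f) = !ω f) :
    SMap ZQ ZQ F ω ω' me mf (fun k => -k) (-1) where
  inj := me_inj
  swp := me_swap
  sur := neg_surjective
  side := fun f _ k => me_sd f k
  mtk := fun f hf k => by
    rw [h f hf]
    generalize ω f = b
    revert b k
    decide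
  qkk := fun f hf k => by
    rw [h f hf]
    generalize ω f = b
    revert b k
    decide

/-! ## First sides of strands -/

section Stt

variable {F : Finset (ℤ × ℤ)} {ω : Cfg} {e e' : DZ}

theorem stt_srel (hc : ¬ Clo ZQ F ω e) (h : SRel ZQ F ω e e') : stt F ω e' = stt F ω e := by
  obtain ⟨h1, h2⟩ := stt_spec hc
  rcases srel_iff.mp h with h3 | h3
  · exact stt_eq h2 (h1.trans h3)
  · have hc' : ¬ Clo ZQ F ω e' := fun hh => hc ((clo_srel h).mpr hh)
    obtain ⟨h4, h5⟩ := stt_spec hc'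
    exact (stt_eq h5 (h4.trans h3)).symm

theorem stt_swap (hc : ¬ Clo ZQ F ω e) : stt F ω e.swap = mate ZQ F ω (stt F ω e) := by
  obtain ⟨h1, h2⟩ := stt_spec hc
  have h3 := stt_last hc
  have h4 : lst ZQ F ω e = (mate ZQ F ω (stt F ω e)).swap := by
    refine lst_eq h3 ?_
    have := (lst_spec (Q := ZQ) (ω := ω) h2).2
    unfold mate
    rw [Prod.swap_swap]
    exact this
  unfold stt at h4 ⊢
  rw [Prod.swap_swap, h4, Prod.swap_swap]

theorem mate_stt_swap (hc : ¬ Clo ZQ F ω e) (he : e ∈ dE ZQ F) :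
    mate ZQ F ω (stt F ω e.swap) = stt F ω e := by
  rw [stt_swap hc, mate_mate (stt_mem hc he)]

theorem full_srel {R : ℤ} (h : SRel ZQ (HB0 R) ω e e') : Full R ω e ↔ Full R ω e' := by
  unfold Full
  rw [clo_srel h]
  by_cases hc : Clo ZQ (HB0 R) ω e'
  · simp only [hc, true_or]
  · have hc' : ¬ Clo ZQ (HB0 R) ω e := fun hh => hc ((clo_srel h).mp hh)
    rw [stt_srel hc' h]

theorem full_swap {R : ℤ} (he : e ∈ dE ZQ (HB0 R)) : Full R ω e.swap ↔ Full R ω e := by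
  unfold Full
  rw [clo_swap]
  by_cases hc : Clo ZQ (HB0 R) ω e
  · simp only [hc, true_or]
  · rw [mate_stt_swap hc he, stt_swap hc]
    tauto

/-- the leg has no numerator if its strand is complete in `HB0 R` -/
theorem num_srel (E : WEnv) (h : SRel ZQ E.F ω e e') : E.num ω e' = E.num ω e := by
  classical
  unfold WEnv.num
  by_cases hc : Clo ZQ E.F ω e
  · rw [if_pos hc, if_pos ((clo_srel h).mp hc)]
    have : trn ZQ E.F ω e' = trn ZQ E.F ω e := by
      unfold trn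
      rw [dst_eq h]
    rw [this]
  · have hc' : ¬ Clo ZQ E.F ω e' := fun hh => hc ((clo_srel h).mpr hh)
    rw [if_neg hc, if_neg hc']
    unfold arcE
    rw [stt_srel hc h]

theorem num_swap (E : WEnv) (he : e ∈ dE ZQ E.F) : E.num ω e.swap = -E.num ω e := by
  classical
  unfold WEnv.num
  by_cases hc : Clo ZQ E.F ω e
  · rw [if_pos hc, if_pos hc.swap, trn_swap]
    push_cast
    ring
  · rw [if_neg hc, if_neg fun hh => hc (clo_swap.mp hh)]
    unfold arcE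
    rw [mate_stt_swap hc he, stt_swap hc, E.s_anti, Sym2.eq_swap]
    ring

end Stt

/-! ## Faces across a side -/

/-- the face across the side `k` -/
def nb (f : ℤ × ℤ) (k : ZMod 4) : ℤ × ℤ :=
  if k = 0 then (f.1, f.2 - 1) else if k = 1 then (f.1 + 1, f.2) else if k = 2 then (f.1, f.2 + 1)
  else (f.1 - 1, f.2)

theorem sd_nb (f : ℤ × ℤ) (k : ZMod 4) : (sd ZQ f k).swap = sd ZQ (nb f k) (k + 2) := by
  obtain ⟨x, y⟩ := f
  rcases k4_cases k with rfl | rfl | rfl | rfl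
  · change (cor0 (x, y) 1, cor0 (x, y) 0) = (cor0 (x, y - 1) 2, cor0 (x, y - 1) 3)
    rw [cor0_1, cor0_2, cor0_3]
    exact Prod.ext (Prod.ext rfl (by simp)) (Prod.ext rfl (by simp [cor0]))
  · change (cor0 (x, y) 2, cor0 (x, y) 1) = (cor0 (x + 1, y) 3, cor0 (x + 1, y) 0)
    rw [cor0_1, cor0_2, cor0_3]
    exact Prod.ext (Prod.ext rfl rfl) (Prod.ext rfl (by simp [cor0]))
  · change (cor0 (x, y) 3, cor0 (x, y) 2) = (cor0 (x, y + 1) 0, cor0 (x, y + 1) 1)
    rw [cor0_1, cor0_2, cor0_3]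
    exact Prod.ext (Prod.ext rfl (by simp [cor0])) (Prod.ext rfl rfl)
  · change (cor0 (x, y) 0, cor0 (x, y) 3) = (cor0 (x - 1, y) 1, cor0 (x - 1, y) 2)
    rw [cor0_1, cor0_2, cor0_3]
    exact Prod.ext (Prod.ext (by simp [cor0]) (by simp [cor0])) (Prod.ext (by simp) rfl)

theorem nb_of_sd {f g : ℤ × ℤ} {k l : ZMod 4} (h : sd ZQ g l = (sd ZQ f k).swap) : g = nb f k := by
  rw [sd_nb] at h
  exact (ZQ.inj (Prod.mk.inj h).1 (Prod.mk.inj h).2).1

theorem nb_cases (f : ℤ × ℤ) (k : ZMod 4) :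
    (k = 0 ∧ nb f k = (f.1, f.2 - 1)) ∨ (nb f k).1 = f.1 + 1 ∧ (nb f k).2 = f.2 ∨
    (nb f k).1 = f.1 ∧ (nb f k).2 = f.2 + 1 ∨ (nb f k).1 = f.1 - 1 ∧ (nb f k).2 = f.2 := by
  rcases k4_cases k with rfl | rfl | rfl | rfl
  · exact Or.inl ⟨rfl, rfl⟩
  · exact Or.inr (Or.inl ⟨rfl, rfl⟩)
  · exact Or.inr (Or.inr (Or.inl ⟨rfl, rfl⟩))
  · exact Or.inr (Or.inr (Or.inr ⟨rfl, rfl⟩))

/-- at the end of a strand of `HB0 R` is the wall or a face of `HB0 (R + 1)` -/
theorem exit_side {R : ℤ} {y : DZ} (hy : y ∈ dE ZQ (HB0 R)) (ht : Ter ZQ (HB0 R : Set (ℤ × ℤ)) y) :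
    y.swap ∈ wS R ∨ Ah ZQ (HB0 (R + 1) \ HB0 R) y := by
  obtain ⟨f, hf, k, h | h⟩ := mem_dE.mp hy
  · exact absurd h (ht f (by exact_mod_cast hf) k)
  · have h1 : y = (sd ZQ f k).swap := h
    have h2 : y = sd ZQ (nb f k) (k + 2) := by rw [h1, sd_nb]
    have h3 : nb f k ∉ HB0 R := fun hh => ht _ (by exact_mod_cast hh) (k + 2) h2
    rw [mem_HB0] at hf
    rcases nb_cases f k with ⟨h4, h5⟩ | h4 | h4 | h4
    · by_cases h0 : f.2 = 0
      · left
        rw [h1, Prod.swap_swap, h4]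
        refine mem_wS.mpr ⟨f.1, hf.1.1, hf.1.2, ?_⟩
        rw [wsd_sd, ← h0]
      · exact absurd (mem_HB0.mpr (by rw [h5]; simp only; omega)) h3
    all_goals
      right
      refine ⟨nb f k, Finset.mem_sdiff.mpr ⟨mem_HB0.mpr (by omega), h3⟩, k + 2, h2⟩

/-! ## The strands which are not complete pass through the leg -/

section Legs

variable {F M I : Finset (ℤ × ℤ)} {ω ω' : Cfg} {e c : DZ} {a b R : ℤ}

/-- the first exit -/
theorem first_exit {G : Finset (ℤ × ℤ)} (hMG : M ⊆ G) (hGF : G ⊆ F) {x y : DZ}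
    (h : ReflTransGen (Nx ZQ ω (G : Set (ℤ × ℤ))) x y) (hy : Ah ZQ (F \ G) y) :
    ∃ z, ReflTransGen (Nx ZQ ω (M : Set (ℤ × ℤ))) x z ∧ Ah ZQ (F \ M) z := by
  have key : ∀ y, ReflTransGen (Nx ZQ ω (G : Set (ℤ × ℤ))) x y →
      ReflTransGen (Nx ZQ ω (M : Set (ℤ × ℤ))) x y ∨
      ∃ z, ReflTransGen (Nx ZQ ω (M : Set (ℤ × ℤ))) x z ∧ Ah ZQ (F \ M) z := by
    intro y hy
    induction hy with
    | refl => exact Or.inl ReflTransGen.refl
    | @tail u v _ hs ih =>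
      rcases ih with ih | ih
      · rcases nx_or hs M with h1 | h1
        · exact Or.inl (ih.tail h1)
        · exact Or.inr ⟨u, ih, h1.mono (Finset.sdiff_subset_sdiff hGF (Finset.Subset.refl M))⟩
      · exact Or.inr ih
  rcases key y h with h1 | h1
  · exact ⟨y, h1, hy.mono (Finset.sdiff_subset_sdiff (Finset.Subset.refl F) hMG)⟩
  · exact h1

/-- a strand which is not complete in `HB0 R` leaves it at one of its ends -/
theorem exit_of_not_full (hF : HB0 (R + 1) ⊆ F) (he : e ∈ dE ZQ (HB0 R)) (h : ¬ Full R ω e) :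
    (∃ y, ReflTransGen (Nx ZQ ω (HB0 R : Set (ℤ × ℤ))) e y ∧ Ah ZQ (F \ HB0 R) y) ∨
    ∃ y, ReflTransGen (Nx ZQ ω (HB0 R : Set (ℤ × ℤ))) e.swap y ∧ Ah ZQ (F \ HB0 R) y := by
  have hsub : HB0 (R + 1) \ HB0 R ⊆ F \ HB0 R :=
    Finset.sdiff_subset_sdiff hF (Finset.Subset.refl _)
  have hc : ¬ Clo ZQ (HB0 R) ω e := fun hh => h (Or.inl hh)
  obtain ⟨h1, h2⟩ := stt_spec hc
  have h3 := stt_last hc
  have hm : stt (HB0 R) ω e ∈ bS ZQ (HB0 R) := stt_mem hc he
  have hm' := mate_mem (ω := ω) hm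
  by_cases hw : stt (HB0 R) ω e ∈ wS R
  · have hw' : mate ZQ (HB0 R) ω (stt (HB0 R) ω e) ∉ wS R := fun hh => h (Or.inr ⟨hw, hh⟩)
    left
    refine ⟨_, h3, ?_⟩
    rcases exit_side (swap_mem_dE.mpr (mem_bS.mp hm').1) (ter_swap.mpr (mem_bS.mp hm').2) with h4 | h4
    · rw [Prod.swap_swap] at h4
      exact absurd h4 hw'
    · exact h4.mono hsub
  · right
    refine ⟨_, rtg_rev h1, ?_⟩
    rcases exit_side (swap_mem_dE.mpr (mem_bS.mp hm).1) (ter_swap.mpr (mem_bS.mp hm).2) with h4 | h4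
    · rw [Prod.swap_swap] at h4
      exact absurd h4 hw
    · exact h4.mono hsub

/-- a strand through `I` which leaves `G` is the strand of the leg -/
theorem srel_leg (hIM : I ⊆ M) {G : Finset (ℤ × ℤ)} (hMG : M ⊆ G) (hGF : G ⊆ F)
    (h1 : OneLeg ZQ ω F I M) (hc : Leg ZQ ω F I M c) {x y : DZ} (hx : Ah ZQ I x)
    (h : ReflTransGen (Nx ZQ ω (G : Set (ℤ × ℤ))) x y) (hy : Ah ZQ (F \ G) y) :
    SRel ZQ M ω c x := by
  obtain ⟨z, h2, h3⟩ := first_exit hMG hGF h hy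
  obtain ⟨c', h4, d, h5, h6⟩ := leg_of_exit hIM hx h2 h3
  rw [h1 _ _ hc h4]
  exact EqvGen.symm _ _ (srel_iff.mpr (Or.inl (ReflTransGen.head h5 h6)))

end Legs

/-! ## The column sum -/

section Column

variable {E : WEnv} {d : ℤ} {Mn : ℝ} {a b R x y y' r : ℤ} {ω ω' : Cfg} {c : DZ}

open Classical in
/-- the numerator of a leg, `0` if it is complete in `HB0 R` -/
def gN (E : WEnv) (R : ℤ) (ω : Cfg) (c : DZ) : ℝ := if Full R ω c then 0 else E.num ω c

open Classical in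
/-- signed column sum of the strand of `c` in `HB0 b` -/
def sgC (b x y y' : ℤ) (ω : Cfg) (c : DZ) : ℝ :=
  ∑ j ∈ Finset.Ico y' y, ((if WEnv.pe x j ∈ dst ZQ (HB0 b) ω c then (1 : ℝ) else 0) -
    (if (WEnv.pe x j).swap ∈ dst ZQ (HB0 b) ω c then (1 : ℝ) else 0))

theorem pe_ah {x j : ℤ} (ha : 1 ≤ a) (hx : 0 ≤ x) (hx1 : x ≤ 1) (hj : 0 ≤ j) (hj1 : j < a) :
    Ah ZQ (HB0 a) (WEnv.pe x j) :=
  ⟨(x, j), mem_HB0.mpr (by simp only; omega), 3, rfl⟩

theorem pe_ah_swap {x j : ℤ} (ha : 1 ≤ a) (hx : 0 ≤ x) (hx1 : x ≤ 1) (hj : 0 ≤ j) (hj1 : j < a) :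
    Ah ZQ (HB0 a) (WEnv.pe x j).swap := by
  refine ⟨(x - 1, j), mem_HB0.mpr (by simp only; omega), 1, ?_⟩
  change ((x, j), (x, j + 1)) = (cor0 (x - 1, j) 1, cor0 (x - 1, j) 2)
  rw [cor0_1, cor0_2]
  exact Prod.ext (Prod.ext (by simp) rfl) (Prod.ext (by simp) rfl)

theorem ah_dE {A : Finset (ℤ × ℤ)} {e : DZ} (h : Ah ZQ A e) : e ∈ dE ZQ A := mem_dE_ah.mpr (Or.inl h)

theorem leg_mem {F I M : Finset (ℤ × ℤ)} (hIM : I ⊆ M) (hc : Leg ZQ ω F I M c) : c ∈ dE ZQ M :=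
  mem_dE_ah.mpr (Or.inr (hc.1.mono hIM))

/-- **the column sum with one leg** -/
theorem gOut_eq (hF : HB0 (R + 1) ⊆ E.F) (ha : 1 ≤ a) (hab : a ≤ b) (hbR : b ≤ R)
    (hx : 0 ≤ x) (hx1 : x ≤ 1) (hy' : 0 ≤ y') (hya : y ≤ a)
    (h1 : OneLeg ZQ ω E.F (HB0 a) (HB0 b)) (hc : Leg ZQ ω E.F (HB0 a) (HB0 b) c) :
    gOut E R x y y' ω = gN E R ω c * sgC b x y y' ω c := by
  classical
  have hIM : HB0 a ⊆ HB0 b := HB0_mono_sub hab
  have hMG : HB0 b ⊆ HB0 R := HB0_mono_sub hbR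
  have hGF : HB0 R ⊆ E.F := (HB0_mono_sub (by omega)).trans hF
  have hcM := leg_mem hIM hc
  unfold gOut sgC
  rw [Finset.mul_sum]
  refine Finset.sum_congr rfl fun j hj => ?_
  rw [Finset.mem_Ico] at hj
  set e := WEnv.pe x j with he
  have he1 : Ah ZQ (HB0 a) e := pe_ah ha hx hx1 (by omega) (by omega)
  have he2 : Ah ZQ (HB0 a) e.swap := pe_ah_swap ha hx hx1 (by omega) (by omega)
  have heM : e ∈ dE ZQ (HB0 b) := ah_dE (he1.mono hIM)
  have heR : e ∈ dE ZQ (HB0 R) := ah_dE (he1.mono (hIM.trans hMG))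
  have heF : e ∈ dE ZQ E.F := ah_dE (he1.mono ((hIM.trans hMG).trans hGF))
  by_cases hm : e ∈ dst ZQ (HB0 b) ω c
  · have hs : SRel ZQ (HB0 b) ω c e := (mem_dst.mp hm).2
    have hns : e.swap ∉ dst ZQ (HB0 b) ω c := by
      intro hh
      exact not_srel_swap zq_noLoop heM (EqvGen.trans _ _ _ (EqvGen.symm _ _ hs) (mem_dst.mp hh).2)
    rw [if_pos hm, if_neg hns, sub_zero, mul_one]
    unfold gN
    rw [num_srel E (hs.mono (hMG.trans hGF))]
    have := full_srel (R := R) (hs.mono hMG)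
    by_cases hf : Full R ω c
    · rw [if_pos hf, if_pos (this.mp hf)]
    · rw [if_neg hf, if_neg fun hh => hf (this.mpr hh)]
  · by_cases hms : e.swap ∈ dst ZQ (HB0 b) ω c
    · have hs : SRel ZQ (HB0 b) ω c e.swap := (mem_dst.mp hms).2
      rw [if_neg hm, if_pos hms, zero_sub, mul_neg, mul_one]
      unfold gN
      have h2 := num_swap (ω := ω) E heF
      rw [num_srel E (hs.mono (hMG.trans hGF))] at h2
      have := (full_srel (R := R) (hs.mono hMG)).trans (full_swap heR)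
      by_cases hf : Full R ω c
      · rw [if_pos hf, if_pos (this.mp hf), neg_zero]
      · rw [if_neg hf, if_neg fun hh => hf (this.mpr hh), h2, neg_neg]
    · rw [if_neg hm, if_neg hms, sub_zero, mul_zero]
      by_cases hf : Full R ω e
      · rw [if_pos hf]
      · exfalso
        rcases exit_of_not_full hF heR hf with ⟨y, h2, h3⟩ | ⟨y, h2, h3⟩
        · exact hm (mem_dst.mpr ⟨heM, srel_leg hIM hMG hGF h1 hc he1 h2 h3⟩)
        · exact hms (mem_dst.mpr ⟨swap_mem_dE.mpr heM, srel_leg hIM hMG hGF h1 hc he2 h2 h3⟩)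

/-! ## The mirror of the column sum -/

theorem image_mf_HB0 (b : ℤ) : (HB0 b).image mf = HB0 b := by
  ext f
  rw [Finset.mem_image]
  constructor
  · rintro ⟨g, hg, rfl⟩
    rw [mem_HB0] at hg ⊢
    unfold mf
    simp only
    omega
  · intro hf
    refine ⟨mf f, ?_, mf_mf f⟩
    rw [mem_HB0] at hf ⊢
    unfold mf
    simp only
    omega

theorem me_pe (x j : ℤ) : me (WEnv.pe x j) = (WEnv.pe (1 - x) j).swap := rfl

theorem sgC_mirror (h : ∀ f ∈ HB0 b, ω' (mf f) = !ω f) :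
    sgC b (1 - x) y y' ω' (me c) = -sgC b x y y' ω c := by
  classical
  have hS := smM (HB0 b) h
  have h1 : ∀ e, me e ∈ dst ZQ (HB0 b) ω' (me c) ↔ e ∈ dst ZQ (HB0 b) ω c := by
    intro e
    have := hS.mem_dst_iff (a := c) (b := e)
    rwa [image_mf_HB0] at this
  unfold sgC
  rw [← Finset.sum_neg_distrib]
  refine Finset.sum_congr rfl fun j _ => ?_
  have h2 : WEnv.pe (1 - x) j = me (WEnv.pe x j).swap := rfl
  have h3 : (WEnv.pe (1 - x) j).swap = me (WEnv.pe x j) := rfl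
  rw [h2, ← me_swap, Prod.swap_swap, if_congr (h1 _) rfl rfl, if_congr (h1 _) rfl rfl]
  ring

end Column

/-! ## The mirror of a leg -/

section Mirror

variable {F : Finset (ℤ × ℤ)} {ω ω' : Cfg} {c y : DZ} {a b : ℤ}

theorem image_mf_sdiff (a b : ℤ) : (HB0 b \ HB0 a).image mf = HB0 b \ HB0 a := by
  rw [Finset.image_sdiff _ _ (Function.Involutive.injective mf_mf), image_mf_HB0, image_mf_HB0]

theorem ah_me {A : Finset (ℤ × ℤ)} (hA : A.image mf = A) {e : DZ} (h : Ah ZQ A e) :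
    Ah ZQ A (me e) := by
  obtain ⟨f, hf, k, rfl⟩ := h
  refine ⟨mf f, ?_, -k, me_sd f k⟩
  rw [← hA]
  exact Finset.mem_image_of_mem _ hf

/-- the end of a leg, mirrored -/
theorem exit_me (hF : HB0 (b + 1) ⊆ F) (hbel : ∀ i : ℤ, -b ≤ i → i ≤ b → (i, -1) ∉ F)
    (hy : Ah ZQ (HB0 b) y.swap) (h : Ah ZQ (F \ HB0 b) y) : Ah ZQ (F \ HB0 b) (me y) := by
  obtain ⟨f, hf, k, h1⟩ := hy
  obtain ⟨g, hg, l, h2⟩ := h
  have h3 : sd ZQ g l = (sd ZQ f k).swap := by rw [← h1, ← h2, Prod.swap_swap]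
  have h4 := nb_of_sd h3
  obtain ⟨hg1, hg2⟩ := Finset.mem_sdiff.mp hg
  refine ⟨mf g, ?_, -l, by rw [h2, me_sd]⟩
  rw [mem_HB0] at hf
  have h5 : g ∈ HB0 (b + 1) := by
    rcases nb_cases f k with ⟨-, h5⟩ | h5 | h5 | h5
    · by_cases h0 : f.2 = 0
      · exfalso
        refine hbel f.1 hf.1.1 hf.1.2 ?_
        rw [h4, h5, h0] at hg1
        exact hg1
      · rw [h4, h5]
        exact mem_HB0.mpr (by simp only; omega)
    all_goals
      rw [h4]
      exact mem_HB0.mpr (by omega)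
  refine Finset.mem_sdiff.mpr ⟨hF ?_, fun hh => hg2 ?_⟩
  · rw [← image_mf_HB0]
    exact Finset.mem_image_of_mem _ h5
  · rw [← image_mf_HB0, ← mf_mf g]
    exact Finset.mem_image_of_mem _ hh

theorem leg_me (hab : a ≤ b) (hF : HB0 (b + 1) ⊆ F)
    (hbel : ∀ i : ℤ, -b ≤ i → i ≤ b → (i, -1) ∉ F) (h : ∀ f ∈ HB0 b, ω' (mf f) = !ω f)
    (hc : Leg ZQ ω F (HB0 a) (HB0 b) c) : Leg ZQ ω' F (HB0 a) (HB0 b) (me c) := by
  obtain ⟨h1, y, h2, h3⟩ := hc
  have hIM : HB0 a ⊆ HB0 b := HB0_mono_sub hab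
  have hS := smM (HB0 b \ HB0 a) fun f hf => h f (Finset.mem_sdiff.mp hf).1
  refine ⟨ah_me (image_mf_HB0 a) h1, me y, ?_, ?_⟩
  · have := hS.rtg h2
    rwa [image_mf_sdiff] at this
  · refine exit_me hF hbel ?_ h3
    rcases ReflTransGen.cases_tail h2 with h4 | ⟨z, -, h4⟩
    · rw [h4]
      exact h1.mono hIM
    · exact (ah_right h4).mono Finset.sdiff_subset

theorem mirror_symm (h : ∀ f ∈ HB0 b, ω' (mf f) = !ω f) : ∀ f ∈ HB0 b, ω (mf f) = !ω' f := by
  intro f hf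
  have h1 : mf f ∈ HB0 b := by
    rw [← image_mf_HB0]
    exact Finset.mem_image_of_mem _ hf
  have h2 := h _ h1
  rw [mf_mf] at h2
  rw [h2, Bool.not_not]

theorem oneLeg_me (hab : a ≤ b) (hF : HB0 (b + 1) ⊆ F)
    (hbel : ∀ i : ℤ, -b ≤ i → i ≤ b → (i, -1) ∉ F) (h : ∀ f ∈ HB0 b, ω' (mf f) = !ω f)
    (hc : OneLeg ZQ ω F (HB0 a) (HB0 b)) : OneLeg ZQ ω' F (HB0 a) (HB0 b) := by
  intro e e' he he'
  have h1 := hc _ _ (leg_me hab hF hbel (mirror_symm h) he) (leg_me hab hF hbel (mirror_symm h) he')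
  rw [← me_me e, h1, me_me]

end Mirror

/-! ## Oddness -/

/-- the outer factor of the leg is stable (S4FF) -/
def OuterStable : Prop := ∀ (E : WEnv) (d : ℤ) (M : ℝ), WallAt E d M →
  ∀ (a b a' b' R : ℤ) (ω ω' : Cfg) (c c' : DZ), 1 ≤ a → a < b → b < a' → a' < b' → b' ≤ R → R ≤ d →
    (∀ f, f ∉ HB0 a' → ω' f = ω f) →
    OneLeg ZQ ω E.F (HB0 a) (HB0 b) → OneLeg ZQ ω' E.F (HB0 a) (HB0 b) →
    OneLeg ZQ ω E.F (HB0 a') (HB0 b') →
    (∃ k, Leg ZQ ω E.F (HB0 a) (HB0 b') k) → (∃ k, Leg ZQ ω' E.F (HB0 a) (HB0 b') k) →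
    Leg ZQ ω E.F (HB0 a) (HB0 b) c → Leg ZQ ω' E.F (HB0 a) (HB0 b) c' →
    E.num ω' c' = E.num ω c ∧ (Full R ω' c' ↔ Full R ω c)

/-- two configurations which are glued and mirror images inside have opposite column sums -/
theorem anti_of (hO : OuterStable) {E : WEnv} {d : ℤ} {M : ℝ} (hE : WallAt E d M)
    {r a b a' b' R y y' : ℤ} {ω ω' : Cfg} (hr : 1 ≤ r) (hra : r ≤ a) (hab : a < b) (hba : b < a')
    (hab' : a' < b') (hbR : b' ≤ R) (hRd : R ≤ d) (hy' : 0 ≤ y') (hyr : y ≤ r)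
    (hoff : ∀ f, f ∉ HB0 a' → ω' f = ω f) (hmir : ∀ f ∈ HB0 b, ω' (mf f) = !ω f)
    (h1 : OneLeg ZQ ω E.F (HB0 a) (HB0 b)) (h2 : OneLeg ZQ ω E.F (HB0 a') (HB0 b'))
    (hc : ∃ c, Leg ZQ ω E.F (HB0 a) (HB0 b) c)
    (hk : ∃ k, Leg ZQ ω E.F (HB0 a) (HB0 b') k) (hk' : ∃ k, Leg ZQ ω' E.F (HB0 a) (HB0 b') k) :
    gOut E R 0 y y' ω' + gOut E R 1 y y' ω' = -(gOut E R 0 y y' ω + gOut E R 1 y y' ω) := by
  obtain ⟨c, hc⟩ := hc
  have hd := hE.hd
  have hF : HB0 (R + 1) ⊆ E.F := (HB0_mono_sub (by omega)).trans hE.sub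
  have hFb : HB0 (b + 1) ⊆ E.F := (HB0_mono_sub (by omega)).trans hE.sub
  have hbel : ∀ i : ℤ, -b ≤ i → i ≤ b → (i, -1) ∉ E.F := fun i hi hi' =>
    hE.below i (by omega) (by omega)
  have h1' := oneLeg_me hab.le hFb hbel hmir h1
  have hc' := leg_me hab.le hFb hbel hmir hc
  obtain ⟨h3, h4⟩ := hO E d M hE a b a' b' R ω ω' c (me c) (by omega) hab hba hab' hbR hRd hoff h1
    h1' h2 hk hk' hc hc'
  have hg : gN E R ω' (me c) = gN E R ω c := by
    unfold gN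
    rw [h3]
    by_cases hf : Full R ω c
    · rw [if_pos hf, if_pos (h4.mpr hf)]
    · rw [if_neg hf, if_neg fun hh => hf (h4.mp hh)]
  have g0 := gOut_eq (x := 0) (y := y) (y' := y') hF (by omega) hab.le (by omega) le_rfl
    (by norm_num) hy' (by omega) h1 hc
  have g1 := gOut_eq (x := 1) (y := y) (y' := y') hF (by omega) hab.le (by omega) (by norm_num)
    le_rfl hy' (by omega) h1 hc
  have g0' := gOut_eq (x := 0) (y := y) (y' := y') hF (by omega) hab.le (by omega) le_rfl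
    (by norm_num) hy' (by omega) h1' hc'
  have g1' := gOut_eq (x := 1) (y := y) (y' := y') hF (by omega) hab.le (by omega) (by norm_num)
    le_rfl hy' (by omega) h1' hc'
  have m0 := sgC_mirror (x := 0) (y := y) (y' := y') (c := c) hmir
  have m1 := sgC_mirror (x := 1) (y := y) (y' := y') (c := c) hmir
  rw [sub_zero] at m0
  rw [sub_self] at m1
  rw [g0', g1', g0, g1, hg, m0, m1]
  ring

end

end Pool.Agent.SixB.LegG
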