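import Pool.Agent.Lib.SixB.S4W3a
import Pool.Agent.Lib.SixB.S4W3c
import Pool.Agent.Lib.SixB.S4WallAsm

/-!
# 6BD step 4: assembly of row W3

`sw3_of`: the statements `V3a`, `V3b`, `V4`, `V5`, `V5'`, `V6`, `V7`, `A2S` give `SW3`.
-/

set_option autoImplicit false

namespace Pool.Agent.SixB.W3

open Pool.Agent.SixB Pool.Agent.Perc Pool.Agent.PercD Pool.Agent.Perc.Q Pool.Agent.Perc6 Relation

noncomputable section

/-! ## The bias -/

/-- the bias of a function under the tilt -/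
def Bias (E : WEnv) (g : Cfg → ℝ) : ℝ := |av E.F (fun ω => g ω * E.W ω) - av E.F g * E.Z|

theorem bias_add (E : WEnv) (g h : Cfg → ℝ) :
    Bias E (fun ω => g ω + h ω) ≤ Bias E g + Bias E h := by
  unfold Bias
  have e1 : av E.F (fun ω => (g ω + h ω) * E.W ω) =
      av E.F (fun ω => g ω * E.W ω) + av E.F (fun ω => h ω * E.W ω) := by
    rw [← av_add]
    congr 1
    funext ω
    ring
  rw [e1, av_add]
  refine le_trans (le_of_eq ?_) (abs_add_le _ _)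
  congr 1
  ring

theorem bias_neg (E : WEnv) (g : Cfg → ℝ) : Bias E (fun ω => -g ω) = Bias E g := by
  unfold Bias
  have e1 : av E.F (fun ω => -g ω * E.W ω) = -av E.F (fun ω => g ω * E.W ω) := by
    rw [← av_neg]
    congr 1
    funext ω
    ring
  rw [e1, av_neg, ← abs_neg]
  congr 1
  ring

theorem bias_sub (E : WEnv) (g h : Cfg → ℝ) :
    Bias E (fun ω => g ω - h ω) ≤ Bias E g + Bias E h := by
  have := bias_add E g (fun ω => -h ω)
  rw [bias_neg] at this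
  simpa only [sub_eq_add_neg] using this

theorem bias_zero (E : WEnv) : Bias E (fun _ => 0) = 0 := by
  unfold Bias
  simp only [zero_mul]
  rw [av_const]
  simp

theorem bias_sum (E : WEnv) (n : ℕ) (g : ℕ → Cfg → ℝ) :
    Bias E (fun ω => ∑ i ∈ Finset.range n, g i ω) ≤ ∑ i ∈ Finset.range n, Bias E (g i) := by
  induction n with
  | zero => simp only [Finset.range_zero, Finset.sum_empty]; rw [bias_zero]
  | succ n ih =>
    simp only [Finset.sum_range_succ]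
    exact (bias_add E _ _).trans (add_le_add ih le_rfl)

theorem MZ_nonneg {E : WEnv} {d : ℤ} {M : ℝ} (hE : WallAt E d M) : 0 ≤ M * E.Z :=
  mul_nonneg (by linarith [hE.one_le]) hE.Zpos.le

/-! ## Probabilities of legs -/

theorem av_indP_eq (S : Finset (ℤ × ℤ)) (T : Cfg → Prop) : av S (indP T) = pr S {ω | T ω} := by
  classical
  rw [ProbA.pr_eq_sum]
  unfold av indP
  congr 1

theorem indP_le_one (T : Cfg → Prop) (ω : Cfg) : indP T ω ≤ 1 := by
  unfold indP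
  split_ifs <;> norm_num

theorem indP_mono {T T' : Cfg → Prop} (h : ∀ ω, T ω → T' ω) (ω : Cfg) : indP T ω ≤ indP T' ω := by
  unfold indP
  by_cases h1 : T ω
  · rw [if_pos h1, if_pos (h ω h1)]
  · rw [if_neg h1]
    split_ifs <;> norm_num

/-- two legs from `HB0 l` to distance `d` -/
def TwoL (E : WEnv) (l d : ℤ) (ω : Cfg) : Prop := ¬ Tilt.OneLeg ZQ ω E.F (HB0 l) (HB0 d)

theorem twoL_dep (E : WEnv) (l d : ℤ) :
    Dep ((HB0 d \ HB0 l : Finset (ℤ × ℤ)) : Set (ℤ × ℤ)) (TwoL E l d) := by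
  intro ω ω' h
  unfold TwoL
  rw [Tilt.oneLeg_congr (ω := ω) (ω' := ω') fun f hf => h f (by exact_mod_cast hf)]

theorem leg_prob (h3 : V3a) (h2 : A2S) : ∃ C : ℝ, 1 ≤ C ∧ ∀ (E : WEnv) (d : ℤ) (M : ℝ),
    WallAt E d M → ∀ l : ℤ, 1 ≤ l → l ≤ d → av E.F (indP (TwoL E l d)) ≤ C * ((l : ℝ) / d) ^ 2 := by
  obtain ⟨C₀, hC₀, h⟩ := h2
  refine ⟨4 * C₀ + 1, by linarith, fun E d M hE l hl hld => ?_⟩
  have hd : (0 : ℝ) < d := by exact_mod_cast (by omega : (0 : ℤ) < d)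
  have hl' : (1 : ℝ) ≤ l := by exact_mod_cast hl
  rcases eq_or_lt_of_le hld with rfl | hlt
  · rw [div_self hd.ne', one_pow, mul_one]
    refine (av_mono (g' := fun _ => 1) fun U _ => indP_le_one _ _).trans ?_
    rw [av_const]
    linarith
  · have e1 : av E.F (indP (TwoL E l d)) ≤
        av E.F (indP fun ω => 2 ≤ NF (HW 0 0) (0, 0) (l + 1) d ω) :=
      av_mono fun U _ => indP_mono (fun ω hω => h3 E.F l d ω (by omega) hlt hE.sub hE.below hω) _
    set W := E.F ∪ BR (0, 0) d with hW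
    have hdep : Dep (E.F : Set (ℤ × ℤ)) (indP fun ω => 2 ≤ NF (HW 0 0) (0, 0) (l + 1) d ω) := by
      refine (indP_dep ?_ : Dep (HB0 d : Set (ℤ × ℤ)) _).mono (by exact_mod_cast subd hE)
      intro ω ω' hω
      have h4 := S4W3c.dep_NF (l + 1) d ω ω' hω
      simp only [Nat.cast_inj] at h4
      simp only [h4]
    have e2 := av_dep hdep (Finset.subset_union_left : E.F ⊆ W)
    have e3 := h (l + 1) d W (by omega) (by omega) Finset.subset_union_right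
    rw [← e2] at e1
    refine e1.trans (((av_indP_eq _ _).le.trans e3).trans ?_)
    have h6 : (((l + 1 : ℤ) : ℝ) / d) ^ 2 ≤ 4 * ((l : ℝ) / d) ^ 2 := by
      rw [div_pow, div_pow, ← mul_div_assoc]
      refine div_le_div_of_nonneg_right ?_ (by positivity)
      push_cast
      nlinarith
    calc C₀ * (((l + 1 : ℤ) : ℝ) / d) ^ 2 ≤ C₀ * (4 * ((l : ℝ) / d) ^ 2) :=
          mul_le_mul_of_nonneg_left h6 hC₀.le
      _ ≤ (4 * C₀ + 1) * ((l : ℝ) / d) ^ 2 := by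
          have : 0 ≤ ((l : ℝ) / d) ^ 2 := sq_nonneg _
          nlinarith

/-- the bias of a function of the faces of `HB0 l` -/
theorem bias_leg {C : ℝ} (hC : ∀ (E : WEnv) (d : ℤ) (M : ℝ), WallAt E d M → ∀ l : ℤ, 1 ≤ l → l ≤ d →
    av E.F (indP (TwoL E l d)) ≤ C * ((l : ℝ) / d) ^ 2) {E : WEnv} {d : ℤ} {M : ℝ}
    (hE : WallAt E d M) {l : ℤ} (hl : 1 ≤ l) (hld : l ≤ d) {g : Cfg → ℝ}
    (hg : Dep (HB0 l : Set (ℤ × ℤ)) g) {B : ℝ} (hB : av E.F (fun ω => |g ω|) ≤ B) :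
    Bias E g ≤ 2 * C * B * (M * E.Z) * ((l : ℝ) / d) ^ 2 := by
  have h1 := v1 E d M hE (HB0 l) g (TwoL E l d) (HB0_mono hld) hg (twoL_dep E l d)
    fun ω ω' h1 h2 => v2a E d M hE l (HB0 l) (Finset.Subset.refl _) hld ω ω' (not_not.mp h1) h2
  have h2 := hC E d M hE l hl hld
  have hMZ := MZ_nonneg hE
  have ha : 0 ≤ av E.F (fun ω => |g ω|) := av_nonneg fun _ _ => abs_nonneg _
  have hT : 0 ≤ av E.F (indP (TwoL E l d)) := av_nonneg fun _ _ => indP_nonneg _ _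
  unfold Bias
  refine h1.trans ?_
  calc 2 * M * E.Z * av E.F (fun ω => |g ω|) * av E.F (indP (TwoL E l d))
      = 2 * (M * E.Z) * (av E.F (fun ω => |g ω|) * av E.F (indP (TwoL E l d))) := by ring
    _ ≤ 2 * (M * E.Z) * (B * (C * ((l : ℝ) / d) ^ 2)) := by
        refine mul_le_mul_of_nonneg_left ?_ (by linarith)
        exact mul_le_mul hB h2 hT (ha.trans hB)
    _ = _ := by ring

/-- a leg in the bulk and two legs at the wall -/
theorem bias_bulk (hV3b : V3b) {C₄ β : ℝ} (hV4 : ∀ (v : ℤ × ℤ) (s t : ℤ) (W : Finset (ℤ × ℤ)), 1 ≤ s →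
      s ≤ t → BR v t ⊆ W → pr W {ω | 1 ≤ NF Set.univ v s t ω} ≤ C₄ * ((s : ℝ) / t) ^ β)
    {C : ℝ} (hC : ∀ (E : WEnv) (d : ℤ) (M : ℝ), WallAt E d M → ∀ l : ℤ, 1 ≤ l → l ≤ d →
    av E.F (indP (TwoL E l d)) ≤ C * ((l : ℝ) / d) ^ 2) {E : WEnv} {d : ℤ} {M : ℝ}
    (hE : WallAt E d M) {l s t : ℤ} {v : ℤ × ℤ} (hs : 1 ≤ s) (hst : s < t) (hl : 1 ≤ l) (hld : l ≤ d)
    (htl : BR v t ⊆ HB0 l) (htv : t < v.2) {g : Cfg → ℝ}
    (hg : Dep (BR v s : Set (ℤ × ℤ)) g) {B : ℝ} (hB : av E.F (fun ω => |g ω|) ≤ B) :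
    Bias E g ≤ 2 * C * B * (M * E.Z) * ((l : ℝ) / d) ^ 2 * (C₄ * ((s : ℝ) / t) ^ β) := by
  set T1 : Cfg → Prop := fun ω => ¬ Tilt.NoLeg ZQ ω E.F (BR v s) (BR v t) with hT1
  have hvF : BR v t ⊆ E.F := htl.trans ((HB0_mono hld).trans (subd hE))
  have hst' : BR v s ⊆ BR v t := BR_mono hst.le
  have hT1d : Dep ((BR v t \ BR v s : Finset (ℤ × ℤ)) : Set (ℤ × ℤ)) T1 := by
    intro ω ω' h
    have h' : ∀ f ∈ BR v t \ BR v s, ω f = ω' f := fun f hf => h f (by exact_mod_cast hf)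
    simp only [hT1]
    rw [eq_iff_iff, not_iff_not]
    exact ⟨Tilt.NoLeg.congr h', Tilt.NoLeg.congr fun f hf => (h' f hf).symm⟩
  have hsub1 : BR v t \ BR v s ⊆ HB0 d \ BR v s := by
    intro f hf
    rw [Finset.mem_sdiff] at hf ⊢
    exact ⟨HB0_mono hld (htl hf.1), hf.2⟩
  have hsub2 : HB0 d \ HB0 l ⊆ HB0 d \ BR v s := by
    intro f hf
    rw [Finset.mem_sdiff] at hf ⊢
    exact ⟨hf.1, fun h => hf.2 (htl (hst' h))⟩
  have hTd : Dep ((HB0 d \ BR v s : Finset (ℤ × ℤ)) : Set (ℤ × ℤ))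
      (fun ω => T1 ω ∧ TwoL E l d ω) := by
    intro ω ω' h
    have e1 := hT1d ω ω' fun f hf => h f (by exact_mod_cast hsub1 (by exact_mod_cast hf))
    have e2 := twoL_dep E l d ω ω' fun f hf => h f (by exact_mod_cast hsub2 (by exact_mod_cast hf))
    simp only [e1, e2]
  have h1 := v1 E d M hE (BR v s) g (fun ω => T1 ω ∧ TwoL E l d ω)
    ((hst'.trans htl).trans (HB0_mono hld)) hg hTd fun ω ω' h1 h2 => by
      by_cases h3 : T1 ω
      · have h4 : ¬ TwoL E l d ω := fun h5 => h1 ⟨h3, h5⟩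
        exact v2a E d M hE l (BR v s) (hst'.trans htl) hld ω ω' (not_not.mp h4) h2
      · exact v2b E d M hE v s t (by omega) hst.le (htl.trans (HB0_mono hld)) htv ω ω'
          (not_not.mp h3) h2
  have hprod : av E.F (indP fun ω => T1 ω ∧ TwoL E l d ω) =
      av E.F (indP T1) * av E.F (indP (TwoL E l d)) := by
    have e1 : (indP fun ω => T1 ω ∧ TwoL E l d ω) = fun ω => indP T1 ω * indP (TwoL E l d) ω := by
      funext ω
      unfold indP
      by_cases h3 : T1 ω <;> by_cases h4 : TwoL E l d ω <;> simp [h3, h4]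
    rw [e1]
    refine av_indep' ?_ (indP_dep hT1d) (indP_dep (twoL_dep E l d))
      (Finset.sdiff_subset.trans hvF) (Finset.sdiff_subset.trans (subd hE))
    rw [Finset.disjoint_left]
    intro f hf hf'
    exact (Finset.mem_sdiff.mp hf').2 (htl (Finset.mem_sdiff.mp hf).1)
  have hP1 : av E.F (indP T1) ≤ C₄ * ((s : ℝ) / t) ^ β := by
    have e1 : av E.F (indP T1) ≤ av E.F (indP fun ω => 1 ≤ NF Set.univ v s t ω) :=
      av_mono fun U _ => indP_mono (fun ω hω => hV3b E.F v s t ω (by omega) hst hvF hω) _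
    exact e1.trans ((av_indP_eq _ _).le.trans (hV4 v s t E.F hs hst.le hvF))
  have hP2 := hC E d M hE l hl hld
  have hMZ := MZ_nonneg hE
  have ha : 0 ≤ av E.F (fun ω => |g ω|) := av_nonneg fun _ _ => abs_nonneg _
  have hT1' : 0 ≤ av E.F (indP T1) := av_nonneg fun _ _ => indP_nonneg _ _
  have hT2' : 0 ≤ av E.F (indP (TwoL E l d)) := av_nonneg fun _ _ => indP_nonneg _ _
  rw [hprod] at h1
  unfold Bias
  refine h1.trans ?_
  calc 2 * M * E.Z * av E.F (fun ω => |g ω|) * (av E.F (indP T1) * av E.F (indP (TwoL E l d)))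
      = 2 * (M * E.Z) * (av E.F (fun ω => |g ω|) *
          (av E.F (indP T1) * av E.F (indP (TwoL E l d)))) := by ring
    _ ≤ 2 * (M * E.Z) * (B * ((C₄ * ((s : ℝ) / t) ^ β) * (C * ((l : ℝ) / d) ^ 2))) := by
        refine mul_le_mul_of_nonneg_left ?_ (by linarith)
        refine mul_le_mul hB ?_ (mul_nonneg hT1' hT2') (ha.trans hB)
        exact mul_le_mul hP1 hP2 hT2' (hT1'.trans hP1)
    _ = _ := by ring

/-! ## Loops around an end point of the column -/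

theorem clS_dep (A : Finset (ℤ × ℤ)) (x y y' : ℤ) : Dep (A : Set (ℤ × ℤ)) (clS A x y y') := by
  classical
  intro ω ω' h
  have h' : ∀ f ∈ A, ω f = ω' f := fun f hf => h f (by exact_mod_cast hf)
  unfold clS
  refine Finset.sum_congr rfl fun j _ => ?_
  have h1 : Clo ZQ A ω (WEnv.pe x j) ↔ Clo ZQ A ω' (WEnv.pe x j) := clo_congr h'
  have h2 : trn ZQ A ω (WEnv.pe x j) = trn ZQ A ω' (WEnv.pe x j) := trn_congr h'
  simp only [h1, h2]

/-- a geometric sum -/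
theorem geom_le {q : ℝ} (hq0 : 0 ≤ q) (hq1 : q < 1) (m : ℕ) :
    ∑ k ∈ Finset.range m, q ^ (m - k) ≤ 1 / (1 - q) := by
  have e1 : ∑ k ∈ Finset.range m, q ^ (m - k) = ∑ i ∈ Finset.range m, q ^ (i + 1) := by
    rw [← Finset.sum_range_reflect]
    refine Finset.sum_congr rfl fun k hk => ?_
    rw [Finset.mem_range] at hk
    congr 1
    omega
  rw [e1]
  have e2 : ∑ i ∈ Finset.range m, q ^ (i + 1) ≤ ∑ i ∈ Finset.range m, q ^ i := by
    refine Finset.sum_le_sum fun i _ => ?_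
    rw [pow_succ]
    have := pow_nonneg hq0 i
    nlinarith
  refine e2.trans ?_
  rw [geom_sum_eq hq1.ne, ← neg_div_neg_eq, neg_sub, neg_sub]
  refine div_le_div_of_nonneg_right ?_ (by linarith)
  have := pow_nonneg hq0 m
  linarith

theorem bias_clS (hV3b : V3b) (hV4 : V4) (hV5 : V5) (hV5' : V5')
    {C : ℝ} (hC1 : 1 ≤ C) (hC : ∀ (E : WEnv) (d : ℤ) (M : ℝ), WallAt E d M → ∀ l : ℤ, 1 ≤ l → l ≤ d →
    av E.F (indP (TwoL E l d)) ≤ C * ((l : ℝ) / d) ^ 2) :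
    ∃ K : ℝ, 0 < K ∧ ∀ (E : WEnv) (d : ℤ) (M : ℝ), WallAt E d M → ∀ (r x y y' : ℤ) (v : ℤ × ℤ) (m : ℕ),
      (v = (x, y) ∨ v = (x, y')) → 0 ≤ x → x ≤ 1 → 1 ≤ r → r ≤ 4 * v.2 → v.2 ≤ 2 * r → 4 * r ≤ d →
      16 * 2 ^ m ≤ r → r ≤ 8 * (y - y') →
      Bias E (clS (BR v (2 ^ m)) x y y') ≤ K * (M * E.Z) * ((r : ℝ) / d) ^ 2 := by
  obtain ⟨C₄, β, hC₄, hβ, h4⟩ := hV4
  obtain ⟨C₅, hC₅, h5⟩ := hV5
  obtain ⟨C₆, hC₆, h6⟩ := hV5'
  set q : ℝ := (1 / 2 : ℝ) ^ β with hq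
  have hq0 : 0 ≤ q := by positivity
  have hq1 : q < 1 := Real.rpow_lt_one (by norm_num) (by norm_num) hβ
  have h1q : 0 < 1 / (1 - q) := by
    have : 0 < 1 - q := by linarith
    positivity
  refine ⟨32 * C * (C₆ + C₅ * C₄ * (1 / (1 - q))), by positivity, ?_⟩
  intro E d M hE r x y y' v m hv hx0 hx1 hr hrv hvr hrd hm hyy
  have hd : 1 ≤ d := hE.hd
  have hv1 : v.1 = x := by rcases hv with rfl | rfl <;> rfl
  have hMZ := MZ_nonneg hE
  have h2m : (1 : ℤ) ≤ 2 ^ m := one_le_pow₀ (by norm_num)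
  have hpow : ∀ k : ℕ, k ≤ m → (2 : ℤ) ^ k ≤ 2 ^ m := fun k hk => pow_le_pow_right₀ (by norm_num) hk
  have hBR : ∀ t : ℤ, t ≤ 2 ^ (m + 1) → BR v t ⊆ HB0 (4 * r) := by
    intro t ht f hf
    rw [pow_succ] at ht
    rw [mem_BR] at hf
    unfold HB0
    rw [← Finset.mem_coe, mem_RF']
    rw [hv1] at hf
    omega
  have hBRF : ∀ t : ℤ, t ≤ 2 ^ (m + 1) → BR v t ⊆ E.F := fun t ht =>
    (hBR t ht).trans ((HB0_mono hrd).trans (subd hE))
  -- the decomposition into scales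
  have hdec : ∀ n : ℕ, ∀ ω, clS (BR v (2 ^ n)) x y y' ω = clS (BR v 1) x y y' ω +
      ∑ k ∈ Finset.range n, (clS (BR v (2 ^ (k + 1))) x y y' ω - clS (BR v (2 ^ k)) x y y' ω) := by
    intro n ω
    induction n with
    | zero => simp
    | succ n ih =>
      rw [Finset.sum_range_succ]
      linarith
  have e0 : Bias E (clS (BR v (2 ^ m)) x y y') ≤ Bias E (clS (BR v 1) x y y') +
      ∑ k ∈ Finset.range m, Bias E (fun ω => clS (BR v (2 ^ (k + 1))) x y y' ω -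
        clS (BR v (2 ^ k)) x y y' ω) := by
    have h7 : clS (BR v (2 ^ m)) x y y' = fun ω => clS (BR v 1) x y y' ω +
      ∑ k ∈ Finset.range m, (clS (BR v (2 ^ (k + 1))) x y y' ω - clS (BR v (2 ^ k)) x y y' ω) :=
      funext (hdec m)
    rw [h7]
    exact (bias_add E _ _).trans (add_le_add le_rfl (bias_sum E m
      fun k ω => clS (BR v (2 ^ (k + 1))) x y y' ω - clS (BR v (2 ^ k)) x y y' ω))
  have h4r : (((4 * r : ℤ) : ℝ) / d) ^ 2 = 16 * ((r : ℝ) / d) ^ 2 := by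
    push_cast
    ring
  -- the first scale
  have e1 : Bias E (clS (BR v 1) x y y') ≤ 2 * C * C₆ * (M * E.Z) * (16 * ((r : ℝ) / d) ^ 2) := by
    rw [← h4r]
    refine bias_leg hC hE (by omega) hrd (((clS_dep _ x y y').mono ?_)) (h6 E.F x y y' v)
    have := hBR 1 (h2m.trans (by rw [pow_succ]; omega))
    exact_mod_cast this
  -- the other scales
  have e2 : ∀ k ∈ Finset.range m, Bias E (fun ω => clS (BR v (2 ^ (k + 1))) x y y' ω -
      clS (BR v (2 ^ k)) x y y' ω) ≤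
      2 * C * C₅ * (M * E.Z) * (16 * ((r : ℝ) / d) ^ 2) * (C₄ * q ^ (m - k)) := by
    intro k hk
    rw [Finset.mem_range] at hk
    have hk1 : (2 : ℤ) ^ (k + 1) ≤ 2 ^ m := hpow (k + 1) hk
    have hk0 : (1 : ℤ) ≤ 2 ^ k := one_le_pow₀ (by norm_num)
    have hkk : (2 : ℤ) ^ (k + 1) = 2 * 2 ^ k := by rw [pow_succ]; ring
    have hmm : (2 : ℤ) ^ (m + 1) = 2 * 2 ^ m := by rw [pow_succ]; ring
    have hqk : (((2 : ℤ) ^ (k + 1) : ℤ) : ℝ) / (((2 : ℤ) ^ (m + 1) : ℤ) : ℝ) = (1 / 2 : ℝ) ^ (m - k) := by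
      push_cast
      have h7 : (2 : ℝ) ^ (m + 1) = 2 ^ (k + 1) * 2 ^ (m - k) := by
        rw [← pow_add]
        congr 1
        omega
      have h8 : (2 : ℝ) ^ (k + 1) ≠ 0 := by positivity
      have h9 : (2 : ℝ) ^ (m - k) ≠ 0 := by positivity
      rw [h7, one_div, inv_pow, div_mul_eq_div_div, div_self h8, one_div]
    have hq' : ((1 / 2 : ℝ) ^ (m - k)) ^ β = q ^ (m - k) := by
      rw [hq, ← Real.rpow_natCast, ← Real.rpow_mul (by norm_num), mul_comm,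
        Real.rpow_mul (by norm_num), Real.rpow_natCast]
    rw [← h4r, ← hq', ← hqk]
    refine bias_bulk hV3b h4 hC hE (l := 4 * r) (s := 2 ^ (k + 1)) (t := 2 ^ (m + 1)) (v := v)
      (by omega) (by omega) (by omega) hrd (hBR _ le_rfl) (by omega) ?_ ?_
    · intro ω ω' h
      have h7 := clS_dep (BR v (2 ^ (k + 1))) x y y' ω ω' h
      have hsub : BR v (2 ^ k) ⊆ BR v (2 ^ (k + 1)) := BR_mono (by rw [hkk]; omega)
      have h8 := ((clS_dep (BR v (2 ^ k)) x y y').mono (Finset.coe_subset.mpr hsub)) ω ω' h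
      simp only [h7, h8]
    · have h7 := h5 E.F x y y' (2 ^ k) v hv hk0 (by omega) (by rw [← hkk]; exact hBRF _ (by omega))
      rw [hkk]
      exact h7
  calc Bias E (clS (BR v (2 ^ m)) x y y')
      ≤ 2 * C * C₆ * (M * E.Z) * (16 * ((r : ℝ) / d) ^ 2) + ∑ k ∈ Finset.range m,
        2 * C * C₅ * (M * E.Z) * (16 * ((r : ℝ) / d) ^ 2) * (C₄ * q ^ (m - k)) :=
        e0.trans (add_le_add e1 (Finset.sum_le_sum e2))
    _ = 2 * C * C₆ * (M * E.Z) * (16 * ((r : ℝ) / d) ^ 2) +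
        2 * C * C₅ * (M * E.Z) * (16 * ((r : ℝ) / d) ^ 2) * (C₄ *
          ∑ k ∈ Finset.range m, q ^ (m - k)) := by
        rw [Finset.mul_sum, Finset.mul_sum]
    _ ≤ 2 * C * C₆ * (M * E.Z) * (16 * ((r : ℝ) / d) ^ 2) +
        2 * C * C₅ * (M * E.Z) * (16 * ((r : ℝ) / d) ^ 2) * (C₄ * (1 / (1 - q))) := by
        refine add_le_add le_rfl (mul_le_mul_of_nonneg_left
          (mul_le_mul_of_nonneg_left (geom_le hq0 hq1 m) hC₄.le) (by positivity))
    _ = _ := by ring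

/-! ## Strands of scale `r` -/

theorem exists_pow_scale {r : ℤ} (hr : 16 ≤ r) : ∃ m : ℕ, 16 * 2 ^ m ≤ r ∧ r ≤ 64 * 2 ^ m := by
  obtain ⟨m, h1, h2⟩ := exists_nat_pow_near (x := r / 16) (y := (2 : ℤ)) (by omega) (by norm_num)
  refine ⟨m, by omega, ?_⟩
  rw [pow_succ] at h2
  omega

theorem bias_mid (hV6 : V6) {C K : ℝ} (hC1 : 1 ≤ C)
    (hC : ∀ (E : WEnv) (d : ℤ) (M : ℝ), WallAt E d M → ∀ l : ℤ, 1 ≤ l → l ≤ d →
      av E.F (indP (TwoL E l d)) ≤ C * ((l : ℝ) / d) ^ 2)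
    (hK0 : 0 < K) (hK : ∀ (E : WEnv) (d : ℤ) (M : ℝ), WallAt E d M →
      ∀ (r x y y' : ℤ) (v : ℤ × ℤ) (m : ℕ),
      (v = (x, y) ∨ v = (x, y')) → 0 ≤ x → x ≤ 1 → 1 ≤ r → r ≤ 4 * v.2 → v.2 ≤ 2 * r → 4 * r ≤ d →
      16 * 2 ^ m ≤ r → r ≤ 8 * (y - y') →
      Bias E (clS (BR v (2 ^ m)) x y y') ≤ K * (M * E.Z) * ((r : ℝ) / d) ^ 2) :
    ∃ K' : ℝ, 0 < K' ∧ ∀ (E : WEnv) (d : ℤ) (M : ℝ), WallAt E d M → ∀ (r x y y' : ℤ),
      0 ≤ x → x ≤ 1 → 64 ≤ r → r ≤ 4 * y' → y ≤ 2 * r → r ≤ 8 * (y - y') → 4 * r ≤ d →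
      Bias E (fIn (4 * r) x y y') ≤ K' * (M * E.Z) * ((r : ℝ) / d) ^ 2 := by
  obtain ⟨C₆, hC₆, h6⟩ := hV6
  refine ⟨32 * C * C₆ + 2 * K, by positivity, ?_⟩
  intro E d M hE r x y y' hx0 hx1 hr hry hyr hyy hrd
  obtain ⟨m, hm1, hm2⟩ := exists_pow_scale (by omega : 16 ≤ r)
  have h2m : (1 : ℤ) ≤ 2 ^ m := one_le_pow₀ (by norm_num)
  have hMZ := MZ_nonneg hE
  have hBR : ∀ h : ℤ, r ≤ 4 * h → h ≤ 2 * r → BR (x, h) (2 ^ m) ⊆ HB0 (4 * r) := by
    intro h h1 h2 f hf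
    rw [mem_BR] at hf
    unfold HB0
    rw [← Finset.mem_coe, mem_RF']
    simp only at hf
    omega
  set g : Cfg → ℝ := fun ω => fIn (4 * r) x y y' ω - clS (BR (x, y) (2 ^ m)) x y y' ω -
    clS (BR (x, y') (2 ^ m)) x y y' ω with hg
  have hgd : Dep (HB0 (4 * r) : Set (ℤ × ℤ)) g := by
    intro ω ω' h
    have e1 := dep_fIn (4 * r) x y y' ω ω' h
    have e2 := ((clS_dep (BR (x, y) (2 ^ m)) x y y').mono
      (Finset.coe_subset.mpr (hBR y (by omega) hyr))) ω ω' h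
    have e3 := ((clS_dep (BR (x, y') (2 ^ m)) x y y').mono
      (Finset.coe_subset.mpr (hBR y' hry (by omega)))) ω ω' h
    simp only [hg, e1, e2, e3]
  have hgB := h6 E.F x y y' r (2 ^ m) hx0 hx1 hr hry hyr hyy hm2 hm1
    ((HB0_mono hrd).trans (subd hE))
  have e1 := bias_leg hC hE (by omega : 1 ≤ 4 * r) hrd hgd hgB
  have e2 := hK E d M hE r x y y' (x, y) m (Or.inl rfl) hx0 hx1 (by omega) (by simp only; omega)
    (by simp only; omega) hrd hm1 hyy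
  have e3 := hK E d M hE r x y y' (x, y') m (Or.inr rfl) hx0 hx1 (by omega) (by simp only; omega)
    (by simp only; omega) hrd hm1 hyy
  have h4r : (((4 * r : ℤ) : ℝ) / d) ^ 2 = 16 * ((r : ℝ) / d) ^ 2 := by
    push_cast
    ring
  rw [h4r] at e1
  have e4 : fIn (4 * r) x y y' = fun ω => (g ω + clS (BR (x, y) (2 ^ m)) x y y' ω) +
      clS (BR (x, y') (2 ^ m)) x y y' ω := by
    funext ω
    simp only [hg]
    ring
  rw [e4]
  calc Bias E (fun ω => (g ω + clS (BR (x, y) (2 ^ m)) x y y' ω) +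
        clS (BR (x, y') (2 ^ m)) x y y' ω)
      ≤ (Bias E g + Bias E (clS (BR (x, y) (2 ^ m)) x y y')) +
        Bias E (clS (BR (x, y') (2 ^ m)) x y y') :=
        (bias_add E (fun ω => g ω + clS (BR (x, y) (2 ^ m)) x y y' ω) _).trans
          (add_le_add (bias_add E _ _) le_rfl)
    _ ≤ (2 * C * C₆ * (M * E.Z) * (16 * ((r : ℝ) / d) ^ 2) + K * (M * E.Z) * ((r : ℝ) / d) ^ 2) +
        K * (M * E.Z) * ((r : ℝ) / d) ^ 2 := add_le_add (add_le_add e1 e2) e3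
    _ = _ := by ring

theorem abs_fIn_triv {R x y y' : ℤ} (hR : 1 ≤ R) (hyy : y' ≤ y) (ω : Cfg) :
    |fIn R x y y' ω| ≤ Real.sqrt 3 * ((y : ℝ) - y') := by
  classical
  unfold fIn
  refine (Finset.abs_sum_le_sum_abs _ _).trans ((Finset.sum_le_card_nsmul _ _ (Real.sqrt 3)
    fun j _ => ?_).trans (le_of_eq ?_))
  · split_ifs with h
    · exact S4W3c.abs_natA hR h
    · rw [abs_zero]
      exact Real.sqrt_nonneg _
  · rw [Int.card_Ico, nsmul_eq_mul, mul_comm]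
    congr 1
    have : (((y - y').toNat : ℤ) : ℝ) = ((y - y' : ℤ) : ℝ) := by rw [Int.toNat_of_nonneg (by omega)]
    rw [← Int.cast_natCast, this]
    push_cast
    ring

theorem fIn_split (R x : ℤ) {y y' y'' : ℤ} (h1 : y' ≤ y) (h2 : y ≤ y'') (ω : Cfg) :
    fIn R x y'' y' ω = fIn R x y y' ω + fIn R x y'' y ω := by
  classical
  unfold fIn
  rw [← Finset.sum_union]
  · congr 1
    ext k
    rw [Finset.mem_union, Finset.mem_Ico, Finset.mem_Ico, Finset.mem_Ico]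
    omega
  · rw [Finset.disjoint_left]
    intro k hk hk'
    rw [Finset.mem_Ico] at hk hk'
    omega

theorem bias_4r {C K : ℝ} (hC1 : 1 ≤ C)
    (hC : ∀ (E : WEnv) (d : ℤ) (M : ℝ), WallAt E d M → ∀ l : ℤ, 1 ≤ l → l ≤ d →
      av E.F (indP (TwoL E l d)) ≤ C * ((l : ℝ) / d) ^ 2)
    (hK0 : 0 < K) (hK : ∀ (E : WEnv) (d : ℤ) (M : ℝ), WallAt E d M → ∀ (r x y y' : ℤ),
      0 ≤ x → x ≤ 1 → 64 ≤ r → r ≤ 4 * y' → y ≤ 2 * r → r ≤ 8 * (y - y') → 4 * r ≤ d →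
      Bias E (fIn (4 * r) x y y') ≤ K * (M * E.Z) * ((r : ℝ) / d) ^ 2) :
    ∃ K' : ℝ, 0 < K' ∧ ∀ (E : WEnv) (d : ℤ) (M : ℝ), WallAt E d M → ∀ (r x y y' : ℤ),
      0 ≤ x → x ≤ 1 → 1 ≤ r → r ≤ 4 * y' → y' ≤ y → y ≤ r → 4 * r ≤ d →
      Bias E (fIn (4 * r) x y y') ≤ K' * (M * E.Z) * ((r : ℝ) / d) ^ 2 := by
  have hs3 : Real.sqrt 3 ≤ 2 := by
    rw [show (2 : ℝ) = Real.sqrt 4 by
      rw [show (4 : ℝ) = 2 ^ 2 by norm_num, Real.sqrt_sq (by norm_num)]]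
    exact Real.sqrt_le_sqrt (by norm_num)
  refine ⟨2 * K + 2 * C * 128 * 16, by positivity, ?_⟩
  intro E d M hE r x y y' hx0 hx1 hr hry hyy hyr hrd
  have hMZ := MZ_nonneg hE
  have hq : 0 ≤ (M * E.Z) * ((r : ℝ) / d) ^ 2 := mul_nonneg hMZ (sq_nonneg _)
  have h4r : (((4 * r : ℤ) : ℝ) / d) ^ 2 = 16 * ((r : ℝ) / d) ^ 2 := by
    push_cast
    ring
  by_cases hr64 : r < 64
  · have hB : av E.F (fun ω => |fIn (4 * r) x y y' ω|) ≤ 128 := by
      refine (av_mono (g' := fun _ => 128) fun U _ => ?_).trans (le_of_eq (av_const _))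
      refine (abs_fIn_triv (by omega) hyy _).trans ?_
      have h1 : (y : ℝ) - y' ≤ 64 := by
        have : y - y' ≤ 64 := by omega
        exact_mod_cast this
      have h2 : (0 : ℝ) ≤ (y : ℝ) - y' := by
        have : (y' : ℝ) ≤ y := by exact_mod_cast hyy
        linarith
      nlinarith [Real.sqrt_nonneg 3]
    have e1 := bias_leg hC hE (by omega : 1 ≤ 4 * r) hrd (dep_fIn (4 * r) x y y') hB
    rw [h4r] at e1
    refine e1.trans ?_
    nlinarith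
  · have h64 : 64 ≤ r := by omega
    set y'' := y + (r + 7) / 8 with hy''
    have e1 := hK E d M hE r x y'' y' hx0 hx1 h64 hry (by omega) (by omega) hrd
    have e2 := hK E d M hE r x y'' y hx0 hx1 h64 (by omega) (by omega) (by omega) hrd
    have e3 : fIn (4 * r) x y y' = fun ω => fIn (4 * r) x y'' y' ω - fIn (4 * r) x y'' y ω := by
      funext ω
      rw [fIn_split (4 * r) x hyy (by omega : y ≤ y'') ω]
      ring
    rw [e3]
    refine (bias_sub E _ _).trans ((add_le_add e1 e2).trans ?_)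
    nlinarith

/-! ## Dyadic scales between `r` and `R` -/

theorem bias_diff {C C₇ : ℝ} (hC1 : 1 ≤ C)
    (hC : ∀ (E : WEnv) (d : ℤ) (M : ℝ), WallAt E d M → ∀ l : ℤ, 1 ≤ l → l ≤ d →
      av E.F (indP (TwoL E l d)) ≤ C * ((l : ℝ) / d) ^ 2)
    (hC₇ : 0 < C₇) (h7 : ∀ (S : Finset (ℤ × ℤ)) (x y y' r R R' : ℤ), 0 ≤ x → x ≤ 1 → 1 ≤ r →
      0 ≤ y' → y' ≤ y → y ≤ r → 2 * r ≤ R → R ≤ R' → R' ≤ 2 * R → HB0 R' ⊆ S →
      av S (fun ω => |fIn R' x y y' ω - fIn R x y y' ω|) ≤ C₇ * ((r : ℝ) / R))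
    {E : WEnv} {d : ℤ} {M : ℝ} (hE : WallAt E d M) {x y y' r R R' : ℤ} (hx0 : 0 ≤ x) (hx1 : x ≤ 1)
    (hr : 1 ≤ r) (hy0 : 0 ≤ y') (hyy : y' ≤ y) (hyr : y ≤ r) (hrR : 2 * r ≤ R) (hRR : R ≤ R')
    (hR2 : R' ≤ 2 * R) (hRd : R' ≤ d) :
    Bias E (fun ω => fIn R' x y y' ω - fIn R x y y' ω) ≤
      8 * C * C₇ * (M * E.Z) * ((r : ℝ) * R / d ^ 2) := by
  have hMZ := MZ_nonneg hE
  have hd : (0 : ℝ) < d := by
    have := hE.hd
    exact_mod_cast (by omega : (0 : ℤ) < d)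
  have hRpos : (0 : ℝ) < R := by exact_mod_cast (by omega : (0 : ℤ) < R)
  have hrpos : (0 : ℝ) < r := by exact_mod_cast (by omega : (0 : ℤ) < r)
  have hB := h7 E.F x y y' r R R' hx0 hx1 hr hy0 hyy hyr hrR hRR hR2 ((HB0_mono hRd).trans (subd hE))
  have hdep : Dep (HB0 R' : Set (ℤ × ℤ)) (fun ω => fIn R' x y y' ω - fIn R x y y' ω) := by
    intro ω ω' h
    have e1 := dep_fIn R' x y y' ω ω' h
    have e2 := ((dep_fIn R x y y').mono (Finset.coe_subset.mpr (HB0_mono hRR))) ω ω' h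
    simp only [e1, e2]
  have e1 := bias_leg hC hE (by omega : 1 ≤ R') hRd hdep hB
  refine e1.trans ?_
  have h1 : ((R' : ℝ) / d) ^ 2 ≤ 4 * ((R : ℝ) / d) ^ 2 := by
    rw [div_pow, div_pow, ← mul_div_assoc]
    refine div_le_div_of_nonneg_right ?_ (by positivity)
    have h2 : (R' : ℝ) ≤ 2 * R := by exact_mod_cast hR2
    have h3 : (0 : ℝ) ≤ R' := by exact_mod_cast (by omega : (0 : ℤ) ≤ R')
    nlinarith
  calc 2 * C * (C₇ * ((r : ℝ) / R)) * (M * E.Z) * ((R' : ℝ) / d) ^ 2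
      ≤ 2 * C * (C₇ * ((r : ℝ) / R)) * (M * E.Z) * (4 * ((R : ℝ) / d) ^ 2) :=
        mul_le_mul_of_nonneg_left h1 (by positivity)
    _ = 8 * C * C₇ * (M * E.Z) * ((r : ℝ) * R / d ^ 2) := by
        field_simp
        ring

/-- **Row W3.** -/
theorem sw3_of (hV3a : V3a) (hV3b : V3b) (hV4 : V4) (hV5 : V5) (hV5' : V5') (hV6 : V6) (hV7 : V7)
    (hA2 : A2S) : SW3 := by
  obtain ⟨C, hC1, hC⟩ := leg_prob hV3a hA2
  obtain ⟨K₁, hK₁, h1⟩ := bias_clS hV3b hV4 hV5 hV5' hC1 hC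
  obtain ⟨K₂, hK₂, h2⟩ := bias_mid hV6 hC1 hC hK₁ h1
  obtain ⟨K₃, hK₃, h3⟩ := bias_4r hC1 hC hK₂ h2
  obtain ⟨C₇, hC₇, h7⟩ := hV7
  refine ⟨K₃ + 24 * C * C₇, by positivity, ?_⟩
  intro E d M hE R r x y y' hr hx0 hx1 hyy hry hyr hrR hRd
  have hMZ := MZ_nonneg hE
  have hd0 := hE.hd
  have hd : (0 : ℝ) < d := by exact_mod_cast (by omega : (0 : ℤ) < d)
  have hrp : (1 : ℝ) ≤ r := by exact_mod_cast hr
  have hrR' : (r : ℝ) ≤ R := by exact_mod_cast (by omega : r ≤ R)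
  have hrR0 : (0 : ℝ) ≤ (r : ℝ) * R / d ^ 2 :=
    div_nonneg (mul_nonneg (by linarith) (by linarith)) (sq_nonneg _)
  have e0 := h3 E d M hE r x y y' hx0 hx1 hr hry hyy hyr (by omega)
  have e0' : Bias E (fIn (4 * r) x y y') ≤ K₃ * (M * E.Z) * ((r : ℝ) * R / d ^ 2) := by
    refine e0.trans (mul_le_mul_of_nonneg_left ?_ (by positivity))
    rw [div_pow]
    refine div_le_div_of_nonneg_right ?_ (by positivity)
    nlinarith
  have hy0 : 0 ≤ y' := by omega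
  have hgoal : Bias E (fIn R x y y') ≤ (K₃ + 24 * C * C₇) * (M * E.Z) * ((r : ℝ) * R / d ^ 2) := by
    by_cases h4 : R < 4 * r
    · have e1 := bias_diff hC1 hC hC₇ h7 hE (R := R) (R' := 4 * r) hx0 hx1 hr hy0 hyy hyr hrR
        (by omega) (by omega) (by omega)
      have e2 : fIn R x y y' = fun ω => fIn (4 * r) x y y' ω -
          (fIn (4 * r) x y y' ω - fIn R x y y' ω) := by
        funext ω
        ring
      rw [e2]
      refine (bias_sub E _ _).trans ((add_le_add e0' e1).trans ?_)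
      have : 0 ≤ C * C₇ * (M * E.Z) * ((r : ℝ) * R / d ^ 2) := mul_nonneg (by positivity) hrR0
      linarith
    · -- dyadic scales
      have hstep : ∀ n : ℕ, 4 * r * 2 ^ n ≤ d →
          Bias E (fun ω => fIn (4 * r * 2 ^ n) x y y' ω - fIn (4 * r) x y y' ω) ≤
            8 * C * C₇ * (M * E.Z) * ((r : ℝ) * (4 * r * 2 ^ n) / d ^ 2) := by
        intro n
        induction n with
        | zero =>
          intro _
          have : (fun ω => fIn (4 * r * 2 ^ 0) x y y' ω - fIn (4 * r) x y y' ω) = fun _ => (0 : ℝ) := by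
            funext ω
            simp
          rw [this, bias_zero]
          positivity
        | succ n ih =>
          intro hn
          have h5 : (4 * r * 2 ^ (n + 1) : ℤ) = 2 * (4 * r * 2 ^ n) := by rw [pow_succ]; ring
          have h6 : (1 : ℤ) ≤ 2 ^ n := one_le_pow₀ (by norm_num)
          have h8 : 4 * r ≤ 4 * r * 2 ^ n := le_mul_of_one_le_right (by omega) h6
          have e1 := ih (by omega)
          have e2 := bias_diff hC1 hC hC₇ h7 hE (R := 4 * r * 2 ^ n) (R' := 4 * r * 2 ^ (n + 1))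
            hx0 hx1 hr hy0 hyy hyr (by omega) (by omega) (by omega) hn
          have e3 : (fun ω => fIn (4 * r * 2 ^ (n + 1)) x y y' ω - fIn (4 * r) x y y' ω) =
              fun ω => (fIn (4 * r * 2 ^ (n + 1)) x y y' ω - fIn (4 * r * 2 ^ n) x y y' ω) +
                (fIn (4 * r * 2 ^ n) x y y' ω - fIn (4 * r) x y y' ω) := by
            funext ω
            ring
          rw [e3]
          refine (bias_add E _ _).trans ((add_le_add e2 e1).trans (le_of_eq ?_))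
          push_cast
          rw [pow_succ]
          ring
      obtain ⟨n, hn1, hn2⟩ := exists_nat_pow_near (x := R / (4 * r)) (y := (2 : ℤ))
        (by rw [Int.le_ediv_iff_mul_le (by omega)]; omega) (by norm_num)
      have hn1' : 4 * r * 2 ^ n ≤ R := by
        have := (Int.le_ediv_iff_mul_le (by omega : (0 : ℤ) < 4 * r)).mp hn1
        linarith
      have hn2' : R < 2 * (4 * r * 2 ^ n) := by
        have := (Int.ediv_lt_iff_lt_mul (by omega : (0 : ℤ) < 4 * r)).mp hn2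
        rw [pow_succ] at this
        linarith
      have h6 : (1 : ℤ) ≤ 2 ^ n := one_le_pow₀ (by norm_num)
      have h8 : 4 * r ≤ 4 * r * 2 ^ n := le_mul_of_one_le_right (by omega) h6
      have e1 := hstep n (by omega)
      have e2 := bias_diff hC1 hC hC₇ h7 hE (R := 4 * r * 2 ^ n) (R' := R)
        hx0 hx1 hr hy0 hyy hyr (by omega) hn1' hn2'.le (by omega)
      have e3 : fIn R x y y' = fun ω => (fIn R x y y' ω - fIn (4 * r * 2 ^ n) x y y' ω) +
          ((fIn (4 * r * 2 ^ n) x y y' ω - fIn (4 * r) x y y' ω) + fIn (4 * r) x y y' ω) := by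
        funext ω
        ring
      have h9 : (4 * (r : ℝ) * 2 ^ n) ≤ R := by exact_mod_cast hn1'
      have h10 : (r : ℝ) * (4 * r * 2 ^ n) / d ^ 2 ≤ (r : ℝ) * R / d ^ 2 := by
        refine div_le_div_of_nonneg_right ?_ (by positivity)
        nlinarith
      have e1' := e1.trans (mul_le_mul_of_nonneg_left h10
        (by positivity : 0 ≤ 8 * C * C₇ * (M * E.Z)))
      have e2' : Bias E (fun ω => fIn R x y y' ω - fIn (4 * r * 2 ^ n) x y y' ω) ≤
          8 * C * C₇ * (M * E.Z) * ((r : ℝ) * R / d ^ 2) := by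
        refine e2.trans (mul_le_mul_of_nonneg_left ?_ (by positivity))
        push_cast
        exact h10
      rw [e3]
      refine (bias_add E _ _).trans ((add_le_add e2' ((bias_add E _ _).trans
        (add_le_add e1' e0'))).trans ?_)
      have : 0 ≤ C * C₇ * (M * E.Z) * ((r : ℝ) * R / d ^ 2) := mul_nonneg (by positivity) hrR0
      linarith
  unfold Bias at hgoal
  refine hgoal.trans (le_of_eq ?_)
  ring

end

end Pool.Agent.SixB.W3
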