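import Pool.Agent.Lib.SixB.S6GDefs
import Pool.Agent.Lib.SixB.S3Cross

/-!
# 6BD block CA, rows S6G: far strands

* `rowFar : RowCount → RowFar`: the strands which are not contained in `BR v R` and separate two vertices which
  are joined in `F ∩ BR v s`.
* `rowCount : RowCount`, `rowNoLeg : RowNoLeg`.
* `rowSame : RowSame`: the local functional depends only on the arcs with both ends in the box.
-/

set_option autoImplicit false

namespace Pool.Agent.SixB.GG

open Pool.Agent.Perc Pool.Agent.Perc.Q Pool.Agent.PercD Pool.Agent.PercN Tilt HG Relation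

noncomputable section

theorem rowFar (hC : RowCount) : RowFar := by
  classical
  intro E v s R z z' H ω hP hH hs hsR hz hnum
  let S : Finset (Finset (Finset DZ)) := (ust ZQ E.F ω \ uIn ZQ E.F (BR v R) ω).filter fun U =>
    lft ZQ E.F (rep U) z ≠ lft ZQ E.F (rep U) z'
  have hsub : (E.F ∩ BR v s : Finset (ℤ × ℤ)) ⊆ E.F := Finset.inter_subset_left
  -- an edge of the strand in the small box
  have hvis : ∀ U ∈ S, ∃ a ∈ dE ZQ (E.F ∩ BR v s), a ∈ rep U ∨ a.swap ∈ rep U := by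
    intro U hU
    obtain ⟨h1, h2⟩ := Finset.mem_filter.mp hU
    exact (lft_spec hP (rep_dstr (Finset.mem_sdiff.mp h1).1)).visits hsub hz h2
  have hcard : S.card ≤ NF (E.F : Set (ℤ × ℤ)) v s R ω := by
    refine hC E.F v s R ω S (by omega) hsR ?_ ?_
    · intro U hU
      exact (Finset.mem_sdiff.mp (Finset.mem_filter.mp hU).1).1
    · intro U hU
      obtain ⟨h1, h2⟩ := Finset.mem_filter.mp hU
      obtain ⟨h3, h4⟩ := Finset.mem_sdiff.mp h1
      refine ⟨?_, fun h5 => h4 (mem_uIn.mpr ⟨h3, h5⟩)⟩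
      obtain ⟨a, ha, h5⟩ := hvis U hU
      rcases mem_dE_ah.mp ha with ⟨f, hf, k, h6⟩ | ⟨f, hf, k, h6⟩
      · obtain ⟨h7, h8⟩ := Finset.mem_inter.mp hf
        exact ⟨f, h7, h8, k, by rw [← h6]; exact h5⟩
      · obtain ⟨h7, h8⟩ := Finset.mem_inter.mp hf
        exact ⟨f, h7, h8, k, by rw [← h6, Prod.swap_swap]; exact h5.symm⟩
  have hterm : ∀ U ∈ ust ZQ E.F ω \ uIn ZQ E.F (BR v R) ω,
      |((lft ZQ E.F (rep U) z - lft ZQ E.F (rep U) z' : ℤ) : ℝ) * onX (E.num ω) (rep U)| ≤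
        if U ∈ S then H else 0 := by
    intro U hU
    have hUu := (Finset.mem_sdiff.mp hU).1
    have hd := rep_dstr hUu
    by_cases hne : lft ZQ E.F (rep U) z = lft ZQ E.F (rep U) z'
    · rw [hne, sub_self, Int.cast_zero, zero_mul, abs_zero]
      split_ifs
      · exact hH
      · exact le_refl _
    · have hUS : U ∈ S := Finset.mem_filter.mpr ⟨hU, hne⟩
      rw [if_pos hUS, abs_mul]
      have h1 : |((lft ZQ E.F (rep U) z - lft ZQ E.F (rep U) z' : ℤ) : ℝ)| ≤ 1 := by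
        have := (lft_spec hP hd).abs_le z z'
        exact_mod_cast this
      obtain ⟨a, ha, h5⟩ := hvis U hUS
      have haF : a ∈ dE ZQ E.F := dE_mono hsub ha
      have h2 : |onX (E.num ω) (rep U)| ≤ H := by
        rcases h5 with h5 | h5
        · rw [onX_eq (fun a b h => num_srel E h) hd h5]
          exact hnum a ha
        · rw [onX_eq (fun a b h => num_srel E h) hd h5, num_swap E haF, abs_neg]
          exact hnum a ha
      calc |((lft ZQ E.F (rep U) z - lft ZQ E.F (rep U) z' : ℤ) : ℝ)| * |onX (E.num ω) (rep U)|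
          ≤ 1 * H := mul_le_mul h1 h2 (abs_nonneg _) zero_le_one
        _ = H := one_mul H
  unfold far
  refine (Finset.abs_sum_le_sum_abs _ _).trans ((Finset.sum_le_sum hterm).trans ?_)
  rw [← Finset.sum_filter, Finset.sum_const, nsmul_eq_mul, mul_comm]
  refine mul_le_mul_of_nonneg_left ?_ hH
  have h1 : ((ust ZQ E.F ω \ uIn ZQ E.F (BR v R) ω).filter fun U => U ∈ S) ⊆ S := fun U hU =>
    (Finset.mem_filter.mp hU).2
  exact_mod_cast (Finset.card_le_card h1).trans hcard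

theorem rowSame : RowSame := by
  intro E E' B z z' ω hF h
  have hkap : ∀ U ∈ uIn ZQ E.F B ω, onX (kap E' ω) (rep U) = onX (kap E ω) (rep U) := by
    intro U hU
    obtain ⟨h1, h2⟩ := mem_uIn.mp hU
    have hd := rep_dstr h1
    obtain ⟨c, hc, h3⟩ := mem_dstr.mp hd
    have hcX : c ∈ rep U := h3 ▸ self_mem_dst hc
    have hd' : rep U ∈ dstr ZQ E'.F ω := by rw [hF]; exact hd
    rw [onX_eq (fun a b h => kap_srel E h) hd hcX, onX_eq (fun a b h => kap_srel E' h) hd' hcX]
    unfold kap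
    rw [hF]
    by_cases hcl : Clo ZQ E.F ω c
    · rw [if_pos hcl, if_pos hcl]
    · rw [if_neg hcl, if_neg hcl]
      have hs := stt_mem hcl hc
      have hsX : stt E.F ω c ∈ rep U :=
        (rtg_b' (ω' := ω) hd h2 (fun _ _ => rfl) hcX (stt_spec hcl).1).1
      have hm : mate ZQ E.F ω (stt E.F ω c) ∈ bS ZQ E.F := mate_mem hs
      have hmX : (mate ZQ E.F ω (stt E.F ω c)).swap ∈ rep U :=
        (rtg_f' (ω' := ω) hd h2 (fun _ _ => rfl) hcX (stt_last hcl)).1
      have h5 := h _ hs _ hm (by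
        obtain ⟨f, hf, k, h4⟩ := bS_sd hs
        exact ⟨f, h2 f hf k (Or.inl (h4 ▸ hsX)), k, h4⟩) (by
        obtain ⟨f, hf, k, h4⟩ := bS_sd hm
        exact ⟨f, h2 f hf k (Or.inr (h4 ▸ hmX)), k, h4⟩)
      rw [h5.1, h5.2]
  unfold cls
  rw [hF]
  exact Finset.sum_congr rfl fun U hU => by rw [hkap U hU]

theorem und_swap_dE {F : Finset (ℤ × ℤ)} {x : DZ} (hx : x ∈ dE ZQ F) : und x.swap = und x := by
  obtain ⟨f, -, k, rfl | rfl⟩ := mem_dE.mp hx
  · rw [und_sd_swap, und_sd]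
  · rw [Prod.swap_swap, und_sd_swap, und_sd]

/-- the unit edges of one strand are connected -/
theorem mm_of_strand {F : Finset (ℤ × ℤ)} {ω : Cfg} {X : Finset DZ} (hX : X ∈ dstr ZQ F ω) {x y : DZ}
    (hx : x ∈ X ∨ x.swap ∈ X) (hy : y ∈ X ∨ y.swap ∈ X) : und y ∈ MM ω (F : Set (ℤ × ℤ)) (und x) := by
  have key : ∀ {x y : DZ}, x ∈ X → y ∈ X → und y ∈ MM ω (F : Set (ℤ × ℤ)) (und x) := by
    intro x y hx hy
    rw [(dstr_of_mem hX hx).2] at hy
    exact MM_of_srel (mem_dst.mp hy).2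
  rcases hx with hx | hx <;> rcases hy with hy | hy
  · exact key hx hy
  · have := key hx hy
    rwa [und_swap_dE (by
      have := swap_mem_dE.mpr (dstr_of_mem hX hy).1
      rwa [Prod.swap_swap] at this)] at this
  · have := key hx hy
    rwa [und_swap_dE (by
      have := swap_mem_dE.mpr (dstr_of_mem hX hx).1
      rwa [Prod.swap_swap] at this)] at this
  · have := key hx hy
    rwa [und_swap_dE (by
      have := swap_mem_dE.mpr (dstr_of_mem hX hx).1
      rwa [Prod.swap_swap] at this), und_swap_dE (by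
      have := swap_mem_dE.mpr (dstr_of_mem hX hy).1
      rwa [Prod.swap_swap] at this)] at this

theorem isSide_su (f : ℤ × ℤ) (k : ZMod 4) : IsSide f (su f k) := by
  unfold su IsSide
  split_ifs <;> tauto

theorem rowCount : RowCount := by
  classical
  intro F v r R ω S hr hrR hSF hS
  -- an edge of every strand in the small box
  have hex : ∀ U ∈ S, ∃ f ∈ F, f ∈ BR v r ∧ ∃ k, sd ZQ f k ∈ rep U ∨ (sd ZQ f k).swap ∈ rep U := fun U hU =>
    (hS U hU).1
  let bU : Finset (Finset DZ) → UE := fun U =>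
    if h : ∃ x : DZ, x ∈ dE ZQ F ∧ (x ∈ rep U ∨ x.swap ∈ rep U) ∧ InE v r (und x) then und h.choose
    else (0, 0, false)
  have hbU : ∀ U ∈ S, ∃ x : DZ, x ∈ dE ZQ F ∧ (x ∈ rep U ∨ x.swap ∈ rep U) ∧ InE v r (und x) ∧
      bU U = und x := by
    intro U hU
    obtain ⟨f, hf, hfr, k, hk⟩ := hex U hU
    have h : ∃ x : DZ, x ∈ dE ZQ F ∧ (x ∈ rep U ∨ x.swap ∈ rep U) ∧ InE v r (und x) := by
      refine ⟨sd ZQ f k, mem_dE.mpr ⟨f, hf, k, Or.inl rfl⟩, hk, ?_⟩
      rw [und_sd]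
      exact inE_of_side (Finset.mem_coe.mpr hfr) (isSide_su f k)
    obtain ⟨h1, h2, h3⟩ := h.choose_spec
    exact ⟨h.choose, h1, h2, h3, by simp only [bU, dif_pos h]⟩
  have hinj : ∀ U ∈ S, ∀ U' ∈ S, bU U' ∈ MM ω (F : Set (ℤ × ℤ)) (bU U) → U = U' := by
    intro U hU U' hU' h
    obtain ⟨x, hx, hxU, -, h1⟩ := hbU U hU
    obtain ⟨y, hy, hyU, -, h2⟩ := hbU U' hU'
    rw [h1, h2] at h
    obtain ⟨z, hz, hzy, hsr⟩ := srel_of_MM hx h
    obtain ⟨h3, h4⟩ := ust_eq (hSF hU) (rep_mem (hSF hU))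
    obtain ⟨h5, h6⟩ := ust_eq (hSF hU') (rep_mem (hSF hU'))
    have h7 : U = usE ZQ F ω x := by
      rcases hxU with h | h
      · rw [h4, (dstr_of_mem h3 h).2, rv_dst]
        rfl
      · rw [h4, (dstr_of_mem h3 h).2, rv_dst, Prod.swap_swap, Finset.pair_comm]
        rfl
    have h8 : U' = usE ZQ F ω y := by
      rcases hyU with h | h
      · rw [h6, (dstr_of_mem h5 h).2, rv_dst]
        rfl
      · rw [h6, (dstr_of_mem h5 h).2, rv_dst, Prod.swap_swap, Finset.pair_comm]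
        rfl
    have h9 : usE ZQ F ω x = usE ZQ F ω z := by
      have h10 : dst ZQ F ω x = dst ZQ F ω z :=
        (dstr_of_mem (mem_dstr.mpr ⟨x, hx, rfl⟩) (mem_dst.mpr ⟨hz, hsr⟩)).2
      unfold usE
      rw [← rv_dst, ← rv_dst, h10]
    rcases und_inj hz hy hzy with rfl | rfl
    · rw [h7, h8, h9]
    · rw [h7, h8, h9]
      unfold usE
      rw [Prod.swap_swap, Finset.pair_comm]
  have hcard : (S.image bU).card = S.card := by
    refine Finset.card_image_of_injOn fun U hU U' hU' h => ?_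
    refine hinj U (by exact_mod_cast hU) U' (by exact_mod_cast hU') ?_
    rw [← h]
    exact mem_MM_self
  have hdiff : Diff ω (F : Set (ℤ × ℤ)) (S.image bU) := by
    intro b hb b' hb' h
    obtain ⟨U, hU, rfl⟩ := Finset.mem_image.mp hb
    obtain ⟨U', hU', rfl⟩ := Finset.mem_image.mp hb'
    rw [hinj U hU U' hU' h]
  rw [← hcard]
  have := card_le_sum_NF (ι := ℕ) (G := (F : Set (ℤ × ℤ))) (R := R) hdiff {0} (fun _ => v) hr hrR
    (fun _ _ => Set.inter_subset_left) fun b hb => ?_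
  · simpa using this
  · obtain ⟨U, hU, rfl⟩ := Finset.mem_image.mp hb
    obtain ⟨x, hx, hxU, hxr, h1⟩ := hbU U hU
    refine ⟨0, Finset.mem_singleton_self _, ⟨bU U, mem_MM_self, by rw [h1]; exact hxr⟩, ?_⟩
    have h2 := (hS U hU).2
    unfold InF at h2
    push Not at h2
    obtain ⟨f, hf, k, hk, hfR⟩ := h2
    refine ⟨su f k, ?_, fun hin => bd_of_side hin (isSide_su f k) fun h => hfR (Finset.mem_coe.mp h)⟩
    have h3 := mm_of_strand (rep_dstr (hSF hU)) hxU hk
    rw [und_sd, ← h1] at h3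
    exact h3

theorem rowNoLeg : RowNoLeg := by
  classical
  intro F v r R ω hr hrR h0 a hl
  obtain ⟨⟨f, hf, k, hfk⟩, b, hab, ⟨f', hf', k', hfk'⟩⟩ := hl
  obtain ⟨hfF, hfr⟩ := Finset.mem_inter.mp hf
  obtain ⟨hfF', hfR'⟩ := Finset.mem_sdiff.mp hf'
  have hfR : f' ∉ BR v R := fun h => hfR' (Finset.mem_inter.mpr ⟨hfF', h⟩)
  -- the unit edges
  have ha1 : und a = su f k := by
    have h1 : a = (sd ZQ f k).swap := by rw [← hfk, Prod.swap_swap]
    rw [h1, und_sd_swap]
  have hb1 : und b = su f' k' := by rw [hfk', und_sd]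
  have hin : InE v r (und a) := by
    rw [ha1]
    exact inE_of_side (Finset.mem_coe.mpr hfr) (isSide_su f k)
  have hsub : ∀ g, g ∈ ((F ∩ BR v R) \ (F ∩ BR v r) : Finset (ℤ × ℤ)) → g ∈ F ∧ g ∈ BR v R ∧ g ∉ BR v r := by
    intro g hg
    obtain ⟨h1, h2⟩ := Finset.mem_sdiff.mp hg
    obtain ⟨h3, h4⟩ := Finset.mem_inter.mp h1
    exact ⟨h3, h4, fun h => h2 (Finset.mem_inter.mpr ⟨h3, h⟩)⟩
  by_cases hne : a = b
  · have h1 : InE v R (und a) := (Sub.refl' (v := v) hrR.le).inE hin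
    have h2 : BdR v R (und a) := by
      refine bd_of_side h1 (f := f') ?_ fun h => hfR (Finset.mem_coe.mp h)
      rw [hne, hb1]
      exact isSide_su f' k'
    have h3 := hin
    unfold InE InR at h3
    unfold BdR BdE at h2
    unfold ua ub at *
    omega
  · have hbd : BdR v r (und a) := by
      rcases ReflTransGen.cases_head hab with h | ⟨c, h, -⟩
      · exact absurd h hne
      · obtain ⟨g, hg, l, hgl⟩ := ah_left h
        refine bd_of_side hin (f := g) ?_ fun h => (hsub g hg).2.2 (Finset.mem_coe.mp h)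
        rw [hgl, und_sd]
        exact isSide_su g l
    have hbR : BdR v R (und b) := by
      rcases ReflTransGen.cases_tail hab with h | ⟨c, -, h⟩
      · exact absurd h.symm hne
      · obtain ⟨g, hg, l, hgl⟩ := ah_right h
        have h1 : und b = su g l := by
          have h1 : b = (sd ZQ g l).swap := by rw [← hgl, Prod.swap_swap]
          rw [h1, und_sd_swap]
        have h2 : InE v R (und b) := by
          rw [h1]
          exact inE_of_side (Finset.mem_coe.mpr (hsub g hg).2.1) (isSide_su g l)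
        refine bd_of_side h2 (f := f') ?_ fun h => hfR (Finset.mem_coe.mp h)
        rw [hb1]
        exact isSide_su f' k'
    have hmm : und b ∈ MM ω ((F : Set (ℤ × ℤ)) ∩ (An v r R : Set (ℤ × ℤ))) (und a) := by
      refine MM_mono ?_ (MM_of_srel (srel_iff.mpr (Or.inl hab)))
      intro g hg
      obtain ⟨h1, h2, h3⟩ := hsub g (Finset.mem_coe.mp hg)
      exact ⟨Finset.mem_coe.mpr h1, Finset.mem_coe.mpr (mem_An.mpr ⟨h2, h3⟩)⟩
    have hmem : und a ∈ (UB v r).filter fun b => BdR v r b ∧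
        ∃ a ∈ MM ω ((F : Set (ℤ × ℤ)) ∩ (An v r R : Set (ℤ × ℤ))) b, BdR v R a :=
      Finset.mem_filter.mpr ⟨hin.mem_UB, hbd, und b, hmm, hbR⟩
    have h1 : 0 < NF (F : Set (ℤ × ℤ)) v r R ω := Finset.card_pos.mpr ⟨_, hmem⟩
    omega

end

end Pool.Agent.SixB.GG
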