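import Pool.Agent.Lib.SixB.CAEnvD
import Pool.Agent.Lib.SixB.S4A
import Pool.Agent.Lib.SixB.S6LPerc
import Pool.Agent.Lib.SixB.NFMom

/-!
# 6BD block CA: the natural environment, differences of two bases (part A, lattice)

`E`, `E'`: two environments on the same domain `F` with weights `1`, whose mean arrows `s` differ only on pairs of sides with
different labels `χ`.
* `hU_diff_le`: `|E.hU z z' - E'.hU z z'| ≤ K * av (number of arcs with ends of different label which separate z, z')`.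
* `NatP`: the hypothesis; `NatP.loc`: all sides in the ball `BR v R` have one label, `z, z'` joined in `F ∩ BR v r`:
  `≤ C K (r / R) ^ (1 / 4)`; `NatP.far`: all sides of one of the labels are in `BR v r`, `z, z'` joined in `F \ BR v R`: the same.
-/

set_option autoImplicit false
set_option linter.unusedSectionVars false

namespace Pool.Agent.SixB.GN

open Pool.Agent.Perc Pool.Agent.Perc.Q Pool.Agent.Perc6 Pool.Agent.PercD Pool.Agent.PercN Relation
open Pool.Agent.SixB.Tilt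

noncomputable section

variable {F G : Finset (ℤ × ℤ)} {ω : Cfg} {a b e x y : DZ} {X : Finset DZ} {z z' v : VZ} {r R : ℤ}

/-- two environments of weight `1` whose mean arrows differ only on pairs of sides with different labels -/
structure NatP (E E' : WEnv) (χ : DZ → Prop) (K : ℝ) : Prop where
  hF : E'.F = E.F
  hP : HasPotQ ZQ E.F
  t : ∀ a ∈ bS ZQ E.F, ∀ b ∈ bS ZQ E.F, E.t a b = 1
  t' : ∀ a ∈ bS ZQ E.F, ∀ b ∈ bS ZQ E.F, E'.t a b = 1
  eq : ∀ a ∈ bS ZQ E.F, ∀ b ∈ bS ZQ E.F, (χ a ↔ χ b) → E.s a b = E'.s a b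
  le : ∀ a ∈ bS ZQ E.F, ∀ b ∈ bS ZQ E.F, |E.s a b - E'.s a b| ≤ K

theorem W_one {E : WEnv} (h : ∀ a ∈ bS ZQ E.F, ∀ b ∈ bS ZQ E.F, E.t a b = 1) (ω : Cfg) : E.W ω = 1 := by
  unfold WEnv.W
  refine Finset.prod_eq_one fun p hp => ?_
  obtain ⟨a, ha, rfl⟩ := mem_arcs.mp hp
  exact h a ha _ (mate_mem ha)

theorem Z_one {E : WEnv} (h : ∀ a ∈ bS ZQ E.F, ∀ b ∈ bS ZQ E.F, E.t a b = 1) : E.Z = 1 := by
  unfold WEnv.Z
  rw [av_congr (g' := fun _ => (1 : ℝ)) fun T _ => W_one h _, av_const]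

theorem num_arc {E : WEnv} (h : ∀ a ∈ bS ZQ E.F, ∀ b ∈ bS ZQ E.F, E.t a b = 1)
    (hc : ¬ Clo ZQ E.F ω e) :
    E.num ω e = E.s (stt E.F ω e) (mate ZQ E.F ω (stt E.F ω e)) := by
  classical
  unfold WEnv.num
  rw [if_neg hc, Finset.prod_eq_one, mul_one]
  intro p hp
  obtain ⟨a, ha, rfl⟩ := mem_arcs.mp (Finset.mem_of_mem_erase hp)
  exact h a ha _ (mate_mem ha)

open Classical in
/-- the starting sides of the arcs with ends of different label which separate `z` and `z'` (both directions) -/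
def sepS (F : Finset (ℤ × ℤ)) (χ : DZ → Prop) (z z' : VZ) (ω : Cfg) : Finset DZ :=
  (bS ZQ F).filter fun a => (χ a ∧ ¬ χ (mate ZQ F ω a)) ∧
    Tilt.lft ZQ F (dst ZQ F ω a) z ≠ Tilt.lft ZQ F (dst ZQ F ω a) z'

theorem mem_sepS {χ : DZ → Prop} : a ∈ sepS F χ z z' ω ↔ a ∈ bS ZQ F ∧ (χ a ∧ ¬ χ (mate ZQ F ω a)) ∧
    Tilt.lft ZQ F (dst ZQ F ω a) z ≠ Tilt.lft ZQ F (dst ZQ F ω a) z' := by
  classical
  unfold sepS
  rw [Finset.mem_filter]

theorem lft_ne_iff (hP : HasPotQ ZQ F) (hX : X ∈ dstr ZQ F ω) (hz : ConnE ZQ F z z') :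
    Tilt.lft ZQ F (rv X) z ≠ Tilt.lft ZQ F (rv X) z' ↔ Tilt.lft ZQ F X z ≠ Tilt.lft ZQ F X z' := by
  have h1 := lft_spec hP hX
  have h2 := lft_spec hP (rv_mem_dstr hX)
  have h3 := h2.diff h1.rev hz
  constructor
  · intro h h4
    apply h
    have : (1 - Tilt.lft ZQ F X z) - (1 - Tilt.lft ZQ F X z') = 0 := by rw [h4]; ring
    omega
  · intro h h4
    apply h
    have : Tilt.lft ZQ F (rv X) z - Tilt.lft ZQ F (rv X) z' = 0 := by rw [h4]; ring
    omega

/-- **the difference of two bases** -/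
theorem hU_diff_le {E E' : WEnv} {χ : DZ → Prop} {K : ℝ} (h : NatP E E' χ K) (hK : 0 ≤ K)
    (hz : ConnE ZQ E.F z z') :
    |E.hU z z' - E'.hU z z'| ≤ K * av E.F (fun ω => ((sepS E.F χ z z' ω).card : ℝ)) := by
  classical
  have ht' : ∀ a ∈ bS ZQ E'.F, ∀ b ∈ bS ZQ E'.F, E'.t a b = 1 := by rw [h.hF]; exact h.t'
  have e1 : E.hU z z' - E'.hU z z' =
      av E.F (fun ω => (E.hN ω z - E.hN ω z') - (E'.hN ω z - E'.hN ω z')) := by
    unfold WEnv.hU
    rw [Z_one h.t, Z_one ht', div_one, div_one, h.hF, ← av_sub]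
  rw [e1, ← av_mul]
  refine abs_av_le fun T _ => ?_
  generalize ind T = ω
  have e2 : E'.hN ω z - E'.hN ω z' = ∑ U ∈ ust ZQ E.F ω,
      ((Tilt.lft ZQ E.F (Tilt.rep U) z - Tilt.lft ZQ E.F (Tilt.rep U) z' : ℤ) : ℝ) *
        E'.nX ω (Tilt.rep U) := by
    rw [E'.hN_diff, h.hF]
  rw [E.hN_diff, e2, ← Finset.sum_sub_distrib]
  have hterm : ∀ U ∈ ust ZQ E.F ω,
      |((Tilt.lft ZQ E.F (rep U) z - Tilt.lft ZQ E.F (rep U) z' : ℤ) : ℝ) * E.nX ω (rep U) -
        ((Tilt.lft ZQ E.F (rep U) z - Tilt.lft ZQ E.F (rep U) z' : ℤ) : ℝ) * E'.nX ω (rep U)| ≤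
      if U ∈ (sepS E.F χ z z' ω).image (fun a => usE ZQ E.F ω a) then K else 0 := by
    intro U hU
    have hif : (0 : ℝ) ≤ if U ∈ (sepS E.F χ z z' ω).image (fun a => usE ZQ E.F ω a) then K else 0 := by
      split_ifs
      · exact hK
      · exact le_rfl
    obtain ⟨hX, hUX⟩ := ust_eq hU (rep_mem hU)
    set X := rep U with hXd
    rw [← mul_sub, abs_mul]
    have hl : |((Tilt.lft ZQ E.F X z - Tilt.lft ZQ E.F X z' : ℤ) : ℝ)| ≤ 1 := by
      rw [← Int.cast_abs]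
      exact_mod_cast (lft_spec h.hP hX).abs_le z z'
    obtain ⟨c, hc, hcX⟩ := mem_dstr.mp hX
    have hcX' : c ∈ X := by rw [← hcX]; exact self_mem_dst hc
    rw [E.nX_eq hX hcX', E'.nX_eq (by rw [h.hF]; exact hX) hcX']
    by_cases hclo : Clo ZQ E.F ω c
    · have e3 : E.num ω c = E'.num ω c := by
        unfold WEnv.num
        rw [if_pos hclo, h.hF, if_pos hclo, W_one h.t, W_one ht']
      rw [e3, sub_self, abs_zero, mul_zero]
      exact hif
    · have e3 := num_arc (E := E') ht' (by rw [h.hF]; exact hclo)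
      rw [h.hF] at e3
      rw [num_arc h.t hclo, e3]
      have h3 : stt E.F ω c ∈ bS ZQ E.F := (start_spec (ω := ω) hc hclo).1
      have h4 : SRel ZQ E.F ω (stt E.F ω c) c := (start_spec (ω := ω) hc hclo).2
      generalize stt E.F ω c = a at h3 h4
      have hm := mate_mem (ω := ω) h3
      by_cases hχ : χ a ↔ χ (mate ZQ E.F ω a)
      · rw [h.eq a h3 _ hm hχ, sub_self, abs_zero, mul_zero]
        exact hif
      · by_cases hlz : Tilt.lft ZQ E.F X z = Tilt.lft ZQ E.F X z'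
        · rw [hlz, sub_self]
          simp only [Int.cast_zero, abs_zero, zero_mul]
          exact hif
        · rw [if_pos]
          · calc _ ≤ 1 * |E.s a (mate ZQ E.F ω a) - E'.s a (mate ZQ E.F ω a)| :=
                  mul_le_mul_of_nonneg_right hl (abs_nonneg _)
              _ ≤ K := by
                rw [one_mul]
                exact h.le a h3 _ hm
          · have hXa : X = dst ZQ E.F ω a := by rw [← hcX]; exact (dst_eq h4).symm
            have hrv : rv X = dst ZQ E.F ω (mate ZQ E.F ω a) := by rw [hXa, rv_dst_mate h3]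
            have hUa : U = usE ZQ E.F ω a := by
              rw [hUX, hXa]
              unfold usE
              rw [rv_dst]
            rw [Finset.mem_image]
            by_cases hχa : χ a
            · refine ⟨a, mem_sepS.mpr ⟨h3, ⟨hχa, fun hh => hχ ⟨fun _ => hh, fun _ => hχa⟩⟩, ?_⟩,
                hUa.symm⟩
              rw [← hXa]
              exact hlz
            · have hχm : χ (mate ZQ E.F ω a) := by
                by_contra hh
                exact hχ ⟨fun h => absurd h hχa, fun h => absurd h hh⟩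
              refine ⟨mate ZQ E.F ω a, mem_sepS.mpr ⟨hm, ⟨hχm, by rwa [mate_mate h3]⟩, ?_⟩, ?_⟩
              · rw [← hrv]
                exact (lft_ne_iff h.hP hX hz).mpr hlz
              · rw [hUX]
                unfold usE
                rw [← rv_dst, ← hrv, rv_rv, Finset.pair_comm]
  refine (Finset.abs_sum_le_sum_abs _ _).trans ((Finset.sum_le_sum hterm).trans ?_)
  rw [← Finset.sum_filter, Finset.sum_const, nsmul_eq_mul, mul_comm]
  refine mul_le_mul_of_nonneg_left ?_ hK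
  have h5 : ((ust ZQ E.F ω).filter fun U =>
      U ∈ (sepS E.F χ z z' ω).image (fun a => usE ZQ E.F ω a)).card ≤ (sepS E.F χ z z' ω).card := by
    refine (Finset.card_le_card (fun U hU => (Finset.mem_filter.mp hU).2)).trans
      Finset.card_image_le
  exact_mod_cast h5

/-! ## Counting -/

/-- different starting sides of arcs of different direction classes are in different strands -/
theorem diff_sepS {χ : DZ → Prop} {S : Finset DZ} (hS : S ⊆ sepS F χ z z' ω) :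
    Diff ω (F : Set (ℤ × ℤ)) (S.image und) := by
  intro b hb b' hb' hm
  obtain ⟨a, ha, rfl⟩ := Finset.mem_image.mp hb
  obtain ⟨a', ha', rfl⟩ := Finset.mem_image.mp hb'
  obtain ⟨h1, ⟨h2, h3⟩, -⟩ := mem_sepS.mp (hS ha)
  obtain ⟨h1', ⟨h2', h3'⟩, -⟩ := mem_sepS.mp (hS ha')
  rcases (MM_iff (mem_bS.mp h1).1 (mem_bS.mp h1').1).mp hm with h | h
  · rw [ini_unique (mem_bS.mp h1).2 (mem_bS.mp h1').2 h]
  · exfalso
    have h4 := mate_unique (ω := ω) (mem_bS.mp h1).2 (ter_swap.mpr (mem_bS.mp h1').2) h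
    rw [Prod.swap_swap] at h4
    rw [h4] at h3
    exact h3 h2'

theorem card_und {S : Finset DZ} (hS : S ⊆ bS ZQ F) (hd : ∀ a ∈ S, a.swap ∉ S) :
    (S.image und).card = S.card := by
  refine Finset.card_image_of_injOn ?_
  intro a ha b hb h
  rcases und_inj (mem_bS.mp (hS hb)).1 (mem_bS.mp (hS ha)).1 h.symm with h1 | h1
  · exact h1.symm
  · exfalso
    have : b = a.swap := h1
    exact hd a ha (this ▸ hb)

/-- a strand which separates two vertices joined in `G` has an edge in `G` -/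
theorem sep_vis {χ : DZ → Prop} (hP : HasPotQ ZQ F) (hG : G ⊆ F) (hz : ConnE ZQ G z z')
    (ha : a ∈ sepS F χ z z' ω) :
    ∃ f ∈ G, ∃ c : UE, IsSide f c ∧ c ∈ MM ω (F : Set (ℤ × ℤ)) (und a) := by
  obtain ⟨h1, -, h2⟩ := mem_sepS.mp ha
  have hX : dst ZQ F ω a ∈ dstr ZQ F ω := dst_mem_dstr (mem_bS.mp h1).1
  obtain ⟨e, he, h3⟩ := (lft_spec hP hX).visits hG hz h2
  obtain ⟨f, hf, hs⟩ := und_side he
  exact ⟨f, hf, und e, hs, (MM_iff_dst (mem_bS.mp h1).1 (Tilt.dE_mono hG he)).mpr h3⟩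

/-- the two ends of an arc in undirected form -/
theorem sep_end {χ : DZ → Prop} (ha : a ∈ sepS F χ z z' ω) :
    und (mate ZQ F ω a) ∈ MM ω (F : Set (ℤ × ℤ)) (und a) := by
  obtain ⟨h1, -, -⟩ := mem_sepS.mp ha
  have hm := mate_mem (ω := ω) h1
  have h2 := srel_mate (ω := ω) h1
  refine (MM_iff (mem_bS.mp h1).1 (mem_bS.mp hm).1).mpr (Or.inr ?_)
  have h3 := srel_swap h2
  rw [Prod.swap_swap] at h3
  exact EqvGen.symm _ _ h3

theorem und_face (ha : a ∈ bS ZQ F) : ∃ f ∈ F, IsSide f (und a) ∧ Ah ZQ {f} a := by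
  obtain ⟨f, hf, k, e⟩ := (mem_bS_ah.mp ha).1
  refine ⟨f, hf, ?_, f, Finset.mem_singleton_self _, k, e⟩
  rw [e, und_sd]
  exact su_isSide f k

/-- **local form**: all sides near `v` have the same label -/
theorem card_loc {χ : DZ → Prop} (hP : HasPotQ ZQ F) (hr : 0 ≤ r) (hrR : r < R)
    (hz : ConnE ZQ (F ∩ BR v r) z z')
    (hχ : (∀ a ∈ bS ZQ F, Ah ZQ (F ∩ BR v R) a → χ a) ∨
      (∀ a ∈ bS ZQ F, Ah ZQ (F ∩ BR v R) a → ¬ χ a)) (ω : Cfg) :
    (sepS F χ z z' ω).card ≤ NF (F : Set (ℤ × ℤ)) v r R ω := by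
  classical
  have hd := diff_sepS (F := F) (χ := χ) (z := z) (z' := z') (ω := ω) subset_rfl
  have hc : ((sepS F χ z z' ω).image und).card = (sepS F χ z z' ω).card := by
    refine card_und (fun a ha => (mem_sepS.mp ha).1) fun a ha ha' => ?_
    exact (mem_bS_ah.mp (mem_sepS.mp ha).1).2 ((mem_bS_ah.mp (mem_sepS.mp ha').1).1)
  rw [← hc]
  have := card_le_sum_NF (ι := ℕ) (G := (F : Set (ℤ × ℤ))) (R := R) (r := r) hd {0} (fun _ => v) hr hrR
    (fun _ _ f hf => hf.1) (fun b hb => ?_)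
  · simpa using this
  obtain ⟨a, ha, rfl⟩ := Finset.mem_image.mp hb
  refine ⟨0, Finset.mem_singleton_self _, ?_, ?_⟩
  · obtain ⟨f, hf, c, hs, hm⟩ := sep_vis hP Finset.inter_subset_left hz ha
    exact ⟨c, hm, inE_of_side (by exact_mod_cast (Finset.mem_inter.mp hf).2) hs⟩
  · obtain ⟨h1, ⟨h2, h3⟩, -⟩ := mem_sepS.mp ha
    have hm := mate_mem (ω := ω) h1
    have key : ∀ b ∈ bS ZQ F, ¬ Ah ZQ (F ∩ BR v R) b → InE v R (und b) → BdR v R (und b) := by
      intro b hb hn hin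
      obtain ⟨f, hf, hs, g, hg, hA⟩ := und_face hb
      rw [Finset.mem_singleton] at hg
      subst hg
      refine bd_of_side hin hs fun hB => hn ⟨g, Finset.mem_inter.mpr ⟨hf, by exact_mod_cast hB⟩, hA⟩
    rcases hχ with hχ | hχ
    · exact ⟨_, sep_end ha, key _ hm fun h => h3 (hχ _ hm h)⟩
    · exact ⟨_, mem_MM_self, key _ h1 fun h => hχ _ h1 h h2⟩

/-- **far form**: the sides of one label are near `v`, the two vertices are joined away from `v` -/
theorem card_far {χ : DZ → Prop} (hP : HasPotQ ZQ F) (hr : 0 ≤ r) (hrR : r < R)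
    (hz : ConnE ZQ (F \ BR v R) z z')
    (hχ : (∀ a ∈ bS ZQ F, χ a → Ah ZQ (F ∩ BR v r) a) ∨
      (∀ a ∈ bS ZQ F, ¬ χ a → Ah ZQ (F ∩ BR v r) a)) (ω : Cfg) :
    (sepS F χ z z' ω).card ≤ NF (F : Set (ℤ × ℤ)) v r R ω := by
  classical
  have hd := diff_sepS (F := F) (χ := χ) (z := z) (z' := z') (ω := ω) subset_rfl
  have hc : ((sepS F χ z z' ω).image und).card = (sepS F χ z z' ω).card := by
    refine card_und (fun a ha => (mem_sepS.mp ha).1) fun a ha ha' => ?_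
    exact (mem_bS_ah.mp (mem_sepS.mp ha).1).2 ((mem_bS_ah.mp (mem_sepS.mp ha').1).1)
  rw [← hc]
  have := card_le_sum_NF (ι := ℕ) (G := (F : Set (ℤ × ℤ))) (R := R) (r := r) hd {0} (fun _ => v) hr hrR
    (fun _ _ f hf => hf.1) (fun b hb => ?_)
  · simpa using this
  obtain ⟨a, ha, rfl⟩ := Finset.mem_image.mp hb
  refine ⟨0, Finset.mem_singleton_self _, ?_, ?_⟩
  · obtain ⟨h1, ⟨h2, h3⟩, -⟩ := mem_sepS.mp ha
    have hm := mate_mem (ω := ω) h1
    have key : ∀ b ∈ bS ZQ F, Ah ZQ (F ∩ BR v r) b → InE v r (und b) := by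
      rintro b hb ⟨f, hf, k, e⟩
      rw [e, und_sd]
      exact inE_of_side (by exact_mod_cast (Finset.mem_inter.mp hf).2) (su_isSide f k)
    rcases hχ with hχ | hχ
    · exact ⟨_, mem_MM_self, key _ h1 (hχ _ h1 h2)⟩
    · exact ⟨_, sep_end ha, key _ hm (hχ _ hm h3)⟩
  · obtain ⟨f, hf, c, hs, hm⟩ := sep_vis hP Finset.sdiff_subset hz ha
    exact ⟨c, hm, fun hin => bd_of_side hin hs fun hB => (Finset.mem_sdiff.mp hf).2
      (by exact_mod_cast hB)⟩

/-- mean number of crossings -/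
theorem mean_NF : ∃ C : ℝ, 0 < C ∧ ∀ (F : Finset (ℤ × ℤ)) (v : ℤ × ℤ) (r R : ℕ), 1 ≤ r → 2 * r < R →
    av F (fun ω => (NF (F : Set (ℤ × ℤ)) v r R ω : ℝ)) ≤ C * ((r : ℝ) / R) ^ (1 / 4 : ℝ) := by
  classical
  obtain ⟨C₁, hC₁, h1⟩ := exp_NF_ge (lam := 2) (by norm_num)
  obtain ⟨C₂, hC₂, h2⟩ := pr_NF_pos
  refine ⟨C₁ * (C₂ * 2 ^ (1 / 4 : ℝ)), by positivity, fun F v r R hr hR => ?_⟩
  set W := F ∪ BR v R with hW
  have hd : Dep (F : Set (ℤ × ℤ)) (fun ω : Cfg => (NF (F : Set (ℤ × ℤ)) v r R ω : ℝ)) := by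
    intro ω ω' h
    have := depN_NF (F : Set (ℤ × ℤ)) v r R ω ω' fun f hf => h f hf.1
    simp only [this]
  rw [← av_dep hd (Finset.subset_union_left : F ⊆ W)]
  have h3 := h1 (F : Set (ℤ × ℤ)) v r R W 1 (by exact_mod_cast hr) (by exact_mod_cast hR)
    Finset.subset_union_right
  have h4 := h2 (F : Set (ℤ × ℤ)) v (2 * r) R W (by omega) (by omega) Finset.subset_union_right
  have h5 : av W (fun ω => (NF (F : Set (ℤ × ℤ)) v r R ω : ℝ)) ≤
      (∑ T ∈ W.powerset, if 1 ≤ NF (F : Set (ℤ × ℤ)) v r R (cfg T) then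
        (2 : ℝ) ^ NF (F : Set (ℤ × ℤ)) v r R (cfg T) else 0) / 2 ^ W.card := by
    unfold av
    refine div_le_div_of_nonneg_right (Finset.sum_le_sum fun T _ => ?_) (by positivity)
    show (NF (F : Set (ℤ × ℤ)) v r R (cfg T) : ℝ) ≤ _
    split_ifs with h6
    · exact_mod_cast (Nat.lt_two_pow_self).le
    · have : NF (F : Set (ℤ × ℤ)) v r R (cfg T) = 0 := by omega
      rw [this]
      simp
  refine h5.trans (h3.trans ?_)
  push_cast at h4
  have h7 : ((2 * (r : ℝ)) / R) ^ (1 / 4 : ℝ) = 2 ^ (1 / 4 : ℝ) * ((r : ℝ) / R) ^ (1 / 4 : ℝ) := by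
    rw [mul_div_assoc, Real.mul_rpow (by norm_num) (by positivity)]
  rw [h7] at h4
  calc _ ≤ C₁ * (C₂ * (2 ^ (1 / 4 : ℝ) * ((r : ℝ) / R) ^ (1 / 4 : ℝ))) :=
        mul_le_mul_of_nonneg_left h4 hC₁.le
    _ = _ := by ring

/-- **the two forms, in the mean**: `C` universal -/
theorem hU_loc_far : ∃ C : ℝ, 0 < C ∧ ∀ (E E' : WEnv) (χ : DZ → Prop) (K : ℝ), NatP E E' χ K → 0 ≤ K →
    ∀ (v z z' : VZ) (r R : ℕ), 1 ≤ r → 2 * r < R →
    ((ConnE ZQ (E.F ∩ BR v r) z z' ∧ ((∀ a ∈ bS ZQ E.F, Ah ZQ (E.F ∩ BR v R) a → χ a) ∨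
      (∀ a ∈ bS ZQ E.F, Ah ZQ (E.F ∩ BR v R) a → ¬ χ a))) ∨
     (ConnE ZQ (E.F \ BR v R) z z' ∧ ((∀ a ∈ bS ZQ E.F, χ a → Ah ZQ (E.F ∩ BR v r) a) ∨
      (∀ a ∈ bS ZQ E.F, ¬ χ a → Ah ZQ (E.F ∩ BR v r) a)))) →
    |E.hU z z' - E'.hU z z'| ≤ C * K * ((r : ℝ) / R) ^ (1 / 4 : ℝ) := by
  obtain ⟨C, hC, h⟩ := mean_NF
  refine ⟨C, hC, fun E E' χ K hN hK v z z' r R hr hR hh => ?_⟩
  have hz : ConnE ZQ E.F z z' := by
    rcases hh with ⟨h1, -⟩ | ⟨h1, -⟩
    · exact rtg_mono (fun _ _ h => Tilt.dE_mono Finset.inter_subset_left h) h1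
    · exact rtg_mono (fun _ _ h => Tilt.dE_mono Finset.sdiff_subset h) h1
  refine (hU_diff_le hN hK hz).trans ?_
  have h1 : av E.F (fun ω => ((sepS E.F χ z z' ω).card : ℝ)) ≤
      av E.F (fun ω => (NF (E.F : Set (ℤ × ℤ)) v r R ω : ℝ)) := by
    refine av_mono fun T _ => ?_
    rcases hh with ⟨h1, h2⟩ | ⟨h1, h2⟩
    · exact_mod_cast card_loc hN.hP (by omega) (by omega) h1 h2 _
    · exact_mod_cast card_far hN.hP (by omega) (by omega) h1 h2 _
  calc _ ≤ K * (C * ((r : ℝ) / R) ^ (1 / 4 : ℝ)) :=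
        mul_le_mul_of_nonneg_left (h1.trans (h E.F v r R hr hR)) hK
    _ = _ := by ring

end

end Pool.Agent.SixB.GN
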