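import Pool.Agent.Lib.SixB.S4Strands
import Pool.Agent.Lib.SixB.PlaneU

/-!
# 6BD block CA: parity of the number of strands which separate two vertices

* `ue_par`: the ends of a unit edge of the plane have different colours.
* `lft_edge`: `lft` of the strand `U` changes along the unit edge `a` iff `U` is the strand of `a`.
* `sepS Q F ω z z'`: the strands of `F` which separate `z` and `z'`.
* `card_sepS_mod`: `# sepS = (z.1 + z.2) - (z'.1 + z'.2)` in `ZMod 2`, if `z` and `z'` are joined by unit edges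
  of `F` (every face set with potentials); `neg_one_pow_sepS`.
-/

set_option autoImplicit false
set_option linter.unusedSectionVars false

namespace Pool.Agent.SixB.GPar

open Pool.Agent.Perc.Q Pool.Agent.Perc Relation
open Pool.Agent.SixB.Tilt hiding lft rep

noncomputable section

section general

variable {V Φ : Type} [DecidableEq V] [DecidableEq Φ]
variable {Q : QC V Φ} {F : Finset Φ} {ω : Φ → Bool} {a b e : V × V} {z z' z'' : V}

/-- the increment of the left indicator of a strand along a unit edge -/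
theorem lft_edge (hQ : NoLoop Q) (hP : HasPotQ Q F) (he : e ∈ dE Q F) {U : Finset (Finset (V × V))}
    (hU : U ∈ ust Q F ω) :
    (Tilt.lft Q F (Tilt.rep U) e.1 ≠ Tilt.lft Q F (Tilt.rep U) e.2) ↔ U = usE Q F ω e := by
  obtain ⟨h1, h2⟩ := ust_eq hU (rep_mem hU)
  have hs := lft_spec hP h1
  have hi := hs.inc e he
  constructor
  · intro hne
    have h3 : e ∈ Tilt.rep U ∨ e.swap ∈ Tilt.rep U := by
      by_contra hcon
      push Not at hcon
      rw [if_neg hcon.1, if_neg hcon.2] at hi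
      exact hne (by omega)
    rcases h3 with h3 | h3
    · have h4 := (dstr_of_mem h1 h3).2
      rw [h2, h4, rv_dst]
      rfl
    · have h4 := (dstr_of_mem h1 h3).2
      rw [h2, h4, rv_dst, Prod.swap_swap, Finset.pair_comm]
      rfl
  · rintro rfl
    have h3' : ∀ X ∈ usE Q F ω e, X = dst Q F ω e ∨ X = dst Q F ω e.swap := by
      intro X hX
      unfold usE at hX
      rwa [Finset.mem_insert, Finset.mem_singleton] at hX
    have h3 := h3' _ (rep_mem hU)
    have hns : ∀ {x : V × V}, x ∈ dE Q F → ¬ (x ∈ dst Q F ω e ∧ x.swap ∈ dst Q F ω e) := by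
      rintro x hx ⟨h5, h6⟩
      exact not_srel_swap hQ hx (EqvGen.trans _ _ _ (EqvGen.symm _ _ (mem_dst.mp h5).2)
        (mem_dst.mp h6).2)
    rcases h3 with h3 | h3
    · have h4 : e ∈ Tilt.rep (usE Q F ω e) := by rw [h3]; exact self_mem_dst he
      have h5 : e.swap ∉ Tilt.rep (usE Q F ω e) := by
        rw [h3]
        exact fun h => hns he ⟨self_mem_dst he, h⟩
      rw [if_pos h4, if_neg h5] at hi
      omega
    · have h4 : e.swap ∈ Tilt.rep (usE Q F ω e) := by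
        rw [h3]
        exact self_mem_dst (swap_mem_dE.mpr he)
      have h5 : e ∉ Tilt.rep (usE Q F ω e) := by
        rw [h3, ← rv_dst, mem_rv]
        exact fun h => hns he ⟨self_mem_dst he, h⟩
      rw [if_neg h5, if_pos h4] at hi
      omega

open Classical in
/-- the strands which separate `z` and `z'` -/
def sepS (Q : QC V Φ) (F : Finset Φ) (ω : Φ → Bool) (z z' : V) : Finset (Finset (Finset (V × V))) :=
  (ust Q F ω).filter fun U => Tilt.lft Q F (Tilt.rep U) z ≠ Tilt.lft Q F (Tilt.rep U) z'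

theorem mem_sepS {U : Finset (Finset (V × V))} : U ∈ sepS Q F ω z z' ↔
    U ∈ ust Q F ω ∧ Tilt.lft Q F (Tilt.rep U) z ≠ Tilt.lft Q F (Tilt.rep U) z' := by
  classical
  unfold sepS
  rw [Finset.mem_filter]

theorem sepS_comm : sepS Q F ω z z' = sepS Q F ω z' z := by
  ext U
  rw [mem_sepS, mem_sepS, ne_comm]

/-- exactly one strand separates the ends of a unit edge -/
theorem sepS_edge (hQ : NoLoop Q) (hP : HasPotQ Q F) (he : e ∈ dE Q F) :
    sepS Q F ω e.1 e.2 = {usE Q F ω e} := by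
  ext U
  rw [mem_sepS, Finset.mem_singleton]
  constructor
  · rintro ⟨h1, h2⟩
    exact (lft_edge hQ hP he h1).mp h2
  · rintro rfl
    exact ⟨usE_mem he, (lft_edge hQ hP he (usE_mem he)).mpr rfl⟩

theorem lft_val (hP : HasPotQ Q F) {U : Finset (Finset (V × V))} (hU : U ∈ ust Q F ω) (z : V) :
    Tilt.lft Q F (Tilt.rep U) z = 0 ∨ Tilt.lft Q F (Tilt.rep U) z = 1 :=
  (lft_spec hP (ust_eq hU (rep_mem hU)).1).val z

/-- the number of separating strands mod 2 is a sum of the left indicators -/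
theorem card_sepS_eq (hP : HasPotQ Q F) (z z' : V) : ((sepS Q F ω z z').card : ZMod 2) =
    ∑ U ∈ ust Q F ω, ((Tilt.lft Q F (Tilt.rep U) z - Tilt.lft Q F (Tilt.rep U) z' : ℤ) : ZMod 2) := by
  classical
  unfold sepS
  rw [Finset.card_filter]
  push_cast
  refine Finset.sum_congr rfl fun U hU => ?_
  rcases lft_val hP hU z with h1 | h1 <;> rcases lft_val hP hU z' with h2 | h2 <;> rw [h1, h2] <;>
    simp

/-- **Parity**: a function of the vertices which changes along every unit edge -/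
theorem card_sepS_of (hQ : NoLoop Q) (hP : HasPotQ Q F) {c : V → ZMod 2}
    (hc : ∀ a ∈ dE Q F, c a.1 - c a.2 = 1) (hz : ConnE Q F z z') :
    ((sepS Q F ω z z').card : ZMod 2) = c z - c z' := by
  have h1 : ∀ w w' : V, ((sepS Q F ω w w').card : ZMod 2) =
      (∑ U ∈ ust Q F ω, ((Tilt.lft Q F (Tilt.rep U) w : ℤ) : ZMod 2)) -
        ∑ U ∈ ust Q F ω, ((Tilt.lft Q F (Tilt.rep U) w' : ℤ) : ZMod 2) := by
    intro w w'
    rw [card_sepS_eq hP, ← Finset.sum_sub_distrib]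
    exact Finset.sum_congr rfl fun U _ => by push_cast; rfl
  rw [h1]
  refine sub_eq_of_inc (G := F) (u := fun w => ∑ U ∈ ust Q F ω, ((Tilt.lft Q F (Tilt.rep U) w : ℤ) : ZMod 2))
    (v := c) (fun a ha => ?_) hz
  rw [hc a ha]
  show (∑ U ∈ ust Q F ω, ((Tilt.lft Q F (Tilt.rep U) a.1 : ℤ) : ZMod 2)) -
    ∑ U ∈ ust Q F ω, ((Tilt.lft Q F (Tilt.rep U) a.2 : ℤ) : ZMod 2) = 1
  rw [← h1, sepS_edge hQ hP ha, Finset.card_singleton, Nat.cast_one]

end general

/-! ## The plane -/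

variable {F : Finset (ℤ × ℤ)} {ω : ℤ × ℤ → Bool} {z z' : ℤ × ℤ}

theorem sd_par (f : ℤ × ℤ) (k : ZMod 4) :
    (((sd ZQ f k).1.1 + (sd ZQ f k).1.2 : ℤ) : ZMod 2) -
      (((sd ZQ f k).2.1 + (sd ZQ f k).2.2 : ℤ) : ZMod 2) = 1 := by
  obtain ⟨x, y⟩ := f
  have e1 : (0 : ZMod 4) + 1 = 1 := rfl
  have e2 : (1 : ZMod 4) + 1 = 2 := rfl
  have e3 : (2 : ZMod 4) + 1 = 3 := rfl
  have e4 : (3 : ZMod 4) + 1 = 0 := rfl
  have h2 : (2 : ZMod 2) = 0 := rfl
  have h1 : (-1 : ZMod 2) = 1 := rfl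
  rcases k4_cases k with rfl | rfl | rfl | rfl
  · show (((cor0 (x, y) 0).1 + (cor0 (x, y) 0).2 : ℤ) : ZMod 2) -
      (((cor0 (x, y) (0 + 1)).1 + (cor0 (x, y) (0 + 1)).2 : ℤ) : ZMod 2) = 1
    rw [e1, cor0_0, cor0_1]
    push_cast
    linear_combination h1
  · show (((cor0 (x, y) 1).1 + (cor0 (x, y) 1).2 : ℤ) : ZMod 2) -
      (((cor0 (x, y) (1 + 1)).1 + (cor0 (x, y) (1 + 1)).2 : ℤ) : ZMod 2) = 1
    rw [e2, cor0_1, cor0_2]
    push_cast
    linear_combination h1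
  · show (((cor0 (x, y) 2).1 + (cor0 (x, y) 2).2 : ℤ) : ZMod 2) -
      (((cor0 (x, y) (2 + 1)).1 + (cor0 (x, y) (2 + 1)).2 : ℤ) : ZMod 2) = 1
    rw [e3, cor0_2, cor0_3]
    push_cast
    ring
  · show (((cor0 (x, y) 3).1 + (cor0 (x, y) 3).2 : ℤ) : ZMod 2) -
      (((cor0 (x, y) (3 + 1)).1 + (cor0 (x, y) (3 + 1)).2 : ℤ) : ZMod 2) = 1
    rw [e4, cor0_3, cor0_0]
    push_cast
    ring

theorem dE_par {a : (ℤ × ℤ) × (ℤ × ℤ)} (ha : a ∈ dE ZQ F) :
    ((a.1.1 + a.1.2 : ℤ) : ZMod 2) - ((a.2.1 + a.2.2 : ℤ) : ZMod 2) = 1 := by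
  obtain ⟨f, hf, k, rfl | rfl⟩ := mem_dE.mp ha
  · exact sd_par f k
  · have h := sd_par f k
    have h1 : (-1 : ZMod 2) = 1 := rfl
    show (((sd ZQ f k).2.1 + (sd ZQ f k).2.2 : ℤ) : ZMod 2) -
      (((sd ZQ f k).1.1 + (sd ZQ f k).1.2 : ℤ) : ZMod 2) = 1
    linear_combination -h + h1

/-- **Parity of the number of separating strands.** -/
theorem card_sepS_mod (hP : HasPotQ ZQ F) (hz : ConnE ZQ F z z') :
    ((sepS ZQ F ω z z').card : ZMod 2) = ((z.1 + z.2 : ℤ) : ZMod 2) - ((z'.1 + z'.2 : ℤ) : ZMod 2) :=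
  card_sepS_of noLoop_ZQ hP (c := fun w => ((w.1 + w.2 : ℤ) : ZMod 2)) (fun _ ha => dE_par ha) hz

/-- integer form -/
theorem card_sepS_dvd (hP : HasPotQ ZQ F) (hz : ConnE ZQ F z z') :
    (2 : ℤ) ∣ ((sepS ZQ F ω z z').card : ℤ) - (z.1 + z.2 - z'.1 - z'.2) := by
  have h := card_sepS_mod (ω := ω) hP hz
  have h2 : (((((sepS ZQ F ω z z').card : ℤ) - (z.1 + z.2 - z'.1 - z'.2) : ℤ)) : ZMod 2) = 0 := by
    push_cast at h ⊢
    linear_combination h
  exact_mod_cast (ZMod.intCast_zmod_eq_zero_iff_dvd _ 2).mp h2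

/-- signs -/
theorem neg_one_pow_sepS (hP : HasPotQ ZQ F) (hz : ConnE ZQ F z z') :
    (-1 : ℝ) ^ (sepS ZQ F ω z z').card = (-1 : ℝ) ^ (z.1 + z.2 - z'.1 - z'.2) := by
  obtain ⟨k, hk⟩ := card_sepS_dvd (ω := ω) hP hz
  have h1 : ((sepS ZQ F ω z z').card : ℤ) = (z.1 + z.2 - z'.1 - z'.2) + 2 * k := by omega
  rw [← zpow_natCast, h1, zpow_add₀ (by norm_num), zpow_mul]
  norm_num

end

end Pool.Agent.SixB.GPar
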