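import Pool.Agent.Lib.SixB.CAePar
import Pool.Agent.Lib.SixB.S4W3Defs
import Pool.Agent.Lib.SixB.S4Plane
import Pool.Agent.Lib.SixB.S4Half
import Pool.Agent.Lib.SixB.S4Move
import Pool.Agent.Lib.SixB.A1Final
import Pool.Agent.Lib.SixB.S6LPerc
import Pool.Agent.Lib.SixB.S6LFlat

/-!
# 6BD block CA, the pole at `e`, part 2: the signed terms of the arcs of the two sides at the mark

Frame `κ`, wall mark `v` (contour vertex), the two sides `em = (fr -1 0, fr 0 0)`, `ep = (fr 0 0, fr 1 0)`; `F` is a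
half plane near `v` (`FlatZ F κ v D`).
* `lg F v r R`: indicator of a leg between two boxes; `wall_leg`: mean `≤ C r / R` at a flat wall, `any_leg`: mean
  `≤ C (r / R) ^ (1 / 4)` everywhere; `one_le_NF`: a leg is a crossing strand.
* `con_move`, `dst_move`, `Yv_move`: transport of strands contained in `B` under motions; `av_shift`: exact translation
  along the wall; `av_step`: change of `z` by one unit.
* `tE F T sn N e z z0`: the term of the arc of `e` in the height difference `z`, `z0` (product of the weights of the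
  other arcs), on the event that this arc ends in `N` (zero arc).
* `PoleE`: hypotheses on the weights at one side `e`. `PoleE.av_term`: mean = (mean of a local function) * (outer factor)
  up to legs.
* THEOREM `pole_pair`: `|av tE(em) + av tE(ep)| ≤ C c₀ (av H) (1 / s + s / (r D) + r ^ (-5 / 4))` for `z` outside of the box
  of radius `2 r`, all `r ≤ s ≤ D - 3`.
-/

set_option autoImplicit false
set_option linter.unusedSectionVars false

namespace Pool.Agent.SixB.Pole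

open Pool.Agent.Perc Pool.Agent.Perc.Q Pool.Agent.Perc6 Pool.Agent.PercD Relation
open Pool.Agent.SixB.Tilt

noncomputable section

variable {F F' B : Finset (ℤ × ℤ)} {ω ω' : Cfg} {κ : ZMod 4} {v w : ℤ × ℤ} {r s R D x y : ℤ}
  {e a b : DZ} {z q : VZ}

/-! ## Legs are crossing strands -/

section legs

variable {I M : Finset (ℤ × ℤ)} {a' : DZ}

private theorem side_of_ah {A : Finset (ℤ × ℤ)} (h : Ah ZQ A a) : ∃ f ∈ A, IsSide f (und a) := by
  obtain ⟨f, hf, k, rfl⟩ := h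
  exact ⟨f, hf, by rw [und_sd]; exact su_isSide f k⟩

private theorem side_of_ah_swap {A : Finset (ℤ × ℤ)} (h : Ah ZQ A a.swap) :
    ∃ f ∈ A, IsSide f (und a) := by
  obtain ⟨f, hf, k, e⟩ := h
  have e2 : a = (sd ZQ f k).swap := by rw [← e, Prod.swap_swap]
  exact ⟨f, hf, by rw [e2, und_sd_swap]; exact su_isSide f k⟩

private theorem srel_of_rtg (h : ReflTransGen (Nx ZQ ω (F : Set (ℤ × ℤ))) a b) :
    SRel ZQ F ω a b := by
  induction h with
  | refl => exact EqvGen.refl _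
  | tail _ hs ih => exact EqvGen.trans _ _ _ ih (EqvGen.rel _ _ hs)

private theorem leg_ahead (h : Leg ZQ ω F I M a) : Ah ZQ ((M \ I) ∪ (F \ M)) a := by
  obtain ⟨-, b, h2, h3⟩ := h
  rcases ReflTransGen.cases_head h2 with rfl | ⟨c, hc, -⟩
  · exact h3.mono Finset.subset_union_right
  · exact (ah_left hc).mono Finset.subset_union_left

private theorem leg_facts (hIM : I ⊆ M) (h : Leg ZQ ω F I M a) :
    (∃ f ∈ I, IsSide f (und a)) ∧ (∃ g, (g ∈ M ∨ g ∈ F) ∧ g ∉ I ∧ IsSide g (und a)) ∧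
    ∃ b : UE, b ∈ MM ω ((M \ I : Finset (ℤ × ℤ)) : Set (ℤ × ℤ)) (und a) ∧
      (∃ f ∈ M, IsSide f b) ∧ ∃ g ∈ F, g ∉ M ∧ IsSide g b := by
  have h4 := leg_ahead h
  obtain ⟨h1, b, h2, h3⟩ := h
  refine ⟨side_of_ah_swap h1, ?_, und b, MM_of_srel (srel_of_rtg h2), ?_, ?_⟩
  · obtain ⟨g, hg, hs⟩ := side_of_ah h4
    rcases Finset.mem_union.1 hg with hg | hg
    · rw [Finset.mem_sdiff] at hg
      exact ⟨g, Or.inl hg.1, hg.2, hs⟩
    · rw [Finset.mem_sdiff] at hg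
      exact ⟨g, Or.inr hg.1, fun h => hg.2 (hIM h), hs⟩
  · rcases ReflTransGen.cases_tail h2 with rfl | ⟨c, -, hc⟩
    · obtain ⟨f, hf, hs⟩ := side_of_ah_swap h1
      exact ⟨f, hIM hf, hs⟩
    · obtain ⟨f, hf, hs⟩ := side_of_ah_swap (ah_right hc)
      exact ⟨f, (Finset.mem_sdiff.1 hf).1, hs⟩
  · obtain ⟨g, hg, hs⟩ := side_of_ah h3
    rw [Finset.mem_sdiff] at hg
    exact ⟨g, hg.1, hg.2, hs⟩

private theorem bdR_of_sides {v : ℤ × ℤ} {s : ℤ} {f g : ℤ × ℤ} {e : UE} (hf : IsSide f e)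
    (hg : IsSide g e) (h1 : f ∈ BR v s) (h2 : g ∉ BR v s) : BdR v s e := by
  rw [mem_BR] at h1 h2
  obtain ⟨x, y⟩ := f
  obtain ⟨x', y'⟩ := g
  unfold BdR BdE
  rcases hf with rfl | rfl | rfl | rfl <;> rcases hg with h | h | h | h <;>
    simp only [bo, le', to', ri, Prod.mk.injEq, Bool.true_eq_false, Bool.false_eq_true, and_false,
      and_true] at h <;> simp only [bo, le', to', ri, Bool.true_eq_false, Bool.false_eq_true,
      false_and, true_and, false_or, or_false] <;> (dsimp only at h1 h2; omega)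

private theorem mem_UB_of_bdR {v : ℤ × ℤ} {r : ℤ} {b : UE} (h : BdR v r b) : b ∈ UB v r := by
  rw [PercD.mem_UB]
  unfold BdR BdE at h
  unfold InR ua
  omega

end legs


theorem box_sub (v : ℤ × ℤ) (h : r ≤ R) : F ∩ BR v r ⊆ F ∩ BR v R := by
  intro f hf
  rw [Finset.mem_inter, mem_BR] at hf ⊢
  exact ⟨hf.1, by omega⟩

theorem one_le_NF (hrR : r ≤ R) (h : ¬ NoLeg ZQ ω F (F ∩ BR v r) (F ∩ BR v R)) :
    1 ≤ NF (F : Set (ℤ × ℤ)) v r R ω := by
  classical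
  unfold NoLeg at h
  push Not at h
  obtain ⟨a, ha⟩ := h
  obtain ⟨⟨f, hf, hfs⟩, ⟨g, hg, hgI, hgs⟩, b, hb, ⟨f', hf', hfs'⟩, g', hg', hgM', hgs'⟩ :=
    leg_facts (box_sub v hrR) ha
  have hgF : g ∈ F := by
    rcases hg with hg | hg
    · exact (Finset.mem_inter.1 hg).1
    · exact hg
  have h1 : BdR v r (und a) := bdR_of_sides hfs hgs (Finset.mem_inter.1 hf).2
    fun h => hgI (Finset.mem_inter.2 ⟨hgF, h⟩)
  have h2 : BdR v R b := bdR_of_sides hfs' hgs' (Finset.mem_inter.1 hf').2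
    fun h => hgM' (Finset.mem_inter.2 ⟨hg', h⟩)
  unfold NF
  refine Finset.card_pos.2 ⟨und a, ?_⟩
  rw [Finset.mem_filter]
  refine ⟨mem_UB_of_bdR h1, h1, b, MM_mono ?_ hb, h2⟩
  intro f hf
  rw [Finset.mem_coe, Finset.mem_sdiff, Finset.mem_inter, Finset.mem_inter] at hf
  refine ⟨by exact_mod_cast hf.1.1, ?_⟩
  rw [Finset.mem_coe, PercN.mem_An]
  exact ⟨hf.1.2, fun h => hf.2 ⟨hf.1.1, h⟩⟩

open Classical in
/-- indicator of a leg between two boxes -/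
def lg (F : Finset (ℤ × ℤ)) (v : ℤ × ℤ) (r R : ℤ) (ω : Cfg) : ℝ :=
  if NoLeg ZQ ω F (F ∩ BR v r) (F ∩ BR v R) then 0 else 1

theorem lg_pos (h : NoLeg ZQ ω F (F ∩ BR v r) (F ∩ BR v R)) : lg F v r R ω = 0 := by
  unfold lg; rw [if_pos h]

theorem lg_neg (h : ¬ NoLeg ZQ ω F (F ∩ BR v r) (F ∩ BR v R)) : lg F v r R ω = 1 := by
  unfold lg; rw [if_neg h]

theorem lg_nonneg : 0 ≤ lg F v r R ω := by
  unfold lg; split_ifs <;> norm_num

theorem lg_le_one : lg F v r R ω ≤ 1 := by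
  unfold lg; split_ifs <;> norm_num

theorem lg_dep (F : Finset (ℤ × ℤ)) (v : ℤ × ℤ) (r R : ℤ) :
    Dep (((F ∩ BR v R) \ (F ∩ BR v r) : Finset (ℤ × ℤ)) : Set (ℤ × ℤ)) (lg F v r R) := by
  intro ω ω' h
  have h1 := noLeg_dep (Q := ZQ) (F := F) (I := F ∩ BR v r) (M := F ∩ BR v R) ω ω' h
  have h2 : NoLeg ZQ ω F (F ∩ BR v r) (F ∩ BR v R) ↔ NoLeg ZQ ω' F (F ∩ BR v r) (F ∩ BR v R) :=
    Iff.of_eq h1
  by_cases h3 : NoLeg ZQ ω F (F ∩ BR v r) (F ∩ BR v R)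
  · rw [lg_pos h3, lg_pos (h2.mp h3)]
  · rw [lg_neg h3, lg_neg fun h4 => h3 (h2.mpr h4)]

theorem av_lg_le (F : Finset (ℤ × ℤ)) (v : ℤ × ℤ) (hrR : r ≤ R) :
    av F (lg F v r R) ≤ pr (F ∪ BR v R) {ω | 1 ≤ NF (F : Set (ℤ × ℤ)) v r R ω} := by
  classical
  have h1 : Dep (F : Set (ℤ × ℤ)) (lg F v r R) := (lg_dep F v r R).mono (by
    intro f hf
    rw [Finset.mem_coe, Finset.mem_sdiff, Finset.mem_inter] at hf
    exact_mod_cast hf.1.1)
  rw [← av_dep h1 (Finset.subset_union_left (s₂ := BR v R)), pr_eq_av]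
  refine av_mono fun T _ => ?_
  unfold lg
  split_ifs with h2 h3 h3
  · norm_num
  · norm_num
  · norm_num
  · exact absurd (one_le_NF hrR h2) h3

/-- a flat wall in the language of `NFSym` -/
theorem flatAt_of_flatZ (h : FlatZ F κ v R) : FlatAt (F : Set (ℤ × ℤ)) v 0 R := by
  have key : ∀ f ∈ BR v R, ∃ x y, f = cl κ v x y ∧ (f ∈ F ↔ 0 ≤ y) := by
    intro f hf
    obtain ⟨x, y, rfl⟩ := exists_cl κ v f
    rw [cl_mem_BR] at hf
    exact ⟨x, y, rfl, h x y hf.1 hf.2.1 hf.2.2.1 hf.2.2.2⟩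
  rcases k4 κ with rfl | rfl | rfl | rfl
  · refine ⟨0, v.2, by simp [cw], fun f hf => ?_⟩
    obtain ⟨x, y, rfl, h1⟩ := key f hf
    rw [Finset.mem_coe, h1, cl_0]
    show 0 ≤ y ↔ v.2 ≤ v.2 + y
    omega
  · refine ⟨3, v.1, by simp [cw], fun f hf => ?_⟩
    obtain ⟨x, y, rfl, h1⟩ := key f hf
    rw [Finset.mem_coe, h1, cl_1]
    show 0 ≤ y ↔ v.1 - y - 1 < v.1
    omega
  · refine ⟨1, v.2, by simp [cw], fun f hf => ?_⟩
    obtain ⟨x, y, rfl, h1⟩ := key f hf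
    rw [Finset.mem_coe, h1, cl_2]
    show 0 ≤ y ↔ v.2 - y - 1 < v.2
    omega
  · refine ⟨2, v.1, by simp [cw], fun f hf => ?_⟩
    obtain ⟨x, y, rfl, h1⟩ := key f hf
    rw [Finset.mem_coe, h1, cl_3]
    show 0 ≤ y ↔ v.1 ≤ v.1 + y
    omega

/-- **one leg at a flat wall** -/
theorem wall_leg : ∃ C : ℝ, 0 < C ∧ ∀ (F : Finset (ℤ × ℤ)) (κ : ZMod 4) (v : ℤ × ℤ) (r R : ℤ),
    FlatZ F κ v R → 1 ≤ r → r ≤ R → av F (lg F v r R) ≤ C * ((r : ℝ) / R) := by
  obtain ⟨C, hC, h⟩ := nf_one_wall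
  refine ⟨C, hC, fun F κ v r R hF hr hrR => (av_lg_le F v hrR).trans ?_⟩
  obtain ⟨i, c, hc, h2⟩ := flatAt_of_flatZ hF
  exact h F v r R (F ∪ BR v R) hr hrR ⟨i, c, hc.trans (by omega), h2⟩ Finset.subset_union_right

/-- **one leg anywhere** -/
theorem any_leg : ∃ C : ℝ, 0 < C ∧ ∀ (F : Finset (ℤ × ℤ)) (v : ℤ × ℤ) (r R : ℤ),
    1 ≤ r → r ≤ R → av F (lg F v r R) ≤ C * ((r : ℝ) / R) ^ (1 / 4 : ℝ) := by
  obtain ⟨C, hC, h⟩ := pr_NF_pos
  refine ⟨C, hC, fun F v r R hr hrR => (av_lg_le F v hrR).trans ?_⟩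
  lift r to ℕ using by omega
  lift R to ℕ using by omega
  rw [Int.cast_natCast, Int.cast_natCast]
  exact h F v r R (F ∪ BR v (R : ℤ)) (by omega) (by omega) Finset.subset_union_right

/-! ## Motions -/

theorem cf_inv (m : Mot) (ω : Cfg) : m.inv.cf (m.cf ω) = ω := by
  funext f
  show ((ω (m.ψ.symm (m.ψ f)) == ev m.r) == ev (-m.r)) = ω f
  rw [Equiv.symm_apply_apply, ev_neg]
  cases ω f <;> cases ev m.r <;> rfl

theorem ah_iff {A : Finset (ℤ × ℤ)} {f : ℤ × ℤ} {k : ZMod 4} : Ah ZQ A (sd ZQ f k) ↔ f ∈ A := by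
  constructor
  · rintro ⟨g, hg, l, e⟩
    rw [(ZQ.inj (Prod.mk.inj e).1 (Prod.mk.inj e).2).1]
    exact hg
  · intro h
    exact ⟨f, h, k, rfl⟩

theorem ah_move (m : Mot) {A : Finset (ℤ × ℤ)} : Ah ZQ (m.im A) (m.e a) ↔ Ah ZQ A a := by
  constructor
  · rintro ⟨g, hg, k, hk⟩
    obtain ⟨f, rfl⟩ := m.ψ.surjective g
    refine ⟨f, m.psi_mem.mp hg, k - m.r, ?_⟩
    apply m.e.injective
    rw [hk, ← m.sd_e, sub_add_cancel]
  · rintro ⟨f, hf, k, rfl⟩
    exact ⟨m.ψ f, m.psi_mem.mpr hf, k + m.r, (m.sd_e f k).symm⟩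

/-- the strand of `m.e e` in the moved configuration -/
theorem con_move (m : Mot) (hB' : m.im B ⊆ F')
    (hN : ∀ a, Ah ZQ B a → Ah ZQ F' (m.e a).swap → Ah ZQ F a.swap)
    (he : e ∈ bS ZQ F) (he' : m.e e ∈ bS ZQ F') (hc : Con ZQ F B ω e) :
    mate ZQ F' (m.cf ω) (m.e e) = m.e (mate ZQ F ω e) ∧
      Con ZQ F' (m.im B) (m.cf ω) (m.e e) := by
  have h1 : ReflTransGen (Nx ZQ (m.cf ω) (m.im B : Set (ℤ × ℤ))) (m.e e)
      (m.e (mate ZQ F ω e)).swap := m.rtg_iff.mpr hc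
  have h2 : m.e (mate ZQ F ω e) ∈ bS ZQ F' := by
    have h3 := con_last he hc
    refine mem_bS_ah.mpr ⟨((ah_move m).mpr h3).mono hB', fun h4 => ?_⟩
    exact (mem_bS_ah.mp (mate_mem (ω := ω) he)).2 (hN _ h3 h4)
  have h4 : mate ZQ F' (m.cf ω) (m.e e) = m.e (mate ZQ F ω e) :=
    mate_eq he' h2 (rtg_sub hB' h1)
  refine ⟨h4, ?_⟩
  unfold Tilt.Con
  rw [h4]
  exact h1

theorem con_move_iff (m : Mot) (hBF : B ⊆ F) (hB' : m.im B ⊆ F')
    (hN : ∀ a, Ah ZQ B a → (Ah ZQ F' (m.e a).swap ↔ Ah ZQ F a.swap))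
    (he : e ∈ bS ZQ F) (he' : m.e e ∈ bS ZQ F') :
    Con ZQ F' (m.im B) (m.cf ω) (m.e e) ↔ Con ZQ F B ω e := by
  constructor
  · intro hc
    have h1 := con_move (F := F') (F' := F) (B := m.im B) (ω := m.cf ω) (e := m.e e) m.inv ?_ ?_ he'
      ?_ hc
    · have h2 := h1.2
      rw [m.im_inv, cf_inv] at h2
      have h3 : m.inv.e (m.e e) = e := m.e.symm_apply_apply e
      rwa [h3] at h2
    · rw [m.im_inv]
      exact hBF
    · intro a ha ha'
      obtain ⟨a, rfl⟩ := m.e.surjective a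
      have h3 : m.inv.e (m.e a) = a := m.e.symm_apply_apply a
      rw [h3] at ha'
      exact (hN a ((ah_move m).mp ha)).mpr ha'
    · have h3 : m.inv.e (m.e e) = e := m.e.symm_apply_apply e
      rw [h3]
      exact he
  · intro hc
    exact (con_move m hB' (fun a ha => (hN a ha).mp) he he' hc).2

theorem dst_move (m : Mot) (hBF : B ⊆ F) (hB' : m.im B ⊆ F')
    (hN : ∀ a, Ah ZQ B a → (Ah ZQ F' (m.e a).swap ↔ Ah ZQ F a.swap))
    (he : e ∈ bS ZQ F) (he' : m.e e ∈ bS ZQ F') (hc : Con ZQ F B ω e) :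
    m.e a ∈ dst ZQ F' (m.cf ω) (m.e e) ↔ a ∈ dst ZQ F ω e := by
  have hc' := (con_move_iff m hBF hB' hN he he').mpr hc
  rw [mem_dst_con hB' he' hc', mem_dst_con hBF he hc]
  exact m.rtg_iff

/-- **transport of the local function** -/
theorem Yv_move (m : Mot) (hP : HasPotQ ZQ F) (hP' : HasPotQ ZQ F') (hBF : B ⊆ F)
    (hB' : m.im B ⊆ F')
    (hN : ∀ a, Ah ZQ B a → (Ah ZQ F' (m.e a).swap ↔ Ah ZQ F a.swap))
    (he : e ∈ bS ZQ F) (he' : m.e e ∈ bS ZQ F') (hz : ConnE ZQ B z q) :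
    Yv ZQ F' (m.im B) (m.e e) (m.φ z) (m.φ q) (m.cf ω) = Yv ZQ F B e z q ω := by
  by_cases hc : Con ZQ F B ω e
  · have hc' := (con_move_iff m hBF hB' hN he he').mpr hc
    unfold Yv
    rw [if_pos hc, if_pos hc']
    congr 1
    have h1 := lft_spec hP (dst_mem_dstr (ω := ω) (mem_bS.mp he).1)
    have h2 := lft_spec hP' (dst_mem_dstr (ω := m.cf ω) (mem_bS.mp he').1)
    refine sub_eq_of_inc (u := fun w => lft ZQ F' (dst ZQ F' (m.cf ω) (m.e e)) (m.φ w))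
      (v := lft ZQ F (dst ZQ F ω e)) (fun a ha => ?_) hz
    have h3 : m.e a ∈ dE ZQ F' := dE_mono hB' (m.mem_dE_e.mpr ha)
    have h4 := h2.inc (m.e a) h3
    have h5 := h1.inc a (dE_mono hBF ha)
    have h6 := dst_move (a := a) m hBF hB' hN he he' hc
    have h7 := dst_move (a := a.swap) m hBF hB' hN he he' hc
    rw [m.e_swap] at h7
    simp only [h6, h7] at h4
    rw [h5]
    exact h4
  · unfold Yv
    rw [if_neg hc, if_neg fun h => hc ((con_move_iff m hBF hB' hN he he').mp h)]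

/-! ## Translation along the wall -/

/-- the translation by one unit along the wall -/
def tw (κ : ZMod 4) : Mot := Mot.tr (fr κ (0, 0) 1 0)

theorem tw_phi (κ : ZMod 4) (v : ℤ × ℤ) (x y : ℤ) : (tw κ).φ (fr κ v x y) = fr κ v (x + 1) y := by
  show fr κ v x y + fr κ (0, 0) 1 0 = _
  rcases k4 κ with rfl | rfl | rfl | rfl
  · rw [fr_0, fr_0, fr_0]; apply Prod.ext <;> simp only [Prod.fst_add, Prod.snd_add] <;> ring
  · rw [fr_1, fr_1, fr_1]; apply Prod.ext <;> simp only [Prod.fst_add, Prod.snd_add] <;> ring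
  · rw [fr_2, fr_2, fr_2]; apply Prod.ext <;> simp only [Prod.fst_add, Prod.snd_add] <;> ring
  · rw [fr_3, fr_3, fr_3]; apply Prod.ext <;> simp only [Prod.fst_add, Prod.snd_add] <;> ring

theorem tw_psi (κ : ZMod 4) (v : ℤ × ℤ) (x y : ℤ) : (tw κ).ψ (cl κ v x y) = cl κ v (x + 1) y := by
  show cl κ v x y + fr κ (0, 0) 1 0 = _
  rcases k4 κ with rfl | rfl | rfl | rfl
  · rw [cl_0, fr_0, cl_0]; apply Prod.ext <;> simp only [Prod.fst_add, Prod.snd_add] <;> ring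
  · rw [cl_1, fr_1, cl_1]; apply Prod.ext <;> simp only [Prod.fst_add, Prod.snd_add] <;> ring
  · rw [cl_2, fr_2, cl_2]; apply Prod.ext <;> simp only [Prod.fst_add, Prod.snd_add] <;> ring
  · rw [cl_3, fr_3, cl_3]; apply Prod.ext <;> simp only [Prod.fst_add, Prod.snd_add] <;> ring

/-- the face on the other side of a side -/
theorem nbr (κ : ZMod 4) (v : ℤ × ℤ) (x y : ℤ) (k : ZMod 4) : ∃ x' y' k',
    (sd ZQ (cl κ v x y) k).swap = sd ZQ (cl κ v x' y') k' ∧ x - 1 ≤ x' ∧ x' ≤ x + 1 ∧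
      y - 1 ≤ y' ∧ y' ≤ y + 1 := by
  rcases k4' κ k with rfl | rfl | rfl | rfl
  · refine ⟨x, y - 1, k + 2, ?_, by omega, by omega, by omega, by omega⟩
    rw [sd_0, sd_2, sub_add_cancel]
    rfl
  · refine ⟨x + 1, y, κ + 3, ?_, by omega, by omega, by omega, by omega⟩
    rw [sd_1, sd_3]
    rfl
  · refine ⟨x, y + 1, κ, ?_, by omega, by omega, by omega, by omega⟩
    rw [sd_2, sd_0]
    rfl
  · refine ⟨x - 1, y, κ + 1, ?_, by omega, by omega, by omega, by omega⟩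
    rw [sd_3, sd_1, sub_add_cancel]
    rfl

theorem mem_box_shift (h : FlatZ F κ v D) (hs : s + 1 ≤ D) :
    cl κ v x y ∈ F ∩ BR (fr κ v 1 0) s ↔ 1 - s ≤ x ∧ x < 1 + s ∧ 0 ≤ y ∧ y < s := by
  have e : cl κ v x y = cl κ (fr κ v 1 0) (x - 1) y := by
    rw [cl_shift]
    congr 1 <;> ring
  rw [Finset.mem_inter]
  constructor
  · rintro ⟨h1, h2⟩
    rw [e, cl_mem_BR] at h2
    have := (h x y (by omega) (by omega) (by omega) (by omega)).mp h1
    omega
  · rintro ⟨h1, h2, h3, h4⟩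
    refine ⟨(h x y (by omega) (by omega) (by omega) (by omega)).mpr h3, ?_⟩
    rw [e, cl_mem_BR]
    omega

theorem im_box (h : FlatZ F κ v D) (hs : s + 1 ≤ D) :
    (tw κ).im (F ∩ BR v s) = F ∩ BR (fr κ v 1 0) s := by
  ext f
  obtain ⟨x, y, rfl⟩ := exists_cl κ v f
  have e : cl κ v x y = (tw κ).ψ (cl κ v (x - 1) y) := by
    rw [tw_psi, sub_add_cancel]
  rw [mem_box_shift h hs, e, Mot.psi_mem, h.mem_box (by omega)]
  omega

theorem hN_box (h : FlatZ F κ v D) (hs : s + 2 ≤ D) :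
    ∀ a, Ah ZQ (F ∩ BR v s) a → (Ah ZQ F ((tw κ).e a).swap ↔ Ah ZQ F a.swap) := by
  rintro a ⟨f, hf, k, rfl⟩
  obtain ⟨x, y, rfl⟩ := exists_cl κ v f
  rw [h.mem_box (by omega)] at hf
  obtain ⟨x', y', k', e1, h1, h2, h3, h4⟩ := nbr κ v x y k
  rw [← (tw κ).e_swap, e1, ← (tw κ).sd_e, ah_iff, ah_iff, tw_psi,
    h _ _ (by omega) (by omega) (by omega) (by omega), h _ _ (by omega) (by omega) (by omega) (by omega)]

/-- the two sides at the mark -/
def em (κ : ZMod 4) (v : ℤ × ℤ) : DZ := (fr κ v (-1) 0, fr κ v 0 0)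

def ep (κ : ZMod 4) (v : ℤ × ℤ) : DZ := (fr κ v 0 0, fr κ v 1 0)

theorem tw_em (κ : ZMod 4) (v : ℤ × ℤ) : (tw κ).e (em κ v) = ep κ v := by
  unfold em ep
  rw [Mot.e_mk, tw_phi, tw_phi]
  rfl

theorem em_mem (h : FlatZ F κ v D) (hD : 1 ≤ D) : em κ v ∈ bS ZQ F := by
  have := h.side (x := -1) (by omega) (by omega)
  exact this

theorem ep_mem (h : FlatZ F κ v D) (hD : 1 ≤ D) : ep κ v ∈ bS ZQ F := by
  have := h.side (x := 0) (by omega) (by omega)
  exact this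

theorem em_sd (κ : ZMod 4) (v : ℤ × ℤ) : em κ v = sd ZQ (cl κ v (-1) 0) κ := by
  rw [sd_0]; rfl

theorem ep_sd (κ : ZMod 4) (v : ℤ × ℤ) : ep κ v = sd ZQ (cl κ v 0 0) κ := by
  rw [sd_0]; rfl

/-! ## Averages of the local functions -/

theorem av_Yv_em (h : FlatZ F κ v D) (hD : 1 ≤ D) (z q : VZ) :
    av F (Yv ZQ F (F ∩ BR v s) (em κ v) z q) =
      av (F ∩ BR v s) (Yv ZQ F (F ∩ BR v s) (em κ v) z q) :=
  av_dep (Yv_dep Finset.inter_subset_left (em_mem h hD) z q) Finset.inter_subset_left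

/-- **exact translation** -/
theorem av_shift (h : FlatZ F κ v D) (hP : HasPotQ ZQ F) (hs : s + 2 ≤ D) (hs0 : 0 ≤ s)
    (hz : ConnE ZQ (F ∩ BR v s) z q) :
    av F (Yv ZQ F (F ∩ BR (fr κ v 1 0) s) (ep κ v) ((tw κ).φ z) ((tw κ).φ q)) =
      av F (Yv ZQ F (F ∩ BR v s) (em κ v) z q) := by
  have hem := em_mem h (by omega)
  have hep := ep_mem h (by omega)
  rw [av_Yv_em h (by omega)]
  have h1 : av F (Yv ZQ F (F ∩ BR (fr κ v 1 0) s) (ep κ v) ((tw κ).φ z) ((tw κ).φ q)) =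
      av (F ∩ BR (fr κ v 1 0) s)
        (Yv ZQ F (F ∩ BR (fr κ v 1 0) s) (ep κ v) ((tw κ).φ z) ((tw κ).φ q)) :=
    av_dep (Yv_dep Finset.inter_subset_left hep _ _) Finset.inter_subset_left
  rw [h1, ← im_box h (by omega)]
  refine (tw κ).av_move (Yv_dep Finset.inter_subset_left hem z q) fun ω => ?_
  rw [← tw_em κ v]
  refine Yv_move (tw κ) hP hP Finset.inter_subset_left ?_ (hN_box h hs) hem ?_ hz
  · rw [im_box h (by omega)]
    exact Finset.inter_subset_left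
  · rw [tw_em]
    exact hep

/-- the strand of `e` stays in a box -/
theorem con_of_noLeg (hrR : r ≤ R) (he : e ∈ bS ZQ F) (hI : Ah ZQ (F ∩ BR v r) e)
    (h : NoLeg ZQ ω F (F ∩ BR v r) (F ∩ BR v R)) : Tilt.Con ZQ F (F ∩ BR v R) ω e :=
  stay_in (box_sub v hrR) Finset.inter_subset_left h he fun h2 =>
    ah_disj (Finset.disjoint_sdiff (s := F ∩ BR v r) (t := F)) hI (con_first he (con_sdiff.mpr h2))

/-- a strand of `e` which uses the unit edge `a` makes a leg at `v` and a leg at `w` -/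
theorem leg_two (he : e ∈ bS ZQ F) (hr : 1 ≤ r) (hI : Ah ZQ (F ∩ BR v 1) e)
    (ha1 : a ∈ dE ZQ (F \ (F ∩ BR v r))) (ha2 : a ∈ dE ZQ (F ∩ BR w 1))
    (hw : ¬ Ah ZQ (F ∩ BR w r) e) (ha : a ∈ dst ZQ F ω e ∨ a.swap ∈ dst ZQ F ω e) :
    lg F v 1 r ω = 1 ∧ lg F w 1 r ω = 1 := by
  constructor
  · apply lg_neg
    intro h
    have h1 := con_no_side' Finset.inter_subset_left he (con_of_noLeg hr he hI h) ha1
    rcases ha with ha | ha
    · exact h1.1 ha
    · exact h1.2 ha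
  · apply lg_neg
    intro h
    by_cases hA : Avo ZQ F (F ∩ BR w 1) ω e
    · have h1 := con_no_side' (B := F \ (F ∩ BR w 1)) (a := a) Finset.sdiff_subset he
        (con_sdiff.mpr hA) (by
          rw [Finset.sdiff_sdiff_eq_self Finset.inter_subset_left]
          exact ha2)
      rcases ha with ha | ha
      · exact h1.1 ha
      · exact h1.2 ha
    · exact hw (con_first he (stay_in (box_sub w hr) Finset.inter_subset_left h he hA))

/-- product of two indicators of legs in disjoint boxes -/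
theorem av_lg_mul {r' R' : ℤ} (hd : Disjoint (BR v R) (BR w R')) :
    av F (fun ω => lg F v r R ω * lg F w r' R' ω) = av F (lg F v r R) * av F (lg F w r' R') := by
  refine av_indep' ?_ (lg_dep F v r R) (lg_dep F w r' R') ?_ ?_
  · rw [Finset.disjoint_left] at hd ⊢
    intro f hf hf'
    rw [Finset.mem_sdiff, Finset.mem_inter] at hf hf'
    exact hd hf.1.2 hf'.1.2
  · exact Finset.sdiff_subset.trans Finset.inter_subset_left
  · exact Finset.sdiff_subset.trans Finset.inter_subset_left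

/-- **the change of `z` by one unit along the wall** -/
theorem av_step (h : FlatZ F κ v D) (hP : HasPotQ ZQ F) (hr : 1 ≤ r) (hx : -D < x) (hx' : x + 1 < D)
    (hy : 0 ≤ y) (hy' : y < D) (hrD : r + 1 ≤ D) (hfar : 2 * r ≤ |x + 1| - 1 ∨ 2 * r ≤ y) (B : Finset (ℤ × ℤ))
    (q : VZ) :
    |av F (Yv ZQ F B (em κ v) (fr κ v x y) q) - av F (Yv ZQ F B (em κ v) (fr κ v (x + 1) y) q)| ≤
      av F (lg F v 1 r) * av F (lg F (fr κ v (x + 1) y) 1 r) := by
  have hem := em_mem h (by omega)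
  have hcl : cl κ v x y ∈ F := (h x y (by omega) (by omega) (by omega) (by omega)).mpr hy
  have ha : ∀ G : Finset (ℤ × ℤ), cl κ v x y ∈ G → (fr κ v x y, fr κ v (x + 1) y) ∈ dE ZQ G :=
    fun G hG => edge_h (Or.inl hG)
  have hzr : ∀ c d : ℤ, cl κ v c d = cl κ (fr κ v (x + 1) y) (c - (x + 1)) (d - y) := by
    intro c d
    rw [cl_shift]
    congr 1 <;> ring
  rw [← av_lg_mul]
  · refine abs_av_sub_le fun T _ => ?_
    refine (Yv_step hP hem (ha F hcl)).trans ?_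
    split_ifs with h1
    · have h2 := leg_two (ω := ind T) (a := (fr κ v x y, fr κ v (x + 1) y)) (v := v)
        (w := fr κ v (x + 1) y) hem hr ?_ (ha _ ?_) (ha _ ?_) ?_ h1
      · rw [h2.1, h2.2, mul_one]
      · rw [em_sd, ah_iff, h.mem_box (by omega)]
        omega
      · rw [Finset.mem_sdiff, h.mem_box (by omega)]
        refine ⟨hcl, fun h3 => ?_⟩
        rcases hfar with h4 | h4
        · rcases abs_cases (x + 1) with ⟨h5, _⟩ | ⟨h5, _⟩ <;> omega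
        · omega
      · rw [Finset.mem_inter]
        refine ⟨hcl, ?_⟩
        rw [hzr, cl_mem_BR]
        omega
      · rw [em_sd, ah_iff, Finset.mem_inter, hzr, cl_mem_BR]
        rintro ⟨-, h3⟩
        rcases hfar with h4 | h4
        · rcases abs_cases (x + 1) with ⟨h5, _⟩ | ⟨h5, _⟩ <;> omega
        · omega
    · exact mul_nonneg lg_nonneg lg_nonneg
  · rw [Finset.disjoint_left]
    intro f hf hf'
    obtain ⟨c, d, rfl⟩ := exists_cl κ v f
    rw [cl_mem_BR] at hf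
    rw [hzr, cl_mem_BR] at hf'
    rcases hfar with h4 | h4
    · rcases abs_cases (x + 1) with ⟨h5, _⟩ | ⟨h5, _⟩ <;> omega
    · omega

/-! ## The term of the arc of `e` -/

/-- the term of the arc of `e` in the height difference of `z` and `z0`, if this arc ends in `N` -/
def tE (F : Finset (ℤ × ℤ)) (T : Sym2 DZ → ℝ) (sn : DZ → ℝ) (N : Finset DZ) (e : DZ) (z z0 : VZ)
    (ω : Cfg) : ℝ :=
  if mate ZQ F ω e ∈ N then
    ((lft ZQ F (dst ZQ F ω e) z - lft ZQ F (dst ZQ F ω e) z0 : ℤ) : ℝ) *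
      sn (mate ZQ F ω e) * prO ZQ F T e ω
  else 0

/-- the weights at the side `e`: `U` = set of sides which fixes the signs, `N` = the sides on which the
arc of `e` has weight zero, `sn` = numerators of the arc of `e`, `H` = majorant -/
structure PoleE (F : Finset (ℤ × ℤ)) (v : ℤ × ℤ) (D : ℤ) (H : Cfg → ℝ) (c₀ : ℝ) (e : DZ)
    (T : Sym2 DZ → ℝ) (sn : DZ → ℝ) (N U : Finset DZ) : Prop where
  subU : U ⊆ bS ZQ F
  notU : e ∉ U
  near : ∀ b ∈ wall ZQ F (F ∩ BR v D), b ≠ e → b ∈ N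
  loc : ∀ a ∈ wall ZQ F (F ∩ BR v D), ∀ b ∈ wall ZQ F (F ∩ BR v D), a ≠ e → b ≠ e →
    sgW U T s(a, b) = 1
  num : ∀ b ∈ wall ZQ F (F ∩ BR v D), b ≠ e → sn b * sgU U b = c₀
  bound : ∀ b ∈ N, |sn b| ≤ c₀
  maj : ∀ ω, mate ZQ F ω e ∈ N → |prO ZQ F T e ω| ≤ H ω

section term

variable {H : Cfg → ℝ} {c₀ : ℝ} {T : Sym2 DZ → ℝ} {sn : DZ → ℝ} {N U : Finset DZ} {z0 : VZ}
  {s1 s2 : ℤ}

theorem PoleE.prO_eq (hE : PoleE F v D H c₀ e T sn N U) (he : e ∈ bS ZQ F) :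
    prO ZQ F T e ω = (-1) ^ U.card * sgU U (mate ZQ F ω e) * prO ZQ F (sgW U T) e ω := by
  rw [prO_sgW zq_noLoop hE.subU he]
  have h1 : sgU U e = 1 := by unfold sgU; rw [if_neg hE.notU]
  rw [h1]
  have h2 := sgU_sq U (mate ZQ F ω e)
  have h3 : ((-1 : ℝ) ^ U.card) * (-1) ^ U.card = 1 := by
    rw [← mul_pow]
    norm_num
  linear_combination (-(prO ZQ F T e ω)) * h2 -
    (prO ZQ F T e ω * sgU U (mate ZQ F ω e) * sgU U (mate ZQ F ω e)) * h3

theorem PoleE.abs_prO (hE : PoleE F v D H c₀ e T sn N U) (he : e ∈ bS ZQ F) :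
    |prO ZQ F (sgW U T) e ω| = |prO ZQ F T e ω| := by
  rw [hE.prO_eq he, abs_mul, abs_mul, abs_sgU, abs_pow, abs_neg, abs_one, one_pow, one_mul, one_mul]

/-- mate in the wall of the big box -/
theorem PoleE.mate_near (hE : PoleE F v D H c₀ e T sn N U) (he : e ∈ bS ZQ F)
    (hB : B ⊆ F ∩ BR v D) (hc : Tilt.Con ZQ F B ω e) :
    mate ZQ F ω e ∈ wall ZQ F (F ∩ BR v D) ∧ mate ZQ F ω e ≠ e ∧ mate ZQ F ω e ∈ N := by
  have h1 : mate ZQ F ω e ∈ wall ZQ F (F ∩ BR v D) :=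
    mem_wall.mpr ⟨mate_mem he, (con_last he hc).mono hB⟩
  have h2 := mate_ne (ω := ω) zq_noLoop he
  exact ⟨h1, h2, hE.near _ h1 h2⟩

/-- the outer factor -/
def gO (F : Finset (ℤ × ℤ)) (v : ℤ × ℤ) (s2 D : ℤ) (T : Sym2 DZ → ℝ) (ω : Cfg) : ℝ :=
  (1 - lg F v s2 D ω) * WtAvo ZQ F (F ∩ BR v s2) T ω

theorem gO_dep (F : Finset (ℤ × ℤ)) (v : ℤ × ℤ) (s2 D : ℤ) (T : Sym2 DZ → ℝ) :
    Dep ((F \ (F ∩ BR v s2) : Finset (ℤ × ℤ)) : Set (ℤ × ℤ)) (gO F v s2 D T) := by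
  intro ω ω' h
  have h1 := lg_dep F v s2 D ω ω' fun f hf => h f (by
    rw [Finset.mem_coe, Finset.mem_sdiff, Finset.mem_inter] at hf
    rw [Finset.mem_coe, Finset.mem_sdiff]
    exact ⟨hf.1.1, hf.2⟩)
  have h2 := WtAvo_dep (Q := ZQ) (F := F) (I := F ∩ BR v s2) T ω ω' h
  unfold gO
  simp only at h2
  rw [h1, h2]

theorem gO_eq (hE : PoleE F v D H c₀ e T sn N U) (he : e ∈ bS ZQ F) (hs : s2 ≤ D)
    (hI : Ah ZQ (F ∩ BR v s2) e) :
    gO F v s2 D (sgW U T) ω = (1 - lg F v s2 D ω) * prO ZQ F (sgW U T) e ω := by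
  unfold gO
  by_cases h : NoLeg ZQ ω F (F ∩ BR v s2) (F ∩ BR v D)
  · rw [prO_noleg (box_sub v hs) Finset.inter_subset_left h he hI hE.loc]
  · rw [lg_neg h, sub_self, zero_mul, zero_mul]

theorem abs_gO_le (hE : PoleE F v D H c₀ e T sn N U) (he : e ∈ bS ZQ F) (hs : s2 ≤ D)
    (hI : Ah ZQ (F ∩ BR v s2) e) (hH0 : ∀ ω, 0 ≤ H ω) :
    |gO F v s2 D (sgW U T) ω| ≤ H ω := by
  rw [gO_eq hE he hs hI]
  by_cases h : NoLeg ZQ ω F (F ∩ BR v s2) (F ∩ BR v D)
  · rw [lg_pos h, sub_zero, one_mul, hE.abs_prO he]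
    exact hE.maj ω (hE.mate_near he subset_rfl (con_of_noLeg hs he hI h)).2.2
  · rw [lg_neg h, sub_self, zero_mul, abs_zero]
    exact hH0 ω

/-- **the term of `e`**: local function times outer factor, up to legs -/
theorem PoleE.term (hE : PoleE F v D H c₀ e T sn N U) (he : e ∈ bS ZQ F) (hP : HasPotQ ZQ F)
    (hc0 : 0 ≤ c₀) (hI : Ah ZQ (F ∩ BR v 1) e) (h1 : 1 ≤ s1) (hB1 : F ∩ BR v s1 ⊆ B)
    (hB2 : B ⊆ F ∩ BR v s2) (h12 : 1 ≤ s2) (h2 : s2 ≤ D) (hH0 : ∀ ω, 0 ≤ H ω)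
    (hq : ConnE ZQ (F \ B) q z0) (ω : Cfg) :
    |tE F T sn N e z z0 ω - (-1) ^ U.card * c₀ * (Yv ZQ F B e z q ω * gO F v s2 D (sgW U T) ω)| ≤
      c₀ * (lg F v 1 s1 ω * H ω) + c₀ * (|Yv ZQ F B e z q ω| * (lg F v s2 D ω * H ω)) := by
  have hBF : B ⊆ F := hB2.trans Finset.inter_subset_left
  have hI2 : Ah ZQ (F ∩ BR v s2) e := hI.mono (box_sub v h12)
  rw [gO_eq hE he h2 hI2]
  by_cases hc : Tilt.Con ZQ F B ω e
  · obtain ⟨k1, k2, k3⟩ := hE.mate_near he (hB2.trans (box_sub v h2)) hc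
    have e1 : lft ZQ F (dst ZQ F ω e) z0 = lft ZQ F (dst ZQ F ω e) q :=
      (lft_con hP hBF he hc hq).symm
    have e2 : Yv ZQ F B e z q ω =
        ((lft ZQ F (dst ZQ F ω e) z - lft ZQ F (dst ZQ F ω e) q : ℤ) : ℝ) := by
      unfold Yv; rw [if_pos hc]
    have e3 : tE F T sn N e z z0 ω = (-1) ^ U.card * c₀ *
        (Yv ZQ F B e z q ω * prO ZQ F (sgW U T) e ω) := by
      unfold tE
      rw [if_pos k3, e1, ← e2, hE.prO_eq he, ← hE.num _ k1 k2]
      ring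
    have e4 : tE F T sn N e z z0 ω - (-1) ^ U.card * c₀ *
        (Yv ZQ F B e z q ω * ((1 - lg F v s2 D ω) * prO ZQ F (sgW U T) e ω)) =
        (-1) ^ U.card * (c₀ * (Yv ZQ F B e z q ω * (lg F v s2 D ω * prO ZQ F (sgW U T) e ω))) := by
      rw [e3]
      ring
    rw [e4, abs_mul, abs_pow, abs_neg, abs_one, one_pow, one_mul, abs_mul, abs_of_nonneg hc0,
      abs_mul, abs_mul, abs_of_nonneg (lg_nonneg (F := F) (v := v) (r := s2) (R := D) (ω := ω)),
      hE.abs_prO he]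
    have h5 := hE.maj ω k3
    have h6 : 0 ≤ c₀ * (lg F v 1 s1 ω * H ω) := mul_nonneg hc0 (mul_nonneg lg_nonneg (hH0 ω))
    have h7 : c₀ * (|Yv ZQ F B e z q ω| * (lg F v s2 D ω * |prO ZQ F T e ω|)) ≤
        c₀ * (|Yv ZQ F B e z q ω| * (lg F v s2 D ω * H ω)) :=
      mul_le_mul_of_nonneg_left (mul_le_mul_of_nonneg_left
        (mul_le_mul_of_nonneg_left h5 lg_nonneg) (abs_nonneg _)) hc0
    linarith
  · have e2 : Yv ZQ F B e z q ω = 0 := by unfold Yv; rw [if_neg hc]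
    have e3 : lg F v 1 s1 ω = 1 := by
      apply lg_neg
      intro h3
      exact hc (con_mono hB1 (con_of_noLeg h1 he hI h3))
    rw [e2, e3, zero_mul, mul_zero, sub_zero, abs_zero, zero_mul, mul_zero, add_zero, one_mul]
    unfold tE
    split_ifs with h3
    · rw [abs_mul, abs_mul]
      have h4 := abs_lft_sub (ω := ω) hP he z z0
      have h5 := hE.bound _ h3
      have h6 := hE.maj ω h3
      have h7 : |((lft ZQ F (dst ZQ F ω e) z - lft ZQ F (dst ZQ F ω e) z0 : ℤ) : ℝ)| *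
          |sn (mate ZQ F ω e)| ≤ 1 * c₀ := mul_le_mul h4 h5 (abs_nonneg _) zero_le_one
      rw [one_mul] at h7
      exact mul_le_mul h7 h6 (abs_nonneg _) hc0
    · rw [abs_zero]
      exact mul_nonneg hc0 (hH0 ω)

theorem dep_mul {S : Set (ℤ × ℤ)} {f g : Cfg → ℝ} (hf : Dep S f) (hg : Dep S g) :
    Dep S (fun ω => f ω * g ω) := fun ω ω' h => by simp only [hf ω ω' h, hg ω ω' h]

theorem dep_abs {S : Set (ℤ × ℤ)} {f : Cfg → ℝ} (hf : Dep S f) :
    Dep S (fun ω => |f ω|) := fun ω ω' h => by simp only [hf ω ω' h]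

/-- **the mean of the term of `e`** -/
theorem PoleE.av_term (hE : PoleE F v D H c₀ e T sn N U) (he : e ∈ bS ZQ F) (hP : HasPotQ ZQ F)
    (hc0 : 0 ≤ c₀) (hI : Ah ZQ (F ∩ BR v 1) e) (h1 : 1 ≤ s1) (h1D : s1 ≤ D) (hB1 : F ∩ BR v s1 ⊆ B)
    (hB2 : B ⊆ F ∩ BR v s2) (h12 : 1 ≤ s2) (h2 : s2 ≤ D) (hH0 : ∀ ω, 0 ≤ H ω)
    (hH : Dep ((F \ (F ∩ BR v D) : Finset (ℤ × ℤ)) : Set (ℤ × ℤ)) H)
    (hq : ConnE ZQ (F \ B) q z0) :
    |av F (tE F T sn N e z z0) - (-1) ^ U.card * c₀ *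
        (av F (Yv ZQ F B e z q) * av F (gO F v s2 D (sgW U T)))| ≤
      c₀ * (av F H * (av F (lg F v 1 s1) +
        av F (fun ω => |Yv ZQ F B e z q ω|) * av F (lg F v s2 D))) := by
  have hBF : B ⊆ F := hB2.trans Finset.inter_subset_left
  have hsub : F ∩ BR v s2 ⊆ F ∩ BR v D := box_sub v h2
  have hY : Dep (B : Set (ℤ × ℤ)) (Yv ZQ F B e z q) := Yv_dep hBF he z q
  have i1 : av F (fun ω => Yv ZQ F B e z q ω * gO F v s2 D (sgW U T) ω) =
      av F (Yv ZQ F B e z q) * av F (gO F v s2 D (sgW U T)) := by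
    refine av_indep' ?_ hY (gO_dep F v s2 D _) hBF Finset.sdiff_subset
    exact Finset.disjoint_of_subset_left hB2 Finset.disjoint_sdiff
  have i2 : av F (fun ω => lg F v 1 s1 ω * H ω) = av F (lg F v 1 s1) * av F H := by
    refine av_indep' ?_ (lg_dep F v 1 s1) hH
      (Finset.sdiff_subset.trans Finset.inter_subset_left) Finset.sdiff_subset
    exact Finset.disjoint_of_subset_left (Finset.sdiff_subset.trans (box_sub v h1D))
      Finset.disjoint_sdiff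
  have i3 : av F (fun ω => lg F v s2 D ω * H ω) = av F (lg F v s2 D) * av F H := by
    refine av_indep' ?_ (lg_dep F v s2 D) hH
      (Finset.sdiff_subset.trans Finset.inter_subset_left) Finset.sdiff_subset
    exact Finset.disjoint_of_subset_left Finset.sdiff_subset Finset.disjoint_sdiff
  have i4 : av F (fun ω => |Yv ZQ F B e z q ω| * (lg F v s2 D ω * H ω)) =
      av F (fun ω => |Yv ZQ F B e z q ω|) * (av F (lg F v s2 D) * av F H) := by
    rw [← i3]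
    refine av_indep' (S₂ := F \ (F ∩ BR v s2)) ?_ (dep_abs hY) (dep_mul ?_ ?_) hBF
      Finset.sdiff_subset
    · exact Finset.disjoint_of_subset_left hB2 Finset.disjoint_sdiff
    · refine (lg_dep F v s2 D).mono ?_
      rw [Finset.coe_subset]
      exact Finset.sdiff_subset_sdiff Finset.inter_subset_left subset_rfl
    · refine hH.mono ?_
      rw [Finset.coe_subset]
      exact Finset.sdiff_subset_sdiff subset_rfl hsub
  have key := abs_av_sub_le (S := F) (g := tE F T sn N e z z0)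
    (g' := fun ω => (-1) ^ U.card * c₀ * (Yv ZQ F B e z q ω * gO F v s2 D (sgW U T) ω))
    (b := fun ω => c₀ * (lg F v 1 s1 ω * H ω) +
      c₀ * (|Yv ZQ F B e z q ω| * (lg F v s2 D ω * H ω)))
    fun T' _ => hE.term he hP hc0 hI h1 hB1 hB2 h12 h2 hH0 hq (ind T')
  rw [av_mul, i1, av_add, av_mul, av_mul, i2, i4] at key
  refine key.trans (le_of_eq ?_)
  ring

end term

/-! ## Paths at the wall -/

theorem ConnE.mono' {G G' : Finset (ℤ × ℤ)} (h : G ⊆ G') (hc : ConnE ZQ G z q) :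
    ConnE ZQ G' z q := rtg_mono (fun _ _ h1 => dE_mono h h1) hc

theorem cl_out (h : FlatZ F κ v D) (hr : r ≤ D) (hx : -D ≤ x) (hx' : x < D) (hy : 0 ≤ y) (hy' : y < D)
    (ho : x < -r ∨ r ≤ x ∨ r ≤ y) : cl κ v x y ∈ F \ (F ∩ BR v r) := by
  rw [Finset.mem_sdiff, h.mem_box hr]
  exact ⟨(h x y hx hx' (by omega) hy').mpr hy, by omega⟩

/-- around a half box -/
theorem conn_out (h : FlatZ F κ v D) {X Y : ℤ} (hx : -D < x) (hx' : x < D) (hX : -D < X)
    (hX' : X < D) (hy : 0 ≤ y) (hyY : y ≤ Y) (hY : Y < D) (hrY : r ≤ Y)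
    (hfar : r ≤ x ∨ x ≤ -r ∨ r ≤ y) :
    ConnE ZQ (F \ (F ∩ BR v r)) (fr κ v x y) (fr κ v X Y) := by
  have h1 : ConnE ZQ (F \ (F ∩ BR v r)) (fr κ v x y) (fr κ v x Y) := by
    refine conn_v hyY fun i h1 h2 => ?_
    rcases hfar with h3 | h3 | h3
    · exact Or.inl (cl_out h (by omega) (by omega) (by omega) (by omega) (by omega) (by omega))
    · exact Or.inr (cl_out h (by omega) (by omega) (by omega) (by omega) (by omega) (by omega))
    · exact Or.inl (cl_out h (by omega) (by omega) (by omega) (by omega) (by omega) (by omega))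
  refine h1.trans ?_
  rcases le_total x X with h2 | h2
  · exact conn_h h2 fun i h3 h4 =>
      Or.inl (cl_out h (by omega) (by omega) (by omega) (by omega) (by omega) (by omega))
  · exact (conn_h h2 fun i h3 h4 =>
      Or.inl (cl_out h (by omega) (by omega) (by omega) (by omega) (by omega) (by omega))).symm

/-- inside of a half box -/
theorem conn_in (h : FlatZ F κ v D) (hs : s ≤ D) (hs1 : 1 ≤ s) (hx : -s ≤ x) (hx' : x < s)
    (hy : 0 ≤ y) (hy' : y ≤ s) : ConnE ZQ (F ∩ BR v s) (fr κ v x y) (fr κ v 0 s) := by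
  have h1 : ConnE ZQ (F ∩ BR v s) (fr κ v x y) (fr κ v x s) := by
    refine conn_v hy' fun i h1 h2 => Or.inl ?_
    rw [h.mem_box hs]
    omega
  refine h1.trans ?_
  rcases le_total x 0 with h2 | h2
  · refine conn_h h2 fun i h3 h4 => Or.inr ?_
    rw [h.mem_box hs]
    omega
  · refine (conn_h h2 fun i h3 h4 => Or.inr ?_).symm
    rw [h.mem_box hs]
    omega

/-! ## The two sides together -/

theorem wtAvo_congr' {T T' : Sym2 DZ → ℝ} {I : Finset (ℤ × ℤ)} (hm : Ah ZQ I (em κ v))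
    (hp : Ah ZQ I (ep κ v))
    (h : ∀ a ∈ bS ZQ F, ∀ b ∈ bS ZQ F, a ≠ em κ v → a ≠ ep κ v → b ≠ em κ v → b ≠ ep κ v →
      T s(a, b) = T' s(a, b)) : WtAvo ZQ F I T ω = WtAvo ZQ F I T' ω := by
  unfold WtAvo
  refine Finset.prod_congr rfl fun p hp' => ?_
  obtain ⟨a, ha, hA, rfl⟩ := mem_arcsAvo.mp hp'
  have key : ∀ b, Avo ZQ F I ω b → b ∈ bS ZQ F → b ≠ em κ v ∧ b ≠ ep κ v := by
    intro b hb hb'
    have h1 := con_first hb' (con_sdiff.mpr hb)
    constructor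
    · rintro rfl
      exact ah_disj (Finset.disjoint_sdiff (s := I) (t := F)) hm h1
    · rintro rfl
      exact ah_disj (Finset.disjoint_sdiff (s := I) (t := F)) hp h1
  have h1 := key a hA ha
  have h2 := key _ (avo_mate1 ha hA) (mate_mem ha)
  exact h a ha _ (mate_mem ha) h1.1 h1.2 h2.1 h2.2

theorem av_abs_Yv (he : e ∈ bS ZQ F) (hP : HasPotQ ZQ F) (hr : 1 ≤ r) (hI : Ah ZQ (F ∩ BR v 1) e)
    (hz : ConnE ZQ (F \ (F ∩ BR v r)) z q) :
    av F (fun ω => |Yv ZQ F B e z q ω|) ≤ av F (lg F v 1 r) := by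
  refine av_mono fun T _ => ?_
  by_cases h : NoLeg ZQ (ind T) F (F ∩ BR v 1) (F ∩ BR v r)
  · rw [Yv_zero hP Finset.inter_subset_left he (con_of_noLeg hr he hI h) hz, abs_zero]
    exact lg_nonneg
  · rw [lg_neg h]
    exact abs_Yv_le hP he z q

/-- **The pole at `e`**: the terms of the arcs of the two sides `e⁻`, `e⁺` at the mark cancel to first order. -/
theorem pole_pair : ∃ C : ℝ, 0 < C ∧ ∀ (F : Finset (ℤ × ℤ)) (κ : ZMod 4) (v : ℤ × ℤ) (D : ℤ)
    (H : Cfg → ℝ) (c₀ : ℝ) (T T' : Sym2 DZ → ℝ) (sn sn' : DZ → ℝ) (N N' U U' : Finset DZ)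
    (x y r s : ℤ) (z0 : VZ), HasPotQ ZQ F → FlatZ F κ v D → 0 ≤ c₀ → (∀ ω, 0 ≤ H ω) →
    Dep ((F \ (F ∩ BR v D) : Finset (ℤ × ℤ)) : Set (ℤ × ℤ)) H →
    PoleE F v D H c₀ (em κ v) T sn N U → PoleE F v D H c₀ (ep κ v) T' sn' N' U' →
    U.card = U'.card + 1 →
    (∀ a ∈ bS ZQ F, ∀ b ∈ bS ZQ F, a ≠ em κ v → a ≠ ep κ v → b ≠ em κ v → b ≠ ep κ v →
      sgW U T s(a, b) = sgW U' T' s(a, b)) →
    1 ≤ r → (2 * r + 1 ≤ |x| ∨ 2 * r ≤ y) → |x| + 1 ≤ s → 0 ≤ y → y ≤ s → r ≤ s → s + 3 ≤ D →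
    ConnE ZQ (F \ (F ∩ BR v (s + 1))) (fr κ v 0 (s + 1)) z0 →
    |av F (tE F T sn N (em κ v) (fr κ v x y) z0) + av F (tE F T' sn' N' (ep κ v) (fr κ v x y) z0)| ≤
      C * (c₀ * av F H) * (1 / s + s / (r * D) + 1 / r * (1 / r : ℝ) ^ (1 / 4 : ℝ)) := by
  obtain ⟨C1, hC1, P1⟩ := wall_leg
  obtain ⟨C2, hC2, P2⟩ := any_leg
  refine ⟨4 * C1 + 4 * C1 * C1 + C1 * C2, by positivity, ?_⟩
  intro F κ v D H c₀ T T' sn sn' N N' U U' x y r s z0 hP hF hc0 hH0 hH hE hE' hU hT hr hfar hx hy hys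
    hrs hsD hz0
  have hs2 : 2 ≤ s := by
    rcases hfar with h | h
    · rcases abs_cases x with ⟨h5, _⟩ | ⟨h5, _⟩ <;> omega
    · omega
  have hx1 : -s < x ∧ x < s := by
    rcases abs_cases x with ⟨h5, _⟩ | ⟨h5, _⟩ <;> omega
  have hem := em_mem hF (by omega)
  have hep := ep_mem hF (by omega)
  have hIm : ∀ t : ℤ, 1 ≤ t → t ≤ D → Ah ZQ (F ∩ BR v t) (em κ v) := by
    intro t h1 h2
    rw [em_sd, ah_iff, hF.mem_box h2]
    omega
  have hIp : ∀ t : ℤ, 1 ≤ t → t ≤ D → Ah ZQ (F ∩ BR v t) (ep κ v) := by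
    intro t h1 h2
    rw [ep_sd, ah_iff, hF.mem_box h2]
    omega
  -- the boxes and base points
  set Bm := F ∩ BR v s with hBm
  set Bp := F ∩ BR (fr κ v 1 0) s with hBp
  have hclBp : ∀ c d : ℤ, cl κ v c d ∈ Bp ↔ 1 - s ≤ c ∧ c < 1 + s ∧ 0 ≤ d ∧ d < s := by
    intro c d
    exact mem_box_shift hF (by omega)
  have sub1m : F ∩ BR v (s - 1) ⊆ Bm := box_sub v (by omega)
  have sub2m : Bm ⊆ F ∩ BR v (s + 1) := box_sub v (by omega)
  have sub1p : F ∩ BR v (s - 1) ⊆ Bp := by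
    intro f hf
    obtain ⟨c, d, rfl⟩ := exists_cl κ v f
    rw [hF.mem_box (by omega)] at hf
    rw [hclBp]
    omega
  have sub2p : Bp ⊆ F ∩ BR v (s + 1) := by
    intro f hf
    obtain ⟨c, d, rfl⟩ := exists_cl κ v f
    rw [hclBp] at hf
    rw [hF.mem_box (by omega)]
    omega
  have hclF : ∀ c d : ℤ, -D ≤ c → c < D → 0 ≤ d → d < D → cl κ v c d ∈ F := fun c d h1 h2 h3 h4 =>
    (hF c d h1 h2 (by omega) h4).mpr h3
  have hqm : ConnE ZQ (F \ Bm) (fr κ v 0 s) z0 := by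
    have h1 : ConnE ZQ (F \ Bm) (fr κ v 0 s) (fr κ v 0 (s + 1)) := by
      refine ReflTransGen.single (edge_v (Or.inl ?_))
      rw [Finset.mem_sdiff, hBm, hF.mem_box (by omega)]
      exact ⟨hclF _ _ (by omega) (by omega) (by omega) (by omega), by omega⟩
    exact h1.trans (ConnE.mono' (Finset.sdiff_subset_sdiff subset_rfl sub2m) hz0)
  have hqp : ConnE ZQ (F \ Bp) (fr κ v 1 s) z0 := by
    have h1 : ConnE ZQ (F \ Bp) (fr κ v 1 s) (fr κ v 1 (s + 1)) := by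
      refine ReflTransGen.single (edge_v (Or.inl ?_))
      rw [Finset.mem_sdiff, hclBp]
      exact ⟨hclF _ _ (by omega) (by omega) (by omega) (by omega), by omega⟩
    have h2 : ConnE ZQ (F \ Bp) (fr κ v 0 (s + 1)) (fr κ v (0 + 1) (s + 1)) := by
      refine ReflTransGen.single (edge_h (Or.inr ?_))
      rw [Finset.mem_sdiff, hclBp]
      exact ⟨hclF _ _ (by omega) (by omega) (by omega) (by omega), by omega⟩
    rw [zero_add] at h2
    exact (h1.trans h2.symm).trans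
      (ConnE.mono' (Finset.sdiff_subset_sdiff subset_rfl sub2p) hz0)
  -- abbreviations
  set z := fr κ v x y with hz
  set Ym := av F (Yv ZQ F Bm (em κ v) z (fr κ v 0 s)) with hYm
  set Yp := av F (Yv ZQ F Bp (ep κ v) z (fr κ v 1 s)) with hYp
  set V := av F (gO F v (s + 1) D (sgW U T)) with hV
  set l1 := av F (lg F v 1 (s - 1)) with hl1
  set l2 := av F (lg F v (s + 1) D) with hl2
  set l3 := av F (lg F v 1 r) with hl3
  set l4 := av F (lg F z 1 r) with hl4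
  set A := av F H with hA
  have hA0 : 0 ≤ A := av_nonneg fun T' _ => hH0 _
  have l1n : 0 ≤ l1 := av_nonneg fun _ _ => lg_nonneg
  have l2n : 0 ≤ l2 := av_nonneg fun _ _ => lg_nonneg
  have l3n : 0 ≤ l3 := av_nonneg fun _ _ => lg_nonneg
  have l4n : 0 ≤ l4 := av_nonneg fun _ _ => lg_nonneg
  have hzfar : r ≤ x ∨ x ≤ -r ∨ r ≤ y := by
    rcases hfar with h | h
    · rcases abs_cases x with ⟨h5, _⟩ | ⟨h5, _⟩ <;> omega
    · omega
  have am : av F (fun ω => |Yv ZQ F Bm (em κ v) z (fr κ v 0 s) ω|) ≤ l3 :=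
    av_abs_Yv hem hP hr (hIm 1 le_rfl (by omega)) (conn_out hF (by omega) (by omega) (by omega)
      (by omega) hy hys (by omega) hrs hzfar)
  have ap : av F (fun ω => |Yv ZQ F Bp (ep κ v) z (fr κ v 1 s) ω|) ≤ l3 :=
    av_abs_Yv hep hP hr (hIp 1 le_rfl (by omega)) (conn_out hF (by omega) (by omega) (by omega)
      (by omega) hy hys (by omega) hrs hzfar)
  have tm := hE.av_term (z := z) hem hP hc0 (hIm 1 le_rfl (by omega)) (s1 := s - 1) (by omega)
    (by omega) sub1m sub2m (by omega) (by omega) hH0 hH hqm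
  have tp := hE'.av_term (z := z) hep hP hc0 (hIp 1 le_rfl (by omega)) (s1 := s - 1) (by omega)
    (by omega) sub1p sub2p (by omega) (by omega) hH0 hH hqp
  have hVV : av F (gO F v (s + 1) D (sgW U' T')) = V := by
    rw [hV]
    refine av_congr fun T'' _ => ?_
    unfold gO
    rw [wtAvo_congr' (hIm (s + 1) (by omega) (by omega)) (hIp (s + 1) (by omega) (by omega)) hT]
  rw [hVV] at tp
  have hVA : |V| ≤ A := abs_av_le fun T'' _ =>
    abs_gO_le hE hem (by omega) (hIm (s + 1) (by omega) (by omega)) hH0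
  -- translation
  have hshift : Yp = av F (Yv ZQ F Bm (em κ v) (fr κ v (x - 1) y) (fr κ v 0 s)) := by
    have h1 := av_shift (s := s) (z := fr κ v (x - 1) y) (q := fr κ v 0 s) hF hP (by omega)
      (by omega) (conn_in hF (by omega) (by omega) (by omega) (by omega) hy hys)
    rw [tw_phi, tw_phi, sub_add_cancel, zero_add] at h1
    exact h1
  have hstep : |Yp - Ym| ≤ l3 * l4 := by
    have h1 := av_step (x := x - 1) (y := y) (r := r) hF hP hr (by omega) (by omega) hy (by omega)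
      (by omega) (by
        rw [sub_add_cancel]
        rcases hfar with h | h
        · exact Or.inl (by omega)
        · exact Or.inr h) Bm (fr κ v 0 s)
    rw [sub_add_cancel] at h1
    rw [hshift, hYm]
    exact h1
  -- the sum
  set am' := av F (fun ω => |Yv ZQ F Bm (em κ v) z (fr κ v 0 s) ω|)
  set ap' := av F (fun ω => |Yv ZQ F Bp (ep κ v) z (fr κ v 1 s) ω|)
  set Em := av F (tE F T sn N (em κ v) z z0)
  set Ep := av F (tE F T' sn' N' (ep κ v) z z0)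
  have hsum : Em + Ep = (Em - (-1) ^ U.card * c₀ * (Ym * V)) + (Ep - (-1) ^ U'.card * c₀ * (Yp * V)) +
      (-1) ^ U'.card * (c₀ * ((Yp - Ym) * V)) := by
    rw [hU, pow_succ]
    ring
  have hlast : |(-1) ^ U'.card * (c₀ * ((Yp - Ym) * V))| ≤ c₀ * (l3 * l4 * A) := by
    rw [abs_mul, abs_pow, abs_neg, abs_one, one_pow, one_mul, abs_mul, abs_of_nonneg hc0, abs_mul]
    exact mul_le_mul_of_nonneg_left (mul_le_mul hstep hVA (abs_nonneg _)
      (mul_nonneg l3n l4n)) hc0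
  have htot : |Em + Ep| ≤ c₀ * A * (2 * l1 + 2 * (l3 * l2) + l3 * l4) := by
    rw [hsum]
    refine (abs_add_three _ _ _).trans ?_
    have h1 : am' * l2 ≤ l3 * l2 := mul_le_mul_of_nonneg_right am l2n
    have h2 : ap' * l2 ≤ l3 * l2 := mul_le_mul_of_nonneg_right ap l2n
    have h3 : c₀ * (A * (l1 + am' * l2)) ≤ c₀ * (A * (l1 + l3 * l2)) :=
      mul_le_mul_of_nonneg_left (mul_le_mul_of_nonneg_left (by linarith) hA0) hc0
    have h4 : c₀ * (A * (l1 + ap' * l2)) ≤ c₀ * (A * (l1 + l3 * l2)) :=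
      mul_le_mul_of_nonneg_left (mul_le_mul_of_nonneg_left (by linarith) hA0) hc0
    have h5 := tm.trans h3
    have h6 := tp.trans h4
    linarith
  -- probabilities
  have hsR : (2 : ℝ) ≤ s := by exact_mod_cast hs2
  have hrR : (1 : ℝ) ≤ r := by exact_mod_cast hr
  have hDR : (s : ℝ) + 3 ≤ D := by exact_mod_cast hsD
  have hFr : ∀ t : ℤ, t ≤ D → 0 ≤ t → FlatZ F κ v t := fun t h1 h2 a b h3 h4 h5 h6 =>
    hF a b (by omega) (by omega) (by omega) (by omega)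
  have b1 : l1 ≤ C1 * (2 / s) := by
    have h1 := P1 F κ v 1 (s - 1) (hFr _ (by omega) (by omega)) le_rfl (by omega)
    refine h1.trans (mul_le_mul_of_nonneg_left ?_ hC1.le)
    push_cast
    rw [div_le_div_iff₀ (by linarith) (by linarith)]
    linarith
  have b2 : l2 ≤ C1 * (2 * s / D) := by
    have h1 := P1 F κ v (s + 1) D hF (by omega) (by omega)
    refine h1.trans (mul_le_mul_of_nonneg_left ?_ hC1.le)
    push_cast
    exact div_le_div_of_nonneg_right (by linarith) (by linarith)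
  have b3 : l3 ≤ C1 * (1 / r) := by
    have h1 := P1 F κ v 1 r (hFr _ (by omega) (by omega)) le_rfl hr
    refine h1.trans (le_of_eq ?_)
    push_cast
    rfl
  have b4 : l4 ≤ C2 * (1 / r : ℝ) ^ (1 / 4 : ℝ) := by
    have h1 := P2 F z 1 r le_rfl hr
    refine h1.trans (le_of_eq ?_)
    push_cast
    rfl
  have hDpos : (0 : ℝ) < D := by linarith
  have c1 : l3 * l2 ≤ C1 * (1 / r) * (C1 * (2 * s / D)) :=
    mul_le_mul b3 b2 l2n (by positivity)
  have c2 : l3 * l4 ≤ C1 * (1 / r) * (C2 * (1 / r : ℝ) ^ (1 / 4 : ℝ)) :=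
    mul_le_mul b3 b4 l4n (by positivity)
  have d1 : C1 * (1 / (r : ℝ)) * (C1 * (2 * s / D)) = 2 * C1 * C1 * (s / (r * D)) := by
    field_simp
  have d2 : C1 * (1 / (r : ℝ)) * (C2 * (1 / r : ℝ) ^ (1 / 4 : ℝ)) =
      C1 * C2 * (1 / r * (1 / r : ℝ) ^ (1 / 4 : ℝ)) := by ring
  have d3 : C1 * (2 / (s : ℝ)) = 2 * C1 * (1 / s) := by ring
  rw [d1] at c1
  rw [d2] at c2
  rw [d3] at b1
  have p1 : (0 : ℝ) ≤ 1 / s := by positivity
  have p2 : (0 : ℝ) ≤ s / (r * D) := by positivity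
  have p3 : (0 : ℝ) ≤ 1 / r * (1 / r : ℝ) ^ (1 / 4 : ℝ) := by positivity
  have q1 := mul_nonneg (show 0 ≤ 4 * C1 * C1 + C1 * C2 by positivity) p1
  have q2 := mul_nonneg (show 0 ≤ 4 * C1 + C1 * C2 by positivity) p2
  have q3 := mul_nonneg (show 0 ≤ 4 * C1 + 4 * C1 * C1 by positivity) p3
  refine htot.trans ?_
  have e1 : (4 * C1 + 4 * C1 * C1 + C1 * C2) * (c₀ * A) *
      (1 / s + s / (r * D) + 1 / r * (1 / r : ℝ) ^ (1 / 4 : ℝ)) =
      c₀ * A * ((4 * C1 + 4 * C1 * C1 + C1 * C2) *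
        (1 / s + s / (r * D) + 1 / r * (1 / r : ℝ) ^ (1 / 4 : ℝ))) := by ring
  rw [e1]
  refine mul_le_mul_of_nonneg_left ?_ (mul_nonneg hc0 hA0)
  nlinarith

end

end Pool.Agent.SixB.Pole
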