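import Pool.Agent.Lib.SixB.S6GLoc
import Pool.Agent.Lib.SixB.S4W3c
import Pool.Agent.Lib.SixB.S6GPole

/-!
# 6BD block CA, growth at `e`, part A1: the zero arcs of `e`

`drop E e`: the environment `E` with `s = 0` on the pairs `(e, b)` of weight `t e b = 0`. `num_drop`: its numerators are
those of `E` if the arc of `e` has a weight `≠ 0`, and `0` otherwise. `HS_drop`: the height difference of `E` is that of
`drop E e` plus the term `Pole.tE` of the zero arc of `e`.
-/

set_option autoImplicit false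
set_option linter.ambiguousOpen false

namespace Pool.Agent.SixB.GA

open Finset Pool.Agent.Perc Pool.Agent.Perc.Q Pool.Agent.PercD Pool.Agent.PercN Tilt HG Relation GG

noncomputable section

variable {E : WEnv} {e x : DZ} {ω : Cfg} {z z' : VZ}

open Classical in
/-- the zero arcs of `e` do not contribute -/
def drop (E : WEnv) (e : DZ) : WEnv where
  F := E.F
  t := E.t
  s := fun a b => if (a = e ∨ b = e) ∧ E.t a b = 0 then 0 else E.s a b
  t_symm := E.t_symm
  s_anti := by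
    intro a b
    by_cases h : (a = e ∨ b = e) ∧ E.t a b = 0
    · rw [if_pos h, if_pos ⟨h.1.symm, by rw [E.t_symm]; exact h.2⟩, neg_zero]
    · rw [if_neg h, if_neg fun h' => h ⟨h'.1.symm, by rw [E.t_symm]; exact h'.2⟩, E.s_anti]

@[simp] theorem drop_F : (drop E e).F = E.F := rfl

@[simp] theorem drop_t : (drop E e).t = E.t := rfl

theorem drop_T : (drop E e).T = E.T := rfl

theorem drop_W : (drop E e).W ω = E.W ω := rfl

theorem drop_Z : (drop E e).Z = E.Z := rfl

theorem drop_s_ne {a b : DZ} (ha : a ≠ e) (hb : b ≠ e) : (drop E e).s a b = E.s a b := by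
  show (if (a = e ∨ b = e) ∧ E.t a b = 0 then 0 else E.s a b) = _
  rw [if_neg]
  rintro ⟨h | h, -⟩
  · exact ha h
  · exact hb h

theorem drop_s_pos {a b : DZ} (h : E.t a b ≠ 0) : (drop E e).s a b = E.s a b := by
  show (if (a = e ∨ b = e) ∧ E.t a b = 0 then 0 else E.s a b) = _
  rw [if_neg fun h' => h h'.2]

theorem drop_s_zero {a b : DZ} (h : E.t a b = 0) (hab : a = e ∨ b = e) : (drop E e).s a b = 0 := by
  show (if (a = e ∨ b = e) ∧ E.t a b = 0 then 0 else E.s a b) = _
  rw [if_pos ⟨hab, h⟩]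

/-- the arc of a starting side -/
theorem arcE_ini {F : Finset (ℤ × ℤ)} (he : e ∈ bS ZQ F) : arcE F ω e = s(e, mate ZQ F ω e) := by
  unfold arcE
  rw [SixB.stt_eq (mem_bS.mp he).2 ReflTransGen.refl]

theorem T_arcE {F : Finset (ℤ × ℤ)} (hF : E.F = F) (he : e ∈ bS ZQ F) :
    E.T (arcE F ω e) = E.t e (mate ZQ F ω e) := by
  rw [arcE_ini he]
  rfl

theorem W_zero (he : e ∈ bS ZQ E.F) (h : E.T (arcE E.F ω e) = 0) : E.W ω = 0 := by
  classical
  unfold WEnv.W
  refine Finset.prod_eq_zero (i := arcE E.F ω e) ?_ h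
  rw [arcE_ini he]
  exact mem_arcs.mpr ⟨e, he, rfl⟩

/-- the numerators of `drop E e` -/
theorem num_drop (he : e ∈ bS ZQ E.F) (hx : x ∈ dE ZQ E.F) :
    (E.T (arcE E.F ω e) = 0 → (drop E e).num ω x = 0) ∧
      (E.T (arcE E.F ω e) ≠ 0 → (drop E e).num ω x = E.num ω x) := by
  classical
  have hmem : arcE E.F ω e ∈ arcs ZQ E.F ω := by
    rw [arcE_ini he]
    exact mem_arcs.mpr ⟨e, he, rfl⟩
  constructor
  · intro hT
    unfold WEnv.num
    by_cases hc : Clo ZQ (drop E e).F ω x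
    · rw [if_pos hc, drop_W, W_zero he hT, mul_zero]
    · rw [if_neg hc]
      by_cases ha : arcE E.F ω x = arcE E.F ω e
      · have h1 : (drop E e).s (stt E.F ω x) (mate ZQ E.F ω (stt E.F ω x)) = 0 := by
          refine drop_s_zero ?_ ?_
          · have : E.T (arcE E.F ω x) = 0 := by rw [ha]; exact hT
            exact this
          · rw [arcE_ini he] at ha
            unfold arcE at ha
            rcases Sym2.eq_iff.mp ha with ⟨h2, -⟩ | ⟨-, h2⟩
            · exact Or.inl h2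
            · exact Or.inr h2
        show (drop E e).s (stt E.F ω x) (mate ZQ E.F ω (stt E.F ω x)) * _ = 0
        rw [h1, zero_mul]
      · refine mul_eq_zero_of_right _ (Finset.prod_eq_zero (i := arcE E.F ω e) ?_ hT)
        exact Finset.mem_erase.mpr ⟨fun h => ha h.symm, hmem⟩
  · intro hT
    unfold WEnv.num
    by_cases hc : Clo ZQ E.F ω x
    · rw [if_pos (show Clo ZQ (drop E e).F ω x from hc), if_pos hc]
      rfl
    · rw [if_neg (show ¬ Clo ZQ (drop E e).F ω x from hc), if_neg hc]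
      show (drop E e).s (stt E.F ω x) (mate ZQ E.F ω (stt E.F ω x)) * _ = _
      congr 1
      by_cases ht : E.t (stt E.F ω x) (mate ZQ E.F ω (stt E.F ω x)) = 0
      · refine drop_s_ne ?_ ?_
        · intro h1
          apply hT
          rw [T_arcE rfl he, ← h1]
          exact ht
        · intro h1
          apply hT
          have h2 := mate_mate (ω := ω) (stt_mem hc hx)
          rw [T_arcE rfl he, ← h1, h2, E.t_symm]
          exact ht
      · exact drop_s_pos ht

open Classical in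
/-- the sides on which the arc of `e` has weight zero -/
def Nz (E : WEnv) (e : DZ) : Finset DZ := (bS ZQ E.F).filter fun b => E.t e b = 0

theorem mem_Nz {b : DZ} : b ∈ Nz E e ↔ b ∈ bS ZQ E.F ∧ E.t e b = 0 := by
  classical
  unfold Nz
  rw [Finset.mem_filter]

/-- the term of the zero arc of `e` -/
def zp (E : WEnv) (e : DZ) (z z' : VZ) (ω : Cfg) : ℝ :=
  Pole.tE E.F E.T (E.s e) (Nz E e) e z z' ω

theorem num_self (he : e ∈ bS ZQ E.F) : E.num ω e = E.s e (mate ZQ E.F ω e) * Pole.prO ZQ E.F E.T e ω := by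
  classical
  unfold WEnv.num Pole.prO
  rw [if_neg (S4W3c.not_clo (mem_bS.mp he).2 ReflTransGen.refl), arcE_ini he,
    SixB.stt_eq (mem_bS.mp he).2 ReflTransGen.refl]

/-- numerators of the other strands, if the arc of `e` is a zero arc -/
theorem num_zero (he : e ∈ bS ZQ E.F) (hx : x ∈ dE ZQ E.F) (hT : E.T (arcE E.F ω e) = 0)
    (h1 : x ∉ dst ZQ E.F ω e) (h2 : x.swap ∉ dst ZQ E.F ω e) : E.num ω x = 0 := by
  classical
  have hmem : arcE E.F ω e ∈ arcs ZQ E.F ω := by
    rw [arcE_ini he]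
    exact mem_arcs.mpr ⟨e, he, rfl⟩
  unfold WEnv.num
  by_cases hc : Clo ZQ E.F ω x
  · rw [if_pos hc, W_zero he hT, mul_zero]
  · rw [if_neg hc]
    refine mul_eq_zero_of_right _ (Finset.prod_eq_zero (i := arcE E.F ω e) ?_ hT)
    refine Finset.mem_erase.mpr ⟨fun h => ?_, hmem⟩
    rw [arcE_ini he] at h
    unfold arcE at h
    rcases Sym2.eq_iff.mp h with ⟨h3, -⟩ | ⟨h3, h4⟩
    · refine h1 (mem_dst.mpr ⟨hx, srel_iff.mpr (Or.inl ?_)⟩)
      rw [h3]
      exact (SixB.stt_spec hc).1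
    · refine h2 (mem_dst.mpr ⟨swap_mem_dE.mpr hx, srel_iff.mpr (Or.inl ?_)⟩)
      have h5 := rtg_rev (SixB.stt_last hc)
      rw [Prod.swap_swap, ← h3] at h5
      exact h5

/-- **height differences**: the zero arc of `e` is split off -/
theorem HS_drop (hP : HasPotQ ZQ E.F) (he : e ∈ bS ZQ E.F) (hz : ConnE ZQ E.F z z') :
    HS E ω z - HS E ω z' = HS (drop E e) ω z - HS (drop E e) ω z' + zp E e z z' ω := by
  have he' := (mem_bS.mp he).1
  have hX : dst ZQ E.F ω e ∈ dstr ZQ E.F ω := mem_dstr.mpr ⟨e, he', rfl⟩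
  have hs := lft_spec hP hX
  set κ : ℝ := if E.T (arcE E.F ω e) = 0 then E.num ω e else 0 with hκ
  have key : (HS E ω z - HS (drop E e) ω z) - (HS E ω z' - HS (drop E e) ω z') =
      (Tilt.lft ZQ E.F (dst ZQ E.F ω e) z : ℝ) * κ - (Tilt.lft ZQ E.F (dst ZQ E.F ω e) z' : ℝ) * κ := by
    refine sub_eq_of_inc (G := E.F) (u := fun v => HS E ω v - HS (drop E e) ω v)
      (v := fun v => (Tilt.lft ZQ E.F (dst ZQ E.F ω e) v : ℝ) * κ) (z := z) (z' := z') (fun a ha => ?_) hz
    show (HS E ω a.1 - HS (drop E e) ω a.1) - (HS E ω a.2 - HS (drop E e) ω a.2) =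
      (Tilt.lft ZQ E.F (dst ZQ E.F ω e) a.1 : ℝ) * κ - (Tilt.lft ZQ E.F (dst ZQ E.F ω e) a.2 : ℝ) * κ
    have e1 := HS_inc (ω := ω) E hP ha
    have e2 := HS_inc (ω := ω) (drop E e) hP ha
    have e3 : (HS E ω a.1 - HS (drop E e) ω a.1) - (HS E ω a.2 - HS (drop E e) ω a.2) =
        E.num ω a - (drop E e).num ω a := by rw [← e1, ← e2]; ring
    have e4 : (Tilt.lft ZQ E.F (dst ZQ E.F ω e) a.1 : ℝ) * κ - (Tilt.lft ZQ E.F (dst ZQ E.F ω e) a.2 : ℝ) * κ =
        ((Tilt.lft ZQ E.F (dst ZQ E.F ω e) a.1 - Tilt.lft ZQ E.F (dst ZQ E.F ω e) a.2 : ℤ) : ℝ) * κ := by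
      push_cast
      ring
    rw [e3, e4, hs.inc a ha]
    obtain ⟨h1, h2⟩ := num_drop (ω := ω) he ha
    by_cases hT : E.T (arcE E.F ω e) = 0
    · rw [h1 hT, sub_zero, hκ, if_pos hT]
      by_cases ha1 : a ∈ dst ZQ E.F ω e
      · have ha2 : a.swap ∉ dst ZQ E.F ω e := fun h =>
          not_srel_swap zq_noLoop ha (EqvGen.trans _ _ _ (EqvGen.symm _ _ (mem_dst.mp ha1).2) (mem_dst.mp h).2)
        rw [if_pos ha1, if_neg ha2, ← num_srel E (mem_dst.mp ha1).2]
        push_cast
        ring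
      · by_cases ha2 : a.swap ∈ dst ZQ E.F ω e
        · rw [if_neg ha1, if_pos ha2, num_srel E (mem_dst.mp ha2).2, num_swap E ha]
          push_cast
          ring
        · rw [if_neg ha1, if_neg ha2, num_zero he ha hT ha1 ha2]
          push_cast
          ring
    · rw [h2 hT, sub_self, hκ, if_neg hT, mul_zero]
  have hzp : zp E e z z' ω = (Tilt.lft ZQ E.F (dst ZQ E.F ω e) z : ℝ) * κ -
      (Tilt.lft ZQ E.F (dst ZQ E.F ω e) z' : ℝ) * κ := by
    unfold zp Pole.tE
    by_cases hT : E.T (arcE E.F ω e) = 0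
    · have hm : mate ZQ E.F ω e ∈ Nz E e := mem_Nz.mpr ⟨mate_mem he, by rw [← T_arcE rfl he]; exact hT⟩
      rw [if_pos hm, hκ, if_pos hT, num_self he]
      push_cast
      ring
    · have hm : mate ZQ E.F ω e ∉ Nz E e := fun h => hT (by rw [T_arcE rfl he]; exact (mem_Nz.mp h).2)
      rw [if_neg hm, hκ, if_neg hT]
      ring
  rw [hzp]
  linarith

end

end Pool.Agent.SixB.GA
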