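import Pool.Agent.Lib.SixB.S6GPoleA
import Pool.Agent.Lib.SixB.CADomDefs
import Pool.Agent.Lib.SixB.CADomDet
import Pool.Agent.Lib.SixB.S6LFlat
import Pool.Agent.Lib.SixB.PlaneU

/-!
# 6BD block CA, growth at `e`, part A2: local hypotheses of LD1 near `e`

* `kap2_of`: `Kap2` from `NatW` and `|s| ≤ 2`.
* `wall_side`: the starting sides of `F` in a box near a flat wall point are the wall sides of the frame.
* `nat_near`: weights of `cenv` on the pairs of wall sides on one side of `e`.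
* `maj_drop`: majorant of `drop E e` off a ball which is near `e`.
* `PoleC`: statement of the bound of the zero arcs of the two sides at the mark (part C).
-/

set_option autoImplicit false
set_option linter.ambiguousOpen false

namespace Pool.Agent.SixB.GA

open Finset Pool.Agent.Perc Pool.Agent.Perc.Q Pool.Agent.PercD Pool.Agent.PercN Tilt HG Relation GG
open Ht (tJ dJ)

noncomputable section

variable {E : WEnv} {e x : DZ} {ω : Cfg} {z z' v c : VZ} {d D r R₀ : ℤ} {κ : ZMod 4}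

theorem sqrt3_le_two : Real.sqrt 3 ≤ 2 := by
  rw [show (2 : ℝ) = Real.sqrt 4 by
    rw [show (4 : ℝ) = 2 ^ 2 by norm_num, Real.sqrt_sq (by norm_num)]]
  exact Real.sqrt_le_sqrt (by norm_num)

/-- the mean arrows are bounded if the local weights are natural -/
theorem kap2_of (hN : NatW E v d) (hs : ∀ a ∈ bS ZQ E.F, ∀ b ∈ bS ZQ E.F, Ah ZQ (BR v d) a →
    Ah ZQ (BR v d) b → |E.s a b| ≤ 2) : Kap2 E v d := by
  intro ω X e hX hIn he
  have hed : e ∈ dE ZQ E.F := (dstr_of_mem hX he).1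
  unfold kap
  by_cases hc : Clo ZQ E.F ω e
  · rw [if_pos hc]
    have h3 := sqrt3_le_two
    have h0 : (0 : ℝ) ≤ Real.sqrt 3 := Real.sqrt_nonneg 3
    rcases uml_ZQ E.F ω e hc with h5 | h5
    · rw [h5]
      push_cast
      rw [abs_le]
      constructor <;> linarith
    · rw [h5]
      push_cast
      rw [abs_le]
      constructor <;> linarith
  · rw [if_neg hc]
    have h1 := stt_mem hc hed
    have h2 : mate ZQ E.F ω (stt E.F ω e) ∈ bS ZQ E.F := mate_mem h1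
    have hsX : stt E.F ω e ∈ X := (rtg_b' (ω' := ω) hX hIn (fun _ _ => rfl) he (SixB.stt_spec hc).1).1
    have hmX : (mate ZQ E.F ω (stt E.F ω e)).swap ∈ X :=
      (rtg_f' (ω' := ω) hX hIn (fun _ _ => rfl) he (SixB.stt_last hc)).1
    have k1 : Ah ZQ (BR v d) (stt E.F ω e) := by
      obtain ⟨f, hf, k, h4⟩ := bS_sd h1
      exact ⟨f, hIn f hf k (Or.inl (h4 ▸ hsX)), k, h4⟩
    have k2 : Ah ZQ (BR v d) (mate ZQ E.F ω (stt E.F ω e)) := by
      obtain ⟨f, hf, k, h4⟩ := bS_sd h2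
      exact ⟨f, hIn f hf k (Or.inr (h4 ▸ hmX)), k, h4⟩
    rw [hN _ h1 _ h2 k1 k2, div_one]
    exact hs _ h1 _ h2 k1 k2

/-- starting sides near a flat wall point -/
theorem wall_side {F B : Finset (ℤ × ℤ)} (h : FlatZ F κ c R₀) {a : DZ} (ha : a ∈ bS ZQ F) (hB : Ah ZQ B a)
    (hsub : B ⊆ BR c (R₀ - 1)) : ∃ x, -R₀ < x ∧ x < R₀ - 1 ∧ a = (fr κ c x 0, fr κ c (x + 1) 0) ∧
      cl κ c x 0 ∈ B := by
  obtain ⟨f, hf, k, rfl⟩ := hB
  obtain ⟨x, y, rfl⟩ := exists_cl κ c f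
  obtain ⟨h1, h2⟩ := mem_bS_ah.mp ha
  have hfF : cl κ c x y ∈ F := by
    obtain ⟨f', hf', k', e⟩ := h1
    have := (ZQ.inj (Prod.mk.inj e).1 (Prod.mk.inj e).2).1
    rw [this]
    exact hf'
  have h3 := cl_mem_BR.mp (hsub hf)
  have hy : 0 ≤ y := (h x y (by omega) (by omega) (by omega) (by omega)).mp hfF
  have hnot : ∀ x' y' k', (sd ZQ (cl κ c x y) k).swap = sd ZQ (cl κ c x' y') k' → -R₀ ≤ x' → x' < R₀ →
      -R₀ ≤ y' → y' < R₀ → y' < 0 := by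
    intro x' y' k' e1 g1 g2 g3 g4
    by_contra hcon
    exact h2 ⟨_, (h x' y' g1 g2 g3 g4).mpr (by omega), k', e1⟩
  rcases k4' κ k with rfl | rfl | rfl | rfl
  · have h4 := hnot x (y - 1) (k + 2) (by rw [sd_0, sd_2, sub_add_cancel]; rfl) (by omega) (by omega)
      (by omega) (by omega)
    have hy0 : y = 0 := by omega
    subst hy0
    exact ⟨x, by omega, by omega, sd_0 _ _ _ _, hf⟩
  · have h4 := hnot (x + 1) y (κ + 3) (by rw [sd_1, sd_3]; rfl) (by omega) (by omega) (by omega) (by omega)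
    omega
  · have h4 := hnot x (y + 1) κ (by rw [sd_2, sd_0]; rfl) (by omega) (by omega) (by omega) (by omega)
    omega
  · have h4 := hnot (x - 1) y (κ + 1) (by rw [sd_3, sd_1, sub_add_cancel]; rfl) (by omega) (by omega)
      (by omega) (by omega)
    omega

/-- the wall sides in a ball off `c` are on one side of `c` -/
theorem one_side {x₁ x₂ : ℤ} (hD : dd v c = D) (h1 : cl κ c x₁ 0 ∈ BR v d) (h2 : cl κ c x₂ 0 ∈ BR v d)
    (hd : 2 * d + 4 ≤ D) : (2 ≤ x₁ ∧ 2 ≤ x₂) ∨ (x₁ ≤ -3 ∧ x₂ ≤ -3) := by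
  have hd0 : dd v c = max |v.1 - c.1| |v.2 - c.2| := rfl
  rw [hD] at hd0
  rw [mem_BR] at h1 h2
  rcases max_choice |v.1 - c.1| |v.2 - c.2| with hm | hm
  · rw [hm] at hd0
    have hle := le_max_right |v.1 - c.1| |v.2 - c.2|
    rcases abs_cases (v.1 - c.1) with ⟨h3, -⟩ | ⟨h3, -⟩ <;>
    rcases k4 κ with rfl | rfl | rfl | rfl <;>
    simp only [cl_0, cl_1, cl_2, cl_3] at h1 h2 <;> omega
  · rw [hm] at hd0
    rcases abs_cases (v.2 - c.2) with ⟨h3, -⟩ | ⟨h3, -⟩ <;>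
    rcases k4 κ with rfl | rfl | rfl | rfl <;>
    simp only [cl_0, cl_1, cl_2, cl_3] at h1 h2 <;> omega

/-! ## Weights near `e` -/

theorem jN_zero {M : ℕ} {b w : ℤ} (h1 : 0 < |w - b|) (h2 : |w - b| < M) : jN M b w = 0 := by
  unfold jN
  rw [if_neg]
  rintro ⟨q, hq⟩
  have h3 : |w - b| = M * |q| := by rw [hq, abs_mul, Nat.abs_cast]
  rcases eq_or_ne q 0 with rfl | h0
  · rw [abs_zero, mul_zero] at h3
    omega
  · have h4 : 1 ≤ |q| := Int.one_le_abs h0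
    have h5 : (M : ℤ) * 1 ≤ M * |q| := mul_le_mul_of_nonneg_left h4 (by positivity)
    omega

theorem csum_zero {j : ℤ → ℝ} {i k : ℤ} (h : ∀ v, i < v → v ≤ k → j v = 0) : csum j i k = 0 := by
  unfold csum
  refine Finset.sum_eq_zero fun v hv => ?_
  rw [Finset.mem_Ioc] at hv
  exact h v hv.1 hv.2

theorem tJ_zero' : tJ 0 = 1 := by
  unfold Ht.tJ
  rw [zero_sub, Real.cos_neg, div_self]
  rw [Real.cos_pi_div_six]
  have : (0 : ℝ) < Real.sqrt 3 := Real.sqrt_pos.2 (by norm_num)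
  positivity

section near

variable {F : Finset (ℤ × ℤ)} {G : ℤ → VZ} {m : ℕ} {k : ℤ}

/-- local frame at the contour vertex `G k` -/
structure Fr (F : Finset (ℤ × ℤ)) (G : ℤ → VZ) (m : ℕ) (k : ℤ) (κ : ZMod 4) (R₀ : ℤ) : Prop where
  cont : Cont F m G
  flat : FlatZ F κ (G k) R₀
  run : ∀ x, -R₀ ≤ x → x ≤ R₀ → G (k + x) = fr κ (G k) x 0
  big : 2 * R₀ ≤ m

/-- the wall sides near `v` -/
theorem Fr.side (h : Fr F G m k κ R₀) (hv : dd v (G k) = D) (hDR : D + d + 1 ≤ R₀) {a : DZ}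
    (ha : a ∈ bS ZQ F) (hB : Ah ZQ (BR v d) a) :
    ∃ x, -R₀ < x ∧ x < R₀ - 1 ∧ a = csd G (k + x) ∧ cl κ (G k) x 0 ∈ BR v d := by
  obtain ⟨x, h1, h2, h3, h4⟩ := wall_side h.flat ha hB (bR_sub (by omega))
  refine ⟨x, h1, h2, ?_, h4⟩
  rw [h3]
  unfold csd
  rw [h.run x (by omega) (by omega), show k + x + 1 = k + (x + 1) by ring, h.run (x + 1) (by omega) (by omega)]

/-- weights of the pairs of sides near `v` -/
theorem Fr.nat (h : Fr F G m k κ R₀) (hv : dd v (G k) = D) (hd : 2 * d + 4 ≤ D)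
    {j : ℤ → ℝ} (hj : ∀ v, j (v + m) = j v) (h0 : csum j 0 m = Real.pi / 3)
    (hz : ∀ w, 2 ≤ |w| → |w| ≤ R₀ → j (k + w) = 0) {x₁ x₂ : ℤ} (hx : x₁ < x₂) (h1 : -R₀ < x₁)
    (h2 : x₂ < R₀ - 1) (h3 : cl κ (G k) x₁ 0 ∈ BR v d) (h4 : cl κ (G k) x₂ 0 ∈ BR v d) :
    (cenv F G m j).t (csd G (k + x₁)) (csd G (k + x₂)) = 1 ∧
      (cenv F G m j).s (csd G (k + x₁)) (csd G (k + x₂)) = -dJ 0 := by
  have hb := h.big
  obtain ⟨h5, h6⟩ := cenv_ts (F := F) h.cont hj h0 (i := k + x₁) (k := k + x₂) (by omega) (by omega)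
  have h7 : csum j (k + x₁) (k + x₂) = 0 := by
    refine csum_zero fun w hw1 hw2 => ?_
    have h8 := hz (w - k) ?_ ?_
    · rw [show k + (w - k) = w by ring] at h8
      exact h8
    · rcases one_side hv h3 h4 hd with h9 | h9
      · rw [abs_of_nonneg (by omega)]
        omega
      · rw [abs_of_nonpos (by omega)]
        omega
    · rw [abs_le]
      omega
  rw [h5, h6, h7, tJ_zero']
  exact ⟨rfl, rfl⟩

/-- **weights near `v`**: natural, and the same for all jump functions which vanish near `k` -/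
theorem Fr.same (h : Fr F G m k κ R₀) (hv : dd v (G k) = D) (hd : 2 * d + 4 ≤ D) (hDR : D + d + 1 ≤ R₀)
    {j j' : ℤ → ℝ} (hj : ∀ v, j (v + m) = j v) (h0 : csum j 0 m = Real.pi / 3)
    (hz : ∀ w, 2 ≤ |w| → |w| ≤ R₀ → j (k + w) = 0) (hj' : ∀ v, j' (v + m) = j' v)
    (h0' : csum j' 0 m = Real.pi / 3) (hz' : ∀ w, 2 ≤ |w| → |w| ≤ R₀ → j' (k + w) = 0) {a b : DZ}
    (ha : a ∈ bS ZQ F) (hb : b ∈ bS ZQ F) (hBa : Ah ZQ (BR v d) a) (hBb : Ah ZQ (BR v d) b) :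
    (cenv F G m j).t a b = 1 ∧ (cenv F G m j').t a b = (cenv F G m j).t a b ∧
      (cenv F G m j').s a b = (cenv F G m j).s a b ∧ |(cenv F G m j).s a b| ≤ 2 := by
  obtain ⟨x₁, p1, p2, rfl, p3⟩ := h.side hv hDR ha hBa
  obtain ⟨x₂, q1, q2, rfl, q3⟩ := h.side hv hDR hb hBb
  have hd0 : |dJ 0| ≤ 2 := by
    unfold Ht.dJ
    rw [sub_zero, Real.sin_pi_div_six, Real.cos_pi_div_six]
    have h3 : (1 : ℝ) ≤ Real.sqrt 3 := by
      rw [show (1 : ℝ) = Real.sqrt 1 by simp]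
      exact Real.sqrt_le_sqrt (by norm_num)
    rw [abs_of_nonneg (by positivity), div_le_iff₀ (by positivity)]
    linarith
  rcases lt_trichotomy x₁ x₂ with hx | rfl | hx
  · obtain ⟨a1, a2⟩ := h.nat hv hd hj h0 hz hx p1 q2 p3 q3
    obtain ⟨b1, b2⟩ := h.nat hv hd hj' h0' hz' hx p1 q2 p3 q3
    rw [a1, a2, b1, b2, abs_neg]
    exact ⟨rfl, rfl, rfl, hd0⟩
  · have e1 : ∀ j : ℤ → ℝ, (cenv F G m j).t (csd G (k + x₁)) (csd G (k + x₁)) = 1 := by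
      intro j
      show tJ (csum j (min _ _) (max _ _)) = 1
      rw [min_self, max_self, csum_self, tJ_zero']
    have e2 : ∀ j : ℤ → ℝ, (cenv F G m j).s (csd G (k + x₁)) (csd G (k + x₁)) = 0 := by
      intro j
      have := (cenv F G m j).s_anti (csd G (k + x₁)) (csd G (k + x₁))
      linarith
    rw [e1, e1, e2, e2, abs_zero]
    exact ⟨rfl, rfl, rfl, by norm_num⟩
  · obtain ⟨a1, a2⟩ := h.nat hv hd hj h0 hz hx q1 p2 q3 p3
    obtain ⟨b1, b2⟩ := h.nat hv hd hj' h0' hz' hx q1 p2 q3 p3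
    rw [(cenv F G m j).t_symm, (cenv F G m j').t_symm, (cenv F G m j).s_anti (csd G (k + x₂)),
      (cenv F G m j').s_anti (csd G (k + x₂)), a1, a2, b1, b2, neg_neg]
    exact ⟨rfl, rfl, rfl, hd0⟩

/-- the sides near `v` are not the sides at `G k` -/
theorem Fr.ne (h : Fr F G m k κ R₀) (hv : dd v (G k) = D) (hd : 2 * d + 4 ≤ D) (hDR : D + d + 1 ≤ R₀)
    {a : DZ} (ha : a ∈ bS ZQ F) (hBa : Ah ZQ (BR v d) a) : a ≠ csd G k ∧ a ≠ csd G (k - 1) := by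
  obtain ⟨x, p1, p2, rfl, p3⟩ := h.side hv hDR ha hBa
  have hb := h.big
  have h1 := one_side hv p3 p3 hd
  constructor
  · intro he
    obtain ⟨q, hq⟩ := h.cont.csd_inj he
    have h3 : x = m * q := by linarith
    rcases eq_or_ne q 0 with rfl | h0
    · omega
    · have h4 : 1 ≤ |q| := Int.one_le_abs h0
      have h5 : |x| = m * |q| := by rw [h3, abs_mul, Nat.abs_cast]
      have h6 : |x| < R₀ := by rw [abs_lt]; omega
      nlinarith
  · intro he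
    obtain ⟨q, hq⟩ := h.cont.csd_inj he
    have h3 : x + 1 = m * q := by linarith
    rcases eq_or_ne q 0 with rfl | h0
    · omega
    · have h4 : 1 ≤ |q| := Int.one_le_abs h0
      have h5 : |x + 1| = m * |q| := by rw [h3, abs_mul, Nat.abs_cast]
      have h6 : |x + 1| < R₀ := by rw [abs_lt]; omega
      nlinarith

end near

/-! ## The majorant near `e` -/

theorem BR_disj (hD : dd v c = D) (B : ℤ) (hB : B + d ≤ D) : Disjoint (BR v d) (BR c B) := by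
  rw [Finset.disjoint_left]
  intro f hf hf'
  have hd0 : dd v c = max |v.1 - c.1| |v.2 - c.2| := rfl
  rw [hD] at hd0
  rw [mem_BR] at hf hf'
  rcases max_choice |v.1 - c.1| |v.2 - c.2| with hm | hm
  · rw [hm] at hd0
    rcases abs_cases (v.1 - c.1) with ⟨h3, -⟩ | ⟨h3, -⟩ <;> omega
  · rw [hm] at hd0
    rcases abs_cases (v.2 - c.2) with ⟨h3, -⟩ | ⟨h3, -⟩ <;> omega

/-- the strand of `e` crosses every annulus around `c` inside of the box which it leaves -/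
theorem cross_of_leg {F : Finset (ℤ × ℤ)} {a : UE} {r₁ r₂ : ℤ} (h0 : 0 ≤ r₁) (h12 : r₁ < r₂)
    (ha : InE c r₁ a) (h : DomX.Lg F a c r₂ ω) : 1 ≤ NF (F : Set (ℤ × ℤ)) c r₁ r₂ ω := by
  classical
  obtain ⟨b, hb, hbR⟩ := h
  obtain ⟨b', h1, h2, a', h3, h4⟩ := Dom.exists_cross (G := (F : Set (ℤ × ℤ)) ∩ (BR c r₂ : Set (ℤ × ℤ))) h0 h12
    ⟨a, mem_MM_self, ha⟩ ⟨b, hb, fun _ => hbR⟩
  unfold NF
  refine Finset.card_pos.mpr ⟨b', ?_⟩
  rw [mem_filter]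
  refine ⟨(BdR.inE h0 h2).mem_UB, h2, a', MM_mono ?_ h3, h4⟩
  rintro f ⟨⟨hf1, -⟩, hf2⟩
  exact ⟨hf1, hf2⟩

theorem flatAt_le {F : Set (ℤ × ℤ)} {R : ℤ} (h : FlatAt F c 0 R) : FlatAt F c 1 R := by
  obtain ⟨i, a, ha, h2⟩ := h
  exact ⟨i, a, ha.trans (by omega), h2⟩

open Classical in
/-- indicator of a crossing strand -/
def Iv (F : Finset (ℤ × ℤ)) (c : VZ) (r R : ℤ) (ω : Cfg) : ℝ :=
  if 1 ≤ NF (F : Set (ℤ × ℤ)) c r R ω then 1 else 0

theorem Iv_nonneg (F : Finset (ℤ × ℤ)) (c : VZ) (r R : ℤ) (ω : Cfg) : 0 ≤ Iv F c r R ω := by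
  unfold Iv
  split_ifs <;> norm_num

theorem Iv_one {F : Finset (ℤ × ℤ)} {R : ℤ} (h : 1 ≤ NF (F : Set (ℤ × ℤ)) c r R ω) : Iv F c r R ω = 1 := by
  unfold Iv
  rw [if_pos h]

theorem dep_Iv (F : Finset (ℤ × ℤ)) (c : VZ) (r R : ℤ) :
    Dep ((F ∩ An c r R : Finset (ℤ × ℤ)) : Set (ℤ × ℤ)) (Iv F c r R) :=
  dep_NF F c r R (fun n => if 1 ≤ n then (1 : ℝ) else 0)

/-- the leg of a side at a flat wall -/
theorem leg_wall : ∃ C : ℝ, 0 < C ∧ ∀ (F : Finset (ℤ × ℤ)) (κ : ZMod 4) (c : VZ) (a : UE) (R : ℤ),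
    FlatZ F κ c R → InE c 1 a → 2 ≤ R →
      av F (Iv F c 1 R) ≤ C / R := by
  classical
  obtain ⟨C, hC, h⟩ := nf_one_wall
  refine ⟨C, hC, fun F κ c a R hF ha hR => ?_⟩
  have h1 := h (F : Set (ℤ × ℤ)) c 1 R (BR c R) le_rfl (by omega) (flatAt_le (Pole.flatAt_of_flatZ hF))
    (Finset.Subset.refl _)
  rw [pr_eq_av] at h1
  unfold Iv
  rw [av_NF (W := BR c R) (inter_subset_right.trans an_sub_BR) (fun n => if 1 ≤ n then (1 : ℝ) else 0)]
  refine le_trans (le_of_eq ?_) (h1.trans (le_of_eq ?_))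
  · exact av_congr fun T _ => by simp only [Set.mem_ofPred_eq]
  · push_cast
    ring

/-- **majorant of `drop E e` near `e`** -/
theorem maj_drop : ∃ C : ℝ, 0 < C ∧ ∀ (E : WEnv) (e : DZ) (c : VZ) (κ : ZMod 4) (r : ℤ)
    (B : Finset (ℤ × ℤ)) (A : ℝ) (H : Cfg → ℝ) (v : VZ) (d D : ℤ), DomX.DomE E e c r B A H →
    (∀ ω, ¬ DomX.Lg E.F (und e) c r ω → E.T (arcE E.F ω e) = 0) → e ∈ bS ZQ E.F → FlatZ E.F κ c r →
    InE c 1 (und e) → dd v c = D → 1 ≤ d → 2 * d + 4 ≤ D → D + d < r →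
      Maj (drop E e) v d (C * A / D * ((D : ℝ) / r) ^ (1 / 4 : ℝ)) := by
  classical
  obtain ⟨C₁, hC₁, h1⟩ := leg_wall
  obtain ⟨C₂, hC₂, h2⟩ := mean_pos
  refine ⟨4 * C₁ * C₂, by positivity, ?_⟩
  intro E e c κ r B A H v d D hD hT0 he hF hec hv hd1 hd hDr
  have hZ : 0 < E.Z := hD.Zpos
  have hD0 : (0 : ℝ) < D := by exact_mod_cast (by omega : 0 < D)
  have hr0 : (0 : ℝ) < r := by exact_mod_cast (by omega : 0 < r)
  have hB0 : BR v d ⊆ BR c r := bR_sub (by omega)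
  obtain ⟨L₁, hL₁⟩ : ∃ L : Cfg → ℝ, L = Iv E.F c 1 (D - d) := ⟨_, rfl⟩
  obtain ⟨L₂, hL₂⟩ : ∃ L : Cfg → ℝ, L = Iv E.F c (D + d) r := ⟨_, rfl⟩
  have hL₁0 : ∀ ω, 0 ≤ L₁ ω := fun ω => by rw [hL₁]; exact Iv_nonneg _ _ _ _ _
  have hL₂0 : ∀ ω, 0 ≤ L₂ ω := fun ω => by rw [hL₂]; exact Iv_nonneg _ _ _ _ _
  have hdep1 : Dep ((E.F ∩ An c 1 (D - d) : Finset (ℤ × ℤ)) : Set (ℤ × ℤ)) L₁ := by
    rw [hL₁]; exact dep_Iv _ _ _ _
  have hdep2 : Dep ((E.F ∩ An c (D + d) r : Finset (ℤ × ℤ)) : Set (ℤ × ℤ)) L₂ := by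
    rw [hL₂]; exact dep_Iv _ _ _ _
  -- the legs hold if the arc of `e` is not a zero arc
  have hleg : ∀ ω, E.T (arcE E.F ω e) ≠ 0 → L₁ ω = 1 ∧ L₂ ω = 1 := by
    intro ω hT
    have h3 : DomX.Lg E.F (und e) c r ω := by
      by_contra hcon
      exact hT (hT0 ω hcon)
    have h4 : InE c (D + d) (und e) := (Sub.refl' (by omega : (1 : ℤ) ≤ D + d)).inE hec
    have h5 : InE c (D - d) (und e) := (Sub.refl' (by omega : (1 : ℤ) ≤ D - d)).inE hec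
    have h6 : DomX.Lg E.F (und e) c (D - d) ω := Dom.leg_anti (by omega) h5 h3
    constructor
    · rw [hL₁]
      exact Iv_one (cross_of_leg (by omega) (by omega) hec h6)
    · rw [hL₂]
      exact Iv_one (cross_of_leg (by omega) (by omega) h4 h3)
  refine ⟨hZ, fun ω => H ω * (L₁ ω * L₂ ω), ?_, ?_, ?_, ?_⟩
  · -- dependence
    have hdisj : Disjoint (BR v d) (BR c (D - d)) := BR_disj hv (D - d) (by omega)
    have hsub2 : BR v d ⊆ BR c (D + d) := bR_sub (by omega)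
    intro ω ω' hω
    have g1 : H ω = H ω' := hD.dep ω ω' fun f hf => hω f (by
      rw [mem_coe, mem_sdiff, mem_union] at hf
      rw [mem_coe, mem_sdiff]
      exact ⟨hf.1, fun hc => hf.2 (Or.inl (hB0 hc))⟩)
    have g2 : L₁ ω = L₁ ω' := hdep1 ω ω' fun f hf => hω f (by
      rw [mem_coe, mem_inter] at hf
      rw [mem_coe, mem_sdiff]
      exact ⟨hf.1, fun hc => Finset.disjoint_left.mp hdisj hc (an_sub_BR hf.2)⟩)
    have g3 : L₂ ω = L₂ ω' := hdep2 ω ω' fun f hf => hω f (by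
      rw [mem_coe, mem_inter] at hf
      rw [mem_coe, mem_sdiff]
      exact ⟨hf.1, fun hc => (mem_An.1 hf.2).2 (hsub2 hc)⟩)
    show H ω * (L₁ ω * L₂ ω) = H ω' * (L₁ ω' * L₂ ω')
    rw [g1, g2, g3]
  · intro ω
    show |E.W ω| ≤ H ω * (L₁ ω * L₂ ω)
    by_cases hT : E.T (arcE E.F ω e) = 0
    · rw [W_zero he hT, abs_zero]
      exact mul_nonneg (hD.nonneg ω) (mul_nonneg (hL₁0 ω) (hL₂0 ω))
    · obtain ⟨g1, g2⟩ := hleg ω hT
      rw [g1, g2, mul_one, mul_one]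
      exact hD.W ω
  · intro ω x hx
    have hx' : x ∈ dE ZQ E.F := SixB.dE_mono inter_subset_left hx
    obtain ⟨k1, k2⟩ := num_drop (ω := ω) he hx'
    show |(drop E e).num ω x| ≤ 2 * (H ω * (L₁ ω * L₂ ω))
    by_cases hT : E.T (arcE E.F ω e) = 0
    · rw [k1 hT, abs_zero]
      exact mul_nonneg (by norm_num) (mul_nonneg (hD.nonneg ω) (mul_nonneg (hL₁0 ω) (hL₂0 ω)))
    · obtain ⟨g1, g2⟩ := hleg ω hT
      rw [k2 hT, g1, g2, mul_one, mul_one]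
      exact hD.num ω x hx'
  · -- mean
    have hav1 : av E.F (fun ω => H ω * (L₁ ω * L₂ ω)) = av E.F H * av E.F (fun ω => L₁ ω * L₂ ω) := by
      refine av_indep' (S₁ := E.F \ (BR c r ∪ B)) (S₂ := E.F ∩ BR c r) ?_ hD.dep ?_ sdiff_subset
        inter_subset_left
      · rw [Finset.disjoint_left]
        intro f hf hf'
        exact (mem_sdiff.1 hf).2 (mem_union_left _ (mem_inter.1 hf').2)
      · intro ω ω' hω
        have g2 : L₁ ω = L₁ ω' := hdep1 ω ω' fun f hf => hω f (by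
          rw [mem_coe, mem_inter] at hf ⊢
          exact ⟨hf.1, bR_sub (by
            have : dd c c = 0 := by unfold dd; simp
            omega) (an_sub_BR hf.2)⟩)
        have g3 : L₂ ω = L₂ ω' := hdep2 ω ω' fun f hf => hω f (by
          rw [mem_coe, mem_inter] at hf ⊢
          exact ⟨hf.1, an_sub_BR hf.2⟩)
        show L₁ ω * L₂ ω = L₁ ω' * L₂ ω'
        rw [g2, g3]
    have hav2 : av E.F (fun ω => L₁ ω * L₂ ω) = av E.F L₁ * av E.F L₂ := by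
      refine av_indep' ?_ hdep1 hdep2 inter_subset_left inter_subset_left
      rw [Finset.disjoint_left]
      intro f hf hf'
      refine (mem_An.1 (mem_inter.1 hf').2).2 (bR_sub ?_ (an_sub_BR (mem_inter.1 hf).2))
      have : dd c c = 0 := by unfold dd; simp
      omega
    have hFl : FlatZ E.F κ c (D - d) := fun x y a1 a2 a3 a4 =>
      hF x y (by omega) (by omega) (by omega) (by omega)
    have e1 : av E.F L₁ ≤ C₁ / ((D - d : ℤ) : ℝ) := by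
      rw [hL₁]; exact h1 E.F κ c (und e) (D - d) hFl hec (by omega)
    have e2 : av E.F L₂ ≤ C₂ * (((D + d : ℤ) : ℝ) / r) ^ (1 / 4 : ℝ) := by
      rw [hL₂]; exact h2 E.F c (D + d) r (by omega) (by omega)
    have e3 : C₁ / ((D - d : ℤ) : ℝ) ≤ 2 * C₁ / D := by
      rw [div_le_div_iff₀ (by exact_mod_cast (by omega : 0 < D - d)) hD0]
      have : (D : ℝ) ≤ 2 * ((D - d : ℤ) : ℝ) := by exact_mod_cast (by omega : D ≤ 2 * (D - d))
      nlinarith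
    have e4 : (((D + d : ℤ) : ℝ) / r) ^ (1 / 4 : ℝ) ≤ 2 * ((D : ℝ) / r) ^ (1 / 4 : ℝ) := by
      have g1 : (((D + d : ℤ) : ℝ) / r) ≤ 2 * ((D : ℝ) / r) := by
        rw [← mul_div_assoc]
        refine div_le_div_of_nonneg_right ?_ hr0.le
        exact_mod_cast (by omega : D + d ≤ 2 * D)
      have g0 : (0 : ℝ) ≤ ((D + d : ℤ) : ℝ) / r := by
        have : (0 : ℝ) ≤ ((D + d : ℤ) : ℝ) := by exact_mod_cast (by omega : 0 ≤ D + d)
        positivity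
      have g2 : (((D + d : ℤ) : ℝ) / r) ^ (1 / 4 : ℝ) ≤ (2 * ((D : ℝ) / r)) ^ (1 / 4 : ℝ) :=
        Real.rpow_le_rpow g0 g1 (by norm_num)
      have g3 : (2 : ℝ) ^ (1 / 4 : ℝ) ≤ 2 := by
        have := Real.rpow_le_rpow_of_exponent_le (by norm_num : (1 : ℝ) ≤ 2)
          (by norm_num : (1 / 4 : ℝ) ≤ 1)
        rwa [Real.rpow_one] at this
      rw [Real.mul_rpow (by norm_num) (by positivity)] at g2
      refine g2.trans (mul_le_mul_of_nonneg_right g3 (by positivity))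
    have hHav : 0 ≤ av E.F H := av_nonneg fun T _ => hD.nonneg _
    have hL10 : 0 ≤ av E.F L₁ := av_nonneg fun T _ => hL₁0 _
    have hL20 : 0 ≤ av E.F L₂ := av_nonneg fun T _ => hL₂0 _
    have hAZ : 0 ≤ A * E.Z := hHav.trans hD.mean
    show av E.F (fun ω => H ω * (L₁ ω * L₂ ω)) ≤ _ * E.Z
    rw [hav1, hav2]
    have hp : (0 : ℝ) ≤ ((D : ℝ) / r) ^ (1 / 4 : ℝ) := by positivity
    calc av E.F H * (av E.F L₁ * av E.F L₂)
        ≤ (A * E.Z) * ((2 * C₁ / D) * (C₂ * (2 * ((D : ℝ) / r) ^ (1 / 4 : ℝ)))) := by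
          refine mul_le_mul hD.mean ?_ (mul_nonneg hL10 hL20) hAZ
          refine mul_le_mul (e1.trans e3) (e2.trans ?_) hL20 (by positivity)
          exact mul_le_mul_of_nonneg_left e4 (zero_le_one.trans hC₂)
      _ = 4 * C₁ * C₂ * A / D * ((D : ℝ) / r) ^ (1 / 4 : ℝ) * E.Z := by ring

/-! ## Statement of part (C) -/

/-- **(C)** the zero arcs of the two sides at the mark, `z'` at the distance at least `d₀` from the mark -/
def PoleC : Prop := ∀ (P : Finset (ℤ × ℤ)) (L : ℕ) (g : ℤ → ℤ × ℤ), MPoly P → Cont P L g →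
  ∀ t₁ t₂ t₂' t₃ t₄ : ℝ, Marks5 L g t₁ t₂ t₂' t₃ t₄ → ∀ α ∈ Set.Ioo (0 : ℝ) 1, ∃ d₁ : ℝ, 0 < d₁ ∧
    ∀ d₀ : ℝ, 0 < d₀ → d₀ ≤ d₁ → ∃ C a : ℝ, 0 < a ∧ ∀ z ∈ Cl P, ∀ z' ∈ Cl P, z ≠ gam g t₄ →
      ‖z - gam g t₄‖ < d₀ → d₀ ≤ ‖z' - gam g t₄‖ → ∀ᶠ p : ℕ × ℤ in lk t₄,
        |av (rf p.1 P) (zp (envX P L g p.1 α (ix p.1 t₁) (ix p.1 t₂) (ix p.1 t₂') (ix p.1 t₃) (p.2 - 1))
            (csd (gr p.1 g) (p.2 - 1)) (fl p.1 z) (fl p.1 z')) +
          av (rf p.1 P) (zp (envX P L g p.1 α (ix p.1 t₁) (ix p.1 t₂) (ix p.1 t₂') (ix p.1 t₃) p.2)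
            (csd (gr p.1 g) p.2) (fl p.1 z) (fl p.1 z'))| ≤
          C * ‖z - gam g t₄‖ ^ (a - 1) *
            ((envX P L g p.1 α (ix p.1 t₁) (ix p.1 t₂) (ix p.1 t₂') (ix p.1 t₃) (p.2 - 1)).Z +
              (envX P L g p.1 α (ix p.1 t₁) (ix p.1 t₂) (ix p.1 t₂') (ix p.1 t₃) p.2).Z)

end

end Pool.Agent.SixB.GA
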