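import Pool.Agent.Lib.SixB.S6GPoleB
import Pool.Agent.Lib.SixB.S6GFld
import Pool.Agent.Lib.SixB.CADomUpB
import Pool.Agent.Lib.SixB.S6GLD
import Pool.Agent.Lib.SixB.S6GFar
import Pool.Agent.Lib.SixB.S6GGeo

/-!
# 6BD block CA, growth at `e`, part A3: the steps towards `e`

`w`, `w'` near the mark, `y = ‖w - gam t₄‖`, `‖w' - w‖ ≤ y / 8000`.
* `dist_near`: the distance of `fl n w` from the moving mark is `y n` up to a factor.
* `jX_off`, `jP_off`: the jumps of `envX`, `envP` vanish near the moving mark, off the two jumps of `e`.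
* `frame`: the frame `Fr` at the moving mark.
* `step`: the mean height differences of the pair `drop envX` (k - 1 and k) and of `envP` between `w` and `w'`
  differ by at most `K y ^ (-3 / 4)`.
* `DXf`: the pair `drop envX`.
-/

set_option autoImplicit false
set_option linter.ambiguousOpen false

namespace Pool.Agent.SixB.GA

open Finset Pool.Agent.Perc Pool.Agent.Perc.Q Pool.Agent.PercD Pool.Agent.PercN Tilt HG Relation GG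
open Filter Topology
open Ht (tJ dJ)

noncomputable section

section marks

variable {P : Finset (ℤ × ℤ)} {L : ℕ} {g : ℤ → ℤ × ℤ} {t₁ t₂ t₂' t₃ t₄ : ℝ}

/-! ## Distances -/

theorem fl_gam {n : ℕ} (hn : 0 < n) (g : ℤ → ℤ × ℤ) (k : ℤ) : fl n (gam g ((k : ℝ) / n)) = gr n g k := by
  have h0 : (n : ℝ) ≠ 0 := by exact_mod_cast hn.ne'
  rw [CARf.gam_div g hn]
  unfold fl
  simp only [mul_div_cancel₀ _ h0]
  rw [Int.floor_intCast, Int.floor_intCast]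

/-- the distance from the moving mark -/
theorem dist_near (hc : Cont P L g) {w : ℂ} (hw : w ≠ gam g t₄) : ∀ᶠ p : ℕ × ℤ in lk t₄,
    2 / 5 * ‖w - gam g t₄‖ * p.1 ≤ (dd (fl p.1 w) (gr p.1 g p.2) : ℝ) ∧
      (dd (fl p.1 w) (gr p.1 g p.2) : ℝ) ≤ 11 / 10 * ‖w - gam g t₄‖ * p.1 := by
  obtain ⟨y, hy⟩ : ∃ y : ℝ, y = ‖w - gam g t₄‖ := ⟨_, rfl⟩
  have hy0 : 0 < y := by rw [hy]; exact norm_pos_iff.2 (sub_ne_zero.2 hw)
  rw [← hy]
  filter_upwards [DomX.lk_near (ξ := t₄) (δ := y / 50) (by positivity), DomX.lk_pos t₄ ⌈100 / y⌉₊]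
    with p hk hn
  have hn1 : 100 / y < p.1 := (Nat.le_ceil _).trans_lt (by exact_mod_cast hn)
  have hn' : (0 : ℝ) < p.1 := lt_trans (by positivity) hn1
  have hn0 : 0 < p.1 := by exact_mod_cast hn'
  have hyn : 100 < y * p.1 := by rwa [div_lt_iff₀' hy0] at hn1
  have h1 := CARf.gam_lip hc t₄ ((p.2 : ℝ) / p.1)
  have h2 : ‖gam g ((p.2 : ℝ) / p.1) - gam g t₄‖ ≤ y / 50 := h1.trans hk.le
  have h3 := dd_ge hn0 g w p.2
  have h4 : ‖w - gam g t₄‖ ≤ ‖gam g ((p.2 : ℝ) / p.1) - w‖ + ‖gam g ((p.2 : ℝ) / p.1) - gam g t₄‖ := by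
    have : w - gam g t₄ = (gam g ((p.2 : ℝ) / p.1) - gam g t₄) - (gam g ((p.2 : ℝ) / p.1) - w) := by ring
    rw [this, add_comm]
    exact norm_sub_le _ _
  have h5 : ‖w - gam g ((p.2 : ℝ) / p.1)‖ ≤ y + y / 50 := by
    have : w - gam g ((p.2 : ℝ) / p.1) = (w - gam g t₄) - (gam g ((p.2 : ℝ) / p.1) - gam g t₄) := by ring
    rw [this]
    refine (norm_sub_le _ _).trans ?_
    rw [← hy]
    linarith
  have h6 : ‖w - gam g ((p.2 : ℝ) / p.1)‖ < 21 / 20 * y := by linarith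
  have h7 := GG.dd_fl (n := p.1) h6
  rw [fl_gam hn0] at h7
  have h8 : (dd (fl p.1 w) (gr p.1 g p.2) : ℝ) ≤ ⌈(p.1 : ℝ) * (21 / 20 * y)⌉ + 1 := by exact_mod_cast h7
  have h9 := Int.ceil_lt_add_one ((p.1 : ℝ) * (21 / 20 * y))
  constructor
  · rw [← hy] at h4
    have h10 : y - y / 50 ≤ ‖gam g ((p.2 : ℝ) / p.1) - w‖ := by linarith
    have h11 := mul_le_mul_of_nonneg_left h10 hn'.le
    nlinarith
  · nlinarith

/-! ## Jumps -/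

theorem jN_off {t : ℝ} (h1 : t < t₄) (h2 : t₄ < t + L) : ∃ δ : ℝ, 0 < δ ∧ ∀ᶠ p : ℕ × ℤ in lk t₄,
    ∀ w : ℤ, (|w| : ℝ) ≤ δ * p.1 → jN (p.1 * L) (ix p.1 t) (p.2 + w) = 0 := by
  obtain ⟨δ, hδ, hδ1, hδ2⟩ : ∃ δ : ℝ, 0 < δ ∧ 4 * δ ≤ t₄ - t ∧ 4 * δ ≤ t + L - t₄ := by
    refine ⟨min (t₄ - t) (t + L - t₄) / 4, div_pos (lt_min (by linarith) (by linarith)) (by norm_num), ?_, ?_⟩
    · linarith [min_le_left (t₄ - t) (t + L - t₄)]
    · linarith [min_le_right (t₄ - t) (t + L - t₄)]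
  refine ⟨δ, hδ, ?_⟩
  filter_upwards [DomX.lk_near (ξ := t₄) hδ, DomX.ix_near (lk_n t₄) t hδ, DomX.lk_pos t₄ 0] with p hk hi hn w hw
  have hn' : (0 : ℝ) < p.1 := by exact_mod_cast hn
  rw [abs_lt, sub_lt_iff_lt_add, lt_sub_iff_add_lt, div_lt_iff₀ hn', lt_div_iff₀ hn'] at hk hi
  rw [abs_le] at hw
  have e1 : (0 : ℝ) < ((p.2 + w - ix p.1 t : ℤ) : ℝ) := by
    push_cast
    nlinarith [hk.1, hi.2, hw.1, mul_le_mul_of_nonneg_right hδ1 hn'.le]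
  have e2 : ((p.2 + w - ix p.1 t : ℤ) : ℝ) < ((p.1 * L : ℕ) : ℝ) := by
    push_cast
    nlinarith [hk.2, hi.1, hw.2, mul_le_mul_of_nonneg_right hδ2 hn'.le]
  have e3 : 0 < p.2 + w - ix p.1 t := by exact_mod_cast e1
  have e4 : p.2 + w - ix p.1 t < ((p.1 * L : ℕ) : ℤ) := by exact_mod_cast e2
  refine jN_zero ?_ ?_
  · rw [abs_of_pos e3]
    exact e3
  · rw [abs_of_pos e3]
    exact e4

/-- the jumps of the pair `envX` and of `envP` near the moving mark -/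
theorem j_off (hc : Cont P L g) (hM : Marks5 L g t₁ t₂ t₂' t₃ t₄) (α : ℝ) : ∃ δ : ℝ, 0 < δ ∧
    ∀ᶠ p : ℕ × ℤ in lk t₄, ∀ R : ℤ, (R : ℝ) ≤ δ * p.1 → ∀ w : ℤ, 2 ≤ |w| → |w| ≤ R →
      jX (p.1 * L) α (ix p.1 t₁) (ix p.1 t₂) (ix p.1 t₂') (ix p.1 t₃) p.2 (p.2 + w) = 0 ∧
      jX (p.1 * L) α (ix p.1 t₁) (ix p.1 t₂) (ix p.1 t₂') (ix p.1 t₃) (p.2 - 1) (p.2 + w) = 0 ∧
      jP (p.1 * L) α (ix p.1 t₂) (ix p.1 t₂') (p.2 + w) = 0 := by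
  have hL : (0 : ℝ) < L := by exact_mod_cast hc.pos
  obtain ⟨δ₁, p1, q1⟩ := jN_off (L := L) (t := t₁) (t₄ := t₄) (by linarith [hM.h1, hM.h2, hM.h3, hM.h4]) hM.h5
  obtain ⟨δ₂, p2, q2⟩ := jN_off (L := L) (t := t₂) (t₄ := t₄) (by linarith [hM.h2, hM.h3, hM.h4])
    (by linarith [hM.h1, hM.h5])
  obtain ⟨δ₂', p2', q2'⟩ := jN_off (L := L) (t := t₂') (t₄ := t₄) (by linarith [hM.h3, hM.h4])
    (by linarith [hM.h1, hM.h2, hM.h5])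
  obtain ⟨δ₃, p3, q3⟩ := jN_off (L := L) (t := t₃) (t₄ := t₄) hM.h4
    (by linarith [hM.h1, hM.h2, hM.h3, hM.h5])
  obtain ⟨δ, hδ, e1, e2, e2', e3, e4⟩ : ∃ δ : ℝ, 0 < δ ∧ δ ≤ δ₁ ∧ δ ≤ δ₂ ∧ δ ≤ δ₂' ∧ δ ≤ δ₃ ∧ δ ≤ L / 2 := by
    refine ⟨min (min δ₁ δ₂) (min (min δ₂' δ₃) (L / 2)), by positivity, ?_, ?_, ?_, ?_, ?_⟩
    · exact (min_le_left _ _).trans (min_le_left _ _)
    · exact (min_le_left _ _).trans (min_le_right _ _)
    · exact (min_le_right _ _).trans ((min_le_left _ _).trans (min_le_left _ _))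
    · exact (min_le_right _ _).trans ((min_le_left _ _).trans (min_le_right _ _))
    · exact (min_le_right _ _).trans (min_le_right _ _)
  refine ⟨δ, hδ, ?_⟩
  filter_upwards [q1, q2, q2', q3, DomX.lk_pos t₄ 2] with p a1 a2 a2' a3 hn R hR w hw2 hwR
  have hn' : (2 : ℝ) < p.1 := by exact_mod_cast hn
  have hwr : (|w| : ℝ) ≤ δ * p.1 := by
    refine le_trans ?_ hR
    exact_mod_cast hwR
  have hle : ∀ δ' : ℝ, δ ≤ δ' → (|w| : ℝ) ≤ δ' * p.1 := fun δ' h =>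
    hwr.trans (mul_le_mul_of_nonneg_right h (by linarith))
  have b1 := a1 w (hle _ e1)
  have b2 := a2 w (hle _ e2)
  have b2' := a2' w (hle _ e2')
  have b3 := a3 w (hle _ e3)
  -- `|w| + 1 < n L`
  have hbig : |w| + 1 < ((p.1 * L : ℕ) : ℤ) := by
    have h1 : (|w| : ℝ) ≤ L / 2 * p.1 := hle _ e4
    have hL1 : (1 : ℝ) ≤ L := by exact_mod_cast hc.pos
    have h2 : ((|w| + 1 : ℤ) : ℝ) < ((p.1 * L : ℕ) : ℝ) := by
      push_cast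
      nlinarith
    exact_mod_cast h2
  have hwl := abs_le.1 (le_refl |w|)
  have c0 : jN (p.1 * L) p.2 (p.2 + w) = 0 := by
    refine jN_zero ?_ ?_ <;> rw [show p.2 + w - p.2 = w by ring] <;> omega
  have c1 : jN (p.1 * L) (p.2 + 1) (p.2 + w) = 0 := by
    refine jN_zero ?_ ?_ <;> rw [show p.2 + w - (p.2 + 1) = w - 1 by ring]
    · rw [abs_pos]; intro h; rw [show w = 1 by omega] at hw2; norm_num at hw2
    · refine lt_of_le_of_lt (abs_sub _ _) ?_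
      rw [abs_one]; exact hbig
  have c2 : jN (p.1 * L) (p.2 - 1) (p.2 + w) = 0 := by
    refine jN_zero ?_ ?_ <;> rw [show p.2 + w - (p.2 - 1) = w + 1 by ring]
    · rw [abs_pos]; intro h; rw [show w = -1 by omega] at hw2; norm_num at hw2
    · refine lt_of_le_of_lt (abs_add_le _ _) ?_
      rw [abs_one]; exact hbig
  refine ⟨?_, ?_, ?_⟩
  · unfold jX
    rw [b1, b2, b2', b3, c0, c1]
    ring
  · unfold jX
    rw [b1, b2, b2', b3, c2, show p.2 - 1 + 1 = p.2 by ring, c0]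
    ring
  · unfold jP
    rw [b2, b2']
    ring

/-- the frame at the moving mark -/
theorem frame (hc : Cont P L g) (h4 : Fl g t₄) : ∃ κ : ZMod 4, ∃ δ : ℝ, 0 < δ ∧ ∀ᶠ p : ℕ × ℤ in lk t₄,
    ∀ R : ℤ, 0 ≤ R → (R : ℝ) ≤ δ * p.1 → Fr (rf p.1 P) (gr p.1 g) (p.1 * L) p.2 κ R ∧
      Fr (rf p.1 P) (gr p.1 g) (p.1 * L) (p.2 - 1) κ R := by
  obtain ⟨κ, δ, hδ, h⟩ := flat_near hc h4
  have hL : (1 : ℝ) ≤ L := by exact_mod_cast hc.pos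
  have key : ∀ᶠ p : ℕ × ℤ in lk t₄, ∀ R : ℤ, 0 ≤ R → (R : ℝ) ≤ min δ (1 / 2) * p.1 →
      Fr (rf p.1 P) (gr p.1 g) (p.1 * L) p.2 κ R := by
    filter_upwards [DomX.lk_near (ξ := t₄) hδ, DomX.lk_pos t₄ 0] with p hk hn R hR0 hR
    have hn' : (0 : ℝ) < p.1 := by exact_mod_cast hn
    obtain ⟨h1, h2⟩ := h p.1 hn p.2 hk R hR0 (hR.trans (mul_le_mul_of_nonneg_right (min_le_left _ _) hn'.le))
    refine ⟨CARf.cont_rf hc hn, h1, h2, ?_⟩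
    have h3 : (R : ℝ) ≤ 1 / 2 * p.1 := hR.trans (mul_le_mul_of_nonneg_right (min_le_right _ _) hn'.le)
    have h4 : (2 * R : ℝ) ≤ ((p.1 * L : ℕ) : ℝ) := by
      push_cast
      nlinarith
    exact_mod_cast h4
  refine ⟨κ, min δ (1 / 2), by positivity, ?_⟩
  filter_upwards [key, (DomX.lk_pred t₄).eventually key] with p h1 h2 R hR0 hR
  exact ⟨h1 R hR0 hR, h2 R hR0 hR⟩

/-! ## Majorants of the pair -/

/-- the majorant of `drop envX` near the moving mark -/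
theorem maj_one (hR : DomX.ResX) (hP : MPoly P) (hc : Cont P L g) (hM : Marks5 L g t₁ t₂ t₂' t₃ t₄) {α : ℝ}
    (hα : α ∈ Set.Icc (0 : ℝ) 1) : ∃ ρ C : ℝ, 0 < ρ ∧ 0 < C ∧ ∀ w : ℂ, w ≠ gam g t₄ →
      ‖w - gam g t₄‖ < ρ → ∀ᶠ p : ℕ × ℤ in lk t₄, ∀ d : ℤ, 1 ≤ d →
        2 * d + 4 ≤ dd (fl p.1 w) (gr p.1 g p.2) →
          Maj (drop (envX P L g p.1 α (ix p.1 t₁) (ix p.1 t₂) (ix p.1 t₂') (ix p.1 t₃) p.2)
            (csd (gr p.1 g) p.2)) (fl p.1 w) d (C * ‖w - gam g t₄‖ ^ (-(3 / 4) : ℝ)) := by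
  obtain ⟨Cm, hCm, hm⟩ := maj_drop
  obtain ⟨ρ₀, hρ₀, hR⟩ := hR P L g hP hc _ _ _ _ _ hM
  obtain ⟨κ, δ, hδ, hfr⟩ := frame hc hM.f4
  obtain ⟨ρ, hρ, hρ1, hρ2⟩ : ∃ ρ : ℝ, 0 < ρ ∧ ρ ≤ ρ₀ ∧ ρ ≤ δ :=
    ⟨min ρ₀ δ, lt_min hρ₀ hδ, min_le_left _ _, min_le_right _ _⟩
  obtain ⟨M, hM0, hRρ⟩ := hR ρ hρ hρ1
  refine ⟨ρ / 4, Cm * M * (5 / 2) * (11 / (5 * ρ)) ^ (1 / 4 : ℝ), by positivity, by positivity, ?_⟩
  intro w hw hwy
  obtain ⟨y, hy⟩ : ∃ y : ℝ, y = ‖w - gam g t₄‖ := ⟨_, rfl⟩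
  have hy0 : 0 < y := by rw [hy]; exact norm_pos_iff.2 (sub_ne_zero.2 hw)
  rw [← hy] at hwy ⊢
  filter_upwards [hRρ, hfr, dist_near hc hw, DomX.lk_pos t₄ ⌈4 / ρ⌉₊] with p k1 k2 k3 hn d hd hdD
  rw [← hy] at k3
  obtain ⟨D, hD⟩ : ∃ D : ℤ, D = dd (fl p.1 w) (gr p.1 g p.2) := ⟨_, rfl⟩
  rw [← hD] at k3 hdD
  obtain ⟨k3, k4⟩ := k3
  have hn1 : 4 / ρ < p.1 := (Nat.le_ceil _).trans_lt (by exact_mod_cast hn)
  have hn' : (0 : ℝ) < p.1 := lt_trans (by positivity) hn1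
  have hn0 : 0 < p.1 := by exact_mod_cast hn'
  have hρn : 4 < ρ * p.1 := by rwa [div_lt_iff₀' hρ] at hn1
  obtain ⟨r, hr⟩ : ∃ r : ℤ, r = ⌊ρ * p.1⌋ := ⟨_, rfl⟩
  have hr1 : (r : ℝ) ≤ ρ * p.1 := by rw [hr]; exact Int.floor_le _
  have hr2 : ρ * p.1 - 1 < r := by rw [hr]; exact Int.sub_one_lt_floor _
  have hr0 : (0 : ℝ) < r := by linarith
  have hrz : 0 < r := by exact_mod_cast hr0
  -- the far vertex
  obtain ⟨z, hz⟩ : ∃ z : VZ, z = (8 * r + |(gr p.1 g (ix p.1 t₂)).1| + |(gr p.1 g (ix p.1 t₂')).1| +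
    |(gr p.1 g p.2).1|, 0) := ⟨_, rfl⟩
  have hzf : ∀ v : VZ, v = gr p.1 g (ix p.1 t₂) ∨ v = gr p.1 g (ix p.1 t₂') ∨ v = gr p.1 g p.2 →
      8 * r ≤ dd z v := by
    intro v hv
    have h1 : z.1 - v.1 ≤ dd z v := (le_abs_self _).trans (le_max_left _ _)
    have h2 := le_abs_self v.1
    have a1 := abs_nonneg (gr p.1 g (ix p.1 t₂)).1
    have a2 := abs_nonneg (gr p.1 g (ix p.1 t₂')).1
    have a3 := abs_nonneg (gr p.1 g p.2).1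
    have h3 : z.1 = 8 * r + |(gr p.1 g (ix p.1 t₂)).1| + |(gr p.1 g (ix p.1 t₂')).1| +
      |(gr p.1 g p.2).1| := by rw [hz]
    rcases hv with hv | hv | hv
    · rw [← hv] at h3 a1; linarith
    · rw [← hv] at h3 a2; linarith
    · rw [← hv] at h3 a3; linarith
  have k1' := k1 α hα z 0
  rw [← hr] at k1'
  obtain ⟨H, hH⟩ := k1' hrz.le (hzf _ (Or.inl rfl)) (hzf _ (Or.inr (Or.inl rfl))) (hzf _ (Or.inr (Or.inr rfl)))
  have hcf := CARf.cont_rf hc hn0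
  have hflat := ((k2 r hrz.le (hr1.trans (mul_le_mul_of_nonneg_right hρ2 hn'.le))).1).flat
  have hDr : D + d < r := by
    have h1 : ((2 * (D + d) : ℤ) : ℝ) ≤ 3 * D := by exact_mod_cast (by omega : 2 * (D + d) ≤ 3 * D)
    push_cast at h1
    have h2 : y * p.1 ≤ ρ / 4 * p.1 := mul_le_mul_of_nonneg_right hwy.le hn'.le
    have h3 : ((D + d : ℤ) : ℝ) < r := by push_cast; nlinarith
    exact_mod_cast h3
  have h := hm _ _ _ κ r (BR z 0) (M * p.1) H (fl p.1 w) d D hH hH.T0 (hcf.csd_mem_bS p.2) hflat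
    (DomX.inE_side hcf p.2 le_rfl) hD.symm hd hdD hDr
  refine h.le ?_
  have hD0 : (0 : ℝ) < D := lt_of_lt_of_le (by positivity) k3
  have e1 : Cm * (M * p.1) / D ≤ Cm * M * (5 / 2) / y := by
    rw [div_le_div_iff₀ hD0 hy0]
    have : Cm * M * (2 / 5 * y * p.1) ≤ Cm * M * D := mul_le_mul_of_nonneg_left k3 (by positivity)
    nlinarith
  have e2 : ((D : ℝ) / r) ^ (1 / 4 : ℝ) ≤ (11 / (5 * ρ)) ^ (1 / 4 : ℝ) * y ^ (1 / 4 : ℝ) := by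
    rw [← Real.mul_rpow (by positivity) hy0.le]
    refine Real.rpow_le_rpow (by positivity) ?_ (by norm_num)
    rw [div_le_iff₀ hr0]
    have h1 : ρ * p.1 ≤ 2 * r := by linarith
    have h2 : (11 / (5 * ρ)) * y * r = 11 / 10 * y * (2 * r / ρ) := by field_simp; ring
    rw [h2]
    refine k4.trans ?_
    refine mul_le_mul_of_nonneg_left ?_ (by positivity)
    rw [le_div_iff₀ hρ]
    linarith
  calc Cm * (M * p.1) / D * ((D : ℝ) / r) ^ (1 / 4 : ℝ)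
      ≤ Cm * M * (5 / 2) / y * ((11 / (5 * ρ)) ^ (1 / 4 : ℝ) * y ^ (1 / 4 : ℝ)) :=
        mul_le_mul e1 e2 (by positivity) (by positivity)
    _ = Cm * M * (5 / 2) * (11 / (5 * ρ)) ^ (1 / 4 : ℝ) * y ^ (-(3 / 4) : ℝ) := by
        have h1 : y ^ (-(3 / 4) : ℝ) = y⁻¹ * y ^ (1 / 4 : ℝ) := by
          rw [← Real.rpow_neg_one, ← Real.rpow_add hy0]
          norm_num
        rw [h1]
        ring

/-- the pair `drop envX` at the moving mark -/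
def DXf (P : Finset (ℤ × ℤ)) (L : ℕ) (g : ℤ → ℤ × ℤ) (t₁ t₂ t₂' t₃ α : ℝ) (p : ℕ × ℤ) (c : Bool) : WEnv :=
  drop (envX P L g p.1 α (ix p.1 t₁) (ix p.1 t₂) (ix p.1 t₂') (ix p.1 t₃) (if c then p.2 else p.2 - 1))
    (csd (gr p.1 g) (if c then p.2 else p.2 - 1))

theorem maj_pair (hR : DomX.ResX) (hP : MPoly P) (hc : Cont P L g) (hM : Marks5 L g t₁ t₂ t₂' t₃ t₄) {α : ℝ}
    (hα : α ∈ Set.Icc (0 : ℝ) 1) : ∃ ρ C : ℝ, 0 < ρ ∧ 0 < C ∧ ∀ w : ℂ, w ≠ gam g t₄ →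
      ‖w - gam g t₄‖ < ρ → ∀ᶠ p : ℕ × ℤ in lk t₄, ∀ (c : Bool) (d : ℤ), 1 ≤ d →
        2 * d + 5 ≤ dd (fl p.1 w) (gr p.1 g p.2) →
          Maj (DXf P L g t₁ t₂ t₂' t₃ α p c) (fl p.1 w) d (C * ‖w - gam g t₄‖ ^ (-(3 / 4) : ℝ)) := by
  obtain ⟨ρ, C, hρ, hC, h⟩ := maj_one hR hP hc hM hα
  refine ⟨ρ, C, hρ, hC, fun w hw hwy => ?_⟩
  filter_upwards [h w hw hwy, (DomX.lk_pred t₄).eventually (h w hw hwy), DomX.lk_pos t₄ 0] with p h1 h2 hn c d hd hdD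
  have h3 := DomX.dd_succ hc hn p.2
  have h4 := DomX.dd_tri (fl p.1 w) (gr p.1 g (p.2 - 1)) (gr p.1 g p.2)
  cases c
  · exact h2 d hd (by
      show 2 * d + 4 ≤ dd (fl p.1 w) (gr p.1 g (p.2 - 1))
      linarith)
  · exact h1 d hd (by linarith)

/-! ## Local hypotheses of the pair -/

/-- the local hypotheses of LD1 for `drop (cenv j) e` and `cenv j'`, and the comparison -/
theorem pair_same {F : Finset (ℤ × ℤ)} {G : ℤ → VZ} {m : ℕ} {k D d R₀ : ℤ} {κ : ZMod 4} {v : VZ}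
    (h : Fr F G m k κ R₀) (hv : dd v (G k) = D) (hd : 2 * d + 4 ≤ D) (hDR : D + d + 1 ≤ R₀)
    {j j' : ℤ → ℝ} (hj : ∀ v, j (v + m) = j v) (h0 : csum j 0 m = Real.pi / 3)
    (hz : ∀ w, 2 ≤ |w| → |w| ≤ R₀ → j (k + w) = 0) (hj' : ∀ v, j' (v + m) = j' v)
    (h0' : csum j' 0 m = Real.pi / 3) (hz' : ∀ w, 2 ≤ |w| → |w| ≤ R₀ → j' (k + w) = 0) {e : DZ}
    (he : e = csd G k ∨ e = csd G (k - 1)) :
    NatW (drop (cenv F G m j) e) v d ∧ Kap2 (drop (cenv F G m j) e) v d ∧ NatW (cenv F G m j') v d ∧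
      Kap2 (cenv F G m j') v d ∧ ∀ a ∈ bS ZQ F, ∀ b ∈ bS ZQ F, Ah ZQ (BR v d) a → Ah ZQ (BR v d) b →
        (cenv F G m j').t a b = (drop (cenv F G m j) e).t a b ∧
          (cenv F G m j').s a b = (drop (cenv F G m j) e).s a b := by
  have hne : ∀ a ∈ bS ZQ F, Ah ZQ (BR v d) a → a ≠ e := by
    intro a ha hB
    obtain ⟨h1, h2⟩ := h.ne hv hd hDR ha hB
    rcases he with rfl | rfl
    · exact h1
    · exact h2
  have hN : NatW (drop (cenv F G m j) e) v d := fun a ha b hb h1 h2 =>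
    (h.same hv hd hDR hj h0 hz hj' h0' hz' ha hb h1 h2).1
  have hN' : NatW (cenv F G m j') v d := fun a ha b hb h1 h2 =>
    (h.same hv hd hDR hj' h0' hz' hj h0 hz ha hb h1 h2).1
  refine ⟨hN, kap2_of hN fun a ha b hb h1 h2 => ?_, hN', kap2_of hN' fun a ha b hb h1 h2 => ?_, ?_⟩
  · rw [drop_s_ne (hne a ha h1) (hne b hb h2)]
    exact (h.same hv hd hDR hj h0 hz hj' h0' hz' ha hb h1 h2).2.2.2
  · exact (h.same hv hd hDR hj' h0' hz' hj h0 hz ha hb h1 h2).2.2.2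
  · intro a ha b hb h1 h2
    rw [drop_s_ne (hne a ha h1) (hne b hb h2)]
    obtain ⟨-, h3, h4, -⟩ := h.same hv hd hDR hj h0 hz hj' h0' hz' ha hb h1 h2
    exact ⟨h3, h4⟩

/-- the marks `a2`, `a2'` are far from the points near the mark `e` -/
theorem mark_off (hc : Cont P L g) {t : ℝ} (ht : gam g t ≠ gam g t₄) : ∃ ε : ℝ, 0 < ε ∧
    ∀ᶠ p : ℕ × ℤ in lk t₄, ∀ w : ℂ, ‖w - gam g t₄‖ < ε →
      ε * p.1 ≤ (dd (fl p.1 w) (gr p.1 g (ix p.1 t)) : ℝ) := by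
  obtain ⟨e, he⟩ : ∃ e : ℝ, e = ‖gam g t - gam g t₄‖ := ⟨_, rfl⟩
  have he0 : 0 < e := by rw [he]; exact norm_pos_iff.2 (sub_ne_zero.2 ht)
  refine ⟨e / 8, by positivity, ?_⟩
  filter_upwards [DomX.ix_near (lk_n t₄) t (δ := e / 8) (by positivity), DomX.lk_pos t₄ ⌈16 / e⌉₊]
    with p hk hn w hw
  have hn1 : 16 / e < p.1 := (Nat.le_ceil _).trans_lt (by exact_mod_cast hn)
  have hn' : (0 : ℝ) < p.1 := lt_trans (by positivity) hn1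
  have hn0 : 0 < p.1 := by exact_mod_cast hn'
  have hen : 16 < e * p.1 := by rwa [div_lt_iff₀' he0] at hn1
  have h1 := (CARf.gam_lip hc t ((ix p.1 t : ℝ) / p.1)).trans hk.le
  have h3 := dd_ge hn0 g w (ix p.1 t)
  have h4 : e ≤ ‖gam g ((ix p.1 t : ℝ) / p.1) - w‖ + ‖gam g ((ix p.1 t : ℝ) / p.1) - gam g t‖ +
      ‖w - gam g t₄‖ := by
    have e1 : gam g t - gam g t₄ = (gam g ((ix p.1 t : ℝ) / p.1) - w) -
      (gam g ((ix p.1 t : ℝ) / p.1) - gam g t) + (w - gam g t₄) := by ring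
    rw [he, e1]
    exact (norm_add_le _ _).trans (add_le_add (norm_sub_le _ _) le_rfl)
  have h5 : e / 2 ≤ ‖gam g ((ix p.1 t : ℝ) / p.1) - w‖ := by linarith
  have h6 := mul_le_mul_of_nonneg_left h5 hn'.le
  nlinarith

/-- **one step** -/
theorem step (hR : DomX.ResX) (hMP : DomX.MajP) (hP : MPoly P) (hc : Cont P L g)
    (hM : Marks5 L g t₁ t₂ t₂' t₃ t₄) {α : ℝ} (hα : α ∈ Set.Icc (0 : ℝ) 1) : ∃ K y₀ : ℝ, 0 ≤ K ∧ 0 < y₀ ∧
    ∀ w ∈ Cl P, ∀ w' ∈ Cl P, w ≠ gam g t₄ → ‖w - gam g t₄‖ < y₀ → ‖w' - w‖ ≤ ‖w - gam g t₄‖ / 8000 →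
      ∀ᶠ p : ℕ × ℤ in lk t₄,
        |hF (Finset.univ : Finset Bool) (DXf P L g t₁ t₂ t₂' t₃ α p) (fl p.1 w) (fl p.1 w') -
          hF ({()} : Finset Unit) (fun _ => envP P L g p.1 α (ix p.1 t₂) (ix p.1 t₂')) (fl p.1 w) (fl p.1 w')| ≤
          K * ‖w - gam g t₄‖ ^ (-(3 / 4) : ℝ) := by
  obtain ⟨C, c, hC, hc0, hF⟩ := hF_same ld1_holds rowSame
  obtain ⟨δG, hδG, hgeo⟩ := rowGeo P hP
  obtain ⟨ρX, CX, hρX, hCX, hX⟩ := maj_pair hR hP hc hM hα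
  have hL : (0 : ℝ) < L := by exact_mod_cast hc.pos
  have g2 : gam g t₂ ≠ gam g t₄ := DomX.gam_ne' hc (by linarith [hM.h2, hM.h3, hM.h4])
    (by linarith [hM.h1, hM.h5])
  have g2' : gam g t₂' ≠ gam g t₄ := DomX.gam_ne' hc (by linarith [hM.h3, hM.h4])
    (by linarith [hM.h1, hM.h2, hM.h5])
  obtain ⟨ε₂, hε₂, hm₂⟩ := mark_off hc g2
  obtain ⟨ε₂', hε₂', hm₂'⟩ := mark_off hc g2'
  obtain ⟨δP, MP, hδP, hMP0, hPm⟩ := hMP P L g hP hc t₂ t₂' hM.h2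
    (by linarith [hM.h1, hM.h3, hM.h4, hM.h5]) hM.f2 hM.f2' (min ε₂ ε₂') (lt_min hε₂ hε₂')
  obtain ⟨δj, hδj, hj⟩ := j_off hc hM α
  obtain ⟨κ, δf, hδf, hfr⟩ := frame hc hM.f4
  obtain ⟨y₀, hy₀, a1, a2, a3, a4, a5, a6, a7, a8⟩ : ∃ y₀ : ℝ, 0 < y₀ ∧ y₀ ≤ ρX ∧ y₀ ≤ δG ∧ y₀ ≤ δP ∧
      y₀ ≤ δj / 4 ∧ y₀ ≤ δf / 4 ∧ y₀ ≤ ε₂ ∧ y₀ ≤ ε₂' ∧ y₀ ≤ 1 := by
    refine ⟨min (min (min ρX δG) (min δP (δj / 4))) (min (min (δf / 4) ε₂) (min ε₂' 1)), by positivity,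
      ?_, ?_, ?_, ?_, ?_, ?_, ?_, ?_⟩
    · exact (min_le_left _ _).trans ((min_le_left _ _).trans (min_le_left _ _))
    · exact (min_le_left _ _).trans ((min_le_left _ _).trans (min_le_right _ _))
    · exact (min_le_left _ _).trans ((min_le_right _ _).trans (min_le_left _ _))
    · exact (min_le_left _ _).trans ((min_le_right _ _).trans (min_le_right _ _))
    · exact (min_le_right _ _).trans ((min_le_left _ _).trans (min_le_left _ _))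
    · exact (min_le_right _ _).trans ((min_le_left _ _).trans (min_le_right _ _))
    · exact (min_le_right _ _).trans ((min_le_right _ _).trans (min_le_left _ _))
    · exact (min_le_right _ _).trans ((min_le_right _ _).trans (min_le_right _ _))
  refine ⟨2 * C * (CX + MP), y₀, by positivity, hy₀, ?_⟩
  intro w hw w' hw' hwx hwy hww
  obtain ⟨y, hy⟩ : ∃ y : ℝ, y = ‖w - gam g t₄‖ := ⟨_, rfl⟩
  have hy0 : 0 < y := by rw [hy]; exact norm_pos_iff.2 (sub_ne_zero.2 hwx)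
  have hXw := hX w hwx (hwy.trans_le a1)
  have hd0 := dist_near hc hwx
  rw [← hy] at hwy hww hXw hd0 ⊢
  filter_upwards [hXw, hd0, hm₂, hm₂', (lk_n t₄).eventually hPm, (lk_n t₄).eventually hgeo, hj, hfr,
    DomX.lk_pos t₄ ⌈100000 / y⌉₊] with p k1 k2 k3 k3' k4 k5 k6 k7 hn
  have hn1 : 100000 / y < p.1 := (Nat.le_ceil _).trans_lt (by exact_mod_cast hn)
  have hn' : (0 : ℝ) < p.1 := lt_trans (by positivity) hn1
  have hn0 : 0 < p.1 := by exact_mod_cast hn'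
  have hyn : 100000 < y * p.1 := by rwa [div_lt_iff₀' hy0] at hn1
  obtain ⟨D, hD⟩ : ∃ D : ℤ, D = dd (fl p.1 w) (gr p.1 g p.2) := ⟨_, rfl⟩
  rw [← hD] at k2
  obtain ⟨k2, k2'⟩ := k2
  have hDbig : (40000 : ℝ) < D := by nlinarith
  have hDz : 40000 < D := by exact_mod_cast hDbig
  -- scales
  obtain ⟨d, hd⟩ : ∃ d : ℤ, d = D / 8 := ⟨_, rfl⟩
  obtain ⟨R, hRd⟩ : ∃ R : ℤ, R = d / 64 := ⟨_, rfl⟩
  obtain ⟨s, hs⟩ : ∃ s : ℤ, s = R / 4 := ⟨_, rfl⟩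
  have s1 : 1 ≤ s := by omega
  have s2 : 4 * s ≤ R := by omega
  have s3 : 64 * R ≤ d := by omega
  have s4 : 8 * d ≤ D := by omega
  have s5 : D < 2048 * (s + 1) := by omega
  have hdr : (8 * d : ℝ) ≤ D := by exact_mod_cast s4
  have hsr : (D : ℝ) < 2048 * (s + 1) := by exact_mod_cast s5
  have hdy : (d : ℝ) ≤ y * p.1 := by nlinarith
  have hdle : ∀ δ : ℝ, y₀ ≤ δ → (d : ℝ) ≤ δ * p.1 := fun δ h =>
    hdy.trans (mul_le_mul_of_nonneg_right (hwy.le.trans h) hn'.le)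
  have hRle : ∀ δ : ℝ, y₀ ≤ δ / 4 → ((D + d + 1 : ℤ) : ℝ) ≤ δ * p.1 := by
    intro δ h
    have h1 : 4 * (y * p.1) ≤ δ * p.1 := by
      have := mul_le_mul_of_nonneg_right (hwy.le.trans h) hn'.le
      linarith
    refine le_trans ?_ h1
    push_cast
    nlinarith
  -- the marks
  have e2 : min ε₂ ε₂' * p.1 ≤ (dd (fl p.1 w) (gr p.1 g (ix p.1 t₂)) : ℝ) :=
    (mul_le_mul_of_nonneg_right (min_le_left _ _) hn'.le).trans
      (k3 w (by rw [← hy]; exact hwy.trans_le a6))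
  have e2' : min ε₂ ε₂' * p.1 ≤ (dd (fl p.1 w) (gr p.1 g (ix p.1 t₂')) : ℝ) :=
    (mul_le_mul_of_nonneg_right (min_le_right _ _) hn'.le).trans
      (k3' w (by rw [← hy]; exact hwy.trans_le a7))
  have hMajP := k4 α hα (fl p.1 w) d (hdle _ a3) e2 e2'
  -- frames and jumps
  obtain ⟨f1, -⟩ := k7 (D + d + 1) (by omega) (hRle _ a5)
  have hjz := k6 (D + d + 1) (hRle _ a4)
  have hnL : 0 < p.1 * L := Nat.mul_pos hn0 hc.pos
  have hps : ∀ (l : ℤ) (e : DZ), (l = p.2 ∨ l = p.2 - 1) → e = csd (gr p.1 g) l →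
      NatW (drop (envX P L g p.1 α (ix p.1 t₁) (ix p.1 t₂) (ix p.1 t₂') (ix p.1 t₃) l) e) (fl p.1 w) d ∧
      Kap2 (drop (envX P L g p.1 α (ix p.1 t₁) (ix p.1 t₂) (ix p.1 t₂') (ix p.1 t₃) l) e) (fl p.1 w) d ∧
      NatW (envP P L g p.1 α (ix p.1 t₂) (ix p.1 t₂')) (fl p.1 w) d ∧
      Kap2 (envP P L g p.1 α (ix p.1 t₂) (ix p.1 t₂')) (fl p.1 w) d ∧
      ∀ a ∈ bS ZQ (rf p.1 P), ∀ b ∈ bS ZQ (rf p.1 P), Ah ZQ (BR (fl p.1 w) d) a →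
        Ah ZQ (BR (fl p.1 w) d) b →
        (envP P L g p.1 α (ix p.1 t₂) (ix p.1 t₂')).t a b =
          (drop (envX P L g p.1 α (ix p.1 t₁) (ix p.1 t₂) (ix p.1 t₂') (ix p.1 t₃) l) e).t a b ∧
        (envP P L g p.1 α (ix p.1 t₂) (ix p.1 t₂')).s a b =
          (drop (envX P L g p.1 α (ix p.1 t₁) (ix p.1 t₂) (ix p.1 t₂') (ix p.1 t₃) l) e).s a b := by
    intro l e hl he
    refine pair_same f1 hD.symm (by omega) le_rfl (fun v => jX_per _ _ _ _ _ _ _ _) (csum_jX hnL _ _ _ _ _ _)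
      (fun w h1 h2 => ?_) (fun v => jP_per _ _ _ _ _) (csum_jP hnL _ _ _) (fun w h1 h2 => ?_) ?_
    · obtain ⟨b1, b2, -⟩ := hjz w h1 h2
      rcases hl with rfl | rfl
      · exact b1
      · exact b2
    · exact (hjz w h1 h2).2.2
    · rcases hl with rfl | rfl
      · exact Or.inl he
      · exact Or.inr he
  -- the majorant constant
  obtain ⟨Y, hY⟩ : ∃ Y : ℝ, Y = y ^ (-(3 / 4) : ℝ) := ⟨_, rfl⟩
  have hY1 : 1 ≤ Y := by
    rw [hY]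
    exact Real.one_le_rpow_of_pos_of_le_one_of_nonpos hy0 (hwy.le.trans a8) (by norm_num)
  have hM1 : CX * y ^ (-(3 / 4) : ℝ) ≤ (CX + MP) * Y := by rw [← hY]; nlinarith
  have hM2 : MP ≤ (CX + MP) * Y := by nlinarith
  obtain ⟨hL1, hq1⟩ := k5 (fl p.1 w) d (isV_fl hn0 hw) (hdle _ a2)
  have hdd' : dd (fl p.1 w') (fl p.1 w) ≤ s := by
    have h1 : ‖w' - w‖ < y / 7000 := lt_of_le_of_lt hww (by linarith)
    have h2 := GG.dd_fl (n := p.1) h1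
    refine h2.trans ?_
    have h3 := Int.ceil_lt_add_one ((p.1 : ℝ) * (y / 7000))
    have h4 : ((⌈(p.1 : ℝ) * (y / 7000)⌉ + 1 : ℤ) : ℝ) ≤ s := by
      push_cast
      nlinarith
    exact_mod_cast h4
  have hdd0 : dd (fl p.1 w) (fl p.1 w) ≤ s := by
    have : dd (fl p.1 w) (fl p.1 w) = 0 := by unfold dd; simp
    omega
  have key := hF Bool Unit Finset.univ {()} (DXf P L g t₁ t₂ t₂' t₃ α p)
    (fun _ => envP P L g p.1 α (ix p.1 t₂) (ix p.1 t₂')) (rf p.1 P) (fl p.1 w) d s R ((CX + MP) * Y)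
    (fl p.1 w) (fl p.1 w') Finset.univ_nonempty (Finset.singleton_nonempty _) (CARf.mpoly_rf hP hn0).potQ hL1
    (hq1 (by omega)) ?_ ?_ ?_ (by positivity) s1 s2 s3 (isV_fl hn0 hw) (isV_fl hn0 hw') hdd0 hdd'
  · refine key.trans ?_
    have hRpos : (0 : ℝ) < R := by exact_mod_cast (by omega : 0 < R)
    have hdpos : (0 : ℝ) < d := by exact_mod_cast (by omega : 0 < d)
    have hs0 : (0 : ℝ) ≤ s := by exact_mod_cast (by omega : 0 ≤ s)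
    have b1 : ((s : ℝ) / R) ^ c ≤ 1 := by
      refine Real.rpow_le_one (by positivity) ?_ hc0.le
      rw [div_le_one hRpos]
      exact_mod_cast (by omega : s ≤ R)
    have b2 : ((R : ℝ) / d) ^ c ≤ 1 := by
      refine Real.rpow_le_one (by positivity) ?_ hc0.le
      rw [div_le_one hdpos]
      exact_mod_cast (by omega : R ≤ d)
    rw [← hY]
    calc C * ((CX + MP) * Y) * (((s : ℝ) / R) ^ c + ((R : ℝ) / d) ^ c)
        ≤ C * ((CX + MP) * Y) * (1 + 1) := mul_le_mul_of_nonneg_left (add_le_add b1 b2) (by positivity)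
      _ = 2 * C * (CX + MP) * Y := by ring
  · intro b _
    obtain ⟨c1, c2, -⟩ := hps (if b then p.2 else p.2 - 1) _ (by cases b <;> simp) rfl
    exact ⟨rfl, c2, c1, (k1 b d (by omega) (by omega)).le hM1⟩
  · intro _ _
    obtain ⟨-, -, c1, c2, -⟩ := hps p.2 _ (Or.inl rfl) rfl
    exact ⟨rfl, c2, c1, hMajP.le hM2⟩
  · intro b _ _ _ x hx x' hx' h1 h2
    exact (hps (if b then p.2 else p.2 - 1) _ (by cases b <;> simp) rfl).2.2.2.2 x hx x' hx' h1 h2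

end marks

end

end Pool.Agent.SixB.GA
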