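import Pool.Agent.Lib.SixB.S6GPoleF
import Pool.Agent.Lib.SixB.S6GPoleG

/-!
# 6BD block CA: the field `xpG` is a theorem
-/

set_option autoImplicit false

namespace Pool.Agent.SixB

/-- **growth at `e`** -/
theorem xpG_holds : XpG := GG.xpG_of GA.poleC

end Pool.Agent.SixB
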