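import Mathlib

/-!
# SixB, input L: the sequence lemma (contraction with gaps)
-/

set_option autoImplicit false
set_option linter.unusedVariables false

namespace Pool.Agent.SixB

open Finset

/-- choice of the block length -/
theorem seq_block (del eta C₁ : ℝ) (hdel : 0 < del) (heta : 0 < eta) (heta1 : eta < 1)
    (hC₁ : 0 ≤ C₁) :
    ∃ n₁ : ℕ, 1 ≤ n₁ ∧ C₁ * (Real.sqrt eta ^ (n₁ - 1) / (1 - Real.sqrt eta)) ≤ del / 4 := by
  set s := Real.sqrt eta with hs
  have hs0 : 0 < s := Real.sqrt_pos.2 heta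
  have hs1 : s < 1 := by
    rw [hs, Real.sqrt_lt' one_pos]
    simpa using heta1
  have h1s : 0 < 1 - s := by linarith
  obtain ⟨n, hn⟩ := exists_pow_lt_of_lt_one
    (show (0 : ℝ) < del / 4 * (1 - s) / (C₁ + 1) by positivity) hs1
  refine ⟨n + 1, by omega, ?_⟩
  rw [Nat.add_sub_cancel]
  have h2 : C₁ * s ^ n ≤ (C₁ + 1) * (del / 4 * (1 - s) / (C₁ + 1)) := by
    have h3 : C₁ * s ^ n ≤ (C₁ + 1) * s ^ n := by
      have : 0 ≤ s ^ n := by positivity
      linarith
    exact h3.trans (mul_le_mul_of_nonneg_left hn.le (by linarith))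
  have h4 : (C₁ + 1) * (del / 4 * (1 - s) / (C₁ + 1)) = del / 4 * (1 - s) := by
    field_simp
  rw [h4] at h2
  rw [← mul_div_assoc, div_le_iff₀ h1s]
  exact h2

/-- geometric tail -/
theorem geo_tail (x : ℝ) (hx0 : 0 ≤ x) (hx1 : x < 1) (a b : ℕ) :
    ∑ n ∈ Ico a b, x ^ n ≤ x ^ a / (1 - x) := by
  have h1x : 0 < 1 - x := by linarith
  rcases le_total a b with hab | hab
  · rw [Finset.sum_Ico_eq_sum_range]
    have h1 : ∑ k ∈ range (b - a), x ^ (a + k) = x ^ a * ∑ k ∈ range (b - a), x ^ k := by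
      rw [Finset.mul_sum]
      exact Finset.sum_congr rfl fun k _ => pow_add _ _ _
    rw [h1, div_eq_mul_inv]
    refine mul_le_mul_of_nonneg_left ?_ (pow_nonneg hx0 _)
    rw [geom_sum_eq hx1.ne]
    have h2 : (x ^ (b - a) - 1) / (x - 1) = (1 - x ^ (b - a)) / (1 - x) := by
      rw [← neg_div_neg_eq]
      ring
    rw [h2, div_le_iff₀ h1x, inv_mul_cancel₀ h1x.ne']
    have : 0 ≤ x ^ (b - a) := pow_nonneg hx0 _
    linarith
  · rw [Finset.Ico_eq_empty_of_le hab]
    simp only [Finset.sum_empty]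
    positivity

/-- The contraction of oscillations when the chain of good levels may jump. -/
theorem seq_contract (del eta C₁ C₂ C₀ : ℝ) (hdel : 0 < del) (hdel1 : del ≤ 1) (heta : 0 < eta)
    (heta1 : eta < 1) (hC₁ : 0 ≤ C₁) (hC₂ : 0 ≤ C₂) (hC₀ : 0 ≤ C₀) :
    ∃ (n₁ : ℕ) (K th : ℝ), 1 ≤ n₁ ∧ 0 ≤ K ∧ eta < th ∧ th < 1 ∧
      ∀ (m : ℕ) (O : ℕ → ℝ), (∀ j ≤ m, O j ≤ C₀) →
        (∀ j, j + n₁ ≤ m → O j ≤ (1 - del) * O (j + n₁) +
          C₁ * ∑ n ∈ Ico (n₁ + 1) (m - j + 1), eta ^ (n - 1) * O (j + n) + C₂ * eta ^ (m - j)) →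
        ∀ j ≤ m, O j ≤ K * th ^ (m - j) := by
  obtain ⟨n₁, hn₁, hblock⟩ := seq_block del eta C₁ hdel heta heta1 hC₁
  set s := Real.sqrt eta with hs
  have hs0 : 0 < s := Real.sqrt_pos.2 heta
  have hs1 : s < 1 := by
    rw [hs, Real.sqrt_lt' one_pos]
    simpa using heta1
  have hss : s ^ 2 = eta := Real.sq_sqrt heta.le
  have hse : eta < s := by
    rw [← hss]
    nlinarith
  -- the second candidate
  obtain ⟨u, hu0, hu1, hun⟩ : ∃ u : ℝ, 0 < u ∧ u < 1 ∧ (1 - del) ≤ (1 - 3 * del / 4) * u ^ n₁ := by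
    have hcont : Filter.Tendsto (fun u : ℝ => (1 - 3 * del / 4) * u ^ n₁) (nhdsWithin 1 (Set.Iio 1))
        (nhds ((1 - 3 * del / 4) * 1 ^ n₁)) :=
      ((continuous_const.mul (continuous_pow n₁)).tendsto 1).mono_left nhdsWithin_le_nhds
    rw [one_pow, mul_one] at hcont
    have h1 : ∀ᶠ u in nhdsWithin (1 : ℝ) (Set.Iio 1), 1 - del < (1 - 3 * del / 4) * u ^ n₁ :=
      hcont.eventually (lt_mem_nhds (by linarith))
    have h2 : ∀ᶠ u in nhdsWithin (1 : ℝ) (Set.Iio 1), u ∈ Set.Ioo (0 : ℝ) 1 :=
      Ioo_mem_nhdsLT one_pos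
    obtain ⟨u, hu⟩ := (h1.and h2).exists
    exact ⟨u, hu.2.1, hu.2.2, hu.1.le⟩
  set th := max s u with hth
  have hth0 : 0 < th := lt_max_of_lt_left hs0
  have hth1 : th < 1 := max_lt hs1 hu1
  have hsth : s ≤ th := le_max_left _ _
  set K := max (C₀ / th ^ n₁) (2 * C₂ / del) with hK
  have hK0 : 0 ≤ K := le_max_of_le_left (by positivity)
  refine ⟨n₁, K, th, hn₁, hK0, hse.trans_le hsth, hth1, ?_⟩
  intro m O hO hrec
  have main : ∀ i j, j + i = m → O j ≤ K * th ^ i := by
    intro i
    induction i using Nat.strong_induction_on with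
    | _ i ih =>
      intro j hj
      rcases lt_or_ge i n₁ with hi | hi
      · have h1 := hO j (by omega)
        have h2 : C₀ / th ^ n₁ ≤ K := le_max_left _ _
        have h3 : th ^ n₁ ≤ th ^ i := pow_le_pow_of_le_one hth0.le hth1.le hi.le
        calc O j ≤ C₀ := h1
          _ = C₀ / th ^ n₁ * th ^ n₁ := by field_simp
          _ ≤ K * th ^ i := mul_le_mul h2 h3 (by positivity) hK0
      · have h1 := hrec j (by omega)
        have hmj : m - j = i := by omega
        rw [hmj] at h1
        -- the main term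
        have h2 : O (j + n₁) ≤ K * th ^ (i - n₁) := ih (i - n₁) (by omega) (j + n₁) (by omega)
        have h3 : (1 - del) * O (j + n₁) ≤ (1 - 3 * del / 4) * (K * th ^ i) := by
          have h4 : (1 - del) * O (j + n₁) ≤ (1 - del) * (K * th ^ (i - n₁)) :=
            mul_le_mul_of_nonneg_left h2 (by linarith)
          have h5 : (1 - del) * (K * th ^ (i - n₁)) ≤
              (1 - 3 * del / 4) * u ^ n₁ * (K * th ^ (i - n₁)) :=
            mul_le_mul_of_nonneg_right hun (by positivity)
          have h6 : u ^ n₁ * th ^ (i - n₁) ≤ th ^ i := by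
            calc u ^ n₁ * th ^ (i - n₁) ≤ th ^ n₁ * th ^ (i - n₁) :=
                  mul_le_mul_of_nonneg_right (pow_le_pow_left₀ hu0.le (le_max_right _ _) _)
                    (by positivity)
              _ = th ^ i := by rw [← pow_add]; congr 1; omega
          have h7 : (1 - 3 * del / 4) * u ^ n₁ * (K * th ^ (i - n₁)) ≤
              (1 - 3 * del / 4) * (K * th ^ i) := by
            have e : (1 - 3 * del / 4) * u ^ n₁ * (K * th ^ (i - n₁)) =
                ((1 - 3 * del / 4) * K) * (u ^ n₁ * th ^ (i - n₁)) := by ring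
            rw [e]
            have e2 : (1 - 3 * del / 4) * (K * th ^ i) = ((1 - 3 * del / 4) * K) * th ^ i := by ring
            rw [e2]
            exact mul_le_mul_of_nonneg_left h6 (mul_nonneg (by linarith) hK0)
          linarith
        -- the tail
        have h8 : ∑ n ∈ Ico (n₁ + 1) (i + 1), eta ^ (n - 1) * O (j + n) ≤
            K * th ^ i * (s ^ (n₁ - 1) / (1 - s)) := by
          have h9 : ∀ n ∈ Ico (n₁ + 1) (i + 1), eta ^ (n - 1) * O (j + n) ≤
              K * th ^ i * s ^ (n - 2) := by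
            intro n hn
            rw [Finset.mem_Ico] at hn
            have h10 : O (j + n) ≤ K * th ^ (i - n) := ih (i - n) (by omega) (j + n) (by omega)
            have h11 : eta ^ (n - 1) * O (j + n) ≤ eta ^ (n - 1) * (K * th ^ (i - n)) :=
              mul_le_mul_of_nonneg_left h10 (by positivity)
            have h12 : eta ^ (n - 1) ≤ s ^ (n - 2) * th ^ n := by
              calc eta ^ (n - 1) = s ^ (2 * (n - 1)) := by rw [← hss, pow_mul]
                _ = s ^ (n - 2) * s ^ n := by rw [← pow_add]; congr 1; omega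
                _ ≤ s ^ (n - 2) * th ^ n :=
                  mul_le_mul_of_nonneg_left (pow_le_pow_left₀ hs0.le hsth _) (by positivity)
            calc eta ^ (n - 1) * O (j + n) ≤ eta ^ (n - 1) * (K * th ^ (i - n)) := h11
              _ ≤ s ^ (n - 2) * th ^ n * (K * th ^ (i - n)) :=
                mul_le_mul_of_nonneg_right h12 (by positivity)
              _ = K * (th ^ n * th ^ (i - n)) * s ^ (n - 2) := by ring
              _ = K * th ^ i * s ^ (n - 2) := by
                rw [← pow_add]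
                congr 3
                omega
          refine (Finset.sum_le_sum h9).trans ?_
          rw [← Finset.mul_sum]
          refine mul_le_mul_of_nonneg_left ?_ (by positivity)
          have h13 : ∑ n ∈ Ico (n₁ + 1) (i + 1), s ^ (n - 2) =
              ∑ n ∈ Ico (n₁ - 1) (i - 1), s ^ n := by
            rw [Finset.sum_Ico_eq_sum_range, Finset.sum_Ico_eq_sum_range]
            have e : i + 1 - (n₁ + 1) = i - 1 - (n₁ - 1) := by omega
            rw [e]
            refine Finset.sum_congr rfl fun k _ => ?_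
            congr 1
            omega
          rw [h13]
          exact geo_tail s hs0.le hs1 _ _
        have h14 : C₁ * ∑ n ∈ Ico (n₁ + 1) (i + 1), eta ^ (n - 1) * O (j + n) ≤
            del / 4 * (K * th ^ i) := by
          calc _ ≤ C₁ * (K * th ^ i * (s ^ (n₁ - 1) / (1 - s))) :=
                mul_le_mul_of_nonneg_left h8 hC₁
            _ = C₁ * (s ^ (n₁ - 1) / (1 - s)) * (K * th ^ i) := by ring
            _ ≤ _ := mul_le_mul_of_nonneg_right hblock (by positivity)
        -- the last term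
        have h15 : C₂ * eta ^ i ≤ del / 2 * (K * th ^ i) := by
          have h16 : 2 * C₂ / del ≤ K := le_max_right _ _
          have h17 : eta ^ i ≤ th ^ i := pow_le_pow_left₀ heta.le (hse.le.trans hsth) _
          have h18 : C₂ = del / 2 * (2 * C₂ / del) := by field_simp
          calc C₂ * eta ^ i ≤ C₂ * th ^ i := mul_le_mul_of_nonneg_left h17 hC₂
            _ = del / 2 * ((2 * C₂ / del) * th ^ i) := by rw [← mul_assoc, ← h18]
            _ ≤ del / 2 * (K * th ^ i) :=
              mul_le_mul_of_nonneg_left (mul_le_mul_of_nonneg_right h16 (by positivity))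
                (by positivity)
        have h19 : 0 ≤ K * th ^ i := by positivity
        nlinarith
  intro j hj
  exact main (m - j) j (by omega)

end Pool.Agent.SixB
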