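import Pool.Agent.Lib.SixB.S3Chain
import Pool.Agent.Lib.SixB.S6LSeq

/-!
# SixB, input L: decoupling of tilted measures near a mark (abstract form, part 1: estimates)

`LSys`: nested boxes `B j`, good events `G j` of the annulus `B j \ B (j+1)` (no strand crosses it, and a moment condition),
`N j` = number of arcs over the mark in `B j`, `n j` = number of those which visit `B (j+1)`, `p j l` = number of those which
visit `B (j+1)` and avoid `B (l+1)`. The weight `t ^ n j` with `1 ≤ t`.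
-/

set_option autoImplicit false
set_option linter.unusedVariables false

namespace Pool.Agent.SixB

open Finset

section general

variable {Ω ι : Type*} (P : ExpSys Ω ι)

/-- a product of independent factors along one parity class, non uniform bounds -/
theorem par_prod' {B : ℕ → Set ι} (hB : ∀ j, B (j + 1) ⊆ B j) {g : ℕ → Ω → ℝ}
    (hg : ∀ j, P.Dep (B j \ B (j + 2)) (g j)) (hg0 : ∀ j ω, 0 ≤ g j ω) (d : ℕ → ℝ)
    (hd0 : ∀ j, 0 ≤ d j) (hd : ∀ j, P.E (g j) ≤ d j) (s n : ℕ) :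
    P.E (fun ω => ∏ i ∈ Finset.range n, g (2 * i + s) ω) ≤ ∏ i ∈ Finset.range n, d (2 * i + s) ∧
      P.Dep (B 0 \ B (2 * n + s)) (fun ω => ∏ i ∈ Finset.range n, g (2 * i + s) ω) := by
  induction n with
  | zero =>
    simp only [Finset.range_zero, Finset.prod_empty]
    exact ⟨(P.E_const 1).le, ExpSys.Dep.const _ _⟩
  | succ n ih =>
    obtain ⟨ih1, ih2⟩ := ih
    simp only [Finset.prod_range_succ]
    refine ⟨?_, ?_⟩
    · have hdis : Disjoint (B 0 \ B (2 * n + s)) (B (2 * n + s) \ B (2 * n + s + 2)) := by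
        rw [Set.disjoint_left]
        intro x hx hx'
        exact hx.2 hx'.1
      rw [P.E_indep hdis ih2 (hg (2 * n + s))]
      exact mul_le_mul ih1 (hd _) (P.E_nonneg (hg0 _)) (Finset.prod_nonneg fun _ _ => hd0 _)
    · have e : 2 * (n + 1) + s = 2 * n + s + 2 := by ring
      rw [e]
      refine ExpSys.Dep.comp2 (ih2.mono ?_) ((hg (2 * n + s)).mono ?_) (fun x y : ℝ => x * y)
      · exact Set.sdiff_subset_sdiff subset_rfl (box_anti hB (by omega))
      · exact Set.sdiff_subset_sdiff (box_anti hB (Nat.zero_le _)) subset_rfl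

/-- second moment of a product of factors which depend on neighbouring annuli -/
theorem prod_sq0 {B : ℕ → Set ι} (hB : ∀ j, B (j + 1) ⊆ B j) {g : ℕ → Ω → ℝ}
    (hg : ∀ j, P.Dep (B j \ B (j + 2)) (g j)) (hg0 : ∀ j ω, 0 ≤ g j ω) (d : ℕ → ℝ)
    (hd0 : ∀ j, 0 ≤ d j) (hd : ∀ j, P.E (fun ω => g j ω ^ 4) ≤ d j ^ 4) (k : ℕ) :
    P.E (fun ω => (∏ i ∈ Finset.range k, g i ω) ^ 2) ≤ (∏ i ∈ Finset.range k, d i) ^ 2 := by
  have hg4 : ∀ j, P.Dep (B j \ B (j + 2)) (fun ω => g j ω ^ 4) := fun j =>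
    (hg j).comp fun x => x ^ 4
  have h1 : ∀ s n : ℕ, P.E (fun ω => (∏ i ∈ Finset.range n, g (2 * i + s) ω ^ 2) ^ 2) ≤
      (∏ i ∈ Finset.range n, d (2 * i + s)) ^ 4 := by
    intro s n
    have e2 : (fun ω => (∏ i ∈ Finset.range n, g (2 * i + s) ω ^ 2) ^ 2) =
        fun ω => ∏ i ∈ Finset.range n, g (2 * i + s) ω ^ 4 := by
      funext ω
      rw [← Finset.prod_pow]
      refine Finset.prod_congr rfl fun i _ => ?_
      rw [← pow_mul]
    rw [e2, ← Finset.prod_pow]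
    exact (par_prod' P hB (g := fun j ω => g j ω ^ 4) hg4
      (fun j ω => pow_nonneg (hg0 j ω) 4) (fun j => d j ^ 4) (fun j => pow_nonneg (hd0 j) 4) hd
      s n).1
  have h2 : ∀ s n : ℕ,
      Real.sqrt (P.E (fun ω => (∏ i ∈ Finset.range n, g (2 * i + s) ω ^ 2) ^ 2)) ≤
      (∏ i ∈ Finset.range n, d (2 * i + s)) ^ 2 := by
    intro s n
    refine Real.sqrt_le_iff.2 ⟨sq_nonneg _, (h1 s n).trans (le_of_eq ?_)⟩
    rw [← pow_mul]
  have e1 : (fun ω => (∏ i ∈ Finset.range k, g i ω) ^ 2) = fun ω =>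
      (∏ i ∈ Finset.range ((k + 1) / 2), g (2 * i + 0) ω ^ 2) *
        ∏ i ∈ Finset.range (k / 2), g (2 * i + 1) ω ^ 2 := by
    funext ω
    rw [← split_prod (fun i => g i ω ^ 2) k, Finset.prod_pow]
  rw [e1]
  refine (P.cs_sqrt _ _).trans ?_
  refine (mul_le_mul (h2 0 _) (h2 1 _) (Real.sqrt_nonneg _) (sq_nonneg _)).trans (le_of_eq ?_)
  rw [← mul_pow, ← split_prod (fun i => d i) k]

/-- the same for a shifted range -/
theorem prod_sq {B : ℕ → Set ι} (hB : ∀ j, B (j + 1) ⊆ B j) {g : ℕ → Ω → ℝ}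
    (hg : ∀ j, P.Dep (B j \ B (j + 2)) (g j)) (hg0 : ∀ j ω, 0 ≤ g j ω) (d : ℕ → ℝ)
    (hd0 : ∀ j, 0 ≤ d j) (hd : ∀ j, P.E (fun ω => g j ω ^ 4) ≤ d j ^ 4) (s k : ℕ) :
    P.E (fun ω => (∏ i ∈ Finset.range k, g (s + i) ω) ^ 2) ≤
      (∏ i ∈ Finset.range k, d (s + i)) ^ 2 :=
  prod_sq0 P (B := fun i => B (s + i)) (fun j => hB (s + j)) (g := fun i => g (s + i))
    (fun j => hg (s + j)) (fun j ω => hg0 (s + j) ω) (fun i => d (s + i)) (fun j => hd0 (s + j))
    (fun j => hd (s + j)) k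

/-- a product of factors of neighbouring annuli is a function of the big annulus -/
theorem prod_dep {B : ℕ → Set ι} (hB : ∀ j, B (j + 1) ⊆ B j) {g : ℕ → Ω → ℝ}
    (hg : ∀ j, P.Dep (B j \ B (j + 2)) (g j)) (s k : ℕ) :
    P.Dep (B s \ B (s + k + 1)) (fun ω => ∏ i ∈ Finset.range k, g (s + i) ω) := by
  refine ExpSys.Dep.prod _ _ fun i hi => ?_
  rw [Finset.mem_range] at hi
  exact (hg (s + i)).mono (Set.sdiff_subset_sdiff (box_anti hB (by omega))
    (box_anti hB (by omega)))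

/-- Cauchy-Schwarz with a weight -/
theorem cs_weight {h f g : Ω → ℝ} (hh : ∀ ω, 0 ≤ h ω) :
    P.E (fun ω => h ω * (f ω * g ω)) ≤ Real.sqrt (P.E (fun ω => h ω * f ω ^ 2)) *
      Real.sqrt (P.E (fun ω => h ω * g ω ^ 2)) := by
  have h1 := P.cs_sqrt (fun ω => Real.sqrt (h ω) * f ω) (fun ω => Real.sqrt (h ω) * g ω)
  have e1 : (fun ω => Real.sqrt (h ω) * f ω * (Real.sqrt (h ω) * g ω)) =
      fun ω => h ω * (f ω * g ω) := by
    funext ω
    have := Real.mul_self_sqrt (hh ω)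
    calc Real.sqrt (h ω) * f ω * (Real.sqrt (h ω) * g ω)
        = (Real.sqrt (h ω) * Real.sqrt (h ω)) * (f ω * g ω) := by ring
      _ = _ := by rw [this]
  have e2 : ∀ u : Ω → ℝ, (fun ω => (Real.sqrt (h ω) * u ω) ^ 2) = fun ω => h ω * u ω ^ 2 := by
    intro u
    funext ω
    rw [mul_pow, Real.sq_sqrt (hh ω)]
  rw [e1, e2, e2] at h1
  exact h1

/-- CHAIN LEMMA, general form (`1 ≤ t`). -/
theorem chain_gen {B : ℕ → Set ι} (hB : ∀ j, B (j + 1) ⊆ B j) {N M : ℕ → Ω → ℕ}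
    (hN : ∀ j, P.Dep (B j) (N j)) (hM : ∀ j, P.Dep (B j \ B (j + 2)) (M j))
    (hN1 : ∀ j ω, N (j + 1) ω ≤ N j ω) (hN2 : ∀ j ω, N j ω ≤ N (j + 1) ω + M j ω)
    (J : ℕ) (hJ : ∀ j, J ≤ j → ∀ ω, N j ω = 0) (t T : ℝ) (ht : 1 ≤ t) (htT : t ≤ T) (m : ℕ)
    (dz : ℝ) (hdz0 : 0 ≤ dz) (hdz : dz ≤ 1 / 2)
    (hZ : ∀ j, P.E (fun ω => if m < M j ω then T ^ (4 * M j ω) else 0) ≤ dz ^ 4)
    {g : ℕ → Ω → ℝ} (hg : ∀ j, P.Dep (B j \ B (j + 2)) (g j)) (hg0 : ∀ j ω, 0 ≤ g j ω)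
    (d : ℕ → ℝ) (hd0 : ∀ j, 0 ≤ d j) (hd : ∀ j, P.E (fun ω => g j ω ^ 4) ≤ d j ^ 4)
    (j s : ℕ) {h : Ω → ℝ} (hh0 : ∀ ω, 0 ≤ h ω) (hh : P.Dep (B (j + 1))ᶜ h)
    {Y : Ω → ℝ} (hY0 : ∀ ω, 0 ≤ Y ω) (hY : P.Dep (B (j + 2))ᶜ Y) (ka : ℝ) (hka : 0 ≤ ka)
    (hhY : P.E (fun ω => h ω * Y ω ^ 2) ≤ ka ^ 2 * P.E h) :
    P.E (fun ω => h ω * (Y ω * ((∏ i ∈ range s, g (j + 1 + i) ω) * t ^ N (j + s + 1) ω))) ≤
      2 * ka * T ^ m * (∏ i ∈ range s, d (j + 1 + i)) * (P.E h *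
        P.E (fun ω => t ^ N (j + s + 2) ω)) := by
  have hT : 1 ≤ T := ht.trans htT
  have hT0 : (0 : ℝ) ≤ T := by linarith
  have ht0 : (0 : ℝ) ≤ t := by linarith
  have hEh : 0 ≤ P.E h := P.E_nonneg hh0
  set q := j + s + 1 with hq
  set Z : ℕ → Ω → ℝ := fun i ω => if m < M i ω then T ^ M i ω else 0 with hZdef
  have hZ0 : ∀ i ω, 0 ≤ Z i ω := by
    intro i ω
    simp only [hZdef]
    split_ifs
    · exact pow_nonneg hT0 _
    · exact le_rfl
  have hZd : ∀ i, P.Dep (B i \ B (i + 2)) (Z i) := fun i =>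
    (hM i).comp fun n => if m < n then T ^ n else 0
  have hZ4 : ∀ i, P.E (fun ω => Z i ω ^ 4) ≤ dz ^ 4 := by
    intro i
    have e : (fun ω => Z i ω ^ 4) = fun ω => if m < M i ω then T ^ (4 * M i ω) else 0 := by
      funext ω
      simp only [hZdef]
      split_ifs
      · rw [← pow_mul, mul_comm]
      · simp
    rw [e]
    exact hZ i
  -- the combined sequence
  set gg : ℕ → Ω → ℝ := fun i => if i < q then g i else Z i with hgg
  set dd : ℕ → ℝ := fun i => if i < q then d i else dz with hdd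
  have hgg0 : ∀ i ω, 0 ≤ gg i ω := by
    intro i ω
    simp only [hgg]
    split_ifs
    · exact hg0 i ω
    · exact hZ0 i ω
  have hggd : ∀ i, P.Dep (B i \ B (i + 2)) (gg i) := by
    intro i
    simp only [hgg]
    split_ifs
    · exact hg i
    · exact hZd i
  have hdd0 : ∀ i, 0 ≤ dd i := by
    intro i
    simp only [hdd]
    split_ifs
    · exact hd0 i
    · exact hdz0
  have hgg4 : ∀ i, P.E (fun ω => gg i ω ^ 4) ≤ dd i ^ 4 := by
    intro i
    by_cases hi : i < q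
    · simp only [hgg, hdd, if_pos hi]
      exact hd i
    · simp only [hgg, hdd, if_neg hi]
      exact hZ4 i
  set D := ∏ i ∈ range s, d (j + 1 + i) with hD
  have hD0 : 0 ≤ D := Finset.prod_nonneg fun _ _ => hd0 _
  -- products
  have hprod : ∀ k ω, (∏ i ∈ range (s + k), gg (j + 1 + i) ω) =
      (∏ i ∈ range s, g (j + 1 + i) ω) * ∏ i ∈ range k, Z (q + i) ω := by
    intro k ω
    rw [Finset.prod_range_add]
    congr 1
    · refine Finset.prod_congr rfl fun i hi => ?_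
      rw [Finset.mem_range] at hi
      simp only [hgg]
      rw [if_pos (by omega)]
    · refine Finset.prod_congr rfl fun i _ => ?_
      have e : j + 1 + (s + i) = q + i := by omega
      rw [e]
      simp only [hgg]
      rw [if_neg (by omega)]
  have hprodd : ∀ k, (∏ i ∈ range (s + k), dd (j + 1 + i)) = D * dz ^ k := by
    intro k
    rw [Finset.prod_range_add]
    congr 1
    · refine Finset.prod_congr rfl fun i hi => ?_
      rw [Finset.mem_range] at hi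
      simp only [hdd]
      rw [if_pos (by omega)]
    · rw [Finset.prod_congr rfl (g := fun _ => dz) (fun i _ => by
        simp only [hdd]
        rw [if_neg (by omega)]), Finset.prod_const, Finset.card_range]
  -- the pointwise expansion
  have hpt : ∀ ω, t ^ N q ω ≤ ∑ k ∈ range (J + 1), T ^ m * (t ^ N (q + k + 1) ω *
      ∏ i ∈ range k, Z (q + i) ω) := by
    intro ω
    have h1 := chain_pt m t T ht0 hT htT (fun i => N (q + i)) (fun i => M (q + i))
      (fun i ω => hN1 (q + i) ω) (fun i ω => hN2 (q + i) ω) J ω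
    have e1 : ∀ k, chG m T (fun i => M (q + i)) k ω = ∏ i ∈ range k, Z (q + i) ω := by
      intro k
      rfl
    simp only [e1, Nat.add_zero] at h1
    refine h1.trans ?_
    rw [Finset.sum_range_succ]
    refine add_le_add (le_of_eq (Finset.sum_congr rfl fun k _ => rfl)) ?_
    rw [hJ (q + J) (by omega) ω, hJ (q + J + 1) (by omega) ω]
    have h4 : (1 : ℝ) ≤ T ^ m := one_le_pow₀ hT
    have h5 : 0 ≤ ∏ i ∈ range J, Z (q + i) ω := Finset.prod_nonneg fun i _ => hZ0 _ ω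
    simp only [pow_zero, one_mul]
    exact le_mul_of_one_le_left h5 h4
  set F : ℕ → ℝ := fun k => P.E (fun ω => t ^ N k ω) with hF
  have hF0 : ∀ k, 0 ≤ F k := fun k => P.E_nonneg fun ω => pow_nonneg ht0 _
  have hFm : ∀ k i, F (k + i) ≤ F k := by
    intro k i
    induction i with
    | zero => exact le_rfl
    | succ i ih => exact (F_step_one P hN1 t ht (k + i)).trans ih
  -- one term
  have hterm : ∀ k, P.E (fun ω => h ω * (Y ω * ((∏ i ∈ range s, g (j + 1 + i) ω) *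
      (T ^ m * (t ^ N (q + k + 1) ω * ∏ i ∈ range k, Z (q + i) ω))))) ≤
      T ^ m * (F (q + 1) * (ka * P.E h * (D * dz ^ k))) := by
    intro k
    set R : Ω → ℝ := fun ω => ∏ i ∈ range (s + k), gg (j + 1 + i) ω with hR
    have hR0 : ∀ ω, 0 ≤ R ω := fun ω => Finset.prod_nonneg fun i _ => hgg0 _ ω
    have hRd : P.Dep (B (j + 1) \ B (j + 1 + (s + k) + 1)) R := prod_dep P hB hggd (j + 1) (s + k)
    have e1 : (fun ω => h ω * (Y ω * ((∏ i ∈ range s, g (j + 1 + i) ω) *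
        (T ^ m * (t ^ N (q + k + 1) ω * ∏ i ∈ range k, Z (q + i) ω))))) =
        fun ω => T ^ m * (t ^ N (q + k + 1) ω * (h ω * (Y ω * R ω))) := by
      funext ω
      simp only [hR]
      rw [hprod k ω]
      ring
    rw [e1, P.smul]
    refine mul_le_mul_of_nonneg_left ?_ (pow_nonneg hT0 _)
    have hdis : Disjoint (B (q + k + 1)) (B (q + k + 1))ᶜ := disjoint_compl_right
    have hdep : P.Dep (B (q + k + 1))ᶜ (fun ω => h ω * (Y ω * R ω)) := by
      refine (hh.mono ?_).comp2 ((hY.mono ?_).comp2 (hRd.mono ?_) fun x y : ℝ => x * y)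
        fun x y : ℝ => x * y
      · exact Set.compl_subset_compl.2 (box_anti hB (by omega))
      · exact Set.compl_subset_compl.2 (box_anti hB (by omega))
      · intro x hx hx'
        refine hx.2 (box_anti hB ?_ hx')
        omega
    rw [P.E_indep hdis ((hN (q + k + 1)).comp fun n => t ^ n) hdep]
    have h1 : P.E (fun ω => h ω * (Y ω * R ω)) ≤ ka * P.E h * (D * dz ^ k) := by
      refine (cs_weight P hh0).trans ?_
      have h2 : Real.sqrt (P.E (fun ω => h ω * Y ω ^ 2)) ≤ ka * Real.sqrt (P.E h) := by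
        refine (Real.sqrt_le_sqrt hhY).trans (le_of_eq ?_)
        rw [Real.sqrt_mul (sq_nonneg _), Real.sqrt_sq hka]
      have h3 : Real.sqrt (P.E (fun ω => h ω * R ω ^ 2)) ≤ Real.sqrt (P.E h) * (D * dz ^ k) := by
        have hd1 : Disjoint ((B (j + 1))ᶜ) (B (j + 1)) := disjoint_compl_left
        rw [P.E_indep hd1 hh ((hRd.mono fun x hx => hx.1).comp fun x => x ^ 2)]
        rw [Real.sqrt_mul hEh]
        refine mul_le_mul_of_nonneg_left ?_ (Real.sqrt_nonneg _)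
        have h4 := prod_sq P hB hggd hgg0 dd hdd0 hgg4 (j + 1) (s + k)
        rw [hprodd k] at h4
        exact Real.sqrt_le_iff.2 ⟨mul_nonneg hD0 (pow_nonneg hdz0 _), h4⟩
      calc _ ≤ (ka * Real.sqrt (P.E h)) * (Real.sqrt (P.E h) * (D * dz ^ k)) :=
            mul_le_mul h2 h3 (Real.sqrt_nonneg _) (mul_nonneg hka (Real.sqrt_nonneg _))
        _ = ka * (Real.sqrt (P.E h) * Real.sqrt (P.E h)) * (D * dz ^ k) := by ring
        _ = _ := by rw [Real.mul_self_sqrt hEh]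
    have h5 : F (q + k + 1) ≤ F (q + 1) := by
      have := hFm (q + 1) k
      have e : q + 1 + k = q + k + 1 := by ring
      rwa [e] at this
    have h6 : 0 ≤ P.E (fun ω => h ω * (Y ω * R ω)) := P.E_nonneg fun ω =>
      mul_nonneg (hh0 ω) (mul_nonneg (hY0 ω) (hR0 ω))
    exact mul_le_mul h5 h1 h6 (hF0 _)
  -- sum
  have hsum : P.E (fun ω => h ω * (Y ω * ((∏ i ∈ range s, g (j + 1 + i) ω) * t ^ N q ω))) ≤
      ∑ k ∈ range (J + 1), T ^ m * (F (q + 1) * (ka * P.E h * (D * dz ^ k))) := by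
    refine le_trans ?_ (Finset.sum_le_sum fun k _ => hterm k)
    rw [← P.E_sum]
    refine P.mono _ _ fun ω => ?_
    have h1 := hpt ω
    have h2 : 0 ≤ h ω * (Y ω * ∏ i ∈ range s, g (j + 1 + i) ω) :=
      mul_nonneg (hh0 ω) (mul_nonneg (hY0 ω) (Finset.prod_nonneg fun i _ => hg0 _ ω))
    calc h ω * (Y ω * ((∏ i ∈ range s, g (j + 1 + i) ω) * t ^ N q ω))
        = h ω * (Y ω * ∏ i ∈ range s, g (j + 1 + i) ω) * t ^ N q ω := by ring
      _ ≤ h ω * (Y ω * ∏ i ∈ range s, g (j + 1 + i) ω) * ∑ k ∈ range (J + 1),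
          T ^ m * (t ^ N (q + k + 1) ω * ∏ i ∈ range k, Z (q + i) ω) :=
        mul_le_mul_of_nonneg_left h1 h2
      _ = _ := by
        rw [Finset.mul_sum]
        refine Finset.sum_congr rfl fun k _ => ?_
        ring
  refine hsum.trans ?_
  have hgeo : ∑ k ∈ range (J + 1), dz ^ k ≤ 2 := by
    have h1 : ∑ k ∈ range (J + 1), dz ^ k ≤ ∑ k ∈ range (J + 1), (1 / 2 : ℝ) ^ k :=
      Finset.sum_le_sum fun k _ => pow_le_pow_left₀ hdz0 hdz k
    refine h1.trans ?_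
    rw [geom_sum_eq (show (1 / 2 : ℝ) ≠ 1 by norm_num) (J + 1)]
    have h3 : (0 : ℝ) ≤ (1 / 2 : ℝ) ^ (J + 1) := by positivity
    have e : ((1 / 2 : ℝ) ^ (J + 1) - 1) / (1 / 2 - 1) = 2 * (1 - (1 / 2 : ℝ) ^ (J + 1)) := by ring
    rw [e]
    linarith
  have e2 : ∑ k ∈ range (J + 1), T ^ m * (F (q + 1) * (ka * P.E h * (D * dz ^ k))) =
      (T ^ m * (F (q + 1) * (ka * P.E h * D))) * ∑ k ∈ range (J + 1), dz ^ k := by
    rw [Finset.mul_sum]
    refine Finset.sum_congr rfl fun k _ => ?_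
    ring
  rw [e2]
  have h7 : 0 ≤ T ^ m * (F (q + 1) * (ka * P.E h * D)) := by
    have := hF0 (q + 1)
    positivity
  refine (mul_le_mul_of_nonneg_left hgeo h7).trans (le_of_eq ?_)
  have e3 : F (q + 1) = P.E (fun ω => t ^ N (j + s + 2) ω) := by
    have : q + 1 = j + s + 2 := by omega
    rw [this]
  rw [e3]
  ring

end general

end Pool.Agent.SixB
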