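import Pool.Agent.Lib.SixB.S6LPlan
import Pool.Agent.Lib.SixB.S6LPerc
import Pool.Agent.Lib.SixB.S4Plane

/-!
# 6BD, block CA-L: the counts of arcs over a flat mark, directed and undirected

`w i` = vertices of the wall of `F` near the mark `w 0`. `PA w R`, `PB w R`: the unit edges of the wall before and
after the mark.
* `con_iff`: an arc of a boundary side contained in `A` and its undirected component in `A`;
* `LN_eq_NA`: `LN (ovr w R) ZQ F Bx j = NA F (PA w R) (PB w R) (w 0) r` if `Bx j = F ∩ BR (w 0) r`;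
* `LY_le_NY`, `NY_le_UB`.
-/

set_option autoImplicit false

namespace Pool.Agent.SixB.LI

open Pool.Agent.Perc Pool.Agent.Perc.Q Pool.Agent.PercD Pool.Agent.PercN Pool.Agent.Perc6 Relation Tilt
open Finset

noncomputable section

variable {F A : Finset (ℤ × ℤ)} {ω : Cfg} {w : ℤ → ℤ × ℤ} {R r r₀ : ℤ}
  {a b : (ℤ × ℤ) × (ℤ × ℤ)}

/-- unit edges of the wall before the mark -/
def PA (w : ℤ → ℤ × ℤ) (R : ℤ) (e : UE) : Prop := ∃ i, -R ≤ i ∧ i < 0 ∧ e = und (w i, w (i + 1))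

/-- unit edges of the wall after the mark -/
def PB (w : ℤ → ℤ × ℤ) (R : ℤ) (e : UE) : Prop := ∃ i, 0 ≤ i ∧ i < R ∧ e = und (w i, w (i + 1))

/-- the wall near the mark -/
structure WallS (F : Finset (ℤ × ℤ)) (w : ℤ → ℤ × ℤ) (R : ℤ) : Prop where
  side : ∀ i, -R ≤ i → i < R → (w i, w (i + 1)) ∈ bS ZQ F
  inj : ∀ i i', -R ≤ i → i < R → -R ≤ i' → i' < R → (w i, w (i + 1)) = (w i', w (i' + 1)) → i = i'

theorem und_inj_bS (ha : a ∈ bS ZQ F) (hb : b ∈ bS ZQ F) (h : und a = und b) : a = b := by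
  rcases und_inj (mem_bS.mp ha).1 (mem_bS.mp hb).1 h with h1 | h1
  · exact h1
  · exact absurd ((mem_bS_ah.mp ha).1) (h1 ▸ (mem_bS_ah.mp hb).2)

theorem ahead_iff {f : ℤ × ℤ} (hf : IsSide f (und a)) (ha : a ∈ dE ZQ F) :
    Ah ZQ {f} a ∨ Ah ZQ {f} a.swap := by
  obtain ⟨k, hk⟩ := isSide_iff.mp hf
  rw [← und_sd] at hk
  rcases und_inj ha (sd_mem (Finset.mem_singleton_self f) k) hk with h | h
  · exact Or.inl ⟨f, Finset.mem_singleton_self _, k, h⟩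
  · exact Or.inr ⟨f, Finset.mem_singleton_self _, k, by rw [h, Prod.swap_swap]⟩

/-- the sides of the faces of `A` -/
theorem ah_of_side {f : ℤ × ℤ} (hAF : A ⊆ F) (hf : f ∈ A) (hs : IsSide f (und a)) (ha : a ∈ bS ZQ F) :
    Ah ZQ A a := by
  rcases ahead_iff hs (mem_bS.mp ha).1 with h | h
  · exact h.mono (Finset.singleton_subset_iff.mpr hf)
  · exact absurd (h.mono (Finset.singleton_subset_iff.mpr (hAF hf))) (mem_bS_ah.mp ha).2

/-- **arcs contained in `A`** -/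
theorem con_iff (hAF : A ⊆ F) (ha : a ∈ bS ZQ F) (hb : b ∈ bS ZQ F) (hab : a ≠ b) :
    und b ∈ MM ω (A : Set (ℤ × ℤ)) (und a) ↔ Con ZQ F A ω a ∧ mate ZQ F ω a = b := by
  constructor
  · intro h
    have haA : a ∈ dE ZQ A := by
      rcases ReflTransGen.cases_head h with h1 | ⟨c, ⟨f, hf, hm⟩, -⟩
      · exact absurd (und_inj_bS ha hb h1) hab
      · have := ah_of_side hAF (by exact_mod_cast hf) hm.left ha
        exact mem_dE_ah.mpr (Or.inl this)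
    obtain ⟨y, hy, h1, h2⟩ := srel_of_MM haA h
    have h3 : SRel ZQ F ω a y := by
      rcases srel_iff.mp h2 with h4 | h4
      · exact srel_iff.mpr (Or.inl (rtg_sub hAF h4))
      · exact srel_iff.mpr (Or.inr (rtg_sub hAF h4))
    have hyF : y ∈ dE ZQ F := by
      obtain ⟨f, hf, k, hk⟩ := mem_dE.mp hy
      exact mem_dE.mpr ⟨f, hAF hf, k, hk⟩
    have h5 : ReflTransGen (Nx ZQ ω (A : Set (ℤ × ℤ))) a y := by
      rcases srel_iff.mp h2 with h4 | h4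
      · exact h4
      · rcases ReflTransGen.cases_tail h4 with h6 | ⟨c, -, h6⟩
        · rw [h6]
        · exact absurd (nx_mono hAF h6) (ini_nx (mem_bS.mp ha).2)
    have h7 : y = b.swap := by
      rcases und_inj hyF (mem_bS.mp hb).1 h1 with rfl | h8
      · exfalso
        rcases ReflTransGen.cases_tail h5 with h6 | ⟨c, -, h6⟩
        · exact hab h6.symm
        · exact ini_nx (mem_bS.mp hb).2 (nx_mono hAF h6)
      · exact h8
    subst h7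
    have h8 : mate ZQ F ω a = b := mate_eq ha hb (rtg_sub hAF h5)
    refine ⟨?_, h8⟩
    unfold Tilt.Con
    rw [h8]
    exact h5
  · rintro ⟨h, rfl⟩
    have h1 : SRel ZQ A ω a (mate ZQ F ω a).swap := srel_iff.mpr (Or.inl h)
    have h2 := MM_of_srel h1
    rwa [und_swap (mem_bS.mp (mate_mem (ω := ω) ha)).1] at h2

/-- the positions of the arcs over the mark which are contained in `A` -/
def IA (F : Finset (ℤ × ℤ)) (w : ℤ → ℤ × ℤ) (R : ℤ) (A : Finset (ℤ × ℤ)) (ω : Cfg) : Finset ℤ :=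
  open Classical in (Ico (-R) 0).filter fun i => Con ZQ F A ω (w i, w (i + 1)) ∧
    ∃ i', 0 ≤ i' ∧ i' < R ∧ mate ZQ F ω (w i, w (i + 1)) = (w i', w (i' + 1))

theorem mem_IA {i : ℤ} : i ∈ IA F w R A ω ↔ (-R ≤ i ∧ i < 0) ∧ Con ZQ F A ω (w i, w (i + 1)) ∧
    ∃ i', 0 ≤ i' ∧ i' < R ∧ mate ZQ F ω (w i, w (i + 1)) = (w i', w (i' + 1)) := by
  classical
  unfold IA
  rw [mem_filter, mem_Ico]

/-- the arc of a position -/
def fA (F : Finset (ℤ × ℤ)) (w : ℤ → ℤ × ℤ) (ω : Cfg) (i : ℤ) : Sym2 ((ℤ × ℤ) × (ℤ × ℤ)) :=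
  s((w i, w (i + 1)), mate ZQ F ω (w i, w (i + 1)))

theorem mem_cIn_iff (hW : WallS F w R) {i : ℤ} (hi : -R ≤ i) (hi0 : i < 0)
    (hm : ∃ i', 0 ≤ i' ∧ i' < R ∧ mate ZQ F ω (w i, w (i + 1)) = (w i', w (i' + 1))) :
    fA F w ω i ∈ cIn (ovr w R) ZQ F A ω ↔ i ∈ IA F w R A ω := by
  have hR : i < R := by
    obtain ⟨i', h1, h2, -⟩ := hm
    omega
  unfold fA
  rw [mk_mem_cIn (hW.side i hi hR), mem_IA]
  constructor
  · rintro ⟨-, h⟩
    exact ⟨⟨hi, hi0⟩, h, hm⟩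
  · rintro ⟨-, h, i', h1, h2, h3⟩
    exact ⟨⟨i, i', hi, hi0, h1, h2, by rw [h3]⟩, h⟩

theorem exists_of_cIn {p : Sym2 ((ℤ × ℤ) × (ℤ × ℤ))}
    (hp : p ∈ cIn (ovr w R) ZQ F A ω) : ∃ i ∈ IA F w R A ω, fA F w ω i = p := by
  obtain ⟨⟨i, i', h1, h2, h3, h4, rfl⟩, a, ha, hc, he⟩ := mem_cIn.mp hp
  rw [Sym2.eq_iff] at he
  have key : Con ZQ F A ω (w i, w (i + 1)) ∧
      mate ZQ F ω (w i, w (i + 1)) = (w i', w (i' + 1)) := by
    rcases he with ⟨rfl, h5⟩ | ⟨rfl, h5⟩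
    · exact ⟨hc, h5⟩
    · have h6 := mate_mate (ω := ω) ha
      rw [h5] at h6
      refine ⟨?_, h6⟩
      rw [← h5]
      exact con_mate1 ha hc
  refine ⟨i, mem_IA.2 ⟨⟨h1, h2⟩, key.1, i', h3, h4, key.2⟩, ?_⟩
  unfold fA
  rw [key.2]

theorem fA_inj (hW : WallS F w R) {B : Finset (ℤ × ℤ)} :
    Set.InjOn (fA F w ω) (IA F w R B ω : Set ℤ) := by
  intro i hi l hl h
  obtain ⟨⟨h1, h2⟩, -, i', h3, h4, h5⟩ := mem_IA.1 (mem_coe.1 hi)
  obtain ⟨⟨k1, k2⟩, -, l', k3, k4, k5⟩ := mem_IA.1 (mem_coe.1 hl)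
  unfold fA at h
  rw [Sym2.eq_iff] at h
  rcases h with ⟨h6, -⟩ | ⟨h6, -⟩
  · exact hW.inj i l h1 (by omega) k1 (by omega) h6
  · rw [k5] at h6
    have := hW.inj i l' h1 (by omega) (by omega) k4 h6
    omega

theorem cIn_eq_image (hW : WallS F w R) :
    cIn (ovr w R) ZQ F A ω = (IA F w R A ω).image (fA F w ω) := by
  classical
  ext p
  rw [mem_image]
  constructor
  · exact exists_of_cIn
  · rintro ⟨i, hi, rfl⟩
    obtain ⟨⟨h1, h2⟩, -, h3⟩ := mem_IA.1 hi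
    exact (mem_cIn_iff hW h1 h2 h3).2 hi

theorem IA_mono {A B : Finset (ℤ × ℤ)} (h : A ⊆ B) : IA F w R A ω ⊆ IA F w R B ω := by
  intro i hi
  obtain ⟨h1, h2, h3⟩ := mem_IA.1 hi
  exact mem_IA.2 ⟨h1, con_mono h h2, h3⟩

/-- the unit edge of a position -/
def gA (w : ℤ → ℤ × ℤ) (i : ℤ) : UE := und (w i, w (i + 1))

theorem gA_inj (hW : WallS F w R) : Set.InjOn (gA w) {i | -R ≤ i ∧ i < R} := by
  intro i hi l hl h
  exact hW.inj i l hi.1 hi.2 hl.1 hl.2 (und_inj_bS (hW.side i hi.1 hi.2) (hW.side l hl.1 hl.2) h)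

theorem PA_not_PB (hW : WallS F w R) (e : UE) : PA w R e → ¬ PB w R e := by
  rintro ⟨i, h1, h2, rfl⟩ ⟨i', h3, h4, h5⟩
  have := gA_inj hW (x₁ := i) (x₂ := i') ⟨h1, by omega⟩ ⟨by omega, h4⟩ h5
  omega

/-- arcs over the mark in `A`, undirected -/
theorem MM_iff_IA (hW : WallS F w R) (hA : A ⊆ F) {i : ℤ} (hi : -R ≤ i) (hi0 : i < 0) :
    (∃ e ∈ MM ω (A : Set (ℤ × ℤ)) (gA w i), PB w R e) ↔ i ∈ IA F w R A ω := by
  constructor
  · rintro ⟨e, he, i', h1, h2, rfl⟩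
    have h3 := (con_iff (ω := ω) hA (hW.side i hi (by omega)) (hW.side i' (by omega) h2) (by
      intro h
      have := hW.inj i i' hi (by omega) (by omega) h2 h
      omega)).1 he
    exact mem_IA.2 ⟨⟨hi, hi0⟩, h3.1, i', h1, h2, h3.2⟩
  · intro h
    obtain ⟨-, h1, i', h2, h3, h4⟩ := mem_IA.1 h
    refine ⟨und (w i', w (i' + 1)), ?_, i', h2, h3, rfl⟩
    exact (con_iff (ω := ω) hA (hW.side i hi (by omega)) (hW.side i' (by omega) h3) (by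
      intro h
      have := hW.inj i i' hi (by omega) (by omega) h3 h
      omega)).2 ⟨h1, h4⟩

private theorem side_ahd (a : UE) (d : Bool) : IsSide (Tips.ahead (a, d)) a := by
  obtain ⟨x, y, b⟩ := a
  cases b <;> cases d <;> simp [Tips.ahead, IsSide, bo, le', to', ri]

private theorem ahd_ne (a : UE) : Tips.ahead (a, true) ≠ Tips.ahead (a, false) := by
  obtain ⟨x, y, b⟩ := a
  cases b <;> simp only [Tips.ahead, ne_eq, Prod.mk.injEq, not_and] <;> intros <;> omega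

theorem bdF_of_bS (hx : a ∈ bS ZQ F) : BdF (F : Set (ℤ × ℤ)) (und a) := by
  obtain ⟨f, hf, k, rfl⟩ := (mem_bS_ah.mp hx).1
  intro d h1 h2
  have key : ∀ g ∈ F, IsSide g (und (sd ZQ f k)) → g = f := by
    intro g hg hs
    obtain ⟨l, hl⟩ := isSide_iff.mp hs
    have h3 : und (sd ZQ f k) = und (sd ZQ g l) := by rw [hl, und_sd]
    rcases und_inj (sd_mem hf k) (sd_mem hg l) h3 with h4 | h4
    · exact ((ZQ.inj (Prod.mk.inj h4).1 (Prod.mk.inj h4).2).1).symm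
    · exact absurd h4 ((mem_bS.mp hx).2 g (by exact_mod_cast hg) l)
  have e1 := key _ (by exact_mod_cast h1) (side_ahd _ d)
  have e2 := key _ (by exact_mod_cast h2) (side_ahd _ (!d))
  have e3 := ahd_ne (und (sd ZQ f k))
  cases d
  · exact e3 (e2.trans e1.symm)
  · exact e3 (e1.trans e2.symm)

theorem bdF_PA (hW : WallS F w R) {e : UE} (h : PA w R e) : BdF (F : Set (ℤ × ℤ)) e := by
  obtain ⟨i, h1, h2, rfl⟩ := h
  exact bdF_of_bS (hW.side i h1 (by omega))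

theorem bdF_PB (hW : WallS F w R) {e : UE} (h : PB w R e) : BdF (F : Set (ℤ × ℤ)) e := by
  obtain ⟨i, h1, h2, rfl⟩ := h
  exact bdF_of_bS (hW.side i (by omega) h2)

theorem IA_pos {i : ℤ} (h : i ∈ IA F w R A ω) : (-R ≤ i ∧ i < 0) ∧ i < R := by
  obtain ⟨h1, -, i', h3, h4, -⟩ := mem_IA.1 h
  exact ⟨h1, by omega⟩

theorem IA_gA_inj (hW : WallS F w R) : Set.InjOn (gA w) (IA F w R A ω : Set ℤ) := by
  intro i hi l hl h
  have h1 := IA_pos (mem_coe.1 hi)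
  have h2 := IA_pos (mem_coe.1 hl)
  exact gA_inj hW ⟨h1.1.1, h1.2⟩ ⟨h2.1.1, h2.2⟩ h

/-- the number of arcs over the mark, undirected -/
theorem card_IA (hW : WallS F w R) {v : ℤ × ℤ} (hA : A = F ∩ BR v r) :
    (IA F w R A ω).card = NA (F : Set (ℤ × ℤ)) (PA w R) (PB w R) v r ω := by
  classical
  have hAF : A ⊆ F := by
    rw [hA]
    exact inter_subset_left
  have hc : (A : Set (ℤ × ℤ)) = (F : Set (ℤ × ℤ)) ∩ (BR v r : Set (ℤ × ℤ)) := by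
    rw [hA, coe_inter]
  unfold NA NS
  rw [← card_image_of_injOn (IA_gA_inj hW)]
  congr 1
  ext e
  rw [mem_image, mem_filter, ← hc]
  constructor
  · rintro ⟨i, hi, rfl⟩
    have h1 := IA_pos hi
    obtain ⟨b, hb, hb'⟩ := (MM_iff_IA hW hAF h1.1.1 h1.1.2).2 hi
    refine ⟨?_, ⟨i, h1.1.1, h1.1.2, rfl⟩, b, hb, hb'⟩
    have hne : gA w i ≠ b := by
      rintro rfl
      exact PA_not_PB hW _ ⟨i, h1.1.1, h1.1.2, rfl⟩ hb'
    obtain ⟨f, hf, hs⟩ := side_of_ne (MM_symm hb) hne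
    rw [hc] at hf
    exact (inE_of_side hf.2 hs).mem_UB
  · rintro ⟨-, ⟨i, h1, h2, rfl⟩, h3⟩
    exact ⟨i, (MM_iff_IA hW hAF h1 h2).1 h3, rfl⟩

/-- **`LN` is `NA`** -/
theorem LN_eq_NA (hW : WallS F w R) {v : ℤ × ℤ} {Bx : ℕ → Finset (ℤ × ℤ)} {j : ℕ}
    (hB : Bx j = F ∩ BR v r) (ω : Cfg) :
    LN (ovr w R) ZQ F Bx j ω = NA (F : Set (ℤ × ℤ)) (PA w R) (PB w R) v r ω := by
  classical
  have hAF : Bx j ⊆ F := by
    rw [hB]
    exact inter_subset_left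
  unfold LN
  rw [cIn_eq_image hW, card_image_of_injOn (fA_inj hW), card_IA hW hB]

/-- **`LY` is at most `NY`** -/
theorem LY_le_NY (hW : WallS F w R) {v : ℤ × ℤ} {Bx : ℕ → Finset (ℤ × ℤ)} {j : ℕ}
    (hB : Bx j = F ∩ BR v r₀) (hB' : Bx (j + 1) = F ∩ BR v r) (ω : Cfg) :
    LY (ovr w R) ZQ F Bx j ω ≤ NY (F : Set (ℤ × ℤ)) (PA w R) (PB w R) v r r₀ ω := by
  classical
  have hAF : Bx j ⊆ F := by
    rw [hB]
    exact inter_subset_left
  have hAF' : Bx (j + 1) ⊆ F := by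
    rw [hB']
    exact inter_subset_left
  have hAF'' : Bx j \ Bx (j + 1) ⊆ F := sdiff_subset.trans hAF
  have hc : (Bx j : Set (ℤ × ℤ)) = (F : Set (ℤ × ℤ)) ∩ (BR v r₀ : Set (ℤ × ℤ)) := by
    rw [hB, coe_inter]
  have hc' : (Bx (j + 1) : Set (ℤ × ℤ)) = (F : Set (ℤ × ℤ)) ∩ (BR v r : Set (ℤ × ℤ)) := by
    rw [hB', coe_inter]
  have hc'' : ((Bx j \ Bx (j + 1) : Finset (ℤ × ℤ)) : Set (ℤ × ℤ)) =
      (F : Set (ℤ × ℤ)) ∩ (An v r r₀ : Set (ℤ × ℤ)) := by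
    ext f
    rw [hB, hB', mem_coe, mem_sdiff, mem_inter, mem_inter, Set.mem_inter_iff, mem_coe, mem_coe,
      mem_An]
    tauto
  set I := (IA F w R (Bx j) ω).filter fun i => i ∉ IA F w R (Bx j \ Bx (j + 1)) ω ∧
    i ∉ IA F w R (Bx (j + 1)) ω with hI
  have h1 : (cIn (ovr w R) ZQ F (Bx j) ω \ cIn (ovr w R) ZQ F (Bx j \ Bx (j + 1)) ω) \
      cIn (ovr w R) ZQ F (Bx (j + 1)) ω ⊆ I.image (fA F w ω) := by
    intro p hp
    rw [mem_sdiff, mem_sdiff] at hp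
    obtain ⟨⟨h2, h3⟩, h4⟩ := hp
    obtain ⟨i, hi, rfl⟩ := exists_of_cIn h2
    obtain ⟨h5, -, h6⟩ := mem_IA.1 hi
    refine mem_image_of_mem _ (mem_filter.2 ⟨hi, fun h => h3 ?_, fun h => h4 ?_⟩)
    · exact (mem_cIn_iff hW h5.1 h5.2 h6).2 h
    · exact (mem_cIn_iff hW h5.1 h5.2 h6).2 h
  unfold LY
  refine (card_le_card h1).trans (card_image_le.trans ?_)
  have hinj : Set.InjOn (gA w) (I : Set ℤ) := (IA_gA_inj hW).mono fun i hi =>
    mem_coe.2 (mem_filter.1 (mem_coe.1 hi)).1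
  rw [← card_image_of_injOn hinj]
  unfold NY
  refine card_le_card fun e he => ?_
  obtain ⟨i, hi, rfl⟩ := mem_image.1 he
  obtain ⟨h2, h3, h4⟩ := mem_filter.1 hi
  have h5 := IA_pos h2
  have h6 := (MM_iff_IA hW hAF h5.1.1 h5.1.2).2 h2
  rw [mem_filter, ← hc, ← hc', ← hc'']
  refine ⟨?_, ⟨i, h5.1.1, h5.1.2, rfl⟩, h6, fun h => h4 ((MM_iff_IA hW hAF' h5.1.1 h5.1.2).1 h),
    fun h => h3 ((MM_iff_IA hW hAF'' h5.1.1 h5.1.2).1 h)⟩
  obtain ⟨b, hb, hb'⟩ := h6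
  have hne : gA w i ≠ b := by
    rintro rfl
    exact PA_not_PB hW _ ⟨i, h5.1.1, h5.1.2, rfl⟩ hb'
  obtain ⟨f, hf, hs⟩ := side_of_ne (MM_symm hb) hne
  rw [hc] at hf
  exact (inE_of_side hf.2 hs).mem_UB

end

end Pool.Agent.SixB.LI

namespace Pool.Agent.SixB

open Finset Pool.Agent.Perc Pool.Agent.PercD Pool.Agent.PercN

variable {ω : Cfg} {v : ℤ × ℤ} {r r₀ : ℤ} {F : Set (ℤ × ℤ)} {PA PB : UE → Prop}

/-- each arc counted by `NY` has a unit edge in the box `r` -/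
theorem NY_le_UB (hA : ∀ a, PA a → BdF F a) (hB : ∀ a, PB a → BdF F a) (hAB : ∀ a, PA a → ¬ PB a)
    (ω : Cfg) : NY F PA PB v r r₀ ω ≤ (UB v r).card := by
  classical
  set F₀ := F ∩ (BR v r₀ : Set (ℤ × ℤ)) with hF₀
  have hF₀F : F₀ ⊆ F := Set.inter_subset_left
  set T := (UB v r₀).filter fun a => PA a ∧ (∃ b ∈ MM ω F₀ a, PB b) ∧
    (¬ ∃ b ∈ MM ω (F ∩ (BR v r : Set (ℤ × ℤ))) a, PB b) ∧
    ¬ ∃ b ∈ MM ω (F ∩ (An v r r₀ : Set (ℤ × ℤ))) a, PB b with hT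
  have hTcard : NY F PA PB v r r₀ ω = T.card := rfl
  have hin : ∀ a ∈ T, ∃ e, e ∈ MM ω F₀ a ∧ InE v r e := by
    intro a ha
    rw [hT, mem_filter] at ha
    obtain ⟨h0, h1, ⟨b, h3, h4⟩, -, h6⟩ := ha
    rcases PercS5.first_exit' (F := F ∩ (An v r r₀ : Set (ℤ × ℤ))) h3 with h5 |
      ⟨c, h5, f, hf, hf', hs⟩
    · exact absurd ⟨b, h5, h4⟩ h6
    · refine ⟨c, MM_mono ?_ h5, ?_⟩
      · rintro g ⟨hg, hg'⟩
        rw [mem_coe, mem_An] at hg'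
        exact ⟨hg, mem_coe.2 hg'.1⟩
      · refine inE_of_side ?_ hs
        by_contra hc
        apply hf'
        refine ⟨hf.1, ?_⟩
        rw [mem_coe, mem_An]
        exact ⟨mem_coe.1 hf.2, fun h => hc (mem_coe.2 h)⟩
  have hdiff : Diff ω F₀ T := by
    refine diff_over (PA := PA) (PB := PB) (fun a ha => bdF_sub_c hF₀F (hA a ha))
      (fun a ha => bdF_sub_c hF₀F (hB a ha)) hAB fun a ha => ?_
    rw [hT, mem_filter] at ha
    exact ⟨ha.2.1, ha.2.2.1⟩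
  choose! e he he' using hin
  rw [hTcard]
  refine card_le_card_of_injOn e (fun a ha => (he' a ha).mem_UB) fun a ha a' ha' h => ?_
  refine hdiff a ha a' ha' ?_
  have h1 := he a ha
  rw [h] at h1
  exact h1.trans (MM_symm (he a' ha'))

end Pool.Agent.SixB
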