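import Pool.Agent.Lib.SixB.S6LAbs

/-!
# SixB, input L: decoupling near a mark, abstract form, part 2: good levels

`LSys P`: the data of one mark; `LSys.Good`: quantitative hypotheses; `Lev k h`: `h` is a nonnegative function of the
faces off `B (k+1)` which vanishes off `G k`. Main estimates: `tail_le` (the probability that many consecutive levels are bad),
`good_ge` (every level is good with positive probability), `minor` (minorisation).
-/

set_option autoImplicit false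
set_option linter.unusedVariables false

namespace Pool.Agent.SixB

open Finset

/-- data near one mark -/
structure LSys {Ω ι : Type*} (P : ExpSys Ω ι) where
  /-- boxes -/
  B : ℕ → Set ι
  /-- good events of the annuli -/
  G : ℕ → Set Ω
  /-- arcs over the mark in `B j` -/
  N : ℕ → Ω → ℕ
  /-- bound for the arcs in `B j` which are not in `B (j + 1)` -/
  M : ℕ → Ω → ℕ
  /-- arcs in `B j` which visit `B (j + 1)` -/
  n : ℕ → Ω → ℕ
  /-- arcs in `B j` which visit `B (j + 1)` and avoid `B (l + 1)` -/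
  p : ℕ → ℕ → Ω → ℕ
  /-- factor of a bad level -/
  X : ℕ → Ω → ℝ
  J : ℕ
  hB : ∀ j, B (j + 1) ⊆ B j
  hG : ∀ j, P.Dep (B j \ B (j + 1)) (fun ω => ω ∈ G j)
  hN : ∀ j, P.Dep (B j) (N j)
  hM : ∀ j, P.Dep (B j \ B (j + 2)) (M j)
  hn : ∀ j, P.Dep (B j) (n j)
  hX : ∀ j, P.Dep (B j \ B (j + 2)) (X j)
  hp : ∀ j l, j < l → P.Dep (B j \ B (l + 1)) (p j l)
  hN1 : ∀ j ω, N (j + 1) ω ≤ N j ω
  hN2 : ∀ j ω, N j ω ≤ N (j + 1) ω + M j ω
  hn1 : ∀ j ω, N (j + 1) ω ≤ n j ω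
  hn2 : ∀ j ω, n j ω ≤ N j ω
  hs : ∀ j l ω, j < l → ω ∈ G l → n j ω = p j l ω + n l ω
  hX0 : ∀ j ω, 0 ≤ X j ω
  hJ : ∀ j, J ≤ j → ∀ ω, N j ω = 0

open Classical in
/-- indicator -/
noncomputable def gi {Ω : Type*} (A : Set Ω) (ω : Ω) : ℝ := if ω ∈ A then 1 else 0

section gi

variable {Ω : Type*} {A : Set Ω} {ω : Ω}

theorem gi_nonneg : 0 ≤ gi A ω := by
  unfold gi
  split_ifs <;> norm_num

theorem gi_le_one : gi A ω ≤ 1 := by
  unfold gi
  split_ifs <;> norm_num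

theorem gi_mem (h : ω ∈ A) : gi A ω = 1 := if_pos h

theorem gi_notMem (h : ω ∉ A) : gi A ω = 0 := if_neg h

end gi

namespace LSys

variable {Ω ι : Type*} {P : ExpSys Ω ι} (S : LSys P)

/-- quantitative hypotheses -/
structure Good (t T : ℝ) (m : ℕ) (dz eta ka CM : ℝ) : Prop where
  ht : 1 ≤ t
  htT : t ≤ T
  dz0 : 0 ≤ dz
  dz1 : dz ≤ 1 / 2
  hZ : ∀ j, P.E (fun ω => if m < S.M j ω then T ^ (4 * S.M j ω) else 0) ≤ dz ^ 4
  eta0 : 0 < eta
  eta1 : eta < 1
  hX1 : ∀ j ω, ω ∉ S.G j → t ^ S.N j ω ≤ S.X j ω * t ^ S.N (j + 1) ω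
  hX4 : ∀ j, P.E (fun ω => S.X j ω ^ 4) ≤ eta ^ 4
  ka1 : 1 ≤ ka
  hK : ∀ (j : ℕ) (h : Ω → ℝ), (∀ ω, 0 ≤ h ω) → P.Dep (S.B (j + 1))ᶜ h →
    (∀ ω, ω ∉ S.G j → h ω = 0) → P.E (fun ω => h ω * (T ^ S.M j ω) ^ 2) ≤ ka ^ 2 * P.E h
  CM1 : 1 ≤ CM
  hM8 : ∀ j, P.E (fun ω => (T ^ S.M j ω) ^ 8) ≤ CM ^ 8
  hPG : ∀ j, 1 / 2 ≤ P.E (gi (S.G j))

/-- product of the indicators of the bad levels `j + 1, ..., j + s` -/
noncomputable def bd (j s : ℕ) (ω : Ω) : ℝ := ∏ i ∈ range s, (1 - gi (S.G (j + 1 + i)) ω)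

/-- functions of the faces off `B (k + 1)`, supported in `G k` -/
structure Lev (k : ℕ) (h : Ω → ℝ) : Prop where
  nn : ∀ ω, 0 ≤ h ω
  dep : P.Dep (S.B (k + 1))ᶜ h
  zero : ∀ ω, ω ∉ S.G k → h ω = 0

/-- weight of the level `k` -/
noncomputable def V (t : ℝ) (k : ℕ) (ω : Ω) : ℝ := t ^ S.n k ω

/-- `F j = E t ^ N j` -/
noncomputable def F (t : ℝ) (j : ℕ) : ℝ := P.E (fun ω => t ^ S.N j ω)

variable {S} {t T : ℝ} {m : ℕ} {dz eta ka CM : ℝ}

theorem bd_nonneg (j s : ℕ) (ω : Ω) : 0 ≤ S.bd j s ω :=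
  Finset.prod_nonneg fun i _ => by linarith [gi_le_one (A := S.G (j + 1 + i)) (ω := ω)]

theorem bd_le_one (j s : ℕ) (ω : Ω) : S.bd j s ω ≤ 1 := by
  unfold bd
  refine Finset.prod_le_one (fun i _ => ?_) fun i _ => ?_
  · linarith [gi_le_one (A := S.G (j + 1 + i)) (ω := ω)]
  · linarith [gi_nonneg (A := S.G (j + 1 + i)) (ω := ω)]

theorem bd_zero (j : ℕ) (ω : Ω) : S.bd j 0 ω = 1 := by simp [bd]

theorem bd_succ (j s : ℕ) (ω : Ω) :
    S.bd j (s + 1) ω = S.bd j s ω * (1 - gi (S.G (j + 1 + s)) ω) := by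
  unfold bd
  rw [Finset.prod_range_succ]

theorem bd_succ' (j s : ℕ) (ω : Ω) :
    S.bd j (s + 1) ω = (1 - gi (S.G (j + 1)) ω) * S.bd (j + 1) s ω := by
  unfold bd
  rw [Finset.prod_range_succ', mul_comm]
  congr 1
  refine Finset.prod_congr rfl fun i _ => ?_
  rw [show j + 1 + (i + 1) = j + 1 + 1 + i by ring]

theorem dep_gi (j : ℕ) : P.Dep (S.B j \ S.B (j + 1)) (gi (S.G j)) := by
  classical
  intro ω ω' h
  have h1 : (ω ∈ S.G j) = (ω' ∈ S.G j) := S.hG j ω ω' h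
  unfold gi
  by_cases hω : ω ∈ S.G j
  · rw [if_pos hω, if_pos (h1 ▸ hω)]
  · rw [if_neg hω, if_neg (h1 ▸ hω)]

theorem dep_bd (j s : ℕ) : P.Dep (S.B (j + 1) \ S.B (j + s + 1)) (S.bd j s) := by
  unfold bd
  refine ExpSys.Dep.prod _ _ fun i hi => ?_
  rw [Finset.mem_range] at hi
  have h1 : P.Dep (S.B (j + 1) \ S.B (j + s + 1)) (gi (S.G (j + 1 + i))) :=
    (dep_gi (j + 1 + i)).mono (Set.sdiff_subset_sdiff (box_anti S.hB (by omega))
      (box_anti S.hB (by omega)))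
  exact h1.comp fun x => 1 - x

/-- telescoping: first good level after `j` -/
theorem first_good (j r : ℕ) (ω : Ω) :
    ∑ i ∈ range r, S.bd j i ω * gi (S.G (j + 1 + i)) ω + S.bd j r ω = 1 := by
  induction r with
  | zero => simp [bd_zero]
  | succ r ih =>
    rw [Finset.sum_range_succ, bd_succ]
    linarith

theorem one_le_pow_t (ht : 1 ≤ t) (k : ℕ) : 1 ≤ t ^ k := one_le_pow₀ ht

theorem V_nonneg (ht : 1 ≤ t) (k : ℕ) (ω : Ω) : 0 ≤ S.V t k ω :=
  pow_nonneg (by linarith) _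

theorem one_le_V (ht : 1 ≤ t) (k : ℕ) (ω : Ω) : 1 ≤ S.V t k ω := one_le_pow₀ ht

theorem dep_V (k : ℕ) : P.Dep (S.B k) (S.V t k) := (S.hn k).comp fun n => t ^ n

theorem F_nonneg (ht : 1 ≤ t) (j : ℕ) : 0 ≤ S.F t j := P.E_nonneg fun ω =>
  pow_nonneg (by linarith) _

theorem one_le_F (ht : 1 ≤ t) (j : ℕ) : 1 ≤ S.F t j := by
  have h := P.mono (fun _ => (1 : ℝ)) (fun ω => t ^ S.N j ω) fun ω => one_le_pow₀ ht
  rwa [P.one] at h

theorem F_anti (ht : 1 ≤ t) (j i : ℕ) : S.F t (j + i) ≤ S.F t j := by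
  induction i with
  | zero => exact le_rfl
  | succ i ih => exact (F_step_one P S.hN1 t ht (j + i)).trans ih

/-- lower bound for the mass of a function of the outer faces -/
theorem mass_ge (ht : 1 ≤ t) {k : ℕ} {h : Ω → ℝ} (hh0 : ∀ ω, 0 ≤ h ω)
    (hh : P.Dep (S.B (k + 1))ᶜ h) :
    P.E h * S.F t (k + 1) ≤ P.E (fun ω => h ω * S.V t k ω) := by
  unfold F
  rw [← P.E_indep disjoint_compl_left hh ((S.hN (k + 1)).comp fun n => t ^ n)]
  refine P.mono _ _ fun ω => mul_le_mul_of_nonneg_left ?_ (hh0 ω)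
  exact pow_le_pow_right₀ ht (S.hn1 k ω)

/-- the weight and the bad levels, pointwise -/
theorem bad_pt (hG : S.Good t T m dz eta ka CM) (j s : ℕ) (ω : Ω) :
    t ^ S.N (j + 1) ω * S.bd j s ω ≤
      (∏ i ∈ range s, S.X (j + 1 + i) ω) * t ^ S.N (j + s + 1) ω := by
  have ht0 : (0 : ℝ) ≤ t := by linarith [hG.ht]
  induction s with
  | zero => simp [bd_zero]
  | succ s ih =>
    rw [bd_succ, Finset.prod_range_succ]
    by_cases h : ω ∈ S.G (j + 1 + s)
    · rw [gi_mem h, sub_self, mul_zero, mul_zero]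
      exact mul_nonneg (mul_nonneg (Finset.prod_nonneg fun i _ => S.hX0 _ ω) (S.hX0 _ ω))
        (pow_nonneg ht0 _)
    · rw [gi_notMem h, sub_zero, mul_one]
      refine ih.trans ?_
      have e : j + s + 1 = j + 1 + s := by ring
      have h1 := hG.hX1 (j + 1 + s) ω h
      rw [e]
      have e2 : j + (s + 1) + 1 = j + 1 + s + 1 := by ring
      rw [e2, mul_assoc]
      exact mul_le_mul_of_nonneg_left h1 (Finset.prod_nonneg fun i _ => S.hX0 _ ω)

theorem V_le (hG : S.Good t T m dz eta ka CM) (j : ℕ) (ω : Ω) :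
    S.V t j ω ≤ T ^ S.M j ω * t ^ S.N (j + 1) ω := by
  have ht := hG.ht
  have ht0 : (0 : ℝ) ≤ t := by linarith
  calc S.V t j ω ≤ t ^ (S.N (j + 1) ω + S.M j ω) :=
        pow_le_pow_right₀ ht ((S.hn2 j ω).trans (S.hN2 j ω))
    _ = t ^ S.M j ω * t ^ S.N (j + 1) ω := by rw [pow_add, mul_comm]
    _ ≤ _ := mul_le_mul_of_nonneg_right (pow_le_pow_left₀ ht0 hG.htT _) (pow_nonneg ht0 _)

theorem moment4 (hG : S.Good t T m dz eta ka CM) (j : ℕ) :
    P.E (fun ω => (T ^ S.M j ω) ^ 4) ≤ CM ^ 4 := by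
  have h := P.cs (fun ω => (T ^ S.M j ω) ^ 4) (fun _ => 1)
  simp only [mul_one, one_pow, P.one] at h
  have e : (fun ω => ((T ^ S.M j ω) ^ 4) ^ 2) = fun ω => (T ^ S.M j ω) ^ 8 := by
    funext ω
    rw [← pow_mul]
  rw [e] at h
  have h1 := h.trans (hG.hM8 j)
  have e2 : CM ^ 8 = (CM ^ 4) ^ 2 := by ring
  rw [e2] at h1
  exact le_of_sq_le_sq' h1 (by
    have := hG.CM1
    positivity)
where
  le_of_sq_le_sq' {a b : ℝ} (h : a ^ 2 ≤ b ^ 2) (hb : 0 ≤ b) : a ≤ b := by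
    nlinarith [sq_nonneg (a - b), sq_nonneg (a + b), abs_le_of_sq_le_sq' h hb]
  abs_le_of_sq_le_sq' {a b : ℝ} (h : a ^ 2 ≤ b ^ 2) (hb : 0 ≤ b) : -b ≤ a ∧ a ≤ b := by
    exact abs_le.1 (abs_le_of_sq_le_sq h hb)

/-- the constant of the chain lemma -/
noncomputable def cA (T : ℝ) (m : ℕ) (ka : ℝ) : ℝ := 2 * ka * T ^ m

theorem cA_ge (hG : S.Good t T m dz eta ka CM) : 1 ≤ cA T m ka := by
  unfold cA
  have h1 : (1 : ℝ) ≤ T ^ m := one_le_pow₀ (hG.ht.trans hG.htT)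
  have h2 := hG.ka1
  nlinarith

/-- base estimate: consecutive bad levels after a good one -/
theorem base_bad (hG : S.Good t T m dz eta ka CM) {j : ℕ} (s : ℕ) {h : Ω → ℝ} (hh : S.Lev j h) :
    P.E (fun ω => h ω * S.V t j ω * S.bd j s ω) ≤
      cA T m ka * eta ^ s * (P.E h * S.F t (j + 1)) := by
  have ht := hG.ht
  have ht0 : (0 : ℝ) ≤ t := by linarith
  have hT0 : (0 : ℝ) ≤ T := ht0.trans hG.htT
  have hc := chain_gen P S.hB S.hN S.hM S.hN1 S.hN2 S.J S.hJ t T ht hG.htT m dz hG.dz0 hG.dz1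
    hG.hZ S.hX S.hX0 (fun _ => eta) (fun _ => hG.eta0.le) hG.hX4 j s hh.nn hh.dep
    (Y := fun ω => T ^ S.M j ω) (fun ω => pow_nonneg hT0 _)
    (((S.hM j).comp fun n => T ^ n).mono fun x hx => hx.2) ka (by linarith [hG.ka1])
    (hG.hK j h hh.nn hh.dep hh.zero)
  refine le_trans (P.mono _ _ fun ω => ?_) (hc.trans ?_)
  · have h1 := V_le hG j ω
    have h2 := bad_pt hG j s ω
    have h3 := bd_nonneg (S := S) j s ω
    have h4 : 0 ≤ T ^ S.M j ω := pow_nonneg hT0 _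
    calc h ω * S.V t j ω * S.bd j s ω = h ω * (S.V t j ω * S.bd j s ω) := by ring
      _ ≤ h ω * (T ^ S.M j ω * t ^ S.N (j + 1) ω * S.bd j s ω) :=
        mul_le_mul_of_nonneg_left (mul_le_mul_of_nonneg_right h1 h3) (hh.nn ω)
      _ = h ω * (T ^ S.M j ω * (t ^ S.N (j + 1) ω * S.bd j s ω)) := by ring
      _ ≤ _ := mul_le_mul_of_nonneg_left (mul_le_mul_of_nonneg_left h2 h4) (hh.nn ω)
  · rw [Finset.prod_const, Finset.card_range]
    have hEh : 0 ≤ P.E h := P.E_nonneg hh.nn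
    have h5 : P.E (fun ω => t ^ S.N (j + s + 2) ω) ≤ S.F t (j + 1) := by
      have := F_anti (S := S) ht (j + 1) (s + 1)
      rw [show j + 1 + (s + 1) = j + s + 2 by ring] at this
      exact this
    have h6 : 0 ≤ 2 * ka * T ^ m * eta ^ s := by
      have := hG.ka1
      have := hG.eta0
      positivity
    exact mul_le_mul_of_nonneg_left (mul_le_mul_of_nonneg_left h5 hEh) h6

/-- an observable at depth `m0` -/
structure Obs (S : LSys P) (m0 : ℕ) (f f0 : Ω → ℝ) : Prop where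
  dep : P.Dep (S.B (m0 + 1)) f
  dep0 : P.Dep (S.B (m0 + 1) \ S.B (m0 + 3)) f0
  le : ∀ ω, |f ω| ≤ f0 ω
  mom : P.E (fun ω => f0 ω ^ 8) ≤ 1

theorem Obs.nn {m0 : ℕ} {f f0 : Ω → ℝ} (h : S.Obs m0 f f0) (ω : Ω) : 0 ≤ f0 ω :=
  (abs_nonneg _).trans (h.le ω)

theorem Obs.neg {m0 : ℕ} {f f0 : Ω → ℝ} (h : S.Obs m0 f f0) : S.Obs m0 (fun ω => - f ω) f0 where
  dep := h.dep.comp fun x => -x
  dep0 := h.dep0
  le := fun ω => by rw [abs_neg]; exact h.le ω
  mom := h.mom

/-- base estimate with the observable -/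
theorem base_obs (hG : S.Good t T m dz eta ka CM) {m0 : ℕ} {f f0 : Ω → ℝ} (hf : S.Obs m0 f f0)
    {j : ℕ} (hj : j ≤ m0) {h : Ω → ℝ} (hh : S.Lev j h) :
    P.E (fun ω => h ω * S.V t j ω * (S.bd j (m0 - j) ω * f0 ω)) ≤
      cA T m ka * CM * eta ^ (m0 - j) * (P.E h * S.F t (j + 1)) := by
  set s := m0 - j with hs
  have ht := hG.ht
  have ht0 : (0 : ℝ) ≤ t := by linarith
  have hT0 : (0 : ℝ) ≤ T := ht0.trans hG.htT
  have hCM0 : 0 ≤ CM := by linarith [hG.CM1]
  set g : ℕ → Ω → ℝ := fun i => if i = m0 + 1 then fun ω => f0 ω * T ^ S.M (m0 + 1) ω else S.X i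
    with hg
  set d : ℕ → ℝ := fun i => if i = m0 + 1 then CM else eta with hd
  have hgd : ∀ i, P.Dep (S.B i \ S.B (i + 2)) (g i) := by
    intro i
    simp only [hg]
    split_ifs with hi
    · subst hi
      exact hf.dep0.comp2 ((S.hM (m0 + 1)).comp fun n => T ^ n) fun x y : ℝ => x * y
    · exact S.hX i
  have hg0 : ∀ i ω, 0 ≤ g i ω := by
    intro i ω
    simp only [hg]
    split_ifs with hi
    · exact mul_nonneg (hf.nn ω) (pow_nonneg hT0 _)
    · exact S.hX0 i ω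
  have hd0 : ∀ i, 0 ≤ d i := by
    intro i
    simp only [hd]
    split_ifs
    · exact hCM0
    · exact hG.eta0.le
  have hd4 : ∀ i, P.E (fun ω => g i ω ^ 4) ≤ d i ^ 4 := by
    intro i
    simp only [hg, hd]
    split_ifs with hi
    · have e : (fun ω => (f0 ω * T ^ S.M (m0 + 1) ω) ^ 4) =
          fun ω => f0 ω ^ 4 * (T ^ S.M (m0 + 1) ω) ^ 4 := by
        funext ω
        rw [mul_pow]
      rw [e]
      refine (P.cs_sqrt _ _).trans ?_
      have e1 : (fun ω => (f0 ω ^ 4) ^ 2) = fun ω => f0 ω ^ 8 := by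
        funext ω
        rw [← pow_mul]
      have e2 : (fun ω => ((T ^ S.M (m0 + 1) ω) ^ 4) ^ 2) = fun ω => (T ^ S.M (m0 + 1) ω) ^ 8 := by
        funext ω
        rw [← pow_mul]
      rw [e1, e2]
      have h1 : Real.sqrt (P.E (fun ω => f0 ω ^ 8)) ≤ 1 := by
        rw [← Real.sqrt_one]
        exact Real.sqrt_le_sqrt hf.mom
      have h2 : Real.sqrt (P.E (fun ω => (T ^ S.M (m0 + 1) ω) ^ 8)) ≤ CM ^ 4 := by
        refine Real.sqrt_le_iff.2 ⟨by positivity, (hG.hM8 (m0 + 1)).trans (le_of_eq ?_)⟩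
        ring
      calc _ ≤ 1 * CM ^ 4 := mul_le_mul h1 h2 (Real.sqrt_nonneg _) zero_le_one
        _ = CM ^ 4 := one_mul _
    · exact hG.hX4 i
  have hc := chain_gen P S.hB S.hN S.hM S.hN1 S.hN2 S.J S.hJ t T ht hG.htT m dz hG.dz0 hG.dz1
    hG.hZ hgd hg0 d hd0 hd4 j (s + 1) hh.nn hh.dep
    (Y := fun ω => T ^ S.M j ω) (fun ω => pow_nonneg hT0 _)
    (((S.hM j).comp fun n => T ^ n).mono fun x hx => hx.2) ka (by linarith [hG.ka1])
    (hG.hK j h hh.nn hh.dep hh.zero)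
  have hprod : ∀ ω, ∏ i ∈ range (s + 1), g (j + 1 + i) ω =
      (∏ i ∈ range s, S.X (j + 1 + i) ω) * (f0 ω * T ^ S.M (m0 + 1) ω) := by
    intro ω
    rw [Finset.prod_range_succ]
    congr 1
    · refine Finset.prod_congr rfl fun i hi => ?_
      rw [Finset.mem_range] at hi
      simp only [hg]
      rw [if_neg (by omega)]
    · simp only [hg]
      rw [if_pos (by omega)]
  have hprodd : ∏ i ∈ range (s + 1), d (j + 1 + i) = eta ^ s * CM := by
    rw [Finset.prod_range_succ]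
    congr 1
    · rw [Finset.prod_congr rfl (g := fun _ => eta) (fun i hi => by
        rw [Finset.mem_range] at hi
        simp only [hd]
        rw [if_neg (by omega)]), Finset.prod_const, Finset.card_range]
    · simp only [hd]
      rw [if_pos (by omega)]
  rw [hprodd] at hc
  refine le_trans (P.mono _ _ fun ω => ?_) (hc.trans ?_)
  · rw [hprod ω]
    have h1 := V_le hG j ω
    have h2 := bad_pt hG j s ω
    have h3 := bd_nonneg (S := S) j s ω
    have h4 : 0 ≤ T ^ S.M j ω := pow_nonneg hT0 _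
    have h5 : t ^ S.N (j + s + 1) ω ≤ T ^ S.M (m0 + 1) ω * t ^ S.N (j + (s + 1) + 1) ω := by
      have e1 : j + s + 1 = m0 + 1 := by omega
      have e2 : j + (s + 1) + 1 = m0 + 1 + 1 := by omega
      rw [e1, e2]
      calc t ^ S.N (m0 + 1) ω ≤ t ^ (S.N (m0 + 1 + 1) ω + S.M (m0 + 1) ω) :=
            pow_le_pow_right₀ ht (S.hN2 (m0 + 1) ω)
        _ = t ^ S.M (m0 + 1) ω * t ^ S.N (m0 + 1 + 1) ω := by rw [pow_add, mul_comm]
        _ ≤ _ := mul_le_mul_of_nonneg_right (pow_le_pow_left₀ ht0 hG.htT _) (pow_nonneg ht0 _)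
    have hX : 0 ≤ ∏ i ∈ range s, S.X (j + 1 + i) ω := Finset.prod_nonneg fun i _ => S.hX0 _ ω
    have h6 : S.V t j ω * S.bd j s ω ≤ T ^ S.M j ω * ((∏ i ∈ range s, S.X (j + 1 + i) ω) *
        (T ^ S.M (m0 + 1) ω * t ^ S.N (j + (s + 1) + 1) ω)) := by
      calc S.V t j ω * S.bd j s ω ≤ T ^ S.M j ω * t ^ S.N (j + 1) ω * S.bd j s ω :=
            mul_le_mul_of_nonneg_right h1 h3
        _ = T ^ S.M j ω * (t ^ S.N (j + 1) ω * S.bd j s ω) := by ring
        _ ≤ T ^ S.M j ω * ((∏ i ∈ range s, S.X (j + 1 + i) ω) * t ^ S.N (j + s + 1) ω) :=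
          mul_le_mul_of_nonneg_left h2 h4
        _ ≤ _ := mul_le_mul_of_nonneg_left (mul_le_mul_of_nonneg_left h5 hX) h4
    have h7 : 0 ≤ h ω * f0 ω := mul_nonneg (hh.nn ω) (hf.nn ω)
    calc h ω * S.V t j ω * (S.bd j s ω * f0 ω) = h ω * f0 ω * (S.V t j ω * S.bd j s ω) := by ring
      _ ≤ h ω * f0 ω * (T ^ S.M j ω * ((∏ i ∈ range s, S.X (j + 1 + i) ω) *
        (T ^ S.M (m0 + 1) ω * t ^ S.N (j + (s + 1) + 1) ω))) := mul_le_mul_of_nonneg_left h6 h7
      _ = _ := by ring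
  · have hEh : 0 ≤ P.E h := P.E_nonneg hh.nn
    have h5 : P.E (fun ω => t ^ S.N (j + (s + 1) + 2) ω) ≤ S.F t (j + 1) := by
      have := F_anti (S := S) ht (j + 1) (s + 2)
      rw [show j + 1 + (s + 2) = j + (s + 1) + 2 by ring] at this
      exact this
    have h6 : 0 ≤ 2 * ka * T ^ m * (eta ^ s * CM) := by
      have := hG.ka1
      have := hG.eta0
      positivity
    refine (mul_le_mul_of_nonneg_left (mul_le_mul_of_nonneg_left h5 hEh) h6).trans (le_of_eq ?_)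
    unfold cA
    ring

/-! ## Pushing a function to a later level -/

/-- the function at the level `l` -/
noncomputable def push (S : LSys P) (t : ℝ) (k l : ℕ) (h e : Ω → ℝ) (ω : Ω) : ℝ :=
  h ω * (t ^ S.p k l ω * (e ω * gi (S.G l) ω))

theorem lev_push (ht : 1 ≤ t) {k l : ℕ} (hkl : k < l) {h e : Ω → ℝ} (hh : S.Lev k h)
    (he0 : ∀ ω, 0 ≤ e ω) (he : P.Dep (S.B (l + 1))ᶜ e) : S.Lev l (S.push t k l h e) where
  nn := fun ω => mul_nonneg (hh.nn ω) (mul_nonneg (pow_nonneg (by linarith) _)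
    (mul_nonneg (he0 ω) gi_nonneg))
  dep := by
    unfold push
    refine (hh.dep.mono ?_).comp2 (((S.hp k l hkl).comp fun n => t ^ n).mono ?_ |>.comp2
      (he.comp2 ((dep_gi l).mono ?_) fun x y : ℝ => x * y) fun x y : ℝ => x * y)
      fun x y : ℝ => x * y
    · exact Set.compl_subset_compl.2 (box_anti S.hB (by omega))
    · exact fun x hx => hx.2
    · exact fun x hx => hx.2
  zero := fun ω hω => by
    unfold push
    rw [gi_notMem hω]
    ring

theorem push_V {k l : ℕ} (hkl : k < l) (h e : Ω → ℝ) (ω : Ω) :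
    S.push t k l h e ω * S.V t l ω = h ω * S.V t k ω * (e ω * gi (S.G l) ω) := by
  unfold push V
  by_cases hω : ω ∈ S.G l
  · rw [S.hs k l ω hkl hω, pow_add]
    ring
  · rw [gi_notMem hω]
    ring

/-- mass of a level function -/
noncomputable def ms (S : LSys P) (t : ℝ) (k : ℕ) (h : Ω → ℝ) : ℝ := P.E (fun ω => h ω * S.V t k ω)

theorem ms_nonneg (ht : 1 ≤ t) {k : ℕ} {h : Ω → ℝ} (hh : S.Lev k h) : 0 ≤ S.ms t k h :=
  P.E_nonneg fun ω => mul_nonneg (hh.nn ω) (V_nonneg ht k ω)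

/-- TAIL, general form. `r` is `1` or the observable. -/
theorem tail_gen (ht : 1 ≤ t) (heta0 : 0 < eta) (heta1 : eta < 1) {r : Ω → ℝ} (hr0 : ∀ ω, 0 ≤ r ω)
    {e : ℕ} {c : ℝ} (hc : 0 ≤ c)
    (hbase : ∀ j ≤ e, ∀ h, S.Lev j h → P.E (fun ω => h ω * S.V t j ω * (S.bd j (e - j) ω * r ω)) ≤
      c * eta ^ (e - j) * S.ms t j h)
    {k j : ℕ} (hkj : k ≤ j) (hje : j ≤ e) {h : Ω → ℝ} (hh : S.Lev k h) :
    P.E (fun ω => h ω * S.V t k ω * (S.bd j (e - j) ω * r ω)) ≤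
      c / (1 - eta) * eta ^ (e - j) * S.ms t k h := by
  have h1e : 0 < 1 - eta := by linarith
  have hms := ms_nonneg ht hh
  have key : ∀ i j, j = k + i → j ≤ e → P.E (fun ω => h ω * S.V t k ω * (S.bd j (e - j) ω * r ω)) ≤
      c * eta ^ (e - j) * (∑ a ∈ range (i + 1), eta ^ a) * S.ms t k h := by
    intro i
    induction i with
    | zero =>
      intro j hj hje
      rw [Nat.add_zero] at hj
      subst hj
      simpa using hbase j hje h hh
    | succ i ih =>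
      intro j hj hje
      obtain ⟨j', rfl⟩ : ∃ j', j = j' + 1 := ⟨j - 1, by omega⟩
      have hkj : k < j' + 1 := by omega
      have e1 : e - j' = (e - (j' + 1)) + 1 := by omega
      -- splitting according to the level j
      have hsplit : P.E (fun ω => h ω * S.V t k ω * (S.bd (j' + 1) (e - (j' + 1)) ω * r ω)) =
          P.E (fun ω => S.push t k (j' + 1) h (fun _ => 1) ω * S.V t (j' + 1) ω *
            (S.bd (j' + 1) (e - (j' + 1)) ω * r ω)) +
          P.E (fun ω => h ω * S.V t k ω * (S.bd j' (e - j') ω * r ω)) := by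
        rw [← P.add]
        congr 1
        funext ω
        rw [push_V hkj, e1, bd_succ']
        ring
      rw [hsplit]
      have hp := lev_push (S := S) ht hkj hh (e := fun _ => 1) (fun _ => zero_le_one)
        (ExpSys.Dep.const _ _)
      have h1 := hbase (j' + 1) hje _ hp
      have h2 : S.ms t (j' + 1) (S.push t k (j' + 1) h (fun _ => 1)) ≤ S.ms t k h := by
        unfold ms
        refine P.mono _ _ fun ω => ?_
        rw [push_V hkj, one_mul]
        exact mul_le_of_le_one_right (mul_nonneg (hh.nn ω) (V_nonneg ht k ω)) gi_le_one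
      have h3 := ih j' (by omega) (by omega)
      have h4 : c * eta ^ (e - (j' + 1)) * S.ms t (j' + 1) (S.push t k (j' + 1) h (fun _ => 1)) ≤
          c * eta ^ (e - (j' + 1)) * S.ms t k h :=
        mul_le_mul_of_nonneg_left h2 (by positivity)
      have h5 : c * eta ^ (e - j') * (∑ a ∈ range (i + 1), eta ^ a) * S.ms t k h =
          c * eta ^ (e - (j' + 1)) * (∑ a ∈ range (i + 1), eta ^ (a + 1)) * S.ms t k h := by
        rw [e1, pow_succ]
        have : ∑ a ∈ range (i + 1), eta ^ (a + 1) = eta * ∑ a ∈ range (i + 1), eta ^ a := by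
          rw [Finset.mul_sum]
          exact Finset.sum_congr rfl fun a _ => by rw [pow_succ, mul_comm]
        rw [this]
        ring
      have h6 : ∑ a ∈ range (i + 1 + 1), eta ^ a = 1 + ∑ a ∈ range (i + 1), eta ^ (a + 1) := by
        rw [Finset.sum_range_succ', pow_zero, add_comm]
      calc _ ≤ c * eta ^ (e - (j' + 1)) * S.ms t k h +
            c * eta ^ (e - (j' + 1)) * (∑ a ∈ range (i + 1), eta ^ (a + 1)) * S.ms t k h := by
            rw [h5] at h3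
            linarith
        _ = _ := by
          rw [h6]
          ring
  refine (key (j - k) j (by omega) hje).trans ?_
  have hgeo : ∑ a ∈ range (j - k + 1), eta ^ a ≤ (1 - eta)⁻¹ := by
    rw [geom_sum_eq heta1.ne]
    have h2 : (eta ^ (j - k + 1) - 1) / (eta - 1) = (1 - eta ^ (j - k + 1)) / (1 - eta) := by
      rw [← neg_div_neg_eq]
      ring
    rw [h2, div_le_iff₀ h1e, inv_mul_cancel₀ h1e.ne']
    have : 0 ≤ eta ^ (j - k + 1) := by positivity
    linarith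
  have h7 : 0 ≤ c * eta ^ (e - j) := by positivity
  calc _ ≤ c * eta ^ (e - j) * (1 - eta)⁻¹ * S.ms t k h :=
        mul_le_mul_of_nonneg_right (mul_le_mul_of_nonneg_left hgeo h7) hms
    _ = _ := by
      rw [div_eq_mul_inv]
      ring

/-- the probability of consecutive bad levels -/
theorem tail_le (hG : S.Good t T m dz eta ka CM) {k j : ℕ} (hkj : k ≤ j) (s : ℕ) {h : Ω → ℝ}
    (hh : S.Lev k h) : P.E (fun ω => h ω * S.V t k ω * S.bd j s ω) ≤
      cA T m ka / (1 - eta) * eta ^ s * S.ms t k h := by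
  have hc := cA_ge hG
  have h1 := tail_gen (S := S) hG.ht hG.eta0 hG.eta1 (r := fun _ => 1) (fun _ => zero_le_one)
    (e := j + s) (c := cA T m ka) (by linarith) (fun i hi h hh => by
      simp only [mul_one]
      refine (base_bad hG (j + s - i) hh).trans ?_
      exact mul_le_mul_of_nonneg_left (mass_ge hG.ht hh.nn hh.dep) (by
        have := hG.eta0
        positivity)) hkj (by omega) hh
  simp only [mul_one, Nat.add_sub_cancel_left] at h1
  exact h1

/-- the observable, together with bad levels -/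
theorem tail_obs (hG : S.Good t T m dz eta ka CM) {m0 : ℕ} {f f0 : Ω → ℝ} (hf : S.Obs m0 f f0)
    {k j : ℕ} (hkj : k ≤ j) (hj : j ≤ m0) {h : Ω → ℝ} (hh : S.Lev k h) :
    P.E (fun ω => h ω * S.V t k ω * (S.bd j (m0 - j) ω * f0 ω)) ≤
      cA T m ka * CM / (1 - eta) * eta ^ (m0 - j) * S.ms t k h := by
  have hc := cA_ge hG
  have hCM := hG.CM1
  refine tail_gen (S := S) hG.ht hG.eta0 hG.eta1 hf.nn (by positivity) (fun i hi h hh => ?_)
    hkj hj hh
  refine (base_obs hG hf hi hh).trans ?_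
  exact mul_le_mul_of_nonneg_left (mass_ge hG.ht hh.nn hh.dep) (by
    have := hG.eta0
    positivity)

end LSys

end Pool.Agent.SixB
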