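import Pool.Agent.Lib.SixB.S6LCon

/-!
# SixB, input L: decoupling near a mark, abstract form, part 3: one step of the contraction

`good_ge`: every level is good with probability bounded below; `minor`: minorisation; `one_step`: upper bound of the mean of an
observable by the reference mean of the next level and the suprema of the later levels.
-/

set_option autoImplicit false
set_option linter.unusedVariables false

namespace Pool.Agent.SixB

open Finset

namespace LSys

variable {Ω ι : Type*} {P : ExpSys Ω ι} {S : LSys P}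
variable {t T : ℝ} {m : ℕ} {dz eta ka CM : ℝ}

/-! ## Goodness of a level -/

/-- the constant of the comparison of scales -/
noncomputable def cB (T : ℝ) (m : ℕ) (CM : ℝ) : ℝ := 2 * T ^ m * CM

theorem F_next (hG : S.Good t T m dz eta ka CM) (j : ℕ) :
    S.F t (j + 1) ≤ cB T m CM * S.F t (j + 2) := by
  have ht := hG.ht
  have ht0 : (0 : ℝ) ≤ t := by linarith
  have hT0 : (0 : ℝ) ≤ T := ht0.trans hG.htT
  have hCM0 : 0 ≤ CM := by linarith [hG.CM1]
  have hc := chain_gen P S.hB S.hN S.hM S.hN1 S.hN2 S.J S.hJ t T ht hG.htT m dz hG.dz0 hG.dz1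
    hG.hZ (g := fun i ω => T ^ S.M i ω) (fun i => (S.hM i).comp fun n => T ^ n)
    (fun i ω => pow_nonneg hT0 _) (fun _ => CM) (fun _ => hCM0) (fun i => moment4 hG i) j 1
    (h := fun _ => 1) (fun _ => zero_le_one) (ExpSys.Dep.const _ _) (Y := fun _ => 1)
    (fun _ => zero_le_one) (ExpSys.Dep.const _ _) 1 zero_le_one (by simp [P.one])
  simp only [one_mul, Finset.prod_range_one, Nat.add_zero, P.one, mul_one] at hc
  refine le_trans (P.mono _ _ fun ω => ?_) (hc.trans ?_)
  · calc t ^ S.N (j + 1) ω ≤ t ^ (S.N (j + 1 + 1) ω + S.M (j + 1) ω) :=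
          pow_le_pow_right₀ ht (S.hN2 (j + 1) ω)
      _ = t ^ S.M (j + 1) ω * t ^ S.N (j + 1 + 1) ω := by rw [pow_add, mul_comm]
      _ ≤ _ := mul_le_mul_of_nonneg_right (pow_le_pow_left₀ ht0 hG.htT _) (pow_nonneg ht0 _)
  · have h1 : P.E (fun ω => t ^ S.N (j + 1 + 2) ω) ≤ S.F t (j + 2) := F_anti (S := S) ht (j + 2) 1
    exact mul_le_mul_of_nonneg_left h1 (by positivity)

theorem cB_ge (hG : S.Good t T m dz eta ka CM) : 1 ≤ cB T m CM := by
  unfold cB
  have h1 : (1 : ℝ) ≤ T ^ m := one_le_pow₀ (hG.ht.trans hG.htT)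
  have h2 := hG.CM1
  nlinarith

theorem lev_gi (j : ℕ) : S.Lev j (gi (S.G j)) where
  nn := fun ω => gi_nonneg
  dep := (dep_gi j).mono fun x hx => hx.2
  zero := fun ω hω => gi_notMem hω

/-- the mass of a good level -/
noncomputable def zet (S : LSys P) (t : ℝ) (j : ℕ) : ℝ := S.ms t j (gi (S.G j))

theorem zet_ge (hG : S.Good t T m dz eta ka CM) (j : ℕ) : 1 / 2 * S.F t (j + 1) ≤ S.zet t j := by
  have h1 := mass_ge (S := S) hG.ht (lev_gi (S := S) j).nn (lev_gi j).dep
  exact (mul_le_mul_of_nonneg_right (hG.hPG j) (F_nonneg hG.ht _)).trans h1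

theorem zet_pos (hG : S.Good t T m dz eta ka CM) (j : ℕ) : 0 < S.zet t j := by
  have h1 := zet_ge hG j
  have h2 := one_le_F (S := S) hG.ht (j + 1)
  linarith

/-- the constant of the minorisation -/
noncomputable def d1 (T : ℝ) (m : ℕ) (ka CM : ℝ) : ℝ := (2 * cA T m ka * cB T m CM)⁻¹

theorem d1_pos (hG : S.Good t T m dz eta ka CM) : 0 < d1 T m ka CM := by
  have h1 := cA_ge hG
  have h2 := cB_ge hG
  unfold d1
  positivity

theorem d1_le (hG : S.Good t T m dz eta ka CM) : d1 T m ka CM ≤ 1 := by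
  have h1 := cA_ge hG
  have h2 := cB_ge hG
  unfold d1
  refine inv_le_one_of_one_le₀ ?_
  nlinarith

/-- MINORISATION -/
theorem minor (hG : S.Good t T m dz eta ka CM) {j : ℕ} {h : Ω → ℝ} (hh : S.Lev j h) :
    d1 T m ka CM * S.ms t j h ≤ P.E h * S.zet t (j + 1) := by
  have hA := cA_ge hG
  have hB := cB_ge hG
  have hEh : 0 ≤ P.E h := P.E_nonneg hh.nn
  have h1 := base_bad hG 0 hh
  simp only [bd_zero, mul_one, pow_zero] at h1
  have h2 := F_next hG j
  have h3 := zet_ge hG (j + 1)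
  have h4 : S.ms t j h ≤ 2 * cA T m ka * cB T m CM * (P.E h * S.zet t (j + 1)) := by
    calc S.ms t j h ≤ cA T m ka * (P.E h * S.F t (j + 1)) := h1
      _ ≤ cA T m ka * (P.E h * (cB T m CM * S.F t (j + 2))) :=
        mul_le_mul_of_nonneg_left (mul_le_mul_of_nonneg_left h2 hEh) (by linarith)
      _ ≤ cA T m ka * (P.E h * (cB T m CM * (2 * S.zet t (j + 1)))) := by
        refine mul_le_mul_of_nonneg_left (mul_le_mul_of_nonneg_left
          (mul_le_mul_of_nonneg_left ?_ (by linarith)) hEh) (by linarith)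
        have : S.F t (j + 1 + 1) = S.F t (j + 2) := rfl
        linarith
      _ = _ := by ring
  have h5 : 0 < 2 * cA T m ka * cB T m CM := by positivity
  unfold d1
  rw [inv_mul_le_iff₀ h5]
  exact h4

/-- a level function continued to a later level: same product with the weight, restricted to the good event -/
theorem exists_state (ht : 1 ≤ t) {k i : ℕ} (hki : k ≤ i) {h : Ω → ℝ} (hh : S.Lev k h) :
    ∃ g, S.Lev i g ∧ (∀ ω, g ω * S.V t i ω = h ω * S.V t k ω * gi (S.G i) ω) ∧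
      ∀ j, i < j → ∀ ω, g ω * (gi (S.G i) ω * gi (S.G j) ω) ≤
        S.push t k j h (fun _ => 1) ω := by
  rcases hki.eq_or_lt with rfl | hlt
  · refine ⟨h, hh, fun ω => ?_, fun j hj ω => ?_⟩
    · by_cases hω : ω ∈ S.G k
      · rw [gi_mem hω, mul_one]
      · rw [hh.zero ω hω, gi_notMem hω]
        ring
    · unfold push
      rw [one_mul]
      refine mul_le_mul_of_nonneg_left ?_ (hh.nn ω)
      refine mul_le_mul ?_ le_rfl gi_nonneg (pow_nonneg (by linarith) _)
      exact gi_le_one.trans (one_le_pow₀ ht)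
  · refine ⟨S.push t k i h (fun _ => 1), lev_push ht hlt hh (fun _ => zero_le_one)
      (ExpSys.Dep.const _ _), fun ω => by rw [push_V hlt, one_mul], fun j hj ω => ?_⟩
    unfold push
    simp only [one_mul]
    by_cases h1 : ω ∈ S.G i
    · by_cases h2 : ω ∈ S.G j
      · rw [gi_mem h1, gi_mem h2, mul_one, mul_one, mul_one, mul_one]
        refine mul_le_mul_of_nonneg_left (pow_le_pow_right₀ ht ?_) (hh.nn ω)
        have e1 := S.hs k i ω hlt h1
        have e2 := S.hs k j ω (hlt.trans hj) h2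
        have e3 := S.hs i j ω hj h2
        omega
      · rw [gi_notMem h2]
        simp
    · rw [gi_notMem h1]
      simp only [mul_zero, zero_mul]
      exact mul_nonneg (hh.nn ω) (mul_nonneg (pow_nonneg (by linarith) _) gi_nonneg)

/-- from a good level to the next good level -/
theorem step_good (hG : S.Good t T m dz eta ka CM) {i : ℕ} {h : Ω → ℝ} (hh : S.Lev i h) :
    d1 T m ka CM * S.ms t i h ≤ P.E (fun ω => h ω * S.V t i ω * gi (S.G (i + 1)) ω) := by
  refine (minor hG hh).trans ?_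
  unfold zet ms
  rw [← P.E_indep disjoint_compl_left hh.dep (((dep_gi (i + 1)).mono fun x hx => hx.1).comp2
    (dep_V (i + 1)) fun x y : ℝ => x * y)]
  refine P.mono _ _ fun ω => ?_
  by_cases h1 : ω ∈ S.G (i + 1)
  · rw [gi_mem h1, one_mul, mul_one]
    refine mul_le_mul_of_nonneg_left (pow_le_pow_right₀ hG.ht ?_) (hh.nn ω)
    have := S.hs i (i + 1) ω (Nat.lt_succ_self i) h1
    omega
  · rw [gi_notMem h1]
    simp

theorem good_step (hG : S.Good t T m dz eta ka CM) {k i : ℕ} (hki : k ≤ i) {h : Ω → ℝ}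
    (hh : S.Lev k h) : d1 T m ka CM * P.E (fun ω => h ω * S.V t k ω * gi (S.G i) ω) ≤
      P.E (fun ω => h ω * S.V t k ω * gi (S.G (i + 1)) ω) := by
  obtain ⟨g, hg, hgV, -⟩ := exists_state hG.ht hki hh
  have h1 := step_good hG hg
  have e1 : S.ms t i g = P.E (fun ω => h ω * S.V t k ω * gi (S.G i) ω) := by
    unfold ms
    congr 1
    funext ω
    exact hgV ω
  rw [e1] at h1
  refine h1.trans (P.mono _ _ fun ω => ?_)
  rw [hgV ω]
  have h2 : 0 ≤ h ω * S.V t k ω := mul_nonneg (hh.nn ω) (V_nonneg hG.ht k ω)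
  exact mul_le_mul_of_nonneg_right (mul_le_of_le_one_right h2 gi_le_one) gi_nonneg

theorem good_iter (hG : S.Good t T m dz eta ka CM) {k i : ℕ} (hki : k ≤ i) (a : ℕ) {h : Ω → ℝ}
    (hh : S.Lev k h) : d1 T m ka CM ^ a * P.E (fun ω => h ω * S.V t k ω * gi (S.G i) ω) ≤
      P.E (fun ω => h ω * S.V t k ω * gi (S.G (i + a)) ω) := by
  induction a with
  | zero => simp
  | succ a ih =>
    have h1 := good_step hG (show k ≤ i + a by omega) hh
    calc _ = d1 T m ka CM * (d1 T m ka CM ^ a *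
          P.E (fun ω => h ω * S.V t k ω * gi (S.G i) ω)) := by ring
      _ ≤ d1 T m ka CM * P.E (fun ω => h ω * S.V t k ω * gi (S.G (i + a)) ω) :=
        mul_le_mul_of_nonneg_left ih (d1_pos hG).le
      _ ≤ _ := h1

/-- every level is good with positive probability -/
theorem good_ge (hG : S.Good t T m dz eta ka CM) {n0 : ℕ} (hn0 : 1 ≤ n0)
    (hn : cA T m ka / (1 - eta) * eta ^ n0 ≤ 1 / 2) {k j : ℕ} (hkj : k ≤ j) {h : Ω → ℝ}
    (hh : S.Lev k h) : d1 T m ka CM ^ n0 / (2 * n0) * S.ms t k h ≤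
      P.E (fun ω => h ω * S.V t k ω * gi (S.G j) ω) := by
  have hd := d1_pos hG
  have hd1 := d1_le hG
  have hms := ms_nonneg hG.ht hh
  have hn0' : (1 : ℝ) ≤ n0 := by exact_mod_cast hn0
  have hq0 : ∀ i, 0 ≤ P.E (fun ω => h ω * S.V t k ω * gi (S.G i) ω) := fun i =>
    P.E_nonneg fun ω => mul_nonneg (mul_nonneg (hh.nn ω) (V_nonneg hG.ht k ω)) gi_nonneg
  rcases Nat.lt_or_ge (k + n0) j with hlt | hge
  · -- a window of n0 levels
    have h1 := tail_le hG (show k ≤ j - n0 by omega) n0 hh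
    have h2 : P.E (fun ω => h ω * S.V t k ω * S.bd (j - n0) n0 ω) ≤ 1 / 2 * S.ms t k h :=
      h1.trans (mul_le_mul_of_nonneg_right hn hms)
    have h3 : S.ms t k h ≤ P.E (fun ω => h ω * S.V t k ω * S.bd (j - n0) n0 ω) +
        ∑ i ∈ range n0, P.E (fun ω => h ω * S.V t k ω * gi (S.G (j - n0 + 1 + i)) ω) := by
      rw [← P.E_sum, ← P.add]
      refine P.mono _ _ fun ω => ?_
      have h4 := first_good (S := S) (j - n0) n0 ω
      have h5 : ∑ i ∈ range n0, S.bd (j - n0) i ω * gi (S.G (j - n0 + 1 + i)) ω ≤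
          ∑ i ∈ range n0, gi (S.G (j - n0 + 1 + i)) ω :=
        Finset.sum_le_sum fun i _ => mul_le_of_le_one_left gi_nonneg (bd_le_one _ _ _)
      have h6 : 0 ≤ h ω * S.V t k ω := mul_nonneg (hh.nn ω) (V_nonneg hG.ht k ω)
      rw [← Finset.mul_sum, ← mul_add]
      exact le_mul_of_one_le_right h6 (by linarith)
    have h7 : ∀ i ∈ range n0, P.E (fun ω => h ω * S.V t k ω * gi (S.G (j - n0 + 1 + i)) ω) ≤
        (d1 T m ka CM ^ n0)⁻¹ * P.E (fun ω => h ω * S.V t k ω * gi (S.G j) ω) := by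
      intro i hi
      rw [Finset.mem_range] at hi
      have h8 := good_iter hG (show k ≤ j - n0 + 1 + i by omega) (n0 - 1 - i) hh
      rw [show j - n0 + 1 + i + (n0 - 1 - i) = j by omega] at h8
      have h9 : d1 T m ka CM ^ n0 ≤ d1 T m ka CM ^ (n0 - 1 - i) :=
        pow_le_pow_of_le_one hd.le hd1 (by omega)
      have h10 : 0 < d1 T m ka CM ^ n0 := pow_pos hd _
      rw [inv_mul_eq_div, le_div_iff₀ h10, mul_comm]
      exact (mul_le_mul_of_nonneg_right h9 (hq0 _)).trans h8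
    have h11 := Finset.sum_le_sum h7
    rw [Finset.sum_const, Finset.card_range, nsmul_eq_mul] at h11
    have h12 : 1 / 2 * S.ms t k h ≤ n0 * ((d1 T m ka CM ^ n0)⁻¹ *
        P.E (fun ω => h ω * S.V t k ω * gi (S.G j) ω)) := by linarith
    have h10 : 0 < d1 T m ka CM ^ n0 := pow_pos hd _
    have h13 : d1 T m ka CM ^ n0 / (2 * n0) * S.ms t k h =
        d1 T m ka CM ^ n0 / n0 * (1 / 2 * S.ms t k h) := by
      field_simp
    rw [h13]
    refine (mul_le_mul_of_nonneg_left h12 (by positivity)).trans (le_of_eq ?_)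
    field_simp
  · -- few levels
    obtain ⟨a, rfl⟩ : ∃ a, j = k + a := ⟨j - k, by omega⟩
    have h1 := good_iter hG (le_refl k) a hh
    have e1 : P.E (fun ω => h ω * S.V t k ω * gi (S.G k) ω) = S.ms t k h := by
      unfold ms
      congr 1
      funext ω
      by_cases hω : ω ∈ S.G k
      · rw [gi_mem hω, mul_one]
      · rw [hh.zero ω hω]
        ring
    rw [e1] at h1
    refine le_trans (mul_le_mul_of_nonneg_right ?_ hms) h1
    have h2 : d1 T m ka CM ^ n0 ≤ d1 T m ka CM ^ a := pow_le_pow_of_le_one hd.le hd1 (by omega)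
    have h3 : d1 T m ka CM ^ n0 / (2 * n0) ≤ d1 T m ka CM ^ n0 :=
      div_le_self (by positivity) (by linarith)
    exact h3.trans h2

/-! ## One step -/

/-- mass of the first good level after `j` -/
noncomputable def mu (S : LSys P) (t : ℝ) (k j i : ℕ) (h : Ω → ℝ) : ℝ :=
  P.E (fun ω => h ω * S.V t k ω * (S.bd j i ω * gi (S.G (j + 1 + i)) ω))

theorem mu_nonneg (ht : 1 ≤ t) {k : ℕ} {h : Ω → ℝ} (hh : S.Lev k h) (j i : ℕ) :
    0 ≤ S.mu t k j i h := P.E_nonneg fun ω =>
  mul_nonneg (mul_nonneg (hh.nn ω) (V_nonneg ht k ω)) (mul_nonneg (bd_nonneg _ _ _) gi_nonneg)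

theorem mu_le (hG : S.Good t T m dz eta ka CM) {k j : ℕ} (hkj : k ≤ j) (i : ℕ) {h : Ω → ℝ}
    (hh : S.Lev k h) : S.mu t k j i h ≤ cA T m ka / (1 - eta) * eta ^ i * S.ms t k h := by
  refine le_trans (P.mono _ _ fun ω => ?_) (tail_le hG hkj i hh)
  exact mul_le_mul_of_nonneg_left (mul_le_of_le_one_right (bd_nonneg _ _ _) gi_le_one)
    (mul_nonneg (hh.nn ω) (V_nonneg hG.ht k ω))

/-- decomposition according to the first good level -/
theorem decomp {k : ℕ} (j r : ℕ) (h f : Ω → ℝ) : P.E (fun ω => h ω * S.V t k ω * f ω) =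
    ∑ i ∈ range r, P.E (fun ω => h ω * S.V t k ω * (S.bd j i ω * gi (S.G (j + 1 + i)) ω) * f ω) +
      P.E (fun ω => h ω * S.V t k ω * S.bd j r ω * f ω) := by
  rw [← P.E_sum, ← P.add]
  congr 1
  funext ω
  have h4 := first_good (S := S) j r ω
  calc h ω * S.V t k ω * f ω = h ω * S.V t k ω * f ω *
        (∑ i ∈ range r, S.bd j i ω * gi (S.G (j + 1 + i)) ω + S.bd j r ω) := by
        rw [h4, mul_one]
    _ = _ := by
      rw [mul_add, Finset.mul_sum]
      congr 1
      · refine Finset.sum_congr rfl fun i _ => ?_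
        ring
      · ring

/-- the mean of the observable for the reference state of the level `j` -/
noncomputable def yb (S : LSys P) (t : ℝ) (j : ℕ) (f : Ω → ℝ) : ℝ :=
  P.E (fun ω => gi (S.G j) ω * S.V t j ω * f ω) / S.zet t j

/-- the constants -/
noncomputable def cT (T : ℝ) (m : ℕ) (ka eta : ℝ) : ℝ := cA T m ka / (1 - eta)

noncomputable def cO (T : ℝ) (m : ℕ) (ka CM eta : ℝ) : ℝ := cA T m ka * CM / (1 - eta)

noncomputable def dl (T : ℝ) (m : ℕ) (ka CM : ℝ) (n0 : ℕ) : ℝ :=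
  d1 T m ka CM * (d1 T m ka CM ^ n0 / (2 * n0))

theorem lev_mul {k l : ℕ} (hkl : k < l) {h : Ω → ℝ} (hh : S.Lev k h) {e : Ω → ℝ}
    (he0 : ∀ ω, 0 ≤ e ω) (he : P.Dep (S.B (l + 1))ᶜ e) :
    S.Lev l (fun ω => h ω * (e ω * gi (S.G l) ω)) where
  nn := fun ω => mul_nonneg (hh.nn ω) (mul_nonneg (he0 ω) gi_nonneg)
  dep := (hh.dep.mono (Set.compl_subset_compl.2 (box_anti S.hB (by omega)))).comp2
    (he.comp2 ((dep_gi l).mono fun x hx => hx.2) fun x y : ℝ => x * y) fun x y : ℝ => x * y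
  zero := fun ω hω => by rw [gi_notMem hω]; ring

/-- ONE STEP of the contraction, upper bound -/
theorem one_step (hG : S.Good t T m dz eta ka CM) {n0 : ℕ} (hn0 : 1 ≤ n0)
    (hn : cA T m ka / (1 - eta) * eta ^ n0 ≤ 1 / 2) {m0 : ℕ} {f f0 : Ω → ℝ}
    (hf : S.Obs m0 f f0) {k j : ℕ} (hkj : k ≤ j) (hj : j < m0) {vv : ℕ → ℝ}
    (hvv : ∀ l, j < l → l ≤ m0 → ∀ g, S.Lev l g →
      P.E (fun ω => g ω * S.V t l ω * f ω) ≤ vv l * S.ms t l g) {h : Ω → ℝ} (hh : S.Lev k h) :
    dl T m ka CM n0 * S.ms t k h ≤ S.mu t k j 0 h ∧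
    P.E (fun ω => h ω * S.V t k ω * f ω) ≤
      dl T m ka CM n0 * S.ms t k h * S.yb t (j + 1) f +
      (∑ i ∈ range (m0 - j), S.mu t k j i h * vv (j + 1 + i) -
        dl T m ka CM n0 * S.ms t k h * vv (j + 1)) +
      cO T m ka CM eta * eta ^ (m0 - j) * S.ms t k h := by
  have ht := hG.ht
  set r := m0 - j with hr
  set Z := S.ms t k h with hZ
  have hZ0 : 0 ≤ Z := ms_nonneg ht hh
  obtain ⟨g, hg, hgV, hgp⟩ := exists_state ht hkj hh
  -- the minorising component
  have hcomp : dl T m ka CM n0 * Z ≤ P.E g * S.zet t (j + 1) := by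
    have h1 := good_ge hG hn0 hn hkj hh
    have e1 : S.ms t j g = P.E (fun ω => h ω * S.V t k ω * gi (S.G j) ω) := by
      unfold ms
      congr 1
      funext ω
      exact hgV ω
    rw [← e1] at h1
    calc dl T m ka CM n0 * Z = d1 T m ka CM * (d1 T m ka CM ^ n0 / (2 * n0) * Z) := by
          unfold dl
          ring
      _ ≤ d1 T m ka CM * S.ms t j g := mul_le_mul_of_nonneg_left h1 (d1_pos hG).le
      _ ≤ _ := minor hG hg
  -- the level j + 1
  set q : Ω → ℝ := S.push t k (j + 1) h (fun _ => 1) with hq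
  have hqL : S.Lev (j + 1) q := lev_push ht (by omega) hh (fun _ => zero_le_one)
    (ExpSys.Dep.const _ _)
  set c : Ω → ℝ := fun ω => g ω * gi (S.G (j + 1)) ω with hc
  have hcL : S.Lev (j + 1) c := by
    have := lev_mul (S := S) (Nat.lt_succ_self j) hg (e := fun _ => 1) (fun _ => zero_le_one)
      (ExpSys.Dep.const _ _)
    simpa only [one_mul] using this
  have hcq : ∀ ω, c ω ≤ q ω := by
    intro ω
    have h1 := hgp (j + 1) (Nat.lt_succ_self j) ω
    by_cases hω : ω ∈ S.G j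
    · rw [gi_mem hω, one_mul] at h1
      exact h1
    · have : c ω = 0 := by
        simp only [hc]
        rw [hg.zero ω hω]
        ring
      rw [this]
      exact hqL.nn ω
  have hdL : S.Lev (j + 1) (fun ω => q ω - c ω) := {
    nn := fun ω => sub_nonneg.2 (hcq ω)
    dep := hqL.dep.comp2 hcL.dep fun x y : ℝ => x - y
    zero := fun ω hω => by rw [hqL.zero ω hω, hcL.zero ω hω, sub_self] }
  have hcE : ∀ f : Ω → ℝ, P.Dep (S.B (j + 1)) f → P.E (fun ω => c ω * S.V t (j + 1) ω * f ω) =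
      P.E g * P.E (fun ω => gi (S.G (j + 1)) ω * S.V t (j + 1) ω * f ω) := by
    intro f hfd
    rw [← P.E_indep disjoint_compl_left hg.dep
      ((((dep_gi (j + 1)).mono fun x hx => hx.1).comp2 (dep_V (j + 1)) fun x y : ℝ => x * y).comp2
        hfd fun x y : ℝ => x * y)]
    congr 1
    funext ω
    simp only [hc]
    ring
  have hmsc : S.ms t (j + 1) c = P.E g * S.zet t (j + 1) := by
    have h1 := hcE (fun _ => 1) (ExpSys.Dep.const _ _)
    simp only [mul_one] at h1
    exact h1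
  have hmsq : S.ms t (j + 1) q = S.mu t k j 0 h := by
    unfold ms mu
    congr 1
    funext ω
    rw [hq, push_V (by omega), bd_zero, Nat.add_zero]
  have hmsd : S.ms t (j + 1) (fun ω => q ω - c ω) = S.mu t k j 0 h - P.E g * S.zet t (j + 1) := by
    rw [← hmsq, ← hmsc]
    unfold ms
    rw [← P.E_sub]
    congr 1
    funext ω
    ring
  have hmu0 : P.E g * S.zet t (j + 1) ≤ S.mu t k j 0 h := by
    have := ms_nonneg ht hdL
    rw [hmsd] at this
    linarith
  refine ⟨hcomp.trans hmu0, ?_⟩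
  have hzp := zet_pos hG (j + 1)
  -- the term i = 0
  have h0 : P.E (fun ω => h ω * S.V t k ω * (S.bd j 0 ω * gi (S.G (j + 1 + 0)) ω) * f ω) ≤
      dl T m ka CM n0 * Z * S.yb t (j + 1) f +
        (S.mu t k j 0 h - dl T m ka CM n0 * Z) * vv (j + 1) := by
    have e1 : P.E (fun ω => h ω * S.V t k ω * (S.bd j 0 ω * gi (S.G (j + 1 + 0)) ω) * f ω) =
        P.E (fun ω => c ω * S.V t (j + 1) ω * f ω) +
        P.E (fun ω => (q ω - c ω) * S.V t (j + 1) ω * f ω) := by
      rw [← P.add]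
      congr 1
      funext ω
      have e2 : q ω * S.V t (j + 1) ω = h ω * S.V t k ω * (1 * gi (S.G (j + 1)) ω) :=
        push_V (by omega) _ _ ω
      rw [bd_zero, Nat.add_zero]
      calc _ = q ω * S.V t (j + 1) ω * f ω := by rw [e2]
        _ = _ := by ring
    have e3 : P.E (fun ω => c ω * S.V t (j + 1) ω * f ω) =
        P.E g * S.zet t (j + 1) * S.yb t (j + 1) f := by
      rw [hcE f (hf.dep.mono (box_anti S.hB (by omega)))]
      unfold yb
      field_simp
    have e4 := hvv (j + 1) (by omega) (by omega) _ hdL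
    rw [hmsd] at e4
    have e5 : S.yb t (j + 1) f ≤ vv (j + 1) := by
      have := hvv (j + 1) (by omega) (by omega) _ (lev_gi (S := S) (j + 1))
      unfold yb
      rw [div_le_iff₀ hzp]
      exact this
    rw [e1, e3]
    nlinarith
  -- the other terms
  have hi : ∀ i ∈ range r, i ≠ 0 →
      P.E (fun ω => h ω * S.V t k ω * (S.bd j i ω * gi (S.G (j + 1 + i)) ω) * f ω) ≤
      S.mu t k j i h * vv (j + 1 + i) := by
    intro i hi h0
    rw [Finset.mem_range] at hi
    have hpL := lev_push (S := S) ht (show k < j + 1 + i by omega) hh (e := S.bd j i)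
      (fun ω => bd_nonneg _ _ ω) ((dep_bd j i).mono fun x hx hx' => hx.2 (box_anti S.hB (by omega) hx'))
    have h1 := hvv (j + 1 + i) (by omega) (by omega) _ hpL
    have e1 : (fun ω => S.push t k (j + 1 + i) h (S.bd j i) ω * S.V t (j + 1 + i) ω * f ω) =
        fun ω => h ω * S.V t k ω * (S.bd j i ω * gi (S.G (j + 1 + i)) ω) * f ω := by
      funext ω
      rw [push_V (by omega)]
    have e2 : S.ms t (j + 1 + i) (S.push t k (j + 1 + i) h (S.bd j i)) = S.mu t k j i h := by
      unfold ms mu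
      congr 1
      funext ω
      rw [push_V (by omega)]
    rw [e1, e2, mul_comm (vv _)] at h1
    exact h1
  -- the rest
  have hrest : P.E (fun ω => h ω * S.V t k ω * S.bd j r ω * f ω) ≤
      cO T m ka CM eta * eta ^ r * Z := by
    refine le_trans (P.mono _ _ fun ω => ?_) (tail_obs hG hf hkj hj.le hh)
    have h1 : 0 ≤ h ω * S.V t k ω := mul_nonneg (hh.nn ω) (V_nonneg ht k ω)
    rw [mul_assoc]
    exact mul_le_mul_of_nonneg_left (mul_le_mul_of_nonneg_left ((le_abs_self _).trans (hf.le ω))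
      (bd_nonneg _ _ _)) h1
  rw [decomp j r h f]
  have hr1 : 0 < r := by omega
  have hsum : ∑ i ∈ range r,
      P.E (fun ω => h ω * S.V t k ω * (S.bd j i ω * gi (S.G (j + 1 + i)) ω) * f ω) ≤
      dl T m ka CM n0 * Z * S.yb t (j + 1) f + (∑ i ∈ range r, S.mu t k j i h * vv (j + 1 + i) -
        dl T m ka CM n0 * Z * vv (j + 1)) := by
    obtain ⟨r', hr'⟩ : ∃ r', r = r' + 1 := ⟨r - 1, by omega⟩
    rw [hr', Finset.sum_range_succ', Finset.sum_range_succ']
    have h2 : ∑ i ∈ range r', P.E (fun ω => h ω * S.V t k ω *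
        (S.bd j (i + 1) ω * gi (S.G (j + 1 + (i + 1))) ω) * f ω) ≤
        ∑ i ∈ range r', S.mu t k j (i + 1) h * vv (j + 1 + (i + 1)) :=
      Finset.sum_le_sum fun i hi' => hi (i + 1) (by
        rw [Finset.mem_range] at hi' ⊢
        omega) (by omega)
    have h3 := h0
    rw [Nat.add_zero] at h3 ⊢
    linarith
  linarith

end LSys

end Pool.Agent.SixB
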