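import Pool.Agent.Lib.SixB.S6LMaj

/-!
# SixB, input L: the arcs of the outer box at a level without legs

`LN0_split`: `N 0 = q i + n i` on a level `i` which is not crossed, `q i` = the arcs contained in `Bx 0 \ Bx (i+1)`, a
function of the faces off `Bx (i+1)`. `LData.mj_mk`: the structure `Mj` from its parts.
-/

set_option autoImplicit false
set_option linter.unusedVariables false

namespace Pool.Agent.SixB.Tilt

open Pool.Agent.Perc.Q Relation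

noncomputable section

variable {V Φ : Type} [DecidableEq V] [DecidableEq Φ]
variable {Q : QC V Φ} {F : Finset Φ} {ov : Sym2 (V × V) → Prop} {ω : Φ → Bool}

/-- number of arcs contained in `Bx 0` which avoid `Bx (i + 1)` -/
def Lq (ov : Sym2 (V × V) → Prop) (Q : QC V Φ) (F : Finset Φ) (Bx : ℕ → Finset Φ) (i : ℕ)
    (ω : Φ → Bool) : ℕ := (cIn ov Q F (Bx 0 \ Bx (i + 1)) ω).card

theorem Lq_dep {Bx : ℕ → Finset Φ} (hF : Bx 0 ⊆ F) (i : ℕ) :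
    Dep ((Bx 0 : Set Φ) \ (Bx (i + 1) : Set Φ)) (Lq ov Q F Bx i) := by
  intro ω ω' h
  unfold Lq
  rw [cIn_congr (ω := ω) (ω' := ω') (A := Bx 0 \ Bx (i + 1)) (Finset.sdiff_subset.trans hF)
    fun f hf => h f (by
      rw [Finset.mem_sdiff] at hf
      exact ⟨by exact_mod_cast hf.1, by exact_mod_cast hf.2⟩)]

theorem Lq_dep' {Bx : ℕ → Finset Φ} (hF : Bx 0 ⊆ F) (i : ℕ) :
    Dep ((Bx (i + 1) : Set Φ)ᶜ) (Lq ov Q F Bx i) := (Lq_dep hF i).mono fun x hx => hx.2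

/-- **the arcs of the outer box at a level without legs** -/
theorem LN0_split {Bx : ℕ → Finset Φ} (hB : ∀ j, Bx (j + 1) ⊆ Bx j) (hF : Bx 0 ⊆ F) (i : ℕ)
    (h : NoLeg Q ω F (Bx (i + 1)) (Bx i)) :
    LN ov Q F Bx 0 ω = Lq ov Q F Bx i ω + Ln ov Q F Bx i ω := by
  classical
  have hi0 : Bx i ⊆ Bx 0 := bx_anti hB (Nat.zero_le i)
  have e1 : cIn ov Q F (Bx 0) ω =
      cIn ov Q F (Bx 0 \ Bx (i + 1)) ω ∪ cIn ov Q F (Bx i) ω :=
    cIn_noleg (hB i) hi0 hF h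
  have e2 : cIn ov Q F (Bx i) ω ∩ cIn ov Q F (Bx 0 \ Bx (i + 1)) ω =
      cIn ov Q F (Bx i \ Bx (i + 1)) ω := by
    rw [← cIn_inter (bx_sub hB hF i) (Finset.sdiff_subset.trans hF)]
    congr 1
    ext f
    simp only [Finset.mem_inter, Finset.mem_sdiff]
    constructor
    · rintro ⟨h1, h2, h3⟩
      exact ⟨h1, h3⟩
    · rintro ⟨h1, h3⟩
      exact ⟨h1, hi0 h1, h3⟩
  have e4 : cIn ov Q F (Bx 0) ω = cIn ov Q F (Bx 0 \ Bx (i + 1)) ω ∪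
      (cIn ov Q F (Bx i) ω \ cIn ov Q F (Bx i \ Bx (i + 1)) ω) := by
    ext p
    rw [e1, ← e2]
    simp only [Finset.mem_union, Finset.mem_sdiff, Finset.mem_inter]
    tauto
  unfold LN Lq Ln
  rw [e4, Finset.card_union_of_disjoint]
  rw [Finset.disjoint_left]
  intro p h1 h2
  rw [Finset.mem_sdiff, ← e2, Finset.mem_inter, not_and] at h2
  exact h2.2 h2.1 h1

namespace LData

variable (D : LData Q F ov)

/-- arcs of the outer box off the box `i + 1` -/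
def q (i : ℕ) (ω : Φ → Bool) : ℕ := Lq ov Q F D.Bx i ω

theorem q_dep (i : ℕ) : Dep ((D.Bx (i + 1) : Set Φ)ᶜ) (D.q i) := Lq_dep' D.hF i

theorem N0_split (i : ℕ) (h : NoLeg Q ω F (D.Bx (i + 1)) (D.Bx i)) :
    LN ov Q F D.Bx 0 ω = D.q i ω + Ln ov Q F D.Bx i ω := LN0_split D.hB D.hF i h

theorem N0_split_G {T ka : ℝ} {hT : 1 ≤ T} (i : ℕ) (h : ω ∈ (D.sys T ka hT).G i) :
    (D.sys T ka hT).N 0 ω = D.q i ω + (D.sys T ka hT).n i ω := D.N0_split i (not_not.1 h.1)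

/-- the structure `Mj` does not depend on `T`, `ka` -/
theorem mj_iff {T ka T' ka' : ℝ} (hT : 1 ≤ T) (hT' : 1 ≤ T') {t : ℝ} {H : (Φ → Bool) → ℝ} {kh A : ℝ} :
    (D.sys T ka hT).Mj t H kh A ↔ (D.sys T' ka' hT').Mj t H kh A :=
  ⟨fun h => ⟨h.kh0, h.nn, h.ex⟩, fun h => ⟨h.kh0, h.nn, h.ex⟩⟩

/-- `Mj` from its parts -/
theorem mj_mk {T ka : ℝ} (hT : 1 ≤ T) {t : ℝ} {H h Y : (Φ → Bool) → ℝ} {kh A : ℝ} (hkh : 0 ≤ kh)
    (hH : ∀ ω, 0 ≤ H ω) (h0 : ∀ ω, 0 ≤ h ω) (hd : Dep ((D.Bx 0 : Set Φ)ᶜ) h) (hY0 : ∀ ω, 0 ≤ Y ω)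
    (hYd : Dep ((D.Bx 1 : Set Φ)ᶜ) Y) (hle : ∀ ω, H ω ≤ h ω * (Y ω * t ^ LN ov Q F D.Bx 0 ω))
    (hm : av F (fun ω => h ω * Y ω ^ 2) ≤ kh ^ 2 * av F h)
    (hA : av F h * av F (fun ω => t ^ LN ov Q F D.Bx 0 ω) ≤ A) :
    (D.sys T ka hT).Mj t H kh A where
  kh0 := hkh
  nn := hH
  ex := ⟨h, Y, h0, hd, hY0, hYd, hle, hm, hA⟩

end LData

end

end Pool.Agent.SixB.Tilt
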