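import Pool.Agent.Lib.SixB.S6LInst
import Pool.Agent.Lib.SixB.S6LSpl2
import Pool.Agent.Lib.SixB.CAEnvD

/-!
# 6BD, block CA-L: environments of a contour near a flat mark, part 1

* `NA_cut`: the number of arcs over the mark in the box of radius `r` only needs the walls of length `r`;
* `wall_flat`: the wall sides of the box; `loc_cenv`: the weight of `cenv F g m J` is local (`LData.Loc`) at a flat
  mark `j` with the parameter `tJ (J j)` if the other jumps near `j` vanish;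
* `MkAt`: the majorant of an environment at a mark, independent of `b`; `MkAt.mj`: the structure `Mj`.
-/

set_option autoImplicit false
set_option linter.unusedVariables false

namespace Pool.Agent.SixB.LI

open Pool.Agent.Perc Pool.Agent.Perc.Q Pool.Agent.PercD Pool.Agent.PercN Pool.Agent.Perc6 Relation
  Pool.Agent.SixB.Tilt
open Finset DomMk
open Ht (tJ dJ)

noncomputable section

variable {F : Finset (ℤ × ℤ)} {κ : ZMod 4} {v : ℤ × ℤ} {R r : ℤ} {b r₀ : ℕ} {ω : Cfg}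

/-- the walls of length `r` are enough for the box of radius `r` -/
theorem NA_cut (h : FlatZ F κ v R) (hr : r ≤ R) (ω : Cfg) :
    NA (F : Set (ℤ × ℤ)) (PAz κ v R) (PBz κ v R) v r ω =
      NA (F : Set (ℤ × ℤ)) (PAz κ v r) (PBz κ v r) v r ω := by
  classical
  unfold NA NS
  congr 1
  ext a
  rw [mem_filter, mem_filter]
  refine and_congr_right fun _ => ?_
  constructor
  · rintro ⟨⟨i, h1, h2, rfl⟩, c, hc, i', h3, h4, rfl⟩
    have hne : wE κ v i ≠ wE κ v i' := fun e => by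
      have := wE_inj e
      omega
    obtain ⟨f, hf, hs⟩ := side_of_ne (MM_symm hc) hne
    obtain ⟨f', hf', hs'⟩ := side_of_ne hc hne.symm
    have e1 := side_wE h h1 (by omega) (mem_coe.1 hf.1) hs
    have e2 := side_wE h (by omega) h4 (mem_coe.1 hf'.1) hs'
    have k1 := mem_coe.1 hf.2
    have k2 := mem_coe.1 hf'.2
    rw [e1, cl_mem_BR] at k1
    rw [e2, cl_mem_BR] at k2
    exact ⟨⟨i, by omega, h2, rfl⟩, _, hc, i', h3, by omega, rfl⟩
  · rintro ⟨⟨i, h1, h2, rfl⟩, c, hc, i', h3, h4, rfl⟩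
    exact ⟨⟨i, by omega, h2, rfl⟩, _, hc, i', h3, by omega, rfl⟩

/-- the wall sides of the box -/
theorem wall_flat (h : FlatZ F κ v R) (hr : r < R) {a : (ℤ × ℤ) × (ℤ × ℤ)}
    (ha : a ∈ wall ZQ F (F ∩ BR v r)) : ∃ i, -r ≤ i ∧ i < r ∧ a = (fr κ v i 0, fr κ v (i + 1) 0) := by
  obtain ⟨h1, f, hf, k, e⟩ := mem_wall.mp ha
  have h2 := (mem_bS_ah.mp h1).2
  obtain ⟨x, y, rfl⟩ := exists_cl κ v f
  have h3 := (h.mem_box hr.le).mp hf
  have key : ∀ {x' y' : ℤ} {k' : ZMod 4}, -R ≤ x' → x' < R → 0 ≤ y' → y' < R →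
      a.swap ≠ sd ZQ (cl κ v x' y') k' := fun k1 k2 k3 k4 e' =>
    h2 ⟨_, (h _ _ k1 k2 (by omega) k4).mpr k3, _, e'⟩
  have e0 : a = sd ZQ (cl κ v x y) k := e
  rcases k4' κ k with rfl | rfl | rfl | rfl
  · rw [sd_0] at e0
    by_cases hy : y = 0
    · exact ⟨x, h3.1, h3.2.1, by rw [e0, hy]⟩
    · exfalso
      refine key (x' := x) (y' := y - 1) (k' := k + 2) (by omega) (by omega) (by omega) (by omega) ?_
      rw [sd_2, e0, sub_add_cancel]
      rfl
  · exfalso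
    rw [sd_1] at e0
    refine key (x' := x + 1) (y' := y) (k' := κ + 3) (by omega) (by omega) (by omega) (by omega) ?_
    rw [sd_3, e0]
    rfl
  · exfalso
    rw [sd_2] at e0
    refine key (x' := x) (y' := y + 1) (k' := κ) (by omega) (by omega) (by omega) (by omega) ?_
    rw [sd_0, e0]
    rfl
  · exfalso
    rw [sd_3] at e0
    refine key (x' := x - 1) (y' := y) (k' := κ + 1) (by omega) (by omega) (by omega) (by omega) ?_
    rw [sd_1, e0, sub_add_cancel]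
    rfl

private theorem tJ0 : tJ 0 = 1 := by
  unfold Ht.tJ
  rw [zero_sub, Real.cos_neg, div_self]
  rw [Real.cos_pi_div_six]
  positivity

theorem cenv_self (g : ℤ → VZ) (m : ℕ) (J : ℤ → ℝ) (a : DZ) : (cenv F g m J).t a a = 1 := by
  show tJ (csum J (min _ _) (max _ _)) = 1
  rw [min_self, max_self, csum_self, tJ0]

variable {g : ℤ → VZ} {m : ℕ} {J : ℤ → ℝ} {j : ℤ}

/-- the sum of the jumps over an arc over the mark -/
theorem csum_over (hz : ∀ x, j - r < x → x < j + r → x ≠ j → J x = 0) {i i' : ℤ} (h1 : -r ≤ i)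
    (h2 : i < 0) (h3 : 0 ≤ i') (h4 : i' < r) : csum J (j + i) (j + i') = J j := by
  unfold csum
  refine Finset.sum_eq_single j (fun x hx hne => ?_) fun h => ?_
  · rw [Finset.mem_Ioc] at hx
    exact hz x (by omega) (by omega) hne
  · exact absurd (Finset.mem_Ioc.mpr ⟨by omega, by omega⟩) h

theorem csum_side (hz : ∀ x, j - r < x → x < j + r → x ≠ j → J x = 0) {i i' : ℤ} (h1 : -r ≤ i)
    (h2 : i < i') (h4 : i' < r) (h : i' < 0 ∨ 0 ≤ i) : csum J (j + i) (j + i') = 0 := by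
  unfold csum
  refine Finset.sum_eq_zero fun x hx => ?_
  rw [Finset.mem_Ioc] at hx
  exact hz x (by omega) (by omega) (by omega)

/-- **the weight of a contour environment near a flat mark** -/
theorem loc_cenv (hc : Cont F m g) (hJ : ∀ x, J (x + m) = J x) (h0 : csum J 0 m = Real.pi / 3)
    (hP : HasPotQ ZQ F) (hF : FlatZ F κ (g j) R) (hb : 2 ≤ b) (hr : (r₀ : ℤ) < R)
    (hg : ∀ i, -R ≤ i → i ≤ R → g (j + i) = fr κ (g j) i 0) (hm : 2 * r₀ ≤ m)
    (hz : ∀ x, j - r₀ < x → x < j + r₀ → x ≠ j → J x = 0) :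
    (ldat hP hF hb hr).Loc (tJ (J j)) (cenv F g m J).W := by
  have hside : ∀ i, -R ≤ i → i < R → (fr κ (g j) i 0, fr κ (g j) (i + 1) 0) = csd g (j + i) := by
    intro i h1 h2
    rw [← hg i h1 h2.le, ← hg (i + 1) (by omega) (by omega), ← add_assoc]
    rfl
  have hbx : (ldat hP hF hb hr).Bx 0 = F ∩ BR (g j) r₀ := by
    rw [ldat_Bx, rl_zero]
  -- weights of pairs of wall sides
  have hov : ∀ i i' : ℤ, -(r₀ : ℤ) ≤ i → i < 0 → 0 ≤ i' → i' < r₀ →
      (cenv F g m J).t (csd g (j + i)) (csd g (j + i')) = tJ (J j) := by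
    intro i i' h1 h2 h3 h4
    rw [(cenv_ts (F := F) hc hJ h0 (i := j + i) (k := j + i') (by omega) (by omega)).1,
      csum_over hz h1 h2 h3 h4]
  have hno : ∀ i i' : ℤ, -(r₀ : ℤ) ≤ i → i ≤ i' → i' < r₀ → (i' < 0 ∨ 0 ≤ i) →
      (cenv F g m J).t (csd g (j + i)) (csd g (j + i')) = 1 := by
    intro i i' h1 h2 h3 h4
    rcases h2.eq_or_lt with rfl | h5
    · exact cenv_self g m J _
    · rw [(cenv_ts (F := F) hc hJ h0 (i := j + i) (k := j + i') (by omega) (by omega)).1,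
        csum_side hz h1 h5 h3 h4, tJ0]
  have hW : (cenv F g m J).W = Wt ZQ F (cenv F g m J).T := rfl
  rw [hW]
  refine LData.Loc.wt ?_ ?_
  · intro a ha c hc' hab
    rw [hbx] at ha hc'
    obtain ⟨i₁, k1, k2, rfl⟩ := wall_flat hF hr ha
    obtain ⟨i₂, k3, k4, rfl⟩ := wall_flat hF hr hc'
    obtain ⟨i, i', k5, k6, k7, k8, k9⟩ := hab
    rw [hside i₁ (by omega) (by omega), hside i₂ (by omega) (by omega)]
    show (cenv F g m J).t _ _ = _
    have inj : ∀ {x y : ℤ}, (fr κ (g j) x 0, fr κ (g j) (x + 1) 0) =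
        (fr κ (g j) y 0, fr κ (g j) (y + 1) 0) → x = y := fun e => (fr_inj (Prod.mk.inj e).1).1
    rcases Sym2.eq_iff.mp k9 with ⟨e1, e2⟩ | ⟨e1, e2⟩
    · obtain rfl := inj e1
      obtain rfl := inj e2
      exact hov _ _ k1 k6 k7 k4
    · obtain rfl := inj e1
      obtain rfl := inj e2
      rw [(cenv F g m J).t_symm]
      exact hov _ _ k3 k6 k7 k2
  · intro a ha c hc' hab
    rw [hbx] at ha hc'
    obtain ⟨i₁, k1, k2, rfl⟩ := wall_flat hF hr ha
    obtain ⟨i₂, k3, k4, rfl⟩ := wall_flat hF hr hc'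
    rw [hside i₁ (by omega) (by omega), hside i₂ (by omega) (by omega)]
    show (cenv F g m J).t _ _ = _
    have hcase : (i₁ < 0 ∧ i₂ < 0) ∨ (0 ≤ i₁ ∧ 0 ≤ i₂) := by
      by_contra hcon
      apply hab
      rcases lt_or_ge i₁ 0 with h1 | h1
      · exact ⟨i₁, i₂, by omega, h1, by omega, by omega, rfl⟩
      · exact ⟨i₂, i₁, by omega, by omega, h1, by omega, Sym2.eq_swap⟩
    rcases le_total i₁ i₂ with h5 | h5
    · exact hno _ _ k1 h5 k4 (by omega)
    · rw [(cenv F g m J).t_symm]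
      exact hno _ _ k3 h5 k2 (by omega)

/-! ### Majorants at a mark -/

/-- majorant of an environment at the mark `v`, walls `PA`, `PB`, boxes of radius `r₀` and `r₀ / 2` -/
structure MkAt (E : WEnv) (PA PB : UE → Prop) (v : VZ) (r₀ : ℕ) (t kh A : ℝ) (H : Cfg → ℝ) : Prop where
  kh0 : 0 ≤ kh
  nn : ∀ ω, 0 ≤ H ω
  W : ∀ ω, |E.W ω| ≤ H ω
  num : ∀ ω, ∀ a ∈ dE ZQ (E.F ∩ BR v r₀), |E.num ω a| ≤ 2 * H ω
  ex : ∃ h Y : Cfg → ℝ, (∀ ω, 0 ≤ h ω) ∧ Dep ((BR v r₀ : Set (ℤ × ℤ))ᶜ) h ∧ (∀ ω, 0 ≤ Y ω) ∧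
    Dep ((BR v ((r₀ / 2 : ℕ) : ℤ) : Set (ℤ × ℤ))ᶜ) Y ∧
    (∀ ω, H ω ≤ h ω * (Y ω * t ^ NA E.F PA PB v r₀ ω)) ∧
    av E.F (fun ω => h ω * Y ω ^ 2) ≤ kh ^ 2 * av E.F h ∧
    av E.F h * av E.F (fun ω => t ^ NA E.F PA PB v r₀ ω) ≤ A

/-- functions of the faces off a box -/
theorem dep_off {α : Type} {B B' : Finset (ℤ × ℤ)} {h : Cfg → α} (hB : B' ⊆ B)
    (hd : Dep ((B : Set (ℤ × ℤ))ᶜ) h) : Dep (((F ∩ B' : Finset (ℤ × ℤ)) : Set (ℤ × ℤ))ᶜ) h :=
  Dep.mono hd fun f hf hf' => hf (mem_coe.2 (hB (mem_inter.1 (mem_coe.1 hf')).2))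

theorem MkAt.congr {E : WEnv} {PA PB PA' PB' : UE → Prop} {t kh A : ℝ} {H : Cfg → ℝ}
    (h : ∀ ω, NA E.F PA' PB' v r₀ ω = NA E.F PA PB v r₀ ω) (hM : MkAt E PA PB v r₀ t kh A H) :
    MkAt E PA' PB' v r₀ t kh A H where
  kh0 := hM.kh0
  nn := hM.nn
  W := hM.W
  num := hM.num
  ex := by
    simp only [h]
    exact hM.ex

/-- **the majorant at a mark gives the structure `Mj`** -/
theorem MkAt.mj {E : WEnv} {T ka t kh A : ℝ} (hT : 1 ≤ T) {H : Cfg → ℝ} (hP : HasPotQ ZQ E.F)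
    (hF : FlatZ E.F κ v R) (hb : 2 ≤ b) (hr : (r₀ : ℤ) < R)
    (hM : MkAt E (PAz κ v R) (PBz κ v R) v r₀ t kh A H) :
    ((ldat hP hF hb hr).sys T ka hT).Mj t H kh A := by
  obtain ⟨h, Y, h1, h2, h3, h4, h5, h6, h7⟩ := hM.ex
  have hN : ∀ ω, LN (ovr (fun i => fr κ v i 0) R) ZQ E.F (ldat hP hF hb hr).Bx 0 ω =
      NA E.F (PAz κ v R) (PBz κ v R) v r₀ ω := fun ω => by
    have := LN_eq_NA (wallS hF) (v := v) (Bx := bx E.F v b r₀) (j := 0) (r := rl b r₀ 0) rfl ω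
    rw [rl_zero] at this
    exact this
  refine LData.mj_mk _ hT hM.kh0 hM.nn h1 ?_ h3 ?_ (fun ω => ?_) h6 ?_
  · rw [ldat_Bx, rl_zero]
    exact dep_off (Finset.Subset.refl _) h2
  · rw [ldat_Bx]
    refine dep_off (BR_mono ?_) h4
    have e : rl b r₀ 1 = r₀ / b := by
      unfold rl
      rw [pow_one]
    rw [e]
    exact_mod_cast Nat.div_le_div_left hb (by norm_num)
  · rw [hN]
    exact h5 ω
  · simp only [hN]
    exact h7

end

end Pool.Agent.SixB.LI
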