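import Pool.Agent.Lib.SixB.S6LEnvA
import Pool.Agent.Lib.SixB.CADomUpC

/-!
# 6BD, block CA-L: environments of a contour near a flat mark, part 2

The majorants `MkAt` of `envX` (both sides of the moving index) and of `envP` at the marks `a2`, `a2'`, from `DetX`,
`DetP` of `CADomDefs`: `mkX`, `mkP`. The weights are local at the marks: `locX`, `locP`.
-/

set_option autoImplicit false
set_option linter.unusedVariables false

namespace Pool.Agent.SixB.LI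

open Filter Topology Pool.Agent.Perc Pool.Agent.Perc.Q Pool.Agent.PercD Pool.Agent.PercN Pool.Agent.Perc6 Relation
  Pool.Agent.SixB.Tilt
open DomMk DomX

noncomputable section

theorem hPr_comm (P : Finset (ℤ × ℤ)) (g : ℤ → ℤ × ℤ) (n : ℕ) (j j' r : ℤ) (α : ℝ) (K : Cfg → ℕ) (ω : Cfg) :
    hPr P g n j j' r α K ω = hPr P g n j' j r α K ω := by
  unfold hPr
  ring

/-- **the majorant at a mark**, general form: `l` is the indicator of the leg (or `1`) -/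
theorem mkAt_gen (M : ℕ) : ∃ C : ℝ, 1 ≤ C ∧ ∀ (P : Finset (ℤ × ℤ)) (g : ℤ → ℤ × ℤ) (n : ℕ) (j j' : ℤ) (r : ℕ)
    (α : ℝ) (K : Cfg → ℕ) (N : ℤ) (B D : Finset (ℤ × ℤ)) (l : Cfg → ℝ) (E : WEnv) (A : ℝ),
    α ∈ Set.Icc (0 : ℝ) 1 → E.F = rf n P → MkOk P g n j' r →
    Disjoint (BR (gr n g j) r) (BR (gr n g j') r) → 0 < N → KOk (rf n P) B N M K →
    BR (gr n g j) (r / 2) ⊆ B → BR (gr n g j') (r / 2) ⊆ B → D ⊆ B →
    Disjoint D (BR (gr n g j) r) → Disjoint D (BR (gr n g j') r) → Dep (D : Set (ℤ × ℤ)) l →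
    (∀ ω, 0 ≤ l ω) → (∀ ω, |E.W ω| ≤ l ω * hPr P g n j j' r α K ω) →
    (∀ ω, ∀ a ∈ dE ZQ (E.F ∩ BR (gr n g j) r), |E.num ω a| ≤ 2 * (l ω * hPr P g n j j' r α K ω)) →
    av (rf n P) l * (FF P g n j r r α * FF P g n j' r r α) ≤ A →
      MkAt E (MA n g j r) (MB n g j r) (gr n g j) r (tau α) C A (fun ω => l ω * hPr P g n j j' r α K ω) := by
  obtain ⟨C, hC, h⟩ := DomPr.dom_avK 1 M 1 qq (qq ^ 2) one_pos le_rfl one_le_qq (one_le_pow₀ one_le_qq)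
  refine ⟨C, hC, ?_⟩
  intro P g n j j' r α K N B D l E A hα hEF hm hdis hN hK hB hB' hDB hD hD' hl hl0 hW hnum hA
  obtain ⟨x₀, y₀, hF, hKB⟩ := hK.le
  have hC0 : 0 ≤ C := by linarith
  have hτ := tau_nonneg hα
  have hq := qq_nonneg
  have hKd : ∀ S : Set (ℤ × ℤ), ((rf n P \ B : Finset (ℤ × ℤ)) : Set (ℤ × ℤ)) ⊆ S → Dep S K :=
    fun S hS ω ω' hω => hK.dep ω ω' fun f hf => hω f (hS hf)
  have hoff : ∀ C' : Finset (ℤ × ℤ), C' ⊆ B → Dep ((C' : Set (ℤ × ℤ))ᶜ) K := fun C' hC' =>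
    hKd _ fun f hf hf' => by
      rw [Finset.mem_coe, Finset.mem_sdiff] at hf
      exact hf.2 (hC' (Finset.mem_coe.1 hf'))
  have hr2 : ((r / 2 : ℕ) : ℤ) = (r : ℤ) / 2 := by push_cast; rfl
  have hNM : Dep ((rf n P ∩ BR (gr n g j') r : Finset (ℤ × ℤ)) : Set (ℤ × ℤ)) (NM P g n j' r r) :=
    NM_dep P g n j' r r
  have hmean : av (rf n P) (fun ω => l ω * tau α ^ NM P g n j' r r ω) =
      av (rf n P) l * FF P g n j' r r α := by
    have hd : Disjoint (D : Set (ℤ × ℤ)) ((rf n P ∩ BR (gr n g j') r : Finset (ℤ × ℤ)) : Set (ℤ × ℤ)) := by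
      rw [Finset.disjoint_coe]
      exact hD'.mono_right Finset.inter_subset_right
    exact (LH.avSys (rf n P)).E_indep hd hl (ExpSys.Dep.comp (P := LH.avSys (rf n P)) hNM fun k => tau α ^ k)
  refine ⟨hC0, fun ω => mul_nonneg (hl0 ω) (hPr_nonneg hα), hW, hnum,
    fun ω => l ω * tau α ^ NM P g n j' r r ω, fun ω => qq ^ (K ω + 1), fun ω => ?_, ?_, fun ω => by positivity,
    ?_, fun ω => ?_, ?_, ?_⟩
  · exact mul_nonneg (hl0 ω) (pow_nonneg hτ _)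
  · intro ω ω' hω
    have e1 : l ω = l ω' := hl ω ω' fun f hf => hω f fun hf' =>
      Finset.disjoint_left.1 hD (Finset.mem_coe.1 hf) (Finset.mem_coe.1 hf')
    have e2 : NM P g n j' r r ω = NM P g n j' r r ω' := hNM ω ω' fun f hf => hω f fun hf' => by
      rw [Finset.mem_coe, Finset.mem_inter] at hf
      exact Finset.disjoint_left.1 hdis (Finset.mem_coe.1 hf') hf.2
    simp only [e1, e2]
  · intro ω ω' hω
    rw [hr2] at hω
    have e1 : K ω = K ω' := hoff _ hB ω ω' hω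
    simp only [e1]
  · refine le_of_eq ?_
    rw [hEF]
    show l ω * (tau α ^ NM P g n j r r ω * tau α ^ NM P g n j' r r ω * qq ^ (K ω + 1)) =
      l ω * tau α ^ NM P g n j' r r ω * (qq ^ (K ω + 1) * tau α ^ NM P g n j r r ω)
    ring
  · rw [hEF, hmean]
    have key := h Unit Finset.univ (rf n P) (fun _ => gr n g j') (fun _ => MA n g j' r) (fun _ => MB n g j' r)
      (fun _ => r) (fun _ => tau α) (D : Set (ℤ × ℤ)) l K x₀ y₀ N (by simp)
      { A := fun _ _ => hm.A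
        B := fun _ _ => hm.B
        AB := fun _ _ => hm.AB
        sep := fun _ _ s hs _ => hm.sep s hs
        dis := fun _ _ _ _ hne => absurd rfl hne }
      (fun _ _ => ⟨one_le_tau hα, tau_le α⟩) hN hF hKB (hKd _ fun f hf => by
        rw [Finset.mem_coe, Finset.mem_sdiff] at hf
        exact Finset.mem_coe.2 hf.1)
      (fun _ _ => by rw [hr2]; exact hoff _ hB') (hoff _ hDB) hl hl0
      fun _ _ => by rw [Finset.disjoint_coe]; exact hD'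
    rw [Finset.prod_const, Finset.card_univ, Fintype.card_unit, pow_one] at key
    have e : (fun ω => l ω * tau α ^ NM P g n j' r r ω * (qq ^ (K ω + 1)) ^ 2) = fun ω =>
        (∏ _i ∈ (Finset.univ : Finset Unit), tau α ^ NA (rf n P : Set (ℤ × ℤ)) (MA n g j' r) (MB n g j' r)
          (gr n g j') r ω) * (qq ^ 2) ^ (K ω + 1) * l ω := by
      funext ω
      rw [Finset.prod_const, Finset.card_univ, Fintype.card_unit, pow_one]
      show l ω * tau α ^ NM P g n j' r r ω * (qq ^ (K ω + 1)) ^ 2 =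
        tau α ^ NM P g n j' r r ω * (qq ^ 2) ^ (K ω + 1) * l ω
      rw [← pow_mul, ← pow_mul, mul_comm 2]
      ring
    rw [e]
    refine key.trans ?_
    have h0 : 0 ≤ av (rf n P) l * FF P g n j' r r α :=
      mul_nonneg (av_nonneg fun _ _ => hl0 _) (av_nonneg fun _ _ => pow_nonneg hτ _)
    have e2 : C * DomPr.fac (rf n P) (MA n g j' r) (MB n g j' r) (gr n g j') r (tau α) * av (rf n P) l =
        C * (av (rf n P) l * FF P g n j' r r α) := by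
      rw [FF_eq]
      ring
    rw [e2]
    exact mul_le_mul_of_nonneg_right (by nlinarith) h0
  · rw [hEF, hmean]
    refine le_trans (le_of_eq ?_) hA
    show av (rf n P) l * FF P g n j' r r α * FF P g n j r r α = _
    ring

/-! ### The full environment -/

/-- a vertex far from three vertices -/
theorem exists_far (a b c : VZ) (r : ℤ) (hr : 0 ≤ r) :
    ∃ z : VZ, r ≤ GG.dd z a ∧ r ≤ GG.dd z b ∧ r ≤ GG.dd z c := by
  refine ⟨(|a.1| + |b.1| + |c.1| + r, 0), ?_, ?_, ?_⟩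
  all_goals
    unfold GG.dd
    refine le_max_of_le_left (le_trans ?_ (le_abs_self _))
    have h1 := le_abs_self a.1
    have h2 := le_abs_self b.1
    have h3 := le_abs_self c.1
    have h4 := abs_nonneg a.1
    have h5 := abs_nonneg b.1
    have h6 := abs_nonneg c.1
    simp only
    linarith

theorem BR_zero (z : VZ) : BR z 0 = ∅ := DomUp.BR_zero'

theorem side_box {f c : ℤ × ℤ} {r : ℤ} {a : UE} (hs : IsSide f a) (h : InE c r a) : f ∈ BR c (r + 1) := by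
  obtain ⟨x, y, d⟩ := a
  obtain ⟨f1, f2⟩ := f
  rw [mem_BR]
  unfold InE InR at h
  unfold IsSide bo le' to' ri at hs
  cases d
  · simp only [Prod.mk.injEq, Bool.false_eq_true, and_false, or_false, false_or, and_true] at hs
    simp only [ua_mk, ub_false] at h
    simp only
    omega
  · simp only [Prod.mk.injEq, Bool.true_eq_false, and_false, false_or, and_true] at hs
    simp only [ua_mk, ub_true] at h
    simp only
    omega

/-- **Majorants of the full environment at the marks `a2`, `a2'`**, one side -/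
theorem mkX (hDet : DetX) (P : Finset (ℤ × ℤ)) (L : ℕ) (g : ℤ → ℤ × ℤ) (hP : MPoly P) (hc : Cont P L g)
    {t₁ t₂ t₂' t₃ t₄ : ℝ} (hM : Marks5 L g t₁ t₂ t₂' t₃ t₄) : ∃ ρ₀ : ℝ, 0 < ρ₀ ∧ ∀ ρ : ℝ, 0 < ρ → ρ ≤ ρ₀ →
      ∃ kh M : ℝ, 0 < kh ∧ 0 < M ∧ ∀ᶠ p : ℕ × ℤ in lk t₄, ∀ α ∈ Set.Icc (0 : ℝ) 1,
        0 < (envX P L g p.1 α (ix p.1 t₁) (ix p.1 t₂) (ix p.1 t₂') (ix p.1 t₃) p.2).Z ∧
        (∃ H, MkAt (envX P L g p.1 α (ix p.1 t₁) (ix p.1 t₂) (ix p.1 t₂') (ix p.1 t₃) p.2)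
          (MA p.1 g (ix p.1 t₂) ⌊ρ * p.1⌋.toNat) (MB p.1 g (ix p.1 t₂) ⌊ρ * p.1⌋.toNat)
          (gr p.1 g (ix p.1 t₂)) ⌊ρ * p.1⌋.toNat (tau α) kh
          (M * (envX P L g p.1 α (ix p.1 t₁) (ix p.1 t₂) (ix p.1 t₂') (ix p.1 t₃) p.2).Z) H) ∧
        (∃ H, MkAt (envX P L g p.1 α (ix p.1 t₁) (ix p.1 t₂) (ix p.1 t₂') (ix p.1 t₃) p.2)
          (MA p.1 g (ix p.1 t₂') ⌊ρ * p.1⌋.toNat) (MB p.1 g (ix p.1 t₂') ⌊ρ * p.1⌋.toNat)
          (gr p.1 g (ix p.1 t₂')) ⌊ρ * p.1⌋.toNat (tau α) kh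
          (M * (envX P L g p.1 α (ix p.1 t₁) (ix p.1 t₂) (ix p.1 t₂') (ix p.1 t₃) p.2).Z) H) := by
  obtain ⟨ρD, hρD, hD⟩ := hDet P L g hP hc _ _ _ _ _ hM
  obtain ⟨ρL, hρL, c, hc0, hL⟩ := Low.lowX P L g hP hc _ _ _ _ _ hM
  obtain ⟨κ, δ₄, hδ₄, hflat⟩ := flat_near hc hM.f4
  obtain ⟨C₁, hC₁, hleg⟩ := lg_pr
  obtain ⟨δ₂, hδ₂, hm₂⟩ := mkOk_near hc hM.f2
  obtain ⟨δ₂', hδ₂', hm₂'⟩ := mkOk_near hc hM.f2'
  obtain ⟨δa, hδa, ha⟩ := DomMk.boxes_disj hc (gam_ne' hc hM.h2 (by linarith [hM.h1, hM.h3, hM.h4, hM.h5]))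
  obtain ⟨δb, hδb, hb⟩ := DomMk.boxes_disj hc
    (gam_ne' hc (by linarith [hM.h2, hM.h3, hM.h4] : t₂ < t₄) (by linarith [hM.h1, hM.h5]))
  obtain ⟨δd, hδd, hd⟩ := DomMk.boxes_disj hc
    (gam_ne' hc (by linarith [hM.h3, hM.h4] : t₂' < t₄) (by linarith [hM.h1, hM.h2, hM.h5]))
  refine ⟨min (min (min ρD ρL) δ₄) (min (min δ₂ δ₂') (min δa (min (δb / 2) (δd / 2)))), by positivity,
    fun ρ hρ hρ' => ?_⟩
  simp only [le_min_iff] at hρ'
  obtain ⟨⟨⟨hρD', hρL'⟩, hρ₄⟩, ⟨hρ₂, hρ₂'⟩, hρa, hρb, hρd⟩ := hρ'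
  obtain ⟨Mk, hMk⟩ := hD ρ hρ hρD'
  obtain ⟨C, hC, hav⟩ := mkAt_gen Mk
  have hC0 : 0 < C := by linarith
  refine ⟨C, 2 * C₁ / (ρ * c), hC0, by positivity, ?_⟩
  filter_upwards [hMk, hL, lk_pos t₄ ⌈2 / ρ⌉₊, ix_near (lk_n t₄) t₂ hδ₂, ix_near (lk_n t₄) t₂' hδ₂',
    ix_near (lk_n t₄) t₂ hδa, ix_near (lk_n t₄) t₂' hδa, ix_near (lk_n t₄) t₂ hδb, lk_near hδb,
    ix_near (lk_n t₄) t₂' hδd, lk_near hδd, lk_near hδ₄] with p k1 k2 hn1 e2 e2' ea ea' eb eb4 ed ed4 e4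
  intro α hα
  have hn2 : 2 / ρ < p.1 := (Nat.le_ceil _).trans_lt (by exact_mod_cast hn1)
  have hn' : (0 : ℝ) < p.1 := lt_trans (by positivity) hn2
  have hn : 0 < p.1 := by exact_mod_cast hn'
  have hρn : 2 < ρ * p.1 := by rwa [div_lt_iff₀' hρ] at hn2
  set n := p.1 with hnp
  obtain ⟨r, hr⟩ : ∃ r : ℕ, ⌊ρ * n⌋ = r := ⟨⌊ρ * n⌋.toNat, by
    have : 0 ≤ ⌊ρ * n⌋ := Int.floor_nonneg.2 (by positivity)
    omega⟩
  rw [hr] at k1 ⊢
  rw [Int.toNat_natCast]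
  have hr1 : (r : ℝ) ≤ ρ * n := by
    have := Int.floor_le (ρ * (n : ℝ))
    rw [hr] at this
    exact_mod_cast this
  have hr2 : ρ * n - 1 < r := by
    have := Int.sub_one_lt_floor (ρ * (n : ℝ))
    rw [hr] at this
    exact_mod_cast this
  have hrp : (1 : ℝ) < r := by linarith
  have hrz : 1 ≤ r := by exact_mod_cast hrp.le
  have hle : ∀ δ : ℝ, ρ ≤ δ → (((r : ℕ) : ℤ) : ℝ) ≤ δ * n := fun δ hδ => by
    push_cast
    exact hr1.trans (mul_le_mul_of_nonneg_right hδ hn'.le)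
  obtain ⟨z, hz1, hz2, hz3⟩ := exists_far (gr n g (ix n t₂)) (gr n g (ix n t₂')) (gr n g p.2)
    (8 * (r : ℤ)) (by positivity)
  obtain ⟨K, N, hN, hK, hX⟩ := k1 α hα z 0 (by positivity) hz1 hz2 hz3
  have hLow2 := k2 α hα
  have hrL : (r : ℤ) ≤ ⌊ρL * n⌋ := by
    rw [← hr]
    exact Int.floor_le_floor (mul_le_mul_of_nonneg_right hρL' hn'.le)
  set E := envX P L g n α (ix n t₁) (ix n t₂) (ix n t₂') (ix n t₃) p.2 with hE
  have hEF : E.F = rf n P := rfl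
  have hcf := CARf.cont_rf hc hn
  set v := gr n g (ix n t₂) with hv
  set v' := gr n g (ix n t₂') with hv'
  set cc := gr n g p.2 with hcc
  have hle2 : ∀ δ : ℝ, ρ ≤ δ / 2 → (((r : ℕ) : ℤ) : ℝ) ≤ δ * n ∧ ((((r : ℕ) : ℤ) + 1 : ℤ) : ℝ) ≤ δ * n := by
    intro δ hδ
    have h1 : ρ * n ≤ δ / 2 * n := mul_le_mul_of_nonneg_right hδ hn'.le
    push_cast
    constructor <;> linarith
  have hsub : BR cc r ⊆ BR cc ((r : ℤ) + 1) := (Sub.refl' (by omega)).subset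
  have hdisj : Disjoint (BR v r) (BR v' r) := ha n hn _ _ ea ea' r r (hle _ hρa) (hle _ hρa)
  have hdb' : Disjoint (BR v r) (BR cc ((r : ℤ) + 1)) :=
    hb n hn _ _ eb eb4 r (r + 1) (hle2 _ hρb).1 (hle2 _ hρb).2
  have hdd' : Disjoint (BR v' r) (BR cc ((r : ℤ) + 1)) :=
    hd n hn _ _ ed ed4 r (r + 1) (hle2 _ hρd).1 (hle2 _ hρd).2
  have hdb : Disjoint (BR v r) (BR cc r) := hdb'.mono_right hsub
  have hdd : Disjoint (BR v' r) (BR cc r) := hdd'.mono_right hsub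
  have hgF : ∀ i R r : ℤ, 1 ≤ FF P g n i R r α := fun i R r => one_le_FF hα
  have hZ : 0 < E.Z := by
    refine lt_of_lt_of_le ?_ hLow2
    have h3 := hgF (ix n t₂) ⌊ρL * n⌋ ⌊ρL * n⌋
    have h4 := hgF (ix n t₂') ⌊ρL * n⌋ ⌊ρL * n⌋
    have h5 : 0 < FF P g n (ix n t₂) ⌊ρL * n⌋ ⌊ρL * n⌋ α := by linarith
    have h6 : 0 < FF P g n (ix n t₂') ⌊ρL * n⌋ ⌊ρL * n⌋ α := by linarith
    positivity
  -- the leg
  set e := csd (gr n g) p.2 with he
  obtain ⟨hF, hfr⟩ := hflat n hn p.2 e4 r (by positivity) (hle _ hρ₄)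
  have e1 : e = (fr κ cc 0 0, fr κ cc 1 0) := by
    rw [he, hcc]
    unfold csd
    rw [← hfr 0 (by omega) (by omega), ← hfr 1 (by omega) (by omega), add_zero]
  have hp := hleg (rf n P) κ cc r (by exact_mod_cast hrz) hF
  rw [← e1] at hp
  have heb : e ∈ bS ZQ E.F := hcf.csd_mem_bS p.2
  have hein : InE cc r (Tilt.und e) := inE_side hcf p.2 (by exact_mod_cast hrz)
  -- the sets of faces
  have hB : ∀ B' : Finset (ℤ × ℤ), B' ⊆ h2 g n (ix n t₂) (ix n t₂') r → B' ⊆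
      h2 g n (ix n t₂) (ix n t₂') r ∪ BR z 0 ∪ BR cc r := fun B' hB' =>
    hB'.trans (Finset.subset_union_left.trans Finset.subset_union_left)
  have hb1 : BR v ((r : ℤ) / 2) ⊆ h2 g n (ix n t₂) (ix n t₂') r := Finset.subset_union_left
  have hb2 : BR v' ((r : ℤ) / 2) ⊆ h2 g n (ix n t₂) (ix n t₂') r := Finset.subset_union_right
  have hDB : rf n P ∩ BR cc r ⊆ h2 g n (ix n t₂) (ix n t₂') r ∪ BR z 0 ∪ BR cc r :=
    Finset.inter_subset_right.trans Finset.subset_union_right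
  have hD1 : Disjoint (rf n P ∩ BR cc r) (BR v r) := (hdb.mono_right Finset.inter_subset_right).symm
  have hD2 : Disjoint (rf n P ∩ BR cc r) (BR v' r) := (hdd.mono_right Finset.inter_subset_right).symm
  -- the bounds
  have hW : ∀ ω, |E.W ω| ≤ lgi (rf n P) (Tilt.und e) cc r ω * hPr P g n (ix n t₂) (ix n t₂') r α K ω := by
    intro ω
    by_cases hl : Lg (rf n P) (Tilt.und e) cc r ω
    · rw [lgi_of hl, one_mul]
      have := (hX ω).1 ∅ (by simp)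
      rwa [Finset.sdiff_empty] at this
    · rw [W_zero heb ((hX ω).2 hl), abs_zero]
      exact mul_nonneg lgi_nonneg (hPr_nonneg hα)
  have hnum : ∀ w : VZ, Disjoint (BR w r) (BR cc ((r : ℤ) + 1)) → ∀ ω, ∀ a ∈ dE ZQ (E.F ∩ BR w r),
      |E.num ω a| ≤ 2 * (lgi (rf n P) (Tilt.und e) cc r ω * hPr P g n (ix n t₂) (ix n t₂') r α K ω) := by
    intro w hw ω a haw
    have haF : a ∈ dE ZQ E.F := dE_mono Finset.inter_subset_left haw
    by_cases hl : Lg (rf n P) (Tilt.und e) cc r ω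
    · rw [lgi_of hl, one_mul]
      exact num_le (abs_cs_le _ _ _ _) (hX ω).1 a
    · rw [num_zero heb ((hX ω).2 hl) haF ?_ ?_, abs_zero]
      · exact mul_nonneg zero_le_two (mul_nonneg lgi_nonneg (hPr_nonneg hα))
      all_goals
        intro hrel
        apply hl
        have hmm : Tilt.und a ∈ MM ω (E.F : Set (ℤ × ℤ)) (Tilt.und e) := by
          refine (MM_iff (mem_bS.mp heb).1 haF).mpr ?_
          first
            | exact Or.inl hrel
            | exact Or.inr hrel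
        refine lg_exit hein hmm fun hin => ?_
        obtain ⟨f, hf, hs⟩ := und_side haw
        exact Finset.disjoint_left.1 hw (Finset.mem_inter.1 hf).2 (side_box hs hin)
  have hfin : av (rf n P) (lgi (rf n P) (Tilt.und e) cc r) *
      (FF P g n (ix n t₂) r r α * FF P g n (ix n t₂') r r α) ≤ 2 * C₁ / (ρ * c) * E.Z := by
    have h3 : FF P g n (ix n t₂) r r α ≤ FF P g n (ix n t₂) ⌊ρL * n⌋ ⌊ρL * n⌋ α := FF_mono hα hrL hrL
    have h4 : FF P g n (ix n t₂') r r α ≤ FF P g n (ix n t₂') ⌊ρL * n⌋ ⌊ρL * n⌋ α := FF_mono hα hrL hrL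
    have h5 := hgF (ix n t₂) r r
    have h6 := hgF (ix n t₂') r r
    have h7 : FF P g n (ix n t₂) r r α * FF P g n (ix n t₂') r r α ≤
        FF P g n (ix n t₂) ⌊ρL * n⌋ ⌊ρL * n⌋ α * FF P g n (ix n t₂') ⌊ρL * n⌋ ⌊ρL * n⌋ α :=
      mul_le_mul h3 h4 (by linarith) (by linarith)
    have h8 : av (rf n P) (lgi (rf n P) (Tilt.und e) cc r) ≤ 2 * C₁ / (ρ * n) := by
      refine hp.trans ?_
      push_cast
      rw [div_le_div_iff₀ (by linarith) (by positivity)]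
      nlinarith
    have h9 : (1 : ℝ) ≤ FF P g n (ix n t₂) r r α * FF P g n (ix n t₂') r r α := by nlinarith
    calc av (rf n P) (lgi (rf n P) (Tilt.und e) cc r) *
          (FF P g n (ix n t₂) r r α * FF P g n (ix n t₂') r r α)
        ≤ 2 * C₁ / (ρ * n) * (FF P g n (ix n t₂) ⌊ρL * n⌋ ⌊ρL * n⌋ α *
            FF P g n (ix n t₂') ⌊ρL * n⌋ ⌊ρL * n⌋ α) := by
          exact mul_le_mul h8 h7 (by linarith) (by positivity)
      _ = 2 * C₁ / (ρ * c) * (c / n * (FF P g n (ix n t₂) ⌊ρL * n⌋ ⌊ρL * n⌋ α *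
            FF P g n (ix n t₂') ⌊ρL * n⌋ ⌊ρL * n⌋ α)) := by field_simp
      _ ≤ _ := mul_le_mul_of_nonneg_left hLow2 (by positivity)
  refine ⟨hZ, ?_, ?_⟩
  · refine ⟨_, hav P g n (ix n t₂) (ix n t₂') r α K N _ (rf n P ∩ BR cc r)
      (lgi (rf n P) (Tilt.und e) cc r) E _ hα hEF (hm₂' n hn _ e2' r (by positivity) (hle _ hρ₂')) hdisj hN hK
      (hB _ hb1) (hB _ hb2) hDB hD1 hD2 (lgi_dep _ _ _ _) (fun ω => lgi_nonneg) hW (hnum v hdb') hfin⟩
  · refine ⟨_, hav P g n (ix n t₂') (ix n t₂) r α K N _ (rf n P ∩ BR cc r)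
      (lgi (rf n P) (Tilt.und e) cc r) E _ hα hEF (hm₂ n hn _ e2 r (by positivity) (hle _ hρ₂)) hdisj.symm hN hK
      (hB _ hb2) (hB _ hb1) hDB hD2 hD1 (lgi_dep _ _ _ _) (fun ω => lgi_nonneg) (fun ω => ?_)
      (fun ω a ha => ?_) ?_⟩
    · rw [hPr_comm]
      exact hW ω
    · rw [hPr_comm]
      exact hnum v' hdd' ω a ha
    · rw [mul_comm (FF P g n (ix n t₂') r r α)]
      exact hfin

end

end Pool.Agent.SixB.LI
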