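import Pool.Agent.Lib.SixB.S6LEnvB

/-!
# 6BD, block CA-L: environments of a contour near a flat mark, part 3

* `jN_far`, `jX_near`, `jP_near`: the jumps near the marks `a2`, `a2'`;
* `locX2`, `locX2'`, `locP2`, `locP2'`: the weights are local at the marks with the parameter `tau α`;
* `mkP`: majorants of `envP`;
* `AtMark`, `atMark`: all data of the environments `envX` (two sides), `envP` at a mark, for the decoupling theorem.
-/

set_option autoImplicit false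
set_option linter.unusedVariables false

namespace Pool.Agent.SixB.LI

open Filter Topology Pool.Agent.Perc Pool.Agent.Perc.Q Pool.Agent.PercD Pool.Agent.PercN Pool.Agent.Perc6 Relation
  Pool.Agent.SixB.Tilt
open DomMk DomX

noncomputable section

/-! ### Jumps -/

section jumps

variable {M : ℕ} {α : ℝ} {i j j' l k b x r : ℤ}

theorem jN_self (M : ℕ) (b : ℤ) : jN M b b = Real.pi / 3 := by
  unfold jN
  rw [sub_self, if_pos (dvd_zero _)]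

theorem jN_far (h : x ≠ b) (h1 : b - M < x) (h2 : x < b + M) : jN M b x = 0 := by
  unfold jN
  rw [if_neg]
  rintro ⟨c, hc⟩
  have h3 : c < 1 := by
    by_contra h4
    have : (M : ℤ) * 1 ≤ M * c := mul_le_mul_of_nonneg_left (by omega) (by positivity)
    omega
  have h4 : -1 < c := by
    by_contra h5
    have : (M : ℤ) * c ≤ M * (-1) := mul_le_mul_of_nonneg_left (by omega) (by positivity)
    omega
  obtain rfl : c = 0 := by omega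
  rw [mul_zero] at hc
  omega

/-- positions of the marks with gaps `r` -/
structure Gaps (M : ℕ) (i j j' l k r : ℤ) : Prop where
  r0 : 0 ≤ r
  h1 : i + r ≤ j
  h2 : j + r ≤ j'
  h3 : j' + r ≤ l
  h4 : l ≤ k
  h5 : k + 1 ≤ i + M

theorem jX_j (h : Gaps M i j j' l k r) (hr : 0 < r) : jX M α i j j' l k j = (1 - α) * (Real.pi / 3) := by
  obtain ⟨-, h1, h2, h3, h4, h5⟩ := h
  unfold jX
  rw [jN_self, jN_far (b := i), jN_far (b := j'), jN_far (b := l), jN_far (b := k), jN_far (b := k + 1)]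
  · ring
  all_goals omega

theorem jX_j' (h : Gaps M i j j' l k r) (hr : 0 < r) : jX M α i j j' l k j' = α * (Real.pi / 3) := by
  obtain ⟨-, h1, h2, h3, h4, h5⟩ := h
  unfold jX
  rw [jN_self, jN_far (b := i), jN_far (b := j), jN_far (b := l), jN_far (b := k), jN_far (b := k + 1)]
  · ring
  all_goals omega

theorem jX_near (h : Gaps M i j j' l k r) (h1 : j - r < x) (h2 : x < j + r) (hne : x ≠ j) :
    jX M α i j j' l k x = 0 := by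
  obtain ⟨-, k1, k2, k3, k4, k5⟩ := h
  unfold jX
  rw [jN_far (b := i), jN_far (b := j), jN_far (b := j'), jN_far (b := l), jN_far (b := k),
    jN_far (b := k + 1)]
  · ring
  all_goals omega

theorem jX_near' (h : Gaps M i j j' l k r) (h1 : j' - r < x) (h2 : x < j' + r) (hne : x ≠ j') :
    jX M α i j j' l k x = 0 := by
  obtain ⟨-, k1, k2, k3, k4, k5⟩ := h
  unfold jX
  rw [jN_far (b := i), jN_far (b := j), jN_far (b := j'), jN_far (b := l), jN_far (b := k),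
    jN_far (b := k + 1)]
  · ring
  all_goals omega

theorem jP_j (h : j < j') (h' : j' < j + M) : jP M α j j' j = (1 - α) * (Real.pi / 3) := by
  unfold jP
  rw [jN_self, jN_far (b := j')]
  · ring
  all_goals omega

theorem jP_j' (h : j < j') (h' : j' < j + M) : jP M α j j' j' = α * (Real.pi / 3) := by
  unfold jP
  rw [jN_self, jN_far (b := j)]
  · ring
  all_goals omega

theorem jP_near (h : j + r ≤ j') (h' : j' + r ≤ j + M) (h1 : j - r < x) (h2 : x < j + r) (hne : x ≠ j) :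
    jP M α j j' x = 0 := by
  unfold jP
  rw [jN_far (b := j), jN_far (b := j')]
  · ring
  all_goals omega

theorem jP_near' (h : j + r ≤ j') (h' : j' + r ≤ j + M) (h1 : j' - r < x) (h2 : x < j' + r) (hne : x ≠ j') :
    jP M α j j' x = 0 := by
  unfold jP
  rw [jN_far (b := j), jN_far (b := j')]
  · ring
  all_goals omega

theorem tJ_one_sub (α : ℝ) : Ht.tJ ((1 - α) * (Real.pi / 3)) = tau α := by
  have := tJ_symm (α * (Real.pi / 3))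
  unfold tau
  rw [← this]
  congr 1
  ring

end jumps

/-! ### Majorants of the environment with two marks -/

theorem mkP (hDet : DetP) (P : Finset (ℤ × ℤ)) (L : ℕ) (g : ℤ → ℤ × ℤ) (hP : MPoly P) (hc : Cont P L g)
    {t₂ t₂' : ℝ} (h22 : t₂ < t₂') (h22' : t₂' < t₂ + L) (hf : Fl g t₂) (hf' : Fl g t₂') :
    ∃ ρ₀ : ℝ, 0 < ρ₀ ∧ ∀ ρ : ℝ, 0 < ρ → ρ ≤ ρ₀ →
      ∃ kh M : ℝ, 0 < kh ∧ 0 < M ∧ ∀ᶠ n : ℕ in atTop, ∀ α ∈ Set.Icc (0 : ℝ) 1,
        0 < (envP P L g n α (ix n t₂) (ix n t₂')).Z ∧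
        (∃ H, MkAt (envP P L g n α (ix n t₂) (ix n t₂'))
          (MA n g (ix n t₂) ⌊ρ * n⌋.toNat) (MB n g (ix n t₂) ⌊ρ * n⌋.toNat)
          (gr n g (ix n t₂)) ⌊ρ * n⌋.toNat (tau α) kh
          (M * (envP P L g n α (ix n t₂) (ix n t₂')).Z) H) ∧
        (∃ H, MkAt (envP P L g n α (ix n t₂) (ix n t₂'))
          (MA n g (ix n t₂') ⌊ρ * n⌋.toNat) (MB n g (ix n t₂') ⌊ρ * n⌋.toNat)
          (gr n g (ix n t₂')) ⌊ρ * n⌋.toNat (tau α) kh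
          (M * (envP P L g n α (ix n t₂) (ix n t₂')).Z) H) := by
  obtain ⟨ρD, hρD, hD⟩ := hDet P L g hP hc _ _ h22 h22' hf hf'
  obtain ⟨ρL, hρL, c, hc0, hL⟩ := lowP' P L g hP hc _ _ h22 h22' hf hf'
  obtain ⟨δ₂, hδ₂, hm₂⟩ := mkOk_near hc hf
  obtain ⟨δ₂', hδ₂', hm₂'⟩ := mkOk_near hc hf'
  obtain ⟨δa, hδa, ha⟩ := DomMk.boxes_disj hc (gam_ne' hc h22 h22')
  refine ⟨min (min ρD ρL) (min (min δ₂ δ₂') δa), by positivity, fun ρ hρ hρ' => ?_⟩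
  simp only [le_min_iff] at hρ'
  obtain ⟨⟨hρD', hρL'⟩, ⟨hρ₂, hρ₂'⟩, hρa⟩ := hρ'
  obtain ⟨Mk, hMk⟩ := hD ρ hρ hρD'
  obtain ⟨C, hC, hav⟩ := mkAt_gen Mk
  have hC0 : 0 < C := by linarith
  refine ⟨C, 1 / c, hC0, by positivity, ?_⟩
  filter_upwards [hMk, hL, eventually_gt_atTop ⌈2 / ρ⌉₊, ix_near tendsto_id t₂ hδ₂,
    ix_near tendsto_id t₂' hδ₂', ix_near tendsto_id t₂ hδa, ix_near tendsto_id t₂' hδa] with n k1 k2 hn1 e2 e2' ea ea'
  intro α hα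
  simp only [id] at e2 e2' ea ea'
  have hn2 : 2 / ρ < n := (Nat.le_ceil _).trans_lt (by exact_mod_cast hn1)
  have hn' : (0 : ℝ) < n := lt_trans (by positivity) hn2
  have hn : 0 < n := by exact_mod_cast hn'
  obtain ⟨r, hr⟩ : ∃ r : ℕ, ⌊ρ * n⌋ = r := ⟨⌊ρ * n⌋.toNat, by
    have : 0 ≤ ⌊ρ * n⌋ := Int.floor_nonneg.2 (by positivity)
    omega⟩
  rw [hr] at k1 ⊢
  rw [Int.toNat_natCast]
  have hr1 : (r : ℝ) ≤ ρ * n := by
    have := Int.floor_le (ρ * (n : ℝ))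
    rw [hr] at this
    exact_mod_cast this
  have hle : ∀ δ : ℝ, ρ ≤ δ → (((r : ℕ) : ℤ) : ℝ) ≤ δ * n := fun δ hδ => by
    push_cast
    exact hr1.trans (mul_le_mul_of_nonneg_right hδ hn'.le)
  obtain ⟨z, hz1, hz2, -⟩ := exists_far (gr n g (ix n t₂)) (gr n g (ix n t₂')) (gr n g (ix n t₂'))
    (8 * (r : ℤ)) (by positivity)
  obtain ⟨K, N, hN, hK, hX⟩ := k1 α hα z 0 (by positivity) hz1 hz2
  have hLow2 := k2 α hα
  have hrL : (r : ℤ) ≤ ⌊ρL * n⌋ := by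
    rw [← hr]
    exact Int.floor_le_floor (mul_le_mul_of_nonneg_right hρL' hn'.le)
  set E := envP P L g n α (ix n t₂) (ix n t₂') with hE
  have hEF : E.F = rf n P := rfl
  set v := gr n g (ix n t₂) with hv
  set v' := gr n g (ix n t₂') with hv'
  have hdisj : Disjoint (BR v r) (BR v' r) := ha n hn _ _ ea ea' r r (hle _ hρa) (hle _ hρa)
  have hgF : ∀ i R r : ℤ, 1 ≤ FF P g n i R r α := fun i R r => one_le_FF hα
  have hZ : 0 < E.Z := by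
    refine lt_of_lt_of_le ?_ hLow2
    have h3 := hgF (ix n t₂) ⌊ρL * n⌋ ⌊ρL * n⌋
    have h4 := hgF (ix n t₂') ⌊ρL * n⌋ ⌊ρL * n⌋
    have h5 : 0 < FF P g n (ix n t₂) ⌊ρL * n⌋ ⌊ρL * n⌋ α := by linarith
    have h6 : 0 < FF P g n (ix n t₂') ⌊ρL * n⌋ ⌊ρL * n⌋ α := by linarith
    positivity
  have hb1 : BR v ((r : ℤ) / 2) ⊆ h2 g n (ix n t₂) (ix n t₂') r ∪ BR z 0 :=
    Finset.subset_union_left.trans Finset.subset_union_left
  have hb2 : BR v' ((r : ℤ) / 2) ⊆ h2 g n (ix n t₂) (ix n t₂') r ∪ BR z 0 :=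
    Finset.subset_union_right.trans Finset.subset_union_left
  have hW : ∀ ω, |E.W ω| ≤ 1 * hPr P g n (ix n t₂) (ix n t₂') r α K ω := by
    intro ω
    have := hX ω ∅ (by simp)
    rwa [Finset.sdiff_empty, ← one_mul (hPr P g n (ix n t₂) (ix n t₂') r α K ω)] at this
  have hnum : ∀ ω a, |E.num ω a| ≤ 2 * (1 * hPr P g n (ix n t₂) (ix n t₂') r α K ω) := by
    intro ω a
    rw [one_mul]
    exact num_le (abs_cs_le _ _ _ _) (hX ω) a
  have hfin : av (rf n P) (fun _ => (1 : ℝ)) *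
      (FF P g n (ix n t₂) r r α * FF P g n (ix n t₂') r r α) ≤ 1 / c * E.Z := by
    have h3 : FF P g n (ix n t₂) r r α ≤ FF P g n (ix n t₂) ⌊ρL * n⌋ ⌊ρL * n⌋ α := FF_mono hα hrL hrL
    have h4 : FF P g n (ix n t₂') r r α ≤ FF P g n (ix n t₂') ⌊ρL * n⌋ ⌊ρL * n⌋ α := FF_mono hα hrL hrL
    have h5 := hgF (ix n t₂) r r
    have h6 := hgF (ix n t₂') r r
    have h7 : FF P g n (ix n t₂) r r α * FF P g n (ix n t₂') r r α ≤
        FF P g n (ix n t₂) ⌊ρL * n⌋ ⌊ρL * n⌋ α * FF P g n (ix n t₂') ⌊ρL * n⌋ ⌊ρL * n⌋ α :=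
      mul_le_mul h3 h4 (by linarith) (by linarith)
    rw [av_const, one_mul]
    refine h7.trans ?_
    rw [one_div, ← div_eq_inv_mul, le_div_iff₀ hc0, mul_comm]
    exact hLow2
  have hd0 : ∀ w : VZ, Disjoint (∅ : Finset (ℤ × ℤ)) (BR w r) := fun w => Finset.disjoint_empty_left _
  refine ⟨hZ, ?_, ?_⟩
  · exact ⟨_, hav P g n (ix n t₂) (ix n t₂') r α K N _ ∅ (fun _ => 1) E _ hα hEF
      (hm₂' n hn _ e2' r (by positivity) (hle _ hρ₂')) hdisj hN hK hb1 hb2 (Finset.empty_subset _)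
      (hd0 _) (hd0 _) (fun _ _ _ => rfl) (fun _ => zero_le_one) hW (fun ω a _ => hnum ω a) hfin⟩
  · refine ⟨_, hav P g n (ix n t₂') (ix n t₂) r α K N _ ∅ (fun _ => 1) E _ hα hEF
      (hm₂ n hn _ e2 r (by positivity) (hle _ hρ₂)) hdisj.symm hN hK hb2 hb1 (Finset.empty_subset _)
      (hd0 _) (hd0 _) (fun _ _ _ => rfl) (fun _ => zero_le_one) (fun ω => ?_) (fun ω a _ => ?_) ?_⟩
    · rw [hPr_comm]
      exact hW ω
    · rw [hPr_comm]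
      exact hnum ω a
    · rw [mul_comm (FF P g n (ix n t₂') r r α)]
      exact hfin

/-! ### Everything at one mark -/

/-- the data of `envX` (sides `k`, `k - 1`) and `envP` at the mark `c` (`c = j` or `c = j'`) -/
structure AtMark (P : Finset (ℤ × ℤ)) (L : ℕ) (g : ℤ → ℤ × ℤ) (n : ℕ) (α : ℝ) (i j j' l k c : ℤ)
    (κ : ZMod 4) (R : ℤ) (r : ℕ) (kh M : ℝ) : Prop where
  pot : HasPotQ ZQ (rf n P)
  flat : FlatZ (rf n P) κ (gr n g c) R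
  rR : (r : ℤ) < R
  fr : ∀ x, -R ≤ x → x ≤ R → gr n g (c + x) = fr κ (gr n g c) x 0
  locX : ∀ (b : ℕ) (hb : 2 ≤ b), (ldat pot flat hb rR).Loc (tau α) (envX P L g n α i j j' l k).W
  locX' : ∀ (b : ℕ) (hb : 2 ≤ b), (ldat pot flat hb rR).Loc (tau α) (envX P L g n α i j j' l (k - 1)).W
  locP : ∀ (b : ℕ) (hb : 2 ≤ b), (ldat pot flat hb rR).Loc (tau α) (envP P L g n α j j').W
  ZX : 0 < (envX P L g n α i j j' l k).Z
  ZX' : 0 < (envX P L g n α i j j' l (k - 1)).Z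
  ZP : 0 < (envP P L g n α j j').Z
  majX : ∃ H, MkAt (envX P L g n α i j j' l k) (PAz κ (gr n g c) R) (PBz κ (gr n g c) R) (gr n g c) r
    (tau α) kh (M * (envX P L g n α i j j' l k).Z) H
  majX' : ∃ H, MkAt (envX P L g n α i j j' l (k - 1)) (PAz κ (gr n g c) R) (PBz κ (gr n g c) R) (gr n g c) r
    (tau α) kh (M * (envX P L g n α i j j' l (k - 1)).Z) H
  majP : ∃ H, MkAt (envP P L g n α j j') (PAz κ (gr n g c) R) (PBz κ (gr n g c) R) (gr n g c) r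
    (tau α) kh (M * (envP P L g n α j j').Z) H

theorem MkAt.kh_mono {E : WEnv} {PA PB : UE → Prop} {v : VZ} {r₀ : ℕ} {t kh kh' A A' : ℝ} {H : Cfg → ℝ}
    (hM : MkAt E PA PB v r₀ t kh A H) (h : kh ≤ kh') (hA : A ≤ A') : MkAt E PA PB v r₀ t kh' A' H where
  kh0 := hM.kh0.trans h
  nn := hM.nn
  W := hM.W
  num := hM.num
  ex := by
    obtain ⟨h', Y, h1, h2, h3, h4, h5, h6, h7⟩ := hM.ex
    refine ⟨h', Y, h1, h2, h3, h4, h5, h6.trans ?_, h7.trans hA⟩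
    exact mul_le_mul_of_nonneg_right (pow_le_pow_left₀ hM.kh0 h 2) (av_nonneg fun _ _ => h1 _)

/-- from the walls of the contour to the walls of the frame -/
theorem MkAt.wall {E : WEnv} {n : ℕ} {g : ℤ → ℤ × ℤ} {c : ℤ} {κ : ZMod 4} {R : ℤ} {r : ℕ} {t kh A : ℝ}
    {H : Cfg → ℝ} (hF : FlatZ E.F κ (gr n g c) R) (hr : (r : ℤ) < R)
    (hfr : ∀ x, -R ≤ x → x ≤ R → gr n g (c + x) = Tilt.fr κ (gr n g c) x 0)
    (hM : MkAt E (MA n g c r) (MB n g c r) (gr n g c) r t kh A H) :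
    MkAt E (PAz κ (gr n g c) R) (PBz κ (gr n g c) R) (gr n g c) r t kh A H := by
  refine MkAt.congr (fun ω => ?_) hM
  rw [NA_cut hF hr.le, MA_eq (fun i h1 h2 => hfr i (by omega) (by omega)) (by positivity),
    MB_eq (fun i h1 h2 => hfr i (by omega) (by omega)) (by positivity)]

/-- the weights near the mark `a2` -/
theorem loc_all {P : Finset (ℤ × ℤ)} {L : ℕ} {g : ℤ → ℤ × ℤ} (hc : Cont P L g) {n : ℕ} (hn : 0 < n)
    {α : ℝ} {i j j' l k : ℤ} {κ : ZMod 4} {R : ℤ} {r : ℕ} (hr0 : 0 < r) (hG : Gaps (n * L) i j j' l (k - 1) r)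
    (hk : k + 1 ≤ i + (n * L : ℕ)) (hP : HasPotQ ZQ (rf n P)) {c : ℤ} (hcj : c = j ∨ c = j')
    (hF : FlatZ (rf n P) κ (gr n g c) R) (hr : (r : ℤ) < R)
    (hfr : ∀ x, -R ≤ x → x ≤ R → gr n g (c + x) = Tilt.fr κ (gr n g c) x 0) (b : ℕ) (hb : 2 ≤ b) :
    (ldat hP hF hb hr).Loc (tau α) (envX P L g n α i j j' l k).W ∧
    (ldat hP hF hb hr).Loc (tau α) (envX P L g n α i j j' l (k - 1)).W ∧
    (ldat hP hF hb hr).Loc (tau α) (envP P L g n α j j').W := by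
  have hcf := CARf.cont_rf hc hn
  have hM0 : 0 < n * L := hcf.pos
  have hr0' : (0 : ℤ) < r := by exact_mod_cast hr0
  have hG' : Gaps (n * L) i j j' l k r := by
    obtain ⟨h0, h1, h2, h3, h4, h5⟩ := hG
    exact ⟨h0, h1, h2, h3, by omega, hk⟩
  have hm : 2 * r ≤ n * L := by
    obtain ⟨h0, h1, h2, h3, h4, h5⟩ := hG
    have : (2 * r : ℤ) ≤ ((n * L : ℕ) : ℤ) := by omega
    exact_mod_cast this
  have hg : ∀ x, -R ≤ x → x ≤ R → gr n g (c + x) = Tilt.fr κ (gr n g c) x 0 := hfr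
  have hkey : ∀ J : ℤ → ℝ, (∀ x, J (x + (n * L : ℕ)) = J x) → csum J 0 (n * L : ℕ) = Real.pi / 3 →
      (∀ x, c - r < x → x < c + r → x ≠ c → J x = 0) →
      (J c = (1 - α) * (Real.pi / 3) ∨ J c = α * (Real.pi / 3)) →
      (ldat hP hF hb hr).Loc (tau α) (cenv (rf n P) (gr n g) (n * L) J).W := by
    intro J hJ h0 hz hJc
    have h1 := loc_cenv (b := b) hcf hJ h0 hP hF hb hr hg hm hz
    have h2 : Ht.tJ (J c) = tau α := by
      rcases hJc with h | h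
      · rw [h, tJ_one_sub]
      · rw [h]
        rfl
    rw [h2] at h1
    exact h1
  have hj : j < j' := by
    have := hG.h2
    omega
  have hj' : j' + r ≤ j + (n * L : ℕ) := by
    obtain ⟨h0, h1, h2, h3, h4, h5⟩ := hG
    omega
  have hj2 : j' < j + (n * L : ℕ) := by omega
  rcases hcj with rfl | rfl
  · refine ⟨hkey _ (jX_per _ _ _ _ _ _ _) (csum_jX hM0 _ _ _ _ _ _) (fun x h1 h2 h3 => jX_near hG' h1 h2 h3)
        (Or.inl (jX_j hG' hr0')), hkey _ (jX_per _ _ _ _ _ _ _) (csum_jX hM0 _ _ _ _ _ _)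
        (fun x h1 h2 h3 => jX_near hG h1 h2 h3) (Or.inl (jX_j hG hr0')),
        hkey _ (jP_per _ _ _ _) (csum_jP hM0 _ _ _) (fun x h1 h2 h3 => jP_near hG.h2 hj' h1 h2 h3)
        (Or.inl (jP_j hj hj2))⟩
  · refine ⟨hkey _ (jX_per _ _ _ _ _ _ _) (csum_jX hM0 _ _ _ _ _ _) (fun x h1 h2 h3 => jX_near' hG' h1 h2 h3)
        (Or.inr (jX_j' hG' hr0')), hkey _ (jX_per _ _ _ _ _ _ _) (csum_jX hM0 _ _ _ _ _ _)
        (fun x h1 h2 h3 => jX_near' hG h1 h2 h3) (Or.inr (jX_j' hG hr0')),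
        hkey _ (jP_per _ _ _ _) (csum_jP hM0 _ _ _) (fun x h1 h2 h3 => jP_near' hG.h2 hj' h1 h2 h3)
        (Or.inr (jP_j' hj hj2))⟩

/-- the gaps between the marks -/
theorem gaps_near {L : ℕ} {g : ℤ → ℤ × ℤ} {t₁ t₂ t₂' t₃ t₄ : ℝ} (hM : Marks5 L g t₁ t₂ t₂' t₃ t₄) :
    ∃ γ : ℝ, 0 < γ ∧ ∀ ρ : ℝ, 0 < ρ → ρ ≤ γ → ∀ᶠ p : ℕ × ℤ in lk t₄,
      0 < ⌊ρ * p.1⌋.toNat ∧
      Gaps (p.1 * L) (ix p.1 t₁) (ix p.1 t₂) (ix p.1 t₂') (ix p.1 t₃) (p.2 - 1) ⌊ρ * p.1⌋.toNat ∧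
      p.2 + 1 ≤ ix p.1 t₁ + (p.1 * L : ℕ) := by
  set γ := min (min (t₂ - t₁) (t₂' - t₂)) (min (t₃ - t₂') (min (t₄ - t₃) (t₁ + L - t₄))) / 4 with hγ
  have hγ0 : 0 < min (min (t₂ - t₁) (t₂' - t₂)) (min (t₃ - t₂') (min (t₄ - t₃) (t₁ + L - t₄))) := by
    obtain ⟨h1, h2, h3, h4, h5, -⟩ := hM
    simp only [lt_min_iff]
    refine ⟨⟨?_, ?_⟩, ?_, ?_, ?_⟩ <;> linarith
  have hle : 4 * γ ≤ min (min (t₂ - t₁) (t₂' - t₂)) (min (t₃ - t₂') (min (t₄ - t₃) (t₁ + L - t₄))) := by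
    rw [hγ]
    linarith
  simp only [le_min_iff] at hle
  obtain ⟨⟨g1, g2⟩, g3, g4, g5⟩ := hle
  have hγ1 : 0 < γ := by positivity
  refine ⟨γ, hγ1, fun ρ hρ hργ => ?_⟩
  filter_upwards [ix_near (lk_n t₄) t₁ hγ1, ix_near (lk_n t₄) t₂ hγ1, ix_near (lk_n t₄) t₂' hγ1,
    ix_near (lk_n t₄) t₃ hγ1, lk_near hγ1, lk_pos t₄ ⌈2 / ρ⌉₊] with p e1 e2 e3 e4 e5 hn1
  have hn2 : 2 / ρ < p.1 := (Nat.le_ceil _).trans_lt (by exact_mod_cast hn1)
  have hn' : (0 : ℝ) < p.1 := lt_trans (by positivity) hn2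
  have hρn : 2 < ρ * p.1 := by rwa [div_lt_iff₀' hρ] at hn2
  set n := p.1 with hnp
  obtain ⟨r, hr⟩ : ∃ r : ℕ, ⌊ρ * n⌋ = r := ⟨⌊ρ * n⌋.toNat, by
    have : 0 ≤ ⌊ρ * n⌋ := Int.floor_nonneg.2 (by positivity)
    omega⟩
  rw [hr, Int.toNat_natCast]
  have hr1 : (r : ℝ) ≤ ρ * n := by
    have := Int.floor_le (ρ * (n : ℝ))
    rw [hr] at this
    exact_mod_cast this
  have hr2 : ρ * n - 1 < r := by
    have := Int.sub_one_lt_floor (ρ * (n : ℝ))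
    rw [hr] at this
    exact_mod_cast this
  have hργn : ρ * n ≤ γ * n := mul_le_mul_of_nonneg_right hργ hn'.le
  have key : ∀ {x : ℤ} {t : ℝ}, |(x : ℝ) / n - t| < γ → (x : ℝ) < (t + γ) * n ∧ (t - γ) * n < x := by
    intro x t h
    rw [abs_lt] at h
    constructor
    · rw [← div_lt_iff₀ hn']
      linarith
    · rw [← lt_div_iff₀ hn']
      linarith
  obtain ⟨a1, b1⟩ := key e1
  obtain ⟨a2, b2⟩ := key e2
  obtain ⟨a3, b3⟩ := key e3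
  obtain ⟨a4, b4⟩ := key e4
  obtain ⟨a5, b5⟩ := key e5
  have c1 : (t₁ + 4 * γ) * n ≤ t₂ * n := mul_le_mul_of_nonneg_right (by linarith) hn'.le
  have c2 : (t₂ + 4 * γ) * n ≤ t₂' * n := mul_le_mul_of_nonneg_right (by linarith) hn'.le
  have c3 : (t₂' + 4 * γ) * n ≤ t₃ * n := mul_le_mul_of_nonneg_right (by linarith) hn'.le
  have c4 : (t₃ + 4 * γ) * n ≤ t₄ * n := mul_le_mul_of_nonneg_right (by linarith) hn'.le
  have c5 : (t₄ + 4 * γ) * n ≤ (t₁ + L) * n := mul_le_mul_of_nonneg_right (by linarith) hn'.le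
  have hrp : 0 < r := by
    have : (0 : ℝ) < r := by linarith
    exact_mod_cast this
  refine ⟨hrp, ⟨by positivity, ?_, ?_, ?_, ?_, ?_⟩, ?_⟩
  · have : ((ix n t₁ + r : ℤ) : ℝ) ≤ ix n t₂ := by
      push_cast
      nlinarith
    exact_mod_cast this
  · have : ((ix n t₂ + r : ℤ) : ℝ) ≤ ix n t₂' := by
      push_cast
      nlinarith
    exact_mod_cast this
  · have : ((ix n t₂' + r : ℤ) : ℝ) ≤ ix n t₃ := by
      push_cast
      nlinarith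
    exact_mod_cast this
  · have : ((ix n t₃ : ℤ) : ℝ) ≤ ((p.2 - 1 : ℤ) : ℝ) := by
      push_cast
      nlinarith
    exact_mod_cast this
  · have : ((p.2 - 1 + 1 : ℤ) : ℝ) ≤ ((ix n t₁ + (n * L : ℕ) : ℤ) : ℝ) := by
      push_cast
      nlinarith
    exact_mod_cast this
  · have : ((p.2 + 1 : ℤ) : ℝ) ≤ ((ix n t₁ + (n * L : ℕ) : ℤ) : ℝ) := by
      push_cast
      nlinarith
    exact_mod_cast this

/-- **All data of the environments at the two marks.** -/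
theorem atMark (hDX : DetX) (hDP : DetP) {P : Finset (ℤ × ℤ)} {L : ℕ} {g : ℤ → ℤ × ℤ} (hP : MPoly P)
    (hc : Cont P L g) {t₁ t₂ t₂' t₃ t₄ : ℝ} (hM : Marks5 L g t₁ t₂ t₂' t₃ t₄) :
    ∃ κ κ' : ZMod 4, ∃ ρ₀ δ : ℝ, 0 < ρ₀ ∧ 0 < δ ∧ ∀ ρ : ℝ, 0 < ρ → ρ ≤ ρ₀ →
      ∃ kh M : ℝ, 0 < kh ∧ 0 < M ∧ ∀ᶠ p : ℕ × ℤ in lk t₄, ∀ α ∈ Set.Icc (0 : ℝ) 1,
        AtMark P L g p.1 α (ix p.1 t₁) (ix p.1 t₂) (ix p.1 t₂') (ix p.1 t₃) p.2 (ix p.1 t₂) κ ⌊δ * p.1⌋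
          ⌊ρ * p.1⌋.toNat kh M ∧
        AtMark P L g p.1 α (ix p.1 t₁) (ix p.1 t₂) (ix p.1 t₂') (ix p.1 t₃) p.2 (ix p.1 t₂') κ' ⌊δ * p.1⌋
          ⌊ρ * p.1⌋.toNat kh M := by
  obtain ⟨κ, δ₂, hδ₂, hflat⟩ := flat_near hc hM.f2
  obtain ⟨κ', δ₂', hδ₂', hflat'⟩ := flat_near hc hM.f2'
  obtain ⟨γ, hγ, hgap⟩ := gaps_near hM
  obtain ⟨ρ₁, hρ₁, hX⟩ := mkX hDX P L g hP hc hM
  obtain ⟨ρ₂, hρ₂, hPP⟩ := mkP hDP P L g hP hc hM.h2
    (by linarith [hM.h1, hM.h3, hM.h4, hM.h5]) hM.f2 hM.f2'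
  set δ := min δ₂ δ₂' with hδ
  have hδ0 : 0 < δ := by positivity
  refine ⟨κ, κ', min (min γ (δ / 2)) (min ρ₁ ρ₂), δ, by positivity, hδ0, fun ρ hρ hρ' => ?_⟩
  simp only [le_min_iff] at hρ'
  obtain ⟨⟨hργ, hρδ⟩, hρ1, hρ2⟩ := hρ'
  obtain ⟨kh₁, M₁, hkh₁, hM₁, k1⟩ := hX ρ hρ hρ1
  obtain ⟨kh₂, M₂, hkh₂, hM₂, k2⟩ := hPP ρ hρ hρ2
  refine ⟨max kh₁ kh₂, max M₁ M₂, by positivity, by positivity, ?_⟩
  filter_upwards [k1, (lk_pred t₄).eventually k1, (lk_n t₄).eventually k2, hgap ρ hρ hργ,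
    ix_near (lk_n t₄) t₂ hδ₂, ix_near (lk_n t₄) t₂' hδ₂', lk_pos t₄ ⌈2 / δ⌉₊] with
    p x1 x2 x3 hG e2 e2' hn1
  intro α hα
  obtain ⟨hr0, hG, hk⟩ := hG
  have hn2 : 2 / δ < p.1 := (Nat.le_ceil _).trans_lt (by exact_mod_cast hn1)
  have hn' : (0 : ℝ) < p.1 := lt_trans (by positivity) hn2
  have hn : 0 < p.1 := by exact_mod_cast hn'
  have hδn : 2 < δ * p.1 := by rwa [div_lt_iff₀' hδ0] at hn2
  obtain ⟨zX, ⟨H1, y1⟩, ⟨H1', y1'⟩⟩ := x1 α hα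
  obtain ⟨zX', ⟨H2, y2⟩, ⟨H2', y2'⟩⟩ := x2 α hα
  obtain ⟨zP, ⟨H3, y3⟩, ⟨H3', y3'⟩⟩ := x3 α hα
  set R : ℤ := ⌊δ * p.1⌋ with hR
  have hR0 : 0 ≤ R := Int.floor_nonneg.2 (by positivity)
  have hR1 : (R : ℝ) ≤ δ * p.1 := Int.floor_le _
  have hrR : (⌊ρ * p.1⌋.toNat : ℤ) < R := by
    have h0 : 0 ≤ ⌊ρ * (p.1 : ℝ)⌋ := Int.floor_nonneg.2 (by positivity)
    rw [Int.toNat_of_nonneg h0]
    have h1 : (⌊ρ * (p.1 : ℝ)⌋ : ℝ) ≤ ρ * p.1 := Int.floor_le _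
    have h2 : δ * p.1 - 1 < R := Int.sub_one_lt_floor _
    have h3 : ρ * p.1 ≤ δ / 2 * p.1 := mul_le_mul_of_nonneg_right hρδ hn'.le
    have : (⌊ρ * (p.1 : ℝ)⌋ : ℝ) < R := by linarith
    exact_mod_cast this
  obtain ⟨hF, hfr⟩ := hflat p.1 hn _ e2 R hR0
    (hR1.trans (mul_le_mul_of_nonneg_right (min_le_left _ _) hn'.le))
  obtain ⟨hF', hfr'⟩ := hflat' p.1 hn _ e2' R hR0
    (hR1.trans (mul_le_mul_of_nonneg_right (min_le_right _ _) hn'.le))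
  have hpot : HasPotQ ZQ (rf p.1 P) := (CARf.mpoly_rf hP hn).potQ
  have hMX : ∀ x : ℝ, 0 < x → M₁ * x ≤ max M₁ M₂ * x := fun x hx =>
    mul_le_mul_of_nonneg_right (le_max_left _ _) hx.le
  have hMP : ∀ x : ℝ, 0 < x → M₂ * x ≤ max M₁ M₂ * x := fun x hx =>
    mul_le_mul_of_nonneg_right (le_max_right _ _) hx.le
  constructor
  · exact
      { pot := hpot
        flat := hF
        rR := hrR
        fr := hfr
        locX := fun b hb => (loc_all hc hn hr0 hG hk hpot (Or.inl rfl) hF hrR hfr b hb).1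
        locX' := fun b hb => (loc_all hc hn hr0 hG hk hpot (Or.inl rfl) hF hrR hfr b hb).2.1
        locP := fun b hb => (loc_all (k := p.2) hc hn hr0 hG hk hpot (Or.inl rfl) hF hrR hfr b hb).2.2
        ZX := zX
        ZX' := zX'
        ZP := zP
        majX := ⟨H1, (y1.wall hF hrR hfr).kh_mono (le_max_left _ _) (hMX _ zX)⟩
        majX' := ⟨H2, (y2.wall hF hrR hfr).kh_mono (le_max_left _ _) (hMX _ zX')⟩
        majP := ⟨H3, (y3.wall hF hrR hfr).kh_mono (le_max_right _ _) (hMP _ zP)⟩ }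
  · exact
      { pot := hpot
        flat := hF'
        rR := hrR
        fr := hfr'
        locX := fun b hb => (loc_all hc hn hr0 hG hk hpot (Or.inr rfl) hF' hrR hfr' b hb).1
        locX' := fun b hb => (loc_all hc hn hr0 hG hk hpot (Or.inr rfl) hF' hrR hfr' b hb).2.1
        locP := fun b hb => (loc_all (k := p.2) hc hn hr0 hG hk hpot (Or.inr rfl) hF' hrR hfr' b hb).2.2
        ZX := zX
        ZX' := zX'
        ZP := zP
        majX := ⟨H1', (y1'.wall hF' hrR hfr').kh_mono (le_max_left _ _) (hMX _ zX)⟩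
        majX' := ⟨H2', (y2'.wall hF' hrR hfr').kh_mono (le_max_left _ _) (hMX _ zX')⟩
        majP := ⟨H3', (y3'.wall hF' hrR hfr').kh_mono (le_max_right _ _) (hMP _ zP)⟩ }

end

end Pool.Agent.SixB.LI
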