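import Pool.Agent.Lib.SixB.S6LDec

/-!
# SixB, input L: decoupling near a mark, abstract form, part 4: conclusion

`osc_le`: the oscillation of the mean of an observable of depth `m0` over all states of level at most `j` is at most
`K th ^ (m0 - j)`. `decouple`: the same for signed environments. The constants depend only on `T, m, eta, ka, CM`.
-/

set_option autoImplicit false
set_option linter.unusedVariables false

namespace Pool.Agent.SixB

open Finset

universe u v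

private theorem abs_E_le_fin {Ω ι : Type*} (P : ExpSys Ω ι) {f g : Ω → ℝ} (h : ∀ ω, |f ω| ≤ g ω) :
    |P.E f| ≤ P.E g := by
  rw [abs_le]
  constructor
  · rw [← P.E_neg]
    exact P.mono _ _ fun ω => by linarith [neg_abs_le (f ω), h ω]
  · exact P.mono _ _ fun ω => (le_abs_self _).trans (h ω)

namespace LSys

variable {Ω ι : Type*} {P : ExpSys Ω ι} {S : LSys P}
variable {t T : ℝ} {m : ℕ} {dz eta ka CM : ℝ}

/-- the means of the observable in the states of level at most `l` -/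
def RR (S : LSys P) (t : ℝ) (f : Ω → ℝ) (l : ℕ) : Set ℝ :=
  {x | ∃ k h, k ≤ l ∧ S.Lev k h ∧ 0 < S.ms t k h ∧
    x = P.E (fun ω => h ω * S.V t k ω * f ω) / S.ms t k h}

/-- the largest mean -/
noncomputable def VV (S : LSys P) (t : ℝ) (f : Ω → ℝ) (l : ℕ) : ℝ := sSup (S.RR t f l)

theorem cO_nonneg (hG : S.Good t T m dz eta ka CM) : 0 ≤ cO T m ka CM eta := by
  have h1 := cA_ge hG
  have h2 := hG.CM1
  have h3 := hG.eta1
  unfold cO
  have : 0 < 1 - eta := by linarith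
  positivity

theorem abs_mean_le (hG : S.Good t T m dz eta ka CM) {m0 : ℕ} {f f0 : Ω → ℝ} (hf : S.Obs m0 f f0)
    {k : ℕ} (hk : k ≤ m0) {h : Ω → ℝ} (hh : S.Lev k h) :
    P.E (fun ω => h ω * S.V t k ω * |f ω|) ≤ cO T m ka CM eta * S.ms t k h := by
  have h1 := tail_obs hG hf hk le_rfl hh
  rw [Nat.sub_self] at h1
  simp only [pow_zero, mul_one] at h1
  unfold cO
  refine le_trans (P.mono _ _ fun ω => ?_) h1
  rw [bd_zero, one_mul]
  exact mul_le_mul_of_nonneg_left (hf.le ω) (mul_nonneg (hh.nn ω) (V_nonneg hG.ht k ω))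

theorem mean_le (hG : S.Good t T m dz eta ka CM) {m0 : ℕ} {f f0 : Ω → ℝ} (hf : S.Obs m0 f f0)
    {k : ℕ} (hk : k ≤ m0) {h : Ω → ℝ} (hh : S.Lev k h) :
    P.E (fun ω => h ω * S.V t k ω * f ω) ≤ cO T m ka CM eta * S.ms t k h := by
  refine le_trans (P.mono _ _ fun ω => ?_) (abs_mean_le hG hf hk hh)
  exact mul_le_mul_of_nonneg_left (le_abs_self _) (mul_nonneg (hh.nn ω) (V_nonneg hG.ht k ω))

theorem RR_bdd (hG : S.Good t T m dz eta ka CM) {m0 : ℕ} {f f0 : Ω → ℝ} (hf : S.Obs m0 f f0)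
    {l : ℕ} (hl : l ≤ m0) : ∀ x ∈ S.RR t f l, x ≤ cO T m ka CM eta := by
  rintro x ⟨k, h, hk, hh, hpos, rfl⟩
  rw [div_le_iff₀ hpos]
  exact mean_le hG hf (hk.trans hl) hh

theorem RR_bddAbove (hG : S.Good t T m dz eta ka CM) {m0 : ℕ} {f f0 : Ω → ℝ} (hf : S.Obs m0 f f0)
    {l : ℕ} (hl : l ≤ m0) : BddAbove (S.RR t f l) := ⟨_, RR_bdd hG hf hl⟩

/-- reference value of the level `i` -/
theorem yb_mem (hG : S.Good t T m dz eta ka CM) (f : Ω → ℝ) {i l : ℕ} (hi : i ≤ l) :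
    S.yb t i f ∈ S.RR t f l :=
  ⟨i, gi (S.G i), hi, lev_gi i, zet_pos hG i, rfl⟩

theorem RR_nonempty (hG : S.Good t T m dz eta ka CM) (f : Ω → ℝ) (l : ℕ) :
    (S.RR t f l).Nonempty := ⟨_, yb_mem hG f (Nat.zero_le l)⟩

theorem VV_le (hG : S.Good t T m dz eta ka CM) {m0 : ℕ} {f f0 : Ω → ℝ} (hf : S.Obs m0 f f0)
    {l : ℕ} (hl : l ≤ m0) : S.VV t f l ≤ cO T m ka CM eta :=
  csSup_le (RR_nonempty hG f l) (RR_bdd hG hf hl)

theorem VV_mono (hG : S.Good t T m dz eta ka CM) {m0 : ℕ} {f f0 : Ω → ℝ} (hf : S.Obs m0 f f0)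
    {l l' : ℕ} (hll : l ≤ l') (hl : l' ≤ m0) : S.VV t f l ≤ S.VV t f l' := by
  refine csSup_le_csSup (RR_bddAbove hG hf hl) (RR_nonempty hG f l) ?_
  rintro x ⟨k, h, hk, hh, hpos, rfl⟩
  exact ⟨k, h, hk.trans hll, hh, hpos, rfl⟩

theorem mean_le_VV (hG : S.Good t T m dz eta ka CM) {m0 : ℕ} {f f0 : Ω → ℝ} (hf : S.Obs m0 f f0)
    {k l : ℕ} (hkl : k ≤ l) (hl : l ≤ m0) {h : Ω → ℝ} (hh : S.Lev k h) :
    P.E (fun ω => h ω * S.V t k ω * f ω) ≤ S.VV t f l * S.ms t k h := by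
  rcases (ms_nonneg hG.ht hh).eq_or_lt with h0 | hpos
  · have h1 := mean_le hG hf (hkl.trans hl) hh
    rw [← h0, mul_zero] at h1 ⊢
    exact h1
  · rw [← div_le_iff₀ hpos]
    exact le_csSup (RR_bddAbove hG hf hl) ⟨k, h, hkl, hh, hpos, rfl⟩

theorem yb_neg (j : ℕ) (f : Ω → ℝ) : S.yb t j (fun ω => - f ω) = - S.yb t j f := by
  unfold yb
  rw [← neg_div, ← P.E_neg]
  congr 2
  funext ω
  ring

theorem yb_le_VV (hG : S.Good t T m dz eta ka CM) {m0 : ℕ} {f f0 : Ω → ℝ} (hf : S.Obs m0 f f0)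
    {i l : ℕ} (hi : i ≤ l) (hl : l ≤ m0) : S.yb t i f ≤ S.VV t f l :=
  le_csSup (RR_bddAbove hG hf hl) (yb_mem hG f hi)

theorem abs_yb_le (hG : S.Good t T m dz eta ka CM) {m0 : ℕ} {f f0 : Ω → ℝ} (hf : S.Obs m0 f f0)
    {i : ℕ} (hi : i ≤ m0) : |S.yb t i f| ≤ cO T m ka CM eta := by
  rw [abs_le]
  constructor
  · have h1 := RR_bdd hG hf.neg hi _ (yb_mem hG _ le_rfl)
    rw [yb_neg] at h1
    linarith
  · exact RR_bdd hG hf hi _ (yb_mem hG _ le_rfl)

theorem one_le_cT (hG : S.Good t T m dz eta ka CM) : 1 ≤ cT T m ka eta := by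
  have h1 := cA_ge hG
  have h3 := hG.eta1
  have h4 := hG.eta0
  unfold cT
  rw [le_div_iff₀ (by linarith)]
  linarith

/-- sum of the masses of the first good levels -/
theorem sum_mu (hG : S.Good t T m dz eta ka CM) {k j : ℕ} (hkj : k ≤ j) (r : ℕ) {h : Ω → ℝ}
    (hh : S.Lev k h) : ∑ i ∈ range r, S.mu t k j i h ≤ S.ms t k h ∧
      S.ms t k h - ∑ i ∈ range r, S.mu t k j i h ≤ cT T m ka eta * eta ^ r * S.ms t k h := by
  have h1 := decomp (S := S) (t := t) (k := k) j r h (fun _ => 1)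
  simp only [mul_one] at h1
  have h2 : ∑ i ∈ range r, S.mu t k j i h = ∑ i ∈ range r,
      P.E (fun ω => h ω * S.V t k ω * (S.bd j i ω * gi (S.G (j + 1 + i)) ω)) := rfl
  have h3 : S.ms t k h = P.E (fun ω => h ω * S.V t k ω) := rfl
  have h4 := tail_le hG hkj r hh
  have h5 : 0 ≤ P.E (fun ω => h ω * S.V t k ω * S.bd j r ω) := P.E_nonneg fun ω =>
    mul_nonneg (mul_nonneg (hh.nn ω) (V_nonneg hG.ht k ω)) (bd_nonneg _ _ _)
  constructor
  · linarith
  · unfold cT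
    linarith

/-- one step, in terms of the suprema -/
theorem step_VV (hG : S.Good t T m dz eta ka CM) {n0 : ℕ} (hn0 : 1 ≤ n0)
    (hn : cA T m ka / (1 - eta) * eta ^ n0 ≤ 1 / 2) {m0 : ℕ} {f f0 : Ω → ℝ}
    (hf : S.Obs m0 f f0) {j n1 : ℕ} (hn1 : 1 ≤ n1) (hj : j + n1 ≤ m0) :
    S.VV t f j - S.yb t (j + 1) f ≤ (1 - dl T m ka CM n0) * (S.VV t f (j + n1) - S.yb t (j + 1) f) +
      cT T m ka eta * ∑ n ∈ Ico (n1 + 1) (m0 - j + 1),
        eta ^ (n - 1) * (S.VV t f (j + n) - S.yb t (j + 1) f) +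
      cO T m ka CM eta * (1 + cT T m ka eta) * eta ^ (m0 - j) := by
  have ht := hG.ht
  have heta0 := hG.eta0
  set y := S.yb t (j + 1) f with hy
  set δ := dl T m ka CM n0 with hδ
  rw [sub_le_iff_le_add]
  refine csSup_le (RR_nonempty hG f j) ?_
  rintro x ⟨k, h, hkj, hh, hpos, rfl⟩
  set Z := S.ms t k h with hZ
  rw [div_le_iff₀ hpos]
  obtain ⟨h1, h2⟩ := one_step hG hn0 hn hf hkj (show j < m0 by omega) (vv := fun l => S.VV t f l)
    (fun l hl hlm g hg => mean_le_VV hG hf le_rfl hlm hg) hh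
  obtain ⟨h3, h4⟩ := sum_mu hG hkj (m0 - j) hh
  have hcO := cO_nonneg hG
  have hyb : |y| ≤ cO T m ka CM eta := abs_yb_le hG hf (by omega)
  have hv : ∀ l, j + 1 ≤ l → l ≤ m0 → 0 ≤ S.VV t f l - y := fun l hl hlm =>
    sub_nonneg.2 (yb_le_VV hG hf hl hlm)
  have hmu : ∀ i, 0 ≤ S.mu t k j i h := fun i => mu_nonneg ht hh j i
  -- the sum relative to y
  have e1 : ∑ i ∈ range (m0 - j), S.mu t k j i h * S.VV t f (j + 1 + i) =
      ∑ i ∈ range (m0 - j), S.mu t k j i h * (S.VV t f (j + 1 + i) - y) +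
        (∑ i ∈ range (m0 - j), S.mu t k j i h) * y := by
    rw [Finset.sum_mul, ← Finset.sum_add_distrib]
    refine Finset.sum_congr rfl fun i _ => ?_
    ring
  have e2 : ∑ i ∈ range (m0 - j), S.mu t k j i h * (S.VV t f (j + 1 + i) - y) =
      ∑ i ∈ range n1, S.mu t k j i h * (S.VV t f (j + 1 + i) - y) +
      ∑ i ∈ Ico n1 (m0 - j), S.mu t k j i h * (S.VV t f (j + 1 + i) - y) :=
    (Finset.sum_range_add_sum_Ico _ (by omega)).symm
  -- the first part
  have h5 : ∑ i ∈ range n1, S.mu t k j i h * (S.VV t f (j + 1 + i) - y) -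
      δ * Z * (S.VV t f (j + 1) - y) ≤ (1 - δ) * Z * (S.VV t f (j + n1) - y) := by
    obtain ⟨n, rfl⟩ : ∃ n, n1 = n + 1 := ⟨n1 - 1, by omega⟩
    rw [Finset.sum_range_succ']
    have h6 : ∑ i ∈ range n, S.mu t k j (i + 1) h * (S.VV t f (j + 1 + (i + 1)) - y) ≤
        ∑ i ∈ range n, S.mu t k j (i + 1) h * (S.VV t f (j + (n + 1)) - y) := by
      refine Finset.sum_le_sum fun i hi => ?_
      rw [Finset.mem_range] at hi
      exact mul_le_mul_of_nonneg_left
        (sub_le_sub_right (VV_mono hG hf (by omega) hj) _) (hmu _)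
    have h7 : (S.mu t k j 0 h - δ * Z) * (S.VV t f (j + 1) - y) ≤
        (S.mu t k j 0 h - δ * Z) * (S.VV t f (j + (n + 1)) - y) :=
      mul_le_mul_of_nonneg_left (sub_le_sub_right (VV_mono hG hf (by omega) hj) _)
        (sub_nonneg.2 h1)
    have h8 : ∑ i ∈ range n, S.mu t k j (i + 1) h + S.mu t k j 0 h ≤ Z := by
      rw [← Finset.sum_range_succ' (fun i => S.mu t k j i h) n]
      refine le_trans ?_ h3
      exact Finset.sum_le_sum_of_subset_of_nonneg (Finset.range_subset_range.2 (by omega))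
        fun i _ _ => hmu i
    have h9 := hv (j + (n + 1)) (by omega) hj
    rw [Nat.add_zero]
    calc _ = ∑ i ∈ range n, S.mu t k j (i + 1) h * (S.VV t f (j + 1 + (i + 1)) - y) +
          (S.mu t k j 0 h - δ * Z) * (S.VV t f (j + 1) - y) := by ring
      _ ≤ ∑ i ∈ range n, S.mu t k j (i + 1) h * (S.VV t f (j + (n + 1)) - y) +
          (S.mu t k j 0 h - δ * Z) * (S.VV t f (j + (n + 1)) - y) := add_le_add h6 h7
      _ = (∑ i ∈ range n, S.mu t k j (i + 1) h + S.mu t k j 0 h - δ * Z) *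
          (S.VV t f (j + (n + 1)) - y) := by
        rw [← Finset.sum_mul]
        ring
      _ ≤ (1 - δ) * Z * (S.VV t f (j + (n + 1)) - y) :=
        mul_le_mul_of_nonneg_right (by linarith) h9
  -- the second part
  have h10 : ∑ i ∈ Ico n1 (m0 - j), S.mu t k j i h * (S.VV t f (j + 1 + i) - y) ≤
      (cT T m ka eta * ∑ n ∈ Ico (n1 + 1) (m0 - j + 1),
        eta ^ (n - 1) * (S.VV t f (j + n) - y)) * Z := by
    have e3 : ∑ n ∈ Ico (n1 + 1) (m0 - j + 1), eta ^ (n - 1) * (S.VV t f (j + n) - y) =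
        ∑ i ∈ Ico n1 (m0 - j), eta ^ i * (S.VV t f (j + 1 + i) - y) := by
      rw [← Finset.sum_Ico_add' (fun n => eta ^ (n - 1) * (S.VV t f (j + n) - y)) n1 (m0 - j) 1]
      refine Finset.sum_congr rfl fun i _ => ?_
      rw [Nat.add_sub_cancel, show j + (i + 1) = j + 1 + i by ring]
    rw [e3, Finset.mul_sum, Finset.sum_mul]
    refine Finset.sum_le_sum fun i hi => ?_
    rw [Finset.mem_Ico] at hi
    have h11 := mu_le hG hkj i hh
    have h12 := hv (j + 1 + i) (by omega) (by omega)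
    calc _ ≤ cA T m ka / (1 - eta) * eta ^ i * Z * (S.VV t f (j + 1 + i) - y) :=
          mul_le_mul_of_nonneg_right h11 h12
      _ = _ := by
        unfold cT
        ring
  -- the rest
  have h13 : -((Z - ∑ i ∈ range (m0 - j), S.mu t k j i h) * y) ≤
      cT T m ka eta * eta ^ (m0 - j) * Z * cO T m ka CM eta := by
    have h14 : 0 ≤ Z - ∑ i ∈ range (m0 - j), S.mu t k j i h := by linarith
    have h15 : -y ≤ cO T m ka CM eta := by
      have := neg_abs_le y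
      linarith
    calc _ = (Z - ∑ i ∈ range (m0 - j), S.mu t k j i h) * (-y) := by ring
      _ ≤ (Z - ∑ i ∈ range (m0 - j), S.mu t k j i h) * cO T m ka CM eta :=
        mul_le_mul_of_nonneg_left h15 h14
      _ ≤ _ := mul_le_mul_of_nonneg_right h4 hcO
  have h16 : P.E (fun ω => h ω * S.V t k ω * f ω) ≤ δ * Z * y +
      (∑ i ∈ range (m0 - j), S.mu t k j i h * S.VV t f (j + 1 + i) -
        δ * Z * S.VV t f (j + 1)) + cO T m ka CM eta * eta ^ (m0 - j) * Z := h2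
  rw [e1, e2] at h16
  calc _ ≤ _ := h16
    _ = (∑ i ∈ range n1, S.mu t k j i h * (S.VV t f (j + 1 + i) - y) -
        δ * Z * (S.VV t f (j + 1) - y)) +
        ∑ i ∈ Ico n1 (m0 - j), S.mu t k j i h * (S.VV t f (j + 1 + i) - y) +
        -((Z - ∑ i ∈ range (m0 - j), S.mu t k j i h) * y) +
        cO T m ka CM eta * eta ^ (m0 - j) * Z + y * Z := by ring
    _ ≤ (1 - δ) * Z * (S.VV t f (j + n1) - y) +
        (cT T m ka eta * ∑ n ∈ Ico (n1 + 1) (m0 - j + 1),
          eta ^ (n - 1) * (S.VV t f (j + n) - y)) * Z +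
        cT T m ka eta * eta ^ (m0 - j) * Z * cO T m ka CM eta +
        cO T m ka CM eta * eta ^ (m0 - j) * Z + y * Z := by linarith
    _ = _ := by ring

theorem dl_pos (hG : S.Good t T m dz eta ka CM) {n0 : ℕ} (hn0 : 1 ≤ n0) :
    0 < dl T m ka CM n0 := by
  have h1 := d1_pos hG
  have h2 : (0 : ℝ) < n0 := by exact_mod_cast hn0
  unfold dl
  positivity

theorem dl_le (hG : S.Good t T m dz eta ka CM) {n0 : ℕ} (hn0 : 1 ≤ n0) :
    dl T m ka CM n0 ≤ 1 := by
  have h1 := d1_pos hG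
  have h3 := d1_le hG
  have h2 : (1 : ℝ) ≤ n0 := by exact_mod_cast hn0
  unfold dl
  have h4 : d1 T m ka CM ^ n0 ≤ 1 := pow_le_one₀ h1.le h3
  have h5 : d1 T m ka CM ^ n0 / (2 * n0) ≤ 1 := by
    rw [div_le_one (by linarith)]
    linarith
  exact mul_le_one₀ h3 (by positivity) h5

end LSys

/-- choice of `n0` -/
theorem exists_n0 (c eta : ℝ) (h0 : 0 < eta) (h1 : eta < 1) :
    ∃ n0 : ℕ, 1 ≤ n0 ∧ c * eta ^ n0 ≤ 1 / 2 := by
  obtain ⟨n, hn⟩ := exists_pow_lt_of_lt_one (show (0 : ℝ) < 1 / 2 / (|c| + 1) by positivity) h1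
  refine ⟨n + 1, by omega, ?_⟩
  have h2 : eta ^ (n + 1) ≤ eta ^ n := pow_le_pow_of_le_one h0.le h1.le (Nat.le_succ n)
  have h3 : 0 ≤ eta ^ (n + 1) := by positivity
  calc c * eta ^ (n + 1) ≤ |c| * eta ^ (n + 1) := mul_le_mul_of_nonneg_right (le_abs_self c) h3
    _ ≤ (|c| + 1) * eta ^ (n + 1) := by nlinarith
    _ ≤ (|c| + 1) * (1 / 2 / (|c| + 1)) :=
      mul_le_mul_of_nonneg_left (h2.trans hn.le) (by positivity)
    _ = 1 / 2 := by field_simp

namespace LSys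

/-- OSCILLATION: all states of level at most `j` give the same mean of an observable of depth `m0`, up to
`K th ^ (m0 - j)`. -/
theorem osc_le (T : ℝ) (m : ℕ) (eta ka CM : ℝ) (heta0 : 0 < eta) (heta1 : eta < 1) :
    ∃ K th : ℝ, 0 ≤ K ∧ eta < th ∧ th < 1 ∧ ∀ {Ω : Type u} {ι : Type v} {P : ExpSys Ω ι}
      {S : LSys P} {t dz : ℝ} (_ : S.Good t T m dz eta ka CM) {m0 : ℕ} {f f0 : Ω → ℝ} (_ : S.Obs m0 f f0)
      (j : ℕ), j ≤ m0 → S.VV t f j + S.VV t (fun ω => - f ω) j ≤ K * th ^ (m0 - j) := by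
  obtain ⟨n0, hn0, hn⟩ := exists_n0 (cA T m ka / (1 - eta)) eta heta0 heta1
  by_cases hex : 0 < dl T m ka CM n0 ∧ dl T m ka CM n0 ≤ 1 ∧ 0 ≤ cT T m ka eta ∧
      0 ≤ cO T m ka CM eta
  · obtain ⟨hd0, hd1, hcT, hcO⟩ := hex
    obtain ⟨n1, K, th, hn1, hK, h1, h2, h3⟩ := seq_contract (dl T m ka CM n0) eta
      (cT T m ka eta) (2 * (cO T m ka CM eta * (1 + cT T m ka eta))) (2 * cO T m ka CM eta)
      hd0 hd1 heta0 heta1 hcT (by positivity) (by positivity)
    refine ⟨K, th, hK, h1, h2, ?_⟩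
    intro Ω ι P S t dz hG m0 f f0 hf j hj
    refine h3 m0 (fun l => S.VV t f l + S.VV t (fun ω => - f ω) l) ?_ ?_ j hj
    · intro i hi
      have h4 := VV_le hG hf hi
      have h5 := VV_le hG hf.neg hi
      show S.VV t f i + S.VV t (fun ω => - f ω) i ≤ _
      linarith
    · intro i hi
      have h4 := step_VV hG hn0 hn hf hn1 hi
      have h5 := step_VV hG hn0 hn hf.neg hn1 hi
      rw [yb_neg] at h5
      show S.VV t f i + S.VV t (fun ω => - f ω) i ≤ _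
      have e1 : ∑ n ∈ Ico (n1 + 1) (m0 - i + 1), eta ^ (n - 1) *
          (S.VV t f (i + n) + S.VV t (fun ω => - f ω) (i + n)) =
          ∑ n ∈ Ico (n1 + 1) (m0 - i + 1), eta ^ (n - 1) *
            (S.VV t f (i + n) - S.yb t (i + 1) f) +
          ∑ n ∈ Ico (n1 + 1) (m0 - i + 1), eta ^ (n - 1) *
            (S.VV t (fun ω => - f ω) (i + n) - - S.yb t (i + 1) f) := by
        rw [← Finset.sum_add_distrib]
        refine Finset.sum_congr rfl fun n _ => ?_
        ring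
      rw [e1]
      linarith
  · refine ⟨0, (eta + 1) / 2, le_rfl, by linarith, by linarith, ?_⟩
    intro Ω ι P S t dz hG m0 f f0 hf j hj
    exact absurd ⟨dl_pos hG hn0, dl_le hG hn0, by linarith [one_le_cT hG], cO_nonneg hG⟩ hex

variable {Ω ι : Type*} {P : ExpSys Ω ι} {S : LSys P}
variable {t T : ℝ} {m : ℕ} {dz eta ka CM : ℝ}

/-- no good level among `0, ..., s - 1` -/
noncomputable def b0 (S : LSys P) (s : ℕ) (ω : Ω) : ℝ := ∏ i ∈ range s, (1 - gi (S.G i) ω)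

theorem b0_nonneg (s : ℕ) (ω : Ω) : 0 ≤ S.b0 s ω :=
  Finset.prod_nonneg fun i _ => by linarith [gi_le_one (A := S.G i) (ω := ω)]

theorem first_good0 (r : ℕ) (ω : Ω) :
    ∑ i ∈ range r, S.b0 i ω * gi (S.G i) ω + S.b0 r ω = 1 := by
  induction r with
  | zero => simp [b0]
  | succ r ih =>
    rw [Finset.sum_range_succ]
    have : S.b0 (r + 1) ω = S.b0 r ω * (1 - gi (S.G r) ω) := by
      unfold b0
      rw [Finset.prod_range_succ]
    rw [this]
    linarith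

theorem dep_b0 (i : ℕ) : P.Dep (S.B (i + 1))ᶜ (S.b0 i) := by
  unfold b0
  refine ExpSys.Dep.prod _ _ fun l hl => ?_
  rw [Finset.mem_range] at hl
  have h1 : P.Dep (S.B (i + 1))ᶜ (gi (S.G l)) := (dep_gi l).mono fun x hx hx' =>
    hx.2 (box_anti S.hB (by omega) hx')
  exact h1.comp fun x => 1 - x

/-- ENVIRONMENTS: signed weights `W` which factorise on the good levels and whose tails are normalised by `A` -/
structure Env (S : LSys P) (t : ℝ) (m0 : ℕ) (f0 W : Ω → ℝ) (eta Cf CW A : ℝ) : Prop where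
  split : ∀ l ≤ m0, ∃ U : Ω → ℝ, P.Dep (S.B (l + 1))ᶜ U ∧ ∀ ω ∈ S.G l, W ω = U ω * S.V t l ω
  tail : ∀ s ≤ m0 + 1, P.E (fun ω => |W ω| * S.b0 s ω) ≤ CW * eta ^ s * A
  tailf : P.E (fun ω => |W ω| * S.b0 (m0 + 1) ω * f0 ω) ≤ Cf * (CW * eta ^ (m0 + 1) * A)

theorem mean_sub_le (hG : S.Good t T m dz eta ka CM) {m0 : ℕ} {f f0 : Ω → ℝ} (hf : S.Obs m0 f f0)
    {i : ℕ} (hi : i ≤ m0) {h : Ω → ℝ} (hh : S.Lev i h) :
    |P.E (fun ω => h ω * S.V t i ω * f ω) - S.yb t 0 f * S.ms t i h| ≤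
      (S.VV t f i + S.VV t (fun ω => - f ω) i) * S.ms t i h := by
  have h1 := mean_le_VV hG hf le_rfl hi hh
  have h2 := mean_le_VV hG hf.neg le_rfl hi hh
  have h3 := yb_le_VV hG hf (Nat.zero_le i) hi
  have h4 := yb_le_VV hG hf.neg (Nat.zero_le i) hi
  rw [yb_neg] at h4
  have e1 : P.E (fun ω => h ω * S.V t i ω * - f ω) = - P.E (fun ω => h ω * S.V t i ω * f ω) := by
    rw [← P.E_neg]
    congr 1
    funext ω
    ring
  rw [e1] at h2
  have h5 := ms_nonneg hG.ht hh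
  rw [abs_le]
  constructor
  · nlinarith
  · nlinarith

/-- one term of the decomposition of an environment -/
theorem env_term (hG : S.Good t T m dz eta ka CM) {m0 : ℕ} {f f0 : Ω → ℝ} (hf : S.Obs m0 f f0)
    {i : ℕ} (hi : i ≤ m0) {W U : Ω → ℝ} (hU : P.Dep (S.B (i + 1))ᶜ U)
    (hW : ∀ ω ∈ S.G i, W ω = U ω * S.V t i ω) :
    |P.E (fun ω => W ω * (S.b0 i ω * gi (S.G i) ω) * f ω) -
      S.yb t 0 f * P.E (fun ω => W ω * (S.b0 i ω * gi (S.G i) ω))| ≤
      (S.VV t f i + S.VV t (fun ω => - f ω) i) *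
        P.E (fun ω => |W ω| * (S.b0 i ω * gi (S.G i) ω)) := by
  have ht := hG.ht
  have hbg : ∀ ω, 0 ≤ S.b0 i ω * gi (S.G i) ω := fun ω => mul_nonneg (b0_nonneg i ω) gi_nonneg
  have hbd : P.Dep (S.B (i + 1))ᶜ (fun ω => S.b0 i ω * gi (S.G i) ω) :=
    (dep_b0 i).comp2 ((dep_gi i).mono fun x hx => hx.2) fun x y : ℝ => x * y
  have hp : S.Lev i (fun ω => max (U ω) 0 * (S.b0 i ω * gi (S.G i) ω)) := {
    nn := fun ω => mul_nonneg (le_max_right _ _) (hbg ω)
    dep := (hU.comp fun x => max x 0).comp2 hbd fun x y : ℝ => x * y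
    zero := fun ω hω => by rw [gi_notMem hω]; ring }
  have hm : S.Lev i (fun ω => max (-U ω) 0 * (S.b0 i ω * gi (S.G i) ω)) := {
    nn := fun ω => mul_nonneg (le_max_right _ _) (hbg ω)
    dep := (hU.comp fun x => max (-x) 0).comp2 hbd fun x y : ℝ => x * y
    zero := fun ω hω => by rw [gi_notMem hω]; ring }
  have h1 := mean_sub_le hG hf hi hp
  have h2 := mean_sub_le hG hf hi hm
  have hsub : ∀ x : ℝ, max x 0 - max (-x) 0 = x := by
    intro x
    rcases le_total 0 x with hx | hx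
    · rw [max_eq_left hx, max_eq_right (by linarith)]
      ring
    · rw [max_eq_right hx, max_eq_left (by linarith)]
      ring
  have hadd : ∀ x : ℝ, max x 0 + max (-x) 0 = |x| := by
    intro x
    rcases le_total 0 x with hx | hx
    · rw [max_eq_left hx, max_eq_right (by linarith), abs_of_nonneg hx]
      ring
    · rw [max_eq_right hx, max_eq_left (by linarith), abs_of_nonpos hx]
      ring
  have e1 : P.E (fun ω => W ω * (S.b0 i ω * gi (S.G i) ω) * f ω) =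
      P.E (fun ω => max (U ω) 0 * (S.b0 i ω * gi (S.G i) ω) * S.V t i ω * f ω) -
      P.E (fun ω => max (-U ω) 0 * (S.b0 i ω * gi (S.G i) ω) * S.V t i ω * f ω) := by
    rw [← P.E_sub]
    congr 1
    funext ω
    by_cases hω : ω ∈ S.G i
    · rw [hW ω hω]
      have := hsub (U ω)
      calc _ = U ω * (S.b0 i ω * gi (S.G i) ω) * S.V t i ω * f ω := by ring
        _ = (max (U ω) 0 - max (-U ω) 0) * (S.b0 i ω * gi (S.G i) ω) * S.V t i ω * f ω := by
          rw [this]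
        _ = _ := by ring
    · simp only [gi_notMem hω, mul_zero, zero_mul, sub_zero]
  have e2 : P.E (fun ω => W ω * (S.b0 i ω * gi (S.G i) ω)) =
      S.ms t i (fun ω => max (U ω) 0 * (S.b0 i ω * gi (S.G i) ω)) -
      S.ms t i (fun ω => max (-U ω) 0 * (S.b0 i ω * gi (S.G i) ω)) := by
    unfold ms
    rw [← P.E_sub]
    congr 1
    funext ω
    by_cases hω : ω ∈ S.G i
    · rw [hW ω hω]
      have := hsub (U ω)
      calc _ = U ω * (S.b0 i ω * gi (S.G i) ω) * S.V t i ω := by ring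
        _ = (max (U ω) 0 - max (-U ω) 0) * (S.b0 i ω * gi (S.G i) ω) * S.V t i ω := by
          rw [this]
        _ = _ := by ring
    · simp only [gi_notMem hω, mul_zero, zero_mul, sub_zero]
  have e3 : P.E (fun ω => |W ω| * (S.b0 i ω * gi (S.G i) ω)) =
      S.ms t i (fun ω => max (U ω) 0 * (S.b0 i ω * gi (S.G i) ω)) +
      S.ms t i (fun ω => max (-U ω) 0 * (S.b0 i ω * gi (S.G i) ω)) := by
    unfold ms
    rw [← P.add]
    congr 1
    funext ω
    by_cases hω : ω ∈ S.G i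
    · rw [hW ω hω, abs_mul, abs_of_nonneg (V_nonneg ht i ω)]
      have := hadd (U ω)
      calc _ = |U ω| * (S.b0 i ω * gi (S.G i) ω) * S.V t i ω := by ring
        _ = (max (U ω) 0 + max (-U ω) 0) * (S.b0 i ω * gi (S.G i) ω) * S.V t i ω := by
          rw [this]
        _ = _ := by ring
    · simp only [gi_notMem hω, mul_zero, zero_mul, add_zero]
  rw [e1, e2, e3]
  rw [abs_le] at h1 h2 ⊢
  constructor
  · nlinarith [h1.1, h2.2]
  · nlinarith [h1.2, h2.1]

/-- DECOUPLING, abstract form -/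
theorem decouple (T : ℝ) (m : ℕ) (eta ka CM : ℝ) (heta0 : 0 < eta) (heta1 : eta < 1) :
    ∃ C th : ℝ, 0 ≤ C ∧ eta < th ∧ th < 1 ∧ ∀ {Ω : Type u} {ι : Type v} {P : ExpSys Ω ι}
      {S : LSys P} {t dz : ℝ} (_ : S.Good t T m dz eta ka CM) {m0 : ℕ} {f f0 : Ω → ℝ} {Cf : ℝ}
      (_ : 0 < Cf) (_ : S.Obs m0 (fun ω => f ω / Cf) (fun ω => f0 ω / Cf)),
      ∃ c : ℝ, |c| ≤ C * Cf ∧ ∀ {W : Ω → ℝ} {CW A : ℝ} (_ : 0 ≤ CW) (_ : 0 ≤ A)
        (_ : S.Env t m0 f0 W eta Cf CW A),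
        |P.E (fun ω => W ω * f ω) - c * P.E W| ≤ C * Cf * CW * th ^ m0 * A := by
  obtain ⟨K, th, hK, h1, h2, h3⟩ := osc_le.{u, v} T m eta ka CM heta0 heta1
  have hth0 : 0 < th := heta0.trans h1
  have hq0 : 0 ≤ eta / th := by positivity
  have hq1 : eta / th < 1 := (div_lt_one hth0).2 h1
  have hq2 : 0 < 1 - eta / th := by linarith
  refine ⟨K * (1 - eta / th)⁻¹ + 1 + |cO T m ka CM eta|, th, by positivity, h1, h2, ?_⟩
  intro Ω ι P S t dz hG m0 f f0 Cf hCf hf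
  set g : Ω → ℝ := fun ω => f ω / Cf with hg
  set y := S.yb t 0 g with hy
  have hcO := cO_nonneg hG
  have hy1 : |y| ≤ |cO T m ka CM eta| := (abs_yb_le hG hf (Nat.zero_le m0)).trans (le_abs_self _)
  have hC0 : 0 ≤ K * (1 - eta / th)⁻¹ := by positivity
  refine ⟨y * Cf, ?_, ?_⟩
  · rw [abs_mul, abs_of_pos hCf]
    exact mul_le_mul_of_nonneg_right (by linarith) hCf.le
  intro W CW A hCW hA hE
  have e0 : P.E (fun ω => W ω * f ω) = Cf * P.E (fun ω => W ω * g ω) := by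
    rw [← P.smul]
    congr 1
    funext ω
    simp only [hg]
    field_simp
  have ed : ∀ q : Ω → ℝ, P.E (fun ω => W ω * q ω) =
      ∑ i ∈ range (m0 + 1), P.E (fun ω => W ω * (S.b0 i ω * gi (S.G i) ω) * q ω) +
      P.E (fun ω => W ω * S.b0 (m0 + 1) ω * q ω) := by
    intro q
    rw [← P.E_sum, ← P.add]
    congr 1
    funext ω
    have h4 := first_good0 (S := S) (m0 + 1) ω
    calc W ω * q ω = W ω * q ω *
          (∑ i ∈ range (m0 + 1), S.b0 i ω * gi (S.G i) ω + S.b0 (m0 + 1) ω) := by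
          rw [h4, mul_one]
      _ = _ := by
        rw [mul_add, Finset.mul_sum]
        congr 1
        · refine Finset.sum_congr rfl fun i _ => ?_
          ring
        · ring
  have e1 := ed g
  have e2 := ed (fun _ => 1)
  simp only [mul_one] at e2
  have e2' : P.E W = ∑ i ∈ range (m0 + 1), P.E (fun ω => W ω * (S.b0 i ω * gi (S.G i) ω)) +
      P.E (fun ω => W ω * S.b0 (m0 + 1) ω) := e2
  -- the levels
  have h5 : ∀ i ∈ range (m0 + 1), |P.E (fun ω => W ω * (S.b0 i ω * gi (S.G i) ω) * g ω) -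
      y * P.E (fun ω => W ω * (S.b0 i ω * gi (S.G i) ω))| ≤
      K * CW * A * th ^ m0 * (eta / th) ^ i := by
    intro i hi
    rw [Finset.mem_range] at hi
    obtain ⟨U, hU, hW⟩ := hE.split i (by omega)
    have h6 := env_term hG hf (show i ≤ m0 by omega) hU hW
    refine h6.trans ?_
    have h7 := h3 hG hf i (by omega)
    have h8 : P.E (fun ω => |W ω| * (S.b0 i ω * gi (S.G i) ω)) ≤ CW * eta ^ i * A := by
      refine le_trans (P.mono _ _ fun ω => ?_) (hE.tail i (by omega))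
      exact mul_le_mul_of_nonneg_left (mul_le_of_le_one_right (b0_nonneg i ω) gi_le_one)
        (abs_nonneg _)
    have h9 : 0 ≤ P.E (fun ω => |W ω| * (S.b0 i ω * gi (S.G i) ω)) := P.E_nonneg fun ω =>
      mul_nonneg (abs_nonneg _) (mul_nonneg (b0_nonneg i ω) gi_nonneg)
    have h10 : th ^ (m0 - i) * eta ^ i = th ^ m0 * (eta / th) ^ i := by
      have : th ^ m0 = th ^ (m0 - i) * th ^ i := by
        rw [← pow_add]
        congr 1
        omega
      rw [this, div_pow]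
      have hne : th ^ i ≠ 0 := by positivity
      field_simp
    calc _ ≤ K * th ^ (m0 - i) * (CW * eta ^ i * A) :=
          mul_le_mul h7 h8 h9 (by positivity)
      _ = K * CW * A * (th ^ (m0 - i) * eta ^ i) := by ring
      _ = _ := by
        rw [h10]
        ring
  have h11 : ∑ i ∈ range (m0 + 1), K * CW * A * th ^ m0 * (eta / th) ^ i ≤
      K * CW * A * th ^ m0 * (1 - eta / th)⁻¹ := by
    rw [← Finset.mul_sum]
    refine mul_le_mul_of_nonneg_left ?_ (by positivity)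
    have h12 := geo_tail (eta / th) hq0 hq1 0 (m0 + 1)
    rw [pow_zero, ← Finset.range_eq_Ico, one_div] at h12
    exact h12
  -- the last term
  have h13 : |P.E (fun ω => W ω * S.b0 (m0 + 1) ω * g ω)| ≤ CW * eta ^ (m0 + 1) * A := by
    have h14 : P.E (fun ω => |W ω| * S.b0 (m0 + 1) ω * (f0 ω / Cf)) ≤ CW * eta ^ (m0 + 1) * A := by
      have e3 : P.E (fun ω => |W ω| * S.b0 (m0 + 1) ω * f0 ω) =
          Cf * P.E (fun ω => |W ω| * S.b0 (m0 + 1) ω * (f0 ω / Cf)) := by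
        rw [← P.smul]
        congr 1
        funext ω
        field_simp
      have h15 := hE.tailf
      rw [e3] at h15
      exact le_of_mul_le_mul_left h15 hCf
    refine le_trans (abs_E_le_fin P fun ω => ?_) h14
    rw [abs_mul, abs_mul, abs_of_nonneg (b0_nonneg (S := S) (m0 + 1) ω)]
    exact mul_le_mul_of_nonneg_left (hf.le ω) (mul_nonneg (abs_nonneg _) (b0_nonneg _ ω))
  have h16 : |P.E (fun ω => W ω * S.b0 (m0 + 1) ω)| ≤ CW * eta ^ (m0 + 1) * A := by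
    refine le_trans (abs_E_le_fin P fun ω => ?_) (hE.tail (m0 + 1) le_rfl)
    rw [abs_mul, abs_of_nonneg (b0_nonneg (S := S) (m0 + 1) ω)]
  have h17 : eta ^ (m0 + 1) ≤ th ^ m0 := by
    calc eta ^ (m0 + 1) ≤ eta ^ m0 := pow_le_pow_of_le_one heta0.le heta1.le (Nat.le_succ _)
      _ ≤ th ^ m0 := pow_le_pow_left₀ heta0.le h1.le _
  have h18 : |P.E (fun ω => W ω * g ω) - y * P.E W| ≤
      (K * (1 - eta / th)⁻¹ + 1 + |cO T m ka CM eta|) * (CW * th ^ m0 * A) := by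
    have e4 : P.E (fun ω => W ω * g ω) - y * P.E W =
        ∑ i ∈ range (m0 + 1), (P.E (fun ω => W ω * (S.b0 i ω * gi (S.G i) ω) * g ω) -
          y * P.E (fun ω => W ω * (S.b0 i ω * gi (S.G i) ω))) +
        (P.E (fun ω => W ω * S.b0 (m0 + 1) ω * g ω) -
          y * P.E (fun ω => W ω * S.b0 (m0 + 1) ω)) := by
      rw [e1, e2', Finset.sum_sub_distrib, ← Finset.mul_sum]
      ring
    rw [e4]
    have h19 : |∑ i ∈ range (m0 + 1), (P.E (fun ω => W ω * (S.b0 i ω * gi (S.G i) ω) * g ω) -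
        y * P.E (fun ω => W ω * (S.b0 i ω * gi (S.G i) ω)))| ≤
        K * CW * A * th ^ m0 * (1 - eta / th)⁻¹ :=
      (Finset.abs_sum_le_sum_abs _ _).trans ((Finset.sum_le_sum h5).trans h11)
    have h20 : |y * P.E (fun ω => W ω * S.b0 (m0 + 1) ω)| ≤
        |cO T m ka CM eta| * (CW * th ^ m0 * A) := by
      rw [abs_mul]
      refine mul_le_mul hy1 (h16.trans ?_) (abs_nonneg _) (abs_nonneg _)
      exact mul_le_mul_of_nonneg_right (mul_le_mul_of_nonneg_left h17 hCW) hA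
    have h21 : |P.E (fun ω => W ω * S.b0 (m0 + 1) ω * g ω)| ≤ CW * th ^ m0 * A :=
      h13.trans (mul_le_mul_of_nonneg_right (mul_le_mul_of_nonneg_left h17 hCW) hA)
    calc _ ≤ _ := abs_add_le _ _
      _ ≤ K * CW * A * th ^ m0 * (1 - eta / th)⁻¹ +
          (|P.E (fun ω => W ω * S.b0 (m0 + 1) ω * g ω)| +
            |y * P.E (fun ω => W ω * S.b0 (m0 + 1) ω)|) := add_le_add h19 (abs_sub _ _)
      _ ≤ K * CW * A * th ^ m0 * (1 - eta / th)⁻¹ +
          (CW * th ^ m0 * A + |cO T m ka CM eta| * (CW * th ^ m0 * A)) := by linarith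
      _ = _ := by ring
  have e5 : P.E (fun ω => W ω * f ω) - y * Cf * P.E W =
      Cf * (P.E (fun ω => W ω * g ω) - y * P.E W) := by
    rw [e0]
    ring
  rw [e5, abs_mul, abs_of_pos hCf]
  calc _ ≤ Cf * ((K * (1 - eta / th)⁻¹ + 1 + |cO T m ka CM eta|) * (CW * th ^ m0 * A)) :=
        mul_le_mul_of_nonneg_left h18 hCf.le
    _ = _ := by ring

/-- two environments give the same normalised mean -/
theorem decouple_two (T : ℝ) (m : ℕ) (eta ka CM : ℝ) (heta0 : 0 < eta) (heta1 : eta < 1) :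
    ∃ C th : ℝ, 0 ≤ C ∧ eta < th ∧ th < 1 ∧ ∀ {Ω : Type u} {ι : Type v} {P : ExpSys Ω ι}
      {S : LSys P} {t dz : ℝ} (_ : S.Good t T m dz eta ka CM) {m0 : ℕ} {f f0 : Ω → ℝ} {Cf : ℝ}
      (_ : 0 < Cf) (_ : S.Obs m0 (fun ω => f ω / Cf) (fun ω => f0 ω / Cf))
      {W W' : Ω → ℝ} {CW CW' A A' : ℝ} (_ : 0 ≤ CW) (_ : 0 ≤ CW') (_ : 0 < A) (_ : 0 < A')
      (_ : S.Env t m0 f0 W eta Cf CW A) (_ : S.Env t m0 f0 W' eta Cf CW' A')
      (_ : A ≤ P.E W) (_ : A' ≤ P.E W'),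
      |P.E (fun ω => W ω * f ω) / P.E W - P.E (fun ω => W' ω * f ω) / P.E W'| ≤
        C * Cf * (CW + CW') * th ^ m0 := by
  obtain ⟨C, th, hC, h1, h2, h3⟩ := decouple.{u, v} T m eta ka CM heta0 heta1
  refine ⟨C, th, hC, h1, h2, ?_⟩
  intro Ω ι P S t dz hG m0 f f0 Cf hCf hf W W' CW CW' A A' hCW hCW' hA hA' hE hE' hZ hZ'
  obtain ⟨c, -, h4⟩ := h3 hG hCf hf
  have hth0 : 0 < th := heta0.trans h1
  have key : ∀ {W : Ω → ℝ} {CW A : ℝ}, 0 ≤ CW → 0 < A → S.Env t m0 f0 W eta Cf CW A →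
      A ≤ P.E W → |P.E (fun ω => W ω * f ω) / P.E W - c| ≤ C * Cf * CW * th ^ m0 := by
    intro W CW A hCW hA hE hZ
    have hZ0 : 0 < P.E W := hA.trans_le hZ
    have h5 := h4 hCW hA.le hE
    have e : P.E (fun ω => W ω * f ω) / P.E W - c =
        (P.E (fun ω => W ω * f ω) - c * P.E W) / P.E W := by
      field_simp
    rw [e, abs_div, abs_of_pos hZ0, div_le_iff₀ hZ0]
    refine h5.trans (mul_le_mul_of_nonneg_left hZ (by positivity))
  have h6 := key hCW hA hE hZ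
  have h7 := key hCW' hA' hE' hZ'
  calc _ = |(P.E (fun ω => W ω * f ω) / P.E W - c) -
        (P.E (fun ω => W' ω * f ω) / P.E W' - c)| := by
        congr 1
        ring
    _ ≤ _ := abs_sub _ _
    _ ≤ C * Cf * CW * th ^ m0 + C * Cf * CW' * th ^ m0 := add_le_add h6 h7
    _ = _ := by ring

/-- the system seen from the level `a` -/
def shift (S : LSys P) (a : ℕ) : LSys P where
  B := fun j => S.B (a + j)
  G := fun j => S.G (a + j)
  N := fun j => S.N (a + j)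
  M := fun j => S.M (a + j)
  n := fun j => S.n (a + j)
  p := fun j l => S.p (a + j) (a + l)
  X := fun j => S.X (a + j)
  J := S.J
  hB := fun j => S.hB (a + j)
  hG := fun j => S.hG (a + j)
  hN := fun j => S.hN (a + j)
  hM := fun j => S.hM (a + j)
  hn := fun j => S.hn (a + j)
  hX := fun j => S.hX (a + j)
  hp := fun j l h => S.hp (a + j) (a + l) (by omega)
  hN1 := fun j => S.hN1 (a + j)
  hN2 := fun j => S.hN2 (a + j)
  hn1 := fun j => S.hn1 (a + j)
  hn2 := fun j => S.hn2 (a + j)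
  hs := fun j l ω h => S.hs (a + j) (a + l) ω (by omega)
  hX0 := fun j => S.hX0 (a + j)
  hJ := fun j h => S.hJ (a + j) (by omega)

theorem Good.shift (hG : S.Good t T m dz eta ka CM) (a : ℕ) :
    (S.shift a).Good t T m dz eta ka CM where
  ht := hG.ht
  htT := hG.htT
  dz0 := hG.dz0
  dz1 := hG.dz1
  hZ := fun j => hG.hZ (a + j)
  eta0 := hG.eta0
  eta1 := hG.eta1
  hX1 := fun j => hG.hX1 (a + j)
  hX4 := fun j => hG.hX4 (a + j)
  ka1 := hG.ka1
  hK := fun j => hG.hK (a + j)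
  CM1 := hG.CM1
  hM8 := fun j => hG.hM8 (a + j)
  hPG := fun j => hG.hPG (a + j)

end LSys

end Pool.Agent.SixB
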