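import Pool.Agent.Lib.SixB.S6LHgt
import Pool.Agent.Lib.SixB.S3Large
import Pool.Agent.Lib.SixB.S4Plane

/-!
# 6BD, block CA-L, row L6: heights by scale, part 2 (geometry and counts)

* `Ins X x0 x1 y0 y1`: all edges of `X` are in the rectangle.
* `lft_rect`: in a rectangle `K` of faces of `F` the left indicator of a strand which is contained in a
  rectangle with a free row and a free column is constant off the small rectangle.
* `lgN R n ω`: number of the strands of the set of faces `R` of extent at least `2 n`: a function of the faces of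
  `R`, bounded by `KB` (`lgN_le_KB`), all moments bounded (`lgN_moment`).
* `large_or_ins`: a strand has a large piece in `R` or is contained in a small rectangle.
* `card_le_large`: strands with large pieces in `R`.
-/

set_option autoImplicit false
set_option linter.unusedSectionVars false

namespace Pool.Agent.SixB

open Pool.Agent.Perc Pool.Agent.Perc.Q Relation Tilt PercD PercN

noncomputable section

namespace HG

variable {F A B : Finset (ℤ × ℤ)} {ω ω' : Cfg} {a b c e : DZ} {X : Finset DZ} {L : VZ → ℤ}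
  {X0 X1 Y0 Y1 x0 x1 y0 y1 : ℤ}

/-! ### Rectangles -/

theorem dir_dE {f : ℤ × ℤ} {u : UE} (hf : f ∈ F) (hu : IsSide f u) : (ua u, ub u) ∈ dE ZQ F := by
  obtain ⟨x, hx, hxu⟩ := side_dE hf hu
  rcases dE_dir hx with h | h
  · rw [hxu] at h
    have h2 : dir u ∈ dE ZQ F := h ▸ hx
    exact h2
  · rw [hxu] at h
    have h2 := swap_mem_dE.mpr hx
    rw [h, Prod.swap_swap] at h2
    exact h2

theorem edge_h (hY : Y0 < Y1) (hK : RF X0 X1 Y0 Y1 ⊆ F) {x y : ℤ} (h1 : X0 ≤ x)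
    (h2 : x < X1) (h3 : Y0 ≤ y) (h4 : y ≤ Y1) : (((x, y), (x + 1, y)) : DZ) ∈ dE ZQ F := by
  rcases eq_or_lt_of_le h4 with h | h
  · have hf : ((x, y - 1) : ℤ × ℤ) ∈ F := hK (mem_RF.mpr ⟨h1, h2, by show Y0 ≤ y - 1; omega,
      by show y - 1 < Y1; omega⟩)
    have := dir_dE hf (u := (x, y, false)) (Or.inr (Or.inr (Or.inl (by
      unfold to'
      simp))))
    exact this
  · have hf : ((x, y) : ℤ × ℤ) ∈ F := hK (mem_RF.mpr ⟨h1, h2, h3, h⟩)
    exact dir_dE hf (u := (x, y, false)) (Or.inl rfl)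

theorem edge_v (hX : X0 < X1) (hK : RF X0 X1 Y0 Y1 ⊆ F) {x y : ℤ} (h1 : X0 ≤ x)
    (h2 : x ≤ X1) (h3 : Y0 ≤ y) (h4 : y < Y1) : (((x, y), (x, y + 1)) : DZ) ∈ dE ZQ F := by
  rcases eq_or_lt_of_le h2 with h | h
  · have hf : ((x - 1, y) : ℤ × ℤ) ∈ F := hK (mem_RF.mpr ⟨by show X0 ≤ x - 1; omega,
      by show x - 1 < X1; omega, h3, h4⟩)
    have := dir_dE hf (u := (x, y, true)) (Or.inr (Or.inr (Or.inr (by
      unfold ri
      simp))))
    exact this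
  · have hf : ((x, y) : ℤ × ℤ) ∈ F := hK (mem_RF.mpr ⟨h1, h, h3, h4⟩)
    exact dir_dE hf (u := (x, y, true)) (Or.inr (Or.inl rfl))

/-- all edges of `X` are in the rectangle -/
def Ins (X : Finset DZ) (x0 x1 y0 y1 : ℤ) : Prop :=
  ∀ e ∈ X, InR x0 x1 y0 y1 e.1 ∧ InR x0 x1 y0 y1 e.2

theorem lft_edge (hL : IsLft ZQ F X L) (hI : Ins X x0 x1 y0 y1) (he : e ∈ dE ZQ F)
    (h : ¬ InR x0 x1 y0 y1 e.1) : L e.1 = L e.2 := by
  have h1 := hL.inc e he
  have h2 : e ∉ X := fun h' => h (hI e h').1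
  have h3 : e.swap ∉ X := fun h' => h (hI _ h').2
  rw [if_neg h2, if_neg h3] at h1
  omega

theorem lft_col (hL : IsLft ZQ F X L) (hI : Ins X x0 x1 y0 y1) (hX : X0 < X1)
    (hK : RF X0 X1 Y0 Y1 ⊆ F) {x : ℤ} (h1 : X0 ≤ x) (h2 : x ≤ X1) (hx : x < x0 ∨ x1 < x) {y : ℤ}
    (h3 : Y0 ≤ y) (h4 : y ≤ Y1) : L (x, y) = L (x, Y0) := by
  obtain ⟨n, rfl⟩ : ∃ n : ℕ, y = Y0 + n := ⟨(y - Y0).toNat, by omega⟩
  clear h3
  induction n with
  | zero => simp
  | succ n ih =>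
    have h5 := edge_v hX hK (x := x) (y := Y0 + n) h1 h2 (by omega) (by push_cast at h4; omega)
    have h6 := lft_edge hL hI h5 (by unfold InR; simp only; omega)
    rw [← ih (by push_cast at h4; omega)]
    simp only at h6
    rw [h6]
    congr 2
    push_cast
    ring

theorem lft_row (hL : IsLft ZQ F X L) (hI : Ins X x0 x1 y0 y1) (hY : Y0 < Y1)
    (hK : RF X0 X1 Y0 Y1 ⊆ F) {y : ℤ} (h1 : Y0 ≤ y) (h2 : y ≤ Y1) (hy : y < y0 ∨ y1 < y) {x : ℤ}
    (h3 : X0 ≤ x) (h4 : x ≤ X1) : L (x, y) = L (X0, y) := by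
  obtain ⟨n, rfl⟩ : ∃ n : ℕ, x = X0 + n := ⟨(x - X0).toNat, by omega⟩
  clear h3
  induction n with
  | zero => simp
  | succ n ih =>
    have h5 := edge_h hY hK (x := X0 + n) (y := y) (by omega) (by push_cast at h4; omega) h1 h2
    have h6 := lft_edge hL hI h5 (by unfold InR; simp only; omega)
    rw [← ih (by push_cast at h4; omega)]
    simp only at h6
    rw [h6]
    congr 2
    push_cast
    ring

/-- **the left indicator is constant off a small rectangle** -/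
theorem lft_rect (hL : IsLft ZQ F X L) (hI : Ins X x0 x1 y0 y1) (hX : X0 < X1) (hY : Y0 < Y1)
    (hK : RF X0 X1 Y0 Y1 ⊆ F) (hfx : x1 - x0 < X1 - X0) (hfy : y1 - y0 < Y1 - Y0) {z z' : VZ}
    (hz : InR X0 X1 Y0 Y1 z) (hz' : InR X0 X1 Y0 Y1 z') (hn : ¬ InR x0 x1 y0 y1 z)
    (hn' : ¬ InR x0 x1 y0 y1 z') : L z = L z' := by
  -- a free column
  obtain ⟨xs, hxs1, hxs2, hxs⟩ : ∃ xs, X0 ≤ xs ∧ xs ≤ X1 ∧ (xs < x0 ∨ x1 < xs) := by
    by_cases h : X0 < x0
    · exact ⟨X0, le_rfl, hX.le, Or.inl h⟩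
    · exact ⟨X1, hX.le, le_rfl, Or.inr (by omega)⟩
  obtain ⟨ys, hys1, hys2, hys⟩ : ∃ ys, Y0 ≤ ys ∧ ys ≤ Y1 ∧ (ys < y0 ∨ y1 < ys) := by
    by_cases h : Y0 < y0
    · exact ⟨Y0, le_rfl, hY.le, Or.inl h⟩
    · exact ⟨Y1, hY.le, le_rfl, Or.inr (by omega)⟩
  have key : ∀ {z : VZ}, InR X0 X1 Y0 Y1 z → ¬ InR x0 x1 y0 y1 z → L z = L (xs, ys) := by
    intro z hz hn
    obtain ⟨x, y⟩ := z
    unfold InR at hz hn
    simp only at hz hn
    obtain ⟨h1, h2, h3, h4⟩ := hz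
    by_cases hc : x < x0 ∨ x1 < x
    · rw [lft_col hL hI hX hK h1 h2 hc h3 h4, ← lft_col hL hI hX hK h1 h2 hc hys1 hys2,
        lft_row hL hI hY hK hys1 hys2 hys h1 h2, ← lft_row hL hI hY hK hys1 hys2 hys hxs1 hxs2]
    · have hr : y < y0 ∨ y1 < y := by omega
      rw [lft_row hL hI hY hK h3 h4 hr h1 h2, ← lft_row hL hI hY hK h3 h4 hr hxs1 hxs2,
        lft_col hL hI hX hK hxs1 hxs2 hxs h3 h4, ← lft_col hL hI hX hK hxs1 hxs2 hxs hys1 hys2]
  rw [key hz hn, key hz' hn']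

/-! ### Strands without large pieces are contained in small rectangles -/

/-- all the unit edges of the strand of `e` are within `2 n` of `e` -/
theorem ins_of_not_large {n : ℤ} (h : ¬ Large ω (F : Set (ℤ × ℤ)) n (und e)) :
    Ins (dst ZQ F ω e) ((ua (und e)).1 - 2 * n) ((ua (und e)).1 + 2 * n + 1)
      ((ua (und e)).2 - 2 * n) ((ua (und e)).2 + 2 * n + 1) := by
  have key : ∀ u ∈ MM ω (F : Set (ℤ × ℤ)) (und e),
      InR ((ua (und e)).1 - 2 * n) ((ua (und e)).1 + 2 * n + 1)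
        ((ua (und e)).2 - 2 * n) ((ua (und e)).2 + 2 * n + 1) (ua u) ∧
      InR ((ua (und e)).1 - 2 * n) ((ua (und e)).1 + 2 * n + 1)
        ((ua (und e)).2 - 2 * n) ((ua (und e)).2 + 2 * n + 1) (ub u) := by
    intro u hu
    have h1 : ¬ ((ub u).1 + 2 * n ≤ (ua (und e)).1 ∨ (ub u).2 + 2 * n ≤ (ua (und e)).2) :=
      fun h' => h ⟨u, hu, und e, mem_MM_self, h'⟩
    have h2 : ¬ ((ub (und e)).1 + 2 * n ≤ (ua u).1 ∨ (ub (und e)).2 + 2 * n ≤ (ua u).2) :=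
      fun h' => h ⟨und e, mem_MM_self, u, hu, h'⟩
    generalize und e = w at *
    obtain ⟨x, y, d⟩ := u
    obtain ⟨x', y', d'⟩ := w
    unfold InR
    cases d <;> cases d' <;> simp only [ua_mk, ub_false, ub_true] at h1 h2 ⊢ <;> omega
  intro x hx
  obtain ⟨hxF, hs⟩ := mem_dst.mp hx
  have hu := MM_of_srel hs
  obtain ⟨h1, h2⟩ := key _ hu
  rcases dE_dir hxF with h | h
  · have e1 : x.1 = ua (und x) := congrArg Prod.fst h
    have e2 : x.2 = ub (und x) := congrArg Prod.snd h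
    rw [e1, e2]
    exact ⟨h1, h2⟩
  · have e1 : x.1 = ub (und x) := congrArg Prod.fst h
    have e2 : x.2 = ua (und x) := congrArg Prod.snd h
    rw [e1, e2]
    exact ⟨h2, h1⟩

/-- a component in `F` is contained in `R` or visits a face off `R` -/
theorem mm_exit {F R : Set (ℤ × ℤ)} (b : UE) : (∀ a ∈ MM ω F b, a ∈ MM ω R b) ∨
    ∃ d ∈ MM ω R b, d ∈ MM ω F b ∧ ∃ g ∈ F, g ∉ R ∧ IsSide g d := by
  by_cases hc : ∃ d ∈ MM ω R b, d ∈ MM ω F b ∧ ∃ g ∈ F, g ∉ R ∧ IsSide g d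
  · exact Or.inr hc
  left
  intro a ha
  induction ha with
  | refl => exact mem_MM_self
  | @tail y z hby hyz ih =>
    obtain ⟨f, hf, hm⟩ := hyz
    by_cases hfR : f ∈ R
    · exact Relation.ReflTransGen.tail ih ⟨f, hfR, hm⟩
    · exact absurd ⟨y, ih, hby, f, hf, hfR, hm.left⟩ hc

/-- a strand visits the face `g` -/
theorem visits_of_side {g : ℤ × ℤ} {d : UE} (he : e ∈ dE ZQ F) (hg : g ∈ F)
    (hd : d ∈ MM ω (F : Set (ℤ × ℤ)) (und e)) (hs : IsSide g d) :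
    ∃ k, sd ZQ g k ∈ dst ZQ F ω e ∨ (sd ZQ g k).swap ∈ dst ZQ F ω e := by
  obtain ⟨k, rfl⟩ := isSide_iff.mp hs
  refine ⟨k, ?_⟩
  have h1 : sd ZQ g k ∈ dE ZQ F := mem_dE.mpr ⟨g, hg, k, Or.inl rfl⟩
  have h2 : und (sd ZQ g k) ∈ MM ω (F : Set (ℤ × ℤ)) (und e) := by rw [und_sd]; exact hd
  exact (MM_iff_dst he h1).mp h2

/-- **pieces**: `X` = strand of `e` in `F`; if every exit from the set of faces `R` is far from `e`, either
the piece of `e` in `R` is large or the strand is contained in a small rectangle at `e` -/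
theorem large_or_ins {R : Finset (ℤ × ℤ)} {n : ℤ} (he : e ∈ dE ZQ F)
    (hex : ∀ d ∈ MM ω (R : Set (ℤ × ℤ)) (und e), ∀ g ∈ F, g ∉ R → IsSide g d →
      (∃ k, sd ZQ g k ∈ dst ZQ F ω e ∨ (sd ZQ g k).swap ∈ dst ZQ F ω e) →
      Large ω (R : Set (ℤ × ℤ)) n (und e)) :
    Large ω (R : Set (ℤ × ℤ)) n (und e) ∨
      Ins (dst ZQ F ω e) ((ua (und e)).1 - 2 * n) ((ua (und e)).1 + 2 * n + 1)
        ((ua (und e)).2 - 2 * n) ((ua (und e)).2 + 2 * n + 1) := by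
  by_cases hL : Large ω (R : Set (ℤ × ℤ)) n (und e)
  · exact Or.inl hL
  right
  refine ins_of_not_large fun hF => hL ?_
  rcases mm_exit (ω := ω) (F := (F : Set (ℤ × ℤ))) (R := (R : Set (ℤ × ℤ))) (und e) with h | h
  · obtain ⟨a₁, h1, a₂, h2, h3⟩ := hF
    exact ⟨a₁, h a₁ h1, a₂, h a₂ h2, h3⟩
  · obtain ⟨d, hd, hdF, g, hg, hgR, hs⟩ := h
    exact hex d hd g hg (by exact_mod_cast hgR) hs (visits_of_side he hg hdF hs)

/-! ### The number of large strands of a set of faces -/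

/-- the number of the strands of the set of faces `R` of extent at least `2 n` -/
def lgN (R : Finset (ℤ × ℤ)) (n : ℤ) (ω : Cfg) : ℕ :=
  sSup {k | ∃ S : Finset UE, Diff ω (R : Set (ℤ × ℤ)) S ∧
    (∀ b ∈ S, Large ω (R : Set (ℤ × ℤ)) n b) ∧ S.card = k}

theorem depN_lgN (R : Finset (ℤ × ℤ)) (n : ℤ) : DepN (R : Set (ℤ × ℤ)) (lgN R n) := by
  intro ω ω' h
  have hm : ∀ b, MM ω (R : Set (ℤ × ℤ)) b = MM ω' (R : Set (ℤ × ℤ)) b := fun b => (MM_congr' h).symm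
  unfold lgN Diff Large
  simp only [hm]

theorem dep_lgN (R : Finset (ℤ × ℤ)) (n : ℤ) : Dep (R : Set (ℤ × ℤ)) (lgN R n) := depN_lgN R n

theorem lgN_le_KB {R : Finset (ℤ × ℤ)} {n u w : ℤ} {l : ℕ} (hn : 0 < n)
    (hR : R ⊆ RF u (u + n * l) w (w + n * l)) (ω : Cfg) : lgN R n ω ≤ KB ω u w n l := by
  refine csSup_le' ?_
  rintro k ⟨S, h1, h2, rfl⟩
  exact card_le_KB hn h1 (by exact_mod_cast hR) h2

theorem card_le_lgN {R : Finset (ℤ × ℤ)} {n u w : ℤ} {l : ℕ} (hn : 0 < n)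
    (hR : R ⊆ RF u (u + n * l) w (w + n * l)) {S : Finset UE} (h1 : Diff ω (R : Set (ℤ × ℤ)) S)
    (h2 : ∀ b ∈ S, Large ω (R : Set (ℤ × ℤ)) n b) : S.card ≤ lgN R n ω := by
  refine le_csSup ⟨KB ω u w n l, ?_⟩ ⟨S, h1, h2, rfl⟩
  rintro k ⟨S, h1, h2, rfl⟩
  exact card_le_KB hn h1 (by exact_mod_cast hR) h2

theorem ind_eq_cfg (T : Finset (ℤ × ℤ)) : (ind T : Cfg) = cfg T := by
  funext f
  unfold ind cfg
  congr!

/-- all exponential moments, in every window -/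
theorem lgN_moment (l : ℕ) {lam : ℝ} (hlam : 1 ≤ lam) : ∃ C : ℝ, 0 < C ∧
    ∀ (R W : Finset (ℤ × ℤ)) (n u w : ℤ), 0 < n → R ⊆ RF u (u + n * l) w (w + n * l) → R ⊆ W →
      av W (fun ω => lam ^ lgN R n ω) ≤ C := by
  obtain ⟨C, hC, h⟩ := KB_moment l hlam
  refine ⟨C, hC, fun R W n u w hn hR hW => ?_⟩
  set W' := R ∪ RF u (u + n * l) w (w + n * l) with hW'
  have e1 := exp_window (depN_lgN R n) hW fun m => lam ^ m
  have e2 := exp_window (depN_lgN R n) (Finset.subset_union_left : R ⊆ W') fun m => lam ^ m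
  have e3 : av W (fun ω => lam ^ lgN R n ω) =
      (∑ T ∈ W.powerset, lam ^ lgN R n (cfg T)) / 2 ^ W.card := by
    unfold av
    simp only [ind_eq_cfg]
  rw [e3, e1, ← e2]
  refine le_trans ?_ (h u w n W' hn Finset.subset_union_right)
  exact div_le_div_of_nonneg_right (Finset.sum_le_sum fun T _ =>
    pow_le_pow_right₀ hlam (lgN_le_KB hn hR _)) (by positivity)

theorem pow8_le (m : ℕ) : (m : ℝ) ^ 8 ≤ 256 ^ m := by
  have h1 : (m : ℝ) ≤ 2 ^ m := by exact_mod_cast (Nat.lt_two_pow_self (n := m)).le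
  calc (m : ℝ) ^ 8 ≤ (2 ^ m) ^ 8 := pow_le_pow_left₀ (by positivity) h1 8
    _ = 256 ^ m := by
      rw [← pow_mul, mul_comm, pow_mul]
      norm_num

/-- eighth moments -/
theorem lgN_pow8 (l : ℕ) : ∃ C : ℝ, 0 < C ∧
    ∀ (R W : Finset (ℤ × ℤ)) (n u w : ℤ), 0 < n → R ⊆ RF u (u + n * l) w (w + n * l) → R ⊆ W →
      av W (fun ω => (lgN R n ω : ℝ) ^ 8) ≤ C := by
  obtain ⟨C, hC, h⟩ := lgN_moment l (lam := 256) (by norm_num)
  refine ⟨C, hC, fun R W n u w hn hR hW => le_trans (av_mono fun T _ => ?_) (h R W n u w hn hR hW)⟩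
  exact pow8_le _

/-! ### Strands with large pieces -/

theorem ust_inj {U U' : Finset (Finset DZ)} (hU : U ∈ ust ZQ F ω) (hU' : U' ∈ ust ZQ F ω)
    (h : e ∈ rep U) (h' : e ∈ rep U' ∨ e.swap ∈ rep U') : U = U' := by
  obtain ⟨h1, h2⟩ := ust_eq hU (rep_mem hU)
  obtain ⟨h3, h4⟩ := ust_eq hU' (rep_mem hU')
  have e1 := (dstr_of_mem h1 h).2
  rcases h' with h' | h'
  · have e2 := (dstr_of_mem h3 h').2
    rw [h2, h4, e1, ← e2]
  · have e2 := (dstr_of_mem h3 h').2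
    have e3 : rep U' = rv (rep U) := by
      rw [e2, e1, rv_dst]
    rw [h4, h2, e3, rv_rv, Finset.pair_comm]

/-- the number of the strands with a large piece in `R` -/
theorem card_le_large {R : Finset (ℤ × ℤ)} {n u w : ℤ} {l : ℕ} (hn : 0 < n) (hRF : R ⊆ F)
    (hR : R ⊆ RF u (u + n * l) w (w + n * l)) {S : Finset (Finset (Finset DZ))}
    (hS : S ⊆ ust ZQ F ω)
    (h : ∀ U ∈ S, ∃ e ∈ rep U, Large ω (R : Set (ℤ × ℤ)) n (und e)) : S.card ≤ lgN R n ω := by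
  classical
  choose! g hg hg' using h
  have key : ∀ U ∈ S, ∀ U' ∈ S, und (g U') ∈ MM ω (R : Set (ℤ × ℤ)) (und (g U)) → U = U' := by
    intro U hU U' hU' hm
    obtain ⟨h1, -⟩ := ust_eq (hS hU) (rep_mem (hS hU))
    obtain ⟨h3, -⟩ := ust_eq (hS hU') (rep_mem (hS hU'))
    have e1 := dstr_of_mem h1 (hg U hU)
    have e3 := dstr_of_mem h3 (hg U' hU')
    have hm' : und (g U') ∈ MM ω (F : Set (ℤ × ℤ)) (und (g U)) :=
      MM_mono (by exact_mod_cast hRF) hm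
    rw [MM_iff_dst e1.1 e3.1, ← e1.2] at hm'
    rcases hm' with h5 | h5
    · exact ust_inj (hS hU) (hS hU') h5 (Or.inl (hg U' hU'))
    · exact ust_inj (hS hU) (hS hU') h5 (Or.inr (by rw [Prod.swap_swap]; exact hg U' hU'))
  have hinj : Set.InjOn (fun U => und (g U)) (S : Set (Finset (Finset DZ))) := by
    intro U hU U' hU' huu
    refine key U hU U' hU' ?_
    simp only at huu
    rw [huu]
    exact mem_MM_self
  rw [← Finset.card_image_of_injOn hinj]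
  refine card_le_lgN hn hR ?_ ?_
  · intro b hb b' hb' hbb
    obtain ⟨U, hU, rfl⟩ := Finset.mem_image.mp hb
    obtain ⟨U', hU', rfl⟩ := Finset.mem_image.mp hb'
    rw [key U hU U' hU' hbb]
  · intro b hb
    obtain ⟨U, hU, rfl⟩ := Finset.mem_image.mp hb
    exact hg' U hU

end HG

end

end Pool.Agent.SixB
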