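import Pool.Agent.Lib.SixB.S6LHgtB

/-!
# 6BD, block CA-L, row L6: heights by scale, part 3 (classes of strands)

* `csum E P z v ω`: sum over the strands with the property `P` of `(L z - L v) * kap`; `csum_dep`, `csum_env`,
  `csum_split`, `csum_tele` (boxes around `v`), `csum_up` (boxes around `z`), `abs_csum_le`.
* `vclass`: a strand in `B j`, not in `B (j+1)`, not in the box of `z`, which separates `z` from `v`, has a large
  piece in `B j \ B (j+2)`; `zclass`: the same around `z`.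
-/

set_option autoImplicit false
set_option linter.unusedSectionVars false

namespace Pool.Agent.SixB

open Pool.Agent.Perc Pool.Agent.Perc.Q Relation Tilt PercD PercN

noncomputable section

namespace HG

variable {F A B : Finset (ℤ × ℤ)} {ω ω' : Cfg} {a b c e : DZ} {X : Finset DZ} {L : VZ → ℤ}
  {X0 X1 Y0 Y1 x0 x1 y0 y1 : ℤ}

/-! ### Sums over classes of strands -/

open Classical in
/-- the undirected strands with the property `P` -/
def uP (F : Finset (ℤ × ℤ)) (P : Finset DZ → Prop) (ω : Cfg) : Finset (Finset (Finset DZ)) :=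
  (ust ZQ F ω).filter fun U => P (rep U)

theorem mem_uP {P : Finset DZ → Prop} {U : Finset (Finset DZ)} :
    U ∈ uP F P ω ↔ U ∈ ust ZQ F ω ∧ P (rep U) := by
  classical
  unfold uP
  rw [Finset.mem_filter]

/-- sum over the strands with the property `P` -/
def csum (E : WEnv) (P : Finset DZ → Prop) (z v : VZ) (ω : Cfg) : ℝ :=
  ∑ U ∈ uP E.F P ω, ((lft ZQ E.F (rep U) z - lft ZQ E.F (rep U) v : ℤ) : ℝ) *
    onX (kap E ω) (rep U)

theorem cls_eq_csum (E : WEnv) (B : Finset (ℤ × ℤ)) (z v : VZ) (ω : Cfg) :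
    cls E B z v ω = csum E (InF ZQ E.F B) z v ω := by
  unfold cls csum
  refine Finset.sum_congr ?_ fun _ _ => rfl
  ext U
  rw [mem_uIn, mem_uP]

theorem csum_congr {E : WEnv} {P P' : Finset DZ → Prop} (h : ∀ X, P X ↔ P' X) (z v : VZ) (ω : Cfg) :
    csum E P z v ω = csum E P' z v ω := by
  unfold csum
  refine Finset.sum_congr ?_ fun _ _ => rfl
  ext U
  rw [mem_uP, mem_uP, h]

theorem csum_split {E : WEnv} {P P₁ P₂ : Finset DZ → Prop} (h : ∀ X, P X ↔ P₁ X ∨ P₂ X)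
    (hd : ∀ X, P₁ X → ¬ P₂ X) (z v : VZ) (ω : Cfg) :
    csum E P z v ω = csum E P₁ z v ω + csum E P₂ z v ω := by
  classical
  unfold csum
  rw [← Finset.sum_union]
  · refine Finset.sum_congr ?_ fun _ _ => rfl
    ext U
    rw [Finset.mem_union, mem_uP, mem_uP, mem_uP, h]
    tauto
  · rw [Finset.disjoint_left]
    intro U h1 h2
    exact hd _ (mem_uP.mp h1).2 (mem_uP.mp h2).2

theorem csum_dep (E : WEnv) {P : Finset DZ → Prop} {B : Finset (ℤ × ℤ)}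
    (hP : ∀ X, P X → InF ZQ E.F B X) (z v : VZ) : Dep (B : Set (ℤ × ℤ)) (csum E P z v) := by
  intro ω ω' h
  have hω : ∀ f ∈ B, ω f = ω' f := fun f hf => h f (by exact_mod_cast hf)
  have e1 : uP E.F P ω = uP E.F P ω' := by
    have h1 := uIn_congr (Q := ZQ) (F := E.F) hω
    ext U
    rw [mem_uP, mem_uP]
    constructor
    · rintro ⟨h2, h3⟩
      have h4 : U ∈ uIn ZQ E.F B ω := mem_uIn.mpr ⟨h2, hP _ h3⟩
      rw [h1] at h4
      exact ⟨(mem_uIn.mp h4).1, h3⟩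
    · rintro ⟨h2, h3⟩
      have h4 : U ∈ uIn ZQ E.F B ω' := mem_uIn.mpr ⟨h2, hP _ h3⟩
      rw [← h1] at h4
      exact ⟨(mem_uIn.mp h4).1, h3⟩
  unfold csum
  rw [e1]
  refine Finset.sum_congr rfl fun U hU => ?_
  obtain ⟨h1, h2'⟩ := mem_uP.mp hU
  have h2 := hP _ h2'
  congr 1
  have hd' := rep_dstr h1
  have hω' : ∀ f ∈ B, ω' f = ω f := fun f hf => (hω f hf).symm
  have hd := dstr_inF hd' h2 hω'
  obtain ⟨c, hc, h3⟩ := mem_dstr.mp hd'
  have hcX : c ∈ rep U := h3 ▸ self_mem_dst hc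
  rw [onX_eq (fun a b h => kap_srel E h) hd hcX, onX_eq (fun a b h => kap_srel E h) hd' hcX]
  exact kap_inF E hd' h2 hω' hcX

/-- a strand visits at least one face -/
theorem not_inF_empty (hX : X ∈ dstr ZQ F ω) (h : InF ZQ F B X) : B.Nonempty := by
  obtain ⟨c, hc, h3⟩ := mem_dstr.mp hX
  have hcX : c ∈ X := h3 ▸ self_mem_dst hc
  obtain ⟨f, hf, k, h4⟩ := dir_cases hc
  refine ⟨f, h f hf k ?_⟩
  rcases h4 with h4 | h4
  · exact Or.inl (h4 ▸ hcX)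
  · exact Or.inr (h4 ▸ hcX)

theorem csum_empty (E : WEnv) {P : Finset DZ → Prop} (hP : ∀ X, P X → InF ZQ E.F ∅ X) (z v : VZ)
    (ω : Cfg) : csum E P z v ω = 0 := by
  unfold csum
  refine Finset.sum_eq_zero fun U hU => ?_
  obtain ⟨h1, h2⟩ := mem_uP.mp hU
  exact absurd (not_inF_empty (rep_dstr h1) (hP _ h2)) (by simp)

/-- boxes around `v` -/
theorem csum_tele (E : WEnv) {Bs : ℕ → Finset (ℤ × ℤ)} {A : Finset (ℤ × ℤ)}
    (hB : ∀ j, Bs (j + 1) ⊆ Bs j) (h m : ℕ) (hA : A ⊆ Bs h) (z v : VZ) (ω : Cfg) :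
    csum E (InF ZQ E.F (Bs h)) z v ω = csum E (InF ZQ E.F A) z v ω +
      ∑ i ∈ Finset.range m, csum E (fun X => InF ZQ E.F (Bs (h + i)) X ∧
        ¬ InF ZQ E.F (Bs (h + i + 1)) X ∧ ¬ InF ZQ E.F A X) z v ω +
      csum E (fun X => InF ZQ E.F (Bs (h + m)) X ∧ ¬ InF ZQ E.F A X) z v ω := by
  induction m with
  | zero =>
    rw [Finset.sum_range_zero, add_zero, Nat.add_zero]
    refine csum_split (fun X => ?_) (fun X h1 h2 => h2.2 h1) z v ω
    constructor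
    · intro h1
      by_cases h2 : InF ZQ E.F A X
      · exact Or.inl h2
      · exact Or.inr ⟨h1, h2⟩
    · rintro (h1 | h1)
      · exact h1.mono hA
      · exact h1.1
  | succ m ih =>
    rw [ih, Finset.sum_range_succ]
    have h1 : csum E (fun X => InF ZQ E.F (Bs (h + m)) X ∧ ¬ InF ZQ E.F A X) z v ω =
        csum E (fun X => InF ZQ E.F (Bs (h + m)) X ∧ ¬ InF ZQ E.F (Bs (h + m + 1)) X ∧
          ¬ InF ZQ E.F A X) z v ω +
        csum E (fun X => InF ZQ E.F (Bs (h + (m + 1))) X ∧ ¬ InF ZQ E.F A X) z v ω := by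
      refine csum_split (fun X => ?_) (fun X h1 h2 => h1.2.1 h2.1) z v ω
      constructor
      · rintro ⟨h1, h2⟩
        by_cases h3 : InF ZQ E.F (Bs (h + m + 1)) X
        · exact Or.inr ⟨h3, h2⟩
        · exact Or.inl ⟨h1, h3, h2⟩
      · rintro (h1 | h1)
        · exact ⟨h1.1, h1.2.2⟩
        · exact ⟨h1.1.mono (hB _), h1.2⟩
    rw [h1]
    ring

/-- boxes around `z` -/
theorem csum_up (E : WEnv) {As : ℕ → Finset (ℤ × ℤ)} (hA : ∀ s, As s ⊆ As (s + 1)) (m : ℕ)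
    (z v : VZ) (ω : Cfg) :
    csum E (InF ZQ E.F (As m)) z v ω = csum E (InF ZQ E.F (As 0)) z v ω +
      ∑ s ∈ Finset.range m, csum E (fun X => InF ZQ E.F (As (s + 1)) X ∧
        ¬ InF ZQ E.F (As s) X) z v ω := by
  induction m with
  | zero => rw [Finset.sum_range_zero, add_zero]
  | succ m ih =>
    rw [Finset.sum_range_succ, ← add_assoc, ← ih]
    refine csum_split (fun X => ?_) (fun X h1 h2 => h2.2 h1) z v ω
    constructor
    · intro h1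
      by_cases h2 : InF ZQ E.F (As m) X
      · exact Or.inl h2
      · exact Or.inr ⟨h1, h2⟩
    · rintro (h1 | h1)
      · exact h1.mono (hA m)
      · exact h1.1

/-- the local mean arrows of the strands in `B` are bounded by `K` -/
def KapB (E : WEnv) (B : Finset (ℤ × ℤ)) (K : ℝ) : Prop :=
  ∀ (ω : Cfg) (X : Finset DZ) (e : DZ), X ∈ dstr ZQ E.F ω → InF ZQ E.F B X → e ∈ X → |kap E ω e| ≤ K

theorem KapB.mono {E : WEnv} {K : ℝ} (h : KapB E B K) (hA : A ⊆ B) : KapB E A K :=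
  fun ω X e hX hI he => h ω X e hX (hI.mono hA) he

theorem abs_onX_le {E : WEnv} {K : ℝ} (h : KapB E B K) {U : Finset (Finset DZ)}
    (hU : U ∈ ust ZQ E.F ω) (hI : InF ZQ E.F B (rep U)) : |onX (kap E ω) (rep U)| ≤ K := by
  have hd := rep_dstr hU
  obtain ⟨c, hc, h3⟩ := mem_dstr.mp hd
  have hcX : c ∈ rep U := h3 ▸ self_mem_dst hc
  rw [onX_eq (fun a b h => kap_srel E h) hd hcX]
  exact h ω _ c hd hI hcX

/-- bound by the number of the strands of the class which separate `z` from `v` -/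
theorem abs_csum_le_card {E : WEnv} {K : ℝ} (hK0 : 0 ≤ K) (hP : HasPotQ ZQ E.F)
    {P : Finset DZ → Prop} (hK : KapB E B K) (hPB : ∀ X, P X → InF ZQ E.F B X) (z v : VZ) {N : ℕ}
    (hN : ∀ S ⊆ ust ZQ E.F ω, (∀ U ∈ S, P (rep U) ∧
      lft ZQ E.F (rep U) z ≠ lft ZQ E.F (rep U) v) → S.card ≤ N) :
    |csum E P z v ω| ≤ K * N := by
  classical
  set S := (uP E.F P ω).filter fun U => lft ZQ E.F (rep U) z ≠ lft ZQ E.F (rep U) v with hS
  have h1 : csum E P z v ω = ∑ U ∈ S, ((lft ZQ E.F (rep U) z - lft ZQ E.F (rep U) v : ℤ) : ℝ) *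
      onX (kap E ω) (rep U) := by
    unfold csum
    rw [hS, Finset.sum_filter]
    refine Finset.sum_congr rfl fun U _ => ?_
    split_ifs with h
    · rfl
    · push Not at h
      rw [h, sub_self]
      simp
  rw [h1]
  refine (Finset.abs_sum_le_sum_abs _ _).trans ?_
  have h2 : ∀ U ∈ S, |((lft ZQ E.F (rep U) z - lft ZQ E.F (rep U) v : ℤ) : ℝ) *
      onX (kap E ω) (rep U)| ≤ K := by
    intro U hU
    rw [hS, Finset.mem_filter, mem_uP] at hU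
    obtain ⟨⟨h3, h4⟩, -⟩ := hU
    have h5 := (lft_spec hP (rep_dstr h3)).abs_le z v
    rw [abs_mul]
    have h6 : |((lft ZQ E.F (rep U) z - lft ZQ E.F (rep U) v : ℤ) : ℝ)| ≤ 1 := by
      rw [← Int.cast_abs]
      exact_mod_cast h5
    have h7 := abs_onX_le hK h3 (hPB _ h4)
    calc _ ≤ 1 * |onX (kap E ω) (rep U)| := mul_le_mul_of_nonneg_right h6 (abs_nonneg _)
      _ ≤ K := by rw [one_mul]; exact h7
  have h3 : S.card ≤ N := by
    refine hN S ?_ ?_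
    · intro U hU
      rw [hS, Finset.mem_filter, mem_uP] at hU
      exact hU.1.1
    · intro U hU
      rw [hS, Finset.mem_filter, mem_uP] at hU
      exact ⟨hU.1.2, hU.2⟩
  calc _ ≤ ∑ U ∈ S, K := Finset.sum_le_sum h2
    _ = K * S.card := by rw [Finset.sum_const, nsmul_eq_mul, mul_comm]
    _ ≤ K * N := mul_le_mul_of_nonneg_left (by exact_mod_cast h3) hK0

/-- **bound by the number of large strands of `R`** -/
theorem abs_csum_le {E : WEnv} {K : ℝ} (hK0 : 0 ≤ K) (hP : HasPotQ ZQ E.F)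
    {P : Finset DZ → Prop} (hK : KapB E B K) (hPB : ∀ X, P X → InF ZQ E.F B X) {z v : VZ}
    {R : Finset (ℤ × ℤ)} {n u w : ℤ} {l : ℕ} (hn : 0 < n) (hRF : R ⊆ E.F)
    (hR : R ⊆ RF u (u + n * l) w (w + n * l))
    (hL : ∀ X ∈ dstr ZQ E.F ω, P X → lft ZQ E.F X z ≠ lft ZQ E.F X v →
      ∃ e ∈ X, Large ω (R : Set (ℤ × ℤ)) n (und e)) :
    |csum E P z v ω| ≤ K * lgN R n ω := by
  refine abs_csum_le_card hK0 hP hK hPB z v fun S hS h => ?_
  exact card_le_large hn hRF hR hS fun U hU =>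
    hL _ (rep_dstr (hS hU)) (h U hU).1 (h U hU).2

/-! ### Change of the environment -/

theorem kap_env {E E' : WEnv} (hF : E'.F = E.F) {B : Finset (ℤ × ℤ)}
    (hB : ∀ a ∈ bS ZQ E.F, ∀ b ∈ bS ZQ E.F, Ah ZQ B a → Ah ZQ B b →
      E'.t a b = E.t a b ∧ E'.s a b = E.s a b)
    (hd : X ∈ dstr ZQ E.F ω) (hX : InF ZQ E.F B X) (he : e ∈ X) : kap E' ω e = kap E ω e := by
  unfold kap
  rw [hF]
  by_cases h : Clo ZQ E.F ω e
  · rw [if_pos h, if_pos h]
  · rw [if_neg h, if_neg h]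
    have heF := (dstr_of_mem hd he).1
    have hs := stt_mem h heF
    have hsX : stt E.F ω e ∈ X :=
      (rtg_b' (ω' := ω) hd hX (fun _ _ => rfl) he (stt_spec h).1).1
    have hm : mate ZQ E.F ω (stt E.F ω e) ∈ bS ZQ E.F := mate_mem hs
    have hmX : (mate ZQ E.F ω (stt E.F ω e)).swap ∈ X :=
      (rtg_f' (ω' := ω) hd hX (fun _ _ => rfl) he (stt_last h)).1
    have h1 : Ah ZQ B (stt E.F ω e) := by
      obtain ⟨f, hf, k, h4⟩ := bS_sd hs
      exact ⟨f, hX f hf k (Or.inl (h4 ▸ hsX)), k, h4⟩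
    have h2 : Ah ZQ B (mate ZQ E.F ω (stt E.F ω e)) := by
      obtain ⟨f, hf, k, h4⟩ := bS_sd hm
      exact ⟨f, hX f hf k (Or.inr (h4 ▸ hmX)), k, h4⟩
    rw [(hB _ hs _ hm h1 h2).1, (hB _ hs _ hm h1 h2).2]

theorem csum_env {E E' : WEnv} (hF : E'.F = E.F) {B : Finset (ℤ × ℤ)}
    (hB : ∀ a ∈ bS ZQ E.F, ∀ b ∈ bS ZQ E.F, Ah ZQ B a → Ah ZQ B b →
      E'.t a b = E.t a b ∧ E'.s a b = E.s a b)
    {P : Finset DZ → Prop} (hP : ∀ X, P X → InF ZQ E.F B X) (z v : VZ) (ω : Cfg) :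
    csum E' P z v ω = csum E P z v ω := by
  unfold csum
  rw [hF]
  refine Finset.sum_congr rfl fun U hU => ?_
  obtain ⟨h1, h2⟩ := mem_uP.mp hU
  congr 1
  have hd := rep_dstr h1
  obtain ⟨c, hc, h3⟩ := mem_dstr.mp hd
  have hcX : c ∈ rep U := h3 ▸ self_mem_dst hc
  have hd' : rep U ∈ dstr ZQ E'.F ω := by rw [hF]; exact hd
  rw [onX_eq (fun a b h => kap_srel E h) hd hcX, onX_eq (fun a b h => kap_srel E' h) hd' hcX]
  exact kap_env hF hB hd (hP _ h2) hcX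

/-! ### Geometry of the classes -/

theorem far_large {R : Finset (ℤ × ℤ)} {v : VZ} {r1 r2 n : ℤ} {f g : ℤ × ℤ} {u d : UE}
    (h12 : 2 * n ≤ r1 - r2) (hf : f ∉ BR v r1) (hu : IsSide f u) (hg : g ∈ BR v r2)
    (hd : IsSide g d) (hm : d ∈ MM ω (R : Set (ℤ × ℤ)) u) : Large ω (R : Set (ℤ × ℤ)) n u := by
  have hin : InE v r2 d := inE_of_side (by exact_mod_cast hg) hd
  obtain ⟨⟨c1, c2⟩, c3, c4⟩ := hu.cor
  rw [mem_BR] at hf
  unfold InE InR at hin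
  obtain ⟨⟨i1, i2, i3, i4⟩, i5, i6, i7, i8⟩ := hin
  by_cases k1 : f.1 < v.1 - r1
  · exact ⟨u, mem_MM_self, d, hm, Or.inl (by rcases c3 with h | h <;> omega)⟩
  by_cases k2 : v.1 + r1 ≤ f.1
  · exact ⟨d, hm, u, mem_MM_self, Or.inl (by rcases c1 with h | h <;> omega)⟩
  by_cases k3 : f.2 < v.2 - r1
  · exact ⟨u, mem_MM_self, d, hm, Or.inr (by rcases c4 with h | h <;> omega)⟩
  · exact ⟨d, hm, u, mem_MM_self, Or.inr (by rcases c2 with h | h <;> omega)⟩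

/-- a strand in a small rectangle is contained in a box at every vertex of the rectangle -/
theorem inF_of_ins {z : VZ} {n x y : ℤ}
    (hI : Ins X (x - 2 * n) (x + 2 * n + 1) (y - 2 * n) (y + 2 * n + 1))
    (hz : InR (x - 2 * n) (x + 2 * n + 1) (y - 2 * n) (y + 2 * n + 1) z) :
    InF ZQ F (F ∩ BR z (4 * n + 2)) X := by
  intro f hf k hk
  refine Finset.mem_inter.mpr ⟨hf, ?_⟩
  have hs : IsSide f (su f k) := su_isSide f k
  obtain ⟨⟨c1, c2⟩, c3, c4⟩ := hs.cor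
  have key : InR (x - 2 * n) (x + 2 * n + 1) (y - 2 * n) (y + 2 * n + 1) (ua (su f k)) ∧
      InR (x - 2 * n) (x + 2 * n + 1) (y - 2 * n) (y + 2 * n + 1) (ub (su f k)) := by
    have e1 := sd_dir f k
    have h1 : InR (x - 2 * n) (x + 2 * n + 1) (y - 2 * n) (y + 2 * n + 1) (sd ZQ f k).1 ∧
        InR (x - 2 * n) (x + 2 * n + 1) (y - 2 * n) (y + 2 * n + 1) (sd ZQ f k).2 := by
      rcases hk with hk | hk
      · exact hI _ hk
      · exact (hI _ hk).symm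
    rcases e1 with e1 | e1
    · rw [e1] at h1
      exact h1
    · rw [e1] at h1
      exact h1.symm
  unfold InR at key hz
  obtain ⟨⟨i1, i2, i3, i4⟩, i5, i6, i7, i8⟩ := key
  obtain ⟨z1, z2, z3, z4⟩ := hz
  have hab : (ua (su f k)).1 ≤ (ub (su f k)).1 ∧ (ua (su f k)).2 ≤ (ub (su f k)).2 := by
    generalize su f k = w
    obtain ⟨p, q, d⟩ := w
    cases d <;> simp [ub_false, ub_true, ua_mk]
  rw [mem_BR]
  refine ⟨?_, ?_, ?_, ?_⟩
  · rcases c1 with h | h <;> omega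
  · rcases c1 with h | h <;> omega
  · rcases c2 with h | h <;> omega
  · rcases c2 with h | h <;> omega

/-- a face which is not in the box: a visited face -/
theorem exists_visit {A : Finset (ℤ × ℤ)} (hX : X ∈ dstr ZQ F ω) (h : ¬ InF ZQ F A X) :
    ∃ e ∈ X, e ∈ dE ZQ F ∧ X = dst ZQ F ω e ∧ ∃ f ∈ F, f ∉ A ∧ IsSide f (und e) := by
  unfold InF at h
  push Not at h
  obtain ⟨f, hf, k, hk, hfA⟩ := h
  rcases hk with hk | hk
  · obtain ⟨h1, h2⟩ := dstr_of_mem hX hk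
    refine ⟨_, hk, h1, h2, f, hf, hfA, ?_⟩
    rw [und_sd]
    exact su_isSide f k
  · obtain ⟨h1, h2⟩ := dstr_of_mem hX hk
    refine ⟨_, hk, h1, h2, f, hf, hfA, ?_⟩
    rw [und_sd_swap]
    exact su_isSide f k

/-- **classes around `v`** -/
theorem vclass {z v : VZ} {r0 r1 r2 n ρ : ℤ} (h12 : 2 * n ≤ r1 - r2)
    (h1 : 2 * n + 1 < r1) (hX0 : X0 < X1) (hY0 : Y0 < Y1) (hK : RF X0 X1 Y0 Y1 ⊆ F)
    (hXn : 4 * n + 1 < X1 - X0) (hYn : 4 * n + 1 < Y1 - Y0)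
    (hz : InR X0 X1 Y0 Y1 z) (hv : InR X0 X1 Y0 Y1 v) (hP : HasPotQ ZQ F) (hX : X ∈ dstr ZQ F ω)
    (hin : InF ZQ F (F ∩ BR v r0) X) (hnin : ¬ InF ZQ F (F ∩ BR v r1) X)
    (hzz : (|z.1 - v.1| ≤ ρ ∧ |z.2 - v.2| ≤ ρ ∧ ρ + 2 * n + 1 < r1) ∨
      ¬ InF ZQ F (F ∩ BR z (4 * n + 2)) X)
    (hne : lft ZQ F X z ≠ lft ZQ F X v) :
    ∃ e ∈ X, Large ω (((F ∩ BR v r0) \ (F ∩ BR v r2) : Finset (ℤ × ℤ)) : Set (ℤ × ℤ)) n (und e) := by
  obtain ⟨e, heX, heF, hXe, f, hf, hfA, hfs⟩ := exists_visit hX hnin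
  have hfB : f ∉ BR v r1 := fun h => hfA (Finset.mem_inter.mpr ⟨hf, h⟩)
  refine ⟨e, heX, ?_⟩
  have hex : ∀ d ∈ MM ω (((F ∩ BR v r0) \ (F ∩ BR v r2) : Finset (ℤ × ℤ)) : Set (ℤ × ℤ)) (und e),
      ∀ g ∈ F, g ∉ (F ∩ BR v r0) \ (F ∩ BR v r2) → IsSide g d →
      (∃ k, sd ZQ g k ∈ dst ZQ F ω e ∨ (sd ZQ g k).swap ∈ dst ZQ F ω e) →
      Large ω (((F ∩ BR v r0) \ (F ∩ BR v r2) : Finset (ℤ × ℤ)) : Set (ℤ × ℤ)) n (und e) := by
    intro d hd g hg hgR hgs hvis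
    rw [← hXe] at hvis
    obtain ⟨k, hk⟩ := hvis
    have h3 : g ∈ F ∩ BR v r0 := hin g hg k hk
    have h4 : g ∈ F ∩ BR v r2 := by
      by_contra h5
      exact hgR (Finset.mem_sdiff.mpr ⟨h3, h5⟩)
    exact far_large h12 hfB hfs (Finset.mem_inter.mp h4).2 hgs hd
  rcases large_or_ins heF hex with h | h
  · exact h
  · exfalso
    rw [← hXe] at h
    refine hne ?_
    have hL := lft_spec hP hX
    have hnv : ¬ InR ((ua (und e)).1 - 2 * n) ((ua (und e)).1 + 2 * n + 1)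
        ((ua (und e)).2 - 2 * n) ((ua (und e)).2 + 2 * n + 1) v := by
      intro hc
      obtain ⟨⟨c1, c2⟩, -⟩ := hfs.cor
      rw [mem_BR] at hfB
      unfold InR at hc
      omega
    have hnz : ¬ InR ((ua (und e)).1 - 2 * n) ((ua (und e)).1 + 2 * n + 1)
        ((ua (und e)).2 - 2 * n) ((ua (und e)).2 + 2 * n + 1) z := by
      intro hc
      rcases hzz with ⟨k1, k2, k3⟩ | k
      · obtain ⟨⟨c1, c2⟩, -⟩ := hfs.cor
        rw [mem_BR] at hfB
        rw [abs_le] at k1 k2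
        unfold InR at hc
        omega
      · exact k (inF_of_ins h hc)
    exact lft_rect hL h hX0 hY0 hK (by omega) (by omega) hz hv hnz hnv

/-- **classes around `z`** -/
theorem zclass {z v : VZ} {ρ0 ρ1 n : ℤ} (h1 : 2 * n + 1 < ρ0) (hX0 : X0 < X1) (hY0 : Y0 < Y1)
    (hK : RF X0 X1 Y0 Y1 ⊆ F) (hXn : 4 * n + 1 < X1 - X0) (hYn : 4 * n + 1 < Y1 - Y0)
    (hz : InR X0 X1 Y0 Y1 z) (hv : InR X0 X1 Y0 Y1 v) (hP : HasPotQ ZQ F) (hX : X ∈ dstr ZQ F ω)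
    (hin : InF ZQ F (F ∩ BR z ρ1) X) (hnin : ¬ InF ZQ F (F ∩ BR z ρ0) X)
    (hfar : ρ1 + 2 * n + 1 < |z.1 - v.1| ∨ ρ1 + 2 * n + 1 < |z.2 - v.2|)
    (hne : lft ZQ F X z ≠ lft ZQ F X v) :
    ∃ e ∈ X, Large ω ((F ∩ BR z ρ1 : Finset (ℤ × ℤ)) : Set (ℤ × ℤ)) n (und e) := by
  obtain ⟨e, heX, heF, hXe, f, hf, hfA, hfs⟩ := exists_visit hX hnin
  have hfB : f ∉ BR z ρ0 := fun h => hfA (Finset.mem_inter.mpr ⟨hf, h⟩)
  have hfin : f ∈ BR z ρ1 := by
    obtain ⟨k, hk⟩ := visits_of_side (ω := ω) heF hf mem_MM_self hfs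
    rw [← hXe] at hk
    exact (Finset.mem_inter.mp (hin f hf k hk)).2
  refine ⟨e, heX, ?_⟩
  have hex : ∀ d ∈ MM ω ((F ∩ BR z ρ1 : Finset (ℤ × ℤ)) : Set (ℤ × ℤ)) (und e),
      ∀ g ∈ F, g ∉ F ∩ BR z ρ1 → IsSide g d →
      (∃ k, sd ZQ g k ∈ dst ZQ F ω e ∨ (sd ZQ g k).swap ∈ dst ZQ F ω e) →
      Large ω ((F ∩ BR z ρ1 : Finset (ℤ × ℤ)) : Set (ℤ × ℤ)) n (und e) := by
    intro d hd g hg hgR hgs hvis
    rw [← hXe] at hvis
    obtain ⟨k, hk⟩ := hvis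
    exact absurd (hin g hg k hk) hgR
  rcases large_or_ins heF hex with h | h
  · exact h
  · exfalso
    rw [← hXe] at h
    refine hne ?_
    have hL := lft_spec hP hX
    obtain ⟨⟨c1, c2⟩, -⟩ := hfs.cor
    have hnz : ¬ InR ((ua (und e)).1 - 2 * n) ((ua (und e)).1 + 2 * n + 1)
        ((ua (und e)).2 - 2 * n) ((ua (und e)).2 + 2 * n + 1) z := by
      intro hc
      rw [mem_BR] at hfB
      unfold InR at hc
      omega
    have hnv : ¬ InR ((ua (und e)).1 - 2 * n) ((ua (und e)).1 + 2 * n + 1)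
        ((ua (und e)).2 - 2 * n) ((ua (und e)).2 + 2 * n + 1) v := by
      intro hc
      rw [mem_BR] at hfin
      unfold InR at hc
      rw [lt_abs, lt_abs] at hfar
      omega
    exact lft_rect hL h hX0 hY0 hK (by omega) (by omega) hz hv hnz hnv

end HG

end

end Pool.Agent.SixB
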