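import Pool.Agent.Lib.SixB.S6LHgtC
import Pool.Agent.Lib.SixB.S6LHeavy
import Pool.Agent.Lib.SixB.S6LPerc
import Pool.Agent.Lib.SixB.S6LSplit

/-!
# 6BD, block CA-L, row L6: heights by scale, part 4 (crossing strands)

* `path_ring`: a path of the component from `I` to `O` has a piece in `R` from `I` to `O`.
* `leg_of_mm`, `leg_of_vis`: a strand which visits `I` and leaves `M` has a leg (`Leg` of S4A).
* `large_of_vis`: a strand which visits `BR v r2` and leaves `BR v r0` has a large piece in the ring.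
* `Leg ⊆ Pev`, `av_leg_le`: the probability of a leg between the radii `r ≤ R` is at most `C (r / R) ^ (1/4)`.
-/

set_option autoImplicit false
set_option linter.unusedSectionVars false

namespace Pool.Agent.SixB

open Pool.Agent.Perc Pool.Agent.Perc.Q Relation Pool.Agent.SixB.Tilt PercD PercN

noncomputable section

namespace HG

variable {F A B I M : Finset (ℤ × ℤ)} {ω ω' : Cfg} {a b c e : DZ} {X : Finset DZ}

/-- a path of the component from a side of a face of `I` to a side of a face of `O` -/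
theorem path_ring {F I R O : Set (ℤ × ℤ)} (hF : ∀ f ∈ F, f ∈ I ∨ f ∈ R ∨ f ∈ O) {x y : UE}
    (hx : ∃ g ∈ I, IsSide g x) (hy : ∃ g ∈ O, IsSide g y) (h : y ∈ MM ω F x) :
    ∃ u d, u ∈ MM ω F x ∧ d ∈ MM ω F x ∧ d ∈ MM ω R u ∧ (∃ g ∈ I, IsSide g u) ∧
      ∃ g ∈ O, IsSide g d := by
  have key : ∀ w, w ∈ MM ω F x → (∃ u, u ∈ MM ω F x ∧ w ∈ MM ω R u ∧ ∃ g ∈ I, IsSide g u) ∨
      ∃ u d, u ∈ MM ω F x ∧ d ∈ MM ω F x ∧ d ∈ MM ω R u ∧ (∃ g ∈ I, IsSide g u) ∧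
        ∃ g ∈ O, IsSide g d := by
    intro w hw
    induction hw with
    | refl => exact Or.inl ⟨x, mem_MM_self, mem_MM_self, hx⟩
    | @tail p q hp hs ih =>
      rcases ih with ⟨u, h1, h2, h3⟩ | h1
      · obtain ⟨f, hf, hm⟩ := hs
        rcases hF f hf with h4 | h4 | h4
        · exact Or.inl ⟨q, Relation.ReflTransGen.tail hp ⟨f, hf, hm⟩, mem_MM_self, f, h4, hm.right⟩
        · exact Or.inl ⟨u, h1, Relation.ReflTransGen.tail h2 ⟨f, h4, hm⟩, h3⟩
        · exact Or.inr ⟨u, p, h1, hp, h2, h3, f, h4, hm.left⟩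
      · exact Or.inr h1
  rcases key y h with ⟨u, h1, h2, h3⟩ | h1
  · exact ⟨u, y, h1, h, h2, h3, hy⟩
  · exact h1

/-- a directed edge which leaves the face `g` -/
theorem exists_out {g : ℤ × ℤ} {u : UE} (h : IsSide g u) : ∃ c : DZ, Ah ZQ {g} c.swap ∧ und c = u := by
  obtain ⟨k, rfl⟩ := isSide_iff.mp h
  exact ⟨(sd ZQ g k).swap, ⟨g, Finset.mem_singleton_self _, k, Prod.swap_swap _⟩, und_sd_swap g k⟩

theorem ah_or {g : ℤ × ℤ} {u : UE} (h : IsSide g u) {G : Finset (ℤ × ℤ)} (hc : c ∈ dE ZQ G)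
    (hu : und c = u) : Ah ZQ {g} c ∨ Ah ZQ {g} c.swap := by
  obtain ⟨k, rfl⟩ := isSide_iff.mp h
  have h1 : sd ZQ g k ∈ dE ZQ {g} := mem_dE.mpr ⟨g, Finset.mem_singleton_self _, k, Or.inl rfl⟩
  rcases und_inj hc h1 (by rw [hu, und_sd]) with h2 | h2
  · exact Or.inl ⟨g, Finset.mem_singleton_self _, k, h2⟩
  · exact Or.inr ⟨g, Finset.mem_singleton_self _, k, by rw [h2, Prod.swap_swap]⟩

/-- a piece in `M \ I` from a side of a face of `I` to a side of a face of `F \ M` is a leg -/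
theorem leg_of_mm {g1 g2 : ℤ × ℤ} (hg1 : g1 ∈ I) (hg2 : g2 ∈ F \ M) (hIM : I ⊆ M) {u d : UE}
    (h1 : IsSide g1 u) (h2 : IsSide g2 d)
    (hm : d ∈ MM ω ((M \ I : Finset (ℤ × ℤ)) : Set (ℤ × ℤ)) u) : ∃ c, Leg ZQ ω F I M c := by
  obtain ⟨c, hc, hcu⟩ := exists_out h1
  have hcI : Ah ZQ I c.swap := hc.mono (Finset.singleton_subset_iff.mpr hg1)
  have hcE : c ∈ dE ZQ I := mem_dE_ah.mpr (Or.inr hcI)
  by_cases hud : u = d
  · subst hud
    refine ⟨c, hcI, c, ReflTransGen.refl, ?_⟩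
    rcases ah_or h2 hcE hcu with h3 | h3
    · exact h3.mono (Finset.singleton_subset_iff.mpr hg2)
    · exfalso
      refine ah_disj (Finset.disjoint_sdiff (s := M) (t := F)) (hcI.mono hIM)
        (h3.mono (Finset.singleton_subset_iff.mpr hg2))
  · -- `u` is a side of a face of the ring
    obtain ⟨⟨f, hf, hfu⟩, -⟩ := side_of_large (ω := ω) (b := u) mem_MM_self hm hud
    have hcR : c ∈ dE ZQ (M \ I) := by
      obtain ⟨x, hx, hxu⟩ := side_dE (F := M \ I) (by exact_mod_cast hf) hfu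
      rcases und_inj hcE hx (hcu.trans hxu.symm) with h3 | h3
      · exact h3 ▸ hx
      · rw [h3]
        exact swap_mem_dE.mpr hx
    rw [← hcu] at hm
    obtain ⟨y, hy, hyd, hs⟩ := srel_of_MM hcR hm
    have hdisj : Disjoint (M \ I) I := Finset.sdiff_disjoint
    have hpath : ReflTransGen (Nx ZQ ω ((M \ I : Finset (ℤ × ℤ)) : Set (ℤ × ℤ))) c y := by
      rcases srel_iff.mp hs with h3 | h3
      · exact h3
      · rcases ReflTransGen.cases_tail h3 with h4 | ⟨w, -, h4⟩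
        · rw [h4]
        · exact (ah_disj hdisj (ah_right h4) hcI).elim
    refine ⟨c, hcI, y, hpath, ?_⟩
    rcases ah_or h2 hy hyd with h3 | h3
    · exact h3.mono (Finset.singleton_subset_iff.mpr hg2)
    · exfalso
      have h5 : Ah ZQ (F \ M) y.swap := h3.mono (Finset.singleton_subset_iff.mpr hg2)
      rcases ReflTransGen.cases_tail hpath with h4 | ⟨w, -, h4⟩
      · exact hud (by rw [← hcu, ← hyd, h4])
      · exact ah_disj (Finset.disjoint_sdiff (s := M) (t := F))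
          ((ah_right h4).mono Finset.sdiff_subset) h5

/-- `X` visits a face of `A` -/
def VisX (F A : Finset (ℤ × ℤ)) (X : Finset DZ) : Prop :=
  ∃ f ∈ F, f ∈ A ∧ ∃ k, sd ZQ f k ∈ X ∨ (sd ZQ f k).swap ∈ X

theorem visX_side (hX : X ∈ dstr ZQ F ω) (h : VisX F A X) : ∃ e ∈ X, e ∈ dE ZQ F ∧ X = dst ZQ F ω e ∧
    ∃ f ∈ F, f ∈ A ∧ IsSide f (und e) := by
  obtain ⟨f, hf, hfA, k, hk⟩ := h
  rcases hk with hk | hk
  · obtain ⟨h1, h2⟩ := dstr_of_mem hX hk
    exact ⟨_, hk, h1, h2, f, hf, hfA, by rw [und_sd]; exact su_isSide f k⟩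
  · obtain ⟨h1, h2⟩ := dstr_of_mem hX hk
    exact ⟨_, hk, h1, h2, f, hf, hfA, by rw [und_sd_swap]; exact su_isSide f k⟩

/-- a strand which visits `I` and leaves `M`: its piece in `M \ I` -/
theorem ring_piece (hX : X ∈ dstr ZQ F ω) (hI : VisX F I X) (hM : ¬ InF ZQ F M X) :
    ∃ e ∈ X, e ∈ dE ZQ F ∧ ∃ g2 ∈ F \ M, IsSide g2 (und e) ∧
      ∃ u, u ∈ MM ω ((M \ I : Finset (ℤ × ℤ)) : Set (ℤ × ℤ)) (und e) ∧ ∃ g1 ∈ I, IsSide g1 u := by
  obtain ⟨e, heX, heF, hXe, f, hf, hfA, hfs⟩ := visX_side hX hI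
  obtain ⟨e', heX', heF', hXe', f', hf', hfA', hfs'⟩ := exists_visit hX hM
  have hm : und e' ∈ MM ω (F : Set (ℤ × ℤ)) (und e) := by
    rw [MM_iff_dst heF heF', ← hXe]
    exact Or.inl heX'
  obtain ⟨u, d, h1, h2, h3, ⟨g1, hg1, hs1⟩, g2, hg2, hs2⟩ :=
    path_ring (F := (F : Set (ℤ × ℤ))) (I := (I : Set (ℤ × ℤ)))
      (R := ((M \ I : Finset (ℤ × ℤ)) : Set (ℤ × ℤ))) (O := ((F \ M : Finset (ℤ × ℤ)) : Set (ℤ × ℤ)))
      (fun g hg => by
        by_cases k1 : g ∈ I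
        · exact Or.inl (by exact_mod_cast k1)
        by_cases k2 : g ∈ M
        · exact Or.inr (Or.inl (by rw [Finset.mem_coe, Finset.mem_sdiff]; exact ⟨k2, k1⟩))
        · exact Or.inr (Or.inr (by
            rw [Finset.mem_coe, Finset.mem_sdiff]
            exact ⟨by exact_mod_cast hg, k2⟩)))
      ⟨f, by exact_mod_cast hfA, hfs⟩
      ⟨f', by rw [Finset.mem_coe, Finset.mem_sdiff]; exact ⟨hf', hfA'⟩, hfs'⟩ hm
  obtain ⟨y, hy, hyd, hys⟩ := srel_of_MM heF h2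
  refine ⟨y, ?_, hy, g2, by exact_mod_cast hg2, by rw [hyd]; exact hs2, u, ?_, g1,
    by exact_mod_cast hg1, hs1⟩
  · rw [hXe]
    exact mem_dst.mpr ⟨hy, hys⟩
  · rw [hyd]
    exact MM_symm h3

/-- **a strand which visits `I` and leaves `M` has a leg** -/
theorem leg_of_vis (hIM : I ⊆ M) (hX : X ∈ dstr ZQ F ω) (hI : VisX F I X) (hM : ¬ InF ZQ F M X) :
    ¬ NoLeg ZQ ω F I M := by
  obtain ⟨e, -, -, g2, hg2, hs2, u, hu, g1, hg1, hs1⟩ := ring_piece hX hI hM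
  intro h
  obtain ⟨c, hc⟩ := leg_of_mm hg1 hg2 hIM hs1 hs2 (MM_symm hu)
  exact h c hc

/-- **a strand which visits `BR v r2` and leaves `BR v r0` has a large piece in the ring** -/
theorem large_of_vis {v : VZ} {r0 r2 n : ℤ} (h02 : 2 * n ≤ r0 - r2) (hX : X ∈ dstr ZQ F ω)
    (hI : VisX F (F ∩ BR v r2) X) (hM : ¬ InF ZQ F (F ∩ BR v r0) X) :
    ∃ e ∈ X, Large ω (((F ∩ BR v r0) \ (F ∩ BR v r2) : Finset (ℤ × ℤ)) : Set (ℤ × ℤ)) n (und e) := by
  obtain ⟨e, heX, heF, g2, hg2, hs2, u, hu, g1, hg1, hs1⟩ := ring_piece hX hI hM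
  refine ⟨e, heX, ?_⟩
  obtain ⟨k1, k2⟩ := Finset.mem_sdiff.mp hg2
  have k3 : g2 ∉ BR v r0 := fun h => k2 (Finset.mem_inter.mpr ⟨k1, h⟩)
  exact far_large h02 k3 hs2 (Finset.mem_inter.mp hg1).2 hs1 hu

/-! ### Probability of legs -/

theorem leg_pev {v : VZ} {r R : ℤ} (hrR : r ≤ R) (hc : Leg ZQ ω F (F ∩ BR v r) (F ∩ BR v R) c) :
    ω ∈ Pev v r R := by
  obtain ⟨h1, b, h2, h3⟩ := hc
  obtain ⟨g1, hg1, k1, e1⟩ := h1
  obtain ⟨g2, hg2, k2, e2⟩ := h3
  have u1 : und c = su g1 k1 := by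
    have h4 := und_sd_swap g1 k1
    rwa [← e1, Prod.swap_swap] at h4
  have u2 : und b = su g2 k2 := by
    rw [e2, und_sd]
  have h5 : und b ∈ MM ω (((F ∩ BR v R) \ (F ∩ BR v r) : Finset (ℤ × ℤ)) : Set (ℤ × ℤ)) (und c) :=
    MM_of_srel (srel_iff.mpr (Or.inl h2))
  have hin : InE v r (und c) := by
    rw [u1]
    exact inE_of_side (by exact_mod_cast (Finset.mem_inter.mp hg1).2) (su_isSide g1 k1)
  refine ⟨und c, hin, und b, ?_, ?_⟩
  · refine MM_mono (fun f hf => ?_) h5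
    rw [Finset.mem_coe, Finset.mem_sdiff, Finset.mem_inter] at hf
    exact_mod_cast hf.1.2
  · -- on the boundary
    have hg2' : g2 ∉ BR v R := fun h => by
      obtain ⟨k3, k4⟩ := Finset.mem_sdiff.mp hg2
      exact k4 (Finset.mem_inter.mpr ⟨k3, h⟩)
    rcases ReflTransGen.cases_tail h2 with h6 | ⟨w, -, h6⟩
    · -- trivial path
      have hin' : InE v R (und b) := by
        rw [h6]
        unfold InE InR at hin ⊢
        omega
      exact bd_of_side hin' (by rw [u2]; exact su_isSide g2 k2) (by exact_mod_cast hg2')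
    · obtain ⟨f, hf, k, h7⟩ := ah_right h6
      have h8 : und b = su f k := by
        have h9 := und_sd_swap f k
        rwa [← h7, Prod.swap_swap] at h9
      have hfR : f ∈ BR v R := by
        rw [Finset.mem_sdiff, Finset.mem_inter] at hf
        exact hf.1.2
      refine bd_of_side ?_ (f := g2) (by rw [u2]; exact su_isSide g2 k2) (by exact_mod_cast hg2')
      rw [h8]
      exact inE_of_side (by exact_mod_cast hfR) (su_isSide f k)

/-- the probability of a leg -/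
theorem av_leg_le : ∃ C : ℝ, 0 < C ∧ ∀ (F : Finset (ℤ × ℤ)) (v : VZ) (r R : ℕ), 1 ≤ r → r ≤ R →
    av F (LH.ic fun ω => ¬ NoLeg ZQ ω F (F ∩ BR v (r : ℤ)) (F ∩ BR v (R : ℤ))) ≤
      C * ((r : ℝ) / R) ^ (1 / 4 : ℝ) := by
  classical
  obtain ⟨C, hC, h⟩ := pi_bound upperHyp tailHyp
  refine ⟨C, hC, fun F v r R hr hrR => ?_⟩
  have hd : Dep (F : Set (ℤ × ℤ)) (LH.ic fun ω => ¬ NoLeg ZQ ω F (F ∩ BR v (r : ℤ))
      (F ∩ BR v (R : ℤ))) := by
    intro ω ω' hω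
    refine LH.ic_congr ?_
    have h1 := noLeg_dep (Q := ZQ) (F := F) (I := F ∩ BR v (r : ℤ)) (M := F ∩ BR v (R : ℤ)) ω ω'
      (fun f hf => hω f (by
        rw [Finset.mem_coe, Finset.mem_sdiff, Finset.mem_inter] at hf
        exact_mod_cast hf.1.1))
    simp only [h1]
  rw [← av_dep hd (Finset.subset_union_left : F ⊆ F ∪ BR v (R : ℤ))]
  refine le_trans ?_ (h v r R hr hrR)
  rw [← pr_eq_of_depOn (depOn_Pev v r R) (Finset.subset_union_right : BR v (R : ℤ) ⊆ F ∪ BR v (R : ℤ)),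
    pr_eq_av]
  refine av_mono fun T _ => ?_
  unfold LH.ic
  by_cases h1 : NoLeg ZQ (ind T) F (F ∩ BR v (r : ℤ)) (F ∩ BR v (R : ℤ))
  · rw [if_neg (not_not.mpr h1)]
    split_ifs <;> norm_num
  · rw [if_pos h1]
    have h2 : (ind T : Cfg) ∈ Pev v (r : ℤ) (R : ℤ) := by
      unfold NoLeg at h1
      push Not at h1
      obtain ⟨c, hc⟩ := h1
      exact leg_pev (by exact_mod_cast hrR) hc
    rw [if_pos h2]

end HG

end

end Pool.Agent.SixB
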