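import Pool.Agent.Lib.SixB.S6LFin
import Pool.Agent.Lib.SixB.S6LHeavy
import Pool.Agent.Lib.SixB.S6LSplit

/-!
# SixB, input L: the decoupling theorem for a complex of quadrangles

`LData Q F ov`: boxes `Bx j` at a mark (`ov` = pairs of boundary sides on different sides of the mark), bounds `M j`, `Y j`
of the numbers of arcs lost from one box to the next (`Y j` on crossed levels). `LData.sys`: the system of `S6LCon`.
`exists_good`: the quantitative hypotheses from the moments of `M`, `Y` and the probability of a crossed level.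
`decouple_wt`: two weights with the same local law give the same mean of an observable of depth `m0` up to `C th ^ m0`.
-/

set_option autoImplicit false
set_option linter.unusedVariables false
set_option linter.unusedSectionVars false

namespace Pool.Agent.SixB

/-- upper bound for a signed weight -/
structure Upp {Ω ι : Type*} (P : ExpSys Ω ι) (W : Ω → ℝ) (C A : ℝ) : Prop where
  le : ∀ (Y : Ω → ℝ) (x : ℝ), (∀ ω, 0 ≤ Y ω) → 0 ≤ x → P.E (fun ω => Y ω ^ 4) ≤ x ^ 4 →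
    P.E (fun ω => |W ω| * Y ω) ≤ C * x * A

namespace LSys

variable {Ω ι : Type*} {P : ExpSys Ω ι} {S : LSys P}

theorem b0_le_one (s : ℕ) (ω : Ω) : S.b0 s ω ≤ 1 := by
  unfold b0
  refine Finset.prod_le_one (fun i _ => ?_) fun i _ => ?_
  · linarith [gi_le_one (A := S.G i) (ω := ω)]
  · linarith [gi_nonneg (A := S.G i) (ω := ω)]

theorem b0_dep (s : ℕ) : P.Dep (S.B s)ᶜ (S.b0 s) := by
  unfold b0
  refine ExpSys.Dep.prod _ _ fun l hl => ?_
  rw [Finset.mem_range] at hl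
  have h1 : P.Dep (S.B s)ᶜ (gi (S.G l)) := (dep_gi l).mono fun x hx hx' =>
    hx.2 (box_anti S.hB (by omega) hx')
  exact h1.comp fun x => 1 - x

theorem E_b0_le {x : ℝ} (hx : 0 ≤ x) (h : ∀ j, P.E (fun ω => 1 - gi (S.G j) ω) ≤ x) (s : ℕ) :
    P.E (S.b0 s) ≤ x ^ s := by
  induction s with
  | zero =>
    rw [pow_zero]
    have : S.b0 0 = fun _ => 1 := by
      funext ω
      simp [b0]
    rw [this, P.one]
  | succ s ih =>
    have e : S.b0 (s + 1) = fun ω => S.b0 s ω * (1 - gi (S.G s) ω) := by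
      funext ω
      unfold b0
      rw [Finset.prod_range_succ]
    rw [e, P.E_indep disjoint_compl_left (b0_dep s)
      (((dep_gi s).mono fun x hx => hx.1).comp fun x => 1 - x), pow_succ]
    refine mul_le_mul ih (h s) (P.E_nonneg fun ω => ?_) (pow_nonneg hx _)
    linarith [gi_le_one (A := S.G s) (ω := ω)]

/-- environments from the upper bound -/
theorem env_of_upp {t eta Cf CW A : ℝ} {m0 : ℕ} {f0 W : Ω → ℝ} (h0 : 0 < eta) (hCf : 0 ≤ Cf)
    (hbad : ∀ j, P.E (fun ω => 1 - gi (S.G j) ω) ≤ eta ^ 4)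
    (hf0 : ∀ ω, 0 ≤ f0 ω) (hd : P.Dep (S.B (m0 + 1)) f0) (hm : P.E (fun ω => f0 ω ^ 8) ≤ Cf ^ 8)
    (hs : ∀ l ≤ m0, ∃ U : Ω → ℝ, P.Dep (S.B (l + 1))ᶜ U ∧ ∀ ω ∈ S.G l, W ω = U ω * S.V t l ω)
    (hU : Upp P W CW A) : S.Env t m0 f0 W eta Cf CW A := by
  have hb : ∀ s, P.E (fun ω => S.b0 s ω ^ 4) ≤ (eta ^ s) ^ 4 := by
    intro s
    have h1 := E_b0_le (S := S) (show 0 ≤ eta ^ 4 by positivity) hbad s
    refine le_trans (P.mono _ _ fun ω => ?_) (h1.trans (le_of_eq ?_))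
    · exact pow_le_of_le_one (b0_nonneg s ω) (b0_le_one s ω) (by norm_num)
    · rw [← pow_mul, ← pow_mul, mul_comm]
  have hf4 : P.E (fun ω => f0 ω ^ 4) ≤ Cf ^ 4 := by
    have h1 := P.cs (fun ω => f0 ω ^ 4) (fun _ => 1)
    simp only [mul_one, one_pow, P.one] at h1
    have e : (fun ω => (f0 ω ^ 4) ^ 2) = fun ω => f0 ω ^ 8 := by
      funext ω
      rw [← pow_mul]
    rw [e] at h1
    have h2 : P.E (fun ω => f0 ω ^ 4) ^ 2 ≤ (Cf ^ 4) ^ 2 := by
      refine (h1.trans hm).trans (le_of_eq ?_)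
      ring
    exact (abs_le_of_sq_le_sq' h2 (by positivity)).2
  refine ⟨hs, fun s _ => ?_, ?_⟩
  · exact hU.le _ _ (b0_nonneg s) (by positivity) (hb s)
  · have h1 := hU.le (fun ω => S.b0 (m0 + 1) ω * f0 ω) (eta ^ (m0 + 1) * Cf)
      (fun ω => mul_nonneg (b0_nonneg _ ω) (hf0 ω)) (by positivity) (by
        have e : (fun ω => (S.b0 (m0 + 1) ω * f0 ω) ^ 4) =
            fun ω => S.b0 (m0 + 1) ω ^ 4 * f0 ω ^ 4 := by
          funext ω
          rw [mul_pow]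
        rw [e, P.E_indep disjoint_compl_left ((b0_dep (m0 + 1)).comp fun x => x ^ 4)
          (hd.comp fun x => x ^ 4), mul_pow]
        exact mul_le_mul (hb _) hf4 (P.E_nonneg fun ω => by
          have := hf0 ω
          positivity) (by positivity))
    refine le_trans (le_of_eq ?_) (h1.trans (le_of_eq ?_))
    · congr 1
      funext ω
      ring
    · ring

end LSys

end Pool.Agent.SixB

namespace Pool.Agent.SixB.Tilt

open Pool.Agent.Perc.Q Relation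

noncomputable section

variable {V Φ : Type} [DecidableEq V] [DecidableEq Φ]

/-- data near a mark -/
structure LData (Q : QC V Φ) (F : Finset Φ) (ov : Sym2 (V × V) → Prop) where
  /-- boxes -/
  Bx : ℕ → Finset Φ
  J : ℕ
  hB : ∀ j, Bx (j + 1) ⊆ Bx j
  hF : Bx 0 ⊆ F
  hJ : ∀ j, J ≤ j → Bx j = ∅
  /-- bound of the number of arcs of `ov` which are contained in `Bx j` but not in `Bx (j + 1)` -/
  M : ℕ → (Φ → Bool) → ℕ
  /-- the same on crossed levels -/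
  Y : ℕ → (Φ → Bool) → ℕ
  hM : ∀ j, Dep ((Bx j : Set Φ) \ (Bx (j + 2) : Set Φ)) (M j)
  hY : ∀ j, Dep ((Bx j : Set Φ) \ (Bx (j + 2) : Set Φ)) (Y j)
  hLM : ∀ j ω, LN ov Q F Bx j ω ≤ LN ov Q F Bx (j + 1) ω + M j ω
  hLY : ∀ j ω, ¬ NoLeg Q ω F (Bx (j + 1)) (Bx j) →
    LN ov Q F Bx j ω ≤ LN ov Q F Bx (j + 1) ω + Y j ω

namespace LData

variable {Q : QC V Φ} {F : Finset Φ} {ov : Sym2 (V × V) → Prop} (D : LData Q F ov)

/-- the level `j` is crossed -/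
def cr (j : ℕ) (ω : Φ → Bool) : Prop := ¬ NoLeg Q ω F (D.Bx (j + 1)) (D.Bx j)

/-- the level `j` is heavy -/
def hv (T ka : ℝ) (j : ℕ) (ω : Φ → Bool) : Prop :=
  LH.Hv (D.Bx (j + 1) \ D.Bx (j + 2)) (ka ^ 2) (fun ω => (T ^ D.M j ω) ^ 2) ω

theorem cr_dep (j : ℕ) : Dep ((D.Bx j : Set Φ) \ (D.Bx (j + 1) : Set Φ)) (D.cr j) := by
  have h := noLeg_dep (Q := Q) (F := F) (I := D.Bx (j + 1)) (M := D.Bx j)
  intro ω ω' hω
  have h1 : NoLeg Q ω F (D.Bx (j + 1)) (D.Bx j) = NoLeg Q ω' F (D.Bx (j + 1)) (D.Bx j) :=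
    h ω ω' fun f hf => hω f (by simpa using hf)
  unfold cr
  rw [h1]

theorem hv_dep (T ka : ℝ) (j : ℕ) :
    Dep ((D.Bx j : Set Φ) \ (D.Bx (j + 1) : Set Φ)) (D.hv T ka j) := by
  refine LH.hv_dep (A := (D.Bx j : Set Φ) \ (D.Bx (j + 1) : Set Φ)) ?_ _
  intro ω ω' hω
  show (T ^ D.M j ω) ^ 2 = (T ^ D.M j ω') ^ 2
  rw [D.hM j ω ω' fun f hf => hω f ?_]
  by_cases h : f ∈ (D.Bx (j + 1) : Set Φ)
  · right
    rw [Finset.mem_coe, Finset.mem_sdiff]
    exact ⟨h, hf.2⟩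
  · exact Or.inl ⟨hf.1, h⟩

/-- the system of the mark -/
def sys (T ka : ℝ) (hT : 1 ≤ T) : LSys (LH.avSys F) where
  B := fun j => (D.Bx j : Set Φ)
  G := fun j => {ω | ¬ D.cr j ω ∧ ¬ D.hv T ka j ω}
  N := LN ov Q F D.Bx
  M := D.M
  n := Ln ov Q F D.Bx
  p := Lp ov Q F D.Bx
  X := fun j => LH.Xb T (D.Y j) (D.M j) (D.cr j) (D.hv T ka j)
  J := D.J
  hB := fun j => by exact_mod_cast D.hB j
  hG := fun j ω ω' hω => by
    show (¬ D.cr j ω ∧ ¬ D.hv T ka j ω) = (¬ D.cr j ω' ∧ ¬ D.hv T ka j ω')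
    rw [D.cr_dep j ω ω' hω, D.hv_dep T ka j ω ω' hω]
  hN := fun j => LN_dep D.hB D.hF j
  hM := D.hM
  hn := fun j => Ln_dep D.hB D.hF j
  hX := fun j => LH.Xb_dep (D.hY j) (D.hM j)
    ((D.cr_dep j).mono (Set.sdiff_subset_sdiff subset_rfl (by exact_mod_cast D.hB (j + 1))))
    ((D.hv_dep T ka j).mono (Set.sdiff_subset_sdiff subset_rfl (by exact_mod_cast D.hB (j + 1))))
  hp := fun j l hjl => (Lp_dep D.hB D.hF hjl.le).mono (by
    intro x hx
    simpa using hx)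
  hN1 := fun j ω => LN_anti D.hB ω
  hN2 := D.hLM
  hn1 := fun j ω => LN_le_Ln D.hB ω
  hn2 := fun j ω => Ln_le ω
  hs := fun j l ω hjl hω => Ln_split D.hB D.hF hjl (not_not.1 hω.1)
  hX0 := fun j ω => LH.Xb_nonneg hT _ _ _ _ ω
  hJ := fun j hj ω => LN_empty (D.hJ j hj) ω

/-! ## The quantitative hypotheses -/

theorem bad_le_Xb {T ka : ℝ} (hT : 1 ≤ T) (j : ℕ) (ω : Φ → Bool) :
    1 - gi ((D.sys T ka hT).G j) ω ≤ (D.sys T ka hT).X j ω ^ 4 := by
  by_cases h : ω ∈ (D.sys T ka hT).G j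
  · rw [gi_mem h, sub_self]
    exact pow_nonneg ((D.sys T ka hT).hX0 j ω) 4
  · rw [gi_notMem h, sub_zero]
    refine one_le_pow₀ ?_
    show 1 ≤ LH.Xb T (D.Y j) (D.M j) (D.cr j) (D.hv T ka j) ω
    by_cases h2 : D.hv T ka j ω
    · rw [LH.Xb_heavy h2]
      exact one_le_pow₀ hT
    · have h1 : D.cr j ω := by
        by_contra h1
        exact h ⟨h1, h2⟩
      rw [LH.Xb_cross h1 h2]
      exact one_le_pow₀ hT

/-- moments and crossing probabilities -/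
structure Mom (D : LData Q F ov) (T CY p0 CM : ℝ) : Prop where
  hY : ∀ j, av F (fun ω => (T ^ 8) ^ D.Y j ω) ≤ CY
  hp : ∀ j, av F (LH.ic (D.cr j)) ≤ p0
  hM : ∀ j, av F (fun ω => (2 * T ^ 8) ^ D.M j ω) ≤ CM

end LData

/-- **the quantitative hypotheses**: first `p0`, then the threshold `ka` -/
theorem exists_good (T eta CY : ℝ) (hT : 1 ≤ T) (h0 : 0 < eta) (h1 : eta ≤ 1 / 2) (hCY : 0 ≤ CY) :
    ∃ p0 : ℝ, 0 < p0 ∧ ∀ CM : ℝ, 1 ≤ CM → ∃ (m : ℕ) (ka : ℝ), 1 ≤ ka ∧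
      ∀ {V Φ : Type} [DecidableEq V] [DecidableEq Φ] {Q : QC V Φ} {F : Finset Φ}
        {ov : Sym2 (V × V) → Prop} (D : LData Q F ov) {t : ℝ}, 1 ≤ t → t ≤ T →
        D.Mom T CY p0 CM → (D.sys T ka hT).Good t T m (1 / 2) eta ka CM ∧
          ∀ j, av F (fun ω => 1 - gi ((D.sys T ka hT).G j) ω) ≤ eta ^ 4 := by
  obtain ⟨p, hp, hc⟩ := LH.choose_const (CY := CY) (η := eta ^ 4) (by positivity) hCY
  refine ⟨p, hp, fun CM hCM => ?_⟩
  have hCM0 : 0 ≤ CM := by linarith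
  obtain ⟨κ0, hκ0, hκ⟩ := hc CM CM hCM0 hCM0
  obtain ⟨m, hm⟩ := exists_pow_lt_of_lt_one (show (0 : ℝ) < 1 / 16 / CM by positivity)
    (show (1 / 2 : ℝ) < 1 by norm_num)
  refine ⟨m, 1 + κ0, by linarith, ?_⟩
  intro V Φ _ _ Q F ov D t ht htT hD
  set ka := 1 + κ0 with hka
  have hka1 : 1 ≤ ka := by linarith
  have hka2 : κ0 ≤ ka ^ 2 := by nlinarith
  have hT8 : 1 ≤ T ^ 8 := one_le_pow₀ hT
  have hpow : ∀ k : ℕ, (T ^ 8) ^ k ≤ (2 * T ^ 8) ^ k := fun k =>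
    pow_le_pow_left₀ (by positivity) (by linarith) k
  have hM8 : ∀ j, av F (fun ω => (T ^ 8) ^ D.M j ω) ≤ CM := fun j =>
    (av_mono fun _ _ => hpow _).trans (hD.hM j)
  have hg : ∀ j, av F (fun ω => (T ^ D.M j ω) ^ 2) ≤ CM := by
    intro j
    refine le_trans (av_mono fun U _ => ?_) (hM8 j)
    rw [← pow_mul, ← pow_mul]
    exact pow_le_pow_right₀ hT (by omega)
  have hq : ∀ j, av F (LH.ic (D.hv T ka j)) ≤ CM / ka ^ 2 := by
    intro j
    have h2 := LH.hv_prob (W := F) (A' := D.Bx (j + 1) \ D.Bx (j + 2))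
      (Finset.sdiff_subset.trans (bx_sub D.hB D.hF (j + 1))) (κ := ka ^ 2) (by positivity)
      (g := fun ω => (T ^ D.M j ω) ^ 2) (fun ω => by positivity)
    refine le_trans (le_of_eq ?_) (h2.trans (div_le_div_of_nonneg_right (hg j) (by positivity)))
    rfl
  have hX4 : ∀ j, av F (fun ω => (D.sys T ka hT).X j ω ^ 4) ≤ eta ^ 4 := by
    intro j
    have h2 := LH.Xb_moment (LH.avSys F) hT (n := 4) (by norm_num) (Y := D.Y j) (M := D.M j)
      (cross := D.cr j) (heavy := D.hv T ka j) (CY := CY) (CM := CM) (p := p) (q := CM / ka ^ 2)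
      (hD.hY j) (hM8 j) (hD.hp j) (hq j)
    exact h2.trans (hκ (ka ^ 2) hka2)
  have hbad : ∀ j, av F (fun ω => 1 - gi ((D.sys T ka hT).G j) ω) ≤ eta ^ 4 := fun j =>
    (av_mono fun U _ => D.bad_le_Xb hT j _).trans (hX4 j)
  refine ⟨?_, hbad⟩
  constructor
  · exact ht
  · exact htT
  · norm_num
  · norm_num
  · intro j
    show av F (fun ω => if m < D.M j ω then T ^ (4 * D.M j ω) else 0) ≤ (1 / 2) ^ 4
    have h2 : av F (fun ω => if m < D.M j ω then T ^ (4 * D.M j ω) else 0) ≤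
        av F (fun ω => (1 / 2) ^ m * (2 * T ^ 8) ^ D.M j ω) := by
      refine av_mono fun U _ => ?_
      split_ifs with h3
      · have h4 : T ^ (4 * D.M j (ind U)) ≤ (T ^ 8) ^ D.M j (ind U) := by
          rw [← pow_mul]
          exact pow_le_pow_right₀ hT (by omega)
        have h5 : (1 : ℝ) ≤ (1 / 2) ^ m * 2 ^ D.M j (ind U) := by
          have h6 : (2 : ℝ) ^ m ≤ 2 ^ D.M j (ind U) := pow_le_pow_right₀ (by norm_num) h3.le
          have h7 : (0 : ℝ) < (1 / 2) ^ m := by positivity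
          calc (1 : ℝ) = (1 / 2) ^ m * 2 ^ m := by
                rw [← mul_pow]
                norm_num
            _ ≤ _ := mul_le_mul_of_nonneg_left h6 h7.le
        have h8 : (0 : ℝ) ≤ (T ^ 8) ^ D.M j (ind U) := by positivity
        rw [mul_pow, ← mul_assoc]
        exact h4.trans (le_mul_of_one_le_left h8 h5)
      · positivity
    refine h2.trans ?_
    rw [av_mul]
    have h3 := mul_le_mul hm.le (hD.hM j) (av_nonneg fun U _ => by positivity) (by positivity)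
    refine h3.trans (le_of_eq ?_)
    field_simp
    norm_num
  · exact h0
  · linarith
  · intro j ω hω
    have h2 : D.cr j ω ∨ D.hv T ka j ω := by
      by_contra h3
      push Not at h3
      exact hω ⟨h3.1, h3.2⟩
    have h3 := LH.le_Xb ht htT (Y := D.Y j) (M := D.M j) (cross := D.cr j)
      (heavy := D.hv T ka j) (N := LN ov Q F D.Bx j ω) (N' := LN ov Q F D.Bx (j + 1) ω) (ω := ω)
      (D.hLM j ω) (fun h => D.hLY j ω h) h2
    rw [mul_comm] at h3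
    exact h3
  · exact hX4
  · exact hka1
  · intro j h hh0 hh hz
    show av F (fun ω => h ω * (T ^ D.M j ω) ^ 2) ≤ ka ^ 2 * av F h
    refine LH.hv_bound (A' := D.Bx (j + 1) \ D.Bx (j + 2))
      (Finset.sdiff_subset.trans (bx_sub D.hB D.hF (j + 1))) ?_ hh0 ?_
    · refine Dep.mono hh ?_
      intro f hf hf'
      rw [Finset.mem_coe, Finset.mem_sdiff] at hf'
      exact hf hf'.1
    · intro ω hω
      exact hz ω fun h => h.2 hω
  · exact hCM
  · intro j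
    show av F (fun ω => (T ^ D.M j ω) ^ 8) ≤ CM ^ 8
    have e : (fun ω => (T ^ D.M j ω) ^ 8) = fun ω => (T ^ 8) ^ D.M j ω := by
      funext ω
      rw [← pow_mul, ← pow_mul, mul_comm]
    rw [e]
    exact (hM8 j).trans (le_self_pow₀ hCM (by norm_num))
  · intro j
    show 1 / 2 ≤ av F (gi ((D.sys T ka hT).G j))
    have h2 := hbad j
    rw [av_sub, av_const] at h2
    have h3 : eta ^ 4 ≤ 1 / 2 := by
      calc eta ^ 4 ≤ (1 / 2) ^ 4 := pow_le_pow_left₀ h0.le h1 4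
        _ ≤ 1 / 2 := by norm_num
    linarith

namespace LData

variable {Q : QC V Φ} {F : Finset Φ} {ov : Sym2 (V × V) → Prop} {D : LData Q F ov} {t : ℝ}
  {W W' : (Φ → Bool) → ℝ}

/-- local form of a weight: on a level which is not crossed it is a function of the outer faces times `t ^ n` -/
def Loc (D : LData Q F ov) (t : ℝ) (W : (Φ → Bool) → ℝ) : Prop :=
  ∀ l, ∃ U : (Φ → Bool) → ℝ, Dep ((D.Bx (l + 1) : Set Φ)ᶜ) U ∧
    ∀ ω, NoLeg Q ω F (D.Bx (l + 1)) (D.Bx l) → W ω = U ω * t ^ Ln ov Q F D.Bx l ω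

theorem Loc.wt {τ : Sym2 (V × V) → ℝ}
    (h1 : ∀ a ∈ wall Q F (D.Bx 0), ∀ b ∈ wall Q F (D.Bx 0), ov s(a, b) → τ s(a, b) = t)
    (h2 : ∀ a ∈ wall Q F (D.Bx 0), ∀ b ∈ wall Q F (D.Bx 0), ¬ ov s(a, b) → τ s(a, b) = 1) :
    D.Loc t (Wt Q F τ) := fun l => by
  refine ⟨fun ω => WtAvo Q F (D.Bx (l + 1)) τ ω, (WtAvo_dep τ).mono fun x hx => ?_, fun ω hω => ?_⟩
  · intro hx'
    rw [Finset.mem_coe, Finset.mem_sdiff] at hx
    exact hx.2 hx'
  · exact Wt_level D.hB D.hF h1 h2 hω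

theorem Loc.add (h : D.Loc t W) (h' : D.Loc t W') : D.Loc t (fun ω => W ω + W' ω) := fun l => by
  obtain ⟨U, hU, h1⟩ := h l
  obtain ⟨U', hU', h1'⟩ := h' l
  refine ⟨fun ω => U ω + U' ω, fun ω ω' hω => ?_, fun ω hω => ?_⟩
  · show U ω + U' ω = U ω' + U' ω'
    rw [hU ω ω' hω, hU' ω ω' hω]
  · show W ω + W' ω = (U ω + U' ω) * _
    rw [h1 ω hω, h1' ω hω]
    ring

theorem Loc.smul (c : ℝ) (h : D.Loc t W) : D.Loc t (fun ω => c * W ω) := fun l => by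
  obtain ⟨U, hU, h1⟩ := h l
  refine ⟨fun ω => c * U ω, fun ω ω' hω => ?_, fun ω hω => ?_⟩
  · show c * U ω = c * U ω'
    rw [hU ω ω' hω]
  · show c * W ω = c * U ω * _
    rw [h1 ω hω]
    ring

end LData

/-- **DECOUPLING** for a complex of quadrangles. -/
theorem decouple_wt (T eta CY : ℝ) (hT : 1 ≤ T) (h0 : 0 < eta) (h1 : eta ≤ 1 / 2) (hCY : 0 ≤ CY) :
    ∃ p0 : ℝ, 0 < p0 ∧ ∀ CM : ℝ, 1 ≤ CM → ∃ C th : ℝ, 0 ≤ C ∧ eta < th ∧ th < 1 ∧
      ∀ {V Φ : Type} [DecidableEq V] [DecidableEq Φ] {Q : QC V Φ} {F : Finset Φ}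
        {ov : Sym2 (V × V) → Prop} (D : LData Q F ov) {t : ℝ}, 1 ≤ t → t ≤ T →
        D.Mom T CY p0 CM → ∀ {m0 : ℕ} {f f0 : (Φ → Bool) → ℝ} {Cf : ℝ}, 0 < Cf →
          Dep (D.Bx (m0 + 1) : Set Φ) f →
          Dep ((D.Bx (m0 + 1) : Set Φ) \ (D.Bx (m0 + 3) : Set Φ)) f0 → (∀ ω, |f ω| ≤ f0 ω) →
          av F (fun ω => f0 ω ^ 8) ≤ Cf ^ 8 →
          ∃ c : ℝ, |c| ≤ C * Cf ∧ ∀ {W : (Φ → Bool) → ℝ} {CW A : ℝ}, 0 ≤ CW → 0 ≤ A →
            D.Loc t W → Upp (LH.avSys F) W CW A →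
            |av F (fun ω => W ω * f ω) - c * av F W| ≤ C * Cf * CW * th ^ m0 * A := by
  obtain ⟨p0, hp0, hG⟩ := exists_good T eta CY hT h0 h1 hCY
  refine ⟨p0, hp0, fun CM hCM => ?_⟩
  obtain ⟨m, ka, hka, hG⟩ := hG CM hCM
  obtain ⟨C, th, hC, hth0, hth1, hd⟩ := LSys.decouple.{0, 0} T m eta ka CM h0 (by linarith)
  refine ⟨C, th, hC, hth0, hth1, ?_⟩
  intro V Φ _ _ Q F ov D t ht htT hD m0 f f0 Cf hCf hf hf0 hle hmom
  obtain ⟨hgood, hbad⟩ := hG D ht htT hD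
  have hf0n : ∀ ω, 0 ≤ f0 ω := fun ω => (abs_nonneg _).trans (hle ω)
  have hobs : (D.sys T ka hT).Obs m0 (fun ω => f ω / Cf) (fun ω => f0 ω / Cf) := {
    dep := ExpSys.Dep.comp (P := LH.avSys F) hf fun x => x / Cf
    dep0 := ExpSys.Dep.comp (P := LH.avSys F) hf0 fun x => x / Cf
    le := fun ω => by
      rw [abs_div, abs_of_pos hCf]
      exact div_le_div_of_nonneg_right (hle ω) hCf.le
    mom := by
      have e : (fun ω => (f0 ω / Cf) ^ 8) = fun ω => (1 / Cf ^ 8) * f0 ω ^ 8 := by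
        funext ω
        rw [div_pow]
        ring
      show av F (fun ω => (f0 ω / Cf) ^ 8) ≤ 1
      rw [e, av_mul, one_div, inv_mul_le_iff₀ (by positivity), mul_one]
      exact hmom }
  obtain ⟨c, hc, h2⟩ := hd hgood hCf hobs
  refine ⟨c, hc, ?_⟩
  intro W CW A hCW hA hL hU
  refine h2 hCW hA (LSys.env_of_upp h0 hCf.le hbad hf0n ?_ hmom ?_ hU)
  · exact Dep.mono hf0 fun x hx => hx.1
  · intro l _
    obtain ⟨U, hU1, hU2⟩ := hL l
    exact ⟨U, hU1, fun ω hω => hU2 ω (not_not.1 hω.1)⟩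

end

end Pool.Agent.SixB.Tilt
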