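import Pool.Agent.Lib.SixB.S6LHgtD
import Pool.Agent.Lib.SixB.S6LSys

/-!
# 6BD, block CA-L, row L6: heights by scale, part 5 (analysis)

* `pow4_ic`, `mean8`: moments. `leg8`: the probability of a leg between radii of ratio `2 ^ k` is at most `(C γ^k)^8`.
* `L0`: a weight which is local natural near `z` decouples from the faces near `z`, with the upper bound `Upp`.
* `wT`, `hT`: weight and height difference of a finite family of environments on the same faces.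
* `wT_L0`: `L0` for `wT`; `hT_split`: `hT = csum * wT + far`.
-/

set_option autoImplicit false
set_option linter.unusedSectionVars false

namespace Pool.Agent.SixB

open Pool.Agent.Perc Pool.Agent.Perc.Q Relation Pool.Agent.SixB.Tilt PercD PercN

noncomputable section

namespace HG

variable {F A B I J M : Finset (ℤ × ℤ)} {ω ω' : Cfg} {a b c e : DZ} {X : Finset DZ}

theorem sq_le_sq_of {x y : ℝ} (hy : 0 ≤ y) (h : x ^ 2 ≤ y ^ 2) : x ≤ y :=
  (abs_le_of_sq_le_sq' h hy).2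

theorem pow4_of_pow8 {W : Finset (ℤ × ℤ)} {N : Cfg → ℝ} {p : ℝ}
    (h1 : av W (fun ω => N ω ^ 8) ≤ p ^ 8) : av W (fun ω => N ω ^ 4) ≤ p ^ 4 := by
  have h := (LH.avSys W).cs (fun ω => N ω ^ 4) (fun _ => 1)
  simp only [mul_one, one_pow, LH.avSys_E, av_const] at h
  have e : (fun ω => (N ω ^ 4) ^ 2) = fun ω => N ω ^ 8 := by
    funext ω
    rw [← pow_mul]
  rw [e] at h
  refine sq_le_sq_of (by positivity) ((h.trans h1).trans (le_of_eq ?_))
  ring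

/-- fourth moment of a product with an indicator -/
theorem pow4_ic {W : Finset (ℤ × ℤ)} {N : Cfg → ℝ} {S : Cfg → Prop} {p q : ℝ} (h1 : av W (fun ω => N ω ^ 8) ≤ p ^ 8) (h2 : av W (LH.ic S) ≤ q ^ 8) :
    av W (fun ω => (N ω * LH.ic S ω) ^ 4) ≤ (p * q) ^ 4 := by
  have h := (LH.avSys W).cs (fun ω => N ω ^ 4) (LH.ic S)
  simp only [LH.avSys_E] at h
  have e : (fun ω => (N ω ^ 4) ^ 2) = fun ω => N ω ^ 8 := by
    funext ω
    rw [← pow_mul]
  have e2 : (fun ω => LH.ic S ω ^ 2) = LH.ic S := funext (LH.ic_sq S)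
  have e3 : (fun ω => (N ω * LH.ic S ω) ^ 4) = fun ω => N ω ^ 4 * LH.ic S ω := by
    funext ω
    rw [mul_pow, LH.ic_pow _ _ (by norm_num)]
  rw [e, e2] at h
  rw [e3]
  refine sq_le_sq_of (by positivity) (h.trans ?_)
  calc _ ≤ p ^ 8 * q ^ 8 := mul_le_mul h1 h2 (av_nonneg fun _ _ => LH.ic_nonneg _ _) (by positivity)
    _ = _ := by ring

theorem mean8 {W : Finset (ℤ × ℤ)} {N : Cfg → ℝ} {p : ℝ} (hp : 0 ≤ p)
    (h1 : av W (fun ω => N ω ^ 8) ≤ p ^ 8) : |av W N| ≤ p := by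
  have h2 := pow4_of_pow8 h1
  have h := (LH.avSys W).cs (fun ω => N ω ^ 2) (fun _ => 1)
  simp only [mul_one, one_pow, LH.avSys_E, av_const] at h
  have e : (fun ω => (N ω ^ 2) ^ 2) = fun ω => N ω ^ 4 := by
    funext ω
    rw [← pow_mul]
  rw [e] at h
  have h3 : av W (fun ω => N ω ^ 2) ≤ p ^ 2 := by
    refine sq_le_sq_of (by positivity) ((h.trans h2).trans (le_of_eq ?_))
    ring
  have h4 := (LH.avSys W).cs N (fun _ => 1)
  simp only [mul_one, one_pow, LH.avSys_E, av_const] at h4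
  exact abs_le_of_sq_le_sq (h4.trans h3) hp

/-- **probability of a leg**, geometric form -/
theorem leg8 : ∃ C γ : ℝ, 1 ≤ C ∧ 0 < γ ∧ γ < 1 ∧ ∀ (F : Finset (ℤ × ℤ)) (v : VZ) (r R : ℤ) (k : ℕ),
    1 ≤ r → 2 ^ k * r ≤ R →
    av F (LH.ic fun ω => ¬ NoLeg ZQ ω F (F ∩ BR v r) (F ∩ BR v R)) ≤ (C * γ ^ k) ^ 8 := by
  obtain ⟨C, hC, h⟩ := av_leg_le
  have hγ0 : (0 : ℝ) < (2 : ℝ) ^ (-(1 / 32) : ℝ) := by positivity
  have hγ1 : (2 : ℝ) ^ (-(1 / 32) : ℝ) < 1 :=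
    Real.rpow_lt_one_of_one_lt_of_neg (by norm_num) (by norm_num)
  refine ⟨max 1 C, (2 : ℝ) ^ (-(1 / 32) : ℝ), le_max_left _ _, hγ0, hγ1,
    fun F v r R k hr hR => ?_⟩
  have h2k : (1 : ℤ) ≤ 2 ^ k := one_le_pow₀ (by norm_num)
  have hrR : r ≤ R := by nlinarith
  obtain ⟨r', rfl⟩ : ∃ r' : ℕ, r = r' := ⟨r.toNat, by omega⟩
  obtain ⟨R', rfl⟩ : ∃ R' : ℕ, R = R' := ⟨R.toNat, by omega⟩
  refine (h F v r' R' (by exact_mod_cast hr) (by exact_mod_cast hrR)).trans ?_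
  have hr' : (1 : ℝ) ≤ r' := by exact_mod_cast hr
  have hR' : (2 : ℝ) ^ k * r' ≤ R' := by exact_mod_cast hR
  have hR0 : (0 : ℝ) < R' := lt_of_lt_of_le (by positivity) hR'
  have e1 : (r' : ℝ) / R' ≤ ((2 : ℝ) ^ k)⁻¹ := by
    rw [div_le_iff₀ hR0, inv_mul_eq_div, le_div_iff₀ (by positivity)]
    linarith
  have e2 : ((r' : ℝ) / R') ^ (1 / 4 : ℝ) ≤ ((2 : ℝ) ^ (-(1 / 4) : ℝ)) ^ k := by
    calc ((r' : ℝ) / R') ^ (1 / 4 : ℝ) ≤ (((2 : ℝ) ^ k)⁻¹) ^ (1 / 4 : ℝ) :=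
          Real.rpow_le_rpow (by positivity) e1 (by norm_num)
      _ = ((2 : ℝ) ^ (-(1 / 4) : ℝ)) ^ k := by
          rw [← Real.rpow_natCast, ← Real.rpow_natCast, ← Real.rpow_neg (by norm_num),
            ← Real.rpow_mul (by norm_num), ← Real.rpow_mul (by norm_num)]
          congr 1
          ring
  have e3 : ((2 : ℝ) ^ (-(1 / 32) : ℝ)) ^ 8 = (2 : ℝ) ^ (-(1 / 4) : ℝ) := by
    rw [← Real.rpow_natCast, ← Real.rpow_mul (by norm_num)]
    congr 1
    norm_num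
  rw [mul_pow, ← pow_mul, mul_comm k 8, pow_mul, e3]
  have e4 : C ≤ max 1 C ^ 8 := (le_max_right 1 C).trans (le_self_pow₀ (le_max_left _ _) (by norm_num))
  exact mul_le_mul e4 e2 (by positivity) (by positivity)

/-- **L0**: locality for natural local weights -/
theorem L0 {W V f : Cfg → ℝ} {NL : Cfg → Prop} {p q CW K : ℝ} (hp : 0 ≤ p) (hq : 0 ≤ q)
    (hf : Dep (I : Set (ℤ × ℤ)) f) (hJ : Dep ((I : Set (ℤ × ℤ))ᶜ) NL)
    (hV : Dep ((I : Set (ℤ × ℤ))ᶜ) V) (hWV : ∀ ω, NL ω → W ω = V ω)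
    (hU : Upp (LH.avSys F) W CW K) (h1 : av F (fun ω => f ω ^ 8) ≤ p ^ 8)
    (h2 : av F (LH.ic fun ω => ¬ NL ω) ≤ q ^ 8) :
    |av F (fun ω => W ω * f ω) - av F f * av F W| ≤ 2 * p * q * CW * K := by
  set S : Cfg → Prop := fun ω => ¬ NL ω with hS
  have hic : ∀ ω, LH.ic S ω = 1 - LH.ic NL ω := by
    intro ω
    unfold LH.ic
    by_cases h : NL ω <;> simp [hS, h]
  have e1 : av F (fun ω => W ω * f ω) =
      av F (fun ω => f ω * (V ω * LH.ic NL ω)) + av F (fun ω => W ω * f ω * LH.ic S ω) := by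
    rw [← av_add]
    refine av_congr fun T _ => ?_
    rw [hic]
    by_cases h : NL (ind T)
    · simp [LH.ic, h, hWV _ h]
      ring
    · simp [LH.ic, h]
  have e2 : av F (fun ω => f ω * (V ω * LH.ic NL ω)) = av F f * av F (fun ω => V ω * LH.ic NL ω) := by
    refine LH.av_indep_set (A := (I : Set (ℤ × ℤ))) (B := (I : Set (ℤ × ℤ))ᶜ)
      disjoint_compl_right hf ?_
    intro ω ω' h
    show V ω * LH.ic NL ω = V ω' * LH.ic NL ω'
    rw [hV ω ω' h, LH.ic_congr (hJ ω ω' h)]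
  have e3 : av F W = av F (fun ω => V ω * LH.ic NL ω) + av F (fun ω => W ω * LH.ic S ω) := by
    rw [← av_add]
    refine av_congr fun T _ => ?_
    rw [hic]
    by_cases h : NL (ind T)
    · simp [LH.ic, h, hWV _ h]
    · simp [LH.ic, h]
  have e4 : av F (fun ω => W ω * f ω) - av F f * av F W =
      av F (fun ω => W ω * f ω * LH.ic S ω) - av F f * av F (fun ω => W ω * LH.ic S ω) := by
    rw [e1, e2, e3]
    ring
  have habs : av F (fun ω => |f ω| ^ 8) ≤ p ^ 8 := by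
    refine le_trans (le_of_eq ?_) h1
    refine av_congr fun T _ => ?_
    exact (Even.pow_abs (by decide) _)
  have h3 : |av F (fun ω => W ω * f ω * LH.ic S ω)| ≤ CW * (p * q) * K := by
    have k1 := pow4_ic (N := fun ω => |f ω|) habs h2
    have k2 : av F (fun ω => |W ω| * (|f ω| * LH.ic S ω)) ≤ CW * (p * q) * K :=
      hU.le (fun ω => |f ω| * LH.ic S ω) (p * q) (fun ω => mul_nonneg (abs_nonneg _)
        (LH.ic_nonneg _ _)) (by positivity) k1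
    refine (abs_av_le (g' := fun ω => |W ω| * (|f ω| * LH.ic S ω)) fun T _ => le_of_eq ?_).trans k2
    rw [abs_mul, abs_mul, abs_of_nonneg (LH.ic_nonneg S (ind T))]
    ring
  have h4 : |av F (fun ω => W ω * LH.ic S ω)| ≤ CW * (1 * q) * K := by
    have k1 := pow4_ic (W := F) (N := fun _ => 1) (p := 1)
      (by simp only [one_pow, av_const, le_refl]) h2
    have k2 : av F (fun ω => |W ω| * (1 * LH.ic S ω)) ≤ CW * (1 * q) * K :=
      hU.le (fun ω => 1 * LH.ic S ω) (1 * q) (fun ω => mul_nonneg zero_le_one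
        (LH.ic_nonneg _ _)) (by positivity) k1
    refine (abs_av_le (g' := fun ω => |W ω| * (1 * LH.ic S ω)) fun T _ => le_of_eq ?_).trans k2
    rw [abs_mul, abs_of_nonneg (LH.ic_nonneg S (ind T))]
    ring
  have h5 := mean8 hp h1
  rw [e4]
  refine (abs_sub _ _).trans ?_
  rw [abs_mul]
  have h6 : |av F f| * |av F (fun ω => W ω * LH.ic S ω)| ≤ p * (CW * (1 * q) * K) :=
    mul_le_mul h5 h4 (abs_nonneg _) hp
  calc _ ≤ CW * (p * q) * K + p * (CW * (1 * q) * K) := add_le_add h3 h6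
    _ = _ := by ring

/-! ### Families -/

variable {ι : Type}

/-- weight of a family -/
def wT (s : Finset ι) (E : ι → WEnv) (ω : Cfg) : ℝ := ∑ i ∈ s, (E i).W ω

/-- height difference of a family -/
def hT (s : Finset ι) (E : ι → WEnv) (z v : VZ) (ω : Cfg) : ℝ :=
  ∑ i ∈ s, (HS (E i) ω z - HS (E i) ω v)

/-- the strands which are not in `B` -/
def fT (s : Finset ι) (E : ι → WEnv) (B : Finset (ℤ × ℤ)) (z v : VZ) (ω : Cfg) : ℝ :=
  ∑ i ∈ s, far (E i) B z v ω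

/-- mean height difference of a family -/
def uF (s : Finset ι) (E : ι → WEnv) (F : Finset (ℤ × ℤ)) (z v : VZ) : ℝ :=
  av F (hT s E z v) / av F (wT s E)

/-- the same arc weights and arrow weights in `B` -/
def Agr (E E' : WEnv) (B : Finset (ℤ × ℤ)) : Prop :=
  ∀ a ∈ bS ZQ E.F, ∀ b ∈ bS ZQ E.F, Ah ZQ B a → Ah ZQ B b → E'.t a b = E.t a b ∧ E'.s a b = E.s a b

theorem Agr.mono {E E' : WEnv} (h : Agr E E' B) (hA : A ⊆ B) : Agr E E' A :=
  fun a ha b hb h1 h2 => h a ha b hb (h1.mono hA) (h2.mono hA)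

theorem hT_split {s : Finset ι} {E : ι → WEnv} {E0 : WEnv} (hF : ∀ i ∈ s, (E i).F = E0.F)
    (hag : ∀ i ∈ s, Agr E0 (E i) B) (hpos : Pos E0 B) (z v : VZ) (ω : Cfg) :
    hT s E z v ω = csum E0 (InF ZQ E0.F B) z v ω * wT s E ω + fT s E B z v ω := by
  unfold hT wT fT
  rw [Finset.mul_sum, ← Finset.sum_add_distrib]
  refine Finset.sum_congr rfl fun i hi => ?_
  have hp : Pos (E i) B := by
    intro a ha b hb h1 h2
    rw [hF i hi] at ha hb
    rw [(hag i hi a ha b hb h1 h2).1]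
    exact hpos a ha b hb h1 h2
  rw [HS_split hp, cls_eq_csum, hF i hi, csum_env (hF i hi) (hag i hi) (fun X hX => hX)]

theorem W_noLeg {E : WEnv} (hIM : I ⊆ M) (hMF : M ⊆ E.F) (h : NoLeg ZQ ω E.F I M)
    (ht : ∀ a ∈ bS ZQ E.F, ∀ b ∈ bS ZQ E.F, Ah ZQ M a → Ah ZQ M b → E.t a b = 1) :
    E.W ω = WtAvo ZQ E.F I E.T ω := by
  have h1 : E.W ω = Wt ZQ E.F E.T ω := rfl
  rw [h1, Wt_split (I := I)]
  have h2 : WtVis ZQ E.F I E.T ω = 1 := by
    unfold WtVis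
    refine Finset.prod_eq_one fun p hp => ?_
    obtain ⟨a, ha, hA, rfl⟩ := mem_arcsVis.mp hp
    have h3 := vis_wall zq_noLoop hIM hMF h ha hA
    have hm := mate_mem (ω := ω) ha
    have h4 := vis_wall zq_noLoop hIM hMF h hm (fun h5 => hA ((avo_mate ha).mp h5))
    exact ht a ha _ hm (mem_wall.mp h3).2 (mem_wall.mp h4).2
  rw [h2, one_mul]

/-- **L0 for families** -/
theorem wT_L0 {s : Finset ι} {E : ι → WEnv} (hF : ∀ i ∈ s, (E i).F = F) (hIM : I ⊆ M) (hMF : M ⊆ F)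
    (ht : ∀ i ∈ s, ∀ a ∈ bS ZQ F, ∀ b ∈ bS ZQ F, Ah ZQ M a → Ah ZQ M b → (E i).t a b = 1)
    {f : Cfg → ℝ} {p q CW K : ℝ} (hp : 0 ≤ p) (hq : 0 ≤ q) (hf : Dep (I : Set (ℤ × ℤ)) f)
    (hU : Upp (LH.avSys F) (wT s E) CW K) (h1 : av F (fun ω => f ω ^ 8) ≤ p ^ 8)
    (h2 : av F (LH.ic fun ω => ¬ NoLeg ZQ ω F I M) ≤ q ^ 8) :
    |av F (fun ω => wT s E ω * f ω) - av F f * av F (wT s E)| ≤ 2 * p * q * CW * K := by
  have hsub : ((F \ I : Finset (ℤ × ℤ)) : Set (ℤ × ℤ)) ⊆ (I : Set (ℤ × ℤ))ᶜ := by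
    intro x hx hx'
    rw [Finset.mem_coe, Finset.mem_sdiff] at hx
    exact hx.2 (by exact_mod_cast hx')
  refine L0 (NL := fun ω => NoLeg ZQ ω F I M) (V := fun ω => ∑ i ∈ s, WtAvo ZQ F I (E i).T ω) hp hq hf
    ((noLeg_dep).mono ?_) ?_ ?_ hU h1 h2
  · intro x hx hx'
    rw [Finset.mem_coe, Finset.mem_sdiff] at hx
    exact hx.2 (by exact_mod_cast hx')
  · intro ω ω' h
    show ∑ i ∈ s, WtAvo ZQ F I (E i).T ω = ∑ i ∈ s, WtAvo ZQ F I (E i).T ω'
    refine Finset.sum_congr rfl fun i _ => ?_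
    exact (WtAvo_dep (Q := ZQ) (F := F) (I := I) (E i).T).mono hsub ω ω' h
  · intro ω hω
    unfold wT
    refine Finset.sum_congr rfl fun i hi => ?_
    have h3 := W_noLeg (E := E i) (ω := ω) (I := I) (M := M) hIM (by rw [hF i hi]; exact hMF)
      (by rw [hF i hi]; exact hω) (by rw [hF i hi]; exact ht i hi)
    rw [h3, hF i hi]

end HG

end

end Pool.Agent.SixB
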