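import Pool.Agent.Lib.SixB.S6LHgtE

/-!
# 6BD, block CA-L, row L6: heights by scale, part 6 (bounds of the classes at a mark)

* `conn_rect`: the vertices of a rectangle of faces are connected.
* `MRad rr b c0`: radii; `MGeo`: geometry near the mark `v` (rectangle `K` of faces of `F`).
* `Nv`: the bound of a class around `v`, `vbound`, `Nv_pow8`; `zbound`: the same around `z`.
-/

set_option autoImplicit false
set_option linter.unusedSectionVars false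

namespace Pool.Agent.SixB

open Pool.Agent.Perc Pool.Agent.Perc.Q Relation Pool.Agent.SixB.Tilt PercD PercN

noncomputable section

namespace HG

variable {F A B I J M G : Finset (ℤ × ℤ)} {ω ω' : Cfg} {a b c e : DZ} {X : Finset DZ}
  {X0 X1 Y0 Y1 : ℤ}

theorem conn_row (hY : Y0 < Y1) (hK : RF X0 X1 Y0 Y1 ⊆ G) {y : ℤ} (h1 : Y0 ≤ y) (h2 : y ≤ Y1) {x : ℤ}
    (h3 : X0 ≤ x) (h4 : x ≤ X1) : ConnE ZQ G (X0, y) (x, y) := by
  obtain ⟨n, rfl⟩ : ∃ n : ℕ, x = X0 + n := ⟨(x - X0).toNat, by omega⟩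
  clear h3
  induction n with
  | zero =>
    have : (X0 + ((0 : ℕ) : ℤ), y) = (X0, y) := by simp
    rw [this]
    exact ReflTransGen.refl
  | succ n ih =>
    have h5 := edge_h hY hK (x := X0 + n) (y := y) (by omega) (by push_cast at h4; omega) h1 h2
    refine (ih (by push_cast at h4; omega)).tail ?_
    have e : X0 + ((n + 1 : ℕ) : ℤ) = X0 + (n : ℤ) + 1 := by push_cast; ring
    rw [e]
    exact h5

theorem conn_col (hX : X0 < X1) (hK : RF X0 X1 Y0 Y1 ⊆ G) {x : ℤ} (h1 : X0 ≤ x) (h2 : x ≤ X1) {y : ℤ}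
    (h3 : Y0 ≤ y) (h4 : y ≤ Y1) : ConnE ZQ G (x, Y0) (x, y) := by
  obtain ⟨n, rfl⟩ : ∃ n : ℕ, y = Y0 + n := ⟨(y - Y0).toNat, by omega⟩
  clear h3
  induction n with
  | zero =>
    have : (x, Y0 + ((0 : ℕ) : ℤ)) = (x, Y0) := by simp
    rw [this]
    exact ReflTransGen.refl
  | succ n ih =>
    have h5 := edge_v hX hK (x := x) (y := Y0 + n) h1 h2 (by omega) (by push_cast at h4; omega)
    refine (ih (by push_cast at h4; omega)).tail ?_
    have e : Y0 + ((n + 1 : ℕ) : ℤ) = Y0 + (n : ℤ) + 1 := by push_cast; ring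
    rw [e]
    exact h5

/-- the vertices of a rectangle of faces are connected -/
theorem conn_rect (hX : X0 < X1) (hY : Y0 < Y1) (hK : RF X0 X1 Y0 Y1 ⊆ G) {z z' : VZ}
    (hz : InR X0 X1 Y0 Y1 z) (hz' : InR X0 X1 Y0 Y1 z') : ConnE ZQ G z z' := by
  have key : ∀ {w : VZ}, InR X0 X1 Y0 Y1 w → ConnE ZQ G (X0, Y0) w := by
    rintro ⟨x, y⟩ ⟨h1, h2, h3, h4⟩
    simp only at h1 h2 h3 h4
    have h5 := conn_row hY hK le_rfl hY.le h1 h2
    have h6 := conn_col hX hK h1 h2 h3 h4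
    exact h5.trans h6
  exact (key hz).symm.trans (key hz')

/-- all the strands in a small box -/
theorem card_small {v : VZ} {r : ℤ} {S : Finset (Finset (Finset DZ))} (hS : S ⊆ ust ZQ F ω)
    (h : ∀ U ∈ S, InF ZQ F (F ∩ BR v r) (rep U)) : S.card ≤ (UB v r).card := by
  classical
  have h' : ∀ U ∈ S, ∃ e ∈ rep U, e ∈ dE ZQ F ∧ und e ∈ UB v r := by
    intro U hU
    have hd := rep_dstr (hS hU)
    obtain ⟨c, hc, h3⟩ := mem_dstr.mp hd
    have hcX : c ∈ rep U := h3 ▸ self_mem_dst hc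
    obtain ⟨f, hf, k, h4⟩ := dir_cases hc
    refine ⟨c, hcX, hc, ?_⟩
    have hfB : f ∈ BR v r := by
      have : f ∈ F ∩ BR v r := by
        refine h U hU f hf k ?_
        rcases h4 with h4 | h4
        · exact Or.inl (h4 ▸ hcX)
        · exact Or.inr (h4 ▸ hcX)
      exact (Finset.mem_inter.mp this).2
    have hu : und c = su f k := by
      rcases h4 with h4 | h4
      · rw [h4, und_sd]
      · rw [h4, und_sd_swap]
    rw [hu]
    exact (inE_of_side (by exact_mod_cast hfB) (su_isSide f k)).mem_UB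
  choose! g hg hgF hg' using h'
  have hinj : Set.InjOn (fun U => und (g U)) (S : Set (Finset (Finset DZ))) := by
    intro U hU U' hU' huu
    simp only at huu
    rcases und_inj (hgF U hU) (hgF U' hU') huu with h1 | h1
    · exact ust_inj (hS hU) (hS hU') (hg U hU) (Or.inl (h1 ▸ hg U' hU'))
    · exact ust_inj (hS hU) (hS hU') (hg U hU) (Or.inr (by
        rw [h1, Prod.swap_swap]
        exact hg U' hU'))
  rw [← Finset.card_image_of_injOn hinj]
  refine Finset.card_le_card fun u hu => ?_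
  obtain ⟨U, hU, rfl⟩ := Finset.mem_image.mp hu
  exact hg' U hU

theorem card_UB_le {v : VZ} {r c : ℤ} (hrc : r ≤ c) (hc : 0 ≤ c) :
    ((UB v r).card : ℝ) ≤ 2 * (2 * c + 1) ^ 2 := by
  obtain ⟨n, rfl⟩ : ∃ n : ℕ, c = n := ⟨c.toNat, by omega⟩
  have h1 : UB v r ⊆ UB v n := by
    intro a ha
    rw [mem_UB] at ha ⊢
    unfold InR at ha ⊢
    omega
  have h2 := Finset.card_le_card h1
  rw [card_UB] at h2
  exact_mod_cast h2

/-! ### Radii -/

/-- radii with ratio `b`, up to small radii -/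
structure MRad (rr : ℕ → ℤ) (b c0 : ℤ) : Prop where
  b8 : 8 ≤ b
  c0n : 0 ≤ c0
  nn : ∀ j, 0 ≤ rr j
  lo : ∀ j, b * rr (j + 1) ≤ rr j
  hi : ∀ j, rr j ≤ c0 ∨ rr j ≤ b * (rr (j + 1) + 1)

/-- threshold of the small radii -/
def c2 (b c0 : ℤ) : ℤ := max c0 (b * 257)

/-- threshold of the small radii -/
def c1 (b c0 : ℤ) : ℤ := max c0 (b * (c2 b c0 + 1))

namespace MRad

variable {rr : ℕ → ℤ} {β c0 : ℤ}

theorem anti1 (h : MRad rr β c0) (j : ℕ) : rr (j + 1) ≤ rr j := by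
  have h1 := h.lo j
  have h2 := h.nn (j + 1)
  have h3 := h.b8
  nlinarith

theorem anti (h : MRad rr β c0) {i j : ℕ} (hij : i ≤ j) : rr j ≤ rr i := by
  induction j, hij using Nat.le_induction with
  | base => exact le_rfl
  | succ j _ ih => exact (h.anti1 j).trans ih

theorem lo8 (h : MRad rr β c0) (j : ℕ) : 8 * rr (j + 1) ≤ rr j := by
  have h1 := h.lo j
  have h2 := h.nn (j + 1)
  have h3 := h.b8
  nlinarith

theorem lo_pow (h : MRad rr β c0) (j k : ℕ) : 2 ^ k * rr (j + k) ≤ rr j := by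
  induction k with
  | zero => simp
  | succ k ih =>
    have h1 := h.lo8 (j + k)
    have h2 := h.nn (j + k + 1)
    rw [← add_assoc]
    have h3 : (0 : ℤ) < 2 ^ k := by positivity
    calc 2 ^ (k + 1) * rr (j + k + 1) = 2 ^ k * (2 * rr (j + k + 1)) := by ring
      _ ≤ 2 ^ k * rr (j + k) := mul_le_mul_of_nonneg_left (by linarith) h3.le
      _ ≤ rr j := ih

/-- large radii -/
theorem big (h : MRad rr β c0) {j : ℕ} (hj : c1 β c0 < rr j) :
    257 ≤ rr (j + 2) ∧ rr j ≤ 3 * β ^ 2 * rr (j + 2) := by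
  have hb := h.b8
  have h1 : c0 ≤ c1 β c0 := le_max_left _ _
  have h2 : β * (c2 β c0 + 1) ≤ c1 β c0 := le_max_right _ _
  have h3 : c0 ≤ c2 β c0 := le_max_left _ _
  have h4 : β * 257 ≤ c2 β c0 := le_max_right _ _
  have h5 : rr j ≤ β * (rr (j + 1) + 1) := by
    rcases h.hi j with h6 | h6
    · omega
    · exact h6
  have h6 : c2 β c0 < rr (j + 1) := by
    have : β * (c2 β c0 + 1) < β * (rr (j + 1) + 1) := by linarith
    have := lt_of_mul_lt_mul_left this (by linarith)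
    linarith
  have h7 : rr (j + 1) ≤ β * (rr (j + 2) + 1) := by
    rcases h.hi (j + 1) with h8 | h8
    · omega
    · exact h8
  have h8 : 257 ≤ rr (j + 2) := by
    have : β * 257 < β * (rr (j + 2) + 1) := by linarith
    have := lt_of_mul_lt_mul_left this (by linarith)
    linarith
  refine ⟨h8, ?_⟩
  nlinarith

theorem exists_small (h : MRad rr β c0) {d : ℤ} (hd : 0 < d) (l : ℕ) (hl : d ≤ rr l) :
    ∃ q, l ≤ q ∧ d ≤ rr q ∧ rr (q + 1) < d := by
  by_contra hc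
  push Not at hc
  have key : ∀ k, d ≤ rr (l + k) := by
    intro k
    induction k with
    | zero => exact hl
    | succ k ih => exact hc (l + k) (by omega) ih
  obtain ⟨k, hk⟩ : ∃ k : ℕ, rr l < 2 ^ k := by
    obtain ⟨n, hn⟩ : ∃ n : ℕ, rr l = n := ⟨(rr l).toNat, by have := h.nn l; omega⟩
    refine ⟨n, ?_⟩
    rw [hn]
    exact_mod_cast Nat.lt_two_pow_self
  have h1 := h.lo_pow l k
  have h2 := key k
  have h3 : (2 : ℤ) ^ k * 1 ≤ 2 ^ k * rr (l + k) :=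
    mul_le_mul_of_nonneg_left (by linarith) (by positivity)
  linarith

end MRad

/-- geometry near the mark `v` -/
structure MGeo (F : Finset (ℤ × ℤ)) (v : VZ) (r : ℤ) (X0 X1 Y0 Y1 : ℤ) : Prop where
  pot : HasPotQ ZQ F
  K : RF X0 X1 Y0 Y1 ⊆ F
  r0 : 0 < r
  wx : r ≤ X1 - X0
  wy : r ≤ Y1 - Y0
  hv : InR X0 X1 Y0 Y1 v

theorem MGeo.conn {v : VZ} {R : ℤ} (h : MGeo F v R X0 X1 Y0 Y1) {z : VZ} {r : ℤ} (hr : 0 < r)
    (hz : InR X0 X1 Y0 Y1 z) (h1 : |z.1 - v.1| ≤ r) (h2 : |z.2 - v.2| ≤ r) :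
    ConnE ZQ (F ∩ BR v r) z v := by
  obtain ⟨v1, v2, v3, v4⟩ := h.hv
  obtain ⟨z1, z2, z3, z4⟩ := hz
  have hx := h.wx
  have hy := h.wy
  have h0 := h.r0
  rw [abs_le] at h1 h2
  refine conn_rect (X0 := max X0 (v.1 - r)) (X1 := min X1 (v.1 + r)) (Y0 := max Y0 (v.2 - r))
    (Y1 := min Y1 (v.2 + r)) ?_ ?_ ?_ ?_ ?_
  · rw [max_lt_iff, lt_min_iff, lt_min_iff]
    omega
  · rw [max_lt_iff, lt_min_iff, lt_min_iff]
    omega
  · intro f hf
    rw [mem_RF, max_le_iff, lt_min_iff, max_le_iff, lt_min_iff] at hf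
    rw [Finset.mem_inter, mem_BR]
    refine ⟨h.K ?_, ?_⟩
    · rw [mem_RF]
      exact ⟨hf.1.1, hf.2.1.1, hf.2.2.1.1, hf.2.2.2.1⟩
    · exact ⟨hf.1.2, hf.2.1.2, hf.2.2.1.2, hf.2.2.2.2⟩
  · unfold InR
    rw [max_le_iff, le_min_iff, max_le_iff, le_min_iff]
    omega
  · unfold InR
    rw [max_le_iff, le_min_iff, max_le_iff, le_min_iff]
    omega

/-! ### Classes around `v` -/

/-- bound of the class `j` around `v` -/
def Nv (F : Finset (ℤ × ℤ)) (v : VZ) (rr : ℕ → ℤ) (β c0 : ℤ) (K : ℝ) (j : ℕ) (ω : Cfg) : ℝ :=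
  if c1 β c0 < rr j then
    K * lgN ((F ∩ BR v (rr j)) \ (F ∩ BR v (rr (j + 2)))) (rr (j + 2) / 64) ω
  else K * (2 * (2 * (c1 β c0 : ℝ) + 1) ^ 2)

/-- the class `j` around `v` -/
def Qv (F : Finset (ℤ × ℤ)) (v : VZ) (rr : ℕ → ℤ) (A : Finset (ℤ × ℤ)) (j : ℕ) (X : Finset DZ) : Prop :=
  InF ZQ F (F ∩ BR v (rr j)) X ∧ ¬ InF ZQ F (F ∩ BR v (rr (j + 1))) X ∧ ¬ InF ZQ F A X

theorem Nv_dep (F : Finset (ℤ × ℤ)) (v : VZ) (rr : ℕ → ℤ) (β c0 : ℤ) (K : ℝ) (j : ℕ) :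
    Dep (((F ∩ BR v (rr j) : Finset (ℤ × ℤ)) : Set (ℤ × ℤ)) \
      ((F ∩ BR v (rr (j + 2)) : Finset (ℤ × ℤ)) : Set (ℤ × ℤ))) (Nv F v rr β c0 K j) := by
  intro ω ω' h
  unfold Nv
  split_ifs
  · rw [dep_lgN _ _ ω ω' fun f hf => h f (by rwa [Finset.coe_sdiff] at hf)]
  · rfl

theorem c1_nonneg {rr : ℕ → ℤ} {β c0 : ℤ} (h : MRad rr β c0) : 0 ≤ c1 β c0 :=
  h.c0n.trans (le_max_left _ _)

theorem ring_sub_RF {F : Finset (ℤ × ℤ)} {v : VZ} {r n : ℤ} {l : ℕ} (h : 2 * r ≤ n * l) :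
    F ∩ BR v r ⊆ RF (v.1 - r) (v.1 - r + n * l) (v.2 - r) (v.2 - r + n * l) := by
  intro f hf
  rw [Finset.mem_inter, mem_BR] at hf
  rw [mem_RF]
  omega

theorem MRad.len {rr : ℕ → ℤ} {β c0 : ℤ} (h : MRad rr β c0) {j : ℕ} (hj : c1 β c0 < rr j) :
    2 * rr j ≤ rr (j + 2) / 64 * ((768 * β ^ 2).toNat : ℤ) := by
  obtain ⟨h1, h2⟩ := h.big hj
  have hb := h.b8
  have h3 : ((768 * β ^ 2).toNat : ℤ) = 768 * β ^ 2 := Int.toNat_of_nonneg (by positivity)
  rw [h3]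
  have h4 : rr (j + 2) ≤ 128 * (rr (j + 2) / 64) := by omega
  have h5 : (0 : ℤ) ≤ β ^ 2 := by positivity
  nlinarith

/-- **bound of the classes around `v`** -/
theorem vbound {rr : ℕ → ℤ} {β c0 : ℤ} {v : VZ} {E : WEnv} {K : ℝ} (hr : MRad rr β c0)
    (hg : MGeo E.F v (rr 0) X0 X1 Y0 Y1) (hK0 : 0 ≤ K) (hKap : KapB E (E.F ∩ BR v (rr 0)) K) {z : VZ}
    {d : ℤ} (hz : InR X0 X1 Y0 Y1 z) (hd1 : |z.1 - v.1| ≤ d) (hd2 : |z.2 - v.2| ≤ d)
    {A : Finset (ℤ × ℤ)} (hA : d < 256 ∨ E.F ∩ BR z (d / 16 + 2) ⊆ A) (j : ℕ) (ω : Cfg) :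
    |csum E (Qv E.F v rr A j) z v ω| ≤ Nv E.F v rr β c0 K j ω := by
  have hB0 : ∀ X, Qv E.F v rr A j X → InF ZQ E.F (E.F ∩ BR v (rr 0)) X := by
    rintro X ⟨h1, -, -⟩
    refine h1.mono ?_
    refine Finset.inter_subset_inter le_rfl ?_
    exact (Sub.refl' (hr.anti (Nat.zero_le j))).subset
  unfold Nv
  split_ifs with hj
  · obtain ⟨k1, k2⟩ := hr.big hj
    have k3 := hr.lo8 j
    have k4 := hr.lo8 (j + 1)
    have k4' : 8 * rr (j + 2) ≤ rr (j + 1) := k4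
    have k5 := hr.anti (Nat.zero_le j)
    have hn : 0 < rr (j + 2) / 64 := by omega
    refine abs_csum_le hK0 hg.pot hKap hB0 (l := (768 * β ^ 2).toNat) (u := v.1 - rr j)
      (w := v.2 - rr j) hn ?_ ?_ ?_
    · exact Finset.sdiff_subset.trans Finset.inter_subset_left
    · exact Finset.sdiff_subset.trans (ring_sub_RF (hr.len hj))
    · rintro X hX ⟨q1, q2, q3⟩ hne
      have hwx := hg.wx
      have hwy := hg.wy
      refine vclass (ρ := d) (by omega) (by omega) (by omega) (by omega) hg.K (by omega) (by omega)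
        hz hg.hv hg.pot hX q1 q2 ?_ hne
      by_cases hdr : d ≤ rr (j + 2)
      · left
        exact ⟨hd1, hd2, by omega⟩
      · right
        intro hc
        refine q3 (hc.mono ?_)
        rcases hA with hA | hA
        · omega
        · refine (Finset.inter_subset_inter le_rfl ?_).trans hA
          refine (Sub.refl' ?_).subset
          omega
  · have hc1 := c1_nonneg hr
    have h1 : rr j ≤ c1 β c0 := by omega
    refine (abs_csum_le_card hK0 hg.pot hKap hB0 z v (N := (UB v (rr j)).card) ?_).trans ?_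
    · intro S hS hP
      exact card_small hS fun U hU => (hP U hU).1.1
    · refine mul_le_mul_of_nonneg_left ?_ hK0
      have := card_UB_le (v := v) h1 hc1
      exact_mod_cast this

theorem Nv_nonneg {rr : ℕ → ℤ} {β c0 : ℤ} {v : VZ} {K : ℝ} (hK0 : 0 ≤ K) (j : ℕ) (ω : Cfg) :
    0 ≤ Nv F v rr β c0 K j ω := by
  unfold Nv
  split_ifs <;> positivity

theorem Nv_pow8 (β c0 : ℤ) (K : ℝ) (hK0 : 0 ≤ K) : ∃ C : ℝ, 0 < C ∧ ∀ (F : Finset (ℤ × ℤ)) (v : VZ)
    (rr : ℕ → ℤ) (j : ℕ), MRad rr β c0 → av F (fun ω => Nv F v rr β c0 K j ω ^ 8) ≤ C ^ 8 := by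
  obtain ⟨C, hC, h⟩ := lgN_pow8 (768 * β ^ 2).toNat
  set D : ℝ := K * (2 * (2 * (c1 β c0 : ℝ) + 1) ^ 2) with hD
  have hD0 : 0 ≤ D := by positivity
  refine ⟨(K + 1) * (1 + C) + D, by positivity, fun F v rr j hr => ?_⟩
  by_cases hj : c1 β c0 < rr j
  · obtain ⟨k1, k2⟩ := hr.big hj
    have h1 := h ((F ∩ BR v (rr j)) \ (F ∩ BR v (rr (j + 2)))) F (rr (j + 2) / 64) (v.1 - rr j)
      (v.2 - rr j) (by omega) (Finset.sdiff_subset.trans (ring_sub_RF (hr.len hj)))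
      (Finset.sdiff_subset.trans Finset.inter_subset_left)
    have h2 : av F (fun ω => Nv F v rr β c0 K j ω ^ 8) = K ^ 8 * av F (fun ω =>
        (lgN ((F ∩ BR v (rr j)) \ (F ∩ BR v (rr (j + 2)))) (rr (j + 2) / 64) ω : ℝ) ^ 8) := by
      rw [← av_mul]
      refine av_congr fun T _ => ?_
      unfold Nv
      rw [if_pos hj, mul_pow]
    rw [h2]
    calc _ ≤ (K + 1) ^ 8 * (1 + C) ^ 8 := by
          refine mul_le_mul (pow_le_pow_left₀ hK0 (by linarith) 8) (h1.trans ?_)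
            (av_nonneg fun _ _ => by positivity) (by positivity)
          exact (by linarith : C ≤ 1 + C).trans (le_self_pow₀ (by linarith) (by norm_num))
      _ = ((K + 1) * (1 + C)) ^ 8 := by rw [mul_pow]
      _ ≤ _ := pow_le_pow_left₀ (by positivity) (by linarith) 8
  · have h2 : av F (fun ω => Nv F v rr β c0 K j ω ^ 8) = D ^ 8 := by
      rw [← av_const (S := F) (D ^ 8)]
      refine av_congr fun T _ => ?_
      unfold Nv
      rw [if_neg hj]
    rw [h2]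
    refine pow_le_pow_left₀ hD0 ?_ 8
    have : 0 ≤ (K + 1) * (1 + C) := by positivity
    linarith

/-! ### Classes around `z` -/

/-- boxes around `z` -/
def Az (F : Finset (ℤ × ℤ)) (z : VZ) (s : ℕ) : Finset (ℤ × ℤ) := F ∩ BR z (32 * 2 ^ s)

theorem Az_mono (F : Finset (ℤ × ℤ)) (z : VZ) (s : ℕ) : Az F z s ⊆ Az F z (s + 1) := by
  refine Finset.inter_subset_inter le_rfl ?_
  refine (Sub.refl' ?_).subset
  have : (0 : ℤ) < 2 ^ s := by positivity
  rw [pow_succ]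
  omega

/-- **bound of the classes around `z`** -/
theorem zbound {v : VZ} {E : WEnv} {K : ℝ} {r : ℤ} (hg : MGeo E.F v r X0 X1 Y0 Y1) (hK0 : 0 ≤ K) {z : VZ}
    {s : ℕ} (hKap : KapB E (Az E.F z (s + 1)) K) {d : ℤ} (hz : InR X0 X1 Y0 Y1 z)
    (hdr : d ≤ r) (hd : d ≤ |z.1 - v.1| ∨ d ≤ |z.2 - v.2|) (hs : 256 * 2 ^ s ≤ d) (ω : Cfg) :
    |csum E (fun X => InF ZQ E.F (Az E.F z (s + 1)) X ∧ ¬ InF ZQ E.F (Az E.F z s) X) z v ω| ≤
      K * lgN (Az E.F z (s + 1)) (4 * 2 ^ s) ω := by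
  have h2s : (0 : ℤ) < 2 ^ s := by positivity
  have hwx := hg.wx
  have hwy := hg.wy
  refine abs_csum_le hK0 hg.pot hKap (fun X hX => hX.1) (l := 32) (u := z.1 - 32 * 2 ^ (s + 1))
    (w := z.2 - 32 * 2 ^ (s + 1)) (by positivity) Finset.inter_subset_left
    (ring_sub_RF (by push_cast; rw [pow_succ]; omega)) ?_
  rintro X hX ⟨q1, q2⟩ hne
  refine zclass (ρ0 := 32 * 2 ^ s) (ρ1 := 32 * 2 ^ (s + 1)) (by omega) (by omega) (by omega) hg.K
    (by omega) (by omega) hz hg.hv hg.pot hX q1 q2 ?_ hne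
  rw [pow_succ]
  omega

theorem lgz_pow8 (K : ℝ) (hK0 : 0 ≤ K) : ∃ C : ℝ, 0 < C ∧ ∀ (F : Finset (ℤ × ℤ)) (z : VZ) (s : ℕ),
    av F (fun ω => (K * lgN (Az F z (s + 1)) (4 * 2 ^ s) ω) ^ 8) ≤ C ^ 8 := by
  obtain ⟨C, hC, h⟩ := lgN_pow8 32
  refine ⟨(K + 1) * (1 + C), by positivity, fun F z s => ?_⟩
  have h2s : (0 : ℤ) < 2 ^ s := by positivity
  have h1 := h (Az F z (s + 1)) F (4 * 2 ^ s) (z.1 - 32 * 2 ^ (s + 1)) (z.2 - 32 * 2 ^ (s + 1))
    (by positivity) (ring_sub_RF (by push_cast; rw [pow_succ]; omega)) Finset.inter_subset_left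
  have h2 : av F (fun ω => (K * lgN (Az F z (s + 1)) (4 * 2 ^ s) ω) ^ 8) = K ^ 8 * av F (fun ω =>
      (lgN (Az F z (s + 1)) (4 * 2 ^ s) ω : ℝ) ^ 8) := by
    rw [← av_mul]
    refine av_congr fun T _ => ?_
    rw [mul_pow]
  rw [h2]
  calc _ ≤ (K + 1) ^ 8 * (1 + C) ^ 8 := by
        refine mul_le_mul (pow_le_pow_left₀ hK0 (by linarith) 8) (h1.trans ?_)
          (av_nonneg fun _ _ => by positivity) (by positivity)
        exact (by linarith : C ≤ 1 + C).trans (le_self_pow₀ (by linarith) (by norm_num))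
    _ = ((K + 1) * (1 + C)) ^ 8 := by rw [mul_pow]

/-- the lowest class around `z` -/
theorem zbase {E : WEnv} {K : ℝ} (hP : HasPotQ ZQ E.F) (hK0 : 0 ≤ K) {z v : VZ}
    (hKap : KapB E (Az E.F z 0) K) (ω : Cfg) :
    |csum E (InF ZQ E.F (Az E.F z 0)) z v ω| ≤ K * 8450 := by
  refine (abs_csum_le_card hK0 hP hKap (fun X hX => hX) z v (N := (UB z 32).card) ?_).trans ?_
  · intro S hS h
    refine card_small hS fun U hU => ?_
    have := (h U hU).1
    unfold Az at this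
    simpa using this
  · refine mul_le_mul_of_nonneg_left ?_ hK0
    have := card_UB_le (v := z) (r := 32) (c := 32) le_rfl (by norm_num)
    refine this.trans (le_of_eq ?_)
    norm_num

end HG

end

end Pool.Agent.SixB
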