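import Pool.Agent.Lib.SixB.S6LHgtF

/-!
# 6BD, block CA-L, row L6: heights by scale, part 7 (families at a mark)

* `pow8_ic`, `leg16`, `lgz_pow16`: moments.
* `L0g`: a weight which is local natural near `z` decouples from the faces near `z`.
* `Dcp D t C th Mj`: the conclusions of the decoupling theorem and of the chain lemma, for majorants `Mj H B`.
* `MFam`: a finite family of environments with the local law of `E0` near the mark and with majorants of the weights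
  and of the arrow numerators, `K ≤ Z`.
* `mn`: mean with respect to the weight of the family; `card_vis`, `card_cross`: numbers of strands;
  `far_pt`: the strands which leave `Bx h` and separate `z` from `v`.
* `min_ref`: two reference values, the better one.
-/

set_option autoImplicit false
set_option linter.unusedSectionVars false

namespace Pool.Agent.SixB

open Pool.Agent.Perc Pool.Agent.Perc.Q Relation Pool.Agent.SixB.Tilt PercD PercN

noncomputable section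

namespace HG

variable {F A B I J M G : Finset (ℤ × ℤ)} {ω ω' : Cfg} {a b c e : DZ} {X : Finset DZ}
  {X0 X1 Y0 Y1 : ℤ} {ι : Type}

/-! ### Moments -/

theorem ic_mono {S S' : Cfg → Prop} {ω : Cfg} (h : S ω → S' ω) : LH.ic S ω ≤ LH.ic S' ω := by
  unfold LH.ic
  by_cases h1 : S ω
  · rw [if_pos h1, if_pos (h h1)]
  · rw [if_neg h1]
    split_ifs <;> norm_num

theorem pow8_ic {W : Finset (ℤ × ℤ)} {N : Cfg → ℝ} {S : Cfg → Prop} {p q : ℝ} (hp : 0 ≤ p) (hq : 0 ≤ q)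
    (h1 : av W (fun ω => N ω ^ 16) ≤ p ^ 16) (h2 : av W (LH.ic S) ≤ q ^ 16) :
    av W (fun ω => (N ω * LH.ic S ω) ^ 8) ≤ (p * q) ^ 8 := by
  have h := (LH.avSys W).cs (fun ω => N ω ^ 8) (LH.ic S)
  simp only [LH.avSys_E] at h
  have e : (fun ω => (N ω ^ 8) ^ 2) = fun ω => N ω ^ 16 := by
    funext ω
    rw [← pow_mul]
  have e2 : (fun ω => LH.ic S ω ^ 2) = LH.ic S := funext (LH.ic_sq S)
  have e3 : (fun ω => (N ω * LH.ic S ω) ^ 8) = fun ω => N ω ^ 8 * LH.ic S ω := by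
    funext ω
    rw [mul_pow, LH.ic_pow _ _ (by norm_num)]
  rw [e, e2] at h
  rw [e3]
  refine sq_le_sq_of (by positivity) (h.trans ?_)
  calc _ ≤ p ^ 16 * q ^ 16 := mul_le_mul h1 h2 (av_nonneg fun _ _ => LH.ic_nonneg _ _) (by positivity)
    _ = _ := by ring

theorem pow8_of_pow16 {W : Finset (ℤ × ℤ)} {N : Cfg → ℝ} {p : ℝ}
    (h1 : av W (fun ω => N ω ^ 16) ≤ p ^ 16) : av W (fun ω => N ω ^ 8) ≤ p ^ 8 := by
  have h := (LH.avSys W).cs (fun ω => N ω ^ 8) (fun _ => 1)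
  simp only [mul_one, one_pow, LH.avSys_E, av_const] at h
  have e : (fun ω => (N ω ^ 8) ^ 2) = fun ω => N ω ^ 16 := by
    funext ω
    rw [← pow_mul]
  rw [e] at h
  refine sq_le_sq_of (by positivity) ((h.trans h1).trans (le_of_eq ?_))
  ring

theorem leg16 : ∃ C γ : ℝ, 1 ≤ C ∧ 0 < γ ∧ γ < 1 ∧ ∀ (F : Finset (ℤ × ℤ)) (v : VZ) (r R : ℤ) (k : ℕ),
    1 ≤ r → 2 ^ k * r ≤ R →
    av F (LH.ic fun ω => ¬ NoLeg ZQ ω F (F ∩ BR v r) (F ∩ BR v R)) ≤ (C * γ ^ k) ^ 16 := by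
  obtain ⟨C, γ, hC, hγ0, hγ1, h⟩ := leg8
  have hs0 : 0 < Real.sqrt γ := Real.sqrt_pos.2 hγ0
  have hs1 : Real.sqrt γ < 1 := by
    rw [← Real.sqrt_one]
    exact Real.sqrt_lt_sqrt hγ0.le hγ1
  refine ⟨C, Real.sqrt γ, hC, hs0, hs1, fun F v r R k hr hR => (h F v r R k hr hR).trans ?_⟩
  have e : Real.sqrt γ ^ 2 = γ := Real.sq_sqrt hγ0.le
  have e2 : (C * Real.sqrt γ ^ k) ^ 16 = C ^ 16 * (γ ^ k) ^ 8 := by
    calc (C * Real.sqrt γ ^ k) ^ 16 = C ^ 16 * ((Real.sqrt γ ^ 2) ^ k) ^ 8 := by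
          rw [mul_pow, ← pow_mul, ← pow_mul, ← pow_mul]
          congr 2
          ring
      _ = _ := by rw [e]
  rw [e2, mul_pow]
  refine mul_le_mul_of_nonneg_right ?_ (by positivity)
  exact pow_le_pow_right₀ hC (by norm_num)

theorem pow16_le (m : ℕ) : (m : ℝ) ^ 16 ≤ 65536 ^ m := by
  have h1 : (m : ℝ) ≤ 2 ^ m := by exact_mod_cast (Nat.lt_two_pow_self (n := m)).le
  calc (m : ℝ) ^ 16 ≤ (2 ^ m) ^ 16 := pow_le_pow_left₀ (by positivity) h1 16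
    _ = 65536 ^ m := by
      rw [← pow_mul, mul_comm, pow_mul]
      norm_num

theorem lgz_pow16 (K : ℝ) (hK0 : 0 ≤ K) : ∃ C : ℝ, 0 < C ∧ ∀ (F : Finset (ℤ × ℤ)) (z : VZ) (s : ℕ),
    av F (fun ω => (K * lgN (Az F z (s + 1)) (4 * 2 ^ s) ω) ^ 16) ≤ C ^ 16 := by
  obtain ⟨C, hC, h⟩ := lgN_moment 32 (lam := 65536) (by norm_num)
  refine ⟨(K + 1) * (1 + C), by positivity, fun F z s => ?_⟩
  have h2s : (0 : ℤ) < 2 ^ s := by positivity
  have h1 := h (Az F z (s + 1)) F (4 * 2 ^ s) (z.1 - 32 * 2 ^ (s + 1)) (z.2 - 32 * 2 ^ (s + 1))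
    (by positivity) (ring_sub_RF (by push_cast; rw [pow_succ]; omega)) Finset.inter_subset_left
  have h2 : av F (fun ω => (K * lgN (Az F z (s + 1)) (4 * 2 ^ s) ω) ^ 16) = K ^ 16 * av F (fun ω =>
      (lgN (Az F z (s + 1)) (4 * 2 ^ s) ω : ℝ) ^ 16) := by
    rw [← av_mul]
    refine av_congr fun T _ => ?_
    rw [mul_pow]
  have h3 : av F (fun ω => (lgN (Az F z (s + 1)) (4 * 2 ^ s) ω : ℝ) ^ 16) ≤ C :=
    le_trans (av_mono fun T _ => pow16_le _) h1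
  rw [h2]
  calc _ ≤ (K + 1) ^ 16 * (1 + C) ^ 16 := by
        refine mul_le_mul (pow_le_pow_left₀ hK0 (by linarith) 16) (h3.trans ?_)
          (av_nonneg fun _ _ => by positivity) (by positivity)
        exact (by linarith : C ≤ 1 + C).trans (le_self_pow₀ (by linarith) (by norm_num))
    _ = ((K + 1) * (1 + C)) ^ 16 := by rw [mul_pow]

/-- **L0**: locality for natural local weights, general form -/
theorem L0g {W V f : Cfg → ℝ} {NL : Cfg → Prop} {p b1 b2 : ℝ} (hb2 : 0 ≤ b2)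
    (hf : Dep (I : Set (ℤ × ℤ)) f) (hJ : Dep ((I : Set (ℤ × ℤ))ᶜ) NL)
    (hV : Dep ((I : Set (ℤ × ℤ))ᶜ) V) (hWV : ∀ ω, NL ω → W ω = V ω)
    (h3 : av F (fun ω => |W ω| * (|f ω| * LH.ic (fun ω => ¬ NL ω) ω)) ≤ b1)
    (h4 : av F (fun ω => |W ω| * (1 * LH.ic (fun ω => ¬ NL ω) ω)) ≤ b2) (h5 : |av F f| ≤ p) :
    |av F (fun ω => W ω * f ω) - av F f * av F W| ≤ b1 + p * b2 := by
  set S : Cfg → Prop := fun ω => ¬ NL ω with hS
  have hic : ∀ ω, LH.ic S ω = 1 - LH.ic NL ω := by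
    intro ω
    unfold LH.ic
    by_cases h : NL ω <;> simp [hS, h]
  have e1 : av F (fun ω => W ω * f ω) =
      av F (fun ω => f ω * (V ω * LH.ic NL ω)) + av F (fun ω => W ω * f ω * LH.ic S ω) := by
    rw [← av_add]
    refine av_congr fun T _ => ?_
    rw [hic]
    by_cases h : NL (ind T)
    · simp [LH.ic, h, hWV _ h]
      ring
    · simp [LH.ic, h]
  have e2 : av F (fun ω => f ω * (V ω * LH.ic NL ω)) = av F f * av F (fun ω => V ω * LH.ic NL ω) := by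
    refine LH.av_indep_set (A := (I : Set (ℤ × ℤ))) (B := (I : Set (ℤ × ℤ))ᶜ)
      disjoint_compl_right hf ?_
    intro ω ω' h
    show V ω * LH.ic NL ω = V ω' * LH.ic NL ω'
    rw [hV ω ω' h, LH.ic_congr (hJ ω ω' h)]
  have e3 : av F W = av F (fun ω => V ω * LH.ic NL ω) + av F (fun ω => W ω * LH.ic S ω) := by
    rw [← av_add]
    refine av_congr fun T _ => ?_
    rw [hic]
    by_cases h : NL (ind T)
    · simp [LH.ic, h, hWV _ h]
    · simp [LH.ic, h]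
  have e4 : av F (fun ω => W ω * f ω) - av F f * av F W =
      av F (fun ω => W ω * f ω * LH.ic S ω) - av F f * av F (fun ω => W ω * LH.ic S ω) := by
    rw [e1, e2, e3]
    ring
  have k3 : |av F (fun ω => W ω * f ω * LH.ic S ω)| ≤ b1 := by
    refine (abs_av_le (g' := fun ω => |W ω| * (|f ω| * LH.ic S ω)) fun T _ => le_of_eq ?_).trans h3
    rw [abs_mul, abs_mul, abs_of_nonneg (LH.ic_nonneg S (ind T))]
    ring
  have k4 : |av F (fun ω => W ω * LH.ic S ω)| ≤ b2 := by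
    refine (abs_av_le (g' := fun ω => |W ω| * (1 * LH.ic S ω)) fun T _ => le_of_eq ?_).trans h4
    rw [abs_mul, abs_of_nonneg (LH.ic_nonneg S (ind T))]
    ring
  rw [e4]
  refine (abs_sub _ _).trans (add_le_add k3 ?_)
  rw [abs_mul]
  exact mul_le_mul h5 k4 (abs_nonneg _) ((abs_nonneg _).trans h5)

/-- **L0 for families** -/
theorem wT_L0g {s : Finset ι} {E : ι → WEnv} (hF : ∀ i ∈ s, (E i).F = F) (hIM : I ⊆ M) (hMF : M ⊆ F)
    (ht : ∀ i ∈ s, ∀ a ∈ bS ZQ F, ∀ b ∈ bS ZQ F, Ah ZQ M a → Ah ZQ M b → (E i).t a b = 1)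
    {f : Cfg → ℝ} {p b1 b2 : ℝ} (hb2 : 0 ≤ b2) (hf : Dep (I : Set (ℤ × ℤ)) f)
    (h3 : av F (fun ω => |wT s E ω| * (|f ω| * LH.ic (fun ω => ¬ NoLeg ZQ ω F I M) ω)) ≤ b1)
    (h4 : av F (fun ω => |wT s E ω| * (1 * LH.ic (fun ω => ¬ NoLeg ZQ ω F I M) ω)) ≤ b2)
    (h5 : |av F f| ≤ p) :
    |av F (fun ω => wT s E ω * f ω) - av F f * av F (wT s E)| ≤ b1 + p * b2 := by
  have hsub : ((F \ I : Finset (ℤ × ℤ)) : Set (ℤ × ℤ)) ⊆ (I : Set (ℤ × ℤ))ᶜ := by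
    intro x hx hx'
    rw [Finset.mem_coe, Finset.mem_sdiff] at hx
    exact hx.2 (by exact_mod_cast hx')
  refine L0g (NL := fun ω => NoLeg ZQ ω F I M) (V := fun ω => ∑ i ∈ s, WtAvo ZQ F I (E i).T ω) hb2 hf
    ((noLeg_dep).mono ?_) ?_ ?_ h3 h4 h5
  · intro x hx hx'
    rw [Finset.mem_coe, Finset.mem_sdiff] at hx
    exact hx.2 (by exact_mod_cast hx')
  · intro ω ω' h
    show ∑ i ∈ s, WtAvo ZQ F I (E i).T ω = ∑ i ∈ s, WtAvo ZQ F I (E i).T ω'
    refine Finset.sum_congr rfl fun i _ => ?_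
    exact (WtAvo_dep (Q := ZQ) (F := F) (I := I) (E i).T).mono hsub ω ω' h
  · intro ω hω
    unfold wT
    refine Finset.sum_congr rfl fun i hi => ?_
    have h3 := W_noLeg (E := E i) (ω := ω) (I := I) (M := M) hIM (by rw [hF i hi]; exact hMF)
      (by rw [hF i hi]; exact hω) (by rw [hF i hi]; exact ht i hi)
    rw [h3, hF i hi]

/-! ### Decoupling data and families -/

/-- the conclusions of the decoupling theorem and of the chain lemma for the data `D`. `Mj H B`: `H` is a majorant with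
bound `B`. -/
structure Dcp {E0 : WEnv} {ov : Sym2 DZ → Prop} (D : LData ZQ E0.F ov) (t C th : ℝ)
    (Mj : (Cfg → ℝ) → ℝ → Prop) : Prop where
  C0 : 0 ≤ C
  th0 : 0 < th
  th1 : th < 1
  dec : ∀ (m0 : ℕ) (f f0 : Cfg → ℝ) (Cf : ℝ), 0 < Cf → Dep (D.Bx (m0 + 1) : Set (ℤ × ℤ)) f →
    Dep ((D.Bx (m0 + 1) : Set (ℤ × ℤ)) \ (D.Bx (m0 + 3) : Set (ℤ × ℤ))) f0 → (∀ ω, |f ω| ≤ f0 ω) →
    av E0.F (fun ω => f0 ω ^ 8) ≤ Cf ^ 8 → ∃ c : ℝ, ∀ (W H : Cfg → ℝ) (B : ℝ), D.Loc t W →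
      (∀ ω, |W ω| ≤ H ω) → Mj H B → |av E0.F (fun ω => W ω * f ω) - c * av E0.F W| ≤ C * Cf * th ^ m0 * B
  tail : ∀ (j s : ℕ) (f0 : Cfg → ℝ) (Cf : ℝ), j ≤ s → 0 < Cf → (∀ ω, 0 ≤ f0 ω) →
    Dep ((D.Bx (s + 1) : Set (ℤ × ℤ)) \ (D.Bx (s + 3) : Set (ℤ × ℤ))) f0 →
    av E0.F (fun ω => f0 ω ^ 8) ≤ Cf ^ 8 → ∀ (H : Cfg → ℝ) (B : ℝ), Mj H B →
      av E0.F (fun ω => H ω * (f0 ω * LH.ic (fun ω => ∀ i, j < i → i ≤ s → D.cr i ω) ω)) ≤
        C * Cf * th ^ (s - j) * B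

/-- a family of environments near a mark -/
structure MFam {E0 : WEnv} {ov : Sym2 DZ → Prop} (D : LData ZQ E0.F ov) (t : ℝ)
    (Mj : (Cfg → ℝ) → ℝ → Prop) (s : Finset ι) (E : ι → WEnv) (CW K : ℝ) : Prop where
  hF : ∀ i ∈ s, (E i).F = E0.F
  agr : ∀ i ∈ s, Agr E0 (E i) (D.Bx 0)
  loc : ∀ i ∈ s, D.Loc t (E i).W
  K0 : 0 < K
  KZ : K ≤ av E0.F (wT s E)
  CW0 : 0 ≤ CW
  maj : ∃ (H : ι → Cfg → ℝ) (B : ι → ℝ), ∑ i ∈ s, B i ≤ CW * K ∧ ∀ i ∈ s, Mj (H i) (B i) ∧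
    (∀ ω, |(E i).W ω| ≤ H i ω) ∧ ∀ ω, ∀ e ∈ dE ZQ (D.Bx 0), |(E i).num ω e| ≤ H i ω

/-- mean with respect to the weight of the family -/
def mn (F : Finset (ℤ × ℤ)) (s : Finset ι) (E : ι → WEnv) (f : Cfg → ℝ) : ℝ :=
  av F (fun ω => wT s E ω * f ω) / av F (wT s E)

theorem mn_add {s : Finset ι} {E : ι → WEnv} (f g : Cfg → ℝ) :
    mn F s E (fun ω => f ω + g ω) = mn F s E f + mn F s E g := by
  unfold mn
  rw [← add_div, ← av_add]
  congr 2
  funext ω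
  ring

theorem mn_sum {s : Finset ι} {E : ι → WEnv} (m : ℕ) (f : ℕ → Cfg → ℝ) :
    mn F s E (fun ω => ∑ i ∈ Finset.range m, f i ω) = ∑ i ∈ Finset.range m, mn F s E (f i) := by
  unfold mn
  rw [← Finset.sum_div, ← av_sum]
  congr 2
  funext ω
  rw [Finset.mul_sum]

/-- strands which visit a small box -/
theorem card_vis {v : VZ} {r : ℤ} {S : Finset (Finset (Finset DZ))} (hS : S ⊆ ust ZQ F ω)
    (h : ∀ U ∈ S, VisX F (F ∩ BR v r) (rep U)) : S.card ≤ (UB v r).card := by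
  classical
  have h' : ∀ U ∈ S, ∃ e ∈ rep U, e ∈ dE ZQ F ∧ und e ∈ UB v r := by
    intro U hU
    obtain ⟨e, he, heF, -, f, hf, hfA, hfs⟩ := visX_side (rep_dstr (hS hU)) (h U hU)
    exact ⟨e, he, heF, (inE_of_side (by exact_mod_cast (Finset.mem_inter.mp hfA).2) hfs).mem_UB⟩
  choose! g hg hgF hg' using h'
  have hinj : Set.InjOn (fun U => und (g U)) (S : Set (Finset (Finset DZ))) := by
    intro U hU U' hU' huu
    simp only at huu
    rcases und_inj (hgF U hU) (hgF U' hU') huu with h1 | h1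
    · exact ust_inj (hS hU) (hS hU') (hg U hU) (Or.inl (h1 ▸ hg U' hU'))
    · exact ust_inj (hS hU) (hS hU') (hg U hU) (Or.inr (by
        rw [h1, Prod.swap_swap]
        exact hg U' hU'))
  rw [← Finset.card_image_of_injOn hinj]
  refine Finset.card_le_card fun u hu => ?_
  obtain ⟨U, hU, rfl⟩ := Finset.mem_image.mp hu
  exact hg' U hU

/-- strands which visit `BR v (rr (j+2))` and leave `BR v (rr j)` -/
theorem card_cross {rr : ℕ → ℤ} {β c0 : ℤ} {v : VZ} (hr : MRad rr β c0) (j : ℕ)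
    {S : Finset (Finset (Finset DZ))} (hS : S ⊆ ust ZQ F ω)
    (h : ∀ U ∈ S, VisX F (F ∩ BR v (rr (j + 2))) (rep U) ∧
      ¬ InF ZQ F (F ∩ BR v (rr j)) (rep U)) : (S.card : ℝ) ≤ Nv F v rr β c0 1 j ω := by
  unfold Nv
  split_ifs with hj
  · rw [one_mul]
    obtain ⟨k1, k2⟩ := hr.big hj
    have k3 := hr.lo8 j
    have k4 : 8 * rr (j + 2) ≤ rr (j + 1) := hr.lo8 (j + 1)
    have h1 := card_le_large (F := F) (ω := ω) (R := (F ∩ BR v (rr j)) \ (F ∩ BR v (rr (j + 2))))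
      (n := rr (j + 2) / 64) (u := v.1 - rr j) (w := v.2 - rr j) (l := (768 * β ^ 2).toNat)
      (by omega) (Finset.sdiff_subset.trans Finset.inter_subset_left)
      (Finset.sdiff_subset.trans (ring_sub_RF (hr.len hj))) hS
      (fun U hU => large_of_vis (by omega) (rep_dstr (hS hU)) (h U hU).1 (h U hU).2)
    exact_mod_cast h1
  · rw [one_mul]
    have hc1 := c1_nonneg hr
    have h1 := card_vis hS (fun U hU => (h U hU).1)
    have h2 : rr (j + 2) ≤ c1 β c0 := by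
      have := hr.anti (show j ≤ j + 2 by omega)
      omega
    have h3 := card_UB_le (v := v) h2 hc1
    have h4 : (S.card : ℝ) ≤ (UB v (rr (j + 2))).card := by exact_mod_cast h1
    exact h4.trans h3

theorem abs_onX_num {E : WEnv} (he : e ∈ dE ZQ E.F) {U : Finset (Finset DZ)}
    (hU : U ∈ ust ZQ E.F ω) (h : e ∈ rep U ∨ e.swap ∈ rep U) :
    |onX (E.num ω) (rep U)| = |E.num ω e| := by
  have hd := rep_dstr hU
  rcases h with h | h
  · rw [onX_eq (fun a b h => num_srel E h) hd h]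
  · rw [onX_eq (fun a b h => num_srel E h) hd h, num_swap E he, abs_neg]

/-- **the strands which leave `Bx h`** -/
theorem far_pt {E0 : WEnv} {s : Finset ι} {E : ι → WEnv} (hF : ∀ i ∈ s, (E i).F = E0.F)
    {rr : ℕ → ℤ} {β c0 : ℤ} {v : VZ} (hr : MRad rr β c0) (hg : MGeo E0.F v (rr 0) X0 X1 Y0 Y1)
    {z : VZ} (hz : InR X0 X1 Y0 Y1 z) {l h : ℕ} (hhl : h + 2 ≤ l) (hl0 : 0 < rr l)
    (hz1 : |z.1 - v.1| ≤ rr l) (hz2 : |z.2 - v.2| ≤ rr l) {H : ℝ}
    (hH : ∀ e ∈ dE ZQ (E0.F ∩ BR v (rr 0)), ∑ i ∈ s, |(E i).num ω e| ≤ H) :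
    |fT s E (E0.F ∩ BR v (rr h)) z v ω| ≤ |H| * (Nv E0.F v rr β c0 1 (l - 2) ω *
      LH.ic (fun ω => ∀ i, h ≤ i → i < l →
        ¬ NoLeg ZQ ω E0.F (E0.F ∩ BR v (rr (i + 1))) (E0.F ∩ BR v (rr i))) ω) := by
  classical
  obtain ⟨l', rfl⟩ : ∃ l', l = l' + 2 := ⟨l - 2, by omega⟩
  rw [Nat.add_sub_cancel]
  set S : Finset (Finset (Finset DZ)) := (ust ZQ E0.F ω \ uIn ZQ E0.F (E0.F ∩ BR v (rr h)) ω).filter
    fun U => lft ZQ E0.F (rep U) z ≠ lft ZQ E0.F (rep U) v with hS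
  have hSu : ∀ U ∈ S, U ∈ ust ZQ E0.F ω ∧ ¬ InF ZQ E0.F (E0.F ∩ BR v (rr h)) (rep U) ∧
      lft ZQ E0.F (rep U) z ≠ lft ZQ E0.F (rep U) v := by
    intro U hU
    rw [hS, Finset.mem_filter, Finset.mem_sdiff, mem_uIn] at hU
    exact ⟨hU.1.1, fun h1 => hU.1.2 ⟨hU.1.1, h1⟩, hU.2⟩
  -- the edge near `v`
  have hconn := hg.conn hl0 hz hz1 hz2
  have hvis : ∀ U ∈ S, ∃ e ∈ dE ZQ (E0.F ∩ BR v (rr (l' + 2))), e ∈ rep U ∨ e.swap ∈ rep U := by
    intro U hU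
    obtain ⟨h1, -, h3⟩ := hSu U hU
    exact (lft_spec hg.pot (rep_dstr h1)).visits Finset.inter_subset_left hconn h3
  have hsub : ∀ {r r' : ℤ}, r ≤ r' → E0.F ∩ BR v r ⊆ E0.F ∩ BR v r' := fun hrr =>
    Finset.inter_subset_inter le_rfl (Sub.refl' hrr).subset
  have hvisX : ∀ U ∈ S, VisX E0.F (E0.F ∩ BR v (rr (l' + 2))) (rep U) := by
    intro U hU
    obtain ⟨e, he, he'⟩ := hvis U hU
    obtain ⟨f, hf, k, h4⟩ := dir_cases he
    refine ⟨f, (Finset.mem_inter.mp hf).1, hf, k, ?_⟩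
    rcases h4 with h4 | h4 <;> rcases he' with he' | he' <;> rw [h4] at he'
    · exact Or.inl he'
    · exact Or.inr he'
    · exact Or.inr he'
    · rw [Prod.swap_swap] at he'
      exact Or.inl he'
  have hcard : (S.card : ℝ) ≤ Nv E0.F v rr β c0 1 l' ω := by
    refine card_cross hr l' (fun U hU => (hSu U hU).1) fun U hU => ⟨hvisX U hU, fun h1 => ?_⟩
    exact (hSu U hU).2.1 (h1.mono (hsub (hr.anti (by omega))))
  -- the sum
  have e1 : fT s E (E0.F ∩ BR v (rr h)) z v ω = ∑ U ∈ S, ∑ i ∈ s,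
      ((lft ZQ E0.F (rep U) z - lft ZQ E0.F (rep U) v : ℤ) : ℝ) * onX ((E i).num ω) (rep U) := by
    unfold fT
    rw [Finset.sum_comm]
    refine Finset.sum_congr rfl fun i hi => ?_
    unfold far
    rw [hF i hi, hS, Finset.sum_filter]
    refine Finset.sum_congr rfl fun U _ => ?_
    split_ifs with h1
    · rfl
    · push Not at h1
      rw [h1, sub_self]
      simp
  have e2 : ∀ U ∈ S, |∑ i ∈ s, ((lft ZQ E0.F (rep U) z - lft ZQ E0.F (rep U) v : ℤ) : ℝ) *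
      onX ((E i).num ω) (rep U)| ≤ |H| := by
    intro U hU
    obtain ⟨h1, -, -⟩ := hSu U hU
    obtain ⟨e, he, he'⟩ := hvis U hU
    have heF : e ∈ dE ZQ E0.F := Tilt.dE_mono Finset.inter_subset_left he
    have h5 := (lft_spec hg.pot (rep_dstr h1)).abs_le z v
    have h6 : |((lft ZQ E0.F (rep U) z - lft ZQ E0.F (rep U) v : ℤ) : ℝ)| ≤ 1 := by
      rw [← Int.cast_abs]
      exact_mod_cast h5
    refine (Finset.abs_sum_le_sum_abs _ _).trans ?_
    have h7 : ∀ i ∈ s, |((lft ZQ E0.F (rep U) z - lft ZQ E0.F (rep U) v : ℤ) : ℝ) *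
        onX ((E i).num ω) (rep U)| ≤ |(E i).num ω e| := by
      intro i hi
      have hFi := hF i hi
      rw [abs_mul, abs_onX_num (E := E i) (e := e) (by rw [hFi]; exact heF) (by rw [hFi]; exact h1) he']
      exact mul_le_of_le_one_left (abs_nonneg _) h6
    refine (Finset.sum_le_sum h7).trans ((hH e ?_).trans (le_abs_self _))
    exact Tilt.dE_mono (hsub (hr.anti (Nat.zero_le _))) he
  by_cases hne : S.Nonempty
  · obtain ⟨U, hU⟩ := hne
    have hleg : ∀ i, h ≤ i → i < l' + 2 →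
        ¬ NoLeg ZQ ω E0.F (E0.F ∩ BR v (rr (i + 1))) (E0.F ∩ BR v (rr i)) := by
      intro i hi hil
      refine leg_of_vis (hsub (hr.anti (Nat.le_succ i))) (rep_dstr (hSu U hU).1) ?_
        fun h1 => (hSu U hU).2.1 (h1.mono (hsub (hr.anti hi)))
      obtain ⟨f, hfF, hf, k, h4⟩ := hvisX U hU
      exact ⟨f, hfF, hsub (hr.anti (by omega)) hf, k, h4⟩
    have hic : LH.ic (fun ω => ∀ i, h ≤ i → i < l' + 2 →
        ¬ NoLeg ZQ ω E0.F (E0.F ∩ BR v (rr (i + 1))) (E0.F ∩ BR v (rr i))) ω = 1 := if_pos hleg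
    rw [hic, mul_one, e1]
    refine (Finset.abs_sum_le_sum_abs _ _).trans ((Finset.sum_le_sum e2).trans ?_)
    rw [Finset.sum_const, nsmul_eq_mul, mul_comm]
    exact mul_le_mul_of_nonneg_left hcard (abs_nonneg _)
  · rw [Finset.not_nonempty_iff_eq_empty] at hne
    rw [e1, hne, Finset.sum_empty, abs_zero]
    exact mul_nonneg (abs_nonneg _) (mul_nonneg (Nv_nonneg zero_le_one _ _) (LH.ic_nonneg _ _))

/-- the better one of two reference values -/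
theorem min_ref {x y p q C C' : ℝ} (hp : 0 ≤ p) (hq : 0 ≤ q) (hC : 0 ≤ C) (hC' : 0 ≤ C') :
    ∃ r, (r = x ∨ r = y) ∧ ∀ m CW : ℝ, 0 ≤ CW → |m - x| ≤ C * CW * p → |m - y| ≤ C' * CW * q →
      |m - r| ≤ (C + C') * CW * (Real.sqrt p * Real.sqrt q) := by
  rcases le_total p q with h | h
  · refine ⟨x, Or.inl rfl, fun m CW hCW h1 _ => h1.trans ?_⟩
    have h2 : p ≤ Real.sqrt p * Real.sqrt q := by
      calc p = Real.sqrt p * Real.sqrt p := (Real.mul_self_sqrt hp).symm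
        _ ≤ _ := mul_le_mul_of_nonneg_left (Real.sqrt_le_sqrt h) (Real.sqrt_nonneg _)
    calc C * CW * p ≤ (C + C') * CW * p :=
          mul_le_mul_of_nonneg_right (mul_le_mul_of_nonneg_right (by linarith) hCW) hp
      _ ≤ _ := mul_le_mul_of_nonneg_left h2 (by positivity)
  · refine ⟨y, Or.inr rfl, fun m CW hCW _ h1 => h1.trans ?_⟩
    have h2 : q ≤ Real.sqrt p * Real.sqrt q := by
      calc q = Real.sqrt q * Real.sqrt q := (Real.mul_self_sqrt hq).symm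
        _ ≤ _ := mul_le_mul_of_nonneg_right (Real.sqrt_le_sqrt h) (Real.sqrt_nonneg _)
    calc C' * CW * q ≤ (C + C') * CW * q :=
          mul_le_mul_of_nonneg_right (mul_le_mul_of_nonneg_right (by linarith) hCW) hq
      _ ≤ _ := mul_le_mul_of_nonneg_left h2 (by positivity)

end HG

end

end Pool.Agent.SixB
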