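import Pool.Agent.Lib.SixB.S6LHgtG

/-!
# 6BD, block CA-L, row L6: heights by scale, part 8 (THEOREM at a mark)

`mark_ref`: near a flat mark with local weight `t ≥ 1` the mean height difference `u z - u v` of every family with the local
law of `E0` is, up to `C * CW * κ ^ l` for `|z - v| ≤ rr l`, a number which depends only on the local law. All vertices
`z` (boundary and lattice scale included).
`mark_cmp`: comparison of two families.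
-/

set_option autoImplicit false
set_option linter.unusedSectionVars false

namespace Pool.Agent.SixB

open Pool.Agent.Perc Pool.Agent.Perc.Q Relation Pool.Agent.SixB.Tilt PercD PercN

noncomputable section

namespace HG

variable {F A B I J M G : Finset (ℤ × ℤ)} {ω ω' : Cfg} {a b c e : DZ} {X : Finset DZ}
  {X0 X1 Y0 Y1 : ℤ} {ι : Type}

theorem div_bound {x c Z K b : ℝ} (hK : 0 < K) (hZ : K ≤ Z) (hb : 0 ≤ b) (h : |x - c * Z| ≤ b * K) :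
    |x / Z - c| ≤ b := by
  have hZ0 : 0 < Z := hK.trans_le hZ
  have e : x / Z - c = (x - c * Z) / Z := by field_simp
  rw [e, abs_div, abs_of_pos hZ0, div_le_iff₀ hZ0]
  exact h.trans (mul_le_mul_of_nonneg_left hZ hb)

variable {E0 : WEnv} {ov : Sym2 DZ → Prop} {D : LData ZQ E0.F ov} {t C th : ℝ}
  {Mj : (Cfg → ℝ) → ℝ → Prop}

theorem Dcp.mean (hD : Dcp D t C th Mj) {m0 : ℕ} {f f0 : Cfg → ℝ} {Cf : ℝ}
    (h0 : 0 < Cf) (h1 : Dep (D.Bx (m0 + 1) : Set (ℤ × ℤ)) f)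
    (h2 : Dep ((D.Bx (m0 + 1) : Set (ℤ × ℤ)) \ (D.Bx (m0 + 3) : Set (ℤ × ℤ))) f0)
    (h3 : ∀ ω, |f ω| ≤ f0 ω) (h4 : av E0.F (fun ω => f0 ω ^ 8) ≤ Cf ^ 8) :
    ∃ c : ℝ, ∀ (ι : Type) (s : Finset ι) (E : ι → WEnv) (CW K : ℝ), MFam D t Mj s E CW K →
      |mn E0.F s E f - c| ≤ C * Cf * CW * th ^ m0 := by
  obtain ⟨c, hc⟩ := hD.dec m0 f f0 Cf h0 h1 h2 h3 h4
  have hC := hD.C0
  have hth := hD.th0
  refine ⟨c, fun ι s E CW K hM => ?_⟩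
  have hCW := hM.CW0
  refine div_bound hM.K0 hM.KZ (by positivity) ?_
  obtain ⟨H, B, hB, hm⟩ := hM.maj
  have e : av E0.F (fun ω => wT s E ω * f ω) - c * av E0.F (wT s E) =
      ∑ i ∈ s, (av E0.F (fun ω => (E i).W ω * f ω) - c * av E0.F (E i).W) := by
    rw [Finset.sum_sub_distrib, ← Finset.mul_sum, ← av_sum, ← av_sum]
    congr 1
    congr 1
    funext ω
    unfold wT
    rw [Finset.sum_mul]
  rw [e]
  refine (Finset.abs_sum_le_sum_abs _ _).trans ?_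
  calc _ ≤ ∑ i ∈ s, C * Cf * th ^ m0 * B i := Finset.sum_le_sum fun i hi =>
        hc _ _ _ (hM.loc i hi) (hm i hi).2.1 (hm i hi).1
    _ = C * Cf * th ^ m0 * ∑ i ∈ s, B i := by rw [Finset.mul_sum]
    _ ≤ C * Cf * th ^ m0 * (CW * K) := mul_le_mul_of_nonneg_left hB (by positivity)
    _ = _ := by ring

theorem Dcp.sum (hD : Dcp D t C th Mj) {j m0 : ℕ} {f0 : Cfg → ℝ} {Cf : ℝ} (hj : j ≤ m0)
    (h0 : 0 < Cf) (h1 : ∀ ω, 0 ≤ f0 ω)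
    (h2 : Dep ((D.Bx (m0 + 1) : Set (ℤ × ℤ)) \ (D.Bx (m0 + 3) : Set (ℤ × ℤ))) f0)
    (h4 : av E0.F (fun ω => f0 ω ^ 8) ≤ Cf ^ 8) {s : Finset ι} {H : ι → Cfg → ℝ} {B : ι → ℝ}
    (hm : ∀ i ∈ s, Mj (H i) (B i)) {X : ℝ} (hB : ∑ i ∈ s, B i ≤ X) :
    av E0.F (fun ω => (∑ i ∈ s, H i ω) * (f0 ω *
      LH.ic (fun ω => ∀ i, j < i → i ≤ m0 → D.cr i ω) ω)) ≤ C * Cf * th ^ (m0 - j) * X := by
  have hC := hD.C0
  have hth := hD.th0
  have e : (fun ω => (∑ i ∈ s, H i ω) * (f0 ω *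
      LH.ic (fun ω => ∀ i, j < i → i ≤ m0 → D.cr i ω) ω)) = fun ω => ∑ i ∈ s, H i ω * (f0 ω *
      LH.ic (fun ω => ∀ i, j < i → i ≤ m0 → D.cr i ω) ω) := by
    funext ω
    rw [Finset.sum_mul]
  rw [e, av_sum]
  calc _ ≤ ∑ i ∈ s, C * Cf * th ^ (m0 - j) * B i := Finset.sum_le_sum fun i hi =>
        hD.tail j m0 f0 Cf hj h0 h1 h2 h4 _ _ (hm i hi)
    _ = C * Cf * th ^ (m0 - j) * ∑ i ∈ s, B i := by rw [Finset.mul_sum]
    _ ≤ _ := mul_le_mul_of_nonneg_left hB (by positivity)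

/-- the arcs near a point which is far from `v` have weight 1 -/
def NatZ (E0 : WEnv) (v : VZ) (r : ℤ) (X0 X1 Y0 Y1 : ℤ) : Prop :=
  ∀ (z : VZ) (ρ : ℤ), InR X0 X1 Y0 Y1 z → 0 ≤ ρ → (4 * ρ ≤ |z.1 - v.1| ∨ 4 * ρ ≤ |z.2 - v.2|) →
    |z.1 - v.1| + ρ ≤ r → |z.2 - v.2| + ρ ≤ r →
    ∀ a ∈ bS ZQ E0.F, ∀ b ∈ bS ZQ E0.F, Ah ZQ (E0.F ∩ BR z ρ) a → Ah ZQ (E0.F ∩ BR z ρ) b →
      E0.t a b = 1

theorem NatZ.use {E : WEnv} {v z : VZ} {r : ℤ} (h : NatZ E v r X0 X1 Y0 Y1) (hz : InR X0 X1 Y0 Y1 z)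
    {ρ d : ℤ} (hρ0 : 0 ≤ ρ) (hρ : 4 * ρ ≤ d) (hd : d = |z.1 - v.1| ∨ d = |z.2 - v.2|)
    (hd1 : |z.1 - v.1| ≤ d) (hd2 : |z.2 - v.2| ≤ d) (hr : 5 * d ≤ 4 * r)
    (ha : a ∈ bS ZQ E.F) (hb : b ∈ bS ZQ E.F) (k1 : Ah ZQ (E.F ∩ BR z ρ) a)
    (k2 : Ah ZQ (E.F ∩ BR z ρ) b) : E.t a b = 1 :=
  h z ρ hz hρ0 (by rcases hd with hd | hd <;> omega) (by omega) (by omega) a ha b hb k1 k2

/-- the box of `z` is in a ring around `v` -/
theorem box_ring {v z : VZ} {d ρ r0 r2 : ℤ} (hd1 : |z.1 - v.1| ≤ d) (hd2 : |z.2 - v.2| ≤ d)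
    (hd : d = |z.1 - v.1| ∨ d = |z.2 - v.2|) (hρ : 4 * ρ ≤ d) (h0 : 5 * d ≤ 4 * r0)
    (h2 : 4 * r2 ≤ 3 * d) : E0.F ∩ BR z ρ ⊆ E0.F ∩ BR v r0 ∧ Disjoint (E0.F ∩ BR z ρ) (E0.F ∩ BR v r2) := by
  rw [abs_le] at hd1 hd2
  constructor
  · intro f hf
    rw [Finset.mem_inter, mem_BR] at hf ⊢
    refine ⟨hf.1, ?_⟩
    omega
  · rw [Finset.disjoint_left]
    intro f hf hf'
    rw [Finset.mem_inter, mem_BR] at hf hf'
    rcases hd with hd | hd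
    · rcases abs_cases (z.1 - v.1) with h | h <;> omega
    · rcases abs_cases (z.2 - v.2) with h | h <;> omega

/-- the sets of one observable at `z` -/
theorem dep_z {v z : VZ} {rr : ℕ → ℤ} (hBx : ∀ j, D.Bx j = E0.F ∩ BR v (rr j)) {m0 : ℕ} {d ρ : ℤ}
    (hd1 : |z.1 - v.1| ≤ d) (hd2 : |z.2 - v.2| ≤ d) (hd : d = |z.1 - v.1| ∨ d = |z.2 - v.2|)
    (hρ : 4 * ρ ≤ d) (h0 : 5 * d ≤ 4 * rr (m0 + 1)) (h2 : 4 * rr (m0 + 3) ≤ 3 * d) {α : Type}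
    {f : Cfg → α} (hf : Dep ((E0.F ∩ BR z ρ : Finset (ℤ × ℤ)) : Set (ℤ × ℤ)) f) :
    Dep (D.Bx (m0 + 1) : Set (ℤ × ℤ)) f ∧
      Dep ((D.Bx (m0 + 1) : Set (ℤ × ℤ)) \ (D.Bx (m0 + 3) : Set (ℤ × ℤ))) f := by
  obtain ⟨k1, k2⟩ := box_ring (E0 := E0) hd1 hd2 hd hρ h0 h2
  rw [hBx, hBx]
  refine ⟨hf.mono (by exact_mod_cast k1), hf.mono fun x hx => ⟨?_, fun hx' => ?_⟩⟩
  · exact_mod_cast k1 (by exact_mod_cast hx)
  · exact Finset.disjoint_left.mp k2 (by exact_mod_cast hx) (by exact_mod_cast hx')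

/-- **L0 for a family**, divided by the partition function -/
theorem mn_L0 (hD : Dcp D t C th Mj) {v z : VZ} {rr : ℕ → ℤ} (hBx : ∀ j, D.Bx j = E0.F ∩ BR v (rr j))
    (hn : NatZ E0 v (rr 0) X0 X1 Y0 Y1) (hz : InR X0 X1 Y0 Y1 z) {m0 : ℕ} {d : ℤ}
    (hd1 : |z.1 - v.1| ≤ d) (hd2 : |z.2 - v.2| ≤ d) (hd : d = |z.1 - v.1| ∨ d = |z.2 - v.2|)
    (h0 : 5 * d ≤ 4 * rr (m0 + 1)) (h2 : 4 * rr (m0 + 3) ≤ 3 * d) (h00 : rr (m0 + 1) ≤ rr 0)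
    {r ρ : ℤ} (hr : r ≤ ρ) (hρ0 : 0 ≤ ρ) (hρ : 4 * ρ ≤ d) {f : Cfg → ℝ} {p q : ℝ} (hp : 0 < p) (hq : 0 < q)
    (hf : Dep ((E0.F ∩ BR z r : Finset (ℤ × ℤ)) : Set (ℤ × ℤ)) f)
    (hf16 : av E0.F (fun ω => f ω ^ 16) ≤ p ^ 16)
    (hleg : av E0.F (LH.ic fun ω => ¬ NoLeg ZQ ω E0.F (E0.F ∩ BR z r) (E0.F ∩ BR z ρ)) ≤ q ^ 16)
    {s : Finset ι} {E : ι → WEnv} {CW K : ℝ} (hM : MFam D t Mj s E CW K) :
    |mn E0.F s E f - av E0.F f| ≤ 2 * C * p * q * CW := by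
  have hC := hD.C0
  have hCW := hM.CW0
  have hK := hM.K0
  have hIM : E0.F ∩ BR z r ⊆ E0.F ∩ BR z ρ := Finset.inter_subset_inter le_rfl (Sub.refl' hr).subset
  have hsubv : E0.F ∩ BR z ρ ⊆ D.Bx 0 := by
    rw [hBx]
    refine (box_ring (E0 := E0) hd1 hd2 hd hρ h0 h2).1.trans ?_
    exact Finset.inter_subset_inter le_rfl (Sub.refl' h00).subset
  obtain ⟨H, B, hB, hm⟩ := hM.maj
  set S : Cfg → Prop := fun ω => ¬ NoLeg ZQ ω E0.F (E0.F ∩ BR z r) (E0.F ∩ BR z ρ) with hS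
  have hSd : Dep ((E0.F ∩ BR z ρ : Finset (ℤ × ℤ)) : Set (ℤ × ℤ)) S := by
    have h1 := noLeg_dep (Q := ZQ) (F := E0.F) (I := E0.F ∩ BR z r) (M := E0.F ∩ BR z ρ)
    intro ω ω' h
    have h2 : NoLeg ZQ ω E0.F (E0.F ∩ BR z r) (E0.F ∩ BR z ρ) =
        NoLeg ZQ ω' E0.F (E0.F ∩ BR z r) (E0.F ∩ BR z ρ) := h1 ω ω' fun x hx => h x (by
      rw [Finset.mem_coe, Finset.mem_sdiff] at hx
      exact_mod_cast hx.1)
    show (¬ _) = (¬ _)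
    rw [h2]
  have hic1 : ∀ ω, LH.ic (fun ω => ∀ i, m0 < i → i ≤ m0 → D.cr i ω) ω = 1 := fun ω =>
    if_pos fun i h1 h2 => absurd h2 (by omega)
  have hW : ∀ ω, |wT s E ω| ≤ ∑ i ∈ s, H i ω := fun ω =>
    (Finset.abs_sum_le_sum_abs _ _).trans (Finset.sum_le_sum fun i hi => (hm i hi).2.1 ω)
  -- the general estimate with the chain
  have key : ∀ (N : Cfg → ℝ) (x : ℝ), 0 < x → (∀ ω, 0 ≤ N ω) →
      Dep ((E0.F ∩ BR z r : Finset (ℤ × ℤ)) : Set (ℤ × ℤ)) N → av E0.F (fun ω => N ω ^ 16) ≤ x ^ 16 →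
      av E0.F (fun ω => |wT s E ω| * (N ω * LH.ic S ω)) ≤ C * (x * q) * (CW * K) := by
    intro N x hx hN0 hN hN16
    have hd' : Dep ((E0.F ∩ BR z ρ : Finset (ℤ × ℤ)) : Set (ℤ × ℤ)) (fun ω => N ω * LH.ic S ω) := by
      intro ω ω' h
      show N ω * LH.ic S ω = N ω' * LH.ic S ω'
      rw [hN ω ω' fun x hx => h x (by exact_mod_cast hIM (by exact_mod_cast hx)),
        LH.ic_congr (hSd ω ω' h)]
    have h5 := hD.sum (s := s) (H := H) (B := B) (j := m0) (m0 := m0)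
      (f0 := fun ω => N ω * LH.ic S ω) (Cf := x * q) le_rfl (by positivity)
      (fun ω => mul_nonneg (hN0 ω) (LH.ic_nonneg _ _))
      (dep_z hBx hd1 hd2 hd hρ h0 h2 hd').2 (pow8_ic hx.le hq.le hN16 hleg) (fun i hi => (hm i hi).1) hB
    rw [Nat.sub_self, pow_zero, mul_one] at h5
    refine le_trans (av_mono fun T _ => ?_) h5
    rw [hic1, mul_one]
    exact mul_le_mul_of_nonneg_right (hW _) (mul_nonneg (hN0 _) (LH.ic_nonneg _ _))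
  have hfa : av E0.F (fun ω => |f ω| ^ 16) ≤ p ^ 16 := by
    refine le_trans (le_of_eq ?_) hf16
    refine av_congr fun T _ => ?_
    exact (Even.pow_abs (by decide) _)
  have k1 := key (fun ω => |f ω|) p hp (fun ω => abs_nonneg _) (fun ω ω' h => by
    show |f ω| = |f ω'|
    rw [hf ω ω' h]) hfa
  have k2 := key (fun _ => 1) 1 one_pos (fun _ => zero_le_one) (fun _ _ _ => rfl)
    (by simp only [one_pow, av_const, le_refl])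
  have h3 := wT_L0g (F := E0.F) (I := E0.F ∩ BR z r) (M := E0.F ∩ BR z ρ) hM.hF
    hIM Finset.inter_subset_left ?_ (by positivity) hf k1 k2 (mean8 hp.le (pow8_of_pow16 hf16))
  · refine div_bound hM.K0 hM.KZ (by positivity) (h3.trans (le_of_eq ?_))
    ring
  · intro i hi a ha b hb k1 k2
    rw [(hM.agr i hi a ha b hb (k1.mono hsubv) (k2.mono hsubv)).1]
    exact hn.use hz hρ0 hρ hd hd1 hd2 (by omega) ha hb k1 k2

theorem geo_range {x : ℝ} (h0 : 0 ≤ x) (h1 : x < 1) (n : ℕ) : ∑ i ∈ Finset.range n, x ^ i ≤ 1 / (1 - x) := by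
  have h2 : 0 < 1 - x := by linarith
  rw [le_div_iff₀ h2, geom_sum_mul_neg]
  have : 0 ≤ x ^ n := by positivity
  linarith

/-- one class at `z`: the minimum of the two bounds -/
theorem z_class (hD : Dcp D t C th Mj) {C2 γ : ℝ} (hC2 : 0 < C2) (hγ : 0 < γ)
    (hleg : ∀ (F : Finset (ℤ × ℤ)) (v : VZ) (r R : ℤ) (k : ℕ), 1 ≤ r → 2 ^ k * r ≤ R →
      av F (LH.ic fun ω => ¬ NoLeg ZQ ω F (F ∩ BR v r) (F ∩ BR v R)) ≤ (C2 * γ ^ k) ^ 16)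
    {v z : VZ} {rr : ℕ → ℤ} (hBx : ∀ j, D.Bx j = E0.F ∩ BR v (rr j))
    (hn : NatZ E0 v (rr 0) X0 X1 Y0 Y1) (hz : InR X0 X1 Y0 Y1 z) {m0 : ℕ} {d : ℤ}
    (hd1 : |z.1 - v.1| ≤ d) (hd2 : |z.2 - v.2| ≤ d) (hd : d = |z.1 - v.1| ∨ d = |z.2 - v.2|)
    (h0 : 5 * d ≤ 4 * rr (m0 + 1)) (h2 : 4 * rr (m0 + 3) ≤ 3 * d) (h00 : rr (m0 + 1) ≤ rr 0)
    {r ρ : ℤ} {k : ℕ} (hr1 : 1 ≤ r) (hk : 2 ^ k * r ≤ ρ) (hρ : 4 * ρ ≤ d) {g g0 : Cfg → ℝ} {Cz : ℝ}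
    (hCz : 0 < Cz) (hg : Dep ((E0.F ∩ BR z r : Finset (ℤ × ℤ)) : Set (ℤ × ℤ)) g)
    (hg0 : Dep ((E0.F ∩ BR z r : Finset (ℤ × ℤ)) : Set (ℤ × ℤ)) g0) (hgg : ∀ ω, |g ω| ≤ g0 ω)
    (hg16 : av E0.F (fun ω => g0 ω ^ 16) ≤ Cz ^ 16) :
    ∃ R : ℝ, ∀ (ι : Type) (s : Finset ι) (E : ι → WEnv) (CW K : ℝ), MFam D t Mj s E CW K →
      |mn E0.F s E g - R| ≤ (C * Cz + 2 * C * Cz * C2) * CW *
        (Real.sqrt (th ^ m0) * Real.sqrt (γ ^ k)) := by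
  have h2k : (1 : ℤ) ≤ 2 ^ k := one_le_pow₀ (by norm_num)
  have hrρ : r ≤ ρ := by nlinarith
  have hC := hD.C0
  have hth := hD.th0
  obtain ⟨c, hc⟩ := hD.mean hCz
    (dep_z hBx hd1 hd2 hd (by linarith) h0 h2 hg).1 (dep_z hBx hd1 hd2 hd (by linarith) h0 h2 hg0).2
    hgg (pow8_of_pow16 hg16)
  obtain ⟨R, -, hR⟩ := min_ref (x := c) (y := av E0.F g) (p := th ^ m0) (q := γ ^ k)
    (C := C * Cz) (C' := 2 * C * Cz * C2) (by positivity) (by positivity) (by positivity) (by positivity)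
  refine ⟨R, fun ι s E CW K hM => hR _ CW hM.CW0 ?_ ?_⟩
  · refine (hc ι s E CW K hM).trans (le_of_eq ?_)
    ring
  · have hg16' : av E0.F (fun ω => g ω ^ 16) ≤ Cz ^ 16 := by
      refine le_trans (av_mono fun T _ => ?_) hg16
      rw [← Even.pow_abs (show Even 16 by decide) (g (ind T))]
      exact pow_le_pow_left₀ (abs_nonneg _) (hgg _) 16
    have := mn_L0 (ι := ι) hD hBx hn hz hd1 hd2 hd h0 h2 h00 hrρ (by linarith) hρ hCz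
      (q := C2 * γ ^ k) (by positivity) hg hg16' (hleg E0.F z r ρ k hr1 hk) hM
    refine this.trans (le_of_eq ?_)
    ring

/-- all classes at `z` -/
theorem z_part (hD : Dcp D t C th Mj) {C2 γ : ℝ} (hC2 : 0 < C2) (hγ : 0 < γ) (hγ1 : γ < 1)
    (hleg : ∀ (F : Finset (ℤ × ℤ)) (v : VZ) (r R : ℤ) (k : ℕ), 1 ≤ r → 2 ^ k * r ≤ R →
      av F (LH.ic fun ω => ¬ NoLeg ZQ ω F (F ∩ BR v r) (F ∩ BR v R)) ≤ (C2 * γ ^ k) ^ 16)
    {K Cz : ℝ} (hK0 : 0 ≤ K) (hCz : 0 < Cz) (hCzK : K * 8450 ≤ Cz)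
    (hlg : ∀ (F : Finset (ℤ × ℤ)) (z : VZ) (s : ℕ),
      av F (fun ω => (K * lgN (Az F z (s + 1)) (4 * 2 ^ s) ω) ^ 16) ≤ Cz ^ 16)
    {v z : VZ} {rr : ℕ → ℤ} (hBx : ∀ j, D.Bx j = E0.F ∩ BR v (rr j))
    (hg : MGeo E0.F v (rr 0) X0 X1 Y0 Y1) (hKap : KapB E0 (E0.F ∩ BR v (rr 0)) K)
    (hn : NatZ E0 v (rr 0) X0 X1 Y0 Y1) (hz : InR X0 X1 Y0 Y1 z) {m0 : ℕ} {d : ℤ}
    (hd1 : |z.1 - v.1| ≤ d) (hd2 : |z.2 - v.2| ≤ d) (hd : d = |z.1 - v.1| ∨ d = |z.2 - v.2|)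
    (h0 : 5 * d ≤ 4 * rr (m0 + 1)) (h2 : 4 * rr (m0 + 3) ≤ 3 * d) (h00 : rr (m0 + 1) ≤ rr 0)
    {S : ℕ} (hS : 128 * 2 ^ S ≤ d) :
    ∃ R : ℝ, ∀ (ι : Type) (s : Finset ι) (E : ι → WEnv) (CW A : ℝ), MFam D t Mj s E CW A →
      |mn E0.F s E (csum E0 (InF ZQ E0.F (Az E0.F z S)) z v) - R| ≤
        (C * Cz + 2 * C * Cz * C2) * CW * (Real.sqrt (th ^ m0) * (1 + 1 / (1 - Real.sqrt γ))) := by
  have hC := hD.C0
  have hth := hD.th0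
  have h2S : (1 : ℤ) ≤ 2 ^ S := one_le_pow₀ (by norm_num)
  have hd0 : 0 < d := by omega
  have hAzB : ∀ s, s ≤ S → Az E0.F z s ⊆ E0.F ∩ BR v (rr 0) := by
    intro s hs
    have h2s : (2 : ℤ) ^ s ≤ 2 ^ S := pow_le_pow_right₀ (by norm_num) hs
    refine (box_ring (E0 := E0) hd1 hd2 hd (ρ := 32 * 2 ^ s) (r2 := rr (m0 + 3)) (by omega)
      (r0 := rr (m0 + 1)) h0 h2).1.trans ?_
    exact Finset.inter_subset_inter le_rfl (Sub.refl' h00).subset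
  -- the lowest class
  obtain ⟨R0, hR0⟩ := z_class (k := S) hD hC2 hγ hleg hBx hn hz hd1 hd2 hd h0 h2 h00
    (r := 32 * 2 ^ 0) (ρ := 32 * 2 ^ S) (by norm_num) (by rw [pow_zero]; linarith) (by linarith) hCz
    (g := csum E0 (InF ZQ E0.F (Az E0.F z 0)) z v) (g0 := fun _ => K * 8450)
    (csum_dep E0 (fun X hX => hX) z v) (fun _ _ _ => rfl)
    (fun ω => zbase hg.pot hK0 (hKap.mono (hAzB 0 (Nat.zero_le _))) ω)
    (by rw [av_const]; exact pow_le_pow_left₀ (by positivity) hCzK 16)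
  -- the other classes
  have hcl : ∀ i : ℕ, ∃ R : ℝ, i < S → ∀ (ι : Type) (s : Finset ι) (E : ι → WEnv) (CW A : ℝ),
      MFam D t Mj s E CW A → |mn E0.F s E (csum E0 (fun X => InF ZQ E0.F (Az E0.F z (i + 1)) X ∧
        ¬ InF ZQ E0.F (Az E0.F z i) X) z v) - R| ≤ (C * Cz + 2 * C * Cz * C2) * CW *
          (Real.sqrt (th ^ m0) * Real.sqrt (γ ^ (S - 1 - i))) := by
    intro i
    by_cases hi : i < S
    swap
    · exact ⟨0, fun h => absurd h hi⟩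
    have h2i : (2 : ℤ) ^ (i + 1) ≤ 2 ^ S := pow_le_pow_right₀ (by norm_num) hi
    have h2i0 : (1 : ℤ) ≤ 2 ^ i := one_le_pow₀ (by norm_num)
    have hpk : (2 : ℤ) ^ (S - 1 - i) * 2 ^ (i + 1) = 2 ^ S := by
      rw [← pow_add]
      congr 1
      omega
    obtain ⟨R, hR⟩ := z_class (k := S - 1 - i) hD hC2 hγ hleg hBx hn hz hd1 hd2 hd h0 h2 h00
      (r := 32 * 2 ^ (i + 1)) (ρ := 32 * 2 ^ S) (by rw [pow_succ]; omega) (by nlinarith) (by linarith)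
      hCz (g := csum E0 (fun X => InF ZQ E0.F (Az E0.F z (i + 1)) X ∧
        ¬ InF ZQ E0.F (Az E0.F z i) X) z v)
      (g0 := fun ω => K * lgN (Az E0.F z (i + 1)) (4 * 2 ^ i) ω)
      (csum_dep E0 (fun X hX => hX.1) z v)
      (fun ω ω' h => by
        show K * (lgN (Az E0.F z (i + 1)) (4 * 2 ^ i) ω : ℝ) =
          K * (lgN (Az E0.F z (i + 1)) (4 * 2 ^ i) ω' : ℝ)
        rw [dep_lgN (Az E0.F z (i + 1)) (4 * 2 ^ i) ω ω' h])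
      (fun ω => zbound hg hK0 (hKap.mono (hAzB (i + 1) hi)) hz (d := d)
        (by have := hg.r0; omega) (by rcases hd with hd | hd <;> omega)
        (by rw [pow_succ] at h2i; omega) ω)
      (hlg E0.F z i)
    exact ⟨R, fun _ => hR⟩
  choose Rs hRs using hcl
  refine ⟨R0 + ∑ i ∈ Finset.range S, Rs i, fun ι s E CW A hM => ?_⟩
  have hCW := hM.CW0
  have e1 : mn E0.F s E (csum E0 (InF ZQ E0.F (Az E0.F z S)) z v) =
      mn E0.F s E (csum E0 (InF ZQ E0.F (Az E0.F z 0)) z v) + ∑ i ∈ Finset.range S,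
        mn E0.F s E (csum E0 (fun X => InF ZQ E0.F (Az E0.F z (i + 1)) X ∧
          ¬ InF ZQ E0.F (Az E0.F z i) X) z v) := by
    rw [← mn_sum, ← mn_add]
    congr 1
    funext ω
    exact csum_up E0 (Az_mono E0.F z) S z v ω
  rw [e1]
  set P := (C * Cz + 2 * C * Cz * C2) * CW with hP
  have hP0 : 0 ≤ P := by positivity
  have hs0 : 0 ≤ Real.sqrt (th ^ m0) := Real.sqrt_nonneg _
  have hsg : Real.sqrt γ < 1 := by
    rw [← Real.sqrt_one]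
    exact Real.sqrt_lt_sqrt hγ.le hγ1
  have hsq : ∀ n : ℕ, Real.sqrt (γ ^ n) = Real.sqrt γ ^ n := by
    intro n
    induction n with
    | zero => simp
    | succ n ih => rw [pow_succ, Real.sqrt_mul (by positivity), ih, pow_succ]
  have h3 := hR0 ι s E CW A hM
  have h4 : ∑ i ∈ Finset.range S, |mn E0.F s E (csum E0 (fun X => InF ZQ E0.F (Az E0.F z (i + 1)) X ∧
        ¬ InF ZQ E0.F (Az E0.F z i) X) z v) - Rs i| ≤ P * (Real.sqrt (th ^ m0) *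
          (1 / (1 - Real.sqrt γ))) := by
    calc _ ≤ ∑ i ∈ Finset.range S, P * Real.sqrt (th ^ m0) * Real.sqrt γ ^ (S - 1 - i) := by
          refine Finset.sum_le_sum fun i hi => ?_
          rw [Finset.mem_range] at hi
          refine (hRs i hi ι s E CW A hM).trans (le_of_eq ?_)
          rw [hsq]
          ring
      _ = P * Real.sqrt (th ^ m0) * ∑ i ∈ Finset.range S, Real.sqrt γ ^ i := by
          rw [← Finset.mul_sum, Finset.sum_range_reflect (fun i => Real.sqrt γ ^ i) S]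
      _ ≤ P * Real.sqrt (th ^ m0) * (1 / (1 - Real.sqrt γ)) :=
          mul_le_mul_of_nonneg_left (geo_range (Real.sqrt_nonneg _) hsg S) (by positivity)
      _ = _ := by ring
  have h5 : Real.sqrt (γ ^ S) ≤ 1 := by
    rw [hsq]
    exact pow_le_one₀ (Real.sqrt_nonneg _) hsg.le
  have e2 : mn E0.F s E (csum E0 (InF ZQ E0.F (Az E0.F z 0)) z v) + ∑ i ∈ Finset.range S,
        mn E0.F s E (csum E0 (fun X => InF ZQ E0.F (Az E0.F z (i + 1)) X ∧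
          ¬ InF ZQ E0.F (Az E0.F z i) X) z v) - (R0 + ∑ i ∈ Finset.range S, Rs i) =
      (mn E0.F s E (csum E0 (InF ZQ E0.F (Az E0.F z 0)) z v) - R0) + ∑ i ∈ Finset.range S,
        (mn E0.F s E (csum E0 (fun X => InF ZQ E0.F (Az E0.F z (i + 1)) X ∧
          ¬ InF ZQ E0.F (Az E0.F z i) X) z v) - Rs i) := by
    rw [Finset.sum_sub_distrib]
    ring
  rw [e2]
  refine (abs_add_le _ _).trans ?_
  have h6 : P * (Real.sqrt (th ^ m0) * Real.sqrt (γ ^ S)) ≤ P * (Real.sqrt (th ^ m0) * 1) :=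
    mul_le_mul_of_nonneg_left (mul_le_mul_of_nonneg_left h5 hs0) hP0
  calc _ ≤ P * (Real.sqrt (th ^ m0) * 1) + P * (Real.sqrt (th ^ m0) * (1 / (1 - Real.sqrt γ))) :=
        add_le_add (h3.trans h6) ((Finset.abs_sum_le_sum_abs _ _).trans h4)
    _ = _ := by ring

/-- all classes around `v` -/
theorem v_part (hD : Dcp D t C th Mj) {K Cv : ℝ} {β c0 : ℤ}
    (hK0 : 0 ≤ K) (hCv : 0 < Cv)
    (hNv : ∀ (F : Finset (ℤ × ℤ)) (v : VZ) (rr : ℕ → ℤ) (j : ℕ), MRad rr β c0 →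
      av F (fun ω => Nv F v rr β c0 K j ω ^ 8) ≤ Cv ^ 8)
    {v z : VZ} {rr : ℕ → ℤ} (hr : MRad rr β c0) (hBx : ∀ j, D.Bx j = E0.F ∩ BR v (rr j))
    (hg : MGeo E0.F v (rr 0) X0 X1 Y0 Y1) (hKap : KapB E0 (E0.F ∩ BR v (rr 0)) K)
    (hz : InR X0 X1 Y0 Y1 z) {d : ℤ} (hd1 : |z.1 - v.1| ≤ d) (hd2 : |z.2 - v.2| ≤ d)
    {A : Finset (ℤ × ℤ)} (hA : d < 256 ∨ E0.F ∩ BR z (d / 16 + 2) ⊆ A) (h m : ℕ) :
    ∃ R : ℝ, ∀ (ι : Type) (s : Finset ι) (E : ι → WEnv) (CW K' : ℝ), MFam D t Mj s E CW K' →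
      |mn E0.F s E (fun ω => ∑ i ∈ Finset.range m, csum E0 (Qv E0.F v rr A (h + 1 + i)) z v ω) - R| ≤
        C * Cv * CW * (th ^ h * (1 / (1 - th))) := by
  have hC := hD.C0
  have hth := hD.th0.le
  have hth1 := hD.th1
  have hcl : ∀ i : ℕ, ∃ R : ℝ, ∀ (ι : Type) (s : Finset ι) (E : ι → WEnv) (CW K' : ℝ),
      MFam D t Mj s E CW K' → |mn E0.F s E (csum E0 (Qv E0.F v rr A (h + 1 + i)) z v) - R| ≤
        C * Cv * CW * th ^ (h + i) := by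
    intro i
    have e1 : h + 1 + i = h + i + 1 := by ring
    refine hD.mean (f0 := Nv E0.F v rr β c0 K (h + 1 + i)) hCv ?_ ?_
      (fun ω => vbound hr hg hK0 hKap hz hd1 hd2 hA (h + 1 + i) ω) (hNv E0.F v rr (h + 1 + i) hr)
    · rw [hBx, ← e1]
      exact csum_dep E0 (fun X hX => hX.1) z v
    · rw [hBx, hBx, ← e1]
      have := Nv_dep E0.F v rr β c0 K (h + 1 + i)
      rwa [show h + 1 + i + 2 = h + i + 3 by ring] at this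
  choose Rs hRs using hcl
  refine ⟨∑ i ∈ Finset.range m, Rs i, fun ι s E CW K' hM => ?_⟩
  have hCW := hM.CW0
  have hP0 : 0 ≤ C * Cv * CW := by positivity
  rw [mn_sum, ← Finset.sum_sub_distrib]
  refine (Finset.abs_sum_le_sum_abs _ _).trans ?_
  calc _ ≤ ∑ i ∈ Finset.range m, C * Cv * CW * (th ^ h * th ^ i) := by
        refine Finset.sum_le_sum fun i _ => (hRs i ι s E CW K' hM).trans (le_of_eq ?_)
        rw [pow_add]
    _ = C * Cv * CW * (th ^ h * ∑ i ∈ Finset.range m, th ^ i) := by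
        rw [← Finset.mul_sum, ← Finset.mul_sum]
    _ ≤ _ := mul_le_mul_of_nonneg_left (mul_le_mul_of_nonneg_left (geo_range hth hth1 m)
        (by positivity)) hP0

/-- the far strands -/
theorem far_part (hD : Dcp D t C th Mj) {C1 : ℝ} {β c0 : ℤ} (hC1 : 0 < C1)
    (hNv : ∀ (F : Finset (ℤ × ℤ)) (v : VZ) (rr : ℕ → ℤ) (j : ℕ), MRad rr β c0 →
      av F (fun ω => Nv F v rr β c0 1 j ω ^ 8) ≤ C1 ^ 8)
    {v z : VZ} {rr : ℕ → ℤ} (hr : MRad rr β c0) (hBx : ∀ j, D.Bx j = E0.F ∩ BR v (rr j))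
    (hg : MGeo E0.F v (rr 0) X0 X1 Y0 Y1) (hz : InR X0 X1 Y0 Y1 z) {l h : ℕ} (hhl : h + 3 ≤ l)
    (hl0 : 0 < rr l) (hz1 : |z.1 - v.1| ≤ rr l) (hz2 : |z.2 - v.2| ≤ rr l)
    {s : Finset ι} {E : ι → WEnv} {CW K' : ℝ} (hM : MFam D t Mj s E CW K') :
    |av E0.F (fT s E (E0.F ∩ BR v (rr h)) z v) / av E0.F (wT s E)| ≤ C * C1 * CW * th ^ (l - 3 - h) := by
  have hC := hD.C0
  have hth := hD.th0
  have hCW := hM.CW0
  have hK := hM.K0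
  have hZ0 : 0 < av E0.F (wT s E) := hM.K0.trans_le hM.KZ
  obtain ⟨H, B, hB, hm⟩ := hM.maj
  obtain ⟨l', rfl⟩ : ∃ l', l = l' + 3 := ⟨l - 3, by omega⟩
  have h1 : |av E0.F (fT s E (E0.F ∩ BR v (rr h)) z v)| ≤
      av E0.F (fun ω => (∑ i ∈ s, H i ω) * (Nv E0.F v rr β c0 1 (l' + 1) ω *
        LH.ic (fun ω => ∀ i, h < i → i ≤ l' → D.cr i ω) ω)) := by
    refine abs_av_le fun T _ => ?_
    have hH0 : 0 ≤ ∑ i ∈ s, H i (ind T) := Finset.sum_nonneg fun i hi =>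
      (abs_nonneg _).trans ((hm i hi).2.1 _)
    have h2 := far_pt (H := ∑ i ∈ s, H i (ind T)) (ω := ind T) hM.hF hr hg hz
      (by omega : h + 2 ≤ l' + 3) hl0 hz1 hz2 (by
        intro e he
        refine Finset.sum_le_sum fun i hi => (hm i hi).2.2 _ e ?_
        rw [hBx]
        exact he)
    rw [abs_of_nonneg hH0] at h2
    refine h2.trans (mul_le_mul_of_nonneg_left (mul_le_mul_of_nonneg_left ?_
      (Nv_nonneg zero_le_one _ _)) hH0)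
    refine ic_mono fun h3 i hi hil => ?_
    have h4 := h3 i hi.le (by omega)
    unfold LData.cr
    rw [hBx, hBx]
    exact h4
  have h2 := hD.sum (s := s) (H := H) (B := B) (j := h) (m0 := l')
    (f0 := Nv E0.F v rr β c0 1 (l' + 1)) (Cf := C1) (by omega) hC1 (Nv_nonneg zero_le_one _)
    (by
      rw [hBx, hBx]
      exact Nv_dep E0.F v rr β c0 1 (l' + 1)) (hNv E0.F v rr (l' + 1) hr) (fun i hi => (hm i hi).1) hB
  rw [abs_div, abs_of_pos hZ0, div_le_iff₀ hZ0]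
  refine h1.trans (h2.trans ?_)
  rw [show l' + 3 - 3 - h = l' - h by omega]
  calc C * C1 * th ^ (l' - h) * (CW * K') = C * C1 * CW * th ^ (l' - h) * K' := by ring
    _ ≤ _ := mul_le_mul_of_nonneg_left hM.KZ (by positivity)

end HG

end

end Pool.Agent.SixB
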