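import Pool.Agent.Lib.SixB.S6LSpl2
import Pool.Agent.Lib.SixB.S6LHgtG

/-!
# 6BD, block CA-L, row L6: heights by scale (chain estimate between levels, the structure `Dcp`)

* `LSys.mj_bd`: `E (H * bd j (s - j) * f0) ≤ C Cf kh eta ^ (s - j) A` for a majorant `H` of product form: the levels
  `j + 1, ..., s` are bad, the others are free, `f0` is a function of the faces of `B (s+1)` off `B (s+3)`.
* `MjD D t H B`: majorants of product form with bound `B`.
* `dcp_of`: the structure `Dcp` of `S6LHgtG` from the moments `Mom`.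
-/

set_option autoImplicit false
set_option linter.unusedSectionVars false

namespace Pool.Agent.SixB

namespace LSys

variable {Ω ι : Type*} {P : ExpSys Ω ι} {S : LSys P} {t T : ℝ} {m : ℕ} {dz eta ka CM : ℝ}

/-- the last good level up to `j` -/
theorem last_good (j s : ℕ) (hjs : j ≤ s) (ω : Ω) :
    S.bd j (s - j) ω = (∑ i ∈ Finset.range (j + 1), gi (S.G i) ω * S.bd i (s - i) ω) +
      S.b0 (s + 1) ω := by
  have e0 : S.bd 0 s ω = ∏ i ∈ Finset.range s, (1 - gi (S.G (i + 1)) ω) := by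
    unfold bd
    refine Finset.prod_congr rfl fun i _ => ?_
    rw [show 0 + 1 + i = i + 1 by ring]
  induction j with
  | zero =>
    rw [Nat.sub_zero, Finset.sum_range_one, Nat.sub_zero]
    have e1 : S.b0 (s + 1) ω = (1 - gi (S.G 0) ω) * S.bd 0 s ω := by
      unfold b0
      rw [Finset.prod_range_succ', e0, mul_comm]
    rw [e1]
    ring
  | succ j ih =>
    rw [Finset.sum_range_succ]
    have h1 := ih (by omega)
    have e1 : s - j = (s - (j + 1)) + 1 := by omega
    rw [e1, bd_succ'] at h1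
    linarith

/-- **chain estimate between levels** -/
theorem mj_bd (hG : S.Good t T m dz eta ka CM) {q : ℕ → Ω → ℕ} (hq : ∀ i, P.Dep (S.B (i + 1))ᶜ (q i))
    (hq0 : ∀ i, ∀ ω ∈ S.G i, S.N 0 ω = q i ω + S.n i ω) {H : Ω → ℝ} {kh A : ℝ} (hM : S.Mj t H kh A)
    {j s : ℕ} (hjs : j ≤ s) {f0 : Ω → ℝ} {Cf : ℝ} (hCf : 0 < Cf) (hf0 : ∀ ω, 0 ≤ f0 ω)
    (hf : P.Dep (S.B (s + 1) \ S.B (s + 3)) f0) (hfm : P.E (fun ω => f0 ω ^ 8) ≤ Cf ^ 8) :
    P.E (fun ω => H ω * (f0 ω * S.bd j (s - j) ω)) ≤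
      (cA T m ka * CM * (2 * T ^ m * CM) / (1 - eta) + 2 * T ^ m * CM) * Cf * kh * eta ^ (s - j) * A := by
  obtain ⟨h, Y, hh0, hh, hY0, hY, hH, hhY, hA⟩ := hM.ex
  have ht := hG.ht
  have ht0 : (0 : ℝ) ≤ t := by linarith
  have hT0 : (0 : ℝ) ≤ T := by linarith [hG.htT]
  have hCM0 : 0 ≤ CM := by linarith [hG.CM1]
  have heta0 := hG.eta0
  have heta1 := hG.eta1
  have h1e : 0 < 1 - eta := by linarith
  have hkh := hM.kh0
  have hcA := cA_ge hG
  have hA0 := hM.A_nonneg ht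
  set X := P.E h * S.F t 0 with hX
  have hX0 : 0 ≤ X := mul_nonneg (P.E_nonneg hh0) (F_nonneg ht 0)
  set H0 : Ω → ℝ := fun ω => h ω * (Y ω * t ^ S.N 0 ω) with hH0
  have hH00 : ∀ ω, 0 ≤ H0 ω := fun ω => mul_nonneg (hh0 ω) (mul_nonneg (hY0 ω) (pow_nonneg ht0 _))
  -- the mean of the majorant
  have hmean : P.E H0 ≤ 2 * kh * T ^ m * CM * X := by
    have h1 := maj_chain hG hkh hh0 hh hY0 hY hhY (f0 := fun _ => 1) (Cf := 1) zero_le_one
      (fun _ => zero_le_one) 0 (ExpSys.Dep.const _ 1) (by simp [P.one])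
    simpa [b0] using h1
  -- no good level
  have hnone : P.E (fun ω => H0 ω * S.b0 (s + 1) ω * f0 ω) ≤
      2 * kh * T ^ m * CM * Cf * eta ^ (s - j) * X := by
    refine (maj_chain hG hkh hh0 hh hY0 hY hhY hCf.le hf0 (s + 1) hf hfm).trans ?_
    refine mul_le_mul_of_nonneg_right (mul_le_mul_of_nonneg_left ?_ (by positivity)) hX0
    exact pow_le_pow_of_le_one heta0.le heta1.le (by omega)
  -- last good level `i`
  have hobs : S.Obs s (fun ω => f0 ω / Cf) (fun ω => f0 ω / Cf) := {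
    dep := (hf.mono fun x hx => hx.1).comp fun x => x / Cf
    dep0 := hf.comp fun x => x / Cf
    le := fun ω => by
      have := hf0 ω
      exact (abs_of_nonneg (by positivity)).le
    mom := by
      have e : (fun ω => (f0 ω / Cf) ^ 8) = fun ω => (1 / Cf ^ 8) * f0 ω ^ 8 := by
        funext ω
        rw [div_pow]
        ring
      rw [e, P.smul, one_div, inv_mul_le_iff₀ (by positivity), mul_one]
      exact hfm }
  have hterm : ∀ i, i ≤ j → P.E (fun ω => H0 ω * (gi (S.G i) ω * S.bd i (s - i) ω) * f0 ω) ≤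
      cA T m ka * CM * eta ^ (s - i) * (2 * kh * T ^ m * CM * X) * Cf := by
    intro i hi
    set hi' : Ω → ℝ := fun ω => h ω * (Y ω * (t ^ q i ω * gi (S.G i) ω)) with hhi
    have hlev : S.Lev i hi' := {
      nn := fun ω => mul_nonneg (hh0 ω) (mul_nonneg (hY0 ω) (mul_nonneg (pow_nonneg ht0 _) gi_nonneg))
      dep := by
        refine (hh.mono ?_).comp2 ((hY.mono ?_).comp2 (((hq i).comp fun n => t ^ n).comp2
          ((dep_gi i).mono fun x hx => hx.2) fun x y : ℝ => x * y) fun x y : ℝ => x * y)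
          fun x y : ℝ => x * y
        · exact Set.compl_subset_compl.2 (box_anti S.hB (by omega))
        · exact Set.compl_subset_compl.2 (box_anti S.hB (by omega))
      zero := fun ω hω => by
        rw [hhi]
        simp only
        rw [gi_notMem hω]
        ring }
    have e1 : ∀ ω, hi' ω * S.V t i ω = H0 ω * gi (S.G i) ω := by
      intro ω
      rw [hhi, hH0]
      simp only
      unfold V
      by_cases hω : ω ∈ S.G i
      · rw [hq0 i ω hω, pow_add]
        ring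
      · rw [gi_notMem hω]
        ring
    have h1 := base_obs hG hobs (hi.trans hjs) hlev
    have h2 : P.E hi' * S.F t (i + 1) ≤ 2 * kh * T ^ m * CM * X := by
      refine (mass_ge ht hlev.nn hlev.dep).trans (le_trans (P.mono _ _ fun ω => ?_) hmean)
      rw [e1]
      exact mul_le_of_le_one_right (hH00 ω) gi_le_one
    have e2 : (fun ω => H0 ω * (gi (S.G i) ω * S.bd i (s - i) ω) * f0 ω) =
        fun ω => Cf * (hi' ω * S.V t i ω * (S.bd i (s - i) ω * (f0 ω / Cf))) := by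
      funext ω
      rw [e1]
      field_simp
    rw [e2, P.smul]
    calc Cf * P.E (fun ω => hi' ω * S.V t i ω * (S.bd i (s - i) ω * (f0 ω / Cf))) ≤
          Cf * (cA T m ka * CM * eta ^ (s - i) * (P.E hi' * S.F t (i + 1))) :=
          mul_le_mul_of_nonneg_left h1 hCf.le
      _ ≤ Cf * (cA T m ka * CM * eta ^ (s - i) * (2 * kh * T ^ m * CM * X)) := by
          refine mul_le_mul_of_nonneg_left (mul_le_mul_of_nonneg_left h2 ?_) hCf.le
          have : 0 ≤ cA T m ka := by linarith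
          positivity
      _ = _ := by ring
  -- the sum
  have e3 : ∀ ω, H0 ω * (f0 ω * S.bd j (s - j) ω) =
      (∑ i ∈ Finset.range (j + 1), H0 ω * (gi (S.G i) ω * S.bd i (s - i) ω) * f0 ω) +
        H0 ω * S.b0 (s + 1) ω * f0 ω := by
    intro ω
    rw [last_good j s hjs ω, ← Finset.sum_mul, ← Finset.mul_sum]
    ring
  have h5 : P.E (fun ω => H ω * (f0 ω * S.bd j (s - j) ω)) ≤
      P.E (fun ω => H0 ω * (f0 ω * S.bd j (s - j) ω)) := P.mono _ _ fun ω =>
    mul_le_mul_of_nonneg_right (hH ω) (mul_nonneg (hf0 ω) (bd_nonneg _ _ _))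
  have h6 : P.E (fun ω => H0 ω * (f0 ω * S.bd j (s - j) ω)) =
      (∑ i ∈ Finset.range (j + 1), P.E (fun ω => H0 ω * (gi (S.G i) ω * S.bd i (s - i) ω) * f0 ω)) +
        P.E (fun ω => H0 ω * S.b0 (s + 1) ω * f0 ω) := by
    rw [← P.E_sum, ← P.add]
    congr 1
    funext ω
    exact e3 ω
  have hgeo : ∑ i ∈ Finset.range (j + 1), eta ^ (s - i) ≤ eta ^ (s - j) / (1 - eta) := by
    have e4 : ∑ i ∈ Finset.range (j + 1), eta ^ (s - i) =
        eta ^ (s - j) * ∑ i ∈ Finset.range (j + 1), eta ^ i := by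
      rw [← Finset.sum_range_reflect (fun i => eta ^ i) (j + 1), Finset.mul_sum]
      refine Finset.sum_congr rfl fun i hi => ?_
      rw [Finset.mem_range] at hi
      rw [← pow_add]
      congr 1
      omega
    rw [e4, div_eq_mul_inv]
    refine mul_le_mul_of_nonneg_left ?_ (by positivity)
    rw [← one_div, le_div_iff₀ h1e, geom_sum_mul_neg]
    have : 0 ≤ eta ^ (j + 1) := by positivity
    linarith
  have h7 : ∑ i ∈ Finset.range (j + 1), P.E (fun ω => H0 ω * (gi (S.G i) ω * S.bd i (s - i) ω) *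
      f0 ω) ≤ cA T m ka * CM * (2 * kh * T ^ m * CM * X) * Cf * (eta ^ (s - j) / (1 - eta)) := by
    have hcA0 : 0 ≤ cA T m ka := by linarith
    calc _ ≤ ∑ i ∈ Finset.range (j + 1), cA T m ka * CM * eta ^ (s - i) *
          (2 * kh * T ^ m * CM * X) * Cf := Finset.sum_le_sum fun i hi => hterm i (by
            rw [Finset.mem_range] at hi
            omega)
      _ = cA T m ka * CM * (2 * kh * T ^ m * CM * X) * Cf *
          ∑ i ∈ Finset.range (j + 1), eta ^ (s - i) := by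
          rw [Finset.mul_sum]
          refine Finset.sum_congr rfl fun i _ => ?_
          ring
      _ ≤ _ := mul_le_mul_of_nonneg_left hgeo (by positivity)
  rw [h6] at h5
  have hcA0 : 0 ≤ cA T m ka := by linarith
  calc _ ≤ cA T m ka * CM * (2 * kh * T ^ m * CM * X) * Cf * (eta ^ (s - j) / (1 - eta)) +
        2 * kh * T ^ m * CM * Cf * eta ^ (s - j) * X := h5.trans (add_le_add h7 hnone)
    _ = (cA T m ka * CM * (2 * T ^ m * CM) / (1 - eta) + 2 * T ^ m * CM) * Cf * kh *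
        eta ^ (s - j) * X := by
        field_simp
    _ ≤ _ := mul_le_mul_of_nonneg_left hA (by positivity)

end LSys

open Pool.Agent.Perc Pool.Agent.Perc.Q Relation Pool.Agent.SixB.Tilt PercD PercN

noncomputable section

namespace HG

/-- majorants of product form with bound `B` -/
def MjD {E0 : WEnv} {ov : Sym2 DZ → Prop} (D : LData ZQ E0.F ov) (t : ℝ) (H : Cfg → ℝ) (B : ℝ) : Prop :=
  ∃ kh A : ℝ, (D.sys 1 1 le_rfl).Mj t H kh A ∧ kh * A ≤ B

theorem MjD.mono {E0 : WEnv} {ov : Sym2 DZ → Prop} {D : LData ZQ E0.F ov} {t : ℝ} {H : Cfg → ℝ}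
    {B B' : ℝ} (h : MjD D t H B) (hB : B ≤ B') : MjD D t H B' := by
  obtain ⟨kh, A, h1, h2⟩ := h
  exact ⟨kh, A, h1, h2.trans hB⟩

theorem MjD.of {E0 : WEnv} {ov : Sym2 DZ → Prop} {D : LData ZQ E0.F ov} {t T ka : ℝ} {hT : 1 ≤ T}
    {H : Cfg → ℝ} {kh A B : ℝ} (h : (D.sys T ka hT).Mj t H kh A) (hB : kh * A ≤ B) : MjD D t H B :=
  ⟨kh, A, (D.mj_iff hT le_rfl).mp h, hB⟩

theorem mom_mono {Q : QC VZ (ℤ × ℤ)} {F : Finset (ℤ × ℤ)} {ov : Sym2 DZ → Prop} {D : LData Q F ov}
    {T CY p p' CM : ℝ} (h : D.Mom T CY p CM) (hp : p ≤ p') : D.Mom T CY p' CM :=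
  ⟨h.hY, fun j => (h.hp j).trans hp, h.hM⟩

/-- crossed levels are bad -/
theorem cr_le_bd {E0 : WEnv} {ov : Sym2 DZ → Prop} (D : LData ZQ E0.F ov) {T ka : ℝ} (hT : 1 ≤ T)
    (j s : ℕ) (ω : Cfg) : LH.ic (fun ω => ∀ i, j < i → i ≤ s → D.cr i ω) ω ≤
      (D.sys T ka hT).bd j (s - j) ω := by
  unfold LH.ic
  split_ifs with h
  · have e : (D.sys T ka hT).bd j (s - j) ω = 1 := by
      unfold LSys.bd
      refine Finset.prod_eq_one fun i hi => ?_
      rw [Finset.mem_range] at hi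
      rw [gi_notMem, sub_zero]
      intro h1
      exact h1.1 (h (j + 1 + i) (by omega) (by omega))
    rw [e]
  · exact LSys.bd_nonneg _ _ _

/-- **the structure `Dcp`** -/
theorem dcp_of (T eta CY : ℝ) (hT : 1 ≤ T) (h0 : 0 < eta) (h1 : eta ≤ 1 / 2) (hCY : 0 ≤ CY) :
    ∃ p0 : ℝ, 0 < p0 ∧ ∀ CM : ℝ, 1 ≤ CM → ∃ C th : ℝ, 0 < th ∧ th < 1 ∧
      ∀ {E0 : WEnv} {ov : Sym2 DZ → Prop} (D : LData ZQ E0.F ov) {t : ℝ}, 1 ≤ t → t ≤ T →
        D.Mom T CY p0 CM → Dcp D t C th (MjD D t) := by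
  obtain ⟨pa, hpa, ha⟩ := decouple_maj T eta CY hT h0 h1 hCY
  obtain ⟨pb, hpb, hb⟩ := exists_good T eta CY hT h0 h1 hCY
  refine ⟨min pa pb, lt_min hpa hpb, fun CM hCM => ?_⟩
  obtain ⟨C, th, ka, hC, hth, hth1, -, hd⟩ := ha CM hCM
  obtain ⟨m, ka', hka', hg⟩ := hb CM hCM
  have h1e : 0 < 1 - eta := by linarith
  have hT0 : 0 ≤ T := by linarith
  have hCM0 : 0 ≤ CM := by linarith
  set K := LSys.cA T m ka' * CM * (2 * T ^ m * CM) / (1 - eta) + 2 * T ^ m * CM with hK
  have hK0 : 0 ≤ K := by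
    have : 0 ≤ LSys.cA T m ka' := by
      unfold LSys.cA
      positivity
    positivity
  refine ⟨C + K, th, by linarith, hth1, ?_⟩
  intro E0 ov D t ht htT hmom
  have hth0 : 0 < th := by linarith
  obtain ⟨hd1, -⟩ := hd D ht htT (mom_mono hmom (min_le_left _ _))
  obtain ⟨hgood, -⟩ := hg D ht htT (mom_mono hmom (min_le_right _ _))
  constructor
  · positivity
  · exact hth0
  · exact hth1
  · intro m0 f f0 Cf hCf hf hf0 hle hf8
    obtain ⟨c, -, hc⟩ := hd1 hCf hf hf0 hle hf8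
    refine ⟨c, fun W H B hL hW hH => ?_⟩
    obtain ⟨kh, A, hM, hB⟩ := hH
    have hM' := (D.mj_iff (ka' := ka) le_rfl hT).mp hM
    have hkh := hM.kh0
    have hA := hM.A_nonneg ht
    refine (hc hL hW hM').trans ?_
    calc C * Cf * kh * th ^ m0 * A = C * (Cf * th ^ m0) * (kh * A) := by ring
      _ ≤ (C + K) * (Cf * th ^ m0) * (kh * A) := by
          refine mul_le_mul_of_nonneg_right (mul_le_mul_of_nonneg_right ?_ (by positivity))
            (by positivity)
          linarith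
      _ ≤ (C + K) * (Cf * th ^ m0) * B := mul_le_mul_of_nonneg_left hB (by positivity)
      _ = _ := by ring
  · intro j s f0 Cf hjs hCf hf0 hf hf8 H B hH
    obtain ⟨kh, A, hM, hB⟩ := hH
    have hM' := (D.mj_iff (ka' := ka') le_rfl hT).mp hM
    have hkh := hM.kh0
    have hA := hM.A_nonneg ht
    have h2 := LSys.mj_bd hgood (q := D.q) (fun i => D.q_dep i) (fun i ω hω => D.N0_split_G i hω) hM'
      hjs hCf hf0 hf hf8
    have h3 : av E0.F (fun ω => H ω * (f0 ω *
        LH.ic (fun ω => ∀ i, j < i → i ≤ s → D.cr i ω) ω)) ≤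
        av E0.F (fun ω => H ω * (f0 ω * (D.sys T ka' hT).bd j (s - j) ω)) := av_mono fun U _ =>
      mul_le_mul_of_nonneg_left (mul_le_mul_of_nonneg_left (cr_le_bd D hT j s _) (hf0 _)) (hM.nn _)
    refine h3.trans (h2.trans ?_)
    have h4 : eta ^ (s - j) ≤ th ^ (s - j) := pow_le_pow_left₀ h0.le hth.le _
    calc _ = K * (Cf * eta ^ (s - j)) * (kh * A) := by ring
      _ ≤ K * (Cf * th ^ (s - j)) * (kh * A) := by
          refine mul_le_mul_of_nonneg_right (mul_le_mul_of_nonneg_left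
            (mul_le_mul_of_nonneg_left h4 hCf.le) hK0) (by positivity)
      _ ≤ (C + K) * (Cf * th ^ (s - j)) * (kh * A) := by
          refine mul_le_mul_of_nonneg_right (mul_le_mul_of_nonneg_right ?_ (by positivity))
            (by positivity)
          linarith
      _ ≤ (C + K) * (Cf * th ^ (s - j)) * B := mul_le_mul_of_nonneg_left hB (by positivity)
      _ = _ := by ring

end HG

end

end Pool.Agent.SixB
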