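import Pool.Agent.Lib.SixB.S6LHgtH
import Pool.Agent.Lib.SixB.S6LHgtM

/-!
# 6BD, block CA-L, row L6: heights by scale, part 9 (THEOREM at a mark)

`mark_ref`: near a flat mark with local weight `t ≥ 1` the mean height difference `u z - u v` of every family with the local
law of `E0` is, up to `C * CW * κ ^ l` for `|z - v| ≤ rr l`, a number which depends only on the local law. All vertices
`z` (boundary and lattice scale included).
`mark_cmp`: comparison of two families.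
-/

set_option autoImplicit false
set_option linter.unusedSectionVars false

namespace Pool.Agent.SixB

open Pool.Agent.Perc Pool.Agent.Perc.Q Relation Pool.Agent.SixB.Tilt PercD PercN

noncomputable section

namespace HG

variable {F A B I J M G : Finset (ℤ × ℤ)} {ω ω' : Cfg} {a b c e : DZ} {X : Finset DZ}
  {X0 X1 Y0 Y1 : ℤ} {ι : Type}
  {E0 : WEnv} {ov : Sym2 DZ → Prop} {D : LData ZQ E0.F ov} {t C th : ℝ}
  {Mj : (Cfg → ℝ) → ℝ → Prop}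

theorem sqrt_pow' {x : ℝ} (hx : 0 ≤ x) (n : ℕ) : Real.sqrt (x ^ n) = Real.sqrt x ^ n := by
  induction n with
  | zero => simp
  | succ n ih => rw [pow_succ, Real.sqrt_mul (by positivity), ih, pow_succ]

/-- the depth of a point at distance `d` -/
theorem exists_depth {rr : ℕ → ℤ} {β c0 : ℤ} (hr : MRad rr β c0) {d : ℤ} (hd : 0 < d) {l : ℕ}
    (hl2 : 2 ≤ l) (hl : d ≤ rr l) :
    ∃ m0, l ≤ m0 + 2 ∧ 5 * d ≤ 4 * rr (m0 + 1) ∧ 4 * rr (m0 + 3) ≤ 3 * d := by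
  obtain ⟨q, hq, hq1, hq2⟩ := hr.exists_small hd l hl
  by_cases h : 4 * rr (q + 1) ≤ 3 * d
  · obtain ⟨m0, rfl⟩ : ∃ m0, q = m0 + 2 := ⟨q - 2, by omega⟩
    have h1 : 8 * rr (m0 + 2) ≤ rr (m0 + 1) := hr.lo8 (m0 + 1)
    exact ⟨m0, by omega, by omega, h⟩
  · obtain ⟨m0, rfl⟩ : ∃ m0, q = m0 + 1 := ⟨q - 1, by omega⟩
    have h1 : 8 * rr (m0 + 3) ≤ rr (m0 + 2) := hr.lo8 (m0 + 2)
    have h2 : 8 * rr (m0 + 2) ≤ rr (m0 + 1) := hr.lo8 (m0 + 1)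
    have e : rr (m0 + 1 + 1) = rr (m0 + 2) := rfl
    exact ⟨m0, by omega, by omega, by omega⟩

theorem exists_S {d : ℤ} (hd : 256 ≤ d) : ∃ S : ℕ, 128 * 2 ^ S ≤ d ∧ d < 256 * 2 ^ S := by
  obtain ⟨n, rfl⟩ : ∃ n : ℕ, d = n := ⟨d.toNat, by omega⟩
  have h0 : n / 128 ≠ 0 := by omega
  refine ⟨Nat.log 2 (n / 128), ?_, ?_⟩
  · have h1 := Nat.pow_log_le_self 2 h0
    have h2 : 128 * 2 ^ Nat.log 2 (n / 128) ≤ n := by omega
    exact_mod_cast h2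
  · have h1 := Nat.lt_pow_succ_log_self (b := 2) (by norm_num) (n / 128)
    rw [Nat.succ_eq_add_one, pow_succ] at h1
    have h2 : n < 256 * 2 ^ Nat.log 2 (n / 128) := by omega
    exact_mod_cast h2

/-- the theorem at a mark, with explicit constants -/
theorem mark_core (hD : Dcp D t C th Mj) {C2 γ : ℝ} (hC2 : 0 < C2) (hγ : 0 < γ) (hγ1 : γ < 1)
    (hleg : ∀ (F : Finset (ℤ × ℤ)) (v : VZ) (r R : ℤ) (k : ℕ), 1 ≤ r → 2 ^ k * r ≤ R →
      av F (LH.ic fun ω => ¬ NoLeg ZQ ω F (F ∩ BR v r) (F ∩ BR v R)) ≤ (C2 * γ ^ k) ^ 16)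
    {K Cz Cv C1 : ℝ} {β c0 : ℤ} (hK0 : 0 ≤ K) (hCz : 0 < Cz) (hCzK : K * 8450 ≤ Cz)
    (hlg : ∀ (F : Finset (ℤ × ℤ)) (z : VZ) (s : ℕ),
      av F (fun ω => (K * lgN (Az F z (s + 1)) (4 * 2 ^ s) ω) ^ 16) ≤ Cz ^ 16)
    (hCv : 0 < Cv) (hNv : ∀ (F : Finset (ℤ × ℤ)) (v : VZ) (rr : ℕ → ℤ) (j : ℕ), MRad rr β c0 →
      av F (fun ω => Nv F v rr β c0 K j ω ^ 8) ≤ Cv ^ 8)
    (hC1 : 0 < C1) (hN1 : ∀ (F : Finset (ℤ × ℤ)) (v : VZ) (rr : ℕ → ℤ) (j : ℕ), MRad rr β c0 →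
      av F (fun ω => Nv F v rr β c0 1 j ω ^ 8) ≤ C1 ^ 8)
    {v z : VZ} {rr : ℕ → ℤ} (hr : MRad rr β c0) (hBx : ∀ j, D.Bx j = E0.F ∩ BR v (rr j))
    (hg : MGeo E0.F v (rr 0) X0 X1 Y0 Y1) (hKap : KapB E0 (E0.F ∩ BR v (rr 0)) K)
    (hpos : Pos E0 (E0.F ∩ BR v (rr 0))) (hn : NatZ E0 v (rr 0) X0 X1 Y0 Y1)
    (hz : InR X0 X1 Y0 Y1 z) {l : ℕ} (hl : 5 ≤ l) (hz1 : |z.1 - v.1| ≤ rr l)
    (hz2 : |z.2 - v.2| ≤ rr l) :
    ∃ R : ℝ, ∀ (ι : Type) (s : Finset ι) (E : ι → WEnv) (CW A : ℝ), MFam D t Mj s E CW A →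
      |uF s E E0.F z v - R| ≤ ((C * Cz + 2 * C * Cz * C2) * (1 + 1 / (1 - Real.sqrt γ)) +
        C * Cv * (1 / (1 - th)) + C * C1) * CW * Real.sqrt th ^ (l - 6) := by
  have hC := hD.C0
  have hth := hD.th0
  have hth1 := hD.th1
  have hs1 : Real.sqrt th ≤ 1 := Real.sqrt_le_one.mpr hth1.le
  have hs0 : 0 ≤ Real.sqrt th := Real.sqrt_nonneg _
  have hsq : Real.sqrt th ^ 2 = th := Real.sq_sqrt hth.le
  have hγs : 0 < 1 - Real.sqrt γ := by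
    have : Real.sqrt γ < 1 := by
      rw [← Real.sqrt_one]
      exact Real.sqrt_lt_sqrt hγ.le hγ1
    linarith
  have h1th : 0 < 1 - th := by linarith
  -- the point `v`
  by_cases hzv : z = v
  · refine ⟨0, fun ι s E CW A hM => ?_⟩
    have hCW := hM.CW0
    have e : uF s E E0.F z v = 0 := by
      unfold uF
      have e1 : hT s E z v = fun _ => 0 := by
        funext ω
        unfold hT
        rw [hzv]
        exact Finset.sum_eq_zero fun i _ => sub_self _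
      rw [e1, av_const, zero_div]
    rw [e, sub_zero, abs_zero]
    positivity
  set d : ℤ := max |z.1 - v.1| |z.2 - v.2| with hdd
  have hd1 : |z.1 - v.1| ≤ d := le_max_left _ _
  have hd2 : |z.2 - v.2| ≤ d := le_max_right _ _
  have hdl : d ≤ rr l := max_le hz1 hz2
  have hd : d = |z.1 - v.1| ∨ d = |z.2 - v.2| := by
    rcases max_choice |z.1 - v.1| |z.2 - v.2| with h | h
    · exact Or.inl h
    · exact Or.inr h
  have hd0 : 0 < d := by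
    by_contra h0
    apply hzv
    have h1 := abs_nonneg (z.1 - v.1)
    have h2 := abs_nonneg (z.2 - v.2)
    have h3 : |z.1 - v.1| = 0 := by omega
    have h4 : |z.2 - v.2| = 0 := by omega
    rw [abs_eq_zero] at h3 h4
    exact Prod.ext (by linarith) (by linarith)
  obtain ⟨m0, hm0, h5d, h3d⟩ := exists_depth hr hd0 (by omega) hdl
  have h00 : rr (m0 + 1) ≤ rr 0 := hr.anti (Nat.zero_le _)
  obtain ⟨h, hh⟩ : ∃ h, l / 2 = h + 1 := ⟨l / 2 - 1, by omega⟩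
  have hBsub : ∀ {i j : ℕ}, i ≤ j → E0.F ∩ BR v (rr j) ⊆ E0.F ∩ BR v (rr i) := fun hij =>
    Finset.inter_subset_inter le_rfl (Sub.refl' (hr.anti hij)).subset
  -- the set around `z`
  obtain ⟨A, hA1, hA2, Rz, hRz⟩ : ∃ A : Finset (ℤ × ℤ), (d < 256 ∨ E0.F ∩ BR z (d / 16 + 2) ⊆ A) ∧
      A ⊆ E0.F ∩ BR v (rr (h + 1)) ∧ ∃ Rz : ℝ, ∀ (ι : Type) (s : Finset ι) (E : ι → WEnv) (CW A' : ℝ),
        MFam D t Mj s E CW A' → |mn E0.F s E (csum E0 (InF ZQ E0.F A) z v) - Rz| ≤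
          (C * Cz + 2 * C * Cz * C2) * CW * (Real.sqrt (th ^ m0) * (1 + 1 / (1 - Real.sqrt γ))) := by
    rcases lt_or_ge d 256 with h256 | h256
    · refine ⟨∅, Or.inl h256, Finset.empty_subset _, 0, fun ι s E CW A' hM => ?_⟩
      have hCW := hM.CW0
      have e : mn E0.F s E (csum E0 (InF ZQ E0.F ∅) z v) = 0 := by
        unfold mn
        have e1 : (fun ω => wT s E ω * csum E0 (InF ZQ E0.F ∅) z v ω) = fun _ => 0 := by
          funext ω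
          rw [csum_empty E0 (fun X hX => hX), mul_zero]
        rw [e1, av_const, zero_div]
      rw [e, sub_zero, abs_zero]
      positivity
    · obtain ⟨S, hS1, hS2⟩ := exists_S h256
      have h2S : (1 : ℤ) ≤ 2 ^ S := one_le_pow₀ (by norm_num)
      obtain ⟨R, hR⟩ := z_part hD hC2 hγ hγ1 hleg hK0 hCz hCzK hlg hBx hg hKap hn hz hd1 hd2 hd h5d
        h3d h00 hS1
      refine ⟨Az E0.F z S, Or.inr ?_, ?_, R, hR⟩
      · unfold Az
        refine Finset.inter_subset_inter le_rfl (Sub.refl' ?_).subset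
        omega
      · refine (box_ring (E0 := E0) hd1 hd2 hd (ρ := 32 * 2 ^ S) (r2 := rr (m0 + 3)) (by omega)
          (r0 := rr (m0 + 1)) h5d h3d).1.trans ?_
        exact hBsub (by omega)
  obtain ⟨Rv, hRv⟩ := v_part hD hK0 hCv hNv hr hBx hg hKap hz hd1 hd2 hA1 h D.J
  refine ⟨Rz + Rv, fun ι s E CW A' hM => ?_⟩
  have hCW := hM.CW0
  have hZ0 : 0 < av E0.F (wT s E) := hM.K0.trans_le hM.KZ
  have hsub0 : E0.F ∩ BR v (rr (h + 1)) ⊆ E0.F ∩ BR v (rr 0) := hBsub (Nat.zero_le _)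
  have hagr : ∀ i ∈ s, Agr E0 (E i) (E0.F ∩ BR v (rr (h + 1))) := fun i hi =>
    (hM.agr i hi).mono (by rw [hBx]; exact hsub0)
  -- splitting
  have e1 : uF s E E0.F z v = mn E0.F s E (csum E0 (InF ZQ E0.F (E0.F ∩ BR v (rr (h + 1)))) z v) +
      av E0.F (fT s E (E0.F ∩ BR v (rr (h + 1))) z v) / av E0.F (wT s E) := by
    unfold uF mn
    rw [← add_div, ← av_add]
    congr 2
    funext ω
    rw [hT_split hM.hF hagr (fun a ha b hb k1 k2 => hpos a ha b hb (k1.mono hsub0) (k2.mono hsub0))]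
    ring
  have e2 : csum E0 (InF ZQ E0.F (E0.F ∩ BR v (rr (h + 1)))) z v = fun ω =>
      csum E0 (InF ZQ E0.F A) z v ω +
        ∑ i ∈ Finset.range D.J, csum E0 (Qv E0.F v rr A (h + 1 + i)) z v ω := by
    funext ω
    have h1 := csum_tele E0 (Bs := fun j => E0.F ∩ BR v (rr j)) (A := A)
      (fun j => hBsub (Nat.le_succ j)) (h + 1) D.J hA2 z v ω
    rw [h1, csum_empty E0 (P := fun X => InF ZQ E0.F (E0.F ∩ BR v (rr (h + 1 + D.J))) X ∧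
      ¬ InF ZQ E0.F A X) (fun X hX => by
        have h2 := hX.1
        rw [← hBx, D.hJ (h + 1 + D.J) (by omega)] at h2
        exact h2), add_zero]
    rfl
  have e3 : mn E0.F s E (csum E0 (InF ZQ E0.F (E0.F ∩ BR v (rr (h + 1)))) z v) =
      mn E0.F s E (csum E0 (InF ZQ E0.F A) z v) + mn E0.F s E (fun ω =>
        ∑ i ∈ Finset.range D.J, csum E0 (Qv E0.F v rr A (h + 1 + i)) z v ω) := by
    rw [e2]
    exact mn_add _ _
  have hf := far_part hD hC1 hN1 hr hBx hg hz (l := l) (h := h + 1) (by omega) (by omega) hz1 hz2 hM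
  have h1 := hRz ι s E CW A' hM
  have h2 := hRv ι s E CW A' hM
  have e4 : uF s E E0.F z v - (Rz + Rv) = (mn E0.F s E (csum E0 (InF ZQ E0.F A) z v) - Rz) +
      (mn E0.F s E (fun ω => ∑ i ∈ Finset.range D.J, csum E0 (Qv E0.F v rr A (h + 1 + i)) z v ω) -
        Rv) + av E0.F (fT s E (E0.F ∩ BR v (rr (h + 1))) z v) / av E0.F (wT s E) := by
    rw [e1, e3]
    ring
  -- exponents
  have p1 : Real.sqrt (th ^ m0) ≤ Real.sqrt th ^ (l - 6) := by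
    rw [sqrt_pow' hth.le]
    exact pow_le_pow_of_le_one hs0 hs1 (by omega)
  have p2 : th ^ h ≤ Real.sqrt th ^ (l - 6) := by
    rw [← hsq, ← pow_mul, hsq]
    exact pow_le_pow_of_le_one hs0 hs1 (by omega)
  have p3 : th ^ (l - 3 - (h + 1)) ≤ Real.sqrt th ^ (l - 6) := by
    rw [← hsq, ← pow_mul, hsq]
    exact pow_le_pow_of_le_one hs0 hs1 (by omega)
  have q1 : (C * Cz + 2 * C * Cz * C2) * CW * (Real.sqrt (th ^ m0) * (1 + 1 / (1 - Real.sqrt γ))) ≤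
      (C * Cz + 2 * C * Cz * C2) * (1 + 1 / (1 - Real.sqrt γ)) * CW * Real.sqrt th ^ (l - 6) := by
    have : 0 ≤ (C * Cz + 2 * C * Cz * C2) * (1 + 1 / (1 - Real.sqrt γ)) * CW := by positivity
    calc _ = (C * Cz + 2 * C * Cz * C2) * (1 + 1 / (1 - Real.sqrt γ)) * CW * Real.sqrt (th ^ m0) := by
          ring
      _ ≤ _ := mul_le_mul_of_nonneg_left p1 this
  have q2 : C * Cv * CW * (th ^ h * (1 / (1 - th))) ≤
      C * Cv * (1 / (1 - th)) * CW * Real.sqrt th ^ (l - 6) := by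
    have : 0 ≤ C * Cv * (1 / (1 - th)) * CW := by positivity
    calc _ = C * Cv * (1 / (1 - th)) * CW * th ^ h := by ring
      _ ≤ _ := mul_le_mul_of_nonneg_left p2 this
  have q3 : C * C1 * CW * th ^ (l - 3 - (h + 1)) ≤ C * C1 * CW * Real.sqrt th ^ (l - 6) :=
    mul_le_mul_of_nonneg_left p3 (by positivity)
  rw [e4]
  refine (abs_add_le _ _).trans ((add_le_add (abs_add_le _ _) le_rfl).trans ?_)
  calc _ ≤ (C * Cz + 2 * C * Cz * C2) * (1 + 1 / (1 - Real.sqrt γ)) * CW * Real.sqrt th ^ (l - 6) +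
        C * Cv * (1 / (1 - th)) * CW * Real.sqrt th ^ (l - 6) +
        C * C1 * CW * Real.sqrt th ^ (l - 6) :=
        add_le_add (add_le_add (h1.trans q1) (h2.trans q2)) (hf.trans q3)
    _ = _ := by ring

/-- **THEOREM at a mark**: heights relative to the mark are local -/
theorem mark_ref (T eta CY : ℝ) (hT : 1 ≤ T) (h0 : 0 < eta) (h1 : eta ≤ 1 / 2) (hCY : 0 ≤ CY) :
    ∃ p0 : ℝ, 0 < p0 ∧ ∀ (CM K : ℝ) (β c0 : ℤ), 1 ≤ CM → 0 ≤ K → ∃ C κ : ℝ, 0 < C ∧ 0 < κ ∧ κ < 1 ∧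
      ∀ {E0 : WEnv} {ov : Sym2 DZ → Prop} (D : LData ZQ E0.F ov) {t : ℝ} {v : VZ} {rr : ℕ → ℤ}
        {X0 X1 Y0 Y1 : ℤ}, 1 ≤ t → t ≤ T → D.Mom T CY p0 CM → MRad rr β c0 →
        (∀ j, D.Bx j = E0.F ∩ BR v (rr j)) → MGeo E0.F v (rr 0) X0 X1 Y0 Y1 →
        KapB E0 (E0.F ∩ BR v (rr 0)) K → Pos E0 (E0.F ∩ BR v (rr 0)) →
        NatZ E0 v (rr 0) X0 X1 Y0 Y1 → ∀ (z : VZ) (l : ℕ), InR X0 X1 Y0 Y1 z → 5 ≤ l →
        |z.1 - v.1| ≤ rr l → |z.2 - v.2| ≤ rr l →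
        ∃ R : ℝ, ∀ (ι : Type) (s : Finset ι) (E : ι → WEnv) (CW A : ℝ), MFam D t (MjD D t) s E CW A →
          |uF s E E0.F z v - R| ≤ C * CW * κ ^ l := by
  obtain ⟨p0, hp0, hd⟩ := dcp_of T eta CY hT h0 h1 hCY
  refine ⟨p0, hp0, fun CM K β c0 hCM hK0 => ?_⟩
  obtain ⟨C, th, hth0, hth1, hd⟩ := hd CM hCM
  obtain ⟨C2, γ, hC2, hγ0, hγ1, hleg⟩ := leg16
  obtain ⟨Cz', hCz', hlg⟩ := lgz_pow16 K hK0
  obtain ⟨Cv, hCv, hNv⟩ := Nv_pow8 β c0 K hK0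
  obtain ⟨C1, hC1, hN1⟩ := Nv_pow8 β c0 1 zero_le_one
  set Cz := Cz' + K * 8450 with hCz
  have hCz0 : 0 < Cz := by positivity
  set C0 := (|C| * Cz + 2 * |C| * Cz * C2) * (1 + 1 / (1 - Real.sqrt γ)) +
    |C| * Cv * (1 / (1 - th)) + |C| * C1 with hC0
  have hγs : 0 < 1 - Real.sqrt γ := by
    have : Real.sqrt γ < 1 := by
      rw [← Real.sqrt_one]
      exact Real.sqrt_lt_sqrt hγ0.le hγ1
    linarith
  have h1th : 0 < 1 - th := by linarith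
  have hC00 : 0 ≤ C0 := by
    have := abs_nonneg C
    positivity
  have hs0 : 0 < Real.sqrt th := Real.sqrt_pos.mpr hth0
  have hs1 : Real.sqrt th < 1 := by
    rw [← Real.sqrt_one]
    exact Real.sqrt_lt_sqrt hth0.le hth1
  refine ⟨(C0 + 1) / Real.sqrt th ^ 6, Real.sqrt th, by positivity, hs0, hs1, ?_⟩
  intro E0 ov D t v rr X0 X1 Y0 Y1 ht htT hmom hr hBx hg hKap hpos hn z l hz hl hz1 hz2
  have hD := hd D ht htT hmom
  have hCabs : |C| = C := abs_of_nonneg hD.C0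
  obtain ⟨R, hR⟩ := mark_core (Cz := Cz) hD (by linarith) hγ0 hγ1 hleg hK0 hCz0 (by linarith)
    (fun F z s => (hlg F z s).trans (pow_le_pow_left₀ hCz'.le (by
      have : 0 ≤ K * 8450 := by positivity
      linarith) 16)) hCv hNv hC1 hN1 hr hBx hg hKap hpos hn hz hl hz1 hz2
  refine ⟨R, fun ι s E CW A hM => (hR ι s E CW A hM).trans ?_⟩
  have hCW := hM.CW0
  have h2 : Real.sqrt th ^ (l - 6) ≤ Real.sqrt th ^ l / Real.sqrt th ^ 6 := by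
    rw [le_div_iff₀ (by positivity), ← pow_add]
    exact pow_le_pow_of_le_one hs0.le hs1.le (by omega)
  have h3 : (C * Cz + 2 * C * Cz * C2) * (1 + 1 / (1 - Real.sqrt γ)) +
      C * Cv * (1 / (1 - th)) + C * C1 = C0 := by
    rw [hC0, hCabs]
  rw [h3]
  calc C0 * CW * Real.sqrt th ^ (l - 6) ≤ (C0 + 1) * CW * (Real.sqrt th ^ l / Real.sqrt th ^ 6) :=
        mul_le_mul (mul_le_mul_of_nonneg_right (by linarith) hCW) h2 (by positivity) (by positivity)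
    _ = _ := by ring

/-- **comparison of two families with the same local law at a mark** -/
theorem mark_cmp (T eta CY : ℝ) (hT : 1 ≤ T) (h0 : 0 < eta) (h1 : eta ≤ 1 / 2) (hCY : 0 ≤ CY) :
    ∃ p0 : ℝ, 0 < p0 ∧ ∀ (CM K : ℝ) (β c0 : ℤ), 1 ≤ CM → 0 ≤ K → ∃ C κ : ℝ, 0 < C ∧ 0 < κ ∧ κ < 1 ∧
      ∀ {E0 : WEnv} {ov : Sym2 DZ → Prop} (D : LData ZQ E0.F ov) {t : ℝ} {v : VZ} {rr : ℕ → ℤ}
        {X0 X1 Y0 Y1 : ℤ}, 1 ≤ t → t ≤ T → D.Mom T CY p0 CM → MRad rr β c0 →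
        (∀ j, D.Bx j = E0.F ∩ BR v (rr j)) → MGeo E0.F v (rr 0) X0 X1 Y0 Y1 →
        KapB E0 (E0.F ∩ BR v (rr 0)) K → Pos E0 (E0.F ∩ BR v (rr 0)) →
        NatZ E0 v (rr 0) X0 X1 Y0 Y1 → ∀ {ι ι' : Type} {s : Finset ι} {E : ι → WEnv} {s' : Finset ι'}
        {E' : ι' → WEnv} {CW A CW' A' : ℝ}, MFam D t (MjD D t) s E CW A →
        MFam D t (MjD D t) s' E' CW' A' → ∀ (z : VZ) (l : ℕ), InR X0 X1 Y0 Y1 z → 5 ≤ l →
        |z.1 - v.1| ≤ rr l → |z.2 - v.2| ≤ rr l →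
        |uF s E E0.F z v - uF s' E' E0.F z v| ≤ C * (CW + CW') * κ ^ l := by
  obtain ⟨p0, hp0, h⟩ := mark_ref T eta CY hT h0 h1 hCY
  refine ⟨p0, hp0, fun CM K β c0 hCM hK0 => ?_⟩
  obtain ⟨C, κ, hC, hκ0, hκ1, h⟩ := h CM K β c0 hCM hK0
  refine ⟨C, κ, hC, hκ0, hκ1, ?_⟩
  intro E0 ov D t v rr X0 X1 Y0 Y1 ht htT hmom hr hBx hg hKap hpos hn ι ι' s E s' E' CW A CW' A' hM
    hM' z l hz hl hz1 hz2
  obtain ⟨R, hR⟩ := h D ht htT hmom hr hBx hg hKap hpos hn z l hz hl hz1 hz2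
  have h2 := hR ι s E CW A hM
  have h3 := hR ι' s' E' CW' A' hM'
  have e : uF s E E0.F z v - uF s' E' E0.F z v =
      (uF s E E0.F z v - R) - (uF s' E' E0.F z v - R) := by ring
  rw [e]
  refine (abs_sub _ _).trans ((add_le_add h2 h3).trans (le_of_eq ?_))
  ring

end HG

end

end Pool.Agent.SixB
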