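import Pool.Agent.Lib.SixB.S6LBr
import Pool.Agent.Lib.SixB.S6LSys
import Pool.Agent.Lib.SixB.CADomMark
import Pool.Agent.Lib.SixB.CADomUpP
import Pool.Agent.Lib.SixB.S6GMean

/-!
# 6BD, block CA-L: the data of the decoupling theorem at a flat mark

`F` is flat near `v` up to the radius `R`, `r₀ < R`, `b ≥ 2`. Boxes `Bx j = F ∩ BR v (r₀ / b ^ j)`.
* `ldat`: the structure `LData ZQ F (ovr w R)` of `S6LSys`, `w i = fr κ v i 0`;
* `ldat_mom`: `Mom T CY p0 CM` for all large `b`; `CY` depends on `T` only, `CM` on `T` and `b`;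
* `yc_moment`, `mc_moment`, `cr_moment`: the three bounds.
-/

set_option autoImplicit false
set_option linter.unusedVariables false

namespace Pool.Agent.SixB.LI

open Pool.Agent.Perc Pool.Agent.Perc.Q Pool.Agent.PercD Pool.Agent.PercN Pool.Agent.Perc6 Relation
  Pool.Agent.SixB.Tilt
open Finset DomMk

noncomputable section

/-- the radii -/
def rl (b r₀ j : ℕ) : ℕ := r₀ / b ^ j

section radii

variable {b r₀ j : ℕ}

theorem rl_zero (b r₀ : ℕ) : rl b r₀ 0 = r₀ := by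
  unfold rl
  simp

theorem rl_succ (b r₀ j : ℕ) : rl b r₀ (j + 1) = rl b r₀ j / b := by
  unfold rl
  rw [pow_succ, Nat.div_div_eq_div_mul]

theorem rl_mul (b r₀ j : ℕ) : b * rl b r₀ (j + 1) ≤ rl b r₀ j := by
  rw [rl_succ, mul_comm]
  exact Nat.div_mul_le_self _ _

theorem rl_two (hb : 2 ≤ b) (r₀ j : ℕ) : 2 * rl b r₀ (j + 1) ≤ rl b r₀ j :=
  (Nat.mul_le_mul_right _ hb).trans (rl_mul b r₀ j)

theorem rl_lt (hb : 2 ≤ b) (r₀ j : ℕ) : rl b r₀ j < b * (rl b r₀ (j + 1) + 1) := by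
  rw [rl_succ]
  exact Nat.lt_mul_div_succ _ (by omega)

theorem rl_le_mul (hb : 2 ≤ b) (h : rl b r₀ (j + 1) ≠ 0) : rl b r₀ j ≤ 2 * b * rl b r₀ (j + 1) := by
  have h1 := rl_lt hb r₀ j
  have h2 : 1 ≤ rl b r₀ (j + 1) := Nat.one_le_iff_ne_zero.2 h
  nlinarith

theorem rl_le_mul2 (hb : 2 ≤ b) (h : rl b r₀ (j + 2) ≠ 0) :
    rl b r₀ j ≤ 4 * b ^ 2 * rl b r₀ (j + 2) := by
  have h1 : rl b r₀ (j + 1) ≤ 2 * b * rl b r₀ (j + 2) := rl_le_mul hb h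
  have h2 : rl b r₀ (j + 1) ≠ 0 := fun h3 => by
    have : 2 * rl b r₀ (j + 2) ≤ rl b r₀ (j + 1) := rl_two hb r₀ (j + 1)
    omega
  have h3 := rl_le_mul hb h2
  calc rl b r₀ j ≤ 2 * b * rl b r₀ (j + 1) := h3
    _ ≤ 2 * b * (2 * b * rl b r₀ (j + 2)) := Nat.mul_le_mul_left _ h1
    _ = _ := by ring

theorem rl_small (hb : 2 ≤ b) (h : rl b r₀ (j + 2) = 0) : rl b r₀ j < b ^ 2 := by
  have h1 := rl_lt hb r₀ (j + 1)
  rw [show j + 1 + 1 = j + 2 from rfl, h] at h1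
  have h2 := rl_lt hb r₀ j
  have h3 : rl b r₀ (j + 1) + 1 ≤ b := by omega
  calc rl b r₀ j < b * (rl b r₀ (j + 1) + 1) := h2
    _ ≤ b * b := Nat.mul_le_mul_left _ h3
    _ = b ^ 2 := by ring

theorem rl_anti (hb : 2 ≤ b) (r₀ j : ℕ) : rl b r₀ (j + 1) ≤ rl b r₀ j := by
  have := rl_two hb r₀ j
  omega

theorem rl_le (hb : 2 ≤ b) (r₀ j : ℕ) : rl b r₀ j ≤ r₀ := by
  unfold rl
  exact Nat.div_le_self _ _

theorem rl_end (hb : 2 ≤ b) (h : r₀ ≤ j) : rl b r₀ j = 0 := by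
  unfold rl
  refine Nat.div_eq_of_lt (lt_of_le_of_lt h ?_)
  exact (Nat.lt_two_pow_self).trans_le (Nat.pow_le_pow_left hb j)

end radii

variable {F : Finset (ℤ × ℤ)} {κ : ZMod 4} {v : ℤ × ℤ} {R : ℤ} {b r₀ : ℕ}

/-- the wall -/
theorem wallS (hF : FlatZ F κ v R) : WallS F (fun i => fr κ v i 0) R where
  side i h1 h2 := hF.side h1 h2
  inj i i' _ _ _ _ e := (fr_inj (Prod.mk.inj e).1).1

theorem PA_flat : PA (fun i => fr κ v i 0) R = PAz κ v R := rfl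

theorem PB_flat : PB (fun i => fr κ v i 0) R = PBz κ v R := rfl

/-- the boxes -/
def bx (F : Finset (ℤ × ℤ)) (v : ℤ × ℤ) (b r₀ j : ℕ) : Finset (ℤ × ℤ) := F ∩ BR v (rl b r₀ j)

theorem BR_mono {x y : ℤ} (h : x ≤ y) : BR v x ⊆ BR v y := (Sub.refl' h).subset

theorem bx_anti' (hb : 2 ≤ b) (j : ℕ) : bx F v b r₀ (j + 1) ⊆ bx F v b r₀ j :=
  inter_subset_inter_left (BR_mono (by exact_mod_cast rl_anti hb r₀ j))

theorem bx_empty {j : ℕ} (h : rl b r₀ j = 0) : bx F v b r₀ j = ∅ := by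
  unfold bx
  rw [h]
  have : BR v ((0 : ℕ) : ℤ) = ∅ := DomUp.BR_zero'
  rw [this, inter_empty]

/-- bound of the arcs lost in one step -/
def mc (F : Finset (ℤ × ℤ)) (κ : ZMod 4) (v : ℤ × ℤ) (R : ℤ) (b r₀ j : ℕ) (ω : Cfg) : ℕ :=
  if rl b r₀ (j + 2) = 0 then NA F (PAz κ v R) (PBz κ v R) v (rl b r₀ j) ω
  else MC F (PAz κ v R) (PBz κ v R) v (rl b r₀ (j + 2)) (rl b r₀ (j + 1)) (rl b r₀ j) ω

/-- the same on crossed levels -/
def yc (F : Finset (ℤ × ℤ)) (κ : ZMod 4) (v : ℤ × ℤ) (R : ℤ) (b r₀ j : ℕ) (ω : Cfg) : ℕ :=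
  if rl b r₀ (j + 1) ≤ 1 then 18
  else YC F (PAz κ v R) (PBz κ v R) v ((rl b r₀ (j + 1) / 2 : ℕ) : ℤ) (rl b r₀ (j + 1))
    ((2 * rl b r₀ (j + 1) : ℕ) : ℤ) ω

theorem dep_mc (hb : 2 ≤ b) (j : ℕ) : Dep ((bx F v b r₀ j : Set (ℤ × ℤ)) \ (bx F v b r₀ (j + 2) : Set (ℤ × ℤ)))
    (mc F κ v R b r₀ j) := by
  unfold mc
  by_cases h : rl b r₀ (j + 2) = 0
  · simp only [h, if_true]
    rw [bx_empty h, coe_empty, Set.sdiff_empty]
    unfold bx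
    rw [coe_inter]
    exact depN_NA _ _ _ _ _
  · simp only [h, if_false]
    have h0 := depN_MC (v := v) (r₂ := rl b r₀ (j + 2)) (r₁ := rl b r₀ (j + 1)) (r₀ := rl b r₀ j)
      (by exact_mod_cast rl_anti hb r₀ j) F (PAz κ v R) (PBz κ v R)
    refine h0.mono ?_
    rintro f ⟨hf, hf'⟩
    rw [mem_coe, mem_An] at hf'
    unfold bx
    rw [coe_inter, coe_inter]
    exact ⟨⟨hf, mem_coe.2 hf'.1⟩, fun h => hf'.2 (mem_coe.1 h.2)⟩

theorem dep_yc (hb : 2 ≤ b) (j : ℕ) : Dep ((bx F v b r₀ j : Set (ℤ × ℤ)) \ (bx F v b r₀ (j + 2) : Set (ℤ × ℤ)))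
    (yc F κ v R b r₀ j) := by
  unfold yc
  by_cases h : rl b r₀ (j + 1) ≤ 1
  · simp only [h, if_true]
    intro _ _ _
    rfl
  · simp only [h, if_false]
    have e1 := rl_two hb r₀ j
    have e2 : 2 * rl b r₀ (j + 2) ≤ rl b r₀ (j + 1) := rl_two hb r₀ (j + 1)
    have h0 := depN_YC (v := v) (r₂ := ((rl b r₀ (j + 1) / 2 : ℕ) : ℤ)) (r := rl b r₀ (j + 1))
      (r₃ := ((2 * rl b r₀ (j + 1) : ℕ) : ℤ)) (by omega) (by omega) F (PAz κ v R) (PBz κ v R)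
    refine h0.mono ?_
    rintro f ⟨hf, hf'⟩
    rw [mem_coe, mem_An] at hf'
    unfold bx
    rw [coe_inter, coe_inter]
    refine ⟨⟨hf, mem_coe.2 (BR_mono (by exact_mod_cast e1) hf'.1)⟩, fun h => hf'.2 ?_⟩
    exact BR_mono (by omega) (mem_coe.1 h.2)

theorem noLeg_empty {ω : Cfg} {I M : Finset (ℤ × ℤ)} (h : I = ∅) : NoLeg ZQ ω F I M := by
  rintro a ⟨⟨f, hf, -⟩, -⟩
  rw [h] at hf
  simp at hf

/-- **The data at a flat mark.** -/
def ldat (hP : HasPotQ ZQ F) (hF : FlatZ F κ v R) (hb : 2 ≤ b) (hr : (r₀ : ℤ) < R) :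
    LData ZQ F (ovr (fun i => fr κ v i 0) R) where
  Bx := bx F v b r₀
  J := r₀
  hB := bx_anti' hb
  hF := inter_subset_left
  hJ j hj := bx_empty (rl_end hb hj)
  M := mc F κ v R b r₀
  Y := yc F κ v R b r₀
  hM := dep_mc hb
  hY := dep_yc hb
  hLM j ω := by
    have hN : ∀ j, LN (ovr (fun i => fr κ v i 0) R) ZQ F (bx F v b r₀) j ω =
        NA (F : Set (ℤ × ℤ)) (PAz κ v R) (PBz κ v R) v (rl b r₀ j) ω := fun j =>
      LN_eq_NA (wallS hF) rfl ω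
    rw [hN, hN]
    unfold mc
    split_ifs with h
    · omega
    · have e1 : 2 * rl b r₀ (j + 2) ≤ rl b r₀ (j + 1) := rl_two hb r₀ (j + 1)
      have e2 := rl_anti hb r₀ j
      exact NA_le (fun a => bdF_PAz hF) (fun a => bdF_PBz hF) (fun a => PAz_not) (by omega)
        (by omega) (by omega) ω
  hLY j ω hω := by
    have h0 : rl b r₀ (j + 1) ≠ 0 := fun h => hω (noLeg_empty (bx_empty h))
    have e1 := rl_two hb r₀ j
    have e2 : 2 * rl b r₀ (j + 2) ≤ rl b r₀ (j + 1) := rl_two hb r₀ (j + 1)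
    have e3 := rl_le hb r₀ j
    have h1 := LN_le_of_leg (rr := fun j => (rl b r₀ j : ℤ)) (Bx := bx F v b r₀) (j := j) hP
      (hF.wbox (by positivity) (by exact_mod_cast rl_anti hb r₀ j) (by omega)) hω
    have h2 := LY_le_NY (wallS hF) (v := v) (Bx := bx F v b r₀) (j := j) (r₀ := rl b r₀ j)
      (r := rl b r₀ (j + 1)) rfl rfl ω
    refine h1.trans (Nat.add_le_add_left (h2.trans ?_) _)
    rw [PA_flat, PB_flat]
    unfold yc
    split_ifs with h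
    · refine (NY_le_UB (fun a => bdF_PAz hF) (fun a => bdF_PBz hF) (fun a => PAz_not) ω).trans ?_
      rw [card_UB, show rl b r₀ (j + 1) = 1 by omega]
      norm_num
    · exact NY_le (fun a => bdF_PAz hF) (fun a => bdF_PBz hF) (fun a => PAz_not) (by omega)
        (by omega) (by omega) (by omega) ω

theorem ldat_Bx (hP : HasPotQ ZQ F) (hF : FlatZ F κ v R) (hb : 2 ≤ b) (hr : (r₀ : ℤ) < R) (j : ℕ) :
    (ldat hP hF hb hr).Bx j = F ∩ BR v (rl b r₀ j) := rfl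

theorem yc_moment {lam : ℝ} (hlam : 1 ≤ lam) : ∃ C : ℝ, 1 ≤ C ∧ ∀ (F : Finset (ℤ × ℤ)) (κ : ZMod 4)
    (v : ℤ × ℤ) (R : ℤ) (b r₀ j : ℕ), FlatZ F κ v R → 2 ≤ b →
      av F (fun ω => lam ^ yc F κ v R b r₀ j ω) ≤ C := by
  classical
  obtain ⟨C, hC, h⟩ := YC_moment 6 hlam
  refine ⟨max C (lam ^ 18), (one_le_pow₀ hlam).trans (le_max_right _ _), ?_⟩
  intro F κ v R b r₀ j hF hb
  by_cases h1 : rl b r₀ (j + 1) ≤ 1
  · refine le_trans (av_mono (g' := fun _ => lam ^ 18) fun T _ => ?_)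
      ((av_const _).le.trans (le_max_right _ _))
    unfold yc
    rw [if_pos h1]
  · refine le_trans ?_ (le_max_left _ _)
    have e1 := rl_two hb r₀ j
    have e : (fun ω => lam ^ yc F κ v R b r₀ j ω) = fun ω => lam ^ YC F (PAz κ v R) (PBz κ v R) v
        ((rl b r₀ (j + 1) / 2 : ℕ) : ℤ) (rl b r₀ (j + 1)) ((2 * rl b r₀ (j + 1) : ℕ) : ℤ) ω := by
      funext ω
      unfold yc
      rw [if_neg h1]
    rw [e]
    have hd := (depN_YC (v := v) (r₂ := ((rl b r₀ (j + 1) / 2 : ℕ) : ℤ)) (r := rl b r₀ (j + 1))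
      (r₃ := ((2 * rl b r₀ (j + 1) : ℕ) : ℤ)) (by omega) (by omega) F (PAz κ v R) (PBz κ v R)).mono
      (S' := (F : Set (ℤ × ℤ)) ∩ (BR v ((2 * rl b r₀ (j + 1) : ℕ) : ℤ) : Set (ℤ × ℤ))) (by
        rintro f ⟨hf, hf'⟩
        rw [mem_coe, mem_An] at hf'
        exact ⟨hf, mem_coe.2 hf'.1⟩)
    rw [DomUp.av_window (A := (BR v ((2 * rl b r₀ (j + 1) : ℕ) : ℤ) : Set (ℤ × ℤ)))
      (W := BR v ((2 * rl b r₀ (j + 1) : ℕ) : ℤ)) (by
        intro ω ω' hω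
        simp only [hd ω ω' hω]) (Set.Subset.refl _), Wd.av_eq]
    exact h (F : Set (ℤ × ℤ)) (PAz κ v R) (PBz κ v R) v _ _ _ _ (fun a => bdF_PAz hF)
      (fun a => bdF_PBz hF) (fun a => PAz_not) (by omega) (by omega) (by omega) (by push_cast; omega)
      (by push_cast; omega) (by push_cast; omega) (wsep_z hF (by omega)) (Finset.Subset.refl _)

theorem mc_moment {lam : ℝ} (hlam : 1 ≤ lam) (b : ℕ) : ∃ C : ℝ, 1 ≤ C ∧ ∀ (F : Finset (ℤ × ℤ)) (κ : ZMod 4)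
    (v : ℤ × ℤ) (R : ℤ) (r₀ j : ℕ), FlatZ F κ v R → 2 ≤ b →
      av F (fun ω => lam ^ mc F κ v R b r₀ j ω) ≤ C := by
  classical
  obtain ⟨C, hC, h⟩ := MC_moment (4 * b ^ 2) hlam
  refine ⟨max C (lam ^ (2 * (2 * b ^ 2 + 1) ^ 2)), (one_le_pow₀ hlam).trans (le_max_right _ _), ?_⟩
  intro F κ v R r₀ j hF hb
  by_cases h1 : rl b r₀ (j + 2) = 0
  · refine le_trans (av_mono (g' := fun _ => lam ^ (2 * (2 * b ^ 2 + 1) ^ 2)) fun T _ => ?_)
      ((av_const _).le.trans (le_max_right _ _))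
    unfold mc
    rw [if_pos h1]
    refine pow_le_pow_right₀ hlam ((NS_le_UB (v := v) (r := rl b r₀ j) _).trans ?_)
    rw [card_UB]
    have := rl_small hb h1
    exact Nat.mul_le_mul_left _ (Nat.pow_le_pow_left (by omega) 2)
  · refine le_trans ?_ (le_max_left _ _)
    have e0 : (fun ω => lam ^ mc F κ v R b r₀ j ω) = fun ω => lam ^ MC F (PAz κ v R) (PBz κ v R) v
        (rl b r₀ (j + 2)) (rl b r₀ (j + 1)) (rl b r₀ j) ω := by
      funext ω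
      unfold mc
      rw [if_neg h1]
    rw [e0]
    have e1 := rl_anti hb r₀ j
    have e2 : 2 * rl b r₀ (j + 2) ≤ rl b r₀ (j + 1) := rl_two hb r₀ (j + 1)
    have e3 := rl_le_mul2 hb h1
    have hd := (depN_MC (v := v) (r₂ := rl b r₀ (j + 2)) (r₁ := rl b r₀ (j + 1)) (r₀ := rl b r₀ j)
      (by exact_mod_cast e1) F (PAz κ v R) (PBz κ v R)).mono
      (S' := (F : Set (ℤ × ℤ)) ∩ (BR v (rl b r₀ j) : Set (ℤ × ℤ))) (by
        rintro f ⟨hf, hf'⟩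
        rw [mem_coe, mem_An] at hf'
        exact ⟨hf, mem_coe.2 hf'.1⟩)
    rw [DomUp.av_window (A := (BR v (rl b r₀ j) : Set (ℤ × ℤ))) (W := BR v (rl b r₀ j)) (by
        intro ω ω' hω
        simp only [hd ω ω' hω]) (Set.Subset.refl _), Wd.av_eq]
    have hb2 : 1 ≤ 4 * b ^ 2 := by nlinarith
    refine h (F : Set (ℤ × ℤ)) (PAz κ v R) (PBz κ v R) v _ _ _ _ (fun a => bdF_PAz hF)
      (fun a => bdF_PBz hF) (fun a => PAz_not) (by omega) (by omega) (by omega)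
      (by exact_mod_cast e3) ?_ (wsep_z hF (by omega)) (Finset.Subset.refl _)
    have e4 : (rl b r₀ (j + 2) : ℤ) ≤ (rl b r₀ (j + 1) : ℤ) - (rl b r₀ (j + 2) : ℤ) := by omega
    have e5 : (1 : ℤ) ≤ ((4 * b ^ 2 : ℕ) : ℤ) := by exact_mod_cast hb2
    nlinarith

theorem cr_moment (hNL : GG.RowNoLeg) {p0 : ℝ} (hp : 0 < p0) : ∃ b₁ : ℕ, 2 ≤ b₁ ∧ ∀ b, b₁ ≤ b →
    ∀ (F : Finset (ℤ × ℤ)) (v : ℤ × ℤ) (r₀ j : ℕ),
      av F (LH.ic fun ω => ¬ NoLeg ZQ ω F (bx F v b r₀ (j + 1)) (bx F v b r₀ j)) ≤ p0 := by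
  classical
  obtain ⟨C, hC, h⟩ := GG.mean_pos
  obtain ⟨b₁, hb₁⟩ := exists_nat_ge ((C / p0) ^ 4)
  refine ⟨b₁ + 2, by omega, fun b hb F v r₀ j => ?_⟩
  have hb2 : 2 ≤ b := by omega
  have hC0 : 0 < C := by linarith
  have hb0 : (0 : ℝ) < b := by exact_mod_cast (by omega : 0 < b)
  have hbb : (C / p0) ^ 4 ≤ b := hb₁.trans (by exact_mod_cast (by omega : b₁ ≤ b))
  have key : C * ((1 : ℝ) / b) ^ (1 / 4 : ℝ) ≤ p0 := by
    have h1 : (1 : ℝ) / b ≤ (p0 / C) ^ 4 := by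
      rw [div_le_iff₀ hb0]
      have : (p0 / C) ^ 4 * (C / p0) ^ 4 = 1 := by
        rw [← mul_pow]
        rw [div_mul_div_comm, mul_comm p0 C, div_self (by positivity), one_pow]
      calc (1 : ℝ) = (p0 / C) ^ 4 * (C / p0) ^ 4 := this.symm
        _ ≤ _ := mul_le_mul_of_nonneg_left hbb (by positivity)
    have h2 : ((1 : ℝ) / b) ^ (1 / 4 : ℝ) ≤ p0 / C := by
      refine (Real.rpow_le_rpow (by positivity) h1 (by norm_num)).trans (le_of_eq ?_)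
      have := Real.pow_rpow_inv_natCast (show 0 ≤ p0 / C by positivity) (show (4 : ℕ) ≠ 0 by norm_num)
      calc ((p0 / C) ^ 4) ^ (1 / 4 : ℝ) = ((p0 / C) ^ 4) ^ (((4 : ℕ) : ℝ)⁻¹) := by norm_num
        _ = p0 / C := this
    calc C * ((1 : ℝ) / b) ^ (1 / 4 : ℝ) ≤ C * (p0 / C) := mul_le_mul_of_nonneg_left h2 hC0.le
      _ = p0 := by field_simp
  by_cases h0 : rl b r₀ (j + 1) = 0
  · refine le_trans (av_mono (g' := fun _ => 0) fun T _ => ?_) ((av_const _).le.trans hp.le)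
    unfold LH.ic
    rw [if_neg (not_not.2 (noLeg_empty (bx_empty h0)))]
  · have e1 := rl_two hb2 r₀ j
    have h3 := h F v (rl b r₀ (j + 1)) (rl b r₀ j) (by omega) (by omega)
    refine le_trans (av_mono fun T _ => ?_) (h3.trans (le_trans ?_ key))
    · unfold LH.ic
      split_ifs with h4 h5 h5
      · exact le_rfl
      · exfalso
        apply h4
        exact hNL F v (rl b r₀ (j + 1)) (rl b r₀ j) _ (by omega) (by omega) (by omega)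
      · norm_num
      · exact le_rfl
    · refine mul_le_mul_of_nonneg_left (Real.rpow_le_rpow (by positivity) ?_ (by norm_num)) hC0.le
      have e2 := rl_mul b r₀ j
      have e3 : (0 : ℝ) < rl b r₀ j := by exact_mod_cast (by omega : 0 < rl b r₀ j)
      push_cast
      rw [div_le_div_iff₀ e3 hb0, one_mul]
      have : (b : ℝ) * rl b r₀ (j + 1) ≤ rl b r₀ j := by exact_mod_cast e2
      linarith

/-- **The quantitative hypotheses at a flat mark.** -/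
theorem ldat_mom (hNL : GG.RowNoLeg) (T : ℝ) (hT : 1 ≤ T) : ∃ CY : ℝ, 1 ≤ CY ∧ ∀ p0 : ℝ, 0 < p0 →
    ∃ b₁ : ℕ, 2 ≤ b₁ ∧ ∀ b, b₁ ≤ b → ∃ CM : ℝ, 1 ≤ CM ∧
      ∀ (F : Finset (ℤ × ℤ)) (κ : ZMod 4) (v : ℤ × ℤ) (R : ℤ) (r₀ : ℕ) (hP : HasPotQ ZQ F)
        (hF : FlatZ F κ v R) (hb : 2 ≤ b) (hr : (r₀ : ℤ) < R),
        (ldat hP hF hb hr).Mom T CY p0 CM := by
  have h8 : 1 ≤ T ^ 8 := one_le_pow₀ hT
  obtain ⟨CY, hCY, hY⟩ := yc_moment h8
  refine ⟨CY, hCY, fun p0 hp => ?_⟩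
  obtain ⟨b₁, hb₁, hc⟩ := cr_moment hNL hp
  refine ⟨b₁, hb₁, fun b hb => ?_⟩
  obtain ⟨CM, hCM, hM⟩ := mc_moment (show (1 : ℝ) ≤ 2 * T ^ 8 by linarith) b
  refine ⟨CM, hCM, fun F κ v R r₀ hP hF hb2 hr => ⟨fun j => ?_, fun j => ?_, fun j => ?_⟩⟩
  · exact hY F κ v R b r₀ j hF hb2
  · exact hc b hb F v r₀ j
  · exact hM F κ v R r₀ j hF hb2

end

end Pool.Agent.SixB.LI
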