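import Pool.Agent.Lib.SixB.S6LHgtI
import Pool.Agent.Lib.SixB.S6LInst
import Pool.Agent.Lib.SixB.S6GFar
import Pool.Agent.Lib.SixB.PlaneU

/-!
# 6BD, block CA-L, row L6: heights by scale, part 10 (the hypotheses at a flat mark)

* `wsd κ v i`: the side number `i` of the wall at `v`; `bS_box`: the boundary sides with their face in a box.
* `WMk E κ v R t`: `E.F` is flat near `v` up to the radius `R`; the arcs over `v` have weight `t`, the other arcs `1`.
* `mrad_rl`, `exists_rect`, `WMk.pos`, `WMk.kapB`, `WMk.natZ`: the hypotheses of `mark_cmp` for the data `LI.ldat`.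
* `mark_flat`: comparison of two families at a flat mark.
-/

set_option autoImplicit false
set_option linter.unusedSectionVars false

namespace Pool.Agent.SixB

open Pool.Agent.Perc Pool.Agent.Perc.Q Relation Pool.Agent.SixB.Tilt PercD PercN

noncomputable section

namespace HG

variable {F A B I J M G : Finset (ℤ × ℤ)} {ω ω' : Cfg} {a b c e : DZ} {X : Finset DZ}
  {κ : ZMod 4} {v z : VZ} {R r ρ x y p q : ℤ} {t : ℝ}

/-- the side number `i` of the wall at `v` -/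
def wsd (κ : ZMod 4) (v : VZ) (i : ℤ) : DZ := (fr κ v i 0, fr κ v (i + 1) 0)

theorem face_eq {f f' : ℤ × ℤ} {k k' : ZMod 4} (h : sd ZQ f k = sd ZQ f' k') : f = f' :=
  (ZQ.inj (Prod.mk.inj h).1 (Prod.mk.inj h).2).1

/-- a boundary side of a flat region -/
theorem bS_flat (h : FlatZ F κ v R) {k : ZMod 4} (ha : sd ZQ (cl κ v x y) k ∈ bS ZQ F)
    (hF : cl κ v x y ∈ F) (h1 : -R < x) (h2 : x + 1 < R) (h3 : -R ≤ y) (h4 : y + 1 < R) :
    y = 0 ∧ sd ZQ (cl κ v x y) k = wsd κ v x := by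
  have hy : 0 ≤ y := (h x y h1.le (by omega) h3 (by omega)).mp hF
  have hini := (mem_bS_ah.mp ha).2
  have key : ∀ (x' y' : ℤ) (k' : ZMod 4), (sd ZQ (cl κ v x y) k).swap = sd ZQ (cl κ v x' y') k' →
      cl κ v x' y' ∉ F := fun x' y' k' e hc => hini ⟨_, hc, k', e⟩
  rcases k4' κ k with rfl | rfl | rfl | rfl
  · have e : (sd ZQ (cl k v x y) k).swap = sd ZQ (cl k v x (y - 1)) (k + 2) := by
      rw [sd_0, sd_2, sub_add_cancel]
      rfl
    have h5 := key _ _ _ e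
    have h6 : ¬ 0 ≤ y - 1 := fun h7 => h5 ((h x (y - 1) (by omega) (by omega) (by omega) (by omega)).mpr h7)
    obtain rfl : y = 0 := by omega
    exact ⟨rfl, sd_0 k v x 0⟩
  · exfalso
    have e : (sd ZQ (cl κ v x y) (κ + 1)).swap = sd ZQ (cl κ v (x + 1) y) (κ + 3) := by
      rw [sd_1, sd_3]
      rfl
    exact key _ _ _ e ((h (x + 1) y (by omega) (by omega) (by omega) (by omega)).mpr hy)
  · exfalso
    have e : (sd ZQ (cl κ v x y) (κ + 2)).swap = sd ZQ (cl κ v x (y + 1)) κ := by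
      rw [sd_2, sd_0]
      rfl
    exact key _ _ _ e ((h x (y + 1) (by omega) (by omega) (by omega) (by omega)).mpr (by omega))
  · exfalso
    have e : (sd ZQ (cl κ v x y) (κ + 3)).swap = sd ZQ (cl κ v (x - 1) y) (κ + 1) := by
      rw [sd_3, sd_1, sub_add_cancel]
      rfl
    exact key _ _ _ e ((h (x - 1) y (by omega) (by omega) (by omega) (by omega)).mpr hy)

theorem cl_mem_BR' : cl κ v x y ∈ BR (fr κ v p q) ρ ↔ p - ρ ≤ x ∧ x < p + ρ ∧ q - ρ ≤ y ∧ y < q + ρ := by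
  have h := cl_mem_BR (κ := κ) (v := fr κ v p q) (x := x - p) (y := y - q) (r := ρ)
  rw [cl_shift, show p + (x - p) = x by ring, show q + (y - q) = y by ring] at h
  rw [h]
  omega

/-- **the boundary sides with their face in a box** -/
theorem bS_box (h : FlatZ F κ v R) (hp : |p| + ρ < R) (hq : |q| + ρ < R) (ha : a ∈ bS ZQ F)
    (hA : Ah ZQ (F ∩ BR (fr κ v p q) ρ) a) : q < ρ + 1 ∧ -ρ ≤ q ∧ ∃ i, p - ρ ≤ i ∧ i < p + ρ ∧ a = wsd κ v i := by
  obtain ⟨f, hf, k, e⟩ := hA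
  obtain ⟨x, y, rfl⟩ := exists_cl κ v f
  rw [Finset.mem_inter, cl_mem_BR'] at hf
  obtain ⟨hF, h1, h2, h3, h4⟩ := hf
  have k1 := le_abs_self p
  have k2 := neg_abs_le p
  have k3 := le_abs_self q
  have k4 := neg_abs_le q
  rw [e] at ha
  obtain ⟨h5, h6⟩ := bS_flat h ha hF (by omega) (by omega) (by omega) (by omega)
  exact ⟨by omega, by omega, x, h1, h2, by rw [e, h6]⟩

/-- **weights at a flat mark** -/
structure WMk (E : WEnv) (κ : ZMod 4) (v : VZ) (R : ℤ) (t : ℝ) : Prop where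
  flat : FlatZ E.F κ v R
  t1 : 1 ≤ t
  ov : ∀ i i', -R ≤ i → i < 0 → 0 ≤ i' → i' < R → E.t (wsd κ v i) (wsd κ v i') = t
  eq : ∀ i i', -R ≤ i → i < R → -R ≤ i' → i' < R → (i < 0 ↔ i' < 0) → E.t (wsd κ v i) (wsd κ v i') = 1
  s2 : ∀ i i', -R ≤ i → i < R → -R ≤ i' → i' < R → |E.s (wsd κ v i) (wsd κ v i')| ≤ 2

theorem WMk.tt {E : WEnv} (h : WMk E κ v R t) {i i' : ℤ} (h1 : -R ≤ i) (h2 : i < R) (h3 : -R ≤ i')
    (h4 : i' < R) : E.t (wsd κ v i) (wsd κ v i') = 1 ∨ E.t (wsd κ v i) (wsd κ v i') = t := by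
  by_cases h5 : i < 0 ↔ i' < 0
  · exact Or.inl (h.eq i i' h1 h2 h3 h4 h5)
  · right
    rcases lt_or_ge i 0 with h6 | h6
    · exact h.ov i i' h1 h6 (by
        by_contra h7
        exact h5 ⟨fun _ => by omega, fun _ => h6⟩) h4
    · rw [E.t_symm]
      exact h.ov i' i h3 (by
        by_contra h7
        exact h5 ⟨fun h8 => by omega, fun h8 => absurd h8 h7⟩) h6 h2

theorem WMk.box {E : WEnv} (h : WMk E κ v R t) (hr : r < R) (ha : a ∈ bS ZQ E.F)
    (hA : Ah ZQ (E.F ∩ BR v r) a) : ∃ i, -r ≤ i ∧ i < r ∧ a = wsd κ v i := by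
  have e : v = fr κ v 0 0 := by
    rcases k4 κ with rfl | rfl | rfl | rfl
    · rw [fr_0]; simp
    · rw [fr_1]; simp
    · rw [fr_2]; simp
    · rw [fr_3]; simp
  rw [e] at hA
  obtain ⟨-, -, i, h1, h2, h3⟩ := bS_box h.flat (by simpa using hr) (by simpa using hr) ha hA
  exact ⟨i, by omega, by omega, h3⟩

theorem WMk.pos {E : WEnv} (h : WMk E κ v R t) (hr : r < R) : Pos E (E.F ∩ BR v r) := by
  intro a ha b hb h1 h2
  obtain ⟨i, k1, k2, rfl⟩ := h.box hr ha h1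
  obtain ⟨i', k3, k4, rfl⟩ := h.box hr hb h2
  have ht := h.t1
  rcases h.tt (i := i) (i' := i') (by omega) (by omega) (by omega) (by omega) with h5 | h5
  · rw [h5]
    norm_num
  · rw [h5]
    exact (by linarith : (0 : ℝ) < t).ne'

theorem WMk.kapB {E : WEnv} (h : WMk E κ v R t) (hr : r < R) : KapB E (E.F ∩ BR v r) 2 := by
  intro ω X e hd hX heX
  unfold kap
  by_cases hcl : Clo ZQ E.F ω e
  · rw [if_pos hcl]
    have h3 : Real.sqrt 3 ≤ 2 := by
      rw [Real.sqrt_le_left (by norm_num)]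
      norm_num
    have h0 := Real.sqrt_nonneg 3
    rcases uml_ZQ E.F ω e hcl with h1 | h1
    · rw [h1, abs_le]
      constructor <;> push_cast <;> linarith
    · rw [h1, abs_le]
      constructor <;> push_cast <;> linarith
  · rw [if_neg hcl]
    have hc : e ∈ dE ZQ E.F := dstr_sub hd heX
    have hs := stt_mem hcl hc
    have hsX : stt E.F ω e ∈ X := (rtg_b' (ω' := ω) hd hX (fun _ _ => rfl) heX (stt_spec hcl).1).1
    have hm : mate ZQ E.F ω (stt E.F ω e) ∈ bS ZQ E.F := mate_mem hs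
    have hmX : (mate ZQ E.F ω (stt E.F ω e)).swap ∈ X :=
      (rtg_f' (ω' := ω) hd hX (fun _ _ => rfl) heX (stt_last hcl)).1
    have h1 : Ah ZQ (E.F ∩ BR v r) (stt E.F ω e) := by
      obtain ⟨f, hf, k, h4⟩ := bS_sd hs
      exact ⟨f, hX f hf k (Or.inl (h4 ▸ hsX)), k, h4⟩
    have h2 : Ah ZQ (E.F ∩ BR v r) (mate ZQ E.F ω (stt E.F ω e)) := by
      obtain ⟨f, hf, k, h4⟩ := bS_sd hm
      exact ⟨f, hX f hf k (Or.inr (h4 ▸ hmX)), k, h4⟩
    obtain ⟨i, k1, k2, e1⟩ := h.box hr hs h1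
    obtain ⟨i', k3, k4, e2⟩ := h.box hr hm h2
    rw [e2, e1]
    have hs2 := h.s2 i i' (by omega) (by omega) (by omega) (by omega)
    have ht : 1 ≤ E.t (wsd κ v i) (wsd κ v i') := by
      rcases h.tt (i := i) (i' := i') (by omega) (by omega) (by omega) (by omega) with h5 | h5
      · rw [h5]
      · rw [h5]
        exact h.t1
    rw [abs_div, abs_of_pos (by linarith : 0 < E.t (wsd κ v i) (wsd κ v i')),
      div_le_iff₀ (by linarith)]
    linarith

theorem fr_abs (κ : ZMod 4) (v : VZ) (p q : ℤ) :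
    (|(fr κ v p q).1 - v.1| = |p| ∧ |(fr κ v p q).2 - v.2| = |q|) ∨
      (|(fr κ v p q).1 - v.1| = |q| ∧ |(fr κ v p q).2 - v.2| = |p|) := by
  rcases k4 κ with rfl | rfl | rfl | rfl
  · left
    rw [fr_0]
    simp
  · right
    rw [fr_1]
    constructor
    · show |v.1 - q - v.1| = |q|
      rw [show v.1 - q - v.1 = -q by ring, abs_neg]
    · show |v.2 + p - v.2| = |p|
      rw [show v.2 + p - v.2 = p by ring]
  · left
    rw [fr_2]
    constructor
    · show |v.1 - p - v.1| = |p|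
      rw [show v.1 - p - v.1 = -p by ring, abs_neg]
    · show |v.2 - q - v.2| = |q|
      rw [show v.2 - q - v.2 = -q by ring, abs_neg]
  · right
    rw [fr_3]
    constructor
    · show |v.1 + q - v.1| = |q|
      rw [show v.1 + q - v.1 = q by ring]
    · show |v.2 - p - v.2| = |p|
      rw [show v.2 - p - v.2 = -p by ring, abs_neg]

/-- the rectangle in the flat region -/
theorem exists_rect (h : FlatZ F κ v R) (hr : 0 ≤ r) (hrR : r ≤ R) : ∃ X0 X1 Y0 Y1 : ℤ,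
    RF X0 X1 Y0 Y1 ⊆ F ∧ r ≤ X1 - X0 ∧ r ≤ Y1 - Y0 ∧ InR X0 X1 Y0 Y1 v ∧
      ∀ z, InR X0 X1 Y0 Y1 z ↔ ∃ p q, z = fr κ v p q ∧ |p| ≤ r ∧ 0 ≤ q ∧ q ≤ r := by
  have hfl : ∀ x y, -r ≤ x → x < r → 0 ≤ y → y < r → cl κ v x y ∈ F := fun x y h1 h2 h3 h4 =>
    (h x y (by omega) (by omega) (by omega) (by omega)).mpr h3
  rcases k4 κ with rfl | rfl | rfl | rfl
  · refine ⟨v.1 - r, v.1 + r, v.2, v.2 + r, ?_, by omega, by omega, ?_, ?_⟩
    · intro f hf
      obtain ⟨x, y, rfl⟩ := exists_cl 0 v f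
      rw [cl_0, mem_RF] at hf
      exact hfl x y (by simp only at hf; omega) (by simp only at hf; omega) (by simp only at hf; omega)
        (by simp only at hf; omega)
    · unfold InR
      omega
    · intro z
      unfold InR
      constructor
      · rintro ⟨h1, h2, h3, h4⟩
        obtain ⟨p, q, rfl⟩ := exists_fr 0 v z
        rw [fr_0] at h1 h2 h3 h4
        simp only at h1 h2 h3 h4
        exact ⟨p, q, rfl, by rw [abs_le]; omega, by omega, by omega⟩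
      · rintro ⟨p, q, rfl, h1, h2, h3⟩
        rw [abs_le] at h1
        rw [fr_0]
        simp only
        omega
  · refine ⟨v.1 - r, v.1, v.2 - r, v.2 + r, ?_, by omega, by omega, ?_, ?_⟩
    · intro f hf
      obtain ⟨x, y, rfl⟩ := exists_cl 1 v f
      rw [cl_1, mem_RF] at hf
      exact hfl x y (by simp only at hf; omega) (by simp only at hf; omega) (by simp only at hf; omega)
        (by simp only at hf; omega)
    · unfold InR
      omega
    · intro z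
      unfold InR
      constructor
      · rintro ⟨h1, h2, h3, h4⟩
        obtain ⟨p, q, rfl⟩ := exists_fr 1 v z
        rw [fr_1] at h1 h2 h3 h4
        simp only at h1 h2 h3 h4
        exact ⟨p, q, rfl, by rw [abs_le]; omega, by omega, by omega⟩
      · rintro ⟨p, q, rfl, h1, h2, h3⟩
        rw [abs_le] at h1
        rw [fr_1]
        simp only
        omega
  · refine ⟨v.1 - r, v.1 + r, v.2 - r, v.2, ?_, by omega, by omega, ?_, ?_⟩
    · intro f hf
      obtain ⟨x, y, rfl⟩ := exists_cl 2 v f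
      rw [cl_2, mem_RF] at hf
      exact hfl x y (by simp only at hf; omega) (by simp only at hf; omega) (by simp only at hf; omega)
        (by simp only at hf; omega)
    · unfold InR
      omega
    · intro z
      unfold InR
      constructor
      · rintro ⟨h1, h2, h3, h4⟩
        obtain ⟨p, q, rfl⟩ := exists_fr 2 v z
        rw [fr_2] at h1 h2 h3 h4
        simp only at h1 h2 h3 h4
        exact ⟨p, q, rfl, by rw [abs_le]; omega, by omega, by omega⟩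
      · rintro ⟨p, q, rfl, h1, h2, h3⟩
        rw [abs_le] at h1
        rw [fr_2]
        simp only
        omega
  · refine ⟨v.1, v.1 + r, v.2 - r, v.2 + r, ?_, by omega, by omega, ?_, ?_⟩
    · intro f hf
      obtain ⟨x, y, rfl⟩ := exists_cl 3 v f
      rw [cl_3, mem_RF] at hf
      exact hfl x y (by simp only at hf; omega) (by simp only at hf; omega) (by simp only at hf; omega)
        (by simp only at hf; omega)
    · unfold InR
      omega
    · intro z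
      unfold InR
      constructor
      · rintro ⟨h1, h2, h3, h4⟩
        obtain ⟨p, q, rfl⟩ := exists_fr 3 v z
        rw [fr_3] at h1 h2 h3 h4
        simp only at h1 h2 h3 h4
        exact ⟨p, q, rfl, by rw [abs_le]; omega, by omega, by omega⟩
      · rintro ⟨p, q, rfl, h1, h2, h3⟩
        rw [abs_le] at h1
        rw [fr_3]
        simp only
        omega

/-- **natural weights off the mark** -/
theorem WMk.natZ {E : WEnv} (h : WMk E κ v R t) (hr : r < R) {X0 X1 Y0 Y1 : ℤ}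
    (hX : ∀ z, InR X0 X1 Y0 Y1 z → ∃ p q, z = fr κ v p q ∧ 0 ≤ q) : NatZ E v r X0 X1 Y0 Y1 := by
  intro z ρ hz hρ h4 h1 h2 a ha b hb hA hB
  obtain ⟨p, q, rfl, hq⟩ := hX z hz
  have hpq : |p| + ρ ≤ r ∧ |q| + ρ ≤ r ∧ (4 * ρ ≤ |p| ∨ 4 * ρ ≤ |q|) := by
    rcases fr_abs κ v p q with ⟨e1, e2⟩ | ⟨e1, e2⟩
    · rw [e1] at h1 h4
      rw [e2] at h2 h4
      exact ⟨h1, h2, h4⟩
    · rw [e1] at h1 h4
      rw [e2] at h2 h4
      exact ⟨h2, h1, h4.symm⟩
  obtain ⟨k1, k2, k3⟩ := hpq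
  obtain ⟨q1, -, i, i1, i2, rfl⟩ := bS_box h.flat (by omega) (by omega) ha hA
  obtain ⟨-, -, i', i3, i4, rfl⟩ := bS_box h.flat (by omega) (by omega) hb hB
  have hqa : |q| = q := abs_of_nonneg hq
  have m1 := le_abs_self p
  have m2 := neg_abs_le p
  refine h.eq i i' (by omega) (by omega) (by omega) (by omega) ?_
  rcases abs_cases p with ⟨e, _⟩ | ⟨e, _⟩ <;> rw [hqa] at k3 <;> rw [e] at k3 <;> omega

theorem mrad_rl {b r₀ : ℕ} (hb : 8 ≤ b) : MRad (fun j => (LI.rl b r₀ j : ℤ)) b 0 where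
  b8 := by exact_mod_cast hb
  c0n := le_rfl
  nn j := by positivity
  lo j := by exact_mod_cast LI.rl_mul b r₀ j
  hi j := by
    right
    have := LI.rl_lt (by omega : 2 ≤ b) r₀ j
    exact_mod_cast this.le

/-- a vertex near the mark -/
theorem vertex_flat (h : FlatZ F κ v R) (hz : GG.IsV F z) (h1 : |z.1 - v.1| ≤ r) (h2 : |z.2 - v.2| ≤ r)
    (hr : r + 1 < R) : ∃ p q, z = fr κ v p q ∧ |p| ≤ r ∧ 0 ≤ q ∧ q ≤ r := by
  obtain ⟨p, q, rfl⟩ := exists_fr κ v z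
  have hpq : |p| ≤ r ∧ |q| ≤ r := by
    rcases fr_abs κ v p q with ⟨e1, e2⟩ | ⟨e1, e2⟩
    · rw [e1] at h1
      rw [e2] at h2
      exact ⟨h1, h2⟩
    · rw [e1] at h1
      rw [e2] at h2
      exact ⟨h2, h1⟩
  obtain ⟨k1, k2⟩ := hpq
  refine ⟨p, q, rfl, k1, ?_, (abs_le.mp k2).2⟩
  rw [abs_le] at k1 k2
  obtain ⟨f, hf, k, hk⟩ := hz
  obtain ⟨x, y, rfl⟩ := exists_cl κ v f
  have hxy : (p = x ∨ p = x + 1) ∧ (q = y ∨ q = y + 1) := by
    rcases k4' κ k with rfl | rfl | rfl | rfl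
    · rw [cor_0] at hk
      obtain ⟨e1, e2⟩ := fr_inj hk
      omega
    · rw [cor_1] at hk
      obtain ⟨e1, e2⟩ := fr_inj hk
      omega
    · rw [cor_2] at hk
      obtain ⟨e1, e2⟩ := fr_inj hk
      omega
    · rw [cor_3] at hk
      obtain ⟨e1, e2⟩ := fr_inj hk
      omega
  have h5 := (h x y (by omega) (by omega) (by omega) (by omega)).mp hf
  omega

/-- **comparison of two families at a flat mark** -/
theorem mark_flat (T : ℝ) (hT : 1 ≤ T) : ∃ b₁ : ℕ, 2 ≤ b₁ ∧ ∀ b, b₁ ≤ b → ∃ C κ' : ℝ, 0 < C ∧ 0 < κ' ∧ κ' < 1 ∧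
    ∀ {E0 : WEnv} {k : ZMod 4} {v : VZ} {R : ℤ} {t : ℝ} {r₀ : ℕ} (hP : HasPotQ ZQ E0.F)
      (hw : WMk E0 k v R t) (hb : 2 ≤ b) (hr : (r₀ : ℤ) < R), t ≤ T → 0 < r₀ → (r₀ : ℤ) + 1 < R →
      ∀ {ι ι' : Type} {s : Finset ι} {E : ι → WEnv} {s' : Finset ι'} {E' : ι' → WEnv} {CW A CW' A' : ℝ},
      MFam (LI.ldat hP hw.flat hb hr) t (MjD (LI.ldat hP hw.flat hb hr) t) s E CW A →
      MFam (LI.ldat hP hw.flat hb hr) t (MjD (LI.ldat hP hw.flat hb hr) t) s' E' CW' A' →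
      ∀ (z : VZ) (l : ℕ), GG.IsV E0.F z → 5 ≤ l → |z.1 - v.1| ≤ LI.rl b r₀ l →
      |z.2 - v.2| ≤ LI.rl b r₀ l →
        |uF s E E0.F z v - uF s' E' E0.F z v| ≤ C * (CW + CW') * κ' ^ l := by
  obtain ⟨CY, hCY, hm⟩ := LI.ldat_mom GG.rowNoLeg T hT
  obtain ⟨p0, hp0, hc⟩ := mark_cmp T (1 / 2) CY hT (by norm_num) le_rfl (by linarith)
  obtain ⟨b₁, hb₁, hm⟩ := hm p0 hp0
  refine ⟨max b₁ 8, hb₁.trans (le_max_left _ _), fun b hb => ?_⟩
  obtain ⟨CM, hCM, hm⟩ := hm b ((le_max_left _ _).trans hb)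
  have hb8 : 8 ≤ b := (le_max_right _ _).trans hb
  obtain ⟨C, κ', hC, hκ0, hκ1, hc⟩ := hc CM 2 b 0 hCM (by norm_num)
  refine ⟨C, κ', hC, hκ0, hκ1, ?_⟩
  intro E0 k v R t r₀ hP hw hb2 hr htT hr0 hrR ι ι' s E s' E' CW A CW' A' hM hM' z l hz hl hz1 hz2
  obtain ⟨X0, X1, Y0, Y1, q1, q2, q3, q4, q5⟩ := exists_rect (r := r₀) hw.flat (by positivity)
    (by omega)
  have hrl0 : (LI.rl b r₀ 0 : ℤ) = r₀ := by rw [LI.rl_zero]
  have hmr := mrad_rl (r₀ := r₀) hb8
  refine hc (LI.ldat hP hw.flat hb2 hr) (t := t) (v := v) (rr := fun j => (LI.rl b r₀ j : ℤ))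
    (X0 := X0) (X1 := X1) (Y0 := Y0) (Y1 := Y1) hw.t1 htT
    (hm E0.F k v R r₀ hP hw.flat hb2 hr) hmr (fun j => rfl) ⟨hP, q1, ?_, ?_, ?_, q4⟩ ?_ ?_ ?_
    hM hM' z l ?_ hl hz1 hz2
  · simp only [hrl0]
    exact_mod_cast hr0
  · simp only [hrl0]
    exact q2
  · simp only [hrl0]
    exact q3
  · simp only [hrl0]
    exact hw.kapB hr
  · simp only [hrl0]
    exact hw.pos hr
  · simp only [hrl0]
    refine hw.natZ hr fun z hz => ?_
    obtain ⟨p, q, e, -, e2, -⟩ := (q5 z).mp hz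
    exact ⟨p, q, e, e2⟩
  · rw [q5]
    have h0 : (LI.rl b r₀ l : ℤ) ≤ r₀ := by exact_mod_cast LI.rl_le hb2 r₀ l
    exact vertex_flat hw.flat hz (hz1.trans h0) (hz2.trans h0) hrR

end HG

end

end Pool.Agent.SixB
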