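import Pool.Agent.Lib.SixB.S6LHgtJ
import Pool.Agent.Lib.SixB.S6GFld
import Pool.Agent.Lib.SixB.CADomUp

/-!
# 6BD, block CA-L, row L6: heights by scale, part 11 (contour environments at the marks `a2`, `a2'`)

* `wmk_cenv`: the structure `WMk` for the environment of a contour with one jump near the mark.
* `wmk_envP`: the same for `envP` at both marks, uniformly in `α`.
* `agr_envX`: `envX` and `envP` have the same weights near both marks.
* `WMk.loc`: the local form `LData.Loc` of the weight.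
* `uF_hF`: link with the families of `S6GOsc`.
-/

set_option autoImplicit false
set_option linter.unusedSectionVars false

namespace Pool.Agent.SixB

open Pool.Agent.Perc Pool.Agent.Perc.Q Relation Pool.Agent.SixB.Tilt PercD PercN Filter Topology

noncomputable section

namespace HG

variable {F A B I J M G : Finset (ℤ × ℤ)} {ω ω' : Cfg} {a b c e : DZ} {X : Finset DZ}
  {κ : ZMod 4} {v z : VZ} {R r ρ x y p q : ℤ} {t : ℝ}

/-! ### One jump -/

theorem csum_zero {j : ℤ → ℝ} {i k : ℤ} (h : ∀ v, i < v → v ≤ k → j v = 0) :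
    SixB.csum j i k = 0 := by
  unfold SixB.csum
  refine Finset.sum_eq_zero fun v hv => ?_
  rw [Finset.mem_Ioc] at hv
  exact h v hv.1 hv.2

theorem csum_one {j : ℤ → ℝ} {i k b : ℤ} (h1 : i < b) (h2 : b ≤ k)
    (h : ∀ v, i < v → v ≤ k → v ≠ b → j v = 0) : SixB.csum j i k = j b := by
  unfold SixB.csum
  rw [Finset.sum_eq_single b]
  · intro v hv hne
    rw [Finset.mem_Ioc] at hv
    exact h v hv.1 hv.2 hne
  · intro hn
    exact absurd (Finset.mem_Ioc.mpr ⟨h1, h2⟩) hn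

theorem tJ_zero : Ht.tJ 0 = 1 := by
  unfold Ht.tJ
  rw [zero_sub, Real.cos_neg]
  exact div_self (by rw [Real.cos_pi_div_six]; positivity)

theorem tJ_refl (x : ℝ) : Ht.tJ (Real.pi / 3 - x) = Ht.tJ x := by
  unfold Ht.tJ
  rw [← Real.cos_neg (Real.pi / 3 - x - Real.pi / 6)]
  congr 2
  ring

/-- **weights of a contour with one jump near the mark** -/
theorem wmk_cenv {P : Finset (ℤ × ℤ)} {m : ℕ} {g : ℤ → VZ} {j : ℤ → ℝ} {k : ℤ} {t : ℝ} (hc : Cont P m g)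
    (hj : ∀ v, j (v + m) = j v) (h0 : SixB.csum j 0 m = Real.pi / 3) (hF : FlatZ P κ (g k) R)
    (hg : ∀ i, -R ≤ i → i ≤ R → g (k + i) = fr κ (g k) i 0) (hR : 2 * R ≤ m)
    (hz : ∀ v, -R < v - k → v - k < R → v ≠ k → j v = 0) (ht : Ht.tJ (j k) = t) (ht1 : 1 ≤ t) :
    WMk (cenv P g m j) κ (g k) R t := by
  have hsd : ∀ i, -R ≤ i → i < R → wsd κ (g k) i = csd g (k + i) := by
    intro i h1 h2
    have e1 := hg i h1 h2.le
    have e2 := hg (i + 1) (by omega) (by omega)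
    unfold wsd csd
    rw [← e1, ← e2, add_assoc]
  have htlt : ∀ i i', -R ≤ i → i < i' → i' < R →
      (cenv P g m j).t (wsd κ (g k) i) (wsd κ (g k) i') = Ht.tJ (SixB.csum j (k + i) (k + i')) := by
    intro i i' h1 h2 h3
    rw [hsd i h1 (by omega), hsd i' (by omega) h3]
    exact (cenv_ts (F := P) hc hj h0 (by omega) (by omega)).1
  have heq : ∀ i i', -R ≤ i → i < i' → i' < R → (i < 0 ↔ i' < 0) →
      (cenv P g m j).t (wsd κ (g k) i) (wsd κ (g k) i') = 1 := by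
    intro i i' h1 h2 h3 h4
    rw [htlt i i' h1 h2 h3, csum_zero, tJ_zero]
    intro v h5 h6
    refine hz v (by omega) (by omega) fun h7 => ?_
    rw [h7] at h5 h6
    omega
  constructor
  · exact hF
  · exact ht1
  · intro i i' h1 h2 h3 h4
    rw [htlt i i' h1 (by omega) h4, csum_one (b := k) (by omega) (by omega), ht]
    intro v h5 h6 h7
    exact hz v (by omega) (by omega) h7
  · intro i i' h1 h2 h3 h4 h5
    rcases lt_trichotomy i i' with h6 | h6 | h6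
    · exact heq i i' h1 h6 h4 h5
    · rw [h6]
      show Ht.tJ _ = 1
      rw [min_self, max_self, csum_self, tJ_zero]
    · rw [WEnv.t_symm]
      exact heq i' i h3 h6 h2 h5.symm
  · intro i i' _ _ _ _
    exact DomX.abs_cs_le _ _ _ _ _ _

theorem jN_zero {M : ℕ} {b v : ℤ} (h : (0 < v - b ∧ v - b < M) ∨ (-(M : ℤ) < v - b ∧ v - b < 0)) :
    jN M b v = 0 := by
  unfold jN
  rw [if_neg]
  rintro ⟨c, hc⟩
  rw [hc] at h
  rcases h with ⟨h1, h2⟩ | ⟨h1, h2⟩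
  · have h3 : (0 : ℤ) < M := by omega
    have h4 : 0 < c := by
      by_contra h5
      push Not at h5
      have := mul_nonpos_of_nonneg_of_nonpos h3.le h5
      omega
    nlinarith
  · have h3 : (0 : ℤ) < M := by omega
    have h4 : c < 0 := by
      by_contra h5
      push Not at h5
      have := mul_nonneg h3.le h5
      omega
    nlinarith

theorem jN_self (M : ℕ) (b : ℤ) : jN M b b = Real.pi / 3 := by
  unfold jN
  rw [if_pos]
  rw [sub_self]
  exact dvd_zero _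

/-- **`envP` at the marks** -/
theorem wmk_envP {P : Finset (ℤ × ℤ)} {L : ℕ} {g : ℤ → VZ} (hc : Cont P L g) {t₂ t₂' t : ℝ}
    (h : t₂ < t₂') (h' : t₂' < t₂ + L) (ht : t = t₂ ∨ t = t₂') (f : Fl g t) :
    ∃ κ : ZMod 4, ∃ δ : ℝ, 0 < δ ∧ ∀ᶠ n : ℕ in atTop, ∀ α ∈ Set.Icc (0 : ℝ) 1, ∀ R : ℤ, 0 ≤ R →
      (R : ℝ) ≤ δ * n → WMk (envP P L g n α (ix n t₂) (ix n t₂')) κ (gr n g (ix n t)) R (DomX.tau α) ∧
        ∀ i, -R ≤ i → i ≤ R → gr n g (ix n t + i) = fr κ (gr n g (ix n t)) i 0 := by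
  obtain ⟨κ, δ₁, hδ₁, hfl⟩ := flat_near hc f
  have hL : (0 : ℝ) < L := by exact_mod_cast hc.pos
  obtain ⟨δ, hδ, e1, e2, e3, e4⟩ : ∃ δ : ℝ, 0 < δ ∧ δ ≤ δ₁ ∧ 4 * δ ≤ t₂' - t₂ ∧ 4 * δ ≤ t₂ + L - t₂' ∧
      4 * δ ≤ L := by
    refine ⟨min δ₁ (min ((t₂' - t₂) / 4) (min ((t₂ + L - t₂') / 4) (L / 4))), ?_, min_le_left _ _, ?_,
      ?_, ?_⟩
    · exact lt_min hδ₁ (lt_min (by linarith) (lt_min (by linarith) (by linarith)))
    · have := (min_le_right δ₁ (min ((t₂' - t₂) / 4) (min ((t₂ + L - t₂') / 4) ((L : ℝ) / 4)))).trans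
        (min_le_left _ _)
      linarith
    · have := (min_le_right δ₁ (min ((t₂' - t₂) / 4) (min ((t₂ + L - t₂') / 4) ((L : ℝ) / 4)))).trans
        ((min_le_right _ _).trans (min_le_left _ _))
      linarith
    · have := (min_le_right δ₁ (min ((t₂' - t₂) / 4) (min ((t₂ + L - t₂') / 4) ((L : ℝ) / 4)))).trans
        ((min_le_right _ _).trans (min_le_right _ _))
      linarith
  refine ⟨κ, δ, hδ, ?_⟩
  have hix := (ix_div t).eventually (Metric.ball_mem_nhds t hδ₁)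
  have hbig : ∀ᶠ n : ℕ in atTop, 2 < δ * (n : ℝ) := by
    have h1 : Tendsto (fun n : ℕ => δ * (n : ℝ)) atTop atTop :=
      tendsto_natCast_atTop_atTop.const_mul_atTop hδ
    exact h1.eventually_gt_atTop 2
  filter_upwards [hix, hbig, eventually_gt_atTop 0] with n h1 h2 hn α hα R hR0 hR
  have hn0 : (0 : ℝ) < n := by exact_mod_cast hn
  rw [Real.dist_eq] at h1
  obtain ⟨k1, k2⟩ := hfl n hn (ix n t) h1 R hR0
    (hR.trans (mul_le_mul_of_nonneg_right e1 hn0.le))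
  refine ⟨?_, k2⟩
  have hcn := CARf.cont_rf hc hn
  -- positions
  have f2 := Int.floor_le ((n : ℝ) * t₂)
  have f2l := Int.lt_floor_add_one ((n : ℝ) * t₂)
  have f3 := Int.floor_le ((n : ℝ) * t₂')
  have f3l := Int.lt_floor_add_one ((n : ℝ) * t₂')
  have m1 : n * (4 * δ) ≤ n * (t₂' - t₂) := mul_le_mul_of_nonneg_left e2 hn0.le
  have m2 : n * (4 * δ) ≤ n * (t₂ + L - t₂') := mul_le_mul_of_nonneg_left e3 hn0.le
  have m3 : n * (4 * δ) ≤ n * (L : ℝ) := mul_le_mul_of_nonneg_left e4 hn0.le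
  have p1 : R < ix n t₂' - ix n t₂ := by
    have : (R : ℝ) < (⌊(n : ℝ) * t₂'⌋ : ℝ) - ⌊(n : ℝ) * t₂⌋ := by nlinarith
    unfold ix
    exact_mod_cast this
  have p2 : ix n t₂' - ix n t₂ + R < (n * L : ℕ) := by
    have : (⌊(n : ℝ) * t₂'⌋ : ℝ) - ⌊(n : ℝ) * t₂⌋ + R < n * L := by nlinarith
    unfold ix
    exact_mod_cast this
  have p3 : 2 * R ≤ (n * L : ℕ) := by
    have : 2 * (R : ℝ) ≤ n * L := by nlinarith
    exact_mod_cast this
  have hM : 0 < n * L := Nat.mul_pos hn hc.pos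
  refine wmk_cenv hcn (jP_per _ _ _ _) (csum_jP hM _ _ _) k1 k2 p3 ?_ ?_ (DomX.one_le_tau hα)
  · intro v h3 h4 h5
    unfold jP
    rcases ht with rfl | rfl
    · rw [jN_zero (b := ix n t) (v := v) (by omega), jN_zero (b := ix n t₂') (v := v) (by omega)]
      ring
    · rw [jN_zero (b := ix n t₂) (v := v) (by omega), jN_zero (b := ix n t) (v := v) (by omega)]
      ring
  · unfold jP
    rcases ht with rfl | rfl
    · rw [jN_self, jN_zero (b := ix n t₂') (v := ix n t) (by omega), mul_zero, add_zero,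
        show (1 - α) * (Real.pi / 3) = Real.pi / 3 - α * (Real.pi / 3) by ring, tJ_refl]
      rfl
    · rw [jN_self, jN_zero (b := ix n t₂) (v := ix n t) (by omega), mul_zero, zero_add]
      rfl

/-! ### The full environments -/

theorem jX_subP {M : ℕ} {α : ℝ} {i j j' l k v : ℤ} (h : jP M α j j' v ≠ jX M α i j j' l k v) :
    jN M i v ≠ 0 ∨ jN M l v ≠ 0 ∨ jN M k v ≠ 0 ∨ jN M (k + 1) v ≠ 0 := by
  by_contra hc
  push Not at hc
  obtain ⟨h1, h2, h3, h4⟩ := hc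
  apply h
  unfold jX jP
  rw [h1, h2, h3, h4]
  ring

/-- a contour vertex is near its mark -/
theorem gr_fl {P : Finset (ℤ × ℤ)} {L : ℕ} {g : ℤ → VZ} (hc : Cont P L g) {n : ℕ} (hn : 0 < n) (t : ℝ) :
    GG.dd (gr n g (ix n t)) (fl n (gam g t)) ≤ 3 := by
  have hn0 : (0 : ℝ) < n := by exact_mod_cast hn
  rw [← CARf.fl_gam g hn]
  have h1 := CARf.gam_lip hc t ((ix n t : ℝ) / n)
  have h2 : |(ix n t : ℝ) / n - t| < 2 / n := by
    have f2 := Int.floor_le ((n : ℝ) * t)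
    have f2l := Int.lt_floor_add_one ((n : ℝ) * t)
    have e : (ix n t : ℝ) / n - t = ((ix n t : ℝ) - n * t) / n := by field_simp
    rw [e, abs_div, abs_of_pos hn0]
    refine div_lt_div_of_pos_right ?_ hn0
    unfold ix
    rw [abs_lt]
    constructor <;> linarith
  have h3 := GG.dd_fl (n := n) (h1.trans_lt h2)
  have e : (n : ℝ) * (2 / n) = 2 := by field_simp
  rw [e] at h3
  refine h3.trans ?_
  have : ⌈(2 : ℝ)⌉ = 2 := by
    exact_mod_cast Int.ceil_intCast (R := ℝ) 2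
  rw [this]
  norm_num

theorem br_dd {w w' : VZ} {r r' : ℤ} (h : GG.dd w w' + r ≤ r') : BR w r ⊆ BR w' r' := by
  intro f hf
  rw [mem_BR] at hf ⊢
  have h1 : |w.1 - w'.1| ≤ GG.dd w w' := le_max_left _ _
  have h2 : |w.2 - w'.2| ≤ GG.dd w w' := le_max_right _ _
  rw [abs_le] at h1 h2
  omega

/-- **the same weights near the marks** -/
theorem agr_envX {P : Finset (ℤ × ℤ)} {L : ℕ} {g : ℤ → VZ} (hP : MPoly P) (hc : Cont P L g)
    {t₁ t₂ t₂' t₃ t₄ t : ℝ} (hm : Marks5 L g t₁ t₂ t₂' t₃ t₄) (ht : t = t₂ ∨ t = t₂') :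
    ∃ ρ₀ : ℝ, 0 < ρ₀ ∧ ∀ ρ : ℝ, 0 < ρ → ρ ≤ ρ₀ → ∀ᶠ q in lka t₄, ∀ c : Bool,
      Agr (envP P L g q.1.1 q.2 (ix q.1.1 t₂) (ix q.1.1 t₂'))
        (envX P L g q.1.1 q.2 (ix q.1.1 t₁) (ix q.1.1 t₂) (ix q.1.1 t₂') (ix q.1.1 t₃)
          (if c then q.1.2 else q.1.2 - 1)) (BR (gr q.1.1 g (ix q.1.1 t)) ⌊ρ * q.1.1⌋) := by
  have hn := lka_n t₄
  have hk : Tendsto (fun q : (ℕ × ℤ) × ℝ => (q.1.2 : ℝ) / q.1.1) (lka t₄) (𝓝 t₄) :=
    (lk_k t₄).comp (lka_lk t₄)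
  have h1 := hm.h1
  have h2 := hm.h2
  have h3 := hm.h3
  have h4 := hm.h4
  have h5 := hm.h5
  have hT : ∀ s ∈ ({t₁, t₃, t₄} : Finset ℝ), gam g s ≠ gam g t := by
    intro s hs
    simp only [Finset.mem_insert, Finset.mem_singleton] at hs
    rcases hs with rfl | rfl | rfl
    · exact Third.gam_ne hc (by rcases ht with rfl | rfl <;> linarith)
        (by rcases ht with rfl | rfl <;> linarith)
    · exact (Third.gam_ne hc (by rcases ht with rfl | rfl <;> linarith)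
        (by rcases ht with rfl | rfl <;> linarith)).symm
    · exact (Third.gam_ne hc (by rcases ht with rfl | rfl <;> linarith)
        (by rcases ht with rfl | rfl <;> linarith)).symm
  obtain ⟨ρ₀, hρ₀, hs⟩ := GG.same_cenv hP hc {t₁, t₃, t₄} hT
  refine ⟨ρ₀ / 2, by linarith, fun ρ hρ hρ' => ?_⟩
  have hnr : Tendsto (fun q : (ℕ × ℤ) × ℝ => (q.1.1 : ℝ)) (lka t₄) atTop :=
    tendsto_natCast_atTop_atTop.comp hn
  filter_upwards [hn.eventually (hs ρ₀ hρ₀ le_rfl), hn.eventually_gt_atTop 0,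
    hnr.eventually_ge_atTop (8 / ρ₀), GG.near_jN (L := L) hn (ixn_div hn t₁) (T := {t₁, t₃, t₄}) (by simp) hρ₀,
    GG.near_jN (L := L) hn (ixn_div hn t₃) (T := {t₁, t₃, t₄}) (by simp) hρ₀,
    GG.near_jN (L := L) hn hk (T := {t₁, t₃, t₄}) (by simp) hρ₀,
    GG.near_jN (L := L) hn (GG.div_add_tendsto hn hk 1) (T := {t₁, t₃, t₄}) (by simp) hρ₀,
    GG.near_jN (L := L) hn (GG.div_add_tendsto hn hk (-1)) (T := {t₁, t₃, t₄}) (by simp) hρ₀]
    with q k1 k2 k3 k4 k5 k6 k7 k8 c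
  have hM : 0 < q.1.1 * L := Nat.mul_pos k2 hc.pos
  have hn0 : (0 : ℝ) < q.1.1 := by exact_mod_cast k2
  have key := k1 (jP (q.1.1 * L) q.2 (ix q.1.1 t₂) (ix q.1.1 t₂'))
    (jX (q.1.1 * L) q.2 (ix q.1.1 t₁) (ix q.1.1 t₂) (ix q.1.1 t₂') (ix q.1.1 t₃)
      (if c then q.1.2 else q.1.2 - 1)) (jP_per _ _ _ _) (jX_per _ _ _ _ _ _ _) (csum_jP hM _ _ _)
    (csum_jX hM _ _ _ _ _ _) (by
      intro v hv
      rcases jX_subP hv with h | h | h | h
      · exact k4 v h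
      · exact k5 v h
      · cases c with
        | true => exact k6 v h
        | false => exact k8 v h
      · cases c with
        | true => exact k7 v h
        | false =>
          simp only [Bool.false_eq_true, if_false, sub_add_cancel] at h
          exact k6 v h)
  have hsub : BR (gr q.1.1 g (ix q.1.1 t)) ⌊ρ * q.1.1⌋ ⊆ BR (fl q.1.1 (gam g t)) ⌊ρ₀ * q.1.1⌋ := by
    refine br_dd ?_
    have h6 := gr_fl hc k2 t
    have h7 : ⌊ρ * (q.1.1 : ℝ)⌋ + 3 ≤ ⌊ρ₀ * (q.1.1 : ℝ)⌋ := by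
      rw [Int.le_floor]
      push_cast
      have h8 := Int.floor_le (ρ * (q.1.1 : ℝ))
      rw [div_le_iff₀ hρ₀] at k3
      have h9 : ρ * (q.1.1 : ℝ) ≤ ρ₀ / 2 * q.1.1 := mul_le_mul_of_nonneg_right hρ' hn0.le
      linarith
    omega
  intro a ha b hb hA hB
  exact key a ha b hb (hA.mono hsub) (hB.mono hsub)

/-! ### The local form of the weight -/

theorem WMk.loc {E0 E : WEnv} {R : ℤ} {t : ℝ} {r₀ : ℤ} (hw : WMk E0 κ v R t) (hr : r₀ < R)
    (D : LData ZQ E0.F (ovr (fun i => fr κ v i 0) R)) (hB0 : D.Bx 0 = E0.F ∩ BR v r₀)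
    (hF : E.F = E0.F) (hag : Agr E0 E (E0.F ∩ BR v r₀)) : D.Loc t E.W := by
  have hW : E.W = Wt ZQ E0.F E.T := by
    rw [← hF]
    rfl
  have key : ∀ a ∈ wall ZQ E0.F (D.Bx 0), ∃ i, -r₀ ≤ i ∧ i < r₀ ∧ a = wsd κ v i := by
    intro a ha
    rw [hB0] at ha
    obtain ⟨h1, h2⟩ := mem_wall.mp ha
    exact hw.box hr h1 h2
  have hT : ∀ a ∈ wall ZQ E0.F (D.Bx 0), ∀ b' ∈ wall ZQ E0.F (D.Bx 0),
      E.T s(a, b') = E0.t a b' := by
    intro a ha b' hb'
    rw [hB0] at ha hb'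
    obtain ⟨h1, h2⟩ := mem_wall.mp ha
    obtain ⟨h3, h4⟩ := mem_wall.mp hb'
    exact (hag a h1 b' h3 h2 h4).1
  have h1 : ∀ a ∈ wall ZQ E0.F (D.Bx 0), ∀ b ∈ wall ZQ E0.F (D.Bx 0),
      ovr (fun i => fr κ v i 0) R s(a, b) → E.T s(a, b) = t := by
    rintro a ha b' hb' ⟨i, i', h1, h2, h3, h4, h5⟩
    rw [hT a ha b' hb']
    rw [Sym2.eq_iff] at h5
    rcases h5 with ⟨rfl, rfl⟩ | ⟨rfl, rfl⟩
    · exact hw.ov i i' h1 h2 h3 h4
    · rw [E0.t_symm]
      exact hw.ov i i' h1 h2 h3 h4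
  have h2 : ∀ a ∈ wall ZQ E0.F (D.Bx 0), ∀ b ∈ wall ZQ E0.F (D.Bx 0),
      ¬ ovr (fun i => fr κ v i 0) R s(a, b) → E.T s(a, b) = 1 := by
    intro a ha b' hb' hov
    rw [hT a ha b' hb']
    obtain ⟨i, k1, k2, rfl⟩ := key a ha
    obtain ⟨i', k3, k4, rfl⟩ := key b' hb'
    refine hw.eq i i' (by omega) (by omega) (by omega) (by omega) ?_
    by_contra hc
    apply hov
    rcases lt_or_ge i 0 with h6 | h6
    · exact ⟨i, i', by omega, h6, by
        by_contra h7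
        exact hc ⟨fun _ => by omega, fun _ => h6⟩, by omega, rfl⟩
    · exact ⟨i', i, by omega, by
        by_contra h7
        exact hc ⟨fun h8 => by omega, fun h8 => absurd h8 h7⟩, h6, by omega, Sym2.eq_swap⟩
  rw [hW]
  have h3 := LData.Loc.wt (D := D) (t := t) (τ := E.T) h1 h2
  exact h3

/-! ### Families -/

theorem uF_hF {ι : Type} {s : Finset ι} {E : ι → WEnv} (hF : ∀ i ∈ s, (E i).F = F) (z w : VZ) :
    uF s E F z w = GG.hF s E z w := by
  have e1 : av F (hT s E z w) = ∑ k ∈ s, (E k).hM z w := by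
    have h1 : av F (hT s E z w) = ∑ k ∈ s, av F (fun ω => HS (E k) ω z - HS (E k) ω w) :=
      av_sum s fun k ω => HS (E k) ω z - HS (E k) ω w
    rw [h1]
    refine Finset.sum_congr rfl fun k hk => ?_
    rw [GG.hM_HS, hF k hk]
  have e2 : av F (wT s E) = ∑ k ∈ s, (E k).Z := by
    have h1 : av F (wT s E) = ∑ k ∈ s, av F (fun ω => (E k).W ω) := av_sum s fun k ω => (E k).W ω
    rw [h1]
    refine Finset.sum_congr rfl fun k hk => ?_
    have h2 : (E k).Z = av (E k).F (fun ω => (E k).W ω) := rfl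
    rw [h2, hF k hk]
  show av F (hT s E z w) / av F (wT s E) = (∑ k ∈ s, (E k).hM z w) / ∑ k ∈ s, (E k).Z
  rw [e1, e2]

end HG

end

end Pool.Agent.SixB
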