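import Pool.Agent.Lib.SixB.S6LHgtK
import Pool.Agent.Lib.SixB.CALatD

/-!
# 6BD, block CA-L, row L6: heights by scale, part 12 (the field `xpL`)

* `MjE D t E B`: majorants of product form of the weight and of the arrow numerators of `E`.
* `MarkMaj`: majorants of `envP`, `envX` at the marks `a2`, `a2'`.
* `xpL_of : MarkMaj → XpL`.
-/

set_option autoImplicit false
set_option linter.unusedSectionVars false

namespace Pool.Agent.SixB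

open Pool.Agent.Perc Pool.Agent.Perc.Q Relation Pool.Agent.SixB.Tilt PercD PercN Filter Topology

noncomputable section

namespace HG

/-- majorants of product form of the weight and of the arrow numerators -/
def MjE {F : Finset (ℤ × ℤ)} {ov : Sym2 DZ → Prop} (D : LData ZQ F ov) (t : ℝ) (E : WEnv) (B : ℝ) : Prop :=
  ∃ (H : Cfg → ℝ) (kh A : ℝ), (D.sys 1 1 le_rfl).Mj t H kh A ∧ kh * A ≤ B ∧ (∀ ω, |E.W ω| ≤ H ω) ∧
    ∀ ω, ∀ e ∈ dE ZQ (D.Bx 0), |E.num ω e| ≤ H ω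

/-- majorants of the environment `E` at the contour vertex `j`, box of radius `r₀`, up to the factor `Mc` -/
def MjAt (F : Finset (ℤ × ℤ)) (w : ℤ → VZ) (j : ℤ) (b r₀ : ℕ) (R : ℤ) (t : ℝ) (E : WEnv) (Mc : ℝ) : Prop :=
  ∀ (κ : ZMod 4) (hP : HasPotQ ZQ F) (hF : FlatZ F κ (w j) R) (hb : 2 ≤ b) (hr : (r₀ : ℤ) < R),
    (∀ i, -R ≤ i → i ≤ R → w (j + i) = fr κ (w j) i 0) →
      0 < E.Z ∧ MjE (LI.ldat hP hF hb hr) t E (Mc * E.Z)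

/-- majorants at the marks `a2`, `a2'`: the box has the radius `⌊ρ n⌋`, `R ≤ ρ₀ n` -/
def MarkMaj : Prop := ∀ (P : Finset (ℤ × ℤ)) (L : ℕ) (g : ℤ → VZ), MPoly P → Cont P L g →
  ∀ t₁ t₂ t₂' t₃ t₄ t : ℝ, Marks5 L g t₁ t₂ t₂' t₃ t₄ → (t = t₂ ∨ t = t₂') → ∀ b : ℕ, 2 ≤ b →
  ∃ ρ₀ : ℝ, 0 < ρ₀ ∧ ∀ ρ : ℝ, 0 < ρ → ρ ≤ ρ₀ → ∃ Mc : ℝ, 0 ≤ Mc ∧
    ∀ᶠ q : (ℕ × ℤ) × ℝ in lka t₄, ∀ R : ℤ, (R : ℝ) ≤ ρ₀ * q.1.1 →
      MjAt (rf q.1.1 P) (gr q.1.1 g) (ix q.1.1 t) b ⌊ρ * (q.1.1 : ℝ)⌋₊ R (DomX.tau q.2)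
        (envP P L g q.1.1 q.2 (ix q.1.1 t₂) (ix q.1.1 t₂')) Mc ∧
      ∀ c : Bool, MjAt (rf q.1.1 P) (gr q.1.1 g) (ix q.1.1 t) b ⌊ρ * (q.1.1 : ℝ)⌋₊ R (DomX.tau q.2)
        (envX P L g q.1.1 q.2 (ix q.1.1 t₁) (ix q.1.1 t₂) (ix q.1.1 t₂') (ix q.1.1 t₃)
          (if c then q.1.2 else q.1.2 - 1)) Mc

/-- a family of environments with majorants -/
theorem mfam_of {ι : Type} {s : Finset ι} {E : ι → WEnv} {E0 : WEnv} {κ : ZMod 4} {v : VZ} {R : ℤ}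
    {t Mc : ℝ} {r₀ : ℤ} (hw : WMk E0 κ v R t) (hr : r₀ < R)
    (D : LData ZQ E0.F (Tilt.ovr (fun i => fr κ v i 0) R)) (hB0 : D.Bx 0 = E0.F ∩ BR v r₀) (hMc : 0 ≤ Mc)
    (hs : s.Nonempty) (hF : ∀ i ∈ s, (E i).F = E0.F)
    (hag : ∀ i ∈ s, Agr E0 (E i) (E0.F ∩ BR v r₀)) (hZ : ∀ i ∈ s, 0 < (E i).Z)
    (hM : ∀ i ∈ s, MjE D t (E i) (Mc * (E i).Z)) :
    MFam D t (MjD D t) s E Mc (∑ i ∈ s, (E i).Z) where
  hF := hF
  agr := fun i hi => by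
    rw [hB0]
    exact hag i hi
  loc := fun i hi => hw.loc hr D hB0 (hF i hi) (hag i hi)
  K0 := Finset.sum_pos hZ hs
  KZ := by
    have h1 : av E0.F (wT s E) = ∑ k ∈ s, av E0.F (fun ω => (E k).W ω) := av_sum s fun k ω => (E k).W ω
    rw [h1]
    refine le_of_eq (Finset.sum_congr rfl fun k hk => ?_)
    have h2 : (E k).Z = av (E k).F (fun ω => (E k).W ω) := rfl
    rw [h2, hF k hk]
  CW0 := hMc
  maj := by
    classical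
    have h : ∀ i : ι, ∃ H : Cfg → ℝ, i ∈ s → MjD D t H (Mc * (E i).Z) ∧ (∀ ω, |(E i).W ω| ≤ H ω) ∧
        ∀ ω, ∀ e ∈ dE ZQ (D.Bx 0), |(E i).num ω e| ≤ H ω := by
      intro i
      by_cases hi : i ∈ s
      · obtain ⟨H, kh, A, h1, h2, h3, h4⟩ := hM i hi
        exact ⟨H, fun _ => ⟨⟨kh, A, h1, h2⟩, h3, h4⟩⟩
      · exact ⟨fun _ => 0, fun h => absurd h hi⟩
    choose H hH using h
    exact ⟨H, fun i => Mc * (E i).Z, by rw [Finset.mul_sum], fun i hi => hH i hi⟩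

/-- the flat step at a mark for two families with majorants, in terms of `GG.hF` -/
theorem mark_hF (T : ℝ) (hT : 1 ≤ T) : ∃ b : ℕ, 2 ≤ b ∧ ∃ C κ' : ℝ, 0 < C ∧ 0 < κ' ∧ κ' < 1 ∧
    ∀ (F : Finset (ℤ × ℤ)) (E0 : WEnv) (EX : Bool → WEnv) (k : ZMod 4) (v : VZ) (R : ℤ) (t Mc : ℝ) (r₀ : ℕ)
      (hP : HasPotQ ZQ F) (hfl : FlatZ F k v R) (hb : 2 ≤ b) (hr : (r₀ : ℤ) < R), E0.F = F →
      WMk E0 k v R t → t ≤ T → 0 < r₀ →
      (r₀ : ℤ) + 1 < R → 0 ≤ Mc → 0 < E0.Z → MjE (LI.ldat hP hfl hb hr) t E0 (Mc * E0.Z) →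
      (∀ c, (EX c).F = F) → (∀ c, Agr E0 (EX c) (F ∩ BR v r₀)) → (∀ c, 0 < (EX c).Z) →
      (∀ c, MjE (LI.ldat hP hfl hb hr) t (EX c) (Mc * (EX c).Z)) →
      ∀ (z : VZ) (l : ℕ), GG.IsV F z → 5 ≤ l → GG.dd z v ≤ LI.rl b r₀ l →
        |GG.hF (Finset.univ : Finset Bool) EX z v - GG.hF ({()} : Finset Unit) (fun _ => E0) z v| ≤
          C * (Mc + Mc) * κ' ^ l := by
  obtain ⟨b, hb2, hmf⟩ := mark_flat T hT
  obtain ⟨C, κ', hC, hκ0, hκ1, hmf⟩ := hmf b le_rfl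
  refine ⟨b, hb2, C, κ', hC, hκ0, hκ1, ?_⟩
  intro F E0 EX k v R t Mc r₀ hP hfl hb hr hF0 hw htT hr0 hrR hMc hZ hM hF hag hZX hMX z l hz hl hd
  subst hF0
  have hB0 : (LI.ldat hP hw.flat hb hr).Bx 0 = E0.F ∩ BR v r₀ := by
    have h := LI.ldat_Bx hP hw.flat hb hr 0
    rw [LI.rl_zero] at h
    exact h
  have hFX := mfam_of hw hr (LI.ldat hP hw.flat hb hr) hB0 hMc
    (Finset.univ_nonempty : (Finset.univ : Finset Bool).Nonempty) (fun i _ => hF i)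
    (fun i _ => hag i) (fun i _ => hZX i) (fun i _ => hMX i)
  have hFP := mfam_of (ι := Unit) (s := {()}) (E := fun _ => E0) hw hr (LI.ldat hP hw.flat hb hr) hB0 hMc
    (Finset.singleton_nonempty _) (fun _ _ => rfl) (fun _ _ _ _ _ _ _ _ => ⟨rfl, rfl⟩) (fun _ _ => hZ)
    (fun _ _ => hM)
  have h1 := hmf hP hw hb hr htT hr0 hrR hFX hFP z l hz hl ((le_max_left _ _).trans hd)
    ((le_max_right _ _).trans hd)
  rwa [uF_hF (fun i _ => hF i), uF_hF (fun i _ => rfl)] at h1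

/-- the point functions near a mark lie in the box of depth `l` -/
theorem dd_mark {P : Finset (ℤ × ℤ)} {L : ℕ} {g : ℤ → VZ} (hc : Cont P L g) {n : ℕ} (hn0 : 0 < n)
    {t ρ : ℝ} {b l r₀ : ℕ} (hb : 1 ≤ b) (hρ : 0 < ρ) (hr₀ : ρ * (n : ℝ) < r₀ + 1)
    (hbig : 16 * (b : ℝ) ^ l / ρ ≤ n) {z : ℂ} (hzp : ‖z - gam g t‖ < ρ / (2 * b ^ l)) :
    GG.dd (fl n z) (gr n g (ix n t)) ≤ LI.rl b r₀ l := by
  have hn1 : (0 : ℝ) < n := by exact_mod_cast hn0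
  have hbl1 : (1 : ℝ) ≤ (b : ℝ) ^ l := by
    refine one_le_pow₀ ?_
    exact_mod_cast hb
  have hbl : (0 : ℝ) < (b : ℝ) ^ l := by linarith
  have hbig' : 16 * (b : ℝ) ^ l ≤ ρ * n := by
    rw [div_le_iff₀ hρ] at hbig
    linarith
  have h1 := GG.dd_fl (n := n) hzp
  have h2 := gr_fl hc hn0 t
  have h3 : GG.dd (fl n z) (gr n g (ix n t)) ≤ GG.dd (fl n z) (fl n (gam g t)) + 3 := by
    have k1 : |(fl n z).1 - (fl n (gam g t)).1| ≤ GG.dd (fl n z) (fl n (gam g t)) := le_max_left _ _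
    have k2 : |(fl n z).2 - (fl n (gam g t)).2| ≤ GG.dd (fl n z) (fl n (gam g t)) := le_max_right _ _
    have k3 : |(gr n g (ix n t)).1 - (fl n (gam g t)).1| ≤ 3 := (le_max_left _ _).trans h2
    have k4 : |(gr n g (ix n t)).2 - (fl n (gam g t)).2| ≤ 3 := (le_max_right _ _).trans h2
    rw [abs_le] at k1 k2 k3 k4
    refine max_le ?_ ?_
    · rw [abs_le]
      omega
    · rw [abs_le]
      omega
  have h4 : ((GG.dd (fl n z) (gr n g (ix n t)) : ℤ) : ℝ) ≤ n * (ρ / (2 * b ^ l)) + 5 := by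
    have h5 : (⌈(n : ℝ) * (ρ / (2 * b ^ l))⌉ : ℝ) < n * (ρ / (2 * b ^ l)) + 1 := Int.ceil_lt_add_one _
    have h6 : ((GG.dd (fl n z) (gr n g (ix n t)) : ℤ) : ℝ) ≤
        ((⌈(n : ℝ) * (ρ / (2 * b ^ l))⌉ + 1 + 3 : ℤ) : ℝ) := by
      exact_mod_cast h3.trans (add_le_add h1 le_rfl)
    push_cast at h6
    linarith
  have h5 : n * (ρ / (2 * b ^ l)) + 5 ≤ ((LI.rl b r₀ l : ℕ) : ℝ) := by
    have h6 : (r₀ : ℝ) < b ^ l * ((LI.rl b r₀ l : ℕ) + 1) := by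
      have h7 : r₀ < b ^ l * (LI.rl b r₀ l + 1) := by
        unfold LI.rl
        exact Nat.lt_mul_div_succ _ (by positivity)
      exact_mod_cast h7
    have h8 : ρ * n - 1 < b ^ l * ((LI.rl b r₀ l : ℕ) + 1) := by linarith
    have h9 : (ρ * n - 1) / b ^ l < (LI.rl b r₀ l : ℕ) + 1 := by
      rw [div_lt_iff₀ hbl]
      linarith
    have e : n * (ρ / (2 * (b : ℝ) ^ l)) = ρ * n / b ^ l / 2 := by field_simp
    have h10 : (ρ * n - 1) / (b : ℝ) ^ l = ρ * n / b ^ l - 1 / b ^ l := by ring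
    have h11 : 1 / (b : ℝ) ^ l ≤ 1 := by
      rw [div_le_one hbl]
      exact hbl1
    have h12 : 16 ≤ ρ * n / (b : ℝ) ^ l := by
      rw [le_div_iff₀ hbl]
      linarith
    rw [e]
    rw [h10] at h9
    linarith
  have h6 : ((GG.dd (fl n z) (gr n g (ix n t)) : ℤ) : ℝ) ≤ ((LI.rl b r₀ l : ℕ) : ℝ) := h4.trans h5
  exact_mod_cast h6

/-- two points from one -/
theorem two_pts {ι ι' : Type} (s : Finset ι) (E : ι → WEnv) (s' : Finset ι') (E' : ι' → WEnv)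
    (z w v o : VZ) {η : ℝ}
    (h1 : |GG.hF s E z v - GG.hF s' E' z v| ≤ η) (h2 : |GG.hF s E w v - GG.hF s' E' w v| ≤ η) :
    |GG.hF s E z o - GG.hF s' E' z o - (GG.hF s E w o - GG.hF s' E' w o)| ≤ 2 * η := by
  have e1 := GG.hF_sub s E z v o
  have e2 := GG.hF_sub s E w v o
  have e3 := GG.hF_sub s' E' z v o
  have e4 := GG.hF_sub s' E' w v o
  rw [abs_le] at *
  constructor <;> linarith

/-- **Field `xpL`** -/
theorem xpL_of (hMM : MarkMaj) : XpL := by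
  intro P L g hP hc t₁ t₂ t₂' t₃ t₄ hm w hw
  obtain ⟨t, ht, rfl⟩ : ∃ t, (t = t₂ ∨ t = t₂') ∧ w = gam g t := by
    rcases hw with h | h
    · exact ⟨t₂, Or.inl rfl, h⟩
    · exact ⟨t₂', Or.inr rfl, h⟩
  have hft : Fl g t := by
    rcases ht with rfl | rfl
    · exact hm.f2
    · exact hm.f2'
  obtain ⟨b, hb2, C, κ', hC, hκ0, hκ1, hmf⟩ := mark_hF DomX.qq DomX.one_le_qq
  obtain ⟨ρ₁, hρ₁, hMM⟩ := hMM P L g hP hc t₁ t₂ t₂' t₃ t₄ t hm ht b hb2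
  obtain ⟨κ, δ₁, hδ₁, hwm⟩ := wmk_envP hc hm.h2 (by linarith [hm.h1, hm.h3, hm.h4, hm.h5]) ht hft
  obtain ⟨ρ₂, hρ₂, hag⟩ := agr_envX hP hc hm ht
  -- the scale
  obtain ⟨ρ', hρ', q1, q2, q3⟩ : ∃ ρ' : ℝ, 0 < ρ' ∧ ρ' ≤ ρ₁ ∧ ρ' ≤ δ₁ ∧ ρ' ≤ ρ₂ :=
    ⟨min ρ₁ (min δ₁ ρ₂), lt_min hρ₁ (lt_min hδ₁ hρ₂), min_le_left _ _,
      (min_le_right _ _).trans (min_le_left _ _), (min_le_right _ _).trans (min_le_right _ _)⟩
  obtain ⟨ρ, hρ, hρd⟩ : ∃ ρ : ℝ, 0 < ρ ∧ ρ' = 2 * ρ := ⟨ρ' / 2, by linarith, by ring⟩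
  have hρρ : ρ ≤ ρ' := by linarith
  obtain ⟨Mc, hMc, hMM⟩ := hMM ρ hρ (hρρ.trans q1)
  intro ε hε
  -- the depth
  obtain ⟨l, hl5, hlε⟩ : ∃ l : ℕ, 5 ≤ l ∧ 2 * (C * (Mc + Mc) * κ' ^ l) ≤ ε := by
    have h1 : Tendsto (fun l : ℕ => 2 * (C * (Mc + Mc) * κ' ^ l)) atTop (𝓝 (2 * (C * (Mc + Mc) * 0))) :=
      ((tendsto_pow_atTop_nhds_zero_of_lt_one hκ0.le hκ1).const_mul _).const_mul _
    rw [mul_zero, mul_zero] at h1
    obtain ⟨l, h2, h3⟩ := ((h1.eventually (gt_mem_nhds hε)).and (eventually_ge_atTop 5)).exists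
    exact ⟨l, h3, h2.le⟩
  have hbl : (0 : ℝ) < (b : ℝ) ^ l := by
    have : (0 : ℝ) < b := by exact_mod_cast (by omega : 0 < b)
    positivity
  have hbl1 : (1 : ℝ) ≤ (b : ℝ) ^ l := by
    refine one_le_pow₀ ?_
    exact_mod_cast (by omega : 1 ≤ b)
  refine ⟨ρ / (2 * b ^ l), by positivity, ?_⟩
  have hn := lka_n t₄
  have hnr : Tendsto (fun q : (ℕ × ℤ) × ℝ => (q.1.1 : ℝ)) (lka t₄) atTop :=
    tendsto_natCast_atTop_atTop.comp hn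
  have hα : ∀ᶠ q in lka t₄, q.2 ∈ Set.Icc (0 : ℝ) 1 :=
    eventually_prod_principal_iff.2 (Eventually.of_forall fun _ _ h => h)
  filter_upwards [hMM, hn.eventually hwm, hag ρ hρ (hρρ.trans q3), hn.eventually_gt_atTop 0,
    hnr.eventually_ge_atTop (16 * (b : ℝ) ^ l / ρ), hα]
  rintro ⟨⟨n, k⟩, α⟩ hMM hwm hag hn0 hbig hα z hz w hw hzp hwp
  dsimp only at hMM hwm hag hn0 hbig hα ⊢
  have hn1 : (0 : ℝ) < n := by exact_mod_cast hn0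
  have hbig' : 16 * (b : ℝ) ^ l ≤ ρ * n := by
    rw [div_le_iff₀ hρ] at hbig
    linarith
  have hR1 := Int.floor_le (ρ' * (n : ℝ))
  have hR2 := Int.lt_floor_add_one (ρ' * (n : ℝ))
  have hr1 : ((⌊ρ * (n : ℝ)⌋₊ : ℕ) : ℝ) ≤ ρ * n := Nat.floor_le (by positivity)
  have hr2 : ρ * n < (⌊ρ * (n : ℝ)⌋₊ : ℕ) + 1 := Nat.lt_floor_add_one _
  have hfl : ((⌊ρ * (n : ℝ)⌋₊ : ℕ) : ℤ) ≤ ⌊ρ * (n : ℝ)⌋ := by
    rw [Int.le_floor]
    exact_mod_cast hr1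
  generalize ⌊ρ' * (n : ℝ)⌋ = R at hR1 hR2
  generalize hr₀ : ⌊ρ * (n : ℝ)⌋₊ = r₀ at hr1 hr2 hfl
  rw [hr₀] at hMM
  have hR0 : 0 ≤ R := by
    have : (0 : ℝ) < (R : ℝ) + 1 := by
      have : 0 < ρ' * (n : ℝ) := by positivity
      linarith
    have : (0 : ℤ) < R + 1 := by exact_mod_cast this
    omega
  have hrR : (r₀ : ℤ) + 1 < R := by
    have : (r₀ : ℝ) + 1 < R := by
      have e : ρ' * (n : ℝ) = 2 * (ρ * n) := by rw [hρd]; ring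
      nlinarith
    exact_mod_cast this
  have hr : (r₀ : ℤ) < R := by omega
  have hr0 : 0 < r₀ := by
    have : (0 : ℝ) < r₀ := by linarith
    exact_mod_cast this
  obtain ⟨hW, hrun⟩ := hwm α hα R hR0 (hR1.trans (mul_le_mul_of_nonneg_right q2 hn1.le))
  have hPn := CARf.mpoly_rf hP hn0
  have hpot : HasPotQ ZQ (rf n P) := hPn.potQ
  obtain ⟨hPP, hX⟩ := hMM R (hR1.trans (mul_le_mul_of_nonneg_right q1 hn1.le))
  obtain ⟨hZP, hMP⟩ := hPP κ hpot hW.flat hb2 hr hrun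
  have hX' := fun c => hX c κ hpot hW.flat hb2 hr hrun
  have hag' := fun c => (hag c).mono ((Finset.inter_subset_right (s₁ := rf n P)).trans (Sub.refl' hfl).subset)
  have hkey := hmf (rf n P) (envP P L g n α (ix n t₂) (ix n t₂'))
    (fun c => envX P L g n α (ix n t₁) (ix n t₂) (ix n t₂') (ix n t₃) (if c then k else k - 1))
    κ (gr n g (ix n t)) R (DomX.tau α) Mc r₀ hpot hW.flat hb2 hr rfl hW (DomX.tau_le α) hr0 hrR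
    hMc hZP hMP (fun _ => rfl) hag' (fun c => (hX' c).1) (fun c => (hX' c).2)
  have k1 := hkey (fl n z) l (GG.isV_fl hn0 hz) hl5 (dd_mark hc hn0 (by omega) hρ hr2 hbig hzp)
  have k2 := hkey (fl n w) l (GG.isV_fl hn0 hw) hl5 (dd_mark hc hn0 (by omega) hρ hr2 hbig hwp)
  rw [GG.uX_hF P L g n α (ix n t₁) (ix n t₂) (ix n t₂') (ix n t₃) k (fl n z),
    GG.uX_hF P L g n α (ix n t₁) (ix n t₂) (ix n t₂') (ix n t₃) k (fl n w),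
    GG.uP_hF P L g n α (ix n t₂) (ix n t₂') (fl n z), GG.uP_hF P L g n α (ix n t₂) (ix n t₂') (fl n w)]
  exact (two_pts _ _ _ _ _ _ _ _ k1 k2).trans hlε

end HG

end

end Pool.Agent.SixB
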