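import Pool.Agent.Lib.SixB.S6LSys

/-!
# SixB, input L: environments through a majorant of product form

`Mj S t H kh A`: `H ≤ h * (Y * t ^ N 0)` with `h` a function of the faces off the box `0`, `Y` of the faces off the
box `1`, `E (h Y²) ≤ kh² E h` and `E h * E t ^ N 0 ≤ A`.
* `Mj.tail_obs`: `E (H b0_s f0) ≤ 2 kh T^m CM Cf eta^s A` for `f0` a function of the faces of `B s` off `B (s+2)`;
* `env_of_maj`: the structure `Env` of `S6LFin`;
* `Tilt.decouple_maj`: the decoupling theorem for weights with such majorants.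
-/

set_option autoImplicit false
set_option linter.unusedVariables false

namespace Pool.Agent.SixB

open Finset

namespace LSys

variable {Ω ι : Type*} {P : ExpSys Ω ι} (S : LSys P)

/-- majorant of product form -/
structure Mj (t : ℝ) (H : Ω → ℝ) (kh A : ℝ) : Prop where
  kh0 : 0 ≤ kh
  nn : ∀ ω, 0 ≤ H ω
  ex : ∃ h Y : Ω → ℝ, (∀ ω, 0 ≤ h ω) ∧ P.Dep (S.B 0)ᶜ h ∧ (∀ ω, 0 ≤ Y ω) ∧ P.Dep (S.B 1)ᶜ Y ∧
    (∀ ω, H ω ≤ h ω * (Y ω * t ^ S.N 0 ω)) ∧ P.E (fun ω => h ω * Y ω ^ 2) ≤ kh ^ 2 * P.E h ∧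
    P.E h * S.F t 0 ≤ A

variable {S} {t T : ℝ} {m : ℕ} {dz eta ka CM : ℝ}

/-- the weight and the bad levels from the level `0` on, pointwise -/
theorem bad_pt0 (hG : S.Good t T m dz eta ka CM) (s : ℕ) (ω : Ω) :
    t ^ S.N 0 ω * S.b0 s ω ≤ (∏ i ∈ range s, S.X i ω) * t ^ S.N s ω := by
  have ht0 : (0 : ℝ) ≤ t := by linarith [hG.ht]
  induction s with
  | zero => simp [b0]
  | succ s ih =>
    have e : S.b0 (s + 1) ω = S.b0 s ω * (1 - gi (S.G s) ω) := by
      unfold b0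
      rw [Finset.prod_range_succ]
    rw [e, Finset.prod_range_succ]
    by_cases h : ω ∈ S.G s
    · rw [gi_mem h, sub_self, mul_zero, mul_zero]
      exact mul_nonneg (mul_nonneg (Finset.prod_nonneg fun i _ => S.hX0 _ ω) (S.hX0 _ ω))
        (pow_nonneg ht0 _)
    · rw [gi_notMem h, sub_zero, mul_one]
      refine ih.trans ?_
      rw [mul_assoc]
      exact mul_le_mul_of_nonneg_left (hG.hX1 s ω h) (Finset.prod_nonneg fun i _ => S.hX0 _ ω)

/-- **chain estimate for a majorant of product form** -/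
theorem maj_chain (hG : S.Good t T m dz eta ka CM) {kh : ℝ} (hkh : 0 ≤ kh) {h Y : Ω → ℝ}
    (hh0 : ∀ ω, 0 ≤ h ω) (hh : P.Dep (S.B 0)ᶜ h) (hY0 : ∀ ω, 0 ≤ Y ω) (hY : P.Dep (S.B 1)ᶜ Y)
    (hhY : P.E (fun ω => h ω * Y ω ^ 2) ≤ kh ^ 2 * P.E h) {f0 : Ω → ℝ} {Cf : ℝ} (hCf : 0 ≤ Cf)
    (hf0 : ∀ ω, 0 ≤ f0 ω) (s : ℕ) (hf : P.Dep (S.B s \ S.B (s + 2)) f0)
    (hfm : P.E (fun ω => f0 ω ^ 8) ≤ Cf ^ 8) :
    P.E (fun ω => h ω * (Y ω * t ^ S.N 0 ω) * S.b0 s ω * f0 ω) ≤
      2 * kh * T ^ m * CM * Cf * eta ^ s * (P.E h * S.F t 0) := by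
  have ht := hG.ht
  have ht0 : (0 : ℝ) ≤ t := by linarith
  have hT0 : (0 : ℝ) ≤ T := ht0.trans hG.htT
  have hCM0 : 0 ≤ CM := by linarith [hG.CM1]
  have heta0 := hG.eta0.le
  -- the shifted chain
  set B' : ℕ → Set ι := fun i => Nat.casesOn i Set.univ S.B with hB'
  set N' : ℕ → Ω → ℕ := fun i => Nat.casesOn i (S.N 0) S.N with hN'
  set M' : ℕ → Ω → ℕ := fun i => Nat.casesOn i (fun _ => 0) S.M with hM'
  set g : ℕ → Ω → ℝ := fun i => Nat.casesOn i (fun _ => 1)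
    (fun i => if i = s then fun ω => f0 ω * T ^ S.M s ω else S.X i) with hg
  set d : ℕ → ℝ := fun i => Nat.casesOn i 1 (fun i => if i = s then Cf * CM else eta) with hd
  have hB0 : ∀ j, B' (j + 1) ⊆ B' j := by
    intro j
    cases j with
    | zero => exact Set.subset_univ _
    | succ j => exact S.hB j
  have hNd : ∀ j, P.Dep (B' j) (N' j) := by
    intro j
    cases j with
    | zero => exact (S.hN 0).mono (Set.subset_univ _)
    | succ j => exact S.hN j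
  have hMd : ∀ j, P.Dep (B' j \ B' (j + 2)) (M' j) := by
    intro j
    cases j with
    | zero => exact ExpSys.Dep.const _ 0
    | succ j => exact S.hM j
  have hN1 : ∀ j ω, N' (j + 1) ω ≤ N' j ω := by
    intro j ω
    cases j with
    | zero => exact le_rfl
    | succ j => exact S.hN1 j ω
  have hN2 : ∀ j ω, N' j ω ≤ N' (j + 1) ω + M' j ω := by
    intro j ω
    cases j with
    | zero => exact Nat.le_add_right _ _
    | succ j => exact S.hN2 j ω
  have hJ : ∀ j, S.J + 1 ≤ j → ∀ ω, N' j ω = 0 := by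
    intro j hj ω
    cases j with
    | zero => omega
    | succ j => exact S.hJ j (by omega) ω
  have hZ : ∀ j, P.E (fun ω => if m < M' j ω then T ^ (4 * M' j ω) else 0) ≤ dz ^ 4 := by
    intro j
    cases j with
    | zero =>
      have e : (fun ω => if m < M' 0 ω then T ^ (4 * M' 0 ω) else 0) = fun _ : Ω => (0 : ℝ) := by
        funext ω
        rw [if_neg]
        exact Nat.not_lt_zero m
      rw [e]
      have : P.E (fun _ => (0 : ℝ)) = 0 := by
        have := P.smul 0 (fun _ => (1 : ℝ))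
        simpa using this
      rw [this]
      have := hG.dz0
      positivity
    | succ j => exact hG.hZ j
  have hgd : ∀ j, P.Dep (B' j \ B' (j + 2)) (g j) := by
    intro j
    cases j with
    | zero => exact ExpSys.Dep.const _ 1
    | succ j =>
      simp only [hg]
      split_ifs with hi
      · subst hi
        exact hf.comp2 ((S.hM j).comp fun n => T ^ n) fun x y : ℝ => x * y
      · exact S.hX j
  have hg0 : ∀ j ω, 0 ≤ g j ω := by
    intro j ω
    cases j with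
    | zero => exact zero_le_one
    | succ j =>
      simp only [hg]
      split_ifs with hi
      · exact mul_nonneg (hf0 ω) (pow_nonneg hT0 _)
      · exact S.hX0 j ω
  have hd0 : ∀ j, 0 ≤ d j := by
    intro j
    cases j with
    | zero => exact zero_le_one
    | succ j =>
      simp only [hd]
      split_ifs
      · exact mul_nonneg hCf hCM0
      · exact heta0
  have hd4 : ∀ j, P.E (fun ω => g j ω ^ 4) ≤ d j ^ 4 := by
    intro j
    cases j with
    | zero =>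
      have e : (fun ω => g 0 ω ^ 4) = fun _ : Ω => (1 : ℝ) := by
        funext ω
        exact one_pow 4
      rw [e, P.one]
      exact (one_pow 4).ge
    | succ j =>
      simp only [hg, hd]
      split_ifs with hi
      · have e : (fun ω => (f0 ω * T ^ S.M s ω) ^ 4) =
            fun ω => f0 ω ^ 4 * (T ^ S.M s ω) ^ 4 := by
          funext ω
          rw [mul_pow]
        rw [e]
        refine (P.cs_sqrt _ _).trans ?_
        have e1 : (fun ω => (f0 ω ^ 4) ^ 2) = fun ω => f0 ω ^ 8 := by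
          funext ω
          rw [← pow_mul]
        have e2 : (fun ω => ((T ^ S.M s ω) ^ 4) ^ 2) = fun ω => (T ^ S.M s ω) ^ 8 := by
          funext ω
          rw [← pow_mul]
        rw [e1, e2]
        have h1 : Real.sqrt (P.E (fun ω => f0 ω ^ 8)) ≤ Cf ^ 4 := by
          refine Real.sqrt_le_iff.2 ⟨by positivity, hfm.trans (le_of_eq ?_)⟩
          ring
        have h2 : Real.sqrt (P.E (fun ω => (T ^ S.M s ω) ^ 8)) ≤ CM ^ 4 := by
          refine Real.sqrt_le_iff.2 ⟨by positivity, (hG.hM8 s).trans (le_of_eq ?_)⟩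
          ring
        calc _ ≤ Cf ^ 4 * CM ^ 4 := mul_le_mul h1 h2 (Real.sqrt_nonneg _) (by positivity)
          _ = (Cf * CM) ^ 4 := by ring
      · exact hG.hX4 j
  have hc := chain_gen P hB0 hNd hMd hN1 hN2 (S.J + 1) hJ t T ht hG.htT m dz hG.dz0 hG.dz1 hZ
    hgd hg0 d hd0 hd4 0 (s + 1) hh0 hh hY0 hY kh hkh hhY
  have hprod : ∀ ω, ∏ i ∈ range (s + 1), g (0 + 1 + i) ω =
      (∏ i ∈ range s, S.X i ω) * (f0 ω * T ^ S.M s ω) := by
    intro ω
    rw [Finset.prod_range_succ]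
    congr 1
    · refine Finset.prod_congr rfl fun i hi => ?_
      rw [Finset.mem_range] at hi
      rw [show 0 + 1 + i = i + 1 by ring]
      simp only [hg]
      rw [if_neg (by omega)]
    · rw [show 0 + 1 + s = s + 1 by ring]
      simp only [hg]
      rw [if_pos trivial]
  have hprodd : ∏ i ∈ range (s + 1), d (0 + 1 + i) = eta ^ s * (Cf * CM) := by
    rw [Finset.prod_range_succ]
    congr 1
    · rw [Finset.prod_congr rfl (g := fun _ => eta) (fun i hi => by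
        rw [Finset.mem_range] at hi
        rw [show 0 + 1 + i = i + 1 by ring]
        simp only [hd]
        rw [if_neg (by omega)]), Finset.prod_const, Finset.card_range]
    · rw [show 0 + 1 + s = s + 1 by ring]
      simp only [hd]
      rw [if_pos trivial]
  rw [hprodd] at hc
  have eN : ∀ ω, N' (0 + (s + 1) + 1) ω = S.N (s + 1) ω := by
    intro ω
    rw [show 0 + (s + 1) + 1 = (s + 1) + 1 by ring]
  have eN2 : ∀ ω, N' (0 + (s + 1) + 2) ω = S.N (s + 2) ω := by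
    intro ω
    rw [show 0 + (s + 1) + 2 = (s + 2) + 1 by ring]
  simp only [hprod, eN, eN2] at hc
  refine le_trans (P.mono _ _ fun ω => ?_) (hc.trans ?_)
  · have h2 := bad_pt0 hG s ω
    have h3 := b0_nonneg (S := S) s ω
    have h5 : t ^ S.N s ω ≤ T ^ S.M s ω * t ^ S.N (s + 1) ω := by
      calc t ^ S.N s ω ≤ t ^ (S.N (s + 1) ω + S.M s ω) := pow_le_pow_right₀ ht (S.hN2 s ω)
        _ = t ^ S.M s ω * t ^ S.N (s + 1) ω := by rw [pow_add, mul_comm]
        _ ≤ _ := mul_le_mul_of_nonneg_right (pow_le_pow_left₀ ht0 hG.htT _) (pow_nonneg ht0 _)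
    have hX : 0 ≤ ∏ i ∈ range s, S.X i ω := Finset.prod_nonneg fun i _ => S.hX0 _ ω
    have h6 : t ^ S.N 0 ω * S.b0 s ω ≤ (∏ i ∈ range s, S.X i ω) *
        (T ^ S.M s ω * t ^ S.N (s + 1) ω) := h2.trans (mul_le_mul_of_nonneg_left h5 hX)
    have h7 : 0 ≤ h ω * Y ω * f0 ω := mul_nonneg (mul_nonneg (hh0 ω) (hY0 ω)) (hf0 ω)
    calc h ω * (Y ω * t ^ S.N 0 ω) * S.b0 s ω * f0 ω =
          h ω * Y ω * f0 ω * (t ^ S.N 0 ω * S.b0 s ω) := by ring
      _ ≤ h ω * Y ω * f0 ω * ((∏ i ∈ range s, S.X i ω) * (T ^ S.M s ω * t ^ S.N (s + 1) ω)) :=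
        mul_le_mul_of_nonneg_left h6 h7
      _ = _ := by ring
  · have hEh : 0 ≤ P.E h := P.E_nonneg hh0
    have h5 : P.E (fun ω => t ^ S.N (s + 2) ω) ≤ S.F t 0 := by
      have := F_anti (S := S) ht 0 (s + 2)
      rw [show 0 + (s + 2) = s + 2 by ring] at this
      exact this
    have h6 : 0 ≤ 2 * kh * T ^ m * (eta ^ s * (Cf * CM)) := by positivity
    refine (mul_le_mul_of_nonneg_left (mul_le_mul_of_nonneg_left h5 hEh) h6).trans (le_of_eq ?_)
    ring

/-- **tails with an observable of bounded depth below the first good level** -/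
theorem Mj.tail_obs (hG : S.Good t T m dz eta ka CM) {H : Ω → ℝ} {kh A : ℝ} (hM : S.Mj t H kh A)
    {f0 : Ω → ℝ} {Cf : ℝ} (hCf : 0 ≤ Cf) (hf0 : ∀ ω, 0 ≤ f0 ω) (s : ℕ)
    (hf : P.Dep (S.B s \ S.B (s + 2)) f0) (hfm : P.E (fun ω => f0 ω ^ 8) ≤ Cf ^ 8) :
    P.E (fun ω => H ω * S.b0 s ω * f0 ω) ≤ 2 * kh * T ^ m * CM * Cf * eta ^ s * A := by
  obtain ⟨h, Y, hh0, hh, hY0, hY, hH, hhY, hA⟩ := hM.ex
  have ht := hG.ht
  have hT0 : (0 : ℝ) ≤ T := by linarith [hG.htT]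
  have hCM0 : 0 ≤ CM := by linarith [hG.CM1]
  have heta0 := hG.eta0.le
  have hkh := hM.kh0
  refine le_trans (P.mono _ _ fun ω => ?_)
    ((maj_chain hG hM.kh0 hh0 hh hY0 hY hhY hCf hf0 s hf hfm).trans
      (mul_le_mul_of_nonneg_left hA (by positivity)))
  exact mul_le_mul_of_nonneg_right (mul_le_mul_of_nonneg_right (hH ω) (b0_nonneg s ω)) (hf0 ω)

/-- **tails** -/
theorem Mj.tail (hG : S.Good t T m dz eta ka CM) {H : Ω → ℝ} {kh A : ℝ} (hM : S.Mj t H kh A)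
    (s : ℕ) : P.E (fun ω => H ω * S.b0 s ω) ≤ 2 * kh * T ^ m * CM * eta ^ s * A := by
  have h := hM.tail_obs hG (f0 := fun _ => 1) (Cf := 1) zero_le_one (fun _ => zero_le_one) s
    (ExpSys.Dep.const _ 1) (by simp [P.one])
  simpa using h

/-- the mean of the majorant -/
theorem Mj.mean (hG : S.Good t T m dz eta ka CM) {H : Ω → ℝ} {kh A : ℝ} (hM : S.Mj t H kh A) :
    P.E H ≤ 2 * kh * T ^ m * CM * A := by
  have h := hM.tail hG 0
  simpa [b0] using h

theorem Mj.A_nonneg {H : Ω → ℝ} {kh A : ℝ} (ht : 1 ≤ t) (hM : S.Mj t H kh A) : 0 ≤ A := by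
  obtain ⟨h, Y, hh0, -, -, -, -, -, hA⟩ := hM.ex
  exact (mul_nonneg (P.E_nonneg hh0) (F_nonneg ht 0)).trans hA

theorem Mj.mono_A {H : Ω → ℝ} {kh A A' : ℝ} (hM : S.Mj t H kh A) (h : A ≤ A') : S.Mj t H kh A' where
  kh0 := hM.kh0
  nn := hM.nn
  ex := by
    obtain ⟨h', Y, h1, h2, h3, h4, h5, h6, h7⟩ := hM.ex
    exact ⟨h', Y, h1, h2, h3, h4, h5, h6, h7.trans h⟩

/-- **environments from a majorant of product form** -/
theorem env_of_maj (hG : S.Good t T m dz eta ka CM) {Cf kh A : ℝ} {m0 : ℕ} {f0 W H : Ω → ℝ}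
    (hCf : 0 ≤ Cf) (hf0 : ∀ ω, 0 ≤ f0 ω) (hd : P.Dep (S.B (m0 + 1) \ S.B (m0 + 3)) f0)
    (hm : P.E (fun ω => f0 ω ^ 8) ≤ Cf ^ 8)
    (hs : ∀ l ≤ m0, ∃ U : Ω → ℝ, P.Dep (S.B (l + 1))ᶜ U ∧ ∀ ω ∈ S.G l, W ω = U ω * S.V t l ω)
    (hW : ∀ ω, |W ω| ≤ H ω) (hM : S.Mj t H kh A) :
    S.Env t m0 f0 W eta Cf (2 * kh * T ^ m * CM) A := by
  refine ⟨hs, fun s _ => ?_, ?_⟩
  · refine le_trans (P.mono _ _ fun ω => ?_) (hM.tail hG s)
    exact mul_le_mul_of_nonneg_right (hW ω) (b0_nonneg s ω)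
  · refine le_trans (P.mono _ _ fun ω => ?_)
      ((hM.tail_obs hG hCf hf0 (m0 + 1) hd hm).trans (le_of_eq ?_))
    · exact mul_le_mul_of_nonneg_right (mul_le_mul_of_nonneg_right (hW ω) (b0_nonneg _ ω)) (hf0 ω)
    · ring

end LSys

end Pool.Agent.SixB

namespace Pool.Agent.SixB.Tilt

open Pool.Agent.Perc.Q Relation

noncomputable section

variable {V Φ : Type} [DecidableEq V] [DecidableEq Φ]

/-- **DECOUPLING** for a complex of quadrangles, weights with a majorant of product form. The number `c` does not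
depend on the weight. `tail`: the majorants below the first good level. -/
theorem decouple_maj (T eta CY : ℝ) (hT : 1 ≤ T) (h0 : 0 < eta) (h1 : eta ≤ 1 / 2) (hCY : 0 ≤ CY) :
    ∃ p0 : ℝ, 0 < p0 ∧ ∀ CM : ℝ, 1 ≤ CM → ∃ C th ka : ℝ, 0 ≤ C ∧ eta < th ∧ th < 1 ∧ 1 ≤ ka ∧
      ∀ {V Φ : Type} [DecidableEq V] [DecidableEq Φ] {Q : QC V Φ} {F : Finset Φ}
        {ov : Sym2 (V × V) → Prop} (D : LData Q F ov) {t : ℝ}, 1 ≤ t → t ≤ T →
        D.Mom T CY p0 CM →
        (∀ {m0 : ℕ} {f f0 : (Φ → Bool) → ℝ} {Cf : ℝ}, 0 < Cf →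
          Dep (D.Bx (m0 + 1) : Set Φ) f →
          Dep ((D.Bx (m0 + 1) : Set Φ) \ (D.Bx (m0 + 3) : Set Φ)) f0 → (∀ ω, |f ω| ≤ f0 ω) →
          av F (fun ω => f0 ω ^ 8) ≤ Cf ^ 8 →
          ∃ c : ℝ, |c| ≤ C * Cf ∧ ∀ {W H : (Φ → Bool) → ℝ} {kh A : ℝ}, D.Loc t W →
            (∀ ω, |W ω| ≤ H ω) → (D.sys T ka hT).Mj t H kh A →
            |av F (fun ω => W ω * f ω) - c * av F W| ≤ C * Cf * kh * th ^ m0 * A) ∧
        (∀ {H : (Φ → Bool) → ℝ} {kh A : ℝ}, (D.sys T ka hT).Mj t H kh A →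
          ∀ (s : ℕ) {f0 : (Φ → Bool) → ℝ} {Cf : ℝ}, 0 ≤ Cf → (∀ ω, 0 ≤ f0 ω) →
          Dep ((D.Bx s : Set Φ) \ (D.Bx (s + 2) : Set Φ)) f0 → av F (fun ω => f0 ω ^ 8) ≤ Cf ^ 8 →
          av F (fun ω => H ω * (D.sys T ka hT).b0 s ω * f0 ω) ≤ C * Cf * kh * eta ^ s * A) := by
  obtain ⟨p0, hp0, hG⟩ := exists_good T eta CY hT h0 h1 hCY
  refine ⟨p0, hp0, fun CM hCM => ?_⟩
  obtain ⟨m, ka, hka, hG⟩ := hG CM hCM
  obtain ⟨C, th, hC, hth0, hth1, hd⟩ := LSys.decouple.{0, 0} T m eta ka CM h0 (by linarith)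
  have hT0 : 0 ≤ T := by linarith
  have hCM0 : 0 ≤ CM := by linarith
  set K := 2 * T ^ m * CM with hK
  have hK0 : 0 ≤ K := by positivity
  refine ⟨C * (1 + K) + K, th, ka, by positivity, hth0, hth1, hka, ?_⟩
  intro V Φ _ _ Q F ov D t ht htT hD
  obtain ⟨hgood, hbad⟩ := hG D ht htT hD
  refine ⟨?_, ?_⟩
  · intro m0 f f0 Cf hCf hf hf0 hle hmom
    have hf0n : ∀ ω, 0 ≤ f0 ω := fun ω => (abs_nonneg _).trans (hle ω)
    have hobs : (D.sys T ka hT).Obs m0 (fun ω => f ω / Cf) (fun ω => f0 ω / Cf) := {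
      dep := ExpSys.Dep.comp (P := LH.avSys F) hf fun x => x / Cf
      dep0 := ExpSys.Dep.comp (P := LH.avSys F) hf0 fun x => x / Cf
      le := fun ω => by
        rw [abs_div, abs_of_pos hCf]
        exact div_le_div_of_nonneg_right (hle ω) hCf.le
      mom := by
        have e : (fun ω => (f0 ω / Cf) ^ 8) = fun ω => (1 / Cf ^ 8) * f0 ω ^ 8 := by
          funext ω
          rw [div_pow]
          ring
        show av F (fun ω => (f0 ω / Cf) ^ 8) ≤ 1
        rw [e, av_mul, one_div, inv_mul_le_iff₀ (by positivity), mul_one]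
        exact hmom }
    obtain ⟨c, hc, h2⟩ := hd hgood hCf hobs
    refine ⟨c, hc.trans ?_, ?_⟩
    · refine mul_le_mul_of_nonneg_right ?_ hCf.le
      nlinarith
    intro W H kh A hL hWH hM
    have hA := hM.A_nonneg ht
    have hkh := hM.kh0
    have hE := LSys.env_of_maj hgood hCf.le hf0n hf0 hmom (W := W) (fun l _ => by
      obtain ⟨U, hU1, hU2⟩ := hL l
      exact ⟨U, hU1, fun ω hω => hU2 ω (not_not.1 hω.1)⟩) hWH hM
    refine (h2 (by positivity) hA hE).trans ?_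
    have hth : 0 ≤ th := by linarith
    have e : C * Cf * (2 * kh * T ^ m * CM) * th ^ m0 * A = (C * K) * (Cf * kh * th ^ m0 * A) := by
      rw [hK]
      ring
    have e2 : (C * (1 + K) + K) * Cf * kh * th ^ m0 * A =
        (C * (1 + K) + K) * (Cf * kh * th ^ m0 * A) := by ring
    rw [e, e2]
    refine mul_le_mul_of_nonneg_right ?_ (by positivity)
    nlinarith
  · intro H kh A hM s f0 Cf hCf hf0 hf hmom
    have hA := hM.A_nonneg ht
    have hkh := hM.kh0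
    refine (hM.tail_obs hgood hCf hf0 s hf hmom).trans ?_
    have e : 2 * kh * T ^ m * CM * Cf * eta ^ s * A = K * (Cf * kh * eta ^ s * A) := by
      rw [hK]
      ring
    have e2 : (C * (1 + K) + K) * Cf * kh * eta ^ s * A =
        (C * (1 + K) + K) * (Cf * kh * eta ^ s * A) := by ring
    rw [e, e2]
    refine mul_le_mul_of_nonneg_right ?_ (by positivity)
    nlinarith

end

end Pool.Agent.SixB.Tilt
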