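import Pool.Agent.Lib.SixB.S6LSplit
import Pool.Agent.Lib.SixB.S4Strands

/-!
# 6BD, input L of block CA: planarity (row L2 of helper31)

`Q` any complex of quadrangles, `F` with mod 2 potentials (`HasPotQ Q F`). `w i` = vertices of the wall, the boundary sides
`(w i, w (i+1))`, `-R ≤ i < R`; the mark is between the sides `-1` and `0`. `ovr w R`: the pairs of sides of the wall on
different sides of the mark.
* `WBox Q F w R I s M r`: two nested boxes at the mark.
* `no_over`: if a strand crosses `M \ I` (`Leg`), no arc over the mark is contained in `M \ I`.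
* `LN_le_of_leg`: then `LN j ≤ LN (j+1) + LY j`.
-/

set_option autoImplicit false
set_option linter.unusedSectionVars false

namespace Pool.Agent.SixB.Tilt

open Pool.Agent.Perc.Q Relation

noncomputable section

variable {V Φ : Type} [DecidableEq V] [DecidableEq Φ]
variable {Q : QC V Φ} {F I M A B G : Finset Φ} {ω ω' : Φ → Bool} {a b c d e x y z : V × V}
variable {w : ℤ → V} {R r s : ℤ} {u v : V}

/-- a point of a path in `F` whose complete path is in `A` -/
theorem path_in (hAF : A ⊆ F) (hd : ¬ Ah Q F d) (h : ReflTransGen (Nx Q ω (A : Set Φ)) a d)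
    (he : ReflTransGen (Nx Q ω (F : Set Φ)) a e) :
    ReflTransGen (Nx Q ω (A : Set Φ)) a e ∧ ReflTransGen (Nx Q ω (A : Set Φ)) e d := by
  induction he with
  | refl => exact ⟨ReflTransGen.refl, h⟩
  | @tail y z _ hs ih =>
    obtain ⟨h1, h2⟩ := ih
    rcases ReflTransGen.cases_head h2 with h3 | ⟨t, h3, h4⟩
    · exact absurd (ah_left hs) (h3 ▸ hd)
    · have := (nx_mono hAF h3).unique hs
      subst this
      exact ⟨h1.tail h3, h4⟩

/-- every edge of an arc contained in `A` is on the path in `A` -/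
theorem con_mem (hAF : A ⊆ F) (ha : a ∈ bS Q F) (hc : Con Q F A ω a) (he : e ∈ dst Q F ω a) :
    ReflTransGen (Nx Q ω (A : Set Φ)) a e ∧
      ReflTransGen (Nx Q ω (A : Set Φ)) e (mate Q F ω a).swap := by
  refine path_in hAF (mate_not_ah ha) hc ?_
  rcases srel_iff.mp (mem_dst.mp he).2 with h | h
  · exact h
  · rcases ReflTransGen.cases_tail h with h1 | ⟨t, -, h1⟩
    · rw [h1]
    · exact absurd (ah_right h1) (mem_bS_ah.mp ha).2

/-- an arc contained in `A` has no edge in common with faces off `A` -/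
theorem con_off (hAF : A ⊆ F) (ha : a ∈ bS Q F) (hc : Con Q F A ω a) (hG : G ⊆ F)
    (hd : Disjoint A G) (he : e ∈ dst Q F ω a) : e ∉ dE Q G := by
  obtain ⟨h1, h2⟩ := con_mem hAF ha hc he
  intro h3
  rcases mem_dE_ah.mp h3 with h4 | h4
  · rcases ReflTransGen.cases_head h2 with h5 | ⟨t, h5, -⟩
    · exact mate_not_ah ha (h5 ▸ h4.mono hG)
    · exact ah_disj hd (ah_left h5) h4
  · rcases ReflTransGen.cases_tail h1 with h5 | ⟨t, -, h5⟩
    · exact (mem_bS_ah.mp ha).2 (h5 ▸ h4.mono hG)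
    · exact ah_disj hd (ah_right h5) h4

/-- a strand which is not the strand of `X` has constant left indicator -/
theorem lft_step {X : Finset (V × V)} {L : V → ℤ} (hL : IsLft Q F X L)
    (h : Nx Q ω (F : Set Φ) x y) (hx : x ∉ X) (hx' : x.swap ∉ X) (hy : y ∉ X) (hy' : y.swap ∉ X) :
    L x.1 = L x.2 ∧ L y.1 = L x.1 := by
  have h1 := hL.inc x (Nx.left_mem h)
  have h2 := hL.inc y (Nx.right_mem h)
  rw [if_neg hx, if_neg hx'] at h1
  rw [if_neg hy, if_neg hy'] at h2
  refine ⟨by omega, ?_⟩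
  obtain ⟨f, hf, k, rfl, ⟨-, rfl⟩ | ⟨-, rfl⟩⟩ := h
  · simp only at h1 h2 ⊢
    omega
  · rfl

/-- two nested boxes `I ⊆ M` of half size `s ≤ r` at the mark on the wall `w` -/
structure WBox (Q : QC V Φ) (F : Finset Φ) (w : ℤ → V) (R : ℤ) (I : Finset Φ) (s : ℤ)
    (M : Finset Φ) (r : ℤ) : Prop where
  sub : I ⊆ M
  subF : M ⊆ F
  s0 : 0 ≤ s
  sr : s ≤ r
  rR : r ≤ R
  side : ∀ i, -R ≤ i → i < R → (w i, w (i + 1)) ∈ bS Q F
  inj : ∀ i i', -R ≤ i → i < R → -R ≤ i' → i' < R → (w i, w (i + 1)) = (w i', w (i' + 1)) → i = i'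
  memI : ∀ i, -s ≤ i → i < s → Ah Q I (w i, w (i + 1))
  memM : ∀ i, -R ≤ i → i < R → Ah Q M (w i, w (i + 1)) → -r ≤ i ∧ i < r
  connI : ∀ e ∈ dE Q I, ConnE Q I (w (-s)) e.1
  connO : ∀ b, Ah Q (F \ M) b → Ah Q M b.swap → ConnE Q (F \ M) (w (-r)) b.1

/-- pairs of sides of the wall on different sides of the mark -/
def ovr (w : ℤ → V) (R : ℤ) (p : Sym2 (V × V)) : Prop :=
  ∃ i i', -R ≤ i ∧ i < 0 ∧ 0 ≤ i' ∧ i' < R ∧ p = s((w i, w (i + 1)), (w i', w (i' + 1)))

/-- along the wall between two sides which are not of the strand the left indicator is constant -/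
theorem wall_const {L : V → ℤ} {a : V × V} (hL : IsLft Q F (dst Q F ω a) L) (ha : a ∈ bS Q F)
    {l m : ℤ} (hlm : l ≤ m) (hs : ∀ i, l ≤ i → i < m → (w i, w (i + 1)) ∈ bS Q F)
    (h1 : ∀ i, l ≤ i → i < m → (w i, w (i + 1)) ≠ a)
    (h2 : ∀ i, l ≤ i → i < m → (w i, w (i + 1)) ≠ mate Q F ω a) : L (w l) = L (w m) := by
  obtain ⟨n, rfl⟩ : ∃ n : ℕ, m = l + n := ⟨(m - l).toNat, by omega⟩
  clear hlm
  induction n with
  | zero => simp
  | succ n ih =>
    have h3 := ih (fun i hi hi' => hs i hi (by push_cast; omega))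
      (fun i hi hi' => h1 i hi (by push_cast; omega))
      (fun i hi hi' => h2 i hi (by push_cast; omega))
    rw [h3]
    have hb := hs (l + n) (by omega) (by push_cast; omega)
    have h4 := hL.inc (w (l + n), w (l + n + 1)) (mem_bS.mp hb).1
    have h5 : (w (l + n), w (l + n + 1)) ∉ dst Q F ω a := by
      intro h
      exact h1 (l + n) (by omega) (by push_cast; omega)
        (ini_unique (mem_bS.mp hb).2 (mem_bS.mp ha).2 (EqvGen.symm _ _ (mem_dst.mp h).2))
    have h6 : (w (l + n), w (l + n + 1)).swap ∉ dst Q F ω a := by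
      intro h
      refine h2 (l + n) (by omega) (by push_cast; omega) ?_
      have h7 := mate_unique (ω := ω) (mem_bS.mp ha).2 (ter_swap.mpr (mem_bS.mp hb).2)
        (mem_dst.mp h).2
      rw [h7, Prod.swap_swap]
    rw [if_neg h5, if_neg h6] at h4
    simp only at h4
    push_cast
    rw [← add_assoc]
    omega

/-- **planarity**: a strand which crosses `M \ I` excludes arcs over the mark contained in `M \ I` -/
theorem no_over (hP : HasPotQ Q F) (hB : WBox Q F w R I s M r) {i i' : ℤ} (hi : -R ≤ i)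
    (hi0 : i < 0) (hi' : 0 ≤ i') (hiR : i' < R)
    (hm : mate Q F ω (w i, w (i + 1)) = (w i', w (i' + 1)))
    (hc : Con Q F (M \ I) ω (w i, w (i + 1))) (hl : Leg Q ω F I M c) : False := by
  have hMI : M \ I ⊆ F := Finset.sdiff_subset.trans hB.subF
  have ha := hB.side i hi (by have := hB.s0; have := hB.sr; have := hB.rR; omega)
  set a : V × V := (w i, w (i + 1)) with haa
  have hb := hB.side i' (by have := hB.s0; have := hB.sr; have := hB.rR; omega) hiR
  have hX : dst Q F ω a ∈ dstr Q F ω := dst_mem_dstr (mem_bS.mp ha).1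
  obtain ⟨L, hL⟩ := exists_lft hP hX
  have haX : a ∈ dst Q F ω a := self_mem_dst (mem_bS.mp ha).1
  -- positions
  have hA : Ah Q (M \ I) a := con_first ha hc
  have hA' : Ah Q (M \ I) (w i', w (i' + 1)) := hm ▸ con_last ha hc
  have hIF : I ⊆ F := hB.sub.trans hB.subF
  obtain ⟨hr1, -⟩ := hB.memM i hi (by have := hB.s0; have := hB.sr; have := hB.rR; omega)
    (hA.mono Finset.sdiff_subset)
  have hs1 : i < -s := by
    by_contra h
    exact ah_disj Finset.disjoint_sdiff (hB.memI i (by omega) (by have := hB.s0; omega)) hA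
  have hs2 : s ≤ i' := by
    by_contra h
    exact ah_disj Finset.disjoint_sdiff (hB.memI i' (by have := hB.s0; omega) (by omega)) hA'
  have hR : -R ≤ -r := by have := hB.rR; omega
  have hR' : r ≤ R := hB.rR
  -- the two ends of the side `a`
  have hne : L a.1 ≠ L a.2 := by
    have h1 := hL.inc a (mem_bS.mp ha).1
    rw [if_pos haX, if_neg] at h1
    · omega
    · intro h
      have h2 := con_mem hMI ha hc h
      rcases ReflTransGen.cases_tail h2.1 with h3 | ⟨t, -, h3⟩
      · have h4 : Ah Q F a.swap := h3 ▸ (mem_bS_ah.mp ha).1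
        exact (mem_bS_ah.mp ha).2 h4
      · have h4 := ah_right h3
        rw [Prod.swap_swap] at h4
        rcases ReflTransGen.cases_head h2.2 with h5 | ⟨t', h5, -⟩
        · have h6 : a = mate Q F ω a := by
            have := congrArg Prod.swap h5
            rwa [Prod.swap_swap, Prod.swap_swap] at this
          have h7 : i = i' := by
            refine hB.inj i i' hi (by have := hB.s0; have := hB.sr; omega)
              (by have := hB.s0; have := hB.sr; omega) hiR ?_
            rw [← hm]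
            exact h6
          omega
        · exact (mem_bS_ah.mp ha).2 ((ah_left h5).mono hMI)
  -- towards the mark
  have hin : L (w (i + 1)) = L (w (-s)) := by
    refine wall_const hL ha (by omega) (fun j h1 h2 => hB.side j (by omega)
      (by have := hB.s0; have := hB.sr; omega)) (fun j h1 h2 h3 => ?_) (fun j h1 h2 h3 => ?_)
    · have := hB.inj j i (by omega) (by have := hB.s0; have := hB.sr; omega) hi
        (by have := hB.s0; have := hB.sr; omega) h3
      omega
    · rw [hm] at h3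
      have := hB.inj j i' (by omega) (by have := hB.s0; have := hB.sr; omega)
        (by have := hB.s0; have := hB.sr; omega) hiR h3
      have := hB.s0
      omega
  -- away from the mark
  have hout : L (w (-r)) = L (w i) := by
    refine wall_const hL ha (by omega) (fun j h1 h2 => hB.side j (by omega)
      (by have := hB.s0; have := hB.sr; omega)) (fun j h1 h2 h3 => ?_) (fun j h1 h2 h3 => ?_)
    · have := hB.inj j i (by omega) (by have := hB.s0; have := hB.sr; omega) hi
        (by have := hB.s0; have := hB.sr; omega) h3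
      omega
    · rw [hm] at h3
      have := hB.inj j i' (by omega) (by have := hB.s0; have := hB.sr; omega)
        (by have := hB.s0; have := hB.sr; omega) hiR h3
      omega
  -- constant in `I` and outside of `M`
  have hconst : ∀ (G : Finset Φ) (u v : V), G ⊆ F → Disjoint (M \ I) G → ConnE Q G u v →
      L u = L v := by
    intro G u v hG hd huv
    by_contra hne
    obtain ⟨e, he, h | h⟩ := hL.visits hG huv hne
    · exact con_off hMI ha hc hG hd h he
    · exact con_off hMI ha hc hG hd h (swap_mem_dE.mpr he)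
  have hdI : Disjoint (M \ I) I := Finset.sdiff_disjoint
  have hdO : Disjoint (M \ I) (F \ M) := Finset.disjoint_left.mpr fun f h1 h2 =>
    (Finset.mem_sdiff.mp h2).2 (Finset.mem_sdiff.mp h1).1
  -- the leg
  obtain ⟨hc1, b, hcb, hb1⟩ := hl
  have hcE : c ∈ dE Q I := mem_dE_ah.mpr (Or.inr hc1)
  have hcX : c ∉ dst Q F ω a ∧ c.swap ∉ dst Q F ω a :=
    ⟨fun h => con_off hMI ha hc hIF hdI h hcE,
      fun h => con_off hMI ha hc hIF hdI h (swap_mem_dE.mpr hcE)⟩
  have key : ∀ y, ReflTransGen (Nx Q ω ((M \ I : Finset Φ) : Set Φ)) c y →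
      (y ∉ dst Q F ω a ∧ y.swap ∉ dst Q F ω a) ∧ L y.1 = L c.1 ∧ Ah Q M y.swap := by
    intro y hy
    induction hy with
    | refl => exact ⟨hcX, rfl, hc1.mono hB.sub⟩
    | @tail y z hcy hs ih =>
      obtain ⟨⟨h1, h2⟩, h3, -⟩ := ih
      have hs' : Nx Q ω (F : Set Φ) y z := nx_mono hMI hs
      have hz1 : z ∉ dst Q F ω a := by
        intro h
        refine h1 (mem_dst.mpr ⟨Nx.left_mem hs', ?_⟩)
        exact EqvGen.trans _ _ _ (mem_dst.mp h).2 (EqvGen.symm _ _ (EqvGen.rel _ _ hs'))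
      have hz2 : z.swap ∉ dst Q F ω a := by
        intro h
        refine h2 (mem_dst.mpr ⟨swap_mem_dE.mpr (Nx.left_mem hs'), ?_⟩)
        exact EqvGen.trans _ _ _ (mem_dst.mp h).2 (EqvGen.rel _ _ hs'.rev)
      refine ⟨⟨hz1, hz2⟩, ?_, (ah_right hs).mono Finset.sdiff_subset⟩
      rw [(lft_step hL hs' h1 h2 hz1 hz2).2, h3]
  obtain ⟨-, h1, h2⟩ := key b hcb
  have e1 : L (w (-s)) = L c.1 := hconst I _ _ hIF hdI (hB.connI c hcE)
  have e2 : L (w (-r)) = L b.1 := hconst (F \ M) _ _ Finset.sdiff_subset hdO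
    (hB.connO b hb1 h2)
  apply hne
  rw [haa]
  simp only
  rw [← hout, hin, e1, e2, h1]

theorem cIn_of_leg (hP : HasPotQ Q F) (hB : WBox Q F w R I s M r) (h : ¬ NoLeg Q ω F I M) :
    cIn (ovr w R) Q F (M \ I) ω = ∅ := by
  unfold NoLeg at h
  push Not at h
  obtain ⟨c, hc⟩ := h
  rw [Finset.eq_empty_iff_forall_notMem]
  intro p hp
  obtain ⟨⟨i, i', h1, h2, h3, h4, rfl⟩, a, ha, hcon, he⟩ := mem_cIn.mp hp
  rw [Sym2.eq_iff] at he
  rcases he with ⟨rfl, he⟩ | ⟨rfl, he⟩
  · exact no_over hP hB h1 h2 h3 h4 he hcon hc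
  · refine no_over hP hB h1 h2 h3 h4 (ω := ω) (c := c) ?_ ?_ hc
    · rw [← he, mate_mate (ω := ω) ha]
    · rw [← he]
      exact con_mate1 ha hcon

/-- on a crossed level: `N j ≤ N (j+1) + Y j` -/
theorem LN_le_of_leg {Bx : ℕ → Finset Φ} {rr : ℕ → ℤ} {j : ℕ} (hP : HasPotQ Q F)
    (hB : WBox Q F w R (Bx (j + 1)) (rr (j + 1)) (Bx j) (rr j))
    (h : ¬ NoLeg Q ω F (Bx (j + 1)) (Bx j)) :
    LN (ovr w R) Q F Bx j ω ≤ LN (ovr w R) Q F Bx (j + 1) ω + LY (ovr w R) Q F Bx j ω :=
  LN_le_LY (cIn_of_leg hP hB h)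

end

end Pool.Agent.SixB.Tilt
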