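import Pool.Agent.Lib.SixB.S6LHeavy

/-!
# 6BD, block CA-L, row L5: locality for natural local weights (`t = 1`), abstract

Setting: an expectation system `P`; `Z > 0`; a (signed) weight `W`; an event `NL` (no strand crosses the
annulus) on which `W = V` with `V` independent of the faces `I`; the upper bound
`(U) E (|W| Y) ≤ C * sqrt (E Y^2) * Z` for `Y ≥ 0` in a class of functions.

`zero_local`: `|E (f W) - E f * E W| ≤ 2 C ‖f‖₂ P(¬NL)^{1/2} Z` for `f` depending on `I`.
`zero_ratio`: `|E (f W) / E W - E f| ≤ 2 C ‖f‖₂ P(¬NL)^{1/2}` if `E W = Z > 0`.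
`zero_ratio_num`: the same with an additional (signed) numerator weight.
-/

set_option autoImplicit false
set_option linter.unusedSectionVars false

namespace Pool.Agent.SixB.LH

noncomputable section

variable {Ω ι : Type*} (P : ExpSys Ω ι)

theorem E_abs_le (f : Ω → ℝ) : |P.E f| ≤ P.E (fun ω => |f ω|) := by
  rw [abs_le]
  constructor
  · rw [← P.E_neg]
    exact P.mono _ _ fun ω => by have := neg_abs_le (f ω); simpa using this
  · exact P.mono _ _ fun ω => le_abs_self _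

theorem abs_E_le_sqrt (f : Ω → ℝ) : |P.E f| ≤ Real.sqrt (P.E (fun ω => f ω ^ 2)) := by
  have h := P.cs f (fun _ => 1)
  simp only [mul_one, one_pow] at h
  rw [P.E_const, mul_one] at h
  rw [← Real.sqrt_sq_eq_abs]
  exact Real.sqrt_le_sqrt h

theorem ic_compl (A : Ω → Prop) (ω : Ω) : ic (fun ω => ¬ A ω) ω = 1 - ic A ω := by
  unfold ic
  by_cases h : A ω <;> simp [h]

theorem ic_dep {P : ExpSys Ω ι} {S : Set ι} {A : Ω → Prop} (h : P.Dep S A) : P.Dep S (ic A) :=
  fun ω ω' hω => ic_congr (h ω ω' hω)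

/-- **L0**: locality for natural local weights -/
theorem zero_local {I J S : Set ι} {f W V : Ω → ℝ} {NL : Ω → Prop} {C Z : ℝ}
    (hf : P.Dep I f) (hJ : P.Dep J NL) (hIJ : Disjoint I J) (hJS : J ⊆ S) (hIS : Disjoint I S)
    (hV : P.Dep S V) (hWV : ∀ ω, NL ω → W ω = V ω)
    (hU1 : P.E (fun ω => |W ω| * ic (fun ω => ¬ NL ω) ω) ≤
      C * Real.sqrt (P.E (fun ω => ic (fun ω => ¬ NL ω) ω ^ 2)) * Z)
    (hU2 : P.E (fun ω => |W ω| * (|f ω| * ic (fun ω => ¬ NL ω) ω)) ≤
      C * Real.sqrt (P.E (fun ω => (|f ω| * ic (fun ω => ¬ NL ω) ω) ^ 2)) * Z) :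
    |P.E (fun ω => f ω * W ω) - P.E f * P.E W| ≤
      2 * C * Real.sqrt (P.E (fun ω => f ω ^ 2)) *
        Real.sqrt (P.E (ic (fun ω => ¬ NL ω))) * Z := by
  set B : Ω → Prop := fun ω => ¬ NL ω with hB
  have hicB : ∀ ω, ic B ω = 1 - ic NL ω := ic_compl NL
  have hBdep : P.Dep J (ic B) := by
    refine ic_dep fun ω ω' h => ?_
    simp only [hB, hJ ω ω' h]
  -- split
  have e1 : P.E (fun ω => f ω * W ω) =
      P.E (fun ω => f ω * (V ω * ic NL ω)) + P.E (fun ω => f ω * W ω * ic B ω) := by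
    rw [← P.add]
    congr 1
    funext ω
    rw [hicB]
    by_cases h : NL ω
    · simp [ic, h, hWV ω h]
    · simp [ic, h]
  have e2 : P.E (fun ω => f ω * (V ω * ic NL ω)) = P.E f * P.E (fun ω => V ω * ic NL ω) := by
    refine P.E_indep hIS hf ?_
    exact ExpSys.Dep.comp2 hV ((ic_dep hJ).mono hJS) (fun x y => x * y)
  have e3 : P.E W = P.E (fun ω => V ω * ic NL ω) + P.E (fun ω => W ω * ic B ω) := by
    rw [← P.add]
    congr 1
    funext ω
    rw [hicB]
    by_cases h : NL ω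
    · simp [ic, h, hWV ω h]
    · simp [ic, h]
  have e4 : P.E (fun ω => f ω * W ω) - P.E f * P.E W =
      P.E (fun ω => f ω * W ω * ic B ω) - P.E f * P.E (fun ω => W ω * ic B ω) := by
    rw [e1, e2, e3]
    ring
  have hsq : (fun ω => ic B ω ^ 2) = ic B := funext (ic_sq B)
  rw [hsq] at hU1
  set p := Real.sqrt (P.E (ic B)) with hp
  set F := Real.sqrt (P.E (fun ω => f ω ^ 2)) with hF
  have h1 : |P.E (fun ω => f ω * W ω * ic B ω)| ≤ C * (F * p) * Z := by
    refine (E_abs_le P _).trans ?_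
    have e : (fun ω => |f ω * W ω * ic B ω|) = fun ω => |W ω| * (|f ω| * ic B ω) := by
      funext ω
      rw [abs_mul, abs_mul, abs_of_nonneg (ic_nonneg B ω)]
      ring
    rw [e]
    refine hU2.trans (le_of_eq ?_)
    have e5 : P.E (fun ω => (|f ω| * ic B ω) ^ 2) = P.E (fun ω => f ω ^ 2) * P.E (ic B) := by
      have e6 : (fun ω => (|f ω| * ic B ω) ^ 2) = fun ω => f ω ^ 2 * ic B ω := by
        funext ω
        rw [mul_pow, sq_abs, ic_sq]
      rw [e6]
      exact P.E_indep hIJ (hf.comp (fun x => x ^ 2)) hBdep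
    rw [e5, Real.sqrt_mul (P.E_nonneg fun ω => sq_nonneg _)]
  have h2 : |P.E f * P.E (fun ω => W ω * ic B ω)| ≤ F * (C * p * Z) := by
    rw [abs_mul]
    have h3 : |P.E (fun ω => W ω * ic B ω)| ≤ C * p * Z := by
      refine (E_abs_le P _).trans ?_
      have e : (fun ω => |W ω * ic B ω|) = fun ω => |W ω| * ic B ω := by
        funext ω
        rw [abs_mul, abs_of_nonneg (ic_nonneg B ω)]
      rw [e]
      exact hU1
    exact mul_le_mul (abs_E_le_sqrt P f) h3 (abs_nonneg _) (Real.sqrt_nonneg _)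
  rw [e4]
  refine (abs_sub _ _).trans ?_
  have e7 : 2 * C * F * p * Z = C * (F * p) * Z + F * (C * p * Z) := by ring
  rw [e7]
  exact add_le_add h1 h2

/-- **L0**, ratio form: numerator weight `W'` and normalisation `Z = E W`; `W' = W` is the usual case -/
theorem zero_ratio {I J S : Set ι} {f W V : Ω → ℝ} {NL : Ω → Prop} {C : ℝ}
    (hf : P.Dep I f) (hJ : P.Dep J NL) (hIJ : Disjoint I J) (hJS : J ⊆ S) (hIS : Disjoint I S)
    (hV : P.Dep S V) (hWV : ∀ ω, NL ω → W ω = V ω) (hZ : 0 < P.E W)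
    (hU : ∀ Y : Ω → ℝ, (∀ ω, 0 ≤ Y ω) → P.Dep (I ∪ J) Y →
      P.E (fun ω => |W ω| * Y ω) ≤ C * Real.sqrt (P.E (fun ω => Y ω ^ 2)) * P.E W) :
    |P.E (fun ω => f ω * W ω) / P.E W - P.E f| ≤
      2 * C * Real.sqrt (P.E (fun ω => f ω ^ 2)) * Real.sqrt (P.E (ic (fun ω => ¬ NL ω))) := by
  have hBdep : P.Dep J (ic (fun ω => ¬ NL ω)) := by
    refine ic_dep fun ω ω' h => ?_
    simp only [hJ ω ω' h]
  have h := zero_local P (Z := P.E W) (C := C) hf hJ hIJ hJS hIS hV hWV
    (hU _ (ic_nonneg _) (hBdep.mono Set.subset_union_right))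
    (hU (fun ω => |f ω| * ic (fun ω => ¬ NL ω) ω)
      (fun ω => mul_nonneg (abs_nonneg _) (ic_nonneg _ _))
      (ExpSys.Dep.comp2 (hf.mono Set.subset_union_left) (hBdep.mono Set.subset_union_right)
        (fun x y => |x| * y)))
  have e : P.E (fun ω => f ω * W ω) / P.E W - P.E f =
      (P.E (fun ω => f ω * W ω) - P.E f * P.E W) / P.E W := by
    field_simp
  rw [e, abs_div, abs_of_pos hZ, div_le_iff₀ hZ]
  exact h

/-- comparison of two environments with the same natural local law -/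
theorem zero_compare {a b : ℝ} {x y m : ℝ} (h1 : |x - m| ≤ a) (h2 : |y - m| ≤ b) :
    |x - y| ≤ a + b := by
  have := abs_sub_le x m y
  rw [abs_sub_comm m y] at this
  linarith

/-- geometric sums of locality errors over scales: `∑_{i<m} q^i ≤ 1/(1-q)` in the form used for
heights: local functions `f i`, `i < m`, with errors `≤ A q^i` -/
theorem sum_scales {A q : ℝ} (hA : 0 ≤ A) (hq0 : 0 ≤ q) (hq : q < 1) (m : ℕ) (x : ℕ → ℝ)
    (hx : ∀ i < m, |x i| ≤ A * q ^ i) : |∑ i ∈ Finset.range m, x i| ≤ A / (1 - q) := by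
  have hone : 0 < 1 - q := by linarith
  calc |∑ i ∈ Finset.range m, x i| ≤ ∑ i ∈ Finset.range m, |x i| := Finset.abs_sum_le_sum_abs _ _
    _ ≤ ∑ i ∈ Finset.range m, A * q ^ i :=
        Finset.sum_le_sum fun i hi => hx i (Finset.mem_range.mp hi)
    _ = A * ∑ i ∈ Finset.range m, q ^ i := by rw [Finset.mul_sum]
    _ ≤ A * (1 / (1 - q)) := by
        refine mul_le_mul_of_nonneg_left ?_ hA
        rw [le_div_iff₀ hone, geom_sum_mul_neg]
        have : 0 ≤ q ^ m := by positivity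
        linarith
    _ = A / (1 - q) := by ring

end

end Pool.Agent.SixB.LH
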