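import Mathlib

/-!
# SixB, block CA: exact identities for the tilted weights of non crossing matchings

`NM m`: non crossing matchings of the positions `0, ..., m - 1` (the boundary sides, counterclockwise,
starting at the base vertex `0`; vertex `v` lies between the sides `v - 1` and `v`).
`J j a b = ∑ v ∈ Ioc a b, j v` (jump between the sides `a < b`), `tt x = cos (x - π / 6) / cos (π / 6)`,
`td x = sin (π / 6 - x) / cos (π / 6)` (its derivative), `W j μ = ∏ arcs, tt (J ...)`.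
HEIGHT NUMERATORS: `WU j μ A = ∑ i ∈ A, (∏ l ≠ i, tt (J l)) * td (J i)` (arcs of weight zero are included),
equal to `W j μ * ∑ i ∈ A, tan (π / 6 - J i)` if no arc of `A` has weight zero.
* `W_hasDerivAt`: `dW = ∑ v, dj v * WU (arcs over v)`;
* `log_ratio`: `log Z 1 - log Z 0 = ∫ (∑ v, j₁ v * u v)`, for finite sums over configurations;
The family (A), the pair family and the natural bases are in `S6W2.lean`.
-/

set_option autoImplicit false

namespace Pool.Agent.SixB.TW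

open Finset

/-- A non crossing matching of the positions `0, ..., m - 1`. -/
structure NM (m : ℕ) where
  M : ℕ → ℕ
  spec : ∀ i < m, M i < m ∧ M i ≠ i ∧ M (M i) = i
  nc : ∀ i < m, ∀ j, i < j → j < M i → i < M j ∧ M j < M i

namespace NM

variable {m : ℕ} (μ : NM m) {i j : ℕ}

theorem lt (h : i < m) : μ.M i < m := (μ.spec i h).1
theorem ne (h : i < m) : μ.M i ≠ i := (μ.spec i h).2.1
theorem inv (h : i < m) : μ.M (μ.M i) = i := (μ.spec i h).2.2

/-- The first feet of the arcs. -/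
def opn : Finset ℕ := (range m).filter fun i => i < μ.M i

theorem mem_opn : i ∈ μ.opn ↔ i < m ∧ i < μ.M i := by simp [opn]

/-- The arcs over the vertex `v`. -/
def ovr (v : ℕ) : Finset ℕ := μ.opn.filter fun i => i < v ∧ v ≤ μ.M i

theorem mem_ovr {v : ℕ} : i ∈ μ.ovr v ↔ (i < m ∧ i < μ.M i) ∧ i < v ∧ v ≤ μ.M i := by
  simp [ovr, opn]

theorem ovr_subset (v : ℕ) : μ.ovr v ⊆ μ.opn := filter_subset _ _

theorem ovr_zero : μ.ovr 0 = ∅ := by
  ext i
  simp [mem_ovr]

theorem ovr_of_le {v : ℕ} (h : m ≤ v) : μ.ovr v = ∅ := by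
  ext i
  rw [mem_ovr]
  constructor
  · rintro ⟨⟨h1, -⟩, -, h2⟩
    have := μ.lt h1
    omega
  · intro h1
    simp at h1

theorem card_opn : μ.opn.card ≤ m := by
  refine (card_filter_le _ _).trans ?_
  rw [card_range]

end NM

noncomputable section

/-! ## Weights -/

/-- The jump between the sides `a` and `b`, `a ≤ b`. -/
def J (j : ℕ → ℝ) (a b : ℕ) : ℝ := ∑ v ∈ Ioc a b, j v

/-- The weight of an arc. -/
def tt (x : ℝ) : ℝ := Real.cos (x - Real.pi / 6) / Real.cos (Real.pi / 6)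

/-- The derivative of `tt`. -/
def td (x : ℝ) : ℝ := Real.sin (Real.pi / 6 - x) / Real.cos (Real.pi / 6)

/-- The weight of a matching. -/
def W {m : ℕ} (j : ℕ → ℝ) (μ : NM m) : ℝ := ∏ i ∈ μ.opn, tt (J j i (μ.M i))

/-- The numerator of the height collected from the arcs of `A`. -/
def WU {m : ℕ} (j : ℕ → ℝ) (μ : NM m) (A : Finset ℕ) : ℝ :=
  ∑ i ∈ A, (∏ l ∈ μ.opn.erase i, tt (J j l (μ.M l))) * td (J j i (μ.M i))

theorem cos6_pos : 0 < Real.cos (Real.pi / 6) := by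
  rw [Real.cos_pi_div_six]; positivity

theorem tt_symm (x : ℝ) : tt (Real.pi / 3 - x) = tt x := by
  unfold tt
  congr 1
  rw [← Real.cos_neg]
  congr 1
  ring

theorem tt_zero : tt 0 = 1 := by
  unfold tt
  rw [zero_sub, Real.cos_neg, div_self cos6_pos.ne']

theorem tt_third : tt (Real.pi / 3) = 1 := by
  have := tt_symm 0
  rwa [sub_zero, tt_zero] at this

theorem tt_neg_third : tt (-(Real.pi / 3)) = 0 := by
  unfold tt
  have : -(Real.pi / 3) - Real.pi / 6 = -(Real.pi / 2) := by ring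
  rw [this, Real.cos_neg, Real.cos_pi_div_two, zero_div]

theorem tt_two_third : tt (2 * (Real.pi / 3)) = 0 := by
  have := tt_symm (-(Real.pi / 3))
  rw [tt_neg_third] at this
  rw [← this]
  congr 1
  ring

theorem abs_tt_le (x : ℝ) : |tt x| ≤ 2 / Real.sqrt 3 := by
  unfold tt
  rw [abs_div, abs_of_pos cos6_pos, Real.cos_pi_div_six, div_div_eq_mul_div]
  have h3 : 0 < Real.sqrt 3 := by positivity
  have := Real.abs_cos_le_one (x - Real.pi / 6)
  rw [div_le_div_iff_of_pos_right h3]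
  linarith

theorem abs_td_le (x : ℝ) : |td x| ≤ 2 / Real.sqrt 3 := by
  unfold td
  rw [abs_div, abs_of_pos cos6_pos, Real.cos_pi_div_six, div_div_eq_mul_div]
  have h3 : 0 < Real.sqrt 3 := by positivity
  have := Real.abs_sin_le_one (Real.pi / 6 - x)
  rw [div_le_div_iff_of_pos_right h3]
  linarith

theorem td_symm (x : ℝ) : td (Real.pi / 3 - x) = -td x := by
  unfold td
  rw [← neg_div]
  congr 1
  rw [← Real.sin_neg]
  congr 1
  ring

theorem td_zero : td 0 = 1 / Real.sqrt 3 := by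
  unfold td
  rw [sub_zero, Real.sin_pi_div_six, Real.cos_pi_div_six]
  field_simp

theorem td_third : td (Real.pi / 3) = -(1 / Real.sqrt 3) := by
  have := td_symm 0
  rwa [sub_zero, td_zero] at this

theorem tt_ge_one {x : ℝ} (h0 : 0 ≤ x) (h1 : x ≤ Real.pi / 3) : 1 ≤ tt x := by
  unfold tt
  rw [le_div_iff₀ cos6_pos, one_mul]
  rw [← Real.cos_abs (x - Real.pi / 6)]
  refine Real.cos_le_cos_of_nonneg_of_le_pi (abs_nonneg _) (by linarith [Real.pi_pos]) ?_
  rw [abs_le]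
  constructor <;> linarith

theorem tt_nonneg {x : ℝ} (h0 : -(Real.pi / 3) ≤ x) (h1 : x ≤ 2 * (Real.pi / 3)) : 0 ≤ tt x := by
  unfold tt
  refine div_nonneg (Real.cos_nonneg_of_mem_Icc ⟨by linarith, by linarith⟩) cos6_pos.le

theorem tt_pos {x : ℝ} (h0 : -(Real.pi / 3) < x) (h1 : x < 2 * (Real.pi / 3)) : 0 < tt x := by
  unfold tt
  refine div_pos (Real.cos_pos_of_mem_Ioo ⟨by linarith, by linarith⟩) cos6_pos

theorem tt_hasDerivAt (x : ℝ) : HasDerivAt tt (td x) x := by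
  have h1 : HasDerivAt (fun x : ℝ => x - Real.pi / 6) 1 x := (hasDerivAt_id x).sub_const _
  have h2 := (h1.cos).div_const (Real.cos (Real.pi / 6))
  rw [mul_one, ← Real.sin_neg, neg_sub] at h2
  exact h2

theorem tt_continuous : Continuous tt := by
  unfold tt
  fun_prop

theorem td_continuous : Continuous td := by
  unfold td
  fun_prop

theorem td_eq {x : ℝ} (h : tt x ≠ 0) : td x = tt x * Real.tan (Real.pi / 6 - x) := by
  have h' : Real.cos (Real.pi / 6 - x) ≠ 0 := by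
    intro h0
    apply h
    unfold tt
    rw [← Real.cos_neg, neg_sub, h0, zero_div]
  have e : tt x = Real.cos (Real.pi / 6 - x) / Real.cos (Real.pi / 6) := by
    unfold tt
    rw [← Real.cos_neg, neg_sub]
  rw [e, Real.tan_eq_sin_div_cos]
  unfold td
  generalize Real.cos (Real.pi / 6 - x) = c at h' ⊢
  generalize Real.sin (Real.pi / 6 - x) = d
  have := cos6_pos.ne'
  field_simp

theorem J_add (j j' : ℕ → ℝ) (a b : ℕ) : J (j + j') a b = J j a b + J j' a b := by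
  simp [J, sum_add_distrib]

theorem J_smul (c : ℝ) (j : ℕ → ℝ) (a b : ℕ) : J (c • j) a b = c * J j a b := by
  simp [J, mul_sum]

theorem J_trans (j : ℕ → ℝ) {a b c : ℕ} (h1 : a ≤ b) (h2 : b ≤ c) :
    J j a c = J j a b + J j b c := by
  unfold J
  rw [← sum_Ioc_consecutive j h1 h2]

variable {m : ℕ}

/-- `W` times the height, if no arc of `A` has weight zero. -/
theorem WU_eq (j : ℕ → ℝ) (μ : NM m) {A : Finset ℕ} (hA : A ⊆ μ.opn)
    (h : ∀ i ∈ A, tt (J j i (μ.M i)) ≠ 0) :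
    WU j μ A = W j μ * ∑ i ∈ A, Real.tan (Real.pi / 6 - J j i (μ.M i)) := by
  unfold WU W
  rw [mul_sum]
  refine sum_congr rfl fun i hi => ?_
  rw [td_eq (h i hi), ← mul_prod_erase μ.opn (fun l => tt (J j l (μ.M l))) (hA hi)]
  ring

/-- The numerators are bounded. -/
theorem abs_WU_le (j : ℕ → ℝ) (μ : NM m) {A : Finset ℕ} (hA : A ⊆ μ.opn) :
    |WU j μ A| ≤ m * (2 / Real.sqrt 3) ^ m := by
  have hq : (1 : ℝ) ≤ 2 / Real.sqrt 3 := by
    rw [le_div_iff₀ (by positivity), one_mul, Real.sqrt_le_left (by norm_num)]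
    norm_num
  have key : ∀ i ∈ A, |(∏ l ∈ μ.opn.erase i, tt (J j l (μ.M l))) * td (J j i (μ.M i))| ≤
      (2 / Real.sqrt 3) ^ m := by
    intro i hi
    have hi' := hA hi
    rw [abs_mul, abs_prod]
    calc (∏ l ∈ μ.opn.erase i, |tt (J j l (μ.M l))|) * |td (J j i (μ.M i))|
        ≤ (∏ l ∈ μ.opn.erase i, 2 / Real.sqrt 3) * (2 / Real.sqrt 3) := by
          refine mul_le_mul ?_ (abs_td_le _) (abs_nonneg _) (by positivity)
          exact prod_le_prod (fun l _ => abs_nonneg _) fun l _ => abs_tt_le _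
      _ = (2 / Real.sqrt 3) ^ μ.opn.card := by
          rw [prod_const, card_erase_of_mem hi', ← pow_succ]
          congr 1
          have : 0 < μ.opn.card := card_pos.2 ⟨i, hi'⟩
          omega
      _ ≤ (2 / Real.sqrt 3) ^ m := pow_le_pow_right₀ hq μ.card_opn
  unfold WU
  calc |∑ i ∈ A, (∏ l ∈ μ.opn.erase i, tt (J j l (μ.M l))) * td (J j i (μ.M i))|
      ≤ ∑ i ∈ A, |(∏ l ∈ μ.opn.erase i, tt (J j l (μ.M l))) * td (J j i (μ.M i))| :=
        abs_sum_le_sum_abs _ _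
    _ ≤ ∑ i ∈ A, (2 / Real.sqrt 3) ^ m := sum_le_sum key
    _ = A.card * (2 / Real.sqrt 3) ^ m := by rw [sum_const, nsmul_eq_mul]
    _ ≤ m * (2 / Real.sqrt 3) ^ m := by
        refine mul_le_mul_of_nonneg_right ?_ (by positivity)
        exact_mod_cast (card_le_card hA).trans μ.card_opn

theorem WU_union (j : ℕ → ℝ) (μ : NM m) {A B : Finset ℕ} (h : Disjoint A B) :
    WU j μ (A ∪ B) = WU j μ A + WU j μ B := by
  unfold WU
  rw [sum_union h]

theorem WU_empty (j : ℕ → ℝ) (μ : NM m) : WU j μ ∅ = 0 := by simp [WU]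

/-! ## Linear families -/

/-- The family `j₀ + α j₁`. -/
def fj (j₀ j₁ : ℕ → ℝ) (α : ℝ) : ℕ → ℝ := j₀ + α • j₁

theorem J_fj (j₀ j₁ : ℕ → ℝ) (α : ℝ) (a b : ℕ) :
    J (fj j₀ j₁ α) a b = J j₀ a b + α * J j₁ a b := by
  unfold fj
  rw [J_add, J_smul]

theorem J_fj_continuous (j₀ j₁ : ℕ → ℝ) (a b : ℕ) : Continuous fun α => J (fj j₀ j₁ α) a b := by
  simp_rw [J_fj]
  fun_prop

theorem fac_hasDerivAt (j₀ j₁ : ℕ → ℝ) (a b : ℕ) (α : ℝ) :
    HasDerivAt (fun α => tt (J (fj j₀ j₁ α) a b)) (td (J (fj j₀ j₁ α) a b) * J j₁ a b) α := by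
  have h1 : HasDerivAt (fun α => J (fj j₀ j₁ α) a b) (J j₁ a b) α := by
    have : (fun α => J (fj j₀ j₁ α) a b) = fun α => J j₀ a b + α * J j₁ a b := by
      funext α; exact J_fj _ _ _ _ _
    rw [this]
    simpa using ((hasDerivAt_id α).mul_const (J j₁ a b)).const_add (J j₀ a b)
  exact (tt_hasDerivAt _).comp α h1

/-- Double counting: arcs and the vertices under them. -/
theorem sum_arcs_eq (μ : NM m) (j₁ : ℕ → ℝ) (X : ℕ → ℝ) :
    ∑ i ∈ μ.opn, X i * J j₁ i (μ.M i) = ∑ v ∈ range m, j₁ v * ∑ i ∈ μ.ovr v, X i := by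
  have h1 : ∀ i ∈ μ.opn, X i * J j₁ i (μ.M i) =
      ∑ v ∈ range m, if i < v ∧ v ≤ μ.M i then j₁ v * X i else 0 := by
    intro i hi
    rw [μ.mem_opn] at hi
    unfold J
    rw [mul_sum, ← sum_filter]
    have : (range m).filter (fun v => i < v ∧ v ≤ μ.M i) = Ioc i (μ.M i) := by
      ext v
      have := μ.lt hi.1
      simp only [mem_filter, mem_range, mem_Ioc]
      constructor
      · rintro ⟨-, h⟩; exact h
      · intro h; exact ⟨by omega, h⟩
    rw [this]
    exact sum_congr rfl fun v _ => mul_comm _ _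
  rw [sum_congr rfl h1, sum_comm]
  refine sum_congr rfl fun v _ => ?_
  rw [← sum_filter, mul_sum]
  rfl

/-- The derivative of the weight along a linear family. -/
theorem W_hasDerivAt (j₀ j₁ : ℕ → ℝ) (μ : NM m) (α : ℝ) :
    HasDerivAt (fun α => W (fj j₀ j₁ α) μ)
      (∑ v ∈ range m, j₁ v * WU (fj j₀ j₁ α) μ (μ.ovr v)) α := by
  have h : HasDerivAt (fun α => W (fj j₀ j₁ α) μ)
      (∑ i ∈ μ.opn, (∏ l ∈ μ.opn.erase i, tt (J (fj j₀ j₁ α) l (μ.M l))) •
        (td (J (fj j₀ j₁ α) i (μ.M i)) * J j₁ i (μ.M i))) α := by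
    unfold W
    exact HasDerivAt.fun_finsetProd fun i _ => fac_hasDerivAt j₀ j₁ i (μ.M i) α
  refine h.congr_deriv ?_
  have := sum_arcs_eq μ j₁
    (fun i => (∏ l ∈ μ.opn.erase i, tt (J (fj j₀ j₁ α) l (μ.M l))) * td (J (fj j₀ j₁ α) i (μ.M i)))
  unfold WU
  rw [← this]
  refine sum_congr rfl fun i _ => ?_
  rw [smul_eq_mul, mul_assoc]

theorem W_continuous (j₀ j₁ : ℕ → ℝ) (μ : NM m) : Continuous fun α => W (fj j₀ j₁ α) μ := by
  unfold W
  exact continuous_finsetProd _ fun i _ => tt_continuous.comp (J_fj_continuous _ _ _ _)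

theorem WU_continuous (j₀ j₁ : ℕ → ℝ) (μ : NM m) (A : Finset ℕ) :
    Continuous fun α => WU (fj j₀ j₁ α) μ A := by
  unfold WU
  refine continuous_finsetSum _ fun i _ => Continuous.mul ?_ ?_
  · exact continuous_finsetProd _ fun l _ => tt_continuous.comp (J_fj_continuous _ _ _ _)
  · exact td_continuous.comp (J_fj_continuous _ _ _ _)

/-! ## Sums over configurations -/

section Config

variable {Ω : Type*} (s : Finset Ω) (p : Ω → ℝ) (μ : Ω → NM m)

/-- The partition function. -/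
def ZW (j : Ω → ℕ → ℝ) : ℝ := ∑ ω ∈ s, p ω * W (j ω) (μ ω)

/-- The height numerator: arcs `A ω`, and `L ω` (from the loops, `0` at the boundary). -/
def HW (j : Ω → ℕ → ℝ) (A : Ω → Finset ℕ) (L : Ω → ℝ) : ℝ :=
  ∑ ω ∈ s, p ω * (WU (j ω) (μ ω) (A ω) + W (j ω) (μ ω) * L ω)

/-- The height. -/
def uW (j : Ω → ℕ → ℝ) (A : Ω → Finset ℕ) (L : Ω → ℝ) : ℝ := HW s p μ j A L / ZW s p μ j

/-- The height at the boundary vertex `v`. -/
def ub (j : Ω → ℕ → ℝ) (v : ℕ) : ℝ := uW s p μ j (fun ω => (μ ω).ovr v) 0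

variable (j₀ j₁ : Ω → ℕ → ℝ)

theorem ZW_continuous : Continuous fun α => ZW s p μ fun ω => fj (j₀ ω) (j₁ ω) α := by
  unfold ZW
  exact continuous_finsetSum _ fun ω _ => (W_continuous _ _ _).const_mul _

theorem HW_continuous (A : Ω → Finset ℕ) (L : Ω → ℝ) :
    Continuous fun α => HW s p μ (fun ω => fj (j₀ ω) (j₁ ω) α) A L := by
  unfold HW
  exact continuous_finsetSum _ fun ω _ =>
    ((WU_continuous _ _ _ _).add ((W_continuous _ _ _).mul_const _)).const_mul _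

theorem uW_continuousOn (A : Ω → Finset ℕ) (L : Ω → ℝ) {S : Set ℝ}
    (h : ∀ α ∈ S, ZW s p μ (fun ω => fj (j₀ ω) (j₁ ω) α) ≠ 0) :
    ContinuousOn (fun α => uW s p μ (fun ω => fj (j₀ ω) (j₁ ω) α) A L) S :=
  (HW_continuous s p μ j₀ j₁ A L).continuousOn.div (ZW_continuous s p μ j₀ j₁).continuousOn h

theorem uW_intervalIntegrable (A : Ω → Finset ℕ) (L : Ω → ℝ)
    (h : ∀ α ∈ Set.Icc (0 : ℝ) 1, ZW s p μ (fun ω => fj (j₀ ω) (j₁ ω) α) ≠ 0) :
    IntervalIntegrable (fun α => uW s p μ (fun ω => fj (j₀ ω) (j₁ ω) α) A L)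
      MeasureTheory.volume 0 1 := by
  refine ContinuousOn.intervalIntegrable ?_
  rw [Set.uIcc_of_le zero_le_one]
  exact uW_continuousOn s p μ j₀ j₁ A L h

theorem HW_bdry (j : Ω → ℕ → ℝ) (v : ℕ) :
    HW s p μ j (fun ω => (μ ω).ovr v) 0 = ∑ ω ∈ s, p ω * WU (j ω) (μ ω) ((μ ω).ovr v) := by
  unfold HW
  simp

theorem ZW_hasDerivAt (j₁ : ℕ → ℝ) (α : ℝ) :
    HasDerivAt (fun α => ZW s p μ fun ω => fj (j₀ ω) j₁ α)
      (∑ v ∈ range m, j₁ v * HW s p μ (fun ω => fj (j₀ ω) j₁ α) (fun ω => (μ ω).ovr v) 0) α := by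
  have h : HasDerivAt (fun α => ZW s p μ fun ω => fj (j₀ ω) j₁ α)
      (∑ ω ∈ s, p ω * ∑ v ∈ range m, j₁ v * WU (fj (j₀ ω) j₁ α) (μ ω) ((μ ω).ovr v)) α := by
    unfold ZW
    exact HasDerivAt.fun_sum fun ω _ => (W_hasDerivAt _ _ _ _).const_mul _
  refine h.congr_deriv ?_
  simp_rw [HW_bdry, mul_sum]
  rw [sum_comm]
  exact sum_congr rfl fun v _ => sum_congr rfl fun ω _ => by ring

/-- **Logarithmic derivative formula**, integrated. -/
theorem log_ratio (j₁ : ℕ → ℝ)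
    (h : ∀ α ∈ Set.Icc (0 : ℝ) 1, 0 < ZW s p μ (fun ω => fj (j₀ ω) j₁ α)) :
    Real.log (ZW s p μ fun ω => fj (j₀ ω) j₁ 1) - Real.log (ZW s p μ fun ω => fj (j₀ ω) j₁ 0) =
      ∑ v ∈ range m, j₁ v * ∫ α in (0 : ℝ)..1, ub s p μ (fun ω => fj (j₀ ω) j₁ α) v := by
  have hI : ∀ v, IntervalIntegrable (fun α => ub s p μ (fun ω => fj (j₀ ω) j₁ α) v)
      MeasureTheory.volume 0 1 := fun v =>
    uW_intervalIntegrable s p μ j₀ (fun _ => j₁) _ _ fun α hα => (h α hα).ne'
  have h1 : ∀ α ∈ Set.uIcc (0 : ℝ) 1,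
      HasDerivAt (fun α => Real.log (ZW s p μ fun ω => fj (j₀ ω) j₁ α))
        (∑ v ∈ range m, j₁ v * ub s p μ (fun ω => fj (j₀ ω) j₁ α) v) α := by
    intro α hα
    rw [Set.uIcc_of_le zero_le_one] at hα
    have := (ZW_hasDerivAt s p μ j₀ j₁ α).log (h α hα).ne'
    refine this.congr_deriv ?_
    rw [sum_div]
    refine sum_congr rfl fun v _ => ?_
    unfold ub uW
    rw [mul_div_assoc]
  have h3 : IntervalIntegrable
      (fun α => ∑ v ∈ range m, j₁ v * ub s p μ (fun ω => fj (j₀ ω) j₁ α) v)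
      MeasureTheory.volume 0 1 := by
    have := IntervalIntegrable.sum (range m)
      (f := fun v α => j₁ v * ub s p μ (fun ω => fj (j₀ ω) j₁ α) v) fun v _ => (hI v).const_mul _
    have e : (fun α => ∑ v ∈ range m, j₁ v * ub s p μ (fun ω => fj (j₀ ω) j₁ α) v) =
        ∑ v ∈ range m, fun α => j₁ v * ub s p μ (fun ω => fj (j₀ ω) j₁ α) v := by
      funext α
      rw [Finset.sum_apply]
    rw [e]
    exact this
  have h2 := intervalIntegral.integral_eq_sub_of_hasDerivAt h1 h3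
  rw [← h2, intervalIntegral.integral_finsetSum fun v _ => (hI v).const_mul _]
  exact sum_congr rfl fun v _ => intervalIntegral.integral_const_mul _ _

end Config

end

end Pool.Agent.SixB.TW
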