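import Pool.Agent.Lib.SixB.S8Order

/-!
# Step 8: inner approximations of the true domain, and their update after a move

`App U P κ d`: `P ⊆ U` is a union of classes, the classes are connected, of diameter `< d`, and every
class outside `P` which has a common side with `P` contains a face outside `U` (the hypotheses of
`order_arcs`).

`App.update`: the effect of a move. `D ⊆ P`, `Z ⊆ D` (barrier), `Dm ⊆ D \ Z` (the part in front of the
barrier), `K ⊆ Dm` (the recorded unvisited cells), `N` (the visited faces), `Zj ⊆ Z` (the piece which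
was entered), `P'` = a part of `P \ ((Dm \ K) ∪ Zj)` closed under adjacency. Classes: old classes
outside `P`; visited full cells; the other components of (cell ∩ `Dm`) are merged with an old class
outside `P` in the same cell; `Zj` is merged with the class of the last visited face.
-/

set_option autoImplicit false

namespace Pool.Agent.SixB

open Pool.Agent.Perc Pool.Agent.Perc6

/-- Inner approximation of `U` by `P` with classes `κ` of diameter `< d`. -/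
structure App {ι : Type*} (U P : Set (ℤ × ℤ)) (κ : ℤ × ℤ → ι) (d : ℤ) : Prop where
  sub : P ⊆ U
  sat : ∀ x y, κ x = κ y → x ∈ P → y ∈ P
  cell : ∀ x y, κ x = κ y → Chn {z | κ z = κ x} x y
  diam : ∀ x y, κ x = κ y → |x.1 - y.1| < d ∧ |x.2 - y.2| < d
  out : ∀ f ∈ P, ∀ g, Adj f g → g ∉ P → ∃ x, κ x = κ g ∧ x ∉ U

theorem App.d_pos {ι : Type*} {U P : Set (ℤ × ℤ)} {κ : ℤ × ℤ → ι} {d : ℤ} (h : App U P κ d) :
    0 < d := by
  have := (h.diam (0, 0) (0, 0) rfl).1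
  simpa using this

theorem App.mono {ι : Type*} {U P : Set (ℤ × ℤ)} {κ : ℤ × ℤ → ι} {d e : ℤ} (h : App U P κ d)
    (hde : d ≤ e) : App U P κ e :=
  ⟨h.sub, h.sat, h.cell, fun x y hxy => ⟨(h.diam x y hxy).1.trans_le hde,
    (h.diam x y hxy).2.trans_le hde⟩, h.out⟩

/-- The classes can be named by faces. -/
theorem App.rep {ι : Type*} {U P : Set (ℤ × ℤ)} {κ : ℤ × ℤ → ι} {d : ℤ} (h : App U P κ d) :
    ∃ κ' : ℤ × ℤ → ℤ × ℤ, (∀ x y, κ' x = κ' y ↔ κ x = κ y) ∧ App U P κ' d := by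
  classical
  set κ' : ℤ × ℤ → ℤ × ℤ := fun x => (Quotient.mk (Setoid.ker κ) x).out with hκ'
  have hiff : ∀ x y, κ' x = κ' y ↔ κ x = κ y := by
    intro x y
    simp only [hκ']
    constructor
    · intro hxy
      have : Quotient.mk (Setoid.ker κ) x = Quotient.mk (Setoid.ker κ) y := by
        rw [← Quotient.out_eq (Quotient.mk (Setoid.ker κ) x), hxy, Quotient.out_eq]
      exact Quotient.exact this
    · intro hxy
      have : Quotient.mk (Setoid.ker κ) x = Quotient.mk (Setoid.ker κ) y := Quotient.sound hxy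
      rw [this]
  refine ⟨κ', hiff, h.sub, fun x y hxy => h.sat x y ((hiff x y).1 hxy), ?_,
    fun x y hxy => h.diam x y ((hiff x y).1 hxy), ?_⟩
  · intro x y hxy
    have h1 := h.cell x y ((hiff x y).1 hxy)
    have h2 : {z | κ' z = κ' x} = {z | κ z = κ x} := by
      ext z
      exact hiff z x
    rw [h2]
    exact h1
  · intro f hf g hfg hg
    obtain ⟨x, hx1, hx2⟩ := h.out f hf g hfg hg
    exact ⟨x, (hiff x g).2 hx1, hx2⟩

theorem adj_symm_app {f g : ℤ × ℤ} (h : Adj f g) : Adj g f := by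
  unfold Adj at *
  omega

theorem chn_mem_app {S : Set (ℤ × ℤ)} {f g : ℤ × ℤ} (h : Chn S f g) : g ∈ S := by
  obtain ⟨h1, h2⟩ := h
  rcases Relation.ReflTransGen.cases_tail h2 with h3 | ⟨c, -, h3⟩
  · rw [h3]; exact h1
  · exact h3.2

theorem chn_trans_app {S : Set (ℤ × ℤ)} {f g h : ℤ × ℤ} (h1 : Chn S f g) (h2 : Chn S g h) :
    Chn S f h := ⟨h1.1, h1.2.trans h2.2⟩

theorem chn_mono_app {S T : Set (ℤ × ℤ)} (hST : S ⊆ T) {f g : ℤ × ℤ} (h : Chn S f g) : Chn T f g := by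
  obtain ⟨h1, h2⟩ := h
  refine ⟨hST h1, ?_⟩
  induction h2 with
  | refl => exact Relation.ReflTransGen.refl
  | tail _ hs ih => exact ih.tail ⟨hs.1, hST hs.2⟩

theorem chn_symm_app {S : Set (ℤ × ℤ)} {f g : ℤ × ℤ} (h : Chn S f g) : Chn S g f := by
  obtain ⟨h1, h2⟩ := h
  induction h2 with
  | refl => exact ⟨h1, Relation.ReflTransGen.refl⟩
  | @tail b c hb hs ih =>
    have hb' : b ∈ S := chn_mem_app ⟨h1, hb⟩
    exact ⟨hs.2, (Relation.ReflTransGen.single ⟨adj_symm_app hs.1, hb'⟩).trans ih.2⟩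

theorem chn_step_app {S : Set (ℤ × ℤ)} {f g : ℤ × ℤ} (hf : f ∈ S) (hg : g ∈ S) (h : Adj f g) :
    Chn S f g := ⟨hf, Relation.ReflTransGen.single ⟨h, hg⟩⟩

/-- A chain which leaves a set. -/
theorem chn_leave_app {S A : Set (ℤ × ℤ)} {f g : ℤ × ℤ} (h : Chn S f g) (hf : f ∈ A) (hg : g ∉ A) :
    ∃ x y, Chn (S ∩ A) f x ∧ Adj x y ∧ y ∈ S ∧ y ∉ A := by
  obtain ⟨h1, h2⟩ := h
  induction h2 with
  | refl => exact absurd hf hg
  | @tail b c hb hs ih =>
    by_cases hbA : b ∈ A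
    · by_cases hex : ∃ x y, Chn (S ∩ A) f x ∧ Adj x y ∧ y ∈ S ∧ y ∉ A
      · exact hex
      · -- all the chain up to `b` is in `A`
        have key : ∀ b, Relation.ReflTransGen (fun a b => Adj a b ∧ b ∈ S) f b →
            (∃ x y, Chn (S ∩ A) f x ∧ Adj x y ∧ y ∈ S ∧ y ∉ A) ∨ Chn (S ∩ A) f b := by
          intro b hb
          induction hb with
          | refl => exact Or.inr ⟨⟨h1, hf⟩, Relation.ReflTransGen.refl⟩
          | @tail p q hp hs ih =>
            rcases ih with h3 | h3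
            · exact Or.inl h3
            · by_cases hq : q ∈ A
              · exact Or.inr ⟨h3.1, h3.2.tail ⟨hs.1, hs.2, hq⟩⟩
              · exact Or.inl ⟨p, q, h3, hs.1, hs.2, hq⟩
        rcases key b hb with h3 | h3
        · exact h3
        · exact ⟨b, c, h3, hs.1, hs.2, hg⟩
    · exact ih hbA

/-! ### The update -/

/-- The data of a move, as far as the approximation is concerned. -/
structure MoveData {γ : Type*} (U P D Z Dm K N Zj P' U' : Set (ℤ × ℤ)) (c : ℤ × ℤ → γ) (d' : ℤ) :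
    Prop where
  /-- cells of the new resolution -/
  cell : ∀ x y, c x = c y → Chn {z | c z = c x} x y
  diam : ∀ x y, c x = c y → |x.1 - y.1| < d' ∧ |x.2 - y.2| < d'
  DP : D ⊆ P
  /-- a face of `D` with an exit side is in the barrier -/
  exit : ∀ f ∈ D, ∀ h ∈ P, h ∉ D → Adj f h → f ∈ Z
  ZD : Z ⊆ D
  /-- the barrier is saturated in the pieces (cell ∩ `D`) -/
  Zsat : ∀ f ∈ Z, ∀ g ∈ D, Adj f g → c f = c g → g ∈ Z
  DmD : Dm ⊆ D
  DmZ : ∀ f ∈ Dm, f ∉ Z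
  DmCl : ∀ f ∈ Dm, ∀ g ∈ D, g ∉ Z → Adj f g → g ∈ Dm
  KDm : K ⊆ Dm
  Ksat : ∀ f ∈ K, ∀ g, c g = c f → g ∈ K
  /-- an unvisited full cell of `Dm` adjacent to `K` or to the barrier is in `K` -/
  Kmax : ∀ f, (∀ g, c g = c f → g ∈ Dm ∧ g ∉ N) → (∃ g h, c g = c f ∧ (h ∈ K ∨ h ∈ Z) ∧ Adj g h) →
    f ∈ K
  KN : ∀ f ∈ K, f ∉ N
  ZjZ : Zj ⊆ Z
  Zjcon : ∀ x ∈ Zj, ∀ y ∈ Zj, Chn Zj x y
  Zjdiam : ∀ x ∈ Zj, ∀ y ∈ Zj, |x.1 - y.1| < 2 * d' ∧ |x.2 - y.2| < 2 * d'
  /-- the last visited face, or (no visited face) a neighbour outside `P` -/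
  Zjlast : (∃ y₀ ∈ Dm, y₀ ∈ N ∧ ∃ z ∈ Zj, Adj z y₀) ∨ ∃ h, h ∉ P ∧ ∃ z ∈ Zj, Adj z h
  P'P : P' ⊆ P
  P'V : ∀ f ∈ P', ¬ (f ∈ Dm ∧ f ∉ K) ∧ f ∉ Zj
  P'cl : ∀ f ∈ P', ∀ g ∈ P, Adj f g → ¬ (g ∈ Dm ∧ g ∉ K) → g ∉ Zj → g ∈ P'
  P'U' : P' ⊆ U'
  U'U : U' ⊆ U
  U'N : ∀ f ∈ U', f ∉ N

section Update

variable {ι γ : Type*} {U P D Z Dm K N Zj P' U' : Set (ℤ × ℤ)} {κ : ℤ × ℤ → ι} {c : ℤ × ℤ → γ}
  {d d' : ℤ}

/-- The piece of the face `g` in (cell ∩ `Dm`). -/
def pcs (Dm : Set (ℤ × ℤ)) (c : ℤ × ℤ → γ) (g : ℤ × ℤ) : Set (ℤ × ℤ) :=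
  {x | Chn (Dm ∩ {z | c z = c g}) g x}

theorem pcs_eq {g x : ℤ × ℤ} (hx : x ∈ pcs Dm c g) : pcs Dm c x = pcs Dm c g := by
  have hcx : c x = c g := (chn_mem_app hx).2
  have hx' : Chn (Dm ∩ {z | c z = c g}) g x := hx
  ext y
  unfold pcs
  simp only [Set.mem_ofPred_eq]
  rw [hcx]
  constructor
  · intro hy
    exact chn_trans_app hx' hy
  · intro hy
    exact chn_trans_app (chn_symm_app hx') hy

open Classical in
/-- A face outside `P`, in the same cell, adjacent to the piece `C`. -/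
noncomputable def hfun (P : Set (ℤ × ℤ)) (c : ℤ × ℤ → γ) (C : Set (ℤ × ℤ)) : ℤ × ℤ :=
  if h : ∃ h, h ∉ P ∧ ∃ x ∈ C, Adj x h ∧ c h = c x then h.choose else (0, 0)

theorem hfun_spec {C : Set (ℤ × ℤ)} (h : ∃ h, h ∉ P ∧ ∃ x ∈ C, Adj x h ∧ c h = c x) :
    hfun P c C ∉ P ∧ ∃ x ∈ C, Adj x (hfun P c C) ∧ c (hfun P c C) = c x := by
  unfold hfun
  rw [dif_pos h]
  exact h.choose_spec

/-- A piece which is not a full cell has a neighbour outside `P` in its cell. -/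
theorem exists_hfun (M : MoveData U P D Z Dm K N Zj P' U' c d') {g : ℤ × ℤ} (hg : g ∈ Dm)
    (hn : ¬ ∀ y, c y = c g → y ∈ Dm) : ∃ h, h ∉ P ∧ ∃ x ∈ pcs Dm c g, Adj x h ∧ c h = c x := by
  push Not at hn
  obtain ⟨y, hy, hyD⟩ := hn
  have h1 := M.cell g y hy.symm
  have hg' : g ∈ pcs Dm c g := ⟨⟨hg, rfl⟩, Relation.ReflTransGen.refl⟩
  have hy' : y ∉ pcs Dm c g := fun h => hyD (chn_mem_app h).1
  obtain ⟨x, h, hx, hxh, hh, hhn⟩ := chn_leave_app h1 hg' hy'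
  have hxp : x ∈ pcs Dm c g := (chn_mem_app hx).2
  have hxD : x ∈ Dm := (chn_mem_app (show Chn _ g x from hxp)).1
  have hcx : c x = c g := (chn_mem_app (show Chn _ g x from hxp)).2
  have hch : c h = c g := hh
  have hhD : h ∉ Dm := by
    intro hD
    apply hhn
    exact chn_trans_app (show Chn (Dm ∩ {z | c z = c g}) g x from hxp)
      (chn_step_app ⟨hxD, hcx⟩ ⟨hD, hch⟩ hxh)
  refine ⟨h, fun hP => ?_, x, hxp, hxh, hch.trans hcx.symm⟩
  by_cases hhDD : h ∈ D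
  · by_cases hhZ : h ∈ Z
    · exact M.DmZ x hxD (M.Zsat h hhZ x (M.DmD hxD) (adj_symm_app hxh) (hch.trans hcx.symm))
    · exact hhD (M.DmCl x hxD h hhDD hhZ hxh)
  · exact M.DmZ x hxD (M.exit x (M.DmD hxD) h hP hhDD hxh)

open Classical in
/-- The name of a face of `Dm \ K`. -/
noncomputable def nmD (P Dm : Set (ℤ × ℤ)) (κ : ℤ × ℤ → ι) (c : ℤ × ℤ → γ) (g : ℤ × ℤ) :
    (ℤ × ℤ) ⊕ (ι ⊕ γ) :=
  if ∀ y, c y = c g → y ∈ Dm then Sum.inr (Sum.inr (c g))
  else Sum.inr (Sum.inl (κ (hfun P c (pcs Dm c g))))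

open Classical in
/-- The new classes. -/
noncomputable def nmA (P Dm K Zj P' : Set (ℤ × ℤ)) (κ : ℤ × ℤ → ι) (c : ℤ × ℤ → γ)
    (z₀ : (ℤ × ℤ) ⊕ (ι ⊕ γ)) (g : ℤ × ℤ) : (ℤ × ℤ) ⊕ (ι ⊕ γ) :=
  if g ∈ P' then Sum.inl g
  else if g ∉ P then Sum.inr (Sum.inl (κ g))
  else if g ∈ Zj then z₀
  else if g ∈ Dm ∧ g ∉ K then nmD P Dm κ c g
  else Sum.inl g

variable {z₀ : (ℤ × ℤ) ⊕ (ι ⊕ γ)}

theorem nmA_P' {x : ℤ × ℤ} (h : x ∈ P') : nmA P Dm K Zj P' κ c z₀ x = Sum.inl x := by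
  unfold nmA
  rw [if_pos h]

theorem nmA_notP (M : MoveData U P D Z Dm K N Zj P' U' c d') {x : ℤ × ℤ} (h : x ∉ P) :
    nmA P Dm K Zj P' κ c z₀ x = Sum.inr (Sum.inl (κ x)) := by
  unfold nmA
  rw [if_neg (fun h' => h (M.P'P h')), if_pos h]

theorem nmA_Zj (M : MoveData U P D Z Dm K N Zj P' U' c d') {x : ℤ × ℤ} (h : x ∈ Zj) :
    nmA P Dm K Zj P' κ c z₀ x = z₀ := by
  unfold nmA
  rw [if_neg (fun h' => (M.P'V x h').2 h), if_neg (not_not.2 (M.DP (M.ZD (M.ZjZ h)))), if_pos h]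

theorem nmA_Dm (M : MoveData U P D Z Dm K N Zj P' U' c d') {x : ℤ × ℤ} (h : x ∈ Dm) (hK : x ∉ K) :
    nmA P Dm K Zj P' κ c z₀ x = nmD P Dm κ c x := by
  unfold nmA
  rw [if_neg (fun h' => (M.P'V x h').1 ⟨h, hK⟩), if_neg (not_not.2 (M.DP (M.DmD h))),
    if_neg (fun h' => M.DmZ x h (M.ZjZ h')), if_pos ⟨h, hK⟩]

/-- The condition on the name of the entered piece. -/
def NameOK (P D Dm N Zj : Set (ℤ × ℤ)) (κ : ℤ × ℤ → ι) (c : ℤ × ℤ → γ)
    (z₀ : (ℤ × ℤ) ⊕ (ι ⊕ γ)) : Prop :=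
  (∃ y₀ ∈ Dm, y₀ ∈ N ∧ (∃ z ∈ Zj, Adj z y₀) ∧ z₀ = nmD P Dm κ c y₀) ∨
    ∃ h, h ∉ P ∧ (∃ z ∈ Zj, Adj z h) ∧ z₀ = Sum.inr (Sum.inl (κ h))

theorem nmD_ne_inl {x y : ℤ × ℤ} : nmD P Dm κ c x ≠ Sum.inl y := by
  unfold nmD
  split_ifs <;> simp

theorem nmA_inl (hz : NameOK P D Dm N Zj κ c z₀) {x y : ℤ × ℤ}
    (h : nmA P Dm K Zj P' κ c z₀ x = Sum.inl y) : x = y := by
  unfold nmA at h
  by_cases h1 : x ∈ P'
  · rw [if_pos h1] at h
    exact Sum.inl.inj h
  rw [if_neg h1] at h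
  by_cases h2 : x ∉ P
  · rw [if_pos h2] at h
    simp at h
  rw [if_neg h2] at h
  by_cases h3 : x ∈ Zj
  · rw [if_pos h3] at h
    rcases hz with ⟨y₀, -, -, -, h5⟩ | ⟨h', -, -, h5⟩
    · rw [h5] at h
      exact absurd h nmD_ne_inl
    · rw [h5] at h
      simp at h
  rw [if_neg h3] at h
  by_cases h4 : x ∈ Dm ∧ x ∉ K
  · rw [if_pos h4] at h
    exact absurd h nmD_ne_inl
  · rw [if_neg h4] at h
    exact Sum.inl.inj h

theorem adj_near_app {f g : ℤ × ℤ} (h : Adj f g) : |f.1 - g.1| ≤ 1 ∧ |f.2 - g.2| ≤ 1 := by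
  unfold Adj at h
  rw [abs_le, abs_le]
  omega

/-- The anchor of a face of `Dm \ K`. -/
theorem anchorD (M : MoveData U P D Z Dm K N Zj P' U' c d') {x : ℤ × ℤ}
    (hx : x ∈ Dm) (hK : x ∉ K) :
    (∃ g, nmD P Dm κ c x = Sum.inr (Sum.inr g) ∧ c x = g ∧ (∀ y, c y = g → y ∈ Dm ∧ y ∉ K)) ∨
    ∃ p, p ∉ P ∧ nmD P Dm κ c x = Sum.inr (Sum.inl (κ p)) ∧
      Chn {z | nmA P Dm K Zj P' κ c z₀ z = Sum.inr (Sum.inl (κ p))} x p ∧
      |x.1 - p.1| < d' ∧ |x.2 - p.2| < d' := by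
  by_cases hfull : ∀ y, c y = c x → y ∈ Dm
  · left
    refine ⟨c x, ?_, rfl, fun y hy => ⟨hfull y hy, fun hyK => hK (M.Ksat y hyK x hy.symm)⟩⟩
    unfold nmD
    rw [if_pos hfull]
  · right
    obtain ⟨h1, x₁, h2, h3, h4⟩ := hfun_spec (exists_hfun M hx hfull)
    set p := hfun P c (pcs Dm c x) with hp
    have hname : nmD P Dm κ c x = Sum.inr (Sum.inl (κ p)) := by
      unfold nmD
      rw [if_neg hfull]
    have hpc : ∀ y ∈ pcs Dm c x, nmA P Dm K Zj P' κ c z₀ y = Sum.inr (Sum.inl (κ p)) := by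
      intro y hy
      have hyD : y ∈ Dm := (chn_mem_app (show Chn _ x y from hy)).1
      have hyc : c y = c x := (chn_mem_app (show Chn _ x y from hy)).2
      have hyK : y ∉ K := by
        intro hyK
        exact hfull fun z hz => M.KDm (M.Ksat y hyK z (hz.trans hyc.symm))
      rw [nmA_Dm M hyD hyK]
      unfold nmD
      rw [if_neg (by rw [hyc]; exact hfull), pcs_eq hy]
    refine ⟨p, h1, hname, ?_, ?_⟩
    · have hc1 : Chn {z | nmA P Dm K Zj P' κ c z₀ z = Sum.inr (Sum.inl (κ p))} x x₁ := by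
        have hc0 : Chn (pcs Dm c x) x x₁ := by
          have h5 : Chn (Dm ∩ {z | c z = c x}) x x₁ := h2
          obtain ⟨h6, h7⟩ := h5
          clear hpc
          have key : ∀ y, Relation.ReflTransGen (fun a b => Adj a b ∧ b ∈ Dm ∩ {z | c z = c x}) x y →
              Chn (pcs Dm c x) x y := by
            intro y hy
            induction hy with
            | refl => exact ⟨⟨h6, Relation.ReflTransGen.refl⟩, Relation.ReflTransGen.refl⟩
            | @tail a b hab hs ih =>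
              exact ⟨ih.1, ih.2.tail ⟨hs.1, ⟨h6, hab.tail hs⟩⟩⟩
          exact key x₁ h7
        exact chn_mono_app (fun y hy => hpc y hy) hc0
      refine chn_trans_app hc1 (chn_step_app (hpc x₁ h2) ?_ h3)
      show nmA P Dm K Zj P' κ c z₀ p = _
      rw [nmA_notP M h1]
    · have hcx : c x₁ = c x := (chn_mem_app (show Chn _ x x₁ from h2)).2
      exact M.diam x p (h4.trans hcx).symm

/-- The anchor of a face with the name of an old class. -/
theorem anchor1 (A : App U P κ d) (M : MoveData U P D Z Dm K N Zj P' U' c d')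
    (hz : NameOK P D Dm N Zj κ c z₀) {x : ℤ × ℤ} {i : ι}
    (hx : nmA P Dm K Zj P' κ c z₀ x = Sum.inr (Sum.inl i)) :
    ∃ p, p ∉ P ∧ κ p = i ∧ Chn {z | nmA P Dm K Zj P' κ c z₀ z = Sum.inr (Sum.inl i)} x p ∧
      |x.1 - p.1| < 3 * d' ∧ |x.2 - p.2| < 3 * d' := by
  have hd : 0 < d' := by
    have := (M.diam (0, 0) (0, 0) rfl).1
    simpa using this
  by_cases h1 : x ∈ P'
  · rw [nmA_P' h1] at hx
    simp at hx
  by_cases h2 : x ∉ P
  · have h3 := nmA_notP (κ := κ) (z₀ := z₀) M h2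
    rw [hx] at h3
    have h4 : i = κ x := by simpa using h3
    refine ⟨x, h2, h4.symm, ⟨hx, Relation.ReflTransGen.refl⟩, ?_, ?_⟩ <;> simp [hd]
  rw [not_not] at h2
  by_cases h3 : x ∈ Zj
  · have h4 := nmA_Zj (κ := κ) (z₀ := z₀) M h3
    rw [hx] at h4
    have hZn : ∀ y ∈ Zj, nmA P Dm K Zj P' κ c z₀ y = Sum.inr (Sum.inl i) := fun y hy => by
      rw [nmA_Zj M hy, h4]
    rcases hz with ⟨y₀, hy1, hy2, ⟨z, hz1, hz2⟩, hy3⟩ | ⟨h, hh1, ⟨z, hz1, hz2⟩, hh3⟩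
    · have hyK : y₀ ∉ K := fun h => M.KN y₀ h hy2
      rcases anchorD (z₀ := z₀) M hy1 hyK with ⟨g, h5, -, -⟩ | ⟨p, h5, h6, h7, h8, h9⟩
      · rw [← hy3, ← h4] at h5
        simp at h5
      · have h10 : κ p = i := by
          rw [← hy3, ← h4] at h6
          simpa using h6.symm
        rw [h10] at h7
        refine ⟨p, h5, h10, ?_, ?_⟩
        · exact chn_trans_app (chn_mono_app (fun y hy => hZn y hy) (M.Zjcon x h3 z hz1))
            (chn_trans_app (chn_step_app (hZn z hz1) h7.1 hz2) h7)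
        · have e1 := M.Zjdiam x h3 z hz1
          have e2 := adj_near_app hz2
          rw [abs_lt] at *
          rw [abs_le] at e2
          rw [abs_lt] at e1
          rw [abs_lt] at *
          rw [abs_le] at e2
          omega
    · have h5 : κ h = i := by
        rw [hh3] at h4
        simpa using h4.symm
      refine ⟨h, hh1, h5, ?_, ?_⟩
      · refine chn_trans_app (chn_mono_app (fun y hy => hZn y hy) (M.Zjcon x h3 z hz1))
          (chn_step_app (hZn z hz1) ?_ hz2)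
        show nmA P Dm K Zj P' κ c z₀ h = _
        rw [nmA_notP M hh1, h5]
      · have e1 := M.Zjdiam x h3 z hz1
        have e2 := adj_near_app hz2
        simp only [abs_lt, abs_le] at *
        omega
  by_cases h4 : x ∈ Dm ∧ x ∉ K
  · rcases anchorD (z₀ := z₀) M h4.1 h4.2 with ⟨g, h5, -, -⟩ | ⟨p, h5, h6, h7, h8, h9⟩
    · rw [nmA_Dm M h4.1 h4.2, h5] at hx
      simp at hx
    · have h10 : κ p = i := by
        rw [nmA_Dm M h4.1 h4.2, h6] at hx
        simpa using hx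
      rw [h10] at h7
      exact ⟨p, h5, h10, h7, by linarith, by linarith⟩
  · exfalso
    unfold nmA at hx
    rw [if_neg h1, if_neg (not_not.2 h2), if_neg h3, if_neg h4] at hx
    simp at hx

/-- The anchor of a face with the name of a full cell. -/
theorem anchor2 (A : App U P κ d) (M : MoveData U P D Z Dm K N Zj P' U' c d')
    (hz : NameOK P D Dm N Zj κ c z₀) {x : ℤ × ℤ} {i : γ}
    (hx : nmA P Dm K Zj P' κ c z₀ x = Sum.inr (Sum.inr i)) :
    (∀ y, c y = i → y ∈ Dm ∧ y ∉ K) ∧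
    ∃ p, c p = i ∧ Chn {z | nmA P Dm K Zj P' κ c z₀ z = Sum.inr (Sum.inr i)} x p ∧
      |x.1 - p.1| < 3 * d' ∧ |x.2 - p.2| < 3 * d' := by
  have hd : 0 < d' := by
    have := (M.diam (0, 0) (0, 0) rfl).1
    simpa using this
  by_cases h1 : x ∈ P'
  · rw [nmA_P' h1] at hx
    simp at hx
  by_cases h2 : x ∉ P
  · rw [nmA_notP M h2] at hx
    simp at hx
  rw [not_not] at h2
  by_cases h3 : x ∈ Zj
  · have h4 := nmA_Zj (κ := κ) (z₀ := z₀) M h3
    rw [hx] at h4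
    have hZn : ∀ y ∈ Zj, nmA P Dm K Zj P' κ c z₀ y = Sum.inr (Sum.inr i) := fun y hy => by
      rw [nmA_Zj M hy, h4]
    rcases hz with ⟨y₀, hy1, hy2, ⟨z, hz1, hz2⟩, hy3⟩ | ⟨h, hh1, ⟨z, hz1, hz2⟩, hh3⟩
    · have hyK : y₀ ∉ K := fun h => M.KN y₀ h hy2
      rcases anchorD (z₀ := z₀) M hy1 hyK with ⟨g, h5, h6, h7⟩ | ⟨p, h5, h6, -, -, -⟩
      · rw [← hy3, ← h4] at h5
        have h8 : i = g := by simpa using h5
        subst h8
        refine ⟨h7, y₀, h6, ?_, ?_⟩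
        · refine chn_trans_app (chn_mono_app (fun y hy => hZn y hy) (M.Zjcon x h3 z hz1))
            (chn_step_app (hZn z hz1) ?_ hz2)
          show nmA P Dm K Zj P' κ c z₀ y₀ = _
          rw [nmA_Dm M hy1 hyK, ← hy3, ← h4]
        · have e1 := M.Zjdiam x h3 z hz1
          have e2 := adj_near_app hz2
          simp only [abs_lt, abs_le] at *
          omega
      · rw [← hy3, ← h4] at h6
        simp at h6
    · rw [hh3] at h4
      simp at h4
  by_cases h4 : x ∈ Dm ∧ x ∉ K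
  · rcases anchorD (z₀ := z₀) M h4.1 h4.2 with ⟨g, h5, h6, h7⟩ | ⟨p, h5, h6, -, -, -⟩
    · rw [nmA_Dm M h4.1 h4.2, h5] at hx
      have h8 : g = i := by simpa using hx
      subst h8
      refine ⟨h7, x, h6, ⟨?_, Relation.ReflTransGen.refl⟩, by simp [hd], by simp [hd]⟩
      show nmA P Dm K Zj P' κ c z₀ x = _
      rw [nmA_Dm M h4.1 h4.2, h5]
    · rw [nmA_Dm M h4.1 h4.2, h6] at hx
      simp at hx
  · exfalso
    unfold nmA at hx
    rw [if_neg h1, if_neg (not_not.2 h2), if_neg h3, if_neg h4] at hx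
    simp at hx

/-- **The update of the approximation.** -/
theorem App.update' (A : App U P κ d) (M : MoveData U P D Z Dm K N Zj P' U' c d')
    (hz : NameOK P D Dm N Zj κ c z₀) :
    App U' P' (nmA P Dm K Zj P' κ c z₀) (d + 7 * d') := by
  have hd : 0 < d' := by
    have := (M.diam (0, 0) (0, 0) rfl).1
    simpa using this
  have hd0 := A.d_pos
  -- old classes outside `P`
  have hold : ∀ p, p ∉ P → ∀ y, κ y = κ p → y ∉ P := fun p hp y hy hyP =>
    hp (A.sat y p hy hyP)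
  refine ⟨M.P'U', ?_, ?_, ?_, ?_⟩
  · intro x y hxy hx
    rw [nmA_P' hx] at hxy
    rw [← nmA_inl hz hxy.symm] at hx
    exact hx
  · intro x y hxy
    rcases hn : nmA P Dm K Zj P' κ c z₀ x with v | v | v
    · have h1 := nmA_inl hz hn
      have h2 := nmA_inl hz (hxy.symm.trans hn)
      rw [h1, h2]
      rw [h1] at hn
      exact ⟨hn, Relation.ReflTransGen.refl⟩
    · obtain ⟨p, hp1, hp2, hp3, -⟩ := anchor1 A M hz hn
      obtain ⟨q, hq1, hq2, hq3, -⟩ := anchor1 A M hz (hxy.symm.trans hn)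
      have h1 : Chn {z | nmA P Dm K Zj P' κ c z₀ z = Sum.inr (Sum.inl v)} p q := by
        refine chn_mono_app ?_ (A.cell p q (hp2.trans hq2.symm))
        intro z hz'
        have hz1 : κ z = κ p := hz'
        show nmA P Dm K Zj P' κ c z₀ z = _
        rw [nmA_notP M (hold p hp1 z hz1), hz1, hp2]
      exact chn_trans_app hp3 (chn_trans_app h1 (chn_symm_app hq3))
    · obtain ⟨h0, p, hp2, hp3, -⟩ := anchor2 A M hz hn
      obtain ⟨-, q, hq2, hq3, -⟩ := anchor2 A M hz (hxy.symm.trans hn)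
      have h1 : Chn {z | nmA P Dm K Zj P' κ c z₀ z = Sum.inr (Sum.inr v)} p q := by
        refine chn_mono_app ?_ (M.cell p q (hp2.trans hq2.symm))
        intro z hz'
        have hz1 : c z = c p := hz'
        obtain ⟨h2, h3⟩ := h0 z (hz1.trans hp2)
        show nmA P Dm K Zj P' κ c z₀ z = _
        rw [nmA_Dm M h2 h3]
        unfold nmD
        rw [if_pos, hz1, hp2]
        intro y hy
        exact (h0 y (hy.trans (hz1.trans hp2))).1
      exact chn_trans_app hp3 (chn_trans_app h1 (chn_symm_app hq3))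
  · intro x y hxy
    rcases hn : nmA P Dm K Zj P' κ c z₀ x with v | v | v
    · have h1 := nmA_inl hz hn
      have h2 := nmA_inl hz (hxy.symm.trans hn)
      rw [h1, h2]
      simp only [sub_self, abs_zero]
      omega
    · obtain ⟨p, hp1, hp2, -, hp3, hp4⟩ := anchor1 A M hz hn
      obtain ⟨q, hq1, hq2, -, hq3, hq4⟩ := anchor1 A M hz (hxy.symm.trans hn)
      have h1 := A.diam p q (hp2.trans hq2.symm)
      simp only [abs_lt] at *
      omega
    · obtain ⟨h0, p, hp2, -, hp3, hp4⟩ := anchor2 A M hz hn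
      obtain ⟨-, q, hq2, -, hq3, hq4⟩ := anchor2 A M hz (hxy.symm.trans hn)
      have h1 := M.diam p q (hp2.trans hq2.symm)
      simp only [abs_lt] at *
      omega
  · intro f hf g hfg hg
    have hfV := M.P'V f hf
    have hfP := M.P'P hf
    have hnotU : ∀ x, x ∉ U → x ∉ U' := fun x hx h => hx (M.U'U h)
    -- a face outside `P` next to `P`
    have hcase0 : ∀ f' ∈ P, ∀ h, Adj f' h → h ∉ P → ∀ v, nmA P Dm K Zj P' κ c z₀ v =
        Sum.inr (Sum.inl (κ h)) → ∃ x, nmA P Dm K Zj P' κ c z₀ x = nmA P Dm K Zj P' κ c z₀ v ∧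
          x ∉ U' := by
      intro f' hf' h hfh hh v hv
      obtain ⟨x, hx1, hx2⟩ := A.out f' hf' h hfh hh
      refine ⟨x, ?_, hnotU x hx2⟩
      rw [hv, nmA_notP M (hold h hh x hx1), hx1]
    by_cases hgP : g ∉ P
    · exact hcase0 f hfP g hfg hgP g (nmA_notP M hgP)
    rw [not_not] at hgP
    by_cases hgZ : g ∈ Zj
    · rcases hz with ⟨y₀, hy1, hy2, -, hy3⟩ | ⟨h, hh1, ⟨z, hz1, hz2⟩, hh3⟩
      · refine ⟨y₀, ?_, fun h => M.U'N y₀ h hy2⟩
        rw [nmA_Zj M hgZ, nmA_Dm M hy1 (fun h => M.KN y₀ h hy2), hy3]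
      · exact hcase0 z (M.DP (M.ZD (M.ZjZ hz1))) h hz2 hh1 g (by rw [nmA_Zj M hgZ, hh3])
    by_cases hgD : g ∈ Dm ∧ g ∉ K
    · -- `f` is in `K` or in the barrier
      have hfKZ : f ∈ K ∨ f ∈ Z := by
        by_cases h1 : f ∈ D
        · by_cases h2 : f ∈ Z
          · exact Or.inr h2
          · left
            have h3 := M.DmCl g hgD.1 f h1 h2 (adj_symm_app hfg)
            by_contra h4
            exact hfV.1 ⟨h3, h4⟩
        · exact absurd (M.exit g (M.DmD hgD.1) f hfP h1 (adj_symm_app hfg)) (M.DmZ g hgD.1)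
      by_cases hfull : ∀ y, c y = c g → y ∈ Dm
      · -- a full cell: it is visited
        have h1 : ∃ y, c y = c g ∧ y ∈ N := by
          by_contra hcon
          push Not at hcon
          apply hgD.2
          exact M.Kmax g (fun y hy => ⟨hfull y hy, hcon y hy⟩) ⟨g, f, rfl, hfKZ, adj_symm_app hfg⟩
        obtain ⟨y, hy1, hy2⟩ := h1
        refine ⟨y, ?_, fun h => M.U'N y h hy2⟩
        rw [nmA_Dm M hgD.1 hgD.2, nmA_Dm M (hfull y hy1) (fun h => M.KN y h hy2)]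
        unfold nmD
        rw [if_pos hfull, if_pos (by rw [hy1]; exact hfull), hy1]
      · obtain ⟨h1, x₁, h2, h3, h4⟩ := hfun_spec (exists_hfun M hgD.1 hfull)
        have hx₁P : x₁ ∈ P := M.DP (M.DmD (chn_mem_app (show Chn _ g x₁ from h2)).1)
        refine hcase0 x₁ hx₁P _ h3 h1 g ?_
        rw [nmA_Dm M hgD.1 hgD.2]
        unfold nmD
        rw [if_neg hfull]
    · exact absurd (M.P'cl f hf g hgP hfg hgD hgZ) hg

/-- **The update of the approximation**, with classes named by faces: outside `P` the partition into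
classes is the old one, and `Zj` is contained in one class. -/
theorem App.update2 (A : App U P κ d) (M : MoveData U P D Z Dm K N Zj P' U' c d') :
    ∃ κ' : ℤ × ℤ → ℤ × ℤ, App U' P' κ' (d + 7 * d') ∧
      (∀ x, x ∉ P → ∀ y, y ∉ P → (κ' x = κ' y ↔ κ x = κ y)) ∧
      ∀ x ∈ Zj, ∀ y ∈ Zj, κ' x = κ' y := by
  have key : ∀ z₀ : (ℤ × ℤ) ⊕ (ι ⊕ γ), NameOK P D Dm N Zj κ c z₀ →
      ∃ κ' : ℤ × ℤ → ℤ × ℤ, App U' P' κ' (d + 7 * d') ∧
      (∀ x, x ∉ P → ∀ y, y ∉ P → (κ' x = κ' y ↔ κ x = κ y)) ∧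
      ∀ x ∈ Zj, ∀ y ∈ Zj, κ' x = κ' y := by
    intro z₀ hz
    obtain ⟨κ', h1, h2⟩ := (A.update' (z₀ := z₀) M hz).rep
    refine ⟨κ', h2, fun x hx y hy => ?_, fun x hx y hy => ?_⟩
    · rw [h1, nmA_notP M hx, nmA_notP M hy]
      simp
    · rw [h1, nmA_Zj M hx, nmA_Zj M hy]
  rcases M.Zjlast with ⟨y₀, hy1, hy2, hy3⟩ | ⟨h, hh1, hh2⟩
  · exact key _ (Or.inl ⟨y₀, hy1, hy2, hy3, rfl⟩)
  · exact key _ (Or.inr ⟨h, hh1, hh2, rfl⟩)

/-- **The update of the approximation**, with classes named by faces. -/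
theorem App.update (A : App U P κ d) (M : MoveData U P D Z Dm K N Zj P' U' c d') :
    ∃ κ' : ℤ × ℤ → ℤ × ℤ, App U' P' κ' (d + 7 * d') := by
  obtain ⟨κ', h, -, -⟩ := A.update2 M
  exact ⟨κ', h⟩

end Update

end Pool.Agent.SixB
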