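import Pool.Agent.Lib.SixB.S8Lay

/-!
# Step 8: the closure lemma

`U` is the fresh region, `P` a region of faces of `U` (the coarse past is its complement), `D` a part
of `P` (component of `P` without the barrier). The outer faces of the contour of `D` are in `P` exactly
for the sides `k₁, ..., k₃ - 1` (the exits). `cR`, `cL` (the caps) are outside `P`, they contain the
outer faces of the sides `k₁ - 1`, `k₃` and are joined inside themselves to faces outside `U`. `T` is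
the component of `U` minus the barrier minus the caps which contains `D`.

* `Clo.inter` : `T ∩ P = D`.
* `Clo.not_adj` : no face of `T \ D` has a common side with a face of `P \ D`.
* `Clo.bd` : every boundary side of `T` is an exit side of `D`, or its outer face is outside `U` or in
  a cap.
* `Clo.esc` : `T` has no holes.
* `Clo.run` : the sides `k₁ - 1, ..., k₃` of `D` are consecutive sides of the contour of `T`.
-/

set_option autoImplicit false

namespace Pool.Agent.SixB.Top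

open Finset Pool.Agent.Perc Pool.Agent.Perc6 Pool.Agent.Perc6.C2Aux Pool.Agent.Perc.Tips

/-! ### Adjacent faces and directed unit edges -/

theorem adjF_dir {f g : ℤ × ℤ} (h : AdjF f g) : ∃ B : UE × Bool, ahead B = f ∧ ahead (rv B) = g := by
  obtain ⟨hne, a, hf, hg⟩ := h
  rcases eq_ahead hf with h1 | h1 <;> rcases eq_ahead hg with h2 | h2
  · exact absurd (h1.trans h2.symm) hne
  · exact ⟨(a, true), h1.symm, by rw [h2]; rfl⟩
  · exact ⟨(a, false), h1.symm, by rw [h2]; rfl⟩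
  · exact absurd (h1.trans h2.symm) hne

theorem isCor_in_rg (A : UE × Bool) : IsCor (ahead A) (rg A) :=
  (isCor_rg_iff _ _).2 (Or.inr (Or.inl rfl))

theorem isCor_out_rg (A : UE × Bool) : IsCor (ahead (rv A)) (rg A) :=
  (isCor_rg_iff _ _).2 (Or.inl rfl)

theorem isCor_in_lf (A : UE × Bool) : IsCor (ahead A) (lf A) := by
  have := isCor_out_rg (rv A)
  rwa [rv_rv, rg_rv] at this

/-- The first entry of a chain in `T` which starts outside `D` and ends in `D`. -/
theorem first_entry {T D : Set (ℤ × ℤ)} {x z : ℤ × ℤ} (hx : x ∈ T) (hxD : x ∉ D) (h : ChI T x z)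
    (hz : z ∈ D) : ∃ t d, ChI (T \ D) x t ∧ t ∈ T ∧ t ∉ D ∧ AdjF t d ∧ d ∈ D := by
  have k2 : (∃ t d, ChI (T \ D) x t ∧ t ∈ T ∧ t ∉ D ∧ AdjF t d ∧ d ∈ D) ∨
      (z ∉ D ∧ ChI (T \ D) x z) := by
    clear hz
    induction h with
    | refl => exact Or.inr ⟨hxD, ChI.refl x⟩
    | @tail b c hb hs ih =>
      rcases ih with h | ⟨hbD, hch⟩
      · exact Or.inl h
      · by_cases hc : c ∈ D
        · exact Or.inl ⟨b, c, hch, ChI.mem hx hb, hbD, hs.1, hc⟩
        · exact Or.inr ⟨hc, hch.tail ⟨hs.1, hs.2, hc⟩⟩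
  rcases k2 with h | ⟨h, -⟩
  · exact h
  · exact absurd hz h

/-! ### Potentials -/

section Pot

variable {U F S : Set (ℤ × ℤ)} {M : Set UE} {Φ : ℤ × ℤ → ZMod 2}

theorem pot_side (hP : IsPot U M Φ) {B : UE × Bool} (hB : ahead B ∈ U) :
    B.1 ∈ M ↔ Φ (lf B) ≠ Φ (rg B) :=
  hP.joins hB (isSide_ahead B.1 B.2) (joins_lf_rg B)

/-- A potential is constant on the corners of a face without sides in `M`. -/
theorem pot_face (hP : IsPot U M Φ) {f p q : ℤ × ℤ} (hf : f ∈ U) (hM : ∀ a, IsSide f a → a ∉ M)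
    (hp : IsCor f p) (hq : IsCor f q) : Φ p = Φ q := by
  have key : ∀ {p q : ℤ × ℤ}, IsCor f p → IsCor f q → par p ≠ par q → Φ p = Φ q := by
    intro p q hp hq hpq
    obtain ⟨a, ha, hj⟩ := exists_side hp hq hpq
    by_contra hne
    exact hM a ha ((hP.joins hf ha hj).2 hne)
  by_cases hpq : par p = par q
  · obtain ⟨r, hr, hpr⟩ : ∃ r, IsCor f r ∧ par p ≠ par r := by
      by_cases h : par p = par f
      · refine ⟨(f.1 + 1, f.2), by simp [IsCor], ?_⟩
        rw [h]; unfold par; simp only; omega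
      · exact ⟨f, by simp [IsCor], h⟩
    rw [key hp hr hpr, key hq hr (by rw [← hpq]; exact hpr)]
  · exact key hp hq hpq

/-- A potential is constant on the contour of `U`, if `M` has no boundary side. -/
theorem pot_bd (hUf : U.Finite) (hUc : EConn U) (hUe : Esc U) (hP : IsPot U M Φ)
    (hM : ∀ B, BD U B → B.1 ∉ M) {B C : UE × Bool} (hB : BD U B) (hC : BD U C) :
    Φ (lf C) = Φ (lf B) ∧ Φ (rg C) = Φ (lf B) := by
  have h0 : ∀ C, BD U C → Φ (rg C) = Φ (lf C) := by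
    intro C hC
    by_contra hne
    exact hM C hC ((pot_side hP hC.1).2 (Ne.symm hne))
  obtain ⟨n, hn⟩ := contour_all hUf hUc hUe hB hC.bdU
  have hn1 : (sc U)^[n] B = C := (hB.iterate n).eq_of_fst hC hn
  have h1 : ∀ n, Φ (lf ((sc U)^[n] B)) = Φ (lf B) := by
    intro n
    induction n with
    | zero => rfl
    | succ n ih => rw [Function.iterate_succ_apply', lf_sc, h0 _ (hB.iterate n), ih]
  have h2 : Φ (lf C) = Φ (lf B) := by rw [← hn1, h1 n]
  exact ⟨h2, by rw [h0 C hC, h2]⟩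

/-- **Anchors.** A face which is joined to the complement of `U` by faces without sides in `M`. -/
theorem pot_anchor (hUf : U.Finite) (hUc : EConn U) (hUe : Esc U) (hP : IsPot U M Φ)
    (hM : ∀ B, BD U B → B.1 ∉ M) {B : UE × Bool} (hB : BD U B)
    (hS : ∀ g ∈ S, ∀ a, IsSide g a → a ∉ M) {g x v : ℤ × ℤ} (hg : g ∈ S) (hx : x ∉ U)
    (hch : ChI S g x) (hgU : g ∈ U) (hv : IsCor g v) : Φ v = Φ (lf B) := by
  have key : ∀ g, ChI S g x → g ∈ S → g ∈ U → ∀ v, IsCor g v → Φ v = Φ (lf B) := by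
    intro g hch
    induction hch using Relation.ReflTransGen.head_induction_on with
    | refl => exact fun _ h => absurd h hx
    | @head g g' hgg' _ ih =>
      intro hg hgU v hv
      obtain ⟨C, hC1, hC2⟩ := adjF_dir hgg'.1
      have h1 : Φ (lf C) = Φ (lf B) := by
        by_cases hg'U : g' ∈ U
        · exact ih hgg'.2 hg'U _ (by rw [← hC2]; exact isCor_out_lf C)
        · exact (pot_bd hUf hUc hUe hP hM hB (C := C)
            ⟨by rw [hC1]; exact hgU, by rw [hC2]; exact hg'U⟩).1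
      rw [← h1]
      exact pot_face hP hgU (hS g hg) hv (by rw [← hC1]; exact isCor_in_lf C)
  exact key g hch hg hgU v hv

/-- **Telescope.** The potential changes between two vertices of a contour if exactly one side
between them is in `M`. -/
theorem pot_tele (hP : IsPot U M Φ) (hFU : F ⊆ U) {A : UE × Bool} (hA : BD F A) {k₁ k₃ r : ℕ}
    (h1 : k₁ ≤ r) (h3 : r < k₃)
    (h : ∀ i, k₁ ≤ i → i < k₃ → (((sc F)^[i] A).1 ∈ M ↔ i = r)) :
    Φ (lf ((sc F)^[k₃] A)) ≠ Φ (lf ((sc F)^[k₁] A)) := by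
  have key : ∀ j, k₁ + j ≤ k₃ → Φ (lf ((sc F)^[k₁ + j] A)) =
      Φ (lf ((sc F)^[k₁] A)) + ind2 (r < k₁ + j) := by
    intro j
    induction j with
    | zero =>
      intro _
      rw [ind2_neg (by omega), add_zero, add_zero]
    | succ j ih =>
      intro hj
      have ih' := ih (by omega)
      have h5 := pot_side hP (hFU (hA.iterate (k₁ + j)).1)
      rw [h (k₁ + j) (by omega) (by omega)] at h5
      rw [show k₁ + (j + 1) = (k₁ + j) + 1 by ring, Function.iterate_succ_apply', lf_sc]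
      rcases lt_trichotomy (k₁ + j) r with hlt | heq | hgt
      · have h6 : Φ (lf ((sc F)^[k₁ + j] A)) = Φ (rg ((sc F)^[k₁ + j] A)) := by
          by_contra hne
          exact hlt.ne (h5.2 hne)
        rw [← h6, ih', ind2_neg (by omega), ind2_neg (by omega)]
      · have h6 := h5.1 heq
        rw [ih', ind2_neg (by omega), add_zero] at h6
        rw [ind2_pos (by omega)]
        exact (z2_ne _ _).1 h6.symm
      · have h6 : Φ (lf ((sc F)^[k₁ + j] A)) = Φ (rg ((sc F)^[k₁ + j] A)) := by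
          by_contra hne
          exact hgt.ne' (h5.2 hne)
        rw [← h6, ih', ind2_pos (by omega), ind2_pos (by omega)]
  have := key (k₃ - k₁) (by omega)
  rw [show k₁ + (k₃ - k₁) = k₃ by omega, ind2_pos h3] at this
  rw [this]
  exact (z2_ne _ _).2 rfl

end Pot

/-! ### The data -/

/-- The data of the closure lemma. -/
structure Clo (U P D T : Set (ℤ × ℤ)) (A : UE × Bool) (k₁ k₃ m : ℕ) (cR cL : Set (ℤ × ℤ)) :
    Prop where
  finU : U.Finite
  ecU : EConn U
  escU : Esc U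
  PU : P ⊆ U
  ecP : EConn P
  DP : D ⊆ P
  ecD : EConn D
  escD : Esc D
  bdA : BD D A
  per : (sc D)^[m] A = A
  inj : ∀ i < m, ∀ j < m, (sc D)^[i] A = (sc D)^[j] A → i = j
  k1 : 0 < k₁
  k13 : k₁ < k₃
  k3 : k₃ < m
  out : ∀ i < m, (ahead (rv ((sc D)^[i] A)) ∈ P ↔ k₁ ≤ i ∧ i < k₃)
  RP : ∀ f ∈ cR, f ∉ P
  LP : ∀ f ∈ cL, f ∉ P
  RT : ∀ f ∈ cR, f ∉ T
  LT : ∀ f ∈ cL, f ∉ T
  inR : ahead (rv ((sc D)^[k₁ - 1] A)) ∈ cR
  inL : ahead (rv ((sc D)^[k₃] A)) ∈ cL
  capR : ∀ f ∈ cR, ∃ x, x ∉ U ∧ ChI cR f x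
  capL : ∀ f ∈ cL, ∃ x, x ∉ U ∧ ChI cL f x
  DT : D ⊆ T
  TU : T ⊆ U
  ecT : EConn T
  stop : ∀ d ∈ D, ∀ t ∈ T, AdjF d t → t ∈ P → t ∈ D

namespace Clo

variable {U P D T cR cL : Set (ℤ × ℤ)} {A : UE × Bool} {k₁ k₃ m : ℕ}

/-- A boundary side of `D` has an index. -/
theorem index (H : Clo U P D T A k₁ k₃ m cR cL) {B : UE × Bool} (hB : BD D B) :
    ∃ i < m, (sc D)^[i] A = B := by
  obtain ⟨n, hn⟩ := contour_all (H.finU.subset (H.DP.trans H.PU)) H.ecD H.escD H.bdA hB.bdU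
  have hn1 : (sc D)^[n] A = B := (H.bdA.iterate n).eq_of_fst hB hn
  have hm : 0 < m := by have := H.k3; omega
  refine ⟨n % m, Nat.mod_lt _ hm, ?_⟩
  rw [← hn1]
  exact Function.IsPeriodicPt.iterate_mod_apply
    (show Function.IsPeriodicPt (sc D) m A from H.per) n

/-- **The core.** -/
theorem core (H : Clo U P D T A k₁ k₃ m cR cL) {x y : ℤ × ℤ} (hx : x ∈ T) (hxD : x ∉ D)
    (hy : y ∈ P) (hyD : y ∉ D) {M₀ : Set UE}
    (hM₀ : ∀ k, parAt M₀ k = ind2 (k = x) + ind2 (k = y))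
    (hM₀' : ∀ a ∈ M₀, ∀ k, IsSide k a → k ∉ D ∧ (k ∈ T ∨ k ∈ P)) : False := by
  have hDU := H.DP.trans H.PU
  have hf₀ : ahead A ∈ D := H.bdA.1
  obtain ⟨t, d, hxt, ht, htD, htd, hd⟩ := first_entry hx hxD (H.ecT x hx _ (H.DT hf₀)) hf₀
  obtain ⟨q, d', hyq, hq, hqD, hqd, hd'⟩ := first_entry hy hyD (H.ecP y hy _ (H.DP hf₀)) hf₀
  have htP : t ∉ P := fun h => htD (H.stop d hd t ht htd.symm h)
  -- the two sides of `D`
  obtain ⟨B₁, hB11, hB12⟩ := adjF_dir htd.symm
  obtain ⟨B₂, hB21, hB22⟩ := adjF_dir hqd.symm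
  have hB₁ : BD D B₁ := ⟨by rw [hB11]; exact hd, by rw [hB12]; exact htD⟩
  have hB₂ : BD D B₂ := ⟨by rw [hB21]; exact hd', by rw [hB22]; exact hqD⟩
  obtain ⟨i₁, hi₁, hI₁⟩ := H.index hB₁
  obtain ⟨i₂, hi₂, hI₂⟩ := H.index hB₂
  have hn1 : ¬ (k₁ ≤ i₁ ∧ i₁ < k₃) := by
    rw [← H.out i₁ hi₁, hI₁, hB12]
    exact htP
  have hn2 : k₁ ≤ i₂ ∧ i₂ < k₃ := by
    rw [← H.out i₂ hi₂, hI₂, hB22]
    exact hq
  -- the chains
  obtain ⟨-, M₁, hM1, hp1⟩ := chain_toggle (F := (T \ D)ᶜ) (f := x) (g := t)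
    (not_not.2 ⟨hx, hxD⟩) (hxt.stepC fun f hf => not_not.2 hf)
  obtain ⟨-, M₂, hM2, hp2⟩ := chain_toggle (F := (P \ D)ᶜ) (f := y) (g := q)
    (not_not.2 ⟨hy, hyD⟩) (hyq.stepC fun f hf => not_not.2 hf)
  obtain ⟨-, M₃, hM3, hp3⟩ := chain_toggle (F := Dᶜ) (f := d) (g := d')
    (not_not.2 hd) ((show ChI D d d' from H.ecD d hd d' hd').stepC fun f hf => not_not.2 hf)
  have s1 : IsSide t B₁.1 := by rw [← hB12]; exact isSide_ahead B₁.1 (!B₁.2)
  have s1' : IsSide d B₁.1 := by rw [← hB11]; exact isSide_ahead B₁.1 B₁.2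
  have s2 : IsSide q B₂.1 := by rw [← hB22]; exact isSide_ahead B₂.1 (!B₂.2)
  have s2' : IsSide d' B₂.1 := by rw [← hB21]; exact isSide_ahead B₂.1 B₂.2
  set M : Set UE := symmDiff (symmDiff (symmDiff (symmDiff (symmDiff M₀ M₁) M₂) M₃) {B₁.1}) {B₂.1}
    with hM
  have hmem : ∀ a, a ∈ M → a ∈ M₀ ∨ a ∈ M₁ ∨ a ∈ M₂ ∨ a ∈ M₃ ∨ a = B₁.1 ∨ a = B₂.1 := by
    intro a ha
    simp only [hM, Set.mem_symmDiff, Set.mem_singleton_iff] at ha
    tauto
  have heven : ∀ f ∈ U, EvenAt M f := by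
    intro f _
    rw [evenAt_iff, hM, parAt_symmDiff, parAt_symmDiff, parAt_symmDiff, parAt_symmDiff,
      parAt_symmDiff, hM₀, hp1, hp2, hp3, parAt_side htd.1 s1 s1', parAt_side hqd.1 s2 s2']
    generalize ind2 (f = x) = p1
    generalize ind2 (f = y) = p2
    generalize ind2 (f = t) = p3
    generalize ind2 (f = d) = p4
    generalize ind2 (f = q) = p5
    generalize ind2 (f = d') = p6
    revert p1 p2 p3 p4 p5 p6
    decide
  -- the faces of the sides in `M`
  have hfaces : ∀ a ∈ M, ∀ k, IsSide k a → k ∈ T ∨ k ∈ P := by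
    intro a ha k hk
    rcases hmem a ha with h | h | h | h | h | h
    · exact (hM₀' a h k hk).2
    · by_contra hn
      exact hM1 a h k (fun hh => hn (Or.inl hh.1)) hk
    · by_contra hn
      exact hM2 a h k (fun hh => hn (Or.inr hh.1)) hk
    · by_contra hn
      exact hM3 a h k (fun hh => hn (Or.inl (H.DT hh))) hk
    · subst h
      rcases side_two htd.1 s1 s1' hk with h | h
      · exact Or.inl (h ▸ ht)
      · exact Or.inl (h ▸ H.DT hd)
    · subst h
      rcases side_two hqd.1 s2 s2' hk with h | h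
      · exact Or.inr (h ▸ hq)
      · exact Or.inr (h ▸ H.DP hd')
  -- the sides of the contour of `D`
  have hcont : ∀ B, BD D B → (B.1 ∈ M ↔ B = B₁ ∨ B = B₂) := by
    intro B hB
    have n0 : B.1 ∉ M₀ := fun h => (hM₀' _ h _ (isSide_ahead B.1 B.2)).1 hB.1
    have n1 : B.1 ∉ M₁ := fun h => hM1 _ h _ (fun hh => hh.2 hB.1) (isSide_ahead B.1 B.2)
    have n2 : B.1 ∉ M₂ := fun h => hM2 _ h _ (fun hh => hh.2 hB.1) (isSide_ahead B.1 B.2)
    have n3 : B.1 ∉ M₃ := fun h => hM3 _ h _ hB.2 (isSide_ahead B.1 (!B.2))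
    have hne : B₁.1 ≠ B₂.1 := by
      intro h
      have := hB₁.eq_of_fst hB₂ h
      rw [this] at hI₁
      have := H.inj i₁ hi₁ i₂ hi₂ (hI₁.trans hI₂.symm)
      omega
    simp only [hM, Set.mem_symmDiff, Set.mem_singleton_iff, n0, n1, n2, n3]
    constructor
    · intro h
      by_cases h1 : B.1 = B₁.1
      · exact Or.inl (hB.eq_of_fst hB₁ h1)
      · by_cases h2 : B.1 = B₂.1
        · exact Or.inr (hB.eq_of_fst hB₂ h2)
        · simp only [h1, h2] at h
          tauto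
    · rintro (rfl | rfl)
      · simp [hne]
      · simp [Ne.symm hne]
  obtain ⟨Φ, hΦ⟩ := H.escU.hasPot' H.finU M heven
  have hbd : ∀ B, BD U B → B.1 ∉ M := by
    intro B hB h
    rcases hfaces _ h _ (isSide_ahead B.1 (!B.2)) with h1 | h1
    · exact hB.2 (H.TU h1)
    · exact hB.2 (H.PU h1)
  obtain ⟨C, hC⟩ := exists_boundary H.finU ⟨_, hDU hf₀⟩
  -- the vertices at the ends of the exit interval
  have hR : Φ (lf ((sc D)^[k₁] A)) = Φ (lf C) := by
    obtain ⟨j, rfl⟩ : ∃ j, k₁ = j + 1 := ⟨k₁ - 1, by have := H.k1; omega⟩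
    rw [Function.iterate_succ_apply', lf_sc]
    have hin := H.inR
    rw [show j + 1 - 1 = j by omega] at hin
    by_cases hfU : ahead (rv ((sc D)^[j] A)) ∈ U
    · obtain ⟨x', hx', hch⟩ := H.capR _ hin
      refine pot_anchor H.finU H.ecU H.escU hΦ hbd hC (S := cR) ?_ hin hx' hch hfU
        (isCor_out_rg _)
      intro g hg a ha hMa
      rcases hfaces a hMa g ha with h | h
      · exact H.RT g hg h
      · exact H.RP g hg h
    · exact (pot_bd H.finU H.ecU H.escU hΦ hbd hC ⟨hDU (H.bdA.iterate j).1, hfU⟩).2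
  have hL : Φ (lf ((sc D)^[k₃] A)) = Φ (lf C) := by
    have hin := H.inL
    by_cases hfU : ahead (rv ((sc D)^[k₃] A)) ∈ U
    · obtain ⟨x', hx', hch⟩ := H.capL _ hin
      refine pot_anchor H.finU H.ecU H.escU hΦ hbd hC (S := cL) ?_ hin hx' hch hfU
        (isCor_out_lf _)
      intro g hg a ha hMa
      rcases hfaces a hMa g ha with h | h
      · exact H.LT g hg h
      · exact H.LP g hg h
    · exact (pot_bd H.finU H.ecU H.escU hΦ hbd hC ⟨hDU (H.bdA.iterate k₃).1, hfU⟩).1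
  have hk3 := H.k3
  refine pot_tele hΦ hDU H.bdA hn2.1 hn2.2 ?_ (hL.trans hR.symm)
  intro i hi1 hi3
  rw [hcont _ (H.bdA.iterate i)]
  constructor
  · rintro (h | h)
    · exfalso
      have := H.inj i (by omega) i₁ hi₁ (h.trans hI₁.symm)
      omega
    · exact H.inj i (by omega) i₂ hi₂ (h.trans hI₂.symm)
  · rintro rfl
    exact Or.inr hI₂

/-- **Closure.** `T` meets `P` in `D` only. -/
theorem inter (H : Clo U P D T A k₁ k₃ m cR cL) {x : ℤ × ℤ} (hx : x ∈ T) (hxP : x ∈ P) :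
    x ∈ D := by
  by_contra hxD
  refine H.core hx hxD hxP hxD (M₀ := ∅) ?_ fun a ha => absurd ha (Set.notMem_empty a)
  intro k
  rw [z2_add_self]
  unfold parAt
  rw [ind2_neg (Set.notMem_empty _), ind2_neg (Set.notMem_empty _),
    ind2_neg (Set.notMem_empty _), ind2_neg (Set.notMem_empty _)]
  decide

/-- **Closure.** No face of `T` outside `D` has a common side with a face of `P` outside `D`. -/
theorem not_adj (H : Clo U P D T A k₁ k₃ m cR cL) {x y : ℤ × ℤ} (hx : x ∈ T) (hxD : x ∉ D)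
    (hy : y ∈ P) (hyD : y ∉ D) : ¬ AdjF x y := by
  rintro ⟨hne, a, hxa, hya⟩
  refine H.core hx hxD hy hyD (M₀ := {a}) (fun k => parAt_side hne hxa hya k) ?_
  intro b hb k hk
  rw [Set.mem_singleton_iff] at hb
  subst hb
  rcases side_two hne hxa hya hk with rfl | rfl
  · exact ⟨hxD, Or.inl hx⟩
  · exact ⟨hyD, Or.inr hy⟩

/-- A face of `P` outside `D` is not in `T`. -/
theorem not_mem (H : Clo U P D T A k₁ k₃ m cR cL) {x : ℤ × ℤ} (hx : x ∈ P) (hxD : x ∉ D) :
    x ∉ T := fun h => hxD (H.inter h hx)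

/-- **The run.** The sides `k₁ - 1, ..., k₃` of `D` are consecutive sides of the contour of `T`. -/
theorem run (H : Clo U P D T A k₁ k₃ m cR cL) {j : ℕ} (hj : j ≤ k₃ - k₁ + 1) :
    (sc T)^[j] ((sc D)^[k₁ - 1] A) = (sc D)^[k₁ - 1 + j] A ∧ BD T ((sc D)^[k₁ - 1 + j] A) := by
  have h := interval_of_out H.DT (H.bdA.iterate (k₁ - 1)) (k := k₃ - k₁ + 1) ?_ j hj
  · rw [← Function.iterate_add_apply, Nat.add_comm j] at h
    exact h
  · intro i hi
    rw [← Function.iterate_add_apply, Nat.add_comm i]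
    have hk1 := H.k1
    have hk13 := H.k13
    have hk3 := H.k3
    rcases Nat.eq_zero_or_pos i with rfl | hi0
    · exact H.RT _ H.inR
    · by_cases hi3 : k₁ - 1 + i = k₃
      · rw [hi3]
        exact H.LT _ H.inL
      · exact H.not_mem ((H.out _ (by omega)).2 (by omega)) (H.bdA.iterate _).2

/-- The boundary sides of `T`. -/
theorem bd (H : Clo U P D T A k₁ k₃ m cR cL)
    (hcomp : ∀ t ∈ T, ∀ g, AdjF t g → g ∉ T → g ∉ U ∨ g ∈ P ∨ g ∈ cR ∨ g ∈ cL) {B : UE × Bool}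
    (hB : BD T B) : ahead (rv B) ∉ U ∨ (∃ i, k₁ ≤ i ∧ i < k₃ ∧ (sc D)^[i] A = B) ∨
      ahead (rv B) ∈ cR ∨ ahead (rv B) ∈ cL := by
  rcases hcomp _ hB.1 _ (adjF_ahead B).symm hB.2 with h | h | h
  · exact Or.inl h
  · right; left
    have hgD : ahead (rv B) ∉ D := fun hh => hB.2 (H.DT hh)
    by_cases htD : ahead B ∈ D
    · obtain ⟨i, hi, hI⟩ := H.index (B := B) ⟨htD, hgD⟩
      have := (H.out i hi).1 (by rw [hI]; exact h)
      exact ⟨i, this.1, this.2, hI⟩
    · exact absurd (adjF_ahead B).symm (H.not_adj hB.1 htD h hgD)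
  · exact Or.inr (Or.inr h)

/-- A face of a cap is joined to the complement of `U`. -/
theorem good_cap (H : Clo U P D T A k₁ k₃ m cR cL) {f : ℤ × ℤ} (hf : f ∈ cR ∨ f ∈ cL) :
    ∃ x, x ∉ U ∧ Relation.ReflTransGen (StepC T) f x := by
  rcases hf with hf | hf
  · obtain ⟨x, hx, hch⟩ := H.capR f hf
    exact ⟨x, hx, hch.stepC H.RT⟩
  · obtain ⟨x, hx, hch⟩ := H.capL f hf
    exact ⟨x, hx, hch.stepC H.LT⟩

/-- **`T` has no holes.** -/
theorem esc (H : Clo U P D T A k₁ k₃ m cR cL)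
    (hcomp : ∀ t ∈ T, ∀ g, AdjF t g → g ∉ T → g ∉ U ∨ g ∈ P ∨ g ∈ cR ∨ g ∈ cL)
    (hnbr : ∀ p ∈ P, ∀ y, y ∉ P → AdjF p y → ∃ x, x ∉ U ∧ ChI Pᶜ y x) : Esc T := by
  obtain ⟨x₀, x₁, y₀, y₁, hb⟩ := exists_RF H.finU
  -- faces outside `P`, joined outside `P` to the complement of `U`
  have g1 : ∀ {y x : ℤ × ℤ}, x ∉ U → ChI Pᶜ y x → y ∉ P → y ∉ T →
      ∃ x, x ∉ U ∧ Relation.ReflTransGen (StepC T) y x := by
    intro y x hx hch
    induction hch using Relation.ReflTransGen.head_induction_on with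
    | refl => exact fun _ _ => ⟨x, hx, Relation.ReflTransGen.refl⟩
    | @head g g' hgg' _ ih =>
      intro hgP hgT
      by_cases hc : g ∈ cR ∨ g ∈ cL
      · exact H.good_cap hc
      by_cases hgU : g ∈ U
      · have hg'T : g' ∉ T := by
          intro hg'T
          rcases hcomp g' hg'T g hgg'.1.symm hgT with h | h | h
          · exact h hgU
          · exact hgP h
          · exact hc h
        obtain ⟨z, hz, hch'⟩ := ih hgg'.2 hg'T
        exact ⟨z, hz, Relation.ReflTransGen.head ⟨hgg'.1, hg'T⟩ hch'⟩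
      · exact ⟨g, hgU, Relation.ReflTransGen.refl⟩
  -- faces of `P`
  have g2 : ∀ f ∈ P, f ∉ D → ∃ x, x ∉ U ∧ Relation.ReflTransGen (StepC T) f x := by
    intro f hf hfD
    obtain ⟨k, hk, hch⟩ := H.escD.escape x₀ x₁ y₀ y₁ f (hb f (H.PU hf)) hfD
    have hkP : k ∉ P := fun h => hk (hb k (H.PU h))
    induction hch using Relation.ReflTransGen.head_induction_on with
    | refl => exact absurd hf hkP
    | @head g g' hgg' _ ih =>
      have hg'D : g' ∉ D := hgg'.2
      by_cases hg'P : g' ∈ P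
      · obtain ⟨z, hz, hch'⟩ := ih hg'P hg'D
        exact ⟨z, hz, Relation.ReflTransGen.head ⟨hgg'.1, H.not_mem hg'P hg'D⟩ hch'⟩
      · have hg'T : g' ∉ T := fun h => H.not_adj h hg'D hf hfD hgg'.1.symm
        obtain ⟨x, hx, hch'⟩ := hnbr g hf g' hg'P hgg'.1
        obtain ⟨z, hz, hch''⟩ := g1 hx hch' hg'P hg'T
        exact ⟨z, hz, Relation.ReflTransGen.head ⟨hgg'.1, hg'T⟩ hch''⟩
  -- the other faces of `U`
  have g3 : ∀ (n : ℕ) (f : ℤ × ℤ), f ∈ U → f ∉ T → x₁ - f.1 ≤ n →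
      ∃ x, x ∉ U ∧ Relation.ReflTransGen (StepC T) f x := by
    intro n
    induction n with
    | zero =>
      intro f hf _ hn
      have := hb f hf
      simp only [RF, mem_product, mem_Ico] at this
      exfalso
      simp only [Nat.cast_zero] at hn
      omega
    | succ n ih =>
      intro f hf hfT hn
      by_cases hc : f ∈ cR ∨ f ∈ cL
      · exact H.good_cap hc
      by_cases hP : f ∈ P
      · exact g2 f hP fun h => hfT (H.DT h)
      have hadj : AdjF f (f.1 + 1, f.2) := by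
        rw [adjF_iff]
        left; rfl
      have hgT : (f.1 + 1, f.2) ∉ T := by
        intro h
        rcases hcomp _ h f hadj.symm hfT with h | h | h
        · exact h hf
        · exact hP h
        · exact hc h
      by_cases hg : (f.1 + 1, f.2) ∈ U
      · obtain ⟨z, hz, hch⟩ := ih (f.1 + 1, f.2) hg hgT (by simp only; push_cast at hn; omega)
        exact ⟨z, hz, Relation.ReflTransGen.head ⟨hadj, hgT⟩ hch⟩
      · exact ⟨_, hg, Relation.ReflTransGen.single ⟨hadj, hgT⟩⟩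
  exact H.escU.sub H.TU fun f hf hfT => g3 (x₁ - f.1).toNat f hf hfT (Int.self_le_toNat _)

end Clo

end Pool.Agent.SixB.Top
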