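import Pool.Agent.Lib.SixB.S8Geo
import Pool.Agent.Lib.SixB.S8Close
import Pool.Agent.Lib.SixB.S8App

/-!
# Step 8, unit 8H: the barrier with the corner faces

The layer of the stop arc `p, …, q` of the contour of `D` consists of the faces `inF i`
(`p ≤ i ≤ q`) and of the corner faces between `inF i` and `inF (i + 1)` (`p ≤ i < q`). It is connected.
The barrier `BarV` consists of the pieces of the faces of the layer; `entV` is the set which is removed
when the strand enters the piece of `z`: this piece and, if it has no side on the stop arc, a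
neighbouring piece which has one.

`adj_entV`: the component of the target in `P` minus the removed set has a common side with the entered
set.
-/

set_option autoImplicit false

namespace Pool.Agent.SixB.Mv

open Pool.Agent.Perc Pool.Agent.Perc6 Pool.Agent.Perc6.C2Aux Pool.Agent.Perc.Tips
open Pool.Agent.SixB.Top

variable {ι : Type*}

/-- The corner face behind the side with index `i`. -/
noncomputable def crF (D : Set (ℤ × ℤ)) (A : UE × Bool) (i : ℕ) : ℤ × ℤ := ahead (rtn (side D A i))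

/-- The layer: the faces of `D` at the sides `p, …, q` and at the vertices between them. -/
def onV (D : Set (ℤ × ℤ)) (A : UE × Bool) (p q : ℕ) : Set (ℤ × ℤ) :=
  {f | f ∈ D ∧ ∃ i, p ≤ i ∧ ((i ≤ q ∧ inF D A i = f) ∨ (i < q ∧ crF D A i = f))}

/-- The barrier: the pieces of the faces of the layer. -/
def BarV (D : Set (ℤ × ℤ)) (A : UE × Bool) (p q : ℕ) (κ : ℤ × ℤ → ι) : Set (ℤ × ℤ) :=
  {f | ∃ g ∈ onV D A p q, f ∈ pc D κ g}

variable {D P Y K V E : Set (ℤ × ℤ)} {A B : UE × Bool} {p q m : ℕ} {κ : ℤ × ℤ → ι} {f g z : ℤ × ℤ}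

theorem onV_sub : onV D A p q ⊆ D := fun _ h => h.1

theorem onO_sub_onV (h : BD D A) : onO D A p q ⊆ onV D A p q := by
  rintro f ⟨i, h1, h2, rfl⟩
  exact ⟨inF_mem h i, i, h1, Or.inl ⟨h2, rfl⟩⟩

theorem onV_sub_barV : onV D A p q ⊆ BarV D A p q κ := fun _ h => ⟨_, h, self_mem_pc⟩

theorem onO_sub_barV (h : BD D A) : onO D A p q ⊆ BarV D A p q κ :=
  (onO_sub_onV h).trans onV_sub_barV

theorem barV_sub : BarV D A p q κ ⊆ D := by
  rintro f ⟨g, hg, hf⟩
  exact pc_sub hg.1 hf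

/-- The barrier is a union of pieces. -/
theorem pc_sub_barV (hf : f ∈ BarV D A p q κ) : pc D κ f ⊆ BarV D A p q κ := by
  obtain ⟨g, hg, hfg⟩ := hf
  rw [pc_eq hg.1 hfg]
  exact fun x hx => ⟨g, hg, hx⟩

theorem barV_sat (hf : f ∈ BarV D A p q κ) (hg : g ∈ D) (ha : AdjF f g)
    (hk : κ f = κ g) : g ∈ BarV D A p q κ := by
  apply pc_sub_barV hf
  rw [pc_adj (barV_sub hf) hg ha hk]
  exact self_mem_pc

theorem sat_barV : Sat D κ (BarV D A p q κ) := fun _ hf _ hg ha hk => barV_sat hf hg ha hk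

/-! ### The layer is connected -/

theorem adjF_rtn (C : UE × Bool) : AdjF (ahead C) (ahead (rtn C)) := by
  have h := adjF_ahead (rtn C)
  rw [ahead_rv_rtn] at h
  exact h

/-- One step along the layer. -/
theorem lay_step (D : Set (ℤ × ℤ)) (A : UE × Bool) (i : ℕ) :
    inF D A (i + 1) = inF D A i ∨ (crF D A i ∈ D ∧ inF D A (i + 1) = crF D A i ∧
      AdjF (inF D A i) (crF D A i)) ∨
      (crF D A i ∈ D ∧ AdjF (inF D A i) (crF D A i) ∧ AdjF (crF D A i) (inF D A (i + 1))) := by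
  unfold inF crF
  rw [side_succ]
  by_cases h1 : ahead (rtn (side D A i)) ∈ D
  · by_cases h2 : ahead (rtn (rtn (side D A i))) ∈ D
    · right; right
      rw [sc_right h1 h2, ahead_rv_rtn]
      exact ⟨h1, adjF_rtn _, adjF_rtn _⟩
    · right; left
      rw [sc_straight h1 h2, ahead_rv_rtn]
      exact ⟨h1, rfl, adjF_rtn _⟩
  · left
    rw [sc_left h1, ahead_rv_rtn]

/-- Walk along the layer upwards: either the face `inF k` is reached without meeting `E`, or `E` is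
met. -/
theorem lay_up (hA : BD D A) {i : ℕ} (hpi : p ≤ i) (hi : inF D A i ∉ E) {k : ℕ} (hik : i ≤ k)
    (hkq : k ≤ q) :
    (∃ f e, ChI (onV D A p q \ E) (inF D A i) f ∧ f ∉ E ∧ f ∈ onV D A p q ∧ AdjF f e ∧ e ∈ E) ∨
      (inF D A k ∉ E ∧ ChI (onV D A p q \ E) (inF D A i) (inF D A k)) := by
  induction k, hik using Nat.le_induction with
  | base => exact Or.inr ⟨hi, ChI.refl _⟩
  | succ k hk ih =>
    rcases ih (by omega) with h | ⟨h1, h2⟩
    · exact Or.inl h
    have hkV : inF D A k ∈ onV D A p q := ⟨inF_mem hA k, k, by omega, Or.inl ⟨by omega, rfl⟩⟩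
    have hkV' : inF D A (k + 1) ∈ onV D A p q :=
      ⟨inF_mem hA (k + 1), k + 1, by omega, Or.inl ⟨hkq, rfl⟩⟩
    rcases lay_step D A k with h3 | ⟨h3, h4, h5⟩ | ⟨h3, h4, h5⟩
    · rw [h3]
      exact Or.inr ⟨h1, h2⟩
    · by_cases h6 : inF D A (k + 1) ∈ E
      · exact Or.inl ⟨_, _, h2, h1, hkV, h4 ▸ h5, h6⟩
      · exact Or.inr ⟨h6, h2.trans (ChI.single (h4 ▸ h5) ⟨hkV', h6⟩)⟩
    · by_cases h6 : crF D A k ∈ E
      · exact Or.inl ⟨_, _, h2, h1, hkV, h4, h6⟩
      · have hcV : crF D A k ∈ onV D A p q := ⟨h3, k, by omega, Or.inr ⟨by omega, rfl⟩⟩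
        have h7 := h2.trans (ChI.single h4 ⟨hcV, h6⟩)
        by_cases h8 : inF D A (k + 1) ∈ E
        · exact Or.inl ⟨_, _, h7, h6, hcV, h5, h8⟩
        · exact Or.inr ⟨h8, h7.trans (ChI.single h5 ⟨hkV', h8⟩)⟩

/-- Walk along the layer downwards. -/
theorem lay_down (hA : BD D A) {i : ℕ} (hiq : i ≤ q) (hi : inF D A i ∉ E) {j : ℕ} (hj : p + j ≤ i) :
    (∃ f e, ChI (onV D A p q \ E) (inF D A i) f ∧ f ∉ E ∧ f ∈ onV D A p q ∧ AdjF f e ∧ e ∈ E) ∨
      (inF D A (i - j) ∉ E ∧ ChI (onV D A p q \ E) (inF D A i) (inF D A (i - j))) := by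
  induction j with
  | zero => exact Or.inr ⟨hi, ChI.refl _⟩
  | succ j ih =>
    rcases ih (by omega) with h | ⟨h1, h2⟩
    · exact Or.inl h
    obtain ⟨k, hk⟩ : ∃ k, i - j = k + 1 := ⟨i - j - 1, by omega⟩
    have hk' : i - (j + 1) = k := by omega
    rw [hk'] at *
    rw [hk] at h1 h2
    have hkV : inF D A k ∈ onV D A p q := ⟨inF_mem hA k, k, by omega, Or.inl ⟨by omega, rfl⟩⟩
    have hkV' : inF D A (k + 1) ∈ onV D A p q :=
      ⟨inF_mem hA (k + 1), k + 1, by omega, Or.inl ⟨by omega, rfl⟩⟩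
    rcases lay_step D A k with h3 | ⟨h3, h4, h5⟩ | ⟨h3, h4, h5⟩
    · rw [← h3]
      exact Or.inr ⟨h1, h2⟩
    · by_cases h6 : inF D A k ∈ E
      · exact Or.inl ⟨_, _, h2, h1, hkV', (h4 ▸ h5 : AdjF (inF D A k) (inF D A (k + 1))).symm, h6⟩
      · exact Or.inr ⟨h6, h2.trans (ChI.single
          (h4 ▸ h5 : AdjF (inF D A k) (inF D A (k + 1))).symm ⟨hkV, h6⟩)⟩
    · by_cases h6 : crF D A k ∈ E
      · exact Or.inl ⟨_, _, h2, h1, hkV', h5.symm, h6⟩
      · have hcV : crF D A k ∈ onV D A p q := ⟨h3, k, by omega, Or.inr ⟨by omega, rfl⟩⟩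
        have h7 := h2.trans (ChI.single h5.symm ⟨hcV, h6⟩)
        by_cases h8 : inF D A k ∈ E
        · exact Or.inl ⟨_, _, h7, h6, hcV, h4.symm, h8⟩
        · exact Or.inr ⟨h8, h7.trans (ChI.single h4.symm ⟨hkV, h8⟩)⟩

/-- **The layer is connected**: from a face `inF i` outside `E` one comes along the layer to a face
outside `E` which is adjacent to `E`, if `E` contains a face of the layer. -/
theorem lay_walk (hA : BD D A) {i : ℕ} (hpi : p ≤ i) (hiq : i ≤ q) (hi : inF D A i ∉ E)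
    (hE : ∃ e ∈ onV D A p q, e ∈ E) :
    ∃ f e, ChI (onV D A p q \ E) (inF D A i) f ∧ f ∉ E ∧ f ∈ onV D A p q ∧ AdjF f e ∧ e ∈ E := by
  obtain ⟨e, ⟨heD, j, hpj, hj⟩, heE⟩ := hE
  have hjq : j ≤ q := by rcases hj with ⟨h, -⟩ | ⟨h, -⟩ <;> omega
  have key : (∃ f e, ChI (onV D A p q \ E) (inF D A i) f ∧ f ∉ E ∧ f ∈ onV D A p q ∧ AdjF f e ∧
      e ∈ E) ∨ (inF D A j ∉ E ∧ ChI (onV D A p q \ E) (inF D A i) (inF D A j)) := by
    rcases Nat.le_total i j with h | h
    · exact lay_up hA hpi hi h hjq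
    · have := lay_down (p := p) hA hiq hi (j := i - j) (by omega)
      rwa [show i - (i - j) = j by omega] at this
  rcases key with h | ⟨h1, h2⟩
  · exact h
  have hjV : inF D A j ∈ onV D A p q := ⟨inF_mem hA j, j, hpj, Or.inl ⟨hjq, rfl⟩⟩
  rcases hj with ⟨-, hj⟩ | ⟨-, hj⟩
  · exact absurd (hj ▸ heE) h1
  · refine ⟨_, e, h2, h1, hjV, ?_, heE⟩
    rw [← hj]
    exact adjF_rtn _

/-- Every face of the barrier is joined in the barrier to a face at the stop arc. -/
theorem barV_touch (h : BD D A) (hf : f ∈ BarV D A p q κ) :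
    ∃ g ∈ onO D A p q, ChI (BarV D A p q κ) f g := by
  obtain ⟨g, hg, hfg⟩ := hf
  have h1 : ChI (pc D κ g) f g := econn_pc hg.1 f hfg g self_mem_pc
  have h2 : ChI (BarV D A p q κ) f g :=
    h1.mono (fun (x : ℤ × ℤ) (hx : x ∈ pc D κ g) => (⟨g, hg, hx⟩ : x ∈ BarV D A p q κ))
  obtain ⟨hgD, i, hpi, ⟨hiq, hi⟩ | ⟨hiq, hi⟩⟩ := hg
  · exact ⟨g, ⟨i, hpi, hiq, hi⟩, h2⟩
  · refine ⟨inF D A i, ⟨i, hpi, hiq.le, rfl⟩, h2.trans (ChI.single ?_ ?_)⟩
    · rw [← hi]
      exact (adjF_rtn _).symm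
    · exact onO_sub_barV h ⟨i, hpi, hiq.le, rfl⟩

theorem att_barV (h : BD D A) : Att D A p q (BarV D A p q κ) :=
  ⟨barV_sub, onO_sub_barV h, fun _ hf => barV_touch h hf⟩

/-! ### The entered set -/

open Classical in
/-- The set which is removed when the piece of `z` is entered. -/
noncomputable def entV (D : Set (ℤ × ℤ)) (A : UE × Bool) (p q : ℕ) (κ : ℤ × ℤ → ι) (z : ℤ × ℤ) :
    Set (ℤ × ℤ) :=
  if ∃ i, p ≤ i ∧ i ≤ q ∧ inF D A i ∈ pc D κ z then pc D κ z
  else pc D κ z ∪ pc D κ (inF D A (sInf {i | p ≤ i ∧ i ≤ q ∧ ∃ f ∈ pc D κ z, AdjF f (inF D A i)}))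

/-- The properties of the entered set. -/
theorem entV_spec (hz : z ∈ BarV D A p q κ) :
    ∃ i, p ≤ i ∧ i ≤ q ∧ inF D A i ∈ entV D A p q κ z ∧
      entV D A p q κ z = pc D κ z ∪ pc D κ (inF D A i) ∧
      (pc D κ z = pc D κ (inF D A i) ∨ ∃ f ∈ pc D κ z, AdjF f (inF D A i)) := by
  classical
  unfold entV
  by_cases h : ∃ i, p ≤ i ∧ i ≤ q ∧ inF D A i ∈ pc D κ z
  · rw [if_pos h]
    obtain ⟨i, h1, h2, h3⟩ := h
    have h4 : pc D κ (inF D A i) = pc D κ z := pc_eq (barV_sub hz) h3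
    exact ⟨i, h1, h2, h3, by rw [h4, Set.union_self], Or.inl h4.symm⟩
  · rw [if_neg h]
    have hne : {i | p ≤ i ∧ i ≤ q ∧ ∃ f ∈ pc D κ z, AdjF f (inF D A i)}.Nonempty := by
      obtain ⟨g, ⟨hgD, i, hpi, hi⟩, hzg⟩ := hz
      have hpz : pc D κ z = pc D κ g := pc_eq hgD hzg
      have hgz : g ∈ pc D κ z := by rw [hpz]; exact self_mem_pc
      rcases hi with ⟨hiq, hi⟩ | ⟨hiq, hi⟩
      · exact absurd ⟨i, hpi, hiq, hi ▸ hgz⟩ h
      · refine ⟨i, hpi, hiq.le, g, hgz, ?_⟩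
        rw [← hi]
        exact (adjF_rtn _).symm
    obtain ⟨h1, h2, h3⟩ := Nat.sInf_mem hne
    exact ⟨_, h1, h2, Or.inr self_mem_pc, rfl, Or.inr h3⟩

theorem pc_sub_entV : pc D κ z ⊆ entV D A p q κ z := by
  classical
  unfold entV
  split_ifs
  · exact subset_rfl
  · exact Set.subset_union_left

theorem self_mem_entV : z ∈ entV D A p q κ z := pc_sub_entV self_mem_pc

theorem entV_sub_barV (hA : BD D A) (hz : z ∈ BarV D A p q κ) :
    entV D A p q κ z ⊆ BarV D A p q κ := by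
  obtain ⟨i, h1, h2, -, h4, -⟩ := entV_spec hz
  rw [h4]
  exact Set.union_subset (pc_sub_barV hz) (pc_sub_barV (onO_sub_barV hA ⟨i, h1, h2, rfl⟩))

theorem econn_entV (hA : BD D A) (hz : z ∈ BarV D A p q κ) : EConn (entV D A p q κ z) := by
  obtain ⟨i, h1, h2, -, h4, h5⟩ := entV_spec hz
  have hzD : z ∈ D := barV_sub hz
  have hiD : inF D A i ∈ D := inF_mem hA i
  rw [h4]
  rcases h5 with h5 | ⟨f, hf, hfa⟩
  · rw [h5, Set.union_self]
    exact econn_pc hiD
  · set X := pc D κ z ∪ pc D κ (inF D A i) with hX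
    -- every face is joined to `f`
    have hfX : f ∈ X := Or.inl hf
    have key : ∀ x ∈ X, ChI X f x := by
      rintro x (hx | hx)
      · exact ChI.mono Set.subset_union_left (show ChI (pc D κ z) f x from econn_pc hzD f hf x hx)
      · exact (ChI.single hfa (Or.inr self_mem_pc)).trans
          (ChI.mono Set.subset_union_right
          (show ChI (pc D κ (inF D A i)) (inF D A i) x from econn_pc hiD _ self_mem_pc x hx))
    intro x hx y hy
    exact (ChI.symm hfX (key x hx)).trans (key y hy)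

theorem sat_entV (hA : BD D A) (hz : z ∈ BarV D A p q κ) : Sat D κ (entV D A p q κ z) := by
  obtain ⟨i, h1, h2, -, h4, -⟩ := entV_spec hz
  rw [h4]
  rintro f (hf | hf) g hg ha hk
  · left
    rw [← pc_eq (barV_sub hz) hf, pc_adj (pc_sub (barV_sub hz) hf) hg ha hk]
    exact self_mem_pc
  · right
    rw [← pc_eq (inF_mem hA i) hf, pc_adj (pc_sub (inF_mem hA i) hf) hg ha hk]
    exact self_mem_pc

/-- The diameter of the entered set. -/
theorem entV_diam (hA : BD D A) (hz : z ∈ BarV D A p q κ) {d : ℤ}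
    (hd : ∀ x y, κ x = κ y → |x.1 - y.1| < d ∧ |x.2 - y.2| < d) :
    ∀ x ∈ entV D A p q κ z, ∀ y ∈ entV D A p q κ z, |x.1 - y.1| < 2 * d ∧ |x.2 - y.2| < 2 * d := by
  obtain ⟨i, h1, h2, -, h4, h5⟩ := entV_spec hz
  have hzD : z ∈ D := barV_sub hz
  have hiD : inF D A i ∈ D := inF_mem hA i
  have hd0 : 0 < d := by
    have := (hd z z rfl).1
    simpa using this
  have hcell : ∀ a ∈ D, ∀ x ∈ pc D κ a, ∀ y ∈ pc D κ a, |x.1 - y.1| < d ∧ |x.2 - y.2| < d := by
    intro a ha x hx y hy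
    exact hd x y ((pc_cell ha hx).trans (pc_cell ha hy).symm)
  rw [h4]
  have hcross : ∀ x ∈ pc D κ z, ∀ y ∈ pc D κ (inF D A i),
      |x.1 - y.1| < 2 * d ∧ |x.2 - y.2| < 2 * d := by
    intro x hx y hy
    rcases h5 with h5 | ⟨f, hf, hfa⟩
    · rw [← h5] at hy
      have := hcell z hzD x hx y hy
      constructor <;> linarith
    · have a1 := hcell z hzD x hx f hf
      have a2 := hcell _ hiD _ self_mem_pc y hy
      have a3 := adj_near_app (adj_iff_adjFL.2 hfa)
      simp only [abs_lt, abs_le] at *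
      omega
  rintro x (hx | hx) y (hy | hy)
  · have := hcell z hzD x hx y hy
    constructor <;> linarith
  · exact hcross x hx y hy
  · have := hcross y hy x hx
    rw [abs_sub_comm x.1, abs_sub_comm x.2]
    exact this
  · have := hcell _ hiD x hx y hy
    constructor <;> linarith

/-! ### The new domain touches the entered set -/

/-- A chain from outside `D` enters `D`. -/
theorem first_in {x y : ℤ × ℤ} (hx : x ∉ D) (hy : y ∈ D) (h : ChI P x y) :
    ∃ a b, ChI (P \ D) x a ∧ a ∉ D ∧ AdjF a b ∧ b ∈ D ∧ b ∈ P := by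
  have key : ∀ w, ChI P x w → (∃ a b, ChI (P \ D) x a ∧ a ∉ D ∧ AdjF a b ∧ b ∈ D ∧ b ∈ P) ∨
      (w ∉ D ∧ ChI (P \ D) x w) := by
    intro w hw
    induction hw with
    | refl => exact Or.inr ⟨hx, ChI.refl _⟩
    | @tail b c hb hs ih =>
      rcases ih with h1 | ⟨h1, h2⟩
      · exact Or.inl h1
      · by_cases hc : c ∈ D
        · exact Or.inl ⟨b, c, h2, h1, hs.1, hc, hs.2⟩
        · exact Or.inr ⟨hc, h2.trans (ChI.single hs.1 ⟨hs.2, hc⟩)⟩
  rcases key y h with h1 | ⟨h1, -⟩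
  · exact h1
  · exact absurd hy h1

/-- **The new domain touches the entered set.** `V` is the removed set, `E ⊆ V` the entered set, a union
of pieces of the barrier. -/
theorem adj_entV (hP : EConn P) (hBP : BD P B) (hDP : D ⊆ P)
    (h : ArcsE D A (IsEx P B) m p q) (hVD : V ⊆ D) (hVE : ∀ f ∈ V, f ∈ BarV D A p q κ → f ∈ E)
    (hEV : E ⊆ V) (hE : ∃ e ∈ onV D A p q, e ∈ E) (hB : ahead B ∉ E) :
    ∃ x, BD (compT (P \ V) (ahead B)) x ∧ ahead (rv x) ∈ E := by
  have hA := h.cyc.bd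
  -- from a layer face at an exit index
  have key : ∀ i, p ≤ i → i ≤ q → inF D A i ∉ E → inF D A i ∈ compT (P \ V) (ahead B) →
      ∃ x, BD (compT (P \ V) (ahead B)) x ∧ ahead (rv x) ∈ E := by
    intro i h1 h2 h3 h4
    obtain ⟨f, e, g1, g2, g3, g4, g5⟩ := lay_walk hA h1 h2 h3 hE
    have hsub : onV D A p q \ E ⊆ P \ V := fun x hx =>
      ⟨hDP hx.1.1, fun hV => hx.2 (hVE x hV (onV_sub_barV hx.1))⟩
    have h5 : f ∈ compT (P \ V) (ahead B) := ChI.trans h4 (g1.mono hsub)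
    obtain ⟨x, hx1, hx2⟩ := adjF_dir g4
    refine ⟨x, ⟨by rw [hx1]; exact h5, ?_⟩, by rw [hx2]; exact g5⟩
    rw [hx2]
    intro hh
    by_cases hBV : ahead B ∈ P \ V
    · exact (compT_sub hBV hh).2 (hEV g5)
    · -- the component of a face outside consists of it and of faces of `P \ V`
      have h6 : e = ahead B ∨ e ∈ P \ V := by
        have hh' : ChI (P \ V) (ahead B) e := hh
        rcases Relation.ReflTransGen.cases_tail hh' with h7 | ⟨c, -, h7⟩
        · exact Or.inl h7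
        · exact Or.inr h7.2
      rcases h6 with h6 | h6
      · exact hB (h6 ▸ g5)
      · exact h6.2 (hEV g5)
  by_cases hBD : ahead B ∈ D
  · obtain ⟨c, hc, hcs⟩ := h.cyc.exists_index (show BD D B from ⟨hBD, fun hh => hBP.2 (hDP hh)⟩)
    have hex : IsEx P B (side D A c) := Or.inr hcs
    have hpc : p ≤ c := by
      by_contra hlt
      exact h.first c (by omega) hex
    have hcq : c ≤ q := by
      by_contra hlt
      exact h.last c (by omega) hc hex
    have hin : inF D A c = ahead B := by unfold inF; rw [hcs]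
    exact key c hpc hcq (by rw [hin]; exact hB) (by rw [hin]; exact self_mem_compT)
  · obtain ⟨e0, he0, -⟩ := hE
    obtain ⟨a, b, g1, g2, g3, g4, g5⟩ := first_in hBD he0.1 (hP _ hBP.1 _ (hDP he0.1))
    have hsub : P \ D ⊆ P \ V := fun x hx => ⟨hx.1, fun hV => hx.2 (hVD hV)⟩
    have haC : a ∈ compT (P \ V) (ahead B) := g1.mono hsub
    obtain ⟨x, hx1, hx2⟩ := adjF_dir g3
    have haP : a ∈ P := (ChI.mem (show ahead B ∈ P \ D from ⟨hBP.1, hBD⟩) g1).1
    have hbd : BD D (rv x) := ⟨by rw [hx2]; exact g4, by rw [rv_rv, hx1]; exact g2⟩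
    obtain ⟨c, hc, hcs⟩ := h.cyc.exists_index hbd
    have hex : IsEx P B (side D A c) := by
      left
      rw [hcs, rv_rv, hx1]
      exact haP
    have hpc : p ≤ c := by
      by_contra hlt
      exact h.first c (by omega) hex
    have hcq : c ≤ q := by
      by_contra hlt
      exact h.last c (by omega) hc hex
    have hin : inF D A c = b := by unfold inF; rw [hcs, hx2]
    by_cases hbE : b ∈ E
    · refine ⟨x, ⟨by rw [hx1]; exact haC, ?_⟩, by rw [hx2]; exact hbE⟩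
      rw [hx2]
      intro hh
      have hBV : ahead B ∈ P \ V := ⟨hBP.1, fun hV => hBD (hVD hV)⟩
      exact (compT_sub hBV hh).2 (hEV hbE)
    · have hbar : inF D A c ∈ BarV D A p q κ := onO_sub_barV hA ⟨c, hpc, hcq, rfl⟩
      have hbV : b ∉ V := fun hV => hbE (hVE b hV (hin ▸ hbar))
      refine key c hpc hcq (by rw [hin]; exact hbE) ?_
      rw [hin]
      exact compT_step haC g3 ⟨g5, hbV⟩

end Pool.Agent.SixB.Mv
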