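import Pool.Agent.Lib.SixB.S8MoveB
import Pool.Agent.Lib.SixB.S8BarV

/-!
# Step 8: the weak labels of the contour of `P`

`WkLab`: each side of the contour of `P` is joined to the tip side near the tip, or it is joined to the
target side near the target, or it has the label of its side of the target. `LabP.wk`: the labels `LabP`
are weak labels.
-/

set_option autoImplicit false

namespace Pool.Agent.SixB.Mv

open Pool.Agent.Perc Pool.Agent.Perc6 Pool.Agent.Perc6.C2Aux Pool.Agent.Perc.Tips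
open Pool.Agent.SixB.Top

variable {ι : Type*} {U P : Set (ℤ × ℤ)} {κ : ℤ × ℤ → ι} {A τ B : UE × Bool} {s s₀ s' s₀' : ℤ}
  {mP mU kt i₁ j₁ t j₂ i₂ : ℕ}

/-- **The weak labels.** -/
def WkLab (U P : Set (ℤ × ℤ)) (κ : ℤ × ℤ → ι) (A τ B : UE × Bool) (s s₀ : ℤ)
    (mP mU kt t : ℕ) : Prop :=
  side P A t = B ∧ t < mP ∧ ∀ i < mP,
    ChI (P ∩ sqF s (ahead A)) (ahead A) (inF P A i) ∨
    ChI (P ∩ sqF s₀ (ahead B)) (ahead B) (inF P A i) ∨
    (i < t ∧ ∃ w < kt, LinkK U κ (side P A i) (side U τ w)) ∨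
    (t < i ∧ ∃ w, kt ≤ w ∧ w < mU ∧ LinkK U κ (side P A i) (side U τ w))

theorem WkLab.mono (h : WkLab U P κ A τ B s s₀ mP mU kt t) (hs : s ≤ s') (h0 : s₀ ≤ s₀') :
    WkLab U P κ A τ B s' s₀' mP mU kt t := by
  refine ⟨h.1, h.2.1, fun i hi => ?_⟩
  rcases h.2.2 i hi with h1 | h1 | h1
  · exact Or.inl (ChI.mono (T := P ∩ sqF s' (ahead A))
      (fun f hf => ⟨hf.1, hf.2.1.trans hs, hf.2.2.trans hs⟩) h1)
  · exact Or.inr (Or.inl (ChI.mono (T := P ∩ sqF s₀' (ahead B))
      (fun f hf => ⟨hf.1, hf.2.1.trans h0, hf.2.2.trans h0⟩) h1))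
  · exact Or.inr (Or.inr h1)

/-- The inner faces of an interval of sides are joined near these faces. -/
private theorem chain_wk {g : ℤ × ℤ} {R : ℤ} (hA : BD P A) {a b : ℕ} (hab : a ≤ b)
    (hR : ∀ i, a ≤ i → i ≤ b → inF P A i ∈ sqF R g) :
    ChI (P ∩ sqF (R + 1) g) (inF P A a) (inF P A b) := by
  have hle : ∀ f ∈ sqF R g, f ∈ sqF (R + 1) g := fun f hf =>
    ⟨hf.1.trans (by omega), hf.2.trans (by omega)⟩
  have hin : ∀ i, a ≤ i → i ≤ b → inF P A i ∈ P ∩ sqF (R + 1) g := fun i h1 h2 =>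
    ⟨inF_mem hA i, hle _ (hR i h1 h2)⟩
  induction b, hab using Nat.le_induction with
  | base => exact ChI.refl _
  | succ k hk ih =>
    have h1 := ih (fun i a b => hR i a (by omega)) (fun i a b => hin i a (by omega))
    rcases lay_step P A k with h3 | ⟨-, h4, h5⟩ | ⟨h3, h4, h5⟩
    · rw [h3]
      exact h1
    · rw [← h4] at h5
      exact h1.trans (ChI.single h5 (hin (k + 1) (by omega) le_rfl))
    · have h6 := hR k hk (by omega)
      have h7 := adj_near_app (adj_iff_adjFL.2 h4)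
      have h8 : crF P A k ∈ P ∩ sqF (R + 1) g := by
        refine ⟨h3, ?_⟩
        unfold sqF at h6 ⊢
        rw [Set.mem_ofPred_eq, abs_le, abs_le] at *
        omega
      exact (h1.trans (ChI.single h4 h8)).trans (ChI.single h5 (hin (k + 1) (by omega) le_rfl))

/-- **The labels are weak labels.** -/
theorem LabP.wk (X : LabP U P κ A τ B s s₀ mP mU kt i₁ j₁ t j₂ i₂) :
    WkLab U P κ A τ B (s + 1) (s₀ + 1) mP mU kt t := by
  have hA := X.cyc.bd
  have h1 := X.ij
  have h2 := X.jt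
  have h3 := X.tj
  have h4 := X.ji
  have h5 := X.im
  have hs : 0 ≤ s := (abs_nonneg _).trans (X.nrA 0 (Or.inl (Nat.zero_le _))).1
  have hs0 : 0 ≤ s₀ := (abs_nonneg _).trans (X.nrB t h2 h3).1
  have hB : ahead B ∈ P ∩ sqF (s₀ + 1) (ahead B) := by
    refine ⟨?_, ?_⟩
    · rw [← X.tgt]
      exact inF_mem hA t
    · unfold sqF
      rw [Set.mem_ofPred_eq, sub_self, sub_self, abs_zero]
      omega
  have hAm : ahead A ∈ P ∩ sqF (s + 1) (ahead A) := by
    refine ⟨hA.1, ?_⟩
    unfold sqF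
    rw [Set.mem_ofPred_eq, sub_self, sub_self, abs_zero]
    omega
  have et : inF P A t = ahead B := by
    unfold inF
    rw [X.tgt]
  have e0 : inF P A 0 = ahead A := rfl
  have em : inF P A mP = ahead A := by
    unfold inF
    rw [X.cyc.per]
  refine ⟨X.tgt, by omega, fun i hi => ?_⟩
  by_cases c1 : i ≤ i₁
  · left
    have h := chain_wk (R := s) (g := ahead A) hA (Nat.zero_le i)
      fun l _ hl => X.nrA l (Or.inl (hl.trans c1))
    rwa [e0] at h
  by_cases c2 : i < j₁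
  · exact Or.inr (Or.inr (Or.inl ⟨by omega, X.b i (by omega) c2⟩))
  by_cases c3 : i ≤ j₂
  · right
    left
    rcases le_total i t with c | c
    · have h := chain_wk (R := s₀) (g := ahead B) hA c
        fun l h6 h7 => X.nrB l (by omega) (by omega)
      rw [et] at h
      exact ChI.symm ⟨inF_mem hA i, (X.nrB i (by omega) c3).1.trans (by omega),
        (X.nrB i (by omega) c3).2.trans (by omega)⟩ h
    · have h := chain_wk (R := s₀) (g := ahead B) hA c
        fun l h6 h7 => X.nrB l (by omega) (by omega)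
      rwa [et] at h
  by_cases c4 : i < i₂
  · exact Or.inr (Or.inr (Or.inr ⟨by omega, X.l i (by omega) c4⟩))
  · left
    have h := chain_wk (R := s) (g := ahead A) hA hi.le
      fun l h6 h7 => X.nrA l (Or.inr ⟨by omega, h7⟩)
    rw [em] at h
    exact ChI.symm ⟨inF_mem hA i, (X.nrA i (Or.inr ⟨by omega, hi.le⟩)).1.trans (by omega),
      (X.nrA i (Or.inr ⟨by omega, hi.le⟩)).2.trans (by omega)⟩ h

end Pool.Agent.SixB.Mv
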