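import Pool.Agent.Lib.SixB.S8InvF
import Pool.Agent.Lib.SixB.S8LabWd

/-!
# Step 8, unit 8H: the colour of a lost component at the time of its loss

A move of the coarse domain `s`, regular or void. `C`: a part of `P \ V` closed in `P \ V`, without the
target. `y`: a side of `P` with its face in `C`, not at a recorded cell.
* `Dom.Val.anc_two`: the weak label of `y` is a link;
* **`Dom.Val.anc_lbl`**, `Dom.Val.anc_lblO`: `y` is linked to a side `w` of the true domain, `w < x` iff it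
  has the old label of the even wall;
* `Rg.anc_lbl`: the same for a regular move; **`Rg.anc_cap`**: the class part behind `y` is outside of the
  true domain of the move and is not visited.
-/

set_option autoImplicit false
set_option linter.unusedSectionVars false

namespace Pool.Agent.SixB.Mv

open Finset Pool.Agent.Perc Pool.Agent.Perc6 Pool.Agent.PercT Pool.Agent.Perc6.C2Aux
open Pool.Agent.Perc.Tips Pool.Agent.SixB Pool.Agent.SixB.Top Pool.Agent.SixB.Blow
open Pool.Agent.SixB.CloK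

namespace Dom.Val

variable {s : Dom} {g : Grd} {u : ℕ} {U C : Set (ℤ × ℤ)} {κ : ℤ × ℤ → ℤ × ℤ}
  {τ y : UE × Bool} {mP mU x t : ℕ} {a b : ℤ} {ρ : Rec}

/-- The removed set is saturated in `P`. -/
private theorem sat_rem' (h : s.Val g) (hρ : s.RecOk g ρ) {f k : ℤ × ℤ} (hf : f ∈ s.rem g ρ)
    (hk : k ∈ s.P) (ha : AdjF f k) (hc : g.nm f = g.nm k) : k ∈ s.rem g ρ := by
  have hfd : f ∈ s.dom g := h.rem_sub_dom hρ hf
  have hkd : k ∈ s.dom g := h.dcell f hfd k hk ha hc.symm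
  by_cases hv : s.Void g
  · rw [Dom.rem_void s g hv] at hf ⊢
    exact h.sat_ent hρ f hf k hkd ha hc
  · rw [Dom.rem_reg s g hv] at hf ⊢
    rcases hf with hf | hf
    · left
      have hk1 : k ∈ s.inr g := inn_adj h.sat (h.tipm hv) hf.1 hkd ha hc
      refine ⟨hk1, fun hh => hf.2 ⟨hf.1, ?_⟩⟩
      rw [hc]
      exact hh.2
    · exact Or.inr (h.sat_ent hρ f hf k hkd ha hc)

/-- A closed part of `P \ V` is closed in `P` inside the cells. -/
theorem anc_cl (h : s.Val g) (hu : 0 < u) (hρ : s.RecOk g ρ) (hC : C ⊆ s.P \ s.rem g ρ)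
    (hcl : ∀ f ∈ C, ∀ k ∈ s.P \ s.rem g ρ, AdjF f k → k ∈ C) {f k : ℤ × ℤ} (hf : f ∈ blow u C)
    (hk : k ∈ blow u s.P) (ha : AdjF f k)
    (hc : gc (u * g.a) (u * g.b) (u * g.L) f = gc (u * g.a) (u * g.b) (u * g.L) k) :
    k ∈ blow u C := by
  have hu' : (0 : ℤ) < u := by exact_mod_cast hu
  have hc' : g.nm (Blow.cl u f) = g.nm (Blow.cl u k) := by
    rw [Blow.gc_cl hu, Blow.gc_cl hu] at hc
    exact hc
  rcases adj_cl hu' ha with h4 | h4
  · rw [mem_blow, ← h4]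
    exact hf
  · exact hcl _ hf _ ⟨hk, fun hh => (hC hf).2 (h.sat_rem' hρ hh (hC hf).1 h4.symm hc'.symm)⟩ h4

/-- The faces joined to the tip side near the tip side are not in a closed part of `P \ V`, except the
recorded cells. -/
theorem anc_tip (h : s.Val g) (hu : 0 < u) (hρ : s.RecOk g ρ) (hC : C ⊆ s.P \ s.rem g ρ)
    (hcA : ∀ f ∈ sqF a (ahead (subE u s.A 0)), gc (u * g.a) (u * g.b) (u * g.L) f =
      gc (u * g.a) (u * g.b) (u * g.L) (ahead (subE u s.A 0))) {f : ℤ × ℤ}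
    (hf : ChI (blow u s.P ∩ sqF a (ahead (subE u s.A 0))) (ahead (subE u s.A 0)) f) :
    f ∈ blow u C → f ∈ blow u (s.fcs g ρ) := by
  have hu' : (0 : ℤ) < u := by exact_mod_cast hu
  have key : (s.Void g → f ∈ blow u (s.ent g ρ)) ∧ (¬ s.Void g → f ∈ blow u (s.inr g)) ∧
      gc (u * g.a) (u * g.b) (u * g.L) f =
        gc (u * g.a) (u * g.b) (u * g.L) (ahead (subE u s.A 0)) := by
    induction hf with
    | refl =>
      refine ⟨fun hv => ?_, fun hv => ?_, rfl⟩
      · rw [mem_blow, cl_ahead_zero hu]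
        exact Dom.ahead_mem_ent hv
      · rw [mem_blow, cl_ahead_zero hu]
        exact (h.bdI hv).1
    | @tail b k hb hs ih =>
      obtain ⟨h1, h2, h3⟩ := ih
      have hk := hcA k hs.2.2
      have hc : gc (u * g.a) (u * g.b) (u * g.L) b = gc (u * g.a) (u * g.b) (u * g.L) k :=
        h3.trans hk.symm
      have hc' : g.nm (Blow.cl u b) = g.nm (Blow.cl u k) := by
        rw [Blow.gc_cl hu, Blow.gc_cl hu] at hc
        exact hc
      refine ⟨fun hv => ?_, fun hv => ?_, hk⟩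
      · have h4 := h1 hv
        rcases adj_cl hu' hs.1 with h5 | h5
        · rw [mem_blow, ← h5]
          exact h4
        · exact h.sat_ent hρ _ h4 _ (h.dcell _ (h.ent_sub_dom hρ h4) _ hs.2.1 h5 hc'.symm) h5 hc'
      · have h4 := h2 hv
        rcases adj_cl hu' hs.1 with h5 | h5
        · rw [mem_blow, ← h5]
          exact h4
        · exact inn_adj h.sat (h.tipm hv) h4
            (h.dcell _ (h.inr_sub hv h4).1 _ hs.2.1 h5 hc'.symm) h5 hc'
  intro hfC
  by_cases hv : s.Void g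
  · have h1 := key.1 hv
    exact absurd (Dom.ent_sub_rem s g ρ h1) (hC hfC).2
  · have h1 := key.2.1 hv
    by_contra hn
    refine (hC hfC).2 ?_
    rw [Dom.rem_reg s g hv]
    exact Or.inl ⟨h1, hn⟩

/-- The faces joined to the target near the target are not in a closed part of `P \ V` without the
target. -/
theorem anc_tgt (h : s.Val g) (hu : 0 < u) (hρ : s.RecOk g ρ) (hC : C ⊆ s.P \ s.rem g ρ)
    (hcl : ∀ f ∈ C, ∀ k ∈ s.P \ s.rem g ρ, AdjF f k → k ∈ C) (hB : ahead s.B ∉ C)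
    (hcB : ∀ f ∈ sqF b (ahead (subE u s.B 0)), gc (u * g.a) (u * g.b) (u * g.L) f =
      gc (u * g.a) (u * g.b) (u * g.L) (ahead (subE u s.B 0))) {f : ℤ × ℤ}
    (hf : ChI (blow u s.P ∩ sqF b (ahead (subE u s.B 0))) (ahead (subE u s.B 0)) f) :
    f ∉ blow u C := by
  have key : f ∉ blow u C ∧ f ∈ blow u s.P ∧ gc (u * g.a) (u * g.b) (u * g.L) f =
        gc (u * g.a) (u * g.b) (u * g.L) (ahead (subE u s.B 0)) := by
    induction hf with
    | refl =>
      refine ⟨?_, ?_, rfl⟩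
      · rw [mem_blow, cl_ahead_zero hu]
        exact hB
      · rw [mem_blow, cl_ahead_zero hu]
        exact h.bdB.1
    | @tail b k hb hs ih =>
      obtain ⟨h1, h2, h3⟩ := ih
      have hk := hcB k hs.2.2
      exact ⟨fun hh => h1 (h.anc_cl hu hρ hC hcl hh h2 hs.1.symm (hk.trans h3.symm)), hs.2.1, hk⟩
  exact key.1

/-- **The weak label of a side of a lost component is a link.** -/
theorem anc_two (h : s.Val g) (hu : 0 < u) (hρ : s.RecOk g ρ) (hC : C ⊆ s.P \ s.rem g ρ)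
    (hcl : ∀ f ∈ C, ∀ k ∈ s.P \ s.rem g ρ, AdjF f k → k ∈ C) (hB : ahead s.B ∉ C)
    (hcA : ∀ f ∈ sqF a (ahead (subE u s.A 0)), gc (u * g.a) (u * g.b) (u * g.L) f =
      gc (u * g.a) (u * g.b) (u * g.L) (ahead (subE u s.A 0)))
    (hcB : ∀ f ∈ sqF b (ahead (subE u s.B 0)), gc (u * g.a) (u * g.b) (u * g.L) f =
      gc (u * g.a) (u * g.b) (u * g.L) (ahead (subE u s.B 0)))
    (W : WkLab U (blow u s.P) κ (subE u s.A 0) τ (subE u s.B 0) a b mP mU x t) {i : ℕ}
    (hi : i < mP) (h1 : inF (blow u s.P) (subE u s.A 0) i ∈ blow u C)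
    (h2 : inF (blow u s.P) (subE u s.A 0) i ∉ blow u (s.fcs g ρ)) :
    (i < t ∧ ∃ w < x, LinkK U κ (side (blow u s.P) (subE u s.A 0) i) (side U τ w)) ∨
    (t < i ∧ ∃ w, x ≤ w ∧ w < mU ∧
      LinkK U κ (side (blow u s.P) (subE u s.A 0) i) (side U τ w)) := by
  rcases W.2.2 i hi with h3 | h3 | h3 | h3
  · exact absurd (h.anc_tip hu hρ hC hcA h3 h1) h2
  · exact absurd h1 (h.anc_tgt hu hρ hC hcl hB hcB h3)
  · exact Or.inl h3
  · exact Or.inr h3

/-- The numbers of the sides of `P` and of the magnified `P`. -/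
theorem anc_num (h : s.Val g) (hu : 0 < u) (hy : BD s.P y) :
    ∃ iy < cyl s.P s.A, side s.P s.A iy = y ∧
      side (blow u s.P) (subE u s.A 0) (u * iy) = subE u y 0 := by
  obtain ⟨iy, hiy, hys⟩ := h.cycP.exists_index hy
  refine ⟨iy, hiy, hys, ?_⟩
  rw [side_blow hu h.bdA, Nat.mul_div_cancel_left _ hu, Nat.mul_mod_right]
  rw [hys]
  rfl

/-- **The label of a side of a lost component**, for a regular move and for a void move. -/
theorem anc_lbl (h : s.Val g) (hu : 0 < u) (hρ : s.RecOk g ρ) (hC : C ⊆ s.P \ s.rem g ρ)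
    (hcl : ∀ f ∈ C, ∀ k ∈ s.P \ s.rem g ρ, AdjF f k → k ∈ C) (hB : ahead s.B ∉ C)
    (hcA : ∀ f ∈ sqF a (ahead (subE u s.A 0)), gc (u * g.a) (u * g.b) (u * g.L) f =
      gc (u * g.a) (u * g.b) (u * g.L) (ahead (subE u s.A 0)))
    (hcB : ∀ f ∈ sqF b (ahead (subE u s.B 0)), gc (u * g.a) (u * g.b) (u * g.L) f =
      gc (u * g.a) (u * g.b) (u * g.L) (ahead (subE u s.B 0)))
    (hx : x < mU)
    (W : WkLab U (blow u s.P) κ (subE u s.A 0) τ (subE u s.B 0) a b (u * cyl s.P s.A) mU x t)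
    (hy : BD s.P y) (hyC : ahead y ∈ C) (hyf : ahead y ∉ s.fcs g ρ) :
    ∃ w < mU, LinkK U κ (subE u y 0) (side U τ w) ∧ (w < x ↔ s.old y) := by
  have hcy := h.cycP
  have hcb := cyc_blow hu h.fin h.con h.esc hcy
  obtain ⟨iy, hiy, hys, hsy⟩ := h.anc_num hu hy
  obtain ⟨iB, hiB, hBs, hsB⟩ := h.anc_num hu h.bdB
  have hlt : u * iy < u * cyl s.P s.A := Nat.mul_lt_mul_of_pos_left hiy hu
  have hltB : u * iB < u * cyl s.P s.A := Nat.mul_lt_mul_of_pos_left hiB hu
  have etB : t = u * iB := hcb.inj _ W.2.1 _ hltB (W.1.trans hsB.symm)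
  have hin : inF (blow u s.P) (subE u s.A 0) (u * iy) ∈ blow u C := by
    unfold inF
    rw [hsy, mem_blow, cl_ahead_zero hu]
    exact hyC
  have hout : inF (blow u s.P) (subE u s.A 0) (u * iy) ∉ blow u (s.fcs g ρ) := by
    unfold inF
    rw [hsy, mem_blow, cl_ahead_zero hu]
    exact hyf
  have hpos : 0 < iy := by
    rcases Nat.eq_zero_or_pos iy with h7 | h7
    · exfalso
      rw [h7] at hin hout
      exact hout (h.anc_tip hu hρ hC hcA (ChI.refl _) hin)
    · exact h7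
  have hold : s.old y ↔ iy < iB := by
    constructor
    · rintro ⟨i, j, a1, a2, a3, a4, a5⟩
      have e1 : i = iy := hcy.inj _ (by omega) _ hiy (a4.trans hys.symm)
      have e2 : j = iB := hcy.inj _ a3 _ hiB (a5.trans hBs.symm)
      subst e1 e2
      exact a2
    · intro a2
      exact ⟨iy, iB, hpos, a2, hiB, hys, hBs⟩
  rcases h.anc_two hu hρ hC hcl hB hcA hcB W hlt hin hout with ⟨h1, w, hw, hl⟩ | ⟨h1, w, hw, hw', hl⟩
  · rw [hsy] at hl
    have h3 : iy < iB := by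
      rw [etB] at h1
      exact lt_of_mul_lt_mul_left h1 (Nat.zero_le _)
    exact ⟨w, by omega, hl, ⟨fun _ => hold.2 h3, fun _ => hw⟩⟩
  · rw [hsy] at hl
    refine ⟨w, hw', hl, ⟨fun h3 => absurd h3 (by omega), fun h3 => ?_⟩⟩
    have h4 : u * iy < u * iB := Nat.mul_lt_mul_of_pos_left (hold.1 h3) hu
    omega

/-- The faces near a side which is far from the lines of the grid are in one cell. -/
private theorem cell_side' (hu : 0 < u) (hL : 0 < g.L) {l R : ℤ} {X : UE × Bool}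
    (off : OffL g.a g.b g.L l (lf X)) (hR : R + 2 ≤ u * l) :
    ∀ f ∈ sqF R (ahead (subE u X 0)), gc (u * g.a) (u * g.b) (u * g.L) f =
      gc (u * g.a) (u * g.b) (u * g.L) (ahead (subE u X 0)) := by
  intro f hf
  have h0 : OffL (u * g.a) (u * g.b) (u * g.L) (u * l) (lf (subE u X 0)) := by
    have := off.mag (m := (u : ℤ)) (by exact_mod_cast hu)
    rwa [lf_subE_zero]
  have h2 : IsCor (ahead (subE u X 0)) (lf (subE u X 0)) := isCor_in_lf _
  unfold IsCor at h2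
  unfold sqF at hf
  rw [Set.mem_ofPred_eq, abs_le, abs_le] at hf
  exact h0.gc_eq (mul_pos (by exact_mod_cast hu) hL) (by omega) (by omega) (by omega) (by omega)
    (by omega) (by omega) (by omega) (by omega)

/-- **The label of a side of a lost component**: tip side and target side far from the lines of the
grid. -/
theorem anc_lblO (h : s.Val g) (hu : 0 < u) (hρ : s.RecOk g ρ) (hC : C ⊆ s.P \ s.rem g ρ)
    (hcl : ∀ f ∈ C, ∀ k ∈ s.P \ s.rem g ρ, AdjF f k → k ∈ C) (hB : ahead s.B ∉ C)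
    {lA lB : ℤ} (offA : OffL g.a g.b g.L lA s.tip) (offB : OffL g.a g.b g.L lB (lf s.B))
    (hlA : a + 2 ≤ u * lA) (hlB : b + 2 ≤ u * lB) (hx : x < mU)
    (W : WkLab U (blow u s.P) κ (subE u s.A 0) τ (subE u s.B 0) a b (u * cyl s.P s.A) mU x t)
    (hy : BD s.P y) (hyC : ahead y ∈ C) (hyf : ahead y ∉ s.fcs g ρ) :
    ∃ w < mU, LinkK U κ (subE u y 0) (side U τ w) ∧ (w < x ↔ s.old y) :=
  h.anc_lbl hu hρ hC hcl hB (cell_side' hu h.hL offA hlA) (cell_side' hu h.hL offB hlB) hx W hy hyC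
    hyf

end Dom.Val

namespace Rg

variable {s : Dom} {g : Grd} {u : ℕ} {ζ : Cfg} {U : Set (ℤ × ℤ)} {κ : ℤ × ℤ → ℤ × ℤ}
  {r : ℤ} {τ : UE × Bool} {mU x : ℕ} {lA lB : ℤ} {σ : ℕ} {ρ : Rec}
  {C : Set (ℤ × ℤ)} {y : UE × Bool}

/-- The faces near the tip side are in one cell. -/
theorem cellA (h : Rg s g u ζ U κ r τ mU x lA lB σ ρ) :
    ∀ f ∈ sqF (3 * r) (ahead (subE u s.A 0)), gc (u * g.a) (u * g.b) (u * g.L) f =
      gc (u * g.a) (u * g.b) (u * g.L) (ahead (subE u s.A 0)) := by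
  intro f hf
  have h1 := h.far
  have hd := h.app.d_pos
  have h2 : IsCor (ahead (subE u s.A 0)) (lf (subE u s.A 0)) := isCor_in_lf _
  unfold IsCor at h2
  unfold sqF at hf
  rw [Set.mem_ofPred_eq, abs_le, abs_le] at hf
  exact h.offA'.gc_eq h.hL' (by omega) (by omega) (by omega) (by omega) (by omega) (by omega)
    (by omega) (by omega)

/-- **The label of a side of a lost component**, regular move. -/
theorem anc_lbl (h : Rg s g u ζ U κ r τ mU x lA lB σ ρ)
    (hC : C ⊆ s.P \ s.rem g ρ)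
    (hcl : ∀ f ∈ C, ∀ k ∈ s.P \ s.rem g ρ, AdjF f k → k ∈ C) (hB : ahead s.B ∉ C)
    (hy : BD s.P y) (hyC : ahead y ∈ C) (hyf : ahead y ∉ s.fcs g ρ) :
    ∃ w < mU, LinkK U κ (subE u y 0) (side U τ w) ∧ (w < x ↔ s.old y) := by
  obtain ⟨mP, i₁, j₁, t, j₂, i₂, X⟩ := h.lab
  have hd := h.app.d_pos
  have hu' := h.hu
  have hcb := cyc_blow hu' h.val.fin h.val.con h.val.esc h.val.cycP
  have emP : mP = u * cyl s.P s.A := X.cyc.cyl.symm.trans hcb.cyl
  subst emP
  refine h.val.anc_lbl hu' h.rok hC hcl hB (a := r + 1) (b := r + 1) (fun f hf => h.cellA f ?_)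
    (fun f hf => h.cellB ?_) h.tst.lt X.wk hy hyC hyf
  · unfold sqF at hf ⊢
    rw [Set.mem_ofPred_eq] at hf ⊢
    exact ⟨hf.1.trans (by omega), hf.2.trans (by omega)⟩
  · unfold sqF at hf ⊢
    rw [Set.mem_ofPred_eq] at hf ⊢
    exact ⟨hf.1.trans (by omega), hf.2.trans (by omega)⟩

/-- **The class part behind a side of a lost component.** -/
theorem anc_cap (h : Rg s g u ζ U κ r τ mU x lA lB σ ρ)
    (hC : C ⊆ s.P \ s.rem g ρ) (hy : BD s.P y) (hyC : ahead y ∈ C) (hyf : ahead y ∉ s.fcs g ρ)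
    (hg : ahead (rv (subE u y 0)) ∈ U) :
    ∀ f ∈ capC U κ (ahead (rv (subE u y 0))),
      f ∉ s.tru g u U κ ∧ f ∉ (vs ζ τ.1 0 σ : Set (ℤ × ℤ)) := by
  have hu' := h.hu
  intro f hf
  have hbd : BD (blow u s.P) (subE u y 0) :=
    bd_subE (by exact_mod_cast hu') hy le_rfl (by exact_mod_cast hu')
  have hG : ahead (subE u y 0) ∉ inn (blow u (s.dom g)) (subE u s.A 0) (blow u (s.bar g)) := by
    rw [h.inr_eq, mem_blow, cl_ahead_zero hu']
    intro h3
    have h4 := (hC hyC).2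
    rw [Dom.rem_reg s g h.nv] at h4
    exact h4 (Or.inl ⟨h3, hyf⟩)
  have h3 : f ∉ s.tru g u U κ :=
    TgI.cap_notMem (h.mvd.clo h.runS.att h.runS.tip h.runS.con h.lt) h.app
      (h.mvd.hcomp h.runS.att) hbd hG hg f hf
  exact ⟨h3, fun hN => h3 (h.vis_tru f hN (capC_sub hg hf).2)⟩

end Rg

end Pool.Agent.SixB.Mv
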