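import Pool.Agent.Lib.SixB.S8KerStop

/-!
# Step 8, unit 8H: the stop of a move is regular off a rare event

* `StopR`: up to the time `σ` the strand is not in `U \ T₀`, at the time `σ` it enters `Z` through a stop
  side;
* `exists_stopR`: outside of the bad event of `T₀` the stop is regular;
* `pr_not_stopR`, `Mv.pr_not_stopR_fam`: the probability that it is not.
-/

set_option autoImplicit false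

namespace Pool.Agent.SixB

open Finset Pool.Agent.Perc Pool.Agent.Perc6 Pool.Agent.PercT

/-- The regular stop at the time `σ`. -/
structure StopR (a : UE) (U T₀ Z : Set (ℤ × ℤ)) (Es : Set UE) (ω : Cfg) (σ : ℕ) : Prop where
  bef : ∀ i < σ, fa (pth ω a i) ∈ U → fa (pth ω a i) ∈ T₀
  mem : fa (pth ω a σ) ∈ Z
  side : pth ω a σ ∈ Es

namespace StopR

variable {a : UE} {U T₀ Z Zp : Set (ℤ × ℤ)} {Es : Set UE} {ω : Cfg} {σ σ' : ℕ}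

/-- The strand has not been in `Zp`. -/
theorem notMem (h : StopR a U T₀ Z Es ω σ) (hZpU : Zp ⊆ U) (hZp₀ : ∀ g ∈ Zp, g ∉ T₀) :
    ∀ i < σ, fa (pth ω a i) ∉ Zp := fun i hi hZ => hZp₀ _ hZ (h.bef i hi (hZpU hZ))

theorem stopE (h : StopR a U T₀ Z Es ω σ) (hZZp : Z ⊆ Zp) (hZpU : Zp ⊆ U)
    (hZp₀ : ∀ g ∈ Zp, g ∉ T₀) : StopE a Zp Es ω :=
  ⟨σ, h.notMem hZpU hZp₀, hZZp h.mem, h.side⟩

theorem unique (h : StopR a U T₀ Z Es ω σ) (h' : StopR a U T₀ Z Es ω σ') (hZU : Z ⊆ U)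
    (hZ₀ : ∀ g ∈ Z, g ∉ T₀) : σ = σ' := by
  rcases lt_trichotomy σ σ' with h1 | h1 | h1
  · exact absurd h.mem (h'.notMem hZU hZ₀ σ h1)
  · exact h1
  · exact absurd h'.mem (h.notMem hZU hZ₀ σ' h1)

end StopR

/-- Outside of the bad event of `T₀` the stop is regular. -/
theorem exists_stopR {ω : Cfg} {c : ℤ} {R U : Set (ℤ × ℤ)} {a : UE} {T₀ : Finset (ℤ × ℤ)} {m₀ : ℕ}
    {w₀ : ℕ → ℤ × ℤ} {p₁ q₁ q₃ p₃ : ℕ} {Z : Set (ℤ × ℤ)} {Es : Set UE}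
    (h₀ : CapDom ω c R U T₀ m₀ w₀ p₁ q₁ q₃ p₃ a)
    (hZ₀ : ∀ x, q₁ ≤ x → x < q₃ → ∀ s g, Joins s (w₀ x) (w₀ (x + 1)) → IsSide g s → g ∉ T₀ →
      g ∈ Z)
    (hEs : ∀ x, q₁ ≤ x → x < q₃ → ∀ s, Joins s (w₀ x) (w₀ (x + 1)) → s ∈ Es)
    (hstop : ∃ n, fa (pth ω a n) ∈ U ∧ fa (pth ω a n) ∉ T₀)
    (hb₀ : ω ∉ CapBad c T₀ m₀ w₀ p₁ q₁ q₃ p₃) :
    ∃ σ, StopR a U T₀ Z Es ω σ ∧ fb (pth ω a σ) ∈ T₀ ∧
      ∃ x, q₁ ≤ x ∧ x < q₃ ∧ Joins (pth ω a σ) (w₀ x) (w₀ (x + 1)) := by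
  obtain ⟨n, hn1, hn2⟩ := hstop
  obtain ⟨θ, -, hθ⟩ := exists_ent hn1 hn2
  obtain ⟨hfb, y, hy1, hy2, hyj, -⟩ := h₀.ent hθ hb₀
  refine ⟨θ, ⟨fun i hi hU => ?_, hZ₀ y hy1 hy2 _ _ hyj (isSide_fa _) hθ.out, hEs y hy1 hy2 _ hyj⟩,
    hfb, y, hy1, hy2, hyj⟩
  rcases hθ.bef i hi with h3 | h3
  · exact Finset.mem_coe.2 h3
  · exact absurd hU h3

/-- **The stop of a move is regular** off an event of small probability. -/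
theorem pr_not_stopR : ∃ C α : ℝ, 0 < C ∧ 0 < α ∧ ∀ {κt : Type} {Ξ : Cfg → Cfg} {c : ℤ}
    {R U : Set (ℤ × ℤ)} {a : UE} {T₀ : Finset (ℤ × ℤ)} {m₀ : ℕ} {w₀ : ℕ → ℤ × ℤ}
    {p₁ q₁ q₃ p₃ : ℕ} {P : Finset (ℤ × ℤ)} {m' : ℕ} {w' : ℕ → ℤ × ℤ} {l₁ l₃ : ℕ}
    {κ : ℤ × ℤ → κt} {v : ℤ × ℤ} {E ρ : ℤ} {Z : Set (ℤ × ℤ)} {Es : Set UE}
    {W : Finset (ℤ × ℤ)},
    MvDom κt Ξ c R U a T₀ m₀ w₀ p₁ q₁ q₃ p₃ P m' w' l₁ l₃ κ v E ρ →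
    (∀ x, q₁ ≤ x → x < q₃ → ∀ s g, Joins s (w₀ x) (w₀ (x + 1)) → IsSide g s → g ∉ T₀ → g ∈ Z) →
    (∀ x, q₁ ≤ x → x < q₃ → ∀ s, Joins s (w₀ x) (w₀ (x + 1)) → s ∈ Es) →
    (∀ ξ, ∃ n, fa (pth (Ξ ξ) a n) ∈ U ∧ fa (pth (Ξ ξ) a n) ∉ T₀) → T₀ ⊆ W →
    pr W {ξ | ¬ ∃ σ, StopR a U T₀ Z Es (Ξ ξ) σ} ≤ C * ((E : ℝ) / ρ) ^ α := by
  obtain ⟨C, α, hC, hα, h⟩ := mvDom_bad
  refine ⟨C, α, hC, hα, ?_⟩
  intro κt Ξ c R U a T₀ m₀ w₀ p₁ q₁ q₃ p₃ P m' w' l₁ l₃ κ v E ρ Z Es W h₀ hZ₀ hEs hstop hTW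
  refine le_trans (pr_mono _ fun ξ hξ => ?_) (h h₀ W hTW)
  by_contra hno
  have hb₀ : Ξ ξ ∉ CapBad c T₀ m₀ w₀ p₁ q₁ q₃ p₃ := fun hh =>
    hno ((depOn_capBad c T₀ m₀ w₀ p₁ q₁ q₃ p₃ (Ξ ξ) ξ (h₀.agr ξ)).1 hh)
  obtain ⟨σ, hσ, -⟩ := exists_stopR (h₀.cap ξ) hZ₀ hEs (hstop ξ) hb₀
  exact hξ ⟨σ, hσ⟩

namespace Mv

open CloK Pool.Agent.Perc6.C2Aux Pool.Agent.Perc.Tips Pool.Agent.SixB.Top

/-- **The stop of a move is regular** off an event of small probability, in the data of one past. -/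
theorem pr_not_stopR_fam : ∃ C α : ℝ, 0 < C ∧ 0 < α ∧ ∀ {ι κt : Type} {Ξ : Cfg → Cfg} {c : ℤ}
    {R U P D : Set (ℤ × ℤ)} {κ : ℤ × ℤ → ι} {κ₂ : ℤ × ℤ → κt} {d a b L : ℤ} {A τ : UE × Bool}
    {m p q mU n N₁ N₂ : ℕ} {Pf : Finset (ℤ × ℤ)} {v : ℤ × ℤ} {E ρ : ℤ} {Z : Set (ℤ × ℤ)}
    {W : Finset (ℤ × ℤ)},
    Mvd U P D κ d A m p q → Cyc U τ mU → RunS a b L D A p q Z m n N₁ N₂ → N₂ < n →
    ahead τ ∈ domT U Z (capK U κ (gR D A Z N₁)) (capK U κ (gL D A Z N₂)) A →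
    (∀ T M s t u k, TSide U P D κ a b L A τ m p q Z T n N₁ N₂ mU M s t u k →
      MvDom κt Ξ c R U τ.1 T M (vert (T : Set (ℤ × ℤ)) τ) (s + 1) k (k + (N₂ - N₁)) t Pf n
        (vert (inn D A Z) A) N₁ N₂ κ₂ v E ρ) →
    (∀ ξ, ∃ i, fa (pth (Ξ ξ) τ.1 i) ∈ U ∧ fa (pth (Ξ ξ) τ.1 i) ∉
      domT U Z (capK U κ (gR D A Z N₁)) (capK U κ (gL D A Z N₂)) A) →
    U ⊆ W →
    pr W {ξ | ¬ ∃ σ, StopR τ.1 U (domT U Z (capK U κ (gR D A Z N₁)) (capK U κ (gL D A Z N₂)) A) Z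
      (runE (inn D A Z) A N₁ N₂) (Ξ ξ) σ} ≤ C * ((E : ℝ) / ρ) ^ α := by
  obtain ⟨C, α, hC, hα, h⟩ := pr_not_stopR
  refine ⟨C, α, hC, hα, ?_⟩
  intro ι κt Ξ c R U P D κ κ₂ d a b L A τ m p q mU n N₁ N₂ Pf v E ρ Z W H hU hrun hlt hτ hdom hstop
    hUW
  obtain ⟨T, M, s, t, u, k, hS⟩ := exists_tside H hrun hlt hU hτ
  have eT : (T : Set (ℤ × ℤ)) = domT U Z (capK U κ (gR D A Z N₁)) (capK U κ (gL D A Z N₂)) A :=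
    hS.eqT
  rw [← eT]
  refine h (hdom _ _ _ _ _ _ hS) ?_ ?_ (fun ξ => ?_) fun f hf => hUW (hS.TU H (Finset.mem_coe.2 hf))
  · intro x hx1 hx2 e g he hg hgT
    have hl := hS.lay.toLayBar
    have hKt := hl.Kt
    have hsK := hl.sK
    rw [hl.cut_side (by omega) (by omega) he hg hgT]
    have h3 := hl.arc_out (i := x - k) (by omega)
    rw [show k + (x - k) = x by omega] at h3
    rw [h3]
    exact hrun.con.mid _ (by omega) (by omega)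
  · intro x hx1 hx2 e he
    exact LayBar.arc_runE hS.lay.toLayBar hx1 hx2 he
  · obtain ⟨i, hi1, hi2⟩ := hstop ξ
    exact ⟨i, hi1, fun hh => hi2 (eT ▸ Finset.mem_coe.2 hh)⟩

end Mv

end Pool.Agent.SixB
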