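import Pool.Agent.Lib.SixB.S8AppLink

/-!
# Step 8: labels of the domain of a move from two links

`LabE`: the geometry `LabG` of a move, together with one side `h₁` of the coarse domain on the right of
the coarse tip which has a link to the right wall of `U`, and one side `h₂` on the left of the tip which
has a link to the left wall of `U`. `LabE.labb`, `LabE.labo`, `LabE.labc`: all linked sides of the coarse
and of the true domain outside of a box around the tip belong to the same arc (fields of `MvDom`).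
-/

set_option autoImplicit false

namespace Pool.Agent.SixB.Top

open Finset Pool.Agent.Perc Pool.Agent.Perc6 Pool.Agent.Perc6.C2Aux Pool.Agent.Perc.Tips
open Pool.Agent.SixB.Mv Pool.Agent.SixB.CloK

variable {ι : Type*} {U P : Set (ℤ × ℤ)} {κ : ℤ × ℤ → ι} {d : ℤ}

/-- The labels, existential form: two links. -/
structure LabE (U P : Set (ℤ × ℤ)) (Tf Df : Finset (ℤ × ℤ)) (κ : ℤ × ℤ → ι) (d : ℤ)
    (A B : UE × Bool) (N₁ N₂ m' mU M s t u K x h₁ h₂ : ℕ) (a : ℤ × ℤ) (σ₀ σ : ℤ) : Prop extends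
    LabG U P Tf Df κ d A B N₁ N₂ m' mU M s t u K where
  hσ : σ₀ + d ≤ σ
  farR : ¬ LC.InB a σ (ua (side (Df : Set (ℤ × ℤ)) B (N₁ - 1)).1)
  farL : ¬ LC.InB a σ (ua (side (Df : Set (ℤ × ℤ)) B N₂).1)
  h1 : h₁ < N₁
  h2 : N₂ ≤ h₂
  h2m : h₂ < m'
  n1 : ∀ i ≤ h₁, LC.InB a σ₀ (ua (side (Df : Set (ℤ × ℤ)) B i).1)
  n2 : ∀ i, h₂ ≤ i → i < m' → LC.InB a σ₀ (ua (side (Df : Set (ℤ × ℤ)) B i).1)
  e1 : ∃ v < x, LinkK U κ (side (Df : Set (ℤ × ℤ)) B h₁) (side U A v)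
  e2 : ∃ v, x ≤ v ∧ v < mU ∧ LinkK U κ (side (Df : Set (ℤ × ℤ)) B h₂) (side U A v)
  sx : s < x
  xu : x ≤ u

namespace LabG

variable {Tf Df : Finset (ℤ × ℤ)} {A B : UE × Bool} {N₁ N₂ m' mU M s t u K x : ℕ} {a : ℤ × ℤ}
  {σ : ℤ} (H : LabG U P Tf Df κ d A B N₁ N₂ m' mU M s t u K)

include H

/-- A link of a side of `D` to the side `v` of `U` is a link in `T`, unless the side is at a cap. -/
theorem to_T {i v : ℕ} (hiP : outF (Df : Set (ℤ × ℤ)) B i ∉ P) (hv : v < mU)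
    (hl : LinkK U κ (side (Df : Set (ℤ × ℤ)) B i) (side U A v))
    (hR : κ (outF (Df : Set (ℤ × ℤ)) B i) ≠ κ (outF (Df : Set (ℤ × ℤ)) B (N₁ - 1)))
    (hL : κ (outF (Df : Set (ℤ × ℤ)) B i) ≠ κ (outF (Df : Set (ℤ × ℤ)) B N₂)) :
    ∃ j < M, ∃ S, Lnk (Tf : Set (ℤ × ℤ)) (Df : Set (ℤ × ℤ)) (side (Df : Set (ℤ × ℤ)) B i)
      (side (Tf : Set (ℤ × ℤ)) A j) S ∧ (∀ f ∈ S, κ f = κ (outF (Df : Set (ℤ × ℤ)) B i)) ∧
      ((j ≤ s ∧ v = j) ∨ (t ≤ j ∧ v = u + (j - t))) := by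
  have hC := bd_side H.lay.cycU.bd v
  by_cases hg : outF (Df : Set (ℤ × ℤ)) B i ∈ (Tf : Set (ℤ × ℤ))
  · rcases hl with hl | ⟨-, hl⟩
    · exfalso
      have : outF (Df : Set (ℤ × ℤ)) B i = ahead (rv (side U A v)) := by unfold outF; rw [hl]
      exact hC.2 (this ▸ H.TU hg)
    · have hT := capC_sub_T H.app H.TU H.RT H.LT H.hcomp hg hiP hl
      obtain ⟨j, hj, hjC⟩ := H.lay.cycT.exists_index
        (show BD (Tf : Set (ℤ × ℤ)) (side U A v) from ⟨hT, fun h => hC.2 (H.TU h)⟩)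
      refine ⟨j, hj, _, H.lnk_in hg hiP ?_, fun f hf => (capC_le (H.TU hg) hf).1,
        H.index_U hj hv hjC⟩
      unfold inF
      rw [hjC]
      exact hl
  · by_cases hgU : outF (Df : Set (ℤ × ℤ)) B i ∈ U
    · exfalso
      rcases H.hcomp _ (H.DT (bd_side H.cyc.bd i).1) _ (adjF_ahead _).symm hg with h | h | h | h
      · exact h hgU
      · exact hiP h
      · exact hR (capK_class h)
      · exact hL (capK_class h)
    · obtain ⟨j, hj, hjB⟩ := H.lay.cycT.exists_index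
        (show BD (Tf : Set (ℤ × ℤ)) (side (Df : Set (ℤ × ℤ)) B i) from
          ⟨H.DT (bd_side H.cyc.bd i).1, hg⟩)
      rcases hl with hl | ⟨hl, -⟩
      · exact ⟨j, hj, ∅, H.lnk_eq hjB.symm, fun f hf => absurd hf (Set.notMem_empty f),
          H.index_U hj hv (hjB.trans hl)⟩
      · exact absurd hl hgU

/-- Every link of `S8Trans` between sides of the two domains, as a set. -/
theorem lnk_of {i i' : ℕ} (hiP : outF (Df : Set (ℤ × ℤ)) B i ∉ P)
    (hl : LinkK (Tf : Set (ℤ × ℤ)) (subK P κ) (side (Df : Set (ℤ × ℤ)) B i)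
      (side (Tf : Set (ℤ × ℤ)) A i')) :
    ∃ S, Lnk (Tf : Set (ℤ × ℤ)) (Df : Set (ℤ × ℤ)) (side (Df : Set (ℤ × ℤ)) B i)
      (side (Tf : Set (ℤ × ℤ)) A i') S ∧ ∀ f ∈ S, κ f = κ (outF (Df : Set (ℤ × ℤ)) B i) := by
  by_cases hg : outF (Df : Set (ℤ × ℤ)) B i ∈ (Tf : Set (ℤ × ℤ))
  · exact ⟨_, H.lnk_in hg hiP (H.link_in hg hl), fun f hf => (capC_le (H.TU hg) hf).1⟩
  · exact ⟨∅, H.lnk_eq (link_eq hg hl), fun f hf => absurd hf (Set.notMem_empty f)⟩

end LabG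

namespace LabE

variable {Tf Df : Finset (ℤ × ℤ)} {A B : UE × Bool} {N₁ N₂ m' mU M s t u K x h₁ h₂ : ℕ} {a : ℤ × ℤ}
  {σ₀ σ : ℤ} (H : LabE U P Tf Df κ d A B N₁ N₂ m' mU M s t u K x h₁ h₂ a σ₀ σ)

include H

/-- Sides with the class of a side near the tip are near the tip. -/
theorem near_of {i j : ℕ} (hj : LC.InB a σ₀ (ua (side (Df : Set (ℤ × ℤ)) B j).1))
    (h : κ (outF (Df : Set (ℤ × ℤ)) B i) = κ (outF (Df : Set (ℤ × ℤ)) B j)) :
    LC.InB a σ (ua (side (Df : Set (ℤ × ℤ)) B i).1) := by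
  have h1 := H.near h
  have h2 := H.hσ
  unfold LC.InB at *
  omega

/-- **Right wall.** -/
theorem right {i i' : ℕ} (hi : i < N₁) (hi' : i' < M)
    (hfar : ¬ LC.InB a σ (ua (side (Df : Set (ℤ × ℤ)) B i).1))
    (hl : LinkK (Tf : Set (ℤ × ℤ)) (subK P κ) (side (Df : Set (ℤ × ℤ)) B i)
      (side (Tf : Set (ℤ × ℤ)) A i')) : i' < K := by
  have L := H.lay
  have g1 := L.Kt
  have g2 := L.le
  have g3 := L.su
  have g4 := L.um
  have g5 := H.sx
  have g6 := H.xu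
  have g7 := H.N0
  have g8 := H.N12
  have g9 := H.N2
  have g10 := L.sK
  have g11 := H.h1
  have g12 : d ≤ σ - σ₀ := by have := H.hσ; omega
  have hσ0 : ∀ j, LC.InB a σ₀ (ua (side (Df : Set (ℤ × ℤ)) B j).1) →
      LC.InB a σ (ua (side (Df : Set (ℤ × ℤ)) B j).1) := fun j hj => H.near_of hj rfl
  have hhi : h₁ < i := by
    by_contra hcon
    exact hfar (hσ0 i (H.n1 i (by omega)))
  have hn := H.n1 h₁ le_rfl
  obtain ⟨v, hv, hlv⟩ := H.e1
  obtain ⟨j, hj, S, lS, hS, hjv⟩ := H.to_T (H.notP (by omega) (Or.inl g11)) (by omega) hlv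
    (fun h => H.farR (H.near_of hn h.symm)) (fun h => H.farL (H.near_of hn h.symm))
  have hjs : j ≤ s := by omega
  obtain ⟨S', lS', hS'⟩ := H.lnk_of (H.notP (by omega) (Or.inl hi)) hl
  have hord := H.order lS lS' (fun f hf hf' => hfar (H.near_of hn ((hS' f hf').symm.trans (hS f hf))))
    (a₁ := h₁ + m' - (N₂ - 1)) (a₂ := i + m' - (N₂ - 1)) (b₁ := j + M - (K + (N₂ - N₁) - 1))
    (b₂ := if K + (N₂ - N₁) - 1 ≤ i' then i' - (K + (N₂ - N₁) - 1) else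
      i' + M - (K + (N₂ - N₁) - 1)) (Or.inr (by omega)) (Or.inr (by omega)) (Or.inr (by omega))
    (by split_ifs <;> [left; right] <;> omega) (by omega) (by omega) (by omega)
    (by split_ifs <;> omega)
  have h3 : i' < K + (N₂ - N₁) - 1 := by
    by_contra hcon
    rw [if_pos (by omega)] at hord
    omega
  by_contra hcon
  have := H.link_stop (show i < m' by omega) (show K ≤ i' by omega) (by omega) hl
  omega

/-- **Left wall.** -/
theorem left {i i' : ℕ} (hi : N₂ ≤ i) (him : i < m') (hi' : i' < M)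
    (hfar : ¬ LC.InB a σ (ua (side (Df : Set (ℤ × ℤ)) B i).1))
    (hl : LinkK (Tf : Set (ℤ × ℤ)) (subK P κ) (side (Df : Set (ℤ × ℤ)) B i)
      (side (Tf : Set (ℤ × ℤ)) A i')) : K + (N₂ - N₁) ≤ i' := by
  have L := H.lay
  have g1 := L.Kt
  have g2 := L.le
  have g3 := L.su
  have g4 := L.um
  have g5 := H.sx
  have g6 := H.xu
  have g7 := H.N0
  have g8 := H.N12
  have g9 := H.N2
  have g10 := L.sK
  have g11 := H.h2
  have g12 := H.h2m
  have hσ0 : ∀ j, LC.InB a σ₀ (ua (side (Df : Set (ℤ × ℤ)) B j).1) →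
      LC.InB a σ (ua (side (Df : Set (ℤ × ℤ)) B j).1) := fun j hj => H.near_of hj rfl
  have hhi : i < h₂ := by
    by_contra hcon
    exact hfar (hσ0 i (H.n2 i (by omega) him))
  have hn := H.n2 h₂ le_rfl g12
  obtain ⟨v, hxv, hv, hlv⟩ := H.e2
  obtain ⟨j, hj, S, lS, hS, hjv⟩ := H.to_T (H.notP g12 (Or.inr g11)) hv hlv
    (fun h => H.farR (H.near_of hn h.symm)) (fun h => H.farL (H.near_of hn h.symm))
  have hjt : t ≤ j := by omega
  obtain ⟨S', lS', hS'⟩ := H.lnk_of (H.notP him (Or.inr hi)) hl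
  have hord := H.order lS' lS (fun f hf' hf => hfar (H.near_of hn ((hS' f hf').symm.trans (hS f hf))))
    (a₁ := i - (N₂ - 1)) (a₂ := h₂ - (N₂ - 1)) (b₂ := j - (K + (N₂ - N₁) - 1))
    (b₁ := if K + (N₂ - N₁) - 1 ≤ i' then i' - (K + (N₂ - N₁) - 1) else
      i' + M - (K + (N₂ - N₁) - 1)) (Or.inl (by omega)) (Or.inl (by omega))
    (by split_ifs <;> [left; right] <;> omega) (Or.inl (by omega)) (by omega) (by omega)
    (by split_ifs <;> omega) (by omega)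
  have h3 : K + (N₂ - N₁) - 1 ≤ i' := by
    by_contra hcon
    rw [if_neg (by omega)] at hord
    omega
  by_contra hcon
  have := H.link_stop him (show K ≤ i' by omega) (by omega) hl
  omega

theorem lab_right {i i' : ℕ} (hi : i < m') (hi' : i' < K)
    (hfar : ¬ LC.InB a σ (ua (side (Df : Set (ℤ × ℤ)) B i).1))
    (hl : LinkK (Tf : Set (ℤ × ℤ)) (subK P κ) (side (Df : Set (ℤ × ℤ)) B i)
      (side (Tf : Set (ℤ × ℤ)) A i')) : i < N₁ := by
  have h1 := H.lay.Kt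
  have h2 := H.lay.le
  have h3 := H.N12
  by_contra hcon
  rcases Nat.lt_or_ge i N₂ with h11 | h11
  · have := H.link_exit (by omega) h11 (by omega) hl
    omega
  · have := H.left h11 hi (by omega) hfar hl
    omega

theorem lab_left {i i' : ℕ} (hi' : K + (N₂ - N₁) ≤ i') (hi'M : i' < M)
    (hfar : ¬ LC.InB a σ (ua (side (Df : Set (ℤ × ℤ)) B i).1))
    (hl : LinkK (Tf : Set (ℤ × ℤ)) (subK P κ) (side (Df : Set (ℤ × ℤ)) B i)
      (side (Tf : Set (ℤ × ℤ)) A i')) : N₂ ≤ i := by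
  have h1 := H.lay.Kt
  have h2 := H.lay.le
  have h3 := H.N12
  by_contra hcon
  rcases Nat.lt_or_ge i N₁ with h11 | h11
  · have := H.right h11 hi'M hfar hl
    omega
  · have := H.link_exit h11 (by omega) hi'M hl
    omega

/-- **The field `labb` of `MvDom`.** -/
theorem labb {E : ℤ} (hE : σ ≤ E) (e e' : UE) (i i' : ℕ) (hl : LC.LinkC Tf Df (subK P κ) e e')
    (hi : i < m')
    (hj : Joins e (vert (Df : Set (ℤ × ℤ)) B i) (vert (Df : Set (ℤ × ℤ)) B (i + 1))) (_ : i' < M)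
    (hj' : Joins e' (vert (Tf : Set (ℤ × ℤ)) A i') (vert (Tf : Set (ℤ × ℤ)) A (i' + 1)))
    (hf : ¬ LC.InB a E (ua e)) (hK : i' < K) : i < N₁ := by
  obtain ⟨h1, h2⟩ := H.link_of_joins hl hj hj'
  rw [h1] at hf
  exact H.lab_right hi hK (LabD.not_inB hE hf) h2

/-- **The field `labo` of `MvDom`.** -/
theorem labo {E : ℤ} (hE : σ ≤ E) (e e' : UE) (i i' : ℕ) (hl : LC.LinkC Tf Df (subK P κ) e e')
    (_ : i < m')
    (hj : Joins e (vert (Df : Set (ℤ × ℤ)) B i) (vert (Df : Set (ℤ × ℤ)) B (i + 1))) (hM : i' < M)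
    (hj' : Joins e' (vert (Tf : Set (ℤ × ℤ)) A i') (vert (Tf : Set (ℤ × ℤ)) A (i' + 1)))
    (hf : ¬ LC.InB a E (ua e)) (hK : K + (N₂ - N₁) ≤ i') : N₂ ≤ i := by
  obtain ⟨h1, h2⟩ := H.link_of_joins hl hj hj'
  rw [h1] at hf
  exact H.lab_left hK hM (LabD.not_inB hE hf) h2

end LabE

end Pool.Agent.SixB.Top
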