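import Pool.Agent.Lib.SixB.TopCtr

/-!
# The contour of a connected part of a region without holes

`F` is a finite edge connected region without holes, `G ⊆ F` is edge connected. A side of `G` is
common if it is a side of `F`.

* `next_common`: between two consecutive common sides `A`, `B` of the contour of `G` the contour of
  `F` runs along faces outside `G` only; if `B` follows immediately after `A` on the contour of `G`
  it does so on the contour of `F`; if a face behind one of the sides of `G` between `A` and `B` is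
  joined inside `F \ G` to a face with a boundary side `C` of `F`, then `C` is between `A` and `B`;
* `contig`: if all the faces of `F \ G` adjacent to `G` are joined inside `F \ G` to an interval of
  the contour of `F` without common sides, then the contour of `G` consists of one interval of the
  contour of `F` and of one interval of sides with a face of `F \ G` behind.
-/

set_option autoImplicit false

namespace Pool.Agent.SixB.Top

open Finset Pool.Agent.Perc Pool.Agent.Perc6 Pool.Agent.Perc6.C2Aux Pool.Agent.Perc.Tips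

/-! ### Degrees of trails -/

/-- The number (mod 2) of unit edges of `O` at a vertex. -/
noncomputable def degV (O : Set UE) (w : ℤ × ℤ) : ZMod 2 :=
  ind2 ((w.1, w.2, false) ∈ O) + ind2 ((w.1 - 1, w.2, false) ∈ O) +
    (ind2 ((w.1, w.2, true) ∈ O) + ind2 ((w.1, w.2 - 1, true) ∈ O))

theorem evenV_iff_degV {O : Set UE} {w : ℤ × ℤ} : EvenV O w ↔ degV O w = 0 := Iff.rfl

theorem degV_insert {O : Set UE} {a : UE} (ha : a ∉ O) (w : ℤ × ℤ) :
    degV (insert a O) w = degV O w + (ind2 (w = ua a) + ind2 (w = ub a)) := by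
  have hins : ∀ b : UE, ind2 (b ∈ insert a O) = ind2 (b ∈ O) + ind2 (b = a) := by
    intro b
    by_cases h1 : b = a
    · subst h1
      rw [ind2_pos (Set.mem_insert _ _), ind2_neg ha, ind2_pos rfl, zero_add]
    · by_cases h2 : b ∈ O
      · rw [ind2_pos (Set.mem_insert_of_mem _ h2), ind2_pos h2, ind2_neg h1, add_zero]
      · rw [ind2_neg, ind2_neg h2, ind2_neg h1, add_zero]
        simp [h1, h2]
  unfold degV
  rw [hins, hins, hins, hins]
  obtain ⟨x, y⟩ := w
  have key : (ind2 (((x, y, false) : UE) = a) + ind2 (((x - 1, y, false) : UE) = a)) +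
      (ind2 (((x, y, true) : UE) = a) + ind2 (((x, y - 1, true) : UE) = a)) =
      ind2 ((x, y) = ua a) + ind2 ((x, y) = ub a) := by
    obtain ⟨p, q, b⟩ := a
    cases b
    · have e1 : ind2 (((x, y, true) : UE) = (p, q, false)) = 0 := ind2_neg (by simp)
      have e2 : ind2 (((x, y - 1, true) : UE) = (p, q, false)) = 0 := ind2_neg (by simp)
      have e3 : ind2 (((x, y, false) : UE) = (p, q, false)) = ind2 ((x, y) = ua (p, q, false)) :=
        ind2_congr (by simp [ua])
      have e4 : ind2 (((x - 1, y, false) : UE) = (p, q, false)) =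
          ind2 ((x, y) = ub (p, q, false)) :=
        ind2_congr (by simp only [ub, Prod.mk.injEq, and_true, Bool.false_eq_true, if_false]; omega)
      rw [e1, e2, e3, e4, add_zero, add_zero]
    · have e1 : ind2 (((x, y, false) : UE) = (p, q, true)) = 0 := ind2_neg (by simp)
      have e2 : ind2 (((x - 1, y, false) : UE) = (p, q, true)) = 0 := ind2_neg (by simp)
      have e3 : ind2 (((x, y, true) : UE) = (p, q, true)) = ind2 ((x, y) = ua (p, q, true)) :=
        ind2_congr (by simp [ua])
      have e4 : ind2 (((x, y - 1, true) : UE) = (p, q, true)) =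
          ind2 ((x, y) = ub (p, q, true)) :=
        ind2_congr (by simp only [ub, Prod.mk.injEq, and_true, if_true]; omega)
      rw [e1, e2, e3, e4, zero_add, zero_add]
  simp only
  rw [← key]
  ring

/-- The unit edges of the darts `D i`, `a ≤ i < b`. -/
def Seg (D : ℕ → UE × Bool) (a b : ℕ) : Set UE := {e | ∃ i, a ≤ i ∧ i < b ∧ (D i).1 = e}

theorem degV_seg {D : ℕ → UE × Bool} (hD : ∀ i, lf (D (i + 1)) = rg (D i)) {a : ℕ} (w : ℤ × ℤ) :
    ∀ b, a ≤ b → (∀ i j, a ≤ i → i < j → j < b → (D i).1 ≠ (D j).1) →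
      degV (Seg D a b) w = ind2 (w = lf (D a)) + ind2 (w = lf (D b)) := by
  intro b hb
  induction b, hb using Nat.le_induction with
  | base =>
    intro _
    have : Seg D a a = ∅ := by
      ext e
      simp only [Seg, Set.mem_ofPred_eq, Set.mem_empty_iff_false, iff_false]
      rintro ⟨i, h1, h2, -⟩
      omega
    rw [this, z2_add_self]
    unfold degV
    rw [ind2_neg (Set.notMem_empty _), ind2_neg (Set.notMem_empty _),
      ind2_neg (Set.notMem_empty _), ind2_neg (Set.notMem_empty _)]
    simp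
  | succ b hb ih =>
    intro hinj
    have h1 : Seg D a (b + 1) = insert (D b).1 (Seg D a b) := by
      ext e
      simp only [Seg, Set.mem_ofPred_eq, Set.mem_insert_iff]
      constructor
      · rintro ⟨i, h1, h2, h3⟩
        rcases Nat.lt_succ_iff_lt_or_eq.mp h2 with h | h
        · exact Or.inr ⟨i, h1, h, h3⟩
        · subst h
          exact Or.inl h3.symm
      · rintro (h | ⟨i, h1, h2, h3⟩)
        · exact ⟨b, hb, Nat.lt_succ_self b, h.symm⟩
        · exact ⟨i, h1, by omega, h3⟩
    have h2 : (D b).1 ∉ Seg D a b := by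
      rintro ⟨i, h1, h2, h3⟩
      exact hinj i b h1 h2 (Nat.lt_succ_self b) h3
    rw [h1, degV_insert h2, ih (fun i j hi hij hj => hinj i j hi hij (by omega))]
    have h3 : ind2 (w = ua (D b).1) + ind2 (w = ub (D b).1) =
        ind2 (w = lf (D b)) + ind2 (w = rg (D b)) := by
      rcases joins_lf_rg (D b) with ⟨e1, e2⟩ | ⟨e1, e2⟩
      · rw [e1, e2]
      · rw [e1, e2, add_comm]
    rw [h3, hD b]
    generalize ind2 (w = lf (D a)) = p
    generalize ind2 (w = lf (D b)) = q
    generalize ind2 (w = rg (D b)) = r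
    revert p q r
    decide

theorem degV_union {O O' : Set UE} (h : Disjoint O O') (w : ℤ × ℤ) :
    degV (O ∪ O') w = degV O w + degV O' w := by
  have hu : ∀ b : UE, ind2 (b ∈ O ∪ O') = ind2 (b ∈ O) + ind2 (b ∈ O') := by
    intro b
    by_cases h1 : b ∈ O
    · have h2 : b ∉ O' := fun h2 => Set.disjoint_left.1 h h1 h2
      rw [ind2_pos (Set.mem_union_left _ h1), ind2_pos h1, ind2_neg h2, add_zero]
    · by_cases h2 : b ∈ O'
      · rw [ind2_pos (Set.mem_union_right _ h2), ind2_neg h1, ind2_pos h2, zero_add]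
      · rw [ind2_neg (by simp [h1, h2]), ind2_neg h1, ind2_neg h2, add_zero]
  unfold degV
  rw [hu, hu, hu, hu]
  ring

/-! ### Periods -/

/-- `m` is the number of sides of the orbit of `A`. -/
structure Per (F : Set (ℤ × ℤ)) (m : ℕ) (A : UE × Bool) : Prop where
  pos : 0 < m
  per : (sc F)^[m] A = A
  inj : ∀ i < m, ∀ j < m, (sc F)^[i] A = (sc F)^[j] A → i = j

theorem exists_per {F : Set (ℤ × ℤ)} (hF : F.Finite) {A : UE × Bool} (hA : BD F A) :
    ∃ m, Per F m A := by
  obtain ⟨L, hL, hper⟩ := exists_period hF hA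
  have hp : A ∈ Function.periodicPts (sc F) := ⟨L, hL, hper⟩
  have hm := Function.minimalPeriod_pos_of_mem_periodicPts hp
  refine ⟨Function.minimalPeriod (sc F) A, hm, Function.isPeriodicPt_minimalPeriod (sc F) A, ?_⟩
  intro i hi j hj hij
  exact Function.iterate_injOn_Iio_minimalPeriod (f := sc F) (x := A) hi hj hij

theorem iter_cancel {F : Set (ℤ × ℤ)} {A : UE × Bool} (h : BD F A) :
    ∀ i j : ℕ, (sc F)^[i] A = (sc F)^[i + j] A → (sc F)^[j] A = A := by
  intro i
  induction i with
  | zero => intro j hj; simpa using hj.symm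
  | succ i ih =>
    intro j hj
    apply ih
    rw [show i + 1 + j = i + j + 1 by ring, Function.iterate_succ_apply',
      Function.iterate_succ_apply'] at hj
    exact sc_inj (h.iterate i) (h.iterate (i + j)) hj

/-- A face set is bounded below together with its sides. -/
theorem bound_sides {O : Set UE} (hfin : O.Finite) : ∃ N : ℤ, ∀ a ∈ O, |a.1| < N ∧ |a.2.1| < N := by
  refine ⟨1 + ∑ a ∈ hfin.toFinset, (|a.1| + |a.2.1|), fun a ha => ?_⟩
  have h1 : |a.1| + |a.2.1| ≤ ∑ a ∈ hfin.toFinset, (|a.1| + |a.2.1|) :=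
    Finset.single_le_sum (f := fun a : UE => |a.1| + |a.2.1|) (fun _ _ => by positivity)
      (hfin.mem_toFinset.mpr ha)
  have b1 := abs_nonneg a.1
  have b2 := abs_nonneg a.2.1
  omega

theorem seg_finite (D : ℕ → UE × Bool) (a b : ℕ) : (Seg D a b).Finite := by
  have : Seg D a b ⊆ (fun i => (D i).1) '' (Finset.range b : Set ℕ) := by
    rintro e ⟨i, -, h2, h3⟩
    exact ⟨i, by simpa using h2, h3⟩
  exact ((Finset.range b).finite_toSet.image _).subset this

/-! ### Consecutive common sides -/

/-- The faces `f`, `g` are joined inside `X` (`f` itself is not required to be in `X`). -/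
def JoinIn (X : Set (ℤ × ℤ)) (f g : ℤ × ℤ) : Prop :=
  Relation.ReflTransGen (fun a b => AdjF a b ∧ b ∈ X) f g

theorem JoinIn.mem {X : Set (ℤ × ℤ)} {f g : ℤ × ℤ} (hf : f ∈ X) (h : JoinIn X f g) : g ∈ X := by
  rcases Relation.ReflTransGen.cases_tail h with h | ⟨d, -, h⟩
  · rw [h]; exact hf
  · exact h.2

/-- A function of the faces which does not change across sides between faces of `X` is constant
along chains of `X`. -/
theorem JoinIn.const {X : Set (ℤ × ℤ)} {φ : ℤ × ℤ → ZMod 2}
    (h : ∀ f ∈ X, ∀ g ∈ X, ∀ a : UE, IsSide f a → IsSide g a → f ≠ g → φ f = φ g)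
    {f g : ℤ × ℤ} (hf : f ∈ X) (hj : JoinIn X f g) : φ f = φ g := by
  unfold JoinIn at hj
  induction hj with
  | refl => rfl
  | @tail b c hbc hstep ih =>
    obtain ⟨⟨hne, s, h1, h2⟩, hcX⟩ := hstep
    have hbX : b ∈ X := JoinIn.mem hf hbc
    rw [ih]
    exact h b hbX c hcX s h1 h2 hne

theorem next_common {F G : Set (ℤ × ℤ)} (hF : F.Finite) (hc : EConn F) (he : Esc F) (hGF : G ⊆ F)
    (hcG : EConn G) {A : UE × Bool} (hA : BD F A) (hAG : BD G A) {m : ℕ} (hm : Per F m A) {k : ℕ}
    (hk : 0 < k) (hB : BD F ((sc G)^[k] A)) (hno : ∀ i, 0 < i → i < k → ¬ BD F ((sc G)^[i] A)) :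
    ∃ l, 0 < l ∧ l ≤ m ∧ (sc F)^[l] A = (sc G)^[k] A ∧
      (∀ i, 0 < i → i < l → ahead ((sc F)^[i] A) ∉ G) ∧ (k = 1 → l = 1) ∧
      (∀ i, 0 < i → i < k → ∀ C, BD F C → JoinIn (F \ G) (ahead (rv ((sc G)^[i] A))) (ahead C) →
        ∃ j, 0 < j ∧ j < l ∧ (sc F)^[j] A = C) := by
  classical
  set B := (sc G)^[k] A with hBdef
  -- the first visit of `B`
  have hex : ∃ l, 0 < l ∧ (sc F)^[l] A = B := by
    obtain ⟨n, hn⟩ := contour_all hF hc he hA hB.bdU
    have h1 : (sc F)^[n] A = B := (hA.iterate n).eq_of_fst hB hn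
    refine ⟨n + m, by have := hm.pos; omega, ?_⟩
    rw [Function.iterate_add_apply, hm.per]
    exact h1
  obtain ⟨hl0, hlB⟩ := Nat.find_spec hex
  have hlmin : ∀ i, 0 < i → i < Nat.find hex → (sc F)^[i] A ≠ B := fun i h0 hi h =>
    Nat.find_min hex hi ⟨h0, h⟩
  set l := Nat.find hex with hldef
  have hlm : l ≤ m := by
    by_contra hcon
    push Not at hcon
    have h1 : (sc F)^[l - m] A = B := by
      have : (sc F)^[l - m + m] A = B := by rw [Nat.sub_add_cancel hcon.le]; exact hlB
      rw [Function.iterate_add_apply, hm.per] at this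
      exact this
    exact hlmin (l - m) (by omega) (by have := hm.pos; omega) h1
  -- `A` is not visited in between
  have hAl : ∀ i, 0 < i → i < l → (sc F)^[i] A ≠ A := by
    intro i h0 hi h
    have := hm.inj i (by omega) 0 hm.pos (by simpa using h)
    omega
  -- the two trails
  set D : ℕ → UE × Bool := fun i => (sc G)^[i] A with hD
  set E : ℕ → UE × Bool := fun i => (sc F)^[i] A with hE
  have hDs : ∀ i, lf (D (i + 1)) = rg (D i) := by
    intro i
    simp only [hD]
    rw [Function.iterate_succ_apply', lf_sc]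
  have hEs : ∀ i, lf (E (i + 1)) = rg (E i) := by
    intro i
    simp only [hE]
    rw [Function.iterate_succ_apply', lf_sc]
  have hDB : ∀ i, BD G (D i) := fun i => hAG.iterate i
  have hEB : ∀ i, BD F (E i) := fun i => hA.iterate i
  have hDinj : ∀ i j, 1 ≤ i → i < j → j < k → (D i).1 ≠ (D j).1 := by
    intro i j hi hij hj h
    have h1 : D i = D j := (hDB i).eq_of_fst (hDB j) h
    have h2 : (sc G)^[j - i] A = A := by
      apply iter_cancel hAG i
      rw [show i + (j - i) = j by omega]
      exact h1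
    apply hno (j - i) (by omega) (by omega)
    rw [h2]
    exact hA
  have hEinj : ∀ i j, 1 ≤ i → i < j → j < l → (E i).1 ≠ (E j).1 := by
    intro i j hi hij hj h
    have h1 : E i = E j := (hEB i).eq_of_fst (hEB j) h
    have := hm.inj i (by omega) j (by omega) h1
    omega
  have hGO : ∀ a ∈ Seg D 1 k, ∀ f, IsSide f a → f ∈ F := by
    rintro a ⟨i, hi, hik, rfl⟩ f hf
    have h1 : ahead (D i) ∈ F := hGF (hDB i).1
    have h2 : ahead (rv (D i)) ∈ F := by
      by_contra hcon
      exact hno i (by omega) hik ⟨h1, hcon⟩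
    rcases eq_ahead hf with h | h
    · rw [h]
      have hd : (D i) = ((D i).1, (D i).2) := rfl
      cases hb : (D i).2
      · have : rv (D i) = ((D i).1, true) := by rw [hd, hb]; rfl
        rw [← this]; exact h2
      · have : D i = ((D i).1, true) := by rw [← hb]
        rw [← this]; exact h1
    · rw [h]
      have hd : (D i) = ((D i).1, (D i).2) := rfl
      cases hb : (D i).2
      · have : D i = ((D i).1, false) := by rw [← hb]
        rw [← this]; exact h1
      · have : rv (D i) = ((D i).1, false) := by rw [hd, hb]; rfl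
        rw [← this]; exact h2
  have hFO : ∀ a ∈ Seg E 1 l, BdU F a := by
    rintro a ⟨i, hi, hik, rfl⟩
    exact (hEB i).bdU
  have hGO' : ∀ a ∈ Seg D 1 k, BdU G a := by
    rintro a ⟨i, hi, hik, rfl⟩
    exact (hDB i).bdU
  have hdisj : Disjoint (Seg D 1 k) (Seg E 1 l) := by
    rw [Set.disjoint_left]
    intro a ha hb
    obtain ⟨-, g, hg, hgs⟩ := hFO a hb
    exact hg (hGO a ha g hgs)
  set O : Set UE := Seg D 1 k ∪ Seg E 1 l with hO
  have hev : ∀ w, EvenV O w := by
    intro w
    rw [evenV_iff_degV, hO, degV_union hdisj, degV_seg hDs w k (by omega) hDinj,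
      degV_seg hEs w l (by omega) hEinj]
    have e1 : lf (D 1) = lf (E 1) := by
      rw [show (1 : ℕ) = 0 + 1 from rfl, hDs, hEs]
      rfl
    have e2 : lf (D k) = lf (E l) := by
      have : D k = E l := by
        simp only [hD, hE]
        rw [hlB]
      rw [this]
    rw [e1, e2]
    exact z2_add_self _
  obtain ⟨N, hN⟩ := bound_sides ((seg_finite D 1 k).union (seg_finite E 1 l))
  have hlow : ∀ a ∈ O, -N < a.2.1 := fun a ha => by
    have := (hN a ha).2
    have h2 := neg_abs_le a.2.1
    omega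
  have hside : ∀ {a : UE} {f g : ℤ × ℤ}, IsSide f a → IsSide g a → f ≠ g →
      (a ∈ O ↔ chi (-N) O f ≠ chi (-N) O g) := fun hf hg hne => chi_side hlow hev hf hg hne
  -- zero outside `F`
  have hout : ∀ {f : ℤ × ℤ}, f ∉ F → chi (-N) O f = 0 := by
    intro f hf
    obtain ⟨g, hg, hch⟩ := he f hf N
    have h1 : chi (-N) O f = chi (-N) O g := by
      clear hg
      induction hch with
      | refl => rfl
      | @tail b c hbc hstep ih =>
        rw [ih]
        obtain ⟨⟨hne, s, h1, h2⟩, hcF⟩ := hstep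
        have hbF := chain_notMem hf hbc
        by_contra hn
        rcases (hside h1 h2 hne).2 hn with h3 | h3
        · exact hbF (hGO s h3 b h1)
        · obtain ⟨⟨q, hq, hqs⟩, -⟩ := hFO s h3
          rcases side_two hne h1 h2 hqs with rfl | rfl
          · exact hbF hq
          · exact hcF hq
    rw [h1]
    exact chi_far hlow hev hN le_rfl hg
  -- constant on `G`
  have hGc : ∀ {f g : ℤ × ℤ}, f ∈ G → g ∈ G → chi (-N) O f = chi (-N) O g := by
    intro f g hf hg
    refine JoinIn.const (X := G) ?_ hf (hcG f hf g hg)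
    intro f hf g hg a h1 h2 hne
    by_contra hn
    rcases (hside h1 h2 hne).2 hn with h3 | h3
    · obtain ⟨-, q, hq, hqs⟩ := hGO' a h3
      rcases side_two hne h1 h2 hqs with rfl | rfl
      · exact hq hf
      · exact hq hg
    · obtain ⟨-, q, hq, hqs⟩ := hFO a h3
      rcases side_two hne h1 h2 hqs with rfl | rfl
      · exact hq (hGF hf)
      · exact hq (hGF hg)
  -- constant on the components of `F \ G`
  have hFGc : ∀ {f g : ℤ × ℤ}, f ∈ F \ G → JoinIn (F \ G) f g → chi (-N) O f = chi (-N) O g := by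
    intro f g hf hj
    refine JoinIn.const (X := F \ G) ?_ hf hj
    intro f hf g hg a h1 h2 hne
    by_contra hn
    rcases (hside h1 h2 hne).2 hn with h3 | h3
    · obtain ⟨⟨q, hq, hqs⟩, -⟩ := hGO' a h3
      rcases side_two hne h1 h2 hqs with rfl | rfl
      · exact hf.2 hq
      · exact hg.2 hq
    · obtain ⟨-, q, hq, hqs⟩ := hFO a h3
      rcases side_two hne h1 h2 hqs with rfl | rfl
      · exact hq hf.1
      · exact hq hg.1
  -- the side `A` is not crossed
  have hA0 : A.1 ∉ O := by
    rintro (h | h)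
    · obtain ⟨-, g, hg, hgs⟩ := hA.bdU
      exact hg (hGO _ h g hgs)
    · obtain ⟨i, hi, hil, h1⟩ := h
      exact hAl i (by omega) hil ((hEB i).eq_of_fst hA h1)
  have hGz : ∀ {f : ℤ × ℤ}, f ∈ G → chi (-N) O f = 0 := by
    intro f hf
    rw [hGc hf hAG.1]
    have h1 : chi (-N) O (ahead A) = chi (-N) O (ahead (rv A)) := by
      by_contra hn
      exact hA0 ((chi_iff hlow hev A).2 hn)
    rw [h1, hout hA.2]
  -- the sides of `F` in between
  have hFe : ∀ i, 0 < i → i < l → chi (-N) O (ahead (E i)) ≠ 0 := by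
    intro i h0 hi
    have h1 : (E i).1 ∈ O := Or.inr ⟨i, by omega, hi, rfl⟩
    have h2 := (chi_iff hlow hev (E i)).1 h1
    rw [hout (hEB i).2] at h2
    exact h2
  refine ⟨l, hl0, hlm, hlB, ?_, ?_, ?_⟩
  · intro i h0 hi hG
    exact hFe i h0 hi (hGz hG)
  · intro hk1
    by_contra hl1
    have hl2 : 1 < l := by omega
    have h1 := hFe 1 (by omega) hl2
    -- `F` is connected and no side inside `F` is crossed
    have h2 : chi (-N) O (ahead A) = chi (-N) O (ahead (E 1)) := by
      refine JoinIn.const (X := F) ?_ hA.1 (hc _ hA.1 _ (hEB 1).1)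
      intro f hf g hg a k1 k2 hne
      by_contra hn
      rcases (hside k1 k2 hne).2 hn with h3 | h3
      · obtain ⟨i, hi, hik, -⟩ := h3
        omega
      · obtain ⟨-, q, hq, hqs⟩ := hFO a h3
        rcases side_two hne k1 k2 hqs with rfl | rfl
        · exact hq hf
        · exact hq hg
    rw [hGz hAG.1] at h2
    exact h1 h2.symm
  · intro i h0 hik C hC hj
    have h1 : (D i).1 ∈ O := Or.inl ⟨i, by omega, hik, rfl⟩
    have h2 := (chi_iff hlow hev (D i)).1 h1
    rw [hGz (hDB i).1] at h2
    have h3 : ahead (rv (D i)) ∈ F := by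
      by_contra hcon
      exact hno i h0 hik ⟨hGF (hDB i).1, hcon⟩
    have h4 := hFGc ⟨h3, (hDB i).2⟩ hj
    have h5 : C.1 ∈ O := by
      rw [chi_iff hlow hev C, hout hC.2, ← h4]
      exact fun h => h2 h.symm
    rcases h5 with h5 | h5
    · obtain ⟨-, g, hg, hgs⟩ := hC.bdU
      exact absurd (hGO _ h5 g hgs) hg
    · obtain ⟨j, hj1, hjl, h6⟩ := h5
      exact ⟨j, by omega, hjl, (hEB j).eq_of_fst hC h6⟩

theorem succ_common {F G : Set (ℤ × ℤ)} (hF : F.Finite) (hc : EConn F) (he : Esc F) (hGF : G ⊆ F)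
    (hcG : EConn G) {A : UE × Bool} (hA : BD F A) (hAG : BD G A) (hB : BD F (sc G A)) :
    sc G A = sc F A := by
  obtain ⟨m, hm⟩ := exists_per hF hA
  obtain ⟨l, -, -, h1, -, h2, -⟩ := next_common hF hc he hGF hcG hA hAG hm (k := 1) (by omega) hB
    (fun i h0 h1 => by omega)
  rw [h2 rfl] at h1
  exact h1.symm

theorem Per.shift {F : Set (ℤ × ℤ)} {m : ℕ} {A : UE × Bool} (hA : BD F A) (hm : Per F m A)
    (n : ℕ) : Per F m ((sc F)^[n] A) where
  pos := hm.pos
  per := by
    rw [← Function.iterate_add_apply, add_comm, Function.iterate_add_apply, hm.per]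
  inj := by
    have key : ∀ i < m, ∀ j < m, i < j → (sc F)^[i] ((sc F)^[n] A) ≠ (sc F)^[j] ((sc F)^[n] A) := by
      intro i hi j hj hij h
      rw [← Function.iterate_add_apply, ← Function.iterate_add_apply,
        show j + n = (i + n) + (j - i) by omega] at h
      have h1 := iter_cancel hA _ _ h
      have := hm.inj (j - i) (by omega) 0 hm.pos (by simpa using h1)
      omega
    intro i hi j hj h
    rcases lt_trichotomy i j with h1 | h1 | h1
    · exact absurd h (key i hi j hj h1)
    · exact h1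
    · exact absurd h.symm (key j hj i hi h1)

theorem Per.mod {F : Set (ℤ × ℤ)} {m : ℕ} {A : UE × Bool} (hm : Per F m A) (n : ℕ) :
    (sc F)^[n % m] A = (sc F)^[n] A := by
  conv_rhs => rw [← Nat.mod_add_div n m]
  rw [Function.iterate_add_apply, Function.iterate_mul]
  congr 1
  have : ∀ k : ℕ, ((sc F)^[m])^[k] A = A := by
    intro k
    induction k with
    | zero => rfl
    | succ k ih => rw [Function.iterate_succ_apply', ih, hm.per]
  exact (this _).symm

theorem adjF_ahead_sub {G : Set (ℤ × ℤ)} {D : UE × Bool} (h : BD G D) :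
    AdjF (ahead D) (ahead (rv D)) := by
  obtain ⟨a, d⟩ := D
  refine ⟨fun hh => h.2 (hh ▸ h.1), a, isSide_ahead a d, isSide_ahead a (!d)⟩

/-- **Contiguity.** -/
theorem contig {F G : Set (ℤ × ℤ)} (hF : F.Finite) (hc : EConn F) (he : Esc F) (hGF : G ⊆ F)
    (hcG : EConn G) {A : UE × Bool} (hA : BD F A) (hAG : BD G A) {mF mG : ℕ} (hmF : Per F mF A)
    (hmG : Per G mG A) {p q : ℕ} (hpq : p ≤ q) (hq : q < mF)
    (hY : ∀ i, p ≤ i → i ≤ q → ahead ((sc F)^[i] A) ∉ G)
    (hT : ∀ f ∈ G, ∀ y, AdjF f y → y ∈ F → y ∉ G →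
      ∃ i, p ≤ i ∧ i ≤ q ∧ JoinIn (F \ G) y (ahead ((sc F)^[i] A))) :
    ∃ s t u, s + 1 < t ∧ t ≤ mG ∧ s < p ∧ q < u ∧ u + (mG - t) = mF ∧
      (∀ i ≤ s, (sc G)^[i] A = (sc F)^[i] A) ∧
      (∀ i, s < i → i < t → ¬ BD F ((sc G)^[i] A)) ∧
      (∀ j, t + j ≤ mG → (sc G)^[t + j] A = (sc F)^[u + j] A) := by
  classical
  have hGB : ∀ i, BD G ((sc G)^[i] A) := fun i => hAG.iterate i
  have hFB : ∀ i, BD F ((sc F)^[i] A) := fun i => hA.iterate i
  -- runs of common sides
  have hrun : ∀ a b r : ℕ, (sc G)^[a] A = (sc F)^[b] A →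
      (∀ i ≤ r, BD F ((sc G)^[a + i] A)) → ∀ i ≤ r, (sc G)^[a + i] A = (sc F)^[b + i] A := by
    intro a b r h0 hr i
    induction i with
    | zero => intro _; simpa using h0
    | succ i ih =>
      intro hi
      have h1 := ih (by omega)
      have h2 := hr (i + 1) hi
      rw [← add_assoc, Function.iterate_succ_apply'] at h2 ⊢
      rw [← add_assoc, Function.iterate_succ_apply' (sc F)]
      have h3 := succ_common hF hc he hGF hcG (hr i (by omega)) (hGB (a + i)) h2
      rw [h3, h1]
  -- the first side which is not common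
  have hex : ∃ i, ¬ BD F ((sc G)^[i] A) := by
    by_contra hcon
    push Not at hcon
    have h1 := hrun 0 0 p rfl (fun i _ => hcon _) p le_rfl
    rw [zero_add] at h1
    exact hY p le_rfl hpq (h1 ▸ (hGB p).1)
  have hn1 := Nat.find_spec hex
  have hn1min : ∀ i, i < Nat.find hex → BD F ((sc G)^[i] A) := fun i hi => by
    have := Nat.find_min hex hi
    simpa using this
  set n1 := Nat.find hex with hn1def
  have hn1pos : 0 < n1 := by
    rcases Nat.eq_zero_or_pos n1 with h | h
    · rw [h] at hn1
      exact absurd hA hn1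
    · exact h
  have hn1G : n1 < mG := by
    by_contra hcon
    push Not at hcon
    have h1 : n1 % mG < mG := Nat.mod_lt _ hmG.pos
    have h2 := hn1min (n1 % mG) (by omega)
    rw [hmG.mod] at h2
    exact hn1 h2
  obtain ⟨s, hs⟩ : ∃ s, n1 = s + 1 := ⟨n1 - 1, by omega⟩
  have hseq : ∀ i ≤ s, (sc G)^[i] A = (sc F)^[i] A := by
    intro i hi
    have := hrun 0 0 s rfl (fun i hi => by rw [zero_add]; exact hn1min i (by omega)) i hi
    simpa using this
  have hsp : s < p := by
    by_contra hcon
    push Not at hcon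
    have h1 := hseq p hcon
    exact hY p le_rfl hpq (h1 ▸ (hGB p).1)
  -- one run of sides which are not common, from a common side `a` of index `v` on `F`
  have hone : ∀ a v : ℕ, a < mG → v < mF → (sc G)^[a] A = (sc F)^[v] A →
      ¬ BD F ((sc G)^[a + 1] A) → ∃ k l j, 1 < k ∧ a + k ≤ mG ∧ v + l ≤ mF ∧
        (∀ i, 0 < i → i < k → ¬ BD F ((sc G)^[a + i] A)) ∧
        (sc G)^[a + k] A = (sc F)^[v + l] A ∧ v < j ∧ j < v + l ∧ p ≤ j ∧ j ≤ q := by
    intro a v ha hv hav hna
    have hkex : ∃ k, 0 < k ∧ BD F ((sc G)^[a + k] A) := by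
      refine ⟨mG - a, by omega, ?_⟩
      rw [show a + (mG - a) = mG by omega, hmG.per]
      exact hA
    obtain ⟨hk0, hkB⟩ := Nat.find_spec hkex
    have hkmin : ∀ i, 0 < i → i < Nat.find hkex → ¬ BD F ((sc G)^[a + i] A) := fun i h0 hi h =>
      Nat.find_min hkex hi ⟨h0, h⟩
    have hkle : Nat.find hkex ≤ mG - a := by
      apply Nat.find_min' hkex
      refine ⟨by omega, ?_⟩
      rw [show a + (mG - a) = mG by omega, hmG.per]
      exact hA
    set k := Nat.find hkex with hkdef
    have hk1 : 1 < k := by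
      by_contra hcon
      have : k = 1 := by omega
      rw [this] at hkB
      exact hna hkB
    set A1 := (sc G)^[a] A with hA1
    have hA1F : BD F A1 := by
      rw [hav]
      exact hFB v
    have hPer : Per F mF A1 := by
      rw [hav]
      exact hmF.shift hA v
    have hit : ∀ i, (sc G)^[i] A1 = (sc G)^[a + i] A := by
      intro i
      rw [hA1, ← Function.iterate_add_apply, add_comm]
    have hitF : ∀ i, (sc F)^[i] A1 = (sc F)^[v + i] A := by
      intro i
      rw [hav, ← Function.iterate_add_apply, add_comm]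
    obtain ⟨l, hl0, hlm, hlB, hln, -, hlC⟩ := next_common hF hc he hGF hcG hA1F (hGB a) hPer
      (k := k) hk0 (by rw [hit]; exact hkB) (fun i h0 hi => by rw [hit]; exact hkmin i h0 hi)
    -- a face behind the first side of the run
    have hD1 : BD G ((sc G)^[1] A1) := by rw [hit]; exact hGB _
    have hy : ahead (rv ((sc G)^[1] A1)) ∈ F := by
      by_contra hcon
      apply hkmin 1 (by omega) hk1
      rw [← hit]
      exact ⟨hGF hD1.1, hcon⟩
    obtain ⟨j0, hj0p, hj0q, hj0⟩ := hT _ hD1.1 _ (adjF_ahead_sub hD1) hy hD1.2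
    obtain ⟨j, hj1, hjl, hj2⟩ := hlC 1 (by omega) hk1 _ (hFB j0) hj0
    have hvl : v + l ≤ mF := by
      by_contra hcon
      push Not at hcon
      apply hln (mF - v) (by omega) (by omega)
      rw [hitF, show v + (mF - v) = mF by omega, hmF.per]
      exact hAG.1
    rw [hitF] at hj2
    have hjj : v + j = j0 := hmF.inj _ (by omega) _ (by omega) hj2
    refine ⟨k, l, j0, hk1, by omega, hvl, hkmin, ?_, by omega, by omega, hj0p, hj0q⟩
    rw [← hit, ← hlB, hitF]
  -- the first run
  obtain ⟨k, l, j0, hk1, hkG, hlF, hkno, hkl, hj1, hj2, hj3, hj4⟩ := hone s s (by omega) (by omega)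
    (hseq s le_rfl) (by rw [← hs]; exact hn1)
  have hqu : q < s + l := by
    by_contra hcon
    push Not at hcon
    apply hY (s + l) (by omega) hcon
    rw [← hkl]
    exact (hGB _).1
  -- there is no second run
  have hrest : ∀ i, s + k ≤ i → i ≤ mG → BD F ((sc G)^[i] A) := by
    by_contra hcon
    push Not at hcon
    have hex2 : ∃ i, s + k ≤ i ∧ i ≤ mG ∧ ¬ BD F ((sc G)^[i] A) := hcon
    obtain ⟨h1, h2, h3⟩ := Nat.find_spec hex2
    have hmin2 : ∀ i, s + k ≤ i → i < Nat.find hex2 → BD F ((sc G)^[i] A) := by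
      intro i hi hi2
      by_contra hcon2
      exact Nat.find_min hex2 hi2 ⟨hi, by omega, hcon2⟩
    set i1 := Nat.find hex2 with hi1
    have hi1G : i1 < mG := by
      rcases Nat.lt_or_ge i1 mG with h | h
      · exact h
      · have : i1 = mG := by omega
        rw [this, hmG.per] at h3
        exact absurd hA h3
    have hi1k : s + k < i1 := by
      rcases Nat.lt_or_ge (s + k) i1 with h | h
      · exact h
      · have : i1 = s + k := by omega
        rw [this, hkl] at h3
        exact absurd (hFB _) h3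
    have hr := hrun (s + k) (s + l) (i1 - 1 - (s + k)) hkl
      (fun i hi => hmin2 _ (by omega) (by omega))
    have hv : s + l + (i1 - 1 - (s + k)) < mF := by
      by_contra hcon2
      push Not at hcon2
      have h4 := hr (mF - (s + l)) (by omega)
      rw [show s + l + (mF - (s + l)) = mF by omega, hmF.per] at h4
      have := hmG.inj (s + k + (mF - (s + l))) (by omega) 0 hmG.pos (by simpa using h4)
      omega
    obtain ⟨k2, l2, j2, -, -, -, -, -, c1, -, -, c4⟩ := hone (i1 - 1)
      (s + l + (i1 - 1 - (s + k))) (by omega) hv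
      (by
        have := hr (i1 - 1 - (s + k)) le_rfl
        rw [show s + k + (i1 - 1 - (s + k)) = i1 - 1 by omega] at this
        exact this)
      (by rw [show i1 - 1 + 1 = i1 by omega]; exact h3)
    omega
  have hfin := hrun (s + k) (s + l) (mG - (s + k)) hkl (fun i hi => hrest _ (by omega) (by omega))
  have hend : s + l + (mG - (s + k)) = mF := by
    have h1 := hfin (mG - (s + k)) le_rfl
    rw [show s + k + (mG - (s + k)) = mG by omega, hmG.per] at h1
    rcases lt_trichotomy (s + l + (mG - (s + k))) mF with h | h | h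
    · have := hmF.inj _ h 0 hmF.pos (by simpa using h1.symm)
      omega
    · exact h
    · have h4 := hfin (mF - (s + l)) (by omega)
      rw [show s + l + (mF - (s + l)) = mF by omega, hmF.per] at h4
      have := hmG.inj (s + k + (mF - (s + l))) (by omega) 0 hmG.pos (by simpa using h4)
      omega
  refine ⟨s, s + k, s + l, by omega, hkG, hsp, hqu, hend, hseq, ?_, fun j hj => hfin j (by omega)⟩
  intro i hi hi2
  have := hkno (i - s) (by omega) (by omega)
  rwa [show s + (i - s) = i by omega] at this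

end Pool.Agent.SixB.Top
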