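import Pool.Agent.Lib.SixB.S8CloseB
import Pool.Agent.Lib.SixB.S8Sub

/-!
# Step 8: the order of links, and the true tip is in the domain of a move

* `Lnk F G c C S`: the side `c` of `G` is linked to the side `C` of `F` by the set `S ⊆ F \ G`.
* `link_mono`: disjoint links keep the order of the two contours (from a common side, with the
  orientation of the contours).
* `Clo.tip_mem`: if a side of `D` after the exit interval is linked in `T` to a side of `U` with the left
  label and a side of `D` before the exit interval is linked to a side of `U` with the right label, then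
  the true tip side of `U` is a side of `T`.
-/

set_option autoImplicit false

namespace Pool.Agent.SixB.Top

open Finset Pool.Agent.Perc Pool.Agent.Perc6 Pool.Agent.Perc6.C2Aux Pool.Agent.Perc.Tips

/-- The side `c` of `G` is linked to the side `C` of `F`. -/
structure Lnk (F G : Set (ℤ × ℤ)) (c C : UE × Bool) (S : Set (ℤ × ℤ)) : Prop where
  bdG : BD G c
  bdF : BD F C
  sub : ∀ f ∈ S, f ∈ F ∧ f ∉ G
  lnk : c = C ∨ (ahead (rv c) ∈ S ∧ ChI S (ahead (rv c)) (ahead C))

section Links

variable {F G S S' : Set (ℤ × ℤ)} {c C c' C' E : UE × Bool}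

/-- The tail of a closed chain through a link. -/
theorem Lnk.tail (h : Lnk F G c C S) (hGF : G ⊆ F) : ∃ N : Set UE,
    (∀ f ∈ F, parAt N f = ind2 (f = ahead c)) ∧
    (∀ a ∈ N, ∀ k, IsSide k a → k ∈ S ∨ k ∈ G ∨ k ∉ F) ∧
    (∀ B, BD G B → (B.1 ∈ N ↔ B = c)) ∧ ∀ B, BD F B → (B.1 ∈ N ↔ B = C) := by
  have a1 := (adjF_ahead c).1
  have s1 : IsSide (ahead (rv c)) c.1 := isSide_ahead c.1 (!c.2)
  have s1' : IsSide (ahead c) c.1 := isSide_ahead c.1 c.2
  rcases h.lnk with hcC | ⟨hc, hch⟩
  · have hcF : BD F c := by rw [hcC]; exact h.bdF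
    refine ⟨{c.1}, ?_, ?_, ?_, ?_⟩
    · intro f hf
      rw [parAt_side a1 s1 s1', ind2_neg (show ¬ f = ahead (rv c) from fun hh => hcF.2 (hh ▸ hf)),
        zero_add]
    · intro a ha k hk
      rw [Set.mem_singleton_iff] at ha
      subst ha
      rcases side_two a1 s1 s1' hk with h1 | h1
      · exact Or.inr (Or.inr (h1 ▸ hcF.2))
      · exact Or.inr (Or.inl (h1 ▸ h.bdG.1))
    · intro B hB
      rw [Set.mem_singleton_iff]
      exact ⟨fun h1 => hB.eq_of_fst h.bdG h1, fun h1 => by rw [h1]⟩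
    · intro B hB
      rw [Set.mem_singleton_iff, ← hcC]
      exact ⟨fun h1 => hB.eq_of_fst hcF h1, fun h1 => by rw [h1]⟩
  · have hCS : ahead C ∈ S := ChI.mem hc hch
    have a2 := (adjF_ahead C).1
    have s2 : IsSide (ahead (rv C)) C.1 := isSide_ahead C.1 (!C.2)
    have s2' : IsSide (ahead C) C.1 := isSide_ahead C.1 C.2
    obtain ⟨-, M, hM, hp⟩ := chain_toggle (F := Sᶜ) (f := ahead (rv c)) (g := ahead C)
      (not_not.2 hc) (hch.stepC fun f hf => not_not.2 hf)
    have hne : c.1 ≠ C.1 := by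
      intro hh
      rw [hh] at s1'
      rcases side_two a2 s2 s2' s1' with h1 | h1
      · exact h.bdF.2 (h1 ▸ hGF h.bdG.1)
      · exact (h.sub _ hCS).2 (h1 ▸ h.bdG.1)
    refine ⟨symmDiff (symmDiff M {c.1}) {C.1}, ?_, ?_, ?_, ?_⟩
    · intro f hf
      rw [parAt_symmDiff, parAt_symmDiff, hp, parAt_side a1 s1 s1', parAt_side a2 s2 s2',
        ind2_neg (show ¬ f = ahead (rv C) from fun hh => h.bdF.2 (hh ▸ hf)), zero_add]
      generalize ind2 (f = ahead (rv c)) = p1
      generalize ind2 (f = ahead C) = p2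
      generalize ind2 (f = ahead c) = p3
      revert p1 p2 p3
      decide
    · intro a ha k hk
      have ha' : a ∈ M ∨ a = c.1 ∨ a = C.1 := by
        simp only [Set.mem_symmDiff, Set.mem_singleton_iff] at ha
        tauto
      rcases ha' with h1 | h1 | h1
      · left
        by_contra hn
        exact hM a h1 k hn hk
      · subst h1
        rcases side_two a1 s1 s1' hk with h2 | h2
        · exact Or.inl (h2 ▸ hc)
        · exact Or.inr (Or.inl (h2 ▸ h.bdG.1))
      · subst h1
        rcases side_two a2 s2 s2' hk with h2 | h2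
        · exact Or.inr (Or.inr (h2 ▸ h.bdF.2))
        · exact Or.inl (h2 ▸ hCS)
    · intro B hB
      have n1 : B.1 ∉ M := fun hh => hM _ hh _ (fun hS => (h.sub _ hS).2 hB.1)
        (isSide_ahead B.1 B.2)
      have n2 : B.1 ≠ C.1 := by
        intro hh
        have h3 : IsSide (ahead B) C.1 := by rw [← hh]; exact isSide_ahead B.1 B.2
        rcases side_two a2 s2 s2' h3 with h1 | h1
        · exact h.bdF.2 (h1 ▸ hGF hB.1)
        · exact (h.sub _ hCS).2 (h1 ▸ hB.1)
      simp only [Set.mem_symmDiff, Set.mem_singleton_iff, n1, n2, false_and, or_false, false_or,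
        not_false_eq_true, and_true]
      exact ⟨fun h1 => hB.eq_of_fst h.bdG h1, fun h1 => by rw [h1]⟩
    · intro B hB
      have n1 : B.1 ∉ M := fun hh => hM _ hh _ (fun hS => hB.2 (h.sub _ hS).1)
        (isSide_ahead B.1 (!B.2))
      have n2 : B.1 ≠ c.1 := by
        intro hh
        have h3 : IsSide (ahead (rv B)) c.1 := by rw [← hh]; exact isSide_ahead B.1 (!B.2)
        rcases side_two a1 s1 s1' h3 with h1 | h1
        · exact hB.2 (h1 ▸ (h.sub _ hc).1)
        · exact hB.2 (h1 ▸ hGF h.bdG.1)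
      simp only [Set.mem_symmDiff, Set.mem_singleton_iff, n1, n2, false_and, or_false, false_or,
        not_false_eq_true, and_true]
      exact ⟨fun h1 => hB.eq_of_fst h.bdF h1, fun h1 => by rw [h1]⟩

/-- **Disjoint links keep the order.** -/
theorem link_mono (hF : F.Finite) (heF : Esc F) (hGF : G ⊆ F) (hcG : EConn G) {mF mG : ℕ}
    (hEF : BD F E) (hEG : BD G E) (hmF : Per F mF E) (hmG : Per G mG E)
    (h : Lnk F G c C S) (h' : Lnk F G c' C' S') (hSS : ∀ f ∈ S, f ∉ S') {a a' b b' : ℕ}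
    (ha : (sc G)^[a] E = c) (ha' : (sc G)^[a'] E = c') (hb : (sc F)^[b] E = C)
    (hb' : (sc F)^[b'] E = C') (haa : a < a') (ham : a' < mG) (hbm : b < mF) (hbm' : b' < mF) :
    b < b' := by
  -- the base is not linked
  have hbase : ∀ {c C : UE × Bool} {S : Set (ℤ × ℤ)}, Lnk F G c C S → C = E → c = E := by
    intro c C S h hCE
    rcases h.lnk with h1 | ⟨h1, h2⟩
    · rw [h1, hCE]
    · exfalso
      have h3 := (h.sub _ (ChI.mem h1 h2)).2
      rw [hCE] at h3
      exact h3 hEG.1
  have hbase' : ∀ {c C : UE × Bool} {S : Set (ℤ × ℤ)}, Lnk F G c C S → c = E → C = E := by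
    intro c C S h hcE
    rcases h.lnk with h1 | ⟨h1, -⟩
    · rw [← h1, hcE]
    · exfalso
      rw [hcE] at h1
      exact hEF.2 (h.sub _ h1).1
  have hb'0 : 0 < b' := by
    rcases Nat.eq_zero_or_pos b' with h0 | h0
    · exfalso
      subst h0
      have h1 := hbase h' hb'.symm
      have h2 := hmG.inj a' ham 0 hmG.pos (by rw [ha', h1]; rfl)
      omega
    · exact h0
  rcases Nat.eq_zero_or_pos b with h0 | hb0
  · omega
  have ha0 : 0 < a := by
    rcases Nat.eq_zero_or_pos a with h0 | h0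
    · exfalso
      subst h0
      have h1 := hbase' h ha.symm
      have h2 := hmF.inj b hbm 0 hmF.pos (by rw [hb, h1]; rfl)
      omega
    · exact h0
  have hcc : c ≠ c' := by
    intro hh
    have := hmG.inj a (by omega) a' ham (by rw [ha, ha', hh])
    omega
  -- the chain
  obtain ⟨N, hN1, hN2, hN3, hN4⟩ := h'.tail hGF
  obtain ⟨-, M₀, hM0, hp0⟩ := chain_toggle (F := Gᶜ) (f := ahead E) (g := ahead c')
    (not_not.2 hEG.1) ((show ChI G (ahead E) (ahead c') from
      hcG _ hEG.1 _ h'.bdG.1).stepC fun f hf => not_not.2 hf)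
  have a1 := (adjF_ahead E).1
  have s1 : IsSide (ahead (rv E)) E.1 := isSide_ahead E.1 (!E.2)
  have s1' : IsSide (ahead E) E.1 := isSide_ahead E.1 E.2
  set M : Set UE := symmDiff (symmDiff {E.1} M₀) N with hM
  have hmem : ∀ x, x ∈ M → x = E.1 ∨ x ∈ M₀ ∨ x ∈ N := by
    intro x hx
    simp only [hM, Set.mem_symmDiff, Set.mem_singleton_iff] at hx
    tauto
  have heven : ∀ f ∈ F, EvenAt M f := by
    intro f hf
    rw [evenAt_iff, hM, parAt_symmDiff, parAt_symmDiff, hp0, hN1 f hf, parAt_side a1 s1 s1',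
      ind2_neg (show ¬ f = ahead (rv E) from fun hh => hEF.2 (hh ▸ hf)), zero_add]
    generalize ind2 (f = ahead E) = p1
    generalize ind2 (f = ahead c') = p2
    revert p1 p2
    decide
  obtain ⟨Φ, hΦ⟩ := heF.hasPot' hF M heven
  -- the sides of the contours
  have hG : ∀ B, BD G B → (B.1 ∈ M ↔ (B = E ∨ B = c')) := by
    intro B hB
    have n0 : B.1 ∉ M₀ := fun hh => hM0 _ hh _ hB.2 (isSide_ahead B.1 (!B.2))
    have n1 : B.1 ∈ ({E.1} : Set UE) ↔ B = E := by
      rw [Set.mem_singleton_iff]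
      exact ⟨fun h1 => hB.eq_of_fst hEG h1, fun h1 => by rw [h1]⟩
    have n2 := hN3 B hB
    have n3 : E ≠ c' := by
      intro hh
      have := hmG.inj a' ham 0 hmG.pos (by rw [ha', ← hh]; rfl)
      omega
    simp only [hM, Set.mem_symmDiff, n0, n1, n2]
    constructor
    · tauto
    · rintro (rfl | rfl)
      · tauto
      · tauto
  have hFs : ∀ B, BD F B → (B.1 ∈ M ↔ (B = E ∨ B = C')) := by
    intro B hB
    have n0 : B.1 ∉ M₀ := fun hh => hM0 _ hh _ (fun hg => hB.2 (hGF hg)) (isSide_ahead B.1 (!B.2))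
    have n1 : B.1 ∈ ({E.1} : Set UE) ↔ B = E := by
      rw [Set.mem_singleton_iff]
      exact ⟨fun h1 => hB.eq_of_fst hEF h1, fun h1 => by rw [h1]⟩
    have n2 := hN4 B hB
    have n3 : E ≠ C' := by
      intro hh
      have := hmF.inj b' hbm' 0 hmF.pos (by rw [hb', ← hh]; rfl)
      omega
    simp only [hM, Set.mem_symmDiff, n0, n1, n2]
    constructor
    · tauto
    · rintro (rfl | rfl)
      · tauto
      · tauto
  -- constant on the first parts
  have hcG1 : ∀ i, 1 ≤ i → i ≤ a' → Φ (lf ((sc G)^[i] E)) = Φ (rg E) := by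
    intro i h1 h2
    induction i, h1 using Nat.le_induction with
    | base => rw [Function.iterate_one, lf_sc]
    | succ i hi ih =>
      have ih' := ih (by omega)
      rw [Function.iterate_succ_apply', lf_sc, ← ih']
      have h5 := pot_side hΦ (hGF (hEG.iterate i).1)
      by_contra hne
      rcases (hG _ (hEG.iterate i)).1 (h5.2 (Ne.symm hne)) with h6 | h6
      · have := hmG.inj i (by omega) 0 hmG.pos h6
        omega
      · have := hmG.inj i (by omega) a' ham (by rw [h6, ha'])
        omega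
  have hlfC : Φ (lf C) = Φ (rg E) := by
    have h1 : Φ (lf c) = Φ (rg E) := by
      rw [← ha]
      exact hcG1 a ha0 haa.le
    rcases h.lnk with h2 | ⟨h2, h3⟩
    · rw [← h2, h1]
    · have hS : ∀ g ∈ S, ∀ x, IsSide g x → x ∉ M := by
        intro g hg x hx hxM
        rcases hmem x hxM with h4 | h4 | h4
        · subst h4
          rcases side_two a1 s1 s1' hx with h5 | h5
          · exact hEF.2 (h5 ▸ (h.sub g hg).1)
          · exact (h.sub g hg).2 (h5 ▸ hEG.1)
        · exact hM0 x h4 g (h.sub g hg).2 hx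
        · rcases hN2 x h4 g hx with h5 | h5 | h5
          · exact hSS g hg h5
          · exact (h.sub g hg).2 h5
          · exact h5 (h.sub g hg).1
      have key : ∀ g, ChI S (ahead (rv c)) g → ∀ v, IsCor g v → Φ v = Φ (lf c) := by
        intro g hg
        induction hg with
        | refl => exact fun v hv => pot_face hΦ (h.sub _ h2).1 (hS _ h2) hv (isCor_out_lf c)
        | @tail p q hp hpq ih =>
          intro v hv
          obtain ⟨D, hD1, hD2⟩ := adjF_dir hpq.1
          have h5 := ih (lf D) (by rw [← hD1]; exact isCor_in_lf D)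
          rw [← h5]
          exact pot_face hΦ (h.sub _ hpq.2).1 (hS _ hpq.2) hv (by rw [← hD2]; exact isCor_out_lf D)
      rw [← h1]
      exact key _ h3 _ (isCor_in_lf C)
  by_contra hcon
  rcases Nat.lt_or_ge b' b with h1 | h1
  · refine pot_tele hΦ (fun x hx => hx) hEF (k₁ := 1) (k₃ := b) (r := b') hb'0 h1 ?_ ?_
    · intro i hi1 hi2
      rw [hFs _ (hEF.iterate i)]
      constructor
      · rintro (h6 | h6)
        · have := hmF.inj i (by omega) 0 hmF.pos h6
          omega
        · exact hmF.inj i (by omega) b' hbm' (by rw [h6, hb'])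
      · rintro rfl
        exact Or.inr hb'
    · rw [hb, Function.iterate_one, lf_sc, hlfC]
  · have hbb : b = b' := by omega
    have hCC : C = C' := by rw [← hb, ← hb', hbb]
    rcases h.lnk with h2 | ⟨h2, h3⟩ <;> rcases h'.lnk with h4 | ⟨h4, h5⟩
    · exact hcc (by rw [h2, h4, hCC])
    · have h6 := (h'.sub _ (ChI.mem h4 h5)).2
      rw [← hCC, ← h2] at h6
      exact h6 h.bdG.1
    · have h6 := (h.sub _ (ChI.mem h2 h3)).2
      rw [hCC, ← h4] at h6
      exact h6 h'.bdG.1
    · refine hSS _ (ChI.mem h2 h3) ?_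
      rw [hCC]
      exact ChI.mem h4 h5

end Links

/-- **The true tip is on the contour of `T`.** `τ` is the tip side of `U`; a side `iR` of `D` before the
exit interval is linked in `T` to the side number `vR` of `U`, a side `iL` after the exit interval to the
side number `vL`, and `vR < vL` (right label, left label). -/
theorem Clo.tip_mem {U P D T cR cL : Set (ℤ × ℤ)} {A : UE × Bool} {k₁ k₃ m : ℕ}
    (H : Clo U P D T A k₁ k₃ m cR cL) (K : Caps U D A k₁ k₃ cR cL)
    (hcomp : ∀ t ∈ T, ∀ g, AdjF t g → g ∉ T → g ∉ U ∨ g ∈ P ∨ g ∈ cR ∨ g ∈ cL)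
    (hnbr : ∀ p ∈ P, ∀ y, y ∉ P → AdjF p y → ∃ x, x ∉ U ∧ ChI Pᶜ y x)
    {τ : UE × Bool} {mU : ℕ} (hτ : BD U τ) (hmU : Per U mU τ) {iR iL : ℕ} (hiR : iR < k₁)
    (hiL : k₃ ≤ iL) (hiL' : iL < m) {CR CL : UE × Bool} {SR SL : Set (ℤ × ℤ)}
    (lR : Lnk T D ((sc D)^[iR] A) CR SR) (lL : Lnk T D ((sc D)^[iL] A) CL SL)
    (hS : ∀ f ∈ SL, f ∉ SR) (hCR : BD U CR) (hCL : BD U CL) {vR vL : ℕ}
    (hvR : (sc U)^[vR] τ = CR) (hvL : (sc U)^[vL] τ = CL) (hv : vR < vL) (hvm : vL ≤ mU) :
    BD T τ := by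
  have hTf := H.finU.subset H.TU
  have hTe := H.esc hcomp hnbr
  have hk1 := H.k1
  have hk13 := H.k13
  have hk3 := H.k3
  obtain ⟨n, hn⟩ : ∃ n, n = k₃ - k₁ + 1 := ⟨_, rfl⟩
  obtain ⟨B₁, hB₁⟩ : ∃ B₁, B₁ = (sc D)^[k₁ - 1] A := ⟨_, rfl⟩
  obtain ⟨E, hE⟩ : ∃ E, E = (sc D)^[k₃] A := ⟨_, rfl⟩
  have hrun : ∀ j ≤ n, (sc T)^[j] B₁ = (sc D)^[k₁ - 1 + j] A := by
    intro j hj
    rw [hB₁]
    exact (H.run (by omega)).1
  have hB₁T : BD T B₁ := by
    have := (H.run (j := 0) (Nat.zero_le _)).2
    rw [Nat.add_zero] at this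
    rw [hB₁]
    exact this
  have hET : BD T E := by
    have := (H.run (j := n) (by omega)).2
    rw [show k₁ - 1 + n = k₃ by omega] at this
    rw [hE]
    exact this
  have hED : BD D E := by
    rw [hE]
    exact H.bdA.iterate k₃
  have hPD : Per D m A := ⟨by omega, H.per, H.inj⟩
  have hmG : Per D m E := by
    rw [hE]
    exact hPD.shift H.bdA k₃
  obtain ⟨mT, hmT⟩ := exists_per hTf hET
  have hnE : (sc T)^[n] B₁ = E := by
    rw [hrun n le_rfl, show k₁ - 1 + n = k₃ by omega, hE]
  have hidx : ∀ {B : UE × Bool}, BD T B → ∃ i < mT, (sc T)^[i] E = B := by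
    intro B hB
    obtain ⟨i, hi⟩ := contour_all hTf H.ecT hTe hET hB.bdU
    exact ⟨i % mT, Nat.mod_lt _ hmT.pos, by
      rw [hmT.mod, (hET.iterate i).eq_of_fst hB hi]⟩
  obtain ⟨q, hq, hqB⟩ := hidx hB₁T
  obtain ⟨b, hb, hbC⟩ := hidx lL.bdF
  obtain ⟨b', hb', hbC'⟩ := hidx lR.bdF
  -- the position of the run
  have hBper : Per T mT B₁ := by rw [← hqB]; exact hmT.shift hET q
  have hnm : n < mT := by
    by_contra hcon
    have h1 := hrun mT (by omega)
    rw [hBper.per, hB₁] at h1
    have := H.inj (k₁ - 1) (by omega) (k₁ - 1 + mT) (by omega) h1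
    have := hmT.pos
    omega
  have hqn : q + n = mT := by
    have h1 : (sc T)^[n + q] E = E := by
      rw [Function.iterate_add_apply, hqB, hnE]
    rw [← hmT.mod] at h1
    have h2 := hmT.inj _ (Nat.mod_lt _ hmT.pos) 0 hmT.pos h1
    rcases Nat.lt_or_ge (n + q) mT with h3 | h3
    · rw [Nat.mod_eq_of_lt h3] at h2
      omega
    · rw [Nat.mod_eq_sub_mod h3, Nat.mod_eq_of_lt (by omega)] at h2
      omega
  have hqrun : ∀ j ≤ n, (sc T)^[q + j] E = (sc D)^[k₁ - 1 + j] A := by
    intro j hj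
    rw [Nat.add_comm q, Function.iterate_add_apply, hqB, hrun j hj]
  -- the order of the links
  have haL : (sc D)^[iL - k₃] E = (sc D)^[iL] A := by
    rw [hE, ← Function.iterate_add_apply, show iL - k₃ + k₃ = iL by omega]
  have haR : (sc D)^[m - k₃ + iR] E = (sc D)^[iR] A := by
    rw [hE, ← Function.iterate_add_apply, show m - k₃ + iR + k₃ = iR + m by omega,
      Function.iterate_add_apply, H.per]
  have hbb : b < b' := link_mono hTf hTe H.DT H.ecD hET hED hmT hmG lL lR hS haL haR hbC hbC'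
    (by omega) (by omega) hb hb'
  have hb'q : b' ≤ q := by
    by_contra hcon
    have h1 := hqrun (b' - q) (by omega)
    rw [show q + (b' - q) = b' by omega, hbC'] at h1
    have h2 := (H.out (k₁ - 1 + (b' - q)) (by omega)).2 (by omega)
    rw [← h1] at h2
    exact hCR.2 (H.PU h2)
  have hbU : ahead (rv ((sc T)^[b] E)) ∉ U := by rw [hbC]; exact hCL.2
  have hbU' : ahead (rv ((sc T)^[b'] E)) ∉ U := by rw [hbC']; exact hCR.2
  have hgR : ahead (rv ((sc T)^[q] E)) = ahead (rv ((sc D)^[k₁ - 1] A)) := by rw [hqB, hB₁]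
  have hgL : ahead (rv ((sc T)^[0] E)) = ahead (rv ((sc D)^[k₃] A)) := by
    rw [← hE]
    rfl
  -- no side with outer face in `U` between the two links
  have hno : ∀ y, b ≤ y → y ≤ b' → ahead (rv ((sc T)^[y] E)) ∉ U := by
    intro y h1 h2 hy
    rcases h1.lt_or_eq with h1 | rfl
    swap
    · exact hbU hy
    rcases h2.lt_or_eq with h2 | rfl
    swap
    · exact hbU' hy
    rcases H.bd hcomp (hET.iterate y) with h | ⟨i', hi1, hi2, hi3⟩ | h | h
    · exact h hy
    · have h3 := hqrun (i' - k₁ + 1) (by omega)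
      rw [show k₁ - 1 + (i' - k₁ + 1) = i' by omega, hi3] at h3
      have := hmT.inj _ (by omega) y (by omega) h3
      omega
    · obtain ⟨h3, h4⟩ := K.cnR _ h hy
      rw [← hgR] at h3 h4
      have h5 : ahead (rv ((sc T)^[q] E)) ∈ cR ∩ U := ⟨by rw [hgR]; exact H.inR, h3⟩
      have h6 : b' ≠ q := by
        rintro rfl
        exact hbU' h3
      exact two_arcs H.finU H.ecU H.escU H.TU H.ecT hET hmT.inj (S := cR ∩ U)
        Set.inter_subset_right (fun f hf => H.RT f hf.1) (i := y) (j := q) (by omega) hq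
        ⟨h, hy⟩ (ChI.symm h5 h4) (k := b') (l := b) h2 (by omega) (Or.inl h1) hb hbU' hbU
    · obtain ⟨h3, h4⟩ := K.cnL _ h hy
      rw [← hgL] at h3 h4
      have h5 : ahead (rv ((sc T)^[0] E)) ∈ cL ∩ U := ⟨by rw [hgL]; exact H.inL, h3⟩
      have h6 : 0 < b := by
        rcases Nat.eq_zero_or_pos b with rfl | h7
        · exact absurd h3 hbU
        · exact h7
      exact two_arcs H.finU H.ecU H.escU H.TU H.ecT hET hmT.inj (S := cL ∩ U)
        Set.inter_subset_right (fun f hf => H.LT f hf.1) (i := 0) (j := y) (by omega) (by omega)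
        h5 h4 (k := b) (l := b') h6 h1 (Or.inr h2) hb' hbU hbU'
  -- the run of common sides of `T` and `U`
  have hcom := interval_of_out H.TU (A := CL) lL.bdF (k := b' - b) (by
    intro i hi
    rw [← hbC, ← Function.iterate_add_apply]
    exact hno (i + b) (by omega) (by omega))
  have hδ : (sc U)^[b' - b] CL = CR := by
    rw [(hcom _ le_rfl).1, ← hbC, ← Function.iterate_add_apply, show b' - b + b = b' by omega,
      hbC']
  have hmU' : Per U mU CL := by rw [← hvL]; exact hmU.shift hτ vL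
  have hδm : b' - b < mU := by
    by_contra hcon
    have h1 := (hcom mU (by omega)).1
    rw [hmU'.per, ← hbC, ← Function.iterate_add_apply] at h1
    have := hmT.inj b hb (mU + b) (by omega) h1
    have := hmU.pos
    omega
  have hδ' : (sc U)^[mU - vL + vR] CL = CR := by
    rw [← hvL, ← Function.iterate_add_apply, show mU - vL + vR + vL = vR + mU by omega,
      Function.iterate_add_apply, hmU.per, hvR]
  have hδe := hmU'.inj _ hδm (mU - vL + vR) (by omega) (hδ.trans hδ'.symm)
  have hfin : (sc T)^[mU - vL] CL = τ := by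
    rw [← (hcom (mU - vL) (by omega)).1, ← hvL, ← Function.iterate_add_apply,
      show mU - vL + vL = mU by omega, hmU.per]
  rw [← hfin]
  exact lL.bdF.iterate _

end Pool.Agent.SixB.Top
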