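import Pool.Agent.Lib.SixB.S8Trans

/-!
# Step 8: TRANSFER with contours on both sides

`transfer_ctr`: the coarse polygon `P` has a contour `g` with coarse marks `l`; outside of the box
`B(a, s)` around the tip the label of a side of `P` is the label of the true sides it is linked to; the
arc 1 or the arc 2 is far from the tip; the hypothesis of Lemma C holds for one of the two pairs.
-/

set_option autoImplicit false

namespace Pool.Agent.SixB.LC

open Finset Pool.Agent.Perc Pool.Agent.Perc6 Pool.Agent.PercT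

theorem XS_symm (c : ℤ) (F A B : Set (ℤ × ℤ)) : XS c F A B = XS c F B A := by
  ext ω
  constructor <;>
  · rintro ⟨u, hu, v, hv, h1, h2⟩
    exact ⟨v, hv, u, hu, by rw [← h2.par_eq]; exact h1, conn_symm h2⟩

/-! ### Rotation by three arcs -/

/-- The marks of the contour rotated by three arcs. -/
def krot (m : ℕ) (k : ℕ → ℕ) : ℕ → ℕ := fun j =>
  if j = 0 then 0 else if j < 4 then m - k 3 + k (j - 1) else m

theorem krot_mono {m : ℕ} {k : ℕ → ℕ} (k0 : k 0 = 0) (k4 : k 4 = m) (hk : Monotone k) :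
    Monotone (krot m k) := by
  have h3 : k 3 ≤ m := by rw [← k4]; exact hk (by omega)
  refine monotone_nat_of_le_succ fun j => ?_
  unfold krot
  by_cases h : j = 0
  · subst h; simp
  · rw [if_neg h, if_neg (by omega : ¬ j + 1 = 0)]
    by_cases h4 : j + 1 < 4
    · rw [if_pos (by omega : j < 4), if_pos h4]
      have := hk (show j - 1 ≤ j + 1 - 1 by omega)
      omega
    · rw [if_neg h4]
      by_cases h5 : j < 4
      · rw [if_pos h5]
        have : j = 3 := by omega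
        subst this
        have := hk (show 2 ≤ 3 by omega)
        simp only [Nat.add_one_sub_one, Nat.reduceSub]
        omega
      · rw [if_neg h5]

theorem rotw_lo {m k i : ℕ} (w : ℕ → ℤ × ℤ) (h : i + k ≤ m) : rotw m k w i = w (i + k) := if_pos h

theorem rotw_hi {F : Set (ℤ × ℤ)} {m k i : ℕ} {w : ℕ → ℤ × ℤ} (hw : Ctr F m w) (h : m ≤ i + k) :
    rotw m k w i = w (i + k - m) := by
  unfold rotw
  split_ifs with h1
  · have : i + k = m := by omega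
    rw [this, Nat.sub_self, hw.close]
  · rfl

/-- The vertices of the rotated arcs. -/
theorem av_rot0 {m k3 : ℕ} (w : ℕ → ℤ × ℤ) (h3 : k3 ≤ m) :
    av (rotw m k3 w) 0 (m - k3) = av w k3 m := by
  ext v
  constructor
  · rintro ⟨i, -, h1, rfl⟩
    rw [rotw_lo w (by omega)]
    exact ⟨i + k3, by omega, by omega, rfl⟩
  · rintro ⟨i, h1, h2, rfl⟩
    refine ⟨i - k3, Nat.zero_le _, by omega, ?_⟩
    rw [rotw_lo w (by omega), Nat.sub_add_cancel h1]

theorem av_rot1 {F : Set (ℤ × ℤ)} {m k3 x y : ℕ} {w : ℕ → ℤ × ℤ} (hw : Ctr F m w) (h3 : k3 ≤ m) :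
    av (rotw m k3 w) (m - k3 + x) (m - k3 + y) = av w x y := by
  ext v
  constructor
  · rintro ⟨i, h1, h2, rfl⟩
    rw [rotw_hi hw (by omega)]
    exact ⟨i + k3 - m, by omega, by omega, rfl⟩
  · rintro ⟨i, h1, h2, rfl⟩
    refine ⟨m - k3 + i, by omega, by omega, ?_⟩
    rw [rotw_hi hw (by omega)]
    congr 1; omega

/-- Symmetric form of `HD`. -/
theorem HD_sets {c : ℤ} {U : Finset (ℤ × ℤ)} {w : ℕ → ℤ × ℤ} {a0 a1 b0 b1 : ℕ} {ρ : ℤ} :
    HD c U w a0 a1 b0 b1 ρ ↔ ∀ (ω : Cfg) (z : ℤ × ℤ), ω ∉ XS c ((U : Set (ℤ × ℤ)) ∩ RFb z ρ)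
      (av w a0 a1) (av w b0 b1) := by
  constructor
  · rintro h ω z ⟨u, ⟨i, h1, h2, rfl⟩, v, ⟨k, h3, h4, rfl⟩, h5, h6⟩
    exact h ω z i k h1 h2 h3 h4 h5 h6
  · intro h ω z i k h1 h2 h3 h4 h5 h6
    exact h ω z ⟨w i, ⟨i, h1, h2, rfl⟩, w k, ⟨k, h3, h4, rfl⟩, h5, h6⟩

/-- The sides of the contour interval `[l j, l (j + 1))`. -/
def sideS (g : ℕ → ℤ × ℤ) (l : ℕ → ℕ) (j : ℕ) : Set UE :=
  {e | ∃ i, l j ≤ i ∧ i < l (j + 1) ∧ Joins e (g i) (g (i + 1))}

theorem eV_sideS {P : Finset (ℤ × ℤ)} {m' : ℕ} {g : ℕ → ℤ × ℤ} (hP : Ctr (P : Set (ℤ × ℤ)) m' g)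
    {l : ℕ → ℕ} (l4 : l 4 = m') (hl : Monotone l) {j : ℕ} (hj : j < 4) (hlt : l j < l (j + 1)) :
    eV P (sideS g l j) = av g (l j) (l (j + 1)) := by
  have : l (j + 1) ≤ m' := by rw [← l4]; exact hl (by omega)
  exact (av_eq_eV hP hlt this).symm

/-- The label condition for contours. -/
def LabC {ι : Type*} (T P : Finset (ℤ × ℤ)) (κ : ℤ × ℤ → ι) (m : ℕ) (w : ℕ → ℤ × ℤ) (k : ℕ → ℕ)
    (m' : ℕ) (g : ℕ → ℤ × ℤ) (l : ℕ → ℕ) (a : ℤ × ℤ) (s : ℤ) : Prop :=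
  ∀ (i i' : ℕ) (e e' : UE), i < m' → i' < m → Joins e (g i) (g (i + 1)) →
    Joins e' (w i') (w (i' + 1)) → LinkC T P κ e e' → ¬ InB a s (ua e) →
    lab (l 1) (l 2) (l 3) i = lab (k 1) (k 2) (k 3) i'

theorem arc_of_lab {l : ℕ → ℕ} {m' : ℕ} (l0 : l 0 = 0) (l4 : l 4 = m') (hl : Monotone l) {i j : ℕ}
    (hi : i < m') (hj : lab (l 1) (l 2) (l 3) i = j) : l j ≤ i ∧ i < l (j + 1) := by
  obtain ⟨j', hj', h1, h2⟩ := exists_arc_of l0 l4 hi
  have := lab_of_arc hl hj' h1 h2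
  rw [hj] at this
  subst this
  exact ⟨h1, h2⟩

theorem labOK_of_labC {ι : Type*} {T P : Finset (ℤ × ℤ)} {κ : ℤ × ℤ → ι} {m : ℕ}
    {w : ℕ → ℤ × ℤ} {k : ℕ → ℕ} {m' : ℕ} {g : ℕ → ℤ × ℤ} {l : ℕ → ℕ} {a : ℤ × ℤ} {s : ℤ}
    (hP : Ctr (P : Set (ℤ × ℤ)) m' g) (k4 : k 4 = m) (hk : Monotone k)
    (l0 : l 0 = 0) (l4 : l 4 = m') (hl : Monotone l) (h : LabC T P κ m w k m' g l a s) :
    LabOK T P κ w k (sideS g l) a s := by
  intro e e' i' j he hlink hj' h1 h2 hj ha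
  have hi' : i' < m := by
    have : k (j + 1) ≤ m := by rw [← k4]; exact hk (by omega)
    omega
  obtain ⟨i, hi, hji⟩ := hP.all e he
  have h3 := h i i' e e' hi hi' hji hj' hlink ha
  rw [lab_of_arc hk hj h1 h2] at h3
  have h4 := arc_of_lab l0 l4 hl hi h3
  refine ⟨⟨i, h4.1, h4.2, hji⟩, ?_⟩
  rintro j' hj'4 hne ⟨i2, g1, g2, g3⟩
  have hi2 : i2 < m' := by
    have : l (j' + 1) ≤ m' := by rw [← l4]; exact hl (by omega)
    omega
  have : i = i2 := hP.inj i hi i2 hi2 e hji g3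
  subst this
  have h5 := lab_of_arc hl hj'4 g1 g2
  omega

/-- The rotated label condition. -/
theorem labOK_rot {ι : Type*} {T P : Finset (ℤ × ℤ)} {κ : ℤ × ℤ → ι} {m : ℕ}
    {w : ℕ → ℤ × ℤ} {k : ℕ → ℕ} {E : ℕ → Set UE} {a : ℤ × ℤ} {s : ℤ}
    (hT : Ctr (T : Set (ℤ × ℤ)) m w) (k0 : k 0 = 0) (k4 : k 4 = m) (hk : Monotone k)
    (h : LabOK T P κ w k E a s) :
    LabOK T P κ (rotw m (k 3) w) (krot m k) (fun j => E ((j + 3) % 4)) a s := by
  have h3m : k 3 ≤ m := by rw [← k4]; exact hk (by omega)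
  have h01 := hk (show 0 ≤ 1 by omega)
  have h12 := hk (show 1 ≤ 2 by omega)
  have h23 := hk (show 2 ≤ 3 by omega)
  intro e e' i j he hlink hj' h1 h2 hj ha
  have hi : i < m := by
    have : krot m k (j + 1) ≤ krot m k 4 := krot_mono k0 k4 hk (by omega)
    have e4 : krot m k 4 = m := by unfold krot; simp
    omega
  obtain ⟨r1, r2⟩ := rotw_unr hT (k := k 3) h3m hi
  rw [r1, r2] at hj'
  have key : k ((j + 3) % 4) ≤ unr m (k 3) i ∧ unr m (k 3) i < k ((j + 3) % 4 + 1) := by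
    have hu := (unr_spec (k := k 3) h3m hi).2
    have hjc : j = 0 ∨ j = 1 ∨ j = 2 ∨ j = 3 := by omega
    unfold krot at h1 h2
    rcases hjc with rfl | rfl | rfl | rfl
    · simp at h1 h2
      simp only [Nat.reduceAdd, Nat.reduceMod]
      omega
    · simp at h1 h2
      simp only [Nat.reduceAdd, Nat.reduceMod, zero_add]
      omega
    · simp at h1 h2
      simp only [Nat.reduceAdd, Nat.reduceMod]
      omega
    · simp at h1 h2
      simp only [Nat.reduceAdd, Nat.reduceMod]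
      omega
  obtain ⟨g1, g2⟩ := h e e' _ _ he hlink hj' key.1 key.2 (Nat.mod_lt _ (by omega)) ha
  refine ⟨g1, fun j' hj'4 hne => g2 _ (Nat.mod_lt _ (by omega)) ?_⟩
  omega

/-- **TRANSFER**, contours on both sides. -/
theorem transfer_ctr : ∃ C α : ℝ, 0 < C ∧ 0 < α ∧ ∀ {ι : Type} (T P : Finset (ℤ × ℤ))
    (κ : ℤ × ℤ → ι) (d : ℤ) (m : ℕ) (w : ℕ → ℤ × ℤ) (k : ℕ → ℕ) (m' : ℕ) (g : ℕ → ℤ × ℤ)
    (l : ℕ → ℕ),
    Ctr (T : Set (ℤ × ℤ)) m w → Ctr (P : Set (ℤ × ℤ)) m' g → P ⊆ T →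
    (∀ f ∈ P, ∀ g ∈ P, Chn (P : Set (ℤ × ℤ)) f g) →
    (∀ x y, κ x = κ y → x ∈ P → y ∈ P) → (∀ x y, κ x = κ y → Chn {z | κ z = κ x} x y) →
    (∀ x y, κ x = κ y → |x.1 - y.1| < d ∧ |x.2 - y.2| < d) →
    (∀ f ∈ P, ∀ g, Adj f g → g ∉ P → ∃ x, κ x = κ g ∧ x ∉ T) →
    k 0 = 0 → k 4 = m → Monotone k → l 0 = 0 → l 4 = m' → Monotone l →
    ∀ (a : ℤ × ℤ) (s ρ₀ ρ : ℤ) (c : ℤ), (c = 0 ∨ c = 1) → 0 ≤ s → 0 < ρ₀ → s + d + 2 < ρ →
    LabC T P κ m w k m' g l a s →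
    (∀ j < 4, ∃ i, l j ≤ i ∧ i < l (j + 1) ∧ ¬ InB a (s + 1) (g i)) →
    (((∀ i, k 2 ≤ i → i ≤ k 3 → ¬ InB a (ρ + d + 2) (w i)) ∧
        ∀ i, l 2 ≤ i → i ≤ l 3 → ¬ InB a (ρ + 1) (g i)) ∨
      ((∀ i, k 1 ≤ i → i ≤ k 2 → ¬ InB a (ρ + d + 2) (w i)) ∧
        ∀ i, l 1 ≤ i → i ≤ l 2 → ¬ InB a (ρ + 1) (g i))) →
    (HD c T w 0 (k 1) (k 2) (k 3) ρ₀ ∨ HD (1 - c) T w (k 1) (k 2) (k 3) m ρ₀) →
    |pr P (XA c P g 0 (l 1) (l 2) (l 3)) - pr T (XA c T w 0 (k 1) (k 2) (k 3))| ≤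
      C * ((d + 1 : ℝ) / ρ₀) ^ α + C * ((s + 1 : ℝ) / ρ) ^ α := by
  obtain ⟨C, α, hC, hα, htr⟩ := transfer
  refine ⟨C, α, hC, hα, ?_⟩
  intro ι T P κ d m w k m' g l hT hP hPT hcon hsat hcell hdiam hnot k0 k4 hk l0 l4 hl a s ρ₀ ρ c hc
    hs hρ₀ hsρ hlab hne hfar hHD
  have hLab := labOK_of_labC hP k4 hk l0 l4 hl hlab
  have hnon : ∀ j < 4, l j < l (j + 1) := by
    intro j hj
    obtain ⟨i, h1, h2, -⟩ := hne j hj
    omega
  have hlm : ∀ j ≤ 4, l j ≤ m' := by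
    intro j hj
    rw [← l4]
    exact hl hj
  have k12 := hk (show 1 ≤ 2 by omega)
  have k23 := hk (show 2 ≤ 3 by omega)
  have k3m : k 3 ≤ m := by rw [← k4]; exact hk (by omega)
  have l01 := hnon 0 (by omega)
  have l12 := hnon 1 (by omega)
  have l23 := hnon 2 (by omega)
  have l34 := hnon 3 (by omega)
  simp only [zero_add, Nat.reduceAdd] at l01 l12 l23 l34
  rw [l0] at l01
  rw [l4] at l34
  have e0 : eV P (sideS g l 0) = av g 0 (l 1) := by
    rw [eV_sideS hP l4 hl (show 0 < 4 by omega) (hnon 0 (by omega)), l0]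
  have e1 : eV P (sideS g l 1) = av g (l 1) (l 2) :=
    eV_sideS hP l4 hl (show 1 < 4 by omega) (hnon 1 (by omega))
  have e2 : eV P (sideS g l 2) = av g (l 2) (l 3) :=
    eV_sideS hP l4 hl (show 2 < 4 by omega) (hnon 2 (by omega))
  have e3 : eV P (sideS g l 3) = av g (l 3) m' := by
    rw [eV_sideS hP l4 hl (show 3 < 4 by omega) (hnon 3 (by omega)), l4]
  -- sides away from the tip
  have hne' : ∀ j < 4, ∃ e ∈ sideS g l j, BdU (P : Set (ℤ × ℤ)) e ∧ ¬ InB a s (ua e) := by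
    intro j hj
    obtain ⟨i, h1, h2, h3⟩ := hne j hj
    obtain ⟨e, he, hje⟩ := hP.step i (by have := hlm (j + 1) (by omega); omega)
    refine ⟨e, ⟨i, h1, h2, hje⟩, he, fun hin => h3 ?_⟩
    have h4 := (ua_near hje).1
    unfold InB at *
    omega
  rcases hfar with ⟨f1, f2⟩ | ⟨f1, f2⟩
  · have hmain := htr T P κ d m w k m' g hT hP hPT hcon hsat hcell hdiam hnot k0 k4 hk (sideS g l) a s
      ρ₀ ρ c hc hs hρ₀ hsρ hLab hne' f1 (by
        rintro e ⟨i, h1, h2, hje⟩ he hin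
        simp only [Nat.reduceAdd] at h2
        rcases (ends_joins hje (Or.inl rfl)) with h4 | h4
        · exact f2 i h1 (by omega) (h4 ▸ hin)
        · exact f2 (i + 1) (by omega) (by omega) (h4 ▸ hin)) hHD
    rw [e0, e2, ← XA_eq_XS] at hmain
    exact hmain
  · -- rotate by three arcs
    have q0 : krot m k 0 = 0 := by simp [krot]
    have q1 : krot m k 1 = m - k 3 := by simp [krot, k0]
    have q2 : krot m k 2 = m - k 3 + k 1 := by simp [krot]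
    have q3 : krot m k 3 = m - k 3 + k 2 := by simp [krot]
    have q4 : krot m k 4 = m := by simp [krot]
    have hHD' : HD (1 - c) T (rotw m (k 3) w) 0 (krot m k 1) (krot m k 2) (krot m k 3) ρ₀ ∨
        HD (1 - (1 - c)) T (rotw m (k 3) w) (krot m k 1) (krot m k 2) (krot m k 3) m ρ₀ := by
      rw [q1, q2, q3, HD_sets, HD_sets, av_rot0 w k3m, av_rot1 hT k3m]
      have c2 : 1 - (1 - c) = c := by omega
      have v0 : av (rotw m (k 3) w) (m - k 3) (m - k 3 + k 1) = av w 0 (k 1) := by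
        have := av_rot1 (x := 0) (y := k 1) hT k3m
        simpa using this
      have v2 : av (rotw m (k 3) w) (m - k 3 + k 2) m = av w (k 2) (k 3) := by
        have := av_rot1 (x := k 2) (y := k 3) hT k3m
        rwa [Nat.sub_add_cancel k3m] at this
      rw [c2, v0, v2]
      rcases hHD with h | h
      · right
        rw [HD_sets] at h
        exact h
      · left
        rw [HD_sets] at h
        intro ω z
        rw [XS_symm]
        exact h ω z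
    have hmain := htr T P κ d m (rotw m (k 3) w) (krot m k) m' g (ctr_rot hT k3m) hP hPT hcon hsat
      hcell hdiam hnot q0 q4 (krot_mono k0 k4 hk) (fun j => sideS g l ((j + 3) % 4)) a s
      ρ₀ ρ (1 - c) (by omega) hs hρ₀ hsρ (labOK_rot hT k0 k4 hk hLab)
      (fun j _ => hne' ((j + 3) % 4) (Nat.mod_lt _ (by omega))) (by
        rw [q2, q3]
        intro i h1 h2
        rw [rotw_hi hT (by omega)]
        exact f1 _ (by omega) (by omega)) (by
        rintro e ⟨i, h1, h2, hje⟩ he hin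
        simp only [Nat.reduceAdd, Nat.reduceMod] at h1 h2
        rcases (ends_joins hje (Or.inl rfl)) with h4 | h4
        · exact f2 i h1 (by omega) (h4 ▸ hin)
        · exact f2 (i + 1) (by omega) (by omega) (h4 ▸ hin)) hHD'
    simp only [Nat.reduceAdd, Nat.reduceMod] at hmain
    rw [e3, e1, q1, q2, q3, XA_eq_XS, av_rot0 w k3m, av_rot1 hT k3m,
      XS_symm, XS_symm (1 - c) (T : Set (ℤ × ℤ)), ← XA_eq_XS, ← XA_eq_XS,
      XA_compl hP l12.le l23.le l34.le hc, XA_compl hT k12 k23 k3m hc, pr_compl, pr_compl] at hmain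
    rw [abs_le] at hmain ⊢
    constructor <;> linarith

end Pool.Agent.SixB.LC
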