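import Pool.Agent.Lib.SixB.S8ExitW

/-!
# Step 8: the walls of the fresh region

* `vs_corner`: if a visited face carries the diagonal of the colour `c` then its corners of parity `c` are
  joined in the visited faces to the end of colour `c` of the last unit edge of the path.
* `tipDom_of_labels`: the data `TipDom` from labels of the sides: the outer face of a side of the right
  wall is an old face with the diagonal of the colour `c`, of a side of the left wall an old face with the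
  other diagonal. Old faces are the visited faces and two base sets.
-/

set_option autoImplicit false

namespace Pool.Agent.SixB

open Finset Pool.Agent.Perc Pool.Agent.Perc6

variable {ω : Cfg} {c : ℤ} {e : UE} {s t : ℕ}

/-- The end of colour `c` of a side of a face is a corner of the face. -/
theorem isCor_en {g : ℤ × ℤ} {a : UE} (h : IsSide g a) (c : ℤ) : IsCor g (en c a) := by
  rcases en_or c a with h1 | h1 <;> rw [h1]
  · exact PotB.cor_ua h
  · exact PotB.cor_ub h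

/-- Corners of visited faces. -/
theorem vs_corner (hc : c = 0 ∨ c = 1) {g v : ℤ × ℤ} (hg : g ∈ vs ω e s t) (hω : ω g = !parD c g)
    (hv : IsCor g v) (hp : par v = c) :
    Conn ω (vs ω e s t : Set (ℤ × ℤ)) v (en c (pth ω e t)) := by
  obtain ⟨i, hi1, hi2, rfl⟩ := mem_vs.1 hg
  have h1 : Conn ω (vs ω e s t : Set (ℤ × ℤ)) v (en c (pth ω e i)) :=
    solid_face (Finset.mem_coe.2 hg) hω hv (isCor_en (isSide_fa _) c) hp (par_en hc _)
  exact conn_trans h1 ((conn_pth_vs hc hi2.le).mono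
    (Finset.coe_subset.2 (vs_mono hi1 le_rfl)))

theorem not_parD_flip (hc : c = 0 ∨ c = 1) (g : ℤ × ℤ) : parD c g = !parD (1 - c) g := by
  unfold parD
  rcases hc with rfl | rfl
  · by_cases h : (g.1 + g.2 - 0) % 2 = 0
    · rw [decide_eq_false (by simpa using h), decide_eq_true (by omega)]; rfl
    · rw [decide_eq_true (by simpa using h), decide_eq_false (by omega)]; rfl
  · by_cases h : (g.1 + g.2 - 1) % 2 = 0
    · rw [decide_eq_false (by simpa using h), decide_eq_true (by omega)]; rfl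
    · rw [decide_eq_true (by simpa using h), decide_eq_false (by omega)]; rfl

/-- Corners of visited faces, other colour. -/
theorem vs_corner' (hc : c = 0 ∨ c = 1) {g v : ℤ × ℤ} (hg : g ∈ vs ω e s t) (hω : ω g = parD c g)
    (hv : IsCor g v) (hp : par v ≠ c) :
    Conn ω (vs ω e s t : Set (ℤ × ℤ)) v (en (1 - c) (pth ω e t)) := by
  have h1 := par_cases v
  exact vs_corner (c := 1 - c) (by omega) hg (by rw [hω, not_parD_flip hc]) hv (by omega)

/-- The data `TipDom` from labels. `e` is the start of the strand, `t` the time of the first entrance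
into `T`. -/
theorem tipDom_of_labels (hc : c = 0 ∨ c = 1) {R U Be Bo : Set (ℤ × ℤ)} {T : Finset (ℤ × ℤ)}
    {m : ℕ} {w : ℕ → ℤ × ℤ} {k₁ k₃ : ℕ} (hR : HasPot R) (UR : U ⊆ R)
    (TU : (T : Set (ℤ × ℤ)) ⊆ U) (cT : Top.EConn (T : Set (ℤ × ℤ)))
    (ctr : Ctr (T : Set (ℤ × ℤ)) m w) (h1 : 1 ≤ k₁) (h13 : k₁ ≤ k₃) (h3 : k₃ ≤ m)
    (tip : Joins (pth ω e t) (w 0) (w 1)) (parc : par (w 1) = c)
    (faT : fa (pth ω e t) ∈ T) (fbU : fb (pth ω e t) ∉ U)
    (hvR : ∀ g ∈ vs ω e 0 t, g ∈ R ∧ g ∉ T)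
    (hBe : Be ⊆ R \ T) (hBo : Bo ⊆ R \ T)
    (cBe : ∀ v ∈ CorC c Be, Conn ω Be v (en c e))
    (cBo : ∀ v ∈ CorC (1 - c) Bo, Conn ω Bo v (en (1 - c) e))
    (cut : ∀ i, k₁ ≤ i → i < k₃ → ∀ s g, Joins s (w i) (w (i + 1)) → IsSide g s → g ∈ U)
    (lb : ∀ i, 1 ≤ i → i < k₁ → ∃ y g, Joins y (w i) (w (i + 1)) ∧ IsSide g y ∧
      (g ∈ Be ∨ (g ∈ vs ω e 0 t ∧ ω g = !parD c g)))
    (ll : ∀ i, k₃ ≤ i → i < m → ∃ y g, Joins y (w i) (w (i + 1)) ∧ IsSide g y ∧
      (g ∈ Bo ∨ (g ∈ vs ω e 0 t ∧ ω g = parD c g)))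
    (q : ∃ i y g g' z, k₁ ≤ i ∧ i < k₃ ∧ Joins y (w i) (w (i + 1)) ∧ IsSide g y ∧ g ∉ T ∧
      Relation.ReflTransGen (StepC (U \ T)ᶜ) g g' ∧ IsCor g' z ∧
      (Conn ω (R \ T) (w 1) z ∨ Conn ω (R \ T) (w 0) z)) :
    TipDom ω c R U T m w k₁ k₃ (pth ω e t) := by
  have hvs : (vs ω e 0 t : Set (ℤ × ℤ)) ⊆ R \ T := fun g hg =>
    ⟨(hvR g (Finset.mem_coe.1 hg)).1, fun h => (hvR g (Finset.mem_coe.1 hg)).2 (Finset.mem_coe.1 h)⟩
  have e1 : en c (pth ω e t) = w 1 := en_joins tip.symm parc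
  have p0 : par (w 0) = 1 - c := by
    have h2 := tip.par_ne
    have h4 := par_cases (w 0)
    omega
  have e0 : en (1 - c) (pth ω e t) = w 0 := en_joins tip p0
  have hc' : (1 - c) = 0 ∨ (1 - c) = 1 := by omega
  have hs1 : Conn ω (R \ T) (en c e) (w 1) := by
    rw [← e1]
    exact (conn_pth_vs (e := e) hc (Nat.zero_le t)).mono hvs
  have hs0 : Conn ω (R \ T) (en (1 - c) e) (w 0) := by
    rw [← e0]
    exact (conn_pth_vs (e := e) hc' (Nat.zero_le t)).mono hvs
  have hcor : ∀ {y : UE} {g p q : ℤ × ℤ}, Joins y p q → IsSide g y → IsCor g p ∧ IsCor g q := by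
    intro y g p q hj hg
    rcases hj with ⟨rfl, rfl⟩ | ⟨rfl, rfl⟩
    · exact ⟨PotB.cor_ua hg, PotB.cor_ub hg⟩
    · exact ⟨PotB.cor_ub hg, PotB.cor_ua hg⟩
  refine ⟨hR, UR, TU, cT, ctr, h1, h13, h3, tip, faT, fbU, parc, cut, ?_, ?_, q⟩
  · intro i hi1 hi2 y hy hp
    obtain ⟨s, g, hj, hg, hgo⟩ := lb i hi1 hi2
    obtain ⟨c1, c2⟩ := hcor hj hg
    have cy : IsCor g (w y) := by rcases hy with rfl | rfl <;> assumption
    rcases hgo with hgo | ⟨hgo, hgω⟩
    · exact conn_trans (conn_symm hs1) (conn_symm ((cBe _ ⟨hp, g, hgo, cy⟩).mono hBe))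
    · rw [← e1]
      exact conn_symm ((vs_corner hc hgo hgω cy hp).mono hvs)
  · intro i hi1 hi2 y hy hp
    obtain ⟨s, g, hj, hg, hgo⟩ := ll i hi1 hi2
    obtain ⟨c1, c2⟩ := hcor hj hg
    have cy : IsCor g (w y) := by rcases hy with rfl | rfl <;> assumption
    have hp' : par (w y) = 1 - c := by
      have := par_cases (w y)
      omega
    rcases hgo with hgo | ⟨hgo, hgω⟩
    · exact conn_trans (conn_symm hs0) (conn_symm ((cBo _ ⟨hp', g, hgo, cy⟩).mono hBo))
    · rw [← e0]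
      exact conn_symm ((vs_corner' hc hgo hgω cy hp).mono hvs)

/-- In an edge connected base set of one colour the corners are joined. -/
theorem solid_econn (hc : c = 0 ∨ c = 1) {B : Set (ℤ × ℤ)} (hB : Top.EConn B)
    (hω : ∀ g ∈ B, ω g = !parD c g) : ∀ u ∈ CorC c B, ∀ v ∈ CorC c B, Conn ω B u v := by
  rintro u ⟨hu, f, hf, huf⟩ v ⟨hv, g, hg, hvg⟩
  have hch := hB f hf g hg
  clear hg
  induction hch generalizing v with
  | refl => exact solid_face hf (hω f hf) huf hvg hu hv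
  | @tail b d hbc hs ih =>
    obtain ⟨⟨-, y, h1, h2⟩, hd⟩ := hs
    exact conn_trans (ih (en c y) (par_en hc y) (isCor_en h1 c))
      (solid_face hd (hω d hd) (isCor_en h2 c) hvg (par_en hc y) hv)

end Pool.Agent.SixB
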