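import Pool.Agent.Lib.SixB.S8CloseK
import Pool.Agent.Lib.SixB.S8TipIn
import Pool.Agent.Lib.SixB.S8Walls
import Pool.Agent.Lib.SixB.S8Trans2

/-!
# Step 8: links of an inner approximation in the language of sides

* `App.dom`: an inner approximation `App U P κ d` of `U` by `P` gives an inner approximation of the
  true domain `T` of a move by its coarse domain `D = T ∩ P` (the faces of `P` are classes);
* `App.links`: a choice of links of the sides of `P` which respects alternation;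
* `LabD`: the true domain `T` and the coarse domain `D` of a move with the labels of the sides of `D` in
  terms of the labels of `U`; `LabD.labb`, `LabD.labo`, `LabD.labc`: sides of `D` and of `T` which are
  linked belong to the same arc (right wall and cap, stop arc, left wall and cap), outside of a box
  around the coarse tip. No hypothesis on gates: the order of disjoint links is used;
* `labD_of_mvd`: the instance for the domains of `S8CloseK`.
-/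

set_option autoImplicit false

namespace Pool.Agent.SixB.Top

open Finset Pool.Agent.Perc Pool.Agent.Perc6 Pool.Agent.Perc6.C2Aux Pool.Agent.Perc.Tips

variable {ι : Type*} {U P T D : Set (ℤ × ℤ)} {κ : ℤ × ℤ → ι} {d : ℤ}

/-! ### The approximation of the domain of a move -/

open Classical in
/-- The classes for the domain of a move: the faces of `P` are classes. -/
noncomputable def subK (P : Set (ℤ × ℤ)) (κ : ℤ × ℤ → ι) (f : ℤ × ℤ) : (ℤ × ℤ) ⊕ ι :=
  if f ∈ P then Sum.inl f else Sum.inr (κ f)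

theorem subK_pos {f : ℤ × ℤ} (h : f ∈ P) : subK P κ f = Sum.inl f := if_pos h

theorem subK_neg {f : ℤ × ℤ} (h : f ∉ P) : subK P κ f = Sum.inr (κ f) := if_neg h

theorem subK_eq {f g : ℤ × ℤ} (h : subK P κ f = subK P κ g) : f = g ∨ (f ∉ P ∧ g ∉ P ∧ κ f = κ g) := by
  by_cases hf : f ∈ P <;> by_cases hg : g ∈ P
  · rw [subK_pos hf, subK_pos hg] at h
    exact Or.inl (Sum.inl.inj h)
  · rw [subK_pos hf, subK_neg hg] at h
    exact absurd h (by simp)
  · rw [subK_neg hf, subK_pos hg] at h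
    exact absurd h (by simp)
  · rw [subK_neg hf, subK_neg hg] at h
    exact Or.inr ⟨hf, hg, Sum.inr.inj h⟩

/-- **The approximation of the true domain `T` of a move by the coarse domain `D`.** -/
theorem _root_.Pool.Agent.SixB.App.dom (h : App U P κ d) (hDT : D ⊆ T) (hTU : T ⊆ U)
    (hTP : ∀ f ∈ T, f ∈ P → f ∈ D) (hDP : D ⊆ P) : App T D (subK P κ) d := by
  refine ⟨hDT, ?_, ?_, ?_, ?_⟩
  · intro x y hxy hx
    rcases subK_eq hxy with rfl | ⟨h1, -, -⟩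
    · exact hx
    · exact absurd (hDP hx) h1
  · intro x y hxy
    rcases subK_eq hxy with rfl | ⟨h1, h2, h3⟩
    · exact ⟨rfl, Relation.ReflTransGen.refl⟩
    · refine chn_mono_app ?_ (h.cell x y h3)
      intro z hz
      have hz' : κ z = κ x := hz
      have h4 : z ∉ P := fun hzP => h1 (h.sat z x hz' hzP)
      show subK P κ z = subK P κ x
      rw [subK_neg h4, subK_neg h1, hz']
  · intro x y hxy
    rcases subK_eq hxy with rfl | ⟨h1, h2, h3⟩
    · exact h.diam x x rfl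
    · exact h.diam x y h3
  · intro f hf g hfg hg
    by_cases hgP : g ∈ P
    · exact ⟨g, rfl, fun hgT => hg (hTP g hgT hgP)⟩
    · obtain ⟨x, hx1, hx2⟩ := h.out f (hDP hf) g hfg hgP
      have h4 : x ∉ P := fun hxP => hgP (h.sat x g hx1 hxP)
      refine ⟨x, ?_, fun hxT => hx2 (hTU hxT)⟩
      rw [subK_neg h4, subK_neg hgP, hx1]

/-- The side `C` of `U` is linked to the side `B` of `P`: the same side, or the class behind `B`
contains, in the component of the outer face, the face of `C`. -/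
def LinkK (U : Set (ℤ × ℤ)) (κ : ℤ × ℤ → ι) (B C : UE × Bool) : Prop :=
  B = C ∨ (ahead (rv B) ∈ U ∧ ahead C ∈ capC U κ (ahead (rv B)))

/-- A link in the domain of a move is a link in `U`. -/
theorem LinkK.up {B C : UE × Bool} (h : LinkK T (subK P κ) B C) (hTU : T ⊆ U) :
    LinkK U κ B C := by
  rcases h with h | ⟨h1, h2⟩
  · exact Or.inl h
  · refine Or.inr ⟨hTU h1, compT_mono ?_ h2⟩
    rintro x ⟨hx1, hx2⟩
    refine ⟨?_, hTU hx2⟩
    rcases subK_eq (show subK P κ x = subK P κ (ahead (rv B)) from hx1) with h3 | ⟨-, -, h3⟩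
    · rw [h3]; rfl
    · exact h3

theorem capC_le {g : ℤ × ℤ} (hg : g ∈ U) : capC U κ g ⊆ {x | κ x = κ g} ∩ U :=
  compT_sub ⟨rfl, hg⟩

/-- The cap behind a side of `P` does not meet `P`. -/
theorem _root_.Pool.Agent.SixB.App.cap_notMem (h : App U P κ d) {g x : ℤ × ℤ} (hg : g ∈ U)
    (hgP : g ∉ P) (hx : x ∈ capC U κ g) : x ∉ P := fun hxP =>
  hgP (h.sat x g (capC_le hg hx).1 hxP)

/-! ### A choice of links -/

theorem face_side {A : UE × Bool} {k : ℤ × ℤ} (hk : IsSide k A.1) :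
    k = ahead (rv A) ∨ k = ahead A :=
  side_two (adjF_ahead A).1 (isSide_ahead A.1 (!A.2)) (isSide_ahead A.1 A.2) hk

/-- **Links of the sides of `P` which respect alternation.** -/
theorem _root_.Pool.Agent.SixB.App.links (h : App U P κ d) {mU mP : ℕ} {AU AP : UE × Bool}
    (hAU : BD U AU) (hAP : BD P AP) (hcU : Ctr U mU fun i => lf ((sc U)^[i] AU))
    (hcP : Ctr P mP fun i => lf ((sc P)^[i] AP)) (hP : EConn P) :
    ∃ S : ℕ → ℕ, (∀ i < mP, S i < mU ∧ LinkK U κ ((sc P)^[i] AP) ((sc U)^[S i] AU)) ∧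
      ∀ i k l p, i < k → k < l → l < p → p < mP → S k ≠ S i → S k ≠ S l → S p ≠ S i → S p ≠ S l →
        (S i ∈ Ico (min (S k) (S p)) (max (S k) (S p)) ↔
          S l ∉ Ico (min (S k) (S p)) (max (S k) (S p))) := by
  classical
  obtain ⟨R, C, hRC, hdisj⟩ := exists_links (U := U) (P := P) h.sub κ h.sat
    (fun x y hxy => rtg_iff.1 (h.cell x y hxy).2)
    (fun f hf g hfg hg => h.out f hf g (adj_iff_adjFL.2 hfg) hg)
  have hE : ∀ i, BdU P ((sc P)^[i] AP).1 := fun i => (hAP.iterate i).bdU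
  have hjP : ∀ i, Joins ((sc P)^[i] AP).1 (lf ((sc P)^[i] AP)) (lf ((sc P)^[i + 1] AP)) := by
    intro i
    rw [Function.iterate_succ_apply', lf_sc]
    exact joins_lf_rg _
  have hjU : ∀ i, Joins ((sc U)^[i] AU).1 (lf ((sc U)^[i] AU)) (lf ((sc U)^[i + 1] AU)) := by
    intro i
    rw [Function.iterate_succ_apply', lf_sc]
    exact joins_lf_rg _
  have hS : ∀ i, ∃ s, s < mU ∧ ((sc U)^[s] AU).1 = R ((sc P)^[i] AP).1 := by
    intro i
    obtain ⟨s, hs, hj⟩ := hcU.all _ (hRC _ (hE i)).1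
    exact ⟨s, hs, Joins.uniq (hjU s) hj⟩
  choose S hS1 hS2 using hS
  refine ⟨S, fun i _ => ⟨hS1 i, ?_⟩, ?_⟩
  · -- the link
    have hl := (hRC _ (hE i)).2
    have hB := hAP.iterate i
    have hC := hAU.iterate (S i)
    set B := (sc P)^[i] AP with hBd
    set Q := (sc U)^[S i] AU with hQd
    have e := hS2 i
    rw [← hQd] at e
    by_cases hg : ahead (rv B) ∈ U
    · right
      refine ⟨hg, ?_⟩
      obtain ⟨f', Γ, hc⟩ := hl.cnx
      rcases hl.ends with ⟨-, h4⟩ | ⟨⟨g, hgC, hgs⟩, k, hk, hks⟩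
      · -- a common side
        exfalso
        have hQ : Q.1 = B.1 := by rw [e, ← h4]
        rcases face_side (A := Q) (by rw [hQ]; exact isSide_ahead B.1 (!B.2)) with h5 | h5
        · exact hC.2 (h5 ▸ hg)
        · rcases face_side (A := Q) (by rw [hQ]; exact isSide_ahead B.1 B.2) with h6 | h6
          · exact hC.2 (h6 ▸ h.sub hB.1)
          · exact (adjF_ahead B).1 (h5.trans h6.symm)
      · have hgB : g = ahead (rv B) := by
          rcases face_side hgs with h5 | h5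
          · exact h5
          · exact absurd (h5 ▸ hB.1 : g ∈ P) (hc.subP g hgC)
        have hkQ : k = ahead Q := by
          rw [← e] at hks
          rcases face_side hks with h5 | h5
          · exact absurd (hc.subU hk) (by rw [h5]; exact hC.2)
          · exact h5
        rw [← hkQ, ← hgB]
        have hch := hl.chain g hgC k hk
        have : ChI (C B.1) g k := by
          have e2 : (fun a b => AdjF a b ∧ b ∈ C B.1) = StepC (C B.1)ᶜ := by
            funext a b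
            simp only [StepC, Set.mem_compl_iff, not_not]
          unfold ChI
          rw [e2]
          exact hch
        have h9 : C B.1 ⊆ {x | κ x = κ g} ∩ U := fun x hx => ⟨hl.cell x hx g hgC, hc.subU hx⟩
        exact ChI.mono h9 this
    · left
      rcases hl.ends with ⟨-, h4⟩ | ⟨⟨g, hgC, hgs⟩, -⟩
      · have hQ : Q.1 = B.1 := by rw [e, ← h4]
        rcases face_side (A := B) (by rw [← hQ]; exact isSide_ahead Q.1 Q.2) with h5 | h5
        · exact absurd (h5 ▸ hC.1 : ahead (rv B) ∈ U) hg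
        · rcases Bool.eq_or_eq_not Q.2 B.2 with h7 | h7
          · exact (Prod.ext hQ h7).symm
          · exfalso
            have : rv B = Q := Prod.ext hQ.symm h7.symm
            exact hg (by rw [this]; exact hC.1)
      · exfalso
        obtain ⟨f', Γ, hc⟩ := hl.cnx
        rcases face_side hgs with h5 | h5
        · exact hg (h5 ▸ hc.subU hgC)
        · exact hc.subP g hgC (h5 ▸ hB.1)
  · intro i k l p hik hkl hlp hpm n1 n2 n3 n4
    have hRne : ∀ i j, S i ≠ S j → R ((sc P)^[i] AP).1 ≠ R ((sc P)^[j] AP).1 := by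
      intro i j hne he
      apply hne
      exact hcU.inj _ (hS1 i) _ (hS1 j) _ (hjU _) (by rw [hS2 i, he, ← hS2 j]; exact hjU _)
    obtain ⟨fi, Γi, ci⟩ := (hRC _ (hE i)).2.cnx
    obtain ⟨fk, Γk, ck⟩ := (hRC _ (hE k)).2.cnx
    obtain ⟨fl, Γl, cl⟩ := (hRC _ (hE l)).2.cnx
    obtain ⟨fp, Γp, cp⟩ := (hRC _ (hE p)).2.cnx
    have hcon' : ∀ f ∈ P, ∀ g ∈ P, Relation.ReflTransGen (StepC Pᶜ) f g := by
      intro f hf g hg
      have e2 : (fun a b => AdjF a b ∧ b ∈ P) = StepC Pᶜ := by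
        funext a b
        simp only [StepC, Set.mem_compl_iff, not_not]
      rw [← e2]
      exact hP f hf g hg
    exact (Cnx.sep hcU hcP h.sub hcon' hik hkl hlp hpm (hS1 i) (hS1 k) (hS1 l) (hS1 p)
      (hjP i) (hjP k) (hjP l) (hjP p) (by rw [← hS2 i]; exact hjU _) (by rw [← hS2 k]; exact hjU _)
      (by rw [← hS2 l]; exact hjU _) (by rw [← hS2 p]; exact hjU _) ci ck cl cp
      (hdisj _ _ (hE k) (hE i) (hRne k i n1)) (hdisj _ _ (hE k) (hE l) (hRne k l n2))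
      (hdisj _ _ (hE p) (hE i) (hRne p i n3)) (hdisj _ _ (hE p) (hE l) (hRne p l n4))
      n1 n2 n3 n4).2.2

/-! ### Gates -/

/-- A connected set of faces of `F` in the box gives a gate between corners of two of its faces. -/
theorem gate_of_econn {F S A B : Set (ℤ × ℤ)} {z f g a b : ℤ × ℤ} {R : ℤ} (hSF : S ⊆ F)
    (hbox : ∀ f ∈ S, f ∈ RFb z R) (hS : EConn S) (hf : f ∈ S) (hg : g ∈ S) (ha : a ∈ A)
    (hfa : IsCor f a) (hb : b ∈ B) (hgb : IsCor g b) : LC.Gate F A B z R := by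
  have hsub : S ⊆ F ∩ RFb z R := fun x hx => ⟨hSF hx, mem_coe.2 (hbox x hx)⟩
  have hc := par_cases b
  obtain ⟨v, hv, hvp⟩ : ∃ v, IsCor f v ∧ par v = par b := by
    obtain ⟨f1, f2⟩ := f
    rcases hc with h | h
    · by_cases h1 : par (f1, f2) = 0
      · exact ⟨(f1, f2), by simp [IsCor], by rw [h1, h]⟩
      · refine ⟨(f1 + 1, f2), by simp [IsCor], ?_⟩
        unfold par at *
        simp only at *
        omega
    · by_cases h1 : par (f1, f2) = 1
      · exact ⟨(f1, f2), by simp [IsCor], by rw [h1, h]⟩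
      · refine ⟨(f1 + 1, f2), by simp [IsCor], ?_⟩
        unfold par at *
        simp only at *
        omega
  refine ⟨fun _ => false, fun k => !parD (par b) k, f, a, v, hsub hf, hfa, hv,
    ⟨a, ha, Relation.ReflTransGen.refl⟩, b, hb, ?_⟩
  exact conn_mono hsub (solid_econn hc hS (fun _ _ => rfl) b ⟨rfl, g, hg, hgb⟩ v ⟨hvp, f, hf, hv⟩)

/-! ### The labels of the domain of a move -/

open Pool.Agent.SixB.Mv Pool.Agent.SixB.CloK

/-- A link of `S8Trans` between a side of `D` and a side of `T` is a link in the present sense. -/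
theorem linkK_of_linkC {ι' : Type*} {κ' : ℤ × ℤ → ι'} {Tf Df : Finset (ℤ × ℤ)}
    (hDT : (Df : Set (ℤ × ℤ)) ⊆ Tf) {B C : UE × Bool} (hB : BD (Df : Set (ℤ × ℤ)) B)
    (hC : BD (Tf : Set (ℤ × ℤ)) C) (h : LC.LinkC Tf Df κ' B.1 C.1) :
    LinkK (Tf : Set (ℤ × ℤ)) κ' B C := by
  rcases h with h | ⟨s, h1, h2, h3, ⟨f, hf, hfs⟩, g, hg, hgs⟩
  · left
    rcases face_side (A := C) (k := ahead B) (by rw [← h]; exact isSide_ahead B.1 B.2) with h5 | h5
    · exact absurd (h5 ▸ hDT hB.1) hC.2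
    · rcases Bool.eq_or_eq_not B.2 C.2 with h7 | h7
      · exact Prod.ext h h7
      · exfalso
        have h8 : rv C = B := Prod.ext h.symm h7.symm
        exact hC.2 (by rw [h8]; exact hDT hB.1)
  · right
    have hfB : f = ahead (rv B) := by
      rcases face_side hfs with h5 | h5
      · exact h5
      · exact absurd (Finset.mem_coe.1 hB.1) (h5 ▸ (h1 f hf).2)
    have hgC : g = ahead C := by
      rcases face_side hgs with h5 | h5
      · exact absurd (Finset.mem_coe.2 (h1 g hg).1) (by rw [h5]; exact hC.2)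
      · exact h5
    subst hfB
    subst hgC
    refine ⟨Finset.mem_coe.2 (h1 _ hf).1, ?_⟩
    have h9 : (s : Set (ℤ × ℤ)) ⊆ {x | κ' x = κ' (ahead (rv B))} ∩ (Tf : Set (ℤ × ℤ)) :=
      fun x hx => ⟨h2 x (Finset.mem_coe.1 hx) _ hf, Finset.mem_coe.2 (h1 x (Finset.mem_coe.1 hx)).1⟩
    exact ChI.mono h9 (chn_iff.1 (h3 _ hf _ hg)).2

/-- The cap of a face of the domain which is not in `P` is in the domain. -/
theorem capC_sub_T (app : App U P κ d) (TU : T ⊆ U) {gR gL : ℤ × ℤ}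
    (RT : ∀ f ∈ capK U κ gR, f ∉ T) (LT : ∀ f ∈ capK U κ gL, f ∉ T)
    (hcomp : ∀ t ∈ T, ∀ g, AdjF t g → g ∉ T → g ∉ U ∨ g ∈ P ∨ g ∈ capK U κ gR ∨ g ∈ capK U κ gL)
    {g : ℤ × ℤ} (hg : g ∈ T) (hgP : g ∉ P) : capC U κ g ⊆ T := by
  have hout : ∀ g', (∀ f ∈ capK U κ g', f ∉ T) → ∀ x ∈ capC U κ g, x ∉ capK U κ g' := by
    intro g' h1 x hx hx'
    have hxU := (capC_le (TU hg) hx).2
    obtain ⟨h2, h3⟩ := capK_mem_U hx' hxU
    have hk : κ g = κ g' := (capC_le (TU hg) hx).1.symm.trans (capC_le h2 h3).1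
    have e1 : compT ({x | κ x = κ g} ∩ U) x = compT ({x | κ x = κ g} ∩ U) g :=
      compT_eq ⟨rfl, TU hg⟩ hx
    have e2 : compT ({x | κ x = κ g'} ∩ U) x = compT ({x | κ x = κ g'} ∩ U) g' :=
      compT_eq ⟨rfl, h2⟩ h3
    refine h1 g (Or.inl ⟨h2, ?_⟩) hg
    have e3 : capC U κ g' = capC U κ g := by
      unfold capC
      rw [← e1, ← e2, hk]
    rw [e3]
    exact self_mem_compT
  intro y hy
  have hy' : ChI ({x | κ x = κ g} ∩ U) g y := hy
  induction hy' with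
  | refl => exact hg
  | @tail b c hb hs ih =>
    have hbT := ih hb
    by_contra hc
    have hcc : c ∈ capC U κ g := hb.tail hs
    rcases hcomp b hbT c hs.1 hc with h | h | h | h
    · exact h hs.2.2
    · exact hgP (app.sat c g hs.2.1 h)
    · exact hout _ RT _ hcc h
    · exact hout _ LT _ hcc h

/-- The geometry of a move: `A` is the true tip side, `B` the coarse tip side, `Tf` the true domain, `Df`
the coarse domain, in the class structure `App U P κ d`. -/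
structure LabG (U P : Set (ℤ × ℤ)) (Tf Df : Finset (ℤ × ℤ)) (κ : ℤ × ℤ → ι) (d : ℤ)
    (A B : UE × Bool) (N₁ N₂ m' mU M s t u K : ℕ) : Prop where
  app : App U P κ d
  DP : (Df : Set (ℤ × ℤ)) ⊆ P
  DT : (Df : Set (ℤ × ℤ)) ⊆ Tf
  TU : (Tf : Set (ℤ × ℤ)) ⊆ U
  cyc : Cyc (Df : Set (ℤ × ℤ)) B m'
  N0 : 0 < N₁
  N12 : N₁ < N₂
  N2 : N₂ < m'
  out : ∀ i < m', (outF (Df : Set (ℤ × ℤ)) B i ∈ P ↔ N₁ ≤ i ∧ i < N₂)
  lay : LayCap U (Tf : Set (ℤ × ℤ)) (Df : Set (ℤ × ℤ)) A B N₁ N₂ mU M s t u K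
    (capK U κ (outF (Df : Set (ℤ × ℤ)) B (N₁ - 1))) (capK U κ (outF (Df : Set (ℤ × ℤ)) B N₂))
  RT : ∀ f ∈ capK U κ (outF (Df : Set (ℤ × ℤ)) B (N₁ - 1)), f ∉ (Tf : Set (ℤ × ℤ))
  LT : ∀ f ∈ capK U κ (outF (Df : Set (ℤ × ℤ)) B N₂), f ∉ (Tf : Set (ℤ × ℤ))
  hcomp : ∀ t ∈ (Tf : Set (ℤ × ℤ)), ∀ g, AdjF t g → g ∉ (Tf : Set (ℤ × ℤ)) → g ∉ U ∨ g ∈ P ∨
    g ∈ capK U κ (outF (Df : Set (ℤ × ℤ)) B (N₁ - 1)) ∨ g ∈ capK U κ (outF (Df : Set (ℤ × ℤ)) B N₂)
  escT : Esc (Tf : Set (ℤ × ℤ))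
  ecD : EConn (Df : Set (ℤ × ℤ))

/-- The data for the labels, universal form. `x` is the index of the
target side of `U`. Outside of the box `B(a, σ)` around the coarse tip the sides of `D` before the stop
arc are linked to sides of `U` before `x` only, the sides of `D` after it to sides of `U` after `x`. -/
structure LabD (U P : Set (ℤ × ℤ)) (Tf Df : Finset (ℤ × ℤ)) (κ : ℤ × ℤ → ι) (d : ℤ)
    (A B : UE × Bool) (N₁ N₂ m' mU M s t u K x : ℕ) (a : ℤ × ℤ) (σ : ℤ) : Prop extends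
    LabG U P Tf Df κ d A B N₁ N₂ m' mU M s t u K where
  farR : ¬ LC.InB a σ (ua (side (Df : Set (ℤ × ℤ)) B (N₁ - 1)).1)
  farL : ¬ LC.InB a σ (ua (side (Df : Set (ℤ × ℤ)) B N₂).1)
  lb : ∀ i < N₁, ¬ LC.InB a σ (ua (side (Df : Set (ℤ × ℤ)) B i).1) → ∀ v < mU,
    LinkK U κ (side (Df : Set (ℤ × ℤ)) B i) (side U A v) → v < x
  ll : ∀ i, N₂ ≤ i → i < m' → ¬ LC.InB a σ (ua (side (Df : Set (ℤ × ℤ)) B i).1) → ∀ v < mU,
    LinkK U κ (side (Df : Set (ℤ × ℤ)) B i) (side U A v) → x ≤ v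
  sx : s < x
  xu : x ≤ u
  aB : a = lf B
  dσ : d ≤ σ

namespace LabG

variable {Tf Df : Finset (ℤ × ℤ)} {A B : UE × Bool} {N₁ N₂ m' mU M s t u K x : ℕ} {a : ℤ × ℤ}
  {σ : ℤ} (H : LabG U P Tf Df κ d A B N₁ N₂ m' mU M s t u K)

include H

theorem bdT (i : ℕ) : BD (Tf : Set (ℤ × ℤ)) (side (Tf : Set (ℤ × ℤ)) A i) :=
  bd_side H.lay.cycT.bd i

theorem bdP {i : ℕ} (hi : outF (Df : Set (ℤ × ℤ)) B i ∉ P) :
    BD P (side (Df : Set (ℤ × ℤ)) B i) := ⟨H.DP (bd_side H.cyc.bd i).1, hi⟩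

/-- The index in `U` of a side of `T` with outer face outside `U`. -/
theorem index_U {j v : ℕ} (hj : j < M) (hv : v < mU)
    (h : side (Tf : Set (ℤ × ℤ)) A j = side U A v) : (j ≤ s ∧ v = j) ∨ (t ≤ j ∧ v = u + (j - t)) := by
  have L := H.lay
  have h1 := L.len
  have h2 := L.le
  have h3 := L.su
  have h4 := L.st
  have hvB := bd_side L.cycU.bd v
  rcases (by omega : j ≤ s ∨ (s < j ∧ j < t) ∨ t ≤ j) with h5 | ⟨h5, h6⟩ | h5
  · left
    have h7 := L.fst j h5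
    rw [h] at h7
    exact ⟨h5, L.cycU.inj v hv j (by omega) h7⟩
  · exfalso
    have h7 := L.mid j h5 h6
    unfold outF at h7
    rw [h] at h7
    exact hvB.2 h7
  · right
    have h7 := L.lst (j - t) (by omega)
    rw [show t + (j - t) = j by omega, h] at h7
    exact ⟨h5, L.cycU.inj v hv _ (by omega) h7⟩

/-- A side of `D` whose outer face is in `T` is linked to a common side of `T` and `U`. -/
theorem exists_T_side {i : ℕ} (hi : outF (Df : Set (ℤ × ℤ)) B i ∈ (Tf : Set (ℤ × ℤ)))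
    (hiP : outF (Df : Set (ℤ × ℤ)) B i ∉ P)
    {Lab : ℕ → Prop} (hLab : ∀ v < mU, LinkK U κ (side (Df : Set (ℤ × ℤ)) B i) (side U A v) → Lab v) :
    ∃ j < M, inF (Tf : Set (ℤ × ℤ)) A j ∈ capC U κ (outF (Df : Set (ℤ × ℤ)) B i) ∧
      ((j ≤ s ∧ Lab j) ∨ (t ≤ j ∧ Lab (u + (j - t)))) := by
  obtain ⟨C, hC, hl⟩ := exists_linkU H.app (H.bdP hiP)
  obtain ⟨v, hv, rfl⟩ := H.lay.cycU.exists_index hC
  have hLv := hLab v hv hl
  rcases hl with hl | ⟨-, hl⟩
  · exfalso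
    have : outF (Df : Set (ℤ × ℤ)) B i = ahead (rv (side U A v)) := by unfold outF; rw [hl]
    exact hC.2 (this ▸ H.TU hi)
  · have hT := capC_sub_T H.app H.TU H.RT H.LT H.hcomp hi hiP hl
    obtain ⟨j, hj, hjC⟩ := H.lay.cycT.exists_index
      (show BD (Tf : Set (ℤ × ℤ)) (side U A v) from ⟨hT, fun h => hC.2 (H.TU h)⟩)
    refine ⟨j, hj, ?_, ?_⟩
    · unfold inF
      rw [hjC]
      exact hl
    · rcases H.index_U hj hv hjC with ⟨h1, h2⟩ | ⟨h1, h2⟩
      · exact Or.inl ⟨h1, h2 ▸ hLv⟩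
      · exact Or.inr ⟨h1, h2 ▸ hLv⟩

/-- The exit sides. -/
theorem exit_side {i : ℕ} (h1 : N₁ ≤ i) (h2 : i < N₂) :
    K + (i - N₁) < M ∧ side (Tf : Set (ℤ × ℤ)) A (K + (i - N₁)) = side (Df : Set (ℤ × ℤ)) B i := by
  have L := H.lay
  have h3 := L.Kt
  have h4 := L.le
  refine ⟨by omega, ?_⟩
  rw [L.arc _ (by omega), show N₁ + (i - N₁) = i by omega]

/-- **Exit sides are linked to themselves only.** -/
theorem link_exit {i i' : ℕ} (h1 : N₁ ≤ i) (h2 : i < N₂) (hi' : i' < M)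
    (hl : LinkK (Tf : Set (ℤ × ℤ)) (subK P κ) (side (Df : Set (ℤ × ℤ)) B i)
      (side (Tf : Set (ℤ × ℤ)) A i')) : i' = K + (i - N₁) := by
  obtain ⟨h3, h4⟩ := H.exit_side h1 h2
  rcases hl with hl | ⟨hl, -⟩
  · exact H.lay.cycT.inj _ hi' _ h3 (by rw [h4, hl])
  · exfalso
    rw [← h4] at hl
    exact (H.bdT _).2 hl

/-- A stop side of `T` is linked to one side of `D` only. -/
theorem link_stop {i i' : ℕ} (hi : i < m') (h1 : K ≤ i') (h2 : i' < K + (N₂ - N₁))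
    (hl : LinkK (Tf : Set (ℤ × ℤ)) (subK P κ) (side (Df : Set (ℤ × ℤ)) B i)
      (side (Tf : Set (ℤ × ℤ)) A i')) : i = N₁ + (i' - K) := by
  have h3 := H.N2
  have h4 : side (Tf : Set (ℤ × ℤ)) A i' = side (Df : Set (ℤ × ℤ)) B (N₁ + (i' - K)) := by
    have := H.lay.arc (i' - K) (by omega)
    rwa [show K + (i' - K) = i' by omega] at this
  rcases hl with hl | ⟨hg, hl⟩
  · exact H.cyc.inj _ hi _ (by omega) (by rw [hl, h4])
  · exfalso
    have h5 := (capC_le hg hl).1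
    have hD : ahead (side (Tf : Set (ℤ × ℤ)) A i') ∈ (Df : Set (ℤ × ℤ)) := by
      rw [h4]
      exact (bd_side H.cyc.bd _).1
    rcases subK_eq (show subK P κ _ = subK P κ _ from h5) with h6 | ⟨h6, -, -⟩
    · exact (bd_side H.cyc.bd i).2 (h6 ▸ hD)
    · exact h6 (H.DP hD)

/-- Two sides with outer faces in one cap are linked to one side of `U`. -/
theorem cap_link {i i₀ : ℕ} (hi₀ : outF (Df : Set (ℤ × ℤ)) B i₀ ∉ P)
    (hg : outF (Df : Set (ℤ × ℤ)) B i ∈ capK U κ (outF (Df : Set (ℤ × ℤ)) B i₀))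
    (hgU : outF (Df : Set (ℤ × ℤ)) B i ∈ U) :
    ∃ v < mU, LinkK U κ (side (Df : Set (ℤ × ℤ)) B i₀) (side U A v) ∧
      LinkK U κ (side (Df : Set (ℤ × ℤ)) B i) (side U A v) := by
  obtain ⟨h1, h2⟩ := capK_mem_U hg hgU
  obtain ⟨C, hC, hl⟩ := exists_linkU H.app (H.bdP hi₀)
  obtain ⟨v, hv, rfl⟩ := H.lay.cycU.exists_index hC
  refine ⟨v, hv, hl, ?_⟩
  rcases hl with hl | ⟨-, hl⟩
  · exfalso
    have : outF (Df : Set (ℤ × ℤ)) B i₀ = ahead (rv (side U A v)) := by unfold outF; rw [hl]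
    exact hC.2 (this ▸ h1)
  · refine Or.inr ⟨hgU, ?_⟩
    have h3 : κ (outF (Df : Set (ℤ × ℤ)) B i) = κ (outF (Df : Set (ℤ × ℤ)) B i₀) := (capC_le h1 h2).1
    have e1 : compT ({x | κ x = κ (outF (Df : Set (ℤ × ℤ)) B i₀)} ∩ U)
        (outF (Df : Set (ℤ × ℤ)) B i) = compT ({x | κ x = κ (outF (Df : Set (ℤ × ℤ)) B i₀)} ∩ U)
        (outF (Df : Set (ℤ × ℤ)) B i₀) := compT_eq ⟨rfl, h1⟩ h2
    show ahead (side U A v) ∈ compT ({x | κ x = κ (outF (Df : Set (ℤ × ℤ)) B i)} ∩ U)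
      (outF (Df : Set (ℤ × ℤ)) B i)
    rw [h3, e1]
    exact hl

/-- The gate of two linked sides. -/
theorem link_gate {i j j' : ℕ} (hi : outF (Df : Set (ℤ × ℤ)) B i ∈ (Tf : Set (ℤ × ℤ)))
    (hiP : outF (Df : Set (ℤ × ℤ)) B i ∉ P)
    (hj : inF (Tf : Set (ℤ × ℤ)) A j ∈ capC U κ (outF (Df : Set (ℤ × ℤ)) B i))
    (hj' : inF (Tf : Set (ℤ × ℤ)) A j' ∈ capC U κ (outF (Df : Set (ℤ × ℤ)) B i))
    {X Y : Set (ℤ × ℤ)} (hX : vert (Tf : Set (ℤ × ℤ)) A j ∈ X)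
    (hY : vert (Tf : Set (ℤ × ℤ)) A j' ∈ Y) :
    LC.Gate (Tf : Set (ℤ × ℤ)) X Y (ua (side (Df : Set (ℤ × ℤ)) B i).1) (d + 2) := by
  have hsub := capC_sub_T H.app H.TU H.RT H.LT H.hcomp hi hiP
  refine gate_of_econn hsub ?_ (econn_compT ⟨rfl, H.TU hi⟩) hj hj' hX
    (isCor_in_lf _) hY (isCor_in_lf _)
  intro f hf
  have h1 := (H.app.diam _ _ (capC_le (H.TU hi) hf).1)
  have h2 : IsCor (outF (Df : Set (ℤ × ℤ)) B i) (ua (side (Df : Set (ℤ × ℤ)) B i).1) :=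
    PotB.cor_ua (isSide_ahead _ _)
  rw [mem_RFb]
  obtain ⟨h3, h4⟩ := h1
  rw [abs_lt] at h3 h4
  unfold IsCor at h2
  omega

/-- A link inside the domain of a move, outer face in `T`. -/
theorem link_in {i i' : ℕ} (hi : outF (Df : Set (ℤ × ℤ)) B i ∈ (Tf : Set (ℤ × ℤ)))
    (hl : LinkK (Tf : Set (ℤ × ℤ)) (subK P κ) (side (Df : Set (ℤ × ℤ)) B i)
      (side (Tf : Set (ℤ × ℤ)) A i')) :
    inF (Tf : Set (ℤ × ℤ)) A i' ∈ capC U κ (outF (Df : Set (ℤ × ℤ)) B i) := by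
  rcases hl.up H.TU with h | ⟨-, h⟩
  · exfalso
    have : outF (Df : Set (ℤ × ℤ)) B i = ahead (rv (side (Tf : Set (ℤ × ℤ)) A i')) := by
      unfold outF; rw [h]
    exact (H.bdT i').2 (this ▸ hi)
  · exact h

omit H in
/-- A link inside the domain of a move, outer face not in `T`. -/
theorem link_eq {i i' : ℕ} (hi : outF (Df : Set (ℤ × ℤ)) B i ∉ (Tf : Set (ℤ × ℤ)))
    (hl : LinkK (Tf : Set (ℤ × ℤ)) (subK P κ) (side (Df : Set (ℤ × ℤ)) B i)
      (side (Tf : Set (ℤ × ℤ)) A i')) :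
    side (Df : Set (ℤ × ℤ)) B i = side (Tf : Set (ℤ × ℤ)) A i' := by
  rcases hl with h | ⟨h, -⟩
  · exact h
  · exact absurd h hi

theorem notP {i : ℕ} (hi : i < m') (h : i < N₁ ∨ N₂ ≤ i) : outF (Df : Set (ℤ × ℤ)) B i ∉ P := by
  intro hP
  have := (H.out i hi).1 hP
  omega

/-- Two sides with the same class are near each other. -/
theorem near {i j : ℕ} (h : κ (outF (Df : Set (ℤ × ℤ)) B i) = κ (outF (Df : Set (ℤ × ℤ)) B j)) :
    LC.InB (ua (side (Df : Set (ℤ × ℤ)) B j).1) d (ua (side (Df : Set (ℤ × ℤ)) B i).1) := by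
  obtain ⟨h3, h4⟩ := H.app.diam _ _ h
  have h1 : IsCor (outF (Df : Set (ℤ × ℤ)) B i) (ua (side (Df : Set (ℤ × ℤ)) B i).1) :=
    PotB.cor_ua (isSide_ahead _ _)
  have h2 : IsCor (outF (Df : Set (ℤ × ℤ)) B j) (ua (side (Df : Set (ℤ × ℤ)) B j).1) :=
    PotB.cor_ua (isSide_ahead _ _)
  rw [abs_lt] at h3 h4
  unfold IsCor at h1 h2
  unfold LC.InB
  omega

/-- The link of a side whose outer face is in `T`. -/
theorem lnk_in {i y : ℕ} (hi : outF (Df : Set (ℤ × ℤ)) B i ∈ (Tf : Set (ℤ × ℤ)))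
    (hiP : outF (Df : Set (ℤ × ℤ)) B i ∉ P)
    (hy : inF (Tf : Set (ℤ × ℤ)) A y ∈ capC U κ (outF (Df : Set (ℤ × ℤ)) B i)) :
    Lnk (Tf : Set (ℤ × ℤ)) (Df : Set (ℤ × ℤ)) (side (Df : Set (ℤ × ℤ)) B i)
      (side (Tf : Set (ℤ × ℤ)) A y) (capC U κ (outF (Df : Set (ℤ × ℤ)) B i)) where
  bdG := bd_side H.cyc.bd i
  bdF := H.bdT y
  sub f hf := ⟨capC_sub_T H.app H.TU H.RT H.LT H.hcomp hi hiP hf,
    fun hD => H.app.cap_notMem (H.TU hi) hiP hf (H.DP hD)⟩
  lnk := Or.inr ⟨self_mem_compT, compT_chain self_mem_compT hy⟩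

theorem lnk_eq {i y : ℕ} (h : side (Df : Set (ℤ × ℤ)) B i = side (Tf : Set (ℤ × ℤ)) A y) :
    Lnk (Tf : Set (ℤ × ℤ)) (Df : Set (ℤ × ℤ)) (side (Df : Set (ℤ × ℤ)) B i)
      (side (Tf : Set (ℤ × ℤ)) A y) ∅ where
  bdG := bd_side H.cyc.bd i
  bdF := H.bdT y
  sub _ hf := absurd hf (Set.notMem_empty _)
  lnk := Or.inl h

/-- The order of disjoint links, counted from the last stop side. -/
theorem order {i₁ i₂ y₁ y₂ : ℕ} {S₁ S₂ : Set (ℤ × ℤ)}
    (l₁ : Lnk (Tf : Set (ℤ × ℤ)) (Df : Set (ℤ × ℤ)) (side (Df : Set (ℤ × ℤ)) B i₁)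
      (side (Tf : Set (ℤ × ℤ)) A y₁) S₁)
    (l₂ : Lnk (Tf : Set (ℤ × ℤ)) (Df : Set (ℤ × ℤ)) (side (Df : Set (ℤ × ℤ)) B i₂)
      (side (Tf : Set (ℤ × ℤ)) A y₂) S₂) (hd : ∀ f ∈ S₁, f ∉ S₂) {a₁ a₂ b₁ b₂ : ℕ}
    (e₁ : N₂ - 1 + a₁ = i₁ ∨ N₂ - 1 + a₁ = i₁ + m') (e₂ : N₂ - 1 + a₂ = i₂ ∨ N₂ - 1 + a₂ = i₂ + m')
    (f₁ : K + (N₂ - N₁) - 1 + b₁ = y₁ ∨ K + (N₂ - N₁) - 1 + b₁ = y₁ + M)
    (f₂ : K + (N₂ - N₁) - 1 + b₂ = y₂ ∨ K + (N₂ - N₁) - 1 + b₂ = y₂ + M)
    (h : a₁ < a₂) (hm : a₂ < m') (hb₁ : b₁ < M) (hb₂ : b₂ < M) : b₁ < b₂ := by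
  have L := H.lay
  have h1 := H.N12
  have h2 := L.Kt
  have h3 := L.le
  have h0 := H.N0
  have hE : side (Tf : Set (ℤ × ℤ)) A (K + (N₂ - N₁) - 1) =
      side (Df : Set (ℤ × ℤ)) B (N₂ - 1) := by
    have := L.arc (N₂ - N₁ - 1) (by omega)
    rwa [show K + (N₂ - N₁ - 1) = K + (N₂ - N₁) - 1 by omega,
      show N₁ + (N₂ - N₁ - 1) = N₂ - 1 by omega] at this
  have hEG := bd_side H.cyc.bd (N₂ - 1)
  have hEF : BD (Tf : Set (ℤ × ℤ)) (side (Df : Set (ℤ × ℤ)) B (N₂ - 1)) := by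
    rw [← hE]; exact H.bdT _
  have pG : Per (Df : Set (ℤ × ℤ)) m' (side (Df : Set (ℤ × ℤ)) B (N₂ - 1)) :=
    (cycPer H.cyc).shift H.cyc.bd _
  have pF : Per (Tf : Set (ℤ × ℤ)) M (side (Df : Set (ℤ × ℤ)) B (N₂ - 1)) := by
    rw [← hE]; exact (cycPer L.cycT).shift L.cycT.bd _
  have gG : ∀ {n i : ℕ}, (N₂ - 1 + n = i ∨ N₂ - 1 + n = i + m') →
      (sc (Df : Set (ℤ × ℤ)))^[n] (side (Df : Set (ℤ × ℤ)) B (N₂ - 1)) =
        side (Df : Set (ℤ × ℤ)) B i := by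
    intro n i hn
    have e : (sc (Df : Set (ℤ × ℤ)))^[n] (side (Df : Set (ℤ × ℤ)) B (N₂ - 1)) =
      side (Df : Set (ℤ × ℤ)) B (N₂ - 1 + n) := (side_add _ _).symm
    rw [e]
    rcases hn with hn | hn
    · rw [hn]
    · rw [hn, Nat.add_comm i m', side_add, H.cyc.per]
  have gF : ∀ {n i : ℕ}, (K + (N₂ - N₁) - 1 + n = i ∨ K + (N₂ - N₁) - 1 + n = i + M) →
      (sc (Tf : Set (ℤ × ℤ)))^[n] (side (Df : Set (ℤ × ℤ)) B (N₂ - 1)) =
        side (Tf : Set (ℤ × ℤ)) A i := by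
    intro n i hn
    rw [← hE]
    have e : (sc (Tf : Set (ℤ × ℤ)))^[n] (side (Tf : Set (ℤ × ℤ)) A (K + (N₂ - N₁) - 1)) =
      side (Tf : Set (ℤ × ℤ)) A (K + (N₂ - N₁) - 1 + n) := (side_add _ _).symm
    rw [e]
    rcases hn with hn | hn
    · rw [hn]
    · rw [hn, Nat.add_comm i M, side_add, L.cycT.per]
  exact link_mono (Finset.finite_toSet Tf) H.escT H.DT H.ecD hEF hEG pF pG l₁ l₂ hd (gG e₁) (gG e₂)
    (gF f₁) (gF f₂) h hm hb₁ hb₂

/-- The coarse tip side has a link, to a common side of `T` and `U` or to a side at a cap. -/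
theorem exists_tip_link : ∃ y₀ < M, ∃ S₀, Lnk (Tf : Set (ℤ × ℤ)) (Df : Set (ℤ × ℤ))
    (side (Df : Set (ℤ × ℤ)) B 0) (side (Tf : Set (ℤ × ℤ)) A y₀) S₀ ∧
    (∀ f ∈ S₀, κ f = κ (outF (Df : Set (ℤ × ℤ)) B 0)) ∧
    (y₀ ≤ s ∨ t ≤ y₀ ∨ (y₀ < K ∨ K + (N₂ - N₁) ≤ y₀) ∧
      outF (Tf : Set (ℤ × ℤ)) A y₀ = outF (Df : Set (ℤ × ℤ)) B 0) := by
  have L := H.lay
  have h1 := H.N12
  have h2 := H.N2
  have h0 := H.N0
  have h0P := H.notP (i := 0) (by omega) (Or.inl h0)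
  by_cases hg : outF (Df : Set (ℤ × ℤ)) B 0 ∈ (Tf : Set (ℤ × ℤ))
  · obtain ⟨j, hj, hjC, hjL⟩ := H.exists_T_side hg h0P (Lab := fun _ => True) fun _ _ _ => trivial
    refine ⟨j, hj, _, H.lnk_in hg h0P hjC, fun f hf => (capC_le (H.TU hg) hf).1, ?_⟩
    rcases hjL with ⟨h3, -⟩ | ⟨h3, -⟩
    · exact Or.inl h3
    · exact Or.inr (Or.inl h3)
  · obtain ⟨y, hy, hyB⟩ := L.cycT.exists_index
      (show BD (Tf : Set (ℤ × ℤ)) (side (Df : Set (ℤ × ℤ)) B 0) from
        ⟨H.DT (bd_side H.cyc.bd 0).1, hg⟩)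
    refine ⟨y, hy, ∅, H.lnk_eq hyB.symm, fun f hf => absurd hf (Set.notMem_empty f), ?_⟩
    right; right
    refine ⟨?_, by unfold outF; rw [hyB]⟩
    by_contra hcon
    push Not at hcon
    have h3 := L.arc (y - K) (by omega)
    rw [show K + (y - K) = y by omega, hyB] at h3
    have := H.cyc.inj 0 (by omega) (N₁ + (y - K)) (by omega) h3
    omega

/-- From unit edges to sides. -/
theorem link_of_joins {e e' : UE} {i i' : ℕ} (hl : LC.LinkC Tf Df (subK P κ) e e')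
    (hj : Joins e (vert (Df : Set (ℤ × ℤ)) B i) (vert (Df : Set (ℤ × ℤ)) B (i + 1)))
    (hj' : Joins e' (vert (Tf : Set (ℤ × ℤ)) A i') (vert (Tf : Set (ℤ × ℤ)) A (i' + 1))) :
    e = (side (Df : Set (ℤ × ℤ)) B i).1 ∧
      LinkK (Tf : Set (ℤ × ℤ)) (subK P κ) (side (Df : Set (ℤ × ℤ)) B i)
        (side (Tf : Set (ℤ × ℤ)) A i') := by
  have h1 : e = (side (Df : Set (ℤ × ℤ)) B i).1 := Joins.uniq hj (joins_side i)
  have h2 : e' = (side (Tf : Set (ℤ × ℤ)) A i').1 := Joins.uniq hj' (joins_side i')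
  refine ⟨h1, linkK_of_linkC H.DT (bd_side H.cyc.bd i) (H.bdT i') ?_⟩
  rw [← h1, ← h2]
  exact hl

/-- **The field `labc` of `MvDom`.** -/
theorem labc (e e' : UE) (i i' : ℕ) (hl : LC.LinkC Tf Df (subK P κ) e e') (hi : i < m')
    (hj : Joins e (vert (Df : Set (ℤ × ℤ)) B i) (vert (Df : Set (ℤ × ℤ)) B (i + 1)))
    (hj' : Joins e' (vert (Tf : Set (ℤ × ℤ)) A i') (vert (Tf : Set (ℤ × ℤ)) A (i' + 1)))
    (hK : K ≤ i') (hK' : i' < K + (N₂ - N₁)) : i = N₁ + (i' - K) :=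
  H.link_stop hi hK hK' (H.link_of_joins hl hj hj').2

/-- The approximation of `T` by `D`. -/
theorem appD (hTP : ∀ f ∈ (Tf : Set (ℤ × ℤ)), f ∈ P → f ∈ (Df : Set (ℤ × ℤ))) :
    App (Tf : Set (ℤ × ℤ)) (Df : Set (ℤ × ℤ)) (subK P κ) d := H.app.dom H.DT H.TU hTP H.DP

end LabG

namespace LabD

variable {Tf Df : Finset (ℤ × ℤ)} {A B : UE × Bool} {N₁ N₂ m' mU M s t u K x : ℕ} {a : ℤ × ℤ}
  {σ : ℤ} (H : LabD U P Tf Df κ d A B N₁ N₂ m' mU M s t u K x a σ)

include H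

/-- A side whose class is the class of the coarse tip side is near the tip. -/
theorem near_tip {i : ℕ} (h : κ (outF (Df : Set (ℤ × ℤ)) B i) = κ (outF (Df : Set (ℤ × ℤ)) B 0)) :
    LC.InB a σ (ua (side (Df : Set (ℤ × ℤ)) B i).1) := by
  obtain ⟨h3, h4⟩ := H.app.diam _ _ h
  have h1 : IsCor (outF (Df : Set (ℤ × ℤ)) B i) (ua (side (Df : Set (ℤ × ℤ)) B i).1) :=
    PotB.cor_ua (isSide_ahead _ _)
  have h2 : IsCor (outF (Df : Set (ℤ × ℤ)) B 0) (lf B) := isCor_out_lf B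
  have h5 := H.dσ
  rw [H.aB]
  rw [abs_lt] at h3 h4
  unfold IsCor at h1 h2
  unfold LC.InB
  omega

/-- **Labels, right wall.** -/
theorem lab_right {i i' : ℕ} (hi : i < m') (hi' : i' < K)
    (hfar : ¬ LC.InB a σ (ua (side (Df : Set (ℤ × ℤ)) B i).1))
    (hl : LinkK (Tf : Set (ℤ × ℤ)) (subK P κ) (side (Df : Set (ℤ × ℤ)) B i)
      (side (Tf : Set (ℤ × ℤ)) A i')) : i < N₁ := by
  have L := H.lay
  have h1 := L.Kt
  have h2 := L.le
  have h3 := L.su
  have h4 := L.um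
  have h5 := H.sx
  have h6 := H.xu
  have h7 := H.N0
  have h8 := H.N12
  have h9 := H.N2
  have h10 := L.sK
  by_contra hcon
  push Not at hcon
  rcases Nat.lt_or_ge i N₂ with h11 | h11
  · have := H.link_exit hcon h11 (by omega) hl
    omega
  have hiP := H.notP hi (Or.inr h11)
  have hLab := H.ll i h11 hi hfar
  by_cases hg : outF (Df : Set (ℤ × ℤ)) B i ∈ (Tf : Set (ℤ × ℤ))
  · rcases Nat.lt_or_ge s i' with h12 | h12
    swap
    · have h13 := L.fst i' h12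
      have h14 := hl.up H.TU
      rw [h13] at h14
      have := hLab i' (by omega) h14
      omega
    obtain ⟨y, hy, S₀, l₀, hS₀, hc⟩ := H.exists_tip_link
    have hord := H.order (H.lnk_in hg hiP (H.link_in hg hl)) l₀ (fun f hf hf₀ =>
      hfar (H.near_tip ((capC_le (H.TU hg) hf).1.symm.trans (hS₀ f hf₀))))
      (a₁ := i - (N₂ - 1)) (a₂ := m' - (N₂ - 1)) (b₁ := i' + M - (K + (N₂ - N₁) - 1))
      (b₂ := if K + (N₂ - N₁) - 1 ≤ y then y - (K + (N₂ - N₁) - 1) else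
        y + M - (K + (N₂ - N₁) - 1)) (Or.inl (by omega)) (Or.inr (by omega)) (Or.inr (by omega))
      (by split_ifs <;> [left; right] <;> omega) (by omega) (by omega) (by omega)
      (by split_ifs <;> omega)
    rcases hc with hc | hc | ⟨hc, hc'⟩
    · split_ifs at hord <;> omega
    · split_ifs at hord <;> omega
    · have hyK : i' < y ∧ y < K := by split_ifs at hord <;> omega
      have h13 := L.capR y (by omega) hyK.2
      rw [hc'] at h13
      exact H.farR (H.near_tip (capK_class h13).symm)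
  · have he := LabG.link_eq hg hl
    rcases Nat.lt_or_ge s i' with h12 | h12
    · have h13 := L.capR i' h12 hi'
      have h14 := L.mid i' h12 (by omega)
      have h15 : outF (Tf : Set (ℤ × ℤ)) A i' = outF (Df : Set (ℤ × ℤ)) B i := by
        unfold outF; rw [he]
      rw [h15] at h13 h14
      obtain ⟨v, hv, h16, h17⟩ := H.cap_link (H.notP (by omega) (Or.inl (by omega))) h13 h14
      have := H.lb (N₁ - 1) (by omega) H.farR v hv h16
      have := hLab v hv h17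
      omega
    · have h13 := L.fst i' h12
      have := hLab i' (by omega) (Or.inl (by rw [he, h13]))
      omega

/-- **Labels, left wall.** -/
theorem lab_left {i i' : ℕ} (hi : i < m') (hi' : K + (N₂ - N₁) ≤ i') (hi'M : i' < M)
    (hfar : ¬ LC.InB a σ (ua (side (Df : Set (ℤ × ℤ)) B i).1))
    (hl : LinkK (Tf : Set (ℤ × ℤ)) (subK P κ) (side (Df : Set (ℤ × ℤ)) B i)
      (side (Tf : Set (ℤ × ℤ)) A i')) : N₂ ≤ i := by
  have L := H.lay
  have h1 := L.Kt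
  have h2 := L.le
  have h3 := L.su
  have h4 := L.len
  have h5 := H.sx
  have h6 := H.xu
  have h7 := H.N0
  have h8 := H.N12
  have h9 := H.N2
  have h10 := L.sK
  by_contra hcon
  push Not at hcon
  rcases Nat.lt_or_ge i N₁ with h11 | h11
  swap
  · have := H.link_exit h11 hcon hi'M hl
    omega
  have hiP := H.notP hi (Or.inl h11)
  have hLab := H.lb i h11 hfar
  by_cases hg : outF (Df : Set (ℤ × ℤ)) B i ∈ (Tf : Set (ℤ × ℤ))
  · rcases Nat.lt_or_ge i' t with h12 | h12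
    swap
    · have h13 := L.lst (i' - t) (by omega)
      rw [show t + (i' - t) = i' by omega] at h13
      have h14 := hl.up H.TU
      rw [h13] at h14
      have := hLab (u + (i' - t)) (by omega) h14
      omega
    have hi0 : 0 < i := by
      rcases Nat.eq_zero_or_pos i with h0 | h0
      · subst h0
        exact absurd (H.near_tip rfl) hfar
      · exact h0
    obtain ⟨y, hy, S₀, l₀, hS₀, hc⟩ := H.exists_tip_link
    have hord := H.order l₀ (H.lnk_in hg hiP (H.link_in hg hl)) (fun f hf₀ hf =>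
      hfar (H.near_tip ((capC_le (H.TU hg) hf).1.symm.trans (hS₀ f hf₀))))
      (a₁ := m' - (N₂ - 1)) (a₂ := i + m' - (N₂ - 1)) (b₂ := i' - (K + (N₂ - N₁) - 1))
      (b₁ := if K + (N₂ - N₁) - 1 ≤ y then y - (K + (N₂ - N₁) - 1) else
        y + M - (K + (N₂ - N₁) - 1)) (Or.inr (by omega)) (Or.inr (by omega))
      (by split_ifs <;> [left; right] <;> omega) (Or.inl (by omega)) (by omega) (by omega)
      (by split_ifs <;> omega) (by omega)
    rcases hc with hc | hc | ⟨hc, hc'⟩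
    · split_ifs at hord <;> omega
    · split_ifs at hord <;> omega
    · have hyK : K + (N₂ - N₁) ≤ y ∧ y < i' := by split_ifs at hord <;> omega
      have h13 := L.capL y hyK.1 (by omega)
      rw [hc'] at h13
      exact H.farL (H.near_tip (capK_class h13).symm)
  · have he := LabG.link_eq hg hl
    rcases Nat.lt_or_ge i' t with h12 | h12
    · have h13 := L.capL i' hi' h12
      have h14 := L.mid i' (by omega) h12
      have h15 : outF (Tf : Set (ℤ × ℤ)) A i' = outF (Df : Set (ℤ × ℤ)) B i := by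
        unfold outF; rw [he]
      rw [h15] at h13 h14
      obtain ⟨v, hv, h16, h17⟩ := H.cap_link (H.notP (by omega) (Or.inr le_rfl)) h13 h14
      have := H.ll N₂ le_rfl (by omega) H.farL v hv h16
      have := hLab v hv h17
      omega
    · have h13 := L.lst (i' - t) (by omega)
      rw [show t + (i' - t) = i' by omega] at h13
      have := hLab (u + (i' - t)) (by omega) (Or.inl (by rw [he, h13]))
      omega

omit H in
theorem not_inB {E : ℤ} (hE : σ ≤ E) {z : ℤ × ℤ} (h : ¬ LC.InB a E z) : ¬ LC.InB a σ z := by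
  intro h1
  apply h
  unfold LC.InB at *
  omega

/-- **The field `labb` of `MvDom`.** -/
theorem labb {E : ℤ} (hE : σ ≤ E) (e e' : UE) (i i' : ℕ) (hl : LC.LinkC Tf Df (subK P κ) e e')
    (hi : i < m')
    (hj : Joins e (vert (Df : Set (ℤ × ℤ)) B i) (vert (Df : Set (ℤ × ℤ)) B (i + 1))) (_ : i' < M)
    (hj' : Joins e' (vert (Tf : Set (ℤ × ℤ)) A i') (vert (Tf : Set (ℤ × ℤ)) A (i' + 1)))
    (hf : ¬ LC.InB a E (ua e)) (hK : i' < K) : i < N₁ := by
  obtain ⟨h1, h2⟩ := H.link_of_joins hl hj hj'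
  rw [h1] at hf
  exact H.lab_right hi hK (not_inB hE hf) h2

/-- **The field `labo` of `MvDom`.** -/
theorem labo {E : ℤ} (hE : σ ≤ E) (e e' : UE) (i i' : ℕ) (hl : LC.LinkC Tf Df (subK P κ) e e')
    (hi : i < m')
    (hj : Joins e (vert (Df : Set (ℤ × ℤ)) B i) (vert (Df : Set (ℤ × ℤ)) B (i + 1))) (hM : i' < M)
    (hj' : Joins e' (vert (Tf : Set (ℤ × ℤ)) A i') (vert (Tf : Set (ℤ × ℤ)) A (i' + 1)))
    (hf : ¬ LC.InB a E (ua e)) (hK : K + (N₂ - N₁) ≤ i') : N₂ ≤ i := by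
  obtain ⟨h1, h2⟩ := H.link_of_joins hl hj hj'
  rw [h1] at hf
  exact H.lab_left hi hK hM (not_inB hE hf) h2

end LabD

/-- **The geometry for the move of `S8CloseK`.** `A` is the true tip side, `B` the coarse tip side. -/
theorem labG_of_mvd {D Y : Set (ℤ × ℤ)} {A B : UE × Bool} {m p q m' N₁ N₂ mU M s t u K : ℕ}
    (H : Mvd U P D κ d B m p q) (hY : Mv.Att D B p q Y) (hB : ahead B ∉ Y)
    (hC : Contig D B p q Y m m' N₁ N₂) (hN : N₂ < m') {Tf Df : Finset (ℤ × ℤ)}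
    (hTf : (Tf : Set (ℤ × ℤ)) = domT U Y (capK U κ (gR D B Y N₁)) (capK U κ (gL D B Y N₂)) B)
    (hDf : (Df : Set (ℤ × ℤ)) = inn D B Y)
    (L : LayCap U (domT U Y (capK U κ (gR D B Y N₁)) (capK U κ (gL D B Y N₂)) B) (inn D B Y) A B
      N₁ N₂ mU M s t u K (capK U κ (gR D B Y N₁)) (capK U κ (gL D B Y N₂))) :
    LabG U P Tf Df κ d A B N₁ N₂ m' mU M s t u K := by
  have hclo := H.clo hY hB hC hN
  have hDP : inn D B Y ⊆ P := fun x hx => H.DP (inn_sub ⟨H.cyc.bd.1, hB⟩ hx).1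
  have hR : gR D B Y N₁ = outF (Df : Set (ℤ × ℤ)) B (N₁ - 1) := by rw [hDf]; rfl
  have hL : gL D B Y N₂ = outF (Df : Set (ℤ × ℤ)) B N₂ := by rw [hDf]; rfl
  exact {
    app := H.app
    DP := by rw [hDf]; exact hDP
    DT := by rw [hDf, hTf]; exact hclo.DT
    TU := by rw [hTf]; exact hclo.TU
    cyc := by rw [hDf]; exact hC.cyc
    N0 := hC.pos
    N12 := hC.lt
    N2 := hN
    out := fun i hi => by rw [hDf]; exact H.out_iff hY hC hi
    lay := by rw [← hR, ← hL, hTf, hDf]; exact L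
    RT := by rw [← hR, hTf]; exact hclo.RT
    LT := by rw [← hL, hTf]; exact hclo.LT
    hcomp := by rw [← hR, ← hL, hTf]; exact H.hcomp hY
    escT := by rw [hTf]; exact (H.closure hY hB hC hN).2.1
    ecD := by rw [hDf]; exact hclo.ecD }

/-- **The label data for the move of `S8CloseK`**, universal form. -/
theorem labD_of_mvd {D Y : Set (ℤ × ℤ)} {A B : UE × Bool} {m p q m' N₁ N₂ mU M s t u K x : ℕ}
    {a : ℤ × ℤ} {σ : ℤ} (H : Mvd U P D κ d B m p q) (hY : Mv.Att D B p q Y) (hB : ahead B ∉ Y)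
    (hC : Contig D B p q Y m m' N₁ N₂) (hN : N₂ < m') {Tf Df : Finset (ℤ × ℤ)}
    (hTf : (Tf : Set (ℤ × ℤ)) = domT U Y (capK U κ (gR D B Y N₁)) (capK U κ (gL D B Y N₂)) B)
    (hDf : (Df : Set (ℤ × ℤ)) = inn D B Y)
    (L : LayCap U (domT U Y (capK U κ (gR D B Y N₁)) (capK U κ (gL D B Y N₂)) B) (inn D B Y) A B
      N₁ N₂ mU M s t u K (capK U κ (gR D B Y N₁)) (capK U κ (gL D B Y N₂)))
    (farR : ¬ LC.InB a σ (ua (side (inn D B Y) B (N₁ - 1)).1))
    (farL : ¬ LC.InB a σ (ua (side (inn D B Y) B N₂).1))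
    (lb : ∀ i < N₁, ¬ LC.InB a σ (ua (side (inn D B Y) B i).1) → ∀ v < mU,
      LinkK U κ (side (inn D B Y) B i) (side U A v) → v < x)
    (ll : ∀ i, N₂ ≤ i → i < m' → ¬ LC.InB a σ (ua (side (inn D B Y) B i).1) → ∀ v < mU,
      LinkK U κ (side (inn D B Y) B i) (side U A v) → x ≤ v)
    (sx : s < x) (xu : x ≤ u) (aB : a = lf B) (dσ : d ≤ σ) :
    LabD U P Tf Df κ d A B N₁ N₂ m' mU M s t u K x a σ where
  toLabG := labG_of_mvd H hY hB hC hN hTf hDf L
  farR := by rw [hDf]; exact farR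
  farL := by rw [hDf]; exact farL
  lb := by rw [hDf]; exact lb
  ll := by rw [hDf]; exact ll
  sx := sx
  xu := xu
  aB := aB
  dσ := dσ

end Pool.Agent.SixB.Top
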