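import Pool.Agent.Lib.SixB.S8MoveC
import Pool.Agent.Lib.SixB.S8AppLink

/-!
# Step 8: the true tip is in the domain of a move, from the labels of the coarse contour

`Clo.tip_mem` for an inner approximation `App U P κ d`:

* `capC_sub_of_ne`: the class part behind a side of `T`, if its class is not a class of the caps;
* `lnk_of_link`: a side `C` of `U` linked to a side `B` of the inner domain (equal, or `ahead C` in the
  class part behind `B`) is linked inside `T`;
* `Clo.tip_of_labels`, `Mvd.tip_of_labels`: one side before the exit interval with a link `< x`, one side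
  after it with a link `≥ x`, both with classes different from the classes of the caps, and different:
  the true tip side is a side of `T`;
* `Mvd.tip_of_far`: the same if all sides before (after) the exit interval outside the box of radius `r`
  around the point `z` have such a link, if the coarse tip is in this box and the ends of the exit
  interval are outside the box of radius `r + 2 d + 4`;
* `Mvd.link_right`, `Mvd.link_left`: the existence form of the labels from the form for all links;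
* `exists_tside_of_labels`: the true side of the move.
-/

set_option autoImplicit false

namespace Pool.Agent.SixB.CloK

open Pool.Agent.Perc Pool.Agent.Perc6 Pool.Agent.Perc6.C2Aux Pool.Agent.Perc.Tips
open Pool.Agent.SixB.Top Pool.Agent.SixB.Mv

variable {ι : Type*} {U P D Y G T cR cL : Set (ℤ × ℤ)} {κ : ℤ × ℤ → ι} {d : ℤ}
  {A B C τ : UE × Bool} {p q m m' N₁ N₂ k₁ k₃ mU x : ℕ} {f g : ℤ × ℤ}

/-- The part of the class of a face of `T`. -/
theorem capC_sub_of_ne (happ : App U P κ d)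
    (hcomp : ∀ t ∈ T, ∀ g, AdjF t g → g ∉ T → g ∉ U ∨ g ∈ P ∨ g ∈ cR ∨ g ∈ cL)
    (hU : g ∈ U) (hgT : g ∈ T) (hgP : g ∉ P) (hR : ∀ f ∈ cR, κ f ≠ κ g)
    (hL : ∀ f ∈ cL, κ f ≠ κ g) : capC U κ g ⊆ T := by
  intro f hf
  have hch : ChI (capC U κ g) g f := compT_chain self_mem_compT hf
  have key : ∀ y, ChI (capC U κ g) g y → y ∈ T := by
    intro y hy
    induction hy with
    | refl => exact hgT
    | @tail b c _ hs ih =>
      by_contra hc
      obtain ⟨h1, h2⟩ := capC_sub hU hs.2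
      rcases hcomp _ ih _ hs.1 hc with h3 | h3 | h3 | h3
      · exact h3 h2
      · exact hgP (happ.sat _ _ h1 h3)
      · exact hR _ h3 h1
      · exact hL _ h3 h1
  exact key f hch

/-- **Links of the coarse contour are links inside `T`.** -/
theorem lnk_of_link (H : Clo U P G T A k₁ k₃ m cR cL) (happ : App U P κ d)
    (hcomp : ∀ t ∈ T, ∀ g, AdjF t g → g ∉ T → g ∉ U ∨ g ∈ P ∨ g ∈ cR ∨ g ∈ cL)
    (hB : BD G B) (hgP : ahead (rv B) ∉ P) (hC : BD U C)
    (hR : ∀ f ∈ cR, κ f ≠ κ (ahead (rv B))) (hL : ∀ f ∈ cL, κ f ≠ κ (ahead (rv B)))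
    (hl : LinkK U κ B C) :
    ∃ S, Lnk T G B C S ∧ ∀ f ∈ S, κ f = κ (ahead (rv B)) := by
  rcases hl with hl | ⟨hgU, hl⟩
  · refine ⟨∅, ⟨hB, ?_, fun f hf => absurd hf (Set.notMem_empty f), Or.inl hl⟩,
      fun f hf => absurd hf (Set.notMem_empty f)⟩
    rw [← hl]
    rw [← hl] at hC
    exact ⟨H.DT hB.1, fun h => hC.2 (H.TU h)⟩
  · have hgT : ahead (rv B) ∈ T := by
      by_contra h
      rcases hcomp _ (H.DT hB.1) _ (adjF_ahead B).symm h with h3 | h3 | h3 | h3
      · exact h3 hgU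
      · exact hgP h3
      · exact hR _ h3 rfl
      · exact hL _ h3 rfl
    have hsub := capC_sub_of_ne happ hcomp hgU hgT hgP hR hL
    refine ⟨capC U κ (ahead (rv B)), ⟨hB, ⟨hsub hl, fun h => hC.2 (H.TU h)⟩,
      fun f hf => ⟨hsub hf, ?_⟩, Or.inr ⟨self_mem_compT, compT_chain self_mem_compT hl⟩⟩,
      fun f hf => (capC_sub hgU hf).1⟩
    intro hfG
    exact hgP (happ.sat _ _ (capC_sub hgU hf).1 (H.DP hfG))

/-- **The true tip from two labels**, general caps. -/
theorem _root_.Pool.Agent.SixB.Top.Clo.tip_of_labels (H : Clo U P G T A k₁ k₃ m cR cL)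
    (K : Caps U G A k₁ k₃ cR cL) (happ : App U P κ d)
    (hcomp : ∀ t ∈ T, ∀ g, AdjF t g → g ∉ T → g ∉ U ∨ g ∈ P ∨ g ∈ cR ∨ g ∈ cL)
    (hnbr : ∀ p ∈ P, ∀ y, y ∉ P → AdjF p y → ∃ x, x ∉ U ∧ ChI Pᶜ y x)
    (hU : Cyc U τ mU) {iR iL : ℕ} (hiR : iR < k₁) (hiL : k₃ ≤ iL) (hiL' : iL < m)
    (hRR : ∀ f ∈ cR, κ f ≠ κ (outF G A iR)) (hRL : ∀ f ∈ cL, κ f ≠ κ (outF G A iR))
    (hLR : ∀ f ∈ cR, κ f ≠ κ (outF G A iL)) (hLL : ∀ f ∈ cL, κ f ≠ κ (outF G A iL))
    (hRL' : κ (outF G A iR) ≠ κ (outF G A iL))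
    (lR : ∃ v < x, LinkK U κ (side G A iR) (side U τ v))
    (lL : ∃ v, x ≤ v ∧ v < mU ∧ LinkK U κ (side G A iL) (side U τ v)) : BD T τ := by
  have hk13 := H.k13
  have hk3 := H.k3
  have hPR : outF G A iR ∉ P := by
    intro h
    have := (H.out iR (by omega)).1 h
    omega
  have hPL : outF G A iL ∉ P := by
    intro h
    have := (H.out iL hiL').1 h
    omega
  have hGR : BD G (side G A iR) := H.bdA.iterate iR
  have hGL : BD G (side G A iL) := H.bdA.iterate iL
  obtain ⟨vR, h1, hlR⟩ := lR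
  obtain ⟨vL, h2, hvL, hlL⟩ := lL
  have hCR := bd_side hU.bd vR
  have hCL := bd_side hU.bd vL
  obtain ⟨SR, hSR, hSR'⟩ := lnk_of_link H happ hcomp hGR hPR hCR hRR hRL hlR
  obtain ⟨SL, hSL, hSL'⟩ := lnk_of_link H happ hcomp hGL hPL hCL hLR hLL hlL
  exact H.tip_mem K hcomp hnbr hU.bd (cycPer hU) hiR hiL hiL' hSR hSL
    (fun f hf hf' => hRL' ((hSR' f hf').symm.trans (hSL' f hf))) hCR hCL rfl rfl (by omega)
    hvL.le

namespace Mvd

variable (H : Mvd U P D κ d A m p q)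
include H

/-- **The true tip from two labels**, for a move. -/
theorem tip_of_labels (hY : Mv.Att D A p q Y) (hA : ahead A ∉ Y) (hC : Contig D A p q Y m m' N₁ N₂)
    (hN : N₂ < m') (hU : Cyc U τ mU) {iR iL : ℕ} (hiR : iR < N₁) (hiL : N₂ ≤ iL) (hiL' : iL < m')
    (hRR : κ (gR D A Y N₁) ≠ κ (outF (inn D A Y) A iR))
    (hRL : κ (gL D A Y N₂) ≠ κ (outF (inn D A Y) A iR))
    (hLR : κ (gR D A Y N₁) ≠ κ (outF (inn D A Y) A iL))
    (hLL : κ (gL D A Y N₂) ≠ κ (outF (inn D A Y) A iL))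
    (hRL' : κ (outF (inn D A Y) A iR) ≠ κ (outF (inn D A Y) A iL))
    (lR : ∃ v < x, LinkK U κ (side (inn D A Y) A iR) (side U τ v))
    (lL : ∃ v, x ≤ v ∧ v < mU ∧ LinkK U κ (side (inn D A Y) A iL) (side U τ v)) :
    BD (domT U Y (capK U κ (gR D A Y N₁)) (capK U κ (gL D A Y N₂)) A) τ := by
  refine (H.clo hY hA hC hN).tip_of_labels (caps N₁ N₂) H.app (H.hcomp hY) H.hnbr hU hiR hiL hiL'
    ?_ ?_ ?_ ?_ hRL' lR lL
  · intro f hf
    rw [capK_class hf]
    exact hRR
  · intro f hf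
    rw [capK_class hf]
    exact hRL
  · intro f hf
    rw [capK_class hf]
    exact hLR
  · intro f hf
    rw [capK_class hf]
    exact hLL

end Mvd

/-! ### The metric form -/

/-- Two consecutive vertices of a contour are neighbours. -/
theorem vert_close (G : Set (ℤ × ℤ)) (A : UE × Bool) (i : ℕ) :
    (vert G A (i + 1)).1 - 1 ≤ (vert G A i).1 ∧ (vert G A i).1 ≤ (vert G A (i + 1)).1 + 1 ∧
    (vert G A (i + 1)).2 - 1 ≤ (vert G A i).2 ∧ (vert G A i).2 ≤ (vert G A (i + 1)).2 + 1 := by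
  have h1 := joins_side (D := G) (A := A) i
  generalize vert G A i = u at *
  generalize vert G A (i + 1) = w at *
  generalize (side G A i).1 = e at *
  obtain ⟨a, b, t⟩ := e
  cases t <;> simp only [Joins, ua, ub] at h1 <;> rcases h1 with ⟨rfl, rfl⟩ | ⟨rfl, rfl⟩ <;>
    simp <;> omega

/-- The lower end of a side is one of its vertices. -/
theorem not_inB_ua {z : ℤ × ℤ} {r : ℤ} {i : ℕ} (h1 : ¬ LC.InB z r (vert G A i))
    (h2 : ¬ LC.InB z r (vert G A (i + 1))) : ¬ LC.InB z r (ua (side G A i).1) := by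
  rcases joins_side (D := G) (A := A) i with ⟨h3, -⟩ | ⟨-, h3⟩
  · rwa [← h3]
  · rwa [← h3]

/-- The first index with a vertex outside the box. -/
theorem exists_out_first {z : ℤ × ℤ} {r : ℤ} {n : ℕ} (h0 : LC.InB z r (vert G A 0))
    (h1 : ¬ LC.InB z r (vert G A n)) : ∃ i ≤ n, ¬ LC.InB z r (vert G A i) ∧
      LC.InB z (r + 1) (vert G A i) := by
  classical
  have hex : ∃ i, ¬ LC.InB z r (vert G A i) := ⟨n, h1⟩
  have h2 := Nat.find_spec hex
  have h3 : 0 < Nat.find hex := by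
    rcases Nat.eq_zero_or_pos (Nat.find hex) with h | h
    · rw [h] at h2
      exact absurd h0 h2
    · exact h
  refine ⟨Nat.find hex, Nat.find_min' hex h1, h2, ?_⟩
  obtain ⟨j, hj⟩ : ∃ j, Nat.find hex = j + 1 := ⟨Nat.find hex - 1, by omega⟩
  have h4 := Nat.find_min hex (m := j) (by omega)
  rw [not_not] at h4
  rw [hj]
  have h5 := vert_close G A j
  unfold LC.InB at *
  omega

/-- The first index after `n` with a vertex in the box. -/
theorem exists_in_first {z : ℤ × ℤ} {r : ℤ} {n k : ℕ} (hnk : n ≤ k)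
    (h0 : ¬ LC.InB z r (vert G A n)) (h1 : LC.InB z r (vert G A k)) : ∃ i, n ≤ i ∧ i ≤ k ∧
      LC.InB z r (vert G A i) ∧ ¬ LC.InB z (r - 1) (vert G A i) := by
  classical
  have hex : ∃ i, n ≤ i ∧ LC.InB z r (vert G A i) := ⟨k, hnk, h1⟩
  obtain ⟨h2, h2'⟩ := Nat.find_spec hex
  have h3 : n ≠ Nat.find hex := by
    intro h
    rw [← h] at h2'
    exact h0 h2'
  refine ⟨Nat.find hex, h2, Nat.find_min' hex ⟨hnk, h1⟩, h2', ?_⟩
  obtain ⟨j, hj⟩ : ∃ j, Nat.find hex = j + 1 := ⟨Nat.find hex - 1, by omega⟩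
  have h4 := Nat.find_min hex (m := j) (by omega)
  have h4' : ¬ LC.InB z r (vert G A j) := fun h => h4 ⟨by omega, h⟩
  rw [hj]
  have h5 := vert_close G A j
  unfold LC.InB at *
  omega

/-- Faces of one class have corners at distance at most `d`. -/
theorem class_ne (happ : App U P κ d) {f g u w z : ℤ × ℤ} {r r' : ℤ} (hf : IsCor f u)
    (hg : IsCor g w) (hu : LC.InB z r u) (hw : ¬ LC.InB z r' w) (h : r + d ≤ r') : κ f ≠ κ g := by
  intro hfg
  have h1 := Mv.TSide.inB_of_cor happ le_rfl hfg hf hg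
  unfold LC.InB at *
  omega

namespace Mvd

variable (H : Mvd U P D κ d A m p q)
include H

/-- **The true tip from the labels of the coarse contour.** -/
theorem tip_of_far (hY : Mv.Att D A p q Y) (hA : ahead A ∉ Y) (hC : Contig D A p q Y m m' N₁ N₂)
    (hN : N₂ < m') (hU : Cyc U τ mU) {z : ℤ × ℤ} {r : ℤ} (hz : LC.InB z r (lf A))
    (f1 : ¬ LC.InB z (r + 2 * d + 4) (vert (inn D A Y) A N₁))
    (f2 : ¬ LC.InB z (r + 2 * d + 4) (vert (inn D A Y) A N₂))
    (lb : ∀ i < N₁, ¬ LC.InB z r (ua (side (inn D A Y) A i).1) →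
      ∃ v < x, LinkK U κ (side (inn D A Y) A i) (side U τ v))
    (ll : ∀ i, N₂ ≤ i → i < m' → ¬ LC.InB z r (ua (side (inn D A Y) A i).1) →
      ∃ v, x ≤ v ∧ v < mU ∧ LinkK U κ (side (inn D A Y) A i) (side U τ v)) :
    BD (domT U Y (capK U κ (gR D A Y N₁)) (capK U κ (gL D A Y N₂)) A) τ := by
  have hd := H.app.d_pos
  have hN0 := hC.pos
  obtain ⟨G, hG⟩ : ∃ G, G = inn D A Y := ⟨_, rfl⟩
  have hgR : IsCor (gR D A Y N₁) (vert G A N₁) := by
    obtain ⟨j, rfl⟩ : ∃ j, N₁ = j + 1 := ⟨N₁ - 1, by omega⟩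
    rw [vert_succ, hG]
    unfold gR outF
    rw [Nat.add_sub_cancel]
    exact isCor_out_rg _
  have hgL : IsCor (gL D A Y N₂) (vert G A N₂) := by
    rw [hG]
    exact isCor_out_lf _
  have hper : vert G A m' = lf A := by
    unfold vert
    rw [hG, hC.cyc.per]
  rw [← hG] at f1 f2
  have h0 : LC.InB z r (vert G A 0) := hz
  -- the side before the exit interval
  obtain ⟨iR, hR1, hR2, hR3⟩ := exists_out_first (G := G) (A := A) (z := z) (r := r + 1) (n := N₁)
    (by unfold LC.InB at *; omega) (by unfold LC.InB at *; omega)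
  have hRN : iR < N₁ := by
    rcases hR1.lt_or_eq with h | h
    · exact h
    · exfalso
      rw [h] at hR3
      unfold LC.InB at *
      omega
  have hR4 := vert_close G A iR
  -- the side after it
  obtain ⟨iL, hL1, hL2, hL3, hL4⟩ := exists_in_first (G := G) (A := A) (z := z) (r := r + d + 4)
    (n := N₂) (k := m') hN.le (by unfold LC.InB at *; omega) (by
      rw [hper]; unfold LC.InB at *; omega)
  have hLN : iL < m' := by
    rcases hL2.lt_or_eq with h | h
    · exact h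
    · exfalso
      rw [h, hper] at hL4
      unfold LC.InB at *
      omega
  have hL5 := vert_close G A iL
  have cR : IsCor (outF G A iR) (vert G A iR) := isCor_out_lf _
  have cL : IsCor (outF G A iL) (vert G A iL) := isCor_out_lf _
  have e1 : κ (outF G A iR) ≠ κ (gR D A Y N₁) := class_ne H.app cR hgR hR3 f1 (by omega)
  have e2 : κ (outF G A iR) ≠ κ (gL D A Y N₂) := class_ne H.app cR hgL hR3 f2 (by omega)
  have e3 : κ (outF G A iL) ≠ κ (gR D A Y N₁) := class_ne H.app cL hgR hL3 f1 (by omega)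
  have e4 : κ (outF G A iL) ≠ κ (gL D A Y N₂) := class_ne H.app cL hgL hL3 f2 (by omega)
  have e5 : κ (outF G A iR) ≠ κ (outF G A iL) := class_ne H.app cR cL hR3 hL4 (by omega)
  subst hG
  exact H.tip_of_labels hY hA hC hN hU hRN hL1 hLN e1.symm e2.symm e3.symm e4.symm e5
    (lb iR hRN (not_inB_ua (by unfold LC.InB at *; omega) (by unfold LC.InB at *; omega)))
    (ll iL hL1 hLN (not_inB_ua (by unfold LC.InB at *; omega) (by unfold LC.InB at *; omega)))

/-- A label for all links gives a link. -/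
theorem link_right (hY : Mv.Att D A p q Y) (hA : ahead A ∉ Y)
    (hC : Contig D A p q Y m m' N₁ N₂) (hU : Cyc U τ mU) {i : ℕ} (hi : i < N₁)
    (h : ∀ v < mU, LinkK U κ (side (inn D A Y) A i) (side U τ v) → v < x) :
    ∃ v < x, LinkK U κ (side (inn D A Y) A i) (side U τ v) := by
  have hb := bd_side hC.cyc.bd i
  have hN := hC.lt
  have hle := hC.le
  have hP : outF (inn D A Y) A i ∉ P := by
    intro h
    have := (H.out_iff hY hC (i := i) (by omega)).1 h
    omega
  obtain ⟨C, hC', hl⟩ := exists_linkU H.app (B := side (inn D A Y) A i)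
    ⟨H.DP (inn_sub ⟨H.cyc.bd.1, hA⟩ hb.1).1, hP⟩
  obtain ⟨v, hv, hvC⟩ := hU.exists_index hC'
  have hl' : LinkK U κ (side (inn D A Y) A i) (side U τ v) := by rw [hvC]; exact hl
  exact ⟨v, h v hv hl', hl'⟩

theorem link_left (hY : Mv.Att D A p q Y) (hA : ahead A ∉ Y)
    (hC : Contig D A p q Y m m' N₁ N₂) (hU : Cyc U τ mU) {i : ℕ} (hi : N₂ ≤ i) (hi' : i < m')
    (h : ∀ v < mU, LinkK U κ (side (inn D A Y) A i) (side U τ v) → x ≤ v) :
    ∃ v, x ≤ v ∧ v < mU ∧ LinkK U κ (side (inn D A Y) A i) (side U τ v) := by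
  have hb := bd_side hC.cyc.bd i
  have hP : outF (inn D A Y) A i ∉ P := by
    intro h
    have := (H.out_iff hY hC (i := i) hi').1 h
    omega
  obtain ⟨C, hC', hl⟩ := exists_linkU H.app (B := side (inn D A Y) A i)
    ⟨H.DP (inn_sub ⟨H.cyc.bd.1, hA⟩ hb.1).1, hP⟩
  obtain ⟨v, hv, hvC⟩ := hU.exists_index hC'
  have hl' : LinkK U κ (side (inn D A Y) A i) (side U τ v) := by rw [hvC]; exact hl
  exact ⟨v, h v hv hl', hv, hl'⟩

end Mvd

/-- **The true side of a move** from the labels of the coarse contour. -/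
theorem exists_tside_of_labels {a b L : ℤ} {n : ℕ} (H : Mvd U P D κ d A m p q)
    (hr : RunS a b L D A p q Y m n N₁ N₂) (hN : N₂ < n) (hU : Cyc U τ mU) {z : ℤ × ℤ} {r : ℤ}
    (hz : LC.InB z r (lf A))
    (f1 : ¬ LC.InB z (r + 2 * d + 4) (vert (inn D A Y) A N₁))
    (f2 : ¬ LC.InB z (r + 2 * d + 4) (vert (inn D A Y) A N₂))
    (lb : ∀ i < N₁, ¬ LC.InB z r (ua (side (inn D A Y) A i).1) →
      ∃ v < x, LinkK U κ (side (inn D A Y) A i) (side U τ v))
    (ll : ∀ i, N₂ ≤ i → i < n → ¬ LC.InB z r (ua (side (inn D A Y) A i).1) →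
      ∃ v, x ≤ v ∧ v < mU ∧ LinkK U κ (side (inn D A Y) A i) (side U τ v)) :
    ∃ T M s t u K, Mv.TSide U P D κ a b L A τ m p q Y T n N₁ N₂ mU M s t u K ∧
      BD (T : Set (ℤ × ℤ)) τ := by
  have h := H.tip_of_far hr.att hr.tip hr.con hN hU hz f1 f2 lb ll
  obtain ⟨T, M, s, t, u, K, hT⟩ := Mv.exists_tside H hr hN hU h.1
  exact ⟨T, M, s, t, u, K, hT, by rw [hT.eqT]; exact h⟩

end Pool.Agent.SixB.CloK
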