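import Pool.Agent.Lib.SixB.S8MoveB
import Pool.Agent.Lib.SixB.S8LabE
import Pool.Agent.Lib.SixB.S8TipApp
import Pool.Agent.Lib.SixB.S8KerBad

/-!
# Step 8, unit 8H: all data of one move from the labels of the coarse contour

For one attached set `Y`, with the labels `LabI` of the contour of the inner domain and with a lower bound
for the distance of the stop arc from the coarse tip:

* `LabI.tip`: the true tip side is a side of the true domain `domT …` (TIN);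
* `TSide.labE`, `TSide.mvDom'`: the data `MvDom` of the kernel (the labels are existence labels);
* `notMem_of_link`, `notMem_of_box`: the face at the true target is not in the true domain, if it is
  linked to the coarse target side, or if it is joined to the face at the coarse target side inside the
  fresh faces in a box (TGT);
* `MvS`: all data for one family of attached sets; `MvS.tin`, `MvS.hdom`, `MvS.hstop`: the hypotheses
  of `kernel_fam_stop` (used in `kernel_mvS`, `not_stopR_mvS`).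
-/

set_option autoImplicit false

namespace Pool.Agent.SixB.Mv

open Finset Pool.Agent.Perc Pool.Agent.Perc6 Pool.Agent.Perc6.C2Aux Pool.Agent.Perc.Tips
open Pool.Agent.SixB.Top Pool.Agent.SixB.CloK

variable {ι : Type} {U P D R G : Set (ℤ × ℤ)} {κ : ℤ × ℤ → ι} {d a b L c r₀ : ℤ}
  {A τ : UE × Bool} {m p q : ℕ} {Y : Set (ℤ × ℤ)} {T : Finset (ℤ × ℤ)}
  {n N₁ N₂ mU M s t u K kt x h₁ h₂ : ℕ} {Ξ : Cfg → Cfg}

/-! ### Distances -/

/-- The lower end of a side is near its first vertex. -/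
theorem inB_ua_of_vert {G : Set (ℤ × ℤ)} {A : UE × Bool} {v : ℤ × ℤ} {r : ℤ} {i : ℕ}
    (h : LC.InB v r (vert G A i)) : LC.InB v (r + 1) (ua (side G A i).1) := by
  have h1 := vert_close G A i
  rcases joins_side (D := G) (A := A) i with ⟨h3, -⟩ | ⟨-, h3⟩
  · rw [← h3]
    unfold LC.InB at *
    omega
  · rw [← h3]
    unfold LC.InB at *
    omega

theorem inB_ua_of_vert' {G : Set (ℤ × ℤ)} {A : UE × Bool} {v : ℤ × ℤ} {r : ℤ} {i : ℕ}
    (h : LC.InB v r (vert G A (i + 1))) : LC.InB v (r + 1) (ua (side G A i).1) := by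
  have h1 := vert_close G A i
  rcases joins_side (D := G) (A := A) i with ⟨h3, -⟩ | ⟨-, h3⟩
  · rw [← h3]
    unfold LC.InB at *
    omega
  · rw [← h3]
    unfold LC.InB at *
    omega

/-- A unit edge which joins two consecutive vertices is the side. -/
theorem ua_of_joins {G : Set (ℤ × ℤ)} {A : UE × Bool} {i : ℕ} {e : UE}
    (he : Joins e (vert G A i) (vert G A (i + 1))) : e = (side G A i).1 :=
  (Joins.uniq (joins_side i) he).symm

theorem not_inB_ua₁ {G : Set (ℤ × ℤ)} {A : UE × Bool} {v : ℤ × ℤ} {r r' : ℤ} {i : ℕ}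
    (h : ¬ LC.InB v r' (vert G A i)) (hr : r + 1 ≤ r') : ¬ LC.InB v r (ua (side G A i).1) := by
  intro h2
  apply h
  have h1 := vert_close G A i
  rcases joins_side (D := G) (A := A) i with ⟨h3, -⟩ | ⟨-, h3⟩
  · rw [← h3] at h2
    unfold LC.InB at *
    omega
  · rw [← h3] at h2
    unfold LC.InB at *
    omega

theorem not_inB_ua₂ {G : Set (ℤ × ℤ)} {A : UE × Bool} {v : ℤ × ℤ} {r r' : ℤ} {i : ℕ}
    (h : ¬ LC.InB v r' (vert G A (i + 1))) (hr : r + 1 ≤ r') :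
    ¬ LC.InB v r (ua (side G A i).1) := by
  intro h2
  apply h
  have h1 := vert_close G A i
  rcases joins_side (D := G) (A := A) i with ⟨h3, -⟩ | ⟨-, h3⟩
  · rw [← h3] at h2
    unfold LC.InB at *
    omega
  · rw [← h3] at h2
    unfold LC.InB at *
    omega

theorem not_inB_mono {v w : ℤ × ℤ} {r r' : ℤ} (h : ¬ LC.InB v r' w) (hr : r ≤ r') :
    ¬ LC.InB v r w := by
  unfold LC.InB at *
  omega

/-! ### The labels near the tip -/

section Near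

variable (X : LabI U G κ A τ r₀ mU kt n N₁ N₂ h₁ h₂) (hG : Cyc G A n)
include X hG

theorem LabI.r_nonneg : 0 ≤ r₀ := by
  have h := X.nr n (Or.inr ⟨X.h2n, le_rfl⟩)
  have h1 : inF G A n = ahead A := by
    unfold inF
    rw [hG.per]
  rw [h1] at h
  unfold sqF at h
  have := h.1
  rw [sub_self, abs_zero] at this
  exact this

omit hG in
/-- A corner of an inner face near the tip is near the tip. -/
theorem LabI.corner {i : ℕ} (h : i < h₁ ∨ (h₂ < i ∧ i ≤ n)) {w : ℤ × ℤ}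
    (hw : IsCor (inF G A i) w) : LC.InB (lf A) (r₀ + 1) w := by
  have h1 := X.nr i h
  have hA : IsCor (ahead A) (lf A) := isCor_in_lf A
  unfold sqF at h1
  rw [Set.mem_setOf_eq, abs_le, abs_le] at h1
  unfold IsCor at hw hA
  unfold LC.InB
  omega

theorem LabI.nearR {i : ℕ} (hi : i ≤ h₁) : LC.InB (lf A) (r₀ + 2) (ua (side G A i).1) := by
  have h0 := X.r_nonneg hG
  have key : LC.InB (lf A) (r₀ + 1) (vert G A i) := by
    rcases Nat.eq_zero_or_pos i with h | h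
    · subst h
      have : vert G A 0 = lf A := rfl
      rw [this]
      unfold LC.InB
      omega
    · obtain ⟨j, rfl⟩ : ∃ j, i = j + 1 := ⟨i - 1, by omega⟩
      refine X.corner (Or.inl (show j < h₁ by omega)) ?_
      rw [vert_succ]
      exact isCor_in_rg _
  have := inB_ua_of_vert key
  rwa [add_assoc] at this

omit hG in
theorem LabI.nearL {i : ℕ} (hi : h₂ ≤ i) (hi' : i < n) :
    LC.InB (lf A) (r₀ + 2) (ua (side G A i).1) := by
  have key : LC.InB (lf A) (r₀ + 1) (vert G A (i + 1)) := by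
    refine X.corner (i := i + 1) (Or.inr ⟨by omega, by omega⟩) ?_
    exact isCor_in_lf _
  have := inB_ua_of_vert' key
  rwa [add_assoc] at this

end Near

/-! ### TIN -/

/-- **The true tip side is a side of the true domain.** -/
theorem LabI.tip (X : LabI U (inn D A Y) κ A τ r₀ mU kt n N₁ N₂ h₁ h₂)
    (H : Mvd U P D κ d A m p q) (hr : RunS a b L D A p q Y m n N₁ N₂) (hN : N₂ < n)
    (hU : Cyc U τ mU)
    (f1 : ¬ LC.InB (lf A) (r₀ + 2 * d + 6) (vert (inn D A Y) A N₁))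
    (f2 : ¬ LC.InB (lf A) (r₀ + 2 * d + 6) (vert (inn D A Y) A N₂)) :
    BD (domT U Y (capK U κ (gR D A Y N₁)) (capK U κ (gL D A Y N₂)) A) τ := by
  have h0 := X.r_nonneg hr.con.cyc
  refine H.tip_of_far (z := lf A) (r := r₀ + 2) (x := kt) hr.att hr.tip hr.con hN hU
    (by unfold LC.InB; omega) (not_inB_mono f1 (by omega)) (not_inB_mono f2 (by omega)) ?_ ?_
  · intro i hi hfar
    refine X.b i ?_ hi
    by_contra hcon
    exact hfar (X.nearR hr.con.cyc (by omega))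
  · intro i hi hi' hfar
    refine X.l i hi ?_
    by_contra hcon
    exact hfar (X.nearL (by omega) hi')

/-! ### The data of the kernel -/

/-- The vertices of the stop arc on the contour of the true domain. -/
theorem TSide.vert_arc (S : TSide U P D κ a b L A τ m p q Y T n N₁ N₂ mU M s t u K) {i : ℕ}
    (hi : K ≤ i) (hi' : i ≤ K + (N₂ - N₁)) :
    vert (T : Set (ℤ × ℤ)) τ i = vert (inn D A Y) A (N₁ + (i - K)) := by
  have h := S.lay.toLayBar.arc (i - K) (by omega)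
  unfold vert
  rw [← h]
  congr 2
  omega

/-- **The labels**, from two links. -/
theorem TSide.labE (S : TSide U P D κ a b L A τ m p q Y T n N₁ N₂ mU M s t u K)
    (H : Mvd U P D κ d A m p q) (X : TrueD Ξ c R U τ mU kt x) (hT : inF U τ x ∉ T)
    {Pf : Finset (ℤ × ℤ)} (hPf : (Pf : Set (ℤ × ℤ)) = inn D A Y)
    (Lb : LabI U (inn D A Y) κ A τ r₀ mU kt n N₁ N₂ h₁ h₂) {σ : ℤ} (hσ : r₀ + 2 + d ≤ σ)
    (f1 : ¬ LC.InB (lf A) (σ + 1) (vert (inn D A Y) A N₁))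
    (f2 : ¬ LC.InB (lf A) (σ + 1) (vert (inn D A Y) A N₂)) :
    LabE U P T Pf κ d τ A N₁ N₂ n mU M s t u K kt h₁ h₂ (lf A) (r₀ + 2) σ := by
  obtain ⟨g1, g2, g3, g4⟩ := S.idx X hT
  have hcyc := S.run.con.cyc
  have hpos := S.run.con.pos
  have hlay := S.lay
  rw [S.eqT] at hlay
  exact {
    toLabG := labG_of_mvd H S.run.att S.run.tip S.run.con S.lt S.eqT hPf hlay
    hσ := hσ
    farR := by
      rw [hPf]
      refine not_inB_ua₂ (r' := σ + 1) ?_ le_rfl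
      rwa [Nat.sub_add_cancel (show 1 ≤ N₁ by omega)]
    farL := by
      rw [hPf]
      exact not_inB_ua₁ f2 le_rfl
    h1 := Lb.h1
    h2 := Lb.h2
    h2m := Lb.h2n
    n1 := fun i hi => by rw [hPf]; exact Lb.nearR hcyc hi
    n2 := fun i hi hi' => by rw [hPf]; exact Lb.nearL hi hi'
    e1 := by rw [hPf]; exact Lb.b h₁ le_rfl Lb.h1
    e2 := by rw [hPf]; exact Lb.l h₂ Lb.h2 le_rfl
    sx := by omega
    xu := g4 }

/-- **The data of the kernel** for one attached set, from the labels `LabI` and one distance. -/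
theorem TSide.mvDom' (S : TSide U P D κ a b L A τ m p q Y T n N₁ N₂ mU M s t u K)
    (H : Mvd U P D κ d A m p q) (X : TrueD Ξ c R U τ mU kt x) (hT : inF U τ x ∉ T)
    {Pf : Finset (ℤ × ℤ)} (hPf : (Pf : Set (ℤ × ℤ)) = inn D A Y)
    (Lb : LabI U (inn D A Y) κ A τ r₀ mU kt n N₁ N₂ h₁ h₂) {E ρ : ℤ} (hE : r₀ + 2 + d ≤ E)
    (Eρ : E ≤ ρ)
    (far : ∀ i, N₁ ≤ i → i ≤ N₂ →
      ¬ LC.InB (lf A) (5 * ρ + 10 * E + 11) (vert (inn D A Y) A i))
    (gate : ∀ i, K ≤ i → i ≤ K + (N₂ - N₁) →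
      ¬ LC.Gate (T : Set (ℤ × ℤ)) (LC.av (vert (T : Set (ℤ × ℤ)) τ) 0 K)
        (LC.av (vert (T : Set (ℤ × ℤ)) τ) (K + (N₂ - N₁)) M) (vert (T : Set (ℤ × ℤ)) τ i)
        (6 * ρ)) :
    MvDom ((ℤ × ℤ) ⊕ ι) Ξ c R U τ.1 T M (vert (T : Set (ℤ × ℤ)) τ) (s + 1) K (K + (N₂ - N₁)) t Pf
      n (vert (inn D A Y) A) N₁ N₂ (subK P κ) (lf A) E ρ := by
  have hcyc := S.run.con.cyc
  have hpos := S.run.con.pos
  have hlt := S.run.con.lt
  have h0 := Lb.r_nonneg hcyc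
  have hd1 := H.app.d_pos
  have hd : d ≤ E := by omega
  have fN1 := not_inB_mono (r := E + 1) (far N₁ le_rfl hlt.le) (by omega)
  have fN2 := not_inB_mono (r := E + 1) (far N₂ hlt.le le_rfl) (by omega)
  have LE := S.labE H X hT hPf Lb hE fN1 fN2
  have hc := S.clo H
  have app₂ : App (T : Set (ℤ × ℤ)) (inn D A Y) (subK P κ) E :=
    (H.app.dom hc.DT (S.TU H) (fun f hf hfP => hc.inter hf hfP)
      (fun f hf => H.DP (S.run.sub hf))).mono hd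
  refine mvDom_of S H hPf (S.capDom H X hT) (fun ξ f hf => X.agr ξ f (S.TU H (Finset.mem_coe.2 hf)))
    app₂ Eρ ?_ ?_ ?_ ?_ ?_ ?_ ?_ gate (S.near_capR H hd) (S.near_capL H hd)
  · rw [← hPf]
    exact fun e e' i i' h1 h2 h3 h4 h5 h6 h7 => LE.labb le_rfl e e' i i' h1 h2 h3 h4 h5 h6 h7
  · rw [← hPf]
    exact fun e e' i i' h1 h2 h3 h4 h5 h6 h7 => LE.labo le_rfl e e' i i' h1 h2 h3 h4 h5 h6 h7
  · rw [← hPf]
    exact fun e e' i i' h1 h2 h3 h4 h5 h6 => LE.labc e e' i i' h1 h2 h3 h4 h5 h6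
  · refine ⟨N₁ - 1, by omega, fun e he => ?_⟩
    rw [ua_of_joins he]
    refine not_inB_ua₂ (r' := E + 1) ?_ le_rfl
    rwa [Nat.sub_add_cancel (show 1 ≤ N₁ by omega)]
  · refine ⟨N₂, le_rfl, S.lt, fun e he => ?_⟩
    rw [ua_of_joins he]
    exact not_inB_ua₁ fN2 le_rfl
  · intro i h1 h2
    rw [S.vert_arc h1 h2]
    exact not_inB_mono (far _ (by omega) (by omega)) (by omega)
  · intro i h1 h2 e he
    rw [ua_of_joins he]
    exact not_inB_ua₁ (far i h1 h2.le) (by omega)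

/-! ### The target -/

/-- The face at the coarse target side is not in the inner domain. -/
theorem tgt_nG {B : UE × Bool} (H : Mvd U P D κ d A m p q)
    (hr : RunS a b L D A p q Y m n N₁ N₂) (hB : BD P B)
    (hex : ∀ i < m, side D A i = B → p ≤ i ∧ i ≤ q) : ahead B ∉ inn D A Y := by
  intro hG
  obtain ⟨h3, h4⟩ := inn_sub hr.tipm hG
  have hBD : BD D B := ⟨h3, fun hh => hB.2 (H.DP hh)⟩
  obtain ⟨j, hj, hjs⟩ := H.cyc.exists_index hBD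
  obtain ⟨h5, h6⟩ := hex j hj hjs
  exact h4 (hr.att.on ⟨j, h5, h6, by unfold inF; rw [hjs]⟩)

/-- **The true target**, if it is linked to the coarse target side `B`. -/
theorem notMem_of_link {B C : UE × Bool} (H : Mvd U P D κ d A m p q)
    (hr : RunS a b L D A p q Y m n N₁ N₂) (hN : N₂ < n) (hB : BD P B)
    (hnG : ahead B ∉ inn D A Y) (hl : LinkK U κ B C) :
    ahead C ∉ domT U Y (capK U κ (gR D A Y N₁)) (capK U κ (gL D A Y N₂)) A := by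
  have hc := H.clo hr.att hr.tip hr.con hN
  rcases hl with hl | ⟨hgU, hl⟩
  · rw [← hl]
    exact fun hT => hnG (hc.inter hT hB.1)
  · have hs : ∀ f ∈ capC U κ (ahead (rv B)), κ f = κ (ahead (rv B)) ∧ f ∈ U := fun f hf =>
      capC_sub hgU hf
    have hcap : ∀ g', ∀ f ∈ capC U κ (ahead (rv B)), ∀ f' ∈ capC U κ (ahead (rv B)), AdjF f f' →
        f ∈ capK U κ g' → f' ∈ capK U κ g' := by
      intro g' f hf f' hf' ha hK
      obtain ⟨h1, h2⟩ := capK_mem_U hK (hs f hf).2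
      refine Or.inl ⟨h1, compT_step h2 ha ⟨?_, (hs f' hf').2⟩⟩
      show κ f' = κ g'
      rw [(hs f' hf').1, ← (hs f hf).1, capK_class hK]
    exact hc.target_notMem (H.hcomp hr.att) (q := ahead B) (g := ahead (rv B)) hB.1 hnG
      (adjF_ahead B) self_mem_compT (fun f hf => (hs f hf).2)
      (fun f hf hP => hB.2 (H.app.sat _ _ (hs f hf).1 hP)) (hcap _) (hcap _)
      (Or.inr (compT_chain self_mem_compT hl))

/-- **The true target**, if it is joined to the face at the coarse target side `B` inside a set `Q` of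
fresh faces which is in one cell and which has no face of the classes of the caps. -/
theorem notMem_of_near {z : ℤ × ℤ} {Q : Set (ℤ × ℤ)} (H : Mvd U P D κ d A m p q)
    (hr : RunS a b L D A p q Y m n N₁ N₂) (hN : N₂ < n) (hz : z ∈ P)
    (hnG : z ∉ inn D A Y) (hQU : Q ⊆ U) (hzQ : z ∈ Q)
    (hcell : ∀ f ∈ Q, gc a b L f = gc a b L z)
    (hR : ∀ f ∈ Q, κ f ≠ κ (gR D A Y N₁)) (hL : ∀ f ∈ Q, κ f ≠ κ (gL D A Y N₂))
    {y : ℤ × ℤ} (hch : ChI Q z y) :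
    y ∉ domT U Y (capK U κ (gR D A Y N₁)) (capK U κ (gL D A Y N₂)) A := by
  have hc := H.clo hr.att hr.tip hr.con hN
  have key : y ∈ Q ∧ y ∉ domT U Y (capK U κ (gR D A Y N₁)) (capK U κ (gL D A Y N₂)) A := by
    induction hch with
    | refl => exact ⟨hzQ, fun hT => hnG (hc.inter hT hz)⟩
    | @tail f g _ hs ih =>
      obtain ⟨hfQ, hfT⟩ := ih
      refine ⟨hs.2, fun hgT => ?_⟩
      have hfP : f ∈ P := by
        rcases H.hcomp hr.att g hgT f hs.1.symm hfT with h | h | h | h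
        · exact absurd (hQU hfQ) h
        · exact h
        · exact absurd (capK_class h) (hR f hfQ)
        · exact absurd (capK_class h) (hL f hfQ)
      have hfG : f ∉ inn D A Y := fun h => hfT (hc.DT h)
      have hgG : g ∈ inn D A Y := by
        by_contra hgG
        exact hc.not_adj hgT hgG hfP hfG hs.1.symm
      exact hfG (inn_step H hr hgG hfP hs.1.symm ((hcell g hs.2).trans (hcell f hfQ).symm))
  exact key.2

/-- The same with distances: `Q` is the part of the fresh faces in the box of radius `ρ₀` around `v`. -/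
theorem notMem_of_box {z v : ℤ × ℤ} {ρ₀ : ℤ} (H : Mvd U P D κ d A m p q)
    (hr : RunS a b L D A p q Y m n N₁ N₂) (hN : N₂ < n) (hz : z ∈ P)
    (hnG : z ∉ inn D A Y) (hzv : LC.InB v ρ₀ z)
    (hcell : ∀ f, LC.InB v ρ₀ f → gc a b L f = gc a b L z)
    (f1 : ¬ LC.InB v (ρ₀ + d + 2) (vert (inn D A Y) A N₁))
    (f2 : ¬ LC.InB v (ρ₀ + d + 2) (vert (inn D A Y) A N₂))
    {y : ℤ × ℤ} (hch : ChI {f | f ∈ U ∧ LC.InB v ρ₀ f} z y) :
    y ∉ domT U Y (capK U κ (gR D A Y N₁)) (capK U κ (gL D A Y N₂)) A := by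
  have hd := H.app.d_pos
  have hpos := hr.con.pos
  have hcor : IsCor (gR D A Y N₁) (vert (inn D A Y) A N₁) := by
    obtain ⟨j, rfl⟩ : ∃ j, N₁ = j + 1 := ⟨N₁ - 1, by omega⟩
    rw [vert_succ]
    unfold gR outF
    rw [Nat.add_sub_cancel]
    exact isCor_out_rg _
  have hcor' : IsCor (gL D A Y N₂) (vert (inn D A Y) A N₂) := isCor_out_lf _
  refine notMem_of_near (Q := {f | f ∈ U ∧ LC.InB v ρ₀ f}) H hr hN hz hnG (fun f hf => hf.1)
    ⟨H.app.sub hz, hzv⟩ (fun f hf => hcell f hf.2) ?_ ?_ hch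
  · rintro f ⟨-, hf⟩
    refine class_ne (u := f) H.app ?_ hcor hf (r' := ρ₀ + d + 2) ?_ (by omega)
    · unfold IsCor; omega
    · exact f1
  · rintro f ⟨-, hf⟩
    refine class_ne (u := f) H.app ?_ hcor' hf (r' := ρ₀ + d + 2) ?_ (by omega)
    · unfold IsCor; omega
    · exact f2

/-! ### One family of attached sets -/

/-- **All data of one move.** `𝒦` the family of the sets of removed cells, `cf K` their faces, `Z` the
barrier; `τ` the true tip side, `x` the number of the true target side, `A`, `B` the coarse tip and target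
side. `r₀`, `s₀` the radii of the parts without label at the tip and at the target. -/
structure MvS {ι ι' : Type} (𝒦 : Finset (Finset ι')) (cf : Finset ι' → Set (ℤ × ℤ))
    (Ξ : Cfg → Cfg) (c : ℤ) (R U P D : Set (ℤ × ℤ)) (κ : ℤ × ℤ → ι) (d a b L : ℤ)
    (A τ B : UE × Bool) (m p q mU kt x : ℕ) (n N₁ N₂ : Finset ι' → ℕ) (Z : Set (ℤ × ℤ))
    (r₀ s₀ E ρ : ℤ) : Prop where
  mvd : Mvd U P D κ d A m p q
  tru : TrueD Ξ c R U τ mU kt x
  lab : ∃ mP i₁ j₁ t j₂ i₂, LabP U P κ A τ B r₀ s₀ mP mU kt i₁ j₁ t j₂ i₂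
  run : ∀ K ∈ 𝒦, RunS a b L D A p q (Z ∪ cf K) m (n K) (N₁ K) (N₂ K)
  lt : ∀ K ∈ 𝒦, N₂ K < n K
  hex : ∀ i < m, side D A i = B → p ≤ i ∧ i ≤ q
  hcell : ∀ f ∈ sqF (s₀ + 1) (ahead B), gc a b L f = gc a b L (ahead B)
  tgt : ∀ K ∈ 𝒦, inF U τ x ∉
    domT U (Z ∪ cf K) (capK U κ (gR D A (Z ∪ cf K) (N₁ K))) (capK U κ (gL D A (Z ∪ cf K) (N₂ K))) A
  hE : r₀ + 2 + d ≤ E
  Eρ : E ≤ ρ
  far : ∀ K ∈ 𝒦, ∀ i, N₁ K ≤ i → i ≤ N₂ K →
    ¬ LC.InB (lf A) (5 * ρ + 10 * E + 11) (vert (inn D A (Z ∪ cf K)) A i)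
  gate : ∀ K ∈ 𝒦, ∀ T M s t u k,
    TSide U P D κ a b L A τ m p q (Z ∪ cf K) T (n K) (N₁ K) (N₂ K) mU M s t u k →
    ∀ i, k ≤ i → i ≤ k + (N₂ K - N₁ K) →
      ¬ LC.Gate (T : Set (ℤ × ℤ)) (LC.av (vert (T : Set (ℤ × ℤ)) τ) 0 k)
        (LC.av (vert (T : Set (ℤ × ℤ)) τ) (k + (N₂ K - N₁ K)) M) (vert (T : Set (ℤ × ℤ)) τ i)
        (6 * ρ)

namespace MvS

variable {ι ι' : Type} {𝒦 : Finset (Finset ι')} {cf : Finset ι' → Set (ℤ × ℤ)} {Ξ : Cfg → Cfg}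
  {c : ℤ} {R U P D : Set (ℤ × ℤ)} {κ : ℤ × ℤ → ι} {d a b L : ℤ} {A τ B : UE × Bool}
  {m p q mU kt x : ℕ} {n N₁ N₂ : Finset ι' → ℕ} {Z : Set (ℤ × ℤ)} {r₀ s₀ E ρ : ℤ}
  (h : MvS 𝒦 cf Ξ c R U P D κ d a b L A τ B m p q mU kt x n N₁ N₂ Z r₀ s₀ E ρ)

include h

/-- The labels of the inner domains. -/
theorem labI {K : Finset ι'} (hK : K ∈ 𝒦) : ∃ h₁ h₂,
    LabI U (inn D A (Z ∪ cf K)) κ A τ r₀ mU kt (n K) (N₁ K) (N₂ K) h₁ h₂ := by
  obtain ⟨mP, i₁, j₁, t, j₂, i₂, X⟩ := h.lab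
  have hd := h.mvd.app.d_pos
  have h1 := h.hE
  have h2 := h.Eρ
  have hlt := (h.run K hK).con.lt
  have h0 : 0 ≤ r₀ := by
    have h3 := X.nrA 0 (Or.inl (Nat.zero_le _))
    have h4 : inF P A 0 = ahead A := rfl
    rw [h4] at h3
    have := h3.1
    rwa [sub_self, abs_zero] at this
  exact ⟨_, _, X.labI h.mvd (h.run K hK) (h.lt K hK) h.hex h.hcell
    (not_inB_mono (h.far K hK _ le_rfl hlt.le) (by omega))
    (not_inB_mono (h.far K hK _ hlt.le le_rfl) (by omega))⟩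

/-- **TIN.** -/
theorem tin {K : Finset ι'} (hK : K ∈ 𝒦) : ahead τ ∈
    domT U (Z ∪ cf K) (capK U κ (gR D A (Z ∪ cf K) (N₁ K)))
      (capK U κ (gL D A (Z ∪ cf K) (N₂ K))) A := by
  obtain ⟨h₁, h₂, X⟩ := h.labI hK
  have hd := h.mvd.app.d_pos
  have h1 := h.hE
  have h2 := h.Eρ
  have hlt := (h.run K hK).con.lt
  have h0 := X.r_nonneg (h.run K hK).con.cyc
  exact (X.tip h.mvd (h.run K hK) (h.lt K hK) h.tru.cyc
    (not_inB_mono (h.far K hK _ le_rfl hlt.le) (by omega))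
    (not_inB_mono (h.far K hK _ hlt.le le_rfl) (by omega))).1

/-- The face at the true target is not in the true domain. -/
theorem tgt' {K : Finset ι'} (hK : K ∈ 𝒦) {T : Finset (ℤ × ℤ)} {M s t u k : ℕ}
    (S : TSide U P D κ a b L A τ m p q (Z ∪ cf K) T (n K) (N₁ K) (N₂ K) mU M s t u k) :
    inF U τ x ∉ T := fun hh => h.tgt K hK (S.eqT ▸ Finset.mem_coe.2 hh)

/-- **The data of the kernel.** -/
theorem hdom {K : Finset ι'} (hK : K ∈ 𝒦) {T : Finset (ℤ × ℤ)} {M s t u k : ℕ}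
    {Pf : Finset (ℤ × ℤ)} (hPf : (Pf : Set (ℤ × ℤ)) = inn D A (Z ∪ cf K))
    (S : TSide U P D κ a b L A τ m p q (Z ∪ cf K) T (n K) (N₁ K) (N₂ K) mU M s t u k) :
    MvDom ((ℤ × ℤ) ⊕ ι) Ξ c R U τ.1 T M (vert (T : Set (ℤ × ℤ)) τ) (s + 1) k
      (k + (N₂ K - N₁ K)) t Pf (n K) (vert (inn D A (Z ∪ cf K)) A) (N₁ K) (N₂ K) (subK P κ) (lf A)
      E ρ := by
  obtain ⟨h₁, h₂, X⟩ := h.labI hK
  exact S.mvDom' h.mvd h.tru (h.tgt' hK S) hPf X h.hE h.Eρ (h.far K hK)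
    (h.gate K hK _ _ _ _ _ _ S)

/-- **The strand enters `U` without the true domain.** -/
theorem hstop {K : Finset ι'} (hK : K ∈ 𝒦) (ξ : Cfg) : ∃ i, fa (pth (Ξ ξ) τ.1 i) ∈ U ∧
    fa (pth (Ξ ξ) τ.1 i) ∉ domT U (Z ∪ cf K) (capK U κ (gR D A (Z ∪ cf K) (N₁ K)))
      (capK U κ (gL D A (Z ∪ cf K) (N₂ K))) A := by
  obtain ⟨T, M, s, t, u, k, S⟩ := exists_tside h.mvd (h.run K hK) (h.lt K hK) h.tru.cyc (h.tin hK)
  obtain ⟨i, h1, h2⟩ := S.stop h.mvd h.tru (h.tgt' hK S) ξ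
  exact ⟨i, h1, fun hh => h2 (Finset.mem_coe.1 (S.eqT ▸ hh))⟩

theorem hstop₀ (h0 : ∅ ∈ 𝒦) (hcf : cf ∅ = ∅) (ξ : Cfg) : ∃ i, fa (pth (Ξ ξ) τ.1 i) ∈ U ∧
    fa (pth (Ξ ξ) τ.1 i) ∉ domT U Z (capK U κ (gR D A Z (N₁ ∅))) (capK U κ (gL D A Z (N₂ ∅))) A := by
  have := h.hstop h0 ξ
  rwa [hcf, Set.union_empty] at this

end MvS

/-- **The kernel for one past**, from `MvS`. -/
theorem kernel_mvS : ∃ C α : ℝ, 0 < C ∧ 0 < α ∧ ∀ {ι ι' ρt : Type} [DecidableEq ι']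
    {𝒦 : Finset (Finset ι')} {cf : Finset ι' → Set (ℤ × ℤ)} {av : Cfg → ι' → Prop}
    {rn' : Cfg → ρt} {Ξ : Cfg → Cfg} {c : ℤ} {R U P D : Set (ℤ × ℤ)} {κ : ℤ × ℤ → ι}
    {d a b L : ℤ} {A τ B : UE × Bool} {m p q mU kt x : ℕ}
    {n N₁ N₂ y₁ y₂ : Finset ι' → ℕ} {Pf : Finset ι' → Finset (ℤ × ℤ)}
    {r₀ s₀ E ρ : ℤ} {Z Zp : Set (ℤ × ℤ)} {W : Finset (ℤ × ℤ)} {r' : ρt} {r : ℕ},
    (∀ K ∈ 𝒦, ∀ K' ∈ 𝒦, K ∪ K' ∈ 𝒦) → ∅ ∈ 𝒦 → cf ∅ = ∅ → (∀ K ∈ 𝒦, ∀ f ∈ cf K, f ∉ Z) →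
    MvS 𝒦 cf Ξ c R U P D κ d a b L A τ B m p q mU kt x n N₁ N₂ Z r₀ s₀ E ρ →
    (∀ K ∈ 𝒦, (Pf K : Set (ℤ × ℤ)) = inn D A (Z ∪ cf K)) →
    (∀ K ∈ 𝒦, RMark (inn D A Z) (inn D A (Z ∪ cf K)) A (N₁ K) (N₂ K)
      (rs a b L (inn D A Z) A (N₁ ∅) (N₂ ∅) r) (rs a b L (inn D A Z) A (N₁ ∅) (N₂ ∅) (r + 1))
      (y₁ K) (y₂ K)) →
    Z ⊆ Zp → Zp ⊆ U →
    (∀ f ∈ Zp, f ∉ domT U Z (capK U κ (gR D A Z (N₁ ∅))) (capK U κ (gL D A Z (N₂ ∅))) A) →
    U ⊆ W →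
    (∀ K ∈ 𝒦, ∀ ξ, StopE τ.1 Zp (runE (inn D A Z) A (N₁ ∅) (N₂ ∅)) (Ξ ξ) →
      ((∀ i ∈ K, av (Ξ ξ) i) ∧ rn' (Ξ ξ) = r' ↔ Ξ ξ ∈ MoveEv τ.1 Zp (cf K)
        (runE (inn D A Z) A (rs a b L (inn D A Z) A (N₁ ∅) (N₂ ∅) r)
          (rs a b L (inn D A Z) A (N₁ ∅) (N₂ ∅) (r + 1))))) →
    ∀ K ∈ 𝒦, |pr W {ξ | RunRec 𝒦 av rn' (Ξ ξ) = (K, r')} -
      Mob 𝒦 (fun K => Xmk c (Pf K) (vert (inn D A (Z ∪ cf K)) A) (N₁ K) (N₂ K) (y₁ K) -
        Xmk c (Pf K) (vert (inn D A (Z ∪ cf K)) A) (N₁ K) (N₂ K) (y₂ K)) K| ≤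
      2 ^ 𝒦.card * (C * ((E : ℝ) / ρ) ^ α) := by
  obtain ⟨C, α, hC, hα, key⟩ := kernel_fam_stop
  refine ⟨C, α, hC, hα, ?_⟩
  intro ι ι' ρt _ 𝒦 cf av rn' Ξ c R U P D κ d a b L A τ B m p q mU kt x n N₁ N₂ y₁ y₂ Pf r₀ s₀ E ρ Z
    Zp W r' r hK h0 hcf0 hdis h hPf hmk hZZp hZpU hZp0 hUW hrec
  exact key (κ₂ := fun _ => subK P κ) (v := lf A) (E := E) (ρ := ρ) (Pf := Pf) hK h0 h.mvd h.tru.cyc
    hcf0 hdis h.run h.lt hPf hmk (fun K hK' => h.tin hK')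
    (fun K hK' T M s t u k S => h.hdom hK' (hPf K hK') S) hZZp hZpU hZp0 (h.hstop₀ h0 hcf0) hUW hrec

/-- **The stop is regular off a rare event**, from `MvS`. -/
theorem not_stopR_mvS : ∃ C α : ℝ, 0 < C ∧ 0 < α ∧ ∀ {ι ι' : Type} [DecidableEq ι']
    {𝒦 : Finset (Finset ι')} {cf : Finset ι' → Set (ℤ × ℤ)} {Ξ : Cfg → Cfg} {c : ℤ}
    {R U P D : Set (ℤ × ℤ)} {κ : ℤ × ℤ → ι} {d a b L : ℤ} {A τ B : UE × Bool}
    {m p q mU kt x : ℕ} {n N₁ N₂ : Finset ι' → ℕ} {r₀ s₀ E ρ : ℤ} {Z : Set (ℤ × ℤ)}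
    {W : Finset (ℤ × ℤ)}, ∅ ∈ 𝒦 → cf ∅ = ∅ →
    MvS 𝒦 cf Ξ c R U P D κ d a b L A τ B m p q mU kt x n N₁ N₂ Z r₀ s₀ E ρ →
    (inn D A Z).Finite → U ⊆ W →
    pr W {ξ | ¬ ∃ σ, StopR τ.1 U
      (domT U Z (capK U κ (gR D A Z (N₁ ∅))) (capK U κ (gL D A Z (N₂ ∅))) A) Z
      (runE (inn D A Z) A (N₁ ∅) (N₂ ∅)) (Ξ ξ) σ} ≤ C * ((E : ℝ) / ρ) ^ α := by
  obtain ⟨C, α, hC, hα, key⟩ := pr_not_stopR_fam
  refine ⟨C, α, hC, hα, ?_⟩
  intro ι ι' _ 𝒦 cf Ξ c R U P D κ d a b L A τ B m p q mU kt x n N₁ N₂ r₀ s₀ E ρ Z W h0 hcf0 h hfin hUW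
  have e0 : Z ∪ cf ∅ = Z := by rw [hcf0, Set.union_empty]
  have h1 := h.run ∅ h0
  have h2 := h.tin h0
  have h3 := fun T M s t u k => h.hdom h0 (T := T) (M := M) (s := s) (t := t) (u := u) (k := k)
    (Pf := hfin.toFinset) (by rw [e0]; exact hfin.coe_toFinset)
  rw [e0] at h1 h2
  simp only [e0] at h3
  exact key (κ₂ := subK P κ) (v := lf A) (E := E) (ρ := ρ) (Pf := hfin.toFinset) h.mvd h.tru.cyc h1
    (h.lt ∅ h0) h2 (fun T M s t u k S => h3 T M s t u k S) (h.hstop₀ h0 hcf0) hUW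

end Pool.Agent.SixB.Mv
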