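import Pool.Agent.Lib.SixB.S8Thick

/-!
# Step 8, unit 8H: a run of the stop arc under removal of cells

A run is an interval `a, …, b` of indices of the contour of the inner domain `inn D A Y`, all whose
steps are straight and stay in the same cell. When more cells are removed (`Y ⊆ Y'`), the sides of a
run are either all on the contour of `inn D A Y'`, and then they form an interval of it in the same
order, or none of them is.
-/

set_option autoImplicit false

namespace Pool.Agent.SixB.Mv

open Pool.Agent.Perc Pool.Agent.Perc6 Pool.Agent.Perc6.C2Aux Pool.Agent.Perc.Tips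
open Pool.Agent.SixB.Top

variable {ι : Type*} {D Y Y' : Set (ℤ × ℤ)} {A : UE × Bool} {p q m : ℕ} {κ : ℤ × ℤ → ι}

/-- The step from the side `i` to the side `i + 1` of the contour of `G` is straight and the faces of
`G` at the two sides are in the same cell. -/
structure Straight (G : Set (ℤ × ℤ)) (A : UE × Bool) (κ : ℤ × ℤ → ι) (i : ℕ) : Prop where
  st : side G A (i + 1) = rv (rtn (rtn (side G A i)))
  cell : κ (inF G A i) = κ (inF G A (i + 1))

theorem Straight.ahead_rtn {G : Set (ℤ × ℤ)} {i : ℕ} (h : Straight G A κ i) :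
    ahead (rtn (side G A i)) = inF G A (i + 1) := by
  unfold inF
  rw [h.st, ahead_rv_rtn]

theorem Straight.ahead_rtn_two {G : Set (ℤ × ℤ)} {i : ℕ} (h : Straight G A κ i) :
    ahead (rtn (rtn (side G A i))) = outF G A (i + 1) := by
  unfold outF
  rw [h.st, rv_rv]

theorem Straight.adj {G : Set (ℤ × ℤ)} {i : ℕ} (h : Straight G A κ i) :
    AdjF (inF G A i) (inF G A (i + 1)) := by
  rw [← h.ahead_rtn]
  exact adjF_rtn _

/-- The step of the smaller region. -/
theorem Straight.sc_eq {G G' : Set (ℤ × ℤ)} {i : ℕ} (h : Straight G A κ i) (hG : BD G A)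
    (hGG : G' ⊆ G) (hin : inF G A (i + 1) ∈ G') : sc G' (side G A i) = side G A (i + 1) := by
  have h1 : ahead (rtn (side G A i)) ∈ G' := by rw [h.ahead_rtn]; exact hin
  have h2 : ahead (rtn (rtn (side G A i))) ∉ G' := by
    rw [h.ahead_rtn_two]
    exact fun hh => outF_notMem hG _ (hGG hh)
  rw [sc_straight h1 h2, h.st]

theorem Straight.bd_iff (hYY : Y ⊆ Y') (hY' : Sat D κ Y') (hA : ahead A ∈ D \ Y')
    (hAD : ahead (rv A) ∉ D) {i : ℕ} (h : Straight (inn D A Y) A κ i) :
    BD (inn D A Y') (side (inn D A Y) A i) ↔ BD (inn D A Y') (side (inn D A Y) A (i + 1)) := by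
  have hbd : BD (inn D A Y) A :=
    bd_inn ⟨hA.1, hAD⟩ fun hh => hA.2 (hYY hh)
  have hsub : inn D A Y' ⊆ inn D A Y := inn_anti hYY
  have hAY : ahead A ∈ D \ Y := ⟨hA.1, fun hh => hA.2 (hYY hh)⟩
  have hinD : ∀ j, inF (inn D A Y) A j ∈ D := fun j => (inn_sub hAY (bd_side hbd j).1).1
  constructor
  · intro hb
    exact ⟨inn_adj hY' hA hb.1 (hinD _) h.adj h.cell, fun hh => outF_notMem hbd _ (hsub hh)⟩
  · intro hb
    exact ⟨inn_adj hY' hA hb.1 (hinD _) h.adj.symm h.cell.symm,
      fun hh => outF_notMem hbd _ (hsub hh)⟩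

/-- **A run is an interval of the contour of the smaller domain, or disjoint from it.** -/
theorem run_interval (hYY : Y ⊆ Y') (hY' : Sat D κ Y') (hA : ahead A ∈ D \ Y')
    (hAD : ahead (rv A) ∉ D) {a b : ℕ} (hrun : ∀ i, a ≤ i → i < b → Straight (inn D A Y) A κ i)
    {m' : ℕ} (hG : Cyc (inn D A Y') A m') :
    (∀ i, a ≤ i → i ≤ b → ¬ BD (inn D A Y') (side (inn D A Y) A i)) ∨
      ∃ t < m', ∀ i, a ≤ i → i ≤ b →
        BD (inn D A Y') (side (inn D A Y) A i) ∧
        side (inn D A Y') A (t + (i - a)) = side (inn D A Y) A i := by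
  have hbd : BD (inn D A Y) A :=
    bd_inn ⟨hA.1, hAD⟩ fun hh => hA.2 (hYY hh)
  have hsub : inn D A Y' ⊆ inn D A Y := inn_anti hYY
  by_cases ha : BD (inn D A Y') (side (inn D A Y) A a)
  · right
    obtain ⟨t, ht, hts⟩ := hG.exists_index ha
    refine ⟨t, ht, fun i hi hib => ?_⟩
    induction i, hi using Nat.le_induction with
    | base => exact ⟨ha, by rw [Nat.sub_self, Nat.add_zero]; exact hts⟩
    | succ i hi ih =>
      obtain ⟨ih1, ih2⟩ := ih (by omega)
      have hst := hrun i hi (by omega)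
      have hb := (hst.bd_iff hYY hY' hA hAD).1 ih1
      refine ⟨hb, ?_⟩
      have e1 : t + (i + 1 - a) = t + (i - a) + 1 := by omega
      rw [e1, side_succ, ih2]
      exact hst.sc_eq hbd hsub hb.1
  · left
    intro i hi hib
    induction i, hi using Nat.le_induction with
    | base => exact ha
    | succ i hi ih =>
      have hst := hrun i hi (by omega)
      exact fun hb => ih (by omega) ((hst.bd_iff hYY hY' hA hAD).2 hb)

/-- The run does not pass the tip side: the indices `t, …, t + (b - a)` are smaller than the period,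
if the outer faces of the run are in `Y'`. -/
theorem run_lt (hAD : ahead (rv A) ∉ D) (hYD : Y' ⊆ D) {a b : ℕ}
    (hout : ∀ i, a ≤ i → i ≤ b → outF (inn D A Y) A i ∈ Y') {m' t : ℕ}
    (hG : Cyc (inn D A Y') A m') (ht : t < m')
    (h : ∀ i, a ≤ i → i ≤ b → side (inn D A Y') A (t + (i - a)) = side (inn D A Y) A i)
    (hab : a ≤ b) : t + (b - a) < m' := by
  by_contra hcon
  have h1 := h (a + (m' - t)) (by omega) (by omega)
  have e1 : t + (a + (m' - t) - a) = m' := by omega
  rw [e1, hG.per] at h1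
  have h2 := hout (a + (m' - t)) (by omega) (by omega)
  unfold outF at h2
  rw [← h1] at h2
  exact hAD (hYD h2)

/-- The indices of the run are in the middle part of the contour of the smaller domain. -/
theorem run_mid {a b m' N₁ N₂ : ℕ} (hc : Contig D A p q Y' m m' N₁ N₂) (hD : Cyc D A m)
    (hAD : ahead (rv A) ∉ D) (hYD : Y' ⊆ D)
    (hout : ∀ i, a ≤ i → i ≤ b → outF (inn D A Y) A i ∈ Y') {t : ℕ} (ht : t < m')
    (h : ∀ i, a ≤ i → i ≤ b → side (inn D A Y') A (t + (i - a)) = side (inn D A Y) A i)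
    (hab : a ≤ b) {i : ℕ} (hi : a ≤ i) (hib : i ≤ b) :
    N₁ ≤ t + (i - a) ∧ t + (i - a) < N₂ := by
  have hlt := run_lt hAD hYD hout hc.cyc ht h hab
  have h1 : outF (inn D A Y') A (t + (i - a)) ∈ D := by
    unfold outF
    rw [h i hi hib]
    exact hYD (hout i hi hib)
  constructor
  · by_contra hcon
    have h2 := hc.fst (t + (i - a)) (by omega)
    unfold outF at h1
    rw [h2] at h1
    exact (bd_side hD.bd _).2 h1
  · by_contra hcon
    have h2 := hc.lst (t + (i - a)) (by omega) (by omega)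
    unfold outF at h1
    rw [h2] at h1
    exact (bd_side hD.bd _).2 h1

end Pool.Agent.SixB.Mv
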