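import Pool.Agent.Lib.SixB.S8Run
import Pool.Agent.Lib.SixB.S8RunK

/-!
# Step 8, unit 8H: the geometry of a move

The block around the tip, the domain `D` of the move, its exit sides, the distances
of the grid lines from the tip, the number of cells and of grid vertices. The grid `gc a b L` is
arbitrary; `v` is a vertex (the tip), the block consists of the cells whose names differ by at most
`M` from the name of the cell of the face `v`.
-/

set_option autoImplicit false

namespace Pool.Agent.SixB.Mv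

open Finset Pool.Agent.Perc Pool.Agent.Perc6 Pool.Agent.Perc6.C2Aux Pool.Agent.Perc.Tips
open Pool.Agent.SixB.Top

variable {a b L M r : ℤ} {v : ℤ × ℤ} {P W D Y : Set (ℤ × ℤ)} {A B C : UE × Bool} {m p q : ℕ}

/-! ### Block -/

/-- The block: the cells with name at distance at most `M` from the name of the cell of `v`. -/
def blk (a b L M : ℤ) (v : ℤ × ℤ) : Set (ℤ × ℤ) :=
  {f | |(gc a b L f).1 - (gc a b L v).1| ≤ M ∧ |(gc a b L f).2 - (gc a b L v).2| ≤ M}

theorem blk_sat {f g : ℤ × ℤ} (h : gc a b L f = gc a b L g) (hf : f ∈ blk a b L M v) :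
    g ∈ blk a b L M v := by
  unfold blk at hf ⊢
  rw [Set.mem_setOf_eq] at hf ⊢
  rw [← h]
  exact hf

theorem self_mem_blk (hM : 0 ≤ M) : v ∈ blk a b L M v := by
  unfold blk
  simp [hM]

/-- The block is a rectangle. -/
theorem blk_eq (hL : 0 < L) : blk a b L M v =
    (RF (L * ((gc a b L v).1 - M) - a) (L * ((gc a b L v).1 + M + 1) - a)
      (L * ((gc a b L v).2 - M) - b) (L * ((gc a b L v).2 + M + 1) - b) : Set (ℤ × ℤ)) := by
  have key : ∀ x c t : ℤ, |(x + t) / L - c| ≤ M ↔ L * (c - M) - t ≤ x ∧ x < L * (c + M + 1) - t := by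
    intro x c t
    rw [abs_le]
    constructor
    · rintro ⟨h1, h2⟩
      have h3 : (c - M) ≤ (x + t) / L := by linarith
      have h4 : (x + t) / L < c + M + 1 := by linarith
      rw [Int.le_ediv_iff_mul_le hL] at h3
      rw [Int.ediv_lt_iff_lt_mul hL] at h4
      constructor <;> nlinarith
    · rintro ⟨h1, h2⟩
      have h3 : (c - M) ≤ (x + t) / L := by
        rw [Int.le_ediv_iff_mul_le hL]; nlinarith
      have h4 : (x + t) / L < c + M + 1 := by
        rw [Int.ediv_lt_iff_lt_mul hL]; nlinarith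
      constructor <;> linarith
  ext ⟨x, y⟩
  unfold blk
  rw [Set.mem_setOf_eq, Finset.mem_coe]
  unfold RF
  rw [Finset.mem_product, Finset.mem_Ico, Finset.mem_Ico]
  have h1 := key x (gc a b L v).1 a
  have h2 := key y (gc a b L v).2 b
  unfold gc at h1 h2 ⊢
  simp only at h1 h2 ⊢
  rw [h1, h2]

theorem blk_finite (hL : 0 < L) : (blk a b L M v).Finite := by
  rw [blk_eq hL]
  exact Finset.finite_toSet _

theorem esc_blk (hL : 0 < L) : Esc (blk a b L M v) := by
  rw [blk_eq hL]
  exact esc_RF _ _ _ _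

/-- The names of the cells of the block. -/
noncomputable def blkN (a b L M : ℤ) (v : ℤ × ℤ) : Finset (ℤ × ℤ) :=
  Finset.Icc ((gc a b L v).1 - M) ((gc a b L v).1 + M) ×ˢ
    Finset.Icc ((gc a b L v).2 - M) ((gc a b L v).2 + M)

theorem mem_blk_iff {f : ℤ × ℤ} : f ∈ blk a b L M v ↔ gc a b L f ∈ blkN a b L M v := by
  unfold blk blkN
  rw [Set.mem_setOf_eq, Finset.mem_product, Finset.mem_Icc, Finset.mem_Icc, abs_le, abs_le]
  constructor
  · rintro ⟨⟨h1, h2⟩, h3, h4⟩
    exact ⟨⟨by linarith, by linarith⟩, by linarith, by linarith⟩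
  · rintro ⟨⟨h1, h2⟩, h3, h4⟩
    exact ⟨⟨by linarith, by linarith⟩, by linarith, by linarith⟩

theorem card_blkN (hM : 0 ≤ M) : (blkN a b L M v).card = (2 * M.toNat + 1) ^ 2 := by
  unfold blkN
  rw [Finset.card_product, Int.card_Icc, Int.card_Icc]
  have h1 : ∀ c : ℤ, (c + M + 1 - (c - M)).toNat = 2 * M.toNat + 1 := by
    intro c
    have : c + M + 1 - (c - M) = 2 * M + 1 := by ring
    rw [this]
    omega
  rw [h1, h1]
  ring

/-! ### The domain of a move -/

/-- The domain of a move: the component of the tip in `P` inside the block. -/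
def domD (P W : Set (ℤ × ℤ)) (A : UE × Bool) : Set (ℤ × ℤ) := compT (P ∩ W) (ahead A)

theorem domD_sub (hA : ahead A ∈ P ∩ W) : domD P W A ⊆ P ∩ W := compT_sub hA

theorem self_mem_domD : ahead A ∈ domD P W A := self_mem_compT

theorem econn_domD (hA : ahead A ∈ P ∩ W) : EConn (domD P W A) := econn_compT hA

theorem bd_domD (hA : BD P A) (hAW : ahead A ∈ W) : BD (domD P W A) A :=
  ⟨self_mem_domD, fun h => hA.2 (domD_sub ⟨hA.1, hAW⟩ h).1⟩

theorem finite_domD (hf : P.Finite) (hA : ahead A ∈ P ∩ W) : (domD P W A).Finite :=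
  hf.subset fun _ h => (domD_sub hA h).1

theorem esc_domD (hf : P.Finite) (he : Esc P) (hW : Esc W) (hA : ahead A ∈ P ∩ W) :
    Esc (domD P W A) :=
  esc_compT (hf.subset fun _ h => h.1) (he.inter hW) hA

/-- A side of the domain is a side of `P` or it has an outer face in `P` outside the block. -/
theorem domD_out (hA : ahead A ∈ P ∩ W) (hC : BD (domD P W A) C) :
    (BD P C ∧ ahead (rv C) ∉ P) ∨ (ahead (rv C) ∈ P ∧ ahead (rv C) ∉ W) := by
  by_cases h : ahead (rv C) ∈ P
  · exact Or.inr ⟨h, fun hW => compT_bd_out hC ⟨h, hW⟩⟩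
  · exact Or.inl ⟨⟨(domD_sub hA hC.1).1, h⟩, h⟩

/-- The exit sides: the sides with an outer face in `P`, and the target side `B`. -/
def IsEx (P : Set (ℤ × ℤ)) (B C : UE × Bool) : Prop := ahead (rv C) ∈ P ∨ C = B

/-- There is an exit side. -/
theorem exists_exit (hc : EConn P) (hA : ahead A ∈ P ∩ W) (hB : BD P B) :
    ∃ C, BD (domD P W A) C ∧ IsEx P B C := by
  by_cases hBD : ahead B ∈ domD P W A
  · exact ⟨B, ⟨hBD, fun h => hB.2 (domD_sub hA h).1⟩, Or.inr rfl⟩
  have hch := hc _ hA.1 _ hB.1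
  have key : ∀ g, Relation.ReflTransGen (fun a b => AdjF a b ∧ b ∈ P) (ahead A) g →
      g ∉ domD P W A → ∃ f k, f ∈ domD P W A ∧ k ∉ domD P W A ∧ AdjF f k ∧ k ∈ P := by
    intro g hg
    induction hg with
    | refl => exact fun h => absurd self_mem_domD h
    | @tail x y hx hs ih =>
      intro hy
      by_cases hxD : x ∈ domD P W A
      · exact ⟨x, y, hxD, hy, hs.1, hs.2⟩
      · exact ih hxD
  obtain ⟨f, k, hf, hk, ⟨hne, e, he1, he2⟩, hkP⟩ := key _ hch hBD
  have h1 : IsSide (ahead (e, true)) e := isSide_ahead e true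
  have h2 : IsSide (ahead (e, false)) e := isSide_ahead e false
  have h3 : ahead (e, true) ≠ ahead (e, false) := ahead_ne (e, true)
  rcases side_two hne he1 he2 h1 with h4 | h4
  · have h5 : ahead (e, false) = k := by
      rcases side_two hne he1 he2 h2 with h | h
      · exact absurd (h4.trans h.symm) h3
      · exact h
    refine ⟨(e, true), ⟨by rw [h4]; exact hf, ?_⟩, Or.inl ?_⟩
    · change ahead (e, false) ∉ _
      rw [h5]; exact hk
    · change ahead (e, false) ∈ _
      rw [h5]; exact hkP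
  · have h5 : ahead (e, false) = f := by
      rcases side_two hne he1 he2 h2 with h | h
      · exact h
      · exact absurd (h4.trans h.symm) h3
    refine ⟨(e, false), ⟨by rw [h5]; exact hf, ?_⟩, Or.inl ?_⟩
    · change ahead (e, true) ∉ _
      rw [h4]; exact hk
    · change ahead (e, true) ∈ _
      rw [h4]; exact hkP

/-- The contour of `D` from `A` has `m` sides; `p` and `q` are the first and the last index of a side
in `E`. -/
structure ArcsE (D : Set (ℤ × ℤ)) (A : UE × Bool) (E : UE × Bool → Prop) (m p q : ℕ) : Prop where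
  cyc : Cyc D A m
  le : p ≤ q
  lt : q < m
  memp : E (side D A p)
  memq : E (side D A q)
  first : ∀ i < p, ¬ E (side D A i)
  last : ∀ i, q < i → i < m → ¬ E (side D A i)

theorem exists_arcsE {E : UE × Bool → Prop} (h : Cyc D A m) (hE : ∃ C, BD D C ∧ E C) :
    ∃ p q, ArcsE D A E m p q := by
  classical
  obtain ⟨C, hC, hEC⟩ := hE
  obtain ⟨c, hc, hcs⟩ := h.exists_index hC
  have hex : ∃ i, E (side D A i) := ⟨c, by rw [hcs]; exact hEC⟩
  set S := (Finset.range m).filter fun i => E (side D A i) with hS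
  have hSne : S.Nonempty :=
    ⟨c, Finset.mem_filter.2 ⟨Finset.mem_range.2 hc, by rw [hcs]; exact hEC⟩⟩
  obtain ⟨hq1, hq2⟩ := Finset.mem_filter.1 (Finset.max'_mem S hSne)
  refine ⟨Nat.find hex, S.max' hSne, h, Nat.find_min' hex hq2, Finset.mem_range.1 hq1,
    Nat.find_spec hex, hq2, fun i hi => Nat.find_min hex hi, ?_⟩
  intro i hi him hiE
  exact absurd (Finset.le_max' S i (Finset.mem_filter.2 ⟨Finset.mem_range.2 him, hiE⟩)) (by omega)

theorem Cyc.unique {m' : ℕ} (h : Cyc D A m) (h' : Cyc D A m') : m = m' := by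
  rcases lt_trichotomy m m' with h1 | h1 | h1
  · have := h'.inj m h1 0 h'.pos (h.per.trans rfl)
    have := h.pos; omega
  · exact h1
  · have := h.inj m' h1 0 h.pos (h'.per.trans rfl)
    have := h'.pos; omega

theorem ArcsE.unique {E : UE × Bool → Prop} {m' p' q' : ℕ} (h : ArcsE D A E m p q)
    (h' : ArcsE D A E m' p' q') : m = m' ∧ p = p' ∧ q = q' := by
  have hm := h.cyc.unique h'.cyc
  subst hm
  refine ⟨rfl, ?_, ?_⟩
  · rcases lt_trichotomy p p' with h1 | h1 | h1
    · exact absurd h.memp (h'.first p h1)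
    · exact h1
    · exact absurd h'.memp (h.first p' h1)
  · rcases lt_trichotomy q q' with h1 | h1 | h1
    · exact absurd h'.memq (h.last q' h1 h'.lt)
    · exact h1
    · exact absurd h.memq (h'.last q h1 h.lt)

/-- **The arcs of the domain of a move.** -/
theorem exists_arcs_domD (hf : P.Finite) (hc : EConn P) (he : Esc P) (hW : Esc W) (hA : BD P A)
    (hAW : ahead A ∈ W) (hB : BD P B) (hAB : A ≠ B) :
    ∃ m p q, ArcsE (domD P W A) A (IsEx P B) m p q ∧ 0 < p := by
  have hA' : ahead A ∈ P ∩ W := ⟨hA.1, hAW⟩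
  obtain ⟨m, hm⟩ := exists_cyc (finite_domD hf hA') (econn_domD hA') (esc_domD hf he hW hA')
    (bd_domD hA hAW)
  obtain ⟨p, q, h⟩ := exists_arcsE hm (exists_exit hc hA' hB)
  refine ⟨m, p, q, h, ?_⟩
  rcases Nat.eq_zero_or_pos p with h0 | h0
  · exfalso
    have := h.memp
    rw [h0] at this
    rcases this with h1 | h1
    · exact hA.2 h1
    · exact hAB h1
  · exact h0

/-- The sides before the first and after the last exit side are sides of `P`. -/
theorem ArcsE.bd_P (h : ArcsE (domD P W A) A (IsEx P B) m p q) (hA : ahead A ∈ P ∩ W) {i : ℕ}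
    (hi : i < p ∨ (q < i ∧ i < m)) : BD P (side (domD P W A) A i) := by
  rcases domD_out hA (bd_side h.cyc.bd i) with h1 | h1
  · exact h1.1
  · exfalso
    rcases hi with hi | ⟨hi, him⟩
    · exact h.first i hi (Or.inl h1.1)
    · exact h.last i hi him (Or.inl h1.1)

/-- The contour of `P` and of the domain agree up to the first exit side. -/
theorem ArcsE.side_P (h : ArcsE (domD P W A) A (IsEx P B) m p q) (hA : ahead A ∈ P ∩ W) {i : ℕ}
    (hi : i < p) : side P A i = side (domD P W A) A i := by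
  have h1 := interval_of_out (D := domD P W A) (T := P) (fun _ hx => (domD_sub hA hx).1)
    h.cyc.bd (k := p - 1) (fun j hj => (h.bd_P hA (Or.inl (by omega))).2)
  exact (h1 i (by omega)).1

/-! ### Distances of the lines -/

/-- The vertex `v` has the distance at least `r` from all lines of the grid. -/
def OffL (a b L r : ℤ) (v : ℤ × ℤ) : Prop :=
  (∀ t, L ∣ t + a → r ≤ |t - v.1|) ∧ ∀ t, L ∣ t + b → r ≤ |t - v.2|

theorem far_of_off {e : UE} (hv : OffL a b L r v) (h : OnL a b L e) {w : ℤ × ℤ}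
    (hw : w = ua e ∨ w = ub e) : r ≤ |w.1 - v.1| ∨ r ≤ |w.2 - v.2| := by
  obtain ⟨x, y, d⟩ := e
  cases d
  · right
    have h1 := hv.2 y h
    rcases hw with rfl | rfl <;> simpa [ua, ub] using h1
  · left
    have h1 := hv.1 x h
    rcases hw with rfl | rfl <;> simpa [ua, ub] using h1

/-- **The stop arc is away from the tip.** -/
theorem far_stop (hL : 0 < L) (hv : OffL a b L r v) (hYD : Y ⊆ D) (hY : Sat D (gc a b L) Y)
    (hA : BD D A) (hAY : ahead A ∉ Y) {i : ℕ} (hi : outF (inn D A Y) A i ∈ Y) {w : ℤ × ℤ}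
    (hw : w = vert (inn D A Y) A i ∨ w = vert (inn D A Y) A (i + 1)) :
    r ≤ |w.1 - v.1| ∨ r ≤ |w.2 - v.2| := by
  have hbd := bd_inn hA hAY
  have h1 := line_of_sat hY (A := A) ⟨hA.1, hAY⟩ (bd_side hbd i) hi
  have h2 : OnL a b L (side (inn D A Y) A i).1 := (gc_ne_iff hL _).1 h1
  refine far_of_off hv h2 ?_
  have hj := joins_side (D := inn D A Y) (A := A) i
  rcases hj with ⟨h3, h4⟩ | ⟨h3, h4⟩
  · rcases hw with rfl | rfl
    · exact Or.inl h3
    · exact Or.inr h4
  · rcases hw with rfl | rfl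
    · exact Or.inr h3
    · exact Or.inl h4

end Pool.Agent.SixB.Mv
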