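import Pool.Agent.Lib.SixB.S8Induct

/-!
# Step 8, unit 8D: Moebius inversion over a family closed under unions

`S` is a finite subset of a semilattice, closed under `⊔`, and `A p` (`p ∈ S`) are events with
`A (p ⊔ q) = A p ∩ A q`. On every configuration (of `A ⊥`) there is a largest `p` with `ω ∈ A p`, the
*record* `Top S A ω`.

* `pr_moebius`: `P(record = p) = ∑_{T ⊆ {q ∈ S : ¬ q ≤ p}} (-1)^|T| P(A (p ⊔ sup T))`;
* `Conv.moebius`: if all `P_n(A_n q)` converge, so does `P_n(record = p)`;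
* `abs_moebius`: `|P(record = p) - P'(record' = p)| ≤ 2^|S| η` if `|P(A q) - P'(A' q)| ≤ η` for all `q`;
* `Btw`: the events of the move: all cells of `K.1 ∪ K.2` are avoided, the contacts of `K.1` are before
  the stop and those of `K.2` are after the stop. `Btw_sup` is the rule for unions, `pr_Btw` writes the
  probability as the difference of two events `avoid K, stop < e`, and `pr_rec`, `Conv.rec`, `abs_rec`
  are the final forms.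
-/

set_option autoImplicit false

namespace Pool.Agent.SixB

open Finset Filter Topology Pool.Agent.Perc

section Moebius

variable {Λ : Type*} [SemilatticeSup Λ] [OrderBot Λ] {S : Finset Λ} {A : Λ → Set Cfg}

theorem sup_mem_fam (hS : ∀ p ∈ S, ∀ q ∈ S, p ⊔ q ∈ S) {p : Λ} (hp : p ∈ S) (T : Finset Λ)
    (hT : T ⊆ S) : p ⊔ T.sup id ∈ S := by
  classical
  induction T using Finset.induction_on with
  | empty => simpa using hp
  | insert a T ha ih =>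
    rw [Finset.sup_insert, id, sup_left_comm]
    exact hS _ (hT (mem_insert_self _ _)) _ (ih fun x hx => hT (mem_insert_of_mem hx))

theorem mem_fam_sup (hS : ∀ p ∈ S, ∀ q ∈ S, p ⊔ q ∈ S)
    (hA : ∀ p ∈ S, ∀ q ∈ S, A (p ⊔ q) = A p ∩ A q) {p : Λ} (hp : p ∈ S) (T : Finset Λ)
    (hT : T ⊆ S) (ω : Cfg) : ω ∈ A (p ⊔ T.sup id) ↔ ω ∈ A p ∧ ∀ q ∈ T, ω ∈ A q := by
  classical
  induction T using Finset.induction_on with
  | empty => simp
  | insert a T ha ih =>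
    have haS := hT (mem_insert_self a T)
    have hTS : T ⊆ S := fun x hx => hT (mem_insert_of_mem hx)
    rw [Finset.sup_insert, id, sup_left_comm, hA _ haS _ (sup_mem_fam hS hp T hTS),
      Set.mem_inter_iff, ih hTS]
    constructor
    · rintro ⟨h1, h2, h3⟩
      refine ⟨h2, fun q hq => ?_⟩
      rcases mem_insert.1 hq with rfl | hq
      · exact h1
      · exact h3 q hq
    · rintro ⟨h1, h2⟩
      exact ⟨h2 a (mem_insert_self _ _), h1, fun q hq => h2 q (mem_insert_of_mem hq)⟩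

/-- **Moebius inversion.** The probability that `p` is the largest element whose event holds. -/
theorem pr_moebius (W : Finset (ℤ × ℤ)) (hS : ∀ p ∈ S, ∀ q ∈ S, p ⊔ q ∈ S)
    (hA : ∀ p ∈ S, ∀ q ∈ S, A (p ⊔ q) = A p ∩ A q) {p : Λ} (hp : p ∈ S)
    [DecidablePred fun q : Λ => ¬ q ≤ p] :
    pr W {ω | ω ∈ A p ∧ ∀ q ∈ S, ω ∈ A q → q ≤ p} =
      ∑ T ∈ (S.filter fun q => ¬ q ≤ p).powerset, (-1 : ℝ) ^ T.card * pr W (A (p ⊔ T.sup id)) := by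
  classical
  have hsub : ∀ T ∈ (S.filter fun q => ¬ q ≤ p).powerset, T ⊆ S := fun T hT =>
    (mem_powerset.1 hT).trans (filter_subset _ _)
  simp_rw [ProbA.pr_eq_sum, mul_div_assoc', mul_sum]
  rw [← Finset.sum_div, Finset.sum_comm]
  congr 1
  refine Finset.sum_congr rfl fun X _ => ?_
  set ω := cfg X with hω
  set Q := (S.filter fun q => ¬ q ≤ p) with hQ
  by_cases hpA : ω ∈ A p
  · have h1 : ∀ T ∈ Q.powerset, (-1 : ℝ) ^ T.card * (if ω ∈ A (p ⊔ T.sup id) then 1 else 0) =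
        if T ⊆ Q.filter (fun q => ω ∈ A q) then (-1 : ℝ) ^ T.card else 0 := by
      intro T hT
      have h2 := mem_fam_sup hS hA hp T (hsub T hT) ω
      have h3 : (ω ∈ A (p ⊔ T.sup id)) ↔ T ⊆ Q.filter (fun q => ω ∈ A q) := by
        rw [h2]
        constructor
        · rintro ⟨_, h4⟩ q hq
          exact mem_filter.2 ⟨mem_powerset.1 hT hq, h4 q hq⟩
        · intro h4
          exact ⟨hpA, fun q hq => (mem_filter.1 (h4 hq)).2⟩
      by_cases h5 : ω ∈ A (p ⊔ T.sup id)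
      · rw [if_pos h5, if_pos (h3.1 h5), mul_one]
      · rw [if_neg h5, if_neg (fun h => h5 (h3.2 h)), mul_zero]
    rw [Finset.sum_congr rfl h1, ← Finset.sum_filter]
    have h6 : Q.powerset.filter (fun T => T ⊆ Q.filter (fun q => ω ∈ A q)) =
        (Q.filter (fun q => ω ∈ A q)).powerset := by
      ext T
      rw [mem_filter, mem_powerset, mem_powerset]
      exact ⟨fun h => h.2, fun h => ⟨h.trans (filter_subset _ _), h⟩⟩
    have h7 : ∑ T ∈ (Q.filter (fun q => ω ∈ A q)).powerset, (-1 : ℝ) ^ T.card =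
        if Q.filter (fun q => ω ∈ A q) = ∅ then 1 else 0 := by
      have h8 := Finset.sum_powerset_neg_one_pow_card (x := Q.filter (fun q => ω ∈ A q))
      have h9 : ((∑ m ∈ (Q.filter (fun q => ω ∈ A q)).powerset, (-1 : ℤ) ^ m.card : ℤ) : ℝ) =
          ((if Q.filter (fun q => ω ∈ A q) = ∅ then 1 else 0 : ℤ) : ℝ) := by rw [h8]
      push_cast at h9
      exact h9
    rw [h6, h7]
    have h10 : (ω ∈ {ω | ω ∈ A p ∧ ∀ q ∈ S, ω ∈ A q → q ≤ p}) ↔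
        Q.filter (fun q => ω ∈ A q) = ∅ := by
      rw [Set.mem_ofPred_eq, Finset.filter_eq_empty_iff]
      constructor
      · rintro ⟨_, h⟩ q hq hqA
        exact (mem_filter.1 hq).2 (h q (mem_filter.1 hq).1 hqA)
      · intro h
        refine ⟨hpA, fun q hq hqA => ?_⟩
        by_contra hn
        exact h (mem_filter.2 ⟨hq, hn⟩) hqA
    by_cases h11 : Q.filter (fun q => ω ∈ A q) = ∅
    · rw [if_pos h11, if_pos (h10.2 h11)]
    · rw [if_neg h11, if_neg (fun h => h11 (h10.1 h))]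
  · rw [if_neg (fun h => hpA h.1)]
    symm
    refine Finset.sum_eq_zero fun T hT => ?_
    rw [if_neg (fun h => hpA ((mem_fam_sup hS hA hp T (hsub T hT) ω).1 h).1), mul_zero]

/-- If the probabilities of all the events `A q` converge, so does the law of the record. -/
theorem Conv.moebius {W : ℕ → Finset (ℤ × ℤ)} {A : ℕ → Λ → Set Cfg}
    (hS : ∀ p ∈ S, ∀ q ∈ S, p ⊔ q ∈ S)
    (hA : ∀ n, ∀ p ∈ S, ∀ q ∈ S, A n (p ⊔ q) = A n p ∩ A n q)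
    (hc : ∀ q ∈ S, Conv fun n => pr (W n) (A n q)) {p : Λ} (hp : p ∈ S) :
    Conv fun n => pr (W n) {ω | ω ∈ A n p ∧ ∀ q ∈ S, ω ∈ A n q → q ≤ p} := by
  classical
  simp_rw [fun n => pr_moebius (W n) hS (hA n) hp]
  refine Conv.sum _ fun T hT => Conv.const_mul _ (hc _ (sup_mem_fam hS hp T ?_))
  exact (mem_powerset.1 hT).trans (filter_subset _ _)

/-- Comparison of two laws of the record. -/
theorem abs_moebius {W W' : Finset (ℤ × ℤ)} {A A' : Λ → Set Cfg}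
    (hS : ∀ p ∈ S, ∀ q ∈ S, p ⊔ q ∈ S)
    (hA : ∀ p ∈ S, ∀ q ∈ S, A (p ⊔ q) = A p ∩ A q)
    (hA' : ∀ p ∈ S, ∀ q ∈ S, A' (p ⊔ q) = A' p ∩ A' q) {η : ℝ}
    (hη : ∀ q ∈ S, |pr W (A q) - pr W' (A' q)| ≤ η) {p : Λ} (hp : p ∈ S) :
    |pr W {ω | ω ∈ A p ∧ ∀ q ∈ S, ω ∈ A q → q ≤ p} -
      pr W' {ω | ω ∈ A' p ∧ ∀ q ∈ S, ω ∈ A' q → q ≤ p}| ≤ 2 ^ S.card * η := by
  classical
  have hη0 : 0 ≤ η := (abs_nonneg _).trans (hη p hp)
  rw [pr_moebius W hS hA hp, pr_moebius W' hS hA' hp, ← Finset.sum_sub_distrib]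
  refine (Finset.abs_sum_le_sum_abs _ _).trans ?_
  have h1 : ∀ T ∈ (S.filter fun q => ¬ q ≤ p).powerset,
      |(-1 : ℝ) ^ T.card * pr W (A (p ⊔ T.sup id)) -
        (-1 : ℝ) ^ T.card * pr W' (A' (p ⊔ T.sup id))| ≤ η := by
    intro T hT
    rw [← mul_sub, abs_mul, abs_pow, abs_neg, abs_one, one_pow, one_mul]
    exact hη _ (sup_mem_fam hS hp T ((mem_powerset.1 hT).trans (filter_subset _ _)))
  refine (Finset.sum_le_sum h1).trans ?_
  rw [Finset.sum_const, Finset.card_powerset, nsmul_eq_mul]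
  push_cast
  refine mul_le_mul_of_nonneg_right ?_ hη0
  exact pow_le_pow_right₀ (by norm_num) (card_le_card (filter_subset _ _))

end Moebius

/-! ### The record -/

section Top

variable {Λ : Type*} [SemilatticeSup Λ] [OrderBot Λ]

open Classical in
/-- The largest element of `S` whose event holds. -/
noncomputable def Top (S : Finset Λ) (A : Λ → Set Cfg) (ω : Cfg) : Λ :=
  (S.filter fun q => ω ∈ A q).sup id

variable {S : Finset Λ} {A : Λ → Set Cfg}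

theorem top_mem (hS : ∀ p ∈ S, ∀ q ∈ S, p ⊔ q ∈ S) (h0 : ⊥ ∈ S) (ω : Cfg) : Top S A ω ∈ S := by
  classical
  have h := sup_mem_fam hS h0 (S.filter fun q => ω ∈ A q) (filter_subset _ _)
  rw [bot_sup_eq] at h
  exact h

theorem mem_top (hS : ∀ p ∈ S, ∀ q ∈ S, p ⊔ q ∈ S)
    (hA : ∀ p ∈ S, ∀ q ∈ S, A (p ⊔ q) = A p ∩ A q) (h0 : ⊥ ∈ S) {ω : Cfg} (hω : ω ∈ A ⊥) :
    ω ∈ A (Top S A ω) := by
  classical
  have h := (mem_fam_sup hS hA h0 (S.filter fun q => ω ∈ A q) (filter_subset _ _) ω).2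
    ⟨hω, fun q hq => (mem_filter.1 hq).2⟩
  rw [bot_sup_eq] at h
  exact h

theorem le_top' {ω : Cfg} {q : Λ} (hq : q ∈ S) (h : ω ∈ A q) : q ≤ Top S A ω := by
  classical
  have : id q ≤ (S.filter fun q => ω ∈ A q).sup id := Finset.le_sup (mem_filter.2 ⟨hq, h⟩)
  exact this

/-- The event that the record is `p`. -/
theorem top_eq_iff (hS : ∀ p ∈ S, ∀ q ∈ S, p ⊔ q ∈ S)
    (hA : ∀ p ∈ S, ∀ q ∈ S, A (p ⊔ q) = A p ∩ A q) (h0 : ⊥ ∈ S) {ω : Cfg} (hω : ω ∈ A ⊥)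
    {p : Λ} (hp : p ∈ S) : Top S A ω = p ↔ ω ∈ A p ∧ ∀ q ∈ S, ω ∈ A q → q ≤ p := by
  constructor
  · rintro rfl
    exact ⟨mem_top hS hA h0 hω, fun q hq h => le_top' hq h⟩
  · rintro ⟨h1, h2⟩
    exact le_antisymm (h2 _ (top_mem hS h0 ω) (mem_top hS hA h0 hω)) (le_top' hp h1)

end Top

/-! ### The events of a move -/

section Move

variable {ι : Type*} [DecidableEq ι]

/-- The events of a move. `av ω i`: the exploration avoids the cell `i`; `σ ω`: position of the stop;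
`con i`: positions of the contacts of the cell `i`. For a pair `K` of sets of cells: everything in
`K.1 ∪ K.2` is avoided, the contacts of `K.1` are before the stop, those of `K.2` are after it. -/
def Btw (av : Cfg → ι → Prop) (con : ι → Set ℤ) (σ : Cfg → ℤ) (K : Finset ι × Finset ι) : Set Cfg :=
  {ω | (∀ i ∈ K.1, av ω i ∧ ∀ x ∈ con i, x < σ ω) ∧ ∀ i ∈ K.2, av ω i ∧ ∀ x ∈ con i, σ ω < x}

variable {av : Cfg → ι → Prop} {con : ι → Set ℤ} {σ : Cfg → ℤ}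

theorem Btw_bot : Btw av con σ ⊥ = Set.univ := by
  ext ω
  simp [Btw]

theorem Btw_sup (K K' : Finset ι × Finset ι) :
    Btw av con σ (K ⊔ K') = Btw av con σ K ∩ Btw av con σ K' := by
  ext ω
  simp only [Btw, Set.mem_ofPred_eq, Set.mem_inter_iff, Prod.fst_sup, Prod.snd_sup,
    Finset.sup_eq_union, Finset.mem_union]
  constructor
  · rintro ⟨h1, h2⟩
    exact ⟨⟨fun i hi => h1 i (Or.inl hi), fun i hi => h2 i (Or.inl hi)⟩,
      ⟨fun i hi => h1 i (Or.inr hi), fun i hi => h2 i (Or.inr hi)⟩⟩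
  · rintro ⟨⟨h1, h2⟩, ⟨h3, h4⟩⟩
    refine ⟨fun i hi => ?_, fun i hi => ?_⟩
    · rcases hi with hi | hi
      · exact h1 i hi
      · exact h3 i hi
    · rcases hi with hi | hi
      · exact h2 i hi
      · exact h4 i hi

/-- All the cells of `K` are avoided and the stop is before `e`. -/
def AvLt (av : Cfg → ι → Prop) (σ : Cfg → ℤ) (K : Finset ι) (e : ℤ) : Set Cfg :=
  {ω | (∀ i ∈ K, av ω i) ∧ σ ω < e}

omit [DecidableEq ι] in
theorem AvLt_mono {K : Finset ι} {e e' : ℤ} (h : e ≤ e') : AvLt av σ K e ⊆ AvLt av σ K e' :=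
  fun _ hω => ⟨hω.1, lt_of_lt_of_le hω.2 h⟩

theorem pr_diff_of_subset (W : Finset (ℤ × ℤ)) {B C : Set Cfg} (h : B ⊆ C) :
    pr W (C \ B) = pr W C - pr W B := by
  have h1 := pr_inter_add_compl W C B
  have h2 : C ∩ B = B := Set.inter_eq_right.2 h
  have h3 : C ∩ Bᶜ = C \ B := rfl
  rw [h2, h3] at h1
  linarith

/-- The event of a move as a difference: `e₁` is larger than all contacts of `K.1` but not larger than any
stop to the right of them, `e₂` is a contact of `K.2` which is smaller than all the others. -/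
theorem pr_Btw (W : Finset (ℤ × ℤ)) {K : Finset ι × Finset ι} {e₁ e₂ : ℤ} (he : e₁ ≤ e₂)
    (h1 : ∀ ω, (∀ i ∈ K.1, av ω i) → (∀ i ∈ K.2, av ω i) →
      ((∀ i ∈ K.1, ∀ x ∈ con i, x < σ ω) ↔ e₁ ≤ σ ω))
    (h2 : ∀ ω, (∀ i ∈ K.1, av ω i) → (∀ i ∈ K.2, av ω i) →
      ((∀ i ∈ K.2, ∀ x ∈ con i, σ ω < x) ↔ σ ω < e₂)) :
    pr W (Btw av con σ K) =
      pr W (AvLt av σ (K.1 ∪ K.2) e₂) - pr W (AvLt av σ (K.1 ∪ K.2) e₁) := by
  rw [← pr_diff_of_subset W (AvLt_mono he)]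
  congr 1
  ext ω
  simp only [Btw, AvLt, Set.mem_ofPred_eq, Set.mem_sdiff, Finset.mem_union]
  constructor
  · rintro ⟨h3, h4⟩
    have h5 : ∀ i ∈ K.1, av ω i := fun i hi => (h3 i hi).1
    have h6 : ∀ i ∈ K.2, av ω i := fun i hi => (h4 i hi).1
    refine ⟨⟨fun i hi => hi.elim (h5 i) (h6 i), (h2 ω h5 h6).1 fun i hi => (h4 i hi).2⟩, ?_⟩
    rintro ⟨_, h7⟩
    have := (h1 ω h5 h6).1 fun i hi => (h3 i hi).2
    omega
  · rintro ⟨⟨h3, h4⟩, h5⟩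
    have h6 : ∀ i ∈ K.1, av ω i := fun i hi => h3 i (Or.inl hi)
    have h7 : ∀ i ∈ K.2, av ω i := fun i hi => h3 i (Or.inr hi)
    have h8 : e₁ ≤ σ ω := by
      by_contra h9
      exact h5 ⟨h3, by omega⟩
    exact ⟨fun i hi => ⟨h6 i hi, (h1 ω h6 h7).2 h8 i hi⟩, fun i hi => ⟨h7 i hi, (h2 ω h6 h7).2 h4 i hi⟩⟩

/-- The record of a move: the largest pair `(K_L, K_R)` of sets of the family `𝒦`, all avoided, with the
contacts of `K_L` before the stop and those of `K_R` after it. -/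
noncomputable def Rcd (𝒦 : Finset (Finset ι)) (av : Cfg → ι → Prop) (con : ι → Set ℤ)
    (σ : Cfg → ℤ) (ω : Cfg) : Finset ι × Finset ι :=
  Top (𝒦 ×ˢ 𝒦) (Btw av con σ) ω

variable {𝒦 : Finset (Finset ι)}

theorem prod_sup_mem (hK : ∀ K ∈ 𝒦, ∀ K' ∈ 𝒦, K ∪ K' ∈ 𝒦) :
    ∀ p ∈ 𝒦 ×ˢ 𝒦, ∀ q ∈ 𝒦 ×ˢ 𝒦, p ⊔ q ∈ 𝒦 ×ˢ 𝒦 := by
  intro p hp q hq
  rw [mem_product] at hp hq ⊢
  exact ⟨hK _ hp.1 _ hq.1, hK _ hp.2 _ hq.2⟩

theorem rcd_mem (hK : ∀ K ∈ 𝒦, ∀ K' ∈ 𝒦, K ∪ K' ∈ 𝒦) (h0 : ∅ ∈ 𝒦) (ω : Cfg) :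
    Rcd 𝒦 av con σ ω ∈ 𝒦 ×ˢ 𝒦 :=
  top_mem (prod_sup_mem hK) (mem_product.2 ⟨h0, h0⟩) ω

theorem mem_Btw_rcd (hK : ∀ K ∈ 𝒦, ∀ K' ∈ 𝒦, K ∪ K' ∈ 𝒦) (h0 : ∅ ∈ 𝒦) (ω : Cfg) :
    ω ∈ Btw av con σ (Rcd 𝒦 av con σ ω) :=
  mem_top (prod_sup_mem hK) (fun p _ q _ => Btw_sup p q) (mem_product.2 ⟨h0, h0⟩)
    (by rw [Btw_bot]; trivial)

theorem le_rcd {ω : Cfg} {q : Finset ι × Finset ι} (hq : q ∈ 𝒦 ×ˢ 𝒦) (h : ω ∈ Btw av con σ q) :
    q ≤ Rcd 𝒦 av con σ ω := le_top' hq h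

theorem rcd_eq_set (hK : ∀ K ∈ 𝒦, ∀ K' ∈ 𝒦, K ∪ K' ∈ 𝒦) (h0 : ∅ ∈ 𝒦)
    {p : Finset ι × Finset ι} (hp : p ∈ 𝒦 ×ˢ 𝒦) :
    {ω | Rcd 𝒦 av con σ ω = p} =
      {ω | ω ∈ Btw av con σ p ∧ ∀ q ∈ 𝒦 ×ˢ 𝒦, ω ∈ Btw av con σ q → q ≤ p} := by
  ext ω
  exact top_eq_iff (prod_sup_mem hK) (fun p _ q _ => Btw_sup p q) (mem_product.2 ⟨h0, h0⟩)
    (by rw [Btw_bot]; trivial) hp

/-- The law of the record as a finite signed sum. -/
theorem pr_rec (W : Finset (ℤ × ℤ)) (hK : ∀ K ∈ 𝒦, ∀ K' ∈ 𝒦, K ∪ K' ∈ 𝒦) (h0 : ∅ ∈ 𝒦)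
    {p : Finset ι × Finset ι} (hp : p ∈ 𝒦 ×ˢ 𝒦) [DecidablePred fun q : Finset ι × Finset ι => ¬ q ≤ p] :
    pr W {ω | Rcd 𝒦 av con σ ω = p} =
      ∑ T ∈ ((𝒦 ×ˢ 𝒦).filter fun q => ¬ q ≤ p).powerset,
        (-1 : ℝ) ^ T.card * pr W (Btw av con σ (p ⊔ T.sup id)) := by
  rw [rcd_eq_set hK h0 hp]
  exact pr_moebius W (prod_sup_mem hK) (fun p _ q _ => Btw_sup p q) hp

/-- Convergence of the law of the record. -/
theorem Conv.rec {W : ℕ → Finset (ℤ × ℤ)} {av : ℕ → Cfg → ι → Prop} {con : ℕ → ι → Set ℤ}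
    {σ : ℕ → Cfg → ℤ} (hK : ∀ K ∈ 𝒦, ∀ K' ∈ 𝒦, K ∪ K' ∈ 𝒦) (h0 : ∅ ∈ 𝒦)
    (hc : ∀ q ∈ 𝒦 ×ˢ 𝒦, Conv fun n => pr (W n) (Btw (av n) (con n) (σ n) q))
    {p : Finset ι × Finset ι} (hp : p ∈ 𝒦 ×ˢ 𝒦) :
    Conv fun n => pr (W n) {ω | Rcd 𝒦 (av n) (con n) (σ n) ω = p} := by
  have h := Conv.moebius (W := W) (A := fun n => Btw (av n) (con n) (σ n)) (prod_sup_mem hK)
    (fun n p _ q _ => Btw_sup p q) hc hp
  simp_rw [rcd_eq_set hK h0 hp]
  exact h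

/-- Comparison of the laws of the records of two moves with the same family of cells. -/
theorem abs_rec {W W' : Finset (ℤ × ℤ)} {av' : Cfg → ι → Prop} {con' : ι → Set ℤ} {σ' : Cfg → ℤ}
    (hK : ∀ K ∈ 𝒦, ∀ K' ∈ 𝒦, K ∪ K' ∈ 𝒦) (h0 : ∅ ∈ 𝒦) {η : ℝ}
    (hη : ∀ q ∈ 𝒦 ×ˢ 𝒦, |pr W (Btw av con σ q) - pr W' (Btw av' con' σ' q)| ≤ η)
    {p : Finset ι × Finset ι} (hp : p ∈ 𝒦 ×ˢ 𝒦) :
    |pr W {ω | Rcd 𝒦 av con σ ω = p} - pr W' {ω | Rcd 𝒦 av' con' σ' ω = p}| ≤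
      2 ^ (𝒦.card ^ 2) * η := by
  have h := abs_moebius (W := W) (W' := W') (A := Btw av con σ) (A' := Btw av' con' σ')
    (prod_sup_mem hK) (fun p _ q _ => Btw_sup p q) (fun p _ q _ => Btw_sup p q) hη hp
  rw [rcd_eq_set hK h0 hp, rcd_eq_set hK h0 hp]
  rw [card_product, ← sq] at h
  exact h

end Move

end Pool.Agent.SixB
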