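import Pool.Agent.Lib.SixB.S8Apr
import Pool.Agent.Lib.SixB.S8LemCd
import Pool.Agent.Lib.SixB.S8Shift

/-!
# Step 8: TRANSFER

Crossing probabilities of a true domain `T` (with a contour and four arcs) against those of a coarse
polygon `P` made of cells, whose arcs are given by coarse labels of its sides. The coarse labels have
to agree with the true labels (through the cells) outside of a box `B(a, s)` around the tip.

* `hd_or`: if the arcs 0 and 3 are not linked in a box of radius `3 * ρ` outside of `B(a, s)` and the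
  arcs 1, 2 are far from `a`, then the hypothesis of Lemma C holds for one of the two pairs of arcs.
* `transfer`: `|pr T X(T) - pr P X(P)| ≤ C ((d + 1) / ρ₀) ^ α + C ((s + 1) / ρ) ^ α`.
-/

set_option autoImplicit false

namespace Pool.Agent.SixB.LC

open Finset Pool.Agent.Perc Pool.Agent.Perc6 Pool.Agent.PercT

/-- A vertex of colour `c` of `A` is joined in `F` to a vertex of `B`. -/
def XS (c : ℤ) (F A B : Set (ℤ × ℤ)) : Set Cfg :=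
  {ω | ∃ u ∈ A, ∃ v ∈ B, par u = c ∧ Conn ω F u v}

/-- The vertices of a closed interval of a contour. -/
def av (w : ℕ → ℤ × ℤ) (a b : ℕ) : Set (ℤ × ℤ) := {v | ∃ i, a ≤ i ∧ i ≤ b ∧ v = w i}

/-- The ends of the boundary sides of `P` in `E`. -/
def eV (P : Finset (ℤ × ℤ)) (E : Set UE) : Set (ℤ × ℤ) :=
  {v | ∃ e ∈ E, BdU (P : Set (ℤ × ℤ)) e ∧ (v = ua e ∨ v = ub e)}

theorem XA_eq_XS (c : ℤ) (F : Set (ℤ × ℤ)) (w : ℕ → ℤ × ℤ) (a0 a1 b0 b1 : ℕ) :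
    XA c F w a0 a1 b0 b1 = XS c F (av w a0 a1) (av w b0 b1) := by
  ext ω
  constructor
  · rintro ⟨i, k, h1, h2, h3, h4, h5, h6⟩
    exact ⟨w i, ⟨i, h1, h2, rfl⟩, w k, ⟨k, h3, h4, rfl⟩, h5, h6⟩
  · rintro ⟨u, ⟨i, h1, h2, rfl⟩, v, ⟨k, h3, h4, rfl⟩, h5, h6⟩
    exact ⟨i, k, h1, h2, h3, h4, h5, h6⟩

theorem XS_mono {c : ℤ} {F F' A A' B B' : Set (ℤ × ℤ)} (hF : F ⊆ F') (hA : A ⊆ A') (hB : B ⊆ B') :
    XS c F A B ⊆ XS c F' A' B' := by
  rintro ω ⟨u, hu, v, hv, h1, h2⟩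
  exact ⟨u, hA hu, v, hB hv, h1, conn_mono hF h2⟩

theorem depOn_XS (c : ℤ) (F A B : Set (ℤ × ℤ)) : DepOn F (XS c F A B) := by
  intro ω ω' h
  simp only [XS, Set.mem_ofPred_eq, GridA.conn_iff _ h]

theorem joins_ends {e : UE} {u v : ℤ × ℤ} (h : Joins e u v) :
    (u = ua e ∨ u = ub e) ∧ (v = ua e ∨ v = ub e) := by
  rcases h with ⟨h1, h2⟩ | ⟨h1, h2⟩
  · exact ⟨Or.inl h1, Or.inr h2⟩
  · exact ⟨Or.inr h1, Or.inl h2⟩

theorem ends_joins {e : UE} {u v x : ℤ × ℤ} (h : Joins e u v) (hx : x = ua e ∨ x = ub e) :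
    x = u ∨ x = v := by
  rcases h with ⟨rfl, rfl⟩ | ⟨rfl, rfl⟩
  · exact hx
  · exact hx.symm

/-- The vertices of a nonempty interval of a contour are the ends of its sides. -/
theorem av_eq_eV {F : Finset (ℤ × ℤ)} {m : ℕ} {w : ℕ → ℤ × ℤ} (h : Ctr (F : Set (ℤ × ℤ)) m w)
    {a b : ℕ} (hab : a < b) (hb : b ≤ m) :
    av w a b = eV F {e | ∃ i, a ≤ i ∧ i < b ∧ Joins e (w i) (w (i + 1))} := by
  ext v
  constructor
  · rintro ⟨i, h1, h2, rfl⟩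
    rcases Nat.lt_or_ge i b with h3 | h3
    · obtain ⟨e, he, hj⟩ := h.step i (by omega)
      exact ⟨e, ⟨i, h1, h3, hj⟩, he, (joins_ends hj).1⟩
    · obtain ⟨e, he, hj⟩ := h.step (i - 1) (by omega)
      rw [Nat.sub_add_cancel (by omega : 1 ≤ i)] at hj
      refine ⟨e, ⟨i - 1, by omega, by omega, ?_⟩, he, (joins_ends hj).2⟩
      rw [Nat.sub_add_cancel (by omega : 1 ≤ i)]
      exact hj
  · rintro ⟨e, ⟨i, h1, h2, hj⟩, he, hv⟩
    rcases ends_joins hj hv with rfl | rfl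
    · exact ⟨i, h1, h2.le, rfl⟩
    · exact ⟨i + 1, by omega, h2, rfl⟩

/-! ### Gates -/

/-- `A` and `B` are linked in `F` inside the box `B(z, R)`: a face of `F` in the box has a corner joined
to `A` and a corner joined to `B` by paths (of any configurations) in the box. -/
def Gate (F A B : Set (ℤ × ℤ)) (z : ℤ × ℤ) (R : ℤ) : Prop :=
  ∃ (ω ω' : Cfg) (f u v : ℤ × ℤ), f ∈ F ∩ RFb z R ∧ IsCor f u ∧ IsCor f v ∧
    (∃ a ∈ A, Conn ω (F ∩ RFb z R) a u) ∧ ∃ b ∈ B, Conn ω' (F ∩ RFb z R) b v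

theorem Gate.mono {F F' A A' B B' : Set (ℤ × ℤ)} {z : ℤ × ℤ} {R R' : ℤ} (hF : F ⊆ F')
    (hA : A ⊆ A') (hB : B ⊆ B') (hR : R ≤ R') (h : Gate F A B z R) : Gate F' A' B' z R' := by
  obtain ⟨ω, ω', f, u, v, h1, h2, h3, ⟨a, ha, h4⟩, b, hb, h5⟩ := h
  have hs : F ∩ RFb z R ⊆ F' ∩ RFb z R' := fun x hx =>
    ⟨hF hx.1, mem_coe.2 (RFb_mono hR (mem_coe.1 hx.2))⟩
  exact ⟨ω, ω', f, u, v, hs h1, h2, h3, ⟨a, hA ha, conn_mono hs h4⟩, b, hB hb, conn_mono hs h5⟩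

theorem RFb_shift {z z' f : ℤ × ℤ} {r r' : ℤ} (h : InB z r' z') (hf : f ∈ RFb z' r) :
    f ∈ RFb z (r + r') := by
  rw [mem_RFb] at *
  unfold InB at h
  omega

/-- Two crossing linkings meet in a face, so that all four arcs are linked in one box. -/
theorem link_meet {T : Finset (ℤ × ℤ)} {m : ℕ} {w : ℕ → ℤ × ℤ} {k1 k2 k3 : ℕ} {c : ℤ}
    (hT : Ctr (T : Set (ℤ × ℤ)) m w) {ρ : ℤ}
    (h02 : ¬ HD c T w 0 k1 k2 k3 ρ) (h13 : ¬ HD (1 - c) T w k1 k2 k3 m ρ) :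
    ∃ z, Gate T (av w 0 k1) (av w k3 m) z (3 * ρ) ∧
      (∃ i, k1 ≤ i ∧ i ≤ k2 ∧ InB z (3 * ρ) (w i)) ∧ ∃ i, k2 ≤ i ∧ i ≤ k3 ∧ InB z (3 * ρ) (w i) := by
  unfold HD at h02 h13
  push Not at h02 h13
  obtain ⟨ω0, z0, a0, b0, g1, g2, g3, g4, g5, g6⟩ := h02
  obtain ⟨ω1, z1, a1, b1, e1, e2, e3, e4, e5, e6⟩ := h13
  -- the paths in monochromatic configurations
  have p0 : Conn (allc c) ((T : Set (ℤ × ℤ)) ∩ RFb z0 ρ) (w a0) (w b0) :=
    conn_up g5 (fun f hf _ => ⟨hf, allc_col _ f⟩) g6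
  have p1 : Conn (allc (1 - c)) ((T : Set (ℤ × ℤ)) ∩ RFb z1 ρ) (w a1) (w b1) :=
    conn_up e5 (fun f hf _ => ⟨hf, allc_col _ f⟩) e6
  -- the `c` path uses a face of the second box
  rcases conn_last (RFb z1 ρ : Set (ℤ × ℤ)) p0 with h1 | ⟨x, ⟨f, hf1, hf0, hfx, -⟩, q1, q2⟩
  · exfalso
    have r0 : Conn (rep c (RFb z1 ρ : Set (ℤ × ℤ))ᶜ (RFb z1 ρ) (allc c)) T (w a0) (w b0) :=
      conn_up g5 (fun f hf _ => ⟨hf.1.1, rep_col hf.2⟩) h1
    have r1 : Conn (rep c (RFb z1 ρ : Set (ℤ × ℤ))ᶜ (RFb z1 ρ) (allc c)) T (w a1) (w b1) :=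
      conn_up e5 (fun f hf _ => ⟨hf.1, rep_col' (fun h => h hf.2) hf.2⟩) p1
    exact arcs_nc hT (c := c) g2 e1 e2 g3 g4 e3 e4 g5 (by rw [e5]; omega) r0 r1
  · -- the `1 - c` path uses a face of the cluster of the first path: take the set of its faces
    have hz : InB z0 (2 * ρ) z1 := by
      have h2 := hf0.2
      rw [mem_coe, mem_RFb] at h2 hf1
      unfold InB
      omega
    -- faces used by the first path
    obtain ⟨K, hK⟩ : ∃ K : Set (ℤ × ℤ), K = {g | g ∈ (T : Set (ℤ × ℤ)) ∩ RFb z0 ρ ∧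
        ∃ y, IsCor g y ∧ Conn (allc c) ((T : Set (ℤ × ℤ)) ∩ RFb z0 ρ) (w a0) y ∧ par y = c} :=
      ⟨_, rfl⟩
    have hpK : Conn (allc c) K (w a0) (w b0) := by
      have : ∀ v, Conn (allc c) ((T : Set (ℤ × ℤ)) ∩ RFb z0 ρ) (w a0) v →
          Conn (allc c) K (w a0) v := by
        intro v hv
        induction hv with
        | refl => exact Relation.ReflTransGen.refl
        | tail hac hb ih =>
          refine Relation.ReflTransGen.tail ih ?_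
          have hb' := hb
          rw [bond_iff] at hb ⊢
          obtain ⟨g, hg, b1, b2, b3, b4, b5⟩ := hb
          refine ⟨g, ?_, b1, b2, b3, b4, b5⟩
          rw [hK]
          have hac' : Conn (allc c) ((T : Set (ℤ × ℤ)) ∩ RFb z0 ρ) (w a0) _ := hac
          exact ⟨hg, _, b1, hac', by rw [← hac'.par_eq]; exact g5⟩
      exact this _ p0
    rcases conn_last K p1 with h1 | ⟨y, ⟨g, hgK, hgT, hgy, -⟩, q3, q4⟩
    · exfalso
      have hKT : K ⊆ (T : Set (ℤ × ℤ)) := by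
        rw [hK]
        exact fun f hf => hf.1.1
      have r0 : Conn (rep c K Kᶜ (allc c)) T (w a0) (w b0) :=
        conn_up g5 (fun f hf _ => ⟨hKT hf, rep_col hf⟩) hpK
      have r1 : Conn (rep c K Kᶜ (allc c)) T (w a1) (w b1) :=
        conn_up e5 (fun f hf _ => ⟨hf.1.1, rep_col' hf.2 hf.2⟩) h1
      exact arcs_nc hT (c := c) g2 e1 e2 g3 g4 e3 e4 g5 (by rw [e5]; omega) r0 r1
    · -- `g` is in both boxes
      rw [hK] at hgK
      obtain ⟨hg0, y0, hgy0, hc0, -⟩ := hgK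
      have hs0 : (T : Set (ℤ × ℤ)) ∩ RFb z0 ρ ⊆ (T : Set (ℤ × ℤ)) ∩ RFb z0 (3 * ρ) := by
        intro x hx
        refine ⟨hx.1, ?_⟩
        have h3 := hx.2
        have hg2 := hg0.2
        rw [mem_coe, mem_RFb] at h3 hg2 ⊢
        omega
      have hs1 : (T : Set (ℤ × ℤ)) ∩ RFb z1 ρ ⊆ (T : Set (ℤ × ℤ)) ∩ RFb z0 (3 * ρ) := by
        intro x hx
        refine ⟨hx.1, ?_⟩
        have := RFb_shift hz (mem_coe.1 hx.2)
        rw [show ρ + 2 * ρ = 3 * ρ by ring] at this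
        exact mem_coe.2 this
      refine ⟨z0, ⟨allc c, allc (1 - c), g, y0, y, hs0 hg0, hgy0, hgy,
        ⟨w a0, ⟨a0, Nat.zero_le _, g2, rfl⟩, conn_mono hs0 hc0⟩,
        w b1, ⟨b1, e3, e4, rfl⟩, conn_symm (conn_mono (fun x hx => hs1 hx.1) q4)⟩, ?_, ?_⟩
      · -- the start of the second path
        have hin : InB z1 ρ (w a1) := by
          rcases Relation.ReflTransGen.cases_head q3 with h2 | ⟨v, hv, -⟩
          · rw [h2]
            exact inB_of_mem_RFb (mem_coe.1 hgT.2) hgy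
          · rw [bond_iff] at hv
            obtain ⟨g', hg', b1, -⟩ := hv
            exact inB_of_mem_RFb (mem_coe.1 hg'.2) b1
        refine ⟨a1, e1, e2, ?_⟩
        unfold InB at hin hz ⊢
        omega
      · have hin : InB z0 ρ (w b0) := by
          rcases Relation.ReflTransGen.cases_tail p0 with h2 | ⟨v, -, hv⟩
          · rw [h2]
            rcases Relation.ReflTransGen.cases_head q1 with h3 | ⟨v, hv, -⟩
            · rw [h3]
              exact inB_of_mem_RFb (mem_coe.1 hf0.2) hfx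
            · rw [bond_iff] at hv
              obtain ⟨g', hg', b1, -⟩ := hv
              exact inB_of_mem_RFb (mem_coe.1 hg'.2) b1
          · rw [bond_iff] at hv
            obtain ⟨g', hg', -, b1, -⟩ := hv
            exact inB_of_mem_RFb (mem_coe.1 hg'.2) b1
        have hg2 := hg0.2
        rw [mem_coe, mem_RFb] at hg2
        refine ⟨b0, g3, g4, ?_⟩
        unfold InB at hin ⊢
        omega

/-- **One of the two pairs of arcs is far**: no gate between the arcs 0 and 3 outside of `B(a, s)`, and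
the arc 1 (or the arc 2) is far from `a`. -/
theorem hd_or {T : Finset (ℤ × ℤ)} {m : ℕ} {w : ℕ → ℤ × ℤ} {k1 k2 k3 : ℕ} {c : ℤ}
    (hT : Ctr (T : Set (ℤ × ℤ)) m w) {a : ℤ × ℤ} {s ρ : ℤ}
    (hg : ∀ z, Gate T (av w 0 k1) (av w k3 m) z (3 * ρ) → InB a s z)
    (hfar : (∀ i, k1 ≤ i → i ≤ k2 → ¬ InB a (s + 3 * ρ) (w i)) ∨
      ∀ i, k2 ≤ i → i ≤ k3 → ¬ InB a (s + 3 * ρ) (w i)) :
    HD c T w 0 k1 k2 k3 ρ ∨ HD (1 - c) T w k1 k2 k3 m ρ := by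
  by_contra hno
  rw [not_or] at hno
  obtain ⟨z, h1, ⟨i, hi, hi', h2⟩, i', hj, hj', h3⟩ := link_meet hT hno.1 hno.2
  have h4 := hg z h1
  rcases hfar with h | h
  · refine h i hi hi' ?_
    unfold InB at *
    omega
  · refine h i' hj hj' ?_
    unfold InB at *
    omega


/-! ### Labels -/

/-- The side `e'` of `T` is linked to the side `e` of `P`: the same unit edge, or both are sides of a
connected set of faces of `T` outside of `P` inside one cell. -/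
def LinkC {ι : Type*} (T P : Finset (ℤ × ℤ)) (κ : ℤ × ℤ → ι) (e e' : UE) : Prop :=
  e = e' ∨ ∃ s : Finset (ℤ × ℤ), (∀ f ∈ s, f ∈ T ∧ f ∉ P) ∧ (∀ f ∈ s, ∀ g ∈ s, κ f = κ g) ∧
    (∀ f ∈ s, ∀ g ∈ s, Chn (s : Set (ℤ × ℤ)) f g) ∧ (∃ f ∈ s, IsSide f e) ∧ ∃ f ∈ s, IsSide f e'

/-- The coarse labels `E 0, …, E 3` of the sides of `P` are right outside of the box `B(a, s)`. -/
def LabOK {ι : Type*} (T P : Finset (ℤ × ℤ)) (κ : ℤ × ℤ → ι) (w : ℕ → ℤ × ℤ) (k : ℕ → ℕ)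
    (E : ℕ → Set UE) (a : ℤ × ℤ) (s : ℤ) : Prop :=
  ∀ (e e' : UE) (l j : ℕ), BdU (P : Set (ℤ × ℤ)) e → LinkC T P κ e e' →
    Joins e' (w l) (w (l + 1)) → k j ≤ l → l < k (j + 1) → j < 4 → ¬ InB a s (ua e) →
    e ∈ E j ∧ ∀ j' < 4, j' ≠ j → e ∉ E j'

theorem al_labOK {ι : Type*} {T P : Finset (ℤ × ℤ)} {κ : ℤ × ℤ → ι} {d : ℤ} {w : ℕ → ℤ × ℤ}
    {k : ℕ → ℕ} {m₂ : ℕ} {w₂ : ℕ → ℤ × ℤ} {k₂ : ℕ → ℕ} {sg : ℕ → Finset (ℤ × ℤ)}
    (h : ArcLink T P κ d w k m₂ w₂ k₂ sg) {E : ℕ → Set UE} {a : ℤ × ℤ} {s : ℤ}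
    (hE : LabOK T P κ w k E a s) {j i : ℕ} (hj : j < 4) (h1 : k₂ j ≤ i) (h2 : i < k₂ (j + 1))
    {e : UE} (he : BdU (P : Set (ℤ × ℤ)) e) (hje : Joins e (w₂ i) (w₂ (i + 1)))
    (ha : ¬ InB a s (ua e)) : e ∈ E j ∧ ∀ j' < 4, j' ≠ j → e ∉ E j' := by
  obtain ⟨l, g1, g2, g3⟩ := h.link j hj i h1 h2
  have hi : i < m₂ := by
    have := h.mono (show j + 1 ≤ 4 by omega)
    rw [h.k4] at this
    omega
  rcases g3 with ⟨-, e', g5, g6⟩ | ⟨⟨f, hf, e', g5, g6⟩, f', hf', e'', g7, g8⟩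
  · have : e = e' := Joins.uniq hje g5
    subst this
    exact hE e e l j he (Or.inl rfl) g6 g1 g2 hj ha
  · have : e = e' := Joins.uniq hje g6
    subst this
    exact hE e e'' l j he (Or.inr ⟨sg i, h.sub i hi, h.cell i hi, h.chn i hi, ⟨f, hf, g5⟩,
      f', hf', g7⟩) g8 g1 g2 hj ha

/-- The sides of an arc of `w₂` are near the sides of the same arc of `w`. -/
theorem al_near_side {ι : Type*} {T P : Finset (ℤ × ℤ)} {κ : ℤ × ℤ → ι} {d : ℤ}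
    {w : ℕ → ℤ × ℤ} {k : ℕ → ℕ} {m₂ : ℕ} {w₂ : ℕ → ℤ × ℤ} {k₂ : ℕ → ℕ}
    {sg : ℕ → Finset (ℤ × ℤ)} (h : ArcLink T P κ d w k m₂ w₂ k₂ sg) (hd : 0 ≤ d) {j i : ℕ}
    (hj : j < 4) (h1 : k₂ j ≤ i) (h2 : i < k₂ (j + 1)) :
    ∃ l, k j ≤ l ∧ l ≤ k (j + 1) ∧ InB (w l) (d + 1) (w₂ i) := by
  obtain ⟨l, g1, g2, g3⟩ := h.link j hj i h1 h2
  have hi : i < m₂ := by
    have := h.mono (show j + 1 ≤ 4 by omega)
    rw [h.k4] at this
    omega
  rcases g3 with ⟨-, e', g5, g6⟩ | ⟨⟨f, hf, e', g5, g6⟩, f', hf', e'', g7, g8⟩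
  · rcases joins_two g5 g6 with ⟨e1, -⟩ | ⟨e1, -⟩
    · refine ⟨l, g1, g2.le, ?_⟩
      rw [e1]
      unfold InB; omega
    · refine ⟨l + 1, by omega, g2, ?_⟩
      rw [e1]
      unfold InB; omega
  · have hb := h.box i hi f' hf'
    have hc := (side_cor g7 g8).1
    refine ⟨l, g1, g2.le, ?_⟩
    rw [abs_le, abs_le] at hb
    unfold IsCor at hc
    unfold InB
    omega

theorem ua_near {e : UE} {u v : ℤ × ℤ} (h : Joins e u v) : InB (ua e) 1 u ∧ InB (ua e) 1 v := by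
  obtain ⟨x, y, b⟩ := e
  rcases h with ⟨rfl, rfl⟩ | ⟨rfl, rfl⟩ <;> cases b <;>
    simp only [InB, ua, ub, Bool.false_eq_true, if_true, if_false] <;> omega

theorem ends_near {e : UE} {v : ℤ × ℤ} (h : v = ua e ∨ v = ub e) : InB (ua e) 1 v := by
  obtain ⟨x, y, b⟩ := e
  rcases h with rfl | rfl <;> cases b <;>
    simp only [InB, ua, ub, Bool.false_eq_true, if_true, if_false] <;> omega

/-- The crossing with true labels against the crossing with coarse labels: they differ by an arm at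
the tip. -/
theorem lab_diff {ι : Type*} {T P : Finset (ℤ × ℤ)} {κ : ℤ × ℤ → ι} {d : ℤ} {w : ℕ → ℤ × ℤ}
    {k : ℕ → ℕ} {m₂ : ℕ} {w₂ : ℕ → ℤ × ℤ} {k₂ : ℕ → ℕ} {sg : ℕ → Finset (ℤ × ℤ)}
    (h : ArcLink T P κ d w k m₂ w₂ k₂ sg) (hd : 0 ≤ d) {E : ℕ → Set UE} {a : ℤ × ℤ} {s ρ c : ℤ}
    (hs : 0 ≤ s) (hsρ : s + d + 2 < ρ) (hE : LabOK T P κ w k E a s)
    (n0 : 0 < k₂ 1) (n2 : k₂ 2 < k₂ 3)
    (hfar : ∀ l, k 2 ≤ l → l ≤ k 3 → ¬ InB a (ρ + d + 2) (w l))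
    (hfar' : ∀ e ∈ E 2, BdU (P : Set (ℤ × ℤ)) e → ¬ InB a (ρ + 1) (ua e)) {ω : Cfg}
    (hne : ¬(ω ∈ XA c P w₂ 0 (k₂ 1) (k₂ 2) (k₂ 3) ↔ ω ∈ XS c P (eV P (E 0)) (eV P (E 2)))) :
    ω ∈ FArm c P a (s + 1) ρ := by
  have hm1 : k₂ 1 ≤ m₂ := by rw [← h.k4]; exact h.mono (by omega)
  have hm3 : k₂ 3 ≤ m₂ := by rw [← h.k4]; exact h.mono (by omega)
  have h0 : av w₂ 0 (k₂ 1) = eV P {e | ∃ i, 0 ≤ i ∧ i < k₂ 1 ∧ Joins e (w₂ i) (w₂ (i + 1))} :=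
    av_eq_eV h.ctr n0 hm1
  have h2 : av w₂ (k₂ 2) (k₂ 3) =
      eV P {e | ∃ i, k₂ 2 ≤ i ∧ i < k₂ 3 ∧ Joins e (w₂ i) (w₂ (i + 1))} := av_eq_eV h.ctr n2 hm3
  rw [XA_eq_XS, h0, h2] at hne
  -- the sides of the arc 2 are far
  have far2 : ∀ e i, k₂ 2 ≤ i → i < k₂ 3 → Joins e (w₂ i) (w₂ (i + 1)) →
      ¬ InB a ρ (ua e) := by
    intro e i hi hi' hj hin
    obtain ⟨l, g1, g2, g3⟩ := al_near_side h hd (show 2 < 4 by omega) hi hi'
    refine hfar l g1 g2 ?_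
    have := (ua_near hj).1
    unfold InB at *
    omega
  -- far sides: true and coarse labels agree
  have eq2 : eV P {e | ∃ i, k₂ 2 ≤ i ∧ i < k₂ 3 ∧ Joins e (w₂ i) (w₂ (i + 1))} = eV P (E 2) := by
    ext v
    constructor
    · rintro ⟨e, ⟨i, hi, hi', hj⟩, he, hv⟩
      refine ⟨e, ?_, he, hv⟩
      refine (al_labOK h hE (show 2 < 4 by omega) hi hi' he hj ?_).1
      intro hin
      refine far2 e i hi hi' hj ?_
      unfold InB at *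
      omega
    · rintro ⟨e, he2, he, hv⟩
      obtain ⟨i, hi, hj⟩ := h.ctr.all e he
      obtain ⟨j, hj4, g1, g2⟩ := exists_arc_of h.k0 h.k4 hi
      have hna : ¬ InB a s (ua e) := by
        intro hin
        refine hfar' e he2 he ?_
        unfold InB at *
        omega
      have h5 := al_labOK h hE hj4 g1 g2 he hj hna
      have hj2 : j = 2 := by
        by_contra hne2
        exact h5.2 2 (by omega) (fun hh => hne2 hh.symm) he2
      subst hj2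
      exact ⟨e, ⟨i, g1, g2, hj⟩, he, hv⟩
  -- the end of the path in the arc 2 is far
  have hend : ∀ v ∈ eV P (E 2), ¬ InO a ρ v := by
    rintro v ⟨e, he2, he, hv⟩ hin
    refine hfar' e he2 he ?_
    have := ends_near hv
    unfold InB InO at *
    omega
  rw [eq2] at hne
  have hkey : ∀ u v, v ∈ eV P (E 2) → par u = c → Conn ω P u v →
      (∃ e, InB a s (ua e) ∧ (u = ua e ∨ u = ub e)) → ω ∈ FArm c P a (s + 1) ρ := by
    rintro u v hv hpu hcon ⟨e, hin, hu⟩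
    have h6 := ends_near hu
    unfold InB at hin h6
    unfold par at hpu
    exact ⟨u, v, by omega, by omega, by omega, by omega, by omega, hend v hv, hcon⟩
  by_cases hX : ω ∈ XS c P (eV P (E 0)) (eV P (E 2))
  · -- coarse but not true
    have hX' : ω ∉ XS c P (eV P {e | ∃ i, 0 ≤ i ∧ i < k₂ 1 ∧ Joins e (w₂ i) (w₂ (i + 1))})
        (eV P (E 2)) := fun hh => hne ⟨fun _ => hX, fun _ => hh⟩
    obtain ⟨u, ⟨e, he0, he, hu⟩, v, hv, hpu, hcon⟩ := hX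
    by_cases hin : InB a s (ua e)
    · exact hkey u v hv hpu hcon ⟨e, hin, hu⟩
    · exfalso
      apply hX'
      obtain ⟨i, hi, hj⟩ := h.ctr.all e he
      obtain ⟨j, hj4, g1, g2⟩ := exists_arc_of h.k0 h.k4 hi
      have h5 := al_labOK h hE hj4 g1 g2 he hj hin
      have hj0 : j = 0 := by
        by_contra hne0
        exact h5.2 0 (by omega) (fun hh => hne0 hh.symm) he0
      subst hj0
      exact ⟨u, ⟨e, ⟨i, Nat.zero_le _, g2, hj⟩, he, hu⟩, v, hv, hpu, hcon⟩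
  · by_cases hX' : ω ∈ XS c P (eV P {e | ∃ i, 0 ≤ i ∧ i < k₂ 1 ∧ Joins e (w₂ i) (w₂ (i + 1))})
        (eV P (E 2))
    · obtain ⟨u, ⟨e, ⟨i, -, g2, hj⟩, he, hu⟩, v, hv, hpu, hcon⟩ := hX'
      by_cases hin : InB a s (ua e)
      · exact hkey u v hv hpu hcon ⟨e, hin, hu⟩
      · exfalso
        apply hX
        have h5 := al_labOK h hE (show 0 < 4 by omega) (by rw [h.k0]; exact Nat.zero_le i) g2
          he hj hin
        exact ⟨u, ⟨e, h5.1, he, hu⟩, v, hv, hpu, hcon⟩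
    · exact absurd ⟨fun hh => absurd hh hX', fun hh => absurd hh hX⟩ hne

theorem pr_diff_le {W : Finset (ℤ × ℤ)} {X Y Z : Set Cfg} (h : ∀ ω, ¬(ω ∈ X ↔ ω ∈ Y) → ω ∈ Z) :
    |pr W X - pr W Y| ≤ pr W Z := by
  have h1 := pr_le_add_diff W X Y
  have h2 := pr_le_add_diff W Y X
  have h3 : pr W (X \ Y) ≤ pr W Z := pr_mono W fun ω hω => h ω fun hh => hω.2 (hh.1 hω.1)
  have h4 : pr W (Y \ X) ≤ pr W Z := pr_mono W fun ω hω => h ω fun hh => hω.2 (hh.2 hω.1)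
  rw [abs_le]
  constructor <;> linarith

/-- **TRANSFER.** `T` is the true domain with the four arcs of its contour `w`; `P` is a connected union
of cells inside `T` such that no cell adjacent to `P` is contained in `T`; the coarse labels `E` of the
sides of `P` are right outside of the box `B(a, s)` around the tip; the arc 2 is far from the tip. -/
theorem transfer : ∃ C α : ℝ, 0 < C ∧ 0 < α ∧ ∀ {ι : Type} (T P : Finset (ℤ × ℤ))
    (κ : ℤ × ℤ → ι) (d : ℤ) (m : ℕ) (w : ℕ → ℤ × ℤ) (k : ℕ → ℕ) (m' : ℕ) (w' : ℕ → ℤ × ℤ),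
    Ctr (T : Set (ℤ × ℤ)) m w → Ctr (P : Set (ℤ × ℤ)) m' w' → P ⊆ T →
    (∀ f ∈ P, ∀ g ∈ P, Chn (P : Set (ℤ × ℤ)) f g) →
    (∀ x y, κ x = κ y → x ∈ P → y ∈ P) → (∀ x y, κ x = κ y → Chn {z | κ z = κ x} x y) →
    (∀ x y, κ x = κ y → |x.1 - y.1| < d ∧ |x.2 - y.2| < d) →
    (∀ f ∈ P, ∀ g, Adj f g → g ∉ P → ∃ x, κ x = κ g ∧ x ∉ T) →
    k 0 = 0 → k 4 = m → Monotone k →
    ∀ (E : ℕ → Set UE) (a : ℤ × ℤ) (s ρ₀ ρ : ℤ) (c : ℤ), (c = 0 ∨ c = 1) → 0 ≤ s → 0 < ρ₀ →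
    s + d + 2 < ρ → LabOK T P κ w k E a s →
    (∀ j < 4, ∃ e ∈ E j, BdU (P : Set (ℤ × ℤ)) e ∧ ¬ InB a s (ua e)) →
    (∀ l, k 2 ≤ l → l ≤ k 3 → ¬ InB a (ρ + d + 2) (w l)) →
    (∀ e ∈ E 2, BdU (P : Set (ℤ × ℤ)) e → ¬ InB a (ρ + 1) (ua e)) →
    (HD c T w 0 (k 1) (k 2) (k 3) ρ₀ ∨ HD (1 - c) T w (k 1) (k 2) (k 3) m ρ₀) →
    |pr P (XS c P (eV P (E 0)) (eV P (E 2))) - pr T (XA c T w 0 (k 1) (k 2) (k 3))| ≤
      C * ((d + 1 : ℝ) / ρ₀) ^ α + C * ((s + 1 : ℝ) / ρ) ^ α := by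
  obtain ⟨C1, α1, hC1, hα1, h1⟩ := lemC_pow
  obtain ⟨C2, α2, hC2, hα2, h2⟩ := pr_fArm_scale
  refine ⟨max 1 (max C1 C2), min α1 α2, by positivity, lt_min hα1 hα2, ?_⟩
  intro ι T P κ d m w k m' w' hT hP hPT hcon hsat hcell hdiam hnot k0 k4 hk E a s ρ₀ ρ c hc hs hρ₀
    hsρ hE hne hfar hfar' hHD
  set C := max 1 (max C1 C2) with hC
  set α := min α1 α2 with hα
  have hα0 : 0 < α := lt_min hα1 hα2
  have hCge1 : 1 ≤ C := le_max_left _ _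
  have hCge2 : C1 ≤ C := (le_max_left _ _).trans (le_max_right _ _)
  have hCge3 : C2 ≤ C := (le_max_right _ _).trans (le_max_right _ _)
  -- the diameter is positive
  obtain ⟨e0, -, he0, -⟩ := hne 0 (by omega)
  obtain ⟨⟨f0, hf0, -⟩, -⟩ := he0
  have hd1 : 0 < d := by
    have := (hdiam f0 f0 rfl).1
    simp only [sub_self, abs_zero] at this
    exact this
  have hρ0R : (0 : ℝ) < ρ₀ := by exact_mod_cast hρ₀
  have hρ : 0 < ρ := by omega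
  have hρR : (0 : ℝ) < ρ := by exact_mod_cast hρ
  have hdR : (1 : ℝ) ≤ d := by exact_mod_cast hd1
  have hsR : (0 : ℝ) ≤ s := by exact_mod_cast hs
  have htriv : |pr P (XS c P (eV P (E 0)) (eV P (E 2))) -
      pr T (XA c T w 0 (k 1) (k 2) (k 3))| ≤ 1 := by
    have a1 := pr_nonneg P (XS c P (eV P (E 0)) (eV P (E 2)))
    have a2 := pr_le_one P (XS c P (eV P (E 0)) (eV P (E 2)))
    have a3 := pr_nonneg T (XA c T w 0 (k 1) (k 2) (k 3))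
    have a4 := pr_le_one T (XA c T w 0 (k 1) (k 2) (k 3))
    rw [abs_le]; constructor <;> linarith
  have hx1 : 0 ≤ C * ((d + 1 : ℝ) / ρ₀) ^ α := by positivity
  have hx2 : 0 ≤ C * ((s + 1 : ℝ) / ρ) ^ α := by positivity
  rcases le_or_gt 1 ((d + 1 : ℝ) / ρ₀) with hbig | hsmall
  · have : 1 ≤ ((d + 1 : ℝ) / ρ₀) ^ α := Real.one_le_rpow hbig hα0.le
    nlinarith
  -- the order lemma
  obtain ⟨w₂, k₂, sg, h⟩ := order_arcs hT hP hPT hcon κ hsat hcell hdiam hnot k0 k4 hk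
  have hnon : ∀ j < 4, k₂ j < k₂ (j + 1) := by
    intro j hj
    obtain ⟨e, heE, he, hna⟩ := hne j hj
    obtain ⟨i, hi, hji⟩ := h.ctr.all e he
    obtain ⟨j', hj4, g1, g2⟩ := exists_arc_of h.k0 h.k4 hi
    have h5 := al_labOK h hE hj4 g1 g2 he hji hna
    have hjj : j' = j := by
      by_contra hne0
      exact h5.2 j hj (fun hh => hne0 hh.symm) heE
    subst hjj
    omega
  have n0 := hnon 0 (by omega)
  have n1 := hnon 1 (by omega)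
  have n2 := hnon 2 (by omega)
  have n3 := hnon 3 (by omega)
  rw [h.k0] at n0
  simp only [Nat.reduceAdd, zero_add] at n0 n1 n2 n3
  rw [h.k4] at n3
  have hA := h.apr hT hPT k4 hk hd1.le n0 n1 n2 n3
  have b1 := h1 T P m w (k 1) (k 2) (k 3) m' w₂ (k₂ 1) (k₂ 2) (k₂ 3) (d + 1) _ hA c hc ρ₀ hρ₀ hHD
  have b2 : |pr P (XA c P w₂ 0 (k₂ 1) (k₂ 2) (k₂ 3)) -
      pr P (XS c P (eV P (E 0)) (eV P (E 2)))| ≤ pr P (FArm c P a (s + 1) ρ) :=
    pr_diff_le fun ω hω => lab_diff h hd1.le hs hsρ hE n0 n2 hfar hfar' hω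
  have b3 := h2 c a (s + 1) ρ P (by omega) (by omega)
  have b1' : |pr P (XA c P w₂ 0 (k₂ 1) (k₂ 2) (k₂ 3)) -
      pr T (XA c T w 0 (k 1) (k 2) (k 3))| ≤ C * ((d + 1 : ℝ) / ρ₀) ^ α := by
    refine b1.trans ?_
    push_cast
    have hle : ((d + 1 : ℝ) / ρ₀) ^ α1 ≤ ((d + 1 : ℝ) / ρ₀) ^ α :=
      Real.rpow_le_rpow_of_exponent_ge (by positivity) hsmall.le (min_le_left _ _)
    have hnn : 0 ≤ ((d + 1 : ℝ) / ρ₀) ^ α1 := by positivity
    calc C1 * ((d + 1 : ℝ) / ρ₀) ^ α1 ≤ C * ((d + 1 : ℝ) / ρ₀) ^ α1 :=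
          mul_le_mul_of_nonneg_right hCge2 hnn
      _ ≤ C * ((d + 1 : ℝ) / ρ₀) ^ α := mul_le_mul_of_nonneg_left hle (by linarith)
  have b3' : pr P (FArm c P a (s + 1) ρ) ≤ C * ((s + 1 : ℝ) / ρ) ^ α := by
    refine b3.trans ?_
    push_cast
    have hx : (s + 1 : ℝ) / ρ ≤ 1 := by
      rw [div_le_one hρR]
      have : s + 1 ≤ ρ := by omega
      exact_mod_cast this
    have hle : ((s + 1 : ℝ) / ρ) ^ α2 ≤ ((s + 1 : ℝ) / ρ) ^ α :=
      Real.rpow_le_rpow_of_exponent_ge (by positivity) hx (min_le_right _ _)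
    have hnn : 0 ≤ ((s + 1 : ℝ) / ρ) ^ α2 := by positivity
    calc C2 * ((s + 1 : ℝ) / ρ) ^ α2 ≤ C * ((s + 1 : ℝ) / ρ) ^ α2 :=
          mul_le_mul_of_nonneg_right hCge3 hnn
      _ ≤ C * ((s + 1 : ℝ) / ρ) ^ α := mul_le_mul_of_nonneg_left hle (by linarith)
  rw [abs_le] at *
  constructor <;> linarith

end Pool.Agent.SixB.LC
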