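import Pool.Agent.Lib.SixB.S8KerDet
import Pool.Agent.Lib.SixB.S8Trans
import Pool.Agent.Lib.SixB.S8Mob

/-!
# Step 8: the conditional law of one move

* `TipDom.no_return`, `exists_stop`: the strand enters `U \ T` (if the target is joined to both walls).
* `pr_move`: `|P(A avoided, stop in Gd | past) - (pr XA x₁ - pr XA x₂)| ≤ pr CapBad + pr CapBad₀`.
* `capBad_le`: the bad event has probability at most `2 C (D / ρ) ^ α` if no gate of width `ρ` joins the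
  two walls at the caps.
* `abs_moebius_val`: the law of the record against the Moebius sum of arbitrary approximations.
-/

set_option autoImplicit false

namespace Pool.Agent.SixB

open Finset Pool.Agent.Perc Pool.Agent.Perc6

variable {ω : Cfg} {c : ℤ} {R U : Set (ℤ × ℤ)} {T : Finset (ℤ × ℤ)} {m : ℕ} {w : ℕ → ℤ × ℤ}
  {k₁ k₃ : ℕ} {a : UE}

/-! ### Existence of the stop -/

/-- The target is joined to both walls: from a cut side two chains in `U \ T` lead to faces with corners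
joined outside `T` to `w 1` and to `w 0`. -/
def Tgt (ω : Cfg) (R U : Set (ℤ × ℤ)) (T : Finset (ℤ × ℤ)) (w : ℕ → ℤ × ℤ) (k₁ k₃ : ℕ) : Prop :=
  ∃ i s g g' z g'' z', k₁ ≤ i ∧ i < k₃ ∧ Joins s (w i) (w (i + 1)) ∧ IsSide g s ∧ g ∉ T ∧
    Relation.ReflTransGen (StepC (U \ T)ᶜ) g g' ∧ IsCor g' z ∧ Conn ω (R \ T) (w 1) z ∧
    Relation.ReflTransGen (StepC (U \ T)ᶜ) g g'' ∧ IsCor g'' z' ∧ Conn ω (R \ T) (w 0) z'

/-- The strand does not come back to the tip before it enters `U \ T`. -/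
theorem TipDom.no_return (h : TipDom ω c R U T m w k₁ k₃ a) (ht : Tgt ω R U T w k₁ k₃) {N : ℕ}
    (hN : 0 < N) (hst : ∀ i < N, fa (pth ω a i) ∈ T ∨ fa (pth ω a i) ∉ U) : pth ω a N ≠ a := by
  intro hret
  have k1 := h.h1
  have k13 := h.h13
  have k3 := h.h3
  have hm := h.m_pos
  -- the last time in `T`
  obtain ⟨r, hr, hrT, hmax⟩ : ∃ r < N, fa (pth ω a r) ∈ T ∧
      ∀ i, r < i → i < N → fa (pth ω a i) ∉ T := by
    classical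
    set Q : Finset ℕ := (range N).filter fun r => fa (pth ω a r) ∈ T with hQ
    have hne : Q.Nonempty := ⟨0, Finset.mem_filter.2 ⟨Finset.mem_range.2 hN, h.faT⟩⟩
    have hm : Q.max' hne < N ∧ fa (pth ω a (Q.max' hne)) ∈ T := by
      have h3 : ∀ r ∈ Q, r < N ∧ fa (pth ω a r) ∈ T := fun r hr => by
        rw [hQ, Finset.mem_filter, Finset.mem_range] at hr
        exact hr
      exact h3 _ (Finset.max'_mem Q hne)
    refine ⟨Q.max' hne, hm.1, hm.2, fun i hi1 hi2 hiT => ?_⟩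
    have hiQ : i ∈ Q := Finset.mem_filter.2 ⟨Finset.mem_range.2 hi2, hiT⟩
    have := Finset.le_max' Q i hiQ
    omega
  set s := r + 1 with hs
  have hTU : ∀ g, g ∈ T → g ∈ U := fun g hg => h.TU (Finset.mem_coe.2 hg)
  have hfbs : fb (pth ω a s) ∈ T := by rw [hs, fb_pth_succ]; exact hrT
  have hsN : s < N := by
    rcases Nat.lt_or_ge s N with h1 | h1
    · exact h1
    · exfalso
      have : s = N := by omega
      rw [this, hret] at hfbs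
      exact h.fbU (hTU _ hfbs)
  have hout : ∀ i, s ≤ i → i < N → fa (pth ω a i) ∉ U := fun i h1 h2 =>
    (hst i h2).resolve_left (hmax i (by omega) h2)
  have houtT : ∀ i, s ≤ i → i < N → fa (pth ω a i) ∉ T := fun i h1 h2 => hmax i (by omega) h2
  have hfaN : fa (pth ω a N) ∈ T := by rw [hret]; exact h.faT
  have hfbi : ∀ i, s < i → i ≤ N → fb (pth ω a i) ∉ U := by
    intro i hi1 hi2
    have h2 : fb (pth ω a i) = fa (pth ω a (i - 1)) := by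
      rw [← fb_pth_succ, Nat.sub_add_cancel (by omega)]
    rw [h2]
    exact hout _ (by omega) (by omega)
  obtain ⟨Θ, hΘc, hΘ⟩ := exc_pot h.hR h.cT hsN hfbs hfaN houtT
  have hbs : BdU (T : Set (ℤ × ℤ)) (pth ω a s) :=
    ⟨⟨_, Finset.mem_coe.2 hfbs, isSide_fb _⟩, _, fun hh => houtT s le_rfl hsN
      (Finset.mem_coe.1 hh), isSide_fa _⟩
  obtain ⟨i₀, hi0, j0⟩ := h.ctr.all _ hbs
  have j1 : Joins (pth ω a N) (w 0) (w (0 + 1)) := by rw [hret]; exact h.tip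
  have hval := h.exc_val hsN hfbs hfaN houtT hΘ hi0 hm j0 j1
  have h01 : Θ (w 0) ≠ Θ (w 1) := (hval 0 hm).2 (Or.inr rfl)
  -- corners of a face of `U \ T`
  have hface : ∀ g, g ∈ U → g ∉ T → ∀ p p', IsCor g p → IsCor g p' → Θ p = Θ p' := by
    intro g hgU hgT
    have hs : ∀ y p q, IsSide g y → Joins y p q → Θ p = Θ q := by
      intro y p q hy hj
      by_contra hn
      obtain ⟨i, hi1, hi2, rfl⟩ := (hΘ g (h.UR hgU) y p q hy hj ⟨g, hgT, hy⟩).1 hn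
      rcases side_fa_fb hy with h2 | h2
      · rcases Nat.lt_or_ge i N with h3 | h3
        · exact hout i hi1 h3 (by rw [← h2]; exact hgU)
        · have : i = N := by omega
          subst this
          exact hgT (by rw [h2]; exact hfaN)
      · rcases Nat.lt_or_ge s i with h3 | h3
        · exact hfbi i h3 hi2 (by rw [← h2]; exact hgU)
        · have : i = s := by omega
          subst this
          exact hgT (by rw [h2]; exact hfbs)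
    obtain ⟨x, y⟩ := g
    have b1 := hs _ _ _ (isSide_bo' _) (joins_bo' x y)
    have b2 := hs _ _ _ (isSide_le' _) (joins_le' x y)
    have b3 := hs _ _ _ (isSide_to' _) (joins_to' x y)
    have hall : ∀ p, IsCor (x, y) p → Θ p = Θ (x, y) := by
      rintro ⟨p1, p2⟩ hp
      unfold IsCor at hp
      simp only at hp
      rcases hp with ⟨rfl | rfl, rfl | rfl⟩
      · rfl
      · exact b2.symm
      · exact b1.symm
      · rw [← b3, ← b2]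
    intro p p' hp hp'
    rw [hall p hp, hall p' hp']
  obtain ⟨i, y, g, g', z, g'', z', hi1', hi2', hj, hgs, hgT, hch, hz, hconn, hch', hz', hconn'⟩ := ht
  have hgU : g ∈ U := h.cut i hi1' hi2' y g hj hgs
  have hgi : IsCor g (w i) := by
    rcases hj with ⟨hj, -⟩ | ⟨hj, -⟩
    · rw [hj]; exact PotB.cor_ua hgs
    · rw [hj]; exact PotB.cor_ub hgs
  have key : ∀ g', Relation.ReflTransGen (StepC (U \ T)ᶜ) g g' → g' ∈ U ∧ g' ∉ T ∧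
      ∀ p, IsCor g' p → Θ p = Θ (w i) := by
    intro g' hch
    induction hch with
    | refl => exact ⟨hgU, hgT, fun p hp => hface g hgU hgT p _ hp hgi⟩
    | @tail b d _ hs ih =>
      obtain ⟨hbU, hbT, hb'⟩ := ih
      obtain ⟨⟨-, y', h2, h3⟩, h4⟩ := hs
      rw [Set.mem_compl_iff, not_not] at h4
      have hdT : d ∉ T := fun hh => h4.2 (Finset.mem_coe.2 hh)
      refine ⟨h4.1, hdT, fun p hp => ?_⟩
      rw [hface d h4.1 hdT p (ua y') hp (PotB.cor_ua h3)]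
      exact hb' _ (PotB.cor_ua h2)
  have e1 := (key g' hch).2.2 z hz
  have e2 := (key g'' hch').2.2 z' hz'
  apply h01
  rw [hΘc _ _ hconn, hΘc _ _ hconn', e1, e2]

/-- The strand enters `U \ T`. -/
theorem TipDom.exists_stop (h : TipDom ω c R U T m w k₁ k₃ a) (ht : Tgt ω R U T w k₁ k₃)
    (hper : ∃ N, 0 < N ∧ pth ω a N = a) : ∃ t, Ent ω U T a t := by
  obtain ⟨N, hN, hret⟩ := hper
  by_contra hno
  refine h.no_return ht hN (fun i _ => ?_) hret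
  by_contra hi
  push Not at hi
  obtain ⟨t, -, ht'⟩ := exists_ent hi.2 hi.1
  exact hno ⟨t, ht'⟩

/-! ### The conditional law of one move -/

/-- The event of a move: the strand enters `Zp` for the first time, it has avoided `A`, and it enters
through a side of `Gd`. -/
def MoveEv (a : UE) (Zp A : Set (ℤ × ℤ)) (Gd : Set UE) : Set Cfg :=
  {ω | ∃ σ, (∀ i < σ, fa (pth ω a i) ∉ Zp) ∧ fa (pth ω a σ) ∈ Zp ∧
    (∀ i < σ, fa (pth ω a i) ∉ A) ∧ pth ω a σ ∈ Gd}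

theorem moveEv_union (a : UE) (Zp A B : Set (ℤ × ℤ)) (Gd : Set UE) :
    MoveEv a Zp (A ∪ B) Gd = MoveEv a Zp A Gd ∩ MoveEv a Zp B Gd := by
  ext ω
  constructor
  · rintro ⟨σ, h1, h2, h3, h4⟩
    exact ⟨⟨σ, h1, h2, fun i hi hA => h3 i hi (Or.inl hA), h4⟩,
      ⟨σ, h1, h2, fun i hi hA => h3 i hi (Or.inr hA), h4⟩⟩
  · rintro ⟨⟨σ, h1, h2, h3, h4⟩, ⟨σ', h1', h2', h3', -⟩⟩
    have : σ = σ' := by
      rcases lt_trichotomy σ σ' with h | h | h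
      · exact absurd h2 (h1' σ h)
      · exact h
      · exact absurd h2' (h1 σ' h)
    subst this
    refine ⟨σ, h1, h2, fun i hi hA => ?_, h4⟩
    rcases hA with hA | hA
    · exact h3 i hi hA
    · exact h3' i hi hA

theorem depOn_capBad (c : ℤ) (T : Finset (ℤ × ℤ)) (m : ℕ) (w : ℕ → ℤ × ℤ) (k₁ r₁ r₃ k₃ : ℕ) :
    DepOn (T : Set (ℤ × ℤ)) (CapBad c T m w k₁ r₁ r₃ k₃) := by
  intro ω ω' h
  have h1 := LC.depOn_XA c (T : Set (ℤ × ℤ)) w 0 k₁ r₃ k₃ ω ω' h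
  have h2 := LC.depOn_XA (1 - c) (T : Set (ℤ × ℤ)) w k₁ r₁ k₃ m ω ω' h
  constructor
  · rintro (h3 | h3)
    · exact Or.inl (h1.1 h3)
    · exact Or.inr (h2.1 h3)
  · rintro (h3 | h3)
    · exact Or.inl (h1.2 h3)
    · exact Or.inr (h2.2 h3)

/-- **The conditional probability of the event of a move.** `Ξ ξ` is the configuration read by the strand:
frozen outside of the fresh faces, equal to `ξ` on `T` and on `T₀`. -/
theorem pr_move {W : Finset (ℤ × ℤ)} {Ξ : Cfg → Cfg} {T₀ : Finset (ℤ × ℤ)} {m₀ : ℕ}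
    {w₀ : ℕ → ℤ × ℤ} {p₁ q₁ q₃ p₃ r₁ r₃ : ℕ} {Z Zp A : Set (ℤ × ℤ)} {Gd : Set UE} {x₁ x₂ : ℕ}
    (hΞ : ∀ ξ, ∀ f ∈ T, Ξ ξ f = ξ f) (hΞ₀ : ∀ ξ, ∀ f ∈ T₀, Ξ ξ f = ξ f)
    (h₀ : ∀ ξ, CapDom (Ξ ξ) c R U T₀ m₀ w₀ p₁ q₁ q₃ p₃ a)
    (h : ∀ ξ, CapDom (Ξ ξ) c R U T m w k₁ r₁ r₃ k₃ a)
    (hZ₀ : ∀ x, q₁ ≤ x → x < q₃ → ∀ s g, Joins s (w₀ x) (w₀ (x + 1)) → IsSide g s → g ∉ T₀ →
      g ∈ Z)
    (hZA : ∀ x, r₁ ≤ x → x < r₃ → ∀ s g, Joins s (w x) (w (x + 1)) → IsSide g s → g ∉ T →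
      g ∈ Z ∨ g ∈ A)
    (hZZp : Z ⊆ Zp) (hZpU : Zp ⊆ U) (hZp₀ : ∀ g ∈ Zp, g ∉ T₀) (hZT : ∀ g ∈ Z, g ∉ T)
    (hAU : A ⊆ U) (hAT : ∀ g ∈ A, g ∉ T) (hAZ : ∀ g ∈ A, g ∉ Z)
    (hx : x₁ ≤ x₂)
    (hGd : ∀ x, r₁ ≤ x → x < r₃ → ∀ s g, Joins s (w x) (w (x + 1)) → IsSide g s → g ∉ T →
      ((s ∈ Gd ∧ g ∈ Z) ↔ x₁ ≤ x ∧ x < x₂))
    (hstop : ∀ ξ, ∃ n, fa (pth (Ξ ξ) a n) ∈ Zp) :
    |pr W {ξ | Ξ ξ ∈ MoveEv a Zp A Gd} -
      (pr W (LC.XA c (T : Set (ℤ × ℤ)) w 0 r₁ x₁ r₃) -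
        pr W (LC.XA c (T : Set (ℤ × ℤ)) w 0 r₁ x₂ r₃))| ≤
      pr W (CapBad c T m w k₁ r₁ r₃ k₃) + pr W (CapBad c T₀ m₀ w₀ p₁ q₁ q₃ p₃) := by
  set X₁ := LC.XA c (T : Set (ℤ × ℤ)) w 0 r₁ x₁ r₃ with hX₁
  set X₂ := LC.XA c (T : Set (ℤ × ℤ)) w 0 r₁ x₂ r₃ with hX₂
  have hsub : X₂ ⊆ X₁ := by
    rintro ω ⟨i, k, h1, h2, h3, h4, h5, h6⟩
    exact ⟨i, k, h1, h2, hx.trans h3, h4, h5, h6⟩
  have hdiff : pr W (X₁ \ X₂) = pr W X₁ - pr W X₂ := pr_diff_of_subset W hsub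
  rw [← hdiff]
  refine (LC.pr_diff_le (Z := CapBad c T m w k₁ r₁ r₃ k₃ ∪ CapBad c T₀ m₀ w₀ p₁ q₁ q₃ p₃)
    fun ξ hne => ?_).trans (pr_union_le _ _ _)
  by_contra hno
  rw [Set.mem_union, not_or] at hno
  apply hne
  have hb : Ξ ξ ∉ CapBad c T m w k₁ r₁ r₃ k₃ := fun hh =>
    hno.1 ((depOn_capBad c T m w k₁ r₁ r₃ k₃ (Ξ ξ) ξ (hΞ ξ)).1 hh)
  have hb₀ : Ξ ξ ∉ CapBad c T₀ m₀ w₀ p₁ q₁ q₃ p₃ := fun hh =>
    hno.2 ((depOn_capBad c T₀ m₀ w₀ p₁ q₁ q₃ p₃ (Ξ ξ) ξ (hΞ₀ ξ)).1 hh)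
  -- the stop
  obtain ⟨σ, hσ, hσ'⟩ : ∃ σ, (∀ i < σ, fa (pth (Ξ ξ) a i) ∉ Zp) ∧ fa (pth (Ξ ξ) a σ) ∈ Zp := by
    classical
    have hex := hstop ξ
    exact ⟨Nat.find hex, fun i hi => Nat.find_min hex hi, Nat.find_spec hex⟩
  have key := (btw_iff (h₀ ξ) (h ξ) hZ₀ hZA hZZp hZpU hZp₀ hZT hAU hAT hAZ hGd hσ hσ' hb₀ hb).2
  have e1 : Ξ ξ ∈ MoveEv a Zp A Gd ↔ (∀ i < σ, fa (pth (Ξ ξ) a i) ∉ A) ∧ pth (Ξ ξ) a σ ∈ Gd := by
    constructor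
    · rintro ⟨σ', h1, h2, h3, h4⟩
      have : σ' = σ := by
        rcases lt_trichotomy σ' σ with h | h | h
        · exact absurd h2 (hσ σ' h)
        · exact h
        · exact absurd hσ' (h1 σ h)
      subst this
      exact ⟨h3, h4⟩
    · rintro ⟨h1, h2⟩
      exact ⟨σ, hσ, hσ', h1, h2⟩
  have e2 : Ξ ξ ∈ X₁ \ X₂ ↔ ξ ∈ X₁ \ X₂ := by
    rw [Set.mem_sdiff, Set.mem_sdiff, LC.depOn_XA _ _ _ _ _ _ _ (Ξ ξ) ξ (hΞ ξ),
      LC.depOn_XA _ _ _ _ _ _ _ (Ξ ξ) ξ (hΞ ξ)]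
  rw [Set.mem_ofPred_eq, e1, key, e2]

/-- The strand is stopped in a cap with probability at most `pr CapBad₀`. -/
theorem pr_dead {W : Finset (ℤ × ℤ)} {Ξ : Cfg → Cfg} {r₁ r₃ : ℕ} {Z Zp : Set (ℤ × ℤ)}
    (hΞ : ∀ ξ, ∀ f ∈ T, Ξ ξ f = ξ f) (h : ∀ ξ, CapDom (Ξ ξ) c R U T m w k₁ r₁ r₃ k₃ a)
    (hZ : ∀ x, r₁ ≤ x → x < r₃ → ∀ s g, Joins s (w x) (w (x + 1)) → IsSide g s → g ∉ T → g ∈ Z)
    (hZZp : Z ⊆ Zp) (hZpU : Zp ⊆ U) (hZpT : ∀ g ∈ Zp, g ∉ T) :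
    pr W {ξ | ∃ σ, (∀ i < σ, fa (pth (Ξ ξ) a i) ∉ Zp) ∧ fa (pth (Ξ ξ) a σ) ∈ Zp ∧
      fa (pth (Ξ ξ) a σ) ∉ Z} ≤ pr W (CapBad c T m w k₁ r₁ r₃ k₃) := by
  refine pr_mono W ?_
  rintro ξ ⟨σ, hσ, hσ', hnZ⟩
  by_contra hno
  have hb : Ξ ξ ∉ CapBad c T m w k₁ r₁ r₃ k₃ := fun hh =>
    hno ((depOn_capBad c T m w k₁ r₁ r₃ k₃ (Ξ ξ) ξ (hΞ ξ)).1 hh)
  obtain ⟨θ, hθσ, hθ⟩ := exists_ent (hZpU hσ') (hZpT _ hσ')
  obtain ⟨-, y, hy1, hy2, hyj, -⟩ := (h ξ).ent hθ hb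
  have hyZ := hZ y hy1 hy2 _ _ hyj (isSide_fa _) hθ.out
  have : θ = σ := by
    by_contra hne
    exact hσ θ (by omega) (hZZp hyZ)
  subst this
  exact hnZ hyZ

/-! ### The bad event -/

theorem xa_sub_fArm (hT : Ctr (T : Set (ℤ × ℤ)) m w) {a0 a1 b0 b1 : ℕ} {z : ℤ × ℤ} {D R' : ℤ}
    (hb : b1 ≤ m) (hm : 0 < m) (hz : ∀ y, b0 ≤ y → y ≤ b1 → LC.InB z D (w y))
    (hg : ¬ LC.Gate (T : Set (ℤ × ℤ)) (LC.av w a0 a1) (LC.av w b0 b1) z R') :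
    LC.XA c (T : Set (ℤ × ℤ)) w a0 a1 b0 b1 ⊆ FArm c (T : Set (ℤ × ℤ)) z D R' := by
  rintro ω ⟨i, y, h1, h2, h3, h4, h5, h6⟩
  have hpy : par (w y) = c := by rw [← h5]; exact (Conn.par_eq h6).symm
  have hzy := hz y h3 h4
  rcases LC.conn_exit z R' (conn_symm h6) with ⟨x, g1, -, g3⟩ | ⟨g1, g2, -⟩
  · refine ⟨w y, x, ?_, ?_, ?_, ?_, ?_, g3, g1⟩
    · exact hzy.1
    · exact hzy.2.1
    · exact hzy.2.2.1
    · exact hzy.2.2.2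
    · unfold par at hpy; omega
  · exfalso
    apply hg
    obtain ⟨f, hf, hfy⟩ : ∃ f ∈ (T : Set (ℤ × ℤ)), IsCor f (w y) := by
      rcases Nat.lt_or_ge y m with hlt | hge
      · obtain ⟨e, ⟨⟨f, hf, hfs⟩, -⟩, hj⟩ := hT.step y hlt
        refine ⟨f, hf, ?_⟩
        rcases hj with ⟨e1, -⟩ | ⟨e1, -⟩
        · rw [e1]; exact PotB.cor_ua hfs
        · rw [e1]; exact PotB.cor_ub hfs
      · have hy : y = m := by omega
        obtain ⟨e, ⟨⟨f, hf, hfs⟩, -⟩, hj⟩ := hT.step 0 hm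
        refine ⟨f, hf, ?_⟩
        rw [hy, hT.close]
        rcases hj with ⟨e1, -⟩ | ⟨e1, -⟩
        · rw [e1]; exact PotB.cor_ua hfs
        · rw [e1]; exact PotB.cor_ub hfs
    exact ⟨ω, ω, f, w y, w y, ⟨hf, mem_coe.2 (LC.mem_RFb_of_inO g2 hfy)⟩, hfy, hfy,
      ⟨w i, ⟨i, h1, h2, rfl⟩, conn_symm g1⟩, w y, ⟨y, h3, h4, rfl⟩, Relation.ReflTransGen.refl⟩

/-- **The bad event is a pair of arms.** `z`, `z'` are the places of the left cap and of the right cap. -/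
theorem capBad_le : ∃ C α : ℝ, 0 < C ∧ 0 < α ∧ ∀ (W T : Finset (ℤ × ℤ)) (c : ℤ) (m : ℕ)
    (w : ℕ → ℤ × ℤ) (k₁ r₁ r₃ k₃ : ℕ) (z z' : ℤ × ℤ) (D ρ : ℤ), T ⊆ W →
    Ctr (T : Set (ℤ × ℤ)) m w → 0 < m → r₁ ≤ m → k₃ ≤ m → 0 < D → D ≤ ρ →
    (∀ y, r₃ ≤ y → y ≤ k₃ → LC.InB z D (w y)) → (∀ y, k₁ ≤ y → y ≤ r₁ → LC.InB z' D (w y)) →
    ¬ LC.Gate (T : Set (ℤ × ℤ)) (LC.av w 0 k₁) (LC.av w r₃ k₃) z ρ →
    ¬ LC.Gate (T : Set (ℤ × ℤ)) (LC.av w k₃ m) (LC.av w k₁ r₁) z' ρ →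
    pr W (CapBad c T m w k₁ r₁ r₃ k₃) ≤ C * ((D : ℝ) / ρ) ^ α := by
  obtain ⟨C, α, hC, hα, h⟩ := pr_fArm_scale
  refine ⟨2 * C, α, by positivity, hα, ?_⟩
  intro W T c m w k₁ r₁ r₃ k₃ z z' D ρ hTW hT hm hr1 hk3 hD hDρ hz hz' hg hg'
  have e1 : pr W (LC.XA c (T : Set (ℤ × ℤ)) w 0 k₁ r₃ k₃) ≤ C * ((D : ℝ) / ρ) ^ α :=
    ((pr_mono W (xa_sub_fArm hT hk3 hm hz hg)).trans (pr_mono W (fArm_mono
      (Finset.coe_subset.2 hTW) le_rfl le_rfl))).trans (h c z D ρ W hD hDρ)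
  have hg2 : ¬ LC.Gate (T : Set (ℤ × ℤ)) (LC.av w k₃ m) (LC.av w k₁ r₁) z' ρ := hg'
  have e2 : pr W (LC.XA (1 - c) (T : Set (ℤ × ℤ)) w k₁ r₁ k₃ m) ≤ C * ((D : ℝ) / ρ) ^ α := by
    have hsw : LC.XA (1 - c) (T : Set (ℤ × ℤ)) w k₁ r₁ k₃ m ⊆
        LC.XA (1 - c) (T : Set (ℤ × ℤ)) w k₃ m k₁ r₁ := by
      rintro ω ⟨i, k, a1, a2, a3, a4, a5, a6⟩
      exact ⟨k, i, a3, a4, a1, a2, by rw [← a5]; exact (Conn.par_eq a6).symm, conn_symm a6⟩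
    exact ((pr_mono W (hsw.trans (xa_sub_fArm hT hr1 hm hz' hg2))).trans (pr_mono W (fArm_mono
      (Finset.coe_subset.2 hTW) le_rfl le_rfl))).trans (h (1 - c) z' D ρ W hD hDρ)
  have e3 := pr_union_le W (LC.XA c (T : Set (ℤ × ℤ)) w 0 k₁ r₃ k₃)
    (LC.XA (1 - c) (T : Set (ℤ × ℤ)) w k₁ r₁ k₃ m)
  unfold CapBad
  linarith

/-! ### The law of the record -/

/-- The law of the record against a signed sum of approximations of the probabilities of the events. -/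
theorem abs_moebius_val {Λ : Type*} [SemilatticeSup Λ] [OrderBot Λ] {S : Finset Λ}
    {A : Λ → Set Cfg} (W : Finset (ℤ × ℤ)) (hS : ∀ p ∈ S, ∀ q ∈ S, p ⊔ q ∈ S)
    (hA : ∀ p ∈ S, ∀ q ∈ S, A (p ⊔ q) = A p ∩ A q) (b : Λ → ℝ) {η : ℝ}
    (hη : ∀ q ∈ S, |pr W (A q) - b q| ≤ η) {p : Λ} (hp : p ∈ S)
    [DecidablePred fun q : Λ => ¬ q ≤ p] :
    |pr W {ω | ω ∈ A p ∧ ∀ q ∈ S, ω ∈ A q → q ≤ p} -
      ∑ T ∈ (S.filter fun q => ¬ q ≤ p).powerset, (-1 : ℝ) ^ T.card * b (p ⊔ T.sup id)| ≤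
      2 ^ S.card * η := by
  classical
  have hη0 : 0 ≤ η := (abs_nonneg _).trans (hη p hp)
  rw [pr_moebius W hS hA hp, ← Finset.sum_sub_distrib]
  refine (Finset.abs_sum_le_sum_abs _ _).trans ?_
  have h1 : ∀ T ∈ (S.filter fun q => ¬ q ≤ p).powerset,
      |(-1 : ℝ) ^ T.card * pr W (A (p ⊔ T.sup id)) -
        (-1 : ℝ) ^ T.card * b (p ⊔ T.sup id)| ≤ η := by
    intro T hT
    rw [← mul_sub, abs_mul, abs_pow, abs_neg, abs_one, one_pow, one_mul]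
    exact hη _ (sup_mem_fam hS hp T ((mem_powerset.1 hT).trans (filter_subset _ _)))
  refine (Finset.sum_le_sum h1).trans ?_
  rw [Finset.sum_const, Finset.card_powerset, nsmul_eq_mul]
  push_cast
  refine mul_le_mul_of_nonneg_right ?_ hη0
  exact pow_le_pow_right₀ (by norm_num) (card_le_card (filter_subset _ _))

end Pool.Agent.SixB
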