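import Pool.Agent.Lib.SixB.S8CapInst
import Pool.Agent.Lib.SixB.S8KerPr
import Pool.Agent.Lib.SixB.S8Geo

/-!
# Step 8: the true state after a move

`TSt ω R U A m x`: the region `U` of fresh faces which contains the face at the target; `A` is the tip
side (side `0` of the contour of `U`, the strand enters `U` through it), the side number `x` is the target
side; `WallsU`: the sides `1, …, x - 1` are joined to the right end of the tip, the sides `x, …, m - 1` to
the left end.

* `TSt.hit`: the strand of the tip passes through the target side;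
* `label`: outside of `U` the right end of the tip is joined only to the vertices `1, …, x` of the contour,
  the left end only to the vertices `x + 1, …, m`;
* `TSt.step`: **the step.** The strand visits the faces `N` up to time `σ`, the face at the target is not
  in `N`. Then the strand comes back to the component `U'` of the target in `U \ N`, at a time `θ ≥ σ`, and
  `U'` with the tip side at time `θ` and the old target side is again a true state;
* `TSt.indep`: the new tip side depends on the faces outside `U'` only.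
-/

set_option autoImplicit false

namespace Pool.Agent.SixB.Mv

open Finset Pool.Agent.Perc Pool.Agent.Perc6 Pool.Agent.Perc6.C2Aux Pool.Agent.Perc.Tips
open Pool.Agent.SixB.Top

/-! ### Directed sides -/

/-- A directed side with an even right end has the canonical direction. -/
theorem fwd_of_par {A : UE × Bool} (h : par (rg A) = 0) : fa A.1 = ahead A ∧ fb A.1 = ahead (rv A) := by
  obtain ⟨⟨x, y, _ | _⟩, _ | _⟩ := A <;> simp only [rg, par] at h <;>
    simp only [fa, fb, ahead, rv, ua_mk, par, Bool.not_true, Bool.not_false] <;>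
    split_ifs <;> simp_all <;> omega

theorem bwd_of_par {A : UE × Bool} (h : par (rg A) ≠ 0) : fa A.1 = ahead (rv A) ∧ fb A.1 = ahead A := by
  obtain ⟨⟨x, y, _ | _⟩, _ | _⟩ := A <;> simp only [rg, par] at h <;>
    simp only [fa, fb, ahead, rv, ua_mk, par, Bool.not_true, Bool.not_false] <;>
    split_ifs <;> simp_all <;> omega

theorem par_rg_of_fwd {A : UE × Bool} (h : fa A.1 = ahead A) : par (rg A) = 0 := by
  by_contra hn
  exact ahead_ne A (h.symm.trans (bwd_of_par hn).1)

/-- The unit edge `e` with the canonical direction. -/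
noncomputable def dirE (e : UE) : UE × Bool := (e, decide (ahead (e, true) = fa e))

theorem dirE_fst (e : UE) : (dirE e).1 = e := rfl

theorem ahead_dirE (e : UE) : ahead (dirE e) = fa e := by
  by_cases h : ahead (e, true) = fa e
  · unfold dirE
    rw [decide_eq_true h]
    exact h
  · unfold dirE
    rw [decide_eq_false h]
    have h1 := side_two (ahead_ne (e, true)) (sideA (e, true)) (sideB (e, true)) (isSide_fa e)
    rcases h1 with h1 | h1
    · exact absurd h1.symm h
    · exact h1.symm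

theorem ahead_rv_dirE (e : UE) : ahead (rv (dirE e)) = fb e := by
  have h1 : fa (dirE e).1 = ahead (dirE e) := by rw [dirE_fst, ahead_dirE]
  have h2 := (fwd_of_par (par_rg_of_fwd h1)).2
  rw [dirE_fst] at h2
  exact h2.symm

/-! ### The potential of the strand of the tip -/

/-- The true state. -/
structure TSt (ω : Cfg) (R U : Set (ℤ × ℤ)) (A : UE × Bool) (m x : ℕ) : Prop where
  hR : HasPot R
  UR : U ⊆ R
  fin : U.Finite
  ec : Top.EConn U
  esc : Esc U
  cyc : Cyc U A m
  fwd : fa A.1 = ahead A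
  pos : 0 < x
  lt : x < m
  px : par (vert U A x) = 0
  walls : WallsU ω 0 R U A m x

section One

variable {ω : Cfg} {R U : Set (ℤ × ℤ)} {A : UE × Bool} {m x : ℕ}

theorem vert_zero_lf : vert U A 0 = lf A := rfl

theorem vert_one_rg : vert U A 1 = rg A := by
  rw [show (1 : ℕ) = 0 + 1 from rfl, vert_succ]
  rfl

/-- The parities of the vertices alternate. -/
theorem par_vert_succ (i : ℕ) : par (vert U A (i + 1)) = 1 - par (vert U A i) := by
  have h1 := (joins_side (D := U) (A := A) i).par_ne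
  have h2 := par_cases (vert U A i)
  have h3 := par_cases (vert U A (i + 1))
  omega

namespace TSt

variable (h : TSt ω R U A m x)
include h

theorem par_one : par (rg A) = 0 := par_rg_of_fwd h.fwd

theorem par_zero : par (lf A) = 1 := by
  have h1 := (joins_lf_rg A).par_ne
  have h2 := par_cases (lf A)
  have h3 := h.par_one
  omega

theorem par_succ : par (vert U A (x + 1)) = 1 := by
  rw [par_vert_succ, h.px]
  norm_num

/-- The right end of the target side is joined to the right end of the tip. -/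
theorem conn_right : Conn ω (R \ U) (rg A) (vert U A x) := by
  rcases Nat.lt_or_ge 1 x with h1 | h1
  · have h2 := h.walls.right (x - 1) (by omega) (by omega) (vert U A x)
      (Or.inr (by rw [Nat.sub_add_cancel (by omega)])) h.px
    rwa [vert_one_rg] at h2
  · have h2 : x = 1 := by have := h.pos; omega
    rw [h2, vert_one_rg]
    exact Relation.ReflTransGen.refl

/-- The left end of the target side is joined to the left end of the tip. -/
theorem conn_left : Conn ω (R \ U) (lf A) (vert U A (x + 1)) := by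
  have h2 := h.walls.left x le_rfl h.lt (vert U A (x + 1)) (Or.inr rfl) (by
    have := h.par_succ
    omega)
  rwa [vert_zero_lf] at h2

/-- **The strand of the tip passes through the target side.** -/
theorem hit (hper : ∃ N, 0 < N ∧ pth ω A.1 N = A.1) : ∃ t, pth ω A.1 t = (side U A x).1 := by
  obtain ⟨N, hN, hret⟩ := hper
  obtain ⟨M, hM⟩ : ∃ M : Set UE, M = {e | ∃ i, pth ω A.1 i = e} := ⟨_, rfl⟩
  have key : ∀ g y y', Mt ω g y y' → y ∈ M → y' ∈ M := by
    intro g y y' hm hy
    rw [hM] at hy ⊢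
    obtain ⟨i, rfl⟩ := hy
    rcases mt_iff.1 hm with ⟨-, rfl⟩ | ⟨-, rfl⟩
    · exact ⟨i + 1, pth_succ _ _ _⟩
    · rcases Nat.eq_zero_or_pos i with rfl | hi
      · refine ⟨N - 1, ?_⟩
        have h1 : pth ω A.1 0 = nx ω (pth ω A.1 (N - 1)) := by
          rw [← pth_succ, Nat.sub_add_cancel (by omega), hret]
          rfl
        rw [h1, pv_nx]
      · refine ⟨i - 1, ?_⟩
        have h1 : pth ω A.1 i = nx ω (pth ω A.1 (i - 1)) := by
          rw [← pth_succ, Nat.sub_add_cancel (by omega)]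
        rw [h1, pv_nx]
  have hinv : MtInv ω Set.univ M := fun g _ y y' hm => ⟨key g y y' hm, key g y' y hm.symm⟩
  obtain ⟨Φ, hΦ⟩ := h.hR M fun f _ => hinv.even (Set.mem_univ f)
  have hc : ∀ p q, Conn ω (R \ U) p q → Φ p = Φ q := fun p q hpq =>
    MtInv.conn (F := R \ U) (fun g _ => hinv g (Set.mem_univ g)) (fun g hg => hΦ g hg.1) hpq
  have hA : A.1 ∈ M := by rw [hM]; exact ⟨0, rfl⟩
  have e0 : Φ (lf A) ≠ Φ (rg A) := (hΦ.joins (h.UR h.cyc.bd.1) (sideA A) (joins_lf_rg A)).1 hA
  have e1 := hc _ _ h.conn_right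
  have e2 := hc _ _ h.conn_left
  have hx : (side U A x).1 ∈ M := by
    rw [hΦ.joins (h.UR (bd_side h.cyc.bd x).1) (sideA _) (joins_side x), ← e1, ← e2]
    exact e0.symm
  rw [hM] at hx
  exact hx

end TSt

/-- **The labels of the contour.** `C` is a region, `A` its tip side, the side number `x` has its ends
joined outside `C` to the ends of the tip. Then the right end of the tip is joined outside `C` to
vertices with a number `≤ x` only, the left end to vertices with a number `> x`. -/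
theorem label {C : Set (ℤ × ℤ)} (hR : HasPot R) (CR : C ⊆ R) (cC : Top.EConn C) (hC : Cyc C A m)
    (hfa : fa A.1 = ahead A) (hper : ∃ N, 0 < N ∧ pth ω A.1 N = A.1) (hx0 : 0 < x) (hxm : x < m)
    (h1 : Conn ω (R \ C) (rg A) (vert C A x)) (h0 : Conn ω (R \ C) (lf A) (vert C A (x + 1))) :
    (∀ i, i ≤ m → Conn ω (R \ C) (rg A) (vert C A i) → 0 < i ∧ i ≤ x) ∧
      ∀ i, 0 < i → i ≤ m → Conn ω (R \ C) (lf A) (vert C A i) → x < i := by
  obtain ⟨N, hN, hret⟩ := hper
  have hbd := hC.bd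
  have hfb : fb A.1 = ahead (rv A) := (fwd_of_par (par_rg_of_fwd hfa)).2
  -- the last time in `C`
  have hex : ∃ s, 0 < s ∧ s ≤ N ∧ fb (pth ω A.1 s) ∈ C := ⟨1, one_pos, hN, by
    rw [show (1 : ℕ) = 0 + 1 from rfl, fb_pth_succ, pth_zero, hfa]
    exact hbd.1⟩
  obtain ⟨s, hs0, hsN, hsC, hmax⟩ : ∃ s, 0 < s ∧ s ≤ N ∧ fb (pth ω A.1 s) ∈ C ∧
      ∀ i, s < i → i ≤ N → fb (pth ω A.1 i) ∉ C := by
    classical
    obtain ⟨s, hs⟩ := hex
    set Q : Finset ℕ := (range (N + 1)).filter fun s => 0 < s ∧ fb (pth ω A.1 s) ∈ C with hQ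
    have hne : Q.Nonempty := ⟨s, Finset.mem_filter.2
      ⟨Finset.mem_range.2 (by omega), hs.1, hs.2.2⟩⟩
    have h3 : ∀ r ∈ Q, r ≤ N ∧ 0 < r ∧ fb (pth ω A.1 r) ∈ C := fun r hr => by
      rw [hQ, Finset.mem_filter, Finset.mem_range] at hr
      exact ⟨by omega, hr.2⟩
    obtain ⟨h4, h5, h6⟩ := h3 _ (Finset.max'_mem Q hne)
    refine ⟨Q.max' hne, h5, h4, h6, fun i hi1 hi2 hi3 => ?_⟩
    have := Finset.le_max' Q i (Finset.mem_filter.2
      ⟨Finset.mem_range.2 (by omega), by omega, hi3⟩)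
    omega
  have hsN' : s < N := by
    rcases hsN.lt_or_eq with h3 | h3
    · exact h3
    · exfalso
      rw [h3, hret, hfb] at hsC
      exact hbd.2 hsC
  have hout : ∀ i, s ≤ i → i < N → fa (pth ω A.1 i) ∉ C := by
    intro i h3 h4
    rw [← fb_pth_succ]
    exact hmax (i + 1) (by omega) (by omega)
  have hfaN : fa (pth ω A.1 N) ∈ C := by rw [hret, hfa]; exact hbd.1
  obtain ⟨Θ, hΘc, hΘ⟩ := exc_pot_out hR cC hsN' hsC hfaN hout
  have hbs : BdU C (pth ω A.1 s) := ⟨⟨_, hsC, isSide_fb _⟩, _, hout s le_rfl hsN', isSide_fa _⟩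
  obtain ⟨i₀, hi0, j0⟩ := hC.ctr.all _ hbs
  have hm := hC.pos
  have hval : ∀ i, i < m → (Θ (vert C A i) ≠ Θ (vert C A (i + 1)) ↔ i = i₀ ∨ i = 0) := by
    intro i hi
    rw [hΘ (ahead (side C A i)) (CR (bd_side hbd i).1) (side C A i).1 _ _ (sideA _) (joins_side i)
      ⟨_, (bd_side hbd i).2, sideB _⟩]
    constructor
    · rintro ⟨k, hk1, hk2, hk⟩
      have hk' : IsSide (ahead (side C A i)) (pth ω A.1 k) := hk ▸ sideA _
      rcases side_fa_fb hk' with h2 | h2
      · have hkN : k = N := by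
          by_contra hne
          exact hout k hk1 (by omega) (h2 ▸ (bd_side hbd i).1)
        subst hkN
        right
        refine hC.ctr.inj i hi 0 hm A.1 ?_ (joins_side (D := C) (A := A) 0)
        rw [← hret, ← hk]
        exact joins_side i
      · have hks : k = s := by
          by_contra hne
          exact hmax k (by omega) hk2 (h2 ▸ (bd_side hbd i).1)
        subst hks
        left
        exact hC.ctr.inj i hi i₀ hi0 _ (hk ▸ joins_side i) j0
    · rintro (rfl | rfl)
      · refine ⟨s, le_rfl, hsN'.le, ?_⟩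
        exact Joins.uniq (joins_side _) j0
      · exact ⟨N, hsN'.le, le_rfl, hret.symm⟩
  have e1 := hΘc _ _ h1
  have e0 := hΘc _ _ h0
  have h01 : Θ (lf A) ≠ Θ (rg A) := by
    have h3 := (hval 0 hm).2 (Or.inr rfl)
    rw [zero_add, vert_one_rg] at h3
    exact h3
  have hxi : x = i₀ := by
    have h3 : Θ (vert C A x) ≠ Θ (vert C A (x + 1)) := by
      rw [← e1, ← e0]
      exact h01.symm
    rcases (hval x hxm).1 h3 with h4 | h4
    · exact h4
    · omega
  subst hxi
  have hR1 : ∀ i, 1 ≤ i → i ≤ x → Θ (vert C A i) = Θ (rg A) := by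
    intro i h3 h4
    have h5 := const_run (fun i => Θ (vert C A i)) (i := 1) (j := i) h3 fun k hk1 hk2 hne => by
      rcases (hval k (by omega)).1 hne with h6 | h6 <;> omega
    rw [← h5, vert_one_rg]
  have hL1 : ∀ i, x + 1 ≤ i → i ≤ m → Θ (vert C A i) = Θ (lf A) := by
    intro i h3 h4
    have h5 := const_run (fun i => Θ (vert C A i)) (i := i) (j := m) h4 fun k hk1 hk2 hne => by
      rcases (hval k (by omega)).1 hne with h6 | h6 <;> omega
    rw [h5, hC.vert_m]
    rfl
  constructor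
  · intro i hi hc
    have h3 := hΘc _ _ hc
    by_contra hcon
    rcases (by omega : i = 0 ∨ x + 1 ≤ i) with rfl | h4
    · exact h01 h3.symm
    · rw [hL1 i h4 hi] at h3
      exact h01 h3.symm
  · intro i hi0' hi hc
    have h3 := hΘc _ _ hc
    by_contra hcon
    rw [hR1 i hi0' (by omega)] at h3
    exact h01 h3

/-- The faces visited by a strand which starts outside of `U` can be removed. -/
theorem esc_vs {e : UE} {σ : ℕ} (he : Esc U) (h0 : fb e ∉ U) :
    Esc (U \ (vs ω e 0 σ : Set (ℤ × ℤ))) := by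
  refine he.diff ?_
  intro f hf
  obtain ⟨i, -, hi, rfl⟩ := mem_vs.1 (Finset.mem_coe.1 hf)
  refine ⟨fb e, h0, ?_⟩
  have key : ∀ i, i < σ → Relation.ReflTransGen (StepC (U \ (vs ω e 0 σ : Set (ℤ × ℤ))))
      (fa (pth ω e i)) (fb e) := by
    intro i
    induction i with
    | zero =>
      intro _
      exact Relation.ReflTransGen.single
        ⟨⟨fa_ne_fb _, _, isSide_fa _, isSide_fb _⟩, fun hh => h0 hh.1⟩
    | succ i ih =>
      intro hi
      refine Relation.ReflTransGen.head ⟨⟨?_, pth ω e (i + 1), isSide_fa _, ?_⟩, fun hh => ?_⟩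
        (ih (by omega))
      · rw [← fb_pth_succ ω e i]
        exact fa_ne_fb _
      · rw [← fb_pth_succ ω e i]
        exact isSide_fb _
      · exact hh.2 (Finset.mem_coe.2 (fa_mem_vs (Nat.zero_le _) (by omega)))
  exact key i hi

/-- The side `s` is a right side: it is a right side of `U`, or its outer face is a visited face of `U` of
even type. -/
def RtS (ω : Cfg) (U : Set (ℤ × ℤ)) (A : UE × Bool) (x : ℕ) (N : Set (ℤ × ℤ)) (s : UE × Bool) : Prop :=
  (∃ j, 0 < j ∧ j < x ∧ s = side U A j) ∨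
    (ahead (rv s) ∈ U ∧ ahead (rv s) ∈ N ∧ ω (ahead (rv s)) = !parD 0 (ahead (rv s)))

/-- The side `s` is a left side: it is a left side of `U`, or its outer face is a visited face of `U` of
odd type. -/
def LtS (ω : Cfg) (U : Set (ℤ × ℤ)) (A : UE × Bool) (m x : ℕ) (N : Set (ℤ × ℤ)) (s : UE × Bool) :
    Prop :=
  (∃ j, x < j ∧ j < m ∧ s = side U A j) ∨
    (ahead (rv s) ∈ U ∧ ahead (rv s) ∈ N ∧ ω (ahead (rv s)) = parD 0 (ahead (rv s)))

theorem not_rtS_ltS {ω ω' : Cfg} {N : Set (ℤ × ℤ)} {s : UE × Bool} (hA : Cyc U A m) (hx : x < m)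
    (hω : ∀ g ∈ N, ω g = ω' g) (h1 : RtS ω U A x N s) (h2 : LtS ω' U A m x N s) : False := by
  rcases h1 with ⟨i, i0, ix, rfl⟩ | ⟨u1, n1, t1⟩ <;> rcases h2 with ⟨i', ix', im', hi'⟩ | ⟨u2, n2, t2⟩
  · have := hA.inj i (by omega) i' im' hi'
    omega
  · exact (bd_side hA.bd i).2 u2
  · rw [hi'] at u1
    exact (bd_side hA.bd i').2 u1
  · rw [← hω _ n2, t1] at t2
    revert t2
    cases parD 0 (ahead (rv s)) <;> simp

/-- The new true state, with the labels of the sides. -/
structure Nxt (ω : Cfg) (R U : Set (ℤ × ℤ)) (A : UE × Bool) (m x : ℕ) (N U' : Set (ℤ × ℤ))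
    (A' : UE × Bool) (m' x' : ℕ) : Prop where
  st : TSt ω R U' A' m' x'
  tgt : side U' A' x' = side U A x
  rt : ∀ v, 0 < v → v < x' → RtS ω U A x N (side U' A' v)
  lt : ∀ v, x' < v → v < m' → LtS ω U A m x N (side U' A' v)

/-- **The step.** `N` = the faces visited up to time `σ`, `U'` the component of the target in `U \ N`,
`θ` the first time after `σ` at which the strand enters `U'`. -/
theorem TSt.step (h : TSt ω R U A m x) (hper : ∃ N, 0 < N ∧ pth ω A.1 N = A.1)
    {σ θ : ℕ} (hvR : ∀ i < θ, fa (pth ω A.1 i) ∈ R) (hσ : 0 < σ) (hσθ : σ ≤ θ) {U' : Set (ℤ × ℤ)}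
    (hU' : U' = compT (U \ (vs ω A.1 0 σ : Set (ℤ × ℤ))) (ahead (side U A x)))
    (hq : ahead (side U A x) ∉ vs ω A.1 0 σ)
    (hout : ∀ i, σ ≤ i → i < θ → fa (pth ω A.1 i) ∉ U') (hθ : fa (pth ω A.1 θ) ∈ U') :
    ∃ m' x', Nxt ω R U A m x (vs ω A.1 0 σ) U' (dirE (pth ω A.1 θ)) m' x' := by
  obtain ⟨q, hqdef⟩ : ∃ q, q = side U A x := ⟨_, rfl⟩
  obtain ⟨N, hN⟩ : ∃ N : Set (ℤ × ℤ), N = (vs ω A.1 0 σ : Set (ℤ × ℤ)) := ⟨_, rfl⟩
  obtain ⟨A', hA'⟩ : ∃ A', A' = dirE (pth ω A.1 θ) := ⟨_, rfl⟩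
  rw [← hN] at hU'
  rw [← hN, ← hA']
  have hqU : BD U q := by rw [hqdef]; exact bd_side h.cyc.bd x
  have hq0 : ahead (side U A x) ∈ U \ N := by
    rw [hN, ← hqdef]
    exact ⟨hqU.1, fun hh => hq (by rw [← hqdef]; exact Finset.mem_coe.1 hh)⟩
  have hsub : U' ⊆ U \ N := by rw [hU']; exact compT_sub hq0
  have hU'R : U' ⊆ R := fun f hf => h.UR (hsub hf).1
  have hfin' : U'.Finite := h.fin.subset fun f hf => (hsub hf).1
  have hec' : Top.EConn U' := by rw [hU']; exact econn_compT hq0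
  have hfb : fb A.1 = ahead (rv A) := (fwd_of_par h.par_one).2
  have hesc' : Esc U' := by
    rw [hU']
    refine esc_compT (h.fin.subset Set.sdiff_subset) ?_ hq0
    rw [hN]
    exact esc_vs h.esc (by rw [hfb]; exact h.cyc.bd.2)
  have hqU' : ahead q ∈ U' := by rw [hqdef, hU']; exact self_mem_compT
  have hNi : ∀ i, i < σ → fa (pth ω A.1 i) ∈ N := fun i hi => by
    rw [hN]
    exact Finset.mem_coe.2 (fa_mem_vs (Nat.zero_le _) hi)
  have hno : ∀ i, i < θ → fa (pth ω A.1 i) ∉ U' := by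
    intro i hi hh
    rcases Nat.lt_or_ge i σ with h1 | h1
    · exact (hsub hh).2 (hNi i h1)
    · exact hout i h1 hi hh
  have hvs : (vs ω A.1 0 θ : Set (ℤ × ℤ)) ⊆ R \ U' := by
    intro g hg
    obtain ⟨i, -, hi, rfl⟩ := mem_vs.1 (Finset.mem_coe.1 hg)
    exact ⟨hvR i hi, hno i hi⟩
  have hvsσ : (vs ω A.1 0 σ : Set (ℤ × ℤ)) ⊆ R \ U' := fun g hg =>
    hvs (Finset.coe_subset.2 (vs_mono le_rfl hσθ) hg)
  have hRU : R \ U ⊆ R \ U' := fun g hg => ⟨hg.1, fun hh => hg.2 (hsub hh).1⟩
  -- the tip side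
  have hA'1 : A'.1 = pth ω A.1 θ := by rw [hA', dirE_fst]
  have haA' : ahead A' = fa (pth ω A.1 θ) := by rw [hA', ahead_dirE]
  have hbA' : ahead (rv A') = fb (pth ω A.1 θ) := by rw [hA', ahead_rv_dirE]
  have hfwd' : fa A'.1 = ahead A' := by rw [hA'1, haA']
  have hp1 : par (rg A') = 0 := par_rg_of_fwd hfwd'
  have hp0 : par (lf A') = 1 := by
    have h1 := (joins_lf_rg A').par_ne
    have h2 := par_cases (lf A')
    omega
  have hbd' : BD U' A' := by
    refine ⟨by rw [haA']; exact hθ, ?_⟩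
    rw [hbA', show θ = (θ - 1) + 1 by omega, fb_pth_succ]
    exact hno (θ - 1) (by omega)
  obtain ⟨m', hcyc'⟩ := exists_cyc hfin' hec' hesc' hbd'
  have hqbd' : BD U' q := ⟨hqU', fun hh => hqU.2 (hsub hh).1⟩
  obtain ⟨x', hx'm, hx'⟩ := hcyc'.exists_index hqbd'
  have hparq : par (lf q) = 0 := by
    rw [hqdef]
    exact h.px
  have hx'0 : 0 < x' := by
    rcases Nat.eq_zero_or_pos x' with h0 | h0
    · exfalso
      rw [h0] at hx'
      have h1 : A' = q := hx'
      rw [h1, hparq] at hp0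
      omega
    · exact h0
  -- connections along the strand
  have er : en 0 (pth ω A.1 θ) = rg A' := by
    rw [← hA'1]
    exact en_joins (joins_lf_rg A').symm hp1
  have el : en 1 (pth ω A.1 θ) = lf A' := by
    rw [← hA'1]
    exact en_joins (joins_lf_rg A') hp0
  have er0 : en 0 A.1 = rg A := en_joins (joins_lf_rg A).symm h.par_one
  have el0 : en 1 A.1 = lf A := en_joins (joins_lf_rg A) h.par_zero
  have cr : Conn ω (R \ U') (rg A) (rg A') := by
    have h1 := conn_pth_vs (ω := ω) (e := A.1) (s := 0) (t := θ) (Or.inl rfl : (0 : ℤ) = 0 ∨ _)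
      (Nat.zero_le θ)
    rw [pth_zero, er, er0] at h1
    exact h1.mono hvs
  have cl : Conn ω (R \ U') (lf A) (lf A') := by
    have h1 := conn_pth_vs (ω := ω) (e := A.1) (s := 0) (t := θ) (Or.inr rfl : (1 : ℤ) = 0 ∨ _)
      (Nat.zero_le θ)
    rw [pth_zero, el, el0] at h1
    exact h1.mono hvs
  have crσ : Conn ω (R \ U') (en 0 (pth ω A.1 σ)) (rg A') := by
    rw [← er]
    exact (conn_pth_vs (ω := ω) (e := A.1) (s := σ) (t := θ) (Or.inl rfl) hσθ).mono fun g hg =>
      hvs (Finset.coe_subset.2 (vs_mono (Nat.zero_le _) le_rfl) hg)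
  have clσ : Conn ω (R \ U') (en 1 (pth ω A.1 σ)) (lf A') := by
    rw [← el]
    exact (conn_pth_vs (ω := ω) (e := A.1) (s := σ) (t := θ) (Or.inr rfl) hσθ).mono fun g hg =>
      hvs (Finset.coe_subset.2 (vs_mono (Nat.zero_le _) le_rfl) hg)
  have hv' : vert U' A' x' = vert U A x := by
    unfold vert
    rw [hx', hqdef]
  have hv'1 : vert U' A' (x' + 1) = vert U A (x + 1) := by
    rw [vert_succ, vert_succ, hx', hqdef]
  have c1 : Conn ω (R \ U') (rg A') (vert U' A' x') := by
    rw [hv']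
    exact conn_trans (conn_symm cr) (h.conn_right.mono hRU)
  have c0 : Conn ω (R \ U') (lf A') (vert U' A' (x' + 1)) := by
    rw [hv'1]
    exact conn_trans (conn_symm cl) (h.conn_left.mono hRU)
  have hper' : ∃ N, 0 < N ∧ pth ω A'.1 N = A'.1 := by
    obtain ⟨M, hM, hret⟩ := hper
    refine ⟨M, hM, ?_⟩
    rw [hA'1, pth_add, Nat.add_comm, ← pth_add, hret]
  obtain ⟨LR, LL⟩ := label h.hR hU'R hec' hcyc' hfwd' hper' hx'0 hx'm c1 c0
  -- the two kinds of sides
  have hcls : ∀ v, 0 < v → v < m' → v ≠ x' →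
      (∃ j, 0 < j ∧ j < m ∧ j ≠ x ∧ side U' A' v = side U A j) ∨
        (outF U' A' v ∈ U ∧ outF U' A' v ∈ N) := by
    intro v hv0 hvm hvx
    have hbv := bd_side hcyc'.bd v
    by_cases hgU : outF U' A' v ∈ U
    · right
      refine ⟨hgU, ?_⟩
      by_contra hgN
      refine hbv.2 ?_
      have h1 := hbv.1
      rw [hU'] at h1 ⊢
      refine compT_step h1 (adjF_ahead _).symm ?_
      exact ⟨by rw [← hU']; exact hgU, by rw [← hU']; exact hgN⟩
    · left
      have hbU : BD U (side U' A' v) := ⟨(hsub hbv.1).1, hgU⟩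
      obtain ⟨j, hj, hjs⟩ := h.cyc.exists_index hbU
      refine ⟨j, ?_, hj, ?_, hjs.symm⟩
      · rcases Nat.eq_zero_or_pos j with h0 | h0
        · exfalso
          rw [h0] at hjs
          have h1 : A = side U' A' v := hjs
          have h2 := (hsub hbv.1).2
          rw [← h1, ← h.fwd] at h2
          exact h2 (hNi 0 hσ)
        · exact h0
      · rintro rfl
        rw [← hqdef, ← hx'] at hjs
        exact hvx (hcyc'.inj v hvm x' hx'm hjs.symm)
  have hcor : ∀ v p, (p = vert U' A' v ∨ p = vert U' A' (v + 1)) → IsCor (outF U' A' v) p := by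
    rintro v p (rfl | rfl)
    · exact isCor_out_lf _
    · rw [vert_succ]
      exact isCor_out_rg _
  have hvv : ∀ v j, side U' A' v = side U A j → ∀ p, (p = vert U' A' v ∨ p = vert U' A' (v + 1)) →
      (p = vert U A j ∨ p = vert U A (j + 1)) := by
    intro v j hvj p hp
    rcases hp with rfl | rfl
    · left
      unfold vert
      rw [hvj]
    · right
      rw [vert_succ, vert_succ, hvj]
  -- right sides
  have hR' : ∀ v j, 0 < j → j < x → side U' A' v = side U A j →
      ∀ p, (p = vert U' A' v ∨ p = vert U' A' (v + 1)) → par p = 0 →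
      Conn ω (R \ U') (rg A') p := by
    intro v j hj0 hjx hvj p hp hp0
    have h1 := h.walls.right j hj0 hjx p (hvv v j hvj p hp) hp0
    rw [vert_one_rg] at h1
    exact conn_trans (conn_symm cr) (h1.mono hRU)
  have hL' : ∀ v j, x < j → j < m → side U' A' v = side U A j →
      ∀ p, (p = vert U' A' v ∨ p = vert U' A' (v + 1)) → par p ≠ 0 →
      Conn ω (R \ U') (lf A') p := by
    intro v j hjx hjm hvj p hp hp0
    have h1 := h.walls.left j hjx.le hjm p (hvv v j hvj p hp) hp0
    rw [vert_zero_lf] at h1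
    exact conn_trans (conn_symm cl) (h1.mono hRU)
  have hRN : ∀ v, outF U' A' v ∈ N → ω (outF U' A' v) = !parD 0 (outF U' A' v) →
      ∀ p, (p = vert U' A' v ∨ p = vert U' A' (v + 1)) → par p = 0 →
      Conn ω (R \ U') (rg A') p := by
    intro v hvN hω p hp hp0
    have h1 := vs_corner (ω := ω) (e := A.1) (s := 0) (t := σ) (Or.inl rfl) (g := outF U' A' v)
      (v := p) (by rw [hN] at hvN; exact Finset.mem_coe.1 hvN) hω (hcor v p hp) hp0
    exact conn_symm (conn_trans (h1.mono hvsσ) crσ)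
  have hLN : ∀ v, outF U' A' v ∈ N → ω (outF U' A' v) = parD 0 (outF U' A' v) →
      ∀ p, (p = vert U' A' v ∨ p = vert U' A' (v + 1)) → par p ≠ 0 →
      Conn ω (R \ U') (lf A') p := by
    intro v hvN hω p hp hp0
    have h1 := vs_corner' (ω := ω) (e := A.1) (s := 0) (t := σ) (Or.inl rfl) (g := outF U' A' v)
      (v := p) (by rw [hN] at hvN; exact Finset.mem_coe.1 hvN) hω (hcor v p hp) hp0
    rw [sub_zero] at h1
    exact conn_symm (conn_trans (h1.mono hvsσ) clσ)
  -- a left side is not before the target, a right side not after it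
  have nL : ∀ v, 0 < v → v < x' →
      ¬ ∀ p, (p = vert U' A' v ∨ p = vert U' A' (v + 1)) → par p ≠ 0 →
        Conn ω (R \ U') (lf A') p := by
    intro v hv0 hvx hall
    by_cases h1 : par (vert U' A' v) = 0
    · have h2 : par (vert U' A' (v + 1)) ≠ 0 := by
        rw [par_vert_succ, h1]
        norm_num
      have := LL (v + 1) (by omega) (by omega) (hall _ (Or.inr rfl) h2)
      omega
    · have := LL v hv0 (by omega) (hall _ (Or.inl rfl) h1)
      omega
  have nR : ∀ v, x' < v → v < m' →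
      ¬ ∀ p, (p = vert U' A' v ∨ p = vert U' A' (v + 1)) → par p = 0 →
        Conn ω (R \ U') (rg A') p := by
    intro v hvx hvm hall
    by_cases h1 : par (vert U' A' v) = 0
    · have := (LR v hvm.le (hall _ (Or.inl rfl) h1)).2
      omega
    · have h2 : par (vert U' A' (v + 1)) = 0 := by
        have h3 := par_cases (vert U' A' v)
        rw [par_vert_succ]
        omega
      have := (LR (v + 1) (by omega) (hall _ (Or.inr rfl) h2)).2
      omega
  have htype : ∀ g, ω g = !parD 0 g ∨ ω g = parD 0 g := by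
    intro g
    cases ω g <;> cases parD 0 g <;> simp
  have hrt : ∀ v, 0 < v → v < x' → RtS ω U A x N (side U' A' v) := by
    intro v hv0 hvx
    rcases hcls v hv0 (by omega) (by omega) with ⟨j, j0, jm, jx, hj⟩ | ⟨hvU, hvN⟩
    · rcases Nat.lt_or_gt_of_ne jx with h1 | h1
      · exact Or.inl ⟨j, j0, h1, hj⟩
      · exact absurd (hL' v j h1 jm hj) (nL v hv0 hvx)
    · rcases htype (outF U' A' v) with h1 | h1
      · exact Or.inr ⟨hvU, hvN, h1⟩
      · exact absurd (hLN v hvN h1) (nL v hv0 hvx)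
  have hlt : ∀ v, x' < v → v < m' → LtS ω U A m x N (side U' A' v) := by
    intro v hvx hvm
    rcases hcls v (by omega) hvm (by omega) with ⟨j, j0, jm, jx, hj⟩ | ⟨hvU, hvN⟩
    · rcases Nat.lt_or_gt_of_ne jx with h1 | h1
      · exact absurd (hR' v j j0 h1 hj) (nR v hvx hvm)
      · exact Or.inl ⟨j, h1, jm, hj⟩
    · rcases htype (outF U' A' v) with h1 | h1
      · exact absurd (hRN v hvN h1) (nR v hvx hvm)
      · exact Or.inr ⟨hvU, hvN, h1⟩
  refine ⟨m', x', ⟨h.hR, hU'R, hfin', hec', hesc', hcyc', hfwd', hx'0, hx'm, ?_, ?_, ?_⟩, ?_, hrt, hlt⟩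
  · rw [hv']
    exact h.px
  · intro v hv1 hvx p hp hp0
    rw [vert_one_rg]
    rcases hrt v hv1 hvx with ⟨j, j0, jx, hj⟩ | ⟨-, hvN, hω⟩
    · exact hR' v j j0 jx hj p hp hp0
    · exact hRN v hvN hω p hp hp0
  · intro v hvx hvm p hp hp0
    rw [vert_zero_lf]
    rcases Nat.eq_or_lt_of_le hvx with h1 | h1
    · subst h1
      rcases hp with rfl | rfl
      · exfalso
        apply hp0
        rw [hv']
        exact h.px
      · exact c0
    · rcases hlt v h1 hvm with ⟨j, jx, jm, hj⟩ | ⟨-, hvN, hω⟩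
      · exact hL' v j jx jm hj p hp hp0
      · exact hLN v hvN hω p hp hp0
  · rw [hx', hqdef]

/-- **The strand comes back** to the component `U'` of the target: there is a first time `θ ≥ σ` at which
it enters `U'`. -/
theorem TSt.exists_back (h : TSt ω R U A m x) (hper : ∃ N, 0 < N ∧ pth ω A.1 N = A.1) {σ : ℕ}
    {U' : Set (ℤ × ℤ)}
    (hU' : U' = compT (U \ (vs ω A.1 0 σ : Set (ℤ × ℤ))) (ahead (side U A x)))
    (hq : ahead (side U A x) ∉ vs ω A.1 0 σ) :
    ∃ θ, σ ≤ θ ∧ (∀ i, σ ≤ i → i < θ → fa (pth ω A.1 i) ∉ U') ∧ fa (pth ω A.1 θ) ∈ U' := by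
  classical
  obtain ⟨t, ht⟩ := h.hit hper
  have hfbq : fb (side U A x).1 = ahead (side U A x) := by
    refine (bwd_of_par ?_).2
    have h1 := (joins_lf_rg (side U A x)).par_ne
    have h2 : par (lf (side U A x)) = 0 := h.px
    have h3 := par_cases (rg (side U A x))
    omega
  have hqU' : ahead (side U A x) ∈ U' := by rw [hU']; exact self_mem_compT
  have ht0 : t ≠ 0 := by
    rintro rfl
    rw [pth_zero] at ht
    have h1 : A = side U A x := h.cyc.bd.eq_of_fst (bd_side h.cyc.bd x) ht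
    have h2 := h.cyc.inj x h.lt 0 h.cyc.pos (by rw [← h1]; rfl)
    have := h.pos
    omega
  have ht1 : fa (pth ω A.1 (t - 1)) = ahead (side U A x) := by
    rw [← fb_pth_succ, Nat.sub_add_cancel (by omega), ht, hfbq]
  have hσt : σ ≤ t - 1 := by
    by_contra hcon
    exact hq (by rw [← ht1]; exact fa_mem_vs (Nat.zero_le _) (by omega))
  have hex : ∃ θ, σ ≤ θ ∧ fa (pth ω A.1 θ) ∈ U' := ⟨t - 1, hσt, by rw [ht1]; exact hqU'⟩
  refine ⟨Nat.find hex, (Nat.find_spec hex).1, fun i hi1 hi2 hi3 => ?_, (Nat.find_spec hex).2⟩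
  exact Nat.find_min hex hi2 ⟨hi1, hi3⟩

/-- The number of sides of a contour is even. -/
theorem even_cyc {C : Set (ℤ × ℤ)} (hC : Cyc C A m) : m % 2 = 0 := by
  have key : ∀ i : ℕ, par (vert C A i) = (par (vert C A 0) + i) % 2 := by
    intro i
    induction i with
    | zero =>
      have := par_cases (vert C A 0)
      push_cast
      omega
    | succ i ih =>
      have h1 := par_cases (vert C A i)
      rw [par_vert_succ]
      push_cast
      omega
  have h1 := key m
  rw [hC.vert_m] at h1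
  have h2 := par_cases (vert C A 0)
  omega

theorem Nxt.indep_aux {ω₁ ω₂ : Cfg} {N U' : Set (ℤ × ℤ)} {A₁ A₂ : UE × Bool} {m₁ x₁ m₂ x₂ : ℕ}
    (hA : Cyc U A m) (hx : x < m) (h₁ : Nxt ω₁ R U A m x N U' A₁ m₁ x₁)
    (h₂ : Nxt ω₂ R U A m x N U' A₂ m₂ x₂) (hω : ∀ g ∈ N, ω₁ g = ω₂ g) {j : ℕ} (hj : j < m₁)
    (hjA : side U' A₁ j = A₂) (hjx : x₁ < j) : False := by
  have hev := even_cyc h₁.st.cyc
  have hpar : ∀ i : ℕ, par (vert U' A₁ i) = (1 + i) % 2 := by
    intro i
    induction i with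
    | zero =>
      have := h₁.st.par_zero
      rw [vert_zero_lf, this]
      norm_num
    | succ i ih =>
      rw [par_vert_succ, ih]
      push_cast
      omega
  have hj2 : j % 2 = 0 := by
    have h3 : par (vert U' A₁ j) = 1 := by
      unfold vert
      rw [hjA]
      exact h₂.st.par_zero
    rw [hpar] at h3
    omega
  have hs : side U' A₂ 1 = side U' A₁ (j + 1) := by rw [← hjA, side_add]
  have hx₂ : 1 < x₂ := by
    have h3 := h₂.st.pos
    rcases Nat.lt_or_ge 1 x₂ with h4 | h4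
    · exact h4
    · exfalso
      have h5 : x₂ = 1 := by omega
      have h6 := h₂.tgt
      rw [h5, hs, ← h₁.tgt] at h6
      have := h₁.st.cyc.inj _ (by omega) _ h₁.st.lt h6
      omega
  have c1 := h₂.rt 1 one_pos hx₂
  have c2 := h₁.lt (j + 1) (by omega) (by omega)
  rw [hs] at c1
  exact not_rtS_ltS hA hx (fun g hg => (hω g hg).symm) c1 c2

/-- **The new tip side depends on the faces outside `U'` only.** -/
theorem Nxt.indep {ω₁ ω₂ : Cfg} {N U' : Set (ℤ × ℤ)} {A₁ A₂ : UE × Bool} {m₁ x₁ m₂ x₂ : ℕ}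
    (hA : Cyc U A m) (hx : x < m) (h₁ : Nxt ω₁ R U A m x N U' A₁ m₁ x₁)
    (h₂ : Nxt ω₂ R U A m x N U' A₂ m₂ x₂) (hω : ∀ g ∈ N, ω₁ g = ω₂ g) :
    A₁ = A₂ := by
  obtain ⟨j, hj, hjA⟩ := h₁.st.cyc.exists_index h₂.st.cyc.bd
  obtain ⟨j', hj', hjA'⟩ := h₂.st.cyc.exists_index h₁.st.cyc.bd
  rcases Nat.eq_zero_or_pos j with h0 | h0
  · rw [h0] at hjA
    exact hjA
  exfalso
  have hshift : ∀ i, side U' A₂ i = side U' A₁ (j + i) := by
    intro i
    rw [← hjA, side_add]
  rcases Nat.lt_or_ge x₁ j with h3 | h3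
  · exact Nxt.indep_aux hA hx h₁ h₂ hω hj hjA h3
  have h4 : j ≠ x₁ := by
    rintro rfl
    have h5 := h₂.st.par_zero
    rw [← hjA] at h5
    have h6 : par (lf (side U' A₁ j)) = 0 := h₁.st.px
    omega
  have h5 : x₂ = x₁ - j := by
    have h6 : x₁ - j < m₂ := by
      by_contra hcon
      have h7 := hshift m₂
      rw [h₂.st.cyc.per, ← hjA] at h7
      have := h₁.st.cyc.inj _ hj _ (by have := h₁.st.lt; omega) h7
      have := h₂.st.cyc.pos
      omega
    refine h₂.st.cyc.inj _ h₂.st.lt _ h6 ?_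
    rw [h₂.tgt, ← h₁.tgt, hshift, Nat.add_sub_cancel' h3]
  refine Nxt.indep_aux hA hx h₂ h₁ (fun g hg => (hω g hg).symm) hj' hjA' ?_
  by_contra hcon
  have h7 := hshift j'
  rw [hjA'] at h7
  have h8 := h₁.st.cyc.inj 0 h₁.st.cyc.pos (j + j') (by have := h₁.st.lt; omega) h7
  omega

end One

end Pool.Agent.SixB.Mv
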