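import Pool.Agent.Lib.SixB.S8HDc

/-!
# Step 8: the vertices of the walls are on the sides of the strand

* `sid_face`: the corners of colour `c` of a face which is not fresh and which carries the diagonal of
  colour `c` are on the side of colour `c` (hypothesis: the walls `Ex.Wll`).
* `no_gate`: no `Ex.Gate` near a barrier vertex, so the two wall arcs are not linked there.
* `hd_of_labels`: HD for the domain of a move from the labels of its walls: the outer faces of the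
  right wall carry diagonals of colour `c`, those of the left wall diagonals of the other colour.
-/

set_option autoImplicit false

namespace Pool.Agent.SixB.S8WallSide

open Finset Pool.Agent.Perc Pool.Agent.Perc6 Pool.Agent.PercT LC S8HD S8HDc
open NearCut (SU Pth)

variable {E : Ex} {ω : Cfg} {t m : ℕ} {c : ℤ} {T : Finset (ℤ × ℤ)} {w : ℕ → ℤ × ℤ}

/-- The two corners of colour `c` of a face with the diagonal of colour `c`. -/
theorem bond_of_cor {ζ : Cfg} {g v : ℤ × ℤ} (hcl : NearCut.Cl ζ c g) (hv : IsCor g v)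
    (hp : par v = c) : ∃ v', Bond ζ {g} v v' := by
  obtain ⟨x, y⟩ := g
  obtain ⟨v1, v2⟩ := v
  obtain ⟨h1, h2⟩ := hv
  simp only at h1 h2
  have key : ∀ v' : ℤ × ℤ, IsCor (x, y) v' → (v1, v2) ≠ v' → par v' = c → Bond ζ {(x, y)} (v1, v2) v' := by
    intro v' h3 h4 h5
    rw [bond_iff]
    exact ⟨(x, y), rfl, ⟨h1, h2⟩, h3, h4, by rw [hp, h5], by rw [hp]; exact hcl⟩
  refine ⟨(2 * x + 1 - v1, 2 * y + 1 - v2), key _ ?_ ?_ ?_⟩
  · unfold IsCor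
    simp only
    omega
  · intro h
    have := (Prod.mk.inj h).1
    omega
  · unfold par at *
    simp only at *
    omega

/-- **The corners of old faces are on the sides of the strand.** -/
theorem sid_face (hW : E.Wll ω) (hc : c = 0 ∨ c = 1) {g v : ℤ × ℤ} (hg : g ∉ E.Fr ω t)
    (hcl : NearCut.Cl (E.cf ω) c g) (hv : IsCor g v) (hp : par v = c) : E.Sid c ω t v := by
  obtain ⟨v', hb⟩ := bond_of_cor hcl hv hp
  rcases NearCut.not_fr_iff hg with hU | ⟨l, hl, hfl⟩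
  · exact conn_mono (Set.compl_subset_compl.2 NearCut.fr_sub) (hW c hc g hU v v' hb hp)
  · have hmt : Mt (E.cf ω) g (E.p ω l) (E.p ω (l + 1)) := by
      have := mt_pth (E.cf ω) (E.e ω) l
      rwa [hfl] at this
    have hbl : Bond (E.cf ω) {g} (en c (E.p ω l)) (en c (E.p ω (l + 1))) := by
      rcases NearCut.mt_cl hc hmt with ⟨-, -, h⟩ | ⟨h, -⟩
      · exact h
      · exact absurd h (NearCut.cl_not hc hcl)
    refine (Ex.sid_strand hc hl.le).trans ?_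
    exact conn_mono (Set.singleton_subset_iff.2 hg) (NearCut.bond_unique hbl hb)

/-- The vertices of the right wall are on the side of colour `c`. -/
theorem sid_right (hW : E.Wll ω) (hc : c = 0 ∨ c = 1) {k₁ : ℕ}
    (tip : Joins (E.p ω t) (w 0) (w 1)) (parc : par (w 1) = c)
    (lb : ∀ i, 1 ≤ i → i < k₁ → ∃ y g, Joins y (w i) (w (i + 1)) ∧ IsSide g y ∧ g ∉ E.Fr ω t ∧
      NearCut.Cl (E.cf ω) c g) {y : ℕ} (hy1 : 1 ≤ y) (hy2 : y ≤ k₁) (hp : par (w y) = c) :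
    E.Sid c ω t (w y) := by
  rcases Nat.lt_or_ge 1 y with hy | hy
  · obtain ⟨s, g, hj, hs, hg, hcl⟩ := lb (y - 1) (by omega) (by omega)
    rw [Nat.sub_add_cancel (by omega : 1 ≤ y)] at hj
    exact sid_face hW hc hg hcl (side_cor hs hj).2 hp
  · have : y = 1 := by omega
    subst this
    rw [← en_joins tip.symm parc]
    exact Ex.sid_strand hc le_rfl

/-- The vertices of the left wall are on the other side. -/
theorem sid_left (hW : E.Wll ω) (hc : c = 0 ∨ c = 1) {k₃ : ℕ}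
    (hT : Ctr (T : Set (ℤ × ℤ)) m w) (tip : Joins (E.p ω t) (w 0) (w 1))
    (ll : ∀ i, k₃ ≤ i → i < m → ∃ y g, Joins y (w i) (w (i + 1)) ∧ IsSide g y ∧ g ∉ E.Fr ω t ∧
      NearCut.Cl (E.cf ω) (1 - c) g) {y : ℕ} (hy1 : k₃ ≤ y) (hy2 : y ≤ m)
    (hp : par (w y) = 1 - c) : E.Sid (1 - c) ω t (w y) := by
  have hc' : 1 - c = 0 ∨ 1 - c = 1 := by omega
  rcases Nat.lt_or_ge y m with hy | hy
  · obtain ⟨s, g, hj, hs, hg, hcl⟩ := ll y hy1 hy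
    exact sid_face hW hc' hg hcl (side_cor hs hj).1 hp
  · have : y = m := by omega
    subst this
    rw [hT.close] at hp ⊢
    rw [← en_joins tip hp]
    exact Ex.sid_strand hc' le_rfl

/-- **HD for the domain of a move, from the labels of the walls.** -/
theorem hd_of_labels (hW : E.Wll ω) (hc : c = 0 ∨ c = 1) (he : fb (E.e ω) ∉ E.U ω)
    {k₁ r₁ x r₃ k₃ : ℕ} (hT : Ctr (T : Set (ℤ × ℤ)) m w) (hTF : (T : Set (ℤ × ℤ)) ⊆ E.Fr ω t)
    (h1 : 1 ≤ k₁) (hr1 : k₁ ≤ r₁) (hx : r₁ ≤ x) (hx' : x ≤ r₃) (hr3 : r₃ ≤ k₃) (h3 : k₃ ≤ m)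
    (tip : Joins (E.p ω t) (w 0) (w 1)) (parc : par (w 1) = c)
    (lb : ∀ i, 1 ≤ i → i < k₁ → ∃ y g, Joins y (w i) (w (i + 1)) ∧ IsSide g y ∧ g ∉ E.Fr ω t ∧
      NearCut.Cl (E.cf ω) c g)
    (ll : ∀ i, k₃ ≤ i → i < m → ∃ y g, Joins y (w i) (w (i + 1)) ∧ IsSide g y ∧ g ∉ E.Fr ω t ∧
      NearCut.Cl (E.cf ω) (1 - c) g) {δ D ρ : ℤ}
    (hδ : 0 ≤ δ) {SR SL : Set (ℤ × ℤ)} {zR zL : ℤ × ℤ} (hSR : ∀ g ∈ SR, g ∈ RFb zR δ)
    (hSL : ∀ g ∈ SL, g ∈ RFb zL δ)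
    (hcR : ∀ i, k₁ ≤ i → i < r₁ → ∀ e, Joins e (w i) (w (i + 1)) → ∃ g ∈ SR, IsSide g e)
    (hcL : ∀ i, r₃ ≤ i → i < k₃ → ∀ e, Joins e (w i) (w (i + 1)) → ∃ g ∈ SL, IsSide g e)
    (hfar : ∀ i, r₁ ≤ i → i ≤ r₃ → ¬ LC.InB (w 1) D (w i)) (hD : 6 * ρ + 4 * δ + 3 ≤ D)
    (hno : ∀ i, r₁ ≤ i → i ≤ r₃ → ¬ E.Gate ω t (w i) (6 * ρ + 4 * δ + 2)) :
    HD c T w 0 r₁ x r₃ ρ ∨ HD (1 - c) T w r₁ x r₃ m ρ :=
  hd_of_caps hc he hT hTF h1 hr1 hx hx' hr3 h3 tip parc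
    (fun _ hy1 hy2 hp => sid_right hW hc tip parc lb hy1 hy2 hp)
    (fun _ hy1 hy2 hp => sid_left hW hc hT tip ll hy1 hy2 hp) hδ hSR hSL hcR hcL hfar hD hno

/-- **No gate at the barrier** (field `gate` of the domain of a move): if there is no gate `Ex.Gate` of
radius `R + 4 δ + 1` around `z` and the tip is far from `z`, then the arcs `[0, r₁]` and `[r₃, m]` are not
linked in the box of radius `R` around `z`. -/
theorem no_gate (hW : E.Wll ω) (hc : c = 0 ∨ c = 1) (he : fb (E.e ω) ∉ E.U ω)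
    {k₁ r₁ r₃ k₃ : ℕ} (hT : Ctr (T : Set (ℤ × ℤ)) m w) (hTF : (T : Set (ℤ × ℤ)) ⊆ E.Fr ω t)
    (h1 : 1 ≤ k₁) (hr1 : k₁ ≤ r₁) (hr : r₁ ≤ r₃) (hr3 : r₃ ≤ k₃) (h3 : k₃ ≤ m)
    (tip : Joins (E.p ω t) (w 0) (w 1)) (parc : par (w 1) = c)
    (lb : ∀ i, 1 ≤ i → i < k₁ → ∃ y g, Joins y (w i) (w (i + 1)) ∧ IsSide g y ∧ g ∉ E.Fr ω t ∧
      NearCut.Cl (E.cf ω) c g)
    (ll : ∀ i, k₃ ≤ i → i < m → ∃ y g, Joins y (w i) (w (i + 1)) ∧ IsSide g y ∧ g ∉ E.Fr ω t ∧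
      NearCut.Cl (E.cf ω) (1 - c) g) {δ R : ℤ}
    (hδ : 0 ≤ δ) {SR SL : Set (ℤ × ℤ)} {zR zL : ℤ × ℤ} (hSR : ∀ g ∈ SR, g ∈ RFb zR δ)
    (hSL : ∀ g ∈ SL, g ∈ RFb zL δ)
    (hcR : ∀ i, k₁ ≤ i → i < r₁ → ∀ e, Joins e (w i) (w (i + 1)) → ∃ g ∈ SR, IsSide g e)
    (hcL : ∀ i, r₃ ≤ i → i < k₃ → ∀ e, Joins e (w i) (w (i + 1)) → ∃ g ∈ SL, IsSide g e)
    {z : ℤ × ℤ} (hz : ¬ LC.InB (w 1) (R + 4 * δ + 3) z) (hno : ¬ E.Gate ω t z (R + 4 * δ + 1)) :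
    ¬ LC.Gate (T : Set (ℤ × ℤ)) (av w 0 r₁) (av w r₃ m) z R := by
  intro hg
  refine hno ?_
  have h := exGate_of_gate (δ := 2 * δ) (R := R) hc he hT hTF h1 hr1 hr hr3 h3 tip parc
    (fun _ hy1 hy2 hp => sid_right hW hc tip parc lb hy1 hy2 hp)
    (fun _ hy1 hy2 hp => sid_left hW hc hT tip ll hy1 hy2 hp) (by omega)
    (fun i h4 h5 => cap_near hT (by omega) hδ hSR hcR h4 h5 hr1 le_rfl)
    (fun i h4 h5 => cap_near hT h3 hδ hSL hcL h4 h5 le_rfl hr3)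
    (fun h => hz (by unfold LC.InB at *; omega)) hg
  exact h.mono (by omega)

end Pool.Agent.SixB.S8WallSide
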