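import Pool.Agent.Lib.SixB.S8MvGate
import Pool.Agent.Lib.SixB.S8TruStep
import Pool.Agent.Lib.SixB.S8WallSide
import Pool.Agent.Lib.SixB.S8MoveD

/-!
# Step 8: the walls of the true domain are on the sides of the strand; the field `gate`

`X` is the exploration, `t₀` the time, `U` the true domain (a region of fresh faces, its outer faces are
not fresh) with the true tip side `τ`, `x` the number of the target side.

* `TSt.face_right`, `TSt.face_left`: the outer faces of the right wall carry the even diagonal, those of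
  the left wall the odd one;
* `TSt.hwb`, `TSt.hwl`: the even vertices of the right wall, the odd vertices of the left wall are on the
  sides of the strand (`Ex.Sid`);
* `TSide.gate_tst`, `gate_fam`: the field `gate` of `MvDom`, of `MvS`, for all true domains.
-/

set_option autoImplicit false

namespace Pool.Agent.SixB.Mv

open Finset Pool.Agent.Perc Pool.Agent.Perc6 Pool.Agent.Perc6.C2Aux Pool.Agent.Perc.Tips
open Pool.Agent.SixB.Top CloK

namespace TSt

variable {X : Ex} {ω : Cfg} {t₀ : ℕ} {U : Set (ℤ × ℤ)} {τ : UE × Bool} {m x : ℕ}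
  (h : TSt (X.cf ω) Set.univ U τ m x)

include h

omit h in
/-- Outside of the fresh faces is outside of `U`. -/
theorem conn_out (hUF : U ⊆ X.Fr ω t₀) {p q : ℤ × ℤ} (hc : Conn (X.cf ω) (X.Fr ω t₀)ᶜ p q) :
    Conn (X.cf ω) (Set.univ \ U) p q :=
  conn_mono (fun f (hf : f ∈ (X.Fr ω t₀)ᶜ) => ⟨Set.mem_univ _, fun hU => hf (hUF hU)⟩) hc

/-- The ends of the tip. -/
theorem en_zero (tip : X.p ω t₀ = τ.1) : en 0 (X.p ω t₀) = rg τ := by
  rw [tip]
  exact SixB.en_joins (joins_lf_rg τ).symm h.par_one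

theorem en_one (tip : X.p ω t₀ = τ.1) : en 1 (X.p ω t₀) = lf τ := by
  rw [tip]
  exact SixB.en_joins (joins_lf_rg τ) h.par_zero

/-- A vertex of the contour on the even side has a number at most `x`. -/
theorem num_zero (hper : ∃ N, 0 < N ∧ pth (X.cf ω) τ.1 N = τ.1) (hUF : U ⊆ X.Fr ω t₀)
    (tip : X.p ω t₀ = τ.1) {i : ℕ} (hi : i ≤ m) (hs : X.Sid 0 ω t₀ (vert U τ i)) :
    0 < i ∧ i ≤ x := by
  have h1 := (label h.hR h.UR h.ec h.cyc h.fwd hper h.pos h.lt h.conn_right h.conn_left).1 i hi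
  apply h1
  refine conn_out hUF (Relation.ReflTransGen.trans ?_ hs)
  have h2 := Ex.sid_strand (E := X) (ω := ω) (c := 0) (Or.inl rfl) (le_refl t₀)
  rw [h.en_zero tip] at h2
  exact conn_symm h2

/-- A vertex of the contour on the odd side has a number larger than `x`. -/
theorem num_one (hper : ∃ N, 0 < N ∧ pth (X.cf ω) τ.1 N = τ.1) (hUF : U ⊆ X.Fr ω t₀)
    (tip : X.p ω t₀ = τ.1) {i : ℕ} (h0 : 0 < i) (hi : i ≤ m)
    (hs : X.Sid 1 ω t₀ (vert U τ i)) : x < i := by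
  have h1 := (label h.hR h.UR h.ec h.cyc h.fwd hper h.pos h.lt h.conn_right h.conn_left).2 i h0 hi
  apply h1
  refine conn_out hUF (Relation.ReflTransGen.trans ?_ hs)
  have h2 := Ex.sid_strand (E := X) (ω := ω) (c := 1) (Or.inr rfl) (le_refl t₀)
  rw [h.en_one tip] at h2
  exact conn_symm h2

variable (hper : ∃ N, 0 < N ∧ pth (X.cf ω) τ.1 N = τ.1) (hW : X.Wll ω) (hUF : U ⊆ X.Fr ω t₀)
  (hout : ∀ i, outF U τ i ∉ X.Fr ω t₀) (tip : X.p ω t₀ = τ.1)

include hper hW hUF hout tip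

/-- The outer faces of the right wall carry the even diagonal. -/
theorem face_right {y : ℕ} (h1 : 1 ≤ y) (h2 : y < x) :
    NearCut.Cl (X.cf ω) 0 (outF U τ y) := by
  rcases NearCut.cl_or (ω := X.cf ω) (f := outF U τ y) (c := 0) (Or.inl rfl) with h3 | h3
  · exact h3
  exfalso
  have hlt := h.lt
  have hc := LC.side_cor (sideB (side U τ y)) (joins_side (D := U) (A := τ) y)
  have hp := par_vert_succ (U := U) (A := τ) y
  have hcs := par_cases (vert U τ y)
  rcases hcs with h4 | h4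
  · have h5 : X.Sid 1 ω t₀ (vert U τ (y + 1)) :=
      S8WallSide.sid_face hW (Or.inr rfl) (hout y) h3 hc.2 (by rw [hp, h4]; norm_num)
    have := h.num_one hper hUF tip (by omega) (by omega) h5
    omega
  · have h5 : X.Sid 1 ω t₀ (vert U τ y) :=
      S8WallSide.sid_face hW (Or.inr rfl) (hout y) h3 hc.1 h4
    have := h.num_one hper hUF tip (by omega) (by omega) h5
    omega

/-- The outer faces of the left wall carry the odd diagonal. -/
theorem face_left {y : ℕ} (h1 : x < y) (h2 : y < m) :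
    NearCut.Cl (X.cf ω) 1 (outF U τ y) := by
  rcases NearCut.cl_or (ω := X.cf ω) (f := outF U τ y) (c := 1) (Or.inr rfl) with h3 | h3
  · exact h3
  exfalso
  rw [show (1 : ℤ) - 1 = 0 by norm_num] at h3
  have hc := LC.side_cor (sideB (side U τ y)) (joins_side (D := U) (A := τ) y)
  have hp := par_vert_succ (U := U) (A := τ) y
  have hcs := par_cases (vert U τ y)
  rcases hcs with h4 | h4
  · have h5 : X.Sid 0 ω t₀ (vert U τ y) :=
      S8WallSide.sid_face hW (Or.inl rfl) (hout y) h3 hc.1 h4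
    have := h.num_zero hper hUF tip (by omega) h5
    omega
  · have h5 : X.Sid 0 ω t₀ (vert U τ (y + 1)) :=
      S8WallSide.sid_face hW (Or.inl rfl) (hout y) h3 hc.2 (by rw [hp, h4]; norm_num)
    have := h.num_zero hper hUF tip (by omega) h5
    omega

/-- **The even vertices of the right wall are on the even side of the strand.** -/
theorem hwb : ∀ v, 1 ≤ v → v ≤ x → par (vert U τ v) = 0 → X.Sid 0 ω t₀ (vert U τ v) := by
  intro v h1 h2 hp
  rcases Nat.lt_or_ge 1 v with h3 | h3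
  · obtain ⟨y, rfl⟩ : ∃ y, v = y + 1 := ⟨v - 1, by omega⟩
    have hc := LC.side_cor (sideB (side U τ y)) (joins_side (D := U) (A := τ) y)
    exact S8WallSide.sid_face hW (Or.inl rfl) (hout y)
      (h.face_right hper hW hUF hout tip (by omega) (by omega)) hc.2 hp
  · have : v = 1 := by omega
    subst this
    have h4 := Ex.sid_strand (E := X) (ω := ω) (c := 0) (Or.inl rfl) (le_refl t₀)
    rwa [h.en_zero tip, ← vert_one_rg (U := U)] at h4

/-- **The odd vertices of the left wall are on the odd side of the strand.** -/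
theorem hwl : ∀ v, x ≤ v → v ≤ m → par (vert U τ v) = 1 → X.Sid 1 ω t₀ (vert U τ v) := by
  intro v h1 h2 hp
  have hx := h.px
  have h3 : x < v := by
    rcases h1.lt_or_eq with h3 | h3
    · exact h3
    · rw [← h3, hx] at hp
      omega
  rcases h2.lt_or_eq with h4 | h4
  · have hc := LC.side_cor (sideB (side U τ v)) (joins_side (D := U) (A := τ) v)
    exact S8WallSide.sid_face hW (Or.inr rfl) (hout v)
      (h.face_left hper hW hUF hout tip h3 h4) hc.1 hp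
  · have h5 := Ex.sid_strand (E := X) (ω := ω) (c := 1) (Or.inr rfl) (le_refl t₀)
    have h6 : vert U τ v = lf τ := by
      rw [h4, h.cyc.vert_m]
      rfl
    rwa [h.en_one tip, ← h6] at h5

end TSt

/-- A component of the fresh faces: its outer faces are not fresh. -/
theorem out_of_comp {F U : Set (ℤ × ℤ)} {f : ℤ × ℤ} {τ : UE × Bool} (hf : f ∈ F)
    (hU : U = compT F f) (hA : BD U τ) : U ⊆ F ∧ ∀ i, outF U τ i ∉ F := by
  subst hU
  exact ⟨compT_sub hf, fun i => compT_bd_out (bd_side hA i)⟩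

section Gate

variable {ι : Type*} {U P D : Set (ℤ × ℤ)} {κ : ℤ × ℤ → ι} {d a b L : ℤ}
  {A τ : UE × Bool} {m p q mU x : ℕ} {X : Ex} {ω : Cfg} {t₀ : ℕ}

/-- **The field `gate` for one true side**, in terms of the true state `TSt`. -/
theorem TSide.gate_tst {Y : Set (ℤ × ℤ)} {T : Finset (ℤ × ℤ)} {n N₁ N₂ M s t u K : ℕ}
    (S : TSide U P D κ a b L A τ m p q Y T n N₁ N₂ mU M s t u K) (H : Mvd U P D κ d A m p q)
    (h : TSt (X.cf ω) Set.univ U τ mU x) (hper : ∃ N, 0 < N ∧ pth (X.cf ω) τ.1 N = τ.1)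
    (hW : X.Wll ω) (hUF : U ⊆ X.Fr ω t₀) (hout : ∀ i, outF U τ i ∉ X.Fr ω t₀)
    (tip : X.p ω t₀ = τ.1) (he : fb (X.e ω) ∉ X.U ω) (hT : inF U τ x ∉ T) {v : ℤ × ℤ}
    {r σ δ R : ℤ} (hv : OffL a b L r v) (hvt : LC.InB v σ (rg τ)) (hδ : 0 ≤ δ) (hdδ : d ≤ δ)
    (hr : R + 2 * δ + 3 + σ < r)
    (hno : ∀ i, N₁ ≤ i → i ≤ N₂ → ¬ X.Gate ω t₀ (vert (inn D A Y) A i) (R + 2 * δ + 1)) :
    ∀ i, K ≤ i → i ≤ K + (N₂ - N₁) →
      ¬ LC.Gate (T : Set (ℤ × ℤ)) (LC.av (vert (T : Set (ℤ × ℤ)) τ) 0 K)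
        (LC.av (vert (T : Set (ℤ × ℤ)) τ) (K + (N₂ - N₁)) M) (vert (T : Set (ℤ × ℤ)) τ i) R := by
  obtain ⟨h1, h2⟩ := S.lay.index_of_notMem h.lt.le fun hh => hT (Finset.mem_coe.1 hh)
  refine S.gate H (X := X) (ω := ω) (t₀ := t₀) (kt := x) (c := 0) (Or.inl rfl) he hUF tip h.par_one
    (by omega) (by omega) (h.hwb hper hW hUF hout tip) ?_ hv hvt hδ hdδ hr hno
  intro w hw1 hw2 hp
  rw [show (1 : ℤ) - 0 = 1 by norm_num] at hp ⊢
  exact h.hwl hper hW hUF hout tip w hw1 hw2 hp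

/-- **The field `gate` of `MvS`.** -/
theorem gate_fam {ι' : Type*} {𝒦 : Finset (Finset ι')} {cf : Finset ι' → Set (ℤ × ℤ)}
    {n N₁ N₂ : Finset ι' → ℕ} {Z : Set (ℤ × ℤ)} (H : Mvd U P D κ d A m p q)
    (h : TSt (X.cf ω) Set.univ U τ mU x) (hper : ∃ N, 0 < N ∧ pth (X.cf ω) τ.1 N = τ.1)
    (hW : X.Wll ω) (hUF : U ⊆ X.Fr ω t₀) (hout : ∀ i, outF U τ i ∉ X.Fr ω t₀)
    (tip : X.p ω t₀ = τ.1) (he : fb (X.e ω) ∉ X.U ω)
    (htgt : ∀ K ∈ 𝒦, inF U τ x ∉ domT U (Z ∪ cf K) (capK U κ (gR D A (Z ∪ cf K) (N₁ K)))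
      (capK U κ (gL D A (Z ∪ cf K) (N₂ K))) A) {v : ℤ × ℤ}
    {r σ δ ρ : ℤ} (hv : OffL a b L r v) (hvt : LC.InB v σ (rg τ)) (hδ : 0 ≤ δ) (hdδ : d ≤ δ)
    (hr : 6 * ρ + 2 * δ + 3 + σ < r)
    (hno : ∀ K ∈ 𝒦, ∀ i, N₁ K ≤ i → i ≤ N₂ K →
      ¬ X.Gate ω t₀ (vert (inn D A (Z ∪ cf K)) A i) (6 * ρ + 2 * δ + 1)) :
    ∀ K ∈ 𝒦, ∀ T M s t u k,
      TSide U P D κ a b L A τ m p q (Z ∪ cf K) T (n K) (N₁ K) (N₂ K) mU M s t u k →
      ∀ i, k ≤ i → i ≤ k + (N₂ K - N₁ K) →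
        ¬ LC.Gate (T : Set (ℤ × ℤ)) (LC.av (vert (T : Set (ℤ × ℤ)) τ) 0 k)
          (LC.av (vert (T : Set (ℤ × ℤ)) τ) (k + (N₂ K - N₁ K)) M) (vert (T : Set (ℤ × ℤ)) τ i)
          (6 * ρ) := by
  intro K hK T M s t u k S
  refine S.gate_tst H h hper hW hUF hout tip he (fun hT => htgt K hK ?_) hv hvt hδ hdδ hr
    (hno K hK)
  have := S.eqT
  rw [← this]
  exact Finset.mem_coe.2 hT

end Gate

end Pool.Agent.SixB.Mv
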