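import Pool.Agent.Lib.SixB.S8SideV
import Pool.Agent.Lib.SixB.S8MoveG

/-!
# Step 8: the anchor of a side at a class part of fresh faces

* `fre_pth`: a walk along the sides of fresh faces can be changed into one which is not crossed up to the
  time `s` (the tip side is replaced by the three other sides of the face in front of the strand);
* `cap_pth`: the corners of a class part of fresh faces are joined by uncrossed walks in a small box;
* `cap_tip`: a side at the class part of the face in front of the strand sees both colours;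
* `cap_anc`, `side_anc`: a contact of the class part, of the side itself;
* `cap_side`: a side at a class part with the side number `i` of the true domain sees the colour `0` if
  `i` is before the target, the colour `1` if it is behind the target (the true domain is the one of a
  time `s ≤ t`); `cap_tgt`: both colours at the target side.
-/

set_option autoImplicit false

namespace Pool.Agent.SixB.Anc

open Finset Pool.Agent.Perc Pool.Agent.PercT Pool.Agent.Perc6 Pool.Agent.Perc6.C2Aux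
open Pool.Agent.SixB Pool.Agent.SixB.NearCut Pool.Agent.SixB.Mv Pool.Agent.SixB.Top
open Pool.Agent.SixB.SideV Pool.Agent.SixB.CloK
open Pool.Agent.Perc.Tips

/-! ### Walks along the sides of faces, without one side -/

section Faces

variable {Z : Set (ℤ × ℤ)} {k x w : ℤ × ℤ} {a₀ : UE}

theorem joins_pth {A : Set UE} {a : UE} {v w : ℤ × ℤ} (ha : a ∈ A) (hj : Joins a v w) :
    Pth A v w := Relation.ReflTransGen.single ⟨a, ha, hj⟩

/-- The two ends of a side of a face are joined by the three other sides. -/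
theorem around (h : IsSide k a₀) : Pth {a | IsSide k a ∧ a ≠ a₀} (ua a₀) (ub a₀) := by
  obtain ⟨x, y⟩ := k
  have e1 : Joins (bo (x, y)) (x, y) (x + 1, y) := Or.inl ⟨by simp [bo, ua], by simp [bo, ub]⟩
  have e2 : Joins (le' (x, y)) (x, y) (x, y + 1) := Or.inl ⟨by simp [le', ua], by simp [le', ub]⟩
  have e3 : Joins (ri (x, y)) (x + 1, y) (x + 1, y + 1) :=
    Or.inl ⟨by simp [ri, ua], by simp [ri, ub]⟩
  have e4 : Joins (to' (x, y)) (x, y + 1) (x + 1, y + 1) :=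
    Or.inl ⟨by simp [to', ua], by simp [to', ub]⟩
  have d1 : bo (x, y) ≠ to' (x, y) := by simp [bo, to']
  have d2 : bo (x, y) ≠ le' (x, y) := by simp [bo, le']
  have d3 : bo (x, y) ≠ ri (x, y) := by simp [bo, ri]
  have d4 : to' (x, y) ≠ le' (x, y) := by simp [to', le']
  have d5 : to' (x, y) ≠ ri (x, y) := by simp [to', ri]
  have d6 : le' (x, y) ≠ ri (x, y) := by simp [le', ri]
  have s1 : IsSide (x, y) (bo (x, y)) := Or.inl rfl
  have s2 : IsSide (x, y) (le' (x, y)) := Or.inr (Or.inl rfl)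
  have s4 : IsSide (x, y) (to' (x, y)) := Or.inr (Or.inr (Or.inl rfl))
  have s3 : IsSide (x, y) (ri (x, y)) := Or.inr (Or.inr (Or.inr rfl))
  rcases h with rfl | rfl | rfl | rfl
  · -- bottom
    have e : ua (bo (x, y)) = (x, y) ∧ ub (bo (x, y)) = (x + 1, y) := by simp [bo, ua, ub]
    rw [e.1, e.2]
    exact ((joins_pth (A := {a | IsSide (x, y) a ∧ a ≠ bo (x, y)}) ⟨s2, d2.symm⟩ e2).trans
      (joins_pth ⟨s4, d1.symm⟩ e4)).trans (joins_pth ⟨s3, d3.symm⟩ e3.symm)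
  · -- left
    have e : ua (le' (x, y)) = (x, y) ∧ ub (le' (x, y)) = (x, y + 1) := by simp [le', ua, ub]
    rw [e.1, e.2]
    exact ((joins_pth (A := {a | IsSide (x, y) a ∧ a ≠ le' (x, y)}) ⟨s1, d2⟩ e1).trans
      (joins_pth ⟨s3, d6.symm⟩ e3)).trans (joins_pth ⟨s4, d4⟩ e4.symm)
  · -- top
    have e : ua (to' (x, y)) = (x, y + 1) ∧ ub (to' (x, y)) = (x + 1, y + 1) := by
      simp [to', ua, ub]
    rw [e.1, e.2]
    exact ((joins_pth (A := {a | IsSide (x, y) a ∧ a ≠ to' (x, y)}) ⟨s2, d4.symm⟩ e2.symm).trans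
      (joins_pth ⟨s1, d1⟩ e1)).trans (joins_pth ⟨s3, d5.symm⟩ e3)
  · -- right
    have e : ua (ri (x, y)) = (x + 1, y) ∧ ub (ri (x, y)) = (x + 1, y + 1) := by
      simp [ri, ua, ub]
    rw [e.1, e.2]
    exact ((joins_pth (A := {a | IsSide (x, y) a ∧ a ≠ ri (x, y)}) ⟨s1, d3⟩ e1.symm).trans
      (joins_pth ⟨s2, d6⟩ e2)).trans (joins_pth ⟨s4, d5⟩ e4)

/-- Walks along the sides of a set of faces, without one side of one of them. -/
theorem pth_off (hk : k ∈ Z) (h₀ : IsSide k a₀) (h : Pth {a | ∃ k ∈ Z, IsSide k a} x w) :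
    Pth {a | (∃ k ∈ Z, IsSide k a) ∧ a ≠ a₀} x w := by
  induction h with
  | refl => exact Relation.ReflTransGen.refl
  | @tail b c _ hs ih =>
    obtain ⟨a, ha, hj⟩ := hs
    by_cases h1 : a = a₀
    · subst h1
      have h2 : Pth {a' | (∃ k ∈ Z, IsSide k a') ∧ a' ≠ a} (ua a) (ub a) :=
        (around h₀).mono fun a' ha' => ⟨⟨k, hk, ha'.1⟩, ha'.2⟩
      rcases hj with ⟨rfl, rfl⟩ | ⟨rfl, rfl⟩
      · exact ih.trans h2
      · exact ih.trans h2.symm
    · exact ih.tail ⟨a, ⟨ha, h1⟩, hj⟩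

end Faces

/-! ### Fresh faces -/

section Fre

variable {E : Ex} {ω : Cfg} {Q U : Set (ℤ × ℤ)} {s : ℕ} {c d r : ℤ} {f g x w : ℤ × ℤ}
  {ι : Type*} {κ : ℤ × ℤ → ι} {B : UE × Bool}

/-- **Walks along the sides of fresh faces.** -/
theorem fre_pth (hb : fb (E.e ω) ∉ E.U ω) (hQ : Q ⊆ E.Fr ω s)
    (h : Pth {a | ∃ k ∈ Q, IsSide k a} x w) :
    Pth {a | (∃ k ∈ Q, IsSide k a) ∧ ∀ l ≤ s, E.p ω l ≠ a} x w := by
  by_cases h1 : ∃ k ∈ Q, IsSide k (E.p ω s)
  · obtain ⟨k, hk, h2⟩ := h1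
    refine (pth_off hk h2 h).mono ?_
    rintro a ⟨⟨k', hk', h3⟩, h4⟩
    exact ⟨⟨k', hk', h3⟩, uncr_C hb hQ hk' h3 fun h5 => h4 h5.symm⟩
  · refine h.mono ?_
    rintro a ⟨k', hk', h3⟩
    exact ⟨⟨k', hk', h3⟩, uncr_C hb hQ hk' h3 fun h5 => h1 ⟨k', hk', h5 ▸ h3⟩⟩

/-- The corners of the faces of a chain of adjacent faces. -/
theorem chI_pth (hc : ChI Q f g) (hf : f ∈ Q) (hx : IsCor f x) (hw : IsCor g w) :
    Pth {a | ∃ k ∈ Q, IsSide k a} x w := by
  refine pth_chn (Z := Q) (g := f) (h := g) ?_ hf hx hw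
  refine Relation.ReflTransGen.mono (fun a b h => ?_) _ _ hc
  exact ⟨adj_iff_adjFL.2 h.1, h.2⟩

/-- **The corners of a class part of fresh faces** are joined by uncrossed walks in a small box. -/
theorem cap_pth {P : Set (ℤ × ℤ)} {U₀ : Set (ℤ × ℤ)} (hb : fb (E.e ω) ∉ E.U ω)
    (hU : U ⊆ E.Fr ω s) (happ : App U₀ P κ d) (hg : g ∈ U) (hf : f ∈ capC U κ g)
    (hx : IsCor g x) (hw : IsCor f w) (hr : d ≤ r) :
    Pth {a | InB x r a ∧ ∀ l ≤ s, E.p ω l ≠ a} x w := by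
  have hQ : capC U κ g ⊆ E.Fr ω s := fun f hf => hU (capC_sub hg hf).2
  have hch : ChI (capC U κ g) g f := compT_chain self_mem_compT hf
  refine (fre_pth hb hQ (chI_pth hch self_mem_compT hx hw)).mono ?_
  rintro a ⟨⟨k, hk, h1⟩, h2⟩
  refine ⟨?_, h2⟩
  have h3 := happ.diam _ _ (capC_sub hg hk).1
  have h4 : IsCor k (ua a) := by
    rcases h1 with rfl | rfl | rfl | rfl <;> simp [IsCor, bo, le', to', ri, ua]
  rw [abs_lt, abs_lt] at h3
  unfold IsCor at h4 hx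
  unfold InB InR
  omega

/-- **The side at the tip** sees both colours. -/
theorem cap_tip {P U₀ : Set (ℤ × ℤ)} (hb : fb (E.e ω) ∉ E.U ω) (hU : U ⊆ E.Fr ω s)
    (happ : App U₀ P κ d) (hg : ahead (rv B) ∈ U) (hf : fa (E.p ω s) ∈ capC U κ (ahead (rv B)))
    (hr : d ≤ r) (hc : c = 0 ∨ c = 1) :
    ∃ y, E.Sid c ω s y ∧ Pth {a | InB (lf B) r a ∧ ∀ l ≤ s, E.p ω l ≠ a} (lf B) y :=
  ⟨_, Ex.sid_strand hc le_rfl, cap_pth hb hU happ hg hf (isCor_out_lf B)
    (isCor_en (isSide_fa _) c) hr⟩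

/-- **A contact of the class part.** -/
theorem cap_anc {P U₀ : Set (ℤ × ℤ)} (hb : fb (E.e ω) ∉ E.U ω) (hU : U ⊆ E.Fr ω s)
    (happ : App U₀ P κ d) (hg : ahead (rv B) ∈ U) (hf : f ∈ capC U κ (ahead (rv B)))
    (hr : d ≤ r) {y : ℤ × ℤ} (hy : IsCor f y) (hs : E.Sid c ω s y) :
    ∃ y, E.Sid c ω s y ∧ Pth {a | InB (lf B) r a ∧ ∀ l ≤ s, E.p ω l ≠ a} (lf B) y :=
  ⟨_, hs, cap_pth hb hU happ hg hf (isCor_out_lf B) hy hr⟩

/-- The outer face is not fresh: the side itself is a side of the fresh faces. -/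
theorem side_anc (hb : fb (E.e ω) ∉ E.U ω) (hB : ahead B ∈ E.Fr ω s) (hr : 1 ≤ r) {y : ℤ × ℤ}
    (hy : IsCor (ahead B) y) (hs : E.Sid c ω s y) :
    ∃ y, E.Sid c ω s y ∧ Pth {a | InB (lf B) r a ∧ ∀ l ≤ s, E.p ω l ≠ a} (lf B) y := by
  have hx : IsCor (ahead B) (lf B) := isCor_in_lf B
  refine ⟨_, hs, (fre_pth (Q := {ahead B}) hb (Set.singleton_subset_iff.2 hB)
    ((pth_face hx hy).mono fun a ha => ⟨_, rfl, ha⟩)).mono ?_⟩
  rintro a ⟨⟨k, rfl, h1⟩, h2⟩
  refine ⟨?_, h2⟩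
  have h4 : IsCor (ahead B) (ua a) := by
    rcases h1 with rfl | rfl | rfl | rfl <;> simp [IsCor, bo, le', to', ri, ua]
  unfold IsCor at h4 hx
  unfold InB InR
  omega

end Fre

/-! ### The sides of the true domain -/

section Tru

variable {E : Ex} {ω : Cfg} {U U₀ P : Set (ℤ × ℤ)} {s m x i : ℕ} {c d r : ℤ} {τ B : UE × Bool}
  {ι : Type*} {κ : ℤ × ℤ → ι}

/-- The colours of the sides of the true domain: the colour of the side number `i`. -/
def SeeC (x i : ℕ) (c : ℤ) : Prop := (c = 0 ∧ i ≤ x) ∨ (c = 1 ∧ (x ≤ i ∨ i = 0))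

/-- The vertex of the side number `i` on the side of the strand. -/
theorem sid_side (T : TSt (E.cf ω) Set.univ U τ m x)
    (hper : ∃ N, 0 < N ∧ pth (E.cf ω) τ.1 N = τ.1) (hW : E.Wll ω) (hUF : U ⊆ E.Fr ω s)
    (hout : ∀ i, outF U τ i ∉ E.Fr ω s) (tip : E.p ω s = τ.1) (hi : i < m)
    (hs : SeeC x i c) : ∃ y, E.Sid c ω s y ∧ IsCor (inF U τ i) y := by
  have hp := par_vert_succ (U := U) (A := τ) i
  have hcs := par_cases (vert U τ i)
  have hx0 := T.pos
  have hxm := T.lt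
  have hpx := T.px
  have h0 : par (vert U τ 0) = 1 := T.par_zero
  have hc1 : IsCor (inF U τ i) (vert U τ i) := isCor_in_lf _
  have hc2 : IsCor (inF U τ i) (vert U τ (i + 1)) := by
    rw [vert_succ]
    exact isCor_in_rg _
  rcases hs with ⟨rfl, h1⟩ | ⟨rfl, h1 | rfl⟩
  · rcases hcs with h2 | h2
    · rcases Nat.eq_zero_or_pos i with rfl | h3
      · omega
      · exact ⟨_, T.hwb hper hW hUF hout tip i h3 h1 h2, hc1⟩
    · rcases h1.lt_or_eq with h3 | rfl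
      · exact ⟨_, T.hwb hper hW hUF hout tip (i + 1) (by omega) (by omega) (by omega), hc2⟩
      · omega
  · rcases hcs with h2 | h2
    · exact ⟨_, T.hwl hper hW hUF hout tip (i + 1) (by omega) (by omega) (by omega), hc2⟩
    · exact ⟨_, T.hwl hper hW hUF hout tip i h1 (by omega) h2, hc1⟩
  · refine ⟨_, T.hwl hper hW hUF hout tip m (by omega) le_rfl ?_, ?_⟩
    · rw [T.cyc.vert_m]
      exact h0
    · rw [T.cyc.vert_m]
      exact hc1

/-- **A side at a class part with a side of the true domain**: the labels of the time `s` of `U`, the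
class part of the fresh faces `V` of the time `t`. -/
theorem cap_side {V : Set (ℤ × ℤ)} {t : ℕ} (T : TSt (E.cf ω) Set.univ U τ m x)
    (hper : ∃ N, 0 < N ∧ pth (E.cf ω) τ.1 N = τ.1) (hW : E.Wll ω) (hb : fb (E.e ω) ∉ E.U ω)
    (hUF : U ⊆ E.Fr ω s) (hout : ∀ i, outF U τ i ∉ E.Fr ω s) (tip : E.p ω s = τ.1)
    (hst : s ≤ t) (hV : V ⊆ E.Fr ω t)
    (happ : App U₀ P κ d) (hg : ahead (rv B) ∈ V) (hi : i < m)
    (hf : inF U τ i ∈ capC V κ (ahead (rv B))) (hs : SeeC x i c) (hr : d ≤ r) :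
    ∃ y, E.Sid c ω t y ∧ Pth {a | InB (lf B) r a ∧ ∀ l ≤ t, E.p ω l ≠ a} (lf B) y := by
  obtain ⟨y, h1, h2⟩ := sid_side T hper hW hUF hout tip hi hs
  exact cap_anc hb hV happ hg hf hr h2 (h1.mono hst)

/-- **The side at the target** sees both colours. -/
theorem cap_tgt {V : Set (ℤ × ℤ)} {t : ℕ} (T : TSt (E.cf ω) Set.univ U τ m x)
    (hper : ∃ N, 0 < N ∧ pth (E.cf ω) τ.1 N = τ.1) (hW : E.Wll ω) (hb : fb (E.e ω) ∉ E.U ω)
    (hUF : U ⊆ E.Fr ω s) (hout : ∀ i, outF U τ i ∉ E.Fr ω s) (tip : E.p ω s = τ.1)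
    (hst : s ≤ t) (hV : V ⊆ E.Fr ω t)
    (happ : App U₀ P κ d) (hg : ahead (rv B) ∈ V)
    (hf : inF U τ x ∈ capC V κ (ahead (rv B))) (hr : d ≤ r) (hc : c = 0 ∨ c = 1) :
    ∃ y, E.Sid c ω t y ∧ Pth {a | InB (lf B) r a ∧ ∀ l ≤ t, E.p ω l ≠ a} (lf B) y := by
  refine cap_side T hper hW hb hUF hout tip hst hV happ hg T.lt hf ?_ hr
  rcases hc with rfl | rfl
  · exact Or.inl ⟨rfl, le_rfl⟩
  · exact Or.inr ⟨rfl, Or.inl le_rfl⟩

end Tru

end Pool.Agent.SixB.Anc
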