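import Pool.Agent.Lib.SixB.S8AncI
import Pool.Agent.Lib.SixB.S8AncB

/-!
# Step 8: the fresh set from the tip to the target, regular stage

`h : Rg ..` is a regular move, also at the end of the step.
* `nrT`: the faces joined to the coarse target face in the small square around it;
* `ancK`: the entered set, the new set and `nrT`; `Rg.ancK_sub`: fresh faces, `Rg.ancK_conn`: connected,
  `Rg.ancK_tip`, `Rg.ancK_tgt`: it contains the face in front of the strand and the true target face;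
* `Rg.ancK_comp`: it does not meet a lost component;
* `Rg.ancK_cap`: it does not meet the class parts behind the sides of a lost component, except the class
  part with the face in front of the strand.
-/

set_option autoImplicit false

namespace Pool.Agent.SixB.Mv

open Finset Pool.Agent.Perc Pool.Agent.Perc6 Pool.Agent.PercT Pool.Agent.Perc6.C2Aux
open Pool.Agent.Perc.Tips Pool.Agent.SixB Pool.Agent.SixB.Top Pool.Agent.SixB.Blow
open Pool.Agent.SixB.CloK

/-- The faces joined to the coarse target face in the small square. -/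
def nrT (s : Dom) (u : ℕ) (U : Set (ℤ × ℤ)) (r : ℤ) : Set (ℤ × ℤ) :=
  compT (U ∩ sqF r (ahead (subE u s.B 0))) (ahead (subE u s.B 0))

/-- The fresh set from the tip to the target. -/
def ancK (s : Dom) (g : Grd) (u : ℕ) (U : Set (ℤ × ℤ)) (r : ℤ) (ρ : Rec) : Set (ℤ × ℤ) :=
  blow u (s.ent g ρ) ∪ blow u {f | f ∈ s.nxP g ρ ∧ ¬ s.End g ρ} ∪ nrT s u U r

/-- The first step out of a set along a chain. -/
theorem exists_exit_step {Q T : Set (ℤ × ℤ)} {p f : ℤ × ℤ} (h : ChI Q p f) (hp : p ∈ T)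
    (hf : f ∉ T) : ∃ a ∈ T, ∃ a' ∈ Q, a' ∉ T ∧ AdjF a a' := by
  induction h with
  | refl => exact absurd hp hf
  | @tail b c _ hs ih =>
    by_cases hb : b ∈ T
    · exact ⟨b, hb, c, hs.2, hf, hs.1⟩
    · exact ih hb

/-- A set with a centre is connected. -/
theorem econn_of_hub {K : Set (ℤ × ℤ)} {b : ℤ × ℤ} (hb : b ∈ K) (h : ∀ f ∈ K, ChI K b f) :
    Top.EConn K := fun f hf g hg => (ChI.symm hb (h f hf)).trans (h g hg)

namespace Rg

variable {s : Dom} {g : Grd} {u : ℕ} {ζ : Cfg} {U : Set (ℤ × ℤ)} {κ : ℤ × ℤ → ℤ × ℤ}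
  {r : ℤ} {τ : UE × Bool} {mU x : ℕ} {lA lB : ℤ} {σ : ℕ} {ρ : Rec}
  (h : Rg s g u ζ U κ r τ mU x lA lB σ ρ)

theorem self_sq {R : ℤ} (hR : 0 ≤ R) :
    ahead (subE u s.B 0) ∈ sqF R (ahead (subE u s.B 0)) := by
  unfold sqF
  rw [Set.mem_ofPred_eq]
  simpa using hR

include h

/-- The faces in a larger square around the target side are in one cell. -/
theorem cellB3 {f : ℤ × ℤ} (hf : f ∈ sqF (3 * r + 3) (ahead (subE u s.B 0))) :
    gc (u * g.a) (u * g.b) (u * g.L) f =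
      gc (u * g.a) (u * g.b) (u * g.L) (ahead (subE u s.B 0)) := by
  have h1 := h.farB
  have hd := h.app.d_pos
  have h2 : IsCor (ahead (subE u s.B 0)) (lf (subE u s.B 0)) := isCor_in_lf _
  unfold IsCor at h2
  unfold sqF at hf
  rw [Set.mem_ofPred_eq, abs_le, abs_le] at hf
  exact h.offB'.gc_eq h.hL' (by omega) (by omega) (by omega) (by omega) (by omega) (by omega)
    (by omega) (by omega)

theorem cycP' : ∃ mP, Cyc (blow u s.P) (subE u s.A 0) mP := by
  obtain ⟨mP, i₁, j₁, t, j₂, i₂, X⟩ := h.lab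
  exact ⟨mP, X.cyc⟩

/-- A face of `P` joined to the target in a square. -/
theorem near_P {R : ℤ} (hR : 0 ≤ R) {f : ℤ × ℤ}
    (hf : ChI (U ∩ sqF R (ahead (subE u s.B 0))) (ahead (subE u s.B 0)) f)
    (hfP : f ∈ blow u s.P) : ChI (blow u s.P ∩ sqF (R + r + 1) (ahead (subE u s.B 0)))
      (ahead (subE u s.B 0)) f := by
  obtain ⟨mP, hc⟩ := h.cycP'
  have hu : (0 : ℤ) < u := by exact_mod_cast h.hu
  exact Anc.joined_near h.tst.fin h.tst.ec h.tst.esc h.app (econn_blow hu h.val.con) hc h.bdB.1 hf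
    hfP (self_sq hR)

/-- The faces of `nrT`. -/
theorem nrT_sub {f : ℤ × ℤ} (hf : f ∈ nrT s u U r) :
    f ∈ U ∧ f ∈ sqF r (ahead (subE u s.B 0)) ∧ f ∉ s.tru g u U κ := by
  have hd := h.app.d_pos
  have h1 := compT_sub (show ahead (subE u s.B 0) ∈ U ∩ sqF r (ahead (subE u s.B 0)) from
    ⟨h.app.sub h.bdB.1, self_sq hd.le⟩) hf
  exact ⟨h1.1, h1.2, h.tgg f (h.tgt.2.2.trans hf)⟩

/-- The entered faces are fresh. -/
theorem ent_fresh {f : ℤ × ℤ} (hf : f ∈ blow u (s.ent g ρ)) :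
    f ∈ U \ (vs ζ τ.1 0 σ : Set (ℤ × ℤ)) := by
  have h1 : f ∈ blow u (s.bar g) := h.val.ent_sub_bar h.rok hf
  have h2 : f ∈ U := h.app.sub (h.val.ent_sub_P h.rok hf)
  exact ⟨h2, fun hN => h.tru_bar f (h.vis_tru f hN h2) h1⟩

/-- **The set `ancK` is fresh.** -/
theorem ancK_sub : ancK s g u U r ρ ⊆ U \ (vs ζ τ.1 0 σ : Set (ℤ × ℤ)) := by
  rintro f ((hf | hf) | hf)
  · exact h.ent_fresh hf
  · have hE : ¬ s.End g ρ := hf.2
    exact h.reg.data.P'U' (compT_sub (h.val.tgt_rem hE) hf.1)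
  · obtain ⟨h1, -, h3⟩ := h.nrT_sub hf
    exact ⟨h1, fun hN => h3 (h.vis_tru f hN h1)⟩

theorem ancK_tip : fa (pth ζ τ.1 σ) ∈ ancK s g u U r ρ := Or.inl (Or.inl h.ent)

theorem ancK_tgt : inF U τ x ∈ ancK s g u U r ρ := by
  right
  have hd := h.app.d_pos
  exact ChI.symm ⟨h.tgt.1, h.tgt.2.1⟩ h.tgt.2.2

/-- **The set `ancK` is connected.** -/
theorem ancK_conn : Top.EConn (ancK s g u U r ρ) := by
  have hu : (0 : ℤ) < u := by exact_mod_cast h.hu
  have hent : Top.EConn (blow u (s.ent g ρ)) := econn_blow hu (h.val.econn_ent h.rok)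
  refine econn_of_hub (b := ahead (subE u s.B 0)) (Or.inr self_mem_compT) fun f hf => ?_
  have hb : Blow.cl (u : ℤ) (ahead (subE u s.B 0)) = ahead s.B := cl_ahead_zero h.hu s.B
  by_cases hE : s.End g ρ
  · rcases hf with (hf | hf) | hf
    · refine ChI.mono (fun y hy => Or.inl (Or.inl hy)) (hent _ ?_ f hf)
      rw [mem_blow, hb]
      exact hE
    · exact absurd hE hf.2
    · exact ChI.mono (fun y hy => Or.inr hy) (compT_chain self_mem_compT hf)
  · have e0 : {f | f ∈ s.nxP g ρ ∧ ¬ s.End g ρ} = s.nxP g ρ := by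
      ext y
      exact ⟨fun hy => hy.1, fun hy => ⟨hy, hE⟩⟩
    have hnx : Top.EConn (blow u (s.nxP g ρ)) := econn_blow hu (econn_compT (h.val.tgt_rem hE))
    have hbn : ahead (subE u s.B 0) ∈ blow u (s.nxP g ρ) := by
      rw [mem_blow, hb]
      exact self_mem_compT
    obtain ⟨k1, k2⟩ := h.val.nxA_spec h.rok hE
    have key : ∀ f ∈ blow u (s.nxP g ρ), ChI (ancK s g u U r ρ) (ahead (subE u s.B 0)) f :=
      fun f hf => ChI.mono (fun y hy => Or.inl (Or.inr (by rw [e0]; exact hy))) (hnx _ hbn f hf)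
    rcases hf with (hf | hf) | hf
    · have h1 : ahead (subE u (s.nxA g ρ) 0) ∈ blow u (s.nxP g ρ) :=
        (bd_subE hu k1 le_rfl hu).1
      have h2 : ahead (rv (subE u (s.nxA g ρ) 0)) ∈ blow u (s.ent g ρ) := by
        rw [mem_blow, cl_ahead_rv hu _ le_rfl hu]
        exact k2
      refine ((key _ h1).trans (ChI.single (adjF_ahead _).symm (Or.inl (Or.inl h2)))).trans ?_
      exact ChI.mono (fun y hy => Or.inl (Or.inl hy)) (hent _ h2 f hf)
    · exact key f hf.1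
    · exact ChI.mono (fun y hy => Or.inr hy) (compT_chain self_mem_compT hf)

section Comp

variable {C : Set (ℤ × ℤ)} (hC : C ⊆ s.P \ s.rem g ρ)
  (hcl : ∀ f ∈ C, ∀ k ∈ s.P \ s.rem g ρ, AdjF f k → k ∈ C) (hB : ahead s.B ∉ C)

include hC hcl hB

/-- The faces of `P` joined to the target in a square are not in a lost component. -/
theorem near_notMem {R : ℤ} (hR : 0 ≤ R) (hR' : R ≤ 2 * r + 1) {f : ℤ × ℤ}
    (hf : ChI (U ∩ sqF R (ahead (subE u s.B 0))) (ahead (subE u s.B 0)) f) :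
    f ∉ blow u C := by
  intro hfC
  have h1 := h.near_P hR hf ((hC hfC).1)
  exact h.val.anc_tgt h.hu h.rok hC hcl hB (b := R + r + 1)
    (fun y hy => h.cellB3 (sqF_le_of (by omega) hy)) h1 hfC

/-- **The set `ancK` does not meet a lost component.** -/
theorem ancK_comp {f : ℤ × ℤ} (hf : f ∈ blow u C) : f ∉ ancK s g u U r ρ := by
  have hd := h.app.d_pos
  rintro ((h1 | h1) | h1)
  · exact (hC hf).2 (Dom.ent_sub_rem s g ρ h1)
  · obtain ⟨h2, hE⟩ := h1
    have h3 : ChI (s.P \ s.rem g ρ) (Blow.cl u f) (ahead s.B) :=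
      ChI.symm (h.val.tgt_rem hE) h2
    have key : ∀ y, ChI (s.P \ s.rem g ρ) (Blow.cl u f) y → y ∈ C := by
      intro y hy
      induction hy with
      | refl => exact hf
      | @tail b c _ hs ih => exact hcl b ih c hs.2 hs.1
    exact hB (key _ h3)
  · exact h.near_notMem hC hcl hB hd.le (by omega) h1 hf

end Comp

/-- The inner domain is in the true domain of the move. -/
theorem inr_tru {f : ℤ × ℤ} (hf : f ∈ blow u (s.inr g)) : f ∈ s.tru g u U κ := by
  rw [← h.inr_eq] at hf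
  exact (h.mvd.clo h.runS.att h.runS.tip h.runS.con h.lt).DT hf

section Cap

variable {C : Set (ℤ × ℤ)} {κ' : ℤ × ℤ → ℤ × ℤ} {d' : ℤ} {B : UE × Bool}

/-- **The set `ancK` does not meet a class part behind a side of a lost component**, except the class part
with the face in front of the strand. -/
theorem ancK_cap
    (a' : App (U \ (vs ζ τ.1 0 σ : Set (ℤ × ℤ))) (blow u (s.P \ s.rem g ρ)) κ' d')
    (e1 : ∀ x, x ∉ blow u s.P → ∀ y, y ∉ blow u s.P → (κ' x = κ' y ↔ κ x = κ y))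
    (e2 : ∀ x ∈ blow u (s.ent g ρ), ∀ y ∈ blow u (s.ent g ρ), κ' x = κ' y)
    (hC : C ⊆ s.P \ s.rem g ρ)
    (hcl : ∀ f ∈ C, ∀ k ∈ s.P \ s.rem g ρ, AdjF f k → k ∈ C) (hB : ahead s.B ∉ C)
    (hbd : BD (blow u C) B) (hg : ahead (rv B) ∈ U \ (vs ζ τ.1 0 σ : Set (ℤ × ℤ))) :
    fa (pth ζ τ.1 σ) ∈ capC (U \ (vs ζ τ.1 0 σ : Set (ℤ × ℤ))) κ' (ahead (rv B)) ∨
      ∀ f ∈ capC (U \ (vs ζ τ.1 0 σ : Set (ℤ × ℤ))) κ' (ahead (rv B)),
        f ∉ ancK s g u U r ρ := by
  have hu : (0 : ℤ) < u := by exact_mod_cast h.hu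
  have hd := h.app.d_pos
  by_contra hcon
  push Not at hcon
  obtain ⟨htip, f, hfQ, hfK⟩ := hcon
  have Qs : ∀ y ∈ capC (U \ (vs ζ τ.1 0 σ : Set (ℤ × ℤ))) κ' (ahead (rv B)),
      κ' y = κ' (ahead (rv B)) ∧ y ∈ U \ (vs ζ τ.1 0 σ : Set (ℤ × ℤ)) :=
    fun y hy => capC_sub hg hy
  have hkP : ahead (rv B) ∉ blow u (s.P \ s.rem g ρ) := by
    intro hk'
    rcases adj_cl hu (adjF_ahead B) with h1 | h1
    · refine hbd.2 ?_
      rw [mem_blow, h1]
      exact hbd.1
    · exact hbd.2 (hcl _ hbd.1 _ hk' h1.symm)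
  have QP : ∀ y ∈ capC (U \ (vs ζ τ.1 0 σ : Set (ℤ × ℤ))) κ' (ahead (rv B)),
      y ∉ blow u (s.P \ s.rem g ρ) := fun y hy hyP =>
    hkP (a'.sat y _ (Qs y hy).1 hyP)
  have Qch : Top.EConn (capC (U \ (vs ζ τ.1 0 σ : Set (ℤ × ℤ))) κ' (ahead (rv B))) :=
    econn_compT ⟨rfl, hg⟩
  have Qent : ∀ y ∈ capC (U \ (vs ζ τ.1 0 σ : Set (ℤ × ℤ))) κ' (ahead (rv B)),
      y ∉ blow u (s.ent g ρ) := by
    intro y hy hye
    apply htip
    have h1 : ChI (blow u (s.ent g ρ)) y (fa (pth ζ τ.1 σ)) :=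
      econn_blow hu (h.val.econn_ent h.rok) y hye _ h.ent
    have hsub : blow (u : ℤ) (s.ent g ρ) ⊆
        {x | κ' x = κ' (ahead (rv B))} ∩ (U \ (vs ζ τ.1 0 σ : Set (ℤ × ℤ))) := fun w hw =>
      ⟨(e2 w hw y hye).trans (Qs y hy).1, h.ent_fresh hw⟩
    exact ChI.trans hy (ChI.mono hsub h1)
  have Qrem : ∀ y ∈ capC (U \ (vs ζ τ.1 0 σ : Set (ℤ × ℤ))) κ' (ahead (rv B)),
      y ∈ blow u s.P → y ∈ blow u (s.inr g) := by
    intro y hy hyP
    have h2 : Blow.cl u y ∈ s.rem g ρ := by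
      by_contra hn
      exact QP y hy ⟨hyP, hn⟩
    rw [Dom.rem_reg s g h.nv] at h2
    rcases h2 with h2 | h2
    · exact h2.1
    · exact absurd h2 (Qent y hy)
  rcases hfK with (hf | hf) | hf
  · exact Qent f hfQ hf
  · have hE : ¬ s.End g ρ := hf.2
    exact QP f hfQ (compT_sub (h.val.tgt_rem hE) hf.1)
  · obtain ⟨hfU, hfs, hfT⟩ := h.nrT_sub hf
    have hfP : f ∉ blow u s.P := fun hfP => hfT (h.inr_tru (Qrem f hfQ hfP))
    by_cases hex : ∃ p ∈ capC (U \ (vs ζ τ.1 0 σ : Set (ℤ × ℤ))) κ' (ahead (rv B)),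
        p ∈ blow u s.P
    · obtain ⟨p, hpQ, hpP⟩ := hex
      obtain ⟨a, haT, b, hbQ, hbT, hab⟩ :=
        exists_exit_step (Qch p hpQ f hfQ) (h.inr_tru (Qrem p hpQ hpP)) hfT
      have hbP : b ∉ blow u s.P := fun hbP => hbT (h.inr_tru (Qrem b hbQ hbP))
      have hκ : κ f = κ b := (e1 f hfP b hbP).1 ((Qs f hfQ).1.trans (Qs b hbQ).1.symm)
      have hlt := h.runS.con.lt
      have hpos := h.runS.con.pos
      rcases h.mvd.hcomp h.runS.att a haT b hab hbT with h5 | h5 | h5 | h5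
      · exact h5 (Qs b hbQ).2.1
      · exact hbP h5
      · refine h.cls_ne hfs le_rfl hlt.le (f' := gR (blow u (s.dom g)) (subE u s.A 0)
          (blow u (s.bar g)) (u * s.n₁ g)) ?_ (hκ.trans (capK_class h5))
        have e : vert (inn (blow u (s.dom g)) (subE u s.A 0) (blow u (s.bar g))) (subE u s.A 0)
            (u * s.n₁ g) = rg (side (inn (blow u (s.dom g)) (subE u s.A 0)
            (blow u (s.bar g))) (subE u s.A 0) (u * s.n₁ g - 1)) := by
          rw [← vert_succ, show u * s.n₁ g - 1 + 1 = u * s.n₁ g by omega]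
        rw [e]
        exact isCor_out_rg _
      · exact h.cls_ne hfs hlt.le le_rfl (f' := gL (blow u (s.dom g)) (subE u s.A 0)
          (blow u (s.bar g)) (u * s.n₂ g)) (isCor_out_lf _) (hκ.trans (capK_class h5))
    · push Not at hex
      have hwf : ∀ w ∈ capC (U \ (vs ζ τ.1 0 σ : Set (ℤ × ℤ))) κ' (ahead (rv B)),
          w ∈ sqF (2 * r - 1) (ahead (subE u s.B 0)) := by
        intro w hw
        have hκ : κ w = κ f := (e1 w (hex w hw) f hfP).1 ((Qs w hw).1.trans (Qs f hfQ).1.symm)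
        have h3 := h.app.diam _ _ hκ
        unfold sqF at hfs ⊢
        rw [Set.mem_ofPred_eq, abs_le, abs_le] at hfs ⊢
        rw [abs_lt, abs_lt] at h3
        omega
      have s1 : U ∩ sqF r (ahead (subE u s.B 0)) ⊆
          U ∩ sqF (2 * r + 1) (ahead (subE u s.B 0)) :=
        fun y hy => ⟨hy.1, sqF_le_of (by omega) hy.2⟩
      have s2 : capC (U \ (vs ζ τ.1 0 σ : Set (ℤ × ℤ))) κ' (ahead (rv B)) ⊆
          U ∩ sqF (2 * r + 1) (ahead (subE u s.B 0)) :=
        fun w hw => ⟨(Qs w hw).2.1, sqF_le_of (by omega) (hwf w hw)⟩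
      have h1 : ChI (U ∩ sqF (2 * r + 1) (ahead (subE u s.B 0))) (ahead (subE u s.B 0))
          (ahead (rv B)) :=
        (ChI.mono s1 hf).trans (ChI.mono s2 (Qch f hfQ _ self_mem_compT))
      have h2 : ChI (U ∩ sqF (2 * r + 1) (ahead (subE u s.B 0))) (ahead (subE u s.B 0))
          (ahead B) := by
        refine h1.trans (ChI.single (adjF_ahead B) ⟨h.app.sub (hC hbd.1).1, ?_⟩)
        have h3 := hwf _ self_mem_compT
        have h4 := near_adj (adjF_ahead B)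
        unfold sqF at h3 ⊢
        rw [Set.mem_ofPred_eq] at h3 ⊢
        rw [abs_le, abs_le] at h3 h4
        rw [abs_le, abs_le]
        omega
      exact h.near_notMem hC hcl hB (by omega) le_rfl h2 hbd.1

end Cap

end Rg

end Pool.Agent.SixB.Mv
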