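import Pool.Agent.Lib.SixB.S8AncV

/-!
# Step 8: the strand at a void move is not in a component which is cut off

`Vd.tip`: in the geometry `Vd` of a void move the face in front of the true tip side is not in `C`. Else
the true tip side is a side `i` of `P` with the label `0`, the side `i - 1` has a label `w` with
`0 < w < x`, and the true target side is linked to a side near the target; the cyclic order is wrong.
-/

set_option autoImplicit false

namespace Pool.Agent.SixB.Anc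

open Finset Pool.Agent.Perc Pool.Agent.Perc6 Pool.Agent.Perc6.C2Aux Pool.Agent.Perc.Tips
open Pool.Agent.SixB Pool.Agent.SixB.Mv Pool.Agent.SixB.Top Pool.Agent.SixB.CloK

variable {ι ι' : Type*} {U P E C Y : Set (ℤ × ℤ)} {κ : ℤ × ℤ → ι} {c : ℤ × ℤ → ι'}
  {A τ B : UE × Bool} {d a b : ℤ} {mP mU x t : ℕ}

/-- **The face in front of the strand is not in a component which is cut off.** -/
theorem Vd.tip (h : Vd U P E C Y κ c A τ B d a b mP mU x t) (hb : 3 * d + 1 ≤ b)
    (h1 : inF U τ x ∈ Mv.sqF d (ahead B))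
    (h2 : ChI (U ∩ Mv.sqF d (ahead B)) (inF U τ x) (ahead B)) : ahead τ ∉ C := by
  intro hτC
  have hA := h.cyc.bd
  have hbdτ := h.cyU.bd
  have hd := h.app.d_pos
  have hx := h.x0
  have hxm := h.xm
  have hB : ahead B ∈ P := h.YP h.BY
  have hτP : BD P τ := ⟨h.CP hτC, fun h1 => hbdτ.2 (h.app.sub h1)⟩
  obtain ⟨i, hi, hiτ⟩ := h.cyc.exists_index hτP
  have hin : inF P A i = ahead τ := by
    unfold inF
    rw [hiτ]
  have hiC : inF P A i ∈ C := hin ▸ hτC
  have hi0 : i ≠ 0 := by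
    rintro rfl
    exact h.CE _ hiC h.inF_zero
  obtain ⟨k, rfl⟩ := Nat.exists_eq_succ_of_ne_zero hi0
  have hkm : k < mP := by omega
  -- the side `k` is not near
  have hkn : ¬ Nr P A B a b (inF P A k) := fun h3 => (h.up h3).1 hiC
  -- a link to the side `0` of `U`
  have link0 : ∀ {l w : ℕ}, l < mP → w < mU → LinkK U κ (side P A l) (side U τ w) →
      (w = 0 ↔ l = k + 1) := by
    intro l w hl hw hlk
    constructor
    · rintro rfl
      rcases hlk with h1 | ⟨h1, h2⟩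
      · exact h.cyc.inj _ hl _ hi (h1.trans (show side U τ 0 = side P A (k + 1) from hiτ.symm))
      · exfalso
        exact h.app.cap_notMem h1 (bd_side hA l).2 h2 (h.CP hτC)
    · rintro rfl
      rcases hlk with h1 | ⟨h1, -⟩
      · rw [show side P A (k + 1) = τ from hiτ] at h1
        exact h.cyU.inj _ hw _ h.cyU.pos h1.symm
      · exfalso
        rw [show side P A (k + 1) = τ from hiτ] at h1
        exact hbdτ.2 h1
  -- the labels
  have hit : k + 1 < t := by
    rcases h.lbl hi hiC with ⟨h1, -⟩ | ⟨-, w, h2, h3, h4⟩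
    · exact h1
    · have := (link0 hi h3 h4).2 rfl
      omega
  obtain ⟨w, hwx, hlw⟩ : ∃ w < x, LinkK U κ (side P A k) (side U τ w) := by
    rcases h.lbl' hkm hkn with ⟨-, h1⟩ | ⟨h1, -⟩
    · exact h1
    · omega
  have hw0 : w ≠ 0 := fun h1 => by
    have := (link0 hkm (by omega) hlw).1 h1
    omega
  -- the target side
  have hBm : ahead B ∈ Mv.sqF d (ahead B) := Vd.sq_self hd.le _
  have hzU : inF U τ x ∈ U ∩ Mv.sqF d (ahead B) := ⟨inF_mem hbdτ x, h1⟩
  have hz' : ChI (U ∩ Mv.sqF d (ahead B)) (ahead B) (inF U τ x) := ChI.symm hzU h2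
  have up' : ∀ {R : ℤ} {f : ℤ × ℤ}, R ≤ b → ChI (P ∩ Mv.sqF R (ahead B)) (ahead B) f →
      ChI (P ∩ Mv.sqF b (ahead B)) (ahead B) f :=
    fun hR h1 => ChI.mono (T := P ∩ Mv.sqF b (ahead B))
      (fun f hf => ⟨hf.1, Mv.sqF_le_of hR hf.2⟩) h1
  obtain ⟨S, hS⟩ : ∃ S : Set (ℤ × ℤ), S = {z | (z ∈ U ∧ z ∉ P ∧ z ∈ Mv.sqF d (ahead B)) ∧
    ChI (U ∩ Mv.sqF d (ahead B)) (ahead B) z} := ⟨_, rfl⟩
  obtain ⟨j, hj, hjB, hjS⟩ : ∃ j < mP, ChI (P ∩ Mv.sqF b (ahead B)) (ahead B) (inF P A j) ∧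
      LkS S (side P A j) (side U τ x) := by
    obtain ⟨-, h3⟩ := last_exit h.fin h.ecU h.esc h.app h.ecP h.cyc hB hBm hz'
    rcases h3 with ⟨h3, h4⟩ | ⟨h3, j, hj, h4, h5, h6⟩
    · have hbx : BD P (side U τ x) := ⟨h3, fun h5 => (bd_side hbdτ x).2 (h.app.sub h5)⟩
      obtain ⟨j, hj, hjx⟩ := h.cyc.exists_index hbx
      refine ⟨j, hj, ?_, Or.inl hjx⟩
      have e : inF P A j = inF U τ x := by
        unfold inF
        rw [hjx]
      rw [e]
      exact up' (by omega) h4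
    · refine ⟨j, hj, up' (by omega) h4, Or.inr ?_⟩
      have e : ChI (U ∩ Mv.sqF d (ahead B)) (ahead B) (outF P A j) := by
        refine hz'.trans (ChI.symm ⟨h5.1, h5.2.2⟩ (ChI.mono (T := U ∩ Mv.sqF d (ahead B))
          (fun f hf => ⟨hf.1, hf.2.2⟩) h6))
      refine ⟨?_, ?_⟩
      · rw [hS]
        exact ⟨h5, e⟩
      · have h7 : ∀ z, ChI {x | x ∈ U ∧ x ∉ P ∧ x ∈ Mv.sqF d (ahead B)} (outF P A j) z →
            ChI S (outF P A j) z ∧ ChI (U ∩ Mv.sqF d (ahead B)) (ahead B) z := by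
          intro z hz
          induction hz with
          | refl => exact ⟨Relation.ReflTransGen.refl, e⟩
          | tail _ hbc ih =>
            have h6 := ih.2.tail ⟨hbc.1, hbc.2.1, hbc.2.2.2⟩
            refine ⟨ih.1.tail ⟨hbc.1, ?_⟩, h6⟩
            rw [hS]
            exact ⟨hbc.2, h6⟩
        exact (h7 _ h6).1
  -- the part of the side `k` does not meet `S`
  have hkS : ∀ f ∈ ptK U κ (outF P A k), f ∉ S := by
    intro f hf hfS
    rw [hS] at hfS
    have h3 := part_near h.fin h.ecU h.esc h.app h.ecP h.cyc hB hBm hfS.2 hkm hf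
    exact hkn (Or.inr (up' (by omega) h3))
  have hjk : j ≠ k := by
    rintro rfl
    exact hkn (Or.inr hjB)
  have hjk1 : j ≠ k + 1 := by
    rintro rfl
    exact h.not_near hiC (Or.inr hjB)
  have hK : ∀ f ∈ ptK U κ (outF P A k), f ∈ U ∧ f ∉ P := fun f hf =>
    ⟨(ptK_le hf).2.1, fun h3 => (bd_side hA k).2 (h.app.sat f _ (ptK_le hf).2.2 h3)⟩
  have hSs : ∀ f ∈ S, f ∈ U ∧ f ∉ P := fun f hf => by
    rw [hS] at hf
    exact ⟨hf.1.1, hf.1.2.1⟩
  have hem : ∀ f ∈ (∅ : Set (ℤ × ℤ)), f ∈ U ∧ f ∉ P := fun f hf => absurd hf (by simp)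
  have l1 : LkS (ptK U κ (outF P A k)) (side P A k) (side U τ w) := lkS_of hlw
  have l0 : LkS (∅ : Set (ℤ × ℤ)) (side P A (k + 1)) (side U τ 0) := Or.inl hiτ
  rcases Nat.lt_or_ge j (k + 1) with h3 | h3
  · have h4 := Top.cyc3 h.fin h.esc h.app.sub h.ecP hA h.perP hbdτ h.perU hSs hK hem
      (fun f hf hf' => hkS f hf' hf) (fun f _ hf => absurd hf (by simp))
      (fun f _ hf => absurd hf (by simp)) (show j < k by omega) (Nat.lt_succ_self k) hi hxm
      (by omega) h.cyU.pos hjS l1 l0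
    omega
  · have h4 := Top.cyc3 h.fin h.esc h.app.sub h.ecP hA h.perP hbdτ h.perU hK hem hSs
      (fun f _ hf => absurd hf (by simp)) hkS (fun f hf => absurd hf (by simp))
      (Nat.lt_succ_self k) (show k + 1 < j by omega) hj (by omega) h.cyU.pos hxm l1 l0 hjS
    omega

end Pool.Agent.SixB.Anc
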