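import Pool.Agent.Lib.SixB.S8AncVA
import Pool.Agent.Lib.SixB.S8AncVT

/-!
# Step 8: the lost components of a void move, the tip

* `Dom.Val.void_tip`: the face in front of the strand is not in a component without the target;
* `Dom.Val.void_both`: the anchors and the tip, with weak labels of radius `3 r`.
-/

set_option autoImplicit false

namespace Pool.Agent.SixB.Mv.Dom.Val

open Finset Pool.Agent.Perc Pool.Agent.PercT Pool.Agent.Perc6 Pool.Agent.Perc6.C2Aux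
open Pool.Agent.SixB Pool.Agent.SixB.NearCut Pool.Agent.SixB.Mv Pool.Agent.SixB.Top
open Pool.Agent.SixB.SideV Pool.Agent.SixB.CloK Pool.Agent.SixB.Blow Pool.Agent.SixB.Anc
open Pool.Agent.Perc.Tips

variable {s : Dom} {g : Grd} {u : ℕ} {ρ : Rec} {z : ℤ × ℤ} {E : Ex} {ω : Cfg} {U : Set (ℤ × ℤ)}
  {κ : ℤ × ℤ → ℤ × ℤ} {τ y B₁ : UE × Bool} {mU x t t₀ : ℕ} {a b r lam : ℤ}

/-- **The face in front of the strand is not in a lost component of a void move.** -/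
theorem void_tip (h : s.Val g) (hu : 0 < u) (hv : s.Void g)
    (T : TSt (E.cf ω) Set.univ U τ mU x) (app : App U (blow u s.P) κ r)
    (W : WkLab U (blow u s.P) κ (subE u s.A 0) τ (subE u s.B 0) a b (u * cyl s.P s.A) mU x t)
    (a0 : 0 ≤ a) (hrb : 3 * r + 1 ≤ b)
    (hcA : ∀ f ∈ Mv.sqF (a + 1) (ahead (subE u s.A 0)), gc (u * g.a) (u * g.b) (u * g.L) f =
      gc (u * g.a) (u * g.b) (u * g.L) (ahead (subE u s.A 0)))
    (hcB : ∀ f ∈ Mv.sqF (b + 1) (ahead (subE u s.B 0)), gc (u * g.a) (u * g.b) (u * g.L) f =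
      gc (u * g.a) (u * g.b) (u * g.L) (ahead (subE u s.B 0)))
    (tgt : inF U τ x ∈ Mv.sqF r (ahead (subE u s.B 0)) ∧
      ChI (U ∩ Mv.sqF r (ahead (subE u s.B 0))) (inF U τ x) (ahead (subE u s.B 0)))
    (tip : E.p ω t₀ = τ.1)
    (hz : z ∈ s.P \ s.rem g ρ) (hB : ahead s.B ∉ compT (s.P \ s.rem g ρ) z) :
    fa (E.p ω t₀) ∉ blow u (compT (s.P \ s.rem g ρ) z) := by
  have hr := app.d_pos
  have V := vd_of (ρ := ρ) h hu hv T app W a0 (by omega) hcA hcB hz hB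
  have h1 := V.tip hrb tgt.1 tgt.2
  rw [tip, T.fwd]
  exact h1

/-- **The anchors and the tip**, weak labels of radius `3 r`. -/
theorem void_both (h : s.Val g) (hu : 0 < u) (hv : s.Void g)
    (T : TSt (E.cf ω) Set.univ U τ mU x) (app : App U (blow u s.P) κ r)
    (W : WkLab U (blow u s.P) κ (subE u s.A 0) τ (subE u s.B 0) (3 * r) (3 * r)
      (u * cyl s.P s.A) mU x t)
    (hcA : ∀ f ∈ Mv.sqF (3 * r + 2) (ahead (subE u s.A 0)), gc (u * g.a) (u * g.b) (u * g.L) f =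
      gc (u * g.a) (u * g.b) (u * g.L) (ahead (subE u s.A 0)))
    (hcB : ∀ f ∈ Mv.sqF (3 * r + 2) (ahead (subE u s.B 0)), gc (u * g.a) (u * g.b) (u * g.L) f =
      gc (u * g.a) (u * g.b) (u * g.L) (ahead (subE u s.B 0)))
    (tgt : inF U τ x ∈ Mv.sqF r (ahead (subE u s.B 0)) ∧
      ChI (U ∩ Mv.sqF r (ahead (subE u s.B 0))) (inF U τ x) (ahead (subE u s.B 0)))
    (tip : E.p ω t₀ = τ.1) (hper : ∃ N, 0 < N ∧ pth (E.cf ω) τ.1 N = τ.1) (hW : E.Wll ω)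
    (hb : fb (E.e ω) ∉ E.U ω) (hUF : U ⊆ E.Fr ω t₀) (hout : ∀ i, outF U τ i ∉ E.Fr ω t₀)
    (hz : z ∈ s.P \ s.rem g ρ) (hB : ahead s.B ∉ compT (s.P \ s.rem g ρ) z) :
    fa (E.p ω t₀) ∉ blow u (compT (s.P \ s.rem g ρ) z) ∧
    ∀ lam y, BD s.P y → ahead y ∈ compT (s.P \ s.rem g ρ) z →
      ((lam = 0 ∧ s.old y) ∨ (lam = 1 ∧ ¬ s.old y)) →
      ∀ B₁, BD (blow u (compT (s.P \ s.rem g ρ) z)) B₁ →
      ∃ v, E.Sid lam ω t₀ v ∧ Pth {a | InB (lf B₁) (r + 2 * (u * g.L)) a ∧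
        ∀ l ≤ t₀, E.p ω l ≠ a} (lf B₁) v := by
  have hr := app.d_pos
  have W' := W.mono (s' := 3 * r + 1) (s₀' := 3 * r + 1) (by omega) (by omega)
  have hA : ∀ f ∈ Mv.sqF (3 * r + 1 + 1) (ahead (subE u s.A 0)),
      gc (u * g.a) (u * g.b) (u * g.L) f =
      gc (u * g.a) (u * g.b) (u * g.L) (ahead (subE u s.A 0)) := by
    rw [show 3 * r + 1 + 1 = 3 * r + 2 by ring]
    exact hcA
  have hB' : ∀ f ∈ Mv.sqF (3 * r + 1 + 1) (ahead (subE u s.B 0)),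
      gc (u * g.a) (u * g.b) (u * g.L) f =
      gc (u * g.a) (u * g.b) (u * g.L) (ahead (subE u s.B 0)) := by
    rw [show 3 * r + 1 + 1 = 3 * r + 2 by ring]
    exact hcB
  refine ⟨h.void_tip hu hv T app W' (by omega) le_rfl hA hB' tgt tip hz hB, ?_⟩
  intro lam y hy hyC hlam B₁ hB₁
  exact h.anc_void hu hv T app W' (by omega) (by omega) hA hB' tip hper hW hb hUF hout hz hB hy hyC
    hlam hB₁

end Pool.Agent.SixB.Mv.Dom.Val
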