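import Pool.Agent.Lib.SixB.S8Lay

/-!
# Step 8, start of a needle step: the tube around the needle

`U` is the set of the fresh faces, `P` the coarse approximation of `U` (`Apx`: the fields of `App` which
are used), the needle `Q` consists of a hook in the box of radius `2 d` around the base `b` and of a piece
of the row `y = c` which ends at `x = x₁` (`Str`). If all the faces within `s` of the needle outside of the
box of radius `t` are in `U` and the end of the needle is in `P`, then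
* `tube_sub`: all the faces within `s - d` of the needle and right of `b.1 + t + d` are in `P`;
* `ring_sub`, `tube_sub_comp`: they are in one component `P'` of `P \ V`, `V` = faces of `P` near `Q`;
* `touch_near`: `V` touches the outside of `P` only in the box of radius `t + d`;
* `econn_hit`: `V` is connected, if it is the union of the classes which meet `Q`;
* `exists_side_V`, `exists_side_out`: `P'` has a side with `V` and a side with the outside of `P`;
* `vertex_near`: the vertices of both kinds of sides are near the base.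
-/

set_option autoImplicit false

namespace Pool.Agent.SixB.Tube

open Pool.Agent.Perc Pool.Agent.Perc6 Pool.Agent.Perc6.C2Aux Pool.Agent.Perc.Tips
open Pool.Agent.SixB.Top

variable {ι : Type*} {U P V Q S : Set (ℤ × ℤ)} {κ : ℤ × ℤ → ι} {d s t c x₀ x₁ : ℤ} {b : ℤ × ℤ}

/-! ### Straight chains -/

/-- A chain to the right. -/
theorem chain_right {x y : ℤ} : ∀ n : ℕ, (∀ z, x ≤ z → z ≤ x + n → (z, y) ∈ S) →
    ChI S (x, y) (x + n, y) := by
  intro n
  induction n with
  | zero => intro _; simpa using ChI.refl (S := S) (x, y)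
  | succ n ih =>
    intro h
    refine (ih fun z h1 h2 => h z h1 (by push_cast; omega)).trans ?_
    have h1 : (x + (n + 1 : ℕ), y) ∈ S := h _ (by push_cast; omega) le_rfl
    have h2 := adjF_right (x + n) y
    rw [show x + (n : ℤ) + 1 = x + ((n + 1 : ℕ) : ℤ) by push_cast; ring] at h2
    exact ChI.single h2 h1

/-- A chain upwards. -/
theorem chain_up {x y : ℤ} : ∀ n : ℕ, (∀ z, y ≤ z → z ≤ y + n → (x, z) ∈ S) →
    ChI S (x, y) (x, y + n) := by
  intro n
  induction n with
  | zero => intro _; simpa using ChI.refl (S := S) (x, y)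
  | succ n ih =>
    intro h
    refine (ih fun z h1 h2 => h z h1 (by push_cast; omega)).trans ?_
    have h1 : (x, y + (n + 1 : ℕ)) ∈ S := h _ (by push_cast; omega) le_rfl
    have h2 := adjF_up x (y + n)
    rw [show y + (n : ℤ) + 1 = y + ((n + 1 : ℕ) : ℤ) by push_cast; ring] at h2
    exact ChI.single h2 h1

/-- A chain in a row. -/
theorem chain_row {x x' y : ℤ} (h : ∀ z, min x x' ≤ z → z ≤ max x x' → (z, y) ∈ S) :
    ChI S (x, y) (x', y) := by
  rcases le_total x x' with hx | hx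
  · rw [min_eq_left hx, max_eq_right hx] at h
    have h1 := chain_right (S := S) (x := x) (y := y) (x' - x).toNat fun z h1 h2 => h z h1 (by omega)
    rwa [show x + ((x' - x).toNat : ℤ) = x' by omega] at h1
  · rw [min_eq_right hx, max_eq_left hx] at h
    have h1 := chain_right (S := S) (x := x') (y := y) (x - x').toNat fun z h1 h2 => h z h1 (by omega)
    rw [show x' + ((x - x').toNat : ℤ) = x by omega] at h1
    exact ChI.symm (h x' le_rfl hx) h1

/-- A chain in a column. -/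
theorem chain_col {x y y' : ℤ} (h : ∀ z, min y y' ≤ z → z ≤ max y y' → (x, z) ∈ S) :
    ChI S (x, y) (x, y') := by
  rcases le_total y y' with hy | hy
  · rw [min_eq_left hy, max_eq_right hy] at h
    have h1 := chain_up (S := S) (x := x) (y := y) (y' - y).toNat fun z h1 h2 => h z h1 (by omega)
    rwa [show y + ((y' - y).toNat : ℤ) = y' by omega] at h1
  · rw [min_eq_right hy, max_eq_left hy] at h
    have h1 := chain_up (S := S) (x := x) (y := y') (y - y').toNat fun z h1 h2 => h z h1 (by omega)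
    rw [show y' + ((y - y').toNat : ℤ) = y by omega] at h1
    exact ChI.symm (h y' le_rfl hy) h1

/-! ### Definitions -/

/-- The coarse approximation `P` of `U` by classes of diameter less than `d`. -/
structure Apx (U P : Set (ℤ × ℤ)) (κ : ℤ × ℤ → ι) (d : ℤ) : Prop where
  sat : ∀ x y, κ x = κ y → x ∈ P → y ∈ P
  diam : ∀ x y, κ x = κ y → |x.1 - y.1| < d ∧ |x.2 - y.2| < d
  hnot : ∀ f ∈ P, ∀ g, AdjF f g → g ∉ P → ∃ x, κ x = κ g ∧ x ∉ U

/-- The needle: a hook in the box of radius `2 d` around `b` and a piece of the row `y = c`. -/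
structure Str (Q : Set (ℤ × ℤ)) (b : ℤ × ℤ) (d c x₁ : ℤ) : Prop where
  base : |c - b.2| ≤ 2 * d
  shape : ∀ q ∈ Q, (|q.1 - b.1| ≤ 2 * d ∧ |q.2 - b.2| ≤ 2 * d) ∨
    (q.2 = c ∧ b.1 - 2 * d ≤ q.1 ∧ q.1 ≤ x₁)

/-- The faces near the needle, right of the base. -/
def Rct (a a' c r : ℤ) : Set (ℤ × ℤ) := {f | a ≤ f.1 ∧ f.1 ≤ a' ∧ |f.2 - c| ≤ r}

/-- The situation. -/
structure Tb (U P Q : Set (ℤ × ℤ)) (κ : ℤ × ℤ → ι) (b : ℤ × ℤ) (d s t c x₁ : ℤ) : Prop where
  apx : Apx U P κ d
  str : Str Q b d c x₁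
  d0 : 0 < d
  ds : 2 * d ≤ s
  st : 2 * d ≤ t
  far : b.1 + t + d ≤ x₁
  free : Rct (b.1 + t + 1) (x₁ + s) c s ⊆ U
  tip : (x₁, c) ∈ P

/-! ### The tube is in `P` -/

/-- (T1) The faces near the needle are in `P`. -/
theorem tube_sub (h : Tb U P Q κ b d s t c x₁) : Rct (b.1 + t + d) (x₁ + s - d) c (s - d) ⊆ P := by
  have hd := h.d0
  have hds := h.ds
  have hfar := h.far
  have step : ∀ f ∈ P, ∀ g, AdjF f g → g ∈ Rct (b.1 + t + d) (x₁ + s - d) c (s - d) → g ∈ P := by
    intro f hf g hfg hg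
    by_contra hgP
    obtain ⟨x, hx, hxU⟩ := h.apx.hnot f hf g hfg hgP
    obtain ⟨h1, h2⟩ := h.apx.diam x g hx
    obtain ⟨h3, h4, h5⟩ := hg
    apply hxU
    apply h.free
    rw [abs_lt] at h1 h2
    rw [abs_le] at h5
    refine ⟨by omega, by omega, ?_⟩
    rw [abs_le]
    omega
  intro f hf
  obtain ⟨h1, h2, h3⟩ := hf
  rw [abs_le] at h3
  have hch : ChI (Rct (b.1 + t + d) (x₁ + s - d) c (s - d)) (x₁, c) f := by
    have e1 : ChI (Rct (b.1 + t + d) (x₁ + s - d) c (s - d)) (x₁, c) (f.1, c) := by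
      refine chain_row fun z h4 h5 => ⟨?_, ?_, ?_⟩
      · show b.1 + t + d ≤ z
        omega
      · show z ≤ x₁ + s - d
        omega
      · show |c - c| ≤ s - d
        rw [sub_self, abs_zero]
        omega
    have e2 : ChI (Rct (b.1 + t + d) (x₁ + s - d) c (s - d)) (f.1, c) (f.1, f.2) := by
      refine chain_col fun z h4 h5 => ⟨h1, h2, ?_⟩
      show |z - c| ≤ s - d
      rw [abs_le]
      omega
    exact e1.trans e2
  have key : ∀ g, ChI (Rct (b.1 + t + d) (x₁ + s - d) c (s - d)) (x₁, c) g → g ∈ P := by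
    intro g hg
    induction hg with
    | refl => exact h.tip
    | tail _ hs ih => exact step _ ih _ hs.1 hs.2
  exact key f hch

/-! ### The faces of `V` -/

/-- `V` is near the needle. -/
def NearQ (V Q : Set (ℤ × ℤ)) (d : ℤ) : Prop :=
  ∀ f ∈ V, ∃ q ∈ Q, |f.1 - q.1| < d ∧ |f.2 - q.2| < d

/-- The position of the faces of `V`. -/
theorem near_cases (h : Tb U P Q κ b d s t c x₁) (hV : NearQ V Q d) {f : ℤ × ℤ} (hf : f ∈ V) :
    (|f.1 - b.1| < 3 * d ∧ |f.2 - b.2| < 3 * d) ∨
      (|f.2 - c| < d ∧ b.1 - 3 * d < f.1 ∧ f.1 < x₁ + d) := by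
  obtain ⟨q, hq, h1, h2⟩ := hV f hf
  rw [abs_lt] at h1 h2
  rcases h.str.shape q hq with ⟨h3, h4⟩ | ⟨h3, h4, h5⟩
  · left
    rw [abs_le] at h3 h4
    rw [abs_lt, abs_lt]
    omega
  · right
    rw [abs_lt]
    omega

/-- The faces of the tube away from the needle. -/
def Ring (b : ℤ × ℤ) (d s t c x₁ : ℤ) : Set (ℤ × ℤ) :=
  {f | f ∈ Rct (b.1 + t + d) (x₁ + s - d) c (s - d) ∧ (d ≤ |f.2 - c| ∨ x₁ + d ≤ f.1)}

theorem ring_sub_diff (h : Tb U P Q κ b d s t c x₁) (hV : NearQ V Q d) :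
    Ring b d s t c x₁ ⊆ P \ V := by
  rintro f ⟨h1, h2⟩
  refine ⟨tube_sub h h1, fun hf => ?_⟩
  have hst := h.st
  have hd := h.d0
  obtain ⟨h3, h4, h5⟩ := h1
  rcases near_cases h hV hf with ⟨h6, -⟩ | ⟨h6, h7, h8⟩
  · rw [abs_lt] at h6
    omega
  · rcases h2 with h2 | h2 <;> omega

theorem start_mem_ring (h : Tb U P Q κ b d s t c x₁) : (x₁ + d, c) ∈ Ring b d s t c x₁ := by
  have hd := h.d0
  have hds := h.ds
  have hfar := h.far
  refine ⟨⟨?_, ?_, ?_⟩, Or.inr le_rfl⟩
  · show b.1 + t + d ≤ x₁ + d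
    omega
  · show x₁ + d ≤ x₁ + s - d
    omega
  · show |c - c| ≤ s - d
    rw [sub_self, abs_zero]
    omega

/-- The ring is connected. -/
theorem ring_chain (h : Tb U P Q κ b d s t c x₁) {f : ℤ × ℤ} (hf : f ∈ Ring b d s t c x₁) :
    ChI (Ring b d s t c x₁) (x₁ + d, c) f := by
  have hd := h.d0
  have hds := h.ds
  have hfar := h.far
  obtain ⟨⟨h1, h2, h3⟩, h4⟩ := hf
  rw [abs_le] at h3
  rcases h4 with h4 | h4
  · -- up or down at `x₁ + d`, then along the row of `f`
    have e1 : ChI (Ring b d s t c x₁) (x₁ + d, c) (x₁ + d, f.2) := by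
      refine chain_col fun z h5 h6 => ⟨⟨?_, ?_, ?_⟩, Or.inr le_rfl⟩
      · show b.1 + t + d ≤ x₁ + d
        omega
      · show x₁ + d ≤ x₁ + s - d
        omega
      · show |z - c| ≤ s - d
        rw [abs_le]
        omega
    have e2 : ChI (Ring b d s t c x₁) (x₁ + d, f.2) (f.1, f.2) := by
      refine chain_row fun z h5 h6 => ⟨⟨?_, ?_, ?_⟩, Or.inl h4⟩
      · show b.1 + t + d ≤ z
        omega
      · show z ≤ x₁ + s - d
        omega
      · show |f.2 - c| ≤ s - d
        rw [abs_le]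
        omega
    exact e1.trans e2
  · have e1 : ChI (Ring b d s t c x₁) (x₁ + d, c) (f.1, c) := by
      refine chain_row fun z h5 h6 => ⟨⟨?_, ?_, ?_⟩, Or.inr ?_⟩
      · show b.1 + t + d ≤ z
        omega
      · show z ≤ x₁ + s - d
        omega
      · show |c - c| ≤ s - d
        rw [sub_self, abs_zero]
        omega
      · show x₁ + d ≤ z
        omega
    have e2 : ChI (Ring b d s t c x₁) (f.1, c) (f.1, f.2) := by
      refine chain_col fun z h5 h6 => ⟨⟨h1, h2, ?_⟩, Or.inr h4⟩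
      show |z - c| ≤ s - d
      rw [abs_le]
      omega
    exact e1.trans e2

/-- (T2) The ring is in one component of `P \ V`. -/
theorem ring_sub (h : Tb U P Q κ b d s t c x₁) (hV : NearQ V Q d) :
    Ring b d s t c x₁ ⊆ compT (P \ V) (x₁ + d, c) := fun _ hf =>
  ChI.mono (ring_sub_diff h hV) (ring_chain h hf)

/-- (T2) The tube without `V` is in one component of `P \ V`, if `V` is convex towards the row. -/
theorem tube_sub_comp (h : Tb U P Q κ b d s t c x₁) (hV : NearQ V Q d)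
    (hcol : ∀ x y y', (x, y) ∈ V → ((c ≤ y' ∧ y' ≤ y) ∨ (y ≤ y' ∧ y' ≤ c)) → (x, y') ∈ V)
    {f : ℤ × ℤ} (hf : f ∈ Rct (b.1 + t + d) (x₁ + s - d) c (s - d)) (hfV : f ∉ V) :
    f ∈ compT (P \ V) (x₁ + d, c) := by
  have hd := h.d0
  have hds := h.ds
  by_cases hR : d ≤ |f.2 - c| ∨ x₁ + d ≤ f.1
  · exact ring_sub h hV ⟨hf, hR⟩
  push Not at hR
  obtain ⟨h1, -⟩ := hR
  rw [abs_lt] at h1
  obtain ⟨h2, h3, h4⟩ := hf
  rcases le_total c f.2 with hc | hc
  · have h5 : (f.1, c + d) ∈ compT (P \ V) (x₁ + d, c) := by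
      refine ring_sub h hV ⟨⟨h2, h3, ?_⟩, Or.inl ?_⟩
      · show |c + d - c| ≤ s - d
        rw [abs_le]
        omega
      · show d ≤ |c + d - c|
        rw [le_abs]
        omega
    refine ChI.trans h5 ?_
    show ChI (P \ V) (f.1, c + d) (f.1, f.2)
    refine chain_col fun z h6 h7 => ⟨tube_sub h ⟨h2, h3, ?_⟩, fun hz => hfV ?_⟩
    · show |z - c| ≤ s - d
      rw [abs_le]
      omega
    · exact hcol f.1 z f.2 hz (Or.inl ⟨hc, by omega⟩)
  · have h5 : (f.1, c - d) ∈ compT (P \ V) (x₁ + d, c) := by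
      refine ring_sub h hV ⟨⟨h2, h3, ?_⟩, Or.inl ?_⟩
      · show |c - d - c| ≤ s - d
        rw [abs_le]
        omega
      · show d ≤ |c - d - c|
        rw [le_abs]
        omega
    refine ChI.trans h5 ?_
    show ChI (P \ V) (f.1, c - d) (f.1, f.2)
    refine chain_col fun z h6 h7 => ⟨tube_sub h ⟨h2, h3, ?_⟩, fun hz => hfV ?_⟩
    · show |z - c| ≤ s - d
      rw [abs_le]
      omega
    · exact hcol f.1 z f.2 hz (Or.inr ⟨by omega, hc⟩)

/-! ### `V` touches the outside of `P` only near the base -/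

/-- (T3) A face of `V` which touches the outside of `P` is near the base. -/
theorem touch_near (h : Tb U P Q κ b d s t c x₁) (hV : NearQ V Q d) {f g : ℤ × ℤ} (hf : f ∈ V)
    (hg : g ∉ P) (h1 : |f.1 - g.1| ≤ 1) (h2 : |f.2 - g.2| ≤ 1) :
    |f.1 - b.1| ≤ t + d ∧ |f.2 - b.2| ≤ t + d := by
  have hd := h.d0
  have hds := h.ds
  have hst := h.st
  have hb := h.str.base
  rw [abs_le] at h1 h2 hb
  rcases near_cases h hV hf with ⟨h3, h4⟩ | ⟨h3, h4, h5⟩
  · rw [abs_lt] at h3 h4
    rw [abs_le, abs_le]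
    omega
  · rw [abs_lt] at h3
    have h6 : f.1 ≤ b.1 + t + d := by
      by_contra h6
      apply hg
      apply tube_sub h
      refine ⟨by omega, by omega, ?_⟩
      rw [abs_le]
      omega
    rw [abs_le, abs_le]
    omega

/-- (T3) A vertex which is a corner of a face of `V` and of a face outside of `P`. -/
theorem vertex_near (h : Tb U P Q κ b d s t c x₁) (hV : NearQ V Q d) {f g v : ℤ × ℤ} (hf : f ∈ V)
    (hg : g ∉ P) (hfv : IsCor f v) (hgv : IsCor g v) :
    |v.1 - b.1| ≤ t + d + 1 ∧ |v.2 - b.2| ≤ t + d + 1 := by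
  unfold IsCor at hfv hgv
  have h1 : |f.1 - g.1| ≤ 1 ∧ |f.2 - g.2| ≤ 1 := by
    rw [abs_le, abs_le]
    omega
  have h2 := touch_near h hV hf hg h1.1 h1.2
  rw [abs_le, abs_le] at *
  omega

/-! ### `V` is connected -/

/-- The faces of `P` whose class meets `Q` (inside `P`). -/
def hit (P Q : Set (ℤ × ℤ)) (κ : ℤ × ℤ → ι) : Set (ℤ × ℤ) := {f | ∃ q ∈ Q ∩ P, κ q = κ f}

theorem hit_sub (hsat : ∀ x y, κ x = κ y → x ∈ P → y ∈ P) : hit P Q κ ⊆ P := by
  rintro f ⟨q, hq, h⟩
  exact hsat _ _ h hq.2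

theorem sub_hit : Q ∩ P ⊆ hit P Q κ := fun q hq => ⟨q, hq, rfl⟩

theorem hit_near (hdiam : ∀ x y, κ x = κ y → |x.1 - y.1| < d ∧ |x.2 - y.2| < d) :
    NearQ (hit P Q κ) Q d := by
  rintro f ⟨q, hq, h⟩
  exact ⟨q, hq.1, hdiam f q h.symm⟩

/-- `V` is a union of classes. -/
theorem hit_sat {x y : ℤ × ℤ} (h : κ x = κ y) (hx : x ∈ hit P Q κ) : y ∈ hit P Q κ := by
  obtain ⟨q, hq, h1⟩ := hx
  exact ⟨q, hq, h1.trans h⟩

/-- (T4) The union of the classes which meet the needle is connected. -/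
theorem econn_hit (hcell : ∀ x y, κ x = κ y → ChI {z | κ z = κ x} x y) (hQ : EConn (Q ∩ P)) :
    EConn (hit P Q κ) := by
  rintro f ⟨q, hq, h1⟩ g ⟨q', hq', h2⟩
  have e1 : ChI (hit P Q κ) f q := by
    refine ChI.mono ?_ (hcell f q h1.symm)
    intro z hz
    exact ⟨q, hq, h1.trans (show κ z = κ f from hz).symm⟩
  have e2 : ChI (hit P Q κ) q q' := ChI.mono sub_hit (hQ q hq q' hq')
  have e3 : ChI (hit P Q κ) q' g := by
    refine ChI.mono ?_ (hcell q' g h2)
    intro z hz
    exact ⟨q', hq', (show κ z = κ q' from hz).symm⟩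
  exact (e1.trans e2).trans e3

/-! ### Both kinds of sides occur -/

/-- Adjacent faces, one of them in `S`, have a common directed boundary side. -/
theorem exists_bd {f g : ℤ × ℤ} (hf : f ∈ S) (hg : g ∉ S) (hfg : AdjF f g) :
    ∃ A : UE × Bool, BD S A ∧ ahead A = f ∧ ahead (rv A) = g := by
  obtain ⟨hne, a, ha, ha'⟩ := hfg
  obtain ⟨e, he⟩ := exists_BD (F := S) (a := a) ⟨⟨f, hf, ha⟩, g, hg, ha'⟩
  refine ⟨(a, e), he, ?_, ?_⟩
  · rcases side_two hne ha ha' (isSide_ahead a e) with h | h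
    · exact h
    · exact absurd (h ▸ he.1) hg
  · rcases side_two hne ha ha' (isSide_ahead a (!e)) with h | h
    · exact absurd hf (h ▸ he.2)
    · exact h

/-- (T5) `P'` has a side with a face of `V`. -/
theorem exists_side_V (h : Tb U P Q κ b d s t c x₁) (hV : NearQ V Q d) (hx : (x₁, c) ∈ V) :
    ∃ A : UE × Bool, BD (compT (P \ V) (x₁ + d, c)) A ∧ ahead (rv A) ∈ V := by
  classical
  have hd := h.d0
  have hds := h.ds
  have hfar := h.far
  -- the last face of `V` above the end of the needle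
  have hex : ∃ j : ℕ, (x₁, c + (j : ℤ)) ∈ V ∧ ∀ k : ℕ, j < k → (x₁, c + (k : ℤ)) ∉ V := by
    have hbd : ∀ k : ℕ, (x₁, c + (k : ℤ)) ∈ V → (k : ℤ) < d := by
      intro k hk
      rcases near_cases h hV hk with ⟨h1, -⟩ | ⟨h1, -, -⟩
      · rw [abs_lt] at h1
        have := h.st
        simp only at h1
        omega
      · rw [abs_lt] at h1
        simp only at h1
        omega
    set K := (Finset.range d.toNat).filter fun k : ℕ => (x₁, c + (k : ℤ)) ∈ V with hK
    have h0 : 0 ∈ K := by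
      rw [hK, Finset.mem_filter, Finset.mem_range]
      refine ⟨by omega, ?_⟩
      simpa using hx
    refine ⟨K.max' ⟨0, h0⟩, ?_, ?_⟩
    · exact (Finset.mem_filter.1 (K.max'_mem ⟨0, h0⟩)).2
    · intro k hk hkV
      have hkK : k ∈ K := by
        rw [hK, Finset.mem_filter, Finset.mem_range]
        have := hbd k hkV
        exact ⟨by omega, hkV⟩
      have := K.le_max' k hkK
      omega
  obtain ⟨j, hj, hj'⟩ := hex
  have hjd : (j : ℤ) < d := by
    by_contra hcon
    have h1 : (x₁, c + (j : ℤ)) ∈ V := hj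
    rcases near_cases h hV h1 with ⟨h2, -⟩ | ⟨h2, -, -⟩
    · rw [abs_lt] at h2
      have := h.st
      simp only at h2
      omega
    · rw [abs_lt] at h2
      simp only at h2
      omega
  have hmem : (x₁, c + (j : ℤ) + 1) ∈ compT (P \ V) (x₁ + d, c) := by
    have h5 : (x₁, c + d) ∈ compT (P \ V) (x₁ + d, c) := by
      refine ring_sub h hV ⟨⟨?_, ?_, ?_⟩, Or.inl ?_⟩
      · show b.1 + t + d ≤ x₁
        omega
      · show x₁ ≤ x₁ + s - d
        omega
      · show |c + d - c| ≤ s - d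
        rw [abs_le]
        omega
      · show d ≤ |c + d - c|
        rw [le_abs]
        omega
    refine ChI.trans h5 ?_
    show ChI (P \ V) (x₁, c + d) (x₁, c + (j : ℤ) + 1)
    refine chain_col fun z h6 h7 => ⟨tube_sub h ⟨?_, ?_, ?_⟩, ?_⟩
    · show b.1 + t + d ≤ x₁
      omega
    · show x₁ ≤ x₁ + s - d
      omega
    · show |z - c| ≤ s - d
      rw [abs_le]
      omega
    · have := hj' (z - c).toNat (by omega)
      rwa [show c + ((z - c).toNat : ℤ) = z by omega] at this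
  have hadj : AdjF (x₁, c + (j : ℤ) + 1) (x₁, c + (j : ℤ)) := (adjF_up x₁ (c + j)).symm
  have hnot : (x₁, c + (j : ℤ)) ∉ compT (P \ V) (x₁ + d, c) := fun hcon =>
    (compT_sub (ring_sub_diff h hV (start_mem_ring h)) hcon).2 hj
  obtain ⟨A, hA, -, hA'⟩ := exists_bd hmem hnot hadj
  exact ⟨A, hA, by rw [hA']; exact hj⟩

/-- (T5) `P'` has a side with a face outside of `P`. -/
theorem exists_side_out (h : Tb U P Q κ b d s t c x₁) (hV : NearQ V Q d) (hP : P.Finite) :
    ∃ A : UE × Bool, BD (compT (P \ V) (x₁ + d, c)) A ∧ ahead (rv A) ∉ P := by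
  classical
  have hd := h.d0
  have hds := h.ds
  have hst := h.st
  have hfar := h.far
  have hs := ring_sub_diff h hV (start_mem_ring h)
  -- the first face outside of `P` on the right of the end of the needle
  have hex : ∃ j : ℕ, (x₁ + d + (j : ℤ), c) ∉ P := by
    by_contra hcon
    push Not at hcon
    have hinj : Function.Injective fun j : ℕ => ((x₁ + d + (j : ℤ), c) : ℤ × ℤ) := by
      intro i j hij
      simp only [Prod.mk.injEq, and_true] at hij
      omega
    exact (Set.infinite_of_injective_forall_mem hinj hcon) hP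
  obtain ⟨j, hj, hmin⟩ : ∃ j : ℕ, (x₁ + d + (j : ℤ), c) ∉ P ∧ ∀ k < j, (x₁ + d + (k : ℤ), c) ∈ P :=
    ⟨Nat.find hex, Nat.find_spec hex, fun k hk => not_not.1 (Nat.find_min hex hk)⟩
  have hj0 : 0 < j := by
    rcases Nat.eq_zero_or_pos j with h0 | h0
    · subst h0
      exfalso
      apply hj
      simpa using hs.1
    · exact h0
  obtain ⟨k, rfl⟩ : ∃ k, j = k + 1 := ⟨j - 1, by omega⟩
  have hnV : ∀ z, x₁ + d ≤ z → (z, c) ∉ V := by
    intro z hz hzV
    rcases near_cases h hV hzV with ⟨h1, -⟩ | ⟨-, -, h1⟩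
    · rw [abs_lt] at h1
      simp only at h1
      omega
    · simp only at h1
      omega
  have hmem : (x₁ + d + (k : ℤ), c) ∈ compT (P \ V) (x₁ + d, c) := by
    show ChI (P \ V) (x₁ + d, c) (x₁ + d + (k : ℤ), c)
    refine chain_right k fun z h1 h2 => ⟨?_, hnV z h1⟩
    have := hmin (z - (x₁ + d)).toNat (by omega)
    rwa [show x₁ + d + ((z - (x₁ + d)).toNat : ℤ) = z by omega] at this
  have hadj : AdjF (x₁ + d + (k : ℤ), c) (x₁ + d + ((k + 1 : ℕ) : ℤ), c) := by
    have := adjF_right (x₁ + d + (k : ℤ)) c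
    rwa [show x₁ + d + (k : ℤ) + 1 = x₁ + d + ((k + 1 : ℕ) : ℤ) by push_cast; ring] at this
  have hnot : (x₁ + d + ((k + 1 : ℕ) : ℤ), c) ∉ compT (P \ V) (x₁ + d, c) := fun hcon =>
    hj (compT_sub hs hcon).1
  obtain ⟨A, hA, -, hA'⟩ := exists_bd hmem hnot hadj
  exact ⟨A, hA, by rw [hA']; exact hj⟩

end Pool.Agent.SixB.Tube
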