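import Pool.Agent.Lib.SixB.S8FinD
import Pool.Agent.Lib.SixB.S8StartTube

/-!
# Step 8, RowFin: the components of the rest of `P` reach the contour

* `Cov.ray_exit`: a ray from `c` in `P \ R` which does not meet `R` leaves `P` at a side of the contour,
  in the component of `c`.
* `Cov.ray_free`: a square without `c` meets at most one of the four rays from `c`.
* `Cov.hull`: a cell outside `boxT`, `boxB` is joined in `P \ rem` to a side of `P` outside both.
* `Cov.blk_near`, `dom_near`, `rem_near`, `ent_near`, `inr_near`: the square of radius `(M + 1) L` around the tip.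
-/

set_option autoImplicit false

namespace Pool.Agent.SixB.Cov

open Pool.Agent.Perc Pool.Agent.Perc6 Pool.Agent.Perc6.C2Aux Pool.Agent.Perc.Tips
open Pool.Agent.SixB Pool.Agent.SixB.Top Pool.Agent.SixB.Mv

/-! ### The block is near the tip -/

/-- The faces of the block are near its centre. -/
theorem blk_near {a b L M : ℤ} {f v : ℤ × ℤ} (hL : 0 < L) (hf : f ∈ Mv.blk a b L M v) :
    |f.1 - v.1| < (M + 1) * L ∧ |f.2 - v.2| < (M + 1) * L := by
  have key : ∀ x y t : ℤ, |(x + t) / L - (y + t) / L| ≤ M → |x - y| < (M + 1) * L := by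
    intro x y t h
    rw [abs_le] at h
    have h1 := Int.lt_ediv_add_one_mul_self (x + t) hL
    have h2 := Int.lt_ediv_add_one_mul_self (y + t) hL
    have h3 := Int.ediv_mul_le (x + t) hL.ne'
    have h4 := Int.ediv_mul_le (y + t) hL.ne'
    rw [abs_lt]
    constructor <;> nlinarith
  exact ⟨key _ _ _ hf.1, key _ _ _ hf.2⟩

variable {s : Dom} {g : Grd} {ρ : Rec}

theorem dom_near (h : s.Val g) {f : ℤ × ℤ} (hf : f ∈ s.dom g) :
    |f.1 - s.tip.1| < (g.M + 1) * g.L ∧ |f.2 - s.tip.2| < (g.M + 1) * g.L :=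
  blk_near h.hL (h.dom_sub hf).2

/-- the removed faces are near the tip -/
theorem rem_near (h : s.Val g) (hρ : s.RecOk g ρ) {f : ℤ × ℤ} (hf : f ∈ s.rem g ρ) :
    |f.1 - s.tip.1| < (g.M + 1) * g.L ∧ |f.2 - s.tip.2| < (g.M + 1) * g.L :=
  dom_near h (h.rem_sub_dom hρ hf)

/-- the entered faces are near the tip -/
theorem ent_near (h : s.Val g) (hρ : s.RecOk g ρ) {f : ℤ × ℤ} (hf : f ∈ s.ent g ρ) :
    |f.1 - s.tip.1| < (g.M + 1) * g.L ∧ |f.2 - s.tip.2| < (g.M + 1) * g.L :=
  dom_near h (h.ent_sub_dom hρ hf)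

theorem inr_sub_dom (h : s.Val g) : s.inr g ⊆ s.dom g := by
  intro f hf
  have hf' : ChI (s.dom g \ s.bar g) (ahead s.A) f := hf
  rcases Relation.ReflTransGen.cases_tail hf' with h1 | ⟨d, -, h1⟩
  · rw [h1]
    exact h.bdD.1
  · exact h1.2.1

/-- the faces in front of the barrier are near the tip -/
theorem inr_near (h : s.Val g) {f : ℤ × ℤ} (hf : f ∈ s.inr g) :
    |f.1 - s.tip.1| < (g.M + 1) * g.L ∧ |f.2 - s.tip.2| < (g.M + 1) * g.L :=
  dom_near h (inr_sub_dom h hf)

/-- the block is in `boxT` -/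
theorem blk_sub_boxT (hL : 0 < g.L) : s.blk g ⊆ boxT s g := by
  intro f hf
  have h1 := blk_near (f := f) hL hf
  have h2 : (g.M + 1) * g.L = g.M * g.L + g.L := by ring
  exact ⟨by omega, by omega⟩

theorem dom_sub_boxT (h : s.Val g) : s.dom g ⊆ boxT s g := fun _ hf =>
  blk_sub_boxT h.hL (h.dom_sub hf).2

theorem rem_sub_boxT (h : s.Val g) (hρ : s.RecOk g ρ) : s.rem g ρ ⊆ boxT s g := fun _ hf =>
  dom_sub_boxT h (h.rem_sub_dom hρ hf)

/-! ### The four rays -/

/-- The face number `k` of the ray in the direction `i`. -/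
def ray (c : ℤ × ℤ) (i : Fin 4) (k : ℕ) : ℤ × ℤ :=
  match i with
  | 0 => (c.1 + k, c.2)
  | 1 => (c.1, c.2 + k)
  | 2 => (c.1 - k, c.2)
  | 3 => (c.1, c.2 - k)

theorem ray_zero (c : ℤ × ℤ) (i : Fin 4) : ray c i 0 = c := by
  fin_cases i <;> simp [ray]

theorem ray_adj (c : ℤ × ℤ) (i : Fin 4) (k : ℕ) : AdjF (ray c i k) (ray c i (k + 1)) := by
  rw [adjF_iff]
  fin_cases i
  · left
    simp only [ray]
    push_cast
    exact Prod.ext (by ring) rfl
  · right; right; left
    simp only [ray]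
    push_cast
    exact Prod.ext rfl (by ring)
  · right; left
    simp only [ray]
    push_cast
    exact Prod.ext (by ring) rfl
  · right; right; right
    simp only [ray]
    push_cast
    exact Prod.ext rfl (by ring)

theorem ray_inj (c : ℤ × ℤ) (i : Fin 4) : Function.Injective (ray c i) := by
  intro k k' h
  fin_cases i <;> simp only [ray, Prod.mk.injEq] at h <;> omega

/-- A ray which does not meet `R` leaves `P` at a side of the contour. -/
theorem ray_exit {P R : Set (ℤ × ℤ)} (hP : P.Finite) {c : ℤ × ℤ} (hc : c ∈ P \ R) {i : Fin 4}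
    (hR : ∀ k, ray c i k ∉ R) :
    ∃ k x, BD P x ∧ ahead x = ray c i k ∧ ahead x ∈ compT (P \ R) c := by
  classical
  have hex : ∃ k, ray c i k ∉ P := by
    by_contra h
    push Not at h
    exact Set.infinite_of_injective_forall_mem (ray_inj c i) h hP
  have h0 : Nat.find hex ≠ 0 := by
    intro h
    have := Nat.find_spec hex
    rw [h, ray_zero] at this
    exact this hc.1
  obtain ⟨k, hk⟩ := Nat.exists_eq_succ_of_ne_zero h0
  have hin : ∀ m ≤ k, ray c i m ∈ P := by
    intro m hm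
    by_contra h
    exact Nat.find_min hex (m := m) (by omega) h
  have hcomp : ∀ m ≤ k, ray c i m ∈ compT (P \ R) c := by
    intro m
    induction m with
    | zero =>
      intro _
      rw [ray_zero]
      exact self_mem_compT
    | succ m ih =>
      intro hm
      exact compT_step (ih (by omega)) (ray_adj c i m) ⟨hin _ hm, hR _⟩
  have hout : ray c i (k + 1) ∉ P := by
    have := Nat.find_spec hex
    rwa [hk] at this
  obtain ⟨x, hx, hx1, -⟩ := Tube.exists_bd (hin k le_rfl) hout (ray_adj c i k)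
  exact ⟨k, x, hx, hx1, by rw [hx1]; exact hcomp k le_rfl⟩

/-- A square without `c` meets at most one of the four rays from `c`. -/
theorem ray_free {c v : ℤ × ℤ} {t : ℤ} (hc : c ∉ sqr t v) :
    ∃ i₀ : Fin 4, ∀ i, i ≠ i₀ → ∀ k, ray c i k ∉ sqr t v := by
  have hc' : ¬ (|c.1 - v.1| ≤ t ∧ |c.2 - v.2| ≤ t) := hc
  have h : t < c.1 - v.1 ∨ c.1 - v.1 < -t ∨ t < c.2 - v.2 ∨ c.2 - v.2 < -t := by
    rw [abs_le, abs_le] at hc'
    omega
  have key : ∀ i₀ : Fin 4, (∀ i, i ≠ i₀ → ∀ k : ℕ, ¬ (|(ray c i k).1 - v.1| ≤ t ∧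
      |(ray c i k).2 - v.2| ≤ t)) → ∃ i₀ : Fin 4, ∀ i, i ≠ i₀ → ∀ k, ray c i k ∉ sqr t v :=
    fun i₀ h => ⟨i₀, fun i hi k hk => h i hi k hk⟩
  rcases h with h | h | h | h
  · refine key 2 fun i hi k => ?_
    rw [abs_le, abs_le]
    fin_cases i
    · simp only [ray]; omega
    · simp only [ray]; omega
    · exact absurd rfl hi
    · simp only [ray]; omega
  · refine key 0 fun i hi k => ?_
    rw [abs_le, abs_le]
    fin_cases i
    · exact absurd rfl hi
    · simp only [ray]; omega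
    · simp only [ray]; omega
    · simp only [ray]; omega
  · refine key 3 fun i hi k => ?_
    rw [abs_le, abs_le]
    fin_cases i
    · simp only [ray]; omega
    · simp only [ray]; omega
    · simp only [ray]; omega
    · exact absurd rfl hi
  · refine key 1 fun i hi k => ?_
    rw [abs_le, abs_le]
    fin_cases i
    · simp only [ray]; omega
    · exact absurd rfl hi
    · simp only [ray]; omega
    · simp only [ray]; omega

/-- A face outside two squares, one of which contains `R`, is joined in `P \ R` to a side of `P` outside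
both. -/
theorem hull_sqr {P R : Set (ℤ × ℤ)} (hP : P.Finite) {c v v' : ℤ × ℤ} {t t' : ℤ} (hc : c ∈ P)
    (hR : R ⊆ sqr t v) (h1 : c ∉ sqr t v) (h2 : c ∉ sqr t' v') :
    ∃ x, BD P x ∧ ahead x ∈ compT (P \ R) c ∧ ahead x ∉ sqr t v ∧ ahead x ∉ sqr t' v' := by
  obtain ⟨i₁, hi₁⟩ := ray_free h1
  obtain ⟨i₂, hi₂⟩ := ray_free h2
  have key : ∀ a b : Fin 4, ∃ i : Fin 4, i ≠ a ∧ i ≠ b := by decide
  obtain ⟨i, hi, hi'⟩ := key i₁ i₂
  obtain ⟨k, x, hx, hx1, hx2⟩ := ray_exit hP ⟨hc, fun h => h1 (hR h)⟩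
    (fun k h => hi₁ i hi k (hR h))
  exact ⟨x, hx, hx2, by rw [hx1]; exact hi₁ i hi k, by rw [hx1]; exact hi₂ i hi' k⟩

/-- **A cell outside `boxT`, `boxB` is joined in `P \ rem` to a side of `P` outside both.** -/
theorem hull (h : s.Val g) (hρ : s.RecOk g ρ) {c : ℤ × ℤ} (hc : c ∈ s.P) (h1 : c ∉ boxT s g)
    (h2 : c ∉ boxB s g) :
    ∃ x, BD s.P x ∧ ahead x ∈ compT (s.P \ s.rem g ρ) c ∧ ahead x ∉ boxT s g ∧
      ahead x ∉ boxB s g :=
  hull_sqr h.fin hc (rem_sub_boxT h hρ) h1 h2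

/-- A lost cell outside `boxT`, `boxB` is in a component on the right of the strand. -/
theorem rgtC_of (h : s.Val g) (hρ : s.RecOk g ρ) {c : ℤ × ℤ} (hc : c ∈ s.P \ s.rem g ρ)
    (hB : ahead s.B ∉ compT (s.P \ s.rem g ρ) c) (hl : c ∉ s.lef g ρ) (h1 : c ∉ boxT s g)
    (h2 : c ∉ boxB s g) : RgtC s g ρ c :=
  ⟨hc, hB, hl, hull h hρ hc.1 h1 h2⟩

end Pool.Agent.SixB.Cov
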