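import Pool.Agent.Lib.SixB.S8MoveA

/-!
# Step 8, unit 8H: labels of the inner domain of a move

* `Mvd.side_fst`, `Mvd.side_lst`: before and after the stop arc the contour of the inner domain
  `G = inn D A Y` is the contour of `P`;
* `Mvd.lt_tgt`, `Mvd.tgt_lt`: the sides of `P` near the target side are not sides of `G`;
* `LabP`: the labels of the contour of `P` (existence of a link to the right or to the left wall of `U`,
  outside of an interval of sides at the tip and an interval of sides at the target);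
* `LabI`: the labels of the contour of `G`; `LabP.labI`.
-/

set_option autoImplicit false

namespace Pool.Agent.SixB.Mv

open Finset Pool.Agent.Perc Pool.Agent.Perc6 Pool.Agent.Perc6.C2Aux Pool.Agent.Perc.Tips
open Pool.Agent.SixB.Top Pool.Agent.SixB.CloK

variable {ι : Type*} {U P D Y : Set (ℤ × ℤ)} {κ : ℤ × ℤ → ι} {d a b L : ℤ}
  {A τ B : UE × Bool} {m p q n N₁ N₂ mP mU kt : ℕ}

/-- Before the stop arc the contour of the inner domain is the contour of `P`. -/
theorem side_fst (H : Mvd U P D κ d A m p q) (hC : Contig D A p q Y m n N₁ N₂) {i : ℕ}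
    (hi : i < N₁) : side P A i = side (inn D A Y) A i := by
  have h0 := hC.lep
  have h3 := H.pq
  have h4 := H.qm
  have h1 : ∀ j ≤ i, ahead (rv ((sc D)^[j] A)) ∉ P := by
    intro j hj hP
    have := H.exit j (by omega) hP
    omega
  have h2 := interval_of_out H.DP H.cyc.bd h1 i le_rfl
  rw [hC.fst i hi]
  exact h2.1

/-- After the stop arc the contour of the inner domain is the contour of `P`. -/
theorem side_lst (H : Mvd U P D κ d A m p q) (hC : Contig D A p q Y m n N₁ N₂)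
    (hP : Cyc P A mP) {i : ℕ} (h1 : N₂ ≤ i) (h2 : i ≤ n) :
    n ≤ i + mP ∧ side P A (i + mP - n) = side (inn D A Y) A i := by
  have h3 := H.pq
  have h4 := H.qm
  have h5 := hC.ltq
  have h6 := hC.le
  have h7 := hC.lt
  have hAP : outF D A m ∉ P := by
    unfold outF
    rw [H.cyc.per]
    exact hP.bd.2
  have key : ∀ r, r + q < m → r ≤ mP ∧ side P A (mP - r) = side D A (m - r) := by
    intro r hr
    rcases Nat.eq_zero_or_pos r with h0 | h0
    · subst h0
      exact ⟨Nat.zero_le _, by rw [Nat.sub_zero, Nat.sub_zero, hP.per, H.cyc.per]⟩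
    have hq1 : q + 1 < m := by omega
    have hC' : BD P (side D A (q + 1)) := ⟨H.DP (bd_side H.cyc.bd _).1, fun hh => by
      have := H.exit (q + 1) hq1 hh
      omega⟩
    obtain ⟨j, hj, hjs⟩ := hP.exists_index hC'
    have hout : ∀ i ≤ m - (q + 1), ahead (rv ((sc D)^[i] (side D A (q + 1)))) ∉ P := by
      intro i hi hh
      have e1 : (sc D)^[i] (side D A (q + 1)) = side D A (q + 1 + i) := (side_add _ _).symm
      rw [e1] at hh
      rcases hi.lt_or_eq with h8 | h8
      · have := H.exit (q + 1 + i) (by omega) hh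
        omega
      · rw [show q + 1 + i = m by omega] at hh
        exact hAP hh
    have hint := interval_of_out H.DP (bd_side H.cyc.bd (q + 1)) hout
    have hs : ∀ i ≤ m - (q + 1), side P A (j + i) = side D A (q + 1 + i) := by
      intro i hi
      have e1 := (hint i hi).1
      have e2 : side P A (j + i) = (sc P)^[i] (side D A (q + 1)) := by
        rw [side_add, hjs]
        rfl
      rw [e2, e1]
      exact (side_add _ _).symm
    have hlen : j + (m - (q + 1)) = mP := by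
      have h8 := hs (m - (q + 1)) le_rfl
      rw [show q + 1 + (m - (q + 1)) = m by omega, H.cyc.per] at h8
      rcases lt_trichotomy (j + (m - (q + 1))) mP with h9 | h9 | h9
      · have := hP.inj _ h9 0 hP.pos (by rw [h8]; rfl)
        omega
      · exact h9
      · exfalso
        have h10 := hs (mP - j) (by omega)
        rw [show j + (mP - j) = mP by omega, hP.per] at h10
        have := H.cyc.inj (q + 1 + (mP - j)) (by omega) 0 H.cyc.pos (by rw [← h10]; rfl)
        omega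
    refine ⟨by omega, ?_⟩
    have h8 := hs (m - (q + 1) - r) (by omega)
    rw [show mP - r = j + (m - (q + 1) - r) by omega, h8]
    congr 1
    omega
  obtain ⟨h8, h9⟩ := key (n - i) (by omega)
  refine ⟨by omega, ?_⟩
  rw [show i + mP - n = mP - (n - i) by omega, h9]
  rcases h2.lt_or_eq with h10 | h10
  · rw [hC.lst i h1 h10]
    congr 1
    omega
  · rw [h10, hC.cyc.per, Nat.sub_self, Nat.sub_zero, H.cyc.per]

/-! ### The target -/

/-- The inner domain is closed in the part of a cell in `P`. -/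
theorem inn_step (H : Mvd U P D κ d A m p q) (hr : RunS a b L D A p q Y m n N₁ N₂) {f g : ℤ × ℤ}
    (hf : f ∈ inn D A Y) (hg : g ∈ P) (h : AdjF f g) (hc : gc a b L f = gc a b L g) :
    g ∈ inn D A Y := by
  obtain ⟨h1, h2⟩ := inn_sub hr.tipm hf
  have hgD : g ∈ D := by
    by_contra hgD
    exact H.no_exit hr.att h1 h2 hg hgD h
  have hgY : g ∉ Y := fun hgY => h2 (hr.sat g hgY f h1 h.symm hc.symm)
  exact compT_step hf h ⟨hgD, hgY⟩

/-- Consecutive inner faces. -/
theorem inF_step {S Q : Set (ℤ × ℤ)} (hA : BD P A) {i : ℕ}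
    (hQ : ∀ f, IsCor f (vert P A (i + 1)) → f ∈ Q)
    (hS : ∀ f g, f ∈ S → f ∈ Q → g ∈ P → g ∈ Q → AdjF f g → g ∈ S) :
    inF P A i ∈ S ↔ inF P A (i + 1) ∈ S := by
  have hB := bd_side hA i
  have e : side P A (i + 1) = sc P (side P A i) := Function.iterate_succ_apply' _ _ _
  rw [vert_succ] at hQ
  unfold inF
  rw [e]
  generalize side P A i = C at hB hQ
  have a1 : AdjF (ahead C) (ahead (rtn C)) := by
    have := adjF_ahead (rtn C)
    rwa [ahead_rv_rtn] at this
  have a2 : AdjF (ahead (rtn C)) (ahead (rtn (rtn C))) := by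
    have := adjF_ahead (rtn (rtn C))
    rwa [ahead_rv_rtn] at this
  have q0 : ahead C ∈ Q := hQ _ (isCor_in_rg _)
  have q1 : ahead (rtn C) ∈ Q := hQ _ ((isCor_rg_iff _ _).2 (Or.inr (Or.inr (Or.inl rfl))))
  have q2 : ahead (rtn (rtn C)) ∈ Q := hQ _ ((isCor_rg_iff _ _).2 (Or.inr (Or.inr (Or.inr rfl))))
  by_cases h1 : ahead (rtn C) ∈ P
  · by_cases h2 : ahead (rtn (rtn C)) ∈ P
    · rw [sc_right h1 h2, ahead_rv_rtn]
      exact ⟨fun h => hS _ _ (hS _ _ h q0 h1 q1 a1) q1 h2 q2 a2,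
        fun h => hS _ _ (hS _ _ h q2 h1 q1 a2.symm) q1 hB.1 q0 a1.symm⟩
    · rw [sc_straight h1 h2, ahead_rv_rtn]
      exact ⟨fun h => hS _ _ h q0 h1 q1 a1, fun h => hS _ _ h q1 hB.1 q0 a1.symm⟩
  · rw [sc_left h1, ahead_rv_rtn]

/-- The square of radius `r` around the face `g` (`sqr` of `S8State`). -/
def sqF (r : ℤ) (g : ℤ × ℤ) : Set (ℤ × ℤ) := {f | |f.1 - g.1| ≤ r ∧ |f.2 - g.2| ≤ r}

/-- The target data of the contour of `P`: the sides `j₁, …, j₂` are near the target side number `t`. The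
faces near the target side are in one cell. -/
structure TgtP (P : Set (ℤ × ℤ)) (A B : UE × Bool) (a b L s₀ : ℤ) (mP j₁ t j₂ : ℕ) : Prop where
  jt : j₁ ≤ t
  tj : t ≤ j₂
  jm : j₂ < mP
  tgt : side P A t = B
  near : ∀ i, j₁ ≤ i → i ≤ j₂ → inF P A i ∈ sqF s₀ (ahead B)
  cell : ∀ f ∈ sqF (s₀ + 1) (ahead B), gc a b L f = gc a b L (ahead B)

/-- The faces at the end of a side near the target. -/
theorem TgtP.cor {s₀ : ℤ} {j₁ t j₂ : ℕ} (T : TgtP P A B a b L s₀ mP j₁ t j₂) {i : ℕ} (h1 : j₁ ≤ i)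
    (h2 : i ≤ j₂) (f : ℤ × ℤ) (hf : IsCor f (vert P A (i + 1))) :
    gc a b L f = gc a b L (ahead B) := by
  refine T.cell f ?_
  have h := T.near i h1 h2
  have h3 : IsCor (inF P A i) (vert P A (i + 1)) := by
    rw [vert_succ]
    exact isCor_in_rg _
  unfold sqF at h ⊢
  rw [Set.mem_setOf_eq, abs_le, abs_le] at *
  unfold IsCor at h3 hf
  omega

/-- **The sides near the target are not sides of the inner domain.** -/
theorem tgt_notMem (H : Mvd U P D κ d A m p q) (hr : RunS a b L D A p q Y m n N₁ N₂)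
    (hP : BD P A) {s₀ : ℤ} {j₁ t j₂ : ℕ} (T : TgtP P A B a b L s₀ mP j₁ t j₂)
    (hex : ∀ i < m, side D A i = B → p ≤ i ∧ i ≤ q) {i : ℕ} (h1 : j₁ ≤ i) (h2 : i ≤ j₂) :
    inF P A i ∉ inn D A Y := by
  -- the property is constant on the interval
  have hstep : ∀ i, j₁ ≤ i → i < j₂ → (inF P A i ∈ inn D A Y ↔ inF P A (i + 1) ∈ inn D A Y) := by
    intro i hi1 hi2
    refine inF_step (Q := {f | gc a b L f = gc a b L (ahead B)}) hP (fun f hf => ?_) ?_
    · exact T.cor hi1 hi2.le f hf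
    · intro f g hf hfQ hg hgQ hfg
      exact inn_step H hr hf hg hfg (hfQ.trans hgQ.symm)
  have hall : ∀ k, j₁ + k ≤ j₂ → (inF P A j₁ ∈ inn D A Y ↔ inF P A (j₁ + k) ∈ inn D A Y) := by
    intro k
    induction k with
    | zero => exact fun _ => Iff.rfl
    | succ k ih => exact fun hk => (ih (by omega)).trans (hstep (j₁ + k) (by omega) (by omega))
  have hjt := T.jt
  have htj := T.tj
  have e1 := hall (i - j₁) (by omega)
  have e2 := hall (t - j₁) (by omega)
  rw [show j₁ + (i - j₁) = i by omega] at e1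
  rw [show j₁ + (t - j₁) = t by omega] at e2
  rw [← e1, e2]
  intro hG
  have hG' : ahead B ∈ inn D A Y := by
    have := hG
    unfold inF at this
    rwa [T.tgt] at this
  obtain ⟨h3, h4⟩ := inn_sub hr.tipm hG'
  have hBP : BD P B := T.tgt ▸ bd_side hP t
  have hBD : BD D B := ⟨h3, fun hh => hBP.2 (H.DP hh)⟩
  obtain ⟨c, hc, hcs⟩ := H.cyc.exists_index hBD
  obtain ⟨h5, h6⟩ := hex c hc hcs
  exact h4 (hr.att.on ⟨c, h5, h6, by unfold inF; rw [hcs]⟩)

/-- The sides near the target are behind the stop arc. -/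
theorem lt_tgt (H : Mvd U P D κ d A m p q) (hr : RunS a b L D A p q Y m n N₁ N₂)
    (hP : Cyc P A mP) {s₀ : ℤ} {j₁ t j₂ : ℕ} (T : TgtP P A B a b L s₀ mP j₁ t j₂)
    (hex : ∀ i < m, side D A i = B → p ≤ i ∧ i ≤ q) (hN : N₂ < n) :
    N₁ ≤ j₁ ∧ j₂ + n < N₂ + mP := by
  have hjt := T.jt
  have htj := T.tj
  have hjm := T.jm
  constructor
  · by_contra hcon
    push Not at hcon
    refine tgt_notMem H hr hP.bd T hex le_rfl (hjt.trans htj) ?_
    unfold inF
    rw [side_fst H hr.con hcon]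
    exact (bd_side hr.bdG _).1
  · by_contra hcon
    push Not at hcon
    obtain ⟨h1, h2⟩ := side_lst H hr.con hP (i := N₂) le_rfl hN.le
    obtain ⟨h3, h4⟩ := side_lst H hr.con hP (i := j₂ + n - mP) (by omega) (by omega)
    refine tgt_notMem H hr hP.bd T hex (hjt.trans htj) le_rfl ?_
    unfold inF
    rw [show j₂ = j₂ + n - mP + mP - n by omega, h4]
    exact (bd_side hr.bdG _).1

/-! ### Labels -/

/-- **The labels of the contour of `P`.** From the coarse tip side `A` (number `0`) to the target side `B`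
(number `t`): the sides `i₁ < i < j₁` are linked to the right wall of `U` (sides `< kt` from the true tip
side `τ`), the sides `j₂ < i < i₂` to the left wall; the other sides are near the tip or near the target. -/
structure LabP (U P : Set (ℤ × ℤ)) (κ : ℤ × ℤ → ι) (A τ B : UE × Bool) (s s₀ : ℤ)
    (mP mU kt i₁ j₁ t j₂ i₂ : ℕ) : Prop where
  cyc : Cyc P A mP
  ij : i₁ + 1 < j₁
  jt : j₁ ≤ t
  tj : t ≤ j₂
  ji : j₂ + 1 < i₂
  im : i₂ ≤ mP
  tgt : side P A t = B
  b : ∀ i, i₁ < i → i < j₁ → ∃ w < kt, LinkK U κ (side P A i) (side U τ w)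
  l : ∀ i, j₂ < i → i < i₂ → ∃ w, kt ≤ w ∧ w < mU ∧ LinkK U κ (side P A i) (side U τ w)
  nrA : ∀ i, i ≤ i₁ ∨ (i₂ ≤ i ∧ i ≤ mP) → inF P A i ∈ sqF s (ahead A)
  nrB : ∀ i, j₁ ≤ i → i ≤ j₂ → inF P A i ∈ sqF s₀ (ahead B)

/-- **The labels of the contour of the inner domain `G`**: the sides `h₁, …, N₁ - 1` are linked to the right
wall, the sides `N₂, …, h₂` to the left wall, the sides `< h₁` and `> h₂` are near the tip. -/
structure LabI (U G : Set (ℤ × ℤ)) (κ : ℤ × ℤ → ι) (A τ : UE × Bool) (s : ℤ)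
    (mU kt n N₁ N₂ h₁ h₂ : ℕ) : Prop where
  h1 : h₁ < N₁
  h2 : N₂ ≤ h₂
  h2n : h₂ < n
  b : ∀ i, h₁ ≤ i → i < N₁ → ∃ w < kt, LinkK U κ (side G A i) (side U τ w)
  l : ∀ i, N₂ ≤ i → i ≤ h₂ → ∃ w, kt ≤ w ∧ w < mU ∧ LinkK U κ (side G A i) (side U τ w)
  nr : ∀ i, i < h₁ ∨ (h₂ < i ∧ i ≤ n) → inF G A i ∈ sqF s (ahead A)

/-- **Labels of the inner domain.** -/
theorem LabP.labI {s s₀ : ℤ} {i₁ j₁ t j₂ i₂ : ℕ} (X : LabP U P κ A τ B s s₀ mP mU kt i₁ j₁ t j₂ i₂)
    (H : Mvd U P D κ d A m p q) (hr : RunS a b L D A p q Y m n N₁ N₂) (hN : N₂ < n)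
    (hex : ∀ i < m, side D A i = B → p ≤ i ∧ i ≤ q)
    (hcell : ∀ f ∈ sqF (s₀ + 1) (ahead B), gc a b L f = gc a b L (ahead B))
    (f1 : ¬ LC.InB (lf A) (s + 2) (vert (inn D A Y) A N₁))
    (f2 : ¬ LC.InB (lf A) (s + 2) (vert (inn D A Y) A N₂)) :
    LabI U (inn D A Y) κ A τ s mU kt n N₁ N₂ (i₁ + 1) (i₂ - 1 + n - mP) := by
  have g1 := X.ij
  have g2 := X.jt
  have g3 := X.tj
  have g4 := X.ji
  have g5 := X.im
  have T : TgtP P A B a b L s₀ mP j₁ t j₂ :=
    { jt := g2, tj := g3, jm := by omega, tgt := X.tgt, near := X.nrB, cell := hcell }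
  obtain ⟨k1, k2⟩ := lt_tgt H hr X.cyc T hex hN
  obtain ⟨hn, hs2⟩ := side_lst H hr.con X.cyc (i := N₂) le_rfl hN.le
  have hA : IsCor (ahead A) (lf A) := isCor_in_lf A
  have hpos := hr.con.pos
  have b1 : i₁ + 1 < N₁ := by
    by_contra hcon
    have h1 := X.nrA (N₁ - 1) (Or.inl (by omega))
    have h2 : inF P A (N₁ - 1) = inF (inn D A Y) A (N₁ - 1) := by
      unfold inF
      rw [side_fst H hr.con (by omega)]
    rw [h2] at h1
    have h3 : IsCor (inF (inn D A Y) A (N₁ - 1)) (vert (inn D A Y) A N₁) := by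
      have : vert (inn D A Y) A N₁ = rg (side (inn D A Y) A (N₁ - 1)) := by
        rw [← vert_succ, show N₁ - 1 + 1 = N₁ by omega]
      rw [this]
      exact isCor_in_rg _
    apply f1
    unfold sqF at h1
    rw [Set.mem_setOf_eq, abs_le, abs_le] at h1
    unfold IsCor at h3 hA
    unfold LC.InB
    omega
  have b2 : N₂ + mP < i₂ + n := by
    by_contra hcon
    have h1 := X.nrA (N₂ + mP - n) (Or.inr ⟨by omega, by omega⟩)
    have h2 : inF P A (N₂ + mP - n) = inF (inn D A Y) A N₂ := by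
      unfold inF
      rw [hs2]
    rw [h2] at h1
    have h3 : IsCor (inF (inn D A Y) A N₂) (vert (inn D A Y) A N₂) := isCor_in_lf _
    apply f2
    unfold sqF at h1
    rw [Set.mem_setOf_eq, abs_le, abs_le] at h1
    unfold IsCor at h3 hA
    unfold LC.InB
    omega
  refine ⟨b1, by omega, by omega, ?_, ?_, ?_⟩
  · intro i hi1 hi2
    rw [← side_fst H hr.con hi2]
    exact X.b i (by omega) (by omega)
  · intro i hi1 hi2
    obtain ⟨h3, h4⟩ := side_lst H hr.con X.cyc hi1 (show i ≤ n by omega)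
    rw [← h4]
    exact X.l _ (by omega) (by omega)
  · intro i hi
    rcases hi with hi | ⟨hi, hi'⟩
    · have h3 := X.nrA i (Or.inl (by omega))
      unfold inF at h3 ⊢
      rwa [side_fst H hr.con (show i < N₁ by omega)] at h3
    · obtain ⟨h3, h4⟩ := side_lst H hr.con X.cyc (show N₂ ≤ i by omega) hi'
      have h5 := X.nrA (i + mP - n) (Or.inr ⟨by omega, by omega⟩)
      unfold inF at h5 ⊢
      rwa [h4] at h5

end Pool.Agent.SixB.Mv
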