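import Pool.Agent.Lib.SixB.S8LabJun
import Pool.Agent.Lib.SixB.S8MoveB
import Pool.Agent.Lib.SixB.S8Sub
import Pool.Agent.Lib.SixB.S8BarV

/-!
# Step 8: the labels of the coarse domain after a stage

`LabP` (see `S8MoveB`) describes the contour of the coarse set `P` from the tip side `A`: an interval of
sides linked to the even wall, an interval at the target side `B`, an interval of sides linked to the odd
wall, and sides near the tip. The sides at the ends of the interval of the target are in different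
classes.

* `TgR.keep`: the sides at the target are also consecutive sides of the new coarse set;
* `link_keep`: links of sides of `P` whose class part in `U` stays in `U'`;
* `LabP.stepJ`: the new labels after a regular stage, or the new tip side and the target side are joined
  near the target.
-/

set_option autoImplicit false

namespace Pool.Agent.SixB.Mv

open Finset Pool.Agent.Perc Pool.Agent.Perc6 Pool.Agent.Perc6.C2Aux Pool.Agent.Perc.Tips
open Pool.Agent.SixB.Top

variable {ι ι' : Type*} {U U' P P' E : Set (ℤ × ℤ)} {κ : ℤ × ℤ → ι} {κ' : ℤ × ℤ → ι'} {d d' : ℤ}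
  {A A' B C τ τ' : UE × Bool} {m n mP mU mU' kt kt' r t₀ z : ℕ} {s s' s₀ R : ℤ}

/-! ### Contours -/

/-- The contour from another side. -/
theorem Cyc.shift (h : Cyc P A m) (k : ℕ) : Cyc P (side P A k) m := by
  have hp : Per P m A := ⟨h.pos, h.per, h.inj⟩
  have hs : Per P m (side P A k) := hp.shift h.bd k
  have hm := h.pos
  refine ⟨bd_side h.bd k, h.pos, hs.per, hs.inj, ?_, ?_, ?_, ?_, h.ctr.pot⟩
  · show lf (side P (side P A k) m) = lf (side P (side P A k) 0)
    rw [show side P (side P A k) m = side P A k from hs.per]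
    rfl
  · exact fun i _ => ⟨(side P (side P A k) i).1, (bd_side (bd_side h.bd k) i).bdU, joins_side i⟩
  · intro e he
    obtain ⟨i, hi, hj⟩ := h.ctr.all e he
    have hkm : k % m < m := Nat.mod_lt _ hm
    have e1 : (k + (i + (m - k % m)) % m) % m = i := by
      rw [Nat.add_mod, Nat.mod_mod, ← Nat.add_mod, ← Nat.mod_add_mod,
        show k % m + (i + (m - k % m)) = i + m by omega, Nat.add_mod_right, Nat.mod_eq_of_lt hi]
    have e2 : side P (side P A k) ((i + (m - k % m)) % m) = side P A i := by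
      rw [← side_add]
      have h1 := hp.mod (k + (i + (m - k % m)) % m)
      rw [e1] at h1
      exact h1.symm
    refine ⟨(i + (m - k % m)) % m, Nat.mod_lt _ hm, ?_⟩
    rw [vert_succ, e2]
    rw [vert_succ] at hj
    show Joins e (lf (side P (side P A k) _)) _
    rw [e2]
    exact hj
  · intro i hi j hj e h1 h2
    have e1 : (side P (side P A k) i).1 = e := Joins.uniq (joins_side i) h1
    have e2 : (side P (side P A k) j).1 = e := Joins.uniq (joins_side j) h2
    exact hs.inj i hi j hj ((bd_side (bd_side h.bd k) i).eq_of_fst (bd_side (bd_side h.bd k) j)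
      (e1.trans e2.symm))

/-- The contour from another side, given as a side. -/
theorem Cyc.shift_bd (h : Cyc P A m) (hC : BD P C) : Cyc P C m := by
  obtain ⟨c, -, rfl⟩ := h.exists_index hC
  exact h.shift c

theorem sqF_le {g f : ℤ × ℤ} {r r' : ℤ} (h : r ≤ r') (hf : f ∈ sqF r g) : f ∈ sqF r' g :=
  ⟨hf.1.trans h, hf.2.trans h⟩

/-- The inner faces of an interval of sides are joined near these faces. -/
theorem chain_lay {g : ℤ × ℤ} (hA : BD P A) {a b : ℕ} (hab : a ≤ b)
    (hR : ∀ i, a ≤ i → i ≤ b → inF P A i ∈ sqF R g) :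
    ChI (P ∩ sqF (R + 1) g) (inF P A a) (inF P A b) := by
  have hin : ∀ i, a ≤ i → i ≤ b → inF P A i ∈ P ∩ sqF (R + 1) g := fun i h1 h2 =>
    ⟨inF_mem hA i, sqF_le (by omega) (hR i h1 h2)⟩
  induction b, hab using Nat.le_induction with
  | base => exact ChI.refl _
  | succ k hk ih =>
    have h1 := ih (fun i a b => hR i a (by omega)) (fun i a b => hin i a (by omega))
    rcases lay_step P A k with h3 | ⟨-, h4, h5⟩ | ⟨h3, h4, h5⟩
    · rw [h3]
      exact h1
    · rw [← h4] at h5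
      exact h1.trans (ChI.single h5 (hin (k + 1) (by omega) le_rfl))
    · have h6 := hR k hk (by omega)
      have h7 := adj_near_app (adj_iff_adjFL.2 h4)
      have h8 : crF P A k ∈ P ∩ sqF (R + 1) g := by
        refine ⟨h3, ?_⟩
        unfold sqF at h6 ⊢
        rw [Set.mem_ofPred_eq, abs_le, abs_le] at *
        omega
      exact (h1.trans (ChI.single h4 h8)).trans (ChI.single h5 (hin (k + 1) (by omega) le_rfl))

theorem chi_near {g x y : ℤ × ℤ} {R' : ℤ} (h : ChI (P ∩ sqF R g) x y) (hR : R ≤ R') :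
    ChI (P ∩ sqF R' g) x y := by
  have h1 : P ∩ sqF R g ⊆ P ∩ sqF R' g := fun _ hf => ⟨hf.1, sqF_le hR hf.2⟩
  exact h.mono h1

/-! ### The sides at the target -/

/-- The sides of `P` from `C` to the side number `r` after it: the side number `t₀` is the target side,
the sides in between are near the target. -/
structure TgR (P : Set (ℤ × ℤ)) (C B : UE × Bool) (s₀ : ℤ) (r t₀ : ℕ) : Prop where
  bd : BD P C
  t0 : 0 < t₀
  tr : t₀ < r
  tgt : side P C t₀ = B
  near : ∀ i, 0 < i → i < r → inF P C i ∈ sqF s₀ (ahead B)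

/-- The corners of the sides near the target. -/
theorem TgR.cor (h : TgR P C B s₀ r t₀) {i : ℕ} (hi : i < r) {f : ℤ × ℤ}
    (hf : IsCor f (vert P C (i + 1))) : f ∈ sqF (s₀ + 1) (ahead B) := by
  have h0 := h.t0
  have h1 := h.tr
  have key : ∃ g, IsCor g (vert P C (i + 1)) ∧ g ∈ sqF s₀ (ahead B) := by
    rcases Nat.eq_zero_or_pos i with h2 | h2
    · subst h2
      exact ⟨inF P C 1, isCor_in_lf _, h.near 1 one_pos (by omega)⟩
    · refine ⟨inF P C i, ?_, h.near i h2 hi⟩
      rw [vert_succ]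
      exact isCor_in_rg _
  obtain ⟨g, h2, h3⟩ := key
  unfold sqF at h3 ⊢
  rw [Set.mem_ofPred_eq, abs_le, abs_le] at *
  unfold IsCor at h2 hf
  omega

theorem TgR.near' (h : TgR P C B s₀ r t₀) {i : ℕ} (hi : i ≤ r) :
    inF P C i ∈ sqF (s₀ + 1) (ahead B) := by
  have h0 := h.t0
  have h1 := h.tr
  rcases Nat.eq_zero_or_pos i with h2 | h2
  · subst h2
    refine h.cor (i := 0) (by omega) ?_
    rw [vert_succ]
    exact isCor_in_rg _
  · obtain ⟨j, rfl⟩ : ∃ j, i = j + 1 := ⟨i - 1, by omega⟩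
    exact h.cor (i := j) (by omega) (isCor_in_lf _)

/-- The successor of a side is the same in a subset which is closed at the end of the side. -/
theorem sc_keep {Q : Set (ℤ × ℤ)} (hP'P : P' ⊆ P) (hC : ahead C ∈ P')
    (hQ : ∀ f, IsCor f (rg C) → f ∈ Q)
    (hS : ∀ f ∈ P', ∀ g ∈ P, f ∈ Q → g ∈ Q → AdjF f g → g ∈ P') : sc P' C = sc P C := by
  have q0 : ahead C ∈ Q := hQ _ (isCor_in_rg _)
  have q1 : ahead (rtn C) ∈ Q := hQ _ ((isCor_rg_iff _ _).2 (Or.inr (Or.inr (Or.inl rfl))))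
  have q2 : ahead (rtn (rtn C)) ∈ Q := hQ _ ((isCor_rg_iff _ _).2 (Or.inr (Or.inr (Or.inr rfl))))
  by_cases h1 : ahead (rtn C) ∈ P
  · have h1' := hS _ hC _ h1 q0 q1 (Mv.adjF_rtn C)
    by_cases h2 : ahead (rtn (rtn C)) ∈ P
    · rw [sc_right h1 h2, sc_right h1' (hS _ h1' _ h2 q1 q2 (Mv.adjF_rtn (rtn C)))]
    · rw [sc_straight h1 h2, sc_straight h1' fun hh => h2 (hP'P hh)]
  · rw [sc_left h1, sc_left fun hh => h1 (hP'P hh)]

/-- **The sides at the target are sides of the new set.** -/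
theorem TgR.keep (h : TgR P C B s₀ r t₀) (hP'P : P' ⊆ P) (hB : ahead B ∈ P')
    (hcl : ∀ f ∈ P', ∀ g ∈ P, f ∈ sqF (s₀ + 1) (ahead B) → g ∈ sqF (s₀ + 1) (ahead B) →
      AdjF f g → g ∈ P') :
    BD P' C ∧ ∀ i ≤ r, side P' C i = side P C i ∧ inF P C i ∈ P' := by
  have h0 := h.t0
  have h1 := h.tr
  have hstep : ∀ i < r, (inF P C i ∈ P' ↔ inF P C (i + 1) ∈ P') := by
    intro i hi
    exact inF_step (Q := sqF (s₀ + 1) (ahead B)) h.bd (fun f hf => h.cor hi hf)
      (fun f g hf hfQ hg hgQ hfg => hcl f hf g hg hfQ hgQ hfg)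
  have hall : ∀ i ≤ r, (inF P C 0 ∈ P' ↔ inF P C i ∈ P') := by
    intro i
    induction i with
    | zero => exact fun _ => Iff.rfl
    | succ k ih => exact fun hk => (ih (by omega)).trans (hstep k (by omega))
  have hBt : inF P C t₀ ∈ P' := by
    unfold inF
    rw [h.tgt]
    exact hB
  have hin : ∀ i ≤ r, inF P C i ∈ P' := fun i hi =>
    (hall i hi).1 ((hall t₀ h1.le).2 hBt)
  refine ⟨⟨hin 0 (by omega), fun hh => h.bd.2 (hP'P hh)⟩, ?_⟩
  intro i
  induction i with
  | zero => exact fun hi => ⟨rfl, hin 0 hi⟩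
  | succ k ih =>
    intro hk
    obtain ⟨h2, h3⟩ := ih (by omega)
    refine ⟨?_, hin _ hk⟩
    rw [side_succ, side_succ, h2]
    refine sc_keep (Q := sqF (s₀ + 1) (ahead B)) hP'P h3 (fun f hf => h.cor (i := k) (by omega) ?_)
      hcl
    rw [vert_succ]
    exact hf

/-- The same for the new set. -/
theorem TgR.next (h : TgR P C B s₀ r t₀) (hP'P : P' ⊆ P) (hB : ahead B ∈ P')
    (hcl : ∀ f ∈ P', ∀ g ∈ P, f ∈ sqF (s₀ + 1) (ahead B) → g ∈ sqF (s₀ + 1) (ahead B) →
      AdjF f g → g ∈ P') : TgR P' C B s₀ r t₀ := by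
  obtain ⟨h1, h2⟩ := h.keep hP'P hB hcl
  refine ⟨h1, h.t0, h.tr, ?_, ?_⟩
  · rw [(h2 t₀ h.tr.le).1, h.tgt]
  · intro i hi1 hi2
    unfold inF
    rw [(h2 i hi2.le).1]
    exact h.near i hi1 hi2

/-- The inner faces of an interval of sides are joined near these faces. -/
theorem chain_lay' {g : ℤ × ℤ} (hA : BD P A) {lo hi a b : ℕ} (ha : lo ≤ a) (ha' : a ≤ hi)
    (hb : lo ≤ b) (hb' : b ≤ hi) (hR : ∀ i, lo ≤ i → i ≤ hi → inF P A i ∈ sqF R g) :
    ChI (P ∩ sqF (R + 1) g) (inF P A a) (inF P A b) := by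
  rcases Nat.le_total a b with h | h
  · exact chain_lay hA h fun i h1 h2 => hR i (by omega) (by omega)
  · exact ChI.symm (⟨inF_mem hA b, sqF_le (by omega) (hR b hb hb')⟩ : _ ∈ P ∩ sqF (R + 1) g)
      (chain_lay hA h fun i h1 h2 => hR i (by omega) (by omega))

/-- Sides with outer faces in one class are near each other. -/
theorem near_class {g : ℤ × ℤ} (h : App U P κ d) {i j : ℕ}
    (hij : κ (outF P A i) = κ (outF P A j)) (hj : inF P A j ∈ sqF R g) :
    inF P A i ∈ sqF (R + d + 1) g := by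
  have h1 := h.diam _ _ hij
  have h2 := adj_near_app (adj_iff_adjFL.2 (adjF_ahead (side P A i)))
  have h3 := adj_near_app (adj_iff_adjFL.2 (adjF_ahead (side P A j)))
  change |(outF P A i).1 - (inF P A i).1| ≤ 1 ∧ |(outF P A i).2 - (inF P A i).2| ≤ 1 at h2
  change |(outF P A j).1 - (inF P A j).1| ≤ 1 ∧ |(outF P A j).2 - (inF P A j).2| ≤ 1 at h3
  unfold sqF at hj ⊢
  rw [Set.mem_ofPred_eq, abs_le, abs_le] at *
  rw [abs_lt, abs_lt] at h1
  omega

/-! ### The new labels -/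

/-- **The labels from the junction.** -/
theorem exists_labP (h' : App U' P' κ' d') (hU' : Cyc U' τ' mU') (cP' : Top.EConn P')
    (hP' : Cyc P' C n) (T : TgR P' C B s₀ r t₀) (hrn : r < n)
    (hE : ∃ v < kt', LinkK U' κ' C (side U' τ' v))
    (hO : ∃ v, (v = 0 ∨ kt' ≤ v) ∧ v < mU' ∧ LinkK U' κ' (side P' C r) (side U' τ' v))
    (hsep : κ' (outF P' C 0) ≠ κ' (outF P' C r))
    (hA' : BD P' A') (hAU : ahead (rv A') ∈ U') (hl : LinkK U' κ' A' (side U' τ' 0)) (hk0 : 0 < kt')
    (hs : d' + 1 ≤ s) :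
    (∃ i₁ j₁ t j₂ i₂, LabP U' P' κ' A' τ' B s s₀ n mU' kt' i₁ j₁ t j₂ i₂ ∧
      κ' (outF P' A' (j₁ - 1)) ≠ κ' (outF P' A' (j₂ + 1))) ∨
      ChI (P' ∩ sqF (s₀ + d' + 3) (ahead B)) (ahead B) (ahead A') := by
  have hd := h'.d_pos
  have ht0 := T.t0
  have htr := T.tr
  set C₁ := side P' C r with hC₁
  have hP₁ : Cyc P' C₁ n := hP'.shift r
  have hq : ∀ i, side P' C₁ (n - r + i) = side P' C i := by
    intro i
    rw [hC₁, ← side_add, show r + (n - r + i) = n + i by omega, side_add, hP'.per]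
  have hq0 : side P' C₁ (n - r) = C := hq 0
  have hw : ∀ i, side P' C₁ (n + i) = side P' C₁ i := by
    intro i
    rw [side_add, hP₁.per]
  have hnr : ∀ i, n - r ≤ i → i ≤ n → inF P' C₁ i ∈ sqF (s₀ + 1) (ahead B) := by
    intro i h1 h2
    have h3 := T.near' (i := i - (n - r)) (by omega)
    unfold inF at h3 ⊢
    rwa [← hq, show n - r + (i - (n - r)) = i by omega] at h3
  have hBC : ahead B = inF P' C₁ (n - r + t₀) := by
    unfold inF
    rw [hq, T.tgt]
  have hn : ¬ Sm U' P' κ' C₁ 0 (n - r) := by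
    intro hh
    apply hsep
    have h1 := hh.class_eq
    unfold outF at h1 ⊢
    rw [hq0] at h1
    exact h1.symm
  have h1 : ∃ v < kt', LinkK U' κ' (side P' C₁ (n - r)) (side U' τ' v) := by
    rw [hq0]
    exact hE
  obtain ⟨z, hz, hzA⟩ := hP₁.exists_index hA'
  have hzF : ahead A' = inF P' C₁ z := by
    unfold inF
    rw [hzA]
  by_cases c1 : z ≤ n - r
  swap
  · -- the new tip side is at the target
    right
    have h5 : ChI (P' ∩ sqF (s₀ + d' + 3) (ahead B)) (inF P' C₁ (n - r + t₀)) (inF P' C₁ z) :=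
      chi_near (chain_lay' hP₁.bd (lo := n - r) (hi := n) (by omega) (by omega) (by omega)
        hz.le hnr) (by omega)
    rw [← hBC] at h5
    rw [hzF]
    exact h5
  by_cases c2 : Sm U' P' κ' C₁ 0 z
  · right
    have h2 : ∀ i ≤ z, κ' (outF P' C₁ i) = κ' (outF P' C₁ 0) := by
      intro i hi
      rcases Nat.eq_zero_or_pos i with h3 | h3
      · rw [h3]
      rcases hi.lt_or_eq with h4 | h4
      swap
      · rw [h4]
        exact c2.class_eq.symm
      by_contra hcon
      have h5 : z ≠ n - r := fun hh => hn (hh ▸ c2)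
      exact sm_pinch h' hU' hP₁ cP' h3 h4 (show z < n - r by omega) (by omega) c2
        (fun hh => hcon hh.class_eq.symm) hn
    have h3 : inF P' C₁ 0 ∈ sqF (s₀ + 1) (ahead B) := by
      have h4 := hnr n (by omega) le_rfl
      unfold inF at h4 ⊢
      rwa [← hw 0]
    have h4 : ChI (P' ∩ sqF (s₀ + d' + 3) (ahead B)) (inF P' C₁ 0) (inF P' C₁ z) :=
      chi_near (chain_lay' hP₁.bd (R := s₀ + 1 + d' + 1) (lo := 0) (hi := z) le_rfl
        (Nat.zero_le _) (Nat.zero_le _) le_rfl fun i _ hi => near_class h' (h2 i hi) h3) (by omega)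
    have h5 : ChI (P' ∩ sqF (s₀ + d' + 3) (ahead B)) (inF P' C₁ (n - r + t₀)) (inF P' C₁ n) :=
      chi_near (chain_lay' hP₁.bd (lo := n - r) (hi := n) (by omega) (by omega) (by omega)
        le_rfl hnr) (by omega)
    have h6 : inF P' C₁ n = inF P' C₁ 0 := by
      unfold inF
      rw [← hw 0]
      rfl
    rw [hzF]
    rw [h6, ← hBC] at h5
    exact h5.trans h4
  by_cases c3 : Sm U' P' κ' C₁ z (n - r)
  · right
    have h2 : ∀ i, z ≤ i → i ≤ n - r → κ' (outF P' C₁ i) = κ' (outF P' C₁ (n - r)) := by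
      intro i hi1 hi2
      rcases hi1.eq_or_lt with h3 | h3
      · rw [← h3]
        exact c3.class_eq
      rcases hi2.lt_or_eq with h4 | h4
      swap
      · rw [h4]
      by_contra hcon
      have h5 : 0 < z := by
        rcases Nat.eq_zero_or_pos z with h6 | h6
        · exact absurd (h6 ▸ c3) hn
        · exact h6
      exact sm_pinch' h' hU' hP₁ cP' h5 h3 h4 (by omega) c3 (fun hh => c2 hh.symm)
        (fun hh => hcon (hh.class_eq.symm.trans c3.class_eq))
    have h3 : inF P' C₁ (n - r) ∈ sqF (s₀ + 1) (ahead B) := hnr (n - r) le_rfl (by omega)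
    have h4 : ChI (P' ∩ sqF (s₀ + d' + 3) (ahead B)) (inF P' C₁ (n - r)) (inF P' C₁ z) :=
      chi_near (chain_lay' hP₁.bd (R := s₀ + 1 + d' + 1) (lo := z) (hi := n - r) c1 le_rfl
        le_rfl c1 fun i h1 hi => near_class h' (h2 i h1 hi) h3) (by omega)
    have h5 : ChI (P' ∩ sqF (s₀ + d' + 3) (ahead B)) (inF P' C₁ (n - r + t₀))
        (inF P' C₁ (n - r)) :=
      chi_near (chain_lay' hP₁.bd (lo := n - r) (hi := n) (by omega) (by omega) le_rfl (by omega)
        hnr) (by omega)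
    rw [hzF]
    rw [← hBC] at h5
    exact h5.trans h4
  -- the main case
  left
  have hzU : outF P' C₁ z ∈ U' := by
    unfold outF
    rw [hzA]
    exact hAU
  have h0 : ∃ v, kt' ≤ v ∧ v < mU' ∧ LinkK U' κ' (side P' C₁ 0) (side U' τ' v) := by
    obtain ⟨v, hv, hvm, hlv⟩ := hO
    rcases hv with rfl | hv
    · exfalso
      have hz0 : C₁ ≠ A' := by
        intro hh
        have h3 : outF P' C₁ 0 ∈ U' := by
          show ahead (rv C₁) ∈ U'
          rw [hh]
          exact hAU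
        have h4 : z = 0 := hP₁.inj z hz 0 hP₁.pos (hzA.trans hh.symm)
        exact c2 ⟨by rw [h4], h3, hzU⟩
      refine linkK_ne h' hP₁.bd hA' hz0 hlv hl ?_ rfl
      have h4 := dis_of_not_sm c2
      rw [hzA] at h4
      exact h4
    · exact ⟨v, hv, hvm, hlv⟩
  obtain ⟨x, hx0, hxq, hL, hR, hz'⟩ := junction h' hU' hP₁ cP' (q₀ := n - r) (by omega) h0 h1 hn
  obtain ⟨k1, k2, k3⟩ := hz' z c1 hzU (by rw [hzA]; exact hl) hk0 c2 c3
  have hA : ∀ i, side P' A' i = side P' C₁ (z + i) := by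
    intro i
    rw [side_add, hzA]
  refine ⟨0, n - r - z + 1, n - r - z + t₀, n - z - 1, n - z + x, ?_, ?_⟩
  · refine ⟨hP'.shift_bd hA', by omega, by omega, by omega, by omega, by omega, ?_, ?_, ?_, ?_, ?_⟩
    · rw [hA, show z + (n - r - z + t₀) = n - r + t₀ by omega, hq, T.tgt]
    · intro i hi1 hi2
      rw [hA]
      exact hR (z + i) (by omega) (by omega)
    · intro i hi1 hi2
      rw [hA, show z + i = n + (z + i - n) by omega, hw]
      exact hL _ (by omega)
    · intro i hi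
      have hself : inF P' C₁ z ∈ sqF 0 (ahead A') := by
        rw [hzF]
        unfold sqF
        rw [Set.mem_ofPred_eq]
        simp
      rcases hi with hi | ⟨hi1, hi2⟩
      · rw [show i = 0 by omega]
        have h4 : inF P' A' 0 = inF P' C₁ z := by
          unfold inF
          rw [hA]
          rfl
        rw [h4]
        exact sqF_le (by omega) hself
      · have h4 : inF P' A' i = inF P' C₁ (z + i - n) := by
          unfold inF
          rw [hA, show z + i = n + (z + i - n) by omega, hw]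
          congr 2
          omega
        rw [h4]
        exact sqF_le (by omega)
          (near_class h' (k3 (z + i - n) (by omega) (by omega)).class_eq hself)
    · intro i hi1 hi2
      have h4 : inF P' A' i = inF P' C (z + i - (n - r)) := by
        unfold inF
        rw [hA, show z + i = n - r + (z + i - (n - r)) by omega, hq]
        congr 2
        omega
      rw [h4]
      exact T.near _ (by omega) (by omega)
  · have e1 : outF P' A' (n - r - z + 1 - 1) = outF P' C 0 := by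
      unfold outF
      rw [hA, show z + (n - r - z + 1 - 1) = n - r + 0 by omega, hq]
    have e2 : outF P' A' (n - z - 1 + 1) = outF P' C r := by
      unfold outF
      rw [hA, show z + (n - z - 1 + 1) = n + 0 by omega, hw, hC₁]
      rfl
    rw [e1, e2]
    exact hsep

/-! ### The links which stay -/

/-- **A link of a side whose class part stays in `U'`.** -/
theorem link_keep (h : App U P κ d) (hU : BD U τ) (hU' : Cyc U' τ' mU') (hUU : U' ⊆ U)
    (hC : BD P C) (hCU : ahead C ∈ U')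
    (hκ : ∀ x ∉ P, ∀ y ∉ P, κ x = κ y → κ' x = κ' y)
    (hcap : ahead (rv C) ∈ U → ∀ f ∈ capC U κ (ahead (rv C)), f ∈ U') {w : ℕ}
    (hl : LinkK U κ C (side U τ w)) :
    ∃ w' < mU', side U' τ' w' = side U τ w ∧ LinkK U' κ' C (side U' τ' w') := by
  have hBw := bd_side hU w
  rcases hl with h1 | ⟨h1, h2⟩
  · have h3 : BD U' C := ⟨hCU, fun hh => by
      rw [h1] at hh
      exact hBw.2 (hUU hh)⟩
    obtain ⟨w', hw', hs⟩ := hU'.exists_index h3
    exact ⟨w', hw', hs.trans h1, Or.inl hs.symm⟩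
  · have h3 : BD U' (side U τ w) := ⟨hcap h1 _ h2, fun hh => hBw.2 (hUU hh)⟩
    obtain ⟨w', hw', hs⟩ := hU'.exists_index h3
    refine ⟨w', hw', hs, Or.inr ⟨hcap h1 _ self_mem_compT, ?_⟩⟩
    rw [hs]
    have h4 : ChI (capC U κ (ahead (rv C))) (ahead (rv C)) (ahead (side U τ w)) :=
      compT_chain self_mem_compT h2
    have h5 : capC U κ (ahead (rv C)) ⊆ {x | κ' x = κ' (ahead (rv C))} ∩ U' := by
      intro f hf
      refine ⟨?_, hcap h1 f hf⟩
      exact hκ f (h.cap_notMem h1 hC.2 hf) _ hC.2 (capC_le h1 hf).1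
    exact h4.mono h5

/-! ### The target part of the labels -/

/-- The sides at the target from the labels. -/
theorem LabP.tgR {i₁ j₁ t j₂ i₂ : ℕ} (X : LabP U P κ A τ B s s₀ mP mU kt i₁ j₁ t j₂ i₂) :
    TgR P (side P A (j₁ - 1)) B s₀ (j₂ + 2 - j₁) (t + 1 - j₁) := by
  have h1 := X.ij
  have h2 := X.jt
  have h3 := X.tj
  refine ⟨bd_side X.cyc.bd _, by omega, by omega, ?_, ?_⟩
  · rw [← side_add, show j₁ - 1 + (t + 1 - j₁) = t by omega]
    exact X.tgt
  · intro i hi1 hi2
    have h4 : inF P (side P A (j₁ - 1)) i = inF P A (j₁ - 1 + i) := by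
      unfold inF
      rw [side_add]
    rw [h4]
    exact X.nrB _ (by omega) (by omega)

theorem LabP.end_eq {i₁ j₁ t j₂ i₂ : ℕ} (X : LabP U P κ A τ B s s₀ mP mU kt i₁ j₁ t j₂ i₂) :
    side P (side P A (j₁ - 1)) (j₂ + 2 - j₁) = side P A (j₂ + 1) := by
  have h1 := X.ij
  have h2 := X.jt
  have h3 := X.tj
  rw [← side_add]
  congr 1
  omega

/-- The new contour is longer than the part at the target. -/
theorem LabP.lt {i₁ j₁ t j₂ i₂ : ℕ} (X : LabP U P κ A τ B s s₀ mP mU kt i₁ j₁ t j₂ i₂)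
    (hP' : Cyc P' (side P A (j₁ - 1)) n)
    (hk : ∀ i ≤ j₂ + 2 - j₁, side P' (side P A (j₁ - 1)) i = side P (side P A (j₁ - 1)) i) :
    j₂ + 2 - j₁ < n := by
  have h1 := X.ij
  have h2 := X.jt
  have h3 := X.tj
  have h4 := X.ji
  have h5 := X.im
  have hpos := hP'.pos
  by_contra hcon
  have h6 := hP'.per
  rw [hk n (by omega), ← side_add] at h6
  have := X.cyc.inj _ (by omega) _ (by omega) h6
  omega

/-- The labels with larger radii. -/
theorem LabP.mono {i₁ j₁ t j₂ i₂ : ℕ} {s₀' : ℤ}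
    (X : LabP U P κ A τ B s s₀ mP mU kt i₁ j₁ t j₂ i₂) (h : s ≤ s') (h' : s₀ ≤ s₀') :
    LabP U P κ A τ B s' s₀' mP mU kt i₁ j₁ t j₂ i₂ :=
  ⟨X.cyc, X.ij, X.jt, X.tj, X.ji, X.im, X.tgt, X.b, X.l, fun i hi => sqF_le h (X.nrA i hi),
    fun i h1 h2 => sqF_le h' (X.nrB i h1 h2)⟩

/-! ### A regular stage -/

/-- **The labels after a regular stage.** `U'`, `P'`: the new domains; `A'`: the new tip side at the
entered set `E`; `τ'`: the new true tip side. Sides of `U'` which are sides of `U` have the old label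
(`hlab₁`, `hlab₂`), the tip side may be an old side; the class parts behind the sides at the ends of the
part at the target stay in `U'`. The new tip side and the target side are joined near the target, or
there are new labels. -/
theorem LabP.stepJ {i₁ j₁ t j₂ i₂ : ℕ} (X : LabP U P κ A τ B s s₀ mP mU kt i₁ j₁ t j₂ i₂)
    (hs : κ (outF P A (j₁ - 1)) ≠ κ (outF P A (j₂ + 1))) (h : App U P κ d) (hU : BD U τ)
    (h' : App U' P' κ' d') (hU' : Cyc U' τ' mU') (hP' : Cyc P' A' n) (cP' : Top.EConn P')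
    (hP'P : P' ⊆ P) (hUU : U' ⊆ U) (hk0 : 0 < kt') (hB : ahead B ∈ P')
    (hcl : ∀ f ∈ P', ∀ g ∈ P, f ∈ sqF (s₀ + 1) (ahead B) → g ∈ sqF (s₀ + 1) (ahead B) →
      AdjF f g → g ∈ P')
    (hκ : ∀ x ∉ P, ∀ y ∉ P, (κ' x = κ' y ↔ κ x = κ y))
    (hc₁ : ahead (rv (side P A (j₁ - 1))) ∈ U →
      ∀ f ∈ capC U κ (ahead (rv (side P A (j₁ - 1)))), f ∈ U')
    (hc₂ : ahead (rv (side P A (j₂ + 1))) ∈ U →
      ∀ f ∈ capC U κ (ahead (rv (side P A (j₂ + 1)))), f ∈ U')
    (hlab₁ : ∀ w < kt, ∀ w' < mU', side U' τ' w' = side U τ w → w' < kt')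
    (hlab₂ : ∀ w, kt ≤ w → w < mU → ∀ w' < mU', side U' τ' w' = side U τ w → w' = 0 ∨ kt' ≤ w')
    (hEU : E ⊆ U') (cE : Top.EConn E) (hEκ : ∀ x ∈ E, ∀ y ∈ E, κ' x = κ' y)
    (hτE : ahead τ' ∈ E) (hAE : ahead (rv A') ∈ E) (hs' : d' + 1 ≤ s') :
    (∃ i₁' j₁' t' j₂' i₂', LabP U' P' κ' A' τ' B s' s₀ n mU' kt' i₁' j₁' t' j₂' i₂' ∧
      κ' (outF P' A' (j₁' - 1)) ≠ κ' (outF P' A' (j₂' + 1))) ∨
      ChI (P' ∩ sqF (s₀ + d' + 3) (ahead B)) (ahead B) (ahead A') := by
  have g1 := X.ij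
  have g2 := X.jt
  have g3 := X.tj
  have g4 := X.ji
  have g5 := X.im
  set C := side P A (j₁ - 1) with hC
  have T := X.tgR
  rw [← hC] at T
  obtain ⟨hCb, hkeep⟩ := T.keep hP'P hB hcl
  have T' := T.next hP'P hB hcl
  have hPC : Cyc P' C n := hP'.shift_bd hCb
  have hrn := X.lt hPC fun i hi => (hkeep i hi).1
  have hend : side P' C (j₂ + 2 - j₁) = side P A (j₂ + 1) := by
    rw [(hkeep _ le_rfl).1]
    exact X.end_eq
  have hCO : BD P (side P A (j₂ + 1)) := bd_side X.cyc.bd _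
  have hκ₁ : ∀ x ∉ P, ∀ y ∉ P, κ x = κ y → κ' x = κ' y := fun x hx y hy => (hκ x hx y hy).2
  have hE : ∃ v < kt', LinkK U' κ' C (side U' τ' v) := by
    obtain ⟨w, hw, hl⟩ := X.b (j₁ - 1) (by omega) (by omega)
    obtain ⟨w', hw', hs₁, hl'⟩ := link_keep (κ' := κ') h hU hU' hUU T.bd
      (h'.sub hCb.1) hκ₁ hc₁ hl
    exact ⟨w', hlab₁ w hw w' hw' hs₁, hl'⟩
  have hO : ∃ v, (v = 0 ∨ kt' ≤ v) ∧ v < mU' ∧ LinkK U' κ' (side P' C (j₂ + 2 - j₁)) (side U' τ' v) := by
    obtain ⟨w, hw, hwm, hl⟩ := X.l (j₂ + 1) (by omega) (by omega)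
    have hin : ahead (side P A (j₂ + 1)) ∈ P' := by
      have h1 := (hkeep _ le_rfl).2
      unfold inF at h1
      rwa [X.end_eq] at h1
    obtain ⟨w', hw', hs₁, hl'⟩ := link_keep (κ' := κ') h hU hU' hUU hCO (h'.sub hin) hκ₁ hc₂ hl
    exact ⟨w', hlab₂ w hw hwm w' hw' hs₁, hw', by rw [hend]; exact hl'⟩
  have hsep : κ' (outF P' C 0) ≠ κ' (outF P' C (j₂ + 2 - j₁)) := by
    have e1 : outF P' C 0 = outF P A (j₁ - 1) := rfl
    have e2 : outF P' C (j₂ + 2 - j₁) = outF P A (j₂ + 1) := by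
      unfold outF
      rw [hend]
    rw [e1, e2]
    intro hh
    exact hs ((hκ _ (outF_notMem X.cyc.bd _) _ (outF_notMem X.cyc.bd _)).1 hh)
  have hl : LinkK U' κ' A' (side U' τ' 0) := by
    refine Or.inr ⟨hEU hAE, ?_⟩
    have h1 : ChI E (ahead (rv A')) (ahead τ') := cE _ hAE _ hτE
    have h2 : E ⊆ {x | κ' x = κ' (ahead (rv A'))} ∩ U' := fun f hf => ⟨hEκ f hf _ hAE, hEU hf⟩
    exact h1.mono h2
  exact exists_labP h' hU' cP' hPC T' hrn hE hO hsep hP'.bd (hEU hAE) hl hk0 hs'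

end Pool.Agent.SixB.Mv
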