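import Pool.Agent.Lib.SixB.S8Lay

/-!
# Step 8: magnification of face sets and their contours

`blow m F` (TopEsc): every face of `F` is replaced by a square of `m ^ 2` faces. `subE m A r`: the
piece number `r` (`0 ≤ r < m`) of the directed side `A` of the coarse lattice. The contour of `blow m F`
started at `subE m A 0` is the subdivided contour of `F` started at `A`; components of the magnified set
are the magnified components.
-/

set_option autoImplicit false

namespace Pool.Agent.SixB.Blow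

open Finset Pool.Agent.Perc Pool.Agent.Perc6 Pool.Agent.Perc6.C2Aux Pool.Agent.Perc.Tips
open Pool.Agent.SixB.Top

/-- The coarse face which contains `f`. -/
def cl (m : ℤ) (f : ℤ × ℤ) : ℤ × ℤ := (f.1 / m, f.2 / m)

theorem mem_blow {m : ℤ} {F : Set (ℤ × ℤ)} {f : ℤ × ℤ} : f ∈ blow m F ↔ cl m f ∈ F := Iff.rfl

/-- The piece number `r` of a directed side. -/
def subE (m : ℤ) : UE × Bool → ℤ → UE × Bool
  | ((x, y, false), true), r => ((m * x + r, m * y, false), true)
  | ((x, y, true), true), r => ((m * x, m * y + (m - 1 - r), true), true)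
  | ((x, y, false), false), r => ((m * x + (m - 1 - r), m * y, false), false)
  | ((x, y, true), false), r => ((m * x, m * y + r, true), false)

theorem lf_subE_zero (m : ℤ) (A : UE × Bool) : lf (subE m A 0) = (m * (lf A).1, m * (lf A).2) := by
  obtain ⟨⟨x, y, _ | _⟩, _ | _⟩ := A <;> simp only [subE, lf, Prod.mk.injEq] <;>
    refine ⟨?_, ?_⟩ <;> first | trivial | ring

theorem rg_subE_last (m : ℤ) (A : UE × Bool) :
    rg (subE m A (m - 1)) = (m * (rg A).1, m * (rg A).2) := by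
  obtain ⟨⟨x, y, _ | _⟩, _ | _⟩ := A <;> simp only [subE, rg, Prod.mk.injEq] <;>
    refine ⟨?_, ?_⟩ <;> first | trivial | ring

/-- The left ends of the pieces divide the side. -/
theorem lf_subE (m : ℤ) (A : UE × Bool) (r : ℤ) : lf (subE m A r) =
    (m * (lf A).1 + r * ((rg A).1 - (lf A).1), m * (lf A).2 + r * ((rg A).2 - (lf A).2)) := by
  obtain ⟨⟨x, y, _ | _⟩, _ | _⟩ := A <;> simp only [subE, rg, lf, Prod.mk.injEq] <;>
    refine ⟨?_, ?_⟩ <;> first | trivial | ring

theorem rg_subE (m : ℤ) (A : UE × Bool) (r : ℤ) : rg (subE m A r) = lf (subE m A (r + 1)) := by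
  obtain ⟨⟨x, y, _ | _⟩, _ | _⟩ := A <;> simp only [subE, rg, lf, Prod.mk.injEq] <;>
    refine ⟨?_, ?_⟩ <;> first | trivial | ring

theorem rv_subE (m : ℤ) (A : UE × Bool) (r : ℤ) : rv (subE m A r) = subE m (rv A) (m - 1 - r) := by
  obtain ⟨⟨x, y, _ | _⟩, _ | _⟩ := A <;>
    simp only [subE, rv, Bool.not_true, Bool.not_false, Prod.mk.injEq, and_true, true_and] <;> ring

theorem rtn_subE_last (m : ℤ) (A : UE × Bool) :
    rtn (subE m A (m - 1)) = subE m (rtn A) (m - 1) := by
  obtain ⟨⟨x, y, _ | _⟩, _ | _⟩ := A <;>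
    simp only [subE, rtn, Prod.mk.injEq] <;>
    refine ⟨⟨?_, ?_, ?_⟩, ?_⟩ <;> first | trivial | ring

theorem rtn_rtn_subE (m : ℤ) (A : UE × Bool) (r : ℤ) :
    rv (rtn (rtn (subE m A r))) = subE m A (r + 1) := by
  obtain ⟨⟨x, y, _ | _⟩, _ | _⟩ := A <;>
    simp only [subE, rtn, rv, Bool.not_true, Bool.not_false, Prod.mk.injEq, and_true, true_and] <;>
    first
      | (refine ⟨?_, ?_⟩ <;> ring)
      | ring

variable {m : ℤ}

theorem ediv_aux (hm : 0 < m) {a r : ℤ} (h0 : 0 ≤ r) (h1 : r < m) : (m * a + r) / m = a := by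
  rw [Int.add_ediv_of_dvd_left (Dvd.intro _ rfl), Int.mul_ediv_cancel_left _ hm.ne',
    Int.ediv_eq_zero_of_lt h0 h1, add_zero]

theorem ediv_aux' (hm : 0 < m) {x a : ℤ} (h0 : m * a ≤ x) (h1 : x < m * a + m) : x / m = a := by
  have := ediv_aux hm (a := a) (r := x - m * a) (by omega) (by omega)
  rwa [show m * a + (x - m * a) = x by ring] at this

/-- The face ahead of a piece is in the coarse face ahead. -/
theorem cl_ahead (hm : 0 < m) (A : UE × Bool) {r : ℤ} (h0 : 0 ≤ r) (h1 : r < m) :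
    cl m (ahead (subE m A r)) = ahead A := by
  obtain ⟨⟨x, y, _ | _⟩, _ | _⟩ := A <;> simp only [subE, ahead, cl, Prod.mk.injEq] <;> constructor <;>
    refine ediv_aux' hm ?_ ?_ <;> nlinarith

theorem cl_ahead_rv (hm : 0 < m) (A : UE × Bool) {r : ℤ} (h0 : 0 ≤ r) (h1 : r < m) :
    cl m (ahead (rv (subE m A r))) = ahead (rv A) := by
  rw [rv_subE]
  exact cl_ahead hm (rv A) (by omega) (by omega)

/-- In the middle of a side the next face is in the same coarse face. -/
theorem cl_ahead_rtn (hm : 0 < m) (A : UE × Bool) {r : ℤ} (h0 : 0 ≤ r) (h1 : r + 1 < m) :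
    cl m (ahead (rtn (subE m A r))) = ahead A := by
  obtain ⟨⟨x, y, _ | _⟩, _ | _⟩ := A <;> simp only [subE, rtn, ahead, cl, Prod.mk.injEq] <;>
    constructor <;> refine ediv_aux' hm ?_ ?_ <;> nlinarith

theorem cl_ahead_rtn_two (hm : 0 < m) (A : UE × Bool) {r : ℤ} (h0 : 0 ≤ r) (h1 : r + 1 < m) :
    cl m (ahead (rtn (rtn (subE m A r)))) = ahead (rv A) := by
  have h := rtn_rtn_subE m A r
  have h2 : rtn (rtn (subE m A r)) = rv (subE m A (r + 1)) := by rw [← h, rv_rv]
  rw [h2]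
  exact cl_ahead_rv hm A (by omega) (by omega)

/-! ### Boundary sides and the successor -/

variable {F : Set (ℤ × ℤ)} {A : UE × Bool}

theorem bd_subE (hm : 0 < m) (hA : BD F A) {r : ℤ} (h0 : 0 ≤ r) (h1 : r < m) :
    BD (blow m F) (subE m A r) := by
  refine ⟨?_, ?_⟩
  · rw [mem_blow, cl_ahead hm A h0 h1]; exact hA.1
  · rw [mem_blow, cl_ahead_rv hm A h0 h1]; exact hA.2

theorem bd_subE_iff (hm : 0 < m) {r : ℤ} (h0 : 0 ≤ r) (h1 : r < m) :
    BD (blow m F) (subE m A r) ↔ BD F A := by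
  unfold BD
  rw [mem_blow, mem_blow, cl_ahead hm A h0 h1, cl_ahead_rv hm A h0 h1]

theorem sc_subE (hm : 0 < m) (hA : BD F A) {r : ℤ} (h0 : 0 ≤ r) (h1 : r + 1 < m) :
    sc (blow m F) (subE m A r) = subE m A (r + 1) := by
  rw [sc_straight, rtn_rtn_subE]
  · rw [mem_blow, cl_ahead_rtn hm A h0 h1]; exact hA.1
  · rw [mem_blow, cl_ahead_rtn_two hm A h0 h1]; exact hA.2

theorem sc_subE_last (hm : 0 < m) (A : UE × Bool) :
    sc (blow m F) (subE m A (m - 1)) = subE m (sc F A) 0 := by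
  have e1 : cl m (ahead (rtn (subE m A (m - 1)))) = ahead (rtn A) := by
    rw [rtn_subE_last]; exact cl_ahead hm _ (by omega) (by omega)
  have e2 : cl m (ahead (rtn (rtn (subE m A (m - 1))))) = ahead (rtn (rtn A)) := by
    rw [rtn_subE_last, rtn_subE_last]; exact cl_ahead hm _ (by omega) (by omega)
  by_cases h1 : ahead (rtn A) ∈ F
  · by_cases h2 : ahead (rtn (rtn A)) ∈ F
    · rw [sc_right h1 h2, sc_right (by rw [mem_blow, e1]; exact h1) (by rw [mem_blow, e2]; exact h2),
        rtn_subE_last, rtn_subE_last, rtn_subE_last, rv_subE]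
      congr 1; ring
    · rw [sc_straight h1 h2, sc_straight (by rw [mem_blow, e1]; exact h1)
        (by rw [mem_blow, e2]; exact h2), rtn_subE_last, rtn_subE_last, rv_subE]
      congr 1; ring
  · rw [sc_left h1, sc_left (by rw [mem_blow, e1]; exact h1), rtn_subE_last, rv_subE]
    congr 1; ring

theorem BD.iter (hA : BD F A) (i : ℕ) : BD F ((sc F)^[i] A) := by
  induction i with
  | zero => exact hA
  | succ i ih => rw [Function.iterate_succ_apply']; exact ih.step

theorem iter_subE_aux {m : ℕ} (hm : 0 < m) (hA : BD F A) : ∀ r : ℕ, r < m →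
    (sc (blow m F))^[r] (subE m A 0) = subE m A r := by
  intro r
  induction r with
  | zero => intro _; rfl
  | succ r ih =>
    intro hr
    rw [Function.iterate_succ_apply', ih (by omega), sc_subE (by omega) hA (by omega) (by omega)]
    push_cast
    rfl

/-- **The contour of the magnified set**: the steps of the subdivided contour. -/
theorem iter_subE {m : ℕ} (hm : 0 < m) (hA : BD F A) (i r : ℕ) (hr : r < m) :
    (sc (blow m F))^[m * i + r] (subE m A 0) = subE m ((sc F)^[i] A) r := by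
  induction i generalizing r with
  | zero => rw [Nat.mul_zero, Nat.zero_add]; exact iter_subE_aux hm hA r hr
  | succ i ih =>
    have e : m * (i + 1) + r = r + (1 + (m * i + (m - 1))) := by
      have : m * (i + 1) = m * i + m := by ring
      omega
    have h1 : (sc (blow m F))^[1 + (m * i + (m - 1))] (subE m A 0) = subE m ((sc F)^[i + 1] A) 0 := by
      rw [Function.iterate_add_apply, ih (m - 1) (by omega)]
      rw [Function.iterate_one, Function.iterate_succ_apply']
      have : ((m - 1 : ℕ) : ℤ) = (m : ℤ) - 1 := by omega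
      rw [this]
      exact sc_subE_last (by omega) _
    rw [e, Function.iterate_add_apply, h1]
    exact iter_subE_aux hm (BD.iter hA _) r hr

/-- Period of the contour. -/
theorem iter_subE_period {m : ℕ} (hm : 0 < m) (hA : BD F A) {k : ℕ} (hk : (sc F)^[k] A = A) :
    (sc (blow m F))^[m * k] (subE m A 0) = subE m A 0 := by
  have := iter_subE hm hA k 0 hm
  rw [hk] at this
  simpa using this

theorem subE_inj (hm : 0 < m) {A B : UE × Bool} {r s : ℤ} (h0 : 0 ≤ r) (h1 : r < m) (h2 : 0 ≤ s)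
    (h3 : s < m) (h : subE m A r = subE m B s) : A = B ∧ r = s := by
  have key : ∀ a b : ℤ, ∀ p q : ℤ, 0 ≤ p → p < m → 0 ≤ q → q < m → m * a + p = m * b + q →
      a = b ∧ p = q := by
    intro a b p q hp hp' hq hq' he
    have h1 := ediv_aux hm (a := a) hp hp'
    have h2 := ediv_aux hm (a := b) hq hq'
    rw [he, h2] at h1
    subst h1
    exact ⟨rfl, by omega⟩
  obtain ⟨⟨x, y, _ | _⟩, _ | _⟩ := A <;> obtain ⟨⟨x', y', _ | _⟩, _ | _⟩ := B <;>
    simp only [subE, Prod.mk.injEq, Bool.false_eq_true, Bool.true_eq_false, and_false, and_true] at h ⊢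
  · obtain ⟨e1, e2⟩ := h
    obtain ⟨f1, f2⟩ := key x x' _ _ (by omega) (by omega) (by omega) (by omega) e1
    obtain ⟨g1, -⟩ := key y y' 0 0 (by omega) (by omega) (by omega) (by omega) (by omega)
    exact ⟨⟨f1, g1⟩, by omega⟩
  · obtain ⟨e1, e2⟩ := h
    obtain ⟨f1, f2⟩ := key x x' _ _ (by omega) (by omega) (by omega) (by omega) e1
    obtain ⟨g1, -⟩ := key y y' 0 0 (by omega) (by omega) (by omega) (by omega) (by omega)
    exact ⟨⟨f1, g1⟩, by omega⟩
  · obtain ⟨e1, e2⟩ := h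
    obtain ⟨f1, f2⟩ := key y y' _ _ (by omega) (by omega) (by omega) (by omega) e2
    obtain ⟨g1, -⟩ := key x x' 0 0 (by omega) (by omega) (by omega) (by omega) (by omega)
    exact ⟨⟨g1, f1⟩, by omega⟩
  · obtain ⟨e1, e2⟩ := h
    obtain ⟨f1, f2⟩ := key y y' _ _ (by omega) (by omega) (by omega) (by omega) e2
    obtain ⟨g1, -⟩ := key x x' 0 0 (by omega) (by omega) (by omega) (by omega) (by omega)
    exact ⟨⟨g1, f1⟩, by omega⟩

/-- Every boundary side of the magnified set is a piece of a boundary side. -/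
theorem exists_subE (hm : 0 < m) {B : UE × Bool} (hB : BD (blow m F) B) :
    ∃ A r, 0 ≤ r ∧ r < m ∧ BD F A ∧ B = subE m A r := by
  obtain ⟨h1, h2⟩ := hB
  rw [mem_blow] at h1 h2
  have hcell : cl m (ahead B) ≠ cl m (ahead (rv B)) := fun h => h2 (h ▸ h1)
  have nm : ∀ a : ℤ, (a - 1) / m = a / m ∨ a = m * (a / m) := by
    intro a
    have e1 := Int.mul_ediv_add_emod a m
    have e2 := Int.emod_nonneg a hm.ne'
    have e3 := Int.emod_lt_of_pos a hm
    by_cases h : a % m = 0
    · right; omega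
    · left
      exact ediv_aux' hm (by omega) (by omega)
  have mod_spec : ∀ a : ℤ, ∃ q r : ℤ, 0 ≤ r ∧ r < m ∧ a = m * q + r := by
    intro a
    exact ⟨a / m, a % m, Int.emod_nonneg a hm.ne', Int.emod_lt_of_pos a hm,
      (Int.mul_ediv_add_emod a m).symm⟩
  have fin : ∀ A : UE × Bool, ∀ r : ℤ, 0 ≤ r → r < m → B = subE m A r →
      ∃ A r, 0 ≤ r ∧ r < m ∧ BD F A ∧ B = subE m A r := by
    intro A r h0 h3 he
    refine ⟨A, r, h0, h3, ?_, he⟩
    rw [← bd_subE_iff hm h0 h3, ← he]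
    exact ⟨h1, h2⟩
  obtain ⟨⟨x, y, _ | _⟩, _ | _⟩ := B <;> simp only [rv, ahead, cl, Bool.not_false, Bool.not_true,
    ne_eq, Prod.mk.injEq, not_and, true_and] at hcell
  · obtain ⟨q, r, h0, h3, e⟩ := mod_spec x
    rcases nm y with h | h
    · exact absurd h hcell
    · exact fin ((q, y / m, false), false) (m - 1 - r) (by omega) (by omega)
        (by simp only [subE, Prod.mk.injEq, and_true]; exact ⟨by rw [e]; ring, h⟩)
  · obtain ⟨q, r, h0, h3, e⟩ := mod_spec x
    rcases nm y with h | h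
    · exact absurd h.symm hcell
    · exact fin ((q, y / m, false), true) r (by omega) (by omega)
        (by simp only [subE, Prod.mk.injEq, and_true]; exact ⟨e, h⟩)
  · obtain ⟨q, r, h0, h3, e⟩ := mod_spec y
    rcases nm x with h | h
    · exact absurd trivial (hcell h)
    · exact fin ((x / m, q, true), false) r (by omega) (by omega)
        (by simp only [subE, Prod.mk.injEq, and_true]; exact ⟨h, e⟩)
  · obtain ⟨q, r, h0, h3, e⟩ := mod_spec y
    rcases nm x with h | h
    · exact absurd trivial (hcell h.symm)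
    · exact fin ((x / m, q, true), true) (m - 1 - r) (by omega) (by omega)
        (by simp only [subE, Prod.mk.injEq, and_true]; exact ⟨h, by rw [e]; ring⟩)

/-- The contour of the magnified set, all indices. -/
theorem iter_subE' {m : ℕ} (hm : 0 < m) (hA : BD F A) (j : ℕ) :
    (sc (blow m F))^[j] (subE m A 0) = subE m ((sc F)^[j / m] A) ((j % m : ℕ) : ℤ) := by
  have := iter_subE hm hA (j / m) (j % m) (Nat.mod_lt _ hm)
  rwa [Nat.div_add_mod] at this

/-- The faces ahead along the contour of the magnified set. -/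
theorem cl_ahead_iter {m : ℕ} (hm : 0 < m) (hA : BD F A) (j : ℕ) :
    cl m (ahead ((sc (blow m F))^[j] (subE m A 0))) = ahead ((sc F)^[j / m] A) := by
  rw [iter_subE' hm hA]
  exact cl_ahead (by omega) _ (by omega) (by exact_mod_cast Nat.mod_lt _ hm)

theorem cl_ahead_rv_iter {m : ℕ} (hm : 0 < m) (hA : BD F A) (j : ℕ) :
    cl m (ahead (rv ((sc (blow m F))^[j] (subE m A 0)))) = ahead (rv ((sc F)^[j / m] A)) := by
  rw [iter_subE' hm hA]
  exact cl_ahead_rv (by omega) _ (by omega) (by exact_mod_cast Nat.mod_lt _ hm)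

/-- The vertices of the contour of the magnified set. -/
theorem lf_iter {m : ℕ} (hm : 0 < m) (hA : BD F A) (j : ℕ) :
    lf ((sc (blow m F))^[j] (subE m A 0)) =
      (m * (lf ((sc F)^[j / m] A)).1 +
          ((j % m : ℕ) : ℤ) * ((rg ((sc F)^[j / m] A)).1 - (lf ((sc F)^[j / m] A)).1),
        m * (lf ((sc F)^[j / m] A)).2 +
          ((j % m : ℕ) : ℤ) * ((rg ((sc F)^[j / m] A)).2 - (lf ((sc F)^[j / m] A)).2)) := by
  rw [iter_subE' hm hA, lf_subE]

theorem lf_iter_mul {m : ℕ} (hm : 0 < m) (hA : BD F A) (i : ℕ) :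
    lf ((sc (blow m F))^[m * i] (subE m A 0)) =
      (m * (lf ((sc F)^[i] A)).1, m * (lf ((sc F)^[i] A)).2) := by
  have := iter_subE hm hA i 0 hm
  rw [Nat.add_zero] at this
  rw [this]
  exact lf_subE_zero _ _

/-- The indices of the pieces of an index interval. -/
theorem div_mem_iff {m : ℕ} (hm : 0 < m) {p q j : ℕ} :
    (m * p ≤ j ∧ j < m * (q + 1)) ↔ (p ≤ j / m ∧ j / m ≤ q) := by
  constructor
  · rintro ⟨h1, h2⟩
    refine ⟨?_, ?_⟩
    · rw [Nat.le_div_iff_mul_le hm, Nat.mul_comm]; exact h1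
    · have : j / m < q + 1 := by rw [Nat.div_lt_iff_lt_mul hm, Nat.mul_comm]; exact h2
      omega
  · rintro ⟨h1, h2⟩
    refine ⟨?_, ?_⟩
    · rw [Nat.le_div_iff_mul_le hm, Nat.mul_comm] at h1; exact h1
    · have : j / m < q + 1 := by omega
      rw [Nat.div_lt_iff_lt_mul hm, Nat.mul_comm] at this; exact this

/-! ### Set operations -/

theorem blow_inter (m : ℤ) (F G : Set (ℤ × ℤ)) : blow m (F ∩ G) = blow m F ∩ blow m G := rfl

theorem blow_union (m : ℤ) (F G : Set (ℤ × ℤ)) : blow m (F ∪ G) = blow m F ∪ blow m G := rfl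

theorem blow_sdiff (m : ℤ) (F G : Set (ℤ × ℤ)) : blow m (F \ G) = blow m F \ blow m G := rfl

theorem blow_compl (m : ℤ) (F : Set (ℤ × ℤ)) : blow m Fᶜ = (blow m F)ᶜ := rfl

theorem blow_subset {G : Set (ℤ × ℤ)} (h : F ⊆ G) : blow m F ⊆ blow m G := fun _ hf => h hf

theorem blow_iUnion (m : ℤ) {ι : Sort*} (G : ι → Set (ℤ × ℤ)) :
    blow m (⋃ i, G i) = ⋃ i, blow m (G i) := by
  ext f
  simp only [Set.mem_iUnion, mem_blow]

/-- Every coarse face contains fine faces. -/
theorem exists_cl (hm : 0 < m) (c : ℤ × ℤ) : ∃ f, cl m f = c :=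
  ⟨(m * c.1, m * c.2), by
    unfold cl
    simp only [Int.mul_ediv_cancel_left _ hm.ne']⟩

theorem blow_subset_iff (hm : 0 < m) {G : Set (ℤ × ℤ)} : blow m F ⊆ blow m G ↔ F ⊆ G := by
  refine ⟨fun h c hc => ?_, blow_subset⟩
  obtain ⟨f, rfl⟩ := exists_cl hm c
  exact h hc

theorem blow_inj (hm : 0 < m) {G : Set (ℤ × ℤ)} (h : blow m F = blow m G) : F = G :=
  Set.Subset.antisymm ((blow_subset_iff hm).1 h.subset) ((blow_subset_iff hm).1 h.symm.subset)

theorem cl_eq_iff (hm : 0 < m) {f c : ℤ × ℤ} : cl m f = c ↔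
    m * c.1 ≤ f.1 ∧ f.1 < m * c.1 + m ∧ m * c.2 ≤ f.2 ∧ f.2 < m * c.2 + m := by
  obtain ⟨x, y⟩ := f
  obtain ⟨a, b⟩ := c
  simp only [cl, Prod.mk.injEq]
  constructor
  · rintro ⟨rfl, rfl⟩
    have e1 := Int.mul_ediv_add_emod x m
    have e2 := Int.emod_nonneg x hm.ne'
    have e3 := Int.emod_lt_of_pos x hm
    have g1 := Int.mul_ediv_add_emod y m
    have g2 := Int.emod_nonneg y hm.ne'
    have g3 := Int.emod_lt_of_pos y hm
    omega
  · rintro ⟨h1, h2, h3, h4⟩
    exact ⟨ediv_aux' hm h1 h2, ediv_aux' hm h3 h4⟩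

theorem blow_finite (hm : 0 < m) (hF : F.Finite) : (blow m F).Finite := by
  obtain ⟨x₀, x₁, y₀, y₁, hb⟩ := exists_RF hF
  refine (RF (m * x₀) (m * x₁) (m * y₀) (m * y₁)).finite_toSet.subset ?_
  intro f hf
  have h1 := hb _ hf
  rw [mem_RFi] at h1
  obtain ⟨h2, h3, h4, h5⟩ := h1
  obtain ⟨g1, g2, g3, g4⟩ := (cl_eq_iff hm (f := f)).1 rfl
  rw [mem_coe, mem_RFi]
  simp only [cl] at h2 h3 h4 h5 g1 g2 g3 g4
  refine ⟨?_, ?_, ?_, ?_⟩ <;> nlinarith

/-! ### Chains and components -/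

theorem chI_iff {S : Set (ℤ × ℤ)} {f g : ℤ × ℤ} :
    ChI S f g ↔ Relation.ReflTransGen (StepC Sᶜ) f g := by
  have : StepC Sᶜ = fun a b => AdjF a b ∧ b ∈ S := by
    funext a b
    simp only [StepC, Set.mem_compl_iff, not_not]
  unfold ChI
  rw [this]

/-- Two faces of one coarse face. -/
theorem chI_cell (hm : 0 < m) {f g : ℤ × ℤ} (hf : cl m f ∈ F) (h : cl m f = cl m g) :
    ChI (blow m F) f g := by
  rw [chI_iff, ← blow_compl]
  unfold cl at h
  rw [Prod.mk.injEq] at h
  exact cell_chain hm (F := Fᶜ) (fun h' => h' hf) h.1 h.2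

theorem adj_cl (hm : 0 < m) {f g : ℤ × ℤ} (h : AdjF f g) :
    cl m f = cl m g ∨ AdjF (cl m f) (cl m g) := by
  have dv : ∀ a : ℤ, (a + 1) / m = a / m ∨ (a + 1) / m = a / m + 1 := by
    intro a
    have e1 := Int.mul_ediv_add_emod a m
    have e2 := Int.emod_nonneg a hm.ne'
    have e3 := Int.emod_lt_of_pos a hm
    by_cases h : a % m = m - 1
    · right
      refine ediv_aux' hm ?_ ?_ <;> nlinarith
    · left
      exact ediv_aux' hm (by omega) (by omega)
  have dv' : ∀ a : ℤ, (a - 1) / m = a / m ∨ (a - 1) / m = a / m - 1 := by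
    intro a
    rcases dv (a - 1) with h | h
    · left; rw [← h]; congr 1; ring
    · right; rw [show a - 1 + 1 = a by ring] at h; omega
  obtain ⟨x, y⟩ := f
  obtain ⟨u, v⟩ := g
  unfold cl
  rw [adjF_iff]
  rcases adjF_iff.mp h with h | h | h | h <;> rw [Prod.mk.injEq] at h <;> obtain ⟨rfl, rfl⟩ := h <;>
    simp only [Prod.mk.injEq, and_true, true_and]
  · rcases dv x with h | h
    · left; exact h.symm
    · right; left; exact h
  · rcases dv' x with h | h
    · left; exact h.symm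
    · right; right; left; exact h
  · rcases dv y with h | h
    · left; exact h.symm
    · right; right; right; left; exact h
  · rcases dv' y with h | h
    · left; exact h.symm
    · right; right; right; right; exact h

theorem chI_cl (hm : 0 < m) {f g : ℤ × ℤ} (h : ChI (blow m F) f g) : ChI F (cl m f) (cl m g) := by
  induction h with
  | refl => exact ChI.refl _
  | @tail b c _ hs ih =>
    rcases adj_cl hm hs.1 with h | h
    · rw [← h]; exact ih
    · exact ih.trans (ChI.single h hs.2)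

theorem chI_blow (hm : 0 < m) {f g : ℤ × ℤ} (hf : cl m f ∈ F) (h : ChI F (cl m f) (cl m g)) :
    ChI (blow m F) f g := by
  have h' := chI_iff.1 h
  obtain ⟨g', h1, h2, h3⟩ := blow_chain hm (F := Fᶜ) (c := cl m f) (fun h' => h' hf) h' f rfl rfl
  have h4 : ChI (blow m F) f g' := by rw [chI_iff, ← blow_compl]; exact h3
  have e : cl m g' = cl m g := Prod.ext h1 h2
  have h5 : cl m g' ∈ F := by rw [e]; exact ChI.mem hf h
  exact h4.trans (chI_cell hm h5 e)

theorem chI_blow_iff (hm : 0 < m) {f g : ℤ × ℤ} (hf : cl m f ∈ F) :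
    ChI (blow m F) f g ↔ ChI F (cl m f) (cl m g) := ⟨chI_cl hm, chI_blow hm hf⟩

/-- **Components of the magnified set.** -/
theorem compT_blow (hm : 0 < m) {f : ℤ × ℤ} (hf : cl m f ∈ F) :
    compT (blow m F) f = blow m (compT F (cl m f)) := by
  ext g
  exact chI_blow_iff hm hf

theorem econn_blow (hm : 0 < m) (hF : EConn F) : EConn (blow m F) := fun _ hf _ hg =>
  chI_blow hm hf (hF _ hf _ hg)

theorem econn_blow_iff (hm : 0 < m) : EConn (blow m F) ↔ EConn F := by
  refine ⟨fun h c hc d hd => ?_, econn_blow hm⟩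
  obtain ⟨f, rfl⟩ := exists_cl hm c
  obtain ⟨g, rfl⟩ := exists_cl hm d
  exact chI_cl hm (h f hc g hd)

/-- Side neighbours in the coarse lattice are represented by side neighbours. -/
theorem exists_adj_cl (hm : 0 < m) {c d : ℤ × ℤ} (h : AdjF c d) :
    ∃ f g, cl m f = c ∧ cl m g = d ∧ AdjF f g := by
  have key : ∀ x : ℤ × ℤ, ∀ f : ℤ × ℤ, m * x.1 ≤ f.1 → f.1 < m * x.1 + m → m * x.2 ≤ f.2 →
    f.2 < m * x.2 + m → cl m f = x := fun x f h1 h2 h3 h4 => (cl_eq_iff hm).2 ⟨h1, h2, h3, h4⟩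
  rcases adjF_iff.mp h with rfl | rfl | rfl | rfl
  · refine ⟨(m * c.1 + (m - 1), m * c.2), (m * c.1 + (m - 1) + 1, m * c.2), key _ _ ?_ ?_ ?_ ?_,
      key _ _ ?_ ?_ ?_ ?_, adjF_right _ _⟩ <;> simp only <;> nlinarith
  · refine ⟨(m * c.1, m * c.2), (m * c.1 - 1, m * c.2), key _ _ ?_ ?_ ?_ ?_,
      key _ _ ?_ ?_ ?_ ?_, adjF_left _ _⟩ <;> simp only <;> nlinarith
  · refine ⟨(m * c.1, m * c.2 + (m - 1)), (m * c.1, m * c.2 + (m - 1) + 1), key _ _ ?_ ?_ ?_ ?_,
      key _ _ ?_ ?_ ?_ ?_, adjF_up _ _⟩ <;> simp only <;> nlinarith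
  · refine ⟨(m * c.1, m * c.2), (m * c.1, m * c.2 - 1), key _ _ ?_ ?_ ?_ ?_,
      key _ _ ?_ ?_ ?_ ?_, adjF_down _ _⟩ <;> simp only <;> nlinarith

end Pool.Agent.SixB.Blow
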