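import Pool.Agent.Lib.SixB.S8LemCa

/-!
# Lemma C, deterministic part

`Apr`: the face set `P` approximates `U` from inside; both have a contour with four arcs, and the sides
of `P` are joined to the sides of the same arc of `U` by short chains of faces of `U` outside of `P`.
-/

set_option autoImplicit false

namespace Pool.Agent.SixB.LC

open Finset Pool.Agent.Perc Pool.Agent.Perc6 Pool.Agent.PercT

/-- The number of the arc of the side `i` of a contour with cuts `0, k1, k2, k3`. -/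
def lab (k1 k2 k3 i : ℕ) : ℕ := if i < k1 then 0 else if i < k2 then 1 else if i < k3 then 2 else 3

/-- A vertex of parity `c` of the arc `[a0, a1]` is joined in `F` to a vertex of the arc `[b0, b1]`. -/
def XA (c : ℤ) (F : Set (ℤ × ℤ)) (w : ℕ → ℤ × ℤ) (a0 a1 b0 b1 : ℕ) : Set Cfg :=
  {ω | ∃ i k, a0 ≤ i ∧ i ≤ a1 ∧ b0 ≤ k ∧ k ≤ b1 ∧ par (w i) = c ∧ Conn ω F (w i) (w k)}

/-- `P` approximates `U` from inside. The arcs of `U` are `[0, k1], [k1, k2], [k2, k3], [k3, m]`, those of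
`P` are `[0, l1], [l1, l2], [l2, l3], [l3, m']`. Every side `i` of `P` is a side of the same arc of `U`
or is joined to a side of the same arc of `U` by the chain `σ i` of faces of `U` outside of `P`, which
stays in the box of radius `d` around `w' i`; chains of different arcs are disjoint. -/
structure Apr (U P : Finset (ℤ × ℤ)) (m : ℕ) (w : ℕ → ℤ × ℤ) (k1 k2 k3 : ℕ) (m' : ℕ)
    (w' : ℕ → ℤ × ℤ) (l1 l2 l3 : ℕ) (d : ℤ) (σ : ℕ → Set (ℤ × ℤ)) : Prop where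
  sub : P ⊆ U
  ctU : Ctr (U : Set (ℤ × ℤ)) m w
  ctP : Ctr (P : Set (ℤ × ℤ)) m' w'
  k12 : k1 ≤ k2
  k23 : k2 ≤ k3
  k3m : k3 ≤ m
  l01 : 0 < l1
  l12 : l1 < l2
  l23 : l2 < l3
  l3m : l3 < m'
  d1 : 1 ≤ d
  out : ∀ i < m', ∀ f ∈ σ i, f ∈ U ∧ f ∉ P
  near : ∀ i < m', ∀ f ∈ σ i, f ∈ RFb (w' i) d
  con : ∀ i < m', ∀ f ∈ σ i, ∀ g ∈ σ i, Chn (σ i) f g
  fin : ∀ i < m', (∃ l < m, lab k1 k2 k3 l = lab l1 l2 l3 i ∧
      ∃ e, Joins e (w' i) (w' (i + 1)) ∧ Joins e (w l) (w (l + 1)) ∧ σ i = ∅) ∨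
    ∃ l < m, lab k1 k2 k3 l = lab l1 l2 l3 i ∧
      (∃ f ∈ σ i, ∃ e, IsSide f e ∧ Joins e (w' i) (w' (i + 1))) ∧
      ∃ f ∈ σ i, ∃ e, IsSide f e ∧ Joins e (w l) (w (l + 1))
  disj : ∀ i < m', ∀ l < m', lab l1 l2 l3 i ≠ lab l1 l2 l3 l → ∀ f ∈ σ i, f ∉ σ l

theorem side_cor {f : ℤ × ℤ} {e : UE} {u v : ℤ × ℤ} (h : IsSide f e) (hj : Joins e u v) :
    IsCor f u ∧ IsCor f v := by
  obtain ⟨f1, f2⟩ := f
  rcases h with rfl | rfl | rfl | rfl <;> rcases hj with ⟨rfl, rfl⟩ | ⟨rfl, rfl⟩ <;>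
    simp [IsCor, ua, ub, bo, le', to', ri]

theorem joins_two {e : UE} {u v u' v' : ℤ × ℤ} (h : Joins e u v) (h' : Joins e u' v') :
    (u = u' ∧ v = v') ∨ (u = v' ∧ v = u') := by
  rcases h with ⟨rfl, rfl⟩ | ⟨rfl, rfl⟩ <;> rcases h' with ⟨rfl, rfl⟩ | ⟨rfl, rfl⟩ <;> simp

theorem joins_near {e : UE} {u v : ℤ × ℤ} (h : Joins e u v) : InB u 1 v := by
  obtain ⟨x, y, b⟩ := e
  rcases h with ⟨rfl, rfl⟩ | ⟨rfl, rfl⟩ <;> cases b <;>
    simp only [InB, ua, ub, Bool.false_eq_true, if_true, if_false] <;> omega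

/-! ### Arcs -/

theorem lab0 {k1 k2 k3 l a : ℕ} (h : lab k1 k2 k3 l = 0) (ha : a = l ∨ a = l + 1) : a ≤ k1 := by
  unfold lab at h
  split_ifs at h <;> omega

theorem lab1 {k1 k2 k3 l a : ℕ} (h : lab k1 k2 k3 l = 1) (ha : a = l ∨ a = l + 1) :
    k1 ≤ a ∧ a ≤ k2 := by
  unfold lab at h
  split_ifs at h <;> omega

theorem lab2 {k1 k2 k3 l a : ℕ} (h : lab k1 k2 k3 l = 2) (ha : a = l ∨ a = l + 1) :
    k2 ≤ a ∧ a ≤ k3 := by
  unfold lab at h
  split_ifs at h <;> omega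

theorem lab3 {k1 k2 k3 l a m : ℕ} (h : lab k1 k2 k3 l = 3) (hl : l < m) (ha : a = l ∨ a = l + 1) :
    k3 ≤ a ∧ a ≤ m := by
  unfold lab at h
  split_ifs at h <;> omega

/-- Connections of different colours between opposite arcs are impossible. -/
theorem arcs_nc {U : Finset (ℤ × ℤ)} {m : ℕ} {w : ℕ → ℤ × ℤ} {k1 k2 k3 : ℕ} {ω : Cfg} {c : ℤ}
    (h : Ctr (U : Set (ℤ × ℤ)) m w) {a0 b a2 b' : ℕ} (h0 : a0 ≤ k1) (h1 : k1 ≤ b) (h1' : b ≤ k2)
    (h2 : k2 ≤ a2) (h2' : a2 ≤ k3) (h3 : k3 ≤ b') (h3' : b' ≤ m) (hp0 : par (w a0) = c)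
    (hpb : par (w b) ≠ c) (ha : Conn ω U (w a0) (w a2)) (hb : Conn ω U (w b) (w b')) : False := by
  have e1 := ha.par_eq
  have e2 := hb.par_eq
  have n1 : a0 ≠ b := by rintro rfl; exact hpb hp0
  have n2 : b ≠ a2 := by rintro rfl; rw [← e1] at hpb; exact hpb hp0
  have n3 : a2 ≠ b' := by rintro rfl; rw [e2, ← e1] at hpb; exact hpb hp0
  exact ctr_nc h ω (t := a0) (b := b) (a := a2) (b' := b') (by omega) (by omega) (by omega)
    (Or.inr (by omega)) h3' (by rw [hp0]; exact hpb) ha hb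

variable {U P : Finset (ℤ × ℤ)} {m : ℕ} {w : ℕ → ℤ × ℤ} {k1 k2 k3 m' : ℕ} {w' : ℕ → ℤ × ℤ}
  {l1 l2 l3 : ℕ} {d : ℤ} {σ : ℕ → Set (ℤ × ℤ)}

/-- The side of `U` joined to the side `s` of `P`. -/
theorem Apr.ext (A : Apr U P m w k1 k2 k3 m' w' l1 l2 l3 d σ) {s : ℕ} (hs : s < m') :
    ∃ l < m, lab k1 k2 k3 l = lab l1 l2 l3 s ∧ InB (w' s) d (w l) ∧ InB (w' s) d (w (l + 1)) ∧
      ∀ (c : ℤ) (x : ℤ × ℤ) (ω : Cfg), (c = 0 ∨ c = 1) →
        (x = w' s ∨ x = w' (s + 1) ∨ ∃ f ∈ σ s, IsCor f x) → par x = c →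
        (∀ f ∈ σ s, Col ω c f) →
        ∃ a, (a = l ∨ a = l + 1) ∧ par (w a) = c ∧ Conn ω (σ s) x (w a) := by
  have hd := A.d1
  rcases A.fin s hs with ⟨l, hl, hlab, e, h1, h2, h3⟩ | ⟨l, hl, hlab, ⟨f0, hf0, e0, g1, g2⟩,
    f1, hf1, e1, g3, g4⟩
  · refine ⟨l, hl, hlab, ?_, ?_, ?_⟩
    · have hn := joins_near h1
      rcases joins_two h1 h2 with ⟨e1, e2⟩ | ⟨e1, e2⟩
      · rw [← e1]
        unfold InB; omega
      · rw [← e2]
        unfold InB at hn ⊢; omega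
    · have hn := joins_near h1
      rcases joins_two h1 h2 with ⟨e1, e2⟩ | ⟨e1, e2⟩
      · rw [← e2]
        unfold InB at hn ⊢; omega
      · rw [← e1]
        unfold InB; omega
    · intro c x ω hc hx hpx hω
      have hx' : x = w l ∨ x = w (l + 1) := by
        rcases hx with rfl | rfl | ⟨f, hf, -⟩
        · rcases joins_two h1 h2 with ⟨e1, e2⟩ | ⟨e1, e2⟩
          · exact Or.inl e1
          · exact Or.inr e1
        · rcases joins_two h1 h2 with ⟨e1, e2⟩ | ⟨e1, e2⟩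
          · exact Or.inr e2
          · exact Or.inl e2
        · rw [h3] at hf
          exact absurd hf (Set.notMem_empty _)
      rcases hx' with rfl | rfl
      · exact ⟨l, Or.inl rfl, hpx, Relation.ReflTransGen.refl⟩
      · exact ⟨l + 1, Or.inr rfl, hpx, Relation.ReflTransGen.refl⟩
  · obtain ⟨c0, c0'⟩ := side_cor g1 g2
    obtain ⟨c1, c1'⟩ := side_cor g3 g4
    refine ⟨l, hl, hlab, inB_of_mem_RFb (A.near s hs f1 hf1) c1,
      inB_of_mem_RFb (A.near s hs f1 hf1) c1', ?_⟩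
    intro c x ω hc hx hpx hω
    have hpn := par_ne_succ A.ctU hl
    have q1 := par_cases (w l)
    have q2 := par_cases (w (l + 1))
    obtain ⟨a, ha, hpa, hca⟩ : ∃ a, (a = l ∨ a = l + 1) ∧ par (w a) = c ∧ IsCor f1 (w a) := by
      by_cases hp : par (w l) = c
      · exact ⟨l, Or.inl rfl, hp, c1⟩
      · exact ⟨l + 1, Or.inr rfl, by omega, c1'⟩
    refine ⟨a, ha, hpa, ?_⟩
    rcases hx with rfl | rfl | ⟨f, hf, hfx⟩
    · exact conn_chn hc hω (A.con s hs f0 hf0 f1 hf1) c0 hca hpx hpa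
    · exact conn_chn hc hω (A.con s hs f0 hf0 f1 hf1) c0' hca hpx hpa
    · exact conn_chn hc hω (A.con s hs f hf f1 hf1) hfx hca hpx hpa

/-- The sides of the arc 0 of `P`. -/
theorem Apr.side0 (A : Apr U P m w k1 k2 k3 m' w' l1 l2 l3 d σ) {i : ℕ} (hi : i ≤ l1) :
    ∃ s < m', lab l1 l2 l3 s = 0 ∧ (i = s ∨ i = s + 1) := by
  have := A.l01; have := A.l12; have := A.l23; have := A.l3m
  rcases Nat.lt_or_ge i l1 with h | h
  · exact ⟨i, by omega, by unfold lab; rw [if_pos h], Or.inl rfl⟩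
  · exact ⟨i - 1, by omega, by unfold lab; rw [if_pos (by omega)], Or.inr (by omega)⟩

theorem Apr.side2 (A : Apr U P m w k1 k2 k3 m' w' l1 l2 l3 d σ) {i : ℕ} (hi : l2 ≤ i)
    (hi' : i ≤ l3) : ∃ s < m', lab l1 l2 l3 s = 2 ∧ (i = s ∨ i = s + 1) := by
  have := A.l01; have := A.l12; have := A.l23; have := A.l3m
  rcases Nat.lt_or_ge i l3 with h | h
  · exact ⟨i, by omega, by unfold lab; rw [if_neg (by omega), if_neg (by omega), if_pos h],
      Or.inl rfl⟩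
  · exact ⟨i - 1, by omega, by unfold lab; rw [if_neg (by omega), if_neg (by omega),
      if_pos (by omega)], Or.inr (by omega)⟩

theorem Apr.side3 (A : Apr U P m w k1 k2 k3 m' w' l1 l2 l3 d σ) {i : ℕ} (hi : l3 ≤ i)
    (hi' : i ≤ m') : ∃ s < m', lab l1 l2 l3 s = 3 ∧ (i = s ∨ i = s + 1) := by
  have := A.l01; have := A.l12; have := A.l23; have := A.l3m
  rcases Nat.lt_or_ge i m' with h | h
  · exact ⟨i, by omega, by unfold lab; rw [if_neg (by omega), if_neg (by omega),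
      if_neg (by omega)], Or.inl rfl⟩
  · exact ⟨i - 1, by omega, by unfold lab; rw [if_neg (by omega), if_neg (by omega),
      if_neg (by omega)], Or.inr (by omega)⟩

/-! ### The configurations used -/

open Classical in
/-- Colour `c` on `K`, colour `1 - c` on `K'`, unchanged elsewhere. -/
noncomputable def rep (c : ℤ) (K K' : Set (ℤ × ℤ)) (ω : Cfg) : Cfg :=
  fun f => if f ∈ K then !parD c f else if f ∈ K' then !parD (1 - c) f else ω f

theorem rep_col {c : ℤ} {K K' : Set (ℤ × ℤ)} {ω : Cfg} {f : ℤ × ℤ} (h : f ∈ K) :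
    Col (rep c K K' ω) c f := by
  unfold Col rep
  rw [if_pos h]

theorem rep_col' {c : ℤ} {K K' : Set (ℤ × ℤ)} {ω : Cfg} {f : ℤ × ℤ} (h : f ∉ K) (h' : f ∈ K') :
    Col (rep c K K' ω) (1 - c) f := by
  unfold Col rep
  rw [if_neg h, if_pos h']

theorem rep_out {c c' : ℤ} {K K' : Set (ℤ × ℤ)} {ω : Cfg} {f : ℤ × ℤ} (h : f ∉ K) (h' : f ∉ K')
    (hc : Col ω c' f) : Col (rep c K K' ω) c' f := by
  unfold Col rep at *
  rwa [if_neg h, if_neg h']

/-- All faces have colour `c`. -/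
def allc (c : ℤ) : Cfg := fun f => !parD c f

theorem allc_col (c : ℤ) (f : ℤ × ℤ) : Col (allc c) c f := rfl

/-- The vertices of colour `1 - c` of the arc 3 of `P`. -/
def Arc3 (c : ℤ) (w' : ℕ → ℤ × ℤ) (l3 m' : ℕ) : Set (ℤ × ℤ) :=
  {v | ∃ j, l3 ≤ j ∧ j ≤ m' ∧ v = w' j ∧ par v = 1 - c}

/-- The `c`-path from arc 0 to arc 2 of `U` through the connectors. -/
theorem Apr.path02 (A : Apr U P m w k1 k2 k3 m' w' l1 l2 l3 d σ) {ω' : Cfg} {c : ℤ}
    (hc : c = 0 ∨ c = 1) {i s l t ls lt : ℕ} (his : i = s ∨ i = s + 1)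
    (hlt : l = t ∨ l = t + 1) (hpi : par (w' i) = c) {F G : Set (ℤ × ℤ)}
    (hS : ∀ (c : ℤ) (x : ℤ × ℤ) (ω : Cfg), (c = 0 ∨ c = 1) →
        (x = w' s ∨ x = w' (s + 1) ∨ ∃ f ∈ σ s, IsCor f x) → par x = c →
        (∀ f ∈ σ s, Col ω c f) →
        ∃ a, (a = ls ∨ a = ls + 1) ∧ par (w a) = c ∧ Conn ω (σ s) x (w a))
    (hT : ∀ (c : ℤ) (x : ℤ × ℤ) (ω : Cfg), (c = 0 ∨ c = 1) →
        (x = w' t ∨ x = w' (t + 1) ∨ ∃ f ∈ σ t, IsCor f x) → par x = c →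
        (∀ f ∈ σ t, Col ω c f) →
        ∃ a, (a = lt ∨ a = lt + 1) ∧ par (w a) = c ∧ Conn ω (σ t) x (w a))
    (h1 : ∀ f ∈ σ s, Col ω' c f) (h2 : ∀ f ∈ σ t, Col ω' c f) (h3 : σ s ⊆ G) (h4 : σ t ⊆ G)
    (h5 : F ⊆ G) (hcon : Conn ω' F (w' i) (w' l)) :
    ∃ a0 a2, (a0 = ls ∨ a0 = ls + 1) ∧ (a2 = lt ∨ a2 = lt + 1) ∧ par (w a0) = c ∧
      par (w a2) = c ∧ Conn ω' G (w a0) (w a2) := by
  have hpl : par (w' l) = c := by rw [← hpi]; exact hcon.par_eq.symm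
  obtain ⟨a0, b1, b2, b3⟩ := hS c (w' i) ω' hc (by
    rcases his with rfl | rfl
    · exact Or.inl rfl
    · exact Or.inr (Or.inl rfl)) hpi h1
  obtain ⟨a2, d1, d2, d3⟩ := hT c (w' l) ω' hc (by
    rcases hlt with rfl | rfl
    · exact Or.inl rfl
    · exact Or.inr (Or.inl rfl)) hpl h2
  exact ⟨a0, a2, b1, d1, b2, d2, conn_trans (conn_symm (conn_mono h3 b3))
    (conn_trans (conn_mono h5 hcon) (conn_mono h4 d3))⟩

/-- **Lemma D.** If the colour `c` joins the arcs 0 and 2 of `P` but not the arcs 0 and 2 of `U`, then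
a path of the other colour in the unexplored faces joins a connector to the arc 1 of `U`. -/
theorem Apr.lemD (A : Apr U P m w k1 k2 k3 m' w' l1 l2 l3 d σ) {ω : Cfg} {c : ℤ}
    (hc : c = 0 ∨ c = 1) {i s l t : ℕ} (hs : s < m') (hs0 : lab l1 l2 l3 s = 0)
    (his : i = s ∨ i = s + 1) (ht : t < m') (ht2 : lab l1 l2 l3 t = 2) (hlt : l = t ∨ l = t + 1)
    (hpi : par (w' i) = c) (hcon : Conn ω P (w' i) (w' l)) (hU : ω ∉ XA c U w 0 k1 k2 k3) :
    ∃ v b, k1 ≤ b ∧ b ≤ k2 ∧ par v = 1 - c ∧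
      ((∃ f ∈ σ s, IsCor f v) ∨ ∃ f ∈ σ t, IsCor f v) ∧
      Conn ω ((U : Set (ℤ × ℤ)) \ Wx ω P (Arc3 c w' l3 m')) v (w b) := by
  have hc' : 1 - c = 0 ∨ 1 - c = 1 := by omega
  have hk12 := A.k12; have hk23 := A.k23; have hk3m := A.k3m
  -- the odd path
  obtain ⟨b, b', hb1, hb2, hb3, hb4, hpb, hcb⟩ : ∃ b b', k1 ≤ b ∧ b ≤ k2 ∧ k3 ≤ b' ∧ b' ≤ m ∧
      par (w b) ≠ c ∧ Conn ω U (w b) (w b') := by
    obtain ⟨b, b', h1, h2, h3, h4, h5, h6⟩ := arc_du A.ctU ω hc (Nat.zero_le k1) A.k12 A.k23 A.k3m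
      (fun i k _ h2 h3 h4 h5 h6 => hU ⟨i, k, Nat.zero_le _, h2, h3, h4, h5, h6⟩)
    rcases h3 with h3 | h3
    · have : b' = 0 := by omega
      subst this
      rw [← A.ctU.close] at h6
      exact ⟨b, m, h1, h2, by omega, le_rfl, h5, h6⟩
    · exact ⟨b, b', h1, h2, h3, h4, h5, h6⟩
  have cb := par_cases (w b)
  have hpb' : par (w b) = 1 - c := by omega
  obtain ⟨ls, hls, hlab, -, -, hS⟩ := A.ext hs
  obtain ⟨lt, hlt', hlabt, -, -, hT⟩ := A.ext ht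
  rw [hs0] at hlab
  rw [ht2] at hlabt
  set K : Set (ℤ × ℤ) := σ s ∪ σ t with hK
  have hKU : K ⊆ (U : Set (ℤ × ℤ)) := by
    rintro f (hf | hf)
    · exact mem_coe.2 (A.out s hs f hf).1
    · exact mem_coe.2 (A.out t ht f hf).1
  have hKP : ∀ f ∈ K, f ∉ P := by
    rintro f (hf | hf)
    · exact (A.out s hs f hf).2
    · exact (A.out t ht f hf).2
  have hPU : (P : Set (ℤ × ℤ)) ⊆ U := coe_subset.2 A.sub
  -- a path of the other colour off the connectors is impossible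
  have key : ∀ (K' : Set (ℤ × ℤ)), (∀ f ∈ K', f ∉ K ∧ f ∉ P) →
      ∀ b'' : ℕ, k3 ≤ b'' → b'' ≤ m → Conn (rep c K K' ω) U (w b) (w b'') → False := by
    intro K' hK' b'' g1 g2 g3
    obtain ⟨a0, a2, e1, e2, e3, e4, e5⟩ := A.path02 (ω' := rep c K K' ω) (F := P) (G := U) hc his
      hlt hpi hS hT (fun f hf => rep_col (Or.inl hf)) (fun f hf => rep_col (Or.inr hf))
      (fun f hf => hKU (Or.inl hf)) (fun f hf => hKU (Or.inr hf)) hPU
      (conn_up hpi (fun f hf hfc => ⟨hf, rep_out (fun h => hKP f h hf)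
        (fun h => (hK' f h).2 hf) hfc⟩) hcon)
    exact arcs_nc A.ctU (c := c) (lab0 hlab e1) hb1 hb2 (lab2 hlabt e2).1 (lab2 hlabt e2).2 g1 g2
      e3 hpb e5 g3
  rcases conn_last K (conn_symm hcb) with h1 | ⟨x, ⟨f, hfK, hfU, hfx, -⟩, hux, hxb⟩
  · exfalso
    refine key ∅ (fun f hf => absurd hf (Set.notMem_empty f)) b' hb3 hb4 (conn_symm ?_)
    refine conn_up (c := 1 - c) (by rw [← hcb.par_eq]; exact hpb') (fun f hf hfc => ⟨hf.1, ?_⟩) h1
    exact rep_out hf.2 (Set.notMem_empty f) hfc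
  · have hpx : par x = 1 - c := by rw [hxb.par_eq]; exact hpb'
    refine ⟨x, b, hb1, hb2, hpx, ?_, ?_⟩
    · rcases hfK with h | h
      · exact Or.inl ⟨f, h, hfx⟩
      · exact Or.inr ⟨f, h, hfx⟩
    rcases conn_last (Wx ω P (Arc3 c w' l3 m')) hxb with h2 | ⟨y, ⟨g, hgS, hgU, hgy, hgc⟩, hxy, hyb⟩
    · exact conn_mono (fun f hf => ⟨hf.1.1, hf.2⟩) h2
    · exfalso
      obtain ⟨hgP, q, hgq, v0, ⟨j, hj1, hj2, rfl, hpj⟩, hjq⟩ := hgS
      rw [hpx] at hgc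
      have hpy : par y = 1 - c := by rw [hyb.par_eq]; exact hpb'
      have hpq : par q = 1 - c := by rw [← hjq.par_eq]; exact hpj
      have hqy : Conn ω P q y := conn_face hgP hgc hgq hgy hpq hpy
      obtain ⟨r, hr, hr3, hjr⟩ := A.side3 hj1 hj2
      obtain ⟨lr, hlr, hlabr, -, -, hR⟩ := A.ext hr
      rw [hr3] at hlabr
      have hdisj : ∀ f ∈ σ r, f ∉ K ∧ f ∉ P := by
        intro f hf
        refine ⟨?_, (A.out r hr f hf).2⟩
        rintro (h | h)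
        · exact A.disj r hr s hs (by rw [hr3, hs0]; decide) f hf h
        · exact A.disj r hr t ht (by rw [hr3, ht2]; decide) f hf h
      obtain ⟨a3, e1, e2, e3⟩ := hR (1 - c) (w' j) (rep c K (σ r) ω) hc' (by
        rcases hjr with rfl | rfl
        · exact Or.inl rfl
        · exact Or.inr (Or.inl rfl)) hpj (fun f hf => rep_col' (hdisj f hf).1 hf)
      obtain ⟨g1, g2⟩ := lab3 hlabr hlr e1
      refine key (σ r) hdisj a3 g1 g2 ?_
      have hout : ∀ f, f ∉ K → Col ω (1 - c) f → Col (rep c K (σ r) ω) (1 - c) f := by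
        intro f hf hfc
        by_cases hfr : f ∈ σ r
        · exact rep_col' hf hfr
        · exact rep_out hf hfr hfc
      have t1 : Conn (rep c K (σ r) ω) U (w b) y :=
        conn_symm (conn_up (c := 1 - c) hpy (fun f hf hfc => ⟨hf.1.1, hout f hf.1.2 hfc⟩) hyb)
      have t2 : Conn (rep c K (σ r) ω) U y (w' j) := by
        refine conn_symm (conn_up (c := 1 - c) hpj (fun f hf hfc => ⟨hPU hf, hout f (fun h =>
          hKP f h hf) hfc⟩) (conn_trans hjq hqy))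
      have t3 : Conn (rep c K (σ r) ω) U (w' j) (w a3) :=
        conn_mono (fun f hf => mem_coe.2 (A.out r hr f hf).1) e3
      exact conn_trans t1 (conn_trans t2 t3)

end Pool.Agent.SixB.LC
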