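import Pool.Agent.Lib.SixB.S8Walls
import Pool.Agent.Lib.SixB.S8LemCb

/-!
# Step 8: the exit of the true strand, all cases

`T` is a region of fresh faces with the contour `w` as in `S8ExitW`; the strand starts at the tip and is
stopped when it enters `U \ T`. The cut sides are `k₁, …, k₃ - 1`; those of `[k₁, r₁)` are the sides of the
right cap, those of `[r₃, k₃)` the sides of the left cap.

* `exit_out`: if the strand enters `U \ T` from a face which is not in `T` then it comes from the vertex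
  `w k₁` or from the vertex `w k₃`, and this vertex is joined in `T` to the opposite wall.
* `exit_cases`: either the strand leaves `T` through a side `x ∈ [r₁, r₃)` and `k₂ ≤ x` if and only if the
  right wall `[0, r₁]` is joined to `[k₂, r₃]` in `T`, or a vertex of a cap is joined to the opposite
  wall.
* `btw_iff`: the events of a move: outside of the bad events `CapBad` of two domains the strand stops in
  `Z`; it has avoided `A` and stopped in the range `Gd` iff `XA x₁` holds and `XA x₂` does not.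
-/

set_option autoImplicit false

namespace Pool.Agent.SixB

open Finset Pool.Agent.Perc Pool.Agent.Perc6

variable {ω : Cfg} {c : ℤ} {R U : Set (ℤ × ℤ)} {T : Finset (ℤ × ℤ)} {m : ℕ} {w : ℕ → ℤ × ℤ}
  {k₁ k₃ : ℕ} {a : UE}

/-- The potential of an excursion which ends in `U \ T`. -/
theorem exc_pot_out (hR : HasPot R) (cU : Top.EConn U) {s t : ℕ} (hst : s < t)
    (h0 : fb (pth ω a s) ∈ U) (h1 : fa (pth ω a t) ∈ U)
    (hout : ∀ i, s ≤ i → i < t → fa (pth ω a i) ∉ U) :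
    ∃ Θ : ℤ × ℤ → ZMod 2, (∀ p q, Conn ω (R \ U) p q → Θ p = Θ q) ∧
      ∀ g ∈ R, ∀ y p q, IsSide g y → Joins y p q → (∃ g', g' ∉ U ∧ IsSide g' y) →
        (Θ p ≠ Θ q ↔ y ∈ seg8 ω a s t) := by
  set X := seg8 ω a s t with hX
  have hfbs : ∀ i, s < i → i ≤ t → fb (pth ω a i) ∉ U := by
    intro i hi1 hi2
    have h2 : fb (pth ω a i) = fa (pth ω a (i - 1)) := by
      rw [← fb_pth_succ, Nat.sub_add_cancel (by omega)]
    rw [h2]
    exact hout _ (by omega) (by omega)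
  have hne : pth ω a s ≠ pth ω a t := by
    intro h
    exact hout s le_rfl hst (by rw [h]; exact h1)
  have hch : Relation.ReflTransGen (StepC Uᶜ) (fb (pth ω a s)) (fa (pth ω a t)) :=
    Relation.ReflTransGen.mono (p := StepC Uᶜ)
      (fun b d (hbd : AdjF b d ∧ d ∈ U) => ⟨hbd.1, fun h => h hbd.2⟩) _ _
      (cU _ h0 _ h1)
  obtain ⟨-, P, hP, hpar⟩ := chain_toggle (F := Uᶜ) (fun h => h h0) hch
  have hinv : MtInv ω Uᶜ X := minv_seg8 h0 h1
  set M := symmDiff X P with hM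
  have hMX : ∀ g, g ∉ U → ∀ y, IsSide g y → (y ∈ M ↔ y ∈ X) := by
    intro g hg y hy
    have : y ∉ P := fun h => hP y h g hg hy
    rw [hM, Set.mem_symmDiff]
    tauto
  have hMinv : MtInv ω Uᶜ M := by
    intro g hg y y' hm
    rw [hMX g hg y hm.left, hMX g hg y' hm.right]
    exact hinv g hg y y' hm
  have hev : ∀ g ∈ R, EvenAt M g := by
    intro g _
    by_cases hg : g ∈ U
    · have h2 : parAt X g = parAt (symmDiff {pth ω a s} {pth ω a t}) g := by
        apply parAt_congr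
        intro y hy
        rw [Set.mem_symmDiff, Set.mem_singleton_iff, Set.mem_singleton_iff]
        constructor
        · rintro ⟨i, hi1, hi2, rfl⟩
          rcases side_fa_fb hy with h | h
          · have hit : i = t := by
              by_contra hne
              exact hout i hi1 (by omega) (by rw [← h]; exact hg)
            subst hit
            exact Or.inr ⟨rfl, hne.symm⟩
          · have his : i = s := by
              by_contra hne
              exact hfbs i (by omega) hi2 (by rw [← h]; exact hg)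
            subst his
            exact Or.inl ⟨rfl, hne⟩
        · rintro (⟨rfl, -⟩ | ⟨rfl, -⟩)
          · exact ⟨s, le_rfl, hst.le, rfl⟩
          · exact ⟨t, hst.le, le_rfl, rfl⟩
      have e1 : parAt {pth ω a s} g = ind2 (g = fb (pth ω a s)) := by
        rw [parAt_side (fa_ne_fb _) (isSide_fa _) (isSide_fb _), ind2_neg, zero_add]
        intro h
        exact hout s le_rfl hst (by rw [← h]; exact hg)
      have e2 : parAt {pth ω a t} g = ind2 (g = fa (pth ω a t)) := by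
        rw [parAt_side (fa_ne_fb _) (isSide_fa _) (isSide_fb _), ind2_neg (P := g = fb _), add_zero]
        intro h
        exact hfbs t hst le_rfl (by rw [← h]; exact hg)
      rw [evenAt_iff, hM, parAt_symmDiff, h2, parAt_symmDiff, e1, e2, hpar]
      exact z2_add_self _
    · exact hMinv.even hg
  obtain ⟨Θ, hΘ⟩ := hR M hev
  refine ⟨Θ, fun p q hpq => ?_, fun g hg y p q hy hj hg' => ?_⟩
  · have h2 : MtInv ω (R \ U) M := fun g hg => hMinv g fun h => hg.2 h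
    exact h2.conn (fun g hg => hΘ g hg.1) hpq
  · obtain ⟨g', hg', hy'⟩ := hg'
    rw [← hMX g' hg' y hy', hΘ.joins hg hy hj]

section Out

variable (h : TipDom ω c R U T m w k₁ k₃ a)

include h

/-- If the strand enters `U \ T` from a face outside `T` then it comes from `w k₁` or `w k₃`, and this
vertex is joined in `T` to the opposite wall. -/
theorem TipDom.exit_out (cU : Top.EConn U)
    (wall : ∀ i, i < m → (i < k₁ ∨ k₃ ≤ i) → ∀ s g, Joins s (w i) (w (i + 1)) → IsSide g s →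
      g ∉ T → g ∉ U)
    (wbU : ∀ i, 1 ≤ i → i < k₁ → ∀ y, (y = i ∨ y = i + 1) → par (w y) = c →
      Conn ω (R \ U) (w 1) (w y))
    (wlU : ∀ i, k₃ ≤ i → i < m → ∀ y, (y = i ∨ y = i + 1) → par (w y) ≠ c →
      Conn ω (R \ U) (w 0) (w y))
    {τ : ℕ} (hst : ∀ i < τ, fa (pth ω a i) ∈ T ∨ fa (pth ω a i) ∉ U)
    (hτ : fa (pth ω a τ) ∈ U) (hτT : fa (pth ω a τ) ∉ T) (hb : fb (pth ω a τ) ∉ T) :
    (par (w k₃) = c ∧ ∃ i, i ≤ k₁ ∧ par (w i) = c ∧ Conn ω T (w i) (w k₃)) ∨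
      (par (w k₁) = 1 - c ∧ ∃ j, k₃ ≤ j ∧ j ≤ m ∧ par (w j) = 1 - c ∧ Conn ω T (w j) (w k₁)) := by
  have hk1 := h.h1
  have hk13 := h.h13
  have hk3 := h.h3
  have hm := h.m_pos
  have hc := h.hc
  have hτpos : 0 < τ := by
    rcases Nat.eq_zero_or_pos τ with rfl | h0
    · exact absurd h.faT (by rw [pth_zero] at hτT; exact hτT)
    · exact h0
  -- the last time in `T`
  obtain ⟨r, hr, hrT, hmax⟩ : ∃ r < τ, fa (pth ω a r) ∈ T ∧
      ∀ i, r < i → i < τ → fa (pth ω a i) ∉ T := by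
    classical
    set Q : Finset ℕ := (range τ).filter fun r => fa (pth ω a r) ∈ T with hQ
    have hne : Q.Nonempty := ⟨0, Finset.mem_filter.2 ⟨Finset.mem_range.2 hτpos, h.faT⟩⟩
    have hm : Q.max' hne < τ ∧ fa (pth ω a (Q.max' hne)) ∈ T := by
      have h3 : ∀ r ∈ Q, r < τ ∧ fa (pth ω a r) ∈ T := fun r hr => by
        rw [hQ, Finset.mem_filter, Finset.mem_range] at hr
        exact hr
      exact h3 _ (Finset.max'_mem Q hne)
    refine ⟨Q.max' hne, hm.1, hm.2, fun i hi1 hi2 hiT => ?_⟩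
    have hiQ : i ∈ Q := Finset.mem_filter.2 ⟨Finset.mem_range.2 hi2, hiT⟩
    have := Finset.le_max' Q i hiQ
    omega
  set s := r + 1 with hs
  have hfbs : fb (pth ω a s) ∈ T := by rw [hs, fb_pth_succ]; exact hrT
  have hsτ : s < τ := by
    rcases Nat.lt_or_ge s τ with h1 | h1
    · exact h1
    · exfalso
      have : τ = s := by omega
      rw [this] at hb
      exact hb hfbs
  have hout : ∀ i, s ≤ i → i < τ → fa (pth ω a i) ∉ U := fun i h1 h2 =>
    (hst i h2).resolve_left (hmax i (by omega) h2)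
  have hTU : ∀ g, g ∈ T → g ∈ U := fun g hg => h.TU (Finset.mem_coe.2 hg)
  obtain ⟨Θ, hΘc, hΘ⟩ := exc_pot_out h.hR cU hsτ (hTU _ hfbs) hτ hout
  have hfbi : ∀ i, s < i → i ≤ τ → fb (pth ω a i) ∉ U := by
    intro i hi1 hi2
    have h2 : fb (pth ω a i) = fa (pth ω a (i - 1)) := by
      rw [← fb_pth_succ, Nat.sub_add_cancel (by omega)]
    rw [h2]
    exact hout _ (by omega) (by omega)
  -- the side of `T` at time `s`
  have hbs : BdU (T : Set (ℤ × ℤ)) (pth ω a s) :=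
    ⟨⟨_, Finset.mem_coe.2 hfbs, isSide_fb _⟩, _, fun hh => hout s le_rfl hsτ (hTU _
      (Finset.mem_coe.1 hh)), isSide_fa _⟩
  obtain ⟨i₀, hi0, j0⟩ := h.ctr.all _ hbs
  have hncut : i₀ < k₁ ∨ k₃ ≤ i₀ := by
    by_contra hno
    push Not at hno
    exact hout s le_rfl hsτ (h.cut i₀ hno.1 hno.2 _ _ j0 (isSide_fa _))
  have hne0 : i₀ ≠ 0 := by
    rintro rfl
    have h2 := Joins.uniq j0 h.tip
    rw [h2] at hfbs
    exact h.fbU (hTU _ hfbs)
  -- values on the walls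
  have hval : ∀ i, i < m → (i < k₁ ∨ k₃ ≤ i) → (Θ (w i) ≠ Θ (w (i + 1)) ↔ i = i₀) := by
    intro i hi hiw
    obtain ⟨e, ⟨⟨g, hg, hgs⟩, g', hg', hgs'⟩, hj⟩ := h.ctr.step i hi
    have hg'U : g' ∉ U := wall i hi hiw e g' hj hgs' fun hh => hg' (Finset.mem_coe.2 hh)
    rw [hΘ g (h.UR (h.TU hg)) e _ _ hgs hj ⟨g', hg'U, hgs'⟩]
    constructor
    · rintro ⟨k, hk1, hk2, rfl⟩
      rcases side_fa_fb hgs with h2 | h2
      · exfalso
        rcases Nat.lt_or_ge k τ with h3 | h3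
        · exact hout k hk1 h3 (by rw [← h2]; exact h.TU hg)
        · have : k = τ := by omega
          subst this
          exact hτT (by rw [← h2]; exact Finset.mem_coe.1 hg)
      · have hks : k = s := by
          by_contra hne
          exact hfbi k (by omega) hk2 (by rw [← h2]; exact h.TU hg)
        subst hks
        exact h.ctr.inj i hi i₀ hi0 _ hj j0
    · rintro rfl
      rw [Joins.uniq hj j0]
      exact ⟨s, le_rfl, hsτ.le, rfl⟩
  have e01 : Θ (w 0) = Θ (w 1) := by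
    by_contra hn
    exact hne0 ((hval 0 hm (Or.inl (by omega))).1 hn).symm
  have hst' : ∀ i < s, fa (pth ω a i) ∈ T ∨ fa (pth ω a i) ∉ U := fun i hi => hst i (by omega)
  rcases hncut with hw | hw
  · -- the right wall
    right
    have hlow : Θ (w i₀) = Θ (w 1) := by
      refine (const_run (fun i => Θ (w i)) (by omega) fun k h3 h4 h5 => ?_).symm
      have := (hval k (by omega) (Or.inl (by omega))).1 h5
      omega
    have hhigh : ∀ y, i₀ < y → y ≤ k₁ → Θ (w y) ≠ Θ (w 1) := by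
      intro y hy1 hy2
      have e1 : Θ (w (i₀ + 1)) = Θ (w y) := by
        refine const_run (fun i => Θ (w i)) (by omega) fun k h3 h4 h5 => ?_
        have := (hval k (by omega) (Or.inl (by omega))).1 h5
        omega
      have e2 := (hval i₀ hi0 (Or.inl hw)).2 rfl
      rw [← e1, ← hlow]
      exact e2.symm
    have hcol : ∀ y, i₀ < y → y ≤ k₁ → par (w y) = 1 - c := by
      intro y hy1 hy2
      have c1 := par_cases (w y)
      by_contra hn
      have hp : par (w y) = c := by omega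
      exact hhigh y hy1 hy2 (hΘc _ _ (wbU (y - 1) (by omega) (by omega) y (Or.inr (by omega)) hp)).symm
    have hi01 : i₀ + 1 = k₁ := by
      by_contra hn
      have p1 := hcol (i₀ + 1) (by omega) (by omega)
      have p2 := hcol (i₀ + 1 + 1) (by omega) (by omega)
      exact par_ne_succ h.ctr (i := i₀ + 1) (by omega) (p1.trans p2.symm)
    have pk : par (w k₁) = 1 - c := hcol k₁ (by omega) le_rfl
    obtain ⟨j, hj1, hj2, hj3, hj4⟩ := h.exit_conn' hst' hfbs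
    have : en (1 - c) (pth ω a s) = w k₁ := by
      rw [← hi01] at pk ⊢
      exact en_joins j0.symm pk
    rw [this] at hj4
    have c1 := par_cases (w j)
    exact ⟨pk, j, hj1, hj2, by omega, hj4⟩
  · -- the left wall
    left
    have hup : Θ (w (i₀ + 1)) = Θ (w 0) := by
      have e1 : Θ (w (i₀ + 1)) = Θ (w m) := by
        refine const_run (fun i => Θ (w i)) (by omega) fun k h3 h4 h5 => ?_
        have := (hval k (by omega) (Or.inr (by omega))).1 h5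
        omega
      rw [e1, h.ctr.close]
    have hlow : ∀ y, k₃ ≤ y → y ≤ i₀ → Θ (w y) ≠ Θ (w 0) := by
      intro y hy1 hy2
      have e1 : Θ (w y) = Θ (w i₀) := by
        refine const_run (fun i => Θ (w i)) (by omega) fun k h3 h4 h5 => ?_
        have := (hval k (by omega) (Or.inr (by omega))).1 h5
        omega
      have e2 := (hval i₀ hi0 (Or.inr hw)).2 rfl
      rw [e1, ← hup]
      exact e2
    have hcol : ∀ y, k₃ ≤ y → y ≤ i₀ → par (w y) = c := by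
      intro y hy1 hy2
      by_contra hn
      exact hlow y hy1 hy2 (hΘc _ _ (wlU y (by omega) (by omega) y (Or.inl rfl) hn)).symm
    have hi03 : i₀ = k₃ := by
      by_contra hn
      have p1 := hcol k₃ le_rfl (by omega)
      have p2 := hcol (k₃ + 1) (by omega) (by omega)
      exact par_ne_succ h.ctr (i := k₃) (by omega) (p1.trans p2.symm)
    have pk : par (w k₃) = c := hcol k₃ le_rfl (by omega)
    obtain ⟨i, hi1, hi2, hi3, hi4⟩ := h.exit_conn hst' hfbs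
    have : en c (pth ω a s) = w k₃ := by
      rw [← hi03] at pk ⊢
      exact en_joins j0 pk
    rw [this] at hi4
    exact ⟨pk, i, hi2, hi3, hi4⟩

/-- The exit identity with caps: `[k₁, r₁)` is the right cap and `[r₃, k₃)` the left cap. -/
theorem TipDom.exit_cross_cap {τ : ℕ}
    (hst : ∀ i < τ, fa (pth ω a i) ∈ T ∨ fa (pth ω a i) ∉ U) (hτ : fb (pth ω a τ) ∈ T)
    {r₁ r₃ x : ℕ} (hr1 : k₁ ≤ r₁) (hr3 : r₃ ≤ k₃) (hx1 : r₁ ≤ x) (hx3 : x < r₃)
    (hj : Joins (pth ω a τ) (w x) (w (x + 1))) {k₂ : ℕ} :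
    k₂ ≤ x ↔ ω ∈ LC.XA c (T : Set (ℤ × ℤ)) w 0 r₁ k₂ r₃ := by
  have k1 := h.h1
  have k3 := h.h3
  have hc := h.hc
  have p1 := par_ne_succ h.ctr (i := x) (by omega)
  have c1 := par_cases (w x)
  have c2 := par_cases (w (x + 1))
  constructor
  · intro hkx
    obtain ⟨i, hi1, hi2, hi3, hi4⟩ := h.exit_conn hst hτ
    by_cases hp : par (w x) = c
    · rw [en_joins hj hp] at hi4
      exact ⟨i, x, Nat.zero_le _, by omega, hkx, hx3.le, hi3, hi4⟩
    · rw [en_joins hj.symm (by omega)] at hi4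
      exact ⟨i, x + 1, Nat.zero_le _, by omega, by omega, hx3, hi3, hi4⟩
  · rintro ⟨i, l, -, hi, hl, hl3, hpi, hil⟩
    by_contra hlt
    push Not at hlt
    obtain ⟨j, hj1, hj2, hj3, hj4⟩ := h.exit_conn' hst hτ
    have pl : par (w l) = c := by rw [← hpi]; exact (Conn.par_eq hil).symm
    obtain ⟨y, hy, hyp, hye⟩ : ∃ y, (y = x ∨ y = x + 1) ∧ par (w y) = 1 - c ∧
        en (1 - c) (pth ω a τ) = w y := by
      by_cases hp : par (w x) = c
      · exact ⟨x + 1, Or.inr rfl, by omega, en_joins hj.symm (by omega)⟩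
      · exact ⟨x, Or.inl rfl, by omega, en_joins hj (by omega)⟩
    rw [hye] at hj4
    have n1 : i ≠ y := by rintro rfl; omega
    have n2 : y ≠ l := by rintro rfl; omega
    have n3 : l ≠ j := by rintro rfl; omega
    exact ctr_nc h.ctr ω (t := i) (b := y) (a := l) (b' := j) (by omega) (by omega) (by omega)
      (Or.inr (by omega)) hj2 (by omega) hil (conn_symm hj4)

/-- **All cases of the exit.** Either the strand leaves `T` through a side `x ∈ [r₁, r₃)`, and then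
`k₂ ≤ x` if and only if `[0, r₁]` is joined to `[k₂, r₃]`, or the opposite wall is joined to a vertex of
a cap. -/
theorem TipDom.exit_cases (cU : Top.EConn U)
    (wall : ∀ i, i < m → (i < k₁ ∨ k₃ ≤ i) → ∀ s g, Joins s (w i) (w (i + 1)) → IsSide g s →
      g ∉ T → g ∉ U)
    (wbU : ∀ i, 1 ≤ i → i < k₁ → ∀ y, (y = i ∨ y = i + 1) → par (w y) = c →
      Conn ω (R \ U) (w 1) (w y))
    (wlU : ∀ i, k₃ ≤ i → i < m → ∀ y, (y = i ∨ y = i + 1) → par (w y) ≠ c →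
      Conn ω (R \ U) (w 0) (w y))
    {τ : ℕ} (hst : ∀ i < τ, fa (pth ω a i) ∈ T ∨ fa (pth ω a i) ∉ U)
    (hτ : fa (pth ω a τ) ∈ U) (hτT : fa (pth ω a τ) ∉ T) {r₁ r₃ : ℕ} (hr1 : k₁ ≤ r₁)
    (hr3 : r₃ ≤ k₃) :
    (fb (pth ω a τ) ∈ T ∧ ∃ x, r₁ ≤ x ∧ x < r₃ ∧ Joins (pth ω a τ) (w x) (w (x + 1)) ∧
      ∀ k₂, k₂ ≤ x ↔ ω ∈ LC.XA c (T : Set (ℤ × ℤ)) w 0 r₁ k₂ r₃) ∨
    ω ∈ LC.XA c (T : Set (ℤ × ℤ)) w 0 k₁ r₃ k₃ ∨
      ω ∈ LC.XA (1 - c) (T : Set (ℤ × ℤ)) w k₁ r₁ k₃ m := by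
  have hk1 := h.h1
  have hk13 := h.h13
  have hk3 := h.h3
  have hc := h.hc
  by_cases hb : fb (pth ω a τ) ∈ T
  · have hbd : BdU (T : Set (ℤ × ℤ)) (pth ω a τ) :=
      ⟨⟨_, Finset.mem_coe.2 hb, isSide_fb _⟩, _, fun hh => hτT (Finset.mem_coe.1 hh), isSide_fa _⟩
    obtain ⟨x, hxm, hj⟩ := h.ctr.all _ hbd
    have hx : k₁ ≤ x ∧ x < k₃ := by
      by_contra hno
      exact wall x hxm (by omega) _ _ hj (isSide_fa _) hτT hτ
    have c1 := par_cases (w x)
    have c2 := par_cases (w (x + 1))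
    have p1 := par_ne_succ h.ctr (i := x) (by omega)
    rcases Nat.lt_or_ge x r₁ with h1 | h1
    · -- the right cap
      right; right
      obtain ⟨j, hj1, hj2, hj3, hj4⟩ := h.exit_conn' hst hb
      obtain ⟨y, hy, hyp, hye⟩ : ∃ y, (y = x ∨ y = x + 1) ∧ par (w y) = 1 - c ∧
          en (1 - c) (pth ω a τ) = w y := by
        by_cases hp : par (w x) = c
        · exact ⟨x + 1, Or.inr rfl, by omega, en_joins hj.symm (by omega)⟩
        · exact ⟨x, Or.inl rfl, by omega, en_joins hj (by omega)⟩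
      rw [hye] at hj4
      exact ⟨y, j, by omega, by omega, hj1, hj2, hyp, conn_symm hj4⟩
    · rcases Nat.lt_or_ge x r₃ with h3 | h3
      · exact Or.inl ⟨hb, x, h1, h3, hj, fun k₂ => h.exit_cross_cap hst hb hr1 hr3 h1 h3 hj⟩
      · right; left
        obtain ⟨i, hi1, hi2, hi3, hi4⟩ := h.exit_conn hst hb
        by_cases hp : par (w x) = c
        · rw [en_joins hj hp] at hi4
          exact ⟨i, x, Nat.zero_le _, hi2, h3, hx.2.le, hi3, hi4⟩
        · rw [en_joins hj.symm (by omega)] at hi4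
          exact ⟨i, x + 1, Nat.zero_le _, hi2, by omega, hx.2, hi3, hi4⟩
  · right
    rcases h.exit_out cU wall wbU wlU hst hτ hτT hb with ⟨-, i, hi, hp, hcon⟩ |
      ⟨hp, j, hj1, hj2, hp', hcon⟩
    · exact Or.inl ⟨i, k₃, Nat.zero_le _, hi, hr3, le_rfl, hp, hcon⟩
    · exact Or.inr ⟨k₁, j, le_rfl, hr1, hj1, hj2, hp, conn_symm hcon⟩

end Out

/-! ### The data of a move with caps -/

/-- `TipDom`, the walls in `R \ U`, and the arcs `[k₁, r₁)` (right cap), `[r₁, r₃)` (outer arc),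
`[r₃, k₃)` (left cap). -/
structure CapDom (ω : Cfg) (c : ℤ) (R U : Set (ℤ × ℤ)) (T : Finset (ℤ × ℤ)) (m : ℕ)
    (w : ℕ → ℤ × ℤ) (k₁ r₁ r₃ k₃ : ℕ) (a : UE) : Prop extends TipDom ω c R U T m w k₁ k₃ a where
  cU : Top.EConn U
  hr1 : k₁ ≤ r₁
  hr3 : r₃ ≤ k₃
  wall : ∀ i, i < m → (i < k₁ ∨ k₃ ≤ i) → ∀ s g, Joins s (w i) (w (i + 1)) → IsSide g s →
    g ∉ T → g ∉ U
  wbU : ∀ i, 1 ≤ i → i < k₁ → ∀ y, (y = i ∨ y = i + 1) → par (w y) = c →
    Conn ω (R \ U) (w 1) (w y)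
  wlU : ∀ i, k₃ ≤ i → i < m → ∀ y, (y = i ∨ y = i + 1) → par (w y) ≠ c →
    Conn ω (R \ U) (w 0) (w y)

/-- The bad event: the opposite wall is joined in `T` to a cap. -/
def CapBad (c : ℤ) (T : Finset (ℤ × ℤ)) (m : ℕ) (w : ℕ → ℤ × ℤ) (k₁ r₁ r₃ k₃ : ℕ) : Set Cfg :=
  LC.XA c (T : Set (ℤ × ℤ)) w 0 k₁ r₃ k₃ ∪ LC.XA (1 - c) (T : Set (ℤ × ℤ)) w k₁ r₁ k₃ m

/-- The strand enters `U \ T` at time `t`. -/
structure Ent (ω : Cfg) (U : Set (ℤ × ℤ)) (T : Finset (ℤ × ℤ)) (a : UE) (t : ℕ) : Prop where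
  bef : ∀ i < t, fa (pth ω a i) ∈ T ∨ fa (pth ω a i) ∉ U
  mem : fa (pth ω a t) ∈ U
  out : fa (pth ω a t) ∉ T

theorem Ent.unique {t t' : ℕ} (h : Ent ω U T a t) (h' : Ent ω U T a t') : t = t' := by
  rcases lt_trichotomy t t' with h1 | h1 | h1
  · rcases h'.bef t h1 with h2 | h2
    · exact absurd h2 h.out
    · exact absurd h.mem h2
  · exact h1
  · rcases h.bef t' h1 with h2 | h2
    · exact absurd h2 h'.out
    · exact absurd h'.mem h2

theorem exists_ent {n : ℕ} (h1 : fa (pth ω a n) ∈ U) (h2 : fa (pth ω a n) ∉ T) :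
    ∃ t ≤ n, Ent ω U T a t := by
  classical
  have hex : ∃ t, fa (pth ω a t) ∈ U ∧ fa (pth ω a t) ∉ T := ⟨n, h1, h2⟩
  refine ⟨Nat.find hex, Nat.find_min' hex ⟨h1, h2⟩, fun i hi => ?_, (Nat.find_spec hex).1,
    (Nat.find_spec hex).2⟩
  have := Nat.find_min hex hi
  by_contra hno
  push Not at hno
  exact this ⟨hno.2, hno.1⟩

theorem CapDom.ent {r₁ r₃ t : ℕ} (h : CapDom ω c R U T m w k₁ r₁ r₃ k₃ a) (ht : Ent ω U T a t)
    (hb : ω ∉ CapBad c T m w k₁ r₁ r₃ k₃) :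
    fb (pth ω a t) ∈ T ∧ ∃ x, r₁ ≤ x ∧ x < r₃ ∧ Joins (pth ω a t) (w x) (w (x + 1)) ∧
      ∀ k₂, k₂ ≤ x ↔ ω ∈ LC.XA c (T : Set (ℤ × ℤ)) w 0 r₁ k₂ r₃ := by
  rcases h.toTipDom.exit_cases h.cU h.wall h.wbU h.wlU ht.bef ht.mem ht.out h.hr1 h.hr3 with
    h1 | h1 | h1
  · exact h1
  · exact absurd (Or.inl h1) hb
  · exact absurd (Or.inr h1) hb

/-- **The events of a move.** The strand runs until it enters `Zp`, at time `σ`. Outside of the bad events
of the domains `T₀` and `T` it enters `Zp` in `Z`, and it has avoided `A` and stopped at a side of `Gd` if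
and only if `ω ∈ XA x₁ \ XA x₂`. -/
theorem btw_iff {T₀ : Finset (ℤ × ℤ)} {m₀ : ℕ} {w₀ : ℕ → ℤ × ℤ} {p₁ q₁ q₃ p₃ r₁ r₃ : ℕ}
    {Z Zp A : Set (ℤ × ℤ)} {Gd : Set UE} {σ x₁ x₂ : ℕ}
    (h₀ : CapDom ω c R U T₀ m₀ w₀ p₁ q₁ q₃ p₃ a) (h : CapDom ω c R U T m w k₁ r₁ r₃ k₃ a)
    (hZ₀ : ∀ x, q₁ ≤ x → x < q₃ → ∀ s g, Joins s (w₀ x) (w₀ (x + 1)) → IsSide g s → g ∉ T₀ →
      g ∈ Z)
    (hZA : ∀ x, r₁ ≤ x → x < r₃ → ∀ s g, Joins s (w x) (w (x + 1)) → IsSide g s → g ∉ T →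
      g ∈ Z ∨ g ∈ A)
    (hZZp : Z ⊆ Zp) (hZpU : Zp ⊆ U) (hZp₀ : ∀ g ∈ Zp, g ∉ T₀) (hZT : ∀ g ∈ Z, g ∉ T)
    (hAU : A ⊆ U) (hAT : ∀ g ∈ A, g ∉ T) (hAZ : ∀ g ∈ A, g ∉ Z)
    (hGd : ∀ x, r₁ ≤ x → x < r₃ → ∀ s g, Joins s (w x) (w (x + 1)) → IsSide g s → g ∉ T →
      ((s ∈ Gd ∧ g ∈ Z) ↔ x₁ ≤ x ∧ x < x₂))
    (hσ : ∀ i < σ, fa (pth ω a i) ∉ Zp) (hσ' : fa (pth ω a σ) ∈ Zp)
    (hb₀ : ω ∉ CapBad c T₀ m₀ w₀ p₁ q₁ q₃ p₃) (hb : ω ∉ CapBad c T m w k₁ r₁ r₃ k₃) :
    fa (pth ω a σ) ∈ Z ∧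
      (((∀ i < σ, fa (pth ω a i) ∉ A) ∧ pth ω a σ ∈ Gd) ↔
        ω ∈ LC.XA c (T : Set (ℤ × ℤ)) w 0 r₁ x₁ r₃ \ LC.XA c (T : Set (ℤ × ℤ)) w 0 r₁ x₂ r₃) := by
  -- the stop of the move in `T₀`
  obtain ⟨θ₀, hθσ, hθ₀⟩ := exists_ent (hZpU hσ') (hZp₀ _ hσ')
  obtain ⟨-, y, hy1, hy2, hyj, -⟩ := h₀.ent hθ₀ hb₀
  have hyZ : fa (pth ω a θ₀) ∈ Z := hZ₀ y hy1 hy2 _ _ hyj (isSide_fa _) hθ₀.out
  have hσθ : σ = θ₀ := by
    by_contra hne
    exact hσ θ₀ (by omega) (hZZp hyZ)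
  subst hσθ
  refine ⟨hyZ, ?_⟩
  -- the stop in `T`
  obtain ⟨θ, hθσ', hθ⟩ := exists_ent (n := σ) (U := U) (T := T) (hZpU hσ') (hZT _ hyZ)
  obtain ⟨-, x, hx1, hx2, hxj, hx⟩ := h.ent hθ hb
  have hmem : ω ∈ LC.XA c (T : Set (ℤ × ℤ)) w 0 r₁ x₁ r₃ \ LC.XA c (T : Set (ℤ × ℤ)) w 0 r₁ x₂ r₃ ↔
      x₁ ≤ x ∧ x < x₂ := by
    rw [Set.mem_sdiff, ← hx x₁, ← hx x₂, not_le]
  rw [hmem, ← hGd x hx1 hx2 _ _ hxj (isSide_fa _) hθ.out]
  constructor
  · rintro ⟨h1, h2⟩
    have hZ : fa (pth ω a θ) ∈ Z := by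
      rcases hZA x hx1 hx2 _ _ hxj (isSide_fa _) hθ.out with h3 | h3
      · exact h3
      · exfalso
        rcases Nat.lt_or_ge θ σ with h4 | h4
        · exact h1 θ h4 h3
        · have : θ = σ := by omega
          subst this
          exact hAZ _ h3 hyZ
    have : θ = σ := by
      by_contra hne
      exact hσ θ (by omega) (hZZp hZ)
    subst this
    exact ⟨h2, hZ⟩
  · rintro ⟨h1, h2⟩
    have : θ = σ := by
      by_contra hne
      exact hσ θ (by omega) (hZZp h2)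
    subst this
    refine ⟨fun i hi hiA => ?_, h1⟩
    rcases hθ.bef i hi with h3 | h3
    · exact hAT _ hiA h3
    · exact h3 (hAU hiA)

end Pool.Agent.SixB
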