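import Pool.Agent.Lib.SixB.S8Close
import Pool.Agent.Lib.SixB.S8Sub
import Pool.Agent.Lib.SixB.S8App

/-!
# Step 8, LABT: the labels of the sides of the true domain of a move

`U` is the fresh component with the contour started at the tip side `A` (`mU` sides), `T ⊆ U` the true
domain of a move, started at the same side (`mT` sides); the sides of `T` which are sides of `U` are
the numbers `< k₁` and `≥ k₃`.

* `exists_tlay`: the first `k₁` sides are the first `k₁` sides of `U`, the last `mT - k₃` sides are the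
  last sides of `U` (numbers `≥ u₃`), and every boundary side of `U` which is joined in `U \ T` to a
  side between `k₁` and `k₃` has a number in `[k₁, u₃)`;
* `TLay.right`, `TLay.left`: if one side near the right (left) end of the cut part is linked to a side
  of `U` with a number `< kt` (`≥ kt`) then `k₁ ≤ kt` (`kt ≤ u₃`): all walls of `T` before (after) the cut
  part have the right label;
* `exists_linkT`: the links of the side `B` of a polygon `P` with `App U P κ d`.
-/

set_option autoImplicit false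

namespace Pool.Agent.SixB.Top

open Finset Pool.Agent.Perc Pool.Agent.Perc6 Pool.Agent.Perc6.C2Aux Pool.Agent.Perc.Tips

/-- The position of the contour of `T` in the contour of `U`. -/
structure TLay (U T : Set (ℤ × ℤ)) (A : UE × Bool) (mU mT k₁ k₃ u₃ : ℕ) : Prop where
  bdU : BD U A
  bdT : BD T A
  perU : Per U mU A
  perT : Per T mT A
  k1 : 0 < k₁
  k13 : k₁ < k₃
  k3 : k₃ ≤ mT
  lt : k₁ ≤ u₃
  sum : u₃ + (mT - k₃) = mU
  fst : ∀ i < k₁, (sc T)^[i] A = (sc U)^[i] A
  lst : ∀ j, k₃ + j ≤ mT → (sc T)^[k₃ + j] A = (sc U)^[u₃ + j] A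
  cut : ∀ r, k₁ ≤ r → r < k₃ → ¬ BD U ((sc T)^[r] A)
  mid : ∀ r, k₁ ≤ r → r < k₃ → ∀ C, BD U C →
    JoinIn (U \ T) (ahead (rv ((sc T)^[r] A))) (ahead C) →
      ∃ v, k₁ ≤ v ∧ v < u₃ ∧ (sc U)^[v] A = C

theorem exists_tlay {U T : Set (ℤ × ℤ)} (hU : U.Finite) (hc : EConn U) (he : Esc U) (hTU : T ⊆ U)
    (hcT : EConn T) {A : UE × Bool} (hAU : BD U A) (hAT : BD T A) {mU mT : ℕ} (hmU : Per U mU A)
    (hmT : Per T mT A) {k₁ k₃ : ℕ} (h1 : 0 < k₁) (h13 : k₁ < k₃) (h3 : k₃ ≤ mT)
    (hcom : ∀ i < mT, (BD U ((sc T)^[i] A) ↔ i < k₁ ∨ k₃ ≤ i)) :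
    ∃ u₃, TLay U T A mU mT k₁ k₃ u₃ := by
  have hTB : ∀ i, BD T ((sc T)^[i] A) := fun i => hAT.iterate i
  have hUB : ∀ i, BD U ((sc U)^[i] A) := fun i => hAU.iterate i
  have hcom' : ∀ i, i ≤ mT → (i < k₁ ∨ k₃ ≤ i) → BD U ((sc T)^[i] A) := by
    intro i hi h
    rcases Nat.lt_or_ge i mT with h4 | h4
    · exact (hcom i h4).2 h
    · have : i = mT := by omega
      rw [this, hmT.per]
      exact hAU
  have hrun : ∀ a b : ℕ, (sc T)^[a] A = (sc U)^[b] A → ∀ j,
      (∀ i ≤ j, BD U ((sc T)^[a + i] A)) → (sc T)^[a + j] A = (sc U)^[b + j] A := by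
    intro a b h0 j
    induction j with
    | zero => intro _; simpa using h0
    | succ j ih =>
      intro hj
      have e1 := ih fun i hi => hj i (by omega)
      have e2 := hj (j + 1) le_rfl
      rw [← add_assoc, Function.iterate_succ_apply'] at e2 ⊢
      rw [← add_assoc, Function.iterate_succ_apply' (sc U)]
      rw [succ_common hU hc he hTU hcT (hj j (by omega)) (hTB (a + j)) e2, e1]
  have hfst : ∀ i < k₁, (sc T)^[i] A = (sc U)^[i] A := by
    intro i hi
    have := hrun 0 0 rfl i (fun j hj => by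
      rw [zero_add]; exact hcom' j (by omega) (Or.inl (by omega)))
    simpa using this
  obtain ⟨a, ha⟩ : ∃ a, k₁ = a + 1 := ⟨k₁ - 1, by omega⟩
  subst ha
  set A1 := (sc T)^[a] A with hA1
  have hA1U : A1 = (sc U)^[a] A := hfst a (by omega)
  have hitT : ∀ i, (sc T)^[i] A1 = (sc T)^[a + i] A := by
    intro i
    rw [hA1, ← Function.iterate_add_apply, add_comm]
  have hitU : ∀ i, (sc U)^[i] A1 = (sc U)^[a + i] A := by
    intro i
    rw [hA1U, ← Function.iterate_add_apply, add_comm]
  have hk : a + (k₃ - a) = k₃ := by omega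
  obtain ⟨l, hl0, hlm, hlB, hln, -, hlC⟩ := next_common hU hc he hTU hcT (A := A1)
    (by rw [hA1U]; exact hUB a) (hTB a) (by rw [hA1U]; exact hmU.shift hAU a) (k := k₃ - a)
    (by omega) (by rw [hitT, hk]; exact hcom' k₃ h3 (Or.inr le_rfl))
    (fun i h0 hi => by
      rw [hitT]
      intro hB
      have := (hcom (a + i) (by omega)).1 hB
      omega)
  rw [hitU, hitT, hk] at hlB
  have hlst : ∀ j, k₃ + j ≤ mT → (sc T)^[k₃ + j] A = (sc U)^[a + l + j] A := by
    intro j hj
    exact hrun k₃ (a + l) hlB.symm j fun i hi => hcom' _ (by omega) (Or.inr (by omega))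
  -- no return before
  have hno : ∀ i, 0 < i → i < a + l + (mT - k₃) → (sc U)^[i] A ≠ A := by
    intro i h0 hi hA
    rcases Nat.lt_or_ge a i with h4 | h4
    · rcases Nat.lt_or_ge i (a + l) with h5 | h5
      · apply hln (i - a) (by omega) (by omega)
        rw [hitU, show a + (i - a) = i by omega, hA]
        exact hAT.1
      · have e := hlst (i - (a + l)) (by omega)
        rw [show a + l + (i - (a + l)) = i by omega, hA] at e
        have := hmT.inj (k₃ + (i - (a + l))) (by omega) 0 hmT.pos (by simpa using e)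
        omega
    · have e := hfst i (by omega)
      rw [hA] at e
      have := hmT.inj i (by omega) 0 hmT.pos (by simpa using e)
      omega
  have hper : (sc U)^[a + l + (mT - k₃)] A = A := by
    have := hlst (mT - k₃) (by omega)
    rw [show k₃ + (mT - k₃) = mT by omega, hmT.per] at this
    exact this.symm
  have hsum : a + l + (mT - k₃) = mU := by
    apply le_antisymm
    · by_contra hcon
      push Not at hcon
      exact hno mU hmU.pos hcon hmU.per
    · by_contra hcon
      push Not at hcon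
      have := hmU.inj _ hcon 0 hmU.pos (by simpa using hper)
      omega
  refine ⟨a + l, hAU, hAT, hmU, hmT, h1, h13, h3, by omega, hsum, hfst, hlst, ?_, ?_⟩
  · intro r hr1 hr3 hB
    have := (hcom r (by omega)).1 hB
    omega
  · intro r hr1 hr3 C hC hJ
    obtain ⟨j, hj0, hjl, hjC⟩ := hlC (r - a) (by omega) (by omega) C hC
      (by rw [hitT, show a + (r - a) = r by omega]; exact hJ)
    rw [hitU] at hjC
    exact ⟨a + j, by omega, by omega, hjC⟩

/-- The boundary side `C` of `U` is linked to the side `B` of `T`: equal, or joined behind `B` in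
`U \ T`. -/
def LinkT (U T : Set (ℤ × ℤ)) (B C : UE × Bool) : Prop :=
  B = C ∨ (ahead (rv B) ∈ U ∧ JoinIn (U \ T) (ahead (rv B)) (ahead C))

namespace TLay

variable {U T : Set (ℤ × ℤ)} {A : UE × Bool} {mU mT k₁ k₃ u₃ kt r v : ℕ}

theorem u3_le (h : TLay U T A mU mT k₁ k₃ u₃) : u₃ ≤ mU := by
  have := h.sum; omega

/-- Label at the right end. -/
theorem right (h : TLay U T A mU mT k₁ k₃ u₃) (hkt : kt ≤ mU) (hr : k₁ ≤ r + 1) (hr3 : r < k₃)
    (hv : v < kt) (hl : LinkT U T ((sc T)^[r] A) ((sc U)^[v] A)) : k₁ ≤ kt := by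
  have hBv : BD U ((sc U)^[v] A) := h.bdU.iterate v
  have h2 := h.u3_le
  have h4 := h.lt
  rcases hl with hl | ⟨hgU, hl⟩
  · rcases Nat.lt_or_ge r k₁ with h3 | h3
    · have e := h.fst r h3
      rw [hl] at e
      have := h.perU.inj v (by omega) r (by omega) e
      omega
    · exact absurd (by rw [hl]; exact hBv) (h.cut r h3 hr3)
  · rcases Nat.lt_or_ge r k₁ with h3 | h3
    · exfalso
      have e := h.fst r h3
      have := (h.bdU.iterate r).2
      rw [← e] at this
      exact this hgU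
    · obtain ⟨v', g1, g2, g3⟩ := h.mid r h3 hr3 _ hBv hl
      have := h.perU.inj v (by omega) v' (by omega) g3.symm
      omega

/-- Label at the left end. -/
theorem left (h : TLay U T A mU mT k₁ k₃ u₃) (hr : k₁ ≤ r) (hr3 : r ≤ k₃) (hrm : r < mT)
    (hv : kt ≤ v) (hvm : v < mU) (hl : LinkT U T ((sc T)^[r] A) ((sc U)^[v] A)) : kt ≤ u₃ := by
  have hBv : BD U ((sc U)^[v] A) := h.bdU.iterate v
  have hs := h.sum
  have h2 := h.u3_le
  rcases Nat.lt_or_ge r k₃ with h3 | h3
  · rcases hl with hl | ⟨hgU, hl⟩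
    · exact absurd (by rw [hl]; exact hBv) (h.cut r hr h3)
    · obtain ⟨v', g1, g2, g3⟩ := h.mid r hr h3 _ hBv hl
      have := h.perU.inj v hvm v' (by omega) g3.symm
      omega
  · have hrk : r = k₃ := by omega
    subst hrk
    have e := h.lst 0 (by omega)
    rw [add_zero, add_zero] at e
    rcases hl with hl | ⟨hgU, hl⟩
    · rw [hl] at e
      have := h.perU.inj v hvm u₃ (by omega) e
      omega
    · exfalso
      have := (h.bdU.iterate u₃).2
      rw [← e] at this
      exact this hgU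

/-- The walls before the cut part. -/
theorem lab_right (h : TLay U T A mU mT k₁ k₃ u₃) (hR : k₁ ≤ kt) {i : ℕ} (hi : i < k₁) :
    i < kt ∧ (sc T)^[i] A = (sc U)^[i] A := ⟨by omega, h.fst i hi⟩

/-- The walls after the cut part. -/
theorem lab_left (h : TLay U T A mU mT k₁ k₃ u₃) (hL : kt ≤ u₃) {i : ℕ} (h3 : k₃ ≤ i)
    (hi : i < mT) : ∃ v, kt ≤ v ∧ v < mU ∧ (sc T)^[i] A = (sc U)^[v] A := by
  have hs := h.sum
  refine ⟨u₃ + (i - k₃), by omega, by omega, ?_⟩
  have := h.lst (i - k₃) (by omega)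
  rwa [show k₃ + (i - k₃) = i by omega] at this

end TLay

/-! ### Links of an inner approximation -/

theorem chn_iff {S : Set (ℤ × ℤ)} {f g : ℤ × ℤ} : Chn S f g ↔ f ∈ S ∧ ChI S f g := by
  unfold Chn ChI
  have : (fun a b => Adj a b ∧ b ∈ S) = fun a b => AdjF a b ∧ b ∈ S := by
    funext a b
    rw [adj_iff_adjFL]
  rw [this]

/-- The part of the class of `g` which belongs to the component of `g` in `U`. -/
def capC {ι : Type*} (U : Set (ℤ × ℤ)) (κ : ℤ × ℤ → ι) (g : ℤ × ℤ) : Set (ℤ × ℤ) :=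
  compT ({x | κ x = κ g} ∩ U) g

variable {ι : Type*} {U P T : Set (ℤ × ℤ)} {κ : ℤ × ℤ → ι} {d : ℤ} {B : UE × Bool}

/-- **Links.** A boundary side of `P` is a boundary side of `U`, or the class behind it contains, in
the component of the outer face, a face with a boundary side of `U`. -/
theorem exists_linkU (h : App U P κ d) (hB : BD P B) :
    ∃ C, BD U C ∧ (B = C ∨ (ahead (rv B) ∈ U ∧ ahead C ∈ capC U κ (ahead (rv B)))) := by
  by_cases hg : ahead (rv B) ∈ U
  · obtain ⟨x, hx1, hx2⟩ := h.out _ hB.1 _ (adj_iff_adjFL.2 (adjF_ahead B).symm) hB.2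
    have hch := (chn_iff.1 (h.cell _ _ hx1.symm)).2
    have key : ∀ y, ChI {z | κ z = κ (ahead (rv B))} (ahead (rv B)) y →
        (∃ C, BD U C ∧ ahead C ∈ capC U κ (ahead (rv B))) ∨ y ∈ capC U κ (ahead (rv B)) := by
      intro y hy
      induction hy with
      | refl => exact Or.inr self_mem_compT
      | @tail b c _ hs ih =>
        rcases ih with ih | ih
        · exact Or.inl ih
        · by_cases hcU : c ∈ U
          · exact Or.inr (compT_step ih hs.1 ⟨hs.2, hcU⟩)
          · left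
            obtain ⟨C, hC1, hC2⟩ := adjF_dir hs.1
            have hbU : b ∈ U := (compT_sub (show ahead (rv B) ∈
              {x | κ x = κ (ahead (rv B))} ∩ U from ⟨rfl, hg⟩) ih).2
            exact ⟨C, ⟨by rw [hC1]; exact hbU, by rw [hC2]; exact hcU⟩, by rw [hC1]; exact ih⟩
    rcases key x hch with ⟨C, hC, hC'⟩ | hx
    · exact ⟨C, hC, Or.inr ⟨hg, hC'⟩⟩
    · exact absurd (compT_sub (show ahead (rv B) ∈
        {x | κ x = κ (ahead (rv B))} ∩ U from ⟨rfl, hg⟩) hx).2 hx2
  · exact ⟨B, ⟨h.sub hB.1, hg⟩, Or.inl rfl⟩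

/-- A link of `exists_linkU` is a link with respect to a region which does not meet the cap. -/
theorem linkT_of (hdis : ∀ x ∈ capC U κ (ahead (rv B)), x ∉ T) {C : UE × Bool}
    (h : B = C ∨ (ahead (rv B) ∈ U ∧ ahead C ∈ capC U κ (ahead (rv B)))) : LinkT U T B C := by
  rcases h with h | ⟨h1, h2⟩
  · exact Or.inl h
  · refine Or.inr ⟨h1, ?_⟩
    have hsub : capC U κ (ahead (rv B)) ⊆ U \ T := fun x hx =>
      ⟨(compT_sub (show ahead (rv B) ∈ {x | κ x = κ (ahead (rv B))} ∩ U from ⟨rfl, h1⟩) hx).2,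
        hdis x hx⟩
    have h3 : ChI (capC U κ (ahead (rv B))) (ahead (rv B)) (ahead C) :=
      compT_chain self_mem_compT h2
    exact h3.mono hsub

end Pool.Agent.SixB.Top
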