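import Pool.Agent.Lib.SixB.S8LayBar
import Pool.Agent.Lib.SixB.S8KerDet
import Pool.Agent.Lib.SixB.S8TipIn
import Pool.Agent.Lib.SixB.S8LabT

/-!
# Step 8: the true domain of a move is a `CapDom`

* `WallsU`: the walls of the fresh region `U` (contour started at the tip side `A`): the ends of colour
  `c` of the sides `1, ..., kt - 1` are joined outside `U` to the right end of the tip side, the ends of
  the other colour of the sides `kt, ..., mU - 1` to the left end.
* `wallsU_of_solid`: from the colours of the outer faces.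
* `LayBar.tlay`, `LayBar.kt_right`, `LayBar.kt_left`: the labels of the walls of `T` from links at the
  two ends of the stop arc.
* `LayCap.capDom`: the data `CapDom` for the region `T` of a move.
-/

set_option autoImplicit false

namespace Pool.Agent.SixB.Mv

open Finset Pool.Agent.Perc Pool.Agent.Perc6 Pool.Agent.Perc6.C2Aux Pool.Agent.Perc.Tips
open Pool.Agent.SixB.Top

/-- The walls of the fresh region. -/
structure WallsU (ω : Cfg) (c : ℤ) (R U : Set (ℤ × ℤ)) (A : UE × Bool) (mU kt : ℕ) : Prop where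
  right : ∀ v, 1 ≤ v → v < kt → ∀ p, (p = vert U A v ∨ p = vert U A (v + 1)) → par p = c →
    Conn ω (R \ U) (vert U A 1) p
  left : ∀ v, kt ≤ v → v < mU → ∀ p, (p = vert U A v ∨ p = vert U A (v + 1)) → par p ≠ c →
    Conn ω (R \ U) (vert U A 0) p

variable {ω : Cfg} {c : ℤ} {R U D : Set (ℤ × ℤ)} {T : Finset (ℤ × ℤ)} {A B : UE × Bool}
  {k₁ k₃ mU M s t u K kt : ℕ} {cR cL : Set (ℤ × ℤ)}

/-- The walls from the colours of the outer faces: every corner of colour `c` (other colour) of a face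
outside `U` with the diagonal of this colour is joined to the tip. -/
theorem wallsU_of_solid
    (hr : ∀ g, g ∉ U → g ∈ R → ω g = !parD c g → ∀ p, IsCor g p → par p = c →
      Conn ω (R \ U) (vert U A 1) p)
    (hl : ∀ g, g ∉ U → g ∈ R → ω g = parD c g → ∀ p, IsCor g p → par p ≠ c →
      Conn ω (R \ U) (vert U A 0) p)
    (hA : BD U A)
    (lr : ∀ v, 1 ≤ v → v < kt → outF U A v ∈ R ∧ ω (outF U A v) = !parD c (outF U A v))
    (ll : ∀ v, kt ≤ v → v < mU → outF U A v ∈ R ∧ ω (outF U A v) = parD c (outF U A v)) :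
    WallsU ω c R U A mU kt := by
  have hcor : ∀ v p, (p = vert U A v ∨ p = vert U A (v + 1)) → IsCor (outF U A v) p := by
    rintro v p (rfl | rfl)
    · exact isCor_out_lf _
    · rw [vert_succ]
      exact isCor_out_rg _
  constructor
  · intro v h1 h2 p hp hpc
    obtain ⟨h3, h4⟩ := lr v h1 h2
    exact hr _ (bd_side hA v).2 h3 h4 p (hcor v p hp) hpc
  · intro v h1 h2 p hp hpc
    obtain ⟨h3, h4⟩ := ll v h1 h2
    exact hl _ (bd_side hA v).2 h3 h4 p (hcor v p hp) hpc

/-- A face of `U \ T` is joined in `U \ T` to a face with a corner on one of the walls. -/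
theorem exists_wall_corner (hU : U.Finite) (hc : c = 0 ∨ c = 1) (eT : Esc (T : Set (ℤ × ℤ)))
    (hUc : Cyc U A mU) (hAT : ahead A ∈ T) (W : WallsU ω c R U A mU kt) {y : ℤ × ℤ} (hy : y ∈ U)
    (hyT : y ∉ T) : ∃ g z, ChI (U \ T) y g ∧ IsCor g z ∧
      (Conn ω (R \ U) (vert U A 1) z ∨ Conn ω (R \ U) (vert U A 0) z) := by
  obtain ⟨C, hC, hch⟩ := exists_bd_of_esc hU eT hy (fun h => hyT (Finset.mem_coe.1 h))
  obtain ⟨v, hv, hvC⟩ := hUc.exists_index hC
  have hCT : ahead C ∈ U \ (T : Set (ℤ × ℤ)) :=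
    ChI.mem ⟨hy, fun h => hyT (Finset.mem_coe.1 h)⟩ hch
  have hv0 : v ≠ 0 := by
    rintro rfl
    rw [← hvC] at hCT
    exact hCT.2 (Finset.mem_coe.2 hAT)
  have hj := joins_side (D := U) (A := A) v
  have hpar := hj.par_ne
  have hpc := par_cases (vert U A v)
  have hpc' := par_cases (vert U A (v + 1))
  have c1 : IsCor (ahead C) (vert U A v) := by
    rw [← hvC]
    exact isCor_in_lf _
  have c2 : IsCor (ahead C) (vert U A (v + 1)) := by
    rw [← hvC, vert_succ]
    exact isCor_in_rg _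
  rcases Nat.lt_or_ge v kt with h1 | h1
  · by_cases h2 : par (vert U A v) = c
    · exact ⟨_, _, hch, c1, Or.inl (W.right v (by omega) h1 _ (Or.inl rfl) h2)⟩
    · by_cases h3 : par (vert U A (v + 1)) = c
      · exact ⟨_, _, hch, c2, Or.inl (W.right v (by omega) h1 _ (Or.inr rfl) h3)⟩
      · exfalso
        omega
  · by_cases h2 : par (vert U A v) = c
    · by_cases h3 : par (vert U A (v + 1)) = c
      · exact absurd (h2.trans h3.symm) hpar
      · exact ⟨_, _, hch, c2, Or.inr (W.left v h1 hv _ (Or.inr rfl) h3)⟩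
    · exact ⟨_, _, hch, c1, Or.inr (W.left v h1 hv _ (Or.inl rfl) h2)⟩

/-- The layout in the form of `S8LabT`. -/
theorem LayBar.tlay {T : Set (ℤ × ℤ)} (h : LayBar U T D A B k₁ k₃ mU M s t u K) :
    TLay U T A mU M (s + 1) t u where
  bdU := h.cycU.bd
  bdT := h.cycT.bd
  perU := ⟨h.cycU.pos, h.cycU.per, h.cycU.inj⟩
  perT := ⟨h.cycT.pos, h.cycT.per, h.cycT.inj⟩
  k1 := by omega
  k13 := h.st
  k3 := h.le
  lt := h.su
  sum := h.len
  fst := fun i hi => h.fst i (by omega)
  lst := fun j hj => h.lst j hj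
  cut := fun r h1 h2 hB => hB.2 (h.mid r (by omega) h2)
  mid := by
    intro r h1 h2 C hC hJ
    have hr : ahead (rv ((sc T)^[r] A)) ∈ U \ T :=
      ⟨h.mid r (by omega) h2, (bd_side h.cycT.bd r).2⟩
    have hCT : ahead C ∈ U \ T := JoinIn.mem hr hJ
    obtain ⟨j, hj1, hj2, hj3⟩ := h.exists_index_of_notMem hC hCT.2
    exact ⟨j, by omega, hj2, hj3⟩

/-- Right end: the last side of `D` before the stop arc is linked to a side with a number `< kt`. -/
theorem LayBar.kt_right {T : Set (ℤ × ℤ)} (h : LayBar U T D A B k₁ k₃ mU M s t u K)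
    (hkt : kt ≤ mU) {v : ℕ} (hv : v < kt) (hl : LinkT U T (side D B (k₁ - 1)) (side U A v)) :
    s + 1 ≤ kt := by
  have hsK := h.sK
  have hKt := h.Kt
  have hst := h.st
  refine h.tlay.right hkt (r := K - 1) (by omega) (by omega) hv ?_
  have := h.prev
  unfold side at this hl
  rw [this]
  exact hl

/-- Left end: the first side of `D` after the stop arc is linked to a side with a number `≥ kt`. -/
theorem LayBar.kt_left {T : Set (ℤ × ℤ)} (h : LayBar U T D A B k₁ k₃ mU M s t u K)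
    (hk : k₁ ≤ k₃) {v : ℕ} (hv : kt ≤ v) (hvm : v < mU)
    (hl : LinkT U T (side D B k₃) (side U A v)) : kt ≤ u := by
  have hsK := h.sK
  have hKt := h.Kt
  have hst := h.st
  have hle := h.le
  have hlen := h.len
  rcases Nat.lt_or_ge (K + (k₃ - k₁)) M with h1 | h1
  · refine h.tlay.left (r := K + (k₃ - k₁)) (by omega) hKt h1 hv hvm ?_
    have := h.arc (k₃ - k₁) le_rfl
    rw [show k₁ + (k₃ - k₁) = k₃ by omega] at this
    unfold side at this hl
    rw [this]
    exact hl
  · omega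

/-- **The true domain of a move.** -/
theorem LayCap.capDom (h : LayCap U (T : Set (ℤ × ℤ)) D A B k₁ k₃ mU M s t u K cR cL)
    (hU : U.Finite) (cU : EConn U) (hR : HasPot R) (UR : U ⊆ R)
    (TU : (T : Set (ℤ × ℤ)) ⊆ U) (cT : EConn (T : Set (ℤ × ℤ))) (eT : Esc (T : Set (ℤ × ℤ)))
    (W : WallsU ω c R U A mU kt) (hc : c = 0 ∨ c = 1) (hpc : par (rg A) = c)
    (hk1 : s + 1 ≤ kt) (hk3 : kt ≤ u) (hfa : fa A.1 = ahead A) (hfb : fb A.1 = ahead (rv A)) :
    CapDom ω c R U T M (vert (T : Set (ℤ × ℤ)) A) (s + 1) K (K + (k₃ - k₁)) t A.1 := by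
  have hst := h.st
  have htM := h.le
  have hsK := h.sK
  have hKt := h.Kt
  have hlen := h.len
  have hbT : BD (T : Set (ℤ × ℤ)) A := h.cycT.bd
  have hbU : BD U A := h.cycU.bd
  have hmono : R \ U ⊆ R \ (T : Set (ℤ × ℤ)) := fun x hx => ⟨hx.1, fun hh => hx.2 (TU hh)⟩
  have hv0 : vert (T : Set (ℤ × ℤ)) A 0 = vert U A 0 := rfl
  have hv1 : vert (T : Set (ℤ × ℤ)) A 1 = vert U A 1 := by
    rw [show (1 : ℕ) = 0 + 1 from rfl, vert_succ, vert_succ]
    rfl
  have wbU : ∀ i, 1 ≤ i → i < s + 1 → ∀ y, (y = i ∨ y = i + 1) →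
      par (vert (T : Set (ℤ × ℤ)) A y) = c →
      Conn ω (R \ U) (vert (T : Set (ℤ × ℤ)) A 1) (vert (T : Set (ℤ × ℤ)) A y) := by
    intro i h1 h2 y hy hp
    have e : vert (T : Set (ℤ × ℤ)) A y = vert U A y := h.vert_fst (by omega)
    rw [e] at hp
    rw [e, hv1]
    refine W.right i h1 (by omega) _ ?_ hp
    rcases hy with rfl | rfl
    · exact Or.inl rfl
    · exact Or.inr rfl
  have wlU : ∀ i, t ≤ i → i < M → ∀ y, (y = i ∨ y = i + 1) →
      par (vert (T : Set (ℤ × ℤ)) A y) ≠ c →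
      Conn ω (R \ U) (vert (T : Set (ℤ × ℤ)) A 0) (vert (T : Set (ℤ × ℤ)) A y) := by
    intro i h1 h2 y hy hp
    have e : vert (T : Set (ℤ × ℤ)) A y = vert U A (u + (y - t)) := by
      have := h.vert_lst (j := y - t) (by omega)
      rwa [show t + (y - t) = y by omega] at this
    rw [e] at hp
    rw [e, hv0]
    refine W.left (u + (i - t)) (by omega) (by omega) _ ?_ hp
    rcases hy with rfl | rfl
    · exact Or.inl rfl
    · exact Or.inr (by rw [show u + (i + 1 - t) = u + (i - t) + 1 by omega])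
  have hside : ∀ i e, Joins e (vert (T : Set (ℤ × ℤ)) A i) (vert (T : Set (ℤ × ℤ)) A (i + 1)) →
      ∀ g, IsSide g e → g = inF (T : Set (ℤ × ℤ)) A i ∨ g = outF (T : Set (ℤ × ℤ)) A i := by
    intro i e he g hg
    have h3 : e = (side (T : Set (ℤ × ℤ)) A i).1 := (Joins.uniq (joins_side i) he).symm
    subst h3
    rcases side_two (ahead_ne (side (T : Set (ℤ × ℤ)) A i)) (sideA _) (sideB _) hg with h4 | h4
    · exact Or.inl h4
    · exact Or.inr h4
  have hinT : ∀ i, inF (T : Set (ℤ × ℤ)) A i ∈ (T : Set (ℤ × ℤ)) := fun i => (bd_side hbT i).1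
  refine
    { hR := hR
      UR := UR
      TU := TU
      cT := cT
      ctr := h.cycT.ctr
      h1 := by omega
      h13 := by omega
      h3 := htM
      tip := joins_side 0
      faT := by rw [hfa]; exact Finset.mem_coe.1 hbT.1
      fbU := by rw [hfb]; exact hbU.2
      parc := by rw [hv1, show (1 : ℕ) = 0 + 1 from rfl, vert_succ]; exact hpc
      cut := ?_
      wb := fun i h1 h2 y hy hp => (wbU i h1 h2 y hy hp).mono hmono
      wl := fun i h1 h2 y hy hp => (wlU i h1 h2 y hy hp).mono hmono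
      q := ?_
      cU := cU
      hr1 := by omega
      hr3 := by omega
      wall := ?_
      wbU := wbU
      wlU := wlU }
  · intro i h1 h2 e g he hg
    rcases hside i e he g hg with h3 | h3
    · rw [h3]
      exact TU (hinT i)
    · rw [h3]
      exact h.mid i (by omega) h2
  · have hm := h.mid (s + 1) (by omega) hst
    have hmT : outF (T : Set (ℤ × ℤ)) A (s + 1) ∉ T := fun hh =>
      outF_notMem hbT (s + 1) (Finset.mem_coe.2 hh)
    obtain ⟨g, z, h1, h2, h3⟩ := exists_wall_corner hU hc eT h.cycU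
      (Finset.mem_coe.1 hbT.1) W hm hmT
    refine ⟨s + 1, (side (T : Set (ℤ × ℤ)) A (s + 1)).1, outF (T : Set (ℤ × ℤ)) A (s + 1), g, z,
      le_rfl, hst, joins_side (s + 1), sideB _, hmT, ?_, h2, ?_⟩
    · exact h1.stepC fun f hf => not_not.2 hf
    · rw [hv0, hv1]
      exact h3.imp (fun hh => hh.mono hmono) (fun hh => hh.mono hmono)
  · intro i h1 h2 e g he hg hgT
    rcases hside i e he g hg with h3 | h3
    · exact absurd (Finset.mem_coe.1 (h3 ▸ hinT i)) hgT
    · rw [h3]
      rcases h2 with h2 | h2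
      · exact h.outR (by omega)
      · exact h.outL h2 h1.le

end Pool.Agent.SixB.Mv
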