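import Pool.Agent.Lib.SixB.S8Stop
import Pool.Agent.Lib.SixB.S8CapInst

/-!
# Step 8: the stop of the strand, instance

* `Clo.target_notMem`: the true target face, linked inside one class to a coarse target side of `P` whose
  face is not in `D`, is not in the region `T` of the move.
* `WallsU.tgt`, `WallsU.tgt'`: the target side of `U` is between the two common arcs of `T` and `U`: `Tgt`.
* `LayCap.tgt`, `LayCap.exists_stop`: the strand stops.
-/

set_option autoImplicit false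

namespace Pool.Agent.SixB.Top

open Finset Pool.Agent.Perc Pool.Agent.Perc6 Pool.Agent.Perc6.C2Aux Pool.Agent.Perc.Tips

/-- **The target.** `q` is the face of `P` at the coarse target side, not in `D` (no end of the step). The
face `y` is `q`, or it is joined to a face `g` next to `q` in a set `κ` of faces outside `P` which the caps
respect. Then `y` is not in `T`. -/
theorem Clo.target_notMem {U P D T cR cL κ : Set (ℤ × ℤ)} {A : UE × Bool} {k₁ k₃ m : ℕ}
    (H : Clo U P D T A k₁ k₃ m cR cL)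
    (hcomp : ∀ t ∈ T, ∀ g, AdjF t g → g ∉ T → g ∉ U ∨ g ∈ P ∨ g ∈ cR ∨ g ∈ cL)
    {q g y : ℤ × ℤ} (hq : q ∈ P) (hqD : q ∉ D) (hgq : AdjF g q) (hg : g ∈ κ)
    (hκU : κ ⊆ U) (hκP : ∀ f ∈ κ, f ∉ P)
    (hR : ∀ f ∈ κ, ∀ f' ∈ κ, AdjF f f' → f ∈ cR → f' ∈ cR)
    (hL : ∀ f ∈ κ, ∀ f' ∈ κ, AdjF f f' → f ∈ cL → f' ∈ cL) (hl : y = q ∨ ChI κ g y) : y ∉ T := by
  intro hy
  rcases hl with rfl | hl
  · exact hqD (H.inter hy hq)
  · have key : ∀ {z : ℤ × ℤ}, ChI κ g z → z ∈ T → g ∈ T := by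
      intro z hz
      induction hz with
      | refl => exact fun h => h
      | @tail b d hb hs ih =>
        intro hd
        have hbκ : b ∈ κ := ChI.mem hg hb
        apply ih
        by_contra hbT
        rcases hcomp d hd b hs.1.symm hbT with h | h | h | h
        · exact h (hκU hbκ)
        · exact hκP b hbκ h
        · exact H.RT d (hR b hbκ d hs.2 hs.1 h) hd
        · exact H.LT d (hL b hbκ d hs.2 hs.1 h) hd
    have hgT := key hl hy
    exact H.not_adj hgT (fun h => hκP g hg (H.DP h)) hq hqD hgq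

end Pool.Agent.SixB.Top

namespace Pool.Agent.SixB.Mv

open Finset Pool.Agent.Perc Pool.Agent.Perc6 Pool.Agent.Perc6.C2Aux Pool.Agent.Perc.Tips
open Pool.Agent.SixB.Top

variable {ω : Cfg} {c : ℤ} {R U D : Set (ℤ × ℤ)} {T : Finset (ℤ × ℤ)} {A B : UE × Bool}
  {k₁ k₃ mU M s t u K kt x : ℕ} {cR cL : Set (ℤ × ℤ)}

/-- Number of the target side: `kt` or `kt - 1`, depending on the parity of the vertex `kt`. -/
def IsTgt (U : Set (ℤ × ℤ)) (A : UE × Bool) (c : ℤ) (kt x : ℕ) : Prop :=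
  (x = kt ∧ par (vert U A kt) = c) ∨ (x + 1 = kt ∧ par (vert U A kt) ≠ c)

/-- The ends of the target side are joined to the two walls. -/
theorem WallsU.ends (W : WallsU ω c R U A mU kt) (hc : c = 0 ∨ c = 1) (hkt : 1 ≤ kt) (hkm : kt ≤ mU)
    (hper : vert U A mU = vert U A 0) (hx0 : 1 ≤ x) (hxm : x < mU) (hx : IsTgt U A c kt x) :
    Conn ω (R \ U) (vert U A 1) (en c (side U A x).1) ∧
      Conn ω (R \ U) (vert U A 0) (en (1 - c) (side U A x).1) := by
  have hj := joins_side (D := U) (A := A) x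
  have hpar := hj.par_ne
  have c1 := par_cases (vert U A x)
  have c2 := par_cases (vert U A (x + 1))
  rcases hx with ⟨rfl, hp⟩ | ⟨hxk, hp⟩
  · have e1 : en c (side U A x).1 = vert U A x := en_joins hj hp
    have e2 : en (1 - c) (side U A x).1 = vert U A (x + 1) := en_joins hj.symm (by omega)
    rw [e1, e2]
    refine ⟨?_, W.left x le_rfl hxm _ (Or.inr rfl) (by omega)⟩
    rcases Nat.lt_or_ge 1 x with h1 | h1
    · refine W.right (x - 1) (by omega) (by omega) _ (Or.inr ?_) hp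
      rw [Nat.sub_add_cancel (by omega)]
    · obtain rfl : x = 1 := by omega
      exact Relation.ReflTransGen.refl
  · rw [← hxk] at hp
    have e1 : en c (side U A x).1 = vert U A x := en_joins hj (by omega)
    have e2 : en (1 - c) (side U A x).1 = vert U A (x + 1) := en_joins hj.symm (by omega)
    rw [e1, e2]
    refine ⟨W.right x hx0 (by omega) _ (Or.inl rfl) (by omega), ?_⟩
    rcases Nat.lt_or_ge kt mU with h1 | h1
    · rw [hxk]
      rw [hxk] at hp
      exact W.left kt le_rfl h1 _ (Or.inl rfl) hp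
    · have : kt = mU := by omega
      rw [hxk, this, hper]
      exact Relation.ReflTransGen.refl

theorem LayBar.per_vert {T : Set (ℤ × ℤ)} (h : LayBar U T D A B k₁ k₃ mU M s t u K) :
    vert U A mU = vert U A 0 := by
  unfold vert
  rw [h.cycU.per]
  rfl

/-- **The target**, from the target side with a face outside `T`. -/
theorem LayCap.tgt (h : LayCap U (T : Set (ℤ × ℤ)) D A B k₁ k₃ mU M s t u K cR cL)
    (cU : Top.EConn U) (TU : (T : Set (ℤ × ℤ)) ⊆ U) (W : WallsU ω c R U A mU kt)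
    (hc : c = 0 ∨ c = 1) (hkt : 1 ≤ kt) (hkm : kt ≤ mU) (hxm : x < mU) (hx : IsTgt U A c kt x)
    (hxT : inF U A x ∉ (T : Set (ℤ × ℤ))) :
    Tgt ω R U T (vert (T : Set (ℤ × ℤ)) A) (s + 1) t := by
  have hbT : BD (T : Set (ℤ × ℤ)) A := h.cycT.bd
  have hbU : BD U A := h.cycU.bd
  have hmono : R \ U ⊆ R \ (T : Set (ℤ × ℤ)) := fun x hx => ⟨hx.1, fun hh => hx.2 (TU hh)⟩
  obtain ⟨hx1, hx2⟩ := h.index_of_notMem hxm.le hxT
  have hv0 : vert (T : Set (ℤ × ℤ)) A 0 = vert U A 0 := rfl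
  have hv1 : vert (T : Set (ℤ × ℤ)) A 1 = vert U A 1 := by
    rw [show (1 : ℕ) = 0 + 1 from rfl, vert_succ, vert_succ]
    rfl
  obtain ⟨g1, g2⟩ := W.ends hc hkt hkm h.toLayBar.per_vert (by omega) hxm hx
  have hinT : ∀ i, inF (T : Set (ℤ × ℤ)) A i ∈ (T : Set (ℤ × ℤ)) := fun i => (bd_side hbT i).1
  refine tgt_of_side (c := c) (P := U) (f := ahead A) (gx := inF U A x) (x := (side U A x).1) h.cycT.ctr ?_ cU
    (fun _ hh => hh) hbU.1 (Finset.mem_coe.1 hbT.1) (bd_side hbU x).1 (fun hh => hxT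
    (Finset.mem_coe.2 hh)) (sideA _) ?_ ?_
  · intro i h1 h2 e g he hg hgT
    have h3 : e = (side (T : Set (ℤ × ℤ)) A i).1 := (Joins.uniq (joins_side i) he).symm
    subst h3
    rcases side_two (ahead_ne (side (T : Set (ℤ × ℤ)) A i)) (sideA _) (sideB _) hg with h4 | h4
    · exact absurd (Finset.mem_coe.1 (h4 ▸ hinT i)) hgT
    · rw [h4]
      rcases h2 with h2 | h2
      · exact h.outR (by omega)
      · exact h.outL h2 h1.le
  · rw [hv1]
    exact g1.mono hmono
  · rw [hv0]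
    exact g2.mono hmono

/-- **The strand stops** (the true domain of a move, with the target outside of `T`). -/
theorem LayCap.exists_stop (h : LayCap U (T : Set (ℤ × ℤ)) D A B k₁ k₃ mU M s t u K cR cL)
    (hU : U.Finite) (cU : Top.EConn U) (hR : HasPot R) (UR : U ⊆ R)
    (TU : (T : Set (ℤ × ℤ)) ⊆ U) (cT : Top.EConn (T : Set (ℤ × ℤ))) (eT : Esc (T : Set (ℤ × ℤ)))
    (W : WallsU ω c R U A mU kt) (hc : c = 0 ∨ c = 1) (hpc : par (rg A) = c)
    (hkm : kt ≤ mU) (hk1 : s + 1 ≤ kt) (hk3 : kt ≤ u) (hfa : fa A.1 = ahead A)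
    (hfb : fb A.1 = ahead (rv A)) (hxm : x < mU) (hx : IsTgt U A c kt x)
    (hxT : inF U A x ∉ (T : Set (ℤ × ℤ))) {d : ℤ} (hd : d = 0 ∨ d = 1) {F : Finset (ℤ × ℤ)}
    (hω : ∀ g, g ∉ F → ω g = parD d g) : ∃ n, Ent ω U T A.1 n :=
  (h.capDom hU cU hR UR TU cT eT W hc hpc hk1 hk3 hfa hfb).toTipDom.exists_stop_solid
    (h.tgt cU TU W hc (by omega) hkm hxm hx hxT) hd hω

end Pool.Agent.SixB.Mv
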