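import Pool.Agent.Lib.SixB.S8MoveT
import Pool.Agent.Lib.SixB.S8StopInst
import Pool.Agent.Lib.SixB.S8Blow

/-!
# Step 8: the target invariant

`TgI U κ B y`: the true target face `y` is the face of the coarse target side `B`, or it is joined to the
outer face of `B` inside the class of this face in `U`.

* `TgI.mem`, `TgI.near`: `y ∈ U`, and `y` is near the face of `B`;
* `TgI.cap_notMem`, `TgI.notMem`: in a move which is not the last one, the class part at the target is
  disjoint from the true domain `T`;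
* `TgI.step`: the invariant after the faces `N` are removed, if `N` is disjoint from the class part at the
  target and the classes of the old partition are contained in classes of the new one;
* `TgI.eq_comp`: the component of `y` in `U \ N` is the component of the face of `B`; `TgI.sub_comp`: it
  contains the new coarse set;
* `TSide.tgi_notMem`, `TSide.tgi_step`: the instance for the true side of a move with a regular stop;
* `ahead_notMem_inn`, `ahead_notMem_blow`: the face of the coarse target side is not in the inner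
  domain.
-/

set_option autoImplicit false

namespace Pool.Agent.SixB.Mv

open Pool.Agent.Perc Pool.Agent.Perc6 Pool.Agent.Perc6.C2Aux Pool.Agent.Perc.Tips
open Pool.Agent.SixB.Top Pool.Agent.SixB.CloK Pool.Agent.SixB.Blow

variable {ι ι' : Type*} {U P G T N : Set (ℤ × ℤ)} {κ : ℤ × ℤ → ι} {κ' : ℤ × ℤ → ι'} {d : ℤ}
  {A B : UE × Bool} {k₁ k₃ m : ℕ} {y gR gL : ℤ × ℤ}

/-- **The target invariant.** -/
def TgI (U : Set (ℤ × ℤ)) (κ : ℤ × ℤ → ι) (B : UE × Bool) (y : ℤ × ℤ) : Prop :=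
  y = ahead B ∨ (ahead (rv B) ∈ U ∧ y ∈ capC U κ (ahead (rv B)))

namespace TgI

theorem mem (h : TgI U κ B y) (hB : ahead B ∈ U) : y ∈ U := by
  rcases h with rfl | ⟨h1, h2⟩
  · exact hB
  · exact (capC_sub h1 h2).2

/-- The target is near the coarse target side. -/
theorem near (h : TgI U κ B y) (happ : App U P κ d) :
    |y.1 - (ahead B).1| ≤ d ∧ |y.2 - (ahead B).2| ≤ d := by
  have hd := happ.d_pos
  rcases h with rfl | ⟨h1, h2⟩
  · simp only [sub_self, abs_zero]
    omega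
  · have h3 := happ.diam _ _ (capC_sub h1 h2).1
    have h4 : AdjF (ahead B) (ahead (rv B)) := (adjF_ahead B).symm
    have h5 := adj_near_app (adj_iff_adjFL.2 h4)
    simp only [abs_lt, abs_le] at *
    omega

/-- The class part at the target is disjoint from the true domain of the move. -/
theorem cap_notMem (H : Clo U P G T A k₁ k₃ m (capK U κ gR) (capK U κ gL)) (happ : App U P κ d)
    (hcomp : ∀ t ∈ T, ∀ g, AdjF t g → g ∉ T →
      g ∉ U ∨ g ∈ P ∨ g ∈ capK U κ gR ∨ g ∈ capK U κ gL)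
    (hB : BD P B) (hBG : ahead B ∉ G) (hg : ahead (rv B) ∈ U) :
    ∀ f ∈ capC U κ (ahead (rv B)), f ∉ T := by
  intro f hf
  have hcap : ∀ g' : ℤ × ℤ, ∀ f ∈ capC U κ (ahead (rv B)), ∀ f' ∈ capC U κ (ahead (rv B)),
      AdjF f f' → f ∈ capK U κ g' → f' ∈ capK U κ g' := by
    intro g' f hf f' hf' _ hfg
    rcases capK_dis (U := U) (κ := κ) (ahead (rv B)) g' with h | h
    · exact absurd hfg (h f (Or.inl ⟨hg, hf⟩) (capC_sub hg hf).2)
    · exact (h f' (capC_sub hg hf').2).1 (Or.inl ⟨hg, hf'⟩)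
  refine H.target_notMem hcomp hB.1 hBG (adjF_ahead B) (κ := capC U κ (ahead (rv B)))
    self_mem_compT (fun x hx => (capC_sub hg hx).2)
    (fun x hx hP => hB.2 (happ.sat _ _ (capC_sub hg hx).1 hP)) (hcap gR) (hcap gL) (Or.inr ?_)
  exact compT_chain self_mem_compT hf

/-- **The true target is not in the true domain of the move.** -/
theorem notMem (h : TgI U κ B y) (H : Clo U P G T A k₁ k₃ m (capK U κ gR) (capK U κ gL))
    (happ : App U P κ d)
    (hcomp : ∀ t ∈ T, ∀ g, AdjF t g → g ∉ T →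
      g ∉ U ∨ g ∈ P ∨ g ∈ capK U κ gR ∨ g ∈ capK U κ gL)
    (hB : BD P B) (hBG : ahead B ∉ G) : y ∉ T := by
  rcases h with rfl | ⟨h1, h2⟩
  · exact fun hT => hBG (H.inter hT hB.1)
  · exact cap_notMem H happ hcomp hB hBG h1 y h2

/-- **The invariant after a step.** -/
theorem step (h : TgI U κ B y) (hN : ahead (rv B) ∈ U → ∀ f ∈ capC U κ (ahead (rv B)), f ∉ N)
    (hκ : ∀ f, κ f = κ (ahead (rv B)) → κ' f = κ' (ahead (rv B))) :
    TgI (compT (U \ N) y) κ' B y := by
  rcases h with h | ⟨h1, h2⟩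
  · exact Or.inl h
  · right
    have hN' := hN h1
    have hyC : y ∈ U \ N := ⟨(capC_sub h1 h2).2, hN' y h2⟩
    have h3 : ChI (capC U κ (ahead (rv B))) (ahead (rv B)) y := compT_chain self_mem_compT h2
    have h4 : ChI (capC U κ (ahead (rv B))) y (ahead (rv B)) := ChI.symm self_mem_compT h3
    have hsub : capC U κ (ahead (rv B)) ⊆ U \ N := fun f hf => ⟨(capC_sub h1 hf).2, hN' f hf⟩
    -- the class part is in the component of `y`
    have hcomp : ∀ f ∈ capC U κ (ahead (rv B)), f ∈ compT (U \ N) y := by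
      intro f hf
      have h5 : ChI (capC U κ (ahead (rv B))) y f :=
        h4.trans (compT_chain self_mem_compT hf : ChI (capC U κ (ahead (rv B))) _ f)
      exact h5.mono hsub
    refine ⟨hcomp _ self_mem_compT, ?_⟩
    have hsub' : capC U κ (ahead (rv B)) ⊆
        {x | κ' x = κ' (ahead (rv B))} ∩ compT (U \ N) y := fun f hf =>
      ⟨hκ f (capC_sub h1 hf).1, hcomp f hf⟩
    exact h3.mono hsub'

/-- The face of the coarse target side is in the component of the true target. -/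
theorem eq_comp (h : TgI U κ B y) (hB : ahead B ∈ U) (hBN : ahead B ∉ N)
    (hN : ahead (rv B) ∈ U → ∀ f ∈ capC U κ (ahead (rv B)), f ∉ N) :
    compT (U \ N) y = compT (U \ N) (ahead B) := by
  rcases h with h | ⟨h1, h2⟩
  · rw [h]
  · have hN' := hN h1
    have hyC : y ∈ U \ N := ⟨(capC_sub h1 h2).2, hN' y h2⟩
    have h3 : ChI (capC U κ (ahead (rv B))) (ahead (rv B)) y := compT_chain self_mem_compT h2
    have h4 : ChI (capC U κ (ahead (rv B))) y (ahead (rv B)) := ChI.symm self_mem_compT h3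
    have hsub : capC U κ (ahead (rv B)) ⊆ U \ N := fun f hf => ⟨(capC_sub h1 hf).2, hN' f hf⟩
    have h5 : ahead B ∈ compT (U \ N) y :=
      compT_step (h4.mono hsub : ChI (U \ N) y _) (adjF_ahead B)
        (show ahead B ∈ U \ N from ⟨hB, hBN⟩)
    exact (compT_eq hyC h5).symm

/-- The new coarse set is contained in the new component. -/
theorem sub_comp (h : TgI U κ B y) (hPU : P ⊆ U) {V : Set (ℤ × ℤ)} (hBP : ahead B ∈ P)
    (hBV : ahead B ∉ V) (hNV : ∀ f ∈ N, f ∈ P → f ∈ V)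
    (hN : ahead (rv B) ∈ U → ∀ f ∈ capC U κ (ahead (rv B)), f ∉ N) :
    compT (P \ V) (ahead B) ⊆ compT (U \ N) y := by
  rw [h.eq_comp (hPU hBP) (fun hh => hBV (hNV _ hh hBP)) hN]
  exact compT_mono fun f hf => ⟨hPU hf.1, fun hh => hf.2 (hNV f hh hf.1)⟩

/-- A void stage. -/
theorem void (h : TgI U κ B y) (hU : Top.EConn U) (hy : y ∈ U)
    (hκ : ∀ f, κ f = κ (ahead (rv B)) → κ' f = κ' (ahead (rv B))) : TgI U κ' B y := by
  have h1 := h.step (N := ∅) (fun _ f _ => Set.notMem_empty f) hκ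
  have h2 : compT (U \ ∅) y = U := by
    rw [Set.sdiff_empty]
    refine Set.Subset.antisymm (compT_sub hy) fun f hf => ?_
    exact hU y hy f hf
  rwa [h2] at h1

end TgI

/-! ### The true side of a move -/

namespace TSide

variable {D : Set (ℤ × ℤ)} {a b L : ℤ} {τ : UE × Bool} {p q : ℕ} {Y : Set (ℤ × ℤ)}
  {Tf : Finset (ℤ × ℤ)} {n N₁ N₂ mU M s t u K : ℕ}
  (S : TSide U P D κ a b L A τ m p q Y Tf n N₁ N₂ mU M s t u K) (H : Mvd U P D κ d A m p q)

include S H

theorem hcomp : ∀ t ∈ (Tf : Set (ℤ × ℤ)), ∀ g, AdjF t g → g ∉ (Tf : Set (ℤ × ℤ)) →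
    g ∉ U ∨ g ∈ P ∨ g ∈ capK U κ (CloK.gR D A Y N₁) ∨ g ∈ capK U κ (CloK.gL D A Y N₂) := by
  rw [S.eqT]
  exact H.hcomp S.run.att

/-- The class part at the target and the target are not in `T`. -/
theorem tgi_notMem (hB : BD P B) (hBG : ahead B ∉ inn D A Y) (h : TgI U κ B y) :
    y ∉ (Tf : Set (ℤ × ℤ)) ∧ ahead B ∉ (Tf : Set (ℤ × ℤ)) ∧
      (ahead (rv B) ∈ U → ∀ f ∈ capC U κ (ahead (rv B)), f ∉ (Tf : Set (ℤ × ℤ))) := by
  refine ⟨h.notMem (S.clo H) H.app (S.hcomp H) hB hBG, fun hT => hBG ?_, fun hg =>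
    TgI.cap_notMem (S.clo H) H.app (S.hcomp H) hB hBG hg⟩
  exact S.interP H _ (Finset.mem_coe.1 hT) hB.1

/-- **The target invariant after a regular move.** `N` = the visited faces. -/
theorem tgi_step (hB : BD P B) (hBG : ahead B ∉ inn D A Y) (h : TgI U κ B y)
    (hN : ∀ f ∈ N, f ∈ U → f ∈ (Tf : Set (ℤ × ℤ)))
    (hκ : ∀ f, κ f = κ (ahead (rv B)) → κ' f = κ' (ahead (rv B))) :
    y ∉ N ∧ TgI (compT (U \ N) y) κ' B y ∧
      compT (U \ N) y = compT (U \ N) (ahead B) := by
  obtain ⟨h1, h2, h3⟩ := S.tgi_notMem H hB hBG h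
  have hBU : ahead B ∈ U := H.app.sub hB.1
  have hNC : ahead (rv B) ∈ U → ∀ f ∈ capC U κ (ahead (rv B)), f ∉ N := fun hg f hf hh =>
    h3 hg f hf (hN f hh (capC_sub hg hf).2)
  exact ⟨fun hh => h1 (hN y hh (h.mem hBU)), h.step hNC hκ,
    h.eq_comp hBU (fun hh => h2 (hN _ hh hBU)) hNC⟩

end TSide

/-! ### The face of the target side is not in the inner domain -/

/-- The face of the coarse target side is not in front of an attached set. -/
theorem ahead_notMem_inn {D Y : Set (ℤ × ℤ)} {p q : ℕ} (hDP : D ⊆ P)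
    (h : ArcsE D A (IsEx P B) m p q) (hY : Mv.Att D A p q Y) (hA : ahead A ∉ Y) (hB : BD P B) :
    ahead B ∉ inn D A Y := by
  intro hh
  obtain ⟨h1, h2⟩ := inn_sub (⟨h.cyc.bd.1, hA⟩ : ahead A ∈ D \ Y) hh
  have hBD : BD D B := ⟨h1, fun hD => hB.2 (hDP hD)⟩
  obtain ⟨c, hc, hcs⟩ := h.cyc.exists_index hBD
  have hE : IsEx P B (side D A c) := Or.inr hcs
  apply h2
  refine hY.on ⟨c, ?_, ?_, ?_⟩
  · by_contra hcon
    exact h.first c (by omega) hE
  · by_contra hcon
    exact h.last c (by omega) hc hE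
  · unfold inF
    rw [hcs]

/-- The same for magnified objects. -/
theorem ahead_notMem_blow {F : Set (ℤ × ℤ)} {u : ℤ} (hu : 0 < u) (h : ahead B ∉ F) {r : ℤ}
    (h0 : 0 ≤ r) (h1 : r < u) : ahead (subE u B r) ∉ blow u F := by
  rw [mem_blow, cl_ahead hu _ h0 h1]
  exact h

end Pool.Agent.SixB.Mv
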