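import Pool.Agent.Lib.SixB.S8MvData
import Pool.Agent.Lib.SixB.S8MoveB
import Pool.Agent.Lib.SixB.S8InvT

/-!
# Step 8: the hypotheses at the target for the step of the labels

`X : LabP ..` are the labels of the contour of `P`, the sides `j₁, …, j₂` are near the target side `B`,
`M : MoveData ..` is a move (regular or void), `P'` the new coarse set, `U'` the new fresh region. The
square `sqF (s₀ + 1) (ahead B)` is contained in one cell.

* `MoveData.dm_cell`, `MoveData.cl_cell`: the part in front of the barrier and the new set are closed in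
  the part of a cell in `P`;
* `LabP.cor`, `LabP.inF_iff`: the inner faces of the sides `j₁ - 1, …, j₂ + 1` are all inside or all
  outside of such a set;
* `LabP.hcl`, `LabP.inF_new`: the set `P'` is closed in `P` near the target, the inner faces of the sides
  `j₁ - 1, …, j₂ + 1` are in `P'`;
* `LabP.hc`, `LabP.hc_mvd`: the class parts behind these sides are contained in `U'`;
* `dcell_f`, `sat_f'`: the magnified hypotheses.
-/

set_option autoImplicit false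

namespace Pool.Agent.SixB.Mv

open Pool.Agent.Perc Pool.Agent.Perc6 Pool.Agent.Perc6.C2Aux Pool.Agent.Perc.Tips
open Pool.Agent.SixB.Top Pool.Agent.SixB.CloK

section Cell

variable {γ : Type*} {U P D Z Dm K N Zj P' U' : Set (ℤ × ℤ)} {c : ℤ × ℤ → γ} {d' : ℤ}
  {f g : ℤ × ℤ}

/-- The part in front of the barrier is closed in the part of a cell in `P`. -/
theorem dm_cell (M : MoveData U P D Z Dm K N Zj P' U' c d') (hf : f ∈ Dm) (hg : g ∈ P)
    (h : AdjF f g) (hc : c f = c g) : g ∈ Dm := by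
  have hfD := M.DmD hf
  have ha := adj_iff_adjFL.2 h
  have hgD : g ∈ D := by
    by_contra hn
    exact M.DmZ f hf (M.exit f hfD g hg hn ha)
  have hgZ : g ∉ Z := fun hh =>
    M.DmZ f hf (M.Zsat g hh f hfD (adj_iff_adjFL.2 h.symm) hc.symm)
  exact M.DmCl f hf g hgD hgZ ha

/-- The new set is closed in the part of a cell in `P`. -/
theorem cl_cell (M : MoveData U P D Z Dm K N Zj P' U' c d')
    (hD : ∀ f ∈ D, ∀ g ∈ P, AdjF f g → c f = c g → g ∈ D) (hE : Sat D c Zj) (hf : f ∈ P')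
    (hg : g ∈ P) (h : AdjF f g) (hc : c f = c g) : g ∈ P' := by
  obtain ⟨h1, h2⟩ := M.P'V f hf
  refine M.P'cl f hf g hg (adj_iff_adjFL.2 h) ?_ ?_
  · rintro ⟨h3, h4⟩
    have h5 := dm_cell M h3 (M.P'P hf) h.symm hc.symm
    have h6 : f ∈ K := by
      by_contra hn
      exact h1 ⟨h5, hn⟩
    exact h4 (M.Ksat f h6 g hc.symm)
  · intro h3
    have h4 := hD g (M.ZD (M.ZjZ h3)) f (M.P'P hf) h.symm hc.symm
    exact h2 (hE g h3 f h4 h.symm hc.symm)

end Cell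

/-! ### The magnified hypotheses -/

section Blow

variable {P D E : Set (ℤ × ℤ)} {a b L : ℤ} {u : ℕ}

theorem dcell_f (hu : 0 < u)
    (h : ∀ f ∈ D, ∀ g ∈ P, AdjF f g → gc a b L g = gc a b L f → g ∈ D) :
    ∀ f ∈ blow u D, ∀ g ∈ blow u P, AdjF f g →
      gc (u * a) (u * b) (u * L) f = gc (u * a) (u * b) (u * L) g → g ∈ blow u D := by
  intro f hf g hg ha hc
  have hu' : (0 : ℤ) < u := by exact_mod_cast hu
  rw [Blow.gc_cl hu, Blow.gc_cl hu] at hc
  rcases Blow.adj_cl hu' ha with h1 | h1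
  · rw [Blow.mem_blow, ← h1]
    exact hf
  · exact h _ hf _ hg h1 hc.symm

theorem sat_f' (hu : 0 < u) (h : Sat D (gc a b L) E) :
    Sat (blow u D) (gc (u * a) (u * b) (u * L)) (blow u E) := by
  intro f hf g hg ha hc
  have hu' : (0 : ℤ) < u := by exact_mod_cast hu
  rw [Blow.gc_cl hu, Blow.gc_cl hu] at hc
  rcases Blow.adj_cl hu' ha with h1 | h1
  · rw [Blow.mem_blow, ← h1]
    exact hf
  · exact h _ hf _ hg h1 hc

end Blow

/-! ### The sides near the target -/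

section Tgt

variable {ι : Type*} {U P : Set (ℤ × ℤ)} {κ : ℤ × ℤ → ι} {A τ B : UE × Bool} {s s₀ : ℤ}
  {mP mU kt i₁ j₁ t j₂ i₂ : ℕ} (X : LabP U P κ A τ B s s₀ mP mU kt i₁ j₁ t j₂ i₂)

include X

/-- The faces at the vertices `j₁, …, j₂ + 1` are in the square. -/
theorem LabP.cor {i : ℕ} (h1 : j₁ ≤ i + 1) (h2 : i ≤ j₂) {f : ℤ × ℤ}
    (hf : IsCor f (vert P A (i + 1))) : f ∈ sqF (s₀ + 1) (ahead B) := by
  have hjt := X.jt
  have htj := X.tj
  have key : ∃ k, j₁ ≤ k ∧ k ≤ j₂ ∧ IsCor (inF P A k) (vert P A (i + 1)) := by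
    rcases Nat.lt_or_ge i j₁ with h3 | h3
    · refine ⟨i + 1, by omega, by omega, ?_⟩
      exact isCor_in_lf _
    · refine ⟨i, h3, h2, ?_⟩
      rw [vert_succ]
      exact isCor_in_rg _
  obtain ⟨k, hk1, hk2, h3⟩ := key
  have h := X.nrB k hk1 hk2
  unfold sqF at h ⊢
  rw [Set.mem_ofPred_eq, abs_le, abs_le] at *
  unfold IsCor at h3 hf
  omega

/-- The inner faces of the sides `j₁ - 1, …, j₂ + 1` are together inside or outside. -/
theorem LabP.inF_iff {S Q : Set (ℤ × ℤ)} (hQ : ∀ f ∈ sqF (s₀ + 1) (ahead B), f ∈ Q)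
    (hS : ∀ f g, f ∈ S → f ∈ Q → g ∈ P → g ∈ Q → AdjF f g → g ∈ S) {i : ℕ} (h1 : j₁ ≤ i + 1)
    (h2 : i ≤ j₂ + 1) : inF P A i ∈ S ↔ ahead B ∈ S := by
  have hij := X.ij
  have hjt := X.jt
  have htj := X.tj
  have hstep : ∀ i, j₁ ≤ i + 1 → i ≤ j₂ → (inF P A i ∈ S ↔ inF P A (i + 1) ∈ S) := fun i g1 g2 =>
    inF_step (Q := Q) X.cyc.bd (fun f hf => hQ f (X.cor g1 g2 hf)) hS
  have hall : ∀ k, j₁ - 1 + k ≤ j₂ + 1 → (inF P A (j₁ - 1) ∈ S ↔ inF P A (j₁ - 1 + k) ∈ S) := by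
    intro k
    induction k with
    | zero => exact fun _ => Iff.rfl
    | succ k ih =>
      exact fun hk => (ih (by omega)).trans (hstep (j₁ - 1 + k) (by omega) (by omega))
  have e1 := hall (i - (j₁ - 1)) (by omega)
  have e2 := hall (t - (j₁ - 1)) (by omega)
  rw [show j₁ - 1 + (i - (j₁ - 1)) = i by omega] at e1
  rw [show j₁ - 1 + (t - (j₁ - 1)) = t by omega] at e2
  have e3 : inF P A t = ahead B := by
    unfold inF
    rw [X.tgt]
  rw [← e1, e2, e3]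

variable {γ : Type*} {D Z Dm K N Zj P' U' : Set (ℤ × ℤ)} {c : ℤ × ℤ → γ} {d' : ℤ}
  (M : MoveData U P D Z Dm K N Zj P' U' c d')

include M

/-- **`P'` is closed in `P` near the target.** -/
theorem LabP.hcl (hD : ∀ f ∈ D, ∀ g ∈ P, AdjF f g → c f = c g → g ∈ D) (hE : Sat D c Zj)
    (hcell : ∀ f ∈ sqF (s₀ + 1) (ahead B), c f = c (ahead B)) :
    ∀ f ∈ P', ∀ g ∈ P, f ∈ sqF (s₀ + 1) (ahead B) → g ∈ sqF (s₀ + 1) (ahead B) → AdjF f g →
      g ∈ P' := fun f hf g hg h1 h2 h =>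
  cl_cell M hD hE hf hg h ((hcell f h1).trans (hcell g h2).symm)

/-- The inner faces of the sides at the target are in the new set. -/
theorem LabP.inF_new (hD : ∀ f ∈ D, ∀ g ∈ P, AdjF f g → c f = c g → g ∈ D) (hE : Sat D c Zj)
    (hcell : ∀ f ∈ sqF (s₀ + 1) (ahead B), c f = c (ahead B)) (hB : ahead B ∈ P') {i : ℕ}
    (h1 : j₁ ≤ i + 1) (h2 : i ≤ j₂ + 1) : inF P A i ∈ P' :=
  (X.inF_iff (S := P') (Q := {f | c f = c (ahead B)}) hcell
    (fun _ _ hf hfQ hg hgQ h => cl_cell M hD hE hf hg h (Eq.trans hfQ (Eq.symm hgQ))) h1 h2).2 hB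

/-- The inner faces of the sides at the target are not in front of the barrier. -/
theorem LabP.inF_dm (hcell : ∀ f ∈ sqF (s₀ + 1) (ahead B), c f = c (ahead B))
    (hB : ahead B ∉ Dm) {i : ℕ} (h1 : j₁ ≤ i + 1) (h2 : i ≤ j₂ + 1) : inF P A i ∉ Dm := fun hh =>
  hB ((X.inF_iff (S := Dm) (Q := {f | c f = c (ahead B)}) hcell
    (fun _ _ hf hfQ hg hgQ h => dm_cell M hf hg h (Eq.trans hfQ (Eq.symm hgQ))) h1 h2).1 hh)

/-- **The class parts behind the sides at the target stay.** `T` is the true domain of the move. -/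
theorem LabP.hc {d : ℤ} {T : Set (ℤ × ℤ)} {A₀ : UE × Bool} {k₁ k₃ m : ℕ} {gR gL : ℤ × ℤ}
    (H : Clo U P Dm T A₀ k₁ k₃ m (capK U κ gR) (capK U κ gL)) (happ : App U P κ d)
    (hcomp : ∀ t ∈ T, ∀ g, AdjF t g → g ∉ T →
      g ∉ U ∨ g ∈ P ∨ g ∈ capK U κ gR ∨ g ∈ capK U κ gL)
    (hNT : ∀ f ∈ N, f ∈ U → f ∈ T) (hUcl : ∀ f ∈ U', ∀ g ∈ U, g ∉ N → AdjF f g → g ∈ U')
    (hD : ∀ f ∈ D, ∀ g ∈ P, AdjF f g → c f = c g → g ∈ D) (hE : Sat D c Zj)
    (hcell : ∀ f ∈ sqF (s₀ + 1) (ahead B), c f = c (ahead B)) (hB : ahead B ∈ P')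
    (hBi : ahead B ∉ Dm) {i : ℕ} (h1 : j₁ ≤ i + 1) (h2 : i ≤ j₂ + 1)
    (hg : ahead (rv (side P A i)) ∈ U) :
    ∀ f ∈ capC U κ (ahead (rv (side P A i))), f ∈ U' := by
  have hbd := bd_side X.cyc.bd i
  have hP' : ahead (side P A i) ∈ P' := X.inF_new M hD hE hcell hB h1 h2
  have hG : ahead (side P A i) ∉ Dm := X.inF_dm M hcell hBi h1 h2
  have hT := TgI.cap_notMem H happ hcomp hbd hG hg
  have hN : ∀ f ∈ capC U κ (ahead (rv (side P A i))), f ∉ N := fun f hf hh =>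
    hT f hf (hNT f hh (capC_sub hg hf).2)
  have h0 : ahead (rv (side P A i)) ∈ U' :=
    hUcl _ (M.P'U' hP') _ hg (hN _ self_mem_compT) (adjF_ahead _).symm
  intro f hf
  have hch : ChI (capC U κ (ahead (rv (side P A i)))) (ahead (rv (side P A i))) f :=
    compT_chain self_mem_compT hf
  have key : ∀ y, ChI (capC U κ (ahead (rv (side P A i)))) (ahead (rv (side P A i))) y →
      y ∈ U' := by
    intro y hy
    induction hy with
    | refl => exact h0
    | @tail v w _ hs ih => exact hUcl v ih w (capC_sub hg hs.2).2 (hN w hs.2) hs.1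
  exact key f hch

end Tgt

/-! ### The instance for the domains of a move -/

section Inst

variable {ι γ : Type*} {U P D Z K N Zj P' U' : Set (ℤ × ℤ)} {κ : ℤ × ℤ → ι} {c : ℤ × ℤ → γ}
  {A τ B : UE × Bool} {s s₀ a b L d d' : ℤ} {mP mU kt i₁ j₁ t j₂ i₂ m p q n N₁ N₂ : ℕ}

/-- **The class parts behind the sides at the target stay**, for the true domain of the barrier. -/
theorem LabP.hc_mvd (X : LabP U P κ A τ B s s₀ mP mU kt i₁ j₁ t j₂ i₂)
    (H : Mvd U P D κ d A m p q) (hr : RunS a b L D A p q Z m n N₁ N₂) (hN : N₂ < n)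
    (M : MoveData U P D Z (inn D A Z) K N Zj P' U' c d')
    (hNT : ∀ f ∈ N, f ∈ U →
      f ∈ domT U Z (capK U κ (CloK.gR D A Z N₁)) (capK U κ (CloK.gL D A Z N₂)) A)
    (hUcl : ∀ f ∈ U', ∀ g ∈ U, g ∉ N → AdjF f g → g ∈ U')
    (hD : ∀ f ∈ D, ∀ g ∈ P, AdjF f g → c f = c g → g ∈ D) (hE : Sat D c Zj)
    (hcell : ∀ f ∈ sqF (s₀ + 1) (ahead B), c f = c (ahead B)) (hB : ahead B ∈ P')
    (hBi : ahead B ∉ inn D A Z) {i : ℕ} (h1 : j₁ ≤ i + 1) (h2 : i ≤ j₂ + 1)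
    (hg : ahead (rv (side P A i)) ∈ U) :
    ∀ f ∈ capC U κ (ahead (rv (side P A i))), f ∈ U' :=
  X.hc M (H.clo hr.att hr.tip hr.con hN) H.app (H.hcomp hr.att) hNT hUcl hD hE hcell hB hBi h1 h2
    hg

/-- The component of the true target is closed. -/
theorem compT_closed {y : ℤ × ℤ} {X : Set (ℤ × ℤ)} : ∀ f ∈ compT (X \ N) y, ∀ g ∈ X, g ∉ N →
    AdjF f g → g ∈ compT (X \ N) y := fun _ hf _ hg hgN h => compT_step hf h ⟨hg, hgN⟩

end Inst

end Pool.Agent.SixB.Mv
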