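import Pool.Agent.Lib.SixB.S8LabJun
import Pool.Agent.Lib.SixB.S8LabHyp

/-!
# Step 8: the labels after a stage without an excursion

`P` is the coarse domain with the tip side `A`, `E ⊆ P` a connected set with `ahead A ∈ E` (the part
which is removed), `P' ⊆ P` a component of `P \ E` and `A'` a side of `P'` with `ahead (rv A') ∈ E`. The
fresh region `U` with its tip side is not changed.

* `void_interval`: the sides of `P'` with outer face outside `P` are the sides `u, …, v` (`0 < u`) of the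
  contour of `P'` from `A'`, and they are the consecutive sides `a, …, a + (v - u)` of the contour of `P`;
* `LinkK.mono_out`: links for the old classes are links for the new classes;
* `LabP.void_clean`: the labels of the contour of `P'`.
-/

set_option autoImplicit false

namespace Pool.Agent.SixB.Mv

open Finset Pool.Agent.Perc Pool.Agent.Perc6 Pool.Agent.Perc6.C2Aux Pool.Agent.Perc.Tips
open Pool.Agent.SixB.Top Pool.Agent.SixB.CloK

/-! ### The interval of old sides -/

section Void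

variable {P P' E : Set (ℤ × ℤ)} {A A' B : UE × Bool} {mP mP' : ℕ} {r : ℤ}

/-- A boundary side of `P'` has its outer face in `E` or outside `P`. -/
theorem void_out (hP'E : ∀ f ∈ P', ∀ g ∈ P, g ∉ E → AdjF f g → g ∈ P') {C : UE × Bool}
    (hC : BD P' C) : ahead (rv C) ∈ E ∨ ahead (rv C) ∉ P := by
  by_contra hcon
  push Not at hcon
  exact hC.2 (hP'E _ hC.1 _ hcon.2 hcon.1 (adjF_ahead C).symm)

open Classical in
/-- The classes for the one interval lemma: `E` with the outer face of the tip side, and single faces. -/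
noncomputable def clsE (E : Set (ℤ × ℤ)) (A : UE × Bool) (f : ℤ × ℤ) : (ℤ × ℤ) ⊕ Unit :=
  if f ∈ E ∨ f = ahead (rv A) then Sum.inr () else Sum.inl f

theorem clsE_pos {f : ℤ × ℤ} (h : f ∈ E ∨ f = ahead (rv A)) : clsE E A f = Sum.inr () := if_pos h

theorem clsE_neg {f : ℤ × ℤ} (h : ¬ (f ∈ E ∨ f = ahead (rv A))) : clsE E A f = Sum.inl f :=
  if_neg h

theorem clsE_eq {f g : ℤ × ℤ} (h : clsE E A f = clsE E A g) :
    f = g ∨ ((f ∈ E ∨ f = ahead (rv A)) ∧ (g ∈ E ∨ g = ahead (rv A))) := by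
  by_cases h1 : f ∈ E ∨ f = ahead (rv A)
  · by_cases h2 : g ∈ E ∨ g = ahead (rv A)
    · exact Or.inr ⟨h1, h2⟩
    · rw [clsE_pos h1, clsE_neg h2] at h
      simp at h
  · by_cases h2 : g ∈ E ∨ g = ahead (rv A)
    · rw [clsE_neg h1, clsE_pos h2] at h
      simp at h
    · rw [clsE_neg h1, clsE_neg h2] at h
      exact Or.inl (Sum.inl.inj h)

/-- `P'` is an inner approximation of `P` for these classes. -/
theorem void_app (hA : BD P A) (hPP : P' ⊆ P) (hE : Top.EConn E) (hAE : ahead A ∈ E)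
    (hEr : E ⊆ sqF r (ahead A)) (hEP' : ∀ f ∈ E, f ∉ P')
    (hP'E : ∀ f ∈ P', ∀ g ∈ P, g ∉ E → AdjF f g → g ∈ P') :
    App P P' (clsE E A) (2 * r + 3) := by
  have hr : 0 ≤ r := by
    have := hEr hAE
    unfold sqF at this
    rw [Set.mem_ofPred_eq, sub_self, abs_zero] at this
    exact this.1
  have hadj : AdjF (ahead (rv A)) (ahead A) := adjF_ahead A
  have hout : ahead (rv A) ∉ P := hA.2
  have hcls : ∀ f, f ∈ E ∨ f = ahead (rv A) → f ∉ P' := by
    rintro f (h | h) hP
    · exact hEP' f h hP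
    · exact hout (h ▸ hPP hP)
  have hnear : ∀ f, f ∈ E ∨ f = ahead (rv A) →
      |f.1 - (ahead A).1| ≤ r + 1 ∧ |f.2 - (ahead A).2| ≤ r + 1 := by
    rintro f (h | h)
    · have h1 := hEr h
      unfold sqF at h1
      rw [Set.mem_ofPred_eq] at h1
      exact ⟨h1.1.trans (by omega), h1.2.trans (by omega)⟩
    · rw [h]
      have h1 := adj_near_app (adj_iff_adjFL.2 hadj)
      exact ⟨h1.1.trans (by omega), h1.2.trans (by omega)⟩
  refine ⟨hPP, ?_, ?_, ?_, ?_⟩
  · intro x y hxy hx
    rcases clsE_eq hxy with h | ⟨h, -⟩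
    · exact h ▸ hx
    · exact absurd hx (hcls x h)
  · intro x y hxy
    rcases clsE_eq hxy with rfl | ⟨h1, h2⟩
    · exact ⟨rfl, Relation.ReflTransGen.refl⟩
    · rw [chn_iff]
      refine ⟨rfl, ?_⟩
      have hset : {z | clsE E A z = clsE E A x} = {z | z ∈ E ∨ z = ahead (rv A)} := by
        ext z
        simp only [Set.mem_ofPred_eq]
        constructor
        · intro hz
          rcases clsE_eq hz with h3 | ⟨h3, -⟩
          · rw [h3]
            exact h1
          · exact h3
        · intro hz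
          rw [clsE_pos hz, clsE_pos h1]
      rw [hset]
      have key : ∀ z, z ∈ E ∨ z = ahead (rv A) →
          ChI {z | z ∈ E ∨ z = ahead (rv A)} (ahead A) z := by
        rintro z (hz | hz)
        · exact ChI.mono (fun w hw => Or.inl hw) (show ChI E (ahead A) z from hE _ hAE _ hz)
        · rw [hz]
          exact ChI.single hadj.symm (Or.inr rfl)
      exact (ChI.symm (show ahead A ∈ {z | z ∈ E ∨ z = ahead (rv A)} from Or.inl hAE)
        (key x h1)).trans (key y h2)
  · intro x y hxy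
    rcases clsE_eq hxy with rfl | ⟨h1, h2⟩
    · simp only [sub_self, abs_zero]
      omega
    · have e1 := hnear x h1
      have e2 := hnear y h2
      simp only [abs_le, abs_lt] at *
      omega
  · intro f hf g hfg hg
    by_cases hgP : g ∈ P
    · have hgE : g ∈ E := by
        by_contra hgE
        exact hg (hP'E f hf g hgP hgE (adj_iff_adjFL.1 hfg))
      exact ⟨ahead (rv A), by rw [clsE_pos (Or.inr rfl), clsE_pos (Or.inl hgE)], hout⟩
    · exact ⟨g, rfl, hgP⟩

/-- The sides of `P'` with outer face in `E` have the same component behind them. -/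
theorem void_sm (hA : BD P A) (hE : Top.EConn E) (hEP : E ⊆ P) {i l : ℕ} (hi : outF P' A' i ∈ E)
    (hl : outF P' A' l ∈ E) : Sm P P' (clsE E A) A' i l := by
  have hcap : ∀ i, outF P' A' i ∈ E → capS P (clsE E A) (side P' A' i) = E := by
    intro i hi
    have hiE : ahead (rv (side P' A' i)) ∈ E := hi
    ext x
    constructor
    · rintro ⟨h1, h2⟩
      have h3 := capC_le h1 h2
      rcases clsE_eq (show clsE E A x = clsE E A _ from h3.1) with h4 | ⟨h4 | h4, -⟩
      · rw [h4]
        exact hiE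
      · exact h4
      · exact absurd (h4 ▸ h3.2) hA.2
    · intro hx
      refine ⟨hEP hiE, ?_⟩
      refine ChI.mono ?_ (show ChI E (ahead (rv (side P' A' i))) x from hE _ hiE _ hx)
      intro z hz
      exact ⟨by
        show clsE E A z = clsE E A _
        rw [clsE_pos (Or.inl hz), clsE_pos (Or.inl hiE)], hEP hz⟩
  exact ⟨(hcap i hi).trans (hcap l hl).symm, hEP hi, hEP hl⟩

/-- **The interval of old sides.** -/
theorem void_interval (hP : Cyc P A mP) (hP' : Cyc P' A' mP') (cP' : Top.EConn P') (hPP : P' ⊆ P)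
    (hE : Top.EConn E) (hEP : E ⊆ P) (hAE : ahead A ∈ E) (hA'E : ahead (rv A') ∈ E)
    (hEr : E ⊆ sqF r (ahead A)) (hEP' : ∀ f ∈ E, f ∉ P')
    (hP'E : ∀ f ∈ P', ∀ g ∈ P, g ∉ E → AdjF f g → g ∈ P') {t : ℕ} (ht : t < mP)
    (htP' : inF P A t ∈ P') :
    ∃ u v a : ℕ, 0 < u ∧ u ≤ v ∧ v < mP' ∧ 0 < a ∧ a + (v - u) < mP ∧
      (∀ i, i < u → outF P' A' i ∈ E) ∧ (∀ i, v < i → i ≤ mP' → outF P' A' i ∈ E) ∧
      (∀ i, u ≤ i → i ≤ v → side P' A' i = side P A (a + (i - u))) ∧
      ∀ i < mP, inF P A i ∈ P' → a ≤ i ∧ i ≤ a + (v - u) := by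
  classical
  have happ := void_app hP.bd hPP hE hAE hEr hEP' hP'E
  have bP' : ∀ i, BD P' (side P' A' i) := fun i => bd_side hP'.bd i
  have hdich : ∀ i, outF P' A' i ∈ E ∨ outF P' A' i ∉ P := fun i => void_out hP'E (bP' i)
  have h0 : outF P' A' 0 ∈ E := hA'E
  have hm0 : outF P' A' mP' ∈ E := by
    unfold outF
    rw [hP'.per]
    exact hA'E
  -- the old sides of `P'`
  have hold : ∀ i < mP, inF P A i ∈ P' → ∃ c < mP', side P' A' c = side P A i := by
    intro i hi hiP'
    have h1 := bd_side hP.bd i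
    exact hP'.exists_index ⟨hiP', fun hh => h1.2 (hPP hh)⟩
  -- the least old side and the greatest old side
  set O : ℕ → Prop := fun i => i < mP' ∧ outF P' A' i ∉ P with hO
  obtain ⟨c, hc, hcs⟩ := hold t ht htP'
  have hcO : O c := by
    refine ⟨hc, ?_⟩
    unfold outF
    rw [hcs]
    exact (bd_side hP.bd t).2
  have hex : ∃ i, O i := ⟨c, hcO⟩
  have hu := Nat.find_spec hex
  have humin : ∀ i < Nat.find hex, ¬ O i := fun i hi => Nat.find_min hex hi
  set u := Nat.find hex with hudef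
  set v := Nat.findGreatest O mP' with hvdef
  have hv : O v := Nat.findGreatest_spec (P := O) hcO.1.le hcO
  have hvmax : ∀ i, v < i → i ≤ mP' → ¬ O i := fun i h1 h2 =>
    Nat.findGreatest_is_greatest (P := O) h1 h2
  have huv : u ≤ v := by
    by_contra hcon
    exact humin v (by omega) hv
  have hu0 : 0 < u := by
    rcases Nat.eq_zero_or_pos u with h | h
    · exact absurd (hEP h0) (h ▸ hu.2)
    · exact h
  have hb1 : ∀ i, i < u → outF P' A' i ∈ E := by
    intro i hi
    rcases hdich i with h | h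
    · exact h
    · exact absurd ⟨by have := hu.1; omega, h⟩ (humin i hi)
  have hb2 : ∀ i, v < i → i ≤ mP' → outF P' A' i ∈ E := by
    intro i h1 h2
    rcases hdich i with h | h
    · exact h
    · rcases h2.lt_or_eq with h3 | h3
      · exact absurd ⟨h3, h⟩ (hvmax i h1 h2)
      · exact absurd (hEP hm0) (h3 ▸ h)
  -- between `u` and `v` there are no faces of `E`
  have hnot : ∀ i, outF P' A' i ∉ P → ∀ j, outF P' A' j ∈ E → ¬ Sm P P' (clsE E A) A' j i :=
    fun i hi j _ hs => hi hs.2.2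
  have hmid : ∀ i, u ≤ i → i ≤ v → outF P' A' i ∉ P := by
    intro i h1 h2
    rcases hdich i with h | h
    · exfalso
      have hiu : i ≠ u := fun hh => hu.2 (hh ▸ hEP h)
      have hiv : i ≠ v := fun hh => hv.2 (hh ▸ hEP h)
      exact sm_pinch happ hP hP' cP' hu0 (show u < i by omega) (show i < v by omega) hv.1
        (void_sm hP.bd hE hEP h0 h) (hnot u hu.2 0 h0) (hnot v hv.2 0 h0)
    · exact h
  -- the interval on the contour of `P`
  have hBu : BD P (side P' A' u) := ⟨hPP (bP' u).1, hu.2⟩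
  obtain ⟨a, ha, has⟩ := hP.exists_index hBu
  have hint : ∀ j ≤ v - u, side P A (a + j) = side P' A' (u + j) := by
    intro j hj
    have h1 := (interval_of_out hPP (bP' u) (k := v - u) (fun i hi => by
      have e1 : (sc P')^[i] (side P' A' u) = side P' A' (u + i) := (side_add _ _).symm
      rw [e1]
      exact hmid (u + i) (by omega) (by omega)) j hj).1
    have e2 : side P A (a + j) = (sc P)^[j] (side P' A' u) := by
      rw [side_add, has]
      rfl
    rw [e2, h1]
    exact (side_add _ _).symm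
  -- no side with the inner face `ahead A`
  have hnoA : ∀ j ≤ v - u, side P A (a + j) ≠ A := by
    intro j hj hh
    have h1 := (bP' (u + j)).1
    rw [← hint j hj, hh] at h1
    exact hEP' _ hAE h1
  have ha0 : 0 < a := by
    rcases Nat.eq_zero_or_pos a with h | h
    · exact absurd (by rw [h]; rfl) (hnoA 0 (Nat.zero_le _))
    · exact h
  have hlt : a + (v - u) < mP := by
    by_contra hcon
    refine hnoA (mP - a) (by omega) ?_
    rw [show a + (mP - a) = mP by omega]
    exact hP.per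
  refine ⟨u, v, a, hu0, huv, hv.1, ha0, hlt, hb1, hb2, ?_, ?_⟩
  · intro i h1 h2
    rw [hint (i - u) (by omega), show u + (i - u) = i by omega]
  · intro i hi hiP'
    obtain ⟨k, hk, hks⟩ := hold i hi hiP'
    have hkO : O k := by
      refine ⟨hk, ?_⟩
      unfold outF
      rw [hks]
      exact (bd_side hP.bd i).2
    have h1 : u ≤ k := by
      by_contra hcon
      exact humin k (by omega) hkO
    have h2 : k ≤ v := by
      by_contra hcon
      exact hvmax k (by omega) hk.le hkO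
    have h3 : i = a + (k - u) := by
      apply hP.inj i hi _ (by omega)
      rw [hint (k - u) (by omega), show u + (k - u) = k by omega, hks]
    omega

end Void

/-! ### Links -/

section Links

variable {ι ι' : Type*} {U P : Set (ℤ × ℤ)} {κ : ℤ × ℤ → ι} {κ' : ℤ × ℤ → ι'} {d : ℤ}
  {B C : UE × Bool}

/-- Outside `P` the new classes contain the old ones, hence the links stay. -/
theorem _root_.Pool.Agent.SixB.Top.LinkK.mono_out (h : App U P κ d)
    (hk : ∀ x, x ∉ P → ∀ y, y ∉ P → κ x = κ y → κ' x = κ' y) (hB : BD P B)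
    (hl : LinkK U κ B C) : LinkK U κ' B C := by
  rcases hl with hl | ⟨h1, h2⟩
  · exact Or.inl hl
  · refine Or.inr ⟨h1, compT_mono ?_ h2⟩
    rintro x ⟨hx1, hx2⟩
    refine ⟨?_, hx2⟩
    have hx1' : κ x = κ (ahead (rv B)) := hx1
    exact hk x (fun hx => hB.2 (h.sat x _ hx1' hx)) _ hB.2 hx1'

end Links

/-! ### The labels -/

section Main

variable {ι ι' : Type*} {U P P' E : Set (ℤ × ℤ)} {κ : ℤ × ℤ → ι} {κ' : ℤ × ℤ → ι'}
  {A A' τ B : UE × Bool} {s s₀ d r : ℤ} {mP mP' mU kt i₁ j₁ t j₂ i₂ : ℕ}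

/-- **The labels after a stage without an excursion.** -/
theorem LabP.void_clean' (X : LabP U P κ A τ B s s₀ mP mU kt i₁ j₁ t j₂ i₂) (h : App U P κ d)
    (hP' : Cyc P' A' mP') (cP' : Top.EConn P') (hPP : P' ⊆ P) (hB : ahead B ∈ P')
    (hcl : ∀ f ∈ P', ∀ g ∈ P, f ∈ sqF (s₀ + 1) (ahead B) → g ∈ sqF (s₀ + 1) (ahead B) →
      AdjF f g → g ∈ P')
    (hE : Top.EConn E) (hEP : E ⊆ P) (hAE : ahead A ∈ E) (hA'E : ahead (rv A') ∈ E)
    (hEr : E ⊆ sqF r (ahead A)) (hEP' : ∀ f ∈ E, f ∉ P')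
    (hP'E : ∀ f ∈ P', ∀ g ∈ P, g ∉ E → AdjF f g → g ∈ P')
    (hk : ∀ x, x ∉ P → ∀ y, y ∉ P → κ x = κ y → κ' x = κ' y) :
    ∃ i₁' j₁' t' j₂' i₂' : ℕ,
      LabP U P' κ' A' τ B (s + 2 * r + 4) s₀ mP' mU kt i₁' j₁' t' j₂' i₂' ∧
      side P' A' (j₁' - 1) = side P A (j₁ - 1) ∧ side P' A' (j₂' + 1) = side P A (j₂ + 1) := by
  have g1 := X.ij
  have g2 := X.jt
  have g3 := X.tj
  have g4 := X.ji
  have g5 := X.im
  -- the sides at the target
  have hin : ∀ i, j₁ ≤ i + 1 → i ≤ j₂ + 1 → inF P A i ∈ P' := fun i h1 h2 =>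
    (X.inF_iff (S := P') (Q := sqF (s₀ + 1) (ahead B)) (fun _ hf => hf)
      (fun f g hf hfQ hg hgQ hfg => hcl f hf g hg hfQ hgQ hfg) h1 h2).2 hB
  obtain ⟨u, v, a, hu0, huv, hv, ha0, hlt, hb1, hb2, hmid, hall⟩ :=
    void_interval X.cyc hP' cP' hPP hE hEP hAE hA'E hEr hEP' hP'E (t := t) (by omega)
      (hin t (by omega) (by omega))
  obtain ⟨k1, -⟩ := hall (j₁ - 1) (by omega) (hin (j₁ - 1) (by omega) (by omega))
  obtain ⟨-, k2⟩ := hall (j₂ + 1) (by omega) (hin (j₂ + 1) (by omega) le_rfl)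
  -- distances
  have d0 : |(ahead A').1 - (ahead A).1| ≤ r + 1 ∧ |(ahead A').2 - (ahead A).2| ≤ r + 1 := by
    have e1 := hEr hA'E
    have e2 := adj_near_app (adj_iff_adjFL.2 (adjF_ahead A'))
    unfold sqF at e1
    rw [Set.mem_ofPred_eq] at e1
    simp only [abs_le] at *
    omega
  have hr0 : 0 ≤ r := by
    have := hEr hAE
    unfold sqF at this
    rw [Set.mem_ofPred_eq, sub_self, abs_zero] at this
    exact this.1
  have hs0 : 0 ≤ s := by
    have := X.nrA 0 (Or.inl (Nat.zero_le _))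
    have e : inF P A 0 = ahead A := rfl
    rw [e] at this
    unfold sqF at this
    rw [Set.mem_ofPred_eq, sub_self, abs_zero] at this
    exact this.1
  have dE : ∀ i, outF P' A' i ∈ E → inF P' A' i ∈ sqF (s + 2 * r + 4) (ahead A') := by
    intro i hi
    have e1 := hEr hi
    have e2 := adj_near_app (adj_iff_adjFL.2 (adjF_ahead (side P' A' i)))
    have e3 : outF P' A' i = ahead (rv (side P' A' i)) := rfl
    have e4 : inF P' A' i = ahead (side P' A' i) := rfl
    rw [e3] at e1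
    rw [e4]
    unfold sqF at e1 ⊢
    rw [Set.mem_ofPred_eq] at *
    simp only [abs_le] at *
    omega
  have dP : ∀ i, (i ≤ i₁ ∨ (i₂ ≤ i ∧ i ≤ mP)) → inF P A i ∈ sqF (s + 2 * r + 4) (ahead A') := by
    intro i hi
    have e1 := X.nrA i hi
    unfold sqF at e1 ⊢
    rw [Set.mem_ofPred_eq] at *
    simp only [abs_le] at *
    omega
  have hsd : ∀ i, u ≤ i → i ≤ v → inF P' A' i = inF P A (a + (i - u)) := by
    intro i h1 h2
    unfold inF
    rw [hmid i h1 h2]
  refine ⟨u + max (i₁ + 1) a - a - 1, u + j₁ - a, u + t - a, u + j₂ - a, u + min i₂ (a + (v - u) + 1) - a,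
    ?_, ?_, ?_⟩
  · refine
      { cyc := hP'
        ij := by omega
        jt := by omega
        tj := by omega
        ji := by omega
        im := by omega
        tgt := ?_
        b := ?_
        l := ?_
        nrA := ?_
        nrB := ?_ }
    · rw [hmid _ (by omega) (by omega), show a + (u + t - a - u) = t by omega]
      exact X.tgt
    · intro i h1 h2
      obtain ⟨w, hw, hl⟩ := X.b (a + (i - u)) (by omega) (by omega)
      refine ⟨w, hw, ?_⟩
      rw [hmid i (by omega) (by omega)]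
      exact hl.mono_out h hk (bd_side X.cyc.bd _)
    · intro i h1 h2
      obtain ⟨w, hw, hw', hl⟩ := X.l (a + (i - u)) (by omega) (by omega)
      refine ⟨w, hw, hw', ?_⟩
      rw [hmid i (by omega) (by omega)]
      exact hl.mono_out h hk (bd_side X.cyc.bd _)
    · intro i hi
      by_cases h1 : i < u
      · exact dE i (hb1 i h1)
      by_cases h2 : v < i
      · exact dE i (hb2 i h2 (by omega))
      rw [hsd i (by omega) (by omega)]
      exact dP _ (by omega)
    · intro i h1 h2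
      rw [hsd i (by omega) (by omega)]
      exact X.nrB _ (by omega) (by omega)
  · rw [hmid _ (by omega) (by omega)]
    congr 1
    omega
  · rw [hmid _ (by omega) (by omega)]
    congr 1
    omega

/-- **The labels after a stage without an excursion**, with the two classes at the target. -/
theorem LabP.void_clean (X : LabP U P κ A τ B s s₀ mP mU kt i₁ j₁ t j₂ i₂)
    (hs : κ (outF P A (j₁ - 1)) ≠ κ (outF P A (j₂ + 1))) (h : App U P κ d)
    (hP' : Cyc P' A' mP') (cP' : Top.EConn P') (hPP : P' ⊆ P) (hB : ahead B ∈ P')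
    (hcl : ∀ f ∈ P', ∀ g ∈ P, f ∈ sqF (s₀ + 1) (ahead B) → g ∈ sqF (s₀ + 1) (ahead B) →
      AdjF f g → g ∈ P')
    (hE : Top.EConn E) (hEP : E ⊆ P) (hAE : ahead A ∈ E) (hA'E : ahead (rv A') ∈ E)
    (hEr : E ⊆ sqF r (ahead A)) (hEP' : ∀ f ∈ E, f ∉ P')
    (hP'E : ∀ f ∈ P', ∀ g ∈ P, g ∉ E → AdjF f g → g ∈ P')
    (hk : ∀ x, x ∉ P → ∀ y, y ∉ P → (κ' x = κ' y ↔ κ x = κ y)) :
    ∃ i₁' j₁' t' j₂' i₂' : ℕ,
      LabP U P' κ' A' τ B (s + 2 * r + 4) s₀ mP' mU kt i₁' j₁' t' j₂' i₂' ∧
      κ' (outF P' A' (j₁' - 1)) ≠ κ' (outF P' A' (j₂' + 1)) := by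
  obtain ⟨i₁', j₁', t', j₂', i₂', X', e1, e2⟩ := X.void_clean' h hP' cP' hPP hB hcl hE hEP hAE hA'E hEr
    hEP' hP'E (fun x hx y hy hxy => (hk x hx y hy).2 hxy)
  refine ⟨i₁', j₁', t', j₂', i₂', X', ?_⟩
  unfold outF
  rw [e1, e2]
  intro hh
  exact hs ((hk _ (bd_side X.cyc.bd _).2 _ (bd_side X.cyc.bd _).2).1 hh)

end Main

end Pool.Agent.SixB.Mv
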