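import Pool.Agent.Lib.SixB.S8LabFin
import Pool.Agent.Lib.SixB.S8LabWd

/-!
# Step 8: weak labels after a regular move

* `NewS.labsN`: labels of the new state, or the tip is next to the target and the new state has weak
  labels (`WkLab`);
* `LabP.stepN`: **the labels of the new state** after a regular move.
-/

set_option autoImplicit false

namespace Pool.Agent.SixB.Mv

open Finset Pool.Agent.Perc Pool.Agent.Perc6 Pool.Agent.Perc6.C2Aux Pool.Agent.Perc.Tips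
open Pool.Agent.SixB.Top Pool.Agent.SixB.CloK

variable {ι ι' : Type*} {U P U' P' E : Set (ℤ × ℤ)} {κ : ℤ × ℤ → ι} {κ' : ℤ × ℤ → ι'} {d d' : ℤ}
  {A A' τ τ' B : UE × Bool} {s s₀ : ℤ} {mP mU kt i₁ j₁ t j₂ i₂ mP' mU' kt' : ℕ}

/-- The inner faces along an arc near the face `g`. -/
theorem chI_arc (hA : BD P A) {r : ℤ} {g : ℤ × ℤ} {i j : ℕ} (hij : i ≤ j)
    (h : ∀ l, i ≤ l → l < j → inF P A l ∈ sqF r g) :
    ChI (P ∩ sqF (r + 1) g) (inF P A i) (inF P A j) := by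
  refine chI_inF hA hij fun l h1 h2 f hf => ?_
  have h3 := h l h1 h2
  have h4 : |f.1 - (inF P A l).1| ≤ 1 ∧ |f.2 - (inF P A l).2| ≤ 1 := by
    refine near_cor hf ?_
    rw [vert_succ]
    exact isCor_in_rg _
  unfold sqF at h3 ⊢
  simp only [Set.mem_ofPred_eq, abs_le] at *
  omega

/-- The same with the last face. -/
theorem chI_arc' (hA : BD P A) {r : ℤ} {g : ℤ × ℤ} {i j : ℕ} (hij : i ≤ j)
    (h : ∀ l, i ≤ l → l ≤ j → inF P A l ∈ sqF r g) :
    ChI (P ∩ sqF (r + 1) g) (inF P A i) (inF P A j) ∧ ChI (P ∩ sqF (r + 1) g) (inF P A j) (inF P A i) := by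
  have h1 := chI_arc hA hij fun l h1 h2 => h l h1 h2.le
  exact ⟨h1, ChI.symm ⟨(bd_side hA i).1, sqF_le_of (by omega) (h i le_rfl hij)⟩ h1⟩

end Pool.Agent.SixB.Mv

namespace Pool.Agent.SixB.Top

open Finset Pool.Agent.Perc Pool.Agent.Perc6 Pool.Agent.Perc6.C2Aux Pool.Agent.Perc.Tips
open Pool.Agent.SixB.Mv Pool.Agent.SixB.CloK

variable {ι : Type*} {U P E : Set (ℤ × ℤ)} {κ : ℤ × ℤ → ι} {d : ℤ} {A τ B C : UE × Bool}

namespace NewS

variable {s₀ : ℤ} {mP mU j₁ t j₂ : ℕ} (N : NewS U P E κ d A τ B s₀ mP mU j₁ t j₂)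
include N

theorem inF_t : inF P A t = ahead B := by
  unfold inF
  rw [N.tgt]

/-- A side of the target block is near the target. -/
theorem blockB {i : ℕ} (h1 : j₁ ≤ i) (h2 : i ≤ j₂) :
    ChI (P ∩ sqF (s₀ + 1) (ahead B)) (ahead B) (inF P A i) := by
  have h3 := N.jt
  have h4 := N.tj
  rcases Nat.le_total i t with h5 | h5
  · have h6 := (chI_arc' N.cyc.bd h5 fun l hl1 hl2 => N.nrB l (by omega) (by omega)).2
    rwa [N.inF_t] at h6
  · have h6 := (chI_arc' N.cyc.bd h5 fun l hl1 hl2 => N.nrB l (by omega) (by omega)).1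
    rwa [N.inF_t] at h6

/-- The sides of an arc from the tip with outer faces in the part of `E` are near the tip. -/
theorem tipR {i : ℕ} (h : ∀ k ≤ i, outF P A k ∈ ptK U κ (outF P A 0)) :
    ChI (P ∩ sqF (d + 2) (ahead A)) (ahead A) (inF P A i) := by
  have h1 := (chI_arc' N.cyc.bd (Nat.zero_le i) fun l _ hl => N.near_tip (h l hl)).1
  rw [show d + 2 = d + 1 + 1 by ring]
  exact h1

theorem tipL {i : ℕ} (hi : i ≤ mP) (h : ∀ k, i ≤ k → k ≤ mP → outF P A k ∈ ptK U κ (outF P A 0)) :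
    ChI (P ∩ sqF (d + 2) (ahead A)) (ahead A) (inF P A i) := by
  have h1 := (chI_arc' N.cyc.bd hi fun l hl hl' => N.near_tip (h l hl hl')).2
  rw [N.inF_mP] at h1
  rw [show d + 2 = d + 1 + 1 by ring]
  exact h1

/-- **Weak labels in the near case.** -/
theorem labsN {kt : ℕ} (k0 : 0 < kt) (km : kt ≤ mU) (hτ : ahead τ ∈ E)
    (aR : ∃ v < kt, LinkK U κ (side P A (j₁ - 1)) (side U τ v))
    (aL : ∃ v < mU, (v = 0 ∨ kt ≤ v) ∧ LinkK U κ (side P A (j₂ + 1)) (side U τ v)) :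
    (ChI (P ∩ sqF (s₀ + d + 3) (ahead B)) (ahead B) (ahead A) ∧
        WkLab U P κ A τ B (d + 2) (s₀ + d + 3) mP mU kt t) ∨
      ∃ i₂, LabP U P κ A τ B (d + 1) s₀ mP mU kt 0 j₁ t j₂ i₂ := by
  have hd := N.app.d_pos
  have h3 := N.jt
  have h4 := N.tj
  have h5 := N.j1
  have h6 := N.jm
  have hmono : ∀ i, j₁ ≤ i → i ≤ j₂ →
      ChI (P ∩ sqF (s₀ + d + 3) (ahead B)) (ahead B) (inF P A i) := fun i g1 g2 => by
    have e : P ∩ sqF (s₀ + 1) (ahead B) ⊆ P ∩ sqF (s₀ + d + 3) (ahead B) := fun f hf =>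
      ⟨hf.1, sqF_le_of (by omega) hf.2⟩
    exact ChI.mono e (N.blockB g1 g2)
  by_cases h1 : outF P A (j₁ - 1) ∈ ptK U κ (outF P A 0)
  · left
    have hR := N.allR h1
    have h2 : outF P A (j₂ + 1) ∉ ptK U κ (outF P A 0) := fun h =>
      N.sep ((ptK_le h1).2.2.trans (ptK_le h).2.2.symm)
    refine ⟨N.nearR hR, N.tgt, by omega, fun i hi => ?_⟩
    rcases Nat.lt_or_ge i j₁ with c | c
    · exact Or.inl (N.tipR fun k hk => hR k (by omega))
    rcases Nat.lt_or_ge j₂ i with c' | c'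
    swap
    · exact Or.inr (Or.inl (hmono i c c'))
    by_cases c1 : outF P A i ∈ ptK U κ (outF P A 0)
    · left
      have c0 : j₂ + 1 ≠ i := by
        rintro rfl
        exact h2 c1
      refine N.tipL hi.le fun k hk hk' => ?_
      rcases hk.eq_or_lt with h7 | h7
      · rw [← h7]
        exact c1
      rcases hk'.eq_or_lt with h8 | h8
      · rw [h8, N.outF_mP]
        exact N.h00
      rcases N.chord (i := 0) (k := j₂ + 1) (j := i) (l := k) (by omega) (by omega) hi (Or.inr h7)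
        h8 c1 with h9 | h9
      · exact absurd h9 h2
      · exact h9
    · right
      right
      right
      refine ⟨by omega, ?_⟩
      obtain ⟨vL, hvL, hvL', lL⟩ := aL
      have hvL'' : kt ≤ vL := N.anchorL hτ h2 hvL' lL
      rcases Nat.lt_or_ge (j₂ + 1) i with h7 | h7
      · by_cases c2 : outF P A i ∈ ptK U κ (outF P A (j₂ + 1))
        · exact ⟨vL, hvL'', hvL, linkK_part (N.bdU vL) lL c2⟩
        obtain ⟨v, hv, hl⟩ := N.exists_link i
        have h8 := N.cyc3 (i₁ := 0) (by omega) h7 hi h2 c1 c2 (by omega) hvL hv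
          (N.link_tip hτ N.h00) lL hl
        exact ⟨v, by omega, hv, hl⟩
      · rw [show i = j₂ + 1 by omega]
        exact ⟨vL, hvL'', hvL, lL⟩
  by_cases h2 : outF P A (j₂ + 1) ∈ ptK U κ (outF P A 0)
  · left
    have hL := N.allL h1 h2
    refine ⟨N.nearL hL, N.tgt, by omega, fun i hi => ?_⟩
    rcases Nat.lt_or_ge j₂ i with c | c
    · exact Or.inl (N.tipL hi.le fun k hk hk' => hL k (by omega) hk')
    rcases Nat.lt_or_ge i j₁ with c' | c'
    swap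
    · exact Or.inr (Or.inl (hmono i c' c))
    by_cases c1 : outF P A i ∈ ptK U κ (outF P A 0)
    · left
      have c0 : i ≠ j₁ - 1 := by
        rintro rfl
        exact h1 c1
      refine N.tipR fun k hk => ?_
      rcases hk.eq_or_lt with h7 | h7
      · rw [h7]
        exact c1
      rcases Nat.eq_zero_or_pos k with h8 | h8
      · rw [h8]
        exact N.h00
      rcases N.chord (i := 0) (k := k) (j := i) (l := j₁ - 1) h8 h7 hi (Or.inr (by omega))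
        (by omega) c1 with h9 | h9
      · exact h9
      · exact absurd h9 h1
    · right
      right
      left
      refine ⟨by omega, ?_⟩
      obtain ⟨vR, hvR, lR⟩ := aR
      have hvU : vR < mU := by omega
      rcases Nat.lt_or_ge i (j₁ - 1) with h7 | h7
      · by_cases c2 : outF P A i ∈ ptK U κ (outF P A (j₁ - 1))
        · exact ⟨vR, hvR, linkK_part (N.bdU vR) lR c2⟩
        have hi0 : 0 < i := by
          rcases Nat.eq_zero_or_pos i with h8 | h8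
          · exact absurd (h8 ▸ N.h00) c1
          · exact h8
        obtain ⟨v, hv, hl⟩ := N.exists_link i
        have h8 := N.cyc3 hi0 h7 (by omega) c1 h1 (fun h => c2 (ptK_symm h)) (by omega) hv hvU
          (N.link_tip hτ N.h00) hl lR
        exact ⟨v, by omega, hl⟩
      · rw [show i = j₁ - 1 by omega]
        exact ⟨vR, hvR, lR⟩
  · exact Or.inr (N.labs' k0 hτ aR aL h1 h2)

end NewS

end Pool.Agent.SixB.Top

namespace Pool.Agent.SixB.Mv

open Finset Pool.Agent.Perc Pool.Agent.Perc6 Pool.Agent.Perc6.C2Aux Pool.Agent.Perc.Tips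
open Pool.Agent.SixB.Top Pool.Agent.SixB.CloK

variable {ι ι' : Type*} {U P U' P' E : Set (ℤ × ℤ)} {κ : ℤ × ℤ → ι} {κ' : ℤ × ℤ → ι'} {d d' : ℤ}
  {A A' τ τ' B : UE × Bool} {s s₀ : ℤ} {mP mU kt i₁ j₁ t j₂ i₂ mP' mU' kt' : ℕ}

/-- **The labels after a regular move**: labels, or the tip is next to the target and the new state has
weak labels. -/
theorem LabP.stepN (X : LabP U P κ A τ B s s₀ mP mU kt i₁ j₁ t j₂ i₂)
    (hs : κ (outF P A (j₁ - 1)) ≠ κ (outF P A (j₂ + 1))) (hU : Cyc U τ mU) (h : App U P κ d)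
    (h' : App U' P' κ' d') (hF : U'.Finite) (hE' : Top.EConn U') (hesc : Esc U')
    (hU' : Cyc U' τ' mU') (hP' : Cyc P' A' mP') (cP' : Top.EConn P') (hPP : P' ⊆ P) (hUU : U' ⊆ U)
    (k0 : 0 < kt') (km : kt' ≤ mU') (hB : ahead B ∈ P')
    (hcl : ∀ f ∈ P', ∀ g ∈ P, f ∈ sqF (s₀ + 1) (ahead B) → g ∈ sqF (s₀ + 1) (ahead B) →
      AdjF f g → g ∈ P')
    (hκ : ∀ x, x ∉ P → ∀ y, y ∉ P → (κ' x = κ' y ↔ κ x = κ y))
    (hc1 : ahead (rv (side P A (j₁ - 1))) ∈ U →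
      ∀ f ∈ capC U κ (ahead (rv (side P A (j₁ - 1)))), f ∈ U')
    (hc2 : ahead (rv (side P A (j₂ + 1))) ∈ U →
      ∀ f ∈ capC U κ (ahead (rv (side P A (j₂ + 1)))), f ∈ U')
    (hl1 : ∀ w < kt, ∀ w' < mU', side U' τ' w' = side U τ w → w' < kt')
    (hl2 : ∀ w, kt ≤ w → w < mU → ∀ w' < mU', side U' τ' w' = side U τ w → w' = 0 ∨ kt' ≤ w')
    (hE : Top.EConn E) (hEU : E ⊆ U') (hEκ : ∀ y ∈ E, ∀ z ∈ E, κ' y = κ' z) (hτ : ahead τ' ∈ E)
    (hAE : ahead (rv A') ∈ E) (hA' : ahead (rv A') ∈ P) :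
    (∃ i₁' j₁' t' j₂' i₂', LabP U' P' κ' A' τ' B (d' + 1) s₀ mP' mU' kt' i₁' j₁' t' j₂' i₂' ∧
        κ' (outF P' A' (j₁' - 1)) ≠ κ' (outF P' A' (j₂' + 1))) ∨
      (ChI (P' ∩ sqF (s₀ + d' + 3) (ahead B)) (ahead B) (ahead A') ∧
        ∃ t', WkLab U' P' κ' A' τ' B (d' + 2) (s₀ + d' + 3) mP' mU' kt' t') := by
  obtain ⟨b, b0, b1, hb, N⟩ := X.newS hs h' hF hE' hesc hU' hP' cP' hPP hB hcl hκ hE hEU hEκ hAE hA'
  have h3 := X.jt
  have h4 := X.tj
  have h5 := X.ij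
  have h6 := X.ji
  have hout : ∀ i, outF P A i ∉ P := fun i => (bd_side X.cyc.bd i).2
  have hκ' : ∀ i, ∀ y, κ y = κ (ahead (rv (side P A i))) → κ' y = κ' (ahead (rv (side P A i))) := by
    intro i y hy
    exact (hκ y (fun hyP => hout i (h.sat y _ hy hyP)) _ (hout i)).2 hy
  have hin : ∀ i, j₁ ≤ i + 1 → i ≤ j₂ + 1 → ahead (side P A i) ∈ U' := fun i h1 h2 =>
    h'.sub (X.inF_mem hB hcl h1 h2)
  have e1 : side P' A' (b + 1 - 1) = side P A (j₁ - 1) := by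
    rw [Nat.add_sub_cancel, show side P' A' b = side P' A' (b + 0) from rfl, hb 0 (Nat.zero_le _)]
    rfl
  have e2 : side P' A' (b + 1 + (j₂ - j₁) + 1) = side P A (j₂ + 1) := by
    rw [show b + 1 + (j₂ - j₁) + 1 = b + (j₂ + 2 - j₁) by omega, hb _ le_rfl,
      show j₁ - 1 + (j₂ + 2 - j₁) = j₂ + 1 by omega]
  -- the anchors
  obtain ⟨w₁, hw₁, l₁⟩ := X.b (j₁ - 1) (by omega) (by omega)
  obtain ⟨w₂, hw₂, hw₂', l₂⟩ := X.l (j₂ + 1) (by omega) h6
  obtain ⟨c₁, n₁⟩ := linkK_new hUU (bd_side hU.bd w₁) (hin _ (by omega) (by omega)) l₁ hc1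
    (hκ' (j₁ - 1))
  obtain ⟨c₂, n₂⟩ := linkK_new hUU (bd_side hU.bd w₂) (hin _ (by omega) (by omega)) l₂ hc2
    (hκ' (j₂ + 1))
  obtain ⟨v₁, hv₁, q₁⟩ := hU'.exists_index c₁
  obtain ⟨v₂, hv₂, q₂⟩ := hU'.exists_index c₂
  have p₁ := hl1 w₁ hw₁ v₁ hv₁ q₁
  have p₂ := hl2 w₂ hw₂ hw₂' v₂ hv₂ q₂
  rcases N.labsN (kt := kt') k0 km hτ ⟨v₁, p₁, by rw [e1, q₁]; exact n₁⟩
    ⟨v₂, hv₂, p₂, by rw [e2, q₂]; exact n₂⟩ with ⟨h7, h8⟩ | ⟨i₂', h7⟩
  · exact Or.inr ⟨h7, _, h8⟩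
  · exact Or.inl ⟨_, _, _, _, _, h7, N.sep⟩

end Pool.Agent.SixB.Mv
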