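import Pool.Agent.Lib.SixB.S8Law

/-!
# Step 8: the tip of a state is decided by the explored faces

`tipOK`: the hypothesis `TipOK` of `law_of_mvEst` holds for every state.
-/

set_option autoImplicit false

namespace Pool.Agent.SixB.Tru

open Finset Pool.Agent.Perc Pool.Agent.PercT Pool.Agent.PercX60
open Pool.Agent.MP_6bd702.H23 (Ed ea eb)
open Pool.Agent.SixB Pool.Agent.SixB.Rule Pool.Agent.SixB.Dct Pool.Agent.SixB.Mv

variable {s : TS} {q : Rule.Ndl} {ω ω' : Cfg}

/-- The configurations which are read agree on the crossed faces. -/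
theorem cfS_congr (hq : s.q = some q) (h : ∀ f ∈ expS s ω, ω f = ω' f) {f : ℤ × ℤ}
    (hf : f ∈ vS s.V q ω 0 s.t) : cfS s.V q ω f = cfS s.V q ω' f := by
  unfold cfS
  by_cases hD : f ∈ FU s.V \ QF q.1
  · rw [mix_of_mem hD, mix_of_mem hD]
    refine h f (Or.inr ?_)
    rw [hq]
    exact ⟨hD, Finset.mem_coe.2 hf⟩
  · rw [mix_of_notMem hD, mix_of_notMem hD]

/-- The strand up to the time of the state is decided by the explored faces. -/
theorem pS_congr (hq : s.q = some q) (h : ∀ f ∈ expS s ω, ω f = ω' f) {t : ℕ} (ht : t ≤ s.t) :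
    pS s.V q ω' t = pS s.V q ω t :=
  pth_congr (fun _ hf => cfS_congr hq h hf) t ht

theorem vS_congr (hq : s.q = some q) (h : ∀ f ∈ expS s ω, ω f = ω' f) {t t' : ℕ} (ht : t ≤ s.t) :
    vS s.V q ω' t' t = vS s.V q ω t' t :=
  vs_congr (fun _ hf => cfS_congr hq h hf) ht

/-- **The explored set is decided by the explored faces.** -/
theorem expS_congr (h : ∀ f ∈ expS s ω, ω f = ω' f) : expS s ω' = expS s ω := by
  cases hq : s.q with
  | none =>
    unfold expS
    rw [hq]
    rfl
  | some q =>
    unfold expS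
    rw [hq]
    simp only [Option.elim_some]
    rw [vS_congr hq h le_rfl]

/-- **The mixed configuration gives the same tip.** -/
theorem tipOK (s : TS) (ω : Cfg) : TipOK s ω := fun _ hq _ =>
  pS_congr hq (fun _ hf => (mix_of_mem hf).symm) le_rfl

end Pool.Agent.SixB.Tru
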