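import Pool.Agent.Lib.SixB.S8InvD
import Pool.Agent.Lib.SixB.S8LawT

/-!
# Step 8, unit 8H: the invariant of the true chain is decided by the explored faces

`frS_congr`, `uS_congr`, `tS_congr`, `Xi_congr`: the data of a state; `RunB.congr`, `RunI.congr`,
`RunN.congr`, `RunV.congr`: the invariants.
-/

set_option autoImplicit false

namespace Pool.Agent.SixB.Tru

open Finset Pool.Agent.Perc Pool.Agent.Perc6 Pool.Agent.PercT Pool.Agent.Perc6.C2Aux
open Pool.Agent.SixB Pool.Agent.SixB.Rule Pool.Agent.SixB.Dct Pool.Agent.SixB.Mv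
open Pool.Agent.SixB.Blow (subE)
open Pool.Agent.SixB.Top (compT ChI lf rg)
open Pool.Agent.Perc.Tips

variable {𝔇 : Dat} {d : ℕ → ℕ} {n : ℕ} {r : ℤ} {s : TS} {ω ω' : Cfg} {q : Rule.Ndl} {D : Dom}
  {κ : ℤ × ℤ → ℤ × ℤ} {m x i₁ j₁ t j₂ i₂ : ℕ}

theorem frS_congr (hq : s.q = some q) (h : ∀ f ∈ expS s ω, ω f = ω' f) :
    frS s q ω' = frS s q ω := by
  unfold frS
  rw [vS_congr hq h le_rfl]

theorem uS_congr (hq : s.q = some q) (h : ∀ f ∈ expS s ω, ω f = ω' f) :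
    uS s q ω' = uS s q ω := by
  unfold uS
  rw [frS_congr hq h, pS_congr hq h le_rfl]

theorem tS_congr (hq : s.q = some q) (h : ∀ f ∈ expS s ω, ω f = ω' f) :
    tS s q ω' = tS s q ω := by
  unfold tS
  rw [pS_congr hq h le_rfl]

/-- The mixed configurations agree. -/
theorem mix_congr' {S : Set (ℤ × ℤ)} (h : ∀ f ∈ S, ω f = ω' f) (ξ : Cfg) :
    mix S ω' ξ = mix S ω ξ := by
  funext f
  by_cases hf : f ∈ S
  · rw [mix_of_mem hf, mix_of_mem hf, h f hf]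
  · rw [mix_of_notMem hf, mix_of_notMem hf]

theorem Xi_congr (h : ∀ f ∈ expS s ω, ω f = ω' f) (q : Rule.Ndl) (ξ : Cfg) :
    Xi s q ω' ξ = Xi s q ω ξ := by
  unfold Xi
  rw [expS_congr h, mix_congr' h]

theorem RunB.congr (h : ∀ f ∈ expS s ω, ω f = ω' f) (H : RunB 𝔇 d n r s ω q D κ m x) :
    RunB 𝔇 d n r s ω' q D κ m x := by
  have e1 := frS_congr H.hq h
  have e2 := uS_congr H.hq h
  have e3 := tS_congr H.hq h
  have e4 := pS_congr H.hq h le_rfl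
  refine ⟨H.hq, H.run, H.ini, ?_, fun ξ => ?_, ?_, ?_, ?_⟩
  · rw [e1, e4]
    exact H.fre
  · rw [e2, e3, Xi_congr h]
    exact H.tst ξ
  · rw [e2]
    exact H.app
  · rw [e2, e3]
    exact H.tgt
  · rw [e3]
    exact H.near

theorem RunI.congr (h : ∀ f ∈ expS s ω, ω f = ω' f)
    (H : RunI 𝔇 d n r s ω q D κ m x i₁ j₁ t j₂ i₂) :
    RunI 𝔇 d n r s ω' q D κ m x i₁ j₁ t j₂ i₂ :=
  { toRunB := H.toRunB.congr h
    lab := by
      rw [uS_congr H.hq h, tS_congr H.hq h]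
      exact H.lab
    sep := H.sep }

theorem RunN.congr (h : ∀ f ∈ expS s ω, ω f = ω' f) (H : RunN 𝔇 d n r s ω q D κ m x) :
    RunN 𝔇 d n r s ω' q D κ m x :=
  { toRunB := H.toRunB.congr h
    nrB := H.nrB
    lbn := by
      rw [uS_congr H.hq h, tS_congr H.hq h]
      exact H.lbn }

/-- **The invariant is decided by the explored faces.** -/
theorem RunV.congr (h : ∀ f ∈ expS s ω, ω f = ω' f) (H : RunV 𝔇 d n r s ω) :
    RunV 𝔇 d n r s ω' := by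
  intro q D hq hD hi
  rcases H q D hq hD hi with ⟨κ, m, x, i₁, j₁, t, j₂, i₂, h1⟩ | ⟨κ, m, x, h1⟩
  · exact Or.inl ⟨κ, m, x, i₁, j₁, t, j₂, i₂, h1.congr h⟩
  · exact Or.inr ⟨κ, m, x, h1.congr h⟩

end Pool.Agent.SixB.Tru
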