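import Pool.Agent.Lib.SixB.S8NearTouch

/-!
# Step 8, near miss: visits, trials and their probabilities

`Ex.Vis E z r₁ r₂ ω t`: at the time `t` the strand is in the box of radius `r₁` around `z` for the
first time after a time outside of the box of radius `r₂` (a visit begins).

* `exists_vis`: every time in the inner box belongs to a visit; the strand stays in the outer box
  between the beginning of the visit and this time.
* `pr_trials`: a finite family of kinds `i ∈ I` of trials. A trial of kind `i` begins at the times `t`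
  with `V i ω t` (decided at the time `t`), it is stopped at the first time `s ≥ t` with `Q i t ω s`
  (decided at the time `s`). The probability that for some trial the strand goes from the tip of the
  time `s` to distance `R` without the two passages of `Passages` is at most `C (r / R) ^ α` times the
  mean number of pairs `(i, t)`.
* `pr_near`: the same for an event which implies that some trial fails.
-/

set_option autoImplicit false

namespace Pool.Agent.SixB.Ex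

open Finset Pool.Agent.Perc Pool.Agent.PercT Pool.Agent.SixB

variable {E : Ex} {S : Cfg → Set (ℤ × ℤ)} {ω ω' : Cfg} {c : ℤ} {s t i j k l n m u : ℕ}
  {z v w p q : ℤ × ℤ} {r R r₁ r₂ : ℤ} {F : Set (ℤ × ℤ)}

/-! ### Visits -/

/-- A visit begins at the time `t`. -/
def Vis (E : Ex) (z : ℤ × ℤ) (r₁ r₂ : ℤ) (ω : Cfg) (t : ℕ) : Prop :=
  InB z r₁ (E.p ω t) ∧ ∃ u < t, ¬ InB z r₂ (E.p ω u) ∧ ∀ k, u < k → k < t → ¬ InB z r₁ (E.p ω k)

theorem dec_vis (hE : E.Ok S) : E.Dec S (E.Vis z r₁ r₂) := by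
  have key : ∀ ω ω' t, E.Ag S ω ω' t → E.Vis z r₁ r₂ ω t → E.Vis z r₁ r₂ ω' t := by
    rintro ω ω' t ha ⟨h1, u, h2, h3, h4⟩
    have e : ∀ k ≤ t, E.p ω' k = E.p ω k := fun k hk => ha.p hE hk
    refine ⟨by rwa [e t le_rfl], u, h2, by rwa [e u h2.le], fun k k1 k2 => ?_⟩
    rw [e k k2.le]
    exact h4 k k1 k2
  exact fun ω ω' t ha => ⟨key ω ω' t ha, key ω' ω t (ha.symm hE)⟩

/-- Every time in the inner box belongs to a visit. -/
theorem exists_vis (h0 : ¬ InB z r₂ (E.p ω s)) (hsk : s ≤ k) (hr : r₁ ≤ r₂)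
    (hk : InB z r₁ (E.p ω k)) :
    ∃ t, s < t ∧ t ≤ k ∧ E.Vis z r₁ r₂ ω t ∧ ∀ m, t ≤ m → m ≤ k → InB z r₂ (E.p ω m) := by
  obtain ⟨u, u1, u2, u3, u4⟩ := last_time (P := fun m => ¬ InB z r₂ (E.p ω m)) h0 hsk
  have huk : u < k := by
    rcases Nat.lt_or_eq_of_le u2 with h | rfl
    · exact h
    · exact absurd (hk.mono hr) u3
  obtain ⟨t, t1, t2, t3, t4⟩ := first_time (P := fun m => InB z r₁ (E.p ω m)) (s := u + 1) hk huk
  refine ⟨t, by omega, t2, ⟨t3, u, by omega, u3, fun m m1 m2 => t4 m m1 m2⟩, fun m m1 m2 => ?_⟩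
  exact not_not.1 (u4 m (by omega) m2)

/-! ### Trials -/

/-- The trial which begins at the time `t` and is stopped at the first time `s` with `Q s` fails. -/
def Fail (E : Ex) (ω : Cfg) (t N : ℕ) (Q : ℕ → Prop) (r R : ℤ) : Prop :=
  ∃ s, t ≤ s ∧ s ≤ N ∧ Q s ∧ (∀ k, t ≤ k → k < s → ¬ Q k) ∧
    ∃ l, s ≤ l ∧ ¬ InB (ua (E.p ω s)) R (E.p ω l) ∧ ¬ Passages E ω s l (ua (E.p ω s)) r

theorem hit_first {P : ℕ → Prop} {N : ℕ} (h1 : t ≤ s) (h2 : s ≤ N) (h3 : P s)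
    (h4 : ∀ k, t ≤ k → k < s → ¬ P k) : hit N (fun m => t ≤ m ∧ P m) = s :=
  hit_eq ⟨h1, h3⟩ h2 fun k hk h => h4 k h.1 hk h.2

/-- **Trials.** -/
theorem pr_trials : ∃ C α : ℝ, 0 < C ∧ 0 < α ∧ ∀ (ι : Type) (_ : DecidableEq ι)
    (W : Finset (ℤ × ℤ)) (E : Ex) (S : Cfg → Set (ℤ × ℤ)) (A : Set Cfg), E.Ok S → DetS S A →
    (∀ ω ∈ A, E.U ω ⊆ W) → (∀ ω ∈ A, Disjoint (E.U ω) (S ω)) →
    ∀ (I : Finset ι) (V : ι → Cfg → ℕ → Prop) (Q : ι → ℕ → Cfg → ℕ → Prop),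
    (∀ i ∈ I, E.Dec S (V i)) →
    (∀ i ∈ I, ∀ t ω ω' s, t ≤ s → E.Ag S ω ω' s → (Q i t ω s ↔ Q i t ω' s)) →
    ∀ (N : ℕ) (r R : ℤ), 0 < r → 0 < R →
    pr W (A ∩ {ω | ∃ i ∈ I, ∃ t ≤ N, V i ω t ∧ E.Fail ω t N (Q i t ω) r R}) ≤
      C * ((r : ℝ) / R) ^ α * ∑ i ∈ I, ∑ t ∈ range (N + 1), pr W (A ∩ {ω | V i ω t}) := by
  obtain ⟨C, α, hC, hα, h⟩ := pr_passages
  refine ⟨C, α, hC, hα, ?_⟩
  intro ι _ W E S A hE hA hU hd I V Q hV hQ N r R hr hR
  -- one trial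
  have key : ∀ x ∈ I ×ˢ range (N + 1), pr W ((A ∩ {ω | V x.1 ω x.2}) ∩
      {ω | E.Fail ω x.2 N (Q x.1 x.2 ω) r R}) ≤
      C * ((r : ℝ) / R) ^ α * pr W (A ∩ {ω | V x.1 ω x.2}) := by
    rintro ⟨i, t⟩ hx
    obtain ⟨hi, -⟩ := Finset.mem_product.1 hx
    simp only
    set τ : Cfg → ℕ := fun ω => hit N (fun m => t ≤ m ∧ Q i t ω m) with hτdef
    have hdec : E.Dec S (fun ω m => t ≤ m ∧ Q i t ω m) := by
      intro ω ω' m ha
      constructor
      · rintro ⟨h1, h2⟩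
        exact ⟨h1, (hQ i hi t ω ω' m h1 ha).1 h2⟩
      · rintro ⟨h1, h2⟩
        exact ⟨h1, (hQ i hi t ω ω' m h1 ha).2 h2⟩
    have hτ : E.Time S τ := hdec.time N
    -- the times are at least `t` on the failure
    set B : Set Cfg := {ω | ω ∈ A ∧ V i ω t ∧ t ≤ τ ω} with hB
    have hBdet : DetS (fun ω => S ω ∪ E.x ω (τ ω)) B := by
      rintro ω ⟨h1, h2, h3⟩ ω' h'
      have ha : E.Ag S ω ω' (τ ω) := h'
      refine ⟨hA ω h1 ω' ha.past, (hV i hi ω ω' t (ha.mono h3)).1 h2, ?_⟩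
      rw [hτ ω ω' ha]
      exact h3
    refine (pr_mono W ?_).trans ((h W E S τ B hE hτ hBdet (fun ω hω => hU ω hω.1)
      (fun ω hω => hd ω hω.1) r R hr hR).trans ?_)
    · rintro ω ⟨⟨h1, h2⟩, s, s1, s2, s3, s4, l, l1, l2, l3⟩
      have e1 : τ ω = s := hit_first s1 s2 s3 s4
      refine ⟨⟨h1, h2, by rw [e1]; exact s1⟩, l, ?_, ?_, ?_⟩
      · rw [e1]; exact l1
      · rw [e1]; exact l2
      · rw [e1]; exact l3
    · refine mul_le_mul_of_nonneg_left (pr_mono W ?_) ?_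
      · rintro ω ⟨h1, h2, -⟩
        exact ⟨h1, h2⟩
      · have hr' : (0 : ℝ) < r := by exact_mod_cast hr
        have hR' : (0 : ℝ) < R := by exact_mod_cast hR
        positivity
  have h1 := trials_sum (W := W) (s := I ×ˢ range (N + 1))
    (A := fun x : ι × ℕ => A ∩ {ω | V x.1 ω x.2})
    (F := fun x : ι × ℕ => {ω | E.Fail ω x.2 N (Q x.1 x.2 ω) r R}) key
  rw [Finset.sum_product] at h1
  refine (pr_mono W ?_).trans h1
  rintro ω ⟨hω, i, hi, t, ht, hv, hf⟩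
  exact ⟨(i, t), Finset.mem_product.2 ⟨hi, Finset.mem_range.2 (by omega)⟩, ⟨hω, hv⟩, hf⟩

end Pool.Agent.SixB.Ex
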