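import Pool.Agent.Lib.SixB.S8NearRed
import Pool.Agent.Lib.SixB.S8NearStop

/-!
# Step 8: the near miss lemma

`NearM E N z r ρ R K m rep ω`: at a time `n ≤ N` the tip is outside of the box `Bx z R`, and there is a
gate of radius `r` in the deep part of the box which was not there at the time `0` (at most `K` visits
of the deep part; the vertices `rep c i`, `i < m`, represent the classes of the wall of colour `c` in
the box).

* `Ag.*`, `Dec.*`: the quantities of `S8NearRed` are decided; `time_hk`, `time_sg`: stopping times.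
* `pr_near_miss_sum`: `P(A ∩ NearM) ≤ C ((2 r + 3) / (R - ρ - 1)) ^ α` times the mean number of pairs
  (visit, leg), both colours.
* `pr_near_miss`: the same with the bound `2 K (K + m)` for this number.
-/

set_option autoImplicit false

namespace Pool.Agent.SixB.Near

open Finset Pool.Agent.Perc Pool.Agent.PercT Pool.Agent.SixB Pool.Agent.SixB.NearCut

section Dec

variable {E : Ex} {S : Cfg → Set (ℤ × ℤ)} {ω ω' : Cfg} {z : ℤ × ℤ} {r ρ R : ℤ}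
  {N k i j l s t n m h : ℕ} {c κ : ℤ} {x v p y : ℤ × ℤ}

theorem ag_fr (hE : E.Ok S) (ha : E.Ag S ω ω' t) (hs : s ≤ t) : E.Fr ω' s = E.Fr ω s := by
  unfold Ex.Fr
  rw [ha.x hE hs, ha.U hE]

theorem ag_cf (hE : E.Ok S) (ha : E.Ag S ω ω' t) {f : ℤ × ℤ} (hf : f ∉ E.Fr ω t) :
    E.cf ω f = E.cf ω' f := by
  unfold Ex.cf
  rw [hE.U ω ω' ha.past, hE.ζ ω ω' ha.past]
  by_cases hU : f ∈ E.U ω
  · rw [mix_of_mem hU, mix_of_mem hU]
    refine ha f (Or.inr ?_)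
    by_contra h
    exact hf ⟨hU, h⟩
  · rw [mix_of_notMem hU, mix_of_notMem hU]

/-- Connections by solid faces are decided. -/
theorem ag_conn (hE : E.Ok S) (ha : E.Ag S ω ω' t) (hs : s ≤ t) {D : Set (ℤ × ℤ)}
    (hD : D ⊆ (E.Fr ω s)ᶜ) {u v : ℤ × ℤ} : Conn (E.cf ω) D u v ↔ Conn (E.cf ω') D u v := by
  refine GridA.conn_iff (ω := E.cf ω) (ω' := E.cf ω') D (fun f hf => ?_) u v
  exact ag_cf hE ha fun h => hD hf (Ex.fr_anti hs h)

theorem ag_e (hE : E.Ok S) (ha : E.Ag S ω ω' t) : E.e ω' = E.e ω := hE.e ω ω' ha.past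

theorem ag_sid (hE : E.Ok S) (ha : E.Ag S ω ω' t) (hs : s ≤ t) :
    E.Sid c ω s v ↔ E.Sid c ω' s v := by
  unfold Ex.Sid
  rw [ag_fr hE ha hs, ag_e hE ha]
  exact ag_conn hE ha hs (fun f hf => hf)

theorem ag_pp (hE : E.Ok S) (ha : E.Ag S ω ω' t) (hs : s ≤ t) :
    PP (E.cf ω') (E.e ω') (E.U ω')ᶜ c s = PP (E.cf ω) (E.e ω) (E.U ω)ᶜ c s := by
  ext v
  rw [mem_PP_iff, mem_PP_iff]
  exact (ag_sid hE ha hs).symm

theorem ag_cut (hE : E.Ok S) (ha : E.Ag S ω ω' t) (hs : s ≤ t) {Eg : Set UE} :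
    Cut (E.cf ω) (E.e ω) (E.U ω)ᶜ Eg s p y ↔ Cut (E.cf ω') (E.e ω') (E.U ω')ᶜ Eg s p y := by
  unfold Cut CS
  rw [ag_pp hE ha hs, ag_pp hE ha hs]

theorem ag_leg (hE : E.Ok S) (ha : E.Ag S ω ω' t) (hh : h ≤ t) :
    Leg E ω' z R κ h v = Leg E ω z R κ h v := by
  ext x
  unfold Leg
  simp only [Set.mem_ofPred_eq]
  rw [ag_fr hE ha hh, ← ag_sid hE ha hh,
    ← ag_conn hE ha hh (fun f hf => hf.1)]

theorem ag_tc (hE : E.Ok S) (ha : E.Ag S ω ω' s) {L : Set (ℤ × ℤ)} :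
    Tc E ω z ρ r κ L s ↔ Tc E ω' z ρ r κ L s := by
  unfold Tc
  have e1 : E.p ω' s = E.p ω s := ha.p hE le_rfl
  have e2 : {a | InB (ua (E.p ω' s)) r a ∧ ∀ l ≤ s, E.p ω' l ≠ a} =
      {a | InB (ua (E.p ω s)) r a ∧ ∀ l ≤ s, E.p ω l ≠ a} := by
    ext a
    simp only [Set.mem_ofPred_eq, e1]
    refine and_congr Iff.rfl (forall_congr' fun l => forall_congr' fun hl => ?_)
    rw [ha.p hE hl]
  rw [e1] at e2 ⊢
  rw [e2, ag_sid hE ha (Nat.sub_le s 1)]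
  simp only [ag_cut hE ha le_rfl]

/-- The beginnings of the visits are stopping times. -/
theorem time_hk (hE : E.Ok S) (k : ℕ) : E.Time S (fun ω => hk E ω z ρ R N k) := by
  have hin : E.Dec S (fun ω t => InB z ρ (E.p ω t)) := by
    intro ω ω' t ha
    simp only [ha.p hE le_rfl]
  induction k with
  | zero => exact hin.time N
  | succ k ih =>
    have hd : E.Dec S (fun ω t => ∃ b ≤ t, hk E ω z ρ R N k ≤ b ∧ fa (E.p ω b) ∉ Bx z R) := by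
      refine Ex.Dec.exists_le ((ih.dec_le hE).and ?_)
      intro ω ω' t ha
      simp only [ha.p hE le_rfl]
    exact (hd.and hin).time N

theorem tgt_eq (hE : E.Ok S) {rep : Cfg → ℤ → ℕ → ℤ × ℤ} (hrep : Adp S rep)
    (ha : E.Ag S ω ω' t) (hk' : hk E ω z ρ R N k ≤ t) :
    tgt E ω' z ρ R N (rep ω') κ k i = tgt E ω z ρ R N (rep ω) κ k i := by
  unfold tgt
  rw [hrep ω ω' ha.past]
  by_cases hi : i < k
  · have h1 : hk E ω z ρ R N i ≤ t := (hk_mono hi.le).trans hk'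
    have h2 : hk E ω' z ρ R N i = hk E ω z ρ R N i := time_hk hE i ω ω' (ha.mono h1)
    rw [if_pos hi, if_pos hi, h2, ha.p hE h1]
  · rw [if_neg hi, if_neg hi]

/-- The times of the trials are stopping times. -/
theorem time_sg (hE : E.Ok S) {rep : Cfg → ℤ → ℕ → ℤ × ℤ} (hrep : Adp S rep) (κ : ℤ) (k i : ℕ) :
    E.Time S (fun ω => sg E ω z ρ R r N (rep ω) κ k i) := by
  unfold sg
  refine Ex.Dec.time ?_ N
  have key : ∀ ω ω' s, E.Ag S ω ω' s →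
      (hk E ω z ρ R N k ≤ s ∧ Tc E ω z ρ r κ (Leg E ω z R κ (hk E ω z ρ R N k)
        (tgt E ω z ρ R N (rep ω) κ k i)) s) →
      hk E ω' z ρ R N k ≤ s ∧ Tc E ω' z ρ r κ (Leg E ω' z R κ (hk E ω' z ρ R N k)
        (tgt E ω' z ρ R N (rep ω') κ k i)) s := by
    rintro ω ω' s ha ⟨h1, h2⟩
    have e1 : hk E ω' z ρ R N k = hk E ω z ρ R N k := time_hk hE k ω ω' (ha.mono h1)
    rw [e1, tgt_eq hE hrep ha h1, ag_leg hE ha h1, ← ag_tc hE ha]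
    exact ⟨h1, h2⟩
  exact fun ω ω' s ha => ⟨key ω ω' s ha, key ω' ω s (ha.symm hE)⟩

end Dec

/-- **Near miss**: a new gate in the deep part, the tip is outside of the box. -/
def NearM (E : Ex) (N : ℕ) (z : ℤ × ℤ) (r ρ R : ℤ) (K m : ℕ) (rep : Cfg → ℤ → ℕ → ℤ × ℤ) :
    Set Cfg :=
  {ω | ∃ n ≤ N, ∃ z₁, E.Wll ω ∧ Nb (E.cf ω) (E.e ω) n ∧
    InR (z.1 - (ρ - r - 2)) (z.1 + (ρ - r - 2)) (z.2 - (ρ - r - 2)) (z.2 + (ρ - r - 2)) z₁ ∧
    E.Gate ω n z₁ r ∧ ¬ E.Gate ω 0 z₁ r ∧ fa (E.e ω) ∉ Bx z R ∧ fa (E.p ω n) ∉ Bx z R ∧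
    n ≤ hk E ω z ρ R N K ∧
    ∀ c : ℤ, (c = 0 ∨ c = 1) → ∀ x, E.Sid c ω 0 x →
      InR (z.1 - ρ) (z.1 + ρ) (z.2 - ρ) (z.2 + ρ) x →
      ∃ i < m, Conn (E.cf ω) ((E.U ω)ᶜ ∩ Bx z R) (rep ω c i) x}

/-- **NEAR MISS LEMMA**, with the mean number of trials. -/
theorem pr_near_miss_sum : ∃ C α : ℝ, 0 < C ∧ 0 < α ∧ ∀ (W : Finset (ℤ × ℤ)) (E : Ex)
    (S : Cfg → Set (ℤ × ℤ)) (A : Set Cfg), E.Ok S → DetS S A → (∀ ω ∈ A, E.U ω ⊆ W) →
    (∀ ω ∈ A, Disjoint (E.U ω) (S ω)) → ∀ (z : ℤ × ℤ) (r ρ R : ℤ) (N K m : ℕ)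
    (rep : Cfg → ℤ → ℕ → ℤ × ℤ), Adp S rep → 0 ≤ r → ρ + 2 * r + 3 ≤ R → 0 < R - ρ - 1 →
    pr W (A ∩ NearM E N z r ρ R K m rep) ≤
      C * ((2 * (r : ℝ) + 3) / (R - ρ - 1)) ^ α *
        (2 * ∑ k ∈ range K, ((k : ℝ) + m) * pr W (A ∩ {ω | hk E ω z ρ R N k < N})) := by
  classical
  obtain ⟨C, α, hC, hα, h⟩ := Ex.pr_passages
  refine ⟨C, α, hC, hα, ?_⟩
  intro W E S A hE hA hU hd z r ρ R N K m rep hrep hr hρR hR'
  set θ : ℝ := C * ((2 * (r : ℝ) + 3) / (R - ρ - 1)) ^ α with hθdef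
  have hg : (0 : ℤ) < 2 * r + 3 := by omega
  -- one trial
  set I : Finset (ℕ × (ℕ × Bool)) := (range K).biUnion fun k =>
    (range (k + m) ×ˢ (Finset.univ : Finset Bool)).image fun x => (k, x) with hI
  set col : Bool → ℤ := fun b => if b then 1 else 0 with hcol
  have hcolor : ∀ b, col b = 0 ∨ col b = 1 := by
    intro b
    cases b <;> simp [hcol]
  have key : ∀ x : ℕ × (ℕ × Bool), pr W ((A ∩ {ω | hk E ω z ρ R N x.1 < N}) ∩
      {ω | hk E ω z ρ R N x.1 ≤ sg E ω z ρ R (2 * r + 2) N (rep ω) (col x.2.2) x.1 x.2.1 ∧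
        ∃ l, sg E ω z ρ R (2 * r + 2) N (rep ω) (col x.2.2) x.1 x.2.1 ≤ l ∧
        ¬ InB (ua (E.p ω (sg E ω z ρ R (2 * r + 2) N (rep ω) (col x.2.2) x.1 x.2.1))) (R - ρ - 1)
          (E.p ω l) ∧
        ¬ Ex.Passages E ω (sg E ω z ρ R (2 * r + 2) N (rep ω) (col x.2.2) x.1 x.2.1) l
          (ua (E.p ω (sg E ω z ρ R (2 * r + 2) N (rep ω) (col x.2.2) x.1 x.2.1))) (2 * r + 3)}) ≤
      θ * pr W (A ∩ {ω | hk E ω z ρ R N x.1 < N}) := by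
    rintro ⟨k, i, b⟩
    simp only
    have hσ := time_sg (z := z) (ρ := ρ) (R := R) (r := 2 * r + 2) (N := N) hE hrep (col b) k i
    have hh := time_hk (z := z) (ρ := ρ) (R := R) (N := N) hE k
    set σ : Cfg → ℕ := fun ω => sg E ω z ρ R (2 * r + 2) N (rep ω) (col b) k i with hσdef
    set B : Set Cfg := {ω | ω ∈ A ∧ hk E ω z ρ R N k < N ∧ hk E ω z ρ R N k ≤ σ ω} with hB
    have hBdet : DetS (fun ω => S ω ∪ E.x ω (σ ω)) B := by
      rintro ω ⟨h1, h2, h3⟩ ω' h'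
      have ha : E.Ag S ω ω' (σ ω) := h'
      have e1 : hk E ω' z ρ R N k = hk E ω z ρ R N k := hh ω ω' (ha.mono h3)
      refine ⟨hA ω h1 ω' ha.past, by rw [e1]; exact h2, ?_⟩
      rw [hσ ω ω' ha, e1]
      exact h3
    have hmain := h W E S σ B hE hσ hBdet (fun ω hω => hU ω hω.1) (fun ω hω => hd ω hω.1)
      (2 * r + 3) (R - ρ - 1) hg hR'
    have e2 : C * (((2 * r + 3 : ℤ) : ℝ) / ((R - ρ - 1 : ℤ) : ℝ)) ^ α = θ := by
      rw [hθdef]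
      push_cast
      rfl
    rw [e2] at hmain
    have hθ0 : 0 ≤ θ := by
      rw [← e2]
      have h1 : (0 : ℝ) < ((2 * r + 3 : ℤ) : ℝ) := by exact_mod_cast hg
      have h2 : (0 : ℝ) < ((R - ρ - 1 : ℤ) : ℝ) := by exact_mod_cast hR'
      positivity
    refine (pr_mono W ?_).trans (hmain.trans (mul_le_mul_of_nonneg_left (pr_mono W ?_) hθ0))
    · rintro ω ⟨⟨h1, h2⟩, h3, h4⟩
      exact ⟨⟨h1, h2, h3⟩, h4⟩
    · rintro ω ⟨h1, h2, -⟩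
      exact ⟨h1, h2⟩
  have hsum := trials_sum (W := W) (s := I)
    (A := fun x : ℕ × (ℕ × Bool) => A ∩ {ω | hk E ω z ρ R N x.1 < N})
    (F := fun x : ℕ × (ℕ × Bool) =>
      {ω | hk E ω z ρ R N x.1 ≤ sg E ω z ρ R (2 * r + 2) N (rep ω) (col x.2.2) x.1 x.2.1 ∧
        ∃ l, sg E ω z ρ R (2 * r + 2) N (rep ω) (col x.2.2) x.1 x.2.1 ≤ l ∧
        ¬ InB (ua (E.p ω (sg E ω z ρ R (2 * r + 2) N (rep ω) (col x.2.2) x.1 x.2.1))) (R - ρ - 1)
          (E.p ω l) ∧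
        ¬ Ex.Passages E ω (sg E ω z ρ R (2 * r + 2) N (rep ω) (col x.2.2) x.1 x.2.1) l
          (ua (E.p ω (sg E ω z ρ R (2 * r + 2) N (rep ω) (col x.2.2) x.1 x.2.1))) (2 * r + 3)})
    (fun x _ => key x)
  have hcount : ∑ x ∈ I, pr W (A ∩ {ω | hk E ω z ρ R N x.1 < N}) =
      2 * ∑ k ∈ range K, ((k : ℝ) + m) * pr W (A ∩ {ω | hk E ω z ρ R N k < N}) := by
    rw [hI, Finset.sum_biUnion, Finset.mul_sum]
    · refine Finset.sum_congr rfl fun k _ => ?_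
      rw [Finset.sum_image (fun x _ y _ hxy => by simpa using hxy)]
      simp only
      rw [Finset.sum_const, card_product, card_range, Finset.card_univ, Fintype.card_bool,
        nsmul_eq_mul]
      push_cast
      ring
    · intro k _ k' _ hkk
      rw [Function.onFun, Finset.disjoint_left]
      rintro ⟨a, b⟩ h1 h2
      simp only [Finset.mem_image, Prod.mk.injEq] at h1 h2
      obtain ⟨_, _, h3, _⟩ := h1
      obtain ⟨_, _, h4, _⟩ := h2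
      exact hkk (h3.trans h4.symm)
  rw [hcount] at hsum
  refine (pr_mono W ?_).trans hsum
  rintro ω ⟨hω, n, hnN, z₁, h1, h2, h3, h4, h5, h6, h7, h8, h9⟩
  obtain ⟨κ, k, i, hκ, hk1, hi1, hks, hsn, hT, hP⟩ := near_red h1 h2 hnN hr h3 hρR h4 h5 h6 h7 h8 h9
  obtain ⟨b, hb⟩ : ∃ b, col b = κ := by
    rcases hκ with rfl | rfl
    · exact ⟨false, by simp [hcol]⟩
    · exact ⟨true, by simp [hcol]⟩
  subst hb
  refine ⟨(k, i, b), ?_, ⟨hω, ?_⟩, hks, n, hsn.le, fun hin => ?_, hP⟩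
  · rw [hI, Finset.mem_biUnion]
    exact ⟨k, Finset.mem_range.2 hk1, Finset.mem_image.2 ⟨(i, b),
      Finset.mem_product.2 ⟨Finset.mem_range.2 hi1, Finset.mem_univ _⟩, rfl⟩⟩
  · exact lt_of_le_of_lt hks (by omega)
  · refine h7 (not_bx ?_)
    have g1 := hT.2.1
    simp only at hin
    rw [inB_iff] at g1 hin ⊢
    omega

/-- **NEAR MISS LEMMA.** -/
theorem pr_near_miss : ∃ C α : ℝ, 0 < C ∧ 0 < α ∧ ∀ (W : Finset (ℤ × ℤ)) (E : Ex)
    (S : Cfg → Set (ℤ × ℤ)) (A : Set Cfg), E.Ok S → DetS S A → (∀ ω ∈ A, E.U ω ⊆ W) →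
    (∀ ω ∈ A, Disjoint (E.U ω) (S ω)) → ∀ (z : ℤ × ℤ) (r ρ R : ℤ) (N K m : ℕ)
    (rep : Cfg → ℤ → ℕ → ℤ × ℤ), Adp S rep → 0 ≤ r → ρ + 2 * r + 3 ≤ R → 0 < R - ρ - 1 →
    pr W (A ∩ NearM E N z r ρ R K m rep) ≤
      2 * K * ((K : ℝ) + m) * (C * ((2 * (r : ℝ) + 3) / (R - ρ - 1)) ^ α) * pr W A := by
  obtain ⟨C, α, hC, hα, h⟩ := pr_near_miss_sum
  refine ⟨C, α, hC, hα, ?_⟩
  intro W E S A hE hA hU hd z r ρ R N K m rep hrep hr hρR hR'
  refine (h W E S A hE hA hU hd z r ρ R N K m rep hrep hr hρR hR').trans ?_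
  have hθ0 : 0 ≤ C * ((2 * (r : ℝ) + 3) / (R - ρ - 1)) ^ α := by
    have h1 : (0 : ℝ) ≤ r := by exact_mod_cast hr
    have h2 : (0 : ℝ) < (R : ℝ) - ρ - 1 := by
      have : (0 : ℝ) < ((R - ρ - 1 : ℤ) : ℝ) := by exact_mod_cast hR'
      push_cast at this
      exact this
    positivity
  have h1 : ∑ k ∈ range K, ((k : ℝ) + m) * pr W (A ∩ {ω | hk E ω z ρ R N k < N}) ≤
      ∑ k ∈ range K, ((K : ℝ) + m) * pr W A := by
    refine Finset.sum_le_sum fun k hkr => ?_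
    have h2 : (k : ℝ) ≤ K := by
      have := Finset.mem_range.1 hkr
      exact_mod_cast this.le
    have h3 := pr_nonneg W (A ∩ {ω | hk E ω z ρ R N k < N})
    have h4 : pr W (A ∩ {ω | hk E ω z ρ R N k < N}) ≤ pr W A := pr_mono W Set.inter_subset_left
    have h5 : (0 : ℝ) ≤ k := Nat.cast_nonneg k
    have h6 : (0 : ℝ) ≤ m := Nat.cast_nonneg m
    exact mul_le_mul (by linarith) h4 h3 (by linarith)
  rw [Finset.sum_const, card_range, nsmul_eq_mul] at h1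
  have h2 := mul_le_mul_of_nonneg_left h1 hθ0
  nlinarith [h2]

end Pool.Agent.SixB.Near
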