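import Pool.Agent.Lib.SixB.S8RuleT

/-!
# Step 8: locality of a running step of the scan

`strd`: the strand of the needle `x` in the remaining set `V`, as a sequence of unit edges. The strand
and the next remaining set depend only on the edges with an end which is removed by the step.
-/

set_option autoImplicit false

namespace Pool.Agent.SixB.Rule

open Pool.Agent.Perc Pool.Agent.PercD Pool.Agent.PercT Pool.Agent.PercX60 Pool.Agent.SixB.Dct
open Pool.Agent.SixB.Scan
open Pool.Agent.PercU (Cor vtx fce nxt nxtE qry)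
open Pool.Agent.PercO (tl_eq hd_eq mem_boxE' clV_eq)
open Pool.Agent.MP_6bd702.H23 (Ed ea eb)

variable {n h : ℕ} {T T' : Finset Edg} {U : Finset (ℤ × ℤ)} {q : Ndl}

theorem hul_cfQ_congr (hT : T ⊆ boxE n) (hT' : T' ⊆ boxE n) (hag : AgrE n (stpQ T U q) T T') :
    Hul ((cfQ T' U q : Finset Edg) : Set Ed) q.2 = Hul ((cfQ T U q : Finset Edg) : Set Ed) q.2 := by
  refine hul_congr fun e he => ?_
  rw [Finset.mem_coe, Finset.mem_coe]
  refine mem_cfQ_congr hT hT' hag ?_
  rw [tl_eq, hd_eq, clV_eq]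
  exact he

/-- The next remaining set depends only on the edges with an end which is removed. -/
theorem stpQ_congr (hT : T ⊆ boxE n) (hT' : T' ⊆ boxE n) (hag : AgrE n (stpQ T U q) T T') :
    stpQ T' U q = stpQ T U q := by
  ext x
  rw [mem_stpQ, mem_stpQ, swal_eq_hul, swal_eq_hul, hul_cfQ_congr hT hT' hag]

/-- The strand of the needle `x` in the remaining set `V`. -/
noncomputable def strd (T : Finset Edg) (V : Finset (ℤ × ℤ)) (x : Ndl) (t : ℕ) : UE :=
  kU ((nxt ((cfQ T V x : Finset Edg) : Set Ed))^[t] (bc V x.1 x.2))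

theorem strd_eq_pth (T : Finset Edg) (V : Finset (ℤ × ℤ)) (x : Ndl) (t : ℕ) :
    strd T V x t = pth (gT ((cfQ T V x : Finset Edg) : Set Ed)) (kU (bc V x.1 x.2)) t := by
  unfold strd
  rw [kU_iterate]

/-- The base corner is in the cluster. -/
theorem bc_mem {V : Finset (ℤ × ℤ)} {x : Ndl} (hk : ∃ k, NdF V x.1 k ∧ vtx k = x.2) :
    vtx (bc V x.1 x.2) ∈ clV (cfQ T V x) x.2 := by
  rw [(bc_spec hk).2]
  exact Relation.ReflTransGen.refl

/-- **The strand depends only on the edges with an end which is removed.** -/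
theorem strd_congr {V : Finset (ℤ × ℤ)} {x : Ndl} (hk : ∃ k, NdF V x.1 k ∧ vtx k = x.2)
    (hT : T ⊆ boxE n) (hT' : T' ⊆ boxE n) (hag : AgrE n (stpQ T V x) T T') :
    strd T' V x = strd T V x := by
  funext t
  unfold strd
  rw [walk_congr hT hT' hag (bc_mem hk) t]

/-- The period of the base corner is the same. -/
theorem period_congr {V : Finset (ℤ × ℤ)} {x : Ndl} (hk : ∃ k, NdF V x.1 k ∧ vtx k = x.2)
    (hT : T ⊆ boxE n) (hT' : T' ⊆ boxE n) (hag : AgrE n (stpQ T V x) T T') :
    Function.minimalPeriod (nxt ((cfQ T' V x : Finset Edg) : Set Ed)) (bc V x.1 x.2) =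
      Function.minimalPeriod (nxt ((cfQ T V x : Finset Edg) : Set Ed)) (bc V x.1 x.2) := by
  rw [Function.minimalPeriod_eq_minimalPeriod_iff]
  intro t
  unfold Function.IsPeriodicPt Function.IsFixedPt
  rw [walk_congr hT hT' hag (bc_mem hk) t]

/-- The strand of a running step is the strand of the exploration `exR` of a rule. -/
theorem strd_eq_exR {R : Rul} (hR : RulOK n h R) {j : ℕ} (ω : Cfg) {x : Ndl}
    (hx : R j (cfgE n ω) = some x) (t : ℕ) :
    strd (cfgE n ω) (stR n R (cfgE n ω) j) x t = (exR n R j).p ω t := by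
  rw [exR_p hR ω hx]
  rfl

/-- Every face which is visited by the strand has an end which is removed by the step. -/
theorem strd_end {V : Finset (ℤ × ℤ)} {x : Ndl} (hk : ∃ k, NdF V x.1 k ∧ vtx k = x.2) (t : ℕ) :
    (tl (eE (fa (strd T V x t))) ∉ stpQ T V x ∨ hd (eE (fa (strd T V x t))) ∉ stpQ T V x) ∧
    (tl (eE (fb (strd T V x t))) ∉ stpQ T V x ∨ hd (eE (fb (strd T V x t))) ∉ stpQ T V x) := by
  set k := (nxt ((cfQ T V x : Finset Edg) : Set Ed))^[t] (bc V x.1 x.2) with hkd
  have hv : vtx k ∈ clV (cfQ T V x) x.2 := Out.vtx_mem (bc_mem hk) t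
  have key : ∀ e : Edg, (ea e = vtx k ∨ eb e = vtx k) →
      tl e ∉ stpQ T V x ∨ hd e ∉ stpQ T V x := by
    intro e he
    rw [tl_eq, hd_eq]
    rcases he with he | he
    · left; rw [he]; exact fun h => (mem_stpQ.1 h).2 (Or.inl hv)
    · right; rw [he]; exact fun h => (mem_stpQ.1 h).2 (Or.inl hv)
  unfold strd
  rw [← hkd, fa_kU, fb_kU, eE_phiE, eE_phiE]
  exact ⟨key _ (qry_end k), key _ (qryb_end k)⟩

end Pool.Agent.SixB.Rule
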