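import Pool.Agent.Lib.SixB.S8Chain
import Pool.Agent.Lib.SixB.S8NearMiss
import Pool.Agent.Lib.SixB.S8RuleL

/-!
# Step 8: the bad events are decided by the explored faces

* `gate_ext`, `sid_ext`, `wll_ext`: gates, sides and walls of an exploration depend only on the fresh
  faces, the configuration and the first unit edge.
* `dec_gate`, `dec_new`: a gate at the time `t`, a new gate at distance from the tip and the base at a
  time `≤ t`, are decided by the path up to the time `t`.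
* `exS`: the exploration of a state of the true chain; `ag_exS`: agreement on the explored faces of the
  state is agreement up to its time; `dec_exS`: what is decided up to the time of the state.
-/

set_option autoImplicit false

namespace Pool.Agent.SixB

open Finset Pool.Agent.Perc Pool.Agent.PercT Pool.Agent.SixB.Near

namespace Ex

variable {E E' : Ex} {S : Cfg → Set (ℤ × ℤ)} {ω ω' : Cfg} {s t : ℕ} {c : ℤ} {z v : ℤ × ℤ}
  {r R : ℤ}

/-! ### Explorations with the same data -/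

theorem p_ext (hc : E'.cf ω' = E.cf ω) (he : E'.e ω' = E.e ω) (t : ℕ) : E'.p ω' t = E.p ω t := by
  unfold Ex.p
  rw [hc, he]

theorem v_ext (hc : E'.cf ω' = E.cf ω) (he : E'.e ω' = E.e ω) (s t : ℕ) :
    E'.v ω' s t = E.v ω s t := by
  unfold Ex.v
  rw [hc, he]

theorem x_ext (hU : E'.U ω' = E.U ω) (hc : E'.cf ω' = E.cf ω) (he : E'.e ω' = E.e ω) (t : ℕ) :
    E'.x ω' t = E.x ω t := by
  unfold Ex.x
  rw [hU, v_ext hc he]

theorem fr_ext (hU : E'.U ω' = E.U ω) (hc : E'.cf ω' = E.cf ω) (he : E'.e ω' = E.e ω) (t : ℕ) :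
    E'.Fr ω' t = E.Fr ω t := by
  unfold Ex.Fr
  rw [hU, x_ext hU hc he]

theorem sid_ext (hU : E'.U ω' = E.U ω) (hc : E'.cf ω' = E.cf ω) (he : E'.e ω' = E.e ω) :
    E'.Sid c ω' t v ↔ E.Sid c ω t v := by
  unfold Ex.Sid
  rw [fr_ext hU hc he, hc, he]

theorem gate_ext (hU : E'.U ω' = E.U ω) (hc : E'.cf ω' = E.cf ω) (he : E'.e ω' = E.e ω) :
    E'.Gate ω' t z R ↔ E.Gate ω t z R := by
  unfold Ex.Gate
  simp only [sid_ext hU hc he, p_ext hc he]

theorem wll_ext (hU : E'.U ω' = E.U ω) (hc : E'.cf ω' = E.cf ω) (he : E'.e ω' = E.e ω) :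
    E'.Wll ω' ↔ E.Wll ω := by
  unfold Ex.Wll
  rw [hU, hc, he]

/-! ### Decided events -/

/-- Gates are decided. -/
theorem ag_gate (hE : E.Ok S) (ha : E.Ag S ω ω' t) (hs : s ≤ t) :
    E.Gate ω s z R ↔ E.Gate ω' s z R := by
  unfold Ex.Gate
  refine exists_congr fun v => exists_congr fun w => ?_
  rw [ag_sid hE ha hs, ag_sid hE ha hs]
  have e1 : {a | InB z R a ∧ ∀ l ≤ s, E.p ω' l ≠ a} = {a | InB z R a ∧ ∀ l ≤ s, E.p ω l ≠ a} := by
    ext a
    simp only [Set.mem_ofPred_eq]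
    refine and_congr Iff.rfl (forall_congr' fun l => forall_congr' fun hl => ?_)
    rw [ha.p hE (hl.trans hs)]
  rw [e1]

theorem dec_gate (hE : E.Ok S) (z : ℤ × ℤ) (R : ℤ) : E.Dec S fun ω t => E.Gate ω t z R :=
  fun _ _ _ ha => ag_gate hE ha le_rfl

/-- The walls are decided. -/
theorem ag_wll (hE : E.Ok S) (ha : E.Ag S ω ω' t) : E.Wll ω ↔ E.Wll ω' := by
  have hU := ha.U hE
  have hf : ∀ f ∉ E.U ω, E.cf ω f = E.cf ω' f := by
    intro f hf
    unfold Ex.cf
    rw [hU, hE.ζ ω ω' ha.past, mix_of_notMem hf, mix_of_notMem hf]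
  have hc : ∀ u v, Conn (E.cf ω) (E.U ω)ᶜ u v ↔ Conn (E.cf ω') (E.U ω)ᶜ u v := fun u v =>
    GridA.conn_iff (ω := E.cf ω) (ω' := E.cf ω') (E.U ω)ᶜ (fun f h => hf f h) u v
  unfold Ex.Wll
  rw [hU, ag_e hE ha]
  refine forall_congr' fun c => forall_congr' fun _ => forall_congr' fun f => forall_congr' fun hf' =>
    forall_congr' fun p => forall_congr' fun q => ?_
  rw [hc]
  have hb : Bond (E.cf ω) {f} p q ↔ Bond (E.cf ω') {f} p q := by
    constructor
    · rintro ⟨x, y, h1, h2⟩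
      obtain rfl := Set.mem_singleton_iff.1 h1
      exact ⟨x, y, rfl, by rw [← hf _ hf']; exact h2⟩
    · rintro ⟨x, y, h1, h2⟩
      obtain rfl := Set.mem_singleton_iff.1 h1
      exact ⟨x, y, rfl, by rw [hf _ hf']; exact h2⟩
  rw [hb]

/-- At the time `t` there is a new gate of radius `r` at distance `R` from the tip and the base. -/
def NewG (E : Ex) (r R : ℤ) (ω : Cfg) (t : ℕ) : Prop :=
  ∃ z, E.Gate ω t z r ∧ ¬ E.Gate ω 0 z r ∧ fa (E.e ω) ∉ Bx z R ∧ fa (E.p ω t) ∉ Bx z R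

theorem dec_newG (hE : E.Ok S) (r R : ℤ) : E.Dec S (E.NewG r R) := by
  intro ω ω' t ha
  unfold NewG
  refine exists_congr fun z => ?_
  rw [ag_gate hE ha le_rfl, ag_gate hE ha (Nat.zero_le t), ag_e hE ha, ha.p hE le_rfl]

/-- A new gate at a time `≤ t`. -/
theorem dec_newG_le (hE : E.Ok S) (r R : ℤ) : E.Dec S fun ω t => ∃ s ≤ t, E.NewG r R ω s :=
  (dec_newG hE r R).exists_le

theorem newG_ext (hU : E'.U ω' = E.U ω) (hc : E'.cf ω' = E.cf ω) (he : E'.e ω' = E.e ω) :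
    E'.NewG r R ω' t ↔ E.NewG r R ω t := by
  unfold NewG
  simp only [gate_ext hU hc he, p_ext hc he, he]

end Ex

/-! ### The exploration of a state -/

namespace Tru

open Pool.Agent.MP_6bd702.H23 (Ed ea eb)
open Pool.Agent.PercX60
open Pool.Agent.SixB.Rule Pool.Agent.SixB.Dct Pool.Agent.SixB.Mv

variable {V : Finset (ℤ × ℤ)} {q : Rule.Ndl} {s : TS} {ω ω' : Cfg} {t : ℕ}

/-- The exploration of the needle `q` in the remaining set `V`. -/
noncomputable def exS (V : Finset (ℤ × ℤ)) (q : Rule.Ndl) : Ex where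
  U _ := FU V \ QF q.1
  ζ _ := gT (q.1 : Set Ed)
  e _ := eS V q

theorem exS_cf (V : Finset (ℤ × ℤ)) (q : Rule.Ndl) (ω : Cfg) : (exS V q).cf ω = cfS V q ω := rfl

theorem exS_p (V : Finset (ℤ × ℤ)) (q : Rule.Ndl) (ω : Cfg) (t : ℕ) :
    (exS V q).p ω t = pS V q ω t := rfl

theorem exS_v (V : Finset (ℤ × ℤ)) (q : Rule.Ndl) (ω : Cfg) (s t : ℕ) :
    (exS V q).v ω s t = vS V q ω s t := rfl

theorem exS_ok (V : Finset (ℤ × ℤ)) (q : Rule.Ndl) : (exS V q).Ok fun _ => (FU V)ᶜ :=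
  ⟨fun _ _ _ => rfl, fun _ _ _ => rfl, fun _ _ _ => rfl, fun _ _ _ => rfl⟩

theorem expS_some (hq : s.q = some q) (ω : Cfg) : expS s ω = (FU s.V)ᶜ ∪ (exS s.V q).x ω s.t := by
  unfold expS
  rw [hq]
  rfl

theorem expS_none (hq : s.q = none) (ω : Cfg) : expS s ω = (FU s.V)ᶜ := by
  unfold expS
  rw [hq]
  exact Set.union_empty _

/-- Agreement on the explored faces is agreement up to the time of the state. -/
theorem ag_exS (hq : s.q = some q) (h : ∀ f ∈ expS s ω, ω f = ω' f) :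
    (exS s.V q).Ag (fun _ => (FU s.V)ᶜ) ω ω' s.t := by
  rw [expS_some hq] at h
  exact h

/-- What is decided up to the time of the state. -/
theorem dec_exS {P : Cfg → ℕ → Prop} (hq : s.q = some q)
    (hP : (exS s.V q).Dec (fun _ => (FU s.V)ᶜ) P) (h : ∀ f ∈ expS s ω, ω f = ω' f) :
    P ω s.t ↔ P ω' s.t := hP ω ω' s.t (ag_exS hq h)

end Tru

end Pool.Agent.SixB
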