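import Pool.Agent.Lib.SixB.S8RecSkel
import Pool.Agent.Lib.SixB.S8LawT
import Pool.Agent.Lib.SixB.S8BadD

/-!
# Step 8: the bad events of the chain of moves

* `gW d n i`, `gR d n i`: the width of the gates and the distance of the stage `i`;
* `GateS d n i s ω`: in the state `s` there is a gate of the width `gW`, the tip and the base are at
  distance `gR`;
* `BdI I 𝔇 d n i`: the bad event of the stage `i`: the invariant `I` (a parameter) does not hold, or there
  is a gate;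
* `rowBad`: the bad events are decided by the explored faces if `I` is (`InvDec`).
-/

set_option autoImplicit false

namespace Pool.Agent.SixB.Tru

open Filter Finset Pool.Agent.Perc Pool.Agent.PercT Pool.Agent.PercX60 Pool.Agent.PercD
open Pool.Agent.MP_6bd702.H23 (Ed ea eb)
open Pool.Agent.SixB Pool.Agent.SixB.Rule Pool.Agent.SixB.Dct Pool.Agent.SixB.Mv
open Pool.Agent.SixB.Near

/-! ### The scales of a stage -/

variable (d : ℕ → ℕ) (n : ℕ)

/-- The width of the gates of the stage `i`. -/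
def gW (i : ℕ) : ℤ := 8 * Sc.ls d n (Sc.eR (d i) (d (i + 1)))

/-- The distance of the gates from the tip and from the base. -/
def gR (i : ℕ) : ℤ := Sc.ls d n (d (i + 1) + 6)

/-- There is a gate in the state `s`, far from the tip and from the base. -/
def GateS (i : ℕ) (s : TS) (ω : Cfg) : Prop :=
  ∃ q, s.q = some q ∧ ∃ z, fa (pS s.V q ω s.t) ∉ Bx z (gR d n i) ∧
    fa (eS s.V q) ∉ Bx z (gR d n i) ∧ (exS s.V q).Gate ω s.t z (gW d n i)

variable {d n}

theorem not_gateS {i : ℕ} {s : TS} {q : Rule.Ndl} {ω : Cfg} (h : ¬ GateS d n i s ω)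
    (hq : s.q = some q) {z : ℤ × ℤ} {r : ℤ} (hr : r ≤ gW d n i)
    (h1 : fa (pS s.V q ω s.t) ∉ Bx z (gR d n i)) (h2 : fa (eS s.V q) ∉ Bx z (gR d n i)) :
    ¬ (exS s.V q).Gate ω s.t z r := fun hg => h ⟨q, hq, z, h1, h2, hg.mono hr⟩

/-- **The gates are decided by the explored faces.** -/
theorem gateS_dec {i : ℕ} {s : TS} {ω ω' : Cfg} (h : ∀ f ∈ expS s ω, ω f = ω' f)
    (hg : GateS d n i s ω) : GateS d n i s ω' := by
  obtain ⟨q, hq, z, h1, h2, h3⟩ := hg
  refine ⟨q, hq, z, ?_, h2, (Ex.ag_gate (exS_ok _ _) (ag_exS hq h) le_rfl).1 h3⟩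
  rw [pS_congr hq h le_rfl]
  exact h1

/-! ### The bad events -/

/-- An invariant: a property of the resolutions, `n`, the stage, the state and the configuration. -/
abbrev InvP : Type := (ℕ → ℕ) → ℕ → ℕ → TS → Cfg → Prop

/-- The invariant is decided by the explored faces. -/
def InvDec (I : InvP) : Prop := ∀ d n i s ω ω', (∀ f ∈ expS s ω, ω f = ω' f) → I d n i s ω →
  I d n i s ω'

/-- **The bad event of the stage `i`.** -/
def BdI (I : InvP) (𝔇 : Dat) (d : ℕ → ℕ) (n i : ℕ) : Set Cfg :=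
  {ω | ¬ I d n i (tst 𝔇 d n ω i) ω ∨ GateS d n i (tst 𝔇 d n ω i) ω}

section Bd

variable {I : InvP} {𝔇 : Dat} {i : ℕ} {ω ω' : Cfg}

theorem notMem_bdI : ω ∉ BdI I 𝔇 d n i ↔
    I d n i (tst 𝔇 d n ω i) ω ∧ ¬ GateS d n i (tst 𝔇 d n ω i) ω := by
  unfold BdI
  rw [Set.mem_ofPred_eq]
  tauto

theorem expS_symm {s : TS} (h : ∀ f ∈ expS s ω, ω f = ω' f) : ∀ f ∈ expS s ω', ω' f = ω f := by
  intro f hf
  rw [expS_congr h] at hf
  exact (h f hf).symm

/-- **Row `bad`.** -/
theorem rowBad (hI : InvDec I) (htst : RowTst 𝔇) : RowBad 𝔇 (BdI I 𝔇) := by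
  have key : ∀ d n i ω ω', (∀ f ∈ expS (tst 𝔇 d n ω i) ω, ω f = ω' f) → ω ∉ BdI I 𝔇 d n i →
      ω' ∉ BdI I 𝔇 d n i := by
    intro d n i ω ω' h hω
    rw [notMem_bdI] at hω ⊢
    have h1 := htst d n i ω ω' h
    rw [h1]
    exact ⟨hI _ _ _ _ _ _ h hω.1, fun hg => hω.2 (gateS_dec (expS_symm h) hg)⟩
  intro d n i ω ω' h
  refine not_iff_not.1 ⟨key d n i ω ω' h, key d n i ω' ω ?_⟩
  rw [htst d n i ω ω' h]
  exact expS_symm h

/-- Two invariants together. -/
theorem InvDec.and {I J : InvP} (hI : InvDec I) (hJ : InvDec J) :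
    InvDec fun d n i s ω => I d n i s ω ∧ J d n i s ω :=
  fun d n i s ω ω' h hh => ⟨hI d n i s ω ω' h hh.1, hJ d n i s ω ω' h hh.2⟩

end Bd

end Pool.Agent.SixB.Tru
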