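import Pool.Agent.Lib.SixB.S8RareA
import Pool.Agent.Lib.SixB.S8Bad

/-!
# Step 8: the row `rare` in the names of the chain

`G : ℕ → ℕ → ℕ` is a growth function, `GroF G m d` the growth of the resolutions `d`.

* `SmZ G Z`: the static event `Z d n m` of the stage `m` is rare if `d m` is large for `d (m + 1)`;
* `SmY G Bd Y`: the event `Y d n l` of the transition `l → l + 1` is rare if `d l` is large for
  `d (l + 1)`, together with the event that the stages `≤ l` are not bad;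
* `rowRare_of_step`: if outside of the static event `Z d n m`, of the transition events `Y d n l`,
  `l < m`, and of the bad events of the stages `< m` the stage `m` is not bad, then there is a growth
  function `G ≥ G₀` with the row `rare`, for all growth functions `≥ G`.
-/

set_option autoImplicit false

namespace Pool.Agent.SixB.Tru

open Filter Finset Topology Pool.Agent.Perc Pool.Agent.PercT Pool.Agent.PercX60 Pool.Agent.PercD
open Pool.Agent.SixB Pool.Agent.SixB.Rule Pool.Agent.SixB.Dct Pool.Agent.SixB.Mv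

/-- The resolutions grow at least like `G`. -/
def GroF (G : ℕ → ℕ → ℕ) (m : ℕ) (d : ℕ → ℕ) : Prop := ∀ i < m, G i (d (i + 1)) ≤ d i

theorem GroF.mono {G G' : ℕ → ℕ → ℕ} {m : ℕ} {d : ℕ → ℕ} (h : GroF G' m d)
    (hG : ∀ i e, G i e ≤ G' i e) : GroF G m d := fun i hi => (hG _ _).trans (h i hi)

theorem GroF.le {G : ℕ → ℕ → ℕ} {m m' : ℕ} {d : ℕ → ℕ} (h : GroF G m' d) (hm : m ≤ m') :
    GroF G m d := fun i hi => h i (hi.trans_le hm)

theorem groF_iff {𝔇 : Dat} {G : ℕ → ℕ → ℕ} {Bd : (ℕ → ℕ) → ℕ → ℕ → Set Cfg} {m : ℕ}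
    {d : ℕ → ℕ} : (chD 𝔇 G Bd).Gro m d ↔ GroF G m d := Iff.rfl

/-- A family of events, indexed by the resolutions, `n` and the stage. -/
abbrev EvF : Type := (ℕ → ℕ) → ℕ → ℕ → Set Cfg

/-- The static events `Z` are rare. -/
def SmZ (G : ℕ → ℕ → ℕ) (Z : EvF) : Prop :=
  ∀ (m e : ℕ) (η : ℝ), 0 < η → ∃ L : ℕ, ∀ d : ℕ → ℕ, d (m + 1) = e → L ≤ d m →
    GroF G (m + 1) d → ∀ᶠ n in atTop, pr (Sn n) (Z d n m) ≤ η

/-- The transition events `Y` are rare. -/
def SmY (G : ℕ → ℕ → ℕ) (Bd Y : EvF) : Prop :=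
  ∀ (l e : ℕ) (η : ℝ), 0 < η → ∃ L : ℕ, ∀ d : ℕ → ℕ, d (l + 1) = e → L ≤ d l →
    GroF G (l + 1) d → ∀ᶠ n in atTop, pr (Sn n) (Y d n l ∩ {ω | ∀ i ≤ l, ω ∉ Bd d n i}) ≤ η

section Sm

variable {G G' : ℕ → ℕ → ℕ} {Bd Y Y' Z Z' : EvF}

theorem SmZ.mono_G (h : SmZ G Z) (hG : ∀ i e, G i e ≤ G' i e) : SmZ G' Z := by
  intro m e η hη
  obtain ⟨L, hL⟩ := h m e η hη
  exact ⟨L, fun d h1 h2 h3 => hL d h1 h2 (h3.mono hG)⟩

theorem SmY.mono_G (h : SmY G Bd Y) (hG : ∀ i e, G i e ≤ G' i e) : SmY G' Bd Y := by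
  intro l e η hη
  obtain ⟨L, hL⟩ := h l e η hη
  exact ⟨L, fun d h1 h2 h3 => hL d h1 h2 (h3.mono hG)⟩

theorem SmZ.sub (h : SmZ G Z) (hs : ∀ d n m, Z' d n m ⊆ Z d n m) : SmZ G Z' := by
  intro m e η hη
  obtain ⟨L, hL⟩ := h m e η hη
  refine ⟨L, fun d h1 h2 h3 => ?_⟩
  filter_upwards [hL d h1 h2 h3] with n hn
  exact (pr_mono _ (hs d n m)).trans hn

theorem SmY.sub (h : SmY G Bd Y) (hs : ∀ d n l ω, ω ∈ Y' d n l → (∀ i ≤ l, ω ∉ Bd d n i) →
    ω ∈ Y d n l) : SmY G Bd Y' := by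
  intro l e η hη
  obtain ⟨L, hL⟩ := h l e η hη
  refine ⟨L, fun d h1 h2 h3 => ?_⟩
  filter_upwards [hL d h1 h2 h3] with n hn
  refine (pr_mono _ ?_).trans hn
  rintro ω ⟨h4, h5⟩
  exact ⟨hs d n l ω h4 h5, h5⟩

theorem SmZ.union (h : SmZ G Z) (h' : SmZ G Z') : SmZ G fun d n m => Z d n m ∪ Z' d n m := by
  intro m e η hη
  obtain ⟨L, hL⟩ := h m e (η / 2) (by positivity)
  obtain ⟨L', hL'⟩ := h' m e (η / 2) (by positivity)
  refine ⟨max L L', fun d h1 h2 h3 => ?_⟩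
  filter_upwards [hL d h1 ((le_max_left _ _).trans h2) h3,
    hL' d h1 ((le_max_right _ _).trans h2) h3] with n hn hn'
  exact (pr_union_le _ _ _).trans (by linarith)

theorem SmY.union (h : SmY G Bd Y) (h' : SmY G Bd Y') :
    SmY G Bd fun d n l => Y d n l ∪ Y' d n l := by
  intro l e η hη
  obtain ⟨L, hL⟩ := h l e (η / 2) (by positivity)
  obtain ⟨L', hL'⟩ := h' l e (η / 2) (by positivity)
  refine ⟨max L L', fun d h1 h2 h3 => ?_⟩
  filter_upwards [hL d h1 ((le_max_left _ _).trans h2) h3,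
    hL' d h1 ((le_max_right _ _).trans h2) h3] with n hn hn'
  rw [Set.union_inter_distrib_right]
  exact (pr_union_le _ _ _).trans (by linarith)

/-- A static event is a rare transition event. -/
theorem SmZ.toY (h : SmZ G Z) (Bd : EvF) : SmY G Bd Z := by
  intro l e η hη
  obtain ⟨L, hL⟩ := h l e η hη
  refine ⟨L, fun d h1 h2 h3 => ?_⟩
  filter_upwards [hL d h1 h2 h3] with n hn
  exact (pr_mono _ Set.inter_subset_left).trans hn

/-- A condition which holds for large `n` is a rare event. -/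
theorem smZ_of_eventually {C : (ℕ → ℕ) → ℕ → ℕ → Prop}
    (hC : ∀ m d, GroF G (m + 1) d → ∀ᶠ n in atTop, C d n m) :
    SmZ G fun d n m => {_ω | ¬ C d n m} := by
  intro m e η hη
  refine ⟨0, fun d h1 h2 h3 => ?_⟩
  filter_upwards [hC m d h3] with n hn
  have : {_ω : Cfg | ¬ C d n m} = ∅ := by
    ext ω
    simp [hn]
  rw [this, pr_false]
  exact hη.le

theorem smZ_empty : SmZ G fun _ _ _ => ∅ := by
  intro m e η hη
  refine ⟨0, fun d h1 h2 h3 => ?_⟩
  filter_upwards with n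
  rw [pr_false]
  exact hη.le

theorem smY_empty : SmY G Bd fun _ _ _ => ∅ := smZ_empty.toY Bd

/-- A finite union of rare static events. -/
theorem SmZ.biUnion {J : ℕ} {Z : ℕ → EvF} (h : ∀ j < J, SmZ G (Z j)) :
    SmZ G fun d n m => {ω | ∃ j < J, ω ∈ Z j d n m} := by
  induction J with
  | zero =>
    refine smZ_empty.sub fun d n m ω hω => ?_
    obtain ⟨j, hj, -⟩ := hω
    omega
  | succ J ih =>
    refine ((ih fun j hj => h j (by omega)).union (h J (by omega))).sub fun d n m ω hω => ?_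
    obtain ⟨j, hj, hω⟩ := hω
    rcases Nat.lt_succ_iff_lt_or_eq.1 hj with h1 | h1
    · exact Or.inl ⟨j, h1, hω⟩
    · rw [h1] at hω
      exact Or.inr hω

/-- A finite union of rare transition events. -/
theorem SmY.biUnion {J : ℕ} {Y : ℕ → EvF} (h : ∀ j < J, SmY G Bd (Y j)) :
    SmY G Bd fun d n l => {ω | ∃ j < J, ω ∈ Y j d n l} := by
  induction J with
  | zero =>
    refine smY_empty.sub fun d n m ω hω _ => ?_
    obtain ⟨j, hj, -⟩ := hω
    omega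
  | succ J ih =>
    refine ((ih fun j hj => h j (by omega)).union (h J (by omega))).sub fun d n m ω hω _ => ?_
    obtain ⟨j, hj, hω⟩ := hω
    rcases Nat.lt_succ_iff_lt_or_eq.1 hj with h1 | h1
    · exact Or.inl ⟨j, h1, hω⟩
    · rw [h1] at hω
      exact Or.inr hω

end Sm

/-- **The row `rare` from the step.** `C d n m`: conditions on the numbers which hold for large `n`. -/
theorem rowRare_of_step {𝔇 : Dat} {G₀ : ℕ → ℕ → ℕ} {Bd Y Z : EvF}
    {C : (ℕ → ℕ) → ℕ → ℕ → Prop} (hC : ∀ m d, GroF G₀ (m + 1) d → ∀ᶠ n in atTop, C d n m)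
    (hZ : SmZ G₀ Z) (hY : SmY G₀ Bd Y)
    (hstep : ∀ d n m, C d n m → ∀ ω, ω ∉ Z d n m → (∀ l < m, ω ∉ Y d n l) →
      (∀ i < m, ω ∉ Bd d n i) → ω ∉ Bd d n m) :
    ∃ G : ℕ → ℕ → ℕ, (∀ i e, G₀ i e ≤ G i e) ∧ ∀ G' : ℕ → ℕ → ℕ, (∀ i e, G i e ≤ G' i e) →
      RowRare 𝔇 G' Bd := by
  classical
  have hZ' := hZ.union (smZ_of_eventually hC)
  choose LZ hLZ using hZ'
  choose LY hLY using hY
  refine ⟨fun l e => max (max (G₀ l e) e) (max (LZ l e (epsR e) (epsR_pos e))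
    (LY l e (epsR e) (epsR_pos e))), fun i e => (le_max_left _ _).trans (le_max_left _ _), ?_⟩
  intro G' hG'
  have g0 : ∀ i e, G₀ i e ≤ G' i e := fun i e =>
    ((le_max_left _ _).trans (le_max_left _ _)).trans (hG' i e)
  have g1 : ∀ i e, e ≤ G' i e := fun i e =>
    ((le_max_right _ _).trans (le_max_left _ _)).trans (hG' i e)
  have g2 : ∀ i e, LZ i e (epsR e) (epsR_pos e) ≤ G' i e := fun i e =>
    ((le_max_left _ _).trans (le_max_right _ _)).trans (hG' i e)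
  have g3 : ∀ i e, LY i e (epsR e) (epsR_pos e) ≤ G' i e := fun i e =>
    ((le_max_right _ _).trans (le_max_right _ _)).trans (hG' i e)
  intro m ℓ η hη
  exact rare_of_parts (chD 𝔇 G' Bd) Sn (fun d n m => Z d n m ∪ {_ω | ¬ C d n m})
    (fun d n l _ => Y d n l ∪ Bd d n l)
    (fun l e η => if h : 0 < η then LZ l e η h else 0)
    (fun l e η => if h : 0 < η then LY l e η h else 0)
    (by
      intro d n m ω hω
      by_contra hno
      rw [Set.mem_union, Set.mem_union, not_or, not_or] at hno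
      obtain ⟨⟨h1, h2⟩, h3⟩ := hno
      have h4 : ∀ l < m, ω ∉ Y d n l ∧ ω ∉ Bd d n l := by
        intro l hl
        refine ⟨fun h => h3 ⟨l, hl, Or.inl h⟩, fun h => h3 ⟨l, hl, Or.inr h⟩⟩
      exact hstep d n m (not_not.1 h2) ω h1 (fun l hl => (h4 l hl).1) (fun l hl => (h4 l hl).2) hω)
    (by
      intro m e η hη d hd hL hG
      rw [dif_pos hη] at hL
      exact hLZ m e η hη d hd hL (GroF.mono hG g0))
    (by
      intro l e η hη d hd hL hG m _ _
      rw [dif_pos hη] at hL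
      filter_upwards [hLY l e η hη d hd hL (GroF.mono hG g0)] with n hn
      refine (pr_mono _ ?_).trans hn
      rintro ω ⟨h1 | h1, h2⟩
      · exact ⟨h1, h2⟩
      · exact absurd h1 (h2 l le_rfl))
    g1 (fun l e => by rw [dif_pos (epsR_pos e)]; exact g2 l e)
    (fun l e => by rw [dif_pos (epsR_pos e)]; exact g3 l e) m ℓ η hη

/-- **The row `rare` for the bad events `BdI I`**: `h0` the invariant at the stage `0`, `hI` the step of
the invariant, `hG` no gates. -/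
theorem rowRare_bdI {𝔇 : Dat} {G₀ : ℕ → ℕ → ℕ} {I : InvP} {Y Z : EvF}
    {C : (ℕ → ℕ) → ℕ → ℕ → Prop} (hC : ∀ m d, GroF G₀ (m + 1) d → ∀ᶠ n in atTop, C d n m)
    (hZ : SmZ G₀ Z) (hY : SmY G₀ (BdI I 𝔇) Y)
    (h0 : ∀ d n, C d n 0 → ∀ ω, ω ∉ Z d n 0 → I d n 0 (tst 𝔇 d n ω 0) ω)
    (hI : ∀ d n m, C d n (m + 1) → ∀ ω, (∀ i ≤ m, ω ∉ BdI I 𝔇 d n i) → (∀ l ≤ m, ω ∉ Y d n l) →
      ω ∉ Z d n (m + 1) → I d n (m + 1) (tst 𝔇 d n ω (m + 1)) ω)
    (hG : ∀ d n m, C d n m → ∀ ω, (∀ i < m, ω ∉ BdI I 𝔇 d n i) → (∀ l < m, ω ∉ Y d n l) →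
      ω ∉ Z d n m → I d n m (tst 𝔇 d n ω m) ω → ¬ GateS d n m (tst 𝔇 d n ω m) ω) :
    ∃ G : ℕ → ℕ → ℕ, (∀ i e, G₀ i e ≤ G i e) ∧ ∀ G' : ℕ → ℕ → ℕ, (∀ i e, G i e ≤ G' i e) →
      RowRare 𝔇 G' (BdI I 𝔇) := by
  refine rowRare_of_step hC hZ hY fun d n m hc ω hz hy hb => ?_
  have hi : I d n m (tst 𝔇 d n ω m) ω := by
    cases m with
    | zero => exact h0 d n hc ω hz
    | succ m =>
      exact hI d n m hc ω (fun i hi => hb i (by omega)) (fun l hl => hy l (by omega)) hz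
  exact notMem_bdI.2 ⟨hi, hG d n m hc ω hb hy hz hi⟩

end Pool.Agent.SixB.Tru
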