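import Pool.Agent.Lib.SixB.S8LawF
import Pool.Agent.Lib.SixB.S8InvC
import Pool.Agent.Lib.SixB.S8Rare

/-!
# Step 8: the rows of the law and of the stops which are not regular, from the data of the pasts

* `Dead C 𝔇 d n l`: in the move from the stage `l` the strand has no regular stop, for every choice of the
  classes and of the numbers of the invariant `RunI`;
* `PastOK`: the data `PastIn` and the meaning of the record for all good pasts;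
* `PastOK.rowEst`, `PastOK.smY_dead`: the row `RowEst`, the event `Dead` is rare.
-/

set_option autoImplicit false

namespace Pool.Agent.SixB.Tru

open Filter Finset Pool.Agent.Perc Pool.Agent.PercT Pool.Agent.PercX60 Pool.Agent.PercD
open Pool.Agent.SixB Pool.Agent.SixB.Rule Pool.Agent.SixB.Dct Pool.Agent.SixB.Mv
open Pool.Agent.SixB.Blow (subE)

/-- **The dead stops**: the move which starts in the state of the stage `l` has no regular stop. -/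
def Dead (C : ℤ) (𝔇 : Dat) (d : ℕ → ℕ) (n l : ℕ) : Set Cfg :=
  {ω | ∃ q D, (tst 𝔇 d n ω l).q = some q ∧ (𝔇.cs d (tst 𝔇 d n ω l).x).run = some D ∧
    (𝔇.cs d (tst 𝔇 d n ω l).x).ini = false ∧ ¬ D.Void (𝔇.gr d (tst 𝔇 d n ω l).x D) ∧
    ∀ κ m x i₁ j₁ t j₂ i₂,
      RunI 𝔇 d n (rad C (unt d n) d (tst 𝔇 d n ω l).x.length) (tst 𝔇 d n ω l) ω q D κ m x
        i₁ j₁ t j₂ i₂ →
      ¬ ∃ σ, D.regS (𝔇.gr d (tst 𝔇 d n ω l).x D) (unt d n) (uS (tst 𝔇 d n ω l) q ω) κ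
        (pS (tst 𝔇 d n ω l).V q ω (tst 𝔇 d n ω l).t) (cfS (tst 𝔇 d n ω l).V q ω) σ}

/-- A move which is not dead has a regular stop for one choice of the classes. -/
theorem exists_regS {C : ℤ} {𝔇 : Dat} {d : ℕ → ℕ} {n l : ℕ} {ω : Cfg} (h : ω ∉ Dead C 𝔇 d n l)
    {q : Rule.Ndl} {D : Dom} (hq : (tst 𝔇 d n ω l).q = some q)
    (hD : (𝔇.cs d (tst 𝔇 d n ω l).x).run = some D)
    (hi : (𝔇.cs d (tst 𝔇 d n ω l).x).ini = false)
    (hV : ¬ D.Void (𝔇.gr d (tst 𝔇 d n ω l).x D)) :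
    ∃ κ m x i₁ j₁ t j₂ i₂,
      RunI 𝔇 d n (rad C (unt d n) d (tst 𝔇 d n ω l).x.length) (tst 𝔇 d n ω l) ω q D κ m x
        i₁ j₁ t j₂ i₂ ∧
      ∃ σ, D.regS (𝔇.gr d (tst 𝔇 d n ω l).x D) (unt d n) (uS (tst 𝔇 d n ω l) q ω) κ
        (pS (tst 𝔇 d n ω l).V q ω (tst 𝔇 d n ω l).t) (cfS (tst 𝔇 d n ω l).V q ω) σ := by
  by_contra hno
  refine h ⟨q, D, hq, hD, hi, hV, fun κ m x i₁ j₁ t j₂ i₂ hR hσ => hno ?_⟩
  exact ⟨κ, m, x, i₁, j₁, t, j₂, i₂, hR, hσ⟩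

/-- **The data of all good pasts.** -/
def PastOK (C : ℤ) (𝔇 : Dat) (G : ℕ → ℕ → ℕ) (Bd : (ℕ → ℕ) → ℕ → ℕ → Set Cfg) : Prop :=
  ∃ c : ℤ, ∀ m ℓ : ℕ, ∀ d : ℕ → ℕ, d (m + 1) = ℓ → ℓ + 6 ≤ d m → Sc.Dec d (m + 1) →
    GroF G (m + 1) d → ∀ᶠ n in atTop, Sc.Scl c (Sc.ls d n (d m)) (Sc.ls d n (Sc.eS (d m) ℓ))
      (Sc.ls d n (Sc.eR (d m) ℓ)) (Sc.ls d n ℓ) → ∀ ω, (∀ i ≤ m, ω ∉ Bd d n i) →
      ∀ D, (𝔇.cs d (tst 𝔇 d n ω m).x).run = some D →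
        (𝔇.cs d (tst 𝔇 d n ω m).x).ini = false →
        ¬ D.Void (𝔇.gr d (tst 𝔇 d n ω m).x D) → ∃ q, (tst 𝔇 d n ω m).q = some q ∧
        HRec 𝔇 d n (tst 𝔇 d n ω m) ω q D ∧
        (∃ κ m' x i₁ j₁ t j₂ i₂,
          RunI 𝔇 d n (rad C (unt d n) d (tst 𝔇 d n ω m).x.length) (tst 𝔇 d n ω m) ω q D κ m' x
            i₁ j₁ t j₂ i₂) ∧
        ∀ κ m' x i₁ j₁ t j₂ i₂,
          RunI 𝔇 d n (rad C (unt d n) d (tst 𝔇 d n ω m).x.length) (tst 𝔇 d n ω m) ω q D κ m' x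
            i₁ j₁ t j₂ i₂ →
          PastIn 𝔇 d n (tst 𝔇 d n ω m) ω q D (uS (tst 𝔇 d n ω m) q ω) (tS (tst 𝔇 d n ω m) q ω) κ
            (Sc.ls d n (Sc.eS (d m) ℓ)) (Sc.ls d n (Sc.eR (d m) ℓ))

variable {C : ℤ} {𝔇 : Dat} {G : ℕ → ℕ → ℕ} {Bd : (ℕ → ℕ) → ℕ → ℕ → Set Cfg}

/-- **The row `RowEst`.** -/
theorem PastOK.rowEst (h : PastOK C 𝔇 G Bd) (hG : ∀ i e, e < G i e) : RowEst 𝔇 G Bd := by
  obtain ⟨C₀, α, hC₀, hα, key⟩ := past_est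
  obtain ⟨c, hc⟩ := h
  refine rowEst_of_scl hG ⟨C₀, α, c, hC₀, hα, fun m ℓ d hd hℓ hdec hgro => ?_⟩
  filter_upwards [hc m ℓ d hd hℓ hdec hgro] with n hn hscl ω hω
  have hE := Sc.ls_nonneg d n (Sc.eS (d m) ℓ)
  have hρ := Sc.ls_nonneg d n (Sc.eR (d m) ℓ)
  have h1 := (key (𝔇 := 𝔇) (d := d) (n := n) (s := tst 𝔇 d n ω m) (ω := ω) hE hρ).1
    fun D hD hi hV => by
      obtain ⟨q, hq, hrec, ⟨κ, m', x, i₁, j₁, t, j₂, i₂, hR⟩, hP⟩ := hn hscl ω hω D hD hi hV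
      exact ⟨q, hq, hrec, _, _, κ, rfl, hP κ m' x i₁ j₁ t j₂ i₂ hR⟩
  rw [tst_len, hd] at h1
  exact h1

/-- The conditional probability of a dead stop. -/
theorem PastOK.condEst (h : PastOK C 𝔇 G Bd) (hG : ∀ i e, e < G i e) (htst : RowTst 𝔇) :
    CondEst (chD 𝔇 G Bd) Sn (Dead C 𝔇) := by
  obtain ⟨C₀, α, hC₀, hα, key⟩ := past_est
  obtain ⟨c, hc⟩ := h
  intro l e
  obtain ⟨J, hJ⟩ := Sc.exists_scl c
  refine ⟨1, C₀, α, 1, e + 3 * (J + 1) + 6, hα, zero_le_one, hC₀.le, fun d hd hL hgro => ?_⟩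
  have hdec := ChnD.Gro.dec (c := chD 𝔇 G Bd) hG hgro
  have h0 : d l ≤ d 0 := hdec.anti l (by omega) 0 (by omega)
  filter_upwards [hc l e d hd (by omega) hdec hgro, eventually_ge_atTop (2 ^ d 0)] with n hn hn2 ω hω
  have hscl := hJ d (d l) e n (by omega) h0 hn2
  have hE := Sc.ls_nonneg d n (Sc.eS (d l) e)
  have hρ := Sc.ls_nonneg d n (Sc.eR (d l) e)
  refine ⟨Sc.ls d n (Sc.eS (d l) e), Sc.ls d n (Sc.eR (d l) e), by exact_mod_cast hE,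
    by exact_mod_cast Sc.ls_pos hn2 _, Sc.gap_le_real d n (by omega) h0, ?_⟩
  rw [one_mul]
  set s := tst 𝔇 d n ω l with hs
  have hpos : (0 : ℝ) ≤ C₀ * ((Sc.ls d n (Sc.eS (d l) e) : ℝ) / (Sc.ls d n (Sc.eR (d l) e) : ℝ)) ^ α := by
    have : (0 : ℝ) ≤ (Sc.ls d n (Sc.eS (d l) e) : ℝ) / (Sc.ls d n (Sc.eR (d l) e) : ℝ) :=
      div_nonneg (by exact_mod_cast hE) (by exact_mod_cast hρ)
    positivity
  by_cases hcase : ∃ D, (𝔇.cs d s.x).run = some D ∧ (𝔇.cs d s.x).ini = false ∧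
      ¬ D.Void (𝔇.gr d s.x D)
  · obtain ⟨D, hD, hi, hV⟩ := hcase
    obtain ⟨q, hq, -, ⟨κ, m', x, i₁, j₁, t, j₂, i₂, hR⟩, hP⟩ := hn hscl ω hω D hD hi hV
    have h1 := (key (𝔇 := 𝔇) (d := d) (n := n) (s := s) (ω := ω) hE hρ).2
      (hP κ m' x i₁ j₁ t j₂ i₂ hR) rfl
    refine le_trans (pr_mono _ fun ξ hξ => ?_) h1
    have hag : ∀ f ∈ expS s ω, ω f = mix (expS s ω) ω ξ f := fun f hf => (mix_of_mem hf).symm
    have est : tst 𝔇 d n (mix (expS s ω) ω ξ) l = s := htst d n l ω _ hag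
    obtain ⟨q', D', hq', hD', -, -, hall⟩ := hξ
    have hS : (chD 𝔇 G Bd).S d n l ω = expS s ω := rfl
    rw [hS, est] at hq' hD' hall
    obtain rfl : q' = q := Option.some.inj (hq'.symm.trans hq)
    obtain rfl : D' = D := Option.some.inj (hD'.symm.trans hD)
    have h2 := hall κ m' x i₁ j₁ t j₂ i₂ (hR.congr hag)
    rw [uS_congr hq hag, pS_congr hq hag le_rfl] at h2
    exact h2
  · have hempty : {ξ | PercT.mix ((chD 𝔇 G Bd).S d n l ω) ω ξ ∈ Dead C 𝔇 d n l} = ∅ := by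
      ext ξ
      rw [Set.mem_ofPred_eq]
      refine ⟨fun hξ => ?_, fun hh => absurd hh (Set.notMem_empty _)⟩
      exfalso
      have hag : ∀ f ∈ expS s ω, ω f = mix (expS s ω) ω ξ f := fun f hf => (mix_of_mem hf).symm
      have est : tst 𝔇 d n (mix (expS s ω) ω ξ) l = s := htst d n l ω _ hag
      obtain ⟨q', D', hq', hD', hi', hV', -⟩ := hξ
      have hS : (chD 𝔇 G Bd).S d n l ω = expS s ω := rfl
      rw [hS, est] at hD' hi' hV'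
      exact hcase ⟨D', hD', hi', hV'⟩
    have h0' : pr (Sn n) (∅ : Set Cfg) = 0 := by simp [ProbA.pr_eq_sum]
    rw [hempty, h0']
    exact hpos

/-- **The dead stops are rare.** -/
theorem PastOK.smY_dead (h : PastOK C 𝔇 G Bd) (hG : ∀ i e, e < G i e) (htst : RowTst 𝔇)
    (hgrow : RowGrow 𝔇) (hbad : RowBad 𝔇 Bd) : SmY G Bd (Dead C 𝔇) := by
  refine rareY_of_est (c := chD 𝔇 G Bd) (h.condEst hG htst) (fun d n m ω ω' hf => ?_)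
    fun d n m i him ω ω' hf => ?_
  · have h1 : tst 𝔇 d n ω' m = tst 𝔇 d n ω m := htst d n m ω ω' hf
    change expS (tst 𝔇 d n ω' m) ω' = expS (tst 𝔇 d n ω m) ω
    rw [h1]
    exact expS_congr hf
  · exact hbad d n i ω ω' fun f hf' => hf f (hgrow d n ω i m him hf')

end Pool.Agent.SixB.Tru
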