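import Pool.Agent.Lib.SixB.S8Run
import Pool.Agent.Lib.SixB.S8RunK
import Pool.Agent.Lib.SixB.S8Sub

/-!
# Step 8, unit 8H: the runs of the stop arc as intervals, marks under removal of cells

`rs r` is the first index (of the stop arc `N₁, …, N₂ - 1` of the inner domain) with run number at
least `r`; so the run `r` is the interval `rs r, …, rs (r + 1) - 1`. All its steps are straight. When
more cells are removed the run is an interval `x₁, …, x₂ - 1` of the stop arc of the smaller domain,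
possibly empty; the intervals of different runs are in the order of the run numbers.
-/

set_option autoImplicit false

namespace Pool.Agent.SixB.Mv

open Pool.Agent.Perc Pool.Agent.Perc6 Pool.Agent.Perc6.C2Aux Pool.Agent.Perc.Tips
open Pool.Agent.SixB.Top

variable {a b L : ℤ} {D G G' Y Y' : Set (ℤ × ℤ)} {A : UE × Bool} {m n n' p q N₁ N₂ M₁ M₂ : ℕ}

/-! ### The order of common sides -/

theorem Cyc.toPer (h : Cyc G A m) : Per G m A := ⟨h.pos, h.per, h.inj⟩

/-- **The common sides have the same order on both contours.** -/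
theorem common_mono {F G : Set (ℤ × ℤ)} (hF : F.Finite) (hc : EConn F) (he : Esc F) (hGF : G ⊆ F)
    (hcG : EConn G) (hCF : Cyc F A m) (hCG : Cyc G A n) :
    ∀ d s i j : ℕ, 0 < d → s + d < n → i < m → j < m → side F A i = side G A s →
      side F A j = side G A (s + d) → i < j := by
  classical
  intro d
  induction d using Nat.strong_induction_on with
  | _ d ih =>
  intro s i j hd hs hi hj hsi hsj
  have hBF : BD F (side G A s) := hsi ▸ bd_side hCF.bd i
  have hBG : BD G (side G A s) := bd_side hCG.bd s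
  have hex : ∃ k, 0 < k ∧ BD F (side G A (s + k)) := ⟨d, hd, hsj ▸ bd_side hCF.bd j⟩
  have hk := Nat.find_spec hex
  have hkd : Nat.find hex ≤ d := Nat.find_min' hex ⟨hd, hsj ▸ bd_side hCF.bd j⟩
  have hkm : ∀ t < Nat.find hex, ¬ (0 < t ∧ BD F (side G A (s + t))) := fun t ht =>
    Nat.find_min hex ht
  generalize Nat.find hex = k at hk hkd hkm
  have hPer : Per F m (side G A s) := by
    have := hCF.toPer.shift hCF.bd i
    rw [← hsi]
    exact this
  obtain ⟨l, hl0, -, hl, hno, -, -⟩ := next_common hF hc he hGF hcG hBF hBG hPer hk.1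
    (show BD F ((sc G)^[k] (side G A s)) from by
      have := hk.2
      rwa [side_add] at this)
    (fun t ht htk hB => hkm t htk ⟨ht, by rw [side_add]; exact hB⟩)
  have e1 : side F A (i + l) = side G A (s + k) := by
    rw [side_add, side_add, hsi]
    exact hl
  have hlt : i + l < m := by
    rcases lt_trichotomy (i + l) m with h | h | h
    · exact h
    · exfalso
      rw [h, hCF.per] at e1
      have := hCG.inj (s + k) (by omega) 0 hCG.pos e1.symm
      omega
    · exfalso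
      have h1 := hno (m - i) (by omega) (by omega)
      have h2 : (sc F)^[m - i] (side G A s) = A := by
        rw [← hsi]
        have : side F (side F A i) (m - i) = A := by
          rw [← side_add, show i + (m - i) = m by omega, hCF.per]
        exact this
      rw [h2] at h1
      exact h1 hCG.bd.1
  rcases Nat.lt_or_ge k d with hkd' | hkd'
  · have h1 := ih (d - k) (by omega) (s + k) (i + l) j (by omega) (by omega) hlt hj e1
      (by rw [show s + k + (d - k) = s + d by omega]; exact hsj)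
    omega
  · obtain rfl : k = d := by omega
    have := hCF.inj j hj (i + l) hlt (hsj.trans e1.symm)
    omega

/-- The order of common sides, comparison of indices. -/
theorem common_lt {F G : Set (ℤ × ℤ)} (hF : F.Finite) (hc : EConn F) (he : Esc F) (hGF : G ⊆ F)
    (hcG : EConn G) (hCF : Cyc F A m) (hCG : Cyc G A n) {s t i j : ℕ} (hst : s < t) (ht : t < n)
    (hi : i < m) (hj : j < m) (hsi : side F A i = side G A s) (htj : side F A j = side G A t) :
    i < j :=
  common_mono hF hc he hGF hcG hCF hCG (t - s) s i j (by omega) (by omega) hi hj hsi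
    (by rw [show s + (t - s) = t by omega]; exact htj)

/-! ### The runs as intervals -/

open Classical in
/-- The first index of the stop arc with run number at least `r`. -/
noncomputable def rs (a b L : ℤ) (G : Set (ℤ × ℤ)) (A : UE × Bool) (N₁ N₂ r : ℕ) : ℕ :=
  N₁ + ((Finset.Ico N₁ N₂).filter fun i => rn a b L G A N₁ i < r).card

theorem lt_rs_iff {r i : ℕ} (h1 : N₁ ≤ i) (h2 : i < N₂) :
    i < rs a b L G A N₁ N₂ r ↔ rn a b L G A N₁ i < r := by
  classical
  unfold rs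
  constructor
  · intro h
    by_contra hcon
    have hsub : ((Finset.Ico N₁ N₂).filter fun i => rn a b L G A N₁ i < r) ⊆ Finset.Ico N₁ i := by
      intro j hj
      obtain ⟨hj1, hj2⟩ := Finset.mem_filter.1 hj
      have hj3 := Finset.mem_Ico.1 hj1
      rw [Finset.mem_Ico]
      refine ⟨hj3.1, ?_⟩
      by_contra hij
      have := rn_mono (a := a) (b := b) (L := L) (G := G) (A := A) (N := N₁) (not_lt.1 hij)
      omega
    have := Finset.card_le_card hsub
    rw [Nat.card_Ico] at this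
    omega
  · intro h
    have hsub : Finset.Icc N₁ i ⊆ ((Finset.Ico N₁ N₂).filter fun i => rn a b L G A N₁ i < r) := by
      intro j hj
      have hj3 := Finset.mem_Icc.1 hj
      rw [Finset.mem_filter, Finset.mem_Ico]
      refine ⟨⟨hj3.1, by omega⟩, ?_⟩
      have := rn_mono (a := a) (b := b) (L := L) (G := G) (A := A) (N := N₁) hj3.2
      omega
    have := Finset.card_le_card hsub
    rw [Nat.card_Icc] at this
    omega

theorem rs_zero : rs a b L G A N₁ N₂ 0 = N₁ := by simp [rs]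

theorem le_rs {r : ℕ} : N₁ ≤ rs a b L G A N₁ N₂ r := Nat.le_add_right _ _

theorem rs_le {r : ℕ} (h : N₁ ≤ N₂) : rs a b L G A N₁ N₂ r ≤ N₂ := by
  classical
  unfold rs
  have := Finset.card_filter_le (Finset.Ico N₁ N₂) fun i => rn a b L G A N₁ i < r
  rw [Nat.card_Ico] at this
  omega

theorem rs_mono {r r' : ℕ} (h : r ≤ r') : rs a b L G A N₁ N₂ r ≤ rs a b L G A N₁ N₂ r' := by
  classical
  unfold rs
  refine Nat.add_le_add_left (Finset.card_le_card ?_) _
  intro j hj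
  rw [Finset.mem_filter] at hj ⊢
  exact ⟨hj.1, by omega⟩

/-- After the last run. -/
theorem rs_top {R : ℕ} (h : N₁ ≤ N₂) (hR : ∀ i, N₁ ≤ i → i < N₂ → rn a b L G A N₁ i < R) :
    rs a b L G A N₁ N₂ R = N₂ := by
  classical
  unfold rs
  rw [Finset.filter_true_of_mem, Nat.card_Ico]
  · omega
  · intro i hi
    have := Finset.mem_Ico.1 hi
    exact hR i this.1 this.2

/-- The number of runs of a stop arc in a box. -/
theorem rs_top_box (hL : 0 < L) (hF : G.Finite) (hc : EConn G) (he : Esc G) (hG : Cyc G A m)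
    {x₀ x₁ y₀ y₁ : ℤ} (hbox : ∀ f ∈ G, x₀ ≤ f.1 ∧ f.1 < x₁ ∧ y₀ ≤ f.2 ∧ f.2 < y₁) (h : N₁ ≤ N₂)
    (hN : N₂ ≤ m) {R : ℕ} (hR : ((x₁ - x₀) / L + 1) * ((y₁ - y₀) / L + 1) < R) :
    rs a b L G A N₁ N₂ R = N₂ := by
  refine rs_top h fun i _ h2 => ?_
  have := rn_le_box (a := a) (b := b) hL hF hc he hG hbox (N := N₁) (i := i) (by omega)
  exact_mod_cast lt_of_le_of_lt this hR

/-- **The run `r` is an interval.** -/
theorem rn_eq_iff {r i : ℕ} (h1 : N₁ ≤ i) (h2 : i < N₂) :
    rn a b L G A N₁ i = r ↔ rs a b L G A N₁ N₂ r ≤ i ∧ i < rs a b L G A N₁ N₂ (r + 1) := by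
  have k1 := lt_rs_iff (a := a) (b := b) (L := L) (G := G) (A := A) (r := r) h1 h2
  have k2 := lt_rs_iff (a := a) (b := b) (L := L) (G := G) (A := A) (r := r + 1) h1 h2
  omega

theorem run_ge {r i : ℕ} (h : rs a b L G A N₁ N₂ r ≤ i) : N₁ ≤ i := le_rs.trans h

theorem run_lt' {r i : ℕ} (hN : N₁ ≤ N₂) (h : i < rs a b L G A N₁ N₂ r) : i < N₂ :=
  lt_of_lt_of_le h (rs_le hN)

theorem rn_run {r i : ℕ} (hN : N₁ ≤ N₂) (h1 : rs a b L G A N₁ N₂ r ≤ i)
    (h2 : i < rs a b L G A N₁ N₂ (r + 1)) : rn a b L G A N₁ i = r :=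
  (rn_eq_iff (run_ge h1) (run_lt' hN h2)).2 ⟨h1, h2⟩

/-- The setting: the inner domain of `Y`, a union of pieces of cells attached to the stop arc. -/
structure RunS (a b L : ℤ) (D : Set (ℤ × ℤ)) (A : UE × Bool) (p q : ℕ) (Y : Set (ℤ × ℤ))
    (m n N₁ N₂ : ℕ) : Prop where
  hL : 0 < L
  fin : D.Finite
  esc : Esc D
  cyc : Cyc D A m
  att : Att D A p q Y
  sat : Sat D (gc a b L) Y
  tip : ahead A ∉ Y
  con : Contig D A p q Y m n N₁ N₂

theorem exists_runS (hL : 0 < L) (hF : D.Finite) (he : Esc D) (hD : Cyc D A m)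
    (hY : Att D A p q Y) (hS : Sat D (gc a b L) Y) (hpq : p ≤ q) (hq : q < m) (hA : ahead A ∉ Y) :
    ∃ n N₁ N₂, RunS a b L D A p q Y m n N₁ N₂ := by
  obtain ⟨n, N₁, N₂, hc⟩ := exists_contig hF he hD hY hpq hq hA
  exact ⟨n, N₁, N₂, hL, hF, he, hD, hY, hS, hA, hc⟩

namespace RunS

theorem tipm (h : RunS a b L D A p q Y m n N₁ N₂) : ahead A ∈ D \ Y := ⟨h.cyc.bd.1, h.tip⟩

theorem sub (h : RunS a b L D A p q Y m n N₁ N₂) : inn D A Y ⊆ D := fun _ hy =>
  (inn_sub h.tipm hy).1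

theorem finG (h : RunS a b L D A p q Y m n N₁ N₂) : (inn D A Y).Finite := h.fin.subset h.sub

theorem connG (h : RunS a b L D A p q Y m n N₁ N₂) : EConn (inn D A Y) := econn_inn h.tipm

theorem escG (h : RunS a b L D A p q Y m n N₁ N₂) : Esc (inn D A Y) :=
  esc_compT (h.fin.subset Set.sdiff_subset) (h.att.esc h.cyc.bd h.esc) h.tipm

theorem bdG (h : RunS a b L D A p q Y m n N₁ N₂) : BD (inn D A Y) A := bd_inn h.cyc.bd h.tip

/-- The sides with a face of `Y` behind them are the sides of the stop arc. -/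
theorem mem_arc (h : RunS a b L D A p q Y m n N₁ N₂) {i : ℕ} (hi : i < n)
    (hY : outF (inn D A Y) A i ∈ D) : N₁ ≤ i ∧ i < N₂ := by
  constructor
  · by_contra hcon
    have h2 := h.con.fst i (by omega)
    unfold outF at hY
    rw [h2] at hY
    exact (bd_side h.cyc.bd _).2 hY
  · by_contra hcon
    have h2 := h.con.lst i (by omega) hi
    unfold outF at hY
    rw [h2] at hY
    exact (bd_side h.cyc.bd _).2 hY

/-- **The steps in a run are straight.** -/
theorem straight (h : RunS a b L D A p q Y m n N₁ N₂) {r i : ℕ}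
    (h1 : rs a b L (inn D A Y) A N₁ N₂ r ≤ i) (h2 : i + 1 < rs a b L (inn D A Y) A N₁ N₂ (r + 1)) :
    Straight (inn D A Y) A (gc a b L) i := by
  have hN := h.con.lt.le
  have e1 := rn_run hN h1 (by omega)
  have e2 := rn_run hN (show rs a b L (inn D A Y) A N₁ N₂ r ≤ i + 1 by omega) h2
  have hlt := run_lt' hN h2
  have hge := run_ge h1
  have hv := (rn_succ_iff (N := N₁) hge).1 (e2.trans e1.symm)
  obtain ⟨k1, -, -, k4, -⟩ := run_step h.hL h.cyc.bd h.tip h.att.sub h.sat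
    (h.con.mid i hge (by omega)) (h.con.mid (i + 1) (by omega) hlt) hv
  exact ⟨k1, k4⟩

/-- The piece behind the run `r`. -/
noncomputable def Zr (a b L : ℤ) (D : Set (ℤ × ℤ)) (A : UE × Bool) (Y : Set (ℤ × ℤ))
    (N₁ N₂ r : ℕ) : Set (ℤ × ℤ) :=
  pc D (gc a b L) (outF (inn D A Y) A (rs a b L (inn D A Y) A N₁ N₂ r))

/-- **One piece is behind all sides of the run.** -/
theorem pc_run (h : RunS a b L D A p q Y m n N₁ N₂) {r i : ℕ}
    (h1 : rs a b L (inn D A Y) A N₁ N₂ r ≤ i) (h2 : i < rs a b L (inn D A Y) A N₁ N₂ (r + 1)) :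
    pc D (gc a b L) (outF (inn D A Y) A i) = Zr a b L D A Y N₁ N₂ r ∧
      outF (inn D A Y) A i ∈ Zr a b L D A Y N₁ N₂ r ∧
      gc a b L (inF (inn D A Y) A i) =
        gc a b L (inF (inn D A Y) A (rs a b L (inn D A Y) A N₁ N₂ r)) ∧
      gc a b L (outF (inn D A Y) A i) =
        gc a b L (outF (inn D A Y) A (rs a b L (inn D A Y) A N₁ N₂ r)) := by
  have hN := h.con.lt.le
  have e1 := rn_run hN h1 h2
  have e2 := rn_run hN le_rfl (show _ < rs a b L (inn D A Y) A N₁ N₂ (r + 1) by omega)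
  obtain ⟨k1, k2, -, k4, -⟩ := run_const h.hL h.cyc.bd h.tip h.att.sub h.sat h.con.mid
    le_rs h1 (run_lt' hN h2) (e2.trans e1.symm)
  refine ⟨k4.symm, ?_, k1.symm, k2.symm⟩
  unfold Zr
  rw [k4]
  exact self_mem_pc

theorem Zr_sub (h : RunS a b L D A p q Y m n N₁ N₂) {r : ℕ}
    (hr : rs a b L (inn D A Y) A N₁ N₂ r < rs a b L (inn D A Y) A N₁ N₂ (r + 1)) :
    Zr a b L D A Y N₁ N₂ r ⊆ Y := by
  have h1 := h.con.mid _ le_rs (run_lt' h.con.lt.le hr)
  exact h.sat.pc (h.att.sub h1) h1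

end RunS

/-! ### The marks of a run on the smaller domain -/

/-- The indices `x₁, …, x₂ - 1` of the contour of `G'` are the sides `i₀, …, i₁ - 1` of the contour
of `G`, or `x₁ = x₂` and none of these sides is on the contour of `G'`. -/
structure RMark (G G' : Set (ℤ × ℤ)) (A : UE × Bool) (M₁ M₂ i₀ i₁ x₁ x₂ : ℕ) : Prop where
  ge : M₁ ≤ x₁
  le : x₁ ≤ x₂
  le' : x₂ ≤ M₂
  mem : ∀ t, M₁ ≤ t → t < M₂ →
    ((x₁ ≤ t ∧ t < x₂) ↔ ∃ i, i₀ ≤ i ∧ i < i₁ ∧ side G' A t = side G A i)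
  len : x₁ < x₂ → x₂ - x₁ = i₁ - i₀ ∧ i₀ < i₁
  eq : x₁ < x₂ → ∀ j < i₁ - i₀, side G' A (x₁ + j) = side G A (i₀ + j)
  off : x₁ = x₂ → x₁ = M₁ ∧ ∀ i, i₀ ≤ i → i < i₁ → ¬ BD G' (side G A i)

namespace RMark

variable {i₀ i₁ x₁ x₂ : ℕ}

theorem vert_left (h : RMark G G' A M₁ M₂ i₀ i₁ x₁ x₂) (hx : x₁ < x₂) :
    vert G' A x₁ = vert G A i₀ := by
  have h1 := h.eq hx 0 (by have := (h.len hx).2; omega)
  unfold vert
  rw [Nat.add_zero, Nat.add_zero] at h1
  rw [h1]

theorem vert_right (h : RMark G G' A M₁ M₂ i₀ i₁ x₁ x₂) (hx : x₁ < x₂) :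
    vert G' A x₂ = vert G A i₁ := by
  obtain ⟨h0, h0'⟩ := h.len hx
  have h1 := h.eq hx (i₁ - i₀ - 1) (by omega)
  rw [show x₂ = x₁ + (i₁ - i₀ - 1) + 1 by omega, vert_succ, h1,
    show i₁ = i₀ + (i₁ - i₀ - 1) + 1 by omega, vert_succ]
  congr 3
  omega

/-- The marks are determined. -/
theorem unique {y₁ y₂ : ℕ} (h : RMark G G' A M₁ M₂ i₀ i₁ x₁ x₂)
    (h' : RMark G G' A M₁ M₂ i₀ i₁ y₁ y₂) : x₁ = y₁ ∧ x₂ = y₂ := by
  have key : ∀ t, M₁ ≤ t → t < M₂ → ((x₁ ≤ t ∧ t < x₂) ↔ (y₁ ≤ t ∧ t < y₂)) := fun t h1 h2 =>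
    (h.mem t h1 h2).trans (h'.mem t h1 h2).symm
  have g1 := h.ge
  have g2 := h.le
  have g3 := h.le'
  have g4 := h'.ge
  have g5 := h'.le
  have g6 := h'.le'
  rcases Nat.lt_or_ge x₁ x₂ with hx | hx
  · have k1 := (key x₁ (by omega) (by omega)).1 (by omega)
    have k2 := (key y₁ (by omega) (by omega)).2 (by omega)
    have k3 := (key (x₂ - 1) (by omega) (by omega)).1 (by omega)
    have k4 := (key (y₂ - 1) (by omega) (by omega)).2 (by omega)
    omega
  · have o1 := (h.off (by omega)).1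
    rcases Nat.lt_or_ge y₁ y₂ with hy | hy
    · have k2 := (key y₁ (by omega) (by omega)).2 (by omega)
      omega
    · have o2 := (h'.off (by omega)).1
      omega

end RMark

/-- **The marks of a run exist.** -/
theorem exists_rmark (h : RunS a b L D A p q Y m n N₁ N₂) (h' : RunS a b L D A p q Y' m n' M₁ M₂)
    (hYY : Y ⊆ Y') (r : ℕ) :
    ∃ x₁ x₂, RMark (inn D A Y) (inn D A Y') A M₁ M₂ (rs a b L (inn D A Y) A N₁ N₂ r)
      (rs a b L (inn D A Y) A N₁ N₂ (r + 1)) x₁ x₂ := by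
  have hN := h.con.lt.le
  have hM := h'.con.lt.le
  have hsub : inn D A Y' ⊆ inn D A Y := inn_anti hYY
  set i₀ := rs a b L (inn D A Y) A N₁ N₂ r with hi₀
  set i₁ := rs a b L (inn D A Y) A N₁ N₂ (r + 1) with hi₁
  have hi₁N : i₁ ≤ N₂ := rs_le hN
  have hi₀N : N₁ ≤ i₀ := le_rs
  have hN₂ := h.con.le
  have hM₂ := h'.con.le
  have hempty : (∀ i, i₀ ≤ i → i < i₁ → ¬ BD (inn D A Y') (side (inn D A Y) A i)) →
      ∃ x₁ x₂, RMark (inn D A Y) (inn D A Y') A M₁ M₂ i₀ i₁ x₁ x₂ := by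
    intro hoff
    refine ⟨M₁, M₁, le_rfl, le_rfl, hM, ?_, by omega, by omega, fun _ => ⟨rfl, hoff⟩⟩
    intro t ht1 ht2
    constructor
    · omega
    · rintro ⟨i, hi1, hi2, hi3⟩
      exact absurd (hi3 ▸ bd_side h'.bdG t) (hoff i hi1 hi2)
  rcases Nat.lt_or_ge i₀ i₁ with hr | hr
  · rcases run_interval (b := i₁ - 1) hYY h'.sat h'.tipm h.cyc.bd.2
      (fun i hi1 hi2 => h.straight hi1 (show i + 1 < i₁ by omega)) h'.con.cyc with hno | hyes
    · exact hempty fun i hi1 hi2 => hno i hi1 (by omega)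
    · obtain ⟨t, ht, hall⟩ := hyes
      have hout : ∀ i, i₀ ≤ i → i ≤ i₁ - 1 → outF (inn D A Y) A i ∈ Y' := fun i hi1 hi2 =>
        hYY (h.con.mid i (by omega) (by omega))
      have hmid : ∀ i, i₀ ≤ i → i ≤ i₁ - 1 → M₁ ≤ t + (i - i₀) ∧ t + (i - i₀) < M₂ :=
        fun i hi1 hi2 => run_mid h'.con h.cyc h.cyc.bd.2 h'.att.sub hout ht
          (fun j hj1 hj2 => (hall j hj1 hj2).2) (by omega) hi1 hi2
      have hm0 := hmid i₀ le_rfl (by omega)
      have hm1 := hmid (i₁ - 1) (by omega) le_rfl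
      refine ⟨t, t + (i₁ - i₀), by omega, by omega, by omega, ?_, fun _ => ⟨by omega, hr⟩, ?_,
        fun hh => by omega⟩
      · intro s hs1 hs2
        constructor
        · rintro ⟨hs3, hs4⟩
          refine ⟨i₀ + (s - t), by omega, by omega, ?_⟩
          have := (hall (i₀ + (s - t)) (by omega) (by omega)).2
          rw [show t + (i₀ + (s - t) - i₀) = s by omega] at this
          exact this
        · rintro ⟨i, hi1, hi2, hi3⟩
          have h1 := (hall i hi1 (by omega)).2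
          have h2 := hmid i hi1 (by omega)
          have h3 := h'.con.cyc.inj s (by omega) (t + (i - i₀)) (by omega) (hi3.trans h1.symm)
          omega
      · intro _ j hj
        have := (hall (i₀ + j) (by omega) (by omega)).2
        rw [show t + (i₀ + j - i₀) = t + j by omega] at this
        exact this
  · exact hempty fun i hi1 hi2 => by omega

/-- **The marks of the runs are in the order of the run numbers.** -/
theorem rmark_order (h : RunS a b L D A p q Y m n N₁ N₂) (h' : RunS a b L D A p q Y' m n' M₁ M₂)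
    (hYY : Y ⊆ Y') {r r' x₁ x₂ y₁ y₂ : ℕ} (hrr : r < r')
    (hx : RMark (inn D A Y) (inn D A Y') A M₁ M₂ (rs a b L (inn D A Y) A N₁ N₂ r)
      (rs a b L (inn D A Y) A N₁ N₂ (r + 1)) x₁ x₂)
    (hy : RMark (inn D A Y) (inn D A Y') A M₁ M₂ (rs a b L (inn D A Y) A N₁ N₂ r')
      (rs a b L (inn D A Y) A N₁ N₂ (r' + 1)) y₁ y₂) (hx0 : x₁ < x₂) (hy0 : y₁ < y₂) :
    x₂ ≤ y₁ := by
  have hN := h.con.lt.le
  have hsub : inn D A Y' ⊆ inn D A Y := inn_anti hYY
  have hN₂ := h.con.le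
  have hM₂ := h'.con.le
  have hmono := rs_mono (a := a) (b := b) (L := L) (G := inn D A Y) (A := A) (N₁ := N₁) (N₂ := N₂)
    (show r + 1 ≤ r' by omega)
  obtain ⟨l1, l2⟩ := hx.len hx0
  obtain ⟨l3, l4⟩ := hy.len hy0
  have e1 := hx.eq hx0 (x₂ - x₁ - 1) (by omega)
  have e2 := hy.eq hy0 0 (by omega)
  have u1 := hx.le'
  have u2 := hy.le'
  have v1 := rs_le (a := a) (b := b) (L := L) (G := inn D A Y) (A := A) (r := r + 1) hN
  have v2 := rs_le (a := a) (b := b) (L := L) (G := inn D A Y) (A := A) (r := r' + 1) hN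
  by_contra hcon
  push Not at hcon
  rcases Nat.lt_or_ge y₁ (x₂ - 1) with hlt | hge
  · have := common_lt h.finG h.connG h.escG hsub h'.connG h.con.cyc h'.con.cyc (s := y₁)
      (t := x₁ + (x₂ - x₁ - 1)) (by omega) (by omega)
      (i := rs a b L (inn D A Y) A N₁ N₂ r' + 0)
      (j := rs a b L (inn D A Y) A N₁ N₂ r + (x₂ - x₁ - 1)) (by omega) (by omega) e2.symm e1.symm
    omega
  · have e3 : y₁ + 0 = x₁ + (x₂ - x₁ - 1) := by omega
    rw [e3] at e2
    have := h.con.cyc.inj _ (by omega) _ (by omega) (e1.symm.trans e2)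
    omega

/-- A side of the smaller stop arc with a face of `Y` behind it belongs to a run. -/
theorem exists_run_of_out (h : RunS a b L D A p q Y m n N₁ N₂)
    (h' : RunS a b L D A p q Y' m n' M₁ M₂) (hYY : Y ⊆ Y') {t : ℕ}
    (hY : outF (inn D A Y') A t ∈ Y) :
    ∃ i, N₁ ≤ i ∧ i < N₂ ∧ side (inn D A Y') A t = side (inn D A Y) A i := by
  have hsub : inn D A Y' ⊆ inn D A Y := inn_anti hYY
  have hB : BD (inn D A Y) (side (inn D A Y') A t) :=
    ⟨hsub (bd_side h'.bdG t).1, fun hh => (inn_sub h.tipm hh).2 hY⟩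
  obtain ⟨i, hi, his⟩ := h.con.cyc.exists_index hB
  have hD : outF (inn D A Y) A i ∈ D := by
    unfold outF
    rw [his]
    exact h.att.sub hY
  obtain ⟨h1, h2⟩ := h.mem_arc hi hD
  exact ⟨i, h1, h2, his.symm⟩

/-- A side of the smaller stop arc which is a side of the larger stop arc is between the marks of its
run. -/
theorem mem_rmark {t i x₁ x₂ : ℕ} (ht1 : M₁ ≤ t)
    (ht2 : t < M₂) (hi1 : N₁ ≤ i) (hi2 : i < N₂)
    (hti : side (inn D A Y') A t = side (inn D A Y) A i)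
    (hx : RMark (inn D A Y) (inn D A Y') A M₁ M₂
      (rs a b L (inn D A Y) A N₁ N₂ (rn a b L (inn D A Y) A N₁ i))
      (rs a b L (inn D A Y) A N₁ N₂ (rn a b L (inn D A Y) A N₁ i + 1)) x₁ x₂) :
    x₁ ≤ t ∧ t < x₂ := by
  have h1 := (rn_eq_iff (a := a) (b := b) (L := L) (G := inn D A Y) (A := A) hi1 hi2).1 rfl
  exact (hx.mem t ht1 ht2).2 ⟨i, h1.1, h1.2, hti⟩

/-- The faces behind the sides between the marks are in the piece of the run. -/
theorem out_rmark (h : RunS a b L D A p q Y m n N₁ N₂) {r t x₁ x₂ : ℕ}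
    (hx : RMark (inn D A Y) (inn D A Y') A M₁ M₂ (rs a b L (inn D A Y) A N₁ N₂ r)
      (rs a b L (inn D A Y) A N₁ N₂ (r + 1)) x₁ x₂) (ht1 : x₁ ≤ t) (ht2 : t < x₂) :
    outF (inn D A Y') A t ∈ RunS.Zr a b L D A Y N₁ N₂ r := by
  obtain ⟨i, hi1, hi2, hi3⟩ := (hx.mem t (hx.ge.trans ht1) (lt_of_lt_of_le ht2 hx.le')).1 ⟨ht1, ht2⟩
  unfold outF
  rw [hi3]
  exact (h.pc_run hi1 hi2).2.1

end Pool.Agent.SixB.Mv
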