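import Pool.Agent.Lib.SixB.S8Geo
import Pool.Agent.Lib.SixB.S8RunN

/-!
# Step 8, unit 8H: attached sets of full cells, the update has no holes

`G` is the part of the domain in front of the barrier `Z`, `κ` gives the cells. `AtK κ G Z K`: the
cells with names in `K` are contained in `G` and each of them is joined to the barrier by cells of
`K`. `fam`: the family of these sets, closed under unions; `kmx`: the largest one without visited
faces. `Clsd`: every full cell next to `K` which is not in `K` is in the component of the tip of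
`D \ (Z ∪ K)`; this holds for the largest unvisited set. `esc_rem`: if `K` is closed and the entered
piece is behind a side of the component of the tip, then the removal of `V = (G \ K) ∪ Zj` makes no
holes in `P`.
-/

set_option autoImplicit false

namespace Pool.Agent.SixB.Mv

open Pool.Agent.Perc Pool.Agent.Perc6 Pool.Agent.Perc6.C2Aux Pool.Agent.Perc.Tips
open Pool.Agent.SixB.Top

variable {ι : Type*} {κ : ℤ × ℤ → ι} {P D G Y Z : Set (ℤ × ℤ)} {A : UE × Bool} {f g : ℤ × ℤ}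

/-! ### Cells of the grid are connected -/

/-- The cells are edge connected. -/
def CellC (κ : ℤ × ℤ → ι) : Prop := ∀ f g, κ f = κ g → ChI {x | κ x = κ f} f g

theorem ediv_between {L k s t u : ℤ} (hL : 0 < L) (h1 : (s + k) / L = (t + k) / L)
    (hu : s ≤ u) (hu' : u ≤ t) : (u + k) / L = (s + k) / L := by
  have h2 : (s + k) / L ≤ (u + k) / L := Int.ediv_le_ediv hL (by omega)
  have h3 : (u + k) / L ≤ (t + k) / L := Int.ediv_le_ediv hL (by omega)
  omega

theorem chI_horiz {S : Set (ℤ × ℤ)} {x y : ℤ} : ∀ n : ℕ, (∀ u, x ≤ u → u ≤ x + n → (u, y) ∈ S) →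
    ChI S (x, y) (x + n, y) := by
  intro n
  induction n with
  | zero =>
    intro _
    simpa using ChI.refl (S := S) (x, y)
  | succ n ih =>
    intro h
    refine (ih fun u h1 h2 => h u h1 (by push_cast; omega)).trans (ChI.single ?_ ?_)
    · have := adjF_right (x + n) y
      push_cast
      rw [← add_assoc]
      exact this
    · exact h _ (by push_cast; omega) (by push_cast; omega)

theorem chI_vert {S : Set (ℤ × ℤ)} {x y : ℤ} : ∀ n : ℕ, (∀ u, y ≤ u → u ≤ y + n → (x, u) ∈ S) →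
    ChI S (x, y) (x, y + n) := by
  intro n
  induction n with
  | zero =>
    intro _
    simpa using ChI.refl (S := S) (x, y)
  | succ n ih =>
    intro h
    refine (ih fun u h1 h2 => h u h1 (by push_cast; omega)).trans (ChI.single ?_ ?_)
    · have := adjF_up x (y + n)
      push_cast
      rw [← add_assoc]
      exact this
    · exact h _ (by push_cast; omega) (by push_cast; omega)

/-- The cells of the grid are edge connected. -/
theorem cellC_gc {a b L : ℤ} (hL : 0 < L) : CellC (gc a b L) := by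
  have hor : ∀ x x' y : ℤ, (x + a) / L = (x' + a) / L →
      ChI {z | gc a b L z = gc a b L (x, y)} (x, y) (x', y) := by
    have key : ∀ x x' y : ℤ, x ≤ x' → (x + a) / L = (x' + a) / L →
        ChI {z | gc a b L z = gc a b L (x, y)} (x, y) (x', y) := by
      intro x x' y hxx h
      obtain ⟨n, hn⟩ := Int.eq_ofNat_of_zero_le (sub_nonneg.2 hxx)
      obtain rfl : x' = x + n := by omega
      refine chI_horiz n fun u h1 h2 => ?_
      have := ediv_between hL h h1 h2
      simp only [gc, Set.mem_ofPred_eq, Prod.mk.injEq, and_true]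
      exact this
    intro x x' y h
    rcases le_total x x' with h1 | h1
    · exact key x x' y h1 h
    · have h2 := key x' x y h1 h.symm
      have e : gc a b L (x', y) = gc a b L (x, y) := by simp only [gc, h]
      rw [e] at h2
      exact h2.symm e
  have ver : ∀ x y y' : ℤ, (y + b) / L = (y' + b) / L →
      ChI {z | gc a b L z = gc a b L (x, y)} (x, y) (x, y') := by
    have key : ∀ x y y' : ℤ, y ≤ y' → (y + b) / L = (y' + b) / L →
        ChI {z | gc a b L z = gc a b L (x, y)} (x, y) (x, y') := by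
      intro x y y' hyy h
      obtain ⟨n, hn⟩ := Int.eq_ofNat_of_zero_le (sub_nonneg.2 hyy)
      obtain rfl : y' = y + n := by omega
      refine chI_vert n fun u h1 h2 => ?_
      have := ediv_between hL h h1 h2
      simp only [gc, Set.mem_ofPred_eq, Prod.mk.injEq, true_and]
      exact this
    intro x y y' h
    rcases le_total y y' with h1 | h1
    · exact key x y y' h1 h
    · have h2 := key x y' y h1 h.symm
      have e : gc a b L (x, y') = gc a b L (x, y) := by simp only [gc, h]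
      rw [e] at h2
      exact h2.symm e
  rintro ⟨x, y⟩ ⟨x', y'⟩ h
  have h' : (x + a) / L = (x' + a) / L ∧ (y + b) / L = (y' + b) / L := by
    simpa only [gc, Prod.mk.injEq] using h
  have e : gc a b L (x', y) = gc a b L (x, y) := by simp only [gc, h'.1]
  have h2 := ver x' y y' h'.2
  rw [e] at h2
  exact (hor x x' y h'.1).trans h2

/-! ### Attached sets of full cells -/

theorem rtg_mono {α : Type*} {r s : α → α → Prop} (h : ∀ x y, r x y → s x y) {a b : α}
    (hab : Relation.ReflTransGen r a b) : Relation.ReflTransGen s a b := by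
  induction hab with
  | refl => exact Relation.ReflTransGen.refl
  | tail _ h2 ih => exact ih.tail (h _ _ h2)

/-- The cell `c` is contained in `G`. -/
def Full (κ : ℤ × ℤ → ι) (G : Set (ℤ × ℤ)) (c : ι) : Prop := ∀ f, κ f = c → f ∈ G

/-- The cells `c` and `c'` have a common side. -/
def CAdj (κ : ℤ × ℤ → ι) (c c' : ι) : Prop := ∃ f g, κ f = c ∧ κ g = c' ∧ AdjF f g

/-- The cell `c` has a common side with the barrier. -/
def CTch (κ : ℤ × ℤ → ι) (Z : Set (ℤ × ℤ)) (c : ι) : Prop := ∃ f, ∃ z ∈ Z, κ f = c ∧ AdjF f z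

/-- `K` is a set of full cells, each of them is joined to the barrier by cells of `K`. -/
structure AtK (κ : ℤ × ℤ → ι) (G Z : Set (ℤ × ℤ)) (K : Finset ι) : Prop where
  full : ∀ c ∈ K, Full κ G c
  ch : ∀ c ∈ K, ∃ c' ∈ K, Relation.ReflTransGen (fun a b => CAdj κ a b ∧ b ∈ K) c c' ∧ CTch κ Z c'

/-- The faces of the cells with names in `K`. -/
def fcs (κ : ℤ × ℤ → ι) (G : Set (ℤ × ℤ)) (K : Finset ι) : Set (ℤ × ℤ) := {f | f ∈ G ∧ κ f ∈ K}

theorem CAdj.symm {c c' : ι} (h : CAdj κ c c') : CAdj κ c' c := by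
  obtain ⟨f, g, h1, h2, h3⟩ := h
  exact ⟨g, f, h2, h1, h3.symm⟩

variable {K K' : Finset ι}

theorem fcs_sub : fcs κ G K ⊆ G := fun _ h => h.1

theorem AtK.mem_fcs (hK : AtK κ G Z K) : f ∈ fcs κ G K ↔ κ f ∈ K :=
  ⟨fun h => h.2, fun h => ⟨hK.full _ h f rfl, h⟩⟩

/-- The set of faces of `K` does not depend on the domain. -/
theorem AtK.fcs_eq (hK : AtK κ G Z K) : fcs κ G K = {f | κ f ∈ K} :=
  Set.ext fun _ => hK.mem_fcs

theorem fcs_empty : fcs κ G ∅ = ∅ := by
  ext f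
  simp [fcs]

theorem fcs_mono (h : K ⊆ K') : fcs κ G K ⊆ fcs κ G K' := fun _ hf => ⟨hf.1, h hf.2⟩

open Classical in
theorem fcs_union : fcs κ G (K ∪ K') = fcs κ G K ∪ fcs κ G K' := by
  ext f
  simp only [fcs, Finset.mem_union, Set.mem_union, Set.mem_ofPred_eq]
  tauto

theorem atK_empty : AtK κ G Z (∅ : Finset ι) where
  full := by simp
  ch := by simp

open Classical in
theorem AtK.union (h : AtK κ G Z K) (h' : AtK κ G Z K') : AtK κ G Z (K ∪ K') where
  full := by
    intro c hc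
    rcases Finset.mem_union.1 hc with h1 | h1
    · exact h.full c h1
    · exact h'.full c h1
  ch := by
    intro c hc
    rcases Finset.mem_union.1 hc with h1 | h1
    · obtain ⟨c', h2, h3, h4⟩ := h.ch c h1
      exact ⟨c', Finset.mem_union_left _ h2,
        rtg_mono (fun x y hxy => ⟨hxy.1, Finset.mem_union_left _ hxy.2⟩) h3, h4⟩
    · obtain ⟨c', h2, h3, h4⟩ := h'.ch c h1
      exact ⟨c', Finset.mem_union_right _ h2,
        rtg_mono (fun x y hxy => ⟨hxy.1, Finset.mem_union_right _ hxy.2⟩) h3, h4⟩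

open Classical in
/-- Adding a full cell which touches the barrier or a cell of `K`. -/
theorem AtK.insert (h : AtK κ G Z K) {c : ι} (hc : Full κ G c)
    (ht : CTch κ Z c ∨ ∃ c' ∈ K, CAdj κ c c') : AtK κ G Z (insert c K) where
  full := by
    intro d hd
    rcases Finset.mem_insert.1 hd with rfl | h1
    · exact hc
    · exact h.full d h1
  ch := by
    intro d hd
    rcases Finset.mem_insert.1 hd with rfl | h1
    · rcases ht with h2 | ⟨c', h2, h3⟩
      · exact ⟨d, Finset.mem_insert_self _ _, Relation.ReflTransGen.refl, h2⟩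
      · obtain ⟨c'', h4, h5, h6⟩ := h.ch c' h2
        refine ⟨c'', Finset.mem_insert_of_mem h4, Relation.ReflTransGen.head
          ⟨h3, Finset.mem_insert_of_mem h2⟩ ?_, h6⟩
        exact rtg_mono (fun x y hxy => ⟨hxy.1, Finset.mem_insert_of_mem hxy.2⟩) h5
    · obtain ⟨c', h4, h5, h6⟩ := h.ch d h1
      exact ⟨c', Finset.mem_insert_of_mem h4,
        rtg_mono (fun x y hxy => ⟨hxy.1, Finset.mem_insert_of_mem hxy.2⟩) h5, h6⟩

/-- Chains of cells give chains of faces. -/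
theorem AtK.chain (hκ : CellC κ) (h : AtK κ G Z K) {c c' : ι} (hc : c ∈ K)
    (hch : Relation.ReflTransGen (fun a b => CAdj κ a b ∧ b ∈ K) c c') :
    ∀ f g, κ f = c → κ g = c' → ChI (fcs κ G K) f g := by
  have hcell : ∀ x y, κ x = κ y → κ x ∈ K → ChI (fcs κ G K) x y := fun x y hxy hx =>
    (hκ x y hxy).mono fun z (hz : κ z = κ x) => h.mem_fcs.2 (hz ▸ hx)
  induction hch using Relation.ReflTransGen.head_induction_on with
  | refl => exact fun f g hf hg => hcell f g (hf.trans hg.symm) (hf ▸ hc)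
  | head hstep _ ih =>
    intro f g hf hg
    obtain ⟨⟨x, y, hx, hy, hxy⟩, hm⟩ := hstep
    refine (hcell f x (hf.trans hx.symm) (hf ▸ hc)).trans
      ((ChI.single hxy (h.mem_fcs.2 (hy ▸ hm))).trans (ih hm y g hy hg))

/-- Every face of `K` is joined to the barrier. -/
theorem AtK.toZ (hκ : CellC κ) (h : AtK κ G Z K) (hf : f ∈ fcs κ G K) :
    ∃ g ∈ Z, ChI (Z ∪ fcs κ G K) f g := by
  obtain ⟨c', -, h3, f', z, hz, hf', ha⟩ := h.ch _ hf.2
  refine ⟨z, hz, ((h.chain hκ hf.2 h3 f f' rfl hf').mono Set.subset_union_right).trans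
    (ChI.single ha (Or.inl hz))⟩

theorem sat_fcs (h : AtK κ G Z K) : Sat D κ (fcs κ G K) :=
  sat_cells fun _ hf _ hg => h.mem_fcs.2 (hg ▸ hf.2)

theorem AtK.att (hκ : CellC κ) {p q : ℕ} (h : AtK κ G Z K) (hGD : G ⊆ D) (hZ : Att D A p q Z) :
    Att D A p q (Z ∪ fcs κ G K) :=
  att_union hZ (fcs_sub.trans hGD) fun _ hf => h.toZ hκ hf

/-- The face at the tip is not in `K` if its cell is not full. -/
theorem AtK.tip (h : AtK κ G Z K) (hf : ¬ Full κ G (κ f)) : f ∉ fcs κ G K := fun hh =>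
  hf (h.full _ hh.2)

theorem not_full_of (hκ : f ∉ G) (h : κ f = κ g) : ¬ Full κ G (κ g) := fun hh => hκ (hh f h)

/-- The setting for `Z ∪ K`. -/
theorem RunS.addK {a b L : ℤ} {m n N₁ N₂ p q : ℕ} {K : Finset (ℤ × ℤ)}
    (h : RunS a b L D A p q Z m n N₁ N₂) (hpq : p ≤ q) (hq : q < m)
    (hK : AtK (gc a b L) (inn D A Z) Z K) (ht : ahead A ∉ fcs (gc a b L) (inn D A Z) K) :
    ∃ n' M₁ M₂, RunS a b L D A p q (Z ∪ fcs (gc a b L) (inn D A Z) K) m n' M₁ M₂ :=
  exists_runS h.hL h.fin h.esc h.cyc (hK.att (cellC_gc h.hL) h.sub h.att)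
    (h.sat.union (sat_fcs hK)) hpq hq fun hh => hh.elim h.tip ht

/-! ### The family and its largest unvisited member -/

open Classical in
/-- The family of the attached sets with names in `S`. -/
noncomputable def fam (κ : ℤ × ℤ → ι) (G Z : Set (ℤ × ℤ)) (S : Finset ι) : Finset (Finset ι) :=
  S.powerset.filter fun K => AtK κ G Z K

variable {S : Finset ι}

theorem mem_fam : K ∈ fam κ G Z S ↔ K ⊆ S ∧ AtK κ G Z K := by
  classical
  rw [fam, Finset.mem_filter, Finset.mem_powerset]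

theorem empty_mem_fam : (∅ : Finset ι) ∈ fam κ G Z S :=
  mem_fam.2 ⟨Finset.empty_subset _, atK_empty⟩

open Classical in
theorem union_mem_fam (h : K ∈ fam κ G Z S) (h' : K' ∈ fam κ G Z S) : K ∪ K' ∈ fam κ G Z S :=
  mem_fam.2 ⟨Finset.union_subset (mem_fam.1 h).1 (mem_fam.1 h').1,
    (mem_fam.1 h).2.union (mem_fam.1 h').2⟩

theorem card_fam_le : (fam κ G Z S).card ≤ 2 ^ S.card := by
  classical
  unfold fam
  exact (Finset.card_filter_le _ _).trans (Finset.card_powerset S).le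

open Classical in
/-- The largest attached set without a face in `N`. -/
noncomputable def kmx (κ : ℤ × ℤ → ι) (G Z : Set (ℤ × ℤ)) (S : Finset ι) (N : Set (ℤ × ℤ)) :
    Finset ι :=
  ((fam κ G Z S).filter fun K => ∀ c ∈ K, ∀ f, κ f = c → f ∉ N).sup id

variable {N : Set (ℤ × ℤ)}

theorem kmx_mem : kmx κ G Z S N ∈ fam κ G Z S ∧ ∀ c ∈ kmx κ G Z S N, ∀ f, κ f = c → f ∉ N := by
  classical
  unfold kmx
  refine Finset.sup_induction (p := fun K => K ∈ fam κ G Z S ∧ ∀ c ∈ K, ∀ f, κ f = c → f ∉ N)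
    ⟨empty_mem_fam, by simp⟩ ?_ ?_
  · intro K hK K' hK'
    refine ⟨?_, ?_⟩
    · have := union_mem_fam hK.1 hK'.1
      rwa [← Finset.sup_eq_union] at this
    · intro c hc
      rw [Finset.sup_eq_union] at hc
      rcases Finset.mem_union.1 hc with h | h
      · exact hK.2 c h
      · exact hK'.2 c h
  · intro K hK
    exact Finset.mem_filter.1 hK

theorem sub_kmx (h : K ∈ fam κ G Z S) (hN : ∀ c ∈ K, ∀ f, κ f = c → f ∉ N) :
    K ⊆ kmx κ G Z S N := by
  classical
  unfold kmx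
  have := Finset.le_sup (f := id)
    (Finset.mem_filter.2 ⟨h, hN⟩ :
      K ∈ (fam κ G Z S).filter fun K => ∀ c ∈ K, ∀ f, κ f = c → f ∉ N)
  exact this

theorem kmx_atK : AtK κ G Z (kmx κ G Z S N) := (mem_fam.1 kmx_mem.1).2

/-- The largest unvisited set as a set of faces avoids `N`. -/
theorem fcs_kmx_disj (hf : f ∈ fcs κ G (kmx κ G Z S N)) : f ∉ N :=
  kmx_mem.2 _ hf.2 f rfl

/-- A full unvisited cell next to the largest unvisited set or to the barrier belongs to it. -/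
theorem mem_kmx {c : ι} (hS : c ∈ S) (hc : Full κ G c) (hN : ∀ f, κ f = c → f ∉ N)
    (ht : CTch κ Z c ∨ ∃ c' ∈ kmx κ G Z S N, CAdj κ c c') : c ∈ kmx κ G Z S N := by
  classical
  refine sub_kmx (K := insert c (kmx κ G Z S N)) (mem_fam.2 ⟨?_, kmx_atK.insert hc ht⟩) ?_
    (Finset.mem_insert_self _ _)
  · exact Finset.insert_subset hS (mem_fam.1 kmx_mem.1).1
  · intro d hd
    rcases Finset.mem_insert.1 hd with rfl | h1
    · exact hN
    · exact kmx_mem.2 d h1

/-- **Characterisation of the record set.** `K` is the largest unvisited attached set. -/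
theorem eq_kmx_iff : K = kmx κ G Z S N ↔ (K ∈ fam κ G Z S ∧ (∀ c ∈ K, ∀ f, κ f = c → f ∉ N) ∧
    ∀ c ∈ S, Full κ G c → (∀ f, κ f = c → f ∉ N) → (CTch κ Z c ∨ ∃ c' ∈ K, CAdj κ c c') → c ∈ K) := by
  classical
  constructor
  · rintro rfl
    exact ⟨kmx_mem.1, kmx_mem.2, fun c h1 h2 h3 h4 => mem_kmx h1 h2 h3 h4⟩
  · rintro ⟨h1, h2, h3⟩
    refine Finset.Subset.antisymm (sub_kmx h1 h2) fun c hc => ?_
    obtain ⟨c', hc', hch, ht⟩ := kmx_atK.ch c hc
    have key : ∀ d, d ∈ kmx κ G Z S N →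
        Relation.ReflTransGen (fun a b => CAdj κ a b ∧ b ∈ kmx κ G Z S N) d c' → d ∈ K := by
      intro d hd hdc
      induction hdc using Relation.ReflTransGen.head_induction_on with
      | refl =>
        exact h3 c' ((mem_fam.1 kmx_mem.1).1 hc') (kmx_atK.full _ hc') (kmx_mem.2 _ hc')
          (Or.inl ht)
      | head hs _ ih =>
        exact h3 _ ((mem_fam.1 kmx_mem.1).1 hd) (kmx_atK.full _ hd) (kmx_mem.2 _ hd)
          (Or.inr ⟨_, ih hs.2, hs.1⟩)
    exact key c hc hch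

/-! ### Closed sets, the removed part has no holes -/

/-- `K` is closed: a full cell next to the barrier or to `K` which is not in `K` is in the component
of the tip of `D \ (Z ∪ K)`. -/
def Clsd (κ : ℤ × ℤ → ι) (D : Set (ℤ × ℤ)) (A : UE × Bool) (Z : Set (ℤ × ℤ)) (K : Finset ι) : Prop :=
  ∀ c, Full κ (inn D A Z) c → c ∉ K → (CTch κ Z c ∨ ∃ c' ∈ K, CAdj κ c c') →
    ∀ f, κ f = c → f ∈ inn D A (Z ∪ fcs κ (inn D A Z) K)

theorem inn_union_sub : inn D A (Z ∪ Y) ⊆ inn D A Z := inn_anti Set.subset_union_left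

/-- Connected parts of the domain outside `Z ∪ K` which meet the component of the tip are in it. -/
theorem inn_chain {W : Set (ℤ × ℤ)} (hW : W ⊆ D \ Y) (hf : f ∈ inn D A Y)
    (h : ChI W f g) : g ∈ inn D A Y :=
  ChI.mem hf ((compT_chain hf (h.mono hW)))

/-- **The largest unvisited set is closed**, if the visited faces of `inn D A Z` are in the component
of the tip of `D \ (Z ∪ K)`. -/
theorem clsd_kmx (hκ : CellC κ) (hA : ahead A ∈ D \ Z)
    (hS : ∀ c, Full κ (inn D A Z) c → c ∈ S)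
    (hN : ∀ f ∈ N, f ∈ inn D A Z →
      f ∈ inn D A (Z ∪ fcs κ (inn D A Z) (kmx κ (inn D A Z) Z S N))) :
    Clsd κ D A Z (kmx κ (inn D A Z) Z S N) := by
  intro c hc hcK hct f hf
  by_cases hv : ∀ f, κ f = c → f ∉ N
  · exact absurd (mem_kmx (hS c hc) hc hv hct) hcK
  · push Not at hv
    obtain ⟨g, hg, hgN⟩ := hv
    have h1 := hN g hgN (hc g hg)
    refine inn_chain (W := {x | κ x = κ g}) ?_ h1 (hκ g f (hg.trans hf.symm))
    intro x hx
    have hx' : κ x = c := (show κ x = κ g from hx).trans hg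
    have h2 := inn_sub hA (hc x hx')
    exact ⟨h2.1, fun hh => hh.elim h2.2 fun h3 => hcK (hx' ▸ h3.2)⟩

/-- A chain from a face of the tip component to the outside. -/
theorem out_of_inn {V : Set (ℤ × ℤ)} (hA : ahead A ∈ D \ Y) (hAP : ahead (rv A) ∉ P)
    (hV : inn D A Y ⊆ V) (hf : f ∈ inn D A Y) :
    ∃ g, g ∉ P ∧ Relation.ReflTransGen (StepC (P \ V)) f g := by
  refine ⟨ahead (rv A), hAP, ?_⟩
  have h1 : ChI (inn D A Y) f (ahead A) := econn_inn hA f hf _ self_mem_inn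
  refine (h1.stepC fun x hx hh => hh.2 (hV hx)).tail ⟨(adjF_ahead A).symm, fun hh => hAP hh.1⟩

/-- A face of `inn D A Z` whose cell is not full is joined to the outside of `P` in its cell. -/
theorem out_of_partial {V : Set (ℤ × ℤ)} (hκ : CellC κ) (hA : ahead A ∈ D \ Z) (hZ : Sat D κ Z)
    (hPD : ∀ f ∈ D, ∀ h ∈ P, AdjF f h → κ h = κ f → h ∈ D) (hf : f ∈ inn D A Z)
    (hn : ¬ Full κ (inn D A Z) (κ f)) (hV : ∀ x ∈ inn D A Z, κ x = κ f → x ∈ V) :
    ∃ g, g ∉ P ∧ Relation.ReflTransGen (StepC (P \ V)) f g := by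
  unfold Full at hn
  push Not at hn
  obtain ⟨h₀, hh₀, hh₀G⟩ := hn
  have hch := hκ f h₀ hh₀.symm
  have key : ∀ x, κ x = κ f → x ∈ inn D A Z → ChI {z | κ z = κ f} x h₀ →
      ∃ g, g ∉ P ∧ Relation.ReflTransGen (StepC (P \ V)) x g := by
    intro x hxf hx hxh
    induction hxh using Relation.ReflTransGen.head_induction_on with
    | refl => exact absurd hx hh₀G
    | @head x y hs _ ih =>
      have hy : κ y = κ f := hs.2
      by_cases hyG : y ∈ inn D A Z
      · obtain ⟨g, hg, hgc⟩ := ih hy hyG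
        exact ⟨g, hg, Relation.ReflTransGen.head ⟨hs.1, fun hh => hh.2 (hV y hyG hy)⟩ hgc⟩
      · have hyP : y ∉ P := by
          intro hyP
          have hxD := (inn_sub hA hx).1
          have hyD := hPD x hxD y hyP hs.1 (hy.trans hxf.symm)
          exact hyG (inn_adj hZ hA hx hyD hs.1 (hxf.trans hy.symm))
        exact ⟨y, hyP, Relation.ReflTransGen.single ⟨hs.1, fun hh => hyP hh.1⟩⟩
  exact key f rfl hf hch

/-- **The removed part of the domain is joined to the outside.** -/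
theorem out_of_rem {V : Set (ℤ × ℤ)} (hκ : CellC κ) (hA : ahead A ∈ D \ Z) (hZ : Sat D κ Z)
    (hAP : ahead (rv A) ∉ P) (hPD : ∀ f ∈ D, ∀ h ∈ P, AdjF f h → κ h = κ f → h ∈ D)
    (ht : ahead A ∉ fcs κ (inn D A Z) K) (hcl : Clsd κ D A Z K)
    (hV : inn D A Z \ fcs κ (inn D A Z) K ⊆ V) (hf : f ∈ inn D A Z \ fcs κ (inn D A Z) K) :
    ∃ g, g ∉ P ∧ Relation.ReflTransGen (StepC (P \ V)) f g := by
  have hA' : ahead A ∈ D \ (Z ∪ fcs κ (inn D A Z) K) := ⟨hA.1, fun hh => hh.elim hA.2 ht⟩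
  have hch : ChI (inn D A Z) f (ahead A) := econn_inn hA f hf.1 _ self_mem_inn
  have hKV : inn D A (Z ∪ fcs κ (inn D A Z) K) ⊆ V := fun x hx =>
    hV ⟨inn_union_sub hx, fun hh => (inn_sub hA' hx).2 (Or.inr hh)⟩
  have key : ∀ x, x ∈ inn D A Z \ fcs κ (inn D A Z) K → ChI (inn D A Z) x (ahead A) →
      ∃ g, g ∉ P ∧ Relation.ReflTransGen (StepC (P \ V)) x g := by
    intro x hx hxA
    induction hxA using Relation.ReflTransGen.head_induction_on with
    | refl => exact out_of_inn hA' hAP hKV self_mem_inn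
    | @head x y hs _ ih =>
      by_cases hyK : y ∈ fcs κ (inn D A Z) K
      · by_cases hfull : Full κ (inn D A Z) (κ x)
        · have h1 : x ∈ inn D A (Z ∪ fcs κ (inn D A Z) K) :=
            hcl (κ x) hfull (fun hh => hx.2 ⟨hx.1, hh⟩)
              (Or.inr ⟨κ y, hyK.2, x, y, rfl, rfl, hs.1⟩) x rfl
          exact out_of_inn hA' hAP hKV h1
        · refine out_of_partial hκ hA hZ hPD hx.1 hfull fun z hz hzx => hV ⟨hz, fun hh => ?_⟩
          exact hx.2 ⟨hx.1, hzx ▸ hh.2⟩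
      · obtain ⟨g, hg, hgc⟩ := ih ⟨hs.2, hyK⟩
        exact ⟨g, hg, Relation.ReflTransGen.head
          ⟨hs.1, fun hh => hh.2 (hV ⟨hs.2, hyK⟩)⟩ hgc⟩
  exact key f hf hch

/-- **The update makes no holes.** `Zj`: a connected set of faces, one of them behind a side of the
component of the tip of `D \ (Z ∪ K)`. -/
theorem esc_rem {Zj : Set (ℤ × ℤ)} (hP : Esc P) (hκ : CellC κ) (hA : ahead A ∈ D \ Z)
    (hZ : Sat D κ Z) (hAP : ahead (rv A) ∉ P)
    (hPD : ∀ f ∈ D, ∀ h ∈ P, AdjF f h → κ h = κ f → h ∈ D)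
    (ht : ahead A ∉ fcs κ (inn D A Z) K) (hcl : Clsd κ D A Z K) (hZj : EConn Zj)
    (hon : ∃ x ∈ inn D A (Z ∪ fcs κ (inn D A Z) K), ∃ z ∈ Zj, AdjF x z) :
    Esc (P \ ((inn D A Z \ fcs κ (inn D A Z) K) ∪ Zj)) := by
  have hA' : ahead A ∈ D \ (Z ∪ fcs κ (inn D A Z) K) := ⟨hA.1, fun hh => hh.elim hA.2 ht⟩
  refine hP.diff fun f hf => ?_
  rcases hf with hf | hf
  · exact out_of_rem hκ hA hZ hAP hPD ht hcl Set.subset_union_left hf
  · obtain ⟨x, hx, z, hz, hxz⟩ := hon
    have h1 : ChI Zj f z := hZj f hf z hz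
    obtain ⟨g, hg, hgc⟩ := out_of_inn (V := (inn D A Z \ fcs κ (inn D A Z) K) ∪ Zj) hA' hAP
      (fun y hy => Or.inl ⟨inn_union_sub hy, fun hh => (inn_sub hA' hy).2 (Or.inr hh)⟩) hx
    refine ⟨g, hg, (h1.stepC fun y hy hh => hh.2 (Or.inr hy)).trans
      (Relation.ReflTransGen.head ⟨hxz.symm, fun hh => hh.2 ?_⟩ hgc)⟩
    exact Or.inl ⟨inn_union_sub hx, fun h2 => (inn_sub hA' hx).2 (Or.inr h2)⟩

/-- **The removed part is joined to the outside**, for the largest unvisited set: each visited face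
of `inn D A Z` is joined to the outside. -/
theorem out_of_kmx {V : Set (ℤ × ℤ)} (hκ : CellC κ) (hA : ahead A ∈ D \ Z) (hZ : Sat D κ Z)
    (hAP : ahead (rv A) ∉ P) (hPD : ∀ f ∈ D, ∀ h ∈ P, AdjF f h → κ h = κ f → h ∈ D)
    (hS : ∀ c, Full κ (inn D A Z) c → c ∈ S)
    (hV : inn D A Z \ fcs κ (inn D A Z) (kmx κ (inn D A Z) Z S N) ⊆ V)
    (hN : ∀ f ∈ N, f ∈ inn D A Z → ∃ g, g ∉ P ∧ Relation.ReflTransGen (StepC (P \ V)) f g)
    (hf : f ∈ inn D A Z \ fcs κ (inn D A Z) (kmx κ (inn D A Z) Z S N)) :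
    ∃ g, g ∉ P ∧ Relation.ReflTransGen (StepC (P \ V)) f g := by
  have hch : ChI (inn D A Z) f (ahead A) := econn_inn hA f hf.1 _ self_mem_inn
  have key : ∀ x, x ∈ inn D A Z \ fcs κ (inn D A Z) (kmx κ (inn D A Z) Z S N) →
      ChI (inn D A Z) x (ahead A) →
      ∃ g, g ∉ P ∧ Relation.ReflTransGen (StepC (P \ V)) x g := by
    intro x hx hxA
    induction hxA using Relation.ReflTransGen.head_induction_on with
    | refl =>
      exact ⟨_, hAP, Relation.ReflTransGen.single ⟨(adjF_ahead A).symm, fun hh => hAP hh.1⟩⟩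
    | @head x y hs _ ih =>
      have hcell : ∀ z, κ z = κ x → z ∈ inn D A Z → z ∈ V := fun z hz hzG =>
        hV ⟨hzG, fun hh => hx.2 ⟨hx.1, hz ▸ hh.2⟩⟩
      by_cases hyK : y ∈ fcs κ (inn D A Z) (kmx κ (inn D A Z) Z S N)
      · by_cases hfull : Full κ (inn D A Z) (κ x)
        · by_cases hv : ∀ f, κ f = κ x → f ∉ N
          · exact absurd ⟨hx.1, mem_kmx (hS _ hfull) hfull hv
              (Or.inr ⟨κ y, hyK.2, x, y, rfl, rfl, hs.1⟩)⟩ hx.2
          · push Not at hv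
            obtain ⟨f₁, hf₁, hf₁N⟩ := hv
            obtain ⟨g, hg, hgc⟩ := hN f₁ hf₁N (hfull f₁ hf₁)
            refine ⟨g, hg, Relation.ReflTransGen.trans ?_ hgc⟩
            exact (hκ x f₁ hf₁.symm).stepC fun z hz hh => hh.2 (hcell z hz (hfull z hz))
        · exact out_of_partial hκ hA hZ hPD hx.1 hfull fun z hz hzx => hcell z hzx hz
      · obtain ⟨g, hg, hgc⟩ := ih ⟨hs.2, hyK⟩
        exact ⟨g, hg, Relation.ReflTransGen.head
          ⟨hs.1, fun hh => hh.2 (hV ⟨hs.2, hyK⟩)⟩ hgc⟩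
  exact key f hf hch

/-- The visited faces are joined to the outside by visited faces and faces outside `P`. -/
theorem out_of_vis {V : Set (ℤ × ℤ)} (hNP : ∀ f ∈ N, f ∈ P → f ∈ inn D A Z)
    (hV : inn D A Z \ fcs κ (inn D A Z) (kmx κ (inn D A Z) Z S N) ⊆ V)
    (hN : ∀ f ∈ N, f ∈ inn D A Z → ∃ g, g ∉ P ∧ ChI (N ∪ Pᶜ) f g) :
    ∀ f ∈ N, f ∈ inn D A Z → ∃ g, g ∉ P ∧ Relation.ReflTransGen (StepC (P \ V)) f g := by
  intro f hf hfG
  obtain ⟨g, hg, hc⟩ := hN f hf hfG
  refine ⟨g, hg, hc.stepC fun x hx hh => ?_⟩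
  rcases hx with hx | hx
  · exact hh.2 (hV ⟨hNP x hx hh.1, fun h2 => fcs_kmx_disj h2 hx⟩)
  · exact hx hh.1

/-- A chain of visited faces to a neighbour of the outside. -/
theorem vis_chain (hN : ∀ f ∈ N, ∃ f₀ ∈ N, ChI N f f₀ ∧ ∃ g, g ∉ P ∧ AdjF f₀ g) :
    ∀ f ∈ N, f ∈ inn D A Z → ∃ g, g ∉ P ∧ ChI (N ∪ Pᶜ) f g := by
  intro f hf _
  obtain ⟨f₀, _, hc, g, hg, ha⟩ := hN f hf
  exact ⟨g, hg, (hc.mono Set.subset_union_left).trans (ChI.single ha (Or.inr hg))⟩

/-- **The true update makes no holes.** `K` = the largest unvisited attached set; the visited faces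
which are in `P` are in `inn D A Z`, each of them is joined by visited faces and faces outside `P` to
the outside of `P`; the entered piece `Zj` is next to a visited face. -/
theorem esc_kmx {Zj : Set (ℤ × ℤ)} (hP : Esc P) (hκ : CellC κ) (hA : ahead A ∈ D \ Z)
    (hZ : Sat D κ Z) (hAP : ahead (rv A) ∉ P)
    (hPD : ∀ f ∈ D, ∀ h ∈ P, AdjF f h → κ h = κ f → h ∈ D)
    (hS : ∀ c, Full κ (inn D A Z) c → c ∈ S) (hNP : ∀ f ∈ N, f ∈ P → f ∈ inn D A Z)
    (hN : ∀ f ∈ N, f ∈ inn D A Z → ∃ g, g ∉ P ∧ ChI (N ∪ Pᶜ) f g) (hZj : EConn Zj)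
    (hon : ∃ x ∈ N, x ∈ inn D A Z ∧ ∃ z ∈ Zj, AdjF x z) :
    Esc (P \ ((inn D A Z \ fcs κ (inn D A Z) (kmx κ (inn D A Z) Z S N)) ∪ Zj)) := by
  have hvis := out_of_vis (V := (inn D A Z \ fcs κ (inn D A Z) (kmx κ (inn D A Z) Z S N)) ∪ Zj)
    hNP Set.subset_union_left hN
  refine hP.diff fun f hf => ?_
  rcases hf with hf | hf
  · exact out_of_kmx hκ hA hZ hAP hPD hS Set.subset_union_left hvis hf
  · obtain ⟨x, hxN, hxG, z, hz, hxz⟩ := hon
    obtain ⟨g, hg, hgc⟩ := hvis x hxN hxG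
    refine ⟨g, hg, ((show ChI Zj f z from hZj f hf z hz).stepC fun y hy hh => hh.2 (Or.inr hy)).trans
      (Relation.ReflTransGen.head ⟨hxz.symm, fun hh => hh.2 ?_⟩ hgc)⟩
    exact Or.inl ⟨hxG, fun h2 => fcs_kmx_disj h2 hxN⟩

/-- The void move: the removed piece contains the face at the tip side. -/
theorem esc_void {V : Set (ℤ × ℤ)} (hP : Esc P) (hV : EConn V) (hA : ahead A ∈ V)
    (hAP : ahead (rv A) ∉ P) : Esc (P \ V) := by
  refine hP.diff fun f hf => ⟨ahead (rv A), hAP, ?_⟩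
  exact ((show ChI V f (ahead A) from hV f hf _ hA).stepC fun x hx hh => hh.2 hx).tail
    ⟨(adjF_ahead A).symm, fun hh => hAP hh.1⟩

/-- **The new domain** is finite, edge connected and without holes. -/
theorem disc_next {V : Set (ℤ × ℤ)} (hfin : P.Finite) (hE : Esc (P \ V)) (hf : f ∈ P \ V) :
    (compT (P \ V) f).Finite ∧ EConn (compT (P \ V) f) ∧ Esc (compT (P \ V) f) :=
  ⟨(hfin.subset Set.sdiff_subset).subset (compT_sub hf), econn_compT hf,
    esc_compT (hfin.subset Set.sdiff_subset) hE hf⟩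

/-- **The update makes no holes**, in the words of the runs: `K` is closed and the run `r` is on the
contour of the component of the tip of `D \ (Z ∪ K)`. -/
theorem esc_run {a b L : ℤ} {m n n' N₁ N₂ M₁ M₂ p q r x₁ x₂ : ℕ} {K : Finset (ℤ × ℤ)}
    (h : RunS a b L D A p q Z m n N₁ N₂)
    (h' : RunS a b L D A p q (Z ∪ fcs (gc a b L) (inn D A Z) K) m n' M₁ M₂) (hP : Esc P)
    (hAP : ahead (rv A) ∉ P)
    (hPD : ∀ f ∈ D, ∀ h ∈ P, AdjF f h → gc a b L h = gc a b L f → h ∈ D)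
    (hcl : Clsd (gc a b L) D A Z K)
    (hx : RMark (inn D A Z) (inn D A (Z ∪ fcs (gc a b L) (inn D A Z) K)) A M₁ M₂
      (rs a b L (inn D A Z) A N₁ N₂ r) (rs a b L (inn D A Z) A N₁ N₂ (r + 1)) x₁ x₂)
    (hx0 : x₁ < x₂) :
    Esc (P \ ((inn D A Z \ fcs (gc a b L) (inn D A Z) K) ∪ RunS.Zr a b L D A Z N₁ N₂ r)) := by
  have hr := (hx.len hx0).2
  have hZ : outF (inn D A Z) A (rs a b L (inn D A Z) A N₁ N₂ r) ∈ D :=
    h.att.sub (h.con.mid _ le_rs (run_lt' h.con.lt.le hr))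
  refine esc_rem hP (cellC_gc h.hL) h.tipm h.sat hAP hPD (fun hh => h'.tip (Or.inr hh)) hcl
    (econn_pc hZ) ⟨inF _ A x₁, (bd_side h'.bdG x₁).1, outF _ A x₁, out_rmark h hx le_rfl hx0, ?_⟩
  exact (adjF_ahead (side _ A x₁)).symm

/-- The hypothesis `hPD` for the domain of a move in a block. -/
theorem domD_cell {W : Set (ℤ × ℤ)} (hA : ahead A ∈ P ∩ W) (hW : ∀ f ∈ W, ∀ g, κ g = κ f → g ∈ W) :
    ∀ f ∈ domD P W A, ∀ h ∈ P, AdjF f h → κ h = κ f → h ∈ domD P W A := fun _ hf h hh ha hk =>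
  compT_step hf ha ⟨hh, hW _ (domD_sub hA hf).2 h hk⟩

end Pool.Agent.SixB.Mv
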