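import Pool.Agent.Lib.SixB.S8BlowT
import Pool.Agent.Lib.SixB.S8Fam

/-!
# Step 8: magnification of the runs, of the marks and of the attached sets

The grid `(a, b, L)` of the coarse lattice becomes `(u a, u b, u L)`; the names of the cells stay the
same. Run numbers, run starts, marks of runs, the setting `RunS`, attached sets of full cells, the
largest unvisited set, the block and the domain of a move.
-/

set_option autoImplicit false

namespace Pool.Agent.SixB.Blow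

open Pool.Agent.Perc Pool.Agent.Perc6 Pool.Agent.Perc6.C2Aux Pool.Agent.Perc.Tips
open Pool.Agent.SixB.Top Pool.Agent.SixB.Mv

variable {a b L : ℤ} {u : ℕ} {D G G' P W Y Z : Set (ℤ × ℤ)} {A : UE × Bool}
  {p q m n N N₁ N₂ M₁ M₂ : ℕ} {f g : ℤ × ℤ}

/-! ### Cells and grid vertices -/

/-- The names of the cells of the magnified grid. -/
theorem gc_cl (hu : 0 < u) (f : ℤ × ℤ) : gc (u * a) (u * b) (u * L) f = gc a b L (cl u f) := by
  have hu' : (0 : ℤ) < u := by omega
  have key : ∀ x t : ℤ, (x + u * t) / (u * L) = (x / u + t) / L := fun x t => by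
    rw [← Int.ediv_ediv_of_nonneg hu'.le, Int.add_mul_ediv_left _ _ hu'.ne']
  simp only [gc, cl, key]

theorem gc_cl' (hu : 0 < u) :
    gc (u * a) (u * b) (u * L) = fun x => gc a b L (cl u x) := funext (gc_cl hu)

/-- The name of the cell of a magnified vertex. -/
theorem gc_mul (hu : 0 < u) (v : ℤ × ℤ) :
    gc (u * a) (u * b) (u * L) (u * v.1, u * v.2) = gc a b L v := by
  have hu' : (u : ℤ) ≠ 0 := by omega
  rw [gc_cl hu]
  simp only [cl, Int.mul_ediv_cancel_left _ hu']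

/-- The magnified grid vertices. -/
theorem gridV_mul (hu : 0 < u) (v : ℤ × ℤ) :
    ((u * v.1, u * v.2) : ℤ × ℤ) ∈ gridV (u * a) (u * b) (u * L) ↔ v ∈ gridV a b L := by
  have hu' : (u : ℤ) ≠ 0 := by omega
  have key : ∀ x t : ℤ, (u * L ∣ u * x + u * t) ↔ L ∣ x + t := fun x t => by
    rw [← mul_add, mul_dvd_mul_iff_left hu']
  simp only [gridV, Set.mem_ofPred_eq, key]

/-- The magnified grid vertices have coordinates divisible by `u`. -/
theorem dvd_of_gridV {v : ℤ × ℤ} (h : v ∈ gridV (u * a) (u * b) (u * L)) :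
    (u : ℤ) ∣ v.1 ∧ (u : ℤ) ∣ v.2 := by
  have key : ∀ x t : ℤ, (u * L ∣ x + u * t) → (u : ℤ) ∣ x := fun x t h => by
    have h1 : (u : ℤ) ∣ x + u * t := (Dvd.intro _ rfl).trans h
    have h2 := dvd_sub h1 (Dvd.intro t rfl : (u : ℤ) ∣ u * t)
    rwa [add_sub_cancel_right] at h2
  exact ⟨key _ _ h.1, key _ _ h.2⟩

theorem end_diff (A : UE × Bool) :
    ((rg A).1 - (lf A).1 = 0 ∧ |(rg A).2 - (lf A).2| = 1) ∨
      ((rg A).2 - (lf A).2 = 0 ∧ |(rg A).1 - (lf A).1| = 1) := by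
  obtain ⟨⟨x, y, _ | _⟩, _ | _⟩ := A <;> simp [lf, rg]

/-- **The grid vertices on the magnified contour.** -/
theorem vert_gridV (hu : 0 < u) (hG : BD G A) (j : ℕ) :
    vert (blow u G) (subE u A 0) j ∈ gridV (u * a) (u * b) (u * L) ↔
      u ∣ j ∧ vert G A (j / u) ∈ gridV a b L := by
  have hv := lf_iter hu hG j
  change vert (blow u G) (subE u A 0) j = _ at hv
  have hsd : ∀ i, (sc G)^[i] A = side G A i := fun _ => rfl
  rw [hsd] at hv
  constructor
  · intro h
    have hd := dvd_of_gridV h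
    rw [hv] at hd
    have hr : u ∣ j := by
      have hdd : ∀ x e : ℤ, (u : ℤ) ∣ u * x + ((j % u : ℕ) : ℤ) * e → |e| = 1 → u ∣ j := by
        intro x e h1 he
        have h2 : (u : ℤ) ∣ ((j % u : ℕ) : ℤ) * e := (dvd_add_right (Dvd.intro _ rfl)).1 h1
        have h3 : (u : ℤ) ∣ ((j % u : ℕ) : ℤ) := by
          rcases abs_eq (show (0 : ℤ) ≤ 1 by omega) |>.1 he with h4 | h4
          · rwa [h4, mul_one] at h2
          · rw [h4, mul_neg, mul_one, dvd_neg] at h2
            exact h2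
        have h4 : u ∣ j % u := by exact_mod_cast h3
        exact (Nat.dvd_mod_iff dvd_rfl).1 h4
      rcases end_diff (side G A (j / u)) with ⟨-, h2⟩ | ⟨-, h2⟩
      · exact hdd _ _ hd.2 h2
      · exact hdd _ _ hd.1 h2
    refine ⟨hr, ?_⟩
    obtain ⟨k, rfl⟩ := hr
    rw [Nat.mul_div_cancel_left _ hu]
    have h5 := lf_iter_mul hu hG k
    change vert (blow u G) (subE u A 0) (u * k) = _ at h5
    rw [h5] at h
    exact (gridV_mul hu _).1 h
  · rintro ⟨⟨k, rfl⟩, h⟩
    rw [Nat.mul_div_cancel_left _ hu] at h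
    have h5 := lf_iter_mul hu hG k
    change vert (blow u G) (subE u A 0) (u * k) = _ at h5
    rw [h5]
    exact (gridV_mul hu _).2 h

/-! ### Run numbers -/

/-- **The run numbers of the magnified contour.** -/
theorem rn_blowR (hu : 0 < u) (hG : BD G A) (j : ℕ) :
    rn (u * a) (u * b) (u * L) (blow u G) (subE u A 0) (u * N) j = rn a b L G A N (j / u) := by
  classical
  unfold rn
  symm
  refine Finset.card_nbij (fun k => u * k) ?_ ?_ ?_
  · intro k hk
    obtain ⟨h1, h2⟩ := Finset.mem_filter.1 hk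
    have h3 := Finset.mem_Ioc.1 h1
    have h4 : u * k ≤ j := (Nat.mul_le_mul_left u h3.2).trans (Nat.mul_div_le j u)
    refine Finset.mem_filter.2 ⟨Finset.mem_Ioc.2 ⟨Nat.mul_lt_mul_of_pos_left h3.1 hu, h4⟩, ?_⟩
    rw [vert_gridV hu hG]
    exact ⟨Dvd.intro _ rfl, by rw [Nat.mul_div_cancel_left _ hu]; exact h2⟩
  · intro k _ l _ h
    exact Nat.eq_of_mul_eq_mul_left hu h
  · intro j' hj'
    obtain ⟨h1, h2⟩ := Finset.mem_filter.1 (Finset.mem_coe.1 hj')
    have h3 := Finset.mem_Ioc.1 h1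
    rw [vert_gridV hu hG] at h2
    obtain ⟨⟨k, rfl⟩, h4⟩ := h2
    rw [Nat.mul_div_cancel_left _ hu] at h4
    refine ⟨k, Finset.mem_coe.2 (Finset.mem_filter.2 ⟨Finset.mem_Ioc.2 ⟨?_, ?_⟩, h4⟩), rfl⟩
    · exact lt_of_mul_lt_mul_left h3.1 (Nat.zero_le _)
    · rw [Nat.le_div_iff_mul_le hu]
      linarith [h3.2, mul_comm k u]

/-- **The run starts of the magnified contour.** -/
theorem rs_blowR (hu : 0 < u) (hG : BD G A) (r : ℕ) :
    rs (u * a) (u * b) (u * L) (blow u G) (subE u A 0) (u * N₁) (u * N₂) r =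
      u * rs a b L G A N₁ N₂ r := by
  rcases le_total N₁ N₂ with hN | hN
  · have hN' : u * N₁ ≤ u * N₂ := Nat.mul_le_mul_left u hN
    have k1 := le_rs (a := u * a) (b := u * b) (L := u * L) (G := blow u G) (A := subE u A 0)
      (N₁ := u * N₁) (N₂ := u * N₂) (r := r)
    have k2 := rs_le (a := u * a) (b := u * b) (L := u * L) (G := blow u G) (A := subE u A 0)
      (r := r) hN'
    have k3 := le_rs (a := a) (b := b) (L := L) (G := G) (A := A) (N₁ := N₁) (N₂ := N₂) (r := r)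
    have k4 := rs_le (a := a) (b := b) (L := L) (G := G) (A := A) (r := r) hN
    have k5 : u * N₁ ≤ u * rs a b L G A N₁ N₂ r := Nat.mul_le_mul_left u k3
    have k6 : u * rs a b L G A N₁ N₂ r ≤ u * N₂ := Nat.mul_le_mul_left u k4
    have key : ∀ i, u * N₁ ≤ i → i < u * N₂ →
        (i < rs (u * a) (u * b) (u * L) (blow u G) (subE u A 0) (u * N₁) (u * N₂) r ↔
          i < u * rs a b L G A N₁ N₂ r) := by
      intro i h1 h2
      rw [lt_rs_iff h1 h2, rn_blowR hu hG, ← lt_rs_iff (N₂ := N₂), Nat.div_lt_iff_lt_mul hu,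
        mul_comm u]
      · rw [Nat.le_div_iff_mul_le hu, mul_comm]
        exact h1
      · rw [Nat.div_lt_iff_lt_mul hu, mul_comm]
        exact h2
    by_contra hne
    rcases Nat.lt_or_gt_of_ne hne with h | h
    · have := (key _ k1 (by omega)).2 h
      omega
    · have := (key _ k5 (by omega)).1 h
      omega
  · unfold rs
    have h1 : Finset.Ico N₁ N₂ = ∅ := Finset.Ico_eq_empty_of_le hN
    have h2 : Finset.Ico (u * N₁) (u * N₂) = ∅ :=
      Finset.Ico_eq_empty_of_le (Nat.mul_le_mul_left u hN)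
    rw [h1, h2]
    simp

/-! ### Marks -/

/-- **The marks of a run on the magnified contours.** -/
theorem rmark_blow (hu : 0 < u) (hG : BD G A) (hG' : BD G' A) {i₀ i₁ x₁ x₂ : ℕ}
    (h : RMark G G' A M₁ M₂ i₀ i₁ x₁ x₂) :
    RMark (blow u G) (blow u G') (subE u A 0) (u * M₁) (u * M₂) (u * i₀) (u * i₁) (u * x₁)
      (u * x₂) := by
  have hu' : (0 : ℤ) < u := by omega
  have hmod : ∀ j : ℕ, (0 : ℤ) ≤ ((j % u : ℕ) : ℤ) ∧ ((j % u : ℕ) : ℤ) < u := fun j =>
    ⟨by omega, by exact_mod_cast Nat.mod_lt j hu⟩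
  have hdiv : ∀ x y j : ℕ, (u * x ≤ j ∧ j < u * y) ↔ (x ≤ j / u ∧ j / u < y) := fun x y j => by
    rw [Nat.le_div_iff_mul_le hu, Nat.div_lt_iff_lt_mul hu, mul_comm x, mul_comm y]
  have hlt : ∀ {x y : ℕ}, u * x < u * y → x < y := fun {x y} h =>
    lt_of_mul_lt_mul_left h (Nat.zero_le _)
  have hadd : ∀ x j : ℕ, (u * x + j) / u = x + j / u ∧ (u * x + j) % u = j % u := fun x j =>
    ⟨by rw [Nat.mul_add_div hu], by rw [Nat.mul_add_mod]⟩
  refine ⟨Nat.mul_le_mul_left u h.ge, Nat.mul_le_mul_left u h.le, Nat.mul_le_mul_left u h.le',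
    ?_, ?_, ?_, ?_⟩
  · intro t h1 h2
    obtain ⟨h3, h4⟩ := (hdiv M₁ M₂ t).1 ⟨h1, h2⟩
    rw [hdiv, h.mem _ h3 h4]
    constructor
    · rintro ⟨i, hi1, hi2, hi3⟩
      have h5 := (hdiv i₀ i₁ (u * i + t % u)).2 (by
        rw [(hadd i (t % u)).1, Nat.div_eq_of_lt (Nat.mod_lt _ hu), add_zero]
        exact ⟨hi1, hi2⟩)
      refine ⟨u * i + t % u, h5.1, h5.2, ?_⟩
      rw [side_blow hu hG', side_blow hu hG, (hadd i (t % u)).1, (hadd i (t % u)).2,
        Nat.div_eq_of_lt (Nat.mod_lt _ hu), add_zero, Nat.mod_mod, hi3]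
    · rintro ⟨j, hj1, hj2, hj3⟩
      obtain ⟨h5, h6⟩ := (hdiv i₀ i₁ j).1 ⟨hj1, hj2⟩
      rw [side_blow hu hG', side_blow hu hG] at hj3
      exact ⟨j / u, h5, h6, (subE_inj hu' (hmod t).1 (hmod t).2 (hmod j).1 (hmod j).2 hj3).1⟩
  · intro hx
    obtain ⟨h1, h2⟩ := h.len (hlt hx)
    refine ⟨?_, Nat.mul_lt_mul_of_pos_left h2 hu⟩
    rw [← Nat.mul_sub, ← Nat.mul_sub, h1]
  · intro hx j hj
    have h1 := h.eq (hlt hx) (j / u) (by
      rw [Nat.div_lt_iff_lt_mul hu, mul_comm, Nat.mul_sub]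
      exact hj)
    rw [side_blow hu hG', side_blow hu hG, (hadd x₁ j).1, (hadd x₁ j).2, (hadd i₀ j).1,
      (hadd i₀ j).2, h1]
  · intro hx
    obtain ⟨h1, h2⟩ := h.off (Nat.eq_of_mul_eq_mul_left hu hx)
    refine ⟨by rw [h1], fun i hi1 hi2 hb => ?_⟩
    obtain ⟨h3, h4⟩ := (hdiv i₀ i₁ i).1 ⟨hi1, hi2⟩
    rw [side_blow hu hG, bd_subE_iff hu' (hmod i).1 (hmod i).2] at hb
    exact h2 _ h3 h4 hb

/-! ### The setting of the runs -/

theorem sat_gc_blow (hu : 0 < u) (h : Sat D (gc a b L) Y) :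
    Sat (blow u D) (gc (u * a) (u * b) (u * L)) (blow u Y) := by
  rw [gc_cl' hu]
  exact sat_blow hu h

/-- **The setting of the runs for the magnified domain.** -/
theorem runS_blowR (hu : 0 < u) (hc : EConn D) (h : RunS a b L D A p q Y m n N₁ N₂) :
    RunS (u * a) (u * b) (u * L) (blow u D) (subE u A 0) (u * p) (u * (q + 1) - 1) (blow u Y)
      (u * m) (u * n) (u * N₁) (u * N₂) where
  hL := mul_pos (by omega) h.hL
  fin := blow_finite (by omega) h.fin
  esc := Esc.blow (by omega) h.esc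
  cyc := cyc_blow hu h.fin hc h.esc h.cyc
  att := att_blow hu h.cyc.bd h.att
  sat := sat_gc_blow hu h.sat
  tip := by
    rw [mem_blow, cl_ahead_zero hu]
    exact h.tip
  con := contig_blow hu h.fin h.esc h.cyc h.att h.tip h.con

/-- **The piece behind a run.** -/
theorem zr_blow (hu : 0 < u) (h : RunS a b L D A p q Y m n N₁ N₂) {r : ℕ}
    (hr : rs a b L (inn D A Y) A N₁ N₂ r < N₂) :
    RunS.Zr (u * a) (u * b) (u * L) (blow u D) (subE u A 0) (blow u Y) (u * N₁) (u * N₂) r =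
      blow u (RunS.Zr a b L D A Y N₁ N₂ r) := by
  have hY := h.con.mid _ (le_rs (r := r) (a := a) (b := b) (L := L)) hr
  unfold RunS.Zr
  rw [inn_blow hu h.tipm, rs_blowR hu h.bdG, gc_cl' hu]
  have e : cl u (outF (blow u (inn D A Y)) (subE u A 0)
      (u * rs a b L (inn D A Y) A N₁ N₂ r)) =
      outF (inn D A Y) A (rs a b L (inn D A Y) A N₁ N₂ r) := by
    rw [cl_outF hu h.bdG, Nat.mul_div_cancel_left _ hu]
  rw [pc_blow hu (by rw [e]; exact h.att.sub hY), e]

/-! ### Attached sets of full cells -/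

variable {K S : Finset (ℤ × ℤ)} {V : Set (ℤ × ℤ)}

/-- The faces of the cells. -/
theorem fcs_blow (hu : 0 < u) :
    fcs (gc (u * a) (u * b) (u * L)) (blow u G) K = blow u (fcs (gc a b L) G K) := by
  rw [gc_cl' hu]
  rfl

theorem full_blow (hu : 0 < u) {c : ℤ × ℤ} :
    Full (gc (u * a) (u * b) (u * L)) (blow u G) c ↔ Full (gc a b L) G c := by
  rw [gc_cl' hu]
  constructor
  · intro h f hf
    obtain ⟨x, hx⟩ := exists_cl (m := u) (by omega) f
    have := h x (by simp only [hx]; exact hf)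
    rwa [mem_blow, hx] at this
  · intro h f hf
    exact h _ hf

theorem cadj_of_blow (hu : 0 < u) {c c' : ℤ × ℤ}
    (h : CAdj (gc (u * a) (u * b) (u * L)) c c') : c = c' ∨ CAdj (gc a b L) c c' := by
  rw [gc_cl' hu] at h
  obtain ⟨f, g, h1, h2, h3⟩ := h
  rcases adj_cl (m := u) (by omega) h3 with h4 | h4
  · left
    rw [← h1, ← h2]
    simp only [h4]
  · exact Or.inr ⟨cl u f, cl u g, h1, h2, h4⟩

theorem cadj_blow (hu : 0 < u) {c c' : ℤ × ℤ} (h : CAdj (gc a b L) c c') :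
    CAdj (gc (u * a) (u * b) (u * L)) c c' := by
  rw [gc_cl' hu]
  obtain ⟨f, g, h1, h2, h3⟩ := h
  obtain ⟨x, y, hx, hy, hxy⟩ := exists_adj_cl (m := u) (by omega) h3
  exact ⟨x, y, by simp only [hx]; exact h1, by simp only [hy]; exact h2, hxy⟩

theorem ctch_blow (hu : 0 < u) {c : ℤ × ℤ} (h : CTch (gc a b L) Z c) :
    CTch (gc (u * a) (u * b) (u * L)) (blow u Z) c := by
  rw [gc_cl' hu]
  obtain ⟨f, z, hz, h1, h3⟩ := h
  obtain ⟨x, y, hx, hy, hxy⟩ := exists_adj_cl (m := u) (by omega) h3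
  exact ⟨x, y, by rw [mem_blow, hy]; exact hz, by simp only [hx]; exact h1, hxy⟩

theorem ctch_of_blow (hu : 0 < u) {c : ℤ × ℤ} (hc : Full (gc a b L) G c)
    (hGZ : ∀ x ∈ G, x ∉ Z) (h : CTch (gc (u * a) (u * b) (u * L)) (blow u Z) c) :
    CTch (gc a b L) Z c := by
  rw [gc_cl' hu] at h
  obtain ⟨f, z, hz, h1, h3⟩ := h
  rcases adj_cl (m := u) (by omega) h3 with h4 | h4
  · exact absurd (mem_blow.1 hz) (h4 ▸ hGZ _ (hc _ h1))
  · exact ⟨cl u f, cl u z, hz, h1, h4⟩

/-- **Attached sets in the magnified domain.** -/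
theorem atK_blow (hu : 0 < u) (hGZ : ∀ x ∈ G, x ∉ Z) :
    AtK (gc (u * a) (u * b) (u * L)) (blow u G) (blow u Z) K ↔ AtK (gc a b L) G Z K := by
  constructor
  · intro h
    have hf : ∀ c ∈ K, Full (gc a b L) G c := fun c hc => (full_blow hu).1 (h.full c hc)
    refine ⟨hf, fun c hc => ?_⟩
    obtain ⟨c', h1, h2, h3⟩ := h.ch c hc
    refine ⟨c', h1, ?_, ctch_of_blow hu (hf c' h1) hGZ h3⟩
    induction h2 with
    | refl => exact Relation.ReflTransGen.refl
    | @tail x y hx hs ih =>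
      have hxK : x ∈ K := by
        rcases Relation.ReflTransGen.cases_tail hx with h4 | ⟨z, -, h4⟩
        · exact h4 ▸ hc
        · exact h4.2
      have ih' : Relation.ReflTransGen (fun a' b' => CAdj (gc a b L) a' b' ∧ b' ∈ K) c x := by
        clear ih h1 h3 hs
        induction hx with
        | refl => exact Relation.ReflTransGen.refl
        | @tail x' y' hx' hs' ih' =>
          have hx'K : x' ∈ K := by
            rcases Relation.ReflTransGen.cases_tail hx' with h4 | ⟨z, -, h4⟩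
            · exact h4 ▸ hc
            · exact h4.2
          rcases cadj_of_blow hu hs'.1 with h5 | h5
          · exact h5 ▸ ih' hx'K
          · exact (ih' hx'K).tail ⟨h5, hs'.2⟩
      rcases cadj_of_blow hu hs.1 with h5 | h5
      · exact h5 ▸ ih'
      · exact ih'.tail ⟨h5, hs.2⟩
  · intro h
    refine ⟨fun c hc => (full_blow hu).2 (h.full c hc), fun c hc => ?_⟩
    obtain ⟨c', h1, h2, h3⟩ := h.ch c hc
    exact ⟨c', h1, Mv.rtg_mono (fun x y hxy => ⟨cadj_blow hu hxy.1, hxy.2⟩) h2, ctch_blow hu h3⟩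

/-- **The family of the magnified domain.** -/
theorem fam_blow (hu : 0 < u) (hGZ : ∀ x ∈ G, x ∉ Z) :
    fam (gc (u * a) (u * b) (u * L)) (blow u G) (blow u Z) S = fam (gc a b L) G Z S := by
  ext K
  rw [mem_fam, mem_fam, atK_blow hu hGZ]

/-- **The largest unvisited set of the magnified domain.** `V`: the visited fine faces. -/
theorem kmx_blow (hu : 0 < u) (hGZ : ∀ x ∈ G, x ∉ Z) :
    kmx (gc (u * a) (u * b) (u * L)) (blow u G) (blow u Z) S V =
      kmx (gc a b L) G Z S (cl u '' V) := by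
  have hV : ∀ c : ℤ × ℤ, (∀ f, gc (u * a) (u * b) (u * L) f = c → f ∉ V) ↔
      ∀ f, gc a b L f = c → f ∉ cl u '' V := by
    intro c
    rw [gc_cl' hu]
    constructor
    · rintro h f hf ⟨x, hx, rfl⟩
      exact h x hf hx
    · intro h f hf hfV
      exact h (cl u f) hf ⟨f, hfV, rfl⟩
  have h1 := kmx_mem (κ := gc (u * a) (u * b) (u * L)) (G := blow u G) (Z := blow u Z) (S := S)
    (N := V)
  have h2 := kmx_mem (κ := gc a b L) (G := G) (Z := Z) (S := S) (N := cl u '' V)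
  refine Finset.Subset.antisymm (sub_kmx ?_ ?_) (sub_kmx ?_ ?_)
  · rw [← fam_blow hu hGZ]; exact h1.1
  · exact fun c hc => (hV c).1 (h1.2 c hc)
  · rw [fam_blow hu hGZ]; exact h2.1
  · exact fun c hc => (hV c).2 (h2.2 c hc)

/-! ### The block and the domain of a move -/

theorem blk_blow (hu : 0 < u) {M : ℤ} {v : ℤ × ℤ} :
    blk (u * a) (u * b) (u * L) M (u * v.1, u * v.2) = blow u (blk a b L M v) := by
  unfold blk
  rw [gc_mul hu, gc_cl' hu]
  rfl

theorem blkN_blow (hu : 0 < u) {M : ℤ} {v : ℤ × ℤ} :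
    blkN (u * a) (u * b) (u * L) M (u * v.1, u * v.2) = blkN a b L M v := by
  unfold blkN
  rw [gc_mul hu]

/-- The domain of the move. -/
theorem domD_blow (hu : 0 < u) (hA : ahead A ∈ P ∩ W) :
    domD (blow u P) (blow u W) (subE u A 0) = blow u (domD P W A) := by
  unfold domD
  rw [← blow_inter]
  have e := cl_ahead_zero hu A
  rw [compT_blow (by omega) (by rw [e]; exact hA), e]

/-- The distance from the lines of the grid. -/
theorem offL_blow (hu : 0 < u) {r : ℤ} {v : ℤ × ℤ} (h : OffL a b L r v) :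
    OffL (u * a) (u * b) (u * L) (u * r) (u * v.1, u * v.2) := by
  have hu' : (0 : ℤ) < u := by omega
  have key : ∀ t k w : ℤ, (∀ s, L ∣ s + k → r ≤ |s - w|) → u * L ∣ t + u * k →
      u * r ≤ |t - u * w| := by
    intro t k w hh hd
    have h1 : (u : ℤ) ∣ t := by
      have h2 : (u : ℤ) ∣ t + u * k := (Dvd.intro _ rfl).trans hd
      exact (dvd_add_left (Dvd.intro _ rfl)).1 h2
    obtain ⟨s, rfl⟩ := h1
    rw [← mul_add, mul_dvd_mul_iff_left hu'.ne'] at hd
    rw [← mul_sub, abs_mul, abs_of_pos hu']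
    exact mul_le_mul_of_nonneg_left (hh s hd) hu'.le
  exact ⟨fun t ht => key t a v.1 h.1 ht, fun t ht => key t b v.2 h.2 ht⟩

end Pool.Agent.SixB.Blow
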