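import Pool.Agent.Lib.SixB.S8StateG
import Pool.Agent.Lib.SixB.S8BlowR
import Pool.Agent.Lib.SixB.S8MoveB

/-!
# Step 8: a stage with the tip beside the target

If the faces at the tip side and at the target side of the coarse domain are joined inside the part of a
cell in `P`, then the stage is void and it is the end of the step (`Dom.Val.near_end`).

* `near_coarse`: the coarse chain from a chain of the magnified domain inside a square which is contained
  in one cell;
* `Dom.Val.near_end_f`: the magnified form;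
* `Dom.Val.dcell`, `Dom.Val.sat_entE`: the domain of the move is closed in the part of a cell in `P`, the
  entered set is saturated.
-/

set_option autoImplicit false

namespace Pool.Agent.SixB.Mv

open Pool.Agent.Perc Pool.Agent.Perc6 Pool.Agent.Perc6.C2Aux Pool.Agent.Perc.Tips
open Pool.Agent.SixB.Top
open Pool.Agent.SixB.Blow (cl subE mem_blow cl_ahead adj_cl)

/-- The coarse chain. -/
theorem near_coarse {P : Set (ℤ × ℤ)} {A B : UE × Bool} {a b L R : ℤ} {u : ℕ} (hu : 0 < u)
    (hcell : ∀ f ∈ sqF R (ahead (subE u B 0)),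
      gc (u * a) (u * b) (u * L) f = gc (u * a) (u * b) (u * L) (ahead (subE u B 0)))
    (hn : ChI (blow u P ∩ sqF R (ahead (subE u B 0))) (ahead (subE u B 0)) (ahead (subE u A 0))) :
    ChI (P ∩ {f | gc a b L f = gc a b L (ahead B)}) (ahead B) (ahead A) := by
  have hu' : (0 : ℤ) < u := by exact_mod_cast hu
  have key : ∀ y, ChI (blow u P ∩ sqF R (ahead (subE u B 0))) (ahead (subE u B 0)) y →
      ChI (P ∩ {f | gc a b L f = gc a b L (ahead B)}) (ahead B) (cl u y) := by
    intro y hy
    induction hy with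
    | refl =>
      rw [cl_ahead hu' B le_rfl hu']
      exact ChI.refl _
    | @tail v w _ hs ih =>
      rcases adj_cl hu' hs.1 with h1 | h1
      · rw [← h1]
        exact ih
      · refine ih.tail ⟨h1, hs.2.1, ?_⟩
        have h2 := hcell w hs.2.2
        rw [Blow.gc_cl hu, Blow.gc_cl hu, cl_ahead hu' B le_rfl hu'] at h2
        exact h2
  have h := key _ hn
  rwa [cl_ahead hu' A le_rfl hu'] at h

namespace Dom.Val

variable {s : Dom} {g : Grd} (h : s.Val g)
include h

/-- The domain of the move is closed in the part of a cell in `P`. -/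
theorem dcell : ∀ f ∈ s.dom g, ∀ k ∈ s.P, AdjF f k → g.nm k = g.nm f → k ∈ s.dom g :=
  domD_cell h.mem fun _ hf _ hk => blk_sat hk.symm hf

/-- The entered set is saturated. -/
theorem sat_entE {ρ : Rec} (hz : s.stp g ρ ∈ s.bar g) : Sat (s.dom g) g.nm (s.ent g ρ) :=
  sat_entV h.bdD hz

/-- **The end beside the target.** -/
theorem near_end (hn : ChI (s.P ∩ {f | g.nm f = g.nm (ahead s.B)}) (ahead s.B) (ahead s.A))
    (ρ : Rec) : s.Void g ∧ s.End g ρ := by
  have hBm : ahead s.B ∈ s.P ∩ {f | g.nm f = g.nm (ahead s.B)} := ⟨h.bdB.1, rfl⟩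
  have hn' := ChI.symm hBm hn
  have hA : g.nm (ahead s.A) = g.nm (ahead s.B) := (ChI.mem hBm hn).2
  -- the chain is in the domain
  have key : ∀ y, ChI (s.P ∩ {f | g.nm f = g.nm (ahead s.B)}) (ahead s.A) y →
      y ∈ s.dom g ∧ g.nm y = g.nm (ahead s.A) ∧ y ∈ pc (s.dom g) g.nm (ahead s.A) := by
    intro y hy
    induction hy with
    | refl => exact ⟨self_mem_domD, rfl, self_mem_pc⟩
    | @tail v w _ hs ih =>
      obtain ⟨i1, i2, i3⟩ := ih
      have h1 : g.nm w = g.nm (ahead s.A) := (show g.nm w = g.nm (ahead s.B) from hs.2.2).trans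
        hA.symm
      have h2 : w ∈ s.dom g := h.dcell v i1 w hs.2.1 hs.1 (h1.trans i2.symm)
      exact ⟨h2, h1, compT_step i3 hs.1 ⟨h2, h1⟩⟩
  obtain ⟨k1, -, k3⟩ := key _ hn'
  have hbdB : BD (s.dom g) s.B := ⟨k1, fun hh => h.bdB.2 (h.dom_sub hh).1⟩
  have hbar : ahead s.B ∈ s.bar g := h.ex_bar hbdB (Or.inr rfl)
  have hv : s.Void g := by
    have h1 : ahead s.A ∈ pc (s.dom g) g.nm (ahead s.B) := by
      rw [pc_eq (show ahead s.A ∈ s.dom g from self_mem_domD) k3]
      exact self_mem_pc
    exact pc_sub_barV hbar h1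
  refine ⟨hv, ?_⟩
  have hst : s.stp g ρ = ahead s.A := by
    unfold stp
    rw [if_pos hv]
  unfold End ent
  rw [hst]
  exact pc_sub_entV k3

/-- The magnified form. -/
theorem near_end_f {u : ℕ} (hu : 0 < u) {R : ℤ}
    (hcell : ∀ f ∈ sqF R (ahead (subE u s.B 0)), gc (u * g.a) (u * g.b) (u * g.L) f =
      gc (u * g.a) (u * g.b) (u * g.L) (ahead (subE u s.B 0)))
    (hn : ChI (blow u s.P ∩ sqF R (ahead (subE u s.B 0))) (ahead (subE u s.B 0))
      (ahead (subE u s.A 0))) (ρ : Rec) : s.Void g ∧ s.End g ρ :=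
  h.near_end (near_coarse hu hcell hn) ρ

end Dom.Val

end Pool.Agent.SixB.Mv
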