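import Pool.Agent.Lib.SixB.S8InvB
import Pool.Agent.Lib.SixB.S8NearEnd
import Pool.Agent.Lib.SixB.S8LabVoidC
import Pool.Agent.Lib.SixB.S8LabStep
import Pool.Agent.Lib.SixB.S8LabWk
import Pool.Agent.Lib.SixB.S8LawD

/-!
# Step 8, unit 8H: the invariant along the chain

* `RunI.next_reg`, `RunI.next_void`: the invariant after a regular move and after a void move;
* `RunN.end_void`: the stage beside the target is void and it is the end of the step;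
* `runV_succ`: one stage of the chain; `runV_all`: all stages before the first bad stage.
-/

set_option autoImplicit false

namespace Pool.Agent.SixB.Tru

open Finset Pool.Agent.Perc Pool.Agent.Perc6 Pool.Agent.PercT Pool.Agent.Perc6.C2Aux
open Pool.Agent.SixB Pool.Agent.SixB.Rule Pool.Agent.SixB.Dct Pool.Agent.SixB.Mv
open Pool.Agent.SixB.Blow (subE cyc_blow blow_subset econn_blow mem_blow cl_ahead_rv lf_subE_zero
  cl_ahead_zero)
open Pool.Agent.SixB.Top (compT ChI lf rg compT_eq compT_sub capC isCor_in_lf self_mem_compT)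
open Pool.Agent.Perc.Tips

variable {𝔇 : Dat} {d : ℕ → ℕ} {n : ℕ} {r : ℤ} {s s' : TS} {ω : Cfg} {q : Rule.Ndl} {D : Dom}
  {κ : ℤ × ℤ → ℤ × ℤ} {m x i₁ j₁ t j₂ i₂ : ℕ}

/-- The faces near the target side are in one cell. -/
theorem cell_sqB {u : ℕ} {lB R : ℤ} {g : Grd} (hu : 0 < u) (hL : 0 < g.L)
    (h : OffL g.a g.b g.L lB (lf D.B)) (hR : R + 2 ≤ u * lB) :
    ∀ f ∈ Mv.sqF R (ahead (subE u D.B 0)), gc (u * g.a) (u * g.b) (u * g.L) f =
      gc (u * g.a) (u * g.b) (u * g.L) (ahead (subE u D.B 0)) := by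
  intro f hf
  have hu' : (0 : ℤ) < u := by exact_mod_cast hu
  have h' := h.mag (m := (u : ℤ)) hu'
  rw [← lf_subE_zero] at h'
  have h2 : IsCor (ahead (subE u D.B 0)) (lf (subE u D.B 0)) := isCor_in_lf _
  unfold IsCor at h2
  unfold Mv.sqF at hf
  rw [Set.mem_ofPred_eq, abs_le, abs_le] at hf
  exact h'.gc_eq (mul_pos hu' hL) (by omega) (by omega) (by omega) (by omega) (by omega) (by omega)
    (by omega) (by omega)

/-- **The invariant after a regular move.** -/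
theorem RunI.next_reg (X : RunI 𝔇 d n r s ω q D κ m x i₁ j₁ t j₂ i₂) (hO : StO n s q)
    (hN : NumO d n s.x.length r) (hv : ¬ D.Void (𝔇.gr d s.x D)) {σ : ℕ}
    (hS : D.regS (𝔇.gr d s.x D) (unt d n) (uS s q ω) κ (tS s q ω).1 (cfS s.V q ω) σ)
    (hE : ¬ D.End (𝔇.gr d s.x D) (mvR 𝔇 d n s q D false ω)) {r' : ℤ}
    (hr : r + 7 * (unt d n * msh d s.x.length) + 2 ≤ r')
    (hs' : s' = ⟨s.V, some q, s.t + σ, mvR 𝔇 d n s q D false ω :: s.x⟩) :
    (∃ κ m x i₁ j₁ t j₂ i₂, RunI 𝔇 d n r' s' ω q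
      (D.nx (𝔇.gr d s.x D) (mvR 𝔇 d n s q D false ω)) κ m x i₁ j₁ t j₂ i₂) ∨
    ∃ κ m x, RunN 𝔇 d n r' s' ω q (D.nx (𝔇.gr d s.x D) (mvR 𝔇 d n s q D false ω)) κ m x := by
  obtain ⟨-, R⟩ := X.rg hO hN hv hS
  obtain ⟨κ', m', x', Y, hu', hA, Nx, hκ, hκE⟩ :=
    X.next_regB hO hN hv hS hE (r' := r') (by omega) hs'
  obtain ⟨ρ, hρ⟩ : ∃ ρ, ρ = mvR 𝔇 d n s q D false ω := ⟨_, rfl⟩
  rw [← hρ] at R hE hs' Y hA hκE ⊢
  have hu : (0 : ℤ) < unt d n := by exact_mod_cast hN.hu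
  have hr0 := X.app.d_pos
  have hLp : 0 ≤ (unt d n : ℤ) * msh d s.x.length := mul_nonneg hu.le (msh_pos _ _).le
  obtain ⟨k1, k2⟩ := R.val.nxA_spec R.rok hE
  have hok := R.ok hE
  have hcycP : Cyc (D.nxP (𝔇.gr d s.x D) ρ) (D.nxA (𝔇.gr d s.x D) ρ)
      (cyl (D.nxP (𝔇.gr d s.x D) ρ) (D.nxA (𝔇.gr d s.x D) ρ)) := by
    obtain ⟨m₀, hm₀⟩ := exists_cyc hok.fin hok.con hok.esc k1
    have h1 : Cyc (D.nxP (𝔇.gr d s.x D) ρ) (D.nxA (𝔇.gr d s.x D) ρ) m₀ := hm₀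
    rwa [h1.cyl]
  have hcyc := cyc_blow hN.hu hok.fin hok.con hok.esc hcycP
  have hτ' : dirE (pth (cfS s.V q ω) (tS s q ω).1 σ) = tS s' q ω := by
    have h1 : pth (cfS s.V q ω) (tS s q ω).1 σ = pS s.V q ω (s.t + σ) := pth_pS σ
    rw [h1, hs']
    rfl
  have hl := R.hl Nx
  rw [hτ'] at hl Nx
  have hUU : uS s' q ω ⊆ uS s q ω := by
    rw [hu']
    exact fun f hf => (compT_sub (W := uS s q ω \
      (vs (cfS s.V q ω) (tS s q ω).1 0 σ : Set (ℤ × ℤ))) ⟨X.tgt.1, R.tgt_step.1⟩ hf).1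
  have hj := X.lab.jt.trans X.lab.tj
  have hN' := Nx.st
  have hT := X.tst ω
  rcases X.lab.stepN X.sep (X.tst ω).cyc X.app hA hN'.fin hN'.ec hN'.esc hN'.cyc hcyc
    (econn_blow hu hok.con) (blow_subset fun f hf => (R.val.nxP_sub hE hf).1) hUU hN'.pos
    hN'.lt.le R.mem_nxP (R.hcl hE) hκ
    (fun hg => by
      rw [hu']
      exact R.hc hE X.lab (by omega) (by omega) hg)
    (fun hg => by
      rw [hu']
      exact R.hc hE X.lab (by omega) (by omega) hg)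
    (fun w hw w' hw' he => (nxt_hl Nx hT.cyc hT.lt w (hw.trans hT.lt) w' hw' he).1 hw)
    (fun w h1 h2 w' hw' he => (nxt_hl Nx hT.cyc hT.lt w h2 w' hw' he).2 h1)
    (E := blow (unt d n : ℤ) (D.ent (𝔇.gr d s.x D) ρ)) (econn_blow hu (R.val.econn_ent R.rok))
    (by rw [hu']; exact (R.move hE).2.1) hκE (by
      rw [← hτ', ahead_dirE]
      exact R.ent) (by
      rw [mem_blow, cl_ahead_rv hu _ le_rfl hu]
      exact k2) (by
      rw [mem_blow, cl_ahead_rv hu _ le_rfl hu]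
      exact R.val.ent_sub_P R.rok k2) with ⟨a, b, c, e, f, h1, h2⟩ | ⟨h1, t', h2⟩
  · left
    exact ⟨κ', m', x', a, b, c, e, f,
      { toRunB := Y, lab := h1.mono (by omega) (by omega), sep := h2 }⟩
  · right
    refine ⟨κ', m', x', { toRunB := Y, nrB := ?_, lbn := ⟨t', h2.mono (by omega) (by omega)⟩ }⟩
    exact ChI.mono (T := blow (unt d n : ℤ) (D.nxP (𝔇.gr d s.x D) ρ) ∩
      Mv.sqF (3 * r') (ahead (subE (unt d n) D.B 0)))
      (fun f hf => ⟨hf.1, hf.2.1.trans (by omega), hf.2.2.trans (by omega)⟩) h1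

/-- **The invariant after a void move.** -/
theorem RunI.next_void (X : RunI 𝔇 d n r s ω q D κ m x i₁ j₁ t j₂ i₂)
    (hN : NumO d n s.x.length r) (hv : D.Void (𝔇.gr d s.x D)) {ρ : Rec}
    (hE : ¬ D.End (𝔇.gr d s.x D) ρ) {r' : ℤ}
    (hr : r + 7 * (unt d n * msh d s.x.length) + 2 ≤ r') (hs' : s' = ⟨s.V, some q, s.t, ρ :: s.x⟩) :
    ∃ κ m x i₁ j₁ t j₂ i₂, RunI 𝔇 d n r' s' ω q (D.nx (𝔇.gr d s.x D) ρ) κ m x i₁ j₁ t j₂ i₂ := by
  obtain ⟨κ', Y, e1, e2, hA, hκ, hκE⟩ := X.toRunB.next_voidB hN hv hE (r' := r') (by omega) hs'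
  have hval : D.Val (𝔇.gr d s.x D) := val_gr X.run (msh_pos _ _) hN.h16
  have hu : (0 : ℤ) < unt d n := by exact_mod_cast hN.hu
  have hL : (𝔇.gr d s.x D).L = msh d s.x.length := rfl
  have hr0 := X.app.d_pos
  have hLp : 1 ≤ (unt d n : ℤ) * msh d s.x.length :=
    Int.add_one_le_iff.2 (mul_pos hu (msh_pos _ _))
  have hrok : D.RecOk (𝔇.gr d s.x D) ρ := Dom.recOk_void hv
  obtain ⟨k1, k2⟩ := hval.nxA_spec hrok hE
  have hok := hval.ok_next hrok hE (hval.esc_void_rest hN.hu hv)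
  have hcycP : Cyc (D.nxP (𝔇.gr d s.x D) ρ) (D.nxA (𝔇.gr d s.x D) ρ)
      (cyl (D.nxP (𝔇.gr d s.x D) ρ) (D.nxA (𝔇.gr d s.x D) ρ)) := by
    obtain ⟨m₀, hm₀⟩ := exists_cyc hok.fin hok.con hok.esc k1
    have h1 : Cyc (D.nxP (𝔇.gr d s.x D) ρ) (D.nxA (𝔇.gr d s.x D) ρ) m₀ := hm₀
    rwa [h1.cyl]
  have hcyc := cyc_blow hN.hu hok.fin hok.con hok.esc hcycP
  have huoc := (uoc_compT (hval.tgt_rem hE)).blow hu
  have hsub : blow (unt d n : ℤ) (D.nxP (𝔇.gr d s.x D) ρ) ⊆ uS s q ω := fun f hf =>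
    X.app.sub (hval.nxP_sub hE hf).1
  have M := Pool.Agent.SixB.Mv.MoveData.restrict (hval.mv_void hN.hu hv X.app.sub (ρ := ρ))
    huoc hsub subset_rfl
  have hB : ahead (subE (unt d n) D.B 0) ∈ blow (unt d n : ℤ) (D.nxP (𝔇.gr d s.x D) ρ) := by
    rw [mem_blow, cl_ahead_zero hN.hu]
    exact self_mem_compT
  have hcell := cell_sqB (D := D) (R := r + 1) hN.hu hval.hL
    (D.grd_lfB (M := msz 𝔇.kap d s.x.length) (msh_pos d s.x.length) hN.h16)
    (by have := hN.farB; omega)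
  have hcl : ∀ f ∈ blow (unt d n : ℤ) (D.nxP (𝔇.gr d s.x D) ρ), ∀ k ∈ blow (unt d n : ℤ) D.P,
      f ∈ Mv.sqF (r + 1) (ahead (subE (unt d n) D.B 0)) →
      k ∈ Mv.sqF (r + 1) (ahead (subE (unt d n) D.B 0)) → AdjF f k →
      k ∈ blow (unt d n : ℤ) (D.nxP (𝔇.gr d s.x D) ρ) := fun f hf k hk h1 h2 ha =>
    cl_cell M (dcell_f hN.hu hval.dcell) (sat_f' hN.hu (hval.sat_ent hrok)) hf hk ha
      ((hcell f h1).trans (hcell k h2).symm)
  have hent : ∀ f ∈ blow (unt d n : ℤ) D.P, f ∉ blow (unt d n : ℤ) (D.ent (𝔇.gr d s.x D) ρ) →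
      f ∈ blow (unt d n : ℤ) (D.P \ D.rem (𝔇.gr d s.x D) ρ) := fun f h1 h2 => by
    rw [Dom.rem_void D _ hv]
    exact ⟨h1, h2⟩
  have hdia := (InvN.ent_dia hval hrok).blow hu
  have e3 : (unt d n : ℤ) * (2 * (𝔇.gr d s.x D).L) = 2 * (unt d n * msh d s.x.length) := by
    rw [hL]
    ring
  have hAE := InvN.ahead_blow hu (Dom.ahead_mem_ent hv (ρ := ρ)) le_rfl hu
  obtain ⟨a, b, c, e, f, h1, h2⟩ := X.lab.void_clean X.sep X.app hcyc (econn_blow hu hok.con)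
    (blow_subset fun f hf => (hval.nxP_sub hE hf).1) hB hcl
    (E := blow (unt d n : ℤ) (D.ent (𝔇.gr d s.x D) ρ)) (econn_blow hu (hval.econn_ent hrok))
    (blow_subset (hval.ent_sub_P hrok)) hAE (InvN.ahead_rv_blow hu k2 le_rfl hu)
    (r := 2 * (unt d n * msh d s.x.length))
    (fun a ha => by
      have h1 := hdia a ha _ hAE
      rw [e3] at h1
      exact ⟨h1.1.le, h1.2.le⟩)
    (fun f hfE hf => (hval.nxP_sub hE hf).2 (Dom.ent_sub_rem _ _ _ hfE))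
    (fun f hf k hk hkE ha => huoc.clo f hf k (hent k hk hkE) ha) hκ
  refine ⟨κ', m, x, a, b, c, e, f, { toRunB := Y, lab := ?_, sep := h2 }⟩
  rw [e1, e2]
  exact h1.mono (by omega) (by omega)

/-- **The stage beside the target** is void and it is the end of the step. -/
theorem RunN.end_void (X : RunN 𝔇 d n r s ω q D κ m x) (hN : NumO d n s.x.length r) (ρ : Rec) :
    D.Void (𝔇.gr d s.x D) ∧ D.End (𝔇.gr d s.x D) ρ := by
  have hval : D.Val (𝔇.gr d s.x D) := val_gr X.run (msh_pos _ _) hN.h16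
  have hcell := cell_sqB (D := D) (R := 3 * r) hN.hu hval.hL
    (D.grd_lfB (M := msz 𝔇.kap d s.x.length) (msh_pos d s.x.length) hN.h16)
    (by have := hN.farB; omega)
  exact hval.near_end_f hN.hu hcell X.nrB ρ

/-! ### The chain -/

/-- The invariant of the stage `i` of the chain. -/
def InvV (C : ℤ) (𝔇 : Dat) (d : ℕ → ℕ) (n i : ℕ) (ω : Cfg) : Prop :=
  RunV 𝔇 d n (rad C (unt d n) d (tst 𝔇 d n ω i).x.length) (tst 𝔇 d n ω i) ω

/-- The invariant in a stage which is not void. -/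
theorem InvV.runI {C : ℤ} {i : ℕ} (h : InvV C 𝔇 d n i ω)
    (hN : NumO d n (tst 𝔇 d n ω i).x.length (rad C (unt d n) d (tst 𝔇 d n ω i).x.length))
    (hq : (tst 𝔇 d n ω i).q = some q) (hD : (𝔇.cs d (tst 𝔇 d n ω i).x).run = some D)
    (hi : (𝔇.cs d (tst 𝔇 d n ω i).x).ini = false)
    (hv : ¬ (D.Void (𝔇.gr d (tst 𝔇 d n ω i).x D) ∧
      D.End (𝔇.gr d (tst 𝔇 d n ω i).x D) (recS 𝔇 d n (i + 1) ω))) :
    ∃ κ m x i₁ j₁ t j₂ i₂, RunI 𝔇 d n (rad C (unt d n) d (tst 𝔇 d n ω i).x.length)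
      (tst 𝔇 d n ω i) ω q D κ m x i₁ j₁ t j₂ i₂ := by
  rcases h q D hq hD hi with h1 | ⟨κ, m, x, h1⟩
  · exact h1
  · exact absurd (h1.end_void hN _) hv

/-- **One stage of the chain.** -/
theorem runV_succ {C : ℤ} (hC : 9 ≤ C) {i : ℕ}
    (hN : NumO d n (tst 𝔇 d n ω i).x.length (rad C (unt d n) d (tst 𝔇 d n ω i).x.length))
    (hR : ∀ q D, (tst 𝔇 d n ω i).q = some q → (𝔇.cs d (tst 𝔇 d n ω i).x).run = some D →
      (𝔇.cs d (tst 𝔇 d n ω i).x).ini = false → ¬ D.Void (𝔇.gr d (tst 𝔇 d n ω i).x D) →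
      ∃ κ m x i₁ j₁ t j₂ i₂,
        RunI 𝔇 d n (rad C (unt d n) d (tst 𝔇 d n ω i).x.length) (tst 𝔇 d n ω i) ω q D κ m x
          i₁ j₁ t j₂ i₂ ∧
        ∃ σ, D.regS (𝔇.gr d (tst 𝔇 d n ω i).x D) (unt d n) (uS (tst 𝔇 d n ω i) q ω) κ
          (pS (tst 𝔇 d n ω i).V q ω (tst 𝔇 d n ω i).t) (cfS (tst 𝔇 d n ω i).V q ω) σ)
    (hS : ∀ q D, (tst 𝔇 d n ω i).q = some q → (𝔇.cs d (tst 𝔇 d n ω i).x).run = some D →
      (𝔇.cs d (tst 𝔇 d n ω i).x).ini = true → InvV C 𝔇 d n (i + 1) ω)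
    (h : InvV C 𝔇 d n i ω) : InvV C 𝔇 d n (i + 1) ω := by
  rcases hq0 : (tst 𝔇 d n ω i).q with _ | q
  · -- no needle
    intro q' D' hq' hD' hi'
    exfalso
    rw [tst_succ] at hq' hD' hi'
    rcases hD0 : (𝔇.cs d (tst 𝔇 d n ω i).x).run with _ | D
    · rw [nxS_rest hq0 hD0] at hD' hi'
      rw [plS_x, Dat.cs_cons] at hD' hi'
      rw [mv_ini_none hD0, hD'] at hi'
      exact absurd hi' (by simp)
    · rw [nxS_skip hq0 hD0] at hq'
      exact absurd hq' (by simp)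
  · obtain ⟨D, hD, hst⟩ := tst_run hq0
    rcases hi : (𝔇.cs d (tst 𝔇 d n ω i).x).ini with _ | _
    · rw [hi] at hst
      -- the radius
      have hlen : rad C (unt d n) d (tst 𝔇 d n ω (i + 1)).x.length =
          rad C (unt d n) d (tst 𝔇 d n ω i).x.length +
            C * (unt d n * msh d (tst 𝔇 d n ω i).x.length) := by
        rw [tst_len, ← rad_succ, tst_len]
      have hu : (0 : ℤ) < unt d n := by exact_mod_cast hN.hu
      have hLp : 1 ≤ (unt d n : ℤ) * msh d (tst 𝔇 d n ω i).x.length :=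
        Int.add_one_le_iff.2 (mul_pos hu (msh_pos _ _))
      have hrad : rad C (unt d n) d (tst 𝔇 d n ω i).x.length +
          7 * (unt d n * msh d (tst 𝔇 d n ω i).x.length) + 2 ≤
          rad C (unt d n) d (tst 𝔇 d n ω (i + 1)).x.length := by
        rw [hlen]
        nlinarith
      intro q' D' hq' hD' hi'
      -- the end of the step is impossible
      have hfin := hq'
      rw [hst] at hfin
      obtain ⟨e1, e2, e3, e4⟩ := finS_q hfin
      subst e1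
      obtain ⟨D₁, hD₁⟩ := Option.isSome_iff_exists.1 e2
      have hnE : ¬ D.End (𝔇.gr d (tst 𝔇 d n ω i).x D) (mvR 𝔇 d n (tst 𝔇 d n ω i) q' D false ω) := by
        intro hE
        rw [Dat.cs_cons, mv_end hD hi hE] at hD₁
        exact absurd hD₁ (by simp)
      have hst' := hst
      rw [finS_run hD₁] at hst'
      have hnO : (D.nx (𝔇.gr d (tst 𝔇 d n ω i).x D)
          (mvR 𝔇 d n (tst 𝔇 d n ω i) q' D false ω)).Ok := by
        by_contra hO
        rw [Dat.cs_cons, mv_bad hD hi hO] at hD₁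
        exact absurd hD₁ (by simp)
      have hDD : D' = D.nx (𝔇.gr d (tst 𝔇 d n ω i).x D)
          (mvR 𝔇 d n (tst 𝔇 d n ω i) q' D false ω) := by
        have h1 := (cs_next hD hi hnE hnO).1
        rw [hst'] at hD'
        exact Option.some.inj (hD'.symm.trans h1)
      rw [hDD]
      by_cases hv : D.Void (𝔇.gr d (tst 𝔇 d n ω i).x D)
      · rcases h q' D hq0 hD hi with ⟨κ, m, x, i₁, j₁, t, j₂, i₂, X⟩ | ⟨κ, m, x, X⟩
        · exact Or.inl (X.next_void hN hv hnE hrad (by rw [hst', mvT_void hv]))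
        · exact absurd (X.end_void hN _).2 hnE
      · obtain ⟨κ, m, x, i₁, j₁, t, j₂, i₂, X, σ, hσ⟩ := hR q' D hq0 hD hi hv
        have hO := stO_tst hq0
        obtain ⟨hT, -⟩ := X.rg hO hN hv hσ
        exact X.next_reg hO hN hv hσ hnE hrad (by rw [hst', hT])
    · exact hS q D hq0 hD hi

/-- The first stage. -/
theorem runV_zero {C : ℤ} : InvV C 𝔇 d n 0 ω := by
  intro q' D' hq' hD' hi'
  exfalso
  rw [tst_zero] at hq' hD' hi'
  have hD0 : (𝔇.cs d ([] : List Rec)).run = none := rfl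
  rw [nxS_rest (s := ⟨Box n, none, 0, []⟩) rfl hD0] at hD' hi'
  rw [plS_x, Dat.cs_cons] at hD' hi'
  rw [mv_ini_none hD0, hD'] at hi'
  exact absurd hi' (by simp)

/-- **The invariant of the chain.** -/
theorem runV_all {C : ℤ} (hC : 9 ≤ C) {k : ℕ}
    (hN : ∀ i < k, NumO d n (i + 1) (rad C (unt d n) d (i + 1)))
    (hR : ∀ i < k, ω ∉ Dead C 𝔇 d n i)
    (hS : ∀ i < k, InvV C 𝔇 d n i ω → ∀ q D, (tst 𝔇 d n ω i).q = some q →
      (𝔇.cs d (tst 𝔇 d n ω i).x).run = some D → (𝔇.cs d (tst 𝔇 d n ω i).x).ini = true →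
      InvV C 𝔇 d n (i + 1) ω) : ∀ i ≤ k, InvV C 𝔇 d n i ω := by
  intro i
  induction i with
  | zero => exact fun _ => runV_zero
  | succ i ih =>
    intro hi
    refine runV_succ hC ?_ (fun q D hq hD hini hv => exists_regS (hR i hi) hq hD hini hv)
      (hS i hi (ih (by omega))) (ih (by omega))
    rw [tst_len]
    exact hN i hi

end Pool.Agent.SixB.Tru
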