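import Pool.Agent.Lib.SixB.TopCtr

/-!
# The layer of faces outside an arc of the contour

`D` finite, edge connected and without holes. `no_pinch`: a vertex of the contour is passed only once.
`Lay D A k`: the faces outside `D` which touch one of the sides `A, sc D A, ..., (sc D)^[k] A` of the
contour. `lay_chain`: the layer is joined, by edges, to the outer face of `A`; so `U \ Lay D A k` has no
holes if `U` has none and the outer face of `A` is outside `U` (`esc_diff_lay`). `interval_of_out`: a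
part of the contour of `D` whose outer faces are outside `T ⊇ D` is a part of the contour of `T`.
`compT W f`: the edge component of `f` in `W`; `compT_lay`: the component of `U \ Lay` which contains `D`.
-/

set_option autoImplicit false

namespace Pool.Agent.SixB.Top

open Finset Pool.Agent.Perc Pool.Agent.Perc6 Pool.Agent.Perc6.C2Aux Pool.Agent.Perc.Tips

/-! ### Even sets of boundary sides -/

/-- A nonempty set of boundary sides with even degree everywhere consists of all boundary sides. -/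
theorem even_sub_all {F : Set (ℤ × ℤ)} (hF : F.Finite) (hc : EConn F) (he : Esc F) {O : Set UE}
    (hb : ∀ a ∈ O, BdU F a) (hev : ∀ w, EvenV O w) {a₀ : UE} (h0 : a₀ ∈ O) {a : UE}
    (ha : BdU F a) : a ∈ O := by
  classical
  have hfin : O.Finite := by
    have : O ⊆ Prod.fst '' {A : UE × Bool | ahead A ∈ F} := by
      intro b hbO
      obtain ⟨d, hd⟩ := exists_BD (hb b hbO)
      exact ⟨(b, d), hd.1, rfl⟩
    exact ((finite_ahead hF).image _).subset this
  obtain ⟨N, hN⟩ : ∃ N : ℤ, ∀ a ∈ O, |a.1| < N ∧ |a.2.1| < N := by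
    refine ⟨1 + ∑ a ∈ hfin.toFinset, (|a.1| + |a.2.1|), fun a ha => ?_⟩
    have h1 : |a.1| + |a.2.1| ≤ ∑ a ∈ hfin.toFinset, (|a.1| + |a.2.1|) :=
      Finset.single_le_sum (f := fun a : UE => |a.1| + |a.2.1|) (fun _ _ => by positivity)
        (hfin.mem_toFinset.mpr ha)
    have b1 := abs_nonneg a.1
    have b2 := abs_nonneg a.2.1
    omega
  have hlow : ∀ a ∈ O, -N < a.2.1 := fun a ha => by
    have := (hN a ha).2
    have h2 := neg_abs_le a.2.1
    omega
  have hside : ∀ {a : UE} {f g : ℤ × ℤ}, IsSide f a → IsSide g a → f ≠ g →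
      (a ∈ O ↔ chi (-N) O f ≠ chi (-N) O g) := fun hf hg hne => chi_side hlow hev hf hg hne
  -- constant on `F`
  have hin : ∀ {f g : ℤ × ℤ}, f ∈ F → g ∈ F → chi (-N) O f = chi (-N) O g := by
    intro f g hf hg
    have hch := hc f hf g hg
    clear hg
    induction hch with
    | refl => rfl
    | @tail b c hbc hstep ih =>
      rw [ih]
      obtain ⟨⟨hne, s, h1, h2⟩, hcF⟩ := hstep
      have hbF : b ∈ F := by
        rcases Relation.ReflTransGen.cases_tail hbc with h | ⟨d, -, h⟩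
        · rw [h]; exact hf
        · exact h.2
      by_contra hn
      obtain ⟨-, k, hk, hks⟩ := hb s ((hside h1 h2 hne).2 hn)
      rcases side_two hne h1 h2 hks with rfl | rfl
      · exact hk hbF
      · exact hk hcF
  -- zero outside
  have hout : ∀ {f : ℤ × ℤ}, f ∉ F → chi (-N) O f = 0 := by
    intro f hf
    obtain ⟨g, hg, hch⟩ := he f hf N
    have h1 : chi (-N) O f = chi (-N) O g := by
      clear hg
      induction hch with
      | refl => rfl
      | @tail b c hbc hstep ih =>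
        rw [ih]
        obtain ⟨⟨hne, s, h1, h2⟩, hcF⟩ := hstep
        have hbF := chain_notMem hf hbc
        by_contra hn
        obtain ⟨⟨k, hk, hks⟩, -⟩ := hb s ((hside h1 h2 hne).2 hn)
        rcases side_two hne h1 h2 hks with rfl | rfl
        · exact hbF hk
        · exact hcF hk
    rw [h1]
    exact chi_far hlow hev hN le_rfl hg
  obtain ⟨⟨f₀, hf₀, hfs₀⟩, g₀, hg₀, hgs₀⟩ := hb a₀ h0
  have hne₀ : f₀ ≠ g₀ := by
    rintro rfl
    exact hg₀ hf₀
  have h1 := (hside hfs₀ hgs₀ hne₀).1 h0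
  rw [hout hg₀] at h1
  obtain ⟨⟨f, hf, hfs⟩, g, hg, hgs⟩ := ha
  have hne : f ≠ g := by
    rintro rfl
    exact hg hf
  rw [hside hfs hgs hne, hout hg, hin hf hf₀]
  exact h1

/-- The degree of one directed unit edge. -/
theorem ind2_degree (A : UE × Bool) (w : ℤ × ℤ) :
    ind2 (A.1 = (w.1, w.2, false)) + ind2 (A.1 = (w.1 - 1, w.2, false)) +
      (ind2 (A.1 = (w.1, w.2, true)) + ind2 (A.1 = (w.1, w.2 - 1, true))) =
      ind2 (lf A = w) + ind2 (rg A = w) := by
  obtain ⟨⟨x, y, _ | _⟩, _ | _⟩ := A <;> obtain ⟨u, v⟩ := w <;>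
    simp only [lf, rg, Prod.mk.injEq, Bool.false_eq_true, Bool.true_eq_false, and_false, and_true]
  · rw [ind2_neg (P := False) (fun h => h), add_zero, add_zero, add_comm]
    congr 1
    · exact ind2_congr ⟨fun h => ⟨by omega, h.2⟩, fun h => ⟨by omega, h.2⟩⟩
  · rw [ind2_neg (P := False) (fun h => h), add_zero, add_zero]
    congr 1
    · exact ind2_congr ⟨fun h => ⟨by omega, h.2⟩, fun h => ⟨by omega, h.2⟩⟩
  · rw [ind2_neg (P := False) (fun h => h), zero_add, zero_add]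
    congr 1
    · exact ind2_congr ⟨fun h => ⟨h.1, by omega⟩, fun h => ⟨h.1, by omega⟩⟩
  · rw [ind2_neg (P := False) (fun h => h), zero_add, zero_add, add_comm]
    congr 1
    · exact ind2_congr ⟨fun h => ⟨h.1, by omega⟩, fun h => ⟨h.1, by omega⟩⟩

/-- A closed walk of distinct unit edges has even degree everywhere. -/
theorem evenV_closed {j : ℕ} {B : ℕ → UE × Bool} (hstep : ∀ i < j, lf (B (i + 1)) = rg (B i))
    (hclose : lf (B 0) = rg (B j)) (hinj : ∀ i ≤ j, ∀ k ≤ j, (B i).1 = (B k).1 → i = k)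
    (w : ℤ × ℤ) : EvenV {a | ∃ i ≤ j, (B i).1 = a} w := by
  classical
  have key : ∀ a : UE, ind2 (a ∈ {a | ∃ i ≤ j, (B i).1 = a}) =
      ∑ i ∈ range (j + 1), ind2 ((B i).1 = a) := by
    intro a
    by_cases h : ∃ i ≤ j, (B i).1 = a
    · obtain ⟨i, hi, rfl⟩ := h
      rw [ind2_pos (P := (B i).1 ∈ {a | ∃ i ≤ j, (B i).1 = a}) ⟨i, hi, rfl⟩,
        Finset.sum_eq_single i]
      · rw [ind2_pos rfl]
      · intro k hk hki
        refine ind2_neg fun h => hki (hinj k ?_ i hi h)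
        have := Finset.mem_range.1 hk
        omega
      · intro h
        exact absurd (Finset.mem_range.2 (by omega)) h
    · rw [ind2_neg (P := a ∈ {a | ∃ i ≤ j, (B i).1 = a}) h, Finset.sum_eq_zero]
      intro k hk
      refine ind2_neg fun hk' => h ⟨k, ?_, hk'⟩
      have := Finset.mem_range.1 hk
      omega
  unfold EvenV
  rw [key, key, key, key, ← Finset.sum_add_distrib, ← Finset.sum_add_distrib,
    ← Finset.sum_add_distrib, Finset.sum_congr rfl fun i _ => ind2_degree (B i) w,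
    Finset.sum_add_distrib]
  have e : ∑ i ∈ range (j + 1), ind2 (rg (B i) = w) = ∑ i ∈ range (j + 1), ind2 (lf (B i) = w) := by
    rw [Finset.sum_range_succ, Finset.sum_range_succ', hclose]
    congr 1
    refine Finset.sum_congr rfl fun i hi => ?_
    rw [hstep i (Finset.mem_range.1 hi)]
  rw [e]
  exact z2_add_self _

/-! ### No pinch points -/

/-- **No pinch.** Two sides of the contour with the same right end are equal. -/
theorem no_pinch {F : Set (ℤ × ℤ)} (hF : F.Finite) (hc : EConn F) (he : Esc F)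
    {A B : UE × Bool} (hA : BD F A) (hB : BD F B) (h : rg A = rg B) : A = B := by
  by_contra hne
  obtain ⟨m, hm, hper, hinj, -⟩ := exists_dctr hF hc he hA
  obtain ⟨n, hn⟩ := contour_all hF hc he hA hB.bdU
  have hn1 : (sc F)^[n] A = B := (hA.iterate n).eq_of_fst hB hn
  have hmod : (sc F)^[n % m] A = B := by
    rw [← hn1]
    exact Function.IsPeriodicPt.iterate_mod_apply (show Function.IsPeriodicPt (sc F) m A from hper) n
  have hlt := Nat.mod_lt n hm
  generalize n % m = r at hmod hlt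
  have hr : r ≠ 0 := by
    rintro rfl
    exact hne hmod
  obtain ⟨j, rfl⟩ : ∃ j, r = j + 1 := ⟨r - 1, by omega⟩
  have hinj' : ∀ i ≤ j, ∀ k ≤ j, ((sc F)^[i + 1] A).1 = ((sc F)^[k + 1] A).1 → i = k := by
    intro i hi k hk hik
    have := hinj (i + 1) (by omega) (k + 1) (by omega)
      ((hA.iterate _).eq_of_fst (hA.iterate _) hik)
    omega
  have hev := evenV_closed (j := j) (B := fun i => (sc F)^[i + 1] A)
    (fun i _ => by rw [Function.iterate_succ_apply' (sc F) (i + 1) A, lf_sc])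
    (by rw [hmod, ← h, zero_add, Function.iterate_one, lf_sc])
    hinj'
  have h0 : A.1 ∈ {a | ∃ i ≤ j, ((fun i => (sc F)^[i + 1] A) i).1 = a} :=
    even_sub_all hF hc he (by
      rintro _ ⟨i, -, rfl⟩
      exact (hA.iterate _).bdU) hev (a₀ := B.1) ⟨j, le_rfl, by rw [hmod]⟩ hA.bdU
  obtain ⟨i, hi, h1⟩ := h0
  have h2 := hinj (i + 1) (by omega) 0 hm ((hA.iterate _).eq_of_fst hA h1)
  omega

/-- The predecessor on the contour. -/
theorem exists_pred {F : Set (ℤ × ℤ)} (hF : F.Finite) {A : UE × Bool} (hA : BD F A) :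
    ∃ B, BD F B ∧ sc F B = A ∧ rg B = lf A := by
  obtain ⟨n, hn, h⟩ := exists_period hF hA
  obtain ⟨k, rfl⟩ : ∃ k, n = k + 1 := ⟨n - 1, by omega⟩
  rw [Function.iterate_succ_apply'] at h
  refine ⟨(sc F)^[k] A, hA.iterate k, h, ?_⟩
  rw [← lf_sc F, h]

/-- Two sides of the contour with the same left end are equal. -/
theorem lf_inj {F : Set (ℤ × ℤ)} (hF : F.Finite) (hc : EConn F) (he : Esc F)
    {A B : UE × Bool} (hA : BD F A) (hB : BD F B) (h : lf A = lf B) : A = B := by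
  obtain ⟨A', hA', rfl, hA2⟩ := exists_pred hF hA
  obtain ⟨B', hB', rfl, hB2⟩ := exists_pred hF hB
  rw [no_pinch hF hc he hA' hB' (by rw [hA2, hB2, h])]

/-- **The contour is simple.** -/
theorem exists_dctr_simple {F : Set (ℤ × ℤ)} (hF : F.Finite) (hc : EConn F) (he : Esc F)
    {A : UE × Bool} (hA : BD F A) :
    ∃ m, 0 < m ∧ (sc F)^[m] A = A ∧
      (∀ i < m, ∀ j < m, (sc F)^[i] A = (sc F)^[j] A → i = j) ∧
      (∀ i < m, ∀ j < m, lf ((sc F)^[i] A) = lf ((sc F)^[j] A) → i = j) ∧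
      Ctr F m (fun i => lf ((sc F)^[i] A)) := by
  obtain ⟨m, hm, hper, hinj, hC⟩ := exists_dctr hF hc he hA
  exact ⟨m, hm, hper, hinj, fun i hi j hj h =>
    hinj i hi j hj (lf_inj hF hc he (hA.iterate i) (hA.iterate j) h), hC⟩

/-! ### The faces at a vertex -/

theorem isCor_rg_iff (A : UE × Bool) (f : ℤ × ℤ) : IsCor f (rg A) ↔
    f = ahead (rv A) ∨ f = ahead A ∨ f = ahead (rtn A) ∨ f = ahead (rtn (rtn A)) := by
  obtain ⟨⟨x, y, _ | _⟩, _ | _⟩ := A <;> obtain ⟨u, v⟩ := f <;>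
    simp only [IsCor, rg, rv, ahead, rtn, Prod.mk.injEq, Bool.not_true, Bool.not_false] <;> omega

theorem adjF_ahead (A : UE × Bool) : AdjF (ahead (rv A)) (ahead A) := by
  obtain ⟨a, d⟩ := A
  refine ⟨?_, a, isSide_ahead a (!d), isSide_ahead a d⟩
  obtain ⟨x, y, b⟩ := a
  cases b <;> cases d <;>
    simp only [rv, ahead, ne_eq, Prod.mk.injEq, Bool.not_true, Bool.not_false] <;> omega

theorem adjF_rtn (A : UE × Bool) : AdjF (ahead A) (ahead (rtn A)) := by
  have := adjF_ahead (rtn A)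
  rwa [ahead_rv_rtn] at this

theorem adjF_rtn_two (A : UE × Bool) : AdjF (ahead (rtn (rtn A))) (ahead (rv A)) := by
  have := adjF_rtn (rtn (rtn A))
  rwa [ahead_rtn_three] at this

theorem rtn_rtn_ne (A : UE × Bool) : rtn (rtn A) ≠ A := by
  obtain ⟨⟨x, y, _ | _⟩, _ | _⟩ := A <;> simp [rtn]

/-- The outer face of the next side is a face at the right end. -/
theorem isCor_out_sc (F : Set (ℤ × ℤ)) (A : UE × Bool) : IsCor (ahead (rv (sc F A))) (rg A) := by
  rw [isCor_rg_iff]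
  by_cases h1 : ahead (rtn A) ∈ F
  · by_cases h2 : ahead (rtn (rtn A)) ∈ F
    · rw [sc_right h1 h2, rv_rv, ahead_rtn_three]
      exact Or.inl rfl
    · rw [sc_straight h1 h2, rv_rv]
      exact Or.inr (Or.inr (Or.inr rfl))
  · rw [sc_left h1, rv_rv]
    exact Or.inr (Or.inr (Or.inl rfl))

/-! ### Chains of faces in a set -/

/-- A chain of adjacent faces; all faces but the first one are in `S`. -/
def ChI (S : Set (ℤ × ℤ)) (f g : ℤ × ℤ) : Prop :=
  Relation.ReflTransGen (fun a b => AdjF a b ∧ b ∈ S) f g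

theorem ChI.refl {S : Set (ℤ × ℤ)} (f : ℤ × ℤ) : ChI S f f := Relation.ReflTransGen.refl

theorem ChI.single {S : Set (ℤ × ℤ)} {f g : ℤ × ℤ} (h : AdjF f g) (hg : g ∈ S) : ChI S f g :=
  Relation.ReflTransGen.single ⟨h, hg⟩

theorem ChI.trans {S : Set (ℤ × ℤ)} {f g k : ℤ × ℤ} (h : ChI S f g) (h' : ChI S g k) :
    ChI S f k := Relation.ReflTransGen.trans h h'

theorem ChI.mono {S T : Set (ℤ × ℤ)} (hST : S ⊆ T) {f g : ℤ × ℤ} (h : ChI S f g) : ChI T f g := by
  induction h with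
  | refl => exact ChI.refl f
  | tail _ hs ih => exact Relation.ReflTransGen.tail ih ⟨hs.1, hST hs.2⟩

theorem ChI.mem {S : Set (ℤ × ℤ)} {f g : ℤ × ℤ} (hf : f ∈ S) (h : ChI S f g) : g ∈ S := by
  rcases Relation.ReflTransGen.cases_tail h with h | ⟨d, -, h⟩
  · rw [h]; exact hf
  · exact h.2

theorem ChI.symm {S : Set (ℤ × ℤ)} {f g : ℤ × ℤ} (hf : f ∈ S) (h : ChI S f g) : ChI S g f := by
  induction h with
  | refl => exact ChI.refl f
  | @tail b c hb hs ih =>
    exact Relation.ReflTransGen.head ⟨hs.1.symm, ChI.mem hf hb⟩ ih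

/-- Chains in `S` are chains outside `W`, if `S` and `W` are disjoint. -/
theorem ChI.stepC {S W : Set (ℤ × ℤ)} (hSW : ∀ f ∈ S, f ∉ W) {f g : ℤ × ℤ} (h : ChI S f g) :
    Relation.ReflTransGen (StepC W) f g := by
  induction h with
  | refl => exact Relation.ReflTransGen.refl
  | tail _ hs ih => exact ih.tail ⟨hs.1, hSW _ hs.2⟩

/-- **The outer faces at a vertex of the contour are consecutive.** -/
theorem out_chain {F : Set (ℤ × ℤ)} (hF : F.Finite) (hc : EConn F) (he : Esc F)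
    {A : UE × Bool} (hA : BD F A) {f : ℤ × ℤ} (hf : f ∉ F) (hcor : IsCor f (rg A)) :
    ChI {g | g ∉ F ∧ IsCor g (rg A)} (ahead (rv A)) f := by
  have c3 : IsCor (ahead (rtn (rtn A))) (rg A) :=
    (isCor_rg_iff _ _).2 (Or.inr (Or.inr (Or.inr rfl)))
  rcases (isCor_rg_iff _ _).1 hcor with rfl | rfl | rfl | rfl
  · exact ChI.refl _
  · exact absurd hA.1 hf
  · -- the face opposite
    have h3 : ahead (rtn (rtn A)) ∉ F := by
      intro h3
      have hB : BD F (rtn (rtn A)) := ⟨h3, by rw [ahead_rv_rtn]; exact hf⟩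
      exact rtn_rtn_ne A (no_pinch hF hc he hB hA (by rw [rg_rtn, rg_rtn]))
    exact ChI.trans (ChI.single (adjF_rtn_two A).symm ⟨h3, c3⟩)
      (ChI.single (adjF_rtn (rtn A)).symm ⟨hf, hcor⟩)
  · exact ChI.single (adjF_rtn_two A).symm ⟨hf, hcor⟩

/-! ### The layer -/

/-- The faces outside `D` which touch one of the sides `A, sc D A, ..., (sc D)^[k] A`. -/
def Lay (D : Set (ℤ × ℤ)) (A : UE × Bool) (k : ℕ) : Set (ℤ × ℤ) :=
  {f | f ∉ D ∧ ∃ i ≤ k, IsCor f (lf ((sc D)^[i] A)) ∨ IsCor f (rg ((sc D)^[i] A))}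

section Layer

variable {D : Set (ℤ × ℤ)} {A : UE × Bool} {k : ℕ}

theorem lay_mono {l : ℕ} (h : k ≤ l) : Lay D A k ⊆ Lay D A l :=
  fun _ hf => ⟨hf.1, hf.2.imp fun _ hi => ⟨hi.1.trans h, hi.2⟩⟩

theorem lay_disj : Disjoint D (Lay D A k) :=
  Set.disjoint_left.2 fun _ hD hL => hL.1 hD

theorem isCor_out_lf (A : UE × Bool) : IsCor (ahead (rv A)) (lf A) := by
  obtain ⟨⟨x, y, _ | _⟩, _ | _⟩ := A <;> simp [IsCor, lf, rv, ahead]

theorem out_mem_lay (hA : BD D A) {i : ℕ} (hi : i ≤ k + 1) :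
    ahead (rv ((sc D)^[i] A)) ∈ Lay D A k := by
  refine ⟨(hA.iterate i).2, ?_⟩
  rcases Nat.lt_or_ge k i with h | h
  · obtain rfl : i = k + 1 := by omega
    refine ⟨k, le_rfl, Or.inr ?_⟩
    rw [Function.iterate_succ_apply']
    exact isCor_out_sc D _
  · exact ⟨i, h, Or.inl (isCor_out_lf _)⟩

theorem lay_at (i : ℕ) (hi : i ≤ k) :
    {g | g ∉ D ∧ IsCor g (rg ((sc D)^[i] A))} ⊆ Lay D A k :=
  fun _ hg => ⟨hg.1, i, hi, Or.inr hg.2⟩

variable (hF : D.Finite) (hc : EConn D) (he : Esc D) (hA : BD D A)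

include hF hc he hA

/-- The outer faces of the sides of the arc are joined in the layer. -/
theorem lay_chain_out {i : ℕ} (hi : i ≤ k + 1) :
    ChI (Lay D A k) (ahead (rv A)) (ahead (rv ((sc D)^[i] A))) := by
  induction i with
  | zero => exact ChI.refl _
  | succ i ih =>
    refine (ih (by omega)).trans ?_
    have h1 := out_chain hF hc he (hA.iterate i) (f := ahead (rv ((sc D)^[i + 1] A)))
      (hA.iterate (i + 1)).2 (by
        rw [Function.iterate_succ_apply']
        exact isCor_out_sc D _)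
    exact h1.mono (lay_at i (by omega))

/-- **The layer is joined to the outer face of the first side.** -/
theorem lay_chain' {f : ℤ × ℤ} (hf : f ∈ Lay D A k) : ChI (Lay D A k) (ahead (rv A)) f := by
  obtain ⟨hfD, i, hi, h | h⟩ := hf
  · rcases Nat.eq_zero_or_pos i with rfl | hi0
    · -- the first vertex
      obtain ⟨B, hB, rfl, hBA⟩ := exists_pred hF hA
      simp only [Function.iterate_zero, id_eq] at h
      rw [lf_sc] at h
      have hs : {g | g ∉ D ∧ IsCor g (rg B)} ⊆ Lay D (sc D B) k := fun g hg =>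
        ⟨hg.1, 0, Nat.zero_le _, Or.inl (by
          simp only [Function.iterate_zero, id_eq]
          rw [lf_sc]
          exact hg.2)⟩
      have h1 := (out_chain hF hc he hB hfD h).mono hs
      have h2 := (out_chain hF hc he hB hA.2 (isCor_out_sc D B)).mono hs
      have h3 : ahead (rv B) ∈ Lay D (sc D B) k :=
        hs ⟨hB.2, (isCor_rg_iff _ _).2 (Or.inl rfl)⟩
      exact (h2.symm h3).trans h1
    · obtain ⟨j, rfl⟩ : ∃ j, i = j + 1 := ⟨i - 1, by omega⟩
      rw [Function.iterate_succ_apply', lf_sc] at h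
      exact (lay_chain_out hF hc he hA (i := j) (by omega)).trans
        ((out_chain hF hc he (hA.iterate j) hfD h).mono (lay_at j (by omega)))
  · exact (lay_chain_out hF hc he hA (i := i) (by omega)).trans
      ((out_chain hF hc he (hA.iterate i) hfD h).mono (lay_at i hi))

/-- (L1) -/
theorem lay_chain {f : ℤ × ℤ} (hf : f ∈ Lay D A k) : ChI (Lay D A k) f (ahead (rv A)) :=
  (lay_chain' hF hc he hA hf).symm (out_mem_lay hA (i := 0) (Nat.zero_le _))

/-- (L2) **Removal of the layer makes no holes.** -/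
theorem esc_diff_lay {U : Set (ℤ × ℤ)} (hU : Esc U) (ho : ahead (rv A) ∉ U) :
    Esc (U \ Lay D A k) :=
  hU.diff fun _ hf => ⟨_, ho,
    (lay_chain hF hc he hA hf).stepC fun _ hg hg' => hg'.2 hg⟩

/-- The same with one more set of removed faces, each joined to the outside by removed faces. -/
theorem esc_diff_lay_of {U K : Set (ℤ × ℤ)} (hU : Esc U) (ho : ahead (rv A) ∉ U)
    (hK : ∀ f ∈ K, ∃ g, (g ∉ U ∨ g ∈ Lay D A k) ∧ ChI (Uᶜ ∪ Lay D A k ∪ K) f g) :
    Esc ((U \ Lay D A k) \ K) := by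
  refine (esc_diff_lay hF hc he hA hU ho).diff fun f hf => ?_
  obtain ⟨g, hg, hch⟩ := hK f hf
  refine ⟨g, fun h => ?_, hch.stepC fun l hl hl' => ?_⟩
  · rcases hg with hg | hg
    · exact hg h.1
    · exact h.2 hg
  · rcases hl with (hl | hl) | hl
    · exact hl hl'.1.1
    · exact hl'.1.2 hl
    · exact hl'.2 hl

end Layer

theorem lay_near {D : Set (ℤ × ℤ)} {A : UE × Bool} {k : ℕ} (hA : BD D A) {f : ℤ × ℤ}
    (hf : f ∈ Lay D A k) : ∃ g ∈ D, |f.1 - g.1| ≤ 1 ∧ |f.2 - g.2| ≤ 1 := by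
  obtain ⟨-, i, -, h⟩ := hf
  have hB := hA.iterate i
  generalize (sc D)^[i] A = B at h hB
  refine ⟨ahead B, hB.1, ?_⟩
  obtain ⟨⟨x, y, _ | _⟩, _ | _⟩ := B <;> obtain ⟨u, v⟩ := f <;>
    simp only [IsCor, lf, rg, ahead] at h ⊢ <;> rw [abs_le, abs_le] <;> omega

theorem lay_finite {D : Set (ℤ × ℤ)} {A : UE × Bool} {k : ℕ} : (Lay D A k).Finite := by
  have h1 : ∀ v : ℤ × ℤ, {f : ℤ × ℤ | IsCor f v}.Finite := by
    intro v
    refine (Set.toFinite ({(v.1, v.2), (v.1 - 1, v.2), (v.1, v.2 - 1), (v.1 - 1, v.2 - 1)} :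
      Set (ℤ × ℤ))).subset ?_
    rintro ⟨x, y⟩ ⟨h1, h2⟩
    simp only [Set.mem_insert_iff, Set.mem_singleton_iff, Prod.mk.injEq] at h1 h2 ⊢
    omega
  refine Set.Finite.subset (Set.Finite.biUnion (Set.finite_Iic k) fun i _ =>
    (h1 (lf ((sc D)^[i] A))).union (h1 (rg ((sc D)^[i] A)))) ?_
  rintro f ⟨-, i, hi, h⟩
  exact Set.mem_biUnion (Set.mem_Iic.2 hi) h

/-! ### Parts of the contour of a subregion -/

/-- The successor is the same in a larger region which does not contain the next outer face. -/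
theorem sc_eq_of_out {D T : Set (ℤ × ℤ)} (hDT : D ⊆ T) {A : UE × Bool}
    (h : ahead (rv (sc D A)) ∉ T) : sc T A = sc D A := by
  by_cases h1 : ahead (rtn A) ∈ D
  · by_cases h2 : ahead (rtn (rtn A)) ∈ D
    · rw [sc_right h1 h2, sc_right (hDT h1) (hDT h2)]
    · rw [sc_straight h1 h2, rv_rv] at h
      rw [sc_straight h1 h2, sc_straight (hDT h1) h]
  · rw [sc_left h1, rv_rv] at h
    rw [sc_left h1, sc_left h]

theorem sc_eq_of_local {D T : Set (ℤ × ℤ)} {A : UE × Bool}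
    (h : ∀ f, IsCor f (rg A) → (f ∈ T ↔ f ∈ D)) : sc T A = sc D A := by
  have h1 := h (ahead (rtn A)) ((isCor_rg_iff _ _).2 (Or.inr (Or.inr (Or.inl rfl))))
  have h2 := h (ahead (rtn (rtn A))) ((isCor_rg_iff _ _).2 (Or.inr (Or.inr (Or.inr rfl))))
  by_cases k1 : ahead (rtn A) ∈ D
  · by_cases k2 : ahead (rtn (rtn A)) ∈ D
    · rw [sc_right k1 k2, sc_right (h1.2 k1) (h2.2 k2)]
    · rw [sc_straight k1 k2, sc_straight (h1.2 k1) (fun hh => k2 (h2.1 hh))]
  · rw [sc_left k1, sc_left (fun hh => k1 (h1.1 hh))]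

/-- (L3) **A part of the contour of `D` whose outer faces are outside `T`.** -/
theorem interval_of_out {D T : Set (ℤ × ℤ)} (hDT : D ⊆ T) {A : UE × Bool} (hA : BD D A) {k : ℕ}
    (h : ∀ i ≤ k, ahead (rv ((sc D)^[i] A)) ∉ T) :
    ∀ i ≤ k, (sc T)^[i] A = (sc D)^[i] A ∧ BD T ((sc D)^[i] A) := by
  intro i
  induction i with
  | zero =>
    intro hi
    exact ⟨rfl, hDT hA.1, h 0 hi⟩
  | succ i ih =>
    intro hi
    obtain ⟨h1, -⟩ := ih (by omega)
    refine ⟨?_, hDT (hA.iterate (i + 1)).1, h _ hi⟩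
    rw [Function.iterate_succ_apply', Function.iterate_succ_apply', h1]
    apply sc_eq_of_out hDT
    have := h (i + 1) hi
    rwa [Function.iterate_succ_apply'] at this

/-- The arc and the next side are on the contour of every region outside the layer. -/
theorem interval_of_lay {D T : Set (ℤ × ℤ)} (hDT : D ⊆ T) {A : UE × Bool} (hA : BD D A) {k : ℕ}
    (h : Disjoint T (Lay D A k)) :
    ∀ i ≤ k + 1, (sc T)^[i] A = (sc D)^[i] A ∧ BD T ((sc D)^[i] A) :=
  interval_of_out hDT hA fun _ hi hT => Set.disjoint_left.1 h hT (out_mem_lay hA hi)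

/-! ### Components -/

/-- The edge component of `f₀` in `W`. -/
def compT (W : Set (ℤ × ℤ)) (f₀ : ℤ × ℤ) : Set (ℤ × ℤ) := {g | ChI W f₀ g}

section Comp

variable {W W' : Set (ℤ × ℤ)} {f₀ f g : ℤ × ℤ}

theorem self_mem_compT : f₀ ∈ compT W f₀ := ChI.refl _

theorem compT_sub (h : f₀ ∈ W) : compT W f₀ ⊆ W := fun _ hg => ChI.mem h hg

theorem compT_mono (h : W ⊆ W') : compT W f₀ ⊆ compT W' f₀ := fun _ hg => ChI.mono h hg

theorem compT_step (hf : f ∈ compT W f₀) (h : AdjF f g) (hg : g ∈ W) : g ∈ compT W f₀ :=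
  Relation.ReflTransGen.tail hf ⟨h, hg⟩

theorem compT_chain (hf : f ∈ compT W f₀) (h : ChI W f g) : ChI (compT W f₀) f g := by
  induction h with
  | refl => exact ChI.refl _
  | @tail b c hb hs ih =>
    exact Relation.ReflTransGen.tail ih ⟨hs.1, (ChI.trans hf hb).tail hs⟩

theorem econn_compT (h : f₀ ∈ W) : EConn (compT W f₀) := by
  intro f hf g hg
  exact compT_chain hf ((ChI.symm h hf).trans hg)

theorem sub_compT {D : Set (ℤ × ℤ)} (hD : EConn D) (hDW : D ⊆ W) (h : f₀ ∈ D) :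
    D ⊆ compT W f₀ := fun g hg => (show ChI D f₀ g from hD _ h _ hg).mono hDW

theorem esc_compT (hfin : W.Finite) (hW : Esc W) (h : f₀ ∈ W) : Esc (compT W f₀) := by
  obtain ⟨x₀, x₁, y₀, y₁, hb⟩ := exists_RF hfin
  exact hW.component (compT_sub h) hb fun _ hf _ hg hfg => compT_step hf hfg hg

theorem compT_bd_out {B : UE × Bool} (hB : BD (compT W f₀) B) : ahead (rv B) ∉ W :=
  fun h => hB.2 (compT_step hB.1 (adjF_ahead B).symm h)

theorem compT_eq (h : f₀ ∈ W) (hf : f ∈ compT W f₀) : compT W f = compT W f₀ := by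
  ext g
  exact ⟨fun hg => ChI.trans hf hg, fun hg => (ChI.symm h hf).trans hg⟩

end Comp

/-! ### The component outside the layer -/

section Main

variable {D U K : Set (ℤ × ℤ)} {A : UE × Bool} {k : ℕ} {f₀ : ℤ × ℤ}

/-- (L4) The region `T`: the component of `U \ Lay` which contains `D`. -/
theorem compT_lay (hUf : U.Finite) (hU : Esc U) (hDU : D ⊆ U) (hc : EConn D) (he : Esc D)
    (hA : BD D A) (ho : ahead (rv A) ∉ U) (hf₀ : f₀ ∈ D) :
    D ⊆ compT (U \ Lay D A k) f₀ ∧ compT (U \ Lay D A k) f₀ ⊆ U \ Lay D A k ∧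
    EConn (compT (U \ Lay D A k) f₀) ∧ Esc (compT (U \ Lay D A k) f₀) ∧
    (∀ i ≤ k + 1, (sc (compT (U \ Lay D A k) f₀))^[i] A = (sc D)^[i] A ∧
      BD (compT (U \ Lay D A k) f₀) ((sc D)^[i] A)) ∧
    (∀ B, BD (compT (U \ Lay D A k) f₀) B → ahead (rv B) ∉ U ∨ ahead (rv B) ∈ Lay D A k) ∧
    (∀ B, BD D B → ahead (rv B) ∉ U → BD (compT (U \ Lay D A k) f₀) B) := by
  have hDW : D ⊆ U \ Lay D A k := fun f hf => ⟨hDU hf, fun h => h.1 hf⟩
  have hsub : D ⊆ compT (U \ Lay D A k) f₀ := sub_compT hc hDW hf₀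
  have hTW := compT_sub (hDW hf₀)
  refine ⟨hsub, hTW, econn_compT (hDW hf₀),
    esc_compT (hUf.subset Set.sdiff_subset)
      (esc_diff_lay (hUf.subset hDU) hc he hA hU ho) (hDW hf₀),
    interval_of_lay hsub hA (Set.disjoint_left.2 fun f hf hL => (hTW hf).2 hL), ?_, ?_⟩
  · intro B hB
    have h := compT_bd_out hB
    by_cases h1 : ahead (rv B) ∈ U
    · right
      by_contra h2
      exact h ⟨h1, h2⟩
    · exact Or.inl h1
  · intro B hB hBU
    exact ⟨hsub hB.1, fun h => hBU (hTW h).1⟩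

/-- (L4) with removed faces `K`: `D'` the component of `D \ K`, `T'` the component of
`(U \ Lay) \ K`. A part of the contour of `D'` whose outer faces are in `K`, in the layer or outside `U`
is a part of the contour of `T'`. -/
theorem compT_lay_diff (hUf : U.Finite) (hDU : D ⊆ U)
    (hT : Esc ((U \ Lay D A k) \ K)) (hf₀ : f₀ ∈ D) (hfK : f₀ ∉ K) :
    compT (D \ K) f₀ ⊆ compT ((U \ Lay D A k) \ K) f₀ ∧
    compT ((U \ Lay D A k) \ K) f₀ ⊆ (U \ Lay D A k) \ K ∧
    EConn (compT ((U \ Lay D A k) \ K) f₀) ∧ Esc (compT ((U \ Lay D A k) \ K) f₀) ∧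
    (∀ (A' : UE × Bool) (k' : ℕ), BD (compT (D \ K) f₀) A' →
      (∀ i ≤ k', ahead (rv ((sc (compT (D \ K) f₀))^[i] A')) ∈ K ∪ Lay D A k ∪ Uᶜ) →
      ∀ i ≤ k', (sc (compT ((U \ Lay D A k) \ K) f₀))^[i] A' = (sc (compT (D \ K) f₀))^[i] A' ∧
        BD (compT ((U \ Lay D A k) \ K) f₀) ((sc (compT (D \ K) f₀))^[i] A')) ∧
    (∀ B, BD (compT ((U \ Lay D A k) \ K) f₀) B → ahead (rv B) ∈ K ∪ Lay D A k ∪ Uᶜ) := by
  have hf1 : f₀ ∈ (U \ Lay D A k) \ K := ⟨⟨hDU hf₀, fun h => h.1 hf₀⟩, hfK⟩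
  have hsub : compT (D \ K) f₀ ⊆ compT ((U \ Lay D A k) \ K) f₀ :=
    compT_mono fun f hf => ⟨⟨hDU hf.1, fun h => h.1 hf.1⟩, hf.2⟩
  have hTW := compT_sub hf1
  refine ⟨hsub, hTW, econn_compT hf1,
    esc_compT (hUf.subset (Set.sdiff_subset.trans Set.sdiff_subset)) hT hf1, ?_, ?_⟩
  · intro A' k' hA' h
    refine interval_of_out hsub hA' fun i hi hm => ?_
    have h1 := hTW hm
    rcases h i hi with (h2 | h2) | h2
    · exact h1.2 h2
    · exact h1.1.2 h2
    · exact h2 h1.1.1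
  · intro B hB
    have h := compT_bd_out hB
    by_cases h1 : ahead (rv B) ∈ U
    · by_cases h2 : ahead (rv B) ∈ Lay D A k
      · exact Or.inl (Or.inr h2)
      · by_cases h3 : ahead (rv B) ∈ K
        · exact Or.inl (Or.inl h3)
        · exact absurd ⟨⟨h1, h2⟩, h3⟩ h
    · exact Or.inr h1

end Main

end Pool.Agent.SixB.Top
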