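import Pool.Agent.Lib.SixB.S8Needle
import Pool.Agent.Lib.SixB.S8Lay

/-!
# Step 8: the faces of a needle

A path of cells `c 0, c 1, …, c L` (cells of side `m`) is realised by a path of faces through the
centres of the cells `c 1, …, c L`; it begins at the side of the cell `c 0`.
-/

set_option autoImplicit false

namespace Pool.Agent.SixB.Ndle

open Pool.Agent.Perc Pool.Agent.SixB.Top

/-- The cell of side `m` of a face. -/
def cel (m : ℤ) (f : ℤ × ℤ) : ℤ × ℤ := (f.1 / m, f.2 / m)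

/-- The centre of a cell. -/
def cen (m : ℤ) (c : ℤ × ℤ) : ℤ × ℤ := (m * c.1 + m / 2, m * c.2 + m / 2)

/-- The faces between two faces (a segment, if the faces are in a row or in a column). -/
def seg (a b : ℤ × ℤ) : Finset (ℤ × ℤ) := Finset.uIcc a.1 b.1 ×ˢ Finset.uIcc a.2 b.2

/-- The faces of the needle along the cells `c`. -/
noncomputable def pthF (m : ℤ) (c : ℕ → ℤ × ℤ) (L : ℕ) : Finset (ℤ × ℤ) :=
  ((Finset.range L).biUnion fun i => seg (cen m (c i)) (cen m (c (i + 1)))).filter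
    fun f => cel m f ≠ c 0

/-- The face of the cell `c` at the end of the segment from its centre to the centre of `c'`. -/
def gat (m : ℤ) (c c' : ℤ × ℤ) : ℤ × ℤ :=
  (if c.1 < c'.1 then m * c.1 + (m - 1) else if c'.1 < c.1 then m * c.1 else m * c.1 + m / 2,
    if c.2 < c'.2 then m * c.2 + (m - 1) else if c'.2 < c.2 then m * c.2 else m * c.2 + m / 2)

variable {m : ℤ} {c : ℕ → ℤ × ℤ} {L : ℕ}

theorem mem_pthF {f : ℤ × ℤ} : f ∈ pthF m c L ↔
    (∃ i < L, f ∈ seg (cen m (c i)) (cen m (c (i + 1)))) ∧ cel m f ≠ c 0 := by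
  unfold pthF
  simp only [Finset.mem_filter, Finset.mem_biUnion, Finset.mem_range]

theorem mem_seg {a b f : ℤ × ℤ} : f ∈ seg a b ↔ (min a.1 b.1 ≤ f.1 ∧ f.1 ≤ max a.1 b.1) ∧
    (min a.2 b.2 ≤ f.2 ∧ f.2 ≤ max a.2 b.2) := by
  unfold seg
  rw [Finset.mem_product, Finset.mem_uIcc, Finset.mem_uIcc]

/-! ### Straight chains -/

theorem chI_right {S : Set (ℤ × ℤ)} {x y : ℤ} : ∀ n : ℕ, (∀ w, x ≤ w → w ≤ x + n → (w, y) ∈ S) →
    ChI S (x, y) (x + n, y) := by
  intro n
  induction n with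
  | zero => intro _; simpa using ChI.refl (S := S) (x, y)
  | succ n ih =>
    intro h
    refine (ih fun w h1 h2 => h w h1 (by push_cast; omega)).trans ?_
    have h1 : (x + (n + 1 : ℕ), y) ∈ S := h _ (by push_cast; omega) le_rfl
    have h2 := adjF_right (x + n) y
    rw [show x + (n : ℤ) + 1 = x + ((n + 1 : ℕ) : ℤ) by push_cast; ring] at h2
    exact ChI.single h2 h1

theorem chI_up {S : Set (ℤ × ℤ)} {x y : ℤ} : ∀ n : ℕ, (∀ w, y ≤ w → w ≤ y + n → (x, w) ∈ S) →
    ChI S (x, y) (x, y + n) := by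
  intro n
  induction n with
  | zero => intro _; simpa using ChI.refl (S := S) (x, y)
  | succ n ih =>
    intro h
    refine (ih fun w h1 h2 => h w h1 (by push_cast; omega)).trans ?_
    have h1 : (x, y + (n + 1 : ℕ)) ∈ S := h _ (by push_cast; omega) le_rfl
    have h2 := adjF_up x (y + n)
    rw [show y + (n : ℤ) + 1 = y + ((n + 1 : ℕ) : ℤ) by push_cast; ring] at h2
    exact ChI.single h2 h1

/-- A row or a column between two faces. -/
theorem chI_seg {S : Set (ℤ × ℤ)} {a b : ℤ × ℤ} (h : a.1 = b.1 ∨ a.2 = b.2)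
    (hS : ∀ f ∈ seg a b, f ∈ S) : ChI S a b := by
  obtain ⟨x, y⟩ := a
  obtain ⟨x', y'⟩ := b
  rcases h with h | h
  · simp only at h
    subst h
    have hS' : ∀ w, min y y' ≤ w → w ≤ max y y' → (x, w) ∈ S := fun w h1 h2 =>
      hS _ (mem_seg.2 ⟨⟨by simp, by simp⟩, h1, h2⟩)
    rcases le_total y y' with hy | hy
    · rw [min_eq_left hy, max_eq_right hy] at hS'
      have h1 := chI_up (S := S) (x := x) (y := y) (y' - y).toNat
        fun w h1 h2 => hS' w h1 (by omega)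
      rwa [show y + ((y' - y).toNat : ℤ) = y' by omega] at h1
    · rw [min_eq_right hy, max_eq_left hy] at hS'
      have h1 := chI_up (S := S) (x := x) (y := y') (y - y').toNat
        fun w h1 h2 => hS' w h1 (by omega)
      rw [show y' + ((y - y').toNat : ℤ) = y by omega] at h1
      exact ChI.symm (hS' y' le_rfl hy) h1
  · simp only at h
    subst h
    have hS' : ∀ w, min x x' ≤ w → w ≤ max x x' → (w, y) ∈ S := fun w h1 h2 =>
      hS _ (mem_seg.2 ⟨⟨h1, h2⟩, by simp, by simp⟩)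
    rcases le_total x x' with hx | hx
    · rw [min_eq_left hx, max_eq_right hx] at hS'
      have h1 := chI_right (S := S) (x := x) (y := y) (x' - x).toNat
        fun w h1 h2 => hS' w h1 (by omega)
      rwa [show x + ((x' - x).toNat : ℤ) = x' by omega] at h1
    · rw [min_eq_right hx, max_eq_left hx] at hS'
      have h1 := chI_right (S := S) (x := x') (y := y) (x - x').toNat
        fun w h1 h2 => hS' w h1 (by omega)
      rw [show x' + ((x - x').toNat : ℤ) = x by omega] at h1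
      exact ChI.symm (hS' x' le_rfl hx) h1

/-! ### Cells -/

theorem cel_eq {f c' : ℤ × ℤ} (hm : 0 < m) : cel m f = c' ↔
    (m * c'.1 ≤ f.1 ∧ f.1 < m * c'.1 + m) ∧ (m * c'.2 ≤ f.2 ∧ f.2 < m * c'.2 + m) := by
  unfold cel
  constructor
  · rintro rfl
    simp only
    have h1 := Int.mul_ediv_add_emod f.1 m
    have h2 := Int.emod_nonneg f.1 hm.ne'
    have h3 := Int.emod_lt_of_pos f.1 hm
    have h4 := Int.mul_ediv_add_emod f.2 m
    have h5 := Int.emod_nonneg f.2 hm.ne'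
    have h6 := Int.emod_lt_of_pos f.2 hm
    refine ⟨⟨?_, ?_⟩, ?_, ?_⟩ <;> linarith
  · rintro ⟨⟨h1, h2⟩, h3, h4⟩
    have e1 : f.1 / m = c'.1 := by
      apply le_antisymm
      · have : f.1 / m < c'.1 + 1 := Int.ediv_lt_of_lt_mul hm (by linarith)
        omega
      · exact (Int.le_ediv_iff_mul_le hm).2 (by linarith)
    have e2 : f.2 / m = c'.2 := by
      apply le_antisymm
      · have : f.2 / m < c'.2 + 1 := Int.ediv_lt_of_lt_mul hm (by linarith)
        omega
      · exact (Int.le_ediv_iff_mul_le hm).2 (by linarith)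
    exact Prod.ext e1 e2

theorem half_mem (hm : 0 < m) : 0 ≤ m / 2 ∧ m / 2 < m := by omega

theorem cel_cen (hm : 0 < m) (c' : ℤ × ℤ) : cel m (cen m c') = c' := by
  have := half_mem hm
  rw [cel_eq hm]
  unfold cen
  simp only
  omega

/-- Adjacent cells. -/
theorem adj_cases {a b : ℤ × ℤ} (h : ld b a = 1) :
    (b.1 = a.1 + 1 ∧ b.2 = a.2) ∨ (b.1 = a.1 - 1 ∧ b.2 = a.2) ∨
      (b.1 = a.1 ∧ b.2 = a.2 + 1) ∨ (b.1 = a.1 ∧ b.2 = a.2 - 1) := by
  unfold ld at h
  have h1 := abs_nonneg (b.1 - a.1)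
  have h2 := abs_nonneg (b.2 - a.2)
  rcases (by omega : |b.1 - a.1| = 1 ∧ |b.2 - a.2| = 0 ∨ |b.1 - a.1| = 0 ∧ |b.2 - a.2| = 1) with
    ⟨h3, h4⟩ | ⟨h3, h4⟩
  · rw [abs_eq_zero] at h4
    rcases (abs_eq (by norm_num)).1 h3 with h5 | h5
    · left; omega
    · right; left; omega
  · rw [abs_eq_zero] at h3
    rcases (abs_eq (by norm_num)).1 h4 with h5 | h5
    · right; right; left; omega
    · right; right; right; omega

/-- The segment between the centres of two adjacent cells: straight, and in the two cells. -/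
theorem seg_cases (hm : 0 < m) {a b f : ℤ × ℤ} (h : ld b a = 1)
    (hf : f ∈ seg (cen m a) (cen m b)) :
    ((f.1 = (cen m a).1 ∧ f.1 = (cen m b).1) ∨ (f.2 = (cen m a).2 ∧ f.2 = (cen m b).2)) ∧
      (cel m f = a ∨ cel m f = b) := by
  have h2 := half_mem hm
  rw [mem_seg] at hf
  unfold cen at hf ⊢
  simp only at hf ⊢
  rcases adj_cases h with ⟨h3, h4⟩ | ⟨h3, h4⟩ | ⟨h3, h4⟩ | ⟨h3, h4⟩
  · rw [h3, h4] at hf ⊢
    have e : m * (a.1 + 1) = m * a.1 + m := by ring
    rw [e] at hf ⊢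
    refine ⟨Or.inr (by omega), ?_⟩
    by_cases h5 : f.1 < m * a.1 + m
    · left; rw [cel_eq hm]; omega
    · right; rw [cel_eq hm, h3, h4, e]; omega
  · rw [h3, h4] at hf ⊢
    have e : m * (a.1 - 1) = m * a.1 - m := by ring
    rw [e] at hf ⊢
    refine ⟨Or.inr (by omega), ?_⟩
    by_cases h5 : m * a.1 ≤ f.1
    · left; rw [cel_eq hm]; omega
    · right; rw [cel_eq hm, h3, h4, e]; omega
  · rw [h3, h4] at hf ⊢
    have e : m * (a.2 + 1) = m * a.2 + m := by ring
    rw [e] at hf ⊢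
    refine ⟨Or.inl (by omega), ?_⟩
    by_cases h5 : f.2 < m * a.2 + m
    · left; rw [cel_eq hm]; omega
    · right; rw [cel_eq hm, h3, h4, e]; omega
  · rw [h3, h4] at hf ⊢
    have e : m * (a.2 - 1) = m * a.2 - m := by ring
    rw [e] at hf ⊢
    refine ⟨Or.inl (by omega), ?_⟩
    by_cases h5 : m * a.2 ≤ f.2
    · left; rw [cel_eq hm]; omega
    · right; rw [cel_eq hm, h3, h4, e]; omega

theorem seg_sub_seg {a b f g : ℤ × ℤ} (hf : f ∈ seg a b) (hg : g ∈ seg f b) : g ∈ seg a b := by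
  rw [mem_seg] at *
  omega

theorem seg_sub_seg' {a b f g : ℤ × ℤ} (hf : f ∈ seg a b) (hg : g ∈ seg f a) : g ∈ seg a b := by
  rw [mem_seg] at *
  omega

/-- Between two faces of one cell there are only faces of this cell. -/
theorem cel_seg (hm : 0 < m) {f g x c' : ℤ × ℤ} (hf : cel m f = c') (hg : cel m g = c')
    (hx : x ∈ seg f g) : cel m x = c' := by
  rw [cel_eq hm] at *
  rw [mem_seg] at hx
  omega

section Path

set_option linter.unusedSectionVars false

variable (hm : 0 < m) (hadj : ∀ i < L, ld (c (i + 1)) (c i) = 1)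
  (hne : ∀ i, 1 ≤ i → i ≤ L → c i ≠ c 0)
include hm hadj hne

/-- Every face of the needle is in one of the cells `c 1, …, c L`. -/
theorem pthF_cell {f : ℤ × ℤ} (hf : f ∈ pthF m c L) : ∃ i, 1 ≤ i ∧ i ≤ L ∧ cel m f = c i := by
  obtain ⟨⟨i, hi, h1⟩, h2⟩ := mem_pthF.1 hf
  rcases (seg_cases hm (hadj i hi) h1).2 with h3 | h3
  · rcases Nat.eq_zero_or_pos i with h4 | h4
    · rw [h4] at h3; exact absurd h3 h2
    · exact ⟨i, h4, hi.le, h3⟩
  · exact ⟨i + 1, by omega, hi, h3⟩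

/-- The centres are on the needle. -/
theorem cen_mem {i : ℕ} (h1 : 1 ≤ i) (hi : i ≤ L) : cen m (c i) ∈ pthF m c L := by
  refine mem_pthF.2 ⟨⟨i - 1, by omega, ?_⟩, ?_⟩
  · rw [show i - 1 + 1 = i by omega, mem_seg]
    omega
  · rw [cel_cen hm]
    exact hne i h1 hi

/-- The needle is side connected. -/
theorem pthF_conn {f : ℤ × ℤ} (hf : f ∈ pthF m c L) :
    ChI (pthF m c L : Set (ℤ × ℤ)) (cen m (c 1)) f := by
  have hseg : ∀ i, 1 ≤ i → i < L → ∀ g ∈ seg (cen m (c i)) (cen m (c (i + 1))),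
      g ∈ pthF m c L := by
    intro i h1 hi g hg
    refine mem_pthF.2 ⟨⟨i, hi, hg⟩, ?_⟩
    rcases (seg_cases hm (hadj i hi) hg).2 with h3 | h3
    · rw [h3]; exact hne i h1 hi.le
    · rw [h3]; exact hne (i + 1) (by omega) hi
  have hcen : ∀ i, 1 ≤ i → i ≤ L → ChI (pthF m c L : Set (ℤ × ℤ)) (cen m (c 1)) (cen m (c i)) := by
    intro i h1 hi
    induction i, h1 using Nat.le_induction with
    | base => exact ChI.refl _
    | succ i h1 ih =>
      refine (ih (by omega)).trans (chI_seg ?_ fun g hg => hseg i h1 (by omega) g hg)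
      rcases adj_cases (hadj i (by omega)) with h | h | h | h
      · right; unfold cen; rw [h.2]
      · right; unfold cen; rw [h.2]
      · left; unfold cen; rw [h.1]
      · left; unfold cen; rw [h.1]
  obtain ⟨⟨i, hi, h1⟩, h2⟩ := mem_pthF.1 hf
  have h3 := seg_cases hm (hadj i hi) h1
  rcases Nat.eq_zero_or_pos i with h4 | h4
  · subst h4
    have h5 : cel m f = c 1 := h3.2.resolve_left h2
    refine ChI.symm (S := (pthF m c L : Set (ℤ × ℤ))) hf (chI_seg (b := cen m (c 1)) ?_ ?_)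
    · rcases h3.1 with h6 | h6
      · exact Or.inl h6.2
      · exact Or.inr h6.2
    · intro g hg
      refine mem_pthF.2 ⟨⟨0, hi, seg_sub_seg h1 hg⟩, ?_⟩
      rw [cel_seg hm h5 (cel_cen hm _) hg]
      exact hne 1 le_rfl hi
  · refine (hcen i h4 hi.le).trans
      (ChI.symm (S := (pthF m c L : Set (ℤ × ℤ))) hf (chI_seg (b := cen m (c i)) ?_ ?_))
    · rcases h3.1 with h6 | h6
      · exact Or.inl h6.1
      · exact Or.inr h6.1
    · intro g hg
      exact hseg i h4 hi g (seg_sub_seg' h1 hg)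

/-- The first face of the needle is at the side of a face of the cell `c 0`. -/
theorem pthF_start (hL : 1 ≤ L) : cel m (gat m (c 0) (c 1)) = c 0 ∧
    gat m (c 1) (c 0) ∈ pthF m c L ∧ AdjF (gat m (c 1) (c 0)) (gat m (c 0) (c 1)) := by
  have h2 := half_mem hm
  have h := hadj 0 (by omega)
  have h1 := hne 1 le_rfl hL
  rw [zero_add] at h
  have hmem : ∀ g, g ∈ seg (cen m (c 0)) (cen m (c 1)) → cel m g = c 1 → g ∈ pthF m c L := by
    intro g hg hc
    exact mem_pthF.2 ⟨⟨0, by omega, hg⟩, by rw [hc]; exact h1⟩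
  generalize c 0 = a at h h1 hmem ⊢
  generalize c 1 = b at h h1 hmem ⊢
  obtain ⟨a1, a2⟩ := a
  obtain ⟨b1, b2⟩ := b
  rcases adj_cases h with ⟨h3, h4⟩ | ⟨h3, h4⟩ | ⟨h3, h4⟩ | ⟨h3, h4⟩ <;> simp only at h3 h4 <;>
    subst h3 <;> subst h4
  · have e : m * (a1 + 1) = m * a1 + m := by ring
    have g1 : gat m (a1, b2) (a1 + 1, b2) = (m * a1 + (m - 1), m * b2 + m / 2) := by
      unfold gat; simp
    have g2 : gat m (a1 + 1, b2) (a1, b2) = (m * a1 + m, m * b2 + m / 2) := by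
      unfold gat; simp [e]
    rw [g1, g2]
    refine ⟨?_, hmem _ ?_ ?_, ?_⟩
    · rw [cel_eq hm]; simp only; omega
    · rw [mem_seg]; unfold cen; simp only; rw [e]; omega
    · rw [cel_eq hm]; simp only; rw [e]; omega
    · rw [adjF_iff]; right; left; simp only [Prod.mk.injEq, and_true]; ring
  · have e : m * (a1 - 1) = m * a1 - m := by ring
    have g1 : gat m (a1, b2) (a1 - 1, b2) = (m * a1, m * b2 + m / 2) := by
      unfold gat; simp
    have g2 : gat m (a1 - 1, b2) (a1, b2) = (m * a1 - 1, m * b2 + m / 2) := by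
      unfold gat; simp [e]
    rw [g1, g2]
    refine ⟨?_, hmem _ ?_ ?_, ?_⟩
    · rw [cel_eq hm]; simp only; omega
    · rw [mem_seg]; unfold cen; simp only; rw [e]; omega
    · rw [cel_eq hm]; simp only; rw [e]; omega
    · rw [adjF_iff]; left; simp
  · have e : m * (a2 + 1) = m * a2 + m := by ring
    have g1 : gat m (b1, a2) (b1, a2 + 1) = (m * b1 + m / 2, m * a2 + (m - 1)) := by
      unfold gat; simp
    have g2 : gat m (b1, a2 + 1) (b1, a2) = (m * b1 + m / 2, m * a2 + m) := by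
      unfold gat; simp [e]
    rw [g1, g2]
    refine ⟨?_, hmem _ ?_ ?_, ?_⟩
    · rw [cel_eq hm]; simp only; omega
    · rw [mem_seg]; unfold cen; simp only; rw [e]; omega
    · rw [cel_eq hm]; simp only; rw [e]; omega
    · rw [adjF_iff]; right; right; right; simp only [Prod.mk.injEq, true_and]; ring
  · have e : m * (a2 - 1) = m * a2 - m := by ring
    have g1 : gat m (b1, a2) (b1, a2 - 1) = (m * b1 + m / 2, m * a2) := by
      unfold gat; simp
    have g2 : gat m (b1, a2 - 1) (b1, a2) = (m * b1 + m / 2, m * a2 - 1) := by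
      unfold gat; simp [e]
    rw [g1, g2]
    refine ⟨?_, hmem _ ?_ ?_, ?_⟩
    · rw [cel_eq hm]; simp only; omega
    · rw [mem_seg]; unfold cen; simp only; rw [e]; omega
    · rw [cel_eq hm]; simp only; rw [e]; omega
    · rw [adjF_iff]; right; right; left; simp

end Path

/-! ### Distances -/

/-- Distances of faces and of cells. -/
theorem sd_face_le (hm : 0 < m) {f g : ℤ × ℤ} : sd f g ≤ m * (sd (cel m f) (cel m g) + 1) - 1 := by
  obtain ⟨⟨a1, a2⟩, a3, a4⟩ := (cel_eq hm (f := f)).1 rfl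
  obtain ⟨⟨b1, b2⟩, b3, b4⟩ := (cel_eq hm (f := g)).1 rfl
  have h1 : |(cel m f).1 - (cel m g).1| ≤ sd (cel m f) (cel m g) := le_max_left _ _
  have h2 : |(cel m f).2 - (cel m g).2| ≤ sd (cel m f) (cel m g) := le_max_right _ _
  rw [abs_le] at h1 h2
  have h3 : (cel m f).1 - (cel m g).1 ≤ sd (cel m f) (cel m g) := h1.2
  have h4 : (cel m g).1 - (cel m f).1 ≤ sd (cel m f) (cel m g) := by linarith [h1.1]
  have h5 : (cel m f).2 - (cel m g).2 ≤ sd (cel m f) (cel m g) := h2.2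
  have h6 : (cel m g).2 - (cel m f).2 ≤ sd (cel m f) (cel m g) := by linarith [h2.1]
  have k3 := mul_le_mul_of_nonneg_left h3 hm.le
  have k4 := mul_le_mul_of_nonneg_left h4 hm.le
  have k5 := mul_le_mul_of_nonneg_left h5 hm.le
  have k6 := mul_le_mul_of_nonneg_left h6 hm.le
  refine max_le (abs_le.2 ⟨?_, ?_⟩) (abs_le.2 ⟨?_, ?_⟩) <;> nlinarith

theorem sd_cell_le (hm : 0 < m) {f g : ℤ × ℤ} : m * (sd (cel m f) (cel m g) - 1) + 1 ≤ sd f g := by
  obtain ⟨⟨a1, a2⟩, a3, a4⟩ := (cel_eq hm (f := f)).1 rfl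
  obtain ⟨⟨b1, b2⟩, b3, b4⟩ := (cel_eq hm (f := g)).1 rfl
  have h1 : |f.1 - g.1| ≤ sd f g := le_max_left _ _
  have h2 : |f.2 - g.2| ≤ sd f g := le_max_right _ _
  rw [abs_le] at h1 h2
  rcases le_total (|(cel m f).2 - (cel m g).2|) (|(cel m f).1 - (cel m g).1|) with h | h
  · have e : sd (cel m f) (cel m g) = |(cel m f).1 - (cel m g).1| := max_eq_left h
    rw [e]
    rcases abs_cases ((cel m f).1 - (cel m g).1) with ⟨h3, -⟩ | ⟨h3, -⟩
    · rw [h3]; nlinarith
    · rw [h3]; nlinarith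
  · have e : sd (cel m f) (cel m g) = |(cel m f).2 - (cel m g).2| := max_eq_right h
    rw [e]
    rcases abs_cases ((cel m f).2 - (cel m g).2) with ⟨h3, -⟩ | ⟨h3, -⟩
    · rw [h3]; nlinarith
    · rw [h3]; nlinarith

/-! ### The needle of a set of cells -/

variable {C : Finset (ℤ × ℤ)} {z : ℤ × ℤ}

/-- The faces of the needle with `L` cells which walks from the complement of `C` towards `z`. -/
noncomputable def ndF (m : ℤ) (C : Finset (ℤ × ℤ)) (z : ℤ × ℤ) (L : ℕ) : Finset (ℤ × ℤ) :=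
  pthF m (ndc C z) L

/-- The face outside of `C` at which the needle starts. -/
noncomputable def ndB (m : ℤ) (C : Finset (ℤ × ℤ)) (z : ℤ × ℤ) : ℤ × ℤ :=
  gat m (ndc C z 0) (ndc C z 1)

/-- The first face of the needle. -/
noncomputable def ndA (m : ℤ) (C : Finset (ℤ × ℤ)) (z : ℤ × ℤ) : ℤ × ℤ :=
  gat m (ndc C z 1) (ndc C z 0)

section Ndl

set_option linter.unusedSectionVars false

variable (hm : 0 < m) (hL : L ≤ dlt C z)
include hm hL

theorem ndc_hadj : ∀ i < L, ld (ndc C z (i + 1)) (ndc C z i) = 1 := fun _ hi =>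
  ndc_adj (hi.trans_le hL)

theorem ndc_hne : ∀ i, 1 ≤ i → i ≤ L → ndc C z i ≠ ndc C z 0 := by
  intro i h1 hi h
  have := ndc_inj (hi.trans hL) (Nat.zero_le _) h
  omega

theorem ndF_cell {f : ℤ × ℤ} (hf : f ∈ ndF m C z L) :
    ∃ i, 1 ≤ i ∧ i ≤ L ∧ cel m f = ndc C z i :=
  pthF_cell hm (ndc_hadj hm hL) (ndc_hne hm hL) hf

/-- The needle is in `C`. -/
theorem ndF_sub {f : ℤ × ℤ} (hf : f ∈ ndF m C z L) : cel m f ∈ C := by
  obtain ⟨i, h1, h2, h3⟩ := ndF_cell hm hL hf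
  rw [h3]
  exact ndc_mem h1 (h2.trans hL)

theorem ndF_cen {i : ℕ} (h1 : 1 ≤ i) (hi : i ≤ L) : cen m (ndc C z i) ∈ ndF m C z L :=
  cen_mem hm (ndc_hadj hm hL) (ndc_hne hm hL) h1 hi

theorem ndF_start (h1 : 1 ≤ L) : cel m (ndB m C z) ∉ C ∧ ndA m C z ∈ ndF m C z L ∧
    AdjF (ndA m C z) (ndB m C z) := by
  obtain ⟨h2, h3, h4⟩ := pthF_start hm (ndc_hadj hm hL) (ndc_hne hm hL) h1
  refine ⟨?_, h3, h4⟩
  unfold ndB
  rw [h2]
  exact (bse_spec C z).1

/-- The needle is side connected. -/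
theorem ndF_conn {f g : ℤ × ℤ} (hf : f ∈ ndF m C z L) (hg : g ∈ ndF m C z L) :
    ChI (ndF m C z L : Set (ℤ × ℤ)) f g := by
  have h1 := pthF_conn hm (ndc_hadj hm hL) (ndc_hne hm hL) hf
  have h2 := pthF_conn hm (ndc_hadj hm hL) (ndc_hne hm hL) hg
  have h3 : cen m (ndc C z 1) ∈ (ndF m C z L : Set (ℤ × ℤ)) := by
    have h4 : 1 ≤ L := by
      obtain ⟨i, h5, h6, -⟩ := ndF_cell hm hL hf
      omega
    exact Finset.mem_coe.2 (ndF_cen hm hL le_rfl h4)
  exact (ChI.symm h3 h1).trans h2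

/-- A face of the cell number `i` is near the base. -/
theorem ndF_near {f : ℤ × ℤ} {i : ℕ} (hi : i ≤ L) (h0 : 1 ≤ L) (h : cel m f = ndc C z i) :
    sd f (ndB m C z) ≤ m * (i + 1) - 1 := by
  have h1 := sd_face_le hm (f := f) (g := ndB m C z)
  have h2 : cel m (ndB m C z) = ndc C z 0 := (pthF_start hm (ndc_hadj hm hL) (ndc_hne hm hL) h0).1
  rw [h, h2] at h1
  have h3 : sd (ndc C z i) (ndc C z 0) ≤ i := ndc_dist (hi.trans hL)
  have h4 := mul_le_mul_of_nonneg_left h3 hm.le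
  nlinarith

/-- The size of the needle. -/
theorem ndF_diam {f : ℤ × ℤ} (hf : f ∈ ndF m C z L) : sd f (ndB m C z) ≤ m * (L + 1) - 1 := by
  obtain ⟨i, h1, h2, h3⟩ := ndF_cell hm hL hf
  have h4 := ndF_near hm hL h2 (h1.trans h2) h3
  have h5 : (i : ℤ) ≤ L := by exact_mod_cast h2
  have h6 := mul_le_mul_of_nonneg_left h5 hm.le
  nlinarith

/-- **Clearance.** A face outside of `C` is far from the faces of the needle which are far from the
base. -/
theorem ndF_clear {f x : ℤ × ℤ} (hf : f ∈ ndF m C z L) (hx : cel m x ∉ C) :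
    sd f (ndB m C z) - 4 * m + 3 ≤ 2 * sd x f := by
  obtain ⟨i, h1, h2, h3⟩ := ndF_cell hm hL hf
  have h4 := ndF_near hm hL h2 (h1.trans h2) h3
  have h5 := ndc_clear (C := C) (z := z) (h2.trans hL) hx
  have h6 := sd_cell_le hm (f := x) (g := f)
  rw [h3] at h6
  have h7 : m * ((i : ℤ) - 1) ≤ m * (2 * sd (cel m x) (ndc C z i)) :=
    mul_le_mul_of_nonneg_left h5 hm.le
  nlinarith

/-- Clearance in the form of `lab_start`. -/
theorem ndF_free {f x : ℤ × ℤ} {r t : ℤ} (hf : f ∈ ndF m C z L) (hrt : 2 * r + 4 * m ≤ t + 3)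
    (ht : t < sd f (ndB m C z)) (hx : sd x f ≤ r) : cel m x ∈ C := by
  by_contra h
  have := ndF_clear hm hL hf h
  omega

end Ndl

end Pool.Agent.SixB.Ndle
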