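import Pool.Agent.Lib.SixB.S8ErodeG
import Pool.Agent.Lib.SixB.S8BlowR

/-!
# Step 8: unions of components, separated sets, erosion makes no holes

* `Uoc S X`: `S` is a union of edge components of `X`; the components of `S` are components of `X`;
* `Sep S T`: `S` and `T` are disjoint and have no common side;
* `esc_er3`: the erosion of a set without holes has no holes;
* `er3_blow`: the erosion of the magnified set is the magnification of the erosion.
-/

set_option autoImplicit false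

namespace Pool.Agent.SixB.Mv

open Pool.Agent.Perc Pool.Agent.Perc6 Pool.Agent.SixB.EndApp Pool.Agent.SixB.Top
open Pool.Agent.SixB.Blow (cl exists_cl)

variable {S T X Y P : Set (ℤ × ℤ)} {f g : ℤ × ℤ}

/-! ### Unions of components -/

/-- `S` is a union of edge components of `X`. -/
structure Uoc (S X : Set (ℤ × ℤ)) : Prop where
  sub : S ⊆ X
  clo : ∀ f ∈ S, ∀ g ∈ X, AdjF f g → g ∈ S

theorem Uoc.refl (X : Set (ℤ × ℤ)) : Uoc X X := ⟨Set.Subset.rfl, fun _ _ _ hg _ => hg⟩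

theorem Uoc.trans (h : Uoc S X) (h' : Uoc X Y) : Uoc S Y :=
  ⟨h.sub.trans h'.sub, fun f hf g hg hfg => h.clo f hf g (h'.clo f (h.sub hf) g hg hfg) hfg⟩

theorem Uoc.chI (h : Uoc S X) (hf : f ∈ S) (hc : ChI X f g) : ChI S f g := by
  induction hc with
  | refl => exact ChI.refl _
  | @tail b c _ hs ih => exact ih.tail ⟨hs.1, h.clo b (ChI.mem hf ih) c hs.2 hs.1⟩

theorem Uoc.mem (h : Uoc S X) (hf : f ∈ S) (hc : ChI X f g) : g ∈ S := ChI.mem hf (h.chI hf hc)

/-- **The components of `S` are components of `X`.** -/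
theorem Uoc.compT (h : Uoc S X) (hf : f ∈ S) : Top.compT S f = Top.compT X f :=
  Set.ext fun _ => ⟨fun hc => ChI.mono h.sub hc, fun hc => h.chI hf hc⟩

theorem uoc_compT (hf : f ∈ X) : Uoc (Top.compT X f) X :=
  ⟨compT_sub hf, fun _ hx _ hy hxy => compT_step hx hxy hy⟩

theorem Uoc.compT_sub (h : Uoc S X) (hf : f ∈ S) : Top.compT X f ⊆ S := fun _ hg => h.mem hf hg

theorem Uoc.union (h : Uoc S X) (h' : Uoc T X) : Uoc (S ∪ T) X :=
  ⟨Set.union_subset h.sub h'.sub, fun f hf g hg hfg => hf.elim (fun h1 => Or.inl (h.clo f h1 g hg hfg))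
    fun h1 => Or.inr (h'.clo f h1 g hg hfg)⟩

theorem Uoc.diff (h : Uoc S X) (h' : Uoc T X) : Uoc (S \ T) X :=
  ⟨fun _ hf => h.sub hf.1, fun f hf g hg hfg =>
    ⟨h.clo f hf.1 g hg hfg, fun hgT => hf.2 (h'.clo g hgT f (h.sub hf.1) hfg.symm)⟩⟩

theorem Uoc.compl (h : Uoc S X) : Uoc (X \ S) X := (Uoc.refl X).diff h

theorem Uoc.of_sub (h : Uoc S X) (hS : S ⊆ Y) (hY : Y ⊆ X) : Uoc S Y :=
  ⟨hS, fun f hf g hg hfg => h.clo f hf g (hY hg) hfg⟩

theorem Uoc.inter (h : Uoc S X) : Uoc (S ∩ T) (X ∩ T) :=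
  ⟨fun _ hf => ⟨h.sub hf.1, hf.2⟩, fun f hf g hg hfg => ⟨h.clo f hf.1 g hg.1 hfg, hg.2⟩⟩

theorem Uoc.esc (h : Uoc S X) (hX : X.Finite) (he : Esc X) : Esc S := by
  obtain ⟨x₀, x₁, y₀, y₁, hb⟩ := exists_RF hX
  exact he.component h.sub hb h.clo

/-! ### Separated sets -/

/-- `S` and `T` are disjoint and have no common side. -/
structure Sep (S T : Set (ℤ × ℤ)) : Prop where
  dis : ∀ f ∈ S, f ∉ T
  adj : ∀ f ∈ S, ∀ g ∈ T, ¬ AdjF f g

theorem Sep.symm (h : Sep S T) : Sep T S :=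
  ⟨fun f hf hS => h.dis f hS hf, fun f hf g hg hfg => h.adj g hg f hf hfg.symm⟩

theorem Sep.mono {S' T' : Set (ℤ × ℤ)} (h : Sep S T) (hS : S' ⊆ S) (hT : T' ⊆ T) : Sep S' T' :=
  ⟨fun f hf hT' => h.dis f (hS hf) (hT hT'), fun f hf g hg => h.adj f (hS hf) g (hT hg)⟩

theorem Sep.union (h : Sep S X) (h' : Sep T X) : Sep (S ∪ T) X :=
  ⟨fun f hf => hf.elim (h.dis f) (h'.dis f), fun f hf => hf.elim (h.adj f) (h'.adj f)⟩

theorem Uoc.sep (h : Uoc S X) : Sep S (X \ S) :=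
  ⟨fun _ hf hx => hx.2 hf, fun f hf g hg hfg => hg.2 (h.clo f hf g hg.1 hfg)⟩

theorem Sep.uoc (h : Sep S T) : Uoc S (S ∪ T) :=
  ⟨Set.subset_union_left, fun f hf g hg hfg => hg.elim id fun hT => absurd hfg (h.adj f hf g hT)⟩

theorem Sep.compT_left (h : Sep S T) (hf : f ∈ S) :
    Top.compT (S ∪ T) f = Top.compT S f := (h.uoc.compT hf).symm

theorem Sep.compT_right (h : Sep S T) (hf : f ∈ T) :
    Top.compT (S ∪ T) f = Top.compT T f := by
  rw [Set.union_comm]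
  exact h.symm.compT_left hf

/-- Two unions of components of `X` without a common face are separated. -/
theorem Uoc.sep_of (h : Uoc S X) (h' : Uoc T X) (hd : ∀ f ∈ S, f ∉ T) : Sep S T :=
  ⟨hd, fun f hf g hg hfg => hd g (h.clo f hf g (h'.sub hg) hfg) hg⟩

/-! ### Erosion -/

variable {ι : Type*} {c : ℤ × ℤ → ι}

theorem esc_er0 (hc : CellC c) (h : Esc P) : Esc (er0 c P) := by
  intro f hf R
  have hex : ∃ y, c y = c f ∧ y ∉ P := by
    by_contra hcon
    push Not at hcon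
    exact hf fun y hy => hcon y hy
  obtain ⟨y, hy, hyP⟩ := hex
  obtain ⟨g, hg, hch⟩ := h y hyP R
  have key : ∀ x ∈ {x | c x = c f}, x ∉ er0 c P := fun x hx hxe =>
    hyP (hxe y (hy.trans (Eq.symm hx)))
  exact ⟨g, hg, ((hc f y hy.symm).stepC key).trans (chain_mono er0_sub hch)⟩

theorem esc_er (hc : CellC c) (h : Esc S) : Esc (er Adj c S) := by
  intro f hf R
  by_cases hfS : f ∈ S
  · have hex : ∃ y, c y = c f ∧ ∃ x, Adj y x ∧ x ∉ S := by
      by_contra hcon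
      push Not at hcon
      exact hf ⟨hfS, fun y hy x hyx => hcon y hy x hyx⟩
    obtain ⟨y, hy, x, hyx, hx⟩ := hex
    obtain ⟨g, hg, hch⟩ := h x hx R
    have key : ∀ z ∈ {z | c z = c f}, z ∉ er Adj c S := fun z hz hze =>
      hx (hze.2 y (hy.trans (Eq.symm hz)) x hyx)
    exact ⟨g, hg, (((hc f y hy.symm).stepC key).tail
      ⟨adj_iff_adjFL.1 hyx, fun hh => hx (er_sub hh)⟩).trans (chain_mono er_sub hch)⟩
  · obtain ⟨g, hg, hch⟩ := h f hfS R
    exact ⟨g, hg, chain_mono er_sub hch⟩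

/-- **The erosion makes no holes.** -/
theorem esc_er3 (hc : CellC c) (h : Esc P) : Esc (er3 c P) := esc_er hc (esc_er hc (esc_er0 hc h))

theorem esc_er3_gc {a b L : ℤ} (hL : 0 < L) (h : Esc P) : Esc (er3 (gc a b L) P) :=
  esc_er3 (cellC_gc hL) h

/-- **Erosion and magnification.** -/
theorem er3_blow {u : ℕ} (hu : 0 < u) {a b L : ℤ} (hL : 0 < L) :
    er3 (gc (u * a) (u * b) (u * L)) (blow u P) = blow u (er3 (gc a b L) P) := by
  have hu' : (0 : ℤ) < u := by exact_mod_cast hu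
  have huL : 0 < (u : ℤ) * L := by positivity
  ext f
  rw [mem_er3_gc huL]
  show (∀ g, nmd (gc (u * a) (u * b) (u * L) g) (gc (u * a) (u * b) (u * L) f) ≤ 2 →
    cl u g ∈ P) ↔ cl u f ∈ er3 (gc a b L) P
  rw [mem_er3_gc hL]
  simp only [Blow.gc_cl hu]
  constructor
  · intro h g hg
    obtain ⟨x, rfl⟩ := exists_cl hu' g
    exact h x hg
  · exact fun h g hg => h _ hg

/-! ### Components and magnification -/

theorem Uoc.blow {m : ℤ} (hm : 0 < m) (h : Uoc S X) : Uoc (blow m S) (blow m X) := by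
  refine ⟨fun _ hf => h.sub hf, fun f hf g hg hfg => ?_⟩
  rcases Blow.adj_cl hm hfg with h1 | h1
  · show cl m g ∈ S
    rw [← h1]
    exact hf
  · exact h.clo _ hf _ hg h1

theorem Sep.blow {m : ℤ} (hm : 0 < m) (h : Sep S T) : Sep (blow m S) (blow m T) := by
  refine ⟨fun f hf => h.dis _ hf, fun f hf g hg hfg => ?_⟩
  rcases Blow.adj_cl hm hfg with h1 | h1
  · refine h.dis _ hf ?_
    show cl m f ∈ T
    rw [h1]
    exact hg
  · exact h.adj _ hf _ hg h1

end Pool.Agent.SixB.Mv
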