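import Pool.Agent.Lib.SixB.S8StateF
import Pool.Agent.Lib.SixB.S8Uoc

/-!
# Step 8, unit 8H: the update of the coarse state

Part 1 (`Dom`): the entered set is the set `entV` of the face `stp` which is entered; if the step does
not end, the new tip side is a side of the new set next to the entered set (`nxA_spec`), and the new
domain is a disc with two sides (`ok_next`), if the removal of `rem` makes no holes; the stored part
`lef` is a union of components of `P \ rem`, separated from the new set.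

Part 2 (`CSt`): `CSt.Inv`: the stored set is finite, its components have no holes, it is separated from
the running domain. It is preserved by every stage (`CSt.Inv.mv`). The components of the new stored
set: `compT_mv_old`, `compT_mv_lef`, `compT_plant_out`, `compT_plant_in`.
-/

set_option autoImplicit false

namespace Pool.Agent.SixB.Mv

open Pool.Agent.Perc Pool.Agent.Perc6 Pool.Agent.Perc6.C2Aux Pool.Agent.Perc.Tips
open Pool.Agent.SixB.Top Pool.Agent.SixB.EndApp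

/-! ### Part 1: the new domain -/

namespace Dom

variable {s : Dom} {g : Grd} {ρ : Rec}

/-- The run number of the record is the number of a run. -/
def RecOk (s : Dom) (g : Grd) (ρ : Rec) : Prop := ¬ s.Void g → s.runI g ρ.2 < s.n₂ g

/-- The entered set. -/
theorem ent_eq (s : Dom) (g : Grd) (ρ : Rec) :
    s.ent g ρ = entV (s.dom g) s.A (s.p g) (s.q g) g.nm (s.stp g ρ) := rfl

theorem stp_void (hv : s.Void g) : s.stp g ρ = ahead s.A := by
  unfold stp
  rw [if_pos hv]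

theorem stp_reg (hv : ¬ s.Void g) : s.stp g ρ = outF (s.inr g) s.A (s.runI g ρ.2) := by
  unfold stp
  rw [if_neg hv]

theorem stp_mem_ent (s : Dom) (g : Grd) (ρ : Rec) : s.stp g ρ ∈ s.ent g ρ := self_mem_entV

theorem ent_sub_rem (s : Dom) (g : Grd) (ρ : Rec) : s.ent g ρ ⊆ s.rem g ρ := by
  by_cases hv : s.Void g
  · rw [rem_void s g hv]
  · rw [rem_reg s g hv]
    exact Set.subset_union_right

/-- The true record has the number of a run. -/
theorem recOk_rcd {c i : ℕ} {N : Set (ℤ × ℤ)} (hi : s.n₁ g ≤ i) (hi' : i < s.n₂ g)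
    (hc : s.rno g i ≤ c) : s.RecOk g (s.rcd g c N i) := by
  intro hv
  rw [rcd_snd, min_eq_left hc]
  have := (rn_eq_iff (a := g.a) (b := g.b) (L := g.L) (G := s.inr g) (A := s.A) (N₁ := s.n₁ g)
    (N₂ := s.n₂ g) (r := s.rno g i) hi hi').1 rfl
  exact lt_of_le_of_lt this.1 hi'

namespace Val

variable (h : s.Val g)

include h

theorem stp_mem (hρ : s.RecOk g ρ) : s.stp g ρ ∈ s.bar g := by
  by_cases hv : s.Void g
  · rw [stp_void hv]
    exact hv
  · rw [stp_reg hv]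
    have h1 : s.n₁ g ≤ s.runI g ρ.2 := le_rs
    exact ((h.mem_stI hv).2 ⟨h1, hρ hv⟩).2

theorem ent_sub_bar (hρ : s.RecOk g ρ) : s.ent g ρ ⊆ s.bar g := by
  rw [ent_eq]
  exact entV_sub_barV h.bdD (h.stp_mem hρ)

theorem ent_sub_dom (hρ : s.RecOk g ρ) : s.ent g ρ ⊆ s.dom g :=
  (h.ent_sub_bar hρ).trans h.bar_sub

theorem ent_sub_P (hρ : s.RecOk g ρ) : s.ent g ρ ⊆ s.P := fun _ hf =>
  (h.dom_sub (h.ent_sub_dom hρ hf)).1

theorem econn_ent (hρ : s.RecOk g ρ) : Top.EConn (s.ent g ρ) := by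
  rw [ent_eq]
  exact econn_entV h.bdD (h.stp_mem hρ)

theorem sat_ent (hρ : s.RecOk g ρ) : Sat (s.dom g) g.nm (s.ent g ρ) := by
  rw [ent_eq]
  exact sat_entV h.bdD (h.stp_mem hρ)

/-- The entered set has a face at the stop arc of the domain. -/
theorem ent_layer (hρ : s.RecOk g ρ) :
    ∃ i, s.p g ≤ i ∧ i ≤ s.q g ∧ inF (s.dom g) s.A i ∈ s.ent g ρ := by
  obtain ⟨i, h1, h2, h3, -⟩ := entV_spec (h.stp_mem hρ)
  rw [ent_eq]
  exact ⟨i, h1, h2, h3⟩

theorem rem_sub_dom (hρ : s.RecOk g ρ) : s.rem g ρ ⊆ s.dom g := by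
  by_cases hv : s.Void g
  · rw [rem_void s g hv]
    exact h.ent_sub_dom hρ
  · rw [rem_reg s g hv]
    exact Set.union_subset (fun f hf => (h.inr_sub hv hf.1).1) (h.ent_sub_dom hρ)

/-- The removed faces of the barrier are the faces of the entered set. -/
theorem rem_bar {f : ℤ × ℤ} (hf : f ∈ s.rem g ρ) (hb : f ∈ s.bar g) : f ∈ s.ent g ρ := by
  by_cases hv : s.Void g
  · rwa [rem_void s g hv] at hf
  · rw [rem_reg s g hv] at hf
    exact hf.elim (fun h1 => absurd hb (h.inr_sub hv h1.1).2) id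

/-- **The new tip side exists.** -/
theorem exists_nxA (hρ : s.RecOk g ρ) (hE : ¬ s.End g ρ) :
    ∃ x, BD (s.nxP g ρ) x ∧ ahead (rv x) ∈ s.ent g ρ := by
  obtain ⟨i, h1, h2, h3⟩ := h.ent_layer hρ
  exact adj_entV h.con h.bdB (fun f hf => (h.dom_sub hf).1) h.arcsE (h.rem_sub_dom hρ)
    (fun f hf hb => h.rem_bar hf hb) (ent_sub_rem s g ρ)
    ⟨_, onO_sub_onV h.bdD ⟨i, h1, h2, rfl⟩, h3⟩ hE

/-- **The new tip side.** -/
theorem nxA_spec (hρ : s.RecOk g ρ) (hE : ¬ s.End g ρ) :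
    BD (s.nxP g ρ) (s.nxA g ρ) ∧ ahead (rv (s.nxA g ρ)) ∈ s.ent g ρ :=
  Classical.epsilon_spec (h.exists_nxA hρ hE)

theorem nxA_ne (hρ : s.RecOk g ρ) (hE : ¬ s.End g ρ) : s.nxA g ρ ≠ s.B := fun he =>
  h.bdB.2 (h.ent_sub_P hρ (he ▸ (h.nxA_spec hρ hE).2))

/-- **The new domain is a disc with two sides.** -/
theorem ok_next (hρ : s.RecOk g ρ) (hE : ¬ s.End g ρ) (he : Esc (s.P \ s.rem g ρ)) :
    (s.nx g ρ).Ok where
  fin := h.fin_next hE
  con := h.con_next hE
  esc := h.esc_next hE he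
  bdA := (h.nxA_spec hρ hE).1
  bdB := h.bdB_next hE
  ne := h.nxA_ne hρ hE

end Val

/-- The stored part is a union of components of `P \ rem`. -/
theorem uoc_lef (s : Dom) (g : Grd) (ρ : Rec) : Uoc (s.lef g ρ) (s.P \ s.rem g ρ) where
  sub := fun _ hf => hf.1
  clo := by
    rintro f ⟨hf, hB, x, hx, hxf, hxo⟩ k hk hfk
    have e : compT (s.P \ s.rem g ρ) k = compT (s.P \ s.rem g ρ) f :=
      compT_eq hf (compT_step self_mem_compT hfk hk)
    exact ⟨hk, by rw [e]; exact hB, x, hx, by rw [e]; exact hxf, hxo⟩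

theorem lef_sub (s : Dom) (g : Grd) (ρ : Rec) : s.lef g ρ ⊆ s.P := fun _ hf => hf.1.1

/-- The stored part is separated from the new set. -/
theorem Val.sep_lef (h : s.Val g) (hE : ¬ s.End g ρ) : Sep (s.lef g ρ) (s.nxP g ρ) := by
  refine (uoc_lef s g ρ).sep_of (uoc_compT (h.tgt_rem hE)) fun f hf hn => ?_
  have e : compT (s.P \ s.rem g ρ) f = compT (s.P \ s.rem g ρ) (ahead s.B) :=
    compT_eq (h.tgt_rem hE) hn
  exact hf.2.1 (by rw [e]; exact self_mem_compT)

end Dom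

/-! ### Part 2: the state of the scan -/

namespace CSt

variable {σ : CSt} {π : Prm} {L M : ℤ} {ρ : Rec} {s : Dom} {f z : ℤ × ℤ} {W : Set (ℤ × ℤ)}

/-- The component in which the next needle is placed. -/
def cmp (σ : CSt) (π : Prm) (L : ℤ) : Set (ℤ × ℤ) :=
  compT (erW σ.W L (π.zt σ.j)) (π.zt σ.j)

/-- A needle is placed. -/
def Plant (σ : CSt) (π : Prm) (L : ℤ) : Prop :=
  σ.j < π.m ∧ π.zt σ.j ∈ erW σ.W L (π.zt σ.j) ∧ π.act (σ.cmp π L) (π.zt σ.j) ∧
    (dom₀ π (σ.cmp π L) (π.zt σ.j)).Ok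

theorem mv_ini_eq (hr : σ.run = some s) (hi : σ.ini = true) :
    σ.mv π L M ρ = ⟨σ.W, some s, σ.j, false⟩ := by
  unfold mv
  rw [hr]
  simp only [hi, if_true]

open Classical in
theorem mv_run_eq (hr : σ.run = some s) (hi : σ.ini = false) :
    σ.mv π L M ρ = ⟨σ.W ∪ s.lef (s.grd L M) ρ,
      if s.End (s.grd L M) ρ ∨ ¬ (s.nx (s.grd L M) ρ).Ok then none
      else some (s.nx (s.grd L M) ρ), σ.j, false⟩ := by
  unfold mv
  rw [hr]
  simp only [hi, Bool.false_eq_true, if_false]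

theorem mv_plant_eq (hr : σ.run = none) (hp : σ.Plant π L) :
    σ.mv π L M ρ = ⟨erW σ.W L (π.zt σ.j) \ (π.ndl (σ.cmp π L) (π.zt σ.j) ∪
      (dom₀ π (σ.cmp π L) (π.zt σ.j)).P), some (dom₀ π (σ.cmp π L) (π.zt σ.j)), σ.j + 1, true⟩ := by
  unfold mv
  rw [hr]
  exact if_pos hp

theorem mv_idle_eq (hr : σ.run = none) (hp : ¬ σ.Plant π L) :
    σ.mv π L M ρ = ⟨σ.W, none, σ.j + 1, false⟩ := by
  unfold mv
  rw [hr]
  exact if_neg hp

/-! #### The set with an eroded component -/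

theorem erW_eq (hz : z ∈ W) :
    erW W L z = (W \ compT W z) ∪ er3 (gc 0 0 L) (compT W z) := by
  unfold erW
  rw [Set.inter_eq_left.2 (er3_subset.trans (Top.compT_sub hz))]

theorem erW_subset : erW W L z ⊆ W := by
  rintro f (hf | hf)
  · exact hf.1
  · exact hf.2

theorem sep_erW (hz : z ∈ W) : Sep (W \ compT W z) (er3 (gc 0 0 L) (compT W z)) :=
  ((uoc_compT hz).sep.symm).mono Set.Subset.rfl er3_subset

/-- A face outside the component of `z`: its component is unchanged. -/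
theorem compT_erW_out (hz : z ∈ W) (hf : f ∈ W) (hfz : f ∉ compT W z) :
    compT (erW W L z) f = compT W f := by
  rw [erW_eq hz, (sep_erW hz).compT_left ⟨hf, hfz⟩]
  exact (uoc_compT hz).compl.compT ⟨hf, hfz⟩

/-- A face of the eroded component. -/
theorem compT_erW_in (hz : z ∈ W) (hf : f ∈ er3 (gc 0 0 L) (compT W z)) :
    compT (erW W L z) f = compT (er3 (gc 0 0 L) (compT W z)) f := by
  rw [erW_eq hz, (sep_erW hz).compT_right hf]

theorem mem_er3_of (hf : f ∈ erW W L z) (h : f ∈ compT W z) :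
    f ∈ er3 (gc 0 0 L) (compT W z) := by
  rcases hf with h2 | h2
  · exact absurd h h2.2
  · exact h2.1

/-- The component of `z` in the set with the eroded component. -/
theorem compT_erW_self (hz : z ∈ erW W L z) :
    compT (erW W L z) z = compT (er3 (gc 0 0 L) (compT W z)) z :=
  compT_erW_in (erW_subset hz) (mem_er3_of hz self_mem_compT)

/-- **The components of the set with the eroded component have no holes.** -/
theorem esc_erW (hL : 0 < L) (hW : W.Finite) (hz : z ∈ W) (hE : ∀ f ∈ W, Esc (compT W f))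
    (hf : f ∈ erW W L z) : Esc (compT (erW W L z) f) := by
  by_cases h : f ∈ compT W z
  · have h1 := mem_er3_of hf h
    rw [compT_erW_in hz h1]
    exact esc_compT (er3_finite (hW.subset (Top.compT_sub hz))) (esc_er3_gc hL (hE z hz)) h1
  · rw [compT_erW_out hz (erW_subset hf) h]
    exact hE f (erW_subset hf)

/-! #### The stage in which a needle is placed -/

/-- The conditions on the cells of the needle. -/
structure NdlOk (π : Prm) (C : Set (ℤ × ℤ)) (z : ℤ × ℤ) : Prop where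
  sub : π.ndl C z ⊆ C
  esc : Esc (C \ π.ndl C z)
  mem : z ∈ C \ π.ndl C z

/-- The parts of the new stored set. -/
theorem plant_W (hp : σ.Plant π L) (hn : NdlOk π (σ.cmp π L) (π.zt σ.j)) :
    erW σ.W L (π.zt σ.j) \ (π.ndl (σ.cmp π L) (π.zt σ.j) ∪
      (dom₀ π (σ.cmp π L) (π.zt σ.j)).P) =
    (erW σ.W L (π.zt σ.j) \ σ.cmp π L) ∪
      ((σ.cmp π L \ π.ndl (σ.cmp π L) (π.zt σ.j)) \ (dom₀ π (σ.cmp π L) (π.zt σ.j)).P) := by
  have hC : σ.cmp π L ⊆ erW σ.W L (π.zt σ.j) := Top.compT_sub hp.2.1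
  have hP : (dom₀ π (σ.cmp π L) (π.zt σ.j)).P ⊆ σ.cmp π L := fun f hf =>
    (Top.compT_sub hn.mem hf).1
  ext f
  simp only [Set.mem_sdiff, Set.mem_union, not_or]
  constructor
  · rintro ⟨h1, h2, h3⟩
    by_cases hf : f ∈ σ.cmp π L
    · exact Or.inr ⟨⟨hf, h2⟩, h3⟩
    · exact Or.inl ⟨h1, hf⟩
  · rintro (⟨h1, h2⟩ | ⟨⟨h1, h2⟩, h3⟩)
    · exact ⟨h1, fun h => h2 (hn.sub h), fun h => h2 (hP h)⟩
    · exact ⟨hC h1, h2, h3⟩

/-- The two parts are separated. -/
theorem plant_sep (hp : σ.Plant π L) {X : Set (ℤ × ℤ)} (hX : X ⊆ σ.cmp π L) :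
    Sep (erW σ.W L (π.zt σ.j) \ σ.cmp π L) X :=
  ((uoc_compT hp.2.1).sep.symm).mono Set.Subset.rfl hX

/-- The first domain is separated from the new stored set. -/
theorem plant_sep_dom (hp : σ.Plant π L) (hn : NdlOk π (σ.cmp π L) (π.zt σ.j)) :
    Sep (erW σ.W L (π.zt σ.j) \ (π.ndl (σ.cmp π L) (π.zt σ.j) ∪
      (dom₀ π (σ.cmp π L) (π.zt σ.j)).P)) (dom₀ π (σ.cmp π L) (π.zt σ.j)).P := by
  rw [plant_W hp hn]
  refine Sep.union (plant_sep hp fun f hf => (Top.compT_sub hn.mem hf).1) ?_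
  exact (uoc_compT hn.mem).sep.symm

/-- A component of the new stored set outside the component of the needle. -/
theorem compT_plant_out (hp : σ.Plant π L) (hn : NdlOk π (σ.cmp π L) (π.zt σ.j))
    (hf : f ∈ erW σ.W L (π.zt σ.j) \ σ.cmp π L) :
    compT (erW σ.W L (π.zt σ.j) \ (π.ndl (σ.cmp π L) (π.zt σ.j) ∪
      (dom₀ π (σ.cmp π L) (π.zt σ.j)).P)) f = compT (erW σ.W L (π.zt σ.j)) f := by
  rw [plant_W hp hn, (plant_sep hp fun x hx => hx.1.1).compT_left hf]
  exact (uoc_compT hp.2.1).compl.compT hf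

/-- A component of the new stored set in the component of the needle. -/
theorem compT_plant_in (hp : σ.Plant π L) (hn : NdlOk π (σ.cmp π L) (π.zt σ.j))
    (hf : f ∈ (σ.cmp π L \ π.ndl (σ.cmp π L) (π.zt σ.j)) \
      (dom₀ π (σ.cmp π L) (π.zt σ.j)).P) :
    compT (erW σ.W L (π.zt σ.j) \ (π.ndl (σ.cmp π L) (π.zt σ.j) ∪
      (dom₀ π (σ.cmp π L) (π.zt σ.j)).P)) f =
      compT (σ.cmp π L \ π.ndl (σ.cmp π L) (π.zt σ.j)) f := by
  rw [plant_W hp hn, (plant_sep hp fun x hx => hx.1.1).compT_right hf]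
  exact (uoc_compT hn.mem).compl.compT hf

/-- **A component of the new stored set which is not in the old component of the target** is an old
component. -/
theorem compT_plant_old (hp : σ.Plant π L) (hn : NdlOk π (σ.cmp π L) (π.zt σ.j))
    (hf : f ∈ σ.W) (hfz : f ∉ compT σ.W (π.zt σ.j)) :
    compT (erW σ.W L (π.zt σ.j) \ (π.ndl (σ.cmp π L) (π.zt σ.j) ∪
      (dom₀ π (σ.cmp π L) (π.zt σ.j)).P)) f = compT σ.W f := by
  have hz := erW_subset hp.2.1
  have hsub : σ.cmp π L ⊆ compT σ.W (π.zt σ.j) := compT_mono erW_subset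
  have h1 : f ∈ erW σ.W L (π.zt σ.j) := Or.inl ⟨hf, hfz⟩
  rw [compT_plant_out hp hn ⟨h1, fun h => hfz (hsub h)⟩, compT_erW_out hz hf hfz]

/-- **A component of the new stored set in the old component `C'` of the target** is a component of
the eroded `C'` without the needle. -/
theorem compT_plant_new (hp : σ.Plant π L) (hn : NdlOk π (σ.cmp π L) (π.zt σ.j))
    (hf : f ∈ erW σ.W L (π.zt σ.j) \ (π.ndl (σ.cmp π L) (π.zt σ.j) ∪
      (dom₀ π (σ.cmp π L) (π.zt σ.j)).P)) (hfz : f ∈ compT σ.W (π.zt σ.j)) :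
    compT (erW σ.W L (π.zt σ.j) \ (π.ndl (σ.cmp π L) (π.zt σ.j) ∪
      (dom₀ π (σ.cmp π L) (π.zt σ.j)).P)) f =
      compT (er3 (gc 0 0 L) (compT σ.W (π.zt σ.j)) \ π.ndl (σ.cmp π L) (π.zt σ.j)) f := by
  have hz := erW_subset hp.2.1
  have hfe := mem_er3_of hf.1 hfz
  have eC : σ.cmp π L = compT (er3 (gc 0 0 L) (compT σ.W (π.zt σ.j))) (π.zt σ.j) :=
    compT_erW_self hp.2.1
  have hze : π.zt σ.j ∈ er3 (gc 0 0 L) (compT σ.W (π.zt σ.j)) := mem_er3_of hp.2.1 self_mem_compT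
  have huC : Uoc (σ.cmp π L) (er3 (gc 0 0 L) (compT σ.W (π.zt σ.j))) := by
    rw [eC]
    exact uoc_compT hze
  by_cases hfC : f ∈ σ.cmp π L
  · rw [compT_plant_in hp hn ⟨⟨hfC, fun h => hf.2 (Or.inl h)⟩, fun h => hf.2 (Or.inr h)⟩]
    refine (Uoc.compT (S := σ.cmp π L \ π.ndl (σ.cmp π L) (π.zt σ.j)) ?_
      ⟨hfC, fun h => hf.2 (Or.inl h)⟩)
    exact ⟨fun x hx => ⟨huC.sub hx.1, hx.2⟩, fun x hx y hy hxy =>
      ⟨huC.clo x hx.1 y hy.1 hxy, hy.2⟩⟩
  · rw [compT_plant_out hp hn ⟨hf.1, hfC⟩, compT_erW_in hz hfe]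
    have h1 := huC.compl.compT ⟨hfe, hfC⟩
    rw [← h1]
    refine Uoc.compT (S := er3 (gc 0 0 L) (compT σ.W (π.zt σ.j)) \ σ.cmp π L) ?_ ⟨hfe, hfC⟩
    exact ⟨fun x hx => ⟨hx.1, fun h => hx.2 (hn.sub h)⟩, fun x hx y hy hxy =>
      ⟨hy.1, fun h => hx.2 (huC.clo y h x hx.1 hxy.symm)⟩⟩

/-! #### The invariant -/

/-- The invariant of the coarse state: the stored set is finite, its components have no holes, it is
separated from the running domain. -/
structure Inv (σ : CSt) : Prop where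
  fin : σ.W.Finite
  esc : ∀ f ∈ σ.W, Esc (compT σ.W f)
  sep : ∀ s, σ.run = some s → Sep σ.W s.P

/-- The components of the stored set after a move: old ones. -/
theorem compT_mv_old (h : Sep σ.W s.P) (g : Grd) (ρ : Rec) (hf : f ∈ σ.W) :
    compT (σ.W ∪ s.lef g ρ) f = compT σ.W f :=
  (h.mono Set.Subset.rfl (Dom.lef_sub s g ρ)).compT_left hf

/-- The components of the stored set after a move: new ones. -/
theorem compT_mv_lef (h : Sep σ.W s.P) (g : Grd) (ρ : Rec) (hf : f ∈ s.lef g ρ) :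
    compT (σ.W ∪ s.lef g ρ) f = compT (s.P \ s.rem g ρ) f := by
  rw [(h.mono Set.Subset.rfl (Dom.lef_sub s g ρ)).compT_right hf]
  exact (Dom.uoc_lef s g ρ).compT hf

/-- The stored set after a move. -/
theorem esc_mv (hI : σ.Inv) (hs : Sep σ.W s.P) (hP : s.P.Finite) {g : Grd} {ρ : Rec}
    (he : Esc (s.P \ s.rem g ρ)) (f : ℤ × ℤ) (hf : f ∈ σ.W ∪ s.lef g ρ) :
    Esc (compT (σ.W ∪ s.lef g ρ) f) := by
  rcases hf with hf | hf
  · rw [compT_mv_old hs g ρ hf]
    exact hI.esc f hf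
  · rw [compT_mv_lef hs g ρ hf]
    exact esc_compT (hP.subset Set.sdiff_subset) he hf.1

/-- **The invariant is preserved.** -/
theorem Inv.mv (hI : σ.Inv) (hL : 0 < L)
    (hval : ∀ s, σ.run = some s → σ.ini = false → s.Val (s.grd L M))
    (hesc : ∀ s, σ.run = some s → σ.ini = false → Esc (s.P \ s.rem (s.grd L M) ρ))
    (hndl : σ.run = none → σ.Plant π L → NdlOk π (σ.cmp π L) (π.zt σ.j)) :
    (σ.mv π L M ρ).Inv := by
  classical
  rcases hr : σ.run with _ | s
  · by_cases hp : σ.Plant π L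
    · have hn := hndl hr hp
      have hz := erW_subset hp.2.1
      rw [mv_plant_eq hr hp]
      refine ⟨hI.fin.subset fun f hf => erW_subset hf.1, ?_, ?_⟩
      · intro f hf
        by_cases hfC : f ∈ σ.cmp π L
        · have h1 : f ∈ (σ.cmp π L \ π.ndl (σ.cmp π L) (π.zt σ.j)) \
              (dom₀ π (σ.cmp π L) (π.zt σ.j)).P :=
            ⟨⟨hfC, fun h => hf.2 (Or.inl h)⟩, fun h => hf.2 (Or.inr h)⟩
          show Esc (compT (erW σ.W L (π.zt σ.j) \ (π.ndl (σ.cmp π L) (π.zt σ.j) ∪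
            (dom₀ π (σ.cmp π L) (π.zt σ.j)).P)) f)
          rw [compT_plant_in hp hn h1]
          refine esc_compT (hI.fin.subset fun x hx => ?_) hn.esc h1.1
          exact erW_subset (Top.compT_sub hp.2.1 hx.1)
        · show Esc (compT (erW σ.W L (π.zt σ.j) \ (π.ndl (σ.cmp π L) (π.zt σ.j) ∪
            (dom₀ π (σ.cmp π L) (π.zt σ.j)).P)) f)
          rw [compT_plant_out hp hn ⟨hf.1, hfC⟩]
          exact esc_erW hL hI.fin hz hI.esc hf.1
      · intro s hs
        have e : s = dom₀ π (σ.cmp π L) (π.zt σ.j) := (Option.some.inj hs).symm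
        rw [e]
        exact plant_sep_dom hp hn
    · rw [mv_idle_eq hr hp]
      exact ⟨hI.fin, hI.esc, fun s hs => by cases hs⟩
  · rcases hi : σ.ini with _ | _
    · have hv := hval s hr hi
      have hs := hI.sep s hr
      rw [mv_run_eq hr hi]
      refine ⟨hI.fin.union (hv.fin.subset (Dom.lef_sub s _ ρ)), ?_, ?_⟩
      · exact esc_mv hI hs hv.fin (hesc s hr hi)
      · intro s' hs'
        have hs'' : (if s.End (s.grd L M) ρ ∨ ¬ (s.nx (s.grd L M) ρ).Ok then none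
          else some (s.nx (s.grd L M) ρ)) = some s' := hs'
        split_ifs at hs'' with h1
        have e : s' = s.nx (s.grd L M) ρ := (Option.some.inj hs'').symm
        have hE : ¬ s.End (s.grd L M) ρ := fun h => h1 (Or.inl h)
        rw [e]
        exact (hs.mono Set.Subset.rfl fun f hf => (hv.nxP_sub hE hf).1).union (hv.sep_lef hE)
    · rw [mv_ini_eq hr hi]
      exact ⟨hI.fin, hI.esc, fun s' hs' => hI.sep s' (hr.trans hs')⟩

end CSt

end Pool.Agent.SixB.Mv
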