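import Pool.Agent.Lib.SixB.S8StartCh
import Pool.Agent.Lib.SixB.S8StateA
import Pool.Agent.Lib.SixB.S8NeedleF

/-!
# Step 8: the stored discs stay fresh, the induction over the stages

`Dp X f D`: the faces around `f` up to the distance `D` are in `X`. `blW 𝔇 d n s`: the magnified stored
set of the state `s`. `KpS 𝔇 d n A s ω`: the faces of depth `A` of the stored set are faces of the
vertices which remain after the step. `StgK`: the facts of one stage: a deep face of the stored fresh part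
is kept by the strand of the needle which is placed (`old`), a deep face of the part which is stored by a
move is kept by the running strand (`new`), the faces of the needle are not deep in the stored set
(`ndl`).

`KpS.nx`: one stage; `kept_ts`: along the chain; `kept_W`, `kept_disc`: before the next needle the deep
faces of the stored set, and all faces of the disc of the target, are faces of the remaining vertices.
-/

set_option autoImplicit false

namespace Pool.Agent.SixB.Tru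

open Finset Pool.Agent.Perc Pool.Agent.PercT Pool.Agent.PercX60 Pool.Agent.Perc6
open Pool.Agent.SixB Pool.Agent.SixB.Rule Pool.Agent.SixB.Dct Pool.Agent.SixB.Mv
open Pool.Agent.SixB.Top (compT ChI)
open Pool.Agent.SixB.TruR (ts ts_succ)

/-! ### Deep faces -/

/-- The faces around `f` up to the distance `D` are in `X`. -/
def Dp (X : Set (ℤ × ℤ)) (f : ℤ × ℤ) (D : ℤ) : Prop :=
  ∀ h : ℤ × ℤ, |h.1 - f.1| ≤ D → |h.2 - f.2| ≤ D → h ∈ X

section Deep

variable {X Y : Set (ℤ × ℤ)} {f h : ℤ × ℤ} {D D' a : ℤ}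

theorem Dp.sub (H : Dp X f D) (h : X ⊆ Y) : Dp Y f D := fun g h1 h2 => h (H g h1 h2)

theorem Dp.mono (H : Dp X f D) (h : D' ≤ D) : Dp X f D' :=
  fun g h1 h2 => H g (h1.trans h) (h2.trans h)

theorem Dp.mem (H : Dp X f D) (h : 0 ≤ D) : f ∈ X := H f (by simpa using h) (by simpa using h)

theorem Dp.shift (H : Dp X f (a + D)) (h1 : |h.1 - f.1| ≤ a) (h2 : |h.2 - f.2| ≤ a) : Dp X h D := by
  intro g g1 g2
  rw [abs_le] at h1 h2 g1 g2
  exact H g (abs_le.2 (by omega)) (abs_le.2 (by omega))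

theorem Dp.inter (H : Dp X f D) (H' : Dp Y f D) : Dp (X ∩ Y) f D :=
  fun g h1 h2 => ⟨H g h1 h2, H' g h1 h2⟩

theorem Dp.empty (h : 0 ≤ D) : ¬ Dp (∅ : Set (ℤ × ℤ)) f D := fun H => H.mem h

/-- The box around a deep face is connected. -/
theorem Dp.chI (H : Dp X f D) (h1 : |h.1 - f.1| ≤ D) (h2 : |h.2 - f.2| ≤ D) : ChI X f h := by
  have h0 := (abs_nonneg _).trans h1
  rw [abs_le] at h1 h2
  refine (Ndle.chI_seg (a := f) (b := (h.1, f.2)) (Or.inr rfl) ?_).trans
    (Ndle.chI_seg (a := (h.1, f.2)) (b := h) (Or.inl rfl) ?_)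
  · intro g hg
    rw [Ndle.mem_seg] at hg
    simp only at hg
    exact H g (abs_le.2 (by omega)) (abs_le.2 (by omega))
  · intro g hg
    rw [Ndle.mem_seg] at hg
    simp only at hg
    exact H g (abs_le.2 (by omega)) (abs_le.2 (by omega))

/-- **A deep face of a union of separated sets is deep in one of them.** -/
theorem Dp.sep (H : Dp (X ∪ Y) f D) (hS : Mv.Sep X Y) (h0 : 0 ≤ D) : Dp X f D ∨ Dp Y f D := by
  rcases H.mem h0 with hf | hf
  · exact Or.inl fun h h1 h2 => hS.uoc.mem hf (H.chI h1 h2)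
  · refine Or.inr fun h h1 h2 => ?_
    have H' : Dp (Y ∪ X) f D := by rwa [Set.union_comm]
    exact hS.symm.uoc.mem hf (H'.chI h1 h2)

/-- The faces of the magnified eroded set are deep. -/
theorem dp_er3 {u : ℕ} (hu : 0 < u) {L : ℤ} (hL : 0 < L)
    (hf : f ∈ blow (u : ℤ) (er3 (gc 0 0 L) X)) : Dp (blow (u : ℤ) X) f (u * L) := by
  have hu' : (0 : ℤ) < u := by exact_mod_cast hu
  rw [← er3_blow hu hL, mul_zero] at hf
  exact fun g h1 h2 => er3_box (by positivity) hf h1 h2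

end Deep

variable (𝔇 : Dat) (d : ℕ → ℕ) (n : ℕ)

/-- The magnified stored set. -/
noncomputable def blW (s : TS) : Set (ℤ × ℤ) := blow (unt d n : ℤ) (𝔇.cs d s.x).W

/-- The faces of depth `A` of the stored set are faces of the vertices which remain after the step. -/
def KpS (A : ℤ) (s : TS) (ω : Cfg) : Prop :=
  ∀ f, Dp (blW 𝔇 d n s) f A → f ∈ FU (vEnd (cfgE n ω) s.V s.q)

/-- **The facts of one stage.** -/
structure StgK (c R : ℤ) (s : TS) (ω : Cfg) : Prop where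
  /-- a domain is running only with a needle -/
  nr : s.q = none → (𝔇.cs d s.x).run = none
  nr' : (nxS 𝔇 d n s ω).q = none → (𝔇.cs d (nxS 𝔇 d n s ω).x).run = none
  /-- the stored set is separated from the running domain -/
  sep : ∀ D, (𝔇.cs d s.x).run = some D → Mv.Sep (𝔇.cs d s.x).W D.P
  /-- the faces of the needle are not deep in the stored set -/
  ndl : ∀ q, s.q = none → (nxS 𝔇 d n s ω).q = some q → ∀ f ∈ QF q.1,
    ¬ Dp (blW 𝔇 d n (nxS 𝔇 d n s ω)) f c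
  /-- the new strand keeps the deep fresh faces of the stored set -/
  old : ∀ q, s.q = none → (nxS 𝔇 d n s ω).q = some q → ∀ f,
    Dp (blW 𝔇 d n (nxS 𝔇 d n s ω) ∩ (FU s.V \ QF q.1)) f R → f ∈ FU (stpQ (cfgE n ω) s.V q)
  /-- the running strand keeps the deep faces of the part which is stored -/
  new : ∀ q D, s.q = some q → (𝔇.cs d s.x).run = some D → (𝔇.cs d s.x).ini = false → ∀ f,
    Dp (blow (unt d n : ℤ) (D.lef (𝔇.gr d s.x D) (mvR 𝔇 d n s q D false ω))) f c →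
      f ∈ FU (stpQ (cfgE n ω) s.V q)

variable {𝔇 d n} {s : TS} {ω : Cfg} {A A' c R : ℤ}

theorem KpS.mono (H : KpS 𝔇 d n A s ω) (h : A ≤ A') : KpS 𝔇 d n A' s ω := fun f hf => H f (hf.mono h)

theorem StgK.mono {c' R' : ℤ} (G : StgK 𝔇 d n c R s ω) (hc : c ≤ c') (hR : R ≤ R') :
    StgK 𝔇 d n c' R' s ω where
  nr := G.nr
  nr' := G.nr'
  sep := G.sep
  ndl := fun q h1 h2 f hf H => G.ndl q h1 h2 f hf (H.mono hc)
  old := fun q h1 h2 f H => G.old q h1 h2 f (H.mono hR)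
  new := fun q D h1 h2 h3 f H => G.new q D h1 h2 h3 f (H.mono hc)

/-- The stored set decreases in the stage in which a needle is placed or skipped. -/
theorem W_sub_none {x : List Rec} (ρ : Rec) (h : (𝔇.cs d x).run = none) :
    (𝔇.cs d (ρ :: x)).W ⊆ (𝔇.cs d x).W := by
  rw [𝔇.cs_cons]
  by_cases hp : (𝔇.cs d x).Plant (𝔇.prm d) (msh d x.length)
  · rw [CSt.mv_plant_eq h hp]
    exact fun f hf => CSt.erW_subset hf.1
  · rw [CSt.mv_idle_eq h hp]

/-- **One stage.** -/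
theorem KpS.nx (hs : TruR.StOK 𝔇 d n s) (G : StgK 𝔇 d n c R s ω) (hu : 0 < unt d n) (hR : 0 ≤ R)
    (hc : 0 ≤ c) (hA : c ≤ A) (H : KpS 𝔇 d n A s ω) :
    KpS 𝔇 d n (A + ((𝔇.cs d (nxS 𝔇 d n s ω).x).j - (𝔇.cs d s.x).j : ℤ) * (R + 2))
      (nxS 𝔇 d n s ω) ω := by
  have hu' : (0 : ℤ) < unt d n := by exact_mod_cast hu
  cases hq : s.q with
  | some q =>
    obtain ⟨D, hD⟩ := hs.run q hq
    have hv : ∀ t x, FU (vEnd (cfgE n ω) (finS 𝔇 d n s q t x ω).V (finS 𝔇 d n s q t x ω).q) =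
        FU (vEnd (cfgE n ω) s.V s.q) := by
      intro t x
      rw [hq]
      cases hr : (𝔇.cs d x).run with
      | none => rw [finS_end hr]; rfl
      | some D' => rw [finS_run hr]
    have hj : (𝔇.cs d (nxS 𝔇 d n s ω).x).j = (𝔇.cs d s.x).j := by
      rw [nxS_run_eq hq hD, finS_x]
      exact 𝔇.cs_j_run d hD _
    rw [hj, sub_self, zero_mul, add_zero]
    intro f hf
    rw [nxS_run_eq hq hD, hv]
    have hf' : Dp (blow (unt d n : ℤ)
        (𝔇.cs d (mvR 𝔇 d n s q D (𝔇.cs d s.x).ini ω :: s.x)).W) f A := by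
      have h1 : blW 𝔇 d n (nxS 𝔇 d n s ω) = blow (unt d n : ℤ)
          (𝔇.cs d (mvR 𝔇 d n s q D (𝔇.cs d s.x).ini ω :: s.x)).W := by
        unfold blW
        rw [nxS_run_eq hq hD, finS_x]
      rwa [h1] at hf
    cases hi : (𝔇.cs d s.x).ini with
    | true =>
      rw [𝔇.cs_cons, CSt.mv_ini_eq hD hi] at hf'
      exact H f hf'
    | false =>
      rw [𝔇.cs_cons, CSt.mv_run_eq hD hi, hi, Blow.blow_union] at hf'
      have hS : Mv.Sep (𝔇.cs d s.x).W (D.lef (𝔇.gr d s.x D) (mvR 𝔇 d n s q D false ω)) :=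
        (G.sep D hD).mono Set.Subset.rfl (Dom.lef_sub D _ _)
      rcases hf'.sep (Sep.blow hu' hS) (hc.trans hA) with h1 | h1
      · exact H f h1
      · rw [hq]
        exact G.new q D hq hD hi f (h1.mono hA)
  | none =>
    have hD := G.nr hq
    have hj : (𝔇.cs d (nxS 𝔇 d n s ω).x).j = (𝔇.cs d s.x).j + 1 := by
      rw [nxS_rest hq hD, plS_x]
      exact 𝔇.cs_j_none d hD _
    have hV : (nxS 𝔇 d n s ω).V = s.V := by rw [nxS_rest hq hD, plS_V]
    have hW : blW 𝔇 d n (nxS 𝔇 d n s ω) ⊆ blW 𝔇 d n s := by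
      unfold blW
      rw [nxS_rest hq hD, plS_x]
      exact Blow.blow_subset (W_sub_none _ hD)
    have hH : ∀ f, Dp (blW 𝔇 d n (nxS 𝔇 d n s ω)) f A → f ∈ FU s.V := by
      intro f hf
      have h1 := H f (hf.sub hW)
      rw [hq] at h1
      exact h1
    rw [hj]
    push_cast
    rw [add_sub_cancel_left, one_mul]
    intro f hf
    rw [hV]
    cases hq' : (nxS 𝔇 d n s ω).q with
    | none => exact hH f (hf.mono (by omega))
    | some q =>
      refine G.old q hq hq' f fun h h1 h2 => ?_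
      have h3 : Dp (blW 𝔇 d n (nxS 𝔇 d n s ω)) h A := by
        have h4 : Dp (blW 𝔇 d n (nxS 𝔇 d n s ω)) f (R + A) := hf.mono (by omega)
        exact h4.shift h1 h2
      exact ⟨h3.mem (hc.trans hA), hH h h3, fun h5 => G.ndl q hq hq' h h5 (h3.mono hA)⟩

/-! ### Along the chain -/

/-- **The deep faces of the stored sets are kept**, along the chain. -/
theorem kept_ts (hu : 0 < unt d n) (hR : 0 ≤ R) (hc : 0 ≤ c) {N : ℕ}
    (h0 : ∀ f, Dp (blow (unt d n : ℤ) (𝔇.W₀ (d 0))) f c → f ∈ FU (Box n))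
    (hG : ∀ i < N, StgK 𝔇 d n c R (ts 𝔇 d n ω i) ω) {i : ℕ} (hi : i ≤ N) :
    KpS 𝔇 d n (c + (𝔇.cs d (ts 𝔇 d n ω i).x).j * (R + 2)) (ts 𝔇 d n ω i) ω := by
  induction i with
  | zero =>
    intro f hf
    exact h0 f (hf.mono (le_add_of_nonneg_right (by positivity)))
  | succ i ih =>
    have h1 := (ih (by omega)).nx (TruR.stOK_ts 𝔇 d n ω i) (hG i (by omega)) hu hR hc
      (le_add_of_nonneg_right (by positivity))
    rw [ts_succ]
    refine h1.mono (le_of_eq ?_)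
    ring

/-- **Before the next needle the deep faces of the stored set are faces of the remaining vertices.** -/
theorem kept_W (hu : 0 < unt d n) (hR : 0 ≤ R) (hc : 0 ≤ c) {N : ℕ}
    (h0 : ∀ f, Dp (blow (unt d n : ℤ) (𝔇.W₀ (d 0))) f c → f ∈ FU (Box n))
    (hG : ∀ i < N, StgK 𝔇 d n c R (ts 𝔇 d n ω i) ω) (hq : (ts 𝔇 d n ω N).q = none)
    {f : ℤ × ℤ}
    (hf : Dp (blW 𝔇 d n (ts 𝔇 d n ω N)) f (c + (𝔇.cs d (ts 𝔇 d n ω N).x).j * (R + 2))) :
    f ∈ FU (ts 𝔇 d n ω N).V := by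
  have h1 := kept_ts hu hR hc h0 hG le_rfl f hf
  rw [hq] at h1
  exact h1

/-- **The faces of the next disc are faces of the remaining vertices.** -/
theorem kept_disc (hu : 0 < unt d n) (hR : 0 ≤ R) (hc : 0 ≤ c) {N : ℕ}
    (h0 : ∀ f, Dp (blow (unt d n : ℤ) (𝔇.W₀ (d 0))) f c → f ∈ FU (Box n))
    (hG : ∀ i < N, StgK 𝔇 d n c R (ts 𝔇 d n ω i) ω) (hq : (ts 𝔇 d n ω N).q = none)
    (hz : 𝔇.tgt d (ts 𝔇 d n ω N).x ∈ CSt.erW (𝔇.cs d (ts 𝔇 d n ω N).x).W (msh d N)
      (𝔇.tgt d (ts 𝔇 d n ω N).x))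
    (hA : c + (𝔇.cs d (ts 𝔇 d n ω N).x).j * (R + 2) ≤ unt d n * msh d N) :
    blow (unt d n : ℤ) (𝔇.disc d (ts 𝔇 d n ω N).x) ⊆ FU (ts 𝔇 d n ω N).V := by
  intro f hf
  refine kept_W hu hR hc h0 hG hq (Dp.mono ?_ hA)
  have h1 : 𝔇.disc d (ts 𝔇 d n ω N).x ⊆ er3 (gc 0 0 (msh d N)) (𝔇.cs d (ts 𝔇 d n ω N).x).W := by
    intro g hg
    unfold Dat.disc at hg
    rw [ts_len] at hg
    have h2 := CSt.compT_erW_self (W := (𝔇.cs d (ts 𝔇 d n ω N).x).W) (L := msh d N)
      (z := 𝔇.tgt d (ts 𝔇 d n ω N).x) hz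
    have h3 : g ∈ compT (CSt.erW (𝔇.cs d (ts 𝔇 d n ω N).x).W (msh d N)
      (𝔇.tgt d (ts 𝔇 d n ω N).x)) (𝔇.tgt d (ts 𝔇 d n ω N).x) := hg
    rw [h2] at h3
    have h4 := Top.compT_sub (CSt.mem_er3_of hz Top.self_mem_compT) h3
    exact er3_mono (msh_pos d N) (Top.compT_sub (CSt.erW_subset hz)) h4
  exact dp_er3 hu (msh_pos d N) (Blow.blow_subset h1 hf)

end Pool.Agent.SixB.Tru
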