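import Pool.Agent.Lib.SixB.S8Chain
import Pool.Agent.Lib.SixB.S8RuleL

/-!
# Step 8: locality of the true chain

The state of the chain after every stage is decided by the explored faces (`tst_loc`), the explored
faces are a stopping set (`expS_stop`) and grow (`expS_grow`). `StOK`: the remaining vertices are in the
box, a running needle has a base corner and a running domain, the time is `0` in an initial stage.
-/

set_option autoImplicit false

namespace Pool.Agent.SixB.Tru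

open Finset Pool.Agent.Perc Pool.Agent.PercT Pool.Agent.PercX60 Pool.Agent.PercD
open Pool.Agent.MP_6bd702.H23 (Ed ea eb)
open Pool.Agent.PercO (tl_eq hd_eq)
open Pool.Agent.PercU (vtx)
open Pool.Agent.SixB Pool.Agent.SixB.Rule Pool.Agent.SixB.Dct Pool.Agent.SixB.Mv
open Pool.Agent.SixB.Blow (subE)

section strand

variable {n : ℕ} {V : Finset (ℤ × ℤ)} {q : Rule.Ndl} {ω ω' : Cfg} {s t u : ℕ}

/-! ### The strand of a state -/

/-- The faces which are read by the strand up to the time `t`. -/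
def visS (V : Finset (ℤ × ℤ)) (q : Rule.Ndl) (ω : Cfg) (t : ℕ) : Set (ℤ × ℤ) :=
  (FU V \ QF q.1) ∩ (vS V q ω 0 t : Set (ℤ × ℤ))

theorem cfS_loc {f : ℤ × ℤ} (hf : f ∈ FU V \ QF q.1 → ω f = ω' f) :
    cfS V q ω f = cfS V q ω' f := by
  classical
  unfold cfS mix
  split_ifs with h
  · exact hf h
  · rfl

theorem pS_loc (h : ∀ f ∈ visS V q ω t, ω f = ω' f) {i : ℕ} (hi : i ≤ t) :
    pS V q ω' i = pS V q ω i :=
  pth_congr (fun f hf => cfS_loc fun h1 => h f ⟨h1, Finset.mem_coe.2 hf⟩) i hi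

theorem vS_loc (h : ∀ f ∈ visS V q ω t, ω f = ω' f) {s u : ℕ} (hu : u ≤ t) :
    vS V q ω' s u = vS V q ω s u :=
  vs_congr (fun f hf => cfS_loc fun h1 => h f ⟨h1, Finset.mem_coe.2 hf⟩) hu

theorem visS_loc (h : ∀ f ∈ visS V q ω t, ω f = ω' f) : visS V q ω' t = visS V q ω t := by
  unfold visS
  rw [vS_loc h le_rfl]

theorem visS_mono (h : s ≤ t) : visS V q ω s ⊆ visS V q ω t := fun _ hf =>
  ⟨hf.1, Finset.mem_coe.2 (vs_mono le_rfl h (Finset.mem_coe.1 hf.2))⟩

theorem visS_zero : visS V q ω 0 = ∅ := by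
  unfold visS vS
  rw [vs_self]
  simp

/-- Two properties which agree up to the first time have the same first time. -/
theorem hit_locL {N : ℕ} {P P' : ℕ → Prop} (h : ∀ t ≤ hit N P, (P t ↔ P' t)) :
    hit N P' = hit N P := by
  refine le_antisymm ?_ ?_
  · rcases hit_spec N P with h2 | h2
    · rw [h2]
      exact hit_le _ _
    · exact hit_le_of ((h _ le_rfl).1 h2)
  · by_contra hlt
    push Not at hlt
    rcases hit_spec N P' with h2 | h2
    · have := hit_le N P
      omega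
    · exact not_of_lt_hit hlt ((h _ hlt.le).2 h2)

/-! ### The end of a step -/

theorem agrE_ofL (h : ∀ f ∈ (FU V)ᶜ, ω f = ω' f) : AgrE n V (cfgE n ω) (cfgE n ω') :=
  fun _ he h1 => cfgE_agree h he h1

theorem stp_locL (h : ∀ f ∈ (FU (stpQ (cfgE n ω) V q))ᶜ, ω f = ω' f) :
    stpQ (cfgE n ω') V q = stpQ (cfgE n ω) V q :=
  stpQ_congr (DictB.cfgE_subset n ω) (DictB.cfgE_subset n ω') (agrE_ofL h)

theorem FU_subL {V' : Finset (ℤ × ℤ)} (h : V' ⊆ V) : FU V' ⊆ FU V := fun _ hf =>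
  ⟨h hf.1, h hf.2⟩

theorem cfS_gT (hV : V ⊆ Box n) : cfS V q ω = gT ((cfQ (cfgE n ω) V q : Finset Edg) : Set Ed) :=
  (gT_cfg hV q.1 ω).symm

theorem pS_strd (hV : V ⊆ Box n) (t : ℕ) : pS V q ω t = strd (cfgE n ω) V q t := by
  rw [strd_eq_pth, ← cfS_gT hV]
  rfl

/-- The visited faces are removed by the step. -/
theorem visS_stp (hV : V ⊆ Box n) (hk : ∃ k, NdF V q.1 k ∧ vtx k = q.2) :
    visS V q ω t ⊆ (FU (stpQ (cfgE n ω) V q))ᶜ := by
  rintro f ⟨-, hf⟩ ⟨h1, h2⟩
  obtain ⟨i, -, -, rfl⟩ := mem_vs.1 (Finset.mem_coe.1 hf)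
  have h3 := (strd_end (T := cfgE n ω) hk i).1
  rw [← pS_strd hV i, tl_eq, hd_eq] at h3
  rcases h3 with h3 | h3
  · exact h3 h1
  · exact h3 h2

end strand

variable (𝔇 : Dat) (d : ℕ → ℕ) (n : ℕ)

/-! ### The stage of a running needle -/

section stage

variable {𝔇 d n} {s : TS} {q : Rule.Ndl} {D : Dom} {g : Grd} {ini : Bool} {ω ω' : Cfg} {u t : ℕ}

theorem le_stopTL : s.t ≤ stopT n u s q D g ω := by
  unfold stopT
  rcases hit_spec (s.t + tmx n) (fun t => s.t ≤ t ∧ fa (pS s.V q ω t) ∈ blow u (D.P \ D.inr g))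
    with h | h
  · rw [h]
    exact Nat.le_add_right _ _
  · exact h.1

theorem stopT_loc (h : ∀ f ∈ visS s.V q ω (stopT n u s q D g ω), ω f = ω' f) :
    stopT n u s q D g ω' = stopT n u s q D g ω := by
  refine hit_locL fun t ht => ?_
  rw [pS_loc h ht]

theorem staT_loc {V : Finset (ℤ × ℤ)} {B : UE × Bool}
    (h : ∀ f ∈ visS V q ω (staT n u V q B ω), ω f = ω' f) :
    staT n u V q B ω' = staT n u V q B ω := by
  refine hit_locL fun t ht => ?_
  rw [pS_loc h ht]

theorem visC_loc (h : ∀ f ∈ visS s.V q ω t, ω f = ω' f) : visC u s q ω' t = visC u s q ω t := by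
  unfold visC
  rw [vS_loc h le_rfl]

theorem stopI_loc (h : ∀ f ∈ visS s.V q ω t, ω f = ω' f) :
    stopI u s q D g ω' t = stopI u s q D g ω t := by
  unfold stopI
  rw [pS_loc h le_rfl]

theorem mvT_loc (h : ∀ f ∈ visS s.V q ω (mvT 𝔇 d n s q D ini ω), ω f = ω' f) :
    mvT 𝔇 d n s q D ini ω' = mvT 𝔇 d n s q D ini ω := by
  unfold mvT at h ⊢
  split_ifs at h ⊢
  · exact staT_loc h
  · rfl
  · exact stopT_loc h

theorem mvR_loc (h : ∀ f ∈ visS s.V q ω (mvT 𝔇 d n s q D ini ω), ω f = ω' f) :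
    mvR 𝔇 d n s q D ini ω' = mvR 𝔇 d n s q D ini ω := by
  unfold mvR
  by_cases h1 : ini = true ∨ D.Void (𝔇.gr d s.x D)
  · rw [if_pos h1, if_pos h1]
  · rw [if_neg h1, if_neg h1]
    push Not at h1
    have h2 : mvT 𝔇 d n s q D ini ω = stopT n (unt d n) s q D (𝔇.gr d s.x D) ω := by
      unfold mvT
      rw [if_neg h1.1, if_neg h1.2]
    rw [h2] at h
    rw [stopT_loc h, visC_loc h, stopI_loc h]

theorem le_mvTL (h : ini = true → s.t = 0) : s.t ≤ mvT 𝔇 d n s q D ini ω := by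
  unfold mvT
  split_ifs with h1
  · rw [h h1]
    exact Nat.zero_le _
  · exact le_rfl
  · exact le_stopTL

end stage

/-! ### The invariant of the states -/

/-- The remaining vertices are in the box, a running needle has a base corner and a running domain, the
time is `0` in an initial stage. -/
structure StOK (s : TS) : Prop where
  sub : s.V ⊆ Box n
  ndl : ∀ q, s.q = some q → (∃ k, NdF s.V q.1 k ∧ vtx k = q.2) ∧ (𝔇.cs d s.x).run.isSome
  ini : (𝔇.cs d s.x).ini = true → s.t = 0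

variable {𝔇 d n}

theorem cs_consL (ρ : Rec) (x : List Rec) :
    𝔇.cs d (ρ :: x) = (𝔇.cs d x).mv (𝔇.prm d) (msh d x.length) (msz 𝔇.kap d x.length) ρ := rfl

/-- After a stage with a running domain the state is not initial. -/
theorem mv_iniL {σ : CSt} {π : Prm} {L M : ℤ} {ρ : Rec} (h : σ.run.isSome) :
    (σ.mv π L M ρ).ini = false := by
  obtain ⟨D, hD⟩ := Option.isSome_iff_exists.1 h
  unfold CSt.mv
  rw [hD]
  simp only
  split_ifs <;> rfl

theorem StOK.init : StOK 𝔇 d n ⟨Box n, none, 0, []⟩ where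
  sub := Finset.Subset.refl _
  ndl := fun _ h => by cases h
  ini := fun _ => rfl

theorem StOK.fin {s : TS} {q : Rule.Ndl} (h : StOK 𝔇 d n s) (hq : s.q = some q) (t : ℕ) (ρ : Rec)
    (ω : Cfg) : StOK 𝔇 d n (finS 𝔇 d n s q t (ρ :: s.x) ω) := by
  have h1 := h.ndl q hq
  have h2 : (𝔇.cs d (ρ :: s.x)).ini = false := by
    rw [cs_consL]
    exact mv_iniL h1.2
  unfold finS
  split
  · rename_i D hD
    refine ⟨h.sub, ?_, ?_⟩
    · rintro q' hq'
      cases hq'
      exact ⟨h1.1, by simp only [hD, Option.isSome_some]⟩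
    · intro h3
      simp only [h2] at h3
      cases h3
  · rename_i hD
    exact ⟨stpQ_sub.trans h.sub, fun _ h3 => (by cases h3), fun _ => rfl⟩

theorem StOK.nx {s : TS} (h : StOK 𝔇 d n s) (ω : Cfg) : StOK 𝔇 d n (nxS 𝔇 d n s ω) := by
  classical
  unfold nxS
  split
  · rename_i q D hq hD
    exact h.fin hq _ _ _
  · rename_i q hq hD
    exact h.fin hq _ _ _
  · exact ⟨h.sub, fun _ h3 => (by cases h3), fun _ => rfl⟩
  · rename_i hq hD
    unfold plS
    refine ⟨h.sub, ?_, fun _ => rfl⟩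
    intro q' hq'
    simp only at hq' ⊢
    split_ifs at hq' with h1
    cases hq'
    exact ⟨h1.2.2, h1.1⟩

theorem stOK (ω : Cfg) (i : ℕ) : StOK 𝔇 d n (tst 𝔇 d n ω i) := by
  induction i with
  | zero => exact StOK.init.nx ω
  | succ i ih => exact ih.nx ω

/-! ### Locality -/

theorem expS_someL {s : TS} {q : Rule.Ndl} (hq : s.q = some q) (ω : Cfg) :
    expS s ω = (FU s.V)ᶜ ∪ visS s.V q ω s.t := by
  unfold expS visS
  rw [hq]
  rfl

theorem expS_noneL {s : TS} (hq : s.q = none) (ω : Cfg) : expS s ω = (FU s.V)ᶜ := by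
  unfold expS
  rw [hq]
  simp

/-- The explored faces of a state are a stopping set. -/
theorem expS_eqL {s : TS} {ω ω' : Cfg} (h : ∀ f ∈ expS s ω, ω f = ω' f) : expS s ω' = expS s ω := by
  rcases hq : s.q with _ | q
  · rw [expS_noneL hq, expS_noneL hq]
  · rw [expS_someL hq] at h ⊢
    rw [expS_someL hq, visS_loc fun f hf => h f (Or.inr hf)]

theorem fin_grow {s : TS} {q : Rule.Ndl} (h : StOK 𝔇 d n s) (hq : s.q = some q) {t : ℕ}
    (ht : s.t ≤ t) (x : List Rec) (ω : Cfg) : expS s ω ⊆ expS (finS 𝔇 d n s q t x ω) ω := by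
  rw [expS_someL hq]
  unfold finS
  split
  · rw [expS_someL (q := q) rfl]
    exact Set.union_subset_union_right _ (visS_mono ht)
  · rw [expS_noneL rfl]
    refine Set.union_subset (Set.compl_subset_compl.2 (FU_subL stpQ_sub)) ?_
    exact visS_stp h.sub (h.ndl q hq).1

/-- The explored faces of a finished stage contain the faces visited in the stage. -/
theorem fin_vis {s : TS} {q : Rule.Ndl} (h : StOK 𝔇 d n s) (hq : s.q = some q) (t : ℕ)
    (x : List Rec) (ω : Cfg) : visS s.V q ω t ⊆ expS (finS 𝔇 d n s q t x ω) ω := by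
  unfold finS
  split
  · rw [expS_someL (q := q) rfl]
    exact Set.subset_union_right
  · rw [expS_noneL rfl]
    exact visS_stp h.sub (h.ndl q hq).1

theorem fin_loc {s : TS} {q : Rule.Ndl} {t : ℕ} {x : List Rec} {ω ω' : Cfg}
    (h : ∀ f ∈ expS (finS 𝔇 d n s q t x ω) ω, ω f = ω' f) :
    finS 𝔇 d n s q t x ω' = finS 𝔇 d n s q t x ω := by
  rcases hD : (𝔇.cs d x).run with _ | D
  · simp only [finS, hD] at h ⊢
    rw [expS_noneL rfl] at h
    rw [stp_locL h]
  · simp only [finS, hD]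

/-- The explored faces grow in a stage. -/
theorem nx_grow {s : TS} (h : StOK 𝔇 d n s) (ω : Cfg) : expS s ω ⊆ expS (nxS 𝔇 d n s ω) ω := by
  unfold nxS
  split
  · rename_i q D hq hD
    exact fin_grow h hq (le_mvTL h.ini) _ _
  · rename_i q hq hD
    exact fin_grow h hq le_rfl _ _
  · rename_i hq hD
    rw [expS_noneL hq, expS_noneL rfl]
  · rename_i hq hD
    rw [expS_noneL hq]
    exact Set.subset_union_left

/-- **Locality of a stage.** -/
theorem nx_loc {s : TS} (h : StOK 𝔇 d n s) {ω ω' : Cfg}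
    (hag : ∀ f ∈ expS (nxS 𝔇 d n s ω) ω, ω f = ω' f) : nxS 𝔇 d n s ω' = nxS 𝔇 d n s ω := by
  rcases hq : s.q with _ | q <;> rcases hD : (𝔇.cs d s.x).run with _ | D
  · simp only [nxS, hq, hD]
  · simp only [nxS, hq, hD]
  · simp only [nxS, hq, hD] at hag ⊢
    exact fin_loc hag
  · simp only [nxS, hq, hD] at hag ⊢
    have h1 : ∀ f ∈ visS s.V q ω (mvT 𝔇 d n s q D (𝔇.cs d s.x).ini ω), ω f = ω' f := fun f hf =>
      hag f (fin_vis h hq _ _ _ hf)
    rw [mvT_loc h1, mvR_loc h1]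
    exact fin_loc hag

/-- The explored faces grow. -/
theorem expS_grow (𝔇 : Dat) (d : ℕ → ℕ) (n : ℕ) (ω : Cfg) {i m : ℕ} (him : i ≤ m) :
    expS (tst 𝔇 d n ω i) ω ⊆ expS (tst 𝔇 d n ω m) ω := by
  induction m, him using Nat.le_induction with
  | base => exact subset_rfl
  | succ m _ ih => exact ih.trans (nx_grow (stOK ω m) ω)

/-- **The state after a stage is decided by the explored faces.** -/
theorem tst_loc {ω ω' : Cfg} {m : ℕ} (h : ∀ f ∈ expS (tst 𝔇 d n ω m) ω, ω f = ω' f) :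
    tst 𝔇 d n ω' m = tst 𝔇 d n ω m := by
  induction m with
  | zero => exact nx_loc StOK.init h
  | succ m ih =>
    have h1 : tst 𝔇 d n ω' m = tst 𝔇 d n ω m :=
      ih fun f hf => h f (expS_grow 𝔇 d n ω (Nat.le_succ m) hf)
    show nxS 𝔇 d n (tst 𝔇 d n ω' m) ω' = nxS 𝔇 d n (tst 𝔇 d n ω m) ω
    rw [h1]
    exact nx_loc (stOK ω m) h

/-- The states of all earlier stages are decided by the explored faces. -/
theorem tst_loc_le {ω ω' : Cfg} {i m : ℕ} (him : i ≤ m)
    (h : ∀ f ∈ expS (tst 𝔇 d n ω m) ω, ω f = ω' f) : tst 𝔇 d n ω' i = tst 𝔇 d n ω i :=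
  tst_loc fun f hf => h f (expS_grow 𝔇 d n ω him hf)

/-- **The explored faces are a stopping set.** -/
theorem expS_stop {ω ω' : Cfg} {m : ℕ} (h : ∀ f ∈ expS (tst 𝔇 d n ω m) ω, ω f = ω' f) :
    expS (tst 𝔇 d n ω' m) ω' = expS (tst 𝔇 d n ω m) ω := by
  rw [tst_loc h]
  exact expS_eqL h

/-- The strand of the running needle is decided by the explored faces, up to the time of the state. -/
theorem pS_tst_loc {ω ω' : Cfg} {m : ℕ} (h : ∀ f ∈ expS (tst 𝔇 d n ω m) ω, ω f = ω' f)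
    {q : Rule.Ndl} (hq : (tst 𝔇 d n ω m).q = some q) {t : ℕ} (ht : t ≤ (tst 𝔇 d n ω m).t) :
    pS (tst 𝔇 d n ω m).V q ω' t = pS (tst 𝔇 d n ω m).V q ω t := by
  refine pS_loc (fun f hf => h f ?_) ht
  rw [expS_someL hq]
  exact Or.inr hf

/-! ### The rows -/

/-- The records are decided by the explored faces. -/
theorem recS_loc {ω ω' : Cfg} {i m : ℕ} (him : i ≤ m)
    (h : ∀ f ∈ expS (tst 𝔇 d n ω m) ω, ω f = ω' f) : recS 𝔇 d n i ω' = recS 𝔇 d n i ω := by
  unfold recS
  rw [tst_loc_le him h]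

/-- A stage depends on the edges of the box only. -/
theorem nx_box {s : TS} (h : StOK 𝔇 d n s) {ω ω' : Cfg} (hE : cfgE n ω = cfgE n ω') :
    nxS 𝔇 d n s ω' = nxS 𝔇 d n s ω := by
  have h0 : ∀ q t, pS s.V q ω' t = pS s.V q ω t := fun q t => by
    rw [pS_strd h.sub, pS_strd h.sub, hE]
  have h1 : ∀ q a b, vS s.V q ω' a b = vS s.V q ω a b := fun q a b => by
    ext f
    simp only [vS, mem_vs]
    exact exists_congr fun i => and_congr_right fun _ => and_congr_right fun _ => by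
      rw [show pth (cfS s.V q ω') (eS s.V q) i = pS s.V q ω' i from rfl, h0]
      rfl
  have h2 : ∀ q t x, finS 𝔇 d n s q t x ω' = finS 𝔇 d n s q t x ω := fun q t x => by
    unfold finS
    rw [hE]
  have h3 : ∀ q D g u, stopT n u s q D g ω' = stopT n u s q D g ω := fun q D g u => by
    unfold stopT
    simp only [h0]
  have h4 : ∀ q D i, mvT 𝔇 d n s q D i ω' = mvT 𝔇 d n s q D i ω := fun q D i => by
    unfold mvT staT
    simp only [h0, h3]
  have h5 : ∀ q D i, mvR 𝔇 d n s q D i ω' = mvR 𝔇 d n s q D i ω := fun q D i => by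
    unfold mvR visC stopI
    simp only [h0, h1, h3]
  unfold nxS
  split
  · rw [h4, h5, h2]
  · rw [h2]
  · rfl
  · rfl

/-- The chain depends on the edges of the box only. -/
theorem tst_box {ω ω' : Cfg} (hE : cfgE n ω = cfgE n ω') (i : ℕ) :
    tst 𝔇 d n ω' i = tst 𝔇 d n ω i := by
  induction i with
  | zero => exact nx_box StOK.init hE
  | succ i ih =>
    show nxS 𝔇 d n (tst 𝔇 d n ω' i) ω' = nxS 𝔇 d n (tst 𝔇 d n ω i) ω
    rw [ih]
    exact nx_box (stOK ω i) hE

end Pool.Agent.SixB.Tru
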