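import Pool.Agent.Lib.SixB.S8StartTgt

/-!
# Step 8: the target at the start of a needle step, needle without a hook

The same as `S8StartTgt` for a needle `Q ⊆ P` which starts at a common side `β` of `P` and `U`
(the face behind the base side is not fresh). THEOREM `StH0.tgt_start`.
-/

set_option autoImplicit false

namespace Pool.Agent.SixB.StartA

open Pool.Agent.Perc Pool.Agent.Perc6 Pool.Agent.Perc6.C2Aux Pool.Agent.Perc.Tips
open Pool.Agent.SixB.Top Pool.Agent.SixB.LC Pool.Agent.SixB.Mv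

/-- The start of a needle step, needle `Q ⊆ P` without a hook: it starts at the common side `β` of `P`
and `U`. -/
structure StH0 (U P Q : Set (ℤ × ℤ)) (γ : ℤ × ℤ → ℤ × ℤ) (f₀ y : ℤ × ℤ) (β D : UE × Bool)
    (m₁ m₂ : ℤ) : Prop where
  finU : U.Finite
  ecU : Top.EConn U
  escU : Esc U
  ecP : Top.EConn P
  escP : Esc P
  PU : P ⊆ U
  QP : Q ⊆ P
  cell : ∀ x z, γ x = γ z → x ∈ P → z ∈ P
  conn : ∀ x z, γ x = γ z → Chn {w | γ w = γ x} x z
  bdB : BD P β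
  BQ : ahead β ∈ Q
  bdU : BD U β
  inn : ∀ q ∈ Q, q ∈ P → JoinIn (Q ∩ P) q (ahead β)
  f0 : f₀ ∈ P \ VQ P Q γ
  bdD : BD P D
  bdD' : BD (compT (P \ VQ P Q γ) f₀) D
  DQ : ahead (rv D) ∉ Q
  exit : ∃ x, x ∉ U ∧ ChI (P ∪ Q)ᶜ (ahead (rv D)) x
  lnk : ∀ q ∈ Q, ¬ InB y m₁ q → ∀ a ∈ U, a ∉ Q → AdjF a q → (a ∈ P ∧ ¬ InB y m₂ a) ∧
    ∃ r ∈ compT (P \ VQ P Q γ) f₀, ChI ((P \ Q) \ {f | InB y m₂ f}) a r
  near : ∀ v ∈ VQ P Q γ, ∀ g, g ∉ P → (∃ w, IsCor v w ∧ IsCor g w) →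
    ∀ f, γ f = γ v → InB y m₂ f

theorem exists_closed0 {U P Q K : Set (ℤ × ℤ)} {β J D : UE × Bool} {x : ℤ × ℤ}
    (hUe : Esc U) (hUf : U.Finite) (hPU : P ⊆ U) (hβ : BD P β) (hβ1 : ahead β ∈ Q) (hu : BD U β)
    (hJ : ahead J ∈ (P \ Q) \ K)
    (hJ1 : ahead (rv J) ∈ Q ∩ P) (hin : ChI (Q ∩ P) (ahead (rv J)) (ahead β)) (hD : BD P D)
    (hD1 : ahead D ∈ (P \ Q) \ K) (hD2 : ahead (rv D) ∉ Q)
    (hL : ChI ((P \ Q) \ K) (ahead D) (ahead J)) (hx : x ∉ U)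
    (hch : ChI (P ∪ Q)ᶜ (ahead (rv D)) x) :
    ∃ e M Φ, Closed U P Q K β β J D e M Φ := by
  obtain ⟨e, M₀, he, heQ, heD, hp0, hc0⟩ := exists_exit hPU hD.1 hD1.1.2 hD.2 hD2 hx hch
  obtain ⟨M₁, hM1, hp1⟩ := tog hD1 hL
  obtain ⟨M₂, hM2, hp2⟩ := tog hJ1 hin
  set M : Set UE := symmDiff (symmDiff (symmDiff (symmDiff M₀ M₁) M₂) {J.1}) {β.1} with hM
  have heven : ∀ f ∈ U, EvenAt M f := by
    intro f hf
    have n1 : ind2 (f = ahead (rv β)) = 0 := ind2_neg fun h => hu.2 (h ▸ hf)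
    rw [evenAt_iff, hM, parAt_symmDiff, parAt_symmDiff, parAt_symmDiff, parAt_symmDiff,
      hp0 f hf, hp1, hp2, tog_side, tog_side, n1]
    generalize ind2 (f = ahead D) = p1
    generalize ind2 (f = ahead J) = p2
    generalize ind2 (f = ahead (rv J)) = p3
    generalize ind2 (f = ahead β) = p4
    revert p1 p2 p3 p4
    decide
  obtain ⟨Φ, hΦ⟩ := hUe.hasPot' hUf M heven
  have sJ := sideA J
  have sJ' := sideB J
  have sB := sideA β
  have sB' := sideB β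
  have j0 : J.1 ∉ M₀ := by
    intro h
    rcases hc0 _ h with h1 | h1 | h1
    · rcases faces_of_fst' h1.symm with h2 | h2
      · exact hD.2 (h2 ▸ hJ.1.1)
      · exact hD.2 (h2 ▸ hJ1.2)
    · rcases faces_of_fst' h1.symm with h2 | h2
      · exact he.2 (h2 ▸ hPU hJ.1.1)
      · exact he.2 (h2 ▸ hPU hJ1.2)
    · exact (h1 _ sJ).1 (Or.inl hJ.1.1)
  have j1 : J.1 ∉ M₁ := fun h => (hM1 _ h _ sJ').1.2 hJ1.1
  have j2 : J.1 ∉ M₂ := fun h => hJ.1.2 (hM2 _ h _ sJ).1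
  have j4 : J.1 ≠ β.1 := by
    intro h
    rcases faces_of_fst' h.symm with h2 | h2
    · exact hu.2 (h2 ▸ hPU hJ.1.1)
    · exact hu.2 (h2 ▸ hPU hJ1.2)
  have b0 : β.1 ∉ M₀ := by
    intro h
    rcases hc0 _ h with h1 | h1 | h1
    · have h2 : β = D := hβ.eq_of_fst hD h1
      exact hD1.1.2 (h2 ▸ hβ1)
    · have h2 : β = e := hu.eq_of_fst he h1
      exact heQ (h2 ▸ hβ1)
    · exact (h1 _ sB).1 (Or.inr hβ1)
  have b1 : β.1 ∉ M₁ := fun h => (hM1 _ h _ sB).1.2 hβ1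
  have b2 : β.1 ∉ M₂ := fun h => hβ.2 (hM2 _ h _ sB').2
  refine ⟨e, M, Φ, hΦ, he, heQ, heD, ?_, ?_, ?_⟩
  · simp only [hM, Set.mem_symmDiff, Set.mem_singleton_iff, j0, j1, j2, j4]
    tauto
  · simp only [hM, Set.mem_symmDiff, Set.mem_singleton_iff, b0, b1, b2]
    have : β.1 ≠ J.1 := Ne.symm j4
    tauto
  · intro a ha
    simp only [hM, Set.mem_symmDiff, Set.mem_singleton_iff] at ha
    by_cases h0 : a ∈ M₀
    · rcases hc0 a h0 with h1 | h1 | h1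
      · exact Or.inl h1
      · exact Or.inr (Or.inl h1)
      · exact Or.inr (Or.inr (Or.inr (Or.inr (Or.inr (Or.inl h1)))))
    · by_cases h1 : a ∈ M₁
      · exact Or.inr (Or.inr (Or.inr (Or.inr (Or.inr (Or.inr (Or.inl (hM1 a h1)))))))
      · by_cases h2 : a ∈ M₂
        · exact Or.inr (Or.inr (Or.inr (Or.inr (Or.inr (Or.inr (Or.inr (Or.inl (hM2 a h2))))))))
        · tauto

namespace StH0

variable {U P Q : Set (ℤ × ℤ)} {γ : ℤ × ℤ → ℤ × ℤ} {f₀ y : ℤ × ℤ} {β D : UE × Bool} {m₁ m₂ : ℤ}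

theorem QU (h : StH0 U P Q γ f₀ y β D m₁ m₂) : Q ⊆ U := fun _ hf => h.PU (h.QP hf)

theorem subQ (h : StH0 U P Q γ f₀ y β D m₁ m₂) : P \ VQ P Q γ ⊆ U \ Q := fun _ hf =>
  ⟨h.PU hf.1, fun hq => hf.2 (mem_VQ_of_Q hf.1 hq)⟩

theorem RT (h : StH0 U P Q γ f₀ y β D m₁ m₂) :
    compT (P \ VQ P Q γ) f₀ ⊆ compT (U \ Q) f₀ := compT_mono h.subQ

theorem TU (h : StH0 U P Q γ f₀ y β D m₁ m₂) : compT (U \ Q) f₀ ⊆ U \ Q :=
  compT_sub (h.subQ h.f0)

theorem RP (h : StH0 U P Q γ f₀ y β D m₁ m₂) :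
    compT (P \ VQ P Q γ) f₀ ⊆ P \ VQ P Q γ := compT_sub h.f0

/-- The contours at the side of `P`. -/
theorem relP (h : StH0 U P Q γ f₀ y β D m₁ m₂) :
    ∃ mP mR p t u, Rel P (compT (P \ VQ P Q γ) f₀) β mP mR p t u ∧
      StartD P (VQ P Q γ) (compT (P \ VQ P Q γ) f₀) mR :=
  exists_rel (h.finU.subset h.PU) h.ecP h.escP h.cell h.conn h.bdB h.BQ h.inn h.f0
    ⟨D, h.bdD, h.bdD'⟩

/-- A common side of `U` and `T` at the end of a chain from the far side `D`. -/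
theorem bdT (h : StH0 U P Q γ f₀ y β D m₁ m₂) {e : UE × Bool} (he : BD U e)
    (heD : e = D ∨ (ahead (rv D) ∈ U ∧ ahead e ∉ P ∧
      ChI ((P ∪ Q)ᶜ ∩ U) (ahead (rv D)) (ahead e))) : BD (compT (U \ Q) f₀) e := by
  refine ⟨?_, fun hh => he.2 (h.TU hh).1⟩
  rcases heD with rfl | ⟨h1, -, h2⟩
  · exact h.RT h.bdD'.1
  · have h3 : ahead (rv D) ∈ compT (U \ Q) f₀ :=
      compT_step (h.RT h.bdD'.1) (AdjF.symm (adjF_ahead D)) ⟨h1, h.DQ⟩
    have hsub : ((P ∪ Q)ᶜ ∩ U : Set (ℤ × ℤ)) ⊆ U \ Q := fun z hz => ⟨hz.2, fun hq => hz.1 (Or.inr hq)⟩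
    exact ChI.mem h3 (compT_chain h3 (h2.mono hsub))

/-- The contours at the side of `U`. -/
theorem relU (h : StH0 U P Q γ f₀ y β D m₁ m₂) :
    ∃ mP mR p t u, Rel U (compT (U \ Q) f₀) β mP mR p t u ∧
      StartD U Q (compT (U \ Q) f₀) mR := by
  have hV : VQ U Q id = Q := VQ_id h.QU
  obtain ⟨x, hx, hch⟩ := h.exit
  obtain ⟨e, -, he, -, heD, -, -⟩ := exists_exit h.PU h.bdD.1
    (fun hq => (h.RP h.bdD'.1).2 (mem_VQ_of_Q h.bdD.1 hq)) h.bdD.2 h.DQ hx hch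
  have key := exists_rel (P := U) (Q := Q) (γ := id) (f₀ := f₀) (β := β) h.finU h.ecU h.escU
    (fun x y hxy hx => by rw [← show x = y from hxy]; exact hx)
    (fun x y hxy => by
      have hxy' : x = y := hxy
      subst hxy'
      exact ⟨rfl, Relation.ReflTransGen.refl⟩) h.bdU h.BQ
    (fun q hq _ => by
      have hsub : Q ∩ P ⊆ Q ∩ U := fun z hz => ⟨hz.1, h.PU hz.2⟩
      exact ChI.mono hsub (h.inn q hq (h.QP hq)))
    (by rw [hV]; exact h.subQ h.f0)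
    (by rw [hV]; exact ⟨e, he, h.bdT he heD⟩)
  rw [hV] at key
  exact key

theorem closed_side {U P Q K : Set (ℤ × ℤ)} {β J D e : UE × Bool} {M : Set UE}
    {Φ : ℤ × ℤ → ZMod 2} (C : Closed U P Q K β β J D e M Φ) (hPU : P ⊆ U) (hQP : Q ⊆ P)
    (hβ : BD P β) (hD : BD P D) (hu : BD U β) (hJ : ahead J ∈ P) (hJ' : ahead (rv J) ∈ P) :
    (∀ B, BD P B → B.1 ∈ M → B = β ∨ B = D) ∧ ∀ B, BD U B → B.1 ∈ M → B = β ∨ B = e := by
  constructor
  · intro B hB hM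
    rcases C.cls _ hM with h1 | h1 | h1 | h1 | h1 | h1 | h1 | h1 | h1
    · exact Or.inr (hB.eq_of_fst hD h1)
    · rcases C.eD with h2 | ⟨-, h2, -⟩
      · exact Or.inr (hB.eq_of_fst hD (h2 ▸ h1))
      · exfalso
        rcases faces_of_fst h1 with h3 | h3
        · exact h2 (h3 ▸ hB.1)
        · exact C.bdE.2 (h3 ▸ hPU hB.1)
    · exfalso
      rcases faces_of_fst' h1 with h3 | h3
      · exact hB.2 (h3 ▸ hJ)
      · exact hB.2 (h3 ▸ hJ')
    · exact Or.inl (hB.eq_of_fst hβ h1)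
    · exact Or.inl (hB.eq_of_fst hβ h1)
    · exact absurd (Or.inl hB.1) (h1 _ (sideA B)).1
    · exact absurd (h1 _ (sideB B)).1.1 hB.2
    · exact absurd (h1 _ (sideB B)).2 hB.2
    · exact absurd hB.1 (h1 _ (sideA B)).2
  · intro B hB hM
    rcases C.cls _ hM with h1 | h1 | h1 | h1 | h1 | h1 | h1 | h1 | h1
    · rcases C.eD with h2 | ⟨h2, -, -⟩
      · exact Or.inr (hB.eq_of_fst C.bdE (h2 ▸ h1))
      · exfalso
        rcases faces_of_fst' h1 with h3 | h3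
        · exact hB.2 (h3 ▸ hPU hD.1)
        · exact hB.2 (h3 ▸ h2)
    · exact Or.inr (hB.eq_of_fst C.bdE h1)
    · exfalso
      rcases faces_of_fst' h1 with h3 | h3
      · exact hB.2 (h3 ▸ hPU hJ)
      · exact hB.2 (h3 ▸ hPU hJ')
    · exact Or.inl (hB.eq_of_fst hu h1)
    · exact Or.inl (hB.eq_of_fst hu h1)
    · exact absurd (h1 _ (sideB B)).2 hB.2
    · exact absurd (hPU (h1 _ (sideB B)).1.1) hB.2
    · exact absurd (hPU (h1 _ (sideB B)).2) hB.2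
    · exact absurd (hPU (hQP (h1 _ (sideB B)).1)) hB.2

/-- The sides of the closed chain at the contour of `T`. -/
theorem closed_T (h : StH0 U P Q γ f₀ y β D m₁ m₂) {K : Set (ℤ × ℤ)} {J e : UE × Bool}
    {M : Set UE} {Φ : ℤ × ℤ → ZMod 2} (C : Closed U P Q K β β J D e M Φ)
    (hJ : BD (compT (U \ Q) f₀) J) {B : UE × Bool} (hB : BD (compT (U \ Q) f₀) B)
    (hM : B.1 ∈ M) : B = J ∨ B = e := by
  have hBU := h.TU hB.1
  have step : ahead (rv B) ∈ U \ Q → False := fun hh =>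
    hB.2 (compT_step hB.1 (AdjF.symm (adjF_ahead B)) hh)
  rcases C.cls _ hM with h1 | h1 | h1 | h1 | h1 | h1 | h1 | h1 | h1
  · rcases C.eD with h2 | ⟨h2, -, -⟩
    · exact Or.inr (hB.eq_of_fst (h.bdT C.bdE C.eD) (h2 ▸ h1))
    · exfalso
      rcases faces_of_fst' h1 with h3 | h3
      · exact hB.2 (h3 ▸ h.RT h.bdD'.1)
      · exact step (h3 ▸ ⟨h2, h.DQ⟩)
  · exact Or.inr (hB.eq_of_fst (h.bdT C.bdE C.eD) h1)
  · exact Or.inl (hB.eq_of_fst hJ h1)
  · exfalso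
    rcases faces_of_fst h1 with h3 | h3
    · exact hBU.2 (h3 ▸ h.BQ)
    · exact h.bdU.2 (h3 ▸ hBU.1)
  · exfalso
    rcases faces_of_fst h1 with h3 | h3
    · exact hBU.2 (h3 ▸ h.BQ)
    · exact h.bdU.2 (h3 ▸ hBU.1)
  · exfalso
    have h2 := h1 _ (sideB B)
    exact step ⟨h2.2, fun hq => h2.1 (Or.inr hq)⟩
  · exfalso
    have h2 := h1 _ (sideB B)
    exact step ⟨h.PU h2.1.1, h2.1.2⟩
  · exact absurd (h1 _ (sideA B)).1 hBU.2
  · exact absurd (h1 _ (sideA B)).1 hBU.2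

/-- The faces of a cell of the needle have no sides in the closed chain. -/
theorem closed_K (h : StH0 U P Q γ f₀ y β D m₁ m₂) {v : ℤ × ℤ} (hv : v ∈ VQ P Q γ)
    {J e : UE × Bool} {M : Set UE} {Φ : ℤ × ℤ → ZMod 2}
    (C : Closed U P Q {f | γ f = γ v} β β J D e M Φ) (hJ : ahead J ∉ {f | γ f = γ v})
    (hJQ : ahead (rv J) ∈ Q) {f : ℤ × ℤ} (hf : γ f = γ v) (hfQ : f ∉ Q) {a : UE}
    (ha : IsSide f a) : a ∉ M := by
  intro hM
  have hfV : f ∈ VQ P Q γ := VQ_sat h.cell hf.symm hv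
  have hfR : f ∉ compT (P \ VQ P Q γ) f₀ := fun hh => (h.RP hh).2 hfV
  have two : ∀ B : UE × Bool, a = B.1 → f = ahead B ∨ f = ahead (rv B) := fun B hB =>
    side_two (ahead_ne B) (sideA B) (sideB B) (hB ▸ ha)
  have hd : a ≠ D.1 := by
    intro h1
    rcases two D h1 with h3 | h3
    · exact hfR (h3 ▸ h.bdD'.1)
    · exact h.bdD.2 (h3 ▸ hfV.1)
  rcases C.cls _ hM with h1 | h1 | h1 | h1 | h1 | h1 | h1 | h1 | h1
  · exact hd h1
  · rcases C.eD with h2 | ⟨-, h2, -⟩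
    · exact hd (h2 ▸ h1)
    · rcases two e h1 with h3 | h3
      · exact h2 (h3 ▸ hfV.1)
      · exact C.bdE.2 (h3 ▸ h.PU hfV.1)
  · rcases two J h1 with h3 | h3
    · exact hJ (h3 ▸ hf)
    · exact hfQ (h3 ▸ hJQ)
  · rcases two β h1 with h3 | h3
    · exact hfQ (h3 ▸ h.BQ)
    · exact h.bdU.2 (h3 ▸ h.PU hfV.1)
  · rcases two β h1 with h3 | h3
    · exact hfQ (h3 ▸ h.BQ)
    · exact h.bdU.2 (h3 ▸ h.PU hfV.1)
  · exact (h1 _ ha).1 (Or.inl hfV.1)
  · exact (h1 _ ha).2 hf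
  · exact hfQ (h1 _ ha).1
  · exact hfQ (h1 _ ha).1

/-- The cell at the last side of the new region before the target. -/
theorem cell_near (h : StH0 U P Q γ f₀ y β D m₁ m₂) {mP mR p t u : ℕ}
    (hr : Rel P (compT (P \ VQ P Q γ) f₀) β mP mR p t u)
    (hs : StartD P (VQ P Q γ) (compT (P \ VQ P Q γ) f₀) mR) {k : ℕ} (hk : k + 1 = t) :
    outF (compT (P \ VQ P Q γ) f₀) (tipS P (compT (P \ VQ P Q γ) f₀)) k ∈ VQ P Q γ ∧
    ∀ f, γ f = γ (outF (compT (P \ VQ P Q γ) f₀) (tipS P (compT (P \ VQ P Q γ) f₀)) k) →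
      InB y m₂ f := by
  set R := compT (P \ VQ P Q γ) f₀ with hR
  have h1 := hr.t1
  have ht := hr.tgt
  have hv := hs.mid k (by omega) (by omega)
  have hB : BD P (side R (tipS P R) t) := hs.lst t (by omega) (by have := hs.le; omega)
  refine ⟨hv, h.near _ hv _ hB.2 ⟨lf (side R (tipS P R) t), ?_, isCor_out_lf _⟩⟩
  rw [← hk, side_succ, lf_sc]
  exact isCor_out_rg _

/-- **No far side between the linked side `E` and the target.** -/
theorem no_far (h : StH0 U P Q γ f₀ y β D m₁ m₂) {mP mR p t u mU mT p' t' u' : ℕ}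
    (hr : Rel P (compT (P \ VQ P Q γ) f₀) β mP mR p t u)
    (hs : StartD P (VQ P Q γ) (compT (P \ VQ P Q γ) f₀) mR)
    (hr' : Rel U (compT (U \ Q) f₀) β mU mT p' t' u')
    (hs' : StartD U Q (compT (U \ Q) f₀) mT) {k i j : ℕ} (hk : k + 1 = t)
    (hE : rg (side (compT (U \ Q) f₀) (tipS U (compT (U \ Q) f₀)) i)
        = rg (side (compT (P \ VQ P Q γ) f₀) (tipS P (compT (P \ VQ P Q γ) f₀)) k) ∨
      (outF (compT (P \ VQ P Q γ) f₀) (tipS P (compT (P \ VQ P Q γ) f₀)) k ∉ Q ∧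
        ChI ({f | γ f = γ (outF (compT (P \ VQ P Q γ) f₀)
          (tipS P (compT (P \ VQ P Q γ) f₀)) k)} \ Q)
          (outF (compT (P \ VQ P Q γ) f₀) (tipS P (compT (P \ VQ P Q γ) f₀)) k)
          (ahead (side (compT (U \ Q) f₀) (tipS U (compT (U \ Q) f₀)) i))))
    (hij : i < j) (hj : j < t') :
    InB y m₁ (outF (compT (U \ Q) f₀) (tipS U (compT (U \ Q) f₀)) j) := by
  by_contra hfar
  obtain ⟨hv, hK⟩ := h.cell_near hr hs hk
  set R := compT (P \ VQ P Q γ) f₀ with hR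
  set T := compT (U \ Q) f₀ with hT
  set A := tipS P R with hA
  set A' := tipS U T with hA'
  set v := outF R A k with hvd
  set K : Set (ℤ × ℤ) := {f | γ f = γ v} with hKd
  have htt := hr'.tgt
  set J := side T A' j with hJd
  have hJT : BD T J := bd_side hs'.cyc.bd j
  have hJQ : ahead (rv J) ∈ Q := hs'.mid j (by omega) (by omega)
  have hJU := h.TU hJT.1
  obtain ⟨⟨haP, haB⟩, r, hrR, hch⟩ := h.lnk _ hJQ hfar _ hJU.1 hJU.2 (AdjF.symm (adjF_ahead J))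
  have hJP' : ahead (rv J) ∈ P := h.QP hJQ
  have hJK : ahead J ∉ K := fun hh => haB (hK _ hh)
  have hRS : R ⊆ (P \ Q) \ K := by
    intro f hf
    have h1 := h.RP hf
    exact ⟨⟨h1.1, fun hq => h1.2 (mem_VQ_of_Q h1.1 hq)⟩, fun hh => h1.2 (VQ_sat h.cell hh.symm hv)⟩
  have hBS : ((P \ Q) \ {f | InB y m₂ f} : Set (ℤ × ℤ)) ⊆ (P \ Q) \ K := fun f hf =>
    ⟨hf.1, fun hh => hf.2 (hK _ hh)⟩
  have hRc : Top.EConn R := econn_compT h.f0
  have hL : ChI ((P \ Q) \ K) (ahead D) (ahead J) := by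
    have h1 : ChI R (ahead D) r := hRc _ h.bdD'.1 _ hrR
    have h2 : ChI ((P \ Q) \ {f | InB y m₂ f}) r (ahead J) := ChI.symm ⟨⟨haP, hJU.2⟩, haB⟩ hch
    exact (h1.mono hRS).trans (h2.mono hBS)
  obtain ⟨x, hx, hxch⟩ := h.exit
  obtain ⟨e, M, Φ, C⟩ := exists_closed0 (K := K) h.escU h.finU h.PU h.bdB h.BQ h.bdU
    ⟨⟨haP, hJU.2⟩, hJK⟩ ⟨hJQ, hJP'⟩ (h.inn _ hJQ hJP') h.bdD (hRS h.bdD'.1)
    h.DQ hL hx hxch
  obtain ⟨c1, c2⟩ := closed_side C h.PU h.QP h.bdB h.bdD h.bdU haP hJP'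
  -- the contour of `P`
  have e1 : Φ (lf (side R A t)) = Φ (rg β) := hr.pot h.bdD h.bdD' C.pot h.PU c1
  -- the contour of `U`
  have e2 : Φ (lf (side T A' t')) = Φ (rg β) :=
    hr'.pot C.bdE (h.bdT C.bdE C.eD) C.pot (subset_refl U) c2
  -- the contour of `T`
  have hTU : T ⊆ U := fun z hz => (h.TU hz).1
  have e4 : Φ (lf (side T A' t')) ≠ Φ (lf (side T A' (i + 1))) := by
    refine pot_change C.pot hTU hs'.cyc.bd (r := j) (by omega) hj fun l h1 h2 => ?_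
    constructor
    · intro hM
      rcases closed_T h C hJT (bd_side hs'.cyc.bd l) hM with h3 | h3
      · exact hs'.cyc.inj l (by have := hs'.le; omega) j (by have := hs'.le; omega) h3
      · exfalso
        have h4 := hs'.mid l (by omega) (by omega)
        have h5 : BD U (side T A' l) := by rw [h3]; exact C.bdE
        exact h5.2 (h.QU h4)
    · rintro rfl
      exact C.memJ
  rw [side_succ, lf_sc] at e4
  -- the link
  have e5 : Φ (rg (side T A' i)) = Φ (rg (side R A k)) := by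
    rcases hE with hE | ⟨hvQ, hE⟩
    · rw [hE]
    · have hKU : K \ Q ⊆ U := fun f hf => h.PU (VQ_sat h.cell hf.1.symm hv).1
      refine (pot_chain C.pot hKU (fun f hf a ha => closed_K h hv C hJK hJQ hf.1 hf.2 ha)
        ⟨rfl, hvQ⟩ hE ?_ (isCor_in_rg _)).symm
      exact isCor_out_rg _
  have e6 : lf (side R A t) = rg (side R A k) := by rw [← hk, side_succ, lf_sc]
  apply e4
  rw [e2, e5, ← e6, e1]

/-- **The target at the start.** -/
theorem tgt_start (h : StH0 U P Q γ f₀ y β D m₁ m₂) :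
    ChI (compT (U \ Q) f₀ ∩ {f | InB y (max m₁ m₂ + 1) f})
      (ahead (tgtS U (compT (U \ Q) f₀))) (ahead (tgtS P (compT (P \ VQ P Q γ) f₀))) := by
  obtain ⟨mP, mR, p, t, u, hr, hs⟩ := h.relP
  obtain ⟨mU, mT, p', t', u', hr', hs'⟩ := h.relU
  have hdef : tgtS P (compT (P \ VQ P Q γ) f₀) = side (compT (P \ VQ P Q γ) f₀)
      (tipS P (compT (P \ VQ P Q γ) f₀)) t := by
    unfold tgtS
    rw [← hr.tgt]
  have hdef' : tgtS U (compT (U \ Q) f₀) = side (compT (U \ Q) f₀)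
      (tipS U (compT (U \ Q) f₀)) t' := by
    unfold tgtS
    rw [← hr'.tgt]
  rw [hdef, hdef']
  obtain ⟨k, hk⟩ : ∃ k, k + 1 = t := ⟨t - 1, by have := hr.t1; omega⟩
  obtain ⟨hv, hK⟩ := h.cell_near hr hs hk
  have nf := fun {i j : ℕ} => h.no_far hr hs hr' hs' hk (i := i) (j := j)
  have hRT := h.RT
  have hTU := h.TU
  set R := compT (P \ VQ P Q γ) f₀ with hR
  set T := compT (U \ Q) f₀ with hT
  set A := tipS P R with hA
  set A' := tipS U T with hA'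
  set v := outF R A k with hvd
  set G : Set (ℤ × ℤ) := T ∩ {f | InB y (max m₁ m₂ + 1) f} with hG
  have htt := hr'.tgt
  have hm1 : m₁ ≤ max m₁ m₂ := le_max_left _ _
  have hm2 : m₂ ≤ max m₁ m₂ := le_max_right _ _
  have big : ∀ {r : ℤ} {f : ℤ × ℤ}, r ≤ max m₁ m₂ + 1 → InB y r f → InB y (max m₁ m₂ + 1) f := by
    intro r f hr hf
    unfold InB at *
    omega
  have hBR : BD R (side R A k) := bd_side hs.cyc.bd k
  have hvk : IsCor v (rg (side R A k)) := isCor_out_rg _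
  have hvB : InB y m₂ v := hK v rfl
  have hB1 : ahead (side R A k) ∈ G := by
    refine ⟨hRT hBR.1, big (r := m₂ + 1) (by omega) (StH.cor_near hvk (isCor_in_rg _) hvB)⟩
  -- the last step, inside `R`
  have s3 : ChI G (ahead (side R A k)) (ahead (side R A t)) := by
    rw [← hk, side_succ]
    refine chiMono (inner_chain R (side R A k)) fun z hz => ⟨hRT hz.1, ?_⟩
    exact big (r := m₂ + 1) (by omega) (StH.cor_near hvk hz.2 hvB)
  -- the side `E`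
  obtain ⟨E, hET, hEQ, hEc, hEn, hEl⟩ : ∃ E, BD T E ∧ ahead (rv E) ∈ Q ∧
      ChI G (ahead E) (ahead (side R A k)) ∧ (∃ f, IsCor f (rg E) ∧ InB y m₂ f) ∧
      (rg E = rg (side R A k) ∨ (v ∉ Q ∧ ChI ({f | γ f = γ v} \ Q) v (ahead E))) := by
    by_cases hvQ : v ∈ Q
    · exact ⟨side R A k, ⟨hRT hBR.1, fun hh => (hTU hh).2 hvQ⟩, hvQ, ChI.refl _,
        ⟨v, hvk, hvB⟩, Or.inl rfl⟩
    · have hv' := hv
      obtain ⟨hvP, q, hq, hqv⟩ := hv'
      have h1 : ChI {w | γ w = γ v} v q := by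
        have h2 := chn_joinIn (h.conn v q hqv.symm)
        exact h2
      obtain ⟨c, q', h3, h4, h5, h6, h7⟩ := first_entry (T := {w | γ w = γ v}) (D := Q) rfl hvQ h1 hq
      obtain ⟨E, rfl, rfl⟩ := exists_dir h6
      have hvT : v ∈ T := compT_step (hRT hBR.1) (AdjF.symm (adjF_ahead (side R A k)))
        ⟨h.PU hvP, hvQ⟩
      have hKU : ({w | γ w = γ v} \ Q : Set (ℤ × ℤ)) ⊆ U \ Q := fun f hf =>
        ⟨h.PU (VQ_sat h.cell hf.1.symm hv).1, hf.2⟩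
      have hKT : ∀ f, ChI ({w | γ w = γ v} \ Q) v f → f ∈ T := fun f hf =>
        ChI.mem hvT (compT_chain hvT (hf.mono hKU))
      have hch : ChI G (ahead E) v := by
        have h8 : ChI ({w | γ w = γ v} \ Q) (ahead E) v := ChI.symm ⟨rfl, hvQ⟩ h3
        have hET : ahead E ∈ T := hKT _ h3
        have h9 : ChI (T ∩ {f | γ f = γ v}) (ahead E) v := by
          clear hET
          have h10 : ∀ z, ChI ({w | γ w = γ v} \ Q) v z → ChI (T ∩ {f | γ f = γ v}) v z := by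
            intro z hz
            induction hz with
            | refl => exact ChI.refl _
            | @tail b c hb hs ih => exact ih.tail ⟨hs.1, hKT _ (hb.tail hs), hs.2.1⟩
          exact ChI.symm ⟨hvT, rfl⟩ (h10 _ h3)
        exact chiMono h9 fun z hz => ⟨hz.1, big (r := m₂) (by omega) (hK z hz.2)⟩
      refine ⟨E, ⟨hKT _ h3, fun hh => (hTU hh).2 h7⟩, h7,
        hch.trans (ChI.single (adjF_ahead (side R A k)) hB1),
        ⟨ahead E, isCor_in_rg _, hK _ h4⟩, Or.inr ⟨hvQ, h3⟩⟩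
  obtain ⟨i, hi, hiE⟩ := hs'.cyc.exists_index hET
  have hnb : ¬ BD U (side T A' i) := by
    rw [hiE]
    exact fun hh => hh.2 (h.QU hEQ)
  have hi0 : i ≠ 0 := by
    rintro rfl
    exact hnb hs'.bd
  have hit : i < t' := by
    by_contra hge
    exact hnb (hs'.lst i (by omega) hi.le)
  -- the contour of `T` from `E` to the target
  have s1 : ∀ j, i ≤ j → j ≤ t' → ChI G (ahead (side T A' i)) (ahead (side T A' j)) := by
    intro j hj
    induction j, hj using Nat.le_induction with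
    | base => exact fun _ => ChI.refl _
    | succ j hj ih =>
      intro hjt
      refine (ih (by omega)).trans ?_
      rw [side_succ]
      refine chiMono (inner_chain T (side T A' j)) fun z hz => ⟨hz.1, ?_⟩
      rcases Nat.eq_or_lt_of_le hj with h1 | h1
      · obtain ⟨f, hf1, hf2⟩ := hEn
        rw [← hiE, h1] at hf1
        exact big (r := m₂ + 1) (by omega) (StH.cor_near hf1 hz.2 hf2)
      · have h2 := nf (i := i) (j := j) (by rw [hiE]; exact hEl) h1 (by omega)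
        exact big (r := m₁ + 1) (by omega) (StH.cor_near (isCor_out_rg _) hz.2 h2)
  have hEG : ahead E ∈ G := by
    obtain ⟨f, hf1, hf2⟩ := hEn
    exact ⟨hET.1, big (r := m₂ + 1) (by omega) (StH.cor_near hf1 (isCor_in_rg _) hf2)⟩
  have s2 : ChI G (ahead (side T A' t')) (ahead E) := by
    have h1 := s1 t' (by omega) le_rfl
    rw [hiE] at h1
    exact ChI.symm hEG h1
  exact s2.trans (hEc.trans s3)

end StH0

end Pool.Agent.SixB.StartA
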