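import Pool.Agent.Lib.SixB.S8InvT
import Pool.Agent.Lib.SixB.S8StartTgt0

/-!
# Step 8: the target invariant, general form

`TgG U S b y`: the true target face `y` is joined to the face `b` of the coarse target side inside
`U ∩ S` (`S` a fixed box around the base).

* `TgG.notMem`: in a move which is not the last one, whose caps and exit sides are outside `S`, the
  component of `y` in `U ∩ S` is disjoint from the true domain `T`;
* `TgG.step`, `TgG.eq_comp`, `TgG.sub_comp`, `TgG.void`: the invariant after a step;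
* `TSide.tgg_notMem`, `TSide.tgg_step`: the instance for the true side of a move;
* `StartA.StH.tgg`, `StartA.StH0.tgg`: the invariant at the start of a needle step.
-/

set_option autoImplicit false

namespace Pool.Agent.SixB.Mv

open Pool.Agent.Perc Pool.Agent.Perc6 Pool.Agent.Perc6.C2Aux Pool.Agent.Perc.Tips
open Pool.Agent.SixB.Top Pool.Agent.SixB.CloK

variable {ι : Type*} {U P G T N S : Set (ℤ × ℤ)} {κ : ℤ × ℤ → ι} {d : ℤ}
  {A B : UE × Bool} {k₁ k₃ m : ℕ} {b y : ℤ × ℤ} {cR cL : Set (ℤ × ℤ)}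

/-- **The target invariant.** -/
def TgG (U S : Set (ℤ × ℤ)) (b y : ℤ × ℤ) : Prop := y ∈ U ∧ y ∈ S ∧ ChI (U ∩ S) y b

namespace TgG

theorem mem (h : TgG U S b y) : y ∈ U := h.1

theorem memS (h : TgG U S b y) : y ∈ S := h.2.1

theorem mem' (h : TgG U S b y) : b ∈ U ∧ b ∈ S := ChI.mem (S := U ∩ S) ⟨h.1, h.2.1⟩ h.2.2

theorem symm (h : TgG U S b y) : TgG U S y b :=
  ⟨h.mem'.1, h.mem'.2, ChI.symm ⟨h.1, h.2.1⟩ h.2.2⟩

theorem mono {S' : Set (ℤ × ℤ)} (h : TgG U S b y) (hS : ∀ f ∈ S, f ∈ S') : TgG U S' b y :=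
  ⟨h.1, hS _ h.2.1, StartA.chiMono h.2.2 fun z hz => ⟨hz.1, hS z hz.2⟩⟩

/-- A chain which starts in `T` and ends outside `T` crosses a boundary side of `T`. -/
theorem exists_cross {W : Set (ℤ × ℤ)} {f g : ℤ × ℤ} (hf : f ∈ W) (hfT : f ∈ T) (h : ChI W f g)
    (hg : g ∉ T) : ∃ B : UE × Bool, BD T B ∧ ahead B ∈ W ∧ ahead (rv B) ∈ W := by
  have key : g ∈ T ∨ ∃ B : UE × Bool, BD T B ∧ ahead B ∈ W ∧ ahead (rv B) ∈ W := by
    clear hg
    induction h with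
    | refl => exact Or.inl hfT
    | @tail x z hx hs ih =>
      rcases ih with h1 | h1
      · by_cases hz : z ∈ T
        · exact Or.inl hz
        · right
          obtain ⟨B, rfl, rfl⟩ := StartA.exists_dir hs.1
          exact ⟨B, ⟨h1, hz⟩, ChI.mem hf hx, hs.2⟩
      · exact Or.inr h1
  exact key.resolve_left hg

/-- **The component of the target in `U ∩ S` is disjoint from the true domain of the move.** -/
theorem notMem (h : TgG U S b y) (H : Clo U P G T A k₁ k₃ m cR cL)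
    (hcomp : ∀ t ∈ T, ∀ g, AdjF t g → g ∉ T → g ∉ U ∨ g ∈ P ∨ g ∈ cR ∨ g ∈ cL)
    (hcap : ∀ f ∈ U, f ∈ S → f ∉ cR ∧ f ∉ cL)
    (hex : ∀ i, k₁ ≤ i → i < k₃ → ahead ((sc G)^[i] A) ∉ S)
    (hb : b ∈ P) (hbG : b ∉ G) : ∀ f, ChI (U ∩ S) y f → f ∉ T := by
  intro f hf hfT
  have hyU : y ∈ U ∩ S := ⟨h.1, h.2.1⟩
  have hfU : f ∈ U ∩ S := ChI.mem hyU hf
  have hch : ChI (U ∩ S) f b := (ChI.symm hyU hf).trans h.2.2
  obtain ⟨B, hB, hB1, hB2⟩ := exists_cross hfU hfT hch (H.not_mem hb hbG)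
  rcases H.bd hcomp hB with h1 | ⟨i, hi1, hi2, hi3⟩ | h1 | h1
  · exact h1 hB2.1
  · exact hex i hi1 hi2 (by rw [hi3]; exact hB1.2)
  · exact (hcap _ hB2.1 hB2.2).1 h1
  · exact (hcap _ hB2.1 hB2.2).2 h1

/-- **The invariant after a step.** -/
theorem step (h : TgG U S b y) (hN : ∀ f, ChI (U ∩ S) y f → f ∉ N) :
    y ∉ N ∧ b ∉ N ∧ TgG (compT (U \ N) y) S b y ∧ compT (U \ N) y = compT (U \ N) b := by
  have hyN : y ∉ N := hN y (ChI.refl _)
  have hbN : b ∉ N := hN b h.2.2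
  have h1 : ∀ f, ChI (U ∩ S) y f → ChI (U \ N) y f := by
    intro f hf
    unfold ChI at hf
    induction hf with
    | refl => exact ChI.refl _
    | @tail x z hx hs ih => exact ih.tail ⟨hs.1, hs.2.1, hN z (hx.tail hs)⟩
  have h2 : ∀ f, ChI (U ∩ S) y f → ChI (compT (U \ N) y ∩ S) y f := by
    intro f hf
    unfold ChI at hf
    induction hf with
    | refl => exact ChI.refl _
    | @tail x z hx hs ih => exact ih.tail ⟨hs.1, h1 z (hx.tail hs), hs.2.2⟩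
  exact ⟨hyN, hbN, ⟨self_mem_compT, h.2.1, h2 b h.2.2⟩,
    (compT_eq (W := U \ N) ⟨h.1, hyN⟩ (h1 b h.2.2)).symm⟩

/-- The new coarse set is contained in the new component. -/
theorem sub_comp (h : TgG U S b y) (hPU : P ⊆ U) {V : Set (ℤ × ℤ)}
    (hNV : ∀ f ∈ N, f ∈ P → f ∈ V) (hN : ∀ f, ChI (U ∩ S) y f → f ∉ N) :
    compT (P \ V) b ⊆ compT (U \ N) y := by
  rw [(h.step hN).2.2.2]
  exact compT_mono fun f hf => ⟨hPU hf.1, fun hh => hf.2 (hNV f hh hf.1)⟩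

end TgG

/-! ### The true side of a move -/

namespace TSide

variable {D : Set (ℤ × ℤ)} {a b L : ℤ} {τ : UE × Bool} {p q : ℕ} {Y : Set (ℤ × ℤ)}
  {Tf : Finset (ℤ × ℤ)} {n N₁ N₂ mU M s t u K : ℕ}
  (R : TSide U P D κ a b L A τ m p q Y Tf n N₁ N₂ mU M s t u K) (H : Mvd U P D κ d A m p q)

include R H

/-- The component of the target is not in `T`. -/
theorem tgg_notMem (hB : BD P B) (hBG : ahead B ∉ inn D A Y) (h : TgG U S (ahead B) y)
    (hcap : ∀ f ∈ U, f ∈ S → f ∉ capK U κ (CloK.gR D A Y N₁) ∧ f ∉ capK U κ (CloK.gL D A Y N₂))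
    (hex : ∀ i, N₁ ≤ i → i < N₂ → inF (inn D A Y) A i ∉ S) :
    ∀ f, ChI (U ∩ S) y f → f ∉ (Tf : Set (ℤ × ℤ)) :=
  h.notMem (R.clo H) (R.hcomp H) hcap hex hB.1 hBG

/-- **The target invariant after a regular move.** `N` = the visited faces. -/
theorem tgg_step (hB : BD P B) (hBG : ahead B ∉ inn D A Y) (h : TgG U S (ahead B) y)
    (hcap : ∀ f ∈ U, f ∈ S → f ∉ capK U κ (CloK.gR D A Y N₁) ∧ f ∉ capK U κ (CloK.gL D A Y N₂))
    (hex : ∀ i, N₁ ≤ i → i < N₂ → inF (inn D A Y) A i ∉ S)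
    (hN : ∀ f ∈ N, f ∈ U → f ∈ (Tf : Set (ℤ × ℤ))) :
    y ∉ N ∧ ahead B ∉ N ∧ TgG (compT (U \ N) y) S (ahead B) y ∧
      compT (U \ N) y = compT (U \ N) (ahead B) :=
  h.step fun f hf hh => R.tgg_notMem H hB hBG h hcap hex f hf
    (hN f hh (ChI.mem (S := U ∩ S) ⟨h.1, h.2.1⟩ hf).1)

end TSide

/-- The caps are outside a set `S` whose faces in `U` are not in the classes of the two outer faces. -/
theorem cap_out {g g' : ℤ × ℤ} (hS : ∀ f ∈ U, f ∈ S → κ f ≠ κ g ∧ κ f ≠ κ g') :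
    ∀ f ∈ U, f ∈ S → f ∉ capK U κ g ∧ f ∉ capK U κ g' := fun f hf hfS =>
  ⟨fun h => (hS f hf hfS).1 (capK_class h), fun h => (hS f hf hfS).2 (capK_class h)⟩

end Pool.Agent.SixB.Mv

/-! ### The start -/

namespace Pool.Agent.SixB.StartA

open Pool.Agent.Perc Pool.Agent.Perc6 Pool.Agent.Perc6.C2Aux Pool.Agent.Perc.Tips
open Pool.Agent.SixB.Top Pool.Agent.SixB.LC Pool.Agent.SixB.Mv

/-- From the side `k` of `T` to the side `k + 1`. -/
theorem tgg_pred {T : Set (ℤ × ℤ)} {A : UE × Bool} {y b : ℤ × ℤ} {r : ℤ} {k : ℕ} (hA : BD T A)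
    (h : TgG T {f | InB y r f} b (ahead (side T A (k + 1)))) :
    TgG T {f | InB y (r + 1) f} b (ahead (side T A k)) := by
  have hw : IsCor (ahead (side T A (k + 1))) (rg (side T A k)) := by
    rw [side_succ, ← lf_sc T (side T A k)]
    exact isCor_in_lf _
  have hB := h.2.1
  have hin : ∀ f, IsCor f (rg (side T A k)) → InB y (r + 1) f := fun f hf =>
    StH.cor_near hw hf hB
  have hbig : ∀ f, InB y r f → InB y (r + 1) f := by
    intro f hf
    unfold InB at *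
    omega
  refine ⟨(bd_side hA k).1, hin _ (isCor_in_rg _), ?_⟩
  have h1 : ChI (T ∩ {f | InB y (r + 1) f}) (ahead (side T A k)) (ahead (side T A (k + 1))) := by
    rw [side_succ]
    exact chiMono (inner_chain T (side T A k)) fun z hz => ⟨hz.1, hin z hz.2⟩
  exact h1.trans (chiMono h.2.2 fun z hz => ⟨hz.1, hbig z hz.2⟩)

/-- The first face of a chain in a box. -/
theorem chi_near {T : Set (ℤ × ℤ)} {x b y : ℤ × ℤ} {r : ℤ} (h : ChI (T ∩ {f | InB y r f}) x b)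
    (hb : InB y (r + 1) b) : InB y (r + 1) x := by
  rcases Relation.ReflTransGen.cases_head h with rfl | ⟨z, hz, -⟩
  · exact hb
  · obtain ⟨v, hv1, hv2⟩ := exists_cor hz.1
    exact StH.cor_near hv2 hv1 hz.2.2

/-- The target invariant from a chain to the first old side of the true contour. -/
theorem tgg_of {U Q T : Set (ℤ × ℤ)} {y b : ℤ × ℤ} {β : UE × Bool} {r : ℤ}
    {mU mT p' t' u' : ℕ} (hr' : Rel U T β mU mT p' t' u') (hs' : StartD U Q T mT)
    (h1 : ChI (T ∩ {f | InB y r f}) (ahead (tgtS U T)) b) (hb : InB y (r + 1) b) :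
    Cyc T (tipS U T) mT ∧ 1 < t' ∧ t' ≤ mT ∧
      (∀ i, 0 < i → i < t' → outF T (tipS U T) i ∈ Q) ∧
      (∀ i, t' ≤ i → i ≤ mT → BD U (side T (tipS U T) i)) ∧
      ∀ x, x = t' ∨ x + 1 = t' → TgG T {f | InB y (r + 2) f} b (ahead (side T (tipS U T) x)) := by
  have ht := hr'.tgt
  have hdef : tgtS U T = side T (tipS U T) t' := by
    unfold tgtS
    rw [← ht]
  rw [hdef] at h1
  have hm := chi_near h1 hb
  have hbig : ∀ {r r' : ℤ} {f : ℤ × ℤ}, r ≤ r' → InB y r f → InB y r' f := by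
    intro r r' f hr hf
    unfold InB at *
    omega
  have h2 : TgG T {f | InB y (r + 1) f} b (ahead (side T (tipS U T) t')) :=
    ⟨(bd_side hs'.cyc.bd t').1, hm, chiMono h1 fun z hz => ⟨hz.1, hbig (by omega) hz.2⟩⟩
  refine ⟨hs'.cyc, hr'.t1, hr'.tm, fun i hi1 hi2 => hs'.mid i hi1 (by omega),
    fun i hi1 hi2 => hs'.lst i (by omega) hi2, ?_⟩
  rintro x (rfl | hx)
  · exact h2.mono fun z hz => hbig (by omega) hz
  · have h3 := tgg_pred (k := x) hs'.cyc.bd (by rw [hx]; exact h2)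
    rwa [show r + 1 + 1 = r + 2 by ring] at h3

section

variable {U P Q : Set (ℤ × ℤ)} {γ : ℤ × ℤ → ℤ × ℤ} {f₀ y : ℤ × ℤ} {β βU D : UE × Bool} {m₁ m₂ : ℤ}

/-- The face of the coarse target side is near the base. -/
theorem StH.tgt_near (h : StH U P Q γ f₀ y β βU D m₁ m₂) :
    InB y (m₂ + 1) (ahead (tgtS P (compT (P \ VQ P Q γ) f₀))) := by
  obtain ⟨mP, mR, p, t, u, hr, hs⟩ := h.relP
  obtain ⟨k, hk⟩ : ∃ k, k + 1 = t := ⟨t - 1, by have := hr.t1; omega⟩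
  obtain ⟨-, hK⟩ := h.cell_near hr hs hk
  unfold tgtS
  rw [← hr.tgt, ← hk, side_succ]
  refine StH.cor_near (isCor_out_rg _) ?_ (hK _ rfl)
  rw [← lf_sc (compT (P \ VQ P Q γ) f₀)]
  exact isCor_in_lf _

theorem StH0.tgt_near (h : StH0 U P Q γ f₀ y β D m₁ m₂) :
    InB y (m₂ + 1) (ahead (tgtS P (compT (P \ VQ P Q γ) f₀))) := by
  obtain ⟨mP, mR, p, t, u, hr, hs⟩ := h.relP
  obtain ⟨k, hk⟩ : ∃ k, k + 1 = t := ⟨t - 1, by have := hr.t1; omega⟩
  obtain ⟨-, hK⟩ := h.cell_near hr hs hk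
  unfold tgtS
  rw [← hr.tgt, ← hk, side_succ]
  refine StH.cor_near (isCor_out_rg _) ?_ (hK _ rfl)
  rw [← lf_sc (compT (P \ VQ P Q γ) f₀)]
  exact isCor_in_lf _

/-- **The target invariant at the start.** The true target side is the side `kt` of `T` or the side
before it. -/
theorem StH.tgg (h : StH U P Q γ f₀ y β βU D m₁ m₂) :
    ∃ mT kt, Cyc (compT (U \ Q) f₀) (tipS U (compT (U \ Q) f₀)) mT ∧ 1 < kt ∧ kt ≤ mT ∧
      (∀ i, 0 < i → i < kt → outF (compT (U \ Q) f₀) (tipS U (compT (U \ Q) f₀)) i ∈ Q) ∧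
      (∀ i, kt ≤ i → i ≤ mT → BD U (side (compT (U \ Q) f₀) (tipS U (compT (U \ Q) f₀)) i)) ∧
      ∀ x, x = kt ∨ x + 1 = kt → TgG (compT (U \ Q) f₀) {f | InB y (max m₁ m₂ + 3) f}
        (ahead (tgtS P (compT (P \ VQ P Q γ) f₀)))
        (ahead (side (compT (U \ Q) f₀) (tipS U (compT (U \ Q) f₀)) x)) := by
  obtain ⟨mU, mT, p', t', u', hr', hs'⟩ := h.relU
  have h2 : InB y (max m₁ m₂ + 1 + 1) (ahead (tgtS P (compT (P \ VQ P Q γ) f₀))) := by
    have h3 := h.tgt_near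
    have h4 := le_max_right m₁ m₂
    unfold InB at *
    omega
  have h1 := tgg_of hr' hs' h.tgt_start h2
  rw [show max m₁ m₂ + 1 + 2 = max m₁ m₂ + 3 by ring] at h1
  exact ⟨mT, t', h1⟩

/-- **The target invariant at the start**, needle without a hook. -/
theorem StH0.tgg (h : StH0 U P Q γ f₀ y β D m₁ m₂) :
    ∃ mT kt, Cyc (compT (U \ Q) f₀) (tipS U (compT (U \ Q) f₀)) mT ∧ 1 < kt ∧ kt ≤ mT ∧
      (∀ i, 0 < i → i < kt → outF (compT (U \ Q) f₀) (tipS U (compT (U \ Q) f₀)) i ∈ Q) ∧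
      (∀ i, kt ≤ i → i ≤ mT → BD U (side (compT (U \ Q) f₀) (tipS U (compT (U \ Q) f₀)) i)) ∧
      ∀ x, x = kt ∨ x + 1 = kt → TgG (compT (U \ Q) f₀) {f | InB y (max m₁ m₂ + 3) f}
        (ahead (tgtS P (compT (P \ VQ P Q γ) f₀)))
        (ahead (side (compT (U \ Q) f₀) (tipS U (compT (U \ Q) f₀)) x)) := by
  obtain ⟨mU, mT, p', t', u', hr', hs'⟩ := h.relU
  have h2 : InB y (max m₁ m₂ + 1 + 1) (ahead (tgtS P (compT (P \ VQ P Q γ) f₀))) := by
    have h3 := h.tgt_near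
    have h4 := le_max_right m₁ m₂
    unfold InB at *
    omega
  have h1 := tgg_of hr' hs' h.tgt_start h2
  rw [show max m₁ m₂ + 1 + 2 = max m₁ m₂ + 3 by ring] at h1
  exact ⟨mT, t', h1⟩

end

end Pool.Agent.SixB.StartA
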