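import Pool.Agent.Lib.SixB.S8ScanU

/-!
# Step 8: the scan with an arbitrary rule for the needles

The state is the set `U` of the remaining vertices of the box. A rule chooses, as a function of the
step and of the explored edges, a needle: a finite connected set `Q` of edges of the remaining part with
a base vertex, near a removed vertex. The step opens the needle and removes the vertices of the cluster
of the base and all the vertices which it encloses.
-/

set_option autoImplicit false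

namespace Pool.Agent.SixB.Rule

open Set Pool.Agent.Perc Pool.Agent.PercD Pool.Agent.PercO Pool.Agent.SixB.Scan
open Pool.Agent.MP_6bd702.H23 Pool.Agent.MP_6bd702.H60
open Pool.Agent.PercU (Cor vtx fce nxt nxtE qry)

/-! ### Definitions -/

/-- A needle: its edges and its base. -/
abbrev Ndl := Finset Edg × (ℤ × ℤ)

/-- The vertices of a set of edges. -/
def qV (Q : Finset Edg) : Finset (ℤ × ℤ) := Q.image tl ∪ Q.image hd

/-- The configuration in which the cluster of the needle is explored. -/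
noncomputable def cfQ (T : Finset Edg) (U : Finset (ℤ × ℤ)) (q : Ndl) : Finset Edg := rst T U ∪ q.1

open Classical in
/-- One step. -/
noncomputable def stpQ (T : Finset Edg) (U : Finset (ℤ × ℤ)) (q : Ndl) : Finset (ℤ × ℤ) :=
  U.filter fun w => w ∉ Swal (cfQ T U q) q.2

/-- A rule chooses the needle of every step. -/
abbrev Rul := ℕ → Finset Edg → Option Ndl

/-- The remaining vertices after `j` steps. -/
noncomputable def stR (n : ℕ) (R : Rul) (T : Finset Edg) : ℕ → Finset (ℤ × ℤ)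
  | 0 => Box n
  | j + 1 => (R j T).elim (stR n R T j) (stpQ T (stR n R T j))

/-- `q` is a needle for the remaining vertices `U`. -/
structure IsNdl (h : ℕ) (U : Finset (ℤ × ℤ)) (q : Ndl) : Prop where
  ends : ∀ e ∈ q.1, tl e ∈ U ∧ hd e ∈ U
  base : q.2 ∈ qV q.1
  conn : ∀ v ∈ qV q.1, v ∈ clV q.1 q.2
  att : ∃ v ∈ qV q.1, ∃ w, w ∉ U ∧ |v.1 - w.1| ≤ 1 ∧ |v.2 - w.2| ≤ 1
  diam : ∀ v ∈ qV q.1, dist (toC v) (toC q.2) ≤ 3 * h

/-- The rule chooses needles of size `h` and depends only on the explored edges. -/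
structure RulOK (n h : ℕ) (R : Rul) : Prop where
  ndl : ∀ T, T ⊆ boxE n → ∀ j q, R j T = some q → IsNdl h (stR n R T j) q
  loc : ∀ T T', T ⊆ boxE n → T' ⊆ boxE n → ∀ j,
    (∀ e ∈ boxE n, (tl e ∉ stR n R T j ∨ hd e ∉ stR n R T j) → (e ∈ T ↔ e ∈ T')) → R j T' = R j T

/-- The cluster of the needle reaches distance `ρ`. -/
def Mac (ρ : ℝ) (T : Finset Edg) (U : Finset (ℤ × ℤ)) (q : Ndl) : Prop :=
  ∃ u ∈ clV (cfQ T U q) q.2, ρ < dist (toC u) (toC q.2)

/-- The curve of a step. -/
noncomputable def crv (n : ℕ) (T : Finset Edg) (U : Finset (ℤ × ℤ)) (q : Ndl) : Curve :=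
  outerCurve n (cfQ T U q) q.2

/-- Two different clusters of the remaining part meet the needle and reach distance `ρ`. -/
def TwoArms (ρ : ℝ) (T : Finset Edg) (U : Finset (ℤ × ℤ)) (q : Ndl) : Prop :=
  ∃ x ∈ qV q.1, ∃ y ∈ qV q.1, y ∉ clV (rst T U) x ∧
    (∃ u ∈ clV (rst T U) x, ρ < dist (toC u) (toC q.2)) ∧
    ∃ u ∈ clV (rst T U) y, ρ < dist (toC u) (toC q.2)

/-- A step of a dual path: `f` and `g` are the two faces at a closed edge `e` of the remaining part
(both ends in `U`) which is not an edge of the needle. -/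
def DStep (n : ℕ) (T : Finset Edg) (U : Finset (ℤ × ℤ)) (q : Ndl) (f g : ℤ × ℤ) : Prop :=
  ∃ e ∈ boxE n, tl e ∈ U ∧ hd e ∈ U ∧ e ∉ T ∧ e ∉ q.1 ∧
    ((side e true = f ∧ side e false = g) ∨ (side e true = g ∧ side e false = f))

/-- A dual path of closed edges of the remaining part from the needle to distance `ρ`. -/
def DualArm (ρ : ℝ) (n : ℕ) (T : Finset Edg) (U : Finset (ℤ × ℤ)) (q : Ndl) : Prop :=
  ∃ e ∈ q.1, ∃ b : Bool, ∃ f, Relation.ReflTransGen (DStep n T U q) (side e b) f ∧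
    ρ < dist (ctr f) (toC q.2) + 1

/-- The step `j` is macroscopic. -/
def MacR (ρ : ℝ) (n : ℕ) (R : Rul) (T : Finset Edg) (j : ℕ) : Prop :=
  ∃ q, R j T = some q ∧ Mac ρ T (stR n R T j) q

/-- The step `j` is macroscopic and bad. -/
def BadR (ρ : ℝ) (n : ℕ) (R : Rul) (T : Finset Edg) (j : ℕ) : Prop :=
  ∃ q, R j T = some q ∧ Mac ρ T (stR n R T j) q ∧
    (TwoArms ρ T (stR n R T j) q ∨ DualArm ρ n T (stR n R T j) q)

/-- The curve of the step `j`. -/
noncomputable def crvR (n : ℕ) (R : Rul) (T : Finset Edg) (j : ℕ) : Curve :=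
  (R j T).elim (outerCurve n ∅ (0, 0)) (crv n T (stR n R T j))

/-- No cluster of diameter at least `D` which is left after `m` steps encloses the neighbourhood of a
point of the grid of mesh `n / K`. -/
def FinR (D : ℝ) (n K m : ℕ) (R : Rul) (T : Finset Edg) : Prop :=
  ∀ a b : ℕ, a < K + 2 → b < K + 2 → ∀ v ∈ stR n R T m, D ≤ Metric.diam (clS T v) →
    ∃ w : ℤ × ℤ, dist (toC w) (toC (((a * (n / K) : ℕ) : ℤ), ((b * (n / K) : ℕ) : ℤ))) ≤
      4 * (n / K : ℕ) ∧ w ∉ Swal T v

/-- The scan finds the largest clusters, and the curves of its macroscopic steps are close to outer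
perimeters. -/
def ScanGood (n m : ℕ) (R : Rul) (r ε : ℝ) (T : Finset Edg) : Prop :=
  (∀ v, IsTop n T v → ∃ j < m, MacR (2 * r * n) n R T j ∧
    cdiam (outerCurve n T v) ≤ cdiam (crvR n R T j)) ∧
  ∀ j < m, MacR (r * n) n R T j → ∃ v ∈ Box n, dist (outerCurve n T v) (crvR n R T j) ≤ ε

/-- What the chain has to deliver (units 8H, 8K). -/
def RecordScan : Prop := ∀ (r ε : ℝ), 0 < r → 0 < ε → ∃ K₀ : ℕ, ∀ K, K₀ ≤ K →
  ∃ (m : ℕ) (S : Type) (_ : Fintype S) (F : S → ℕ → Option Curve) (out : ℕ → Finset Edg → S)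
    (a : S → ℝ) (N : ℕ), ∀ n, N ≤ n → (∑ k, |prB n {T | out n T = k} - a k| ≤ ε) ∧
      ∃ R : Rul, RulOK n (n / K) R ∧
        prB n {T | ¬ (FinR (8 * r * n) n K m R T ∧ ∀ j < m,
          (MacR (2 * r * n) n R T j → ∃ c, F (out n T) j = some c) ∧
          ∀ c, F (out n T) j = some c → MacR (r * n) n R T j ∧ dist c (crvR n R T j) ≤ ε)} ≤ ε

end Pool.Agent.SixB.Rule
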