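import Pool.Agent.Lib.SixB.S8Back2
import Pool.Agent.Lib.SixB.S8ScanR
import Pool.Agent.Lib.MP_6bd702_z.Z015

/-!
# Step 8: from a chain of moves to `RecordScan`

A chain of moves (`ChnD`): records `s`, stopping sets `S`, bad events `Bd` of the stages, with
resolutions `d` chosen backwards. `ChnOK` collects the rows of the chain: locality, initial law,
bad events, conditional laws. `ChnOut` is the output row. `recordScan_of_chn` is the assembly.
-/

set_option autoImplicit false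

namespace Pool.Agent.SixB

open Filter Topology Finset Pool.Agent.Perc Pool.Agent.PercD

/-- A chain of moves: the possible records `R i ℓ` of the stage `i` at the resolution `ℓ`, the growth
`G` of the resolutions, the records `s d n i`, the explored faces `S d n i` and the bad event
`Bd d n i` of the stage `i`. -/
structure ChnD (A : Type) where
  R : ℕ → ℕ → Finset A
  G : ℕ → ℕ → ℕ
  s : (ℕ → ℕ) → ℕ → ℕ → Cfg → A
  S : (ℕ → ℕ) → ℕ → ℕ → Cfg → Set (ℤ × ℤ)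
  Bd : (ℕ → ℕ) → ℕ → ℕ → Set Cfg

namespace ChnD

variable {A : Type}

/-- The resolutions grow fast enough. -/
def Gro (c : ChnD A) (m : ℕ) (d : ℕ → ℕ) : Prop := ∀ i < m, c.G i (d (i + 1)) ≤ d i

/-- The possible histories. -/
noncomputable def hst [DecidableEq A] (c : ChnD A) (d : ℕ → ℕ) (m : ℕ) : Finset (List A) :=
  histS (fun i => c.R i (d i)) m

end ChnD

/-- The rows of the chain. -/
structure ChnOK {A : Type} [DecidableEq A] (c : ChnD A) (W : ℕ → Finset (ℤ × ℤ)) : Prop where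
  /-- the records are possible records -/
  mem : ∀ d n i ω, c.s d n i ω ∈ c.R i (d i)
  /-- the explored set is a stopping set -/
  stop : ∀ d n m ω ω', (∀ f ∈ c.S d n m ω, ω f = ω' f) → c.S d n m ω' = c.S d n m ω
  /-- the records are decided by the explored set -/
  recd : ∀ d n m i, i ≤ m → ∀ ω ω', (∀ f ∈ c.S d n m ω, ω f = ω' f) →
    c.s d n i ω' = c.s d n i ω
  /-- the bad events are decided by the explored set -/
  bad : ∀ d n m i, i ≤ m → ∀ ω ω', (∀ f ∈ c.S d n m ω, ω f = ω' f) →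
    (ω ∈ c.Bd d n i ↔ ω' ∈ c.Bd d n i)
  /-- the law of the first record converges -/
  init : ∀ d : ℕ → ℕ, ∀ a ∈ c.R 0 (d 0), Conv fun n => pr (W n) {ω | c.s d n 0 ω = a}
  /-- the bad events are rare -/
  rare : ∀ (m ℓ : ℕ) (η : ℝ), 0 < η → ∃ L : ℕ, ∀ d : ℕ → ℕ, d (m + 1) = ℓ → L ≤ d m →
    c.Gro (m + 1) d → ∀ᶠ n in atTop, pr (W n) (c.Bd d n m) ≤ η
  /-- the conditional laws of the records -/
  law : ∀ (m ℓ : ℕ) (η : ℝ), 0 < η → ∃ L : ℕ, ∀ d : ℕ → ℕ, d (m + 1) = ℓ → L ≤ d m →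
    c.Gro (m + 1) d → ∃ q : List A → A → ℕ → ℝ,
      (∀ x ∈ c.hst d m, ∀ a ∈ c.R (m + 1) ℓ, Conv (q x a)) ∧
      (∀ x ∈ c.hst d m, ∀ a ∈ c.R (m + 1) ℓ, ∀ n, |q x a n| ≤ 1) ∧
      ∀ᶠ n in atTop, ∀ x ∈ c.hst d m, ∀ a ∈ c.R (m + 1) ℓ, ∀ ω,
        histL (c.s d n) m ω = x → (∀ i ≤ m, ω ∉ c.Bd d n i) →
        |pr (W n) {ξ | c.s d n (m + 1) (PercT.mix (c.S d n m ω) ω ξ) = a} - q x a n| ≤ η

/-- **The chain of moves**, in terms of the rows. -/
theorem ChnOK.chain {A : Type} [DecidableEq A] {c : ChnD A} {W : ℕ → Finset (ℤ × ℤ)}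
    (h : ChnOK c W) (N ℓ : ℕ) {η : ℝ} (hη : 0 < η) :
    ∃ d : ℕ → ℕ, d N = ℓ ∧ c.Gro N d ∧
      (∀ i < N, ∀ᶠ n in atTop, pr (W n) (c.Bd d n i) ≤ η) ∧ ∃ α : List A → ℝ,
      ∀ᶠ n in atTop, ∑ x ∈ c.hst d N, |pr (W n) {ω | histL (c.s d n) N ω = x} - α x| ≤ η := by
  refine back_chain_stop W c.R c.G c.s c.S c.Bd h.stop h.recd h.bad h.init ?_ ?_ N ℓ hη
  · intro m ℓ η hη
    obtain ⟨L, hL⟩ := h.rare m ℓ η hη
    exact ⟨L, fun d h1 h2 h3 => hL d h1 h2 fun i hi => h3 i (by omega)⟩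
  · intro m ℓ η hη
    obtain ⟨L, hL⟩ := h.law m ℓ η hη
    refine ⟨L, fun d h1 h2 h3 => ?_⟩
    obtain ⟨q, q1, q2, q3⟩ := hL d h1 h2 fun i hi => h3 i (by omega)
    subst h1
    exact ⟨q, q1, q2, q3⟩

/-! ### The output -/

open PercX60 (Sn pr_Sn)
open Rule

open Classical in
/-- A configuration with given open edges. -/
noncomputable def cfgI (n : ℕ) (T : Finset Edg) : Cfg :=
  if h : ∃ ω, cfgE n ω = T then h.choose else fun _ => false

theorem cfgE_cfgI (n : ℕ) (ω : Cfg) : cfgE n (cfgI n (cfgE n ω)) = cfgE n ω := by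
  have h : ∃ ω', cfgE n ω' = cfgE n ω := ⟨ω, rfl⟩
  rw [cfgI, dif_pos h]
  exact h.choose_spec

/-- The records depend on the edges of the box only. -/
def ChnD.Loc {A : Type} (c : ChnD A) : Prop :=
  ∀ d n i ω ω', cfgE n ω = cfgE n ω' → c.s d n i ω = c.s d n i ω'

/-- The output row: if the last resolution is fine, all the resolutions grow, and the bad events are
rare, then the list of curves `F` of the history is close to the curves of the macroscopic steps. -/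
def ChnOut {A : Type} (c : ChnD A) (K m N : ℕ) (r ε : ℝ) : Prop :=
  ∃ (ℓ : ℕ) (η : ℝ), 0 < η ∧ ∀ d : ℕ → ℕ, d N = ℓ → c.Gro N d →
    (∀ i < N, ∀ᶠ n in atTop, pr (Sn n) (c.Bd d n i) ≤ η) →
    ∃ F : List A → ℕ → Option Curve, ∀ᶠ n in atTop, ∃ R : Rul, RulOK n (n / K) R ∧
      pr (Sn n) {ω | ¬ (FinR (8 * r * n) n K m R (cfgE n ω) ∧ ∀ j < m,
        (MacR (2 * r * n) n R (cfgE n ω) j →
          ∃ u, F (histL (c.s d n) N ω) j = some u) ∧
        ∀ u, F (histL (c.s d n) N ω) j = some u →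
          MacR (r * n) n R (cfgE n ω) j ∧ dist u (crvR n R (cfgE n ω) j) ≤ ε)} ≤ ε

/-- **The assembly**: chains of moves with convergent laws and good outputs give `RecordScan`. -/
theorem recordScan_of_chn (H : ∀ r ε : ℝ, 0 < r → 0 < ε → ∃ K₀ : ℕ, ∀ K, K₀ ≤ K →
    ∃ (A : Type) (_ : DecidableEq A) (c : ChnD A) (m N : ℕ), ChnOK c Sn ∧ c.Loc ∧
      ChnOut c K m N r ε) : RecordScan := by
  intro r ε hr hε
  obtain ⟨K₀, hK₀⟩ := H r ε hr hε
  refine ⟨K₀, fun K hK => ?_⟩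
  obtain ⟨A, _, c, m, N, hc, hloc, ℓ, η, hη, hout⟩ := hK₀ K hK
  obtain ⟨d, hdN, hgro, hBd, α, hα⟩ := hc.chain N ℓ (η := min η ε) (lt_min hη hε)
  obtain ⟨F, hF⟩ := hout d hdN hgro fun i hi => (hBd i hi).mono fun n hn =>
    hn.trans (min_le_left _ _)
  have hmem : ∀ n ω, histL (c.s d n) N ω ∈ c.hst d N := fun n ω =>
    histL_mem fun i _ => hc.mem d n i ω
  have hhist : ∀ n ω, histL (c.s d n) N (cfgI n (cfgE n ω)) = histL (c.s d n) N ω :=
    fun n ω => histL_congr fun i _ => hloc d n i _ _ (cfgE_cfgI n ω)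
  obtain ⟨N₀, hN₀⟩ := eventually_atTop.1 (hα.and hF)
  refine ⟨m, {x // x ∈ c.hst d N}, inferInstance, fun x j => F x.1 j,
    fun n T => ⟨histL (c.s d n) N (cfgI n T), hmem n _⟩, fun x => α x.1, N₀, fun n hn => ?_⟩
  obtain ⟨h1, R, hR, h2⟩ := hN₀ n hn
  have h3 : ∀ x : {x // x ∈ c.hst d N},
      prB n {T | (⟨histL (c.s d n) N (cfgI n T), hmem n _⟩ : {x // x ∈ c.hst d N}) = x} =
      pr (Sn n) {ω | histL (c.s d n) N ω = x.1} := by
    intro x
    rw [← pr_Sn]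
    congr 1
    ext ω
    simp only [Set.mem_ofPred_eq, Subtype.ext_iff, hhist]
  refine ⟨?_, R, hR, ?_⟩
  · simp_rw [h3]
    rw [← Finset.sum_coe_sort (c.hst d N)
      fun x => |pr (Sn n) {ω | histL (c.s d n) N ω = x} - α x|] at h1
    exact h1.trans (min_le_right _ _)
  · rw [← pr_Sn]
    simp only [Set.mem_ofPred_eq, hhist]
    exact h2

end Pool.Agent.SixB
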