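import Mathlib

/-!
# Step 8: the scales

The resolutions of a chain are exponents `d 0, d 1, …` (large = fine). For the mesh parameter `n` the common
unit is `n / 2 ^ d 0` and the length of exponent `e ≤ d 0` is `ls d n e = (n / 2 ^ d 0) * 2 ^ (d 0 - e)`, so
that the quotient of two lengths is an exact power of 2.

* `ls_mul`, `ls_pos`, `ls_anti`, `ls_le`, `le_ls`: the lengths;
* `eS a b = (2 * a + b) / 3`, `eR a b = (a + 2 * b) / 3`: the exponents of `s` and `ρ` for `d m = a`,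
  `d (m + 1) = b`; `eS_eR`: the gaps are at least `(a - b) / 3 - 1`;
* `exists_scale`: `B * (x / y) ^ α ≤ η` if `x * 2 ^ j ≤ c * y` and `j` is large;
* `exists_scale2`: the sum of the errors of a move.
-/

set_option autoImplicit false

namespace Pool.Agent.SixB.Sc

open Filter Topology

/-- The length of exponent `e`. -/
def ls (d : ℕ → ℕ) (n e : ℕ) : ℤ := ((n / 2 ^ d 0 : ℕ) : ℤ) * 2 ^ (d 0 - e)

theorem ls_nonneg (d : ℕ → ℕ) (n e : ℕ) : 0 ≤ ls d n e := by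
  unfold ls
  positivity

theorem ls_mul {d : ℕ → ℕ} (n : ℕ) {e e' : ℕ} (h : e ≤ e') (h' : e' ≤ d 0) :
    ls d n e = ls d n e' * 2 ^ (e' - e) := by
  unfold ls
  rw [mul_assoc, ← pow_add]
  congr 2
  omega

theorem ls_pos {d : ℕ → ℕ} {n : ℕ} (hn : 2 ^ d 0 ≤ n) (e : ℕ) : 0 < ls d n e := by
  unfold ls
  have h1 : 0 < n / 2 ^ d 0 := Nat.div_pos hn (by positivity)
  have h2 : (0 : ℤ) < ((n / 2 ^ d 0 : ℕ) : ℤ) := by exact_mod_cast h1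
  positivity

theorem unit_le_ls {d : ℕ → ℕ} (n e : ℕ) : ((n / 2 ^ d 0 : ℕ) : ℤ) ≤ ls d n e := by
  unfold ls
  have h1 : (1 : ℤ) ≤ 2 ^ (d 0 - e) := one_le_pow₀ (by norm_num)
  have h2 : (0 : ℤ) ≤ ((n / 2 ^ d 0 : ℕ) : ℤ) := by positivity
  nlinarith

theorem ls_anti {d : ℕ → ℕ} (n : ℕ) {e e' : ℕ} (h : e ≤ e') : ls d n e' ≤ ls d n e := by
  unfold ls
  refine mul_le_mul_of_nonneg_left ?_ (by positivity)
  exact pow_le_pow_right₀ (by norm_num) (by omega)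

/-- The length of exponent `e` is at most `n / 2 ^ e`. -/
theorem ls_le {d : ℕ → ℕ} (n : ℕ) {e : ℕ} (h : e ≤ d 0) : ls d n e * 2 ^ e ≤ n := by
  unfold ls
  have h1 : (2 : ℤ) ^ (d 0 - e) * 2 ^ e = 2 ^ d 0 := by
    rw [← pow_add]; congr 1; omega
  rw [mul_assoc, h1]
  exact_mod_cast Nat.div_mul_le_self n (2 ^ d 0)

/-- The length of exponent `e` is at least `n / 2 ^ (e + 1)`. -/
theorem le_ls {d : ℕ → ℕ} {n : ℕ} (hn : 2 ^ d 0 ≤ n) {e : ℕ} (h : e ≤ d 0) :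
    (n : ℤ) ≤ ls d n e * 2 ^ (e + 1) := by
  unfold ls
  have h1 : (2 : ℤ) ^ (d 0 - e) * 2 ^ (e + 1) = 2 ^ d 0 * 2 := by
    rw [← pow_add, ← pow_succ]; congr 1; omega
  rw [mul_assoc, h1]
  have h2 : n < (n / 2 ^ d 0 + 1) * 2 ^ d 0 := by
    have := Nat.lt_mul_div_succ n (show 0 < 2 ^ d 0 by positivity)
    rw [mul_comm]; exact this
  have h3 : 1 ≤ n / 2 ^ d 0 := Nat.div_pos hn (by positivity)
  have h4 : n ≤ n / 2 ^ d 0 * (2 ^ d 0 * 2) := by nlinarith [Nat.pos_of_neZero (2 ^ d 0)]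
  exact_mod_cast h4

/-- The unit is as large as we want. -/
theorem eventually_unit (d : ℕ → ℕ) (M : ℤ) : ∀ᶠ n : ℕ in atTop, ∀ e, M ≤ ls d n e := by
  filter_upwards [eventually_ge_atTop (M.toNat * 2 ^ d 0)] with n hn e
  refine le_trans ?_ (unit_le_ls n e)
  have h1 : M.toNat ≤ n / 2 ^ d 0 := (Nat.le_div_iff_mul_le (by positivity)).2 hn
  have h2 : M ≤ (M.toNat : ℤ) := Int.self_le_toNat M
  have h3 : ((M.toNat : ℕ) : ℤ) ≤ ((n / 2 ^ d 0 : ℕ) : ℤ) := by exact_mod_cast h1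
  exact h2.trans h3

/-- The exponent of `s` between `d m = a` and `d (m + 1) = b`. -/
def eS (a b : ℕ) : ℕ := (2 * a + b) / 3

/-- The exponent of `ρ` between `d m = a` and `d (m + 1) = b`. -/
def eR (a b : ℕ) : ℕ := (a + 2 * b) / 3

theorem eS_eR {a b j : ℕ} (h : b + 3 * (j + 1) ≤ a) :
    b + j ≤ eR a b ∧ eR a b + j ≤ eS a b ∧ eS a b + j ≤ a := by
  unfold eS eR
  omega

theorem le_eR {a b : ℕ} (h : b ≤ a) : b ≤ eR a b ∧ eR a b ≤ eS a b ∧ eS a b ≤ a := by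
  unfold eS eR
  omega

/-- The quotients of the scales are at most `2 ^ (-j)`. -/
theorem ls_quot {d : ℕ → ℕ} (n : ℕ) {e e' j : ℕ} (h : e + j ≤ e') (h' : e' ≤ d 0) :
    ls d n e' * 2 ^ j ≤ ls d n e := by
  rw [ls_mul n (show e ≤ e' by omega) h']
  refine mul_le_mul_of_nonneg_left ?_ (ls_nonneg d n e')
  exact pow_le_pow_right₀ (by norm_num) (by omega)

/-- Powers of quotients of scales are small. -/
theorem exists_scale {α : ℝ} (hα : 0 < α) (B c : ℝ) {η : ℝ} (hη : 0 < η) :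
    ∃ J : ℕ, ∀ j, J ≤ j → ∀ x y : ℝ, 0 ≤ x → 0 < y → x * 2 ^ j ≤ c * y → B * (x / y) ^ α ≤ η := by
  have h1 : Tendsto (fun j : ℕ => max B 0 * ((max c 0) * (1 / 2 : ℝ) ^ j) ^ α) atTop (𝓝 0) := by
    have h2 : Tendsto (fun j : ℕ => (max c 0) * (1 / 2 : ℝ) ^ j) atTop (𝓝 0) := by
      have := (tendsto_pow_atTop_nhds_zero_of_lt_one (r := (1 / 2 : ℝ)) (by norm_num)
        (by norm_num)).const_mul (max c 0)
      simpa using this
    have h3 := h2.rpow_const (p := α) (Or.inr hα.le)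
    rw [Real.zero_rpow hα.ne'] at h3
    have h4 := h3.const_mul (max B 0)
    simpa using h4
  obtain ⟨J, hJ⟩ := eventually_atTop.1 (h1.eventually (gt_mem_nhds hη))
  refine ⟨J, fun j hj x y hx hy hxy => ?_⟩
  have h5 : x / y ≤ max c 0 * (1 / 2 : ℝ) ^ j := by
    rw [div_le_iff₀ hy]
    have h6 : x ≤ c * y / 2 ^ j := by
      rw [le_div_iff₀ (by positivity)]; exact hxy
    refine h6.trans ?_
    rw [one_div, inv_pow, mul_right_comm, ← div_eq_mul_inv]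
    refine div_le_div_of_nonneg_right ?_ (by positivity)
    exact mul_le_mul_of_nonneg_right (le_max_left _ _) hy.le
  have h7 : (x / y) ^ α ≤ (max c 0 * (1 / 2 : ℝ) ^ j) ^ α :=
    Real.rpow_le_rpow (by positivity) h5 hα.le
  have h8 : 0 ≤ (x / y) ^ α := by positivity
  calc B * (x / y) ^ α ≤ max B 0 * (x / y) ^ α := mul_le_mul_of_nonneg_right (le_max_left _ _) h8
    _ ≤ max B 0 * (max c 0 * (1 / 2 : ℝ) ^ j) ^ α := mul_le_mul_of_nonneg_left h7 (le_max_right _ _)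
    _ ≤ η := (hJ j hj).le

/-- The errors of a move: the transfer error at the cells, the transfer error at the tip, the caps. -/
theorem exists_scale3 {α₁ α₂ α₃ : ℝ} (h1 : 0 < α₁) (h2 : 0 < α₂) (h3 : 0 < α₃) (B C₁ C₂ C₃ c : ℝ)
    {η : ℝ} (hη : 0 < η) :
    ∃ J : ℕ, ∀ j, J ≤ j → ∀ x₁ y₁ x₂ y₂ x₃ y₃ : ℝ, 0 ≤ x₁ → 0 < y₁ → x₁ * 2 ^ j ≤ c * y₁ →
      0 ≤ x₂ → 0 < y₂ → x₂ * 2 ^ j ≤ c * y₂ → 0 ≤ x₃ → 0 < y₃ → x₃ * 2 ^ j ≤ c * y₃ →
      B * (C₁ * (x₁ / y₁) ^ α₁ + C₂ * (x₂ / y₂) ^ α₂ + C₃ * (x₃ / y₃) ^ α₃) ≤ η := by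
  obtain ⟨J₁, H₁⟩ := exists_scale h1 (B * C₁) c (show 0 < η / 3 by positivity)
  obtain ⟨J₂, H₂⟩ := exists_scale h2 (B * C₂) c (show 0 < η / 3 by positivity)
  obtain ⟨J₃, H₃⟩ := exists_scale h3 (B * C₃) c (show 0 < η / 3 by positivity)
  refine ⟨max J₁ (max J₂ J₃), fun j hj x₁ y₁ x₂ y₂ x₃ y₃ a1 b1 c1 a2 b2 c2 a3 b3 c3 => ?_⟩
  have e1 := H₁ j (by omega) x₁ y₁ a1 b1 c1
  have e2 := H₂ j (by omega) x₂ y₂ a2 b2 c2
  have e3 := H₃ j (by omega) x₃ y₃ a3 b3 c3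
  have e4 : B * (C₁ * (x₁ / y₁) ^ α₁ + C₂ * (x₂ / y₂) ^ α₂ + C₃ * (x₃ / y₃) ^ α₃) =
      B * C₁ * (x₁ / y₁) ^ α₁ + B * C₂ * (x₂ / y₂) ^ α₂ + B * C₃ * (x₃ / y₃) ^ α₃ := by ring
  rw [e4]
  linarith

end Pool.Agent.SixB.Sc
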