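import Pool.Agent.Lib.SixB.S8ScanR

/-!
# Step 8: invariants of the scan with an arbitrary rule
-/

set_option autoImplicit false

namespace Pool.Agent.SixB.Rule

open Set Pool.Agent.Perc Pool.Agent.PercD Pool.Agent.PercO Pool.Agent.SixB.Scan
open Pool.Agent.MP_6bd702.H23 Pool.Agent.MP_6bd702.H60
open Pool.Agent.PercU (Cor vtx fce nxt nxtE qry)

variable {n h : ℕ} {T : Finset Edg} {U : Finset (ℤ × ℤ)} {q : Ndl} {R : Rul}

/-! ### Needles -/

theorem mem_qV {Q : Finset Edg} {v : ℤ × ℤ} : v ∈ qV Q ↔ ∃ e ∈ Q, tl e = v ∨ hd e = v := by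
  unfold qV
  rw [Finset.mem_union, Finset.mem_image, Finset.mem_image]
  constructor
  · rintro (⟨e, he, h⟩ | ⟨e, he, h⟩)
    · exact ⟨e, he, Or.inl h⟩
    · exact ⟨e, he, Or.inr h⟩
  · rintro ⟨e, he, h | h⟩
    · exact Or.inl ⟨e, he, h⟩
    · exact Or.inr ⟨e, he, h⟩

theorem mem_qV_iff {Q : Finset Edg} {v : ℤ × ℤ} : v ∈ qV Q ↔ v ∈ Vs (Q : Set Ed) := by
  rw [mem_qV]
  unfold Vs
  rw [mem_ofPred_eq]
  simp only [tl_eq, hd_eq, Finset.mem_coe]

theorem IsNdl.mem (hq : IsNdl h U q) {v : ℤ × ℤ} (hv : v ∈ qV q.1) : v ∈ U := by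
  obtain ⟨e, he, h1 | h1⟩ := mem_qV.1 hv
  · rw [← h1]; exact (hq.ends e he).1
  · rw [← h1]; exact (hq.ends e he).2

theorem IsNdl.base_mem (hq : IsNdl h U q) : q.2 ∈ U := hq.mem hq.base

theorem IsNdl.sub (hq : IsNdl h U q) (hU : U ⊆ Box n) : q.1 ⊆ boxE n := fun e he => by
  have := hq.ends e he
  rw [tl_eq, hd_eq] at this
  exact mem_boxE'.2 ⟨hU this.1, hU this.2⟩

theorem rst_sub (hT : T ⊆ boxE n) : rst T U ⊆ boxE n := (Finset.filter_subset _ _).trans hT

theorem cfQ_sub (hq : IsNdl h U q) (hT : T ⊆ boxE n) (hU : U ⊆ Box n) : cfQ T U q ⊆ boxE n :=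
  Finset.union_subset (rst_sub hT) (hq.sub hU)

theorem coe_cfQ (hT : T ⊆ boxE n) : ((cfQ T U q : Finset Edg) : Set Ed) =
    frz (Hc n U) ((q.1 : Finset Edg) : Set Ed) (T : Set Ed) := by
  unfold cfQ
  rw [Finset.coe_union, coe_rst hT]
  ext e
  unfold frz
  rw [mem_union, mem_ofPred_eq, mem_ofPred_eq]
  constructor
  · rintro ((h | h) | h)
    · exact absurd h (notMem_empty _)
    · exact Or.inr h
    · exact Or.inl h
  · rintro (h | h)
    · exact Or.inr h
    · exact Or.inl (Or.inr h)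

/-! ### One step -/

theorem mem_stpQ {w : ℤ × ℤ} : w ∈ stpQ T U q ↔ w ∈ U ∧ w ∉ Swal (cfQ T U q) q.2 := by
  classical
  unfold stpQ
  rw [Finset.mem_filter]

theorem stpQ_sub : stpQ T U q ⊆ U := fun _ hw => (mem_stpQ.1 hw).1

theorem hc_stpQ (hq : IsNdl h U q) (hT : T ⊆ boxE n) (hU : U ⊆ Box n) : Hc n (stpQ T U q) =
    Hc n U ∪ Hul (frz (Hc n U) ((q.1 : Finset Edg) : Set Ed) (T : Set Ed)) q.2 := by
  rw [← coe_cfQ hT, ← swal_eq_hul]
  ext w
  unfold Hc
  rw [mem_union, mem_ofPred_eq, mem_ofPred_eq, mem_stpQ]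
  constructor
  · rintro ⟨h1, h2⟩
    by_cases hw : w ∈ U
    · right
      by_contra hc
      exact h2 ⟨hw, hc⟩
    · exact Or.inl ⟨h1, hw⟩
  · rintro (⟨h1, h2⟩ | h1)
    · exact ⟨h1, fun h => h2 h.1⟩
    · refine ⟨?_, fun h => h.2 h1⟩
      rw [swal_eq_hul, coe_cfQ hT] at h1
      have h2 := hul_notMem_ext (n := (n : ℤ)) (boxE_sub (hq.sub hU)) (boxE_sub hT)
        (a := q.2) (by rw [mem_Ext_iff, not_not]; exact hU hq.base_mem) h1
      rw [mem_Ext_iff, not_not] at h2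
      exact h2

/-- The vertices of the needle are in the cluster of its base. -/
theorem IsNdl.sub_clV (hq : IsNdl h U q) {v : ℤ × ℤ} (hv : v ∈ qV q.1) :
    v ∈ clV (cfQ T U q) q.2 :=
  BoxAux.clV_mono Finset.subset_union_right q.2 (hq.conn v hv)

theorem inv_stpQ (hT : T ⊆ boxE n) (hI : Inv n T U) (hq : IsNdl h U q) :
    Inv n T (stpQ T U q) := by
  obtain ⟨h1, h2, h3⟩ := (inv_iff hT).1 hI
  refine (inv_iff hT).2 ⟨stpQ_sub.trans h1, ?_, ?_⟩
  · rw [hc_stpQ hq hT h1]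
    exact closed_step h2 _
  · rw [hc_stpQ hq hT h1]
    obtain ⟨v, hv, w, hw, hvw⟩ := hq.att
    have hv' : v ∈ clV (cfQ T U q) q.2 := hq.sub_clV hv
    rw [clV_eq, coe_cfQ hT] at hv'
    refine att_step (boxE_sub (hq.sub h1)) (boxE_sub hT) h3 hv' ((hc_or_ext h1).2 hw) ?_
    unfold sd
    rw [max_le_iff]
    exact hvw

theorem stR_succ_none {j : ℕ} (h : R j T = none) : stR n R T (j + 1) = stR n R T j := by
  rw [stR, h]
  rfl

theorem stR_succ_some {j : ℕ} {q : Ndl} (h : R j T = some q) :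
    stR n R T (j + 1) = stpQ T (stR n R T j) q := by
  rw [stR, h]
  rfl

theorem stR_step_sub (n : ℕ) (R : Rul) (T : Finset Edg) (j : ℕ) :
    stR n R T (j + 1) ⊆ stR n R T j := by
  cases h : R j T with
  | none => rw [stR_succ_none h]
  | some q => rw [stR_succ_some h]; exact stpQ_sub

theorem stR_anti (n : ℕ) (R : Rul) (T : Finset Edg) {i j : ℕ} (hij : i ≤ j) :
    stR n R T j ⊆ stR n R T i := by
  induction j, hij using Nat.le_induction with
  | base => exact Finset.Subset.refl _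
  | succ j _ ih => exact (stR_step_sub n R T j).trans ih

theorem inv_stR (hR : RulOK n h R) (hT : T ⊆ boxE n) (j : ℕ) : Inv n T (stR n R T j) := by
  induction j with
  | zero => exact inv_box hT
  | succ j ih =>
    cases hj : R j T with
    | none => rw [stR_succ_none hj]; exact ih
    | some q => rw [stR_succ_some hj]; exact inv_stpQ hT ih (hR.ndl T hT j q hj)

/-! ### Swallowed clusters -/

/-- A cluster which meets the swallowed set is swallowed. -/
theorem clV_sub_swal (hT : T ⊆ boxE n) (hI : Inv n T U) (hq : IsNdl h U q) {v : ℤ × ℤ}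
    (hv : v ∈ U) (hs : v ∈ Swal (cfQ T U q) q.2) : clV T v ⊆ Swal (cfQ T U q) q.2 := by
  intro w hw
  by_contra hc
  have hI' := inv_stpQ hT hI hq
  have hw' : w ∈ stpQ T U q := mem_stpQ.2 ⟨clV_sub_of_inv hI hv hw, hc⟩
  have hv' : v ∈ clV T w := by
    rw [clV_eq_of_mem hw]
    exact Relation.ReflTransGen.refl
  exact (mem_stpQ.1 (clV_sub_of_inv hI' hw' hv')).2 hs

/-- If the vertices of a cluster are swallowed by another one then it is not wider. -/
theorem diam_le_of_sub_swal {T T' : Finset Edg} {u v : ℤ × ℤ} (hsub : clV T v ⊆ Swal T' u) :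
    Metric.diam (clS T v) ≤ Metric.diam (clS T' u) := by
  have hK := Perc.PercD.isCompact_clS T' u
  have h1 : clS T v ⊆ convexHull ℝ (toC '' clV T v) := by
    intro p hp
    obtain ⟨a, ha, b, hb, hab⟩ := SmallClusters.mem_clS hp
    have ha' : toC a ∈ toC '' clV T v := ⟨a, ha, rfl⟩
    have hb' : toC b ∈ toC '' clV T v := ⟨b, hb, rfl⟩
    exact (convex_convexHull ℝ _).segment_subset (subset_convexHull ℝ _ ha')
      (subset_convexHull ℝ _ hb') hab
  have hbd : Bornology.IsBounded (toC '' clV T v) :=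
    (Perc.PercD.isCompact_clS T v).isBounded.subset (by
      rintro _ ⟨w, hw, rfl⟩; exact Perc.PercD.toC_mem_clS hw)
  refine (Metric.diam_mono h1 (isBounded_convexHull.2 hbd)).trans ?_
  rw [convexHull_diam]
  refine Metric.diam_le_of_forall_dist_le Metric.diam_nonneg ?_
  rintro _ ⟨a, ha, rfl⟩ _ ⟨b, hb, rfl⟩
  obtain ⟨p, hp, hp'⟩ := exists_farther (swal_not_outU (hsub ha)) (toC b)
  obtain ⟨q, hq, hq'⟩ := exists_farther (swal_not_outU (hsub hb)) p
  rw [dist_comm (toC b) p, dist_comm q p] at hq'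
  exact (hp'.trans hq').trans (Metric.dist_le_diam_of_mem hK.isBounded hp hq)

/-- No cluster which is left encloses a removed vertex. -/
theorem not_swal (hT : T ⊆ boxE n) (hI : Inv n T U) {v w : ℤ × ℤ} (hv : v ∈ U) (hw : w ∉ U) :
    w ∉ Swal T v := by
  rintro (h1 | h1)
  · exact hw (clV_sub_of_inv hI hv h1)
  · apply h1
    rw [outer_iff]
    obtain ⟨hU, hC, hAtt⟩ := (inv_iff hT).1 hI
    have hTc : Tc (T : Set Ed) v ⊆ EW 0 (n : ℤ) 0 n := Tc_sub.trans (boxE_sub hT)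
    have hvH : v ∉ Hc n U := fun h => h.2 hv
    rcases (hc_or_ext hU).2 hw with h2 | h2
    · exact att_out (k := (w.1, w.2, true, true)) hTc hAtt
        (fun e he => ⟨closed_cluster' hC hvH he.2,
          closed_cluster' hC hvH (Conn.trans he.2 (conn_edge he.1))⟩) h2
    · exact ext_out (k := (w.1, w.2, true, true)) hTc h2

/-- The grid points near removed vertices are finished. -/
theorem finR_of {D : ℝ} {K m : ℕ} (hR : RulOK n h R) (hT : T ⊆ boxE n)
    (H : ∀ a b : ℕ, a < K + 2 → b < K + 2 → ∃ w : ℤ × ℤ, w ∉ stR n R T m ∧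
      dist (toC w) (toC (((a * (n / K) : ℕ) : ℤ), ((b * (n / K) : ℕ) : ℤ))) ≤ 4 * (n / K : ℕ)) :
    FinR D n K m R T := by
  intro a b ha hb v hv _
  obtain ⟨w, hw, hd⟩ := H a b ha hb
  exact ⟨w, hd, not_swal hT (inv_stR hR hT m) hv hw⟩

/-- A vertex which is not left has been swallowed by a step. -/
theorem exists_step {v : ℤ × ℤ} (hv : v ∈ Box n) {m : ℕ} (hm : v ∉ stR n R T m) :
    ∃ j < m, ∃ q, R j T = some q ∧ v ∈ stR n R T j ∧ v ∈ Swal (cfQ T (stR n R T j) q) q.2 := by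
  induction m with
  | zero => exact absurd hv hm
  | succ m ih =>
    by_cases h1 : v ∈ stR n R T m
    · refine ⟨m, Nat.lt_succ_self m, ?_⟩
      cases hj : R m T with
      | none => rw [stR_succ_none hj] at hm; exact absurd h1 hm
      | some q =>
        rw [stR_succ_some hj] at hm
        refine ⟨q, rfl, h1, ?_⟩
        by_contra hc
        exact hm (mem_stpQ.2 ⟨h1, hc⟩)
    · obtain ⟨j, hj, hh⟩ := ih h1
      exact ⟨j, Nat.lt_succ_of_lt hj, hh⟩

end Pool.Agent.SixB.Rule
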