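import Pool.Agent.Lib.SixB.S8OrdCurve
import Pool.Agent.Lib.SixB.S8ScanV

/-!
# Step 8: the loop around the cluster of a needle, from the base to the base

* `outerCurve_eq_corner`: the outer curve is the corner loop from any outer corner;
* `qry_eq_qryb_iff`: if the edge behind the corner `k₀` leads out of the cluster, the walk from `k₀`
  meets this edge only at the end of the period;
* `exists_far_corner`, `exists_far_time`: the walk reaches the distance which the cluster reaches.
-/

set_option autoImplicit false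

namespace Pool.Agent.SixB

open Set Filter Topology MeasureTheory TopologicalSpace Function
open Pool.Agent.Perc Pool.Agent.PercD
open Pool.Agent.MP_6bd702.H23 (Ed ea eb)
open Pool.Agent.PercU (Cor vtx fce nxt nxtE qry qryb rot rotb adv prv)
open Pool.Agent.PercO (Oc mem_Oc boxE_sub outer_orbit nxt_mem_Oc)

variable {n : ℕ} {T : Finset Edg} {u : ℤ × ℤ} {k₀ : Cor}

/-- The outer curve is the corner loop from any outer corner. -/
theorem outerCurve_eq_corner (hT : T ⊆ boxE n) (h1 : vtx k₀ ∈ clV T u)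
    (h2 : Outer T u (fce k₀)) :
    outerCurve n T u = SeparationQuotient.mk (cornerLoop n (T : Set Ed) k₀) := by
  unfold outerCurve
  rw [SeparationQuotient.mk_eq_mk, Metric.inseparable_iff]
  exact dist_outerLoop_cornerLoop hT h1 h2

/-- The walk stays at outer corners. -/
theorem iterate_outer (h1 : vtx k₀ ∈ clV T u) (h2 : Outer T u (fce k₀)) (t : ℕ) :
    vtx ((nxt (T : Set Ed))^[t] k₀) ∈ clV T u ∧ Outer T u (fce ((nxt (T : Set Ed))^[t] k₀)) := by
  induction t with
  | zero => exact ⟨h1, h2⟩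
  | succ t ih =>
    rw [iterate_succ_apply']
    exact PercO.outer_nxt ih.1 ih.2

/-- The corners which query the edge behind `k`. -/
theorem qry_eq_qryb {k k' : Cor} (h : qry k' = qryb k) :
    k' = rotb k ∨ (vtx k' ≠ vtx k ∧ (ea (qryb k) = vtx k' ∨ eb (qryb k) = vtx k')) := by
  have h' := Scan.qry_end k'
  rw [h] at h'
  by_cases hv : vtx k' = vtx k
  · left
    obtain ⟨x, y, s, t⟩ := k
    obtain ⟨x', y', s', t'⟩ := k'
    simp only [vtx, Prod.mk.injEq] at hv
    obtain ⟨rfl, rfl⟩ := hv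
    revert h
    clear h'
    cases s <;> cases t <;> cases s' <;> cases t' <;> simp [qry, qryb, rotb] <;> omega
  · exact Or.inr ⟨hv, h'⟩

/-- The ends of the edge behind a corner. -/
theorem qryb_ends (k : Cor) : ea (qryb k) ≠ eb (qryb k) ∧
    (ea (qryb k) = vtx k ∨ eb (qryb k) = vtx k) := by
  refine ⟨?_, Scan.qryb_end k⟩
  obtain ⟨x, y, d⟩ := qryb k
  cases d
  · rw [Pool.Agent.MP_6bd702.H23.ea_mk, Pool.Agent.MP_6bd702.H23.eb_false]
    intro h
    have := congrArg Prod.fst h
    simp at this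
  · rw [Pool.Agent.MP_6bd702.H23.ea_mk, Pool.Agent.MP_6bd702.H23.eb_true]
    intro h
    have := congrArg Prod.snd h
    simp at this

/-- The walk from `k₀` meets the edge behind `k₀` only at the end of the period. -/
theorem qry_eq_qryb_iff (hT : T ⊆ boxE n) (h1 : vtx k₀ ∈ clV T u) (h2 : Outer T u (fce k₀))
    {w : ℤ × ℤ} (hw : w ∉ clV T u) (hq : ea (qryb k₀) = w ∨ eb (qryb k₀) = w) {t : ℕ}
    (ht : t < minimalPeriod (nxtE (T : Set Ed)) k₀) :
    qry ((nxt (T : Set Ed))^[t] k₀) = qryb k₀ ↔ t + 1 = minimalPeriod (nxtE (T : Set Ed)) k₀ := by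
  classical
  set p := minimalPeriod (nxtE (T : Set Ed)) k₀ with hp
  have hwv : w ≠ vtx k₀ := fun h => hw (h ▸ h1)
  -- the edge is closed
  have hcl : qryb k₀ ∉ (T : Set Ed) := by
    intro hmem
    rw [Finset.mem_coe] at hmem
    have h3 := BoxAux.tl_mem_iff (u := u) hmem
    change ea (qryb k₀) ∈ clV T u ↔ eb (qryb k₀) ∈ clV T u at h3
    have h4 := (qryb_ends k₀).2
    rcases hq with h5 | h5 <;> rcases h4 with h6 | h6
    · exact hwv (h5.symm.trans h6)
    · rw [h5, h6] at h3; exact hw (h3.2 h1)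
    · rw [h5, h6] at h3; exact hw (h3.1 h1)
    · exact hwv (h5.symm.trans h6)
  have hperk : (nxt (T : Set Ed))^[p] k₀ = k₀ := iterate_minimalPeriod (f := nxtE (T : Set Ed))
  have hp0 : 0 < p := minimalPeriod_pos hT h1
  have hprv : (nxt (T : Set Ed))^[p - 1] k₀ = rotb k₀ := by
    have h3 : nxt (T : Set Ed) ((nxt (T : Set Ed))^[p - 1] k₀) = k₀ := by
      have h4 := iterate_succ_apply' (nxt (T : Set Ed)) (p - 1) k₀
      rw [← h4, Nat.succ_eq_add_one, Nat.sub_add_cancel hp0, hperk]
    have h4 : prv (T : Set Ed) (nxt (T : Set Ed) ((nxt (T : Set Ed))^[p - 1] k₀)) =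
        (nxt (T : Set Ed))^[p - 1] k₀ := PercU.prv_nxt _ _
    rw [h3] at h4
    rw [← h4]
    unfold prv
    rw [if_neg hcl]
  constructor
  · intro h3
    rcases qry_eq_qryb h3 with h4 | ⟨h4, h5⟩
    · rw [← hprv] at h4
      have h6 : t = p - 1 := by
        by_contra hne
        have h7 := iterate_injOn_Iio_minimalPeriod (f := nxtE (T : Set Ed)) (x := k₀)
          (show t ∈ Iio _ from ht) (show p - 1 ∈ Iio _ from by rw [mem_Iio]; omega) h4
        exact hne h7
      omega
    · exfalso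
      have h6 := (iterate_outer h1 h2 t).1
      have h7 := qryb_ends k₀
      have h8 : vtx ((nxt (T : Set Ed))^[t] k₀) = w := by
        rcases h7.2 with h8 | h8 <;> rcases h5 with h9 | h9 <;> rcases hq with h10 | h10
        · exact h9.symm.trans h10
        · exact absurd (h9.symm.trans h8) h4
        · exact absurd (h10.symm.trans h8) hwv
        · exact h9.symm.trans h10
        · exact h9.symm.trans h10
        · exact absurd (h10.symm.trans h8) hwv
        · exact absurd (h9.symm.trans h8) h4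
        · exact h9.symm.trans h10
      rw [h8] at h6
      exact hw h6
  · intro h3
    have h4 : t = p - 1 := by omega
    rw [h4, hprv, PercU.qry_rotb]

/-! ### Distance -/

/-- At a vertex of the cluster which is farthest from a given point there is an outer corner. -/
theorem exists_far_corner (hT : T ⊆ boxE n) (b : ℤ × ℤ) : ∃ k : Cor, vtx k ∈ clV T u ∧
    Outer T u (fce k) ∧ ∀ v ∈ clV T u, dist (toC v) (toC b) ≤ dist (toC (vtx k)) (toC b) := by
  have hfin : (clV T u).Finite := by
    rw [PercO.clV_eq]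
    exact PercO.finite_Kc (boxE_sub hT)
  obtain ⟨v, hv, hmax⟩ := Set.exists_max_image (clV T u) (fun v => dist (toC v) (toC b)) hfin
    ⟨u, BoxAux.mem_clV_self T u⟩
  set sx : Bool := decide (b.1 ≤ v.1) with hsx
  set sy : Bool := decide (b.2 ≤ v.2) with hsy
  refine ⟨(v.1, v.2, sx, sy), hv, ?_, hmax⟩
  -- the signs
  set σ : ℝ := if sx then 1 else -1 with hσ
  set τ : ℝ := if sy then 1 else -1 with hτ
  have hσx : 0 ≤ σ * ((v.1 : ℝ) - b.1) := by
    rw [hσ, hsx]
    by_cases h : b.1 ≤ v.1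
    · have : (b.1 : ℝ) ≤ v.1 := by exact_mod_cast h
      simp only [h, decide_true, if_true]
      linarith
    · have : (v.1 : ℝ) < b.1 := by exact_mod_cast not_le.1 h
      simp only [h, decide_false, Bool.false_eq_true, if_false]
      linarith
  have hτy : 0 ≤ τ * ((v.2 : ℝ) - b.2) := by
    rw [hτ, hsy]
    by_cases h : b.2 ≤ v.2
    · have : (b.2 : ℝ) ≤ v.2 := by exact_mod_cast h
      simp only [h, decide_true, if_true]
      linarith
    · have : (v.2 : ℝ) < b.2 := by exact_mod_cast not_le.1 h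
      simp only [h, decide_false, Bool.false_eq_true, if_false]
      linarith
  have hσ2 : σ * σ = 1 := by rw [hσ]; split_ifs <;> norm_num
  have hτ2 : τ * τ = 1 := by rw [hτ]; split_ifs <;> norm_num
  set f : ℝ → ℂ := fun s => toC v + ((s * σ : ℝ) : ℂ) + ((s * τ : ℝ) : ℂ) * Complex.I with hf
  have hfre : ∀ s, (f s).re = v.1 + s * σ := by
    intro s
    simp only [hf, Complex.add_re, DictC.toC_re, Complex.ofReal_re, Complex.mul_re,
      Complex.I_re, Complex.ofReal_im, Complex.I_im, mul_zero, zero_mul, sub_zero, add_zero]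
  have hfim : ∀ s, (f s).im = v.2 + s * τ := by
    intro s
    simp only [hf, Complex.add_im, DictC.toC_im, Complex.ofReal_re, Complex.mul_im,
      Complex.I_re, Complex.ofReal_im, Complex.I_im, mul_zero, mul_one, zero_mul, add_zero]
  have hctr : f (1 / 2) = ctr (fce (v.1, v.2, sx, sy)) := by
    apply Complex.ext
    · rw [hfre, DictC.ctr_re, hσ]
      unfold fce
      cases sx <;> simp <;> ring
    · rw [hfim, DictC.ctr_im, hτ]
      unfold fce
      cases sy <;> simp <;> ring
  have hdist : ∀ s : ℝ, 0 < s → dist (toC v) (toC b) < dist (f s) (toC b) := by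
    intro s hs
    rw [Complex.dist_eq, Complex.dist_eq, Complex.norm_def, Complex.norm_def]
    apply Real.sqrt_lt_sqrt (Complex.normSq_nonneg _)
    rw [Complex.normSq_apply, Complex.normSq_apply]
    simp only [Complex.sub_re, Complex.sub_im, hfre, hfim, DictC.toC_re, DictC.toC_im]
    nlinarith [mul_pos hs hs, mul_nonneg hs.le hσx, mul_nonneg hs.le hτy]
  have hsub : f '' Ioi 0 ⊆ (clS T u)ᶜ := by
    rintro _ ⟨s, hs, rfl⟩ hcl
    obtain ⟨x, hx, y, hy, hxy⟩ := SmallClusters.mem_clS hcl
    have h1 := (convex_closedBall (toC b) (dist (toC v) (toC b))).segment_subset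
      (hmax x hx) (hmax y hy) hxy
    have h2 := hdist s hs
    rw [Metric.mem_closedBall] at h1
    linarith
  have hfc : Continuous f := by
    rw [hf]
    fun_prop
  have hcon : IsPreconnected (f '' Ioi 0) := isPreconnected_Ioi.image _ hfc.continuousOn
  intro hb
  rw [← hctr] at hb
  have h1 : f '' Ioi 0 ⊆ connectedComponentIn (clS T u)ᶜ (f (1 / 2)) :=
    hcon.subset_connectedComponentIn ⟨1 / 2, by norm_num, rfl⟩ hsub
  obtain ⟨R, hR⟩ := (hb.subset h1).subset_closedBall (toC v)
  have hpos : (0 : ℝ) < |R| + 1 := by positivity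
  have h2 := hR ⟨|R| + 1, hpos, rfl⟩
  rw [Metric.mem_closedBall, Complex.dist_eq] at h2
  have h3 : |(f (|R| + 1) - toC v).re| ≤ ‖f (|R| + 1) - toC v‖ := Complex.abs_re_le_norm _
  rw [Complex.sub_re, hfre, DictC.toC_re] at h3
  have h4 : |(v.1 : ℝ) + (|R| + 1) * σ - v.1| = |R| + 1 := by
    rw [show (v.1 : ℝ) + (|R| + 1) * σ - v.1 = (|R| + 1) * σ by ring, abs_mul, abs_of_pos hpos]
    have : |σ| = 1 := by rw [hσ]; split_ifs <;> simp
    rw [this, mul_one]
  rw [h4] at h3
  have := le_abs_self R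
  linarith

/-- The walk reaches the distance which the cluster reaches. -/
theorem exists_far_time (hT : T ⊆ boxE n) (h1 : vtx k₀ ∈ clV T u) (h2 : Outer T u (fce k₀))
    (b : ℤ × ℤ) {ρ : ℝ} : (∃ v ∈ clV T u, ρ < dist (toC v) (toC b)) ↔
      ∃ t < minimalPeriod (nxtE (T : Set Ed)) k₀,
        ρ < dist (toC (vtx ((nxt (T : Set Ed))^[t] k₀))) (toC b) := by
  constructor
  · rintro ⟨v, hv, hρ⟩
    obtain ⟨k, hk1, hk2, hk3⟩ := exists_far_corner (u := u) hT b
    obtain ⟨t, ht⟩ := outer_orbit (boxE_sub hT) (mem_Oc.2 ⟨h1, h2⟩) (mem_Oc.2 ⟨hk1, hk2⟩)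
    have hp0 := minimalPeriod_pos hT h1
    refine ⟨t % minimalPeriod (nxtE (T : Set Ed)) k₀, Nat.mod_lt _ hp0, ?_⟩
    have h3 : (nxt (T : Set Ed))^[t % minimalPeriod (nxtE (T : Set Ed)) k₀] k₀ = k := by
      rw [← ht]
      exact iterate_mod_minimalPeriod_eq (f := nxtE (T : Set Ed))
    rw [h3]
    exact hρ.trans_le (hk3 v hv)
  · rintro ⟨t, -, hρ⟩
    exact ⟨_, (iterate_outer h1 h2 t).1, hρ⟩

end Pool.Agent.SixB
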