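import Pool.Agent.Lib.SixB.S8ScanNext
import Pool.Agent.Lib.SixB.S8ScanDetB

/-!
# Step 8: the steps of the scan as explorations

For a rule `R` the step `j` is the exploration `exR n R j`: the fresh faces are the faces of the edges
with both ends in the remaining set, off the needle; elsewhere the configuration is frozen: even on
the needle, odd elsewhere; the first unit edge is the base corner. It is adapted to the explored faces
`expl n R j` (`exR_ok`). The period of the base corner is the length of the exploration from the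
base to the base (`fa_eq_base_iff`).
-/

set_option autoImplicit false

namespace Pool.Agent.SixB.Dct

open Finset Pool.Agent.Perc Pool.Agent.PercU Pool.Agent.PercT Pool.Agent.PercX60
open Pool.Agent.PercO (mem_boxE' tl_eq hd_eq Kc Tc Oc Orb Tc_sub boxE_sub orb_eq_Oc orb_sub_Oc)
open Pool.Agent.MP_6bd702.H23 (Ed ea eb ea_mk eb_true eb_false f1 f2)
open Pool.Agent.MP_6bd702.H60 (Out)
open Pool.Agent.SixB Pool.Agent.SixB.Rule Pool.Agent.SixB.Scan
open Function (minimalPeriod)

variable {n h : ℕ} {U : Finset (ℤ × ℤ)} {Q T : Finset Edg} {k₀ : Cor} {R : Rul} {j : ℕ}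

/-! ### The base corner -/

namespace NdF

variable (hN : NdF U Q k₀)

include hN

theorem mem_clV_base (T : Finset Edg) : vtx k₀ ∈ clV (rst T U ∪ Q) (vtx k₀) :=
  Relation.ReflTransGen.refl

/-- The base corner is outer. -/
theorem outer (hT : T ⊆ boxE n) (hI : Rule.Inv n T U) :
    Outer (rst T U ∪ Q) (vtx k₀) (fce k₀) :=
  (PercO.mem_Oc.1 (hN.mem_Oc hT hI)).2

theorem base_notMem_clV : vtx (advb k₀) ∉ clV (rst T U ∪ Q) (vtx k₀) := by
  intro hc
  have key : ∀ v ∈ clV (rst T U ∪ Q) (vtx k₀), v ∈ U := by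
    intro v hv
    induction hv with
    | refl => exact hN.base
    | tail _ h1 _ =>
      obtain ⟨e, he, hh⟩ := h1
      rw [tl_eq, hd_eq] at hh
      have h2 := hN.avoid he
      rcases hh with ⟨-, h3⟩ | ⟨h3, -⟩
      · rw [← h3]; exact h2.2
      · rw [← h3]; exact h2.1
  exact hN.wall (key _ hc)

/-- **The loop is the exploration from the base to the base.** -/
theorem fa_eq_base_iff (hT : T ⊆ boxE n) (hI : Rule.Inv n T U) {t : ℕ}
    (ht : t < minimalPeriod (nxtE ((rst T U ∪ Q : Finset Edg) : Set Ed)) k₀) :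
    fa (pth (gT ((rst T U ∪ Q : Finset Edg) : Set Ed)) (kU k₀) t) = phiE (qryb k₀) ↔
      t + 1 = minimalPeriod (nxtE ((rst T U ∪ Q : Finset Edg) : Set Ed)) k₀ := by
  rw [← kU_iterate, fa_kU, phiE_injective.eq_iff]
  refine qry_eq_qryb_iff (hN.cfg_sub hT hI.sub) (hN.mem_clV_base T) (hN.outer hT hI)
    hN.base_notMem_clV ?_ ht
  rcases Dct.qryb_ends k₀ with ⟨-, h2⟩ | ⟨h1, -⟩
  · exact Or.inr h2
  · exact Or.inl h1

theorem period_pos (hT : T ⊆ boxE n) (hI : Rule.Inv n T U) :
    0 < minimalPeriod (nxtE ((rst T U ∪ Q : Finset Edg) : Set Ed)) k₀ :=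
  PercD.minimalPeriod_pos (hN.cfg_sub hT hI.sub) (hN.mem_clV_base T)

/-- The curve of the step. -/
theorem crv_eq (hT : T ⊆ boxE n) (hI : Rule.Inv n T U) :
    Rule.crv n T U (Q, vtx k₀) =
      SeparationQuotient.mk (PercD.cornerLoop n ((rst T U ∪ Q : Finset Edg) : Set Ed) k₀) :=
  outerCurve_eq_corner (hN.cfg_sub hT hI.sub) (hN.mem_clV_base T) (hN.outer hT hI)

end NdF

/-! ### Explorations -/

/-- The needle of the step `j`. -/
noncomputable def ndE (n : ℕ) (R : Rul) (j : ℕ) (ω : Cfg) : Finset Edg :=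
  (R j (cfgE n ω)).elim ∅ Prod.fst

/-- The base of the step `j`. -/
noncomputable def ndB (n : ℕ) (R : Rul) (j : ℕ) (ω : Cfg) : ℤ × ℤ :=
  (R j (cfgE n ω)).elim (0, 0) Prod.snd

/-- The remaining vertices before the step `j`. -/
noncomputable def rem (n : ℕ) (R : Rul) (j : ℕ) (ω : Cfg) : Finset (ℤ × ℤ) := stR n R (cfgE n ω) j

/-- A base corner of a needle. -/
noncomputable def bc (U : Finset (ℤ × ℤ)) (Q : Finset Edg) (b : ℤ × ℤ) : Cor :=
  Classical.epsilon fun k => NdF U Q k ∧ vtx k = b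

theorem bc_spec {b : ℤ × ℤ} (h : ∃ k, NdF U Q k ∧ vtx k = b) :
    NdF U Q (bc U Q b) ∧ vtx (bc U Q b) = b := Classical.epsilon_spec h

/-- The explored faces before the step `j`. -/
def expl (n : ℕ) (R : Rul) (j : ℕ) (ω : Cfg) : Set (ℤ × ℤ) := (FU (rem n R j ω))ᶜ

/-- The exploration of the step `j`. -/
noncomputable def exR (n : ℕ) (R : Rul) (j : ℕ) : SixB.Ex where
  U := fun ω => FU (rem n R j ω) \ QF (ndE n R j ω)
  ζ := fun ω => gT (ndE n R j ω : Set Ed)
  e := fun ω => kU (bc (rem n R j ω) (ndE n R j ω) (ndB n R j ω))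

theorem cfgE_agree {ω ω' : Cfg} (hag : ∀ f ∈ (FU U)ᶜ, ω f = ω' f) {e : Edg} (he : e ∈ boxE n)
    (h : tl e ∉ U ∨ hd e ∉ U) : e ∈ cfgE n ω ↔ e ∈ cfgE n ω' := by
  have h1 : phiE e ∈ (FU U)ᶜ := by
    rintro ⟨h2, h3⟩
    rw [eE_phiE] at h2 h3
    rw [tl_eq, hd_eq] at h
    rcases h with h | h
    · exact h h2
    · exact h h3
  rw [DictB.mem_cfgE, DictB.mem_cfgE, hag _ h1]

/-- The remaining vertices are decided by the explored faces. -/
theorem rem_adp (hR : RulOK n h R) (j : ℕ) : Adp (expl n R j) (rem n R j) := by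
  intro ω ω' hag
  exact Rule.st_congr hR (DictB.cfgE_subset n ω) (DictB.cfgE_subset n ω') j fun e he h1 =>
    cfgE_agree hag he h1

/-- **The explored faces are a stopping set.** -/
theorem expl_stop (hR : RulOK n h R) (j : ℕ) : StopS (expl n R j) := by
  intro ω ω' hag
  unfold expl
  rw [rem_adp hR j ω ω' hag]

/-- The needle is decided by the explored faces. -/
theorem rule_adp (hR : RulOK n h R) (j : ℕ) : Adp (expl n R j) fun ω => R j (cfgE n ω) := by
  intro ω ω' hag
  exact hR.loc _ _ (DictB.cfgE_subset n ω) (DictB.cfgE_subset n ω') j fun e he h1 =>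
    cfgE_agree hag he h1

theorem ndE_adp (hR : RulOK n h R) (j : ℕ) : Adp (expl n R j) (ndE n R j) :=
  (rule_adp hR j).map fun q => q.elim ∅ Prod.fst

theorem ndB_adp (hR : RulOK n h R) (j : ℕ) : Adp (expl n R j) (ndB n R j) :=
  (rule_adp hR j).map fun q => q.elim (0, 0) Prod.snd

/-- **The step is an adapted exploration.** -/
theorem exR_ok (hR : RulOK n h R) (j : ℕ) : (exR n R j).Ok (expl n R j) where
  stop := expl_stop hR j
  U := (rem_adp hR j).map2 (ndE_adp hR j) fun U Q => FU U \ QF Q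
  ζ := (ndE_adp hR j).map fun Q => gT (Q : Set Ed)
  e := by
    intro ω ω' hag
    show kU (bc (rem n R j ω') (ndE n R j ω') (ndB n R j ω')) = _
    rw [rem_adp hR j ω ω' hag, ndE_adp hR j ω ω' hag, ndB_adp hR j ω ω' hag]
    rfl

/-- The fresh faces are not explored. -/
theorem exR_disj (n : ℕ) (R : Rul) (j : ℕ) (ω : Cfg) : Disjoint ((exR n R j).U ω) (expl n R j ω) := by
  rw [Set.disjoint_left]
  intro f hf hf'
  exact hf' hf.1

/-- The configuration of the exploration is the configuration of the step. -/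
theorem exR_cf (hR : RulOK n h R) (ω : Cfg) {q : Rule.Ndl} (hq : R j (cfgE n ω) = some q) :
    (exR n R j).cf ω = gT ((cfQ (cfgE n ω) (rem n R j ω) q : Finset Edg) : Set Ed) := by
  have h1 : ndE n R j ω = q.1 := by unfold ndE; rw [hq]; rfl
  have hU : rem n R j ω ⊆ Box n := (inv_stR hR (DictB.cfgE_subset n ω) j).sub
  unfold Ex.cf exR
  simp only
  rw [h1]
  exact (gT_cfg hU q.1 ω).symm

/-- The path of the exploration. -/
theorem exR_p (hR : RulOK n h R) (ω : Cfg) {q : Rule.Ndl} (hq : R j (cfgE n ω) = some q) (t : ℕ) :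
    (exR n R j).p ω t = kU ((nxt ((cfQ (cfgE n ω) (rem n R j ω) q : Finset Edg) : Set Ed))^[t]
      (bc (rem n R j ω) q.1 q.2)) := by
  have h1 : ndE n R j ω = q.1 := by unfold ndE; rw [hq]; rfl
  have h2 : ndB n R j ω = q.2 := by unfold ndB; rw [hq]; rfl
  unfold Ex.p
  rw [exR_cf hR ω hq, kU_iterate]
  show pth _ (kU (bc (rem n R j ω) (ndE n R j ω) (ndB n R j ω))) t = _
  rw [h1, h2]

/-- The next state. -/
theorem rem_succ (ω : Cfg) {q : Rule.Ndl} (hq : R j (cfgE n ω) = some q) :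
    rem n R (j + 1) ω = stpQ (cfgE n ω) (rem n R j ω) q := stR_succ_some hq

theorem rem_succ_none (ω : Cfg) (hq : R j (cfgE n ω) = none) :
    rem n R (j + 1) ω = rem n R j ω := stR_succ_none hq

end Pool.Agent.SixB.Dct
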