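import Pool.Agent.Lib.SixB.S8State
import Pool.Agent.Lib.SixB.S8Main
import Pool.Agent.Lib.SixB.S8ScanEx
import Pool.Agent.Lib.SixB.S8Blow
import Pool.Agent.Lib.SixB.S8Scales

/-!
# Step 8: the true chain of moves

One configuration `ω`, one `n`. The value state `TS`: the remaining vertices `V`, the running needle `q`,
the time `t` of its strand, the history `x`. `nxS` is one stage:

* a needle is running and the coarse state (a function of `x`) is running: in the first stage after the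
  needle is placed the strand runs to its first face in the component of the target (`staT`), without
  record. In the next stages the strand runs from the time `t` to the first time at which it enters the
  blow up of `P \ Dm` (`stopT`); the record is read from the visited cells and the stop side. Void moves
  do not move the strand and have the trivial record. If the new coarse state is not running then the
  step is finished in the same stage: `V` is replaced by `stpQ` (`finS`);
* no needle is running: the next needle is placed if the coarse rule says so and the true needle is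
  admissible (`plS`); the record is trivial.

Kinds of stages, with `c = cs x` (before) and `c' = cs x'` (after), `x' = ρ :: x`:
* place: `q = none`, `c.run = none`: `V`, `t' = 0`, `ρ = (∅, 0)`, `c'.j = c.j + 1`, and `q' = some _` only if
  `c'.run = some _`, `c'.ini = true` (`nxS = plS`);
* enter: `q = some _`, `c.run = some D`, `c.ini = true`: `t' = staT`, `ρ = (∅, 0)`, `c' = c` with `ini = false`;
* void: `q = some _`, `c.run = some D`, `c.ini = false`, `D.Void`: `t' = t`, `ρ = (∅, 0)`;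
* move: the same, not `D.Void`: `t' = stopT`, `ρ = D.rcd ..`; in both cases `c'.run = some (D.nx ..)` or
  `c'.run = none`;
* END: a void move or a move with `c'.run = none`: `V' = stpQ`, `q' = none`, `t' = 0` in the same stage;
* skipped: `q = none`, `c.run = some D`: only `x' = (∅, 0) :: x` (the true needle was not admissible).

`Dat`: the data which are chosen (parameters of the coarse chain, initial set, true needles). `tst` is
the chain, `expS` the explored faces, `chD` the instance of `ChnD` (the growth and the bad events are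
arguments).
-/

set_option autoImplicit false

namespace Pool.Agent.SixB.Tru

open Finset Pool.Agent.Perc Pool.Agent.PercT Pool.Agent.PercX60
open Pool.Agent.MP_6bd702.H23 (Ed ea eb)
open Pool.Agent.SixB Pool.Agent.SixB.Rule Pool.Agent.SixB.Dct Pool.Agent.SixB.Mv
open Pool.Agent.SixB.Blow (subE)
open Pool.Agent.SixB.Top (compT)
open Pool.Agent.Perc.Tips (ahead)

/-- The value state of the chain. -/
structure TS where
  V : Finset (ℤ × ℤ)
  q : Option Rule.Ndl
  t : ℕ
  x : List Rec

/-- The data of the chain. `K`: the size of the needles is `n / K`; `π e`: the parameters of the coarse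
chain, `W₀ e`: the initial set, for the finest resolution `e`; `hook n d V C z`: the true needle for the
remaining vertices `V`, the recorded disc `C` (after the erosion) and the target `z`. -/
structure Dat where
  K : ℕ
  kap : ℕ
  m : ℕ
  zt : ℕ → ℕ → ℤ × ℤ
  act : ℕ → Set (ℤ × ℤ) → ℤ × ℤ → Prop
  ndl : ℕ → Set (ℤ × ℤ) → ℤ × ℤ → Set (ℤ × ℤ)
  W₀ : ℕ → Set (ℤ × ℤ)
  hook : ℕ → (ℕ → ℕ) → Finset (ℤ × ℤ) → Set (ℤ × ℤ) → ℤ × ℤ → Rule.Ndl

variable (𝔇 : Dat) (d : ℕ → ℕ) (n : ℕ)

/-- The parameters of the coarse chain. -/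
def Dat.prm : Prm := ⟨𝔇.kap, 𝔇.m, 𝔇.zt (d 0), 𝔇.act (d 0), 𝔇.ndl (d 0)⟩

/-- The unit: the side of the cells of the finest stage. -/
def unt : ℕ := n / 2 ^ d 0

/-- The coarse state after the history `x`. -/
noncomputable def Dat.cs (x : List Rec) : CSt := cst (𝔇.prm d) d (𝔇.W₀ (d 0)) x

/-- The coarse geometry of the move after the history `x`, for the domain `D`. -/
def Dat.gr (x : List Rec) (D : Dom) : Grd :=
  D.grd (msh d x.length) (msz 𝔇.kap d x.length)

/-! ### The exploration of a state -/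

/-- The configuration which is read by the strand of the needle `q` in the remaining set `V`. -/
noncomputable def cfS (V : Finset (ℤ × ℤ)) (q : Rule.Ndl) (ω : Cfg) : Cfg :=
  mix (FU V \ QF q.1) ω (gT (q.1 : Set Ed))

/-- The first unit edge. -/
noncomputable def eS (V : Finset (ℤ × ℤ)) (q : Rule.Ndl) : UE := kU (bc V q.1 q.2)

/-- The strand. -/
noncomputable def pS (V : Finset (ℤ × ℤ)) (q : Rule.Ndl) (ω : Cfg) (t : ℕ) : UE :=
  pth (cfS V q ω) (eS V q) t

/-- The crossed faces. -/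
noncomputable def vS (V : Finset (ℤ × ℤ)) (q : Rule.Ndl) (ω : Cfg) (s t : ℕ) : Finset (ℤ × ℤ) :=
  vs (cfS V q ω) (eS V q) s t

/-- A bound for the length of the strands. -/
def tmx : ℕ := 4 * (n + 1) ^ 2

/-- The time of the next stop. -/
noncomputable def stopT (u : ℕ) (s : TS) (q : Rule.Ndl) (D : Dom) (g : Grd) (ω : Cfg) : ℕ :=
  hit (s.t + tmx n) fun t => s.t ≤ t ∧ fa (pS s.V q ω t) ∈ blow u (D.P \ D.inr g)

/-- The cells visited in the move. -/
def visC (u : ℕ) (s : TS) (q : Rule.Ndl) (ω : Cfg) (t : ℕ) : Set (ℤ × ℤ) :=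
  {c | ∃ f ∈ vS s.V q ω s.t t, Blow.cl u f = c}

/-- The index of the stop side. -/
noncomputable def stopI (u : ℕ) (s : TS) (q : Rule.Ndl) (D : Dom) (g : Grd) (ω : Cfg) (t : ℕ) : ℕ :=
  sInf {i | i ∈ D.stI g ∧ ∃ r : ℕ, r < u ∧ (subE u (side (D.inr g) D.A i) r).1 = pS s.V q ω t}

/-- The largest recorded run number. -/
def capR (M : ℤ) : ℕ := (2 * M.toNat + 3) ^ 2

/-- The time of the first face in the component of the target side `B`. -/
noncomputable def staT (u : ℕ) (V : Finset (ℤ × ℤ)) (q : Rule.Ndl) (B : UE × Bool) (ω : Cfg) : ℕ :=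
  hit (tmx n) fun t => fa (pS V q ω t) ∈ compT (FU V \ QF q.1) (ahead (subE u B 0))

/-! ### One stage -/

open Classical in
/-- The time after a stage with the running domain `D`; `ini`: the first stage of the needle. -/
noncomputable def mvT (s : TS) (q : Rule.Ndl) (D : Dom) (ini : Bool) (ω : Cfg) : ℕ :=
  if ini then staT n (unt d n) s.V q D.B ω
  else if D.Void (𝔇.gr d s.x D) then s.t
  else stopT n (unt d n) s q D (𝔇.gr d s.x D) ω

open Classical in
/-- The record of a stage with the running domain `D`. -/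
noncomputable def mvR (s : TS) (q : Rule.Ndl) (D : Dom) (ini : Bool) (ω : Cfg) : Rec :=
  if ini ∨ D.Void (𝔇.gr d s.x D) then (∅, 0)
  else D.rcd (𝔇.gr d s.x D) (capR (𝔇.gr d s.x D).M)
    (visC (unt d n) s q ω (stopT n (unt d n) s q D (𝔇.gr d s.x D) ω))
    (stopI (unt d n) s q D (𝔇.gr d s.x D) ω (stopT n (unt d n) s q D (𝔇.gr d s.x D) ω))

/-- The state with the time `t` and the history `x`; the step is finished if the coarse state is not
running. -/
noncomputable def finS (s : TS) (q : Rule.Ndl) (t : ℕ) (x : List Rec) (ω : Cfg) : TS :=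
  match (𝔇.cs d x).run with
  | some _ => ⟨s.V, some q, t, x⟩
  | none => ⟨stpQ (cfgE n ω) s.V q, none, 0, x⟩

/-- The recorded disc of the next needle. -/
noncomputable def Dat.disc (x : List Rec) : Set (ℤ × ℤ) :=
  compT (CSt.erW (𝔇.cs d x).W (msh d x.length) (𝔇.zt (d 0) (𝔇.cs d x).j)) (𝔇.zt (d 0) (𝔇.cs d x).j)

/-- The next true needle. -/
noncomputable def nxQ (s : TS) : Rule.Ndl :=
  𝔇.hook n d s.V (𝔇.disc d s.x) (𝔇.zt (d 0) (𝔇.cs d s.x).j)

open Classical in
/-- The state after a stage without running needle and without running domain. -/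
noncomputable def plS (s : TS) : TS :=
  ⟨s.V, if (𝔇.cs d ((∅, 0) :: s.x)).run.isSome ∧ IsNdl (n / 𝔇.K) s.V (nxQ 𝔇 d n s) ∧
      ∃ k, NdF s.V (nxQ 𝔇 d n s).1 k ∧ PercU.vtx k = (nxQ 𝔇 d n s).2 then some (nxQ 𝔇 d n s) else none,
    0, (∅, 0) :: s.x⟩

/-- One stage. -/
noncomputable def nxS (s : TS) (ω : Cfg) : TS :=
  match s.q, (𝔇.cs d s.x).run with
  | some q, some D =>
    finS 𝔇 d n s q (mvT 𝔇 d n s q D (𝔇.cs d s.x).ini ω) (mvR 𝔇 d n s q D (𝔇.cs d s.x).ini ω :: s.x) ω
  | some q, none => finS 𝔇 d n s q s.t ((∅, 0) :: s.x) ω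
  | none, some _ => ⟨s.V, none, 0, (∅, 0) :: s.x⟩
  | none, none => plS 𝔇 d n s

/-- The chain: the state after the stage `i`. -/
noncomputable def tst (ω : Cfg) : ℕ → TS
  | 0 => nxS 𝔇 d n ⟨Box n, none, 0, []⟩ ω
  | i + 1 => nxS 𝔇 d n (tst ω i) ω

/-- The record of the stage `i`. -/
noncomputable def recS (i : ℕ) (ω : Cfg) : Rec := (tst 𝔇 d n ω i).x.headD (∅, 0)

/-- The explored faces of a state. -/
def expS (s : TS) (ω : Cfg) : Set (ℤ × ℤ) :=
  (FU s.V)ᶜ ∪ s.q.elim ∅ fun q => (FU s.V \ QF q.1) ∩ (vS s.V q ω 0 s.t : Set (ℤ × ℤ))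

/-- The possible records of a stage with resolution `ℓ`. -/
noncomputable def recs (κ ℓ : ℕ) : Finset Rec :=
  (Finset.Icc (-(2 : ℤ) ^ (ℓ - κ)) (2 ^ (ℓ - κ)) ×ˢ
      Finset.Icc (-(2 : ℤ) ^ (ℓ - κ)) (2 ^ (ℓ - κ))).powerset ×ˢ
    Finset.range (capR (2 ^ (ℓ - κ)) + 1)

/-- The instance of `ChnD`. -/
noncomputable def chD (G : ℕ → ℕ → ℕ) (Bd : (ℕ → ℕ) → ℕ → ℕ → Set Cfg) : ChnD Rec where
  R := fun _ ℓ => recs 𝔇.kap ℓ
  G := G
  s := fun d n i ω => recS 𝔇 d n i ω
  S := fun d n i ω => expS (tst 𝔇 d n ω i) ω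
  Bd := Bd

/-! ### The history -/

theorem finS_x (s : TS) (q : Rule.Ndl) (t : ℕ) (x : List Rec) (ω : Cfg) :
    (finS 𝔇 d n s q t x ω).x = x := by
  unfold finS
  split <;> rfl

theorem nxS_x (ω : Cfg) (s : TS) : ∃ ρ, (nxS 𝔇 d n s ω).x = ρ :: s.x := by
  unfold nxS
  split
  · exact ⟨_, finS_x 𝔇 d n s _ _ _ ω⟩
  · exact ⟨_, finS_x 𝔇 d n s _ _ _ ω⟩
  · exact ⟨_, rfl⟩
  · exact ⟨_, rfl⟩

theorem tst_x (ω : Cfg) (i : ℕ) :
    (tst 𝔇 d n ω i).x = histL (fun i => recS 𝔇 d n i) i ω := by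
  induction i with
  | zero =>
    obtain ⟨ρ, h⟩ := nxS_x 𝔇 d n ω ⟨Box n, none, 0, []⟩
    simp only [histL, recS]
    rw [show tst 𝔇 d n ω 0 = nxS 𝔇 d n ⟨Box n, none, 0, []⟩ ω from rfl, h]
    rfl
  | succ i ih =>
    obtain ⟨ρ, h⟩ := nxS_x 𝔇 d n ω (tst 𝔇 d n ω i)
    simp only [histL, recS]
    rw [show tst 𝔇 d n ω (i + 1) = nxS 𝔇 d n (tst 𝔇 d n ω i) ω from rfl, h, ← ih]
    rfl

theorem tst_len (ω : Cfg) (i : ℕ) : (tst 𝔇 d n ω i).x.length = i + 1 := by
  induction i with
  | zero =>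
    obtain ⟨ρ, h⟩ := nxS_x 𝔇 d n ω ⟨Box n, none, 0, []⟩
    rw [show tst 𝔇 d n ω 0 = nxS 𝔇 d n ⟨Box n, none, 0, []⟩ ω from rfl, h]
    rfl
  | succ i ih =>
    obtain ⟨ρ, h⟩ := nxS_x 𝔇 d n ω (tst 𝔇 d n ω i)
    rw [show tst 𝔇 d n ω (i + 1) = nxS 𝔇 d n (tst 𝔇 d n ω i) ω from rfl, h, List.length_cons, ih]

end Pool.Agent.SixB.Tru
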