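import Pool.Agent.Lib.SixB.S8ArcDu
import Pool.Agent.Lib.SixB.S8Fresh

/-!
# Lemma C, tools

Bonds by colour, monotone changes of the configuration, last use of a face set, first exit from a box,
chains of faces, explorations of clusters as stopping sets.
-/

set_option autoImplicit false

namespace Pool.Agent.SixB.LC

open Finset Pool.Agent.Perc Pool.Agent.Perc6 Pool.Agent.PercT

/-! ### Bonds by colour -/

/-- The face `f` carries the bond of colour `c`. -/
def Col (ω : Cfg) (c : ℤ) (f : ℤ × ℤ) : Prop := ω f = !parD c f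

theorem bond_iff {ω : Cfg} {F : Set (ℤ × ℤ)} {u v : ℤ × ℤ} :
    Bond ω F u v ↔ ∃ f ∈ F, IsCor f u ∧ IsCor f v ∧ u ≠ v ∧ par u = par v ∧ Col ω (par u) f := by
  obtain ⟨u1, u2⟩ := u
  obtain ⟨v1, v2⟩ := v
  constructor
  · rintro ⟨x, y, hF, ⟨hω, ⟨h1, h2⟩ | ⟨h1, h2⟩⟩ | ⟨hω, ⟨h1, h2⟩ | ⟨h1, h2⟩⟩⟩ <;>
    · rw [Prod.mk.injEq] at h1 h2
      obtain ⟨rfl, rfl⟩ := h1
      obtain ⟨rfl, rfl⟩ := h2
      refine ⟨_, hF, by simp [IsCor], by simp [IsCor], ?_, ?_, ?_⟩
      · rw [Ne, Prod.mk.injEq]; omega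
      · unfold par; simp only; omega
      · unfold Col
        rw [hω]
        simp only [parD, par]
        first
          | (symm; rw [Bool.not_eq_true', decide_eq_false_iff_not]; omega)
          | (symm; rw [Bool.not_eq_false', decide_eq_true_iff]; omega)
  · rintro ⟨⟨x, y⟩, hF, ⟨h1, h2⟩, ⟨h3, h4⟩, hne, hp, hc⟩
    simp only at h1 h2 h3 h4
    unfold par at hp
    simp only at hp
    rw [Ne, Prod.mk.injEq] at hne
    refine ⟨x, y, hF, ?_⟩
    unfold Col parD par at hc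
    simp only at hc
    by_cases he : (x + y - (u1 + u2) % 2) % 2 = 0
    · left
      refine ⟨?_, ?_⟩
      · rw [hc]
        simp [he]
      · simp only [Prod.mk.injEq]
        omega
    · right
      refine ⟨?_, ?_⟩
      · rw [hc, decide_eq_true he]
        rfl
      · simp only [Prod.mk.injEq]
        omega

theorem bond_par {ω : Cfg} {F : Set (ℤ × ℤ)} {u v : ℤ × ℤ} (h : Bond ω F u v) : par u = par v := by
  obtain ⟨f, -, -, -, -, h, -⟩ := bond_iff.1 h
  exact h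

/-- Monotone change of the configuration and of the face set. -/
theorem conn_up {ω ω' : Cfg} {F F' : Set (ℤ × ℤ)} {u v : ℤ × ℤ} {c : ℤ} (hp : par u = c)
    (h : ∀ f ∈ F, Col ω c f → f ∈ F' ∧ Col ω' c f) (hc : Conn ω F u v) : Conn ω' F' u v := by
  induction hc with
  | refl => exact Relation.ReflTransGen.refl
  | tail hac hb ih =>
    refine Relation.ReflTransGen.tail ih ?_
    have hp1 := (show Conn ω F _ _ from hac).par_eq
    rw [bond_iff] at hb ⊢
    obtain ⟨f, hf, h1, h2, h3, h4, h5⟩ := hb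
    rw [← hp1, hp] at h5 ⊢
    obtain ⟨h6, h7⟩ := h f hf h5
    exact ⟨f, h6, h1, h2, h3, by rw [← h4, ← hp1, hp], h7⟩

/-- A colour is unique. -/
theorem col_uniq {ω : Cfg} {c c' : ℤ} {f : ℤ × ℤ} (hc : c = 0 ∨ c = 1) (hc' : c' = 0 ∨ c' = 1)
    (h : Col ω c f) (h' : Col ω c' f) : c = c' := by
  unfold Col parD at h h'
  rw [h] at h'
  rw [Bool.not_inj_iff, decide_eq_decide] at h'
  omega

theorem col_or {ω : Cfg} {c : ℤ} (f : ℤ × ℤ) : Col ω c f ∨ Col ω (1 - c) f := by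
  unfold Col parD
  by_cases h : (f.1 + f.2 - c) % 2 = 0
  · have h' : (f.1 + f.2 - (1 - c)) % 2 ≠ 0 := by omega
    cases hω : ω f <;> simp [h, h']
  · have h' : (f.1 + f.2 - (1 - c)) % 2 = 0 := by omega
    cases hω : ω f <;> simp [h, h']

/-! ### Last use of a face set, first exit from a box -/

/-- Either the path avoids `K`, or its part after the last use of `K` does. -/
theorem conn_last {ω : Cfg} {F : Set (ℤ × ℤ)} (K : Set (ℤ × ℤ)) {u v : ℤ × ℤ} (h : Conn ω F u v) :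
    Conn ω (F \ K) u v ∨ ∃ x, (∃ f ∈ K, f ∈ F ∧ IsCor f x ∧ Col ω (par u) f) ∧ Conn ω F u x ∧
      Conn ω (F \ K) x v := by
  induction h using Relation.ReflTransGen.head_induction_on with
  | refl => exact Or.inl Relation.ReflTransGen.refl
  | head hb _ ih =>
    rename_i a b _
    have hpb := bond_par hb
    rcases ih with ih | ⟨x, ⟨f, h1, h2, h3, h3'⟩, h4, h5⟩
    · have hb0 := hb
      rw [bond_iff] at hb
      obtain ⟨f, hf, h1, h2, h3, h4, h5⟩ := hb
      by_cases hK : f ∈ K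
      · exact Or.inr ⟨b, ⟨f, hK, hf, h2, h5⟩, Relation.ReflTransGen.single hb0, ih⟩
      · exact Or.inl (Relation.ReflTransGen.head
          (bond_iff.2 ⟨f, ⟨hf, hK⟩, h1, h2, h3, h4, h5⟩) ih)
    · refine Or.inr ⟨x, ⟨f, h1, h2, h3, ?_⟩, Relation.ReflTransGen.head hb h4, h5⟩
      rwa [hpb]

/-- `x` is in the closed box of radius `r` around `z`. -/
def InB (z : ℤ × ℤ) (r : ℤ) (x : ℤ × ℤ) : Prop :=
  z.1 - r ≤ x.1 ∧ x.1 ≤ z.1 + r ∧ z.2 - r ≤ x.2 ∧ x.2 ≤ z.2 + r

/-- `x` is in the open box of radius `r` around `z`. -/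
def InO (z : ℤ × ℤ) (r : ℤ) (x : ℤ × ℤ) : Prop :=
  z.1 - r < x.1 ∧ x.1 < z.1 + r ∧ z.2 - r < x.2 ∧ x.2 < z.2 + r

theorem mem_RFb_of_inO {z x f : ℤ × ℤ} {r : ℤ} (h : InO z r x) (hf : IsCor f x) : f ∈ RFb z r := by
  rw [mem_RFb]
  unfold InO at h
  unfold IsCor at hf
  omega

theorem inB_of_mem_RFb {z x f : ℤ × ℤ} {r : ℤ} (h : f ∈ RFb z r) (hf : IsCor f x) : InB z r x := by
  rw [mem_RFb] at h
  unfold InB
  unfold IsCor at hf
  omega

/-- Either the path leaves the open box, or it uses only faces of the box. -/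
theorem conn_exit {ω : Cfg} {F : Set (ℤ × ℤ)} (z : ℤ × ℤ) (r : ℤ) {u v : ℤ × ℤ}
    (h : Conn ω F u v) :
    (∃ x, Conn ω F u x ∧ Conn ω F x v ∧ ¬ InO z r x) ∨
      (Conn ω (F ∩ RFb z r) u v ∧ InO z r u ∧ InO z r v) := by
  induction h with
  | refl =>
    by_cases h : InO z r u
    · exact Or.inr ⟨Relation.ReflTransGen.refl, h, h⟩
    · exact Or.inl ⟨u, Relation.ReflTransGen.refl, Relation.ReflTransGen.refl, h⟩
  | tail hac hb ih =>
    rename_i b c
    rcases ih with ⟨x, h1, h2, h3⟩ | ⟨h1, h2, h3⟩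
    · exact Or.inl ⟨x, h1, Relation.ReflTransGen.tail h2 hb, h3⟩
    · by_cases h : InO z r c
      · refine Or.inr ⟨Relation.ReflTransGen.tail h1 ?_, h2, h⟩
        rw [bond_iff] at hb ⊢
        obtain ⟨f, hf, g1, g2, g3, g4, g5⟩ := hb
        exact ⟨f, ⟨hf, mem_RFb_of_inO h g2⟩, g1, g2, g3, g4, g5⟩
      · exact Or.inl ⟨c, Relation.ReflTransGen.tail hac hb, Relation.ReflTransGen.refl, h⟩

/-! ### Chains of faces -/

theorem conn_face {ω : Cfg} {c : ℤ} {f u v : ℤ × ℤ} {K : Set (ℤ × ℤ)} (hK : f ∈ K)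
    (h : Col ω c f) (hu : IsCor f u) (hv : IsCor f v) (pu : par u = c) (pv : par v = c) :
    Conn ω K u v := by
  by_cases huv : u = v
  · rw [huv]; exact Relation.ReflTransGen.refl
  · exact Relation.ReflTransGen.single (bond_iff.2 ⟨f, hK, hu, hv, huv, pu.trans pv.symm,
      by rw [pu]; exact h⟩)

/-- Two neighbouring faces have a common corner of each parity. -/
theorem adj_cor {f g : ℤ × ℤ} {c : ℤ} (hc : c = 0 ∨ c = 1) (h : Adj f g) :
    ∃ x, IsCor f x ∧ IsCor g x ∧ par x = c := by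
  obtain ⟨f1, f2⟩ := f
  obtain ⟨g1, g2⟩ := g
  unfold Adj at h
  simp only at h
  have key : ∀ x y : ℤ × ℤ, IsCor (f1, f2) x → IsCor (g1, g2) x → IsCor (f1, f2) y →
      IsCor (g1, g2) y → par x ≠ par y → ∃ x, IsCor (f1, f2) x ∧ IsCor (g1, g2) x ∧ par x = c := by
    intro x y h1 h2 h3 h4 h5
    have := par_cases x
    have := par_cases y
    by_cases hx : par x = c
    · exact ⟨x, h1, h2, hx⟩
    · exact ⟨y, h3, h4, by omega⟩
  rcases h with ⟨h1, h2 | h2⟩ | ⟨h1, h2 | h2⟩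
  · exact key (f1, f2) (f1 + 1, f2) (by simp [IsCor]) (by simp [IsCor]; omega)
      (by simp [IsCor]) (by simp [IsCor]; omega) (by simp [par]; omega)
  · exact key (g1, g2) (g1 + 1, g2) (by simp [IsCor]; omega) (by simp [IsCor])
      (by simp [IsCor]; omega) (by simp [IsCor]) (by simp [par]; omega)
  · exact key (f1, f2) (f1, f2 + 1) (by simp [IsCor]) (by simp [IsCor]; omega)
      (by simp [IsCor]) (by simp [IsCor]; omega) (by simp [par]; omega)
  · exact key (g1, g2) (g1, g2 + 1) (by simp [IsCor]; omega) (by simp [IsCor])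
      (by simp [IsCor]; omega) (by simp [IsCor]) (by simp [par]; omega)

/-- The corners of colour `c` of a chain of faces of colour `c` are joined. -/
theorem conn_chn {ω : Cfg} {c : ℤ} (hc : c = 0 ∨ c = 1) {K : Set (ℤ × ℤ)}
    (hK : ∀ f ∈ K, Col ω c f) {f g u v : ℤ × ℤ} (h : Chn K f g) (hu : IsCor f u)
    (hv : IsCor g v) (pu : par u = c) (pv : par v = c) : Conn ω K u v := by
  obtain ⟨hf, hch⟩ := h
  induction hch generalizing v with
  | refl => exact conn_face hf (hK f hf) hu hv pu pv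
  | tail _ hb ih =>
    obtain ⟨hadj, hgK⟩ := hb
    obtain ⟨x, h1, h2, h3⟩ := adj_cor hc hadj
    exact conn_trans (ih h1 h3) (conn_face hgK (hK _ hgK) h2 hv h3 pv)

/-! ### Explorations -/

/-- The explored clusters do not depend on the faces outside of the exploration. -/
theorem conn_wx {ω ω' : Cfg} {D B : Set (ℤ × ℤ)} (h : ∀ f ∈ Wx ω D B, ω f = ω' f) {b q : ℤ × ℤ}
    (hb : b ∈ B) : Conn ω D b q ↔ Conn ω' D b q := by
  constructor
  · intro hc
    induction hc with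
    | refl => exact Relation.ReflTransGen.refl
    | tail hac hbd ih =>
      refine Relation.ReflTransGen.tail ih ?_
      rw [bond_iff] at hbd ⊢
      obtain ⟨f, hf, g1, g2, g3, g4, g5⟩ := hbd
      refine ⟨f, hf, g1, g2, g3, g4, ?_⟩
      unfold Col at *
      rw [← h f ⟨hf, _, g1, b, hb, hac⟩]
      exact g5
  · intro hc
    induction hc with
    | refl => exact Relation.ReflTransGen.refl
    | tail hac hbd ih =>
      refine Relation.ReflTransGen.tail ih ?_
      rw [bond_iff] at hbd ⊢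
      obtain ⟨f, hf, g1, g2, g3, g4, g5⟩ := hbd
      refine ⟨f, hf, g1, g2, g3, g4, ?_⟩
      unfold Col at *
      rw [h f ⟨hf, _, g1, b, hb, ih⟩]
      exact g5

/-- The exploration is a stopping set. -/
theorem wx_stop {D B : Set (ℤ × ℤ)} (ω ω' : Cfg) (h : ∀ f ∈ Wx ω D B, ω f = ω' f) :
    Wx ω' D B = Wx ω D B := by
  ext f
  constructor
  · rintro ⟨hf, q, hq, b, hb, hc⟩
    exact ⟨hf, q, hq, b, hb, (conn_wx h hb).2 hc⟩
  · rintro ⟨hf, q, hq, b, hb, hc⟩
    exact ⟨hf, q, hq, b, hb, (conn_wx h hb).1 hc⟩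

end Pool.Agent.SixB.LC
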