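import Pool.Agent.Lib.SixB.S8State
import Pool.Agent.Lib.SixB.S8Blow
import Pool.Agent.Lib.SixB.S8TruStep
import Pool.Agent.Lib.SixB.S8LemCa
import Pool.Agent.Lib.SixB.S8Chain
import Pool.Agent.Lib.SixB.S8StateA

/-!
# Step 8, invariant of the true chain: distances

* `near_stop`: the true tip and the new tip side of the coarse state have faces in the same small set `E`.
* `near_void`: a void move.
* `near_reg`, `near_vd`: the same for the magnified coarse state, `E = blow u (D.ent g ρ)`, radius `2 u L`.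
* `rad`: `C u (1 + ∑ msh d j)`, the number which bounds all distances at a stage; `rad_le`: it is at most
  `3 C u (msh d (k - 1))`.
* `unt_msh`: `u (msh d i)` is `n / 2 ^ (d i)` up to a factor.
-/

set_option autoImplicit false

namespace Pool.Agent.SixB.InvN

open Pool.Agent.Perc Pool.Agent.Perc6 Pool.Agent.Perc6.C2Aux Pool.Agent.Perc.Tips
open Pool.Agent.SixB.Top Pool.Agent.SixB.Mv Pool.Agent.SixB.Blow

/-! ### Corners -/

theorem lf_bd (A : UE × Bool) : (ahead A).1 ≤ (lf A).1 ∧ (lf A).1 ≤ (ahead A).1 + 1 ∧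
    (ahead A).2 ≤ (lf A).2 ∧ (lf A).2 ≤ (ahead A).2 + 1 := by
  obtain ⟨⟨x, y, _ | _⟩, _ | _⟩ := A <;> simp only [lf, ahead] <;> omega

theorem rg_bd (A : UE × Bool) : (ahead A).1 ≤ (rg A).1 ∧ (rg A).1 ≤ (ahead A).1 + 1 ∧
    (ahead A).2 ≤ (rg A).2 ∧ (rg A).2 ≤ (ahead A).2 + 1 := by
  obtain ⟨⟨x, y, _ | _⟩, _ | _⟩ := A <;> simp only [rg, ahead] <;> omega

theorem lf_bd' (A : UE × Bool) : (ahead (rv A)).1 ≤ (lf A).1 ∧ (lf A).1 ≤ (ahead (rv A)).1 + 1 ∧
    (ahead (rv A)).2 ≤ (lf A).2 ∧ (lf A).2 ≤ (ahead (rv A)).2 + 1 := by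
  have h := rg_bd (rv A)
  rw [rg_rv] at h
  exact h

/-- The diameter of a set of faces. -/
def Dia (E : Set (ℤ × ℤ)) (R : ℤ) : Prop := ∀ x ∈ E, ∀ y ∈ E, |x.1 - y.1| < R ∧ |x.2 - y.2| < R

theorem InB.mono {z x : ℤ × ℤ} {r r' : ℤ} (h : LC.InB z r x) (hr : r ≤ r') : LC.InB z r' x := by
  unfold LC.InB at h ⊢
  omega

theorem InB.tri {z z' x : ℤ × ℤ} {r r' : ℤ} (h : LC.InB z r z') (h' : LC.InB z' r' x) :
    LC.InB z (r + r') x := by
  unfold LC.InB at h h' ⊢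
  omega

theorem InB.symm {z x : ℤ × ℤ} {r : ℤ} (h : LC.InB z r x) : LC.InB x r z := by
  unfold LC.InB at h ⊢
  omega

/-! ### Moves -/

section moves

variable {E : Set (ℤ × ℤ)} {R r : ℤ} {A A' τ : UE × Bool} {v : ℤ × ℤ} {e : UE}

/-- **A stop**: `τ` the true side at the stop, `A'` the new tip side. -/
theorem near_stop (hE : Dia E R) (h1 : ahead τ ∈ E) (h2 : ahead (rv A') ∈ E) :
    LC.InB (lf A') R (rg τ) ∧ LC.InB (lf A') R (lf τ) := by
  obtain ⟨h3, h4⟩ := hE _ h1 _ h2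
  rw [abs_lt] at h3 h4
  have a1 := lf_bd' A'
  have a2 := lf_bd τ
  have a3 := rg_bd τ
  unfold LC.InB
  omega

theorem near_edge (hE : Dia E R) (h1 : fa e ∈ E) (h2 : ahead (rv A') ∈ E) :
    LC.InB (lf A') R (rg (dirE e)) ∧ LC.InB (lf A') R (lf (dirE e)) :=
  near_stop hE (by rw [ahead_dirE]; exact h1) h2

/-- The new tip side is near the old one. -/
theorem near_tips (hE : Dia E R) (h1 : ahead A ∈ E) (h2 : ahead (rv A') ∈ E) :
    LC.InB (lf A') R (lf A) := (near_stop hE h1 h2).2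

/-- **A void move.** -/
theorem near_void (hv : LC.InB (lf A) r v) (hE : Dia E R) (h1 : ahead A ∈ E) (h2 : ahead (rv A') ∈ E) :
    LC.InB (lf A') (r + R) v := by
  have h := InB.tri (near_tips hE h1 h2) hv
  rwa [add_comm] at h

end moves

/-! ### Magnified sets -/

section blow

variable {u : ℤ} {S : Set (ℤ × ℤ)} {K : ℤ}

theorem div_dist (hu : 0 < u) {a b : ℤ} (h : |a / u - b / u| < K) : |a - b| < u * K := by
  rw [abs_lt] at h ⊢
  have h1 := Int.mul_ediv_add_emod a u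
  have h2 := Int.mul_ediv_add_emod b u
  have h3 := Int.emod_nonneg a hu.ne'
  have h4 := Int.emod_nonneg b hu.ne'
  have h5 := Int.emod_lt_of_pos a hu
  have h6 := Int.emod_lt_of_pos b hu
  have h7 : u * (a / u - b / u) ≤ u * (K - 1) := mul_le_mul_of_nonneg_left (by omega) hu.le
  have h8 : u * (-(K - 1)) ≤ u * (a / u - b / u) := mul_le_mul_of_nonneg_left (by omega) hu.le
  constructor <;> nlinarith

theorem Dia.blow (hu : 0 < u) (h : Dia S K) : Dia (blow u S) (u * K) := by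
  intro x hx y hy
  obtain ⟨h1, h2⟩ := h _ (mem_blow.1 hx) _ (mem_blow.1 hy)
  exact ⟨div_dist hu h1, div_dist hu h2⟩

theorem ahead_blow (hu : 0 < u) {A : UE × Bool} (h : ahead A ∈ S) {r : ℤ} (h0 : 0 ≤ r) (h1 : r < u) :
    ahead (subE u A r) ∈ blow u S := by
  rw [mem_blow, cl_ahead hu A h0 h1]
  exact h

theorem ahead_rv_blow (hu : 0 < u) {A : UE × Bool} (h : ahead (rv A) ∈ S) {r : ℤ} (h0 : 0 ≤ r)
    (h1 : r < u) : ahead (rv (subE u A r)) ∈ blow u S := by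
  rw [rv_subE]
  exact ahead_blow hu h (by omega) (by omega)

end blow

/-! ### The coarse state -/

section coarse

variable {u L r : ℤ} {D : Dom} {g : Grd} {ρ : Rec} {v : ℤ × ℤ} {e : UE}

/-- **Regular move**: the true tip is near the new coarse tip. -/
theorem near_reg (hu : 0 < u) (hd : Dia (D.ent g ρ) (2 * g.L)) (hn : ahead (rv (D.nxA g ρ)) ∈ D.ent g ρ)
    (he : fa e ∈ blow u (D.ent g ρ)) :
    LC.InB (lf (subE u (D.nxA g ρ) 0)) (2 * (u * g.L)) (rg (dirE e)) ∧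
      LC.InB (lf (subE u (D.nxA g ρ) 0)) (2 * (u * g.L)) (lf (dirE e)) := by
  have h := near_edge (hd.blow hu) he (ahead_rv_blow hu hn le_rfl hu)
  rwa [show u * (2 * g.L) = 2 * (u * g.L) by ring] at h

/-- The displacement of the coarse tip, if the face at the tip side is in the entered set. -/
theorem near_vd' (hu : 0 < u) (hd : Dia (D.ent g ρ) (2 * g.L)) (hn : ahead (rv (D.nxA g ρ)) ∈ D.ent g ρ)
    (hA : ahead D.A ∈ D.ent g ρ) :
    LC.InB (lf (subE u (D.nxA g ρ) 0)) (2 * (u * g.L)) (lf (subE u D.A 0)) := by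
  have h := near_tips (hd.blow hu) (ahead_blow hu hA le_rfl hu) (ahead_rv_blow hu hn le_rfl hu)
  rwa [show u * (2 * g.L) = 2 * (u * g.L) by ring] at h

/-- **Void move.** -/
theorem near_vd (hu : 0 < u) (hd : Dia (D.ent g ρ) (2 * g.L)) (hn : ahead (rv (D.nxA g ρ)) ∈ D.ent g ρ)
    (hA : ahead D.A ∈ D.ent g ρ) (hv : LC.InB (lf (subE u D.A 0)) r v) :
    LC.InB (lf (subE u (D.nxA g ρ) 0)) (r + 2 * (u * g.L)) v := by
  have h := InB.tri (near_vd' hu hd hn hA) hv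
  rwa [add_comm] at h

/-- The diameter of the entered set. -/
theorem ent_dia (h : D.Val g) (hρ : D.RecOk g ρ) : Dia (D.ent g ρ) (2 * g.L) := by
  rw [Dom.ent_eq]
  exact entV_diam h.bdD (h.stp_mem hρ) fun x y hxy => gc_diam h.hL hxy

/-- **Regular move**: the true tip after the move is near the new coarse tip. -/
theorem near_reg_val (h : D.Val g) (hu : 0 < u) (hρ : D.RecOk g ρ) (hE : ¬ D.End g ρ)
    (he : fa e ∈ blow u (D.ent g ρ)) :
    LC.InB (lf (subE u (D.nxA g ρ) 0)) (2 * (u * g.L)) (rg (dirE e)) ∧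
      LC.InB (lf (subE u (D.nxA g ρ) 0)) (2 * (u * g.L)) (lf (dirE e)) :=
  near_reg hu (ent_dia h hρ) (h.nxA_spec hρ hE).2 he

/-- **Void move**. -/
theorem near_void_val (h : D.Val g) (hu : 0 < u) (hρ : D.RecOk g ρ) (hE : ¬ D.End g ρ) (hV : D.Void g)
    (hv : LC.InB (lf (subE u D.A 0)) r v) :
    LC.InB (lf (subE u (D.nxA g ρ) 0)) (r + 2 * (u * g.L)) v := by
  refine near_vd hu (ent_dia h hρ) (h.nxA_spec hρ hE).2 ?_ hv
  have h1 := Dom.stp_mem_ent D g ρ
  rwa [Dom.stp_void hV] at h1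

/-- Void move: the displacement of the coarse tip. -/
theorem near_void_tip (h : D.Val g) (hu : 0 < u) (hρ : D.RecOk g ρ) (hE : ¬ D.End g ρ)
    (hV : D.Void g) : LC.InB (lf (subE u (D.nxA g ρ) 0)) (2 * (u * g.L)) (lf (subE u D.A 0)) := by
  refine near_vd' hu (ent_dia h hρ) (h.nxA_spec hρ hE).2 ?_
  have h1 := Dom.stp_mem_ent D g ρ
  rwa [Dom.stp_void hV] at h1

/-- All faces of the magnified entered set are near the new coarse tip. -/
theorem near_ent (h : D.Val g) (hu : 0 < u) (hρ : D.RecOk g ρ) (hE : ¬ D.End g ρ) {f : ℤ × ℤ}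
    (hf : f ∈ blow u (D.ent g ρ)) : LC.InB (lf (subE u (D.nxA g ρ) 0)) (2 * (u * g.L)) f := by
  have h1 := ((ent_dia h hρ).blow hu) _ hf _ (ahead_rv_blow hu (h.nxA_spec hρ hE).2 le_rfl hu)
  have h2 := lf_bd' (subE u (D.nxA g ρ) 0)
  rw [abs_lt, abs_lt, show u * (2 * g.L) = 2 * (u * g.L) by ring] at h1
  unfold LC.InB
  omega

end coarse

/-! ### Radii -/

section radii

variable {C u : ℤ} {d : ℕ → ℕ} {k : ℕ}

/-- the sum of the meshes -/
def sms (d : ℕ → ℕ) (k : ℕ) : ℤ := ∑ j ∈ Finset.range k, msh d j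

theorem sms_succ : sms d (k + 1) = sms d k + msh d k := Finset.sum_range_succ _ _

theorem sms_nonneg : 0 ≤ sms d k := Finset.sum_nonneg fun j _ => (msh_pos d j).le

/-- The meshes grow. -/
theorem msh_step {j a : ℕ} (h : d (j + 1) + a ≤ d j) (h0 : d j ≤ d 0) :
    2 ^ a * msh d j ≤ msh d (j + 1) := by
  unfold msh
  rw [← pow_add]
  exact pow_le_pow_right₀ (by norm_num) (by omega)

theorem msh_step_one {j : ℕ} (h : d (j + 1) < d j) (h0 : d j ≤ d 0) : 2 * msh d j ≤ msh d (j + 1) := by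
  have := msh_step (a := 1) (by omega : d (j + 1) + 1 ≤ d j) h0
  simpa using this

theorem one_le_msh (d : ℕ → ℕ) (j : ℕ) : 1 ≤ msh d j := msh_pos d j

/-- The meshes sum up to twice the last one. -/
theorem sms_le (h : ∀ j, j + 1 < k → d (j + 1) < d j) (h0 : ∀ j < k, d j ≤ d 0) (hk : 1 ≤ k) :
    sms d k + 1 ≤ 2 * msh d (k - 1) := by
  induction k with
  | zero => omega
  | succ k ih =>
    rw [sms_succ, Nat.add_sub_cancel]
    rcases Nat.eq_zero_or_pos k with hk0 | hk0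
    · subst hk0
      have h1 : sms d 0 = 0 := rfl
      have h2 := one_le_msh d 0
      omega
    · have h1 := ih (fun j hj => h j (by omega)) (fun j hj => h0 j (by omega)) hk0
      have h2 := msh_step_one (h (k - 1) (by omega)) (h0 (k - 1) (by omega))
      rw [Nat.sub_add_cancel hk0] at h2
      omega

/-- **The radius of a stage.** -/
theorem rad_bd (hC : 0 ≤ C) (hu : 0 ≤ u) (h : ∀ j, j + 1 < k → d (j + 1) < d j)
    (h0 : ∀ j < k, d j ≤ d 0) (hk : 1 ≤ k) :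
    C * u * (1 + sms d k) ≤ 2 * C * (u * msh d (k - 1)) := by
  have h1 := sms_le h h0 hk
  have h2 : C * u * (1 + sms d k) ≤ C * u * (2 * msh d (k - 1)) :=
    mul_le_mul_of_nonneg_left (by omega) (mul_nonneg hC hu)
  linarith

theorem rad_step : C * u * (1 + sms d (k + 1)) = C * u * (1 + sms d k) + C * (u * msh d k) := by
  rw [sms_succ]
  ring

theorem rad_mono (hC : 0 ≤ C) (hu : 0 ≤ u) : C * u * (1 + sms d k) ≤ C * u * (1 + sms d (k + 1)) := by
  rw [rad_step]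
  have := mul_nonneg hC (mul_nonneg hu (msh_pos d k).le)
  linarith

end radii

/-! ### The unit -/

section unit

variable {d : ℕ → ℕ} {n i : ℕ}

/-- `u (msh d i) 2 ^ (d i) ≤ n` -/
theorem unt_mul (h : d i ≤ d 0) : (Tru.unt d n : ℤ) * msh d i * 2 ^ d i ≤ n := by
  have h1 : Tru.unt d n * 2 ^ d 0 ≤ n := Nat.div_mul_le_self n (2 ^ d 0)
  have h2 : msh d i * 2 ^ d i = 2 ^ d 0 := by
    unfold msh
    rw [← pow_add]
    congr 1
    omega
  calc (Tru.unt d n : ℤ) * msh d i * 2 ^ d i = (Tru.unt d n : ℤ) * (msh d i * 2 ^ d i) := by ring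
    _ = (Tru.unt d n : ℤ) * 2 ^ d 0 := by rw [h2]
    _ ≤ n := by exact_mod_cast h1

theorem lt_unt_mul (h : d i ≤ d 0) : (n : ℤ) < ((Tru.unt d n : ℤ) + 1) * msh d i * 2 ^ d i := by
  have h1 : n < (Tru.unt d n + 1) * 2 ^ d 0 := by
    have := Nat.lt_mul_div_succ n (Nat.two_pow_pos (d 0))
    unfold Tru.unt
    linarith
  have h2 : msh d i * 2 ^ d i = 2 ^ d 0 := by
    unfold msh
    rw [← pow_add]
    congr 1
    omega
  calc (n : ℤ) < (((Tru.unt d n + 1) * 2 ^ d 0 : ℕ) : ℤ) := by exact_mod_cast h1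
    _ = ((Tru.unt d n : ℤ) + 1) * (msh d i * 2 ^ d i) := by rw [h2]; push_cast; ring
    _ = _ := by ring

/-- `u (msh d i) ≤ n / 2 ^ (d i)` -/
theorem unt_msh (h : d i ≤ d 0) : ((Tru.unt d n : ℤ) * msh d i : ℝ) ≤ n / 2 ^ d i := by
  rw [le_div_iff₀ (by positivity)]
  exact_mod_cast unt_mul (n := n) h

theorem unt_pos (h : 2 ^ d 0 ≤ n) : 0 < Tru.unt d n := Nat.div_pos h (Nat.two_pow_pos _)

/-- `n / 2 ^ (d i) ≤ 2 u (msh d i)` -/
theorem msh_unt (h : d i ≤ d 0) (hn : 2 ^ d 0 ≤ n) :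
    (n : ℝ) / 2 ^ d i ≤ 2 * ((Tru.unt d n : ℤ) * msh d i : ℝ) := by
  rw [div_le_iff₀ (by positivity)]
  have h1 := lt_unt_mul (n := n) h
  have h2 := unt_pos hn
  have h3 : ((Tru.unt d n : ℤ) + 1) * msh d i * 2 ^ d i ≤ 2 * ((Tru.unt d n : ℤ) * msh d i) * 2 ^ d i := by
    have h4 : (0 : ℤ) ≤ msh d i * 2 ^ d i := mul_nonneg (msh_pos d i).le (by positivity)
    have h5 : (Tru.unt d n : ℤ) + 1 ≤ 2 * Tru.unt d n := by exact_mod_cast (by omega : Tru.unt d n + 1 ≤ 2 * Tru.unt d n)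
    calc ((Tru.unt d n : ℤ) + 1) * msh d i * 2 ^ d i = ((Tru.unt d n : ℤ) + 1) * (msh d i * 2 ^ d i) := by ring
      _ ≤ (2 * Tru.unt d n) * (msh d i * 2 ^ d i) := mul_le_mul_of_nonneg_right h5 h4
      _ = _ := by ring
  exact_mod_cast h1.le.trans h3

end unit

end Pool.Agent.SixB.InvN
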