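import Pool.Agent.Lib.SixB.S8Thick
import Pool.Agent.Lib.SixB.S8Sub
import Pool.Agent.Lib.SixB.S8Close

/-!
# Step 8, unit 8H, (F3): the contour of the region of a move

`F` is a disc (finite, edge connected, without holes), `G ⊆ F` a smaller disc, `A` a common side.

* `Com`: the indices of the common sides on the two contours; `com_next`, `com_mono`;
* `one_gap`: two sides of `G` with outer faces in `F`, joined to each other inside `F \ G`, have no
  common side between them;
* `exists_layBar`: `U` is the fresh region, `T ⊆ U` the region of the move, `D ⊆ T` its recorded part.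
  If every side of `T` with outer face in `U` is one of the sides `a, …, b - 1` of `D` or has its outer
  face joined in `U \ T` to the outer face of the side `a - 1` or `b` of `D`, then the contour of `T` is
  one interval of common sides with `U`, one interval of sides with outer face in `U`, and one interval
  of common sides again (`LayBar`);
* `Clo.layCap`: the instance for the closure lemma, with the order cap, stop arc, cap (`LayCap`).
-/

set_option autoImplicit false

namespace Pool.Agent.SixB.Mv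

open Pool.Agent.Perc Pool.Agent.Perc6 Pool.Agent.Perc6.C2Aux Pool.Agent.Perc.Tips
open Pool.Agent.SixB.Top

theorem cycPer {F : Set (ℤ × ℤ)} {A : UE × Bool} {m : ℕ} (h : Cyc F A m) : Per F m A :=
  ⟨h.pos, h.per, h.inj⟩

/-- A face outside `G` which is joined to infinity outside `G` is joined, inside `F \ G`, to a face
with a boundary side of `F`. -/
theorem exists_bd_of_esc {F G : Set (ℤ × ℤ)} (hF : F.Finite) (he : Esc G) {y : ℤ × ℤ}
    (hy : y ∈ F) (hyG : y ∉ G) : ∃ C, BD F C ∧ ChI (F \ G) y (ahead C) := by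
  obtain ⟨x₀, x₁, y₀, y₁, hb⟩ := exists_RF hF
  obtain ⟨g, hg, hch⟩ := he y hyG (|x₀| + |x₁| + |y₀| + |y₁|)
  have hgF : g ∉ F := by
    intro h
    have h1 := hb g h
    rw [mem_RF] at h1
    have b1 := abs_nonneg x₀
    have b2 := abs_nonneg x₁
    have b3 := abs_nonneg y₀
    have b4 := abs_nonneg y₁
    rcases hg with hg | hg
    · rcases abs_cases g.1 with h2 | h2 <;> rcases abs_cases x₀ with h3 | h3 <;>
        rcases abs_cases x₁ with h4 | h4 <;> omega
    · rcases abs_cases g.2 with h2 | h2 <;> rcases abs_cases y₀ with h3 | h3 <;>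
        rcases abs_cases y₁ with h4 | h4 <;> omega
  have key : (g ∈ F ∧ ChI (F \ G) y g) ∨ ∃ C, BD F C ∧ ChI (F \ G) y (ahead C) := by
    clear hgF hg
    induction hch with
    | refl => exact Or.inl ⟨hy, ChI.refl _⟩
    | @tail p q hp hs ih =>
      rcases ih with ⟨hpF, ih⟩ | ih
      · by_cases hq : q ∈ F
        · exact Or.inl ⟨hq, ih.tail ⟨hs.1, hq, hs.2⟩⟩
        · right
          obtain ⟨hne, a, ha1, ha2⟩ := hs.1
          rcases eq_ahead ha1 with h | h
          · refine ⟨(a, true), ⟨h ▸ hpF, ?_⟩, h ▸ ih⟩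
            rcases eq_ahead ha2 with h' | h'
            · exact absurd (h.trans h'.symm) hne
            · exact h' ▸ hq
          · refine ⟨(a, false), ⟨h ▸ hpF, ?_⟩, h ▸ ih⟩
            rcases eq_ahead ha2 with h' | h'
            · exact h' ▸ hq
            · exact absurd (h.trans h'.symm) hne
      · exact Or.inr ih
  rcases key with ⟨h, -⟩ | h
  · exact absurd h hgF
  · exact h

section Two

variable {F G : Set (ℤ × ℤ)} {A : UE × Bool} {mF mG : ℕ}

/-- The side `a` of `G` is the side `v` of `F`. -/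
structure Com (F G : Set (ℤ × ℤ)) (A : UE × Bool) (mF mG a v : ℕ) : Prop where
  la : a ≤ mG
  lv : v ≤ mF
  eq : side G A a = side F A v
  last : a = mG ↔ v = mF

theorem com_zero (hF : 0 < mF) (hG : 0 < mG) : Com F G A mF mG 0 0 :=
  ⟨Nat.zero_le _, Nat.zero_le _, rfl, by omega⟩

theorem com_last (hF : side F A mF = A) (hG : side G A mG = A) : Com F G A mF mG mG mF :=
  ⟨le_rfl, le_rfl, hG.trans hF.symm, by simp⟩

variable {a b v v' : ℕ}

theorem Com.bd (h : Com F G A mF mG a v) (hA : BD F A) : BD F (side G A a) := by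
  rw [h.eq]
  exact bd_side hA v

theorem Com.uniq (hFc : Cyc F A mF) (h : Com F G A mF mG a v) (h' : Com F G A mF mG a v') :
    v = v' := by
  by_cases h1 : a = mG
  · rw [h.last.1 h1, h'.last.1 h1]
  · have h2 : v ≠ mF := fun hh => h1 (h.last.2 hh)
    have h3 : v' ≠ mF := fun hh => h1 (h'.last.2 hh)
    have h4 := h.lv
    have h5 := h'.lv
    exact hFc.inj v (by omega) v' (by omega) (h.eq.symm.trans h'.eq)

theorem Com.exists (hFc : Cyc F A mF) (hGc : Cyc G A mG) (ha : a ≤ mG)
    (hb : BD F (side G A a)) : ∃ v, Com F G A mF mG a v := by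
  by_cases h1 : a = mG
  · subst h1
    exact ⟨mF, com_last hFc.per hGc.per⟩
  · obtain ⟨v, hv, hvs⟩ := hFc.exists_index hb
    exact ⟨v, ha, hv.le, hvs.symm, by omega⟩

theorem side_mod {m : ℕ} (hFc : Cyc F A m) (n : ℕ) : side F A (n % m) = side F A n :=
  (cycPer hFc).mod n

theorem side_eq_A {m n : ℕ} (hFc : Cyc F A m) (h : side F A n = A) : n % m = 0 := by
  have h1 := Nat.mod_lt n hFc.pos
  exact hFc.inj _ h1 0 hFc.pos ((side_mod hFc n).trans h)

theorem eq_of_side_eq_A {m n : ℕ} (hFc : Cyc F A m) (h0 : 0 < n) (hn : n ≤ m)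
    (h : side F A n = A) : n = m := by
  have h3 := side_eq_A hFc h
  by_contra hcon
  rw [Nat.mod_eq_of_lt (by omega)] at h3
  omega

theorem Com.of_eq (hFc : Cyc F A mF) (hGc : Cyc G A mG) (ha0 : 0 < a) (hv0 : 0 < v)
    (ha : a ≤ mG) (hv : v ≤ mF) (h : side G A a = side F A v) : Com F G A mF mG a v := by
  refine ⟨ha, hv, h, fun h1 => ?_, fun h1 => ?_⟩
  · exact eq_of_side_eq_A hFc hv0 hv (by rw [← h, h1, hGc.per])
  · exact eq_of_side_eq_A hGc ha0 ha (by rw [h, h1, hFc.per])

/-- The next common side. -/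
theorem com_next (hF : F.Finite) (hc : EConn F) (he : Esc F) (hGF : G ⊆ F) (hcG : EConn G)
    (hFc : Cyc F A mF) (hGc : Cyc G A mG) (h : Com F G A mF mG a v) (ha : a < mG) :
    ∃ k l, 0 < k ∧ 0 < l ∧ Com F G A mF mG (a + k) (v + l) ∧
      (∀ i, 0 < i → i < k → ¬ BD F (side G A (a + i))) ∧
      (∀ i, 0 < i → i < l → inF F A (v + i) ∉ G) ∧ (k = 1 → l = 1) ∧
      (∀ i, 0 < i → i < k → ∀ C, BD F C → ChI (F \ G) (outF G A (a + i)) (ahead C) →
        ∃ j, v < j ∧ j < v + l ∧ side F A j = C) := by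
  classical
  have hv : v < mF := lt_of_le_of_ne h.lv fun hh => ha.ne (h.last.2 hh)
  have hkex : ∃ k, 0 < k ∧ BD F (side G A (a + k)) := by
    refine ⟨mG - a, by omega, ?_⟩
    rw [show a + (mG - a) = mG by omega, hGc.per]
    exact hFc.bd
  obtain ⟨hk0, hkB⟩ := Nat.find_spec hkex
  have hkmin : ∀ i, 0 < i → i < Nat.find hkex → ¬ BD F (side G A (a + i)) := fun i h0 hi hh =>
    Nat.find_min hkex hi ⟨h0, hh⟩
  have hkle : Nat.find hkex ≤ mG - a := by
    apply Nat.find_min' hkex
    refine ⟨by omega, ?_⟩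
    rw [show a + (mG - a) = mG by omega, hGc.per]
    exact hFc.bd
  set k := Nat.find hkex with hkdef
  have hA1F : BD F (side G A a) := h.bd hFc.bd
  have hPer : Per F mF (side G A a) := by
    rw [h.eq]
    exact (cycPer hFc).shift hFc.bd v
  have hit : ∀ i, (sc G)^[i] (side G A a) = side G A (a + i) := fun i => (side_add a i).symm
  have hitF : ∀ i, (sc F)^[i] (side G A a) = side F A (v + i) := by
    intro i
    rw [h.eq]
    exact (side_add v i).symm
  obtain ⟨l, hl0, hlm, hlB, hln, hl1, hlC⟩ := next_common hF hc he hGF hcG hA1F (bd_side hGc.bd a)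
    hPer (k := k) hk0 (by rw [hit]; exact hkB) (fun i h0 hi => by rw [hit]; exact hkmin i h0 hi)
  have hvl : v + l ≤ mF := by
    by_contra hcon
    push Not at hcon
    apply hln (mF - v) (by omega) (by omega)
    rw [hitF, show v + (mF - v) = mF by omega, hFc.per]
    exact hGc.bd.1
  have heq : side G A (a + k) = side F A (v + l) := by
    rw [← hit, ← hlB, hitF]
  refine ⟨k, l, hk0, hl0, Com.of_eq hFc hGc (by omega) (by omega) (by omega) hvl heq, hkmin, ?_,
    hl1, ?_⟩
  · intro i h0 hi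
    have := hln i h0 hi
    rw [hitF] at this
    exact this
  · intro i h0 hi C hC hj
    obtain ⟨j, hj1, hj2, hj3⟩ := hlC i h0 hi C hC (by
      rw [hit]
      exact hj)
    refine ⟨v + j, by omega, by omega, ?_⟩
    rw [← hitF]
    exact hj3

/-- The common sides have the same order on the two contours. -/
theorem com_mono (hF : F.Finite) (hc : EConn F) (he : Esc F) (hGF : G ⊆ F) (hcG : EConn G)
    (hFc : Cyc F A mF) (hGc : Cyc G A mG) (h : Com F G A mF mG a v) (h' : Com F G A mF mG b v')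
    (hab : a < b) : v < v' := by
  obtain ⟨n, hn⟩ : ∃ n, n = b - a := ⟨_, rfl⟩
  induction n using Nat.strong_induction_on generalizing a v with
  | _ n ih =>
    have hb := h'.la
    obtain ⟨k, l, hk, hl, hcom, hno, -, -, -⟩ := com_next hF hc he hGF hcG hFc hGc h (by omega)
    rcases lt_trichotomy (a + k) b with h1 | h1 | h1
    · have := ih (b - (a + k)) (by omega) hcom h1 rfl
      omega
    · subst h1
      have := hcom.uniq hFc h'
      omega
    · exfalso
      have h2 := hno (b - a) (by omega) (by omega)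
      rw [show a + (b - a) = b by omega] at h2
      exact h2 (h'.bd hFc.bd)

theorem com_mono_iff (hF : F.Finite) (hc : EConn F) (he : Esc F) (hGF : G ⊆ F) (hcG : EConn G)
    (hFc : Cyc F A mF) (hGc : Cyc G A mG) (h : Com F G A mF mG a v)
    (h' : Com F G A mF mG b v') : a < b ↔ v < v' := by
  constructor
  · exact com_mono hF hc he hGF hcG hFc hGc h h'
  · intro hv
    rcases lt_trichotomy a b with h1 | h1 | h1
    · exact h1
    · subst h1
      have := h.uniq hFc h'
      omega
    · have := com_mono hF hc he hGF hcG hFc hGc h' h h1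
      omega

/-- The last common side before the side `i`, and the next one. -/
theorem com_around (hF : F.Finite) (hc : EConn F) (he : Esc F) (hGF : G ⊆ F) (hcG : EConn G)
    (hFc : Cyc F A mF) (hGc : Cyc G A mG) {i : ℕ} (hi : i < mG) (hn : ¬ BD F (side G A i)) :
    ∃ a v k l, Com F G A mF mG a v ∧ Com F G A mF mG (a + k) (v + l) ∧ a < i ∧ i < a + k ∧
      (∀ x, a < x → x < a + k → ¬ BD F (side G A x)) ∧
      (∀ C, BD F C → ChI (F \ G) (outF G A i) (ahead C) →
        ∃ j, v < j ∧ j < v + l ∧ side F A j = C) := by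
  classical
  set S := (Finset.range (i + 1)).filter fun x => BD F (side G A x) with hS
  have hSne : S.Nonempty :=
    ⟨0, Finset.mem_filter.2 ⟨Finset.mem_range.2 (by omega), hFc.bd⟩⟩
  obtain ⟨hm1, hm2⟩ := Finset.mem_filter.1 (Finset.max'_mem S hSne)
  set a := S.max' hSne with hadef
  rw [Finset.mem_range] at hm1
  have hai : a ≠ i := by
    intro h
    rw [h] at hm2
    exact hn hm2
  obtain ⟨v, hv⟩ := Com.exists hFc hGc (a := a) (by omega) hm2
  obtain ⟨k, l, hk, hl, hcom, hno, -, -, hC⟩ :=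
    com_next hF hc he hGF hcG hFc hGc hv (by omega)
  have hik : i < a + k := by
    by_contra hcon
    push Not at hcon
    have h1 : BD F (side G A (a + k)) := hcom.bd hFc.bd
    have h2 : a + k ∈ S := Finset.mem_filter.2 ⟨Finset.mem_range.2 (by omega), h1⟩
    have h3 := Finset.le_max' S _ h2
    omega
  refine ⟨a, v, k, l, hv, hcom, by omega, hik, ?_, ?_⟩
  · intro x h1 h2
    have := hno (x - a) (by omega) (by omega)
    rwa [show a + (x - a) = x by omega] at this
  · intro C hCb hj
    exact hC (i - a) (by omega) (by omega) C hCb (by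
      rw [show a + (i - a) = i by omega]
      exact hj)

theorem out_mem_of_not_bd (hGF : G ⊆ F) (hA : BD G A) {i : ℕ} (hn : ¬ BD F (side G A i)) :
    outF G A i ∈ F := by
  by_contra h
  exact hn ⟨hGF (bd_side hA i).1, h⟩

theorem not_bd_of_out (hi : outF G A a ∈ F) : ¬ BD F (side G A a) := fun h => h.2 hi

/-- **One gap.** Two sides of `G` whose outer faces are in `F` and joined to each other in `F \ G`
have no common side between them. -/
theorem one_gap (hF : F.Finite) (hc : EConn F) (he : Esc F) (hGF : G ⊆ F) (hcG : EConn G)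
    (heG : Esc G) (hFc : Cyc F A mF) (hGc : Cyc G A mG) {i j x : ℕ} (hj : j < mG)
    (hiF : outF G A i ∈ F) (hij : ChI (F \ G) (outF G A i) (outF G A j)) (hix : i < x) (hxj : x < j) :
    outF G A x ∈ F := by
  by_contra hx
  have hxb : BD F (side G A x) := ⟨hGF (bd_side hGc.bd x).1, hx⟩
  have hiG : outF G A i ∉ G := outF_notMem hGc.bd i
  have hjm : outF G A j ∈ F \ G := ChI.mem ⟨hiF, hiG⟩ hij
  obtain ⟨C, hC, hCi⟩ := exists_bd_of_esc hF heG hiF hiG
  have hCj : ChI (F \ G) (outF G A j) (ahead C) :=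
    (ChI.symm (show outF G A i ∈ F \ G from ⟨hiF, hiG⟩) hij).trans hCi
  obtain ⟨a, v, k, l, h1, h2, h3, h4, h5, h6⟩ := com_around hF hc he hGF hcG hFc hGc (i := i)
    (by omega) (not_bd_of_out hiF)
  obtain ⟨a', v', k', l', h1', h2', h3', h4', h5', h6'⟩ := com_around hF hc he hGF hcG hFc hGc
    (i := j) hj (not_bd_of_out hjm.1)
  obtain ⟨p, hp1, hp2, hp3⟩ := h6 C hC hCi
  obtain ⟨q, hq1, hq2, hq3⟩ := h6' C hC hCj
  have hka : a + k ≤ x := by
    by_contra h
    exact h5 x (by omega) (by omega) hxb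
  have hxa' : x ≤ a' := by
    by_contra h
    exact h5' x (by omega) (by omega) hxb
  have hvv : v + l ≤ v' := by
    rcases Nat.lt_or_ge (a + k) a' with h7 | h7
    · exact (com_mono hF hc he hGF hcG hFc hGc h2 h1' h7).le
    · have h8 : a + k = a' := by omega
      rw [h8] at h2
      exact (h2.uniq hFc h1').le
  have hlv := h2'.lv
  have := hFc.inj p (by omega) q (by omega) (hp3.trans hq3.symm)
  omega

/-- A run of common sides. -/
theorem Com.run (hFc : Cyc F A mF) (hGc : Cyc G A mG) (hGF : G ⊆ F) (h : Com F G A mF mG a v)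
    {r : ℕ} (hr : a + r ≤ mG) (ho : ∀ i ≤ r, outF G A (a + i) ∉ F) :
    ∀ i ≤ r, Com F G A mF mG (a + i) (v + i) := by
  have hrun := interval_of_out hGF (bd_side hGc.bd a) (k := r) (by
    intro i hi
    have := ho i hi
    rw [outF, side_add] at this
    exact this)
  intro i hi
  induction i with
  | zero => exact h
  | succ i ih =>
    have h1 := ih (by omega)
    have h2 : v + i ≠ mF := fun hh => by
      have := h1.last.2 hh
      omega
    have h3 := h1.lv
    refine Com.of_eq hFc hGc (by omega) (by omega) (by omega) (by omega) ?_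
    have h4 := (hrun (i + 1) hi).1
    rw [side_add, side_add (D := F), ← h.eq]
    exact h4.symm

end Two

/-! ### The contour of the region of a move -/

/-- The contour of `T`, started at the common side `A` of `U` and `T` (the tip): the sides `0, …, s` are
the sides `0, …, s` of `U`, the sides `s + 1, …, t - 1` have an outer face in `U`, the sides `t, …, M` are
the sides `u, …, mU` of `U`; the sides `K, …, K + (b - a) - 1` (between `s` and `t`) are the sides
`a, …, b - 1` of `D`. -/
structure LayBar (U T D : Set (ℤ × ℤ)) (A B : UE × Bool) (a b mU M s t u K : ℕ) : Prop where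
  cycU : Cyc U A mU
  cycT : Cyc T A M
  st : s + 1 < t
  le : t ≤ M
  su : s < u
  len : u + (M - t) = mU
  fst : ∀ i ≤ s, side T A i = side U A i
  mid : ∀ i, s < i → i < t → outF T A i ∈ U
  lst : ∀ j, t + j ≤ M → side T A (t + j) = side U A (u + j)
  sK : s < K
  Kt : K + (b - a) ≤ t
  prev : side T A (K - 1) = side D B (a - 1)
  arc : ∀ i ≤ b - a, side T A (K + i) = side D B (a + i)
section LB

variable {U T D : Set (ℤ × ℤ)} {A B : UE × Bool} {a b mU M : ℕ}

/-- **(F3) The contour of the region of a move.** -/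
theorem exists_layBar (hU : U.Finite) (cU : EConn U) (eU : Esc U) (hTU : T ⊆ U) (cT : EConn T)
    (eT : Esc T) (hDT : D ⊆ T) (hUc : Cyc U A mU) (hTc : Cyc T A M) (hB : BD D B) (ha : 0 < a)
    (hab : a < b) (ho : ∀ i, a ≤ i → i < b → outF D B i ∈ U \ T)
    (hR : outF D B (a - 1) ∉ T) (hL : outF D B b ∉ T)
    (hd : ∀ C, BD T C → ahead (rv C) ∈ U → (∃ i, a ≤ i ∧ i < b ∧ side D B i = C) ∨
      (outF D B (a - 1) ∈ U ∧ ChI (U \ T) (outF D B (a - 1)) (ahead (rv C))) ∨
      (outF D B b ∈ U ∧ ChI (U \ T) (outF D B b) (ahead (rv C)))) :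
    ∃ s t u K, LayBar U T D A B a b mU M s t u K := by
  classical
  have hA0 : outF T A 0 ∉ U := hUc.bd.2
  have hAM : outF T A M ∉ U := by
    unfold outF
    rw [hTc.per]
    exact hUc.bd.2
  -- the run of the sides `a - 1, …, b` of `D`
  have hout : ∀ i ≤ b - a + 1, outF D B (a - 1 + i) ∉ T := by
    intro i hi
    rcases Nat.eq_zero_or_pos i with h0 | h0
    · subst h0
      exact hR
    · by_cases h1 : i = b - a + 1
      · rw [show a - 1 + i = b by omega]
        exact hL
      · exact (ho (a - 1 + i) (by omega) (by omega)).2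
  have hB1 : BD T (side D B (a - 1)) := ⟨hDT (bd_side hB _).1, hR⟩
  obtain ⟨K₀, hK₀, hK₀s⟩ := hTc.exists_index hB1
  have hrun : ∀ i ≤ b - a + 1, side T A (K₀ + i) = side D B (a - 1 + i) := by
    have h1 := interval_of_out hDT (bd_side hB (a - 1)) (k := b - a + 1) (by
      intro i hi
      have := hout i hi
      rw [outF, side_add] at this
      exact this)
    intro i hi
    rw [side_add, side_add (D := D), hK₀s]
    exact (h1 i hi).1
  have harc : ∀ i ≤ b - a, side T A (K₀ + 1 + i) = side D B (a + i) := by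
    intro i hi
    have := hrun (i + 1) (by omega)
    rw [show K₀ + (i + 1) = K₀ + 1 + i by ring, show a - 1 + (i + 1) = a + i by omega] at this
    exact this
  have hoU : ∀ i, i < b - a → outF T A (K₀ + 1 + i) ∈ U := by
    intro i hi
    unfold outF
    rw [harc i hi.le]
    exact (ho (a + i) (by omega) (by omega)).1
  have hKM : ∀ i, i < b - a → K₀ + 1 + i < M := by
    intro i hi
    induction i with
    | zero =>
      by_contra h
      have h1 : K₀ + 1 + 0 = M := by omega
      have h2 := hoU 0 hi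
      rw [h1] at h2
      exact hAM h2
    | succ i ih =>
      have h0 := ih (by omega)
      by_contra h
      have h1 : K₀ + 1 + (i + 1) = M := by omega
      have h2 := hoU (i + 1) hi
      rw [h1] at h2
      exact hAM h2
  have hKb : K₀ + 1 + (b - a) ≤ M := by
    have := hKM (b - a - 1) (by omega)
    omega
  have houtR : outF T A K₀ = outF D B (a - 1) := by
    unfold outF
    rw [hK₀s]
  have houtL : outF T A (K₀ + 1 + (b - a)) = outF D B b := by
    unfold outF
    rw [harc (b - a) le_rfl, show a + (b - a) = b by omega]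
  -- the three kinds of cut sides
  have hkind : ∀ x < M, outF T A x ∈ U → (K₀ + 1 ≤ x ∧ x < K₀ + 1 + (b - a)) ∨
      (outF T A K₀ ∈ U ∧ ChI (U \ T) (outF T A K₀) (outF T A x)) ∨
      (outF T A (K₀ + 1 + (b - a)) ∈ U ∧
        ChI (U \ T) (outF T A (K₀ + 1 + (b - a))) (outF T A x)) := by
    intro x hx hxU
    rcases hd _ (bd_side hTc.bd x) hxU with ⟨i, hi1, hi2, hi3⟩ | h | h
    · left
      have h1 := harc (i - a) (by omega)
      rw [show a + (i - a) = i by omega, hi3] at h1
      have := hTc.inj _ (hKM (i - a) (by omega)) _ hx h1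
      omega
    · rw [← houtR] at h
      exact Or.inr (Or.inl h)
    · rw [← houtL] at h
      exact Or.inr (Or.inr h)
  -- the first and the last one
  set S := (Finset.range M).filter fun i => outF T A i ∈ U with hS
  have hmemS : ∀ x, x ∈ S ↔ x < M ∧ outF T A x ∈ U := by
    intro x
    rw [hS, Finset.mem_filter, Finset.mem_range]
  have hKS : K₀ + 1 ∈ S := (hmemS _).2 ⟨by simpa using hKM 0 (by omega), by
    simpa using hoU 0 (by omega)⟩
  have hSne : S.Nonempty := ⟨_, hKS⟩
  obtain ⟨hi1, hi2⟩ := (hmemS _).1 (Finset.min'_mem S hSne)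
  obtain ⟨hj1, hj2⟩ := (hmemS _).1 (Finset.max'_mem S hSne)
  set i₀ := S.min' hSne with hi₀
  set j₀ := S.max' hSne with hj₀
  have hiK : i₀ ≤ K₀ + 1 := Finset.min'_le S _ hKS
  have hjK : K₀ + (b - a) ≤ j₀ := by
    have h1 : K₀ + (b - a) ∈ S := by
      refine (hmemS _).2 ?_
      have h2 := hKM (b - a - 1) (by omega)
      have h3 := hoU (b - a - 1) (by omega)
      rw [show K₀ + 1 + (b - a - 1) = K₀ + (b - a) by omega] at h2 h3
      exact ⟨h2, h3⟩
    exact Finset.le_max' S _ h1
  have hi0 : i₀ ≠ 0 := fun h => by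
    rw [h] at hi2
    exact hA0 hi2
  have hgap : ∀ i j x, i < x → x < j → j < M → outF T A i ∈ U →
      ChI (U \ T) (outF T A i) (outF T A j) → outF T A x ∈ U := by
    intro i j x h1 h2 h3 h4 h5
    exact one_gap hU cU eU hTU cT eT hUc hTc h3 h4 h5 h1 h2
  have hsym : ∀ i j, outF T A i ∈ U → ChI (U \ T) (outF T A i) (outF T A j) →
      outF T A j ∈ U ∧ ChI (U \ T) (outF T A j) (outF T A i) := by
    intro i j h1 h2
    have h3 : outF T A i ∈ U \ T := ⟨h1, outF_notMem hTc.bd i⟩
    exact ⟨(ChI.mem h3 h2).1, ChI.symm h3 h2⟩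
  have hmid : ∀ x, i₀ ≤ x → x ≤ j₀ → outF T A x ∈ U := by
    intro x hx1 hx2
    by_contra hx
    have h1 : i₀ < x := lt_of_le_of_ne hx1 fun h => hx (h ▸ hi2)
    have h2 : x < j₀ := lt_of_le_of_ne hx2 fun h => hx (h ▸ hj2)
    have h3 : ¬ (K₀ + 1 ≤ x ∧ x < K₀ + 1 + (b - a)) := by
      rintro ⟨h4, h5⟩
      have h6 := hoU (x - (K₀ + 1)) (by omega)
      rw [show K₀ + 1 + (x - (K₀ + 1)) = x by omega] at h6
      exact hx h6
    have hKb' : outF T A (K₀ + 1 + (b - a)) ∈ U → K₀ + 1 + (b - a) < M := by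
      intro h
      refine lt_of_le_of_ne hKb fun hh => ?_
      rw [hh] at h
      exact hAM h
    rcases Nat.lt_or_ge x (K₀ + 1) with h4 | h4
    · rcases hkind i₀ hi1 hi2 with h5 | ⟨h5, h6⟩ | ⟨h5, h6⟩
      · omega
      · obtain ⟨h7, h8⟩ := hsym _ _ h5 h6
        have h9 : x ≠ K₀ := fun h => hx (h ▸ h5)
        exact hx (hgap i₀ K₀ x h1 (by omega) (by omega) h7 h8)
      · obtain ⟨h7, h8⟩ := hsym _ _ h5 h6
        exact hx (hgap i₀ _ x h1 (by omega) (hKb' h5) h7 h8)
    · rcases hkind j₀ hj1 hj2 with h5 | ⟨h5, h6⟩ | ⟨h5, h6⟩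
      · omega
      · exact hx (hgap K₀ j₀ x (by omega) h2 hj1 h5 h6)
      · have h9 : x ≠ K₀ + 1 + (b - a) := fun h => hx (h ▸ h5)
        exact hx (hgap _ j₀ x (by omega) h2 hj1 h5 h6)
  have hbefore : ∀ i < i₀, outF T A i ∉ U := by
    intro i hi h
    have := Finset.min'_le S _ ((hmemS i).2 ⟨by omega, h⟩)
    omega
  have hafter : ∀ i, j₀ < i → i ≤ M → outF T A i ∉ U := by
    intro i hi him h
    rcases Nat.lt_or_ge i M with h1 | h1
    · have := Finset.le_max' S _ ((hmemS i).2 ⟨h1, h⟩)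
      omega
    · have : i = M := by omega
      rw [this] at h
      exact hAM h
  obtain ⟨s, hs⟩ : ∃ s, i₀ = s + 1 := ⟨i₀ - 1, by omega⟩
  -- the first run
  have hcom0 : Com U T A mU M 0 0 := com_zero hUc.pos hTc.pos
  have hrunR := hcom0.run hUc hTc hTU (r := s) (by omega) (fun i hi => by
    rw [zero_add]
    exact hbefore i (by omega))
  -- the second run
  have hbt : BD U (side T A (j₀ + 1)) := ⟨hTU (bd_side hTc.bd _).1, hafter _ (by omega) (by omega)⟩
  obtain ⟨u, hu⟩ := Com.exists hUc hTc (a := j₀ + 1) (by omega) hbt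
  have hrunL := hu.run hUc hTc hTU (r := M - (j₀ + 1)) (by omega) (fun i hi =>
    hafter _ (by omega) (by omega))
  have hcs : Com U T A mU M s s := by
    have := hrunR s le_rfl
    simpa using this
  refine ⟨s, j₀ + 1, u, K₀ + 1, hUc, hTc, by omega, by omega, ?_, ?_, ?_, ?_, ?_, by omega,
    by omega, ?_, harc⟩
  · exact com_mono hU cU eU hTU cT hUc hTc hcs hu (by omega)
  · have h1 := hrunL (M - (j₀ + 1)) le_rfl
    exact h1.last.1 (by omega)
  · intro i hi
    have := (hrunR i hi).eq
    simpa using this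
  · intro i h1 h2
    exact hmid i (by omega) (by omega)
  · intro j hj
    exact (hrunL j (by omega)).eq
  · simpa using hK₀s

/-- The cap `c` at the face `g`: every face of `c` in `U` is joined to `g ∈ U` inside `c ∩ U`. -/
def CapAt (U : Set (ℤ × ℤ)) (g : ℤ × ℤ) (c : Set (ℤ × ℤ)) : Prop :=
  ∀ x ∈ c, x ∈ U → g ∈ U ∧ ChI (c ∩ U) g x

theorem capAt_singleton {g : ℤ × ℤ} : CapAt U g {g} := fun x hx hxU => by
  rw [Set.mem_singleton_iff] at hx
  subst hx
  exact ⟨hxU, ChI.refl _⟩

/-- The piece of `g` in its class, inside `U`, with a face outside `U`. -/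
theorem capAt_pc {ι : Type*} {κ : ℤ × ℤ → ι} {g x₀ : ℤ × ℤ} (hg : g ∈ U) (h0 : x₀ ∉ U) :
    CapAt U g (insert x₀ (pc U κ g)) := by
  intro x hx hxU
  rcases Set.mem_insert_iff.1 hx with h | h
  · exact absurd (h ▸ hxU) h0
  · refine ⟨hg, ChI.mono (S := pc U κ g) (T := insert x₀ (pc U κ g) ∩ U)
      (fun y hy => ⟨Or.inr hy, pc_sub hg hy⟩) ?_⟩
    exact econn_pc hg g self_mem_pc x h

theorem CapAt.chain {g : ℤ × ℤ} {c : Set (ℤ × ℤ)} (h : CapAt U g c) (hT : ∀ x ∈ c, x ∉ T)
    {x : ℤ × ℤ} (hx : x ∈ c) (hxU : x ∈ U) : g ∈ U ∧ ChI (U \ T) g x :=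
  ⟨(h x hx hxU).1, ChI.mono (S := c ∩ U) (T := U \ T) (fun _ hy => ⟨hy.2, hT _ hy.1⟩)
    (h x hx hxU).2⟩

namespace LayBar

variable {s t u K : ℕ} (h : LayBar U T D A B a b mU M s t u K)

include h

theorem outR {i : ℕ} (hi : i ≤ s) : outF T A i ∉ U := by
  unfold outF
  rw [h.fst i hi]
  exact (bd_side h.cycU.bd i).2

theorem outL {i : ℕ} (h1 : t ≤ i) (h2 : i ≤ M) : outF T A i ∉ U := by
  have h3 := h.lst (i - t) (by omega)
  rw [show t + (i - t) = i by omega] at h3
  unfold outF
  rw [h3]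
  exact (bd_side h.cycU.bd _).2

/-- A side of `U` whose face is not in `T` is between `s` and `u`. -/
theorem index_of_notMem {j : ℕ} (hj : j ≤ mU) (hn : inF U A j ∉ T) : s < j ∧ j < u := by
  constructor
  · by_contra hcon
    push Not at hcon
    apply hn
    unfold inF
    rw [← h.fst j hcon]
    exact (bd_side h.cycT.bd j).1
  · by_contra hcon
    push Not at hcon
    apply hn
    have hl := h.len
    have := h.le
    have h1 := h.lst (j - u) (by omega)
    rw [show u + (j - u) = j by omega] at h1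
    unfold inF
    rw [← h1]
    exact (bd_side h.cycT.bd _).1

theorem exists_index_of_notMem {q : UE × Bool} (hq : BD U q) (hn : ahead q ∉ T) :
    ∃ j, s < j ∧ j < u ∧ side U A j = q := by
  obtain ⟨j, hj, hjq⟩ := h.cycU.exists_index hq
  have h1 := h.index_of_notMem hj.le (by
    unfold inF
    rw [hjq]
    exact hn)
  exact ⟨j, h1.1, h1.2, hjq⟩

/-- The outer faces of the stop arc. -/
theorem arc_out {i : ℕ} (hi : i ≤ b - a) : outF T A (K + i) = outF D B (a + i) := by
  unfold outF
  rw [h.arc i hi]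

theorem prev_out : outF T A (K - 1) = outF D B (a - 1) := by
  unfold outF
  rw [h.prev]

theorem sM : s < M := by
  have := h.st
  have := h.le
  omega

theorem um : u ≤ mU := by
  have := h.len
  omega

theorem vert_fst {i : ℕ} (hi : i ≤ s + 1) : vert T A i = vert U A i := by
  rcases Nat.eq_zero_or_pos i with h0 | h0
  · subst h0
    rfl
  · obtain ⟨j, rfl⟩ : ∃ j, i = j + 1 := ⟨i - 1, by omega⟩
    rw [vert_succ, vert_succ, h.fst j (by omega)]

theorem vert_lst {j : ℕ} (hj : t + j ≤ M) : vert T A (t + j) = vert U A (u + j) := by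
  unfold vert
  rw [h.lst j hj]

theorem vert_arc {i : ℕ} (hi : i ≤ b - a) : vert T A (K + i) = vert D B (a + i) := by
  unfold vert
  rw [h.arc i hi]

/-- A cut side which is not on the stop arc is at a cap. -/
theorem cap {Q : UE × Bool → Prop}
    (hd : ∀ C, BD T C → ahead (rv C) ∈ U → (∃ j, a ≤ j ∧ j < b ∧ side D B j = C) ∨ Q C) {i : ℕ}
    (h1 : s < i) (h2 : i < t) (h3 : ¬ (K ≤ i ∧ i < K + (b - a))) : Q (side T A i) := by
  rcases hd _ (bd_side h.cycT.bd i) (h.mid i h1 h2) with ⟨j, hj1, hj2, hj3⟩ | hQ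
  · exfalso
    have h4 := h.arc (j - a) (by omega)
    rw [show a + (j - a) = j by omega, hj3] at h4
    have h5 := h.Kt
    have h6 := h.le
    have := h.cycT.inj _ (by omega) _ (by omega) h4
    omega
  · exact hQ

/-- The unit edges of the stop arc with their outer faces. -/
theorem cut_side {i : ℕ} (h1 : s < i) (h2 : i < t) {e : UE}
    (he : Joins e (vert T A i) (vert T A (i + 1))) {g : ℤ × ℤ} (hg : IsSide g e) (hgT : g ∉ T) :
    g = outF T A i := by
  have h3 : e = (side T A i).1 := (Joins.uniq (joins_side i) he).symm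
  subst h3
  rcases side_two (ahead_ne (side T A i)) (sideA _) (sideB _) hg with h4 | h4
  · exact absurd (h4 ▸ (bd_side h.cycT.bd i).1) hgT
  · exact h4

end LayBar

/-- The layout with the two caps: the cut sides before the stop arc are at the right cap, those after
it are at the left cap. -/
structure LayCap (U T D : Set (ℤ × ℤ)) (A B : UE × Bool) (a b mU M s t u K : ℕ)
    (cR cL : Set (ℤ × ℤ)) : Prop extends LayBar U T D A B a b mU M s t u K where
  capR : ∀ i, s < i → i < K → outF T A i ∈ cR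
  capL : ∀ i, K + (b - a) ≤ i → i < t → outF T A i ∈ cL

/-- The order of the caps, one side: `c` is removed, `c'` is the other cap. -/
theorem order_aux (hU : U.Finite) (eU : Esc U) (hTU : T ⊆ U) (cT : EConn T)
    (eT : Esc T) (hUA : BD U A) (hTc : Cyc T A M) {c c' : Set (ℤ × ℤ)} (hc : ∀ f ∈ c, f ∉ T)
    (hc' : ∀ f ∈ c', f ∉ T) (hcap : ∀ f ∈ c, ∃ x, x ∉ U ∧ ChI c f x)
    (hdis : ∀ x ∈ c', x ∈ U → x ∉ c) {i j x : ℕ} (hix : i < x) (hxj : x < j) (hj : j < M)
    (hi : outF T A i ∈ c' ∩ U) (hij : ChI (c' ∩ U) (outF T A i) (outF T A j))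
    (hx : outF T A x ∈ c) : False := by
  have hsub : T ⊆ U \ c := fun f hf => ⟨hTU hf, fun h => hc f h hf⟩
  have hA0 : ahead A ∈ U \ c := hsub hTc.bd.1
  have hfin : (U \ c).Finite := hU.subset Set.sdiff_subset
  have hesc : Esc (U \ c) := by
    refine eU.diff fun f hf => ?_
    obtain ⟨y, hy, hch⟩ := hcap f hf
    refine ⟨y, hy, hch.stepC fun z hz h => h.2 hz⟩
  set F := compT (U \ c) (ahead A) with hF
  have hFf : F.Finite := hfin.subset (compT_sub hA0)
  have cF : EConn F := econn_compT hA0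
  have eF : Esc F := esc_compT hfin hesc hA0
  have hTF : T ⊆ F := sub_compT cT hsub hTc.bd.1
  have hAF : BD F A := ⟨hTF hTc.bd.1, fun h => hUA.2 (compT_sub hA0 h).1⟩
  obtain ⟨mF, hFc⟩ := exists_cyc hFf cF eF hAF
  have hiF : outF T A i ∈ F :=
    compT_step (hTF (bd_side hTc.bd i).1) (adjF_ahead _).symm ⟨hi.2, hdis _ hi.1 hi.2⟩
  have hch : ChI (F \ T) (outF T A i) (outF T A j) := by
    have h2 : ∀ y, ChI (c' ∩ U) (outF T A i) y → ChI (F \ T) (outF T A i) y := by
      intro y hy
      induction hy with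
      | refl => exact ChI.refl _
      | @tail p q hp hs ih =>
        have hpF : p ∈ F := by
          have h3 : p ∈ F \ T :=
            ChI.mem (show outF T A i ∈ F \ T from ⟨hiF, outF_notMem hTc.bd i⟩) ih
          exact h3.1
        exact ih.tail ⟨hs.1, compT_step hpF hs.1 ⟨hs.2.2, hdis _ hs.2.1 hs.2.2⟩, hc' _ hs.2.1⟩
    exact h2 _ hij
  have h4 := one_gap hFf cF eF hTF cT eT hFc hTc hj hiF hch hix hxj
  exact (compT_sub hA0 h4).2 hx

end LB

end Pool.Agent.SixB.Mv

namespace Pool.Agent.SixB.Top.Clo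

open Pool.Agent.Perc Pool.Agent.Perc6 Pool.Agent.Perc6.C2Aux Pool.Agent.Perc.Tips
open Pool.Agent.SixB.Top Pool.Agent.SixB.Mv

variable {U P D T cR cL : Set (ℤ × ℤ)} {A B : UE × Bool} {k₁ k₃ m : ℕ}

/-- **(F3) The contour of `T`, with the caps.** `A` is the true tip side, `B` the base side of `D`. -/
theorem layCap (H : Clo U P D T B k₁ k₃ m cR cL)
    (hcomp : ∀ t ∈ T, ∀ g, AdjF t g → g ∉ T → g ∉ U ∨ g ∈ P ∨ g ∈ cR ∨ g ∈ cL)
    (hnbr : ∀ p ∈ P, ∀ y, y ∉ P → AdjF p y → ∃ x, x ∉ U ∧ ChI Pᶜ y x)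
    (hR : CapAt U (outF D B (k₁ - 1)) cR) (hL : CapAt U (outF D B k₃) cL)
    (hRL : (∀ x ∈ cR, x ∈ U → x ∉ cL) ∨ (∀ x ∈ U, (x ∈ cR ↔ x ∈ cL)))
    (hUA : BD U A) (hAT : ahead A ∈ T) :
    ∃ mU M s t u K, LayCap U T D A B k₁ k₃ mU M s t u K cR cL := by
  have eT : Esc T := H.esc hcomp hnbr
  have hTf : T.Finite := H.finU.subset H.TU
  have hTA : BD T A := ⟨hAT, fun h => hUA.2 (H.TU h)⟩
  obtain ⟨mU, hUc⟩ := exists_cyc H.finU H.ecU H.escU hUA
  obtain ⟨M, hTc⟩ := exists_cyc hTf H.ecT eT hTA
  have ho : ∀ i, k₁ ≤ i → i < k₃ → outF D B i ∈ U \ T := by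
    intro i h1 h2
    have h3 := H.k3
    have h4 := (H.out i (by omega)).2 ⟨h1, h2⟩
    exact ⟨H.PU h4, H.not_mem h4 (H.bdA.iterate i).2⟩
  have hd : ∀ C, BD T C → ahead (rv C) ∈ U → (∃ i, k₁ ≤ i ∧ i < k₃ ∧ side D B i = C) ∨
      ahead (rv C) ∈ cR ∨ ahead (rv C) ∈ cL := by
    intro C hC hCU
    rcases H.bd hcomp hC with h | h | h
    · exact absurd hCU h
    · exact Or.inl h
    · exact Or.inr h
  obtain ⟨s, t, u, K, h⟩ := exists_layBar H.finU H.ecU H.escU H.TU H.ecT eT H.DT hUc hTc H.bdA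
    H.k1 H.k13 ho (H.RT _ H.inR) (H.LT _ H.inL) (fun C hC hCU => by
      rcases hd C hC hCU with h | h | h
      · exact Or.inl h
      · exact Or.inr (Or.inl (hR.chain H.RT h hCU))
      · exact Or.inr (Or.inr (hL.chain H.LT h hCU)))
  have hgR : outF T A (K - 1) ∈ cR := by
    rw [h.prev_out]
    exact H.inR
  have hgL : outF T A (K + (k₃ - k₁)) ∈ cL := by
    rw [h.arc_out le_rfl, show k₁ + (k₃ - k₁) = k₃ by have := H.k13; omega]
    exact H.inL
  have hk13 := H.k13
  refine ⟨mU, M, s, t, u, K, h, ?_, ?_⟩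
  · intro i h1 h2
    have hiU := h.mid i h1 (by have := h.Kt; omega)
    rcases h.cap hd h1 (by have := h.Kt; omega) (by omega) with h3 | h3
    · exact h3
    · change outF T A i ∈ cL at h3
      rcases hRL with hdis | heq
      · exfalso
        obtain ⟨h4, h5⟩ := hL _ h3 hiU
        have h6 : i ≠ K - 1 := by
          rintro rfl
          exact hdis _ hgR hiU h3
        have h7 : outF T A (K + (k₃ - k₁)) = outF D B k₃ := by
          rw [h.arc_out le_rfl, show k₁ + (k₃ - k₁) = k₃ by omega]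
        have h8 : K + (k₃ - k₁) < M := by
          have h9 := h.Kt
          have h10 := h.le
          refine lt_of_le_of_ne (by omega) fun hh => ?_
          have h11 : outF T A M = outF D B k₃ := by rw [← hh]; exact h7
          have h12 : outF T A M ∉ U := by
            unfold outF
            rw [hTc.per]
            exact hUA.2
          exact h12 (h11 ▸ h4)
        refine order_aux H.finU H.escU H.TU H.ecT eT hUA hTc H.RT H.LT H.capR
          (fun x hx hxU hxR => hdis x hxR hxU hx) (i := i) (x := K - 1) (j := K + (k₃ - k₁))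
          (by omega) (by omega) h8 ⟨h3, hiU⟩ ?_ hgR
        rw [h7]
        exact ChI.symm (show outF D B k₃ ∈ cL ∩ U from ⟨H.inL, h4⟩) h5
      · exact (heq _ hiU).2 h3
  · intro i h1 h2
    have hsK := h.sK
    have hiU := h.mid i (by omega) h2
    rcases h.cap hd (by omega) h2 (by omega) with h3 | h3
    · change outF T A i ∈ cR at h3
      rcases hRL with hdis | heq
      · exfalso
        obtain ⟨h4, h5⟩ := hR _ h3 hiU
        have h6 : i ≠ K + (k₃ - k₁) := by
          rintro rfl
          exact hdis _ h3 hiU hgL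
        have h7 := h.le
        refine order_aux H.finU H.escU H.TU H.ecT eT hUA hTc H.LT H.RT H.capL
          (fun x hx hxU hxL => hdis x hx hxU hxL) (i := K - 1) (x := K + (k₃ - k₁)) (j := i)
          (by omega) (by omega) (by omega) ⟨hgR, ?_⟩ ?_ hgL
        · rw [h.prev_out]
          exact h4
        · rw [h.prev_out]
          exact h5
      · exact (heq _ hiU).1 h3
    · exact h3

end Pool.Agent.SixB.Top.Clo
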