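import Pool.Agent.Lib.SixB.S8CloseB
import Pool.Agent.Lib.SixB.S8LabT
import Pool.Agent.Lib.SixB.S8LayBar
import Pool.Agent.Lib.SixB.S8Geo

/-!
# Step 8: the closure lemma for an inner approximation

`App U P κ d` is the coarse state, `D ⊆ P` the domain of the move (contour `Cyc D A m`, exit sides
`p, …, q`), `Y` a barrier attached to the exit arc. `G = inn D A Y` is the component of `D \ Y` at the
tip, with the layout `Contig`. The caps are `capK U κ g`: the component of `g` in (class ∩ `U`),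
together with the faces of the class outside `U`, for the outer faces `g` of the last common side before
the barrier and of the first common side after it. `domT` is the component of `U` minus the barrier
minus the caps.

* `Mvd.clo : Clo U P G T A N₁ N₂ m' cR cL` (hypotheses of the closure lemma),
* `Mvd.caps : Caps …`, `Mvd.hcomp`, `Mvd.hnbr`, `Mvd.capAt_R`, `Mvd.capAt_L`, `Mvd.closure`;
* `Mvd.lt_of_tip`: the last common side exists if `Y` does not touch the tip;
* `Mvd.exists_clo`: contour of `G` and closure data, from `Y` alone;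
* `Mvd.layCap`: the contour of `T` from a side `A'` of `U` and `T` (the true tip), with the caps;
* `mvd_of_arcs`: the instance `D = domD P W A` with the exit sides `IsEx P B`.
-/

set_option autoImplicit false

namespace Pool.Agent.SixB.CloK

open Pool.Agent.Perc Pool.Agent.Perc6 Pool.Agent.Perc6.C2Aux Pool.Agent.Perc.Tips
open Pool.Agent.SixB.Top Pool.Agent.SixB.Mv

variable {ι : Type*} {U P D Y : Set (ℤ × ℤ)} {κ : ℤ × ℤ → ι} {d : ℤ} {A : UE × Bool}
  {p q m m' N₁ N₂ : ℕ} {f g : ℤ × ℤ}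

/-- The cap of the face `g`. -/
def capK (U : Set (ℤ × ℤ)) (κ : ℤ × ℤ → ι) (g : ℤ × ℤ) : Set (ℤ × ℤ) :=
  {f | (g ∈ U ∧ f ∈ capC U κ g) ∨ (f ∉ U ∧ κ f = κ g)}

theorem capC_sub (hg : g ∈ U) (hf : f ∈ capC U κ g) : κ f = κ g ∧ f ∈ U :=
  compT_sub (show g ∈ {x | κ x = κ g} ∩ U from ⟨rfl, hg⟩) hf

theorem capK_class (hf : f ∈ capK U κ g) : κ f = κ g := by
  rcases hf with ⟨h1, h2⟩ | ⟨-, h2⟩
  · exact (capC_sub h1 h2).1
  · exact h2

theorem self_mem_capK : g ∈ capK U κ g := by
  by_cases h : g ∈ U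
  · exact Or.inl ⟨h, self_mem_compT⟩
  · exact Or.inr ⟨h, rfl⟩

theorem capK_notP (h : App U P κ d) (hg : g ∉ P) (hf : f ∈ capK U κ g) : f ∉ P :=
  fun hP => hg (h.sat f g (capK_class hf) hP)

theorem capK_mem_U (hf : f ∈ capK U κ g) (hU : f ∈ U) : g ∈ U ∧ f ∈ capC U κ g := by
  rcases hf with h | ⟨h, -⟩
  · exact h
  · exact absurd hU h

/-- The part of the cap in `U` is connected. -/
theorem capK_conn (hf : f ∈ capK U κ g) (hU : f ∈ U) : g ∈ U ∧ ChI (capK U κ g ∩ U) g f := by
  obtain ⟨h1, h2⟩ := capK_mem_U hf hU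
  refine ⟨h1, ?_⟩
  have h3 : ChI (capC U κ g) g f := compT_chain self_mem_compT h2
  exact h3.mono (T := capK U κ g ∩ U) fun x hx => ⟨Or.inl ⟨h1, hx⟩, (capC_sub h1 hx).2⟩

/-- A class with a face outside `U`: the cap is joined to it. -/
theorem capK_out (h : App U P κ d) {x : ℤ × ℤ} (hx : κ x = κ g) (hxU : x ∉ U)
    (hf : f ∈ capK U κ g) : ∃ y, y ∉ U ∧ ChI (capK U κ g) f y := by
  rcases hf with ⟨h1, h2⟩ | ⟨h1, h2⟩
  · have hch := (chn_iff.1 (h.cell g x hx.symm)).2
    have key : ∀ y, ChI {z | κ z = κ g} g y →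
        (∃ z, z ∉ U ∧ ChI (capK U κ g) g z) ∨ y ∈ capC U κ g := by
      intro y hy
      induction hy with
      | refl => exact Or.inr self_mem_compT
      | @tail b c _ hs ih =>
        rcases ih with ih | ih
        · exact Or.inl ih
        · by_cases hcU : c ∈ U
          · exact Or.inr (compT_step ih hs.1 (show c ∈ {x | κ x = κ g} ∩ U from ⟨hs.2, hcU⟩))
          · left
            refine ⟨c, hcU, ?_⟩
            have h3 : ChI (capK U κ g) g b := by
              have h4 : ChI (capC U κ g) g b := compT_chain self_mem_compT ih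
              exact h4.mono fun z hz => Or.inl ⟨h1, hz⟩
            exact h3.tail ⟨hs.1, Or.inr ⟨hcU, hs.2⟩⟩
    rcases key x hch with ⟨z, hz, hch'⟩ | h3
    · refine ⟨z, hz, ChI.trans (ChI.symm self_mem_capK ?_) hch'⟩
      have h4 : ChI (capC U κ g) g f := compT_chain self_mem_compT h2
      exact h4.mono fun z hz => Or.inl ⟨h1, hz⟩
    · exact absurd (capC_sub h1 h3).2 hxU
  · exact ⟨f, h1, ChI.refl f⟩

/-- Two caps are disjoint or equal in `U`. -/
theorem capK_dis (g g' : ℤ × ℤ) : (∀ f ∈ capK U κ g, f ∈ U → f ∉ capK U κ g') ∨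
    ∀ f ∈ U, f ∈ capK U κ g ↔ f ∈ capK U κ g' := by
  by_cases hex : ∃ f ∈ capK U κ g, f ∈ U ∧ f ∈ capK U κ g'
  · right
    obtain ⟨f, hf, hU, hf'⟩ := hex
    obtain ⟨h1, h2⟩ := capK_mem_U hf hU
    obtain ⟨h1', h2'⟩ := capK_mem_U hf' hU
    have hk : κ g = κ g' := (capC_sub h1 h2).1.symm.trans (capC_sub h1' h2').1
    have e1 : compT ({x | κ x = κ g} ∩ U) f = compT ({x | κ x = κ g} ∩ U) g :=
      compT_eq ⟨rfl, h1⟩ h2
    have e2 : compT ({x | κ x = κ g'} ∩ U) f = compT ({x | κ x = κ g'} ∩ U) g' :=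
      compT_eq ⟨rfl, h1'⟩ h2'
    have e3 : capC U κ g = capC U κ g' := by
      unfold capC
      rw [← e1, ← e2, hk]
    intro y hy
    constructor
    · intro h
      obtain ⟨-, h3⟩ := capK_mem_U h hy
      exact Or.inl ⟨h1', e3 ▸ h3⟩
    · intro h
      obtain ⟨-, h3⟩ := capK_mem_U h hy
      exact Or.inl ⟨h1, e3 ▸ h3⟩
  · left
    push Not at hex
    exact fun f hf hU => hex f hf hU

/-- The last outer face before the barrier. -/
noncomputable def gR (D : Set (ℤ × ℤ)) (A : UE × Bool) (Y : Set (ℤ × ℤ)) (N₁ : ℕ) : ℤ × ℤ :=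
  outF (inn D A Y) A (N₁ - 1)

/-- The first outer face after the barrier. -/
noncomputable def gL (D : Set (ℤ × ℤ)) (A : UE × Bool) (Y : Set (ℤ × ℤ)) (N₂ : ℕ) : ℤ × ℤ :=
  outF (inn D A Y) A N₂

/-- The true domain of the move. -/
def domT (U Y cR cL : Set (ℤ × ℤ)) (A : UE × Bool) : Set (ℤ × ℤ) :=
  compT (U \ (Y ∪ cR ∪ cL)) (ahead A)

/-- The data of a move: the domain `D` of the coarse state `P` and its exit arc. -/
structure Mvd (U P D : Set (ℤ × ℤ)) (κ : ℤ × ℤ → ι) (d : ℤ) (A : UE × Bool) (m p q : ℕ) : Prop where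
  app : App U P κ d
  finU : U.Finite
  ecU : EConn U
  escU : Esc U
  ecP : EConn P
  DP : D ⊆ P
  escD : Esc D
  cyc : Cyc D A m
  pq : p ≤ q
  qm : q < m
  /-- the sides of `D` with an outer face in `P` are on the exit arc -/
  exit : ∀ i < m, outF D A i ∈ P → p ≤ i ∧ i ≤ q

namespace Mvd

variable (H : Mvd U P D κ d A m p q)
include H

/-- A face of `P` outside `D` next to a face of `D` outside the barrier: impossible. -/
theorem no_exit (hY : Att D A p q Y) (hf : f ∈ D) (hfY : f ∉ Y) (hg : g ∈ P) (hgD : g ∉ D) :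
    ¬ AdjF f g := by
  intro h
  obtain ⟨B, hB1, hB2⟩ := adjF_dir h
  have hB : BD D B := ⟨by rw [hB1]; exact hf, by rw [hB2]; exact hgD⟩
  obtain ⟨c, hc, hcs⟩ := H.cyc.exists_index hB
  have h1 : outF D A c ∈ P := by
    unfold outF
    rw [hcs, hB2]
    exact hg
  obtain ⟨h2, h3⟩ := H.exit c hc h1
  apply hfY
  refine hY.on ⟨c, h2, h3, ?_⟩
  unfold inF
  rw [hcs, hB1]

/-- The common sides. -/
theorem out_iff (hY : Att D A p q Y) (hC : Contig D A p q Y m m' N₁ N₂) {i : ℕ} (hi : i < m') :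
    outF (inn D A Y) A i ∈ P ↔ N₁ ≤ i ∧ i < N₂ := by
  constructor
  · intro h
    by_contra hcon
    rcases (by omega : i < N₁ ∨ N₂ ≤ i) with h1 | h1
    · have h2 := hC.fst i h1
      have h3 : outF D A i ∈ P := by
        unfold outF at h ⊢
        rw [← h2]
        exact h
      have h5 := hC.lep
      have h6 := H.pq
      have h7 := H.qm
      have h4 := H.exit i (by omega) h3
      omega
    · have h2 := hC.lst i h1 hi
      have h3 : outF D A (i + m - m') ∈ P := by
        unfold outF at h ⊢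
        rw [← h2]
        exact h
      have h4 := H.exit (i + m - m') (by have := H.cyc.pos; omega) h3
      have := hC.ltq
      omega
  · rintro ⟨h1, h2⟩
    exact H.DP (hY.sub (hC.mid i h1 h2))

/-- **The hypotheses of the closure lemma.** -/
theorem clo (hY : Att D A p q Y) (hA : ahead A ∉ Y) (hC : Contig D A p q Y m m' N₁ N₂)
    (hN : N₂ < m') :
    Clo U P (inn D A Y)
      (domT U Y (capK U κ (gR D A Y N₁)) (capK U κ (gL D A Y N₂)) A) A N₁ N₂ m'
      (capK U κ (gR D A Y N₁)) (capK U κ (gL D A Y N₂)) := by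
  have hAD : ahead A ∈ D \ Y := ⟨H.cyc.bd.1, hA⟩
  have hGD : inn D A Y ⊆ D \ Y := inn_sub hAD
  have hGb := hC.cyc.bd
  have hN0 := hC.pos
  have hN12 := hC.lt
  have hgR : gR D A Y N₁ ∉ P := by
    intro h
    have := (H.out_iff hY hC (i := N₁ - 1) (by omega)).1 h
    omega
  have hgL : gL D A Y N₂ ∉ P := by
    intro h
    have := (H.out_iff hY hC (i := N₂) hN).1 h
    omega
  have hbR : ∃ x, κ x = κ (gR D A Y N₁) ∧ x ∉ U :=
    H.app.out _ (H.DP (hGD (bd_side hGb (N₁ - 1)).1).1) _ (adj_iff_adjFL.2 (adjF_ahead _).symm) hgR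
  have hbL : ∃ x, κ x = κ (gL D A Y N₂) ∧ x ∉ U :=
    H.app.out _ (H.DP (hGD (bd_side hGb N₂).1).1) _ (adj_iff_adjFL.2 (adjF_ahead _).symm) hgL
  have hDfin := H.finU.subset (H.DP.trans H.app.sub)
  have hAW : ahead A ∈ U \ (Y ∪ capK U κ (gR D A Y N₁) ∪ capK U κ (gL D A Y N₂)) := by
    refine ⟨H.app.sub (H.DP hAD.1), ?_⟩
    rintro ((h | h) | h)
    · exact hA h
    · exact capK_notP H.app hgR h (H.DP hAD.1)
    · exact capK_notP H.app hgL h (H.DP hAD.1)
  have hDW : D \ Y ⊆ U \ (Y ∪ capK U κ (gR D A Y N₁) ∪ capK U κ (gL D A Y N₂)) := by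
    rintro x ⟨hx, hxY⟩
    refine ⟨H.app.sub (H.DP hx), ?_⟩
    rintro ((h | h) | h)
    · exact hxY h
    · exact capK_notP H.app hgR h (H.DP hx)
    · exact capK_notP H.app hgL h (H.DP hx)
  exact {
    finU := H.finU
    ecU := H.ecU
    escU := H.escU
    PU := H.app.sub
    ecP := H.ecP
    DP := fun x hx => H.DP (hGD hx).1
    ecD := econn_inn hAD
    escD := esc_compT (hDfin.subset Set.sdiff_subset) (hY.esc H.cyc.bd H.escD) hAD
    bdA := hGb
    per := hC.cyc.per
    inj := hC.cyc.inj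
    k1 := hN0
    k13 := hN12
    k3 := hN
    out := fun i hi => H.out_iff hY hC hi
    RP := fun f hf => capK_notP H.app hgR hf
    LP := fun f hf => capK_notP H.app hgL hf
    RT := fun f hf hT => (compT_sub hAW hT).2 (Or.inl (Or.inr hf))
    LT := fun f hf hT => (compT_sub hAW hT).2 (Or.inr hf)
    inR := self_mem_capK
    inL := self_mem_capK
    capR := fun f hf => by
      obtain ⟨x, hx, hxU⟩ := hbR
      exact capK_out H.app hx hxU hf
    capL := fun f hf => by
      obtain ⟨x, hx, hxU⟩ := hbL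
      exact capK_out H.app hx hxU hf
    DT := compT_mono hDW
    TU := fun x hx => (compT_sub hAW hx).1
    ecT := econn_compT hAW
    stop := fun x hx t ht hxt htP => by
      have h1 := hGD hx
      have h2 : t ∉ Y := fun h => (compT_sub hAW ht).2 (Or.inl (Or.inl h))
      by_cases h3 : t ∈ D
      · exact compT_step hx hxt ⟨h3, h2⟩
      · exact absurd hxt (H.no_exit hY h1.1 h1.2 htP h3) }

omit H in
/-- The caps are connected, and disjoint or equal. -/
theorem caps (N₁ N₂ : ℕ) : Caps U (inn D A Y) A N₁ N₂ (capK U κ (gR D A Y N₁))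
    (capK U κ (gL D A Y N₂)) where
  cnR _ hf hU := capK_conn hf hU
  cnL _ hf hU := capK_conn hf hU
  dis := capK_dis _ _

/-- The boundary property of `domT`. -/
theorem hcomp (hY : Att D A p q Y) {cR cL : Set (ℤ × ℤ)} :
    ∀ t ∈ domT U Y cR cL A, ∀ g, AdjF t g → g ∉ domT U Y cR cL A →
      g ∉ U ∨ g ∈ P ∨ g ∈ cR ∨ g ∈ cL := by
  intro t ht g htg hg
  by_contra hcon
  push Not at hcon
  obtain ⟨h1, h2, h3, h4⟩ := hcon
  refine hg (compT_step ht htg ⟨h1, ?_⟩)
  rintro ((h | h) | h)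
  · exact h2 (H.DP (hY.sub h))
  · exact h3 h
  · exact h4 h

/-- A face next to `P` is joined outside `P` to the complement of `U`. -/
theorem hnbr : ∀ p ∈ P, ∀ y, y ∉ P → AdjF p y → ∃ x, x ∉ U ∧ ChI Pᶜ y x := by
  intro p hp y hy hpy
  obtain ⟨x, hx, hxU⟩ := H.app.out p hp y (adj_iff_adjFL.2 hpy) hy
  refine ⟨x, hxU, ?_⟩
  have h1 := (chn_iff.1 (H.app.cell y x hx.symm)).2
  exact ChI.mono (fun z (hz : κ z = κ y) hzP => hy (H.app.sat z y hz hzP)) h1

omit H in
/-- If the barrier does not touch the tip, there is a common side after it. -/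
theorem lt_of_tip (hC : Contig D A p q Y m m' N₁ N₂) (htip : ∀ f ∈ Y, ¬ IsCor f (lf A)) :
    N₂ < m' := by
  rcases hC.le.lt_or_eq with h | h
  · exact h
  · exfalso
    have h1 := hC.lt
    have h2 := hC.mid (m' - 1) (by omega) (by omega)
    refine htip _ h2 ?_
    have h3 : rg (side (inn D A Y) A (m' - 1)) = lf A := by
      rw [← vert_succ, show m' - 1 + 1 = m' by omega]
      unfold vert
      rw [hC.cyc.per]
    rw [← h3]
    exact isCor_out_rg _

/-- **Closure** for the move: the true domain meets `P` in the inner domain only, has no holes, no face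
of it outside `D` is adjacent to a face of `P` outside the inner domain. -/
theorem closure (hY : Att D A p q Y) (hA : ahead A ∉ Y) (hC : Contig D A p q Y m m' N₁ N₂)
    (hN : N₂ < m') :
    (∀ x ∈ domT U Y (capK U κ (gR D A Y N₁)) (capK U κ (gL D A Y N₂)) A, x ∈ P →
      x ∈ inn D A Y) ∧
    Esc (domT U Y (capK U κ (gR D A Y N₁)) (capK U κ (gL D A Y N₂)) A) ∧
    EConn (domT U Y (capK U κ (gR D A Y N₁)) (capK U κ (gL D A Y N₂)) A) := by
  have h := H.clo hY hA hC hN
  exact ⟨fun x hx hxP => h.inter hx hxP, h.esc (H.hcomp hY) H.hnbr, h.ecT⟩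

omit H in
theorem capAt (g : ℤ × ℤ) : CapAt U g (capK U κ g) := fun _ hx hxU => capK_conn hx hxU

/-- The contour of the inner domain and the closure data. -/
theorem exists_clo (hY : Att D A p q Y) (hA : ahead A ∉ Y) (htip : ∀ f ∈ Y, ¬ IsCor f (lf A)) :
    ∃ m' N₁ N₂, Contig D A p q Y m m' N₁ N₂ ∧ N₂ < m' ∧
      Clo U P (inn D A Y)
        (domT U Y (capK U κ (gR D A Y N₁)) (capK U κ (gL D A Y N₂)) A) A N₁ N₂ m'
        (capK U κ (gR D A Y N₁)) (capK U κ (gL D A Y N₂)) := by
  obtain ⟨m', N₁, N₂, hC⟩ := exists_contig (H.finU.subset (H.DP.trans H.app.sub)) H.escD H.cyc hY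
    H.pq H.qm hA
  have hN := lt_of_tip hC htip
  exact ⟨m', N₁, N₂, hC, hN, H.clo hY hA hC hN⟩

/-- **The contour of the true domain**, from the true tip side `A'`. -/
theorem layCap (hY : Att D A p q Y) (hA : ahead A ∉ Y) (hC : Contig D A p q Y m m' N₁ N₂)
    (hN : N₂ < m') {A' : UE × Bool} (hUA : BD U A')
    (hAT : ahead A' ∈ domT U Y (capK U κ (gR D A Y N₁)) (capK U κ (gL D A Y N₂)) A) :
    ∃ mU M s t u K, LayCap U
      (domT U Y (capK U κ (gR D A Y N₁)) (capK U κ (gL D A Y N₂)) A) (inn D A Y) A' A N₁ N₂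
      mU M s t u K (capK U κ (gR D A Y N₁)) (capK U κ (gL D A Y N₂)) := by
  refine (H.clo hY hA hC hN).layCap (H.hcomp hY) H.hnbr (capAt _) (capAt _) ?_ hUA hAT
  rcases capK_dis (U := U) (κ := κ) (gR D A Y N₁) (gL D A Y N₂) with h | h
  · exact Or.inl h
  · exact Or.inr h

end Mvd

/-- The instance: the component of the tip in the block, with the exit sides of helper56. -/
theorem mvd_of_arcs {W : Set (ℤ × ℤ)} {B : UE × Bool} (happ : App U P κ d) (hU : U.Finite)
    (cU : EConn U) (eU : Esc U) (cP : EConn P) (eP : Esc P) (hW : Esc W) (hA : BD P A)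
    (hAW : ahead A ∈ W) (h : ArcsE (domD P W A) A (IsEx P B) m p q) :
    Mvd U P (domD P W A) κ d A m p q := by
  have hA' : ahead A ∈ P ∩ W := ⟨hA.1, hAW⟩
  exact {
    app := happ
    finU := hU
    ecU := cU
    escU := eU
    ecP := cP
    DP := fun x hx => (domD_sub hA' hx).1
    escD := esc_domD (hU.subset happ.sub) eP hW hA'
    cyc := h.cyc
    pq := h.le
    qm := h.lt
    exit := fun i hi hiP => by
      constructor
      · by_contra hcon
        exact h.first i (by omega) (Or.inl hiP)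
      · by_contra hcon
        exact h.last i (by omega) hi (Or.inl hiP) }

end Pool.Agent.SixB.CloK
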