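import Pool.Agent.Lib.SixB.S8Mob

/-!
# Step 8, unit 8D: Moebius inversion, the form used by the kernel

`Mob S x p = ∑_{T ⊆ {q ∈ S : ¬ q ≤ p}} (-1)^|T| x (p ⊔ sup T)` for a numerical function `x` on the family
`S` (closed under `⊔`).

* `pr_inter_Mob`: `P(E, record = p) = Mob S (fun q => P(E, A q)) p`;
* `abs_Mob`: `|Mob S x p - Mob S y p| ≤ 2^|S| η` if `|x q - y q| ≤ η` on `S`; `Conv.Mob`;
* `RunRec 𝒦 av rn ω = (largest avoided set of the family, run number of the stop)`, the record of a move;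
* `pr_inter_runRec`, `abs_runRec`, `abs_runRec_cond`, `Conv.runRec`;
* `abs_runRec_diff`: the form for the kernel. If, given the past `E`, the event `avoid K, run r` has
  probability `y₂ K - y₁ K` up to `η`, then the law of the record is `Mob 𝒦 (y₂ - y₁) K` up to
  `2^|𝒦| η`.
-/

set_option autoImplicit false

namespace Pool.Agent.SixB

open Finset Filter Topology Pool.Agent.Perc

section Mob

variable {Λ : Type*} [SemilatticeSup Λ] [OrderBot Λ] {S : Finset Λ} {A : Λ → Set Cfg}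

open Classical in
/-- The Moebius sum of a numerical function `x`. -/
noncomputable def Mob (S : Finset Λ) (x : Λ → ℝ) (p : Λ) : ℝ :=
  ∑ T ∈ (S.filter fun q => ¬ q ≤ p).powerset, (-1 : ℝ) ^ T.card * x (p ⊔ T.sup id)

theorem Mob_congr (hS : ∀ p ∈ S, ∀ q ∈ S, p ⊔ q ∈ S) {x y : Λ → ℝ} (h : ∀ q ∈ S, x q = y q)
    {p : Λ} (hp : p ∈ S) : Mob S x p = Mob S y p := by
  classical
  unfold Mob
  refine Finset.sum_congr rfl fun T hT => ?_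
  rw [h _ (sup_mem_fam hS hp T ((mem_powerset.1 hT).trans (filter_subset _ _)))]

theorem Mob_const_mul (c : ℝ) (x : Λ → ℝ) (p : Λ) :
    Mob S (fun q => c * x q) p = c * Mob S x p := by
  classical
  unfold Mob
  rw [Finset.mul_sum]
  exact Finset.sum_congr rfl fun T _ => by ring

theorem Mob_sub (x y : Λ → ℝ) (p : Λ) :
    Mob S (fun q => x q - y q) p = Mob S x p - Mob S y p := by
  classical
  unfold Mob
  rw [← Finset.sum_sub_distrib]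
  exact Finset.sum_congr rfl fun T _ => by ring

/-- The Moebius sum changes by at most `2^|S| η`. -/
theorem abs_Mob (hS : ∀ p ∈ S, ∀ q ∈ S, p ⊔ q ∈ S) {x y : Λ → ℝ} {η : ℝ}
    (hη : ∀ q ∈ S, |x q - y q| ≤ η) {p : Λ} (hp : p ∈ S) :
    |Mob S x p - Mob S y p| ≤ 2 ^ S.card * η := by
  classical
  have hη0 : 0 ≤ η := (abs_nonneg _).trans (hη p hp)
  unfold Mob
  rw [← Finset.sum_sub_distrib]
  refine (Finset.abs_sum_le_sum_abs _ _).trans ?_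
  have h1 : ∀ T ∈ (S.filter fun q => ¬ q ≤ p).powerset,
      |(-1 : ℝ) ^ T.card * x (p ⊔ T.sup id) - (-1 : ℝ) ^ T.card * y (p ⊔ T.sup id)| ≤ η := by
    intro T hT
    rw [← mul_sub, abs_mul, abs_pow, abs_neg, abs_one, one_pow, one_mul]
    exact hη _ (sup_mem_fam hS hp T ((mem_powerset.1 hT).trans (filter_subset _ _)))
  refine (Finset.sum_le_sum h1).trans ?_
  rw [Finset.sum_const, Finset.card_powerset, nsmul_eq_mul]
  push_cast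
  refine mul_le_mul_of_nonneg_right ?_ hη0
  exact pow_le_pow_right₀ (by norm_num) (card_le_card (filter_subset _ _))

theorem Conv.Mob (hS : ∀ p ∈ S, ∀ q ∈ S, p ⊔ q ∈ S) {x : ℕ → Λ → ℝ}
    (hc : ∀ q ∈ S, Conv fun n => x n q) {p : Λ} (hp : p ∈ S) :
    Conv fun n => Mob S (x n) p := by
  classical
  unfold SixB.Mob
  refine Conv.sum _ fun T hT => Conv.const_mul _ (hc _ (sup_mem_fam hS hp T ?_))
  exact (mem_powerset.1 hT).trans (filter_subset _ _)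

/-- **Moebius inversion** on an event `E` of the past. -/
theorem pr_inter_Mob (W : Finset (ℤ × ℤ)) (E : Set Cfg) (hS : ∀ p ∈ S, ∀ q ∈ S, p ⊔ q ∈ S)
    (hA : ∀ p ∈ S, ∀ q ∈ S, A (p ⊔ q) = A p ∩ A q) {p : Λ} (hp : p ∈ S) :
    pr W (E ∩ {ω | ω ∈ A p ∧ ∀ q ∈ S, ω ∈ A q → q ≤ p}) =
      Mob S (fun q => pr W (E ∩ A q)) p := by
  classical
  have h := pr_moebius W (A := fun q => E ∩ A q) hS (fun p hp q hq => by
    simp only [hA p hp q hq]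
    ext ω
    simp only [Set.mem_inter_iff]
    tauto) hp
  unfold Mob
  rw [← h]
  congr 1
  ext ω
  simp only [Set.mem_inter_iff, Set.mem_ofPred_eq]
  constructor
  · rintro ⟨h1, h2, h3⟩
    exact ⟨⟨h1, h2⟩, fun q hq hq' => h3 q hq hq'.2⟩
  · rintro ⟨⟨h1, h2⟩, h3⟩
    exact ⟨h1, h2, fun q hq hq' => h3 q hq ⟨h1, hq'⟩⟩

theorem pr_Mob (W : Finset (ℤ × ℤ)) (hS : ∀ p ∈ S, ∀ q ∈ S, p ⊔ q ∈ S)
    (hA : ∀ p ∈ S, ∀ q ∈ S, A (p ⊔ q) = A p ∩ A q) {p : Λ} (hp : p ∈ S) :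
    pr W {ω | ω ∈ A p ∧ ∀ q ∈ S, ω ∈ A q → q ≤ p} = Mob S (fun q => pr W (A q)) p := by
  have h := pr_inter_Mob W Set.univ hS hA hp
  simpa only [Set.univ_inter] using h

end Mob

/-! ### The record of a move: avoided cells and run number -/

section Run

variable {ι ρ : Type*} [DecidableEq ι]

/-- All the cells of `K` are avoided. -/
def Avd (av : Cfg → ι → Prop) (K : Finset ι) : Set Cfg := {ω | ∀ i ∈ K, av ω i}

/-- All the cells of `K` are avoided and the stop belongs to the run `r`. -/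
def AvRun (av : Cfg → ι → Prop) (rn : Cfg → ρ) (r : ρ) (K : Finset ι) : Set Cfg :=
  {ω | (∀ i ∈ K, av ω i) ∧ rn ω = r}

variable {av : Cfg → ι → Prop} {rn : Cfg → ρ} {r : ρ}

theorem Avd_bot : Avd av ⊥ = Set.univ := by
  ext ω
  simp [Avd]

theorem Avd_sup (K K' : Finset ι) : Avd av (K ⊔ K') = Avd av K ∩ Avd av K' := by
  ext ω
  simp only [Avd, Set.mem_ofPred_eq, Set.mem_inter_iff, Finset.sup_eq_union, Finset.mem_union]
  exact ⟨fun h => ⟨fun i hi => h i (Or.inl hi), fun i hi => h i (Or.inr hi)⟩,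
    fun h i hi => hi.elim (h.1 i) (h.2 i)⟩

theorem AvRun_sup (K K' : Finset ι) :
    AvRun av rn r (K ⊔ K') = AvRun av rn r K ∩ AvRun av rn r K' := by
  ext ω
  simp only [AvRun, Set.mem_ofPred_eq, Set.mem_inter_iff, Finset.sup_eq_union, Finset.mem_union]
  constructor
  · rintro ⟨h, h'⟩
    exact ⟨⟨fun i hi => h i (Or.inl hi), h'⟩, ⟨fun i hi => h i (Or.inr hi), h'⟩⟩
  · rintro ⟨⟨h, h'⟩, ⟨h'', _⟩⟩
    exact ⟨fun i hi => hi.elim (h i) (h'' i), h'⟩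

/-- The record of a move: the largest avoided set of the family `𝒦` and the run of the stop. -/
noncomputable def RunRec (𝒦 : Finset (Finset ι)) (av : Cfg → ι → Prop) (rn : Cfg → ρ) (ω : Cfg) :
    Finset ι × ρ := (Top 𝒦 (Avd av) ω, rn ω)

variable {𝒦 : Finset (Finset ι)}

theorem runRec_fst_mem (hK : ∀ K ∈ 𝒦, ∀ K' ∈ 𝒦, K ∪ K' ∈ 𝒦) (h0 : ∅ ∈ 𝒦) (ω : Cfg) :
    (RunRec 𝒦 av rn ω).1 ∈ 𝒦 := top_mem hK h0 ω

theorem runRec_avd (hK : ∀ K ∈ 𝒦, ∀ K' ∈ 𝒦, K ∪ K' ∈ 𝒦) (h0 : ∅ ∈ 𝒦) (ω : Cfg) {i : ι}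
    (hi : i ∈ (RunRec 𝒦 av rn ω).1) : av ω i :=
  (mem_top hK (fun p _ q _ => Avd_sup p q) h0 (A := Avd av) (ω := ω)
    (by rw [Avd_bot]; trivial)) i hi

theorem subset_runRec {ω : Cfg} {K : Finset ι} (hK : K ∈ 𝒦) (h : ∀ i ∈ K, av ω i) :
    K ⊆ (RunRec 𝒦 av rn ω).1 := le_top' (A := Avd av) hK h

theorem runRec_eq_set (hK : ∀ K ∈ 𝒦, ∀ K' ∈ 𝒦, K ∪ K' ∈ 𝒦) (h0 : ∅ ∈ 𝒦) {K : Finset ι}
    (hKm : K ∈ 𝒦) :
    {ω | RunRec 𝒦 av rn ω = (K, r)} =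
      {ω | ω ∈ AvRun av rn r K ∧ ∀ q ∈ 𝒦, ω ∈ AvRun av rn r q → q ≤ K} := by
  ext ω
  have h := top_eq_iff (S := 𝒦) (A := Avd av) hK (fun p _ q _ => Avd_sup p q) h0 (ω := ω)
    (by rw [Avd_bot]; trivial) hKm
  simp only [Set.mem_ofPred_eq, RunRec, Prod.mk.injEq]
  rw [h]
  constructor
  · rintro ⟨⟨h1, h2⟩, h3⟩
    exact ⟨⟨h1, h3⟩, fun q hq hq' => h2 q hq hq'.1⟩
  · rintro ⟨⟨h1, h3⟩, h2⟩
    exact ⟨⟨h1, fun q hq hq' => h2 q hq ⟨hq', h3⟩⟩, h3⟩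

/-- The law of the record on an event of the past, as a finite signed sum. -/
theorem pr_inter_runRec (W : Finset (ℤ × ℤ)) (E : Set Cfg) (hK : ∀ K ∈ 𝒦, ∀ K' ∈ 𝒦, K ∪ K' ∈ 𝒦)
    (h0 : ∅ ∈ 𝒦) {K : Finset ι} (hKm : K ∈ 𝒦) :
    pr W (E ∩ {ω | RunRec 𝒦 av rn ω = (K, r)}) =
      Mob 𝒦 (fun q => pr W (E ∩ AvRun av rn r q)) K := by
  rw [runRec_eq_set hK h0 hKm]
  exact pr_inter_Mob W E hK (fun p _ q _ => AvRun_sup p q) hKm

theorem pr_runRec (W : Finset (ℤ × ℤ)) (hK : ∀ K ∈ 𝒦, ∀ K' ∈ 𝒦, K ∪ K' ∈ 𝒦)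
    (h0 : ∅ ∈ 𝒦) {K : Finset ι} (hKm : K ∈ 𝒦) :
    pr W {ω | RunRec 𝒦 av rn ω = (K, r)} = Mob 𝒦 (fun q => pr W (AvRun av rn r q)) K := by
  rw [runRec_eq_set hK h0 hKm]
  exact pr_Mob W hK (fun p _ q _ => AvRun_sup p q) hKm

/-- Convergence of the law of the record. -/
theorem Conv.runRec {W : ℕ → Finset (ℤ × ℤ)} {av : ℕ → Cfg → ι → Prop} {rn : ℕ → Cfg → ρ}
    (hK : ∀ K ∈ 𝒦, ∀ K' ∈ 𝒦, K ∪ K' ∈ 𝒦) (h0 : ∅ ∈ 𝒦)
    (hc : ∀ q ∈ 𝒦, Conv fun n => pr (W n) (AvRun (av n) (rn n) r q))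
    {K : Finset ι} (hKm : K ∈ 𝒦) :
    Conv fun n => pr (W n) {ω | RunRec 𝒦 (av n) (rn n) ω = (K, r)} := by
  simp_rw [pr_runRec _ hK h0 hKm]
  exact Conv.Mob hK hc hKm

/-- Comparison of the laws of the records of two moves with the same family of cells. -/
theorem abs_runRec {W W' : Finset (ℤ × ℤ)} {av' : Cfg → ι → Prop} {rn' : Cfg → ρ}
    (hK : ∀ K ∈ 𝒦, ∀ K' ∈ 𝒦, K ∪ K' ∈ 𝒦) (h0 : ∅ ∈ 𝒦) {η : ℝ}
    (hη : ∀ q ∈ 𝒦, |pr W (AvRun av rn r q) - pr W' (AvRun av' rn' r q)| ≤ η)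
    {K : Finset ι} (hKm : K ∈ 𝒦) :
    |pr W {ω | RunRec 𝒦 av rn ω = (K, r)} - pr W' {ω | RunRec 𝒦 av' rn' ω = (K, r)}| ≤
      2 ^ 𝒦.card * η := by
  rw [pr_runRec W hK h0 hKm, pr_runRec W' hK h0 hKm]
  exact abs_Mob hK hη hKm

/-- The law of the record given the past `E` against numbers `x`. -/
theorem abs_runRec_cond {W : Finset (ℤ × ℤ)} {E : Set Cfg} {x : Finset ι → ℝ}
    (hK : ∀ K ∈ 𝒦, ∀ K' ∈ 𝒦, K ∪ K' ∈ 𝒦) (h0 : ∅ ∈ 𝒦) {η : ℝ}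
    (hη : ∀ q ∈ 𝒦, |pr W (E ∩ AvRun av rn r q) - pr W E * x q| ≤ pr W E * η)
    {K : Finset ι} (hKm : K ∈ 𝒦) :
    |pr W (E ∩ {ω | RunRec 𝒦 av rn ω = (K, r)}) - pr W E * Mob 𝒦 x K| ≤
      pr W E * (2 ^ 𝒦.card * η) := by
  rw [pr_inter_runRec W E hK h0 hKm, ← Mob_const_mul]
  refine (abs_Mob hK hη hKm).trans (le_of_eq ?_)
  ring

/-- **The form for the kernel.** Given the past `E`, the stop belongs to the run `r` and `q` is avoided: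
an event of probability `y₂ q - y₁ q` up to `η₀`, where `y₁`, `y₂` are the probabilities in the true
domain (conditional, given `E`), and `x₁`, `x₂` are those in the coarse domain. -/
theorem abs_runRec_diff {W : Finset (ℤ × ℤ)} {E : Set Cfg} {x₁ x₂ y₁ y₂ : Finset ι → ℝ}
    (hK : ∀ K ∈ 𝒦, ∀ K' ∈ 𝒦, K ∪ K' ∈ 𝒦) (h0 : ∅ ∈ 𝒦) {η₀ η : ℝ}
    (hη₀ : ∀ q ∈ 𝒦, |pr W (E ∩ AvRun av rn r q) - pr W E * (y₂ q - y₁ q)| ≤ pr W E * η₀)
    (h1 : ∀ q ∈ 𝒦, |y₁ q - x₁ q| ≤ η) (h2 : ∀ q ∈ 𝒦, |y₂ q - x₂ q| ≤ η)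
    {K : Finset ι} (hKm : K ∈ 𝒦) :
    |pr W (E ∩ {ω | RunRec 𝒦 av rn ω = (K, r)}) - pr W E * Mob 𝒦 (fun q => x₂ q - x₁ q) K| ≤
      pr W E * (2 ^ 𝒦.card * (η₀ + 2 * η)) := by
  have hE : 0 ≤ pr W E := by unfold pr; positivity
  refine abs_runRec_cond hK h0 (fun q hq => ?_) hKm
  have h3 := hη₀ q hq
  have h4 : |(y₂ q - y₁ q) - (x₂ q - x₁ q)| ≤ 2 * η := by
    have := abs_sub (y₂ q - x₂ q) (y₁ q - x₁ q)
    calc |(y₂ q - y₁ q) - (x₂ q - x₁ q)| = |(y₂ q - x₂ q) - (y₁ q - x₁ q)| := by ring_nf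
      _ ≤ |y₂ q - x₂ q| + |y₁ q - x₁ q| := this
      _ ≤ 2 * η := by linarith [h1 q hq, h2 q hq]
  calc |pr W (E ∩ AvRun av rn r q) - pr W E * (x₂ q - x₁ q)|
      = |(pr W (E ∩ AvRun av rn r q) - pr W E * (y₂ q - y₁ q)) +
          pr W E * ((y₂ q - y₁ q) - (x₂ q - x₁ q))| := by ring_nf
    _ ≤ |pr W (E ∩ AvRun av rn r q) - pr W E * (y₂ q - y₁ q)| +
          |pr W E * ((y₂ q - y₁ q) - (x₂ q - x₁ q))| := abs_add_le _ _
    _ ≤ pr W E * η₀ + pr W E * (2 * η) := by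
        refine add_le_add h3 ?_
        rw [abs_mul, abs_of_nonneg hE]
        exact mul_le_mul_of_nonneg_left h4 hE
    _ = pr W E * (η₀ + 2 * η) := by ring

end Run

end Pool.Agent.SixB
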