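import Pool.Agent.Lib.SixB.S8KerPr
import Pool.Agent.Lib.SixB.S8MobR

/-!
# Step 8: the kernel of one move

* `transfer_XA`: the transfer theorem with coarse labels given by marks on the contour of `P`;
* `MvDom`: the data of a move for one set of removed cells: the true domain `T` (`CapDom`), the coarse
  domain `P`, the links between the two contours, distances, no gates;
* `one_move`: `|P(event | past) - (X y₁ - X y₂)| ≤ C (E / ρ) ^ α`, where `X y` is the crossing probability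
  of the coarse domain;
* `kernel`: the law of the record `RunRec` against the Moebius sum of the crossing probabilities of the
  coarse domains.
-/

set_option autoImplicit false

namespace Pool.Agent.SixB

open Finset Pool.Agent.Perc Pool.Agent.Perc6 Pool.Agent.PercT

/-- **TRANSFER with marks.** -/
theorem transfer_XA : ∃ C α : ℝ, 0 < C ∧ 0 < α ∧ ∀ {ι : Type} (T P : Finset (ℤ × ℤ))
    (κ : ℤ × ℤ → ι) (d : ℤ) (m : ℕ) (w : ℕ → ℤ × ℤ) (k : ℕ → ℕ) (m' : ℕ) (w' : ℕ → ℤ × ℤ)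
    (l : ℕ → ℕ),
    Ctr (T : Set (ℤ × ℤ)) m w → Ctr (P : Set (ℤ × ℤ)) m' w' → P ⊆ T →
    (∀ f ∈ P, ∀ g ∈ P, Chn (P : Set (ℤ × ℤ)) f g) →
    (∀ x y, κ x = κ y → x ∈ P → y ∈ P) → (∀ x y, κ x = κ y → Chn {z | κ z = κ x} x y) →
    (∀ x y, κ x = κ y → |x.1 - y.1| < d ∧ |x.2 - y.2| < d) →
    (∀ f ∈ P, ∀ g, Adj f g → g ∉ P → ∃ x, κ x = κ g ∧ x ∉ T) →
    k 0 = 0 → k 4 = m → Monotone k → l 0 = 0 → l 4 = m' → Monotone l →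
    ∀ (a : ℤ × ℤ) (s ρ₀ ρ : ℤ) (c : ℤ), (c = 0 ∨ c = 1) → 0 ≤ s → 0 < ρ₀ →
    s + d + 2 < ρ →
    (∀ (e e' : UE) (i i' j : ℕ), LC.LinkC T P κ e e' → i < m' → Joins e (w' i) (w' (i + 1)) →
      Joins e' (w i') (w (i' + 1)) → k j ≤ i' → i' < k (j + 1) → j < 4 → ¬ LC.InB a s (ua e) →
      l j ≤ i ∧ i < l (j + 1)) →
    (∀ j < 4, ∃ i, l j ≤ i ∧ i < l (j + 1) ∧ ∀ e, Joins e (w' i) (w' (i + 1)) →
      ¬ LC.InB a s (ua e)) →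
    (∀ i, k 2 ≤ i → i ≤ k 3 → ¬ LC.InB a (ρ + d + 2) (w i)) →
    (∀ i, l 2 ≤ i → i < l 3 → ∀ e, Joins e (w' i) (w' (i + 1)) → ¬ LC.InB a (ρ + 1) (ua e)) →
    (LC.HD c T w 0 (k 1) (k 2) (k 3) ρ₀ ∨ LC.HD (1 - c) T w (k 1) (k 2) (k 3) m ρ₀) →
    |pr P (LC.XA c P w' 0 (l 1) (l 2) (l 3)) - pr T (LC.XA c T w 0 (k 1) (k 2) (k 3))| ≤
      C * ((d + 1 : ℝ) / ρ₀) ^ α + C * ((s + 1 : ℝ) / ρ) ^ α := by
  obtain ⟨C, α, hC, hα, h⟩ := LC.transfer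
  refine ⟨C, α, hC, hα, ?_⟩
  intro ι T P κ d m w k m' w' l hT hP hPT hcon hsat hcell hdiam hnot k0 k4 hk l0 l4 hl a s ρ₀ ρ c hc
    hs hρ₀ hsρ hlab hne hfar hfar' hHD
  have lle : ∀ j ≤ 4, l j ≤ m' := fun j hj => by rw [← l4]; exact hl hj
  set E : ℕ → Set UE := fun j => {e | ∃ i, l j ≤ i ∧ i < l (j + 1) ∧
    Joins e (w' i) (w' (i + 1))} with hE
  have hlt : ∀ j < 4, l j < l (j + 1) := by
    intro j hj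
    obtain ⟨i, h1, h2, -⟩ := hne j hj
    omega
  have hx : LC.XA c P w' 0 (l 1) (l 2) (l 3) =
      LC.XS c P (LC.eV P (E 0)) (LC.eV P (E 2)) := by
    rw [LC.XA_eq_XS]
    have h0 : LC.av w' 0 (l 1) = LC.eV P (E 0) := by
      have := hlt 0 (by omega)
      rw [l0] at this
      rw [LC.av_eq_eV hP this (lle 1 (by omega)), hE]
      simp only [l0]
    have h2 : LC.av w' (l 2) (l 3) = LC.eV P (E 2) :=
      LC.av_eq_eV hP (hlt 2 (by omega)) (lle 3 (by omega))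
    rw [h0, h2]
  rw [hx]
  refine h T P κ d m w k m' w' hT hP hPT hcon hsat hcell hdiam hnot k0 k4 hk E a s ρ₀ ρ c hc hs
    hρ₀ hsρ ?_ ?_ hfar ?_ hHD
  · intro e e' i' j he hlink hj' h1 h2 hj4 hna
    obtain ⟨i, hi, hji⟩ := hP.all e he
    obtain ⟨g1, g2⟩ := hlab e e' i i' j hlink hi hji hj' h1 h2 hj4 hna
    refine ⟨⟨i, g1, g2, hji⟩, ?_⟩
    rintro j' hj'4 hne' ⟨i₂, g3, g4, g5⟩
    have hi₂ : i₂ < m' := lt_of_lt_of_le g4 (lle (j' + 1) (by omega))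
    have := hP.inj i₂ hi₂ i hi e g5 hji
    subst this
    rcases Nat.lt_or_ge j' j with h3 | h3
    · have := hl (show j' + 1 ≤ j by omega)
      omega
    · have := hl (show j + 1 ≤ j' by omega)
      omega
  · intro j hj
    obtain ⟨i, h1, h2, h3⟩ := hne j hj
    have hi : i < m' := lt_of_lt_of_le h2 (lle (j + 1) (by omega))
    obtain ⟨e, he, hji⟩ := hP.step i hi
    exact ⟨e, ⟨i, h1, h2, hji⟩, he, h3 e hji⟩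
  · rintro e ⟨i, h1, h2, h3⟩ -
    exact hfar' i h1 h2 e h3

/-! ### The data of a move for one set of removed cells -/

/-- The true domain `T` and the coarse domain `P` of a move for one set of removed cells. -/
structure MvDom (ι : Type) (Ξ : Cfg → Cfg) (c : ℤ) (R U : Set (ℤ × ℤ)) (a : UE)
    (T : Finset (ℤ × ℤ)) (m : ℕ) (w : ℕ → ℤ × ℤ) (k₁ r₁ r₃ k₃ : ℕ) (P : Finset (ℤ × ℤ)) (m' : ℕ)
    (w' : ℕ → ℤ × ℤ) (l₁ l₃ : ℕ) (κ : ℤ × ℤ → ι) (v : ℤ × ℤ) (E ρ : ℤ) : Prop where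
  cap : ∀ ξ, CapDom (Ξ ξ) c R U T m w k₁ r₁ r₃ k₃ a
  agr : ∀ ξ, ∀ f ∈ T, Ξ ξ f = ξ f
  ctrP : Ctr (P : Set (ℤ × ℤ)) m' w'
  PT : P ⊆ T
  conP : ∀ f ∈ P, ∀ g ∈ P, Chn (P : Set (ℤ × ℤ)) f g
  sat : ∀ x y, κ x = κ y → x ∈ P → y ∈ P
  cell : ∀ x y, κ x = κ y → Chn {z | κ z = κ x} x y
  diam : ∀ x y, κ x = κ y → |x.1 - y.1| < E ∧ |x.2 - y.2| < E
  hnot : ∀ f ∈ P, ∀ g, Adj f g → g ∉ P → ∃ x, κ x = κ g ∧ x ∉ T
  hE : 0 < E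
  Eρ : E ≤ ρ
  l1 : 0 < l₁
  l13 : l₁ < l₃
  l3 : l₃ < m'
  len : r₃ = r₁ + (l₃ - l₁)
  /-- linked walls have the same label -/
  labb : ∀ (e e' : UE) (i i' : ℕ), LC.LinkC T P κ e e' → i < m' → Joins e (w' i) (w' (i + 1)) →
    i' < m → Joins e' (w i') (w (i' + 1)) → ¬ LC.InB v E (ua e) → i' < r₁ → i < l₁
  labo : ∀ (e e' : UE) (i i' : ℕ), LC.LinkC T P κ e e' → i < m' → Joins e (w' i) (w' (i + 1)) →
    i' < m → Joins e' (w i') (w (i' + 1)) → ¬ LC.InB v E (ua e) → r₃ ≤ i' → l₃ ≤ i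
  labc : ∀ (e e' : UE) (i i' : ℕ), LC.LinkC T P κ e e' → i < m' → Joins e (w' i) (w' (i + 1)) →
    Joins e' (w i') (w (i' + 1)) → r₁ ≤ i' → i' < r₃ → i = l₁ + (i' - r₁)
  ne0 : ∃ i < l₁, ∀ e, Joins e (w' i) (w' (i + 1)) → ¬ LC.InB v E (ua e)
  ne3 : ∃ i, l₃ ≤ i ∧ i < m' ∧ ∀ e, Joins e (w' i) (w' (i + 1)) → ¬ LC.InB v E (ua e)
  /-- the outer arc is far from the tip -/
  far : ∀ i, r₁ ≤ i → i ≤ r₃ → ¬ LC.InB v (5 * ρ + 10 * E + 10) (w i)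
  far' : ∀ i, l₁ ≤ i → i < l₃ → ∀ e, Joins e (w' i) (w' (i + 1)) →
    ¬ LC.InB v (5 * ρ + 10 * E + 10) (ua e)
  /-- no gate between the walls at the outer arc -/
  gate : ∀ i, r₁ ≤ i → i ≤ r₃ →
    ¬ LC.Gate (T : Set (ℤ × ℤ)) (LC.av w 0 r₁) (LC.av w r₃ m) (w i) (6 * ρ)
  capR : ∀ y, k₁ ≤ y → y ≤ r₁ → LC.InB (w r₁) E (w y)
  capL : ∀ y, r₃ ≤ y → y ≤ k₃ → LC.InB (w r₃) E (w y)

/-- The crossing probability of the coarse domain with the mark `y`; `1` and `0` at the ends of the outer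
arc. -/
noncomputable def Xmk (c : ℤ) (P : Finset (ℤ × ℤ)) (w' : ℕ → ℤ × ℤ) (l₁ l₃ y : ℕ) : ℝ :=
  if y = l₁ then 1 else if y = l₃ then 0 else pr P (LC.XA c P w' 0 l₁ y l₃)

section Dom

variable {ι : Type} {Ξ : Cfg → Cfg} {c : ℤ} {R U : Set (ℤ × ℤ)} {a : UE}
  {T : Finset (ℤ × ℤ)} {m : ℕ} {w : ℕ → ℤ × ℤ} {k₁ r₁ r₃ k₃ : ℕ} {P : Finset (ℤ × ℤ)} {m' : ℕ}
  {w' : ℕ → ℤ × ℤ} {l₁ l₃ : ℕ} {κ : ℤ × ℤ → ι} {v : ℤ × ℤ} {E ρ : ℤ}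

theorem gate_symm {F A B : Set (ℤ × ℤ)} {z : ℤ × ℤ} {r : ℤ} (h : LC.Gate F A B z r) :
    LC.Gate F B A z r := by
  obtain ⟨ω, ω', f, u, v, h1, h2, h3, h4, h5⟩ := h
  exact ⟨ω', ω, f, v, u, h1, h3, h2, h5, h4⟩

/-- A gate near `v` is a gate at `v`. -/
theorem gate_shift {F A B : Set (ℤ × ℤ)} {z v : ℤ × ℤ} {r : ℤ} (hv : LC.InB z (3 * r) v)
    (h : LC.Gate F A B z (3 * r)) : LC.Gate F A B v (6 * r) := by
  obtain ⟨ω, ω', f, x, y, h1, h2, h3, ⟨a, ha, h4⟩, b, hb, h5⟩ := h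
  have hv' : LC.InB v (3 * r) z := by
    unfold LC.InB at hv ⊢
    omega
  have hs : F ∩ (RFb z (3 * r) : Set (ℤ × ℤ)) ⊆ F ∩ (RFb v (6 * r) : Set (ℤ × ℤ)) := fun g hg =>
    ⟨hg.1, by
      have := LC.RFb_shift hv' (mem_coe.1 hg.2)
      rw [show 3 * r + 3 * r = 6 * r by ring] at this
      exact mem_coe.2 this⟩
  exact ⟨ω, ω', f, x, y, hs h1, h2, h3, ⟨a, ha, conn_mono hs h4⟩, b, hb, conn_mono hs h5⟩

theorem MvDom.hm (h : MvDom ι Ξ c R U a T m w k₁ r₁ r₃ k₃ P m' w' l₁ l₃ κ v E ρ) :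
    r₁ ≤ r₃ ∧ r₃ ≤ m ∧ k₁ ≤ r₁ ∧ r₃ ≤ k₃ ∧ k₃ ≤ m ∧ 0 < m := by
  have h1 := h.cap fun _ => false
  have h2 := h1.hr1
  have h3 := h1.hr3
  have h4 := h1.h3
  have h5 := h1.h1
  have h6 := h.len
  have h7 := h.l13
  omega

/-- The bad event of the caps is rare. -/
theorem mvDom_bad : ∃ C α : ℝ, 0 < C ∧ 0 < α ∧ ∀ {ι : Type} {Ξ : Cfg → Cfg} {c : ℤ}
    {R U : Set (ℤ × ℤ)} {a : UE} {T : Finset (ℤ × ℤ)} {m : ℕ} {w : ℕ → ℤ × ℤ} {k₁ r₁ r₃ k₃ : ℕ}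
    {P : Finset (ℤ × ℤ)} {m' : ℕ} {w' : ℕ → ℤ × ℤ} {l₁ l₃ : ℕ} {κ : ℤ × ℤ → ι} {v : ℤ × ℤ}
    {E ρ : ℤ}, MvDom ι Ξ c R U a T m w k₁ r₁ r₃ k₃ P m' w' l₁ l₃ κ v E ρ →
    ∀ W : Finset (ℤ × ℤ), T ⊆ W → pr W (CapBad c T m w k₁ r₁ r₃ k₃) ≤ C * ((E : ℝ) / ρ) ^ α := by
  obtain ⟨C, α, hC, hα, hbad⟩ := capBad_le
  refine ⟨C, α, hC, hα, ?_⟩
  intro ι Ξ c R U a T m w k₁ r₁ r₃ k₃ P m' w' l₁ l₃ κ v E ρ h W hTW
  obtain ⟨hr13, hr3, hk1, hk3, hk3m, hm⟩ := h.hm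
  have hEρ := h.Eρ
  have hE0 := h.hE
  have hctr := (h.cap fun _ => false).ctr
  have g1 : ¬ LC.Gate (T : Set (ℤ × ℤ)) (LC.av w 0 k₁) (LC.av w r₃ k₃) (w r₃) (3 * ρ) := by
    intro hg
    have h1 : LC.av w 0 k₁ ⊆ LC.av w 0 r₁ := by
      rintro x ⟨i, h1, h2, rfl⟩
      exact ⟨i, h1, h2.trans hk1, rfl⟩
    have h2 : LC.av w r₃ k₃ ⊆ LC.av w r₃ m := by
      rintro x ⟨i, h1, h2, rfl⟩
      exact ⟨i, h1, h2.trans hk3m, rfl⟩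
    exact h.gate r₃ hr13 le_rfl (hg.mono subset_rfl h1 h2 (by omega))
  have g2 : ¬ LC.Gate (T : Set (ℤ × ℤ)) (LC.av w k₃ m) (LC.av w k₁ r₁) (w r₁) (3 * ρ) := by
    intro hg
    have h1 : LC.av w k₁ r₁ ⊆ LC.av w 0 r₁ := by
      rintro x ⟨i, h1, h2, rfl⟩
      exact ⟨i, Nat.zero_le _, h2, rfl⟩
    have h2 : LC.av w k₃ m ⊆ LC.av w r₃ m := by
      rintro x ⟨i, h1, h2, rfl⟩
      exact ⟨i, by omega, h2, rfl⟩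
    exact h.gate r₁ le_rfl hr13 ((gate_symm hg).mono subset_rfl h1 h2 (by omega))
  have h1 := hbad W T c m w k₁ r₁ r₃ k₃ (w r₃) (w r₁) E (3 * ρ) hTW hctr hm (by omega) hk3m hE0
    (by omega) h.capL h.capR g1 g2
  refine h1.trans (mul_le_mul_of_nonneg_left ?_ hC.le)
  have hρ0 : (0 : ℝ) < ρ := by exact_mod_cast (lt_of_lt_of_le hE0 hEρ)
  have hE0' : (0 : ℝ) < E := by exact_mod_cast hE0
  refine Real.rpow_le_rpow (by push_cast; positivity) ?_ hα.le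
  push_cast
  exact div_le_div_of_nonneg_left hE0'.le hρ0 (by linarith)

/-- The marks `0, x₁, x₂, x₃, x₄`. -/
def mks (x₁ x₂ x₃ x₄ j : ℕ) : ℕ :=
  if j = 0 then 0 else if j = 1 then x₁ else if j = 2 then x₂ else if j = 3 then x₃ else x₄

theorem mks_mono {x₁ x₂ x₃ x₄ : ℕ} (h1 : x₁ ≤ x₂) (h2 : x₂ ≤ x₃) (h3 : x₃ ≤ x₄) :
    Monotone (mks x₁ x₂ x₃ x₄) := by
  refine monotone_nat_of_le_succ fun j => ?_
  unfold mks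
  rcases j with _ | _ | _ | _ | j
  · simp
  · simpa using h1
  · simpa using h2
  · simpa using h3
  · simp

/-- The inner marks: true domain against coarse domain. -/
theorem mvDom_mark : ∃ C α : ℝ, 0 < C ∧ 0 < α ∧ ∀ {ι : Type} {Ξ : Cfg → Cfg} {c : ℤ}
    {R U : Set (ℤ × ℤ)} {a : UE} {T : Finset (ℤ × ℤ)} {m : ℕ} {w : ℕ → ℤ × ℤ} {k₁ r₁ r₃ k₃ : ℕ}
    {P : Finset (ℤ × ℤ)} {m' : ℕ} {w' : ℕ → ℤ × ℤ} {l₁ l₃ : ℕ} {κ : ℤ × ℤ → ι} {v : ℤ × ℤ}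
    {E ρ : ℤ}, MvDom ι Ξ c R U a T m w k₁ r₁ r₃ k₃ P m' w' l₁ l₃ κ v E ρ →
    ∀ y, l₁ < y → y < l₃ →
    |pr P (LC.XA c P w' 0 l₁ y l₃) - pr T (LC.XA c T w 0 r₁ (r₁ + (y - l₁)) r₃)| ≤
      C * ((E : ℝ) / ρ) ^ α := by
  obtain ⟨C, α, hC, hα, htr⟩ := transfer_XA
  refine ⟨2 * C * 2 ^ α, α, by positivity, hα, ?_⟩
  intro ι Ξ c R U a T m w k₁ r₁ r₃ k₃ P m' w' l₁ l₃ κ v E ρ h y hy1 hy3
  obtain ⟨hr13, hr3, hk1, hk3, hk3m, hm⟩ := h.hm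
  have hEρ := h.Eρ
  have hE0 := h.hE
  have hlen := h.len
  have hl13 := h.l13
  have hl1 := h.l1
  have hl3 := h.l3
  have hcap := h.cap fun _ => false
  have hctr := hcap.ctr
  have hc := hcap.hc
  set x := r₁ + (y - l₁) with hx
  have hfar2 : ∀ i, x ≤ i → i ≤ r₃ → ¬ LC.InB v (ρ + 2 * E + 3 + E + 2) (w i) := by
    intro i h1 h2 hin
    apply h.far i (by omega) h2
    unfold LC.InB at hin ⊢
    omega
  have hHD : LC.HD c T w 0 r₁ x r₃ ρ ∨ LC.HD (1 - c) T w r₁ x r₃ m ρ := by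
    by_contra hno
    rw [not_or] at hno
    obtain ⟨z, hz, ⟨i, h1, h2, h3⟩, -⟩ := LC.link_meet hctr hno.1 hno.2
    exact h.gate i h1 (by omega) (gate_shift h3 hz)
  have key := htr T P κ E m w (mks r₁ x r₃ m) m' w' (mks l₁ y l₃ m') hctr h.ctrP h.PT h.conP h.sat
    h.cell h.diam h.hnot (by simp [mks]) (by simp [mks])
    (mks_mono (by omega) (by omega) (by omega)) (by simp [mks]) (by simp [mks])
    (mks_mono (by omega) (by omega) (by omega)) v E ρ (ρ + 2 * E + 3) c hc hE0.le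
    (by omega) (by omega) ?_ ?_ ?_ ?_ ?_
  · have e1 : mks l₁ y l₃ m' 1 = l₁ := by simp [mks]
    have e2 : mks l₁ y l₃ m' 2 = y := by simp [mks]
    have e3 : mks l₁ y l₃ m' 3 = l₃ := by simp [mks]
    have f1 : mks r₁ x r₃ m 1 = r₁ := by simp [mks]
    have f2 : mks r₁ x r₃ m 2 = x := by simp [mks]
    have f3 : mks r₁ x r₃ m 3 = r₃ := by simp [mks]
    rw [e1, e2, e3, f1, f2, f3] at key
    refine key.trans ?_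
    have hρ0 : (0 : ℝ) < ρ := by exact_mod_cast (lt_of_lt_of_le hE0 hEρ)
    have hE1 : (1 : ℝ) ≤ E := by exact_mod_cast hE0
    have a1 : ((E : ℝ) + 1) / ρ ≤ 2 * (E / ρ) := by
      rw [mul_div_assoc', div_le_div_iff_of_pos_right hρ0]
      linarith
    have a2 : ((E : ℝ) + 1) / ((ρ + 2 * E + 3 : ℤ) : ℝ) ≤ 2 * (E / ρ) := by
      refine le_trans ?_ a1
      push_cast
      exact div_le_div_of_nonneg_left (by linarith) hρ0 (by linarith)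
    have b1 : (((E : ℝ) + 1) / ρ) ^ α ≤ 2 ^ α * (E / ρ) ^ α := by
      rw [← Real.mul_rpow (by norm_num) (by positivity)]
      exact Real.rpow_le_rpow (by positivity) a1 hα.le
    have b2 : (((E : ℝ) + 1) / ((ρ + 2 * E + 3 : ℤ) : ℝ)) ^ α ≤ 2 ^ α * (E / ρ) ^ α := by
      rw [← Real.mul_rpow (by norm_num) (by positivity)]
      refine Real.rpow_le_rpow ?_ a2 hα.le
      push_cast
      positivity
    calc C * (((E : ℝ) + 1) / ρ) ^ α + C * (((E : ℝ) + 1) / ((ρ + 2 * E + 3 : ℤ) : ℝ)) ^ α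
        ≤ C * (2 ^ α * (E / ρ) ^ α) + C * (2 ^ α * (E / ρ) ^ α) :=
          add_le_add (mul_le_mul_of_nonneg_left b1 hC.le) (mul_le_mul_of_nonneg_left b2 hC.le)
      _ = 2 * C * 2 ^ α * (E / ρ) ^ α := by ring
  · intro e e' i i' j hlink hi hj hj' h1 h2 hj4 hna
    rcases (by omega : j = 0 ∨ j = 1 ∨ j = 2 ∨ j = 3) with rfl | rfl | rfl | rfl
    · simp only [mks] at h1 h2 ⊢
      simp only [zero_add, if_true, one_ne_zero, if_false] at h1 h2 ⊢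
      exact ⟨Nat.zero_le _, h.labb e e' i i' hlink hi hj (by omega) hj' hna h2⟩
    · simp only [mks] at h1 h2 ⊢
      norm_num at h1 h2 ⊢
      have := h.labc e e' i i' hlink hi hj hj' h1 (by omega)
      omega
    · simp only [mks] at h1 h2 ⊢
      norm_num at h1 h2 ⊢
      have := h.labc e e' i i' hlink hi hj hj' (by omega) h2
      omega
    · simp only [mks] at h1 h2 ⊢
      norm_num at h1 h2 ⊢
      exact ⟨h.labo e e' i i' hlink hi hj h2 hj' hna h1, hi⟩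
  · intro j hj
    have hfarE : ∀ i, l₁ ≤ i → i < l₃ → ∀ e, Joins e (w' i) (w' (i + 1)) →
        ¬ LC.InB v E (ua e) := by
      intro i h1 h2 e he hin
      apply h.far' i h1 h2 e he
      unfold LC.InB at hin ⊢
      omega
    rcases (by omega : j = 0 ∨ j = 1 ∨ j = 2 ∨ j = 3) with rfl | rfl | rfl | rfl
    · obtain ⟨i, h1, h2⟩ := h.ne0
      refine ⟨i, by simp [mks], by simpa [mks] using h1, h2⟩
    · exact ⟨l₁, by simp [mks], by simpa [mks] using hy1, hfarE l₁ le_rfl hl13⟩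
    · exact ⟨y, by simp [mks], by simpa [mks] using hy3, hfarE y hy1.le hy3⟩
    · obtain ⟨i, h1, h2, h3⟩ := h.ne3
      exact ⟨i, by simpa [mks] using h1, by simpa [mks] using h2, h3⟩
  · intro i h1 h2
    have h1' : x ≤ i := by simpa [mks] using h1
    have h2' : i ≤ r₃ := by simpa [mks] using h2
    exact hfar2 i h1' h2'
  · intro i h1 h2 e he hin
    have h1' : y ≤ i := by simpa [mks] using h1
    have h2' : i < l₃ := by simpa [mks] using h2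
    apply h.far' i (by omega) h2' e he
    unfold LC.InB at hin ⊢
    omega
  · have f1 : mks r₁ x r₃ m 1 = r₁ := by simp [mks]
    have f2 : mks r₁ x r₃ m 2 = x := by simp [mks]
    have f3 : mks r₁ x r₃ m 3 = r₃ := by simp [mks]
    rw [f1, f2, f3]
    exact hHD

end Dom

/-! ### One move -/

/-- The walls of the coarse contour and of the true contour give the sides of the run: `x = r₁ + (y - l₁)`.
The deterministic data of one event of the move: `Z`, `Zp`, the removed cells `A`, the stop sides `Gd`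
between the marks `y₁ ≤ y₂` of the coarse contour. -/
structure MvEvt (U : Set (ℤ × ℤ)) (T₀ : Finset (ℤ × ℤ)) (w₀ : ℕ → ℤ × ℤ) (q₁ q₃ : ℕ)
    (T : Finset (ℤ × ℤ)) (w : ℕ → ℤ × ℤ) (r₁ r₃ l₁ l₃ : ℕ) (Z Zp A : Set (ℤ × ℤ)) (Gd : Set UE)
    (y₁ y₂ : ℕ) : Prop where
  Z₀ : ∀ x, q₁ ≤ x → x < q₃ → ∀ s g, Joins s (w₀ x) (w₀ (x + 1)) → IsSide g s → g ∉ T₀ → g ∈ Z
  ZA : ∀ x, r₁ ≤ x → x < r₃ → ∀ s g, Joins s (w x) (w (x + 1)) → IsSide g s → g ∉ T →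
    g ∈ Z ∨ g ∈ A
  ZZp : Z ⊆ Zp
  ZpU : Zp ⊆ U
  Zp₀ : ∀ g ∈ Zp, g ∉ T₀
  ZT : ∀ g ∈ Z, g ∉ T
  AU : A ⊆ U
  AT : ∀ g ∈ A, g ∉ T
  AZ : ∀ g ∈ A, g ∉ Z
  ly1 : l₁ ≤ y₁
  y12 : y₁ ≤ y₂
  y2l : y₂ ≤ l₃
  gd : ∀ x, r₁ ≤ x → x < r₃ → ∀ s g, Joins s (w x) (w (x + 1)) → IsSide g s → g ∉ T →
    ((s ∈ Gd ∧ g ∈ Z) ↔ r₁ + (y₁ - l₁) ≤ x ∧ x < r₁ + (y₂ - l₁))

/-- **One move.** The conditional probability of the event of a move against the crossing probabilities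
of the coarse domain. -/
theorem one_move : ∃ C α : ℝ, 0 < C ∧ 0 < α ∧ ∀ {ι₀ ι : Type} {Ξ : Cfg → Cfg} {c : ℤ}
    {R U : Set (ℤ × ℤ)} {a : UE}
    {T₀ : Finset (ℤ × ℤ)} {m₀ : ℕ} {w₀ : ℕ → ℤ × ℤ} {p₁ q₁ q₃ p₃ : ℕ}
    {P₀ : Finset (ℤ × ℤ)} {m₀' : ℕ} {w₀' : ℕ → ℤ × ℤ} {j₁ j₃ : ℕ} {κ₀ : ℤ × ℤ → ι₀}
    {T : Finset (ℤ × ℤ)} {m : ℕ} {w : ℕ → ℤ × ℤ} {k₁ r₁ r₃ k₃ : ℕ}
    {P : Finset (ℤ × ℤ)} {m' : ℕ} {w' : ℕ → ℤ × ℤ} {l₁ l₃ : ℕ} {κ : ℤ × ℤ → ι}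
    {v : ℤ × ℤ} {E ρ : ℤ} {Z Zp A : Set (ℤ × ℤ)} {Gd : Set UE} {y₁ y₂ : ℕ},
    MvDom ι₀ Ξ c R U a T₀ m₀ w₀ p₁ q₁ q₃ p₃ P₀ m₀' w₀' j₁ j₃ κ₀ v E ρ →
    MvDom ι Ξ c R U a T m w k₁ r₁ r₃ k₃ P m' w' l₁ l₃ κ v E ρ →
    MvEvt U T₀ w₀ q₁ q₃ T w r₁ r₃ l₁ l₃ Z Zp A Gd y₁ y₂ →
    (∀ ξ, ∃ n, fa (pth (Ξ ξ) a n) ∈ Zp) → ∀ W : Finset (ℤ × ℤ), T₀ ⊆ W → T ⊆ W →
    |pr W {ξ | Ξ ξ ∈ MoveEv a Zp A Gd} - (Xmk c P w' l₁ l₃ y₁ - Xmk c P w' l₁ l₃ y₂)| ≤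
      C * ((E : ℝ) / ρ) ^ α := by
  obtain ⟨C1, α1, hC1, hα1, hbad⟩ := mvDom_bad
  obtain ⟨C2, α2, hC2, hα2, hmark⟩ := mvDom_mark
  refine ⟨6 * (C1 + C2), min α1 α2, by positivity, lt_min hα1 hα2, ?_⟩
  intro ι₀ ι Ξ c R U a T₀ m₀ w₀ p₁ q₁ q₃ p₃ P₀ m₀' w₀' j₁ j₃ κ₀ T m w k₁ r₁ r₃ k₃ P m' w' l₁ l₃ κ
    v E ρ Z Zp A Gd y₁ y₂ h₀ h hv hstop W hT₀W hTW
  have hEρ := h.Eρ
  have hE0 := h.hE
  have hlen := h.len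
  have hl13 := h.l13
  have g1 := hv.ly1
  have g2 := hv.y12
  have g3 := hv.y2l
  have hρ0 : (0 : ℝ) < ρ := by exact_mod_cast (lt_of_lt_of_le hE0 hEρ)
  have hE0' : (0 : ℝ) < E := by exact_mod_cast hE0
  have hq1 : (E : ℝ) / ρ ≤ 1 := by
    rw [div_le_one hρ0]
    exact_mod_cast hEρ
  have hq0 : 0 < (E : ℝ) / ρ := by positivity
  have e1 : ((E : ℝ) / ρ) ^ α1 ≤ ((E : ℝ) / ρ) ^ (min α1 α2) :=
    Real.rpow_le_rpow_of_exponent_ge hq0 hq1 (min_le_left _ _)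
  have e2 : ((E : ℝ) / ρ) ^ α2 ≤ ((E : ℝ) / ρ) ^ (min α1 α2) :=
    Real.rpow_le_rpow_of_exponent_ge hq0 hq1 (min_le_right _ _)
  set η : ℝ := ((E : ℝ) / ρ) ^ (min α1 α2) with hη
  have hη0 : 0 < η := by positivity
  have b0 : pr W (CapBad c T₀ m₀ w₀ p₁ q₁ q₃ p₃) ≤ C1 * η :=
    (hbad h₀ W hT₀W).trans (mul_le_mul_of_nonneg_left e1 hC1.le)
  have b1 : pr W (CapBad c T m w k₁ r₁ r₃ k₃) ≤ C1 * η :=
    (hbad h W hTW).trans (mul_le_mul_of_nonneg_left e1 hC1.le)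
  have hx12 : r₁ + (y₁ - l₁) ≤ r₁ + (y₂ - l₁) := by omega
  have hmove := pr_move (W := W) h.agr h₀.agr h₀.cap h.cap hv.Z₀ hv.ZA hv.ZZp hv.ZpU hv.Zp₀ hv.ZT
    hv.AU hv.AT hv.AZ hx12 hv.gd hstop
  -- off the bad events the strand leaves through the outer arc
  have hends : ∀ ξ, ξ ∉ CapBad c T m w k₁ r₁ r₃ k₃ ∪ CapBad c T₀ m₀ w₀ p₁ q₁ q₃ p₃ →
      ξ ∈ LC.XA c (T : Set (ℤ × ℤ)) w 0 r₁ r₁ r₃ ∧ ξ ∉ LC.XA c (T : Set (ℤ × ℤ)) w 0 r₁ r₃ r₃ := by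
    intro ξ hno
    rw [Set.mem_union, not_or] at hno
    have hb : Ξ ξ ∉ CapBad c T m w k₁ r₁ r₃ k₃ := fun hh =>
      hno.1 ((depOn_capBad c T m w k₁ r₁ r₃ k₃ (Ξ ξ) ξ (h.agr ξ)).1 hh)
    have hb₀ : Ξ ξ ∉ CapBad c T₀ m₀ w₀ p₁ q₁ q₃ p₃ := fun hh =>
      hno.2 ((depOn_capBad c T₀ m₀ w₀ p₁ q₁ q₃ p₃ (Ξ ξ) ξ (h₀.agr ξ)).1 hh)
    obtain ⟨σ, hσ, hσ'⟩ : ∃ σ, (∀ i < σ, fa (pth (Ξ ξ) a i) ∉ Zp) ∧ fa (pth (Ξ ξ) a σ) ∈ Zp := by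
      classical
      have hex := hstop ξ
      exact ⟨Nat.find hex, fun i hi => Nat.find_min hex hi, Nat.find_spec hex⟩
    have hZ := (btw_iff (h₀.cap ξ) (h.cap ξ) hv.Z₀ hv.ZA hv.ZZp hv.ZpU hv.Zp₀ hv.ZT hv.AU hv.AT
      hv.AZ hv.gd hσ hσ' hb₀ hb).1
    obtain ⟨θ, -, hθ⟩ := exists_ent (n := σ) (U := U) (T := T) (hv.ZpU hσ') (hv.ZT _ hZ)
    obtain ⟨-, x, hx1, hx2, -, hx⟩ := (h.cap ξ).ent hθ hb
    refine ⟨(LC.depOn_XA _ _ _ _ _ _ _ (Ξ ξ) ξ (h.agr ξ)).1 ((hx r₁).1 hx1), fun hh => ?_⟩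
    have := (hx r₃).2 ((LC.depOn_XA _ _ _ _ _ _ _ (Ξ ξ) ξ (h.agr ξ)).2 hh)
    omega
  have hbb : pr W (CapBad c T m w k₁ r₁ r₃ k₃ ∪ CapBad c T₀ m₀ w₀ p₁ q₁ q₃ p₃) ≤ 2 * C1 * η := by
    have := pr_union_le W (CapBad c T m w k₁ r₁ r₃ k₃) (CapBad c T₀ m₀ w₀ p₁ q₁ q₃ p₃)
    linarith
  -- the marks
  have hmk : ∀ y, l₁ ≤ y → y ≤ l₃ →
      |pr W (LC.XA c (T : Set (ℤ × ℤ)) w 0 r₁ (r₁ + (y - l₁)) r₃) - Xmk c P w' l₁ l₃ y| ≤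
        2 * (C1 + C2) * η := by
    intro y hy1 hy3
    have hpos : 0 ≤ 2 * C2 * η := by positivity
    have hpos1 : 0 ≤ 2 * C1 * η := by positivity
    unfold Xmk
    by_cases hyl : y = l₁
    · rw [if_pos hyl, hyl, Nat.sub_self, Nat.add_zero]
      have h1 : 1 ≤ pr W (LC.XA c (T : Set (ℤ × ℤ)) w 0 r₁ r₁ r₃) +
          pr W (CapBad c T m w k₁ r₁ r₃ k₃ ∪ CapBad c T₀ m₀ w₀ p₁ q₁ q₃ p₃) := by
        have h2 : pr W (Set.univ : Set Cfg) = 1 := by simp [ProbA.pr_eq_sum]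
        rw [← h2]
        refine le_trans (pr_mono W fun ξ _ => ?_) (pr_union_le _ _ _)
        by_cases hb : ξ ∈ CapBad c T m w k₁ r₁ r₃ k₃ ∪ CapBad c T₀ m₀ w₀ p₁ q₁ q₃ p₃
        · exact Or.inr hb
        · exact Or.inl (hends ξ hb).1
      have h3 := pr_le_one W (LC.XA c (T : Set (ℤ × ℤ)) w 0 r₁ r₁ r₃)
      rw [abs_le]
      constructor <;> nlinarith
    · rw [if_neg hyl]
      by_cases hyr : y = l₃
      · rw [if_pos hyr, hyr, ← hlen]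
        have h1 : pr W (LC.XA c (T : Set (ℤ × ℤ)) w 0 r₁ r₃ r₃) ≤
            pr W (CapBad c T m w k₁ r₁ r₃ k₃ ∪ CapBad c T₀ m₀ w₀ p₁ q₁ q₃ p₃) := by
          refine pr_mono W fun ξ hξ => ?_
          by_contra hb
          exact (hends ξ hb).2 hξ
        have h3 := pr_nonneg W (LC.XA c (T : Set (ℤ × ℤ)) w 0 r₁ r₃ r₃)
        rw [abs_le]
        constructor <;> nlinarith
      · rw [if_neg hyr]
        have h1 := hmark h y (by omega) (by omega)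
        have h2 : pr W (LC.XA c (T : Set (ℤ × ℤ)) w 0 r₁ (r₁ + (y - l₁)) r₃) =
            pr T (LC.XA c (T : Set (ℤ × ℤ)) w 0 r₁ (r₁ + (y - l₁)) r₃) :=
          pr_eq_of_depOn (LC.depOn_XA _ _ _ _ _ _ _) hTW
        rw [h2, abs_sub_comm]
        refine h1.trans ?_
        have := mul_le_mul_of_nonneg_left e2 hC2.le
        nlinarith
  have m1 := hmk y₁ g1 (g2.trans g3)
  have m2 := hmk y₂ (g1.trans g2) g3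
  rw [abs_le] at hmove m1 m2 ⊢
  constructor <;> nlinarith

/-! ### The law of the record -/

/-- **THE KERNEL.** `𝒦` is the family of the sets of removable cells (closed under unions, with `∅`); for
every `q ∈ 𝒦` the true domain `T q` and the coarse domain `P q` with their contours and marks; `Gd r` is
the set of the stop sides of the run `r`, it is the interval `[y₁ q, y₂ q)` of the coarse contour of `P q`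
(empty if `y₁ q = y₂ q`). The law of the record (largest avoided set, run of the stop) is the Moebius sum
of the crossing probabilities of the coarse domains. -/
theorem kernel : ∃ C α : ℝ, 0 < C ∧ 0 < α ∧ ∀ {ι κt ρt : Type} [DecidableEq ι]
    {𝒦 : Finset (Finset ι)} {cf : Finset ι → Set (ℤ × ℤ)} {av : Cfg → ι → Prop} {rn : Cfg → ρt}
    {Ξ : Cfg → Cfg} {c : ℤ} {R U : Set (ℤ × ℤ)} {a : UE}
    {T : Finset ι → Finset (ℤ × ℤ)} {m : Finset ι → ℕ} {w : Finset ι → ℕ → ℤ × ℤ}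
    {k₁ r₁ r₃ k₃ : Finset ι → ℕ} {P : Finset ι → Finset (ℤ × ℤ)} {m' : Finset ι → ℕ}
    {w' : Finset ι → ℕ → ℤ × ℤ} {l₁ l₃ : Finset ι → ℕ} {κ : Finset ι → ℤ × ℤ → κt}
    {v : ℤ × ℤ} {E ρ : ℤ} {Z Zp : Set (ℤ × ℤ)} {Gd : Set UE} {y₁ y₂ : Finset ι → ℕ}
    {W : Finset (ℤ × ℤ)} {r : ρt},
    (∀ K ∈ 𝒦, ∀ K' ∈ 𝒦, K ∪ K' ∈ 𝒦) → ∅ ∈ 𝒦 →
    (∀ q ∈ 𝒦, MvDom κt Ξ c R U a (T q) (m q) (w q) (k₁ q) (r₁ q) (r₃ q) (k₃ q) (P q) (m' q)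
      (w' q) (l₁ q) (l₃ q) (κ q) v E ρ) →
    (∀ q ∈ 𝒦, MvEvt U (T ∅) (w ∅) (r₁ ∅) (r₃ ∅) (T q) (w q) (r₁ q) (r₃ q) (l₁ q) (l₃ q) Z Zp
      (cf q) Gd (y₁ q) (y₂ q)) →
    (∀ ξ, ∃ n, fa (pth (Ξ ξ) a n) ∈ Zp) → (∀ q ∈ 𝒦, T q ⊆ W) →
    (∀ q ∈ 𝒦, ∀ ξ, (∀ i ∈ q, av (Ξ ξ) i) ∧ rn (Ξ ξ) = r ↔ Ξ ξ ∈ MoveEv a Zp (cf q) Gd) →
    ∀ K ∈ 𝒦, |pr W {ξ | RunRec 𝒦 av rn (Ξ ξ) = (K, r)} -
      Mob 𝒦 (fun q => Xmk c (P q) (w' q) (l₁ q) (l₃ q) (y₁ q) -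
        Xmk c (P q) (w' q) (l₁ q) (l₃ q) (y₂ q)) K| ≤
      2 ^ 𝒦.card * (C * ((E : ℝ) / ρ) ^ α) := by
  obtain ⟨C, α, hC, hα, h1⟩ := one_move
  refine ⟨C, α, hC, hα, ?_⟩
  intro ι κt ρt _ 𝒦 cf av rn Ξ c R U a T m w k₁ r₁ r₃ k₃ P m' w' l₁ l₃ κ v E ρ Z Zp Gd y₁ y₂ W r
    hK h0 hdom hevt hstop hTW hrec K hKm
  have key := abs_runRec_cond (W := W) (E := Set.univ) (r := r) (av := fun ξ i => av (Ξ ξ) i)
    (rn := fun ξ => rn (Ξ ξ)) (x := fun q => Xmk c (P q) (w' q) (l₁ q) (l₃ q) (y₁ q) -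
        Xmk c (P q) (w' q) (l₁ q) (l₃ q) (y₂ q)) hK h0 (η := C * ((E : ℝ) / ρ) ^ α)
    (fun q hq => ?_) hKm
  · have hu : pr W (Set.univ : Set Cfg) = 1 := by simp [ProbA.pr_eq_sum]
    rw [hu, one_mul, one_mul, Set.univ_inter] at key
    exact key
  · have hu : pr W (Set.univ : Set Cfg) = 1 := by simp [ProbA.pr_eq_sum]
    rw [hu, one_mul, one_mul, Set.univ_inter]
    have e1 : AvRun (fun ξ i => av (Ξ ξ) i) (fun ξ => rn (Ξ ξ)) r q =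
        {ξ | Ξ ξ ∈ MoveEv a Zp (cf q) Gd} := by
      ext ξ
      exact hrec q hq ξ
    rw [e1]
    exact h1 (hdom ∅ h0) (hdom q hq) (hevt q hq) hstop W (hTW ∅ h0) (hTW q hq)

/-- The stop of the strand is regular: the strand enters `Zp` in `Z`. -/
def RegStop (a : UE) (Z Zp : Set (ℤ × ℤ)) (ω : Cfg) : Prop :=
  ∃ σ, (∀ i < σ, fa (pth ω a i) ∉ Zp) ∧ fa (pth ω a σ) ∈ Zp ∧ fa (pth ω a σ) ∈ Z

/-- **THE KERNEL**, the record is arbitrary if the stop is not regular. -/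
theorem kernel_reg : ∃ C α : ℝ, 0 < C ∧ 0 < α ∧ ∀ {ι κt ρt : Type} [DecidableEq ι]
    {𝒦 : Finset (Finset ι)} {cf : Finset ι → Set (ℤ × ℤ)} {av : Cfg → ι → Prop} {rn : Cfg → ρt}
    {Ξ : Cfg → Cfg} {c : ℤ} {R U : Set (ℤ × ℤ)} {a : UE}
    {T : Finset ι → Finset (ℤ × ℤ)} {m : Finset ι → ℕ} {w : Finset ι → ℕ → ℤ × ℤ}
    {k₁ r₁ r₃ k₃ : Finset ι → ℕ} {P : Finset ι → Finset (ℤ × ℤ)} {m' : Finset ι → ℕ}
    {w' : Finset ι → ℕ → ℤ × ℤ} {l₁ l₃ : Finset ι → ℕ} {κ : Finset ι → ℤ × ℤ → κt}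
    {v : ℤ × ℤ} {E ρ : ℤ} {Z Zp : Set (ℤ × ℤ)} {Gd : Set UE} {y₁ y₂ : Finset ι → ℕ}
    {W : Finset (ℤ × ℤ)} {r : ρt},
    (∀ K ∈ 𝒦, ∀ K' ∈ 𝒦, K ∪ K' ∈ 𝒦) → ∅ ∈ 𝒦 →
    (∀ q ∈ 𝒦, MvDom κt Ξ c R U a (T q) (m q) (w q) (k₁ q) (r₁ q) (r₃ q) (k₃ q) (P q) (m' q)
      (w' q) (l₁ q) (l₃ q) (κ q) v E ρ) →
    (∀ q ∈ 𝒦, MvEvt U (T ∅) (w ∅) (r₁ ∅) (r₃ ∅) (T q) (w q) (r₁ q) (r₃ q) (l₁ q) (l₃ q) Z Zp
      (cf q) Gd (y₁ q) (y₂ q)) →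
    (∀ ξ, ∃ n, fa (pth (Ξ ξ) a n) ∈ Zp) → (∀ q ∈ 𝒦, T q ⊆ W) →
    (∀ q ∈ 𝒦, ∀ ξ, RegStop a Z Zp (Ξ ξ) →
      ((∀ i ∈ q, av (Ξ ξ) i) ∧ rn (Ξ ξ) = r ↔ Ξ ξ ∈ MoveEv a Zp (cf q) Gd)) →
    ∀ K ∈ 𝒦, |pr W {ξ | RunRec 𝒦 av rn (Ξ ξ) = (K, r)} -
      Mob 𝒦 (fun q => Xmk c (P q) (w' q) (l₁ q) (l₃ q) (y₁ q) -
        Xmk c (P q) (w' q) (l₁ q) (l₃ q) (y₂ q)) K| ≤
      2 ^ 𝒦.card * (C * ((E : ℝ) / ρ) ^ α) := by
  obtain ⟨C1, α1, hC1, hα1, h1⟩ := one_move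
  obtain ⟨C2, α2, hC2, hα2, h2⟩ := mvDom_bad
  refine ⟨C1 + C2, min α1 α2, by positivity, lt_min hα1 hα2, ?_⟩
  intro ι κt ρt _ 𝒦 cf av rn Ξ c R U a T m w k₁ r₁ r₃ k₃ P m' w' l₁ l₃ κ v E ρ Z Zp Gd y₁ y₂ W r
    hK h0 hdom hevt hstop hTW hrec K hKm
  have hEρ := (hdom ∅ h0).Eρ
  have hE0 := (hdom ∅ h0).hE
  have hρ0 : (0 : ℝ) < ρ := by exact_mod_cast (lt_of_lt_of_le hE0 hEρ)
  have hE0' : (0 : ℝ) < E := by exact_mod_cast hE0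
  have hq1 : (E : ℝ) / ρ ≤ 1 := by
    rw [div_le_one hρ0]
    exact_mod_cast hEρ
  have hq0 : 0 < (E : ℝ) / ρ := by positivity
  have e1 : ((E : ℝ) / ρ) ^ α1 ≤ ((E : ℝ) / ρ) ^ (min α1 α2) :=
    Real.rpow_le_rpow_of_exponent_ge hq0 hq1 (min_le_left _ _)
  have e2 : ((E : ℝ) / ρ) ^ α2 ≤ ((E : ℝ) / ρ) ^ (min α1 α2) :=
    Real.rpow_le_rpow_of_exponent_ge hq0 hq1 (min_le_right _ _)
  have hu : pr W (Set.univ : Set Cfg) = 1 := by simp [ProbA.pr_eq_sum]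
  have key := abs_runRec_cond (W := W) (E := Set.univ) (r := r) (av := fun ξ i => av (Ξ ξ) i)
    (rn := fun ξ => rn (Ξ ξ)) (x := fun q => Xmk c (P q) (w' q) (l₁ q) (l₃ q) (y₁ q) -
        Xmk c (P q) (w' q) (l₁ q) (l₃ q) (y₂ q)) hK h0
    (η := (C1 + C2) * ((E : ℝ) / ρ) ^ (min α1 α2)) (fun q hq => ?_) hKm
  · rw [hu, one_mul, one_mul, Set.univ_inter] at key
    exact key
  · rw [hu, one_mul, one_mul, Set.univ_inter]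
    have hev := hevt ∅ h0
    -- the events differ on dead stops only
    have hd : |pr W (AvRun (fun ξ i => av (Ξ ξ) i) (fun ξ => rn (Ξ ξ)) r q) -
        pr W {ξ | Ξ ξ ∈ MoveEv a Zp (cf q) Gd}| ≤ C2 * ((E : ℝ) / ρ) ^ α2 := by
      refine (LC.pr_diff_le (Z := {ξ | ∃ σ, (∀ i < σ, fa (pth (Ξ ξ) a i) ∉ Zp) ∧
        fa (pth (Ξ ξ) a σ) ∈ Zp ∧ fa (pth (Ξ ξ) a σ) ∉ Z}) fun ξ hne => ?_).trans
        ((pr_dead (W := W) (hdom ∅ h0).agr (hdom ∅ h0).cap hev.Z₀ hev.ZZp hev.ZpU hev.Zp₀).trans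
          (h2 (hdom ∅ h0) W (hTW ∅ h0)))
      obtain ⟨σ, hσ, hσ'⟩ : ∃ σ, (∀ i < σ, fa (pth (Ξ ξ) a i) ∉ Zp) ∧
          fa (pth (Ξ ξ) a σ) ∈ Zp := by
        classical
        have hex := hstop ξ
        exact ⟨Nat.find hex, fun i hi => Nat.find_min hex hi, Nat.find_spec hex⟩
      refine ⟨σ, hσ, hσ', fun hZ => hne ?_⟩
      exact hrec q hq ξ ⟨σ, hσ, hσ', hZ⟩
    have hm := h1 (hdom ∅ h0) (hdom q hq) (hevt q hq) hstop W (hTW ∅ h0) (hTW q hq)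
    have f1 := mul_le_mul_of_nonneg_left e1 hC1.le
    have f2 := mul_le_mul_of_nonneg_left e2 hC2.le
    rw [abs_le] at hd hm ⊢
    constructor <;> nlinarith

end Pool.Agent.SixB
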