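import Pool.Agent.Lib.SixB.S8LayBar
import Pool.Agent.Lib.SixB.S8RunN
import Pool.Agent.Lib.SixB.S8Kernel
import Pool.Agent.Lib.SixB.S8CloseK

/-!
# Step 8, unit 8H: the true side of one move

* `LayBar.mark`: the sides of a run on the contour of the true domain;
* `mvEvt_of`: the event data `MvEvt` of the kernel for a barrier `Z`, removed cells `C` and a run;
* `TSide`, `exists_tside`: the true domain `T` and its contour from the true tip side, for one attached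
  set `Y`; `TSide.clo`, `TSide.notY`, `TSide.escT`, `TSide.interP`;
* `mvDom_of`: the domain data `MvDom` of the kernel from `TSide` and the rows proved elsewhere.
-/

set_option autoImplicit false

namespace Pool.Agent.SixB.Mv

open Pool.Agent.Perc Pool.Agent.Perc6 Pool.Agent.Perc6.C2Aux Pool.Agent.Perc.Tips
open Pool.Agent.SixB.Top

variable {U T D G G' Z : Set (ℤ × ℤ)} {A B : UE × Bool} {M₁ M₂ mU M s t u K i₀ i₁ x₁ x₂ : ℕ}

/-- A directed side is determined by its unit edge and its front face. -/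
theorem dir_eq {B C : UE × Bool} (h : B.1 = C.1) (ha : ahead B = ahead C) : B = C := by
  obtain ⟨b, d⟩ := B
  obtain ⟨c, d'⟩ := C
  simp only at h
  subst h
  have hne : ahead (b, true) ≠ ahead (b, false) := ahead_ne (b, true)
  cases d <;> cases d'
  · rfl
  · exact absurd ha.symm hne
  · exact absurd ha hne
  · rfl

/-- The unit edges of the sides `i₀, …, i₁ - 1` of `G`. -/
def runE (G : Set (ℤ × ℤ)) (B : UE × Bool) (i₀ i₁ : ℕ) : Set UE :=
  {e | ∃ i, i₀ ≤ i ∧ i < i₁ ∧ (side G B i).1 = e}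

/-- **The marks of a run on the true contour.** -/
theorem LayBar.mark (h : LayBar U T G' A B M₁ M₂ mU M s t u K) (hGG : G' ⊆ G) (hB : BD G' B)
    (r : RMark G G' B M₁ M₂ i₀ i₁ x₁ x₂) (hZ : ∀ i, i₀ ≤ i → i < i₁ → outF G B i ∈ Z)
    (hZG : ∀ f ∈ Z, f ∉ G) {x : ℕ} (h1 : K ≤ x) (h2 : x < K + (M₂ - M₁)) {e : UE} {g : ℤ × ℤ}
    (he : Joins e (vert T A x) (vert T A (x + 1))) (hg : IsSide g e) (hgT : g ∉ T) :
    (e ∈ runE G B i₀ i₁ ∧ g ∈ Z) ↔ K + (x₁ - M₁) ≤ x ∧ x < K + (x₂ - M₁) := by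
  have hKt := h.Kt
  have hsK := h.sK
  have r1 := r.ge
  have r2 := r.le
  have r3 := r.le'
  have hgo : g = outF T A x := h.cut_side (by omega) (by omega) he hg hgT
  have hee : e = (side T A x).1 := (Joins.uniq (joins_side x) he).symm
  have hside : side T A x = side G' B (M₁ + (x - K)) := by
    have := h.arc (x - K) (by omega)
    rwa [show K + (x - K) = x by omega] at this
  have hin : ahead (side T A x) ∈ G' := by
    rw [hside]
    exact (bd_side hB _).1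
  have hmem := r.mem (M₁ + (x - K)) (by omega) (by omega)
  have key : (e ∈ runE G B i₀ i₁ ∧ g ∈ Z) ↔
      ∃ i, i₀ ≤ i ∧ i < i₁ ∧ side G' B (M₁ + (x - K)) = side G B i := by
    constructor
    · rintro ⟨⟨i, hi1, hi2, hi3⟩, -⟩
      refine ⟨i, hi1, hi2, ?_⟩
      rw [← hside]
      have h3 : (side T A x).1 = (side G B i).1 := by rw [hi3, hee]
      refine dir_eq h3 ?_
      rcases faces_of_fst h3 with h4 | h4
      · exact h4
      · exfalso
        exact hZG _ (hZ i hi1 hi2) (by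
          unfold outF
          rw [← h4]
          exact hGG hin)
    · rintro ⟨i, hi1, hi2, hi3⟩
      rw [← hside] at hi3
      refine ⟨⟨i, hi1, hi2, by rw [← hi3, hee]⟩, ?_⟩
      rw [hgo]
      unfold outF
      rw [hi3]
      exact hZ i hi1 hi2
  rw [key, ← hmem]
  omega

/-- **The event data of a move.** `Z` the barrier, `Y'` the barrier and the removed cells `C`, `T₀`, `T`
the true domains with their layouts, `Zp` the barrier and the caps of `T₀`. -/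
theorem mvEvt_of {a b L : ℤ} {D Y' C cR cL : Set (ℤ × ℤ)} {T₀ T : Finset (ℤ × ℤ)}
    {m n n' p q N₁ N₂ r mU M₀ s₀ t₀ u₀ K₀ : ℕ}
    (h : RunS a b L D B p q Z m n N₁ N₂) (h' : RunS a b L D B p q Y' m n' M₁ M₂)
    (hY' : Y' = Z ∪ C) (hZC : ∀ f ∈ C, f ∉ Z) (hDU : D ⊆ U)
    (l₀ : LayBar U (T₀ : Set (ℤ × ℤ)) (inn D B Z) A B N₁ N₂ mU M₀ s₀ t₀ u₀ K₀)
    (l : LayBar U (T : Set (ℤ × ℤ)) (inn D B Y') A B M₁ M₂ mU M s t u K)
    (hT₀ : ∀ f ∈ T₀, f ∉ Z) (hR₀ : ∀ f ∈ cR, f ∉ T₀) (hL₀ : ∀ f ∈ cL, f ∉ T₀)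
    (hT : ∀ f ∈ T, f ∉ Y')
    (hx : RMark (inn D B Z) (inn D B Y') B M₁ M₂ (rs a b L (inn D B Z) B N₁ N₂ r)
      (rs a b L (inn D B Z) B N₁ N₂ (r + 1)) x₁ x₂) :
    MvEvt U T₀ (vert (T₀ : Set (ℤ × ℤ)) A) K₀ (K₀ + (N₂ - N₁)) T (vert (T : Set (ℤ × ℤ)) A) K
      (K + (M₂ - M₁)) M₁ M₂ Z (Z ∪ (cR ∪ cL) ∩ U) C
      (runE (inn D B Z) B (rs a b L (inn D B Z) B N₁ N₂ r)
        (rs a b L (inn D B Z) B N₁ N₂ (r + 1))) x₁ x₂ := by
  have hZU : Z ⊆ U := h.att.sub.trans hDU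
  have hYU : Y' ⊆ U := h'.att.sub.trans hDU
  have hCU : C ⊆ U := fun f hf => hYU (hY' ▸ Or.inr hf)
  have hZY : Z ⊆ Y' := hY' ▸ Set.subset_union_left
  have hN := h.con.lt
  have hM := h'.con.lt
  refine ⟨?_, ?_, Set.subset_union_left, ?_, ?_, ?_, hCU, ?_, hZC, hx.ge, hx.le, hx.le', ?_⟩
  · intro x h1 h2 e g he hg hgT
    have hKt := l₀.Kt
    have hsK := l₀.sK
    rw [l₀.cut_side (by omega) (by omega) he hg hgT]
    have h3 := l₀.arc_out (i := x - K₀) (by omega)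
    rw [show K₀ + (x - K₀) = x by omega] at h3
    rw [h3]
    exact h.con.mid _ (by omega) (by omega)
  · intro x h1 h2 e g he hg hgT
    have hKt := l.Kt
    have hsK := l.sK
    rw [l.cut_side (by omega) (by omega) he hg hgT]
    have h3 := l.arc_out (i := x - K) (by omega)
    rw [show K + (x - K) = x by omega] at h3
    rw [h3]
    have h4 := h'.con.mid (M₁ + (x - K)) (by omega) (by omega)
    exact hY'.subset h4
  · exact Set.union_subset hZU Set.inter_subset_right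
  · rintro g (hg | ⟨hg | hg, -⟩) hgT
    · exact hT₀ g hgT hg
    · exact hR₀ g hg hgT
    · exact hL₀ g hg hgT
  · exact fun g hg hgT => hT g hgT (hZY hg)
  · exact fun g hg hgT => hT g hgT (hY' ▸ Or.inr hg)
  · intro x h1 h2 e g he hg hgT
    refine l.mark (inn_anti hZY) h'.bdG hx (fun i hi1 hi2 => ?_) (fun f hf hfG => ?_) h1 h2 he hg
      hgT
    · exact h.con.mid i (run_ge hi1) (run_lt' hN.le hi2)
    · exact (inn_sub h.tipm hfG).2 hf

/-! ### The true domain of one set of removed cells -/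

open CloK

/-- The true side for one attached set `Y`: the contour of the inner domain, the true domain `T` (component
of `U` without the barrier and the caps), its contour from the true tip side `τ`. -/
structure TSide {ι : Type*} (U P D : Set (ℤ × ℤ)) (κ : ℤ × ℤ → ι) (a b L : ℤ) (A τ : UE × Bool)
    (m p q : ℕ) (Y : Set (ℤ × ℤ)) (T : Finset (ℤ × ℤ)) (n N₁ N₂ mU M s t u K : ℕ) : Prop where
  run : RunS a b L D A p q Y m n N₁ N₂
  lt : N₂ < n
  eqT : (T : Set (ℤ × ℤ)) =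
    domT U Y (capK U κ (gR D A Y N₁)) (capK U κ (gL D A Y N₂)) A
  lay : LayCap U (T : Set (ℤ × ℤ)) (inn D A Y) τ A N₁ N₂ mU M s t u K
    (capK U κ (gR D A Y N₁)) (capK U κ (gL D A Y N₂))

theorem exists_tside {ι : Type*} {U P D : Set (ℤ × ℤ)} {κ : ℤ × ℤ → ι} {d a b L : ℤ}
    {A τ : UE × Bool} {m p q : ℕ} {Y : Set (ℤ × ℤ)} {n N₁ N₂ mU : ℕ}
    (H : Mvd U P D κ d A m p q) (hr : RunS a b L D A p q Y m n N₁ N₂) (hN : N₂ < n)
    (hU : Cyc U τ mU)
    (hτ : ahead τ ∈ domT U Y (capK U κ (gR D A Y N₁)) (capK U κ (gL D A Y N₂)) A) :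
    ∃ T M s t u K, TSide U P D κ a b L A τ m p q Y T n N₁ N₂ mU M s t u K := by
  have hT := H.clo hr.att hr.tip hr.con hN
  have hfin := H.finU.subset hT.TU
  obtain ⟨mU', M, s, t, u, K, h⟩ := H.layCap hr.att hr.tip hr.con hN hU.bd hτ
  have e : mU' = mU := h.cycU.unique hU
  subst e
  refine ⟨hfin.toFinset, M, s, t, u, K, hr, hN, hfin.coe_toFinset, ?_⟩
  rw [hfin.coe_toFinset]
  exact h

namespace TSide

variable {ι : Type*} {U P D : Set (ℤ × ℤ)} {κ : ℤ × ℤ → ι} {d a b L : ℤ}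
  {A τ : UE × Bool} {m p q : ℕ} {Y : Set (ℤ × ℤ)} {T : Finset (ℤ × ℤ)}
  {n N₁ N₂ mU M s t u K : ℕ} (S : TSide U P D κ a b L A τ m p q Y T n N₁ N₂ mU M s t u K)
  (H : Mvd U P D κ d A m p q)

include S H

theorem clo : Clo U P (inn D A Y) (T : Set (ℤ × ℤ)) A N₁ N₂ n
    (capK U κ (gR D A Y N₁)) (capK U κ (gL D A Y N₂)) := by
  rw [S.eqT]
  exact H.clo S.run.att S.run.tip S.run.con S.lt

theorem TU : (T : Set (ℤ × ℤ)) ⊆ U := (S.clo H).TU

theorem notY : ∀ f ∈ T, f ∉ Y := by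
  intro f hf hfY
  have h1 : f ∈ (T : Set (ℤ × ℤ)) := hf
  have h2 : ahead A ∈ U \ (Y ∪ capK U κ (gR D A Y N₁) ∪ capK U κ (gL D A Y N₂)) := by
    have hc := S.clo H
    have h3 : ahead A ∈ (T : Set (ℤ × ℤ)) := hc.DT (bd_side S.run.con.cyc.bd 0).1
    refine ⟨hc.TU h3, ?_⟩
    rintro ((h | h) | h)
    · exact S.run.tip h
    · exact hc.RT _ h h3
    · exact hc.LT _ h h3
  rw [S.eqT] at h1
  exact (compT_sub h2 h1).2 (Or.inl (Or.inl hfY))

theorem escT : Esc (T : Set (ℤ × ℤ)) := by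
  rw [S.eqT]
  exact (H.closure S.run.att S.run.tip S.run.con S.lt).2.1

theorem interP : ∀ x ∈ T, x ∈ P → x ∈ inn D A Y := fun _ hx hxP =>
  (S.clo H).inter (Finset.mem_coe.2 hx) hxP

omit H in
theorem cyc : Cyc (T : Set (ℤ × ℤ)) τ M := S.lay.cycT

end TSide

/-- **The domain data of a move**, from the true side and the rows which are proved elsewhere. -/
theorem mvDom_of {ι κt : Type} {U P D R : Set (ℤ × ℤ)} {κ : ℤ × ℤ → ι} {κ₂ : ℤ × ℤ → κt}
    {d a b L c E ρ : ℤ} {A τ : UE × Bool} {m p q : ℕ} {Y : Set (ℤ × ℤ)} {T : Finset (ℤ × ℤ)}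
    {n N₁ N₂ mU M s t u K : ℕ} {Ξ : Cfg → Cfg} {v : ℤ × ℤ} {Pf : Finset (ℤ × ℤ)}
    (S : TSide U P D κ a b L A τ m p q Y T n N₁ N₂ mU M s t u K) (H : Mvd U P D κ d A m p q)
    (hPf : (Pf : Set (ℤ × ℤ)) = inn D A Y)
    (cap : ∀ ξ, CapDom (Ξ ξ) c R U T M (vert (T : Set (ℤ × ℤ)) τ) (s + 1) K (K + (N₂ - N₁)) t τ.1)
    (agr : ∀ ξ, ∀ f ∈ T, Ξ ξ f = ξ f) (app₂ : App (T : Set (ℤ × ℤ)) (inn D A Y) κ₂ E)
    (Eρ : E ≤ ρ)
    (labb : ∀ (e e' : UE) (i i' : ℕ), LC.LinkC T Pf κ₂ e e' → i < n →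
      Joins e (vert (inn D A Y) A i) (vert (inn D A Y) A (i + 1)) → i' < M →
      Joins e' (vert (T : Set (ℤ × ℤ)) τ i') (vert (T : Set (ℤ × ℤ)) τ (i' + 1)) →
      ¬ LC.InB v E (ua e) → i' < K → i < N₁)
    (labo : ∀ (e e' : UE) (i i' : ℕ), LC.LinkC T Pf κ₂ e e' → i < n →
      Joins e (vert (inn D A Y) A i) (vert (inn D A Y) A (i + 1)) → i' < M →
      Joins e' (vert (T : Set (ℤ × ℤ)) τ i') (vert (T : Set (ℤ × ℤ)) τ (i' + 1)) →
      ¬ LC.InB v E (ua e) → K + (N₂ - N₁) ≤ i' → N₂ ≤ i)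
    (labc : ∀ (e e' : UE) (i i' : ℕ), LC.LinkC T Pf κ₂ e e' → i < n →
      Joins e (vert (inn D A Y) A i) (vert (inn D A Y) A (i + 1)) →
      Joins e' (vert (T : Set (ℤ × ℤ)) τ i') (vert (T : Set (ℤ × ℤ)) τ (i' + 1)) →
      K ≤ i' → i' < K + (N₂ - N₁) → i = N₁ + (i' - K))
    (ne0 : ∃ i < N₁, ∀ e, Joins e (vert (inn D A Y) A i) (vert (inn D A Y) A (i + 1)) →
      ¬ LC.InB v E (ua e))
    (ne3 : ∃ i, N₂ ≤ i ∧ i < n ∧
      ∀ e, Joins e (vert (inn D A Y) A i) (vert (inn D A Y) A (i + 1)) → ¬ LC.InB v E (ua e))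
    (far : ∀ i, K ≤ i → i ≤ K + (N₂ - N₁) →
      ¬ LC.InB v (5 * ρ + 10 * E + 10) (vert (T : Set (ℤ × ℤ)) τ i))
    (far' : ∀ i, N₁ ≤ i → i < N₂ →
      ∀ e, Joins e (vert (inn D A Y) A i) (vert (inn D A Y) A (i + 1)) →
      ¬ LC.InB v (5 * ρ + 10 * E + 10) (ua e))
    (gate : ∀ i, K ≤ i → i ≤ K + (N₂ - N₁) →
      ¬ LC.Gate (T : Set (ℤ × ℤ)) (LC.av (vert (T : Set (ℤ × ℤ)) τ) 0 K)
        (LC.av (vert (T : Set (ℤ × ℤ)) τ) (K + (N₂ - N₁)) M) (vert (T : Set (ℤ × ℤ)) τ i) (6 * ρ))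
    (capR : ∀ y, s + 1 ≤ y → y ≤ K →
      LC.InB (vert (T : Set (ℤ × ℤ)) τ K) E (vert (T : Set (ℤ × ℤ)) τ y))
    (capL : ∀ y, K + (N₂ - N₁) ≤ y → y ≤ t →
      LC.InB (vert (T : Set (ℤ × ℤ)) τ (K + (N₂ - N₁))) E (vert (T : Set (ℤ × ℤ)) τ y)) :
    MvDom κt Ξ c R U τ.1 T M (vert (T : Set (ℤ × ℤ)) τ) (s + 1) K (K + (N₂ - N₁)) t Pf n
      (vert (inn D A Y) A) N₁ N₂ κ₂ v E ρ := by
  have hc := S.clo H
  have hcon := S.run.con
  exact {
    cap := cap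
    agr := agr
    ctrP := by rw [hPf]; exact hcon.cyc.ctr
    PT := fun f hf => Finset.mem_coe.1 (hc.DT (hPf ▸ Finset.mem_coe.2 hf))
    conP := fun f hf g hg => by
      rw [hPf]
      have hf' : f ∈ inn D A Y := hPf ▸ Finset.mem_coe.2 hf
      have hg' : g ∈ inn D A Y := hPf ▸ Finset.mem_coe.2 hg
      exact chn_iff.2 ⟨hf', hc.ecD f hf' g hg'⟩
    sat := fun x y hxy hx => by
      have hx' : x ∈ inn D A Y := hPf ▸ Finset.mem_coe.2 hx
      exact Finset.mem_coe.1 (hPf ▸ app₂.sat x y hxy hx')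
    cell := app₂.cell
    diam := app₂.diam
    hnot := fun f hf g hfg hg => by
      have hf' : f ∈ inn D A Y := hPf ▸ Finset.mem_coe.2 hf
      obtain ⟨x, h1, h2⟩ := app₂.out f hf' g hfg fun h => hg (Finset.mem_coe.1 (hPf ▸ h))
      exact ⟨x, h1, fun h => h2 (Finset.mem_coe.2 h)⟩
    hE := app₂.d_pos
    Eρ := Eρ
    l1 := hcon.pos
    l13 := hcon.lt
    l3 := S.lt
    len := rfl
    labb := labb
    labo := labo
    labc := labc
    ne0 := ne0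
    ne3 := ne3
    far := far
    far' := far'
    gate := gate
    capR := capR
    capL := capL }

end Pool.Agent.SixB.Mv
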