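import Pool.Agent.Lib.SixB.S8KerBad
import Pool.Agent.Lib.SixB.S8MoveT

/-!
# Step 8: the true update of a regular move

`CloK.Mvd.move_true`: the strand starts in the true domain `T₀` of a move and stops regularly (`StopR`) at
the time `σ`, `N` is the set of the visited faces. Then `0 < σ`, `N` meets `U` in `T₀` only and `P` in the
inner domain only, the true target `y` is not visited, and the component of `y` in `U \ N` contains the new
coarse set, the entered set and the entered face.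
-/

set_option autoImplicit false

namespace Pool.Agent.SixB.CloK

open Finset Pool.Agent.Perc Pool.Agent.Perc6 Pool.Agent.Perc6.C2Aux Pool.Agent.Perc.Tips
open Pool.Agent.SixB.Top Pool.Agent.SixB.Mv

variable {ι : Type*} {U P D Y : Set (ℤ × ℤ)} {κ : ℤ × ℤ → ι} {d a b L : ℤ}
  {A B τ : UE × Bool} {m p q n N₁ N₂ : ℕ}

/-- The visited faces of a strand up to the stop are in `T₀` or outside of `U`. -/
theorem mem_of_vs {T₀ Z : Set (ℤ × ℤ)} {Es : Set UE} {ω : Cfg} {e : UE} {σ : ℕ}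
    (hS : StopR e U T₀ Z Es ω σ) : ∀ f ∈ (vs ω e 0 σ : Set (ℤ × ℤ)), f ∈ U → f ∈ T₀ := by
  intro f hf hU
  obtain ⟨i, -, hi, rfl⟩ := mem_vs.1 (Finset.mem_coe.1 hf)
  exact hS.bef i hi hU

/-- **The true update of a regular move.** -/
theorem Mvd.move_true (H : Mvd U P D κ d A m p q) (hr : RunS a b L D A p q Y m n N₁ N₂)
    (hN : N₂ < n) {T₀ : Set (ℤ × ℤ)}
    (hT₀ : T₀ = domT U Y (capK U κ (gR D A Y N₁)) (capK U κ (gL D A Y N₂)) A)
    (hτ : ahead τ ∈ T₀) (hfa : fa τ.1 = ahead τ) {ω : Cfg} {σ : ℕ}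
    (hS : StopR τ.1 U T₀ Y (runE (inn D A Y) A N₁ N₂) ω σ) {E K : Set (ℤ × ℤ)} (hE : E ⊆ Y)
    (hEc : Top.EConn E) (h0 : fa (pth ω τ.1 σ) ∈ E)
    (hK : ∀ f ∈ K, f ∈ inn D A Y ∧ f ∉ (vs ω τ.1 0 σ : Set (ℤ × ℤ)))
    (hB : ahead B ∈ P) (hBi : ahead B ∉ inn D A Y)
    (hadj : ∃ x, BD (compT (P \ ((inn D A Y \ K) ∪ E)) (ahead B)) x ∧ ahead (rv x) ∈ E)
    {y : ℤ × ℤ} (hy : y ∈ U) (hyT : y ∉ T₀)
    (hl : y = ahead B ∨ ∃ S : Set (ℤ × ℤ), S ⊆ U ∧ (∀ f ∈ S, f ∉ T₀) ∧ ahead (rv B) ∈ S ∧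
      ChI S (ahead (rv B)) y) :
    0 < σ ∧ (∀ f ∈ (vs ω τ.1 0 σ : Set (ℤ × ℤ)), f ∈ U → f ∈ T₀) ∧
      (∀ f ∈ (vs ω τ.1 0 σ : Set (ℤ × ℤ)), f ∈ P → f ∈ inn D A Y) ∧
      y ∉ (vs ω τ.1 0 σ : Set (ℤ × ℤ)) ∧
      compT (P \ ((inn D A Y \ K) ∪ E)) (ahead B) ⊆
        compT (U \ (vs ω τ.1 0 σ : Set (ℤ × ℤ))) y ∧
      E ⊆ compT (U \ (vs ω τ.1 0 σ : Set (ℤ × ℤ))) y ∧
      fa (pth ω τ.1 σ) ∈ compT (U \ (vs ω τ.1 0 σ : Set (ℤ × ℤ))) y := by
  have hPU : P ⊆ U := H.app.sub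
  have hYD : Y ⊆ D := hr.att.sub
  have hcl := (H.closure hr.att hr.tip hr.con hN).1
  rw [← hT₀] at hcl
  have hAW : ahead A ∈ U \ (Y ∪ capK U κ (gR D A Y N₁) ∪ capK U κ (gL D A Y N₂)) := by
    have hc := H.clo hr.att hr.tip hr.con hN
    have h3 := hc.DT (bd_side hr.con.cyc.bd 0).1
    refine ⟨hc.TU h3, ?_⟩
    rintro ((h | h) | h)
    · exact hr.tip h
    · exact hc.RT _ h h3
    · exact hc.LT _ h h3
  have hTY : ∀ f ∈ T₀, f ∉ Y := by
    intro f hf hfY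
    rw [hT₀] at hf
    exact (compT_sub hAW hf).2 (Or.inl (Or.inl hfY))
  set N : Set (ℤ × ℤ) := (vs ω τ.1 0 σ : Set (ℤ × ℤ)) with hNdef
  have hNU : ∀ f ∈ N, f ∈ U → f ∈ T₀ := mem_of_vs hS
  have hNP : ∀ f ∈ N, f ∈ P → f ∈ inn D A Y := fun f hf hfP => hcl f (hNU f hf (hPU hfP)) hfP
  have hpos : 0 < σ := by
    rcases Nat.eq_zero_or_pos σ with h | h
    · exfalso
      have h1 := hS.mem
      rw [h] at h1
      change fa τ.1 ∈ Y at h1
      rw [hfa] at h1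
      exact hTY _ hτ h1
    · exact h
  have hyN : y ∉ N := fun hh => hyT (hNU y hh hy)
  have hBU : ahead B ∈ U \ N := ⟨hPU hB, fun hh => hBi (hNP _ hh hB)⟩
  -- the component of the target side is the component of `y`
  have hcomp : compT (U \ N) (ahead B) = compT (U \ N) y := by
    rcases hl with h | ⟨S, hSU, hST, hS1, hS2⟩
    · rw [h]
    · have hsub : S ⊆ U \ N := fun f hf => ⟨hSU hf, fun hh => hST f hf (hNU f hh (hSU hf))⟩
      have h1 : ChI (U \ N) (ahead B) y :=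
        (ChI.single (adjF_ahead B).symm (hsub hS1)).trans (hS2.mono hsub)
      exact (compT_eq hBU h1).symm
  have hVN : P \ ((inn D A Y \ K) ∪ E) ⊆ U \ N := by
    rintro f ⟨hfP, hfV⟩
    refine ⟨hPU hfP, fun hh => hfV (Or.inl ⟨hNP f hh hfP, fun hfK => (hK f hfK).2 hh⟩)⟩
  have hsub : compT (P \ ((inn D A Y \ K) ∪ E)) (ahead B) ⊆ compT (U \ N) y := by
    rw [← hcomp]
    exact compT_mono hVN
  have hEN : E ⊆ U \ N := by
    intro f hf
    have hfP : f ∈ P := H.DP (hYD (hE hf))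
    exact ⟨hPU hfP, fun hh => hTY f (hNU f hh (hPU hfP)) (hE hf)⟩
  have hEsub : E ⊆ compT (U \ N) y := by
    obtain ⟨x, hx1, hx2⟩ := hadj
    have h1 : ahead (rv x) ∈ compT (U \ N) y :=
      compT_step (hsub hx1.1) (adjF_ahead x).symm (hEN hx2)
    intro f hf
    have h2 : ChI E (ahead (rv x)) f := hEc _ hx2 f hf
    exact (h1 : ChI (U \ N) y _).trans (h2.mono hEN)
  exact ⟨hpos, hNU, hNP, hyN, hsub, hEsub, hEsub h0⟩

end Pool.Agent.SixB.CloK
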