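import Pool.Agent.Lib.SixB.S8AppLink
import Pool.Agent.Lib.SixB.S8TruStep

/-!
# Step 8: links after a move

The fresh region `U` (tip side `A`, target side number `x`) becomes `U'` (`Nxt`, S8TruStep), the classes
`κ` become `κ'`.

* `cap_out`: a cap whose first face is not in `T` and whose class is not the class of one of the two
  removed caps does not meet `T`;
* `anchor`: a side of the new coarse domain which is an old side and whose cap was not visited keeps its
  links and their labels;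
* `tip_link`: a side behind which the entered set lies is linked to the new true tip side.
-/

set_option autoImplicit false

namespace Pool.Agent.SixB.Top

open Finset Pool.Agent.Perc Pool.Agent.Perc6 Pool.Agent.Perc6.C2Aux Pool.Agent.Perc.Tips
open Pool.Agent.SixB.Mv Pool.Agent.SixB.CloK

variable {ι ι' : Type*} {U U' P T : Set (ℤ × ℤ)} {κ : ℤ × ℤ → ι} {κ' : ℤ × ℤ → ι'} {d : ℤ}

/-- A cap outside the domain of the move. -/
theorem cap_out (app : App U P κ d) {gR gL : ℤ × ℤ}
    (hcomp : ∀ t ∈ T, ∀ g, AdjF t g → g ∉ T → g ∉ U ∨ g ∈ P ∨ g ∈ capK U κ gR ∨ g ∈ capK U κ gL)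
    {g : ℤ × ℤ} (hgU : g ∈ U) (hgP : g ∉ P) (hgT : g ∉ T) (hR : κ g ≠ κ gR) (hL : κ g ≠ κ gL) :
    ∀ f ∈ capC U κ g, f ∉ T := by
  intro y hy
  have hy' : ChI ({x | κ x = κ g} ∩ U) g y := hy
  clear hy
  induction hy' with
  | refl => exact hgT
  | @tail b c hb hs ih =>
    intro hc
    have hbm : b ∈ {x | κ x = κ g} ∩ U := ChI.mem ⟨rfl, hgU⟩ hb
    rcases hcomp c hc b hs.1.symm ih with h | h | h | h
    · exact h hbm.2
    · exact hgP (app.sat b g hbm.1 h)
    · exact hR (hbm.1.symm.trans (capK_class h))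
    · exact hL (hbm.1.symm.trans (capK_class h))

/-- The cap of a class which was not visited; the new class contains the old one. -/
theorem capC_keep {N : Set (ℤ × ℤ)} {b g f₀ : ℤ × ℤ} (hU' : U' = compT (U \ N) b)
    (hf₀ : f₀ ∈ U') (hadj : AdjF f₀ g) (hgU : g ∈ U)
    (hN : ∀ f ∈ capC U κ g, f ∉ N) (hκ : ∀ y, κ y = κ g → κ' y = κ' g) :
    g ∈ U' ∧ capC U κ g ⊆ U' ∧ capC U κ g ⊆ capC U' κ' g := by
  have hgU' : g ∈ U' := by
    rw [hU'] at hf₀ ⊢
    exact compT_step hf₀ hadj ⟨hgU, hN g self_mem_compT⟩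
  have hCU' : capC U κ g ⊆ U' := by
    intro y hy
    have hy' : ChI ({x | κ x = κ g} ∩ U) g y := hy
    clear hy
    induction hy' with
    | refl => exact hgU'
    | @tail p q hp hs ih =>
      have hq : q ∈ capC U κ g := hp.tail hs
      have ih' := ih
      rw [hU'] at ih' ⊢
      exact compT_step ih' hs.1 ⟨hs.2.2, hN q hq⟩
  refine ⟨hgU', hCU', fun y hy => ?_⟩
  have h1 : ChI (capC U κ g) g y := compT_chain self_mem_compT hy
  have h2 : capC U κ g ⊆ {x | κ' x = κ' g} ∩ U' := fun z hz =>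
    ⟨hκ z (capC_le hgU hz).1, hCU' hz⟩
  exact ChI.mono h2 h1

section Step

variable {ω : Cfg} {R N : Set (ℤ × ℤ)} {A A' : UE × Bool} {m x m' x' : ℕ}

/-- The label of a common side of the old and the new fresh region. -/
theorem nxt_label (Nx : Nxt ω R U A m x N U' A' m' x') (hA : Cyc U A m) (hx : x < m) {w v : ℕ}
    (hwm : w < m) (hwx : w ≠ x) (hv : v < m')
    (h : side U' A' v = side U A w) : (w < x → v < x') ∧ (x < w → v = 0 ∨ x' < v) := by
  have hout : ahead (rv (side U A w)) ∉ U := (bd_side hA.bd w).2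
  have hne : v ≠ x' := by
    rintro rfl
    rw [Nx.tgt] at h
    exact hwx (hA.inj x hx w hwm h).symm
  constructor
  · intro hw
    by_contra hcon
    rcases Nx.lt v (by omega) hv with ⟨i, hi, him, he⟩ | ⟨hi, -⟩
    · have := hA.inj i him w hwm (he.symm.trans h)
      omega
    · rw [h] at hi
      exact hout hi
  · intro hw
    by_contra hcon
    push Not at hcon
    rcases Nx.rt v (by omega) (by omega) with ⟨i, hi, him, he⟩ | ⟨hi, -⟩
    · have := hA.inj i (by omega) w hwm (he.symm.trans h)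
      omega
    · rw [h] at hi
      exact hout hi

/-- **An old side whose cap was not visited keeps its link and its label.** -/
theorem anchor (Nx : Nxt ω R U A m x N U' A' m' x') (hA : Cyc U A m) (hx : x < m)
    (hU' : U' = compT (U \ N) (ahead (side U A x)))
    (hb : ahead (side U A x) ∉ N) {c : UE × Bool} (hc : ahead c ∈ U') {w : ℕ} (hwm : w < m)
    (hwx : w ≠ x) (hl : LinkK U κ c (side U A w))
    (hN : ahead (rv c) ∈ U → ∀ f ∈ capC U κ (ahead (rv c)), f ∉ N)
    (hκ : ∀ y, κ y = κ (ahead (rv c)) → κ' y = κ' (ahead (rv c))) :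
    ∃ v < m', side U' A' v = side U A w ∧ LinkK U' κ' c (side U' A' v) ∧ (w < x → v < x') ∧
      (x < w → v = 0 ∨ x' < v) := by
  have hbU : ahead (side U A x) ∈ U \ N := ⟨(bd_side hA.bd x).1, hb⟩
  have hsub : U' ⊆ U \ N := by rw [hU']; exact compT_sub hbU
  have key : ahead (side U A w) ∈ U' ∧ LinkK U' κ' c (side U A w) := by
    rcases hl with rfl | ⟨h1, h2⟩
    · exact ⟨hc, Or.inl rfl⟩
    · obtain ⟨h3, h4, h5⟩ := capC_keep (κ' := κ') hU' hc (adjF_ahead c).symm h1 (hN h1) hκ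
      exact ⟨h4 h2, Or.inr ⟨h3, h5 h2⟩⟩
  obtain ⟨v, hv, hvw⟩ := Nx.st.cyc.exists_index
    (show BD U' (side U A w) from ⟨key.1, fun h => (bd_side hA.bd w).2 (hsub h).1⟩)
  have hlab := nxt_label Nx hA hx hwm hwx hv hvw
  exact ⟨v, hv, hvw, by rw [hvw]; exact key.2, hlab.1, hlab.2⟩

end Step

/-- **The link to the new tip.** `E`: the entered set. -/
theorem tip_link {E : Set (ℤ × ℤ)} {c A' : UE × Bool} (hE : EConn E) (hEU : E ⊆ U')
    (hκ : ∀ y ∈ E, ∀ z ∈ E, κ' y = κ' z) (hc : ahead (rv c) ∈ E) (hA : ahead A' ∈ E) :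
    LinkK U' κ' c A' := by
  refine Or.inr ⟨hEU hc, ?_⟩
  have h : E ⊆ {x | κ' x = κ' (ahead (rv c))} ∩ U' := fun z hz => ⟨hκ z hz _ hc, hEU hz⟩
  exact ChI.mono h (hE _ hc _ hA)

end Pool.Agent.SixB.Top
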