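import Pool.Agent.Lib.SixB.S8MoveI
import Pool.Agent.Lib.SixB.S8KerBad

/-!
# Step 8, unit 8H: all the data of one move, and the two estimates

* `Dom.tru s g u U κ`: the true domain of the stop, `Dom.regS`: the regular stop of the move (`StopR`);
* `MoveIn`: the hypotheses of `move_est` for one past;
* `MoveIn.est`: the law of the record; `MoveIn.dead`: the stop is regular off an event of small
  probability. The constants are the same.
-/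

set_option autoImplicit false

namespace Pool.Agent.SixB.Mv

open Finset Pool.Agent.Perc Pool.Agent.Perc6 Pool.Agent.PercT Pool.Agent.Perc6.C2Aux
open Pool.Agent.Perc.Tips Pool.Agent.SixB Pool.Agent.SixB.Top Pool.Agent.SixB.Blow
open Pool.Agent.SixB.CloK

/-- The component of the tip in `U` without the barrier and the caps. -/
def Dom.tru {ι : Type} (s : Dom) (g : Grd) (u : ℕ) (U : Set (ℤ × ℤ)) (κ : ℤ × ℤ → ι) :
    Set (ℤ × ℤ) :=
  domT U (blow u (s.bar g))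
    (capK U κ (gR (blow u (s.dom g)) (subE u s.A 0) (blow u (s.bar g)) (u * s.n₁ g)))
    (capK U κ (gL (blow u (s.dom g)) (subE u s.A 0) (blow u (s.bar g)) (u * s.n₂ g)))
    (subE u s.A 0)

/-- The regular stop of a move at the time `σ` of the strand from the unit edge `a`. -/
def Dom.regS {ι : Type} (s : Dom) (g : Grd) (u : ℕ) (U : Set (ℤ × ℤ)) (κ : ℤ × ℤ → ι) (a : UE)
    (ω : Cfg) (σ : ℕ) : Prop :=
  StopR a U (s.tru g u U κ) (blow u (s.bar g))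
    (runE (blow u (s.inr g)) (subE u s.A 0) (u * s.n₁ g) (u * s.n₂ g)) ω σ

/-- **The data of one move.** -/
structure MoveIn {ι κt : Type} (s : Dom) (g : Grd) (m n u mU : ℕ) (Ξ : Cfg → Cfg)
    (R U : Set (ℤ × ℤ)) (κ : ℤ × ℤ → ι) (κ₂ : Finset (ℤ × ℤ) → ℤ × ℤ → κt) (d : ℤ)
    (τ : UE × Bool) (v : ℤ × ℤ) (E ρ : ℤ) (W : Finset (ℤ × ℤ)) : Prop where
  run : s.RunK g m n
  hu : 0 < u
  con : Top.EConn (s.dom g)
  mvd : Mvd U (blow u s.P) (blow u (s.dom g)) κ d (subE u s.A 0) (u * m) (u * s.p g)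
    (u * (s.q g + 1) - 1)
  cyc : Cyc U τ mU
  /-- the true tip is in the true domain, for all removed sets -/
  tin : ∀ K ∈ s.fam g, ahead τ ∈ domT U (blow u (s.yK g K))
    (capK U κ (gR (blow u (s.dom g)) (subE u s.A 0) (blow u (s.yK g K)) (u * s.n1 g K)))
    (capK U κ (gL (blow u (s.dom g)) (subE u s.A 0) (blow u (s.yK g K)) (u * s.n2 g K)))
    (subE u s.A 0)
  /-- the data of the kernel -/
  dom : ∀ K ∈ s.fam g, ∀ T M s' t u' k, TSide U (blow u s.P) (blow u (s.dom g)) κ (u * g.a)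
    (u * g.b) (u * g.L) (subE u s.A 0) τ (u * m) (u * s.p g) (u * (s.q g + 1) - 1)
    (blow u (s.yK g K)) T (u * cyl (s.gK g K) s.A) (u * s.n1 g K) (u * s.n2 g K) mU M s' t u' k →
    MvDom κt Ξ 0 R U τ.1 T M (vert (T : Set (ℤ × ℤ)) τ) (s' + 1) k
      (k + (u * s.n2 g K - u * s.n1 g K)) t (fsF (blow u (s.gK g K)))
      (u * cyl (s.gK g K) s.A)
      (vert (inn (blow u (s.dom g)) (subE u s.A 0) (blow u (s.yK g K))) (subE u s.A 0))
      (u * s.n1 g K) (u * s.n2 g K) (κ₂ K) v E ρ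
  /-- the strand leaves the true domain -/
  stop : ∀ ξ, ∃ i, fa (pth (Ξ ξ) τ.1 i) ∈ U ∧ fa (pth (Ξ ξ) τ.1 i) ∉ s.tru g u U κ
  UW : U ⊆ W

/-- **The two estimates for one move.** -/
theorem moveIn_est : ∃ C α : ℝ, 0 < C ∧ 0 < α ∧ ∀ {ι κt : Type} {s : Dom} {g : Grd}
    {m n u mU : ℕ} {Ξ : Cfg → Cfg} {R U : Set (ℤ × ℤ)} {κ : ℤ × ℤ → ι}
    {κ₂ : Finset (ℤ × ℤ) → ℤ × ℤ → κt} {d : ℤ} {τ : UE × Bool} {v : ℤ × ℤ} {E ρ : ℤ}
    {W : Finset (ℤ × ℤ)}, MoveIn s g m n u mU Ξ R U κ κ₂ d τ v E ρ W →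
    (∀ {av : Cfg → ℤ × ℤ → Prop} {rn' : Cfg → ℕ},
      (∀ r : ℕ, ∀ K ∈ s.fam g, ∀ ξ, StopE τ.1 (blow u (s.P \ s.inr g))
        (runE (blow u (s.inr g)) (subE u s.A 0) (u * s.n₁ g) (u * s.n₂ g)) (Ξ ξ) →
        ((∀ i ∈ K, av (Ξ ξ) i) ∧ rn' (Ξ ξ) = r ↔ Ξ ξ ∈ MoveEv τ.1 (blow u (s.P \ s.inr g))
          (blow u (Mv.fcs g.nm (s.inr g) K))
          (runE (blow u (s.inr g)) (subE u s.A 0) (u * s.runI g r) (u * s.runI g (r + 1))))) →
      ∀ a : Rec, |pr W {ξ | RunRec (s.fam g) av rn' (Ξ ξ) = (s.kst g a, a.2)} - s.lawq g u a| ≤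
        2 ^ (s.fam g).card * (C * ((E : ℝ) / ρ) ^ α)) ∧
    pr W {ξ | ¬ ∃ σ, s.regS g u U κ τ.1 (Ξ ξ) σ} ≤ C * ((E : ℝ) / ρ) ^ α := by
  obtain ⟨C1, α1, hC1, hα1, h1⟩ := move_est
  obtain ⟨C2, α2, hC2, hα2, h2⟩ := pr_not_stopR_fam
  refine ⟨max C1 C2, min α1 α2, lt_max_of_lt_left hC1, lt_min hα1 hα2, ?_⟩
  intro ι κt s g m n u mU Ξ R U κ κ₂ d τ v E ρ W h
  have h0 : (∅ : Finset (ℤ × ℤ)) ∈ s.fam g := Dom.empty_mem
  have hrun0 := h.run.runS_blow h.hu h.con h0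
  have hlt0 : u * s.n2 g ∅ < u * cyl (s.gK g ∅) s.A :=
    Nat.mul_lt_mul_of_pos_left (h.run.lt_cyl h0) h.hu
  -- the numbers `E`, `ρ`
  obtain ⟨T, M, s', t, u', k, hS⟩ := exists_tside h.mvd hrun0 hlt0 h.cyc (h.tin ∅ h0)
  have hM := h.dom ∅ h0 T M s' t u' k hS
  have hE := hM.hE
  have hρ0 : (0 : ℝ) < ρ := by exact_mod_cast (lt_of_lt_of_le hE hM.Eρ)
  have hE0 : (0 : ℝ) < E := by exact_mod_cast hE
  have hq1 : (E : ℝ) / ρ ≤ 1 := by
    rw [div_le_one hρ0]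
    exact_mod_cast hM.Eρ
  have hq0 : 0 < (E : ℝ) / ρ := by positivity
  have e1 : C1 * ((E : ℝ) / ρ) ^ α1 ≤ max C1 C2 * ((E : ℝ) / ρ) ^ (min α1 α2) :=
    mul_le_mul (le_max_left _ _)
      (Real.rpow_le_rpow_of_exponent_ge hq0 hq1 (min_le_left _ _)) (by positivity)
      (le_max_of_le_left hC1.le)
  have e2 : C2 * ((E : ℝ) / ρ) ^ α2 ≤ max C1 C2 * ((E : ℝ) / ρ) ^ (min α1 α2) :=
    mul_le_mul (le_max_right _ _)
      (Real.rpow_le_rpow_of_exponent_ge hq0 hq1 (min_le_right _ _)) (by positivity)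
      (le_max_of_le_left hC1.le)
  refine ⟨fun hrec a => ?_, ?_⟩
  · refine (h1 h.run h.hu h.con h.mvd h.cyc h.tin h.dom h.stop h.UW hrec a).trans ?_
    exact mul_le_mul_of_nonneg_left e1 (by positivity)
  · refine le_trans ?_ e2
    have eb : blow u (s.yK g ∅) = blow u (s.bar g) := by rw [Dom.yK_empty]
    have hinr : inn (blow u (s.dom g)) (subE u s.A 0) (blow u (s.bar g)) = blow u (s.inr g) :=
      h.run.blow_inn' h.hu
    have eN1 : u * s.n1 g ∅ = u * s.n₁ g := by rw [Dom.n1_empty]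
    have eN2 : u * s.n2 g ∅ = u * s.n₂ g := by rw [Dom.n2_empty]
    have ht := h.tin ∅ h0
    have hd := h.dom ∅ h0
    rw [eb, eN1, eN2] at ht hrun0
    rw [eb, eN1, eN2] at hd
    rw [eN2] at hlt0
    have key := h2 (Ξ := Ξ) (R := R) (W := W) h.mvd h.cyc hrun0 hlt0 ht hd h.stop h.UW
    rw [hinr] at key
    exact key

end Pool.Agent.SixB.Mv
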