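import Pool.Agent.Lib.SixB.S8MvData
import Pool.Agent.Lib.SixB.S8StateA

/-!
# Step 8: the data of a move of the scan

The instance of `S8MvData` for a domain with `Dom.Val` and a record with `Dom.RecOk`. `N` = the faces
visited in the move, `U` = the fresh faces (or a component of them) before the move.

* `Dom.RegMv`: the facts on a regular move; `RegMv.data`: its data;
* `RegMv.app`, `Val.app_void`: the rest `P \ V` is an approximation of `U \ N`, the classes of the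
  faces outside `P` are not changed, the entered set is in one class;
* `App.nxP`: the new set, in a smaller set of fresh faces;
* `RegMv.esc`, `Val.esc_void_rest`: `P \ V` has no holes.
-/

set_option autoImplicit false

namespace Pool.Agent.SixB.Mv

open Pool.Agent.Perc Pool.Agent.Perc6 Pool.Agent.Perc6.C2Aux Pool.Agent.Perc.Tips
open Pool.Agent.SixB.Top
open Pool.Agent.SixB.Blow (cl adj_cl exists_cl mem_blow)

namespace Dom

variable {s : Dom} {g : Grd} {ρ : Rec} {u : ℕ} {U N : Set (ℤ × ℤ)} {r : ℤ}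
  {κ : ℤ × ℤ → ℤ × ℤ}

/-- The size of the entered set. -/
theorem Val.ent_diam (h : s.Val g) (hρ : s.RecOk g ρ) :
    ∀ x ∈ s.ent g ρ, ∀ y ∈ s.ent g ρ, |x.1 - y.1| < 2 * g.L ∧ |x.2 - y.2| < 2 * g.L := by
  rw [ent_eq]
  exact entV_diam h.bdD (h.stp_mem hρ) fun x y hxy => gc_diam h.hL hxy

/-- The coarse data of the move. -/
theorem Val.cmv (h : s.Val g) (hρ : s.RecOk g ρ) :
    CMv s.P (s.dom g) (s.bar g) (s.ent g ρ) g.a g.b g.L where
  DP := fun _ hf => (h.dom_sub hf).1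
  exit := by
    intro f hf k hk hkD hfk
    obtain ⟨B, hB1, hB2⟩ := adjF_dir hfk
    have h1 := h.ex_bar (C := B) ⟨by rw [hB1]; exact hf, by rw [hB2]; exact hkD⟩
      (Or.inl (by rw [hB2]; exact hk))
    rwa [hB1] at h1
  ZD := h.bar_sub
  sat := h.sat
  EZ := h.ent_sub_bar hρ
  Ec := h.econn_ent hρ
  Ed := h.ent_diam hρ

/-- The facts on the visited faces `N` in a regular move with the record `ρ`. -/
structure RegMv (s : Dom) (g : Grd) (ρ : Rec) (u : ℕ) (U N : Set (ℤ × ℤ)) : Prop where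
  val : s.Val g
  hu : 0 < u
  nv : ¬ s.Void g
  hρ : s.RecOk g ρ
  hK : s.kst g ρ = s.kmx g (cl u '' N)
  PU : blow u s.P ⊆ U
  NP : ∀ f ∈ N, f ∈ blow u s.P → f ∈ blow u (s.inr g)
  last : ∃ y ∈ N, y ∈ blow u (s.inr g) ∧ ∃ z ∈ blow u (s.ent g ρ), AdjF z y

namespace RegMv

variable (H : RegMv s g ρ u U N)

include H

theorem fcs_eq : s.fcs g ρ = Mv.fcs (gc g.a g.b g.L) (s.inr g)
    (Mv.kmx (gc g.a g.b g.L) (s.inr g) (s.bar g) (blkN g.a g.b g.L g.M s.tip) (cl u '' N)) := by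
  have h1 : s.kmx g (cl u '' N) = Mv.kmx (gc g.a g.b g.L) (s.inr g) (s.bar g)
      (blkN g.a g.b g.L g.M s.tip) (cl u '' N) := kmx_eq s g
  rw [← h1, ← H.hK]
  rfl

/-- **The data of the regular move.** -/
theorem data : MoveData U (blow u s.P) (blow u (s.dom g)) (blow u (s.bar g)) (blow u (s.inr g))
    (blow u (s.fcs g ρ)) N (blow u (s.ent g ρ)) (blow u (s.P \ s.rem g ρ)) (U \ N)
    (gc (u * g.a) (u * g.b) (u * g.L)) (u * g.L) := by
  have h := (H.val.cmv H.hρ).reg H.hu H.val.hL (fun c hc => H.val.full_mem H.nv hc)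
    (H.val.tipm H.nv) H.PU H.NP H.last
  rw [rem_reg s g H.nv, H.fcs_eq]
  exact h

/-- **The approximation after the regular move.** -/
theorem app (A : App U (blow u s.P) κ r) :
    ∃ κ' : ℤ × ℤ → ℤ × ℤ, App (U \ N) (blow u (s.P \ s.rem g ρ)) κ' (r + 7 * (u * g.L)) ∧
      (∀ x, x ∉ blow u s.P → ∀ y, y ∉ blow u s.P → (κ' x = κ' y ↔ κ x = κ y)) ∧
      ∀ x ∈ blow u (s.ent g ρ), ∀ y ∈ blow u (s.ent g ρ), κ' x = κ' y :=
  A.update2 H.data

/-- **The rest has no holes.** -/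
theorem esc {ω : Cfg} {e : UE} {σ : ℕ} (hN : N = (vs ω e 0 σ : Set (ℤ × ℤ)))
    (h0 : fb e ∉ blow u s.P) : Esc (s.P \ s.rem g ρ) := by
  have h := H.data
  rw [hN] at h
  exact esc_rest H.hu h H.val.fin H.val.esc h0

/-- The recorded cells are not visited. -/
theorem not_fcs {f : ℤ × ℤ} (hf : f ∈ N) : f ∉ blow u (s.fcs g ρ) := fun h => H.data.KN f h hf

/-- The visited faces of `P` are removed. -/
theorem vis_rem {f : ℤ × ℤ} (hf : f ∈ N) (hP : f ∈ blow u s.P) : f ∈ blow u (s.rem g ρ) := by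
  by_contra hcon
  exact (H.data.P'U' (show f ∈ blow u (s.P \ s.rem g ρ) from ⟨hP, hcon⟩)).2 hf

end RegMv

/-! ### Void moves -/

section Void

variable (h : s.Val g) (hu : 0 < u) (hv : s.Void g)

theorem recOk_void (hv : s.Void g) : s.RecOk g ρ := fun h => absurd hv h

theorem ahead_mem_ent (hv : s.Void g) : ahead s.A ∈ s.ent g ρ := by
  have h1 := stp_mem_ent s g ρ
  rwa [stp_void hv] at h1

include h hu hv

/-- **The data of the void move.** -/
theorem Val.mv_void (hPU : blow u s.P ⊆ U) :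
    MoveData U (blow u s.P) (blow u (s.dom g)) (blow u (s.bar g)) ∅ ∅ ∅ (blow u (s.ent g ρ))
      (blow u (s.P \ s.rem g ρ)) U (gc (u * g.a) (u * g.b) (u * g.L)) (u * g.L) := by
  rw [rem_void s g hv]
  exact (h.cmv (recOk_void hv)).void hu h.hL hPU (ahead_mem_ent hv) h.bdA.2

/-- **The approximation after the void move.** -/
theorem Val.app_void (A : App U (blow u s.P) κ r) :
    ∃ κ' : ℤ × ℤ → ℤ × ℤ, App U (blow u (s.P \ s.rem g ρ)) κ' (r + 7 * (u * g.L)) ∧
      (∀ x, x ∉ blow u s.P → ∀ y, y ∉ blow u s.P → (κ' x = κ' y ↔ κ x = κ y)) ∧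
      ∀ x ∈ blow u (s.ent g ρ), ∀ y ∈ blow u (s.ent g ρ), κ' x = κ' y :=
  A.update2 (h.mv_void hu hv A.sub)

theorem Val.esc_void_rest : Esc (s.P \ s.rem g ρ) :=
  esc_rest_void hu (h.mv_void (U := blow u s.P) (ρ := ρ) hu hv Set.Subset.rfl) h.fin h.esc

end Void

end Dom

/-! ### The new set -/

/-- **The new set as an approximation**, in a smaller set of fresh faces. -/
theorem _root_.Pool.Agent.SixB.App.nxP {s : Dom} {g : Grd} {ρ : Rec} {u : ℕ} {U U' : Set (ℤ × ℤ)}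
    {r : ℤ} {κ : ℤ × ℤ → ℤ × ℤ} (A : App U (blow u (s.P \ s.rem g ρ)) κ r) (hu : 0 < u)
    (hB : ahead s.B ∈ s.P \ s.rem g ρ) (hPU : blow u (s.nxP g ρ) ⊆ U') (hU : U' ⊆ U) :
    App U' (blow u (s.nxP g ρ)) κ r :=
  A.part ((uoc_compT hB).blow (by exact_mod_cast hu)) hPU hU

end Pool.Agent.SixB.Mv
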