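import Pool.Agent.Lib.SixB.S8MoveE
import Pool.Agent.Lib.SixB.S8MoveIn
import Pool.Agent.Lib.SixB.S8InvG
import Pool.Agent.Lib.SixB.S8InvU
import Pool.Agent.Lib.SixB.S8InvN
import Pool.Agent.Lib.SixB.S8MvInst
import Pool.Agent.Lib.SixB.S8StateA
import Pool.Agent.Lib.SixB.S8LabHyp
import Pool.Agent.Lib.SixB.S8LabU
import Pool.Agent.Lib.SixB.S8NearEnd

/-!
# Step 8, unit 8H: one regular move for one configuration

`Rg`: the data of a regular move (a coarse domain `s` with a grid `g`, the true domain `U` with the tip side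
`τ` and the target side number `x`, the approximation, the labels, the regular stop at the time `σ`, the
record `ρ` which is read correctly). Consequences: the visited faces `N`, the new true domain, the data
`MoveData`, the new approximation, the target, the new coarse domain.
-/

set_option autoImplicit false

namespace Pool.Agent.SixB.Mv

open Finset Pool.Agent.Perc Pool.Agent.Perc6 Pool.Agent.PercT Pool.Agent.Perc6.C2Aux
open Pool.Agent.Perc.Tips Pool.Agent.SixB Pool.Agent.SixB.Top Pool.Agent.SixB.Blow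
open Pool.Agent.SixB.CloK

/-- The data of a regular move. -/
structure Rg (s : Dom) (g : Grd) (u : ℕ) (ζ : Cfg) (U : Set (ℤ × ℤ)) (κ : ℤ × ℤ → ℤ × ℤ)
    (r : ℤ) (τ : UE × Bool) (mU x : ℕ) (lA lB : ℤ) (σ : ℕ) (ρ : Rec) : Prop where
  val : s.Val g
  nv : ¬ s.Void g
  hu : 0 < u
  tst : TSt ζ Set.univ U τ mU x
  app : App U (blow u s.P) κ r
  lab : ∃ mP i₁ j₁ t j₂ i₂, LabP U (blow u s.P) κ (subE u s.A 0) τ (subE u s.B 0) r r mP mU x
    i₁ j₁ t j₂ i₂
  tgt : TgG U (sqF r (ahead (subE u s.B 0))) (ahead (subE u s.B 0)) (inF U τ x)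
  offA : OffL g.a g.b g.L lA s.tip
  offB : OffL g.a g.b g.L lB (lf s.B)
  far : 3 * r + 6 < u * lA
  farB : 3 * r + 6 ≤ u * lB
  stop : s.regS g u U κ τ.1 ζ σ
  rok : s.RecOk g ρ
  kst : s.kst g ρ = s.kmx g (Blow.cl u '' (vs ζ τ.1 0 σ : Set (ℤ × ℤ)))
  ent : fa (pth ζ τ.1 σ) ∈ blow u (s.ent g ρ)

namespace Rg

variable {s : Dom} {g : Grd} {u : ℕ} {ζ : Cfg} {U : Set (ℤ × ℤ)} {κ : ℤ × ℤ → ℤ × ℤ}
  {r : ℤ} {τ : UE × Bool} {mU x : ℕ} {lA lB : ℤ} {σ : ℕ} {ρ : Rec}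
  (h : Rg s g u ζ U κ r τ mU x lA lB σ ρ)

include h

theorem runK : s.RunK g (cyl (s.dom g) s.A) (cyl (s.inr g) s.A) := h.val.runK h.nv

theorem mvd : Mvd U (blow u s.P) (blow u (s.dom g)) κ r (subE u s.A 0) (u * cyl (s.dom g) s.A)
    (u * s.p g) (u * (s.q g + 1) - 1) := h.val.mvd h.hu h.app h.tst.fin h.tst.ec h.tst.esc

theorem runS : RunS (u * g.a) (u * g.b) (u * g.L) (blow u (s.dom g)) (subE u s.A 0) (u * s.p g)
    (u * (s.q g + 1) - 1) (blow u (s.bar g)) (u * cyl (s.dom g) s.A) (u * cyl (s.inr g) s.A)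
    (u * s.n₁ g) (u * s.n₂ g) :=
  runS_blowR h.hu h.val.conD (h.val.runS h.nv)

theorem lt : u * s.n₂ g < u * cyl (s.inr g) s.A := by
  have h1 := h.runK.lt_cyl (K := ∅) Dom.empty_mem
  rw [Dom.n2_empty, Dom.gK_empty] at h1
  exact Nat.mul_lt_mul_of_pos_left h1 h.hu

theorem inr_eq : inn (blow u (s.dom g)) (subE u s.A 0) (blow u (s.bar g)) = blow u (s.inr g) :=
  h.runK.blow_inn' h.hu

theorem offA' : OffL (u * g.a) (u * g.b) (u * g.L) (u * lA) (lf (subE u s.A 0)) := by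
  have := h.offA.mag (m := (u : ℤ)) (by exact_mod_cast h.hu)
  rwa [lf_subE_zero]

theorem offB' : OffL (u * g.a) (u * g.b) (u * g.L) (u * lB) (lf (subE u s.B 0)) := by
  have := h.offB.mag (m := (u : ℤ)) (by exact_mod_cast h.hu)
  rwa [lf_subE_zero]

theorem hL' : 0 < (u : ℤ) * g.L := mul_pos (by exact_mod_cast h.hu) h.val.hL

theorem bdB : BD (blow u s.P) (subE u s.B 0) :=
  bd_subE (by exact_mod_cast h.hu) h.val.bdB le_rfl (by exact_mod_cast h.hu)

/-- The faces near the target side are in one cell. -/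
theorem cellB {f : ℤ × ℤ} (hf : f ∈ sqF (2 * r + 2) (ahead (subE u s.B 0))) :
    gc (u * g.a) (u * g.b) (u * g.L) f =
      gc (u * g.a) (u * g.b) (u * g.L) (ahead (subE u s.B 0)) := by
  have h1 := h.farB
  have hd := h.app.d_pos
  have h2 : IsCor (ahead (subE u s.B 0)) (lf (subE u s.B 0)) := isCor_in_lf _
  unfold IsCor at h2
  unfold sqF at hf
  rw [Set.mem_setOf_eq, abs_le, abs_le] at hf
  exact h.offB'.gc_eq h.hL' (by omega) (by omega) (by omega) (by omega) (by omega) (by omega)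
    (by omega) (by omega)

/-- The vertices of the stop arc are far from the target side. -/
theorem farV {i : ℕ} (h1 : u * s.n₁ g ≤ i) (h2 : i ≤ u * s.n₂ g) :
    ¬ LC.InB (lf (subE u s.B 0)) (3 * r + 5)
      (vert (inn (blow u (s.dom g)) (subE u s.A 0) (blow u (s.bar g))) (subE u s.A 0) i) :=
  not_inB_of_far (h.runS.far_vert h.offB' h1 h2) (by have := h.farB; omega)

/-- The vertices of the stop arc are far from the tip side. -/
theorem farA {i : ℕ} (h1 : u * s.n₁ g ≤ i) (h2 : i ≤ u * s.n₂ g) :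
    ¬ LC.InB (lf (subE u s.A 0)) (3 * r + 6)
      (vert (inn (blow u (s.dom g)) (subE u s.A 0) (blow u (s.bar g))) (subE u s.A 0) i) :=
  not_inB_of_far (h.runS.far_vert h.offA' h1 h2) h.far

theorem hex : ∀ i < u * cyl (s.dom g) s.A, side (blow u (s.dom g)) (subE u s.A 0) i =
    subE u s.B 0 → u * s.p g ≤ i ∧ i ≤ u * (s.q g + 1) - 1 :=
  h.val.hex h.hu le_rfl (by exact_mod_cast h.hu)

theorem tgt_notMem : ahead (subE u s.B 0) ∉
    inn (blow u (s.dom g)) (subE u s.A 0) (blow u (s.bar g)) :=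
  tgt_nG h.mvd h.runS h.bdB h.hex

/-- The true tip side is a side of the true domain of the move. -/
theorem tin : ahead τ ∈ s.tru g u U κ := by
  obtain ⟨mP, i₁, j₁, t, j₂, i₂, X⟩ := h.lab
  have hd := h.app.d_pos
  have hlt := h.runS.con.lt
  have X' := X.labI h.mvd h.runS h.lt h.hex
    (fun f hf => h.cellB (by
      unfold sqF at hf ⊢
      rw [Set.mem_setOf_eq] at hf ⊢
      exact ⟨hf.1.trans (by omega), hf.2.trans (by omega)⟩))
    (not_inB_mono (h.farA le_rfl hlt.le) (by omega))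
    (not_inB_mono (h.farA hlt.le le_rfl) (by omega))
  exact (X'.tip h.mvd h.runS h.lt h.tst.cyc
    (not_inB_mono (h.farA le_rfl hlt.le) (by omega))
    (not_inB_mono (h.farA hlt.le le_rfl) (by omega))).1

theorem tside : ∃ T M s' t u' K, TSide U (blow u s.P) (blow u (s.dom g)) κ (u * g.a) (u * g.b)
    (u * g.L) (subE u s.A 0) τ (u * cyl (s.dom g) s.A) (u * s.p g) (u * (s.q g + 1) - 1)
    (blow u (s.bar g)) T (u * cyl (s.inr g) s.A) (u * s.n₁ g) (u * s.n₂ g) mU M s' t u' K :=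
  exists_tside h.mvd h.runS h.lt h.tst.cyc h.tin

/-- The faces of the square around the target side are in other classes than the faces with a corner on
the stop arc. -/
theorem cls_ne {f f' : ℤ × ℤ} (hf : f ∈ sqF r (ahead (subE u s.B 0))) {i : ℕ}
    (h1 : u * s.n₁ g ≤ i) (h2 : i ≤ u * s.n₂ g)
    (hf' : IsCor f' (vert (inn (blow u (s.dom g)) (subE u s.A 0) (blow u (s.bar g)))
      (subE u s.A 0) i)) : κ f ≠ κ f' := by
  have h3 : IsCor f (f.1 + 1, f.2 + 1) := by unfold IsCor; omega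
  have h4 : LC.InB (lf (subE u s.B 0)) (r + 2) (f.1 + 1, f.2 + 1) := by
    have h5 : IsCor (ahead (subE u s.B 0)) (lf (subE u s.B 0)) := isCor_in_lf _
    unfold sqF at hf
    rw [Set.mem_ofPred_eq, abs_le, abs_le] at hf
    unfold IsCor at h5
    unfold LC.InB
    omega
  exact class_ne h.app h3 hf' h4 (h.farV h1 h2) (by have := h.app.d_pos; omega)

/-- The component of the target in the square is outside of the true domain of the move. -/
theorem tgg : ∀ f, ChI (U ∩ sqF r (ahead (subE u s.B 0))) (inF U τ x) f → f ∉ s.tru g u U κ := by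
  obtain ⟨T, M, s', t, u', K, S⟩ := h.tside
  have hlt := h.runS.con.lt
  have hpos := h.runS.con.pos
  intro f hf hT
  refine S.tgg_notMem h.mvd h.bdB h.tgt_notMem h.tgt (cap_out fun f' _ hf' => ⟨?_, ?_⟩)
    (fun i h1 h2 hin => ?_) f hf ?_
  · refine h.cls_ne hf' le_rfl hlt.le ?_
    have e : vert (inn (blow u (s.dom g)) (subE u s.A 0) (blow u (s.bar g))) (subE u s.A 0)
        (u * s.n₁ g) = rg (side (inn (blow u (s.dom g)) (subE u s.A 0) (blow u (s.bar g)))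
        (subE u s.A 0) (u * s.n₁ g - 1)) := by
      rw [← vert_succ, show u * s.n₁ g - 1 + 1 = u * s.n₁ g by omega]
    rw [e]
    exact isCor_out_rg _
  · exact h.cls_ne hf' hlt.le le_rfl (isCor_out_lf _)
  · exact h.cls_ne hin h1 h2.le (isCor_in_lf _) rfl
  · exact Finset.mem_coe.1 (by rw [S.eqT]; exact hT)

/-- The visited faces. -/
theorem vis_tru : ∀ f ∈ (vs ζ τ.1 0 σ : Set (ℤ × ℤ)), f ∈ U → f ∈ s.tru g u U κ :=
  mem_of_vs h.stop

theorem tgt_step : inF U τ x ∉ (vs ζ τ.1 0 σ : Set (ℤ × ℤ)) ∧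
    ahead (subE u s.B 0) ∉ (vs ζ τ.1 0 σ : Set (ℤ × ℤ)) ∧
    TgG (compT (U \ (vs ζ τ.1 0 σ : Set (ℤ × ℤ))) (inF U τ x)) (sqF r (ahead (subE u s.B 0)))
      (ahead (subE u s.B 0)) (inF U τ x) ∧
    compT (U \ (vs ζ τ.1 0 σ : Set (ℤ × ℤ))) (inF U τ x) =
      compT (U \ (vs ζ τ.1 0 σ : Set (ℤ × ℤ))) (ahead (subE u s.B 0)) :=
  h.tgt.step fun f hf hN => h.tgg f hf (h.vis_tru f hN
    (ChI.mem (S := U ∩ sqF r (ahead (subE u s.B 0))) ⟨h.tgt.1, h.tgt.2.1⟩ hf).1)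

/-- The true domain of the move misses the barrier. -/
theorem tru_bar : ∀ f ∈ s.tru g u U κ, f ∉ blow u (s.bar g) := by
  obtain ⟨T, M, s', t, u', K, S⟩ := h.tside
  intro f hf
  exact S.notY h.mvd f (Finset.mem_coe.1 (by rw [S.eqT]; exact hf))

theorem pos : 0 < σ := by
  rcases Nat.eq_zero_or_pos σ with h0 | h0
  · exfalso
    have h1 := h.stop.mem
    rw [h0] at h1
    change fa τ.1 ∈ blow u (s.bar g) at h1
    rw [h.tst.fwd] at h1
    exact h.tru_bar _ h.tin h1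
  · exact h0

theorem vis_P : ∀ f ∈ (vs ζ τ.1 0 σ : Set (ℤ × ℤ)), f ∈ blow u s.P → f ∈ blow u (s.inr g) := by
  intro f hf hfP
  have h1 := (h.mvd.closure h.runS.att h.runS.tip h.runS.con h.lt).1 f
    (h.vis_tru f hf (h.app.sub hfP)) hfP
  rwa [h.inr_eq] at h1

/-- The last visited face is in the inner domain. -/
theorem last : fb (pth ζ τ.1 σ) ∈ (vs ζ τ.1 0 σ : Set (ℤ × ℤ)) ∧
    fb (pth ζ τ.1 σ) ∈ blow u (s.inr g) ∧ AdjF (fa (pth ζ τ.1 σ)) (fb (pth ζ τ.1 σ)) := by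
  have hpos := h.pos
  obtain ⟨i, -, -, hi⟩ := h.stop.side
  have hbd : BD (blow u (s.inr g)) (subE u s.A 0) := by
    have := h.runS.bdG
    rwa [h.inr_eq] at this
  have hB := bd_side hbd i
  rw [← hi]
  have h1 : fa (side (blow u (s.inr g)) (subE u s.A 0) i).1 ∈ blow u (s.bar g) := by
    rw [hi]
    exact h.stop.mem
  have h2 : ahead (side (blow u (s.inr g)) (subE u s.A 0) i) ∉ blow u (s.bar g) := by
    intro hh
    exact (h.val.inr_sub h.nv hB.1).2 hh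
  by_cases hp : par (rg (side (blow u (s.inr g)) (subE u s.A 0) i)) = 0
  · exact absurd ((fwd_of_par hp).1 ▸ h1) h2
  · obtain ⟨e1, e2⟩ := bwd_of_par hp
    refine ⟨?_, by rw [e2]; exact hB.1, by rw [e1, e2]; exact adjF_ahead _⟩
    rw [hi]
    refine Finset.mem_coe.2 (mem_vs.2 ⟨σ - 1, Nat.zero_le _, by omega, ?_⟩)
    rw [← fb_pth_succ, Nat.sub_add_cancel hpos]

/-- The data of helper85. -/
theorem reg : s.RegMv g ρ u U (vs ζ τ.1 0 σ : Set (ℤ × ℤ)) where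
  val := h.val
  hu := h.hu
  nv := h.nv
  hρ := h.rok
  hK := h.kst
  PU := h.app.sub
  NP := h.vis_P
  last := ⟨_, h.last.1, h.last.2.1, _, h.ent, h.last.2.2⟩

theorem fb_out : fb τ.1 ∉ U := by
  have h1 := (fwd_of_par (par_rg_of_fwd h.tst.fwd)).2
  rw [h1]
  exact h.tst.cyc.bd.2

theorem esc : Esc (s.P \ s.rem g ρ) := h.reg.esc rfl fun hh => h.fb_out (h.app.sub hh)

theorem ok (hE : ¬ s.End g ρ) : (s.nx g ρ).Ok := h.val.ok_next h.rok hE h.esc

/-- The blow up of the new set. -/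
theorem blow_nxP (hE : ¬ s.End g ρ) : blow u (s.nxP g ρ) =
    compT (blow u s.P \ ((inn (blow u (s.dom g)) (subE u s.A 0) (blow u (s.bar g)) \
      blow u (s.fcs g ρ)) ∪ blow u (s.ent g ρ))) (ahead (subE u s.B 0)) := by
  have hu : (0 : ℤ) < u := by exact_mod_cast h.hu
  have e := cl_ahead_zero h.hu s.B
  have h1 : Blow.cl (u : ℤ) (ahead (subE u s.B 0)) ∈ s.P \ s.rem g ρ := by
    rw [e]
    exact h.val.tgt_rem hE
  have h2 := compT_blow hu (F := s.P \ s.rem g ρ) h1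
  rw [e] at h2
  unfold Dom.nxP
  rw [← h2, h.inr_eq, Dom.rem_reg _ _ h.nv]
  rfl

/-- **The new true domain.** -/
theorem move (hE : ¬ s.End g ρ) :
    blow u (s.nxP g ρ) ⊆ compT (U \ (vs ζ τ.1 0 σ : Set (ℤ × ℤ))) (inF U τ x) ∧
    blow u (s.ent g ρ) ⊆ compT (U \ (vs ζ τ.1 0 σ : Set (ℤ × ℤ))) (inF U τ x) ∧
    fa (pth ζ τ.1 σ) ∈ compT (U \ (vs ζ τ.1 0 σ : Set (ℤ × ℤ))) (inF U τ x) := by
  have hu : (0 : ℤ) < u := by exact_mod_cast h.hu
  obtain ⟨k1, k2⟩ := h.val.nxA_spec h.rok hE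
  have hS : StopR τ.1 U (s.tru g u U κ) (blow u (s.bar g))
      (runE (inn (blow u (s.dom g)) (subE u s.A 0) (blow u (s.bar g))) (subE u s.A 0)
        (u * s.n₁ g) (u * s.n₂ g)) ζ σ := by
    rw [h.inr_eq]
    exact h.stop
  have hm := h.mvd.move_true h.runS h.lt (T₀ := s.tru g u U κ) rfl h.tin h.tst.fwd hS
    (E := blow u (s.ent g ρ)) (K := blow u (s.fcs g ρ))
    (blow_subset (h.val.ent_sub_bar h.rok)) (econn_blow hu (h.val.econn_ent h.rok)) h.ent
    (fun f hf => ⟨by rw [h.inr_eq]; exact hf.1, fun hN => h.reg.not_fcs hN hf⟩)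
    (B := subE u s.B 0) h.bdB.1 h.tgt_notMem
    ⟨subE u (s.nxA g ρ) 0, by
      rw [← h.blow_nxP hE]
      exact bd_subE hu k1 le_rfl hu, by
      rw [mem_blow, cl_ahead_rv hu _ le_rfl hu]
      exact k2⟩
    (y := ahead (subE u s.B 0)) (h.app.sub h.bdB.1)
    (h.tgg _ h.tgt.2.2) (Or.inl rfl)
  rw [← h.blow_nxP hE, ← h.tgt_step.2.2.2] at hm
  exact hm.2.2.2.2

/-- **The new approximation.** -/
theorem app_next (hE : ¬ s.End g ρ) :
    ∃ κ' : ℤ × ℤ → ℤ × ℤ, App (compT (U \ (vs ζ τ.1 0 σ : Set (ℤ × ℤ))) (inF U τ x))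
      (blow u (s.nxP g ρ)) κ' (r + 7 * (u * g.L)) ∧
      (∀ x, x ∉ blow u s.P → ∀ y, y ∉ blow u s.P → (κ' x = κ' y ↔ κ x = κ y)) ∧
      ∀ x ∈ blow u (s.ent g ρ), ∀ y ∈ blow u (s.ent g ρ), κ' x = κ' y := by
  obtain ⟨κ', h1, h2, h3⟩ := h.reg.app h.app
  exact ⟨κ', h1.nxP h.hu (h.val.tgt_rem hE) (h.move hE).1
    (compT_sub ⟨h.tgt.1, h.tgt_step.1⟩), h2, h3⟩

/-- The data of the move for the new domain. -/
theorem data_next (hE : ¬ s.End g ρ) :
    MoveData U (blow u s.P) (blow u (s.dom g)) (blow u (s.bar g)) (blow u (s.inr g))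
      (blow u (s.fcs g ρ)) (vs ζ τ.1 0 σ : Set (ℤ × ℤ)) (blow u (s.ent g ρ))
      (blow u (s.nxP g ρ)) (compT (U \ (vs ζ τ.1 0 σ : Set (ℤ × ℤ))) (inF U τ x))
      (gc (u * g.a) (u * g.b) (u * g.L)) (u * g.L) :=
  Pool.Agent.SixB.Mv.MoveData.restrict h.reg.data ((uoc_compT (h.val.tgt_rem hE)).blow (by exact_mod_cast h.hu))
    (h.move hE).1 (compT_sub ⟨h.tgt.1, h.tgt_step.1⟩)

theorem dcell : ∀ f ∈ blow u (s.dom g), ∀ k ∈ blow u s.P, AdjF f k →
    gc (u * g.a) (u * g.b) (u * g.L) f = gc (u * g.a) (u * g.b) (u * g.L) k →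
    k ∈ blow u (s.dom g) := dcell_f h.hu h.val.dcell

theorem satE : Sat (blow u (s.dom g)) (gc (u * g.a) (u * g.b) (u * g.L))
    (blow u (s.ent g ρ)) := sat_f' h.hu (h.val.sat_ent h.rok)

theorem hcell : ∀ f ∈ sqF (r + 1) (ahead (subE u s.B 0)), gc (u * g.a) (u * g.b) (u * g.L) f =
    gc (u * g.a) (u * g.b) (u * g.L) (ahead (subE u s.B 0)) := by
  intro f hf
  have := h.app.d_pos
  exact h.cellB (by
    unfold sqF at hf ⊢
    rw [Set.mem_ofPred_eq] at hf ⊢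
    exact ⟨hf.1.trans (by omega), hf.2.trans (by omega)⟩)

theorem mem_nxP : ahead (subE u s.B 0) ∈ blow u (s.nxP g ρ) := by
  rw [mem_blow, cl_ahead_zero h.hu]
  exact self_mem_compT

/-- The target is closed in the new domain. -/
theorem hcl (hE : ¬ s.End g ρ) : ∀ f ∈ blow u (s.nxP g ρ), ∀ k ∈ blow u s.P,
    f ∈ sqF (r + 1) (ahead (subE u s.B 0)) → k ∈ sqF (r + 1) (ahead (subE u s.B 0)) → AdjF f k →
      k ∈ blow u (s.nxP g ρ) := fun f hf k hk h1 h2 ha =>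
  cl_cell (h.data_next hE) h.dcell h.satE hf hk ha ((h.hcell f h1).trans (h.hcell k h2).symm)

/-- The class parts behind the sides at the target stay. -/
theorem hc (hE : ¬ s.End g ρ) {mP i₁ j₁ t j₂ i₂ : ℕ}
    (X : LabP U (blow u s.P) κ (subE u s.A 0) τ (subE u s.B 0) r r mP mU x i₁ j₁ t j₂ i₂) {i : ℕ}
    (h1 : j₁ ≤ i + 1) (h2 : i ≤ j₂ + 1)
    (hg : ahead (rv (side (blow u s.P) (subE u s.A 0) i)) ∈ U) :
    ∀ f ∈ capC U κ (ahead (rv (side (blow u s.P) (subE u s.A 0) i))),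
      f ∈ compT (U \ (vs ζ τ.1 0 σ : Set (ℤ × ℤ))) (inF U τ x) := by
  have M := h.data_next hE
  rw [← h.inr_eq] at M
  exact X.hc_mvd h.mvd h.runS h.lt M (fun f hf hfU => h.vis_tru f hf hfU) compT_closed
    h.dcell h.satE h.hcell h.mem_nxP h.tgt_notMem h1 h2 hg

/-- The labels of the sides of the new true domain. -/
theorem hl {U' : Set (ℤ × ℤ)} {m' x' : ℕ}
    (Nx : Nxt ζ Set.univ U τ mU x (vs ζ τ.1 0 σ : Set (ℤ × ℤ)) U' (dirE (pth ζ τ.1 σ)) m' x') :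
    ∀ w < mU, ∀ w' < m', side U' (dirE (pth ζ τ.1 σ)) w' = side U τ w → (w' < x' ↔ w < x) := by
  intro w hw w' hw' he
  by_cases hwx : w = x
  · subst hwx
    have := Nx.st.cyc.inj _ hw' _ Nx.st.lt (he.trans Nx.tgt.symm)
    omega
  · obtain ⟨h1, h2⟩ := nxt_label Nx h.tst.cyc h.tst.lt hw hwx hw' he
    refine ⟨fun h3 => ?_, h1⟩
    by_contra hcon
    rcases h2 (by omega) with h4 | h4
    · subst h4
      have h5 := (bd_side h.tst.cyc.bd w).2
      rw [← he] at h5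
      apply h5
      change ahead (rv (dirE (pth ζ τ.1 σ))) ∈ U
      rw [ahead_rv_dirE]
      exact h.app.sub (h.val.dom_sub (h.val.inr_sub h.nv h.last.2.1).1).1
    · omega

end Rg

end Pool.Agent.SixB.Mv
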