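import Pool.Agent.Lib.SixB.S8Poly
import Pool.Agent.Lib.SixB.S8Lay

/-!
# Step 8, unit 8H: the thick barrier of a move

`D` is the domain of a move (a region with the contour `sc D`, started at the tip side `A`), the stop
arc is the interval `p, …, q` of indices of its contour, `κ` gives the cells of the new grid. The
barrier `Bar` consists of the pieces (components of cell ∩ domain) with a side on the stop arc.
-/

set_option autoImplicit false

namespace Pool.Agent.SixB.Mv

open Pool.Agent.Perc Pool.Agent.Perc6 Pool.Agent.Perc6.C2Aux Pool.Agent.Perc.Tips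
open Pool.Agent.SixB.Top

variable {ι : Type*}

/-- The face of `D` at the side with index `i`. -/
noncomputable def inF (D : Set (ℤ × ℤ)) (A : UE × Bool) (i : ℕ) : ℤ × ℤ := ahead (side D A i)

/-- The faces of `D` at the sides `p, …, q`. -/
def onO (D : Set (ℤ × ℤ)) (A : UE × Bool) (p q : ℕ) : Set (ℤ × ℤ) :=
  {f | ∃ i, p ≤ i ∧ i ≤ q ∧ inF D A i = f}

/-- The piece of `g`: the component of `g` in the intersection of its cell with `D`. -/
def pc (D : Set (ℤ × ℤ)) (κ : ℤ × ℤ → ι) (g : ℤ × ℤ) : Set (ℤ × ℤ) :=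
  compT (D ∩ {x | κ x = κ g}) g

/-- The barrier. -/
def Bar (D : Set (ℤ × ℤ)) (A : UE × Bool) (p q : ℕ) (κ : ℤ × ℤ → ι) : Set (ℤ × ℤ) :=
  {f | ∃ g ∈ onO D A p q, f ∈ pc D κ g}

/-- The component of `D \ Y` at the side `A`. -/
def inn (D : Set (ℤ × ℤ)) (A : UE × Bool) (Y : Set (ℤ × ℤ)) : Set (ℤ × ℤ) :=
  compT (D \ Y) (ahead A)

/-- `Y` together with the classes outside `P` which touch it (a common corner is enough). -/
def plusC (P : Set (ℤ × ℤ)) (cl : ℤ × ℤ → ι) (Y : Set (ℤ × ℤ)) : Set (ℤ × ℤ) :=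
  Y ∪ {g | g ∉ P ∧ ∃ g', g' ∉ P ∧ cl g' = cl g ∧ ∃ f ∈ Y, ∃ v, IsCor f v ∧ IsCor g' v}

variable {D P Y K : Set (ℤ × ℤ)} {A : UE × Bool} {p q m : ℕ} {κ : ℤ × ℤ → ι} {f g : ℤ × ℤ}

theorem bd_iff_side {B : UE × Bool} : BD D B ↔ ahead B ∈ D ∧ ahead (rv B) ∉ D := Iff.rfl

theorem inF_mem (h : BD D A) (i : ℕ) : inF D A i ∈ D := (bd_side h i).1

theorem onO_sub (h : BD D A) : onO D A p q ⊆ D := by
  rintro f ⟨i, -, -, rfl⟩
  exact inF_mem h i

theorem self_mem_pc : g ∈ pc D κ g := self_mem_compT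

theorem pc_sub (hg : g ∈ D) : pc D κ g ⊆ D := fun _ h =>
  (compT_sub (show g ∈ D ∩ {x | κ x = κ g} from ⟨hg, rfl⟩) h).1

theorem pc_cell (hg : g ∈ D) (h : f ∈ pc D κ g) : κ f = κ g :=
  (compT_sub (show g ∈ D ∩ {x | κ x = κ g} from ⟨hg, rfl⟩) h).2

theorem pc_eq (hg : g ∈ D) (h : f ∈ pc D κ g) : pc D κ f = pc D κ g := by
  unfold pc
  rw [pc_cell hg h]
  exact compT_eq (show g ∈ D ∩ {x | κ x = κ g} from ⟨hg, rfl⟩) h

/-- Neighbours in the same cell are in the same piece. -/
theorem pc_adj (hf : f ∈ D) (hg : g ∈ D) (h : AdjF f g) (hk : κ f = κ g) : pc D κ f = pc D κ g :=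
  (pc_eq hf (compT_step self_mem_compT h ⟨hg, hk.symm⟩)).symm

theorem econn_pc (hg : g ∈ D) : EConn (pc D κ g) :=
  econn_compT (show g ∈ D ∩ {x | κ x = κ g} from ⟨hg, rfl⟩)

theorem onO_sub_bar : onO D A p q ⊆ Bar D A p q κ := fun _ h => ⟨_, h, self_mem_pc⟩

theorem bar_sub (h : BD D A) : Bar D A p q κ ⊆ D := by
  rintro f ⟨g, hg, hf⟩
  exact pc_sub (onO_sub h hg) hf

/-- The barrier is a union of pieces. -/
theorem pc_sub_bar (h : BD D A) (hf : f ∈ Bar D A p q κ) : pc D κ f ⊆ Bar D A p q κ := by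
  obtain ⟨g, hg, hfg⟩ := hf
  rw [pc_eq (onO_sub h hg) hfg]
  exact fun x hx => ⟨g, hg, hx⟩

theorem bar_sat (h : BD D A) (hf : f ∈ Bar D A p q κ) (hg : g ∈ D) (ha : AdjF f g)
    (hk : κ f = κ g) : g ∈ Bar D A p q κ := by
  apply pc_sub_bar h hf
  rw [pc_adj (bar_sub h hf) hg ha hk]
  exact self_mem_pc

/-- Every face of the barrier is joined in the barrier to a face at the stop arc, inside its piece. -/
theorem bar_touch (h : BD D A) (hf : f ∈ Bar D A p q κ) :
    ∃ g ∈ onO D A p q, f ∈ pc D κ g ∧ ChI (Bar D A p q κ) f g := by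
  obtain ⟨g, hg, hfg⟩ := hf
  refine ⟨g, hg, hfg, ?_⟩
  have h1 : ChI (pc D κ g) f g := econn_pc (onO_sub h hg) f hfg g self_mem_pc
  exact h1.mono (fun (x : ℤ × ℤ) (hx : x ∈ pc D κ g) => (⟨g, hg, hx⟩ : x ∈ Bar D A p q κ))

/-- `Y` is attached to the stop arc: it contains the faces at the stop arc and each of its faces is
joined to one of them inside `Y`. -/
structure Att (D : Set (ℤ × ℤ)) (A : UE × Bool) (p q : ℕ) (Y : Set (ℤ × ℤ)) : Prop where
  sub : Y ⊆ D
  on : onO D A p q ⊆ Y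
  ch : ∀ f ∈ Y, ∃ g ∈ onO D A p q, ChI Y f g

theorem att_bar (h : BD D A) : Att D A p q (Bar D A p q κ) :=
  ⟨bar_sub h, onO_sub_bar, fun _ hf => by
    obtain ⟨g, hg, -, hc⟩ := bar_touch h hf
    exact ⟨g, hg, hc⟩⟩

/-- Adding an attached set of cells. -/
theorem att_union (hY : Att D A p q Y) (hK : K ⊆ D) (hc : ∀ f ∈ K, ∃ g ∈ Y, ChI (Y ∪ K) f g) :
    Att D A p q (Y ∪ K) := by
  refine ⟨Set.union_subset hY.sub hK, hY.on.trans Set.subset_union_left, ?_⟩
  rintro f (hf | hf)
  · obtain ⟨g, hg, hch⟩ := hY.ch f hf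
    exact ⟨g, hg, hch.mono Set.subset_union_left⟩
  · obtain ⟨g, hg, hch⟩ := hc f hf
    obtain ⟨g', hg', hch'⟩ := hY.ch g hg
    exact ⟨g', hg', hch.trans (hch'.mono Set.subset_union_left)⟩

/-- Removing an attached set leaves a region without holes. -/
theorem Att.esc (hY : Att D A p q Y) (hA : BD D A) (he : Esc D) : Esc (D \ Y) := by
  refine he.diff fun f hf => ?_
  obtain ⟨g, ⟨j, -, -, hj⟩, hch⟩ := hY.ch f hf
  have hb := bd_side hA j
  refine ⟨ahead (rv (side D A j)), hb.2, ?_⟩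
  have h1 : Relation.ReflTransGen (StepC (D \ Y)) f g :=
    hch.stepC fun x hx h => h.2 hx
  refine h1.tail ⟨?_, fun h => hb.2 h.1⟩
  rw [← hj]
  exact (adjF_ahead _).symm

theorem inn_sub (hA : ahead A ∈ D \ Y) : inn D A Y ⊆ D \ Y := compT_sub hA

theorem self_mem_inn : ahead A ∈ inn D A Y := self_mem_compT

theorem econn_inn (hA : ahead A ∈ D \ Y) : EConn (inn D A Y) := econn_compT hA

theorem bd_inn (h : BD D A) (hA : ahead A ∉ Y) : BD (inn D A Y) A :=
  ⟨self_mem_inn, fun hh => h.2 (inn_sub ⟨h.1, hA⟩ hh).1⟩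

/-- A boundary side of the inner domain is a boundary side of `D` or has a face of `Y` behind it. -/
theorem inn_bd_cases (h : BD D A) (hA : ahead A ∉ Y) {B : UE × Bool} (hB : BD (inn D A Y) B) :
    (BD D B ∧ ahead (rv B) ∉ D) ∨ ahead (rv B) ∈ Y := by
  by_cases h1 : ahead (rv B) ∈ D
  · by_cases h2 : ahead (rv B) ∈ Y
    · exact Or.inr h2
    · exact absurd ⟨h1, h2⟩ (compT_bd_out hB)
  · exact Or.inl ⟨⟨(inn_sub ⟨h.1, hA⟩ hB.1).1, h1⟩, h1⟩

/-! ### The order of the sides of the inner domain -/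

/-- The contour of `D` from the side `A` has `m` sides. -/
structure Cyc (D : Set (ℤ × ℤ)) (A : UE × Bool) (m : ℕ) : Prop where
  bd : BD D A
  pos : 0 < m
  per : side D A m = A
  inj : ∀ i < m, ∀ j < m, side D A i = side D A j → i = j
  ctr : Ctr D m (vert D A)

theorem exists_cyc (hF : D.Finite) (hc : EConn D) (he : Esc D) (hA : BD D A) : ∃ m, Cyc D A m := by
  obtain ⟨m, hm, hper, hinj, hctr⟩ := exists_dctr hF hc he hA
  exact ⟨m, hA, hm, hper, hinj, hctr⟩

theorem Arcs.cyc {X : Set (ℤ × ℤ)} (h : Arcs D A X m p q) : Cyc D A m :=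
  ⟨h.bd, h.pos, h.per, h.inj, h.ctr⟩

theorem sideA (A : UE × Bool) : IsSide (ahead A) A.1 := isSide_ahead A.1 A.2

theorem sideB (A : UE × Bool) : IsSide (ahead (rv A)) A.1 := by
  obtain ⟨a, d⟩ := A
  exact isSide_ahead a (!d)

theorem ahead_ne (A : UE × Bool) : ahead A ≠ ahead (rv A) := fun h => (adjF_ahead A).1 h.symm

/-- Two directed sides with the same unit edge have the same two faces. -/
theorem faces_of_fst {B C : UE × Bool} (h : B.1 = C.1) : ahead B = ahead C ∨ ahead B = ahead (rv C) :=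
  side_two (ahead_ne C) (sideA C) (sideB C) (h ▸ sideA B)

theorem faces_of_fst' {B C : UE × Bool} (h : B.1 = C.1) :
    ahead (rv B) = ahead C ∨ ahead (rv B) = ahead (rv C) :=
  side_two (ahead_ne C) (sideA C) (sideB C) (h ▸ sideB B)

theorem const_of_step {α : Type*} {f : ℕ → α} {a b : ℕ} (h : ∀ i, a ≤ i → i < b → f i = f (i + 1))
    {i : ℕ} (h1 : a ≤ i) (h2 : i ≤ b) : f i = f a := by
  induction i, h1 using Nat.le_induction with
  | base => rfl
  | succ i hi ih => rw [← h i hi (by omega), ih (by omega)]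

/-- **The order lemma.** `r` is the index of a side of the inner domain with a face of `Y` behind it,
`x` the index of a side which is also a side of `D`, with index `c` there. -/
theorem contig_side (hD : Cyc D A m) (hY : Att D A p q Y) (hq : q < m) (hA : ahead A ∉ Y) {m' : ℕ}
    (hG : Cyc (inn D A Y) A m') {r x c : ℕ} (hr : r < m') (hrY : outF (inn D A Y) A r ∈ Y)
    (hx : x < m') (hx0 : 0 < x) (hc : c < m) (hxc : side (inn D A Y) A x = side D A c) :
    (x < r → c < p) ∧ (r < x → q < c) := by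
  classical
  have hAD : ahead A ∈ D \ Y := ⟨hD.bd.1, hA⟩
  set G := inn D A Y with hGdef
  have hGD : G ⊆ D \ Y := inn_sub hAD
  obtain ⟨g, ⟨j, hpj, hjq, hjg⟩, hch⟩ := hY.ch _ hrY
  have hgY : g ∈ Y := hY.on ⟨j, hpj, hjq, hjg⟩
  -- the chain in `Y`
  obtain ⟨-, TY, hTY, hTYpar⟩ := chain_toggle (F := Yᶜ) (f := outF G A r) (g := g)
    (by simpa using hrY) (hch.stepC (by simp))
  -- the chain in `G`
  have hGc : ChI G (ahead A) (inF G A r) :=
    econn_inn hAD _ self_mem_inn _ (bd_side hG.bd r).1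
  obtain ⟨-, TG, hTG, hTGpar⟩ := chain_toggle (F := Gᶜ) (f := ahead A) (g := inF G A r)
    (by simpa using (self_mem_inn : ahead A ∈ inn D A Y)) (hGc.stepC (by simp))
  set s := side D A j with hs
  set t := side G A r with ht
  have hsbd : BD D s := bd_side hD.bd j
  have htbd : BD G t := bd_side hG.bd r
  have hsY : ahead s ∈ Y := by
    rw [← hjg] at hgY
    exact hgY
  have htY : ahead (rv t) ∈ Y := hrY
  set M : Set UE := symmDiff (symmDiff {A.1} TG) (symmDiff (symmDiff {t.1} TY) {s.1}) with hM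
  have hbdpar : ∀ B : UE × Bool, BD D B → ∀ k ∈ D, parAt {B.1} k = ind2 (k = ahead B) := by
    intro B hB k hk
    rw [parAt_side (ahead_ne B) (sideA B) (sideB B) k, ind2_neg (P := k = ahead (rv B))]
    · ring
    · rintro rfl
      exact hB.2 hk
  have hMev : ∀ f ∈ D, EvenAt M f := by
    intro f hf
    rw [evenAt_iff, hM, parAt_symmDiff, parAt_symmDiff, parAt_symmDiff, parAt_symmDiff,
      hbdpar A hD.bd f hf, hbdpar s hsbd f hf, hTGpar, hTYpar,
      parAt_side (ahead_ne t) (sideA t) (sideB t) f]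
    have e1 : inF G A r = ahead t := rfl
    have e2 : outF G A r = ahead (rv t) := rfl
    have e3 : g = ahead s := hjg.symm
    rw [e1, e2, e3]
    generalize ind2 (f = ahead A) = x1
    generalize ind2 (f = ahead t) = x2
    generalize ind2 (f = ahead (rv t)) = x3
    generalize ind2 (f = ahead s) = x4
    revert x1 x2 x3 x4
    decide
  obtain ⟨Φ, hΦ⟩ := hD.ctr.pot M hMev
  -- membership on the contour of `D`
  have hmD : ∀ B, BD D B → (B.1 ∈ M ↔ (B = A ↔ ¬ B = s)) := by
    intro B hB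
    have h1 : B.1 ∉ TG := fun h => hTG _ h (ahead (rv B)) (fun hh => hB.2 (hGD hh).1) (sideB B)
    have h2 : B.1 ∉ TY := fun h => hTY _ h (ahead (rv B)) (fun hh => hB.2 (hY.sub hh)) (sideB B)
    have h3 : B.1 ≠ t.1 := by
      intro h
      rcases faces_of_fst' h with h' | h'
      · exact hB.2 (h' ▸ (hGD htbd.1).1)
      · exact hB.2 (h' ▸ hY.sub htY)
    have h4 : B.1 = A.1 ↔ B = A := ⟨fun h => hB.eq_of_fst hD.bd h, fun h => by rw [h]⟩
    have h5 : B.1 = s.1 ↔ B = s := ⟨fun h => hB.eq_of_fst hsbd h, fun h => by rw [h]⟩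
    simp only [hM, Set.mem_symmDiff, Set.mem_singleton_iff, h4, h5, h1, h2, h3]
    tauto
  -- membership on the contour of `G`
  have hmG : ∀ B, BD G B → (B.1 ∈ M ↔ (B = A ↔ ¬ B = t)) := by
    intro B hB
    have h1 : B.1 ∉ TG := fun h => hTG _ h (ahead (rv B)) hB.2 (sideB B)
    have h2 : B.1 ∉ TY := fun h => hTY _ h (ahead B) (hGD hB.1).2 (sideA B)
    have h3 : B.1 ≠ s.1 := by
      intro h
      rcases faces_of_fst h with h' | h'
      · exact (hGD hB.1).2 (h' ▸ hsY)
      · exact hsbd.2 (h' ▸ (hGD hB.1).1)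
    have h4 : B.1 = A.1 ↔ B = A := ⟨fun h => hB.eq_of_fst hG.bd h, fun h => by rw [h]⟩
    have h5 : B.1 = t.1 ↔ B = t := ⟨fun h => hB.eq_of_fst htbd h, fun h => by rw [h]⟩
    simp only [hM, Set.mem_symmDiff, Set.mem_singleton_iff, h4, h5, h1, h2, h3]
    tauto
  have hj0 : j ≠ 0 := by
    rintro rfl
    exact hA (by simpa [hs, side] using hsY)
  have hr0 : r ≠ 0 := by
    rintro rfl
    exact hD.bd.2 (hY.sub (by simpa [ht, side] using htY))
  have hjm : j < m := by omega
  have hAt : A ≠ t := by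
    intro h
    exact hr0 (hG.inj r hr 0 hG.pos (by rw [← ht, ← h]; rfl))
  have hAs : A ≠ s := by
    intro h
    exact hj0 (hD.inj j hjm 0 hD.pos (by rw [← hs, ← h]; rfl))
  -- steps
  have hjoin : ∀ (F : Set (ℤ × ℤ)) (B : UE × Bool) (i : ℕ), BD F (side F B i) →
      F ⊆ D → ((side F B i).1 ∈ M ↔ Φ (vert F B i) ≠ Φ (vert F B (i + 1))) := by
    intro F B i hb hFD
    exact hΦ.joins (hFD hb.1) (sideA _) (joins_side i)
  have hstD : ∀ i < m, i ≠ 0 → i ≠ j → Φ (vert D A i) = Φ (vert D A (i + 1)) := by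
    intro i hi h0 hij
    by_contra hne
    have h1 := (hmD _ (bd_side hD.bd i)).1 ((hjoin D A i (bd_side hD.bd i) subset_rfl).2 hne)
    have h2 : side D A i ≠ A := fun h => h0 (hD.inj i hi 0 hD.pos h)
    have h3 : side D A i ≠ s := fun h => hij (hD.inj i hi j hjm h)
    tauto
  have hstG : ∀ i < m', i ≠ 0 → i ≠ r → Φ (vert G A i) = Φ (vert G A (i + 1)) := by
    intro i hi h0 hir
    by_contra hne
    have h1 := (hmG _ (bd_side hG.bd i)).1
      ((hjoin G A i (bd_side hG.bd i) fun y hy => (hGD hy).1).2 hne)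
    have h2 : side G A i ≠ A := fun h => h0 (hG.inj i hi 0 hG.pos h)
    have h3 : side G A i ≠ t := fun h => hir (hG.inj i hi r hr h)
    tauto
  have hA01 : Φ (vert D A 0) ≠ Φ (vert D A 1) :=
    (hjoin D A 0 (bd_side hD.bd 0) subset_rfl).1 ((hmD _ (bd_side hD.bd 0)).2
      (by have : side D A 0 = A := rfl
          rw [this]; tauto))
  have hv0 : vert G A 0 = vert D A 0 := rfl
  have hv1 : vert G A 1 = vert D A 1 := by
    rw [vert_succ, vert_succ]; rfl
  have hDm : vert D A m = vert D A 0 := hD.ctr.close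
  have hGm : vert G A m' = vert G A 0 := hG.ctr.close
  -- values
  have hD1 : ∀ i, 1 ≤ i → i ≤ j → Φ (vert D A i) = Φ (vert D A 1) := by
    intro i h1 h2
    exact const_of_step (f := fun i => Φ (vert D A i)) (a := 1) (b := j)
      (fun i h3 h4 => hstD i (by omega) (by omega) (by omega)) h1 h2
  have hD0 : ∀ i, j + 1 ≤ i → i ≤ m → Φ (vert D A i) = Φ (vert D A 0) := by
    have h := fun i (h1 : j + 1 ≤ i) (h2 : i ≤ m) =>
      const_of_step (f := fun i => Φ (vert D A i)) (a := j + 1) (b := m)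
        (fun i h3 h4 => hstD i (by omega) (by omega) (by omega)) h1 h2
    intro i h1 h2
    rw [← hDm]
    exact (h i h1 h2).trans (h m (by omega) le_rfl).symm
  have hG1 : ∀ i, 1 ≤ i → i ≤ r → Φ (vert G A i) = Φ (vert G A 1) := by
    intro i h1 h2
    exact const_of_step (f := fun i => Φ (vert G A i)) (a := 1) (b := r)
      (fun i h3 h4 => hstG i (by omega) (by omega) (by omega)) h1 h2
  have hG0 : ∀ i, r + 1 ≤ i → i ≤ m' → Φ (vert G A i) = Φ (vert G A 0) := by
    have h := fun i (h1 : r + 1 ≤ i) (h2 : i ≤ m') =>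
      const_of_step (f := fun i => Φ (vert G A i)) (a := r + 1) (b := m')
        (fun i h3 h4 => hstG i (by omega) (by omega) (by omega)) h1 h2
    intro i h1 h2
    rw [← hGm]
    exact (h i h1 h2).trans (h m' (by omega) le_rfl).symm
  have hcv : vert G A x = vert D A c := by
    unfold vert
    rw [hxc]
  have hcno : ¬ (p ≤ c ∧ c ≤ q) := by
    rintro ⟨h1, h2⟩
    have h3 : inF D A c ∈ Y := hY.on ⟨c, h1, h2, rfl⟩
    have h4 : inF D A c ∈ G := by
      unfold inF
      rw [← hxc]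
      exact (bd_side hG.bd x).1
    exact (hGD h4).2 h3
  have hc0 : c ≠ 0 := by
    rintro rfl
    have : side G A x = side G A 0 := hxc
    have := hG.inj x hx 0 hG.pos this
    omega
  constructor
  · intro hxr
    have h1 : Φ (vert D A c) = Φ (vert D A 1) := by
      rw [← hcv, hG1 x hx0 hxr.le, hv1]
    have h2 : c ≤ j := by
      by_contra h
      exact hA01 ((hD0 c (by omega) hc.le).symm.trans h1)
    omega
  · intro hrx
    have h1 : Φ (vert D A c) = Φ (vert D A 0) := by
      rw [← hcv, hG0 x (by omega) hx.le, hv0]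
    have h2 : j < c := by
      by_contra h
      exact hA01 (h1.symm.trans (hD1 c (by omega) (by omega)))
    omega

theorem Cyc.exists_index (h : Cyc D A m) {B : UE × Bool} (hB : BD D B) :
    ∃ c < m, side D A c = B := by
  obtain ⟨i, hi, hj⟩ := h.ctr.all _ hB.bdU
  exact ⟨i, hi, (bd_side h.bd i).eq_of_fst hB (Joins.uniq (joins_side i) hj)⟩

theorem side_zero : side D A 0 = A := rfl

theorem Cyc.vert_m (h : Cyc D A m) : vert D A m = vert D A 0 := h.ctr.close

/-- **The contour of the inner domain**: an initial part of the contour of `D`, the sides with a face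
of `Y` behind them, a final part of the contour of `D`. -/
structure Contig (D : Set (ℤ × ℤ)) (A : UE × Bool) (p q : ℕ) (Y : Set (ℤ × ℤ)) (m m' N₁ N₂ : ℕ) :
    Prop where
  cyc : Cyc (inn D A Y) A m'
  pos : 0 < N₁
  lt : N₁ < N₂
  le : N₂ ≤ m'
  fst : ∀ i < N₁, side (inn D A Y) A i = side D A i
  mid : ∀ i, N₁ ≤ i → i < N₂ → outF (inn D A Y) A i ∈ Y
  lst : ∀ i, N₂ ≤ i → i < m' → side (inn D A Y) A i = side D A (i + m - m')
  lep : N₁ ≤ p
  ltq : q + m' < N₂ + m

theorem exists_contig (hF : D.Finite) (he : Esc D) (hD : Cyc D A m) (hY : Att D A p q Y)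
    (hpq : p ≤ q) (hq : q < m) (hA : ahead A ∉ Y) :
    ∃ m' N₁ N₂, Contig D A p q Y m m' N₁ N₂ := by
  classical
  have hAD : ahead A ∈ D \ Y := ⟨hD.bd.1, hA⟩
  set G := inn D A Y with hGdef
  have hGD : G ⊆ D \ Y := inn_sub hAD
  have hGD' : G ⊆ D := fun y hy => (hGD hy).1
  have hGA : BD G A := bd_inn hD.bd hA
  obtain ⟨m', hG⟩ : ∃ m', Cyc G A m' :=
    exists_cyc (hF.subset hGD') (econn_inn hAD)
      (esc_compT (hF.subset Set.sdiff_subset) (hY.esc hD.bd he) hAD) hGA
  have hcase : ∀ i, outF G A i ∉ D ∨ outF G A i ∈ Y := by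
    intro i
    rcases inn_bd_cases hD.bd hA (bd_side hG.bd i) with h | h
    · exact Or.inl h.2
    · exact Or.inr h
  have hoY : ∀ i, outF G A i ∈ Y → outF G A i ∈ D := fun i h => hY.sub h
  -- there is a side with a face of `Y` behind it
  have hex : ∃ r, outF G A r ∈ Y := by
    by_contra hno
    push_neg at hno
    have h1 := interval_of_out (D := G) (T := D) hGD' hGA (k := p)
      (fun i _ => (hcase i).resolve_right (hno i))
    have h2 : (sc D)^[p] A = (sc G)^[p] A := (h1 p le_rfl).1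
    have h3 : inF D A p ∈ Y := hY.on ⟨p, le_rfl, hpq, rfl⟩
    have h4 : inF D A p ∈ G := by
      unfold inF side
      rw [h2]
      exact (bd_side hG.bd p).1
    exact (hGD h4).2 h3
  have hmod : ∃ r < m', outF G A r ∈ Y := by
    obtain ⟨r, hr⟩ := hex
    obtain ⟨c, hc, hcr⟩ := hG.exists_index (bd_side hG.bd r)
    exact ⟨c, hc, by unfold outF at hr ⊢; rwa [hcr]⟩
  set N₁ := Nat.find hmod with hN₁
  obtain ⟨hN₁m, hN₁Y⟩ := Nat.find_spec hmod
  have hbefore : ∀ i < N₁, outF G A i ∉ D := by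
    intro i hi
    refine (hcase i).resolve_right fun h => ?_
    exact Nat.find_min hmod hi ⟨by omega, h⟩
  set S := (Finset.range m').filter fun i => outF G A i ∈ Y with hS
  have hSne : S.Nonempty := ⟨N₁, Finset.mem_filter.2 ⟨Finset.mem_range.2 hN₁m, hN₁Y⟩⟩
  set l := S.max' hSne with hl
  obtain ⟨hl1, hl2⟩ := Finset.mem_filter.1 (Finset.max'_mem S hSne)
  rw [Finset.mem_range, ← hl] at hl1
  rw [← hl] at hl2
  have hN₁l : N₁ ≤ l := Nat.find_min' hmod ⟨hl1, hl2⟩
  have hafter : ∀ i, l < i → i < m' → outF G A i ∉ D := by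
    intro i hi him
    refine (hcase i).resolve_right fun h => ?_
    exact absurd (Finset.le_max' S i (Finset.mem_filter.2 ⟨Finset.mem_range.2 him, h⟩)) (by omega)
  have hN₁0 : 0 < N₁ := by
    rcases Nat.eq_zero_or_pos N₁ with h | h
    · exfalso
      have : outF G A 0 ∈ D := hoY _ (by rw [← h]; exact hN₁Y)
      exact hD.bd.2 this
    · exact h
  have hfst : ∀ i < N₁, side G A i = side D A i := by
    intro i hi
    have h1 := interval_of_out (D := G) (T := D) hGD' hGA (k := N₁ - 1)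
      (fun i hi => hbefore i (by omega))
    exact (h1 i (by omega)).1.symm
  have hlep : N₁ ≤ p := by
    by_contra h
    have h1 := hfst p (by omega)
    have h3 : inF D A p ∈ Y := hY.on ⟨p, le_rfl, hpq, rfl⟩
    have h4 : inF D A p ∈ G := by
      unfold inF
      rw [← h1]
      exact (bd_side hG.bd p).1
    exact (hGD h4).2 h3
  have hmid : ∀ i, N₁ ≤ i → i < l + 1 → outF G A i ∈ Y := by
    intro i h1 h2
    rcases hcase i with h | h
    · exfalso
      have hi1 : i ≠ N₁ := by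
        rintro rfl
        exact h (hoY _ hN₁Y)
      have hi2 : i ≠ l := by
        rintro rfl
        exact h (hoY _ hl2)
      obtain ⟨c, hc, hcs⟩ := hD.exists_index (B := side G A i)
        ⟨hGD' (bd_side hG.bd i).1, h⟩
      have k1 := (contig_side hD hY hq hA hG hN₁m hN₁Y (x := i) (by omega) (by omega) hc
        hcs.symm).2 (by omega)
      have k2 := (contig_side hD hY hq hA hG hl1 hl2 (x := i) (by omega) (by omega) hc
        hcs.symm).1 (by omega)
      omega
    · exact h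
  by_cases hlm : l + 1 = m'
  · refine ⟨m', N₁, l + 1, hG, hN₁0, by omega, by omega, hfst, hmid, ?_, hlep, by omega⟩
    intro i h1 h2
    omega
  · have hlm' : l + 1 < m' := by omega
    obtain ⟨c, hc, hcs⟩ := hD.exists_index (B := side G A (l + 1))
      ⟨hGD' (bd_side hG.bd _).1, hafter _ (by omega) hlm'⟩
    have hqc := (contig_side hD hY hq hA hG hl1 hl2 (x := l + 1) hlm' (by omega) hc
        hcs.symm).2 (by omega)
    have hGl : BD G (side G A (l + 1)) := bd_side hG.bd _
    have hrun := interval_of_out (D := G) (T := D) hGD' hGl (k := m' - (l + 1)) (by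
      intro i hi
      have e1 : (sc G)^[i] (side G A (l + 1)) = side G A (l + 1 + i) := (side_add _ _).symm
      rw [e1]
      by_cases him : l + 1 + i = m'
      · rw [him, hG.per]
        exact hD.bd.2
      · exact hafter _ (by omega) (by omega))
    have hrun' : ∀ i ≤ m' - (l + 1), side D A (c + i) = side G A (l + 1 + i) := by
      intro i hi
      have e1 : (sc G)^[i] (side G A (l + 1)) = side G A (l + 1 + i) := (side_add _ _).symm
      have e2 : (sc D)^[i] (side G A (l + 1)) = side D A (c + i) := by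
        rw [← hcs]
        exact (side_add _ _).symm
      rw [← e1, ← e2]
      exact (hrun i hi).1
    have hcm : c + (m' - (l + 1)) = m := by
      rcases lt_trichotomy (c + (m' - (l + 1))) m with h | h | h
      · exfalso
        have h1 := hrun' (m' - (l + 1)) le_rfl
        have e3 : l + 1 + (m' - (l + 1)) = m' := by omega
        rw [e3, hG.per] at h1
        have := hD.inj _ h 0 hD.pos h1
        omega
      · exact h
      · exfalso
        have h1 := hrun' (m - c) (by omega)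
        have e3 : c + (m - c) = m := by omega
        rw [e3, hD.per] at h1
        have := hG.inj (l + 1 + (m - c)) (by omega) 0 hG.pos h1.symm
        omega
    refine ⟨m', N₁, l + 1, hG, hN₁0, by omega, by omega, hfst, hmid, ?_, hlep, by omega⟩
    intro i h1 h2
    have h3 := hrun' (i - (l + 1)) (by omega)
    have e4 : c + (i - (l + 1)) = i + m - m' := by omega
    have e5 : l + 1 + (i - (l + 1)) = i := by omega
    rw [e4, e5] at h3
    exact h3.symm

/-! ### Complements, saturation -/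

/-- `Y` is saturated: neighbours in `D` in the same cell are both in `Y` or both outside `Y`. -/
def Sat (D : Set (ℤ × ℤ)) (κ : ℤ × ℤ → ι) (Y : Set (ℤ × ℤ)) : Prop :=
  ∀ f ∈ Y, ∀ g ∈ D, AdjF f g → κ f = κ g → g ∈ Y

theorem sat_bar (h : BD D A) : Sat D κ (Bar D A p q κ) := fun _ hf _ hg ha hk =>
  bar_sat h hf hg ha hk

theorem Sat.union (hY : Sat D κ Y) (hK : Sat D κ K) : Sat D κ (Y ∪ K) := by
  rintro f (hf | hf) g hg ha hk
  · exact Or.inl (hY f hf g hg ha hk)
  · exact Or.inr (hK f hf g hg ha hk)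

/-- A union of cells is saturated. -/
theorem sat_cells (hK : ∀ f ∈ K, ∀ g, κ g = κ f → g ∈ K) : Sat D κ K := fun f hf g _ _ hk =>
  hK f hf g hk.symm

theorem Sat.pc (hY : Sat D κ Y) (hfD : f ∈ D) (hf : f ∈ Y) : pc D κ f ⊆ Y := by
  intro g hg
  unfold Mv.pc compT at hg
  change ChI _ f g at hg
  induction hg with
  | refl => exact hf
  | @tail b c hb hs ih =>
    have hbm : b ∈ D ∩ {x | κ x = κ f} := ChI.mem ⟨hfD, rfl⟩ hb
    exact hY b ih c hs.2.1 hs.1 (hbm.2.trans hs.2.2.symm)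

/-- The sides between the inner domain and `Y` are on the lines of the cells. -/
theorem line_of_sat (hY : Sat D κ Y) (hA : ahead A ∈ D \ Y) {B : UE × Bool}
    (hB : BD (inn D A Y) B) (hBY : ahead (rv B) ∈ Y) : κ (ahead B) ≠ κ (ahead (rv B)) := by
  intro h
  exact (inn_sub hA hB.1).2 (hY _ hBY _ (inn_sub hA hB.1).1 (adjF_ahead B) h.symm)

/-- The inner domain is saturated in `D \ Y`. -/
theorem sat_inn (hA : ahead A ∈ D \ Y) (hf : f ∈ inn D A Y) (hg : g ∈ D \ Y) (h : AdjF f g) :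
    g ∈ inn D A Y := compT_step hf h hg

/-- Two neighbouring faces of `D` in one cell: one is in the inner domain iff the other is. -/
theorem inn_adj (hY : Sat D κ Y) (hA : ahead A ∈ D \ Y) (hf : f ∈ inn D A Y) (hg : g ∈ D)
    (h : AdjF f g) (hk : κ f = κ g) : g ∈ inn D A Y := by
  refine compT_step hf h ⟨hg, fun hgY => ?_⟩
  exact (inn_sub hA hf).2 (hY g hgY f (inn_sub hA hf).1 h.symm hk.symm)

/-- The inner domains decrease. -/
theorem inn_anti {Y' : Set (ℤ × ℤ)} (h : Y ⊆ Y') : inn D A Y' ⊆ inn D A Y :=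
  compT_mono (Set.sdiff_subset_sdiff_right h)

end Pool.Agent.SixB.Mv
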