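import Pool.Agent.Lib.SixB.S8Blow
import Pool.Agent.Lib.SixB.S8Thick

/-!
# Step 8: magnification of the domain of a move, of the barrier and of the inner domain

The objects of S8Poly and S8Thick for `blow m D` with the tip side `subE m A 0`, the stop interval
`m p, …, m (q + 1) - 1` and the cells `κ ∘ cl m` are the magnified objects.
-/

set_option autoImplicit false

namespace Pool.Agent.SixB.Blow

open Pool.Agent.Perc Pool.Agent.Perc6 Pool.Agent.Perc6.C2Aux Pool.Agent.Perc.Tips
open Pool.Agent.SixB.Top Pool.Agent.SixB.Mv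

variable {ι : Type*} {D X Y K : Set (ℤ × ℤ)} {A : UE × Bool} {p q n n' m : ℕ} {κ : ℤ × ℤ → ι}
  {f g : ℤ × ℤ}

theorem side_blow (hm : 0 < m) (hA : BD D A) (j : ℕ) :
    side (blow m D) (subE m A 0) j = subE m (side D A (j / m)) ((j % m : ℕ) : ℤ) :=
  iter_subE' hm hA j

theorem cl_inF (hm : 0 < m) (hA : BD D A) (j : ℕ) :
    cl m (inF (blow m D) (subE m A 0) j) = inF D A (j / m) := cl_ahead_iter hm hA j

theorem cl_outF (hm : 0 < m) (hA : BD D A) (j : ℕ) :
    cl m (outF (blow m D) (subE m A 0) j) = outF D A (j / m) := cl_ahead_rv_iter hm hA j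

theorem bd_blow (hm : 0 < m) (hA : BD D A) : BD (blow m D) (subE m A 0) :=
  bd_subE (by omega) hA le_rfl (by omega)

/-- The index interval of the pieces of the sides `p, …, q`. -/
theorem idx_iff (hm : 0 < m) {j : ℕ} :
    (m * p ≤ j ∧ j ≤ m * (q + 1) - 1) ↔ (p ≤ j / m ∧ j / m ≤ q) := by
  rw [← div_mem_iff hm]
  have : 0 < m * (q + 1) := Nat.mul_pos hm (by omega)
  constructor <;> rintro ⟨h1, h2⟩ <;> exact ⟨h1, by omega⟩

/-- A face at the stop arc of the magnified domain. -/
theorem cl_onO (hm : 0 < m) (hA : BD D A)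
    (h : f ∈ onO (blow m D) (subE m A 0) (m * p) (m * (q + 1) - 1)) : cl m f ∈ onO D A p q := by
  obtain ⟨j, h1, h2, rfl⟩ := h
  obtain ⟨h3, h4⟩ := (idx_iff hm).1 ⟨h1, h2⟩
  exact ⟨j / m, h3, h4, (cl_inF hm hA j).symm⟩

theorem exists_onO (hm : 0 < m) (hA : BD D A) {c : ℤ × ℤ} (h : c ∈ onO D A p q) :
    ∃ f ∈ onO (blow m D) (subE m A 0) (m * p) (m * (q + 1) - 1), cl m f = c := by
  obtain ⟨i, h1, h2, rfl⟩ := h
  have e : m * i / m = i := Nat.mul_div_cancel_left _ hm
  obtain ⟨h3, h4⟩ := (idx_iff (p := p) (q := q) hm (j := m * i)).2 ⟨by rw [e]; exact h1,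
    by rw [e]; exact h2⟩
  exact ⟨_, ⟨m * i, h3, h4, rfl⟩, by rw [cl_inF hm hA, e]⟩

/-- **The pieces of the magnified domain.** -/
theorem pc_blow (hm : 0 < m) (hf : cl m f ∈ D) :
    pc (blow m D) (fun x => κ (cl m x)) f = blow m (pc D κ (cl m f)) :=
  compT_blow (F := D ∩ {x | κ x = κ (cl m f)}) (by omega) ⟨hf, rfl⟩

/-- **The barrier of the magnified domain.** -/
theorem bar_blow (hm : 0 < m) (hA : BD D A) :
    Bar (blow m D) (subE m A 0) (m * p) (m * (q + 1) - 1) (fun x => κ (cl m x)) =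
      blow m (Bar D A p q κ) := by
  ext f
  constructor
  · rintro ⟨g, hg, hf⟩
    have hg' := cl_onO hm hA hg
    rw [pc_blow hm (onO_sub hA hg')] at hf
    exact ⟨cl m g, hg', hf⟩
  · rintro ⟨c, hc, hf⟩
    obtain ⟨g, hg, rfl⟩ := exists_onO hm hA hc
    refine ⟨g, hg, ?_⟩
    rw [pc_blow hm (onO_sub hA hc)]
    exact hf

/-- **The inner domain of the magnified domain.** -/
theorem inn_blow (hm : 0 < m) (hA : ahead A ∈ D \ Y) :
    inn (blow m D) (subE m A 0) (blow m Y) = blow m (inn D A Y) := by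
  unfold inn
  rw [← blow_sdiff]
  have e : cl m (ahead (subE m A 0)) = ahead A := cl_ahead (by omega) A le_rfl (by omega)
  rw [compT_blow (F := D \ Y) (by omega) (by rw [e]; exact hA), e]

theorem cl_ahead_zero (hm : 0 < m) (A : UE × Bool) : cl m (ahead (subE m A 0)) = ahead A :=
  cl_ahead (by omega) A le_rfl (by omega)

theorem sat_blow (hm : 0 < m) (h : Sat D κ Y) :
    Sat (blow m D) (fun x => κ (cl m x)) (blow m Y) := by
  intro f hf g hg ha hk
  rcases adj_cl (m := (m : ℤ)) (by omega) ha with h1 | h1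
  · rw [mem_blow, ← h1]; exact hf
  · exact h _ hf _ hg h1 hk

theorem att_blow (hm : 0 < m) (hA : BD D A) (h : Att D A p q Y) :
    Att (blow m D) (subE m A 0) (m * p) (m * (q + 1) - 1) (blow m Y) := by
  refine ⟨blow_subset h.sub, fun f hf => h.on (cl_onO hm hA hf), fun f hf => ?_⟩
  obtain ⟨c, hc, hch⟩ := h.ch (cl m f) hf
  obtain ⟨g, hg, rfl⟩ := exists_onO hm hA hc
  exact ⟨g, hg, chI_blow (m := (m : ℤ)) (by omega) hf hch⟩

/-- **The contour of the magnified domain.** -/
theorem cyc_blow (hm : 0 < m) (hF : D.Finite) (hc : EConn D) (he : Esc D) (h : Cyc D A n) :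
    Cyc (blow m D) (subE m A 0) (m * n) := by
  have hA := bd_blow hm h.bd
  obtain ⟨k, hk⟩ := exists_cyc (blow_finite (m := (m : ℤ)) (by omega) hF)
    (econn_blow (m := (m : ℤ)) (by omega) hc) (Esc.blow (m := (m : ℤ)) (by omega) he) hA
  have hpos : 0 < m * n := Nat.mul_pos hm h.pos
  have hper : side (blow m D) (subE m A 0) (m * n) = subE m A 0 :=
    iter_subE_period hm h.bd h.per
  have hinj : ∀ i < m * n, ∀ j < m * n,
      side (blow m D) (subE m A 0) i = side (blow m D) (subE m A 0) j → i = j := by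
    intro i hi j hj hij
    rw [side_blow hm h.bd, side_blow hm h.bd] at hij
    have mi := Nat.mod_lt i hm
    have mj := Nat.mod_lt j hm
    obtain ⟨e1, e2⟩ := subE_inj (m := (m : ℤ)) (by omega) (by omega) (by exact_mod_cast mi)
      (by omega) (by exact_mod_cast mj) hij
    have e3 := h.inj (i / m) (Nat.div_lt_of_lt_mul hi) (j / m) (Nat.div_lt_of_lt_mul hj) e1
    have e4 : i % m = j % m := by exact_mod_cast e2
    rw [← Nat.div_add_mod i m, ← Nat.div_add_mod j m, e3, e4]
  have hkn : k = m * n := by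
    rcases lt_trichotomy k (m * n) with h1 | h1 | h1
    · have := hinj k h1 0 hpos (hk.per.trans rfl)
      have := hk.pos; omega
    · exact h1
    · have := hk.inj (m * n) h1 0 hk.pos (hper.trans rfl)
      omega
  subst hkn
  exact hk

theorem arcs_blow (hm : 0 < m) (hF : D.Finite) (hc : EConn D) (he : Esc D)
    (h : Arcs D A X n p q) :
    Arcs (blow m D) (subE m A 0) (blow m X) (m * n) (m * p) (m * (q + 1) - 1) := by
  have hC := cyc_blow hm hF hc he h.cyc
  have hpq := h.le
  have hqn : m * (q + 1) ≤ m * n := Nat.mul_le_mul_left _ h.lt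
  have h1 : m * p ≤ m * q := Nat.mul_le_mul_left _ hpq
  have h2 : m * (q + 1) = m * q + m := by ring
  refine ⟨hC.bd, hC.pos, hC.per, hC.inj, hC.ctr, by omega, by omega, ?_, ?_, ?_, ?_⟩
  · rw [mem_blow, cl_outF hm h.bd, Nat.mul_div_cancel_left _ hm]
    exact h.memp
  · have : (m * (q + 1) - 1) / m = q := by
      have h4 : m * (q + 1) - 1 = m * q + (m - 1) := by omega
      rw [h4, Nat.mul_add_div hm, Nat.div_eq_of_lt (by omega), Nat.add_zero]
    rw [mem_blow, cl_outF hm h.bd, this]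
    exact h.memq
  · intro i hi hX
    rw [mem_blow, cl_outF hm h.bd] at hX
    exact h.first _ (Nat.div_lt_of_lt_mul hi) hX
  · intro i hi hi' hX
    rw [mem_blow, cl_outF hm h.bd] at hX
    refine h.last _ ?_ (Nat.div_lt_of_lt_mul hi') hX
    have : q + 1 ≤ i / m := by
      rw [Nat.le_div_iff_mul_le hm, Nat.mul_comm]
      omega
    omega

/-- **The contour of the inner domain of the magnified domain.** -/
theorem contig_blow (hm : 0 < m) (hF : D.Finite) (he : Esc D) (hD : Cyc D A n)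
    (hY : Att D A p q Y) (hA : ahead A ∉ Y) {N₁ N₂ : ℕ} (h : Contig D A p q Y n n' N₁ N₂) :
    Contig (blow m D) (subE m A 0) (m * p) (m * (q + 1) - 1) (blow m Y) (m * n) (m * n')
      (m * N₁) (m * N₂) := by
  have hAD : ahead A ∈ D \ Y := ⟨hD.bd.1, hA⟩
  have hinn := inn_blow (m := m) hm hAD
  have hfin : (inn D A Y).Finite := hF.subset ((inn_sub hAD).trans Set.sdiff_subset)
  have hesc : Esc (inn D A Y) := esc_compT (hF.subset Set.sdiff_subset) (hY.esc hD.bd he) hAD
  have hbd : BD (inn D A Y) A := bd_inn hD.bd hA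
  have hC := cyc_blow hm hfin (econn_inn hAD) hesc h.cyc
  have hN : N₁ < N₂ := h.lt
  have hle : N₂ ≤ n' := h.le
  have a1 : m * N₁ < m * N₂ := Nat.mul_lt_mul_of_pos_left hN hm
  have a2 : m * N₂ ≤ m * n' := Nat.mul_le_mul_left _ hle
  have a3 : m * N₁ ≤ m * p := Nat.mul_le_mul_left _ h.lep
  refine ⟨by rw [hinn]; exact hC, Nat.mul_pos hm h.pos, a1, a2, ?_, ?_, ?_, a3, ?_⟩
  · intro i hi
    rw [hinn, side_blow hm hbd, side_blow hm hD.bd, h.fst _ (Nat.div_lt_of_lt_mul hi)]
  · intro i h1 h2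
    rw [hinn, mem_blow, cl_outF hm hbd]
    refine h.mid _ ?_ (Nat.div_lt_of_lt_mul h2)
    rw [Nat.le_div_iff_mul_le hm, Nat.mul_comm]
    exact h1
  · intro i h1 h2
    have b1 : N₂ ≤ i / m := by
      rw [Nat.le_div_iff_mul_le hm, Nat.mul_comm]
      exact h1
    have b2 : i / m < n' := Nat.div_lt_of_lt_mul h2
    have b3 := h.ltq
    rw [hinn, side_blow hm hbd, side_blow hm hD.bd, h.lst _ b1 b2]
    -- the shifted index
    have hmul := Nat.mul_le_mul_left m (show n' ≤ i / m + n by omega)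
    have e0 : i + m * n - m * n' = m * (i / m + n - n') + i % m := by
      have e1 := Nat.div_add_mod i m
      have e2 : m * (i / m + n - n') = m * (i / m + n) - m * n' := Nat.mul_sub _ _ _
      rw [e2]
      have e3 : m * (i / m + n) = m * (i / m) + m * n := by ring
      omega
    have e4 : (i + m * n - m * n') / m = i / m + n - n' := by
      rw [e0, Nat.mul_add_div hm, Nat.div_eq_of_lt (Nat.mod_lt _ hm), Nat.add_zero]
    have e5 : (i + m * n - m * n') % m = i % m := by
      rw [e0, Nat.mul_add_mod, Nat.mod_mod]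
    rw [e4, e5]
  · have b3 := h.ltq
    have b4 : m * (q + 1 + n') ≤ m * (N₂ + n) := Nat.mul_le_mul_left _ (by omega)
    have b5 : m * (q + 1 + n') = m * (q + 1) + m * n' := by ring
    have b6 : m * (N₂ + n) = m * N₂ + m * n := by ring
    have b7 : 0 < m * (q + 1) := Nat.mul_pos hm (by omega)
    omega

end Pool.Agent.SixB.Blow
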