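import Pool.Agent.Lib.SixB.S8StateG
import Pool.Agent.Lib.SixB.S8MoveT
import Pool.Agent.Lib.SixB.S8KerPr
import Pool.Agent.Lib.SixB.S8BlowT
import Pool.Agent.Lib.SixB.S8Fam

/-!
# Step 8: the record of a move and the event of the kernel

The record of a move is read at the first time at which the strand enters the stop set: the visited cells
and the run number of the stop side. If the strand stops by crossing a stop side, then `all cells of K
are unvisited and the run number is r` is the event `MoveEv` of the kernel.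
-/

set_option autoImplicit false

namespace Pool.Agent.SixB.Mv

open Finset Pool.Agent.Perc Pool.Agent.Perc6 Pool.Agent.Perc6.C2Aux Pool.Agent.Perc.Tips
open Pool.Agent.SixB.Top Pool.Agent.SixB.Blow

/-- The unit edges of the contour are different. -/
theorem Cyc.inj_fst {G : Set (ℤ × ℤ)} {A : UE × Bool} {m i j : ℕ} (h : Cyc G A m) (hi : i < m)
    (hj : j < m) (he : (side G A i).1 = (side G A j).1) : i = j :=
  h.inj i hi j hj ((bd_side h.bd i).eq_of_fst (bd_side h.bd j) he)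

namespace Dom

variable {s : Dom} {g : Grd} {u N : ℕ} {a : UE} {ζ : Cfg} {Zp : Set (ℤ × ℤ)} {σ : ℕ}

/-- The contour of the magnified inner part. -/
theorem Val.cycU (h : Val s g) (hv : ¬ s.Void g) (hu : 0 < u) :
    Cyc (blow u (s.inr g)) (subE u s.A 0) (u * cyl (s.inr g) s.A) :=
  cyc_blow hu (h.finI hv) (h.conI hv) (h.escI hv) (h.cycI hv)

/-- A unit edge of the magnified stop arc is a piece of exactly one stop side. -/
theorem Val.stop_index (h : Val s g) (hv : ¬ s.Void g) (hu : 0 < u) {j : ℕ}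
    (h1 : u * s.n₁ g ≤ j) (h2 : j < u * s.n₂ g) {e : UE}
    (he : (side (blow u (s.inr g)) (subE u s.A 0) j).1 = e) :
    sInf {i | i ∈ s.stI g ∧ ∃ r : ℕ, r < u ∧ (subE u (side (s.inr g) s.A i) r).1 = e} = j / u := by
  have hbd := h.bdI hv
  have hcyc := h.cycU hv hu (u := u)
  have hn2 := h.n₂_le hv
  have hmem : j / u ∈ s.stI g := by
    rw [h.mem_stI hv]
    exact ⟨(Nat.le_div_iff_mul_le hu).2 (by rw [mul_comm]; exact h1), Nat.div_lt_of_lt_mul h2⟩
  have key : {i | i ∈ s.stI g ∧ ∃ r : ℕ, r < u ∧ (subE u (side (s.inr g) s.A i) r).1 = e} =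
      {j / u} := by
    ext i
    rw [Set.mem_singleton_iff, Set.mem_ofPred_eq]
    constructor
    · rintro ⟨hi, r, hr, hir⟩
      have h3 : (u * i + r) / u = i := by
        rw [Nat.mul_add_div hu, Nat.div_eq_of_lt hr, add_zero]
      have h4 : (u * i + r) % u = r := by
        rw [Nat.mul_add_mod, Nat.mod_eq_of_lt hr]
      have h5 : side (blow u (s.inr g)) (subE u s.A 0) (u * i + r) =
          subE u (side (s.inr g) s.A i) r := by
        rw [side_blow hu hbd, h3, h4]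
      have h6 := (h.mem_stI hv).1 hi
      have h7 : u * i + r < u * cyl (s.inr g) s.A := by
        have : u * (i + 1) ≤ u * cyl (s.inr g) s.A := Nat.mul_le_mul_left _ (by omega)
        rw [Nat.mul_succ] at this
        omega
      have h8 : j < u * cyl (s.inr g) s.A := lt_of_lt_of_le h2 (Nat.mul_le_mul_left _ hn2)
      have h9 := hcyc.inj_fst h7 h8 (by rw [h5, hir, he])
      rw [← h9, h3]
    · rintro rfl
      refine ⟨hmem, j % u, Nat.mod_lt _ hu, ?_⟩
      rw [← side_blow hu hbd, he]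
  rw [key]
  exact csInf_singleton _

/-- The cap on the run numbers has no effect. -/
theorem Val.rno_cap (h : Val s g) (hv : ¬ s.Void g) {i : ℕ} (hi : i ∈ s.stI g) :
    s.rno g i ≤ (2 * g.M.toNat + 3) ^ 2 := by
  have h1 := h.rno_le hv (lt_of_lt_of_le ((h.mem_stI hv).1 hi).2 (h.n₂_le hv))
  have hM := h.hM
  have h2 : ((g.M.toNat : ℕ) : ℤ) = g.M := Int.toNat_of_nonneg hM.le
  have h3 : ((s.rno g i : ℕ) : ℤ) ≤ (((2 * g.M.toNat + 3) ^ 2 : ℕ) : ℤ) := by
    push_cast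
    rw [h2]
    nlinarith
  exact_mod_cast h3

/-- **The record and the event of the kernel.** The strand stops at the time `σ ≤ N`, when it enters
`Zp` by crossing a stop side. -/
theorem Val.rec_moveEv (h : Val s g) (hv : ¬ s.Void g) (hu : 0 < u)
    (h1 : ∀ i < σ, fa (pth ζ a i) ∉ Zp) (h2 : fa (pth ζ a σ) ∈ Zp)
    (h3 : pth ζ a σ ∈ runE (blow u (s.inr g)) (subE u s.A 0) (u * s.n₁ g) (u * s.n₂ g))
    (h4 : σ ≤ N) {K : Finset (ℤ × ℤ)} (hK : ∀ c ∈ K, s.Full g c) {cap r : ℕ}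
    (hcap : (2 * g.M.toNat + 3) ^ 2 ≤ cap) :
    ((∀ c ∈ K, ∀ f, g.nm f = c → f ∉ ({c | ∃ f ∈ vs ζ a 0 (hit N fun t => fa (pth ζ a t) ∈ Zp),
          cl u f = c} : Set (ℤ × ℤ))) ∧
        min (s.rno g (sInf {i | i ∈ s.stI g ∧ ∃ r : ℕ, r < u ∧
          (subE u (side (s.inr g) s.A i) r).1 =
            pth ζ a (hit N fun t => fa (pth ζ a t) ∈ Zp)})) cap = r) ↔
      ζ ∈ MoveEv a Zp (blow u (Mv.fcs g.nm (s.inr g) K))
        (runE (blow u (s.inr g)) (subE u s.A 0) (u * s.runI g r) (u * s.runI g (r + 1))) := by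
  have hhit : hit N (fun t => fa (pth ζ a t) ∈ Zp) = σ := hit_eq h2 h4 h1
  obtain ⟨j, hj1, hj2, hj3⟩ := h3
  rw [hhit, h.stop_index hv hu hj1 hj2 hj3]
  have hj4 : j / u ∈ s.stI g := by
    rw [h.mem_stI hv]
    exact ⟨(Nat.le_div_iff_mul_le hu).2 (by rw [mul_comm]; exact hj1), Nat.div_lt_of_lt_mul hj2⟩
  have hmin : min (s.rno g (j / u)) cap = s.rno g (j / u) :=
    min_eq_left ((h.rno_cap hv hj4).trans hcap)
  rw [hmin]
  have hjn := (h.mem_stI hv).1 hj4
  have hrun : s.rno g (j / u) = r ↔ u * s.runI g r ≤ j ∧ j < u * s.runI g (r + 1) := by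
    have e : s.rno g (j / u) = r ↔ s.runI g r ≤ j / u ∧ j / u < s.runI g (r + 1) :=
      rn_eq_iff hjn.1 hjn.2
    rw [e, Nat.le_div_iff_mul_le hu, Nat.div_lt_iff_lt_mul hu, mul_comm (s.runI g r),
      mul_comm (s.runI g (r + 1))]
  have hcyc := h.cycU hv hu (u := u)
  have hjlt : j < u * cyl (s.inr g) s.A :=
    lt_of_lt_of_le hj2 (Nat.mul_le_mul_left _ (h.n₂_le hv))
  have hend : ∀ r', s.runI g r' ≤ s.n₂ g := fun r' => rs_le (h.n_lt hv).le
  have hGd : pth ζ a σ ∈ runE (blow u (s.inr g)) (subE u s.A 0) (u * s.runI g r)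
      (u * s.runI g (r + 1)) ↔ s.rno g (j / u) = r := by
    rw [hrun]
    constructor
    · rintro ⟨k, hk1, hk2, hk3⟩
      have hk4 : k < u * cyl (s.inr g) s.A :=
        lt_of_lt_of_le hk2 (Nat.mul_le_mul_left _ ((hend _).trans (h.n₂_le hv)))
      have := hcyc.inj_fst hk4 hjlt (by rw [hk3, hj3])
      subst this
      exact ⟨hk1, hk2⟩
    · rintro ⟨hk1, hk2⟩
      exact ⟨j, hk1, hk2, hj3⟩
  have hvis : (∀ c ∈ K, ∀ f, g.nm f = c → f ∉ ({c | ∃ f ∈ vs ζ a 0 σ, cl u f = c} : Set (ℤ × ℤ))) ↔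
      ∀ i < σ, fa (pth ζ a i) ∉ blow u (Mv.fcs g.nm (s.inr g) K) := by
    constructor
    · intro hh i hi hmem
      rw [Blow.mem_blow] at hmem
      refine hh _ hmem.2 _ rfl ⟨_, ?_, rfl⟩
      unfold vs
      exact Finset.mem_image.2 ⟨i, Finset.mem_Ico.2 ⟨Nat.zero_le _, hi⟩, rfl⟩
    · rintro hh c hc f rfl ⟨x, hx, hxf⟩
      unfold vs at hx
      obtain ⟨i, hi1, hi2⟩ := Finset.mem_image.1 hx
      refine hh i (Finset.mem_Ico.1 hi1).2 ?_
      rw [Blow.mem_blow, hi2, hxf]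
      exact ⟨hK _ hc f rfl, hc⟩
  rw [hvis, ← hGd]
  constructor
  · rintro ⟨k1, k2⟩
    exact ⟨σ, h1, h2, k1, k2⟩
  · rintro ⟨σ', k1, k2, k3, k4⟩
    have e : σ' = σ := by
      rcases lt_trichotomy σ' σ with h5 | h5 | h5
      · exact absurd k2 (h1 _ h5)
      · exact h5
      · exact absurd h2 (k1 _ h5)
    subst e
    exact ⟨k3, k4⟩

end Dom

end Pool.Agent.SixB.Mv
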