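import Pool.Agent.Lib.SixB.S8StateG
import Pool.Agent.Lib.SixB.S8Fam

/-!
# Step 8, unit 8H: the family of attached sets of a coarse domain, the update

The definitions of `S8State` in the words of `S8Fam`; the cells of the true record are the cells of the
largest unvisited attached set; if the step does not end, the target side is on the contour of the new
set.
-/

set_option autoImplicit false

namespace Pool.Agent.SixB.Mv

open Pool.Agent.Perc Pool.Agent.Perc6 Pool.Agent.Perc6.C2Aux Pool.Agent.Perc.Tips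
open Pool.Agent.SixB.Top

namespace Dom

variable (s : Dom) (g : Grd) {K : Finset (ℤ × ℤ)} {N : Set (ℤ × ℤ)} {ρ : Rec}

theorem full_iff {c : ℤ × ℤ} : s.Full g c ↔ Mv.Full g.nm (s.inr g) c := Iff.rfl

theorem ctch_iff {c : ℤ × ℤ} : s.CTch g c ↔ Mv.CTch g.nm (s.bar g) c := Iff.rfl

theorem atK_iff : s.AtK g K ↔ Mv.AtK g.nm (s.inr g) (s.bar g) K :=
  ⟨fun h => ⟨h.full, h.ch⟩, fun h => ⟨h.full, h.ch⟩⟩

theorem fam_eq : s.fam g = Mv.fam g.nm (s.inr g) (s.bar g) (blkN g.a g.b g.L g.M s.tip) := by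
  classical
  unfold fam Mv.fam
  ext K
  simp only [Finset.mem_filter, atK_iff]

theorem kmx_eq :
    s.kmx g N = Mv.kmx g.nm (s.inr g) (s.bar g) (blkN g.a g.b g.L g.M s.tip) N := by
  classical
  unfold kmx Mv.kmx
  rw [fam_eq]
  congr
  exact Subsingleton.elim _ _

theorem card_fam_blkN : (s.fam g).card ≤ 2 ^ (blkN g.a g.b g.L g.M s.tip).card := by
  rw [fam_eq]
  exact card_fam_le

/-- The cells of the record are the cells of the largest unvisited set. -/
theorem kst_rcd (c : ℕ) (N : Set (ℤ × ℤ)) (i : ℕ) : s.kst g (s.rcd g c N i) = s.kmx g N := by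
  classical
  unfold kst rcd
  simp only
  rw [Finset.image_image]
  have h : ((fun c => c + g.nm s.tip) ∘ s.rel g) = id := by
    funext c
    simp [rel]
  rw [h, Finset.image_id]

theorem rcd_snd (c : ℕ) (N : Set (ℤ × ℤ)) (i : ℕ) : (s.rcd g c N i).2 = min (s.rno g i) c := rfl

/-- The record of given cells and run number. -/
theorem kst_image (K : Finset (ℤ × ℤ)) (r : ℕ) : s.kst g (K.image (s.rel g), r) = K := by
  classical
  unfold kst
  simp only
  rw [Finset.image_image]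
  have h : ((fun c => c + g.nm s.tip) ∘ s.rel g) = id := by
    funext c
    simp [rel]
  rw [h, Finset.image_id]

theorem fcs_eq' : s.fcs g ρ = Mv.fcs g.nm (s.inr g) (s.kst g ρ) := rfl

theorem fcs_rcd (c : ℕ) (N : Set (ℤ × ℤ)) (i : ℕ) :
    s.fcs g (s.rcd g c N i) = Mv.fcs g.nm (s.inr g) (s.kmx g N) := by
  rw [fcs_eq', kst_rcd]

theorem fcs_sub : s.fcs g ρ ⊆ s.inr g := fun _ h => h.1

theorem rem_void (h : s.Void g) : s.rem g ρ = s.ent g ρ := by
  unfold rem
  rw [if_pos h]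

theorem rem_reg (h : ¬ s.Void g) : s.rem g ρ = (s.inr g \ s.fcs g ρ) ∪ s.ent g ρ := by
  unfold rem
  rw [if_neg h]

/-- The removed part for the record of given cells. -/
theorem rem_rcd (h : ¬ s.Void g) (c : ℕ) (N : Set (ℤ × ℤ)) (i : ℕ) :
    s.rem g (s.rcd g c N i) =
      (s.inr g \ Mv.fcs g.nm (s.inr g) (s.kmx g N)) ∪ s.ent g (s.rcd g c N i) := by
  rw [rem_reg s g h, fcs_rcd]

/-! ### The update -/

namespace Val

variable {s g} (h : s.Val g)

include h

/-- The names of the full cells are in the block. -/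
theorem full_mem (hv : ¬ s.Void g) {c : ℤ × ℤ} (hc : Mv.Full g.nm (s.inr g) c) :
    c ∈ blkN g.a g.b g.L g.M s.tip := by
  obtain ⟨f, hf⟩ : ∃ f, g.nm f = c := by
    refine ⟨(g.L * c.1 - g.a, g.L * c.2 - g.b), ?_⟩
    have hL := h.hL
    simp only [Grd.nm, gc, sub_add_cancel, Int.mul_ediv_cancel_left _ hL.ne']
  have h1 := (h.dom_sub (h.inr_sub hv (hc f hf)).1).2
  have h2 := mem_blk_iff.1 h1
  rw [← hf]
  exact h2

/-- If the step does not end, the face at the target side is not removed. -/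
theorem tgt_rem (hE : ¬ s.End g ρ) : ahead s.B ∈ s.P \ s.rem g ρ := by
  refine ⟨h.bdB.1, fun hr => ?_⟩
  by_cases hv : s.Void g
  · rw [rem_void s g hv] at hr
    exact hE hr
  · rw [rem_reg s g hv] at hr
    rcases hr with hr | hr
    · exact h.tgt_inr hv hr.1
    · exact hE hr

/-- The target side is on the contour of the new set. -/
theorem bdB_next (hE : ¬ s.End g ρ) : BD (s.nxP g ρ) s.B :=
  ⟨self_mem_compT, fun hh => h.bdB.2 (compT_sub (h.tgt_rem hE) hh).1⟩

theorem nxP_sub (hE : ¬ s.End g ρ) : s.nxP g ρ ⊆ s.P \ s.rem g ρ := compT_sub (h.tgt_rem hE)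

theorem fin_next (hE : ¬ s.End g ρ) : (s.nxP g ρ).Finite :=
  h.fin.subset fun _ hf => (h.nxP_sub hE hf).1

theorem con_next (hE : ¬ s.End g ρ) : Top.EConn (s.nxP g ρ) := econn_compT (h.tgt_rem hE)

theorem esc_next (hE : ¬ s.End g ρ) (he : Esc (s.P \ s.rem g ρ)) : Esc (s.nxP g ρ) :=
  esc_compT (h.fin.subset Set.sdiff_subset) he (h.tgt_rem hE)

/-- **The true regular update makes no holes.** `N` = the visited faces. -/
theorem esc_rem_reg (hv : ¬ s.Void g) {N : Set (ℤ × ℤ)} {c i : ℕ}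
    (hNP : ∀ f ∈ N, f ∈ s.P → f ∈ s.inr g)
    (hN : ∀ f ∈ N, f ∈ s.inr g → ∃ k, k ∉ s.P ∧ ChI (N ∪ s.Pᶜ) f k)
    (hZ : Top.EConn (s.ent g (s.rcd g c N i)))
    (hon : ∃ x ∈ N, x ∈ s.inr g ∧ ∃ z ∈ s.ent g (s.rcd g c N i), AdjF x z) :
    Esc (s.P \ s.rem g (s.rcd g c N i)) := by
  have e : s.rem g (s.rcd g c N i) = (inn (s.dom g) s.A (s.bar g) \
      Mv.fcs g.nm (inn (s.dom g) s.A (s.bar g)) (Mv.kmx g.nm (inn (s.dom g) s.A (s.bar g))
        (s.bar g) (blkN g.a g.b g.L g.M s.tip) N)) ∪ s.ent g (s.rcd g c N i) := by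
    rw [rem_rcd s g hv, kmx_eq]
    rfl
  rw [e]
  exact esc_kmx h.esc (cellC_gc h.hL) (h.tipm hv) h.sat h.bdA.2
    (domD_cell h.mem fun f hf k hk => blk_sat (Eq.symm hk) hf)
    (fun c hc => h.full_mem hv hc) hNP hN hZ hon

/-- **The true void update makes no holes.** -/
theorem esc_rem_void (hv : s.Void g) (hZ : Top.EConn (s.ent g ρ)) (hA : ahead s.A ∈ s.ent g ρ) :
    Esc (s.P \ s.rem g ρ) := by
  rw [rem_void s g hv]
  exact esc_void h.esc hZ hA h.bdA.2

end Val

end Dom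

end Pool.Agent.SixB.Mv
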