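import Pool.Agent.Lib.SixB.S8LawR
import Pool.Agent.Lib.SixB.S8KerRec
import Pool.Agent.Lib.SixB.S8StateF
import Pool.Agent.Lib.SixB.S8KerBad

/-!
# Step 8: the record of a regular move is read correctly

`RdS u N D g U T₀ a ζ σ`: the strand from the unit edge `a` in the configuration `ζ` stops regularly
(`StopR`) at the time `σ ≤ N`. Then `σ` is the time `sgT` of the chain, the number `idT` of the stop side
is in the stop arc `[n₁, n₂)` and a piece of this side is crossed at the time `σ`, the cells of the record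
are the cells of the largest attached set of unvisited cells, the run number is not cut off, and the
strand enters the entered set `ent` of the record (`RdS.rec`).

`read_stop`: the same for the chain (`stopT`, `visC`, `stopI`, `rcd`). `first_lt`: the first time at which
the strand of a needle has a property is smaller than `tmx n`; `rdS_of_stopR`: the bound for `σ` is
automatic.
-/

set_option autoImplicit false

namespace Pool.Agent.SixB.Tru

open Finset Pool.Agent.Perc Pool.Agent.PercT Pool.Agent.PercX60 Pool.Agent.Perc6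
open Pool.Agent.Perc6.C2Aux
open Pool.Agent.SixB Pool.Agent.SixB.Rule Pool.Agent.SixB.Dct Pool.Agent.SixB.Mv
open Pool.Agent.SixB.Blow (subE side_blow)
open Pool.Agent.SixB.Top (BD)
open Pool.Agent.Perc.Tips (ahead rv)

/-- The strand of a move stops regularly at the time `σ ≤ N`. -/
structure RdS (u N : ℕ) (D : Dom) (g : Grd) (U T₀ : Set (ℤ × ℤ)) (a : UE) (ζ : Cfg) (σ : ℕ) :
    Prop where
  hu : 0 < u
  val : D.Val g
  nv : ¬ D.Void g
  PU : blow u D.P ⊆ U
  TP : ∀ f ∈ T₀, f ∈ blow u D.P → f ∈ blow u (D.inr g)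
  stop : StopR a U T₀ (blow u (D.bar g))
    (runE (blow u (D.inr g)) (subE u D.A 0) (u * D.n₁ g) (u * D.n₂ g)) ζ σ
  le : σ ≤ N

namespace RdS

variable {u N : ℕ} {D : Dom} {g : Grd} {U T₀ : Set (ℤ × ℤ)} {a : UE} {ζ : Cfg} {σ : ℕ}
  (h : RdS u N D g U T₀ a ζ σ)

include h

/-- The strand has not been in the stop set. -/
theorem bef : ∀ i < σ, fa (pth ζ a i) ∉ blow u (D.P \ D.inr g) := fun i hi hf =>
  hf.2 (h.TP _ (h.stop.bef i hi (h.PU hf.1)) hf.1)

/-- At the time `σ` the strand is in the stop set. -/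
theorem ent : fa (pth ζ a σ) ∈ blow u (D.P \ D.inr g) := by
  have h1 := h.stop.mem
  have h2 := h.val.bar_sub h1
  exact ⟨(h.val.dom_sub h2).1, fun h3 => (h.val.inr_sub h.nv h3).2 h1⟩

/-- **The time of the stop.** -/
theorem sg : sgT u N D g a ζ = σ := hit_eq h.ent h.le h.bef

/-- The number of the stop side and the index on the magnified contour. -/
theorem idx : ∃ j, u * D.n₁ g ≤ j ∧ j < u * D.n₂ g ∧
    (side (blow u (D.inr g)) (subE u D.A 0) j).1 = pth ζ a σ ∧ idT u D g a ζ σ = j / u := by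
  obtain ⟨j, h1, h2, h3⟩ := h.stop.side
  exact ⟨j, h1, h2, h3, h.val.stop_index h.nv h.hu h1 h2 h3⟩

/-- **The stop side.** -/
theorem side_id : idT u D g a ζ σ ∈ D.stI g ∧ D.n₁ g ≤ idT u D g a ζ σ ∧
    idT u D g a ζ σ < D.n₂ g ∧
    ∃ r : ℕ, r < u ∧ (subE u (side (D.inr g) D.A (idT u D g a ζ σ)) r).1 = pth ζ a σ ∧
      ahead (rv (subE u (side (D.inr g) D.A (idT u D g a ζ σ)) r)) = fa (pth ζ a σ) := by
  have hu' : (0 : ℤ) < u := by exact_mod_cast h.hu
  obtain ⟨j, h1, h2, h3, h4⟩ := h.idx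
  have e1 : D.n₁ g ≤ j / u := (Nat.le_div_iff_mul_le h.hu).2 (by rw [mul_comm]; exact h1)
  have e2 : j / u < D.n₂ g := Nat.div_lt_of_lt_mul h2
  rw [h4]
  refine ⟨(h.val.mem_stI h.nv).2 ⟨e1, e2⟩, e1, e2, j % u, Nat.mod_lt _ h.hu, ?_, ?_⟩
  · rw [← side_blow h.hu (h.val.bdI h.nv), h3]
  · rw [← side_blow h.hu (h.val.bdI h.nv)]
    have hbd : BD (blow u (D.inr g)) (subE u D.A 0) :=
      Blow.bd_subE hu' (h.val.bdI h.nv) le_rfl hu'
    have hb := bd_side hbd j
    have hs : IsSide (ahead (rv (side (blow u (D.inr g)) (subE u D.A 0) j))) (pth ζ a σ) := by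
      rw [← h3]
      exact isSide_ahead (side (blow u (D.inr g)) (subE u D.A 0) j).1
        (!(side (blow u (D.inr g)) (subE u D.A 0) j).2)
    have hs' : IsSide (ahead (side (blow u (D.inr g)) (subE u D.A 0) j)) (pth ζ a σ) := by
      rw [← h3]
      exact isSide_ahead (side (blow u (D.inr g)) (subE u D.A 0) j).1
        (side (blow u (D.inr g)) (subE u D.A 0) j).2
    have hne := ahead_ne (side (blow u (D.inr g)) (subE u D.A 0) j)
    have hnot : fa (pth ζ a σ) ≠ ahead (side (blow u (D.inr g)) (subE u D.A 0) j) := by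
      intro he
      have h5 : fa (pth ζ a σ) ∈ blow u (D.inr g) := by rw [he]; exact hb.1
      exact h.ent.2 h5
    rcases isSide_iff.1 hs with h6 | h6
    · exact h6
    · rcases isSide_iff.1 hs' with h7 | h7
      · exact absurd h7.symm hnot
      · exact absurd (h7.trans h6.symm) hne

/-- The face behind the stop side. -/
theorem out_id : Blow.cl u (fa (pth ζ a σ)) = outF (D.inr g) D.A (idT u D g a ζ σ) := by
  have hu' : (0 : ℤ) < u := by exact_mod_cast h.hu
  obtain ⟨-, -, -, r, hr, -, h2⟩ := h.side_id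
  rw [← h2, Blow.cl_ahead_rv hu' _ (by omega) (by exact_mod_cast hr)]
  rfl

/-- The run number is not cut off. -/
theorem rno_le : D.rno g (idT u D g a ζ σ) ≤ capR g.M :=
  h.val.rno_cap h.nv h.side_id.1

/-- The record. -/
theorem snd : (D.rcd g (capR g.M) (vcT u a ζ σ) (idT u D g a ζ σ)).2 =
    D.rno g (idT u D g a ζ σ) := by
  rw [Dom.rcd_snd]
  exact min_eq_left h.rno_le

/-- The run of the stop side. -/
theorem run : D.runI g (D.rno g (idT u D g a ζ σ)) ≤ idT u D g a ζ σ ∧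
    idT u D g a ζ σ < D.runI g (D.rno g (idT u D g a ζ σ) + 1) :=
  (rn_eq_iff h.side_id.2.1 h.side_id.2.2.1).1 rfl

/-- **The strand enters the entered set of the record.** -/
theorem mem_ent : fa (pth ζ a σ) ∈ blow u (D.ent g
    (D.rcd g (capR g.M) (vcT u a ζ σ) (idT u D g a ζ σ))) := by
  rw [Blow.mem_blow, h.out_id]
  have hr := h.val.runS h.nv
  have h1 := (hr.pc_run h.run.1 h.run.2).2.1
  unfold Dom.ent Dom.stp
  rw [if_neg h.nv, h.snd]
  exact pc_sub_entV h1

omit h in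
/-- The visited cells. -/
theorem vc_eq (u : ℕ) (a : UE) (ζ : Cfg) (t : ℕ) :
    vcT u a ζ t = Blow.cl u '' (vs ζ a 0 t : Set (ℤ × ℤ)) := by
  ext c
  unfold vcT
  rw [Set.mem_ofPred_eq, Set.mem_image]
  simp only [Finset.mem_coe]

omit h in
/-- The cells of the record. -/
theorem kst : D.kst g (D.rcd g (capR g.M) (vcT u a ζ σ) (idT u D g a ζ σ)) =
    D.kmx g (vcT u a ζ σ) := Dom.kst_rcd _ _ _ _ _

omit h in
/-- **The faces of the cells of the record are not visited.** -/
theorem mem_fcs {f : ℤ × ℤ} (hf : f ∈ blow u (D.fcs g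
    (D.rcd g (capR g.M) (vcT u a ζ σ) (idT u D g a ζ σ)))) :
    f ∈ blow u (D.inr g) ∧ f ∉ vs ζ a 0 σ := by
  rw [Blow.mem_blow, Dom.fcs_rcd, Dom.kmx_eq, vc_eq] at hf
  exact ⟨hf.1, fun hv => fcs_kmx_disj hf ⟨f, Finset.mem_coe.2 hv, rfl⟩⟩

end RdS

/-! ### The chain -/

section Chain

variable {n : ℕ} {s : TS} {q : Rule.Ndl} {D : Dom} {g : Grd} {ω : Cfg} {u : ℕ}
  {U T₀ : Set (ℤ × ℤ)} {σ : ℕ}

/-- **The record of a regular move is read correctly.** -/
theorem read_stop (h : RdS u (tmx n) D g U T₀ (pS s.V q ω s.t) (cfS s.V q ω) σ) :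
    stopT n u s q D g ω = s.t + σ ∧
    visC u s q ω (s.t + σ) =
      Blow.cl u '' (vs (cfS s.V q ω) (pS s.V q ω s.t) 0 σ : Set (ℤ × ℤ)) ∧
    (D.n₁ g ≤ stopI u s q D g ω (s.t + σ) ∧ stopI u s q D g ω (s.t + σ) < D.n₂ g ∧
      ∃ r : ℕ, r < u ∧ (subE u (side (D.inr g) D.A (stopI u s q D g ω (s.t + σ))) r).1 =
        pS s.V q ω (s.t + σ)) ∧
    (D.rcd g (capR g.M) (visC u s q ω (s.t + σ)) (stopI u s q D g ω (s.t + σ))).2 =
      D.rno g (stopI u s q D g ω (s.t + σ)) ∧
    D.kst g (D.rcd g (capR g.M) (visC u s q ω (s.t + σ)) (stopI u s q D g ω (s.t + σ))) =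
      D.kmx g (visC u s q ω (s.t + σ)) ∧
    (D.runI g (D.rno g (stopI u s q D g ω (s.t + σ))) ≤ stopI u s q D g ω (s.t + σ) ∧
      stopI u s q D g ω (s.t + σ) <
        D.runI g (D.rno g (stopI u s q D g ω (s.t + σ)) + 1)) ∧
    fa (pS s.V q ω (s.t + σ)) ∈ blow u (D.ent g
      (D.rcd g (capR g.M) (visC u s q ω (s.t + σ)) (stopI u s q D g ω (s.t + σ)))) ∧
    ∀ f ∈ blow u (D.fcs g
      (D.rcd g (capR g.M) (visC u s q ω (s.t + σ)) (stopI u s q D g ω (s.t + σ)))),
      f ∈ blow u (D.inr g) ∧ f ∉ vs (cfS s.V q ω) (pS s.V q ω s.t) 0 σ := by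
  have e1 : stopT n u s q D g ω = s.t + σ := by rw [stopT_eq, h.sg]
  have e2 : visC u s q ω (s.t + σ) = vcT u (pS s.V q ω s.t) (cfS s.V q ω) σ := visC_eq σ
  have e3 : stopI u s q D g ω (s.t + σ) = idT u D g (pS s.V q ω s.t) (cfS s.V q ω) σ := stopI_eq σ
  obtain ⟨-, k1, k2, r, k3, k4, -⟩ := h.side_id
  rw [e2, e3, pS_add]
  exact ⟨e1, RdS.vc_eq _ _ _ _, ⟨k1, k2, r, k3, k4⟩, h.snd, RdS.kst, h.run, h.mem_ent,
    fun f hf => RdS.mem_fcs hf⟩

end Chain

/-! ### The length of the strand up to the stop -/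

section Len

/-- The times before the first time with the property `P` have different unit edges. -/
theorem pth_inj_first {ζ : Cfg} {a : UE} {P : UE → Prop} {σ : ℕ} (h1 : ∀ i < σ, ¬ P (pth ζ a i))
    (h2 : P (pth ζ a σ)) : Set.InjOn (pth ζ a) {i | i ≤ σ} := by
  have key : ∀ i j, i < j → j ≤ σ → pth ζ a i ≠ pth ζ a j := by
    intro i j hij hj he
    refine h1 (i + (σ - j)) (by omega) ?_
    have e1 : pth ζ a (i + (σ - j)) = pth ζ a σ := by
      rw [← pth_add, he, pth_add]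
      congr 1
      omega
    rw [e1]
    exact h2
  intro i hi j hj he
  rcases lt_trichotomy i j with h | h | h
  · exact absurd he (key i j h hj)
  · exact h
  · exact absurd he.symm (key j i h hi)

open Pool.Agent.PercU (Cor vtx nxt qry adv rot)
open Pool.Agent.MP_6bd702.H23 (Ed ea eb ea_mk eb_true eb_false)

/-- The walk around a cluster stays at the vertices of `V` if the edges do. -/
theorem vtx_nxt_mem {S : Set Ed} {V : Finset (ℤ × ℤ)} (hS : ∀ e ∈ S, ea e ∈ V ∧ eb e ∈ V) {k : Cor}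
    (hk : vtx k ∈ V) : vtx (nxt S k) ∈ V := by
  unfold nxt
  split_ifs with h
  · have h1 := hS _ h
    obtain ⟨x, y, _ | _, _ | _⟩ := k
    · have e : vtx (adv (x, y, false, false)) = ea (qry (x, y, false, false)) := by
        simp [adv, vtx, qry, ea_mk]
      rw [e]; exact h1.1
    · have e : vtx (adv (x, y, false, true)) = ea (qry (x, y, false, true)) := by
        simp [adv, vtx, qry, ea_mk]
      rw [e]; exact h1.1
    · have e : vtx (adv (x, y, true, false)) = eb (qry (x, y, true, false)) := by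
        simp [adv, vtx, qry, eb_false]
      rw [e]; exact h1.2
    · have e : vtx (adv (x, y, true, true)) = eb (qry (x, y, true, true)) := by
        simp [adv, vtx, qry, eb_true]
      rw [e]; exact h1.2
  · obtain ⟨x, y, _ | _, _ | _⟩ := k <;> exact hk

theorem vtx_iterate_mem {S : Set Ed} {V : Finset (ℤ × ℤ)} (hS : ∀ e ∈ S, ea e ∈ V ∧ eb e ∈ V)
    {k : Cor} (hk : vtx k ∈ V) (t : ℕ) : vtx ((nxt S)^[t] k) ∈ V := by
  induction t with
  | zero => exact hk
  | succ t ih =>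
    rw [Function.iterate_succ_apply']
    exact vtx_nxt_mem hS ih

/-- **A bound for the first time** with the property `P`: the strand of a needle stays at the corners
of the remaining vertices. -/
theorem first_lt {n : ℕ} {V : Finset (ℤ × ℤ)} {q : Rule.Ndl} {ω : Cfg} (hV : V ⊆ Box n)
    (hk : ∃ k, NdF V q.1 k ∧ vtx k = q.2) {t σ : ℕ} {P : UE → Prop}
    (h1 : ∀ i < σ, ¬ P (pth (cfS V q ω) (pS V q ω t) i))
    (h2 : P (pth (cfS V q ω) (pS V q ω t) σ)) : σ < tmx n := by
  classical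
  obtain ⟨hN, -⟩ := bc_spec hk
  set S : Set Ed := ((rst (cfgE n ω) V ∪ q.1 : Finset Edg) : Set Ed) with hSdef
  have e1 : cfS V q ω = gT S := (gT_cfg hV q.1 ω).symm
  have e2 : ∀ i, pth (cfS V q ω) (pS V q ω t) i = kU ((nxt S)^[t + i] (bc V q.1 q.2)) := by
    intro i
    unfold pS Tru.eS
    rw [pth_add, e1, kU_iterate]
  have hin : ∀ i, vtx ((nxt S)^[t + i] (bc V q.1 q.2)) ∈ V := fun i =>
    vtx_iterate_mem (fun e he => hN.avoid (Finset.mem_coe.1 he)) hN.base _
  have hinj := pth_inj_first h1 h2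
  -- the corners
  set f : ℕ → (ℤ × ℤ) × (Bool × Bool) := fun i =>
    (vtx ((nxt S)^[t + i] (bc V q.1 q.2)), ((nxt S)^[t + i] (bc V q.1 q.2)).2.2) with hf
  have hmaps : ∀ i ∈ Finset.range (σ + 1), f i ∈ V ×ˢ (Finset.univ : Finset (Bool × Bool)) :=
    fun i _ => Finset.mem_product.2 ⟨hin i, Finset.mem_univ _⟩
  have hfinj : Set.InjOn f (Finset.range (σ + 1) : Set ℕ) := by
    intro i hi j hj he
    rw [Finset.coe_range, Set.mem_Iio] at hi hj
    refine hinj (show i ≤ σ by omega) (show j ≤ σ by omega) ?_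
    rw [e2, e2]
    congr 1
    rw [hf] at he
    simp only [Prod.mk.injEq] at he
    obtain ⟨he1, he2⟩ := he
    generalize (nxt S)^[t + i] (bc V q.1 q.2) = k at he1 he2
    generalize (nxt S)^[t + j] (bc V q.1 q.2) = k' at he1 he2
    obtain ⟨x, y, b⟩ := k
    obtain ⟨x', y', b'⟩ := k'
    unfold vtx at he1
    simp only [Prod.mk.injEq] at he1 he2 ⊢
    exact ⟨he1.1, he1.2, he2⟩
  have hcard := Finset.card_le_card_of_injOn f hmaps hfinj
  rw [Finset.card_range, Finset.card_product] at hcard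
  have h4 : (Finset.univ : Finset (Bool × Bool)).card = 4 := by decide
  have hVc : V.card ≤ (n + 1) ^ 2 := by
    refine (Finset.card_le_card hV).trans ?_
    unfold Box
    rw [Finset.card_product, Int.card_Icc]
    have : ((n : ℤ) + 1 - 0).toNat = n + 1 := by omega
    rw [this, sq]
  rw [h4] at hcard
  unfold tmx
  omega

end Len

section Read

variable {n : ℕ} {s : TS} {q : Rule.Ndl} {D : Dom} {g : Grd} {ω : Cfg} {u : ℕ}
  {U T₀ : Set (ℤ × ℤ)} {σ : ℕ}

/-- **The regular stop of a move of the chain**: the bound for the time holds. -/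
theorem rdS_of_stopR (hV : s.V ⊆ Box n) (hk : ∃ k, NdF s.V q.1 k ∧ PercU.vtx k = q.2) (hu : 0 < u)
    (hD : D.Val g) (hv : ¬ D.Void g) (hPU : blow u D.P ⊆ U)
    (hT : ∀ f ∈ T₀, f ∈ blow u D.P → f ∈ blow u (D.inr g))
    (hS : StopR (pS s.V q ω s.t) U T₀ (blow u (D.bar g))
      (runE (blow u (D.inr g)) (subE u D.A 0) (u * D.n₁ g) (u * D.n₂ g)) (cfS s.V q ω) σ) :
    RdS u (tmx n) D g U T₀ (pS s.V q ω s.t) (cfS s.V q ω) σ := by
  have h0 : RdS u σ D g U T₀ (pS s.V q ω s.t) (cfS s.V q ω) σ := ⟨hu, hD, hv, hPU, hT, hS, le_rfl⟩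
  exact ⟨hu, hD, hv, hPU, hT, hS,
    (first_lt hV hk (P := fun e => fa e ∈ blow u (D.P \ D.inr g)) h0.bef h0.ent).le⟩

end Read

end Pool.Agent.SixB.Tru
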