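import Pool.Agent.Lib.SixB.S8Sub
import Pool.Agent.Lib.SixB.S8Lay
import Pool.Agent.Lib.SixB.S8Trans
import Pool.Agent.Lib.SixB.S8App

/-!
# Step 8: the coarse state at the start of a needle step

`U` is the set of the fresh faces, `P` a region made of cells inside `U`, with classes `κ` outside of
`P`. A needle `Q` is frozen. The new coarse region is a component `P'` of `P` without the cells which
meet the needle (`VQ`), inside the component `U'` of `U \ Q`. The classes of the new state are the old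
ones outside of `P`, and the cells of `VQ`. The contour of `P'` consists of one interval of sides of `P`
and one interval of sides of `VQ`; away from the base of the needle the latter are linked to the sides
of `Q`, the former to the old sides of `U`.
-/

set_option autoImplicit false

namespace Pool.Agent.SixB.StartA

open Pool.Agent.Perc Pool.Agent.Perc6 Pool.Agent.Perc6.C2Aux Pool.Agent.Perc.Tips
open Pool.Agent.SixB.Top Pool.Agent.SixB.LC

variable {ι : Type*}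

theorem rtg_mono {α : Type*} {r p : α → α → Prop} (h : ∀ a b, r a b → p a b) {x y : α}
    (hx : Relation.ReflTransGen r x y) : Relation.ReflTransGen p x y := by
  induction hx with
  | refl => exact Relation.ReflTransGen.refl
  | tail _ hs ih => exact ih.tail (h _ _ hs)

/-- The faces of the cells (classes of `γ`) in `P` which meet `Q`. -/
def VQ (P Q : Set (ℤ × ℤ)) (γ : ℤ × ℤ → ℤ × ℤ) : Set (ℤ × ℤ) := {f | f ∈ P ∧ ∃ q ∈ Q, γ q = γ f}

open Classical in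
/-- The new classes: the old ones outside of `P`, the cells in `V`, single faces in `P \ V`. -/
noncomputable def kapS (κ : ℤ × ℤ → ι) (P V : Set (ℤ × ℤ)) (γ : ℤ × ℤ → ℤ × ℤ) (f : ℤ × ℤ) :
    ι ⊕ (Bool × (ℤ × ℤ)) :=
  if f ∈ V then Sum.inr (true, γ f) else if f ∈ P then Sum.inr (false, f) else Sum.inl (κ f)

section Kap

variable {κ : ℤ × ℤ → ι} {P V Q : Set (ℤ × ℤ)} {γ : ℤ × ℤ → ℤ × ℤ} {f g : ℤ × ℤ}

theorem kapS_V (hf : f ∈ V) : kapS κ P V γ f = Sum.inr (true, γ f) := by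
  unfold kapS; rw [if_pos hf]

theorem kapS_P (hf : f ∉ V) (hfP : f ∈ P) : kapS κ P V γ f = Sum.inr (false, f) := by
  unfold kapS; rw [if_neg hf, if_pos hfP]

theorem kapS_out (hf : f ∉ V) (hfP : f ∉ P) : kapS κ P V γ f = Sum.inl (κ f) := by
  unfold kapS; rw [if_neg hf, if_neg hfP]

theorem kapS_eq_V (hf : f ∈ V) (h : kapS κ P V γ f = kapS κ P V γ g) : g ∈ V ∧ γ g = γ f := by
  rw [kapS_V hf] at h
  by_cases hg : g ∈ V
  · rw [kapS_V hg] at h
    simp only [Sum.inr.injEq, Prod.mk.injEq, true_and] at h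
    exact ⟨hg, h.symm⟩
  · by_cases hgP : g ∈ P
    · rw [kapS_P hg hgP] at h; simp at h
    · rw [kapS_out hg hgP] at h; simp at h

theorem kapS_eq_P (hf : f ∉ V) (hfP : f ∈ P) (h : kapS κ P V γ f = kapS κ P V γ g) : g = f := by
  rw [kapS_P hf hfP] at h
  by_cases hg : g ∈ V
  · rw [kapS_V hg] at h; simp at h
  · by_cases hgP : g ∈ P
    · rw [kapS_P hg hgP] at h
      simp only [Sum.inr.injEq, Prod.mk.injEq, true_and] at h
      exact h.symm
    · rw [kapS_out hg hgP] at h; simp at h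

theorem kapS_eq_out (hVP : V ⊆ P) (hfP : f ∉ P) (h : kapS κ P V γ f = kapS κ P V γ g) :
    g ∉ P ∧ κ g = κ f := by
  rw [kapS_out (fun h => hfP (hVP h)) hfP] at h
  by_cases hg : g ∈ V
  · rw [kapS_V hg] at h; simp at h
  · by_cases hgP : g ∈ P
    · rw [kapS_P hg hgP] at h; simp at h
    · rw [kapS_out hg hgP] at h
      simp only [Sum.inl.injEq] at h
      exact ⟨hgP, h.symm⟩

theorem VQ_sub : VQ P Q γ ⊆ P := fun _ h => h.1

theorem VQ_sat (hγP : ∀ x y, γ x = γ y → x ∈ P → y ∈ P) {x y : ℤ × ℤ} (h : γ x = γ y)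
    (hx : x ∈ VQ P Q γ) : y ∈ VQ P Q γ := by
  obtain ⟨h1, q, hq, h2⟩ := hx
  exact ⟨hγP x y h h1, q, hq, h2.trans h⟩

theorem mem_VQ_of_Q (hf : f ∈ P) (hq : f ∈ Q) : f ∈ VQ P Q γ := ⟨hf, f, hq, rfl⟩

/-- The new classes are connected. -/
theorem kapS_cell (hsat : ∀ x y, κ x = κ y → x ∈ P → y ∈ P)
    (hcell : ∀ x y, κ x = κ y → Chn {z | κ z = κ x} x y)
    (hγP : ∀ x y, γ x = γ y → x ∈ P → y ∈ P) (hγ : ∀ x y, γ x = γ y → Chn {z | γ z = γ x} x y)
    {x y : ℤ × ℤ} (h : kapS κ P (VQ P Q γ) γ x = kapS κ P (VQ P Q γ) γ y) :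
    Chn {z | kapS κ P (VQ P Q γ) γ z = kapS κ P (VQ P Q γ) γ x} x y := by
  by_cases hx : x ∈ VQ P Q γ
  · obtain ⟨hy, hxy⟩ := kapS_eq_V hx h
    have h1 := hγ x y hxy.symm
    refine ⟨rfl, rtg_mono (fun a b hab => ⟨hab.1, ?_⟩) h1.2⟩
    have h2 : γ b = γ x := hab.2
    have h3 : b ∈ VQ P Q γ := VQ_sat hγP h2.symm hx
    show kapS κ P (VQ P Q γ) γ b = _
    rw [kapS_V h3, kapS_V hx, h2]
  · by_cases hxP : x ∈ P
    · have := kapS_eq_P hx hxP h
      subst this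
      exact ⟨rfl, Relation.ReflTransGen.refl⟩
    · obtain ⟨hyP, hxy⟩ := kapS_eq_out VQ_sub hxP h
      have h1 := hcell x y hxy.symm
      refine ⟨rfl, rtg_mono (fun a b hab => ⟨hab.1, ?_⟩) h1.2⟩
      have h2 : κ b = κ x := hab.2
      have h3 : b ∉ P := fun hb => hxP (hsat b x h2 hb)
      show kapS κ P (VQ P Q γ) γ b = _
      rw [kapS_out (fun hh => h3 (VQ_sub hh)) h3, kapS_out hx hxP, h2]

/-- The new classes are small. -/
theorem kapS_diam {d : ℤ} (hd : ∀ x y, κ x = κ y → |x.1 - y.1| < d ∧ |x.2 - y.2| < d)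
    (hdγ : ∀ x y, γ x = γ y → |x.1 - y.1| < d ∧ |x.2 - y.2| < d)
    {x y : ℤ × ℤ} (h : kapS κ P (VQ P Q γ) γ x = kapS κ P (VQ P Q γ) γ y) :
    |x.1 - y.1| < d ∧ |x.2 - y.2| < d := by
  by_cases hx : x ∈ VQ P Q γ
  · exact hdγ _ _ (kapS_eq_V hx h).2.symm
  · by_cases hxP : x ∈ P
    · rw [kapS_eq_P hx hxP h]
      exact hdγ x x rfl
    · exact hd _ _ (kapS_eq_out VQ_sub hxP h).2.symm

/-- The new region is saturated. -/
theorem kapS_sat {R : Set (ℤ × ℤ)} (hR : R ⊆ P \ VQ P Q γ) {x y : ℤ × ℤ}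
    (h : kapS κ P (VQ P Q γ) γ x = kapS κ P (VQ P Q γ) γ y) (hx : x ∈ R) : y ∈ R := by
  obtain ⟨h1, h2⟩ := hR hx
  rw [kapS_eq_P h2 h1 h]
  exact hx

/-- A class outside of the new region which is adjacent to it contains a face outside of `U'`. -/
theorem kapS_not {U U' R : Set (ℤ × ℤ)} (hsat : ∀ x y, κ x = κ y → x ∈ P → y ∈ P)
    (hnot : ∀ f ∈ P, ∀ g, AdjF f g → g ∉ P → ∃ x, κ x = κ g ∧ x ∉ U)
    (hγP : ∀ x y, γ x = γ y → x ∈ P → y ∈ P)
    (hU' : U' ⊆ U \ Q) (hR : R ⊆ P \ VQ P Q γ)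
    (hcl : ∀ f ∈ R, ∀ g, AdjF f g → g ∈ P \ VQ P Q γ → g ∈ R) :
    ∀ f ∈ R, ∀ g, AdjF f g → g ∉ R →
      ∃ x, kapS κ P (VQ P Q γ) γ x = kapS κ P (VQ P Q γ) γ g ∧ x ∉ U' := by
  intro f hf g hfg hg
  by_cases hgP : g ∈ P
  · have hgV : g ∈ VQ P Q γ := by
      by_contra h
      exact hg (hcl f hf g hfg ⟨hgP, h⟩)
    obtain ⟨-, q, hq, hqg⟩ := hgV
    have hqV : q ∈ VQ P Q γ := VQ_sat hγP hqg.symm ⟨hgP, q, hq, hqg⟩
    refine ⟨q, ?_, fun h => (hU' h).2 hq⟩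
    rw [kapS_V hqV, kapS_V (show g ∈ VQ P Q γ from ⟨hgP, q, hq, hqg⟩), hqg]
  · obtain ⟨x, h1, h2⟩ := hnot f (hR hf).1 g hfg hgP
    have hxP : x ∉ P := fun h => hgP (hsat x g h1 h)
    refine ⟨x, ?_, fun h => h2 (hU' h).1⟩
    rw [kapS_out (fun h => hxP h.1) hxP, kapS_out (fun h => hgP h.1) hgP, h1]

end Kap

/-! ### The approximation -/

section App

variable {κ : ℤ × ℤ → ι} {U U' P R Q : Set (ℤ × ℤ)} {γ : ℤ × ℤ → ℤ × ℤ} {f₀ q₀ g₀ : ℤ × ℤ} {d : ℤ}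

/-- **The approximation at the start.** -/
theorem app_start (A : App U P κ d) (hγP : ∀ x y, γ x = γ y → x ∈ P → y ∈ P)
    (hγ : ∀ x y, γ x = γ y → Chn {z | γ z = γ x} x y)
    (hdγ : ∀ x y, γ x = γ y → |x.1 - y.1| < d ∧ |x.2 - y.2| < d)
    (hU' : U' ⊆ U \ Q) (hR : R ⊆ P \ VQ P Q γ) (hRU : R ⊆ U')
    (hcl : ∀ f ∈ R, ∀ g, Adj f g → g ∈ P \ VQ P Q γ → g ∈ R) :
    App U' R (kapS κ P (VQ P Q γ) γ) d := by
  refine ⟨hRU, fun x y h hx => kapS_sat hR h hx, fun x y h => kapS_cell A.sat A.cell hγP hγ h,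
    fun x y h => kapS_diam A.diam hdγ h, fun f hf g hfg hg => ?_⟩
  exact kapS_not A.sat (fun f hf g hfg hg => A.out f hf g (adj_iff_adjFL.2 hfg) hg) hγP hU' hR
    (fun f hf g hfg hg => hcl f hf g (adj_iff_adjFL.2 hfg) hg) f hf g (adj_iff_adjFL.1 hfg) hg

/-- The approximation at the start, for components. -/
theorem app_start_comp (A : App U P κ d) (hγP : ∀ x y, γ x = γ y → x ∈ P → y ∈ P)
    (hγ : ∀ x y, γ x = γ y → Chn {z | γ z = γ x} x y)
    (hdγ : ∀ x y, γ x = γ y → |x.1 - y.1| < d ∧ |x.2 - y.2| < d) (hf₀ : f₀ ∈ P \ VQ P Q γ) :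
    App (compT (U \ Q) f₀) (compT (P \ VQ P Q γ) f₀) (kapS κ P (VQ P Q γ) γ) d := by
  have hsub : P \ VQ P Q γ ⊆ U \ Q := fun f hf => ⟨A.sub hf.1, fun h => hf.2 (mem_VQ_of_Q hf.1 h)⟩
  exact app_start A hγP hγ hdγ (compT_sub (hsub hf₀)) (compT_sub hf₀) (compT_mono hsub)
    fun f hf g hfg hg => compT_step hf (adj_iff_adjFL.1 hfg) hg

end App

/-! ### The contour of the new region -/

section Contour

variable {P Q : Set (ℤ × ℤ)} {γ : ℤ × ℤ → ℤ × ℤ} {f₀ q₀ : ℤ × ℤ}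

theorem comp_sub_P (hf₀ : f₀ ∈ P \ VQ P Q γ) : compT (P \ VQ P Q γ) f₀ ⊆ P := fun _ h =>
  (compT_sub hf₀ h).1

theorem chn_joinIn {S : Set (ℤ × ℤ)} {x y : ℤ × ℤ} (h : Chn S x y) : JoinIn S x y :=
  rtg_mono (fun _ _ hab => ⟨adj_iff_adjFL.1 hab.1, hab.2⟩) h.2

theorem joinIn_mono {S T : Set (ℤ × ℤ)} (hST : S ⊆ T) {x y : ℤ × ℤ} (h : JoinIn S x y) :
    JoinIn T x y := rtg_mono (fun _ _ hab => ⟨hab.1, hST hab.2⟩) h

/-- The cells which meet the needle are connected. -/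
theorem VQ_join (hγP : ∀ x y, γ x = γ y → x ∈ P → y ∈ P)
    (hγ : ∀ x y, γ x = γ y → Chn {z | γ z = γ x} x y)
    (hQ : ∀ q ∈ Q, q ∈ P → JoinIn (Q ∩ P) q q₀) {y : ℤ × ℤ} (hy : y ∈ VQ P Q γ) :
    JoinIn (VQ P Q γ) y q₀ := by
  have hy' := hy
  obtain ⟨hyP, q, hq, hqy⟩ := hy
  have hqP : q ∈ P := hγP y q hqy.symm hyP
  have h1 : JoinIn (VQ P Q γ) y q :=
    joinIn_mono (fun z hz => VQ_sat hγP (show γ y = γ z from hz.symm) hy')
      (chn_joinIn (hγ y q hqy.symm))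
  exact h1.trans (joinIn_mono (fun z hz => mem_VQ_of_Q hz.2 hz.1) (hQ q hq hqP))

/-- **The contour of the new region**: one interval of sides of `P` and one interval of sides of the
cells of the needle. -/
theorem contig_start (hPf : P.Finite) (hPc : Top.EConn P) (hPe : Esc P)
    (hγP : ∀ x y, γ x = γ y → x ∈ P → y ∈ P) (hγ : ∀ x y, γ x = γ y → Chn {z | γ z = γ x} x y)
    (hQ : ∀ q ∈ Q, q ∈ P → JoinIn (Q ∩ P) q q₀) (hq₀ : q₀ ∈ Q) (hf₀ : f₀ ∈ P \ VQ P Q γ)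
    {A : UE × Bool} (hA : BD P A) (hAG : BD (compT (P \ VQ P Q γ) f₀) A) {mP mG : ℕ}
    (hmP : Per P mP A) (hmG : Per (compT (P \ VQ P Q γ) f₀) mG A) {p : ℕ} (hp : p < mP)
    (hpq : ahead ((sc P)^[p] A) = q₀) :
    ∃ s t u, s + 1 < t ∧ t ≤ mG ∧ s < p ∧ p < u ∧ u + (mG - t) = mP ∧
      (∀ i ≤ s, (sc (compT (P \ VQ P Q γ) f₀))^[i] A = (sc P)^[i] A) ∧
      (∀ i, s < i → i < t → ahead (rv ((sc (compT (P \ VQ P Q γ) f₀))^[i] A)) ∈ VQ P Q γ) ∧
      (∀ j, t + j ≤ mG → (sc (compT (P \ VQ P Q γ) f₀))^[t + j] A = (sc P)^[u + j] A) := by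
  set G := compT (P \ VQ P Q γ) f₀ with hG
  have hGP : G ⊆ P := comp_sub_P hf₀
  have hVG : VQ P Q γ ⊆ P \ G := fun z hz => ⟨hz.1, fun h => (compT_sub hf₀ h).2 hz⟩
  have hq₀P : q₀ ∈ P := by rw [← hpq]; exact (hA.iterate p).1
  have hq₀V : q₀ ∈ VQ P Q γ := mem_VQ_of_Q hq₀P hq₀
  obtain ⟨s, t, u, h1, h2, h3, h4, h5, h6, h7, h8⟩ := contig hPf hPc hPe hGP
    (econn_compT hf₀) hA hAG hmP hmG (p := p) (q := p) le_rfl hp
    (fun i hi1 hi2 => by
      have : i = p := le_antisymm hi2 hi1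
      rw [this, hpq]
      exact (hVG hq₀V).2)
    (fun f hf y hfy hyP hyG => by
      refine ⟨p, le_rfl, le_rfl, ?_⟩
      have hyV : y ∈ VQ P Q γ := by
        by_contra h
        exact hyG (compT_step hf hfy ⟨hyP, h⟩)
      rw [hpq]
      exact joinIn_mono hVG (VQ_join hγP hγ hQ hyV))
  refine ⟨s, t, u, h1, h2, h3, h4, h5, h6, fun i hi1 hi2 => ?_, h8⟩
  have hB := hAG.iterate i
  have hn := h7 i hi1 hi2
  have hin : ahead (rv ((sc G)^[i] A)) ∈ P := by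
    by_contra h
    exact hn ⟨hGP hB.1, h⟩
  by_contra h
  exact hB.2 (compT_step hB.1 (adjF_ahead_sub hB) ⟨hin, h⟩)

end Contour

/-! ### No holes -/

section Disc

variable {P Q : Set (ℤ × ℤ)} {γ : ℤ × ℤ → ℤ × ℤ} {f₀ q₀ g₀ : ℤ × ℤ}

/-- `P` without the cells of the needle has no holes, if the needle starts at the boundary. -/
theorem esc_start (hPe : Esc P) (hγP : ∀ x y, γ x = γ y → x ∈ P → y ∈ P)
    (hγ : ∀ x y, γ x = γ y → Chn {z | γ z = γ x} x y)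
    (hQ : ∀ q ∈ Q, q ∈ P → JoinIn (Q ∩ P) q q₀) (hg₀ : g₀ ∉ P) (hqg : AdjF q₀ g₀) :
    Esc (P \ VQ P Q γ) := by
  refine hPe.diff fun y hy => ⟨g₀, hg₀, ?_⟩
  have h1 : ChI (VQ P Q γ) y q₀ := VQ_join hγP hγ hQ hy
  have h2 := h1.stepC (W := P \ VQ P Q γ) fun z hz hz' => hz'.2 hz
  exact h2.tail ⟨hqg, fun h => hg₀ h.1⟩

theorem comp_start (hPf : P.Finite) (hPe : Esc P) (hγP : ∀ x y, γ x = γ y → x ∈ P → y ∈ P)
    (hγ : ∀ x y, γ x = γ y → Chn {z | γ z = γ x} x y)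
    (hQ : ∀ q ∈ Q, q ∈ P → JoinIn (Q ∩ P) q q₀) (hg₀ : g₀ ∉ P) (hqg : AdjF q₀ g₀)
    (hf₀ : f₀ ∈ P \ VQ P Q γ) :
    Top.EConn (compT (P \ VQ P Q γ) f₀) ∧ Esc (compT (P \ VQ P Q γ) f₀) :=
  ⟨econn_compT hf₀, esc_compT (hPf.subset Set.sdiff_subset)
    (esc_start hPe hγP hγ hQ hg₀ hqg) hf₀⟩

end Disc

/-! ### Labels -/

/-- A boundary side of `F` with outer face in `X`. -/
def OutIn (F X : Set (ℤ × ℤ)) (e : UE) : Prop := ∃ g ∈ X, g ∉ F ∧ IsSide g e

section Labels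

variable {κ : ℤ × ℤ → ι} {γ : ℤ × ℤ → ℤ × ℤ} {T R : Finset (ℤ × ℤ)} {U P Q : Set (ℤ × ℤ)}

/-- The two faces at a boundary side. -/
theorem out_unique {F : Set (ℤ × ℤ)} {e : UE} {f g k : ℤ × ℤ} (hf : f ∈ F) (hg : g ∉ F)
    (hfs : IsSide f e) (hgs : IsSide g e) (hks : IsSide k e) :
    (k ∈ F → k = f) ∧ (k ∉ F → k = g) := by
  have hne : f ≠ g := fun h => hg (h ▸ hf)
  rcases side_two hne hfs hgs hks with rfl | rfl
  · exact ⟨fun _ => rfl, fun h => absurd hf h⟩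
  · exact ⟨fun h => absurd h hg, fun _ => rfl⟩

theorem side_near {e : UE} {f : ℤ × ℤ} (h : IsSide f e) : InB (ua e) 1 f := by
  obtain ⟨x, y, b⟩ := e
  obtain ⟨f1, f2⟩ := f
  unfold IsSide bo ri to' le' at h
  unfold InB ua
  simp only [Prod.mk.injEq] at h
  cases b <;> simp at h <;> simp <;> omega

/-- **The labels at the start.** Outside of a box around the base of the needle, the sides of the
contour of `R` with outer face in a cell of the needle are linked to the sides of `T` with outer face in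
`Q` only, the other sides of `R` are linked to the other sides of `T` only. -/
theorem lab_start (hPU : P ⊆ U)
    (hTcl : ∀ f ∈ T, ∀ g, AdjF f g → g ∈ U → g ∉ Q → g ∈ T)
    (hRT : R ⊆ T) (hRcl : ∀ f ∈ R, ∀ g, AdjF f g → g ∈ P \ VQ P Q γ → g ∈ R) {d : ℤ}
    (hd : ∀ x y, κ x = κ y → |x.1 - y.1| < d ∧ |x.2 - y.2| < d)
    (hdγ : ∀ x y, γ x = γ y → |x.1 - y.1| < d ∧ |x.2 - y.2| < d) {b : ℤ × ℤ} {t : ℤ}
    (hfar : ∀ q ∈ Q, ¬ InB b t q → ∀ x, InB q d x → x ∈ P) {e e' : UE}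
    (he : BdU (R : Set (ℤ × ℤ)) e) (he' : BdU (T : Set (ℤ × ℤ)) e')
    (hl : LinkC T R (kapS κ P (VQ P Q γ) γ) e e') (hb : ¬ InB b (t + d + 3) (ua e)) :
    OutIn (R : Set (ℤ × ℤ)) (VQ P Q γ) e ↔ OutIn (T : Set (ℤ × ℤ)) Q e' := by
  obtain ⟨⟨f, hf, hfs⟩, g, hg, hgs⟩ := he
  obtain ⟨⟨f', hf', hfs'⟩, g', hg', hgs'⟩ := he'
  have hd0 : 0 < d := by
    have := (hd f f rfl).1
    simpa using this
  have hfg : AdjF f g := ⟨fun h => hg (h ▸ hf), e, hfs, hgs⟩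
  have hfg' : AdjF f' g' := ⟨fun h => hg' (h ▸ hf'), e', hfs', hgs'⟩
  have hgQ' : g' ∉ Q → g' ∉ U := fun h1 h2 => hg' (hTcl f' hf' g' hfg' h2 h1)
  -- the outer faces
  have o1 : OutIn (R : Set (ℤ × ℤ)) (VQ P Q γ) e ↔ g ∈ VQ P Q γ := by
    constructor
    · rintro ⟨k, hk, hkR, hks⟩
      rw [← (out_unique hf hg hfs hgs hks).2 hkR]
      exact hk
    · exact fun h => ⟨g, h, hg, hgs⟩
  have o2 : OutIn (T : Set (ℤ × ℤ)) Q e' ↔ g' ∈ Q := by
    constructor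
    · rintro ⟨k, hk, hkR, hks⟩
      rw [← (out_unique hf' hg' hfs' hgs' hks).2 hkR]
      exact hk
    · exact fun h => ⟨g', h, hg', hgs'⟩
  rw [o1, o2]
  have hgn := side_near hgs
  rcases hl with rfl | ⟨s, hs1, hs2, -, ⟨a, has, hae⟩, a', has', hae'⟩
  · -- the same side
    have hgg : g = g' := (out_unique hf' hg' hfs' hgs' hgs).2 (fun h => by
      have h1 := (out_unique hf' hg' hfs' hgs' hfs).1 (hRT hf)
      have h2 := (out_unique hf' hg' hfs' hgs' hgs).1 h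
      exact hg (h2.trans h1.symm ▸ hf))
    subst hgg
    constructor
    · intro h
      by_contra hn
      exact hgQ' hn (hPU h.1)
    · intro h
      by_cases hgP : g ∈ P
      · exact mem_VQ_of_Q hgP h
      · exfalso
        by_cases hin : InB b t g
        · apply hb
          unfold InB at *
          omega
        · exact hgP (hfar g h hin g (by unfold InB; omega))
  · -- a link through a class
    have hag : a = g := (out_unique hf hg hfs hgs hae).2 fun h => (hs1 a has).2 h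
    have haf : a' = f' := (out_unique hf' hg' hfs' hgs' hae').1 (hs1 a' has').1
    subst hag
    subst haf
    have hk := hs2 a has a' has'
    have hn' : InB a' 1 g' := by
      rcases adjF_iff.1 hfg' with h | h | h | h <;> rw [h] <;> unfold InB <;> simp <;> omega
    constructor
    · intro h
      obtain ⟨h1, h2⟩ := kapS_eq_V h hk
      by_contra hn
      have hgU := hgQ' hn
      obtain ⟨-, q, hq, hqa⟩ := h
      have n1 := hdγ q a hqa
      have n2 := hdγ q a' (hqa.trans h2.symm)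
      rw [abs_lt, abs_lt] at n1 n2
      by_cases hin : InB b t q
      · apply hb
        unfold InB at *
        omega
      · refine hgU (hPU (hfar q hq hin g' ?_))
        unfold InB at *
        omega
    · intro h
      by_contra hn
      have haP : a ∉ P := fun haP => hg (hRcl f hf a hfg ⟨haP, hn⟩)
      obtain ⟨h1, h2⟩ := kapS_eq_out VQ_sub haP hk
      have n1 := hd a a' h2.symm
      rw [abs_lt, abs_lt] at n1
      by_cases hin : InB b t g'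
      · apply hb
        unfold InB at *
        omega
      · refine h1 (hfar g' h hin a' ?_)
        unfold InB at *
        omega

end Labels

end Pool.Agent.SixB.StartA
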