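import Pool.Agent.Lib.SixB.S8MvInst
import Pool.Agent.Lib.SixB.S8Start

/-!
# Step 8: the stored discs in truth

`StW X F d`: every component of `X` (the magnified stored set) is an approximation, with classes of
diameter `< d`, of some set `F₀` which contains the present set `F` of all fresh faces (`F₀` = the fresh
faces at the time at which the component was stored, or later). It is monotone in `F`; it is preserved by
taking parts (`StW.part`), by adding the rest after a move (`StW.add_rest`), by the erosion of a component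
(`StW.erode`) and by a needle (`StW.needle`). For the stages of the scan: `StW.reg`, `StW.void`, `StW.erW`,
`StW.plant`.
-/

set_option autoImplicit false

namespace Pool.Agent.SixB.Mv

open Pool.Agent.Perc Pool.Agent.Perc6 Pool.Agent.Perc6.C2Aux Pool.Agent.Perc.Tips
open Pool.Agent.SixB.Top Pool.Agent.SixB.EndApp
open Pool.Agent.SixB.Blow (cl adj_cl exists_cl mem_blow)

variable {X Y F F' U P Q : Set (ℤ × ℤ)} {d d' L a b : ℤ} {f z : ℤ × ℤ} {u : ℕ}

/-- Every component of `X` is an approximation of a set which contains `F`. -/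
def StW (X F : Set (ℤ × ℤ)) (d : ℤ) : Prop :=
  ∀ f ∈ X, ∃ (κ : ℤ × ℤ → ℤ × ℤ) (F₀ : Set (ℤ × ℤ)), F ⊆ F₀ ∧ App F₀ (compT X f) κ d

theorem stW_empty : StW ∅ F d := fun _ h => h.elim

/-- An approximation of a component of the fresh faces is an approximation of the fresh faces. -/
theorem _root_.Pool.Agent.SixB.App.total {ι : Type*} {κ : ℤ × ℤ → ι} (h : App U P κ d)
    (hU : Uoc U F) : App F P κ d := by
  refine ⟨h.sub.trans hU.sub, h.sat, h.cell, h.diam, fun f hf g hfg hg => ?_⟩
  obtain ⟨x, hx, hxU⟩ := h.out f hf g hfg hg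
  by_cases hgF : g ∈ F
  · have hgU : g ∈ U := hU.clo f (h.sub hf) g hgF (adj_iff_adjFL.1 hfg)
    by_contra hcon
    push Not at hcon
    -- the class of `g` is contained in `F`, so in `U`
    have h1 : ChI F g x := ChI.mono (fun z hz => hcon z hz) (chn_chI (h.cell g x hx.symm))
    exact hxU (hU.mem hgU h1)
  · exact ⟨g, rfl, hgF⟩

theorem StW.anti (h : StW X F d) (hF : F' ⊆ F) : StW X F' d := fun f hf => by
  obtain ⟨κ, F₀, h1, h2⟩ := h f hf
  exact ⟨κ, F₀, hF.trans h1, h2⟩

theorem StW.mono (h : StW X F d) (hd : d ≤ d') : StW X F d' := fun f hf => by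
  obtain ⟨κ, F₀, h1, h2⟩ := h f hf
  exact ⟨κ, F₀, h1, h2.mono hd⟩

theorem StW.part (h : StW X F d) (hY : Uoc Y X) : StW Y F d := fun f hf => by
  rw [hY.compT hf]
  exact h f (hY.sub hf)

theorem StW.union (h : StW X F d) (h' : StW Y F d) (hS : Sep X Y) : StW (X ∪ Y) F d := by
  rintro f (hf | hf)
  · rw [hS.compT_left hf]
    exact h f hf
  · rw [hS.compT_right hf]
    exact h' f hf

/-- The components of an approximation. -/
theorem StW.of_app {κ : ℤ × ℤ → ℤ × ℤ} (h : App F X κ d) : StW X F d := fun _ hf =>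
  ⟨κ, F, subset_rfl, h.part (uoc_compT hf) ((compT_sub hf).trans h.sub) subset_rfl⟩

/-- **Adding a part of the rest after a move.** -/
theorem StW.add_rest {κ : ℤ × ℤ → ℤ × ℤ} (h : StW X F d) (hF : F' ⊆ F) (hA : App F' P κ d')
    (hd : d ≤ d') (hY : Uoc Y P) (hS : Sep X Y) : StW (X ∪ Y) F' d' :=
  ((h.anti hF).mono hd).union ((StW.of_app hA).part hY) hS

/-! ### Erosion -/

/-- The set with the component of `z` eroded. -/
theorem uoc_er_left (hz : z ∈ X) (L' : ℤ) :
    Sep (X \ compT X z) (er3 (gc a b L') (compT X z)) :=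
  (uoc_compT hz).sep.symm.mono subset_rfl er3_subset

/-- **Erosion of a component.** -/
theorem StW.erode (h : StW X F d) (hL : 0 < L) (hz : z ∈ X) :
    StW ((X \ compT X z) ∪ er3 (gc a b L) (compT X z)) F (d + 6 * L + 6) := by
  have h1 : StW (X \ compT X z) F (d + 6 * L + 6) :=
    (h.part (uoc_compT hz).compl).mono (by omega)
  refine h1.union ?_ (uoc_er_left hz L)
  intro f hf
  obtain ⟨κ, F₀, hF, hA⟩ := h z hz
  have hsub : compT (er3 (gc a b L) (compT X z)) f ⊆ er3 (gc a b L) (compT X z) := compT_sub hf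
  obtain ⟨κ', hA'⟩ := hA.erodeC (c := gc a b L) (D := L) (P' := compT (er3 (gc a b L) (compT X z)) f)
    (U' := F₀) (fun x y hxy => gc_chn hL hxy) (fun x y hxy => gc_diam hL hxy) subset_rfl hsub
    (hsub.trans (er3_subset.trans hA.sub)) (compT_er3_sat hL hf) (compT_er3_clo)
  obtain ⟨κ'', -, hA''⟩ := hA'.rep
  exact ⟨κ'', F₀, hF, hA''⟩

/-! ### A needle -/

/-- **A needle**: the cells of the component of `z` which meet `Q` are removed, the faces of `Q` are not
fresh any more. -/
theorem StW.needle {γ : ℤ × ℤ → ℤ × ℤ} (h : StW X F d) (hz : z ∈ X)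
    (hγP : ∀ x y, γ x = γ y → x ∈ compT X z → y ∈ compT X z)
    (hγ : ∀ x y, γ x = γ y → Chn {z | γ z = γ x} x y)
    (hdγ : ∀ x y, γ x = γ y → |x.1 - y.1| < d ∧ |x.2 - y.2| < d) :
    StW ((X \ compT X z) ∪ (compT X z \ StartA.VQ (compT X z) Q γ)) (F \ Q) d := by
  have h1 : StW (X \ compT X z) (F \ Q) d :=
    (h.part (uoc_compT hz).compl).anti Set.sdiff_subset
  refine h1.union ?_ ((uoc_compT hz).sep.symm.mono subset_rfl Set.sdiff_subset)
  intro f hf
  obtain ⟨κ, F₀, hF, hA⟩ := h z hz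
  have hsub : compT (compT X z \ StartA.VQ (compT X z) Q γ) f ⊆
      compT X z \ StartA.VQ (compT X z) Q γ := compT_sub hf
  have hA' := StartA.app_start (U' := F₀ \ Q)
    (R := compT (compT X z \ StartA.VQ (compT X z) Q γ) f) hA hγP hγ hdγ subset_rfl hsub
    (fun x hx => ⟨hA.sub (hsub hx).1, fun hq => (hsub hx).2 (StartA.mem_VQ_of_Q (hsub hx).1 hq)⟩)
    (fun x hx y hxy hy => compT_step hx (adj_iff_adjFL.1 hxy) hy)
  obtain ⟨κ'', -, hA''⟩ := hA'.rep
  exact ⟨κ'', F₀ \ Q, fun x hx => ⟨hF hx.1, hx.2⟩, hA''⟩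

/-! ### One move -/

/-- **The stored part after a regular move.** `F` = the fresh faces before the move, `N` = the visited
faces, `W` = the stored cells, `Y` = the part of the rest which is stored. -/
theorem StW.reg {s : Dom} {g : Grd} {ρ : Rec} {N W Y : Set (ℤ × ℤ)} {κ : ℤ × ℤ → ℤ × ℤ} {r : ℤ}
    (h : StW (blow u W) F r) (H : Dom.RegMv s g ρ u F N) (hA : App F (blow u s.P) κ r)
    (hF : F' ⊆ F \ N) (hY : Uoc Y (s.P \ s.rem g ρ)) (hS : Sep W Y) :
    StW (blow u (W ∪ Y)) F' (r + 7 * (u * g.L)) := by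
  have hu' : (0 : ℤ) < u := by exact_mod_cast H.hu
  obtain ⟨κ', hA', -, -⟩ := H.app hA
  have h0 : (0 : ℤ) ≤ 7 * (u * g.L) := by
    have := H.val.hL
    positivity
  exact (h.add_rest (F' := F \ N) Set.sdiff_subset hA' (by omega) (hY.blow hu') (hS.blow hu')).anti hF

/-- **The stored part after a void move.** -/
theorem StW.void {s : Dom} {g : Grd} {ρ : Rec} {W Y : Set (ℤ × ℤ)} {κ : ℤ × ℤ → ℤ × ℤ} {r : ℤ}
    (h : StW (blow u W) F r) (hs : s.Val g) (hu : 0 < u)
    (hv : s.Void g) (hA : App F (blow u s.P) κ r) (hF : F' ⊆ F)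
    (hY : Uoc Y (s.P \ s.rem g ρ)) (hS : Sep W Y) :
    StW (blow u (W ∪ Y)) F' (r + 7 * (u * g.L)) := by
  have hu' : (0 : ℤ) < u := by exact_mod_cast hu
  obtain ⟨κ', hA', -, -⟩ := hs.app_void (ρ := ρ) hu hv hA
  have h0 : (0 : ℤ) ≤ 7 * (u * g.L) := by
    have := hs.hL
    positivity
  exact (h.add_rest (F' := F) subset_rfl hA' (by omega) (hY.blow hu') (hS.blow hu')).anti hF

/-! ### The erosion of the scan -/

section Plant

variable {W : Set (ℤ × ℤ)}

theorem er3_inter (L : ℤ) (hz : z ∈ W) :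
    er3 (gc 0 0 L) (compT W z) ∩ W = er3 (gc 0 0 L) (compT W z) :=
  Set.inter_eq_left.2 (er3_subset.trans (compT_sub hz))

/-- **The stored part after the erosion.** -/
theorem StW.erW (h : StW (blow u W) F d) (hu : 0 < u) (hL : 0 < L) (hz : z ∈ CSt.erW W L z) :
    StW (blow u (CSt.erW W L z)) F (d + 6 * (u * L) + 6) := by
  have hu' : (0 : ℤ) < u := by exact_mod_cast hu
  have hzW : z ∈ W := CSt.erW_subset hz
  obtain ⟨zf, hzf⟩ := exists_cl hu' z
  have hzX : zf ∈ blow u W := by
    show cl u zf ∈ W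
    rw [hzf]; exact hzW
  have h1 := h.erode (a := u * 0) (b := u * 0) (L := u * L) (by positivity) hzX
  have e1 : compT (blow u W) zf = blow u (compT W z) := by
    rw [Blow.compT_blow (F := W) hu' hzX, hzf]
  rw [e1, er3_blow hu hL] at h1
  have e2 : blow u (CSt.erW W L z) =
      (blow u W \ blow u (compT W z)) ∪ blow u (er3 (gc 0 0 L) (compT W z)) := by
    unfold CSt.erW
    rw [er3_inter L hzW]
    rfl
  rw [e2]
  exact h1

/-- The part which stays stored when a needle is placed in the component of `z`. -/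
theorem uoc_plant {ndl : Set (ℤ × ℤ)} (hz : z ∈ W) (hn : ndl ⊆ compT W z) (hzn : z ∉ ndl) :
    Uoc (W \ (ndl ∪ compT (compT W z \ ndl) z)) ((W \ compT W z) ∪ (compT W z \ ndl)) := by
  have hzC : z ∈ compT W z \ ndl := ⟨self_mem_compT, hzn⟩
  have h1 : Uoc (compT (compT W z \ ndl) z) ((W \ compT W z) ∪ (compT W z \ ndl)) := by
    refine ⟨(compT_sub hzC).trans Set.subset_union_right, fun f hf g hg hfg => ?_⟩
    have hfC := compT_sub hzC hf
    rcases hg with hg | hg
    · exact absurd (compT_step hfC.1 hfg hg.1) hg.2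
    · exact compT_step hf hfg hg
  have h2 : W \ (ndl ∪ compT (compT W z \ ndl) z) =
      ((W \ compT W z) ∪ (compT W z \ ndl)) \ compT (compT W z \ ndl) z := by
    ext f
    constructor
    · rintro ⟨hf, hf'⟩
      refine ⟨?_, fun h => hf' (Or.inr h)⟩
      by_cases hfC : f ∈ compT W z
      · exact Or.inr ⟨hfC, fun h => hf' (Or.inl h)⟩
      · exact Or.inl ⟨hf, hfC⟩
    · rintro ⟨hf, hf'⟩
      rcases hf with hf | hf
      · exact ⟨hf.1, fun h => h.elim (fun h => hf.2 (hn h)) hf'⟩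
      · exact ⟨compT_sub hz hf.1, fun h => h.elim hf.2 hf'⟩
  rw [h2]
  exact h1.compl

/-- **The stored part after a needle is placed.** `Q` = the faces of the true needle, `ndl` = its cells. -/
theorem StW.plant {ndl : Set (ℤ × ℤ)} (h : StW (blow u W) F d) (hu : 0 < u) (hud : (u : ℤ) ≤ d)
    (hz : z ∈ W) (hn : ndl ⊆ compT W z) (hzn : z ∉ ndl)
    (hQ : StartA.VQ (blow u (compT W z)) Q (cl u) = blow u ndl) :
    StW (blow u (W \ (ndl ∪ compT (compT W z \ ndl) z))) (F \ Q) d := by
  have hu' : (0 : ℤ) < u := by exact_mod_cast hu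
  obtain ⟨zf, hzf⟩ := exists_cl hu' z
  have hzX : zf ∈ blow u W := by
    show cl u zf ∈ W
    rw [hzf]; exact hz
  have e1 : compT (blow u W) zf = blow u (compT W z) := by
    rw [Blow.compT_blow (F := W) hu' hzX, hzf]
  have hcl : ∀ x : ℤ × ℤ, gc 0 0 u x = cl u x := fun x => by
    simp only [gc, cl, add_zero]
  have h1 := h.needle (Q := Q) (γ := cl u) hzX
    (fun x y hxy hx => by
      rw [e1] at hx ⊢
      show cl u y ∈ compT W z
      rw [← hxy]; exact hx)
    (fun x y hxy => by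
      have h2 := gc_chn (a := 0) (b := 0) hu' (f := x) (g := y) (by rw [hcl, hcl]; exact hxy)
      have e2 : {w | gc 0 0 (u : ℤ) w = gc 0 0 u x} = {w | cl u w = cl u x} := by
        ext w
        rw [Set.mem_ofPred_eq, Set.mem_ofPred_eq, hcl, hcl]
      rw [e2] at h2
      exact h2)
    (fun x y hxy => by
      have h2 := gc_diam (a := 0) (b := 0) hu' (f := x) (g := y) (by rw [hcl, hcl]; exact hxy)
      exact ⟨h2.1.trans_le hud, h2.2.trans_le hud⟩)
  rw [e1, hQ] at h1
  have h3 := (uoc_plant hz hn hzn).blow hu'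
  exact h1.part h3

end Plant

end Pool.Agent.SixB.Mv
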