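import Pool.Agent.Lib.SixB.S8Chain

/-!
# Step 8: the true chain, stage equations

One lemma for each branch of `nxS`; the coarse state is running if a needle is running; the number of
the needles; the records are possible records (`recS_mem`), the law of the first record (`conv_zero`).
-/

set_option autoImplicit false

namespace Pool.Agent.SixB.Tru

open Finset Pool.Agent.Perc Pool.Agent.PercT Pool.Agent.PercX60
open Pool.Agent.MP_6bd702.H23 (Ed ea eb)
open Pool.Agent.SixB Pool.Agent.SixB.Rule Pool.Agent.SixB.Dct Pool.Agent.SixB.Mv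

/-! ### The coarse state -/

section Coarse

variable {π : Prm} {d : ℕ → ℕ} {W₀ : Set (ℤ × ℤ)} {ρ : Rec} {x : List Rec} {σ : CSt} {L M : ℤ}

theorem mv_j_run {D : Dom} (h : σ.run = some D) : (σ.mv π L M ρ).j = σ.j := by
  unfold CSt.mv
  simp only [h]
  split_ifs <;> rfl

theorem mv_j_none (h : σ.run = none) : (σ.mv π L M ρ).j = σ.j + 1 := by
  unfold CSt.mv
  simp only [h]
  split_ifs <;> rfl

theorem mv_ini_run {D : Dom} (h : σ.run = some D) : (σ.mv π L M ρ).ini = false := by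
  unfold CSt.mv
  simp only [h]
  split_ifs <;> rfl

theorem mv_ini_none (h : σ.run = none) : (σ.mv π L M ρ).ini = (σ.mv π L M ρ).run.isSome := by
  unfold CSt.mv
  simp only [h]
  split_ifs <;> rfl

/-- The entrance stage. -/
theorem mv_enter {D : Dom} (h : σ.run = some D) (hi : σ.ini = true) :
    σ.mv π L M ρ = ⟨σ.W, some D, σ.j, false⟩ := by
  unfold CSt.mv
  simp only [h, hi, if_true]

/-- A stage with a move. -/
theorem mv_run {D : Dom} (h : σ.run = some D) (hi : σ.ini = false) (hE : ¬ D.End (D.grd L M) ρ)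
    (hO : (D.nx (D.grd L M) ρ).Ok) :
    σ.mv π L M ρ = ⟨σ.W ∪ D.lef (D.grd L M) ρ, some (D.nx (D.grd L M) ρ), σ.j, false⟩ := by
  classical
  unfold CSt.mv
  simp only [h, hi, Bool.false_eq_true, if_false]
  rw [if_neg (by rintro (h1 | h1); exacts [hE h1, h1 hO])]

/-- The last stage of a needle. -/
theorem mv_end {D : Dom} (h : σ.run = some D) (hi : σ.ini = false) (hE : D.End (D.grd L M) ρ) :
    σ.mv π L M ρ = ⟨σ.W ∪ D.lef (D.grd L M) ρ, none, σ.j, false⟩ := by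
  classical
  unfold CSt.mv
  simp only [h, hi, Bool.false_eq_true, if_false]
  rw [if_pos (Or.inl hE)]

theorem mv_bad {D : Dom} (h : σ.run = some D) (hi : σ.ini = false)
    (hO : ¬ (D.nx (D.grd L M) ρ).Ok) :
    σ.mv π L M ρ = ⟨σ.W ∪ D.lef (D.grd L M) ρ, none, σ.j, false⟩ := by
  classical
  unfold CSt.mv
  simp only [h, hi, Bool.false_eq_true, if_false]
  rw [if_pos (Or.inr hO)]

end Coarse

variable (𝔇 : Dat) (d : ℕ → ℕ) (n : ℕ)

theorem Dat.cs_nil : 𝔇.cs d [] = ⟨𝔇.W₀ (d 0), none, 0, false⟩ := rfl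

theorem Dat.cs_cons (ρ : Rec) (x : List Rec) : 𝔇.cs d (ρ :: x) =
    (𝔇.cs d x).mv (𝔇.prm d) (msh d x.length) (msz 𝔇.kap d x.length) ρ := rfl

theorem Dat.cs_ok {x : List Rec} {D : Dom} (h : (𝔇.cs d x).run = some D) : D.Ok := cst_ok h

theorem Dat.cs_j_run {x : List Rec} {D : Dom} (h : (𝔇.cs d x).run = some D) (ρ : Rec) :
    (𝔇.cs d (ρ :: x)).j = (𝔇.cs d x).j := mv_j_run h

theorem Dat.cs_j_none {x : List Rec} (h : (𝔇.cs d x).run = none) (ρ : Rec) :
    (𝔇.cs d (ρ :: x)).j = (𝔇.cs d x).j + 1 := mv_j_none h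

theorem Dat.cs_j_le (ρ : Rec) (x : List Rec) : (𝔇.cs d x).j ≤ (𝔇.cs d (ρ :: x)).j := by
  cases h : (𝔇.cs d x).run with
  | none => rw [𝔇.cs_j_none d h]; omega
  | some D => rw [𝔇.cs_j_run d h]

/-- `ini` means that the needle was placed in the last stage. -/
theorem Dat.cs_ini {x : List Rec} (h : (𝔇.cs d x).ini = true) : (𝔇.cs d x).run.isSome = true := by
  cases x with
  | nil => cases h
  | cons ρ x =>
    rw [𝔇.cs_cons] at h ⊢
    cases h1 : (𝔇.cs d x).run with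
    | none => rw [mv_ini_none h1] at h; exact h
    | some D => rw [mv_ini_run h1] at h; cases h

/-! ### The stages -/

theorem tst_zero (ω : Cfg) : tst 𝔇 d n ω 0 = nxS 𝔇 d n ⟨Box n, none, 0, []⟩ ω := rfl

theorem tst_succ (ω : Cfg) (i : ℕ) : tst 𝔇 d n ω (i + 1) = nxS 𝔇 d n (tst 𝔇 d n ω i) ω := rfl

variable {𝔇 d n}

theorem finS_run {s : TS} {q : Rule.Ndl} {t : ℕ} {x : List Rec} {ω : Cfg} {D : Dom}
    (h : (𝔇.cs d x).run = some D) : finS 𝔇 d n s q t x ω = ⟨s.V, some q, t, x⟩ := by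
  unfold finS
  simp only [h]

theorem finS_end {s : TS} {q : Rule.Ndl} {t : ℕ} {x : List Rec} {ω : Cfg}
    (h : (𝔇.cs d x).run = none) :
    finS 𝔇 d n s q t x ω = ⟨stpQ (cfgE n ω) s.V q, none, 0, x⟩ := by
  unfold finS
  simp only [h]

theorem finS_q {s : TS} {q q' : Rule.Ndl} {t : ℕ} {x : List Rec} {ω : Cfg}
    (h : (finS 𝔇 d n s q t x ω).q = some q') : q' = q ∧ (𝔇.cs d x).run.isSome = true ∧
      (finS 𝔇 d n s q t x ω).V = s.V ∧ (finS 𝔇 d n s q t x ω).t = t := by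
  cases h1 : (𝔇.cs d x).run with
  | none => rw [finS_end h1] at h; cases h
  | some D =>
    rw [finS_run h1] at h ⊢
    exact ⟨(Option.some.inj h).symm, rfl, rfl, rfl⟩

theorem nxS_run_eq {s : TS} {q : Rule.Ndl} {D : Dom} {ω : Cfg} (hq : s.q = some q)
    (hD : (𝔇.cs d s.x).run = some D) : nxS 𝔇 d n s ω =
      finS 𝔇 d n s q (mvT 𝔇 d n s q D (𝔇.cs d s.x).ini ω)
        (mvR 𝔇 d n s q D (𝔇.cs d s.x).ini ω :: s.x) ω := by
  unfold nxS
  simp only [hq, hD]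

theorem nxS_odd {s : TS} {q : Rule.Ndl} {ω : Cfg} (hq : s.q = some q)
    (hD : (𝔇.cs d s.x).run = none) : nxS 𝔇 d n s ω = finS 𝔇 d n s q s.t ((∅, 0) :: s.x) ω := by
  unfold nxS
  simp only [hq, hD]

theorem nxS_skip {s : TS} {D : Dom} {ω : Cfg} (hq : s.q = none)
    (hD : (𝔇.cs d s.x).run = some D) : nxS 𝔇 d n s ω = ⟨s.V, none, 0, (∅, 0) :: s.x⟩ := by
  unfold nxS
  simp only [hq, hD]

theorem nxS_rest {s : TS} {ω : Cfg} (hq : s.q = none) (hD : (𝔇.cs d s.x).run = none) :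
    nxS 𝔇 d n s ω = plS 𝔇 d n s := by
  unfold nxS
  simp only [hq, hD]

theorem nxS_none_x {s : TS} {ω : Cfg} (hq : s.q = none) :
    (nxS 𝔇 d n s ω).x = (∅, 0) :: s.x := by
  cases hD : (𝔇.cs d s.x).run with
  | none => rw [nxS_rest hq hD]; rfl
  | some D => rw [nxS_skip hq hD]

theorem plS_q {s : TS} {q : Rule.Ndl} (h : (plS 𝔇 d n s).q = some q) :
    q = nxQ 𝔇 d n s ∧ (𝔇.cs d ((∅, 0) :: s.x)).run.isSome = true ∧ IsNdl (n / 𝔇.K) s.V q ∧
      ∃ k, NdF s.V q.1 k ∧ PercU.vtx k = q.2 := by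
  classical
  unfold plS at h
  simp only at h
  split_ifs at h with h1
  obtain rfl := Option.some.inj h
  exact ⟨rfl, h1.1, h1.2.1, h1.2.2⟩

theorem plS_V (s : TS) : (plS 𝔇 d n s).V = s.V := rfl
theorem plS_t (s : TS) : (plS 𝔇 d n s).t = 0 := rfl
theorem plS_x (s : TS) : (plS 𝔇 d n s).x = (∅, 0) :: s.x := rfl

theorem nxS_run_of_q {s : TS} {q : Rule.Ndl} {ω : Cfg} (h : (nxS 𝔇 d n s ω).q = some q) :
    (𝔇.cs d (nxS 𝔇 d n s ω).x).run.isSome = true := by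
  cases hq : s.q with
  | some q' =>
    cases hD : (𝔇.cs d s.x).run with
    | some D =>
      rw [nxS_run_eq hq hD] at h ⊢
      rw [finS_x]
      exact (finS_q h).2.1
    | none =>
      rw [nxS_odd hq hD] at h ⊢
      rw [finS_x]
      exact (finS_q h).2.1
  | none =>
    cases hD : (𝔇.cs d s.x).run with
    | some D => rw [nxS_skip hq hD] at h; cases h
    | none =>
      rw [nxS_rest hq hD] at h ⊢
      exact (plS_q h).2.1

/-- **The coarse state is running if a needle is running.** -/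
theorem run_of_q {ω : Cfg} {i : ℕ} {q : Rule.Ndl} (h : (tst 𝔇 d n ω i).q = some q) :
    ∃ D, (𝔇.cs d (tst 𝔇 d n ω i).x).run = some D := by
  have : (𝔇.cs d (tst 𝔇 d n ω i).x).run.isSome = true := by
    cases i with
    | zero => exact nxS_run_of_q h
    | succ i => exact nxS_run_of_q h
  exact Option.isSome_iff_exists.1 this

/-- The next state if a needle is running. -/
theorem tst_run {ω : Cfg} {i : ℕ} {q : Rule.Ndl} (h : (tst 𝔇 d n ω i).q = some q) :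
    ∃ D, (𝔇.cs d (tst 𝔇 d n ω i).x).run = some D ∧ tst 𝔇 d n ω (i + 1) =
      finS 𝔇 d n (tst 𝔇 d n ω i) q
        (mvT 𝔇 d n (tst 𝔇 d n ω i) q D (𝔇.cs d (tst 𝔇 d n ω i).x).ini ω)
        (mvR 𝔇 d n (tst 𝔇 d n ω i) q D (𝔇.cs d (tst 𝔇 d n ω i).x).ini ω :: (tst 𝔇 d n ω i).x) ω := by
  obtain ⟨D, hD⟩ := run_of_q h
  exact ⟨D, hD, by rw [tst_succ, nxS_run_eq h hD]⟩

/-- A needle stays or its step is finished; the number of the needle is the same. -/
theorem tst_run_or {ω : Cfg} {i : ℕ} {q : Rule.Ndl} (h : (tst 𝔇 d n ω i).q = some q) :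
    (𝔇.cs d (tst 𝔇 d n ω (i + 1)).x).j = (𝔇.cs d (tst 𝔇 d n ω i).x).j ∧
      (((tst 𝔇 d n ω (i + 1)).q = some q ∧ (tst 𝔇 d n ω (i + 1)).V = (tst 𝔇 d n ω i).V) ∨
        ((tst 𝔇 d n ω (i + 1)).q = none ∧
          (tst 𝔇 d n ω (i + 1)).V = stpQ (cfgE n ω) (tst 𝔇 d n ω i).V q)) := by
  obtain ⟨D, hD, h1⟩ := tst_run h
  rw [h1, finS_x]
  refine ⟨𝔇.cs_j_run d hD _, ?_⟩
  cases h2 : (𝔇.cs d (mvR 𝔇 d n (tst 𝔇 d n ω i) q D (𝔇.cs d (tst 𝔇 d n ω i).x).ini ω ::
      (tst 𝔇 d n ω i).x)).run with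
  | none => rw [finS_end h2]; exact Or.inr ⟨rfl, rfl⟩
  | some D' => rw [finS_run h2]; exact Or.inl ⟨rfl, rfl⟩

/-- Without needle the remaining set is the same, and a needle is placed, or skipped, or nothing
happens. -/
theorem tst_rest {ω : Cfg} {i : ℕ} (h : (tst 𝔇 d n ω i).q = none) :
    (tst 𝔇 d n ω (i + 1)).V = (tst 𝔇 d n ω i).V ∧
      ((𝔇.cs d (tst 𝔇 d n ω (i + 1)).x).j = (𝔇.cs d (tst 𝔇 d n ω i).x).j + 1 ∨
        ((𝔇.cs d (tst 𝔇 d n ω (i + 1)).x).j = (𝔇.cs d (tst 𝔇 d n ω i).x).j ∧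
          (tst 𝔇 d n ω (i + 1)).q = none)) := by
  rw [tst_succ]
  cases hD : (𝔇.cs d (tst 𝔇 d n ω i).x).run with
  | some D =>
    rw [nxS_skip h hD]
    exact ⟨rfl, Or.inr ⟨𝔇.cs_j_run d hD _, rfl⟩⟩
  | none =>
    rw [nxS_rest h hD]
    exact ⟨rfl, Or.inl (𝔇.cs_j_none d hD _)⟩

/-- A needle which is placed is admissible. -/
theorem tst_ndl {ω : Cfg} {i : ℕ} {q : Rule.Ndl} (h : (tst 𝔇 d n ω i).q = none)
    (h' : (tst 𝔇 d n ω (i + 1)).q = some q) : IsNdl (n / 𝔇.K) (tst 𝔇 d n ω i).V q ∧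
      ∃ k, NdF (tst 𝔇 d n ω i).V q.1 k ∧ PercU.vtx k = q.2 := by
  rw [tst_succ] at h'
  cases hD : (𝔇.cs d (tst 𝔇 d n ω i).x).run with
  | some D => rw [nxS_skip h hD] at h'; cases h'
  | none =>
    rw [nxS_rest h hD] at h'
    exact (plS_q h').2.2

/-- A running needle is admissible. -/
theorem tst_ndF {ω : Cfg} {i : ℕ} {q : Rule.Ndl} (h : (tst 𝔇 d n ω i).q = some q) :
    IsNdl (n / 𝔇.K) (tst 𝔇 d n ω i).V q ∧
      ∃ k, NdF (tst 𝔇 d n ω i).V q.1 k ∧ PercU.vtx k = q.2 := by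
  induction i with
  | zero =>
    rw [tst_zero, nxS_rest rfl rfl] at h
    rw [tst_zero, nxS_rest rfl rfl]
    exact (plS_q h).2.2
  | succ i ih =>
    cases hq : (tst 𝔇 d n ω i).q with
    | none =>
      rw [(tst_rest hq).1]
      exact tst_ndl hq h
    | some q' =>
      rcases (tst_run_or hq).2 with ⟨h1, h2⟩ | ⟨h1, -⟩
      · obtain rfl := Option.some.inj (h1.symm.trans h)
        rw [h2]
        exact ih hq
      · rw [h1] at h; cases h

/-! ### The records -/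

theorem recS_zero (ω : Cfg) : recS 𝔇 d n 0 ω = (∅, 0) := by
  unfold recS
  rw [tst_zero, nxS_none_x rfl]
  rfl

/-- The record of a stage with a running needle. -/
theorem recS_run {ω : Cfg} {i : ℕ} {q : Rule.Ndl} {D : Dom} (h : (tst 𝔇 d n ω i).q = some q)
    (hD : (𝔇.cs d (tst 𝔇 d n ω i).x).run = some D) :
    recS 𝔇 d n (i + 1) ω = mvR 𝔇 d n (tst 𝔇 d n ω i) q D (𝔇.cs d (tst 𝔇 d n ω i).x).ini ω := by
  unfold recS
  rw [tst_succ, nxS_run_eq h hD, finS_x]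
  rfl

theorem recS_rest {ω : Cfg} {i : ℕ} (h : (tst 𝔇 d n ω i).q = none) :
    recS 𝔇 d n (i + 1) ω = (∅, 0) := by
  unfold recS
  rw [tst_succ, nxS_none_x h]
  rfl

theorem tst_x_succ (ω : Cfg) (i : ℕ) :
    (tst 𝔇 d n ω (i + 1)).x = recS 𝔇 d n (i + 1) ω :: (tst 𝔇 d n ω i).x := by
  rw [tst_x, tst_x]
  rfl

theorem triv_mem (κ l : ℕ) : ((∅, 0) : Rec) ∈ recs κ l := by
  unfold recs
  rw [Finset.mem_product, Finset.mem_powerset, Finset.mem_range]
  exact ⟨Finset.empty_subset _, Nat.succ_pos _⟩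

theorem kmx_sub_blkN {D : Dom} {g : Grd} {N : Set (ℤ × ℤ)} :
    D.kmx g N ⊆ blkN g.a g.b g.L g.M D.tip := by
  classical
  unfold Dom.kmx Dom.fam
  rw [Finset.subset_iff]
  intro c hc
  rw [Finset.mem_sup] at hc
  obtain ⟨K, hK, hcK⟩ := hc
  exact Finset.mem_powerset.1 (Finset.mem_filter.1 (Finset.mem_filter.1 hK).1).1 hcK

theorem rcd_mem {D : Dom} {g : Grd} {N : Set (ℤ × ℤ)} {i κ l : ℕ} (hM : g.M = 2 ^ (l - κ)) :
    D.rcd g (capR g.M) N i ∈ recs κ l := by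
  classical
  unfold Dom.rcd recs
  rw [Finset.mem_product, Finset.mem_powerset, Finset.mem_range]
  refine ⟨?_, ?_⟩
  · intro c hc
    rw [Finset.mem_image] at hc
    obtain ⟨c', hc', rfl⟩ := hc
    have h1 := kmx_sub_blkN hc'
    unfold blkN at h1
    rw [Finset.mem_product, Finset.mem_Icc, Finset.mem_Icc] at h1
    obtain ⟨⟨h2, h3⟩, h4, h5⟩ := h1
    unfold Dom.rel Grd.nm
    rw [Finset.mem_product, Finset.mem_Icc, Finset.mem_Icc, ← hM]
    simp only [Prod.fst_sub, Prod.snd_sub]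
    refine ⟨⟨?_, ?_⟩, ?_, ?_⟩ <;> linarith
  · rw [hM]
    exact Nat.lt_succ_of_le (min_le_right _ _)

theorem mvR_mem {ω : Cfg} {s : TS} {q : Rule.Ndl} {D : Dom} {b : Bool} :
    mvR 𝔇 d n s q D b ω ∈ recs 𝔇.kap (d s.x.length) := by
  classical
  unfold mvR
  split_ifs
  · exact triv_mem _ _
  · exact rcd_mem rfl

/-- **The records are possible records.** -/
theorem recS_mem (ω : Cfg) (i : ℕ) : recS 𝔇 d n i ω ∈ recs 𝔇.kap (d i) := by
  cases i with
  | zero => rw [recS_zero]; exact triv_mem _ _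
  | succ i =>
    cases h : (tst 𝔇 d n ω i).q with
    | none => rw [recS_rest h]; exact triv_mem _ _
    | some q =>
      obtain ⟨D, hD⟩ := run_of_q h
      rw [recS_run h hD]
      have := mvR_mem (𝔇 := 𝔇) (d := d) (n := n) (ω := ω) (s := tst 𝔇 d n ω i) (q := q) (D := D)
        (b := (𝔇.cs d (tst 𝔇 d n ω i).x).ini)
      rwa [tst_len] at this

theorem pr_none (S : Finset (ℤ × ℤ)) : pr S (∅ : Set Cfg) = 0 := by
  unfold pr
  simp

theorem pr_all (S : Finset (ℤ × ℤ)) : pr S (Set.univ : Set Cfg) = 1 := by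
  have h := pr_compl S (∅ : Set Cfg)
  rw [pr_none, Set.compl_empty] at h
  linarith

/-- The law of the first record. -/
theorem conv_zero (W : ℕ → Finset (ℤ × ℤ)) (a : Rec) :
    Conv fun n => pr (W n) {ω | recS 𝔇 d n 0 ω = a} := by
  by_cases ha : ((∅, 0) : Rec) = a
  · have : (fun n => pr (W n) {ω | recS 𝔇 d n 0 ω = a}) = fun _ => (1 : ℝ) := by
      funext n
      have h1 : {ω : Cfg | recS 𝔇 d n 0 ω = a} = Set.univ := by
        ext ω
        simp only [Set.mem_ofPred_eq, Set.mem_univ, iff_true]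
        rw [recS_zero]
        exact ha
      rw [h1, pr_all]
    rw [this]
    exact ⟨1, tendsto_const_nhds⟩
  · have : (fun n => pr (W n) {ω | recS 𝔇 d n 0 ω = a}) = fun _ => (0 : ℝ) := by
      funext n
      have h1 : {ω : Cfg | recS 𝔇 d n 0 ω = a} = ∅ := by
        ext ω
        simp only [Set.mem_ofPred_eq, Set.mem_empty_iff_false, iff_false]
        rw [recS_zero]
        exact ha
      rw [h1, pr_none]
    rw [this]
    exact ⟨0, tendsto_const_nhds⟩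

end Pool.Agent.SixB.Tru
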