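import Pool.Agent.Lib.SixB.TopCA
import Pool.Agent.Lib.SixB.CARf

/-!
# Step 8, unit 8I: cell polygons

* `compl_chain`: the complement of a finite region without holes is edge connected;
* `noPinch_of_esc`: an edge connected finite region without holes has no pinch vertex;
* `mpoly_iff`: `MPoly S` iff `S` is nonempty, edge connected and without holes;
* `ecomp S f`: the edge component of the face `f`; it is an `MPoly` if `S` has no holes;
* `esc_sdiff`: removal of faces which are chained to the complement;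
* refinement: `rf_inter`, `rf_sdiff`, `rf_RF`, `ecomp_rf`.
-/

set_option autoImplicit false

namespace Pool.Agent.SixB

open Finset Pool.Agent.Perc Pool.Agent.Perc6 Pool.Agent.SixB.Top CARf

/-! ### The complement of a finite region without holes is connected -/

private theorem hor {F : Set (ℤ × ℤ)} {x x' y : ℤ} (h : ∀ k : ℤ, min x x' ≤ k → k ≤ max x x' → (k, y) ∉ F) :
    Relation.ReflTransGen (StepC F) (x, y) (x', y) := by
  rcases le_total x x' with hx | hx
  · have := chain_right (F := F) (x := x) (y := y) (x' - x).toNat (fun k h0 h1 => h (x + k) (by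
      rw [min_eq_left hx]; omega) (by rw [max_eq_right hx]; omega))
    rwa [Int.toNat_of_nonneg (by omega), show x + (x' - x) = x' by ring] at this
  · have := chain_left (F := F) (x := x) (y := y) (x - x').toNat (fun k h0 h1 => h (x - k) (by
      rw [min_eq_right hx]; omega) (by rw [max_eq_left hx]; omega))
    rwa [Int.toNat_of_nonneg (by omega), show x - (x - x') = x' by ring] at this

private theorem ver {F : Set (ℤ × ℤ)} {x y y' : ℤ} (h : ∀ k : ℤ, min y y' ≤ k → k ≤ max y y' → (x, k) ∉ F) :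
    Relation.ReflTransGen (StepC F) (x, y) (x, y') := by
  rcases le_total y y' with hx | hx
  · have := chain_up (F := F) (x := x) (y := y) (y' - y).toNat (fun k h0 h1 => h (y + k) (by
      rw [min_eq_left hx]; omega) (by rw [max_eq_right hx]; omega))
    rwa [Int.toNat_of_nonneg (by omega), show y + (y' - y) = y' by ring] at this
  · have := chain_down (F := F) (x := x) (y := y) (y - y').toNat (fun k h0 h1 => h (y - k) (by
      rw [min_eq_right hx]; omega) (by rw [max_eq_left hx]; omega))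
    rwa [Int.toNat_of_nonneg (by omega), show y - (y - y') = y' by ring] at this

private theorem far_chain {F : Set (ℤ × ℤ)} {N : ℤ} (hN : ∀ f ∈ F, |f.1| ≤ N ∧ |f.2| ≤ N) (hN0 : 0 ≤ N)
    {f : ℤ × ℤ} (hf : N < |f.1| ∨ N < |f.2|) :
    Relation.ReflTransGen (StepC F) f (N + 1, N + 1) := by
  obtain ⟨x, y⟩ := f
  have out : ∀ a b : ℤ, N < |a| ∨ N < |b| → (a, b) ∉ F := by
    intro a b hab hm
    have := hN _ hm
    simp only at this
    omega
  have hM : N < |N + 1| := by rw [abs_of_nonneg (by omega)]; omega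
  simp only at hf
  rcases hf with hx | hy
  · exact (ver (F := F) (x := x) (y := y) (y' := N + 1) fun k _ _ => out _ _ (Or.inl hx)).trans
      (hor fun k _ _ => out _ _ (Or.inr hM))
  · exact (hor (F := F) (x := x) (y := y) (x' := N + 1) fun k _ _ => out _ _ (Or.inr hy)).trans
      (ver fun k _ _ => out _ _ (Or.inl hM))

/-- The complement of a finite region without holes is edge connected. -/
theorem compl_chain {F : Set (ℤ × ℤ)} (hF : F.Finite) (h : Esc F) {f g : ℤ × ℤ} (hf : f ∉ F)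
    (hg : g ∉ F) : Relation.ReflTransGen (StepC F) f g := by
  obtain ⟨x₀, x₁, y₀, y₁, hb⟩ := exists_RF hF
  set N : ℤ := |x₀| + |x₁| + |y₀| + |y₁| with hN
  have hN0 : 0 ≤ N := by positivity
  have hbd : ∀ f ∈ F, |f.1| ≤ N ∧ |f.2| ≤ N := by
    intro f hf
    have := hb f hf
    simp only [RF, mem_product, mem_Ico] at this
    obtain ⟨⟨h1, h2⟩, h3, h4⟩ := this
    have a1 := neg_abs_le x₀
    have a2 := le_abs_self x₁
    have a3 := neg_abs_le y₀
    have a4 := le_abs_self y₁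
    have b1 := abs_nonneg x₀
    have b2 := abs_nonneg x₁
    have b3 := abs_nonneg y₀
    have b4 := abs_nonneg y₁
    exact ⟨abs_le.2 ⟨by omega, by omega⟩, abs_le.2 ⟨by omega, by omega⟩⟩
  obtain ⟨f', hf', c1⟩ := h f hf N
  obtain ⟨g', hg', c2⟩ := h g hg N
  have c3 := far_chain hbd hN0 hf'
  have c4 := far_chain hbd hN0 hg'
  exact (c1.trans c3).trans (chain_reverse (fun hm => hg hm) (c2.trans c4))

theorem econn_compl {F : Set (ℤ × ℤ)} (hF : F.Finite) (h : Esc F) : EConn Fᶜ := by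
  intro f hf g hg
  exact rtg_mono (fun a b hab => ⟨hab.2, eAdj_iff_adjF.2 hab.1⟩) (compl_chain hF h hf hg)

/-! ### No pinch vertex -/

/-- A closed chain of faces has a potential on the vertices. -/
private theorem exists_pot {S : Set (ℤ × ℤ)} (hS : S.Finite) {a b d : ℤ × ℤ} (ha : a ∈ S)
    (hab : Relation.ReflTransGen (StepC Sᶜ) a b) {e₁ e₂ : UE} (hne : e₁ ≠ e₂) (h1 : IsSide a e₁)
    (h1' : IsSide d e₁) (h2 : IsSide b e₂) (h2' : IsSide d e₂) (hd : d ∉ S) :
    ∃ (M : Set UE) (Φ : ℤ × ℤ → ZMod 2),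
      (∀ x y, Φ (x + 1, y) = Φ (x, y) + ind2 ((x, y, false) ∈ M)) ∧
      (∀ x y, Φ (x, y + 1) = Φ (x, y) + ind2 ((x, y, true) ∈ M)) ∧
      ∀ k ∉ S, ∀ u, IsSide k u → (u ∈ M ↔ u = e₁ ∨ u = e₂) := by
  obtain ⟨hb, P, hP, hpar⟩ := chain_toggle (F := Sᶜ) (by simpa using ha) hab
  have hbS : b ∈ S := by simpa using hb
  have hda : a ≠ d := fun h => hd (h ▸ ha)
  have hdb : b ≠ d := fun h => hd (h ▸ hbS)
  have he1 : e₁ ∉ P := fun h => hP _ h d hd h1'
  have he2 : e₂ ∉ P := fun h => hP _ h d hd h2'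
  set M : Set UE := symmDiff (symmDiff P {e₁}) {e₂} with hM
  have hMmem : ∀ u, u ∈ M ↔ u ∈ P ∨ u = e₁ ∨ u = e₂ := by
    intro u
    rw [hM, Set.mem_symmDiff, Set.mem_symmDiff, Set.mem_singleton_iff, Set.mem_singleton_iff]
    constructor
    · tauto
    · rintro (h | h | h)
      · have k1 : u ≠ e₁ := fun hh => he1 (hh ▸ h)
        have k2 : u ≠ e₂ := fun hh => he2 (hh ▸ h)
        tauto
      · subst h
        left
        exact ⟨Or.inr ⟨rfl, he1⟩, hne⟩
      · subst h
        right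
        refine ⟨rfl, ?_⟩
        rintro (⟨hh, -⟩ | ⟨hh, -⟩)
        · exact he2 hh
        · exact hne hh.symm
  have hMpar : ∀ k, parAt M k = 0 := by
    intro k
    rw [hM, parAt_symmDiff, parAt_symmDiff, hpar, parAt_side hda h1 h1', parAt_side hdb h2 h2']
    generalize ind2 (k = a) = p1
    generalize ind2 (k = b) = p2
    generalize ind2 (k = d) = p3
    revert p1 p2 p3
    decide
  -- the dual set of unit edges
  set O : Set UE := {u | (u.2.2 = true ∧ (u.1 - 1, u.2.1, false) ∈ M) ∨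
    (u.2.2 = false ∧ (u.1, u.2.1 - 1, true) ∈ M)} with hO
  have Ot : ∀ x y : ℤ, (x, y, true) ∈ O ↔ (x - 1, y, false) ∈ M := by
    intro x y
    simp [hO]
  have Of : ∀ x y : ℤ, (x, y, false) ∈ O ↔ (x, y - 1, true) ∈ M := by
    intro x y
    simp [hO]
  have hev : ∀ w, EvenV O w := by
    rintro ⟨x, y⟩
    have := hMpar (x - 1, y - 1)
    unfold parAt bo ri to' le' at this
    unfold EvenV
    simp only [sub_add_cancel] at this ⊢
    rw [ind2_congr (Of x y), ind2_congr (Of (x - 1) y), ind2_congr (Ot x y), ind2_congr (Ot x (y - 1))]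
    rw [← this]
    ring
  -- lower bound
  obtain ⟨x₀, x₁, y₀, y₁, hbx⟩ := exists_RF hS
  set Y : ℤ := min y₀ (min e₁.2.1 e₂.2.1) - 2 with hY
  have hY0 : Y + 2 ≤ y₀ := by have := min_le_left y₀ (min e₁.2.1 e₂.2.1); omega
  have hY1 : Y + 2 ≤ e₁.2.1 := by
    have := min_le_right y₀ (min e₁.2.1 e₂.2.1)
    have := min_le_left e₁.2.1 e₂.2.1
    omega
  have hY2 : Y + 2 ≤ e₂.2.1 := by
    have := min_le_right y₀ (min e₁.2.1 e₂.2.1)
    have := min_le_right e₁.2.1 e₂.2.1
    omega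
  have hMlow : ∀ u ∈ M, Y + 2 ≤ u.2.1 := by
    intro u hu
    rcases (hMmem u).1 hu with h | h | h
    · have hs : IsSide (u.1, u.2.1) u := by
        obtain ⟨x, y, b⟩ := u
        cases b
        · exact Or.inl rfl
        · exact Or.inr (Or.inl rfl)
      have hk : (u.1, u.2.1) ∈ S := by
        by_contra hk
        exact hP u h _ hk hs
      have := hbx _ hk
      simp only [RF, mem_product, mem_Ico] at this
      omega
    · rw [h]; exact hY1
    · rw [h]; exact hY2
  have hlow : ∀ u ∈ O, Y < u.2.1 := by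
    rintro ⟨x, y, b⟩ hu
    cases b
    · have := hMlow _ ((Of x y).1 hu)
      simp only at this ⊢
      omega
    · have := hMlow _ ((Ot x y).1 hu)
      simp only at this ⊢
      omega
  refine ⟨M, chi Y O, fun x y => ?_, fun x y => ?_, ?_⟩
  · rw [chi_right hlow hev, ind2_congr (Ot (x + 1) y), add_sub_cancel_right]
  · rw [chi_up hlow, ind2_congr (Of x (y + 1)), add_sub_cancel_right]
  · intro k hk u hu
    rw [hMmem]
    constructor
    · rintro (h | h)
      · exact (hP u h k hk hu).elim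
      · exact h
    · exact Or.inr

/-- An edge connected finite region without holes has no pinch vertex. -/
theorem noPinch_of_esc {S : Finset (ℤ × ℤ)} (hc : Top.EConn (S : Set (ℤ × ℤ)))
    (he : Esc (S : Set (ℤ × ℤ))) : NoPinch S := by
  have hch : ∀ a ∈ S, ∀ b ∈ S, Relation.ReflTransGen (StepC (S : Set (ℤ × ℤ))ᶜ) a b := by
    intro a ha b hb
    refine rtg_mono (fun u v huv => ⟨huv.1, ?_⟩) (hc a ha b hb)
    simpa using huv.2
  -- the corners of a face outside have the same value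
  have key : ∀ (M : Set UE) (Φ : ℤ × ℤ → ZMod 2) (e₁ e₂ : UE) (d v : ℤ × ℤ),
      (∀ x y, Φ (x + 1, y) = Φ (x, y) + ind2 ((x, y, false) ∈ M)) →
      (∀ x y, Φ (x, y + 1) = Φ (x, y) + ind2 ((x, y, true) ∈ M)) →
      (∀ k ∉ (S : Set (ℤ × ℤ)), ∀ u, IsSide k u → (u ∈ M ↔ u = e₁ ∨ u = e₂)) →
      (∀ k ∉ (S : Set (ℤ × ℤ)), k ≠ d → ¬ IsSide k e₁ ∧ ¬ IsSide k e₂) →
      (∀ g, AdjF g d → ∃ w, IsCor g w ∧ Φ w ≠ Φ v) →
      ∀ c ∉ (S : Set (ℤ × ℤ)), c ≠ d → IsCor c v → ∀ g,
        Relation.ReflTransGen (StepC (S : Set (ℤ × ℤ))) c g → g ≠ d ∧ ∀ w, IsCor g w → Φ w = Φ v := by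
    intro M Φ e₁ e₂ d v hr hu hM hk hd c hcS hcd hcv g hg
    have const : ∀ k ∉ (S : Set (ℤ × ℤ)), k ≠ d → ∀ w w', IsCor k w → IsCor k w' → Φ w = Φ w' := by
      rintro ⟨x, y⟩ hkS hkd
      obtain ⟨n1, n2⟩ := hk _ hkS hkd
      have side : ∀ u, IsSide (x, y) u → u ∉ M := by
        intro u hu hm
        rcases (hM _ hkS u hu).1 hm with rfl | rfl
        · exact n1 hu
        · exact n2 hu
      have s1 := side (x, y, false) (Or.inl rfl)
      have s2 := side (x, y, true) (Or.inr (Or.inl rfl))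
      have s3 := side (x, y + 1, false) (Or.inr (Or.inr (Or.inl rfl)))
      have s4 := side (x + 1, y, true) (Or.inr (Or.inr (Or.inr rfl)))
      have q1 : Φ (x + 1, y) = Φ (x, y) := by rw [hr, ind2_neg s1, add_zero]
      have q2 : Φ (x, y + 1) = Φ (x, y) := by rw [hu, ind2_neg s2, add_zero]
      have q3 : Φ (x + 1, y + 1) = Φ (x, y + 1) := by rw [hr, ind2_neg s3, add_zero]
      have all : ∀ w, IsCor (x, y) w → Φ w = Φ (x, y) := by
        rintro ⟨w1, w2⟩ ⟨ha, hb⟩
        simp only at ha hb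
        rcases ha with rfl | rfl <;> rcases hb with rfl | rfl
        · rfl
        · exact q2
        · exact q1
        · exact q3.trans q2
      intro w w' hw hw'
      rw [all w hw, all w' hw']
    induction hg with
    | refl => exact ⟨hcd, fun w hw => const c hcS hcd w v hw hcv⟩
    | @tail g g' hgg hs ih =>
      obtain ⟨ihd, ihw⟩ := ih
      have hne : g' ≠ d := by
        rintro rfl
        obtain ⟨w, hw, hw'⟩ := hd g hs.1
        exact hw' (ihw w hw)
      refine ⟨hne, fun w hw => ?_⟩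
      obtain ⟨w', h1, h2⟩ : ∃ w', IsCor g w' ∧ IsCor g' w' := by
        obtain ⟨g1, g2⟩ := g
        rcases adjF_iff.1 hs.1 with rfl | rfl | rfl | rfl
        · exact ⟨(g1 + 1, g2), by simp [IsCor], by simp [IsCor]⟩
        · exact ⟨(g1, g2), by simp [IsCor], by simp [IsCor]⟩
        · exact ⟨(g1, g2 + 1), by simp [IsCor], by simp [IsCor]⟩
        · exact ⟨(g1, g2), by simp [IsCor], by simp [IsCor]⟩
      rw [const g' hs.2 hne w w' hw h2, ihw w' h1]
  have z2 : ∀ p : ZMod 2, p + 1 ≠ p := by decide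
  intro x y
  constructor
  · rintro ⟨h1, h2, h3, h4⟩
    -- `a = (x, y)`, `b = (x - 1, y - 1)`, `c = (x - 1, y)`, `d = (x, y - 1)`
    obtain ⟨M, Φ, hr, hu, hM⟩ := exists_pot (S := (S : Set (ℤ × ℤ))) S.finite_toSet (a := (x, y))
      (b := (x - 1, y - 1)) (d := (x, y - 1)) (e₁ := (x, y, false)) (e₂ := (x, y - 1, true)) (by simpa using h1)
      (hch _ h1 _ h2) (by simp) (Or.inl rfl) (Or.inr (Or.inr (Or.inl (by simp [to'])))) 
      (Or.inr (Or.inr (Or.inr (by simp [ri])))) (Or.inr (Or.inl (by simp [le']))) (by simpa using h4)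
    have hd : ((x, y - 1) : ℤ × ℤ) ∉ (S : Set (ℤ × ℤ)) := by simpa using h4
    have m1 : (x, y, false) ∈ M := (hM _ hd _ (Or.inr (Or.inr (Or.inl (by simp [to']))))).2 (Or.inl rfl)
    have m2 : (x, y - 1, true) ∈ M := (hM _ hd _ (Or.inr (Or.inl (by simp [le'])))).2 (Or.inr rfl)
    have m3 : (x, y - 1, false) ∉ M := fun h => by
      have := (hM _ hd _ (Or.inl (by simp [bo]))).1 h
      simp at this
    have v1 : Φ (x + 1, y) = Φ (x, y) + 1 := by rw [hr, ind2_pos m1]
    have v2 : Φ (x, y) = Φ (x, y - 1) + 1 := by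
      have := hu x (y - 1)
      rwa [sub_add_cancel, ind2_pos m2] at this
    have v2' : Φ (x, y - 1) = Φ (x, y) + 1 := by
      rw [v2]
      generalize Φ (x, y - 1) = p
      revert p
      decide
    have v3 : Φ (x + 1, y - 1) = Φ (x, y) + 1 := by rw [hr, ind2_neg m3, add_zero, v2']
    have hcd := compl_chain S.finite_toSet he (f := (x - 1, y)) (g := (x, y - 1)) (by simpa using h3) hd
    refine (key M Φ _ _ (x, y - 1) (x, y) hr hu hM ?_ ?_ (x - 1, y) (by simpa using h3) (by simp)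
      (by simp [IsCor]) _ hcd).1 rfl
    · rintro k hkS hkd
      constructor
      · intro hs
        rcases side_two (f := (x, y)) (g := (x, y - 1)) (by rw [Ne, Prod.mk.injEq]; omega) (Or.inl rfl)
          (Or.inr (Or.inr (Or.inl (by simp [to', bo])))) hs with h | h
        · exact hkS (by rw [h]; simpa using h1)
        · exact hkd h
      · intro hs
        rcases side_two (f := (x - 1, y - 1)) (g := (x, y - 1)) (by simp)
          (Or.inr (Or.inr (Or.inr (by simp [ri])))) (Or.inr (Or.inl (by simp [le']))) hs with h | h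
        · exact hkS (by rw [h]; simpa using h2)
        · exact hkd h
    · rintro ⟨g1, g2⟩ hg
      have hg' := adjF_iff.1 hg.symm
      simp only [Prod.mk.injEq] at hg'
      rcases hg' with ⟨e1, e2⟩ | ⟨e1, e2⟩ | ⟨e1, e2⟩ | ⟨e1, e2⟩
      · exact ⟨(x + 1, y - 1), by simp [IsCor, e1, e2], by rw [v3]; exact z2 _⟩
      · exact ⟨(x, y - 1), by simp [IsCor, e1, e2], by rw [v2']; exact z2 _⟩
      · exact ⟨(x + 1, y), by simp [IsCor, e1, e2], by rw [v1]; exact z2 _⟩
      · exact ⟨(x, y - 1), by simp [IsCor, e1, e2], by rw [v2']; exact z2 _⟩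
  · rintro ⟨h1, h2, h3, h4⟩
    -- `a = (x - 1, y)`, `b = (x, y - 1)`, `c = (x - 1, y - 1)`, `d = (x, y)`
    obtain ⟨M, Φ, hr, hu, hM⟩ := exists_pot (S := (S : Set (ℤ × ℤ))) S.finite_toSet (a := (x - 1, y))
      (b := (x, y - 1)) (d := (x, y)) (e₁ := (x, y, true)) (e₂ := (x, y, false)) (by simpa using h3)
      (hch _ h3 _ h4) (by simp) (Or.inr (Or.inr (Or.inr (by simp [ri])))) (Or.inr (Or.inl rfl))
      (Or.inr (Or.inr (Or.inl (by simp [to'])))) (Or.inl rfl) (by simpa using h1)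
    have hd : ((x, y) : ℤ × ℤ) ∉ (S : Set (ℤ × ℤ)) := by simpa using h1
    have m1 : (x, y, true) ∈ M := (hM _ hd _ (Or.inr (Or.inl rfl))).2 (Or.inl rfl)
    have m2 : (x, y, false) ∈ M := (hM _ hd _ (Or.inl rfl)).2 (Or.inr rfl)
    have m3 : (x, y + 1, false) ∉ M := fun h => by
      have := (hM _ hd _ (Or.inr (Or.inr (Or.inl rfl)))).1 h
      simp [to'] at this
    have v1 : Φ (x + 1, y) = Φ (x, y) + 1 := by rw [hr, ind2_pos m2]
    have v2 : Φ (x, y + 1) = Φ (x, y) + 1 := by rw [hu, ind2_pos m1]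
    have v3 : Φ (x + 1, y + 1) = Φ (x, y) + 1 := by rw [hr, ind2_neg m3, add_zero, v2]
    have hcd := compl_chain S.finite_toSet he (f := (x - 1, y - 1)) (g := (x, y)) (by simpa using h2) hd
    refine (key M Φ _ _ (x, y) (x, y) hr hu hM ?_ ?_ (x - 1, y - 1) (by simpa using h2) (by simp)
      (by simp [IsCor]) _ hcd).1 rfl
    · rintro k hkS hkd
      constructor
      · intro hs
        rcases side_two (f := (x - 1, y)) (g := (x, y)) (by simp)
          (Or.inr (Or.inr (Or.inr (by simp [ri, le'])))) (Or.inr (Or.inl rfl)) hs with h | h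
        · exact hkS (by rw [h]; simpa using h3)
        · exact hkd h
      · intro hs
        rcases side_two (f := (x, y - 1)) (g := (x, y)) (by rw [Ne, Prod.mk.injEq]; omega)
          (Or.inr (Or.inr (Or.inl (by simp [to', bo])))) (Or.inl rfl) hs with h | h
        · exact hkS (by rw [h]; simpa using h4)
        · exact hkd h
    · rintro ⟨g1, g2⟩ hg
      have hg' := adjF_iff.1 hg.symm
      simp only [Prod.mk.injEq] at hg'
      rcases hg' with ⟨e1, e2⟩ | ⟨e1, e2⟩ | ⟨e1, e2⟩ | ⟨e1, e2⟩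
      · exact ⟨(x + 1, y), by simp [IsCor, e1, e2], by rw [v1]; exact z2 _⟩
      · exact ⟨(x, y + 1), by simp [IsCor, e1, e2], by rw [v2]; exact z2 _⟩
      · exact ⟨(x, y + 1), by simp [IsCor, e1, e2], by rw [v2]; exact z2 _⟩
      · exact ⟨(x + 1, y), by simp [IsCor, e1, e2], by rw [v1]; exact z2 _⟩

/-- Simple polygons are the nonempty edge connected finite regions without holes. -/
theorem mpoly_of_esc {S : Finset (ℤ × ℤ)} (hne : S.Nonempty) (hc : Top.EConn (S : Set (ℤ × ℤ)))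
    (he : Esc (S : Set (ℤ × ℤ))) : MPoly S :=
  ⟨hne, econn_iff_top.2 hc, econn_compl S.finite_toSet he, noPinch_of_esc hc he⟩

theorem mpoly_iff {S : Finset (ℤ × ℤ)} :
    MPoly S ↔ S.Nonempty ∧ Top.EConn (S : Set (ℤ × ℤ)) ∧ Esc (S : Set (ℤ × ℤ)) :=
  ⟨fun h => ⟨h.nonempty, h.top_econn, h.esc⟩, fun h => mpoly_of_esc h.1 h.2.1 h.2.2⟩

theorem IsPoly.mpoly {S : Finset (ℤ × ℤ)} (h : IsPoly S) : MPoly S :=
  mpoly_of_esc h.ne h.top_econn h.esc

/-! ### Edge components -/

section comp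

variable {S T : Finset (ℤ × ℤ)} {f₀ f g : ℤ × ℤ}

/-- The edge component of the face `f₀` in `S` (empty if `f₀` is not in `S`). -/
noncomputable def ecomp (S : Finset (ℤ × ℤ)) (f₀ : ℤ × ℤ) : Finset (ℤ × ℤ) := by
  classical exact S.filter fun x => f₀ ∈ S ∧ Relation.ReflTransGen (StepC (S : Set (ℤ × ℤ))ᶜ) f₀ x

theorem mem_ecomp : f ∈ ecomp S f₀ ↔ f₀ ∈ S ∧
    Relation.ReflTransGen (StepC (S : Set (ℤ × ℤ))ᶜ) f₀ f := by
  classical
  unfold ecomp
  rw [Finset.mem_filter]
  refine ⟨fun h => h.2, fun h => ⟨?_, h⟩⟩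
  have := chain_notMem (F := (S : Set (ℤ × ℤ))ᶜ) (by simpa using h.1) h.2
  simpa using this

theorem ecomp_sub : ecomp S f₀ ⊆ S := by
  classical
  unfold ecomp
  exact Finset.filter_subset _ _

theorem self_mem_ecomp (h : f₀ ∈ S) : f₀ ∈ ecomp S f₀ := mem_ecomp.2 ⟨h, Relation.ReflTransGen.refl⟩

theorem ecomp_step (hf : f ∈ ecomp S f₀) (h : AdjF f g) (hg : g ∈ S) : g ∈ ecomp S f₀ := by
  rw [mem_ecomp] at hf ⊢
  exact ⟨hf.1, hf.2.tail ⟨h, by simpa using hg⟩⟩

theorem ecomp_chain (hf : f ∈ ecomp S f₀) (h : Relation.ReflTransGen (StepC (S : Set (ℤ × ℤ))ᶜ) f g) :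
    g ∈ ecomp S f₀ := by
  rw [mem_ecomp] at hf ⊢
  exact ⟨hf.1, hf.2.trans h⟩

theorem ecomp_eq (hf : f ∈ ecomp S f₀) : ecomp S f = ecomp S f₀ := by
  have h0 := mem_ecomp.1 hf
  have hfS := ecomp_sub hf
  ext g
  rw [mem_ecomp, mem_ecomp]
  constructor
  · exact fun h => ⟨h0.1, h0.2.trans h.2⟩
  · exact fun h => ⟨hfS, (chain_reverse (by simpa using h0.1) h0.2).trans h.2⟩

theorem top_econn_ecomp : Top.EConn (ecomp S f₀ : Set (ℤ × ℤ)) := by
  have key : ∀ f g, f ∈ ecomp S f₀ → Relation.ReflTransGen (StepC (S : Set (ℤ × ℤ))ᶜ) f g →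
      Relation.ReflTransGen (fun a b => AdjF a b ∧ b ∈ (ecomp S f₀ : Set (ℤ × ℤ))) f g := by
    intro f g hf hg
    induction hg with
    | refl => exact Relation.ReflTransGen.refl
    | tail h1 h2 ih => exact ih.tail ⟨h2.1, Finset.mem_coe.2 (ecomp_chain hf (h1.tail h2))⟩
  intro f hf g hg
  have hf' := Finset.mem_coe.1 hf
  have hg' := Finset.mem_coe.1 hg
  rw [← ecomp_eq hf'] at hg'
  exact key f g hf' (mem_ecomp.1 hg').2

theorem esc_ecomp (h : Esc (S : Set (ℤ × ℤ))) : Esc (ecomp S f₀ : Set (ℤ × ℤ)) := by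
  obtain ⟨x₀, x₁, y₀, y₁, hb⟩ := exists_RF S.finite_toSet
  refine h.component (fun x hx => Finset.mem_coe.2 (ecomp_sub (Finset.mem_coe.1 hx))) hb ?_
  intro f hf g hg hfg
  exact Finset.mem_coe.2 (ecomp_step (Finset.mem_coe.1 hf) hfg (Finset.mem_coe.1 hg))

/-- The edge component of a face in a region without holes is a simple polygon. -/
theorem mpoly_ecomp (h : Esc (S : Set (ℤ × ℤ))) (hf : f₀ ∈ S) : MPoly (ecomp S f₀) :=
  mpoly_of_esc ⟨f₀, self_mem_ecomp hf⟩ top_econn_ecomp (esc_ecomp h)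

theorem ecomp_mono (h : S ⊆ T) : ecomp S f₀ ⊆ ecomp T f₀ := by
  intro f hf
  rw [mem_ecomp] at hf ⊢
  exact ⟨h hf.1, chain_mono (Set.compl_subset_compl.2 (Finset.coe_subset.2 h)) hf.2⟩

/-- The component of a subset which contains the component. -/
theorem ecomp_of_sub (h1 : ecomp S f₀ ⊆ T) (h2 : T ⊆ S) : ecomp T f₀ = ecomp S f₀ := by
  refine Finset.Subset.antisymm (ecomp_mono h2) fun f hf => ?_
  have h0 := mem_ecomp.1 hf
  refine mem_ecomp.2 ⟨h1 (self_mem_ecomp h0.1), ?_⟩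
  have key : ∀ g, Relation.ReflTransGen (StepC (S : Set (ℤ × ℤ))ᶜ) f₀ g →
      Relation.ReflTransGen (StepC (T : Set (ℤ × ℤ))ᶜ) f₀ g := by
    intro g hg
    induction hg with
    | refl => exact Relation.ReflTransGen.refl
    | tail k1 k2 ih =>
      exact ih.tail ⟨k2.1, by simpa using h1 (mem_ecomp.2 ⟨h0.1, k1.tail k2⟩)⟩
  exact key f h0.2

theorem ecomp_conn (h : Top.EConn (S : Set (ℤ × ℤ))) (hf : f₀ ∈ S) : ecomp S f₀ = S := by
  refine Finset.Subset.antisymm ecomp_sub fun f hfS => mem_ecomp.2 ⟨hf, ?_⟩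
  refine rtg_mono (fun u v huv => ⟨huv.1, ?_⟩) (h f₀ hf f hfS)
  simpa using huv.2

theorem esc_inter_RF (h : Esc (S : Set (ℤ × ℤ))) (x₀ x₁ y₀ y₁ : ℤ) :
    Esc ((S ∩ RF x₀ x₁ y₀ y₁ : Finset (ℤ × ℤ)) : Set (ℤ × ℤ)) := by
  rw [Finset.coe_inter]
  exact h.inter (esc_RF _ _ _ _)

/-- Removal of faces which are chained (inside the removed set) to a face with a side on the
boundary. -/
theorem esc_sdiff (h : Esc (S : Set (ℤ × ℤ))) {K : Finset (ℤ × ℤ)}
    (hK : ∀ f ∈ K, ∃ k ∈ K, (∃ g, g ∉ S ∧ AdjF k g) ∧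
      Relation.ReflTransGen (StepC (K : Set (ℤ × ℤ))ᶜ) f k) :
    Esc ((S \ K : Finset (ℤ × ℤ)) : Set (ℤ × ℤ)) := by
  rw [Finset.coe_sdiff]
  refine h.diff fun f hf => ?_
  obtain ⟨k, hk, ⟨g, hg, hkg⟩, hc⟩ := hK f (Finset.mem_coe.1 hf)
  refine ⟨g, by simpa using hg, ?_⟩
  have hc' : Relation.ReflTransGen (StepC ((S : Set (ℤ × ℤ)) \ (K : Set (ℤ × ℤ)))) f k := by
    refine rtg_mono (fun a b hab => ⟨hab.1, ?_⟩) hc
    intro hb
    exact hab.2 hb.2
  exact hc'.tail ⟨hkg, fun hb => hg (by simpa using hb.1)⟩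

end comp

/-! ### Refinement -/

section refine

variable {S T : Finset (ℤ × ℤ)} {n : ℕ} {f₀ f g : ℤ × ℤ}

theorem rf_inter (hn : 0 < n) : rf n (S ∩ T) = rf n S ∩ rf n T := by
  ext f
  simp only [mem_rf hn, Finset.mem_inter]

theorem rf_union (hn : 0 < n) : rf n (S ∪ T) = rf n S ∪ rf n T := by
  ext f
  simp only [mem_rf hn, Finset.mem_union]

theorem rf_sdiff (hn : 0 < n) : rf n (S \ T) = rf n S \ rf n T := by
  ext f
  simp only [mem_rf hn, Finset.mem_sdiff]

theorem rf_mono (hn : 0 < n) (h : S ⊆ T) : rf n S ⊆ rf n T := by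
  intro f hf
  rw [mem_rf hn] at hf ⊢
  exact h hf

theorem rf_RF (hn : 0 < n) (x₀ x₁ y₀ y₁ : ℤ) :
    rf n (RF x₀ x₁ y₀ y₁) = RF (n * x₀) (n * x₁) (n * y₀) (n * y₁) := by
  have h0 : (0 : ℤ) < n := by exact_mod_cast hn
  ext f
  rw [mem_rf hn]
  simp only [RF, mem_product, mem_Ico]
  rw [Int.le_ediv_iff_mul_le h0, Int.le_ediv_iff_mul_le h0, Int.ediv_lt_iff_lt_mul h0,
    Int.ediv_lt_iff_lt_mul h0, mul_comm x₀, mul_comm x₁, mul_comm y₀, mul_comm y₁]

theorem adj_div (hn : 0 < n) (h : AdjF f g) :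
    ((f.1 / (n : ℤ), f.2 / (n : ℤ)) : ℤ × ℤ) = (g.1 / (n : ℤ), g.2 / (n : ℤ)) ∨
      AdjF (f.1 / (n : ℤ), f.2 / (n : ℤ)) (g.1 / (n : ℤ), g.2 / (n : ℤ)) := by
  obtain ⟨f1, f2⟩ := f
  obtain ⟨g1, g2⟩ := g
  have key : ∀ x : ℤ, (x + 1) / (n : ℤ) = x / (n : ℤ) ∨ (x + 1) / (n : ℤ) = x / (n : ℤ) + 1 := by
    intro x
    have := pinch_aux hn (x + 1)
    rw [add_sub_cancel_right] at this
    omega
  rcases adjF_iff.1 h with h | h | h | h <;> simp only [Prod.mk.injEq] at h <;> obtain ⟨rfl, rfl⟩ := h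
  · rcases key f1 with h | h
    · left; simp only [h]
    · right; rw [adjF_iff]; left; simp only [h]
  · have k := key (f1 - 1)
    rw [sub_add_cancel] at k
    rcases k with h | h
    · left; simp only [h]
    · right; rw [adjF_iff]; right; left; simp only [h, add_sub_cancel_right]
  · rcases key f2 with h | h
    · left; simp only [h]
    · right; rw [adjF_iff]; right; right; left; simp only [h]
  · have k := key (f2 - 1)
    rw [sub_add_cancel] at k
    rcases k with h | h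
    · left; simp only [h]
    · right; rw [adjF_iff]; right; right; right; simp only [h, add_sub_cancel_right]

/-- Refinement commutes with the formation of edge components. -/
theorem ecomp_rf (hn : 0 < n) (hf : ((f.1 / (n : ℤ), f.2 / (n : ℤ)) : ℤ × ℤ) = f₀) :
    ecomp (rf n S) f = rf n (ecomp S f₀) := by
  by_cases h0 : f₀ ∈ S
  · have hfS : f ∈ rf n (ecomp S f₀) := by
      rw [mem_rf hn, hf]
      exact self_mem_ecomp h0
    refine Finset.Subset.antisymm (fun g hg => ?_) (fun g hg => ?_)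
    · have h1 := (mem_ecomp.1 hg).2
      clear hg
      induction h1 with
      | refl => exact hfS
      | @tail b c hb hs ih =>
        rw [mem_rf hn] at ih ⊢
        have hcS : c ∈ rf n S := by simpa using hs.2
        rw [mem_rf hn] at hcS
        rcases adj_div hn hs.1 with h | h
        · rw [← h]; exact ih
        · exact ecomp_step ih h hcS
    · have hcon : Top.EConn (rf n (ecomp S f₀) : Set (ℤ × ℤ)) := by
        rw [coe_rf hn, ← econn_iff_top]
        exact econn_bl hn (econn_iff_top.2 top_econn_ecomp)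
      refine mem_ecomp.2 ⟨rf_mono hn ecomp_sub hfS, ?_⟩
      refine rtg_mono (fun u v huv => ⟨huv.1, ?_⟩) (hcon f hfS g hg)
      simpa using rf_mono hn ecomp_sub huv.2
  · have e1 : ecomp S f₀ = ∅ := by
      ext g
      simp [mem_ecomp, h0]
    have e2 : ecomp (rf n S) f = ∅ := by
      ext g
      simp [mem_ecomp, mem_rf hn, hf, h0]
    rw [e1, e2]
    ext g
    simp [mem_rf hn]

end refine

/-! ### The contour of a simple polygon and of its refinement in the form of iterated sides -/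

section contour

variable {S : Finset (ℤ × ℤ)} {L n : ℕ} {g g' : ℤ → ℤ × ℤ}

theorem LSide.next_unique (h : NoPinch S) {p q q' : ℤ × ℤ} (h1 : LSide S p q) (h2 : LSide S p q') :
    q = q' := by
  obtain ⟨A, hA, a1, a2⟩ := lside_iff.1 h1
  obtain ⟨B, hB, b1, b2⟩ := lside_iff.1 h2
  rw [← a2, ← b2, bd_eq_of_lf h hA hB (a1.trans b1.symm)]

theorem Cont.ext_nat (hP : NoPinch S) {L' : ℕ} (h : Cont S L g) (h' : Cont S L' g') {a b : ℤ}
    (h0 : g a = g' b) : ∀ i : ℕ, g (a + i) = g' (b + i) := by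
  intro i
  induction i with
  | zero => simpa using h0
  | succ i ih =>
    have h1 := h.side (a + i)
    have h2 := h'.side (b + i)
    rw [ih] at h1
    have := h1.next_unique hP h2
    push_cast
    rw [← add_assoc, ← add_assoc]
    exact this

/-- The contour of the refinement which starts at the first part of the side `A`. -/
theorem exists_start (hP : MPoly S) (hn : 0 < n) {A : UE × Bool} (hA : BD (S : Set (ℤ × ℤ)) A)
    (h : Cont S L g) (hg : ∀ i : ℕ, g i = lf ((sc (S : Set (ℤ × ℤ)))^[i] A)) :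
    ∃ B, BD (rf n S : Set (ℤ × ℤ)) B ∧ lf B = (n * (lf A).1, n * (lf A).2) ∧
      ∀ i : ℕ, gr n g i = lf ((sc (rf n S : Set (ℤ × ℤ)))^[i] B) := by
  have hc := cont_rf h hn
  have hPn := mpoly_rf hP hn
  obtain ⟨B, hB, b1, b2⟩ := lside_iff.1 (hc.side 0)
  obtain ⟨L', g', hc', hg'⟩ := hPn.exists_cont_from hB
  have hg0 : g 0 = lf A := by
    have := hg 0
    simpa using this
  refine ⟨B, hB, ?_, fun i => ?_⟩
  · rw [b1]
    unfold gr
    simp only [Int.zero_ediv, Int.zero_emod, zero_mul, add_zero, hg0]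
  · have h0 : gr n g 0 = g' 0 := by
      rw [← b1]
      have := hg' 0
      simpa using this.symm
    have := hc.ext_nat hPn.noPinch hc' h0 i
    rw [zero_add] at this
    exact this.trans (hg' i)

/-- The start side of the refinement is unique. -/
theorem start_unique (hP : NoPinch S) {B B' : UE × Bool} (hB : BD (S : Set (ℤ × ℤ)) B)
    (hB' : BD (S : Set (ℤ × ℤ)) B') (h : lf B = lf B') : B = B' := bd_eq_of_lf hP hB hB' h

end contour

end Pool.Agent.SixB
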