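import Pool.Agent.Lib.SixB.S8MoveT

/-!
# Step 8: the cap arcs of the true domain are small

The fields `capR`, `capL` of `MvDom` for a true side `TSide`: the vertices of the contour of `T` between
the first cut side and the run (between the run and the last cut side) are within `E ≥ d` of the first
(last) vertex of the run.
-/

set_option autoImplicit false

namespace Pool.Agent.SixB.Mv.TSide

open Pool.Agent.Perc Pool.Agent.Perc6 Pool.Agent.Perc6.C2Aux Pool.Agent.Perc.Tips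
open Pool.Agent.SixB.Top Pool.Agent.SixB.CloK

/-- Two vertices at faces of one class are close. -/
theorem inB_of_cor {ι : Type*} {U P : Set (ℤ × ℤ)} {κ : ℤ × ℤ → ι} {d E : ℤ} (h : App U P κ d)
    (hdE : d ≤ E) {f g x y : ℤ × ℤ} (hfg : κ f = κ g) (hx : IsCor f x) (hy : IsCor g y) :
    LC.InB y E x := by
  obtain ⟨h1, h2⟩ := h.diam f g hfg
  rw [abs_lt] at h1 h2
  obtain ⟨f1, f2⟩ := f
  obtain ⟨g1, g2⟩ := g
  obtain ⟨x1, x2⟩ := x
  obtain ⟨y1, y2⟩ := y
  simp only [IsCor, LC.InB] at *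
  omega

variable {ι : Type*} {U P D : Set (ℤ × ℤ)} {κ : ℤ × ℤ → ι} {d a b L E : ℤ}
  {A τ : UE × Bool} {m p q : ℕ} {Y : Set (ℤ × ℤ)} {T : Finset (ℤ × ℤ)}
  {n N₁ N₂ mU M s t u K : ℕ} (S : TSide U P D κ a b L A τ m p q Y T n N₁ N₂ mU M s t u K)
  (H : Mvd U P D κ d A m p q)

include S H

/-- The right cap arc is near the first vertex of the run. -/
theorem near_capR (hdE : d ≤ E) (y : ℕ) (h1 : s + 1 ≤ y) (h2 : y ≤ K) :
    LC.InB (vert (T : Set (ℤ × ℤ)) τ K) E (vert (T : Set (ℤ × ℤ)) τ y) := by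
  have hl := S.lay
  have hsK := hl.sK
  have hK : IsCor (gR D A Y N₁) (vert (T : Set (ℤ × ℤ)) τ K) := by
    have h3 := hl.prev_out
    have h4 : vert (T : Set (ℤ × ℤ)) τ K = rg (side (T : Set (ℤ × ℤ)) τ (K - 1)) := by
      rw [← vert_succ, show K - 1 + 1 = K by omega]
    rw [h4, gR, ← h3]
    exact isCor_out_rg _
  rcases h2.lt_or_eq with h3 | h3
  · have h4 := hl.capR y (by omega) h3
    exact inB_of_cor H.app hdE (capK_class h4) (isCor_out_lf _) hK
  · subst h3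
    exact inB_of_cor H.app hdE (rfl : κ (gR D A Y N₁) = κ (gR D A Y N₁)) hK hK

/-- The left cap arc is near the last vertex of the run. -/
theorem near_capL (hdE : d ≤ E) (y : ℕ) (h1 : K + (N₂ - N₁) ≤ y) (h2 : y ≤ t) :
    LC.InB (vert (T : Set (ℤ × ℤ)) τ (K + (N₂ - N₁))) E (vert (T : Set (ℤ × ℤ)) τ y) := by
  have hl := S.lay
  have hK : IsCor (gL D A Y N₂) (vert (T : Set (ℤ × ℤ)) τ (K + (N₂ - N₁))) := by
    have h3 := hl.arc_out (i := N₂ - N₁) le_rfl
    have h5 := S.run.con.lt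
    rw [show N₁ + (N₂ - N₁) = N₂ by omega] at h3
    rw [gL, ← h3]
    exact isCor_out_lf _
  rcases h1.lt_or_eq with h3 | h3
  · obtain ⟨z, rfl⟩ : ∃ z, y = z + 1 := ⟨y - 1, by omega⟩
    have h4 := hl.capL z (by omega) (by omega)
    rw [vert_succ]
    exact inB_of_cor H.app hdE (capK_class h4) (isCor_out_rg _) hK
  · subst h3
    exact inB_of_cor H.app hdE (rfl : κ (gL D A Y N₂) = κ (gL D A Y N₂)) hK hK

end Pool.Agent.SixB.Mv.TSide
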