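import Pool.Agent.Lib.SixB.S8MoveF
import Pool.Agent.Lib.SixB.S8StopInst
import Pool.Agent.Lib.SixB.S8AppLink
import Pool.Agent.Lib.SixB.S8MoveC

/-!
# Step 8, unit 8H: all data of one move

* `TrueD`: the data of one past: the true domain `U` before the move with its contour from the true tip
  side `τ`, the number `kt` of the first left side, the number `x` of the target side, the walls, the
  configuration read by the strand.
* For one attached set: `TSide.idx` (place of the target), `TSide.capDom`, `TSide.stop`, `TSide.labD` and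
  `TSide.mvDom` (the data `MvDom` of the kernel from the labels, the distances and the gates).
-/

set_option autoImplicit false

namespace Pool.Agent.SixB.Mv

open Finset Pool.Agent.Perc Pool.Agent.Perc6 Pool.Agent.Perc6.C2Aux Pool.Agent.Perc.Tips
open Pool.Agent.SixB.Top Pool.Agent.SixB.CloK

/-- The data of one past. `τ`: the true tip side, `kt`: the number of the first left side, `x`: the number
of the target side. -/
structure TrueD (Ξ : Cfg → Cfg) (c : ℤ) (R U : Set (ℤ × ℤ)) (τ : UE × Bool) (mU kt x : ℕ) :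
    Prop where
  cyc : Cyc U τ mU
  ktm : kt ≤ mU
  lt : x < mU
  tgt : IsTgt U τ c kt x
  hR : HasPot R
  UR : U ⊆ R
  hc : c = 0 ∨ c = 1
  hpt : par (rg τ) = c
  hfa : fa τ.1 = ahead τ
  hfb : fb τ.1 = ahead (rv τ)
  agr : ∀ ξ, ∀ f ∈ U, Ξ ξ f = ξ f
  walls : ∀ ξ, WallsU (Ξ ξ) c R U τ mU kt
  solid : ∃ d : ℤ, (d = 0 ∨ d = 1) ∧ ∃ F : Finset (ℤ × ℤ), ∀ ξ g, g ∉ F → Ξ ξ g = parD d g

variable {ι : Type} {U P D R : Set (ℤ × ℤ)} {κ : ℤ × ℤ → ι} {d a b L c : ℤ}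
  {A τ : UE × Bool} {m p q : ℕ} {Y : Set (ℤ × ℤ)} {T : Finset (ℤ × ℤ)}
  {n N₁ N₂ mU M s t u K kt x : ℕ} {Ξ : Cfg → Cfg}

/-- The target is between the two walls of the true domain. -/
theorem TSide.idx (S : TSide U P D κ a b L A τ m p q Y T n N₁ N₂ mU M s t u K)
    (X : TrueD Ξ c R U τ mU kt x) (hT : inF U τ x ∉ T) : s < x ∧ x < u ∧ s + 1 ≤ kt ∧ kt ≤ u := by
  obtain ⟨h1, h2⟩ := S.lay.index_of_notMem X.lt.le fun h => hT (Finset.mem_coe.1 h)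
  rcases X.tgt with ⟨h3, -⟩ | ⟨h3, -⟩ <;> omega

/-- **The data `CapDom`.** -/
theorem TSide.capDom (S : TSide U P D κ a b L A τ m p q Y T n N₁ N₂ mU M s t u K)
    (H : Mvd U P D κ d A m p q) (X : TrueD Ξ c R U τ mU kt x) (hT : inF U τ x ∉ T) (ξ : Cfg) :
    CapDom (Ξ ξ) c R U T M (vert (T : Set (ℤ × ℤ)) τ) (s + 1) K (K + (N₂ - N₁)) t τ.1 := by
  obtain ⟨h1, h2, h3, h4⟩ := S.idx X hT
  refine LayCap.capDom S.lay H.finU H.ecU X.hR X.UR (S.TU H) ?_ (S.escT H) (X.walls ξ) X.hc X.hpt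
    h3 h4 X.hfa X.hfb
  rw [S.eqT]
  exact (H.closure S.run.att S.run.tip S.run.con S.lt).2.2

/-- **The strand enters `U \ T`.** -/
theorem TSide.stop (S : TSide U P D κ a b L A τ m p q Y T n N₁ N₂ mU M s t u K)
    (H : Mvd U P D κ d A m p q) (X : TrueD Ξ c R U τ mU kt x) (hT : inF U τ x ∉ T) (ξ : Cfg) :
    ∃ i, fa (pth (Ξ ξ) τ.1 i) ∈ U ∧ fa (pth (Ξ ξ) τ.1 i) ∉ T := by
  obtain ⟨d', hd', F, hF⟩ := X.solid
  obtain ⟨h1, h2, h3, h4⟩ := S.idx X hT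
  have ht := S.lay.tgt H.ecU (S.TU H) (X.walls ξ) X.hc (by omega) X.ktm X.lt X.tgt
    (fun h => hT (Finset.mem_coe.1 h))
  obtain ⟨i, hi⟩ := (S.capDom H X hT ξ).toTipDom.exists_stop_solid ht hd' (hF ξ)
  exact ⟨i, hi.mem, hi.out⟩

/-- **The labels.** -/
theorem TSide.labD (S : TSide U P D κ a b L A τ m p q Y T n N₁ N₂ mU M s t u K)
    (H : Mvd U P D κ d A m p q) (X : TrueD Ξ c R U τ mU kt x) (hT : inF U τ x ∉ T)
    {Pf : Finset (ℤ × ℤ)} (hPf : (Pf : Set (ℤ × ℤ)) = inn D A Y) {v : ℤ × ℤ} {σ : ℤ}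
    (hv : v = lf A) (hdσ : d ≤ σ) (farR : ¬ LC.InB v σ (ua (side (inn D A Y) A (N₁ - 1)).1))
    (farL : ¬ LC.InB v σ (ua (side (inn D A Y) A N₂).1))
    (lb : ∀ i < N₁, ¬ LC.InB v σ (ua (side (inn D A Y) A i).1) → ∀ w < mU,
      LinkK U κ (side (inn D A Y) A i) (side U τ w) → w < kt)
    (ll : ∀ i, N₂ ≤ i → i < n → ¬ LC.InB v σ (ua (side (inn D A Y) A i).1) → ∀ w < mU,
      LinkK U κ (side (inn D A Y) A i) (side U τ w) → kt ≤ w) :
    LabD U P T Pf κ d τ A N₁ N₂ n mU M s t u K kt v σ := by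
  obtain ⟨h1, h2, h3, h4⟩ := S.idx X hT
  refine labD_of_mvd H S.run.att S.run.tip S.run.con S.lt S.eqT hPf ?_ farR farL lb ll (by omega)
    h4 hv hdσ
  have := S.lay
  rw [S.eqT] at this
  exact this

/-- **The data of the kernel** for one attached set. -/
theorem TSide.mvDom (S : TSide U P D κ a b L A τ m p q Y T n N₁ N₂ mU M s t u K)
    (H : Mvd U P D κ d A m p q) (X : TrueD Ξ c R U τ mU kt x) (hT : inF U τ x ∉ T)
    {Pf : Finset (ℤ × ℤ)} (hPf : (Pf : Set (ℤ × ℤ)) = inn D A Y) {v : ℤ × ℤ} {σ E ρ : ℤ}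
    (hv : v = lf A) (hdσ : d ≤ σ) (hσ : σ ≤ E) (Eρ : E ≤ ρ)
    (farR : ¬ LC.InB v σ (ua (side (inn D A Y) A (N₁ - 1)).1))
    (farL : ¬ LC.InB v σ (ua (side (inn D A Y) A N₂).1))
    (lb : ∀ i < N₁, ¬ LC.InB v σ (ua (side (inn D A Y) A i).1) → ∀ w < mU,
      LinkK U κ (side (inn D A Y) A i) (side U τ w) → w < kt)
    (ll : ∀ i, N₂ ≤ i → i < n → ¬ LC.InB v σ (ua (side (inn D A Y) A i).1) → ∀ w < mU,
      LinkK U κ (side (inn D A Y) A i) (side U τ w) → kt ≤ w)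
    (ne0 : ∃ i < N₁, ∀ e, Joins e (vert (inn D A Y) A i) (vert (inn D A Y) A (i + 1)) →
      ¬ LC.InB v E (ua e))
    (ne3 : ∃ i, N₂ ≤ i ∧ i < n ∧
      ∀ e, Joins e (vert (inn D A Y) A i) (vert (inn D A Y) A (i + 1)) → ¬ LC.InB v E (ua e))
    (far : ∀ i, K ≤ i → i ≤ K + (N₂ - N₁) →
      ¬ LC.InB v (5 * ρ + 10 * E + 10) (vert (T : Set (ℤ × ℤ)) τ i))
    (far' : ∀ i, N₁ ≤ i → i < N₂ →
      ∀ e, Joins e (vert (inn D A Y) A i) (vert (inn D A Y) A (i + 1)) →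
      ¬ LC.InB v (5 * ρ + 10 * E + 10) (ua e))
    (gate : ∀ i, K ≤ i → i ≤ K + (N₂ - N₁) →
      ¬ LC.Gate (T : Set (ℤ × ℤ)) (LC.av (vert (T : Set (ℤ × ℤ)) τ) 0 K)
        (LC.av (vert (T : Set (ℤ × ℤ)) τ) (K + (N₂ - N₁)) M) (vert (T : Set (ℤ × ℤ)) τ i)
        (6 * ρ)) :
    MvDom ((ℤ × ℤ) ⊕ ι) Ξ c R U τ.1 T M (vert (T : Set (ℤ × ℤ)) τ) (s + 1) K (K + (N₂ - N₁)) t Pf
      n (vert (inn D A Y) A) N₁ N₂ (subK P κ) v E ρ := by
  have hd := hdσ.trans hσ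
  have LD := S.labD H X hT hPf hv hdσ farR farL lb ll
  have hc := S.clo H
  have app₂ : App (T : Set (ℤ × ℤ)) (inn D A Y) (subK P κ) E :=
    (H.app.dom hc.DT (S.TU H) (fun f hf hfP => hc.inter hf hfP)
      (fun f hf => H.DP (S.run.sub hf))).mono hd
  refine mvDom_of S H hPf (S.capDom H X hT) (fun ξ f hf => X.agr ξ f (S.TU H (Finset.mem_coe.2 hf)))
    app₂ Eρ ?_ ?_ ?_ ne0 ne3 far far' gate (S.near_capR H hd) (S.near_capL H hd)
  · rw [← hPf]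
    exact fun e e' i i' h1 h2 h3 h4 h5 h6 h7 => LD.labb hσ e e' i i' h1 h2 h3 h4 h5 h6 h7
  · rw [← hPf]
    exact fun e e' i i' h1 h2 h3 h4 h5 h6 h7 => LD.labo hσ e e' i i' h1 h2 h3 h4 h5 h6 h7
  · rw [← hPf]
    exact fun e e' i i' h1 h2 h3 h4 h5 h6 => LD.labc e e' i i' h1 h2 h3 h4 h5 h6

end Pool.Agent.SixB.Mv
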