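import Pool.Agent.Lib.SixB.S7TopB

/-!
# Cluster explorations in a region with a contour

Everything is derived from `ctr_du` and `ctr_nc` by changing the configuration (`setO`, `setE`).
`x = w t` is a boundary vertex, `arcI` the target arc, `arcR`, `arcL` the vertices of the other parity of the two
remaining arcs of the contour.
-/

set_option autoImplicit false

namespace Pool.Agent.SixB

open Finset Pool.Agent.Perc Pool.Agent.Perc6

/-! ### Changing the configuration -/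

variable {ω ω' : Cfg} {F K D A B : Set (ℤ × ℤ)} {u v p q : ℤ × ℤ} {c : ℤ}

theorem setO_mem {f : ℤ × ℤ} (h : f ∈ K) : setO c K ω f = parD c f := by
  classical
  simp [setO, h]

theorem setO_not {f : ℤ × ℤ} (h : f ∉ K) : setO c K ω f = ω f := by
  classical
  simp [setO, h]

theorem setE_mem {f : ℤ × ℤ} (h : f ∈ K) : setE c K ω f = !parD c f := by
  classical
  simp [setE, h]

theorem setE_not {f : ℤ × ℤ} (h : f ∉ K) : setE c K ω f = ω f := by
  classical
  simp [setE, h]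

/-- The face of a bond. -/
theorem Bond.face (h : Bond ω F u v) : ∃ f ∈ F, Bond ω {f} u v ∧ IsCor f u ∧ IsCor f v := by
  obtain ⟨f, hf, hb, hu, hv⟩ := h.exists_face
  exact ⟨f, hf, hb, hu, hv⟩

/-- In a face with the bond of the other colour there is no bond of the colour `c`. -/
theorem bond_parD {f : ℤ × ℤ} (h : Bond ω {f} u v) (hf : ω f = parD c f) (hc : c = 0 ∨ c = 1) :
    par u ≠ c := by
  obtain ⟨x, y, hxy, h⟩ := h
  rw [Set.mem_singleton_iff] at hxy
  subst hxy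
  unfold parD at hf
  unfold par
  rcases h with ⟨ht, (⟨rfl, rfl⟩ | ⟨rfl, rfl⟩)⟩ | ⟨ht, (⟨rfl, rfl⟩ | ⟨rfl, rfl⟩)⟩ <;>
    rw [ht] at hf <;> simp at hf <;> simp only <;> omega

theorem bond_not_parD {f : ℤ × ℤ} (h : Bond ω {f} u v) (hf : ω f = !parD c f)
    (hc : c = 0 ∨ c = 1) : par u = c := by
  obtain ⟨x, y, hxy, h⟩ := h
  rw [Set.mem_singleton_iff] at hxy
  subst hxy
  unfold parD at hf
  unfold par
  rcases h with ⟨ht, (⟨rfl, rfl⟩ | ⟨rfl, rfl⟩)⟩ | ⟨ht, (⟨rfl, rfl⟩ | ⟨rfl, rfl⟩)⟩ <;>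
    rw [ht] at hf <;> simp at hf <;> simp only <;> omega

theorem parD_of_bond {f : ℤ × ℤ} (h : Bond ω {f} u v) (hu : par u ≠ c) (hc : c = 0 ∨ c = 1) :
    ω f = parD c f := by
  by_contra hne
  refine hu (bond_not_parD h ?_ hc)
  cases h1 : ω f <;> cases h2 : parD c f <;> simp_all

theorem not_parD_of_bond {f : ℤ × ℤ} (h : Bond ω {f} u v) (hu : par u = c) (hc : c = 0 ∨ c = 1) :
    ω f = !parD c f := by
  by_contra hne
  refine bond_parD (c := c) h ?_ hc hu
  cases h1 : ω f <;> cases h2 : parD c f <;> simp_all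

theorem conn_induct {P : ℤ × ℤ → Prop} (h : Conn ω F u v) (h0 : P u)
    (hs : ∀ p q f, Conn ω F u p → P p → f ∈ F → Bond ω {f} p q → IsCor f p → IsCor f q → P q) :
    P v := by
  induction h with
  | refl => exact h0
  | tail hc hb ih =>
    obtain ⟨f, hf, hb', h1, h2⟩ := Bond.face hb
    exact hs _ _ f hc ih hf hb' h1 h2

theorem bond_of_single {f : ℤ × ℤ} (hf : f ∈ F) (h : Bond ω {f} u v) : Bond ω F u v :=
  h.of_single hf

theorem bond_single_congr {f : ℤ × ℤ} (h : Bond ω {f} u v) (hf : ω f = ω' f) : Bond ω' {f} u v :=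
  h.congr hf

/-- Connections of the colour `c` in `setO c K ω` avoid `K`. -/
theorem conn_setO (hc : c = 0 ∨ c = 1) (hu : par u = c) :
    Conn (setO c K ω) F u v ↔ Conn ω (F \ K) u v := by
  constructor
  · intro h
    refine conn_induct (P := fun v => Conn ω (F \ K) u v) h Relation.ReflTransGen.refl ?_
    intro p q f hup hp hf hb h1 h2
    have hfK : f ∉ K := fun hk => bond_parD hb (setO_mem hk) hc (hup.par_eq.symm.trans hu)
    exact hp.tail (bond_of_single ⟨hf, hfK⟩ (bond_single_congr hb (setO_not hfK)))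
  · intro h
    refine conn_induct (P := fun v => Conn (setO c K ω) F u v) h Relation.ReflTransGen.refl ?_
    intro p q f hup hp hf hb h1 h2
    exact hp.tail (bond_of_single hf.1 (bond_single_congr hb (setO_not hf.2).symm))

/-- Connections of the other colour in `setE c K ω` avoid `K`. -/
theorem conn_setE (hc : c = 0 ∨ c = 1) (hu : par u ≠ c) :
    Conn (setE c K ω) F u v ↔ Conn ω (F \ K) u v := by
  constructor
  · intro h
    refine conn_induct (P := fun v => Conn ω (F \ K) u v) h Relation.ReflTransGen.refl ?_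
    intro p q f hup hp hf hb h1 h2
    have hfK : f ∉ K := fun hk => by
      have h3 := bond_not_parD hb (setE_mem hk) hc
      have h4 := hup.par_eq
      omega
    exact hp.tail (bond_of_single ⟨hf, hfK⟩ (bond_single_congr hb (setE_not hfK)))
  · intro h
    refine conn_induct (P := fun v => Conn (setE c K ω) F u v) h Relation.ReflTransGen.refl ?_
    intro p q f hup hp hf hb h1 h2
    exact hp.tail (bond_of_single hf.1 (bond_single_congr hb (setE_not hf.2).symm))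

/-- `setO` only helps the other colour. -/
theorem conn_setO_mono (hc : c = 0 ∨ c = 1) (hu : par u ≠ c) (h : Conn ω F u v) :
    Conn (setO c K ω) F u v := by
  refine conn_induct (P := fun v => Conn (setO c K ω) F u v) h Relation.ReflTransGen.refl ?_
  intro p q f hup hp hf hb h1 h2
  have h4 := hup.par_eq
  refine hp.tail (bond_of_single hf (bond_single_congr hb ?_))
  by_cases hk : f ∈ K
  · rw [setO_mem hk, parD_of_bond hb (by omega) hc]
  · rw [setO_not hk]

/-- `setE` only helps the colour `c`. -/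
theorem conn_setE_mono (hc : c = 0 ∨ c = 1) (hu : par u = c) (h : Conn ω F u v) :
    Conn (setE c K ω) F u v := by
  refine conn_induct (P := fun v => Conn (setE c K ω) F u v) h Relation.ReflTransGen.refl ?_
  intro p q f hup hp hf hb h1 h2
  have h4 := hup.par_eq
  refine hp.tail (bond_of_single hf (bond_single_congr hb ?_))
  by_cases hk : f ∈ K
  · rw [setE_mem hk, not_parD_of_bond hb (by omega) hc]
  · rw [setE_not hk]

/-! ### The exploration of the clusters of a set of vertices -/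

theorem conn_congr_wx (h : ∀ f ∈ Wx ω D B, ω f = ω' f) {b : ℤ × ℤ} (hb : b ∈ B) :
    Conn ω D b v ↔ Conn ω' D b v := by
  have key : ∀ v, Conn ω' D b v → Conn ω D b v := by
    intro v hv
    refine conn_induct (P := fun v => Conn ω D b v) hv Relation.ReflTransGen.refl ?_
    intro p q f _ hp hf hbd h1 h2
    have hW : f ∈ Wx ω D B := ⟨hf, p, h1, b, hb, hp⟩
    exact hp.tail (bond_of_single hf (bond_single_congr hbd (h f hW).symm))
  refine ⟨fun hv => ?_, key v⟩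
  refine conn_induct (P := fun v => Conn ω' D b v) hv Relation.ReflTransGen.refl ?_
  intro p q f hp hp' hf hbd h1 h2
  have hW : f ∈ Wx ω D B := ⟨hf, p, h1, b, hb, hp⟩
  exact hp'.tail (bond_of_single hf (bond_single_congr hbd (h f hW)))

/-- The exploration is a stopping set. -/
theorem wx_stop (h : ∀ f ∈ Wx ω D B, ω f = ω' f) : Wx ω' D B = Wx ω D B := by
  ext f
  simp only [Wx, Set.mem_ofPred_eq]
  constructor
  · rintro ⟨hf, q, hq, b, hb, hc⟩
    exact ⟨hf, q, hq, b, hb, (conn_congr_wx h hb).2 hc⟩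
  · rintro ⟨hf, q, hq, b, hb, hc⟩
    exact ⟨hf, q, hq, b, hb, (conn_congr_wx h hb).1 hc⟩

theorem wx_sub : Wx ω D B ⊆ D := fun _ h => h.1

theorem wx_mono {B' : Set (ℤ × ℤ)} {D' : Set (ℤ × ℤ)} (hD : D ⊆ D') (hB : B ⊆ B') :
    Wx ω D B ⊆ Wx ω D' B' := by
  rintro f ⟨hf, q, hq, b, hb, hc⟩
  exact ⟨hD hf, q, hq, b, hB hb, conn_mono hD hc⟩

/-! ### The arcs -/

/-- The target arc. -/
def arcI (w : ℕ → ℤ × ℤ) (i₁ i₂ : ℕ) : Set (ℤ × ℤ) := {v | ∃ a, i₁ ≤ a ∧ a ≤ i₂ ∧ v = w a}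

/-- The vertices of the other parity of the arc from `t` to `i₁`. -/
def arcR (w : ℕ → ℤ × ℤ) (t i₁ : ℕ) : Set (ℤ × ℤ) :=
  {v | ∃ b, t < b ∧ b ≤ i₁ ∧ v = w b ∧ par v ≠ par (w t)}

/-- The vertices of the other parity of the arc from `i₂` through `m = 0` to `t`. -/
def arcL (w : ℕ → ℤ × ℤ) (t i₂ m : ℕ) : Set (ℤ × ℤ) :=
  {v | ∃ b, (b < t ∨ i₂ ≤ b) ∧ b ≤ m ∧ v = w b ∧ par v ≠ par (w t)}

/-- The set `K` is attached to `B`: in the configuration with all bonds of the other colour every corner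
of that parity of a face of `K` is joined to `B` inside `K`. -/
def Att (c : ℤ) (K B : Set (ℤ × ℤ)) : Prop :=
  ∀ f ∈ K, ∀ q, IsCor f q → par q ≠ c → ∃ b ∈ B, Conn (parD c) K q b

theorem Att.union {K' : Set (ℤ × ℤ)} (h : Att c K B) (h' : Att c K' B) : Att c (K ∪ K') B := by
  rintro f (hf | hf) q hq hp
  · obtain ⟨b, hb, hc⟩ := h f hf q hq hp
    exact ⟨b, hb, conn_mono Set.subset_union_left hc⟩
  · obtain ⟨b, hb, hc⟩ := h' f hf q hq hp
    exact ⟨b, hb, conn_mono Set.subset_union_right hc⟩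

section
variable {G : Finset (ℤ × ℤ)} {m : ℕ} {w : ℕ → ℤ × ℤ} {t i₁ i₂ : ℕ}

theorem par01 (x : ℤ × ℤ) : par x = 0 ∨ par x = 1 := par_cases x

/-- (Du) -/
theorem du (h : Ctr (G : Set (ℤ × ℤ)) m w) (ht : t < i₁) (h12 : i₁ ≤ i₂) (h2 : i₂ ≤ m) (ω : Cfg)
    (hno : ω ∉ Hit (G : Set (ℤ × ℤ)) (w t) (arcI w i₁ i₂)) :
    ∃ b ∈ arcR w t i₁, ∃ b' ∈ arcL w t i₂ m, Conn ω G b b' := by
  obtain ⟨b, b', h3, h4, h5, h6, h7, h8⟩ := ctr_du h ω ht h12 h2 (fun a ha1 ha2 hc =>
    hno ⟨w a, ⟨a, ha1, ha2, rfl⟩, hc⟩)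
  exact ⟨w b, ⟨b, h3, h4, rfl, h7⟩, w b', ⟨b', h5, h6, rfl, by rw [← h8.par_eq]; exact h7⟩, h8⟩

/-- (NC) -/
theorem nc (h : Ctr (G : Set (ℤ × ℤ)) m w) (h2 : i₂ ≤ m) (ω : Cfg)
    (hy : ω ∈ Hit (G : Set (ℤ × ℤ)) (w t) (arcI w i₁ i₂)) {b b' : ℤ × ℤ} (hb : b ∈ arcR w t i₁)
    (hb' : b' ∈ arcL w t i₂ m) (hc : Conn ω G b b') : False := by
  obtain ⟨_, ⟨a, ha1, ha2, rfl⟩, hv⟩ := hy
  obtain ⟨k, hk1, hk2, rfl, hk4⟩ := hb
  obtain ⟨l, hl1, hl2, rfl, hl4⟩ := hb'
  have hka : k ≠ a := by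
    rintro rfl
    exact hk4 hv.par_eq.symm
  have hla : l ≠ a := by
    rintro rfl
    exact hl4 hv.par_eq.symm
  exact ctr_nc h ω hk1 (by omega : k < a) (by omega) (by omega : l < t ∨ a < l) hl2 hk4 hv hc

/-- (W0): if `x` is joined to the target then it is joined to it off every set which is not met by the
exploration of the left boundary. -/
theorem w0 (h : Ctr (G : Set (ℤ × ℤ)) m w) (ht : t < i₁) (h12 : i₁ ≤ i₂) (h2 : i₂ ≤ m)
    (hy : ω ∈ Hit (G : Set (ℤ × ℤ)) (w t) (arcI w i₁ i₂))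
    (hK : ∀ f ∈ K, f ∉ Wx ω (G : Set (ℤ × ℤ)) (arcL w t i₂ m)) :
    ω ∈ Hit ((G : Set (ℤ × ℤ)) \ K) (w t) (arcI w i₁ i₂) := by
  by_contra hno
  have hc := par01 (w t)
  have h1 : setO (par (w t)) K ω ∉ Hit (G : Set (ℤ × ℤ)) (w t) (arcI w i₁ i₂) := by
    rintro ⟨v, hv, hcv⟩
    exact hno ⟨v, hv, (conn_setO hc rfl).1 hcv⟩
  obtain ⟨b, hb, b', hb', hcc⟩ := du h ht h12 h2 _ h1
  have h3 : Conn ω G b' b := by
    refine conn_induct (P := fun v => Conn ω G b' v) (conn_symm hcc) Relation.ReflTransGen.refl ?_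
    intro p q f _ hp hf hbd k1 k2
    have hW : f ∈ Wx ω (G : Set (ℤ × ℤ)) (arcL w t i₂ m) := ⟨hf, p, k1, b', hb', hp⟩
    exact hp.tail (bond_of_single hf (bond_single_congr hbd (setO_not fun hk => hK f hk hW)))
  exact nc h h2 ω hy hb hb' (conn_symm h3)

/-- In particular the connection takes place in the explored faces. -/
theorem w0' (h : Ctr (G : Set (ℤ × ℤ)) m w) (ht : t < i₁) (h12 : i₁ ≤ i₂) (h2 : i₂ ≤ m)
    (hy : ω ∈ Hit (G : Set (ℤ × ℤ)) (w t) (arcI w i₁ i₂)) :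
    ω ∈ Hit (Wx ω (G : Set (ℤ × ℤ)) (arcL w t i₂ m)) (w t) (arcI w i₁ i₂) := by
  obtain ⟨v, hv, hc⟩ := w0 (K := (G : Set (ℤ × ℤ)) \ Wx ω G (arcL w t i₂ m)) h ht h12 h2 hy
    fun f hf => hf.2
  refine ⟨v, hv, conn_mono ?_ hc⟩
  rintro f ⟨hf, hf2⟩
  by_contra hne
  exact hf2 ⟨hf, hne⟩

/-- (W1): a connection off the attached set `K` shows that `K` is not met by the exploration. -/
theorem w1c (h : Ctr (G : Set (ℤ × ℤ)) m w) (h2 : i₂ ≤ m) (hKG : K ⊆ G)
    (hA : Att (par (w t)) K (arcR w t i₁))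
    (hy : ω ∈ Hit ((G : Set (ℤ × ℤ)) \ K) (w t) (arcI w i₁ i₂)) :
    ∀ f ∈ K, f ∉ Wx ω (G : Set (ℤ × ℤ)) (arcL w t i₂ m) := by
  rintro f hf ⟨-, q, hq, b', hb', hc⟩
  have hcc := par01 (w t)
  have hpb : par b' ≠ par (w t) := by
    obtain ⟨_, _, _, _, h4⟩ := hb'
    exact h4
  have hKc : ∀ q b, Conn (parD (par (w t))) K q b → Conn (setO (par (w t)) K ω) G q b := by
    intro q b hqb
    refine conn_induct (P := fun v => Conn (setO (par (w t)) K ω) G q v) hqb
      Relation.ReflTransGen.refl ?_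
    intro p r g _ hp hg hbd k1 k2
    exact hp.tail (bond_of_single (hKG hg) (bond_single_congr hbd (setO_mem hg).symm))
  have key : Conn (setO (par (w t)) K ω) G b' q ∨
      ∃ b ∈ arcR w t i₁, Conn (setO (par (w t)) K ω) G b' b := by
    refine conn_induct (P := fun q => Conn (setO (par (w t)) K ω) G b' q ∨
      ∃ b ∈ arcR w t i₁, Conn (setO (par (w t)) K ω) G b' b) hc (Or.inl Relation.ReflTransGen.refl) ?_
    intro p r g hup hp hg hbd k1 k2
    rcases hp with hp | hp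
    · by_cases hgK : g ∈ K
      · obtain ⟨b, hb, hcb⟩ := hA g hgK p k1 (by rw [← hup.par_eq]; exact hpb)
        exact Or.inr ⟨b, hb, conn_trans hp (hKc _ _ hcb)⟩
      · exact Or.inl (hp.tail (bond_of_single hg (bond_single_congr hbd (setO_not hgK).symm)))
    · exact Or.inr hp
  have h3 : ∃ b ∈ arcR w t i₁, Conn (setO (par (w t)) K ω) G b' b := by
    rcases key with hk | hk
    · obtain ⟨b, hb, hcb⟩ := hA f hf q hq (by rw [← hc.par_eq]; exact hpb)
      exact ⟨b, hb, conn_trans hk (hKc _ _ hcb)⟩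
    · exact hk
  obtain ⟨b, hb, hcb⟩ := h3
  refine nc h h2 (setO (par (w t)) K ω) ?_ hb hb' (conn_symm hcb)
  obtain ⟨v, hv, hcv⟩ := hy
  exact ⟨v, hv, (conn_setO hcc rfl).2 hcv⟩

/-- (U): attached sets which can be avoided can be avoided together. -/
theorem hit_union {K' : Set (ℤ × ℤ)} (h : Ctr (G : Set (ℤ × ℤ)) m w) (ht : t < i₁) (h12 : i₁ ≤ i₂)
    (h2 : i₂ ≤ m) (hKG : K ⊆ G) (hKG' : K' ⊆ G) (hA : Att (par (w t)) K (arcR w t i₁))
    (hA' : Att (par (w t)) K' (arcR w t i₁))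
    (hy : ω ∈ Hit ((G : Set (ℤ × ℤ)) \ K) (w t) (arcI w i₁ i₂))
    (hy' : ω ∈ Hit ((G : Set (ℤ × ℤ)) \ K') (w t) (arcI w i₁ i₂)) :
    ω ∈ Hit ((G : Set (ℤ × ℤ)) \ (K ∪ K')) (w t) (arcI w i₁ i₂) := by
  have h0 : ω ∈ Hit (G : Set (ℤ × ℤ)) (w t) (arcI w i₁ i₂) := by
    obtain ⟨v, hv, hc⟩ := hy
    exact ⟨v, hv, conn_mono Set.sdiff_subset hc⟩
  refine w0 h ht h12 h2 h0 ?_
  rintro f (hf | hf)
  · exact w1c h h2 hKG hA hy f hf
  · exact w1c h h2 hKG' hA' hy' f hf

/-! ### The fresh path lemma -/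

/-- `x` is joined to `z` off `E`; if `E` carried only bonds of the colour of `x` then `z` would be joined to
the target: so every path of the other colour from the left to the right boundary uses a face of `E`. -/
theorem must_use {E : Set (ℤ × ℤ)} {z : ℤ × ℤ} (h : Ctr (G : Set (ℤ × ℤ)) m w) (h2 : i₂ ≤ m)
    (hxz : Conn ω G (w t) z)
    (hz : setE (par (w t)) E ω ∈ Hit (G : Set (ℤ × ℤ)) z (arcI w i₁ i₂)) {b b' : ℤ × ℤ}
    (hb : b ∈ arcR w t i₁) (hb' : b' ∈ arcL w t i₂ m) : ¬ Conn ω ((G : Set (ℤ × ℤ)) \ E) b b' := by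
  intro hc
  have hcc := par01 (w t)
  have hpb : par b ≠ par (w t) := by
    obtain ⟨_, _, _, _, h4⟩ := hb
    exact h4
  refine nc h h2 (setE (par (w t)) E ω) ?_ hb hb' ((conn_setE hcc hpb).2 hc)
  obtain ⟨v, hv, hcv⟩ := hz
  exact ⟨v, hv, conn_trans (conn_setE_mono hcc rfl hxz) hcv⟩

/-- The last part of a path after a set of faces. -/
theorem last_part {E : Set (ℤ × ℤ)} (hc : Conn ω F u v) (hno : ¬ Conn ω (F \ E) u v) :
    ∃ q, (∃ f ∈ E, IsCor f q) ∧ Conn ω (F \ E) q v ∧ Conn ω F u q := by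
  have key : ∀ v, Conn ω F u v → Conn ω (F \ E) u v ∨
      ∃ q, (∃ f ∈ E, IsCor f q) ∧ Conn ω (F \ E) q v ∧ Conn ω F u q := by
    intro v hv
    refine conn_induct (P := fun v => Conn ω (F \ E) u v ∨
      ∃ q, (∃ f ∈ E, IsCor f q) ∧ Conn ω (F \ E) q v ∧ Conn ω F u q) hv
      (Or.inl Relation.ReflTransGen.refl) ?_
    intro p r g hup hp hg hbd k1 k2
    by_cases hgE : g ∈ E
    · exact Or.inr ⟨r, ⟨g, hgE, k2⟩, Relation.ReflTransGen.refl, hup.tail (bond_of_single hg hbd)⟩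
    · have hb : Bond ω (F \ E) p r := bond_of_single ⟨hg, hgE⟩ hbd
      rcases hp with hp | ⟨q, h1, h2, h3⟩
      · exact Or.inl (hp.tail hb)
      · exact Or.inr ⟨q, h1, h2.tail hb, h3⟩
  rcases key v hc with h | h
  · exact absurd h hno
  · exact h

/-- FRESH PATH LEMMA. `x = w t` is joined to `z` off `E`, `z` would be joined to the target if `E` were open,
but `x` is not joined to the target. Let `R` be a set of faces disjoint from `E` and `B` a part of the left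
boundary. Then there is a path of the other colour from a corner of a face of `E` to the right boundary which
uses no face of `E` and no face of the exploration `Wx ω R B`. -/
theorem fresh_path {E R B : Set (ℤ × ℤ)} {z : ℤ × ℤ} (h : Ctr (G : Set (ℤ × ℤ)) m w) (ht : t < i₁)
    (h12 : i₁ ≤ i₂) (h2 : i₂ ≤ m) (hxz : Conn ω G (w t) z)
    (hz : setE (par (w t)) E ω ∈ Hit (G : Set (ℤ × ℤ)) z (arcI w i₁ i₂))
    (hno : ω ∉ Hit (G : Set (ℤ × ℤ)) (w t) (arcI w i₁ i₂)) (hRG : R ⊆ G) (hRE : Disjoint R E)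
    (hB : B ⊆ arcL w t i₂ m) :
    ∃ b ∈ arcR w t i₁, ∃ q, (∃ f ∈ E, IsCor f q) ∧
      Conn ω ((G : Set (ℤ × ℤ)) \ (E ∪ Wx ω R B)) q b ∧
      ∃ b' ∈ arcL w t i₂ m, Conn ω G b' q := by
  obtain ⟨b, hb, b', hb', hc⟩ := du h ht h12 h2 ω hno
  have hn := must_use (E := E) h h2 hxz hz hb hb'
  obtain ⟨q, hq, hqc, hbq⟩ := last_part (E := E) (conn_symm hc) (fun hh => hn (conn_symm hh))
  refine ⟨b, hb, q, hq, ?_, b', hb', hbq⟩
  -- no face of the exploration is used
  have key : ∀ v, Conn ω ((G : Set (ℤ × ℤ)) \ E) b v →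
      Conn ω ((G : Set (ℤ × ℤ)) \ (E ∪ Wx ω R B)) b v := by
    intro v hv
    refine conn_induct (P := fun v => Conn ω ((G : Set (ℤ × ℤ)) \ (E ∪ Wx ω R B)) b v) hv
      Relation.ReflTransGen.refl ?_
    intro p r g hup hp hg hbd k1 k2
    refine hp.tail (bond_of_single ⟨hg.1, ?_⟩ hbd)
    rintro (hgE | ⟨hgR, q', hq', d, hd, hdc⟩)
    · exact hg.2 hgE
    · -- the explored vertex `q'` is an end of the bond in `g`
      have hpar : par q' = par p := by
        have e1 : par d ≠ par (w t) := by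
          obtain ⟨_, _, _, _, h4⟩ := hB hd
          exact h4
        have e2 : par b ≠ par (w t) := by
          obtain ⟨_, _, _, _, h4⟩ := hb
          exact h4
        have e3 := hdc.par_eq
        have e4 := hup.par_eq
        have e5 := par_cases d
        have e6 := par_cases b
        have e7 := par_cases (w t)
        have e8 := par_cases q'
        have e9 := par_cases p
        omega
      have hqp : q' = p ∨ q' = r := by
        obtain ⟨x, y, hxy, hh⟩ := hbd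
        rw [Set.mem_singleton_iff] at hxy
        subst hxy
        obtain ⟨q1, q2⟩ := q'
        unfold IsCor at hq'
        unfold par at hpar
        simp only at hq' hpar
        rcases hh with ⟨-, (⟨rfl, rfl⟩ | ⟨rfl, rfl⟩)⟩ | ⟨-, (⟨rfl, rfl⟩ | ⟨rfl, rfl⟩)⟩ <;>
          simp only [Prod.mk.injEq] at hpar ⊢ <;> omega
      have hRGE : R ⊆ (G : Set (ℤ × ℤ)) \ E := fun f hf =>
        ⟨hRG hf, fun he => Set.disjoint_left.1 hRE hf he⟩
      have hdq : Conn ω ((G : Set (ℤ × ℤ)) \ E) d q' := conn_mono hRGE hdc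
      have hbq' : Conn ω ((G : Set (ℤ × ℤ)) \ E) b q' := by
        rcases hqp with rfl | rfl
        · exact hup
        · exact hup.tail (bond_of_single hg hbd)
      exact must_use (E := E) h h2 hxz hz hb (hB hd) (conn_trans hbq' (conn_symm hdq))
  exact conn_symm (key q (conn_symm hqc))

end

/-! ### Two crossing clusters from a pivotal set -/

/-- sup norm distance -/
def dsp (z v : ℤ × ℤ) : ℤ := max |v.1 - z.1| |v.2 - z.2|

theorem dsp_bond {z : ℤ × ℤ} (h : Bond ω F u v) : dsp z v ≤ dsp z u + 1 := by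
  obtain ⟨x, y, -, h⟩ := h
  obtain ⟨z1, z2⟩ := z
  unfold dsp
  have h1 : |x + 1 - z1| ≤ |x - z1| + 1 := by
    rw [abs_le]; constructor <;> rcases abs_cases (x - z1) with h | h <;> omega
  have h2 : |x - z1| ≤ |x + 1 - z1| + 1 := by
    rw [abs_le]; constructor <;> rcases abs_cases (x + 1 - z1) with h | h <;> omega
  have h3 : |y + 1 - z2| ≤ |y - z2| + 1 := by
    rw [abs_le]; constructor <;> rcases abs_cases (y - z2) with h | h <;> omega
  have h4 : |y - z2| ≤ |y + 1 - z2| + 1 := by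
    rw [abs_le]; constructor <;> rcases abs_cases (y + 1 - z2) with h | h <;> omega
  rcases h with ⟨-, (⟨rfl, rfl⟩ | ⟨rfl, rfl⟩)⟩ | ⟨-, (⟨rfl, rfl⟩ | ⟨rfl, rfl⟩)⟩ <;>
    simp only <;> omega

/-- The faces of `F` in the annulus `r ≤ dsp z ≤ R`. -/
def Ring (F : Set (ℤ × ℤ)) (z : ℤ × ℤ) (r R : ℤ) : Set (ℤ × ℤ) :=
  {f | f ∈ F ∧ ∀ q, IsCor f q → r ≤ dsp z q ∧ dsp z q ≤ R}

end Pool.Agent.SixB
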