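import Pool.Agent.Lib.MP_6bd702_z.Z032

/-!
# Step 8, unit 8B: moves of a walk which reads the faces in front of it

A face walk is a deterministic walk on a type `A` of positions. Every position `a` has a face `fc a`
in front of it; the next position depends on the configuration only through this face. The strands
are face walks. A move is the part of a walk until it leaves a set `G` of faces. Here:

* the part of the walk in `G`, the exit, the visited faces; they depend on the visited faces only;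
* `exit_avoid_iff`: the walk leaves `G` without visiting `K` iff the walk in `G \ K` does not leave
  this set through `K`;
* adapted processes (`Rev`): the faces read during the first `k` steps of a process are a stopping
  set, and the event that the process has a given record depends only on the faces outside any
  region which is never read under this record.
-/

set_option autoImplicit false

namespace Pool.Agent.SixB.Mv

open Pool.Agent.Perc Pool.Agent.PercT

/-! ### Face walks -/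

/-- A walk which reads the face in front of its position. -/
structure Walk (A : Type) where
  fc : A → ℤ × ℤ
  nx : Cfg → A → A
  loc : ∀ ω ω' a, ω (fc a) = ω' (fc a) → nx ω a = nx ω' a

variable {A : Type} (W : Walk A) {ω ω' : Cfg} {G G' K : Set (ℤ × ℤ)} {a : A} {s t : ℕ}

/-- The position after `t` steps. -/
def pt (ω : Cfg) (a : A) (t : ℕ) : A := (W.nx ω)^[t] a

@[simp] theorem pt_zero : pt W ω a 0 = a := rfl

theorem pt_succ : pt W ω a (t + 1) = W.nx ω (pt W ω a t) :=
  Function.iterate_succ_apply' _ _ _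

theorem pt_add : pt W ω a (s + t) = pt W ω (pt W ω a s) t := by
  unfold pt
  rw [Nat.add_comm, Function.iterate_add_apply]

/-- The first `t` faces of the walk are in `G`. -/
def Stay (ω : Cfg) (G : Set (ℤ × ℤ)) (a : A) (t : ℕ) : Prop :=
  ∀ s < t, W.fc (pt W ω a s) ∈ G

/-- The walk leaves `G` after `t` steps. -/
def Exit (ω : Cfg) (G : Set (ℤ × ℤ)) (a : A) (t : ℕ) : Prop :=
  Stay W ω G a t ∧ W.fc (pt W ω a t) ∉ G

/-- The faces visited before the walk leaves `G`. -/
def Vis (ω : Cfg) (G : Set (ℤ × ℤ)) (a : A) : Set (ℤ × ℤ) :=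
  {f | ∃ s, Stay W ω G a (s + 1) ∧ W.fc (pt W ω a s) = f}

theorem Stay.mono (h : Stay W ω G a t) (hs : s ≤ t) : Stay W ω G a s :=
  fun r hr => h r (lt_of_lt_of_le hr hs)

theorem Stay.set_mono (h : Stay W ω G a t) (hG : G ⊆ G') : Stay W ω G' a t :=
  fun r hr => hG (h r hr)

theorem stay_zero : Stay W ω G a 0 := fun _ h => absurd h (Nat.not_lt_zero _)

theorem stay_succ : Stay W ω G a (t + 1) ↔ Stay W ω G a t ∧ W.fc (pt W ω a t) ∈ G := by
  constructor
  · exact fun h => ⟨h.mono W (Nat.le_succ t), h t (Nat.lt_succ_self t)⟩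
  · rintro ⟨h1, h2⟩ s hs
    rcases Nat.lt_succ_iff_lt_or_eq.1 hs with h | h
    · exact h1 s h
    · rw [h]; exact h2

theorem Exit.unique (h : Exit W ω G a s) (h' : Exit W ω G a t) : s = t := by
  rcases lt_trichotomy s t with h1 | h1 | h1
  · exact absurd (h'.1 s h1) h.2
  · exact h1
  · exact absurd (h.1 t h1) h'.2

theorem Exit.le_of_stay (h : Exit W ω G a s) (h' : Stay W ω G a t) : t ≤ s := by
  by_contra hlt
  exact h.2 (h' s (not_le.1 hlt))

/-- Either the walk leaves `G` or it stays in `G` forever. -/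
theorem exit_or_stay (ω : Cfg) (G : Set (ℤ × ℤ)) (a : A) :
    (∃ t, Exit W ω G a t) ∨ ∀ t, Stay W ω G a t := by
  classical
  by_cases h : ∃ t, W.fc (pt W ω a t) ∉ G
  · left
    refine ⟨Nat.find h, fun s hs => ?_, Nat.find_spec h⟩
    by_contra hcon
    exact Nat.find_min h hs hcon
  · right
    push Not at h
    exact fun t s _ => h s

theorem vis_sub : Vis W ω G a ⊆ G := by
  rintro f ⟨s, h, rfl⟩
  exact h s (Nat.lt_succ_self s)

theorem mem_vis (h : Stay W ω G a t) (hs : s < t) : W.fc (pt W ω a s) ∈ Vis W ω G a :=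
  ⟨s, h.mono W hs, rfl⟩

theorem Exit.vis_eq (h : Exit W ω G a t) :
    Vis W ω G a = {f | ∃ s < t, W.fc (pt W ω a s) = f} := by
  ext f
  constructor
  · rintro ⟨s, h1, h2⟩
    exact ⟨s, h.le_of_stay W h1, h2⟩
  · rintro ⟨s, hs, rfl⟩
    exact mem_vis W h.1 hs

/-! ### Locality -/

theorem pt_congr_of (h : ∀ s < t, ω (W.fc (pt W ω a s)) = ω' (W.fc (pt W ω a s))) :
    pt W ω' a t = pt W ω a t := by
  induction t with
  | zero => rfl
  | succ t ih =>
    rw [pt_succ, pt_succ, ih fun s hs => h s (Nat.lt_succ_of_lt hs)]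
    exact (W.loc _ _ _ (h t (Nat.lt_succ_self t))).symm

theorem pt_congr (h : ∀ f ∈ Vis W ω G a, ω f = ω' f) (ht : Stay W ω G a t) :
    pt W ω' a t = pt W ω a t :=
  pt_congr_of W fun _ hs => h _ (mem_vis W ht hs)

theorem Stay.congr (h : ∀ f ∈ Vis W ω G a, ω f = ω' f) (ht : Stay W ω G a t) :
    Stay W ω' G a t := by
  intro s hs
  rw [pt_congr W h (ht.mono W hs.le)]
  exact ht s hs

theorem Exit.congr (h : ∀ f ∈ Vis W ω G a, ω f = ω' f) (ht : Exit W ω G a t) :
    Exit W ω' G a t := by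
  refine ⟨ht.1.congr W h, ?_⟩
  rw [pt_congr W h ht.1]
  exact ht.2

/-- The visited faces are a stopping set. -/
theorem vis_congr (h : ∀ f ∈ Vis W ω G a, ω f = ω' f) : Vis W ω' G a = Vis W ω G a := by
  have key : ∀ t, Stay W ω' G a t → Stay W ω G a t := by
    intro t
    induction t with
    | zero => exact fun _ => stay_zero W
    | succ t ih =>
      intro h'
      obtain ⟨h1, h2⟩ := (stay_succ W).1 h'
      have h3 := ih h1
      refine (stay_succ W).2 ⟨h3, ?_⟩
      rw [← pt_congr W h h3]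
      exact h2
  apply Set.Subset.antisymm
  · rintro f ⟨s, h1, rfl⟩
    have h2 := key _ h1
    exact ⟨s, h2, by rw [pt_congr W h (h2.mono W (Nat.le_succ s))]⟩
  · rintro f ⟨s, h1, rfl⟩
    exact ⟨s, h1.congr W h, by rw [pt_congr W h (h1.mono W (Nat.le_succ s))]⟩

theorem exit_congr (h : ∀ f ∈ Vis W ω G a, ω f = ω' f) :
    Exit W ω' G a t ↔ Exit W ω G a t := by
  refine ⟨fun h1 => ?_, Exit.congr W h⟩
  refine h1.congr W ?_
  rw [vis_congr W h]
  exact fun f hf => (h f hf).symm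

theorem exit_pt_congr (h : ∀ f ∈ Vis W ω G a, ω f = ω' f) (ht : Exit W ω G a t) :
    pt W ω' a t = pt W ω a t := pt_congr W h ht.1

/-! ### Avoiding a set -/

/-- The walk leaves `G` after `t` steps and does not visit `K` iff the walk in `G \ K` leaves this
set after `t` steps, not into `K`. -/
theorem exit_avoid_iff (hK : K ⊆ G) :
    (Exit W ω G a t ∧ ∀ s < t, W.fc (pt W ω a s) ∉ K) ↔
      Exit W ω (G \ K) a t ∧ W.fc (pt W ω a t) ∉ K := by
  constructor
  · rintro ⟨⟨h1, h2⟩, h3⟩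
    exact ⟨⟨fun s hs => ⟨h1 s hs, h3 s hs⟩, fun h => h2 h.1⟩, fun h => h2 (hK h)⟩
  · rintro ⟨⟨h1, h2⟩, h3⟩
    exact ⟨⟨fun s hs => (h1 s hs).1, fun h => h2 ⟨h, h3⟩⟩, fun s hs => (h1 s hs).2⟩

/-- The walk visits `K` before it leaves `G` iff the walk in `G \ K` leaves this set into `K`. -/
theorem vis_meets_iff (hK : K ⊆ G) :
    (Vis W ω G a ∩ K).Nonempty ↔ ∃ t, Exit W ω (G \ K) a t ∧ W.fc (pt W ω a t) ∈ K := by
  classical
  constructor
  · rintro ⟨f, ⟨s, h1, rfl⟩, h2⟩
    have hex : ∃ s, W.fc (pt W ω a s) ∈ K := ⟨s, h2⟩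
    have hle : Nat.find hex ≤ s := Nat.find_min' hex h2
    refine ⟨Nat.find hex, ⟨fun r hr => ⟨h1 r (by omega), Nat.find_min hex hr⟩, ?_⟩,
      Nat.find_spec hex⟩
    exact fun h => h.2 (Nat.find_spec hex)
  · rintro ⟨t, ⟨h1, _⟩, h2⟩
    refine ⟨_, ⟨t, ?_, rfl⟩, h2⟩
    refine (stay_succ W).2 ⟨h1.set_mono W Set.sdiff_subset, hK h2⟩

theorem vis_disjoint_iff (hK : K ⊆ G) :
    Disjoint (Vis W ω G a) K ↔ ∀ t, Exit W ω (G \ K) a t → W.fc (pt W ω a t) ∉ K := by
  rw [Set.disjoint_iff_inter_eq_empty, ← Set.not_nonempty_iff_eq_empty, vis_meets_iff W hK]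
  push Not
  rfl

/-- If `K` is not visited, the move in `G` is the move in `G \ K`. -/
theorem vis_sdiff (h : Disjoint (Vis W ω G a) K) :
    Vis W ω (G \ K) a = Vis W ω G a := by
  apply Set.Subset.antisymm
  · rintro f ⟨s, h1, rfl⟩
    exact ⟨s, h1.set_mono W Set.sdiff_subset, rfl⟩
  · rintro f ⟨s, h1, rfl⟩
    refine ⟨s, fun r hr => ⟨h1 r hr, fun hk => ?_⟩, rfl⟩
    exact Set.disjoint_left.1 h ⟨r, h1.mono W (by omega), rfl⟩ hk

/-! ### Events of one move -/

/-- The walk leaves `G` through one of the positions `E` and does not visit `K`. -/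
def exitEv (G K : Set (ℤ × ℤ)) (a : A) (E : Set A) : Set Cfg :=
  {ω | ∃ t, Exit W ω G a t ∧ (∀ s < t, W.fc (pt W ω a s) ∉ K) ∧ pt W ω a t ∈ E}

theorem exitEv_eq (hK : K ⊆ G) (E : Set A) :
    exitEv W G K a E =
      {ω | ∃ t, Exit W ω (G \ K) a t ∧ W.fc (pt W ω a t) ∉ K ∧ pt W ω a t ∈ E} := by
  ext ω
  constructor
  · rintro ⟨t, h1, h2, h3⟩
    have := (exit_avoid_iff W hK).1 ⟨h1, h2⟩
    exact ⟨t, this.1, this.2, h3⟩
  · rintro ⟨t, h1, h2, h3⟩
    have := (exit_avoid_iff W hK).2 ⟨h1, h2⟩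
    exact ⟨t, this.1, this.2, h3⟩

theorem depOn_exitEv (hK : K ⊆ G) (E : Set A) : DepOn (G \ K) (exitEv W G K a E) := by
  rw [exitEv_eq W hK]
  have key : ∀ ω ω' : Cfg, (∀ f ∈ G \ K, ω f = ω' f) →
      ω ∈ {ω | ∃ t, Exit W ω (G \ K) a t ∧ W.fc (pt W ω a t) ∉ K ∧ pt W ω a t ∈ E} →
      ω' ∈ {ω | ∃ t, Exit W ω (G \ K) a t ∧ W.fc (pt W ω a t) ∉ K ∧ pt W ω a t ∈ E} := by
    rintro ω ω' h ⟨t, h1, h2, h3⟩
    have h4 : ∀ f ∈ Vis W ω (G \ K) a, ω f = ω' f := fun f hf => h f (vis_sub W hf)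
    refine ⟨t, h1.congr W h4, ?_, ?_⟩
    · rw [exit_pt_congr W h4 h1]; exact h2
    · rw [exit_pt_congr W h4 h1]; exact h3
  exact fun ω ω' h => ⟨key ω ω' h, key ω' ω fun f hf => (h f hf).symm⟩

/-! ### Concatenation -/

theorem Stay.add (h : Stay W ω G a s) (h' : Stay W ω G (pt W ω a s) t) :
    Stay W ω G a (s + t) := by
  intro r hr
  rcases lt_or_ge r s with h1 | h1
  · exact h r h1
  · obtain ⟨k, rfl⟩ := Nat.exists_eq_add_of_le h1
    rw [pt_add]
    exact h' k (by omega)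

theorem Exit.add (h : Stay W ω G a s) (h' : Exit W ω G (pt W ω a s) t) :
    Exit W ω G a (s + t) := by
  refine ⟨Stay.add W h h'.1, ?_⟩
  rw [pt_add]
  exact h'.2

/-! ### The walk in a frozen configuration -/

/-- The walk which reads the configuration `ζ` outside `U`. -/
noncomputable def frz (U : Set (ℤ × ℤ)) (ζ : Cfg) : Walk A where
  fc := W.fc
  nx ω a := W.nx (mix U ω ζ) a
  loc ω ω' a h := by
    apply W.loc
    unfold mix
    by_cases hf : W.fc a ∈ U
    · rw [if_pos hf, if_pos hf, h]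
    · rw [if_neg hf, if_neg hf]

theorem frz_pt (U : Set (ℤ × ℤ)) (ζ : Cfg) :
    pt (frz W U ζ) ω a t = pt W (mix U ω ζ) a t := rfl

/-- The frozen walk reads only the faces of `U`. -/
theorem frz_vis_congr {U : Set (ℤ × ℤ)} {ζ : Cfg}
    (h : ∀ f ∈ Vis (frz W U ζ) ω G a ∩ U, ω f = ω' f) :
    Vis (frz W U ζ) ω' G a = Vis (frz W U ζ) ω G a := by
  have h1 : ∀ f ∈ Vis W (mix U ω ζ) G a, mix U ω ζ f = mix U ω' ζ f := by
    intro f hf
    unfold mix
    by_cases hU : f ∈ U
    · rw [if_pos hU, if_pos hU]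
      exact h f ⟨hf, hU⟩
    · rw [if_neg hU, if_neg hU]
  exact vis_congr W h1

theorem frz_exit_congr {U : Set (ℤ × ℤ)} {ζ : Cfg}
    (h : ∀ f ∈ Vis (frz W U ζ) ω G a ∩ U, ω f = ω' f) :
    Exit (frz W U ζ) ω' G a t ↔ Exit (frz W U ζ) ω G a t := by
  have h1 : ∀ f ∈ Vis W (mix U ω ζ) G a, mix U ω ζ f = mix U ω' ζ f := by
    intro f hf
    unfold mix
    by_cases hU : f ∈ U
    · rw [if_pos hU, if_pos hU]
      exact h f ⟨hf, hU⟩
    · rw [if_neg hU, if_neg hU]
  exact exit_congr W h1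

theorem frz_pt_congr {U : Set (ℤ × ℤ)} {ζ : Cfg}
    (h : ∀ f ∈ Vis (frz W U ζ) ω G a ∩ U, ω f = ω' f) (ht : Stay (frz W U ζ) ω G a t) :
    pt (frz W U ζ) ω' a t = pt (frz W U ζ) ω a t := by
  have h1 : ∀ f ∈ Vis W (mix U ω ζ) G a, mix U ω ζ f = mix U ω' ζ f := by
    intro f hf
    unfold mix
    by_cases hU : f ∈ U
    · rw [if_pos hU, if_pos hU]
      exact h f ⟨hf, hU⟩
    · rw [if_neg hU, if_neg hU]
  exact pt_congr W h1 ht

/-! ### The exit position -/

open Classical in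
/-- The position at which the walk leaves `G`, if it leaves `G`. -/
noncomputable def exo (ω : Cfg) (G : Set (ℤ × ℤ)) (a : A) : Option A :=
  if h : ∃ t, Exit W ω G a t then some (pt W ω a h.choose) else none

theorem exo_eq_some (h : Exit W ω G a t) : exo W ω G a = some (pt W ω a t) := by
  unfold exo
  rw [dif_pos ⟨t, h⟩]
  have h1 : Exit W ω G a (Exists.choose (⟨t, h⟩ : ∃ t, Exit W ω G a t)) :=
    Exists.choose_spec (⟨t, h⟩ : ∃ t, Exit W ω G a t)
  rw [h1.unique W h]

theorem exo_eq_some_iff {b : A} :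
    exo W ω G a = some b ↔ ∃ t, Exit W ω G a t ∧ pt W ω a t = b := by
  constructor
  · intro h
    by_cases h1 : ∃ t, Exit W ω G a t
    · obtain ⟨t, h2⟩ := h1
      rw [exo_eq_some W h2] at h
      exact ⟨t, h2, Option.some.inj h⟩
    · unfold exo at h
      rw [dif_neg h1] at h
      exact absurd h (by simp)
  · rintro ⟨t, h1, rfl⟩
    exact exo_eq_some W h1

theorem exo_eq_none_iff : exo W ω G a = none ↔ ∀ t, Stay W ω G a t := by
  constructor
  · intro h
    rcases exit_or_stay W ω G a with ⟨t, h1⟩ | h1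
    · rw [exo_eq_some W h1] at h
      exact absurd h (by simp)
    · exact h1
  · intro h
    unfold exo
    rw [dif_neg]
    rintro ⟨t, h1⟩
    exact h1.2 (h (t + 1) t (Nat.lt_succ_self t))

theorem exo_congr (h : ∀ f ∈ Vis W ω G a, ω f = ω' f) : exo W ω' G a = exo W ω G a := by
  rcases exit_or_stay W ω G a with ⟨t, h1⟩ | h1
  · rw [exo_eq_some W h1, exo_eq_some W (h1.congr W h), exit_pt_congr W h h1]
  · rw [(exo_eq_none_iff W).2 h1, exo_eq_none_iff]
    exact fun t => (h1 t).congr W h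

theorem frz_exo_congr {U : Set (ℤ × ℤ)} {ζ : Cfg}
    (h : ∀ f ∈ Vis (frz W U ζ) ω G a ∩ U, ω f = ω' f) :
    exo (frz W U ζ) ω' G a = exo (frz W U ζ) ω G a := by
  have h1 : ∀ f ∈ Vis W (mix U ω ζ) G a, mix U ω ζ f = mix U ω' ζ f := by
    intro f hf
    unfold mix
    by_cases hU : f ∈ U
    · rw [if_pos hU, if_pos hU]
      exact h f ⟨hf, hU⟩
    · rw [if_neg hU, if_neg hU]
  exact exo_congr W h1

/-! ### Adapted processes -/

/-- A process; the step from the state `s` reads the faces `rd ω s`. -/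
structure Rev (S : Type) where
  st : Cfg → S → S
  rd : Cfg → S → Set (ℤ × ℤ)
  loc : ∀ ω ω' s, (∀ f ∈ rd ω s, ω f = ω' f) → st ω' s = st ω s ∧ rd ω' s = rd ω s

namespace Rev

variable {S : Type} (P : Rev S) {s₀ : S} {k l : ℕ}

/-- The state after `k` steps. -/
def run (ω : Cfg) (s : S) (k : ℕ) : S := (P.st ω)^[k] s

/-- The faces which are read in the first `k` steps. -/
def read (ω : Cfg) (s : S) (k : ℕ) : Set (ℤ × ℤ) := {f | ∃ i < k, f ∈ P.rd ω (P.run ω s i)}

theorem run_zero : P.run ω s₀ 0 = s₀ := rfl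

theorem run_succ : P.run ω s₀ (k + 1) = P.st ω (P.run ω s₀ k) :=
  Function.iterate_succ_apply' _ _ _

theorem run_add : P.run ω s₀ (k + l) = P.run ω (P.run ω s₀ k) l := by
  unfold run
  rw [Nat.add_comm, Function.iterate_add_apply]

theorem read_mono (h : k ≤ l) : P.read ω s₀ k ⊆ P.read ω s₀ l :=
  fun _ ⟨i, hi, hf⟩ => ⟨i, lt_of_lt_of_le hi h, hf⟩

theorem read_succ : P.read ω s₀ (k + 1) = P.read ω s₀ k ∪ P.rd ω (P.run ω s₀ k) := by
  ext f
  constructor
  · rintro ⟨i, hi, hf⟩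
    rcases Nat.lt_succ_iff_lt_or_eq.1 hi with h | h
    · exact Or.inl ⟨i, h, hf⟩
    · right; rwa [← h]
  · rintro (⟨i, hi, hf⟩ | hf)
    · exact ⟨i, Nat.lt_succ_of_lt hi, hf⟩
    · exact ⟨k, Nat.lt_succ_self k, hf⟩

theorem run_congr (h : ∀ f ∈ P.read ω s₀ k, ω f = ω' f) : P.run ω' s₀ k = P.run ω s₀ k := by
  induction k with
  | zero => rfl
  | succ k ih =>
    rw [run_succ, run_succ, ih fun f hf => h f (P.read_mono (Nat.le_succ k) hf)]
    exact (P.loc ω ω' _ fun f hf => h f ⟨k, Nat.lt_succ_self k, hf⟩).1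

theorem read_congr (h : ∀ f ∈ P.read ω s₀ k, ω f = ω' f) :
    P.read ω' s₀ k = P.read ω s₀ k := by
  ext f
  have key : ∀ i < k, P.rd ω' (P.run ω' s₀ i) = P.rd ω (P.run ω s₀ i) := by
    intro i hi
    rw [P.run_congr fun f hf => h f (P.read_mono hi.le hf)]
    exact (P.loc ω ω' _ fun f hf => h f ⟨i, hi, hf⟩).2
  constructor
  · rintro ⟨i, hi, hf⟩
    exact ⟨i, hi, by rwa [key i hi] at hf⟩
  · rintro ⟨i, hi, hf⟩
    exact ⟨i, hi, by rwa [key i hi]⟩

/-- EXACT INDEPENDENCE. If no face of `X` is read when the state after `k` steps is in `B`, then this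
event depends only on the faces outside `X`. -/
theorem depOn_run {X : Set (ℤ × ℤ)} {B : Set S}
    (h : ∀ ω, P.run ω s₀ k ∈ B → Disjoint (P.read ω s₀ k) X) :
    DepOn Xᶜ {ω | P.run ω s₀ k ∈ B} := by
  have key : ∀ ω ω' : Cfg, (∀ f ∈ Xᶜ, ω f = ω' f) → P.run ω s₀ k ∈ B → P.run ω' s₀ k ∈ B := by
    intro ω ω' h1 h2
    rw [P.run_congr fun f hf => h1 f (Set.disjoint_left.1 (h ω h2) hf)]
    exact h2
  exact fun ω ω' h1 => ⟨key ω ω' h1, key ω' ω fun f hf => (h1 f hf).symm⟩

/-- The faces of a window which are read are a stopping set in the form of `sum_mix`. -/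
theorem stopping (V : Set (ℤ × ℤ)) (h : ∀ ω, P.read ω s₀ k ⊆ V) (ω ω' : Cfg)
    (h1 : ∀ f ∈ P.read ω s₀ k ∩ V, ω f = ω' f) :
    P.read ω' s₀ k = P.read ω s₀ k :=
  P.read_congr fun f hf => h1 f ⟨hf, h ω hf⟩

end Rev

/-! ### A process of moves -/

/-- The data of the move made in a state: the fresh faces, the frozen configuration, the set in which
the walk moves, its position, and the update from the visited faces, the new frozen configuration and
the exit. -/
structure Moves (A S : Type) where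
  fresh : S → Set (ℤ × ℤ)
  solid : S → Cfg
  reg : S → Set (ℤ × ℤ)
  pos : S → A
  up : S → Set (ℤ × ℤ) → Cfg → Option A → S

/-- The fresh faces visited in the move made in the state `s`. -/
noncomputable def Moves.new {S : Type} (M : Moves A S) (ω : Cfg) (s : S) : Set (ℤ × ℤ) :=
  Vis (frz W (M.fresh s) (M.solid s)) ω (M.reg s) (M.pos s) ∩ M.fresh s

theorem mix_congr' {V : Set (ℤ × ℤ)} {ζ : Cfg} (h : ∀ f ∈ V, ω f = ω' f) :
    mix V ω' ζ = mix V ω ζ := by
  funext f
  unfold mix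
  by_cases hf : f ∈ V
  · rw [if_pos hf, if_pos hf, h f hf]
  · rw [if_neg hf, if_neg hf]

/-- The process of moves. -/
noncomputable def Moves.toRev {S : Type} (M : Moves A S) : Rev S where
  st ω s := M.up s (Vis (frz W (M.fresh s) (M.solid s)) ω (M.reg s) (M.pos s))
    (mix (M.new W ω s) ω (M.solid s)) (exo (frz W (M.fresh s) (M.solid s)) ω (M.reg s) (M.pos s))
  rd ω s := M.new W ω s
  loc ω ω' s h := by
    have h1 := frz_vis_congr (W := W) (G := M.reg s) (a := M.pos s) (ζ := M.solid s) h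
    have h2 : M.new W ω' s = M.new W ω s := by
      unfold Moves.new
      rw [h1]
    refine ⟨?_, h2⟩
    rw [h1, h2, frz_exo_congr W h, mix_congr' h]

end Pool.Agent.SixB.Mv
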