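import Pool.Agent.Lib.SixB.S8Fresh

/-!
# Step 8: trials

A trial at a stopping set `T` is an event `A` decided by `T`; it fails on `F`, and given the stopped
configuration the failure has probability at most `θ`. For a family of trials the probability that
some trial takes place and fails is at most `θ` times the mean number of trials. Forms: finite
family, sequence with a tail, mean number, exponential moment, geometric tail; the same for failures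
which force that the resampled configuration has no blocking circuit in `n` annuli around a centre
(`pr_noBlk_stop`), or a fresh arm (`pr_fArm_stop`).
-/

set_option autoImplicit false

namespace Pool.Agent.SixB

open Finset Pool.Agent.Perc Pool.Agent.PercT

/-- `T` is a stopping set: it is determined by the configuration on itself. -/
def StopS (T : Cfg → Set (ℤ × ℤ)) : Prop :=
  ∀ ω ω' : Cfg, (∀ f ∈ T ω, ω f = ω' f) → T ω' = T ω

/-- The event `A` is decided by the stopping set `T`. -/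
def DetS (T : Cfg → Set (ℤ × ℤ)) (A : Set Cfg) : Prop :=
  ∀ ω ∈ A, ∀ ω' : Cfg, (∀ f ∈ T ω, ω f = ω' f) → ω' ∈ A

theorem DetS.inter {T : Cfg → Set (ℤ × ℤ)} {A B : Set Cfg} (hA : DetS T A) (hB : DetS T B) :
    DetS T (A ∩ B) :=
  fun ω hω ω' h => ⟨hA ω hω.1 ω' h, hB ω hω.2 ω' h⟩

theorem DetS.union {T : Cfg → Set (ℤ × ℤ)} {A B : Set Cfg} (hA : DetS T A) (hB : DetS T B) :
    DetS T (A ∪ B) := by
  rintro ω (hω | hω) ω' h
  · exact Or.inl (hA ω hω ω' h)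
  · exact Or.inr (hB ω hω ω' h)

theorem DetS.compl {T : Cfg → Set (ℤ × ℤ)} {A : Set Cfg} (hT : StopS T) (hA : DetS T A) :
    DetS T Aᶜ := by
  intro ω hω ω' h hω'
  refine hω (hA ω' hω' ω fun f hf => (h f ?_).symm)
  rwa [hT ω ω' h] at hf

/-- A larger stopping set decides more. -/
theorem DetS.mono {T T' : Cfg → Set (ℤ × ℤ)} {A : Set Cfg} (h : ∀ ω, T ω ⊆ T' ω) (hA : DetS T A) :
    DetS T' A :=
  fun ω hω ω' h1 => hA ω hω ω' fun f hf => h1 f (h ω hf)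

/-- The union of two stopping sets. -/
theorem StopS.union {T T' : Cfg → Set (ℤ × ℤ)} (h : StopS T) (h' : StopS T') :
    StopS fun ω => T ω ∪ T' ω := by
  intro ω ω' h1
  show T ω' ∪ T' ω' = T ω ∪ T' ω
  rw [h ω ω' fun f hf => h1 f (Or.inl hf), h' ω ω' fun f hf => h1 f (Or.inr hf)]

/-- Stop at `T'` on an event decided by `T`, else at `T`. -/
theorem StopS.ite {T T' : Cfg → Set (ℤ × ℤ)} {A : Set Cfg} (h : StopS T) (h' : StopS T')
    (hs : ∀ ω, T ω ⊆ T' ω) (hA : DetS T A) [DecidablePred (· ∈ A)] :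
    StopS fun ω => if ω ∈ A then T' ω else T ω := by
  intro ω ω' h1
  by_cases hω : ω ∈ A
  · simp only [if_pos hω] at h1 ⊢
    have h2 : ω' ∈ A := hA ω hω ω' fun f hf => h1 f (hs ω hf)
    rw [if_pos h2]
    exact h' ω ω' h1
  · simp only [if_neg hω] at h1 ⊢
    have h2 : ω' ∉ A := (hA.compl h) ω hω ω' h1
    rw [if_neg h2]
    exact h ω ω' h1

/-- A trial: `A` takes place at the stopping set `T`, and given the stopped configuration `F` has
probability at most `θ` (in the form used by resampling). -/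
structure Trial (W : Finset (ℤ × ℤ)) (T : Cfg → Set (ℤ × ℤ)) (A F : Set Cfg) (θ : ℝ) : Prop where
  stop : StopS T
  det : DetS T A
  fail : ∃ B : Cfg → Set Cfg, (∀ ω ∈ A, pr W (B ω) ≤ θ) ∧
    ∀ ω ∈ A, ∀ ξ : Cfg, mix (T ω) ω ξ ∈ F → ξ ∈ B ω

theorem Trial.le {W : Finset (ℤ × ℤ)} {T : Cfg → Set (ℤ × ℤ)} {A F : Set Cfg} {θ : ℝ}
    (h : Trial W T A F θ) : pr W (A ∩ F) ≤ θ * pr W A := by
  obtain ⟨B, hB, hF⟩ := h.fail
  exact pr_mix_le h.stop h.det B F hB hF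

/-! ### Union bounds -/

theorem pr_empty_eq (W : Finset (ℤ × ℤ)) : pr W (∅ : Set Cfg) = 0 := by
  classical
  rw [ProbA.pr_eq_sum]
  simp

theorem pr_exists_le {ι : Type*} [DecidableEq ι] (W : Finset (ℤ × ℤ)) (s : Finset ι)
    (A : ι → Set Cfg) : pr W {ω | ∃ i ∈ s, ω ∈ A i} ≤ ∑ i ∈ s, pr W (A i) := by
  induction s using Finset.induction_on with
  | empty =>
    have h0 : {ω : Cfg | ∃ i ∈ (∅ : Finset ι), ω ∈ A i} = ∅ := by
      ext ω
      simp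
    rw [h0, pr_empty_eq, sum_empty]
  | insert a s ha ih =>
    have h1 : ∀ ω ∈ {ω : Cfg | ∃ i ∈ insert a s, ω ∈ A i}, ω ∈ A a ∪ {ω | ∃ i ∈ s, ω ∈ A i} := by
      rintro ω ⟨i, hi, hω⟩
      rcases Finset.mem_insert.1 hi with rfl | hi
      · exact Or.inl hω
      · exact Or.inr ⟨i, hi, hω⟩
    rw [sum_insert ha]
    exact ((pr_mono W h1).trans (pr_union_le W _ _)).trans (by linarith)

/-- Some trial takes place and fails: at most `θ` times the sum of the probabilities of the trials. -/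
theorem trials_sum {ι : Type*} [DecidableEq ι] {W : Finset (ℤ × ℤ)} {s : Finset ι}
    {A F : ι → Set Cfg} {θ : ℝ} (h : ∀ i ∈ s, pr W (A i ∩ F i) ≤ θ * pr W (A i)) :
    pr W {ω | ∃ i ∈ s, ω ∈ A i ∧ ω ∈ F i} ≤ θ * ∑ i ∈ s, pr W (A i) := by
  rw [mul_sum]
  exact (pr_exists_le W s fun i => A i ∩ F i).trans (sum_le_sum h)

/-- At most `K` trials. -/
theorem trials_card {ι : Type*} [DecidableEq ι] {W : Finset (ℤ × ℤ)} {s : Finset ι}
    {A F : ι → Set Cfg} {θ : ℝ} (hθ : 0 ≤ θ)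
    (h : ∀ i ∈ s, pr W (A i ∩ F i) ≤ θ * pr W (A i)) :
    pr W {ω | ∃ i ∈ s, ω ∈ A i ∧ ω ∈ F i} ≤ s.card * θ := by
  refine (trials_sum h).trans ?_
  have h1 : ∑ i ∈ s, pr W (A i) ≤ ∑ _i ∈ s, (1 : ℝ) := sum_le_sum fun i _ => pr_le_one W _
  rw [sum_const, nsmul_eq_mul, mul_one] at h1
  calc θ * ∑ i ∈ s, pr W (A i) ≤ θ * s.card := mul_le_mul_of_nonneg_left h1 hθ
    _ = s.card * θ := mul_comm _ _

/-- A sequence of trials: `K θ` plus the probability that there are more than `K` trials. -/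
theorem trials_tail {W : Finset (ℤ × ℤ)} {A F : ℕ → Set Cfg} {θ : ℝ} (hθ : 0 ≤ θ) {K : ℕ}
    {M : Set Cfg} (h : ∀ k < K, pr W (A k ∩ F k) ≤ θ * pr W (A k))
    (hM : ∀ k, K ≤ k → A k ⊆ M) :
    pr W {ω | ∃ k, ω ∈ A k ∧ ω ∈ F k} ≤ K * θ + pr W M := by
  have h1 : ∀ ω ∈ {ω : Cfg | ∃ k, ω ∈ A k ∧ ω ∈ F k},
      ω ∈ {ω | ∃ k ∈ range K, ω ∈ A k ∧ ω ∈ F k} ∪ M := by
    rintro ω ⟨k, hA, hF⟩
    by_cases hk : k < K
    · exact Or.inl ⟨k, mem_range.2 hk, hA, hF⟩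
    · exact Or.inr (hM k (not_lt.1 hk) hA)
  have h2 := trials_card (s := range K) hθ (fun k hk => h k (mem_range.1 hk))
  rw [card_range] at h2
  exact ((pr_mono W h1).trans (pr_union_le W _ _)).trans (by linarith)

/-- The same for a decreasing sequence of trials (`A k`: there are at least `k + 1` trials). -/
theorem trials_antitone {W : Finset (ℤ × ℤ)} {A F : ℕ → Set Cfg} {θ : ℝ} (hθ : 0 ≤ θ) (K : ℕ)
    (h : ∀ k < K, pr W (A k ∩ F k) ≤ θ * pr W (A k)) (hA : ∀ k, A (k + 1) ⊆ A k) :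
    pr W {ω | ∃ k, ω ∈ A k ∧ ω ∈ F k} ≤ K * θ + pr W (A K) := by
  refine trials_tail hθ h fun k hk => ?_
  induction k, hk using Nat.le_induction with
  | base => exact Set.Subset.refl _
  | succ k _ ih => exact (hA k).trans ih

/-- Geometric tail of the number of trials. -/
theorem trials_geom {W : Finset (ℤ × ℤ)} {A F : ℕ → Set Cfg} {θ C q : ℝ} (hθ : 0 ≤ θ) (hC : 0 ≤ C)
    (hq0 : 0 ≤ q) (hq1 : q < 1) (h : ∀ k, pr W (A k ∩ F k) ≤ θ * pr W (A k))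
    (hq : ∀ k, pr W (A k) ≤ C * q ^ k) (N : ℕ) :
    pr W {ω | ∃ k ∈ range N, ω ∈ A k ∧ ω ∈ F k} ≤ θ * (C / (1 - q)) := by
  refine (trials_sum fun k _ => h k).trans (mul_le_mul_of_nonneg_left ?_ hθ)
  calc ∑ k ∈ range N, pr W (A k) ≤ ∑ k ∈ range N, C * q ^ k := sum_le_sum fun k _ => hq k
    _ = C * ∑ k ∈ range N, q ^ k := by rw [mul_sum]
    _ ≤ C * (1 - q)⁻¹ := by
        refine mul_le_mul_of_nonneg_left ?_ hC
        have h1 := (summable_geometric_of_lt_one hq0 hq1).sum_le_tsum (range N)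
          (fun i _ => pow_nonneg hq0 i)
        rwa [tsum_geometric_of_lt_one hq0 hq1] at h1
    _ = C / (1 - q) := by rw [div_eq_mul_inv]

/-! ### Mean number of trials -/

open Classical in
/-- The sum of the probabilities is at most the mean of a bound of the number of the events. -/
theorem sum_pr_le_mean {ι : Type*} {W : Finset (ℤ × ℤ)} {s : Finset ι} {A : ι → Set Cfg}
    {N : Cfg → ℝ} (h : ∀ T ⊆ W, ((s.filter fun i => cfg T ∈ A i).card : ℝ) ≤ N (cfg T)) :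
    ∑ i ∈ s, pr W (A i) ≤ (∑ T ∈ W.powerset, N (cfg T)) / 2 ^ W.card := by
  have h1 : ∀ i, pr W (A i) = (∑ T ∈ W.powerset, if cfg T ∈ A i then (1 : ℝ) else 0) / 2 ^ W.card :=
    fun i => by rw [ProbA.pr_eq_sum]
  simp only [h1]
  rw [← sum_div, sum_comm]
  refine div_le_div_of_nonneg_right (sum_le_sum fun T hT => ?_) (by positivity)
  refine le_trans (le_of_eq ?_) (h T (mem_powerset.1 hT))
  rw [card_filter]
  push_cast
  rfl

open Classical in
/-- Trials with a bounded mean number. -/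
theorem trials_mean {ι : Type*} {W : Finset (ℤ × ℤ)} {s : Finset ι} {A F : ι → Set Cfg} {θ C : ℝ}
    (hθ : 0 ≤ θ) (h : ∀ i ∈ s, pr W (A i ∩ F i) ≤ θ * pr W (A i)) {N : Cfg → ℝ}
    (hN : ∀ T ⊆ W, ((s.filter fun i => cfg T ∈ A i).card : ℝ) ≤ N (cfg T))
    (hC : (∑ T ∈ W.powerset, N (cfg T)) / 2 ^ W.card ≤ C) :
    pr W {ω | ∃ i ∈ s, ω ∈ A i ∧ ω ∈ F i} ≤ θ * C :=
  (trials_sum h).trans (mul_le_mul_of_nonneg_left ((sum_pr_le_mean hN).trans hC) hθ)

open Classical in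
/-- Trials whose number has a bounded exponential moment with base 2. -/
theorem trials_exp {ι : Type*} {W : Finset (ℤ × ℤ)} {s : Finset ι} {A F : ι → Set Cfg} {θ C : ℝ}
    (hθ : 0 ≤ θ) (h : ∀ i ∈ s, pr W (A i ∩ F i) ≤ θ * pr W (A i)) {N : Cfg → ℕ}
    (hN : ∀ T ⊆ W, (s.filter fun i => cfg T ∈ A i).card ≤ N (cfg T))
    (hC : (∑ T ∈ W.powerset, (2 : ℝ) ^ N (cfg T)) / 2 ^ W.card ≤ C) :
    pr W {ω | ∃ i ∈ s, ω ∈ A i ∧ ω ∈ F i} ≤ θ * C := by
  refine trials_mean hθ h (N := fun ω => (2 : ℝ) ^ N ω) (fun T hT => ?_) hC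
  have h1 : ((s.filter fun i => cfg T ∈ A i).card : ℝ) ≤ (N (cfg T) : ℝ) := by
    exact_mod_cast hN T hT
  have h2 : (N (cfg T) : ℝ) ≤ (2 : ℝ) ^ N (cfg T) := by
    exact_mod_cast (Nat.lt_two_pow_self (n := N (cfg T))).le
  exact h1.trans h2

/-! ### Failures without blocking circuits or with fresh arms -/

/-- The hypotheses of `pr_noBlk_stop` for a trial. -/
structure BlkTrial (W : Finset (ℤ × ℤ)) (T : Cfg → Set (ℤ × ℤ)) (A F : Set Cfg) (n : ℕ) : Prop where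
  stop : StopS T
  det : DetS T A
  fail : ∃ (col r : Cfg → ℤ) (z : Cfg → ℤ × ℤ), (∀ ω ∈ A, 0 < r ω) ∧
    (∀ ω ∈ A, RFb (z ω) (4 ^ n * r ω) ⊆ W) ∧
    ∀ ω ∈ A, ∀ ξ : Cfg, mix (T ω) ω ξ ∈ F → ξ ∈ NoBlk (col ω) (z ω) (r ω) n

/-- **Trials decided by blocking circuits.** -/
theorem exists_blkTrials : ∃ θ : ℝ, 0 < θ ∧ θ < 1 ∧
    (∀ (W : Finset (ℤ × ℤ)) (T : Cfg → Set (ℤ × ℤ)) (A F : Set Cfg) (n : ℕ),
      BlkTrial W T A F n → pr W (A ∩ F) ≤ θ ^ n * pr W A) ∧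
    (∀ (W : Finset (ℤ × ℤ)) (T : ℕ → Cfg → Set (ℤ × ℤ)) (A F : ℕ → Set Cfg) (n K : ℕ) (M : Set Cfg),
      (∀ k < K, BlkTrial W (T k) (A k) (F k) n) → (∀ k, K ≤ k → A k ⊆ M) →
      pr W {ω | ∃ k, ω ∈ A k ∧ ω ∈ F k} ≤ K * θ ^ n + pr W M) := by
  obtain ⟨θ, h0, h1, h⟩ := pr_noBlk_stop
  have key : ∀ (W : Finset (ℤ × ℤ)) (T : Cfg → Set (ℤ × ℤ)) (A F : Set Cfg) (n : ℕ),
      BlkTrial W T A F n → pr W (A ∩ F) ≤ θ ^ n * pr W A := by
    rintro W T A F n ⟨hT, hA, col, r, z, hr, hW, hF⟩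
    exact h W T hT A hA col r z n F hr hW hF
  refine ⟨θ, h0, h1, key, fun W T A F n K M hk hM => ?_⟩
  exact trials_tail (by positivity) (fun k hkK => key W _ _ _ _ (hk k hkK)) hM

/-- The failure of an arm trial: a path of colour `col` by faces of the window outside of the stopping
set, from the box of radius `r` around `z` to distance `4 ^ n r`. -/
def FreshArm (W : Finset (ℤ × ℤ)) (T : Cfg → Set (ℤ × ℤ)) (col r : Cfg → ℤ) (z : Cfg → ℤ × ℤ)
    (n : ℕ) : Set Cfg :=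
  {ω | ω ∈ FArm (col ω) ((W : Set (ℤ × ℤ)) \ T ω) (z ω) (r ω) (4 ^ n * r ω)}

/-- Hypotheses of `pr_fArm_stop`: centre, radius and colour are decided by the stopping set. -/
structure ArmTrial (T : Cfg → Set (ℤ × ℤ)) (A : Set Cfg) (col r : Cfg → ℤ) (z : Cfg → ℤ × ℤ) :
    Prop where
  stop : StopS T
  det : DetS T A
  pos : ∀ ω ∈ A, 0 < r ω
  data : ∀ ω ∈ A, ∀ ω' : Cfg, (∀ f ∈ T ω, ω f = ω' f) → col ω' = col ω ∧ r ω' = r ω ∧ z ω' = z ω

open Classical in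
/-- **Trials decided by fresh arms** (any window): one trial; a finite family of trials with a bound
of the number of trials in the mean or by an exponential moment; a sequence with a tail. -/
theorem exists_armTrials : ∃ θ : ℝ, 0 < θ ∧ θ < 1 ∧
    (∀ (W : Finset (ℤ × ℤ)) (T : Cfg → Set (ℤ × ℤ)) (A : Set Cfg) (col r : Cfg → ℤ)
      (z : Cfg → ℤ × ℤ) (n : ℕ), ArmTrial T A col r z →
      pr W (A ∩ FreshArm W T col r z n) ≤ θ ^ n * pr W A) ∧
    (∀ (ι : Type) (W : Finset (ℤ × ℤ)) (s : Finset ι) (T : ι → Cfg → Set (ℤ × ℤ))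
      (A : ι → Set Cfg) (col r : ι → Cfg → ℤ) (z : ι → Cfg → ℤ × ℤ) (n : ℕ) (N : Cfg → ℕ) (C : ℝ),
      (∀ i ∈ s, ArmTrial (T i) (A i) (col i) (r i) (z i)) →
      (∀ U ⊆ W, (s.filter fun i => cfg U ∈ A i).card ≤ N (cfg U)) →
      (∑ U ∈ W.powerset, (2 : ℝ) ^ N (cfg U)) / 2 ^ W.card ≤ C →
      pr W {ω | ∃ i ∈ s, ω ∈ A i ∧ ω ∈ FreshArm W (T i) (col i) (r i) (z i) n} ≤ θ ^ n * C) ∧
    (∀ (W : Finset (ℤ × ℤ)) (T : ℕ → Cfg → Set (ℤ × ℤ)) (A : ℕ → Set Cfg) (col r : ℕ → Cfg → ℤ)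
      (z : ℕ → Cfg → ℤ × ℤ) (n K : ℕ) (M : Set Cfg),
      (∀ k < K, ArmTrial (T k) (A k) (col k) (r k) (z k)) → (∀ k, K ≤ k → A k ⊆ M) →
      pr W {ω | ∃ k, ω ∈ A k ∧ ω ∈ FreshArm W (T k) (col k) (r k) (z k) n} ≤
        K * θ ^ n + pr W M) := by
  obtain ⟨θ, h0, h1, h⟩ := pr_fArm_stop
  have key : ∀ (W : Finset (ℤ × ℤ)) (T : Cfg → Set (ℤ × ℤ)) (A : Set Cfg) (col r : Cfg → ℤ)
      (z : Cfg → ℤ × ℤ) (n : ℕ), ArmTrial T A col r z →
      pr W (A ∩ FreshArm W T col r z n) ≤ θ ^ n * pr W A := by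
    rintro W T A col r z n ⟨hT, hA, hr, hd⟩
    exact h W T hT A hA col r z n hr hd
  refine ⟨θ, h0, h1, key, fun ι W s T A col r z n N C hs hN hC => ?_,
    fun W T A col r z n K M hk hM => ?_⟩
  · exact trials_exp (by positivity) (fun i hi => key W _ _ _ _ _ n (hs i hi)) hN hC
  · exact trials_tail (by positivity) (fun k hkK => key W _ _ _ _ _ n (hk k hkK)) hM

end Pool.Agent.SixB
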