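import Pool.Agent.Lib.SixB.S8NearOne
import Pool.Agent.Lib.SixB.S8Clu
import Pool.Agent.Lib.SixB.S8Trials
import Pool.Agent.Lib.SixB.S8Move

/-!
# Step 8: the strand as a path with a time

A unit edge has a canonical direction: crossing it from the face `fb a` to the face `fa a` the odd end
`en 1 a` is on the left and the even end `en 0 a` on the right. In a configuration of the plane the
strand through a unit edge is the orbit of the permutation `nx ω`.

* `mt_iff`: the matching of the sides of a face is `nx`, `pv`.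
* `pth ω e t`: the unit edge at time `t`; `vs ω e s t`: the faces crossed between the times `s`, `t`.
* `pth_congr`: the path up to time `t` depends on the crossed faces only.
* `conn_pth`: the ends of colour `c` at the times `s`, `t` are joined in `D` if every crossed face which
  is not in `D` has the diagonal of the other colour.
* `mem_MM_iff`: the component of `e` by faces of `F` in terms of the path; `exit_or_period`: exit or period.
* `stop_new`: composition of explorations: stopping sets. `hit`: first times.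
-/

set_option autoImplicit false

namespace Pool.Agent.SixB

open Finset Pool.Agent.Perc Pool.Agent.PercT

/-! ### One step -/

/-- The face in front of the unit edge `a`. -/
def fa (a : UE) : ℤ × ℤ :=
  if a.2.2 then (if par (ua a) = 0 then (a.1, a.2.1) else (a.1 - 1, a.2.1))
  else (if par (ua a) = 1 then (a.1, a.2.1) else (a.1, a.2.1 - 1))

/-- The face behind the unit edge `a`. -/
def fb (a : UE) : ℤ × ℤ :=
  if a.2.2 then (if par (ua a) = 0 then (a.1 - 1, a.2.1) else (a.1, a.2.1))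
  else (if par (ua a) = 1 then (a.1, a.2.1 - 1) else (a.1, a.2.1))

/-- The partner of the side `a` of the face `f`. -/
def pn (ω : Cfg) (f : ℤ × ℤ) (a : UE) : UE :=
  if ω f then
    (if a = bo f then ri f else if a = ri f then bo f else if a = le' f then to' f else le' f)
  else (if a = bo f then le' f else if a = le' f then bo f else if a = to' f then ri f else to' f)

/-- The next unit edge. -/
def nx (ω : Cfg) (a : UE) : UE := pn ω (fa a) a

/-- The previous unit edge. -/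
def pv (ω : Cfg) (a : UE) : UE := pn ω (fb a) a

section Step

variable {ω ω' : Cfg} {f : ℤ × ℤ} {a b : UE}

theorem isSide_iff : IsSide f a ↔ f = fa a ∨ f = fb a := by
  obtain ⟨x, y, d⟩ := a
  cases d with
  | true =>
    rw [two_faces']
    rcases par_cases (x, y) with h | h <;> simp [fa, fb, ua_mk, h]
    tauto
  | false =>
    rw [two_faces]
    rcases par_cases (x, y) with h | h <;> simp [fa, fb, ua_mk, h]
    tauto

theorem isSide_fa (a : UE) : IsSide (fa a) a := isSide_iff.2 (Or.inl rfl)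
theorem isSide_fb (a : UE) : IsSide (fb a) a := isSide_iff.2 (Or.inr rfl)

theorem fa_ne_fb (a : UE) : fa a ≠ fb a := by
  obtain ⟨x, y, d⟩ := a
  cases d <;> rcases par_cases (x, y) with h | h <;> simp [fa, fb, ua_mk, h] <;> omega

theorem bo_ne_ri : bo f ≠ ri f := by simp [bo, ri]
theorem bo_ne_le : bo f ≠ le' f := by simp [bo, le']
theorem bo_ne_to : bo f ≠ to' f := by simp [bo, to']
theorem le_ne_ri : le' f ≠ ri f := by simp [le', ri]
theorem to_ne_ri : to' f ≠ ri f := by simp [to', ri]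
theorem le_ne_to : le' f ≠ to' f := by simp [le', to']

theorem mt_pn (h : IsSide f a) : Mt ω f a (pn ω f a) := by
  unfold Mt pn
  rcases h with rfl | rfl | rfl | rfl <;> cases hw : ω f <;>
    simp [bo, ri, le', to']

theorem pn_of_mt (h : Mt ω f a b) : b = pn ω f a := by
  unfold Mt at h
  unfold pn
  rcases h with ⟨hw, (⟨rfl, rfl⟩ | ⟨rfl, rfl⟩ | ⟨rfl, rfl⟩ | ⟨rfl, rfl⟩)⟩ |
    ⟨hw, (⟨rfl, rfl⟩ | ⟨rfl, rfl⟩ | ⟨rfl, rfl⟩ | ⟨rfl, rfl⟩)⟩ <;> simp [hw, bo, ri, le', to']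

/-- In a face the incoming sides are matched with the outgoing sides. -/
theorem fa_of_mt (h : Mt ω f a b) : (f = fa a ∧ f = fb b) ∨ (f = fb a ∧ f = fa b) := by
  obtain ⟨x, y⟩ := f
  have hx : ((x, y + 1) : ℤ × ℤ) = (x, y + 1) := rfl
  have h1 : par (x, y + 1) = 1 - par (x, y) := by unfold par; simp only; omega
  have h2 : par (x + 1, y) = 1 - par (x, y) := by unfold par; simp only; omega
  unfold Mt at h
  rcases h with ⟨-, (⟨rfl, rfl⟩ | ⟨rfl, rfl⟩ | ⟨rfl, rfl⟩ | ⟨rfl, rfl⟩)⟩ |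
    ⟨-, (⟨rfl, rfl⟩ | ⟨rfl, rfl⟩ | ⟨rfl, rfl⟩ | ⟨rfl, rfl⟩)⟩ <;>
    rcases par_cases (x, y) with hp | hp <;>
    simp [fa, fb, ua_mk, bo, ri, le', to', h1, h2, hp]

theorem mt_iff : Mt ω f a b ↔ (f = fa a ∧ b = nx ω a) ∨ (f = fb a ∧ b = pv ω a) := by
  constructor
  · intro h
    rcases fa_of_mt h with ⟨h1, -⟩ | ⟨h1, -⟩
    · exact Or.inl ⟨h1, by rw [pn_of_mt h, h1]; rfl⟩
    · exact Or.inr ⟨h1, by rw [pn_of_mt h, h1]; rfl⟩
  · rintro (⟨rfl, rfl⟩ | ⟨rfl, rfl⟩)
    · exact mt_pn (isSide_fa a)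
    · exact mt_pn (isSide_fb a)

theorem mt_nx (ω : Cfg) (a : UE) : Mt ω (fa a) a (nx ω a) := mt_iff.2 (Or.inl ⟨rfl, rfl⟩)
theorem mt_pv (ω : Cfg) (a : UE) : Mt ω (fb a) a (pv ω a) := mt_iff.2 (Or.inr ⟨rfl, rfl⟩)

theorem fb_nx (ω : Cfg) (a : UE) : fb (nx ω a) = fa a := by
  rcases fa_of_mt (mt_nx ω a) with ⟨-, h⟩ | ⟨h, -⟩
  · exact h.symm
  · exact absurd h (fa_ne_fb a)

theorem fa_pv (ω : Cfg) (a : UE) : fa (pv ω a) = fb a := by
  rcases fa_of_mt (mt_pv ω a) with ⟨h, -⟩ | ⟨-, h⟩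
  · exact absurd h.symm (fa_ne_fb a)
  · exact h.symm

theorem pv_nx (ω : Cfg) (a : UE) : pv ω (nx ω a) = a := by
  have h := (mt_nx ω a).symm
  rcases mt_iff.1 h with ⟨h1, -⟩ | ⟨-, h1⟩
  · rw [← fb_nx ω a] at h1
    exact absurd h1.symm (fa_ne_fb _)
  · exact h1.symm

theorem nx_pv (ω : Cfg) (a : UE) : nx ω (pv ω a) = a := by
  have h := (mt_pv ω a).symm
  rcases mt_iff.1 h with ⟨-, h1⟩ | ⟨h1, -⟩
  · exact h1.symm
  · rw [← fa_pv ω a] at h1
    exact absurd h1 (fa_ne_fb _)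

theorem nx_inj (ω : Cfg) : Function.Injective (nx ω) := fun a b h => by
  rw [← pv_nx ω a, h, pv_nx]

/-- The strand as a permutation of the unit edges. -/
def nxE (ω : Cfg) : Equiv.Perm UE := ⟨nx ω, pv ω, pv_nx ω, nx_pv ω⟩

theorem pn_congr (h : ω f = ω' f) : pn ω f a = pn ω' f a := by
  unfold pn
  rw [h]

theorem nx_of_eq (h : ω (fa a) = ω' (fa a)) : nx ω a = nx ω' a := pn_congr h
theorem pv_of_eq (h : ω (fb a) = ω' (fb a)) : pv ω a = pv ω' a := pn_congr h

/-- In a step the end of one colour moves along the diagonal of the face, the other one stays. -/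
theorem mt_ends {c : ℤ} (hc : c = 0 ∨ c = 1) (h : Mt ω f a b) :
    (ω f = (!parD c f) ∧ en (1 - c) a = en (1 - c) b ∧ Bond ω {f} (en c a) (en c b)) ∨
      (ω f = parD c f ∧ en c a = en c b ∧ Bond ω {f} (en (1 - c) a) (en (1 - c) b)) := by
  obtain ⟨x, y⟩ := f
  have h0 : par (x, y) = (x + y) % 2 := rfl
  have h1 : par (x, y + 1) = 1 - par (x, y) := by unfold par; simp only; omega
  have h2 : par (x + 1, y) = 1 - par (x, y) := by unfold par; simp only; omega
  unfold Mt at h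
  rcases hc with rfl | rfl <;>
  rcases h with ⟨hw, (⟨rfl, rfl⟩ | ⟨rfl, rfl⟩ | ⟨rfl, rfl⟩ | ⟨rfl, rfl⟩)⟩ |
    ⟨hw, (⟨rfl, rfl⟩ | ⟨rfl, rfl⟩ | ⟨rfl, rfl⟩ | ⟨rfl, rfl⟩)⟩ <;>
    rcases par_cases (x, y) with hp | hp <;>
    simp [en, ua_mk, ub_true, ub_false, bo, ri, le', to', h1, h2, hp, Bond, hw, parD] <;>
    omega

end Step

/-! ### The path -/

/-- The unit edge at time `t`. -/
def pth (ω : Cfg) (e : UE) (t : ℕ) : UE := (nx ω)^[t] e

/-- The faces crossed between the times `s` and `t`. -/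
def vs (ω : Cfg) (e : UE) (s t : ℕ) : Finset (ℤ × ℤ) := (Ico s t).image fun i => fa (pth ω e i)

section Path

variable {ω ω' : Cfg} {f : ℤ × ℤ} {a b e : UE} {i j s t u : ℕ} {D F : Set (ℤ × ℤ)} {c : ℤ}

theorem pth_zero (ω : Cfg) (e : UE) : pth ω e 0 = e := rfl

theorem pth_succ (ω : Cfg) (e : UE) (t : ℕ) : pth ω e (t + 1) = nx ω (pth ω e t) :=
  Function.iterate_succ_apply' _ _ _

theorem pth_add (ω : Cfg) (e : UE) (s t : ℕ) : pth ω (pth ω e s) t = pth ω e (s + t) := by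
  unfold pth
  rw [← Function.iterate_add_apply, Nat.add_comm]

theorem fb_pth_succ (ω : Cfg) (e : UE) (t : ℕ) : fb (pth ω e (t + 1)) = fa (pth ω e t) := by
  rw [pth_succ, fb_nx]

theorem pth_inj (h : pth ω e i = pth ω e j) (hij : i ≤ j) : pth ω e (j - i) = e := by
  obtain ⟨k, rfl⟩ := Nat.exists_eq_add_of_le hij
  have h1 : (nx ω)^[i] e = (nx ω)^[i] ((nx ω)^[k] e) := by
    rw [← Function.iterate_add_apply]
    exact h
  rw [Nat.add_sub_cancel_left]
  exact (((nx_inj ω).iterate i) h1).symm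

theorem mem_vs : f ∈ vs ω e s t ↔ ∃ i, s ≤ i ∧ i < t ∧ f = fa (pth ω e i) := by
  unfold vs
  rw [Finset.mem_image]
  constructor
  · rintro ⟨i, hi, rfl⟩
    rw [Finset.mem_Ico] at hi
    exact ⟨i, hi.1, hi.2, rfl⟩
  · rintro ⟨i, h1, h2, rfl⟩
    exact ⟨i, Finset.mem_Ico.2 ⟨h1, h2⟩, rfl⟩

theorem fa_mem_vs (h1 : s ≤ i) (h2 : i < t) : fa (pth ω e i) ∈ vs ω e s t :=
  mem_vs.2 ⟨i, h1, h2, rfl⟩

theorem vs_self : vs ω e s s = ∅ := by
  unfold vs
  simp

theorem vs_mono {s' t' : ℕ} (h1 : s' ≤ s) (h2 : t ≤ t') : vs ω e s t ⊆ vs ω e s' t' := by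
  intro f hf
  obtain ⟨i, h3, h4, rfl⟩ := mem_vs.1 hf
  exact fa_mem_vs (h1.trans h3) (h4.trans_le h2)

theorem vs_union (h1 : s ≤ t) (h2 : t ≤ u) : vs ω e s u = vs ω e s t ∪ vs ω e t u := by
  classical
  ext f
  rw [Finset.mem_union, mem_vs, mem_vs, mem_vs]
  constructor
  · rintro ⟨i, h3, h4, rfl⟩
    rcases lt_or_ge i t with h | h
    · exact Or.inl ⟨i, h3, h, rfl⟩
    · exact Or.inr ⟨i, h, h4, rfl⟩
  · rintro (⟨i, h3, h4, rfl⟩ | ⟨i, h3, h4, rfl⟩)
    · exact ⟨i, h3, h4.trans_le h2, rfl⟩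
    · exact ⟨i, h1.trans h3, h4, rfl⟩

theorem vs_shift (ω : Cfg) (e : UE) (s t u : ℕ) :
    vs ω (pth ω e u) s t = vs ω e (u + s) (u + t) := by
  ext f
  rw [mem_vs, mem_vs]
  constructor
  · rintro ⟨i, h3, h4, rfl⟩
    exact ⟨u + i, by omega, by omega, by rw [pth_add]⟩
  · rintro ⟨i, h3, h4, rfl⟩
    exact ⟨i - u, by omega, by omega, by rw [pth_add, Nat.add_sub_cancel' (by omega)]⟩

/-- **Locality**: the path up to the time `t` depends only on the crossed faces. -/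
theorem pth_congr (h : ∀ f ∈ vs ω e 0 t, ω f = ω' f) : ∀ i ≤ t, pth ω' e i = pth ω e i := by
  intro i
  induction i with
  | zero => intro _; rfl
  | succ i ih =>
    intro hi
    rw [pth_succ, pth_succ, ih (by omega)]
    exact (nx_of_eq (h _ (fa_mem_vs (Nat.zero_le _) (by omega)))).symm

theorem vs_congr (h : ∀ f ∈ vs ω e 0 t, ω f = ω' f) (ht : u ≤ t) : vs ω' e s u = vs ω e s u := by
  ext f
  rw [mem_vs, mem_vs]
  constructor
  · rintro ⟨i, h3, h4, rfl⟩
    exact ⟨i, h3, h4, by rw [pth_congr h i (by omega)]⟩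
  · rintro ⟨i, h3, h4, rfl⟩
    exact ⟨i, h3, h4, by rw [pth_congr h i (by omega)]⟩

/-- The strand as a walk in the sense of `S8Move`. -/
def wk : Mv.Walk UE := ⟨fa, nx, fun _ _ _ h => nx_of_eq h⟩

theorem wk_pt (ω : Cfg) (e : UE) (t : ℕ) : Mv.pt wk ω e t = pth ω e t := rfl

theorem stay_iff : Mv.Stay wk ω F e t ↔ (vs ω e 0 t : Set (ℤ × ℤ)) ⊆ F := by
  constructor
  · intro h f hf
    obtain ⟨i, -, hi, rfl⟩ := mem_vs.1 (Finset.mem_coe.1 hf)
    exact h i hi
  · intro h i hi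
    exact h (Finset.mem_coe.2 (fa_mem_vs (Nat.zero_le _) hi))

theorem exit_vis (h : Mv.Exit wk ω F e t) : Mv.Vis wk ω F e = (vs ω e 0 t : Set (ℤ × ℤ)) := by
  rw [h.vis_eq]
  ext f
  rw [Finset.mem_coe, mem_vs, Set.mem_ofPred_eq]
  constructor
  · rintro ⟨i, hi, rfl⟩
    exact ⟨i, Nat.zero_le _, hi, rfl⟩
  · rintro ⟨i, -, hi, rfl⟩
    exact ⟨i, hi, rfl⟩

/-! ### Connections along the path -/

/-- **Left and right side**: if every face crossed between the times `s` and `t` is in `D` or carries the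
diagonal of the other colour then the ends of colour `c` are joined in `D`. -/
theorem conn_pth (hc : c = 0 ∨ c = 1) (hst : s ≤ t)
    (h : ∀ i, s ≤ i → i < t → fa (pth ω e i) ∈ D ∨
      ω (fa (pth ω e i)) = parD c (fa (pth ω e i))) :
    Conn ω D (en c (pth ω e s)) (en c (pth ω e t)) := by
  induction t, hst using Nat.le_induction with
  | base => exact Relation.ReflTransGen.refl
  | succ t hst ih =>
    have h1 := ih fun i h2 h3 => h i h2 (by omega)
    rw [pth_succ]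
    rcases mt_ends hc (mt_nx ω (pth ω e t)) with ⟨h2, -, h3⟩ | ⟨-, h2, -⟩
    · rcases h t hst (by omega) with h4 | h4
      · exact Relation.ReflTransGen.tail h1 (bond_of_single h4 h3)
      · rw [h4] at h2
        simp at h2
    · rwa [← h2]

theorem conn_pth_vs (hc : c = 0 ∨ c = 1) (hst : s ≤ t) :
    Conn ω (vs ω e s t : Set (ℤ × ℤ)) (en c (pth ω e s)) (en c (pth ω e t)) :=
  conn_pth hc hst fun _ h1 h2 => Or.inl (Finset.mem_coe.2 (fa_mem_vs h1 h2))

/-- The passage of `S8NearOne`. -/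
theorem psg_pth (hc : c = 0 ∨ c = 1) (hst : s ≤ t)
    (h : ∀ i, s ≤ i → i < t → fa (pth ω e i) ∈ D ∨
      ω (fa (pth ω e i)) = parD c (fa (pth ω e i))) :
    Psg ω D c (pth ω e s) (pth ω e t) := by
  induction t, hst using Nat.le_induction with
  | base => exact Relation.ReflTransGen.refl
  | succ t hst ih =>
    have h1 := ih fun i h2 h3 => h i h2 (by omega)
    refine Relation.ReflTransGen.tail h1 ?_
    rw [pth_succ]
    rcases h t hst (by omega) with h4 | h4
    · exact Or.inl ⟨_, h4, mt_nx _ _⟩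
    · rcases mt_ends hc (mt_nx ω (pth ω e t)) with ⟨h2, -, h3⟩ | ⟨-, h2, -⟩
      · rw [h4] at h2
        simp at h2
      · exact Or.inr ⟨en c (pth ω e t), par_en hc _, en_or c _, by rw [h2]; exact en_or c _⟩

/-! ### The component of a unit edge -/

private theorem mm_symm (h : a ∈ MM ω F e) : e ∈ MM ω F a := by
  induction h with
  | refl => exact mem_MM_self
  | tail _ hs ih =>
    obtain ⟨f, hf, hm⟩ := hs
    exact Relation.ReflTransGen.trans (Relation.ReflTransGen.single ⟨f, hf, hm.symm⟩) ih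

theorem pth_mem_MM (h : ∀ i < t, fa (pth ω e i) ∈ F) : pth ω e t ∈ MM ω F e := by
  induction t with
  | zero => exact mem_MM_self
  | succ t ih =>
    rw [pth_succ]
    exact MM_step (h t (by omega)) (mt_nx ω _) (ih fun i hi => h i (by omega))

/-- The component of `e` in terms of the path. -/
theorem mem_MM_iff : a ∈ MM ω F e ↔ (∃ t, a = pth ω e t ∧ ∀ i < t, fa (pth ω e i) ∈ F) ∨
    ∃ t, e = pth ω a t ∧ ∀ i < t, fa (pth ω a i) ∈ F := by
  constructor
  · intro h
    induction h with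
    | refl => exact Or.inl ⟨0, rfl, by omega⟩
    | tail _ hs ih =>
      rename_i a b _
      obtain ⟨f, hf, hm⟩ := hs
      rcases mt_iff.1 hm with ⟨rfl, rfl⟩ | ⟨rfl, rfl⟩
      · rcases ih with ⟨t, rfl, ht⟩ | ⟨t, rfl, ht⟩
        · refine Or.inl ⟨t + 1, (pth_succ _ _ _).symm, fun i hi => ?_⟩
          rcases Nat.lt_succ_iff_lt_or_eq.1 hi with h | rfl
          · exact ht i h
          · exact hf
        · cases t with
          | zero => exact Or.inl ⟨1, rfl, fun i hi => by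
              obtain rfl : i = 0 := by omega
              exact hf⟩
          | succ t =>
            have h2 : ∀ i, pth ω a (i + 1) = pth ω (nx ω a) i := fun i => by
              have := pth_add ω a 1 i
              rw [show 1 + i = i + 1 by omega] at this
              exact this.symm
            refine Or.inr ⟨t, h2 t, fun i hi => ?_⟩
            rw [← h2]
            exact ht (i + 1) (by omega)
      · rcases ih with ⟨t, rfl, ht⟩ | ⟨t, rfl, ht⟩
        · cases t with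
          | zero =>
            refine Or.inr ⟨1, (nx_pv _ _).symm, fun i hi => ?_⟩
            obtain rfl : i = 0 := by omega
            rw [pth_zero, fa_pv]
            exact hf
          | succ t =>
            refine Or.inl ⟨t, by rw [pth_succ, pv_nx], fun i hi => ht i (by omega)⟩
        · have h2 : ∀ i, pth ω (pv ω a) (i + 1) = pth ω a i := fun i => by
            have := pth_add ω (pv ω a) 1 i
            rw [show 1 + i = i + 1 by omega, show pth ω (pv ω a) 1 = a from nx_pv _ _] at this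
            exact this.symm
          refine Or.inr ⟨t + 1, (h2 t).symm, fun i hi => ?_⟩
          cases i with
          | zero => rw [pth_zero, fa_pv]; exact hf
          | succ i => rw [h2]; exact ht i (by omega)
  · rintro (⟨t, rfl, ht⟩ | ⟨t, rfl, ht⟩)
    · exact pth_mem_MM ht
    · exact mm_symm (pth_mem_MM ht)

/-- The time of exit from `F` of an entering unit edge: the component is the piece of the path. -/
theorem MM_exit (he : fb e ∉ F) (h : ∀ i < t, fa (pth ω e i) ∈ F) (ht : fa (pth ω e t) ∉ F) :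
    MM ω F e = {a | ∃ i ≤ t, a = pth ω e i} := by
  ext a
  rw [mem_MM_iff, Set.mem_ofPred_eq]
  constructor
  · rintro (⟨i, rfl, hi⟩ | ⟨i, hi, h2⟩)
    · refine ⟨i, ?_, rfl⟩
      by_contra hlt
      exact ht (hi t (by omega))
    · cases i with
      | zero => exact ⟨0, Nat.zero_le _, hi.symm⟩
      | succ i =>
        exfalso
        refine he ?_
        rw [hi, fb_pth_succ]
        exact h2 i (by omega)
  · rintro ⟨i, hi, rfl⟩
    exact Or.inl ⟨i, rfl, fun k hk => h k (by omega)⟩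

theorem SS_exit (he : fb e ∉ F) (h : ∀ i < t, fa (pth ω e i) ∈ F) (ht : fa (pth ω e t) ∉ F) :
    SS ω F e = (vs ω e 0 t : Set (ℤ × ℤ)) := by
  ext f
  unfold SS
  rw [MM_exit he h ht, Set.mem_ofPred_eq, Finset.mem_coe, mem_vs]
  constructor
  · rintro ⟨hf, a, ⟨i, hi, rfl⟩, hs⟩
    rcases isSide_iff.1 hs with rfl | rfl
    · refine ⟨i, Nat.zero_le _, ?_, rfl⟩
      rcases Nat.lt_or_eq_of_le hi with h1 | rfl
      · exact h1
      · exact absurd hf ht
    · cases i with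
      | zero => exact absurd hf he
      | succ i => exact ⟨i, Nat.zero_le _, by omega, fb_pth_succ _ _ _⟩
  · rintro ⟨i, -, hi, rfl⟩
    exact ⟨h i hi, pth ω e i, ⟨i, by omega, rfl⟩, isSide_fa _⟩

theorem MM_of_exit (he : fb e ∉ F) (h : Mv.Exit wk ω F e t) :
    MM ω F e = {a | ∃ i ≤ t, a = pth ω e i} ∧ SS ω F e = Mv.Vis wk ω F e := by
  rw [exit_vis h]
  exact ⟨MM_exit he h.1 h.2, SS_exit he h.1 h.2⟩

/-- Exit or closed strand. -/
theorem exit_or_period (F : Finset (ℤ × ℤ)) (ω : Cfg) (e : UE) :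
    (∃ t, (∀ i < t, fa (pth ω e i) ∈ F) ∧ fa (pth ω e t) ∉ F) ∨
      ∃ t, 0 < t ∧ t ≤ 4 * F.card ∧ pth ω e t = e ∧ ∀ i, fa (pth ω e i) ∈ F := by
  classical
  by_cases h : ∀ i, fa (pth ω e i) ∈ F
  · right
    set T : Finset UE := F.biUnion fun f => {bo f, le' f, to' f, ri f} with hT
    have hcard : T.card ≤ 4 * F.card := by
      refine (Finset.card_biUnion_le).trans ?_
      refine (Finset.sum_le_card_nsmul F _ 4 fun f _ => Finset.card_le_four).trans ?_
      rw [smul_eq_mul, Nat.mul_comm]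
    have hmem : ∀ i ∈ Finset.range (T.card + 1), pth ω e i ∈ T := by
      intro i _
      rw [hT, Finset.mem_biUnion]
      refine ⟨_, h i, ?_⟩
      have := isSide_fa (pth ω e i)
      simp only [Finset.mem_insert, Finset.mem_singleton]
      exact this
    obtain ⟨i, hi, j, hj, hij, he⟩ := Finset.exists_ne_map_eq_of_card_lt_of_maps_to
      (s := Finset.range (T.card + 1)) (t := T) (by simp) hmem
    rw [Finset.mem_range] at hi hj
    rcases Nat.lt_or_gt_of_ne hij with h1 | h1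
    · exact ⟨j - i, by omega, by omega, pth_inj he h1.le, h⟩
    · exact ⟨i - j, by omega, by omega, pth_inj he.symm h1.le, h⟩
  · left
    push Not at h
    exact ⟨Nat.find h, fun i hi => not_not.1 (Nat.find_min h hi), Nat.find_spec h⟩

theorem exists_exit_of_enter (F : Finset (ℤ × ℤ)) (ω : Cfg) (he : fb e ∉ F) :
    ∃ t, (∀ i < t, fa (pth ω e i) ∈ F) ∧ fa (pth ω e t) ∉ F := by
  rcases exit_or_period F ω e with h | ⟨t, h0, -, h1, h2⟩
  · exact h
  · exfalso
    obtain ⟨s, rfl⟩ : ∃ s, t = s + 1 := ⟨t - 1, by omega⟩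
    refine he ?_
    rw [← h1, fb_pth_succ]
    exact h2 s

end Path

/-! ### Stopping sets and decided quantities -/

/-- `X` is decided by the configuration on `S`. -/
def Adp {α : Type*} (S : Cfg → Set (ℤ × ℤ)) (X : Cfg → α) : Prop :=
  ∀ ω ω' : Cfg, (∀ f ∈ S ω, ω f = ω' f) → X ω' = X ω

section Adapted

variable {α β γ : Type*} {S S' : Cfg → Set (ℤ × ℤ)} {X : Cfg → α} {Y : Cfg → β}

theorem StopS.adp (h : StopS S) : Adp S S := h

theorem Adp.mono (h : Adp S X) (hS : ∀ ω, S ω ⊆ S' ω) : Adp S' X :=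
  fun ω ω' h' => h ω ω' fun f hf => h' f (hS ω hf)

theorem Adp.const (x : α) : Adp S (fun _ => x) := fun _ _ _ => rfl

theorem Adp.map (h : Adp S X) (g : α → β) : Adp S (fun ω => g (X ω)) :=
  fun ω ω' h' => by simp only [h ω ω' h']

theorem Adp.map2 (h : Adp S X) (h' : Adp S Y) (g : α → β → γ) : Adp S (fun ω => g (X ω) (Y ω)) :=
  fun ω ω' h'' => by simp only [h ω ω' h'', h' ω ω' h'']

/-- The configuration on the stopping set (with a decided default elsewhere) is decided. -/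
theorem Adp.mix_self {ζ : Cfg → Cfg} {V : Cfg → Set (ℤ × ℤ)} (hV : Adp S V) (hζ : Adp S ζ)
    (hVS : ∀ ω, V ω ⊆ S ω) : Adp S (fun ω => mix (V ω) ω (ζ ω)) := by
  intro ω ω' h
  simp only
  rw [hV ω ω' h, hζ ω ω' h]
  funext f
  by_cases hf : f ∈ V ω
  · rw [mix_of_mem hf, mix_of_mem hf, h f (hVS ω hf)]
  · rw [mix_of_notMem hf, mix_of_notMem hf]

/-- The event form used by `pr_mix_le`. -/
theorem Adp.detS {A : Set Cfg} (h : Adp S (fun ω => ω ∈ A)) : DetS S A := by
  intro ω hω ω' h'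
  have := h ω ω' h'
  simp only [eq_iff_iff] at this
  exact this.2 hω

end Adapted

/-! ### Explorations -/

/-- An exploration: the fresh faces `U`, the frozen configuration `ζ` off `U`, the first unit edge; they
may depend on the past. -/
structure Ex where
  U : Cfg → Set (ℤ × ℤ)
  ζ : Cfg → Cfg
  e : Cfg → UE

namespace Ex

variable (E : Ex) {S : Cfg → Set (ℤ × ℤ)} {ω ω' : Cfg} {s t u : ℕ}

/-- The configuration: `ω` on the fresh faces, `ζ` elsewhere. -/
noncomputable def cf (ω : Cfg) : Cfg := mix (E.U ω) ω (E.ζ ω)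

/-- The path. -/
noncomputable def p (ω : Cfg) (t : ℕ) : UE := pth (E.cf ω) (E.e ω) t

/-- The crossed faces. -/
noncomputable def v (ω : Cfg) (s t : ℕ) : Finset (ℤ × ℤ) := vs (E.cf ω) (E.e ω) s t

/-- The fresh faces crossed up to the time `t`. -/
def x (ω : Cfg) (t : ℕ) : Set (ℤ × ℤ) := E.U ω ∩ E.v ω 0 t

/-- The data of the exploration are decided by the stopping set `S`. -/
structure Ok (S : Cfg → Set (ℤ × ℤ)) : Prop where
  stop : StopS S
  U : Adp S E.U
  ζ : Adp S E.ζ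
  e : Adp S E.e

/-- `ω` and `ω'` agree on `S` and on the fresh faces crossed up to the time `t`. -/
def Ag (S : Cfg → Set (ℤ × ℤ)) (ω ω' : Cfg) (t : ℕ) : Prop :=
  ∀ f ∈ S ω ∪ E.x ω t, ω f = ω' f

/-- A property of the times which is decided by the path up to this time. -/
def Dec (S : Cfg → Set (ℤ × ℤ)) (P : Cfg → ℕ → Prop) : Prop :=
  ∀ ω ω' t, E.Ag S ω ω' t → (P ω t ↔ P ω' t)

/-- A stopping time. -/
def Time (S : Cfg → Set (ℤ × ℤ)) (τ : Cfg → ℕ) : Prop :=
  ∀ ω ω', E.Ag S ω ω' (τ ω) → τ ω' = τ ω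

variable {E}

theorem x_mono (h : t ≤ u) : E.x ω t ⊆ E.x ω u := fun _ hf =>
  ⟨hf.1, Finset.mem_coe.2 (vs_mono le_rfl h (Finset.mem_coe.1 hf.2))⟩

theorem Ag.mono (h : E.Ag S ω ω' t) (hu : u ≤ t) : E.Ag S ω ω' u := fun f hf =>
  h f (hf.imp id fun h => x_mono hu h)

theorem Ag.past (h : E.Ag S ω ω' t) : ∀ f ∈ S ω, ω f = ω' f := fun f hf => h f (Or.inl hf)

theorem Ag.U (h : E.Ag S ω ω' t) (hE : E.Ok S) : E.U ω' = E.U ω := hE.U ω ω' h.past

/-- The two configurations agree on the crossed faces. -/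
theorem Ag.cf (h : E.Ag S ω ω' t) (hE : E.Ok S) : ∀ f ∈ E.v ω 0 t, E.cf ω f = E.cf ω' f := by
  intro f hf
  unfold Ex.cf
  rw [hE.U ω ω' h.past, hE.ζ ω ω' h.past]
  by_cases hU : f ∈ E.U ω
  · rw [mix_of_mem hU, mix_of_mem hU]
    exact h f (Or.inr ⟨hU, Finset.mem_coe.2 hf⟩)
  · rw [mix_of_notMem hU, mix_of_notMem hU]

theorem Ag.p (h : E.Ag S ω ω' t) (hE : E.Ok S) {i : ℕ} (hi : i ≤ t) : E.p ω' i = E.p ω i := by
  unfold Ex.p
  rw [hE.e ω ω' h.past]
  exact pth_congr (h.cf hE) i hi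

theorem Ag.v (h : E.Ag S ω ω' t) (hE : E.Ok S) (hu : u ≤ t) : E.v ω' s u = E.v ω s u := by
  unfold Ex.v
  rw [hE.e ω ω' h.past]
  exact vs_congr (h.cf hE) hu

theorem Ag.x (h : E.Ag S ω ω' t) (hE : E.Ok S) (hu : u ≤ t) : E.x ω' u = E.x ω u := by
  unfold Ex.x
  rw [h.v hE hu, h.U hE]

theorem Ag.symm (h : E.Ag S ω ω' t) (hE : E.Ok S) : E.Ag S ω' ω t := by
  intro f hf
  rw [hE.stop ω ω' h.past, h.x hE le_rfl] at hf
  exact (h f hf).symm

theorem Ag.trans {ω'' : Cfg} (h : E.Ag S ω ω' t) (h' : E.Ag S ω' ω'' t) (hE : E.Ok S) :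
    E.Ag S ω ω'' t := by
  intro f hf
  rw [h f hf]
  refine h' f ?_
  rw [hE.stop ω ω' h.past, h.x hE le_rfl]
  exact hf

/-- **The stopping set of a stopping time.** -/
theorem Ok.stopS (hE : E.Ok S) {τ : Cfg → ℕ} (hτ : E.Time S τ) :
    StopS (fun ω => S ω ∪ E.x ω (τ ω)) := by
  intro ω ω' h
  have h1 : E.Ag S ω ω' (τ ω) := h
  simp only
  rw [hτ ω ω' h1, h1.x hE le_rfl, hE.stop ω ω' h1.past]

theorem Time.adp {τ : Cfg → ℕ} (hτ : E.Time S τ) : Adp (fun ω => S ω ∪ E.x ω (τ ω)) τ :=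
  fun ω ω' h => hτ ω ω' h

/-- Everything which is decided at the time `τ`. -/
theorem adp_of_time {α : Type*} {X : Cfg → α} {τ : Cfg → ℕ}
    (h : ∀ ω ω', E.Ag S ω ω' (τ ω) → X ω' = X ω) : Adp (fun ω => S ω ∪ E.x ω (τ ω)) X :=
  fun ω ω' h' => h ω ω' h'

theorem Ok.adp_p (hE : E.Ok S) {τ : Cfg → ℕ} (hτ : E.Time S τ) :
    Adp (fun ω => S ω ∪ E.x ω (τ ω)) (fun ω => E.p ω (τ ω)) := by
  refine adp_of_time fun ω ω' h => ?_
  rw [hτ ω ω' h]
  exact h.p hE le_rfl

theorem Time.const (n : ℕ) : E.Time S (fun _ => n) := fun _ _ _ => rfl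

theorem Time.dec_le {τ : Cfg → ℕ} (hτ : E.Time S τ) (hE : E.Ok S) :
    E.Dec S (fun ω t => τ ω ≤ t) := by
  intro ω ω' t h
  simp only
  constructor
  · intro h1
    rw [hτ ω ω' (h.mono h1)]
    exact h1
  · intro h1
    rw [hτ ω' ω ((h.symm hE).mono h1)]
    exact h1

theorem Dec.and {P Q : Cfg → ℕ → Prop} (h : E.Dec S P) (h' : E.Dec S Q) :
    E.Dec S (fun ω t => P ω t ∧ Q ω t) := fun ω ω' t ha => and_congr (h ω ω' t ha) (h' ω ω' t ha)

theorem Dec.or {P Q : Cfg → ℕ → Prop} (h : E.Dec S P) (h' : E.Dec S Q) :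
    E.Dec S (fun ω t => P ω t ∨ Q ω t) := fun ω ω' t ha => or_congr (h ω ω' t ha) (h' ω ω' t ha)

theorem Dec.not {P : Cfg → ℕ → Prop} (h : E.Dec S P) : E.Dec S (fun ω t => ¬ P ω t) :=
  fun ω ω' t ha => not_congr (h ω ω' t ha)

theorem Dec.exists_le {P : Cfg → ℕ → Prop} (h : E.Dec S P) :
    E.Dec S (fun ω t => ∃ s ≤ t, P ω s) := by
  intro ω ω' t ha
  constructor
  · rintro ⟨s, hs, hP⟩
    exact ⟨s, hs, (h ω ω' s (ha.mono hs)).1 hP⟩
  · rintro ⟨s, hs, hP⟩
    exact ⟨s, hs, (h ω ω' s (ha.mono hs)).2 hP⟩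

end Ex

/-- The first time `t ≤ N` with the property `P`, or `N`. -/
noncomputable def hit (N : ℕ) (P : ℕ → Prop) : ℕ := sInf {t | t = N ∨ P t}

section Hit

variable {N : ℕ} {P : ℕ → Prop} {t : ℕ}

theorem hit_spec (N : ℕ) (P : ℕ → Prop) : hit N P = N ∨ P (hit N P) :=
  Nat.sInf_mem (s := {t | t = N ∨ P t}) ⟨N, Or.inl rfl⟩

theorem hit_le (N : ℕ) (P : ℕ → Prop) : hit N P ≤ N := Nat.sInf_le (Or.inl rfl)

theorem hit_le_of (h : P t) : hit N P ≤ t := Nat.sInf_le (Or.inr h)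

theorem not_of_lt_hit (h : t < hit N P) : ¬ P t := fun h' => by
  have := hit_le_of (N := N) h'
  omega

theorem hit_eq (h : P t) (ht : t ≤ N) (hl : ∀ s < t, ¬ P s) : hit N P = t := by
  refine le_antisymm (hit_le_of h) ?_
  by_contra hlt
  push Not at hlt
  rcases hit_spec N P with h1 | h1
  · omega
  · exact hl _ hlt h1

end Hit

namespace Ex

variable {E : Ex} {S : Cfg → Set (ℤ × ℤ)} {ω ω' : Cfg} {s t u : ℕ}

/-- **First times** are stopping times. -/
theorem Dec.time {P : Cfg → ℕ → Prop} (h : E.Dec S P) (N : ℕ) :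
    E.Time S (fun ω => hit N (P ω)) := by
  intro ω ω' ha
  simp only at ha ⊢
  have h1 : ∀ t ≤ hit N (P ω), (P ω t ↔ P ω' t) := fun t ht => h ω ω' t (ha.mono ht)
  refine le_antisymm ?_ ?_
  · rcases hit_spec N (P ω) with h2 | h2
    · rw [h2]
      exact hit_le _ _
    · exact hit_le_of ((h1 _ le_rfl).1 h2)
  · by_contra hlt
    push Not at hlt
    rcases hit_spec N (P ω') with h2 | h2
    · have := hit_le N (P ω)
      omega
    · exact not_of_lt_hit hlt ((h1 _ hlt.le).2 h2)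

/-- The first time `≥ τ` with the property `P`. -/
theorem Dec.time_after {P : Cfg → ℕ → Prop} (h : E.Dec S P) (hE : E.Ok S) {τ : Cfg → ℕ}
    (hτ : E.Time S τ) (N : ℕ) : E.Time S (fun ω => hit N (fun t => τ ω ≤ t ∧ P ω t)) :=
  ((hτ.dec_le hE).and h).time N

theorem Time.min {τ τ' : Cfg → ℕ} (h : E.Time S τ) (h' : E.Time S τ') (hE : E.Ok S) :
    E.Time S (fun ω => min (τ ω) (τ' ω)) := by
  intro ω ω' ha
  simp only at ha ⊢
  rcases le_total (τ ω) (τ' ω) with h1 | h1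
  · rw [min_eq_left h1] at ha ⊢
    rw [h ω ω' ha]
    refine min_eq_left ?_
    by_contra hlt
    push Not at hlt
    have := h' ω' ω ((ha.symm hE).mono hlt.le)
    omega
  · rw [min_eq_right h1] at ha ⊢
    rw [h' ω ω' ha]
    refine min_eq_right ?_
    by_contra hlt
    push Not at hlt
    have := h ω' ω ((ha.symm hE).mono hlt.le)
    omega

variable (E)

/-- The exploration from the time `τ` on. -/
noncomputable def res (τ : Cfg → ℕ) : Ex where
  U ω := E.U ω \ E.x ω (τ ω)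
  ζ ω := mix (E.x ω (τ ω)) ω (E.ζ ω)
  e ω := E.p ω (τ ω)

variable {E}

theorem res_cf (τ : Cfg → ℕ) (ω : Cfg) : (E.res τ).cf ω = E.cf ω := by
  unfold cf res
  simp only
  funext f
  by_cases hU : f ∈ E.U ω
  · by_cases hx : f ∈ E.x ω (τ ω)
    · rw [mix_of_notMem (fun h : f ∈ E.U ω \ E.x ω (τ ω) => h.2 hx), mix_of_mem hx,
        mix_of_mem hU]
    · rw [mix_of_mem (show f ∈ E.U ω \ E.x ω (τ ω) from ⟨hU, hx⟩), mix_of_mem hU]
  · rw [mix_of_notMem (fun h : f ∈ E.U ω \ E.x ω (τ ω) => hU h.1),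
      mix_of_notMem (fun h : f ∈ E.x ω (τ ω) => hU h.1), mix_of_notMem hU]

theorem res_p (τ : Cfg → ℕ) (ω : Cfg) (t : ℕ) : (E.res τ).p ω t = E.p ω (τ ω + t) := by
  unfold p
  rw [res_cf]
  exact pth_add _ _ _ _

theorem res_v (τ : Cfg → ℕ) (ω : Cfg) (s t : ℕ) :
    (E.res τ).v ω s t = E.v ω (τ ω + s) (τ ω + t) := by
  unfold v
  rw [res_cf]
  exact vs_shift _ _ _ _ _

/-- The faces revealed by the time `τ` and then by the time `t` of the continued exploration. -/
theorem res_x (τ : Cfg → ℕ) (ω : Cfg) (t : ℕ) :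
    E.x ω (τ ω) ∪ (E.res τ).x ω t = E.x ω (τ ω + t) := by
  have h : E.v ω 0 (τ ω + t) = E.v ω 0 (τ ω) ∪ E.v ω (τ ω) (τ ω + t) := vs_union (by omega) (by omega)
  unfold x
  rw [res_v]
  ext f
  rw [h]
  simp only [res, x, Set.mem_union, Set.mem_inter_iff, Set.mem_sdiff, Finset.coe_union,
    Nat.add_zero, Finset.mem_coe]
  tauto

theorem Ok.res (hE : E.Ok S) {τ : Cfg → ℕ} (hτ : E.Time S τ) :
    (E.res τ).Ok (fun ω => S ω ∪ E.x ω (τ ω)) where
  stop := hE.stopS hτ
  U := adp_of_time fun ω ω' h => by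
    simp only [Ex.res]
    rw [h.U hE, hτ ω ω' h, h.x hE le_rfl]
  ζ := by
    have h1 : Adp (fun ω => S ω ∪ E.x ω (τ ω)) (fun ω => E.x ω (τ ω)) :=
      adp_of_time fun ω ω' h => by
        rw [hτ ω ω' h, h.x hE le_rfl]
    exact Adp.mix_self h1 (hE.ζ.mono fun ω => Set.subset_union_left) fun ω => Set.subset_union_right
  e := hE.adp_p hτ

/-- The resampled configuration has the same path up to the stopping time. -/
theorem Ok.mix_p (hE : E.Ok S) {τ : Cfg → ℕ} (ω ξ : Cfg) {i : ℕ} (hi : i ≤ τ ω) :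
    E.p (mix (S ω ∪ E.x ω (τ ω)) ω ξ) i = E.p ω i := by
  have h : E.Ag S ω (mix (S ω ∪ E.x ω (τ ω)) ω ξ) (τ ω) := fun f hf => (mix_of_mem hf).symm
  exact h.p hE hi

end Ex

end Pool.Agent.SixB
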