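import Pool.Agent.Lib.MP_6bd702_z.Z006

/-!
# Step 8, SCAN: one step of the scan, deterministic facts

`H` is the set of the vertices of the hulls found before, `A` is a connected set of edges which is
declared open (a needle, a cell, …). The configuration `frz H A ω` has the edges of `A` open and the
edges with an end in `H` closed. The cluster of `A` in it is filled and added to `H`.

* `Closed H ω`: no open edge has exactly one end in `H`; kept by the step (`closed_step`), hence a real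
  cluster is swallowed whole.
* `Att n H`: every vertex of `H` is joined to the exterior of the box by a king path in `H`; kept by
  the step (`att_step`), hence the faces around `H` are outer faces of every cluster which avoids `H`.
* `nxt_frz`, `prv_frz`: the interface does not see the difference between `frz H A ω` and `ω` outside
  of the vertices of `A`; `real_corner`: the outer corners of the declared cluster are outer corners
  of a real cluster which touches `A`.
-/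

set_option autoImplicit false

namespace Pool.Agent.SixB.Scan

open Set Pool.Agent.MP_6bd702.H23 Pool.Agent.MP_6bd702.H60 Pool.Agent.PercU Pool.Agent.PercO

/-- The edges of `A` are open, the edges with an end in `H` are closed. -/
def frz (H : Set (ℤ × ℤ)) (A ω : Set Ed) : Set Ed := {e | e ∈ A ∨ (e ∈ ω ∧ ea e ∉ H ∧ eb e ∉ H)}

/-- No edge of `ω` has exactly one end in `H`. -/
def Closed (H : Set (ℤ × ℤ)) (ω : Set Ed) : Prop := ∀ e ∈ ω, (ea e ∈ H ↔ eb e ∈ H)

/-- The filled cluster of `a`. -/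
def Hul (ω : Set Ed) (a : ℤ × ℤ) : Set (ℤ × ℤ) :=
  {u | u ∈ Kc ω a ∨ ∀ k : Cor, vtx k = u → fce k ∉ Out (Tc ω a)}

/-- The exterior of the box. -/
def Ext (n : ℤ) : Set (ℤ × ℤ) := {u | u.1 < 0 ∨ n < u.1 ∨ u.2 < 0 ∨ n < u.2}

/-- King steps inside `H` and the exterior of the box. -/
def KSt (n : ℤ) (H : Set (ℤ × ℤ)) (p q : ℤ × ℤ) : Prop := sd p q ≤ 1 ∧ (q ∈ H ∨ q ∈ Ext n)

/-- `H` is attached to the exterior of the box. -/
def Att (n : ℤ) (H : Set (ℤ × ℤ)) : Prop :=
  ∀ u ∈ H, ∃ w ∈ Ext n, Relation.ReflTransGen (KSt n H) u w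

/-- The vertices of the edges of `A`. -/
def Vs (A : Set Ed) : Set (ℤ × ℤ) := {u | ∃ e ∈ A, ea e = u ∨ eb e = u}

/-! ### Faces around a vertex -/

theorem sd_comm (u v : ℤ × ℤ) : sd u v = sd v u := by
  unfold sd
  rw [abs_sub_comm u.1, abs_sub_comm u.2]

theorem fce_share {u w : ℤ × ℤ} (h : sd u w ≤ 1) : ∃ k k' : Cor, vtx k = u ∧ vtx k' = w ∧
    fce k = fce k' := by
  obtain ⟨x, y⟩ := u
  obtain ⟨x', y'⟩ := w
  unfold sd at h
  rw [max_le_iff, abs_le, abs_le] at h
  simp only at h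
  refine ⟨(x, y, decide (x ≤ x'), decide (y ≤ y')), (x', y', decide (x' ≤ min x x'),
    decide (y' ≤ min y y')), rfl, rfl, ?_⟩
  unfold fce
  simp only [decide_eq_true_eq, Prod.mk.injEq]
  constructor
  · rcases le_total x x' with h1 | h1
    · rw [min_eq_left h1]
      split_ifs <;> omega
    · rw [min_eq_right h1]
      split_ifs <;> omega
  · rcases le_total y y' with h1 | h1
    · rw [min_eq_left h1]
      split_ifs <;> omega
    · rw [min_eq_right h1]
      split_ifs <;> omega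

theorem cases_at (k k' : Cor) (h : vtx k = vtx k') :
    k' = k ∨ k' = rot k ∨ k' = rot (rot k) ∨ k' = rot (rot (rot k)) := by
  obtain ⟨x, y, s, t⟩ := k
  obtain ⟨x', y', s', t'⟩ := k'
  simp only [vtx, Prod.mk.injEq] at h
  obtain ⟨rfl, rfl⟩ := h
  cases s <;> cases t <;> cases s' <;> cases t' <;> simp [rot]

theorem qry_end (k : Cor) : ea (qry k) = vtx k ∨ eb (qry k) = vtx k := by
  rcases ends_qry k with ⟨h, -⟩ | ⟨-, h⟩
  · exact Or.inl h
  · exact Or.inr h

theorem qryb_end (k : Cor) : ea (qryb k) = vtx k ∨ eb (qryb k) = vtx k := by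
  rw [← qry_rotb]
  have := qry_end (rotb k)
  rwa [vtx_rotb] at this

theorem fstep_rot {T : Set Ed} {k : Cor} (h : qry k ∉ T) : FConn T (fce k) (fce (rot k)) :=
  .single ⟨qry k, h, faces_qry k⟩

/-- The faces around a vertex without edges of `T` are joined. -/
theorem fconn_at {T : Set Ed} {u : ℤ × ℤ} (hT : ∀ e ∈ T, ea e ≠ u ∧ eb e ≠ u) {k k' : Cor}
    (hk : vtx k = u) (hk' : vtx k' = u) : FConn T (fce k) (fce k') := by
  have key : ∀ j : Cor, vtx j = u → FConn T (fce j) (fce (rot j)) := by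
    intro j hj
    refine fstep_rot fun h => ?_
    rcases qry_end j with h1 | h1
    · exact (hT _ h).1 (h1.trans hj)
    · exact (hT _ h).2 (h1.trans hj)
  have h1 := key k hk
  have h2 := key (rot k) (by rw [vtx_rot, hk])
  have h3 := key (rot (rot k)) (by rw [vtx_rot, vtx_rot, hk])
  rcases cases_at k k' (hk.trans hk'.symm) with rfl | rfl | rfl | rfl
  · exact .refl
  · exact h1
  · exact h1.trans h2
  · exact (h1.trans h2).trans h3

/-! ### Outer faces -/

theorem Out.anti {T T' : Set Ed} (h : T ⊆ T') : Out T' ⊆ Out T := by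
  intro f hf
  refine Set.Infinite.mono ?_ hf
  intro g hg
  have hg' : FConn T' f g := hg
  change FConn T f g
  unfold FConn at *
  induction hg' with
  | refl => exact .refl
  | tail _ h2 ih =>
    obtain ⟨e, he, hh⟩ := h2
    exact (ih ‹_›).tail ⟨e, fun h3 => he (h h3), hh⟩

theorem base_out {T : Set Ed} {n : ℤ} (hT : T ⊆ EW 0 n 0 n) : ((-1 : ℤ), (-1 : ℤ)) ∈ Out T := by
  refine out_left fun e he => ?_
  have := (mem_EW.1 (hT he)).1
  simp only [mem_Rect, ea] at this
  omega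

theorem face_out {T : Set Ed} {n : ℤ} (hT : T ⊆ EW 0 n 0 n) {x y : ℤ}
    (h : x < 0 ∨ n ≤ x ∨ y < 0 ∨ n ≤ y) : (x, y) ∈ Out T :=
  Out.of_conn (fconn_outside hT h).symm (base_out hT)

theorem ext_out {T : Set Ed} {n : ℤ} (hT : T ⊆ EW 0 n 0 n) {k : Cor} (hk : vtx k ∈ Ext n) :
    fce k ∈ Out T := by
  obtain ⟨x, y, s, t⟩ := k
  simp only [Ext, vtx, mem_ofPred_eq] at hk
  unfold fce
  refine face_out hT ?_
  simp only
  cases s <;> cases t <;> simp <;> omega

/-- The faces around an attached set are outer faces of every set of edges which avoids it. -/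
theorem att_out {T : Set Ed} {n : ℤ} (hT : T ⊆ EW 0 n 0 n) {H : Set (ℤ × ℤ)} (hH : Att n H)
    (hTH : ∀ e ∈ T, ea e ∉ H ∧ eb e ∉ H) {k : Cor} (hk : vtx k ∈ H) : fce k ∈ Out T := by
  obtain ⟨w, hw, hp⟩ := hH _ hk
  have key : ∀ u, Relation.ReflTransGen (KSt n H) u w → (u ∈ H ∨ u ∈ Ext n) →
      ∀ k : Cor, vtx k = u → fce k ∈ Out T := by
    intro u hu
    induction hu using Relation.ReflTransGen.head_induction_on with
    | refl =>
      intro _ k hk
      exact ext_out hT (by rw [hk]; exact hw)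
    | @head p q h1 _ ih =>
      intro hp k hk
      rcases hp with hp | hp
      · obtain ⟨k1, k2, e1, e2, e3⟩ := fce_share h1.1
        have h2 := ih h1.2 k2 e2
        rw [← e3] at h2
        refine Out.of_conn (fconn_at (u := p) ?_ e1 hk) h2
        intro e he
        exact ⟨fun h => (hTH e he).1 (by rw [h]; exact hp), fun h => (hTH e he).2 (by rw [h]; exact hp)⟩
      · exact ext_out hT (by rw [hk]; exact hp)
  exact key _ hp (Or.inl hk) k rfl

/-! ### The declared cluster -/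

variable {n : ℤ} {H : Set (ℤ × ℤ)} {A ω : Set Ed} {a : ℤ × ℤ}

theorem frz_sub (hA : A ⊆ EW 0 n 0 n) (hω : ω ⊆ EW 0 n 0 n) : frz H A ω ⊆ EW 0 n 0 n := by
  rintro e (h | h)
  · exact hA h
  · exact hω h.1

theorem frz_avoid (hAH : ∀ e ∈ A, ea e ∉ H ∧ eb e ∉ H) {e : Ed} (he : e ∈ frz H A ω) :
    ea e ∉ H ∧ eb e ∉ H := by
  rcases he with h | h
  · exact hAH e h
  · exact h.2

theorem tc_avoid (hAH : ∀ e ∈ A, ea e ∉ H ∧ eb e ∉ H) {e : Ed} (he : e ∈ Tc (frz H A ω) a) :
    ea e ∉ H ∧ eb e ∉ H := frz_avoid hAH he.1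

/-- The declared cluster avoids `H`. -/
theorem kc_avoid (hAH : ∀ e ∈ A, ea e ∉ H ∧ eb e ∉ H) (ha : a ∉ H) {u : ℤ × ℤ}
    (hu : u ∈ Kc (frz H A ω) a) : u ∉ H := by
  have hu' : Relation.ReflTransGen (Step (frz H A ω) univ) a u := hu
  induction hu' with
  | refl => exact ha
  | tail _ h2 _ =>
    obtain ⟨-, -, e, he, ⟨-, h3⟩ | ⟨h3, -⟩⟩ := h2
    · rw [← h3]; exact (frz_avoid hAH he).2
    · rw [← h3]; exact (frz_avoid hAH he).1

/-- The faces around a vertex outside of the cluster are joined. -/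
theorem out_of_notMem {ω : Set Ed} {u : ℤ × ℤ} (hu : u ∉ Kc ω a) {k k' : Cor} (hk : vtx k = u)
    (hk' : vtx k' = u) (h : fce k ∈ Out (Tc ω a)) : fce k' ∈ Out (Tc ω a) := by
  refine Out.of_conn (fconn_at (u := u) ?_ hk hk') h
  intro e he
  exact ⟨fun h1 => hu (by rw [← h1]; exact ea_mem he), fun h1 => hu (by rw [← h1]; exact eb_mem he)⟩

/-- A king neighbour of an enclosed vertex is in the filled cluster. -/
theorem hul_step {ω : Set Ed} {u w : ℤ × ℤ} (hu : ∀ k : Cor, vtx k = u → fce k ∉ Out (Tc ω a))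
    (h : sd u w ≤ 1) : w ∈ Hul ω a := by
  by_cases hw : w ∈ Kc ω a
  · exact Or.inl hw
  · refine Or.inr fun k hk hout => ?_
    obtain ⟨k1, k2, e1, e2, e3⟩ := fce_share h
    refine hu k1 e1 ?_
    rw [e3]
    exact out_of_notMem hw hk e2 hout

theorem sd_ends (e : Ed) : sd (ea e) (eb e) ≤ 1 := by
  obtain ⟨x, y, s⟩ := e
  cases s <;> simp [sd, ea_mk, eb_true, eb_false]

/-- The step keeps `Closed`. -/
theorem closed_step (hC : Closed H ω) (a : ℤ × ℤ) : Closed (H ∪ Hul (frz H A ω) a) ω := by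
  have key : ∀ e ∈ ω, ∀ u w, (ea e = u ∧ eb e = w) ∨ (ea e = w ∧ eb e = u) →
      u ∈ H ∪ Hul (frz H A ω) a → w ∈ H ∪ Hul (frz H A ω) a := by
    intro e he u w hh hu
    by_cases huH : u ∈ H
    · left
      rcases hh with ⟨h1, h2⟩ | ⟨h1, h2⟩
      · rw [← h2]; exact (hC e he).1 (by rw [h1]; exact huH)
      · rw [← h1]; exact (hC e he).2 (by rw [h2]; exact huH)
    · by_cases hwH : w ∈ H
      · exact Or.inl hwH
      right
      have he' : e ∈ frz H A ω := by
        refine Or.inr ⟨he, ?_⟩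
        rcases hh with ⟨h1, h2⟩ | ⟨h1, h2⟩ <;> rw [h1, h2]
        · exact ⟨huH, hwH⟩
        · exact ⟨hwH, huH⟩
      rcases hu with hu | hu
      · exact absurd hu huH
      rcases hu with hu | hu
      · exact Or.inl (Conn.trans hu (.single ⟨trivial, trivial, e, he', hh⟩))
      · refine hul_step hu ?_
        have := sd_ends e
        rcases hh with ⟨h1, h2⟩ | ⟨h1, h2⟩
        · rwa [h1, h2] at this
        · rwa [h1, h2, sd_comm] at this
  intro e he
  exact ⟨key e he _ _ (Or.inl ⟨rfl, rfl⟩), key e he _ _ (Or.inr ⟨rfl, rfl⟩)⟩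

/-- A real cluster which meets a closed set lies in it. -/
theorem closed_cluster (hC : Closed H ω) {u : ℤ × ℤ} (hu : u ∈ H) : Kc ω u ⊆ H := by
  intro w hw
  have hw' : Relation.ReflTransGen (Step ω univ) u w := hw
  induction hw' with
  | refl => exact hu
  | tail _ h2 ih =>
    obtain ⟨-, -, e, he, ⟨h1, h3⟩ | ⟨h1, h3⟩⟩ := h2
    · rw [← h3]; exact (hC e he).1 (by rw [h1]; exact ih ‹_›)
    · rw [← h1]; exact (hC e he).2 (by rw [h3]; exact ih ‹_›)

/-- A real cluster which has a vertex outside of a closed set avoids it. -/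
theorem closed_cluster' (hC : Closed H ω) {u : ℤ × ℤ} (hu : u ∉ H) {w : ℤ × ℤ} (hw : w ∈ Kc ω u) :
    w ∉ H := fun h => hu (closed_cluster hC h (Conn.symm hw))

/-- The filled cluster is in the box. -/
theorem hul_notMem_ext (hA : A ⊆ EW 0 n 0 n) (hω : ω ⊆ EW 0 n 0 n) (ha : a ∉ Ext n) {u : ℤ × ℤ}
    (hu : u ∈ Hul (frz H A ω) a) : u ∉ Ext n := by
  intro hE
  have hsub := frz_sub (H := H) hA hω
  rcases hu with hu | hu
  · have hu' : Relation.ReflTransGen (Step (frz H A ω) univ) a u := hu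
    induction hu' with
    | refl => exact ha hE
    | tail _ h2 _ =>
      obtain ⟨-, -, e, he, hh⟩ := h2
      have h4 := mem_EW.1 (hsub he)
      simp only [mem_Rect] at h4
      unfold Ext at hE
      rw [mem_ofPred_eq] at hE
      rcases hh with ⟨-, h3⟩ | ⟨h3, -⟩ <;> rw [← h3] at hE <;> omega
  · refine hu (u.1, u.2, true, true) rfl (ext_out (Tc_sub.trans hsub) ?_)
    exact hE

/-- The step keeps `Att`. -/
theorem att_step (hA : A ⊆ EW 0 n 0 n) (hω : ω ⊆ EW 0 n 0 n) (hH : Att n H) {v w : ℤ × ℤ}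
    (hv : v ∈ Kc (frz H A ω) a) (hw : w ∈ H ∨ w ∈ Ext n) (hvw : sd v w ≤ 1) :
    Att n (H ∪ Hul (frz H A ω) a) := by
  set H' := H ∪ Hul (frz H A ω) a with hH'
  have hmono : ∀ {p q}, Relation.ReflTransGen (KSt n H) p q →
      Relation.ReflTransGen (KSt n H') p q := by
    intro p q h
    induction h with
    | refl => exact .refl
    | tail _ h1 ih => exact ih.tail ⟨h1.1, h1.2.imp_left fun h2 => Or.inl h2⟩
  -- the base point
  have hbase : ∃ z ∈ Ext n, Relation.ReflTransGen (KSt n H') v z := by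
    rcases hw with hw | hw
    · obtain ⟨z, hz, hp⟩ := hH w hw
      exact ⟨z, hz, .head ⟨hvw, Or.inl (Or.inl hw)⟩ (hmono hp)⟩
    · exact ⟨w, hw, .single ⟨hvw, Or.inr hw⟩⟩
  obtain ⟨z, hz, hvz⟩ := hbase
  -- the cluster
  have hcl : ∀ u ∈ Kc (frz H A ω) a, Relation.ReflTransGen (KSt n H') u z := by
    intro u hu
    have h1 : Conn (frz H A ω) univ v u := (Conn.symm hv).trans hu
    have h1' : Relation.ReflTransGen (Step (frz H A ω) univ) v u := h1
    induction h1' with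
    | refl => exact hvz
    | @tail b c hb h2 ih =>
      have hb' : b ∈ Kc (frz H A ω) a := Conn.trans hv hb
      refine .head ⟨?_, Or.inl (Or.inr (Or.inl hb'))⟩ (ih hb' hb)
      obtain ⟨-, -, e, he, hh⟩ := h2
      have := sd_ends e
      rcases hh with ⟨h3, h4⟩ | ⟨h3, h4⟩
      · rwa [h3, h4, sd_comm] at this
      · rwa [h3, h4] at this
  -- enclosed vertices: go to the left
  have henc : ∀ (m : ℕ) (u : ℤ × ℤ), u.1 < m → (∀ k : Cor, vtx k = u → fce k ∉ Out (Tc (frz H A ω) a)) →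
      Relation.ReflTransGen (KSt n H') u z := by
    intro m
    induction m with
    | zero =>
      intro u hu h
      refine absurd (ext_out (k := (u.1, u.2, true, true))
        (Tc_sub.trans (frz_sub (H := H) hA hω)) ?_) (h (u.1, u.2, true, true) rfl)
      left
      exact_mod_cast hu
    | succ m ih =>
      intro u hu h
      have hs : sd u (u.1 - 1, u.2) ≤ 1 := by simp [sd]
      have h1 := hul_step h hs
      refine .head ⟨hs, Or.inl (Or.inr h1)⟩ ?_
      rcases h1 with h1 | h1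
      · exact hcl _ h1
      · refine ih _ ?_ h1
        push_cast at hu
        simp only
        omega
  rintro u (hu | hu | hu)
  · obtain ⟨z', hz', hp⟩ := hH u hu
    exact ⟨z', hz', hmono hp⟩
  · exact ⟨z, hz, hcl u hu⟩
  · refine ⟨z, hz, henc (u.1.toNat + 1) u ?_ hu⟩
    push_cast
    have := Int.self_le_toNat u.1
    omega

/-- An attached declared set has an outer corner. -/
theorem exists_corner (hA : A ⊆ EW 0 n 0 n) (hω : ω ⊆ EW 0 n 0 n) (hH : Att n H)
    (hAH : ∀ e ∈ A, ea e ∉ H ∧ eb e ∉ H) {v w : ℤ × ℤ} (hv : v ∈ Kc (frz H A ω) a)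
    (hw : w ∈ H ∨ w ∈ Ext n) (hvw : sd v w ≤ 1) : ∃ k ∈ Oc (frz H A ω) a, vtx k = v := by
  obtain ⟨k1, k2, e1, e2, e3⟩ := fce_share hvw
  refine ⟨k1, ⟨by rw [e1]; exact hv, ?_⟩, e1⟩
  rw [e3]
  have hsub : Tc (frz H A ω) a ⊆ EW 0 n 0 n := Tc_sub.trans (frz_sub (H := H) hA hω)
  rcases hw with hw | hw
  · exact att_out hsub hH (fun e he => tc_avoid hAH he) (by rw [e2]; exact hw)
  · exact ext_out hsub (by rw [e2]; exact hw)

/-! ### Agreement with the real configuration -/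

/-- Edges at a vertex of the declared cluster which is not a vertex of `A`. -/
theorem mem_frz_iff (hC : Closed H ω) {e : Ed} {u : ℤ × ℤ} (huH : u ∉ H) (huA : u ∉ Vs A)
    (he : ea e = u ∨ eb e = u) : e ∈ frz H A ω ↔ e ∈ ω := by
  constructor
  · rintro (h | h)
    · exact absurd ⟨e, h, he⟩ huA
    · exact h.1
  · intro h
    refine Or.inr ⟨h, ?_⟩
    rcases he with he | he
    · have h1 : ea e ∉ H := by rw [he]; exact huH
      exact ⟨h1, fun h2 => h1 ((hC e h).2 h2)⟩
    · have h1 : eb e ∉ H := by rw [he]; exact huH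
      exact ⟨fun h2 => h1 ((hC e h).1 h2), h1⟩

theorem nxt_frz (hC : Closed H ω) {k : Cor} (hH : vtx k ∉ H) (hA : vtx k ∉ Vs A) :
    nxt (frz H A ω) k = nxt ω k := nxt_congr (mem_frz_iff hC hH hA (qry_end k))

theorem prv_frz (hC : Closed H ω) {k : Cor} (hH : vtx k ∉ H) (hA : vtx k ∉ Vs A) :
    prv (frz H A ω) k = prv ω k := prv_congr (mem_frz_iff hC hH hA (qryb_end k))

/-- The real cluster of a vertex of the declared cluster. -/
theorem kc_real (hC : Closed H ω) {u : ℤ × ℤ} (hu : u ∈ Kc (frz H A ω) a) (huH : u ∉ H) :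
    Kc ω u ⊆ Kc (frz H A ω) a := by
  intro w hw
  have hw' : Relation.ReflTransGen (Step ω univ) u w := hw
  induction hw' with
  | refl => exact hu
  | @tail b c hb h2 ih =>
    refine Conn.trans (ih hb) (.single ?_)
    obtain ⟨-, -, e, he, hh⟩ := h2
    refine ⟨trivial, trivial, e, Or.inr ⟨he, ?_⟩, hh⟩
    have h1 : b ∉ H := closed_cluster' hC huH hb
    have h2 : c ∉ H := closed_cluster' hC huH (Conn.trans hb (.single ⟨trivial, trivial, e, he, hh⟩))
    rcases hh with ⟨h3, h4⟩ | ⟨h3, h4⟩ <;> rw [h3, h4]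
    · exact ⟨h1, h2⟩
    · exact ⟨h2, h1⟩

theorem tc_real (hC : Closed H ω) {u : ℤ × ℤ} (hu : u ∈ Kc (frz H A ω) a) (huH : u ∉ H) :
    Tc ω u ⊆ Tc (frz H A ω) a := by
  rintro e ⟨h1, h2⟩
  refine ⟨Or.inr ⟨h1, closed_cluster' hC huH h2, ?_⟩, kc_real hC hu huH h2⟩
  exact closed_cluster' hC huH (Conn.trans h2 (conn_edge h1))

/-- The outer corners of the declared cluster are outer corners of real clusters. -/
theorem real_corner (hC : Closed H ω) {k : Cor} (hk : k ∈ Oc (frz H A ω) a) (huH : vtx k ∉ H) :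
    k ∈ Oc ω (vtx k) :=
  ⟨Relation.ReflTransGen.refl, Out.anti (tc_real hC hk.1 huH) hk.2⟩

/-- The real cluster of a vertex of the declared cluster touches `A`. -/
theorem touch (ha : a ∈ Vs A) {u : ℤ × ℤ} (hu : u ∈ Kc (frz H A ω) a) :
    u ∈ Vs A ∨ ∃ v ∈ Vs A, Conn ω univ v u := by
  have hu' : Relation.ReflTransGen (Step (frz H A ω) univ) a u := hu
  induction hu' with
  | refl => exact Or.inl ha
  | @tail b c hb h2 ih =>
    obtain ⟨-, -, e, he, hh⟩ := h2
    rcases he with he | he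
    · left
      rcases hh with ⟨-, h3⟩ | ⟨h3, -⟩
      · exact ⟨e, he, Or.inr h3⟩
      · exact ⟨e, he, Or.inl h3⟩
    · right
      have h3 : Conn ω univ b c := .single ⟨trivial, trivial, e, he.1, hh⟩
      rcases ih hb with h4 | ⟨v, hv, h4⟩
      · exact ⟨b, h4, h3⟩
      · exact ⟨v, hv, h4.trans h3⟩

/-! ### Adaptivity -/

/-- The declared cluster and its filling are decided by the edges incident to the new set. -/
theorem kc_congr {ω₁ ω₂ : Set Ed} (h : ∀ e, (ea e ∈ Kc ω₁ a ∨ eb e ∈ Kc ω₁ a) → (e ∈ ω₁ ↔ e ∈ ω₂)) :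
    Kc ω₂ a = Kc ω₁ a := by
  have hsub1 : Kc ω₁ a ⊆ Kc ω₂ a := by
    intro u hu
    have hu' : Relation.ReflTransGen (Step ω₁ univ) a u := hu
    induction hu' with
    | refl => exact .refl
    | @tail b c hb h2 ih =>
      obtain ⟨-, -, e, he, hh⟩ := h2
      refine Conn.trans (ih hb) (.single ⟨trivial, trivial, e, (h e ?_).1 he, hh⟩)
      rcases hh with ⟨h3, -⟩ | ⟨-, h3⟩
      · left; rw [h3]; exact hb
      · right; rw [h3]; exact hb
  refine Subset.antisymm ?_ hsub1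
  intro u hu
  have hu' : Relation.ReflTransGen (Step ω₂ univ) a u := hu
  induction hu' with
  | refl => exact .refl
  | @tail b c hb h2 ih =>
    obtain ⟨-, -, e, he, hh⟩ := h2
    have hb' : b ∈ Kc ω₁ a := ih hb
    refine Conn.trans hb' (.single ⟨trivial, trivial, e, (h e ?_).2 he, hh⟩)
    rcases hh with ⟨h3, -⟩ | ⟨-, h3⟩
    · left; rw [h3]; exact hb'
    · right; rw [h3]; exact hb'

theorem tc_congr {ω₁ ω₂ : Set Ed} (h : ∀ e, (ea e ∈ Kc ω₁ a ∨ eb e ∈ Kc ω₁ a) → (e ∈ ω₁ ↔ e ∈ ω₂)) :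
    Tc ω₂ a = Tc ω₁ a := by
  have h1 := kc_congr h
  ext e
  constructor
  · rintro ⟨h2, h3⟩
    have h4 : ea e ∈ Kc ω₁ a := by rw [← h1]; exact h3
    exact ⟨(h e (Or.inl h4)).2 h2, h4⟩
  · rintro ⟨h2, h3⟩
    have h4 : ea e ∈ Kc ω₂ a := by rw [h1]; exact h3
    exact ⟨(h e (Or.inl h3)).1 h2, h4⟩

theorem hul_congr {ω₁ ω₂ : Set Ed} (h : ∀ e, (ea e ∈ Kc ω₁ a ∨ eb e ∈ Kc ω₁ a) → (e ∈ ω₁ ↔ e ∈ ω₂)) :
    Hul ω₂ a = Hul ω₁ a := by
  unfold Hul
  rw [kc_congr h, tc_congr h]

theorem frz_congr {ω₁ ω₂ : Set Ed} (h : ∀ e, (ea e ∈ Kc (frz H A ω₁) a ∨ eb e ∈ Kc (frz H A ω₁) a) →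
    (e ∈ ω₁ ↔ e ∈ ω₂)) (e : Ed) (he : ea e ∈ Kc (frz H A ω₁) a ∨ eb e ∈ Kc (frz H A ω₁) a) :
    e ∈ frz H A ω₁ ↔ e ∈ frz H A ω₂ := by
  unfold frz
  rw [mem_ofPred_eq, mem_ofPred_eq, h e he]

/-- The step is decided by the edges incident to the new hulls. -/
theorem step_congr {ω₁ ω₂ : Set Ed} (h : ∀ e, (ea e ∈ H ∪ Hul (frz H A ω₁) a ∨
    eb e ∈ H ∪ Hul (frz H A ω₁) a) → (e ∈ ω₁ ↔ e ∈ ω₂)) :
    Hul (frz H A ω₂) a = Hul (frz H A ω₁) a := by
  refine hul_congr (frz_congr fun e he => h e ?_)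
  exact he.imp (fun h1 => Or.inr (Or.inl h1)) fun h1 => Or.inr (Or.inl h1)

end Pool.Agent.SixB.Scan
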