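import Pool.Agent.Lib.SixB.S8ScanDefs
import Pool.Agent.Lib.SixB.S8ScanD

/-!
# Step 8: the invariants of the scan in the language of the remaining vertices
-/

set_option autoImplicit false

namespace Pool.Agent.SixB

open Set Pool.Agent.Perc Pool.Agent.PercD Pool.Agent.PercO Pool.Agent.SixB.Scan
open Pool.Agent.MP_6bd702.H23 Pool.Agent.MP_6bd702.H60
open Pool.Agent.PercU (Cor vtx fce nxt nxtE qry)
open Rule (Inv)

variable {n h : ℕ} {T : Finset Edg} {U : Finset (ℤ × ℤ)} {z : ℤ × ℤ}

/-- The removed vertices of the box. -/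
def Hc (n : ℕ) (U : Finset (ℤ × ℤ)) : Set (ℤ × ℤ) := {w | w ∈ Box n ∧ w ∉ U}

theorem mem_Box_iff {w : ℤ × ℤ} : w ∈ Box n ↔ 0 ≤ w.1 ∧ w.1 ≤ n ∧ 0 ≤ w.2 ∧ w.2 ≤ n := by
  unfold Box
  simp only [Finset.mem_product, Finset.mem_Icc]
  tauto

theorem mem_Ext_iff {w : ℤ × ℤ} : w ∈ Ext (n : ℤ) ↔ w ∉ Box n := by
  rw [mem_Box_iff]
  unfold Ext
  rw [mem_ofPred_eq]
  omega

theorem hc_or_ext (hU : U ⊆ Box n) {w : ℤ × ℤ} : (w ∈ Hc n U ∨ w ∈ Ext (n : ℤ)) ↔ w ∉ U := by
  rw [mem_Ext_iff]
  unfold Hc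
  rw [mem_ofPred_eq]
  constructor
  · rintro (h | h)
    · exact h.2
    · exact fun h' => h (hU h')
  · intro h
    by_cases h' : w ∈ Box n
    · exact Or.inl ⟨h', h⟩
    · exact Or.inr h'

theorem kst_iff (hU : U ⊆ Box n) {a b : ℤ × ℤ} : KSt (n : ℤ) (Hc n U) a b ↔ RAdj U a b := by
  unfold KSt RAdj sd
  rw [hc_or_ext hU, max_le_iff]
  tauto

theorem inv_iff (hT : T ⊆ boxE n) : Inv n T U ↔
    U ⊆ Box n ∧ Closed (Hc n U) (T : Set Ed) ∧ Att (n : ℤ) (Hc n U) := by
  constructor
  · rintro ⟨h1, h2, h3⟩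
    refine ⟨h1, fun e he => ?_, fun u hu => ?_⟩
    · have h4 := mem_boxE'.1 (hT he)
      have h5 := h2 e he
      rw [tl_eq, hd_eq] at h5
      unfold Hc
      rw [mem_ofPred_eq, mem_ofPred_eq, h5]
      tauto
    · obtain ⟨w, hw, hp⟩ := h3 u hu.2
      refine ⟨w, mem_Ext_iff.2 hw, ?_⟩
      have : KSt (n : ℤ) (Hc n U) = RAdj U := by
        funext a b; exact propext (kst_iff h1)
      rw [this]
      exact hp
  · rintro ⟨h1, h2, h3⟩
    refine ⟨h1, fun e he => ?_, fun w hw => ?_⟩
    · have h4 := mem_boxE'.1 (hT he)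
      have h5 := h2 e he
      unfold Hc at h5
      rw [mem_ofPred_eq, mem_ofPred_eq] at h5
      rw [tl_eq, hd_eq]
      tauto
    · have hK : KSt (n : ℤ) (Hc n U) = RAdj U := by
        funext a b; exact propext (kst_iff h1)
      rcases (hc_or_ext h1).2 hw with h | h
      · obtain ⟨w', hw', hp⟩ := h3 w h
        rw [hK] at hp
        exact ⟨w', mem_Ext_iff.1 hw', hp⟩
      · exact ⟨w, mem_Ext_iff.1 h, .refl⟩

theorem coe_rst (hT : T ⊆ boxE n) : ((rst T U : Finset Edg) : Set Ed) = frz (Hc n U) ∅ (T : Set Ed) := by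
  ext e
  unfold rst frz Hc
  rw [Finset.mem_coe, Finset.mem_filter, mem_ofPred_eq, mem_ofPred_eq, mem_ofPred_eq, tl_eq, hd_eq]
  constructor
  · rintro ⟨h1, h2, h3⟩
    exact Or.inr ⟨h1, fun h => h.2 h2, fun h => h.2 h3⟩
  · rintro (h | ⟨h1, h2, h3⟩)
    · exact absurd h (notMem_empty _)
    · have h4 := mem_boxE'.1 (hT h1)
      refine ⟨h1, ?_, ?_⟩
      · by_contra h; exact h2 ⟨h4.1, h⟩
      · by_contra h; exact h3 ⟨h4.2, h⟩

theorem coe_cfN (hT : T ⊆ boxE n) : ((cfN h T U z : Finset Edg) : Set Ed) =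
    frz (Hc n U) ((nedl h U z : Finset Edg) : Set Ed) (T : Set Ed) := by
  unfold cfN
  rw [Finset.coe_union, coe_rst hT]
  ext e
  unfold frz
  rw [mem_union, mem_ofPred_eq, mem_ofPred_eq]
  constructor
  · rintro ((h | h) | h)
    · exact absurd h (notMem_empty _)
    · exact Or.inr h
    · exact Or.inl h
  · rintro (h | h)
    · exact Or.inr h
    · exact Or.inl (Or.inr h)

/-! ### The staircase -/

theorem stair_zero (z : ℤ × ℤ) : stair z 0 = z := by
  obtain ⟨a, b⟩ := z
  simp [stair]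

theorem exists_notMem (U : Finset (ℤ × ℤ)) (z : ℤ × ℤ) : ∃ i, stair z i ∉ U := by
  by_contra hc
  push Not at hc
  have hinj : Function.Injective (stair z) := by
    intro i j hij
    unfold stair at hij
    simp only [Prod.mk.injEq] at hij
    omega
  exact Set.infinite_of_injective_forall_mem hinj (fun i => hc i) (Finset.finite_toSet U)

theorem stair_len (U : Finset (ℤ × ℤ)) (z : ℤ × ℤ) : stair z (len U z) ∉ U := by
  have : (len U z) ∈ {i | stair z i ∉ U} := Nat.sInf_mem (exists_notMem U z)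
  exact this

theorem stair_mem {i : ℕ} (hi : i < len U z) : stair z i ∈ U := by
  by_contra hc
  exact absurd (Nat.sInf_le (show i ∈ {i | stair z i ∉ U} from hc)) (not_le.2 hi)

theorem stairE_ends (z : ℤ × ℤ) (i : ℕ) :
    ea (stairE z i) = stair z (i + 1) ∧ eb (stairE z i) = stair z i := by
  unfold stairE stair
  rcases Nat.even_or_odd' i with ⟨k, rfl | rfl⟩
  · have e1 : decide ((2 * k) % 2 = 1) = false := decide_eq_false (by omega)
    have e2 : (2 * k + 1 + 1) / 2 = k + 1 := by omega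
    have e3 : (2 * k + 1) / 2 = k := by omega
    have e4 : (2 * k) / 2 = k := by omega
    rw [e1, ea_mk, eb_false, e2, e3, e4]
    refine ⟨rfl, ?_⟩
    rw [Prod.mk.injEq]
    push_cast
    constructor <;> ring
  · have e1 : decide ((2 * k + 1) % 2 = 1) = true := decide_eq_true (by omega)
    have e2 : (2 * k + 1 + 1 + 1) / 2 = k + 1 := by omega
    have e3 : (2 * k + 1 + 1) / 2 = k + 1 := by omega
    have e4 : (2 * k + 1) / 2 = k := by omega
    rw [e1, ea_mk, eb_true, e2, e3, e4]
    refine ⟨rfl, ?_⟩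
    rw [Prod.mk.injEq]
    push_cast
    constructor <;> ring

theorem sd_stair (z : ℤ × ℤ) (i : ℕ) : sd (stair z i) (stair z (i + 1)) ≤ 1 := by
  unfold sd stair
  simp only
  rw [max_le_iff, abs_le, abs_le]
  omega

theorem mem_nedl {e : Edg} : e ∈ nedl h U z ↔
    ∃ i, nEnd h U z ≤ i ∧ i < len U z - 1 ∧ stairE z i = e := by
  unfold nedl
  rw [Finset.mem_image]
  simp only [Finset.mem_Ico]
  constructor
  · rintro ⟨i, ⟨h1, h2⟩, h3⟩; exact ⟨i, h1, h2, h3⟩
  · rintro ⟨i, h1, h2, h3⟩; exact ⟨i, ⟨h1, h2⟩, h3⟩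

theorem nedl_ends {e : Edg} (he : e ∈ nedl h U z) : ea e ∈ U ∧ eb e ∈ U := by
  obtain ⟨i, -, h2, rfl⟩ := mem_nedl.1 he
  obtain ⟨e1, e2⟩ := stairE_ends z i
  rw [e1, e2]
  exact ⟨stair_mem (by omega), stair_mem (by omega)⟩

theorem nedl_sub (hU : U ⊆ Box n) : nedl h U z ⊆ boxE n := by
  intro e he
  obtain ⟨h1, h2⟩ := nedl_ends he
  exact mem_boxE'.2 ⟨hU h1, hU h2⟩

theorem nEnd_lt (hA : Act h U z) : nEnd h U z + h ≤ len U z - 1 ∧ nEnd h U z < len U z - 1 := by
  obtain ⟨hh, hL⟩ := hA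
  have h1 : h * ((len U z - 1 - h) / h) ≤ len U z - 1 - h := Nat.mul_div_le _ _
  unfold nEnd
  omega

theorem cfN_subset (hT : T ⊆ boxE n) (hU : U ⊆ Box n) : cfN h T U z ⊆ boxE n :=
  Finset.union_subset ((Finset.filter_subset _ _).trans hT) (nedl_sub hU)

theorem nBase_in (hA : Act h U z) : nBase U z ∈ U := by
  have := hA.1
  have := hA.2
  exact stair_mem (by omega)

/-! ### Swallowed vertices -/

theorem swal_eq_hul (v : ℤ × ℤ) : Swal T v = Hul (T : Set Ed) v := by
  ext w
  unfold Swal Hul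
  rw [mem_ofPred_eq, mem_ofPred_eq, clV_eq, outer_iff]
  have hf : fce ((w.1, w.2, true, true) : Cor) = w := rfl
  constructor
  · rintro (h | h)
    · exact Or.inl h
    · by_cases hw : w ∈ Kc (T : Set Ed) v
      · exact Or.inl hw
      · refine Or.inr fun k hk hout => h ?_
        have := out_of_notMem hw hk (k' := (w.1, w.2, true, true)) rfl hout
        rwa [hf] at this
  · rintro (h | h)
    · exact Or.inl h
    · right
      have := h (w.1, w.2, true, true) rfl
      rwa [hf] at this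

theorem mem_stp (hA : Act h U z) {w : ℤ × ℤ} : w ∈ stp h T U z ↔
    w ∈ U ∧ w ∉ Swal (cfN h T U z) (nBase U z) := by
  classical
  unfold stp
  rw [if_pos hA, Finset.mem_filter]

theorem stp_idle (hA : ¬ Act h U z) : stp h T U z = U := by
  classical
  unfold stp
  rw [if_neg hA]

theorem hc_stp (hA : Act h U z) (hT : T ⊆ boxE n) (hU : U ⊆ Box n) :
    Hc n (stp h T U z) =
      Hc n U ∪ Hul (frz (Hc n U) ((nedl h U z : Finset Edg) : Set Ed) (T : Set Ed)) (nBase U z) := by
  rw [← coe_cfN hT, ← swal_eq_hul]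
  ext w
  unfold Hc
  rw [mem_union, mem_ofPred_eq, mem_ofPred_eq, mem_stp hA]
  constructor
  · rintro ⟨h1, h2⟩
    by_cases hw : w ∈ U
    · right
      by_contra hc
      exact h2 ⟨hw, hc⟩
    · exact Or.inl ⟨h1, hw⟩
  · rintro (⟨h1, h2⟩ | h1)
    · exact ⟨h1, fun h => h2 h.1⟩
    · refine ⟨?_, fun h => h.2 h1⟩
      rw [swal_eq_hul, coe_cfN hT] at h1
      have h2 := hul_notMem_ext (n := (n : ℤ)) (boxE_sub (nedl_sub hU)) (boxE_sub hT)
        (a := nBase U z) (by rw [mem_Ext_iff, not_not]; exact hU (nBase_in hA)) h1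
      rw [mem_Ext_iff, not_not] at h2
      exact h2

theorem inv_box (hT : T ⊆ boxE n) : Inv n T (Box n) := by
  refine ⟨Finset.Subset.refl _, fun e he => ?_, fun w hw => ⟨w, hw, .refl⟩⟩
  have := mem_boxE'.1 (hT he)
  rw [tl_eq, hd_eq]
  exact ⟨fun _ => this.2, fun _ => this.1⟩

theorem inv_stp (hT : T ⊆ boxE n) (hI : Inv n T U) : Inv n T (stp h T U z) := by
  by_cases hA : Act h U z
  · obtain ⟨h1, h2, h3⟩ := (inv_iff hT).1 hI
    refine (inv_iff hT).2 ⟨?_, ?_, ?_⟩
    · intro w hw
      exact h1 ((mem_stp hA).1 hw).1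
    · rw [hc_stp hA hT h1]
      exact closed_step h2 _
    · rw [hc_stp hA hT h1]
      refine att_step (boxE_sub (nedl_sub h1)) (boxE_sub hT) h3 (v := nBase U z)
        (w := stair z (len U z)) Relation.ReflTransGen.refl ((hc_or_ext h1).2 (stair_len U z)) ?_
      have h4 := sd_stair z (len U z - 1)
      have h5 := hA.1
      have h6 := hA.2
      rw [show len U z - 1 + 1 = len U z by omega] at h4
      exact h4
  · rw [stp_idle hA]
    exact hI

theorem inv_st (hT : T ⊆ boxE n) (w : ℕ → ℤ × ℤ) (j : ℕ) : Inv n T (st n h w T j) := by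
  induction j with
  | zero => exact inv_box hT
  | succ j ih => exact inv_stp hT ih

/-! ### Clusters in `T` and in the remaining part -/

theorem clV_sub_of_inv (hI : Inv n T U) {v : ℤ × ℤ} (hv : v ∈ U) : clV T v ⊆ U := by
  intro w hw
  induction hw with
  | refl => exact hv
  | tail _ h2 ih =>
    obtain ⟨e, he, ⟨h3, h4⟩ | ⟨h3, h4⟩⟩ := h2
    · have := (hI.noCross e he).1 (by rw [h3]; exact ih)
      rwa [h4] at this
    · have := (hI.noCross e he).2 (by rw [h4]; exact ih)
      rwa [h3] at this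

theorem clV_rst (hI : Inv n T U) {v : ℤ × ℤ} (hv : v ∈ U) : clV (rst T U) v = clV T v := by
  ext w
  constructor
  · intro hw
    exact BoxAux.clV_mono (Finset.filter_subset _ _) v hw
  · intro hw
    induction hw with
    | refl => exact .refl
    | @tail b c h1 h2 ih =>
      refine .tail ih ?_
      have hb := clV_sub_of_inv hI hv h1
      have hc := clV_sub_of_inv hI hv (Relation.ReflTransGen.tail h1 h2)
      obtain ⟨e, he, hh⟩ := h2
      refine ⟨e, Finset.mem_filter.2 ⟨he, ?_⟩, hh⟩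
      rcases hh with ⟨h3, h4⟩ | ⟨h3, h4⟩ <;> rw [h3, h4]
      · exact ⟨hb, hc⟩
      · exact ⟨hc, hb⟩

theorem clS_rst (hI : Inv n T U) {v : ℤ × ℤ} (hv : v ∈ U) : clS (rst T U) v = clS T v := by
  unfold clS
  rw [clV_rst hI hv]
  congr 1
  ext p
  simp only [mem_iUnion, exists_prop]
  constructor
  · rintro ⟨e, he, h⟩
    exact ⟨e, (Finset.filter_subset _ _) he, h⟩
  · rintro ⟨e, he, h1, h2⟩
    have h3 : tl e ∈ U := clV_sub_of_inv hI hv h1
    exact ⟨e, Finset.mem_filter.2 ⟨he, h3, (hI.noCross e he).1 h3⟩, h1, h2⟩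

theorem outer_rst (hI : Inv n T U) {v : ℤ × ℤ} (hv : v ∈ U) (f : ℤ × ℤ) :
    Outer (rst T U) v f ↔ Outer T v f := by
  unfold Outer
  rw [clS_rst hI hv]

theorem outerCurve_rst (hT : T ⊆ boxE n) (hI : Inv n T U) {v : ℤ × ℤ} (hv : v ∈ U) :
    outerCurve n (rst T U) v = outerCurve n T v := by
  have hr : rst T U ⊆ boxE n := (Finset.filter_subset _ _).trans hT
  have hb : baseC (rst T U) v = baseC T v := by
    unfold baseC
    congr 1
    funext k
    rw [clV_rst hI hv, outer_rst hI hv]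
  obtain ⟨h1, h2⟩ := baseC_spec (u := v) hT
  have hnx : ∀ k : Cor, vtx k ∈ clV T v → nxt ((rst T U : Finset Edg) : Set Ed) k =
      nxt (T : Set Ed) k := by
    intro k hk
    refine PercU.nxt_congr ?_
    have hkU : vtx k ∈ U := clV_sub_of_inv hI hv hk
    rw [Finset.mem_coe, Finset.mem_coe]
    unfold rst
    rw [Finset.mem_filter]
    refine ⟨fun h => h.1, fun h => ⟨h, ?_⟩⟩
    have h3 := hI.noCross _ h
    rw [tl_eq, hd_eq] at h3 ⊢
    rcases qry_end k with h4 | h4
    · rw [h4] at h3 ⊢; exact ⟨hkU, h3.1 hkU⟩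
    · rw [h4] at h3 ⊢; exact ⟨h3.2 hkU, hkU⟩
  have hit : ∀ j : ℕ, (nxt ((rst T U : Finset Edg) : Set Ed))^[j] (baseC T v) =
      (nxt (T : Set Ed))^[j] (baseC T v) ∧ vtx ((nxt (T : Set Ed))^[j] (baseC T v)) ∈ clV T v := by
    intro j
    induction j with
    | zero => exact ⟨rfl, h1⟩
    | succ j ih =>
      rw [Function.iterate_succ_apply', Function.iterate_succ_apply', ih.1, hnx _ ih.2]
      refine ⟨rfl, ?_⟩
      rw [clV_eq] at ih ⊢
      exact vtx_nxt_mem ih.2
  have hper : Function.minimalPeriod (nxtE ((rst T U : Finset Edg) : Set Ed)) (baseC T v) =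
      Function.minimalPeriod (nxtE (T : Set Ed)) (baseC T v) := by
    have hq : ∀ p : ℕ, Function.IsPeriodicPt (nxtE ((rst T U : Finset Edg) : Set Ed)) p (baseC T v) ↔
        Function.IsPeriodicPt (nxtE (T : Set Ed)) p (baseC T v) := by
      intro p
      unfold Function.IsPeriodicPt Function.IsFixedPt
      have := (hit p).1
      change (nxt ((rst T U : Finset Edg) : Set Ed))^[p] (baseC T v) = baseC T v ↔
        (nxt (T : Set Ed))^[p] (baseC T v) = baseC T v
      rw [this]
    apply Nat.dvd_antisymm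
    · rw [← Function.isPeriodicPt_iff_minimalPeriod_dvd, hq]
      exact Function.isPeriodicPt_minimalPeriod _ _
    · rw [← Function.isPeriodicPt_iff_minimalPeriod_dvd, ← hq]
      exact Function.isPeriodicPt_minimalPeriod _ _
  have hp : 0 < Function.minimalPeriod (nxtE (T : Set Ed)) (baseC T v) := minimalPeriod_pos hT h1
  have hpos : posC n ((rst T U : Finset Edg) : Set Ed) (baseC T v) =
      posC n (T : Set Ed) (baseC T v) := by
    have h4 : Function.Periodic (posC n ((rst T U : Finset Edg) : Set Ed) (baseC T v))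
        ((Function.minimalPeriod (nxtE (T : Set Ed)) (baseC T v) : ℕ) : ℤ) := by
      intro j
      rw [← hper]
      exact posC_per _ _ _ j
    have h5 : Function.Periodic (posC n (T : Set Ed) (baseC T v))
        ((Function.minimalPeriod (nxtE (T : Set Ed)) (baseC T v) : ℕ) : ℤ) :=
      fun j => posC_per _ _ _ j
    funext j
    set p : ℕ := Function.minimalPeriod (nxtE (T : Set Ed)) (baseC T v) with hpdef
    have h6 : j = (j % (p : ℤ)) + (j / (p : ℤ)) * (p : ℤ) := by
      have := Int.emod_add_mul_ediv j (p : ℤ)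
      linarith [mul_comm (j / (p : ℤ)) (p : ℤ)]
    have a1 := h4.int_mul (j / (p : ℤ)) (j % (p : ℤ))
    have a2 := h5.int_mul (j / (p : ℤ)) (j % (p : ℤ))
    rw [Int.cast_id] at a1 a2
    rw [h6, a1, a2]
    have h7 : 0 ≤ j % (p : ℤ) := Int.emod_nonneg _ (by exact_mod_cast hp.ne')
    obtain ⟨i, hi⟩ := Int.eq_ofNat_of_zero_le h7
    rw [hi]
    unfold posC
    rw [zpow_natCast, zpow_natCast, iterate_nxt, iterate_nxt, (hit i).1]
  have key : ∀ (V V' : ℤ → ℂ) (p p' : ℕ) (h : ∀ j, V (j + p) = V j)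
      (h' : ∀ j, V' (j + p') = V' j), V = V' → p = p' → polyLoop V p h = polyLoop V' p' h' := by
    rintro V V' p p' h h' rfl rfl
    rfl
  unfold outerCurve
  rw [outerLoop_eq, outerLoop_eq, hb]
  congr 1
  exact key _ _ _ _ _ _ hpos hper

/-- A cluster which meets the swallowed set is swallowed. -/
theorem clV_sub_swal (hT : T ⊆ boxE n) (hI : Inv n T U) (hA : Act h U z) {v : ℤ × ℤ} (hv : v ∈ U)
    (hs : v ∈ Swal (cfN h T U z) (nBase U z)) :
    clV T v ⊆ Swal (cfN h T U z) (nBase U z) := by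
  intro w hw
  by_contra hc
  have hI' := inv_stp (h := h) (z := z) hT hI
  have hw' : w ∈ stp h T U z := (mem_stp hA).2 ⟨clV_sub_of_inv hI hv hw, hc⟩
  have hv' : v ∈ clV T w := by
    rw [clV_eq_of_mem hw]
    exact Relation.ReflTransGen.refl
  exact ((mem_stp hA).1 (clV_sub_of_inv hI' hw' hv')).2 hs

/-- No cluster which encloses the neighbourhood of a finished target can be left. -/
theorem fresh_contra (hI : Inv n T U) (hT : T ⊆ boxE n) (hh : 0 < h) (hA : ¬ Act h U z)
    {v : ℤ × ℤ} (hv : v ∈ U)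
    (hB : ∀ w : ℤ × ℤ, dist (toC w) (toC z) ≤ 4 * h → w ∈ Swal T v) : False := by
  have hL : len U z < 3 * h := by
    unfold Act at hA
    omega
  have hdist : ∀ i : ℕ, dist (toC (stair z i)) (toC z) ≤ i := by
    intro i
    induction i with
    | zero => rw [stair_zero, dist_self]; simp
    | succ i ih =>
      have h1 : dist (toC (stair z (i + 1))) (toC (stair z i)) ≤ 1 := by
        obtain ⟨e1, e2⟩ := stairE_ends z i
        rw [← e1, ← e2, dist_eq_norm]
        unfold stairE
        cases decide (i % 2 = 1)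
        · rw [ea_mk, eb_false]
          have : toC ((stair z (i + 1)).1, (stair z (i + 1)).2) -
              toC ((stair z (i + 1)).1 + 1, (stair z (i + 1)).2) = -1 := by
            simp [toC]
          rw [this]; simp
        · rw [ea_mk, eb_true]
          have : toC ((stair z (i + 1)).1, (stair z (i + 1)).2) -
              toC ((stair z (i + 1)).1, (stair z (i + 1)).2 + 1) = -Complex.I := by
            simp [toC]; ring
          rw [this]; simp
      refine (dist_triangle _ (toC (stair z i)) _).trans ?_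
      push_cast
      linarith
  have h1 := hB (stair z (len U z)) ((hdist _).trans (by
    have : ((len U z : ℕ) : ℝ) ≤ ((3 * h : ℕ) : ℝ) := by exact_mod_cast hL.le
    push_cast at this
    have h0 : (0 : ℝ) ≤ h := Nat.cast_nonneg h
    linarith))
  have hw := stair_len U z
  rcases h1 with h1 | h1
  · exact hw (clV_sub_of_inv hI hv h1)
  · apply h1
    rw [outer_iff]
    obtain ⟨hU, hC, hAtt⟩ := (inv_iff hT).1 hI
    have hTc : Tc (T : Set Ed) v ⊆ EW 0 (n : ℤ) 0 n := Tc_sub.trans (boxE_sub hT)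
    have hvH : v ∉ Hc n U := fun h => h.2 hv
    rcases (hc_or_ext hU).2 hw with h2 | h2
    · exact att_out (k := ((stair z (len U z)).1, (stair z (len U z)).2, true, true)) hTc hAtt
        (fun e he => ⟨closed_cluster' hC hvH he.2,
          closed_cluster' hC hvH (Conn.trans he.2 (conn_edge he.1))⟩) h2
    · exact ext_out (k := ((stair z (len U z)).1, (stair z (len U z)).2, true, true)) hTc h2

/-- From a point which is not outside there is a point of the cluster farther away. -/
theorem exists_farther {T : Finset Edg} {u : ℤ × ℤ} {p : ℂ} (hp : p ∉ outU T u) (q : ℂ) :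
    ∃ p' ∈ clS T u, dist p q ≤ dist p' q := by
  by_cases h1 : p ∈ clS T u
  · exact ⟨p, h1, le_rfl⟩
  rcases eq_or_ne p q with h0 | h0
  · exact ⟨toC u, Perc.PercD.toC_mem_clS (BoxAux.mem_clV_self T u), by rw [h0, dist_self]; exact dist_nonneg⟩
  by_contra hc
  push Not at hc
  have hd : 0 < dist p q := dist_pos.2 h0
  set f : ℝ → ℂ := fun t => p + (t : ℂ) * (p - q) with hf
  have hfc : Continuous f := by fun_prop
  have hdist : ∀ t : ℝ, 0 ≤ t → dist (f t) q = (1 + t) * dist p q := by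
    intro t ht
    rw [dist_eq_norm, dist_eq_norm, hf]
    have : p + (t : ℂ) * (p - q) - q = ((1 + t : ℝ) : ℂ) * (p - q) := by
      push_cast; ring
    simp only [this]
    rw [norm_mul, Complex.norm_real, Real.norm_eq_abs, abs_of_nonneg (by linarith)]
  have hsub : f '' Ici 0 ⊆ (clS T u)ᶜ := by
    rintro _ ⟨t, ht, rfl⟩ hcon
    have h1 := hc _ hcon
    rw [hdist t ht] at h1
    have h2 : 0 ≤ t * dist p q := mul_nonneg ht hd.le
    linarith
  have hcon : IsPreconnected (f '' Ici 0) := isPreconnected_Ici.image _ hfc.continuousOn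
  have h0m : p ∈ f '' Ici 0 := ⟨0, self_mem_Ici, by rw [hf]; simp⟩
  have hsub' := hcon.subset_connectedComponentIn h0m hsub
  have hb : Bornology.IsBounded (connectedComponentIn (clS T u)ᶜ p) := by
    by_contra hb
    exact hp hb
  obtain ⟨R, hR⟩ := (hb.subset hsub').subset_closedBall q
  have hpos : 0 < (|R| + 1) / dist p q := by positivity
  have h2 := hR ⟨(|R| + 1) / dist p q, hpos.le, rfl⟩
  rw [Metric.mem_closedBall, hdist _ hpos.le, add_mul, div_mul_cancel₀ _ hd.ne'] at h2
  have := le_abs_self R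
  linarith

theorem mem_clV_of_toC {T : Finset Edg} {u w : ℤ × ℤ} (h : toC w ∈ clS T u) : w ∈ clV T u := by
  rcases BoxAux.mem_clS.1 h with ⟨w', hw', h1⟩ | ⟨⟨x, y, b⟩, he, h1, h2⟩
  · have e1 := congrArg Complex.re h1
    have e2 := congrArg Complex.im h1
    rw [DictC.toC_re, DictC.toC_re] at e1
    rw [DictC.toC_im, DictC.toC_im] at e2
    have : w' = w := Prod.ext (by exact_mod_cast e1) (by exact_mod_cast e2)
    rw [← this]; exact hw'
  · have h3 := (BoxAux.tl_mem_iff he).1 h1
    cases b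
    · have h2' : toC w ∈ segment ℝ (toC (x, y)) (toC (x + 1, y)) := by simpa [tl, hd] using h2
      obtain ⟨c1, c2, c3⟩ := DictC.seg_h h2'
      rw [DictC.toC_re] at c1 c2
      rw [DictC.toC_im] at c3
      have c1' : x ≤ w.1 := by exact_mod_cast c1
      have c2' : w.1 ≤ x + 1 := by exact_mod_cast c2
      have c3' : w.2 = y := by exact_mod_cast c3
      rcases (by omega : w.1 = x ∨ w.1 = x + 1) with hh | hh
      · have : w = tl (x, y, false) := Prod.ext hh c3'
        rw [this]; exact h1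
      · have : w = hd (x, y, false) := Prod.ext (by simpa [hd] using hh) (by simpa [hd] using c3')
        rw [this]; exact h3
    · have h2' : toC w ∈ segment ℝ (toC (x, y)) (toC (x, y + 1)) := by simpa [tl, hd] using h2
      obtain ⟨c1, c2, c3⟩ := DictC.seg_v h2'
      rw [DictC.toC_re] at c1
      rw [DictC.toC_im] at c2 c3
      have c1' : w.1 = x := by exact_mod_cast c1
      have c2' : y ≤ w.2 := by exact_mod_cast c2
      have c3' : w.2 ≤ y + 1 := by exact_mod_cast c3
      rcases (by omega : w.2 = y ∨ w.2 = y + 1) with hh | hh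
      · have : w = tl (x, y, true) := Prod.ext c1' hh
        rw [this]; exact h1
      · have : w = hd (x, y, true) := Prod.ext (by simpa [hd] using c1') (by simpa [hd] using hh)
        rw [this]; exact h3

theorem swal_not_outU {T : Finset Edg} {u w : ℤ × ℤ} (h : w ∈ Swal T u) :
    toC w ∉ outU T u := by
  by_cases h1 : w ∈ clV T u
  · exact Perc.PercD.not_mem_outU (Perc.PercD.toC_mem_clS h1)
  have h2 : ¬ Outer T u w := h.resolve_left h1
  intro h3
  apply h2
  have hseg : segment ℝ (toC w) (ctr w) ⊆ (clS T u)ᶜ := by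
    intro p hp hcl
    have hp' : ∃ s : ℝ, 0 ≤ s ∧ s ≤ 1 ∧ p.re = w.1 + s / 2 ∧ p.im = w.2 + s / 2 := by
      obtain ⟨s, t, hs, ht, hst, rfl⟩ := hp
      refine ⟨t, ht, by linarith, ?_, ?_⟩
      · simp only [Complex.add_re, Complex.real_smul, Complex.mul_re,
          Complex.ofReal_re, Complex.ofReal_im, zero_mul, sub_zero, DictC.ctr_re, DictC.toC_re]
        have : s = 1 - t := by linarith
        subst this
        ring
      · simp only [Complex.add_im, Complex.real_smul, Complex.mul_im,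
          Complex.ofReal_re, Complex.ofReal_im, zero_mul, add_zero, DictC.ctr_im, DictC.toC_im]
        have : s = 1 - t := by linarith
        subst this
        ring
    obtain ⟨s, hs0, hs1, e1, e2⟩ := hp'
    rcases hs0.eq_or_lt with h0 | h0
    · have : p = toC w := by
        apply Complex.ext
        · rw [e1, DictC.toC_re, ← h0]; ring
        · rw [e2, DictC.toC_im, ← h0]; ring
      rw [this] at hcl
      exact h1 (mem_clV_of_toC hcl)
    · have key : ∀ (a b : ℤ), (a : ℝ) + s / 2 ≠ b := by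
        intro a b hab
        have h5 : ((b - a : ℤ) : ℝ) = s / 2 := by push_cast; linarith
        have h6 : (0 : ℝ) < ((b - a : ℤ) : ℝ) := by rw [h5]; linarith
        have h7 : ((b - a : ℤ) : ℝ) < 1 := by rw [h5]; linarith
        have h6' : 0 < b - a := by exact_mod_cast h6
        have h7' : b - a < 1 := by exact_mod_cast h7
        omega
      rcases DictC.clS_cases hcl with ⟨v, hw1, hw2⟩ | ⟨c, d, _, _, _, h6⟩ | ⟨c, d, _, h4, _, _⟩
      · exact key _ _ (e1.symm.trans hw1)
      · exact key _ _ (e2.symm.trans h6)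
      · exact key _ _ (e1.symm.trans h4)
  exact (Perc.PercD.mem_outU_iff (convex_segment _ _).isPreconnected hseg
    (left_mem_segment ℝ _ _) (right_mem_segment ℝ _ _)).1 h3

/-- The swallowed set is not wider than the cluster. -/
theorem diam_clS_le_of_swal (hT : T ⊆ boxE n) (hI : Inv n T U) (hA : Act h U z) {v : ℤ × ℤ}
    (hv : v ∈ U) (hs : v ∈ Swal (cfN h T U z) (nBase U z)) :
    Metric.diam (clS T v) ≤ Metric.diam (clS (cfN h T U z) (nBase U z)) := by
  have hsub := clV_sub_swal hT hI hA hv hs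
  have hK := Perc.PercD.isCompact_clS (cfN h T U z) (nBase U z)
  have h1 : clS T v ⊆ convexHull ℝ (toC '' clV T v) := by
    intro p hp
    obtain ⟨a, ha, b, hb, hab⟩ := SmallClusters.mem_clS hp
    have ha' : toC a ∈ toC '' clV T v := ⟨a, ha, rfl⟩
    have hb' : toC b ∈ toC '' clV T v := ⟨b, hb, rfl⟩
    exact (convex_convexHull ℝ _).segment_subset (subset_convexHull ℝ _ ha')
      (subset_convexHull ℝ _ hb') hab
  have hbd : Bornology.IsBounded (toC '' clV T v) :=
    (Perc.PercD.isCompact_clS T v).isBounded.subset (by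
      rintro _ ⟨w, hw, rfl⟩; exact Perc.PercD.toC_mem_clS hw)
  refine (Metric.diam_mono h1 (isBounded_convexHull.2 hbd)).trans ?_
  rw [convexHull_diam]
  refine Metric.diam_le_of_forall_dist_le Metric.diam_nonneg ?_
  rintro _ ⟨a, ha, rfl⟩ _ ⟨b, hb, rfl⟩
  obtain ⟨p, hp, hp'⟩ := exists_farther (swal_not_outU (hsub ha)) (toC b)
  obtain ⟨q, hq, hq'⟩ := exists_farther (swal_not_outU (hsub hb)) p
  rw [dist_comm (toC b) p, dist_comm q p] at hq'
  exact (hp'.trans hq').trans (Metric.dist_le_diam_of_mem hK.isBounded hp hq)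

end Pool.Agent.SixB
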