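import Pool.Agent.Lib.SixB.S8Dict
import Pool.Agent.Lib.SixB.S8Expl
import Pool.Agent.Lib.SixB.S8ScanU
import Pool.Agent.Lib.SixB.TopEsc

/-!
# Step 8: dictionary between the corners of the square lattice and the unit edges of the face grid

The corners of the square lattice are the unit edges of the face grid (`kE`), a set of open edges
`T` is the configuration `gT T` of the faces, and the corner walk `nxt T` is the strand
`nx (gT T)`. The walls of an exploration are a frozen configuration: `mix U ω (gT Q)` is the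
configuration with the open edges of `ω` in `U` and of `Q` off `U`.

* `kU_nxt`, `kU_iterate`: the corner walk is the strand.
* `FU U`: the faces of the edges with both ends in `U`; `QF Q`: the faces of the edges of `Q`.
* `gT_cfg`: the configuration of `rst T U ∪ Q` is `ω` on `FU U \ QF Q` and frozen elsewhere.
* `NdF U Q k`: `Q` is a needle with base corner `k`; `NdF.mem_Oc`: `k` is an outer corner;
  `NdF.mem_clV`: the needle is in the cluster of the base.
* `esc_FU`, `NdF.esc`: `FU U` and `FU U \ QF Q` have no holes.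
-/

set_option autoImplicit false

namespace Pool.Agent.SixB.Dct

open Finset Pool.Agent.Perc Pool.Agent.PercU Pool.Agent.PercT Pool.Agent.PercX60
open Pool.Agent.MP_6bd702.H23 (Ed ea eb ea_mk eb_true eb_false)
open Pool.Agent.PercO (mem_boxE' tl_eq hd_eq)
open Pool.Agent.SixB Pool.Agent.SixB.Rule

/-! ### Corners and unit edges -/

/-- The unit edge of a corner. -/
def kU : Cor → UE
  | (x, y, true, true) => (x + y, x - y, false)
  | (x, y, false, true) => (x + y, x - y - 1, true)
  | (x, y, false, false) => (x + y - 1, x - y, false)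
  | (x, y, true, false) => (x + y, x - y, true)

/-- The corner of a unit edge. -/
def uK (a : UE) : Cor :=
  if (a.1 + a.2.1) % 2 = 0 then ((a.1 + a.2.1) / 2, (a.1 - a.2.1) / 2, true, !a.2.2)
  else if a.2.2 then ((a.1 + a.2.1 + 1) / 2, (a.1 - a.2.1 - 1) / 2, false, true)
  else ((a.1 + a.2.1 + 1) / 2, (a.1 - a.2.1 + 1) / 2, false, false)

theorem uK_kU (k : Cor) : uK (kU k) = k := by
  obtain ⟨x, y, _ | _, _ | _⟩ := k
  · have h : ¬ (x + y - 1 + (x - y)) % 2 = 0 := by omega
    simp only [kU, uK, h, if_false, Bool.false_eq_true, Prod.mk.injEq, and_true]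
    omega
  · have h : ¬ (x + y + (x - y - 1)) % 2 = 0 := by omega
    simp only [kU, uK, h, if_false, if_true, Prod.mk.injEq, and_true]
    omega
  · have h : (x + y + (x - y)) % 2 = 0 := by omega
    simp only [kU, uK, h, if_true, Bool.not_true, Prod.mk.injEq, and_true]
    omega
  · have h : (x + y + (x - y)) % 2 = 0 := by omega
    simp only [kU, uK, h, if_true, Bool.not_false, Prod.mk.injEq, and_true]
    omega

theorem kU_uK (a : UE) : kU (uK a) = a := by
  obtain ⟨X, Y, d⟩ := a
  by_cases h : (X + Y) % 2 = 0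
  · cases d <;> simp only [uK, h, if_true, Bool.not_true, Bool.not_false, kU, Prod.mk.injEq,
      and_true] <;> omega
  · cases d <;> simp only [uK, h, if_false, if_true, Bool.false_eq_true, kU, Prod.mk.injEq,
      and_true] <;> omega

/-- The corners are the unit edges. -/
def kE : Cor ≃ UE := ⟨kU, uK, uK_kU, kU_uK⟩

theorem kU_injective : Function.Injective kU := kE.injective

theorem joins_kU (k : Cor) : (gV k = ua (kU k) ∧ gF k = ub (kU k)) ∨
    (gV k = ub (kU k) ∧ gF k = ua (kU k)) := by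
  obtain ⟨x, y, _ | _, _ | _⟩ := k
  · right
    constructor <;> refine Prod.ext ?_ ?_ <;> simp [gV, gF, phiV, phiF, vtx, fce, kU, ua, ub] <;>
      omega
  · right
    constructor <;> refine Prod.ext ?_ ?_ <;> simp [gV, gF, phiV, phiF, vtx, fce, kU, ua, ub] <;>
      omega
  · left
    constructor <;> refine Prod.ext ?_ ?_ <;> simp [gV, gF, phiV, phiF, vtx, fce, kU, ua, ub] <;>
      omega
  · left
    constructor <;> refine Prod.ext ?_ ?_ <;> simp [gV, gF, phiV, phiF, vtx, fce, kU, ua, ub] <;>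
      omega

theorem par_gV (k : Cor) : par (gV k) = 0 := by
  simp only [par, gV, phiV]
  omega

theorem par_gF (k : Cor) : par (gF k) = 1 := by
  simp only [par, gF, phiF]
  omega

theorem en0_kU (k : Cor) : en 0 (kU k) = gV k := by
  refine en_eq (par_gV k) ?_
  rcases joins_kU k with ⟨h, -⟩ | ⟨h, -⟩
  · exact Or.inl h
  · exact Or.inr h

theorem en1_kU (k : Cor) : en 1 (kU k) = gF k := by
  refine en_eq (par_gF k) ?_
  rcases joins_kU k with ⟨-, h⟩ | ⟨-, h⟩
  · exact Or.inr h
  · exact Or.inl h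

theorem fa_kU (k : Cor) : fa (kU k) = phiE (qry k) := by
  obtain ⟨x, y, _ | _, _ | _⟩ := k
  · have h : par (x + y - 1, x - y) = 1 := by simp only [par]; omega
    refine Prod.ext ?_ ?_ <;> simp [kU, fa, ua, h, qry, phiE] <;> omega
  · have h : par (x + y, x - y - 1) = 1 := by simp only [par]; omega
    refine Prod.ext ?_ ?_ <;> simp [kU, fa, ua, h, qry, phiE] <;> omega
  · have h : par (x + y, x - y) = 0 := by simp only [par]; omega
    refine Prod.ext ?_ ?_ <;> simp [kU, fa, ua, h, qry, phiE]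
  · have h : par (x + y, x - y) = 0 := by simp only [par]; omega
    refine Prod.ext ?_ ?_ <;> simp [kU, fa, ua, h, qry, phiE]

theorem fb_kU (k : Cor) : fb (kU k) = phiE (qryb k) := by
  obtain ⟨x, y, _ | _, _ | _⟩ := k
  · have h : par (x + y - 1, x - y) = 1 := by simp only [par]; omega
    refine Prod.ext ?_ ?_ <;> simp [kU, fb, ua, h, qryb, phiE] <;> omega
  · have h : par (x + y, x - y - 1) = 1 := by simp only [par]; omega
    refine Prod.ext ?_ ?_ <;> simp [kU, fb, ua, h, qryb, phiE]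
  · have h : par (x + y, x - y) = 0 := by simp only [par]; omega
    refine Prod.ext ?_ ?_ <;> simp [kU, fb, ua, h, qryb, phiE] <;> omega
  · have h : par (x + y, x - y) = 0 := by simp only [par]; omega
    refine Prod.ext ?_ ?_ <;> simp [kU, fb, ua, h, qryb, phiE] <;> omega

/-- **The corner walk is the strand.** -/
theorem kU_nxt {T : Set Ed} {ω : Cfg} {k : Cor} (h : qry k ∈ T ↔ ω (phiE (qry k)) = !(qry k).2.2) :
    kU (nxt T k) = nx ω (kU k) := by
  unfold nx
  rw [fa_kU]
  unfold nxt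
  by_cases hq : qry k ∈ T
  · rw [if_pos hq]
    have hw := h.1 hq
    obtain ⟨x, y, _ | _, _ | _⟩ := k
    · have e1 : qry (x, y, false, false) = (x, y - 1, true) := rfl
      rw [e1] at hw ⊢
      have e2 : phiE (x, y - 1, true) = (x + y - 1, x - y) := by
        simp only [phiE, if_true, Prod.mk.injEq]; omega
      rw [e2] at hw ⊢
      have e3 : kU (x, y, false, false) = bo (x + y - 1, x - y) := rfl
      have e4 : kU (adv (x, y, false, false)) = le' (x + y - 1, x - y) := by
        simp only [adv, kU, le', Prod.mk.injEq, and_true]; omega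
      rw [e3, e4]
      unfold pn
      rw [hw]
      simp
    · have e1 : qry (x, y, false, true) = (x - 1, y, false) := rfl
      rw [e1] at hw ⊢
      have e2 : phiE (x - 1, y, false) = (x + y - 1, x - y - 1) := by
        simp only [phiE, Bool.false_eq_true, if_false, Prod.mk.injEq]; omega
      rw [e2] at hw ⊢
      have e3 : kU (x, y, false, true) = ri (x + y - 1, x - y - 1) := by
        simp only [kU, ri, Prod.mk.injEq, and_true]; omega
      have e4 : kU (adv (x, y, false, true)) = bo (x + y - 1, x - y - 1) := by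
        simp only [adv, kU, bo, Prod.mk.injEq, and_true]; omega
      rw [e3, e4]
      unfold pn
      rw [hw]
      simp [bo_ne_ri.symm]
    · have e1 : qry (x, y, true, false) = (x, y, false) := rfl
      rw [e1] at hw ⊢
      have e2 : phiE (x, y, false) = (x + y, x - y) := by
        simp only [phiE, Bool.false_eq_true, if_false]
      rw [e2] at hw ⊢
      have e3 : kU (x, y, true, false) = le' (x + y, x - y) := rfl
      have e4 : kU (adv (x, y, true, false)) = to' (x + y, x - y) := by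
        simp only [adv, kU, to', Prod.mk.injEq, and_true]; omega
      rw [e3, e4]
      unfold pn
      rw [hw]
      simp [bo_ne_le.symm, le_ne_ri]
    · have e1 : qry (x, y, true, true) = (x, y, true) := rfl
      rw [e1] at hw ⊢
      have e2 : phiE (x, y, true) = (x + y, x - y - 1) := by
        simp only [phiE, if_true]
      rw [e2] at hw ⊢
      have e3 : kU (x, y, true, true) = to' (x + y, x - y - 1) := by
        simp only [kU, to', Prod.mk.injEq, and_true, true_and]; omega
      have e4 : kU (adv (x, y, true, true)) = ri (x + y, x - y - 1) := by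
        simp only [adv, kU, ri, Prod.mk.injEq, and_true]; omega
      rw [e3, e4]
      unfold pn
      rw [hw]
      simp [bo_ne_to.symm, le_ne_to.symm]
  · rw [if_neg hq]
    have hw : ω (phiE (qry k)) = (qry k).2.2 := by
      have h1 : ¬ ω (phiE (qry k)) = !(qry k).2.2 := fun h2 => hq (h.2 h2)
      revert h1
      cases ω (phiE (qry k)) <;> cases (qry k).2.2 <;> simp
    obtain ⟨x, y, _ | _, _ | _⟩ := k
    · have e1 : qry (x, y, false, false) = (x, y - 1, true) := rfl
      rw [e1] at hw ⊢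
      have e2 : phiE (x, y - 1, true) = (x + y - 1, x - y) := by
        simp only [phiE, if_true, Prod.mk.injEq]; omega
      rw [e2] at hw ⊢
      have e3 : kU (x, y, false, false) = bo (x + y - 1, x - y) := rfl
      have e4 : kU (rot (x, y, false, false)) = ri (x + y - 1, x - y) := by
        simp only [rot, kU, ri, Prod.mk.injEq, and_true]; omega
      rw [e3, e4]
      unfold pn
      rw [hw]
      simp
    · have e1 : qry (x, y, false, true) = (x - 1, y, false) := rfl
      rw [e1] at hw ⊢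
      have e2 : phiE (x - 1, y, false) = (x + y - 1, x - y - 1) := by
        simp only [phiE, Bool.false_eq_true, if_false, Prod.mk.injEq]; omega
      rw [e2] at hw ⊢
      have e3 : kU (x, y, false, true) = ri (x + y - 1, x - y - 1) := by
        simp only [kU, ri, Prod.mk.injEq, and_true]; omega
      have e4 : kU (rot (x, y, false, true)) = to' (x + y - 1, x - y - 1) := by
        simp only [rot, kU, to', Prod.mk.injEq, and_true, true_and]; omega
      rw [e3, e4]
      unfold pn
      rw [hw]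
      simp [bo_ne_ri.symm, le_ne_ri.symm, to_ne_ri.symm]
    · have e1 : qry (x, y, true, false) = (x, y, false) := rfl
      rw [e1] at hw ⊢
      have e2 : phiE (x, y, false) = (x + y, x - y) := by
        simp only [phiE, Bool.false_eq_true, if_false]
      rw [e2] at hw ⊢
      have e3 : kU (x, y, true, false) = le' (x + y, x - y) := rfl
      have e4 : kU (rot (x, y, true, false)) = bo (x + y, x - y) := rfl
      rw [e3, e4]
      unfold pn
      rw [hw]
      simp [bo_ne_le.symm]
    · have e1 : qry (x, y, true, true) = (x, y, true) := rfl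
      rw [e1] at hw ⊢
      have e2 : phiE (x, y, true) = (x + y, x - y - 1) := by
        simp only [phiE, if_true]
      rw [e2] at hw ⊢
      have e3 : kU (x, y, true, true) = to' (x + y, x - y - 1) := by
        simp only [kU, to', Prod.mk.injEq, and_true, true_and]; omega
      have e4 : kU (rot (x, y, true, true)) = le' (x + y, x - y - 1) := by
        simp only [rot, kU, le']
      rw [e3, e4]
      unfold pn
      rw [hw]
      simp [bo_ne_to.symm, le_ne_to.symm, to_ne_ri]

theorem kU_nxt_gT (T : Set Ed) (k : Cor) : kU (nxt T k) = nx (gT T) (kU k) :=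
  kU_nxt (gT_phiE T (qry k)).symm

theorem kU_iterate (T : Set Ed) (k : Cor) (j : ℕ) : kU ((nxt T)^[j] k) = pth (gT T) (kU k) j := by
  induction j with
  | zero => rfl
  | succ j ih => rw [Function.iterate_succ_apply', kU_nxt_gT, ih, pth_succ]

theorem pth_kU (ω : Cfg) (k : Cor) {T : Set Ed} (h : ω = gT T) (j : ℕ) :
    pth ω (kU k) j = kU ((nxt T)^[j] k) := by
  rw [h, kU_iterate]

/-! ### Fresh faces -/

/-- The faces of the edges with both ends in `U`. -/
def FU (U : Finset (ℤ × ℤ)) : Set (ℤ × ℤ) := {f | ea (eE f) ∈ U ∧ eb (eE f) ∈ U}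

/-- The faces of the edges of `Q`. -/
def QF (Q : Finset Edg) : Set (ℤ × ℤ) := {f | eE f ∈ Q}

theorem gT_eq {S : Set Ed} {ω : Cfg} {f : ℤ × ℤ} (h : eE f ∈ S ↔ ω f = !(eE f).2.2) :
    gT S f = ω f := by
  have h1 := gT_eE S f
  rw [h] at h1
  cases h2 : gT S f <;> cases h3 : ω f <;> cases h4 : (eE f).2.2 <;> simp_all

theorem gT_congr {S S' : Set Ed} {f : ℤ × ℤ} (h : eE f ∈ S ↔ eE f ∈ S') : gT S f = gT S' f :=
  gT_eq (h.trans (gT_eE S' f).symm)

variable {n : ℕ} {U : Finset (ℤ × ℤ)} {Q : Finset Edg} {T : Finset Edg} {k₀ : Cor}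

/-- The edges of a fresh face are edges of the box. -/
theorem eE_mem_boxE (hU : U ⊆ Box n) {f : ℤ × ℤ} (hf : f ∈ FU U) : eE f ∈ boxE n :=
  mem_boxE'.2 ⟨hU hf.1, hU hf.2⟩

/-- **The frozen configuration** of a step of the scan. -/
theorem gT_cfg (hU : U ⊆ Box n) (Q : Finset Edg) (ω : Cfg) :
    gT ((rst (cfgE n ω) U ∪ Q : Finset Edg) : Set Ed) =
      mix (FU U \ QF Q) ω (gT (Q : Set Ed)) := by
  funext f
  by_cases hf : f ∈ FU U \ QF Q
  · rw [mix_of_mem hf]
    refine gT_eq ?_
    have hQ : eE f ∉ Q := hf.2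
    rw [Finset.mem_coe, Finset.mem_union, rst, Finset.mem_filter, tl_eq, hd_eq, DictB.mem_cfgE,
      phiE_eE]
    constructor
    · rintro (⟨⟨-, h⟩, -⟩ | h)
      · exact h
      · exact absurd h hQ
    · exact fun h => Or.inl ⟨⟨eE_mem_boxE hU hf.1, h⟩, hf.1⟩
  · rw [mix_of_notMem hf]
    refine gT_congr ?_
    rw [Finset.mem_coe, Finset.mem_coe, Finset.mem_union, rst, Finset.mem_filter, tl_eq, hd_eq]
    constructor
    · rintro (⟨-, h⟩ | h)
      · by_contra hQ
        exact hf ⟨h, hQ⟩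
      · exact h
    · exact Or.inr

/-! ### Needles -/

/-- A needle with base corner `k₀`: behind the corner there is an edge to a removed vertex, and the
faces of the needle are joined to the face of this edge by steps to adjacent faces. -/
structure NdF (U : Finset (ℤ × ℤ)) (Q : Finset Edg) (k₀ : Cor) : Prop where
  ends : ∀ e ∈ Q, ea e ∈ U ∧ eb e ∈ U
  base : vtx k₀ ∈ U
  wall : vtx (advb k₀) ∉ U
  chain : ∀ f ∈ QF Q, Relation.ReflTransGen (fun f g => AdjF f g ∧ g ∈ QF Q) (phiE (qryb k₀)) f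

/-- The faces around the vertex `v` of the face grid. -/
def Sq (v f : ℤ × ℤ) : Prop := (f.1 = v.1 ∨ f.1 = v.1 - 1) ∧ (f.2 = v.2 ∨ f.2 = v.2 - 1)

/-- The faces around a vertex of the square lattice are the faces of its edges. -/
theorem sq_phiV {w f : ℤ × ℤ} : Sq (phiV w) f ↔ ea (eE f) = w ∨ eb (eE f) = w := by
  obtain ⟨X, Y⟩ := f
  obtain ⟨x, y⟩ := w
  by_cases h : (X + Y) % 2 = 0
  · have e1 : eE (X, Y) = ((X + Y) / 2, (X - Y) / 2, false) := by simp only [eE, h, if_true]
    rw [e1, ea_mk, eb_false]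
    simp only [Sq, phiV, Prod.mk.injEq]
    omega
  · have e1 : eE (X, Y) = ((X + Y + 1) / 2, (X - Y - 1) / 2, true) := by
      simp only [eE, h, if_false]
    rw [e1, ea_mk, eb_true]
    simp only [Sq, phiV, Prod.mk.injEq]
    omega

theorem sq_notMem {w f : ℤ × ℤ} (hw : w ∉ U) (h : Sq (phiV w) f) : f ∉ FU U := by
  rintro ⟨h1, h2⟩
  rcases sq_phiV.1 h with h3 | h3
  · rw [h3] at h1; exact hw h1
  · rw [h3] at h2; exact hw h2

/-- The faces around a vertex are joined. -/
theorem sq_chain {F : Set (ℤ × ℤ)} {v f g : ℤ × ℤ} (hF : ∀ h, Sq v h → h ∉ F) (hf : Sq v f)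
    (hg : Sq v g) : Relation.ReflTransGen (StepC F) f g := by
  obtain ⟨a, b⟩ := f
  obtain ⟨c, d⟩ := g
  have h0 : Sq v (c, b) := ⟨hg.1, hf.2⟩
  have s1 : Relation.ReflTransGen (StepC F) (a, b) (c, b) := by
    by_cases h : a = c
    · rw [h]
    · refine .single ⟨adjF_iff.2 ?_, hF _ h0⟩
      have h1 := hf.1
      have h2 := hg.1
      simp only [Prod.mk.injEq, and_true] at h1 h2 ⊢
      omega
  refine s1.trans ?_
  by_cases h : b = d
  · rw [h]
  · refine .single ⟨adjF_iff.2 ?_, hF _ hg⟩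
    have h1 := hf.2
    have h2 := hg.2
    simp only [Prod.mk.injEq, true_and] at h1 h2 ⊢
    omega

/-- The faces around two removed vertices at king distance `1`. -/
theorem king_chain {F : Set (ℤ × ℤ)} {w w' f g : ℤ × ℤ} (hF : ∀ h, Sq (phiV w) h → h ∉ F)
    (hF' : ∀ h, Sq (phiV w') h → h ∉ F) (h1 : |w.1 - w'.1| ≤ 1) (h2 : |w.2 - w'.2| ≤ 1)
    (hf : Sq (phiV w) f) (hg : Sq (phiV w') g) : Relation.ReflTransGen (StepC F) f g := by
  obtain ⟨x, y⟩ := w
  obtain ⟨x', y'⟩ := w'
  simp only at h1 h2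
  have h1' := abs_le.1 h1
  have h2' := abs_le.1 h2
  have key : ∃ a b, Sq (phiV (x, y)) a ∧ Sq (phiV (x', y')) b ∧ (a = b ∨ AdjF a b) := by
    have hx : x' = x ∨ x' = x + 1 ∨ x' = x - 1 := by omega
    have hy : y' = y ∨ y' = y + 1 ∨ y' = y - 1 := by omega
    rcases hx with hx | hx | hx <;> rcases hy with hy | hy | hy <;> subst hx <;> subst hy
    · exact ⟨(x' + y', x' - y'), (x' + y', x' - y'), by simp [Sq, phiV], by simp [Sq, phiV],
        Or.inl rfl⟩
    · exact ⟨(x' + y, x' - y - 1), (x' + y, x' - y - 1), by simp [Sq, phiV], by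
        simp only [Sq, phiV]; omega, Or.inl rfl⟩
    · exact ⟨(x' + y - 1, x' - y), (x' + y - 1, x' - y), by simp [Sq, phiV], by
        simp only [Sq, phiV]; omega, Or.inl rfl⟩
    · exact ⟨(x + y', x - y'), (x + y', x - y'), by simp [Sq, phiV], by
        simp only [Sq, phiV]; omega, Or.inl rfl⟩
    · exact ⟨(x + y, x - y), (x + y + 1, x - y), by simp [Sq, phiV], by
        simp only [Sq, phiV]; omega, Or.inr (adjF_iff.2 (by simp))⟩
    · exact ⟨(x + y, x - y), (x + y, x - y + 1), by simp [Sq, phiV], by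
        simp only [Sq, phiV]; omega, Or.inr (adjF_iff.2 (by simp))⟩
    · exact ⟨(x + y' - 1, x - y' - 1), (x + y' - 1, x - y' - 1), by simp [Sq, phiV], by
        simp only [Sq, phiV]; omega, Or.inl rfl⟩
    · exact ⟨(x + y, x - y - 1), (x + y, x - y - 2), by simp [Sq, phiV], by
        simp only [Sq, phiV]; omega, Or.inr (adjF_iff.2 (by
          right; simp; omega))⟩
    · exact ⟨(x + y - 1, x - y), (x + y - 2, x - y), by simp [Sq, phiV], by
        simp only [Sq, phiV]; omega, Or.inr (adjF_iff.2 (by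
          simp; omega))⟩
  obtain ⟨a, b, ha, hb, hab⟩ := key
  refine (sq_chain hF hf ha).trans (Relation.ReflTransGen.trans ?_ (sq_chain hF' hb hg))
  rcases hab with rfl | hab
  · exact .refl
  · exact .single ⟨hab, hF' _ hb⟩

theorem sq_self (v : ℤ × ℤ) : Sq v v := ⟨Or.inl rfl, Or.inl rfl⟩

theorem path_chain {w w' : ℤ × ℤ} (hw : w ∉ U) (hp : Relation.ReflTransGen (RAdj U) w w') :
    w' ∉ U ∧ ∀ f g, Sq (phiV w) f → Sq (phiV w') g →
      Relation.ReflTransGen (StepC (FU U)) f g := by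
  induction hp with
  | refl => exact ⟨hw, fun f g hf hg => sq_chain (fun h h1 => sq_notMem hw h1) hf hg⟩
  | @tail b c _ h1 ih =>
    obtain ⟨hb, ih⟩ := ih
    obtain ⟨hc, h2, h3⟩ := h1
    refine ⟨hc, fun f g hf hg => (ih f _ hf (sq_self _)).trans ?_⟩
    exact king_chain (fun h h1 => sq_notMem hb h1) (fun h h1 => sq_notMem hc h1) h2 h3
      (sq_self _) hg

/-- A straight path of removed vertices. -/
theorem ray_path {w d : ℤ × ℤ} (hd1 : |d.1| ≤ 1) (hd2 : |d.2| ≤ 1)
    (hU : ∀ k : ℕ, (w.1 + k * d.1, w.2 + k * d.2) ∉ U) (k : ℕ) :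
    Relation.ReflTransGen (RAdj U) w (w.1 + k * d.1, w.2 + k * d.2) := by
  induction k with
  | zero => simpa using Relation.ReflTransGen.refl
  | succ k ih =>
    refine ih.tail ⟨hU _, ?_, ?_⟩
    · have : w.1 + (k : ℤ) * d.1 - (w.1 + ((k + 1 : ℕ) : ℤ) * d.1) = -d.1 := by push_cast; ring
      simp only
      rw [this, abs_neg]
      exact hd1
    · have : w.2 + (k : ℤ) * d.2 - (w.2 + ((k + 1 : ℕ) : ℤ) * d.2) = -d.2 := by push_cast; ring
      simp only
      rw [this, abs_neg]
      exact hd2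

theorem ray_far {w d : ℤ × ℤ} (hd : d.1 + d.2 = 1 ∨ d.1 + d.2 = -1) (R : ℤ) :
    ∃ k : ℕ, R < |(phiV (w.1 + k * d.1, w.2 + k * d.2)).1| := by
  refine ⟨(|w.1 + w.2| + |R| + 1).toNat, ?_⟩
  have h0 : (((|w.1 + w.2| + |R| + 1).toNat : ℕ) : ℤ) = |w.1 + w.2| + |R| + 1 :=
    Int.toNat_of_nonneg (by positivity)
  rw [h0]
  set K := |w.1 + w.2| + |R| + 1 with hK
  have h1 : (phiV (w.1 + K * d.1, w.2 + K * d.2)).1 = w.1 + w.2 + K * (d.1 + d.2) := by
    simp only [phiV]; ring
  rw [h1]
  have a1 := neg_abs_le (w.1 + w.2)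
  have a2 := le_abs_self (w.1 + w.2)
  have a3 := le_abs_self R
  rcases hd with hd | hd <;> rw [hd]
  · have := le_abs_self (w.1 + w.2 + K * 1)
    omega
  · have := neg_abs_le (w.1 + w.2 + K * -1)
    omega

/-- The faces around a removed vertex are joined to infinity outside of the fresh faces. -/
theorem removed_escape (hI : Rule.Inv n T U) {w f : ℤ × ℤ} (hw : w ∉ U) (hf : Sq (phiV w) f) (R : ℤ) :
    ∃ g : ℤ × ℤ, (R < |g.1| ∨ R < |g.2|) ∧ Relation.ReflTransGen (StepC (FU U)) f g := by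
  obtain ⟨w', hw', hp⟩ := hI.conn w hw
  have hw0 : w' ∉ Box n := hw'
  have hBox : ∀ v : ℤ × ℤ, ¬ (0 ≤ v.1 ∧ v.1 ≤ n ∧ 0 ≤ v.2 ∧ v.2 ≤ n) → v ∉ U :=
    fun v hv h => hv (mem_Box_iff.1 (hI.sub h))
  have key : ∃ d : ℤ × ℤ, |d.1| ≤ 1 ∧ |d.2| ≤ 1 ∧ (d.1 + d.2 = 1 ∨ d.1 + d.2 = -1) ∧
      ∀ k : ℕ, (w'.1 + k * d.1, w'.2 + k * d.2) ∉ U := by
    rw [mem_Box_iff] at hw'
    have h1 : w'.1 < 0 ∨ (n : ℤ) < w'.1 ∨ w'.2 < 0 ∨ (n : ℤ) < w'.2 := by omega
    rcases h1 with h1 | h1 | h1 | h1
    · exact ⟨(-1, 0), by simp, by simp, by simp, fun k => hBox _ (by simp only; omega)⟩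
    · exact ⟨(1, 0), by simp, by simp, by simp, fun k => hBox _ (by simp only; omega)⟩
    · exact ⟨(0, -1), by simp, by simp, by simp, fun k => hBox _ (by simp only; omega)⟩
    · exact ⟨(0, 1), by simp, by simp, by simp, fun k => hBox _ (by simp only; omega)⟩
  obtain ⟨d, h1, h2, h3, h4⟩ := key
  obtain ⟨k, hk⟩ := ray_far (w := w') h3 R
  exact ⟨_, Or.inl hk, (path_chain hw (hp.trans (ray_path h1 h2 h4 k))).2 f _ hf (sq_self _)⟩

/-- **The fresh faces have no holes.** -/
theorem esc_FU (hI : Rule.Inv n T U) : Esc (FU U) := by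
  intro f hf R
  have h1 : ea (eE f) ∉ U ∨ eb (eE f) ∉ U := by
    by_contra h
    push Not at h
    exact hf h
  rcases h1 with h1 | h1
  · exact removed_escape hI h1 (sq_phiV.2 (Or.inl rfl)) R
  · exact removed_escape hI h1 (sq_phiV.2 (Or.inr rfl)) R

theorem finite_FU (hU : U ⊆ Box n) : (FU U).Finite :=
  (Finset.finite_toSet (Sn n)).subset fun f hf => by
    rw [Finset.mem_coe, ← phiE_eE f, phiE_mem_Sn]
    exact eE_mem_boxE hU hf

/-! ### The base of a needle -/

theorem qryb_ends (k : Cor) : (ea (qryb k) = vtx k ∧ eb (qryb k) = vtx (advb k)) ∨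
    (ea (qryb k) = vtx (advb k) ∧ eb (qryb k) = vtx k) := by
  obtain ⟨x, y, _ | _, _ | _⟩ := k
  · right
    simp [qryb, advb, vtx, ea_mk, eb_false]
  · left
    simp [qryb, advb, vtx, ea_mk, eb_true]
  · right
    simp [qryb, advb, vtx, ea_mk, eb_true]
  · left
    simp [qryb, advb, vtx, ea_mk, eb_false]

namespace NdF

variable (hN : NdF U Q k₀)

include hN

theorem f₀_notMem : phiE (qryb k₀) ∉ FU U := by
  rintro ⟨h1, h2⟩
  rw [eE_phiE] at h1 h2
  rcases qryb_ends k₀ with ⟨h3, h4⟩ | ⟨h3, h4⟩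
  · rw [h4] at h2; exact hN.wall h2
  · rw [h3] at h1; exact hN.wall h1

theorem QF_sub : QF Q ⊆ FU U := fun _ hf => hN.ends _ hf

/-- **No holes off the needle.** -/
theorem esc (hI : Rule.Inv n T U) : Esc (FU U \ QF Q) := by
  refine (esc_FU hI).diff fun f hf => ⟨phiE (qryb k₀), hN.f₀_notMem, ?_⟩
  have h := hN.chain f hf
  have key : ∀ g, Relation.ReflTransGen (fun f g => AdjF f g ∧ g ∈ QF Q) (phiE (qryb k₀)) g →
      (g ∉ FU U \ QF Q) ∧
        Relation.ReflTransGen (StepC (FU U \ QF Q)) g (phiE (qryb k₀)) := by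
    intro g hg
    induction hg with
    | refl => exact ⟨fun h => hN.f₀_notMem h.1, .refl⟩
    | tail _ h1 ih => exact ⟨fun h => h.2 h1.2, ih.2.head ⟨h1.1.symm, ih.1⟩⟩
  exact (key f h).2

/-- The edges of the needle are in the box. -/
theorem sub_boxE (hU : U ⊆ Box n) : Q ⊆ boxE n := fun e he =>
  mem_boxE'.2 ⟨hU (hN.ends e he).1, hU (hN.ends e he).2⟩

theorem cfg_sub (hT : T ⊆ boxE n) (hU : U ⊆ Box n) : rst T U ∪ Q ⊆ boxE n := by
  refine Finset.union_subset ((Finset.filter_subset _ _).trans hT) (hN.sub_boxE hU)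

theorem avoid {e : Edg} (he : e ∈ rst T U ∪ Q) : ea e ∈ U ∧ eb e ∈ U := by
  rcases Finset.mem_union.1 he with h | h
  · exact (Finset.mem_filter.1 h).2
  · exact hN.ends e h

/-- **The base corner is an outer corner.** -/
theorem mem_Oc (hT : T ⊆ boxE n) (hI : Rule.Inv n T U) :
    k₀ ∈ PercO.Oc ((rst T U ∪ Q : Finset Edg) : Set Ed) (vtx k₀) := by
  have hsub := PercO.boxE_sub (hN.cfg_sub hT hI.sub)
  refine ⟨Relation.ReflTransGen.refl, ?_⟩
  refine Scan.Out.anti PercO.Tc_sub ?_
  have h1 := (inv_iff hT).1 hI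
  rw [← fce_advb]
  rcases (hc_or_ext (n := n) hI.sub).2 hN.wall with h2 | h2
  · refine Scan.att_out hsub h1.2.2 (fun e he => ?_) h2
    have h3 := hN.avoid (Finset.mem_coe.1 he)
    exact ⟨fun h => h.2 h3.1, fun h => h.2 h3.2⟩
  · exact Scan.ext_out hsub h2

end NdF

/-- Adjacent faces have a common vertex of the square lattice. -/
theorem adj_share {f g : ℤ × ℤ} (h : AdjF f g) : ∃ w, Sq (phiV w) f ∧ Sq (phiV w) g := by
  have key : ∀ v : ℤ × ℤ, (v.1 + v.2) % 2 = 0 → phiV ((v.1 + v.2) / 2, (v.1 - v.2) / 2) = v := by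
    intro v hv
    refine Prod.ext ?_ ?_ <;> simp only [phiV] <;> omega
  obtain ⟨X, Y⟩ := f
  have two : ∀ v v' : ℤ × ℤ, ((v.1 + v.2) % 2 = 0 ∨ (v'.1 + v'.2) % 2 = 0) →
      (Sq v (X, Y) ∧ Sq v g) → (Sq v' (X, Y) ∧ Sq v' g) →
      ∃ w, Sq (phiV w) (X, Y) ∧ Sq (phiV w) g := by
    intro v v' h h1 h2
    rcases h with h | h
    · exact ⟨_, by rw [key v h]; exact h1⟩
    · exact ⟨_, by rw [key v' h]; exact h2⟩
  rcases adjF_iff.1 h with rfl | rfl | rfl | rfl
  · refine two (X + 1, Y) (X + 1, Y + 1) (by simp only; omega) ?_ ?_ <;> simp [Sq]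
  · refine two (X, Y) (X, Y + 1) (by simp only; omega) ?_ ?_ <;> simp [Sq]
  · refine two (X, Y + 1) (X + 1, Y + 1) (by simp only; omega) ?_ ?_ <;> simp [Sq]
  · refine two (X, Y) (X + 1, Y) (by simp only; omega) ?_ ?_ <;> simp [Sq]

/-- **The needle is in the cluster of its base.** -/
theorem NdF.mem_clV (hN : NdF U Q k₀) (T : Finset Edg) {e : Edg} (he : e ∈ Q) :
    ea e ∈ clV (rst T U ∪ Q) (vtx k₀) ∧ eb e ∈ clV (rst T U ∪ Q) (vtx k₀) := by
  have key : ∀ g, Relation.ReflTransGen (fun f g => AdjF f g ∧ g ∈ QF Q) (phiE (qryb k₀)) g →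
      ∀ w, Sq (phiV w) g → w ∈ U → w ∈ clV (rst T U ∪ Q) (vtx k₀) := by
    intro g hg
    induction hg with
    | refl =>
      intro w hw hwU
      have h1 := sq_phiV.1 hw
      rw [eE_phiE] at h1
      have h2 : w = vtx k₀ := by
        rcases qryb_ends k₀ with ⟨h3, h4⟩ | ⟨h3, h4⟩
        · rw [h3, h4] at h1
          rcases h1 with h1 | h1
          · exact h1.symm
          · rw [← h1] at hwU; exact absurd hwU hN.wall
        · rw [h3, h4] at h1
          rcases h1 with h1 | h1
          · rw [← h1] at hwU; exact absurd hwU hN.wall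
          · exact h1.symm
      rw [h2]
      exact Relation.ReflTransGen.refl
    | @tail b c _ h1 ih =>
      intro w hw hwU
      obtain ⟨w', h2, h3⟩ := adj_share h1.1
      have hc : eE c ∈ Q := h1.2
      have hw'U : w' ∈ U := by
        rcases sq_phiV.1 h3 with h4 | h4
        · rw [← h4]; exact (hN.ends _ hc).1
        · rw [← h4]; exact (hN.ends _ hc).2
      have h4 := ih w' h2 hw'U
      by_cases hww : w' = w
      · rw [← hww]; exact h4
      · refine Relation.ReflTransGen.tail h4 ⟨eE c, Finset.mem_union_right _ hc, ?_⟩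
        rw [tl_eq, hd_eq]
        rcases sq_phiV.1 h3 with h5 | h5 <;> rcases sq_phiV.1 hw with h6 | h6
        · exact absurd (h5.symm.trans h6) hww
        · exact Or.inl ⟨h5, h6⟩
        · exact Or.inr ⟨h6, h5⟩
        · exact absurd (h5.symm.trans h6) hww
  have hf : phiE e ∈ QF Q := by
    show eE (phiE e) ∈ Q
    rw [eE_phiE]; exact he
  have h1 := hN.chain _ hf
  refine ⟨key _ h1 _ (sq_phiV.2 ?_) (hN.ends e he).1, key _ h1 _ (sq_phiV.2 ?_) (hN.ends e he).2⟩
  · rw [eE_phiE]; exact Or.inl rfl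
  · rw [eE_phiE]; exact Or.inr rfl

end Pool.Agent.SixB.Dct
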