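import Pool.Agent.Lib.SixB.S8StartU
import Pool.Agent.Lib.SixB.S8MoveA
import Pool.Agent.Lib.SixB.S8TruStep
import Pool.Agent.Lib.SixB.S8Box
import Pool.Agent.Lib.SixB.S8ScanDet

/-!
# Step 8: the true data of the first move of a needle step

* `hasPot_univ`: the whole plane has potentials.
* `first_entry`, `last_exit`: a closed strand starts at the unit edge `e` outside `U`; `a` is a side of
  `U` with the ends joined outside `U` to the ends of `e`. If `a` is an entrance then the strand enters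
  `U` for the first time through `a`; if `a` is an exit then the strand leaves `U` for the last time
  through `a`.
* `start_data`: the contour of a component `U` of `W \ Q` (`W`: the fresh faces, `Q`: the needle), from
  the true tip side.
* `exists_trueD`: the data `TrueD` at the start, and the first entrance and the last exit of the strand.
-/

set_option autoImplicit false

namespace Pool.Agent.SixB.StW

open Finset Pool.Agent.Perc Pool.Agent.Perc6 Pool.Agent.SixB Pool.Agent.SixB.Top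
open Pool.Agent.SixB.Mv
open Pool.Agent.Perc.Tips (ahead rv rv_rv)

/-! ### Potentials in the plane -/

theorem exists_inc (g : ℤ → ZMod 2) :
    ∃ G : ℤ → ZMod 2, G 0 = 0 ∧ ∀ y, G (y + 1) = G y + g y := by
  refine ⟨fun y => ∑ i ∈ Finset.Ico 0 y, g i + ∑ i ∈ Finset.Ico y 0, g i, by simp, fun y => ?_⟩
  simp only
  rcases le_or_gt 0 y with h | h
  · have h1 : Finset.Ico 0 (y + 1) = insert y (Finset.Ico 0 y) := by
      ext a
      simp only [Finset.mem_Ico, Finset.mem_insert]
      omega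
    have h2 : Finset.Ico y 0 = ∅ := Finset.Ico_eq_empty (by omega)
    have h3 : Finset.Ico (y + 1) 0 = ∅ := Finset.Ico_eq_empty (by omega)
    rw [h1, h2, h3, Finset.sum_insert (by simp)]
    simp only [Finset.sum_empty, add_zero]
    exact add_comm _ _
  · have h1 : Finset.Ico y 0 = insert y (Finset.Ico (y + 1) 0) := by
      ext a
      simp only [Finset.mem_Ico, Finset.mem_insert]
      omega
    have h2 : Finset.Ico 0 y = ∅ := Finset.Ico_eq_empty (by omega)
    have h3 : Finset.Ico 0 (y + 1) = ∅ := Finset.Ico_eq_empty (by omega)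
    rw [h1, h2, h3, Finset.sum_insert (by simp)]
    simp only [Finset.sum_empty, zero_add]
    generalize g y = p
    generalize ∑ i ∈ Finset.Ico (y + 1) 0, g i = q
    revert p q
    decide

/-- **The plane has potentials.** -/
theorem hasPot_univ : HasPot (Set.univ : Set (ℤ × ℤ)) := by
  intro M hM
  obtain ⟨H, -, hH⟩ := exists_inc fun x => ind2 ((x, (0 : ℤ), false) ∈ M)
  choose V hV0 hV using fun x : ℤ => exists_inc fun y => ind2 ((x, y, true) ∈ M)
  have hor : ∀ y x : ℤ, H (x + 1) + V (x + 1) y = H x + V x y + ind2 ((x, y, false) ∈ M) := by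
    have hev : ∀ x y : ℤ, ind2 ((x, y, false) ∈ M) + ind2 ((x + 1, y, true) ∈ M) +
        (ind2 ((x, y + 1, false) ∈ M) + ind2 ((x, y, true) ∈ M)) = 0 := fun x y =>
      hM (x, y) (Set.mem_univ _)
    have z2 : ∀ h1 v1 v h w o l r t : ZMod 2, h1 + v1 = h + v + o → o + r + (t + l) = 0 →
        v1 + r = w → h1 + w = h + (v + l) + t := by
      intro h1 v1 v h w o l r t e1 e2 e3
      rw [← e3]
      have e4 : h1 + v1 + r = h + v + o + r := by rw [e1]
      have e5 : o + r = t + l := by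
        have : o + r = -(t + l) := eq_neg_of_add_eq_zero_left e2
        rw [this]
        generalize t + l = p
        revert p
        decide
      calc h1 + (v1 + r) = h1 + v1 + r := by ring
        _ = h + v + (o + r) := by rw [e4]; ring
        _ = h + (v + l) + t := by rw [e5]; ring
    have z2' : ∀ h1 v1 v h w o l r t : ZMod 2, h1 + w = h + (v + l) + t → o + r + (t + l) = 0 →
        v1 + r = w → h1 + v1 = h + v + o := by
      intro h1 v1 v h w o l r t e1 e2 e3
      rw [← e3] at e1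
      have e5 : o + r = t + l := by
        have : o + r = -(t + l) := eq_neg_of_add_eq_zero_left e2
        rw [this]
        generalize t + l = p
        revert p
        decide
      have e6 : h1 + v1 + r = h + v + o + r := by
        calc h1 + v1 + r = h1 + (v1 + r) := by ring
          _ = h + v + (t + l) := by rw [e1]; ring
          _ = h + v + o + r := by rw [← e5]; ring
      exact add_right_cancel e6
    intro y
    induction y using Int.induction_on with
    | zero =>
      intro x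
      rw [hV0, hV0, add_zero, add_zero, hH]
    | succ i ih =>
      intro x
      have h1 := hV x i
      have h2 := hV (x + 1) i
      rw [h1]
      exact z2 _ _ _ _ _ _ _ _ _ (ih x) (hev x i) h2.symm
    | pred i ih =>
      intro x
      have h1 := hV x (-(i : ℤ) - 1)
      have h2 := hV (x + 1) (-(i : ℤ) - 1)
      have h3 := ih x
      have h4 := hev x (-(i : ℤ) - 1)
      simp only [sub_add_cancel] at h1 h2 h4
      rw [h1] at h3
      exact z2' _ _ _ _ _ _ _ _ _ h3 h4 h2.symm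
  refine ⟨fun w => H w.1 + V w.1 w.2, ?_⟩
  have key : ∀ a : UE, (a ∈ M ↔ H (ua a).1 + V (ua a).1 (ua a).2 ≠ H (ub a).1 + V (ub a).1 (ub a).2) := by
    rintro ⟨x, y, _ | _⟩
    · rw [ua_mk, ub_false]
      simp only
      rw [hor y x, ne_add_ind2]
    · rw [ua_mk, ub_true]
      simp only
      rw [hV x y, ← add_assoc, ne_add_ind2]
  intro f _ a _
  exact key a

/-! ### The first entrance and the last exit -/

theorem joins_cc {c : ℤ} (hc : c = 0 ∨ c = 1) (a : UE) : Joins a (en c a) (en (1 - c) a) := by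
  have h0 : par (en c a) = c := par_en hc a
  have h1 : par (en (1 - c) a) = 1 - c := par_en (by omega) a
  rcases en_or c a with h2 | h2 <;> rcases en_or (1 - c) a with h3 | h3
  · rw [h2] at h0; rw [h3] at h1; omega
  · exact Or.inl ⟨h2, h3⟩
  · exact Or.inr ⟨h2, h3⟩
  · rw [h2] at h0; rw [h3] at h1; omega

section Loop

variable {ω : Cfg} {R U : Set (ℤ × ℤ)} {e a : UE} {c : ℤ} {N : ℕ}

/-- A closed strand with the ends of `e` joined outside `U` to the ends of a side of `U` meets `U`. -/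
theorem exists_meet (hR : HasPot R) (UR : U ⊆ R) (hc : c = 0 ∨ c = 1) (heR : fb e ∈ R)
    (hN : 0 < N) (hper : pth ω e N = e) (ha : fa a ∈ U ∨ fb a ∈ U)
    (j : Conn ω (R \ U) (en c e) (en c a)) (j' : Conn ω (R \ U) (en (1 - c) e) (en (1 - c) a)) :
    ∃ t < N, fa (pth ω e t) ∈ U := by
  by_contra hno
  push Not at hno
  have hprd : ∀ i, pth ω e (N + i) = pth ω e i := fun i => by rw [← pth_add, hper]
  have hno' : ∀ i, fa (pth ω e i) ∉ U := by
    intro i
    have h1 : pth ω e i = pth ω e (i % N) := by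
      conv_lhs => rw [← Nat.mod_add_div i N]
      generalize i / N = k
      induction k with
      | zero => simp
      | succ k ih => rw [show i % N + N * (k + 1) = N + (i % N + N * k) by ring, hprd, ih]
    rw [h1]
    exact hno _ (Nat.mod_lt _ hN)
  set X : Set UE := {y | ∃ i, y = pth ω e i} with hX
  have key : ∀ g : ℤ × ℤ, ∀ y y', Mt ω g y y' → y ∈ X → y' ∈ X := by
    rintro g y y' hm ⟨i, rfl⟩
    rcases mt_iff.1 hm with ⟨rfl, rfl⟩ | ⟨rfl, rfl⟩
    · exact ⟨i + 1, (pth_succ _ _ _).symm⟩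
    · refine ⟨N + i - 1, ?_⟩
      have h2 : pth ω e i = nx ω (pth ω e (N + i - 1)) := by
        rw [← pth_succ, show N + i - 1 + 1 = N + i by omega, hprd]
      rw [h2, pv_nx]
  have hinv : MtInv ω R X := fun g _ y y' hm => ⟨key g y y' hm, key g y' y hm.symm⟩
  obtain ⟨Θ, hΘ⟩ := hR X fun g hg => hinv.even hg
  have hinv' : MtInv ω (R \ U) X := fun g hg => hinv g hg.1
  have hΘ' : IsPot (R \ U) X Θ := fun g hg => hΘ g hg.1
  have e1 := hinv'.conn hΘ' j
  have e2 := hinv'.conn hΘ' j'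
  have h1 : Θ (en c e) ≠ Θ (en (1 - c) e) :=
    (hΘ.joins heR (isSide_fb e) (joins_cc hc e)).1 ⟨0, rfl⟩
  rw [e1, e2] at h1
  have h2 : a ∈ X := by
    rcases ha with ha | ha
    · exact (hΘ.joins (UR ha) (isSide_fa a) (joins_cc hc a)).2 h1
    · exact (hΘ.joins (UR ha) (isSide_fb a) (joins_cc hc a)).2 h1
  obtain ⟨i, rfl⟩ := h2
  rcases ha with ha | ha
  · exact hno' i ha
  · refine hno' (N + i - 1) ?_
    rw [← fb_pth_succ, show N + i - 1 + 1 = N + i by omega, hprd]
    exact ha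

/-- The last exit, the first entrance and the potential of the part of the strand between them. -/
theorem loop_data (hR : HasPot R) (UR : U ⊆ R) (cU : Top.EConn U) (hc : c = 0 ∨ c = 1)
    (he : fb e ∉ U) (heR : fb e ∈ R) (hN : 0 < N) (hper : pth ω e N = e)
    (ha : (fa a ∈ U ∧ fb a ∉ U) ∨ (fb a ∈ U ∧ fa a ∉ U))
    (j : Conn ω (R \ U) (en c e) (en c a)) (j' : Conn ω (R \ U) (en (1 - c) e) (en (1 - c) a)) :
    ∃ s t, 0 < s ∧ s < N ∧ t < N ∧ (∀ i < t, fa (pth ω e i) ∉ U) ∧ fa (pth ω e t) ∈ U ∧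
      (∀ i, s ≤ i → i < N → fa (pth ω e i) ∉ U) ∧ fb (pth ω e s) ∈ U ∧
      ((fa a ∈ U ∧ pth ω e t = a) ∨ (fb a ∈ U ∧ pth ω e s = a)) := by
  classical
  have hprd : ∀ i, pth ω e (N + i) = pth ω e i := fun i => by rw [← pth_add, hper]
  obtain ⟨t₀, ht₀, ht₀U⟩ := exists_meet hR UR hc heR hN hper (ha.imp (fun h => h.1) fun h => h.1) j j'
  have hex : ∃ t, fa (pth ω e t) ∈ U := ⟨t₀, ht₀U⟩
  set t := Nat.find hex with ht
  have htU : fa (pth ω e t) ∈ U := Nat.find_spec hex
  have htmin : ∀ i < t, fa (pth ω e i) ∉ U := fun i hi => Nat.find_min hex hi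
  have htN : t < N := lt_of_le_of_lt (Nat.find_min' hex ht₀U) ht₀
  -- the last time
  set S : Finset ℕ := (range N).filter fun i => fa (pth ω e i) ∈ U with hS
  have hSne : S.Nonempty := ⟨t, by rw [hS, Finset.mem_filter, Finset.mem_range]; exact ⟨htN, htU⟩⟩
  have hs₁ := S.max'_mem hSne
  set s₁ := S.max' hSne with hs₁d
  rw [hS, Finset.mem_filter, Finset.mem_range] at hs₁
  have hmax : ∀ i, s₁ < i → i < N → fa (pth ω e i) ∉ U := by
    intro i h1 h2 h3
    have h4 : i ∈ S := by rw [hS, Finset.mem_filter, Finset.mem_range]; exact ⟨h2, h3⟩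
    have := S.le_max' i h4
    omega
  have hfb : fb (pth ω e (s₁ + 1)) ∈ U := by rw [fb_pth_succ]; exact hs₁.2
  have hsN : s₁ + 1 < N := by
    by_contra hcon
    have h1 : s₁ + 1 = N := by omega
    rw [h1, hper] at hfb
    exact he hfb
  have hout : ∀ i, s₁ + 1 ≤ i → i < N + t → fa (pth ω e i) ∉ U := by
    intro i h1 h2
    rcases Nat.lt_or_ge i N with h3 | h3
    · exact hmax i (by omega) h3
    · obtain ⟨k, rfl⟩ := Nat.exists_eq_add_of_le h3
      rw [hprd]
      exact htmin k (by omega)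
  have hfbt : fa (pth ω e (N + t)) ∈ U := by rw [hprd]; exact htU
  obtain ⟨Θ, hΘc, hΘ⟩ := exc_pot_out hR cU (s := s₁ + 1) (t := N + t) (by omega) hfb hfbt hout
  have h1 : Θ (en c e) ≠ Θ (en (1 - c) e) :=
    (hΘ _ heR e _ _ (isSide_fb e) (joins_cc hc e) ⟨fb e, he, isSide_fb e⟩).2
      ⟨N, by omega, by omega, hper.symm⟩
  rw [hΘc _ _ j, hΘc _ _ j'] at h1
  have h2 : a ∈ seg8 ω e (s₁ + 1) (N + t) := by
    rcases ha with ⟨ha, hb⟩ | ⟨ha, hb⟩
    · exact (hΘ _ (UR ha) a _ _ (isSide_fa a) (joins_cc hc a) ⟨fb a, hb, isSide_fb a⟩).1 h1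
    · exact (hΘ _ (UR ha) a _ _ (isSide_fb a) (joins_cc hc a) ⟨fa a, hb, isSide_fa a⟩).1 h1
  obtain ⟨i, hi1, hi2, rfl⟩ := h2
  refine ⟨s₁ + 1, t, by omega, hsN, htN, htmin, htU, fun i h3 h4 => hmax i (by omega) h4, hfb, ?_⟩
  rcases ha with ⟨ha, hb⟩ | ⟨ha, hb⟩
  · left
    have h3 : i = N + t := by
      by_contra hne
      exact hout i hi1 (by omega) ha
    refine ⟨ha, ?_⟩
    rw [h3, hprd]
  · right
    have h3 : i = s₁ + 1 := by
      by_contra hne
      have h4 : fb (pth ω e i) = fa (pth ω e (i - 1)) := by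
        rw [← fb_pth_succ, Nat.sub_add_cancel (by omega)]
      rw [h4] at ha
      exact hout (i - 1) (by omega) (by omega) ha
    exact ⟨ha, by rw [h3]⟩

/-- **The first entrance.** -/
theorem first_entry (hR : HasPot R) (UR : U ⊆ R) (cU : Top.EConn U) (hc : c = 0 ∨ c = 1)
    (he : fb e ∉ U) (heR : fb e ∈ R) (hN : 0 < N) (hper : pth ω e N = e) (ha : fa a ∈ U)
    (hb : fb a ∉ U) (j : Conn ω (R \ U) (en c e) (en c a))
    (j' : Conn ω (R \ U) (en (1 - c) e) (en (1 - c) a)) :
    ∃ t < N, pth ω e t = a ∧ ∀ i < t, fa (pth ω e i) ∉ U := by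
  obtain ⟨s, t, -, -, h1, h2, -, -, -, h3⟩ :=
    loop_data hR UR cU hc he heR hN hper (Or.inl ⟨ha, hb⟩) j j'
  rcases h3 with h3 | h3
  · exact ⟨t, h1, h3.2, h2⟩
  · exact absurd h3.1 hb

/-- **The last exit.** -/
theorem last_exit (hR : HasPot R) (UR : U ⊆ R) (cU : Top.EConn U) (hc : c = 0 ∨ c = 1)
    (he : fb e ∉ U) (heR : fb e ∈ R) (hN : 0 < N) (hper : pth ω e N = e) (ha : fb a ∈ U)
    (hb : fa a ∉ U) (j : Conn ω (R \ U) (en c e) (en c a))
    (j' : Conn ω (R \ U) (en (1 - c) e) (en (1 - c) a)) :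
    ∃ s < N, pth ω e s = a ∧ ∀ i, s ≤ i → i < N → fa (pth ω e i) ∉ U := by
  obtain ⟨s, t, -, h0, -, -, -, h2, -, h3⟩ :=
    loop_data hR UR cU hc he heR hN hper (Or.inr ⟨ha, hb⟩) j j'
  rcases h3 with h3 | h3
  · exact absurd h3.1 hb
  · exact ⟨s, h0, h3.2, h2⟩

end Loop

/-! ### The contour at the start -/

/-- The contour of the component `U` of `W \ Q` from the true tip side `S`: the outer faces of the
sides `1, …, k - 1` are in the needle `Q`, those of the sides `k, …, m - 1` are old; `x ∈ {k - 1, k}` is the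
target side. -/
structure Start (W Q U : Set (ℤ × ℤ)) (S : UE × Bool) (m k x : ℕ) : Prop where
  fin : U.Finite
  ec : Top.EConn U
  esc : Esc U
  sub : U ⊆ W \ Q
  cyc : Cyc U S m
  par : par (rg S) = 0
  pos : 0 < x
  lt : x < m
  px : Pool.Agent.Perc.par (vert U S x) = 0
  k1 : 1 ≤ k
  km : k ≤ m
  kx : x = k ∨ x + 1 = k
  nd : ∀ v, 0 < v → v < k → outF U S v ∈ Q
  od : ∀ v, k ≤ v → v < m → outF U S v ∉ W
  tip : outF U S 0 ∈ Q ∨ outF U S 0 ∉ W
  tgt : outF U S x ∈ Q ∨ outF U S x ∉ W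
  c0 : ∃ f, f ∉ W ∧ IsCor f (lf S)
  c1 : ∃ f ∈ Q, IsCor f (rg S)
  t0 : ∃ f ∈ Q, IsCor f (vert U S x)
  t1 : ∃ f, f ∉ W ∧ IsCor f (vert U S (x + 1))

section Start

variable {W Q U : Set (ℤ × ℤ)} {S : UE × Bool} {f₀ q₀ g₀ : ℤ × ℤ} {m k x : ℕ}

/-- The component of `W \ Q` inside the component of the needle. -/
theorem compT_diff_eq (hq : q₀ ∈ W) (hf₀ : f₀ ∈ compT W q₀) :
    compT (compT W q₀ \ Q) f₀ = compT (W \ Q) f₀ := by
  apply Set.Subset.antisymm
  · exact compT_mono fun f hf => ⟨compT_sub hq hf.1, hf.2⟩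
  · intro f hf
    have key : f ∈ compT W q₀ ∧ f ∈ compT (compT W q₀ \ Q) f₀ := by
      change ChI (W \ Q) f₀ f at hf
      induction hf with
      | refl => exact ⟨hf₀, self_mem_compT⟩
      | tail _ hs ih =>
        have h1 := compT_step ih.1 hs.1 hs.2.1
        exact ⟨h1, compT_step ih.2 hs.1 ⟨h1, hs.2.2⟩⟩
    exact key.2

theorem par_vert {hS : Pool.Agent.Perc.par (rg S) = 0} (i : ℕ) :
    Pool.Agent.Perc.par (vert U S (i + 1)) = ((i % 2 : ℕ) : ℤ) := by
  rw [vert_succ]
  exact StU.par_side hS i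

/-- From a contour whose sides `1, …, k - 1` are at the needle and whose sides `k, …, m - 1` are old. -/
theorem start_of (hfin : U.Finite) (ec : Top.EConn U) (esc : Esc U) (sub : U ⊆ W \ Q) (cyc : Cyc U S m)
    (hpar : Pool.Agent.Perc.par (rg S) = 0) (k1 : 1 ≤ k) (km : k ≤ m)
    (nd : ∀ v, 0 < v → v < k → outF U S v ∈ Q) (od : ∀ v, k ≤ v → v < m → outF U S v ∉ W)
    (tip : outF U S 0 ∈ Q ∨ outF U S 0 ∉ W) (c0 : ∃ f, f ∉ W ∧ IsCor f (lf S))
    (c1 : ∃ f ∈ Q, IsCor f (rg S)) : Start W Q U S m k (StU.jt k) := by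
  have hm2 : m % 2 = 0 := by
    have h1 := par_vert (U := U) (hS := hpar) m
    have h2 : vert U S (m + 1) = rg S := by rw [vert_succ, cyc.per]
    rw [h2, hpar] at h1
    omega
  have hj := StU.jt_odd k1
  have hjk : (StU.jt k = k ∧ k % 2 = 1) ∨ (StU.jt k + 1 = k ∧ k % 2 = 0) := by
    unfold StU.jt
    split_ifs <;> omega
  have hcm : vert U S m = lf S := by
    unfold vert
    rw [cyc.per]
  have cl : ∀ v, IsCor (outF U S v) (vert U S v) := fun v => isCor_out_lf _
  have cr : ∀ v, IsCor (outF U S v) (vert U S (v + 1)) := fun v => by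
    rw [vert_succ]
    exact Top.isCor_out_rg _
  have hv1 : vert U S 1 = rg S := vert_succ 0
  refine ⟨hfin, ec, esc, sub, cyc, hpar, by omega, by omega, ?_, k1, km, by omega, nd, od, tip, ?_, c0,
    c1, ?_, ?_⟩
  · obtain ⟨i, hi⟩ : ∃ i, StU.jt k = i + 1 := ⟨StU.jt k - 1, by omega⟩
    rw [hi, par_vert (hS := hpar)]
    have : i % 2 = 0 := by omega
    rw [this]
    rfl
  · rcases hjk with ⟨h1, h2⟩ | ⟨h1, h2⟩
    · exact Or.inr (od _ (by omega) (by omega))
    · exact Or.inl (nd _ (by omega) (by omega))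
  · rcases hjk with ⟨h1, h2⟩ | ⟨h1, h2⟩
    · rcases Nat.lt_or_ge 1 k with h3 | h3
      · refine ⟨_, nd (k - 1) (by omega) (by omega), ?_⟩
        have := cr (k - 1)
        rw [Nat.sub_add_cancel (by omega)] at this
        rw [h1]
        exact this
      · rw [show StU.jt k = 1 by omega, hv1]
        exact c1
    · exact ⟨_, nd (StU.jt k) (by omega) (by omega), cl _⟩
  · rcases hjk with ⟨h1, h2⟩ | ⟨h1, h2⟩
    · exact ⟨_, od (StU.jt k) (by omega) (by omega), cr _⟩
    · rw [h1]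
      rcases Nat.lt_or_ge k m with h3 | h3
      · exact ⟨_, od k le_rfl h3, cl _⟩
      · rw [show k = m by omega, hcm]
        exact c0

/-- **The contour at the start.** -/
theorem start_data (hWf : W.Finite) (eW : Esc W) (hQW : Q ⊆ W) (cQ : Top.EConn Q) (hq : q₀ ∈ Q)
    (hg : g₀ ∉ W) (ha : AdjF q₀ g₀) (hf₀ : f₀ ∈ W \ Q) (hj : f₀ ∈ compT W q₀)
    (hold : ∃ B, BD (compT (W \ Q) f₀) B ∧ ahead (rv B) ∉ W) :
    ∃ S m k x, Start W Q (compT (W \ Q) f₀) S m k x := by
  have hqW : q₀ ∈ W := hQW hq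
  have hFW : compT W q₀ ⊆ W := compT_sub hqW
  have hQF : Q ⊆ compT W q₀ := sub_compT cQ hQW hq
  have hgF : g₀ ∉ compT W q₀ := fun h => hg (hFW h)
  have hf₀' : f₀ ∈ compT W q₀ \ Q := ⟨hj, hf₀.2⟩
  have hFf : (compT W q₀).Finite := hWf.subset hFW
  have eqU : compT (compT W q₀ \ Q) f₀ = compT (W \ Q) f₀ := compT_diff_eq hqW hj
  obtain ⟨A, m, k, hA, hper, hk0, hkm, h1, h2, -⟩ :=
    StU.exists_start hFf (econn_compT hqW) (esc_compT hWf eW hqW) hQF cQ hq hgF ha hf₀' (by
      rw [eqU]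
      obtain ⟨B, hB, hB'⟩ := hold
      exact ⟨B, hB, fun h => hB' (hFW h)⟩)
  obtain ⟨hUf, cU, eU, hUF⟩ := StU.start_disc hFf (esc_compT hWf eW hqW) cQ hq hgF ha hf₀'
  rw [eqU] at hA hper h1 h2 hUf cU eU hUF
  set U := compT (W \ Q) f₀ with hU
  have hUW : U ⊆ W \ Q := compT_sub hf₀
  have h2' : ∀ i, k ≤ i → i < m → outF U A i ∉ W := by
    intro i hi1 hi2 hW
    refine h2 i hi1 hi2 ?_
    have hb : BD U (side U A i) := bd_side hA i
    exact compT_step (hUF hb.1).1 (adjF_ahead _).symm hW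
  have h1' : ∀ i < k, outF U A i ∈ Q := h1
  have cyc : ∀ {B : UE × Bool}, BD U B → ∃ m', Cyc U B m' := fun hB => exists_cyc hUf cU eU hB
  have hper' : side U A m = A := hper.per
  have hwrap : ∀ i, side U A (m + i) = side U A i := fun i => by rw [side_add, hper']
  rcases par_cases (lf A) with hp | hp
  · -- the tip side is the last old side
    set S := side U A (m - 1) with hS
    have hSb : BD U S := bd_side hA _
    have hsh : ∀ i, side U S (i + 1) = side U A i := by
      intro i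
      rw [hS, ← side_add, show m - 1 + (i + 1) = m + i by omega, hwrap]
    have hS0 : side U S 0 = S := rfl
    have hrg : rg S = lf A := by
      have h3 : vert U A (m - 1 + 1) = rg (side U A (m - 1)) := vert_succ _
      rw [Nat.sub_add_cancel (by omega)] at h3
      rw [← h3]
      unfold vert
      rw [hper']
    have hcyc : Cyc U S m := by
      obtain ⟨m', hm'⟩ := cyc hSb
      have hperS : Per U m S := hper.shift hA _
      have hmm : m' = m := by
        rcases lt_trichotomy m' m with h | h | h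
        · have := hperS.inj m' h 0 hperS.pos (hm'.per.trans rfl)
          have := hm'.pos
          omega
        · exact h
        · have := hm'.inj m h 0 hm'.pos (hperS.per.trans rfl)
          have := hperS.pos
          omega
      rwa [hmm] at hm'
    refine ⟨S, m, k + 1, StU.jt (k + 1), start_of hUf cU eU hUW hcyc (by rw [hrg, hp]) (by omega)
      (by omega) ?_ ?_ ?_ ?_ ?_⟩
    · intro v hv1 hv2
      obtain ⟨i, rfl⟩ : ∃ i, v = i + 1 := ⟨v - 1, by omega⟩
      unfold outF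
      rw [hsh]
      exact h1' i (by omega)
    · intro v hv1 hv2
      obtain ⟨i, rfl⟩ : ∃ i, v = i + 1 := ⟨v - 1, by omega⟩
      unfold outF
      rw [hsh]
      exact h2' i (by omega) (by omega)
    · right
      exact h2' (m - 1) (by omega) (by omega)
    · exact ⟨ahead (rv S), h2' (m - 1) (by omega) (by omega), isCor_out_lf _⟩
    · rw [hrg]
      exact ⟨ahead (rv A), h1' 0 hk0, isCor_out_lf _⟩
  · -- the tip side is the first side at the needle
    have hpr : Pool.Agent.Perc.par (rg A) = 0 := by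
      have := StU.par_lf A
      omega
    have hcyc : Cyc U A m := by
      obtain ⟨m', hm'⟩ := cyc hA
      have hmm : m' = m := by
        rcases lt_trichotomy m' m with h | h | h
        · have := hper.inj m' h 0 hper.pos (hm'.per.trans rfl)
          have := hm'.pos
          omega
        · exact h
        · have := hm'.inj m h 0 hm'.pos (hper.per.trans rfl)
          have := hper.pos
          omega
      rwa [hmm] at hm'
    refine ⟨A, m, k, StU.jt k, start_of hUf cU eU hUW hcyc hpr hk0 hkm.le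
      (fun v _ hv => h1' v hv) (fun v hv1 hv2 => h2' v hv1 hv2) (Or.inl (h1' 0 hk0)) ?_ ?_⟩
    · refine ⟨_, h2' (m - 1) (by omega) (by omega), ?_⟩
      have h3 : IsCor (outF U A (m - 1)) (vert U A (m - 1 + 1)) := by
        rw [vert_succ]
        exact Top.isCor_out_rg _
      rw [Nat.sub_add_cancel (by omega)] at h3
      unfold vert at h3
      rwa [hper'] at h3
    · exact ⟨_, h1' 0 hk0, Top.isCor_out_rg _⟩

/-! ### The true data -/

/-- Even on the needle, odd on the old faces. -/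
structure Froz (W Q : Set (ℤ × ℤ)) (ω : Cfg) : Prop where
  ev : ∀ f ∈ Q, ω f = !parD 0 f
  od : ∀ f, f ∉ W → ω f = parD 0 f

variable {ω : Cfg} {e : UE}

namespace Start

variable (h : Start W Q U S m k x)
include h

theorem notW {f : ℤ × ℤ} (hf : f ∉ W) : f ∉ U := fun hh => hf (h.sub hh).1

theorem notQ {f : ℤ × ℤ} (hf : f ∈ Q) : f ∉ U := fun hh => (h.sub hh).2 hf

/-- The even corners of the needle are joined. -/
theorem conn_ev (cQ : Top.EConn Q) (hω : Froz W Q ω) {u v : ℤ × ℤ}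
    (hu : Pool.Agent.Perc.par u = 0) (hu' : ∃ f ∈ Q, IsCor f u) (hv : Pool.Agent.Perc.par v = 0)
    (hv' : ∃ f ∈ Q, IsCor f v) : Conn ω (Set.univ \ U) u v := by
  refine (solid_econn (Or.inl rfl) cQ hω.ev u ⟨hu, hu'⟩ v ⟨hv, hv'⟩).mono ?_
  exact fun f hf => ⟨Set.mem_univ _, h.notQ hf⟩

/-- The odd corners of the old faces are joined. -/
theorem conn_od (hWf : W.Finite) (eW : Esc W) (hω : Froz W Q ω) {u v : ℤ × ℤ}
    (hu : Pool.Agent.Perc.par u = 1) (hu' : ∃ f, f ∉ W ∧ IsCor f u)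
    (hv : Pool.Agent.Perc.par v = 1) (hv' : ∃ f, f ∉ W ∧ IsCor f v) :
    Conn ω (Set.univ \ U) u v := by
  have cW : Top.EConn Wᶜ := econn_iff_top.1 (econn_compl hWf eW)
  refine (solid_econn (c := 1) (B := Wᶜ) (Or.inr rfl) cW (fun g hg => ?_) u ⟨hu, hu'⟩ v
    ⟨hv, hv'⟩).mono ?_
  · rw [hω.od g hg, not_parD_flip (Or.inl rfl)]
    rfl
  · exact fun f hf => ⟨Set.mem_univ _, h.notW hf⟩

theorem par0 : Pool.Agent.Perc.par (lf S) = 1 := by
  have := StU.par_lf S
  have := h.par
  omega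

theorem px1 : Pool.Agent.Perc.par (vert U S (x + 1)) = 1 := by
  have h1 := (joins_side (D := U) (A := S) x).par_ne
  have h2 := par_cases (vert U S (x + 1))
  have h3 := h.px
  omega

/-- **The walls at the start.** -/
theorem walls (hWf : W.Finite) (eW : Esc W) (cQ : Top.EConn Q) (hω : Froz W Q ω) :
    WallsU ω 0 Set.univ U S m x := by
  have hv1 : vert U S 1 = rg S := vert_succ 0
  have hcl : ∀ v, IsCor (outF U S v) (vert U S v) := fun v => isCor_out_lf _
  have hcr : ∀ v, IsCor (outF U S v) (vert U S (v + 1)) := fun v => by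
    rw [vert_succ]
    exact Top.isCor_out_rg _
  have hkx := h.kx
  constructor
  · intro v h1 h2 p hp hpc
    rw [hv1]
    have hQ := h.nd v (by omega) (by omega)
    refine h.conn_ev cQ hω h.par h.c1 hpc ⟨_, hQ, ?_⟩
    rcases hp with rfl | rfl
    · exact hcl v
    · exact hcr v
  · intro v h1 h2 p hp hpc
    have hp1 : Pool.Agent.Perc.par p = 1 := by
      have := par_cases p
      omega
    refine h.conn_od hWf eW hω h.par0 h.c0 hp1 ?_
    rcases Nat.lt_or_ge x v with h3 | h3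
    · refine ⟨_, h.od v (by omega) h2, ?_⟩
      rcases hp with rfl | rfl
      · exact hcl v
      · exact hcr v
    · obtain rfl : v = x := by omega
      rcases hp with rfl | rfl
      · exact absurd h.px hpc
      · exact h.t1

/-- **The true state at the start.** -/
theorem tst (hWf : W.Finite) (eW : Esc W) (cQ : Top.EConn Q) (hω : Froz W Q ω) :
    TSt ω Set.univ U S m x where
  hR := hasPot_univ
  UR := Set.subset_univ _
  fin := h.fin
  ec := h.ec
  esc := h.esc
  cyc := h.cyc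
  fwd := StU.fa_can h.par
  pos := h.pos
  lt := h.lt
  px := h.px
  walls := h.walls hWf eW cQ hω

/-- **The true data at the start.** -/
theorem trueD (hWf : W.Finite) (eW : Esc W) (cQ : Top.EConn Q) {Ξ : Cfg → Cfg}
    (hΞ : ∀ ξ, Froz W Q (Ξ ξ)) (agr : ∀ ξ, ∀ f ∈ W \ Q, Ξ ξ f = ξ f) :
    TrueD Ξ 0 Set.univ U S m x x where
  cyc := h.cyc
  ktm := h.lt.le
  lt := h.lt
  tgt := Or.inl ⟨rfl, h.px⟩
  hR := hasPot_univ
  UR := Set.subset_univ _
  hc := Or.inl rfl
  hpt := h.par
  hfa := StU.fa_can h.par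
  hfb := StU.fb_can h.par
  agr := fun ξ f hf => agr ξ f (h.sub hf)
  walls := fun ξ => h.walls hWf eW cQ (hΞ ξ)
  solid := ⟨0, Or.inl rfl, hWf.toFinset, fun ξ g hg =>
    (hΞ ξ).od g fun hh => hg (hWf.mem_toFinset.2 hh)⟩

/-- **The strand at the start.** The strand from an edge `e` behind which there is an old face and whose
even end is a corner of the needle: it enters `U` for the first time through the tip side and leaves `U`
for the last time through the target side. -/
theorem strand (hWf : W.Finite) (eW : Esc W) (cQ : Top.EConn Q) (hω : Froz W Q ω) (he : fb e ∉ W)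
    (he' : ∃ f ∈ Q, IsCor f (en 0 e)) :
    ∃ N s t, 0 < N ∧ pth ω e N = e ∧ s < t ∧ t < N ∧ pth ω e s = S.1 ∧
      (∀ i < s, fa (pth ω e i) ∉ U) ∧ pth ω e t = (side U S x).1 ∧
      ∀ i, t ≤ i → i < N → fa (pth ω e i) ∉ U := by
  obtain ⟨N, hN, hper⟩ := pth_periodic (d := 0) (Or.inl rfl) (F := hWf.toFinset)
    (fun g hg => hω.od g fun hh => hg (hWf.mem_toFinset.2 hh)) e
  have heU : fb e ∉ U := h.notW he
  have hfa : fa S.1 = ahead S := StU.fa_can h.par
  have hfb : fb S.1 = ahead (rv S) := StU.fb_can h.par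
  have hS := h.cyc.bd
  have hT := bd_side hS x
  have hpr : Pool.Agent.Perc.par (rg (side U S x)) ≠ 0 := by
    rw [← vert_succ, h.px1]
    norm_num
  obtain ⟨hta, htb⟩ := bwd_of_par hpr
  have e1 : en (1 - 0) e = en 1 e := by norm_num
  have p0 : Pool.Agent.Perc.par (en 0 e) = 0 := par_en (Or.inl rfl) e
  have p1 : Pool.Agent.Perc.par (en 1 e) = 1 := par_en (Or.inr rfl) e
  have he1 : ∃ f, f ∉ W ∧ IsCor f (en 1 e) := ⟨_, he, isCor_en (isSide_fb e) 1⟩
  -- the ends of the tip side and of the target side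
  have s0 : en 0 S.1 = rg S := en_joins (joins_lf_rg S).symm h.par
  have s1 : en 1 S.1 = lf S := en_joins (joins_lf_rg S) h.par0
  have t0 : en 0 (side U S x).1 = vert U S x := en_joins (joins_side x) h.px
  have t1 : en 1 (side U S x).1 = vert U S (x + 1) := en_joins (joins_side x).symm h.px1
  obtain ⟨s, hsN, hs1, hs2⟩ := first_entry (a := S.1) (c := 0) hasPot_univ (Set.subset_univ U) h.ec
    (Or.inl rfl) heU (Set.mem_univ _) hN hper (by rw [hfa]; exact hS.1) (by rw [hfb]; exact hS.2)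
    (by rw [s0]; exact h.conn_ev cQ hω p0 he' h.par h.c1)
    (by
      rw [show (1 : ℤ) - 0 = 1 by norm_num, s1]
      exact h.conn_od hWf eW hω p1 he1 h.par0 h.c0)
  obtain ⟨t, htN, ht1, ht2⟩ := last_exit (a := (side U S x).1) (c := 0) hasPot_univ
    (Set.subset_univ U) h.ec (Or.inl rfl) heU (Set.mem_univ _) hN hper (by rw [htb]; exact hT.1)
    (by rw [hta]; exact hT.2)
    (by rw [t0]; exact h.conn_ev cQ hω p0 he' h.px h.t0)
    (by
      rw [show (1 : ℤ) - 0 = 1 by norm_num, t1]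
      exact h.conn_od hWf eW hω p1 he1 h.px1 h.t1)
  refine ⟨N, s, t, hN, hper, ?_, htN, hs1, hs2, ht1, ht2⟩
  by_contra hcon
  have h1 : fb (pth ω e t) ∈ U := by rw [ht1, htb]; exact hT.1
  rcases Nat.eq_zero_or_pos t with h0 | h0
  · rw [h0, pth_zero] at h1
    exact heU h1
  · refine hs2 (t - 1) (by omega) ?_
    rw [← fb_pth_succ, Nat.sub_add_cancel (by omega)]
    exact h1

/-- The tip side is determined by the strand: two strands which agree outside `U`. -/
theorem strand_eq {S' : UE × Bool} {m' k' x' : ℕ} (h' : Start W Q U S' m' k' x') (hWf : W.Finite)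
    (eW : Esc W) (cQ : Top.EConn Q) (hω : Froz W Q ω) (he : fb e ∉ W)
    (he' : ∃ f ∈ Q, IsCor f (en 0 e)) : S = S' := by
  obtain ⟨N, s, t, -, -, -, -, hs1, hs2, -, -⟩ := h.strand hWf eW cQ hω he he'
  obtain ⟨N', s', t', -, -, -, -, hs1', hs2', -, -⟩ := h'.strand hWf eW cQ hω he he'
  have hin : ∀ {S₁ : UE × Bool} {m₁ k₁ x₁ : ℕ}, Start W Q U S₁ m₁ k₁ x₁ → fa S₁.1 ∈ U := by
    intro S₁ m₁ k₁ x₁ h₁
    rw [StU.fa_can h₁.par]
    exact h₁.cyc.bd.1
  have hss : s = s' := by
    rcases lt_trichotomy s s' with h1 | h1 | h1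
    · exact absurd (by rw [hs1]; exact hin h) (hs2' s h1)
    · exact h1
    · exact absurd (by rw [hs1']; exact hin h') (hs2 s' h1)
  have h2 : S.1 = S'.1 := by rw [← hs1, ← hs1', hss]
  exact h.cyc.bd.eq_of_fst h'.cyc.bd h2

end Start

end Start

/-! ### The instance for a needle of the scan -/

section Scan

open Pool.Agent.PercU Pool.Agent.PercT Pool.Agent.PercX60
open Pool.Agent.MP_6bd702.H23 (Ed ea eb)
open Pool.Agent.SixB.Rule Pool.Agent.SixB.Dct

variable {n : ℕ} {V : Finset (ℤ × ℤ)} {T Q : Finset Edg} {k₀ : Cor} {f₀ : ℤ × ℤ}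

theorem eE_parD (f : ℤ × ℤ) : (eE f).2.2 = parD 0 f := by
  obtain ⟨x, y⟩ := f
  unfold eE parD
  split_ifs with h
  · exact (decide_eq_false (by simpa using h)).symm
  · exact (decide_eq_true (by simpa using h)).symm

/-- **The configuration of a step of the scan** is even on the needle and odd on the old faces. -/
theorem froz_mix (hQ : QF Q ⊆ FU V) (ω : Cfg) :
    Froz (FU V) (QF Q) (mix (FU V \ QF Q) ω (gT (Q : Set Ed))) where
  ev := by
    intro f hf
    rw [mix_of_notMem fun h => h.2 hf, ← eE_parD]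
    exact (gT_eE _ f).2 hf
  od := by
    intro f hf
    rw [mix_of_notMem fun h => hf h.1, ← eE_parD]
    have h1 : ¬ (gT (Q : Set Ed) f = !(eE f).2.2) := fun h => hf (hQ ((gT_eE _ f).1 h))
    cases h2 : gT (Q : Set Ed) f <;> cases h3 : (eE f).2.2 <;> simp_all

/-- The first face of the needle. -/
theorem exists_first (hN : NdF V Q k₀) (hne : (QF Q).Nonempty) :
    ∃ q ∈ QF Q, AdjF q (fb (kU k₀)) ∧ IsCor q (en 0 (kU k₀)) := by
  obtain ⟨f, hf⟩ := hne
  rcases Relation.ReflTransGen.cases_head (hN.chain f hf) with h | ⟨q, ⟨h1, h2⟩, -⟩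
  · rw [← h] at hf
    exact absurd (hN.QF_sub hf) hN.f₀_notMem
  · refine ⟨q, h2, by rw [fb_kU]; exact h1.symm, ?_⟩
    obtain ⟨w, hw1, hw2⟩ := adj_share h1
    have hwV : w ∈ V := by
      have h3 := hN.QF_sub h2
      rcases sq_phiV.1 hw2 with h4 | h4
      · rw [← h4]; exact h3.1
      · rw [← h4]; exact h3.2
    have hwk : w = vtx k₀ := by
      have h3 := sq_phiV.1 hw1
      rw [eE_phiE] at h3
      rcases Dct.qryb_ends k₀ with ⟨h4, h5⟩ | ⟨h4, h5⟩
      · rw [h4, h5] at h3
        rcases h3 with h3 | h3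
        · exact h3.symm
        · rw [← h3] at hwV; exact absurd hwV hN.wall
      · rw [h4, h5] at h3
        rcases h3 with h3 | h3
        · rw [← h3] at hwV; exact absurd hwV hN.wall
        · exact h3.symm
    rw [en0_kU]
    rw [hwk] at hw2
    have h5 : gV k₀ = phiV (vtx k₀) := rfl
    rw [h5]
    unfold Sq at hw2
    unfold IsCor
    omega

/-- **The start of a step of the scan.** `U` is the component of the fresh faces off the needle which
contains `f₀` and has an old side; it is inside the component of the fresh faces with the needle. -/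
theorem start_scan (hI : Rule.Inv n T V) (hN : NdF V Q k₀) (cQ : Top.EConn (QF Q))
    (hf₀ : f₀ ∈ FU V \ QF Q) {q : ℤ × ℤ} (hq : q ∈ QF Q) (hj : f₀ ∈ compT (FU V) q)
    (hold : ∃ B, BD (compT (FU V \ QF Q) f₀) B ∧ ahead (rv B) ∉ FU V) :
    ∃ S m k x, Start (FU V) (QF Q) (compT (FU V \ QF Q) f₀) S m k x ∧
      TrueD (fun ξ => mix (FU V \ QF Q) ξ (gT (Q : Set Ed))) 0 Set.univ
        (compT (FU V \ QF Q) f₀) S m x x ∧
      ∀ ω, TSt (mix (FU V \ QF Q) ω (gT (Q : Set Ed))) Set.univ (compT (FU V \ QF Q) f₀) S m x ∧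
        ∃ N s t, 0 < N ∧ pth (mix (FU V \ QF Q) ω (gT (Q : Set Ed))) (kU k₀) N = kU k₀ ∧ s < t ∧
          t < N ∧ pth (mix (FU V \ QF Q) ω (gT (Q : Set Ed))) (kU k₀) s = S.1 ∧
          (∀ i < s, fa (pth (mix (FU V \ QF Q) ω (gT (Q : Set Ed))) (kU k₀) i) ∉
            compT (FU V \ QF Q) f₀) ∧
          pth (mix (FU V \ QF Q) ω (gT (Q : Set Ed))) (kU k₀) t =
            (side (compT (FU V \ QF Q) f₀) S x).1 ∧
          ∀ i, t ≤ i → i < N → fa (pth (mix (FU V \ QF Q) ω (gT (Q : Set Ed))) (kU k₀) i) ∉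
            compT (FU V \ QF Q) f₀ := by
  obtain ⟨q₁, hq₁, hadj, hcor⟩ := exists_first hN ⟨q, hq⟩
  have hWf : (FU V).Finite := finite_FU hI.sub
  have eW : Esc (FU V) := esc_FU hI
  have hb : fb (kU k₀) ∉ FU V := by rw [fb_kU]; exact hN.f₀_notMem
  have hqq : q ∈ compT (FU V) q₁ := sub_compT cQ hN.QF_sub hq₁ hq
  have hj' : f₀ ∈ compT (FU V) q₁ := by
    rw [← compT_eq (hN.QF_sub hq₁) hqq]
    exact hj
  obtain ⟨S, m, k, x, h⟩ := start_data hWf eW hN.QF_sub cQ hq₁ hb hadj hf₀ hj' hold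
  refine ⟨S, m, k, x, h, h.trueD hWf eW cQ (fun ξ => froz_mix hN.QF_sub ξ) (fun ξ f hf =>
    mix_of_mem hf), fun ω => ⟨h.tst hWf eW cQ (froz_mix hN.QF_sub ω), ?_⟩⟩
  exact h.strand hWf eW cQ (froz_mix hN.QF_sub ω) hb ⟨q₁, hq₁, hcor⟩

end Scan

end Pool.Agent.SixB.StW
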