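import Pool.Agent.Lib.SixB.S8InvD
import Pool.Agent.Lib.SixB.S8ChainA
import Pool.Agent.Lib.SixB.S8StartW

/-!
# Step 8: the configuration after resampling, the component of the tip

* `cfS_solid`, `Xi_solid`: outside of `FU V` the configuration which is read is `parD 0`;
* `Xi_per`: every strand is closed;
* `Xi_agr`: on the fresh faces off the explored faces the configuration is the new one;
* `comp_step`: the component of the fresh faces after more faces are removed;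
* `frS_step`, `uS_step`: the instance for one stage;
* `tst_V_sub`, `tst_QF_sub`, `tst_per`, `tst_solid`: the states of the chain.
-/

set_option autoImplicit false

namespace Pool.Agent.SixB.Tru

open Finset Pool.Agent.Perc Pool.Agent.PercT Pool.Agent.PercX60
open Pool.Agent.MP_6bd702.H23 (Ed ea eb)
open Pool.Agent.SixB Pool.Agent.SixB.Rule Pool.Agent.SixB.Dct Pool.Agent.SixB.Mv
open Pool.Agent.SixB.Top

variable {n : ℕ} {s : TS} {q : Rule.Ndl} {ω ξ : Cfg} {V : Finset (ℤ × ℤ)}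

/-- Outside of the fresh faces the configuration is odd. -/
theorem cfS_solid (hQ : QF q.1 ⊆ FU V) (η : Cfg) {g : ℤ × ℤ} (hg : g ∉ FU V) :
    cfS V q η g = parD 0 g := (StW.froz_mix hQ η).od g hg

theorem cfS_needle (hQ : QF q.1 ⊆ FU V) (η : Cfg) {g : ℤ × ℤ} (hg : g ∈ QF q.1) :
    cfS V q η g = !parD 0 g := (StW.froz_mix hQ η).ev g hg

theorem cfS_fresh {η : Cfg} {g : ℤ × ℤ} (hg : g ∈ FU V \ QF q.1) : cfS V q η g = η g :=
  mix_of_mem hg

theorem Xi_solid (hQ : QF q.1 ⊆ FU s.V) (ω ξ : Cfg) {g : ℤ × ℤ} (hg : g ∉ FU s.V) :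
    Xi s q ω ξ g = parD 0 g := cfS_solid hQ _ hg

/-- **Every strand is closed.** -/
theorem cfS_per (hV : V ⊆ Box n) (hQ : QF q.1 ⊆ FU V) (η : Cfg) (e : UE) :
    ∃ N, 0 < N ∧ pth (cfS V q η) e N = e := by
  classical
  exact pth_periodic (Or.inl rfl) (F := (finite_FU hV).toFinset)
    (fun g hg => cfS_solid hQ η fun hh => hg ((finite_FU hV).mem_toFinset.2 hh)) e

theorem Xi_per (hV : s.V ⊆ Box n) (hQ : QF q.1 ⊆ FU s.V) (ω ξ : Cfg) (e : UE) :
    ∃ N, 0 < N ∧ pth (Xi s q ω ξ) e N = e := cfS_per hV hQ _ e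

/-- The hypothesis of `hstop_solid` for all the configurations at the same time. -/
theorem Xi_solid_fin (hV : s.V ⊆ Box n) (hQ : QF q.1 ⊆ FU s.V) (ω : Cfg) :
    ∃ F : Finset (ℤ × ℤ), ∀ ξ g, g ∉ F → Xi s q ω ξ g = parD 0 g := by
  classical
  exact ⟨(finite_FU hV).toFinset, fun ξ g hg =>
    Xi_solid hQ ω ξ fun hh => hg ((finite_FU hV).mem_toFinset.2 hh)⟩

/-- The fresh faces off the explored faces. -/
theorem notMem_expS (hq : s.q = some q) {f : ℤ × ℤ} (hf : f ∈ frS s q ω) : f ∉ expS s ω := by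
  unfold expS
  rw [hq]
  rintro (h | ⟨-, h⟩)
  · exact h hf.1.1
  · exact hf.2 h

/-- **On the fresh faces the configuration is the new one.** -/
theorem Xi_agr (hq : s.q = some q) {f : ℤ × ℤ} (hf : f ∈ frS s q ω) : Xi s q ω ξ f = ξ f := by
  unfold Xi
  rw [cfS_fresh hf.1, mix_of_notMem (notMem_expS hq hf)]

/-- On the explored faces the configuration is the old one. -/
theorem Xi_old {f : ℤ × ℤ} (hf : f ∈ expS s ω) : Xi s q ω ξ f = cfS s.V q ω f := by
  unfold Xi cfS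
  by_cases hD : f ∈ FU s.V \ QF q.1
  · rw [mix_of_mem hD, mix_of_mem hD, mix_of_mem hf]
  · rw [mix_of_notMem hD, mix_of_notMem hD]

theorem finite_frS (hV : s.V ⊆ Box n) : (frS s q ω).Finite :=
  (finite_FU hV).subset fun _ hf => hf.1.1

/-- Every face is a fresh face or the configuration is the old one there. -/
theorem mem_expS_iff (hq : s.q = some q) {f : ℤ × ℤ} :
    f ∈ expS s ω ↔ f ∉ FU s.V ∨ (f ∈ FU s.V \ QF q.1 ∧ f ∈ vS s.V q ω 0 s.t) := by
  unfold expS
  rw [hq]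
  exact Iff.rfl

/-! ### The component after more faces are removed -/

/-- The component after the faces `N` are removed. -/
theorem comp_step {W N : Set (ℤ × ℤ)} {x₀ x : ℤ × ℤ} (h₀ : x₀ ∈ W) (hx : x ∈ compT W x₀)
    (hN : x ∉ N) : compT (W \ N) x = compT (compT W x₀ \ N) x := by
  have hxW : x ∈ W := compT_sub h₀ hx
  refine Set.Subset.antisymm (fun f hf => ?_) (compT_mono fun f hf => ⟨compT_sub h₀ hf.1, hf.2⟩)
  have key : ∀ f, ChI (W \ N) x f → ChI (compT W x₀ \ N) x f := by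
    intro f hf
    induction hf with
    | refl => exact ChI.refl _
    | @tail b c hb hs ih =>
      refine ih.trans (ChI.single hs.1 ⟨?_, hs.2.2⟩)
      have h1 : b ∈ compT W x₀ := (ChI.mem (show x ∈ compT W x₀ \ N from ⟨hx, hN⟩) ih).1
      exact compT_step h1 hs.1 hs.2.1
  exact key f hf

theorem vS_split {t t' t'' : ℕ} (h1 : t ≤ t') (h2 : t' ≤ t'') :
    vS V q ω t t'' = vS V q ω t t' ∪ vS V q ω t' t'' := by
  unfold vS
  ext f
  rw [Finset.mem_union, mem_vs, mem_vs, mem_vs]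
  constructor
  · rintro ⟨i, h3, h4, rfl⟩
    rcases Nat.lt_or_ge i t' with h5 | h5
    · exact Or.inl ⟨i, h3, h5, rfl⟩
    · exact Or.inr ⟨i, h5, h4, rfl⟩
  · rintro (⟨i, h3, h4, rfl⟩ | ⟨i, h3, h4, rfl⟩)
    · exact ⟨i, h3, by omega, rfl⟩
    · exact ⟨i, by omega, h4, rfl⟩

/-- The fresh faces after a stage. -/
theorem frS_step {s' : TS} {σ : ℕ} (hV : s'.V = s.V) (ht : s'.t = s.t + σ) :
    frS s' q ω = frS s q ω \ (vS s.V q ω s.t (s.t + σ) : Set (ℤ × ℤ)) := by
  unfold frS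
  rw [hV, ht, vS_split (Nat.zero_le s.t) (Nat.le_add_right s.t σ), Finset.coe_union,
    ← Set.sdiff_sdiff]

/-- **The true domain after a stage.** -/
theorem uS_step {s' : TS} {σ : ℕ} (hV : s'.V = s.V) (ht : s'.t = s.t + σ)
    (h₀ : fa (pS s.V q ω s.t) ∈ frS s q ω) (hx : fa (pS s.V q ω (s.t + σ)) ∈ uS s q ω)
    (hN : fa (pS s.V q ω (s.t + σ)) ∉ vS s.V q ω s.t (s.t + σ)) :
    uS s' q ω = compT (uS s q ω \ (vS s.V q ω s.t (s.t + σ) : Set (ℤ × ℤ)))
      (fa (pS s.V q ω (s.t + σ))) := by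
  unfold uS
  rw [frS_step hV ht, hV, ht]
  exact comp_step h₀ hx fun hh => hN (Finset.mem_coe.1 hh)

/-- The same if the new face is in the component of another face. -/
theorem uS_step_of {s' : TS} {σ : ℕ} {y : ℤ × ℤ} (hV : s'.V = s.V) (ht : s'.t = s.t + σ)
    (h₀ : fa (pS s.V q ω s.t) ∈ frS s q ω)
    (hy : y ∈ uS s q ω \ (vS s.V q ω s.t (s.t + σ) : Set (ℤ × ℤ)))
    (hx : fa (pS s.V q ω (s.t + σ)) ∈ compT (uS s q ω \
      (vS s.V q ω s.t (s.t + σ) : Set (ℤ × ℤ))) y) :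
    uS s' q ω = compT (uS s q ω \ (vS s.V q ω s.t (s.t + σ) : Set (ℤ × ℤ))) y := by
  have h1 := compT_sub hy hx
  rw [uS_step hV ht h₀ h1.1 fun hh => h1.2 (Finset.mem_coe.2 hh)]
  exact compT_eq hy hx

theorem tS_step {s' : TS} {σ : ℕ} (hV : s'.V = s.V) (ht : s'.t = s.t + σ) :
    tS s' q ω = dirE (pS s.V q ω (s.t + σ)) := by
  unfold tS
  rw [hV, ht]

/-- A void stage does not change the true domain and the tip side. -/
theorem uS_void {s' : TS} (hV : s'.V = s.V) (ht : s'.t = s.t) : uS s' q ω = uS s q ω := by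
  unfold uS frS
  rw [hV, ht]

theorem tS_void {s' : TS} (hV : s'.V = s.V) (ht : s'.t = s.t) : tS s' q ω = tS s q ω := by
  unfold tS
  rw [hV, ht]

/-- The configuration after a void stage. -/
theorem Xi_void {s' : TS} (hV : s'.V = s.V) (hq : s'.q = s.q) (ht : s'.t = s.t) (ξ : Cfg) :
    Xi s' q ω ξ = Xi s q ω ξ := by
  unfold Xi expS
  rw [hV, ht, hq]

/-! ### The states of the chain -/

section Chain

variable {𝔇 : Dat} {d : ℕ → ℕ}

theorem finS_V_sub {t : ℕ} {x : List Rec} : (finS 𝔇 d n s q t x ω).V ⊆ s.V := by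
  unfold finS
  split
  · exact subset_rfl
  · exact Rule.stpQ_sub

theorem nxS_V_sub : (nxS 𝔇 d n s ω).V ⊆ s.V := by
  unfold nxS
  split
  · exact finS_V_sub
  · exact finS_V_sub
  · exact subset_rfl
  · exact subset_rfl

/-- The remaining vertices are in the box. -/
theorem tst_V_sub (i : ℕ) : (tst 𝔇 d n ω i).V ⊆ Box n := by
  induction i with
  | zero => exact nxS_V_sub
  | succ i ih => exact nxS_V_sub.trans ih

/-- The faces of the needle are faces of the remaining set. -/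
theorem tst_QF_sub {i : ℕ} (h : (tst 𝔇 d n ω i).q = some q) : QF q.1 ⊆ FU (tst 𝔇 d n ω i).V := by
  obtain ⟨-, k, hk, -⟩ := tst_ndF h
  exact hk.QF_sub

/-- **Every strand is closed**, for the states of the chain. -/
theorem tst_per {i : ℕ} (h : (tst 𝔇 d n ω i).q = some q) (ξ : Cfg) (e : UE) :
    ∃ N, 0 < N ∧ pth (Xi (tst 𝔇 d n ω i) q ω ξ) e N = e :=
  Xi_per (tst_V_sub i) (tst_QF_sub h) ω ξ e

theorem tst_solid {i : ℕ} (h : (tst 𝔇 d n ω i).q = some q) :
    ∃ F : Finset (ℤ × ℤ), ∀ ξ g, g ∉ F → Xi (tst 𝔇 d n ω i) q ω ξ g = parD 0 g :=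
  Xi_solid_fin (tst_V_sub i) (tst_QF_sub h) ω

end Chain

end Pool.Agent.SixB.Tru
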