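import Pool.Agent.Lib.SixB.S8ScanU
import Pool.Agent.Lib.SixB.S8ScanR

/-!
# Step 8: the scan, combinatorics of the staircase and locality; locality for an arbitrary rule
-/

set_option autoImplicit false

namespace Pool.Agent.SixB

open Set Pool.Agent.Perc Pool.Agent.PercD Pool.Agent.PercO Pool.Agent.SixB.Scan
open Pool.Agent.MP_6bd702.H23 Pool.Agent.MP_6bd702.H60
open Pool.Agent.PercU (Cor vtx fce nxt nxtE qry)

variable {n h : ℕ} {T : Finset Edg} {U : Finset (ℤ × ℤ)} {z : ℤ × ℤ}

theorem stp_sub : stp h T U z ⊆ U := by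
  by_cases hA : Act h U z
  · intro w hw
    exact ((mem_stp hA).1 hw).1
  · rw [stp_idle hA]

theorem cfN_sub (hT : T ⊆ boxE n) (hU : U ⊆ Box n) : cfN h T U z ⊆ boxE n := cfN_subset hT hU

theorem nBase_mem (hA : Act h U z) : nBase U z ∈ U := nBase_in hA

theorem mem_nVert {q : ℤ × ℤ} :
    q ∈ nVert h U z ↔ ∃ i, nEnd h U z ≤ i ∧ i ≤ len U z - 1 ∧ stair z i = q := by
  unfold nVert
  rw [Finset.mem_image]
  simp only [Finset.mem_Icc]
  constructor
  · rintro ⟨i, ⟨h1, h2⟩, h3⟩; exact ⟨i, h1, h2, h3⟩
  · rintro ⟨i, h1, h2, h3⟩; exact ⟨i, ⟨h1, h2⟩, h3⟩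

/-- A piece of the needle. -/
private theorem stair_clV (hA : Act h U z) (d : ℕ) :
    nEnd h U z + d ≤ len U z - 1 → stair z (len U z - 1 - d) ∈ clV (cfN h T U z) (nBase U z) := by
  induction d with
  | zero => intro _; exact BoxAux.mem_clV_self _ _
  | succ d ih =>
    intro hd
    have h1 := ih (by omega)
    have hA1 := hA.1
    have hA2 := hA.2
    obtain ⟨e1, e2⟩ := stairE_ends z (len U z - 1 - (d + 1))
    rw [show len U z - 1 - (d + 1) + 1 = len U z - 1 - d by omega] at e1
    refine Relation.ReflTransGen.tail h1 ⟨stairE z (len U z - 1 - (d + 1)), ?_, Or.inl ⟨?_, ?_⟩⟩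
    · exact Finset.mem_union_right _ (mem_nedl.2 ⟨_, by omega, by omega, rfl⟩)
    · rw [tl_eq]; exact e1
    · rw [hd_eq]; exact e2

/-- The vertices of the needle are in the cluster of its base. -/
theorem nVert_sub (hA : Act h U z) {q : ℤ × ℤ} (hq : q ∈ nVert h U z) :
    q ∈ U ∧ q ∈ clV (cfN h T U z) (nBase U z) := by
  obtain ⟨i, h1, h2, rfl⟩ := mem_nVert.1 hq
  have hA1 := hA.1
  have hA2 := hA.2
  refine ⟨stair_mem (by omega), ?_⟩
  have := stair_clV (T := T) hA (len U z - 1 - i) (by omega)
  rwa [show len U z - 1 - (len U z - 1 - i) = i by omega] at this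

/-- One step of the staircase. -/
theorem dist_stair_succ (z : ℤ × ℤ) (i : ℕ) :
    dist (toC (stair z (i + 1))) (toC (stair z i)) ≤ 1 := by
  obtain ⟨e1, e2⟩ := stairE_ends z i
  rw [← e1, ← e2, dist_eq_norm]
  unfold stairE
  cases decide (i % 2 = 1)
  · rw [ea_mk, eb_false]
    have : toC ((stair z (i + 1)).1, (stair z (i + 1)).2) -
        toC ((stair z (i + 1)).1 + 1, (stair z (i + 1)).2) = -1 := by
      simp [toC]
    rw [this]; simp
  · rw [ea_mk, eb_true]
    have : toC ((stair z (i + 1)).1, (stair z (i + 1)).2) -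
        toC ((stair z (i + 1)).1, (stair z (i + 1)).2 + 1) = -Complex.I := by
      simp [toC]; ring
    rw [this]; simp

theorem dist_stair (z : ℤ × ℤ) (i d : ℕ) :
    dist (toC (stair z i)) (toC (stair z (i + d))) ≤ d := by
  induction d with
  | zero => rw [add_zero, dist_self]; simp
  | succ d ih =>
    have h1 := dist_stair_succ z (i + d)
    have h2 := dist_triangle (toC (stair z i)) (toC (stair z (i + d))) (toC (stair z (i + d + 1)))
    rw [dist_comm (toC (stair z (i + d)))] at h2
    push_cast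
    change dist (toC (stair z i)) (toC (stair z (i + d + 1))) ≤ d + 1
    linarith

/-- The needle is short. -/
theorem nVert_dist (hA : Act h U z) {q : ℤ × ℤ} (hq : q ∈ nVert h U z) :
    dist (toC q) (toC (nBase U z)) ≤ 2 * h + 1 := by
  obtain ⟨i, h1, h2, rfl⟩ := mem_nVert.1 hq
  have hA1 := hA.1
  have hA2 := hA.2
  have h3 : len U z - 1 - h < nEnd h U z + h := by
    have h4 := Nat.div_add_mod (len U z - 1 - h) h
    have h5 := Nat.mod_lt (len U z - 1 - h) hA1
    unfold nEnd
    omega
  have h4 := dist_stair z i (len U z - 1 - i)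
  rw [show i + (len U z - 1 - i) = len U z - 1 by omega] at h4
  refine h4.trans ?_
  have h5 : len U z - 1 - i ≤ 2 * h + 1 := by omega
  exact_mod_cast h5

/-- Every vertex of the cluster of the needle is joined to a vertex of the needle in `T`. -/
theorem exists_nVert (hA : Act h U z) {u : ℤ × ℤ} (hu : u ∈ clV (cfN h T U z) (nBase U z)) :
    ∃ q ∈ nVert h U z, u ∈ clV (rst T U) q := by
  induction hu with
  | refl =>
    refine ⟨nBase U z, mem_nVert.2 ⟨len U z - 1, ?_, le_rfl, rfl⟩, BoxAux.mem_clV_self _ _⟩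
    have := nEnd_lt hA
    omega
  | @tail b c _ h2 ih =>
    obtain ⟨q, hq, hb⟩ := ih
    obtain ⟨e, he, hh⟩ := h2
    rcases Finset.mem_union.1 he with he | he
    · exact ⟨q, hq, Relation.ReflTransGen.tail hb ⟨e, he, hh⟩⟩
    · obtain ⟨i, h3, h4, rfl⟩ := mem_nedl.1 he
      obtain ⟨e1, e2⟩ := stairE_ends z i
      rw [tl_eq, hd_eq, e1, e2] at hh
      rcases hh with ⟨-, h5⟩ | ⟨h5, -⟩
      · exact ⟨c, mem_nVert.2 ⟨i, h3, by omega, h5⟩, BoxAux.mem_clV_self _ _⟩
      · exact ⟨c, mem_nVert.2 ⟨i + 1, by omega, by omega, h5⟩, BoxAux.mem_clV_self _ _⟩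

/-- A wide cluster of the needle reaches far. -/
theorem mac_of_diam (hT : T ⊆ boxE n) (hU : U ⊆ Box n) (hA : Act h U z) {ρ : ℝ}
    (hd : 2 * (ρ + 1) < Metric.diam (clS (cfN h T U z) (nBase U z))) : Mac ρ h T U z := by
  refine ⟨hA, ?_⟩
  by_contra hc
  push Not at hc
  have h0 : 0 ≤ ρ := by
    have := hc _ (BoxAux.mem_clV_self _ _)
    rwa [dist_self] at this
  have hsub : clS (cfN h T U z) (nBase U z) ⊆ Metric.closedBall (toC (nBase U z)) ρ := by
    intro p hp
    obtain ⟨a, ha, b, hb, hab⟩ := SmallClusters.mem_clS hp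
    exact (convex_closedBall _ _).segment_subset (hc a ha) (hc b hb) hab
  have h1 := Metric.diam_mono hsub Metric.isBounded_closedBall
  have h2 := Metric.diam_closedBall (x := toC (nBase U z)) h0
  linarith

/-- The vertices of the cluster of the needle remained. -/
theorem clV_cfN_sub (hA : Act h U z) : clV (cfN h T U z) (nBase U z) ⊆ U := by
  intro w hw
  obtain ⟨q, hq, hw'⟩ := exists_nVert hA hw
  have hqU := (nVert_sub (T := T) hA hq).1
  clear hw hq
  induction hw' with
  | refl => exact hqU
  | tail _ h2 _ =>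
    obtain ⟨e, he, hh⟩ := h2
    have h3 := (Finset.mem_filter.1 he).2
    rcases hh with ⟨-, h4⟩ | ⟨h4, -⟩
    · rw [← h4]; exact h3.2
    · rw [← h4]; exact h3.1

/-- The state depends only on the edges with a removed end. -/
theorem st_congr {T T' : Finset Edg} (hT : T ⊆ boxE n) (hT' : T' ⊆ boxE n) (w : ℕ → ℤ × ℤ)
    (j : ℕ) (hag : ∀ e ∈ boxE n, (tl e ∉ st n h w T j ∨ hd e ∉ st n h w T j) → (e ∈ T ↔ e ∈ T')) :
    st n h w T' j = st n h w T j := by
  induction j with
  | zero => rfl
  | succ j ih =>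
    have hstp : st n h w T (j + 1) = stp h T (st n h w T j) (w j) := rfl
    have hstp' : st n h w T' (j + 1) = stp h T' (st n h w T' j) (w j) := rfl
    have hUU : st n h w T (j + 1) ⊆ st n h w T j := by rw [hstp]; exact stp_sub
    have hU : st n h w T' j = st n h w T j := by
      refine ih fun e he h1 => hag e he ?_
      exact h1.imp (fun h2 h3 => h2 (hUU h3)) fun h2 h3 => h2 (hUU h3)
    rw [hstp', hU, hstp]
    rw [hstp] at hag
    have hB : st n h w T j ⊆ Box n := (inv_st hT w j).sub
    generalize st n h w T j = U at hag hB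
    by_cases hA : Act h U (w j)
    · ext x
      rw [mem_stp hA, mem_stp hA, swal_eq_hul, swal_eq_hul]
      have hH : Hul ((cfN h T' U (w j) : Finset Edg) : Set Ed) (nBase U (w j)) =
          Hul ((cfN h T U (w j) : Finset Edg) : Set Ed) (nBase U (w j)) := by
        refine hul_congr fun e he => ?_
        have hend : tl e ∉ stp h T U (w j) ∨ hd e ∉ stp h T U (w j) := by
          rw [tl_eq, hd_eq, mem_stp hA, mem_stp hA]
          rcases he with he | he
          · left
            rintro ⟨-, h2⟩
            exact h2 (Or.inl (by rw [clV_eq]; exact he))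
          · right
            rintro ⟨-, h2⟩
            exact h2 (Or.inl (by rw [clV_eq]; exact he))
        rw [Finset.mem_coe, Finset.mem_coe]
        unfold cfN rst
        rw [Finset.mem_union, Finset.mem_union, Finset.mem_filter, Finset.mem_filter]
        have key : tl e ∈ U ∧ hd e ∈ U → (e ∈ T ↔ e ∈ T') := by
          rintro ⟨h1, h2⟩
          refine hag e (mem_boxE'.2 ⟨?_, ?_⟩) hend
          · rw [← tl_eq]; exact hB h1
          · rw [← hd_eq]; exact hB h2
        constructor
        · rintro (⟨h1, h2⟩ | h1)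
          · exact Or.inl ⟨(key h2).1 h1, h2⟩
          · exact Or.inr h1
        · rintro (⟨h1, h2⟩ | h1)
          · exact Or.inl ⟨(key h2).2 h1, h2⟩
          · exact Or.inr h1
      rw [hH]
    · rw [stp_idle hA, stp_idle hA]

theorem len_le {i : ℕ} (hi : stair z i ∉ U) : len U z ≤ i :=
  Nat.sInf_le (show i ∈ {i | stair z i ∉ U} from hi)

/-- Every step removes at least `h` vertices of the staircase. -/
theorem len_stp (hU : U ⊆ Box n) (hA : Act h U z) : len (stp h T U z) z + h ≤ len U z := by
  have h1 := nEnd_lt hA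
  have h2 : len (stp h T U z) z ≤ nEnd h U z := by
    refine len_le fun h3 => ((mem_stp hA).1 h3).2 (Or.inl ?_)
    exact (nVert_sub hA (mem_nVert.2 ⟨nEnd h U z, le_rfl, by omega, rfl⟩)).2
  omega

/-- The staircase of a target of the grid is not long. -/
theorem len_le_box (hU : U ⊆ Box n) {m : ℕ} (hz : z.1 ≤ m) : len U z ≤ 2 * m + 1 := by
  refine len_le fun h1 => ?_
  have h2 := (mem_Box_iff.1 (hU h1)).1
  unfold stair at h2
  simp only at h2
  have h3 : (2 * m + 1 + 1) / 2 = m + 1 := by omega
  rw [h3] at h2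
  push_cast at h2
  omega

/-- After `M` visits in a row the staircase of the target is short. -/
theorem not_act_of_visits {K M : ℕ} (hK : 0 < K) (hM : 5 * K + 10 ≤ M) (hn : K * K ≤ n)
    (hT : T ⊆ boxE n) {i : ℕ} (hi : i < (K + 2) * (K + 2)) :
    ¬ Act (n / K) (st n (n / K) (tgt K M (n / K)) T ((i + 1) * M))
      (tgt K M (n / K) (i * M)) := by
  set h := n / K with hh
  set w := tgt K M h with hw
  have hM0 : 0 < M := by omega
  have htg : ∀ k < M, w (i * M + k) = w (i * M) := by
    intro k hk
    have h1 : (i * M + k) / M = i := by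
      rw [Nat.mul_comm, Nat.mul_add_div hM0, Nat.div_eq_of_lt hk, add_zero]
    have h2 : i * M / M = i := Nat.mul_div_cancel _ hM0
    rw [hw]
    unfold tgt
    rw [h1, h2]
  have hz : (w (i * M)).1 ≤ (((K + 1) * h : ℕ) : ℤ) := by
    have h2 : i * M / M = i := Nat.mul_div_cancel _ hM0
    rw [hw]
    unfold tgt
    simp only [h2]
    have h3 : i / (K + 2) ≤ K + 1 := by
      have : i / (K + 2) < K + 2 := Nat.div_lt_of_lt_mul hi
      omega
    exact_mod_cast Nat.mul_le_mul_right h h3
  have key : ∀ k, k ≤ M → ¬ Act h (st n h w T (i * M + k)) (w (i * M)) ∨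
      len (st n h w T (i * M + k)) (w (i * M)) + k * h ≤ 2 * ((K + 1) * h) + 1 := by
    intro k
    induction k with
    | zero =>
      intro _
      right
      rw [add_zero, zero_mul, add_zero]
      exact len_le_box (inv_st hT w _).sub hz
    | succ k ih =>
      intro hk
      have hs : st n h w T (i * M + (k + 1)) = stp h T (st n h w T (i * M + k)) (w (i * M)) := by
        rw [← htg k (by omega)]
        rfl
      rw [hs]
      by_cases hA : Act h (st n h w T (i * M + k)) (w (i * M))
      · have h1 := (ih (by omega)).resolve_left (fun h2 => h2 hA)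
        have h2 := len_stp (T := T) (inv_st hT w (i * M + k)).sub hA
        right
        rw [Nat.succ_mul]
        omega
      · left
        rw [stp_idle hA]
        exact hA
  have h1 := key M le_rfl
  rw [show (i + 1) * M = i * M + M by ring]
  rcases h1 with h1 | h1
  · exact h1
  · rintro ⟨h2, h3⟩
    have h4 : (5 * K + 10) * h ≤ M * h := Nat.mul_le_mul_right h hM
    nlinarith

namespace Rule

variable {q : Ndl} {R : Rul}

/-- Every vertex of the cluster of the needle is joined to a vertex of the needle in `T`. -/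
theorem exists_qV (hT : T ⊆ boxE n) (hU : U ⊆ Box n) (hq : IsNdl h U q) {u : ℤ × ℤ}
    (hu : u ∈ clV (cfQ T U q) q.2) : ∃ x ∈ qV q.1, u ∈ clV (rst T U) x := by
  induction hu with
  | refl => exact ⟨q.2, hq.base, BoxAux.mem_clV_self _ _⟩
  | @tail b c _ h2 ih =>
    obtain ⟨x, hx, hb⟩ := ih
    obtain ⟨e, he, hh⟩ := h2
    rcases Finset.mem_union.1 he with he | he
    · exact ⟨x, hx, Relation.ReflTransGen.tail hb ⟨e, he, hh⟩⟩
    · refine ⟨c, ?_, BoxAux.mem_clV_self _ _⟩
      unfold qV
      rcases hh with ⟨-, h5⟩ | ⟨h5, -⟩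
      · exact Finset.mem_union_right _ (Finset.mem_image.2 ⟨e, he, h5⟩)
      · exact Finset.mem_union_left _ (Finset.mem_image.2 ⟨e, he, h5⟩)

/-- A wide cluster of the needle reaches far. -/
theorem mac_of_diam (hT : T ⊆ boxE n) (hU : U ⊆ Box n) (hq : IsNdl h U q) {ρ : ℝ}
    (hd : 2 * (ρ + 1) < Metric.diam (clS (cfQ T U q) q.2)) : Mac ρ T U q := by
  unfold Mac
  by_contra hc
  push Not at hc
  have h0 : 0 ≤ ρ := by
    have := hc _ (BoxAux.mem_clV_self _ _)
    rwa [dist_self] at this
  have hsub : clS (cfQ T U q) q.2 ⊆ Metric.closedBall (toC q.2) ρ := by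
    intro p hp
    obtain ⟨a, ha, b, hb, hab⟩ := SmallClusters.mem_clS hp
    exact (convex_closedBall _ _).segment_subset (hc a ha) (hc b hb) hab
  have h1 := Metric.diam_mono hsub Metric.isBounded_closedBall
  have h2 := Metric.diam_closedBall (x := toC q.2) h0
  linarith

theorem stR_succ_sub (j : ℕ) : stR n R T (j + 1) ⊆ stR n R T j := by
  classical
  change (R j T).elim (stR n R T j) (stpQ T (stR n R T j)) ⊆ stR n R T j
  rcases R j T with _ | q
  · exact Finset.Subset.refl _
  · exact Finset.filter_subset _ _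

theorem stR_sub_box (j : ℕ) : stR n R T j ⊆ Box n := by
  induction j with
  | zero => exact Finset.Subset.refl _
  | succ j ih => exact (stR_succ_sub j).trans ih

/-- The state depends only on the explored edges. -/
theorem st_congr (hR : RulOK n h R) {T T' : Finset Edg} (hT : T ⊆ boxE n) (hT' : T' ⊆ boxE n)
    (j : ℕ) (hag : ∀ e ∈ boxE n, (tl e ∉ stR n R T j ∨ hd e ∉ stR n R T j) → (e ∈ T ↔ e ∈ T')) :
    stR n R T' j = stR n R T j := by
  classical
  induction j with
  | zero => rfl
  | succ j ih =>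
    have hUU : stR n R T (j + 1) ⊆ stR n R T j := stR_succ_sub j
    have hag' : ∀ e ∈ boxE n, (tl e ∉ stR n R T j ∨ hd e ∉ stR n R T j) → (e ∈ T ↔ e ∈ T') := by
      refine fun e he h1 => hag e he ?_
      exact h1.imp (fun h2 h3 => h2 (hUU h3)) fun h2 h3 => h2 (hUU h3)
    have hU : stR n R T' j = stR n R T j := ih hag'
    have hRR : R j T' = R j T := hR.loc T T' hT hT' j hag'
    have hB : stR n R T j ⊆ Box n := stR_sub_box j
    have hs : stR n R T (j + 1) = (R j T).elim (stR n R T j) (stpQ T (stR n R T j)) := rfl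
    have hs' : stR n R T' (j + 1) = (R j T').elim (stR n R T' j) (stpQ T' (stR n R T' j)) := rfl
    rw [hs', hRR, hU, hs]
    rw [hs] at hag
    rcases hRj : R j T with _ | q
    · rfl
    · have hq := hR.ndl T hT j q hRj
      rw [hRj] at hag
      simp only [Option.elim_some] at hag ⊢
      generalize stR n R T j = U at hag hB hq
      have hH : Hul ((cfQ T' U q : Finset Edg) : Set Ed) q.2 =
          Hul ((cfQ T U q : Finset Edg) : Set Ed) q.2 := by
        refine hul_congr fun e he => ?_
        have hend : tl e ∉ stpQ T U q ∨ hd e ∉ stpQ T U q := by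
          unfold stpQ
          rw [tl_eq, hd_eq, Finset.mem_filter, Finset.mem_filter]
          rcases he with he | he
          · left
            rintro ⟨-, h2⟩
            exact h2 (Or.inl (by rw [clV_eq]; exact he))
          · right
            rintro ⟨-, h2⟩
            exact h2 (Or.inl (by rw [clV_eq]; exact he))
        rw [Finset.mem_coe, Finset.mem_coe]
        unfold cfQ rst
        rw [Finset.mem_union, Finset.mem_union, Finset.mem_filter, Finset.mem_filter]
        have key : tl e ∈ U ∧ hd e ∈ U → (e ∈ T ↔ e ∈ T') := by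
          rintro ⟨h1, h2⟩
          refine hag e (mem_boxE'.2 ⟨?_, ?_⟩) hend
          · rw [← tl_eq]; exact hB h1
          · rw [← hd_eq]; exact hB h2
        constructor
        · rintro (⟨h1, h2⟩ | h1)
          · exact Or.inl ⟨(key h2).1 h1, h2⟩
          · exact Or.inr h1
        · rintro (⟨h1, h2⟩ | h1)
          · exact Or.inl ⟨(key h2).2 h1, h2⟩
          · exact Or.inr h1
      ext x
      unfold stpQ
      rw [Finset.mem_filter, Finset.mem_filter, swal_eq_hul, swal_eq_hul, hH]

end Rule

end Pool.Agent.SixB
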