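import Pool.Agent.Lib.SixB.S8ScanDet
import Pool.Agent.Lib.SixB.S8ScanV
import Pool.Agent.Lib.SixB.S8ScanE

/-!
# Step 8: the next state of the scan in terms of faces, adaptedness

Let `S = rst T U ∪ Q` be the configuration of a step with base corner `k₀`. The visited faces `VF`
are the faces of the edges which are queried at the outer corners of the cluster of the base, that
is, the faces in front of the strand which starts at `kU k₀`. The fresh faces of the next state are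
the unvisited fresh faces with an outer odd corner (`kept_iff`): they are a union of components of
the unvisited fresh faces (`next_adj`), everything at the wall (`next_wall`) and on the left of the
strand (`next_left`) is kept, everything on the right is removed (`next_right`).
-/

set_option autoImplicit false

namespace Pool.Agent.SixB.Dct

open Finset Pool.Agent.Perc Pool.Agent.PercU Pool.Agent.PercT Pool.Agent.PercX60
open Pool.Agent.PercO (mem_boxE' tl_eq hd_eq Kc Tc Oc Orb Tc_sub boxE_sub orb_eq_Oc orb_sub_Oc)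
open Pool.Agent.MP_6bd702.H23 (Ed ea eb ea_mk eb_true eb_false f1 f2)
open Pool.Agent.MP_6bd702.H60 (Out)
open Pool.Agent.SixB Pool.Agent.SixB.Rule Pool.Agent.SixB.Scan

/-! ### Corners of a face -/

/-- The odd corners of a face of the grid are the two squares at its edge. -/
theorem sq_phiF {F f : ℤ × ℤ} : Sq (phiF F) f ↔ f1 (eE f) = F ∨ f2 (eE f) = F := by
  obtain ⟨X, Y⟩ := f
  obtain ⟨x, y⟩ := F
  by_cases h : (X + Y) % 2 = 0
  · have e1 : eE (X, Y) = ((X + Y) / 2, (X - Y) / 2, false) := by simp only [eE, h, if_true]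
    rw [e1]
    simp only [Sq, phiF, f1, f2, Bool.false_eq_true, if_false, Prod.mk.injEq]
    omega
  · have e1 : eE (X, Y) = ((X + Y + 1) / 2, (X - Y - 1) / 2, true) := by
      simp only [eE, h, if_false]
    rw [e1]
    simp only [Sq, phiF, f1, f2, if_true, Prod.mk.injEq]
    omega

/-- An end of an edge and a square at the edge are a corner; the edge is one of the two edges of the
corner. -/
theorem exists_corner_edge (e : Ed) {w F : ℤ × ℤ} (hw : ea e = w ∨ eb e = w)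
    (hF : f1 e = F ∨ f2 e = F) : ∃ k : Cor, vtx k = w ∧ fce k = F ∧ (qry k = e ∨ qryb k = e) := by
  obtain ⟨x, y, _ | _⟩ := e
  · rcases hw with rfl | rfl <;> rcases hF with rfl | rfl
    · exact ⟨(x, y, true, false), rfl, by simp [fce, f1], Or.inl rfl⟩
    · exact ⟨(x, y, true, true), rfl, by simp [fce, f2], Or.inr rfl⟩
    · exact ⟨(x + 1, y, false, false), rfl, by simp [fce, f1], Or.inr (by simp [qryb])⟩
    · exact ⟨(x + 1, y, false, true), rfl, by simp [fce, f2], Or.inl (by simp [qry])⟩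
  · rcases hw with rfl | rfl <;> rcases hF with rfl | rfl
    · exact ⟨(x, y, false, true), rfl, by simp [fce, f1], Or.inr rfl⟩
    · exact ⟨(x, y, true, true), rfl, by simp [fce, f2], Or.inl rfl⟩
    · exact ⟨(x, y + 1, false, false), rfl, by simp [fce, f1], Or.inl (by simp [qry])⟩
    · exact ⟨(x, y + 1, true, false), rfl, by simp [fce, f2], Or.inr (by simp [qryb])⟩

/-- Adjacent faces have a common odd corner. -/
theorem adj_share_odd {f g : ℤ × ℤ} (h : AdjF f g) : ∃ F, Sq (phiF F) f ∧ Sq (phiF F) g := by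
  have key : ∀ v : ℤ × ℤ, (v.1 + v.2) % 2 = 1 →
      phiF ((v.1 + v.2 - 1) / 2, (v.1 - v.2 - 1) / 2) = v := by
    intro v hv
    refine Prod.ext ?_ ?_ <;> simp only [phiF] <;> omega
  obtain ⟨X, Y⟩ := f
  have two : ∀ v v' : ℤ × ℤ, ((v.1 + v.2) % 2 = 1 ∨ (v'.1 + v'.2) % 2 = 1) →
      (Sq v (X, Y) ∧ Sq v g) → (Sq v' (X, Y) ∧ Sq v' g) →
      ∃ w, Sq (phiF w) (X, Y) ∧ Sq (phiF w) g := by
    intro v v' h h1 h2
    rcases h with h | h
    · exact ⟨_, by rw [key v h]; exact h1⟩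
    · exact ⟨_, by rw [key v' h]; exact h2⟩
  rcases adjF_iff.1 h with rfl | rfl | rfl | rfl
  · refine two (X + 1, Y) (X + 1, Y + 1) (by simp only; omega) ?_ ?_ <;> simp [Sq]
  · refine two (X, Y) (X, Y + 1) (by simp only; omega) ?_ ?_ <;> simp [Sq]
  · refine two (X, Y + 1) (X + 1, Y + 1) (by simp only; omega) ?_ ?_ <;> simp [Sq]
  · refine two (X, Y) (X + 1, Y) (by simp only; omega) ?_ ?_ <;> simp [Sq]

/-! ### Visited faces -/

/-- The faces of the edges queried at the outer corners of the cluster of `a`. -/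
def VF (S : Set Ed) (a : ℤ × ℤ) : Set (ℤ × ℤ) := {f | ∃ k ∈ Oc S a, phiE (qry k) = f}

section Visited

variable {n : ℕ} {S : Set Ed} {a : ℤ × ℤ}

theorem prv_mem_Oc (hS : S ⊆ (MP_6bd702.H23.EW 0 (n : ℤ) 0 n : Set Ed)) {k : Cor} (hk : k ∈ Oc S a) :
    prv S k ∈ Oc S a := by
  refine orb_sub_Oc hS hk ⟨-1, ?_⟩
  rw [zpow_neg_one]
  rfl

theorem qry_prv (S : Set Ed) (k : Cor) : qry (prv S k) = qryb k := by
  unfold prv
  split_ifs
  · exact qry_advb k
  · exact qry_rotb k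

/-- Both edges at an outer corner are visited. -/
theorem mem_VF_of (hS : S ⊆ (MP_6bd702.H23.EW 0 (n : ℤ) 0 n : Set Ed)) {k : Cor} (hk : k ∈ Oc S a)
    {f : ℤ × ℤ} (h : qry k = eE f ∨ qryb k = eE f) : f ∈ VF S a := by
  rcases h with h | h
  · exact ⟨k, hk, by rw [h, phiE_eE]⟩
  · exact ⟨prv S k, prv_mem_Oc hS hk, by rw [qry_prv, h, phiE_eE]⟩

/-- The visited faces are the faces in front of the strand. -/
theorem mem_VF_iff (hS : S ⊆ (MP_6bd702.H23.EW 0 (n : ℤ) 0 n : Set Ed)) {k : Cor} (hk : k ∈ Oc S a)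
    {f : ℤ × ℤ} : f ∈ VF S a ↔ ∃ t : ℕ, fa (pth (gT S) (kU k) t) = f := by
  constructor
  · rintro ⟨k', hk', rfl⟩
    obtain ⟨j, hj⟩ := PercO.outer_orbit hS hk hk'
    exact ⟨j, by rw [← kU_iterate, hj, fa_kU]⟩
  · rintro ⟨t, rfl⟩
    refine ⟨(nxt S)^[t] k, ?_, by rw [← kU_iterate, fa_kU]⟩
    induction t with
    | zero => exact hk
    | succ t ih =>
      rw [Function.iterate_succ_apply']
      exact PercO.nxt_mem_Oc ih

end Visited

/-! ### The next state -/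

variable {n : ℕ} {U : Finset (ℤ × ℤ)} {Q T : Finset Edg} {k₀ : Cor}

/-- The remaining vertices after the step with needle `Q` and base `a`. -/
theorem mem_next {S : Finset Edg} {a w : ℤ × ℤ} : w ∉ Swal S a ↔
    w ∉ Kc (S : Set Ed) a ∧ ∀ k : Cor, vtx k = w → fce k ∈ Out (Tc (S : Set Ed) a) := by
  rw [swal_eq_hul]
  unfold Hul
  rw [Set.mem_ofPred_eq]
  push Not
  constructor
  · rintro ⟨h1, k, hk, hk'⟩
    exact ⟨h1, fun k' hk2 => out_of_notMem h1 hk hk2 hk'⟩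
  · rintro ⟨h1, h2⟩
    exact ⟨h1, (w.1, w.2, true, true), rfl, h2 _ rfl⟩

namespace NdF

variable (hN : NdF U Q k₀)

include hN

/-- The configuration of the step is in the box. -/
theorem coe_sub (hT : T ⊆ boxE n) (hU : U ⊆ Box n) :
    ((rst T U ∪ Q : Finset Edg) : Set Ed) ⊆ (MP_6bd702.H23.EW 0 (n : ℤ) 0 n : Set Ed) :=
  boxE_sub (hN.cfg_sub hT hU)

/-- **The criterion**: an unvisited fresh face is kept iff one of its odd corners is outer. -/
theorem kept_iff (hT : T ⊆ boxE n) (hI : Rule.Inv n T U) {f F : ℤ × ℤ} (hf : f ∈ FU U)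
    (hv : f ∉ VF ((rst T U ∪ Q : Finset Edg) : Set Ed) (vtx k₀)) (hF : Sq (phiF F) f) :
    f ∈ FU (stpQ T U (Q, vtx k₀)) ↔
      F ∈ Out (Tc ((rst T U ∪ Q : Finset Edg) : Set Ed) (vtx k₀)) := by
  have hS := hN.coe_sub hT hI.sub
  constructor
  · rintro ⟨h1, -⟩
    obtain ⟨k, hk1, hk2, -⟩ := exists_corner_edge (eE f) (Or.inl rfl) (sq_phiF.1 hF)
    rw [← hk2]
    exact (mem_next.1 (mem_stpQ.1 h1).2).2 k hk1
  · intro hout
    have key : ∀ w, (ea (eE f) = w ∨ eb (eE f) = w) → w ∈ U → w ∈ stpQ T U (Q, vtx k₀) := by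
      intro w hw hwU
      obtain ⟨k, hk1, hk2, hk3⟩ := exists_corner_edge (eE f) hw (sq_phiF.1 hF)
      have hwK : w ∉ Kc ((rst T U ∪ Q : Finset Edg) : Set Ed) (vtx k₀) := by
        intro hK
        exact hv (mem_VF_of hS ⟨by rw [hk1]; exact hK, by rw [hk2]; exact hout⟩ hk3)
      refine mem_stpQ.2 ⟨hwU, mem_next.2 ⟨hwK, fun k' hk' => ?_⟩⟩
      exact out_of_notMem hwK hk1 hk' (by rw [hk2]; exact hout)
    exact ⟨key _ (Or.inl rfl) hf.1, key _ (Or.inr rfl) hf.2⟩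

/-- The kept faces are fresh, unvisited and not on the needle. -/
theorem next_sub {f : ℤ × ℤ} (hf : f ∈ FU (stpQ T U (Q, vtx k₀))) :
    f ∈ FU U ∧ f ∉ QF Q ∧ f ∉ VF ((rst T U ∪ Q : Finset Edg) : Set Ed) (vtx k₀) := by
  have h1 := mem_stpQ.1 hf.1
  have h2 := mem_stpQ.1 hf.2
  have h3 := (mem_next.1 h1.2).1
  have h4 := (mem_next.1 h2.2).1
  refine ⟨⟨h1.1, h2.1⟩, fun hq => ?_, ?_⟩
  · have h5 := (hN.mem_clV T (show eE f ∈ Q from hq)).1
    rw [PercO.clV_eq] at h5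
    exact h3 h5
  · rintro ⟨k, hk, rfl⟩
    rw [eE_phiE] at h3 h4
    rcases qry_end k with h5 | h5
    · rw [h5] at h3; exact h3 hk.1
    · rw [h5] at h4; exact h4 hk.1

/-- The kept faces are a union of components of the unvisited fresh faces. -/
theorem next_adj (hT : T ⊆ boxE n) (hI : Rule.Inv n T U) {f g : ℤ × ℤ} (hf : f ∈ FU U)
    (hfv : f ∉ VF ((rst T U ∪ Q : Finset Edg) : Set Ed) (vtx k₀)) (hg : g ∈ FU U)
    (hgv : g ∉ VF ((rst T U ∪ Q : Finset Edg) : Set Ed) (vtx k₀)) (h : AdjF f g) :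
    f ∈ FU (stpQ T U (Q, vtx k₀)) ↔ g ∈ FU (stpQ T U (Q, vtx k₀)) := by
  obtain ⟨F, h1, h2⟩ := adj_share_odd h
  rw [hN.kept_iff hT hI hf hfv h1, hN.kept_iff hT hI hg hgv h2]

/-- Everything next to the wall is kept. -/
theorem next_wall (hT : T ⊆ boxE n) (hI : Rule.Inv n T U) {f g : ℤ × ℤ} (hf : f ∈ FU U)
    (hfv : f ∉ VF ((rst T U ∪ Q : Finset Edg) : Set Ed) (vtx k₀)) (h : AdjF f g) (hg : g ∉ FU U) :
    f ∈ FU (stpQ T U (Q, vtx k₀)) := by
  obtain ⟨F, h1, h2⟩ := adj_share_odd h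
  rw [hN.kept_iff hT hI hf hfv h1]
  refine Scan.Out.anti Tc_sub ?_
  have hS := hN.coe_sub hT hI.sub
  have h3 : ∃ w, (ea (eE g) = w ∨ eb (eE g) = w) ∧ w ∉ U := by
    by_contra hc
    push Not at hc
    exact hg ⟨hc _ (Or.inl rfl), hc _ (Or.inr rfl)⟩
  obtain ⟨w, hw, hwU⟩ := h3
  obtain ⟨k, hk1, hk2, -⟩ := exists_corner_edge (eE g) hw (sq_phiF.1 h2)
  rw [← hk2]
  have h4 := (inv_iff hT).1 hI
  rcases (hc_or_ext (n := n) hI.sub).2 hwU with h5 | h5
  · refine Scan.att_out hS h4.2.2 (fun e he => ?_) (by rw [hk1]; exact h5)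
    have h6 := hN.avoid (Finset.mem_coe.1 he)
    exact ⟨fun h => h.2 h6.1, fun h => h.2 h6.2⟩
  · exact Scan.ext_out hS (by rw [hk1]; exact h5)

/-- Everything on the left of the strand is kept. -/
theorem next_left (hT : T ⊆ boxE n) (hI : Rule.Inv n T U) {f : ℤ × ℤ} (hf : f ∈ FU U)
    (hfv : f ∉ VF ((rst T U ∪ Q : Finset Edg) : Set Ed) (vtx k₀)) {t : ℕ}
    (h : Sq (en 1 (pth (gT ((rst T U ∪ Q : Finset Edg) : Set Ed)) (kU k₀) t)) f) :
    f ∈ FU (stpQ T U (Q, vtx k₀)) := by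
  rw [← kU_iterate, en1_kU] at h
  rw [hN.kept_iff hT hI hf hfv h]
  have h1 : ∀ t : ℕ, (nxt ((rst T U ∪ Q : Finset Edg) : Set Ed))^[t] k₀ ∈
      Oc ((rst T U ∪ Q : Finset Edg) : Set Ed) (vtx k₀) := by
    intro t
    induction t with
    | zero => exact hN.mem_Oc hT hI
    | succ t ih =>
      rw [Function.iterate_succ_apply']
      exact PercO.nxt_mem_Oc ih
  exact (h1 t).2

/-- Everything on the right of the strand is removed. -/
theorem next_right (hT : T ⊆ boxE n) (hI : Rule.Inv n T U) {f : ℤ × ℤ} {t : ℕ}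
    (h : Sq (en 0 (pth (gT ((rst T U ∪ Q : Finset Edg) : Set Ed)) (kU k₀) t)) f) :
    f ∉ FU (stpQ T U (Q, vtx k₀)) := by
  rw [← kU_iterate, en0_kU] at h
  have h1 : ∀ t : ℕ, vtx ((nxt ((rst T U ∪ Q : Finset Edg) : Set Ed))^[t] k₀) ∈
      Kc ((rst T U ∪ Q : Finset Edg) : Set Ed) (vtx k₀) := fun t =>
    PercO.vtx_iter_mem (hN.mem_Oc hT hI).1 t
  rintro ⟨h2, h3⟩
  rcases sq_phiV.1 h with h4 | h4
  · rw [h4] at h2
    exact (mem_next.1 (mem_stpQ.1 h2).2).1 (h1 t)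
  · rw [h4] at h3
    exact (mem_next.1 (mem_stpQ.1 h3).2).1 (h1 t)

/-- Next to a visited face the kept faces are behind an odd diagonal (a closed edge). -/
theorem next_step (hT : T ⊆ boxE n) (hI : Rule.Inv n T U) {f g : ℤ × ℤ} (hf : f ∈ FU U)
    (hfv : f ∉ VF ((rst T U ∪ Q : Finset Edg) : Set Ed) (vtx k₀))
    (hg : g ∈ VF ((rst T U ∪ Q : Finset Edg) : Set Ed) (vtx k₀)) (h : AdjF f g) :
    f ∈ FU (stpQ T U (Q, vtx k₀)) ↔ eE g ∉ rst T U ∪ Q := by
  obtain ⟨F, h1, h2⟩ := adj_share_odd h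
  obtain ⟨k, hk, rfl⟩ := hg
  rw [eE_phiE]
  constructor
  · intro h3 h4
    obtain ⟨w, h5, h6⟩ := adj_share h
    have h7 : w ∈ Kc ((rst T U ∪ Q : Finset Edg) : Set Ed) (vtx k₀) := by
      have h8 := sq_phiV.1 h6
      rw [eE_phiE] at h8
      have h9 : qry k ∈ Tc ((rst T U ∪ Q : Finset Edg) : Set Ed) (vtx k₀) :=
        (PercO.qry_mem_iff hk.1).1 (Finset.mem_coe.2 h4)
      rcases h8 with h8 | h8
      · rw [← h8]; exact PercO.ea_mem h9
      · rw [← h8]; exact PercO.eb_mem h9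
    rcases sq_phiV.1 h5 with h8 | h8
    · have := h3.1
      rw [h8] at this
      exact (mem_next.1 (mem_stpQ.1 this).2).1 h7
    · have := h3.2
      rw [h8] at this
      exact (mem_next.1 (mem_stpQ.1 this).2).1 h7
  · intro h3
    rw [hN.kept_iff hT hI hf hfv h1]
    have h4 : rot k ∈ Oc ((rst T U ∪ Q : Finset Edg) : Set Ed) (vtx k₀) :=
      PercO.fce_rot_out hk fun h5 => h3 (Finset.mem_coe.1 h5.1)
    have h5 := sq_phiF.1 h2
    rw [eE_phiE] at h5
    have h6 : (fce k = f1 (qry k) ∧ fce (rot k) = f2 (qry k)) ∨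
        (fce k = f2 (qry k) ∧ fce (rot k) = f1 (qry k)) := by
      obtain ⟨x, y, _ | _, _ | _⟩ := k <;> simp [fce, rot, qry, f1, f2]
    rcases h6 with ⟨h6, h7⟩ | ⟨h6, h7⟩ <;> rcases h5 with h5 | h5 <;> rw [← h5]
    · rw [← h6]; exact hk.2
    · rw [← h7]; exact h4.2
    · rw [← h7]; exact h4.2
    · rw [← h6]; exact hk.2

end NdF

end Pool.Agent.SixB.Dct
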