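import Pool.Agent.Lib.SixB.S8InvX
import Pool.Agent.Lib.SixB.S8InvX2
import Pool.Agent.Lib.SixB.S8InvC
import Pool.Agent.Lib.SixB.S8InvW
import Pool.Agent.Lib.SixB.S8InvF
import Pool.Agent.Lib.SixB.S8InvR
import Pool.Agent.Lib.SixB.S8Bad
import Pool.Agent.Lib.SixB.S8ChainL
import Pool.Agent.Lib.SixB.S8ScanNext

/-!
# Step 8: the stored discs along the chain

`frT`: the fresh faces of a state; they are decreasing (`frT_nx`). `StT 𝔇 d n r s ω`: no domain is running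
without a needle, the coarse state has `CSt.Inv` and the magnified stored set has `StW` with classes of
diameter `< r`. One stage: `StT.nx`, from the facts `StgW` of the stage: the radius grows by `13 u L` where
`L` is the side of the cells. Along the chain: `stT_tst`. The stored disc at planting: `StT.app_disc`.
`stT_dec`: the invariant is decided by the explored faces.

The facts of a move: `MvW.of_run` from `RunB`, and from the regular stop `RdS` (`RdS.regMv`) or `Rg`.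
-/

set_option autoImplicit false

namespace Pool.Agent.SixB.Tru

open Finset Pool.Agent.Perc Pool.Agent.PercT Pool.Agent.PercX60 Pool.Agent.Perc6
open Pool.Agent.MP_6bd702.H23 (Ed ea eb)
open Pool.Agent.PercU (vtx)
open Pool.Agent.SixB Pool.Agent.SixB.Rule Pool.Agent.SixB.Dct Pool.Agent.SixB.Mv
open Pool.Agent.SixB.Blow (subE)
open Pool.Agent.SixB.Top (compT lf rg)
open Pool.Agent.Perc.Tips (ahead rv)

variable {𝔇 : Dat} {d : ℕ → ℕ} {n : ℕ} {s : TS} {ω ω' : Cfg} {q : Rule.Ndl} {D : Dom}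
  {r r' : ℤ} {t : ℕ} {x : List Rec}

/-! ### The fresh faces -/

/-- The fresh faces of a state. -/
noncomputable def frT (s : TS) (ω : Cfg) : Set (ℤ × ℤ) :=
  s.q.elim (FU s.V) fun q => frS s q ω

theorem frT_some (hq : s.q = some q) : frT s ω = frS s q ω := by
  unfold frT
  rw [hq]
  rfl

theorem frT_none (hq : s.q = none) : frT s ω = FU s.V := by
  unfold frT
  rw [hq]
  rfl

theorem frT_congr (h : ∀ f ∈ expS s ω, ω f = ω' f) : frT s ω' = frT s ω := by
  rcases hq : s.q with _ | q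
  · rw [frT_none hq, frT_none hq]
  · rw [frT_some hq, frT_some hq, frS_congr hq h]

/-- The fresh faces after a stage with the needle `q`. -/
theorem frT_fin (h : StOK 𝔇 d n s) (hq : s.q = some q) (ht : s.t ≤ t) :
    frT (finS 𝔇 d n s q t x ω) ω ⊆ frS s q ω \ (vS s.V q ω s.t t : Set (ℤ × ℤ)) := by
  intro f hf
  cases hr : (𝔇.cs d x).run with
  | some D =>
    rw [finS_run hr, frT_some (q := q) rfl] at hf
    have h1 := frS_step (s := s) (s' := ⟨s.V, some q, t, x⟩) (q := q) (ω := ω) (σ := t - s.t) rfl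
      (Nat.add_sub_cancel' ht).symm
    rw [Nat.add_sub_cancel' ht] at h1
    rwa [h1] at hf
  | none =>
    rw [finS_end hr, frT_none rfl] at hf
    obtain ⟨k, hN, hk⟩ := (h.ndl q hq).1
    have hq2 : q = (q.1, vtx k) := by rw [hk]
    have h1 : f ∈ FU (stpQ (cfgE n ω) s.V (q.1, vtx k)) := by rw [← hq2]; exact hf
    have h2 := hN.next_sub h1
    have h3 : f ∉ vS s.V q ω 0 t := fun hv =>
      visS_stp h.sub (h.ndl q hq).1 (t := t) ⟨⟨h2.1, h2.2.1⟩, Finset.mem_coe.2 hv⟩ hf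
    refine ⟨⟨⟨h2.1, h2.2.1⟩, fun hv => h3 ?_⟩, fun hv => h3 ?_⟩
    · exact vs_mono le_rfl ht (Finset.mem_coe.1 hv)
    · exact vs_mono (Nat.zero_le _) le_rfl (Finset.mem_coe.1 hv)

/-- **The fresh faces decrease.** -/
theorem frT_nx (h : StOK 𝔇 d n s) : frT (nxS 𝔇 d n s ω) ω ⊆ frT s ω := by
  cases hq : s.q with
  | some q =>
    rw [frT_some hq]
    cases hD : (𝔇.cs d s.x).run with
    | some D =>
      rw [nxS_run_eq hq hD]
      exact (frT_fin h hq (le_mvTL h.ini)).trans Set.sdiff_subset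
    | none =>
      rw [nxS_odd hq hD]
      exact (frT_fin h hq le_rfl).trans Set.sdiff_subset
  | none =>
    rw [frT_none hq]
    cases hD : (𝔇.cs d s.x).run with
    | some D =>
      rw [nxS_skip hq hD]
      exact subset_rfl
    | none =>
      rw [nxS_rest hq hD]
      cases hq' : (plS 𝔇 d n s).q with
      | none => rw [frT_none hq', plS_V]
      | some q' =>
        rw [frT_some hq']
        intro f hf
        exact hf.1.1

/-- The fresh faces when a needle is placed. -/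
theorem frT_pl (hq' : (plS 𝔇 d n s).q = some q) :
    frT (plS 𝔇 d n s) ω = FU s.V \ QF q.1 := by
  rw [frT_some hq']
  unfold frS vS
  rw [plS_t, plS_V, vs_self]
  simp

/-! ### The invariant -/

/-- **The stored discs of a state.** -/
structure StT (𝔇 : Dat) (d : ℕ → ℕ) (n : ℕ) (r : ℤ) (s : TS) (ω : Cfg) : Prop where
  nr : s.q = none → (𝔇.cs d s.x).run = none
  inv : (𝔇.cs d s.x).Inv
  st : StW (blow (unt d n : ℤ) (𝔇.cs d s.x).W) (frT s ω) r

theorem StT.mono (h : StT 𝔇 d n r s ω) (hr : r ≤ r') : StT 𝔇 d n r' s ω :=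
  ⟨h.nr, h.inv, h.st.mono hr⟩

/-- **The invariant is decided by the explored faces.** -/
theorem StT.congr (h : ∀ f ∈ expS s ω, ω f = ω' f) (H : StT 𝔇 d n r s ω) : StT 𝔇 d n r s ω' := by
  refine ⟨H.nr, H.inv, ?_⟩
  rw [frT_congr h]
  exact H.st

/-- The invariant of the stage `i` is decided by the explored faces. -/
theorem stT_dec (𝔇 : Dat) (C : ℤ) :
    InvDec fun d n i s ω => StT 𝔇 d n (rad C (unt d n) d (i + 1)) s ω :=
  fun _ _ _ _ _ _ h H => H.congr h

theorem finS_nr (h : (finS 𝔇 d n s q t x ω).q = none) :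
    (𝔇.cs d (finS 𝔇 d n s q t x ω).x).run = none := by
  rw [finS_x]
  cases hr : (𝔇.cs d x).run with
  | some D => rw [finS_run hr] at h; cases h
  | none => rfl

/-- The facts of a stage with a move of the running domain `D`. -/
structure MvW (𝔇 : Dat) (d : ℕ → ℕ) (n : ℕ) (r : ℤ) (s : TS) (ω : Cfg) (q : Rule.Ndl) (D : Dom) :
    Prop where
  val : D.Val (𝔇.gr d s.x D)
  fre : fa (pS s.V q ω s.t) ∈ frS s q ω
  out : fb (pS s.V q ω s.t) ∉ blow (unt d n : ℤ) D.P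
  app : ∃ κ : ℤ × ℤ → ℤ × ℤ, App (uS s q ω) (blow (unt d n : ℤ) D.P) κ r
  reg : ¬ D.Void (𝔇.gr d s.x D) → D.RegMv (𝔇.gr d s.x D) (mvR 𝔇 d n s q D false ω) (unt d n)
    (uS s q ω) (vS s.V q ω s.t (mvT 𝔇 d n s q D false ω) : Set (ℤ × ℤ))

/-- The facts of a stage in which a needle can be placed. -/
structure PlW (𝔇 : Dat) (d : ℕ → ℕ) (n : ℕ) (s : TS) : Prop where
  ndl : CSt.NdlOk (𝔇.prm d) ((𝔇.cs d s.x).cmp (𝔇.prm d) (msh d s.x.length))
    (𝔇.zt (d 0) (𝔇.cs d s.x).j)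
  plc : (plS 𝔇 d n s).q = some (nxQ 𝔇 d n s)
  cel : StartA.VQ (blow (unt d n : ℤ) (𝔇.disc d s.x)) (QF (nxQ 𝔇 d n s).1)
    (Blow.cl (unt d n : ℤ)) = blow (unt d n : ℤ)
      (𝔇.ndl (d 0) (𝔇.disc d s.x) (𝔇.zt (d 0) (𝔇.cs d s.x).j))

/-- **The facts of a stage.** -/
structure StgW (𝔇 : Dat) (d : ℕ → ℕ) (n : ℕ) (r : ℤ) (s : TS) (ω : Cfg) : Prop where
  plant : s.q = none → (𝔇.cs d s.x).Plant (𝔇.prm d) (msh d s.x.length) → PlW 𝔇 d n s
  move : ∀ q D, s.q = some q → (𝔇.cs d s.x).run = some D → (𝔇.cs d s.x).ini = false →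
    MvW 𝔇 d n r s ω q D

theorem Dat.disc_eq (x : List Rec) :
    𝔇.disc d x = (𝔇.cs d x).cmp (𝔇.prm d) (msh d x.length) := rfl

theorem _root_.Pool.Agent.SixB.Mv.Dom.RegMv.mono {s : Dom} {g : Grd} {ρ : Rec} {u : ℕ}
    {U U' N : Set (ℤ × ℤ)} (h : s.RegMv g ρ u U N) (hU : U ⊆ U') : s.RegMv g ρ u U' N :=
  ⟨h.val, h.hu, h.nv, h.hρ, h.hK, h.PU.trans hU, h.NP, h.last⟩

theorem uoc_uS (h : fa (pS s.V q ω s.t) ∈ frS s q ω) : Uoc (uS s q ω) (frS s q ω) :=
  uoc_compT h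

/-- The facts of a move from the invariant of the running stage. -/
theorem MvW.of_run {κ : ℤ × ℤ → ℤ × ℤ} {m y : ℕ} (B : RunB 𝔇 d n r s ω q D κ m y)
    (hv : D.Val (𝔇.gr d s.x D))
    (hr : ¬ D.Void (𝔇.gr d s.x D) → D.RegMv (𝔇.gr d s.x D) (mvR 𝔇 d n s q D false ω) (unt d n)
      (uS s q ω) (vS s.V q ω s.t (mvT 𝔇 d n s q D false ω) : Set (ℤ × ℤ))) :
    MvW 𝔇 d n r s ω q D where
  val := hv
  fre := B.fre
  out := fun h1 => by
    have h2 := (B.tst ω).cyc.bd.2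
    unfold tS at h2
    rw [ahead_rv_dirE] at h2
    exact h2 (B.app.sub h1)
  app := ⟨κ, B.app⟩
  reg := hr

/-- **The facts of a regular move from the regular stop.** -/
theorem RdS.regMv {u N : ℕ} {g : Grd} {U T₀ : Set (ℤ × ℤ)} {a : UE} {ζ : Cfg} {σ : ℕ}
    (h : RdS u N D g U T₀ a ζ σ) (h0 : fa a ∉ blow (u : ℤ) (D.bar g)) :
    D.RegMv g (D.rcd g (capR g.M) (vcT u a ζ σ) (idT u D g a ζ σ)) u U
      (vs ζ a 0 σ : Set (ℤ × ℤ)) where
  val := h.val
  hu := h.hu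
  nv := h.nv
  hρ := Dom.recOk_rcd h.side_id.2.1 h.side_id.2.2.1 h.rno_le
  hK := by rw [RdS.kst, RdS.vc_eq]
  PU := h.PU
  NP := by
    intro f hf hP
    obtain ⟨i, -, hi, rfl⟩ := mem_vs.1 (Finset.mem_coe.1 hf)
    by_contra hcon
    exact h.bef i hi ⟨hP, hcon⟩
  last := by
    have hpos : 0 < σ := by
      rcases Nat.eq_zero_or_pos σ with h1 | h1
      · exfalso
        have h2 := h.stop.mem
        rw [h1] at h2
        exact h0 h2
      · exact h1
    obtain ⟨j, -, -, h3, -⟩ := h.idx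
    have hu' : (0 : ℤ) < u := by exact_mod_cast h.hu
    have hbd : Top.BD (blow u (D.inr g)) (subE u D.A 0) :=
      Blow.bd_subE hu' (h.val.bdI h.nv) le_rfl hu'
    have hB := bd_side hbd j
    have h1 : fa (side (blow u (D.inr g)) (subE u D.A 0) j).1 ∈ blow (u : ℤ) (D.bar g) := by
      rw [h3]
      exact h.stop.mem
    have h2 : ahead (side (blow u (D.inr g)) (subE u D.A 0) j) ∉ blow (u : ℤ) (D.bar g) :=
      fun hh => (h.val.inr_sub h.nv hB.1).2 hh
    by_cases hp : par (rg (side (blow u (D.inr g)) (subE u D.A 0) j)) = 0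
    · exact absurd ((fwd_of_par hp).1 ▸ h1) h2
    · obtain ⟨e1, e2⟩ := bwd_of_par hp
      rw [h3] at e1 e2
      refine ⟨fb (pth ζ a σ), ?_, by rw [e2]; exact hB.1, fa (pth ζ a σ), h.mem_ent,
        by rw [e1, e2]; exact Top.adjF_ahead _⟩
      refine Finset.mem_coe.2 (mem_vs.2 ⟨σ - 1, Nat.zero_le _, by omega, ?_⟩)
      rw [← fb_pth_succ, Nat.sub_add_cancel hpos]

/-- The data of the move in the names of the chain. -/
theorem regMv_chain {U T₀ : Set (ℤ × ℤ)} {σ : ℕ}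
    (h : RdS (unt d n) (tmx n) D (𝔇.gr d s.x D) U T₀ (pS s.V q ω s.t) (cfS s.V q ω) σ)
    (h0 : fa (pS s.V q ω s.t) ∉ blow (unt d n : ℤ) (D.bar (𝔇.gr d s.x D))) :
    D.RegMv (𝔇.gr d s.x D) (mvR 𝔇 d n s q D false ω) (unt d n) U
      (vS s.V q ω s.t (mvT 𝔇 d n s q D false ω) : Set (ℤ × ℤ)) := by
  have e1 : stopT n (unt d n) s q D (𝔇.gr d s.x D) ω = s.t + σ := by rw [stopT_eq, h.sg]
  have e2 : mvT 𝔇 d n s q D false ω = s.t + σ := by
    unfold mvT
    rw [if_neg (by simp), if_neg h.nv, e1]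
  have e3 : mvR 𝔇 d n s q D false ω = D.rcd (𝔇.gr d s.x D) (capR (𝔇.gr d s.x D).M)
      (vcT (unt d n) (pS s.V q ω s.t) (cfS s.V q ω) σ)
      (idT (unt d n) D (𝔇.gr d s.x D) (pS s.V q ω s.t) (cfS s.V q ω) σ) := by
    unfold mvR
    rw [if_neg (by rintro (h1 | h1); exacts [absurd h1 (by simp), h.nv h1]), e1, visC_eq,
      stopI_eq]
  rw [e2, e3, ← vs_pS]
  exact h.regMv h0

/-- The part `P \ V` has no holes. -/
theorem MvW.esc (h : MvW 𝔇 d n r s ω q D) (hu : 0 < unt d n) :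
    Esc (D.P \ D.rem (𝔇.gr d s.x D) (mvR 𝔇 d n s q D false ω)) := by
  by_cases hv : D.Void (𝔇.gr d s.x D)
  · exact h.val.esc_void_rest hu hv
  · have H := h.reg hv
    refine H.esc (ω := cfS s.V q ω) (e := pS s.V q ω s.t)
      (σ := mvT 𝔇 d n s q D false ω - s.t) ?_ h.out
    rw [vs_pS]
    have h1 : s.t ≤ mvT 𝔇 d n s q D false ω := le_mvTL fun h2 => by cases h2
    rw [Nat.add_sub_cancel' h1]

/-- **The stored part after a move.** -/
theorem MvW.st (h : MvW 𝔇 d n r s ω q D) (hu : 0 < unt d n)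
    (hS : Mv.Sep (𝔇.cs d s.x).W D.P)
    (hW : StW (blow (unt d n : ℤ) (𝔇.cs d s.x).W) (frS s q ω) r) {F' : Set (ℤ × ℤ)}
    (hF : F' ⊆ frS s q ω \ (vS s.V q ω s.t (mvT 𝔇 d n s q D false ω) : Set (ℤ × ℤ))) :
    StW (blow (unt d n : ℤ) ((𝔇.cs d s.x).W ∪
      D.lef (𝔇.gr d s.x D) (mvR 𝔇 d n s q D false ω))) F'
      (r + 7 * (unt d n * msh d s.x.length)) := by
  have hS' : Mv.Sep (𝔇.cs d s.x).W (D.lef (𝔇.gr d s.x D) (mvR 𝔇 d n s q D false ω)) :=
    hS.mono Set.Subset.rfl (Dom.lef_sub D _ _)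
  obtain ⟨κ, A⟩ := h.app
  have A' : App (frS s q ω) (blow (unt d n : ℤ) D.P) κ r := A.total (uoc_uS h.fre)
  by_cases hv : D.Void (𝔇.gr d s.x D)
  · exact hW.void h.val hu hv A' (hF.trans Set.sdiff_subset) (Dom.uoc_lef D _ _) hS'
  · exact hW.reg ((h.reg hv).mono (uoc_uS h.fre).sub) A' hF (Dom.uoc_lef D _ _) hS'

/-- **One stage.** -/
theorem StT.nx (h : StOK 𝔇 d n s) (H : StT 𝔇 d n r s ω) (G : StgW 𝔇 d n r s ω)
    (hu : 0 < unt d n) (hur : (unt d n : ℤ) ≤ r) :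
    StT 𝔇 d n (r + 13 * (unt d n * msh d s.x.length)) (nxS 𝔇 d n s ω) ω := by
  classical
  have hL : 0 < msh d s.x.length := by
    unfold msh
    positivity
  have hu' : (0 : ℤ) < unt d n := by exact_mod_cast hu
  have hL1 : 1 ≤ msh d s.x.length := hL
  have hul : (1 : ℤ) ≤ unt d n * msh d s.x.length := by
    have := mul_pos hu' hL
    omega
  have hr13 : r ≤ r + 13 * (unt d n * msh d s.x.length) := by omega
  cases hq : s.q with
  | some q =>
    obtain ⟨-, hrun⟩ := h.ndl q hq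
    obtain ⟨D, hD⟩ := Option.isSome_iff_exists.1 hrun
    have hW : StW (blow (unt d n : ℤ) (𝔇.cs d s.x).W) (frS s q ω) r := by
      rw [← frT_some hq]
      exact H.st
    rw [nxS_run_eq hq hD]
    cases hi : (𝔇.cs d s.x).ini with
    | true =>
      refine ⟨finS_nr, ?_, ?_⟩
      · rw [finS_x, 𝔇.cs_cons, CSt.mv_ini_eq hD hi]
        exact ⟨H.inv.fin, H.inv.esc, fun s' hs' => H.inv.sep s' (hD.trans hs')⟩
      · rw [finS_x, 𝔇.cs_cons, CSt.mv_ini_eq hD hi]
        have h1 : s.t ≤ mvT 𝔇 d n s q D true ω := by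
          rw [← hi]
          exact le_mvTL h.ini
        exact (hW.mono hr13).anti ((frT_fin h hq h1).trans Set.sdiff_subset)
    | false =>
      have M := G.move q D hq hD hi
      have hesc := M.esc hu
      refine ⟨finS_nr, ?_, ?_⟩
      · rw [finS_x, 𝔇.cs_cons]
        refine H.inv.mv hL (fun s' hs' _ => ?_) (fun s' hs' _ => ?_) (fun h1 => ?_)
        · rw [hD] at hs'
          cases hs'
          exact M.val
        · rw [hD] at hs'
          cases hs'
          exact hesc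
        · rw [hD] at h1
          cases h1
      · rw [finS_x, 𝔇.cs_cons, CSt.mv_run_eq hD hi]
        have h1 : s.t ≤ mvT 𝔇 d n s q D false ω := le_mvTL fun h2 => by cases h2
        exact (M.st hu (H.inv.sep D hD) hW (frT_fin h hq h1)).mono (by omega)
  | none =>
    have hD := H.nr hq
    have hW : StW (blow (unt d n : ℤ) (𝔇.cs d s.x).W) (FU s.V) r := by
      rw [← frT_none (ω := ω) hq]
      exact H.st
    rw [nxS_rest hq hD]
    by_cases hp : (𝔇.cs d s.x).Plant (𝔇.prm d) (msh d s.x.length)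
    · have G' := G.plant hq hp
      have hz : 𝔇.zt (d 0) (𝔇.cs d s.x).j ∈ CSt.erW (𝔇.cs d s.x).W (msh d s.x.length)
          (𝔇.zt (d 0) (𝔇.cs d s.x).j) := hp.2.1
      refine ⟨fun h1 => ?_, ?_, ?_⟩
      · rw [G'.plc] at h1
        cases h1
      · rw [plS_x, 𝔇.cs_cons]
        refine H.inv.mv hL (fun s' hs' _ => ?_) (fun s' hs' _ => ?_) (fun _ _ => G'.ndl)
        · rw [hD] at hs'
          cases hs'
        · rw [hD] at hs'
          cases hs'
      · rw [plS_x, 𝔇.cs_cons, CSt.mv_plant_eq hD hp, frT_pl G'.plc]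
        have h1 := hW.erW hu hL hz
        have h2 := h1.plant (Q := QF (nxQ 𝔇 d n s).1) hu (by omega) hz G'.ndl.sub
          G'.ndl.mem.2 G'.cel
        exact h2.mono (by omega)
    · refine ⟨fun _ => ?_, ?_, ?_⟩
      · rw [plS_x, 𝔇.cs_cons, CSt.mv_idle_eq hD hp]
      · rw [plS_x, 𝔇.cs_cons, CSt.mv_idle_eq hD hp]
        exact ⟨H.inv.fin, H.inv.esc, fun s' hs' => by cases hs'⟩
      · rw [plS_x, 𝔇.cs_cons, CSt.mv_idle_eq hD hp]
        refine (hW.mono hr13).anti ?_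
        have h1 := frT_nx (ω := ω) h
        rwa [nxS_rest hq hD, frT_none hq] at h1

/-! ### Along the chain -/

/-- **The stored discs along the chain.** `s 0` is the state before the first stage. -/
theorem stT_tst {C : ℤ} (hC : 13 ≤ C) (hu : 0 < unt d n)
    (h0 : StT 𝔇 d n (rad C (unt d n) d 0) ⟨Box n, none, 0, []⟩ ω)
    (g0 : StgW 𝔇 d n (rad C (unt d n) d 0) ⟨Box n, none, 0, []⟩ ω) {k : ℕ}
    (hg : ∀ i < k, StgW 𝔇 d n (rad C (unt d n) d (i + 1)) (tst 𝔇 d n ω i) ω) :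
    StT 𝔇 d n (rad C (unt d n) d (k + 1)) (tst 𝔇 d n ω k) ω := by
  have hu' : (0 : ℤ) < unt d n := by exact_mod_cast hu
  have hu1 : ∀ i, (unt d n : ℤ) ≤ rad C (unt d n) d i := by
    intro i
    have h1 : rad C (unt d n) d 0 ≤ rad C (unt d n) d i := rad_mono (by omega) _ _ (Nat.zero_le _)
    refine le_trans ?_ h1
    unfold rad
    simp only [range_zero, sum_empty, add_zero, mul_one]
    nlinarith
  have hstep : ∀ i, (0 : ℤ) ≤ unt d n * msh d i := by
    intro i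
    have : (0 : ℤ) ≤ msh d i := by
      unfold msh
      positivity
    positivity
  induction k with
  | zero =>
    have h1 := StT.nx StOK.init h0 g0 hu (hu1 0)
    refine StT.mono (s := tst 𝔇 d n ω 0) h1 ?_
    rw [rad_succ]
    have := hstep 0
    simp only [List.length_nil]
    nlinarith
  | succ k ih =>
    have h1 := ih fun i hi => hg i (by omega)
    have h2 := StT.nx (stOK ω k) h1 (hg k (by omega)) hu (hu1 (k + 1))
    refine StT.mono (s := tst 𝔇 d n ω (k + 1)) h2 ?_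
    rw [tst_len, rad_succ C (unt d n) d (k + 1)]
    have := hstep (k + 1)
    nlinarith

/-! ### The stored disc at planting -/

/-- The recorded disc is a component of the eroded stored set. -/
theorem StT.st_disc (H : StT 𝔇 d n r s ω) (hu : 0 < unt d n)
    (hz : 𝔇.zt (d 0) (𝔇.cs d s.x).j ∈ CSt.erW (𝔇.cs d s.x).W (msh d s.x.length)
      (𝔇.zt (d 0) (𝔇.cs d s.x).j)) :
    ∃ (κ : ℤ × ℤ → ℤ × ℤ) (F₀ : Set (ℤ × ℤ)), frT s ω ⊆ F₀ ∧
      App F₀ (blow (unt d n : ℤ) (𝔇.disc d s.x)) κ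
        (r + 6 * (unt d n * msh d s.x.length) + 6) := by
  have hL : 0 < msh d s.x.length := by
    unfold msh
    positivity
  have hu' : (0 : ℤ) < unt d n := by exact_mod_cast hu
  have h1 := H.st.erW hu hL hz
  obtain ⟨zf, hzf⟩ := Blow.exists_cl hu' (𝔇.zt (d 0) (𝔇.cs d s.x).j)
  have hzX : zf ∈ blow (unt d n : ℤ) (CSt.erW (𝔇.cs d s.x).W (msh d s.x.length)
      (𝔇.zt (d 0) (𝔇.cs d s.x).j)) := by
    rw [Blow.mem_blow, hzf]
    exact hz
  obtain ⟨κ, F₀, h2, h3⟩ := h1 zf hzX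
  refine ⟨κ, F₀, h2, ?_⟩
  rw [Blow.compT_blow (F := CSt.erW (𝔇.cs d s.x).W (msh d s.x.length)
    (𝔇.zt (d 0) (𝔇.cs d s.x).j)) hu' hzX, hzf] at h3
  exact h3

/-- **The recorded disc is an approximation of the fresh faces**, if its faces are fresh. -/
theorem StT.app_disc (H : StT 𝔇 d n r s ω) (hq : s.q = none) (hu : 0 < unt d n)
    (hz : 𝔇.zt (d 0) (𝔇.cs d s.x).j ∈ CSt.erW (𝔇.cs d s.x).W (msh d s.x.length)
      (𝔇.zt (d 0) (𝔇.cs d s.x).j))
    (hf : blow (unt d n : ℤ) (𝔇.disc d s.x) ⊆ FU s.V) :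
    ∃ κ : ℤ × ℤ → ℤ × ℤ, App (FU s.V) (blow (unt d n : ℤ) (𝔇.disc d s.x)) κ
      (r + 6 * (unt d n * msh d s.x.length) + 6) := by
  obtain ⟨κ, F₀, h1, h2⟩ := H.st_disc hu hz
  rw [frT_none hq] at h1
  exact ⟨κ, h2.part (Uoc.refl _) hf h1⟩

end Pool.Agent.SixB.Tru
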