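import Pool.Agent.Lib.SixB.S8OutPer
import Pool.Agent.Lib.SixB.S8InvWC
import Pool.Agent.Lib.SixB.S8Kept

/-!
# Step 8: the part which is stored by a move, at the time of the stop

`StpW`: the facts of a stage with a move: `MvW`, the regular stop `RdS` if the move is not void, and the
face in front of the strand is not a face of the magnified domain if the move is void.

* `StpW.lef_fr`: the magnified stored part is contained in the faces which are fresh at the time of the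
  stop; `StpW.lef_stp`: the face in front of the strand at the time of the stop is not stored;
  `StpW.exists_lef`: the stored part as a finite set;
* `StpW.notMem_vS`, `StpW.lt_perS`: the face in front of the strand at the time of the stop is not
  crossed, so this time is smaller than the period;
* `OutP`: the face in front of the strand is not a face of the magnified domain: `StpW.out_nx` (a move),
  `out_start` (the first state of a needle), `kept_disc1`: the faces around the disc of the target are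
  faces of the remaining vertices.
-/

set_option autoImplicit false

namespace Pool.Agent.SixB.Tru

open Finset Pool.Agent.Perc Pool.Agent.PercT Pool.Agent.PercX60 Pool.Agent.Perc6
open Pool.Agent.SixB Pool.Agent.SixB.Rule Pool.Agent.SixB.Dct Pool.Agent.SixB.Mv
open Pool.Agent.SixB.Blow (subE)

variable {𝔇 : Dat} {d : ℕ → ℕ} {n i : ℕ} {s : TS} {ω : Cfg} {q : Rule.Ndl} {D : Dom} {r : ℤ} {t : ℕ}

/-- The fresh faces of the exploration of a needle. -/
theorem mem_frE {V : Finset (ℤ × ℤ)} {f : ℤ × ℤ} :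
    f ∈ (exS V q).Fr ω t ↔ f ∈ FU V \ QF q.1 ∧ f ∉ vS V q ω 0 t := by
  unfold Ex.Fr Ex.x
  rw [exS_v]
  constructor
  · rintro ⟨h1, h2⟩
    exact ⟨h1, fun h3 => h2 ⟨h1, h3⟩⟩
  · rintro ⟨h1, h2⟩
    exact ⟨h1, fun h3 => h2 (Finset.mem_coe.1 h3.2)⟩

/-- The fresh faces at the time of a state. -/
theorem frS_eq_fr : frS s q ω = (exS s.V q).Fr ω s.t := by
  ext f
  rw [mem_frE]
  rfl

/-- The facts of a stage with a move: `MvW`, the regular stop, and the face in front of the strand is not a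
face of the magnified domain if the move is void. -/
structure StpW (𝔇 : Dat) (d : ℕ → ℕ) (n : ℕ) (r : ℤ) (s : TS) (ω : Cfg) (q : Rule.Ndl) (D : Dom) :
    Prop extends MvW 𝔇 d n r s ω q D where
  hu : 0 < unt d n
  stp : ¬ D.Void (𝔇.gr d s.x D) → ∃ (U T₀ : Set (ℤ × ℤ)) (σ : ℕ),
    RdS (unt d n) (tmx n) D (𝔇.gr d s.x D) U T₀ (pS s.V q ω s.t) (cfS s.V q ω) σ
  vd : D.Void (𝔇.gr d s.x D) → fa (pS s.V q ω s.t) ∉ blow (unt d n : ℤ) D.P

/-- A void move takes no time. -/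
private theorem mvT_voidK (hv : D.Void (𝔇.gr d s.x D)) : mvT 𝔇 d n s q D false ω = s.t := by
  unfold mvT
  rw [if_neg (by simp), if_pos hv]

namespace StpW

variable (G : StpW 𝔇 d n r s ω q D)

include G

/-- The magnified domain is fresh at the time of the state. -/
theorem sub_frS : blow (unt d n : ℤ) D.P ⊆ frS s q ω := by
  obtain ⟨κ, A⟩ := G.app
  exact A.sub.trans (uoc_uS G.fre).sub

/-- The face of a regular stop. -/
theorem reg_stp (hv : ¬ D.Void (𝔇.gr d s.x D)) :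
    fa (pS s.V q ω (mvT 𝔇 d n s q D false ω)) ∈
        blow (unt d n : ℤ) (D.ent (𝔇.gr d s.x D) (mvR 𝔇 d n s q D false ω)) ∧
      fa (pS s.V q ω (mvT 𝔇 d n s q D false ω)) ∈
        blow (unt d n : ℤ) (D.P \ D.inr (𝔇.gr d s.x D)) ∧
      fa (pS s.V q ω (mvT 𝔇 d n s q D false ω)) ∉ vS s.V q ω s.t (mvT 𝔇 d n s q D false ω) := by
  obtain ⟨U, T₀, σ, h⟩ := G.stp hv
  have e1 : stopT n (unt d n) s q D (𝔇.gr d s.x D) ω = s.t + σ := by rw [stopT_eq, h.sg]
  have e2 : mvT 𝔇 d n s q D false ω = s.t + σ := by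
    unfold mvT
    rw [if_neg (by simp), if_neg hv, e1]
  have e3 : mvR 𝔇 d n s q D false ω = D.rcd (𝔇.gr d s.x D) (capR (𝔇.gr d s.x D).M)
      (vcT (unt d n) (pS s.V q ω s.t) (cfS s.V q ω) σ)
      (idT (unt d n) D (𝔇.gr d s.x D) (pS s.V q ω s.t) (cfS s.V q ω) σ) := by
    unfold mvR
    rw [if_neg (by rintro (h1 | h1); exacts [absurd h1 (by simp), hv h1]), e1, visC_eq,
      stopI_eq]
  rw [e2, e3, ← pth_pS]
  refine ⟨h.mem_ent, h.ent, fun h1 => ?_⟩
  rw [← vs_pS] at h1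
  obtain ⟨j, -, hj, h2⟩ := mem_vs.1 h1
  exact h.bef j hj (h2 ▸ h.ent)

/-- The face in front of the strand at the time of the stop is not a face of the rest of the magnified
domain. -/
theorem stp_rest : fa (pS s.V q ω (mvT 𝔇 d n s q D false ω)) ∉
    blow (unt d n : ℤ) (D.P \ D.rem (𝔇.gr d s.x D) (mvR 𝔇 d n s q D false ω)) := by
  intro h1
  by_cases hv : D.Void (𝔇.gr d s.x D)
  · rw [mvT_voidK hv] at h1
    exact G.vd hv (Blow.blow_subset Set.sdiff_subset h1)
  · exact h1.2 (Dom.ent_sub_rem D _ _ (G.reg_stp hv).1)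

/-- **The face in front of the strand at the time of the stop is not stored.** -/
theorem lef_stp : fa ((exS s.V q).p ω (mvT 𝔇 d n s q D false ω)) ∉
    blow (unt d n : ℤ) (D.lef (𝔇.gr d s.x D) (mvR 𝔇 d n s q D false ω)) := fun h1 =>
  G.stp_rest (Blow.blow_subset (fun _ h2 => h2.1) h1)

/-- The rest of the magnified domain is fresh at the time of the stop. -/
theorem rest_fr : blow (unt d n : ℤ)
    (D.P \ D.rem (𝔇.gr d s.x D) (mvR 𝔇 d n s q D false ω)) ⊆
      (exS s.V q).Fr ω (mvT 𝔇 d n s q D false ω) := by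
  intro f hf
  have h1 : f ∈ frS s q ω := G.sub_frS (Blow.blow_subset Set.sdiff_subset hf)
  refine mem_frE.2 ⟨h1.1, fun h2 => ?_⟩
  obtain ⟨j, -, hj, h3⟩ := TruR.mem_vS.1 h2
  rcases Nat.lt_or_ge j s.t with h4 | h4
  · exact h1.2 (Finset.mem_coe.2 (TruR.mem_vS.2 ⟨j, Nat.zero_le _, h4, h3⟩))
  · by_cases hv : D.Void (𝔇.gr d s.x D)
    · rw [mvT_voidK hv] at hj
      omega
    · exact hf.2 ((G.reg hv).vis_rem (Finset.mem_coe.2 (TruR.mem_vS.2 ⟨j, h4, hj, h3⟩))
        (Blow.blow_subset Set.sdiff_subset hf))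

/-- **The magnified stored part is fresh at the time of the stop.** -/
theorem lef_fr : blow (unt d n : ℤ) (D.lef (𝔇.gr d s.x D) (mvR 𝔇 d n s q D false ω)) ⊆
    (exS s.V q).Fr ω (mvT 𝔇 d n s q D false ω) :=
  (Blow.blow_subset fun _ h => h.1).trans G.rest_fr

/-- The magnified stored part is finite. -/
theorem lef_fin : (blow (unt d n : ℤ)
    (D.lef (𝔇.gr d s.x D) (mvR 𝔇 d n s q D false ω))).Finite :=
  Blow.blow_finite (by exact_mod_cast G.hu) (G.val.fin.subset (Dom.lef_sub D _ _))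

/-- **The stored part as a finite set of fresh faces.** -/
theorem exists_lef : ∃ C : Finset (ℤ × ℤ),
    (C : Set (ℤ × ℤ)) = blow (unt d n : ℤ)
      (D.lef (𝔇.gr d s.x D) (mvR 𝔇 d n s q D false ω)) ∧
    (C : Set (ℤ × ℤ)) ⊆ (exS s.V q).Fr ω (mvT 𝔇 d n s q D false ω) ∧
    fa ((exS s.V q).p ω (mvT 𝔇 d n s q D false ω)) ∉ C := by
  refine ⟨G.lef_fin.toFinset, G.lef_fin.coe_toFinset, ?_, fun h => ?_⟩
  · rw [G.lef_fin.coe_toFinset]
    exact G.lef_fr
  · exact G.lef_stp (G.lef_fin.mem_toFinset.1 h)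

/-- **The face in front of the strand at the time of the stop is not crossed.** -/
theorem notMem_vS : fa (pS s.V q ω (mvT 𝔇 d n s q D false ω)) ∉
    vS s.V q ω 0 (mvT 𝔇 d n s q D false ω) := by
  by_cases hv : D.Void (𝔇.gr d s.x D)
  · rw [mvT_voidK hv]
    exact fun h => G.fre.2 (Finset.mem_coe.2 h)
  · obtain ⟨-, h2, h3⟩ := G.reg_stp hv
    intro h
    obtain ⟨j, -, hj, h4⟩ := TruR.mem_vS.1 h
    rcases Nat.lt_or_ge j s.t with h5 | h5
    · exact (G.sub_frS (Blow.blow_subset Set.sdiff_subset h2)).2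
        (Finset.mem_coe.2 (TruR.mem_vS.2 ⟨j, Nat.zero_le _, h5, h4⟩))
    · exact h3 (TruR.mem_vS.2 ⟨j, h5, hj, h4⟩)

end StpW

/-- A time at which the face in front of the strand is not crossed is smaller than the period. -/
theorem lt_perS (hq : (tst 𝔇 d n ω i).q = some q)
    (h : fa (pS (tst 𝔇 d n ω i).V q ω t) ∉ vS (tst 𝔇 d n ω i).V q ω 0 t) :
    t < perS n ω (tst 𝔇 d n ω i).V q := by
  by_contra hc
  push Not at hc
  apply h
  have hpos := perS_pos hq
  rw [TruR.mem_vS]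
  refine ⟨t - perS n ω (tst 𝔇 d n ω i).V q, Nat.zero_le _, by omega, ?_⟩
  have h1 := pS_per hq (t - perS n ω (tst 𝔇 d n ω i).V q)
  rw [Nat.sub_add_cancel hc] at h1
  rw [h1]

/-- **The time of the stop is smaller than the period.** -/
theorem StpW.lt_perS (G : StpW 𝔇 d n r (tst 𝔇 d n ω i) ω q D)
    (hq : (tst 𝔇 d n ω i).q = some q) :
    mvT 𝔇 d n (tst 𝔇 d n ω i) q D false ω + 1 ≤ perS n ω (tst 𝔇 d n ω i).V q :=
  Tru.lt_perS hq G.notMem_vS

/-! ### The face in front of the strand is outside of the domain -/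

/-- **The face in front of the strand is not a face of the magnified domain.** -/
def OutP (𝔇 : Dat) (d : ℕ → ℕ) (n : ℕ) (s : TS) (ω : Cfg) : Prop :=
  ∀ q D, s.q = some q → (𝔇.cs d s.x).run = some D → (𝔇.cs d s.x).ini = false →
    fa (pS s.V q ω s.t) ∉ blow (unt d n : ℤ) D.P

/-- `StpW` from `OutP`. -/
theorem StpW.of_out (H : OutP 𝔇 d n s ω) (M : MvW 𝔇 d n r s ω q D) (hu : 0 < unt d n)
    (hq : s.q = some q) (hD : (𝔇.cs d s.x).run = some D) (hi : (𝔇.cs d s.x).ini = false)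
    (stp : ¬ D.Void (𝔇.gr d s.x D) → ∃ (U T₀ : Set (ℤ × ℤ)) (σ : ℕ),
      RdS (unt d n) (tmx n) D (𝔇.gr d s.x D) U T₀ (pS s.V q ω s.t) (cfS s.V q ω) σ) :
    StpW 𝔇 d n r s ω q D := ⟨M, hu, stp, fun _ => H q D hq hD hi⟩

/-- **After a move the face in front of the strand is not a face of the domain.** -/
theorem StpW.out_nx (G : StpW 𝔇 d n r s ω q D) (hq : s.q = some q)
    (hD : (𝔇.cs d s.x).run = some D) (hi : (𝔇.cs d s.x).ini = false) :
    OutP 𝔇 d n (nxS 𝔇 d n s ω) ω := by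
  intro q' D' hq' hD' _
  rw [nxS_run_eq hq hD, hi] at hq' hD' ⊢
  rw [finS_x] at hD'
  rw [finS_run hD'] at hq' ⊢
  simp only [Option.some.injEq] at hq'
  subst hq'
  rw [𝔇.cs_cons, CSt.mv_run_eq hD hi] at hD'
  simp only at hD'
  split_ifs at hD' with hE
  have h2 := Option.some.inj hD'
  subst h2
  exact fun h1 => G.stp_rest (Blow.blow_subset (G.val.nxP_sub fun h => hE (Or.inl h)) h1)

/-- **The first state of a needle**: the left end of the tip side is a corner of a face outside of `F`,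
the faces around `P` are in `F`. -/
theorem out_start {F P : Set (ℤ × ℤ)} {a : UE} (hc : ∃ f, f ∉ F ∧ IsCor f (Top.lf (dirE a)))
    (hd : ∀ f ∈ P, Dp F f 1) : fa a ∉ P := by
  intro h
  obtain ⟨f, hf, h1⟩ := hc
  have h2 := Top.isCor_in_lf (dirE a)
  rw [ahead_dirE] at h2
  refine hf (hd _ h f ?_ ?_)
  · unfold IsCor at h1 h2
    rw [abs_le]
    omega
  · unfold IsCor at h1 h2
    rw [abs_le]
    omega

/-- **The faces around the next disc are faces of the remaining vertices.** -/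
theorem kept_disc1 {c R : ℤ} (hu : 0 < unt d n) (hR : 0 ≤ R) (hc : 0 ≤ c) {N : ℕ}
    (h0 : ∀ f, Dp (blow (unt d n : ℤ) (𝔇.W₀ (d 0))) f c → f ∈ FU (Box n))
    (hG : ∀ i < N, StgK 𝔇 d n c R (TruR.ts 𝔇 d n ω i) ω) (hq : (TruR.ts 𝔇 d n ω N).q = none)
    (hz : 𝔇.tgt d (TruR.ts 𝔇 d n ω N).x ∈ CSt.erW (𝔇.cs d (TruR.ts 𝔇 d n ω N).x).W (msh d N)
      (𝔇.tgt d (TruR.ts 𝔇 d n ω N).x))
    {a : ℤ} (hA : c + (𝔇.cs d (TruR.ts 𝔇 d n ω N).x).j * (R + 2) + a ≤ unt d n * msh d N) {f : ℤ × ℤ}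
    (hf : f ∈ blow (unt d n : ℤ) (𝔇.disc d (TruR.ts 𝔇 d n ω N).x)) :
    Dp (FU (TruR.ts 𝔇 d n ω N).V) f a := by
  have h1 : 𝔇.disc d (TruR.ts 𝔇 d n ω N).x ⊆
      er3 (gc 0 0 (msh d N)) (𝔇.cs d (TruR.ts 𝔇 d n ω N).x).W := by
    intro g hg
    unfold Dat.disc at hg
    rw [ts_len] at hg
    have h2 := CSt.compT_erW_self (W := (𝔇.cs d (TruR.ts 𝔇 d n ω N).x).W) (L := msh d N)
      (z := 𝔇.tgt d (TruR.ts 𝔇 d n ω N).x) hz
    have h3 : g ∈ Top.compT (CSt.erW (𝔇.cs d (TruR.ts 𝔇 d n ω N).x).W (msh d N)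
      (𝔇.tgt d (TruR.ts 𝔇 d n ω N).x)) (𝔇.tgt d (TruR.ts 𝔇 d n ω N).x) := hg
    rw [h2] at h3
    have h4 := Top.compT_sub (CSt.mem_er3_of hz Top.self_mem_compT) h3
    exact er3_mono (msh_pos d N) (Top.compT_sub (CSt.erW_subset hz)) h4
  have h2 := dp_er3 hu (msh_pos d N) (Blow.blow_subset h1 hf)
  intro g g1 g2
  exact kept_W hu hR hc h0 hG hq (Dp.shift (a := a) (h2.mono (by omega)) g1 g2)

end Pool.Agent.SixB.Tru
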