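import Pool.Agent.Lib.SixB.S8DeepK
import Pool.Agent.Lib.SixB.S8Kept
import Pool.Agent.Lib.SixB.S8KeptL

/-!
# Step 8: a move keeps the deep faces of the part which is stored

`s`: a state with the running domain `D` and the needle `q`, `t₁` the time of the next stop. The components
of `D.P \ D.rem` which are stored (`Dom.lef`) are fresh at the time `t₁`, and every side of their contour
has an anchor of the colour `1`. So their deep faces are not visited by the rest of the loop, and they are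
faces of the remaining vertices after the step: the field `new` of `StgK`.

* `EvT`: the events (gates, walls) of one step from the time `s` on, with the two pairs of radii at the
  base;
* `keep_new`: the deep faces of a fresh set with anchors of colour `1`;
* `LefK`: what is known of the part which is stored at the closing time; `new_of`: the field `new`.
-/

set_option autoImplicit false

namespace Pool.Agent.SixB.Tru

open Finset Pool.Agent.Perc Pool.Agent.PercT Pool.Agent.PercX60 Pool.Agent.Perc6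
open Pool.Agent.PercU (vtx nxt)
open Pool.Agent.MP_6bd702.H23 (Ed)
open Pool.Agent.SixB Pool.Agent.SixB.Rule Pool.Agent.SixB.Dct Pool.Agent.SixB.Mv
open Pool.Agent.SixB.Par Pool.Agent.SixB.NearCut
open Pool.Agent.SixB.Top (compT ChI)

/-- **The events of one step, from the time `s` on.** -/
structure EvT (V : Finset (ℤ × ℤ)) (q : Rule.Ndl) (ω : Cfg) (b₀ : ℤ × ℤ) (s : ℕ)
    (r ρ' ρ₁ ρa Ra ρb Rb : ℤ) : Prop where
  /-- the gates are near the tip or near the base -/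
  gate : ∀ l, s ≤ l → Nb (cfS V q ω) (eS V q) l → ∀ v, (exS V q).Gate ω l v (r + 1) →
    Nb2 (ua (pS V q ω l)) v ρ' ∨ Nb2 b₀ v ρ₁
  /-- no passage along one wall near the base -/
  oa : ¬ (exS V q).OneWall 0 ω s b₀ ρa Ra
  ob : ¬ (exS V q).OneWall 0 ω s b₀ ρb Rb
  r0 : 0 ≤ r
  rr : r + 1 ≤ ρ'
  ha : ρ₁ + r + 2 ≤ ρa
  haa : ρa ≤ Ra
  hb : Ra + 3 * ρ' + r + 2 ≤ ρb
  hbb : ρb ≤ Rb

section Keep

variable {V : Finset (ℤ × ℤ)} {q : Rule.Ndl} {n : ℕ} {ω : Cfg} {b₀ f : ℤ × ℤ} {s : ℕ}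
  {r ρ' ρ₁ ρa Ra ρb Rb c₁ R₁ : ℤ} {X : Set (ℤ × ℤ)}

private theorem ua_near {k : ℤ × ℤ} {e : UE} (h : IsSide k e) :
    |k.1 - (ua e).1| ≤ 1 ∧ |k.2 - (ua e).2| ≤ 1 := by
  rcases h with rfl | rfl | rfl | rfl <;> simp [bo, le', to', ri, ua]

/-- Before the end of the loop the strand is not at its first side. -/
theorem nb_of_perS (hI : Rule.Inv n (cfgE n ω) V) {l : ℕ} (hl : l < perS n ω V q) :
    Nb (cfS V q ω) (eS V q) l := by
  intro m h0 hm h1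
  have hcf : (exS V q).cf ω = gT ((rst (cfgE n ω) V ∪ q.1 : Finset Edg) : Set Ed) :=
    (gT_cfg hI.sub q.1 ω).symm
  have h2 : pth (gT ((rst (cfgE n ω) V ∪ q.1 : Finset Edg) : Set Ed)) (kU (bc V q.1 q.2)) m =
      kU (bc V q.1 q.2) := by
    rw [← hcf]
    exact h1
  rw [← kU_iterate] at h2
  have h3 := kU_injective h2
  have h4 : Function.IsPeriodicPt (nxt ((rst (cfgE n ω) V ∪ q.1 : Finset Edg) : Set Ed)) m
    (bc V q.1 q.2) := h3
  have h5 : perS n ω V q ≤ m := h4.minimalPeriod_le h0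
  omega

/-- **The deep faces of a fresh set with anchors of the colour `1` are kept.** -/
theorem keep_new (hI : Rule.Inv n (cfgE n ω) V) (hk : ∃ k, NdF V q.1 k ∧ vtx k = q.2)
    (hs : s < perS n ω V q) (hfin : X.Finite) (hXF : X ⊆ (exS V q).Fr ω s)
    (hX : fa (pS V q ω s) ∉ X)
    (anc : ∀ v ∈ VB X, ∃ y, (exS V q).Sid 1 ω s y ∧
      Pth {a | InB v r a ∧ ∀ l ≤ s, pS V q ω l ≠ a} v y)
    (E : EvT V q ω b₀ s r ρ' ρ₁ ρa Ra ρb Rb) (hb₀ : Nb2 b₀ (ua (eS V q)) c₁)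
    (hf : Dp X f R₁) (h1 : 2 * ρ' + 4 ≤ R₁) (h2 : Rb + ρ' + c₁ + 5 ≤ R₁) :
    (∀ l < perS n ω V q, fa (pS V q ω l) ≠ f) ∧ f ∈ FU (stpQ (cfgE n ω) V q) := by
  have hr0 := E.r0
  have hrr := E.rr
  have haa := E.haa
  have ha := E.ha
  have hb := E.hb
  have hbb := E.hbb
  have hR : 0 ≤ R₁ := by omega
  obtain ⟨T, hT⟩ : ∃ T, perS n ω V q = T + 1 := ⟨perS n ω V q - 1, by omega⟩
  have hC : ((hfin.toFinset : Finset (ℤ × ℤ)) : Set (ℤ × ℤ)) = X := hfin.coe_toFinset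
  have hfb : fb (eS V q) ∉ FU V := fb_eS hk
  have hx : IsCor f f := by unfold IsCor; omega
  have key := Deep.side_exS2 (C := hfin.toFinset) (lam := 1) (s := s) (T := T)
    (f := f) (x₀ := f) (R₀ := 2 * ρ' + 3) (r := r) (ρ' := ρ') (ρ₁ := ρ₁) (ρa := ρa) (Ra := Ra)
    (ρb := ρb) (Rb := Rb) (b₀ := b₀) hI hk hT.symm (by omega) (by rw [hC]; exact hXF)
    (by rw [Set.Finite.mem_toFinset]; exact hX) (Or.inr rfl) hr0 hrr (by rw [hC]; exact anc)
    (fun l h3 h4 v h5 => E.gate l h3 (nb_of_perS hI (by omega)) v h5) ha haa hb hbb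
    (by rw [sub_self]; exact E.oa) (by rw [sub_self]; exact E.ob)
    ((Set.Finite.mem_toFinset hfin).2 (hf.mem hR)) hx ?_ le_rfl ?_
  · exact ⟨fun l hl => key.1 l (by omega), key.2.2 rfl⟩
  · have h3 := Deep.deep_of_box (C := hfin.toFinset) (f := f) (x₀ := f) (D := 2 * ρ' + 4) ?_ hx
    · intro v hv hn
      exact h3 v hv ⟨hn.1.trans (by omega), hn.2.trans (by omega)⟩
    · intro g hg
      rw [Set.Finite.mem_toFinset]
      exact hf g (hg.1.trans h1) (hg.2.trans h1)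
  · -- the base is far from the face
    intro h3
    have h4 : fb (eS V q) ∈ X := by
      have e2 := ua_near (isSide_fb (eS V q))
      have k1 := abs_le.1 h3.1
      have k2 := abs_le.1 h3.2
      have k3 := abs_le.1 hb₀.1
      have k4 := abs_le.1 hb₀.2
      have k5 := abs_le.1 e2.1
      have k6 := abs_le.1 e2.2
      exact hf _ (abs_le.2 (by omega)) (abs_le.2 (by omega))
    exact hfb ((hXF h4).1).1

end Keep

/-! ### The part which is stored -/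

section Lef

variable {𝔇 : Dat} {d : ℕ → ℕ} {n : ℕ} {s : TS} {q : Rule.Ndl} {D : Dom} {ω : Cfg}
  {b₀ : ℤ × ℤ} {r ρ' ρ₁ ρa Ra ρb Rb c₁ c : ℤ}

/-- A boundary vertex of the magnified part is one of a magnified component. -/
theorem vb_lef {u : ℤ} {g : Grd} {ρ : Rec} {v : ℤ × ℤ} (hv : v ∈ VB (blow u (D.lef g ρ))) :
    ∃ z ∈ D.lef g ρ, v ∈ VB (blow u (compT (D.P \ D.rem g ρ) z)) := by
  obtain ⟨a, ⟨⟨f, hf, hfa⟩, f', hf', hfa'⟩, hva⟩ := hv
  refine ⟨Blow.cl u f, hf, a, ⟨⟨f, ?_, hfa⟩, f', ?_, hfa'⟩, hva⟩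
  · show Blow.cl u f ∈ compT _ _
    exact Top.self_mem_compT
  · intro h
    exact hf' ((D.uoc_lef g ρ).mem hf h)

/-- **The part which is stored at the closing time**: fresh, without the face in front of the strand, and
every side of its components sees the colour `1`. -/
structure LefK (𝔇 : Dat) (d : ℕ → ℕ) (n : ℕ) (s : TS) (q : Rule.Ndl) (D : Dom) (ω : Cfg) (r : ℤ) :
    Prop where
  /-- the closing time is before the end of the loop -/
  per : mvT 𝔇 d n s q D false ω < perS n ω s.V q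
  fin : (blow (unt d n : ℤ) (D.lef (𝔇.gr d s.x D) (mvR 𝔇 d n s q D false ω))).Finite
  sub : blow (unt d n : ℤ) (D.lef (𝔇.gr d s.x D) (mvR 𝔇 d n s q D false ω)) ⊆
    (exS s.V q).Fr ω (mvT 𝔇 d n s q D false ω)
  tip : fa (pS s.V q ω (mvT 𝔇 d n s q D false ω)) ∉
    blow (unt d n : ℤ) (D.lef (𝔇.gr d s.x D) (mvR 𝔇 d n s q D false ω))
  anc : ∀ z ∈ D.lef (𝔇.gr d s.x D) (mvR 𝔇 d n s q D false ω),
    ∀ v ∈ VB (blow (unt d n : ℤ)
      (compT (D.P \ D.rem (𝔇.gr d s.x D) (mvR 𝔇 d n s q D false ω)) z)),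
    ∃ y, (exS s.V q).Sid 1 ω (mvT 𝔇 d n s q D false ω) y ∧
      Pth {a | InB v r a ∧ ∀ l ≤ mvT 𝔇 d n s q D false ω, pS s.V q ω l ≠ a} v y

/-- **The field `new`.** -/
theorem new_of (hI : Rule.Inv n (cfgE n ω) s.V) (hk : ∃ k, NdF s.V q.1 k ∧ vtx k = q.2)
    (H : LefK 𝔇 d n s q D ω r)
    (E : EvT s.V q ω b₀ (mvT 𝔇 d n s q D false ω) r ρ' ρ₁ ρa Ra ρb Rb)
    (hb₀ : Nb2 b₀ (ua (eS s.V q)) c₁) (h1 : 2 * ρ' + 4 ≤ c) (h2 : Rb + ρ' + c₁ + 5 ≤ c)
    {f : ℤ × ℤ}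
    (hf : Dp (blow (unt d n : ℤ) (D.lef (𝔇.gr d s.x D) (mvR 𝔇 d n s q D false ω))) f c) :
    f ∈ FU (stpQ (cfgE n ω) s.V q) := by
  refine (keep_new hI hk H.per H.fin H.sub H.tip ?_ E hb₀ hf h1 h2).2
  intro v hv
  obtain ⟨z, hz, hv'⟩ := vb_lef hv
  exact H.anc z hz v hv'

/-! ### Along the chain -/

variable {i : ℕ}

/-- The facts of a stage with a move give `LefK`, if the sides see the colour `1`. -/
theorem LefK.of_stp (hq : (tst 𝔇 d n ω i).q = some q) (G : StpW 𝔇 d n c₁ (tst 𝔇 d n ω i) ω q D)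
    (anc : ∀ z ∈ D.lef (𝔇.gr d (tst 𝔇 d n ω i).x D) (mvR 𝔇 d n (tst 𝔇 d n ω i) q D false ω),
      ∀ v ∈ VB (blow (unt d n : ℤ) (compT (D.P \ D.rem (𝔇.gr d (tst 𝔇 d n ω i).x D)
        (mvR 𝔇 d n (tst 𝔇 d n ω i) q D false ω)) z)),
      ∃ y, (exS (tst 𝔇 d n ω i).V q).Sid 1 ω (mvT 𝔇 d n (tst 𝔇 d n ω i) q D false ω) y ∧
        Pth {a | InB v r a ∧ ∀ l ≤ mvT 𝔇 d n (tst 𝔇 d n ω i) q D false ω,
          pS (tst 𝔇 d n ω i).V q ω l ≠ a} v y) :
    LefK 𝔇 d n (tst 𝔇 d n ω i) q D ω r where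
  per := by
    have := G.lt_perS hq
    omega
  fin := G.lef_fin
  sub := G.lef_fr
  tip := G.lef_stp
  anc := anc

/-- **The field `new` of `StgK` at a state of the chain.** -/
theorem new_tst (H : ∀ q D, (tst 𝔇 d n ω i).q = some q → (𝔇.cs d (tst 𝔇 d n ω i).x).run = some D →
      (𝔇.cs d (tst 𝔇 d n ω i).x).ini = false → LefK 𝔇 d n (tst 𝔇 d n ω i) q D ω r)
    (E : ∀ q D, (tst 𝔇 d n ω i).q = some q → (𝔇.cs d (tst 𝔇 d n ω i).x).run = some D →
      (𝔇.cs d (tst 𝔇 d n ω i).x).ini = false → EvT (tst 𝔇 d n ω i).V q ω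
        (ua (eS (tst 𝔇 d n ω i).V q)) (mvT 𝔇 d n (tst 𝔇 d n ω i) q D false ω)
        r ρ' ρ₁ ρa Ra ρb Rb)
    (h1 : 2 * ρ' + 4 ≤ c) (h2 : Rb + ρ' + 5 ≤ c) :
    ∀ q D, (tst 𝔇 d n ω i).q = some q → (𝔇.cs d (tst 𝔇 d n ω i).x).run = some D →
      (𝔇.cs d (tst 𝔇 d n ω i).x).ini = false → ∀ f,
      Dp (blow (unt d n : ℤ) (D.lef (𝔇.gr d (tst 𝔇 d n ω i).x D)
        (mvR 𝔇 d n (tst 𝔇 d n ω i) q D false ω))) f c →
      f ∈ FU (stpQ (cfgE n ω) (tst 𝔇 d n ω i).V q) := by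
  intro q D hq hD hi f hf
  exact new_of (TruR.inv_V 𝔇 d n ω i) (tst_ndF hq).2 (H q D hq hD hi) (E q D hq hD hi)
    (c₁ := 0) (by unfold Nb2; simp) h1 (by omega) hf

end Lef

end Pool.Agent.SixB.Tru
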