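import Pool.Agent.Lib.SixB.S8Chain
import Pool.Agent.Lib.SixB.S8RuleL

/-!
# Step 8: the rule of the needles of the true chain

`ts 𝔇 d n`: the stages of the true chain `Tru.tst` with the initial state `(Box n, none, 0, [])`,
`cnt 𝔇 d s`: the number of needles placed or skipped, `trcOK`: they are a chain of stages in the sense
of `TrcOK`. `ruleT 𝔇 d n`: the rule of the needles, `ruleT_ok`: it is a rule of the scan. `run_*`: in a
stage with a running needle the remaining vertices, the strand and the explored faces are those of the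
exploration `exR n (ruleT 𝔇 d n) j`.
-/

set_option autoImplicit false

namespace Pool.Agent.SixB.TruR

open Finset Pool.Agent.Perc Pool.Agent.PercT Pool.Agent.PercX60
open Pool.Agent.PercU (Cor vtx fce nxt nxtE qry)
open Pool.Agent.MP_6bd702.H23 (Ed ea eb)
open Pool.Agent.SixB Pool.Agent.SixB.Rule Pool.Agent.SixB.Dct Pool.Agent.SixB.Mv
open Pool.Agent.SixB.Tru
open Pool.Agent.SixB.Blow (subE)

variable {n : ℕ} {V : Finset (ℤ × ℤ)} {q : Rule.Ndl} {ω ω' : Cfg}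

/-! ### The strand of a state -/

/-- The configuration which is read by the strand is the configuration of the step. -/
theorem cfS_eq (hV : V ⊆ Box n) (q : Rule.Ndl) (ω : Cfg) :
    cfS V q ω = gT ((cfQ (cfgE n ω) V q : Finset Edg) : Set Ed) := (gT_cfg hV q.1 ω).symm

/-- The strand is the strand of the scan. -/
theorem pS_eq (hV : V ⊆ Box n) (q : Rule.Ndl) (ω : Cfg) (t : ℕ) :
    pS V q ω t = strd (cfgE n ω) V q t := by
  unfold pS Tru.eS
  rw [cfS_eq hV, strd_eq_pth]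

/-- The strand of two configurations is the same if they agree on the edges with an end which is
removed by the step. -/
theorem pS_congr (hV : V ⊆ Box n) (hk : ∃ k, NdF V q.1 k ∧ vtx k = q.2)
    (hag : AgrE n (stpQ (cfgE n ω) V q) (cfgE n ω) (cfgE n ω')) : pS V q ω' = pS V q ω := by
  funext t
  rw [pS_eq hV, pS_eq hV, strd_congr hk (DictB.cfgE_subset n ω)
    (DictB.cfgE_subset n ω') hag]

theorem mem_vS {f : ℤ × ℤ} {s t : ℕ} :
    f ∈ vS V q ω s t ↔ ∃ i, s ≤ i ∧ i < t ∧ f = fa (pS V q ω i) := mem_vs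

/-- The crossed faces are determined by the strand. -/
theorem vS_congr (h : pS V q ω' = pS V q ω) (s t : ℕ) : vS V q ω' s t = vS V q ω s t := by
  ext f
  rw [mem_vS, mem_vS, h]

variable {u : ℕ} {s : TS} {D : Dom} {g : Grd}

theorem stopT_congr (h : pS s.V q ω' = pS s.V q ω) : stopT n u s q D g ω' = stopT n u s q D g ω := by
  unfold stopT
  rw [h]

theorem visC_congr (h : pS s.V q ω' = pS s.V q ω) (t : ℕ) : visC u s q ω' t = visC u s q ω t := by
  unfold visC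
  rw [vS_congr h]

theorem stopI_congr (h : pS s.V q ω' = pS s.V q ω) (t : ℕ) :
    stopI u s q D g ω' t = stopI u s q D g ω t := by
  unfold stopI
  rw [h]

theorem staT_congr {B : UE × Bool} (h : pS V q ω' = pS V q ω) :
    staT n u V q B ω' = staT n u V q B ω := by
  unfold staT
  rw [h]

/-! ### The stages -/

section Stages

variable (𝔇 : Dat) (d : ℕ → ℕ) (n : ℕ)

/-- The number of the needles which are placed or skipped. -/
noncomputable def cnt (s : TS) : ℕ := (𝔇.cs d s.x).j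

/-- The stages of the chain, with the initial state. -/
noncomputable def ts (ω : Cfg) : ℕ → TS
  | 0 => ⟨Box n, none, 0, []⟩
  | i + 1 => tst 𝔇 d n ω i

/-- The rule of the needles of the chain. -/
noncomputable def ruleT : Rule.Rul := trR n (ts 𝔇 d n) TS.q (cnt 𝔇 d)

end Stages

variable {𝔇 : Dat} {d : ℕ → ℕ} {h : ℕ}

theorem ts_succ (ω : Cfg) (i : ℕ) : ts 𝔇 d n ω (i + 1) = nxS 𝔇 d n (ts 𝔇 d n ω i) ω := by
  cases i <;> rfl

/-! ### The coarse counter -/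

theorem mv_j_some {σ : CSt} {π : Prm} {L M : ℤ} {ρ : Rec} {D : Dom} (h : σ.run = some D) :
    (σ.mv π L M ρ).j = σ.j := by
  obtain ⟨W, r, j, b⟩ := σ
  simp only at h
  subst h
  unfold CSt.mv
  simp only
  split_ifs <;> rfl

theorem mv_j_none {σ : CSt} {π : Prm} {L M : ℤ} {ρ : Rec} (h : σ.run = none) :
    (σ.mv π L M ρ).j = σ.j + 1 := by
  obtain ⟨W, r, j, b⟩ := σ
  simp only at h
  subst h
  unfold CSt.mv
  simp only
  split_ifs <;> rfl

theorem cs_cons (ρ : Rec) (x : List Rec) : 𝔇.cs d (ρ :: x) =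
    (𝔇.cs d x).mv (𝔇.prm d) (msh d x.length) (msz (𝔇.prm d).kap d x.length) ρ := rfl

theorem j_some {x : List Rec} {ρ : Rec} {D : Dom} (h : (𝔇.cs d x).run = some D) :
    (𝔇.cs d (ρ :: x)).j = (𝔇.cs d x).j := by
  rw [cs_cons]
  exact mv_j_some h

theorem j_none {x : List Rec} {ρ : Rec} (h : (𝔇.cs d x).run = none) :
    (𝔇.cs d (ρ :: x)).j = (𝔇.cs d x).j + 1 := by
  rw [cs_cons]
  exact mv_j_none h

/-! ### One stage -/

/-- The invariant of the states: the running needle is a needle with a base corner, and it is only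
there if the coarse state is running. -/
structure StOK (𝔇 : Dat) (d : ℕ → ℕ) (n : ℕ) (s : TS) : Prop where
  sub : s.V ⊆ Box n
  nd : ∀ x, s.q = some x → IsNdl (n / 𝔇.K) s.V x ∧ ∃ k, NdF s.V x.1 k ∧ vtx k = x.2
  run : ∀ x, s.q = some x → ∃ D, (𝔇.cs d s.x).run = some D

theorem stOK_ini : StOK 𝔇 d n ⟨Box n, none, 0, []⟩ where
  sub := Finset.Subset.refl _
  nd := fun x hx => by cases hx
  run := fun x hx => by cases hx

theorem finS_some {q : Rule.Ndl} {t : ℕ} {x : List Rec} {D : Dom} (h : (𝔇.cs d x).run = some D) :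
    finS 𝔇 d n s q t x ω = ⟨s.V, some q, t, x⟩ := by
  unfold finS
  rw [h]

theorem finS_none {q : Rule.Ndl} {t : ℕ} {x : List Rec} (h : (𝔇.cs d x).run = none) :
    finS 𝔇 d n s q t x ω = ⟨stpQ (cfgE n ω) s.V q, none, 0, x⟩ := by
  unfold finS
  rw [h]

theorem stOK_finS {q : Rule.Ndl} {t : ℕ} {x : List Rec} (hs : StOK 𝔇 d n s) (hq : s.q = some q) :
    StOK 𝔇 d n (finS 𝔇 d n s q t x ω) := by
  rcases hr : (𝔇.cs d x).run with _ | D
  · rw [finS_none hr]
    exact ⟨stpQ_sub.trans hs.sub, fun x hx => (by cases hx), fun x hx => (by cases hx)⟩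
  · rw [finS_some hr]
    refine ⟨hs.sub, fun y hy => ?_, fun y _ => ⟨D, hr⟩⟩
    rw [← hq] at hy
    exact hs.nd y hy

theorem stOK_plS (hs : StOK 𝔇 d n s) : StOK 𝔇 d n (plS 𝔇 d n s) := by
  refine ⟨hs.sub, fun x hx => ?_, fun x hx => ?_⟩
  · unfold plS at hx
    simp only at hx
    split_ifs at hx with h1
    cases hx
    exact ⟨h1.2.1, h1.2.2⟩
  · unfold plS at hx
    simp only at hx
    split_ifs at hx with h1
    exact Option.isSome_iff_exists.1 h1.1

theorem stOK_nxS (hs : StOK 𝔇 d n s) (ω : Cfg) : StOK 𝔇 d n (nxS 𝔇 d n s ω) := by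
  unfold nxS
  split
  · rename_i q D hq hD
    exact stOK_finS hs hq
  · rename_i q hq hD
    exact stOK_finS hs hq
  · exact ⟨hs.sub, fun x hx => (by cases hx), fun x hx => (by cases hx)⟩
  · exact stOK_plS hs

/-- **The invariant holds at every stage.** -/
theorem stOK_ts (𝔇 : Dat) (d : ℕ → ℕ) (n : ℕ) (ω : Cfg) (i : ℕ) : StOK 𝔇 d n (ts 𝔇 d n ω i) := by
  induction i with
  | zero => exact stOK_ini
  | succ i ih =>
    rw [ts_succ]
    exact stOK_nxS ih ω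

theorem stOK_tst (𝔇 : Dat) (d : ℕ → ℕ) (n : ℕ) (ω : Cfg) (i : ℕ) : StOK 𝔇 d n (tst 𝔇 d n ω i) :=
  stOK_ts 𝔇 d n ω (i + 1)

/-- The transitions. -/
theorem nxS_move (hs : StOK 𝔇 d n s) (ω : Cfg) :
    ((nxS 𝔇 d n s ω).V = s.V ∧ (nxS 𝔇 d n s ω).q = s.q ∧ cnt 𝔇 d (nxS 𝔇 d n s ω) = cnt 𝔇 d s) ∨
    ((nxS 𝔇 d n s ω).V = vEnd (cfgE n ω) s.V s.q ∧
      (cnt 𝔇 d (nxS 𝔇 d n s ω) = cnt 𝔇 d s + 1 ∨
        (cnt 𝔇 d (nxS 𝔇 d n s ω) = cnt 𝔇 d s ∧ (nxS 𝔇 d n s ω).q = none))) := by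
  unfold nxS
  split
  · rename_i q D hq hD
    set x' := mvR 𝔇 d n s q D (𝔇.cs d s.x).ini ω :: s.x with hx'
    have hj : (𝔇.cs d x').j = (𝔇.cs d s.x).j := j_some hD
    rcases hr : (𝔇.cs d x').run with _ | D'
    · right
      rw [finS_none hr, hq]
      exact ⟨rfl, Or.inr ⟨hj, rfl⟩⟩
    · left
      rw [finS_some hr]
      exact ⟨rfl, hq.symm, hj⟩
  · rename_i q hq hD
    obtain ⟨D, h1⟩ := hs.run q hq
    rw [h1] at hD
    cases hD
  · rename_i D hq hD
    left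
    exact ⟨rfl, hq.symm, j_some hD⟩
  · rename_i hq hD
    right
    rw [hq]
    exact ⟨rfl, Or.inl (j_none hD)⟩

/-- A needle which is placed is a needle. -/
theorem nxS_ndl (hs : StOK 𝔇 d n s) (ω : Cfg) {x : Rule.Ndl}
    (hx : (nxS 𝔇 d n s ω).q = some x) : IsNdl (n / 𝔇.K) (nxS 𝔇 d n s ω).V x :=
  ((stOK_nxS hs ω).nd x hx).1

/-- **Locality of a stage.** -/
theorem nxS_loc (hs : StOK 𝔇 d n s)
    (hag : AgrE n (vEnd (cfgE n ω) s.V s.q) (cfgE n ω) (cfgE n ω')) :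
    nxS 𝔇 d n s ω' = nxS 𝔇 d n s ω := by
  have hT := DictB.cfgE_subset n ω
  have hT' := DictB.cfgE_subset n ω'
  unfold nxS
  split
  · rename_i q D hq hD
    rw [hq] at hag
    have hp : pS s.V q ω' = pS s.V q ω := pS_congr hs.sub (hs.nd q hq).2 hag
    have hst : stpQ (cfgE n ω') s.V q = stpQ (cfgE n ω) s.V q := stpQ_congr hT hT' hag
    have h1 : mvT 𝔇 d n s q D (𝔇.cs d s.x).ini ω' = mvT 𝔇 d n s q D (𝔇.cs d s.x).ini ω := by
      unfold mvT
      rw [staT_congr hp, stopT_congr hp]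
    have h2 : mvR 𝔇 d n s q D (𝔇.cs d s.x).ini ω' = mvR 𝔇 d n s q D (𝔇.cs d s.x).ini ω := by
      unfold mvR
      rw [stopT_congr hp, visC_congr hp, stopI_congr hp]
    unfold finS
    rw [h1, h2, hst]
  · rename_i q hq hD
    rw [hq] at hag
    have hst : stpQ (cfgE n ω') s.V q = stpQ (cfgE n ω) s.V q := stpQ_congr hT hT' hag
    unfold finS
    rw [hst]
  · rfl
  · rfl

/-- A stage depends only on the edges of the box. -/
theorem nxS_cfgE (hs : s.V ⊆ Box n) (h : cfgE n ω = cfgE n ω') :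
    nxS 𝔇 d n s ω = nxS 𝔇 d n s ω' := by
  unfold nxS
  split
  · rename_i q D hq hD
    have hp : pS s.V q ω = pS s.V q ω' := by
      funext t
      rw [pS_eq hs, pS_eq hs, h]
    have h1 : mvT 𝔇 d n s q D (𝔇.cs d s.x).ini ω = mvT 𝔇 d n s q D (𝔇.cs d s.x).ini ω' := by
      unfold mvT
      rw [staT_congr hp, stopT_congr hp]
    have h2 : mvR 𝔇 d n s q D (𝔇.cs d s.x).ini ω = mvR 𝔇 d n s q D (𝔇.cs d s.x).ini ω' := by
      unfold mvR
      rw [stopT_congr hp, visC_congr hp, stopI_congr hp]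
    unfold finS
    rw [h1, h2, h]
  · unfold finS
    rw [h]
  · rfl
  · rfl

theorem ts_cfgE (h : cfgE n ω = cfgE n ω') (i : ℕ) : ts 𝔇 d n ω i = ts 𝔇 d n ω' i := by
  induction i with
  | zero => rfl
  | succ i ih =>
    rw [ts_succ, ts_succ, ← ih]
    exact nxS_cfgE (stOK_ts 𝔇 d n ω i).sub h

/-- The chain depends only on the edges of the box. -/
theorem tst_cfgE (h : cfgE n ω = cfgE n ω') (i : ℕ) : tst 𝔇 d n ω i = tst 𝔇 d n ω' i :=
  ts_cfgE h (i + 1)

theorem recS_cfgE (h : cfgE n ω = cfgE n ω') (i : ℕ) : recS 𝔇 d n i ω = recS 𝔇 d n i ω' := by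
  unfold recS
  rw [tst_cfgE h]

/-- **The chain of moves is a chain of stages in the sense of `TrcOK`.** -/
theorem trcOK (𝔇 : Dat) (d : ℕ → ℕ) (n : ℕ) :
    TrcOK n (n / 𝔇.K) (ts 𝔇 d n) TS.V TS.q (cnt 𝔇 d) where
  loc0 := fun ω ω' h i => ts_cfgE h i
  init := fun _ _ => rfl
  V0 := fun _ => rfl
  q0 := fun _ => rfl
  c0 := fun _ => rfl
  move := fun ω i => by
    rw [ts_succ]
    exact nxS_move (stOK_ts 𝔇 d n ω i) ω
  ndl := fun ω i x _ hx => by
    rw [ts_succ] at hx ⊢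
    exact nxS_ndl (stOK_ts 𝔇 d n ω i) ω hx
  loc := fun ω ω' i h1 h2 => by
    rw [ts_succ, ts_succ, h1]
    exact nxS_loc (stOK_ts 𝔇 d n ω i) h2

/-! ### The rule of the chain -/

section OfTrc

variable (𝔇 : Dat) (d : ℕ → ℕ) (n : ℕ) {i j t : ℕ} {x : Rule.Ndl}

/-- **The needles of the chain form a rule.** -/
theorem ruleT_ok : RulOK n (n / 𝔇.K) (ruleT 𝔇 d n) := (trcOK 𝔇 d n).rulOK

/-- The remaining vertices of every stage are the remaining vertices of the scan. -/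
theorem inv_V (ω : Cfg) (i : ℕ) : Rule.Inv n (cfgE n ω) (tst 𝔇 d n ω i).V := by
  have hT := DictB.cfgE_subset n ω
  have hI := (trcOK 𝔇 d n).inv ω (i + 1)
  rcases hq : (tst 𝔇 d n ω i).q with _ | x
  · have h1 : (tst 𝔇 d n ω i).V = _ := hI.1 hq
    rw [h1]
    exact inv_stR (ruleT_ok 𝔇 d n) hT _
  · obtain ⟨j, -, -, h1⟩ := hI.2 x hq
    have h2 : (tst 𝔇 d n ω i).V = _ := h1
    rw [h2]
    exact inv_stR (ruleT_ok 𝔇 d n) hT _

/-- A stage without a running needle. -/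
theorem idle_of (hq : (tst 𝔇 d n ω i).q = none) :
    (tst 𝔇 d n ω i).V = rem n (ruleT 𝔇 d n) (cnt 𝔇 d (tst 𝔇 d n ω i)) ω :=
  ((trcOK 𝔇 d n).inv ω (i + 1)).1 hq

/-- The needle which is placed (or not) at the first stage with `cnt = j + 1`. -/
theorem rule_eq (h1 : cnt 𝔇 d (ts 𝔇 d n ω i) = j) (h2 : cnt 𝔇 d (tst 𝔇 d n ω i) = j + 1) :
    ruleT 𝔇 d n j (cfgE n ω) = (tst 𝔇 d n ω i).q :=
  (trcOK 𝔇 d n).trR_eq h1 h2

/-- The number of needles grows by steps of size one. -/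
theorem cnt_step (ω : Cfg) (i : ℕ) :
    cnt 𝔇 d (tst 𝔇 d n ω i) = cnt 𝔇 d (ts 𝔇 d n ω i) ∨
      cnt 𝔇 d (tst 𝔇 d n ω i) = cnt 𝔇 d (ts 𝔇 d n ω i) + 1 :=
  (trcOK 𝔇 d n).step_c ω i

theorem cnt_mono {i' : ℕ} (hi : i ≤ i') :
    cnt 𝔇 d (tst 𝔇 d n ω i) ≤ cnt 𝔇 d (tst 𝔇 d n ω i') :=
  (trcOK 𝔇 d n).mono_c (Nat.succ_le_succ hi)

/-- For every `j` below the number of needles of the stage `N` there is a stage at which the needle `j`
is placed or skipped. -/
theorem exists_start {N : ℕ} (hj : j < cnt 𝔇 d (tst 𝔇 d n ω N)) :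
    ∃ i ≤ N, cnt 𝔇 d (ts 𝔇 d n ω i) = j ∧ cnt 𝔇 d (tst 𝔇 d n ω i) = j + 1 := by
  induction N with
  | zero =>
    have h0 : cnt 𝔇 d (ts 𝔇 d n ω 0) = 0 := rfl
    refine ⟨0, le_rfl, ?_⟩
    rcases cnt_step 𝔇 d n ω 0 with h1 | h1
    · rw [h1, h0] at hj; omega
    · rw [h1, h0] at hj ⊢; omega
  | succ N ih =>
    by_cases hN : j < cnt 𝔇 d (tst 𝔇 d n ω N)
    · obtain ⟨i, hi, h1⟩ := ih hN
      exact ⟨i, by omega, h1⟩
    · refine ⟨N + 1, le_rfl, ?_⟩
      have h2 : ts 𝔇 d n ω (N + 1) = tst 𝔇 d n ω N := rfl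
      rw [h2]
      rcases cnt_step 𝔇 d n ω (N + 1) with h1 | h1 <;> rw [h2] at h1 <;> omega

/-- A stage with a running needle. -/
theorem run_of (hx : (tst 𝔇 d n ω i).q = some x) :
    ∃ j, cnt 𝔇 d (tst 𝔇 d n ω i) = j + 1 ∧ ruleT 𝔇 d n j (cfgE n ω) = some x ∧
      (tst 𝔇 d n ω i).V = rem n (ruleT 𝔇 d n) j ω :=
  ((trcOK 𝔇 d n).inv ω (i + 1)).2 x hx

end OfTrc

section Run

variable {i j t : ℕ} {x : Rule.Ndl}

variable (hx : (tst 𝔇 d n ω i).q = some x) (hj : cnt 𝔇 d (tst 𝔇 d n ω i) = j + 1)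

include hx hj

theorem run_rule : ruleT 𝔇 d n j (cfgE n ω) = some x := by
  obtain ⟨j', h1, h2, -⟩ := run_of 𝔇 d n hx
  have h3 : j' = j := by omega
  rwa [h3] at h2

theorem run_V : (tst 𝔇 d n ω i).V = rem n (ruleT 𝔇 d n) j ω := by
  obtain ⟨j', h1, -, h2⟩ := run_of 𝔇 d n hx
  have h3 : j' = j := by omega
  rwa [h3] at h2

theorem run_ndE : ndE n (ruleT 𝔇 d n) j ω = x.1 := by
  unfold ndE
  rw [run_rule hx hj]
  rfl

theorem run_ndB : ndB n (ruleT 𝔇 d n) j ω = x.2 := by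
  unfold ndB
  rw [run_rule hx hj]
  rfl

/-- The configuration of the strand is the one of the exploration. -/
theorem run_cf : (exR n (ruleT 𝔇 d n) j).cf ω = cfS (tst 𝔇 d n ω i).V x ω := by
  unfold Ex.cf exR cfS
  simp only
  rw [run_ndE hx hj, run_V hx hj]

theorem run_e : (exR n (ruleT 𝔇 d n) j).e ω = Tru.eS (tst 𝔇 d n ω i).V x := by
  unfold exR Tru.eS
  simp only
  rw [run_ndE hx hj, run_ndB hx hj, run_V hx hj]

/-- **The strand of a running stage is the strand of the exploration of the rule.** -/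
theorem run_p (t : ℕ) : (exR n (ruleT 𝔇 d n) j).p ω t = pS (tst 𝔇 d n ω i).V x ω t := by
  unfold Ex.p pS
  rw [run_cf hx hj, run_e hx hj]

theorem run_v (s t : ℕ) :
    (exR n (ruleT 𝔇 d n) j).v ω s t = vS (tst 𝔇 d n ω i).V x ω s t := by
  unfold Ex.v vS
  rw [run_cf hx hj, run_e hx hj]

/-- The explored faces of a running stage. -/
theorem run_expS : expS (tst 𝔇 d n ω i) ω =
    expl n (ruleT 𝔇 d n) j ω ∪ (exR n (ruleT 𝔇 d n) j).x ω (tst 𝔇 d n ω i).t := by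
  unfold expS expl Ex.x
  rw [hx, run_v hx hj, ← run_V hx hj, Option.elim_some]
  unfold exR
  simp only
  rw [run_ndE hx hj, ← run_V hx hj]

end Run

end Pool.Agent.SixB.TruR
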