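import Pool.Agent.Lib.SixB.S8NearTouch
import Pool.Agent.Lib.SixB.S8Shift

/-!
# Step 8: passages of an exploration with walls of one colour

`pr_fArm_scale_stop`: fresh arms off a stopping set, power form.

`Ex.OneWall c ω s z r R`: after the time `s` the strand makes a passage from the box of radius `r - 1`
around `z` to distance `R` without touching a wall (of the time `s`) of colour `c`. If the centre, the
event `A` and the time are decided then this has probability at most `C (r / R) ^ α` relative to `A`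
(`Ex.pr_leak`); for finitely many centres the probabilities are added (`Ex.pr_leak_family`). Use: a room
of the domain which has walls of one colour and whose mouths are short is not visited deep inside.
-/

set_option autoImplicit false

namespace Pool.Agent.SixB

open Finset Pool.Agent.Perc Pool.Agent.PercT

/-- **Fresh arms off a stopping set, power form.** -/
theorem pr_fArm_scale_stop : ∃ C α : ℝ, 1 ≤ C ∧ 0 < α ∧ ∀ (W : Finset (ℤ × ℤ))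
    (S : Cfg → Set (ℤ × ℤ)), StopS S → ∀ A : Set Cfg, DetS S A → ∀ (col : Cfg → ℤ)
    (z : Cfg → ℤ × ℤ), Adp S col → Adp S z → ∀ r R : ℤ, 0 < r → 0 < R →
    pr W (A ∩ {ω | ω ∈ FArm (col ω) ((W : Set (ℤ × ℤ)) \ S ω) (z ω) r R}) ≤
      C * ((r : ℝ) / R) ^ α * pr W A := by
  obtain ⟨C, α, hC, hα, h⟩ := pr_fArm_scale
  refine ⟨max C 1, α, le_max_right _ _, hα, ?_⟩
  intro W S hS A hA col z hcol hz r R hr hR
  have hr' : (0 : ℝ) < r := by exact_mod_cast hr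
  have hR' : (0 : ℝ) < R := by exact_mod_cast hR
  rcases le_total r R with hrR | hrR
  · refine (pr_mix_le hS hA (fun ω => FArm (col ω) (W : Set (ℤ × ℤ)) (z ω) r R) _
      (q := C * ((r : ℝ) / R) ^ α) (fun ω _ => h _ _ _ _ _ hr hrR) ?_).trans ?_
    · intro ω hω ξ hξ
      have hag : ∀ f ∈ S ω, ω f = mix (S ω) ω ξ f := fun f hf => (mix_of_mem hf).symm
      rw [Set.mem_ofPred_eq, hcol ω _ hag, hz ω _ hag, hS ω _ hag] at hξ
      have h5 : ∀ f ∈ (W : Set (ℤ × ℤ)) \ S ω, mix (S ω) ω ξ f = ξ f := fun f hf =>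
        mix_of_notMem hf.2
      exact fArm_mono Set.sdiff_subset le_rfl le_rfl
        ((depOn_fArm (col ω) ((W : Set (ℤ × ℤ)) \ S ω) (z ω) r R _ _ h5).1 hξ)
    · refine mul_le_mul_of_nonneg_right ?_ (pr_nonneg _ _)
      exact mul_le_mul_of_nonneg_right (le_max_left _ _) (by positivity)
  · have h1 : (1 : ℝ) ≤ (r : ℝ) / R := by
      rw [one_le_div hR']
      exact_mod_cast hrR
    have h2 : (1 : ℝ) ≤ ((r : ℝ) / R) ^ α := Real.one_le_rpow h1 hα.le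
    have h3 : (1 : ℝ) ≤ max C 1 * ((r : ℝ) / R) ^ α := by
      have := le_max_right C 1
      nlinarith
    calc pr W (A ∩ {ω | ω ∈ FArm (col ω) ((W : Set (ℤ × ℤ)) \ S ω) (z ω) r R})
        ≤ pr W A := pr_mono W Set.inter_subset_left
      _ ≤ max C 1 * ((r : ℝ) / R) ^ α * pr W A := by
        have := pr_nonneg W A
        nlinarith

namespace Ex

variable {E : Ex} {S : Cfg → Set (ℤ × ℤ)} {ω : Cfg} {c : ℤ} {s : ℕ} {z : ℤ × ℤ} {r R : ℤ}
  {F : Set (ℤ × ℤ)}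

/-- After the time `s`: a passage from the box of radius `r - 1` around `z` to distance `R` without touch
of a wall of colour `c`. -/
def OneWall (E : Ex) (c : ℤ) (ω : Cfg) (s : ℕ) (z : ℤ × ℤ) (r R : ℤ) : Prop :=
  ∃ i j, s ≤ i ∧ i ≤ j ∧ InB z (r - 1) (E.p ω i) ∧ ¬ InB z R (E.p ω j) ∧
    ∀ k, i ≤ k → k < j → ¬ E.Touch c ω s k

theorem OneWall.fArm (hc : c = 0 ∨ c = 1) (hF : E.Fr ω s ⊆ F) (h : E.OneWall c ω s z r R) :
    ω ∈ FArm c F z r R := by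
  obtain ⟨i, j, -, hij, hi, hj, hk⟩ := h
  by_contra hno
  obtain ⟨k, h1, h2, h3⟩ := exists_touch (s := s) hc hij hF hi hj hno
  exact hk k h1 h2 h3

/-- **Leak**: passages with walls of one colour around a decided centre. -/
theorem pr_leak : ∃ C α : ℝ, 1 ≤ C ∧ 0 < α ∧ ∀ (W : Finset (ℤ × ℤ)) (E : Ex)
    (S : Cfg → Set (ℤ × ℤ)) (τ : Cfg → ℕ) (A : Set Cfg), E.Ok S → E.Time S τ →
    DetS (fun ω => S ω ∪ E.x ω (τ ω)) A → (∀ ω ∈ A, E.U ω ⊆ W) →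
    (∀ ω ∈ A, Disjoint (E.U ω) (S ω)) → ∀ z : Cfg → ℤ × ℤ,
    Adp (fun ω => S ω ∪ E.x ω (τ ω)) z → ∀ r R : ℤ, 0 < r → 0 < R →
    pr W (A ∩ {ω | E.OneWall 0 ω (τ ω) (z ω) r R ∨ E.OneWall 1 ω (τ ω) (z ω) r R}) ≤
      C * ((r : ℝ) / R) ^ α * pr W A := by
  obtain ⟨C, α, hC, hα, h⟩ := pr_fArm_scale_stop
  refine ⟨2 * C, α, by linarith, hα, ?_⟩
  intro W E S τ A hE hτ hA hU hd z hz r R hr hR
  have hfr : ∀ ω ∈ A, E.Fr ω (τ ω) ⊆ (W : Set (ℤ × ℤ)) \ (S ω ∪ E.x ω (τ ω)) := by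
    intro ω hω f hf
    refine ⟨hU ω hω hf.1, ?_⟩
    rintro (h5 | h5)
    · exact Set.disjoint_left.1 (hd ω hω) hf.1 h5
    · exact hf.2 h5
  have key : ∀ c : ℤ, (c = 0 ∨ c = 1) → pr W (A ∩ {ω | E.OneWall c ω (τ ω) (z ω) r R}) ≤
      C * ((r : ℝ) / R) ^ α * pr W A := by
    intro c hc
    refine (pr_mono W ?_).trans (h W _ (hE.stopS hτ) A hA (fun _ => c) z (Adp.const c) hz r R hr hR)
    rintro ω ⟨hω, h1⟩
    exact ⟨hω, h1.fArm hc (hfr ω hω)⟩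
  have hsub : A ∩ {ω | E.OneWall 0 ω (τ ω) (z ω) r R ∨ E.OneWall 1 ω (τ ω) (z ω) r R} ⊆
      (A ∩ {ω | E.OneWall 0 ω (τ ω) (z ω) r R}) ∪ (A ∩ {ω | E.OneWall 1 ω (τ ω) (z ω) r R}) := by
    rintro ω ⟨hω, h1 | h1⟩
    · exact Or.inl ⟨hω, h1⟩
    · exact Or.inr ⟨hω, h1⟩
  refine (pr_mono W hsub).trans ((pr_union_le W _ _).trans ?_)
  have h0 := key 0 (Or.inl rfl)
  have h1 := key 1 (Or.inr rfl)
  linarith

/-- **Leak**, at most `N` decided centres. -/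
theorem pr_leak_family : ∃ C α : ℝ, 1 ≤ C ∧ 0 < α ∧ ∀ (W : Finset (ℤ × ℤ)) (E : Ex)
    (S : Cfg → Set (ℤ × ℤ)) (τ : Cfg → ℕ) (A : Set Cfg), E.Ok S → E.Time S τ →
    DetS (fun ω => S ω ∪ E.x ω (τ ω)) A → (∀ ω ∈ A, E.U ω ⊆ W) →
    (∀ ω ∈ A, Disjoint (E.U ω) (S ω)) → ∀ (N : ℕ) (z : ℕ → Cfg → ℤ × ℤ),
    (∀ m < N, Adp (fun ω => S ω ∪ E.x ω (τ ω)) (z m)) → ∀ r R : ℤ, 0 < r → 0 < R →
    pr W (A ∩ {ω | ∃ m < N, E.OneWall 0 ω (τ ω) (z m ω) r R ∨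
      E.OneWall 1 ω (τ ω) (z m ω) r R}) ≤ N * (C * ((r : ℝ) / R) ^ α) * pr W A := by
  obtain ⟨C, α, hC, hα, h⟩ := pr_leak
  refine ⟨C, α, hC, hα, ?_⟩
  intro W E S τ A hE hτ hA hU hd N z hz r R hr hR
  induction N with
  | zero =>
    have : A ∩ {ω | ∃ m < 0, E.OneWall 0 ω (τ ω) (z m ω) r R ∨
        E.OneWall 1 ω (τ ω) (z m ω) r R} = ∅ := by
      ext ω
      simp
    rw [this]
    have h0 : pr W (∅ : Set Cfg) = 0 := by
      rw [ProbA.pr_eq_sum]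
      simp
    rw [h0]
    simp
  | succ N ih =>
    have h1 := ih fun m hm => hz m (by omega)
    have h2 := h W E S τ A hE hτ hA hU hd (z N) (hz N (by omega)) r R hr hR
    have hsub : A ∩ {ω | ∃ m < N + 1, E.OneWall 0 ω (τ ω) (z m ω) r R ∨
        E.OneWall 1 ω (τ ω) (z m ω) r R} ⊆
        (A ∩ {ω | ∃ m < N, E.OneWall 0 ω (τ ω) (z m ω) r R ∨ E.OneWall 1 ω (τ ω) (z m ω) r R}) ∪
        (A ∩ {ω | E.OneWall 0 ω (τ ω) (z N ω) r R ∨ E.OneWall 1 ω (τ ω) (z N ω) r R}) := by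
      rintro ω ⟨hω, m, hm, h3⟩
      rcases Nat.lt_succ_iff_lt_or_eq.1 hm with h4 | rfl
      · exact Or.inl ⟨hω, m, h4, h3⟩
      · exact Or.inr ⟨hω, h3⟩
    refine (pr_mono W hsub).trans ((pr_union_le W _ _).trans ?_)
    push_cast
    linarith

end Ex

end Pool.Agent.SixB
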