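import Pool.Agent.Lib.SixB.S8Touch
import Pool.Agent.Lib.SixB.S8Leak

/-!
# Step 8: small places without gates are not entered

`Ex.Wll E ω`: the solid faces outside of `U` form one wall for each colour `c`: every bond of colour
`c` of such a face is joined to the end `en c e` of the first unit edge by bonds of such faces.
`Ex.Sid c ω t v`: `v` is on the side of colour `c` at the time `t` (joined to `en c e` by bonds of
faces which are not fresh at the time `t`). `Ex.Gate ω t z r R`: at the time `t` there is a path of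
unit edges in the box of radius `R` around `z` from the side of colour `0` to the side of colour `1`
which is not crossed up to the time `t`.

* `gate_of_touches`: a piece of the strand which touches both walls of the time `s` gives a gate.
* `one_of_no_gate`: without a gate in a box (the tip is outside of the box) a passage of this box has
  touches of one colour only.
* `pr_caps`: a decided family of `N` places: the probability to enter a place (radius `r`) which is in a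
  box of radius `R` without gate is at most `N C (r / R) ^ α`.
-/

set_option autoImplicit false

namespace Pool.Agent.SixB.Ex

open Finset Pool.Agent.Perc Pool.Agent.PercT Pool.Agent.Perc6 Pool.Agent.SixB
  Pool.Agent.SixB.NearCut

variable {E : Ex} {S : Cfg → Set (ℤ × ℤ)} {ω : Cfg} {c : ℤ} {s t i j k l n : ℕ}
  {z v w p q : ℤ × ℤ} {r R : ℤ} {F : Set (ℤ × ℤ)}

/-- The walls: every bond of colour `c` outside of `U` belongs to the wall of colour `c`. -/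
def Wll (E : Ex) (ω : Cfg) : Prop :=
  ∀ c : ℤ, (c = 0 ∨ c = 1) → ∀ f, f ∉ E.U ω → ∀ p q, Bond (E.cf ω) {f} p q → par p = c →
    Conn (E.cf ω) (E.U ω)ᶜ (en c (E.e ω)) p

/-- The side of colour `c` at the time `t`. -/
def Sid (E : Ex) (c : ℤ) (ω : Cfg) (t : ℕ) (v : ℤ × ℤ) : Prop :=
  Conn (E.cf ω) (E.Fr ω t)ᶜ (en c (E.e ω)) v

/-- At the time `t` there is a gate in the box of radius `R` around `z`. -/
def Gate (E : Ex) (ω : Cfg) (t : ℕ) (z : ℤ × ℤ) (R : ℤ) : Prop :=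
  ∃ v w, E.Sid 0 ω t v ∧ E.Sid 1 ω t w ∧ Pth {a | InB z R a ∧ ∀ l ≤ t, E.p ω l ≠ a} v w

theorem Gate.mono {R' : ℤ} (h : E.Gate ω t z R) (hR : R ≤ R') : E.Gate ω t z R' := by
  obtain ⟨v, w, h1, h2, h3⟩ := h
  exact ⟨v, w, h1, h2, h3.mono fun a ha => ⟨ha.1.mono hR, ha.2⟩⟩

theorem sid_strand (hc : c = 0 ∨ c = 1) (hl : l ≤ t) : E.Sid c ω t (en c (E.p ω l)) :=
  conn_pth hc (Nat.zero_le l) fun _ _ h2 => Or.inl (fa_not_fr (h2.trans_le hl))

theorem Sid.mono (h : E.Sid c ω s v) (hst : s ≤ t) : E.Sid c ω t v :=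
  conn_mono (Set.compl_subset_compl.2 (fr_anti hst)) h

/-- A touch of colour `c` is on the side of colour `c`. -/
theorem sid_touch (hW : E.Wll ω) (hc : c = 0 ∨ c = 1) (h : E.Touch c ω s k) :
    E.Sid c ω s (en c (E.p ω k)) := by
  obtain ⟨h1, h2⟩ := h
  -- the bond at the time `k`
  have hb : ∀ m, NearCut.Cl (E.cf ω) c (fa (E.p ω m)) →
      Bond (E.cf ω) {fa (E.p ω m)} (en c (E.p ω m)) (en c (E.p ω (m + 1))) := by
    intro m hm
    have hmt : Mt (E.cf ω) (fa (E.p ω m)) (E.p ω m) (E.p ω (m + 1)) := mt_pth _ _ m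
    rcases mt_cl hc hmt with ⟨-, -, g⟩ | ⟨g, -⟩
    · exact g
    · exact absurd g (cl_not hc hm)
  have hbk := hb k h2
  rcases not_fr_iff h1 with hU | ⟨l, hl, hfl⟩
  · have h3 := hW c hc _ hU _ _ hbk (par_en hc _)
    exact conn_mono (Set.compl_subset_compl.2 fr_sub) h3
  · have e1 : fa (E.p ω l) = fa (E.p ω k) := hfl
    have hbl := hb l (by rw [e1]; exact h2)
    rw [e1] at hbl
    have h3 := bond_unique hbl hbk
    refine Relation.ReflTransGen.trans (sid_strand hc hl.le) ?_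
    exact conn_mono (Set.singleton_subset_iff.2 h1) h3

/-- The path along the strand. -/
theorem pth_strand (hij : i ≤ j) (hv : v = ua (E.p ω i) ∨ v = ub (E.p ω i))
    (hw : w = ua (E.p ω j) ∨ w = ub (E.p ω j)) :
    Pth {a | ∃ k, i ≤ k ∧ k ≤ j ∧ E.p ω k = a} v w := by
  have key : ∀ {a : UE} {x y : ℤ × ℤ} {A : Set UE}, a ∈ A → (x = ua a ∨ x = ub a) →
      (y = ua a ∨ y = ub a) → Pth A x y := by
    intro a x y A ha hx hy
    by_cases hxy : x = y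
    · rw [hxy]
      exact Relation.ReflTransGen.refl
    · refine Relation.ReflTransGen.single ⟨a, ha, ?_⟩
      rcases hx with rfl | rfl <;> rcases hy with rfl | rfl
      · exact absurd rfl hxy
      · exact Or.inl ⟨rfl, rfl⟩
      · exact Or.inr ⟨rfl, rfl⟩
      · exact absurd rfl hxy
  induction j, hij using Nat.le_induction generalizing w with
  | base => exact key ⟨i, le_rfl, le_rfl, rfl⟩ hv hw
  | succ j hij ih =>
    -- a common end of the unit edges at the times `j`, `j + 1`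
    obtain ⟨x, hx1, hx2⟩ : ∃ x, (x = ua (E.p ω j) ∨ x = ub (E.p ω j)) ∧
        (x = ua (E.p ω (j + 1)) ∨ x = ub (E.p ω (j + 1))) := by
      have hmt : Mt (E.cf ω) (fa (E.p ω j)) (E.p ω j) (E.p ω (j + 1)) := mt_pth _ _ j
      rcases cl_or (ω := E.cf ω) (f := fa (E.p ω j)) (Or.inl rfl : (0 : ℤ) = 0 ∨ (0 : ℤ) = 1)
        with h0 | h0
      · rcases mt_cl (Or.inl rfl : (0 : ℤ) = 0 ∨ (0 : ℤ) = 1) hmt with ⟨-, g, -⟩ | ⟨g, -⟩
        · exact ⟨_, en_or _ _, by rw [g]; exact en_or _ _⟩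
        · exact absurd g (cl_not (Or.inl rfl) h0)
      · rcases mt_cl (Or.inl rfl : (0 : ℤ) = 0 ∨ (0 : ℤ) = 1) hmt with ⟨g, -, -⟩ | ⟨-, g⟩
        · exact absurd h0 (cl_not (Or.inl rfl) g)
        · exact ⟨_, en_or _ _, by rw [g]; exact en_or _ _⟩
    refine Relation.ReflTransGen.trans ((ih hx1).mono ?_) (key ⟨j + 1, by omega, le_rfl, rfl⟩ hx2 hw)
    rintro a ⟨k, h1, h2, h3⟩
    exact ⟨k, h1, by omega, h3⟩

/-- A piece of the strand (after the time `s`) which touches both walls gives a gate. -/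
theorem gate_of_touches (hW : E.Wll ω) (hn : Nb (E.cf ω) (E.e ω) n)
    (hjn : j ≤ n) (hsi : s < i) (hin : ∀ m, i ≤ m → m ≤ j → InB z R (E.p ω m))
    (hk : i ≤ k ∧ k ≤ j) (hl : i ≤ l ∧ l ≤ j) (h0 : E.Touch 0 ω s k) (h1 : E.Touch 1 ω s l) :
    E.Gate ω s z R := by
  have hsub : ∀ a b : ℕ, i ≤ a → b ≤ j → {x | ∃ m, a ≤ m ∧ m ≤ b ∧ E.p ω m = x} ⊆
      {x | InB z R x ∧ ∀ l ≤ s, E.p ω l ≠ x} := by
    rintro a b ha hb x ⟨m, m1, m2, rfl⟩
    refine ⟨hin m (by omega) (by omega), fun l hl h => ?_⟩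
    have := hn.inj (by omega) (by omega) h
    omega
  refine ⟨_, _, sid_touch hW (Or.inl rfl) h0, sid_touch hW (Or.inr rfl) h1, ?_⟩
  rcases le_total k l with h | h
  · exact (pth_strand h (en_or _ _) (en_or _ _)).mono (hsub k l hk.1 hl.2)
  · exact (pth_strand h (en_or _ _) (en_or _ _)).symm.mono (hsub l k hl.1 hk.2)

/-! ### Passages from the outside to the inside -/

/-- After the time `s`: a passage from distance `R` of `z` to the box of radius `r - 1` without touch of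
a wall of colour `c`. -/
def OneIn (E : Ex) (c : ℤ) (ω : Cfg) (s : ℕ) (z : ℤ × ℤ) (r R : ℤ) : Prop :=
  ∃ i j, s ≤ i ∧ i ≤ j ∧ ¬ InB z R (E.p ω i) ∧ InB z (r - 1) (E.p ω j) ∧
    ∀ k, i ≤ k → k < j → ¬ E.Touch c ω s k

theorem OneIn.fArm (hc : c = 0 ∨ c = 1) (hF : E.Fr ω s ⊆ F) (h : E.OneIn c ω s z r R) :
    ω ∈ FArm c F z r R := by
  obtain ⟨i, j, -, hij, hi, hj, hk⟩ := h
  have h1 := conn_symm' (conn_of_no_touch (s := s) hc hij hk)
  have h2 := par_en hc (E.p ω j)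
  have key : ∀ a : UE, (ua a).1 ≤ (ub a).1 ∧ (ub a).1 ≤ (ua a).1 + 1 ∧ (ua a).2 ≤ (ub a).2 ∧
      (ub a).2 ≤ (ua a).2 + 1 := by
    rintro ⟨x, y, d⟩
    cases d <;> simp [ua, ub]
  have h3 := key (E.p ω i)
  have h4 := key (E.p ω j)
  unfold InB InR at hi hj
  refine ⟨en c (E.p ω j), en c (E.p ω i), ?_, ?_, ?_, ?_, ?_, ?_, conn_mono hF h1⟩
  · rcases en_or c (E.p ω j) with h5 | h5 <;> rw [h5] <;> omega
  · rcases en_or c (E.p ω j) with h5 | h5 <;> rw [h5] <;> omega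
  · rcases en_or c (E.p ω j) with h5 | h5 <;> rw [h5] <;> omega
  · rcases en_or c (E.p ω j) with h5 | h5 <;> rw [h5] <;> omega
  · unfold par at h2
    rcases hc with rfl | rfl <;> omega
  · intro h6
    rcases en_or c (E.p ω i) with h5 | h5 <;> rw [h5] at h6 <;> omega

theorem InB.prev {m : ℕ} (h : InB z R (E.p ω (m + 1))) : InB z (R + 1) (E.p ω m) := by
  have h1 := ua_nx (E.cf ω) (E.p ω m)
  have h2 : E.p ω (m + 1) = nx (E.cf ω) (E.p ω m) := SixB.pth_succ _ _ _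
  rw [h2] at h
  unfold InB InR at *
  omega

/-- **No gate, one colour**: there is no gate in the box of radius `R + 1` around `z` at the time `s`,
the tip is outside of this box. Then the first passage into the box of radius `r - 1` touches the wall
of at most one colour. -/
theorem one_of_no_gate (hW : E.Wll ω) (hn : Nb (E.cf ω) (E.e ω) n) (hsj : s ≤ j) (hjn : j ≤ n)
    (hrR : r ≤ R + 1) (hs : ¬ InB z (R + 1) (E.p ω s)) (hj : InB z (r - 1) (E.p ω j))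
    (hg : ¬ E.Gate ω s z (R + 1)) : E.OneIn 0 ω s z r R ∨ E.OneIn 1 ω s z r R := by
  by_contra hno
  rw [not_or] at hno
  obtain ⟨i, h1, h2, h3, h4⟩ := last_time (P := fun k => ¬ InB z R (E.p ω k)) (s := s) (u := j)
    (fun h => hs (h.mono (by omega))) hsj
  have hij : i ≠ j := by
    rintro rfl
    exact h3 (hj.mono (by omega))
  have hin : ∀ m, i ≤ m → m ≤ j → InB z (R + 1) (E.p ω m) := by
    intro m m1 m2
    rcases Nat.lt_or_eq_of_le m1 with h | rfl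
    · exact (not_not.1 (h4 m h m2)).mono (by omega)
    · exact InB.prev (not_not.1 (h4 (i + 1) (by omega) (by omega)))
  have hsi : s < i := by
    rcases Nat.lt_or_eq_of_le h1 with h | rfl
    · exact h
    · exact absurd (hin s le_rfl h2) hs
  have key : ∀ c, ¬ E.OneIn c ω s z r R → ∃ k, i ≤ k ∧ k < j ∧ E.Touch c ω s k := by
    intro c hc
    by_contra h5
    push Not at h5
    exact hc ⟨i, j, h1, h2, h3, hj, h5⟩
  obtain ⟨k, k1, k2, k3⟩ := key 0 hno.1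
  obtain ⟨l, l1, l2, l3⟩ := key 1 hno.2
  exact hg (gate_of_touches hW hn hjn hsi hin ⟨k1, k2.le⟩ ⟨l1, l2.le⟩ k3 l3)

/-- Entering a decided place with walls of one colour. -/
theorem pr_oneIn : ∃ C α : ℝ, 1 ≤ C ∧ 0 < α ∧ ∀ (W : Finset (ℤ × ℤ)) (E : Ex)
    (S : Cfg → Set (ℤ × ℤ)) (τ : Cfg → ℕ) (A : Set Cfg), E.Ok S → E.Time S τ →
    DetS (fun ω => S ω ∪ E.x ω (τ ω)) A → (∀ ω ∈ A, E.U ω ⊆ W) →
    (∀ ω ∈ A, Disjoint (E.U ω) (S ω)) → ∀ z : Cfg → ℤ × ℤ,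
    Adp (fun ω => S ω ∪ E.x ω (τ ω)) z → ∀ r R : ℤ, 0 < r → 0 < R →
    pr W (A ∩ {ω | E.OneIn 0 ω (τ ω) (z ω) r R ∨ E.OneIn 1 ω (τ ω) (z ω) r R}) ≤
      C * ((r : ℝ) / R) ^ α * pr W A := by
  obtain ⟨C, α, hC, hα, h⟩ := pr_fArm_scale_stop
  refine ⟨2 * C, α, by linarith, hα, ?_⟩
  intro W E S τ A hE hτ hA hU hd z hz r R hr hR
  have hfr : ∀ ω ∈ A, E.Fr ω (τ ω) ⊆ (W : Set (ℤ × ℤ)) \ (S ω ∪ E.x ω (τ ω)) := by
    intro ω hω f hf
    refine ⟨hU ω hω hf.1, ?_⟩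
    rintro (h5 | h5)
    · exact Set.disjoint_left.1 (hd ω hω) hf.1 h5
    · exact hf.2 h5
  have key : ∀ c : ℤ, (c = 0 ∨ c = 1) → pr W (A ∩ {ω | E.OneIn c ω (τ ω) (z ω) r R}) ≤
      C * ((r : ℝ) / R) ^ α * pr W A := by
    intro c hc
    refine (pr_mono W ?_).trans (h W _ (hE.stopS hτ) A hA (fun _ => c) z (Adp.const c) hz r R hr hR)
    rintro ω ⟨hω, h1⟩
    exact ⟨hω, h1.fArm hc (hfr ω hω)⟩
  have hsub : A ∩ {ω | E.OneIn 0 ω (τ ω) (z ω) r R ∨ E.OneIn 1 ω (τ ω) (z ω) r R} ⊆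
      (A ∩ {ω | E.OneIn 0 ω (τ ω) (z ω) r R}) ∪ (A ∩ {ω | E.OneIn 1 ω (τ ω) (z ω) r R}) := by
    rintro ω ⟨hω, h1 | h1⟩
    · exact Or.inl ⟨hω, h1⟩
    · exact Or.inr ⟨hω, h1⟩
  refine (pr_mono W hsub).trans ((pr_union_le W _ _).trans ?_)
  have h0 := key 0 (Or.inl rfl)
  have h1 := key 1 (Or.inr rfl)
  linarith

/-- The strand enters the place `z` (radius `r`) after the time `s`; at the time `s` there is no gate in
the box of radius `R + 1` around `z` and the tip is outside of this box. -/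
def Enter (E : Ex) (ω : Cfg) (s : ℕ) (z : ℤ × ℤ) (r R : ℤ) : Prop :=
  ∃ j, s ≤ j ∧ Nb (E.cf ω) (E.e ω) j ∧ InB z (r - 1) (E.p ω j) ∧ E.Wll ω ∧
    ¬ InB z (R + 1) (E.p ω s) ∧ ¬ E.Gate ω s z (R + 1)

theorem Enter.oneIn (h : E.Enter ω s z r R) (hrR : r ≤ R + 1) :
    E.OneIn 0 ω s z r R ∨ E.OneIn 1 ω s z r R := by
  obtain ⟨j, h1, h2, h3, h4, h5, h6⟩ := h
  exact one_of_no_gate h4 h2 h1 le_rfl hrR h5 h3 h6

/-- **CAPS**, one decided place. -/
theorem pr_enter : ∃ C α : ℝ, 1 ≤ C ∧ 0 < α ∧ ∀ (W : Finset (ℤ × ℤ)) (E : Ex)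
    (S : Cfg → Set (ℤ × ℤ)) (τ : Cfg → ℕ) (A : Set Cfg), E.Ok S → E.Time S τ →
    DetS (fun ω => S ω ∪ E.x ω (τ ω)) A → (∀ ω ∈ A, E.U ω ⊆ W) →
    (∀ ω ∈ A, Disjoint (E.U ω) (S ω)) → ∀ z : Cfg → ℤ × ℤ,
    Adp (fun ω => S ω ∪ E.x ω (τ ω)) z → ∀ r R : ℤ, 0 < r → 0 < R →
    pr W (A ∩ {ω | E.Enter ω (τ ω) (z ω) r R}) ≤ C * ((r : ℝ) / R) ^ α * pr W A := by
  obtain ⟨C, α, hC, hα, h⟩ := pr_oneIn
  refine ⟨C, α, hC, hα, ?_⟩
  intro W E S τ A hE hτ hA hU hd z hz r R hr hR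
  rcases le_total r R with hrR | hrR
  · refine (pr_mono W ?_).trans (h W E S τ A hE hτ hA hU hd z hz r R hr hR)
    rintro ω ⟨hω, h1⟩
    exact ⟨hω, h1.oneIn (by omega)⟩
  · have hR' : (0 : ℝ) < R := by exact_mod_cast hR
    have h1 : (1 : ℝ) ≤ (r : ℝ) / R := by
      rw [one_le_div hR']
      exact_mod_cast hrR
    have h2 : (1 : ℝ) ≤ ((r : ℝ) / R) ^ α := Real.one_le_rpow h1 hα.le
    have h3 : (1 : ℝ) ≤ C * ((r : ℝ) / R) ^ α := by nlinarith
    refine (pr_mono W Set.inter_subset_left).trans ?_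
    have := pr_nonneg W A
    nlinarith

/-- **CAPS**: at most `N` decided places. -/
theorem pr_caps : ∃ C α : ℝ, 1 ≤ C ∧ 0 < α ∧ ∀ (W : Finset (ℤ × ℤ)) (E : Ex)
    (S : Cfg → Set (ℤ × ℤ)) (τ : Cfg → ℕ) (A : Set Cfg), E.Ok S → E.Time S τ →
    DetS (fun ω => S ω ∪ E.x ω (τ ω)) A → (∀ ω ∈ A, E.U ω ⊆ W) →
    (∀ ω ∈ A, Disjoint (E.U ω) (S ω)) → ∀ (N : ℕ) (z : ℕ → Cfg → ℤ × ℤ),
    (∀ m < N, Adp (fun ω => S ω ∪ E.x ω (τ ω)) (z m)) → ∀ r R : ℤ, 0 < r → 0 < R →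
    pr W (A ∩ {ω | ∃ m < N, E.Enter ω (τ ω) (z m ω) r R}) ≤
      N * (C * ((r : ℝ) / R) ^ α) * pr W A := by
  obtain ⟨C, α, hC, hα, h⟩ := pr_enter
  refine ⟨C, α, hC, hα, ?_⟩
  intro W E S τ A hE hτ hA hU hd N z hz r R hr hR
  induction N with
  | zero =>
    have : A ∩ {ω | ∃ m < 0, E.Enter ω (τ ω) (z m ω) r R} = ∅ := by
      ext ω
      simp
    rw [this]
    have h0 : pr W (∅ : Set Cfg) = 0 := by
      rw [ProbA.pr_eq_sum]
      simp
    rw [h0]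
    simp
  | succ N ih =>
    have h1 := ih fun m hm => hz m (by omega)
    have h2 := h W E S τ A hE hτ hA hU hd (z N) (hz N (by omega)) r R hr hR
    have hsub : A ∩ {ω | ∃ m < N + 1, E.Enter ω (τ ω) (z m ω) r R} ⊆
        (A ∩ {ω | ∃ m < N, E.Enter ω (τ ω) (z m ω) r R}) ∪
        (A ∩ {ω | E.Enter ω (τ ω) (z N ω) r R}) := by
      rintro ω ⟨hω, m, hm, h3⟩
      rcases Nat.lt_succ_iff_lt_or_eq.1 hm with h4 | rfl
      · exact Or.inl ⟨hω, m, h4, h3⟩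
      · exact Or.inr ⟨hω, h3⟩
    refine (pr_mono W hsub).trans ((pr_union_le W _ _).trans ?_)
    push_cast
    linarith

end Pool.Agent.SixB.Ex
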