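import Pool.Agent.Lib.SixB.S8ScanDet
import Pool.Agent.Lib.SixB.S8Box
import Pool.Agent.Lib.SixB.S8Caps

/-!
# Step 8: the walls and the gates at the beginning of a step of the scan

The exploration of a step: `U = FU V \ QF Q` (the fresh faces off the needle), the configuration
is `gT Q` off `U`, the first unit edge is `kU k₀`.

* `wll`: the frozen faces form one wall for each colour.
* `not_gate_zero`, `not_gate_zero'`: there is no gate at the time `0` in a box which does not contain a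
  vertex of the needle near a vertex which is not left.
-/

set_option autoImplicit false

namespace Pool.Agent.SixB.GZ

open Finset Pool.Agent.Perc Pool.Agent.PercT Pool.Agent.Perc6 Pool.Agent.PercX60
open Pool.Agent.PercU (Cor vtx fce qry qryb)
open Pool.Agent.MP_6bd702.H23 (Ed ea eb ea_mk eb_true eb_false)
open Pool.Agent.PercO (mem_boxE' tl_eq hd_eq)
open Pool.Agent.SixB Pool.Agent.SixB.Dct Pool.Agent.SixB.NearCut

variable {ω : Cfg} {F : Set (ℤ × ℤ)} {V : Finset (ℤ × ℤ)} {Q : Finset Edg} {k₀ : Cor} {n : ℕ}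
  {p q f g z : ℤ × ℤ} {r : ℤ}

/-- The ends of a side are corners of the face. -/
theorem sq_of_side {a : UE} (h : IsSide f a) : Sq (ua a) f ∧ Sq (ub a) f := by
  obtain ⟨x, y, d⟩ := a
  obtain ⟨X, Y⟩ := f
  unfold IsSide bo ri to' le' at h
  simp only [Prod.mk.injEq] at h
  cases d
  · simp only [ua_mk, ub_false, Sq]
    simp at h
    omega
  · simp only [ua_mk, ub_true, Sq]
    simp at h
    omega

theorem sq_en {a : UE} (h : IsSide f a) (c : ℤ) : Sq (en c a) f := by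
  rcases en_or c a with h1 | h1
  · rw [h1]; exact (sq_of_side h).1
  · rw [h1]; exact (sq_of_side h).2

theorem sq_of_bond' (h : Bond ω {f} p q) : Sq p f ∧ Sq q f := by
  obtain ⟨X, Y, hF, h⟩ := h
  rw [Set.mem_singleton_iff] at hF
  subst hF
  rcases h with ⟨-, ⟨rfl, rfl⟩ | ⟨rfl, rfl⟩⟩ | ⟨-, ⟨rfl, rfl⟩ | ⟨rfl, rfl⟩⟩ <;>
    simp [Sq]

theorem bond_single (h : Bond ω F p q) : ∃ f ∈ F, Bond ω {f} p q := by
  obtain ⟨X, Y, hF, h⟩ := h
  exact ⟨(X, Y), hF, X, Y, rfl, h⟩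

/-- The colour of the bond of a face. -/
theorem bond_par (h : Bond ω {f} p q) : par p = 0 ↔ ω f = !(eE f).2.2 := by
  obtain ⟨X, Y, hF, h⟩ := h
  rw [Set.mem_singleton_iff] at hF
  subst hF
  by_cases hp : (X + Y) % 2 = 0
  · have e1 : (eE (X, Y)).2.2 = false := by simp only [eE, hp, if_true]
    rw [e1, Bool.not_false]
    rcases h with ⟨h1, h2⟩ | ⟨h1, h2⟩
    · refine ⟨fun _ => h1, fun _ => ?_⟩
      rcases h2 with ⟨rfl, -⟩ | ⟨rfl, -⟩ <;> simp only [par] <;> omega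
    · refine ⟨fun h3 => ?_, fun h3 => absurd (h1.symm.trans h3) (by simp)⟩
      exfalso
      rcases h2 with ⟨rfl, -⟩ | ⟨rfl, -⟩ <;> simp only [par] at h3 <;> omega
  · have e1 : (eE (X, Y)).2.2 = true := by simp only [eE, hp, if_false]
    rw [e1, Bool.not_true]
    rcases h with ⟨h1, h2⟩ | ⟨h1, h2⟩
    · refine ⟨fun h3 => ?_, fun h3 => absurd (h1.symm.trans h3) (by simp)⟩
      exfalso
      rcases h2 with ⟨rfl, -⟩ | ⟨rfl, -⟩ <;> simp only [par] at h3 <;> omega
    · refine ⟨fun _ => h1, fun _ => ?_⟩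
      rcases h2 with ⟨rfl, -⟩ | ⟨rfl, -⟩ <;> simp only [par] <;> omega

/-- The odd corners of a face with an odd bond are joined. -/
theorem conn_odd (hf : f ∈ F) (h : ω f ≠ !(eE f).2.2) (hp : par p = 1) (hq : par q = 1)
    (hpf : Sq p f) (hqf : Sq q f) : Conn ω F p q := by
  by_cases hpq : p = q
  · rw [hpq]; exact Relation.ReflTransGen.refl
  refine Relation.ReflTransGen.single ?_
  obtain ⟨X, Y⟩ := f
  obtain ⟨p1, p2⟩ := p
  obtain ⟨q1, q2⟩ := q
  refine ⟨X, Y, hf, ?_⟩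
  simp only [Sq, par] at hp hq hpf hqf
  rw [Prod.mk.injEq] at hpq
  by_cases hXY : (X + Y) % 2 = 0
  · have e1 : (eE (X, Y)).2.2 = false := by simp only [eE, hXY, if_true]
    rw [e1] at h
    right
    refine ⟨by simpa using h, ?_⟩
    simp only [Prod.mk.injEq]
    omega
  · have e1 : (eE (X, Y)).2.2 = true := by simp only [eE, hXY, if_false]
    rw [e1] at h
    left
    refine ⟨by simpa using h, ?_⟩
    simp only [Prod.mk.injEq]
    omega

/-- Adjacent faces have a common odd corner. -/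
theorem adj_odd (h : AdjF f g) : ∃ w, par w = 1 ∧ Sq w f ∧ Sq w g := by
  obtain ⟨X, Y⟩ := f
  have hpar : ∀ a b : ℤ, par (a, b) = 1 ∨ par (a, b) = 0 := fun a b => by simp only [par]; omega
  rcases adjF_iff.1 h with rfl | rfl | rfl | rfl
  · rcases hpar (X + 1) Y with h1 | h1
    · exact ⟨(X + 1, Y), h1, by simp [Sq], by simp [Sq]⟩
    · exact ⟨(X + 1, Y + 1), by simp only [par] at h1 ⊢; omega, by simp [Sq], by simp [Sq]⟩
  · rcases hpar X Y with h1 | h1
    · exact ⟨(X, Y), h1, by simp [Sq], by simp [Sq]⟩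
    · exact ⟨(X, Y + 1), by simp only [par] at h1 ⊢; omega, by simp [Sq], by simp [Sq]⟩
  · rcases hpar X (Y + 1) with h1 | h1
    · exact ⟨(X, Y + 1), h1, by simp [Sq], by simp [Sq]⟩
    · exact ⟨(X + 1, Y + 1), by simp only [par] at h1 ⊢; omega, by simp [Sq], by simp [Sq]⟩
  · rcases hpar X Y with h1 | h1
    · exact ⟨(X, Y), h1, by simp [Sq], by simp [Sq]⟩
    · exact ⟨(X + 1, Y), by simp only [par] at h1 ⊢; omega, by simp [Sq], by simp [Sq]⟩

/-- The odd corners of frozen faces with odd bonds are joined. -/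
theorem conn_odd_chain {G : Set (ℤ × ℤ)} (hG : Gᶜ ⊆ F) (h : ∀ f ∉ G, ω f ≠ !(eE f).2.2)
    (hf : f ∉ G) (hc : Relation.ReflTransGen (StepC G) f g) (hp : par p = 1) (hq : par q = 1)
    (hpf : Sq p f) (hqg : Sq q g) : Conn ω F p q := by
  induction hc generalizing q with
  | refl => exact conn_odd (hG hf) (h f hf) hp hq hpf hqg
  | @tail b d _ hs ih =>
    obtain ⟨w, w1, w2, w3⟩ := adj_odd hs.1
    exact (ih w1 w2).trans (conn_odd (hG hs.2) (h d hs.2) w1 hq w3 hqg)

theorem frozen_odd (hN : NdF V Q k₀) (hf : f ∉ FU V) : eE f ∉ Q := fun h => hf (hN.QF_sub h)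

/-- The configuration of the step. -/
structure Stp (E : Ex) (ω : Cfg) (V : Finset (ℤ × ℤ)) (Q : Finset Edg) (k₀ : Cor) : Prop where
  U : E.U ω = FU V \ QF Q
  cf : ∀ f, f ∉ FU V \ QF Q → E.cf ω f = gT (Q : Set Ed) f
  e : E.e ω = kU k₀

variable {E : Ex}

theorem Stp.of_gT {T : Finset Edg} (hU : E.U ω = FU V \ QF Q)
    (hcf : E.cf ω = gT ((rst T V ∪ Q : Finset Edg) : Set Ed)) (he : E.e ω = kU k₀) :
    Stp E ω V Q k₀ := by
  refine ⟨hU, fun f hf => ?_, he⟩
  rw [hcf]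
  refine gT_congr ?_
  rw [Finset.mem_coe, Finset.mem_coe, Finset.mem_union, rst, Finset.mem_filter, tl_eq, hd_eq]
  constructor
  · rintro (⟨-, h⟩ | h)
    · by_contra hQ
      exact hf ⟨h, hQ⟩
    · exact h
  · exact Or.inr

theorem Stp.of_zeta (hU : E.U ω = FU V \ QF Q) (hζ : E.ζ ω = gT (Q : Set Ed))
    (he : E.e ω = kU k₀) : Stp E ω V Q k₀ := by
  refine ⟨hU, fun f hf => ?_, he⟩
  unfold Ex.cf
  rw [mix_of_notMem (by rw [hU]; exact hf), hζ]

section Main

variable (hS : Stp E ω V Q k₀) (hN : NdF V Q k₀)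

include hS hN

theorem cf_odd (hf : f ∉ FU V) : E.cf ω f ≠ !(eE f).2.2 := by
  rw [hS.cf f (fun h => hf h.1)]
  intro h
  exact frozen_odd hN hf ((gT_eE (Q : Set Ed) f).1 h)

/-- The even bonds off the fresh faces are the edges of the needle. -/
theorem even_bond (hf : f ∉ E.U ω) (h : E.cf ω f = !(eE f).2.2) : eE f ∈ Q := by
  rw [hS.U] at hf
  rw [hS.cf f hf] at h
  exact (gT_eE (Q : Set Ed) f).1 h

/-- The odd bonds off the fresh faces are in faces which are not left. -/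
theorem odd_bond (hf : f ∉ E.U ω) (h : E.cf ω f ≠ !(eE f).2.2) : f ∉ FU V := by
  rw [hS.U] at hf
  intro h1
  rw [hS.cf f hf] at h
  refine h ((gT_eE (Q : Set Ed) f).2 ?_)
  by_contra h2
  exact hf ⟨h1, h2⟩

/-- The needle is joined to its base. -/
theorem conn_needle {a : ℤ × ℤ} (ha : ∃ e ∈ Q, ea e = a ∨ eb e = a) :
    Conn (E.cf ω) (E.U ω)ᶜ (phiV (vtx k₀)) (phiV a) := by
  have hmem : a ∈ clV (rst ∅ V ∪ Q) (vtx k₀) := by
    obtain ⟨e, he, h1 | h1⟩ := ha
    · rw [← h1]; exact (hN.mem_clV ∅ he).1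
    · rw [← h1]; exact (hN.mem_clV ∅ he).2
  have hQ : rst ∅ V ∪ Q = Q := by
    ext e
    simp [rst]
  rw [hQ] at hmem
  have hm : Relation.ReflTransGen (AdjT Q) (vtx k₀) a := hmem
  clear hmem
  induction hm with
  | refl => exact Relation.ReflTransGen.refl
  | @tail b d _ hs ih =>
    refine (ih ?_).tail ?_
    · obtain ⟨e, he, hh⟩ := hs
      rw [tl_eq, hd_eq] at hh
      exact ⟨e, he, by tauto⟩
    · obtain ⟨e, he, hh⟩ := hs
      rw [tl_eq, hd_eq] at hh
      have h1 : phiE e ∉ E.U ω := by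
        rw [hS.U]
        exact fun h => h.2 (by show eE (phiE e) ∈ Q; rw [eE_phiE]; exact he)
      have h2 : E.cf ω (phiE e) = !e.2.2 := by
        rw [hS.cf _ (by rw [← hS.U]; exact h1)]
        exact (gT_phiE (Q : Set Ed) e).2 he
      have h3 : Bond (E.cf ω) (E.U ω)ᶜ (phiV (ea e)) (phiV (eb e)) := by
        obtain ⟨x, y, _ | _⟩ := e
        · refine ⟨x + y, x - y, by simpa [phiE] using h1, Or.inl ⟨by simpa [phiE] using h2,
            Or.inl ⟨rfl, ?_⟩⟩⟩
          simp only [phiV, eb_false, Prod.mk.injEq]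
          omega
        · refine ⟨x + y, x - y - 1, by simpa [phiE] using h1, Or.inr ⟨by simpa [phiE] using h2,
            Or.inl ⟨?_, ?_⟩⟩⟩
          · simp only [phiV, ea_mk, Prod.mk.injEq, true_and]
            omega
          · simp only [phiV, eb_true, Prod.mk.injEq]
            omega
      rcases hh with ⟨h4, h5⟩ | ⟨h4, h5⟩
      · rw [h4, h5] at h3; exact h3
      · rw [h4, h5] at h3; exact h3.symm

theorem sq_base : Sq (gF k₀) (phiE (qryb k₀)) := by
  rw [← en1_kU, ← fb_kU]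
  exact sq_en (isSide_fb _) 1

/-- An even vertex of a frozen even bond is a vertex of the needle. -/
theorem mem_needle (hf : f ∉ E.U ω) (h : Bond (E.cf ω) {f} p q) (hp : par p = 0) :
    ∃ a, p = phiV a ∧ ∃ e ∈ Q, ea e = a ∨ eb e = a := by
  have h1 := even_bond hS hN hf ((bond_par h).1 hp)
  have h2 : phiV ((p.1 + p.2) / 2, (p.1 - p.2) / 2) = p := by
    simp only [par] at hp
    refine Prod.ext ?_ ?_ <;> simp only [phiV] <;> omega
  have h3 := (sq_of_bond' h).1
  rw [← h2] at h3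
  exact ⟨_, h2.symm, eE f, h1, sq_phiV.1 h3⟩

/-- **The walls of a step of the scan.** -/
theorem wll {T : Finset Edg} (hI' : Rule.Inv n T V) : E.Wll ω := by
  rintro c (rfl | rfl) f hf p q hb hp
  · obtain ⟨a, rfl, ha⟩ := mem_needle hS hN hf hb hp
    rw [hS.e, en0_kU]
    exact conn_needle hS hN ha
  · rw [hS.e, en1_kU]
    have h1 : f ∉ FU V := odd_bond hS hN hf fun h2 => by
      have := (bond_par hb).2 h2
      omega
    have h2 := compl_chain (finite_FU hI'.sub) (esc_FU hI') hN.f₀_notMem h1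
    refine conn_odd_chain (G := FU V) ?_ (fun g hg => cf_odd hS hN hg) hN.f₀_notMem h2
      (par_gF k₀) hp (sq_base hS hN) (sq_of_bond' hb).1
    rw [hS.U]
    exact Set.compl_subset_compl.2 Set.sdiff_subset

/-- The side of colour `0` at the time `0`: the needle. -/
theorem sid_zero (h : E.Sid 0 ω 0 p) : ∃ a, p = phiV a ∧
    (a = vtx k₀ ∨ ∃ e ∈ Q, ea e = a ∨ eb e = a) := by
  unfold Ex.Sid at h
  have hpar := h.par_eq
  rcases Relation.ReflTransGen.cases_tail h with h1 | ⟨b, -, hb⟩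
  · refine ⟨vtx k₀, ?_, Or.inl rfl⟩
    rw [h1, hS.e, en0_kU]
    rfl
  · obtain ⟨f, hf, hbf⟩ := bond_single hb
    have hp : par p = 0 := by
      rw [← hpar, hS.e, en0_kU]
      exact par_gV k₀
    have hfU : f ∉ E.U ω := by
      intro h2
      apply hf
      refine ⟨h2, fun h3 => ?_⟩
      obtain ⟨l, -, h4, -⟩ := mem_vs.1 (Finset.mem_coe.1 h3.2)
      omega
    obtain ⟨a, h2, h3⟩ := mem_needle hS hN hfU hbf.symm hp
    exact ⟨a, h2, Or.inr h3⟩

/-- The side of colour `1` at the time `0`: corners of faces which are not left. -/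
theorem sid_one (h : E.Sid 1 ω 0 p) : ∃ b, b ∉ V ∧ |(phiV b).1 - p.1| ≤ 1 ∧
    |(phiV b).2 - p.2| ≤ 1 := by
  unfold Ex.Sid at h
  have hpar := h.par_eq
  have key : ∀ f, f ∉ FU V → Sq p f → ∃ b, b ∉ V ∧ |(phiV b).1 - p.1| ≤ 1 ∧
      |(phiV b).2 - p.2| ≤ 1 := by
    intro f hf hpf
    have h1 : ∃ b, b ∉ V ∧ (ea (eE f) = b ∨ eb (eE f) = b) := by
      by_contra h2
      push Not at h2
      exact hf ⟨by_contra fun h3 => (h2 _ h3).1 rfl, by_contra fun h3 => (h2 _ h3).2 rfl⟩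
    obtain ⟨b, hb, h2⟩ := h1
    refine ⟨b, hb, ?_⟩
    have h3 := sq_phiV.2 h2
    unfold Sq at h3 hpf
    rw [abs_le, abs_le]
    omega
  rcases Relation.ReflTransGen.cases_tail h with h1 | ⟨b, -, hb⟩
  · refine key _ hN.f₀_notMem ?_
    rw [h1, hS.e, en1_kU]
    exact sq_base hS hN
  · obtain ⟨f, hf, hbf⟩ := bond_single hb
    have hp : par p = 1 := by
      rw [← hpar, hS.e, en1_kU]
      exact par_gF k₀
    have hfU : f ∉ E.U ω := by
      intro h2
      apply hf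
      refine ⟨h2, fun h3 => ?_⟩
      obtain ⟨l, -, h4, -⟩ := mem_vs.1 (Finset.mem_coe.1 h3.2)
      omega
    refine key f (odd_bond hS hN hfU fun h2 => ?_) (sq_of_bond' hbf).2
    have := (bond_par hbf.symm).2 h2
    omega

/-- **No gate at the beginning of a step** in a box which does not contain the base and a vertex of the
needle near a vertex which is not left. -/
theorem not_gate_zero
    (hz : ∀ a, (a = vtx k₀ ∨ ∃ e ∈ Q, ea e = a ∨ eb e = a) → |(phiV a).1 - z.1| ≤ r + 1 →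
      |(phiV a).2 - z.2| ≤ r + 1 → ∀ b, |(phiV b).1 - z.1| ≤ r + 2 → |(phiV b).2 - z.2| ≤ r + 2 →
      b ∈ V) : ¬ E.Gate ω 0 z r := by
  rintro ⟨v, w, hv, hw, hp⟩
  obtain ⟨a, rfl, ha⟩ := sid_zero hS hN hv
  obtain ⟨b, hb, hb1, hb2⟩ := sid_one hS hN hw
  have hne : phiV a ≠ w := by
    intro h
    unfold Ex.Sid at hv hw
    have h1 := hv.par_eq
    have h2 := hw.par_eq
    rw [hS.e, en0_kU, par_gV] at h1
    rw [hS.e, en1_kU, par_gF] at h2
    rw [h] at h1
    omega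
  have key : ∀ (x y : ℤ × ℤ) (s : UE), InB z r s → Joins s x y →
      |x.1 - z.1| ≤ r + 1 ∧ |x.2 - z.2| ≤ r + 1 := by
    rintro x y ⟨s1, s2, d⟩ h1 h2
    unfold InB InR at h1
    rcases h2 with ⟨rfl, -⟩ | ⟨rfl, -⟩
    · rw [abs_le, abs_le]
      omega
    · rw [abs_le, abs_le]
      cases d
      · simp only [ua_mk, ub_false] at h1 ⊢
        omega
      · simp only [ua_mk, ub_true] at h1 ⊢
        omega
  have h1 : |(phiV a).1 - z.1| ≤ r + 1 ∧ |(phiV a).2 - z.2| ≤ r + 1 := by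
    rcases Relation.ReflTransGen.cases_head hp with h | ⟨y, ⟨s, hs, hj⟩, -⟩
    · exact absurd h hne
    · exact key _ _ s hs.1 hj
  have h2 : |w.1 - z.1| ≤ r + 1 ∧ |w.2 - z.2| ≤ r + 1 := by
    rcases Relation.ReflTransGen.cases_tail hp with h | ⟨y, -, ⟨s, hs, hj⟩⟩
    · exact absurd h.symm hne
    · exact key _ _ s hs.1 hj.symm
  refine hb (hz a ha h1.1 h1.2 b ?_ ?_)
  · have := h2.1
    rw [abs_le] at this hb1 ⊢
    omega
  · have := h2.2
    rw [abs_le] at this hb2 ⊢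
    omega

/-- The same in terms of faces: the base is outside of the box and the faces near the part of the needle
in the box are left. -/
theorem not_gate_zero'
    (hbase : ¬ (|(phiV (vtx k₀)).1 - z.1| ≤ r + 1 ∧ |(phiV (vtx k₀)).2 - z.2| ≤ r + 1))
    (hfar : ∀ f ∈ QF Q, |f.1 - z.1| ≤ r + 2 → |f.2 - z.2| ≤ r + 2 →
      ∀ g : ℤ × ℤ, |g.1 - f.1| ≤ 2 * r + 4 → |g.2 - f.2| ≤ 2 * r + 4 → g ∈ FU V) :
    ¬ E.Gate ω 0 z r := by
  refine not_gate_zero hS hN ?_
  rintro a (rfl | ⟨e, he, hea⟩) h1 h2 b h3 h4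
  · exact absurd ⟨h1, h2⟩ hbase
  have hf : phiE e ∈ QF Q := by
    show eE (phiE e) ∈ Q
    rw [eE_phiE]
    exact he
  have hsq : Sq (phiV a) (phiE e) := by
    rw [sq_phiV, eE_phiE]
    exact hea
  have hg : phiV b ∈ FU V := by
    unfold Sq at hsq
    rw [abs_le] at h1 h2 h3 h4
    refine hfar _ hf ?_ ?_ _ ?_ ?_ <;> rw [abs_le] <;> omega
  rcases sq_phiV.1 (sq_self (phiV b)) with h5 | h5
  · have := hg.1
    rwa [h5] at this
  · have := hg.2
    rwa [h5] at this

end Main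

end Pool.Agent.SixB.GZ
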