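import Pool.Agent.Lib.SixB.S8InvX2
import Pool.Agent.Lib.SixB.S8BadD
import Pool.Agent.Lib.SixB.S8GateZero
import Pool.Agent.Lib.SixB.S8ChainR

/-!
# Step 8: the walls of the exploration of a state of the true chain

* `wll_exS`, `fb_eS`: the walls of the exploration of a needle, the face behind the first unit edge;
* `tst_wll`, `tst_fb`: the same for a state of the chain;
* `uS_subset`, `uS_out`: the true domain is a set of fresh faces, its outer faces are not fresh;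
* `uS_sub_Sn`, `tst_uS_sub`: the true domain is in the box.
-/

set_option autoImplicit false

namespace Pool.Agent.SixB.Tru

open Finset Pool.Agent.Perc Pool.Agent.Perc6 Pool.Agent.PercT
open Pool.Agent.PercX60
open Pool.Agent.MP_6bd702.H23 (Ed ea eb)
open Pool.Agent.SixB Pool.Agent.SixB.Rule Pool.Agent.SixB.Dct Pool.Agent.SixB.Mv
open Pool.Agent.SixB.Top (compT compT_sub compT_bd_out)
open Pool.Agent.PercO (mem_boxE')

variable {𝔇 : Dat} {d : ℕ → ℕ} {n : ℕ} {V : Finset (ℤ × ℤ)} {s : TS} {q : Rule.Ndl} {ω : Cfg}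

/-- **The walls of the exploration of a needle.** -/
theorem wll_exS {T : Finset Edg} (hI : Rule.Inv n T V) (hk : ∃ k, NdF V q.1 k ∧ PercU.vtx k = q.2) :
    (exS V q).Wll ω := GZ.wll (GZ.Stp.of_zeta rfl rfl rfl) (bc_spec hk).1 hI

/-- The face behind the first unit edge is not a face of the remaining set. -/
theorem fb_eS (hk : ∃ k, NdF V q.1 k ∧ PercU.vtx k = q.2) : fb (eS V q) ∉ FU V := by
  unfold eS
  rw [fb_kU]
  exact (bc_spec hk).1.f₀_notMem

theorem fb_eS' (hk : ∃ k, NdF V q.1 k ∧ PercU.vtx k = q.2) : fb (eS V q) ∉ FU V \ QF q.1 :=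
  fun h => fb_eS hk h.1

/-- **The walls of the exploration of a state of the chain.** -/
theorem tst_wll {i : ℕ} (h : (tst 𝔇 d n ω i).q = some q) : (exS (tst 𝔇 d n ω i).V q).Wll ω :=
  wll_exS (TruR.inv_V 𝔇 d n ω i) (tst_ndF h).2

/-- The face behind the first unit edge is not fresh. -/
theorem tst_fb {i : ℕ} (h : (tst 𝔇 d n ω i).q = some q) :
    fb (eS (tst 𝔇 d n ω i).V q) ∉ FU (tst 𝔇 d n ω i).V \ QF q.1 := fb_eS' (tst_ndF h).2

/-! ### The true domain -/

theorem uS_subset (hfre : fa (pS s.V q ω s.t) ∈ frS s q ω) : uS s q ω ⊆ frS s q ω :=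
  compT_sub hfre

/-- The outer faces of the true domain are not fresh. -/
theorem uS_out {A : UE × Bool}
    (hA : Top.BD (uS s q ω) A) (i : ℕ) : outF (uS s q ω) A i ∉ frS s q ω :=
  compT_bd_out (bd_side hA i)

theorem FU_mono {V V' : Finset (ℤ × ℤ)} (h : V ⊆ V') : FU V ⊆ FU V' := fun _ hf =>
  ⟨h hf.1, h hf.2⟩

/-- The faces of the box are faces of the window. -/
theorem FU_box_sub (hV : V ⊆ Box n) : FU V ⊆ (Sn n : Set (ℤ × ℤ)) := by
  intro f hf
  rw [Finset.mem_coe, Sn, mem_image]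
  exact ⟨eE f, eE_mem_boxE hV hf, phiE_eE f⟩

/-- **The true domain is in the window.** -/
theorem uS_sub_Sn (hV : s.V ⊆ Box n) (hfre : fa (pS s.V q ω s.t) ∈ frS s q ω) :
    uS s q ω ⊆ (Sn n : Set (ℤ × ℤ)) := fun _ hf =>
  FU_box_sub hV (uS_subset hfre hf).1.1

theorem tst_uS_sub {i : ℕ} (hfre : fa (pS (tst 𝔇 d n ω i).V q ω (tst 𝔇 d n ω i).t) ∈
    frS (tst 𝔇 d n ω i) q ω) : uS (tst 𝔇 d n ω i) q ω ⊆ (Sn n : Set (ℤ × ℤ)) :=
  uS_sub_Sn (tst_V_sub i) hfre

end Pool.Agent.SixB.Tru
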