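import Pool.Agent.Lib.SixB.S8ParBase

/-!
# Step 8: parity along the boundary of a finite set of faces

`S` is a finite set of faces, `bdF S` the finite set of its boundary sides.

* `sum_bdF`: the sum of a weight over `bdF S` is the sum over the faces of `S` of the sums over the four
  sides.
* `sum_bdF_vert`: a weight which is the sum of the values of a function at the two ends has the sum `0`.
* `sum_bdF_cr`: the number of crossings of `bdF S`.
* `Hop`: fixed walks (hops) from the boundary vertices of `C` to vertices of the wall of colour `lam` of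
  the time `s`, not crossed up to the time `s`. `dfc` is the defect of a unit edge.
* `sum_dfc`: for all finite sets `S` the sum of the defects over `bdF S` is `[tip ∈ S]`.
* `dfc_gate`: a defect of a boundary side is a gate.
* `base_zero`: the sum of the defects near the base is `0` if the tip is far from the base, or there is a
  passage `Ex.OneWall`.
-/

set_option autoImplicit false

namespace Pool.Agent.SixB.Par

open Finset Pool.Agent.Perc Pool.Agent.PercT Pool.Agent.Perc6 Pool.Agent.SixB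
  Pool.Agent.SixB.NearCut Pool.Agent.SixB.Mv Pool.Agent.SixB.Top
open Pool.Agent.Perc.Tips (ahead rv)
open Pool.Agent.SixB.Near (AtE)

/-! ### Sums over the boundary -/

/-- The sum over the four sides of a face. -/
def fsum (g : UE → ZMod 2) (f : ℤ × ℤ) : ZMod 2 := g (bo f) + g (le' f) + g (to' f) + g (ri f)

/-- The four sides of a face. -/
def sdF (f : ℤ × ℤ) : Finset UE := {bo f, le' f, to' f, ri f}

theorem mem_sdF {f : ℤ × ℤ} {a : UE} : a ∈ sdF f ↔ IsSide f a := by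
  simp [sdF, IsSide]

theorem sum_sdF (g : UE → ZMod 2) (f : ℤ × ℤ) : ∑ a ∈ sdF f, g a = fsum g f := by
  unfold sdF fsum
  rw [Finset.sum_insert, Finset.sum_insert, Finset.sum_insert, Finset.sum_singleton]
  · ring
  · simp [to', ri]
  · simp [le', to', ri]
  · simp [bo, le', to', ri]

open Classical in
/-- The boundary sides of a finite set of faces. -/
noncomputable def bdF (S : Finset (ℤ × ℤ)) : Finset UE :=
  (S.biUnion sdF).filter fun a => BdU (S : Set (ℤ × ℤ)) a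

theorem mem_bdF {S : Finset (ℤ × ℤ)} {a : UE} : a ∈ bdF S ↔ BdU (S : Set (ℤ × ℤ)) a := by
  classical
  unfold bdF
  rw [Finset.mem_filter, Finset.mem_biUnion]
  constructor
  · exact fun h => h.2
  · intro h
    have h' := h
    obtain ⟨⟨f, hf, hfa⟩, -⟩ := h
    exact ⟨⟨f, Finset.mem_coe.1 hf, mem_sdF.2 hfa⟩, h'⟩

theorem sum_ind_eq (S : Finset (ℤ × ℤ)) (x : ℤ × ℤ) : ∑ f ∈ S, ind2 (f = x) = ind2 (x ∈ S) := by
  by_cases hx : x ∈ S
  · rw [Finset.sum_eq_single x (fun f _ hne => ind2_neg hne) (fun h => absurd hx h),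
      ind2_pos rfl, ind2_pos hx]
  · rw [ind2_neg hx]
    exact Finset.sum_eq_zero fun f hf => ind2_neg fun h => hx (h ▸ hf)

theorem ind_side (f : ℤ × ℤ) (a : UE) : ind2 (IsSide f a) = ind2 (f = fa a) + ind2 (f = fb a) := by
  rw [ind2_congr isSide_iff]
  by_cases h1 : f = fa a
  · have h2 : f ≠ fb a := fun h => fa_ne_fb a (h1.symm.trans h)
    rw [ind2_pos h1, ind2_neg h2, ind2_pos (Or.inl h1)]
    decide
  · by_cases h2 : f = fb a
    · rw [ind2_neg h1, ind2_pos h2, ind2_pos (Or.inr h2)]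
      decide
    · rw [ind2_neg h1, ind2_neg h2, ind2_neg (by tauto)]
      decide

/-- **The sum over the boundary.** -/
theorem sum_bdF (S : Finset (ℤ × ℤ)) (g : UE → ZMod 2) :
    ∑ a ∈ bdF S, g a = ∑ f ∈ S, fsum g f := by
  classical
  have h1 : ∀ f ∈ S, fsum g f = ∑ a ∈ S.biUnion sdF, g a * ind2 (IsSide f a) := by
    intro f hf
    rw [← sum_sdF]
    refine Finset.sum_subset_zero_on_sdiff (fun a ha => ?_) ?_ ?_
    · exact Finset.mem_biUnion.2 ⟨f, hf, ha⟩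
    · intro a ha
      have h2 := (Finset.mem_sdiff.1 ha).2
      rw [ind2_neg (fun h => h2 (mem_sdF.2 h)), mul_zero]
    · intro a ha
      rw [ind2_pos (mem_sdF.1 ha), mul_one]
  rw [Finset.sum_congr rfl h1, Finset.sum_comm]
  have h2 : ∀ a ∈ S.biUnion sdF, ∑ f ∈ S, g a * ind2 (IsSide f a) =
      g a * ind2 (BdU (S : Set (ℤ × ℤ)) a) := by
    intro a _
    rw [← Finset.mul_sum]
    simp only [ind_side, Finset.sum_add_distrib, sum_ind_eq]
    rw [bdU_iff]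
    rfl
  rw [Finset.sum_congr rfl h2]
  unfold bdF
  rw [Finset.sum_filter]
  refine Finset.sum_congr rfl fun a _ => ?_
  by_cases h3 : BdU (S : Set (ℤ × ℤ)) a
  · rw [if_pos h3, ind2_pos h3, mul_one]
  · rw [if_neg h3, ind2_neg h3, mul_zero]

/-- **Sums of vertex functions.** -/
theorem sum_bdF_vert (S : Finset (ℤ × ℤ)) (σ : ℤ × ℤ → ZMod 2) :
    ∑ a ∈ bdF S, (σ (ua a) + σ (ub a)) = 0 := by
  rw [sum_bdF]
  refine Finset.sum_eq_zero fun f _ => ?_
  unfold fsum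
  simp only [ua, ub, bo, le', to', ri, if_true, if_false, Bool.false_eq_true]
  generalize σ (f.1, f.2) = x1
  generalize σ (f.1 + 1, f.2) = x2
  generalize σ (f.1, f.2 + 1) = x3
  generalize σ (f.1 + 1, f.2 + 1) = x4
  revert x1 x2 x3 x4
  decide

section Crossings

variable {E : Ex} {ω : Cfg} {t s : ℕ}

/-- **The number of crossings of the boundary.** -/
theorem sum_bdF_cr (S : Finset (ℤ × ℤ)) (hn : Nb (E.cf ω) (E.e ω) t) :
    ∑ a ∈ bdF S, cr E ω t a = ind2 (fb (E.e ω) ∈ S) + ind2 (fa (E.p ω t) ∈ S) := by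
  have key : ∀ b : UE, ∑ a ∈ bdF S, ind2 (b = a) = ind2 (fa b ∈ S) + ind2 (fb b ∈ S) := by
    intro b
    by_cases hb : b ∈ bdF S
    · rw [Finset.sum_eq_single b (fun a _ hne => ind2_neg fun h => hne h.symm)
        (fun h => absurd hb h), ind2_pos rfl]
      have h1 := bdU_iff (P := (S : Set (ℤ × ℤ))) b
      rw [ind2_pos (mem_bdF.1 hb)] at h1
      exact h1
    · rw [Finset.sum_eq_zero fun a ha => ind2_neg fun h => hb (by rw [h]; exact ha)]
      have h1 := bdU_iff (P := (S : Set (ℤ × ℤ))) b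
      rw [ind2_neg (fun h => hb (mem_bdF.2 h))] at h1
      exact h1
  induction t with
  | zero =>
    have h1 : ∀ a, cr E ω 0 a = ind2 (E.e ω = a) := by
      intro a
      refine ind2_congr ⟨?_, fun h => ⟨0, le_rfl, h⟩⟩
      rintro ⟨l, hl, h⟩
      have : l = 0 := by omega
      subst this
      exact h
    simp only [h1]
    rw [key, add_comm]
    rfl
  | succ t ih =>
    have h1 : ∀ a, cr E ω (t + 1) a = cr E ω t a + ind2 (E.p ω (t + 1) = a) := by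
      intro a
      unfold cr
      by_cases h2 : E.p ω (t + 1) = a
      · have h3 : ¬ ∃ l ≤ t, E.p ω l = a := by
          rintro ⟨l, hl, h⟩
          have := hn.inj (i := l) (j := t + 1) (by omega) le_rfl (h.trans h2.symm)
          omega
        rw [ind2_neg h3, ind2_pos h2, ind2_pos ⟨t + 1, le_rfl, h2⟩, zero_add]
      · rw [ind2_neg h2, add_zero]
        refine ind2_congr ⟨?_, fun ⟨l, hl, h⟩ => ⟨l, by omega, h⟩⟩
        rintro ⟨l, hl, h⟩
        rcases Nat.lt_or_ge l (t + 1) with h3 | h3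
        · exact ⟨l, by omega, h⟩
        · have : l = t + 1 := by omega
          subst this
          exact absurd h h2
    simp only [h1, Finset.sum_add_distrib]
    rw [ih (hn.mono (by omega)), key]
    have h2 : fb (E.p ω (t + 1)) = fa (E.p ω t) := fb_pth_succ _ _ _
    rw [h2]
    generalize ind2 (fb (E.e ω) ∈ S) = x1
    generalize ind2 (fa (E.p ω t) ∈ S) = x2
    generalize ind2 (fa (E.p ω (t + 1)) ∈ S) = x3
    revert x1 x2 x3
    decide

end Crossings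

/-! ### Hops and defects -/

/-- The vertices of the boundary of `C`. -/
def VB (C : Set (ℤ × ℤ)) : Set (ℤ × ℤ) := {v | ∃ a, BdU C a ∧ AtE v a}

/-- Fixed walks from the vertices of `X` to vertices of the wall of colour `lam` of the time `s`, not
crossed up to the time `s`. -/
structure Hop (E : Ex) (ω : Cfg) (lam : ℤ) (s : ℕ) (r : ℤ) (X : Set (ℤ × ℤ)) (Y : ℤ × ℤ → ℤ × ℤ)
    (Lh : ℤ × ℤ → List UE) : Prop where
  sid : ∀ v ∈ X, E.Sid lam ω s (Y v)
  wl : ∀ v ∈ X, Wl {a | InB v r a ∧ ∀ l ≤ s, E.p ω l ≠ a} v (Y v) (Lh v)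
  out : ∀ v, v ∉ X → Lh v = []

/-- The defect of a unit edge at the time `t`. -/
noncomputable def dfc (E : Ex) (ω : Cfg) (Lh : ℤ × ℤ → List UE) (t : ℕ) (a : UE) : ZMod 2 :=
  ((Lh (ua a)).map (cr E ω t)).sum + cr E ω t a + ((Lh (ub a)).map (cr E ω t)).sum

section Hops

variable {E : Ex} {ω : Cfg} {lam : ℤ} {s t k : ℕ} {r R ρ ρ' ρ₁ : ℤ} {X : Set (ℤ × ℤ)}
  {Y : ℤ × ℤ → ℤ × ℤ} {Lh : ℤ × ℤ → List UE} {C S : Finset (ℤ × ℤ)} {a : UE} {v b₀ : ℤ × ℤ}

theorem exists_hop (h : ∀ v ∈ X, ∃ y, E.Sid lam ω s y ∧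
    Pth {a | InB v r a ∧ ∀ l ≤ s, E.p ω l ≠ a} v y) :
    ∃ Y Lh, Hop E ω lam s r X Y Lh := by
  classical
  have hop : ∀ v : ℤ × ℤ, ∃ (y : ℤ × ℤ) (L : List UE), (v ∈ X →
      E.Sid lam ω s y ∧ Wl {a | InB v r a ∧ ∀ l ≤ s, E.p ω l ≠ a} v y L) ∧ (v ∉ X → L = []) := by
    intro v
    by_cases hv : v ∈ X
    · obtain ⟨y, h1, h2⟩ := h v hv
      obtain ⟨L, hL⟩ := wl_of_pth h2
      exact ⟨y, L, fun _ => ⟨h1, hL⟩, fun h => absurd hv h⟩
    · exact ⟨v, [], fun h => absurd h hv, fun _ => rfl⟩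
  choose Y Lh hh using hop
  exact ⟨Y, Lh, fun v hv => ((hh v).1 hv).1, fun v hv => ((hh v).1 hv).2, fun v hv => (hh v).2 hv⟩

/-- **The sum of the defects.** -/
theorem sum_dfc (S : Finset (ℤ × ℤ)) (Lh : ℤ × ℤ → List UE) (hn : Nb (E.cf ω) (E.e ω) t) :
    ∑ a ∈ bdF S, dfc E ω Lh t a = ind2 (fb (E.e ω) ∈ S) + ind2 (fa (E.p ω t) ∈ S) := by
  have h1 : ∀ a, dfc E ω Lh t a = cr E ω t a + (((Lh (ua a)).map (cr E ω t)).sum +
      ((Lh (ub a)).map (cr E ω t)).sum) := fun a => by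
    unfold dfc
    ring
  simp only [h1, Finset.sum_add_distrib (s := bdF S)]
  rw [sum_bdF_cr S hn, ← Finset.sum_add_distrib,
    sum_bdF_vert S fun v => ((Lh v).map (cr E ω t)).sum, add_zero]

/-- The sides of a fresh set are not crossed. -/
theorem uncr_bdF (hb : fb (E.e ω) ∉ E.U ω) (hCF : (C : Set (ℤ × ℤ)) ⊆ E.Fr ω s)
    (hsC : fa (E.p ω s) ∉ C) {f : ℤ × ℤ} (hf : f ∈ C) (ha : IsSide f a) :
    ∀ l ≤ s, E.p ω l ≠ a := by
  intro l hl h
  rcases Nat.lt_or_ge l s with h1 | h1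
  · exact NearCut.not_crossed hb h1 ⟨f, hCF hf, h ▸ ha⟩
  · have : l = s := le_antisymm hl h1
    subst this
    rw [← h] at ha
    rcases isSide_iff.1 ha with h3 | h3
    · exact hsC (h3 ▸ hf)
    · exact Ex.fb_not_fr hb (h3 ▸ hCF hf)

/-- The path of a boundary side. -/
def pL (Lh : ℤ × ℤ → List UE) (a : UE) : List UE := (Lh (ua a)).reverse ++ ([a] ++ Lh (ub a))

theorem sum_pL (χ : UE → ZMod 2) : ((pL Lh a).map χ).sum =
    ((Lh (ua a)).map χ).sum + χ a + ((Lh (ub a)).map χ).sum := by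
  unfold pL
  rw [sumL_append, sumL_append, sumL_reverse, List.map_singleton, List.sum_singleton]
  ring

theorem ua_ub1 (a : UE) : (ua a).1 ≤ (ub a).1 ∧ (ub a).1 ≤ (ua a).1 + 1 ∧
    (ua a).2 ≤ (ub a).2 ∧ (ub a).2 ≤ (ua a).2 + 1 := by
  obtain ⟨x, y, d⟩ := a
  cases d <;> simp [ua, ub]

theorem Hop.path (H : Hop E ω lam s r X Y Lh) (hr : 0 ≤ r) (h1 : ua a ∈ X) (h2 : ub a ∈ X)
    (hu : ∀ l ≤ s, E.p ω l ≠ a) : Wl {b | InB (ua a) (r + 1) b ∧ ∀ l ≤ s, E.p ω l ≠ b}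
      (Y (ua a)) (Y (ub a)) (pL Lh a) := by
  have h3 := ua_ub1 a
  have g1 : InB (ua a) (r + 1) a := by
    unfold InB InR
    omega
  have g2 : ∀ b, InB (ub a) r b → InB (ua a) (r + 1) b := by
    intro b hb
    unfold InB InR at hb ⊢
    omega
  have w1 : Wl {b | InB (ua a) (r + 1) b ∧ ∀ l ≤ s, E.p ω l ≠ b} (Y (ua a)) (ua a)
      (Lh (ua a)).reverse := (H.wl _ h1).symm.mono fun b hb => ⟨hb.1.mono (by omega), hb.2⟩
  have w2 : Wl {b | InB (ua a) (r + 1) b ∧ ∀ l ≤ s, E.p ω l ≠ b} (ua a) (ub a) [a] :=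
    Wl.single ⟨g1, hu⟩ (Or.inl ⟨rfl, rfl⟩)
  have w3 : Wl {b | InB (ua a) (r + 1) b ∧ ∀ l ≤ s, E.p ω l ≠ b} (ub a) (Y (ub a))
      (Lh (ub a)) := (H.wl _ h2).mono fun b hb => ⟨g2 b hb.1, hb.2⟩
  exact w1.trans (w2.trans w3)

/-- **A defect is a gate.** -/
theorem dfc_gate (H : Hop E ω lam s r X Y Lh) (hr : 0 ≤ r) (h1 : ua a ∈ X) (h2 : ub a ∈ X)
    (hu : ∀ l ≤ s, E.p ω l ≠ a) (hlam : lam = 0 ∨ lam = 1) (hst : s ≤ t)
    (hd : dfc E ω Lh t a ≠ 0) : E.Gate ω t (ua a) (r + 1) := by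
  by_contra h6
  refine hd ?_
  have h7 := (H.path hr h1 h2 hu).wk (χ := cr E ω t)
  have h8 := par_path h6 (h7.mono fun b hb => hb.1) ⟨lam, hlam, (H.sid _ h1).mono hst⟩
    ⟨lam, hlam, (H.sid _ h2).mono hst⟩
  rw [sum_pL] at h8
  unfold dfc
  rw [h8]
  unfold cl
  rw [sid_par hlam (H.sid _ h1), sid_par hlam (H.sid _ h2), z2_add_self]

theorem dfc_one (h : dfc E ω Lh t a ≠ 0) : dfc E ω Lh t a = 1 := by
  revert h
  generalize dfc E ω Lh t a = x
  revert x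
  decide

theorem mem_VB (ha : a ∈ bdF C) : ua a ∈ VB (C : Set (ℤ × ℤ)) ∧ ub a ∈ VB (C : Set (ℤ × ℤ)) :=
  ⟨⟨a, mem_bdF.1 ha, Or.inl rfl⟩, a, mem_bdF.1 ha, Or.inr rfl⟩

theorem uncr_bd (hb : fb (E.e ω) ∉ E.U ω) (hCF : (C : Set (ℤ × ℤ)) ⊆ E.Fr ω s)
    (hsC : fa (E.p ω s) ∉ C) (ha : a ∈ bdF C) : ∀ l ≤ s, E.p ω l ≠ a := by
  obtain ⟨⟨f, hf, hfa⟩, -⟩ := mem_bdF.1 ha
  exact uncr_bdF hb hCF hsC hf hfa

open Classical in
/-- **The defects near the base.** -/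
theorem base_zero (hW : E.Wll ω) (hb : fb (E.e ω) ∉ E.U ω) (hn : Nb (E.cf ω) (E.e ω) t)
    (hCF : (C : Set (ℤ × ℤ)) ⊆ E.Fr ω s) (hsC : fa (E.p ω s) ∉ C)
    (hlam : lam = 0 ∨ lam = 1) (hr : 0 ≤ r) (hρ : ρ₁ + r + 2 ≤ ρ)
    (H : Hop E ω lam s r (VB (C : Set (ℤ × ℤ))) Y Lh)
    (gs : ∀ a ∈ bdF C, ¬ Nb2 b₀ (ua a) ρ₁ → Nb2 b₀ (ua a) (R + ρ') → ¬ E.Gate ω s (ua a) (r + 1))
    (gt : ∀ l, s < l → l ≤ t → ∀ a ∈ bdF C, ¬ Nb2 b₀ (ua a) ρ₁ → E.Gate ω l (ua a) (r + 1) →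
      Nb2 (ua (E.p ω l)) (ua a) ρ')
    (hR : ¬ InB b₀ R (E.p ω t)) (hO : ¬ E.OneWall (1 - lam) ω s b₀ ρ R) :
    ∑ a ∈ (bdF C).filter (fun a => Nb2 b₀ (ua a) ρ₁), dfc E ω Lh t a = 0 := by
  by_contra hne
  have hodd : ∑ a ∈ (bdF C).filter (fun a => Nb2 b₀ (ua a) ρ₁), dfc E ω Lh t a = 1 := by
    revert hne
    generalize ∑ a ∈ (bdF C).filter (fun a => Nb2 b₀ (ua a) ρ₁), dfc E ω Lh t a = x
    revert x
    decide
  have hc' : 1 - lam = 0 ∨ 1 - lam = 1 := by omega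
  have hbC : fb (E.e ω) ∉ C := fun h => hb (hCF h).1
  refine hO (one_wall_of_defect (J := (bdF C).filter (fun a => Nb2 b₀ (ua a) ρ₁)) (Lp := pL Lh)
    ?_ ?_ hR ?_)
  · intro a ha b hbL
    have ha1 := (Finset.mem_filter.1 ha).1
    have h1 := (H.path hr (mem_VB ha1).1 (mem_VB ha1).2 (uncr_bd hb hCF hsC ha1)).mem b hbL
    have h2 := (Finset.mem_filter.1 ha).2
    refine ⟨?_, h1.2⟩
    have h3 : InB (ua a) (r + 1) b := h1.1
    have h4 := abs_le.1 h2.1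
    have h5 := abs_le.1 h2.2
    unfold InB InR at h3 ⊢
    omega
  · simp only [sum_pL]
    exact hodd
  · intro k hsk hkt hin hT hodd'
    simp only [sum_pL] at hodd'
    have h1 := sum_dfc (E := E) (ω := ω) C Lh (hn.mono hkt)
    have hnC : fa (E.p ω k) ∉ C := fun h => hT.1 (hCF h)
    rw [ind2_neg hbC, ind2_neg hnC, add_zero,
      ← Finset.sum_filter_add_sum_filter_not (bdF C) (fun a => Nb2 b₀ (ua a) ρ₁)] at h1
    have h2 : ∑ a ∈ (bdF C).filter (fun a => ¬ Nb2 b₀ (ua a) ρ₁), dfc E ω Lh k a ≠ 0 := by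
      intro h
      rw [h, add_zero] at h1
      exact absurd (hodd'.symm.trans h1) (by decide)
    obtain ⟨a, ha, ha1⟩ := Finset.exists_ne_zero_of_sum_ne_zero h2
    have ha2 := (Finset.mem_filter.1 ha).2
    have ha3 := (Finset.mem_filter.1 ha).1
    have hV := mem_VB ha3
    have hu := uncr_bd hb hCF hsC ha3
    have hnear := gt k hsk hkt a ha3 ha2 (dfc_gate H hr hV.1 hV.2 hu hlam hsk.le ha1)
    refine gs a ha3 ha2 ?_ (sep_gate (hn.mono hkt) hsk.le hlam (H.sid _ hV.1) (H.sid _ hV.2)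
      (H.path hr hV.1 hV.2 hu) ?_ (Ex.sid_touch hW hc' hT))
    · have h3 := abs_le.1 hnear.1
      have h4 := abs_le.1 hnear.2
      unfold InB InR at hin
      have h5 : |(ua a).1 - b₀.1| ≤ R + ρ' ∧ |(ua a).2 - b₀.2| ≤ R + ρ' := by
        rw [abs_le, abs_le]
        omega
      exact h5
    · rw [sum_pL]
      exact dfc_one ha1

end Hops

end Pool.Agent.SixB.Par
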