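import Pool.Agent.Lib.SixB.S8Pick

/-!
# Step 8: curves with the same itinerary are close

Two closed curves which can be cut into `m` arcs such that the arcs number `i` of both curves lie in
the ball of radius `ε` around `z i` are at distance at most `2 ε`. The discrete form: two outer
perimeters (at any meshes), cut at the times `a i` and `a' i` of the corner walk.
-/

set_option autoImplicit false

namespace Pool.Agent.SixB

open Set Filter Topology MeasureTheory TopologicalSpace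
open Pool.Agent.Perc Pool.Agent.PercD
open Pool.Agent.MP_6bd702.H23 (Ed)
open Pool.Agent.PercU (Cor vtx fce nxt nxtE)

/-- Extension of finitely many times to a sequence with `t (i + m) = t i + 1`. -/
private noncomputable def extT (m : ℕ) (s : ℕ → ℝ) (i : ℤ) : ℝ :=
  s (i % (m : ℤ)).toNat + ((i / (m : ℤ) : ℤ) : ℝ)

private theorem extT_key {m : ℕ} (hm : 0 < m) {s : ℕ → ℝ} (hsm : s m = s 0 + 1) (i : ℤ) :
    (i % (m : ℤ)).toNat < m ∧ extT m s i = s (i % (m : ℤ)).toNat + ((i / (m : ℤ) : ℤ) : ℝ) ∧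
      extT m s (i + 1) = s ((i % (m : ℤ)).toNat + 1) + ((i / (m : ℤ) : ℤ) : ℝ) := by
  have hmz : (0 : ℤ) < m := by exact_mod_cast hm
  have hi0 : 0 ≤ i % (m : ℤ) := Int.emod_nonneg _ (by omega)
  have hi1 : i % (m : ℤ) < m := Int.emod_lt_of_pos _ (by omega)
  obtain ⟨j, hj⟩ := Int.eq_ofNat_of_zero_le hi0
  have hjm : j < m := by omega
  rw [hj, Int.toNat_natCast]
  refine ⟨hjm, ?_, ?_⟩
  · unfold extT
    rw [hj, Int.toNat_natCast]
  · unfold extT
    have e1 : i + 1 = ((j : ℤ) + 1) + i / (m : ℤ) * m := by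
      have := Int.emod_add_mul_ediv i (m : ℤ)
      rw [hj] at this
      linarith
    rcases Nat.lt_or_ge (j + 1) m with h | h
    · have h1 : (i + 1) % (m : ℤ) = ((j + 1 : ℕ) : ℤ) := by
        rw [e1, Int.add_mul_emod_self_right]
        push_cast
        exact Int.emod_eq_of_lt (by omega) (by omega)
      have h2 : (i + 1) / (m : ℤ) = i / (m : ℤ) := by
        conv_lhs => rw [e1]
        rw [Int.add_mul_ediv_right _ _ hmz.ne', Int.ediv_eq_zero_of_lt (by omega) (by omega),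
          zero_add]
      rw [h1, h2, Int.toNat_natCast]
    · have hjm' : j + 1 = m := by omega
      have e2 : ((j : ℤ) + 1) = m := by exact_mod_cast hjm'
      have h1 : (i + 1) % (m : ℤ) = 0 := by
        rw [e1, Int.add_mul_emod_self_right, e2, Int.emod_self]
      have h2 : (i + 1) / (m : ℤ) = i / (m : ℤ) + 1 := by
        conv_lhs => rw [e1]
        rw [Int.add_mul_ediv_right _ _ hmz.ne', e2, Int.ediv_self hmz.ne']
        ring
      rw [h1, h2, hjm', hsm, Int.toNat_zero]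
      push_cast
      ring

private theorem extT_strictMono {m : ℕ} (hm : 0 < m) {s : ℕ → ℝ} (hsm : s m = s 0 + 1)
    (hs : ∀ i < m, s i < s (i + 1)) : StrictMono (extT m s) := by
  refine strictMono_int_of_lt_succ fun i => ?_
  obtain ⟨hj, h1, h2⟩ := extT_key hm hsm i
  rw [h1, h2]
  linarith [hs _ hj]

private theorem extT_per {m : ℕ} (hm : 0 < m) (s : ℕ → ℝ) (i : ℤ) :
    extT m s (i + m) = extT m s i + 1 := by
  have hmz : (0 : ℤ) < m := by exact_mod_cast hm
  unfold extT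
  rw [Int.add_emod_right, Int.add_ediv_of_dvd_right (dvd_refl _), Int.ediv_self hmz.ne']
  push_cast
  ring

/-- Closed curves with the same itinerary are close. -/
theorem Loop.dist_le_of_itin {γ γ' : Loop} {ε : ℝ} {m : ℕ} (hm : 0 < m) (s s' : ℕ → ℝ)
    (hs : ∀ i < m, s i < s (i + 1)) (hsm : s m = s 0 + 1)
    (hs' : ∀ i < m, s' i < s' (i + 1)) (hsm' : s' m = s' 0 + 1) (z : ℕ → ℂ)
    (hc : ∀ i < m, ∀ x ∈ Icc (s i) (s (i + 1)), dist (γ.f x) (z i) ≤ ε)
    (hc' : ∀ i < m, ∀ x ∈ Icc (s' i) (s' (i + 1)), dist (γ'.f x) (z i) ≤ ε) :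
    dist γ γ' ≤ 2 * ε := by
  have ht := extT_strictMono hm hsm hs
  have ht' := extT_strictMono hm hsm' hs'
  have hper := extT_per hm s
  have hper' := extT_per hm s'
  refine Loop.dist_le (repOf ht hper ht' hper') fun x => ?_
  obtain ⟨i, hi⟩ := exists_cell_idx ht hper x
  have h2 : (repOf ht hper ht' hper').φ x ∈ Icc (extT m s' i) (extT m s' (i + 1)) := by
    rw [← repOf_apply ht hper ht' hper' i, ← repOf_apply ht hper ht' hper' (i + 1)]
    exact ⟨(repOf ht hper ht' hper').φ.monotone hi.1, (repOf ht hper ht' hper').φ.monotone hi.2⟩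
  obtain ⟨hj, e1, e2⟩ := extT_key hm hsm i
  obtain ⟨-, e1', e2'⟩ := extT_key hm hsm' i
  rw [e1, e2] at hi
  rw [e1', e2'] at h2
  have h3 := hc _ hj (x - ((i / (m : ℤ) : ℤ) : ℝ)) ⟨by linarith [hi.1], by linarith [hi.2]⟩
  have h4 := hc' _ hj ((repOf ht hper ht' hper').φ x - ((i / (m : ℤ) : ℤ) : ℝ))
    ⟨by linarith [h2.1], by linarith [h2.2]⟩
  have h5 := γ.per_int (x - ((i / (m : ℤ) : ℤ) : ℝ)) (i / (m : ℤ))
  have h6 := γ'.per_int ((repOf ht hper ht' hper').φ x - ((i / (m : ℤ) : ℤ) : ℝ)) (i / (m : ℤ))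
  rw [sub_add_cancel] at h5 h6
  rw [h5, h6]
  have h7 := dist_triangle_right (γ.f (x - ((i / (m : ℤ) : ℤ) : ℝ)))
    (γ'.f ((repOf ht hper ht' hper').φ x - ((i / (m : ℤ) : ℤ) : ℝ))) (z (i % (m : ℤ)).toNat)
  linarith

/-- A closed polygon stays in a ball which contains its vertices. -/
private theorem poly_ball {V : ℤ → ℂ} {a b : ℤ} {z : ℂ} {ε : ℝ}
    (h : ∀ j, a ≤ j → j ≤ b → dist (V j) z ≤ ε) {y : ℝ} (hy : y ∈ Icc (a : ℝ) b) :
    dist (poly V y) z ≤ ε := by
  rcases hy.2.lt_or_eq with hlt | heq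
  · have h1 : a ≤ ⌊y⌋ := Int.le_floor.2 hy.1
    have h2 : ⌊y⌋ < b := Int.floor_lt.2 hlt
    have h3 := h ⌊y⌋ h1 (by omega)
    have h4 := h (⌊y⌋ + 1) (by omega) (by omega)
    have h5 : poly V y ∈ segment ℝ (V ⌊y⌋) (V (⌊y⌋ + 1)) := poly_mem_segment V y
    exact (convex_closedBall z ε).segment_subset h3 h4 h5
  · rw [heq, poly_int]
    refine h b ?_ le_rfl
    have h1 : (a : ℝ) ≤ b := by rw [← heq]; exact hy.1
    exact_mod_cast h1

/-- The itinerary of a corner loop. -/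
theorem dist_polyLoop_le_of_itin {V V' : ℤ → ℂ} {p p' : ℕ} (hp : 0 < p) (hp' : 0 < p')
    {h : ∀ j, V (j + p) = V j} {h' : ∀ j, V' (j + p') = V' j} {ε : ℝ} {m : ℕ} (hm : 0 < m)
    (a a' : ℕ → ℤ) (ha : ∀ i < m, a i < a (i + 1)) (ham : a m = a 0 + p)
    (ha' : ∀ i < m, a' i < a' (i + 1)) (ham' : a' m = a' 0 + p') (z : ℕ → ℂ)
    (hc : ∀ i < m, ∀ j, a i ≤ j → j ≤ a (i + 1) → dist (V j) (z i) ≤ ε)
    (hc' : ∀ i < m, ∀ j, a' i ≤ j → j ≤ a' (i + 1) → dist (V' j) (z i) ≤ ε) :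
    dist (polyLoop V p h) (polyLoop V' p' h') ≤ 2 * ε := by
  have hp0 : (0 : ℝ) < p := by exact_mod_cast hp
  have hp0' : (0 : ℝ) < p' := by exact_mod_cast hp'
  refine Loop.dist_le_of_itin hm (fun i => (a i : ℝ) / p) (fun i => (a' i : ℝ) / p') ?_ ?_ ?_ ?_ z
    ?_ ?_
  · intro i hi
    refine div_lt_div_of_pos_right ?_ hp0
    exact_mod_cast ha i hi
  · simp only [ham]
    push_cast
    field_simp
  · intro i hi
    refine div_lt_div_of_pos_right ?_ hp0'
    exact_mod_cast ha' i hi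
  · simp only [ham']
    push_cast
    field_simp
  · intro i hi x hx
    rw [polyLoop_f]
    refine poly_ball (hc i hi) ⟨?_, ?_⟩
    · have := (div_le_iff₀ hp0).1 hx.1
      rwa [mul_comm] at this
    · have := (le_div_iff₀ hp0).1 hx.2
      rwa [mul_comm] at this
  · intro i hi x hx
    rw [polyLoop_f]
    refine poly_ball (hc' i hi) ⟨?_, ?_⟩
    · have := (div_le_iff₀ hp0').1 hx.1
      rwa [mul_comm] at this
    · have := (le_div_iff₀ hp0').1 hx.2
      rwa [mul_comm] at this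

/-- Two outer perimeters with the same itinerary are close. -/
theorem dist_outerCurve_le_of_itin {n n' : ℕ} {T T' : Finset Edg} (hT : T ⊆ boxE n)
    (hT' : T' ⊆ boxE n') {u u' : ℤ × ℤ} {k k' : Cor} (hk : vtx k ∈ clV T u)
    (hok : Outer T u (fce k)) (hk' : vtx k' ∈ clV T' u') (hok' : Outer T' u' (fce k')) {ε : ℝ}
    {m : ℕ} (hm : 0 < m) (a a' : ℕ → ℤ) (ha : ∀ i < m, a i < a (i + 1))
    (ham : a m = a 0 + (Function.minimalPeriod (nxtE (T : Set Ed)) k : ℕ))
    (ha' : ∀ i < m, a' i < a' (i + 1))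
    (ham' : a' m = a' 0 + (Function.minimalPeriod (nxtE (T' : Set Ed)) k' : ℕ)) (z : ℕ → ℂ)
    (hc : ∀ i < m, ∀ j, a i ≤ j → j ≤ a (i + 1) → dist (posC n (T : Set Ed) k j) (z i) ≤ ε)
    (hc' : ∀ i < m, ∀ j, a' i ≤ j → j ≤ a' (i + 1) →
      dist (posC n' (T' : Set Ed) k' j) (z i) ≤ ε) :
    dist (outerCurve n T u) (outerCurve n' T' u') ≤ 2 * ε := by
  have h1 := dist_outerLoop_cornerLoop (n := n) hT hk hok
  have h2 := dist_outerLoop_cornerLoop (n := n') hT' hk' hok'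
  have h3 : dist (cornerLoop n (T : Set Ed) k) (cornerLoop n' (T' : Set Ed) k') ≤ 2 * ε :=
    dist_polyLoop_le_of_itin (minimalPeriod_pos hT hk) (minimalPeriod_pos hT' hk') hm a a' ha ham
      ha' ham' z hc hc'
  unfold outerCurve
  rw [SeparationQuotient.dist_mk]
  have h4 := dist_triangle4 (outerLoop n T u) (cornerLoop n (T : Set Ed) k)
    (cornerLoop n' (T' : Set Ed) k') (outerLoop n' T' u')
  rw [dist_comm (cornerLoop n' (T' : Set Ed) k')] at h4
  linarith

end Pool.Agent.SixB
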