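import Pool.Agent.Lib.SixB.S8Cand
import Pool.Agent.Lib.SixB.S8Itin

/-!
# Step 8: the scan with needles, in the language of clusters

The state is the set `U` of the remaining vertices of the box. A step for a target `z`: walk back
from `z` along its staircase (a row of faces of the face grid) to the first removed vertex; if it is
far, open the last piece of the staircase before it (the needle, of length `h` to `2 h`) and remove
all the vertices of the cluster of the needle and all the vertices which it encloses.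
-/

set_option autoImplicit false

namespace Pool.Agent.SixB

open Set Filter Topology MeasureTheory TopologicalSpace
open Pool.Agent.Perc Pool.Agent.PercD
open Pool.Agent.PercU (Cor vtx fce nxt nxtE qry)
open Pool.Agent.MP_6bd702.H23 Pool.Agent.MP_6bd702.H60

/-! ### Definitions -/

/-- The edges of `T` with both ends in `U`. -/
def rst (T : Finset Edg) (U : Finset (ℤ × ℤ)) : Finset Edg :=
  T.filter fun e => tl e ∈ U ∧ hd e ∈ U

/-- The vertices which are in the cluster of `v` or enclosed by it. -/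
def Swal (T : Finset Edg) (v : ℤ × ℤ) : Set (ℤ × ℤ) := {w | w ∈ clV T v ∨ ¬ Outer T v w}

/-- The staircase which ends at `z`. -/
def stair (z : ℤ × ℤ) (i : ℕ) : ℤ × ℤ := (z.1 - (((i + 1) / 2 : ℕ) : ℤ), z.2 - ((i / 2 : ℕ) : ℤ))

/-- The edge of the staircase between `stair z (i + 1)` (its first end) and `stair z i`. -/
def stairE (z : ℤ × ℤ) (i : ℕ) : Edg :=
  ((stair z (i + 1)).1, (stair z (i + 1)).2, decide (i % 2 = 1))

/-- The number of vertices of the staircase of `z` before the first removed one. -/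
noncomputable def len (U : Finset (ℤ × ℤ)) (z : ℤ × ℤ) : ℕ := sInf {i | stair z i ∉ U}

/-- The needle ends at a multiple of `h` (on the staircase). -/
noncomputable def nEnd (h : ℕ) (U : Finset (ℤ × ℤ)) (z : ℤ × ℤ) : ℕ :=
  h * ((len U z - 1 - h) / h)

/-- The edges of the needle. -/
noncomputable def nedl (h : ℕ) (U : Finset (ℤ × ℤ)) (z : ℤ × ℤ) : Finset Edg :=
  (Finset.Ico (nEnd h U z) (len U z - 1)).image (stairE z)

/-- The first vertex of the needle, next to a removed vertex. -/
noncomputable def nBase (U : Finset (ℤ × ℤ)) (z : ℤ × ℤ) : ℤ × ℤ := stair z (len U z - 1)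

/-- There is a step for the target `z`. -/
def Act (h : ℕ) (U : Finset (ℤ × ℤ)) (z : ℤ × ℤ) : Prop := 0 < h ∧ 3 * h ≤ len U z

/-- The configuration in which the cluster of the needle is explored. -/
noncomputable def cfN (h : ℕ) (T : Finset Edg) (U : Finset (ℤ × ℤ)) (z : ℤ × ℤ) : Finset Edg :=
  rst T U ∪ nedl h U z

open Classical in
/-- One step. -/
noncomputable def stp (h : ℕ) (T : Finset Edg) (U : Finset (ℤ × ℤ)) (z : ℤ × ℤ) :
    Finset (ℤ × ℤ) :=
  if Act h U z then U.filter fun w => w ∉ Swal (cfN h T U z) (nBase U z) else U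

/-- The remaining vertices after `j` steps with targets `z 0, z 1, …`. -/
noncomputable def st (n h : ℕ) (z : ℕ → ℤ × ℤ) (T : Finset Edg) : ℕ → Finset (ℤ × ℤ)
  | 0 => Box n
  | j + 1 => stp h T (st n h z T j) (z j)

/-- The cluster of the needle reaches distance `ρ`. -/
def Mac (ρ : ℝ) (h : ℕ) (T : Finset Edg) (U : Finset (ℤ × ℤ)) (z : ℤ × ℤ) : Prop :=
  Act h U z ∧ ∃ u ∈ clV (cfN h T U z) (nBase U z), ρ < dist (toC u) (toC (nBase U z))

/-- The curve of a step. -/
noncomputable def crv (n h : ℕ) (T : Finset Edg) (U : Finset (ℤ × ℤ)) (z : ℤ × ℤ) : Curve :=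
  outerCurve n (cfN h T U z) (nBase U z)

/-- A king step to a vertex outside of `U`. -/
def RAdj (U : Finset (ℤ × ℤ)) (a b : ℤ × ℤ) : Prop :=
  b ∉ U ∧ |a.1 - b.1| ≤ 1 ∧ |a.2 - b.2| ≤ 1

/-- The invariants of the state. -/
structure Rule.Inv (n : ℕ) (T : Finset Edg) (U : Finset (ℤ × ℤ)) : Prop where
  sub : U ⊆ Box n
  noCross : ∀ e ∈ T, tl e ∈ U ↔ hd e ∈ U
  conn : ∀ w, w ∉ U → ∃ w', w' ∉ Box n ∧ Relation.ReflTransGen (RAdj U) w w'

/-! ### The bad events of a step -/

/-- The vertices of the needle. -/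
noncomputable def nVert (h : ℕ) (U : Finset (ℤ × ℤ)) (z : ℤ × ℤ) : Finset (ℤ × ℤ) :=
  (Finset.Icc (nEnd h U z) (len U z - 1)).image (stair z)

/-- Two different clusters of the remaining part meet the needle and reach distance `ρ`. -/
def TwoArms (ρ : ℝ) (h : ℕ) (T : Finset Edg) (U : Finset (ℤ × ℤ)) (z : ℤ × ℤ) : Prop :=
  ∃ q ∈ nVert h U z, ∃ q' ∈ nVert h U z, q' ∉ clV (rst T U) q ∧
    (∃ u ∈ clV (rst T U) q, ρ < dist (toC u) (toC (nBase U z))) ∧
    ∃ u ∈ clV (rst T U) q', ρ < dist (toC u) (toC (nBase U z))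

/-- A step of a dual path: `f` and `g` are the two faces at a closed edge `e` of the remaining part
(both ends in `U`) which is not an edge of the needle. -/
def DStep (n h : ℕ) (T : Finset Edg) (U : Finset (ℤ × ℤ)) (z : ℤ × ℤ) (f g : ℤ × ℤ) : Prop :=
  ∃ e ∈ boxE n, tl e ∈ U ∧ hd e ∈ U ∧ e ∉ T ∧ e ∉ nedl h U z ∧
    ((side e true = f ∧ side e false = g) ∨ (side e true = g ∧ side e false = f))

/-- A dual path of closed edges of the remaining part from the needle to distance `ρ`. -/
def DualArm (ρ : ℝ) (n h : ℕ) (T : Finset Edg) (U : Finset (ℤ × ℤ)) (z : ℤ × ℤ) : Prop :=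
  ∃ e ∈ nedl h U z, ∃ b : Bool, ∃ f, Relation.ReflTransGen (DStep n h T U z) (side e b) f ∧
    ρ < dist (ctr f) (toC (nBase U z)) + 1

/-! ### The schedule -/

/-- The targets: the points of the grid of mesh `h`, each of them `M` times. -/
def tgt (K M h : ℕ) (j : ℕ) : ℤ × ℤ :=
  (((j / M / (K + 2) * h : ℕ) : ℤ), ((j / M % (K + 2) * h : ℕ) : ℤ))

/-- The number of steps. -/
def nst (K M : ℕ) : ℕ := (K + 2) * (K + 2) * M

end Pool.Agent.SixB
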