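import Pool.Agent.Lib.SixB.S8BubbleV
import Pool.Agent.Lib.SixB.S8ScanDefs

/-!
# Step 8: bubbles (row SN of the scan)

The filling of every large cluster contains a ball around a point of the grid.
-/

set_option autoImplicit false

namespace Pool.Agent.SixB

open Finset Pool.Agent.Perc Pool.Agent.PercD Pool.Agent.Perc6
open Pool.Agent.MP_6bd702.H23 (Ed ea eb f1 f2)
open Pool.Agent.MP_6bd702.H60 (Out FConn FStep)
open Pool.Agent.PercO (Kc Tc)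
open Pool.Agent.PercX60 (gT phiF Sn eE)

/-! ### From the face grid to the square lattice -/

theorem par_phiV (v : ℤ × ℤ) : par (phiV v) = 0 := by
  unfold par phiV
  simp only
  omega

theorem par_phiF (f : ℤ × ℤ) : par (phiF f) = 1 := by
  unfold par phiF
  simp only
  omega

theorem phiF_injective : Function.Injective phiF := by
  rintro ⟨x, y⟩ ⟨x', y'⟩ h
  simp only [phiF, Prod.mk.injEq] at h ⊢
  omega

/-- An even bond of a face is an open edge. -/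
theorem bond_even {T : Set Ed} {e : Ed} {p q : ℤ × ℤ} (h : Bond (gT T) {phiE e} p q)
    (hp : par p = 0) : e ∈ T ∧ ((p = phiV (ea e) ∧ q = phiV (eb e)) ∨
      (p = phiV (eb e) ∧ q = phiV (ea e))) := by
  rw [← Pool.Agent.PercX60.gT_phiE]
  obtain ⟨x, y, hf, h⟩ := h
  rw [Set.mem_singleton_iff] at hf
  rw [← hf]
  obtain ⟨a, b, _ | _⟩ := e
  · simp only [phiE, Bool.false_eq_true, if_false, Prod.mk.injEq] at hf
    obtain ⟨rfl, rfl⟩ := hf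
    simp only [phiV, Pool.Agent.MP_6bd702.H23.ea_mk, Pool.Agent.MP_6bd702.H23.eb_false]
    rcases h with ⟨ht, (⟨rfl, rfl⟩ | ⟨rfl, rfl⟩)⟩ | ⟨ht, (⟨rfl, rfl⟩ | ⟨rfl, rfl⟩)⟩
    · exact ⟨by rw [ht]; rfl, Or.inl ⟨rfl, by rw [Prod.mk.injEq]; omega⟩⟩
    · exact ⟨by rw [ht]; rfl, Or.inr ⟨by rw [Prod.mk.injEq]; omega, rfl⟩⟩
    · exfalso
      unfold par at hp
      simp only at hp
      omega
    · exfalso
      unfold par at hp
      simp only at hp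
      omega
  · simp only [phiE, if_true, Prod.mk.injEq] at hf
    obtain ⟨rfl, rfl⟩ := hf
    simp only [phiV, Pool.Agent.MP_6bd702.H23.ea_mk, Pool.Agent.MP_6bd702.H23.eb_true]
    rcases h with ⟨ht, (⟨rfl, rfl⟩ | ⟨rfl, rfl⟩)⟩ | ⟨ht, (⟨rfl, rfl⟩ | ⟨rfl, rfl⟩)⟩
    · exfalso
      unfold par at hp
      simp only at hp
      omega
    · exfalso
      unfold par at hp
      simp only at hp
      omega
    · refine ⟨by rw [ht]; rfl, Or.inl ⟨?_, ?_⟩⟩ <;> rw [Prod.mk.injEq] <;> omega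
    · refine ⟨by rw [ht]; rfl, Or.inr ⟨?_, ?_⟩⟩ <;> rw [Prod.mk.injEq] <;> omega

/-- A path of the face grid from an even vertex is a path of open edges. -/
theorem conn_gT {T : Set Ed} {F : Set (ℤ × ℤ)} {v p : ℤ × ℤ} (h : Conn (gT T) F (phiV v) p) :
    ∃ w ∈ Kc T v, p = phiV w := by
  refine conn_induct (P := fun p => ∃ w ∈ Kc T v, p = phiV w) h
    ⟨v, Relation.ReflTransGen.refl, rfl⟩ ?_
  rintro p q f - ⟨w, hw, rfl⟩ hf hb h1 h2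
  rw [← Pool.Agent.PercX60.phiE_eE f] at hb
  have hinj : Function.Injective phiV := by
    rintro ⟨x, y⟩ ⟨x', y'⟩ h
    simp only [phiV, Prod.mk.injEq] at h ⊢
    omega
  obtain ⟨he, ⟨h3, h4⟩ | ⟨h3, h4⟩⟩ := bond_even hb (par_phiV w)
  · refine ⟨_, ?_, h4⟩
    refine Pool.Agent.PercO.eb_mem (Pool.Agent.PercO.mem_Tc_of_ea he ?_)
    rw [← hinj h3]
    exact hw
  · refine ⟨_, ?_, h4⟩
    refine Pool.Agent.PercO.ea_mem (Pool.Agent.PercO.mem_Tc_of_eb he ?_)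
    rw [← hinj h3]
    exact hw

theorem cor_f1 (e : Ed) : IsCor (phiE e) (phiF (f1 e)) ∧ IsCor (phiE e) (phiF (f2 e)) := by
  obtain ⟨x, y, _ | _⟩ := e
  · have h1 : phiE (x, y, false) = (x + y, x - y) := by simp [phiE]
    have h2 : phiF (f1 (x, y, false)) = (x + (y - 1) + 1, x - (y - 1)) := by simp [phiF, f1]
    have h3 : phiF (f2 (x, y, false)) = (x + y + 1, x - y) := by simp [phiF, f2]
    rw [h1, h2, h3]
    exact ⟨⟨Or.inl (by ring), Or.inr (by ring)⟩, ⟨Or.inr rfl, Or.inl rfl⟩⟩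
  · have h1 : phiE (x, y, true) = (x + y, x - y - 1) := by simp [phiE]
    have h2 : phiF (f1 (x, y, true)) = (x - 1 + y + 1, x - 1 - y) := by simp [phiF, f1]
    have h3 : phiF (f2 (x, y, true)) = (x + y + 1, x - y) := by simp [phiF, f2]
    rw [h1, h2, h3]
    exact ⟨⟨Or.inl (by ring), Or.inl (by ring)⟩, ⟨Or.inr rfl, Or.inr (by ring)⟩⟩

/-- **Enclosed boxes are not outside of the cluster.** -/
theorem not_outer_of_enclV {T : Finset Edg} {v u w : ℤ × ℤ} {x₀ x₁ y₀ y₁ : ℤ} {Z : Set (ℤ × ℤ)}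
    (hu : u ∈ clV T v) (h : EnclV (gT (T : Set Ed)) x₀ x₁ y₀ y₁ Z (phiV u))
    (hw : ∃ f ∈ Z, IsCor f (phiF w)) : ¬ Outer T v w := by
  rw [Pool.Agent.PercO.outer_iff]
  intro hout
  refine hout (Set.Finite.subset (s := phiF ⁻¹' (Set.Icc x₀ x₁ ×ˢ Set.Icc y₀ y₁))
    (((Set.finite_Icc _ _).prod (Set.finite_Icc _ _)).preimage phiF_injective.injOn) ?_)
  intro g hg
  have hh : ∀ q, Relation.ReflTransGen
      (DSt (gT (T : Set Ed)) (RF x₀ x₁ y₀ y₁ : Set (ℤ × ℤ)) (phiV u)) (phiF w) q →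
      x₀ < q.1 ∧ q.1 < x₁ ∧ y₀ < q.2 ∧ q.2 < y₁ := fun q hq =>
    h (phiF w) hw (by rw [par_phiF, par_phiV]; norm_num) q hq
  have key : Relation.ReflTransGen (DSt (gT (T : Set Ed)) (RF x₀ x₁ y₀ y₁ : Set (ℤ × ℤ)) (phiV u))
      (phiF w) (phiF g) := by
    have hg' : FConn (Tc (T : Set Ed) v) w g := hg
    clear hg hout
    unfold FConn at hg'
    induction hg' with
    | refl => exact Relation.ReflTransGen.refl
    | @tail a b _ hab ih =>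
      refine ih.tail ?_
      obtain ⟨e, he, hab⟩ := hab
      have hc := cor_f1 e
      have hcar : ¬ Carry (gT (T : Set Ed)) (RF x₀ x₁ y₀ y₁ : Set (ℤ × ℤ)) (phiV u) (phiE e) := by
        rintro ⟨p, q, hb, hcn⟩
        have hp : par p = 0 := by rw [← hcn.par_eq, par_phiV]
        obtain ⟨heT, h3⟩ := bond_even hb hp
        obtain ⟨p', hp', rfl⟩ := conn_gT hcn
        have hinj : Function.Injective phiV := by
          rintro ⟨x, y⟩ ⟨x', y'⟩ h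
          simp only [phiV, Prod.mk.injEq] at h ⊢
          omega
        have hpv : p' ∈ Kc (T : Set Ed) v := by
          rw [Pool.Agent.PercO.clV_eq] at hu
          exact Relation.ReflTransGen.trans hu hp'
        rcases h3 with ⟨h3, -⟩ | ⟨h3, -⟩
        · exact he (Pool.Agent.PercO.mem_Tc_of_ea heT (by rw [← hinj h3]; exact hpv))
        · exact he (Pool.Agent.PercO.mem_Tc_of_eb heT (by rw [← hinj h3]; exact hpv))
      obtain ⟨h1, h2, h3, h4⟩ := hh _ ih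
      rcases hab with ⟨rfl, rfl⟩ | ⟨rfl, rfl⟩
      · exact ⟨phiE e, mem_RF_of_cor hc.1 h1 h2 h3 h4, hc.1, hc.2, by rw [par_phiF, par_phiF], hcar⟩
      · exact ⟨phiE e, mem_RF_of_cor hc.2 h1 h2 h3 h4, hc.2, hc.1, by rw [par_phiF, par_phiF], hcar⟩
  have h1 := hh _ key
  exact ⟨⟨h1.1.le, h1.2.1.le⟩, h1.2.2.1.le, h1.2.2.2.le⟩

/-! ### Locality -/

variable {x₀ x₁ y₀ y₁ d m : ℤ}

theorem enclV_congr {ω ω' : Cfg} (h : ∀ f ∈ (RF x₀ x₁ y₀ y₁ : Set (ℤ × ℤ)), ω f = ω' f)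
    {Z : Set (ℤ × ℤ)} {u : ℤ × ℤ} (hE : EnclV ω x₀ x₁ y₀ y₁ Z u) : EnclV ω' x₀ x₁ y₀ y₁ Z u := by
  intro p hp hpar q hq
  refine hE p hp hpar q (Relation.ReflTransGen.mono (fun a b hab => ?_) p q hq)
  obtain ⟨f, hf, h1, h2, h3, h4⟩ := hab
  refine ⟨f, hf, h1, h2, h3, ?_⟩
  rintro ⟨r, s, hb, hc⟩
  exact h4 ⟨r, s, bond_single_congr hb (h f hf),
    (GridA.conn_iff (RF x₀ x₁ y₀ y₁ : Set (ℤ × ℤ)) h _ _).1 hc⟩

theorem bub_congr {ω ω' : Cfg} (h : ∀ f ∈ (RF x₀ x₁ y₀ y₁ : Set (ℤ × ℤ)), ω f = ω' f)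
    {u : ℤ × ℤ} (hE : Bub ω x₀ x₁ y₀ y₁ m u) : Bub ω' x₀ x₁ y₀ y₁ m u := by
  obtain ⟨a, b, h1, h2, h3, h4, h5⟩ := hE
  exact ⟨a, b, h1, h2, h3, h4, enclV_congr h h5⟩

theorem SS_congr' {ω ω' : Cfg} {F : Set (ℤ × ℤ)} {e : UE} (h : ∀ f ∈ F, ω f = ω' f) :
    SS ω' F e = SS ω F e := SS_congr fun f hf => h f hf.1

theorem depOn_bubH : DepOn (RF x₀ x₁ y₀ y₁ : Set (ℤ × ℤ))
    {ω | ∃ u, CrH ω x₀ x₁ y₀ y₁ d u ∧ ¬ Bub ω x₀ x₁ y₀ y₁ m u} := by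
  have key : ∀ ω ω' : Cfg, (∀ f ∈ (RF x₀ x₁ y₀ y₁ : Set (ℤ × ℤ)), ω f = ω' f) →
      (∃ u, CrH ω x₀ x₁ y₀ y₁ d u ∧ ¬ Bub ω x₀ x₁ y₀ y₁ m u) →
      ∃ u, CrH ω' x₀ x₁ y₀ y₁ d u ∧ ¬ Bub ω' x₀ x₁ y₀ y₁ m u := by
    rintro ω ω' h ⟨u, ⟨k, g, h1, h2, h3, h4, h5, h6, h7⟩, h8⟩
    refine ⟨u, ⟨k, g, h1, h2, h3, h4, ?_, ?_, h7⟩, fun h9 => h8 (bub_congr (fun f hf =>
      (h f hf).symm) h9)⟩
    · rw [MM_congr' h]; exact h5
    · rw [SS_congr' h]; exact h6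
  intro ω ω' h
  rw [Set.mem_ofPred_eq, Set.mem_ofPred_eq]
  exact ⟨key ω ω' h, key ω' ω fun f hf => (h f hf).symm⟩

theorem depOn_bubV : DepOn (RF x₀ x₁ y₀ y₁ : Set (ℤ × ℤ))
    {ω | ∃ u, CrV ω x₀ x₁ y₀ y₁ d u ∧ ¬ Bub ω x₀ x₁ y₀ y₁ m u} := by
  have key : ∀ ω ω' : Cfg, (∀ f ∈ (RF x₀ x₁ y₀ y₁ : Set (ℤ × ℤ)), ω f = ω' f) →
      (∃ u, CrV ω x₀ x₁ y₀ y₁ d u ∧ ¬ Bub ω x₀ x₁ y₀ y₁ m u) →
      ∃ u, CrV ω' x₀ x₁ y₀ y₁ d u ∧ ¬ Bub ω' x₀ x₁ y₀ y₁ m u := by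
    rintro ω ω' h ⟨u, ⟨k, g, h1, h2, h3, h4, h5, h6, h7⟩, h8⟩
    refine ⟨u, ⟨k, g, h1, h2, h3, h4, ?_, ?_, h7⟩, fun h9 => h8 (bub_congr (fun f hf =>
      (h f hf).symm) h9)⟩
    · rw [MM_congr' h]; exact h5
    · rw [SS_congr' h]; exact h6
  intro ω ω' h
  rw [Set.mem_ofPred_eq, Set.mem_ofPred_eq]
  exact ⟨key ω ω' h, key ω' ω fun f hf => (h f hf).symm⟩

/-! ### The box contains a ball around a point of the grid -/

theorem net_point {A B h : ℤ} {K n : ℕ} (hh : h = (n / K : ℕ)) (hK : 0 < K) (hKn : K * K ≤ n)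
    (hZ : RF A (A + 2 * (10 * h)) B (B + 2 * (10 * h)) ⊆ Sn n) :
    ∃ a b : ℕ, a < K + 2 ∧ b < K + 2 ∧ ∀ w : ℤ × ℤ,
      dist (toC w) (toC (((a * (n / K) : ℕ) : ℤ), ((b * (n / K) : ℕ) : ℤ))) ≤ 4 * (n / K : ℕ) →
      ∃ f ∈ (RF A (A + 2 * (10 * h)) B (B + 2 * (10 * h)) : Set (ℤ × ℤ)), IsCor f (phiF w) := by
  have hKh : K ≤ n / K := (Nat.le_div_iff_mul_le hK).2 hKn
  have hnh : n < K * (n / K) + K := by
    have := Nat.div_add_mod n K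
    have := Nat.mod_lt n hK
    omega
  obtain ⟨k, hk⟩ : ∃ k : ℕ, k = n / K := ⟨_, rfl⟩
  rw [← hk] at hh hKh hnh
  have hkh : (k : ℤ) = h := by rw [hh]
  have h1 : 1 ≤ h := by omega
  obtain ⟨x, hx⟩ : ∃ x : ℤ, x = (A + 10 * h + (B + 10 * h)) / 2 := ⟨_, rfl⟩
  obtain ⟨y, hy⟩ : ∃ y : ℤ, y = (A + 10 * h - (B + 10 * h)) / 2 := ⟨_, rfl⟩
  -- the centre
  have hc : ((x + y, x - y) : ℤ × ℤ) ∈ Sn n := by
    apply hZ
    rw [PlanarB.mem_RF]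
    simp only
    omega
  obtain ⟨e, he, hee⟩ := Finset.mem_image.1 hc
  have hbox : 0 ≤ x ∧ x ≤ n ∧ 0 ≤ y ∧ y ≤ n := by
    have he2 : e = (x, y, false) := by
      apply phiE_injective
      rw [hee]
      simp only [phiE, Bool.false_eq_true, if_false]
    rw [he2, Pool.Agent.PercO.mem_boxE'] at he
    have h3 := he.1
    simp only [Box, Finset.mem_product, Finset.mem_Icc, Pool.Agent.MP_6bd702.H23.ea_mk] at h3
    omega
  obtain ⟨hx0, hxn, hy0, hyn⟩ := hbox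
  obtain ⟨a, ha⟩ : ∃ a : ℕ, (a : ℤ) = x / h :=
    ⟨(x / h).toNat, Int.toNat_of_nonneg (Int.ediv_nonneg hx0 (by omega))⟩
  obtain ⟨b, hb⟩ : ∃ b : ℕ, (b : ℤ) = y / h :=
    ⟨(y / h).toNat, Int.toNat_of_nonneg (Int.ediv_nonneg hy0 (by omega))⟩
  have ha1 := Int.mul_ediv_add_emod x h
  have ha2 := Int.emod_nonneg x (show h ≠ 0 by omega)
  have ha3 := Int.emod_lt_of_pos x (show 0 < h by omega)
  have hb1 := Int.mul_ediv_add_emod y h
  have hb2 := Int.emod_nonneg y (show h ≠ 0 by omega)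
  have hb3 := Int.emod_lt_of_pos y (show 0 < h by omega)
  rw [← ha] at ha1
  rw [← hb] at hb1
  have hsmall : ∀ c : ℕ, h * (c : ℤ) ≤ n → c < K + 2 := by
    intro c hc
    by_contra hcon
    have h3 : (K : ℤ) + 2 ≤ c := by omega
    have h4 : h * ((K : ℤ) + 2) ≤ h * c := mul_le_mul_of_nonneg_left h3 (by omega)
    have h5 : (n : ℤ) < K * h + K := by
      have : ((n : ℕ) : ℤ) < ((K * k + K : ℕ) : ℤ) := by exact_mod_cast hnh
      push_cast at this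
      rw [hkh] at this
      exact this
    have h6 : (K : ℤ) ≤ h := by omega
    nlinarith
  refine ⟨a, b, hsmall a (by omega), hsmall b (by omega), fun w hw => ?_⟩
  rw [← hk] at hw
  have hre : |((w.1 - (a * k : ℕ) : ℤ) : ℝ)| ≤ ((4 * h : ℤ) : ℝ) := by
    have h3 := Complex.abs_re_le_norm (toC w - toC (((a * k : ℕ) : ℤ), ((b * k : ℕ) : ℤ)))
    rw [← Complex.dist_eq, Complex.sub_re, Pool.Agent.PercX60.toC_re,
      Pool.Agent.PercX60.toC_re] at h3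
    rw [← hkh]
    push_cast at h3 hw ⊢
    linarith
  have him : |((w.2 - (b * k : ℕ) : ℤ) : ℝ)| ≤ ((4 * h : ℤ) : ℝ) := by
    have h3 := Complex.abs_im_le_norm (toC w - toC (((a * k : ℕ) : ℤ), ((b * k : ℕ) : ℤ)))
    rw [← Complex.dist_eq, Complex.sub_im, Pool.Agent.PercX60.toC_im,
      Pool.Agent.PercX60.toC_im] at h3
    rw [← hkh]
    push_cast at h3 hw ⊢
    linarith
  have hre' : |w.1 - (a * k : ℕ)| ≤ 4 * h := by exact_mod_cast hre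
  have him' : |w.2 - (b * k : ℕ)| ≤ 4 * h := by exact_mod_cast him
  rw [abs_le] at hre' him'
  push_cast at hre' him'
  rw [hkh] at hre' him'
  rw [mul_comm h (a : ℤ)] at ha1
  rw [mul_comm h (b : ℤ)] at hb1
  obtain ⟨P, hP⟩ : ∃ P : ℤ, P = w.1 + w.2 + 1 := ⟨_, rfl⟩
  obtain ⟨Q, hQ⟩ : ∃ Q : ℤ, Q = w.1 - w.2 := ⟨_, rfl⟩
  have hPb : A ≤ P ∧ P ≤ A + 2 * (10 * h) := by omega
  have hQb : B ≤ Q ∧ Q ≤ B + 2 * (10 * h) := by omega
  refine ⟨(min P (A + 2 * (10 * h) - 1), min Q (B + 2 * (10 * h) - 1)), ?_, ?_⟩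
  · rw [mem_RF']
    simp only
    omega
  · unfold IsCor phiF
    rw [← hP, ← hQ]
    simp only
    omega

/-! ### The row -/

/-- The bad event of the grid point `p`: some strand crosses one of the four rectangles of `p` and one of
its clusters does not enclose a large box. -/
def BadP (p : ℤ × ℤ) (L m : ℤ) : Set Cfg :=
  ({ω | ∃ u, CrH ω (p.1 + L) (p.1 + 2 * L) (p.2 - 3 * L) (p.2 + 3 * L) L u ∧
      ¬ Bub ω (p.1 + L) (p.1 + 2 * L) (p.2 - 3 * L) (p.2 + 3 * L) m u} ∪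
    {ω | ∃ u, CrH ω (p.1 - 2 * L) (p.1 - L) (p.2 - 3 * L) (p.2 + 3 * L) L u ∧
      ¬ Bub ω (p.1 - 2 * L) (p.1 - L) (p.2 - 3 * L) (p.2 + 3 * L) m u}) ∪
  ({ω | ∃ u, CrV ω (p.1 - 3 * L) (p.1 + 3 * L) (p.2 + L) (p.2 + 2 * L) L u ∧
      ¬ Bub ω (p.1 - 3 * L) (p.1 + 3 * L) (p.2 + L) (p.2 + 2 * L) m u} ∪
    {ω | ∃ u, CrV ω (p.1 - 3 * L) (p.1 + 3 * L) (p.2 - 2 * L) (p.2 - L) L u ∧
      ¬ Bub ω (p.1 - 3 * L) (p.1 + 3 * L) (p.2 - 2 * L) (p.2 - L) m u})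

theorem rf_sub_rfb {p : ℤ × ℤ} {L a b c' d' : ℤ} (h1 : p.1 - 3 * L ≤ a) (h2 : b ≤ p.1 + 3 * L)
    (h3 : p.2 - 3 * L ≤ c') (h4 : d' ≤ p.2 + 3 * L) : RF a b c' d' ⊆ RFb p (3 * L) := by
  intro f hf
  rw [PlanarB.mem_RF] at hf
  rw [mem_RFb]
  omega

theorem depOn_union {S : Set (ℤ × ℤ)} {A B : Set Cfg} (hA : DepOn S A) (hB : DepOn S B) :
    DepOn S (A ∪ B) := by
  intro ω ω' h
  rw [Set.mem_union, Set.mem_union, hA ω ω' h, hB ω ω' h]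

theorem depOn_mono' {S S' : Set (ℤ × ℤ)} {A : Set Cfg} (hA : DepOn S A) (h : S ⊆ S') :
    DepOn S' A := fun ω ω' hω => hA ω ω' fun f hf => hω f (h hf)

theorem depOn_badP {p : ℤ × ℤ} {L : ℤ} (hL : 0 < L) :
    DepOn (RFb p (3 * L) : Set (ℤ × ℤ)) (BadP p L m) := by
  refine depOn_union (depOn_union ?_ ?_) (depOn_union ?_ ?_)
  · exact depOn_mono' depOn_bubH (Finset.coe_subset.2 (rf_sub_rfb (by omega) (by omega)
      (by omega) (by omega)))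
  · exact depOn_mono' depOn_bubH (Finset.coe_subset.2 (rf_sub_rfb (by omega) (by omega)
      (by omega) (by omega)))
  · exact depOn_mono' depOn_bubV (Finset.coe_subset.2 (rf_sub_rfb (by omega) (by omega)
      (by omega) (by omega)))
  · exact depOn_mono' depOn_bubV (Finset.coe_subset.2 (rf_sub_rfb (by omega) (by omega)
      (by omega) (by omega)))

theorem pr_badP : ∃ θ C : ℝ, 0 < θ ∧ θ < 1 ∧ 0 < C ∧ ∀ (p : ℤ × ℤ) (L m : ℤ) (n : ℕ)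
    (W : Finset (ℤ × ℤ)), 0 < m → 2 * (4 ^ n * m) ≤ L → 4 ^ n * m + 2 * m ≤ L →
    RFb p (3 * L) ⊆ W → pr W (BadP p L m) ≤ C * θ ^ n := by
  obtain ⟨θ, h0, h1, h2⟩ := pr_bubH
  obtain ⟨θ', h0', h1', h2'⟩ := pr_bubV
  obtain ⟨C, hC, h3⟩ := h2 6
  obtain ⟨C', hC', h3'⟩ := h2' 6
  refine ⟨max θ θ', 2 * (C + C'), lt_max_of_lt_left h0, max_lt h1 h1', by positivity, ?_⟩
  intro p L m n W hm hL hL' hW
  have hL0 : 0 < L := by
    have : (0 : ℤ) < 4 ^ n * m := by positivity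
    omega
  have e1 : θ ^ n ≤ (max θ θ') ^ n := pow_le_pow_left₀ h0.le (le_max_left _ _) n
  have e2 : θ' ^ n ≤ (max θ θ') ^ n := pow_le_pow_left₀ h0'.le (le_max_right _ _) n
  have k1 := h3 (p.1 + L) (p.1 + 2 * L) (p.2 - 3 * L) (p.2 + 3 * L) L m n W hm (by omega) hL'
    (by push_cast; omega) ((rf_sub_rfb (by omega) (by omega) (by omega) (by omega)).trans hW)
  have k2 := h3 (p.1 - 2 * L) (p.1 - L) (p.2 - 3 * L) (p.2 + 3 * L) L m n W hm (by omega) hL'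
    (by push_cast; omega) ((rf_sub_rfb (by omega) (by omega) (by omega) (by omega)).trans hW)
  have k3 := h3' (p.1 - 3 * L) (p.1 + 3 * L) (p.2 + L) (p.2 + 2 * L) L m n W hm (by omega) hL'
    (by push_cast; omega) ((rf_sub_rfb (by omega) (by omega) (by omega) (by omega)).trans hW)
  have k4 := h3' (p.1 - 3 * L) (p.1 + 3 * L) (p.2 - 2 * L) (p.2 - L) L m n W hm (by omega) hL'
    (by push_cast; omega) ((rf_sub_rfb (by omega) (by omega) (by omega) (by omega)).trans hW)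
  unfold BadP
  refine (pr_union_le W _ _).trans ?_
  have k5 := pr_union_le W {ω | ∃ u, CrH ω (p.1 + L) (p.1 + 2 * L) (p.2 - 3 * L) (p.2 + 3 * L) L u ∧
      ¬ Bub ω (p.1 + L) (p.1 + 2 * L) (p.2 - 3 * L) (p.2 + 3 * L) m u}
    {ω | ∃ u, CrH ω (p.1 - 2 * L) (p.1 - L) (p.2 - 3 * L) (p.2 + 3 * L) L u ∧
      ¬ Bub ω (p.1 - 2 * L) (p.1 - L) (p.2 - 3 * L) (p.2 + 3 * L) m u}
  have k6 := pr_union_le W {ω | ∃ u, CrV ω (p.1 - 3 * L) (p.1 + 3 * L) (p.2 + L) (p.2 + 2 * L) L u ∧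
      ¬ Bub ω (p.1 - 3 * L) (p.1 + 3 * L) (p.2 + L) (p.2 + 2 * L) m u}
    {ω | ∃ u, CrV ω (p.1 - 3 * L) (p.1 + 3 * L) (p.2 - 2 * L) (p.2 - L) L u ∧
      ¬ Bub ω (p.1 - 3 * L) (p.1 + 3 * L) (p.2 - 2 * L) (p.2 - L) m u}
  have k7 := mul_le_mul_of_nonneg_left e1 hC.le
  have k8 := mul_le_mul_of_nonneg_left e2 hC'.le
  have k9 : (0 : ℝ) ≤ (max θ θ') ^ n := by positivity
  linarith

theorem not_exists_not_imp {P Q : Cfg → ℤ × ℤ → Prop} {ω' : Cfg}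
    (h : ω' ∉ {ω : Cfg | ∃ u, P ω u ∧ ¬ Q ω u}) {u : ℤ × ℤ} (hu : P ω' u) : Q ω' u := by
  by_contra hc
  exact h ⟨u, hu, hc⟩

/-- A bubble of a cluster contains a ball around a grid point. -/
theorem swal_of_bub {T : Finset Edg} {v u : ℤ × ℤ} {n K : ℕ} {h : ℤ} (hh : h = (n / K : ℕ))
    (hK : 0 < K) (hKn : K * K ≤ n) (hu : u ∈ clV T v) (hR : RF x₀ x₁ y₀ y₁ ⊆ Sn n)
    (hB : Bub (gT (T : Set Ed)) x₀ x₁ y₀ y₁ (10 * h) (phiV u)) :
    ∃ a b : ℕ, a < K + 2 ∧ b < K + 2 ∧ ∀ w : ℤ × ℤ,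
      dist (toC w) (toC (((a * (n / K) : ℕ) : ℤ), ((b * (n / K) : ℕ) : ℤ))) ≤ 4 * (n / K : ℕ) →
      w ∈ Swal T v := by
  obtain ⟨A, B, h1, h2, h3, h4, h5⟩ := hB
  obtain ⟨a, b, ha, hb, hw⟩ := net_point (A := A) (B := B) hh hK hKn (by
    intro f hf
    apply hR
    rw [PlanarB.mem_RF] at hf ⊢
    omega)
  exact ⟨a, b, ha, hb, fun w hd => Or.inr (not_outer_of_enclV hu h5 (hw w hd))⟩

/-- **SN: bubbles.** -/
theorem bubble {δ ε : ℝ} (hδ : 0 < δ) (hε : 0 < ε) : ∃ K₀ : ℕ, ∀ K, K₀ ≤ K → ∃ N : ℕ,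
    ∀ n, N ≤ n → prB n {T | ∃ v ∈ Box n, δ * n ≤ Metric.diam (clS T v) ∧
      ∀ a b : ℕ, a < K + 2 → b < K + 2 → ∃ w : ℤ × ℤ,
        dist (toC w) (toC (((a * (n / K) : ℕ) : ℤ), ((b * (n / K) : ℕ) : ℤ))) ≤ 4 * (n / K : ℕ) ∧
        w ∉ Swal T v} ≤ ε := by
  classical
  obtain ⟨K₁, hK₁⟩ := bubbleC hδ (half_pos hε)
  obtain ⟨K₂, hK₂⟩ : ∃ K₂ : ℕ, K₂ = max K₁ 1 := ⟨_, rfl⟩
  have hK₂1 : 1 ≤ K₂ := hK₂ ▸ le_max_right _ _
  obtain ⟨N₁, hN₁⟩ := hK₁ K₂ (hK₂ ▸ le_max_left _ _)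
  obtain ⟨θ, C, hθ0, hθ1, hC, hbad⟩ := pr_badP
  -- the grid points
  obtain ⟨I, hI⟩ : ∃ I : Finset (ℤ × ℤ), I = Finset.Icc (-(4 * K₂ : ℤ)) (4 * K₂) ×ˢ
    Finset.Icc (-(4 * K₂ : ℤ)) (4 * K₂) := ⟨_, rfl⟩
  -- the number of scales
  obtain ⟨k, hk1, hk⟩ : ∃ k : ℕ, 1 ≤ k ∧ (I.card : ℝ) * (C * θ ^ k) ≤ ε / 2 := by
    obtain ⟨k, hk⟩ := exists_pow_lt_of_lt_one
      (show (0 : ℝ) < ε / 2 / ((I.card + 1) * C) by positivity) hθ1
    refine ⟨k + 1, by omega, ?_⟩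
    have h1 : θ ^ (k + 1) ≤ θ ^ k := pow_le_pow_of_le_one hθ0.le hθ1.le (by omega)
    rw [lt_div_iff₀ (by positivity)] at hk
    have h2 : (0 : ℝ) ≤ θ ^ k := by positivity
    have h3 : (I.card : ℝ) * (C * θ ^ (k + 1)) ≤ (I.card + 1) * (C * θ ^ k) := by
      refine mul_le_mul (by linarith) (mul_le_mul_of_nonneg_left h1 hC.le) (by positivity)
        (by positivity)
    nlinarith
  refine ⟨20 * 4 ^ k * K₂, fun K hK => ⟨max N₁ (K * K), fun n hn => ?_⟩⟩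
  have hn1 : N₁ ≤ n := (le_max_left _ _).trans hn
  have hn2 : K * K ≤ n := (le_max_right _ _).trans hn
  have hK0 : 0 < K := lt_of_lt_of_le (by positivity) hK
  have hKn : K ≤ n := le_trans (Nat.le_mul_self K) hn2
  -- the scales
  obtain ⟨h, hh⟩ : ∃ h : ℤ, h = (n / K : ℕ) := ⟨_, rfl⟩
  obtain ⟨L, hL⟩ : ∃ L : ℤ, L = (n / K₂ : ℕ) := ⟨_, rfl⟩
  have hh1 : 1 ≤ h := by
    have : 1 ≤ n / K := (Nat.le_div_iff_mul_le hK0).2 (by omega)
    omega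
  have hhL : 20 * 4 ^ k * h ≤ L := by
    have h1 : 20 * 4 ^ k * (n / K) ≤ n / K₂ := by
      rw [Nat.le_div_iff_mul_le (by omega)]
      calc 20 * 4 ^ k * (n / K) * K₂ = (20 * 4 ^ k * K₂) * (n / K) := by ring
        _ ≤ K * (n / K) := Nat.mul_le_mul_right _ hK
        _ ≤ n := Nat.mul_div_le n K
    rw [hh, hL]
    exact_mod_cast h1
  have h4k : (4 : ℤ) ≤ 4 ^ k := by
    calc (4 : ℤ) = 4 ^ 1 := by norm_num
      _ ≤ 4 ^ k := pow_le_pow_right₀ (by norm_num) hk1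
  have hL0 : 0 < L := by nlinarith
  have c1 : 2 * (4 ^ k * (10 * h)) ≤ L := by
    calc 2 * (4 ^ k * (10 * h)) = 20 * 4 ^ k * h := by ring
      _ ≤ L := hhL
  have c2 : 4 ^ k * (10 * h) + 2 * (10 * h) ≤ L := by nlinarith
  -- the event
  set E : Set Cfg := {ω | ∃ i ∈ I, RFb (L * i.1, L * i.2) (3 * L) ⊆ Sn n ∧
    ω ∈ BadP (L * i.1, L * i.2) L (10 * h)} with hE
  have hEdep : ∀ ω : Cfg, gT (cfgE n ω : Set Ed) ∈ E → ω ∈ E := by
    rintro ω ⟨i, hi, h1, h2⟩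
    refine ⟨i, hi, h1, ?_⟩
    refine (depOn_badP (m := 10 * h) hL0 _ _ fun f hf => ?_).1 h2
    obtain ⟨e, he, rfl⟩ := Finset.mem_image.1 (h1 (by exact_mod_cast hf))
    exact Pool.Agent.PercX60.gT_cfgE he
  have hprE : pr (Sn n) E ≤ ε / 2 := by
    have h1 : E ⊆ ⋃ i ∈ I, (if RFb (L * i.1, L * i.2) (3 * L) ⊆ Sn n then
        BadP (L * i.1, L * i.2) L (10 * h) else ∅) := by
      rintro ω ⟨i, hi, h2, h3⟩
      rw [Set.mem_iUnion₂]
      exact ⟨i, hi, by rw [if_pos h2]; exact h3⟩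
    refine (pr_mono _ h1).trans ((pr_biUnion_le (Sn n) I _).trans ?_)
    refine le_trans (Finset.sum_le_card_nsmul I _ (C * θ ^ k) fun i _ => ?_) ?_
    · split_ifs with h2
      · exact hbad _ L (10 * h) k (Sn n) (by omega) c1 c2 h2
      · have : pr (Sn n) (∅ : Set Cfg) = 0 := by
          rw [ProbA.pr_eq_sum]
          simp
        rw [this]
        positivity
    · rw [nsmul_eq_mul]
      exact hk
  -- the union bound
  have hsub : ∀ T ⊆ boxE n, T ∈ {T | ∃ v ∈ Box n, δ * n ≤ Metric.diam (clS T v) ∧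
      ∀ a b : ℕ, a < K + 2 → b < K + 2 → ∃ w : ℤ × ℤ,
        dist (toC w) (toC (((a * (n / K) : ℕ) : ℤ), ((b * (n / K) : ℕ) : ℤ))) ≤ 4 * (n / K : ℕ) ∧
        w ∉ Swal T v} → T ∈ {T | ∃ v ∈ Box n, δ * n ≤ Metric.diam (clS T v) ∧ ∀ u ∈ clV T v,
      ∀ i j : ℤ, RFb (((n / K₂ : ℕ) : ℤ) * i, ((n / K₂ : ℕ) : ℤ) * j)
        (3 * ((n / K₂ : ℕ) : ℤ)) ⊆ Sn n → ¬ CrAny (gT (T : Set Ed))
          (((n / K₂ : ℕ) : ℤ) * i, ((n / K₂ : ℕ) : ℤ) * j) ((n / K₂ : ℕ) : ℤ) (phiV u)} ∪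
        {T | gT (T : Set Ed) ∈ E} := by
    rintro T hT ⟨v, hv, hd, hw⟩
    by_contra hcon
    rw [Set.mem_union, not_or] at hcon
    obtain ⟨hcon1, hcon2⟩ := hcon
    apply hcon1
    refine ⟨v, hv, hd, fun u hu i j hij hcr => ?_⟩
    rw [← hL] at hij hcr
    have hnot : ¬ ∃ a b : ℕ, a < K + 2 ∧ b < K + 2 ∧ ∀ w : ℤ × ℤ,
        dist (toC w) (toC (((a * (n / K) : ℕ) : ℤ), ((b * (n / K) : ℕ) : ℤ))) ≤
          4 * (n / K : ℕ) → w ∈ Swal T v := by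
      rintro ⟨a, b, ha, hb, hab⟩
      obtain ⟨w, h1, h2⟩ := hw a b ha hb
      exact h2 (hab w h1)
    -- the grid point is in `I`
    have hiI : ((i, j) : ℤ × ℤ) ∈ I := by
      have hmem : ((L * i, L * j) : ℤ × ℤ) ∈ Sn n := by
        apply hij
        rw [mem_RFb]
        simp only
        omega
      obtain ⟨e, he, hee⟩ := Finset.mem_image.1 hmem
      rw [Pool.Agent.PercO.mem_boxE'] at he
      have hnL : (n : ℤ) < 2 * K₂ * L := by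
        have h1 := Nat.div_add_mod n K₂
        have h2 := Nat.mod_lt n (show 0 < K₂ by omega)
        have h3 : n < K₂ * (n / K₂) + K₂ := by omega
        have h4 : (n : ℤ) < K₂ * L + K₂ := by
          rw [hL]
          exact_mod_cast h3
        nlinarith
      have hb1 : -(2 * n : ℤ) ≤ L * i ∧ L * i ≤ 2 * n ∧ -(2 * n : ℤ) ≤ L * j ∧ L * j ≤ 2 * n := by
        obtain ⟨⟨x, y, t⟩, rfl⟩ : ∃ e', e' = e := ⟨_, rfl⟩
        simp only [Box, Finset.mem_product, Finset.mem_Icc, Pool.Agent.MP_6bd702.H23.ea_mk] at he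
        have hn0 : (1 : ℤ) ≤ n := by
          have : 1 ≤ n := by omega
          exact_mod_cast this
        cases t
        · simp only [phiE, Bool.false_eq_true, if_false, Prod.mk.injEq] at hee
          omega
        · simp only [phiE, if_true, Prod.mk.injEq] at hee
          omega
      rw [hI, Finset.mem_product, Finset.mem_Icc, Finset.mem_Icc]
      have hbd : ∀ i : ℤ, -(2 * n : ℤ) ≤ L * i → L * i ≤ 2 * n →
          -(4 * K₂ : ℤ) ≤ i ∧ i ≤ 4 * K₂ := by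
        intro i h1 h2
        constructor
        · by_contra hc
          have : i + 1 ≤ -(4 * K₂ : ℤ) := by omega
          nlinarith
        · by_contra hc
          have : (4 * K₂ : ℤ) + 1 ≤ i := by omega
          nlinarith
      exact ⟨hbd i hb1.1 hb1.2.1, hbd j hb1.2.2.1 hb1.2.2.2⟩
    have hbadn : gT (T : Set Ed) ∉ BadP (L * i, L * j) L (10 * h) := fun hb =>
      hcon2 ⟨(i, j), hiI, hij, hb⟩
    unfold BadP at hbadn
    simp only [Set.mem_union, not_or] at hbadn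
    obtain ⟨⟨b1, b2⟩, b3, b4⟩ := hbadn
    rcases hcr with hcr | hcr | hcr | hcr
    · have hB := not_exists_not_imp b1 hcr
      exact hnot (swal_of_bub hh hK0 hn2 hu ((rf_sub_rfb (L := L) (p := (L * i, L * j))
        (by simp only; omega) (by simp only; omega) (by simp only; omega)
        (by simp only; omega)).trans hij) hB)
    · have hB := not_exists_not_imp b2 hcr
      exact hnot (swal_of_bub hh hK0 hn2 hu ((rf_sub_rfb (L := L) (p := (L * i, L * j))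
        (by simp only; omega) (by simp only; omega) (by simp only; omega)
        (by simp only; omega)).trans hij) hB)
    · have hB := not_exists_not_imp b3 hcr
      exact hnot (swal_of_bub hh hK0 hn2 hu ((rf_sub_rfb (L := L) (p := (L * i, L * j))
        (by simp only; omega) (by simp only; omega) (by simp only; omega)
        (by simp only; omega)).trans hij) hB)
    · have hB := not_exists_not_imp b4 hcr
      exact hnot (swal_of_bub hh hK0 hn2 hu ((rf_sub_rfb (L := L) (p := (L * i, L * j))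
        (by simp only; omega) (by simp only; omega) (by simp only; omega)
        (by simp only; omega)).trans hij) hB)
  refine (Pool.Agent.PercX60.prB_mono hsub).trans ?_
  rw [← Pool.Agent.PercX60.pr_Sn]
  refine le_trans (pr_mono _ (B := {ω | cfgE n ω ∈ {T | ∃ v ∈ Box n,
      δ * n ≤ Metric.diam (clS T v) ∧ ∀ u ∈ clV T v,
      ∀ i j : ℤ, RFb (((n / K₂ : ℕ) : ℤ) * i, ((n / K₂ : ℕ) : ℤ) * j)
        (3 * ((n / K₂ : ℕ) : ℤ)) ⊆ Sn n → ¬ CrAny (gT (T : Set Ed))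
          (((n / K₂ : ℕ) : ℤ) * i, ((n / K₂ : ℕ) : ℤ) * j) ((n / K₂ : ℕ) : ℤ) (phiV u)}} ∪ E) ?_) ?_
  · rintro ω (h1 | h1)
    · exact Or.inl h1
    · exact Or.inr (hEdep ω h1)
  · refine (pr_union_le _ _ _).trans ?_
    rw [Pool.Agent.PercX60.pr_Sn]
    have := hN₁ n hn1
    linarith

end Pool.Agent.SixB
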