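import Pool.Agent.Lib.SixB.S8Caps
import Pool.Agent.Lib.SixB.S8Thick
import Pool.Agent.Lib.SixB.S8App

/-!
# Step 8: parity along a contour

At the time `t` let `cr E ω t a = 1` if the unit edge `a` is crossed by the strand up to the time `t`.
The vertices of the two sides of the strand are the vertices `v` with `Sd E ω t v`.

* `par_path`: a path of unit edges in a box without gate between two vertices of the sides; the strand
  may cross the path. The number of crossings is the sum of the colours of the ends.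
* `sum_cr`: the number of crossings of the contour of a polygon `P` is `1` if and only if exactly one of
  the faces `fb (E.p ω 0)` and `fa (E.p ω t)` is in `P`.
* `par_poly`: hence the sum of the defects of the contour is the difference of the two indicators.
* `gate_of_mem`: if every vertex of the contour of `P` has a vertex of the sides at distance at most `d`
  and the strand is in `P` then there is a gate near a vertex of the contour.
* `gate_of_app`: the same with an approximation `App U P κ d` at an earlier time.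

No hypothesis on the fresh component, on the walls (except `Wll`) or on the target.
-/

set_option autoImplicit false

namespace Pool.Agent.SixB.Par

open Finset Pool.Agent.Perc Pool.Agent.PercT Pool.Agent.Perc6 Pool.Agent.SixB
  Pool.Agent.SixB.NearCut Pool.Agent.SixB.Mv Pool.Agent.SixB.Top
open Pool.Agent.Perc.Tips (ahead rv)

/-! ### Walks with a crossing number -/

/-- A walk of unit edges of `Eg` from `x` to `y` with the sum `s` of the weights `χ`. -/
inductive Wk (Eg : Set UE) (χ : UE → ZMod 2) : ℤ × ℤ → ℤ × ℤ → ZMod 2 → Prop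
  | nil (x : ℤ × ℤ) : Wk Eg χ x x 0
  | cons {x y z : ℤ × ℤ} {a : UE} {s : ZMod 2} : a ∈ Eg → Joins a x y → Wk Eg χ y z s →
      Wk Eg χ x z (χ a + s)

section Walk

variable {Eg Eg' : Set UE} {χ : UE → ZMod 2} {x y z : ℤ × ℤ} {a : UE} {s s' : ZMod 2}

theorem Wk.mono (h : Wk Eg χ x y s) (hE : Eg ⊆ Eg') : Wk Eg' χ x y s := by
  induction h with
  | nil x => exact Wk.nil x
  | cons ha hj _ ih => exact Wk.cons (hE ha) hj ih

theorem Wk.single (ha : a ∈ Eg) (hj : Joins a x y) : Wk Eg χ x y (χ a) := by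
  have h := Wk.cons ha hj (Wk.nil (Eg := Eg) (χ := χ) y)
  rwa [add_zero] at h

theorem Wk.trans (h : Wk Eg χ x y s) (h' : Wk Eg χ y z s') : Wk Eg χ x z (s + s') := by
  induction h with
  | nil x => rwa [zero_add]
  | cons ha hj _ ih =>
    rw [add_assoc]
    exact Wk.cons ha hj (ih h')

theorem joins_swap {p q : ℤ × ℤ} (h : Joins a p q) : Joins a q p := by
  rcases h with ⟨h1, h2⟩ | ⟨h1, h2⟩
  · exact Or.inr ⟨h2, h1⟩
  · exact Or.inl ⟨h2, h1⟩

theorem Wk.symm (h : Wk Eg χ x y s) : Wk Eg χ y x s := by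
  induction h with
  | nil x => exact Wk.nil x
  | @cons x y z a s ha hj _ ih =>
    rw [add_comm]
    exact ih.trans (Wk.single ha (joins_swap hj))

/-- Two vertices of a box are joined by a walk in the box. -/
theorem wk_box (χ : UE → ZMod 2) {c : ℤ × ℤ} {R : ℤ} (hx1 : |x.1 - c.1| ≤ R) (hx2 : |x.2 - c.2| ≤ R)
    (hy1 : |y.1 - c.1| ≤ R) (hy2 : |y.2 - c.2| ≤ R) : ∃ s, Wk {a | InB c R a} χ x y s := by
  -- horizontal moves
  have key1 : ∀ n : ℕ, ∀ u v : ℤ × ℤ, v.1 = u.1 + n → v.2 = u.2 → |u.1 - c.1| ≤ R →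
      |v.1 - c.1| ≤ R → |u.2 - c.2| ≤ R → ∃ s, Wk {a | InB c R a} χ u v s := by
    intro n
    induction n with
    | zero =>
      intro u v h1 h2 _ _ _
      have : v = u := by
        refine Prod.ext ?_ h2
        simpa using h1
      exact ⟨0, this ▸ Wk.nil _⟩
    | succ n ih =>
      intro u v h1 h2 h3 h4 h5
      push_cast at h1
      rw [abs_le] at h3 h4 h5
      obtain ⟨s, hs⟩ := ih (u.1 + 1, u.2) v (by simp only; omega) h2 (by simp only [abs_le]; omega)
        (by rw [abs_le]; omega) (by simp only [abs_le]; omega)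
      refine ⟨_, Wk.cons (a := (u.1, u.2, false)) ?_ ?_ hs⟩
      · simp only [Set.mem_ofPred_eq, InB, InR, ua]
        omega
      · left
        simp [ua, ub]
  have key2 : ∀ n : ℕ, ∀ u v : ℤ × ℤ, v.2 = u.2 + n → v.1 = u.1 → |u.2 - c.2| ≤ R →
      |v.2 - c.2| ≤ R → |u.1 - c.1| ≤ R → ∃ s, Wk {a | InB c R a} χ u v s := by
    intro n
    induction n with
    | zero =>
      intro u v h1 h2 _ _ _
      have : v = u := by
        refine Prod.ext h2 ?_
        simpa using h1
      exact ⟨0, this ▸ Wk.nil _⟩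
    | succ n ih =>
      intro u v h1 h2 h3 h4 h5
      push_cast at h1
      rw [abs_le] at h3 h4 h5
      obtain ⟨s, hs⟩ := ih (u.1, u.2 + 1) v (by simp only; omega) h2 (by simp only [abs_le]; omega)
        (by rw [abs_le]; omega) (by simp only [abs_le]; omega)
      refine ⟨_, Wk.cons (a := (u.1, u.2, true)) ?_ ?_ hs⟩
      · simp only [Set.mem_ofPred_eq, InB, InR, ua]
        omega
      · left
        simp [ua, ub]
  have h1 : ∃ s, Wk {a | InB c R a} χ x (y.1, x.2) s := by
    rcases le_total x.1 y.1 with h | h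
    · exact key1 (y.1 - x.1).toNat x (y.1, x.2) (by simp only; omega) rfl hx1 hy1 hx2
    · obtain ⟨s, hs⟩ := key1 (x.1 - y.1).toNat (y.1, x.2) x (by simp only; omega) rfl hy1 hx1 hx2
      exact ⟨s, hs.symm⟩
  have h2 : ∃ s, Wk {a | InB c R a} χ (y.1, x.2) y s := by
    rcases le_total x.2 y.2 with h | h
    · exact key2 (y.2 - x.2).toNat (y.1, x.2) y (by simp only; omega) rfl hx2 hy2 hy1
    · obtain ⟨s, hs⟩ := key2 (x.2 - y.2).toNat y (y.1, x.2) (by simp only; omega) rfl hy2 hx2 hy1
      exact ⟨s, hs.symm⟩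
  obtain ⟨s1, g1⟩ := h1
  obtain ⟨s2, g2⟩ := h2
  exact ⟨_, g1.trans g2⟩

end Walk

/-! ### The parity of a path between the two sides -/

/-- The unit edge `a` is crossed up to the time `t`. -/
noncomputable def cr (E : Ex) (ω : Cfg) (t : ℕ) (a : UE) : ZMod 2 := ind2 (∃ l ≤ t, E.p ω l = a)

/-- The vertices of the two sides of the strand at the time `t`. -/
def Sd (E : Ex) (ω : Cfg) (t : ℕ) (v : ℤ × ℤ) : Prop := ∃ c : ℤ, (c = 0 ∨ c = 1) ∧ E.Sid c ω t v

/-- The colour of a vertex. -/
noncomputable def cl (v : ℤ × ℤ) : ZMod 2 := ind2 (par v = 1)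

section Parity

variable {E : Ex} {ω : Cfg} {c : ℤ} {r : ℤ} {s t : ℕ} {x y v z : ℤ × ℤ} {σ : ZMod 2}

theorem par01 (v : ℤ × ℤ) : par v = 0 ∨ par v = 1 := by
  unfold par
  omega

theorem sid_par (hc : c = 0 ∨ c = 1) (h : E.Sid c ω t v) : par v = c := by
  rw [← Conn.par_eq h, par_en hc]

theorem Sd.mono (h : Sd E ω s v) (hst : s ≤ t) : Sd E ω t v := by
  obtain ⟨c, hc, h1⟩ := h
  exact ⟨c, hc, h1.mono hst⟩

theorem Sd.sid (h : Sd E ω t v) : E.Sid (par v) ω t v := by
  obtain ⟨c, hc, h1⟩ := h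
  rwa [sid_par hc h1]

/-- Two vertices of the sides joined by an uncrossed path in a box without gate have the same
colour. -/
theorem par_eq_of_pth (hg : ¬ E.Gate ω t z r) (hx : Sd E ω t x) (hy : Sd E ω t y)
    (h : Pth {a | InB z r a ∧ ∀ l ≤ t, E.p ω l ≠ a} x y) : par x = par y := by
  rcases par01 x with h1 | h1 <;> rcases par01 y with h2 | h2
  · rw [h1, h2]
  · exact absurd ⟨x, y, h1 ▸ hx.sid, h2 ▸ hy.sid, h⟩ hg
  · exact absurd ⟨y, x, h2 ▸ hy.sid, h1 ▸ hx.sid, Pth.symm h⟩ hg
  · rw [h1, h2]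

theorem cl_add_one (hj : ∃ a, Joins a x y) : cl x = cl y + 1 := by
  obtain ⟨a, ha⟩ := hj
  have h := ha.par_ne
  have h1 : par x = 0 ∨ par x = 1 := par01 x
  have h2 : par y = 0 ∨ par y = 1 := par01 y
  unfold cl
  rcases h1 with h1 | h1 <;> rcases h2 with h2 | h2
  · exact absurd (h1.trans h2.symm) h
  · rw [ind2_neg (by omega), ind2_pos h2]; decide
  · rw [ind2_pos h1, ind2_neg (by omega)]; decide
  · exact absurd (h1.trans h2.symm) h

/-- The ends of a crossed unit edge are on the two sides. -/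
theorem sd_end {a : UE} (hl : ∃ l ≤ t, E.p ω l = a) (hj : Joins a x y) : Sd E ω t x := by
  obtain ⟨l, h1, rfl⟩ := hl
  have h2 : par x = 0 ∨ par x = 1 := par01 x
  refine ⟨par x, h2, ?_⟩
  have h3 : en (par x) (E.p ω l) = x := en_joins hj rfl
  rw [← h3, h3]
  have h4 := Ex.sid_strand (E := E) (ω := ω) h2 h1
  rwa [h3] at h4

/-- **Parity of a path.** -/
theorem par_path (hg : ¬ E.Gate ω t z r) (h : Wk {a | InB z r a} (cr E ω t) x y σ)
    (hx : Sd E ω t x) (hy : Sd E ω t y) : σ = cl x + cl y := by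
  have key : ∀ x₀, Sd E ω t x₀ → Pth {a | InB z r a ∧ ∀ l ≤ t, E.p ω l ≠ a} x₀ x →
      σ = cl x₀ + cl y := by
    clear hx
    induction h with
    | nil x =>
      intro x₀ h0 hp
      have := par_eq_of_pth hg h0 hy hp
      unfold cl
      rw [this, z2_add_self]
    | @cons x y' y a s ha hj hw ih =>
      intro x₀ h0 hp
      by_cases hcr : ∃ l ≤ t, E.p ω l = a
      · have hxs : Sd E ω t x := sd_end hcr hj
        have hys : Sd E ω t y' := sd_end hcr (joins_swap hj)
        have h1 := par_eq_of_pth hg h0 hxs hp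
        have h2 := ih hy y' hys Relation.ReflTransGen.refl
        have h3 : cl x₀ = cl x := by
          unfold cl
          rw [h1]
        rw [h2, h3, cl_add_one ⟨a, hj⟩]
        unfold cr
        rw [ind2_pos hcr]
        ring
      · have h1 : cr E ω t a = 0 := ind2_neg hcr
        rw [h1, zero_add]
        push Not at hcr
        exact ih hy x₀ h0 (Relation.ReflTransGen.tail hp ⟨a, ⟨ha, hcr⟩, hj⟩)
  exact key x hx Relation.ReflTransGen.refl

end Parity

/-! ### The crossings of a contour -/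

section Contour

variable {E : Ex} {ω : Cfg} {P : Set (ℤ × ℤ)} {A B : UE × Bool} {d r : ℤ} {m n s t : ℕ} {a : UE}
  {v w : ℤ × ℤ}

theorem bdU_iff (a : UE) : ind2 (BdU P a) = ind2 (fa a ∈ P) + ind2 (fb a ∈ P) := by
  have h1 : BdU P a ↔ ¬ (fa a ∈ P ↔ fb a ∈ P) := by
    constructor
    · rintro ⟨⟨f, hf, hfa⟩, g, hg, hga⟩ h
      rcases isSide_iff.1 hfa with rfl | rfl <;> rcases isSide_iff.1 hga with rfl | rfl
      · exact hg hf
      · exact hg (h.1 hf)
      · exact hg (h.2 hf)
      · exact hg hf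
    · intro h
      by_cases h2 : fa a ∈ P
      · exact ⟨⟨_, h2, isSide_fa a⟩, _, fun h3 => h ⟨fun _ => h3, fun _ => h2⟩, isSide_fb a⟩
      · have h3 : fb a ∈ P := by
          by_contra h3
          exact h ⟨fun h4 => absurd h4 h2, fun h4 => absurd h4 h3⟩
        exact ⟨⟨_, h3, isSide_fb a⟩, _, h2, isSide_fa a⟩
  rw [ind2_congr h1]
  by_cases h2 : fa a ∈ P <;> by_cases h3 : fb a ∈ P
  · rw [ind2_pos h2, ind2_pos h3, ind2_neg (fun h => h ⟨fun _ => h3, fun _ => h2⟩)]
    decide
  · rw [ind2_pos h2, ind2_neg h3, ind2_pos (fun h => h3 (h.1 h2))]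
    decide
  · rw [ind2_neg h2, ind2_pos h3, ind2_pos (fun h => h2 (h.2 h3))]
    decide
  · rw [ind2_neg h2, ind2_neg h3,
      ind2_neg (fun h => h ⟨fun h4 => absurd h4 h2, fun h4 => absurd h4 h3⟩)]
    decide

/-- The contour passes once through every boundary side. -/
theorem sum_one (hP : P.Finite) (hPc : Top.EConn P) (hPe : Esc P) (hC : Cyc P A m) (a : UE) :
    ∑ j ∈ range m, ind2 (a = (side P A j).1) = ind2 (BdU P a) := by
  classical
  by_cases ha : BdU P a
  · rw [ind2_pos ha]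
    obtain ⟨n, hn⟩ := contour_all hP hPc hPe hC.bd ha
    -- the index below `m`
    have hmod : ∀ n : ℕ, side P A n = side P A (n % m) := by
      intro n
      induction n using Nat.strong_induction_on with
      | _ n ih =>
        rcases Nat.lt_or_ge n m with h | h
        · rw [Nat.mod_eq_of_lt h]
        · have h1 : side P A n = side P A (n - m) := by
            have h2 : n = m + (n - m) := by omega
            conv_lhs => rw [h2]
            rw [side_add, hC.per]
          rw [h1, ih (n - m) (by have := hC.pos; omega), Nat.mod_eq_sub_mod h]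
    have hj : (side P A (n % m)).1 = a := by
      rw [← hmod]
      exact hn
    have hjm : n % m < m := Nat.mod_lt _ hC.pos
    rw [Finset.sum_eq_single (n % m)]
    · exact ind2_pos hj.symm
    · intro i hi hne
      refine ind2_neg fun h => hne ?_
      refine hC.inj i (Finset.mem_range.1 hi) _ hjm ?_
      exact (bd_side hC.bd i).eq_of_fst (bd_side hC.bd _) (h.symm.trans hj.symm)
    · intro h
      exact absurd (Finset.mem_range.2 hjm) h
  · rw [ind2_neg ha]
    refine Finset.sum_eq_zero fun j _ => ind2_neg fun h => ha ?_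
    rw [h]
    exact (bd_side hC.bd j).bdU

/-- **The number of crossings of a contour.** -/
theorem sum_cr (hP : P.Finite) (hPc : Top.EConn P) (hPe : Esc P) (hC : Cyc P A m)
    (hn : Nb (E.cf ω) (E.e ω) t) :
    ∑ j ∈ range m, cr E ω t (side P A j).1 =
      ind2 (fb (E.e ω) ∈ P) + ind2 (fa (E.p ω t) ∈ P) := by
  induction t with
  | zero =>
    have h1 : ∀ a, cr E ω 0 a = ind2 (E.e ω = a) := by
      intro a
      refine ind2_congr ⟨?_, fun h => ⟨0, le_rfl, h⟩⟩
      rintro ⟨l, hl, h⟩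
      have : l = 0 := by omega
      subst this
      exact h
    simp only [h1]
    rw [sum_one hP hPc hPe hC, bdU_iff, add_comm]
    rfl
  | succ t ih =>
    have h1 : ∀ a, cr E ω (t + 1) a = cr E ω t a + ind2 (E.p ω (t + 1) = a) := by
      intro a
      unfold cr
      by_cases h2 : E.p ω (t + 1) = a
      · have h3 : ¬ ∃ l ≤ t, E.p ω l = a := by
          rintro ⟨l, hl, h⟩
          have := hn.inj (i := l) (j := t + 1) (by omega) le_rfl (h.trans h2.symm)
          omega
        rw [ind2_neg h3, ind2_pos h2, ind2_pos ⟨t + 1, le_rfl, h2⟩, zero_add]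
      · rw [ind2_neg h2, add_zero]
        refine ind2_congr ⟨?_, fun ⟨l, hl, h⟩ => ⟨l, by omega, h⟩⟩
        rintro ⟨l, hl, h⟩
        rcases Nat.lt_or_ge l (t + 1) with h3 | h3
        · exact ⟨l, by omega, h⟩
        · have : l = t + 1 := by omega
          subst this
          exact absurd h h2
    simp only [h1, Finset.sum_add_distrib]
    rw [ih (hn.mono (by omega)), sum_one hP hPc hPe hC, bdU_iff]
    have h2 : fb (E.p ω (t + 1)) = fa (E.p ω t) := fb_pth_succ _ _ _
    rw [h2]
    generalize ind2 (fb (E.e ω) ∈ P) = x1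
    generalize ind2 (fa (E.p ω t) ∈ P) = x2
    generalize ind2 (fa (E.p ω (t + 1)) ∈ P) = x3
    revert x1 x2 x3
    decide

/-- **Parity along a contour.** `σ` is a function of the vertices, `ε j` is the defect of the side with
number `j`. -/
theorem par_poly (hP : P.Finite) (hPc : Top.EConn P) (hPe : Esc P) (hC : Cyc P A m)
    (hn : Nb (E.cf ω) (E.e ω) t) (σ : ℤ × ℤ → ZMod 2) (ε : ℕ → ZMod 2)
    (h : ∀ j < m, cr E ω t (side P A j).1 = σ (vert P A j) + σ (vert P A (j + 1)) + ε j) :
    ind2 (fa (E.p ω t) ∈ P) = ind2 (fb (E.e ω) ∈ P) + ∑ j ∈ range m, ε j := by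
  have h1 := sum_cr (E := E) (ω := ω) hP hPc hPe hC hn
  rw [Finset.sum_congr rfl fun j hj => h j (Finset.mem_range.1 hj), Finset.sum_add_distrib] at h1
  have h2 : ∀ k : ℕ, ∑ j ∈ range k, (σ (vert P A j) + σ (vert P A (j + 1))) =
      σ (vert P A 0) + σ (vert P A k) := by
    intro k
    induction k with
    | zero => rw [Finset.sum_range_zero, z2_add_self]
    | succ k ih =>
      rw [Finset.sum_range_succ, ih]
      generalize σ (vert P A 0) = x1
      generalize σ (vert P A k) = x2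
      generalize σ (vert P A (k + 1)) = x3
      revert x1 x2 x3
      decide
  have h3 : vert P A m = vert P A 0 := by
    unfold vert
    rw [hC.per]
    rfl
  rw [h2, h3, z2_add_self, zero_add] at h1
  rw [h1]
  generalize ind2 (fb (E.e ω) ∈ P) = x1
  generalize ind2 (fa (E.p ω t) ∈ P) = x2
  revert x1 x2
  decide

/-- A vertex of the sides near `v`. -/
def Anc (E : Ex) (ω : Cfg) (t : ℕ) (d : ℤ) (v : ℤ × ℤ) : Prop :=
  ∃ y, Sd E ω t y ∧ |y.1 - v.1| ≤ d ∧ |y.2 - v.2| ≤ d

theorem Anc.mono (h : Anc E ω s d v) (hst : s ≤ t) : Anc E ω t d v := by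
  obtain ⟨y, h1, h2⟩ := h
  exact ⟨y, h1.mono hst, h2⟩

theorem Anc.mono' {d' : ℤ} (h : Anc E ω t d v) (hd : d ≤ d') : Anc E ω t d' v := by
  obtain ⟨y, h1, h2, h3⟩ := h
  exact ⟨y, h1, h2.trans hd, h3.trans hd⟩

open Classical in
/-- The number of a vertex: the colour of a near vertex of the sides, plus the number of crossings on
the way. -/
noncomputable def sg (E : Ex) (ω : Cfg) (t : ℕ) (d : ℤ) (v : ℤ × ℤ) : ZMod 2 :=
  if h : ∃ y τ, Sd E ω t y ∧ Wk {a | InB v d a} (cr E ω t) v y τ then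
    h.choose_spec.choose + cl h.choose else 0

theorem sg_spec (h : Anc E ω t d v) : ∃ y τ, Sd E ω t y ∧ Wk {a | InB v d a} (cr E ω t) v y τ ∧
    sg E ω t d v = τ + cl y := by
  have hex : ∃ y τ, Sd E ω t y ∧ Wk {a | InB v d a} (cr E ω t) v y τ := by
    obtain ⟨y, h1, h2, h3⟩ := h
    have hd : 0 ≤ d := (abs_nonneg _).trans h2
    obtain ⟨τ, hτ⟩ := wk_box (cr E ω t) (x := v) (y := y) (c := v) (R := d) (by simpa using hd)
      (by simpa using hd) h2 h3
    exact ⟨y, τ, h1, hτ⟩
  refine ⟨hex.choose, hex.choose_spec.choose, hex.choose_spec.choose_spec.1,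
    hex.choose_spec.choose_spec.2, ?_⟩
  unfold sg
  rw [dif_pos hex]

private theorem z2_aux : ∀ τ τ' x0 x1 x2 : ZMod 2, τ + x0 + τ' = x1 + x2 →
    x0 = τ + x1 + (τ' + x2) := by
  decide

private theorem ua_ub0 (a : UE) : (ua a).1 ≤ (ub a).1 ∧ (ub a).1 ≤ (ua a).1 + 1 ∧
    (ua a).2 ≤ (ub a).2 ∧ (ub a).2 ≤ (ua a).2 + 1 := by
  obtain ⟨x, y, d⟩ := a
  cases d <;> simp [ua, ub]

theorem joins_near (hj : Joins a v w) : |w.1 - v.1| ≤ 1 ∧ |w.2 - v.2| ≤ 1 ∧
    (ua a = v ∨ ua a = w) := by
  have h1 := ua_ub0 a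
  rcases hj with ⟨rfl, rfl⟩ | ⟨rfl, rfl⟩ <;> simp only [abs_le] <;> refine ⟨?_, ?_, ?_⟩ <;>
    first | omega | simp

/-- A unit edge between two anchored vertices, in a box without gate. -/
theorem cr_eq (hj : Joins a v w) (hv : Anc E ω t d v) (hw : Anc E ω t d w)
    (hg : ¬ E.Gate ω t v (d + 1)) : cr E ω t a = sg E ω t d v + sg E ω t d w := by
  obtain ⟨y, τ, h1, h2, h3⟩ := sg_spec hv
  obtain ⟨y', τ', h1', h2', h3'⟩ := sg_spec hw
  have hd : 0 ≤ d := by
    obtain ⟨y, -, h, -⟩ := hv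
    exact (abs_nonneg _).trans h
  have hn := joins_near hj
  have e1 : {a | InB v d a} ⊆ {a | InB v (d + 1) a} := fun b hb => hb.mono (by omega)
  have e2 : {a | InB w d a} ⊆ {a | InB v (d + 1) a} := by
    intro b hb
    have hb' : InB w d b := hb
    have h1 := abs_le.1 hn.1
    have h2 := abs_le.1 hn.2.1
    show InB v (d + 1) b
    unfold InB InR at hb' ⊢
    omega
  have e3 : a ∈ {a | InB v (d + 1) a} := by
    show InB v (d + 1) a
    unfold InB InR
    rcases hn.2.2 with h | h <;> rw [h] <;> have h1 := abs_le.1 hn.1 <;>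
      have h2 := abs_le.1 hn.2.1 <;> omega
  have h4 := ((h2.mono e1).symm.trans (Wk.single e3 hj)).trans (h2'.mono e2)
  have h5 := par_path hg h4 h1 h1'
  rw [h3, h3']
  exact z2_aux _ _ _ _ _ h5

/-- **A strand in a polygon.** -/
theorem gate_of_mem (hP : P.Finite) (hPc : Top.EConn P) (hPe : Esc P) (hn : Nb (E.cf ω) (E.e ω) t)
    (hb : fb (E.e ω) ∉ P) (ha : ∀ B, BD P B → Anc E ω t d (lf B)) (ht : fa (E.p ω t) ∈ P) :
    ∃ B, BD P B ∧ E.Gate ω t (lf B) (d + 1) := by
  by_contra hno
  push Not at hno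
  -- a side of the contour
  obtain ⟨A, hA⟩ : ∃ A, BD P A := exists_boundary hP ⟨_, ht⟩
  obtain ⟨m, hC⟩ := exists_cyc hP hPc hPe hA
  have h1 := par_poly (E := E) (ω := ω) hP hPc hPe hC hn (sg E ω t d) (fun _ => 0) (fun j _ => by
    rw [add_zero]
    exact cr_eq (joins_side j) (ha _ (bd_side hC.bd j)) (ha _ (bd_side hC.bd (j + 1)))
      (hno _ (bd_side hC.bd j)))
  rw [ind2_pos ht, ind2_neg hb, Finset.sum_const_zero, add_zero] at h1
  exact absurd h1 (by decide)

end Contour

end Pool.Agent.SixB.Par
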