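import Pool.Agent.Lib.SixB.S8BadD
import Pool.Agent.Lib.SixB.S8Par
import Pool.Agent.Lib.SixB.S8Bubble

/-!
# Step 8: the two sides of the finished loop

Let `S` be the configuration of a step with base `a`, and `t` a time at which the whole loop has been
crossed. `Lft S a v`: the vertex `v` of the face grid is on the left of the loop (an odd vertex: the
face of the square lattice is outer; an even vertex: it is not in the hull of the cluster).

* `cr_lft`: a unit edge is crossed if and only if its ends are on different sides of the loop, so the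
  crossing number of every walk is the sum of the indicators of its ends (`wk_lft`);
* `sid_lft`: the vertices of the side `c` of the strand (at any time) are on the left iff `c = 1`;
* `kept_lft`: an unvisited fresh face is kept by the step iff a (every) corner is on the left;
* `kept_of_walk`: hence an unvisited fresh face which is joined to a vertex of the side `c` by a walk
  with crossing number `σ` is kept iff `c + σ = 1`;
* `no_gate`: there is no gate at the time `t`.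
-/

set_option autoImplicit false

namespace Pool.Agent.SixB.SideK

open Finset Pool.Agent.Perc Pool.Agent.PercU Pool.Agent.PercT Pool.Agent.PercX60
open Pool.Agent.PercO (Kc Tc Oc)
open Pool.Agent.MP_6bd702.H23 (Ed ea eb f1 f2)
open Pool.Agent.MP_6bd702.H60 (Out)
open Pool.Agent.SixB Pool.Agent.SixB.Rule Pool.Agent.SixB.Scan Pool.Agent.SixB.Dct Pool.Agent.SixB.Par
  Pool.Agent.SixB.NearCut

/-- The vertex `v` of the face grid is on the left of the loop. -/
def Lft (S : Set Ed) (a v : ℤ × ℤ) : Prop :=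
  (∃ w, phiV w = v ∧ w ∉ Hul S a) ∨ ∃ F, phiF F = v ∧ F ∈ Out (Tc S a)

section Lft

variable {S : Set Ed} {a w F v : ℤ × ℤ} {k : Cor}

theorem phiV_ne_phiF (w F : ℤ × ℤ) : phiV w ≠ phiF F := by
  intro h
  simp only [phiV, phiF, Prod.mk.injEq] at h
  omega

theorem phiV_inj' {w w' : ℤ × ℤ} (h : phiV w = phiV w') : w = w' := by
  obtain ⟨x, y⟩ := w
  obtain ⟨x', y'⟩ := w'
  simp only [phiV, Prod.mk.injEq] at h ⊢
  omega

theorem lft_phiV : Lft S a (phiV w) ↔ w ∉ Hul S a := by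
  constructor
  · rintro (⟨w', h1, h2⟩ | ⟨F, h1, -⟩)
    · rwa [← phiV_inj' h1]
    · exact absurd h1.symm (phiV_ne_phiF w F)
  · exact fun h => Or.inl ⟨w, rfl, h⟩

theorem lft_phiF : Lft S a (phiF F) ↔ F ∈ Out (Tc S a) := by
  constructor
  · rintro (⟨w', h1, -⟩ | ⟨F', h1, h2⟩)
    · exact absurd h1 (phiV_ne_phiF w' F)
    · rwa [← phiF_injective h1]
  · exact fun h => Or.inr ⟨F, rfl, h⟩

theorem notMem_hul : w ∉ Hul S a ↔ w ∉ Kc S a ∧ ∀ k : Cor, vtx k = w → fce k ∈ Out (Tc S a) := by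
  unfold Hul
  rw [Set.mem_ofPred_eq]
  push Not
  constructor
  · rintro ⟨h1, k, hk, hk'⟩
    exact ⟨h1, fun k' hk2 => out_of_notMem h1 hk hk2 hk'⟩
  · rintro ⟨h1, h2⟩
    exact ⟨h1, (w.1, w.2, true, true), rfl, h2 _ rfl⟩

/-- **The loop separates the sides**: the unit edge of the corner `k` is an edge of the loop iff its
ends are on different sides. -/
theorem mem_Oc_iff : k ∈ Oc S a ↔ ¬ (Lft S a (gV k) ↔ Lft S a (gF k)) := by
  unfold gV gF
  rw [lft_phiV, lft_phiF, notMem_hul]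
  constructor
  · rintro ⟨h1, h2⟩ h3
    exact (h3.2 h2).1 h1
  · intro h
    by_cases h2 : fce k ∈ Out (Tc S a)
    · refine ⟨?_, h2⟩
      by_contra h1
      exact h ⟨fun _ => h2, fun _ => ⟨h1, fun k' hk' => out_of_notMem h1 rfl hk' h2⟩⟩
    · exact absurd ⟨fun h3 => h3.2 k rfl, fun h3 => absurd h3 h2⟩ h

end Lft

/-- An odd bond of a face is a closed edge. -/
theorem bond_odd' {T : Set Ed} {e : Ed} {p q : ℤ × ℤ} (h : Bond (gT T) {phiE e} p q)
    (hp : par p = 1) : e ∉ T ∧ ((p = phiF (f1 e) ∧ q = phiF (f2 e)) ∨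
      (p = phiF (f2 e) ∧ q = phiF (f1 e))) := by
  rw [← Pool.Agent.PercX60.gT_phiE]
  obtain ⟨x, y, hf, h⟩ := h
  rw [Set.mem_singleton_iff] at hf
  rw [← hf]
  obtain ⟨a, b, _ | _⟩ := e
  · have h1 : phiF (f1 (a, b, false)) = (a + (b - 1) + 1, a - (b - 1)) := by simp [phiF, f1]
    have h2 : phiF (f2 (a, b, false)) = (a + b + 1, a - b) := by simp [phiF, f2]
    rw [h1, h2]
    simp only [phiE, Bool.false_eq_true, if_false, Prod.mk.injEq] at hf
    obtain ⟨rfl, rfl⟩ := hf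
    rcases h with ⟨ht, (⟨rfl, rfl⟩ | ⟨rfl, rfl⟩)⟩ | ⟨ht, (⟨rfl, rfl⟩ | ⟨rfl, rfl⟩)⟩
    · exfalso
      unfold par at hp
      simp only at hp
      omega
    · exfalso
      unfold par at hp
      simp only at hp
      omega
    · refine ⟨by rw [ht]; simp, Or.inl ⟨?_, ?_⟩⟩ <;>
        first | rfl | (rw [Prod.mk.injEq]; omega)
    · refine ⟨by rw [ht]; simp, Or.inr ⟨?_, ?_⟩⟩ <;>
        first | rfl | (rw [Prod.mk.injEq]; omega)
  · have h1 : phiF (f1 (a, b, true)) = (a - 1 + b + 1, a - 1 - b) := by simp [phiF, f1]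
    have h2 : phiF (f2 (a, b, true)) = (a + b + 1, a - b) := by simp [phiF, f2]
    rw [h1, h2]
    simp only [phiE, if_true, Prod.mk.injEq] at hf
    obtain ⟨rfl, rfl⟩ := hf
    rcases h with ⟨ht, (⟨rfl, rfl⟩ | ⟨rfl, rfl⟩)⟩ | ⟨ht, (⟨rfl, rfl⟩ | ⟨rfl, rfl⟩)⟩
    · refine ⟨by rw [ht]; simp, Or.inl ⟨?_, ?_⟩⟩ <;>
        first | rfl | (rw [Prod.mk.injEq]; omega)
    · refine ⟨by rw [ht]; simp, Or.inr ⟨?_, ?_⟩⟩ <;>
        first | rfl | (rw [Prod.mk.injEq]; omega)
    · exfalso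
      unfold par at hp
      simp only at hp
      omega
    · exfalso
      unfold par at hp
      simp only at hp
      omega

/-- A path of the face grid from an odd vertex is a path across closed edges. -/
theorem conn_gT_odd {T : Set Ed} {G : Set (ℤ × ℤ)} {F p a : ℤ × ℤ} (h : Conn (gT T) G (phiF F) p)
    (hF : F ∈ Out (Tc T a)) : ∃ F' ∈ Out (Tc T a), p = phiF F' := by
  induction h with
  | refl => exact ⟨F, hF, rfl⟩
  | @tail p q _ hb ih =>
    obtain ⟨F', h1, rfl⟩ := ih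
    obtain ⟨x, y, hf, hh⟩ := hb
    have hb' : Bond (gT T) {phiE (eE (x, y))} (phiF F') q := by
      rw [Pool.Agent.PercX60.phiE_eE]
      exact ⟨x, y, rfl, hh⟩
    obtain ⟨he, ⟨h3, h4⟩ | ⟨h3, h4⟩⟩ := bond_odd' hb' (par_phiF F')
    · refine ⟨_, ?_, h4⟩
      rw [phiF_injective h3] at h1
      exact MP_6bd702.H60.Out.of_conn (Relation.ReflTransGen.single
        ⟨_, fun h => he h.1, Or.inl ⟨rfl, rfl⟩⟩) h1
    · refine ⟨_, ?_, h4⟩
      rw [phiF_injective h3] at h1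
      exact MP_6bd702.H60.Out.of_conn (Relation.ReflTransGen.single
        ⟨_, fun h => he h.1, Or.inr ⟨rfl, rfl⟩⟩) h1

theorem ind2_xor (p q : Prop) : ind2 (¬ (p ↔ q)) = ind2 p + ind2 q := by
  unfold ind2
  by_cases hp : p <;> by_cases hq : q
  · rw [if_neg (fun h => h ⟨fun _ => hq, fun _ => hp⟩), if_pos hp, if_pos hq]
    rfl
  · rw [if_pos (fun h => hq (h.1 hp)), if_pos hp, if_neg hq]
    rfl
  · rw [if_pos (fun h => hp (h.2 hq)), if_neg hp, if_pos hq]
    rfl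
  · rw [if_neg (fun h => h ⟨fun h' => absurd h' hp, fun h' => absurd h' hq⟩), if_neg hp, if_neg hq]
    rfl

/-- The data of a finished step: the exploration `E` reads the configuration `S`, the first unit edge is
the one of the base corner `k₀`, and at the time `t` the whole loop is crossed. -/
structure Fin (E : Ex) (ω : Cfg) (n : ℕ) (U : Finset (ℤ × ℤ)) (Q : Finset Edg) (k₀ : Cor) (t : ℕ) :
    Prop where
  ndF : NdF U Q k₀
  inv : Rule.Inv n (cfgE n ω) U
  cf : E.cf ω = gT ((rst (cfgE n ω) U ∪ Q : Finset Edg) : Set Ed)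
  e : E.e ω = kU k₀
  all : ∀ l, ∃ l' ≤ t, E.p ω l' = E.p ω l

namespace Fin

variable {E : Ex} {ω : Cfg} {n : ℕ} {U : Finset (ℤ × ℤ)} {Q : Finset Edg} {k₀ : Cor} {s t : ℕ}
  {c : ℤ} {x y v z f : ℤ × ℤ} {a : UE} {σ : ZMod 2} {r : ℤ} (h : Fin E ω n U Q k₀ t)

omit h in
theorem cfg_sub (n : ℕ) (ω : Cfg) : cfgE n ω ⊆ boxE n := Finset.filter_subset _ _

include h

theorem crossed_iff {k : Cor} : (∃ l ≤ t, E.p ω l = kU k) ↔
    k ∈ Oc ((rst (cfgE n ω) U ∪ Q : Finset Edg) : Set Ed) (vtx k₀) := by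
  have hS := h.ndF.coe_sub (cfg_sub n ω) h.inv.sub
  have h0 := h.ndF.mem_Oc (cfg_sub n ω) h.inv
  have hp : ∀ l, E.p ω l = kU ((nxt ((rst (cfgE n ω) U ∪ Q : Finset Edg) : Set Ed))^[l] k₀) := by
    intro l
    unfold Ex.p
    rw [h.cf, h.e, kU_iterate]
  constructor
  · rintro ⟨l, -, hl⟩
    rw [hp l] at hl
    rw [← kU_injective hl]
    clear hl
    induction l with
    | zero => exact h0
    | succ l ih =>
      rw [Function.iterate_succ_apply']
      exact PercO.nxt_mem_Oc ih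
  · intro hk
    obtain ⟨j, hj⟩ := PercO.outer_orbit hS h0 hk
    obtain ⟨l', h1, h2⟩ := h.all j
    exact ⟨l', h1, by rw [h2, hp j, hj]⟩

/-- **A unit edge is crossed iff its ends are on different sides.** -/
theorem cr_lft (hj : Joins a x y) : cr E ω t a =
    ind2 (Lft ((rst (cfgE n ω) U ∪ Q : Finset Edg) : Set Ed) (vtx k₀) x) +
      ind2 (Lft ((rst (cfgE n ω) U ∪ Q : Finset Edg) : Set Ed) (vtx k₀) y) := by
  obtain ⟨k, rfl⟩ : ∃ k, kU k = a := ⟨uK a, kU_uK a⟩
  have h1 : cr E ω t (kU k) =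
      ind2 (Lft ((rst (cfgE n ω) U ∪ Q : Finset Edg) : Set Ed) (vtx k₀) (gV k)) +
      ind2 (Lft ((rst (cfgE n ω) U ∪ Q : Finset Edg) : Set Ed) (vtx k₀) (gF k)) := by
    unfold cr
    rw [h.crossed_iff, mem_Oc_iff]
    exact ind2_xor _ _
  rw [h1]
  rcases joins_kU k with ⟨e1, e2⟩ | ⟨e1, e2⟩ <;> rcases hj with ⟨rfl, rfl⟩ | ⟨rfl, rfl⟩ <;>
    rw [e1, e2]
  · exact add_comm _ _
  · exact add_comm _ _

/-- **The crossing number of a walk.** -/
theorem wk_lft {Eg : Set UE} (hw : Wk Eg (cr E ω t) x y σ) : σ =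
    ind2 (Lft ((rst (cfgE n ω) U ∪ Q : Finset Edg) : Set Ed) (vtx k₀) x) +
      ind2 (Lft ((rst (cfgE n ω) U ∪ Q : Finset Edg) : Set Ed) (vtx k₀) y) := by
  induction hw with
  | nil x => exact (CharTwo.add_self_eq_zero _).symm
  | @cons x y z a s ha hj _ ih =>
    rw [h.cr_lft hj, ih]
    have e := CharTwo.add_self_eq_zero
      (ind2 (Lft ((rst (cfgE n ω) U ∪ Q : Finset Edg) : Set Ed) (vtx k₀) y))
    linear_combination e

/-- **The vertices of the side `c` are on the left iff `c = 1`.** -/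
theorem sid_lft (hc : c = 0 ∨ c = 1) (hs : E.Sid c ω s y) :
    Lft ((rst (cfgE n ω) U ∪ Q : Finset Edg) : Set Ed) (vtx k₀) y ↔ c = 1 := by
  have h0 := h.ndF.mem_Oc (cfg_sub n ω) h.inv
  unfold Ex.Sid at hs
  rw [h.cf, h.e] at hs
  rcases hc with rfl | rfl
  · rw [en0_kU] at hs
    obtain ⟨w, h1, rfl⟩ := conn_gT hs
    rw [lft_phiV]
    constructor
    · intro h2
      exact absurd (Or.inl h1) h2
    · intro h2
      exact absurd h2 (by norm_num)
  · rw [en1_kU] at hs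
    obtain ⟨F, h1, rfl⟩ := conn_gT_odd hs h0.2
    rw [lft_phiF]
    exact ⟨fun _ => rfl, fun _ => h1⟩

/-- A face is visited by the loop. -/
theorem vis_iff : (∃ l ≤ t, fa (E.p ω l) = f) ↔
    f ∈ VF ((rst (cfgE n ω) U ∪ Q : Finset Edg) : Set Ed) (vtx k₀) := by
  rw [mem_VF_iff (h.ndF.coe_sub (cfg_sub n ω) h.inv.sub) (h.ndF.mem_Oc (cfg_sub n ω) h.inv)]
  constructor
  · rintro ⟨l, -, hl⟩
    refine ⟨l, ?_⟩
    rw [← hl]
    unfold Ex.p
    rw [h.cf, h.e]
  · rintro ⟨l, hl⟩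
    obtain ⟨l', h1, h2⟩ := h.all l
    refine ⟨l', h1, ?_⟩
    rw [h2, ← hl]
    unfold Ex.p
    rw [h.cf, h.e]

/-- **The criterion**: an unvisited fresh face is kept iff a corner is on the left. -/
theorem kept_lft (hf : f ∈ FU U) (hv : ∀ l ≤ t, fa (E.p ω l) ≠ f) (hx : Sq x f) :
    f ∈ FU (stpQ (cfgE n ω) U (Q, vtx k₀)) ↔
      Lft ((rst (cfgE n ω) U ∪ Q : Finset Edg) : Set Ed) (vtx k₀) x := by
  have hS := h.ndF.coe_sub (cfg_sub n ω) h.inv.sub
  have hv' : f ∉ VF ((rst (cfgE n ω) U ∪ Q : Finset Edg) : Set Ed) (vtx k₀) := by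
    rw [← h.vis_iff]
    rintro ⟨l, h1, h2⟩
    exact hv l h1 h2
  have odd : ∀ F, Sq (phiF F) f → (f ∈ FU (stpQ (cfgE n ω) U (Q, vtx k₀)) ↔
      Lft ((rst (cfgE n ω) U ∪ Q : Finset Edg) : Set Ed) (vtx k₀) (phiF F)) := by
    intro F hF
    rw [h.ndF.kept_iff (cfg_sub n ω) h.inv hf hv' hF, lft_phiF]
  by_cases hp : (x.1 + x.2) % 2 = 0
  · -- an even corner
    obtain ⟨w, rfl⟩ : ∃ w, phiV w = x := ⟨((x.1 + x.2) / 2, (x.1 - x.2) / 2), by
      refine Prod.ext ?_ ?_ <;> simp only [phiV] <;> omega⟩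
    obtain ⟨k, hk1, hk2, hk3⟩ := exists_corner_edge (F := f1 (eE f)) (eE f) (sq_phiV.1 hx)
      (Or.inl rfl)
    have hF : Sq (phiF (fce k)) f := by
      rw [hk2]
      exact sq_phiF.2 (Or.inl rfl)
    rw [odd _ hF]
    have h1 : k ∉ Oc ((rst (cfgE n ω) U ∪ Q : Finset Edg) : Set Ed) (vtx k₀) :=
      fun hk => hv' (mem_VF_of hS hk hk3)
    rw [mem_Oc_iff, not_not] at h1
    unfold gV gF at h1
    rw [hk1] at h1
    exact h1.symm
  · obtain ⟨F, rfl⟩ : ∃ F, phiF F = x := ⟨((x.1 + x.2 - 1) / 2, (x.1 - x.2 - 1) / 2), by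
      refine Prod.ext ?_ ?_ <;> simp only [phiF] <;> omega⟩
    exact odd F hx

/-- **Kept or removed**: the unvisited fresh face `f` with corner `x` is joined to a vertex of the side
`c` by a walk with crossing number `σ`. -/
theorem kept_of_walk {Eg : Set UE} (hc : c = 0 ∨ c = 1) (hs : E.Sid c ω s y)
    (hw : Wk Eg (cr E ω t) y x σ) (hf : f ∈ FU U) (hv : ∀ l ≤ t, fa (E.p ω l) ≠ f) (hx : Sq x f) :
    f ∈ FU (stpQ (cfgE n ω) U (Q, vtx k₀)) ↔ ind2 (c = 1) + σ = 1 := by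
  rw [h.kept_lft hf hv hx]
  have h1 := h.wk_lft hw
  have h2 : ind2 (Lft ((rst (cfgE n ω) U ∪ Q : Finset Edg) : Set Ed) (vtx k₀) y) =
      ind2 (c = 1) := by
    congr 1
    exact propext (h.sid_lft hc hs)
  rw [h2] at h1
  have h3 : ind2 (c = 1) + σ =
      ind2 (Lft ((rst (cfgE n ω) U ∪ Q : Finset Edg) : Set Ed) (vtx k₀) x) := by
    have e := CharTwo.add_self_eq_zero (ind2 (c = 1))
    linear_combination h1 + e
  rw [h3, ind2_eq_one]

/-- The unvisited fresh face is kept: side `1`, even crossing number. -/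
theorem kept_of_even {Eg : Set UE} (hs : E.Sid 1 ω s y) (hw : Wk Eg (cr E ω t) y x 0)
    (hf : f ∈ FU U) (hv : ∀ l ≤ t, fa (E.p ω l) ≠ f) (hx : Sq x f) :
    f ∈ FU (stpQ (cfgE n ω) U (Q, vtx k₀)) := by
  rw [h.kept_of_walk (Or.inr rfl) hs hw hf hv hx, add_zero]
  exact ind2_pos rfl

/-- The unvisited fresh face is removed: side `0`, even crossing number. -/
theorem removed_of_even {Eg : Set UE} (hs : E.Sid 0 ω s y) (hw : Wk Eg (cr E ω t) y x 0)
    (hf : f ∈ FU U) (hv : ∀ l ≤ t, fa (E.p ω l) ≠ f) (hx : Sq x f) :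
    f ∉ FU (stpQ (cfgE n ω) U (Q, vtx k₀)) := by
  rw [h.kept_of_walk (Or.inl rfl) hs hw hf hv hx, add_zero, ind2_neg (by norm_num)]
  exact zero_ne_one

/-- **No gate at the end of the loop.** -/
theorem no_gate : ¬ E.Gate ω t z r := by
  rintro ⟨v, w, h1, h2, h3⟩
  have e1 := (h.sid_lft (Or.inl rfl) h1).not.2 (by norm_num)
  have e2 := (h.sid_lft (Or.inr rfl) h2).2 rfl
  refine e1 ?_
  clear e1 h1 h2
  -- the side is constant along the path
  have key : ∀ u, Pth {a | InB z r a ∧ ∀ l ≤ t, E.p ω l ≠ a} v u →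
      (Lft ((rst (cfgE n ω) U ∪ Q : Finset Edg) : Set Ed) (vtx k₀) v ↔
        Lft ((rst (cfgE n ω) U ∪ Q : Finset Edg) : Set Ed) (vtx k₀) u) := by
    intro u hu
    induction hu with
    | refl => exact Iff.rfl
    | @tail u w _ hst ih =>
      obtain ⟨a, ha, hj⟩ := hst
      have h4 := h.cr_lft hj
      have h5 : cr E ω t a = 0 := by
        unfold cr
        refine ind2_neg ?_
        rintro ⟨l, hl, hl'⟩
        exact ha.2 l hl hl'
      rw [h5] at h4
      refine ih.trans ?_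
      by_cases h6 : Lft ((rst (cfgE n ω) U ∪ Q : Finset Edg) : Set Ed) (vtx k₀) u <;>
        by_cases h7 : Lft ((rst (cfgE n ω) U ∪ Q : Finset Edg) : Set Ed) (vtx k₀) w
      · exact ⟨fun _ => h7, fun _ => h6⟩
      · rw [ind2_pos h6, ind2_neg h7, add_zero] at h4
        exact absurd h4.symm one_ne_zero
      · rw [ind2_neg h6, ind2_pos h7, zero_add] at h4
        exact absurd h4.symm one_ne_zero
      · exact ⟨fun h' => absurd h' h6, fun h' => absurd h' h7⟩
  exact (key w h3).2 e2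

end Fin

/-! ### The instances -/

section Instances

open Pool.Agent.SixB.Tru

variable {ω : Cfg} {n : ℕ} {V : Finset (ℤ × ℤ)} {q : Rule.Ndl} {t : ℕ}

/-- After one period the whole loop is crossed. -/
theorem all_of_period {S : Set Ed} {k : Cor}
    (hp : 0 < Function.minimalPeriod (nxt S) k) (ht : Function.minimalPeriod (nxt S) k ≤ t + 1)
    (l : ℕ) : ∃ l' ≤ t, pth (gT S) (kU k) l' = pth (gT S) (kU k) l := by
  refine ⟨l % Function.minimalPeriod (nxt S) k, ?_, ?_⟩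
  · have := Nat.mod_lt l hp
    omega
  · rw [← kU_iterate, ← kU_iterate, Function.iterate_mod_minimalPeriod_eq]

/-- The running needle `q` in the remaining set `V`: the time `t` is after one period. -/
theorem fin_exS (hI : Rule.Inv n (cfgE n ω) V) (hk : ∃ k, NdF V q.1 k ∧ vtx k = q.2)
    (ht : Function.minimalPeriod
      (nxt ((rst (cfgE n ω) V ∪ q.1 : Finset Edg) : Set Ed)) (bc V q.1 q.2) ≤ t + 1) :
    Fin (exS V q) ω n V q.1 (bc V q.1 q.2) t := by
  have hN := (bc_spec hk).1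
  have hcf : (exS V q).cf ω = gT ((rst (cfgE n ω) V ∪ q.1 : Finset Edg) : Set Ed) :=
    (gT_cfg hI.sub q.1 ω).symm
  refine ⟨hN, hI, hcf, rfl, fun l => ?_⟩
  have h1 := all_of_period (hN.period_pos (Finset.filter_subset _ _) hI) ht l
  obtain ⟨l', h2, h3⟩ := h1
  refine ⟨l', h2, ?_⟩
  unfold Ex.p
  rw [hcf]
  exact h3

theorem stpQ_bc (hk : ∃ k, NdF V q.1 k ∧ vtx k = q.2) (T : Finset Edg) :
    stpQ T V (q.1, vtx (bc V q.1 q.2)) = stpQ T V q := by
  rw [(bc_spec hk).2]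

end Instances

end Pool.Agent.SixB.SideK
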