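import Pool.Agent.Lib.SixB.S8DeepC
import Pool.Agent.Lib.SixB.S8SideK
import Pool.Agent.Lib.SixB.S8LawW

/-!
# Step 8: the side of a deep face, for the exploration of a state

`side_deep` for the exploration `exS V q` of the needle `q` in the remaining set `V`: `C` is a finite set of
faces which is fresh at the time `s`, all the vertices of its boundary have anchors of colour `lam`; `T` is
the last time of the loop. Then a face `f` deep in `C` and off the base is not visited by the loop, and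
it is a face of the remaining set after the step if and only if `lam = 1`.
-/

set_option autoImplicit false

namespace Pool.Agent.SixB.Deep

open Finset Pool.Agent.Perc Pool.Agent.PercT Pool.Agent.Perc6 Pool.Agent.PercU Pool.Agent.SixB
  Pool.Agent.SixB.NearCut Pool.Agent.SixB.Mv Pool.Agent.SixB.Par Pool.Agent.SixB.Rule
  Pool.Agent.SixB.Dct Pool.Agent.SixB.SideK Pool.Agent.SixB.Tru
open Pool.Agent.MP_6bd702.H23 (Ed)
open Pool.Agent.PercX60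

variable {E : Ex} {ω : Cfg} {n : ℕ} {V : Finset (ℤ × ℤ)} {q : Rule.Ndl} {C : Finset (ℤ × ℤ)} {lam : ℤ}
  {s T : ℕ} {r R R₀ ρ ρ₁ ρ' : ℤ} {b₀ f x₀ : ℤ × ℤ}

theorem isCor_sq {f x : ℤ × ℤ} (h : IsCor f x) : Sq x f := by
  unfold IsCor at h
  unfold Sq
  omega

/-- **The side of a deep face** for a finished step. -/
theorem side_fin {Q : Finset Edg} {k₀ : Cor} (h : SideK.Fin E ω n V Q k₀ T) (hW : E.Wll ω)
    (hb : fb (E.e ω) ∉ E.U ω) (hn : Nb (E.cf ω) (E.e ω) T) (hsT : s ≤ T)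
    (hCF : (C : Set (ℤ × ℤ)) ⊆ E.Fr ω s) (hsC : fa (E.p ω s) ∉ C) (hlam : lam = 0 ∨ lam = 1)
    (hr : 0 ≤ r) (hrr : r + 1 ≤ ρ')
    (anc : ∀ v ∈ VB (C : Set (ℤ × ℤ)), ∃ y, E.Sid lam ω s y ∧
      Pth {a | InB v r a ∧ ∀ l ≤ s, E.p ω l ≠ a} v y)
    (hρ : ρ₁ + r + 2 ≤ ρ) (hρR : ρ ≤ R)
    (gs : ∀ a ∈ bdF C, ¬ Nb2 b₀ (ua a) ρ₁ → Nb2 b₀ (ua a) (R + ρ') → ¬ E.Gate ω s (ua a) (r + 1))
    (gt : ∀ l, s < l → l ≤ T → ∀ a ∈ bdF C, ¬ Nb2 b₀ (ua a) ρ₁ → E.Gate ω l (ua a) (r + 1) →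
      Nb2 (ua (E.p ω l)) (ua a) ρ')
    (hO : ¬ E.OneWall (1 - lam) ω s b₀ ρ R) (hf : f ∈ C) (hx : IsCor f x₀)
    (hdeep : ∀ v ∈ VB (C : Set (ℤ × ℤ)), ¬ Nb2 x₀ v R₀) (hR₀ : 2 * ρ' + 3 ≤ R₀)
    (hxb : ¬ Nb2 b₀ x₀ (R + ρ' + 2)) (hfV : f ∈ FU V) :
    (∀ l ≤ T, fa (E.p ω l) ≠ f) ∧ (f ∈ FU (stpQ (cfgE n ω) V (Q, vtx k₀)) ↔ lam = 1) := by
  have hS : ∀ a, cr E ω T a =
      ind2 (Lft ((rst (cfgE n ω) V ∪ Q : Finset Edg) : Set Ed) (vtx k₀) (ua a)) +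
      ind2 (Lft ((rst (cfgE n ω) V ∪ Q : Finset Edg) : Set Ed) (vtx k₀) (ub a)) :=
    fun a => h.cr_lft (Or.inl ⟨rfl, rfl⟩)
  obtain ⟨h1, h2⟩ := side_deep
    (Side := fun v => ind2 (Lft ((rst (cfgE n ω) V ∪ Q : Finset Edg) : Set Ed) (vtx k₀) v))
    hW hb hn hsT hCF hsC hlam hr hrr anc hρ hρR gs gt hO hf hx hdeep hR₀ hxb hS
    (fun c y hc hy => ind2_congr (h.sid_lft hc hy))
  refine ⟨h1, ?_⟩
  rw [h.kept_lft hfV h1 (isCor_sq hx)]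
  rcases hlam with rfl | rfl
  · rw [ind2_neg (by norm_num : ¬ (0 : ℤ) = 1)] at h2
    constructor
    · intro h3
      rw [ind2_pos h3] at h2
      exact absurd h2 (by decide)
    · intro h3
      exact absurd h3 (by norm_num)
  · rw [ind2_pos rfl] at h2
    exact ⟨fun _ => rfl, fun _ => ind2_eq_one.1 h2⟩

/-- **The side of a deep face for the exploration of a needle**: `T` is the last time of the loop. -/
theorem side_exS (hI : Rule.Inv n (cfgE n ω) V) (hk : ∃ k, NdF V q.1 k ∧ vtx k = q.2)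
    (hT : T + 1 = Function.minimalPeriod
      (nxt ((rst (cfgE n ω) V ∪ q.1 : Finset Edg) : Set Ed)) (bc V q.1 q.2)) (hsT : s ≤ T)
    (hCF : (C : Set (ℤ × ℤ)) ⊆ (exS V q).Fr ω s) (hsC : fa ((exS V q).p ω s) ∉ C)
    (hlam : lam = 0 ∨ lam = 1) (hr : 0 ≤ r) (hrr : r + 1 ≤ ρ')
    (anc : ∀ v ∈ VB (C : Set (ℤ × ℤ)), ∃ y, (exS V q).Sid lam ω s y ∧
      Pth {a | InB v r a ∧ ∀ l ≤ s, (exS V q).p ω l ≠ a} v y)
    (hρ : ρ₁ + r + 2 ≤ ρ) (hρR : ρ ≤ R)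
    (gs : ∀ a ∈ bdF C, ¬ Nb2 b₀ (ua a) ρ₁ → Nb2 b₀ (ua a) (R + ρ') →
      ¬ (exS V q).Gate ω s (ua a) (r + 1))
    (gt : ∀ l, s < l → l ≤ T → ∀ a ∈ bdF C, ¬ Nb2 b₀ (ua a) ρ₁ →
      (exS V q).Gate ω l (ua a) (r + 1) → Nb2 (ua ((exS V q).p ω l)) (ua a) ρ')
    (hO : ¬ (exS V q).OneWall (1 - lam) ω s b₀ ρ R) (hf : f ∈ C) (hx : IsCor f x₀)
    (hdeep : ∀ v ∈ VB (C : Set (ℤ × ℤ)), ¬ Nb2 x₀ v R₀) (hR₀ : 2 * ρ' + 3 ≤ R₀)
    (hxb : ¬ Nb2 b₀ x₀ (R + ρ' + 2)) :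
    (∀ l ≤ T, fa ((exS V q).p ω l) ≠ f) ∧ (f ∈ FU (stpQ (cfgE n ω) V q) ↔ lam = 1) := by
  have hF := fin_exS hI hk hT.ge
  have hcf : (exS V q).cf ω = gT ((rst (cfgE n ω) V ∪ q.1 : Finset Edg) : Set Ed) := hF.cf
  have hn : Nb ((exS V q).cf ω) ((exS V q).e ω) T := by
    intro l hl hl' h
    rw [hcf] at h
    have h' : pth (gT ((rst (cfgE n ω) V ∪ q.1 : Finset Edg) : Set Ed)) (kU (bc V q.1 q.2)) l =
      kU (bc V q.1 q.2) := h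
    rw [← kU_iterate] at h'
    have h1 := kU_injective h'
    have h2 : Function.IsPeriodicPt (nxt ((rst (cfgE n ω) V ∪ q.1 : Finset Edg) : Set Ed)) l
      (bc V q.1 q.2) := h1
    have h3 := h2.minimalPeriod_le hl
    omega
  have hfV : f ∈ FU V := ((hCF hf).1).1
  have h := side_fin hF (wll_exS hI hk) (fb_eS' hk) hn hsT hCF hsC hlam hr hrr anc hρ hρR gs gt hO hf
    hx hdeep hR₀ hxb hfV
  rwa [stpQ_bc hk] at h

/-- **Two pairs of radii at the base.** The gates at all times from `s` on are near the tip or near `b₀`;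
there is no passage with one colour for the pairs `(ρa, Ra)` and `(ρb, Rb)`. -/
theorem side_exS2 {ρa Ra ρb Rb : ℤ} (hI : Rule.Inv n (cfgE n ω) V)
    (hk : ∃ k, NdF V q.1 k ∧ vtx k = q.2)
    (hT : T + 1 = Function.minimalPeriod
      (nxt ((rst (cfgE n ω) V ∪ q.1 : Finset Edg) : Set Ed)) (bc V q.1 q.2)) (hsT : s ≤ T)
    (hCF : (C : Set (ℤ × ℤ)) ⊆ (exS V q).Fr ω s) (hsC : fa ((exS V q).p ω s) ∉ C)
    (hlam : lam = 0 ∨ lam = 1) (hr : 0 ≤ r) (hrr : r + 1 ≤ ρ')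
    (anc : ∀ v ∈ VB (C : Set (ℤ × ℤ)), ∃ y, (exS V q).Sid lam ω s y ∧
      Pth {a | InB v r a ∧ ∀ l ≤ s, (exS V q).p ω l ≠ a} v y)
    (hG : ∀ l, s ≤ l → l ≤ T → ∀ v, (exS V q).Gate ω l v (r + 1) →
      Nb2 (ua ((exS V q).p ω l)) v ρ' ∨ Nb2 b₀ v ρ₁)
    (ha : ρ₁ + r + 2 ≤ ρa) (ha' : ρa ≤ Ra) (hb : Ra + 3 * ρ' + r + 2 ≤ ρb) (hb' : ρb ≤ Rb)
    (hOa : ¬ (exS V q).OneWall (1 - lam) ω s b₀ ρa Ra)
    (hOb : ¬ (exS V q).OneWall (1 - lam) ω s b₀ ρb Rb) (hf : f ∈ C) (hx : IsCor f x₀)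
    (hdeep : ∀ v ∈ VB (C : Set (ℤ × ℤ)), ¬ Nb2 x₀ v R₀) (hR₀ : 2 * ρ' + 3 ≤ R₀)
    (hxb : ¬ Nb2 b₀ x₀ (Rb + ρ' + 2)) :
    (∀ l ≤ T, fa ((exS V q).p ω l) ≠ f) ∧ (f ∈ FU (stpQ (cfgE n ω) V q) ↔ lam = 1) := by
  by_cases hτ : Nb2 b₀ (ua ((exS V q).p ω s)) (Ra + 2 * ρ')
  · -- the tip of the time `s` is near the base: the outer pair
    refine side_exS hI hk hT hsT hCF hsC hlam hr hrr anc (ρ₁ := Ra + 3 * ρ') (ρ := ρb) (R := Rb)
      (by omega) hb' ?_ ?_ hOb hf hx hdeep hR₀ hxb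
    · intro a _ h1 _ h3
      rcases hG s le_rfl hsT _ h3 with h4 | h4
      · refine h1 ?_
        have e1 := abs_le.1 hτ.1
        have e2 := abs_le.1 hτ.2
        have e3 := abs_le.1 h4.1
        have e4 := abs_le.1 h4.2
        unfold Nb2
        rw [abs_le, abs_le]
        omega
      · refine h1 ?_
        exact ⟨h4.1.trans (by omega), h4.2.trans (by omega)⟩
    · intro l hl hlT a _ h1 h3
      rcases hG l hl.le hlT _ h3 with h4 | h4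
      · exact h4
      · exact absurd ⟨h4.1.trans (by omega), h4.2.trans (by omega)⟩ h1
  · -- the inner pair
    refine side_exS hI hk hT hsT hCF hsC hlam hr hrr anc (ρ₁ := ρ₁) (ρ := ρa) (R := Ra)
      ha ha' ?_ ?_ hOa hf hx hdeep hR₀ ?_
    · intro a _ h1 h2 h3
      rcases hG s le_rfl hsT _ h3 with h4 | h4
      · refine hτ ?_
        have e1 := abs_le.1 h2.1
        have e2 := abs_le.1 h2.2
        have e3 := abs_le.1 h4.1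
        have e4 := abs_le.1 h4.2
        unfold Nb2
        rw [abs_le, abs_le]
        omega
      · exact h1 h4
    · intro l hl hlT a _ h1 h3
      rcases hG l hl.le hlT _ h3 with h4 | h4
      · exact h4
      · exact absurd h4 h1
    · intro h
      exact hxb ⟨h.1.trans (by omega), h.2.trans (by omega)⟩

/-- The box form of depth: all faces at distance at most `D` from `f` are in `C`. -/
theorem deep_of_box {D : ℤ} (h : ∀ g : ℤ × ℤ, Nb2 f g D → g ∈ C) (hx : IsCor f x₀) :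
    ∀ v ∈ VB (C : Set (ℤ × ℤ)), ¬ Nb2 x₀ v (D - 1) := by
  rintro v ⟨a, ⟨-, g, hg, hga⟩, hv⟩ hn
  refine hg (Finset.mem_coe.2 (h g ?_))
  have h1 := abs_le.1 hn.1
  have h2 := abs_le.1 hn.2
  have h3 : g.1 ≤ v.1 ∧ v.1 ≤ g.1 + 1 ∧ g.2 ≤ v.2 ∧ v.2 ≤ g.2 + 1 := by
    rcases hv with rfl | rfl <;> rcases hga with rfl | rfl | rfl | rfl <;>
      simp [ua, ub, bo, le', to', ri]
  unfold IsCor at hx
  unfold Nb2
  rw [abs_le, abs_le]
  omega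

end Pool.Agent.SixB.Deep
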