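import Pool.Agent.Lib.SixB.S8FinD
import Pool.Agent.Lib.SixB.S8DeepK

/-!
# Step 8: row SIDE, the instance for the coverage

* `vb_far`: the vertices of the boundary of a blown-up set are far from a deep face;
* `base_far`: the base is far from a deep face of a fresh set;
* `AncC`: a component with anchors of one colour;
* `sideX_of`: the field `side` of the coverage.
-/

set_option autoImplicit false

namespace Pool.Agent.SixB.Cov

open Pool.Agent.Perc Pool.Agent.Perc6 Pool.Agent.PercT Pool.Agent.PercX60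
open Pool.Agent.SixB Pool.Agent.SixB.Rule Pool.Agent.SixB.Dct Pool.Agent.SixB.Mv
open Pool.Agent.SixB.Tru
open Pool.Agent.SixB.Top (compT BD)
open Pool.Agent.SixB.Ndle (sd)
open Pool.Agent.SixB.NearCut Pool.Agent.SixB.Par
open Pool.Agent.SixB.Near (AtE)
open Pool.Agent.Perc.Tips (ahead)

theorem div_near {u B a b : ℤ} (hu : 0 < u) (h : |a - b| ≤ u * (B - 1)) : |a / u - b / u| < B := by
  rw [abs_le] at h
  have h1 := Int.mul_ediv_add_emod a u
  have h2 := Int.mul_ediv_add_emod b u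
  have h3 := Int.emod_nonneg a hu.ne'
  have h4 := Int.emod_lt_of_pos a hu
  have h5 := Int.emod_nonneg b hu.ne'
  have h6 := Int.emod_lt_of_pos b hu
  rw [abs_lt]
  constructor
  · by_contra h7
    have h8 : u * (a / u - b / u) ≤ u * (-B) := mul_le_mul_of_nonneg_left (by linarith) hu.le
    nlinarith [h.1]
  · by_contra h7
    have h8 : u * B ≤ u * (a / u - b / u) := mul_le_mul_of_nonneg_left (by linarith) hu.le
    nlinarith [h.2]

/-- A face near a deep face is in the set. -/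
theorem mem_of_near {u B R : ℤ} {Y : Set (ℤ × ℤ)} {z f g : ℤ × ℤ} (hu : 0 < u)
    (hf : Blow.cl u f = z) (hbox : ∀ c, sd c z < B → c ∈ Y) (hR : R ≤ u * (B - 1))
    (h1 : |g.1 - f.1| ≤ R) (h2 : |g.2 - f.2| ≤ R) : g ∈ blow u Y := by
  refine Blow.mem_blow.2 (hbox _ ?_)
  subst hf
  exact max_lt (div_near hu (h1.trans hR)) (div_near hu (h2.trans hR))

theorem side_box {g v : ℤ × ℤ} {a : UE} (h : IsSide g a) (hv : AtE v a) :
    g.1 ≤ v.1 ∧ v.1 ≤ g.1 + 1 ∧ g.2 ≤ v.2 ∧ v.2 ≤ g.2 + 1 := by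
  obtain ⟨x, y⟩ := g
  rcases h with rfl | rfl | rfl | rfl <;> rcases hv with rfl | rfl <;> simp [bo, le', to', ri, ua, ub]

/-- The vertices of the boundary are far from a deep face. -/
theorem vb_far {u B R : ℤ} {Y : Set (ℤ × ℤ)} {z f x v : ℤ × ℤ} (hu : 0 < u)
    (hf : Blow.cl u f = z) (hbox : ∀ c, sd c z < B → c ∈ Y) (hx : IsCor f x)
    (hv : v ∈ VB (blow u Y)) (hR : R + 2 ≤ u * (B - 1)) : ¬ Nb2 x v R := by
  rintro ⟨h1, h2⟩
  obtain ⟨a, ⟨-, g, hg, hga⟩, hva⟩ := hv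
  have h3 := side_box hga hva
  unfold IsCor at hx
  rw [abs_le] at h1 h2
  refine hg (mem_of_near hu hf hbox hR ?_ ?_) <;> rw [abs_le] <;> omega

/-- The base is far from a deep face. -/
theorem base_far {u B R : ℤ} {Y U : Set (ℤ × ℤ)} {z f x : ℤ × ℤ} {e : UE} (hu : 0 < u)
    (hf : Blow.cl u f = z) (hbox : ∀ c, sd c z < B → c ∈ Y) (hx : IsCor f x)
    (hU : blow u Y ⊆ U) (he : fb e ∉ U) (hR : R + 2 ≤ u * (B - 1)) : ¬ Nb2 (ua e) x R := by
  rintro ⟨h1, h2⟩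
  have h3 := side_box (isSide_fb e) (Or.inl rfl : AtE (ua e) e)
  unfold IsCor at hx
  rw [abs_le] at h1 h2
  refine he (hU (mem_of_near hu hf hbox hR ?_ ?_)) <;> rw [abs_le] <;> omega

/-! ### The instance -/

/-- The set `C` is fresh at the time `t` and all the vertices of its boundary have anchors of colour
`lam`. -/
structure AncC (V : Finset (ℤ × ℤ)) (q : Rule.Ndl) (ω : Cfg) (lam : ℤ) (t : ℕ) (r : ℤ)
    (C : Set (ℤ × ℤ)) : Prop where
  fin : C.Finite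
  sub : C ⊆ (exS V q).Fr ω t
  tip : fa (pS V q ω t) ∉ C
  anc : ∀ v ∈ VB C, ∃ y, (exS V q).Sid lam ω t y ∧
    Pth {a | InB v r a ∧ ∀ l ≤ t, pS V q ω l ≠ a} v y

section Inst

open Pool.Agent.PercU (nxt vtx)
open Pool.Agent.MP_6bd702.H23 (Ed)

variable {𝔇 : Dat} {d : ℕ → ℕ} {n T t : ℕ} {s : TS} {q : Rule.Ndl} {D : Dom} {ρ : Rec} {ω : Cfg}
  {B A r ρ' ρa Ra ρb Rb : ℤ} {x : ℤ × ℤ}

/-- **The field `side` of the coverage.** -/
theorem sideX_of (hu : 0 < unt d n) (hI : Rule.Inv n (cfgE n ω) s.V)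
    (hk : ∃ k, NdF s.V q.1 k ∧ vtx k = q.2)
    (hT : T + 1 = Function.minimalPeriod
      (nxt ((rst (cfgE n ω) s.V ∪ q.1 : Finset Edg) : Set Ed)) (bc s.V q.1 q.2)) (htT : t ≤ T)
    (hC : RgtC D (𝔇.gr d s.x D) ρ (Blow.cl (unt d n) x) → AncC s.V q ω 0 t r
      (blow (unt d n : ℤ) (compT (D.P \ D.rem (𝔇.gr d s.x D) ρ) (Blow.cl (unt d n) x))))
    (hr : 0 ≤ r) (hrr : r + 1 ≤ ρ')
    (hg : ∀ l, t ≤ l → l ≤ T → ∀ z, (exS s.V q).Gate ω l z (r + 1) →
      Nb2 (ua ((exS s.V q).p ω l)) z ρ' ∨ Nb2 (ua (eS s.V q)) z ρ')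
    (h1 : ρ' + r + 2 ≤ ρa) (h2 : ρa ≤ Ra) (h3 : Ra + 3 * ρ' + r + 2 ≤ ρb) (h4 : ρb ≤ Rb)
    (hOa : ¬ (exS s.V q).OneWall 1 ω t (ua (eS s.V q)) ρa Ra)
    (hOb : ¬ (exS s.V q).OneWall 1 ω t (ua (eS s.V q)) ρb Rb)
    (hB : Rb + ρ' + 4 ≤ unt d n * (B - 1)) (hA : 0 ≤ A) : SideX 𝔇 d n s q D ρ ω B A x := by
  intro hR hbox hall
  have hu' : (0 : ℤ) < unt d n := by exact_mod_cast hu
  have hAn := hC hR
  have hρ' : 0 ≤ ρ' := by omega
  set C : Finset (ℤ × ℤ) := hAn.fin.toFinset with hCdef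
  have hCs : (C : Set (ℤ × ℤ)) = blow (unt d n : ℤ)
      (compT (D.P \ D.rem (𝔇.gr d s.x D) ρ) (Blow.cl (unt d n) x)) := by
    rw [hCdef, Set.Finite.coe_toFinset]
  have hB0 : 0 < B := by
    by_contra h
    have : (unt d n : ℤ) * (B - 1) ≤ 0 := mul_nonpos_of_nonneg_of_nonpos hu'.le (by omega)
    omega
  have hxC : x ∈ C := by
    rw [← Finset.mem_coe, hCs]
    refine Blow.mem_blow.2 (hbox _ ?_)
    simpa [sd] using hB0
  have hxx : IsCor x x := ⟨Or.inl rfl, Or.inl rfl⟩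
  have hfb := fb_eS' hk
  have hres := Deep.side_exS2 (C := C) (lam := 0) (b₀ := ua (eS s.V q)) (ρ₁ := ρ')
    (R₀ := unt d n * (B - 1) - 2) hI hk hT htT (by rw [hCs]; exact hAn.sub)
    (by
      rw [← Finset.mem_coe, hCs]
      exact hAn.tip)
    (Or.inl rfl) hr hrr
    (by
      rw [hCs]
      exact hAn.anc)
    hg h1 h2 h3 h4 hOa hOb hxC hxx
    (fun v hv => by
      rw [hCs] at hv
      exact vb_far hu' rfl hbox hxx hv (by omega))
    (by omega)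
    (by
      refine base_far hu' rfl hbox hxx (hAn.sub.trans fun f hf => hf.1) hfb (by omega))
  have h5 := hres.2.1 (hall x (by simpa [sd] using hA))
  omega

end Inst

end Pool.Agent.SixB.Cov
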