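import Pool.Agent.Lib.SixB.S8AncR
import Pool.Agent.Lib.SixB.S8AncVB
import Pool.Agent.Lib.SixB.S8Inv
import Pool.Agent.Lib.SixB.S8LawW
import Pool.Agent.Lib.SixB.S8ParSum
import Pool.Agent.Lib.SixB.S8FinH
import Pool.Agent.Lib.SixB.S8KeptW
import Pool.Agent.Lib.SixB.S8SideI

/-!
# Step 8: the anchors of a lost component at the time of its loss, in the names of the chain

* `RunB.exq`: the true state of a stage for the exploration `exS`;
* `anc_reg`, `anc_vd`, **`anc_comp`**: a component of the rest of `P` without the target is fresh at the end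
  of the stage, does not contain the face in front of the strand, and all the vertices of its boundary are
  joined to the side of one colour by short walks which are not crossed up to the end of the stage (regular
  stage, void stage, end of the step);
* **`rgt_anc`**: colour `0` on the right of the strand; **`lef_anc`**: colour `1` for a stored component;
* `tst_rgt`, `tst_lef`: the same for a stage of the chain; `tst_lefK`: the stored part at the closing time.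
-/

set_option autoImplicit false

namespace Pool.Agent.SixB.Tru

open Finset Pool.Agent.Perc Pool.Agent.Perc6 Pool.Agent.PercT Pool.Agent.Perc6.C2Aux
open Pool.Agent.SixB Pool.Agent.SixB.Rule Pool.Agent.SixB.Dct Pool.Agent.SixB.Mv
open Pool.Agent.SixB.NearCut
open Pool.Agent.SixB.Blow (subE lf_subE_zero)
open Pool.Agent.SixB.Top (compT ChI lf rg compT_eq compT_sub capC BD exists_BD lf_sc joins_lf_rg
  self_mem_compT isCor_in_lf)
open Pool.Agent.Perc.Tips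

variable {𝔇 : Dat} {d : ℕ → ℕ} {n : ℕ} {r lam : ℤ} {s : TS} {ω : Cfg} {q : Rule.Ndl} {D : Dom}
  {κ : ℤ × ℤ → ℤ × ℤ} {m x : ℕ} {v z c : ℤ × ℤ} {y : UE × Bool} {ρ : Rec}

/-- Every vertex of the boundary is the left end of a boundary side. -/
theorem vb_lf {C : Set (ℤ × ℤ)} (h : v ∈ Par.VB C) : ∃ B, BD C B ∧ lf B = v := by
  obtain ⟨a, ha, hv⟩ := h
  obtain ⟨e, he⟩ := exists_BD ha
  have hj := joins_lf_rg (a, e)
  have h1 : v = lf (a, e) ∨ v = rg (a, e) := by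
    rcases hj with ⟨h2, h3⟩ | ⟨h2, h3⟩ <;> rcases hv with rfl | rfl <;> simp_all
  rcases h1 with h1 | h1
  · exact ⟨_, he, h1.symm⟩
  · exact ⟨_, he.step, by rw [lf_sc, h1]⟩

/-- The faces near the tip side are in one cell. -/
theorem cell_sqA {u : ℕ} {l R : ℤ} {g : Grd} (hu : 0 < u) (hL : 0 < g.L)
    (h : OffL g.a g.b g.L l D.tip) (hR : R + 2 ≤ u * l) :
    ∀ f ∈ Mv.sqF R (ahead (subE u D.A 0)), gc (u * g.a) (u * g.b) (u * g.L) f =
      gc (u * g.a) (u * g.b) (u * g.L) (ahead (subE u D.A 0)) := by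
  intro f hf
  have hu' : (0 : ℤ) < u := by exact_mod_cast hu
  have h' : OffL (u * g.a) (u * g.b) (u * g.L) (u * l) (lf (subE u D.A 0)) := by
    have := OffL.mag (m := (u : ℤ)) h hu'
    rwa [lf_subE_zero]
  have h2 : IsCor (ahead (subE u D.A 0)) (lf (subE u D.A 0)) := isCor_in_lf _
  unfold IsCor at h2
  unfold Mv.sqF at hf
  rw [Set.mem_ofPred_eq, abs_le, abs_le] at hf
  exact h'.gc_eq (mul_pos hu' hL) (by omega) (by omega) (by omega) (by omega) (by omega) (by omega)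
    (by omega) (by omega)

/-- **The true state of a stage**, for the exploration. -/
theorem RunB.exq (X : RunB 𝔇 d n r s ω q D κ m x) (hO : StO n s q) :
    TSt ((exS s.V q).cf ω) Set.univ (uS s q ω) (tS s q ω) m x ∧
    (exS s.V q).p ω s.t = (tS s q ω).1 ∧
    (∃ N, 0 < N ∧ pth ((exS s.V q).cf ω) (tS s q ω).1 N = (tS s q ω).1) ∧
    uS s q ω ⊆ (exS s.V q).Fr ω s.t ∧
    ∀ i, outF (uS s q ω) (tS s q ω) i ∉ (exS s.V q).Fr ω s.t := by
  have hT := X.tst ω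
  rw [Xi_self] at hT
  have hp := Xi_per (s := s) (q := q) hO.box hO.sub ω ω (tS s q ω).1
  rw [Xi_self] at hp
  refine ⟨hT, ?_, hp, ?_, fun i => ?_⟩
  · rw [exS_p]
    rfl
  · rw [fr_exS_frS]
    exact uS_subset X.fre
  · rw [fr_exS_frS]
    exact uS_out hT.cyc.bd i


/-- **The anchors of a lost component**, regular stage. -/
theorem anc_reg {i₁ j₁ t j₂ i₂ σ : ℕ} (X : RunI 𝔇 d n r s ω q D κ m x i₁ j₁ t j₂ i₂) (hO : StO n s q)
    (hN : NumO d n s.x.length r) (hW : (exS s.V q).Wll ω) (hb : fb (eS s.V q) ∉ FU s.V \ QF q.1)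
    (hn : ∀ t, fa (pS s.V q ω t) ∉ vS s.V q ω 0 t → Nb (cfS s.V q ω) (eS s.V q) t)
    (hv : ¬ D.Void (𝔇.gr d s.x D))
    (hσ : D.regS (𝔇.gr d s.x D) (unt d n) (uS s q ω) κ (pS s.V q ω s.t) (cfS s.V q ω) σ)
    (hρ : ρ = mvR 𝔇 d n s q D false ω)
    (hz : z ∈ D.P \ D.rem (𝔇.gr d s.x D) ρ)
    (hB : ahead D.B ∉ compT (D.P \ D.rem (𝔇.gr d s.x D) ρ) z) (hy : BD D.P y)
    (hyC : ahead y ∈ compT (D.P \ D.rem (𝔇.gr d s.x D) ρ) z)
    (hyf : ahead y ∉ D.fcs (𝔇.gr d s.x D) ρ) (hlam : lam = 0 ∧ D.old y ∨ lam = 1 ∧ ¬ D.old y) :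
    Cov.AncC s.V q ω lam (mvT 𝔇 d n s q D false ω) (r + 7 * (unt d n * msh d s.x.length))
      (blow (unt d n : ℤ) (compT (D.P \ D.rem (𝔇.gr d s.x D) ρ) z)) := by
  have hu : (0 : ℤ) < unt d n := by exact_mod_cast hN.hu
  obtain ⟨hT, tip, hp, hUF, hout⟩ := X.toRunB.exq hO
  obtain ⟨e1, G⟩ := X.rg hO hN hv hσ
  rw [← hρ] at G
  have h1 : fa (pth (cfS s.V q ω) (tS s q ω).1 σ) ∈
      (exS s.V q).Fr ω (s.t + σ) := Rg.sub_fr (ω := ω) (E := exS s.V q) tip hUF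
        (G.ancK_sub G.ancK_tip)
  have h2 : pth (cfS s.V q ω) (tS s q ω).1 σ = pS s.V q ω (s.t + σ) := pth_pS σ
  have h3 := G.ent
  rw [h2] at h1 h3
  rw [e1]
  refine ⟨Blow.blow_finite hu (G.val.fin.subset fun f hf => (compT_sub hz hf).1), fun f hf => ?_,
    fun hf => ?_, fun v hv' => ?_⟩
  · have h4 : Blow.cl (unt d n : ℤ) f ∈ D.P \ D.rem (𝔇.gr d s.x D) ρ := compT_sub hz hf
    refine Rg.sub_fr (ω := ω) (E := exS s.V q) tip hUF ⟨G.app.sub h4.1, fun h5 => ?_⟩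
    exact h4.2 (G.reg.vis_rem h5 h4.1)
  · have h4 : Blow.cl (unt d n : ℤ) (fa (pS s.V q ω (s.t + σ))) ∈
        D.P \ D.rem (𝔇.gr d s.x D) ρ := compT_sub hz hf
    exact h4.2 (Dom.ent_sub_rem D _ _ h3)
  · obtain ⟨B, hBd, hBv⟩ := vb_lf hv'
    subst hBv
    exact G.anc (E := exS s.V q) (ω := ω) (t₀ := s.t) tip (hn _ (mem_frE.1 h1).2) hp hW hb hUF hout
      hz hB hy hyC hyf hlam hBd

/-- **The anchors of a lost component**, void stage. -/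
theorem anc_vd (hV : RunV 𝔇 d n r s ω) (hO : StO n s q) (hN : NumO d n s.x.length r)
    (hq : s.q = some q) (hD : (𝔇.cs d s.x).run = some D) (hi : (𝔇.cs d s.x).ini = false)
    (hW : (exS s.V q).Wll ω) (hb : fb (eS s.V q) ∉ FU s.V \ QF q.1)
    (hv : D.Void (𝔇.gr d s.x D)) (hz : z ∈ D.P \ D.rem (𝔇.gr d s.x D) ρ)
    (hB : ahead D.B ∉ compT (D.P \ D.rem (𝔇.gr d s.x D) ρ) z) (hy : BD D.P y)
    (hyC : ahead y ∈ compT (D.P \ D.rem (𝔇.gr d s.x D) ρ) z)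
    (hlam : lam = 0 ∧ D.old y ∨ lam = 1 ∧ ¬ D.old y) :
    Cov.AncC s.V q ω lam (mvT 𝔇 d n s q D false ω) (r + 2 * (unt d n * msh d s.x.length))
      (blow (unt d n : ℤ) (compT (D.P \ D.rem (𝔇.gr d s.x D) ρ) z)) := by
  have hu : (0 : ℤ) < unt d n := by exact_mod_cast hN.hu
  obtain ⟨κ, m, x, X, t, W⟩ := hV.wk hq hD hi
  obtain ⟨hT, tip, hp, hUF, hout⟩ := X.exq hO
  have hr := X.app.d_pos
  have hval : D.Val (𝔇.gr d s.x D) := val_gr hD (msh_pos _ _) hN.h16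
  have hcA := cell_sqA (D := D) (R := 3 * r + 1 + 1) hN.hu hval.hL
    (D.grd_tip (M := msz 𝔇.kap d s.x.length) (msh_pos d s.x.length) hN.h16)
    (by have := hN.far; omega)
  have hcB := cell_sqB (D := D) (R := 3 * r + 1 + 1) hN.hu hval.hL
    (D.grd_lfB (M := msz 𝔇.kap d s.x.length) (msh_pos d s.x.length) hN.h16)
    (by have := hN.farB; omega)
  have W' := W.mono (s' := 3 * r + 1) (s₀' := 3 * r + 1) (by omega) (by omega)
  rw [mvT_void hv]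
  refine ⟨Blow.blow_finite hu (hval.fin.subset fun f hf => (compT_sub hz hf).1), fun f hf => ?_,
    fun hf => ?_, fun v hv' => ?_⟩
  · have h4 : Blow.cl (unt d n : ℤ) f ∈ D.P \ D.rem (𝔇.gr d s.x D) ρ := compT_sub hz hf
    exact hUF (X.app.sub h4.1)
  · exact hval.void_tip (E := exS s.V q) (ω := ω) (t₀ := s.t) hN.hu hv hT X.app W' (by omega) le_rfl
      hcA hcB X.tgt.2 tip hz hB hf
  · obtain ⟨B, hBd, hBv⟩ := vb_lf hv'
    subst hBv
    exact hval.anc_void (E := exS s.V q) (ω := ω) (t₀ := s.t) hN.hu hv hT X.app W' (by omega)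
      (by omega) hcA hcB tip hp hW hb hUF hout hz hB hy hyC hlam hBd

/-- **The face in front of the strand at the end of a stage is fresh.** -/
theorem fre_mvT (hV : RunV 𝔇 d n r s ω) (hO : StO n s q) (hN : NumO d n s.x.length r)
    (hq : s.q = some q) (hD : (𝔇.cs d s.x).run = some D) (hi : (𝔇.cs d s.x).ini = false)
    (hR : ¬ D.Void (𝔇.gr d s.x D) → ∃ κ m x i₁ j₁ t j₂ i₂,
      RunI 𝔇 d n r s ω q D κ m x i₁ j₁ t j₂ i₂ ∧
      ∃ σ, D.regS (𝔇.gr d s.x D) (unt d n) (uS s q ω) κ (pS s.V q ω s.t) (cfS s.V q ω) σ) :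
    fa (pS s.V q ω (mvT 𝔇 d n s q D false ω)) ∈
      (exS s.V q).Fr ω (mvT 𝔇 d n s q D false ω) := by
  by_cases hvd : D.Void (𝔇.gr d s.x D)
  · obtain ⟨κ, m, x, X, -⟩ := hV.wk hq hD hi
    rw [mvT_void hvd, fr_exS_frS]
    exact X.fre
  · obtain ⟨κ, m, x, i₁, j₁, t, j₂, i₂, X, σ, hσ⟩ := hR hvd
    obtain ⟨hT, tip, hp, hUF, hout⟩ := X.toRunB.exq hO
    obtain ⟨e1, G⟩ := X.rg hO hN hvd hσ
    have h1 : fa (pth (cfS s.V q ω) (tS s q ω).1 σ) ∈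
        (exS s.V q).Fr ω (s.t + σ) := Rg.sub_fr (ω := ω) (E := exS s.V q) tip hUF
          (G.ancK_sub G.ancK_tip)
    have h2 : pth (cfS s.V q ω) (tS s q ω).1 σ = pS s.V q ω (s.t + σ) := pth_pS σ
    rwa [h2, ← e1] at h1

/-- **The anchors of a lost component**: regular stage, void stage, end of the step. -/
theorem anc_comp (hV : RunV 𝔇 d n r s ω) (hO : StO n s q) (hN : NumO d n s.x.length r)
    (hq : s.q = some q) (hD : (𝔇.cs d s.x).run = some D) (hi : (𝔇.cs d s.x).ini = false)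
    (hW : (exS s.V q).Wll ω) (hb : fb (eS s.V q) ∉ FU s.V \ QF q.1)
    (hn : ∀ t, fa (pS s.V q ω t) ∉ vS s.V q ω 0 t → Nb (cfS s.V q ω) (eS s.V q) t)
    (hR : ¬ D.Void (𝔇.gr d s.x D) → ∃ κ m x i₁ j₁ t j₂ i₂,
      RunI 𝔇 d n r s ω q D κ m x i₁ j₁ t j₂ i₂ ∧
      ∃ σ, D.regS (𝔇.gr d s.x D) (unt d n) (uS s q ω) κ (pS s.V q ω s.t) (cfS s.V q ω) σ)
    (hρ : ρ = mvR 𝔇 d n s q D false ω)
    (hz : z ∈ D.P \ D.rem (𝔇.gr d s.x D) ρ)
    (hB : ahead D.B ∉ compT (D.P \ D.rem (𝔇.gr d s.x D) ρ) z) (hy : BD D.P y)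
    (hyC : ahead y ∈ compT (D.P \ D.rem (𝔇.gr d s.x D) ρ) z)
    (hyf : ahead y ∉ D.fcs (𝔇.gr d s.x D) ρ)
    (hlam : lam = 0 ∧ D.old y ∨ lam = 1 ∧ ¬ D.old y) :
    Cov.AncC s.V q ω lam (mvT 𝔇 d n s q D false ω) (r + 7 * (unt d n * msh d s.x.length))
      (blow (unt d n : ℤ) (compT (D.P \ D.rem (𝔇.gr d s.x D) ρ) z)) := by
  by_cases hvd : D.Void (𝔇.gr d s.x D)
  · have h1 := anc_vd hV hO hN hq hD hi hW hb hvd hz hB hy hyC hlam
    have h2 : (0 : ℤ) ≤ unt d n * msh d s.x.length :=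
      mul_nonneg (Int.natCast_nonneg _) (msh_pos d s.x.length).le
    exact ⟨h1.fin, h1.sub, h1.tip, fun v hv => by
      obtain ⟨w, h3, h4⟩ := h1.anc v hv
      exact ⟨w, h3, h4.mono fun a ha => ⟨ha.1.mono (by omega), ha.2⟩⟩⟩
  · obtain ⟨κ, m, x, i₁, j₁, t, j₂, i₂, X, σ, hσ⟩ := hR hvd
    exact anc_reg X hO hN hW hb hn hvd hσ hρ hz hB hy hyC hyf hlam

/-- **The component on the right of the strand.** -/
theorem rgt_anc (hV : RunV 𝔇 d n r s ω) (hO : StO n s q) (hN : NumO d n s.x.length r)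
    (hq : s.q = some q) (hD : (𝔇.cs d s.x).run = some D) (hi : (𝔇.cs d s.x).ini = false)
    (hW : (exS s.V q).Wll ω) (hb : fb (eS s.V q) ∉ FU s.V \ QF q.1)
    (hn : ∀ t, fa (pS s.V q ω t) ∉ vS s.V q ω 0 t → Nb (cfS s.V q ω) (eS s.V q) t)
    (hR : ¬ D.Void (𝔇.gr d s.x D) → ∃ κ m x i₁ j₁ t j₂ i₂,
      RunI 𝔇 d n r s ω q D κ m x i₁ j₁ t j₂ i₂ ∧
      ∃ σ, D.regS (𝔇.gr d s.x D) (unt d n) (uS s q ω) κ (pS s.V q ω s.t) (cfS s.V q ω) σ)
    (hρ : ρ = mvR 𝔇 d n s q D false ω) (hc : Cov.RgtC D (𝔇.gr d s.x D) ρ c) :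
    Cov.AncC s.V q ω 0 (mvT 𝔇 d n s q D false ω) (r + 7 * (unt d n * msh d s.x.length))
      (blow (unt d n : ℤ) (compT (D.P \ D.rem (𝔇.gr d s.x D) ρ) c)) := by
  obtain ⟨h1, h2, h3, y, h4, h5, h6, -⟩ := hc
  have hval : D.Val (𝔇.gr d s.x D) := val_gr hD (msh_pos _ _) hN.h16
  have h7 : ahead y ∉ D.fcs (𝔇.gr d s.x D) ρ := fun h =>
    h6 (Cov.dom_sub_boxT hval (Cov.inr_sub_dom hval h.1))
  refine anc_comp hV hO hN hq hD hi hW hb hn hR hρ h1 h2 h4 h5 h7 (Or.inl ⟨rfl, ?_⟩)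
  by_contra hno
  exact h3 ⟨h1, h2, y, h4, h5, h7, hno⟩

/-- **A stored component.** -/
theorem lef_anc (hV : RunV 𝔇 d n r s ω) (hO : StO n s q) (hN : NumO d n s.x.length r)
    (hq : s.q = some q) (hD : (𝔇.cs d s.x).run = some D) (hi : (𝔇.cs d s.x).ini = false)
    (hW : (exS s.V q).Wll ω) (hb : fb (eS s.V q) ∉ FU s.V \ QF q.1)
    (hn : ∀ t, fa (pS s.V q ω t) ∉ vS s.V q ω 0 t → Nb (cfS s.V q ω) (eS s.V q) t)
    (hR : ¬ D.Void (𝔇.gr d s.x D) → ∃ κ m x i₁ j₁ t j₂ i₂,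
      RunI 𝔇 d n r s ω q D κ m x i₁ j₁ t j₂ i₂ ∧
      ∃ σ, D.regS (𝔇.gr d s.x D) (unt d n) (uS s q ω) κ (pS s.V q ω s.t) (cfS s.V q ω) σ)
    (hρ : ρ = mvR 𝔇 d n s q D false ω) (hz : z ∈ D.lef (𝔇.gr d s.x D) ρ) :
    Cov.AncC s.V q ω 1 (mvT 𝔇 d n s q D false ω) (r + 7 * (unt d n * msh d s.x.length))
      (blow (unt d n : ℤ) (compT (D.P \ D.rem (𝔇.gr d s.x D) ρ) z)) := by
  obtain ⟨h1, h2, y, h4, h5, h6, h7⟩ := hz
  exact anc_comp hV hO hN hq hD hi hW hb hn hR hρ h1 h2 h4 h5 h6 (Or.inr ⟨rfl, h7⟩)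

/-! ### The stages of the chain -/

section Chain

variable {C : ℤ} {i : ℕ}

/-- **The component on the right of the strand**, stage of the chain. -/
theorem tst_rgt (hV : InvV C 𝔇 d n i ω)
    (hN : NumO d n (tst 𝔇 d n ω i).x.length (rad C (unt d n) d (tst 𝔇 d n ω i).x.length))
    (hR : ω ∉ Dead C 𝔇 d n i) (hq : (tst 𝔇 d n ω i).q = some q)
    (hD : (𝔇.cs d (tst 𝔇 d n ω i).x).run = some D)
    (hi : (𝔇.cs d (tst 𝔇 d n ω i).x).ini = false)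
    (hρ : ρ = mvR 𝔇 d n (tst 𝔇 d n ω i) q D false ω)
    (hc : Cov.RgtC D (𝔇.gr d (tst 𝔇 d n ω i).x D) ρ c) :
    Cov.AncC (tst 𝔇 d n ω i).V q ω 0 (mvT 𝔇 d n (tst 𝔇 d n ω i) q D false ω)
      (rad C (unt d n) d (tst 𝔇 d n ω i).x.length +
        7 * (unt d n * msh d (tst 𝔇 d n ω i).x.length))
      (blow (unt d n : ℤ) (compT (D.P \ D.rem (𝔇.gr d (tst 𝔇 d n ω i).x D) ρ) c)) :=
  rgt_anc hV (stO_tst hq) hN hq hD hi (tst_wll hq) (tst_fb hq)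
    (fun _ h => nb_of_perS (TruR.inv_V 𝔇 d n ω i) (lt_perS hq h))
    (fun hv => exists_regS hR hq hD hi hv) hρ hc

/-- **A stored component**, stage of the chain. -/
theorem tst_lef (hV : InvV C 𝔇 d n i ω)
    (hN : NumO d n (tst 𝔇 d n ω i).x.length (rad C (unt d n) d (tst 𝔇 d n ω i).x.length))
    (hR : ω ∉ Dead C 𝔇 d n i) (hq : (tst 𝔇 d n ω i).q = some q)
    (hD : (𝔇.cs d (tst 𝔇 d n ω i).x).run = some D)
    (hi : (𝔇.cs d (tst 𝔇 d n ω i).x).ini = false)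
    (hρ : ρ = mvR 𝔇 d n (tst 𝔇 d n ω i) q D false ω)
    (hz : z ∈ D.lef (𝔇.gr d (tst 𝔇 d n ω i).x D) ρ) :
    Cov.AncC (tst 𝔇 d n ω i).V q ω 1 (mvT 𝔇 d n (tst 𝔇 d n ω i) q D false ω)
      (rad C (unt d n) d (tst 𝔇 d n ω i).x.length +
        7 * (unt d n * msh d (tst 𝔇 d n ω i).x.length))
      (blow (unt d n : ℤ) (compT (D.P \ D.rem (𝔇.gr d (tst 𝔇 d n ω i).x D) ρ) z)) :=
  lef_anc hV (stO_tst hq) hN hq hD hi (tst_wll hq) (tst_fb hq)
    (fun _ h => nb_of_perS (TruR.inv_V 𝔇 d n ω i) (lt_perS hq h))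
    (fun hv => exists_regS hR hq hD hi hv) hρ hz

/-- **The part which is stored at the end of a stage of the chain.** -/
theorem InvV.lefK (hV : InvV C 𝔇 d n i ω)
    (hN : NumO d n (tst 𝔇 d n ω i).x.length (rad C (unt d n) d (tst 𝔇 d n ω i).x.length))
    (hR : ω ∉ Dead C 𝔇 d n i) (hq : (tst 𝔇 d n ω i).q = some q)
    (hD : (𝔇.cs d (tst 𝔇 d n ω i).x).run = some D)
    (hi : (𝔇.cs d (tst 𝔇 d n ω i).x).ini = false) :
    LefK 𝔇 d n (tst 𝔇 d n ω i) q D ω (rad C (unt d n) d (tst 𝔇 d n ω i).x.length +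
      7 * (unt d n * msh d (tst 𝔇 d n ω i).x.length)) := by
  have hu : (0 : ℤ) < unt d n := by exact_mod_cast hN.hu
  have hval : D.Val (𝔇.gr d (tst 𝔇 d n ω i).x D) := val_gr hD (msh_pos _ _) hN.h16
  have key : ∀ z ∈ D.lef (𝔇.gr d (tst 𝔇 d n ω i).x D)
      (mvR 𝔇 d n (tst 𝔇 d n ω i) q D false ω), _ := fun z hz =>
    tst_lef hV hN hR hq hD hi rfl hz
  refine ⟨lt_perS hq (mem_frE.1 (fre_mvT hV (stO_tst hq) hN hq hD hi
    fun hv => exists_regS hR hq hD hi hv)).2, ?_, fun f hf => ?_, fun hf => ?_, fun z hz v hv =>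
      (key z hz).anc v hv⟩
  · exact Blow.blow_finite hu (hval.fin.subset fun f hf => hf.1.1)
  · exact (key _ hf).sub self_mem_compT
  · exact (key _ hf).tip self_mem_compT

end Chain

end Pool.Agent.SixB.Tru
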