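import Pool.Agent.Lib.SixB.S8LabO

/-!
# Step 8: a face of `P` which is joined to the target near the target

`App U P κ d`: the coarse set `P` with its class parts in the fresh region `U`.

* `excursion`: the outer faces of two sides of `P` are joined outside of `P` in a small square: then the
  inner faces are joined in `P` in a slightly larger square (the class parts behind the sides of one of the
  two arcs meet the excursion);
* `joined_near`: two faces of `P` which are joined in `U` in a small square are joined in `P` in a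
  slightly larger square;
* `part_near`: if a class part meets a chain from `a` in `U` in a small square then the inner face of its
  side is joined to `a` in `P` in a slightly larger square;
* `notMem_comp`: such a face is not in a component of a part `W` of `P` which does not contain the other
  one, if `W` is closed in `P` in the larger square.
-/

set_option autoImplicit false

namespace Pool.Agent.SixB.Anc

open Finset Pool.Agent.Perc Pool.Agent.Perc6 Pool.Agent.Perc6.C2Aux Pool.Agent.Perc.Tips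
open Pool.Agent.SixB Pool.Agent.SixB.Mv Pool.Agent.SixB.Top Pool.Agent.SixB.CloK

variable {ι : Type*} {U P K W : Set (ℤ × ℤ)} {κ : ℤ × ℤ → ι} {d r : ℤ} {A : UE × Bool} {m i j : ℕ}
  {a y f : ℤ × ℤ}

/-- The inner face of a side whose class part meets a small square. -/
theorem inF_near (h : App U P κ d) {k : ℕ} (hf : f ∈ ptK U κ (outF P A k)) (hr : f ∈ sqF r a) :
    inF P A k ∈ sqF (r + d) a := by
  obtain ⟨h1, h2⟩ := h.diam _ _ (ptK_le hf).2.2
  obtain ⟨h3, h4⟩ := near_adj (adjF_ahead (side P A k))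
  unfold outF at h1 h2
  unfold inF
  unfold sqF at hr ⊢
  rw [Set.mem_ofPred_eq] at hr ⊢
  rw [abs_lt] at h1 h2
  rw [abs_le] at h3 h4
  rw [abs_le, abs_le] at hr
  rw [abs_le, abs_le]
  omega

/-- The same for a side whose outer face is in the square. -/
theorem inF_near' (hd : 0 < d) {k : ℕ} (hr : outF P A k ∈ sqF r a) :
    inF P A k ∈ sqF (r + d) a := by
  obtain ⟨h3, h4⟩ := near_adj (adjF_ahead (side P A k))
  unfold outF at hr
  unfold inF
  unfold sqF at hr ⊢
  rw [Set.mem_ofPred_eq] at hr ⊢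
  rw [abs_le] at h3 h4
  rw [abs_le, abs_le] at hr
  rw [abs_le, abs_le]
  omega

/-- Along an arc with near inner faces. -/
theorem arc_near (hA : BD P A) {i j : ℕ} (hij : i ≤ j)
    (h : ∀ l, i ≤ l → l < j → inF P A l ∈ sqF (r + d) a) :
    ChI (P ∩ sqF (r + d + 1) a) (inF P A i) (inF P A j) := by
  refine chI_inF hA hij fun l h1 h2 f hf => ?_
  have h7 := h l h1 h2
  have h8 : |f.1 - (inF P A l).1| ≤ 1 ∧ |f.2 - (inF P A l).2| ≤ 1 := by
    refine near_cor hf ?_
    rw [vert_succ]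
    exact isCor_in_rg _
  unfold sqF at h7 ⊢
  rw [Set.mem_ofPred_eq] at h7 ⊢
  rw [abs_le, abs_le] at h7 h8
  rw [abs_le, abs_le]
  omega

/-- **An excursion outside of `P`** in a small square. -/
theorem excursion (hUf : U.Finite) (hUc : Top.EConn U) (hUe : Esc U) (h : App U P κ d) (hPc : Top.EConn P)
    (hC : Cyc P A m) (hK : ∀ f ∈ K, f ∈ U ∧ f ∉ P ∧ f ∈ sqF r a) (hij : i < j) (hj : j < m)
    (hi : outF P A i ∈ K) (hch : ChI K (outF P A i) (outF P A j)) :
    ChI (P ∩ sqF (r + d + 1) a) (inF P A i) (inF P A j) := by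
  have hA := hC.bd
  have hd := h.d_pos
  have hjK : outF P A j ∈ K := ChI.mem hi hch
  have hper : Per P m A := ⟨hC.pos, hC.per, hC.inj⟩
  have hout : ∀ l, ∀ f ∈ ptK U κ (outF P A l), f ∈ U ∧ f ∉ P := fun l f hf => by
    obtain ⟨h1, h2, h3⟩ := ptK_le hf
    exact ⟨h2, fun h' => (bd_side hA l).2 (h.sat f _ h3 h')⟩
  by_cases hall : ∀ k, i < k → k < j → ∃ f ∈ K, f ∈ ptK U κ (outF P A k)
  · refine arc_near hA hij.le fun l h1 h2 => ?_
    rcases h1.lt_or_eq with h3 | h3
    · obtain ⟨f, hf, hf'⟩ := hall l h3 h2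
      exact inF_near h hf' (hK f hf).2.2
    · rw [← h3]
      exact inF_near' hd (hK _ hi).2.2
  · push Not at hall
    obtain ⟨k, hik, hkj, hk⟩ := hall
    have hother : ∀ l, l < i ∨ j < l → l < m → ∃ f ∈ K, f ∈ ptK U κ (outF P A l) := by
      intro l hl hlm
      by_contra hcon
      push Not at hcon
      obtain ⟨C₃, hC₃, l₃⟩ := exists_linkU h (bd_side hA k)
      obtain ⟨C₄, hC₄, l₄⟩ := exists_linkU h (bd_side hA l)
      exact no_chord hUf hUc hUe h.sub hPc hA hper (S := K)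
        (S₃ := ptK U κ (outF P A k)) (S₄ := ptK U κ (outF P A l))
        (fun f hf => ⟨(hK f hf).1, (hK f hf).2.1⟩) (hout k) (hout l)
        (fun f hf hf' => hk f hf' hf) (fun f hf hf' => hcon f hf' hf) hik hkj hj hl hlm
        hi hch hC₃ hC₄ (lkS_of l₃) (lkS_of l₄)
    -- from `j` to `m`
    have e1 : ChI (P ∩ sqF (r + d + 1) a) (inF P A j) (inF P A m) := by
      refine arc_near hA hj.le fun l h1 h2 => ?_
      rcases h1.lt_or_eq with h3 | h3
      · obtain ⟨f, hf, hf'⟩ := hother l (Or.inr h3) h2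
        exact inF_near h hf' (hK f hf).2.2
      · rw [← h3]
        exact inF_near' hd (hK _ hjK).2.2
    -- from `0` to `i`
    have e2 : ChI (P ∩ sqF (r + d + 1) a) (inF P A 0) (inF P A i) := by
      refine arc_near hA (Nat.zero_le i) fun l h1 h2 => ?_
      obtain ⟨f, hf, hf'⟩ := hother l (Or.inl h2) (by omega)
      exact inF_near h hf' (hK f hf).2.2
    have e3 : inF P A m = inF P A 0 := by
      unfold inF
      rw [hC.per]
      rfl
    rw [e3] at e1
    have h1 : inF P A j ∈ P ∩ sqF (r + d + 1) a :=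
      ⟨(bd_side hA j).1, sqF_le_of (by omega) (inF_near' hd (hK _ hjK).2.2)⟩
    exact ChI.symm h1 (e1.trans e2)

/-- Both orders. -/
theorem excursion' (hUf : U.Finite) (hUc : Top.EConn U) (hUe : Esc U) (h : App U P κ d) (hPc : Top.EConn P)
    (hC : Cyc P A m) (hK : ∀ f ∈ K, f ∈ U ∧ f ∉ P ∧ f ∈ sqF r a) (hi : i < m) (hj : j < m)
    (hiK : outF P A i ∈ K) (hch : ChI K (outF P A i) (outF P A j)) :
    ChI (P ∩ sqF (r + d + 1) a) (inF P A i) (inF P A j) := by
  have hd := h.d_pos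
  rcases lt_trichotomy i j with h1 | h1 | h1
  · exact excursion hUf hUc hUe h hPc hC hK h1 hj hiK hch
  · rw [h1]
    exact ChI.refl _
  · have h2 := excursion hUf hUc hUe h hPc hC hK h1 hi (ChI.mem hiK hch) (ChI.symm hiK hch)
    refine ChI.symm ⟨(bd_side hC.bd j).1, ?_⟩ h2
    exact sqF_le_of (by omega) (inF_near' hd (hK _ (ChI.mem hiK hch)).2.2)

/-- The last exit of a chain in a small square. -/
theorem last_exit (hUf : U.Finite) (hUc : Top.EConn U) (hUe : Esc U) (h : App U P κ d)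
    (hPc : Top.EConn P) (hC : Cyc P A m) (ha : a ∈ P) (har : a ∈ sqF r f) {z : ℤ × ℤ}
    (hz : ChI (U ∩ sqF r f) a z) : z ∈ U ∩ sqF r f ∧
      ((z ∈ P ∧ ChI (P ∩ sqF (r + d + 1) f) a z) ∨
        (z ∉ P ∧ ∃ i < m, ChI (P ∩ sqF (r + d + 1) f) a (inF P A i) ∧
          outF P A i ∈ {x | x ∈ U ∧ x ∉ P ∧ x ∈ sqF r f} ∧
          ChI {x | x ∈ U ∧ x ∉ P ∧ x ∈ sqF r f} (outF P A i) z)) := by
  have hd := h.d_pos
  induction hz with
  | refl => exact ⟨⟨h.sub ha, har⟩, Or.inl ⟨ha, ChI.refl _⟩⟩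
  | @tail b c _ hs ih =>
    obtain ⟨hadj, hc⟩ := hs
    obtain ⟨hb, ih⟩ := ih
    refine ⟨hc, ?_⟩
    rcases ih with ⟨hbP, h1⟩ | ⟨hbP, i, hi, h1, h2, h3⟩
    · by_cases hcP : c ∈ P
      · exact Or.inl ⟨hcP, h1.tail ⟨hadj, hcP, sqF_le_of (by omega) hc.2⟩⟩
      · right
        refine ⟨hcP, ?_⟩
        obtain ⟨B, hB1, hB2⟩ := adjF_dir hadj
        have hB : BD P B := ⟨by rw [hB1]; exact hbP, by rw [hB2]; exact hcP⟩
        obtain ⟨i, hi, hiB⟩ := hC.exists_index hB
        have e1 : inF P A i = b := by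
          unfold inF
          rw [hiB, hB1]
        have e2 : outF P A i = c := by
          unfold outF
          rw [hiB, hB2]
        refine ⟨i, hi, ?_, ?_, ?_⟩
        · rw [e1]
          exact h1
        · rw [e2]
          exact ⟨hc.1, hcP, hc.2⟩
        · rw [e2]
          exact ChI.refl _
    · by_cases hcP : c ∈ P
      · left
        refine ⟨hcP, ?_⟩
        obtain ⟨B, hB1, hB2⟩ := adjF_dir hadj.symm
        have hB : BD P B := ⟨by rw [hB1]; exact hcP, by rw [hB2]; exact hbP⟩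
        obtain ⟨j, hj, hjB⟩ := hC.exists_index hB
        have e1 : inF P A j = c := by
          unfold inF
          rw [hjB, hB1]
        have e2 : outF P A j = b := by
          unfold outF
          rw [hjB, hB2]
        have h4 := excursion' (K := {x | x ∈ U ∧ x ∉ P ∧ x ∈ sqF r f}) (r := r) (a := f)
          hUf hUc hUe h hPc hC (fun x hx => hx) hi hj h2 (by rw [e2]; exact h3)
        rw [e1] at h4
        exact h1.trans h4
      · exact Or.inr ⟨hcP, i, hi, h1, h2, h3.tail ⟨hadj, hc.1, hcP, hc.2⟩⟩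

/-- **Two faces of `P` which are joined in `U` in a small square** are joined in `P` in a slightly larger
square. -/
theorem joined_near (hUf : U.Finite) (hUc : Top.EConn U) (hUe : Esc U) (h : App U P κ d)
    (hPc : Top.EConn P) (hC : Cyc P A m) (ha : a ∈ P) (hch : ChI (U ∩ sqF r f) a y) (hy : y ∈ P)
    (har : a ∈ sqF r f) : ChI (P ∩ sqF (r + d + 1) f) a y := by
  rcases (last_exit hUf hUc hUe h hPc hC ha har hch).2 with ⟨-, h1⟩ | ⟨h1, -⟩
  · exact h1
  · exact absurd hy h1

/-- **A class part which meets the chain**: the inner face of its side is joined to the face `a` in `P`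
near `a`. -/
theorem part_near (hUf : U.Finite) (hUc : Top.EConn U) (hUe : Esc U) (h : App U P κ d)
    (hPc : Top.EConn P) (hC : Cyc P A m) (ha : a ∈ P) (har : a ∈ sqF r f) {z : ℤ × ℤ}
    (hch : ChI (U ∩ sqF r f) a z) {j : ℕ} (hj : j < m) (hz : z ∈ ptK U κ (outF P A j)) :
    ChI (P ∩ sqF (r + d + d + 1) f) a (inF P A j) := by
  have hd := h.d_pos
  have hout : ∀ f ∈ ptK U κ (outF P A j), f ∈ U ∧ f ∉ P := fun f hf => by
    obtain ⟨h1, h2, h3⟩ := ptK_le hf
    exact ⟨h2, fun h' => (bd_side hC.bd j).2 (h.sat f _ h3 h')⟩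
  obtain ⟨⟨-, hzr⟩, h1⟩ := last_exit hUf hUc hUe h hPc hC ha har hch
  rcases h1 with ⟨h1, -⟩ | ⟨-, i, hi, h1, h2, h3⟩
  · exact absurd h1 (hout z hz).2
  · have hK : ∀ x ∈ {x | x ∈ U ∧ x ∉ P ∧ x ∈ sqF r f} ∪ ptK U κ (outF P A j),
        x ∈ U ∧ x ∉ P ∧ x ∈ sqF (r + d) f := by
      rintro x (hx | hx)
      · exact ⟨hx.1, hx.2.1, sqF_le_of (by omega) hx.2.2⟩
      · refine ⟨(hout x hx).1, (hout x hx).2, ?_⟩
        obtain ⟨g1, g2⟩ := h.diam x z ((ptK_le hx).2.2.trans (ptK_le hz).2.2.symm)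
        unfold sqF at hzr ⊢
        rw [Set.mem_ofPred_eq] at hzr ⊢
        rw [abs_lt] at g1 g2
        rw [abs_le, abs_le] at hzr
        rw [abs_le, abs_le]
        omega
    have h4 : ChI ({x | x ∈ U ∧ x ∉ P ∧ x ∈ sqF r f} ∪ ptK U κ (outF P A j)) (outF P A i)
        (outF P A j) := by
      refine (ChI.mono Set.subset_union_left h3).trans ?_
      exact ChI.mono Set.subset_union_right (ChI.symm (ptK_self hz.1) (ptK_chI hz))
    have h5 := excursion' (a := f) hUf hUc hUe h hPc hC hK hi hj (Or.inl h2) h4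
    exact (ChI.mono (T := P ∩ sqF (r + d + d + 1) f)
      (fun x hx => ⟨hx.1, sqF_le_of (by omega) hx.2⟩) h1).trans h5

/-- The face `y` is not in a component of `W` without the face `a`. -/
theorem notMem_comp (hUf : U.Finite) (hUc : Top.EConn U) (hUe : Esc U) (h : App U P κ d)
    (hPc : Top.EConn P) (hC : Cyc P A m) (ha : a ∈ P) (hch : ChI (U ∩ sqF r f) a y)
    (har : a ∈ sqF r f) (hWP : W ⊆ P)
    (hcl : ∀ z ∈ W, ∀ w ∈ P, z ∈ sqF (r + d + 1) f → w ∈ sqF (r + d + 1) f → AdjF z w → w ∈ W)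
    {z : ℤ × ℤ} (hz : z ∈ W) (hyz : y ∈ compT W z) : a ∈ compT W z := by
  have hd := h.d_pos
  have hyW : y ∈ W := compT_sub hz hyz
  have h1 := joined_near hUf hUc hUe h hPc hC ha hch (hWP hyW) har
  have haQ : a ∈ P ∩ sqF (r + d + 1) f := ⟨ha, sqF_le_of (by omega) har⟩
  have hyQ : y ∈ P ∩ sqF (r + d + 1) f := ChI.mem haQ h1
  have key : ∀ w, ChI (P ∩ sqF (r + d + 1) f) y w → w ∈ W ∩ sqF (r + d + 1) f ∧
      w ∈ compT W z := by
    intro w hw
    induction hw with
    | refl => exact ⟨⟨hyW, hyQ.2⟩, hyz⟩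
    | @tail b c _ hs ih =>
      obtain ⟨⟨hb1, hb2⟩, hb3⟩ := ih
      have hcW := hcl b hb1 c hs.2.1 hb2 hs.2.2 hs.1
      exact ⟨⟨hcW, hs.2.2⟩, compT_step hb3 hs.1 hcW⟩
  exact (key a (ChI.symm haQ h1)).2

end Pool.Agent.SixB.Anc
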