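import Pool.Agent.Lib.SixB.S8InvF
import Pool.Agent.Lib.SixB.S8AncT
import Pool.Agent.Lib.SixB.S8AncC

/-!
# Step 8: the anchors of a component of the rest, regular move

`h : Rg ..` is a regular move. `W = P \ V` (the rest), `C` = a component of `W` without the target.

* `Rg.rest_cl`: the rest is closed in `P` near the target;
* `Rg.tgt_notMem`: the true target face is not in `C`;
* `Rg.tip_notMem`: the face in front of the strand is not in the rest.
-/

set_option autoImplicit false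

namespace Pool.Agent.SixB.Mv

open Finset Pool.Agent.Perc Pool.Agent.Perc6 Pool.Agent.PercT Pool.Agent.Perc6.C2Aux
open Pool.Agent.Perc.Tips Pool.Agent.SixB Pool.Agent.SixB.Top Pool.Agent.SixB.Blow
open Pool.Agent.SixB.CloK

namespace Rg

variable {s : Dom} {g : Grd} {u : ℕ} {ζ : Cfg} {U : Set (ℤ × ℤ)} {κ : ℤ × ℤ → ℤ × ℤ}
  {r : ℤ} {τ : UE × Bool} {mU x : ℕ} {lA lB : ℤ} {σ : ℕ} {ρ : Rec}
  (h : Rg s g u ζ U κ r τ mU x lA lB σ ρ)

include h

/-- The rest is closed in `P` near the target. -/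
theorem rest_cl : ∀ z ∈ blow u (s.P \ s.rem g ρ), ∀ w ∈ blow u s.P,
    z ∈ sqF (r + r + 1) (ahead (subE u s.B 0)) → w ∈ sqF (r + r + 1) (ahead (subE u s.B 0)) →
      AdjF z w → w ∈ blow u (s.P \ s.rem g ρ) := by
  intro z hz w hw h1 h2 ha
  have hd := h.app.d_pos
  exact cl_cell h.reg.data h.dcell h.satE hz hw ha
    ((h.cellB (sqF_le_of (by omega) h1)).trans (h.cellB (sqF_le_of (by omega) h2)).symm)

/-- **The true target face is not in a component without the target.** -/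
theorem tgt_notMem_comp {z : ℤ × ℤ} (hz : z ∈ s.P \ s.rem g ρ)
    (hB : ahead s.B ∉ compT (s.P \ s.rem g ρ) z) :
    inF U τ x ∉ blow u (compT (s.P \ s.rem g ρ) z) := by
  intro hy
  have hu : (0 : ℤ) < u := by exact_mod_cast h.hu
  obtain ⟨mP, i₁, j₁, t, j₂, i₂, X⟩ := h.lab
  have hPc : Top.EConn (blow u s.P) := econn_blow hu h.val.con
  obtain ⟨z', hz'⟩ := exists_cl hu z
  have hzW : z' ∈ blow u (s.P \ s.rem g ρ) := by
    rw [mem_blow, hz']
    exact hz
  have e := compT_blow hu (F := s.P \ s.rem g ρ) (f := z') (by rw [hz']; exact hz)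
  rw [hz'] at e
  rw [← e] at hy
  have hd := h.app.d_pos
  have hch : ChI (U ∩ sqF r (ahead (subE u s.B 0))) (ahead (subE u s.B 0)) (inF U τ x) :=
    ChI.symm ⟨h.tgt.1, h.tgt.2.1⟩ h.tgt.2.2
  have har : ahead (subE u s.B 0) ∈ sqF r (ahead (subE u s.B 0)) := by
    unfold sqF
    rw [Set.mem_ofPred_eq]
    simp
    omega
  have h1 := Anc.notMem_comp h.tst.fin h.tst.ec h.tst.esc h.app hPc X.cyc h.bdB.1 hch har
    (blow_subset (fun _ hf => hf.1)) h.rest_cl hzW hy
  rw [e] at h1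
  rw [mem_blow, cl_ahead_zero h.hu] at h1
  exact hB h1

end Rg

end Pool.Agent.SixB.Mv
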