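import Pool.Agent.Lib.SixB.S8CountC

/-!
# Step 8, number of moves: the strand and the rooms of the unvisited faces

* `exc_consec`: an excursion of the strand from the edge connected region `U` joins two consecutive
  sides of `U`, if every side of `U` is anchored (`Anc`) at the tip side.
* `strand_val`: a function which does not change on the visited faces of `U` has one value on them;
  `strand_nc` (D1): the strand from the tip followed by a connected set `Z` is not crossed by a connected set `H`.
* `Bas`: the start of an exploration of `U₀` (the sides of `U₀` are anchored at the start side `e`),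
  `Rm`: a component `G` of the unvisited faces at the time `t`; `Bas.anc`: then `Anc`.
* `uni`: births (times of the visits of the outer faces) along the contour of a room do not interlace;
  `mono_left`, `mono_right`: the births are monotone between the tip and the target.
-/

set_option autoImplicit false

namespace Pool.Agent.SixB.Cnt

open Finset Pool.Agent.Perc Pool.Agent.Perc6 Pool.Agent.Perc6.C2Aux Pool.Agent.Perc.Tips
open Pool.Agent.SixB.Top Pool.Agent.SixB.Mv Pool.Agent.SixB.NearCut

variable {ω : Cfg} {e : UE} {n : ℕ} {U U₀ G : Set (ℤ × ℤ)} {A : UE × Bool} {m : ℕ}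

/-- Every boundary side of `U` except `a₀` has an end which is joined outside of `U` to an end of
`a₀`. -/
def Anc (ω : Cfg) (U : Set (ℤ × ℤ)) (a₀ : UE) : Prop :=
  ∀ a, BdU U a → a ≠ a₀ → ∃ p, (p = ua a ∨ p = ub a) ∧
    (Conn ω Uᶜ p (ua a₀) ∨ Conn ω Uᶜ p (ub a₀))

theorem exists_idx (hUf : U.Finite) (cU : EConn U) (he : Esc U) (hA : BD U A) (hm : Per U m A)
    {a : UE} (h : BdU U a) : ∃ x < m, (side U A x).1 = a := by
  obtain ⟨k, hk⟩ := contour_all hUf cU he hA h
  refine ⟨k % m, Nat.mod_lt _ hm.pos, ?_⟩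
  show ((sc U)^[k % m] A).1 = a
  rw [hm.mod]
  exact hk

theorem side_inj (hA : BD U A) (hm : Per U m A) {i j : ℕ} (hi : i < m) (hj : j < m)
    (h : (side U A i).1 = (side U A j).1) : i = j :=
  hm.inj i hi j hj ((bd_side hA i).eq_of_fst (bd_side hA j) h)

/-- the ends of a unit edge -/
theorem ends_joins {a : UE} {p q u : ℤ × ℤ} (hj : Joins a p q) (hu : u = ua a ∨ u = ub a) :
    u = p ∨ u = q := by
  rcases hj with ⟨rfl, rfl⟩ | ⟨rfl, rfl⟩ <;> tauto

/-- the faces of a boundary side -/
theorem bd_faces {B : UE × Bool} (hB : BD U B) {f : ℤ × ℤ} (hf : IsSide f B.1) (hU : f ∈ U) :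
    f = ahead B := by
  have hne : ahead B ≠ ahead (rv B) := fun h => hB.2 (h ▸ hB.1)
  rcases side_two hne (side_ahead B) (side_behind B) hf with h | h
  · exact h
  · exact absurd (h ▸ hU) hB.2

theorem bd_faces' {B : UE × Bool} (hB : BD U B) {f : ℤ × ℤ} (hf : IsSide f B.1) (hU : f ∉ U) :
    f = ahead (rv B) := by
  have hne : ahead B ≠ ahead (rv B) := fun h => hB.2 (h ▸ hB.1)
  rcases side_two hne (side_ahead B) (side_behind B) hf with h | h
  · exact absurd (h ▸ hB.1) hU
  · exact h

/-- **Excursions** join consecutive sides. -/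
theorem exc_consec (cU : EConn U) (hA : BD U A) (hm : Per U m A) (hanc : Anc ω U A.1)
    (hn : Nb ω e n) {i j : ℕ} (hij : i < j) (hjn : j ≤ n) (h0 : fb (pth ω e i) ∈ U)
    (h1 : fa (pth ω e j) ∈ U) (hout : ∀ l, i ≤ l → l < j → fa (pth ω e l) ∉ U)
    (hne0 : pth ω e i ≠ A.1) (hne1 : pth ω e j ≠ A.1) {x y : ℕ} (hx : x < m) (hy : y < m)
    (hxe : (side U A x).1 = pth ω e i) (hye : (side U A y).1 = pth ω e j) :
    max x y = min x y + 1 ∧ 1 ≤ min x y := by
  have hch : Relation.ReflTransGen (StepC Uᶜ) (fb (pth ω e i)) (fa (pth ω e j)) :=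
    Relation.ReflTransGen.mono (p := StepC Uᶜ)
      (fun b d (hbd : AdjF b d ∧ d ∈ U) => ⟨hbd.1, fun h => h hbd.2⟩) _ _ (cU _ h0 _ h1)
  obtain ⟨-, P, hP, hpar⟩ := chain_toggle (F := Uᶜ) (fun h => h h0) hch
  set X := Gs ω e i (j + 1) with hX
  set M : Set UE := symmDiff X P with hM
  have hev : ∀ f ∈ (Set.univ : Set (ℤ × ℤ)), EvenAt M f := by
    intro f _
    rw [evenAt_iff, hM, parAt_symmDiff, parAt_Gs hn (by omega) (by omega), hpar, fb_pth_succ]
    generalize ind2 (f = fb (pth ω e i)) = p
    generalize ind2 (f = fa (pth ω e j)) = q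
    revert p q
    decide
  obtain ⟨Φ, hΦ⟩ := hasPot_univ M hev
  have hnP : ∀ f, f ∉ U → ∀ a, IsSide f a → a ∉ P := fun f hf a ha h => hP a h f hf ha
  have hMX : ∀ f, f ∉ U → ∀ a, IsSide f a → (a ∈ M ↔ a ∈ X) := by
    intro f hf a ha
    have := hnP f hf a ha
    rw [hM, Set.mem_symmDiff]
    tauto
  have hinv : MtInv ω Uᶜ M := by
    intro f hf a a' hmt
    rw [hMX f hf a hmt.left, hMX f hf a' hmt.right]
    refine Gs_mt_iff hmt ?_ ?_
    · rintro ⟨h, -⟩
      exact hf (h ▸ h0)
    · rintro ⟨h, -⟩
      rw [fb_pth_succ] at h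
      exact hf (h ▸ h1)
  have hconn : ∀ p q, Conn ω Uᶜ p q → Φ p = Φ q := fun p q h =>
    hinv.conn (fun f _ => hΦ f (Set.mem_univ f)) h
  have hxy : x ≠ y := by
    rintro rfl
    have h2 : i = j := hn.inj (by omega) hjn (hxe.symm.trans hye)
    omega
  have hstep : ∀ k < m, (Φ (vert U A k) ≠ Φ (vert U A (k + 1)) ↔ (k = min x y ∨ k = max x y)) := by
    intro k hk
    have hbk := bd_side hA k
    rw [← hΦ.joins (Set.mem_univ _) (side_behind (side U A k)) (joins_side k),
      hMX _ hbk.2 _ (side_behind _)]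
    have h3 : (k = min x y ∨ k = max x y) ↔ (k = x ∨ k = y) := by
      rcases le_total x y with h | h
      · rw [min_eq_left h, max_eq_right h]
      · rw [min_eq_right h, max_eq_left h]
        tauto
    rw [h3]
    constructor
    · rintro ⟨l, hl1, hl2, hl⟩
      have h4 : IsSide (ahead (side U A k)) (pth ω e l) := by
        rw [hl]
        exact side_ahead _
      rcases side_fa_fb h4 with h5 | h5
      · have h6 : l = j := by
          by_contra hne
          exact hout l hl1 (by omega) (h5 ▸ hbk.1)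
        subst h6
        exact Or.inr (side_inj hA hm hk hy (hl.symm.trans hye.symm))
      · have h6 : l = i := by
          by_contra hne
          have h7 : fb (pth ω e l) = fa (pth ω e (l - 1)) := by
            rw [← fb_pth_succ, Nat.sub_add_cancel (by omega)]
          exact hout (l - 1) (by omega) (by omega) (by rw [← h7, ← h5]; exact hbk.1)
        subst h6
        exact Or.inl (side_inj hA hm hk hx (hl.symm.trans hxe.symm))
    · rintro (rfl | rfl)
      · exact ⟨i, le_rfl, by omega, hxe.symm⟩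
      · exact ⟨j, by omega, by omega, hye.symm⟩
  have hx0 : x ≠ 0 := by
    rintro rfl
    exact hne0 hxe.symm
  have hy0 : y ≠ 0 := by
    rintro rfl
    exact hne1 hye.symm
  have hmin : min x y < max x y := by
    rcases lt_or_gt_of_ne hxy with h | h
    · rw [min_eq_left h.le, max_eq_right h.le]; exact h
    · rw [min_eq_right h.le, max_eq_left h.le]; exact h
  have hmax : max x y < m := max_lt hx hy
  have hmin1 : 1 ≤ min x y := le_min (by omega) (by omega)
  refine ⟨?_, hmin1⟩
  by_contra hno
  obtain ⟨v1, v2, -⟩ := val_two (f := fun k => Φ (vert U A k)) hmin hstep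
  have hk : min x y + 1 < m := by omega
  obtain ⟨p, hp, hpc⟩ := hanc (side U A (min x y + 1)).1 (bd_side hA _).bdU (fun h => by
    have := side_inj hA hm hk hm.pos (show (side U A (min x y + 1)).1 = (side U A 0).1 from h)
    omega)
  have hp' : Φ p ≠ Φ (vert U A 0) := by
    rcases ends_joins (joins_side _) hp with rfl | rfl
    · exact v2 _ (by omega) (by omega) (by omega)
    · exact v2 _ (by omega) (by omega) (by omega)
  have h01 : Φ (vert U A 1) = Φ (vert U A 0) := v1 1 hmin1 (by omega)
  have hends : ∀ u, (u = ua A.1 ∨ u = ub A.1) → Φ u = Φ (vert U A 0) := by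
    intro u hu
    rcases ends_joins (show Joins A.1 (vert U A 0) (vert U A 1) from joins_side 0) hu with h | h
    · rw [h]
    · rw [h]; exact h01
  rcases hpc with h | h
  · exact hp' ((hconn _ _ h).trans (hends _ (Or.inl rfl)))
  · exact hp' ((hconn _ _ h).trans (hends _ (Or.inr rfl)))

/-- A function which does not change on the visited faces of `U` has one value on them. -/
theorem strand_val (hUf : U.Finite) (cU : EConn U) (he : Esc U) (hA : BD U A) (hm : Per U m A)
    (hanc : Anc ω U A.1) (hn : Nb ω e n) {s t : ℕ} (htn : t ≤ n) (hAs : A.1 = pth ω e s)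
    (hfs : fa (pth ω e s) ∈ U) {Φ : ℤ × ℤ → ZMod 2}
    (hΦ : ∀ l, s ≤ l → l ≤ t → fa (pth ω e l) ∈ U → Cst Φ (fa (pth ω e l))) :
    ∀ l, s ≤ l → l ≤ t → fa (pth ω e l) ∈ U → ∀ p, IsCor (fa (pth ω e l)) p →
      Φ p = Φ (vert U A 0) := by
  classical
  intro l
  induction l using Nat.strong_induction_on with
  | _ l ih =>
    intro hsl hlt hlU p hp
    have hfull : ∀ q, IsCor (fa (pth ω e l)) q → Φ q = Φ (vert U A 0) → Φ p = Φ (vert U A 0) :=
      fun q hq h => ((hΦ l hsl hlt hlU).cor hp hq).trans h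
    rcases Nat.eq_or_lt_of_le hsl with rfl | hsl'
    · refine hfull (vert U A 0) ?_ rfl
      have h1 : fa (pth ω e s) = ahead A := bd_faces hA (by rw [hAs]; exact isSide_fa _) hlU
      rw [h1]
      exact cor_vert 0
    · -- the last visit of `U` before `l`
      obtain ⟨r, hsr, hrl, hrU, hmax⟩ : ∃ r, s ≤ r ∧ r < l ∧ fa (pth ω e r) ∈ U ∧
          ∀ i, r < i → i < l → fa (pth ω e i) ∉ U := by
        set Q : Finset ℕ := (range l).filter fun r => s ≤ r ∧ fa (pth ω e r) ∈ U with hQ
        have hQm : ∀ r, r ∈ Q ↔ r < l ∧ s ≤ r ∧ fa (pth ω e r) ∈ U := fun r => by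
          rw [hQ, Finset.mem_filter, Finset.mem_range]
        have hne : Q.Nonempty := ⟨s, (hQm s).2 ⟨hsl', le_rfl, hfs⟩⟩
        obtain ⟨h1, h2, h3⟩ := (hQm _).1 (Finset.max'_mem Q hne)
        refine ⟨Q.max' hne, h2, h1, h3, fun i hi1 hi2 hi3 => ?_⟩
        have := Finset.le_max' Q i ((hQm i).2 ⟨hi2, by omega, hi3⟩)
        omega
      have hr := ih r hrl hsr (by omega) hrU
      rcases Nat.eq_or_lt_of_le (show r + 1 ≤ l by omega) with h1 | h1
      · refine hfull (ua (pth ω e l)) (PotB.cor_ua (isSide_fa _)) (hr _ ?_)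
        have h2 : fa (pth ω e r) = fb (pth ω e l) := by rw [← h1, fb_pth_succ]
        rw [h2]
        exact PotB.cor_ua (isSide_fb _)
      · have hb0 : fb (pth ω e (r + 1)) ∈ U := by rw [fb_pth_succ]; exact hrU
        have hb1 : fa (pth ω e (r + 1)) ∉ U := hmax (r + 1) (by omega) h1
        have hb2 : fb (pth ω e l) ∉ U := by
          have h2 : fb (pth ω e l) = fa (pth ω e (l - 1)) := by
            rw [← fb_pth_succ, Nat.sub_add_cancel (by omega)]
          rw [h2]
          exact hmax (l - 1) (by omega) (by omega)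
        obtain ⟨x, hx, hxe⟩ := exists_idx hUf cU he hA hm (a := pth ω e (r + 1))
          ⟨⟨_, hb0, isSide_fb _⟩, _, hb1, isSide_fa _⟩
        obtain ⟨y, hy, hye⟩ := exists_idx hUf cU he hA hm (a := pth ω e l)
          ⟨⟨_, hlU, isSide_fa _⟩, _, hb2, isSide_fb _⟩
        have hne0 : pth ω e (r + 1) ≠ A.1 := fun h => by
          have := hn.inj (by omega) (by omega) (h.trans hAs)
          omega
        have hne1 : pth ω e l ≠ A.1 := fun h => by
          have := hn.inj (by omega) (by omega) (h.trans hAs)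
          omega
        obtain ⟨h2, -⟩ := exc_consec cU hA hm hanc hn h1 (by omega) hb0 hlU
          (fun i hi1 hi2 => hmax i (by omega) hi2) hne0 hne1 hx hy hxe hye
        have hv : ∀ k, (k = x ∨ k = y) → vert U A (max x y) = vert U A k ∨
            vert U A (max x y) = vert U A (k + 1) := by
          rintro k (rfl | rfl)
          · rcases le_total k y with h | h
            · right
              rw [max_eq_right h, min_eq_left h] at h2
              rw [max_eq_right h, h2]
            · left
              rw [max_eq_left h]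
          · rcases le_total x k with h | h
            · left
              rw [max_eq_right h]
            · right
              rw [max_eq_left h, min_eq_right h] at h2
              rw [max_eq_left h, h2]
        have c1 : IsCor (fa (pth ω e r)) (vert U A (max x y)) := by
          have h3 : fa (pth ω e r) = fb (pth ω e (r + 1)) := by rw [fb_pth_succ]
          have h4 := cor_side (f := fb (pth ω e (r + 1))) (isSide_fb _)
            (hxe ▸ joins_side (D := U) (A := A) x)
          rw [h3]
          rcases hv x (Or.inl rfl) with h5 | h5 <;> rw [h5]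
          · exact h4.1
          · exact h4.2
        have c2 : IsCor (fa (pth ω e l)) (vert U A (max x y)) := by
          have h4 := cor_side (f := fa (pth ω e l)) (isSide_fa _)
            (hye ▸ joins_side (D := U) (A := A) y)
          rcases hv y (Or.inr rfl) with h5 | h5 <;> rw [h5]
          · exact h4.1
          · exact h4.2
        exact hfull _ c2 (hr _ c1)

/-- **(D1)** The strand from the tip followed by the connected set `Z` is not crossed by the
connected set `H`. -/
theorem strand_nc (hUf : U.Finite) (cU : EConn U) (he : Esc U) (hA : BD U A) (hm : Per U m A)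
    (hanc : Anc ω U A.1) (hn : Nb ω e n) {s t : ℕ} (hst : s ≤ t) (htn : t ≤ n)
    (hAs : A.1 = pth ω e s) (hfs : fa (pth ω e s) ∈ U) {Z H : Set (ℤ × ℤ)} (hZU : Z ⊆ U)
    (cZ : EConn Z) (htZ : fa (pth ω e t) ∈ Z) (hHU : H ⊆ U) (cH : EConn H)
    (hHv : ∀ l, s ≤ l → l < t → fa (pth ω e l) ∉ H) (hHZ : ∀ f ∈ Z, f ∉ H) {x y z : ℕ}
    (hxy : x < y) (hym : y < m) (hx : inF U A x ∈ H) (hy : inF U A y ∈ H)
    (hz : inF U A z ∈ Z ∨ ∃ l, s ≤ l ∧ l < t ∧ inF U A z = fa (pth ω e l)) :
    ¬ (x < z ∧ z < y) := by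
  rintro ⟨h1, h2⟩
  obtain ⟨Φ, g1, -, g3, -⟩ := conn_pot_idx (he.hasPot' hUf) hHU cH hA hm hxy hym hx hy
  have hcst : ∀ l, s ≤ l → l ≤ t → fa (pth ω e l) ∈ U → Cst Φ (fa (pth ω e l)) := by
    intro l hl1 hl2 hlU
    refine g1 _ hlU ?_
    rcases Nat.eq_or_lt_of_le hl2 with rfl | h3
    · exact hHZ _ htZ
    · exact hHv l hl1 h3
  have hval := strand_val hUf cU he hA hm hanc hn htn hAs hfs hcst
  refine g3 z h1 h2.le ?_
  rcases hz with hz | ⟨l, hl1, hl2, hl⟩
  · have h3 : Φ (ua (pth ω e t)) = Φ (vert U A z) :=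
      Cst.econn cZ (fun f hf => g1 f (hZU hf) (hHZ f hf)) htZ hz (PotB.cor_ua (isSide_fa _))
        (cor_vert z)
    rw [← h3]
    exact hval t hst le_rfl (hZU htZ) _ (PotB.cor_ua (isSide_fa _))
  · have hzU : inF U A z ∈ U := inF_mem hA z
    exact hval l hl1 hl2.le (hl ▸ hzU) _ (hl ▸ cor_vert z)

end Pool.Agent.SixB.Cnt
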