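import Pool.Agent.Lib.SixB.TopCont
import Pool.Agent.Lib.SixB.S7Defs
import Pool.Agent.Lib.SixB.S7TopA

/-!
# Existence of the contour

A finite edge connected region without holes has a contour (`Ctr` of `S7Defs`), starting at any
boundary side, with `F` on the left.
-/

set_option autoImplicit false

namespace Pool.Agent.SixB.Top

open Finset Pool.Agent.Perc Pool.Agent.Perc6 Pool.Agent.Perc6.C2Aux Pool.Agent.Perc.Tips

theorem finite_ahead {F : Set (ℤ × ℤ)} (hF : F.Finite) : {A : UE × Bool | ahead A ∈ F}.Finite := by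
  have h : {A : UE × Bool | ahead A ∈ F} ⊆ ⋃ f ∈ F, ({((f.1, f.2, false), true),
      ((f.1, f.2, true), true), ((f.1, f.2 + 1, false), false), ((f.1 + 1, f.2, true), false)} :
      Set (UE × Bool)) := by
    rintro ⟨⟨x, y, _ | _⟩, _ | _⟩ hA
    · exact Set.mem_biUnion hA (by simp [ahead])
    · exact Set.mem_biUnion hA (by simp [ahead])
    · exact Set.mem_biUnion hA (by simp [ahead])
    · exact Set.mem_biUnion hA (by simp [ahead])
  refine Set.Finite.subset (hF.biUnion fun f _ => ?_) h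
  exact Set.toFinite _

theorem BD.iterate {F : Set (ℤ × ℤ)} {A : UE × Bool} (h : BD F A) (n : ℕ) :
    BD F ((sc F)^[n] A) := by
  induction n with
  | zero => exact h
  | succ n ih =>
    rw [Function.iterate_succ_apply']
    exact ih.step

theorem BD.eq_of_fst {F : Set (ℤ × ℤ)} {A B : UE × Bool} (hA : BD F A) (hB : BD F B)
    (h : A.1 = B.1) : A = B := by
  obtain ⟨a, c⟩ := A
  obtain ⟨b, d⟩ := B
  simp only at h
  subst h
  rw [hA.unique hB]

/-- Every boundary side is periodic. -/
theorem exists_period {F : Set (ℤ × ℤ)} (hF : F.Finite) {A : UE × Bool} (h : BD F A) :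
    ∃ n, 0 < n ∧ (sc F)^[n] A = A := by
  have hfin : {A : UE × Bool | BD F A}.Finite := (finite_ahead hF).subset fun A hA => hA.1
  -- two iterates coincide
  have hni : ¬ Set.InjOn (fun n : ℕ => (sc F)^[n] A) Set.univ := by
    intro hi
    have := Set.infinite_of_injOn_mapsTo (t := {A : UE × Bool | BD F A}) hi
      (fun n _ => h.iterate n) Set.infinite_univ
    exact this hfin
  unfold Set.InjOn at hni
  push Not at hni
  obtain ⟨i, -, j, -, hij, hne⟩ := hni
  have key : ∀ i j : ℕ, (sc F)^[i] A = (sc F)^[i + j] A → (sc F)^[j] A = A := by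
    intro i
    induction i with
    | zero => intro j hj; simpa using hj.symm
    | succ i ih =>
      intro j hj
      apply ih
      rw [show i + 1 + j = i + j + 1 by ring, Function.iterate_succ_apply',
        Function.iterate_succ_apply'] at hj
      exact sc_inj (h.iterate i) (h.iterate (i + j)) hj
  rcases lt_or_gt_of_ne hne with hlt | hlt
  · refine ⟨j - i, by omega, key i (j - i) ?_⟩
    rw [show i + (j - i) = j by omega]
    exact hij
  · refine ⟨i - j, by omega, key j (i - j) ?_⟩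
    rw [show j + (i - j) = i by omega]
    exact hij.symm

/-- **One orbit.** -/
theorem contour_all {F : Set (ℤ × ℤ)} (hF : F.Finite) (hc : EConn F) (he : Esc F)
    {A : UE × Bool} (hA : BD F A) {a : UE} (ha : BdU F a) : ∃ n, ((sc F)^[n] A).1 = a := by
  classical
  obtain ⟨L, hL, hper⟩ := exists_period hF hA
  set O : Set UE := {a | ∃ n, ((sc F)^[n] A).1 = a} with hO
  have hb : ∀ a ∈ O, BdU F a := by
    rintro _ ⟨n, rfl⟩
    exact (hA.iterate n).bdU
  have hs : ∀ B, BD F B → (B.1 ∈ O ↔ (sc F B).1 ∈ O) := by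
    intro B hB
    constructor
    · rintro ⟨n, hn⟩
      have h1 : (sc F)^[n] A = B := (hA.iterate n).eq_of_fst hB hn
      exact ⟨n + 1, by rw [Function.iterate_succ_apply', h1]⟩
    · rintro ⟨n, hn⟩
      have h1 : (sc F)^[n] A = sc F B := (hA.iterate n).eq_of_fst hB.step hn
      -- replace `n` by `n + L`
      have h2 : (sc F)^[n + L] A = sc F B := by
        rw [Function.iterate_add_apply, hper]
        exact h1
      obtain ⟨k, hk⟩ : ∃ k, n + L = k + 1 := ⟨n + L - 1, by omega⟩
      rw [hk, Function.iterate_succ_apply'] at h2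
      have h3 := sc_inj (hA.iterate k) hB h2
      exact ⟨k, by rw [h3]⟩
  have hfin : O.Finite := by
    have : O ⊆ Prod.fst '' {A : UE × Bool | ahead A ∈ F} := by
      rintro _ ⟨n, rfl⟩
      exact ⟨_, (hA.iterate n).1, rfl⟩
    exact ((finite_ahead hF).image _).subset this
  -- bounds
  obtain ⟨N, hN⟩ : ∃ N : ℤ, ∀ a ∈ O, |a.1| < N ∧ |a.2.1| < N := by
    refine ⟨1 + ∑ a ∈ hfin.toFinset, (|a.1| + |a.2.1|), fun a ha => ?_⟩
    have h1 : |a.1| + |a.2.1| ≤ ∑ a ∈ hfin.toFinset, (|a.1| + |a.2.1|) :=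
      Finset.single_le_sum (f := fun a : UE => |a.1| + |a.2.1|) (fun _ _ => by positivity)
        (hfin.mem_toFinset.mpr ha)
    have b1 := abs_nonneg a.1
    have b2 := abs_nonneg a.2.1
    omega
  have hlow : ∀ a ∈ O, -N < a.2.1 := fun a ha => by
    have := (hN a ha).2
    have h2 := neg_abs_le a.2.1
    omega
  have hev := evenV_of_stable hb hs
  have hside : ∀ {a : UE} {f g : ℤ × ℤ}, IsSide f a → IsSide g a → f ≠ g →
      (a ∈ O ↔ chi (-N) O f ≠ chi (-N) O g) := fun hf hg hne => chi_side hlow hev hf hg hne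
  -- constant on `F`
  have hin : ∀ {f g : ℤ × ℤ}, f ∈ F → g ∈ F → chi (-N) O f = chi (-N) O g := by
    intro f g hf hg
    have hch := hc f hf g hg
    clear hg
    induction hch with
    | refl => rfl
    | @tail b c hbc hstep ih =>
      rw [ih]
      obtain ⟨⟨hne, s, h1, h2⟩, hcF⟩ := hstep
      have hbF : b ∈ F := by
        rcases Relation.ReflTransGen.cases_tail hbc with h | ⟨d, -, h⟩
        · rw [h]; exact hf
        · exact h.2
      by_contra hn
      obtain ⟨-, k, hk, hks⟩ := hb s ((hside h1 h2 hne).2 hn)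
      rcases side_two hne h1 h2 hks with rfl | rfl
      · exact hk hbF
      · exact hk hcF
  -- zero outside
  have hout : ∀ {f : ℤ × ℤ}, f ∉ F → chi (-N) O f = 0 := by
    intro f hf
    obtain ⟨g, hg, hch⟩ := he f hf N
    have h1 : chi (-N) O f = chi (-N) O g := by
      clear hg
      induction hch with
      | refl => rfl
      | @tail b c hbc hstep ih =>
        rw [ih]
        obtain ⟨⟨hne, s, h1, h2⟩, hcF⟩ := hstep
        have hbF := chain_notMem hf hbc
        by_contra hn
        obtain ⟨⟨k, hk, hks⟩, -⟩ := hb s ((hside h1 h2 hne).2 hn)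
        rcases side_two hne h1 h2 hks with rfl | rfl
        · exact hbF hk
        · exact hcF hk
    rw [h1]
    exact chi_far hlow hev hN le_rfl hg
  have hA0 : A.1 ∈ O := ⟨0, rfl⟩
  have h1 := (chi_iff hlow hev A).1 hA0
  rw [hout hA.2] at h1
  obtain ⟨⟨f, hf, hfs⟩, g, hg, hgs⟩ := ha
  have hne : f ≠ g := by
    rintro rfl
    exact hg hf
  have h2 : a ∈ O := by
    rw [hside hfs hgs hne, hout hg, hin hf hA.1]
    exact h1
  exact h2

/-- **The contour.** -/
theorem exists_dctr {F : Set (ℤ × ℤ)} (hF : F.Finite) (hc : EConn F) (he : Esc F)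
    {A : UE × Bool} (hA : BD F A) :
    ∃ m, 0 < m ∧ (sc F)^[m] A = A ∧
      (∀ i < m, ∀ j < m, (sc F)^[i] A = (sc F)^[j] A → i = j) ∧
      Ctr F m (fun i => lf ((sc F)^[i] A)) := by
  obtain ⟨L, hL, hper⟩ := exists_period hF hA
  have hp : A ∈ Function.periodicPts (sc F) := ⟨L, hL, hper⟩
  have hm := Function.minimalPeriod_pos_of_mem_periodicPts hp
  set m := Function.minimalPeriod (sc F) A with hmdef
  have hmp : (sc F)^[m] A = A := Function.isPeriodicPt_minimalPeriod (sc F) A
  have hinj : ∀ i < m, ∀ j < m, (sc F)^[i] A = (sc F)^[j] A → i = j := by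
    intro i hi j hj hij
    exact Function.iterate_injOn_Iio_minimalPeriod (f := sc F) (x := A) hi hj hij
  have hj : ∀ i, Joins ((sc F)^[i] A).1 (lf ((sc F)^[i] A)) (lf ((sc F)^[i + 1] A)) := by
    intro i
    rw [Function.iterate_succ_apply', lf_sc]
    exact joins_lf_rg _
  refine ⟨m, hm, hmp, hinj, ⟨?_, ?_, ?_, ?_, he.hasPot' hF⟩⟩
  · simp only [Function.iterate_zero, id_eq]
    rw [hmp]
  · intro i _
    exact ⟨_, (hA.iterate i).bdU, hj i⟩
  · intro e hb
    obtain ⟨n, hn⟩ := contour_all hF hc he hA hb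
    refine ⟨n % m, Nat.mod_lt _ hm, ?_⟩
    have h1 : (sc F)^[n % m] A = (sc F)^[n] A := Function.iterate_mod_minimalPeriod_eq
    have h2 := hj (n % m)
    have h3 : ((sc F)^[n % m] A).1 = e := by rw [h1, hn]
    rw [h3] at h2
    exact h2
  · intro i hi k hk e h1 h2
    have e1 := Joins.uniq h1 (hj i)
    have e2 := Joins.uniq h2 (hj k)
    apply hinj i hi k hk
    exact (hA.iterate i).eq_of_fst (hA.iterate k) (e1.symm.trans e2)

theorem exists_boundary {F : Set (ℤ × ℤ)} (hF : F.Finite) (hne : F.Nonempty) :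
    ∃ A, BD F A := by
  obtain ⟨x₀, x₁, y₀, y₁, hb⟩ := exists_RF hF
  obtain ⟨f, hf⟩ := hne
  -- go to the left until `F` is left
  have key : ∀ (n : ℕ) (f : ℤ × ℤ), f ∈ F → f.1 - x₀ ≤ n → ∃ g, g ∈ F ∧ (g.1 - 1, g.2) ∉ F := by
    intro n
    induction n with
    | zero =>
      intro f hf hn
      refine ⟨f, hf, fun h => ?_⟩
      have := hb _ h
      simp only [RF, mem_product, mem_Ico, Nat.cast_zero] at this hn
      omega
    | succ n ih =>
      intro f hf hn
      by_cases h : (f.1 - 1, f.2) ∈ F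
      · exact ih _ h (by simp only; push_cast at hn; omega)
      · exact ⟨f, hf, h⟩
  obtain ⟨g, hg, hg'⟩ := key (f.1 - x₀).toNat f hf (Int.self_le_toNat _)
  refine ⟨((g.1, g.2, true), true), hg, ?_⟩
  simpa [rv, ahead] using hg'

theorem exists_ctr {F : Set (ℤ × ℤ)} (hF : F.Finite) (hne : F.Nonempty) (hc : EConn F)
    (he : Esc F) : ∃ m w, 0 < m ∧ Ctr F m w := by
  obtain ⟨A, hA⟩ := exists_boundary hF hne
  obtain ⟨m, hm, -, -, h⟩ := exists_dctr hF hc he hA
  exact ⟨m, _, hm, h⟩

end Pool.Agent.SixB.Top
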