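import Pool.Agent.Lib.SixB.S8Exit
import Pool.Agent.Lib.SixB.S8Clu
import Pool.Agent.Lib.SixB.TopCtr

/-!
# Step 8: the corners of the solid parts on the contour of the fresh region

* `face_lemma`: the two diagonals of a face are not both joined outside the face.
* `diag_false`: a fresh region `D` which is adjacent to the solid part `Ke` of colour `c` has no face
  which meets `Ke` only in a vertex between two faces of the solid part of the other colour.
* `corner_side`: every vertex of parity `c` common to `D` and `Ke` is an end of a side common to `D`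
  and `Ke`.
-/

set_option autoImplicit false

namespace Pool.Agent.SixB

open Finset Pool.Agent.Perc Pool.Agent.Perc6

variable {ω ω' : Cfg} {R F D K Ke Ko : Set (ℤ × ℤ)} {c : ℤ}

/-! ### Sets of unit edges which are invariant under the matching -/

/-- `S` is invariant under the matching in the faces of `F`. -/
def MtInv (ω : Cfg) (F : Set (ℤ × ℤ)) (S : Set UE) : Prop :=
  ∀ g ∈ F, ∀ a a', Mt ω g a a' → (a ∈ S ↔ a' ∈ S)

theorem minv_MM (ω : Cfg) (F : Set (ℤ × ℤ)) (e : UE) : MtInv ω F (MM ω F e) :=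
  fun _ hg _ _ h => MM_iff hg h

theorem MtInv.union {S T : Set UE} (hS : MtInv ω F S) (hT : MtInv ω F T) : MtInv ω F (S ∪ T) := by
  intro g hg a a' h
  rw [Set.mem_union, Set.mem_union, hS g hg a a' h, hT g hg a a' h]

theorem MtInv.even {S : Set UE} (h : MtInv ω F S) {g : ℤ × ℤ} (hg : g ∈ F) : EvenAt S g := by
  unfold EvenAt
  cases hω : ω g with
  | true =>
    have h1 := h g hg (bo g) (ri g) (Or.inl ⟨hω, Or.inl ⟨rfl, rfl⟩⟩)
    have h2 := h g hg (le' g) (to' g) (Or.inl ⟨hω, Or.inr (Or.inr (Or.inl ⟨rfl, rfl⟩))⟩)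
    rw [ind2_congr h1, ind2_congr h2, z2_add_self, z2_add_self, add_zero]
  | false =>
    have h1 := h g hg (bo g) (le' g) (Or.inr ⟨hω, Or.inl ⟨rfl, rfl⟩⟩)
    have h2 := h g hg (to' g) (ri g) (Or.inr ⟨hω, Or.inr (Or.inr (Or.inl ⟨rfl, rfl⟩))⟩)
    rw [ind2_congr h1, ind2_congr h2]
    generalize ind2 (le' g ∈ S) = p1
    generalize ind2 (ri g ∈ S) = p2
    revert p1 p2
    decide

theorem joins_bo' (x y : ℤ) : Joins (bo (x, y)) (x, y) (x + 1, y) := by
  left; simp [bo, ua, ub]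

theorem joins_le' (x y : ℤ) : Joins (le' (x, y)) (x, y) (x, y + 1) := by
  left; simp [le', ua, ub]

theorem joins_to' (x y : ℤ) : Joins (to' (x, y)) (x, y + 1) (x + 1, y + 1) := by
  left; simp [to', ua, ub]

theorem joins_ri' (x y : ℤ) : Joins (ri (x, y)) (x + 1, y) (x + 1, y + 1) := by
  left; simp [ri, ua, ub]

theorem isSide_bo' (f : ℤ × ℤ) : IsSide f (bo f) := Or.inl rfl
theorem isSide_le' (f : ℤ × ℤ) : IsSide f (le' f) := Or.inr (Or.inl rfl)
theorem isSide_to' (f : ℤ × ℤ) : IsSide f (to' f) := Or.inr (Or.inr (Or.inl rfl))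
theorem isSide_ri' (f : ℤ × ℤ) : IsSide f (ri f) := Or.inr (Or.inr (Or.inr rfl))

/-- The potential of an invariant set is constant on the clusters. -/
theorem MtInv.conn {S : Set UE} (h : MtInv ω F S) {Φ : ℤ × ℤ → ZMod 2} (hΦ : IsPot F S Φ)
    {p q : ℤ × ℤ} (hc : Conn ω F p q) : Φ p = Φ q := by
  induction hc with
  | refl => rfl
  | tail _ hb ih =>
    rw [ih]
    obtain ⟨x, y, hf, h'⟩ := hb
    have b1 := hΦ.joins hf (isSide_bo' _) (joins_bo' x y)
    have b2 := hΦ.joins hf (isSide_le' _) (joins_le' x y)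
    have b3 := hΦ.joins hf (isSide_to' _) (joins_to' x y)
    have b4 := hΦ.joins hf (isSide_ri' _) (joins_ri' x y)
    rcases h' with ⟨hω, h'⟩ | ⟨hω, h'⟩
    · have h1 := h _ hf (bo (x, y)) (ri (x, y)) (Or.inl ⟨hω, Or.inl ⟨rfl, rfl⟩⟩)
      have h2 : Φ (x, y) = Φ (x + 1, y + 1) := by
        rw [b1, b4] at h1
        revert h1
        generalize Φ (x, y) = s
        generalize Φ (x + 1, y) = t
        generalize Φ (x + 1, y + 1) = u
        revert s t u
        decide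
      rcases h' with ⟨rfl, rfl⟩ | ⟨rfl, rfl⟩
      · exact h2
      · exact h2.symm
    · have h1 := h _ hf (bo (x, y)) (le' (x, y)) (Or.inr ⟨hω, Or.inl ⟨rfl, rfl⟩⟩)
      have h2 : Φ (x, y + 1) = Φ (x + 1, y) := by
        rw [b1, b2] at h1
        revert h1
        generalize Φ (x, y) = s
        generalize Φ (x + 1, y) = t
        generalize Φ (x, y + 1) = u
        revert s t u
        decide
      rcases h' with ⟨rfl, rfl⟩ | ⟨rfl, rfl⟩
      · exact h2
      · exact h2.symm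

/-! ### The two diagonals of a face -/

/-- All four sides of `f` or none, if both diagonals are joined outside `f`. -/
theorem all_or_none (hR : HasPot R) {x y : ℤ} (hf : ((x, y) : ℤ × ℤ) ∈ R)
    (h1 : Conn ω (R \ {(x, y)}) (x, y) (x + 1, y + 1))
    (h2 : Conn ω (R \ {(x, y)}) (x, y + 1) (x + 1, y)) {S : Set UE}
    (hS : MtInv ω (R \ {(x, y)}) S) (hev : EvenAt S (x, y)) :
    (bo (x, y) ∈ S ↔ ri (x, y) ∈ S) ∧ (bo (x, y) ∈ S ↔ to' (x, y) ∈ S) ∧
      (bo (x, y) ∈ S ↔ le' (x, y) ∈ S) := by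
  obtain ⟨Φ, hΦ⟩ := hR S (fun g hg => by
    by_cases hgf : g = (x, y)
    · rw [hgf]; exact hev
    · exact hS.even ⟨hg, hgf⟩)
  have hΦ' : IsPot (R \ {(x, y)}) S Φ := fun g hg a ha => hΦ g hg.1 a ha
  have e1 := hS.conn hΦ' h1
  have e2 := hS.conn hΦ' h2
  rw [hΦ.joins hf (isSide_bo' _) (joins_bo' x y), hΦ.joins hf (isSide_le' _) (joins_le' x y),
    hΦ.joins hf (isSide_to' _) (joins_to' x y), hΦ.joins hf (isSide_ri' _) (joins_ri' x y), ← e1, ← e2]
  refine ⟨?_, ?_, Iff.rfl⟩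
  · exact ne_comm
  · exact ne_comm

/-- **The two diagonals of a face are not both joined outside the face.** -/
theorem face_lemma (hR : HasPot R) {x y : ℤ} (hf : ((x, y) : ℤ × ℤ) ∈ R)
    (h1 : Conn ω (R \ {(x, y)}) (x, y) (x + 1, y + 1))
    (h2 : Conn ω (R \ {(x, y)}) (x, y + 1) (x + 1, y)) : False := by
  set E : Set (ℤ × ℤ) := R \ {(x, y)} with hE
  have hsub : E ⊆ R := Set.sdiff_subset
  -- a side of the face which is in the component of another side is on the boundary of `E`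
  have hbd : ∀ s t : UE, IsSide (x, y) s → IsSide (x, y) t → s ≠ t → t ∈ MM ω E s →
      BdU E s ∧ BdU E t := by
    intro s t hs ht hne hm
    have h3 : ∃ g ∈ E, IsSide g t := by
      rcases Relation.ReflTransGen.cases_tail hm with h' | ⟨b, -, g, hg, hmt⟩
      · exact absurd h' hne.symm
      · exact ⟨g, hg, hmt.right⟩
    have h4 : ∃ g ∈ E, IsSide g s := by
      rcases Relation.ReflTransGen.cases_head hm with h' | ⟨b, ⟨g, hg, hmt⟩, -⟩
      · exact absurd h' hne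
      · exact ⟨g, hg, hmt.left⟩
    exact ⟨⟨h4, (x, y), fun hh => hh.2 rfl, hs⟩, h3, (x, y), fun hh => hh.2 rfl, ht⟩
  have htwo : ∀ s t t' : UE, IsSide (x, y) s → IsSide (x, y) t → IsSide (x, y) t' → s ≠ t →
      s ≠ t' → t ≠ t' → t ∈ MM ω E s → t' ∈ MM ω E s → False := by
    intro s t t' hs ht ht' n1 n2 n3 m1 m2
    obtain ⟨b1, b2⟩ := hbd s t hs ht n1 m1
    obtain ⟨-, b3⟩ := hbd s t' hs ht' n2 m2
    exact n3 (bdU_unique b1 m1 m2 b2 b3 (Ne.symm n1) (Ne.symm n2))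
  have nbr : bo (x, y) ≠ ri (x, y) := by simp [bo, ri]
  have nbt : bo (x, y) ≠ to' (x, y) := by simp [bo, to']
  have nbl : bo (x, y) ≠ le' (x, y) := by simp [bo, le']
  have nrt : ri (x, y) ≠ to' (x, y) := by simp [ri, to']
  have nrl : ri (x, y) ≠ le' (x, y) := by simp [ri, le']
  have ntl : to' (x, y) ≠ le' (x, y) := by simp [to', le']
  have sb := isSide_bo' (x, y)
  have sr := isSide_ri' (x, y)
  have st := isSide_to' (x, y)
  have sl := isSide_le' (x, y)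
  -- a component with exactly two sides is impossible
  have B := minv_MM ω E (bo (x, y))
  have C := minv_MM ω E (ri (x, y))
  have hbb : bo (x, y) ∈ MM ω E (bo (x, y)) := mem_MM_self
  have hrr : ri (x, y) ∈ MM ω E (ri (x, y)) := mem_MM_self
  by_cases m1 : ri (x, y) ∈ MM ω E (bo (x, y))
  · have m2 : to' (x, y) ∉ MM ω E (bo (x, y)) := fun h => htwo _ _ _ sb sr st nbr nbt nrt m1 h
    have m3 : le' (x, y) ∉ MM ω E (bo (x, y)) := fun h => htwo _ _ _ sb sr sl nbr nbl nrl m1 h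
    have hev : EvenAt (MM ω E (bo (x, y))) (x, y) := by
      unfold EvenAt
      rw [ind2_pos hbb, ind2_pos m1, ind2_neg m2, ind2_neg m3]; decide
    exact m2 ((all_or_none hR hf h1 h2 B hev).2.1.1 hbb)
  by_cases m2 : to' (x, y) ∈ MM ω E (bo (x, y))
  · have m3 : le' (x, y) ∉ MM ω E (bo (x, y)) := fun h => htwo _ _ _ sb st sl nbt nbl ntl m2 h
    have hev : EvenAt (MM ω E (bo (x, y))) (x, y) := by
      unfold EvenAt
      rw [ind2_pos hbb, ind2_neg m1, ind2_pos m2, ind2_neg m3]; decide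
    exact m1 ((all_or_none hR hf h1 h2 B hev).1.1 hbb)
  by_cases m3 : le' (x, y) ∈ MM ω E (bo (x, y))
  · have hev : EvenAt (MM ω E (bo (x, y))) (x, y) := by
      unfold EvenAt
      rw [ind2_pos hbb, ind2_neg m1, ind2_neg m2, ind2_pos m3]; decide
    exact m1 ((all_or_none hR hf h1 h2 B hev).1.1 hbb)
  -- the component of the right side
  have m4 : bo (x, y) ∉ MM ω E (ri (x, y)) := by
    intro h
    apply m1
    have hs : ∀ {a b : UE}, b ∈ MM ω E a → a ∈ MM ω E b := by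
      intro a b hab
      induction hab with
      | refl => exact mem_MM_self
      | tail _ hs ih =>
        obtain ⟨f, hf, hm⟩ := hs
        exact Relation.ReflTransGen.head ⟨f, hf, hm.symm⟩ ih
    exact hs h
  by_cases m5 : to' (x, y) ∈ MM ω E (ri (x, y))
  · have m6 : le' (x, y) ∉ MM ω E (ri (x, y)) := fun h => htwo _ _ _ sr st sl nrt nrl ntl m5 h
    have hev : EvenAt (MM ω E (ri (x, y))) (x, y) := by
      unfold EvenAt
      rw [ind2_neg m4, ind2_pos hrr, ind2_pos m5, ind2_neg m6]; decide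
    exact m4 ((all_or_none hR hf h1 h2 C hev).1.2 hrr)
  by_cases m6 : le' (x, y) ∈ MM ω E (ri (x, y))
  · have hev : EvenAt (MM ω E (ri (x, y))) (x, y) := by
      unfold EvenAt
      rw [ind2_neg m4, ind2_pos hrr, ind2_neg m5, ind2_pos m6]; decide
    exact m4 ((all_or_none hR hf h1 h2 C hev).1.2 hrr)
  · have hev : EvenAt (MM ω E (bo (x, y)) ∪ MM ω E (ri (x, y))) (x, y) := by
      have k1 : bo (x, y) ∈ MM ω E (bo (x, y)) ∪ MM ω E (ri (x, y)) := Or.inl hbb
      have k2 : ri (x, y) ∈ MM ω E (bo (x, y)) ∪ MM ω E (ri (x, y)) := Or.inr hrr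
      have k3 : to' (x, y) ∉ MM ω E (bo (x, y)) ∪ MM ω E (ri (x, y)) := fun h => h.elim m2 m5
      have k4 : le' (x, y) ∉ MM ω E (bo (x, y)) ∪ MM ω E (ri (x, y)) := fun h => h.elim m3 m6
      unfold EvenAt
      rw [ind2_pos k1, ind2_pos k2, ind2_neg k3, ind2_neg k4]; decide
    exact ((all_or_none hR hf h1 h2 (B.union C) hev).2.1.1 (Or.inl hbb)).elim m2 m5

/-- The face lemma for the four corners of a face. -/
theorem face_lemma' (hR : HasPot R) {f v q r₁ r₂ : ℤ × ℤ} (hf : f ∈ R) (hv : IsCor f v)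
    (hq : IsCor f q) (h1 : IsCor f r₁) (h2 : IsCor f r₂) (hvq : v ≠ q) (hpq : par v = par q)
    (hr : r₁ ≠ r₂) (hpr : par r₁ = par r₂) (hne : par r₁ ≠ par v)
    (hc : Conn ω (R \ {f}) v q) (hc' : Conn ω (R \ {f}) r₁ r₂) : False := by
  obtain ⟨x, y⟩ := f
  have key : ∀ {p q : ℤ × ℤ}, IsCor (x, y) p → IsCor (x, y) q → p ≠ q → par p = par q →
      Conn ω (R \ {(x, y)}) p q →
      (par p = par ((x, y) : ℤ × ℤ) ∧ Conn ω (R \ {(x, y)}) (x, y) (x + 1, y + 1)) ∨
      (par p ≠ par ((x, y) : ℤ × ℤ) ∧ Conn ω (R \ {(x, y)}) (x, y + 1) (x + 1, y)) := by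
    intro p q hp hq hpq hpar hc
    obtain ⟨p1, p2⟩ := p
    obtain ⟨q1, q2⟩ := q
    unfold IsCor at hp hq
    simp only at hp hq
    rcases hp with ⟨rfl | rfl, rfl | rfl⟩ <;> rcases hq with ⟨rfl | rfl, rfl | rfl⟩
    · exact absurd rfl hpq
    · exfalso; unfold par at hpar; simp only at hpar; omega
    · exfalso; unfold par at hpar; simp only at hpar; omega
    · exact Or.inl ⟨rfl, hc⟩
    · exfalso; unfold par at hpar; simp only at hpar; omega
    · exact absurd rfl hpq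
    · exact Or.inr ⟨by unfold par; simp only; omega, hc⟩
    · exfalso; unfold par at hpar; simp only at hpar; omega
    · exfalso; unfold par at hpar; simp only at hpar; omega
    · exact Or.inr ⟨by unfold par; simp only; omega, conn_symm hc⟩
    · exact absurd rfl hpq
    · exfalso; unfold par at hpar; simp only at hpar; omega
    · exact Or.inl ⟨by unfold par; simp only; omega, conn_symm hc⟩
    · exfalso; unfold par at hpar; simp only at hpar; omega
    · exfalso; unfold par at hpar; simp only at hpar; omega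
    · exact absurd rfl hpq
  rcases key hv hq hvq hpq hc with ⟨e1, g1⟩ | ⟨e1, g1⟩ <;>
    rcases key h1 h2 hr hpr hc' with ⟨e2, g2⟩ | ⟨e2, g2⟩
  · exact hne (e2.trans e1.symm)
  · exact face_lemma hR hf g1 g2
  · exact face_lemma hR hf g2 g1
  · have c1 := par_cases v
    have c2 := par_cases r₁
    have c3 := par_cases ((x, y) : ℤ × ℤ)
    omega

/-! ### Solid regions -/

/-- In a face which carries the bond of the colour `c` the corners of parity `c` are joined. -/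
theorem solid_face {g p q : ℤ × ℤ} (hg : g ∈ F) (hω : ω g = !parD c g)
    (hp : IsCor g p) (hq : IsCor g q) (hpc : par p = c) (hqc : par q = c) : Conn ω F p q := by
  obtain ⟨x, y⟩ := g
  obtain ⟨p1, p2⟩ := p
  obtain ⟨q1, q2⟩ := q
  unfold IsCor at hp hq
  unfold par at hpc hqc
  unfold parD at hω
  simp only at hp hq hpc hqc hω
  have step : ∀ {u v : ℤ × ℤ}, Bond ω F u v → Conn ω F u v :=
    fun h => Relation.ReflTransGen.single h
  rcases hp with ⟨rfl | rfl, rfl | rfl⟩ <;> rcases hq with ⟨rfl | rfl, rfl | rfl⟩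
  all_goals first
    | exact Relation.ReflTransGen.refl
    | (exfalso; omega)
    | skip
  · refine step ⟨_, _, hg, Or.inl ⟨?_, Or.inl ⟨rfl, rfl⟩⟩⟩
    rw [hω, decide_eq_false (by omega)]; rfl
  · refine step ⟨_, _, hg, Or.inr ⟨?_, Or.inl ⟨rfl, rfl⟩⟩⟩
    rw [hω, decide_eq_true (by omega)]; rfl
  · refine step ⟨_, _, hg, Or.inr ⟨?_, Or.inr ⟨rfl, rfl⟩⟩⟩
    rw [hω, decide_eq_true (by omega)]; rfl
  · refine step ⟨_, _, hg, Or.inl ⟨?_, Or.inr ⟨rfl, rfl⟩⟩⟩
    rw [hω, decide_eq_false (by omega)]; rfl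

theorem corners_of {f v : ℤ × ℤ} (hv : IsCor f v) : ∃ q r₁ r₂, IsCor f q ∧ IsCor f r₁ ∧
    IsCor f r₂ ∧ par q = par v ∧ q ≠ v ∧ r₁ ≠ r₂ ∧ par r₁ ≠ par v ∧ par r₂ ≠ par v ∧
    ∀ z, IsCor f z → par z = par v → z = v ∨ z = q := by
  obtain ⟨x, y⟩ := f
  obtain ⟨v1, v2⟩ := v
  unfold IsCor at hv
  simp only at hv
  refine ⟨(2 * x + 1 - v1, 2 * y + 1 - v2), (v1, 2 * y + 1 - v2), (2 * x + 1 - v1, v2), ?_, ?_, ?_,
    ?_, ?_, ?_, ?_, ?_, ?_⟩
  · unfold IsCor; simp only; omega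
  · unfold IsCor; simp only; omega
  · unfold IsCor; simp only; omega
  · unfold par; simp only; omega
  · simp only [ne_eq, Prod.mk.injEq]; omega
  · simp only [ne_eq, Prod.mk.injEq]; omega
  · unfold par; simp only; omega
  · unfold par; simp only; omega
  · rintro ⟨z1, z2⟩ hz hp
    unfold IsCor at hz
    unfold par at hp
    simp only at hz hp
    simp only [Prod.mk.injEq]
    omega

/-- A side has an end of each parity, which is a corner of its faces. -/
theorem side_end {f g : ℤ × ℤ} {s : UE} (hf : IsSide f s) (hg : IsSide g s) (c : ℤ)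
    (hc : c = 0 ∨ c = 1) : ∃ z z', Joins s z z' ∧ par z = c ∧ IsCor f z ∧ IsCor g z := by
  have h1 := par_cases (ua s)
  have h2 := par_cases (ub s)
  have h3 := par_ub s
  by_cases h : par (ua s) = c
  · exact ⟨ua s, ub s, Or.inl ⟨rfl, rfl⟩, h, PotB.cor_ua hf, PotB.cor_ua hg⟩
  · exact ⟨ub s, ua s, Or.inr ⟨rfl, rfl⟩, by omega, PotB.cor_ub hf, PotB.cor_ub hg⟩

/-- A fresh region `D` adjacent to the solid part `Ke` of colour `c` has no face which meets `Ke` in a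
vertex of parity `c` between two sides common with the solid part `Ko` of the other colour. -/
theorem diag_false (hR : HasPot R) (hc : c = 0 ∨ c = 1) (hD : D ⊆ R) (hKe : Ke ⊆ R)
    (hKo : Ko ⊆ R) (dE : ∀ f ∈ D, f ∉ Ke) (dO : ∀ f ∈ D, f ∉ Ko) (dK : ∀ f ∈ Ke, f ∉ Ko)
    (cD : Top.EConn D) (cE : ∀ u ∈ CorC c Ke, ∀ v ∈ CorC c Ke, Conn ω Ke u v)
    (cO : ∀ u ∈ CorC (1 - c) Ko, ∀ v ∈ CorC (1 - c) Ko, Conn ω Ko u v)
    (hDK : ∃ f ∈ D, ∃ g ∈ Ke, AdjF f g) {f v : ℤ × ℤ} (hf : f ∈ D) (hv : IsCor f v)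
    (hvK : v ∈ CorC c Ke)
    (hs : ∀ s z, IsSide f s → Joins s v z → ∃ g ∈ Ko, IsSide g s) : False := by
  obtain ⟨q, r₁, r₂, hq, hr1, hr2, pq, nq, nr, p1, p2, hall⟩ := corners_of hv
  have pv : par v = c := hvK.1
  set ω' : Cfg := setE c D ω with hω'
  have e1 : ∀ g ∈ Ke, ω g = ω' g := fun g hg => (setE_not (fun h => dE g h hg)).symm
  have e2 : ∀ g ∈ Ko, ω g = ω' g := fun g hg => (setE_not (fun h => dO g h hg)).symm
  have hcong : ∀ {G : Set (ℤ × ℤ)} {a b : ℤ × ℤ}, (∀ g ∈ G, ω g = ω' g) → Conn ω G a b →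
      Conn ω' G a b := by
    intro G a b hG h
    refine conn_induct (P := fun b => Conn ω' G a b) h Relation.ReflTransGen.refl ?_
    intro p q g _ hp hg hb _ _
    exact hp.tail (bond_of_single hg (bond_single_congr hb (hG g hg)))
  -- the other diagonal
  have hKo' : Ko ⊆ R \ {f} := fun g hg => ⟨hKo hg, fun h => dO f hf (by
    rw [Set.mem_singleton_iff] at h; rw [← h]; exact hg)⟩
  have hKe' : Ke ⊆ R \ {f} := fun g hg => ⟨hKe hg, fun h => dE f hf (by
    rw [Set.mem_singleton_iff] at h; rw [← h]; exact hg)⟩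
  have hrK : ∀ r, IsCor f r → par r ≠ par v → r ∈ CorC (1 - c) Ko := by
    intro r hr hp
    obtain ⟨s, hs1, hj⟩ := exists_side hv hr (Ne.symm hp)
    obtain ⟨g, hg, hgs⟩ := hs s r hs1 hj
    have c1 := par_cases r
    refine ⟨by omega, g, hg, ?_⟩
    rcases hj with ⟨-, rfl⟩ | ⟨-, rfl⟩
    · exact PotB.cor_ub hgs
    · exact PotB.cor_ua hgs
  have hc2 : Conn ω' (R \ {f}) r₁ r₂ :=
    (hcong e2 (cO r₁ (hrK r₁ hr1 p1) r₂ (hrK r₂ hr2 p2))).mono hKo'
  -- a side common to `f` and a face which is not in `Ko` contains `q`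
  have hside : ∀ s g, IsSide f s → IsSide g s → g ≠ f → g ∉ Ko → ∀ z z', Joins s z z' →
      par z = c → z = q := by
    intro s g hfs hgs hgf hgK z z' hj hz
    have hzc : IsCor f z := by
      rcases hj with ⟨rfl, -⟩ | ⟨rfl, -⟩
      · exact PotB.cor_ua hfs
      · exact PotB.cor_ub hfs
    rcases hall z hzc (by rw [hz, pv]) with h | h
    · exfalso
      subst h
      obtain ⟨g', hg', hs'⟩ := hs s z' hfs hj
      rcases side_two (Ne.symm hgf) hfs hgs hs' with h | h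
      · rw [h] at hg'; exact dO f hf hg'
      · rw [h] at hg'; exact hgK hg'
    · exact h
  -- all the corners of parity `c` of `D \ {f}` are joined to `q`
  have hQ : ∀ g ∈ D, g ≠ f → ∀ z, IsCor g z → par z = c → Conn ω' (D \ {f}) z q := by
    intro g hg
    have hch := cD f hf g hg
    clear hg
    induction hch with
    | refl => intro h; exact absurd rfl h
    | @tail b d hbc hstep ih =>
      intro hdf z hz hpz
      obtain ⟨⟨hne, s, h1, h2⟩, hdD⟩ := hstep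
      have hdω : ω' d = !parD c d := setE_mem hdD
      have hdm : d ∈ D \ {f} := ⟨hdD, hdf⟩
      obtain ⟨z0, z0', hj, pz0, cb, cd⟩ := side_end h1 h2 c hc
      have h3 : Conn ω' (D \ {f}) z z0 := solid_face hdm hdω hz cd hpz pz0
      by_cases hbf : b = f
      · rw [hbf] at h1
        rw [hside s d h1 h2 hdf (dO d hdD) z0 z0' hj pz0] at h3
        exact h3
      · exact conn_trans h3 (ih hbf z0 cb pz0)
  have hDR : D \ {f} ⊆ R \ {f} := fun g hg => ⟨hD hg.1, hg.2⟩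
  have hc1 : Conn ω' (R \ {f}) v q := by
    obtain ⟨f0, hf0, g0, hg0, hne, s, h1, h2⟩ := hDK
    obtain ⟨z0, z0', hj, pz0, cb, cd⟩ := side_end h1 h2 c hc
    have h3 : Conn ω' (R \ {f}) v z0 := (hcong e1 (cE v hvK z0 ⟨pz0, g0, hg0, cd⟩)).mono hKe'
    by_cases hff : f0 = f
    · rw [hff] at h1
      have hgf : g0 ≠ f := fun h => dE f hf (by rw [← h]; exact hg0)
      rw [hside s g0 h1 h2 hgf (dK g0 hg0) z0 z0' hj pz0] at h3
      exact h3
    · exact conn_trans h3 ((hQ f0 hf0 hff z0 cb pz0).mono hDR)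
  have p12 : par r₁ = par r₂ := by
    have c1 := par_cases r₁
    have c2 := par_cases r₂
    have c3 := par_cases v
    omega
  exact face_lemma' hR (hD hf) hv hq hr1 hr2 (Ne.symm nq) pq.symm nr p12 p1 hc1 hc2

/-- Two faces with a common corner: they have a common side at the corner, or both have common sides at
the corner with the two other faces at the corner. -/
theorem opp_cases {v d k : ℤ × ℤ} (hd : IsCor d v) (hk : IsCor k v) (hne : d ≠ k) :
    (∃ s z, IsSide d s ∧ IsSide k s ∧ Joins s v z) ∨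
    ∃ g₁ g₂, (∃ s z, IsSide d s ∧ IsSide g₁ s ∧ Joins s v z) ∧
      (∃ s z, IsSide d s ∧ IsSide g₂ s ∧ Joins s v z) ∧
      (∃ s z, IsSide g₁ s ∧ IsSide k s ∧ Joins s v z) ∧
      (∃ s z, IsSide g₂ s ∧ IsSide k s ∧ Joins s v z) ∧
      (∀ s z, IsSide d s → Joins s v z → IsSide g₁ s ∨ IsSide g₂ s) ∧
      IsCor g₁ v ∧ IsCor g₂ v ∧ g₁ ≠ d ∧ g₂ ≠ d ∧ g₁ ≠ k ∧ g₂ ≠ k := by
  obtain ⟨a, b⟩ := v
  -- the four faces at the vertex and the four sides
  have N1 : IsSide (a, b) (a, b, true) := Or.inr (Or.inl rfl)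
  have N2 : IsSide (a - 1, b) (a, b, true) := by right; right; right; simp [ri]
  have E1 : IsSide (a, b) (a, b, false) := Or.inl rfl
  have E2 : IsSide (a, b - 1) (a, b, false) := by right; right; left; simp [to']
  have W1 : IsSide (a - 1, b) (a - 1, b, false) := Or.inl rfl
  have W2 : IsSide (a - 1, b - 1) (a - 1, b, false) := by right; right; left; simp [to']
  have S1 : IsSide (a, b - 1) (a, b - 1, true) := Or.inr (Or.inl rfl)
  have S2 : IsSide (a - 1, b - 1) (a, b - 1, true) := by right; right; right; simp [ri]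
  have jN : Joins (a, b, true) (a, b) (a, b + 1) := by left; simp [ua, ub]
  have jE : Joins (a, b, false) (a, b) (a + 1, b) := by left; simp [ua, ub]
  have jW : Joins (a - 1, b, false) (a, b) (a - 1, b) := by right; simp [ua, ub]
  have jS : Joins (a, b - 1, true) (a, b) (a, b - 1) := by right; simp [ua, ub]
  have hfour : ∀ {f : ℤ × ℤ}, IsCor f (a, b) →
      f = (a, b) ∨ f = (a - 1, b) ∨ f = (a - 1, b - 1) ∨ f = (a, b - 1) := by
    rintro ⟨x, y⟩ h
    unfold IsCor at h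
    simp only at h
    simp only [Prod.mk.injEq]
    omega
  have hfs : ∀ {s : UE} {z : ℤ × ℤ}, Joins s (a, b) z →
      s = (a, b, true) ∨ s = (a, b, false) ∨ s = (a - 1, b, false) ∨ s = (a, b - 1, true) := by
    rintro ⟨s1, s2, _ | _⟩ z (⟨h, -⟩ | ⟨h, -⟩) <;> simp [ua, ub] at h <;> simp <;> omega
  have c1 : IsCor (a, b) (a, b) := ⟨Or.inl rfl, Or.inl rfl⟩
  have c2 : IsCor (a - 1, b) (a, b) := ⟨Or.inr (by simp), Or.inl rfl⟩
  have c3 : IsCor (a - 1, b - 1) (a, b) := ⟨Or.inr (by simp), Or.inr (by simp)⟩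
  have c4 : IsCor (a, b - 1) (a, b) := ⟨Or.inl rfl, Or.inr (by simp)⟩
  have n12 : ((a, b) : ℤ × ℤ) ≠ (a - 1, b) := by
    rw [ne_eq, Prod.mk.injEq]; omega
  have n14 : ((a, b) : ℤ × ℤ) ≠ (a, b - 1) := by
    rw [ne_eq, Prod.mk.injEq]; omega
  have n23 : ((a - 1, b) : ℤ × ℤ) ≠ (a - 1, b - 1) := by
    rw [ne_eq, Prod.mk.injEq]; omega
  have n34 : ((a - 1, b - 1) : ℤ × ℤ) ≠ (a, b - 1) := by
    rw [ne_eq, Prod.mk.injEq]; omega
  rcases hfour hd with rfl | rfl | rfl | rfl <;> rcases hfour hk with rfl | rfl | rfl | rfl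
  · exact absurd rfl hne
  · exact Or.inl ⟨_, _, N1, N2, jN⟩
  · refine Or.inr ⟨(a - 1, b), (a, b - 1), ⟨_, _, N1, N2, jN⟩, ⟨_, _, E1, E2, jE⟩,
      ⟨_, _, W1, W2, jW⟩, ⟨_, _, S1, S2, jS⟩, ?_, c2, c4, n12.symm, n14.symm, n23, n34.symm⟩
    intro s z h1 h2
    rcases hfs h2 with rfl | rfl | rfl | rfl
    · exact Or.inl N2
    · exact Or.inr E2
    · exfalso; simp [IsSide, bo, le', to', ri] at h1
    · exfalso; simp [IsSide, bo, le', to', ri] at h1
  · exact Or.inl ⟨_, _, E1, E2, jE⟩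
  · exact Or.inl ⟨_, _, N2, N1, jN⟩
  · exact absurd rfl hne
  · exact Or.inl ⟨_, _, W1, W2, jW⟩
  · refine Or.inr ⟨(a, b), (a - 1, b - 1), ⟨_, _, N2, N1, jN⟩, ⟨_, _, W1, W2, jW⟩,
      ⟨_, _, E1, E2, jE⟩, ⟨_, _, S2, S1, jS⟩, ?_, c1, c3, n12, n23.symm, n14, n34⟩
    intro s z h1 h2
    rcases hfs h2 with rfl | rfl | rfl | rfl
    · exact Or.inl N1
    · exfalso; simp [IsSide, bo, le', to', ri] at h1; omega
    · exact Or.inr W2
    · exfalso; simp [IsSide, bo, le', to', ri] at h1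
  · refine Or.inr ⟨(a - 1, b), (a, b - 1), ⟨_, _, W2, W1, jW⟩, ⟨_, _, S2, S1, jS⟩,
      ⟨_, _, N2, N1, jN⟩, ⟨_, _, E2, E1, jE⟩, ?_, c2, c4, n23, n34.symm, n12.symm, n14.symm⟩
    intro s z h1 h2
    rcases hfs h2 with rfl | rfl | rfl | rfl
    · exfalso; simp [IsSide, bo, le', to', ri] at h1; omega
    · exfalso; simp [IsSide, bo, le', to', ri] at h1; omega
    · exact Or.inl W1
    · exact Or.inr S1
  · exact Or.inl ⟨_, _, W2, W1, jW⟩
  · exact absurd rfl hne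
  · exact Or.inl ⟨_, _, S2, S1, jS⟩
  · exact Or.inl ⟨_, _, E2, E1, jE⟩
  · refine Or.inr ⟨(a, b), (a - 1, b - 1), ⟨_, _, E2, E1, jE⟩, ⟨_, _, S1, S2, jS⟩,
      ⟨_, _, N1, N2, jN⟩, ⟨_, _, W2, W1, jW⟩, ?_, c1, c3, n14, n34, n12, n23.symm⟩
    intro s z h1 h2
    rcases hfs h2 with rfl | rfl | rfl | rfl
    · exfalso; simp [IsSide, bo, le', to', ri] at h1; omega
    · exact Or.inl E1
    · exfalso; simp [IsSide, bo, le', to', ri] at h1
    · exact Or.inr S2
  · exact Or.inl ⟨_, _, S1, S2, jS⟩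
  · exact absurd rfl hne

/-- **Corners.** A vertex `v` of parity `c` common to a face `d` of `D` and a face `k` of `Ke` is an end
of a side common to `D` and `Ke`, and the face of `Ke` is `k` or a neighbour of `k`. -/
theorem corner_side (hR : HasPot R) (hc : c = 0 ∨ c = 1) (hD : D ⊆ R) (hKe : Ke ⊆ R)
    (hKo : Ko ⊆ R) (dE : ∀ f ∈ D, f ∉ Ke) (dO : ∀ f ∈ D, f ∉ Ko) (dK : ∀ f ∈ Ke, f ∉ Ko)
    (cD : Top.EConn D) (cE : ∀ u ∈ CorC c Ke, ∀ v ∈ CorC c Ke, Conn ω Ke u v)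
    (cO : ∀ u ∈ CorC (1 - c) Ko, ∀ v ∈ CorC (1 - c) Ko, Conn ω Ko u v)
    (hDK : ∃ f ∈ D, ∃ g ∈ Ke, AdjF f g) {d k v : ℤ × ℤ} (hd : d ∈ D) (hk : k ∈ Ke)
    (hdv : IsCor d v) (hkv : IsCor k v) (hv : par v = c)
    (hloc : ∀ g, IsCor g v → AdjF g d → g ∈ D ∨ g ∈ Ke ∨ g ∈ Ko) :
    ∃ f ∈ D, ∃ g ∈ Ke, (g = k ∨ AdjF g k) ∧ ∃ s z, IsSide f s ∧ IsSide g s ∧ Joins s v z := by
  have hne : d ≠ k := by rintro rfl; exact dE _ hd hk
  rcases opp_cases hdv hkv hne with ⟨s, z, h1, h2, h3⟩ |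
    ⟨g₁, g₂, ⟨s1, z1, a1, b1, j1⟩, ⟨s2, z2, a2, b2, j2⟩, ⟨t1, y1, p1, q1, i1⟩,
      ⟨t2, y2, p2, q2, i2⟩, hall, e1, e2, n1, n2, m1, m2⟩
  · exact ⟨d, hd, k, hk, Or.inl rfl, s, z, h1, h2, h3⟩
  · have A1 : AdjF g₁ d := ⟨n1, s1, b1, a1⟩
    have A2 : AdjF g₂ d := ⟨n2, s2, b2, a2⟩
    rcases hloc g₁ e1 A1 with h | h | h
    · exact ⟨g₁, h, k, hk, Or.inl rfl, t1, y1, p1, q1, i1⟩
    · exact ⟨d, hd, g₁, h, Or.inr ⟨m1, t1, p1, q1⟩, s1, z1, a1, b1, j1⟩
    rcases hloc g₂ e2 A2 with h' | h' | h'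
    · exact ⟨g₂, h', k, hk, Or.inl rfl, t2, y2, p2, q2, i2⟩
    · exact ⟨d, hd, g₂, h', Or.inr ⟨m2, t2, p2, q2⟩, s2, z2, a2, b2, j2⟩
    · exfalso
      refine diag_false hR hc hD hKe hKo dE dO dK cD cE cO hDK hd hdv ⟨hv, k, hk, hkv⟩ ?_
      intro s z hs hj
      rcases hall s z hs hj with h3 | h3
      · exact ⟨g₁, h, h3⟩
      · exact ⟨g₂, h', h3⟩

end Pool.Agent.SixB
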