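import Pool.Agent.Lib.SixB.S8AncC
import Pool.Agent.Lib.SixB.S8CountS
import Pool.Agent.Lib.SixB.S8ExitTop

/-!
# Step 8: the colour of the contacts of a connected set of fresh faces

`U` is the true domain at the time `s` (`TSt`: labels of its sides), `t ≥ s`. `H`, `K` are disjoint edge
connected sets of faces of `U` which are fresh at the time `t`; `K` contains the face in front of the
strand at the time `t` and the target face. If `H` has a face at a side of `U` of the wall of colour `lam`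
then all contacts of `H` with faces which are not fresh at the time `t` have the colour `lam`
(**`one_col`**).

* contact outside of `U`: the strand from the tip followed by `K` is not crossed by `H` (`strand_nc`);
* contact with a face visited in `[s, t)`: change the colours of `H` to `lam` and of `K` to `1 - lam`; a
  contact with the wrong diagonal gives two pairs of joined corners of one face (`face_lemma'`).
-/

set_option autoImplicit false
set_option linter.unusedVariables false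

namespace Pool.Agent.SixB.Anc

open Finset Pool.Agent.Perc Pool.Agent.PercT Pool.Agent.Perc6 Pool.Agent.Perc6.C2Aux
open Pool.Agent.SixB Pool.Agent.SixB.NearCut Pool.Agent.SixB.Mv Pool.Agent.SixB.Top
open Pool.Agent.SixB.SideV Pool.Agent.SixB.CloK
open Pool.Agent.Perc.Tips

/-! ### Corners -/

/-- The common corners of the two faces of a side. -/
theorem cor_two {B : UE × Bool} {v : ℤ × ℤ} (h1 : IsCor (ahead B) v) (h2 : IsCor (ahead (rv B)) v) :
    v = lf B ∨ v = rg B := by
  obtain ⟨⟨x, y, _ | _⟩, _ | _⟩ := B <;> obtain ⟨v1, v2⟩ := v <;>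
    simp [ahead, rv, lf, rg, IsCor] at * <;> omega

/-- A corner of colour `c` of a face of a connected set with the diagonals of colour `c` is joined in the
set to every other one. -/
theorem solid_conn {ζ : Cfg} {c : ℤ} (hc : c = 0 ∨ c = 1) {B : Set (ℤ × ℤ)} (hB : Top.EConn B)
    (hω : ∀ g ∈ B, ζ g = !parD c g) {f g u v : ℤ × ℤ} (hf : f ∈ B) (hg : g ∈ B) (hu : IsCor f u)
    (hv : IsCor g v) (pu : par u = c) (pv : par v = c) : Conn ζ B u v :=
  solid_econn hc hB hω u ⟨pu, f, hf, hu⟩ v ⟨pv, g, hg, hv⟩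

/-! ### The anchors of the sides -/

/-- The walls of a true state are anchors. -/
theorem anc_tst {ζ : Cfg} {U : Set (ℤ × ℤ)} {τ : UE × Bool} {m x : ℕ}
    (T : TSt ζ Set.univ U τ m x) : Cnt.Anc ζ U τ.1 := by
  intro a ha hne
  obtain ⟨k, hk, hka⟩ := T.cyc.ctr.all _ ha
  have hx := T.lt
  have hcs := par_cases (vert U τ k)
  have hps := par_vert_succ (U := U) (A := τ) k
  have hends : ∀ p, (p = vert U τ k ∨ p = vert U τ (k + 1)) → (p = ua a ∨ p = ub a) := by
    rcases hka with ⟨h1, h2⟩ | ⟨h1, h2⟩ <;> rintro p (rfl | rfl) <;> simp [h1, h2]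
  have hk0 : k ≠ 0 := by
    rintro rfl
    apply hne
    have h1 : Joins τ.1 (vert U τ 0) (vert U τ (0 + 1)) := joins_side (D := U) (A := τ) 0
    exact Joins.uniq hka h1
  have hτ : ∀ p, (p = vert U τ 0 ∨ p = vert U τ 1) → (p = ua τ.1 ∨ p = ub τ.1) := by
    have h1 : Joins τ.1 (vert U τ 0) (vert U τ (0 + 1)) := joins_side (D := U) (A := τ) 0
    rcases h1 with ⟨h1, h2⟩ | ⟨h1, h2⟩ <;> rintro p (rfl | rfl)
    · exact Or.inl h1
    · exact Or.inr h2
    · exact Or.inr h1
    · exact Or.inl h2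
  have hout : (Set.univ \ U : Set (ℤ × ℤ)) = Uᶜ := by
    ext z
    simp
  rcases Nat.lt_or_ge k x with h | h
  · -- right wall
    obtain ⟨p, hp, hpp⟩ : ∃ p, (p = vert U τ k ∨ p = vert U τ (k + 1)) ∧ par p = 0 := by
      rcases hcs with h1 | h1
      · exact ⟨_, Or.inl rfl, h1⟩
      · exact ⟨_, Or.inr rfl, by omega⟩
    have h2 := T.walls.right k (by omega) h p hp hpp
    rw [hout] at h2
    refine ⟨p, hends p hp, ?_⟩
    rcases hτ (vert U τ 1) (Or.inr rfl) with h3 | h3
    · exact Or.inl (h3 ▸ conn_symm h2)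
    · exact Or.inr (h3 ▸ conn_symm h2)
  · obtain ⟨p, hp, hpp⟩ : ∃ p, (p = vert U τ k ∨ p = vert U τ (k + 1)) ∧ par p ≠ 0 := by
      rcases hcs with h1 | h1
      · exact ⟨_, Or.inr rfl, by omega⟩
      · exact ⟨_, Or.inl rfl, by omega⟩
    have h2 := T.walls.left k h hk p hp hpp
    rw [hout] at h2
    refine ⟨p, hends p hp, ?_⟩
    rcases hτ (vert U τ 0) (Or.inl rfl) with h3 | h3
    · exact Or.inl (h3 ▸ conn_symm h2)
    · exact Or.inr (h3 ▸ conn_symm h2)

section One

variable {E : Ex} {ω : Cfg} {U H K : Set (ℤ × ℤ)} {τ : UE × Bool} {m x s t w : ℕ} {lam : ℤ}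
  {f f' v : ℤ × ℤ}

/-- The vertex of colour `lam` of the side number `w` is joined outside of `U` to the tip. -/
theorem wall_tip (hc : lam = 0 ∨ lam = 1) (T : TSt (E.cf ω) Set.univ U τ m x)
    (tip : E.p ω s = τ.1) (hw : w < m) (hlam : lam = 0 ∧ w < x ∨ lam = 1 ∧ x ≤ w) :
    ∃ y, IsCor (inF U τ w) y ∧ par y = lam ∧
      Conn (E.cf ω) (Set.univ \ U) (en lam (E.p ω s)) y := by
  have _ := hc
  have hc1 : IsCor (inF U τ w) (vert U τ w) := isCor_in_lf _
  have hc2 : IsCor (inF U τ w) (vert U τ (w + 1)) := by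
    rw [vert_succ]
    exact isCor_in_rg _
  have hcs := par_cases (vert U τ w)
  have hps := par_vert_succ (U := U) (A := τ) w
  rcases hlam with ⟨rfl, h⟩ | ⟨rfl, h⟩
  · obtain ⟨p, hp, hpp⟩ : ∃ p, (p = vert U τ w ∨ p = vert U τ (w + 1)) ∧ par p = 0 := by
      rcases hcs with h1 | h1
      · exact ⟨_, Or.inl rfl, h1⟩
      · exact ⟨_, Or.inr rfl, by omega⟩
    refine ⟨p, by rcases hp with rfl | rfl <;> assumption, hpp, ?_⟩
    rw [T.en_zero tip]
    rcases Nat.eq_zero_or_pos w with rfl | h0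
    · have h2 : par (vert U τ 0) = 1 := T.par_zero
      rcases hp with rfl | rfl
      · rw [h2] at hpp
        omega
      · rw [zero_add, vert_one_rg]
        exact Relation.ReflTransGen.refl
    · have h2 := T.walls.right w h0 h p hp hpp
      rwa [vert_one_rg] at h2
  · obtain ⟨p, hp, hpp⟩ : ∃ p, (p = vert U τ w ∨ p = vert U τ (w + 1)) ∧ par p = 1 := by
      rcases hcs with h1 | h1
      · exact ⟨_, Or.inr rfl, by omega⟩
      · exact ⟨_, Or.inl rfl, h1⟩
    refine ⟨p, by rcases hp with rfl | rfl <;> assumption, hpp, ?_⟩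
    rw [T.en_one tip]
    exact T.walls.left w h hw p hp (by omega)

/-- The vertex of colour `c` of the target side is joined outside of `U` to the tip. -/
theorem wall_tgt {c : ℤ} (hc : c = 0 ∨ c = 1) (T : TSt (E.cf ω) Set.univ U τ m x)
    (tip : E.p ω s = τ.1) : ∃ y, IsCor (inF U τ x) y ∧ par y = c ∧
      Conn (E.cf ω) (Set.univ \ U) (en c (E.p ω s)) y := by
  have hc1 : IsCor (inF U τ x) (vert U τ x) := isCor_in_lf _
  have hc2 : IsCor (inF U τ x) (vert U τ (x + 1)) := by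
    rw [vert_succ]
    exact isCor_in_rg _
  rcases hc with rfl | rfl
  · refine ⟨_, hc1, T.px, ?_⟩
    rw [T.en_zero tip]
    exact T.conn_right
  · refine ⟨_, hc2, T.par_succ, ?_⟩
    rw [T.en_one tip]
    exact T.conn_left

/-- **A contact outside of `U`.** -/
theorem one_wall (hc : lam = 0 ∨ lam = 1) (T : TSt (E.cf ω) Set.univ U τ m x)
    (hn : Nb (E.cf ω) (E.e ω) t) (hper : ∃ N, 0 < N ∧ pth (E.cf ω) τ.1 N = τ.1) (hW : E.Wll ω)
    (hUF : U ⊆ E.Fr ω s) (hout : ∀ i, outF U τ i ∉ E.Fr ω s) (tip : E.p ω s = τ.1) (hst : s ≤ t)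
    (hH : H ⊆ U) (hHF : H ⊆ E.Fr ω t) (cH : Top.EConn H) (hK : K ⊆ U) (cK : Top.EConn K)
    (hHK : ∀ f ∈ H, f ∉ K) (htip : fa (E.p ω t) ∈ K) (htgt : inF U τ x ∈ K) (hw : w < m)
    (hwH : inF U τ w ∈ H) (hlam : lam = 0 ∧ w < x ∨ lam = 1 ∧ x < w) (hf : f ∈ H)
    (hff' : AdjF f f') (hf' : f' ∉ U) (hv : IsCor f v) (hv' : IsCor f' v) (hpar : par v = lam) :
    E.Sid lam ω t v := by
  have _ := hc
  obtain ⟨B, hB1, hB2⟩ := adjF_dir hff'
  have hB : BD U B := ⟨by rw [hB1]; exact hH hf, by rw [hB2]; exact hf'⟩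
  obtain ⟨i, hi, hiB⟩ := T.cyc.exists_index hB
  have e1 : inF U τ i = f := by
    unfold inF
    rw [hiB, hB1]
  have hper' : Per U m τ := ⟨T.cyc.pos, T.cyc.per, T.cyc.inj⟩
  have hfs : fa (pth (E.cf ω) (E.e ω) s) ∈ U := by
    change fa (E.p ω s) ∈ U
    rw [tip, T.fwd]
    exact T.cyc.bd.1
  have hnc : ∀ a b : ℕ, a < b → b < m → inF U τ a ∈ H → inF U τ b ∈ H → ¬ (a < x ∧ x < b) := by
    intro a b hab hb ha hb'
    exact Cnt.strand_nc T.fin T.ec T.esc T.cyc.bd hper' (anc_tst T) hn hst le_rfl tip.symm hfs hK cK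
      htip hH cH (fun l h1 h2 h3 => NearCut.fa_not_fr h2 (hHF h3)) (fun g hg hg' => hHK g hg' hg) hab
      hb ha hb' (Or.inl htgt)
  have hxH : inF U τ x ∉ H := fun h => hHK _ h htgt
  have hvi : v = vert U τ i ∨ v = vert U τ (i + 1) := by
    rw [vert_succ]
    unfold vert
    rw [hiB]
    exact cor_two (by rw [hB1]; exact hv) (by rw [hB2]; exact hv')
  have h0 : par (vert U τ 0) = 1 := T.par_zero
  have hpx := T.px
  have hps := T.par_succ
  have hix : i ≠ x := by
    rintro rfl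
    exact hxH (e1 ▸ hf)
  rcases hlam with ⟨rfl, hwx⟩ | ⟨rfl, hwx⟩
  · -- right wall
    have hi' : i < x := by
      by_contra hcon
      exact hnc w i (by omega) hi hwH (e1 ▸ hf) ⟨hwx, by omega⟩
    refine Ex.Sid.mono ?_ hst
    rcases hvi with rfl | rfl
    · refine T.hwb hper hW hUF hout tip i ?_ (by omega) hpar
      rcases Nat.eq_zero_or_pos i with rfl | h3
      · rw [h0] at hpar
        omega
      · exact h3
    · exact T.hwb hper hW hUF hout tip (i + 1) (by omega) (by omega) hpar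
  · have hi' : x < i := by
      by_contra hcon
      exact hnc i w (by omega) hw (e1 ▸ hf) hwH ⟨by omega, hwx⟩
    refine Ex.Sid.mono ?_ hst
    rcases hvi with rfl | rfl
    · exact T.hwl hper hW hUF hout tip i (by omega) (by omega) hpar
    · exact T.hwl hper hW hUF hout tip (i + 1) (by omega) (by omega) hpar

/-- **A contact with a face visited in `[s, t)`.** -/
theorem one_vis (hc : lam = 0 ∨ lam = 1) (T : TSt (E.cf ω) Set.univ U τ m x)
    (hn : Nb (E.cf ω) (E.e ω) t) (tip : E.p ω s = τ.1) (hst : s ≤ t)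
    (hH : H ⊆ U) (hHF : H ⊆ E.Fr ω t) (cH : Top.EConn H) (hK : K ⊆ U) (hKF : K ⊆ E.Fr ω t)
    (cK : Top.EConn K) (hHK : ∀ f ∈ H, f ∉ K) (htip : fa (E.p ω t) ∈ K) (htgt : inF U τ x ∈ K)
    (hw : w < m) (hwH : inF U τ w ∈ H) (hlam : lam = 0 ∧ w < x ∨ lam = 1 ∧ x < w) (hf : f ∈ H)
    {k : ℕ} (hsk : s ≤ k) (hkt : k < t) (hk : fa (E.p ω k) = f') (hf'U : f' ∈ U)
    (hcl : NearCut.Cl (E.cf ω) (1 - lam) f')
    (hv : IsCor f v) (hv' : IsCor f' v) (hpar : par v = lam) : E.Sid lam ω t v := by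
  classical
  have hc' : 1 - lam = 0 ∨ 1 - lam = 1 := by omega
  by_cases hno : ∃ l ≤ t, en lam (E.p ω l) = v
  · obtain ⟨l, hl, rfl⟩ := hno
    exact Ex.sid_strand hc hl
  exfalso
  push Not at hno
  have hf'F : f' ∉ E.Fr ω t := hk ▸ NearCut.fa_not_fr hkt
  have hf'H : f' ∉ H := fun h => hf'F (hHF h)
  have hf'K : f' ∉ K := fun h => hf'F (hKF h)
  -- the new configuration
  set ζ : Cfg := E.cf ω with hζ
  set ζ' : Cfg := fun g => if g ∈ H then !parD lam g else if g ∈ K then !parD (1 - lam) g else ζ g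
    with hζ'
  have zH : ∀ g ∈ H, ζ' g = !parD lam g := fun g hg => by
    simp only [hζ', if_pos hg]
  have zK : ∀ g ∈ K, ζ' g = !parD (1 - lam) g := fun g hg => by
    have : g ∉ H := fun h => hHK g h hg
    simp only [hζ', if_neg this, if_pos hg]
  have zO : ∀ g, g ∉ H → g ∉ K → ζ g = ζ' g := fun g h1 h2 => by
    simp only [hζ', if_neg h1, if_neg h2]
  have conv : ∀ {S : Set (ℤ × ℤ)} {a b : ℤ × ℤ}, (∀ g ∈ S, g ∉ H ∧ g ∉ K ∧ g ≠ f') →
      Conn ζ S a b → Conn ζ' (Set.univ \ {f'}) a b := by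
    intro S a b hS hab
    refine conn_mono (F := S) (fun g hg => ⟨Set.mem_univ _, (hS g hg).2.2⟩) ?_
    exact GridA.conn_congr S (fun g hg => zO g (hS g hg).1 (hS g hg).2.1) hab
  have outU : ∀ {a b : ℤ × ℤ}, Conn ζ (Set.univ \ U) a b → Conn ζ' (Set.univ \ {f'}) a b :=
    fun h => conv (fun g hg => ⟨fun h => hg.2 (hH h), fun h => hg.2 (hK h),
      fun h => hg.2 (h ▸ hf'U)⟩) h
  -- the turn at the face
  have hmt : Mt ζ f' (E.p ω k) (E.p ω (k + 1)) := by
    have := mt_pth ζ (E.e ω) k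
    change Mt ζ (fa (E.p ω k)) (E.p ω k) (E.p ω (k + 1)) at this
    rwa [hk] at this
  obtain ⟨hr, hbd⟩ : en lam (E.p ω k) = en lam (E.p ω (k + 1)) ∧
      Bond ζ {f'} (en (1 - lam) (E.p ω k)) (en (1 - lam) (E.p ω (k + 1))) := by
    rcases NearCut.mt_cl hc' hmt with ⟨-, h2, h3⟩ | ⟨h2, -⟩
    · rw [show 1 - (1 - lam) = lam by ring] at h2
      exact ⟨h2, h3⟩
    · exact absurd h2 (NearCut.cl_not hc' hcl)
  have cq : IsCor f' (en (1 - lam) (E.p ω k)) := isCor_en hmt.left _
  have cq' : IsCor f' (en (1 - lam) (E.p ω (k + 1))) := isCor_en hmt.right _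
  have cr : IsCor f' (en lam (E.p ω k)) := isCor_en hmt.left _
  have hqq : en (1 - lam) (E.p ω k) ≠ en (1 - lam) (E.p ω (k + 1)) := by
    rw [LC.bond_iff] at hbd
    obtain ⟨_, _, _, _, h, _⟩ := hbd
    exact h
  -- the face is visited once
  have once : ∀ l < t, fa (E.p ω l) = f' → l = k := by
    intro l hl hlf
    have hml : Mt ζ f' (E.p ω l) (E.p ω (l + 1)) := by
      have := mt_pth ζ (E.e ω) l
      change Mt ζ (fa (E.p ω l)) (E.p ω l) (E.p ω (l + 1)) at this
      rwa [hlf] at this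
    -- the ends of colour `lam` are equal
    have hcor2 : ∀ y, IsCor f' y → par y = lam → y ≠ v → y = en lam (E.p ω k) := by
      intro y hy hpy hyv
      have h1 := par_en hc (E.p ω k)
      have h2 := hno k hkt.le
      revert hy hpy hyv h1 h2 cr hv' hpar
      generalize en lam (E.p ω k) = r
      clear_value ζ ζ'
      clear * -
      obtain ⟨a, b⟩ := f'
      obtain ⟨v1, v2⟩ := v
      obtain ⟨r1, r2⟩ := r
      obtain ⟨y1, y2⟩ := y
      intro hv' hpar cr hy hpy hyv h1 h2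
      unfold IsCor at *
      unfold par at *
      simp only [Prod.mk.injEq, ne_eq] at *
      omega
    have hr1 : en lam (E.p ω l) = en lam (E.p ω k) :=
      hcor2 _ (isCor_en hml.left _) (par_en hc _) (hno l hl.le)
    have hq1 : en (1 - lam) (E.p ω l) = en (1 - lam) (E.p ω k) ∨
        en (1 - lam) (E.p ω l) = en (1 - lam) (E.p ω (k + 1)) := by
      have h0 := isCor_en hml.left (1 - lam)
      have h1 := par_en hc' (E.p ω l)
      have h2 := par_en hc' (E.p ω k)
      have h3 := par_en hc' (E.p ω (k + 1))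
      revert h0 h1 h2 h3 cq cq' hqq
      generalize en (1 - lam) (E.p ω l) = y
      generalize en (1 - lam) (E.p ω k) = q
      generalize en (1 - lam) (E.p ω (k + 1)) = q'
      clear_value ζ ζ'
      clear * -
      obtain ⟨a, b⟩ := f'
      obtain ⟨q1, q2⟩ := q
      obtain ⟨r1, r2⟩ := q'
      obtain ⟨y1, y2⟩ := y
      intro cq cq' hqq h0 h1 h2 h3
      unfold IsCor at *
      unfold par at *
      simp only [Prod.mk.injEq, ne_eq] at *
      omega
    have hjoin : ∀ a b : UE, en lam a = en lam b → en (1 - lam) a = en (1 - lam) b → a = b := by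
      intro a b h1 h2
      have key : ∀ a : UE, Joins a (en lam a) (en (1 - lam) a) := by
        intro a
        rcases en_or lam a with h3 | h3 <;> rcases en_or (1 - lam) a with h4 | h4
        · exfalso
          have h5 := par_en hc a
          have h6 := par_en hc' a
          rw [h3] at h5
          rw [h4] at h6
          omega
        · exact Or.inl ⟨h3, h4⟩
        · exact Or.inr ⟨h3, h4⟩
        · exfalso
          have h5 := par_en hc a
          have h6 := par_en hc' a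
          rw [h3] at h5
          rw [h4] at h6
          omega
      have h3 := key b
      rw [← h1, ← h2] at h3
      exact Joins.uniq (key a) h3
    rcases hq1 with h4 | h4
    · exact hn.inj hl.le hkt.le (hjoin _ _ hr1 h4)
    · have h5 : l = k + 1 := hn.inj hl.le hkt (hjoin _ _ (hr1.trans hr) h4)
      subst h5
      exfalso
      have h6 : fb (E.p ω (k + 1)) = fa (E.p ω k) := fb_pth_succ _ _ _
      exact fa_ne_fb (E.p ω (k + 1)) (hlf.trans (hk.symm.trans h6.symm))
  -- pieces of the strand which avoid the face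
  have piece : ∀ {c : ℤ}, (c = 0 ∨ c = 1) → ∀ {i j : ℕ}, i ≤ j → j ≤ t →
      (∀ l, i ≤ l → l < j → l ≠ k) → Conn ζ' (Set.univ \ {f'}) (en c (E.p ω i)) (en c (E.p ω j)) := by
    intro c hc i j hij hj hne
    refine conv (S := {g | ∃ l, i ≤ l ∧ l < j ∧ fa (E.p ω l) = g}) ?_ ?_
    · rintro g ⟨l, h1, h2, rfl⟩
      have h3 : fa (E.p ω l) ∉ E.Fr ω t := NearCut.fa_not_fr (by omega)
      exact ⟨fun h => h3 (hHF h), fun h => h3 (hKF h), fun h => hne l h1 h2 (once l (by omega) h)⟩
    · exact conn_pth hc hij fun l h1 h2 => Or.inl ⟨l, h1, h2, rfl⟩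
  -- the corners of colour `lam`
  obtain ⟨y, hy1, hy2, hy3⟩ := wall_tip hc T tip hw (hlam.imp id fun h => ⟨h.1, h.2.le⟩)
  have c1 : Conn ζ' (Set.univ \ {f'}) v (en lam (E.p ω k)) := by
    have h1 : Conn ζ' (Set.univ \ {f'}) v y :=
      conn_mono (F := H) (fun g hg => ⟨Set.mem_univ _, fun h => hf'H (h ▸ hg)⟩)
        (solid_conn hc cH zH hf hwH hv hy1 hpar hy2)
    exact conn_trans (conn_trans h1 (conn_symm (outU hy3)))
      (piece hc hsk hkt.le fun l _ h2 => by omega)
  -- the corners of the other colour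
  obtain ⟨z, hz1, hz2, hz3⟩ := wall_tgt hc' T tip
  have c2 : Conn ζ' (Set.univ \ {f'}) (en (1 - lam) (E.p ω k)) (en (1 - lam) (E.p ω (k + 1))) := by
    have h1 : Conn ζ' (Set.univ \ {f'}) (en (1 - lam) (E.p ω t)) z :=
      conn_mono (F := K) (fun g hg => ⟨Set.mem_univ _, fun h => hf'K (h ▸ hg)⟩)
        (solid_conn hc' cK zK htip htgt (isCor_en (isSide_fa _) _) hz1 (par_en hc' _) hz2)
    have h2 := piece hc' hsk hkt.le fun l _ h2 => by omega
    have h3 := piece hc' (show k + 1 ≤ t from hkt) le_rfl fun l h1 _ => by omega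
    exact conn_trans (conn_symm h2) (conn_trans (outU hz3) (conn_trans (conn_symm h1)
      (conn_symm h3)))
  exact face_lemma' Cnt.hasPot_univ (Set.mem_univ f') hv' cr cq cq' (Ne.symm (hno k hkt.le))
    (hpar.trans (par_en hc _).symm) hqq ((par_en hc' _).trans (par_en hc' _).symm)
    (by rw [par_en hc', hpar]; omega) c1 c2

/-- **The colour of the contacts.** -/
theorem one_col (hc : lam = 0 ∨ lam = 1) (T : TSt (E.cf ω) Set.univ U τ m x)
    (hn : Nb (E.cf ω) (E.e ω) t) (hper : ∃ N, 0 < N ∧ pth (E.cf ω) τ.1 N = τ.1) (hW : E.Wll ω)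
    (hUF : U ⊆ E.Fr ω s) (hout : ∀ i, outF U τ i ∉ E.Fr ω s) (tip : E.p ω s = τ.1) (hst : s ≤ t)
    (hH : H ⊆ U) (hHF : H ⊆ E.Fr ω t) (cH : Top.EConn H) (hK : K ⊆ U) (hKF : K ⊆ E.Fr ω t)
    (cK : Top.EConn K) (hHK : ∀ f ∈ H, f ∉ K) (htip : fa (E.p ω t) ∈ K) (htgt : inF U τ x ∈ K)
    (hw : w < m) (hwH : inF U τ w ∈ H) (hlam : lam = 0 ∧ w < x ∨ lam = 1 ∧ x < w) (hf : f ∈ H)
    (hff' : AdjF f f') (hf' : f' ∉ E.Fr ω t) (hv : IsCor f v) (hv' : IsCor f' v)
    (hpar : par v = lam) : E.Sid lam ω t v := by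
  rcases NearCut.cl_or (ω := E.cf ω) (f := f') hc with hcl | hcl
  · exact S8WallSide.sid_face hW hc hf' hcl hv' hpar
  · by_cases hU : f' ∈ U
    · rcases NearCut.not_fr_iff hf' with h1 | ⟨l, hl, hlf⟩
      · exact absurd (hUF hU).1 h1
      · have hsl : s ≤ l := by
          by_contra hcon
          exact NearCut.fa_not_fr (show l < s by omega) (hlf ▸ hUF hU)
        exact one_vis hc T hn tip hst hH hHF cH hK hKF cK hHK htip htgt hw hwH hlam hf hsl hl hlf hU
          hcl hv hv' hpar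
    · exact one_wall hc T hn hper hW hUF hout tip hst hH hHF cH hK cK hHK htip htgt hw hwH hlam hf
        hff' hU hv hv' hpar

end One

end Pool.Agent.SixB.Anc
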