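import Pool.Agent.Lib.SixB.S8AncP
import Pool.Agent.Lib.SixB.S8AncB
import Pool.Agent.Lib.SixB.S8AncI
import Pool.Agent.Lib.SixB.S8AncE

/-!
# Step 8: the anchors of a component of the rest, regular move: the assembly

`h : Rg ..` is a regular move from the time `t₀` to the time `t₀ + σ`, `C₀` a component of the rest
`P \ V` without the target, `y` a side of `P` at `C₀`, not at a recorded cell, with the label `lam`. `K`:
a connected set of fresh faces with the face in front of the strand and the target face, disjoint from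
`C₀` and from the class part behind `y`.

* `Rg.sub_fr`, `Rg.not_fr`: the fresh faces at the time `t₀ + σ`;
* `Rg.anc_of`: every side of `C₀` has an anchor of colour `lam` at the time `t₀ + σ`;
* **`Rg.anc`**: the same for the set `ancK` of S8AncE.
-/

set_option autoImplicit false

namespace Pool.Agent.SixB.Mv

open Finset Pool.Agent.Perc Pool.Agent.Perc6 Pool.Agent.PercT Pool.Agent.Perc6.C2Aux
open Pool.Agent.Perc.Tips Pool.Agent.SixB Pool.Agent.SixB.Top Pool.Agent.SixB.Blow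
open Pool.Agent.SixB.CloK
open Pool.Agent.SixB.NearCut (Nb Pth)

/-- Two connected sets with two adjacent faces. -/
theorem econn_join {S T : Set (ℤ × ℤ)} (hS : Top.EConn S) (hT : Top.EConn T) {a b : ℤ × ℤ}
    (ha : a ∈ S) (hb : b ∈ T) (hab : AdjF a b) : Top.EConn (S ∪ T) := by
  have hS' : ∀ f ∈ S, ∀ g ∈ S, ChI (S ∪ T) f g := fun f hf g hg =>
    ChI.mono Set.subset_union_left (hS f hf g hg)
  have hT' : ∀ f ∈ T, ∀ g ∈ T, ChI (S ∪ T) f g := fun f hf g hg =>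
    ChI.mono Set.subset_union_right (hT f hf g hg)
  have hab' : ChI (S ∪ T) a b := ChI.single hab (Or.inr hb)
  have hba' : ChI (S ∪ T) b a := ChI.single hab.symm (Or.inl ha)
  rintro f (hf | hf) g (hg | hg)
  · exact hS' f hf g hg
  · exact ((hS' f hf a ha).trans hab').trans (hT' b hb g hg)
  · exact ((hT' f hf b hb).trans hba').trans (hS' a ha g hg)
  · exact hT' f hf g hg

namespace Rg

variable {s : Dom} {g : Grd} {u : ℕ} {E : Ex} {ω : Cfg} {U : Set (ℤ × ℤ)} {κ : ℤ × ℤ → ℤ × ℤ}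
  {r : ℤ} {τ : UE × Bool} {mU x : ℕ} {lA lB : ℤ} {σ t₀ : ℕ} {ρ : Rec}

/-- The fresh faces at the time `t₀ + σ`. -/
theorem sub_fr (tip : E.p ω t₀ = τ.1) (hUF : U ⊆ E.Fr ω t₀) :
    U \ (vs (E.cf ω) τ.1 0 σ : Set (ℤ × ℤ)) ⊆ E.Fr ω (t₀ + σ) := by
  rintro f ⟨hfU, hfN⟩
  by_contra hcon
  rcases NearCut.not_fr_iff hcon with h1 | ⟨l, hl, hlf⟩
  · exact h1 (hUF hfU).1
  · rcases Nat.lt_or_ge l t₀ with h2 | h2
    · exact NearCut.fa_not_fr h2 (hlf ▸ hUF hfU : fa (E.p ω l) ∈ E.Fr ω t₀)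
    · obtain ⟨k, rfl⟩ : ∃ k, l = t₀ + k := ⟨l - t₀, by omega⟩
      refine hfN (Finset.mem_coe.2 (mem_vs.2 ⟨k, Nat.zero_le _, by omega, ?_⟩))
      rw [← hlf, ← pth_add]
      change fa (pth (E.cf ω) (E.p ω t₀) k) = _
      rw [tip]

/-- The faces which are not fresh. -/
theorem not_fr {f f' : ℤ × ℤ} (hcy : Cyc U τ mU) (tip : E.p ω t₀ = τ.1)
    (hout : ∀ i, outF U τ i ∉ E.Fr ω t₀) (hf : f ∈ U) (hff' : AdjF f f')
    (hf' : f' ∉ U \ (vs (E.cf ω) τ.1 0 σ : Set (ℤ × ℤ))) : f' ∉ E.Fr ω (t₀ + σ) := by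
  by_cases h1 : f' ∈ U
  · have h2 : f' ∈ (vs (E.cf ω) τ.1 0 σ : Set (ℤ × ℤ)) := by
      by_contra h3
      exact hf' ⟨h1, h3⟩
    obtain ⟨k, -, hk, rfl⟩ := mem_vs.1 (Finset.mem_coe.1 h2)
    have h3 : pth (E.cf ω) τ.1 k = E.p ω (t₀ + k) := by
      rw [← tip]
      exact pth_add _ _ _ _
    rw [h3]
    exact NearCut.fa_not_fr (by omega)
  · obtain ⟨B, hB1, hB2⟩ := adjF_dir hff'
    have hB : BD U B := ⟨by rw [hB1]; exact hf, by rw [hB2]; exact h1⟩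
    obtain ⟨i, hi, hiB⟩ := hcy.exists_index hB
    have h2 := hout i
    unfold outF at h2
    rw [hiB, hB2] at h2
    exact fun h3 => h2 (Ex.fr_anti (Nat.le_add_right _ _) h3)

/-- **The anchors of the sides of a component of the rest.** -/
theorem anc_of {lam : ℤ} {K : Set (ℤ × ℤ)} {y B₁ : UE × Bool} {z : ℤ × ℤ}
    (h : Rg s g u (E.cf ω) U κ r τ mU x lA lB σ ρ) (tip : E.p ω t₀ = τ.1)
    (hn : Nb (E.cf ω) (E.e ω) (t₀ + σ)) (hper : ∃ N, 0 < N ∧ pth (E.cf ω) τ.1 N = τ.1)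
    (hW : E.Wll ω) (hb : fb (E.e ω) ∉ E.U ω) (hUF : U ⊆ E.Fr ω t₀)
    (hout : ∀ i, outF U τ i ∉ E.Fr ω t₀) (hz : z ∈ s.P \ s.rem g ρ)
    (hB : ahead s.B ∉ compT (s.P \ s.rem g ρ) z) (hy : BD s.P y)
    (hyC : ahead y ∈ compT (s.P \ s.rem g ρ) z) (hyf : ahead y ∉ s.fcs g ρ)
    (hlam : lam = 0 ∧ s.old y ∨ lam = 1 ∧ ¬ s.old y)
    (hK : K ⊆ U \ (vs (E.cf ω) τ.1 0 σ : Set (ℤ × ℤ))) (cK : Top.EConn K)
    (htip : fa (pth (E.cf ω) τ.1 σ) ∈ K) (htgt : inF U τ x ∈ K)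
    (hKC : ∀ f ∈ blow u (compT (s.P \ s.rem g ρ) z), f ∉ K)
    (hK0 : ahead (rv (subE u y 0)) ∈ U → ∀ f ∈ capC U κ (ahead (rv (subE u y 0))), f ∉ K)
    (hKQ : ∀ κ' : ℤ × ℤ → ℤ × ℤ, App (U \ (vs (E.cf ω) τ.1 0 σ : Set (ℤ × ℤ)))
      (blow u (s.P \ s.rem g ρ)) κ' (r + 7 * (u * g.L)) →
      (∀ x, x ∉ blow u s.P → ∀ y, y ∉ blow u s.P → (κ' x = κ' y ↔ κ x = κ y)) →
      (∀ x ∈ blow u (s.ent g ρ), ∀ y ∈ blow u (s.ent g ρ), κ' x = κ' y) →
      ahead (rv B₁) ∈ U \ (vs (E.cf ω) τ.1 0 σ : Set (ℤ × ℤ)) →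
      fa (pth (E.cf ω) τ.1 σ) ∈
        capC (U \ (vs (E.cf ω) τ.1 0 σ : Set (ℤ × ℤ))) κ' (ahead (rv B₁)) ∨
      ∀ f ∈ capC (U \ (vs (E.cf ω) τ.1 0 σ : Set (ℤ × ℤ))) κ' (ahead (rv B₁)), f ∉ K)
    (hB₁ : BD (blow u (compT (s.P \ s.rem g ρ) z)) B₁) :
    ∃ v, E.Sid lam ω (t₀ + σ) v ∧ Pth {a | InB (lf B₁) (r + 7 * (u * g.L)) a ∧
      ∀ l ≤ t₀ + σ, E.p ω l ≠ a} (lf B₁) v := by
  have hu : (0 : ℤ) < u := by exact_mod_cast h.hu
  have hc : lam = 0 ∨ lam = 1 := hlam.imp And.left And.left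
  have hd := h.app.d_pos
  have hL := h.hL'
  obtain ⟨V₁, hV₁⟩ : ∃ V₁, V₁ = U \ (vs (E.cf ω) τ.1 0 σ : Set (ℤ × ℤ)) := ⟨_, rfl⟩
  rw [← hV₁] at hK hKQ
  have hVF : V₁ ⊆ E.Fr ω (t₀ + σ) := by
    rw [hV₁]
    exact sub_fr tip hUF
  have hVU : V₁ ⊆ U := by
    rw [hV₁]
    exact fun _ hf => hf.1
  have hnF : ∀ {f f' : ℤ × ℤ}, f ∈ V₁ → AdjF f f' → f' ∉ V₁ → f' ∉ E.Fr ω (t₀ + σ) := by
    intro f f' h1 h2 h3
    rw [hV₁] at h3
    exact not_fr h.tst.cyc tip hout (hVU h1) h2 h3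
  -- the component
  set C := compT (s.P \ s.rem g ρ) z with hCdef
  have hCW : C ⊆ s.P \ s.rem g ρ := compT_sub hz
  have hCcl : ∀ f ∈ C, ∀ k ∈ s.P \ s.rem g ρ, AdjF f k → k ∈ C := fun f hf k hk ha =>
    compT_step hf ha hk
  have cC : Top.EConn (blow u C) := econn_blow hu (econn_compT hz)
  have hWV : blow u (s.P \ s.rem g ρ) ⊆ V₁ := by
    rw [hV₁]
    exact h.reg.data.P'U'
  have hCV : blow u C ⊆ V₁ := fun f hf => hWV (hCW hf)
  -- the class part of the reference side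
  obtain ⟨w, hw, hl, hwo⟩ := h.anc_lbl hCW hCcl hB hy hyC hyf
  have hyB : BD (blow u s.P) (subE u y 0) := bd_subE hu hy le_rfl hu
  have hyC' : ahead (subE u y 0) ∈ blow u C := by
    rw [mem_blow, cl_ahead_zero h.hu]
    exact hyC
  obtain ⟨Q₀, hQ₀⟩ : ∃ Q₀, Q₀ = ptK U κ (ahead (rv (subE u y 0))) := ⟨_, rfl⟩
  have hQV : Q₀ ⊆ V₁ := by
    rw [hQ₀, hV₁]
    rintro f ⟨h1, h2⟩
    exact ⟨(capC_sub h1 h2).2, (h.anc_cap hCW hy hyC hyf h1 f h2).2⟩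
  have hQK : ∀ f ∈ Q₀, f ∉ K := by
    rw [hQ₀]
    rintro f ⟨h1, h2⟩
    exact hK0 h1 f h2
  have hH₀ : Top.EConn (blow u C ∪ Q₀) := by
    by_cases hg : ahead (rv (subE u y 0)) ∈ U
    · have h1 : ahead (rv (subE u y 0)) ∈ Q₀ := by
        rw [hQ₀]
        exact ptK_self hg
      have h2 : Top.EConn Q₀ := by
        have h3 : Q₀ = capC U κ (ahead (rv (subE u y 0))) := by
          rw [hQ₀]
          ext f
          exact ⟨fun h => h.2, fun h => ⟨hg, h⟩⟩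
        rw [h3]
        exact econn_compT ⟨rfl, hg⟩
      exact econn_join cC h2 hyC' h1 (adjF_ahead _).symm
    · have h3 : Q₀ = ∅ := by
        rw [hQ₀]
        ext f
        exact ⟨fun h => hg h.1, fun h => h.elim⟩
      rw [h3, Set.union_empty]
      exact cC
  have hwH : inF U τ w ∈ blow u C ∪ Q₀ := by
    rcases hl with h1 | ⟨h1, h2⟩
    · left
      unfold inF
      rw [← h1]
      exact hyC'
    · right
      rw [hQ₀]
      exact ⟨h1, h2⟩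
  have hH₀K : ∀ f ∈ blow u C ∪ Q₀, f ∉ K := fun f hf => hf.elim (hKC f) (hQK f)
  have hwx : w ≠ x := by
    rintro rfl
    exact hH₀K _ hwH htgt
  have hlam' : lam = 0 ∧ w < x ∨ lam = 1 ∧ x < w := by
    rcases hlam with ⟨h1, h2⟩ | ⟨h1, h2⟩
    · exact Or.inl ⟨h1, hwo.2 h2⟩
    · have h3 : ¬ w < x := fun h3 => h2 (hwo.1 h3)
      exact Or.inr ⟨h1, by omega⟩
  have htip' : fa (E.p ω (t₀ + σ)) ∈ K := by
    have h1 : pth (E.cf ω) τ.1 σ = E.p ω (t₀ + σ) := by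
      rw [← tip]
      exact pth_add _ _ _ _
    rwa [← h1]
  have hone : ∀ {H : Set (ℤ × ℤ)}, H ⊆ V₁ → Top.EConn H → (∀ f ∈ H, f ∉ K) → blow u C ∪ Q₀ ⊆ H →
      ∀ {f f' v : ℤ × ℤ}, f ∈ H → AdjF f f' → f' ∉ V₁ → IsCor f v → IsCor f' v → par v = lam →
      E.Sid lam ω (t₀ + σ) v := by
    intro H hHV cH hHK hsub f f' v hf hff' hf' hv hv' hpar
    exact Anc.one_col hc h.tst hn hper hW hUF hout tip (Nat.le_add_right _ _)
      (fun _ hh => hVU (hHV hh)) (fun _ hh => hVF (hHV hh)) cH (fun _ hh => hVU (hK hh))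
      (fun _ hh => hVF (hK hh)) cK hHK htip' htgt hw (hsub hwH) hlam' hf hff'
      (hnF (hHV hf) hff' hf') hv hv' hpar
  have hBC : ahead B₁ ∈ blow u C := hB₁.1
  by_cases hg : ahead (rv B₁) ∈ V₁
  · -- the class part behind the side
    obtain ⟨κ', A', k1, k2⟩ := h.reg.app h.app
    rw [← hV₁] at A'
    have hBW : BD (blow u (s.P \ s.rem g ρ)) B₁ := by
      refine ⟨hCW hBC, fun hh => hB₁.2 ?_⟩
      rcases adj_cl hu (adjF_ahead B₁) with h1 | h1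
      · rw [mem_blow, h1]
        exact hBC
      · exact hCcl _ hBC _ hh h1.symm
    rcases hKQ κ' A' k1 k2 hg with h1 | h1
    · -- the class part of the entered set
      refine Anc.cap_tip hb hVF A' hg ?_ le_rfl hc
      have h2 : pth (E.cf ω) τ.1 σ = E.p ω (t₀ + σ) := by
        rw [← tip]
        exact pth_add _ _ _ _
      rwa [← h2]
    · obtain ⟨C₁, hC₁, hl₁⟩ := exists_linkU A' hBW
      rcases hl₁ with h2 | ⟨-, h2⟩
      · exact absurd hg (h2 ▸ hC₁.2)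
      · have hQ₁V : capC V₁ κ' (ahead (rv B₁)) ⊆ V₁ := fun f hf => (capC_sub hg hf).2
        have cQ₁ : Top.EConn (capC V₁ κ' (ahead (rv B₁))) := econn_compT ⟨rfl, hg⟩
        have h3 : E.Sid lam ω (t₀ + σ) (en lam C₁.1) := by
          refine hone (H := (blow u C ∪ Q₀) ∪ capC V₁ κ' (ahead (rv B₁)))
            (Set.union_subset (Set.union_subset hCV hQV) hQ₁V)
            (econn_join hH₀ cQ₁ (Or.inl hBC) self_mem_compT (adjF_ahead _).symm)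
            (fun f hf => hf.elim (hH₀K f) (h1 f)) Set.subset_union_left (Or.inr h2)
            (adjF_ahead C₁).symm hC₁.2 (isCor_en (sideA C₁) _) (isCor_en (sideB C₁) _)
            (par_en hc _)
        exact Anc.cap_anc hb hVF A' hg h2 le_rfl (isCor_en (sideA C₁) _) h3
  · have h3 : E.Sid lam ω (t₀ + σ) (en lam B₁.1) :=
      hone (Set.union_subset hCV hQV) hH₀ hH₀K subset_rfl (Or.inl hBC) (adjF_ahead B₁).symm hg
        (isCor_en (sideA B₁) _) (isCor_en (sideB B₁) _) (par_en hc _)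
    exact Anc.side_anc hb (hVF (hCV hBC)) (show (1 : ℤ) ≤ r + 7 * (u * g.L) by omega)
      (isCor_en (sideA B₁) _) h3

/-- The class part behind a side of a lost component does not meet `ancK`. -/
theorem ancK_old {y : UE × Bool} {ζ : Cfg} {C : Set (ℤ × ℤ)}
    (h : Rg s g u ζ U κ r τ mU x lA lB σ ρ) (hC : C ⊆ s.P \ s.rem g ρ)
    (hcl : ∀ f ∈ C, ∀ k ∈ s.P \ s.rem g ρ, AdjF f k → k ∈ C) (hB : ahead s.B ∉ C)
    (hy : BD s.P y) (hyC : ahead y ∈ C) (hg : ahead (rv (subE u y 0)) ∈ U) :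
    ∀ f ∈ capC U κ (ahead (rv (subE u y 0))), f ∉ ancK s g u U r ρ := by
  have hu : (0 : ℤ) < u := by exact_mod_cast h.hu
  have hd := h.app.d_pos
  have hyB : BD (blow u s.P) (subE u y 0) := bd_subE hu hy le_rfl hu
  have hyC' : ahead (subE u y 0) ∈ blow u C := by
    rw [mem_blow, cl_ahead_zero h.hu]
    exact hyC
  intro f hf hfK
  have hfP : f ∉ blow u s.P := fun hfP => hyB.2 (h.app.sat _ _ (capC_sub hg hf).1 hfP)
  rcases hfK with (h1 | h1) | h1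
  · exact hfP (h.val.ent_sub_P h.rok h1)
  · exact hfP (h.reg.data.P'P (compT_sub (h.val.tgt_rem h1.2) h1.1))
  · obtain ⟨mP, hc⟩ := h.cycP'
    obtain ⟨j, hj, hjB⟩ := hc.exists_index hyB
    have e1 : outF (blow u s.P) (subE u s.A 0) j = ahead (rv (subE u y 0)) := by
      unfold outF
      rw [hjB]
    have e2 : inF (blow u s.P) (subE u s.A 0) j = ahead (subE u y 0) := by
      unfold inF
      rw [hjB]
    have h2 := Anc.part_near h.tst.fin h.tst.ec h.tst.esc h.app (econn_blow hu h.val.con) hc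
      h.bdB.1 (Rg.self_sq hd.le) h1 hj (by rw [e1]; exact ⟨hg, hf⟩)
    rw [e2] at h2
    exact h.val.anc_tgt h.hu h.rok hC hcl hB (b := r + r + r + 1)
      (fun z hz => h.cellB3 (sqF_le_of (by omega) hz)) h2 hyC'

/-- **The anchors of the sides of a component of the rest, regular move.** -/
theorem anc {lam : ℤ} {y B₁ : UE × Bool} {z : ℤ × ℤ}
    (h : Rg s g u (E.cf ω) U κ r τ mU x lA lB σ ρ) (tip : E.p ω t₀ = τ.1)
    (hn : Nb (E.cf ω) (E.e ω) (t₀ + σ)) (hper : ∃ N, 0 < N ∧ pth (E.cf ω) τ.1 N = τ.1)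
    (hW : E.Wll ω) (hb : fb (E.e ω) ∉ E.U ω) (hUF : U ⊆ E.Fr ω t₀)
    (hout : ∀ i, outF U τ i ∉ E.Fr ω t₀) (hz : z ∈ s.P \ s.rem g ρ)
    (hB : ahead s.B ∉ compT (s.P \ s.rem g ρ) z) (hy : BD s.P y)
    (hyC : ahead y ∈ compT (s.P \ s.rem g ρ) z) (hyf : ahead y ∉ s.fcs g ρ)
    (hlam : lam = 0 ∧ s.old y ∨ lam = 1 ∧ ¬ s.old y)
    (hB₁ : BD (blow u (compT (s.P \ s.rem g ρ) z)) B₁) :
    ∃ v, E.Sid lam ω (t₀ + σ) v ∧ Pth {a | InB (lf B₁) (r + 7 * (u * g.L)) a ∧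
      ∀ l ≤ t₀ + σ, E.p ω l ≠ a} (lf B₁) v := by
  have hCW : compT (s.P \ s.rem g ρ) z ⊆ s.P \ s.rem g ρ := compT_sub hz
  have hCcl : ∀ f ∈ compT (s.P \ s.rem g ρ) z, ∀ k ∈ s.P \ s.rem g ρ, AdjF f k →
      k ∈ compT (s.P \ s.rem g ρ) z := fun f hf k hk ha => compT_step hf ha hk
  exact h.anc_of tip hn hper hW hb hUF hout hz hB hy hyC hyf hlam h.ancK_sub h.ancK_conn
    h.ancK_tip h.ancK_tgt (fun f hf => h.ancK_comp hCW hCcl hB hf)
    (fun hg => h.ancK_old hCW hCcl hB hy hyC hg)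
    (fun κ' a' e1 e2 hg => h.ancK_cap a' e1 e2 hCW hCcl hB hB₁ hg) hB₁

end Rg

end Pool.Agent.SixB.Mv
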