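import Pool.Agent.Lib.SixB.S8NearCut
import Pool.Agent.Lib.SixB.S8Thick
import Pool.Agent.Lib.SixB.S8Walls
import Pool.Agent.Lib.SixB.S8Sub

/-!
# Step 8, number of moves: planar facts on one strand and connected sets of faces

* `hasPot_univ`: every set of unit edges which is even everywhere has a potential.
* `conn_pot`: the potential of an edge connected set `H` with two sides of `F`; `face_nc`: two
  disjoint edge connected sets do not join interlaced pairs of sides.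
* `chain_nc`: the same for a chain of edge connected sets, attached at consecutive sides.
* `contig_chain`: `contig` for a chain.
-/

set_option autoImplicit false

namespace Pool.Agent.SixB.Cnt

open Finset Pool.Agent.Perc Pool.Agent.Perc6 Pool.Agent.Perc6.C2Aux Pool.Agent.Perc.Tips
open Pool.Agent.SixB.Top Pool.Agent.SixB.Mv Pool.Agent.SixB.NearCut

/-! ### Potentials in the plane -/

private theorem exists_prim (d : ℤ → ZMod 2) :
    ∃ S : ℤ → ZMod 2, S 0 = 0 ∧ ∀ x, S (x + 1) = S x + d x := by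
  refine ⟨fun x => ∑ k ∈ range x.toNat, d k + ∑ k ∈ range (-x).toNat, d (-((k : ℤ) + 1)),
    by simp, fun x => ?_⟩
  simp only
  rcases Int.lt_or_le x 0 with h | h
  · have h1 : x.toNat = 0 := by omega
    have h2 : (x + 1).toNat = 0 := by omega
    have h3 : (-x).toNat = (-(x + 1)).toNat + 1 := by omega
    rw [h1, h2, h3, Finset.sum_range_succ]
    have h4 : -(((-(x + 1)).toNat : ℤ) + 1) = x := by omega
    rw [h4]
    simp only [Finset.range_zero, Finset.sum_empty, zero_add]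
    generalize ∑ k ∈ range (-(x + 1)).toNat, d (-((k : ℤ) + 1)) = p
    generalize d x = q
    revert p q
    decide
  · have h1 : (x + 1).toNat = x.toNat + 1 := by omega
    have h2 : (-x).toNat = 0 := by omega
    have h3 : (-(x + 1)).toNat = 0 := by omega
    rw [h1, h2, h3, Finset.sum_range_succ]
    have h4 : ((x.toNat : ℕ) : ℤ) = x := by omega
    rw [h4]
    simp

private theorem z2_ne_iff {P : Prop} {x y : ZMod 2} (h : x + y = ind2 P) : P ↔ x ≠ y := by
  by_cases hp : P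
  · rw [ind2_pos hp] at h
    refine ⟨fun _ => ?_, fun _ => hp⟩
    revert h
    revert x y
    decide
  · rw [ind2_neg hp] at h
    refine ⟨fun h' => absurd h' hp, fun h' => ?_⟩
    exfalso
    apply h'
    revert h
    revert x y
    decide

/-- **Potentials in the plane.** -/
theorem hasPot_univ : HasPot (Set.univ : Set (ℤ × ℤ)) := by
  intro M hM
  obtain ⟨S, -, hS⟩ := exists_prim fun x => ind2 (((x, 0, false) : UE) ∈ M)
  have hV : ∀ x : ℤ, ∃ V : ℤ → ZMod 2, V 0 = 0 ∧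
      ∀ y, V (y + 1) = V y + ind2 (((x, y, true) : UE) ∈ M) := fun x => exists_prim _
  choose V hV0 hV1 using hV
  refine ⟨fun v => S v.1 + V v.1 v.2, ?_⟩
  -- horizontal edges
  have hev : ∀ x y : ℤ, ind2 (((x, y, false) : UE) ∈ M) + ind2 (((x + 1, y, true) : UE) ∈ M) +
      (ind2 (((x, y + 1, false) : UE) ∈ M) + ind2 (((x, y, true) : UE) ∈ M)) = 0 :=
    fun x y => hM (x, y) (Set.mem_univ _)
  have hH : ∀ x y : ℤ, S x + V x y + (S (x + 1) + V (x + 1) y) =
      ind2 (((x, y, false) : UE) ∈ M) := by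
    intro x
    have up : ∀ y : ℤ, S x + V x y + (S (x + 1) + V (x + 1) y) =
        ind2 (((x, y, false) : UE) ∈ M) ↔ S x + V x (y + 1) + (S (x + 1) + V (x + 1) (y + 1)) =
        ind2 (((x, y + 1, false) : UE) ∈ M) := by
      intro y
      have h1 := hev x y
      rw [hV1 x y, hV1 (x + 1) y]
      revert h1
      generalize ind2 (((x, y, false) : UE) ∈ M) = a
      generalize ind2 (((x + 1, y, true) : UE) ∈ M) = b
      generalize ind2 (((x, y + 1, false) : UE) ∈ M) = c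
      generalize ind2 (((x, y, true) : UE) ∈ M) = d
      generalize V x y = p
      generalize V (x + 1) y = q
      generalize S x = r
      generalize S (x + 1) = s
      intro h1
      have e1 : r + (p + d) + (s + (q + b)) = (r + p + (s + q)) + (b + d) := by ring
      rw [e1]
      clear e1
      generalize r + p + (s + q) = t
      clear r s p q
      revert a b c d t
      decide
    have h0 : S x + V x 0 + (S (x + 1) + V (x + 1) 0) = ind2 (((x, 0, false) : UE) ∈ M) := by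
      rw [hV0, hV0, add_zero, add_zero, hS x]
      generalize S x = r
      generalize ind2 (((x, 0, false) : UE) ∈ M) = a
      revert r a
      decide
    intro y
    induction y using Int.induction_on with
    | zero => exact h0
    | succ n ih => exact (up n).1 ih
    | pred n ih =>
      apply (up _).2
      have : -(n : ℤ) - 1 + 1 = -(n : ℤ) := by ring
      rw [this]
      exact ih
  intro f _ a _
  obtain ⟨x, y, b⟩ := a
  cases b
  · exact z2_ne_iff (hH x y)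
  · refine z2_ne_iff ?_
    show S x + V x y + (S x + V x (y + 1)) = _
    rw [hV1 x y]
    generalize S x = r
    generalize V x y = p
    generalize ind2 (((x, y, true) : UE) ∈ M) = a
    revert r p a
    decide

/-! ### Values on faces and on a contour -/

/-- `Φ` does not change across the sides of the face `f`. -/
def Cst (Φ : ℤ × ℤ → ZMod 2) (f : ℤ × ℤ) : Prop := ∀ a, IsSide f a → Φ (ua a) = Φ (ub a)

theorem Cst.cor {Φ : ℤ × ℤ → ZMod 2} {f : ℤ × ℤ} (h : Cst Φ f) {p q : ℤ × ℤ} (hp : IsCor f p)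
    (hq : IsCor f q) : Φ p = Φ q := by
  obtain ⟨x, y⟩ := f
  have b1 : Φ (x, y) = Φ (x + 1, y) := h _ (Or.inl rfl)
  have b2 : Φ (x + 1, y) = Φ (x + 1, y + 1) := h _ (Or.inr (Or.inr (Or.inr rfl)))
  have b3 : Φ (x, y + 1) = Φ (x + 1, y + 1) := h _ (Or.inr (Or.inr (Or.inl rfl)))
  have hall : ∀ p, IsCor (x, y) p → Φ p = Φ (x, y) := by
    rintro ⟨p1, p2⟩ hp
    unfold IsCor at hp
    simp only at hp
    rcases hp with ⟨rfl | rfl, rfl | rfl⟩
    · rfl
    · rw [b3, ← b2, ← b1]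
    · exact b1.symm
    · rw [← b2, ← b1]
  rw [hall p hp, hall q hq]

theorem Cst.chn {Φ : ℤ × ℤ → ZMod 2} {Y : Set (ℤ × ℤ)} (h : ∀ f ∈ Y, Cst Φ f) {f g : ℤ × ℤ}
    (hf : f ∈ Y) (hc : Relation.ReflTransGen (fun a b => AdjF a b ∧ b ∈ Y) f g) {p q : ℤ × ℤ}
    (hp : IsCor f p) (hq : IsCor g q) : Φ p = Φ q := by
  have key : g ∈ Y ∧ ∀ q, IsCor g q → Φ p = Φ q := by
    clear hq
    induction hc with
    | refl => exact ⟨hf, fun q hq => (h f hf).cor hp hq⟩
    | @tail b c _ hs ih =>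
      obtain ⟨⟨-, a, h1, h2⟩, hcY⟩ := hs
      refine ⟨hcY, fun q hq => ?_⟩
      rw [ih.2 _ (PotB.cor_ua h1)]
      exact (h c hcY).cor (PotB.cor_ua h2) hq
  exact key.2 q hq

theorem Cst.econn {Φ : ℤ × ℤ → ZMod 2} {Y : Set (ℤ × ℤ)} (cY : EConn Y) (h : ∀ f ∈ Y, Cst Φ f)
    {f g : ℤ × ℤ} (hf : f ∈ Y) (hg : g ∈ Y) {p q : ℤ × ℤ} (hp : IsCor f p) (hq : IsCor g q) :
    Φ p = Φ q := Cst.chn h hf (cY f hf g hg) hp hq

theorem side_ahead (A : UE × Bool) : IsSide (ahead A) A.1 := isSide_ahead A.1 A.2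

theorem side_behind (A : UE × Bool) : IsSide (ahead (rv A)) A.1 := isSide_ahead A.1 (!A.2)

theorem cor_side {f : ℤ × ℤ} {a : UE} {p q : ℤ × ℤ} (h : IsSide f a) (hj : Joins a p q) :
    IsCor f p ∧ IsCor f q := by
  rcases hj with ⟨rfl, rfl⟩ | ⟨rfl, rfl⟩
  · exact ⟨PotB.cor_ua h, PotB.cor_ub h⟩
  · exact ⟨PotB.cor_ub h, PotB.cor_ua h⟩

theorem cor_lf (A : UE × Bool) : IsCor (ahead A) (lf A) :=
  (cor_side (side_ahead A) (joins_lf_rg A)).1

theorem cor_rg (A : UE × Bool) : IsCor (ahead A) (rg A) :=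
  (cor_side (side_ahead A) (joins_lf_rg A)).2

/-- A function on the indices of a contour which changes exactly at `x` and `y`. -/
theorem val_two {f : ℕ → ZMod 2} {x y m : ℕ} (hxy : x < y)
    (h : ∀ i < m, (f i ≠ f (i + 1) ↔ (i = x ∨ i = y))) :
    (∀ i ≤ x, i ≤ m → f i = f 0) ∧ (∀ i, x < i → i ≤ y → i ≤ m → f i ≠ f 0) ∧
      ∀ i, y < i → i ≤ m → f i = f 0 := by
  have h0 : ∀ i ≤ x, i ≤ m → f i = f 0 := fun i hi him => by
    refine (const_run f (Nat.zero_le i) fun k _ h3 h4 => ?_).symm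
    rcases (h k (by omega)).1 h4 with h5 | h5 <;> omega
  have h1 : ∀ i, x < i → i ≤ y → i ≤ m → f i ≠ f 0 := fun i hi1 hi2 him => by
    have e1 : f (x + 1) = f i := by
      refine const_run f (by omega) fun k h3 h4 h5 => ?_
      rcases (h k (by omega)).1 h5 with h6 | h6 <;> omega
    have e2 := (h x (by omega)).2 (Or.inl rfl)
    rw [← e1, ← h0 x le_rfl (by omega)]
    exact e2.symm
  refine ⟨h0, h1, fun i hi him => ?_⟩
  have e1 : f (y + 1) = f i := by
    refine const_run f (by omega) fun k h3 h4 h5 => ?_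
    rcases (h k (by omega)).1 h5 with h6 | h6 <;> omega
  have e2 := (h y (by omega)).2 (Or.inr rfl)
  have e3 := h1 y hxy le_rfl (by omega)
  rw [← e1]
  revert e2 e3
  generalize f y = p
  generalize f (y + 1) = q
  generalize f 0 = r
  revert p q r
  decide

/-! ### The potential of a connected set of faces -/

section Conn

variable {F G H X Y : Set (ℤ × ℤ)} {A B C : UE × Bool} {m : ℕ}

/-- The potential of the edge connected set `H` with the sides `B`, `C` of `F`. -/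
theorem conn_pot (hF : HasPot F) (hHF : H ⊆ F) (cH : EConn H) (hB : BD F B) (hBH : ahead B ∈ H)
    (hC : BD F C) (hCH : ahead C ∈ H) (hne : B.1 ≠ C.1) :
    ∃ Φ : ℤ × ℤ → ZMod 2, (∀ f ∈ F, f ∉ H → Cst Φ f) ∧
      ∀ Z, BD F Z → (Φ (lf Z) ≠ Φ (rg Z) ↔ Z.1 = B.1 ∨ Z.1 = C.1) := by
  have hch : Relation.ReflTransGen (StepC Hᶜ) (ahead B) (ahead C) :=
    Relation.ReflTransGen.mono (p := StepC Hᶜ)
      (fun b d (hbd : AdjF b d ∧ d ∈ H) => ⟨hbd.1, fun h => h hbd.2⟩) _ _ (cH _ hBH _ hCH)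
  obtain ⟨-, P, hP, hpar⟩ := chain_toggle (F := Hᶜ) (fun h => h hBH) hch
  have hPH : ∀ a ∈ P, ∀ k, IsSide k a → k ∈ H := fun a ha k hk => by
    by_contra hno
    exact hP a ha k hno hk
  set M : Set UE := symmDiff (symmDiff P {B.1}) {C.1} with hM
  have hneB : ahead B ≠ ahead (rv B) := fun h => hB.2 (h ▸ hB.1)
  have hneC : ahead C ≠ ahead (rv C) := fun h => hC.2 (h ▸ hC.1)
  have hev : ∀ k ∈ F, EvenAt M k := by
    intro k hk
    have e1 : ¬ k = ahead (rv B) := fun h => hB.2 (h ▸ hk)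
    have e2 : ¬ k = ahead (rv C) := fun h => hC.2 (h ▸ hk)
    rw [evenAt_iff, hM, parAt_symmDiff, parAt_symmDiff, hpar,
      parAt_side hneB (side_ahead B) (side_behind B), parAt_side hneC (side_ahead C) (side_behind C),
      ind2_neg e1, ind2_neg e2]
    generalize ind2 (k = ahead B) = p
    generalize ind2 (k = ahead C) = q
    revert p q
    decide
  obtain ⟨Φ, hΦ⟩ := hF M hev
  refine ⟨Φ, fun f hf hfH a ha => ?_, fun Z hZ => ?_⟩
  · by_contra hn
    have h1 := (hΦ f hf a ha).2 hn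
    rw [hM, Set.mem_symmDiff, Set.mem_symmDiff, Set.mem_singleton_iff, Set.mem_singleton_iff] at h1
    have h2 : a ∉ P := fun h => hfH (hPH a h f ha)
    have h3 : a ≠ B.1 := by
      rintro rfl
      rcases side_two hneB (side_ahead B) (side_behind B) ha with h | h
      · exact hfH (h ▸ hBH)
      · exact hB.2 (h ▸ hf)
    have h4 : a ≠ C.1 := by
      rintro rfl
      rcases side_two hneC (side_ahead C) (side_behind C) ha with h | h
      · exact hfH (h ▸ hCH)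
      · exact hC.2 (h ▸ hf)
    tauto
  · rw [← hΦ.joins hZ.1 (side_ahead Z) (joins_lf_rg Z), hM, Set.mem_symmDiff, Set.mem_symmDiff,
      Set.mem_singleton_iff, Set.mem_singleton_iff]
    have h2 : Z.1 ∉ P := fun h => hZ.2 (hHF (hPH _ h _ (side_behind Z)))
    constructor
    · tauto
    · rintro (h | h)
      · exact Or.inl ⟨Or.inr ⟨h, h2⟩, fun h' => hne (h.symm.trans h')⟩
      · refine Or.inr ⟨h, ?_⟩
        rintro (⟨h3, -⟩ | ⟨h3, -⟩)
        · exact h2 h3
        · exact hne (h3.symm.trans h)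

/-- The same with the indices of the sides. -/
theorem conn_pot_idx (hF : HasPot F) (hHF : H ⊆ F) (cH : EConn H) (hA : BD F A) (hm : Per F m A)
    {x y : ℕ} (hxy : x < y) (hym : y < m) (hx : inF F A x ∈ H) (hy : inF F A y ∈ H) :
    ∃ Φ : ℤ × ℤ → ZMod 2, (∀ f ∈ F, f ∉ H → Cst Φ f) ∧
      (∀ i ≤ x, Φ (vert F A i) = Φ (vert F A 0)) ∧
      (∀ i, x < i → i ≤ y → Φ (vert F A i) ≠ Φ (vert F A 0)) ∧
      ∀ i, y < i → i ≤ m → Φ (vert F A i) = Φ (vert F A 0) := by
  have hinj : ∀ i < m, ∀ j < m, (side F A i).1 = (side F A j).1 → i = j := fun i hi j hj h =>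
    hm.inj i hi j hj ((bd_side hA i).eq_of_fst (bd_side hA j) h)
  obtain ⟨Φ, h1, h2⟩ := conn_pot hF hHF cH (bd_side hA x) hx (bd_side hA y) hy
    (fun h => by have := hinj x (by omega) y hym h; omega)
  have h3 := val_two (f := fun i => Φ (vert F A i)) hxy (m := m) (fun i hi => by
    rw [vert_succ]
    refine (h2 _ (bd_side hA i)).trans ⟨?_, ?_⟩
    · rintro (h | h)
      · exact Or.inl (hinj i hi x (by omega) h)
      · exact Or.inr (hinj i hi y hym h)
    · rintro (rfl | rfl)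
      · exact Or.inl rfl
      · exact Or.inr rfl)
  exact ⟨Φ, h1, fun i hi => h3.1 i hi (by omega), fun i hi hi' => h3.2.1 i hi hi' (by omega),
    h3.2.2⟩

theorem cor_vert (i : ℕ) : IsCor (inF F A i) (vert F A i) := cor_lf _

theorem cor_vert_succ (i : ℕ) : IsCor (inF F A i) (vert F A (i + 1)) := by
  rw [vert_succ]
  exact cor_rg _

/-- **(A)** Two disjoint edge connected sets do not join interlaced pairs of sides. -/
theorem face_nc (hF : HasPot F) (hXF : X ⊆ F) (cX : EConn X) (hYF : Y ⊆ F) (cY : EConn Y)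
    (hXY : ∀ f ∈ X, f ∉ Y) (hA : BD F A) (hm : Per F m A) {i j k l : ℕ} (hij : i < j)
    (hjk : j < k) (hkl : k < l) (hlm : l < m) (hi : inF F A i ∈ X) (hk : inF F A k ∈ X)
    (hj : inF F A j ∈ Y) (hl : inF F A l ∈ Y) : False := by
  obtain ⟨Φ, h1, -, h3, h4⟩ := conn_pot_idx hF hXF cX hA hm (hij.trans hjk) (hkl.trans hlm) hi hk
  have h5 : Φ (vert F A j) = Φ (vert F A l) :=
    Cst.econn cY (fun f hf => h1 f (hYF hf) fun h => hXY f h hf) hj hl (cor_vert j) (cor_vert l)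
  exact h3 j hij hjk.le (h5.trans (h4 l hkl hlm.le))

/-! ### Chains of connected sets -/

/-- Equal or consecutive indices of a contour with `m` sides. -/
def Nbr (m i j : ℕ) : Prop :=
  i = j ∨ i = j + 1 ∨ j = i + 1 ∨ (i = 0 ∧ j + 1 = m) ∨ (j = 0 ∧ i + 1 = m)

/-- A chain of edge connected sets `K 0, …, K r` of faces of `F`: `K k` has the sides `a k` and `b k`,
the sides `b k` and `a (k + 1)` are equal or consecutive. -/
structure Chain (F : Set (ℤ × ℤ)) (A : UE × Bool) (m r : ℕ) (K : ℕ → Set (ℤ × ℤ))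
    (a b : ℕ → ℕ) : Prop where
  sub : ∀ k ≤ r, K k ⊆ F
  conn : ∀ k ≤ r, EConn (K k)
  ltA : ∀ k ≤ r, a k < m
  ltB : ∀ k ≤ r, b k < m
  memA : ∀ k ≤ r, inF F A (a k) ∈ K k
  memB : ∀ k ≤ r, inF F A (b k) ∈ K k
  nbr : ∀ k < r, Nbr m (b k) (a (k + 1))

variable {r : ℕ} {K : ℕ → Set (ℤ × ℤ)} {a b : ℕ → ℕ} {Φ : ℤ × ℤ → ZMod 2}

/-- A function which does not change on the faces of a chain. -/
theorem Chain.val (h : Chain F A m r K a b) (hm : Per F m A) (hΦ : ∀ k ≤ r, ∀ f ∈ K k, Cst Φ f)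
    (k : ℕ) (hk : k ≤ r) : Φ (vert F A (a k)) = Φ (vert F A (a 0)) ∧
      Φ (vert F A (a k + 1)) = Φ (vert F A (a 0)) ∧ Φ (vert F A (b k)) = Φ (vert F A (a 0)) ∧
      Φ (vert F A (b k + 1)) = Φ (vert F A (a 0)) := by
  have hv0 : vert F A m = vert F A 0 := by
    show lf ((sc F)^[m] A) = lf ((sc F)^[0] A)
    rw [hm.per]
    rfl
  have piece : ∀ k ≤ r, ∀ i j, inF F A i ∈ K k → inF F A j ∈ K k →
      Φ (vert F A i) = Φ (vert F A j) ∧ Φ (vert F A (i + 1)) = Φ (vert F A j) :=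
    fun k hk i j hi hj => ⟨Cst.econn (h.conn k hk) (hΦ k hk) hi hj (cor_vert i) (cor_vert j),
      Cst.econn (h.conn k hk) (hΦ k hk) hi hj (cor_vert_succ i) (cor_vert j)⟩
  induction k with
  | zero =>
    have h1 := piece 0 hk _ _ (h.memA 0 hk) (h.memA 0 hk)
    have h2 := piece 0 hk _ _ (h.memB 0 hk) (h.memA 0 hk)
    exact ⟨rfl, h1.2, h2.1, h2.2⟩
  | succ k ih =>
    obtain ⟨-, -, i1, i2⟩ := ih (by omega)
    have h1 := piece (k + 1) hk _ _ (h.memA _ hk) (h.memA _ hk)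
    have h2 := piece (k + 1) hk _ _ (h.memB _ hk) (h.memA _ hk)
    have h3 : Φ (vert F A (a (k + 1))) = Φ (vert F A (a 0)) := by
      rcases h.nbr k (by omega) with h3 | h3 | h3 | ⟨h3, h4⟩ | ⟨h3, h4⟩
      · rw [← h3]; exact i1
      · rw [← h1.2, ← h3]; exact i1
      · rw [h3]; exact i2
      · rw [h3] at i1
        rw [← h1.2, h4, hv0]
        exact i1
      · rw [h3, ← hv0, ← h4]; exact i2
    exact ⟨h3, h1.2.trans h3, h2.1.trans h3, h2.2.trans h3⟩

/-- **(B)** An edge connected set which is disjoint from a chain does not separate its ends. -/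
theorem chain_nc (hF : HasPot F) (hHF : H ⊆ F) (cH : EConn H) (hA : BD F A) (hm : Per F m A)
    (h : Chain F A m r K a b) (hd : ∀ k ≤ r, ∀ f ∈ K k, f ∉ H) {x y : ℕ} (hxy : x < y)
    (hym : y < m) (hx : inF F A x ∈ H) (hy : inF F A y ∈ H) :
    (x < a 0 ∧ a 0 < y) ↔ (x < b r ∧ b r < y) := by
  obtain ⟨Φ, h1, h2, h3, h4⟩ := conn_pot_idx hF hHF cH hA hm hxy hym hx hy
  obtain ⟨-, -, h5, -⟩ := h.val (Φ := Φ) hm
    (fun k hk f hf => h1 f (h.sub k hk hf) (hd k hk f hf)) r le_rfl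
  have key : ∀ i < m, inF F A i ∉ H → ((x < i ∧ i < y) ↔ Φ (vert F A i) ≠ Φ (vert F A 0)) := by
    intro i hi hiH
    have e1 : i ≠ x := fun h => hiH (h ▸ hx)
    have e2 : i ≠ y := fun h => hiH (h ▸ hy)
    constructor
    · rintro ⟨e3, e4⟩
      exact h3 i e3 e4.le
    · intro e3
      rcases Nat.lt_or_ge x i with e4 | e4
      · refine ⟨e4, ?_⟩
        by_contra e5
        exact e3 (h4 i (by omega) hi.le)
      · exact absurd (h2 i e4) e3
  rw [key _ (h.ltA 0 (Nat.zero_le r)) (hd 0 (Nat.zero_le r) _ (h.memA 0 (Nat.zero_le r))),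
    key _ (h.ltB r le_rfl) (hd r le_rfl _ (h.memB r le_rfl)), h5]

/-- **(C)** Contiguity for a chain: `A` is a common side of `F` and `G`. -/
theorem contig_chain (hF : F.Finite) (hc : EConn F) (he : Esc F) (hGF : G ⊆ F) (hcG : EConn G)
    (hA : BD F A) (hAG : BD G A) {mF mG : ℕ} (hmF : Per F mF A) (hmG : Per G mG A)
    (h : Chain F A mF r K a b) (hd : ∀ k ≤ r, ∀ f ∈ K k, f ∉ G)
    (hT : ∀ f ∈ G, ∀ y, AdjF f y → y ∈ F → y ∉ G → ∃ k ≤ r, y ∈ K k) :
    ∃ p q s t u, (∀ k ≤ r, p ≤ a k ∧ a k ≤ q ∧ p ≤ b k ∧ b k ≤ q) ∧ p ≤ q ∧ q < mF ∧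
      s + 1 < t ∧ t ≤ mG ∧ s < p ∧ q < u ∧ u + (mG - t) = mF ∧
      (∀ i ≤ s, side G A i = side F A i) ∧
      (∀ i, s < i → i < t → ¬ BD F (side G A i)) ∧
      (∀ j, t + j ≤ mG → side G A (t + j) = side F A (u + j)) := by
  classical
  set S : Finset ℕ := (range (r + 1)).image a ∪ (range (r + 1)).image b with hS
  have memS : ∀ i, i ∈ S ↔ ∃ k ≤ r, i = a k ∨ i = b k := by
    intro i
    rw [hS, Finset.mem_union, Finset.mem_image, Finset.mem_image]
    constructor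
    · rintro (⟨k, hk, rfl⟩ | ⟨k, hk, rfl⟩) <;> rw [Finset.mem_range] at hk
      · exact ⟨k, by omega, Or.inl rfl⟩
      · exact ⟨k, by omega, Or.inr rfl⟩
    · rintro ⟨k, hk, rfl | rfl⟩
      · exact Or.inl ⟨k, Finset.mem_range.2 (by omega), rfl⟩
      · exact Or.inr ⟨k, Finset.mem_range.2 (by omega), rfl⟩
  have hne : S.Nonempty := ⟨a 0, (memS _).2 ⟨0, Nat.zero_le r, Or.inl rfl⟩⟩
  have inS : ∀ i ∈ S, i < mF ∧ inF F A i ∉ G ∧
      ∀ Φ : ℤ × ℤ → ZMod 2, (∀ f ∈ F, f ∉ G → Cst Φ f) → Φ (vert F A i) = Φ (vert F A (a 0)) := by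
    intro i hi
    obtain ⟨k, hk, hi⟩ := (memS i).1 hi
    have h1 := fun (Φ : ℤ × ℤ → ZMod 2) (hΦ : ∀ f ∈ F, f ∉ G → Cst Φ f) =>
      h.val (Φ := Φ) hmF (fun k hk f hf => hΦ f (h.sub k hk hf) (hd k hk f hf)) k hk
    rcases hi with rfl | rfl
    · exact ⟨h.ltA k hk, hd k hk _ (h.memA k hk), fun Φ hΦ => (h1 Φ hΦ).1⟩
    · exact ⟨h.ltB k hk, hd k hk _ (h.memB k hk), fun Φ hΦ => (h1 Φ hΦ).2.2.1⟩
  set p := S.min' hne with hp
  set q := S.max' hne with hq
  have hpS : p ∈ S := S.min'_mem hne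
  have hqS : q ∈ S := S.max'_mem hne
  have hpq : p ≤ q := S.min'_le q hqS
  have hbd : ∀ k ≤ r, p ≤ a k ∧ a k ≤ q ∧ p ≤ b k ∧ b k ≤ q := fun k hk =>
    ⟨S.min'_le _ ((memS _).2 ⟨k, hk, Or.inl rfl⟩), S.le_max' _ ((memS _).2 ⟨k, hk, Or.inl rfl⟩),
      S.min'_le _ ((memS _).2 ⟨k, hk, Or.inr rfl⟩), S.le_max' _ ((memS _).2 ⟨k, hk, Or.inr rfl⟩)⟩
  have hY : ∀ i, p ≤ i → i ≤ q → ahead ((sc F)^[i] A) ∉ G := by
    intro i h1 h2 hi
    have e1 : i ≠ p := fun h => (inS p hpS).2.1 (h ▸ hi)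
    have e2 : i ≠ q := fun h => (inS q hqS).2.1 (h ▸ hi)
    have e3 : p ≠ 0 := fun h => (inS p hpS).2.1 (by rw [h]; exact hAG.1)
    obtain ⟨Φ, g1, -, g3, g4⟩ := conn_pot_idx (he.hasPot' hF) hGF hcG hA hmF (x := 0) (y := i)
      (by omega) (by have := (inS q hqS).1; omega) hAG.1 hi
    have g5 := (inS p hpS).2.2 Φ g1
    have g6 := (inS q hqS).2.2 Φ g1
    exact g3 p (by omega) (by omega) (g5.trans (g6.symm.trans (g4 q (by omega)
      (inS q hqS).1.le)))
  obtain ⟨s, t, u, c1, c2, c3, c4, c5, c6, c7, c8⟩ := contig hF hc he hGF hcG hA hAG hmF hmG hpq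
    (inS q hqS).1 hY (fun f hf y hfy hy hyG => by
      obtain ⟨k, hk, hyk⟩ := hT f hf y hfy hy hyG
      refine ⟨a k, (hbd k hk).1, (hbd k hk).2.1, ?_⟩
      exact Relation.ReflTransGen.mono (fun b c (hbc : AdjF b c ∧ c ∈ K k) =>
        ⟨hbc.1, h.sub k hk hbc.2, hd k hk _ hbc.2⟩) _ _
        (h.conn k hk y hyk _ (h.memA k hk)))
  exact ⟨p, q, s, t, u, hbd, hpq, (inS q hqS).1, c1, c2, c3, c4, c5, c6, c7, c8⟩

end Conn

end Pool.Agent.SixB.Cnt
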