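import Pool.Agent.Lib.SixB.S8AncT
import Pool.Agent.Lib.SixB.S8AncB
import Pool.Agent.Lib.SixB.S8CountC
import Pool.Agent.Lib.SixB.S8LabWk

/-!
# Step 8: the lost components of a void move, the geometry

`Vd`: the true domain `U`, the coarse domain `P` with its weak labels, the entered set `E` at the tip side
`A` (all faces which are removed), a component `C` of `P \ E` without the target, a connected set `Y` with
`E` and the target which does not meet `C`.

* `Vd.walk`: for every side of `C` there is a side on the same arc between the tip and the target which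
  has a link and has its inner face in `E`;
* `Vd.kind`: all sides of `C` are on the same arc;
* `Vd.tip`: the face in front of the true tip is not in `C`.
-/

set_option autoImplicit false

namespace Pool.Agent.SixB.Anc

open Finset Pool.Agent.Perc Pool.Agent.Perc6 Pool.Agent.Perc6.C2Aux Pool.Agent.Perc.Tips
open Pool.Agent.SixB Pool.Agent.SixB.Mv Pool.Agent.SixB.Top Pool.Agent.SixB.CloK

/-- The geometry of a void move. -/
structure Vd {ι ι' : Type*} (U P E C Y : Set (ℤ × ℤ)) (κ : ℤ × ℤ → ι) (c : ℤ × ℤ → ι')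
    (A τ B : UE × Bool) (d a b : ℤ) (mP mU x t : ℕ) : Prop where
  fin : U.Finite
  ecU : Top.EConn U
  esc : Esc U
  app : App U P κ d
  ecP : Top.EConn P
  escP : Esc P
  cyc : Cyc P A mP
  cyU : Cyc U τ mU
  lab : WkLab U P κ A τ B a b mP mU x t
  x0 : 0 < x
  xm : x < mU
  a0 : 0 ≤ a
  b0 : 0 ≤ b
  cA : ∀ f ∈ Mv.sqF (a + 1) (ahead A), c f = c (ahead A)
  cB : ∀ f ∈ Mv.sqF (b + 1) (ahead B), c f = c (ahead B)
  EP : E ⊆ P
  AE : ahead A ∈ E
  sat : ∀ f ∈ E, ∀ k ∈ P, AdjF f k → c f = c k → k ∈ E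
  CP : C ⊆ P
  CE : ∀ f ∈ C, f ∉ E
  cl : ∀ f ∈ C, ∀ k ∈ P, k ∉ E → AdjF f k → k ∈ C
  ecC : Top.EConn C
  YP : Y ⊆ P
  ecY : Top.EConn Y
  EY : E ⊆ Y
  BY : ahead B ∈ Y
  CY : ∀ f ∈ C, f ∉ Y

namespace Vd

variable {ι ι' : Type*} {U P E C Y : Set (ℤ × ℤ)} {κ : ℤ × ℤ → ι} {c : ℤ × ℤ → ι'}
  {A τ B : UE × Bool} {d a b : ℤ} {mP mU x t i : ℕ} {f k : ℤ × ℤ}
  (h : Vd U P E C Y κ c A τ B d a b mP mU x t)

/-- joined near the tip side or near the target side -/
def Nr (P : Set (ℤ × ℤ)) (A B : UE × Bool) (a b : ℤ) (f : ℤ × ℤ) : Prop :=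
  ChI (P ∩ Mv.sqF a (ahead A)) (ahead A) f ∨ ChI (P ∩ Mv.sqF b (ahead B)) (ahead B) f

include h

theorem perP : Per P mP A := ⟨h.cyc.pos, h.cyc.per, h.cyc.inj⟩

theorem perU : Per U mU τ := ⟨h.cyU.pos, h.cyU.per, h.cyU.inj⟩

/-- `E` is closed in the cells. -/
theorem sat' (hf : f ∈ P) (hk : k ∈ E) (ha : AdjF f k) (hc : c f = c k) : f ∈ E :=
  h.sat k hk f hf ha.symm hc.symm

/-- `C` is closed in the cells. -/
theorem cl' (hf : f ∈ C) (hk : k ∈ P) (ha : AdjF f k) (hc : c f = c k) : k ∈ C :=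
  h.cl f hf k hk (fun hk' => h.CE f hf (h.sat' (h.CP hf) hk' ha hc)) ha

/-- The faces joined to the tip side near the tip side are in `E`. -/
theorem nearA (hf : ChI (P ∩ Mv.sqF (a + 1) (ahead A)) (ahead A) f) : f ∈ E := by
  have key : f ∈ E ∧ c f = c (ahead A) := by
    induction hf with
    | refl => exact ⟨h.AE, rfl⟩
    | @tail y z _ hs ih =>
      have hz := h.cA z hs.2.2
      exact ⟨h.sat y ih.1 z hs.2.1 hs.1 (ih.2.trans hz.symm), hz⟩
  exact key.1

/-- The faces joined to the target side near the target side are not in `C`. -/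
theorem nearB (hf : ChI (P ∩ Mv.sqF (b + 1) (ahead B)) (ahead B) f) : f ∉ C := by
  have key : f ∉ C ∧ f ∈ P ∧ c f = c (ahead B) := by
    induction hf with
    | refl => exact ⟨fun h' => h.CY _ h' h.BY, h.YP h.BY, rfl⟩
    | @tail y z _ hs ih =>
      have hz := h.cB z hs.2.2
      exact ⟨fun h' => ih.1 (h.cl' h' ih.2.1 hs.1.symm (hz.trans ih.2.2.symm)), hs.2.1, hz⟩
  exact key.1

/-- Two faces joined near the target side: both in `E` or both outside. -/
theorem nearE {S : Set (ℤ × ℤ)} {g : ℤ × ℤ} (hS : ∀ y ∈ S, y ∈ P ∧ c y = c g) (hk : k ∈ E) (hkS : k ∈ S)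
    (hf : ChI S k f) : f ∈ E := by
  have key : f ∈ E ∧ f ∈ S := by
    induction hf with
    | refl => exact ⟨hk, hkS⟩
    | @tail y z _ hs ih =>
      exact ⟨h.sat y ih.1 z (hS z hs.2).1 hs.1 ((hS y ih.2).2.trans (hS z hs.2).2.symm), hs.2⟩
  exact key.1

omit h in
theorem sq_self {r : ℤ} (hr : 0 ≤ r) (g : ℤ × ℤ) : g ∈ Mv.sqF r g := by
  unfold Mv.sqF
  rw [Set.mem_ofPred_eq]
  simp [hr]

omit h in
/-- A chain at a corner of a near face. -/
private theorem cor_near {r : ℤ} {g v : ℤ × ℤ} (hf : f ∈ Mv.sqF r g) (hv : IsCor f v) :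
    {y | IsCor y v} ⊆ Mv.sqF (r + 1) g := by
  intro y hy
  obtain ⟨h1, h2⟩ := near_cor hy hv
  unfold Mv.sqF at hf ⊢
  rw [Set.mem_ofPred_eq] at hf ⊢
  rw [abs_le] at h1 h2
  rw [abs_le, abs_le] at hf
  rw [abs_le, abs_le]
  omega

/-- One step around a corner from a near face: `k` is in `E` if `f` is, and not in `C`. -/
theorem one {v : ℤ × ℤ} (hf : Nr P A B a b f) (hv : IsCor f v)
    (hfk : ChI (P ∩ {y | IsCor y v}) f k) : k ∉ C ∧ (f ∈ E → k ∈ E) := by
  rcases hf with hf | hf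
  · have hfa : f ∈ P ∩ Mv.sqF a (ahead A) :=
      ChI.mem ⟨h.EP h.AE, sq_self h.a0 _⟩ hf
    have m1 : P ∩ Mv.sqF a (ahead A) ⊆ P ∩ Mv.sqF (a + 1) (ahead A) :=
      fun y hy => ⟨hy.1, Mv.sqF_le_of (by omega) hy.2⟩
    have m2 : P ∩ {y | IsCor y v} ⊆ P ∩ Mv.sqF (a + 1) (ahead A) :=
      fun y hy => ⟨hy.1, cor_near hfa.2 hv hy.2⟩
    have h1 : ChI (P ∩ Mv.sqF (a + 1) (ahead A)) (ahead A) k :=
      (ChI.mono m1 hf).trans (ChI.mono m2 hfk)
    have h2 := h.nearA h1
    exact ⟨fun hk => h.CE k hk h2, fun _ => h2⟩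
  · have hfb : f ∈ P ∩ Mv.sqF b (ahead B) :=
      ChI.mem ⟨h.YP h.BY, sq_self h.b0 _⟩ hf
    have m1 : P ∩ Mv.sqF b (ahead B) ⊆ P ∩ Mv.sqF (b + 1) (ahead B) :=
      fun y hy => ⟨hy.1, Mv.sqF_le_of (by omega) hy.2⟩
    have m2 : P ∩ {y | IsCor y v} ⊆ P ∩ Mv.sqF (b + 1) (ahead B) :=
      fun y hy => ⟨hy.1, cor_near hfb.2 hv hy.2⟩
    have h3 : ChI (P ∩ Mv.sqF (b + 1) (ahead B)) f k := ChI.mono m2 hfk
    have h1 : ChI (P ∩ Mv.sqF (b + 1) (ahead B)) (ahead B) k := (ChI.mono m1 hf).trans h3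
    refine ⟨h.nearB h1, fun hE => ?_⟩
    exact h.nearE (S := P ∩ Mv.sqF (b + 1) (ahead B)) (g := ahead B)
      (fun y hy => ⟨hy.1, h.cB y hy.2⟩) hE ⟨hfb.1, Mv.sqF_le_of (by omega) hfb.2⟩ h3

/-- The next inner face. -/
theorem up (hn : Nr P A B a b (inF P A i)) :
    inF P A (i + 1) ∉ C ∧ (inF P A i ∈ E → inF P A (i + 1) ∈ E) := by
  have e : side P A (i + 1) = sc P (side P A i) := Function.iterate_succ_apply' _ _ _
  have h1 := chI_sc (bd_side h.cyc.bd i)
  have h2 : IsCor (inF P A i) (rg (side P A i)) := isCor_in_rg _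
  refine h.one hn h2 ?_
  unfold inF
  rw [e]
  exact h1

/-- The previous inner face. -/
theorem down (hn : Nr P A B a b (inF P A (i + 1))) :
    inF P A i ∉ C ∧ (inF P A (i + 1) ∈ E → inF P A i ∈ E) := by
  have e : side P A (i + 1) = sc P (side P A i) := Function.iterate_succ_apply' _ _ _
  have h1 := chI_sc (bd_side h.cyc.bd i)
  have h2 : IsCor (inF P A (i + 1)) (rg (side P A i)) := by
    have h3 : IsCor (inF P A (i + 1)) (vert P A (i + 1)) := isCor_in_lf _
    rwa [vert_succ] at h3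
  have h0 : inF P A i ∈ P ∩ {y | IsCor y (rg (side P A i))} :=
    ⟨(bd_side h.cyc.bd i).1, isCor_in_rg _⟩
  refine h.one hn h2 ?_
  unfold inF
  rw [e]
  exact ChI.symm h0 h1

theorem inF_zero : inF P A 0 ∈ E := h.AE

theorem inF_mP : inF P A mP ∈ E := by
  have e : inF P A mP = ahead A := by
    unfold inF
    rw [h.cyc.per]
  rw [e]
  exact h.AE

theorem inF_t : inF P A t = ahead B := by
  unfold inF
  rw [h.lab.1]

theorem t_lt : t < mP := h.lab.2.1

/-- Up from the tip. -/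
theorem upE (hi : ∀ k < i, Nr P A B a b (inF P A k)) : inF P A i ∈ E := by
  induction i with
  | zero => exact h.inF_zero
  | succ i ih =>
    exact (h.up (hi i (Nat.lt_succ_self i))).2 (ih fun k hk => hi k (hk.trans (Nat.lt_succ_self i)))

/-- Down to the tip. -/
theorem downE (him : i ≤ mP) (hi : ∀ k, i < k → k ≤ mP → Nr P A B a b (inF P A k)) :
    inF P A i ∈ E := by
  obtain ⟨n, rfl⟩ : ∃ n, i + n = mP := ⟨mP - i, by omega⟩
  clear him
  induction n generalizing i with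
  | zero => exact h.inF_mP
  | succ n ih =>
    have e : i + 1 + n = i + (n + 1) := by omega
    have h1 : inF P A (i + 1) ∈ E := by
      refine ih (i := i + 1) (h := ?_) ?_
      · rw [e]
        exact h
      · intro k hk hk'
        exact hi k (by omega) (by omega)
    exact (h.down (hi (i + 1) (by omega) (by omega))).2 h1

/-- A side with its face in `C` is not near. -/
theorem not_near (hiC : inF P A i ∈ C) : ¬ Nr P A B a b (inF P A i) := by
  rintro (h1 | h1)
  · have m1 : P ∩ Mv.sqF a (ahead A) ⊆ P ∩ Mv.sqF (a + 1) (ahead A) :=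
      fun y hy => ⟨hy.1, Mv.sqF_le_of (by omega) hy.2⟩
    exact h.CE _ hiC (h.nearA (ChI.mono m1 h1))
  · have m1 : P ∩ Mv.sqF b (ahead B) ⊆ P ∩ Mv.sqF (b + 1) (ahead B) :=
      fun y hy => ⟨hy.1, Mv.sqF_le_of (by omega) hy.2⟩
    exact h.nearB (ChI.mono m1 h1) hiC

/-- The label of a side which is not near. -/
theorem lbl' (hi : i < mP) (hn : ¬ Nr P A B a b (inF P A i)) :
    (i < t ∧ ∃ w < x, LinkK U κ (side P A i) (side U τ w)) ∨
    (t < i ∧ ∃ w, x ≤ w ∧ w < mU ∧ LinkK U κ (side P A i) (side U τ w)) := by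
  rcases h.lab.2.2 i hi with h1 | h1 | h1
  · exact absurd (Or.inl h1) hn
  · exact absurd (Or.inr h1) hn
  · exact h1

/-- The label of a side of `C`. -/
theorem lbl (hi : i < mP) (hiC : inF P A i ∈ C) :
    (i < t ∧ ∃ w < x, LinkK U κ (side P A i) (side U τ w)) ∨
    (t < i ∧ ∃ w, x ≤ w ∧ w < mU ∧ LinkK U κ (side P A i) (side U τ w)) :=
  h.lbl' hi (h.not_near hiC)

/-- **The walk on the contour from the tip to a side of `C`**: the first side which is not near. -/
theorem walk (hi : i < mP) (hiC : inF P A i ∈ C) :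
    ∃ j < mP, inF P A j ∈ E ∧
      ((i < t ∧ ∃ w < x, LinkK U κ (side P A j) (side U τ w)) ∨
       (t < i ∧ ∃ w, x ≤ w ∧ w < mU ∧ LinkK U κ (side P A j) (side U τ w))) := by
  classical
  have hn := h.not_near hiC
  rcases h.lbl hi hiC with ⟨h1, -⟩ | ⟨h1, -⟩
  · -- the first one
    have hex : ∃ j, ¬ Nr P A B a b (inF P A j) := ⟨i, hn⟩
    have h2 := Nat.find_spec hex
    have h3 : Nat.find hex ≤ i := Nat.find_min' hex hn
    have h4 : ∀ k < Nat.find hex, Nr P A B a b (inF P A k) := fun k hk =>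
      not_not.1 (Nat.find_min hex hk)
    refine ⟨Nat.find hex, by omega, h.upE h4, ?_⟩
    rcases h.lbl' (by omega) h2 with ⟨-, h5⟩ | ⟨h5, -⟩
    · exact Or.inl ⟨h1, h5⟩
    · omega
  · -- the last one
    have hex : ∃ n, n < mP ∧ ¬ Nr P A B a b (inF P A (mP - 1 - n)) :=
      ⟨mP - 1 - i, by omega, by rwa [show mP - 1 - (mP - 1 - i) = i by omega]⟩
    have h2 := Nat.find_spec hex
    have h3 : Nat.find hex ≤ mP - 1 - i := Nat.find_min' hex
      ⟨by omega, by rwa [show mP - 1 - (mP - 1 - i) = i by omega]⟩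
    have hz : Nr P A B a b (inF P A mP) := by
      have e : inF P A mP = ahead A := by
        unfold inF
        rw [h.cyc.per]
      rw [e]
      exact Or.inl (ChI.refl _)
    have h4 : ∀ k, mP - 1 - Nat.find hex < k → k ≤ mP → Nr P A B a b (inF P A k) := by
      intro k hk hk'
      rcases hk'.lt_or_eq with h5 | rfl
      · by_contra h6
        have h7 := Nat.find_min hex (m := mP - 1 - k) (by omega)
        exact h7 ⟨by omega, by rwa [show mP - 1 - (mP - 1 - k) = k by omega]⟩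
      · exact hz
    refine ⟨mP - 1 - Nat.find hex, by omega, h.downE (by omega) h4, ?_⟩
    rcases h.lbl' (i := mP - 1 - Nat.find hex) (by omega) h2.2 with ⟨h5, -⟩ | ⟨-, h5⟩
    · omega
    · exact Or.inr ⟨h1, h5⟩

/-- **All sides of `C` are on the same arc.** -/
theorem kind {j : ℕ} (hi : i < mP) (hiC : inF P A i ∈ C) (hj : j < mP) (hjC : inF P A j ∈ C) :
    i < t ↔ j < t := by
  have hF : P.Finite := h.fin.subset h.app.sub
  have hpot : HasPot P := h.escP.hasPot' hF
  have h0 : inF P A 0 ∈ Y := h.EY h.AE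
  have ht : inF P A t ∈ Y := by
    rw [h.inF_t]
    exact h.BY
  have key : ∀ i j : ℕ, i < mP → inF P A i ∈ C → j < mP → inF P A j ∈ C → i < t → t ≤ j → False := by
    intro i j hi hiC hj hjC h1 h2
    have e1 : 0 < i := by
      rcases Nat.eq_zero_or_pos i with rfl | h3
      · exact absurd h0 (h.CY _ hiC)
      · exact h3
    have e2 : t < j := by
      rcases h2.lt_or_eq with h3 | rfl
      · exact h3
      · exact absurd ht (h.CY _ hjC)
    exact Cnt.face_nc hpot h.YP h.ecY h.CP h.ecC (fun f hf hf' => h.CY f hf' hf) h.cyc.bd h.perP e1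
      h1 e2 hj h0 ht hiC hjC
  constructor
  · intro h1
    by_contra h2
    exact key i j hi hiC hj hjC h1 (by omega)
  · intro h1
    by_contra h2
    exact key j i hj hjC hi hiC h1 (by omega)

end Vd

end Pool.Agent.SixB.Anc
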