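import Pool.Agent.Lib.SixB.S8AncV
import Pool.Agent.Lib.SixB.S8AncC
import Pool.Agent.Lib.SixB.S8InvN

/-!
# Step 8: the lost components of a void move, the anchors

* `link_anc`: the anchor of a side with a link to a side of the true domain;
* `Vd.anc`: the anchor of every side of the component `C`, the colour `0` if a side of `C` is before the
  target, the colour `1` if a side of `C` is behind the target.
-/

set_option autoImplicit false

namespace Pool.Agent.SixB.Anc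

open Finset Pool.Agent.Perc Pool.Agent.PercT Pool.Agent.Perc6 Pool.Agent.Perc6.C2Aux
open Pool.Agent.SixB Pool.Agent.SixB.NearCut Pool.Agent.SixB.Mv Pool.Agent.SixB.Top
open Pool.Agent.SixB.SideV Pool.Agent.SixB.CloK Pool.Agent.SixB.Blow
open Pool.Agent.Perc.Tips

section Anchors

variable {ι ι' : Type*} {E : Ex} {ω : Cfg} {U P Z C Y : Set (ℤ × ℤ)} {κ : ℤ × ℤ → ι}
  {c : ℤ × ℤ → ι'} {s m x w : ℕ} {lam d a b : ℤ} {A τ B : UE × Bool} {mP t i : ℕ}

/-- **The anchor of a side with a link.** -/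
theorem link_anc (T : TSt (E.cf ω) Set.univ U τ m x)
    (hper : ∃ N, 0 < N ∧ pth (E.cf ω) τ.1 N = τ.1) (hW : E.Wll ω) (hb : fb (E.e ω) ∉ E.U ω)
    (hUF : U ⊆ E.Fr ω s) (hout : ∀ i, outF U τ i ∉ E.Fr ω s) (tip : E.p ω s = τ.1)
    (happ : App U P κ d) (hB : ahead B ∈ U) (hw : w < m) (hl : LinkK U κ B (side U τ w))
    (hs : SeeC x w lam) :
    ∃ y, E.Sid lam ω s y ∧ Pth {a | InB (lf B) d a ∧ ∀ l ≤ s, E.p ω l ≠ a} (lf B) y := by
  have hd := happ.d_pos
  rcases hl with rfl | ⟨h1, h2⟩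
  · obtain ⟨y, h3, h4⟩ := sid_side T hper hW hUF hout tip hw hs
    exact side_anc hb (hUF hB) (by omega) h4 h3
  · exact cap_side T hper hW hb hUF hout tip le_rfl hUF happ h1 hw h2 hs le_rfl

/-- The box around a corner of a face of a small set contains the sides of its faces. -/
theorem side_box {R : ℤ} (hR : ∀ f ∈ Z, ∀ g ∈ Z, |f.1 - g.1| < R ∧ |f.2 - g.2| < R) {g k v : ℤ × ℤ}
    {e : UE} (hg : g ∈ Z) (hv : IsCor g v) (hk : k ∈ Z) (he : IsSide k e) : InB v R e := by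
  obtain ⟨h1, h2⟩ := hR k hk g hg
  have h4 : IsCor k (ua e) := by
    rcases he with rfl | rfl | rfl | rfl <;> simp [IsCor, bo, le', to', ri, ua]
  rw [abs_lt] at h1 h2
  unfold IsCor at h4 hv
  unfold InB InR
  omega

/-- Two corners of faces of a small set. -/
theorem cor_box {R : ℤ} (hR : ∀ f ∈ Z, ∀ g ∈ Z, |f.1 - g.1| < R ∧ |f.2 - g.2| < R) {g k v v' : ℤ × ℤ}
    (hg : g ∈ Z) (hv : IsCor g v) (hk : k ∈ Z) (hv' : IsCor k v') :
    |v'.1 - v.1| ≤ R ∧ |v'.2 - v.2| ≤ R := by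
  obtain ⟨h1, h2⟩ := hR k hk g hg
  rw [abs_lt] at h1 h2
  unfold IsCor at hv' hv
  rw [abs_le, abs_le]
  omega

/-- **The anchors of the sides of a lost component of a void move.** -/
theorem Vd.anc (h : Vd U P Z C Y κ c A τ B d a b mP m x t) (T : TSt (E.cf ω) Set.univ U τ m x)
    (hper : ∃ N, 0 < N ∧ pth (E.cf ω) τ.1 N = τ.1) (hW : E.Wll ω) (hb : fb (E.e ω) ∉ E.U ω)
    (hUF : U ⊆ E.Fr ω s) (hout : ∀ i, outF U τ i ∉ E.Fr ω s) (tip : E.p ω s = τ.1)
    (hZ : Top.EConn Z) {R : ℤ}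
    (hR : ∀ f ∈ Z, ∀ g ∈ Z, |f.1 - g.1| < R ∧ |f.2 - g.2| < R)
    (hi : i < mP) (hiC : inF P A i ∈ C) (hlam : (lam = 0 ∧ i < t) ∨ (lam = 1 ∧ t < i))
    {B₁ : UE × Bool} (hB₁ : BD C B₁) :
    ∃ y, E.Sid lam ω s y ∧
      Pth {a | InB (lf B₁) (R + d) a ∧ ∀ l ≤ s, E.p ω l ≠ a} (lf B₁) y := by
  have hd := h.app.d_pos
  have hR0 : 0 < R := by
    have h1 := (hR _ h.AE _ h.AE).1
    rw [abs_lt] at h1
    omega
  -- the colour of a label
  have see : ∀ {j : ℕ}, ((i < t ∧ ∃ w < x, LinkK U κ (side P A j) (side U τ w)) ∨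
      (t < i ∧ ∃ w, x ≤ w ∧ w < m ∧ LinkK U κ (side P A j) (side U τ w))) →
      ∃ w < m, LinkK U κ (side P A j) (side U τ w) ∧ SeeC x w lam := by
    intro j hj
    have hxm := h.xm
    rcases hj with ⟨h1, w, hw, hl⟩ | ⟨h1, w, hw, hw', hl⟩
    · refine ⟨w, by omega, hl, Or.inl ⟨?_, hw.le⟩⟩
      rcases hlam with h2 | h2
      · exact h2.1
      · omega
    · refine ⟨w, hw', hl, Or.inr ⟨?_, Or.inl hw⟩⟩
      rcases hlam with h2 | h2
      · omega
      · exact h2.1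
  by_cases hg : ahead (rv B₁) ∈ P
  · -- a side at the entered set
    have hgZ : ahead (rv B₁) ∈ Z := by
      by_contra hn
      exact hB₁.2 (h.cl _ hB₁.1 _ hg hn (adjF_ahead B₁).symm)
    obtain ⟨j, hj, hjZ, hl⟩ := h.walk hi hiC
    obtain ⟨w, hw, hl', hs⟩ := see hl
    obtain ⟨y, h1, h2⟩ := link_anc T hper hW hb hUF hout tip h.app
      (h.app.sub (bd_side h.cyc.bd j).1) hw hl' hs
    refine ⟨y, h1, ?_⟩
    have hZF : Z ⊆ E.Fr ω s := fun f hf => hUF (h.app.sub (h.EP hf))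
    have c1 : IsCor (ahead (rv B₁)) (lf B₁) := isCor_out_lf B₁
    have c2 : IsCor (inF P A j) (lf (side P A j)) := isCor_in_lf _
    have h3 := fre_pth hb hZF (chI_pth (hZ _ hgZ _ hjZ) hgZ c1 c2)
    have h4 : Pth {a | InB (lf B₁) (R + d) a ∧ ∀ l ≤ s, E.p ω l ≠ a} (lf B₁)
        (lf (side P A j)) := by
      refine h3.mono ?_
      rintro e ⟨⟨k, hk, h5⟩, h6⟩
      have h7 := side_box hR hgZ c1 hk h5
      refine ⟨?_, h6⟩
      unfold InB InR at h7 ⊢
      omega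
    have c3 := cor_box hR hgZ c1 hjZ c2
    have h5 : Pth {a | InB (lf B₁) (R + d) a ∧ ∀ l ≤ s, E.p ω l ≠ a}
        (lf (side P A j)) y := by
      refine h2.mono ?_
      rintro e ⟨h6, h7⟩
      refine ⟨?_, h7⟩
      rw [abs_le, abs_le] at c3
      unfold InB InR at h6 ⊢
      omega
    exact h4.trans h5
  · -- a side of the coarse domain
    have hbd : BD P B₁ := ⟨h.CP hB₁.1, hg⟩
    obtain ⟨j, hj, rfl⟩ := h.cyc.exists_index hbd
    have hk := h.kind hi hiC hj hB₁.1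
    have hl : ((i < t ∧ ∃ w < x, LinkK U κ (side P A j) (side U τ w)) ∨
        (t < i ∧ ∃ w, x ≤ w ∧ w < m ∧ LinkK U κ (side P A j) (side U τ w))) := by
      have hi' := h.lbl hi hiC
      rcases h.lbl hj hB₁.1 with ⟨h1, h2⟩ | ⟨h1, h2⟩
      · exact Or.inl ⟨hk.2 h1, h2⟩
      · rcases hi' with ⟨h3, -⟩ | ⟨h3, -⟩
        · exact absurd (hk.1 h3) (by omega)
        · exact Or.inr ⟨h3, h2⟩
    obtain ⟨w, hw, hl', hs⟩ := see hl
    obtain ⟨y, h1, h2⟩ := link_anc T hper hW hb hUF hout tip h.app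
      (h.app.sub (bd_side h.cyc.bd j).1) hw hl' hs
    refine ⟨y, h1, h2.mono ?_⟩
    rintro e ⟨h6, h7⟩
    refine ⟨?_, h7⟩
    unfold InB InR at h6 ⊢
    omega

end Anchors

section Inst

variable {s : Dom} {g : Grd} {u : ℕ} {ρ : Rec} {z : ℤ × ℤ}

/-- Two connected sets with adjacent faces. -/
private theorem econn_un {S T : Set (ℤ × ℤ)} (hS : Top.EConn S) (hT : Top.EConn T) {a b : ℤ × ℤ}
    (ha : a ∈ S) (hb : b ∈ T) (hab : AdjF a b) : Top.EConn (S ∪ T) := by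
  have hS' : ∀ f ∈ S, ∀ g ∈ S, ChI (S ∪ T) f g := fun f hf g hg =>
    ChI.mono Set.subset_union_left (hS f hf g hg)
  have hT' : ∀ f ∈ T, ∀ g ∈ T, ChI (S ∪ T) f g := fun f hf g hg =>
    ChI.mono Set.subset_union_right (hT f hf g hg)
  have hab' : ChI (S ∪ T) a b := ChI.single hab (Or.inr hb)
  have hba' : ChI (S ∪ T) b a := ChI.symm (Or.inl ha) hab'
  rintro f (hf | hf) g (hg | hg)
  · exact hS' f hf g hg
  · exact ((hS' f hf a ha).trans hab').trans (hT' b hb g hg)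
  · exact ((hT' f hf b hb).trans hba').trans (hS' a ha g hg)
  · exact hT' f hf g hg

/-- The entered set with the component of the target. -/
noncomputable def entY (s : Dom) (g : Grd) (ρ : Rec) : Set (ℤ × ℤ) :=
  s.ent g ρ ∪ {f | ¬ s.End g ρ ∧ f ∈ s.nxP g ρ}

theorem econn_entY (h : s.Val g) (hρ : s.RecOk g ρ) : Top.EConn (entY s g ρ) := by
  by_cases hE : s.End g ρ
  · have e : entY s g ρ = s.ent g ρ := by
      unfold entY
      ext f
      constructor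
      · rintro (h1 | h1)
        · exact h1
        · exact absurd hE h1.1
      · exact fun h1 => Or.inl h1
    rw [e]
    exact h.econn_ent hρ
  · have e : entY s g ρ = s.ent g ρ ∪ s.nxP g ρ := by
      unfold entY
      ext f
      constructor
      · rintro (h1 | h1)
        · exact Or.inl h1
        · exact Or.inr h1.2
      · rintro (h1 | h1)
        · exact Or.inl h1
        · exact Or.inr ⟨hE, h1⟩
    obtain ⟨h1, h2⟩ := h.nxA_spec hρ hE
    rw [e]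
    refine econn_un (h.econn_ent hρ) (econn_compT (h.tgt_rem hE)) h2 h1.1 ?_
    exact adjF_ahead _

theorem entY_sub (h : s.Val g) (hρ : s.RecOk g ρ) : entY s g ρ ⊆ s.P := by
  rintro f (h1 | h1)
  · exact h.ent_sub_P hρ h1
  · exact (compT_sub (h.tgt_rem h1.1) h1.2).1

/-- **The geometry of a void move.** -/
theorem vd_of {U : Set (ℤ × ℤ)} {κ : ℤ × ℤ → ℤ × ℤ} {τ : UE × Bool} {mU x t : ℕ} {a b r : ℤ}
    {ζ : Cfg} (h : s.Val g) (hu : 0 < u) (hv : s.Void g)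
    (T : TSt ζ Set.univ U τ mU x) (app : App U (blow u s.P) κ r)
    (W : WkLab U (blow u s.P) κ (subE u s.A 0) τ (subE u s.B 0) a b (u * cyl s.P s.A) mU x t)
    (a0 : 0 ≤ a) (b0 : 0 ≤ b)
    (hcA : ∀ f ∈ Mv.sqF (a + 1) (ahead (subE u s.A 0)), gc (u * g.a) (u * g.b) (u * g.L) f =
      gc (u * g.a) (u * g.b) (u * g.L) (ahead (subE u s.A 0)))
    (hcB : ∀ f ∈ Mv.sqF (b + 1) (ahead (subE u s.B 0)), gc (u * g.a) (u * g.b) (u * g.L) f =
      gc (u * g.a) (u * g.b) (u * g.L) (ahead (subE u s.B 0)))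
    (hz : z ∈ s.P \ s.rem g ρ) (hB : ahead s.B ∉ compT (s.P \ s.rem g ρ) z) :
    Vd U (blow u s.P) (blow u (s.ent g ρ)) (blow u (compT (s.P \ s.rem g ρ) z))
      (blow u (entY s g ρ)) κ (gc (u * g.a) (u * g.b) (u * g.L)) (subE u s.A 0) τ (subE u s.B 0)
      r a b (u * cyl s.P s.A) mU x t := by
  have hu' : (0 : ℤ) < u := by exact_mod_cast hu
  have hρ : s.RecOk g ρ := fun hn => absurd hv hn
  have hrem : s.rem g ρ = s.ent g ρ := Dom.rem_void s g hv
  have hCs : compT (s.P \ s.rem g ρ) z ⊆ s.P \ s.rem g ρ := compT_sub hz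
  have hsat : ∀ f ∈ blow u (s.ent g ρ), ∀ k ∈ blow u s.P, AdjF f k →
      gc (u * g.a) (u * g.b) (u * g.L) f = gc (u * g.a) (u * g.b) (u * g.L) k →
      k ∈ blow u (s.ent g ρ) := by
    intro f hf k hk ha hc
    have h1 : k ∈ blow u (s.dom g) := dcell_f hu h.dcell f (h.ent_sub_dom hρ hf) k hk ha hc
    exact sat_f' hu (h.sat_ent hρ) f hf k h1 ha hc
  refine
    { fin := T.fin, ecU := T.ec, esc := T.esc, app := app, ecP := econn_blow hu' h.con,
      escP := Esc.blow hu' h.esc, cyc := cyc_blow hu h.fin h.con h.esc h.cycP, cyU := T.cyc,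
      lab := W, x0 := T.pos, xm := T.lt, a0 := a0, b0 := b0, cA := hcA, cB := hcB,
      EP := fun f hf => h.ent_sub_P hρ hf, AE := ?_, sat := hsat, CP := fun f hf => (hCs hf).1,
      CE := fun f hf hf' => ?_, cl := ?_, ecC := econn_blow hu' (econn_compT hz),
      YP := fun f hf => entY_sub h hρ hf, ecY := econn_blow hu' (econn_entY h hρ),
      EY := fun f hf => Or.inl hf, BY := ?_, CY := ?_ }
  · rw [mem_blow, cl_ahead_zero hu]
    exact Dom.ahead_mem_ent hv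
  · have h1 := (hCs hf).2
    rw [hrem] at h1
    exact h1 hf'
  · intro f hf k hk hkE ha
    have hk' : Blow.cl u k ∈ s.P \ s.rem g ρ := by
      rw [hrem]
      exact ⟨hk, hkE⟩
    rcases adj_cl hu' ha with h4 | h4
    · rw [mem_blow, ← h4]
      exact hf
    · exact compT_step hf h4 hk'
  · rw [mem_blow, cl_ahead_zero hu]
    by_cases hE : s.End g ρ
    · exact Or.inl hE
    · exact Or.inr ⟨hE, self_mem_compT⟩
  · rintro f hf (hf' | hf')
    · have h1 := (hCs hf).2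
      rw [hrem] at h1
      exact h1 hf'
    · have h1 := compT_eq (h.tgt_rem hf'.1) hf'.2
      have h2 := compT_eq hz hf
      refine hB ?_
      rw [← h2, h1]
      exact self_mem_compT

/-- The index of a coarse side in the magnified contour, the label of the even wall. -/
theorem old_idx {U : Set (ℤ × ℤ)} {κ : ℤ × ℤ → ℤ × ℤ} {τ y : UE × Bool} {mU x t : ℕ} {a b : ℤ}
    (h : s.Val g) (hu : 0 < u)
    (W : WkLab U (blow u s.P) κ (subE u s.A 0) τ (subE u s.B 0) a b (u * cyl s.P s.A) mU x t)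
    (hy : BD s.P y) (hAy : y ≠ s.A) :
    ∃ i < u * cyl s.P s.A, side (blow u s.P) (subE u s.A 0) i = subE u y 0 ∧ (s.old y ↔ i < t) := by
  have hcy := h.cycP
  have hcb := cyc_blow hu h.fin h.con h.esc hcy
  obtain ⟨iy, hiy, hys, hsy⟩ := h.anc_num hu hy
  obtain ⟨iB, hiB, hBs, hsB⟩ := h.anc_num hu h.bdB
  have hlt : u * iy < u * cyl s.P s.A := Nat.mul_lt_mul_of_pos_left hiy hu
  have hltB : u * iB < u * cyl s.P s.A := Nat.mul_lt_mul_of_pos_left hiB hu
  have etB : t = u * iB := hcb.inj _ W.2.1 _ hltB (W.1.trans hsB.symm)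
  have hpos : 0 < iy := by
    rcases Nat.eq_zero_or_pos iy with rfl | h7
    · exact absurd hys.symm hAy
    · exact h7
  refine ⟨u * iy, hlt, hsy, ?_⟩
  rw [etB]
  constructor
  · rintro ⟨i, j, a1, a2, a3, a4, a5⟩
    have e1 : i = iy := hcy.inj _ (by omega) _ hiy (a4.trans hys.symm)
    have e2 : j = iB := hcy.inj _ a3 _ hiB (a5.trans hBs.symm)
    subst e1 e2
    exact Nat.mul_lt_mul_of_pos_left a2 hu
  · intro a2
    exact ⟨iy, iB, hpos, lt_of_mul_lt_mul_left a2 (Nat.zero_le _), hiB, hys, hBs⟩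

/-- **The anchors of the sides of a lost component of a void move.** `y`: a side of the coarse domain at
the component; `lam`: its colour. -/
theorem _root_.Pool.Agent.SixB.Mv.Dom.Val.anc_void {E : Ex} {ω : Cfg} {U : Set (ℤ × ℤ)}
    {κ : ℤ × ℤ → ℤ × ℤ} {τ y B₁ : UE × Bool} {mU x t t₀ : ℕ} {a b r lam : ℤ}
    (h : s.Val g) (hu : 0 < u) (hv : s.Void g)
    (T : TSt (E.cf ω) Set.univ U τ mU x) (app : App U (blow u s.P) κ r)
    (W : WkLab U (blow u s.P) κ (subE u s.A 0) τ (subE u s.B 0) a b (u * cyl s.P s.A) mU x t)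
    (a0 : 0 ≤ a) (b0 : 0 ≤ b)
    (hcA : ∀ f ∈ Mv.sqF (a + 1) (ahead (subE u s.A 0)), gc (u * g.a) (u * g.b) (u * g.L) f =
      gc (u * g.a) (u * g.b) (u * g.L) (ahead (subE u s.A 0)))
    (hcB : ∀ f ∈ Mv.sqF (b + 1) (ahead (subE u s.B 0)), gc (u * g.a) (u * g.b) (u * g.L) f =
      gc (u * g.a) (u * g.b) (u * g.L) (ahead (subE u s.B 0)))
    (tip : E.p ω t₀ = τ.1) (hper : ∃ N, 0 < N ∧ pth (E.cf ω) τ.1 N = τ.1) (hW : E.Wll ω)
    (hb : fb (E.e ω) ∉ E.U ω) (hUF : U ⊆ E.Fr ω t₀) (hout : ∀ i, outF U τ i ∉ E.Fr ω t₀)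
    (hz : z ∈ s.P \ s.rem g ρ) (hB : ahead s.B ∉ compT (s.P \ s.rem g ρ) z)
    (hy : BD s.P y) (hyC : ahead y ∈ compT (s.P \ s.rem g ρ) z)
    (hlam : (lam = 0 ∧ s.old y) ∨ (lam = 1 ∧ ¬ s.old y))
    (hB₁ : BD (blow u (compT (s.P \ s.rem g ρ) z)) B₁) :
    ∃ v, E.Sid lam ω t₀ v ∧ Pth {a | InB (lf B₁) (r + 2 * (u * g.L)) a ∧ ∀ l ≤ t₀, E.p ω l ≠ a}
      (lf B₁) v := by
  have hu' : (0 : ℤ) < u := by exact_mod_cast hu
  have hρ : s.RecOk g ρ := fun hn => absurd hv hn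
  have V := vd_of (ρ := ρ) h hu hv T app W a0 b0 hcA hcB hz hB
  have hAy : y ≠ s.A := by
    rintro rfl
    have h1 := (compT_sub hz hyC).2
    rw [Dom.rem_void s g hv] at h1
    exact h1 (Dom.ahead_mem_ent hv)
  obtain ⟨i, hi, his, hold⟩ := old_idx h hu W hy hAy
  have hiC : inF (blow u s.P) (subE u s.A 0) i ∈ blow u (compT (s.P \ s.rem g ρ) z) := by
    unfold inF
    rw [his, mem_blow, cl_ahead_zero hu]
    exact hyC
  have hlam' : (lam = 0 ∧ i < t) ∨ (lam = 1 ∧ t < i) := by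
    rcases hlam with ⟨h1, h2⟩ | ⟨h1, h2⟩
    · exact Or.inl ⟨h1, hold.1 h2⟩
    · refine Or.inr ⟨h1, ?_⟩
      rcases V.lbl hi hiC with ⟨h3, -⟩ | ⟨h3, -⟩
      · exact absurd (hold.2 h3) h2
      · exact h3
  have hd : InvN.Dia (blow u (s.ent g ρ)) (u * (2 * g.L)) := (InvN.ent_dia h hρ).blow hu'
  obtain ⟨v, h1, h2⟩ := V.anc T hper hW hb hUF hout tip (econn_blow hu' (h.econn_ent hρ)) hd hi hiC
    hlam' hB₁
  refine ⟨v, h1, ?_⟩
  rwa [show u * (2 * g.L) + r = r + 2 * (u * g.L) by ring] at h2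

end Inst

end Pool.Agent.SixB.Anc
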