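import Pool.Agent.Lib.SixB.S8ChainA
import Pool.Agent.Lib.SixB.S8ChainR

/-!
# Step 8: the start of a needle on the true chain

* `PlcS`: the needle `q` is placed in the stage `i` of the chain (`V`, `x`: remaining vertices and history
  before the stage, `D` the first domain);
* `EntS`: the next stage, in which the strand runs to its first face in the component of the target;
* `plc_of`, `ent_of`, `start_of`: these are the stages after which `ini` is true, and the stages after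
  them;
* `run_cases`, `run_ind`: a stage after which a needle is running with `ini = false` is an entrance stage
  or a move after such a stage.
-/

set_option autoImplicit false

namespace Pool.Agent.SixB.Tru

open Finset Pool.Agent.Perc Pool.Agent.PercT Pool.Agent.PercX60
open Pool.Agent.SixB Pool.Agent.SixB.Rule Pool.Agent.SixB.Dct Pool.Agent.SixB.Mv
open Pool.Agent.SixB.Top (compT)
open Pool.Agent.SixB.TruR (ts)

/-! ### The coarse state after the placing stage -/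

section Coarse

variable {π : Prm} {ρ : Rec} {σ : CSt} {L M : ℤ} {D : Dom}

/-- The coarse rule places a needle. -/
theorem mv_place (h : σ.run = none) (hD : (σ.mv π L M ρ).run = some D) :
    σ.j < π.m ∧ π.zt σ.j ∈ CSt.erW σ.W L (π.zt σ.j) ∧
      π.act (compT (CSt.erW σ.W L (π.zt σ.j)) (π.zt σ.j)) (π.zt σ.j) ∧
      D = CSt.dom₀ π (compT (CSt.erW σ.W L (π.zt σ.j)) (π.zt σ.j)) (π.zt σ.j) ∧ D.Ok ∧
      σ.mv π L M ρ = ⟨CSt.erW σ.W L (π.zt σ.j) \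
          (π.ndl (compT (CSt.erW σ.W L (π.zt σ.j)) (π.zt σ.j)) (π.zt σ.j) ∪ D.P),
        some D, σ.j + 1, true⟩ := by
  classical
  unfold CSt.mv at hD ⊢
  simp only [h] at hD ⊢
  split_ifs at hD ⊢ with h1
  obtain rfl := Option.some.inj hD
  exact ⟨h1.1, h1.2.1, h1.2.2.1, rfl, h1.2.2.2, rfl⟩

end Coarse

variable (𝔇 : Dat) (d : ℕ → ℕ) (n : ℕ) (ω : Cfg)

/-- The target of the next needle after the history `x`. -/
noncomputable def Dat.tgt (x : List Rec) : ℤ × ℤ := 𝔇.zt (d 0) (𝔇.cs d x).j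

/-- The needle `q` is placed in the stage `i`. -/
structure PlcS (i : ℕ) (V : Finset (ℤ × ℤ)) (x : List Rec) (q : Rule.Ndl) (D : Dom) : Prop where
  /-- the state before the stage -/
  q0 : (ts 𝔇 d n ω i).q = none
  V0 : (ts 𝔇 d n ω i).V = V
  x0 : (ts 𝔇 d n ω i).x = x
  run0 : (𝔇.cs d x).run = none
  len : x.length = i
  /-- the coarse rule -/
  lt : (𝔇.cs d x).j < 𝔇.m
  mem : 𝔇.tgt d x ∈ CSt.erW (𝔇.cs d x).W (msh d i) (𝔇.tgt d x)
  disc : 𝔇.disc d x = compT (CSt.erW (𝔇.cs d x).W (msh d i) (𝔇.tgt d x)) (𝔇.tgt d x)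
  act : 𝔇.act (d 0) (𝔇.disc d x) (𝔇.tgt d x)
  dom : D = CSt.dom₀ (𝔇.prm d) (𝔇.disc d x) (𝔇.tgt d x)
  ok : D.Ok
  /-- the needle -/
  hk : q = 𝔇.hook n d V (𝔇.disc d x) (𝔇.tgt d x)
  ndl : IsNdl (n / 𝔇.K) V q
  ndf : ∃ k, NdF V q.1 k ∧ PercU.vtx k = q.2
  /-- the state after the stage -/
  st : tst 𝔇 d n ω i = ⟨V, some q, 0, (∅, 0) :: x⟩
  co : 𝔇.cs d ((∅, 0) :: x) = ⟨CSt.erW (𝔇.cs d x).W (msh d i) (𝔇.tgt d x) \
    (𝔇.ndl (d 0) (𝔇.disc d x) (𝔇.tgt d x) ∪ D.P), some D, (𝔇.cs d x).j + 1, true⟩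

/-- The stage `i` places a needle and the stage `i + 1` is the entrance of the strand. -/
structure EntS (i : ℕ) (V : Finset (ℤ × ℤ)) (x : List Rec) (q : Rule.Ndl) (D : Dom) : Prop
    extends PlcS 𝔇 d n ω i V x q D where
  /-- the state after the entrance stage -/
  st' : tst 𝔇 d n ω (i + 1) =
    ⟨V, some q, staT n (unt d n) V q D.B ω, (∅, 0) :: (∅, 0) :: x⟩
  co' : 𝔇.cs d ((∅, 0) :: (∅, 0) :: x) =
    ⟨CSt.erW (𝔇.cs d x).W (msh d i) (𝔇.tgt d x) \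
      (𝔇.ndl (d 0) (𝔇.disc d x) (𝔇.tgt d x) ∪ D.P), some D, (𝔇.cs d x).j + 1, false⟩

variable {𝔇 d n ω}

theorem ts_len (i : ℕ) : (ts 𝔇 d n ω i).x.length = i := by
  cases i with
  | zero => rfl
  | succ i => exact tst_len 𝔇 d n ω i

theorem tst_eq_nxS (i : ℕ) : tst 𝔇 d n ω i = nxS 𝔇 d n (ts 𝔇 d n ω i) ω := by
  cases i <;> rfl

/-- The coarse state is running before a stage if a needle is. -/
theorem ts_run_of_q {i : ℕ} {q : Rule.Ndl} (h : (ts 𝔇 d n ω i).q = some q) :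
    ∃ D, (𝔇.cs d (ts 𝔇 d n ω i).x).run = some D := by
  cases i with
  | zero => cases h
  | succ i => exact run_of_q h

/-- After a stage, `ini` says that the coarse state was not running before it. -/
theorem run_none_of_ini {i : ℕ} (h : (𝔇.cs d (tst 𝔇 d n ω i).x).ini = true) :
    (𝔇.cs d (ts 𝔇 d n ω i).x).run = none := by
  obtain ⟨ρ, hρ⟩ := nxS_x 𝔇 d n ω (ts 𝔇 d n ω i)
  rw [tst_eq_nxS, hρ, 𝔇.cs_cons] at h
  cases h1 : (𝔇.cs d (ts 𝔇 d n ω i).x).run with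
  | none => rfl
  | some D => rw [mv_ini_run h1] at h; cases h

/-- **The placing stage.** -/
theorem plc_of {i : ℕ} {q : Rule.Ndl} {D : Dom} (hq : (tst 𝔇 d n ω i).q = some q)
    (hD : (𝔇.cs d (tst 𝔇 d n ω i).x).run = some D)
    (hi : (𝔇.cs d (tst 𝔇 d n ω i).x).ini = true) :
    PlcS 𝔇 d n ω i (ts 𝔇 d n ω i).V (ts 𝔇 d n ω i).x q D := by
  have hr := run_none_of_ini hi
  have hq0 : (ts 𝔇 d n ω i).q = none := by
    cases h : (ts 𝔇 d n ω i).q with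
    | none => rfl
    | some q' =>
      obtain ⟨D', hD'⟩ := ts_run_of_q h
      rw [hr] at hD'; cases hD'
  have he : tst 𝔇 d n ω i = plS 𝔇 d n (ts 𝔇 d n ω i) := by
    rw [tst_eq_nxS, nxS_rest hq0 hr]
  rw [he] at hq
  rw [he, plS_x, 𝔇.cs_cons] at hD
  obtain ⟨g1, g2, g3, g4⟩ := plS_q hq
  obtain ⟨k1, k2, k3, k4, k5, k6⟩ := mv_place hr hD
  have hlen := ts_len (𝔇 := 𝔇) (d := d) (n := n) (ω := ω) i
  rw [hlen] at k6
  rw [hlen] at k2 k3 k4
  refine ⟨hq0, rfl, rfl, hr, hlen, k1, k2, ?_, ?_, ?_, k5, g1, g3, g4, ?_, ?_⟩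
  · unfold Dat.disc Dat.tgt
    rw [hlen]
  · unfold Dat.disc Dat.tgt
    rw [hlen]
    exact k3
  · unfold Dat.disc Dat.tgt
    rw [hlen]
    exact k4
  · rw [he]
    have h1 : (plS 𝔇 d n (ts 𝔇 d n ω i)).q = some q := hq
    have h2 : plS 𝔇 d n (ts 𝔇 d n ω i) = ⟨(ts 𝔇 d n ω i).V, (plS 𝔇 d n (ts 𝔇 d n ω i)).q, 0,
      (∅, 0) :: (ts 𝔇 d n ω i).x⟩ := rfl
    rw [h2, h1]
  · rw [𝔇.cs_cons, hlen, k6]
    unfold Dat.disc Dat.tgt
    rw [hlen]
    rfl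

/-- **The entrance stage.** -/
theorem PlcS.ent {i : ℕ} {V : Finset (ℤ × ℤ)} {x : List Rec} {q : Rule.Ndl} {D : Dom}
    (h : PlcS 𝔇 d n ω i V x q D) : EntS 𝔇 d n ω i V x q D := by
  have hr : (𝔇.cs d ((∅, 0) :: x)).run = some D := by rw [h.co]
  have hi : (𝔇.cs d ((∅, 0) :: x)).ini = true := by rw [h.co]
  have h2 : 𝔇.cs d ((∅, 0) :: (∅, 0) :: x) =
    ⟨CSt.erW (𝔇.cs d x).W (msh d i) (𝔇.tgt d x) \
      (𝔇.ndl (d 0) (𝔇.disc d x) (𝔇.tgt d x) ∪ D.P), some D, (𝔇.cs d x).j + 1, false⟩ := by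
    rw [𝔇.cs_cons, mv_enter hr hi, h.co]
  refine ⟨h, ?_, h2⟩
  rw [tst_succ, h.st, nxS_run_eq (q := q) rfl hr]
  have h3 : mvR 𝔇 d n ⟨V, some q, 0, (∅, 0) :: x⟩ q D (𝔇.cs d ((∅, 0) :: x)).ini ω = (∅, 0) := by
    unfold mvR
    rw [if_pos (Or.inl hi)]
  have h4 : mvT 𝔇 d n ⟨V, some q, 0, (∅, 0) :: x⟩ q D (𝔇.cs d ((∅, 0) :: x)).ini ω =
      staT n (unt d n) V q D.B ω := by
    unfold mvT
    rw [if_pos hi]
  show finS 𝔇 d n ⟨V, some q, 0, (∅, 0) :: x⟩ q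
    (mvT 𝔇 d n ⟨V, some q, 0, (∅, 0) :: x⟩ q D (𝔇.cs d ((∅, 0) :: x)).ini ω)
    (mvR 𝔇 d n ⟨V, some q, 0, (∅, 0) :: x⟩ q D (𝔇.cs d ((∅, 0) :: x)).ini ω :: (∅, 0) :: x) ω = _
  rw [h3, h4, finS_run (D := D) (by rw [h2])]

/-- The stage after a placing stage. -/
theorem ent_of {i : ℕ} {q : Rule.Ndl} {D : Dom} (hq : (tst 𝔇 d n ω i).q = some q)
    (hD : (𝔇.cs d (tst 𝔇 d n ω i).x).run = some D)
    (hi : (𝔇.cs d (tst 𝔇 d n ω i).x).ini = true) :
    EntS 𝔇 d n ω i (ts 𝔇 d n ω i).V (ts 𝔇 d n ω i).x q D := (plc_of hq hD hi).ent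

/-- A needle which is running after a stage with a running needle is the same needle. -/
theorem q_stay {i : ℕ} {q : Rule.Ndl} (hq : (tst 𝔇 d n ω (i + 1)).q = some q)
    (hD : ∃ D, (𝔇.cs d (tst 𝔇 d n ω i).x).run = some D) :
    (tst 𝔇 d n ω i).q = some q ∧ (tst 𝔇 d n ω (i + 1)).V = (tst 𝔇 d n ω i).V := by
  cases h : (tst 𝔇 d n ω i).q with
  | none =>
    obtain ⟨D, hD⟩ := hD
    rw [tst_succ, nxS_skip h hD] at hq
    cases hq
  | some q' =>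
    rcases (tst_run_or h).2 with ⟨h1, h2⟩ | ⟨h1, -⟩
    · obtain rfl := Option.some.inj (h1.symm.trans hq)
      exact ⟨rfl, h2⟩
    · rw [h1] at hq; cases hq

/-- **The first running stage of a needle**, from the stage after it. -/
theorem start_of {i : ℕ} {q : Rule.Ndl} {D : Dom} (hq : (tst 𝔇 d n ω (i + 1)).q = some q)
    (hD : (𝔇.cs d (tst 𝔇 d n ω (i + 1)).x).run = some D)
    (hi : (𝔇.cs d (tst 𝔇 d n ω i).x).ini = true) :
    EntS 𝔇 d n ω i (ts 𝔇 d n ω i).V (ts 𝔇 d n ω i).x q D := by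
  obtain ⟨D', hD'⟩ := Option.isSome_iff_exists.1 (𝔇.cs_ini d hi)
  have h1 := (q_stay hq ⟨D', hD'⟩).1
  have h2 := ent_of h1 hD' hi
  have h3 : D' = D := by
    have h4 := h2.st'
    rw [h4] at hD
    have h5 := h2.co'
    change (𝔇.cs d ((∅, 0) :: (∅, 0) :: (ts 𝔇 d n ω i).x)).run = some D at hD
    rw [h5] at hD
    exact Option.some.inj hD
  rw [← h3]
  exact h2

/-- The move between two running stages of a needle. -/
structure MovS (𝔇 : Dat) (d : ℕ → ℕ) (n : ℕ) (ω : Cfg) (i : ℕ) (x : Rule.Ndl) (D D' : Dom) : Prop where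
  q : (tst 𝔇 d n ω i).q = some x
  run : (𝔇.cs d (tst 𝔇 d n ω i).x).run = some D
  ini : (𝔇.cs d (tst 𝔇 d n ω i).x).ini = false
  ok : D.Ok
  ok' : D'.Ok
  dom : D' = D.nx (𝔇.gr d (tst 𝔇 d n ω i).x D) (recS 𝔇 d n (i + 1) ω)
  nend : ¬ D.End (𝔇.gr d (tst 𝔇 d n ω i).x D) (recS 𝔇 d n (i + 1) ω)
  rc : recS 𝔇 d n (i + 1) ω = mvR 𝔇 d n (tst 𝔇 d n ω i) x D false ω
  st : tst 𝔇 d n ω (i + 1) = ⟨(tst 𝔇 d n ω i).V, some x,
    mvT 𝔇 d n (tst 𝔇 d n ω i) x D false ω, recS 𝔇 d n (i + 1) ω :: (tst 𝔇 d n ω i).x⟩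
  co : 𝔇.cs d (recS 𝔇 d n (i + 1) ω :: (tst 𝔇 d n ω i).x) =
    ⟨(𝔇.cs d (tst 𝔇 d n ω i).x).W ∪
      D.lef (𝔇.gr d (tst 𝔇 d n ω i).x D) (recS 𝔇 d n (i + 1) ω), some D',
      (𝔇.cs d (tst 𝔇 d n ω i).x).j, false⟩

/-- The coarse state after a move which goes on. -/
theorem mv_go {π : Prm} {ρ : Rec} {σ : CSt} {L M : ℤ} {D D' : Dom} (h : σ.run = some D)
    (hi : σ.ini = false) (hD : (σ.mv π L M ρ).run = some D') :
    ¬ D.End (D.grd L M) ρ ∧ D' = D.nx (D.grd L M) ρ ∧ D'.Ok ∧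
      σ.mv π L M ρ = ⟨σ.W ∪ D.lef (D.grd L M) ρ, some D', σ.j, false⟩ := by
  classical
  unfold CSt.mv at hD ⊢
  simp only [h, hi, Bool.false_eq_true, if_false] at hD ⊢
  split_ifs at hD ⊢ with h1
  obtain rfl := Option.some.inj hD
  rw [not_or, not_not] at h1
  exact ⟨h1.1, rfl, h1.2, rfl⟩

/-- **A running stage is an entrance stage or a move.** -/
theorem run_cases {i : ℕ} {q : Rule.Ndl} {D' : Dom} (hq : (tst 𝔇 d n ω i).q = some q)
    (hD : (𝔇.cs d (tst 𝔇 d n ω i).x).run = some D')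
    (hi : (𝔇.cs d (tst 𝔇 d n ω i).x).ini = false) :
    (∃ k V x, i = k + 1 ∧ EntS 𝔇 d n ω k V x q D') ∨
      ∃ k D, i = k + 1 ∧ MovS 𝔇 d n ω k q D D' := by
  cases i with
  | zero =>
    have h1 : (ts 𝔇 d n ω 0).q = none := rfl
    have h2 : (𝔇.cs d (ts 𝔇 d n ω 0).x).run = none := rfl
    rw [tst_eq_nxS, nxS_rest h1 h2, plS_x, 𝔇.cs_cons] at hi hD
    rw [mv_ini_none h2, hD] at hi
    cases hi
  | succ k =>
    -- the coarse state before
    cases h1 : (𝔇.cs d (tst 𝔇 d n ω k).x).run with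
    | none =>
      have h2 : (tst 𝔇 d n ω k).q = none := by
        cases h3 : (tst 𝔇 d n ω k).q with
        | none => rfl
        | some q' =>
          obtain ⟨D'', h4⟩ := run_of_q h3
          rw [h1] at h4; cases h4
      rw [tst_succ, nxS_rest h2 h1, plS_x, 𝔇.cs_cons] at hi hD
      rw [mv_ini_none h1, hD] at hi
      cases hi
    | some D =>
      obtain ⟨h2, h3⟩ := q_stay hq ⟨D, h1⟩
      cases h4 : (𝔇.cs d (tst 𝔇 d n ω k).x).ini with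
      | true => exact Or.inl ⟨k, _, _, rfl, start_of hq hD h4⟩
      | false =>
        right
        refine ⟨k, D, rfl, ?_⟩
        have hrec := recS_run h2 h1
        rw [h4] at hrec
        have hx := tst_x_succ (𝔇 := 𝔇) (d := d) (n := n) ω k
        rw [hx, 𝔇.cs_cons] at hD
        obtain ⟨g1, g2, g3, g4⟩ := mv_go h1 h4 hD
        have hcs : 𝔇.cs d (recS 𝔇 d n (k + 1) ω :: (tst 𝔇 d n ω k).x) =
            ⟨(𝔇.cs d (tst 𝔇 d n ω k).x).W ∪
              D.lef (𝔇.gr d (tst 𝔇 d n ω k).x D) (recS 𝔇 d n (k + 1) ω), some D',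
              (𝔇.cs d (tst 𝔇 d n ω k).x).j, false⟩ := by
          rw [𝔇.cs_cons]
          exact g4
        refine ⟨h2, h1, h4, 𝔇.cs_ok d h1, g3, g2, g1, hrec, ?_, hcs⟩
        obtain ⟨D'', k1, k2⟩ := tst_run h2
        obtain rfl := Option.some.inj (h1.symm.trans k1)
        rw [k2, h4, ← hrec, finS_run (D := D') (by rw [hcs])]

/-- **Induction over the running stages.** -/
theorem run_ind {P : ℕ → Rule.Ndl → Dom → Prop}
    (start : ∀ i V x q D, EntS 𝔇 d n ω i V x q D → P (i + 1) q D)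
    (step : ∀ i q D D', MovS 𝔇 d n ω i q D D' → P i q D → P (i + 1) q D')
    {i : ℕ} {q : Rule.Ndl} {D : Dom} (hq : (tst 𝔇 d n ω i).q = some q)
    (hD : (𝔇.cs d (tst 𝔇 d n ω i).x).run = some D)
    (hi : (𝔇.cs d (tst 𝔇 d n ω i).x).ini = false) : P i q D := by
  induction i using Nat.strong_induction_on generalizing D with
  | _ i ih =>
    rcases run_cases hq hD hi with ⟨k, V, x, rfl, h⟩ | ⟨k, D₁, rfl, h⟩
    · exact start k V x q D h
    · exact step k q D₁ D h (ih k (Nat.lt_succ_self k) h.q h.run h.ini)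

end Pool.Agent.SixB.Tru
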