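import Pool.Agent.Lib.SixB.S8InvGS

/-!
# Step 8: the tip at the start of a needle step

The mirror image of `tgt_start`. `T` is the component of `U \ Q`, `R` the component of `P` without the
cells of the needle. The last old side before the needle is `tipS U T`, resp. `tipS P R`.

* `StH.tip_start`: the inner faces of these two sides are joined inside `T` near the base;
* `StH.start_nbh`: the same for the true tip side `S` of `StW.Start`, in a box around a face of the cell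
  of the coarse tip side.
-/

set_option autoImplicit false

namespace Pool.Agent.SixB.StartA

open Pool.Agent.Perc Pool.Agent.Perc6 Pool.Agent.Perc6.C2Aux Pool.Agent.Perc.Tips
open Pool.Agent.SixB.Top Pool.Agent.SixB.LC Pool.Agent.SixB.Mv

section Pot

variable {U S : Set (ℤ × ℤ)} {M : Set UE} {Φ : ℤ × ℤ → ZMod 2}

/-- **Transport around a set.** If the contours of `S` have exactly two sides `B`, `C` in `M`, then the
potential before `C` is the potential after `B`. -/
theorem pot_transport_lf (hSf : S.Finite) (hP : IsPot U M Φ) (hSU : S ⊆ U) {B C : UE × Bool}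
    (hB : BD S B) (hBM : B.1 ∈ M)
    (h : ∀ D, BD S D → D.1 ∈ M → D = B ∨ D = C) : Φ (lf C) = Φ (rg B) := by
  obtain ⟨m, hm⟩ := exists_per hSf hB
  have hper : side S B m = B := hm.per
  have hex : ∃ c, 0 < c ∧ c < m ∧ side S B c = C := by
    by_contra hno
    push Not at hno
    refine pot_change hP hSU hB (k₁ := 0) (k₃ := m) (r := 0) le_rfl hm.pos (fun i _ him => ?_)
      (by rw [hper]; rfl)
    constructor
    · intro hi
      rcases h _ (bd_side hB i) hi with h1 | h1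
      · exact hm.inj i him 0 hm.pos h1
      · by_contra hi0
        exact hno i (by omega) him h1
    · rintro rfl
      exact hBM
  obtain ⟨c, hc0, hcm, hcC⟩ := hex
  have h1 := pot_const hP hSU hB (k₁ := 1) (k₃ := c) (by omega) fun i h1 h2 hi => by
    rcases h _ (bd_side hB i) hi with h3 | h3
    · have := hm.inj i (by omega) 0 hm.pos h3
      omega
    · have := hm.inj i (by omega) c hcm (h3.trans hcC.symm)
      omega
  rw [hcC, side_succ, lf_sc, side_zero] at h1
  exact h1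

/-- The potential at the tip is the potential before `β`. -/
theorem Rel.pot_tip {P R : Set (ℤ × ℤ)} {β D : UE × Bool} {mP mR p t u : ℕ}
    (h : Rel P R β mP mR p t u) (hP : BD P D) (hR : BD R D) (hΦ : IsPot U M Φ) (hPU : P ⊆ U)
    (hM : ∀ B, BD P B → B.1 ∈ M → B = β ∨ B = D) : Φ (rg (tipS P R)) = Φ (lf β) := by
  have hp0 := h.p0
  have hpu := h.pu
  have hum := h.u_le
  have h1 := pot_const hΦ hPU h.cP.bd (k₁ := 1) (k₃ := p) (by omega) fun i hi1 hi2 hi => by
    rcases hM _ (bd_side h.cP.bd i) hi with h3 | h3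
    · have := h.cP.inj i (by omega) p (by omega) (by rw [h3, h.bet])
      omega
    · exact h.not_mid hP hR (by omega) (by omega) h3
  rw [h.bet, side_succ, lf_sc, side_zero] at h1
  exact h1.symm

end Pot

namespace StH

variable {U P Q : Set (ℤ × ℤ)} {γ : ℤ × ℤ → ℤ × ℤ} {f₀ y : ℤ × ℤ} {β βU D : UE × Bool} {m₁ m₂ : ℤ}

/-- The cell at the first side of the new region after the tip. -/
theorem cell_near_one (h : StH U P Q γ f₀ y β βU D m₁ m₂) {mR : ℕ}
    (hs : StartD P (VQ P Q γ) (compT (P \ VQ P Q γ) f₀) mR) :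
    outF (compT (P \ VQ P Q γ) f₀) (tipS P (compT (P \ VQ P Q γ) f₀)) 1 ∈ VQ P Q γ ∧
    ∀ f, γ f = γ (outF (compT (P \ VQ P Q γ) f₀) (tipS P (compT (P \ VQ P Q γ) f₀)) 1) →
      InB y m₂ f := by
  have hv := hs.mid 1 Nat.one_pos hs.one
  refine ⟨hv, h.near _ hv _ hs.bd.2
    ⟨rg (tipS P (compT (P \ VQ P Q γ) f₀)), ?_, isCor_out_rg _⟩⟩
  have h2 : IsCor (outF (compT (P \ VQ P Q γ) f₀) (tipS P (compT (P \ VQ P Q γ) f₀)) 1)
      (lf (side (compT (P \ VQ P Q γ) f₀) (tipS P (compT (P \ VQ P Q γ) f₀)) 1)) := isCor_out_lf _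
  rwa [side_succ, side_zero, lf_sc] at h2

/-- **No far side between the tip and the linked side `E`.** -/
theorem no_far_tip (h : StH U P Q γ f₀ y β βU D m₁ m₂) {mP mR p t u mU mT p' t' u' : ℕ}
    (hr : Rel P (compT (P \ VQ P Q γ) f₀) β mP mR p t u)
    (hs : StartD P (VQ P Q γ) (compT (P \ VQ P Q γ) f₀) mR)
    (hr' : Rel U (compT (U \ Q) f₀) βU mU mT p' t' u')
    (hs' : StartD U Q (compT (U \ Q) f₀) mT) {i j : ℕ}
    (hE : lf (side (compT (U \ Q) f₀) (tipS U (compT (U \ Q) f₀)) i)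
        = lf (side (compT (P \ VQ P Q γ) f₀) (tipS P (compT (P \ VQ P Q γ) f₀)) 1) ∨
      (outF (compT (P \ VQ P Q γ) f₀) (tipS P (compT (P \ VQ P Q γ) f₀)) 1 ∉ Q ∧
        ChI ({f | γ f = γ (outF (compT (P \ VQ P Q γ) f₀)
          (tipS P (compT (P \ VQ P Q γ) f₀)) 1)} \ Q)
          (outF (compT (P \ VQ P Q γ) f₀) (tipS P (compT (P \ VQ P Q γ) f₀)) 1)
          (ahead (side (compT (U \ Q) f₀) (tipS U (compT (U \ Q) f₀)) i))))
    (hj : 0 < j) (hij : j < i) (hi : i < t') :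
    InB y m₁ (outF (compT (U \ Q) f₀) (tipS U (compT (U \ Q) f₀)) j) := by
  by_contra hfar
  obtain ⟨hv, hK⟩ := h.cell_near_one hs
  set R := compT (P \ VQ P Q γ) f₀ with hR
  set T := compT (U \ Q) f₀ with hT
  set A := tipS P R with hA
  set A' := tipS U T with hA'
  set v := outF R A 1 with hvd
  set K : Set (ℤ × ℤ) := {f | γ f = γ v} with hKd
  have htt := hr'.tgt
  set J := side T A' j with hJd
  have hJT : BD T J := bd_side hs'.cyc.bd j
  have hJQ : ahead (rv J) ∈ Q := hs'.mid j hj (by omega)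
  have hJU := h.TU hJT.1
  obtain ⟨⟨haP, haB⟩, r, hrR, hch⟩ := h.lnk _ hJQ hfar _ hJU.1 hJU.2 (AdjF.symm (adjF_ahead J))
  have hJP' : ahead (rv J) ∈ P := by
    by_contra hn
    exact hfar (h.nearQ _ hJQ hn)
  have hJK : ahead J ∉ K := fun hh => haB (hK _ hh)
  have hRS : R ⊆ (P \ Q) \ K := by
    intro f hf
    have h1 := h.RP hf
    exact ⟨⟨h1.1, fun hq => h1.2 (mem_VQ_of_Q h1.1 hq)⟩, fun hh => h1.2 (VQ_sat h.cell hh.symm hv)⟩
  have hBS : ((P \ Q) \ {f | InB y m₂ f} : Set (ℤ × ℤ)) ⊆ (P \ Q) \ K := fun f hf =>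
    ⟨hf.1, fun hh => hf.2 (hK _ hh)⟩
  have hRc : Top.EConn R := econn_compT h.f0
  have hL : ChI ((P \ Q) \ K) (ahead D) (ahead J) := by
    have h1 : ChI R (ahead D) r := hRc _ h.bdD'.1 _ hrR
    have h2 : ChI ((P \ Q) \ {f | InB y m₂ f}) r (ahead J) := ChI.symm ⟨⟨haP, hJU.2⟩, haB⟩ hch
    exact (h1.mono hRS).trans (h2.mono hBS)
  obtain ⟨x, hx, hxch⟩ := h.exit
  obtain ⟨e, M, Φ, C⟩ := exists_closed (K := K) h.finU h.escU h.PU h.QU h.bdB h.BQ h.BQ' h.bdU
    (h.out _ h.UQ h.UP) ⟨⟨haP, hJU.2⟩, hJK⟩ ⟨hJQ, hJP'⟩ (h.inn _ hJQ hJP') h.bdD (hRS h.bdD'.1)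
    h.DQ hL hx hxch
  obtain ⟨c1, c2⟩ := closed_side C h.PU h.QU h.bdB h.bdD h.bdU h.UP haP hJP' h.BQ'
  -- the contour of `P`
  have e1 : Φ (rg A) = Φ (lf β) := hr.pot_tip h.bdD h.bdD' C.pot h.PU c1
  -- the contour of `U`
  have e2 : Φ (rg A') = Φ (lf βU) :=
    hr'.pot_tip C.bdE (h.bdT C.bdE C.eD) C.pot (subset_refl U) c2
  -- the needle outside of `P`
  have bd1 : BD (Q \ P) (rv β) :=
    ⟨⟨h.BQ', h.bdB.2⟩, by rw [rv_rv]; exact fun hh => hh.2 h.bdB.1⟩
  have hsub : Q \ P ⊆ U := fun z hz => h.QU hz.1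
  have e3 : Φ (lf βU) = Φ (rg (rv β)) := pot_transport_lf (h.finU.subset hsub) C.pot hsub bd1
    C.memB fun B hB hM => closed_Q h C haP hJP' hB hM
  rw [rg_rv] at e3
  -- the contour of `T`
  have hTU : T ⊆ U := fun z hz => (h.TU hz).1
  have e4 : Φ (lf (side T A' i)) ≠ Φ (lf (side T A' 1)) := by
    refine pot_change C.pot hTU hs'.cyc.bd (r := j) (by omega) hij fun l h1 h2 => ?_
    constructor
    · intro hM
      rcases closed_T h C hJT (bd_side hs'.cyc.bd l) hM with h3 | h3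
      · exact hs'.cyc.inj l (by have := hs'.le; omega) j (by have := hs'.le; omega) h3
      · exfalso
        have h4 := hs'.mid l (by omega) (by omega)
        have h5 : BD U (side T A' l) := by rw [h3]; exact C.bdE
        exact h5.2 (h.QU h4)
    · rintro rfl
      exact C.memJ
  -- the link
  have e5 : Φ (lf (side T A' i)) = Φ (lf (side R A 1)) := by
    rcases hE with hE | ⟨hvQ, hE⟩
    · rw [hE]
    · have hKU : K \ Q ⊆ U := fun f hf => h.PU (VQ_sat h.cell hf.1.symm hv).1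
      refine (pot_chain C.pot hKU (fun f hf a ha => closed_K h hv C hJK hJQ hf.1 hf.2 ha)
        ⟨rfl, hvQ⟩ hE ?_ (isCor_in_lf _)).symm
      exact isCor_out_lf _
  have e6 : lf (side R A 1) = rg A := by rw [side_succ, lf_sc, side_zero]
  have e7 : lf (side T A' 1) = rg A' := by rw [side_succ, lf_sc, side_zero]
  apply e4
  rw [e5, e6, e1, e7, e2, e3]

/-- **The tip at the start.** -/
theorem tip_start (h : StH U P Q γ f₀ y β βU D m₁ m₂) :
    ChI (compT (U \ Q) f₀ ∩ {f | InB y (max m₁ m₂ + 1) f})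
      (ahead (tipS U (compT (U \ Q) f₀))) (ahead (tipS P (compT (P \ VQ P Q γ) f₀))) := by
  obtain ⟨mP, mR, p, t, u, hr, hs⟩ := h.relP
  obtain ⟨mU, mT, p', t', u', hr', hs'⟩ := h.relU
  obtain ⟨hv, hK⟩ := h.cell_near_one hs
  have nf := fun {i j : ℕ} => h.no_far_tip hr hs hr' hs' (i := i) (j := j)
  have hRT := h.RT
  have hTU := h.TU
  set R := compT (P \ VQ P Q γ) f₀ with hR
  set T := compT (U \ Q) f₀ with hT
  set A := tipS P R with hA
  set A' := tipS U T with hA'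
  set v := outF R A 1 with hvd
  set G : Set (ℤ × ℤ) := T ∩ {f | InB y (max m₁ m₂ + 1) f} with hG
  have htt := hr'.tgt
  have hm1 : m₁ ≤ max m₁ m₂ := le_max_left _ _
  have hm2 : m₂ ≤ max m₁ m₂ := le_max_right _ _
  have big : ∀ {r : ℤ} {f : ℤ × ℤ}, r ≤ max m₁ m₂ + 1 → InB y r f → InB y (max m₁ m₂ + 1) f := by
    intro r f hr hf
    unfold InB at *
    omega
  have hBR : BD R (side R A 1) := bd_side hs.cyc.bd 1
  have hvk : IsCor v (lf (side R A 1)) := isCor_out_lf _
  have hvB : InB y m₂ v := hK v rfl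
  have hlr : lf (side R A 1) = rg A := by rw [side_succ, lf_sc, side_zero]
  have hB1 : ahead (side R A 1) ∈ G :=
    ⟨hRT hBR.1, big (r := m₂ + 1) (by omega) (cor_near hvk (isCor_in_lf _) hvB)⟩
  have hA0 : ahead A ∈ G := by
    refine ⟨hRT hs.cyc.bd.1, big (r := m₂ + 1) (by omega) (cor_near hvk ?_ hvB)⟩
    rw [hlr]
    exact isCor_in_rg _
  -- the last step, inside `R`
  have s3 : ChI G (ahead (side R A 1)) (ahead A) := by
    have h1 : ChI G (ahead A) (ahead (sc R A)) := by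
      refine chiMono (inner_chain R A) fun z hz => ⟨hRT hz.1, ?_⟩
      refine big (r := m₂ + 1) (by omega) (cor_near hvk ?_ hvB)
      rw [hlr]
      exact hz.2
    have h2 := ChI.symm hA0 h1
    rwa [show sc R A = side R A 1 by rw [side_succ, side_zero]] at h2
  -- the side `E`
  obtain ⟨E, hET, hEQ, hEc, hEn, hEl⟩ : ∃ E, BD T E ∧ ahead (rv E) ∈ Q ∧
      ChI G (ahead E) (ahead (side R A 1)) ∧ (∃ f, IsCor f (lf E) ∧ InB y m₂ f) ∧
      (lf E = lf (side R A 1) ∨ (v ∉ Q ∧ ChI ({f | γ f = γ v} \ Q) v (ahead E))) := by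
    by_cases hvQ : v ∈ Q
    · exact ⟨side R A 1, ⟨hRT hBR.1, fun hh => (hTU hh).2 hvQ⟩, hvQ, ChI.refl _,
        ⟨v, hvk, hvB⟩, Or.inl rfl⟩
    · have hv' := hv
      obtain ⟨hvP, q, hq, hqv⟩ := hv'
      have h1 : ChI {w | γ w = γ v} v q := by
        have h2 := chn_joinIn (h.conn v q hqv.symm)
        exact h2
      obtain ⟨c, q', h3, h4, h5, h6, h7⟩ := first_entry (T := {w | γ w = γ v}) (D := Q) rfl hvQ h1 hq
      obtain ⟨E, rfl, rfl⟩ := exists_dir h6
      have hvT : v ∈ T := compT_step (hRT hBR.1) (AdjF.symm (adjF_ahead (side R A 1)))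
        ⟨h.PU hvP, hvQ⟩
      have hKU : ({w | γ w = γ v} \ Q : Set (ℤ × ℤ)) ⊆ U \ Q := fun f hf =>
        ⟨h.PU (VQ_sat h.cell hf.1.symm hv).1, hf.2⟩
      have hKT : ∀ f, ChI ({w | γ w = γ v} \ Q) v f → f ∈ T := fun f hf =>
        ChI.mem hvT (compT_chain hvT (hf.mono hKU))
      have hch : ChI G (ahead E) v := by
        have hET : ahead E ∈ T := hKT _ h3
        have h9 : ChI (T ∩ {f | γ f = γ v}) (ahead E) v := by
          clear hET
          have h10 : ∀ z, ChI ({w | γ w = γ v} \ Q) v z → ChI (T ∩ {f | γ f = γ v}) v z := by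
            intro z hz
            induction hz with
            | refl => exact ChI.refl _
            | @tail b c hb hs ih => exact ih.tail ⟨hs.1, hKT _ (hb.tail hs), hs.2.1⟩
          exact ChI.symm ⟨hvT, rfl⟩ (h10 _ h3)
        exact chiMono h9 fun z hz => ⟨hz.1, big (r := m₂) (by omega) (hK z hz.2)⟩
      refine ⟨E, ⟨hKT _ h3, fun hh => (hTU hh).2 h7⟩, h7,
        hch.trans (ChI.single (adjF_ahead (side R A 1)) hB1),
        ⟨ahead E, isCor_in_lf _, hK _ h4⟩, Or.inr ⟨hvQ, h3⟩⟩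
  obtain ⟨i, hi, hiE⟩ := hs'.cyc.exists_index hET
  have hnb : ¬ BD U (side T A' i) := by
    rw [hiE]
    exact fun hh => hh.2 (h.QU hEQ)
  have hi0 : i ≠ 0 := by
    rintro rfl
    exact hnb hs'.bd
  have hit : i < t' := by
    by_contra hge
    exact hnb (hs'.lst i (by omega) hi.le)
  -- the contour of `T` from the tip to `E`
  have s1 : ∀ j, j ≤ i → ChI G (ahead A') (ahead (side T A' j)) := by
    intro j
    induction j with
    | zero => exact fun _ => ChI.refl _
    | succ j ih =>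
      intro hji
      refine (ih (by omega)).trans ?_
      rw [side_succ]
      refine chiMono (inner_chain T (side T A' j)) fun z hz => ⟨hz.1, ?_⟩
      have hz2 : IsCor z (lf (side T A' (j + 1))) := by
        rw [side_succ, lf_sc]
        exact hz.2
      rcases Nat.eq_or_lt_of_le hji with h1 | h1
      · obtain ⟨f, hf1, hf2⟩ := hEn
        rw [← hiE, ← h1] at hf1
        exact big (r := m₂ + 1) (by omega) (cor_near hf1 hz2 hf2)
      · have h2 := nf (i := i) (j := j + 1) (by rw [hiE]; exact hEl) (by omega) h1 hit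
        exact big (r := m₁ + 1) (by omega) (cor_near (isCor_out_lf _) hz2 h2)
  have s2 := s1 i le_rfl
  rw [hiE] at s2
  exact s2.trans (hEc.trans s3)

/-- **The true tip side and the coarse tip side are joined near the base.** `S`: the true tip side,
`b`: a face of the cell of the coarse tip side. -/
theorem start_nbh (h : StH U P Q γ f₀ y β βU D m₁ m₂) {W : Set (ℤ × ℤ)} {S : UE × Bool}
    {m k x : ℕ} (hs : StW.Start W Q (compT (U \ Q) f₀) S m k x) (hUW : U ⊆ W) {b : ℤ × ℤ}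
    (hb : γ b = γ (ahead (tipS P (compT (P \ VQ P Q γ) f₀)))) {c r : ℤ} (hc0 : 0 ≤ c)
    (hc : ∀ x z, γ x = γ z → InB x c z) (hr : 2 * (max m₁ m₂ + 3 + c) ≤ r) :
    ahead S ∈ compT (U \ Q) f₀ ∩ Mv.sqF r b ∧
      ChI (compT (U \ Q) f₀ ∩ Mv.sqF r b) (ahead S) b := by
  obtain ⟨mU, mT, p', t', u', hr', hs'⟩ := h.relU
  obtain ⟨mP, mR, pP, tP, uP, hrP, hsP⟩ := h.relP
  have h1 := h.tip_start
  have hTU : compT (U \ Q) f₀ ⊆ U := fun _ hf => (h.TU hf).1
  have hst := start_tip hs hs' h.QU hUW hTU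
  have hbR : ahead (tipS P (compT (P \ VQ P Q γ) f₀)) ∈ compT (P \ VQ P Q γ) f₀ := hsP.cyc.bd.1
  have hbn : InB y (m₂ + 2) (ahead (tipS P (compT (P \ VQ P Q γ) f₀))) := by
    have h2 := inB_cor' (isCor_in_rg (tipS P (compT (P \ VQ P Q γ) f₀))) h.tip_near
    rwa [show m₂ + 1 + 1 = m₂ + 2 by ring] at h2
  set T := compT (U \ Q) f₀ with hT
  set b₀ := ahead (tipS P (compT (P \ VQ P Q γ) f₀)) with hb₀
  have hmax := le_max_right m₁ m₂
  -- the first inner face
  have h2 : ChI (T ∩ {f | InB y (max m₁ m₂ + 1) f}) (ahead S) b₀ ∧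
      InB y (max m₁ m₂ + 1) (ahead S) := by
    rcases hst with ⟨hS, -, h0, h5⟩ | ⟨hS, -, -, h0, h5⟩
    · have c1 : IsCor (outF T S 1) (rg S) := by
        have h6 : IsCor (outF T S 1) (lf (side T S 1)) := isCor_out_lf _
        rwa [side_succ, side_zero, lf_sc] at h6
      refine ⟨by rw [hS]; exact h1, ?_⟩
      exact cor_near c1 (isCor_in_rg _)
        (h.old_near h5 (fun hh => h0 (hUW hh)) c1 (isCor_out_rg S))
    · have c0 : IsCor (outF T S 0) (lf S) := isCor_out_lf S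
      have c1 : IsCor (outF T (tipS U T) 0) (lf S) := by
        rw [hS, lf_sc]
        exact isCor_out_rg _
      have h6 := h.old_near h5 (fun hh => h0 (hUW hh)) c0 c1
      have h7 : ChI (T ∩ {f | InB y (max m₁ m₂ + 1) f}) (ahead (tipS U T)) (ahead S) := by
        rw [hS]
        refine chiMono (inner_chain T (tipS U T)) fun z hz => ⟨hz.1, ?_⟩
        refine cor_near c0 ?_ h6
        rw [hS, lf_sc]
        exact hz.2
      have h8 : ahead (tipS U T) ∈ T ∩ {f | InB y (max m₁ m₂ + 1) f} := by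
        refine ⟨hs'.cyc.bd.1, ?_⟩
        refine cor_near c0 ?_ h6
        rw [hS, lf_sc]
        exact isCor_in_rg _
      exact ⟨(ChI.symm h8 h7).trans h1, cor_near c0 (isCor_in_lf _) h6⟩
  -- the cell
  have hcell : ∀ z, γ z = γ b₀ → InB y (max m₁ m₂ + 3 + c) z := by
    intro z hz
    have h3 := hc _ _ hz.symm
    unfold InB at *
    omega
  have h4 : ChI (T ∩ {f | InB y (max m₁ m₂ + 3 + c) f}) b₀ b :=
    chiMono (h.cell_chain hbR hb) fun z hz => ⟨h.RT hz.1, hcell z hz.2⟩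
  have hbb := hcell b hb
  have h6 : ∀ f, InB y (max m₁ m₂ + 3 + c) f → f ∈ Mv.sqF r b := by
    intro f hf
    unfold Mv.sqF
    rw [Set.mem_ofPred_eq, abs_le, abs_le]
    unfold InB at *
    omega
  refine ⟨⟨hs.cyc.bd.1, h6 _ (inB_mono (by omega) h2.2)⟩, ?_⟩
  have h7 : ChI (T ∩ {f | InB y (max m₁ m₂ + 3 + c) f}) (ahead S) b₀ :=
    chiMono h2.1 fun z hz => ⟨hz.1, inB_mono (by omega) hz.2⟩
  replace h7 := h7.trans h4
  exact chiMono h7 fun z hz => ⟨hz.1, h6 z hz.2⟩

end StH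

end Pool.Agent.SixB.StartA
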