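import Pool.Agent.Lib.SixB.S8InvA
import Pool.Agent.Lib.SixB.S8LawW
import Pool.Agent.Lib.SixB.S8StartCh
import Pool.Agent.Lib.SixB.S8StartTip

/-!
# Step 8: the neighbourhood of the tip

`Nbh d n r s ω q D`: there is a connected set of faces of the true domain, in the box of radius `r` around
the coarse tip, which contains the face in front of the strand and one of the two faces of the coarse
tip side. `Nbh.void`, `RunI.nbh_reg`: the void stages and the regular moves; `nbh_run`: all running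
stages of the chain. `Nbh.inr`: the same set together with the inner part of the domain of the next move;
`Nbh.ent`: together with the entered piece.
-/

set_option autoImplicit false

namespace Pool.Agent.SixB.Tru

open Finset Pool.Agent.Perc Pool.Agent.Perc6 Pool.Agent.PercT Pool.Agent.Perc6.C2Aux
open Pool.Agent.SixB Pool.Agent.SixB.Rule Pool.Agent.SixB.Dct Pool.Agent.SixB.Mv
open Pool.Agent.SixB.Blow (subE cl_ahead cl_ahead_rv lf_subE_zero mem_blow)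
open Pool.Agent.SixB.Top (compT ChI lf rg econn_compT self_mem_compT compT_sub)
open Pool.Agent.Perc.Tips

/-! ### Connected sets -/

/-- Two connected sets with a common face or with two adjacent faces. -/
theorem econn_union {S T : Set (ℤ × ℤ)} (hS : Top.EConn S) (hT : Top.EConn T) {a b : ℤ × ℤ}
    (ha : a ∈ S) (hb : b ∈ T) (hab : a = b ∨ AdjF a b) : Top.EConn (S ∪ T) := by
  have hS' : ∀ f ∈ S, ∀ g ∈ S, ChI (S ∪ T) f g := fun f hf g hg =>
    ChI.mono Set.subset_union_left (hS f hf g hg)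
  have hT' : ∀ f ∈ T, ∀ g ∈ T, ChI (S ∪ T) f g := fun f hf g hg =>
    ChI.mono Set.subset_union_right (hT f hf g hg)
  have hab' : ChI (S ∪ T) a b := by
    rcases hab with rfl | h
    · exact ChI.refl _
    · exact ChI.single h (Or.inr hb)
  have hba' : ChI (S ∪ T) b a := ChI.symm (Or.inl ha) hab'
  rintro f (hf | hf) g (hg | hg)
  · exact hS' f hf g hg
  · exact ((hS' f hf a ha).trans hab').trans (hT' b hb g hg)
  · exact ((hT' f hf b hb).trans hba').trans (hS' a ha g hg)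
  · exact hT' f hf g hg

variable {𝔇 : Dat} {d : ℕ → ℕ} {n a i : ℕ} {r r₀ r' C : ℤ} {s s' : TS} {ω ω' : Cfg}
  {q : Rule.Ndl} {D : Dom} {κ : ℤ × ℤ → ℤ × ℤ} {m x i₁ j₁ t j₂ i₂ : ℕ}

/-- **The neighbourhood of the tip.** -/
def Nbh (d : ℕ → ℕ) (n : ℕ) (r : ℤ) (s : TS) (ω : Cfg) (q : Rule.Ndl) (D : Dom) : Prop :=
  ∃ μ : Set (ℤ × ℤ), μ ⊆ uS s q ω ∧ Top.EConn μ ∧ fa (pS s.V q ω s.t) ∈ μ ∧
    (ahead (subE (unt d n) D.A 0) ∈ μ ∨ ahead (rv (subE (unt d n) D.A 0)) ∈ μ) ∧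
    ∀ f ∈ μ, LC.InB (lf (subE (unt d n) D.A 0)) r f

theorem Nbh.mono (h : Nbh d n r s ω q D) (hr : r ≤ r') : Nbh d n r' s ω q D := by
  obtain ⟨μ, h1, h2, h3, h4, h5⟩ := h
  exact ⟨μ, h1, h2, h3, h4, fun f hf => InvN.InB.mono (h5 f hf) hr⟩

/-- The two faces of a side. -/
theorem adj_ahead_rv {A : UE × Bool} : AdjF (ahead (rv A)) (ahead A) := Top.adjF_ahead A

/-- The set together with a connected set of the true domain which contains the inner face of the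
coarse tip side. -/
theorem Nbh.union (h : Nbh d n r s ω q D) {T : Set (ℤ × ℤ)} (hT : T ⊆ uS s q ω)
    (hTc : Top.EConn T) (hA : ahead (subE (unt d n) D.A 0) ∈ T)
    (hTr : ∀ f ∈ T, LC.InB (lf (subE (unt d n) D.A 0)) r' f) :
    ∃ μ : Set (ℤ × ℤ), μ ⊆ uS s q ω ∧ Top.EConn μ ∧ fa (pS s.V q ω s.t) ∈ μ ∧ T ⊆ μ ∧
      ∀ f ∈ μ, LC.InB (lf (subE (unt d n) D.A 0)) (max r r') f := by
  obtain ⟨μ, h1, h2, h3, h4, h5⟩ := h
  refine ⟨μ ∪ T, Set.union_subset h1 hT, ?_, Or.inl h3, Set.subset_union_right, ?_⟩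
  · rcases h4 with h4 | h4
    · exact econn_union h2 hTc h4 hA (Or.inl rfl)
    · exact econn_union h2 hTc h4 hA (Or.inr adj_ahead_rv)
  · rintro f (hf | hf)
    · exact InvN.InB.mono (h5 f hf) (le_max_left _ _)
    · exact InvN.InB.mono (hTr f hf) (le_max_right _ _)

/-- **The start**: a chain from the face in front of the strand to the inner face of the coarse tip side,
in the form of `StartA.StH.start_nbh`. -/
theorem nbh_of_chain {T : Set (ℤ × ℤ)} (hU : T ⊆ uS s q ω)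
    (h1 : fa (pS s.V q ω s.t) ∈ T ∩ Mv.sqF r (ahead (subE (unt d n) D.A 0)))
    (h2 : ChI (T ∩ Mv.sqF r (ahead (subE (unt d n) D.A 0))) (fa (pS s.V q ω s.t))
      (ahead (subE (unt d n) D.A 0))) (hr : r + 1 ≤ r') : Nbh d n r' s ω q D := by
  refine ⟨compT (T ∩ Mv.sqF r (ahead (subE (unt d n) D.A 0))) (fa (pS s.V q ω s.t)),
    fun f hf => hU (compT_sub h1 hf).1, econn_compT h1, self_mem_compT, Or.inl h2,
    fun f hf => ?_⟩
  have h3 := (compT_sub h1 hf).2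
  have h4 := InvN.lf_bd (subE (unt d n) D.A 0)
  unfold Mv.sqF at h3
  rw [Set.mem_ofPred_eq, abs_le, abs_le] at h3
  unfold LC.InB
  omega

/-! ### A void stage and a regular move -/

/-- All faces of the entered set are near the old coarse tip in a void stage. -/
theorem near_ent_old {g : Grd} {u : ℤ} {ρ : Rec} (h : D.Val g) (hu : 0 < u) (hρ : D.RecOk g ρ)
    (hV : D.Void g) {f : ℤ × ℤ} (hf : f ∈ blow u (D.ent g ρ)) :
    LC.InB (lf (subE u D.A 0)) (2 * (u * g.L)) f := by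
  have h0 : ahead D.A ∈ D.ent g ρ := by
    have h1 := Dom.stp_mem_ent D g ρ
    rwa [Dom.stp_void hV] at h1
  have h1 := ((InvN.ent_dia h hρ).blow hu) _ hf _ (InvN.ahead_blow hu h0 le_rfl hu)
  have h2 := InvN.lf_bd (subE u D.A 0)
  rw [abs_lt, abs_lt, show u * (2 * g.L) = 2 * (u * g.L) by ring] at h1
  unfold LC.InB
  omega

/-- **A void stage.** -/
theorem Nbh.void (h : Nbh d n r s ω q D) (hval : D.Val (𝔇.gr d s.x D)) (hu : 0 < unt d n)
    (hPU : blow (unt d n : ℤ) D.P ⊆ uS s q ω) (hv : D.Void (𝔇.gr d s.x D)) {ρ : Rec}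
    (hE : ¬ D.End (𝔇.gr d s.x D) ρ) (hr : r + 4 * (unt d n * msh d s.x.length) ≤ r')
    (hr0 : 0 ≤ r) (hs' : s' = ⟨s.V, some q, s.t, ρ :: s.x⟩) :
    Nbh d n r' s' ω q (D.nx (𝔇.gr d s.x D) ρ) := by
  have hu' : (0 : ℤ) < unt d n := by exact_mod_cast hu
  have hL : (𝔇.gr d s.x D).L = msh d s.x.length := rfl
  have hrok : D.RecOk (𝔇.gr d s.x D) ρ := Dom.recOk_void hv
  have hsV : s'.V = s.V := by rw [hs']
  have hst : s'.t = s.t := by rw [hs']
  have e1 : uS s' q ω = uS s q ω := uS_void hsV hst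
  have hLp : 0 ≤ (unt d n : ℤ) * msh d s.x.length := mul_nonneg hu'.le (msh_pos _ _).le
  have hent : blow (unt d n : ℤ) (D.ent (𝔇.gr d s.x D) ρ) ⊆ uS s q ω := fun f hf =>
    hPU (hval.ent_sub_P hrok hf)
  have h0 : ahead D.A ∈ D.ent (𝔇.gr d s.x D) ρ := Dom.ahead_mem_ent hv
  obtain ⟨μ, h1, h2, h3, h4, h5⟩ := h.union hent (Blow.econn_blow hu' (hval.econn_ent hrok))
    (InvN.ahead_blow hu' h0 le_rfl hu') fun f hf => near_ent_old hval hu' hrok hv hf
  obtain ⟨k1, k2⟩ := hval.nxA_spec hrok hE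
  refine ⟨μ, by rw [e1]; exact h1, h2, by rw [hsV, hst]; exact h3, Or.inr ?_, fun f hf => ?_⟩
  · exact h4 (InvN.ahead_rv_blow hu' k2 le_rfl hu')
  · have g1 := InvN.near_void_tip hval hu' hrok hE hv
    have g2 := InvN.InB.tri g1 (h5 f hf)
    rw [hL] at g2
    refine InvN.InB.mono g2 ?_
    have g3 : max r (2 * ((unt d n : ℤ) * msh d s.x.length)) ≤
        r + 2 * (unt d n * msh d s.x.length) := max_le (by omega) (by omega)
    omega

/-- **A regular move.** -/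
theorem RunI.nbh_reg (X : RunI 𝔇 d n r s ω q D κ m x i₁ j₁ t j₂ i₂) (hO : StO n s q)
    (hN : NumO d n s.x.length r) (hv : ¬ D.Void (𝔇.gr d s.x D)) {σ : ℕ}
    (hS : D.regS (𝔇.gr d s.x D) (unt d n) (uS s q ω) κ (tS s q ω).1 (cfS s.V q ω) σ)
    (hE : ¬ D.End (𝔇.gr d s.x D) (mvR 𝔇 d n s q D false ω))
    (hs' : s' = ⟨s.V, some q, s.t + σ, mvR 𝔇 d n s q D false ω :: s.x⟩) :
    Nbh d n (2 * (unt d n * msh d s.x.length)) s' ω q
      (D.nx (𝔇.gr d s.x D) (mvR 𝔇 d n s q D false ω)) := by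
  obtain ⟨-, R⟩ := X.rg hO hN hv hS
  obtain ⟨κ', m', x', -, hU, -⟩ := X.next_regB hO hN hv hS hE le_rfl hs'
  have hu' : (0 : ℤ) < unt d n := by exact_mod_cast hN.hu
  have hsV : s'.V = s.V := by rw [hs']
  have hst : s'.t = s.t + σ := by rw [hs']
  obtain ⟨-, m2, -⟩ := R.move hE
  obtain ⟨-, k2⟩ := R.val.nxA_spec R.rok hE
  refine ⟨blow (unt d n : ℤ) (D.ent (𝔇.gr d s.x D) (mvR 𝔇 d n s q D false ω)), by
    rw [hU]; exact m2, Blow.econn_blow hu' (R.val.econn_ent R.rok), ?_, Or.inr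
    (InvN.ahead_rv_blow hu' k2 le_rfl hu'), fun f hf => ?_⟩
  · rw [hsV, hst]
    have hpt : pth (cfS s.V q ω) (tS s q ω).1 σ = pS s.V q ω (s.t + σ) := pth_pS σ
    rw [← hpt]
    exact R.ent
  · exact InvN.near_ent R.val hu' R.rok hE hf

/-! ### The next move -/

/-- The faces of the magnified block are near the coarse tip. -/
theorem near_blk {g : Grd} {u : ℤ} (hu : 0 < u) (hL : 0 < g.L) {f : ℤ × ℤ}
    (hf : f ∈ blow u (D.blk g)) : LC.InB (lf (subE u D.A 0)) (u * (g.L * (g.M + 1))) f := by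
  have h1 : ((f.1 / u, f.2 / u) : ℤ × ℤ) ∈ Mv.blk g.a g.b g.L g.M D.tip := hf
  rw [blk_eq hL, Finset.mem_coe] at h1
  unfold RF at h1
  rw [Finset.mem_product, Finset.mem_Ico, Finset.mem_Ico] at h1
  obtain ⟨⟨a1, a2⟩, a3, a4⟩ := h1
  simp only at a1 a2 a3 a4
  have e1 : (gc g.a g.b g.L D.tip).1 = (D.tip.1 + g.a) / g.L := rfl
  have e2 : (gc g.a g.b g.L D.tip).2 = (D.tip.2 + g.b) / g.L := rfl
  have b1 := Int.mul_ediv_add_emod (D.tip.1 + g.a) g.L
  have b2 := Int.mul_ediv_add_emod (D.tip.2 + g.b) g.L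
  have b3 := Int.emod_nonneg (D.tip.1 + g.a) hL.ne'
  have b4 := Int.emod_nonneg (D.tip.2 + g.b) hL.ne'
  have b5 := Int.emod_lt_of_pos (D.tip.1 + g.a) hL
  have b6 := Int.emod_lt_of_pos (D.tip.2 + g.b) hL
  rw [e1] at a1 a2
  rw [e2] at a3 a4
  have c1 := Int.mul_ediv_add_emod f.1 u
  have c2 := Int.mul_ediv_add_emod f.2 u
  have c3 := Int.emod_nonneg f.1 hu.ne'
  have c4 := Int.emod_nonneg f.2 hu.ne'
  have c5 := Int.emod_lt_of_pos f.1 hu
  have c6 := Int.emod_lt_of_pos f.2 hu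
  have d1 : D.tip.1 - g.L * (g.M + 1) + 1 ≤ f.1 / u := by linarith
  have d2 : f.1 / u + 1 ≤ D.tip.1 + g.L * (g.M + 1) := by linarith
  have d3 : D.tip.2 - g.L * (g.M + 1) + 1 ≤ f.2 / u := by linarith
  have d4 : f.2 / u + 1 ≤ D.tip.2 + g.L * (g.M + 1) := by linarith
  have m1 := mul_le_mul_of_nonneg_left d1 hu.le
  have m2 := mul_le_mul_of_nonneg_left d2 hu.le
  have m3 := mul_le_mul_of_nonneg_left d3 hu.le
  have m4 := mul_le_mul_of_nonneg_left d4 hu.le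
  rw [lf_subE_zero]
  have e : D.tip = lf D.A := rfl
  rw [e] at m1 m2 m3 m4
  unfold LC.InB
  simp only
  refine ⟨?_, ?_, ?_, ?_⟩ <;> nlinarith

/-- **The neighbourhood and the inner part of the domain of the move.** -/
theorem Nbh.inr (h : Nbh d n r s ω q D) (hval : D.Val (𝔇.gr d s.x D)) (hu : 0 < unt d n)
    (hPU : blow (unt d n : ℤ) D.P ⊆ uS s q ω) (hv : ¬ D.Void (𝔇.gr d s.x D)) :
    ∃ μ : Set (ℤ × ℤ), μ ⊆ uS s q ω ∧ Top.EConn μ ∧ fa (pS s.V q ω s.t) ∈ μ ∧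
      blow (unt d n : ℤ) (D.inr (𝔇.gr d s.x D)) ⊆ μ ∧
      ∀ f ∈ μ, LC.InB (lf (subE (unt d n) D.A 0)) (max r (unt d n * ((𝔇.gr d s.x D).L *
        ((𝔇.gr d s.x D).M + 1)))) f := by
  have hu' : (0 : ℤ) < unt d n := by exact_mod_cast hu
  refine h.union (fun f hf => hPU (hval.dom_sub (hval.inr_sub hv hf).1).1)
    (Blow.econn_blow hu' (hval.conI hv)) (InvN.ahead_blow hu' (hval.bdI hv).1 le_rfl hu')
    fun f hf => near_blk hu' hval.hL (hval.dom_sub (hval.inr_sub hv hf).1).2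

/-! ### The chain -/

/-- The neighbourhood of the tip as a part of the invariant. -/
def NbI (C : ℤ) (𝔇 : Dat) : InvP := fun d n _ s ω =>
  ∀ q D, s.q = some q → (𝔇.cs d s.x).run = some D → (𝔇.cs d s.x).ini = false →
    Nbh d n (rad C (unt d n) d s.x.length) s ω q D

theorem Nbh.congr (hq : s.q = some q) (h : ∀ f ∈ expS s ω, ω f = ω' f)
    (H : Nbh d n r s ω q D) : Nbh d n r s ω' q D := by
  obtain ⟨μ, h1, h2, h3, h4, h5⟩ := H
  refine ⟨μ, ?_, h2, ?_, h4, h5⟩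
  · rw [uS_congr hq h]
    exact h1
  · rw [pS_congr hq h le_rfl]
    exact h3

theorem nbI_dec (C : ℤ) (𝔇 : Dat) : InvDec (NbI C 𝔇) := fun _ _ _ _ _ _ h H q D hq hD hi =>
  (H q D hq hD hi).congr hq h

theorem nbI_zero : NbI C 𝔇 d n 0 (tst 𝔇 d n ω 0) ω := by
  intro q' D' hq' hD' hi'
  exfalso
  rw [tst_zero] at hq' hD' hi'
  have hD0 : (𝔇.cs d ([] : List Rec)).run = none := rfl
  rw [nxS_rest (s := ⟨Box n, none, 0, []⟩) rfl hD0] at hD' hi'
  rw [plS_x, Dat.cs_cons] at hD' hi'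
  rw [mv_ini_none hD0, hD'] at hi'
  exact absurd hi' (by simp)

/-- **The step of `NbI`.** `hS`: the first stage of a needle. -/
theorem nbI_step (hC : 9 ≤ C) (ha : 16 * (9 * C + 6) ≤ 2 ^ a) (hN : NumR a d n i)
    (hR : ω ∉ Dead C 𝔇 d n i) (hV : RunVI C 𝔇 d n i (tst 𝔇 d n ω i) ω)
    (hS : ∀ q D, (tst 𝔇 d n ω i).q = some q → (𝔇.cs d (tst 𝔇 d n ω i).x).run = some D →
      (𝔇.cs d (tst 𝔇 d n ω i).x).ini = true → NbI C 𝔇 d n (i + 1) (tst 𝔇 d n ω (i + 1)) ω)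
    (h : NbI C 𝔇 d n i (tst 𝔇 d n ω i) ω) : NbI C 𝔇 d n (i + 1) (tst 𝔇 d n ω (i + 1)) ω := by
  intro q D' hq' hD' hi'
  obtain ⟨D, hq, hD, hcase⟩ := tst_succ_run hq' hD' hi'
  rcases hcase with ⟨hini, hDD, hst⟩ | ⟨hini, hnE, hDD, -, hst⟩
  · exact hS q D hq hD hini q D' hq' hD' hi'
  have hNO : NumO d n (tst 𝔇 d n ω i).x.length
      (rad C (unt d n) d (tst 𝔇 d n ω i).x.length) := by
    rw [tst_len]
    exact hN.numO (by omega) ha le_rfl
  have hval : D.Val (𝔇.gr d (tst 𝔇 d n ω i).x D) := val_gr hD (msh_pos _ _) hNO.h16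
  have hu : (0 : ℤ) < unt d n := by exact_mod_cast hNO.hu
  have hLp : 0 ≤ (unt d n : ℤ) * msh d (tst 𝔇 d n ω i).x.length :=
    mul_nonneg hu.le (msh_pos _ _).le
  have hlen : rad C (unt d n) d (tst 𝔇 d n ω (i + 1)).x.length =
      rad C (unt d n) d (tst 𝔇 d n ω i).x.length +
        C * (unt d n * msh d (tst 𝔇 d n ω i).x.length) := by
    rw [tst_len, ← rad_succ, tst_len]
  have hr0 : 0 ≤ rad C (unt d n) d (tst 𝔇 d n ω i).x.length := by
    unfold rad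
    have h1 : (0 : ℤ) ≤ ∑ j ∈ range (tst 𝔇 d n ω i).x.length, msh d j :=
      sum_nonneg fun j _ => (msh_pos d j).le
    have h2 : (0 : ℤ) ≤ C * unt d n := mul_nonneg (by omega) hu.le
    exact mul_nonneg h2 (by omega)
  have hN' := h q D hq hD hini
  rw [hDD, hlen]
  by_cases hv : D.Void (𝔇.gr d (tst 𝔇 d n ω i).x D)
  · have hPU : blow (unt d n : ℤ) D.P ⊆ uS (tst 𝔇 d n ω i) q ω := by
      rcases hV q D hq hD hini with ⟨κ, m, x, i₁, j₁, t, j₂, i₂, X⟩ | ⟨κ, m, x, X⟩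
      · exact X.app.sub
      · exact X.app.sub
    exact hN'.void hval hNO.hu hPU hv hnE (by nlinarith) hr0 (by rw [hst, mvT_void hv])
  · obtain ⟨κ, m, x, i₁, j₁, t, j₂, i₂, X, σ, hσ⟩ := exists_regS hR hq hD hini hv
    have hO := stO_tst hq
    obtain ⟨hT, -⟩ := X.rg hO hNO hv hσ
    exact (X.nbh_reg hO hNO hv hσ hnE (by rw [hst, hT])).mono (by nlinarith)

end Pool.Agent.SixB.Tru
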