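import Pool.Agent.Lib.SixB.S8AncVT
import Pool.Agent.Lib.SixB.S8Inv
import Pool.Agent.Lib.SixB.S8Nbh

/-!
# Step 8: the geometry of a void move, the instance

`Dom.Val.vd`: the geometry `Anc.Vd` for a valid coarse domain with a void move; `C` is the magnified
component of the rest which does not contain the target. `Dom.Val.tip_void`: the face in front of the true
tip is not in `C`.
-/

set_option autoImplicit false

namespace Pool.Agent.SixB.Mv.Dom.Val

open Finset Pool.Agent.Perc Pool.Agent.Perc6 Pool.Agent.Perc6.C2Aux Pool.Agent.Perc.Tips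
open Pool.Agent.SixB Pool.Agent.SixB.Mv Pool.Agent.SixB.Tru
open Pool.Agent.SixB.Blow (subE econn_blow blow_subset mem_blow cl_ahead_zero cyc_blow)
open Pool.Agent.SixB.Top (ChI compT compT_sub self_mem_compT econn_compT)

variable {ι : Type*} {s : Dom} {g : Grd} {u : ℕ} {ζ : Cfg} {U : Set (ℤ × ℤ)} {κ : ℤ × ℤ → ι}
  {τ : UE × Bool} {r a b : ℤ} {mU x t : ℕ} {z : ℤ × ℤ}

/-- **The geometry of a void move.** -/
theorem vd (h : s.Val g) (hu : 0 < u) (hv : s.Void g) (T : TSt ζ Set.univ U τ mU x)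
    (app : App U (blow (u : ℤ) s.P) κ r)
    (W : WkLab U (blow (u : ℤ) s.P) κ (subE u s.A 0) τ (subE u s.B 0) a b (u * cyl s.P s.A) mU x t)
    (a0 : 0 ≤ a) (b0 : 0 ≤ b)
    (hcA : ∀ f ∈ Mv.sqF (a + 1) (ahead (subE u s.A 0)), gc (u * g.a) (u * g.b) (u * g.L) f =
      gc (u * g.a) (u * g.b) (u * g.L) (ahead (subE u s.A 0)))
    (hcB : ∀ f ∈ Mv.sqF (b + 1) (ahead (subE u s.B 0)), gc (u * g.a) (u * g.b) (u * g.L) f =
      gc (u * g.a) (u * g.b) (u * g.L) (ahead (subE u s.B 0)))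
    (ρ : Rec) (hz : z ∈ s.P \ s.rem g ρ) (hzB : ahead s.B ∉ compT (s.P \ s.rem g ρ) z) :
    ∃ Y, Anc.Vd U (blow (u : ℤ) s.P) (blow (u : ℤ) (s.ent g ρ))
      (blow (u : ℤ) (compT (s.P \ s.rem g ρ) z)) Y κ (gc (u * g.a) (u * g.b) (u * g.L))
      (subE u s.A 0) τ (subE u s.B 0) r a b (u * cyl s.P s.A) mU x t := by
  have hu' : (0 : ℤ) < u := by exact_mod_cast hu
  have hrok : s.RecOk g ρ := Dom.recOk_void hv
  have hrem : s.rem g ρ = s.ent g ρ := Dom.rem_void s g hv
  have hcyc := cyc_blow hu h.fin h.con h.esc h.cycP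
  have hEP := h.ent_sub_P hrok
  have hCP : compT (s.P \ s.rem g ρ) z ⊆ s.P \ s.rem g ρ := compT_sub hz
  have huoc := (uoc_compT hz).blow hu'
  have hAE : ahead (subE u s.A 0) ∈ blow (u : ℤ) (s.ent g ρ) := by
    rw [mem_blow, cl_ahead_zero hu]
    exact Dom.ahead_mem_ent hv
  obtain ⟨Y, hYP, hYc, hEY, hBY, hCY⟩ : ∃ Y : Set (ℤ × ℤ), Y ⊆ s.P ∧ Top.EConn Y ∧ s.ent g ρ ⊆ Y ∧
      ahead s.B ∈ Y ∧ ∀ f ∈ compT (s.P \ s.rem g ρ) z, f ∉ Y := by
    by_cases hE : s.End g ρ
    · refine ⟨s.ent g ρ, hEP, h.econn_ent hrok, subset_rfl, hE, fun f hf hf' => ?_⟩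
      exact (hCP hf).2 (hrem ▸ hf')
    · obtain ⟨k1, k2⟩ := h.nxA_spec hrok hE
      have hns := h.nxP_sub hE
      refine ⟨s.ent g ρ ∪ s.nxP g ρ, Set.union_subset hEP fun f hf => (hns hf).1, ?_,
        Set.subset_union_left, Or.inr self_mem_compT, ?_⟩
      · exact econn_union (h.econn_ent hrok) (h.con_next hE) k2 k1.1
          (Or.inr (Top.adjF_ahead (s.nxA g ρ)))
      · rintro f hf (hf' | hf')
        · exact (hCP hf).2 (hrem ▸ hf')
        · have e1 := Top.compT_eq hz hf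
          have e2 := Top.compT_eq (h.tgt_rem hE) hf'
          rw [← e1, e2] at hzB
          exact hzB self_mem_compT
  refine ⟨blow (u : ℤ) Y, ?_⟩
  exact
    { fin := T.fin
      ecU := T.ec
      esc := T.esc
      app := app
      ecP := econn_blow hu' h.con
      escP := Esc.blow hu' h.esc
      cyc := hcyc
      cyU := T.cyc
      lab := W
      x0 := T.pos
      xm := T.lt
      a0 := a0
      b0 := b0
      cA := hcA
      cB := hcB
      EP := blow_subset hEP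
      AE := hAE
      sat := fun f hf k hk hfk hc =>
        sat_f' hu (h.sat_ent hrok) f hf k
          (dcell_f hu h.dcell f (blow_subset (h.ent_sub_dom hrok) hf) k hk hfk hc) hfk hc
      CP := blow_subset fun f hf => (hCP hf).1
      CE := fun f hf hf' => by
        rw [mem_blow] at hf hf'
        exact (hCP hf).2 (hrem ▸ hf')
      cl := fun f hf k hk hkE hfk => huoc.clo f hf k ⟨hk, hrem ▸ hkE⟩ hfk
      ecC := econn_blow hu' (econn_compT hz)
      YP := blow_subset hYP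
      ecY := econn_blow hu' hYc
      EY := blow_subset hEY
      BY := by
        rw [mem_blow, cl_ahead_zero hu]
        exact hBY
      CY := fun f hf hf' => by
        rw [mem_blow] at hf hf'
        exact hCY _ hf hf' }

/-- **The face in front of the true tip is not in a component which is cut off** by a void move. -/
theorem tip_void (h : s.Val g) (hu : 0 < u) (hv : s.Void g) (T : TSt ζ Set.univ U τ mU x)
    (app : App U (blow (u : ℤ) s.P) κ r)
    (W : WkLab U (blow (u : ℤ) s.P) κ (subE u s.A 0) τ (subE u s.B 0) a b (u * cyl s.P s.A) mU x t)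
    (a0 : 0 ≤ a) (hb : 3 * r + 1 ≤ b)
    (hcA : ∀ f ∈ Mv.sqF (a + 1) (ahead (subE u s.A 0)), gc (u * g.a) (u * g.b) (u * g.L) f =
      gc (u * g.a) (u * g.b) (u * g.L) (ahead (subE u s.A 0)))
    (hcB : ∀ f ∈ Mv.sqF (b + 1) (ahead (subE u s.B 0)), gc (u * g.a) (u * g.b) (u * g.L) f =
      gc (u * g.a) (u * g.b) (u * g.L) (ahead (subE u s.B 0)))
    (tgt : ahead (side U τ x) ∈ U ∧ ahead (side U τ x) ∈ Mv.sqF r (ahead (subE u s.B 0)) ∧
      ChI (U ∩ Mv.sqF r (ahead (subE u s.B 0))) (ahead (side U τ x)) (ahead (subE u s.B 0)))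
    (ρ : Rec) (hz : z ∈ s.P \ s.rem g ρ) (hzB : ahead s.B ∉ compT (s.P \ s.rem g ρ) z) :
    ahead τ ∉ blow (u : ℤ) (compT (s.P \ s.rem g ρ) z) := by
  have hr := app.d_pos
  obtain ⟨Y, V⟩ := h.vd hu hv T app W a0 (by omega) hcA hcB ρ hz hzB
  exact V.tip hb tgt.2.1 tgt.2.2

end Pool.Agent.SixB.Mv.Dom.Val
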