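import Pool.Agent.Lib.SixB.S8Inner
import Pool.Agent.Lib.SixB.S8LemCb

/-!
# Step 8: from the order lemma to the hypothesis of Lemma C
-/

set_option autoImplicit false

namespace Pool.Agent.SixB

open Finset Pool.Agent.Perc Pool.Agent.Perc6 Pool.Agent.PercT

theorem lab_of_arc {k : ℕ → ℕ} (hk : Monotone k) {j i : ℕ} (hj : j < 4)
    (h1 : k j ≤ i) (h2 : i < k (j + 1)) : LC.lab (k 1) (k 2) (k 3) i = j := by
  have c12 := hk (show 1 ≤ 2 by omega)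
  have c23 := hk (show 2 ≤ 3 by omega)
  have c01 := hk (show 0 ≤ 1 by omega)
  have hjc : j = 0 ∨ j = 1 ∨ j = 2 ∨ j = 3 := by omega
  unfold LC.lab
  rcases hjc with rfl | rfl | rfl | rfl
  · simp only [zero_add] at h2
    rw [if_pos h2]
  · simp only [Nat.reduceAdd] at h2
    rw [if_neg (by omega), if_pos h2]
  · simp only [Nat.reduceAdd] at h2
    rw [if_neg (by omega), if_neg (by omega), if_pos h2]
  · rw [if_neg (by omega), if_neg (by omega), if_neg (by omega)]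

theorem exists_arc_of {k : ℕ → ℕ} {m : ℕ} (k0 : k 0 = 0) (k4 : k 4 = m) {i : ℕ} (hi : i < m) :
    ∃ j < 4, k j ≤ i ∧ i < k (j + 1) := by
  by_cases h1 : i < k 1
  · exact ⟨0, by omega, by omega, h1⟩
  · by_cases h2 : i < k 2
    · exact ⟨1, by omega, by omega, h2⟩
    · by_cases h3 : i < k 3
      · exact ⟨2, by omega, by omega, h3⟩
      · exact ⟨3, by omega, by omega, by show i < k 4; omega⟩

/-- **The output of the order lemma is the hypothesis of Lemma C**, if all four arcs of the inner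
polygon are nonempty. -/
theorem ArcLink.apr {ι : Type*} {U P : Finset (ℤ × ℤ)} {κ : ℤ × ℤ → ι} {d : ℤ} {w : ℕ → ℤ × ℤ}
    {k : ℕ → ℕ} {m m₂ : ℕ} {w₂ : ℕ → ℤ × ℤ} {k₂ : ℕ → ℕ} {sg : ℕ → Finset (ℤ × ℤ)}
    (h : ArcLink U P κ d w k m₂ w₂ k₂ sg) (hU : Ctr (U : Set (ℤ × ℤ)) m w) (hPU : P ⊆ U)
    (k4 : k 4 = m) (hk : Monotone k) (hd : 0 ≤ d)
    (s1 : 0 < k₂ 1) (s2 : k₂ 1 < k₂ 2) (s3 : k₂ 2 < k₂ 3) (s4 : k₂ 3 < m₂) :
    LC.Apr U P m w (k 1) (k 2) (k 3) m₂ w₂ (k₂ 1) (k₂ 2) (k₂ 3) (d + 1)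
      (fun i => (sg i : Set (ℤ × ℤ))) := by
  refine
    { sub := hPU
      ctU := hU
      ctP := h.ctr
      k12 := hk (by omega)
      k23 := hk (by omega)
      k3m := by rw [← k4]; exact hk (by omega)
      l01 := s1
      l12 := s2
      l23 := s3
      l3m := s4
      d1 := by omega
      out := fun i hi f hf => h.sub i hi f (Finset.mem_coe.1 hf)
      near := ?_
      con := fun i hi f hf g hg => h.chn i hi f (Finset.mem_coe.1 hf) g (Finset.mem_coe.1 hg)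
      fin := ?_
      disj := ?_ }
  · intro i hi f hf
    have := h.box i hi f (Finset.mem_coe.1 hf)
    obtain ⟨h1, h2⟩ := this
    rw [abs_le] at h1 h2
    have e : f ∈ RFb (w₂ i) (d + 1) := mem_RFb.2 (by omega)
    exact e
  · intro i hi
    obtain ⟨j, hj, h1, h2⟩ := exists_arc_of h.k0 h.k4 hi
    obtain ⟨l, g1, g2, g3⟩ := h.link j hj i h1 h2
    have hlm : l < m := by
      have := hk (show j + 1 ≤ 4 by omega)
      omega
    have e1 := lab_of_arc hk hj g1 g2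
    have e2 := lab_of_arc h.mono hj h1 h2
    rcases g3 with ⟨g4, e, g5, g6⟩ | ⟨⟨f, hf, e, g5, g6⟩, f', hf', e', g7, g8⟩
    · left
      exact ⟨l, hlm, e1.trans e2.symm, e, g5, g6, by rw [g4]; simp⟩
    · right
      exact ⟨l, hlm, e1.trans e2.symm, ⟨f, Finset.mem_coe.2 hf, e, g5, g6⟩,
        f', Finset.mem_coe.2 hf', e', g7, g8⟩
  · intro i hi l hl hne f hf hf'
    obtain ⟨j, hj, h1, h2⟩ := exists_arc_of h.k0 h.k4 hi
    obtain ⟨j', hj', h1', h2'⟩ := exists_arc_of h.k0 h.k4 hl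
    have e1 := lab_of_arc h.mono hj h1 h2
    have e2 := lab_of_arc h.mono hj' h1' h2'
    have hjj : j ≠ j' := by
      intro hh
      apply hne
      rw [e1, e2, hh]
    exact Finset.disjoint_left.1 (h.disj j hj j' hj' hjj i h1 h2 l h1' h2') (Finset.mem_coe.1 hf)
      (Finset.mem_coe.1 hf')

/-- **The inner polygon approximates `U` in the sense of Lemma C.** -/
theorem apr_innerP {ι : Type*} {U : Finset (ℤ × ℤ)} {κ : ℤ × ℤ → ι} {f₀ : ℤ × ℤ} {m : ℕ}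
    {w : ℕ → ℤ × ℤ} (hU : Ctr (U : Set (ℤ × ℤ)) m w) (hesc : Esc (U : Set (ℤ × ℤ)))
    (hcell : ∀ x y, κ x = κ y → Chn {z | κ z = κ x} x y) {d : ℤ}
    (hdiam : ∀ x y, κ x = κ y → |x.1 - y.1| < d ∧ |x.2 - y.2| < d) (h0 : f₀ ∈ cellsIn U κ)
    {k : ℕ → ℕ} (k0 : k 0 = 0) (k4 : k 4 = m) (hk : Monotone k) :
    ∃ (m₂ : ℕ) (w₂ : ℕ → ℤ × ℤ) (k₂ : ℕ → ℕ) (sg : ℕ → Finset (ℤ × ℤ)),
      ArcLink U (innerP U κ f₀) κ d w k m₂ w₂ k₂ sg ∧
      (0 < k₂ 1 → k₂ 1 < k₂ 2 → k₂ 2 < k₂ 3 → k₂ 3 < m₂ →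
        LC.Apr U (innerP U κ f₀) m w (k 1) (k 2) (k 3) m₂ w₂ (k₂ 1) (k₂ 2) (k₂ 3) (d + 1)
          (fun i => (sg i : Set (ℤ × ℤ)))) := by
  obtain ⟨m₂, w₂, k₂, sg, h⟩ := exists_arcs_innerP (f₀ := f₀) hU hesc hcell hdiam h0 k0 k4 hk
  have hd : 0 ≤ d := by
    have := (hdiam f₀ f₀ rfl).1
    simp only [sub_self, abs_zero] at this
    omega
  exact ⟨m₂, w₂, k₂, sg, h, fun s1 s2 s3 s4 => h.apr hU innerP_sub k4 hk hd s1 s2 s3 s4⟩

end Pool.Agent.SixB
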