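import Pool.Agent.Lib.MP_6bd702_z.Z018

/-!
# Step 8: the abstract induction over coarse histories

* `Conv u`: the real sequence `u` converges;
* `conv_of_approx`: a sequence which is approximated up to every `ε` by convergent sequences
  converges;
* `chain_conv`: the induction. `p m d h n` is the probability (mesh `1 / n`) that the history after
  `m` moves, observed at scale `d`, is `h`. If, for every observation scale `d₀`, every history `h`
  after `m + 1` moves and every `ε > 0`, there is an observation scale `d` such that the probability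
  of `h` is, up to `ε`, the sum over the histories `h'` after `m` moves observed at scale `d` of
  `p m d h' n` times a convergent sequence, then all the probabilities converge;
* `pr_step`: the input of `chain_conv` from events: `A h'` depends on faces inside `K h'`, `S' h'` on
  faces outside, and the true event `S` differs from `S' h'` on `A h'` with small total probability.
-/

set_option autoImplicit false

namespace Pool.Agent.SixB

open Filter Topology Finset Pool.Agent.Perc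

/-- The sequence converges. -/
def Conv (u : ℕ → ℝ) : Prop := ∃ l : ℝ, Tendsto u atTop (𝓝 l)

theorem Conv.const (c : ℝ) : Conv fun _ => c := ⟨c, tendsto_const_nhds⟩

theorem Conv.add {u v : ℕ → ℝ} (hu : Conv u) (hv : Conv v) : Conv fun n => u n + v n := by
  obtain ⟨a, ha⟩ := hu
  obtain ⟨b, hb⟩ := hv
  exact ⟨a + b, ha.add hb⟩

theorem Conv.sub {u v : ℕ → ℝ} (hu : Conv u) (hv : Conv v) : Conv fun n => u n - v n := by
  obtain ⟨a, ha⟩ := hu
  obtain ⟨b, hb⟩ := hv
  exact ⟨a - b, ha.sub hb⟩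

theorem Conv.mul {u v : ℕ → ℝ} (hu : Conv u) (hv : Conv v) : Conv fun n => u n * v n := by
  obtain ⟨a, ha⟩ := hu
  obtain ⟨b, hb⟩ := hv
  exact ⟨a * b, ha.mul hb⟩

theorem Conv.const_mul {u : ℕ → ℝ} (c : ℝ) (hu : Conv u) : Conv fun n => c * u n := by
  obtain ⟨a, ha⟩ := hu
  exact ⟨c * a, ha.const_mul c⟩

theorem Conv.sum {ι : Type*} (s : Finset ι) {u : ι → ℕ → ℝ} (hu : ∀ i ∈ s, Conv (u i)) :
    Conv fun n => ∑ i ∈ s, u i n := by
  classical
  induction s using Finset.induction_on with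
  | empty => simpa using Conv.const 0
  | insert a s ha ih =>
    simp_rw [Finset.sum_insert ha]
    exact (hu a (mem_insert_self _ _)).add (ih fun i hi => hu i (mem_insert_of_mem hi))

theorem Conv.congr' {u v : ℕ → ℝ} (hu : Conv u) (h : ∀ᶠ n in atTop, u n = v n) : Conv v := by
  obtain ⟨a, ha⟩ := hu
  exact ⟨a, ha.congr' h⟩

theorem conv_of_approx {q : ℕ → ℝ}
    (h : ∀ ε : ℝ, 0 < ε → ∃ r : ℕ → ℝ, Conv r ∧ ∀ᶠ n in atTop, |q n - r n| ≤ ε) : Conv q := by
  have hc : CauchySeq q := by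
    rw [Metric.cauchySeq_iff']
    intro ε hε
    obtain ⟨r, ⟨l, hl⟩, hr⟩ := h (ε / 5) (by positivity)
    have h1 : ∀ᶠ n in atTop, |r n - l| ≤ ε / 5 := by
      have := (Metric.tendsto_nhds.1 hl) (ε / 5) (by positivity)
      filter_upwards [this] with n hn
      rw [Real.dist_eq] at hn
      exact hn.le
    obtain ⟨N, hN⟩ := eventually_atTop.1 (hr.and h1)
    refine ⟨N, fun n hn => ?_⟩
    have a1 := abs_le.1 (hN n hn).1
    have a2 := abs_le.1 (hN n hn).2
    have b1 := abs_le.1 (hN N le_rfl).1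
    have b2 := abs_le.1 (hN N le_rfl).2
    rw [Real.dist_eq, abs_lt]
    constructor <;> linarith [a1.1, a1.2, a2.1, a2.2, b1.1, b1.2, b2.1, b2.2]
  exact cauchySeq_tendsto_of_complete hc

/-- The induction over the number of moves: the past is observed at a finer scale. -/
theorem chain_conv {H : ℕ → ℕ → Type} [∀ m d, Fintype (H m d)]
    (p : (m d : ℕ) → H m d → ℕ → ℝ)
    (h0 : ∀ d h, Conv (p 0 d h))
    (hs : ∀ m, (∀ d h, Conv (p m d h)) → ∀ d₀ (h : H (m + 1) d₀), ∀ ε : ℝ, 0 < ε →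
      ∃ d, ∃ s : H m d → ℕ → ℝ, (∀ h', Conv (s h')) ∧
        ∀ᶠ n in atTop, |p (m + 1) d₀ h n - ∑ h' : H m d, p m d h' n * s h' n| ≤ ε) :
    ∀ m d h, Conv (p m d h) := by
  intro m
  induction m with
  | zero => exact h0
  | succ m ih =>
    intro d₀ h
    refine conv_of_approx fun ε hε => ?_
    obtain ⟨d, s, hs1, hs2⟩ := hs m ih d₀ h ε hε
    exact ⟨_, Conv.sum _ fun h' _ => (ih d h').mul (hs1 h'), hs2⟩

section Events

variable {ι : Type}

/-- Sum over disjoint events. -/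
theorem pr_sum_disjoint (W : Finset (ℤ × ℤ)) (I : Finset ι) (A : ι → Set Cfg) (B : Set Cfg)
    (hd : ∀ i ∈ I, ∀ j ∈ I, i ≠ j → ∀ ω, ω ∈ A i → ω ∉ A j) :
    ∑ i ∈ I, pr W (A i ∩ B) ≤ pr W B := by
  classical
  have h1 : ∑ i ∈ I, pr W (A i ∩ B) =
      (∑ T ∈ W.powerset, ((I.filter fun i => cfg T ∈ A i ∩ B).card : ℝ)) / 2 ^ W.card := by
    simp_rw [ProbA.pr_eq_sum]
    rw [← Finset.sum_div, Finset.sum_comm]
    congr 1
    refine Finset.sum_congr rfl fun T _ => ?_
    rw [Finset.card_filter]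
    push_cast
    exact Finset.sum_congr rfl fun i _ => by congr
  rw [h1, ProbA.pr_eq_sum]
  refine div_le_div_of_nonneg_right (Finset.sum_le_sum fun T _ => ?_) (by positivity)
  by_cases hT : cfg T ∈ B
  · rw [if_pos hT]
    have : (I.filter fun i => cfg T ∈ A i ∩ B).card ≤ 1 := by
      rw [Finset.card_le_one]
      intro i hi j hj
      by_contra hne
      rw [mem_filter] at hi hj
      exact hd i hi.1 j hj.1 hne _ hi.2.1 hj.2.1
    exact_mod_cast this
  · rw [if_neg hT]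
    have : (I.filter fun i => cfg T ∈ A i ∩ B) = ∅ := by
      rw [Finset.filter_eq_empty_iff]
      intro i _ h
      exact hT h.2
    rw [this]
    simp

theorem pr_inter_add_compl (W : Finset (ℤ × ℤ)) (A B : Set Cfg) :
    pr W A = pr W (A ∩ B) + pr W (A ∩ Bᶜ) := by
  classical
  rw [ProbA.pr_eq_sum, ProbA.pr_eq_sum, ProbA.pr_eq_sum, ← add_div, ← Finset.sum_add_distrib]
  congr 1
  refine Finset.sum_congr rfl fun T _ => ?_
  by_cases h1 : cfg T ∈ A <;> by_cases h2 : cfg T ∈ B <;>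
    simp [h1, h2, Set.mem_inter_iff, Set.mem_compl_iff]

/-- Total probability over a family of disjoint events which covers `S`. -/
theorem pr_total (W : Finset (ℤ × ℤ)) (I : Finset ι) (A : ι → Set Cfg) (S : Set Cfg)
    (hd : ∀ i ∈ I, ∀ j ∈ I, i ≠ j → ∀ ω, ω ∈ A i → ω ∉ A j)
    (hc : ∀ ω ∈ S, ∃ i ∈ I, ω ∈ A i) : pr W S = ∑ i ∈ I, pr W (A i ∩ S) := by
  classical
  have h1 : ∑ i ∈ I, pr W (A i ∩ S) =
      (∑ T ∈ W.powerset, ((I.filter fun i => cfg T ∈ A i ∩ S).card : ℝ)) / 2 ^ W.card := by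
    simp_rw [ProbA.pr_eq_sum]
    rw [← Finset.sum_div, Finset.sum_comm]
    congr 1
    refine Finset.sum_congr rfl fun T _ => ?_
    rw [Finset.card_filter]
    push_cast
    exact Finset.sum_congr rfl fun i _ => by congr
  rw [h1, ProbA.pr_eq_sum]
  congr 1
  refine Finset.sum_congr rfl fun T _ => ?_
  by_cases hT : cfg T ∈ S
  · rw [if_pos hT]
    obtain ⟨i, hi, hiA⟩ := hc _ hT
    have : (I.filter fun i => cfg T ∈ A i ∩ S) = {i} := by
      ext j
      rw [mem_filter, mem_singleton]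
      constructor
      · rintro ⟨hj, hjA⟩
        by_contra hne
        exact hd j hj i hi hne _ hjA.1 hiA
      · rintro rfl
        exact ⟨hi, hiA, hT⟩
    rw [this]
    simp
  · rw [if_neg hT]
    have : (I.filter fun i => cfg T ∈ A i ∩ S) = ∅ := by
      rw [Finset.filter_eq_empty_iff]
      intro i _ h
      exact hT h.2
    rw [this]
    simp

/-- The step from events: exact independence on the coarse grained past. `S` is the next event, it
is covered by the past events `A i`; `A i` depends on the faces of `K i`, the approximating event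
`S' i` on the faces of `K' i`, disjoint from `K i`. -/
theorem pr_step (W : Finset (ℤ × ℤ)) (I : Finset ι) (A S' : ι → Set Cfg) (S : Set Cfg)
    (K K' : ι → Finset (ℤ × ℤ)) (hK : ∀ i ∈ I, K i ⊆ W) (hK' : ∀ i ∈ I, K' i ⊆ W)
    (hKK : ∀ i ∈ I, Disjoint (K i) (K' i)) (hA : ∀ i ∈ I, DepOn (K i) (A i))
    (hS' : ∀ i ∈ I, DepOn (K' i) (S' i))
    (hd : ∀ i ∈ I, ∀ j ∈ I, i ≠ j → ∀ ω, ω ∈ A i → ω ∉ A j)
    (hc : ∀ ω ∈ S, ∃ i ∈ I, ω ∈ A i) {B : Set Cfg}
    (hB : ∀ i ∈ I, ∀ ω ∈ A i, (ω ∈ S ↔ ω ∈ S' i) ∨ ω ∈ B) :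
    |pr W S - ∑ i ∈ I, pr W (A i) * pr W (S' i)| ≤ pr W B := by
  classical
  have hind : ∀ i ∈ I, pr W (A i ∩ S' i) = pr W (A i) * pr W (S' i) := by
    intro i hi
    rw [PercD.pr_indep (hA i hi) (hS' i hi) (hKK i hi) (hK i hi) (hK' i hi),
      pr_eq_of_depOn (hA i hi) (hK i hi), pr_eq_of_depOn (hS' i hi) (hK' i hi)]
  rw [pr_total W I A S hd hc]
  have h1 : ∑ i ∈ I, pr W (A i) * pr W (S' i) = ∑ i ∈ I, pr W (A i ∩ S' i) :=
    Finset.sum_congr rfl fun i hi => (hind i hi).symm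
  rw [h1, ← Finset.sum_sub_distrib]
  refine (Finset.abs_sum_le_sum_abs _ _).trans ?_
  refine le_trans (Finset.sum_le_sum fun i hi => ?_) (pr_sum_disjoint W I A B hd)
  have e1 := pr_inter_add_compl W (A i ∩ S) B
  have e2 := pr_inter_add_compl W (A i ∩ S' i) B
  have e3 : pr W (A i ∩ S ∩ Bᶜ) = pr W (A i ∩ S' i ∩ Bᶜ) := by
    refine pr_congr fun T _ => ?_
    constructor
    · rintro ⟨⟨ha, hs⟩, hb⟩
      rcases hB i hi _ ha with h | h
      · exact ⟨⟨ha, h.1 hs⟩, hb⟩
      · exact absurd h hb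
    · rintro ⟨⟨ha, hs⟩, hb⟩
      rcases hB i hi _ ha with h | h
      · exact ⟨⟨ha, h.2 hs⟩, hb⟩
      · exact absurd h hb
  have l1 : pr W (A i ∩ S ∩ B) ≤ pr W (A i ∩ B) :=
    pr_mono W fun ω h => ⟨h.1.1, h.2⟩
  have l2 : pr W (A i ∩ S' i ∩ B) ≤ pr W (A i ∩ B) :=
    pr_mono W fun ω h => ⟨h.1.1, h.2⟩
  have n1 := pr_nonneg W (A i ∩ S ∩ B)
  have n2 := pr_nonneg W (A i ∩ S' i ∩ B)
  rw [e1, e2, e3, abs_le]
  constructor <;> linarith

end Events

end Pool.Agent.SixB
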