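import Pool.Agent.Lib.SixB.S8Cand
import Pool.Agent.Lib.SixB.S8Induct

/-!
# Step 8: the final theorem from the face grid

`claim1_of_faces`: the interface `claim1_of_scan` in terms of configurations of the face grid of the
box and convergent laws. The output is a function of the configuration of the faces of the box.
-/

set_option autoImplicit false

namespace Pool.Agent.SixB

open Set Filter Topology MeasureTheory TopologicalSpace
open Pool.Agent.Perc Pool.Agent.PercD
open Pool.Agent.PercX60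
open Pool.Agent.MP_6bd702.H23 (Ed ea eb)

/-- The configuration of the faces given by the open edges is the given set of edges. -/
theorem cfgE_gT {n : ℕ} {T : Finset Edg} (hT : T ⊆ boxE n) :
    cfgE n (Pool.Agent.PercX60.gT (T : Set Ed)) = T := by
  ext e
  rw [DictB.mem_cfgE, Pool.Agent.PercX60.gT_phiE]
  exact ⟨fun h => by exact_mod_cast h.2, fun h => ⟨hT h, by exact_mod_cast h⟩⟩

/-- The configuration of the faces is recovered in the box. -/
theorem gT_cfgE {n : ℕ} {ω : Cfg} {f : ℤ × ℤ} (hf : f ∈ Sn n) :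
    Pool.Agent.PercX60.gT (cfgE n ω : Set Ed) f = ω f := by
  obtain ⟨e, he, rfl⟩ := Finset.mem_image.1 hf
  have h1 := Pool.Agent.PercX60.gT_phiE (cfgE n ω : Set Ed) e
  rw [Finset.mem_coe, DictB.mem_cfgE] at h1
  by_cases h2 : ω (phiE e) = !e.2.2
  · rw [h2]
    exact h1.2 ⟨he, h2⟩
  · have h3 : ¬ (Pool.Agent.PercX60.gT (cfgE n ω : Set Ed) (phiE e) = !e.2.2) :=
      fun h => h2 (h1.1 h).2
    revert h2 h3
    cases ω (phiE e) <;> cases Pool.Agent.PercX60.gT (cfgE n ω : Set Ed) (phiE e) <;>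
      cases e.2.2 <;> simp

/-- The output is decided by the faces of the box. -/
def BoxOut {K : Type} (n : ℕ) (out : Cfg → K) : Prop :=
  ∀ ω ω' : Cfg, (∀ f ∈ Sn n, ω f = ω' f) → out ω = out ω'

/-- **Claim 1 from the face grid.** -/
theorem claim1_of_faces (h : ∀ ε : ℝ, 0 < ε → ∃ (K : Type) (_ : Fintype K) (F : K → Finset Curve)
      (out : ℕ → Cfg → K), (∀ n, BoxOut n (out n)) ∧
        (∀ k, Conv fun n => pr (Sn n) {ω | out n ω = k}) ∧
        ∀ᶠ n in atTop, pr (Sn n) {ω | ¬ GoodList n (cfgE n ω) ε (F (out n ω))} ≤ ε) :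
    ∃ μ : ProbabilityMeasure Curve, ∀ sel : ℕ → Finset Edg → ℤ × ℤ, (∀ n, IsSel n (sel n)) →
      Tendsto (fun n => lawP n (sel n)) atTop (𝓝 μ) := by
  refine claim1_of_scan fun ε hε => ?_
  obtain ⟨K, hK, F, out, hdep, hconv, hgood⟩ := h ε hε
  choose a ha using hconv
  have hlaw : ∀ (n : ℕ) (k : K), prB n {T : Finset Edg |
      out n (Pool.Agent.PercX60.gT (T : Set Ed)) = k} = pr (Sn n) {ω | out n ω = k} := by
    intro n k
    rw [← pr_Sn]
    congr 1
    ext ω
    simp only [mem_ofPred_eq]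
    rw [hdep n _ ω fun f hf => gT_cfgE hf]
  have hsum : Tendsto (fun n => ∑ k, |prB n {T : Finset Edg |
      out n (Pool.Agent.PercX60.gT (T : Set Ed)) = k} - a k|) atTop (𝓝 0) := by
    have h1 : ∀ k, Tendsto (fun n => |prB n {T : Finset Edg |
        out n (Pool.Agent.PercX60.gT (T : Set Ed)) = k} - a k|) atTop (𝓝 0) := by
      intro k
      simp only [hlaw]
      have h2 := ((ha k).sub_const (a k)).abs
      rwa [sub_self, abs_zero] at h2
    have h2 := tendsto_finsetSum Finset.univ fun k _ => h1 k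
    simpa using h2
  obtain ⟨N, hN⟩ := eventually_atTop.1 ((hsum.eventually (ge_mem_nhds hε)).and hgood)
  refine ⟨K, hK, F, fun n T => out n (Pool.Agent.PercX60.gT (T : Set Ed)), a, N, fun n hn => ?_⟩
  obtain ⟨h1, h2⟩ := hN n hn
  refine ⟨h1, ?_⟩
  rw [← pr_Sn]
  refine le_trans (le_of_eq ?_) h2
  congr 1
  ext ω
  simp only [mem_ofPred_eq]
  rw [hdep n _ ω fun f hf => gT_cfgE hf]

end Pool.Agent.SixB
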