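import Pool.Agent.Lib.SixB.S8Induct
import Pool.Agent.Lib.MP_6bd702_z.Z032

/-!
# Step 8: the chain of coarse moves, resolutions chosen backwards

The history after `m` moves is a list of data. The data number `m` is recorded at the resolution
`d m` and takes its values in the finite set `R m (d m)`. The error of the move `m + 1` is small if
the resolution `d m` of the past is fine enough, depending on `d (m + 1)`.

* `back_chain`: the laws of the histories are asymptotically constant, up to any error in `ℓ¹`;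
* `step_l1`: the step from events which depend on disjoint sets of faces, outside a bad event;
* `step_stop`: the step from the conditional probabilities after a stopping set.
-/

set_option autoImplicit false

namespace Pool.Agent.SixB

open Filter Topology Finset Pool.Agent.Perc

/-! ### Histories -/

/-- The history after `m` moves (the last datum first). -/
def histL {Ω A : Type*} (s : ℕ → Ω → A) : ℕ → Ω → List A
  | 0, ω => [s 0 ω]
  | m + 1, ω => s (m + 1) ω :: histL s m ω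

/-- The possible histories. -/
def histS {A : Type*} [DecidableEq A] (R : ℕ → Finset A) : ℕ → Finset (List A)
  | 0 => (R 0).image fun a => [a]
  | m + 1 => (R (m + 1) ×ˢ histS R m).image fun p => p.1 :: p.2

theorem histL_mem {Ω A : Type*} [DecidableEq A] {s : ℕ → Ω → A} {R : ℕ → Finset A} {m : ℕ}
    {ω : Ω} (h : ∀ i ≤ m, s i ω ∈ R i) : histL s m ω ∈ histS R m := by
  induction m with
  | zero => exact mem_image_of_mem _ (h 0 le_rfl)
  | succ m ih =>
    exact mem_image_of_mem (fun p : A × List A => p.1 :: p.2)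
      (mem_product.2 ⟨h (m + 1) le_rfl, ih fun i hi => h i (by omega)⟩ :
        (s (m + 1) ω, histL s m ω) ∈ R (m + 1) ×ˢ histS R m)

theorem sum_histS_zero {A : Type*} [DecidableEq A] (R : ℕ → Finset A) (f : List A → ℝ) :
    ∑ x ∈ histS R 0, f x = ∑ a ∈ R 0, f [a] := by
  rw [histS, sum_image]
  intro a _ b _ hab
  simpa using hab

theorem sum_histS_succ {A : Type*} [DecidableEq A] (R : ℕ → Finset A) (m : ℕ) (f : List A → ℝ) :
    ∑ x ∈ histS R (m + 1), f x = ∑ x ∈ histS R m, ∑ a ∈ R (m + 1), f (a :: x) := by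
  rw [histS, sum_image, sum_product_right]
  rintro ⟨a, x⟩ _ ⟨b, y⟩ _ h
  simp only [List.cons.injEq] at h
  exact Prod.ext h.1 h.2

theorem length_of_mem_histS {A : Type*} [DecidableEq A] {R : ℕ → Finset A} {m : ℕ} {x : List A}
    (h : x ∈ histS R m) : x.length = m + 1 := by
  induction m generalizing x with
  | zero =>
    obtain ⟨a, _, rfl⟩ := mem_image.1 h
    rfl
  | succ m ih =>
    obtain ⟨⟨a, y⟩, hy, rfl⟩ := mem_image.1 h
    rw [List.length_cons, ih (mem_product.1 hy).2]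

/-! ### The choice of the resolutions -/

/-- Resolutions chosen backwards from `d N = ℓ`, with target errors `e m`. -/
theorem exists_levels (L : ℕ → ℕ → ℝ → ℕ) (M : ℕ → ℕ → ℕ) (N ℓ : ℕ) {η : ℝ} (hη : 0 < η) :
    ∃ (d : ℕ → ℕ) (e : ℕ → ℝ), d N = ℓ ∧ e N = η ∧ (∀ m ≤ N, 0 < e m) ∧
      ∀ m < N, L m (d (m + 1)) (e m) ≤ d m ∧
        e m = e (m + 1) / (4 * (M (m + 1) (d (m + 1)) + 1)) := by
  -- the pair number `k` is for the index `N - k`
  let f : ℕ → ℕ × ℝ := fun k => Nat.rec (ℓ, η)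
    (fun k p => (L (N - (k + 1)) p.1 (p.2 / (4 * (M (N - k) p.1 + 1))),
      p.2 / (4 * (M (N - k) p.1 + 1)))) k
  have f0 : f 0 = (ℓ, η) := rfl
  have fs : ∀ k, f (k + 1) = (L (N - (k + 1)) (f k).1 ((f k).2 / (4 * (M (N - k) (f k).1 + 1))),
      (f k).2 / (4 * (M (N - k) (f k).1 + 1))) := fun k => rfl
  have fpos : ∀ k, 0 < (f k).2 := by
    intro k
    induction k with
    | zero => exact hη
    | succ k ih =>
      rw [fs]
      positivity
  refine ⟨fun m => (f (N - m)).1, fun m => (f (N - m)).2, by simp [f0], by simp [f0],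
    fun m _ => fpos _, fun m hm => ?_⟩
  have e1 : N - m = (N - (m + 1)) + 1 := by omega
  have e2 : N - (N - (m + 1) + 1) = m := by omega
  have e3 : N - (N - (m + 1)) = m + 1 := by omega
  have h := fs (N - (m + 1))
  rw [e2, e3, ← e1] at h
  have h2 : (f (N - m)).2 = (f (N - (m + 1))).2 / (4 * (M (m + 1) (f (N - (m + 1))).1 + 1)) := by
    rw [h]
  have h1 : (f (N - m)).1 = L m (f (N - (m + 1))).1 (f (N - m)).2 := by
    rw [h2, h]
  exact ⟨h1.ge, h2⟩

/-! ### The chain -/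

/-- The error of one step. -/
theorem step_error {A : Type*} [DecidableEq A] (R : ℕ → Finset A) (m : ℕ)
    (p p' : List A → ℕ → ℝ) (q : List A → A → ℕ → ℝ) {E η : ℝ} (hη : 0 < η)
    (hq : ∀ x ∈ histS R m, ∀ a ∈ R (m + 1), Conv (q x a))
    (hq1 : ∀ x ∈ histS R m, ∀ a ∈ R (m + 1), ∀ n, |q x a n| ≤ 1)
    (hs : ∀ᶠ n in atTop, ∑ x ∈ histS R m, ∑ a ∈ R (m + 1),
      |p' (a :: x) n - p x n * q x a n| ≤ η)
    (hE : ∃ α : List A → ℝ, ∀ᶠ n in atTop, ∑ x ∈ histS R m, |p x n - α x| ≤ E) :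
    ∃ α : List A → ℝ, ∀ᶠ n in atTop, ∑ x ∈ histS R (m + 1), |p' x n - α x| ≤
      η + (R (m + 1)).card * E + η := by
  obtain ⟨α, hα⟩ := hE
  choose! β hβ using hq
  refine ⟨fun x => match x with
    | [] => 0
    | a :: x => α x * β x a, ?_⟩
  have h1 : ∀ᶠ n in atTop, ∑ x ∈ histS R m, ∑ a ∈ R (m + 1), |α x| * |q x a n - β x a| ≤ η := by
    have h2 : Tendsto (fun n => ∑ x ∈ histS R m, ∑ a ∈ R (m + 1), |α x| * |q x a n - β x a|)
        atTop (𝓝 (∑ x ∈ histS R m, ∑ a ∈ R (m + 1), |α x| * |β x a - β x a|)) :=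
      tendsto_finsetSum _ fun x hx => tendsto_finsetSum _ fun a ha =>
        (((hβ x hx a ha).sub_const _).abs).const_mul _
    have h3 : ∑ x ∈ histS R m, ∑ a ∈ R (m + 1), |α x| * |β x a - β x a| = 0 := by
      simp
    rw [h3] at h2
    filter_upwards [h2.eventually (gt_mem_nhds hη)] with n hn using hn.le
  filter_upwards [hs, hα, h1] with n h2 h3 h4
  rw [sum_histS_succ]
  have key : ∀ x ∈ histS R m, ∀ a ∈ R (m + 1), |p' (a :: x) n - α x * β x a| ≤
      |p' (a :: x) n - p x n * q x a n| + |p x n - α x| + |α x| * |q x a n - β x a| := by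
    intro x hx a ha
    have e1 : p' (a :: x) n - α x * β x a = (p' (a :: x) n - p x n * q x a n) +
        (p x n - α x) * q x a n + α x * (q x a n - β x a) := by ring
    rw [e1]
    refine (abs_add_three _ _ _).trans ?_
    rw [abs_mul, abs_mul]
    have := mul_le_mul_of_nonneg_left (hq1 x hx a ha n) (abs_nonneg (p x n - α x))
    rw [mul_one] at this
    linarith
  calc ∑ x ∈ histS R m, ∑ a ∈ R (m + 1), |p' (a :: x) n - α x * β x a|
      ≤ ∑ x ∈ histS R m, ∑ a ∈ R (m + 1), (|p' (a :: x) n - p x n * q x a n| + |p x n - α x| +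
        |α x| * |q x a n - β x a|) := sum_le_sum fun x hx => sum_le_sum fun a ha => key x hx a ha
    _ = (∑ x ∈ histS R m, ∑ a ∈ R (m + 1), |p' (a :: x) n - p x n * q x a n|) +
        (R (m + 1)).card * (∑ x ∈ histS R m, |p x n - α x|) +
        ∑ x ∈ histS R m, ∑ a ∈ R (m + 1), |α x| * |q x a n - β x a| := by
      simp_rw [sum_add_distrib, sum_const, nsmul_eq_mul, mul_sum]
    _ ≤ _ := by
      have := mul_le_mul_of_nonneg_left h3 (Nat.cast_nonneg (α := ℝ) (R (m + 1)).card)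
      linarith

/-- **The chain with the resolutions chosen backwards.** `p d m x n` is the probability (mesh
`1 / n`) that the history after `m` moves is `x`, when the data are recorded at the resolutions `d`.
The move `m + 1` at the resolution `ℓ` has error at most `η` if the resolution `d m` of the previous
datum is at least `L`, uniformly in the finer resolutions of the earlier data. -/
theorem back_chain {A : Type*} [DecidableEq A] (R : ℕ → ℕ → Finset A) (G : ℕ → ℕ → ℕ)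
    (p : (ℕ → ℕ) → ℕ → List A → ℕ → ℝ)
    (h0 : ∀ d : ℕ → ℕ, ∀ a ∈ R 0 (d 0), Conv (p d 0 [a]))
    (hs : ∀ (m ℓ : ℕ) (η : ℝ), 0 < η → ∃ L : ℕ, ∀ d : ℕ → ℕ, d (m + 1) = ℓ → L ≤ d m →
      (∀ i ≤ m, G i (d (i + 1)) ≤ d i) → ∃ q : List A → A → ℕ → ℝ,
        (∀ x ∈ histS (fun i => R i (d i)) m, ∀ a ∈ R (m + 1) (d (m + 1)), Conv (q x a)) ∧
        (∀ x ∈ histS (fun i => R i (d i)) m, ∀ a ∈ R (m + 1) (d (m + 1)), ∀ n, |q x a n| ≤ 1) ∧
        ∀ᶠ n in atTop, ∑ x ∈ histS (fun i => R i (d i)) m, ∑ a ∈ R (m + 1) (d (m + 1)),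
          |p d (m + 1) (a :: x) n - p d m x n * q x a n| ≤ η)
    (N ℓ : ℕ) {η : ℝ} (hη : 0 < η) :
    ∃ d : ℕ → ℕ, d N = ℓ ∧ (∀ i < N, G i (d (i + 1)) ≤ d i) ∧ ∃ α : List A → ℝ,
      ∀ᶠ n in atTop, ∑ x ∈ histS (fun i => R i (d i)) N, |p d N x n - α x| ≤ η := by
  choose! L hL using hs
  obtain ⟨d, e, hdN, heN, hpos, hd⟩ := exists_levels (fun m ℓ η => max (L m ℓ η) (G m ℓ))
    (fun m ℓ => (R m ℓ).card) N ℓ hη
  have hG : ∀ i < N, G i (d (i + 1)) ≤ d i := fun i hi => (le_max_right _ _).trans (hd i hi).1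
  refine ⟨d, hdN, hG, ?_⟩
  have main : ∀ m ≤ N, ∃ α : List A → ℝ, ∀ᶠ n in atTop,
      ∑ x ∈ histS (fun i => R i (d i)) m, |p d m x n - α x| ≤ e m := by
    intro m
    induction m with
    | zero =>
      intro _
      have h1 := h0 d
      choose! β hβ using h1
      refine ⟨fun x => match x with
        | [] => 0
        | a :: _ => β a, ?_⟩
      have h2 : Tendsto (fun n => ∑ a ∈ R 0 (d 0), |p d 0 [a] n - β a|)
          atTop (𝓝 (∑ a ∈ R 0 (d 0), |β a - β a|)) :=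
        tendsto_finsetSum _ fun a ha => ((hβ a ha).sub_const _).abs
      have h3 : ∑ a ∈ R 0 (d 0), |β a - β a| = 0 := by simp
      rw [h3] at h2
      filter_upwards [h2.eventually (gt_mem_nhds (hpos 0 (Nat.zero_le _)))] with n hn
      rw [sum_histS_zero]
      exact hn.le
    | succ m ih =>
      intro hm
      obtain ⟨hd1, hd2⟩ := hd m (by omega)
      have hem := hpos m (by omega)
      have hem' := hpos (m + 1) hm
      obtain ⟨q, q1, q2, q3⟩ := hL m (d (m + 1)) (e m) hem d rfl ((le_max_left _ _).trans hd1)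
        fun i hi => hG i (by omega)
      obtain ⟨α, hα⟩ := step_error (fun i => R i (d i)) m (p d m) (p d (m + 1)) q hem q1 q2 q3
        (ih (by omega))
      refine ⟨α, ?_⟩
      filter_upwards [hα] with n hn
      refine hn.trans ?_
      have hC : (0 : ℝ) ≤ (R (m + 1) (d (m + 1))).card := Nat.cast_nonneg _
      have h4 : e (m + 1) = e m * (4 * ((R (m + 1) (d (m + 1))).card + 1)) := by
        rw [hd2]
        field_simp
      rw [h4]
      nlinarith [mul_nonneg hC hem.le]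
  obtain ⟨α, hα⟩ := main N le_rfl
  rw [heN] at hα
  exact ⟨α, hα⟩

/-! ### The step from events -/

section Step

variable {H A : Type*}

/-- One event, one value of the past. -/
theorem pr_step_one (W : Finset (ℤ × ℤ)) (X S S' B : Set Cfg)
    (hB : ∀ ω ∈ X, ω ∉ B → (ω ∈ S ↔ ω ∈ S')) :
    |pr W (X ∩ S) - pr W (X ∩ S')| ≤ pr W (X ∩ B) := by
  have e1 := pr_inter_add_compl W (X ∩ S) B
  have e2 := pr_inter_add_compl W (X ∩ S') B
  have e3 : pr W (X ∩ S ∩ Bᶜ) = pr W (X ∩ S' ∩ Bᶜ) := by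
    refine pr_congr fun T _ => ?_
    constructor
    · rintro ⟨⟨ha, hs⟩, hb⟩
      exact ⟨⟨ha, (hB _ ha hb).1 hs⟩, hb⟩
    · rintro ⟨⟨ha, hs⟩, hb⟩
      exact ⟨⟨ha, (hB _ ha hb).2 hs⟩, hb⟩
  have l1 : pr W (X ∩ S ∩ B) ≤ pr W (X ∩ B) := pr_mono W fun ω h => ⟨h.1.1, h.2⟩
  have l2 : pr W (X ∩ S' ∩ B) ≤ pr W (X ∩ B) := pr_mono W fun ω h => ⟨h.1.1, h.2⟩
  have n1 := pr_nonneg W (X ∩ S ∩ B)
  have n2 := pr_nonneg W (X ∩ S' ∩ B)
  rw [e1, e2, e3, abs_le]
  constructor <;> linarith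

/-- The values of a function are disjoint events. -/
theorem sum_pr_val_le (W : Finset (ℤ × ℤ)) (I : Finset H) (h : Cfg → H) (B : Set Cfg) :
    ∑ x ∈ I, pr W ({ω | h ω = x} ∩ B) ≤ pr W B := by
  classical
  have h1 : ∑ x ∈ I, pr W ({ω | h ω = x} ∩ B) =
      (∑ T ∈ W.powerset, ((I.filter fun x => cfg T ∈ {ω | h ω = x} ∩ B).card : ℝ)) /
        2 ^ W.card := by
    simp_rw [ProbA.pr_eq_sum]
    rw [← Finset.sum_div, Finset.sum_comm]
    congr 1
    refine Finset.sum_congr rfl fun T _ => ?_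
    rw [Finset.card_filter]
    push_cast
    exact Finset.sum_congr rfl fun i _ => by congr
  rw [h1, ProbA.pr_eq_sum]
  refine div_le_div_of_nonneg_right (Finset.sum_le_sum fun T _ => ?_) (by positivity)
  by_cases hT : cfg T ∈ B
  · rw [if_pos hT]
    have : (I.filter fun x => cfg T ∈ {ω | h ω = x} ∩ B).card ≤ 1 := by
      rw [Finset.card_le_one]
      intro i hi j hj
      rw [mem_filter] at hi hj
      exact hi.2.1.symm.trans hj.2.1
    exact_mod_cast this
  · rw [if_neg hT]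
    have : (I.filter fun x => cfg T ∈ {ω | h ω = x} ∩ B) = ∅ := by
      rw [Finset.filter_eq_empty_iff]
      intro i _ h
      exact hT h.2
    rw [this]
    simp

/-- **The step from events.** `h` is the history, `t` the next datum. Given the history `x` the next
datum is `a` exactly on the event `S' x a`, outside the bad event `B`; the event `h = x` depends on
the faces of `K x`, the events `S' x a` on the faces of `K' x`, disjoint from `K x`. -/
theorem step_l1 (W : Finset (ℤ × ℤ)) (I : Finset H) (J : Finset A) (h : Cfg → H) (t : Cfg → A)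
    (S' : H → A → Set Cfg) (K K' : H → Finset (ℤ × ℤ)) (hK : ∀ x ∈ I, K x ⊆ W)
    (hK' : ∀ x ∈ I, K' x ⊆ W) (hKK : ∀ x ∈ I, Disjoint (K x) (K' x))
    (hA : ∀ x ∈ I, DepOn (K x) {ω | h ω = x})
    (hS' : ∀ x ∈ I, ∀ a ∈ J, DepOn (K' x) (S' x a)) {B : Set Cfg}
    (hB : ∀ x ∈ I, ∀ a ∈ J, ∀ ω, h ω = x → ω ∉ B → (t ω = a ↔ ω ∈ S' x a)) :
    ∑ x ∈ I, ∑ a ∈ J, |pr W {ω | h ω = x ∧ t ω = a} - pr W {ω | h ω = x} * pr W (S' x a)| ≤
      J.card * pr W B := by
  have key : ∀ x ∈ I, ∀ a ∈ J,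
      |pr W {ω | h ω = x ∧ t ω = a} - pr W {ω | h ω = x} * pr W (S' x a)| ≤
        pr W ({ω | h ω = x} ∩ B) := by
    intro x hx a ha
    have hind : pr W ({ω | h ω = x} ∩ S' x a) = pr W {ω | h ω = x} * pr W (S' x a) := by
      rw [PercD.pr_indep (hA x hx) (hS' x hx a ha) (hKK x hx) (hK x hx) (hK' x hx),
        pr_eq_of_depOn (hA x hx) (hK x hx), pr_eq_of_depOn (hS' x hx a ha) (hK' x hx)]
    rw [← hind]
    exact pr_step_one W {ω | h ω = x} {ω | t ω = a} (S' x a) B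
      fun ω hω hb => hB x hx a ha ω hω hb
  calc ∑ x ∈ I, ∑ a ∈ J, |pr W {ω | h ω = x ∧ t ω = a} - pr W {ω | h ω = x} * pr W (S' x a)|
      ≤ ∑ x ∈ I, ∑ _a ∈ J, pr W ({ω | h ω = x} ∩ B) :=
        sum_le_sum fun x hx => sum_le_sum fun a ha => key x hx a ha
    _ = J.card * ∑ x ∈ I, pr W ({ω | h ω = x} ∩ B) := by
        simp_rw [sum_const, nsmul_eq_mul, mul_sum]
    _ ≤ J.card * pr W B :=
        mul_le_mul_of_nonneg_left (sum_pr_val_le W I h B) (Nat.cast_nonneg _)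

/-- Two sided form of `pr_mix_le`: an event whose conditional probability, given the configuration on
the stopping set, is `q` up to `η`. -/
theorem abs_pr_mix_le {W : Finset (ℤ × ℤ)} {S : Cfg → Set (ℤ × ℤ)}
    (hS : ∀ ω ω' : Cfg, (∀ f ∈ S ω, ω f = ω' f) → S ω' = S ω)
    {X : Set Cfg} (hX : ∀ ω ∈ X, ∀ ω' : Cfg, (∀ f ∈ S ω, ω f = ω' f) → ω' ∈ X)
    (Y : Set Cfg) {q η : ℝ}
    (hq : ∀ ω ∈ X, |pr W {ξ | PercT.mix (S ω) ω ξ ∈ Y} - q| ≤ η) :
    |pr W (X ∩ Y) - q * pr W X| ≤ η * pr W X := by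
  have h1 : pr W (X ∩ Y) ≤ (q + η) * pr W X :=
    PercT.pr_mix_le hS hX (fun ω => {ξ | PercT.mix (S ω) ω ξ ∈ Y}) Y
      (fun ω hω => by linarith [(abs_le.1 (hq ω hω)).2]) fun ω _ ξ h => h
  have h2 : pr W (X ∩ Yᶜ) ≤ (1 - q + η) * pr W X :=
    PercT.pr_mix_le hS hX (fun ω => {ξ | PercT.mix (S ω) ω ξ ∈ Y}ᶜ) Yᶜ
      (fun ω hω => by
        rw [pr_compl]
        linarith [(abs_le.1 (hq ω hω)).1]) fun ω _ ξ h => h
  have h3 := pr_inter_add_compl W X Y
  rw [abs_le]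
  constructor <;> nlinarith

/-- **The step from conditional probabilities.** `S` is a stopping set which decides the history `h`
and the bad event `B`. For every past outside of `B` with history `x` the conditional probability
that the next datum is `a` is `q x a` up to `η`. -/
theorem step_stop (W : Finset (ℤ × ℤ)) (I : Finset H) (J : Finset A) (h : Cfg → H) (t : Cfg → A)
    {S : Cfg → Set (ℤ × ℤ)} (hS : ∀ ω ω' : Cfg, (∀ f ∈ S ω, ω f = ω' f) → S ω' = S ω)
    (hh : ∀ ω ω' : Cfg, (∀ f ∈ S ω, ω f = ω' f) → h ω' = h ω) {B : Set Cfg}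
    (hB : ∀ ω ω' : Cfg, (∀ f ∈ S ω, ω f = ω' f) → (ω ∈ B ↔ ω' ∈ B))
    (q : H → A → ℝ) {η : ℝ} (hη : 0 ≤ η) (hq1 : ∀ x ∈ I, ∀ a ∈ J, |q x a| ≤ 1)
    (hq : ∀ x ∈ I, ∀ a ∈ J, ∀ ω, h ω = x → ω ∉ B →
      |pr W {ξ | t (PercT.mix (S ω) ω ξ) = a} - q x a| ≤ η) :
    ∑ x ∈ I, ∑ a ∈ J, |pr W {ω | h ω = x ∧ t ω = a} - pr W {ω | h ω = x} * q x a| ≤
      J.card * (η + 2 * pr W B) := by
  have key : ∀ x ∈ I, ∀ a ∈ J,
      |pr W {ω | h ω = x ∧ t ω = a} - pr W {ω | h ω = x} * q x a| ≤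
        η * pr W {ω | h ω = x} + 2 * pr W ({ω | h ω = x} ∩ B) := by
    intro x hx a ha
    have e1 := pr_inter_add_compl W ({ω | h ω = x} ∩ {ω | t ω = a}) Bᶜ
    have e2 := pr_inter_add_compl W {ω | h ω = x} Bᶜ
    rw [compl_compl] at e1 e2
    have h1 : |pr W (({ω | h ω = x} ∩ Bᶜ) ∩ {ω | t ω = a}) -
        q x a * pr W ({ω | h ω = x} ∩ Bᶜ)| ≤ η * pr W ({ω | h ω = x} ∩ Bᶜ) := by
      refine abs_pr_mix_le hS ?_ {ω | t ω = a} fun ω hω => hq x hx a ha ω hω.1 hω.2
      rintro ω ⟨h1, h2⟩ ω' hag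
      exact ⟨(hh ω ω' hag).trans h1, fun h3 => h2 ((hB ω ω' hag).2 h3)⟩
    have h2 : ({ω | h ω = x} ∩ Bᶜ) ∩ {ω | t ω = a} = ({ω | h ω = x} ∩ {ω | t ω = a}) ∩ Bᶜ := by
      ext ω
      simp only [Set.mem_inter_iff, Set.mem_ofPred_eq]
      tauto
    rw [h2] at h1
    have h3 : pr W (({ω | h ω = x} ∩ {ω | t ω = a}) ∩ B) ≤ pr W ({ω | h ω = x} ∩ B) :=
      pr_mono W fun ω hω => ⟨hω.1.1, hω.2⟩
    have n1 := pr_nonneg W (({ω | h ω = x} ∩ {ω | t ω = a}) ∩ B)
    have n2 := pr_nonneg W ({ω | h ω = x} ∩ B)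
    have n3 := pr_nonneg W ({ω | h ω = x} ∩ Bᶜ)
    have h4 : {ω | h ω = x ∧ t ω = a} = {ω | h ω = x} ∩ {ω | t ω = a} := rfl
    obtain ⟨q1, q2⟩ := abs_le.1 (hq1 x hx a ha)
    obtain ⟨g1, g2⟩ := abs_le.1 h1
    have h5 : η * pr W ({ω | h ω = x} ∩ Bᶜ) ≤ η * pr W {ω | h ω = x} :=
      mul_le_mul_of_nonneg_left (pr_mono W fun ω hω => hω.1) hη
    rw [h4, e1, abs_le]
    have h6 : pr W {ω | h ω = x} * q x a =
        q x a * pr W ({ω | h ω = x} ∩ Bᶜ) + q x a * pr W ({ω | h ω = x} ∩ B) := by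
      rw [e2]; ring
    rw [h6]
    constructor <;> nlinarith
  calc ∑ x ∈ I, ∑ a ∈ J, |pr W {ω | h ω = x ∧ t ω = a} - pr W {ω | h ω = x} * q x a|
      ≤ ∑ x ∈ I, ∑ _a ∈ J, (η * pr W {ω | h ω = x} + 2 * pr W ({ω | h ω = x} ∩ B)) :=
        sum_le_sum fun x hx => sum_le_sum fun a ha => key x hx a ha
    _ = J.card * (η * (∑ x ∈ I, pr W {ω | h ω = x}) +
          2 * ∑ x ∈ I, pr W ({ω | h ω = x} ∩ B)) := by
        simp_rw [sum_const, nsmul_eq_mul, mul_add, sum_add_distrib, mul_sum]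
    _ ≤ J.card * (η + 2 * pr W B) := by
        refine mul_le_mul_of_nonneg_left ?_ (Nat.cast_nonneg _)
        have h1 := sum_pr_val_le W I h B
        have h2 := sum_pr_val_le W I h Set.univ
        simp only [Set.inter_univ] at h2
        have h3 := pr_le_one W Set.univ
        have h4 := mul_le_mul_of_nonneg_left (h2.trans h3) hη
        linarith

end Step

end Pool.Agent.SixB
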