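import Pool.Agent.Lib.SixB.S8Back

/-!
# Step 8: the chain of moves from conditional laws outside of bad pasts

`back_chain_stop`: the data number `m` are decided by the stopping sets `S d n m`; `Bd d n m` is the bad
event of the stage `m`. If the bad event of the stage `m` has small probability when the resolution `d m`
is fine compared with `d (m + 1)`, uniformly in the finer resolutions `d i`, `i < m`, and the
conditional law of the next datum is close to a convergent law when none of the bad events up to the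
stage `m` takes place, then the laws of the histories are asymptotically constant.
-/

set_option autoImplicit false

namespace Pool.Agent.SixB

open Filter Topology Finset Pool.Agent.Perc

theorem histL_congr {Ω A : Type*} {s : ℕ → Ω → A} {m : ℕ} {ω ω' : Ω}
    (h : ∀ i ≤ m, s i ω' = s i ω) : histL s m ω' = histL s m ω := by
  induction m with
  | zero =>
    simp only [histL]
    rw [h 0 le_rfl]
  | succ m ih =>
    simp only [histL]
    rw [h (m + 1) le_rfl, ih fun i hi => h i (by omega)]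

theorem pr_biUnion_le (W : Finset (ℤ × ℤ)) (B : ℕ → Set Cfg) (e : ℕ → ℝ) (m : ℕ)
    (h : ∀ i < m, pr W (B i) ≤ e i) : pr W {ω | ∃ i < m, ω ∈ B i} ≤ ∑ i ∈ range m, e i := by
  induction m with
  | zero =>
    simp only [Nat.not_lt_zero, false_and, exists_false, range_zero, sum_empty]
    exact (pr_mono W (fun ω h => h)).trans (by
      have : pr W {_ω : Cfg | False} = 0 := by
        rw [ProbA.pr_eq_sum]
        simp
      exact this.le)
  | succ m ih =>
    rw [sum_range_succ]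
    have h1 : {ω | ∃ i < m + 1, ω ∈ B i} ⊆ {ω | ∃ i < m, ω ∈ B i} ∪ B m := by
      rintro ω ⟨i, hi, hω⟩
      rcases Nat.lt_succ_iff_lt_or_eq.1 hi with h2 | rfl
      · exact Or.inl ⟨i, h2, hω⟩
      · exact Or.inr hω
    exact (pr_mono W h1).trans ((pr_union_le W _ _).trans
      (add_le_add (ih fun i hi => h i (by omega)) (h m (by omega))))

/-- **The chain of moves.** -/
theorem back_chain_stop {A : Type*} [DecidableEq A] (W : ℕ → Finset (ℤ × ℤ))
    (R : ℕ → ℕ → Finset A) (G : ℕ → ℕ → ℕ) (s : (ℕ → ℕ) → ℕ → ℕ → Cfg → A)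
    (S : (ℕ → ℕ) → ℕ → ℕ → Cfg → Set (ℤ × ℤ)) (Bd : (ℕ → ℕ) → ℕ → ℕ → Set Cfg)
    (hS : ∀ d n m ω ω', (∀ f ∈ S d n m ω, ω f = ω' f) → S d n m ω' = S d n m ω)
    (hsd : ∀ d n m i, i ≤ m → ∀ ω ω', (∀ f ∈ S d n m ω, ω f = ω' f) → s d n i ω' = s d n i ω)
    (hBd : ∀ d n m i, i ≤ m → ∀ ω ω', (∀ f ∈ S d n m ω, ω f = ω' f) →
      (ω ∈ Bd d n i ↔ ω' ∈ Bd d n i))
    (h0 : ∀ d : ℕ → ℕ, ∀ a ∈ R 0 (d 0), Conv fun n => pr (W n) {ω | s d n 0 ω = a})
    (hb : ∀ (m ℓ : ℕ) (η : ℝ), 0 < η → ∃ L : ℕ, ∀ d : ℕ → ℕ, d (m + 1) = ℓ → L ≤ d m →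
      (∀ i ≤ m, G i (d (i + 1)) ≤ d i) → ∀ᶠ n in atTop, pr (W n) (Bd d n m) ≤ η)
    (hc : ∀ (m ℓ : ℕ) (η : ℝ), 0 < η → ∃ L : ℕ, ∀ d : ℕ → ℕ, d (m + 1) = ℓ → L ≤ d m →
      (∀ i ≤ m, G i (d (i + 1)) ≤ d i) → ∃ q : List A → A → ℕ → ℝ,
        (∀ x ∈ histS (fun i => R i (d i)) m, ∀ a ∈ R (m + 1) (d (m + 1)), Conv (q x a)) ∧
        (∀ x ∈ histS (fun i => R i (d i)) m, ∀ a ∈ R (m + 1) (d (m + 1)), ∀ n, |q x a n| ≤ 1) ∧
        ∀ᶠ n in atTop, ∀ x ∈ histS (fun i => R i (d i)) m, ∀ a ∈ R (m + 1) (d (m + 1)), ∀ ω,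
          histL (s d n) m ω = x → (∀ i ≤ m, ω ∉ Bd d n i) →
          |pr (W n) {ξ | s d n (m + 1) (PercT.mix (S d n m ω) ω ξ) = a} - q x a n| ≤ η)
    (N ℓ : ℕ) {η : ℝ} (hη : 0 < η) :
    ∃ d : ℕ → ℕ, d N = ℓ ∧ (∀ i < N, G i (d (i + 1)) ≤ d i) ∧
      (∀ i < N, ∀ᶠ n in atTop, pr (W n) (Bd d n i) ≤ η) ∧ ∃ α : List A → ℝ,
      ∀ᶠ n in atTop, ∑ x ∈ histS (fun i => R i (d i)) N,
        |pr (W n) {ω | histL (s d n) N ω = x} - α x| ≤ η := by
  choose! Lb hLb using hb
  -- the growth condition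
  set G' : ℕ → ℕ → ℕ := fun i k => max (max (G i k) k)
    (max (Lb i k ((1 / 2 : ℝ) ^ k)) (Lb i k η)) with hG'
  have hG'1 : ∀ i k, G i k ≤ G' i k := fun i k => (le_max_left _ _).trans (le_max_left _ _)
  have hG'2 : ∀ i k, k ≤ G' i k := fun i k => (le_max_right _ _).trans (le_max_left _ _)
  have hG'3 : ∀ i k, Lb i k ((1 / 2 : ℝ) ^ k) ≤ G' i k := fun i k =>
    (le_max_left _ _).trans (le_max_right _ _)
  have hG'4 : ∀ i k, Lb i k η ≤ G' i k := fun i k => (le_max_right _ _).trans (le_max_right _ _)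
  have hgr : ∀ (d : ℕ → ℕ) (m : ℕ), (∀ i ≤ m, G' i (d (i + 1)) ≤ d i) →
      ∀ i ≤ m, G i (d (i + 1)) ≤ d i := fun d m h i hi => (hG'1 _ _).trans (h i hi)
  suffices hmain : ∃ d : ℕ → ℕ, d N = ℓ ∧ (∀ i < N, G' i (d (i + 1)) ≤ d i) ∧
      ∃ α : List A → ℝ, ∀ᶠ n in atTop, ∑ x ∈ histS (fun i => R i (d i)) N,
        |pr (W n) {ω | histL (s d n) N ω = x} - α x| ≤ η by
    obtain ⟨d, hd1, hd2, α, hα⟩ := hmain
    refine ⟨d, hd1, fun i hi => (hG'1 _ _).trans (hd2 i hi), fun i hi => ?_, α, hα⟩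
    exact hLb i (d (i + 1)) η hη d rfl ((hG'4 _ _).trans (hd2 i hi))
      fun j hj => (hG'1 _ _).trans (hd2 j (by omega))
  refine back_chain R G' (fun d m x n => pr (W n) {ω | histL (s d n) m ω = x}) ?_ ?_ N ℓ hη
  · intro d a ha
    refine (h0 d a ha).congr' (Eventually.of_forall fun n => ?_)
    congr 1
    ext ω
    simp [histL]
  · intro m ℓ η hη
    set C : ℝ := ((R (m + 1) ℓ).card : ℝ) with hC
    have hC0 : 0 ≤ C := Nat.cast_nonneg _
    obtain ⟨Lc, hLc⟩ := hc m ℓ (η / (2 * (C + 1))) (by positivity)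
    set δ : ℝ := η / (8 * (C + 1)) with hδ
    have hδ0 : 0 < δ := by positivity
    obtain ⟨k₀, hk₀⟩ : ∃ k₀ : ℕ, (m : ℝ) * (1 / 2 : ℝ) ^ k₀ ≤ δ := by
      obtain ⟨k₀, hk₀⟩ := exists_pow_lt_of_lt_one (show (0 : ℝ) < δ / (m + 1) by positivity)
        (show (1 / 2 : ℝ) < 1 by norm_num)
      refine ⟨k₀, ?_⟩
      rw [lt_div_iff₀ (by positivity)] at hk₀
      have : (0 : ℝ) ≤ (1 / 2 : ℝ) ^ k₀ := by positivity
      nlinarith
    refine ⟨max Lc (max (Lb m ℓ δ) k₀), fun d hdl hdm hgd => ?_⟩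
    have hg := hgr d m hgd
    obtain ⟨q, q1, q2, q3⟩ := hLc d hdl ((le_max_left _ _).trans hdm) hg
    refine ⟨q, q1, q2, ?_⟩
    -- the resolutions are decreasing
    have hdec : ∀ i ≤ m, d m ≤ d (m - i) := by
      intro i
      induction i with
      | zero => intro _; simp
      | succ i ih =>
        intro hi
        have h1 := ih (by omega)
        have h2 := hgd (m - (i + 1)) (by omega)
        have h3 : m - (i + 1) + 1 = m - i := by omega
        rw [h3] at h2
        exact h1.trans ((hG'2 _ _).trans h2)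
    have hBsmall : ∀ i < m, ∀ᶠ n in atTop, pr (W n) (Bd d n i) ≤ (1 / 2 : ℝ) ^ k₀ := by
      intro i hi
      have h1 := hLb i (d (i + 1)) ((1 / 2 : ℝ) ^ d (i + 1)) (by positivity) d rfl
        ((hG'3 _ _).trans (hgd i (by omega))) fun j hj => hg j (by omega)
      have h2 : k₀ ≤ d (i + 1) := by
        have h3 := hdec (m - (i + 1)) (by omega)
        have h4 : m - (m - (i + 1)) = i + 1 := by omega
        rw [h4] at h3
        exact ((le_max_right _ _).trans (le_max_right _ _)).trans (hdm.trans h3)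
      filter_upwards [h1] with n hn
      exact hn.trans (pow_le_pow_of_le_one (by norm_num) (by norm_num) h2)
    have hBm : ∀ᶠ n in atTop, pr (W n) (Bd d n m) ≤ δ :=
      hLb m ℓ δ hδ0 d hdl (((le_max_left _ _).trans (le_max_right _ _)).trans hdm) hg
    have hBall : ∀ᶠ n in atTop, ∀ i ∈ range m, pr (W n) (Bd d n i) ≤ (1 / 2 : ℝ) ^ k₀ := by
      rw [eventually_all_finset]
      exact fun i hi => hBsmall i (mem_range.1 hi)
    filter_upwards [q3, hBm, hBall] with n h1 h2 h3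
    set B : Set Cfg := {ω | ∃ i < m + 1, ω ∈ Bd d n i} with hB
    have hBle : pr (W n) B ≤ 2 * δ := by
      have h4 := pr_biUnion_le (W n) (fun i => Bd d n i)
        (fun i => if i = m then δ else (1 / 2 : ℝ) ^ k₀) (m + 1) (by
          intro i hi
          by_cases him : i = m
          · rw [if_pos him, him]; exact h2
          · rw [if_neg him]; exact h3 i (mem_range.2 (by omega)))
      refine h4.trans ?_
      rw [sum_range_succ, if_pos rfl]
      have h5 : ∑ i ∈ range m, (if i = m then δ else (1 / 2 : ℝ) ^ k₀) =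
          (m : ℝ) * (1 / 2 : ℝ) ^ k₀ := by
        rw [sum_congr rfl fun i hi => if_neg (mem_range.1 hi).ne, sum_const, card_range,
          nsmul_eq_mul]
      rw [h5]
      linarith
    have key := step_stop (W n) (histS (fun i => R i (d i)) m) (R (m + 1) (d (m + 1)))
      (histL (s d n) m) (s d n (m + 1)) (S := S d n m) (hS d n m)
      (fun ω ω' h => histL_congr fun i hi => hsd d n m i hi ω ω' h) (B := B)
      (fun ω ω' h => by
        rw [hB]
        simp only [Set.mem_ofPred_eq]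
        exact exists_congr fun i => and_congr_right fun hi =>
          hBd d n m i (by omega) ω ω' h)
      (fun x a => q x a n) (η := η / (2 * (C + 1))) (by positivity)
      (fun x hx a ha => q2 x hx a ha n)
      (fun x hx a ha ω hω hωB => h1 x hx a ha ω hω fun i hi hi' => hωB ⟨i, by omega, hi'⟩)
    have hcard : ((R (m + 1) (d (m + 1))).card : ℝ) = C := by rw [hC, hdl]
    rw [hcard] at key
    have hfin : C * (η / (2 * (C + 1)) + 2 * pr (W n) B) ≤ η := by
      have h6 : C * (η / (2 * (C + 1)) + 2 * pr (W n) B) ≤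
          C * (η / (2 * (C + 1)) + 2 * (2 * δ)) :=
        mul_le_mul_of_nonneg_left (by linarith) hC0
      refine h6.trans ?_
      have h7 : η / (2 * (C + 1)) + 2 * (2 * δ) = η / (C + 1) := by
        rw [hδ]
        field_simp
        ring
      rw [h7, mul_div_assoc', div_le_iff₀ (by positivity)]
      nlinarith
    refine le_trans (le_of_eq ?_) (key.trans hfin)
    refine sum_congr rfl fun x _ => sum_congr rfl fun a _ => ?_
    congr 2
    congr 1
    ext ω
    simp only [Set.mem_ofPred_eq, histL, List.cons.injEq]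
    exact and_comm

end Pool.Agent.SixB
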