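import Pool.Agent.Lib.SixB.S8BlowT
import Pool.Agent.Lib.SixB.S8BarV

/-!
# Step 8: magnification of the layer with the corner faces and of the barrier

The objects of S8BarV for `blow u D` with the tip side `subE u A 0`, the stop interval
`u p, …, u (q + 1) - 1` and the cells `κ ∘ cl u` are the magnified objects.
-/

set_option autoImplicit false

namespace Pool.Agent.SixB.Blow

open Pool.Agent.Perc Pool.Agent.Perc6 Pool.Agent.Perc6.C2Aux Pool.Agent.Perc.Tips
open Pool.Agent.SixB.Top Pool.Agent.SixB.Mv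

variable {ι : Type*} {D : Set (ℤ × ℤ)} {A : UE × Bool} {p q u i j : ℕ} {κ : ℤ × ℤ → ι}
  {c f : ℤ × ℤ}

/-- The cell of the corner face behind a piece of a side which is not the last one. -/
theorem cl_crF (hu : 0 < u) (hA : BD D A) {j : ℕ} (hj : j % u + 1 < u) :
    cl u (crF (blow u D) (subE u A 0) j) = inF D A (j / u) := by
  have hu' : (0 : ℤ) < u := by exact_mod_cast hu
  unfold crF inF
  rw [side_blow hu hA]
  exact cl_ahead_rtn hu' _ (by positivity) (by exact_mod_cast hj)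

/-- The cell of the corner face behind the last piece of a side. -/
theorem cl_crF_last (hu : 0 < u) (hA : BD D A) {j : ℕ} (hj : j % u + 1 = u) :
    cl u (crF (blow u D) (subE u A 0) j) = crF D A (j / u) := by
  have hu' : (0 : ℤ) < u := by exact_mod_cast hu
  unfold crF
  rw [side_blow hu hA]
  have e : ((j % u : ℕ) : ℤ) = (u : ℤ) - 1 := by omega
  rw [e, rtn_subE_last]
  exact cl_ahead hu' _ (by omega) (by omega)

/-- A face of the layer of the magnified domain. -/
theorem cl_onV (hu : 0 < u) (hA : BD D A)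
    (h : f ∈ onV (blow u D) (subE u A 0) (u * p) (u * (q + 1) - 1)) : cl u f ∈ onV D A p q := by
  obtain ⟨hD, j, hp, h⟩ := h
  refine ⟨hD, ?_⟩
  have hpos : 0 < u * (q + 1) := Nat.mul_pos hu (Nat.succ_pos _)
  rcases h with ⟨h1, rfl⟩ | ⟨h1, rfl⟩
  · obtain ⟨h3, h4⟩ := (idx_iff (p := p) (q := q) hu).1 ⟨hp, h1⟩
    exact ⟨j / u, h3, Or.inl ⟨h4, (cl_inF hu hA j).symm⟩⟩
  · obtain ⟨h3, h4⟩ := (idx_iff (p := p) (q := q) hu).1 ⟨hp, h1.le⟩
    have hm := Nat.mod_lt j hu
    by_cases hj : j % u + 1 < u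
    · exact ⟨j / u, h3, Or.inl ⟨h4, (cl_crF hu hA hj).symm⟩⟩
    · have hj' : j % u + 1 = u := by omega
      refine ⟨j / u, h3, Or.inr ⟨?_, (cl_crF_last hu hA hj').symm⟩⟩
      by_contra h5
      have h6 : u * q ≤ u * (j / u) := Nat.mul_le_mul_left _ (by omega)
      have h7 := Nat.div_add_mod j u
      have h8 : u * (q + 1) = u * q + u := by ring
      omega

/-- Every face of the layer is covered. -/
theorem exists_onV (hu : 0 < u) (hA : BD D A) (h : c ∈ onV D A p q) :
    ∃ f ∈ onV (blow u D) (subE u A 0) (u * p) (u * (q + 1) - 1), cl u f = c := by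
  obtain ⟨hD, i, hp, ⟨h1, rfl⟩ | ⟨h1, rfl⟩⟩ := h
  · obtain ⟨f, ⟨j, h2, h3, h4⟩, hc⟩ := exists_onO (q := q) hu hA ⟨i, hp, h1, rfl⟩
    exact ⟨f, ⟨by rw [mem_blow, hc]; exact hD, j, h2, Or.inl ⟨h3, h4⟩⟩, hc⟩
  · have e1 : (u * i + (u - 1)) / u = i := by
      rw [Nat.mul_add_div hu, Nat.div_eq_of_lt (by omega), Nat.add_zero]
    have e2 : (u * i + (u - 1)) % u = u - 1 := by
      rw [Nat.mul_add_mod, Nat.mod_eq_of_lt (by omega)]
    have hc : cl u (crF (blow u D) (subE u A 0) (u * i + (u - 1))) = crF D A i := by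
      rw [cl_crF_last hu hA (by rw [e2]; omega), e1]
    refine ⟨_, ⟨by rw [mem_blow, hc]; exact hD, u * i + (u - 1), ?_, Or.inr ⟨?_, rfl⟩⟩, hc⟩
    · have h5 : u * p ≤ u * i := Nat.mul_le_mul_left _ hp
      omega
    · have h5 : u * (i + 1 + 1) ≤ u * (q + 1) := Nat.mul_le_mul_left _ (by omega)
      have h6 : u * (i + 1 + 1) = u * i + u + u := by ring
      omega

/-- **The barrier of the magnified domain.** -/
theorem barV_blow (hu : 0 < u) (hA : BD D A) :
    BarV (blow u D) (subE u A 0) (u * p) (u * (q + 1) - 1) (fun x => κ (cl u x)) =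
      blow u (BarV D A p q κ) := by
  ext f
  constructor
  · rintro ⟨g, hg, hf⟩
    have hg' := cl_onV hu hA hg
    rw [pc_blow hu hg'.1] at hf
    exact ⟨cl u g, hg', hf⟩
  · rintro ⟨c, hc, hf⟩
    obtain ⟨g, hg, rfl⟩ := exists_onV hu hA hc
    refine ⟨g, hg, ?_⟩
    rw [pc_blow hu hc.1]
    exact hf

end Pool.Agent.SixB.Blow
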