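import Pool.Agent.Lib.SixB.S8LawQ
import Pool.Agent.Lib.SixB.S8CloseK
import Pool.Agent.Lib.SixB.S8BlowV

/-!
# Step 8: the data of a move for the magnified domain

* `out_blow_iff`: exit sides of the magnified domain;
* `blow_domD`: the magnified domain is the domain of the magnified set, block and tip side;
* `mvd_blow`: `Mvd` for `blow u P`, `blow u D` with the tip side `subE u A 0`, the contour length
  `u n` and the exit sides `u p, …, u (q + 1) - 1`;
* `Dom.exArcs`: `ArcsE` for the domain of a coarse state, with the numbers `cyl`, `p`, `q`;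
* `Dom.mvdBlow`: `Mvd` for the magnified coarse state.
-/

set_option autoImplicit false

namespace Pool.Agent.SixB.Mv

open Pool.Agent.Perc Pool.Agent.Perc6 Pool.Agent.Perc6.C2Aux Pool.Agent.Perc.Tips
open Pool.Agent.SixB.Top Pool.Agent.SixB.Blow Pool.Agent.SixB.CloK

variable {ι : Type*} {U P W D : Set (ℤ × ℤ)} {κ : ℤ × ℤ → ι} {d : ℤ} {A B : UE × Bool}
  {n p q u : ℕ}

theorem out_blow_iff (hu : 0 < u) (hA : BD D A) (j : ℕ) :
    outF (blow u D) (subE u A 0) j ∈ blow u P ↔ outF D A (j / u) ∈ P := by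
  rw [mem_blow, cl_outF hu hA]

/-- The magnified domain of a move. -/
theorem blow_domD (hu : 0 < u) (hA : ahead A ∈ P ∩ W) :
    blow u (domD P W A) = domD (blow u P) (blow u W) (subE u A 0) := by
  unfold domD
  have h := compT_blow (m := (u : ℤ)) (F := P ∩ W) (by omega) (f := ahead (subE u A 0))
    (by rw [cl_ahead_zero hu]; exact hA)
  rw [cl_ahead_zero hu, blow_inter] at h
  exact h.symm

/-- **The data of a move for the magnified domain.** -/
theorem mvd_blow (hu : 0 < u) (happ : App U (blow u P) κ d) (hU : U.Finite) (cU : Top.EConn U)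
    (eU : Esc U) (cP : Top.EConn P) (hDP : D ⊆ P) (hDf : D.Finite) (cD : Top.EConn D) (eD : Esc D)
    (hc : Cyc D A n) (hpq : p ≤ q) (hq : q < n)
    (hex : ∀ i < n, outF D A i ∈ P → p ≤ i ∧ i ≤ q) :
    Mvd U (blow u P) (blow u D) κ d (subE u A 0) (u * n) (u * p) (u * (q + 1) - 1) := by
  have h1 : u * p ≤ u * q := Nat.mul_le_mul_left _ hpq
  have h2 : u * (q + 1) = u * q + u := by ring
  have h3 : u * (q + 1) ≤ u * n := Nat.mul_le_mul_left _ hq
  exact {
    app := happ
    finU := hU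
    ecU := cU
    escU := eU
    ecP := econn_blow (m := (u : ℤ)) (by omega) cP
    DP := blow_subset hDP
    escD := Esc.blow (m := (u : ℤ)) (by omega) eD
    cyc := cyc_blow hu hDf cD eD hc
    pq := by omega
    qm := by omega
    exit := fun i hi hiP => (idx_iff hu).2
      (hex _ (Nat.div_lt_of_lt_mul hi) ((out_blow_iff hu hc.bd i).1 hiP)) }

/-- The instance with the exit sides `IsEx P B`. -/
theorem mvd_blow_arcs (hu : 0 < u) (happ : App U (blow u P) κ d) (hU : U.Finite) (cU : Top.EConn U)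
    (eU : Esc U) (hP : P.Finite) (cP : Top.EConn P) (eP : Esc P) (hW : Esc W) (hA : BD P A)
    (hAW : ahead A ∈ W) (h : ArcsE (domD P W A) A (IsEx P B) n p q) :
    Mvd U (blow u P) (blow u (domD P W A)) κ d (subE u A 0) (u * n) (u * p)
      (u * (q + 1) - 1) := by
  have hA' : ahead A ∈ P ∩ W := ⟨hA.1, hAW⟩
  refine mvd_blow hu happ hU cU eU cP (fun x hx => (domD_sub hA' hx).1) (finite_domD hP hA')
    (econn_domD hA') (esc_domD hP eP hW hA') h.cyc h.le h.lt fun i hi hiP => ?_
  constructor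
  · by_contra hcon
    exact h.first i (by omega) (Or.inl hiP)
  · by_contra hcon
    exact h.last i (by omega) hi (Or.inl hiP)

namespace Dom

variable {s : Dom} {g : Grd}

/-- The tip face is in the block. -/
theorem ahead_mem_blk (hL : 0 < g.L) (hM : 0 ≤ g.M) (ho : OffL g.a g.b g.L 1 s.tip) :
    ahead s.A ∈ s.blk g := by
  have e1 : gc g.a g.b g.L s.tip = gc g.a g.b g.L (ahead s.A) := by
    have h2 : ∀ C : UE × Bool, OffL g.a g.b g.L 1 (lf C) →
        gc g.a g.b g.L (ahead C) = gc g.a g.b g.L (lf C) := by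
      intro C hC
      obtain ⟨⟨x, y, _ | _⟩, _ | _⟩ := C <;>
        (refine hC.gc_eq_self hL ?_ ?_ ?_ ?_ <;> simp [ahead, lf])
    exact (h2 s.A ho).symm
  exact blk_sat e1 (self_mem_blk hM)

/-- **The exit sides of the domain of a coarse state.** -/
theorem exArcs (hf : s.P.Finite) (hc : Top.EConn s.P) (he : Esc s.P) (hA : BD s.P s.A)
    (hB : BD s.P s.B) (hne : s.A ≠ s.B) (hL : 0 < g.L) (hAW : ahead s.A ∈ s.blk g) :
    ArcsE (s.dom g) s.A (IsEx s.P s.B) (cyl (s.dom g) s.A) (s.p g) (s.q g) ∧ 0 < s.p g := by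
  obtain ⟨m, p, q, h, h0⟩ := exists_arcs_domD (W := s.blk g) hf hc he (esc_blk hL) hA hAW hB hne
  have e1 : cyl (s.dom g) s.A = m := cyl_of_cyc h.cyc
  have hex : ∀ i, i ∈ s.ex g ↔ i < m ∧ IsEx s.P s.B (side (s.dom g) s.A i) := by
    intro i
    unfold ex
    rw [e1]
    exact Iff.rfl
  have e2 : s.p g = p := by
    refine IsLeast.csInf_eq ⟨(hex p).2 ⟨h.le.trans_lt h.lt, h.memp⟩, fun i hi => ?_⟩
    by_contra hcon
    exact h.first i (by omega) ((hex i).1 hi).2
  have e3 : s.q g = q := by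
    refine IsGreatest.csSup_eq ⟨(hex q).2 ⟨h.lt, h.memq⟩, fun i hi => ?_⟩
    by_contra hcon
    exact h.last i (by omega) ((hex i).1 hi).1 ((hex i).1 hi).2
  rw [e1, e2, e3]
  exact ⟨h, h0⟩

/-- **The data of a move for the magnified coarse state.** -/
theorem mvdBlow (hu : 0 < u) (happ : App U (blow u s.P) κ d) (hU : U.Finite) (cU : Top.EConn U)
    (eU : Esc U) (hf : s.P.Finite) (hc : Top.EConn s.P) (he : Esc s.P) (hA : BD s.P s.A)
    (hB : BD s.P s.B) (hne : s.A ≠ s.B) (hL : 0 < g.L) (hAW : ahead s.A ∈ s.blk g) :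
    Mvd U (blow u s.P) (blow u (s.dom g)) κ d (subE u s.A 0) (u * cyl (s.dom g) s.A)
      (u * s.p g) (u * (s.q g + 1) - 1) :=
  mvd_blow_arcs hu happ hU cU eU hf hc he (esc_blk hL) hA hAW
    (exArcs hf hc he hA hB hne hL hAW).1

/-- The magnified barrier. -/
theorem blow_bar (hu : 0 < u) (hA : BD (s.dom g) s.A) :
    BarV (blow u (s.dom g)) (subE u s.A 0) (u * s.p g) (u * (s.q g + 1) - 1)
      (fun x => g.nm (cl u x)) = blow u (s.bar g) :=
  barV_blow hu hA

/-- The magnified inner domains. -/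
theorem blow_gK (hu : 0 < u) {K : Finset (ℤ × ℤ)} (hA : ahead s.A ∈ s.dom g \ s.yK g K) :
    inn (blow u (s.dom g)) (subE u s.A 0) (blow u (s.yK g K)) = blow u (s.gK g K) :=
  inn_blow hu hA

end Dom

end Pool.Agent.SixB.Mv
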