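import Pool.Agent.Lib.SixB.S8Order
import Pool.Agent.Lib.SixB.TopCtr

/-!
# Step 8: the inner polygon

`U` is a region without holes and `κ` a labelling of the faces with connected classes (cells).
`cellsIn U κ` is the union of the cells which are contained in `U`, `innerP U κ f₀` the component of
the face `f₀` in it: it is connected, a union of cells, without holes, has a contour and satisfies
the hypotheses of the order lemma.
-/

set_option autoImplicit false

namespace Pool.Agent.SixB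

open Finset Pool.Agent.Perc Pool.Agent.Perc6

variable {ι : Type*} {U : Finset (ℤ × ℤ)} {κ : ℤ × ℤ → ι} {f₀ : ℤ × ℤ}

/-- The union of the cells contained in `U`. -/
noncomputable def cellsIn (U : Finset (ℤ × ℤ)) (κ : ℤ × ℤ → ι) : Finset (ℤ × ℤ) := by
  classical exact U.filter fun x => ∀ y, κ y = κ x → y ∈ U

/-- The component of `f₀` in the union of the cells contained in `U`. -/
noncomputable def innerP (U : Finset (ℤ × ℤ)) (κ : ℤ × ℤ → ι) (f₀ : ℤ × ℤ) : Finset (ℤ × ℤ) := by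
  classical exact (cellsIn U κ).filter fun x =>
    f₀ ∈ cellsIn U κ ∧ Relation.ReflTransGen (StepC (cellsIn U κ : Set (ℤ × ℤ))ᶜ) f₀ x

theorem mem_cellsIn {x : ℤ × ℤ} : x ∈ cellsIn U κ ↔ ∀ y, κ y = κ x → y ∈ U := by
  classical
  unfold cellsIn
  rw [Finset.mem_filter]
  exact ⟨fun h => h.2, fun h => ⟨h x rfl, h⟩⟩

theorem cellsIn_sub : cellsIn U κ ⊆ U := fun x hx => mem_cellsIn.1 hx x rfl

theorem cellsIn_sat {x y : ℤ × ℤ} (h : κ x = κ y) (hx : x ∈ cellsIn U κ) : y ∈ cellsIn U κ := by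
  rw [mem_cellsIn] at hx ⊢
  intro z hz
  exact hx z (hz.trans h.symm)

theorem mem_innerP {x : ℤ × ℤ} : x ∈ innerP U κ f₀ ↔ f₀ ∈ cellsIn U κ ∧
    Relation.ReflTransGen (StepC (cellsIn U κ : Set (ℤ × ℤ))ᶜ) f₀ x := by
  classical
  unfold innerP
  rw [Finset.mem_filter]
  refine ⟨fun h => h.2, fun h => ⟨?_, h⟩⟩
  have := chain_notMem (F := (cellsIn U κ : Set (ℤ × ℤ))ᶜ) (by simpa using h.1) h.2
  simpa using this

theorem innerP_sub_cells : innerP U κ f₀ ⊆ cellsIn U κ := by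
  classical
  unfold innerP
  exact Finset.filter_subset _ _

theorem innerP_sub : innerP U κ f₀ ⊆ U := innerP_sub_cells.trans cellsIn_sub

theorem self_mem_innerP (h : f₀ ∈ cellsIn U κ) : f₀ ∈ innerP U κ f₀ :=
  mem_innerP.2 ⟨h, Relation.ReflTransGen.refl⟩

theorem innerP_step {f g : ℤ × ℤ} (hf : f ∈ innerP U κ f₀) (h : AdjF f g)
    (hg : g ∈ cellsIn U κ) : g ∈ innerP U κ f₀ := by
  obtain ⟨h1, h2⟩ := mem_innerP.1 hf
  exact mem_innerP.2 ⟨h1, h2.tail ⟨h, by simpa using hg⟩⟩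

theorem innerP_chain {f g : ℤ × ℤ} (hf : f ∈ innerP U κ f₀)
    (h : Relation.ReflTransGen (StepC (cellsIn U κ : Set (ℤ × ℤ))ᶜ) f g) : g ∈ innerP U κ f₀ := by
  obtain ⟨h1, h2⟩ := mem_innerP.1 hf
  exact mem_innerP.2 ⟨h1, h2.trans h⟩

/-- The inner polygon is a union of cells. -/
theorem innerP_sat (hcell : ∀ x y, κ x = κ y → Chn {z | κ z = κ x} x y) {x y : ℤ × ℤ}
    (h : κ x = κ y) (hx : x ∈ innerP U κ f₀) : y ∈ innerP U κ f₀ := by
  refine innerP_chain hx ?_
  have h1 := rtg_iff.1 (hcell x y h).2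
  refine chain_mono ?_ h1
  intro z hz
  rw [Set.mem_compl_iff]
  intro hzx
  exact hz (Finset.mem_coe.2 (cellsIn_sat hzx.symm (innerP_sub_cells hx)))

/-- The inner polygon is connected. -/
theorem innerP_conn {f g : ℤ × ℤ} (hf : f ∈ innerP U κ f₀) (hg : g ∈ innerP U κ f₀) :
    Relation.ReflTransGen (StepC (innerP U κ f₀ : Set (ℤ × ℤ))ᶜ) f g := by
  obtain ⟨h0, hf'⟩ := mem_innerP.1 hf
  obtain ⟨-, hg'⟩ := mem_innerP.1 hg
  have h0' : f₀ ∉ (cellsIn U κ : Set (ℤ × ℤ))ᶜ := by simpa using h0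
  have h1 : Relation.ReflTransGen (StepC (cellsIn U κ : Set (ℤ × ℤ))ᶜ) f g :=
    (chain_reverse h0' hf').trans hg'
  have key : ∀ g, Relation.ReflTransGen (StepC (cellsIn U κ : Set (ℤ × ℤ))ᶜ) f g →
      Relation.ReflTransGen (StepC (innerP U κ f₀ : Set (ℤ × ℤ))ᶜ) f g := by
    intro g hg
    induction hg with
    | refl => exact Relation.ReflTransGen.refl
    | @tail b c hb hs ih =>
      refine ih.tail ⟨hs.1, ?_⟩
      have : c ∈ innerP U κ f₀ := innerP_chain hf (hb.tail hs)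
      simpa using this
  exact key g h1

theorem innerP_chn {f g : ℤ × ℤ} (hf : f ∈ innerP U κ f₀) (hg : g ∈ innerP U κ f₀) :
    Chn (innerP U κ f₀ : Set (ℤ × ℤ)) f g :=
  ⟨Finset.mem_coe.2 hf, rtg_iff.2 (innerP_conn hf hg)⟩

/-- A cell next to the inner polygon is not contained in `U`. -/
theorem innerP_not {f g : ℤ × ℤ} (hf : f ∈ innerP U κ f₀) (h : Adj f g)
    (hg : g ∉ innerP U κ f₀) : ∃ x, κ x = κ g ∧ x ∉ U := by
  by_contra hno
  push Not at hno
  exact hg (innerP_step hf (adj_iff_adjFL.1 h) (mem_cellsIn.2 hno))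

/-- The union of the cells contained in a region without holes has no holes. -/
theorem esc_cellsIn (hU : Esc (U : Set (ℤ × ℤ)))
    (hcell : ∀ x y, κ x = κ y → Chn {z | κ z = κ x} x y) :
    Esc (cellsIn U κ : Set (ℤ × ℤ)) := by
  refine hU.sub (fun x hx => Finset.mem_coe.2 (cellsIn_sub (Finset.mem_coe.1 hx))) ?_
  intro f hf hfG
  have h1 : ∃ y, κ y = κ f ∧ y ∉ U := by
    by_contra hno
    push Not at hno
    exact hfG (Finset.mem_coe.2 (mem_cellsIn.2 hno))
  obtain ⟨y, hy, hyU⟩ := h1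
  refine ⟨y, fun h => hyU (Finset.mem_coe.1 h), ?_⟩
  refine chain_mono ?_ (rtg_iff.1 (hcell f y hy.symm).2)
  intro z hz
  rw [Set.mem_compl_iff]
  intro hzf
  exact hyU (mem_cellsIn.1 (Finset.mem_coe.1 hz) y (hy.trans hzf.symm))

/-- The inner polygon has no holes. -/
theorem esc_innerP (hU : Esc (U : Set (ℤ × ℤ)))
    (hcell : ∀ x y, κ x = κ y → Chn {z | κ z = κ x} x y) :
    Esc (innerP U κ f₀ : Set (ℤ × ℤ)) := by
  obtain ⟨x₀, x₁, y₀, y₁, hb⟩ := exists_RF (cellsIn U κ).finite_toSet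
  refine (esc_cellsIn hU hcell).component
    (fun x hx => Finset.mem_coe.2 (innerP_sub_cells (Finset.mem_coe.1 hx))) hb ?_
  intro f hf g hg hfg
  exact Finset.mem_coe.2 (innerP_step (Finset.mem_coe.1 hf) hfg (Finset.mem_coe.1 hg))

theorem stepC_complL {S : Set (ℤ × ℤ)} : StepC Sᶜ = fun a b => AdjF a b ∧ b ∈ S := by
  funext a b
  simp only [StepC, Set.mem_compl_iff, not_not]

/-- The inner polygon has a contour. -/
theorem exists_ctr_innerP (hU : Esc (U : Set (ℤ × ℤ)))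
    (hcell : ∀ x y, κ x = κ y → Chn {z | κ z = κ x} x y) (h0 : f₀ ∈ cellsIn U κ) :
    ∃ m w, 0 < m ∧ Ctr (innerP U κ f₀ : Set (ℤ × ℤ)) m w :=
  Top.exists_ctr (innerP U κ f₀).finite_toSet ⟨f₀, Finset.mem_coe.2 (self_mem_innerP h0)⟩
    (fun f hf g hg => by
      have := innerP_conn (Finset.mem_coe.1 hf) (Finset.mem_coe.1 hg)
      rwa [stepC_complL] at this) (esc_innerP hU hcell)

/-- **The order lemma for the inner polygon.** -/
theorem exists_arcs_innerP {m : ℕ} {w : ℕ → ℤ × ℤ} (hU : Ctr (U : Set (ℤ × ℤ)) m w)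
    (hesc : Esc (U : Set (ℤ × ℤ)))
    (hcell : ∀ x y, κ x = κ y → Chn {z | κ z = κ x} x y) {d : ℤ}
    (hdiam : ∀ x y, κ x = κ y → |x.1 - y.1| < d ∧ |x.2 - y.2| < d) (h0 : f₀ ∈ cellsIn U κ)
    {k : ℕ → ℕ} (k0 : k 0 = 0) (k4 : k 4 = m) (hk : Monotone k) :
    ∃ (m₂ : ℕ) (w₂ : ℕ → ℤ × ℤ) (k₂ : ℕ → ℕ) (sg : ℕ → Finset (ℤ × ℤ)),
      ArcLink U (innerP U κ f₀) κ d w k m₂ w₂ k₂ sg := by
  obtain ⟨m', w', -, hP⟩ := exists_ctr_innerP (f₀ := f₀) hesc hcell h0
  obtain ⟨w₂, k₂, sg, h⟩ := order_arcs hU hP innerP_sub (fun f hf g hg => innerP_chn hf hg) κ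
    (fun x y hxy hx => innerP_sat hcell hxy hx) hcell hdiam
    (fun f hf g hfg hg => innerP_not hf hfg hg) k0 k4 hk
  exact ⟨m', w₂, k₂, sg, h⟩

/-! ### Square cells -/

/-- The square cells of side `M`. -/
def sqCell (M : ℤ) (x : ℤ × ℤ) : ℤ × ℤ := (x.1 / M, x.2 / M)

theorem sqCell_diam {M : ℤ} (hM : 0 < M) {x y : ℤ × ℤ} (h : sqCell M x = sqCell M y) :
    |x.1 - y.1| < M ∧ |x.2 - y.2| < M := by
  simp only [sqCell, Prod.mk.injEq] at h
  obtain ⟨h1, h2⟩ := h
  have a1 := Int.emod_nonneg x.1 hM.ne'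
  have a2 := Int.emod_lt_of_pos x.1 hM
  have b1 := Int.emod_nonneg y.1 hM.ne'
  have b2 := Int.emod_lt_of_pos y.1 hM
  have c1 := Int.emod_nonneg x.2 hM.ne'
  have c2 := Int.emod_lt_of_pos x.2 hM
  have d1 := Int.emod_nonneg y.2 hM.ne'
  have d2 := Int.emod_lt_of_pos y.2 hM
  have e1 := Int.emod_add_mul_ediv x.1 M
  have e2 := Int.emod_add_mul_ediv y.1 M
  have e3 := Int.emod_add_mul_ediv x.2 M
  have e4 := Int.emod_add_mul_ediv y.2 M
  rw [h1] at e1
  rw [h2] at e3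
  generalize M * (y.1 / M) = u at e1 e2
  generalize M * (y.2 / M) = v at e3 e4
  constructor <;> rw [abs_lt] <;> omega

theorem sqCell_chn {M : ℤ} (hM : 0 < M) {x y : ℤ × ℤ} (h : sqCell M x = sqCell M y) :
    Chn {z | sqCell M z = sqCell M x} x y := by
  refine ⟨rfl, ?_⟩
  have hmem : ∀ z : ℤ × ℤ, (min x.1 y.1 ≤ z.1 ∧ z.1 ≤ max x.1 y.1) →
      (min x.2 y.2 ≤ z.2 ∧ z.2 ≤ max x.2 y.2) → z ∈ {z | sqCell M z = sqCell M x} := by
    intro z h1 h2
    simp only [sqCell, Prod.mk.injEq] at h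
    obtain ⟨g1, g2⟩ := h
    have key : ∀ a b c : ℤ, a / M = b / M → min a b ≤ c → c ≤ max a b → c / M = a / M := by
      intro a b c hab h1 h2
      have e1 : min a b / M ≤ c / M := Int.ediv_le_ediv hM h1
      have e2 : c / M ≤ max a b / M := Int.ediv_le_ediv hM h2
      rcases le_total a b with h | h
      · rw [min_eq_left h] at e1
        rw [max_eq_right h, ← hab] at e2
        omega
      · rw [min_eq_right h, ← hab] at e1
        rw [max_eq_left h] at e2
        omega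
    show (z.1 / M, z.2 / M) = (x.1 / M, x.2 / M)
    rw [key x.1 y.1 z.1 g1 h1.1 h1.2, key x.2 y.2 z.2 g2 h2.1 h2.2]
  set S : Set (ℤ × ℤ) := {z | sqCell M z = sqCell M x} with hS
  have right : ∀ (n : ℕ) (b c : ℤ), b + n ≤ max x.1 y.1 → min x.1 y.1 ≤ b →
      min x.2 y.2 ≤ c → c ≤ max x.2 y.2 →
      Relation.ReflTransGen (fun a b => Adj a b ∧ b ∈ S) (b, c) (b + n, c) := by
    intro n
    induction n with
    | zero => intro b c _ _ _ _; simpa using Relation.ReflTransGen.refl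
    | succ n ih =>
      intro b c h1 h2 h3 h4
      push_cast at h1
      have h5 := ih (b + 1) c (by omega) (by omega) h3 h4
      rw [show b + ((n + 1 : ℕ) : ℤ) = b + 1 + (n : ℤ) by push_cast; ring]
      refine Relation.ReflTransGen.head (b := (b + 1, c)) ⟨Or.inr ⟨rfl, Or.inr rfl⟩, ?_⟩ h5
      exact hmem (b + 1, c) ⟨by simp only; omega, by simp only; omega⟩ ⟨h3, h4⟩
  have left : ∀ (n : ℕ) (b c : ℤ), b ≤ max x.1 y.1 → min x.1 y.1 ≤ b - n →
      min x.2 y.2 ≤ c → c ≤ max x.2 y.2 →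
      Relation.ReflTransGen (fun a b => Adj a b ∧ b ∈ S) (b, c) (b - n, c) := by
    intro n
    induction n with
    | zero => intro b c _ _ _ _; simpa using Relation.ReflTransGen.refl
    | succ n ih =>
      intro b c h1 h2 h3 h4
      push_cast at h2
      have h5 := ih (b - 1) c (by omega) (by omega) h3 h4
      rw [show b - ((n + 1 : ℕ) : ℤ) = b - 1 - (n : ℤ) by push_cast; ring]
      refine Relation.ReflTransGen.head (b := (b - 1, c)) ⟨Or.inr ⟨rfl, Or.inl (by simp)⟩, ?_⟩ h5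
      exact hmem (b - 1, c) ⟨by simp only; omega, by simp only; omega⟩ ⟨h3, h4⟩
  have up : ∀ (n : ℕ) (b c : ℤ), c + n ≤ max x.2 y.2 → min x.2 y.2 ≤ c →
      min x.1 y.1 ≤ b → b ≤ max x.1 y.1 →
      Relation.ReflTransGen (fun a b => Adj a b ∧ b ∈ S) (b, c) (b, c + n) := by
    intro n
    induction n with
    | zero => intro b c _ _ _ _; simpa using Relation.ReflTransGen.refl
    | succ n ih =>
      intro b c h1 h2 h3 h4
      push_cast at h1
      have h5 := ih b (c + 1) (by omega) (by omega) h3 h4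
      rw [show c + ((n + 1 : ℕ) : ℤ) = c + 1 + (n : ℤ) by push_cast; ring]
      refine Relation.ReflTransGen.head (b := (b, c + 1)) ⟨Or.inl ⟨rfl, Or.inr rfl⟩, ?_⟩ h5
      exact hmem (b, c + 1) ⟨h3, h4⟩ ⟨by simp only; omega, by simp only; omega⟩
  have down : ∀ (n : ℕ) (b c : ℤ), c ≤ max x.2 y.2 → min x.2 y.2 ≤ c - n →
      min x.1 y.1 ≤ b → b ≤ max x.1 y.1 →
      Relation.ReflTransGen (fun a b => Adj a b ∧ b ∈ S) (b, c) (b, c - n) := by
    intro n
    induction n with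
    | zero => intro b c _ _ _ _; simpa using Relation.ReflTransGen.refl
    | succ n ih =>
      intro b c h1 h2 h3 h4
      push_cast at h2
      have h5 := ih b (c - 1) (by omega) (by omega) h3 h4
      rw [show c - ((n + 1 : ℕ) : ℤ) = c - 1 - (n : ℤ) by push_cast; ring]
      refine Relation.ReflTransGen.head (b := (b, c - 1)) ⟨Or.inl ⟨rfl, Or.inl (by simp)⟩, ?_⟩ h5
      exact hmem (b, c - 1) ⟨h3, h4⟩ ⟨by simp only; omega, by simp only; omega⟩
  have h1 : Relation.ReflTransGen (fun a b => Adj a b ∧ b ∈ S) (x.1, x.2) (y.1, x.2) := by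
    rcases le_total x.1 y.1 with h | h
    · have := right (y.1 - x.1).toNat x.1 x.2 (by omega) (by omega) (by omega) (by omega)
      rwa [Int.toNat_of_nonneg (by omega), show x.1 + (y.1 - x.1) = y.1 by ring] at this
    · have := left (x.1 - y.1).toNat x.1 x.2 (by omega) (by omega) (by omega) (by omega)
      rwa [Int.toNat_of_nonneg (by omega), show x.1 - (x.1 - y.1) = y.1 by ring] at this
  have h2 : Relation.ReflTransGen (fun a b => Adj a b ∧ b ∈ S) (y.1, x.2) (y.1, y.2) := by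
    rcases le_total x.2 y.2 with h | h
    · have := up (y.2 - x.2).toNat y.1 x.2 (by omega) (by omega) (by omega) (by omega)
      rwa [Int.toNat_of_nonneg (by omega), show x.2 + (y.2 - x.2) = y.2 by ring] at this
    · have := down (x.2 - y.2).toNat y.1 x.2 (by omega) (by omega) (by omega) (by omega)
      rwa [Int.toNat_of_nonneg (by omega), show x.2 - (x.2 - y.2) = y.2 by ring] at this
  exact h1.trans h2

end Pool.Agent.SixB
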