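import Pool.Agent.Lib.SixB.S8Geo
import Pool.Agent.Lib.SixB.S8Inner

/-!
# Step 8: grids in general position

The grid `gc a b L` has the lines `t` with `L ∣ t + a` (vertical) and `L ∣ t + b` (horizontal).
`offL` is the rule for the grid of the next stage, of mesh `D` with `16 * L ∣ D`: the new lines are old
lines, the tip `v` is at distance at least `5 * D / 16` from all the new lines (and at most `3 * D / 16`
from the centre of its cell in each coordinate), and two given vertices `u`, `w` (the base and the target)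
are at distance at least `D / 16` from all the new lines.
-/

set_option autoImplicit false

namespace Pool.Agent.SixB.Mv

open Pool.Agent.Perc Pool.Agent.Perc6

/-! ### Cells -/

theorem ediv_eq_iff_mem {d x z : ℤ} (hd : 0 < d) : x / d = z ↔ d * z ≤ x ∧ x < d * z + d := by
  constructor
  · rintro rfl
    have h1 := Int.mul_ediv_add_emod x d
    have h2 := Int.emod_nonneg x hd.ne'
    have h3 := Int.emod_lt_of_pos x hd
    exact ⟨by omega, by omega⟩
  · rintro ⟨h1, h2⟩
    apply le_antisymm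
    · rw [← Int.lt_add_one_iff]
      apply Int.ediv_lt_of_lt_mul hd
      rw [add_mul, one_mul, mul_comm z d]
      exact h2
    · apply Int.le_ediv_of_mul_le hd
      rw [mul_comm]
      exact h1

section Cell

variable {a b L : ℤ} {f g v : ℤ × ℤ}

theorem gc_eq_iff (hL : 0 < L) {z : ℤ × ℤ} : gc a b L f = z ↔
    (L * z.1 - a ≤ f.1 ∧ f.1 < L * z.1 - a + L) ∧ L * z.2 - b ≤ f.2 ∧ f.2 < L * z.2 - b + L := by
  unfold gc
  rw [Prod.ext_iff, ediv_eq_iff_mem hL, ediv_eq_iff_mem hL]
  constructor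
  · rintro ⟨⟨h1, h2⟩, h3, h4⟩
    exact ⟨⟨by omega, by omega⟩, by omega, by omega⟩
  · rintro ⟨⟨h1, h2⟩, h3, h4⟩
    exact ⟨⟨by omega, by omega⟩, by omega, by omega⟩

/-- The diameter of a cell. -/
theorem gc_diam (hL : 0 < L) (h : gc a b L f = gc a b L g) :
    |f.1 - g.1| < L ∧ |f.2 - g.2| < L := by
  have h1 := sqCell_diam hL (x := (f.1 + a, f.2 + b)) (y := (g.1 + a, g.2 + b)) h
  simpa using h1

/-- A cell is connected. -/
theorem gc_chn (hL : 0 < L) (h : gc a b L f = gc a b L g) :
    Chn {z | gc a b L z = gc a b L f} f g := by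
  refine ⟨rfl, ?_⟩
  have h1 := (sqCell_chn hL (x := (f.1 + a, f.2 + b)) (y := (g.1 + a, g.2 + b)) h).2
  have h2 := Relation.ReflTransGen.lift
    (p := fun u v => Adj u v ∧ v ∈ {z | gc a b L z = gc a b L f})
    (fun z : ℤ × ℤ => ((z.1 - a, z.2 - b) : ℤ × ℤ)) (fun u v huv => ?_) _ _ h1
  · simpa [Function.onFun] using h2
  · refine ⟨?_, ?_⟩
    · have := huv.1
      unfold Adj at *
      simp only
      omega
    · have h3 : sqCell L v = sqCell L (f.1 + a, f.2 + b) := huv.2
      show gc a b L (v.1 - a, v.2 - b) = gc a b L f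
      unfold sqCell at h3
      unfold gc
      simp only [sub_add_cancel]
      exact h3

/-- Magnification. -/
theorem gc_mag {m : ℤ} (hm : 0 < m) (a b L : ℤ) (f : ℤ × ℤ) :
    gc (m * a) (m * b) (m * L) f = gc a b L (f.1 / m, f.2 / m) := by
  unfold gc
  have key : ∀ x a : ℤ, (x + m * a) / (m * L) = (x / m + a) / L := by
    intro x a
    rw [← Int.ediv_ediv_of_nonneg hm.le]
    congr 1
    rw [Int.add_mul_ediv_left _ _ hm.ne']
  simp only [key]

theorem blk_mag {m : ℤ} (hm : 0 < m) {M : ℤ} :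
    f ∈ blk (m * a) (m * b) (m * L) M v ↔
      ((f.1 / m, f.2 / m) : ℤ × ℤ) ∈ blk a b L M (v.1 / m, v.2 / m) := by
  unfold blk
  simp only [Set.mem_ofPred_eq, gc_mag hm]

/-- The block contains the box of radius `M * L` around `v`. -/
theorem mem_blk_of_box (hL : 0 < L) {M : ℤ} (h1 : |f.1 - v.1| ≤ L * M)
    (h2 : |f.2 - v.2| ≤ L * M) : f ∈ blk a b L M v := by
  have key : ∀ x y c : ℤ, |x - y| ≤ L * M → |(x + c) / L - (y + c) / L| ≤ M := by
    intro x y c h
    rw [abs_le] at h ⊢
    have e1 : (x + c) / L ≤ (y + c + L * M) / L := Int.ediv_le_ediv hL (by omega)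
    have e2 : (y + c - L * M) / L ≤ (x + c) / L := Int.ediv_le_ediv hL (by omega)
    rw [Int.add_mul_ediv_left _ _ hL.ne'] at e1
    rw [show y + c - L * M = y + c + L * (-M) by ring, Int.add_mul_ediv_left _ _ hL.ne'] at e2
    constructor <;> omega
  exact ⟨key _ _ _ h1, key _ _ _ h2⟩

/-- The block is contained in the box of radius `(M + 1) * L` around `v`. -/
theorem blk_box (hL : 0 < L) {M : ℤ} (h : f ∈ blk a b L M v) :
    |f.1 - v.1| < L * (M + 1) ∧ |f.2 - v.2| < L * (M + 1) := by
  have key : ∀ x y c : ℤ, |(x + c) / L - (y + c) / L| ≤ M → |x - y| < L * (M + 1) := by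
    intro x y c h
    have h1 := Int.mul_ediv_add_emod (x + c) L
    have h2 := Int.emod_nonneg (x + c) hL.ne'
    have h3 := Int.emod_lt_of_pos (x + c) hL
    have h4 := Int.mul_ediv_add_emod (y + c) L
    have h5 := Int.emod_nonneg (y + c) hL.ne'
    have h6 := Int.emod_lt_of_pos (y + c) hL
    rw [abs_le] at h
    obtain ⟨h7, h8⟩ := h
    have e1 : L * ((x + c) / L - (y + c) / L) ≤ L * M := mul_le_mul_of_nonneg_left h8 hL.le
    have e2 : L * (-M) ≤ L * ((x + c) / L - (y + c) / L) := mul_le_mul_of_nonneg_left h7 hL.le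
    have e3 : L * ((x + c) / L - (y + c) / L) = L * ((x + c) / L) - L * ((y + c) / L) := by ring
    have e4 : L * (-M) = -(L * M) := by ring
    have e5 : L * (M + 1) = L * M + L := by ring
    rw [abs_lt]
    constructor <;> omega
  exact ⟨key _ _ _ h.1, key _ _ _ h.2⟩

end Cell

/-! ### Finer grids -/

/-- The lines of the grid `(a', b', D)` are lines of the grid `(a, b, L)`. -/
structure Fine (a b L a' b' D : ℤ) : Prop where
  d : L ∣ D
  a : L ∣ a' - a
  b : L ∣ b' - b

section Fine

variable {a b L a' b' D a'' b'' E : ℤ} {f g : ℤ × ℤ}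

theorem Fine.refl (a b L : ℤ) : Fine a b L a b L := ⟨dvd_rfl, by simp, by simp⟩

theorem Fine.trans (h : Fine a b L a' b' D) (h' : Fine a' b' D a'' b'' E) :
    Fine a b L a'' b'' E := by
  refine ⟨h.d.trans h'.d, ?_, ?_⟩
  · have := (h.d.trans h'.a).add h.a
    simpa using this
  · have := (h.d.trans h'.b).add h.b
    simpa using this

theorem Fine.mag (h : Fine a b L a' b' D) (m : ℤ) :
    Fine (m * a) (m * b) (m * L) (m * a') (m * b') (m * D) :=
  ⟨mul_dvd_mul_left m h.d, by rw [← mul_sub]; exact mul_dvd_mul_left m h.a,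
    by rw [← mul_sub]; exact mul_dvd_mul_left m h.b⟩

theorem Fine.line_a (h : Fine a b L a' b' D) {t : ℤ} (ht : D ∣ t + a') : L ∣ t + a := by
  have := (h.d.trans ht).sub h.a
  rwa [show t + a' - (a' - a) = t + a by ring] at this

theorem Fine.line_b (h : Fine a b L a' b' D) {t : ℤ} (ht : D ∣ t + b') : L ∣ t + b := by
  have := (h.d.trans ht).sub h.b
  rwa [show t + b' - (b' - b) = t + b by ring] at this

theorem Fine.onL (h : Fine a b L a' b' D) {e : UE} (he : OnL a' b' D e) : OnL a b L e := by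
  obtain ⟨x, y, _ | _⟩ := e
  · exact h.line_b he
  · exact h.line_a he

theorem Fine.gridV (h : Fine a b L a' b' D) {v : ℤ × ℤ} (hv : v ∈ gridV a' b' D) :
    v ∈ gridV a b L := ⟨h.line_a hv.1, h.line_b hv.2⟩

theorem ediv_fine {d D u v x y : ℤ} (hd : 0 < d) (hD : 0 < D) (h1 : d ∣ D) (h2 : d ∣ u - v)
    (h : (x + v) / d = (y + v) / d) : (x + u) / D = (y + u) / D := by
  obtain ⟨k, rfl⟩ := h1
  obtain ⟨l, hl⟩ := h2
  have e : ∀ z : ℤ, (z + u) / (d * k) = ((z + v) / d + l) / k := by
    intro z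
    rw [← Int.ediv_ediv_of_nonneg hd.le]
    congr 1
    have : z + u = (z + v) + d * l := by linarith
    rw [this, Int.add_mul_ediv_left _ _ hd.ne']
  rw [e, e, h]

/-- The cells of the coarser grid are unions of cells of the finer grid. -/
theorem Fine.gc (h : Fine a b L a' b' D) (hL : 0 < L) (hD : 0 < D)
    (hfg : gc a b L f = gc a b L g) : gc a' b' D f = gc a' b' D g := by
  unfold Mv.gc at *
  rw [Prod.ext_iff] at hfg ⊢
  exact ⟨ediv_fine hL hD h.d h.a hfg.1, ediv_fine hL hD h.d h.b hfg.2⟩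

end Fine

/-! ### The rule -/

/-- The position `x`, rounded down to a line. -/
def rdL (a L x : ℤ) : ℤ := L * ((x + a) / L) - a

/-- The position `k` is at distance at least `D / 16` from the lines `D ∣ t + c`. -/
def okL (D c k : ℤ) : Prop := D / 16 ≤ (k + c) % D ∧ (k + c) % D ≤ D - D / 16

instance (D c k : ℤ) : Decidable (okL D c k) := by unfold okL; infer_instance

/-- The offset of the new grid in one coordinate: `x` is the tip, `k`, `l` are the two other vertices. -/
def offL (a L D x k l : ℤ) : ℤ :=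
  if okL D (D / 2 - rdL a L x) k ∧ okL D (D / 2 - rdL a L x) l then D / 2 - rdL a L x
  else if okL D (D / 2 - rdL a L x + D / 8) k ∧ okL D (D / 2 - rdL a L x + D / 8) l then
    D / 2 - rdL a L x + D / 8
  else D / 2 - rdL a L x - D / 8

theorem rdL_le {a L x : ℤ} (hL : 0 < L) : rdL a L x ≤ x ∧ x < rdL a L x + L := by
  have h1 := Int.mul_ediv_add_emod (x + a) L
  have h2 := Int.emod_nonneg (x + a) hL.ne'
  have h3 := Int.emod_lt_of_pos (x + a) hL
  unfold rdL
  exact ⟨by omega, by omega⟩

theorem rdL_dvd (a L x : ℤ) : L ∣ rdL a L x + a := ⟨(x + a) / L, by unfold rdL; ring⟩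

theorem offL_cases {a L D x k l : ℤ} : offL a L D x k l = D / 2 - rdL a L x ∨
    offL a L D x k l = D / 2 - rdL a L x + D / 8 ∨
    offL a L D x k l = D / 2 - rdL a L x - D / 8 := by
  unfold offL
  split_ifs
  · exact Or.inl rfl
  · exact Or.inr (Or.inl rfl)
  · exact Or.inr (Or.inr rfl)

/-- The new lines are old lines. -/
theorem offL_dvd {a L D x k l : ℤ} (h : 16 * L ∣ D) : L ∣ offL a L D x k l - a := by
  obtain ⟨t, rfl⟩ := h
  have e2 : 16 * L * t / 2 = L * (8 * t) := by
    rw [show 16 * L * t = 2 * (L * (8 * t)) by ring]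
    exact Int.mul_ediv_cancel_left _ (by norm_num)
  have e8 : 16 * L * t / 8 = L * (2 * t) := by
    rw [show 16 * L * t = 8 * (L * (2 * t)) by ring]
    exact Int.mul_ediv_cancel_left _ (by norm_num)
  have h1 := rdL_dvd a L x
  have h2 : L ∣ L * (8 * t) := dvd_mul_right _ _
  have h3 : L ∣ L * (2 * t) := dvd_mul_right _ _
  rcases offL_cases (a := a) (L := L) (D := 16 * L * t) (x := x) (k := k) (l := l) with h | h | h
  · rw [h, e2, show L * (8 * t) - rdL a L x - a = L * (8 * t) - (rdL a L x + a) by ring]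
    exact h2.sub h1
  · rw [h, e2, e8, show L * (8 * t) - rdL a L x + L * (2 * t) - a =
      L * (8 * t) - (rdL a L x + a) + L * (2 * t) by ring]
    exact (h2.sub h1).add h3
  · rw [h, e2, e8, show L * (8 * t) - rdL a L x - L * (2 * t) - a =
      L * (8 * t) - (rdL a L x + a) - L * (2 * t) by ring]
    exact (h2.sub h1).sub h3

/-- The tip is far from all the new lines. -/
theorem offL_tip {a L D x k l : ℤ} (hL : 0 < L) (hD : 0 < D) (h : 16 * L ∣ D) {t : ℤ}
    (ht : D ∣ t + offL a L D x k l) : 5 * D ≤ 16 * |t - x| := by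
  obtain ⟨s, hs⟩ := h
  set u := L * s with hu
  have hDu : D = 16 * u := by rw [hs, hu]; ring
  subst hDu
  have hs1 : 0 < s := by
    by_contra hcon
    push Not at hcon
    nlinarith
  have hLu : L ≤ u := by rw [hu]; nlinarith
  have e8 : 16 * u / 8 = 2 * u := by omega
  have e2 : 16 * u / 2 = 8 * u := by omega
  obtain ⟨h1, h2⟩ := rdL_le (a := a) (x := x) hL
  have h3 := offL_cases (a := a) (L := L) (D := 16 * u) (x := x) (k := k) (l := l)
  rw [e8, e2] at h3
  obtain ⟨z, hz⟩ := ht
  generalize offL a L (16 * u) x k l = c at *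
  generalize rdL a L x = r at *
  have a1 : t - x ≤ |t - x| := le_abs_self _
  have a2 : -(t - x) ≤ |t - x| := neg_le_abs _
  rcases (show z ≤ 0 ∨ 1 ≤ z by omega) with hz' | hz'
  · have h4 : 16 * u * z ≤ 0 := by nlinarith
    omega
  · have h4 : 16 * u ≤ 16 * u * z := by nlinarith
    omega

/-- Distance from the lines. -/
theorem far_of_okL {D c k : ℤ} (hD : 0 < D) (h16 : 16 ∣ D) (h : okL D c k) {t : ℤ}
    (ht : D ∣ t + c) : D ≤ 16 * |t - k| := by
  obtain ⟨u, rfl⟩ := h16
  obtain ⟨h1, h2⟩ := h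
  have e16 : 16 * u / 16 = u := by omega
  rw [e16] at h1 h2
  have m1 := Int.mul_ediv_add_emod (k + c) (16 * u)
  set q := (k + c) / (16 * u)
  set p := (k + c) % (16 * u)
  obtain ⟨z, hz⟩ := ht
  have a1 : t - k ≤ |t - k| := le_abs_self _
  have a2 : -(t - k) ≤ |t - k| := neg_le_abs _
  have e : 16 * u * z - 16 * u * q = 16 * u * (z - q) := by ring
  rcases (show z - q ≤ 0 ∨ 1 ≤ z - q by omega) with hz' | hz'
  · have h4 : 16 * u * (z - q) ≤ 0 := by nlinarith
    omega
  · have h4 : 16 * u ≤ 16 * u * (z - q) := by nlinarith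
    omega

/-- A position which is near to a line is not near to a line after a shift. -/
theorem okL_shift {u c k s : ℤ} (hu : 0 < u) (h : ¬ okL (16 * u) c k)
    (hs : s = 2 * u ∨ s = 4 * u ∨ s = -(2 * u) ∨ s = -(4 * u)) : okL (16 * u) (c + s) k := by
  have e16 : 16 * u / 16 = u := by omega
  unfold okL at *
  rw [e16] at *
  have m1 := Int.mul_ediv_add_emod (k + c) (16 * u)
  have m2 := Int.emod_nonneg (k + c) (show 16 * u ≠ 0 by omega)
  have m3 := Int.emod_lt_of_pos (k + c) (show 0 < 16 * u by omega)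
  set q := (k + c) / (16 * u)
  set p := (k + c) % (16 * u)
  have key : ∀ j e : ℤ, u ≤ e → e ≤ 16 * u - u → k + (c + s) = 16 * u * j + e →
      u ≤ (k + (c + s)) % (16 * u) ∧ (k + (c + s)) % (16 * u) ≤ 16 * u - u := by
    intro j e h1 h2 h3
    have h4 : (k + (c + s)) % (16 * u) = e := by
      rw [h3, Int.mul_add_emod_self_left]
      exact Int.emod_eq_of_lt (by omega) (by omega)
    rw [h4]
    exact ⟨h1, h2⟩
  have e1 : 16 * u * (q + 1) = 16 * u * q + 16 * u := by ring
  have e2 : 16 * u * (q - 1) = 16 * u * q - 16 * u := by ring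
  by_cases hp : p < u
  · rcases hs with hs | hs | hs | hs
    · exact key q (p + 2 * u) (by omega) (by omega) (by omega)
    · exact key q (p + 4 * u) (by omega) (by omega) (by omega)
    · exact key (q - 1) (p + 14 * u) (by omega) (by omega) (by omega)
    · exact key (q - 1) (p + 12 * u) (by omega) (by omega) (by omega)
  · have hp' : 15 * u < p := by
      by_contra hcon
      exact h ⟨by omega, by omega⟩
    rcases hs with hs | hs | hs | hs
    · exact key (q + 1) (p - 14 * u) (by omega) (by omega) (by omega)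
    · exact key (q + 1) (p - 12 * u) (by omega) (by omega) (by omega)
    · exact key q (p - 2 * u) (by omega) (by omega) (by omega)
    · exact key q (p - 4 * u) (by omega) (by omega) (by omega)

theorem offL_ok {a L D x k l : ℤ} (hD : 0 < D) (h16 : 16 ∣ D) :
    okL D (offL a L D x k l) k ∧ okL D (offL a L D x k l) l := by
  obtain ⟨u, rfl⟩ := h16
  have hu : 0 < u := by omega
  have e8 : 16 * u / 8 = 2 * u := by omega
  unfold offL
  rw [e8]
  set c := 16 * u / 2 - rdL a L x
  split_ifs with h1 h2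
  · exact h1
  · exact h2
  · -- each of the two shifts is bad for one of the two positions, not for the same one
    rw [not_and_or] at h1 h2
    have s1 : ∀ y, ¬ okL (16 * u) c y → okL (16 * u) (c + 2 * u) y := fun y hy =>
      okL_shift hu hy (Or.inl rfl)
    have s2 : ∀ y, ¬ okL (16 * u) c y → okL (16 * u) (c - 2 * u) y := fun y hy => by
      rw [sub_eq_add_neg]
      exact okL_shift hu hy (Or.inr (Or.inr (Or.inl rfl)))
    have s3 : ∀ y, ¬ okL (16 * u) (c + 2 * u) y → okL (16 * u) (c - 2 * u) y := fun y hy => by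
      rw [show c - 2 * u = c + 2 * u + -(4 * u) by ring]
      exact okL_shift hu hy (Or.inr (Or.inr (Or.inr rfl)))
    rcases h1 with h1 | h1 <;> rcases h2 with h2 | h2
    · exact absurd (s1 k h1) h2
    · exact ⟨s2 k h1, s3 l h2⟩
    · exact ⟨s3 k h2, s2 l h1⟩
    · exact absurd (s1 l h1) h2

theorem offL_far {a L D x k l : ℤ} (hD : 0 < D) (h : 16 * L ∣ D) {t : ℤ}
    (ht : D ∣ t + offL a L D x k l) : D ≤ 16 * |t - k| ∧ D ≤ 16 * |t - l| := by
  have h16 : 16 ∣ D := (Dvd.intro L rfl).trans h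
  exact ⟨far_of_okL hD h16 (offL_ok hD h16).1 ht, far_of_okL hD h16 (offL_ok hD h16).2 ht⟩

section Rule

variable {a b L D : ℤ} {v u w : ℤ × ℤ}

/-- **The rule for the next grid**: the offset `(a', b')` with `a' = offL a L D v.1 u.1 w.1`,
`b' = offL b L D v.2 u.2 w.2`, where `v` is the tip and `u`, `w` are two other vertices. -/
theorem fine_offL (h : 16 * L ∣ D) :
    Fine a b L (offL a L D v.1 u.1 w.1) (offL b L D v.2 u.2 w.2) D :=
  ⟨(Dvd.intro_left 16 rfl).trans h, offL_dvd h, offL_dvd h⟩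

theorem offL_tip_off (hL : 0 < L) (hD : 0 < D) (h : 16 * L ∣ D) :
    OffL (offL a L D v.1 u.1 w.1) (offL b L D v.2 u.2 w.2) D (D / 5) v := by
  constructor
  · intro t ht
    have := offL_tip hL hD h ht
    omega
  · intro t ht
    have := offL_tip hL hD h ht
    omega

theorem offL_fst_off (hD : 0 < D) (h : 16 * L ∣ D) :
    OffL (offL a L D v.1 u.1 w.1) (offL b L D v.2 u.2 w.2) D (D / 16) u := by
  constructor
  · intro t ht
    have := (offL_far hD h ht).1
    omega
  · intro t ht
    have := (offL_far hD h ht).1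
    omega

theorem offL_snd_off (hD : 0 < D) (h : 16 * L ∣ D) :
    OffL (offL a L D v.1 u.1 w.1) (offL b L D v.2 u.2 w.2) D (D / 16) w := by
  constructor
  · intro t ht
    have := (offL_far hD h ht).2
    omega
  · intro t ht
    have := (offL_far hD h ht).2
    omega

end Rule

/-! ### Neighbourhoods without lines -/

section NoLine

variable {a b L r : ℤ} {v f g : ℤ × ℤ}

/-- No line in the open interval `(u, v)`: all the faces there are in one column. -/
theorem ediv_eq_of_no_line {d a u v x y : ℤ} (hd : 0 < d) (hno : ∀ z, u < z → z < v → ¬ d ∣ z + a)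
    (hx : u ≤ x) (hx' : x < v) (hy : u ≤ y) (hy' : y < v) : (x + a) / d = (y + a) / d := by
  have key : ∀ n : ℕ, ∀ x, u ≤ x → x + n < v → (x + a) / d = (x + n + a) / d := by
    intro n
    induction n with
    | zero => intro x _ _; simp
    | succ n ih =>
      intro x h1 h2
      push_cast at h2 ⊢
      rw [ih x h1 (by omega)]
      have h3 : ¬ d ∣ x + (n + 1) + a := hno (x + (n + 1)) (by omega) (by omega)
      have h4 := (ediv_pred hd).2 h3
      rw [← h4]
      congr 1
      ring
  rcases le_total x y with h | h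
  · have := key (y - x).toNat x hx (by rw [Int.toNat_of_nonneg (by omega)]; omega)
    rw [Int.toNat_of_nonneg (by omega)] at this
    rw [this]
    congr 1
    ring
  · have := key (x - y).toNat y hy (by rw [Int.toNat_of_nonneg (by omega)]; omega)
    rw [Int.toNat_of_nonneg (by omega)] at this
    rw [this]
    congr 1
    ring

/-- The faces of the box of radius `r` around a vertex at distance at least `r` from the lines are in
one cell. -/
theorem OffL.gc_eq (h : OffL a b L r v) (hL : 0 < L) (f1 : v.1 - r ≤ f.1) (f2 : f.1 < v.1 + r)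
    (f3 : v.2 - r ≤ f.2) (f4 : f.2 < v.2 + r) (g1 : v.1 - r ≤ g.1) (g2 : g.1 < v.1 + r)
    (g3 : v.2 - r ≤ g.2) (g4 : g.2 < v.2 + r) : gc a b L f = gc a b L g := by
  unfold gc
  rw [Prod.mk.injEq]
  refine ⟨ediv_eq_of_no_line hL (u := v.1 - r) (v := v.1 + r) ?_ f1 f2 g1 g2,
    ediv_eq_of_no_line hL (u := v.2 - r) (v := v.2 + r) ?_ f3 f4 g3 g4⟩
  · intro z h1 h2 h3
    have h4 := h.1 z h3
    have h5 : |z - v.1| < r := by rw [abs_lt]; constructor <;> omega
    omega
  · intro z h1 h2 h3
    have h4 := h.2 z h3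
    have h5 : |z - v.2| < r := by rw [abs_lt]; constructor <;> omega
    omega

/-- The faces of the box of radius `r` around `v` are in the cell of the face `v`. -/
theorem OffL.gc_eq_self (h : OffL a b L r v) (hL : 0 < L) (f1 : v.1 - r ≤ f.1) (f2 : f.1 < v.1 + r)
    (f3 : v.2 - r ≤ f.2) (f4 : f.2 < v.2 + r) : gc a b L f = gc a b L v :=
  h.gc_eq hL f1 f2 f3 f4 (by omega) (by omega) (by omega) (by omega)

theorem OffL.mono (h : OffL a b L r v) {s : ℤ} (hs : s ≤ r) : OffL a b L s v :=
  ⟨fun t ht => hs.trans (h.1 t ht), fun t ht => hs.trans (h.2 t ht)⟩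

/-- Magnification. -/
theorem OffL.mag (h : OffL a b L r v) {m : ℤ} (hm : 0 < m) :
    OffL (m * a) (m * b) (m * L) (m * r) (m * v.1, m * v.2) := by
  have key : ∀ a x : ℤ, (∀ t, L ∣ t + a → r ≤ |t - x|) → ∀ t, m * L ∣ t + m * a →
      m * r ≤ |t - m * x| := by
    intro a x hx t ht
    have h1 : m ∣ t := by
      have h2 : m ∣ t + m * a := (Dvd.intro L rfl).trans ht
      exact (dvd_add_left (Dvd.intro a rfl)).1 h2
    obtain ⟨s, rfl⟩ := h1
    rw [← mul_add] at ht
    have h2 := hx s (Int.dvd_of_mul_dvd_mul_left hm.ne' ht)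
    rw [← mul_sub, abs_mul, abs_of_pos hm]
    exact mul_le_mul_of_nonneg_left h2 hm.le
  exact ⟨key _ _ h.1, key _ _ h.2⟩

end NoLine

/-! ### The meshes of a chain -/

/-- The mesh of the grid of the stage `i`, in units of the finest grid, for the resolutions
`r 0 ≥ r 1 ≥ …`. -/
def msh (r : ℕ → ℕ) (i : ℕ) : ℤ := 2 ^ (r 0 - r i)

theorem msh_pos (r : ℕ → ℕ) (i : ℕ) : 0 < msh r i := by
  unfold msh
  positivity

theorem msh_zero (r : ℕ → ℕ) : msh r 0 = 1 := by
  unfold msh
  simp

theorem msh_succ {r : ℕ → ℕ} {i : ℕ} (h0 : r i ≤ r 0) (h : r (i + 1) ≤ r i) :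
    msh r (i + 1) = 2 ^ (r i - r (i + 1)) * msh r i := by
  unfold msh
  rw [← pow_add]
  congr 1
  omega

/-- Four steps of the resolution give the factor `16`. -/
theorem msh_dvd {r : ℕ → ℕ} {i : ℕ} (h0 : r i ≤ r 0) (h : r (i + 1) + 4 ≤ r i) :
    16 * msh r i ∣ msh r (i + 1) := by
  rw [msh_succ h0 (by omega)]
  refine mul_dvd_mul_right ?_ _
  have : (16 : ℤ) = 2 ^ 4 := by norm_num
  rw [this]
  exact pow_dvd_pow 2 (by omega)

/-- The mesh of the stage `i` is a unit of level `r i`: it depends on `r i` and the unit only. -/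
theorem msh_mul {r : ℕ → ℕ} {i : ℕ} (h0 : r i ≤ r 0) (x : ℤ) :
    msh r i * (x * 2 ^ (r i)) = x * 2 ^ (r 0) := by
  unfold msh
  rw [show (2 : ℤ) ^ (r 0 - r i) * (x * 2 ^ r i) = x * (2 ^ (r 0 - r i) * 2 ^ r i) by ring,
    ← pow_add, Nat.sub_add_cancel h0]

end Pool.Agent.SixB.Mv
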