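import Pool.Agent.Lib.SixB.S8EndApp
import Pool.Agent.Lib.SixB.S8GridPos

/-!
# Step 8: the erosion on a square grid

`er3 (gc a b L) P` consists of the faces `f` such that all the cells at distance at most two (in the
sum norm of the names) from the cell of `f` lie in `P` (`mem_er3_gc`). So the box of radius `L` around
a face of `er3` lies in `P`, and a face whose box of radius `3 * L - 1` lies in `P` is in `er3`; chains
of such faces are in one component of `er3`.
-/

set_option autoImplicit false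

namespace Pool.Agent.SixB.Mv

open Pool.Agent.Perc Pool.Agent.Perc6 Pool.Agent.SixB.EndApp Pool.Agent.SixB.Top

variable {a b L : ℤ} {P : Set (ℤ × ℤ)} {f g : ℤ × ℤ}

/-- Distance of the names of two cells. -/
def nmd (z w : ℤ × ℤ) : ℤ := |z.1 - w.1| + |z.2 - w.2|

theorem nmd_self (z : ℤ × ℤ) : nmd z z = 0 := by simp [nmd]

theorem nmd_tri (x y z : ℤ × ℤ) : nmd x z ≤ nmd x y + nmd y z := by
  unfold nmd
  have h1 := abs_sub_le x.1 y.1 z.1
  have h2 := abs_sub_le x.2 y.2 z.2
  omega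

theorem gc_step (hL : 0 < L) (h : Adj f g) : nmd (gc a b L g) (gc a b L f) ≤ 1 := by
  have key : ∀ x c : ℤ, (x + 1 + c) / L = (x + c) / L ∨ (x + 1 + c) / L = (x + c) / L + 1 := by
    intro x c
    have h1 := Int.mul_ediv_add_emod (x + c) L
    have h2 := Int.emod_nonneg (x + c) hL.ne'
    have h3 := Int.emod_lt_of_pos (x + c) hL
    rcases (show (x + c) % L + 1 < L ∨ (x + c) % L + 1 = L by omega) with h | h
    · left
      rw [ediv_eq_iff_mem hL]
      exact ⟨by omega, by omega⟩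
    · right
      rw [ediv_eq_iff_mem hL]
      have e : L * ((x + c) / L + 1) = L * ((x + c) / L) + L := by ring
      rw [e]
      exact ⟨by omega, by omega⟩
  unfold nmd gc
  simp only
  obtain ⟨x, y⟩ := f
  obtain ⟨x', y'⟩ := g
  unfold Adj at h
  simp only at h ⊢
  rcases h with ⟨h1, h2⟩ | ⟨h1, h2⟩
  · obtain rfl : x' = x := by omega
    rcases h2 with h2 | h2
    · obtain rfl : y = y' + 1 := by omega
      rcases key y' b with h | h <;> rw [h] <;> simp
    · obtain rfl : y' = y + 1 := by omega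
      rcases key y b with h | h <;> rw [h] <;> simp
  · obtain rfl : y' = y := by omega
    rcases h2 with h2 | h2
    · obtain rfl : x = x' + 1 := by omega
      rcases key x' a with h | h <;> rw [h] <;> simp
    · obtain rfl : x' = x + 1 := by omega
      rcases key x a with h | h <;> rw [h] <;> simp

/-- Cells with names at distance one have neighbouring faces. -/
theorem exists_adj_of_nmd (hL : 0 < L) {z w : ℤ × ℤ} (h : nmd w z = 1) :
    ∃ y x, gc a b L y = z ∧ gc a b L x = w ∧ Adj y x := by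
  unfold nmd at h
  have hc : (w.1 = z.1 + 1 ∧ w.2 = z.2) ∨ (w.1 = z.1 - 1 ∧ w.2 = z.2) ∨
      (w.1 = z.1 ∧ w.2 = z.2 + 1) ∨ (w.1 = z.1 ∧ w.2 = z.2 - 1) := by
    rcases abs_cases (w.1 - z.1) with ⟨h1, h2⟩ | ⟨h1, h2⟩ <;>
      rcases abs_cases (w.2 - z.2) with ⟨h3, h4⟩ | ⟨h3, h4⟩ <;> omega
  rcases hc with ⟨h1, h2⟩ | ⟨h1, h2⟩ | ⟨h1, h2⟩ | ⟨h1, h2⟩
  · refine ⟨(L * z.1 - a + L - 1, L * z.2 - b), (L * w.1 - a, L * w.2 - b), ?_, ?_, ?_⟩
    · rw [gc_eq_iff hL]; refine ⟨⟨?_, ?_⟩, ?_, ?_⟩ <;> simp only <;> omega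
    · rw [gc_eq_iff hL]; refine ⟨⟨?_, ?_⟩, ?_, ?_⟩ <;> simp only <;> omega
    · rw [h1, h2]
      exact Or.inr ⟨rfl, Or.inr (by simp only; ring)⟩
  · refine ⟨(L * z.1 - a, L * z.2 - b), (L * w.1 - a + L - 1, L * w.2 - b), ?_, ?_, ?_⟩
    · rw [gc_eq_iff hL]; refine ⟨⟨?_, ?_⟩, ?_, ?_⟩ <;> simp only <;> omega
    · rw [gc_eq_iff hL]; refine ⟨⟨?_, ?_⟩, ?_, ?_⟩ <;> simp only <;> omega
    · rw [h1, h2]
      exact Or.inr ⟨rfl, Or.inl (by simp only; ring)⟩
  · refine ⟨(L * z.1 - a, L * z.2 - b + L - 1), (L * w.1 - a, L * w.2 - b), ?_, ?_, ?_⟩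
    · rw [gc_eq_iff hL]; refine ⟨⟨?_, ?_⟩, ?_, ?_⟩ <;> simp only <;> omega
    · rw [gc_eq_iff hL]; refine ⟨⟨?_, ?_⟩, ?_, ?_⟩ <;> simp only <;> omega
    · rw [h1, h2]
      exact Or.inl ⟨rfl, Or.inr (by simp only; ring)⟩
  · refine ⟨(L * z.1 - a, L * z.2 - b), (L * w.1 - a, L * w.2 - b + L - 1), ?_, ?_, ?_⟩
    · rw [gc_eq_iff hL]; refine ⟨⟨?_, ?_⟩, ?_, ?_⟩ <;> simp only <;> omega
    · rw [gc_eq_iff hL]; refine ⟨⟨?_, ?_⟩, ?_, ?_⟩ <;> simp only <;> omega
    · rw [h1, h2]
      exact Or.inl ⟨rfl, Or.inl (by simp only; ring)⟩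

/-- One erosion of a union of cells. -/
theorem er_gc (hL : 0 < L) (S : ℤ × ℤ → Prop) :
    er Adj (gc a b L) {f | S (gc a b L f)} = {f | ∀ z, nmd z (gc a b L f) ≤ 1 → S z} := by
  ext f
  constructor
  · rintro ⟨h0, h1⟩ z hz
    have h2 : 0 ≤ nmd z (gc a b L f) := by unfold nmd; positivity
    rcases (show nmd z (gc a b L f) = 0 ∨ nmd z (gc a b L f) = 1 by omega) with h | h
    · have hzf : z = gc a b L f := by
        unfold nmd at h
        have e1 := abs_nonneg (z.1 - (gc a b L f).1)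
        have e2 := abs_nonneg (z.2 - (gc a b L f).2)
        have e3 : |z.1 - (gc a b L f).1| = 0 := by omega
        have e4 : |z.2 - (gc a b L f).2| = 0 := by omega
        rw [abs_eq_zero] at e3 e4
        exact Prod.ext (by omega) (by omega)
      rw [hzf]
      exact h0
    · obtain ⟨y, x, hy, hx, hyx⟩ := exists_adj_of_nmd (a := a) (b := b) hL h
      have h3 := h1 y hy x hyx
      have h4 : S (gc a b L x) := h3
      rwa [hx] at h4
  · intro h
    refine ⟨h _ (by rw [nmd_self]; omega), fun y hy w hyw => ?_⟩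
    have h1 := gc_step (a := a) (b := b) hL hyw
    rw [hy] at h1
    exact h _ h1

theorem nmd_two {z w : ℤ × ℤ} (h : nmd z w ≤ 2) : ∃ y, nmd y w ≤ 1 ∧ nmd z y ≤ 1 := by
  unfold nmd at h
  by_cases h1 : z.1 = w.1
  · by_cases h2 : |z.2 - w.2| ≤ 1
    · refine ⟨w, by rw [nmd_self]; omega, ?_⟩
      unfold nmd
      rw [h1]
      simpa using h2
    · rcases le_total z.2 w.2 with h3 | h3
      · refine ⟨(w.1, w.2 - 1), ?_, ?_⟩
        · unfold nmd; simp
        · unfold nmd
          simp only [h1, sub_self, abs_zero, zero_add]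
          rw [h1, sub_self, abs_zero, zero_add, abs_le] at h
          rw [abs_le]
          constructor
          · omega
          · by_contra hcon
            apply h2
            rw [abs_le]
            constructor <;> omega
      · refine ⟨(w.1, w.2 + 1), ?_, ?_⟩
        · unfold nmd; simp
        · unfold nmd
          simp only [h1, sub_self, abs_zero, zero_add]
          rw [h1, sub_self, abs_zero, zero_add, abs_le] at h
          rw [abs_le]
          constructor
          · by_contra hcon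
            apply h2
            rw [abs_le]
            constructor <;> omega
          · omega
  · rcases lt_or_gt_of_ne h1 with h3 | h3
    · refine ⟨(w.1 - 1, w.2), ?_, ?_⟩
      · unfold nmd; simp
      · unfold nmd
        simp only
        have e1 : |z.1 - w.1| = -(z.1 - w.1) := abs_of_neg (by omega)
        have e2 : |z.1 - (w.1 - 1)| = -(z.1 - (w.1 - 1)) := abs_of_nonpos (by omega)
        rw [e2]
        rw [e1] at h
        omega
    · refine ⟨(w.1 + 1, w.2), ?_, ?_⟩
      · unfold nmd; simp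
      · unfold nmd
        simp only
        have e1 : |z.1 - w.1| = z.1 - w.1 := abs_of_pos (by omega)
        have e2 : |z.1 - (w.1 + 1)| = z.1 - (w.1 + 1) := abs_of_nonneg (by omega)
        rw [e2]
        rw [e1] at h
        omega

/-- **The erosion on a square grid.** -/
theorem mem_er3_gc (hL : 0 < L) : f ∈ er3 (gc a b L) P ↔
    ∀ g, nmd (gc a b L g) (gc a b L f) ≤ 2 → g ∈ P := by
  have h1 : er Adj (gc a b L) (er0 (gc a b L) P) =
      {f | ∀ z, nmd z (gc a b L f) ≤ 1 → ∀ g, gc a b L g = z → g ∈ P} :=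
    er_gc hL (fun z => ∀ g, gc a b L g = z → g ∈ P)
  have h2 : er Adj (gc a b L)
      {f | ∀ z, nmd z (gc a b L f) ≤ 1 → ∀ g, gc a b L g = z → g ∈ P} =
      {f | ∀ w, nmd w (gc a b L f) ≤ 1 → ∀ z, nmd z w ≤ 1 → ∀ g, gc a b L g = z → g ∈ P} :=
    er_gc hL (fun w => ∀ z, nmd z w ≤ 1 → ∀ g, gc a b L g = z → g ∈ P)
  unfold er3
  rw [h1, h2]
  constructor
  · intro h g hg
    obtain ⟨y, hy1, hy2⟩ := nmd_two hg
    exact h y hy1 _ hy2 g rfl
  · intro h z hz w hw g hg
    apply h
    rw [hg]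
    have := nmd_tri w z (gc a b L f)
    omega

/-- The box of radius `L` around a face of the eroded set. -/
theorem er3_box (hL : 0 < L) (h : f ∈ er3 (gc a b L) P) (h1 : |g.1 - f.1| ≤ L)
    (h2 : |g.2 - f.2| ≤ L) : g ∈ P := by
  have h3 : g ∈ blk a b L 1 f := mem_blk_of_box hL (by rwa [mul_one]) (by rwa [mul_one])
  refine (mem_er3_gc hL).1 h g ?_
  obtain ⟨h4, h5⟩ := h3
  unfold nmd
  omega

/-- A face whose box of radius `< 3 * L` lies in `P` is in the eroded set. -/
theorem er3_of_box (hL : 0 < L) (h : ∀ g : ℤ × ℤ, |g.1 - f.1| < 3 * L → |g.2 - f.2| < 3 * L → g ∈ P) :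
    f ∈ er3 (gc a b L) P := by
  rw [mem_er3_gc hL]
  intro g hg
  have h1 : g ∈ blk a b L 2 f := by
    unfold nmd at hg
    have e1 := abs_nonneg ((gc a b L g).1 - (gc a b L f).1)
    have e2 := abs_nonneg ((gc a b L g).2 - (gc a b L f).2)
    exact ⟨by omega, by omega⟩
  obtain ⟨h2, h3⟩ := blk_box hL h1
  exact h g (by omega) (by omega)

theorem er3_subset : er3 (gc a b L) P ⊆ P := fun _ hx => er0_sub (er_sub (er_sub hx))

theorem er3_sat (x y : ℤ × ℤ) (h : gc a b L x = gc a b L y) (hx : x ∈ er3 (gc a b L) P) :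
    y ∈ er3 (gc a b L) P := er_sat (er_sat er0_sat) x y h hx

theorem er3_mono {P' : Set (ℤ × ℤ)} (hL : 0 < L) (h : P ⊆ P') :
    er3 (gc a b L) P ⊆ er3 (gc a b L) P' := by
  intro f hf
  rw [mem_er3_gc hL] at hf ⊢
  exact fun g hg => h (hf g hg)

theorem er3_finite (hP : P.Finite) : (er3 (gc a b L) P).Finite := hP.subset er3_subset

/-- The faces of `P` whose box of radius `< 3 * L` lies in `P`. -/
def deep (L : ℤ) (P : Set (ℤ × ℤ)) : Set (ℤ × ℤ) :=
  {f | ∀ g : ℤ × ℤ, |g.1 - f.1| < 3 * L → |g.2 - f.2| < 3 * L → g ∈ P}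

theorem deep_sub (hL : 0 < L) : deep L P ⊆ er3 (gc a b L) P := fun _ h => er3_of_box hL h

/-- Chains of deep faces are in one component of the eroded set. -/
theorem compT_of_deep (hL : 0 < L) (h : ChI (deep L P) f g) :
    g ∈ compT (er3 (gc a b L) P) f := ChI.mono (deep_sub hL) h

theorem compT_eq_of_deep (hL : 0 < L) (hf : f ∈ deep L P) (h : ChI (deep L P) f g) :
    compT (er3 (gc a b L) P) f = compT (er3 (gc a b L) P) g :=
  (compT_eq (deep_sub hL hf) (compT_of_deep hL h)).symm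

/-- The component of the eroded set is saturated. -/
theorem compT_er3_sat (hL : 0 < L) (hf : f ∈ er3 (gc a b L) P) (x y : ℤ × ℤ)
    (h : gc a b L x = gc a b L y) (hx : x ∈ compT (er3 (gc a b L) P) f) :
    y ∈ compT (er3 (gc a b L) P) f := by
  have hxE : x ∈ er3 (gc a b L) P := compT_sub hf hx
  have h1 := (gc_chn (a := a) (b := b) hL h).2
  have h2 : ∀ z, Relation.ReflTransGen (fun a' b' => Adj a' b' ∧ b' ∈ {z | gc a b L z = gc a b L x})
      x z → z ∈ compT (er3 (gc a b L) P) f := by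
    intro z hz
    induction hz with
    | refl => exact hx
    | @tail p q hp hs ih =>
      refine compT_step ih (adj_iff_adjFL.1 hs.1) ?_
      exact er3_sat x q (show gc a b L x = gc a b L q from hs.2.symm) hxE
  exact h2 y h1

/-- The component of the eroded set is closed in the eroded set. -/
theorem compT_er3_clo (x : ℤ × ℤ) (hx : x ∈ compT (er3 (gc a b L) P) f) (y : ℤ × ℤ)
    (hy : y ∈ er3 (gc a b L) P) (h : Adj x y) : y ∈ compT (er3 (gc a b L) P) f :=
  compT_step hx (adj_iff_adjFL.1 h) hy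

end Pool.Agent.SixB.Mv
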