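import Pool.Agent.Lib.SixB.S8State
import Pool.Agent.Lib.SixB.S8ErodeG

/-!
# Step 8: the grid of a move is in general position

The facts on `Dom.grd` (S8State) from the rule `offL` (S8GridPos), and the divisibility of the meshes.
-/

set_option autoImplicit false

namespace Pool.Agent.SixB.Mv

open Pool.Agent.Perc Pool.Agent.Perc6 Pool.Agent.Perc.Tips Pool.Agent.SixB.Top

/-- The meshes of the moves are multiples of `16`. -/
theorem msh_16 {r : ℕ → ℕ} {i : ℕ} (h : r i + 4 ≤ r 0) : 16 ∣ msh r i := by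
  unfold msh
  have h1 : (16 : ℤ) = 2 ^ 4 := by norm_num
  rw [h1]
  exact pow_dvd_pow 2 (by omega)

/-- The half side of the blocks is the same for all moves. -/
theorem msh_msz {κ : ℕ} {r : ℕ → ℕ} {i : ℕ} (hκ : κ ≤ r i) (h : r i ≤ r 0) :
    msh r i * msz κ r i = 2 ^ (r 0 - κ) := by
  unfold msh msz
  rw [← pow_add]
  congr 1
  omega

theorem msz_pos (κ : ℕ) (r : ℕ → ℕ) (i : ℕ) : 0 < msz κ r i := by
  unfold msz
  positivity

/-- The two ends of a side differ by one unit. -/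
theorem lf_rg_near (B : UE × Bool) : |(lf B).1 - (rg B).1| + |(lf B).2 - (rg B).2| = 1 := by
  obtain ⟨⟨x, y, _ | _⟩, _ | _⟩ := B <;> simp [lf, rg]

namespace Dom

variable (s : Dom) {L M : ℤ}

@[simp] theorem grd_L : (s.grd L M).L = L := rfl

@[simp] theorem grd_M : (s.grd L M).M = M := rfl

/-- The tip is far from all the lines. -/
theorem grd_tip (hL : 0 < L) (h : 16 ∣ L) :
    OffL (s.grd L M).a (s.grd L M).b (s.grd L M).L (L / 5) s.tip :=
  offL_tip_off (a := 0) (b := 0) (v := lf s.A) (u := lf s.B) (w := rg s.B) one_pos hL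
    (by simpa using h)

theorem grd_tip_x (hL : 0 < L) (h : 16 ∣ L) {t : ℤ} (ht : L ∣ t + (s.grd L M).a) :
    5 * L ≤ 16 * |t - s.tip.1| :=
  offL_tip (a := 0) one_pos hL (by simpa using h) ht

theorem grd_tip_y (hL : 0 < L) (h : 16 ∣ L) {t : ℤ} (ht : L ∣ t + (s.grd L M).b) :
    5 * L ≤ 16 * |t - s.tip.2| :=
  offL_tip (a := 0) one_pos hL (by simpa using h) ht

/-- The left end of the target side is not near to a line. -/
theorem grd_lfB (hL : 0 < L) (h : 16 ∣ L) :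
    OffL (s.grd L M).a (s.grd L M).b (s.grd L M).L (L / 16) (lf s.B) :=
  offL_fst_off (a := 0) (b := 0) (v := lf s.A) (u := lf s.B) (w := rg s.B) (L := 1) hL
    (by simpa using h)

/-- The right end of the target side is not near to a line. -/
theorem grd_rgB (hL : 0 < L) (h : 16 ∣ L) :
    OffL (s.grd L M).a (s.grd L M).b (s.grd L M).L (L / 16) (rg s.B) :=
  offL_snd_off (a := 0) (b := 0) (v := lf s.A) (u := lf s.B) (w := rg s.B) (L := 1) hL
    (by simpa using h)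

/-- The faces of the box of radius `L / 5` around the tip are in the cell of the tip. -/
theorem grd_nm_tip (hL : 0 < L) (h : 16 ∣ L) {f : ℤ × ℤ} (f1 : s.tip.1 - L / 5 ≤ f.1)
    (f2 : f.1 < s.tip.1 + L / 5) (f3 : s.tip.2 - L / 5 ≤ f.2) (f4 : f.2 < s.tip.2 + L / 5) :
    (s.grd L M).nm f = (s.grd L M).nm s.tip := by
  have hpos : 0 < L / 5 := by omega
  exact (s.grd_tip (M := M) hL h).gc_eq hL f1 f2 f3 f4 (by omega) (by omega) (by omega) (by omega)

/-- The faces of the box of radius `L / 16` around the left end of the target side are in one cell. -/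
theorem grd_nm_lfB (hL : 0 < L) (h : 16 ∣ L) {f : ℤ × ℤ} (f1 : (lf s.B).1 - L / 16 ≤ f.1)
    (f2 : f.1 < (lf s.B).1 + L / 16) (f3 : (lf s.B).2 - L / 16 ≤ f.2)
    (f4 : f.2 < (lf s.B).2 + L / 16) :
    (s.grd L M).nm f = (s.grd L M).nm (lf s.B) := by
  have hpos : 0 < L / 16 := by omega
  exact (s.grd_lfB (M := M) hL h).gc_eq hL f1 f2 f3 f4 (by omega) (by omega) (by omega) (by omega)

theorem grd_nm_rgB (hL : 0 < L) (h : 16 ∣ L) {f : ℤ × ℤ} (f1 : (rg s.B).1 - L / 16 ≤ f.1)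
    (f2 : f.1 < (rg s.B).1 + L / 16) (f3 : (rg s.B).2 - L / 16 ≤ f.2)
    (f4 : f.2 < (rg s.B).2 + L / 16) :
    (s.grd L M).nm f = (s.grd L M).nm (rg s.B) := by
  have hpos : 0 < L / 16 := by omega
  exact (s.grd_rgB (M := M) hL h).gc_eq hL f1 f2 f3 f4 (by omega) (by omega) (by omega) (by omega)

end Dom

/-- The face in front of a side is at its left end. -/
theorem ahead_lf_near (B : UE × Bool) :
    (lf B).1 - 1 ≤ (ahead B).1 ∧ (ahead B).1 < (lf B).1 + 1 ∧
      (lf B).2 - 1 ≤ (ahead B).2 ∧ (ahead B).2 < (lf B).2 + 1 := by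
  obtain ⟨⟨x, y, _ | _⟩, _ | _⟩ := B <;> simp only [lf, ahead] <;>
    refine ⟨?_, ?_, ?_, ?_⟩ <;> omega

theorem ahead_rv_lf_near (B : UE × Bool) :
    (lf B).1 - 1 ≤ (ahead (rv B)).1 ∧ (ahead (rv B)).1 < (lf B).1 + 1 ∧
      (lf B).2 - 1 ≤ (ahead (rv B)).2 ∧ (ahead (rv B)).2 < (lf B).2 + 1 := by
  obtain ⟨⟨x, y, _ | _⟩, _ | _⟩ := B <;> simp only [lf, ahead, rv] <;>
    refine ⟨?_, ?_, ?_, ?_⟩ <;> simp only [Bool.not_true, Bool.not_false] <;> omega

namespace Dom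

variable (s : Dom) {L M : ℤ}

/-- The two faces at the tip side are in the cell of the tip. -/
theorem grd_nm_A (hL : 0 < L) (h : 16 ∣ L) : (s.grd L M).nm (ahead s.A) = (s.grd L M).nm s.tip ∧
    (s.grd L M).nm (ahead (rv s.A)) = (s.grd L M).nm s.tip := by
  have h1 := ahead_lf_near s.A
  have h2 := ahead_rv_lf_near s.A
  unfold tip at *
  constructor
  · refine s.grd_nm_tip hL h ?_ ?_ ?_ ?_ <;> unfold tip <;> omega
  · refine s.grd_nm_tip hL h ?_ ?_ ?_ ?_ <;> unfold tip <;> omega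

/-- The two faces at the target side are in the cell of its left end. -/
theorem grd_nm_B (hL : 0 < L) (h : 16 ∣ L) : (s.grd L M).nm (ahead s.B) = (s.grd L M).nm (lf s.B) ∧
    (s.grd L M).nm (ahead (rv s.B)) = (s.grd L M).nm (lf s.B) := by
  have h1 := ahead_lf_near s.B
  have h2 := ahead_rv_lf_near s.B
  constructor
  · refine s.grd_nm_lfB hL h ?_ ?_ ?_ ?_ <;> omega
  · refine s.grd_nm_lfB hL h ?_ ?_ ?_ ?_ <;> omega

/-- No grid line carries the tip side. -/
theorem grd_not_onL_A (hL : 0 < L) (h : 16 ∣ L) :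
    ¬ OnL (s.grd L M).a (s.grd L M).b L s.A.1 := by
  intro h1
  have h2 := (gc_ne_iff (a := (s.grd L M).a) (b := (s.grd L M).b) hL s.A).2 h1
  obtain ⟨h3, h4⟩ := s.grd_nm_A (M := M) hL h
  exact h2 (h3.trans h4.symm)

/-- No grid line carries the target side. -/
theorem grd_not_onL_B (hL : 0 < L) (h : 16 ∣ L) :
    ¬ OnL (s.grd L M).a (s.grd L M).b L s.B.1 := by
  intro h1
  have h2 := (gc_ne_iff (a := (s.grd L M).a) (b := (s.grd L M).b) hL s.B).2 h1
  obtain ⟨h3, h4⟩ := s.grd_nm_B (M := M) hL h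
  exact h2 (h3.trans h4.symm)

/-- The block contains the box of radius `M * L` around the tip. -/
theorem mem_blk_grd (hL : 0 < L) {f : ℤ × ℤ} (h1 : |f.1 - s.tip.1| ≤ L * M)
    (h2 : |f.2 - s.tip.2| ≤ L * M) : f ∈ s.blk (s.grd L M) := mem_blk_of_box hL h1 h2

/-- The block is contained in the box of radius `(M + 1) * L` around the tip. -/
theorem blk_grd_box (hL : 0 < L) {f : ℤ × ℤ} (h : f ∈ s.blk (s.grd L M)) :
    |f.1 - s.tip.1| < L * (M + 1) ∧ |f.2 - s.tip.2| < L * (M + 1) := blk_box hL h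

/-- A vertex of a stop side is far from the tip and from both ends of the target side. -/
theorem far_stop_grd (hL : 0 < L) (h : 16 ∣ L) (hYD : s.bar (s.grd L M) ⊆ s.dom (s.grd L M))
    (hY : Sat (s.dom (s.grd L M)) (s.grd L M).nm (s.bar (s.grd L M)))
    (hA : BD (s.dom (s.grd L M)) s.A) (hAY : ¬ s.Void (s.grd L M)) {i : ℕ}
    (hi : outF (s.inr (s.grd L M)) s.A i ∈ s.bar (s.grd L M)) {w : ℤ × ℤ}
    (hw : w = vert (s.inr (s.grd L M)) s.A i ∨ w = vert (s.inr (s.grd L M)) s.A (i + 1)) :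
    (L / 5 ≤ |w.1 - s.tip.1| ∨ L / 5 ≤ |w.2 - s.tip.2|) ∧
      (L / 16 ≤ |w.1 - (lf s.B).1| ∨ L / 16 ≤ |w.2 - (lf s.B).2|) ∧
        (L / 16 ≤ |w.1 - (rg s.B).1| ∨ L / 16 ≤ |w.2 - (rg s.B).2|) :=
  ⟨far_stop hL (s.grd_tip hL h) hYD hY hA hAY hi hw,
    far_stop hL (s.grd_lfB hL h) hYD hY hA hAY hi hw,
    far_stop hL (s.grd_rgB hL h) hYD hY hA hAY hi hw⟩

end Dom

end Pool.Agent.SixB.Mv
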