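import Pool.Agent.Lib.SixB.S8BlowV
import Pool.Agent.Lib.SixB.S8GridSt

/-!
# Step 8: magnification of the coarse state

`Grd.up u`: the grid magnified by `u`. The objects of S8State for a coarse domain `s` and the grid
`g` are compared with the same objects for the magnified sets: the domain, the exit indices (with
all the pieces of the target side as target), the barrier, the part in front of it, the stop indices, the
run numbers, the first sides of the runs, the entered pieces, the attached families of cells.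
-/

set_option autoImplicit false

namespace Pool.Agent.SixB.Blow

open Pool.Agent.Perc Pool.Agent.Perc6 Pool.Agent.Perc6.C2Aux Pool.Agent.Perc.Tips
open Pool.Agent.SixB.Top Pool.Agent.SixB.Mv

variable {D G Y : Set (ℤ × ℤ)} {A : UE × Bool} {a b L : ℤ} {p q n m u N₁ N₂ r i j k : ℕ}
  {f g : ℤ × ℤ}

/-! ### Grids -/

theorem gc_up (hu : 0 < u) (a b L : ℤ) (f : ℤ × ℤ) :
    gc (u * a) (u * b) (u * L) f = gc a b L (cl u f) := gc_mag (by exact_mod_cast hu) a b L f

theorem gc_up_fun (hu : 0 < u) (a b L : ℤ) :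
    gc (u * a) (u * b) (u * L) = fun f => gc a b L (cl u f) := funext fun f => gc_up hu a b L f

/-- The vertices of the magnified contour. -/
theorem vert_blow (hu : 0 < u) (hA : BD G A) (j : ℕ) :
    vert (blow u G) (subE u A 0) j =
      (u * (vert G A (j / u)).1 +
          ((j % u : ℕ) : ℤ) * ((vert G A (j / u + 1)).1 - (vert G A (j / u)).1),
        u * (vert G A (j / u)).2 +
          ((j % u : ℕ) : ℤ) * ((vert G A (j / u + 1)).2 - (vert G A (j / u)).2)) := by
  rw [vert_succ]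
  exact lf_iter hu hA j

theorem vert_blow_mul (hu : 0 < u) (hA : BD G A) (i : ℕ) :
    vert (blow u G) (subE u A 0) (u * i) = (u * (vert G A i).1, u * (vert G A i).2) :=
  lf_iter_mul hu hA i

theorem vert_step (A : UE × Bool) (i : ℕ) :
    ((vert G A (i + 1)).1 - (vert G A i).1 = 1 ∨ (vert G A (i + 1)).1 - (vert G A i).1 = -1) ∧
        (vert G A (i + 1)).2 = (vert G A i).2 ∨
      ((vert G A (i + 1)).2 - (vert G A i).2 = 1 ∨ (vert G A (i + 1)).2 - (vert G A i).2 = -1) ∧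
        (vert G A (i + 1)).1 = (vert G A i).1 := by
  rw [vert_succ]
  unfold vert
  generalize side G A i = B
  obtain ⟨⟨x, y, _ | _⟩, _ | _⟩ := B <;> simp [lf, rg]

theorem mem_gridV {v : ℤ × ℤ} : v ∈ gridV a b L ↔ L ∣ v.1 + a ∧ L ∣ v.2 + b := Iff.rfl

/-- Grid vertices of the magnified contour. -/
theorem vert_mem_gridV_blow (hu : 0 < u) (hA : BD G A) (j : ℕ) :
    vert (blow u G) (subE u A 0) j ∈ gridV (u * a) (u * b) (u * L) ↔
      u ∣ j ∧ vert G A (j / u) ∈ gridV a b L := by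
  have hu' : (0 : ℤ) < u := by exact_mod_cast hu
  rw [vert_blow hu hA]
  have hmod := Nat.mod_lt j hu
  have key : ∀ x c r e : ℤ, (u : ℤ) * L ∣ u * x + r * e + u * c → (u : ℤ) ∣ r * e := by
    intro x c r e h
    have h1 : (u : ℤ) ∣ u * x + r * e + u * c := (Dvd.intro L rfl).trans h
    have h2 : (u : ℤ) ∣ (u * x + r * e + u * c) - (u * x + u * c) :=
      h1.sub ⟨x + c, by ring⟩
    rwa [show u * x + r * e + u * c - (u * x + u * c) = r * e by ring] at h2
  have cancel : ∀ x c : ℤ, (u : ℤ) * L ∣ u * x + u * c ↔ L ∣ x + c := by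
    intro x c
    rw [← mul_add]
    exact mul_dvd_mul_iff_left hu'.ne'
  have hr : ∀ r : ℤ, 0 ≤ r → r < u → (u : ℤ) ∣ r → r = 0 := by
    intro r h0 h1 h2
    exact Int.eq_zero_of_dvd_of_nonneg_of_lt h0 h1 h2
  have hr0 : (0 : ℤ) ≤ ((j % u : ℕ) : ℤ) := by positivity
  have hru : ((j % u : ℕ) : ℤ) < u := by exact_mod_cast hmod
  constructor
  · rintro ⟨h1, h2⟩
    have hz : ((j % u : ℕ) : ℤ) = 0 := by
      rcases vert_step (G := G) A (j / u) with ⟨h3, -⟩ | ⟨h3, -⟩
      · have h4 := key _ _ _ _ h1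
        rcases h3 with h3 | h3
        · rw [h3, mul_one] at h4
          exact hr _ hr0 hru h4
        · rw [h3, mul_neg, mul_one, dvd_neg] at h4
          exact hr _ hr0 hru h4
      · have h4 := key _ _ _ _ h2
        rcases h3 with h3 | h3
        · rw [h3, mul_one] at h4
          exact hr _ hr0 hru h4
        · rw [h3, mul_neg, mul_one, dvd_neg] at h4
          exact hr _ hr0 hru h4
    refine ⟨Nat.dvd_of_mod_eq_zero (by exact_mod_cast hz), ?_⟩
    simp only [hz, zero_mul, add_zero] at h1 h2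
    exact ⟨(cancel _ _).1 h1, (cancel _ _).1 h2⟩
  · rintro ⟨h1, h2, h3⟩
    have hz : ((j % u : ℕ) : ℤ) = 0 := by exact_mod_cast Nat.mod_eq_zero_of_dvd h1
    rw [mem_gridV]
    simp only [hz, zero_mul, add_zero]
    exact ⟨(cancel _ _).2 h2, (cancel _ _).2 h3⟩

/-! ### Run numbers -/

/-- **The run numbers of the magnified contour.** -/
theorem rn_blow (hu : 0 < u) (hA : BD G A) (j : ℕ) :
    rn (u * a) (u * b) (u * L) (blow u G) (subE u A 0) (u * N₁) j = rn a b L G A N₁ (j / u) := by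
  classical
  unfold rn
  refine (Finset.card_bij (fun k _ => u * k) ?_ ?_ ?_).symm
  · intro k hk
    rw [Finset.mem_filter, Finset.mem_Ioc] at hk ⊢
    obtain ⟨⟨h1, h2⟩, h3⟩ := hk
    refine ⟨⟨Nat.mul_lt_mul_of_pos_left h1 hu, ?_⟩, ?_⟩
    · rw [Nat.le_div_iff_mul_le hu] at h2
      rw [Nat.mul_comm]
      exact h2
    · rw [vert_mem_gridV_blow hu hA, Nat.mul_div_cancel_left _ hu]
      exact ⟨Dvd.intro k rfl, h3⟩
  · intro k _ l _ h
    exact Nat.eq_of_mul_eq_mul_left hu h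
  · intro k hk
    rw [Finset.mem_filter, Finset.mem_Ioc, vert_mem_gridV_blow hu hA] at hk
    obtain ⟨⟨h1, h2⟩, h3, h4⟩ := hk
    obtain ⟨l, rfl⟩ := h3
    rw [Nat.mul_div_cancel_left _ hu] at h4
    refine ⟨l, ?_, rfl⟩
    rw [Finset.mem_filter, Finset.mem_Ioc]
    refine ⟨⟨Nat.lt_of_mul_lt_mul_left h1, ?_⟩, h4⟩
    rw [Nat.le_div_iff_mul_le hu, Nat.mul_comm]
    exact h2

/-- The number of indices of the pieces. -/
theorem card_filter_div (hu : 0 < u) (P : ℕ → Prop) [DecidablePred P] :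
    ((Finset.Ico (u * N₁) (u * N₂)).filter fun j => P (j / u)).card =
      u * ((Finset.Ico N₁ N₂).filter P).card := by
  classical
  have h1 : ((Finset.Ico (u * N₁) (u * N₂)).filter fun j => P (j / u)) =
      ((Finset.Ico N₁ N₂).filter P).biUnion fun i => (Finset.range u).image fun r => u * i + r := by
    ext j
    simp only [Finset.mem_filter, Finset.mem_Ico, Finset.mem_biUnion, Finset.mem_image,
      Finset.mem_range]
    constructor
    · rintro ⟨⟨h1, h2⟩, h3⟩
      refine ⟨j / u, ⟨⟨?_, Nat.div_lt_of_lt_mul h2⟩, h3⟩, j % u, Nat.mod_lt _ hu,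
        Nat.div_add_mod j u⟩
      rw [Nat.le_div_iff_mul_le hu, Nat.mul_comm]
      exact h1
    · rintro ⟨i, ⟨⟨h1, h2⟩, h3⟩, r, hr, rfl⟩
      have e : (u * i + r) / u = i := by
        rw [Nat.mul_add_div hu, Nat.div_eq_of_lt hr, Nat.add_zero]
      have e1 : u * N₁ ≤ u * i := Nat.mul_le_mul_left _ h1
      have e2 : u * (i + 1) ≤ u * N₂ := Nat.mul_le_mul_left _ h2
      have e3 : u * (i + 1) = u * i + u := by ring
      exact ⟨⟨by omega, by omega⟩, by rw [e]; exact h3⟩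
  rw [h1, Finset.card_biUnion]
  · rw [Finset.sum_const_nat (m := u)]
    · ring
    · intro i _
      rw [Finset.card_image_of_injective _ fun x y h => by simpa using h, Finset.card_range]
  · intro i _ l _ hil
    rw [Function.onFun, Finset.disjoint_left]
    intro j h2 h3
    rw [Finset.mem_image] at h2 h3
    obtain ⟨r, hr, rfl⟩ := h2
    obtain ⟨r', hr', h4⟩ := h3
    rw [Finset.mem_range] at hr hr'
    apply hil
    have e : (u * i + r) / u = i := by
      rw [Nat.mul_add_div hu, Nat.div_eq_of_lt hr, Nat.add_zero]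
    have e' : (u * l + r') / u = l := by
      rw [Nat.mul_add_div hu, Nat.div_eq_of_lt hr', Nat.add_zero]
    rw [← e, ← h4, e']

/-- **The first sides of the runs of the magnified contour.** -/
theorem rs_blow (hu : 0 < u) (hA : BD G A) (r : ℕ) :
    rs (u * a) (u * b) (u * L) (blow u G) (subE u A 0) (u * N₁) (u * N₂) r =
      u * rs a b L G A N₁ N₂ r := by
  classical
  unfold rs
  simp_rw [rn_blow hu hA]
  rw [card_filter_div hu fun i => rn a b L G A N₁ i < r]
  ring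

/-- **The setting of the runs for the magnified domain.** -/
theorem runS_blow (hu : 0 < u) (hc : Top.EConn D) (h : RunS a b L D A p q Y m n N₁ N₂) :
    RunS (u * a) (u * b) (u * L) (blow u D) (subE u A 0) (u * p) (u * (q + 1) - 1) (blow u Y)
      (u * m) (u * n) (u * N₁) (u * N₂) := by
  have hu' : (0 : ℤ) < u := by exact_mod_cast hu
  refine ⟨mul_pos hu' h.hL, blow_finite hu' h.fin, Esc.blow hu' h.esc, cyc_blow hu h.fin hc h.esc h.cyc,
    att_blow hu h.cyc.bd h.att, ?_, ?_, contig_blow hu h.fin h.esc h.cyc h.att h.tip h.con⟩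
  · rw [gc_up_fun hu]
    exact sat_blow hu h.sat
  · rw [mem_blow, cl_ahead_zero hu]
    exact h.tip

/-- **The entered piece of the magnified domain.** -/
theorem Zr_blow (hu : 0 < u) (h : RunS a b L D A p q Y m n N₁ N₂)
    (hD : outF (inn D A Y) A (rs a b L (inn D A Y) A N₁ N₂ r) ∈ D) :
    RunS.Zr (u * a) (u * b) (u * L) (blow u D) (subE u A 0) (blow u Y) (u * N₁) (u * N₂) r =
      blow u (RunS.Zr a b L D A Y N₁ N₂ r) := by
  have hAD : ahead A ∈ D \ Y := ⟨h.cyc.bd.1, h.tip⟩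
  unfold RunS.Zr
  rw [inn_blow hu hAD, rs_blow hu h.bdG, gc_up_fun hu]
  have e : cl u (outF (blow u (inn D A Y)) (subE u A 0) (u * rs a b L (inn D A Y) A N₁ N₂ r)) =
      outF (inn D A Y) A (rs a b L (inn D A Y) A N₁ N₂ r) := by
    rw [cl_outF hu h.bdG, Nat.mul_div_cancel_left _ hu]
  rw [pc_blow (κ := gc a b L) hu (by rw [e]; exact hD), e]

/-! ### Index sets -/

theorem sInf_div (hu : 0 < u) {S : Set ℕ} (hS : S.Nonempty) : sInf {j | j / u ∈ S} = u * sInf S := by
  apply le_antisymm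
  · apply Nat.sInf_le
    show u * sInf S / u ∈ S
    rw [Nat.mul_div_cancel_left _ hu]
    exact Nat.sInf_mem hS
  · have hne : {j | j / u ∈ S}.Nonempty := by
      obtain ⟨i, hi⟩ := hS
      exact ⟨u * i, by show u * i / u ∈ S; rwa [Nat.mul_div_cancel_left _ hu]⟩
    have h1 : sInf {j | j / u ∈ S} / u ∈ S := Nat.sInf_mem hne
    have h2 := Nat.sInf_le h1
    calc u * sInf S ≤ u * (sInf {j | j / u ∈ S} / u) := Nat.mul_le_mul_left _ h2
      _ ≤ sInf {j | j / u ∈ S} := Nat.mul_div_le _ _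

theorem sSup_div (hu : 0 < u) {S : Set ℕ} (hS : S.Nonempty) (hb : BddAbove S) :
    sSup {j | j / u ∈ S} = u * (sSup S + 1) - 1 := by
  have h1 : sSup S ∈ S := Nat.sSup_mem hS hb
  have hb' : BddAbove {j | j / u ∈ S} := by
    refine ⟨u * (sSup S + 1), fun j hj => ?_⟩
    have h2 := le_csSup hb (show j / u ∈ S from hj)
    have h3 := Nat.div_add_mod j u
    have h4 := Nat.mod_lt j hu
    have h5 : u * (j / u) ≤ u * sSup S := Nat.mul_le_mul_left _ h2
    have h6 : u * (sSup S + 1) = u * sSup S + u := by ring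
    omega
  have h6 : u * (sSup S + 1) = u * sSup S + u := by ring
  apply le_antisymm
  · apply csSup_le
    · exact ⟨u * sSup S, by show u * sSup S / u ∈ S; rwa [Nat.mul_div_cancel_left _ hu]⟩
    · intro j hj
      have h2 := le_csSup hb (show j / u ∈ S from hj)
      have h3 := Nat.div_add_mod j u
      have h4 := Nat.mod_lt j hu
      have h5 : u * (j / u) ≤ u * sSup S := Nat.mul_le_mul_left _ h2
      omega
  · apply le_csSup hb'
    show (u * (sSup S + 1) - 1) / u ∈ S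
    have e : (u * (sSup S + 1) - 1) / u = sSup S := by
      rw [show u * (sSup S + 1) - 1 = u * sSup S + (u - 1) by omega, Nat.mul_add_div hu,
        Nat.div_eq_of_lt (by omega), Nat.add_zero]
    rw [e]
    exact h1

/-- The number of sides of the contour. -/
theorem cyl_eq (h : Cyc D A m) : cyl D A = m := by
  unfold cyl
  have h1 : Function.IsPeriodicPt (sc D) m A := h.per
  have h2 := Function.IsPeriodicPt.minimalPeriod_le h.pos h1
  have h3 := Function.minimalPeriod_pos_of_mem_periodicPts ⟨m, h.pos, h1⟩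
  by_contra hne
  have h4 : Function.minimalPeriod (sc D) A < m := by omega
  have h5 : side D A (Function.minimalPeriod (sc D) A) = side D A 0 :=
    Function.isPeriodicPt_minimalPeriod (sc D) A
  have := h.inj _ h4 0 h.pos h5
  omega

theorem cyl_blow (hu : 0 < u) (hF : D.Finite) (hc : Top.EConn D) (he : Esc D) (hA : BD D A) :
    cyl (blow u D) (subE u A 0) = u * cyl D A := by
  obtain ⟨m, hm⟩ := exists_cyc hF hc he hA
  rw [cyl_eq hm, cyl_eq (cyc_blow hu hF hc he hm)]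

end Pool.Agent.SixB.Blow

namespace Pool.Agent.SixB.Mv

open Pool.Agent.Perc Pool.Agent.Perc6 Pool.Agent.Perc6.C2Aux Pool.Agent.Perc.Tips
open Pool.Agent.SixB.Top Pool.Agent.SixB.Blow

/-- The magnified grid. -/
def Grd.up (u : ℕ) (g : Grd) : Grd := ⟨u * g.a, u * g.b, u * g.L, g.M⟩

/-- The exit sides of the magnified domain: all the pieces of the target side are exit sides. -/
def IsExU (u : ℕ) (P : Set (ℤ × ℤ)) (B C : UE × Bool) : Prop :=
  ahead (rv C) ∈ blow u P ∨ ∃ r : ℤ, 0 ≤ r ∧ r < u ∧ C = subE u B r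

variable {u : ℕ} {g : Grd} {f : ℤ × ℤ}

theorem Grd.nm_up (hu : 0 < u) (g : Grd) (f : ℤ × ℤ) : (g.up u).nm f = g.nm (cl u f) :=
  gc_up hu g.a g.b g.L f

theorem Grd.nm_up_fun (hu : 0 < u) (g : Grd) : (g.up u).nm = fun f => g.nm (cl u f) :=
  funext fun f => g.nm_up hu f

theorem isExU_iff (hu : 0 < u) {P : Set (ℤ × ℤ)} {B C : UE × Bool} {r : ℤ} (h0 : 0 ≤ r)
    (h1 : r < u) : IsExU u P B (subE u C r) ↔ IsEx P B C := by
  have hu' : (0 : ℤ) < u := by exact_mod_cast hu
  unfold IsExU IsEx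
  rw [mem_blow, cl_ahead_rv hu' C h0 h1]
  constructor
  · rintro (h | ⟨r', h2, h3, h4⟩)
    · exact Or.inl h
    · exact Or.inr (subE_inj hu' h0 h1 h2 h3 h4).1
  · rintro (h | rfl)
    · exact Or.inl h
    · exact Or.inr ⟨r, h0, h1, rfl⟩

theorem isExU_side (hu : 0 < u) {P D : Set (ℤ × ℤ)} {A B : UE × Bool} (hA : BD D A) (j : ℕ) :
    IsExU u P B (side (blow u D) (subE u A 0) j) ↔ IsEx P B (side D A (j / u)) := by
  rw [side_blow hu hA]
  exact isExU_iff hu (by positivity) (by exact_mod_cast Nat.mod_lt j hu)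

namespace Dom

variable (s : Dom)

/-- The block of the magnified grid. -/
theorem blk_up (hu : 0 < u) (g : Grd) :
    Mv.blk (g.up u).a (g.up u).b (g.up u).L (g.up u).M (lf (subE u s.A 0)) =
      blow u (s.blk g) := by
  have hu' : (0 : ℤ) < u := by exact_mod_cast hu
  ext f
  have e : ((lf (subE u s.A 0)).1 / (u : ℤ), (lf (subE u s.A 0)).2 / (u : ℤ)) = s.tip := by
    rw [lf_subE_zero]
    unfold tip
    simp only [Int.mul_ediv_cancel_left _ hu'.ne']
  show f ∈ Mv.blk (u * g.a) (u * g.b) (u * g.L) g.M (lf (subE u s.A 0)) ↔ _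
  rw [blk_mag hu', e]
  rfl

/-- The domain of the magnified sets. -/
theorem dom_up (hu : 0 < u) {g : Grd} (hA : ahead s.A ∈ s.P ∩ s.blk g) :
    domD (blow u s.P) (blow u (s.blk g)) (subE u s.A 0) = blow u (s.dom g) := by
  have hu' : (0 : ℤ) < u := by exact_mod_cast hu
  have e : cl u (ahead (subE u s.A 0)) = ahead s.A := cl_ahead_zero hu s.A
  unfold domD dom
  rw [← blow_inter, compT_blow hu' (by rw [e]; exact hA), e]
  rfl

/-- Everything about the domain of the move which is needed for the magnification. -/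
structure Reg (g : Grd) : Prop where
  fin : (s.dom g).Finite
  con : Top.EConn (s.dom g)
  esc : Esc (s.dom g)
  bd : BD (s.dom g) s.A
  ex : (s.ex g).Nonempty

/-- The geometry of a move is regular. -/
theorem reg_of (hf : s.P.Finite) (hc : Top.EConn s.P) (he : Esc s.P) (hA : BD s.P s.A)
    (hB : BD s.P s.B) (hL : 0 < g.L) (_ : 0 ≤ g.M) (hAW : ahead s.A ∈ s.blk g) : s.Reg g := by
  have hA' : ahead s.A ∈ s.P ∩ s.blk g := ⟨hA.1, hAW⟩
  have hfin : (s.dom g).Finite := finite_domD hf hA'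
  have hcon : Top.EConn (s.dom g) := econn_domD hA'
  have hesc : Esc (s.dom g) := esc_domD hf he (esc_blk hL) hA'
  have hbd : BD (s.dom g) s.A := bd_domD hA hAW
  refine ⟨hfin, hcon, hesc, hbd, ?_⟩
  obtain ⟨C, hC, hEC⟩ := exists_exit (W := s.blk g) hc hA' hB
  obtain ⟨m, hm⟩ := exists_cyc hfin hcon hesc hbd
  obtain ⟨c, hcm, hcs⟩ := hm.exists_index hC
  refine ⟨c, ?_, ?_⟩
  · rw [cyl_eq hm]
    exact hcm
  · rw [hcs]
    exact hEC

/-- The geometry of a move of a running domain is regular. -/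
theorem Ok.reg {s : Dom} {g : Grd} (h : s.Ok) (hL : 0 < g.L) (hM : 0 ≤ g.M)
    (hAW : ahead s.A ∈ s.blk g) : s.Reg g := s.reg_of h.fin h.con h.esc h.bdA h.bdB hL hM hAW

namespace Reg

variable {s}

theorem cyc (h : s.Reg g) : Cyc (s.dom g) s.A (cyl (s.dom g) s.A) := by
  obtain ⟨m, hm⟩ := exists_cyc h.fin h.con h.esc h.bd
  rw [cyl_eq hm]
  exact hm

theorem bdd (g : Grd) (s : Dom) : BddAbove (s.ex g) := ⟨cyl (s.dom g) s.A, fun _ hi => hi.1.le⟩

theorem p_mem (h : s.Reg g) : s.p g ∈ s.ex g := Nat.sInf_mem h.ex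

theorem q_mem (h : s.Reg g) : s.q g ∈ s.ex g := Nat.sSup_mem h.ex (bdd g s)

theorem p_le_q (h : s.Reg g) : s.p g ≤ s.q g := le_csSup (bdd g s) h.p_mem

theorem q_lt (h : s.Reg g) : s.q g < cyl (s.dom g) s.A := h.q_mem.1

/-- The length of the contour of the magnified domain. -/
theorem cyl_up (h : s.Reg g) (hu : 0 < u) :
    cyl (blow u (s.dom g)) (subE u s.A 0) = u * cyl (s.dom g) s.A :=
  cyl_blow hu h.fin h.con h.esc h.bd

/-- The exit indices of the magnified domain. -/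
theorem ex_up (h : s.Reg g) (hu : 0 < u) :
    {j | j < cyl (blow u (s.dom g)) (subE u s.A 0) ∧
      IsExU u s.P s.B (side (blow u (s.dom g)) (subE u s.A 0) j)} = {j | j / u ∈ s.ex g} := by
  ext j
  rw [Set.mem_ofPred_eq, h.cyl_up hu, isExU_side hu h.bd]
  constructor
  · rintro ⟨h1, h2⟩
    exact ⟨Nat.div_lt_of_lt_mul h1, h2⟩
  · rintro ⟨h1, h2⟩
    refine ⟨?_, h2⟩
    rw [Nat.mul_comm]
    exact (Nat.div_lt_iff_lt_mul hu).1 h1

/-- The first exit index of the magnified domain. -/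
theorem p_up (h : s.Reg g) (hu : 0 < u) :
    sInf {j | j < cyl (blow u (s.dom g)) (subE u s.A 0) ∧
      IsExU u s.P s.B (side (blow u (s.dom g)) (subE u s.A 0) j)} = u * s.p g := by
  rw [h.ex_up hu]
  exact sInf_div hu h.ex

/-- The last exit index of the magnified domain. -/
theorem q_up (h : s.Reg g) (hu : 0 < u) :
    sSup {j | j < cyl (blow u (s.dom g)) (subE u s.A 0) ∧
      IsExU u s.P s.B (side (blow u (s.dom g)) (subE u s.A 0) j)} = u * (s.q g + 1) - 1 := by
  rw [h.ex_up hu]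
  exact sSup_div hu h.ex (bdd g s)

/-- The barrier of the magnified domain. -/
theorem bar_up (h : s.Reg g) (hu : 0 < u) :
    BarV (blow u (s.dom g)) (subE u s.A 0) (u * s.p g) (u * (s.q g + 1) - 1) (g.up u).nm =
      blow u (s.bar g) := by
  rw [Grd.nm_up_fun hu]
  exact barV_blow hu h.bd

theorem att_bar (h : s.Reg g) : Att (s.dom g) s.A (s.p g) (s.q g) (s.bar g) := att_barV h.bd

theorem sat_bar (_ : s.Reg g) : Sat (s.dom g) g.nm (s.bar g) := sat_barV

theorem bar_sub (_ : s.Reg g) : s.bar g ⊆ s.dom g := barV_sub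

/-- The part in front of the barrier of the magnified domain. -/
theorem inr_up (h : s.Reg g) (hV : ¬ s.Void g) (hu : 0 < u) :
    inn (blow u (s.dom g)) (subE u s.A 0) (blow u (s.bar g)) = blow u (s.inr g) :=
  inn_blow hu ⟨h.bd.1, hV⟩

/-- The same with a set of cells added to the barrier. -/
theorem inn_up (h : s.Reg g) {Y : Set (ℤ × ℤ)} (hY : ahead s.A ∉ Y) (hu : 0 < u) :
    inn (blow u (s.dom g)) (subE u s.A 0) (blow u Y) = blow u (inn (s.dom g) s.A Y) :=
  inn_blow hu ⟨h.bd.1, hY⟩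

theorem inr_sub (h : s.Reg g) (hV : ¬ s.Void g) : s.inr g ⊆ s.dom g \ s.bar g :=
  inn_sub ⟨h.bd.1, hV⟩

theorem inr_bd (h : s.Reg g) (hV : ¬ s.Void g) : BD (s.inr g) s.A := bd_inn h.bd hV

theorem inr_fin (h : s.Reg g) (hV : ¬ s.Void g) : (s.inr g).Finite :=
  h.fin.subset fun _ hf => (h.inr_sub hV hf).1

theorem inr_con (h : s.Reg g) (hV : ¬ s.Void g) : Top.EConn (s.inr g) := econn_inn ⟨h.bd.1, hV⟩

theorem inr_esc (h : s.Reg g) (hV : ¬ s.Void g) : Esc (s.inr g) :=
  esc_compT (h.fin.subset Set.sdiff_subset) (h.att_bar.esc h.bd h.esc) ⟨h.bd.1, hV⟩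

theorem inr_cyc (h : s.Reg g) (hV : ¬ s.Void g) : Cyc (s.inr g) s.A (cyl (s.inr g) s.A) := by
  obtain ⟨m, hm⟩ := exists_cyc (h.inr_fin hV) (h.inr_con hV) (h.inr_esc hV) (h.inr_bd hV)
  rw [cyl_eq hm]
  exact hm

/-- The length of the contour of the magnified inner part. -/
theorem inr_cyl_up (h : s.Reg g) (hV : ¬ s.Void g) (hu : 0 < u) :
    cyl (blow u (s.inr g)) (subE u s.A 0) = u * cyl (s.inr g) s.A :=
  cyl_blow hu (h.inr_fin hV) (h.inr_con hV) (h.inr_esc hV) (h.inr_bd hV)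

/-- The stop indices of the magnified domain. -/
theorem stI_up (h : s.Reg g) (hV : ¬ s.Void g) (hu : 0 < u) :
    {j | j < cyl (blow u (s.inr g)) (subE u s.A 0) ∧
      outF (blow u (s.inr g)) (subE u s.A 0) j ∈ blow u (s.bar g)} = {j | j / u ∈ s.stI g} := by
  ext j
  rw [Set.mem_ofPred_eq, h.inr_cyl_up hV hu, mem_blow, cl_outF hu (h.inr_bd hV)]
  constructor
  · rintro ⟨h1, h2⟩
    exact ⟨Nat.div_lt_of_lt_mul h1, h2⟩
  · rintro ⟨h1, h2⟩
    refine ⟨?_, h2⟩
    rw [Nat.mul_comm]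
    exact (Nat.div_lt_iff_lt_mul hu).1 h1

theorem stI_bdd (g : Grd) (s : Dom) : BddAbove (s.stI g) :=
  ⟨cyl (s.inr g) s.A, fun _ hi => hi.1.le⟩

/-- The setting of the runs with the official indices. -/
theorem runS (h : s.Reg g) (hV : ¬ s.Void g) (hL : 0 < g.L) :
    RunS g.a g.b g.L (s.dom g) s.A (s.p g) (s.q g) (s.bar g) (cyl (s.dom g) s.A)
      (cyl (s.inr g) s.A) (s.n₁ g) (s.n₂ g) ∧ (s.stI g).Nonempty := by
  obtain ⟨n, N₁, N₂, hR⟩ := exists_runS (a := g.a) (b := g.b) hL h.fin h.esc h.cyc h.att_bar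
    h.sat_bar h.p_le_q h.q_lt hV
  have hn : cyl (s.inr g) s.A = n := cyl_eq hR.con.cyc
  have hst : s.stI g = {i | N₁ ≤ i ∧ i < N₂} := by
    ext i
    constructor
    · rintro ⟨h1, h2⟩
      rw [hn] at h1
      exact hR.mem_arc h1 (h.bar_sub h2)
    · rintro ⟨h1, h2⟩
      refine ⟨?_, hR.con.mid i h1 h2⟩
      rw [hn]
      exact lt_of_lt_of_le h2 hR.con.le
  have hlt := hR.con.lt
  have hne : (s.stI g).Nonempty := by
    rw [hst]
    exact ⟨N₁, le_rfl, hlt⟩
  have e1 : s.n₁ g = N₁ := by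
    unfold n₁
    apply le_antisymm
    · apply Nat.sInf_le
      rw [hst]
      exact ⟨le_rfl, hlt⟩
    · have := Nat.sInf_mem hne
      rw [hst] at this ⊢
      exact this.1
  have e2 : s.n₂ g = N₂ := by
    unfold n₂
    have h1 := Nat.sSup_mem hne (stI_bdd g s)
    have h2 : N₂ - 1 ≤ sSup (s.stI g) := by
      apply le_csSup (stI_bdd g s)
      rw [hst]
      exact ⟨by omega, by omega⟩
    rw [hst] at h1 h2 ⊢
    have h3 := h1.2
    omega
  rw [e1, e2, hn]
  exact ⟨hR, hne⟩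

theorem stI_ne (h : s.Reg g) (hV : ¬ s.Void g) (hL : 0 < g.L) : (s.stI g).Nonempty :=
  (h.runS hV hL).2

/-- The first stop index of the magnified domain. -/
theorem n₁_up (h : s.Reg g) (hV : ¬ s.Void g) (hL : 0 < g.L) (hu : 0 < u) :
    sInf {j | j < cyl (blow u (s.inr g)) (subE u s.A 0) ∧
      outF (blow u (s.inr g)) (subE u s.A 0) j ∈ blow u (s.bar g)} = u * s.n₁ g := by
  rw [h.stI_up hV hu]
  exact sInf_div hu (h.stI_ne hV hL)

/-- The last stop index of the magnified domain, plus one. -/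
theorem n₂_up (h : s.Reg g) (hV : ¬ s.Void g) (hL : 0 < g.L) (hu : 0 < u) :
    sSup {j | j < cyl (blow u (s.inr g)) (subE u s.A 0) ∧
      outF (blow u (s.inr g)) (subE u s.A 0) j ∈ blow u (s.bar g)} + 1 = u * s.n₂ g := by
  rw [h.stI_up hV hu, sSup_div hu (h.stI_ne hV hL) (stI_bdd g s)]
  have : 0 < u * (sSup (s.stI g) + 1) := Nat.mul_pos hu (Nat.succ_pos _)
  unfold n₂
  omega

/-- **The runs of the magnified domain.** -/
theorem runS_up (h : s.Reg g) (hV : ¬ s.Void g) (hL : 0 < g.L) (hu : 0 < u) :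
    RunS (g.up u).a (g.up u).b (g.up u).L (blow u (s.dom g)) (subE u s.A 0) (u * s.p g)
      (u * (s.q g + 1) - 1) (blow u (s.bar g)) (u * cyl (s.dom g) s.A)
      (u * cyl (s.inr g) s.A) (u * s.n₁ g) (u * s.n₂ g) :=
  runS_blow hu h.con (h.runS hV hL).1

/-- The run numbers. -/
theorem rno_up (h : s.Reg g) (hV : ¬ s.Void g) (hu : 0 < u) (j : ℕ) :
    rn (g.up u).a (g.up u).b (g.up u).L (blow u (s.inr g)) (subE u s.A 0) (u * s.n₁ g) j =
      s.rno g (j / u) := rn_blow hu (h.inr_bd hV) j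

/-- The first stop sides of the runs. -/
theorem runI_up (h : s.Reg g) (hV : ¬ s.Void g) (hu : 0 < u) (r : ℕ) :
    rs (g.up u).a (g.up u).b (g.up u).L (blow u (s.inr g)) (subE u s.A 0) (u * s.n₁ g)
      (u * s.n₂ g) r = u * s.runI g r := rs_blow hu (h.inr_bd hV) r

/-- The entered piece. -/
theorem zj_up (h : s.Reg g) (hV : ¬ s.Void g) (hL : 0 < g.L) (hu : 0 < u) {r : ℕ}
    (hr : s.runI g r < s.runI g (r + 1)) :
    RunS.Zr (g.up u).a (g.up u).b (g.up u).L (blow u (s.dom g)) (subE u s.A 0)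
      (blow u (s.bar g)) (u * s.n₁ g) (u * s.n₂ g) r = blow u (s.zj g r) := by
  have hR := (h.runS hV hL).1
  refine Zr_blow hu hR ?_
  have h1 : s.runI g (r + 1) ≤ s.n₂ g := rs_le hR.con.lt.le
  have h2 : s.n₁ g ≤ s.runI g r := le_rs
  exact h.bar_sub (hR.con.mid _ h2 (by
    have : s.runI g r < s.n₂ g := by omega
    exact this))

end Reg

/-! ### Cells -/

/-- The full cells of the magnified domain. -/
theorem full_up (hu : 0 < u) (g : Grd) (c : ℤ × ℤ) :
    (∀ f, (g.up u).nm f = c → f ∈ blow u (s.inr g)) ↔ s.Full g c := by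
  have hu' : (0 : ℤ) < u := by exact_mod_cast hu
  constructor
  · intro h f hf
    obtain ⟨f', rfl⟩ := exists_cl hu' f
    exact h f' (by rw [g.nm_up hu]; exact hf)
  · intro h f hf
    rw [g.nm_up hu] at hf
    exact h _ hf

/-- Neighbouring cells. -/
theorem adjc_up (hu : 0 < u) (g : Grd) (c c' : ℤ × ℤ) (hcc : c ≠ c') :
    (∃ f h, (g.up u).nm f = c ∧ (g.up u).nm h = c' ∧ AdjF f h) ↔
      ∃ f h, g.nm f = c ∧ g.nm h = c' ∧ AdjF f h := by
  have hu' : (0 : ℤ) < u := by exact_mod_cast hu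
  constructor
  · rintro ⟨f, h, h1, h2, h3⟩
    rw [g.nm_up hu] at h1 h2
    rcases adj_cl hu' h3 with h4 | h4
    · exact absurd (h1.symm.trans ((congrArg g.nm h4).trans h2)) hcc
    · exact ⟨_, _, h1, h2, h4⟩
  · rintro ⟨f, h, h1, h2, h3⟩
    obtain ⟨f', h', rfl, rfl, h4⟩ := exists_adj_cl hu' h3
    exact ⟨f', h', by rw [g.nm_up hu]; exact h1, by rw [g.nm_up hu]; exact h2, h4⟩

/-- Every cell has two neighbouring faces, if the side is at least two. -/
theorem adjc_self (hL : 1 < g.L) (c : ℤ × ℤ) : ∃ f h, g.nm f = c ∧ g.nm h = c ∧ AdjF f h := by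
  refine ⟨(g.L * c.1 - g.a, g.L * c.2 - g.b), (g.L * c.1 - g.a + 1, g.L * c.2 - g.b), ?_, ?_,
    adjF_right _ _⟩
  · exact (gc_eq_iff (by omega)).2 ⟨⟨le_rfl, by simp only; omega⟩, le_rfl, by simp only; omega⟩
  · exact (gc_eq_iff (by omega)).2 ⟨⟨by simp only; omega, by simp only; omega⟩, le_rfl,
      by simp only; omega⟩

/-- Neighbouring cells, cells of side at least two. -/
theorem adjc_up' (hu : 0 < u) (hL : 1 < g.L) (c c' : ℤ × ℤ) :
    (∃ f h, (g.up u).nm f = c ∧ (g.up u).nm h = c' ∧ AdjF f h) ↔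
      ∃ f h, g.nm f = c ∧ g.nm h = c' ∧ AdjF f h := by
  by_cases hcc : c = c'
  · subst hcc
    have hL' : 1 < (g.up u).L := by
      show 1 < (u : ℤ) * g.L
      have hu' : (1 : ℤ) ≤ u := by exact_mod_cast hu
      nlinarith
    exact ⟨fun _ => adjc_self hL c, fun _ => adjc_self hL' c⟩
  · exact adjc_up hu g c c' hcc

/-- Cells which touch the barrier. -/
theorem cTch_up (hu : 0 < u) {g : Grd} {c : ℤ × ℤ} (hc : ∀ f, g.nm f = c → f ∉ s.bar g) :
    (∃ f, ∃ z ∈ blow u (s.bar g), (g.up u).nm f = c ∧ AdjF f z) ↔ s.CTch g c := by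
  have hu' : (0 : ℤ) < u := by exact_mod_cast hu
  constructor
  · rintro ⟨f, z, hz, h1, h2⟩
    rw [g.nm_up hu] at h1
    rcases adj_cl hu' h2 with h3 | h3
    · exact absurd (show cl u f ∈ s.bar g by rw [h3]; exact hz) (hc _ h1)
    · exact ⟨_, _, hz, h1, h3⟩
  · rintro ⟨f, z, hz, h1, h2⟩
    obtain ⟨f', z', rfl, rfl, h3⟩ := exists_adj_cl hu' h2
    exact ⟨f', z', hz, by rw [g.nm_up hu]; exact h1, h3⟩

/-- A full cell does not meet the barrier. -/
theorem Reg.full_not_bar {s : Dom} (h : s.Reg g) (hV : ¬ s.Void g) {c : ℤ × ℤ} (hc : s.Full g c) :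
    ∀ f, g.nm f = c → f ∉ s.bar g := fun f hf => (h.inr_sub hV (hc f hf)).2

/-- The unvisited sets of cells: `N` are the visited faces of the magnified lattice. -/
theorem unvis_up (hu : 0 < u) (g : Grd) (N : Set (ℤ × ℤ)) (K : Finset (ℤ × ℤ)) :
    (∀ c ∈ K, ∀ f, (g.up u).nm f = c → f ∉ N) ↔
      ∀ c ∈ K, ∀ f, g.nm f = c → f ∉ {x | ∃ y ∈ N, cl u y = x} := by
  constructor
  · rintro h c hc f hf ⟨y, hy, rfl⟩
    exact h c hc y (by rw [g.nm_up hu]; exact hf) hy
  · intro h c hc f hf hN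
    rw [g.nm_up hu] at hf
    exact h c hc _ hf ⟨f, hN, rfl⟩

/-- The faces of the cells of a record. -/
theorem fcs_up (hu : 0 < u) (g : Grd) (ρ : Rec) :
    {f | f ∈ blow u (s.inr g) ∧ (g.up u).nm f ∈ s.kst g ρ} = blow u (s.fcs g ρ) := by
  ext f
  rw [Set.mem_ofPred_eq, g.nm_up hu]
  rfl

/-- The new set. -/
theorem nxP_up (hu : 0 < u) {ρ : Rec} (hB : ahead s.B ∈ s.P \ s.rem g ρ) {r : ℤ} (h0 : 0 ≤ r)
    (h1 : r < u) :
    compT (blow u s.P \ blow u (s.rem g ρ)) (ahead (subE u s.B r)) = blow u (s.nxP g ρ) := by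
  have hu' : (0 : ℤ) < u := by exact_mod_cast hu
  have e : cl u (ahead (subE u s.B r)) = ahead s.B := cl_ahead hu' s.B h0 h1
  rw [← blow_sdiff, compT_blow hu' (by rw [e]; exact hB), e]
  rfl

end Dom

end Pool.Agent.SixB.Mv
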