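import Pool.Agent.Lib.SixB.S7TopB

/-!
# Step 8: the exit identity

`G` is a region with a contour `w 0, …, w m`; the strand of the boundary unit edge `0` (from `w 0` to
`w 1`) leaves `G` through exactly one other boundary unit edge `x` (from `w x` to `w (x + 1)`).

* `exit_exists`: existence; `IsExit.conn1`, `IsExit.conn0`: `w 1` is joined to `w x`, `w 0` to
  `w (x + 1)`;
* `IsExit.le_iff`: `j ≤ x` if and only if `w 1` is joined to the arc `[j, m]`;
* `isExit_avoid`: the strand avoids `K` and leaves `G` through a given edge iff it leaves `G \ K`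
  through that edge (locality);
* `conn_frozen`, `strand_frozen`: connections and strands in a region with solid parts;
* `cross_of_exit`, `not_cross_of_exit`: the exit identity for a region of fresh faces with four arcs
  `[0, k₁]` (solid part of colour `c`), `[k₁, k₂]`, `[k₂, k₃]` (outer arc, left and right of the
  division point), `[k₃, m]` (solid part of the other colour).
-/

set_option autoImplicit false

namespace Pool.Agent.SixB

open Finset Pool.Agent.Perc Pool.Agent.Perc6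

variable {F : Finset (ℤ × ℤ)} {m : ℕ} {w : ℕ → ℤ × ℤ} {ω ω' : Cfg}

/-! ### The potential of a strand on the contour -/

/-- If `w x` and `w y` are joined then no strand leaves the interval `[x, y)` of boundary edges. -/
theorem interval_invariant (h : Ctr (F : Set (ℤ × ℤ)) m w) {i k x y : ℕ} (hi : i < m) (hk : k < m)
    (hmm : ∀ e, Joins e (w i) (w (i + 1)) → ∀ e', Joins e' (w k) (w (k + 1)) →
      e' ∈ MM ω (F : Set (ℤ × ℤ)) e)
    (hxy : x ≤ y) (hym : y ≤ m) (hc : Conn ω F (w x) (w y)) (hix : i ∈ Ico x y) : k ∈ Ico x y := by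
  classical
  obtain ⟨τ, hτ⟩ := exists_match h ω
  obtain ⟨k1, k2, k3, k4⟩ := hτ i hi
  obtain ⟨e, he, hj⟩ := h.step i hi
  have hkτ : k = i ∨ k = τ i := by
    obtain ⟨e', he', hj'⟩ := h.step k hk
    exact (k4 e hj).2 k hk e' hj' (hmm e hj e' hj')
  by_cases hki : k = i
  · rw [hki]; exact hix
  have hkτ' : k = τ i := hkτ.resolve_left hki
  clear hkτ hmm hk
  rw [hkτ']
  clear hkτ' hki
  obtain ⟨Φ, hΦ⟩ := h.pot (MM ω F e) (fun f hf => evenAt_MM hf)
  have hstep : ∀ l < m, Φ (w l) + Φ (w (l + 1)) = if l = i ∨ l = τ i then 1 else 0 := by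
    intro l hl
    obtain ⟨e', ⟨⟨f, hf, hs⟩, -⟩, hj'⟩ := h.step l hl
    have hiff := hΦ.joins hf hs hj'
    by_cases hl' : l = i ∨ l = τ i
    · rw [if_pos hl']
      have hm : e' ∈ MM ω F e := by
        rcases hl' with hl' | hl'
        · rw [hl'] at hj'
          rw [Joins.uniq hj' hj]; exact mem_MM_self
        · rw [hl'] at hj'
          exact (k4 e hj).1 e' hj'
      have hne := hiff.1 hm
      rcases z2_cases (Φ (w l)) with h3 | h3 <;> rcases z2_cases (Φ (w (l + 1))) with h4 | h4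
      · exact absurd (h3.trans h4.symm) hne
      · rw [h3, h4]; decide
      · rw [h3, h4]; decide
      · exact absurd (h3.trans h4.symm) hne
    · rw [if_neg hl']
      have hm : e' ∉ MM ω F e := fun hm => hl' ((k4 e hj).2 l hl e' hj' hm)
      have heq : Φ (w l) = Φ (w (l + 1)) := by
        by_contra hne
        exact hm (hiff.2 hne)
      rw [heq]; exact z2_add_self _
  have hs := tele2 (fun l => Φ (w l)) hxy
  have hceq : Φ (w x) = Φ (w y) := hΦ.conn hc
  rw [hceq, z2_add_self] at hs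
  have hs2 : ∑ l ∈ Ico x y, (if l = i ∨ l = τ i then (1 : ZMod 2) else 0) = 0 := by
    refine Eq.trans (Finset.sum_congr rfl fun l hl => ?_) hs
    rw [Finset.mem_Ico] at hl
    exact (hstep l (by omega)).symm
  by_contra hout
  have hs3 : ∑ l ∈ Ico x y, (if l = i ∨ l = τ i then (1 : ZMod 2) else 0) = 1 := by
    have : ∀ l ∈ Ico x y, (if l = i ∨ l = τ i then (1 : ZMod 2) else 0) =
        if l = i then 1 else 0 := by
      intro l hl
      have : l ≠ τ i := fun hh => hout (hh ▸ hl)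
      simp [this]
    rw [Finset.sum_congr rfl this, Finset.sum_ite_eq', if_pos hix]
  rw [hs3] at hs2
  exact absurd hs2 (by decide)

/-! ### The exit of the strand of the boundary edge `0` -/

/-- The strand of the boundary edge `0` contains the boundary edge `x ≠ 0`. -/
structure IsExit (F : Set (ℤ × ℤ)) (m : ℕ) (w : ℕ → ℤ × ℤ) (ω : Cfg) (x : ℕ) : Prop where
  pos : 0 < x
  lt : x < m
  mem : ∀ e, Joins e (w 0) (w 1) → ∀ e', Joins e' (w x) (w (x + 1)) → e' ∈ MM ω F e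

theorem exit_exists (h : Ctr (F : Set (ℤ × ℤ)) m w) (hm : 0 < m) (ω : Cfg) :
    ∃ x, IsExit F m w ω x := by
  obtain ⟨τ, hτ⟩ := exists_match h ω
  obtain ⟨k1, k2, -, k4⟩ := hτ 0 hm
  exact ⟨τ 0, Nat.pos_of_ne_zero k2, k1, fun e he => (k4 e he).1⟩

theorem IsExit.unique (h : Ctr (F : Set (ℤ × ℤ)) m w) {x x' : ℕ} (hx : IsExit F m w ω x)
    (hx' : IsExit F m w ω x') : x = x' := by
  have hm : 0 < m := lt_of_le_of_lt (Nat.zero_le _) hx.lt
  obtain ⟨e, he, hj⟩ := h.step 0 hm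
  obtain ⟨e1, he1, hj1⟩ := h.step x hx.lt
  obtain ⟨e2, he2, hj2⟩ := h.step x' hx'.lt
  have n1 : e1 ≠ e := by
    rintro rfl
    have := h.inj x hx.lt 0 hm _ hj1 hj
    have := hx.pos
    omega
  have n2 : e2 ≠ e := by
    rintro rfl
    have := h.inj x' hx'.lt 0 hm _ hj2 hj
    have := hx'.pos
    omega
  have := bdU_unique he (hx.mem e hj e1 hj1) (hx'.mem e hj e2 hj2) he1 he2 n1 n2
  subst this
  exact h.inj x hx.lt x' hx'.lt _ hj1 hj2

theorem IsExit.par_ne (h : Ctr (F : Set (ℤ × ℤ)) m w) {x : ℕ} (hx : IsExit F m w ω x) :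
    par (w x) ≠ par (w 0) := by
  intro hp
  have hm : 0 < m := lt_of_le_of_lt (Nat.zero_le _) hx.lt
  obtain ⟨e, he, hj⟩ := h.step 0 hm
  obtain ⟨e1, he1, hj1⟩ := h.step x hx.lt
  have hc : Conn ω F (w 0) (w x) := mm_ends hj hj1 (hx.mem e hj e1 hj1) hp
  have := interval_invariant h hm hx.lt hx.mem hx.pos.le hx.lt.le hc
    (Finset.mem_Ico.2 ⟨le_rfl, hx.pos⟩)
  rw [Finset.mem_Ico] at this
  omega

theorem IsExit.conn1 (h : Ctr (F : Set (ℤ × ℤ)) m w) {x : ℕ} (hx : IsExit F m w ω x) :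
    Conn ω F (w 1) (w x) := by
  have hm : 0 < m := lt_of_le_of_lt (Nat.zero_le _) hx.lt
  obtain ⟨e, he, hj⟩ := h.step 0 hm
  obtain ⟨e1, he1, hj1⟩ := h.step x hx.lt
  have p0 := par_ne_succ h hm
  have p1 := hx.par_ne h
  have c0 := par_cases (w 0)
  have c1 := par_cases (w (0 + 1))
  have c2 := par_cases (w x)
  have hp : par (w x) = par (w (0 + 1)) := by omega
  exact mm_ends hj.symm hj1 (hx.mem e hj e1 hj1) hp

theorem IsExit.conn0 (h : Ctr (F : Set (ℤ × ℤ)) m w) {x : ℕ} (hx : IsExit F m w ω x) :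
    Conn ω F (w 0) (w (x + 1)) := by
  have hm : 0 < m := lt_of_le_of_lt (Nat.zero_le _) hx.lt
  obtain ⟨e, he, hj⟩ := h.step 0 hm
  obtain ⟨e1, he1, hj1⟩ := h.step x hx.lt
  have p0 := par_ne_succ h hx.lt
  have p1 := hx.par_ne h
  have c0 := par_cases (w 0)
  have c1 := par_cases (w (x + 1))
  have c2 := par_cases (w x)
  exact mm_ends hj hj1.symm (hx.mem e hj e1 hj1) (by omega)

/-- The cluster of `w 1` does not go beyond the exit. -/
theorem IsExit.le_of_conn (h : Ctr (F : Set (ℤ × ℤ)) m w) {x y : ℕ} (hx : IsExit F m w ω x)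
    (hy1 : 1 ≤ y) (hym : y ≤ m) (hc : Conn ω F (w 1) (w y)) : y ≤ x := by
  by_contra hlt
  push Not at hlt
  have hm : 0 < m := lt_of_le_of_lt (Nat.zero_le _) hx.lt
  have := interval_invariant h hx.lt hm (fun e he e' he' => by
      have h1 := hx.mem e' he' e he
      have hs : ∀ {a b : UE}, b ∈ MM ω (F : Set (ℤ × ℤ)) a → a ∈ MM ω (F : Set (ℤ × ℤ)) b := by
        intro a b hab
        induction hab with
        | refl => exact mem_MM_self
        | tail _ hs ih =>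
          obtain ⟨f, hf, hm⟩ := hs
          exact Relation.ReflTransGen.head ⟨f, hf, hm.symm⟩ ih
      exact hs h1) hy1 hym hc (Finset.mem_Ico.2 ⟨hx.pos, hlt⟩)
  rw [Finset.mem_Ico] at this
  omega

/-- The cluster of `w 0` does not reach an earlier vertex than the exit. -/
theorem IsExit.lt_of_conn (h : Ctr (F : Set (ℤ × ℤ)) m w) {x y : ℕ} (hx : IsExit F m w ω x)
    (hy1 : 1 ≤ y) (hym : y ≤ m) (hc : Conn ω F (w 0) (w y)) : x < y := by
  have hm : 0 < m := lt_of_le_of_lt (Nat.zero_le _) hx.lt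
  have := interval_invariant h hm hx.lt hx.mem (Nat.zero_le y) hym hc
    (Finset.mem_Ico.2 ⟨le_rfl, by omega⟩)
  rw [Finset.mem_Ico] at this
  omega

/-- EXIT IDENTITY: the exit is in `[j, m)` if and only if `w 1` is joined to the arc `[j, m]`. -/
theorem IsExit.le_iff (h : Ctr (F : Set (ℤ × ℤ)) m w) {x j : ℕ} (hx : IsExit F m w ω x)
    (hj : 1 ≤ j) : j ≤ x ↔ ∃ y, j ≤ y ∧ y ≤ m ∧ Conn ω F (w 1) (w y) :=
  ⟨fun hjx => ⟨x, hjx, hx.lt.le, hx.conn1 h⟩,
    fun ⟨_, h1, h2, h3⟩ => h1.trans (hx.le_of_conn h (hj.trans h1) h2 h3)⟩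

/-- EXIT IDENTITY, other colour: the exit is in `[1, j)` if and only if `w 0` is joined to the arc
`[1, j]`. -/
theorem IsExit.lt_iff (h : Ctr (F : Set (ℤ × ℤ)) m w) {x j : ℕ} (hx : IsExit F m w ω x)
    (hjm : j ≤ m) : x < j ↔ ∃ y, 1 ≤ y ∧ y ≤ j ∧ Conn ω F (w 0) (w y) :=
  ⟨fun hjx => ⟨x + 1, by omega, hjx, hx.conn0 h⟩,
    fun ⟨_, h1, h2, h3⟩ => lt_of_lt_of_le (hx.lt_of_conn h h1 (h2.trans hjm) h3) h2⟩

/-- The exit as a function of the configuration. -/
noncomputable def exitIx (F : Set (ℤ × ℤ)) (m : ℕ) (w : ℕ → ℤ × ℤ) (ω : Cfg) : ℕ := by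
  classical exact if h : ∃ x, IsExit F m w ω x then h.choose else 0

theorem exitIx_spec (h : Ctr (F : Set (ℤ × ℤ)) m w) (hm : 0 < m) (ω : Cfg) :
    IsExit F m w ω (exitIx F m w ω) := by
  have hx := exit_exists h hm ω
  rw [exitIx, dif_pos hx]
  exact hx.choose_spec

theorem exitIx_eq (h : Ctr (F : Set (ℤ × ℤ)) m w) {x : ℕ} (hx : IsExit F m w ω x) :
    exitIx F m w ω = x :=
  (exitIx_spec h (lt_of_le_of_lt (Nat.zero_le _) hx.lt) ω).unique h hx

/-- The event that the exit is in `[j, m)` is a crossing event. -/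
theorem exitIx_ge (h : Ctr (F : Set (ℤ × ℤ)) m w) (hm : 0 < m) {j : ℕ} (hj : 1 ≤ j) :
    {ω | j ≤ exitIx F m w ω} = {ω | ∃ y, j ≤ y ∧ y ≤ m ∧ Conn ω F (w 1) (w y)} := by
  ext ω
  exact (exitIx_spec h hm ω).le_iff h hj

theorem exitIx_lt (h : Ctr (F : Set (ℤ × ℤ)) m w) (hm : 0 < m) {j : ℕ} (hj : j ≤ m) :
    {ω | exitIx F m w ω < j} = {ω | ∃ y, 1 ≤ y ∧ y ≤ j ∧ Conn ω F (w 0) (w y)} := by
  ext ω
  exact (exitIx_spec h hm ω).lt_iff h hj

/-! ### Locality -/

/-- The strand avoids the faces of `K`. -/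
def Avoids (ω : Cfg) (F : Set (ℤ × ℤ)) (e : UE) (K : Set (ℤ × ℤ)) : Prop :=
  ∀ f ∈ K, f ∉ SS ω F e

/-- Locality of the strand: it avoids `K` and leaves `F` through `t` if and only if `t` is on the
boundary of `F` and it leaves `F \ K` through `t`. -/
theorem avoid_iff {F K : Set (ℤ × ℤ)} {e t : UE} (he : BdU F e)
    (he' : BdU (F \ K) e) (ht : BdU F t) (hte : t ≠ e) :
    (t ∈ MM ω (F \ K) e) ↔ (t ∈ MM ω F e ∧ Avoids ω F e K) := by
  have hsub : F \ K ⊆ F := Set.sdiff_subset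
  constructor
  · intro h
    have heq : MM ω F e = MM ω (F \ K) e := MM_eq_of_two hsub h mem_MM_self hte ht he
    refine ⟨by rw [heq]; exact h, ?_⟩
    rintro f hf ⟨hfF, a, ha, has⟩
    -- `a` is a side of a face of `F \ K`
    have hin : ∃ g ∈ F \ K, IsSide g a := by
      rw [heq] at ha
      rcases Relation.ReflTransGen.cases_tail ha with h' | ⟨b, -, g, hg, hm⟩
      · rw [h']; exact he'.1
      · exact ⟨g, hg, hm.right⟩
    obtain ⟨g, hg, hgs⟩ := hin
    have hab : BdU (F \ K) a := ⟨⟨g, hg, hgs⟩, f, fun hh => hh.2 hf, has⟩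
    -- `a` is on the boundary of `F \ K`: it is `e` or `t`
    have haM : a ∈ MM ω (F \ K) e := by rw [← heq]; exact ha
    have htb : BdU (F \ K) t := by
      rcases Relation.ReflTransGen.cases_tail h with h' | ⟨b, -, g', hg', hm⟩
      · exact absurd h' hte
      · obtain ⟨f', hf', hs'⟩ := ht.2
        exact ⟨⟨g', hg', hm.right⟩, f', fun hh => hf' hh.1, hs'⟩
    have hcase : a = e ∨ a = t := by
      by_cases hae : a = e
      · exact Or.inl hae
      · exact Or.inr (bdU_unique he' haM h hab htb hae hte)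
    -- both are on the boundary of `F`
    have haF : BdU F a := by
      rcases hcase with rfl | rfl
      · exact he
      · exact ht
    obtain ⟨f', hf', hs'⟩ := haF.2
    have hfg : f ≠ g := by
      rintro rfl; exact hg.2 hf
    have hff' : f ≠ f' := by
      rintro rfl; exact hf' hfF
    have hgf' : g ≠ f' := by
      rintro rfl; exact hf' hg.1
    rcases C2Aux.eq_ahead has with h1 | h1 <;> rcases C2Aux.eq_ahead hgs with h2 | h2 <;>
      rcases C2Aux.eq_ahead hs' with h3 | h3 <;> simp_all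
  · rintro ⟨h, hav⟩
    have : ∀ a, a ∈ MM ω F e → a ∈ MM ω (F \ K) e := by
      intro a ha
      change Relation.ReflTransGen _ e a at ha
      induction ha with
      | refl => exact mem_MM_self
      | @tail b c hb hs ih =>
        obtain ⟨f, hf, hm⟩ := hs
        have hfK : f ∉ K := fun hfK => hav f hfK ⟨hf, b, hb, hm.left⟩
        exact MM_step ⟨hf, hfK⟩ hm ih
    exact this t h

/-- A strand avoiding `K` is the same in `F` and in `F \ K`. -/
theorem MM_eq_of_avoids {F K : Set (ℤ × ℤ)} {e : UE} (hav : Avoids ω F e K) :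
    MM ω F e = MM ω (F \ K) e := by
  refine Set.Subset.antisymm (fun a ha => ?_) fun a ha => MM_mono Set.sdiff_subset ha
  change Relation.ReflTransGen _ e a at ha
  induction ha with
  | refl => exact mem_MM_self
  | @tail b c hb hs ih =>
    obtain ⟨f, hf, hm⟩ := hs
    have hfK : f ∉ K := fun hfK => hav f hfK ⟨hf, b, hb, hm.left⟩
    exact MM_step ⟨hf, hfK⟩ hm ih

/-- The strand of `e` in `F` is the strand in every set `C` of faces of `F` which contains a face of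
`e` and with every face all its neighbours in `F`. -/
theorem MM_comp {F C : Set (ℤ × ℤ)} {e : UE} (hCF : C ⊆ F)
    (hcl : ∀ f ∈ C, ∀ g ∈ F, ∀ a, IsSide f a → IsSide g a → g ∈ C)
    (he : ∀ f ∈ F, IsSide f e → f ∈ C) : MM ω F e = MM ω C e := by
  refine Set.Subset.antisymm (fun a ha => ?_) fun a ha => MM_mono hCF ha
  have key : ∀ a, a ∈ MM ω F e → a ∈ MM ω C e ∧ ∀ f ∈ F, IsSide f a → f ∈ C := by
    intro a ha
    change Relation.ReflTransGen _ e a at ha
    induction ha with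
    | refl => exact ⟨mem_MM_self, he⟩
    | @tail b c hb hs ih =>
      obtain ⟨f, hf, hm⟩ := hs
      have hfC := ih.2 f hf hm.left
      exact ⟨MM_step hfC hm ih.1, fun g hg hgs => hcl f hfC g hg c hm.right hgs⟩
  exact (key a ha).1

/-! ### Regions with solid parts -/

/-- Every face of `K` carries its bond of colour `c`. -/
def Solid (c : ℤ) (ω : Cfg) (K : Set (ℤ × ℤ)) : Prop :=
  ∀ f ∈ K, ∀ p q, Bond ω {f} p q → par p = c

/-- The vertices of parity `c` of the faces of `K`. -/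
def CorC (c : ℤ) (K : Set (ℤ × ℤ)) : Set (ℤ × ℤ) := {v | par v = c ∧ ∃ f ∈ K, IsCor f v}

/-- Connections of colour `c` in a region `C` made of fresh faces `D`, of a solid part `Ke` of colour
`c` and of a solid part `Ko` of the other colour. -/
theorem conn_frozen {D Ke Ko C : Set (ℤ × ℤ)} {c : ℤ} {u y : ℤ × ℤ} (hC : C ⊆ D ∪ Ke ∪ Ko)
    (hKo : ∀ f ∈ Ko, ∀ p q, Bond ω {f} p q → par p ≠ c) (hu : par u = c)
    (h : Conn ω C u y) : ∃ v, (v = u ∨ v ∈ CorC c Ke) ∧ Conn ω D v y := by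
  induction h with
  | refl => exact ⟨u, Or.inl rfl, Relation.ReflTransGen.refl⟩
  | @tail b d hub hbd ih =>
    obtain ⟨v, hv, hvb⟩ := ih
    obtain ⟨f, hf, hB, hfb, hfd⟩ := hbd.exists_face
    have hb : par b = c := by
      rw [← hu]; exact (Conn.par_eq hub).symm
    rcases hC hf with (hf | hf) | hf
    · exact ⟨v, hv, hvb.tail (hB.of_single hf)⟩
    · refine ⟨d, Or.inr ⟨?_, f, hf, hfd⟩, Relation.ReflTransGen.refl⟩
      rw [← hbd.par_eq]; exact hb
    · exact absurd hb (hKo f hf b d hB)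

theorem conn_corner {D : Set (ℤ × ℤ)} {v y : ℤ × ℤ} (h : Conn ω D v y) :
    v = y ∨ (∃ f ∈ D, IsCor f v) ∧ ∃ f ∈ D, IsCor f y := by
  rcases Relation.ReflTransGen.cases_head h with h1 | ⟨b, hb, -⟩
  · exact Or.inl h1
  · rcases Relation.ReflTransGen.cases_tail h with h2 | ⟨d, -, hd⟩
    · exact Or.inl h2.symm
    · obtain ⟨f, hf, -, hfv, -⟩ := hb.exists_face
      obtain ⟨g, hg, -, -, hgy⟩ := hd.exists_face
      exact Or.inr ⟨⟨f, hf, hfv⟩, g, hg, hgy⟩

/-- The strand in a region with solid parts: if it joins the boundary edge `{u, u'}` to the boundary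
edge `{p, p'}` (`u` and `p` of parity `c`) then `p` is joined in the fresh faces `D` to a vertex of
the solid part of colour `c`, and `p'` to a vertex of the other solid part. -/
theorem strand_frozen {D Ke Ko C : Set (ℤ × ℤ)} {c : ℤ} {e t : UE} {u u' p p' : ℤ × ℤ}
    (hC : C ⊆ D ∪ Ke ∪ Ko) (hKe : ∀ f ∈ Ke, ∀ p q, Bond ω {f} p q → par p = c)
    (hKo : ∀ f ∈ Ko, ∀ p q, Bond ω {f} p q → par p ≠ c)
    (hu : u ∈ CorC c Ke) (hu' : par u' ≠ c ∧ ∃ f ∈ Ko, IsCor f u') (he : Joins e u u')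
    (ht : Joins t p p') (hp : par p = c) (hm : t ∈ MM ω C e) :
    (∃ v ∈ CorC c Ke, Conn ω D v p) ∧ ∃ v, (par v ≠ c ∧ ∃ f ∈ Ko, IsCor f v) ∧ Conn ω D v p' := by
  have h1 : Conn ω C u p := mm_ends he ht hm (by rw [hu.1, hp])
  have hp' : par p' ≠ c := fun h => ht.par_ne (by rw [hp, h])
  have c1 := par_cases u
  have c2 := par_cases u'
  have c3 := par_cases p'
  have hpu : par p' = par u' := by
    have := hu.1
    have := hu'.1
    omega
  have h2 : Conn ω C u' p' := mm_ends he.symm ht.symm hm hpu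
  constructor
  · obtain ⟨v, hv, hvp⟩ := conn_frozen hC hKo hu.1 h1
    rcases hv with rfl | hv
    · exact ⟨v, hu, hvp⟩
    · exact ⟨v, hv, hvp⟩
  · have hC' : C ⊆ D ∪ Ko ∪ Ke := fun f hf => by
      rcases hC hf with (h | h) | h
      · exact Or.inl (Or.inl h)
      · exact Or.inr h
      · exact Or.inl (Or.inr h)
    obtain ⟨v, hv, hvp⟩ := conn_frozen (c := par u') hC' (fun f hf a b hB hab => by
      have := hKe f hf a b hB
      exact hu'.1 (by rw [← hab, this])) rfl h2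
    rcases hv with rfl | ⟨hv1, hv2⟩
    · exact ⟨v, hu', hvp⟩
    · exact ⟨v, ⟨by rw [hv1]; exact hu'.1, hv2⟩, hvp⟩

/-! ### Regions with four arcs -/

/-- The crossing event of the arcs `[i₀, i₁]` and `[j₀, j₁]` of a contour by the colour `c`. -/
def CrossA (D : Set (ℤ × ℤ)) (w : ℕ → ℤ × ℤ) (c : ℤ) (i₀ i₁ j₀ j₁ : ℕ) : Set Cfg :=
  {ω | ∃ i, i₀ ≤ i ∧ i ≤ i₁ ∧ ∃ y, j₀ ≤ y ∧ y ≤ j₁ ∧ par (w i) = c ∧ Conn ω D (w i) (w y)}

/-- EXIT IDENTITY, right: the exit edge has its end of colour `c` in the arc `[k₂, k₃]`. -/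
theorem cross_of_exit {D Ke : Set (ℤ × ℤ)} {c : ℤ} {k₁ k₂ k₃ y : ℕ}
    (hv : ∀ v ∈ CorC c Ke, (∃ f ∈ D, IsCor f v) → ∃ i ≤ k₁, w i = v)
    (hy : k₂ ≤ y) (hy3 : y ≤ k₃) (hD : ∃ f ∈ D, IsCor f (w y))
    (h : ∃ v ∈ CorC c Ke, Conn ω D v (w y)) : ω ∈ CrossA D w c 0 k₁ k₂ k₃ := by
  obtain ⟨v, hvK, hc⟩ := h
  have hvD : ∃ f ∈ D, IsCor f v := by
    rcases conn_corner hc with rfl | ⟨h1, -⟩
    · exact hD
    · exact h1
  obtain ⟨i, hi, rfl⟩ := hv v hvK hvD
  exact ⟨i, Nat.zero_le _, hi, y, hy, hy3, hvK.1, hc⟩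

/-- EXIT IDENTITY, left: the exit edge has its end of the other colour in the arc `[k₁, k₂]`. -/
theorem not_cross_of_exit {D : Finset (ℤ × ℤ)} {Ko : Set (ℤ × ℤ)} {c : ℤ} {k₁ k₂ k₃ y : ℕ}
    (h : Ctr (D : Set (ℤ × ℤ)) m w)
    (hv : ∀ v, par v ≠ c → (∃ f ∈ Ko, IsCor f v) → (∃ f ∈ (D : Set (ℤ × ℤ)), IsCor f v) →
      ∃ i, k₃ ≤ i ∧ i ≤ m ∧ w i = v)
    (hy : k₁ ≤ y) (hy2 : y ≤ k₂)
    (hD : ∃ f ∈ (D : Set (ℤ × ℤ)), IsCor f (w y))
    (hx : ∃ v, (par v ≠ c ∧ ∃ f ∈ Ko, IsCor f v) ∧ Conn ω D v (w y)) :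
    ω ∉ CrossA (D : Set (ℤ × ℤ)) w c 0 k₁ k₂ k₃ := by
  rintro ⟨i, -, hi, l, hl, hl3, hpi, hil⟩
  obtain ⟨v, ⟨hvp, hvK⟩, hvy⟩ := hx
  have hvD : ∃ f ∈ (D : Set (ℤ × ℤ)), IsCor f v := by
    rcases conn_corner hvy with rfl | ⟨h1, -⟩
    · exact hD
    · exact h1
  obtain ⟨j, hj3, hjm, rfl⟩ := hv v hvp hvK hvD
  have p1 : par (w l) = c := by rw [← hpi]; exact (Conn.par_eq hil).symm
  have p2 : par (w y) ≠ c := by
    rw [← Conn.par_eq hvy]; exact hvp
  have n1 : i ≠ y := by rintro rfl; exact p2 hpi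
  have n2 : y ≠ l := by rintro rfl; exact p2 p1
  have n3 : l ≠ j := by rintro rfl; exact hvp p1
  exact ctr_nc h ω (t := i) (b := y) (a := l) (b' := j) (by omega) (by omega) (by omega)
    (Or.inr (by omega)) hjm (by rw [hpi]; exact p2) hil (conn_symm hvy)

end Pool.Agent.SixB
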