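import Pool.Agent.Lib.SixB.S8Box
import Pool.Agent.Lib.SixB.S8Induct
import Pool.Agent.Lib.SixB.S8Exit
import Pool.Agent.Lib.SixB.S8LemCb
import Pool.Agent.Lib.SixB.S8Blow
import Pool.Agent.Lib.SixB.CACorner

/-!
# Step 8, unit 8I: convergence of the crossing probabilities of a cell polygon

`S` is a simple polygon of cells (`MPoly`; see `mpoly_iff`), `A` a side, `L` the number of the sides. In the
refinement `rf (m n) S`, `m n → ∞`, the contour starts at the first part `B n` of the side `A`.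

* `Ctr.length_eq`: all contours have the same length;
* `MPoly.cont_of_ctr`: the contour `k ↦ lf ((sc S)^[k] A)` as `Cont S L g`;
* `tendsto_CrE`, `conv_crossA`, `conv_XA`: the probability that the arcs `[m n * a₀, m n * a₁]` and
  `[m n * b₀, m n * b₁]` are joined in the colour `c` converges, for integers `a₀ ≤ a₁ ≤ b₀ ≤ b₁ ≤ a₀ + L` with both
  arcs nondegenerate or separated; limit `0` if an arc is degenerate, `1` if the arcs touch;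
* `tendsto_crossA`: marks with `i n / m n → a₀` and so on;
* `tendsto_XA_set`, `conv_XA_set`: the same for a finite edge connected set `F` of cells without holes, magnified
  with `blow (m n)`, contour from `subE (m n) A 0` (S8Blow).
-/

set_option autoImplicit false

namespace Pool.Agent.SixB

open Filter Finset Pool.Agent.Perc Pool.Agent.Perc6 Pool.Agent.Perc6.C2Aux Pool.Agent.Perc.Tips Pool.Agent.SixB.Top CARf

/-! ### Contours -/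

private theorem length_le {F : Set (ℤ × ℤ)} {m m' : ℕ} {w w' : ℕ → ℤ × ℤ} (h : Ctr F m w)
    (h' : Ctr F m' w') : m ≤ m' := by
  choose e he hj using h.step
  choose k hk hjk using fun (i : ℕ) (hi : i < m) => h'.all (e i hi) (he i hi)
  have hinj : Function.Injective (fun i : Fin m => (⟨k i i.2, hk i i.2⟩ : Fin m')) := by
    intro a b hab
    have hab' : k a a.2 = k b b.2 := by simpa using hab
    have h1 := hjk a a.2
    have h2 := hjk b b.2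
    rw [hab'] at h1
    have h3 : e a a.2 = e b b.2 := Joins.uniq h1 h2
    have h4 := hj b b.2
    rw [← h3] at h4
    exact Fin.ext (h.inj a a.2 b b.2 _ (hj a a.2) h4)
  simpa using Fintype.card_le_of_injective _ hinj

/-- All contours of a region have the same length. -/
theorem Ctr.length_eq {F : Set (ℤ × ℤ)} {m m' : ℕ} {w w' : ℕ → ℤ × ℤ} (h : Ctr F m w)
    (h' : Ctr F m' w') : m = m' := le_antisymm (length_le h h') (length_le h' h)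

section poly

variable {S : Finset (ℤ × ℤ)} {L : ℕ} {g : ℤ → ℤ × ℤ} {A : UE × Bool}

/-- The contour which starts at the side `A` in the form `Cont`. -/
theorem MPoly.cont_of_ctr (hP : MPoly S) (hA : BD (S : Set (ℤ × ℤ)) A) {w : ℕ → ℤ × ℤ}
    (hw : Ctr (S : Set (ℤ × ℤ)) L w) :
    ∃ g : ℤ → ℤ × ℤ, Cont S L g ∧ ∀ i : ℕ, g i = lf ((sc (S : Set (ℤ × ℤ)))^[i] A) := by
  obtain ⟨L', g, hc, hg⟩ := hP.exists_cont_from hA
  have := (hP.ctr hc 0).length_eq hw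
  subst this
  exact ⟨g, hc, hg⟩

theorem exists_ctr_side (hP : MPoly S) (hA : BD (S : Set (ℤ × ℤ)) A) :
    ∃ L, 0 < L ∧ Ctr (S : Set (ℤ × ℤ)) L fun i => lf ((sc (S : Set (ℤ × ℤ)))^[i] A) := by
  obtain ⟨m, h1, -, -, h2⟩ := exists_dctr S.finite_toSet hP.top_econn hP.esc hA
  exact ⟨m, h1, h2⟩

/-! ### Events -/

theorem crossA_eq_XA (D : Set (ℤ × ℤ)) (w : ℕ → ℤ × ℤ) (c : ℤ) (a₀ a₁ b₀ b₁ : ℕ) :
    CrossA D w c a₀ a₁ b₀ b₁ = LC.XA c D w a₀ a₁ b₀ b₁ := by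
  ext ω
  constructor
  · rintro ⟨i, h1, h2, k, h3, h4, h5, h6⟩
    exact ⟨i, k, h1, h2, h3, h4, h5, h6⟩
  · rintro ⟨i, k, h1, h2, h3, h4, h5, h6⟩
    exact ⟨i, h1, h2, k, h3, h4, h5, h6⟩

theorem crossA_eq_CrE {D : Set (ℤ × ℤ)} {w : ℕ → ℤ × ℤ} (hg : ∀ i : ℕ, g i = w i) (c : ℤ)
    (a₀ a₁ b₀ b₁ : ℕ) : CrossA D w c a₀ a₁ b₀ b₁ = CrE D g c a₀ a₁ b₀ b₁ := by
  ext ω
  constructor
  · rintro ⟨i, h1, h2, k, h3, h4, h5, h6⟩
    refine ⟨i, k, by exact_mod_cast h1, by exact_mod_cast h2, by exact_mod_cast h3,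
      by exact_mod_cast h4, ?_, ?_⟩
    · rw [hg]; exact h5
    · rw [hg, hg]; exact h6
  · rintro ⟨i, k, h1, h2, h3, h4, h5, h6⟩
    obtain ⟨i, rfl⟩ : ∃ i' : ℕ, i = i' := ⟨i.toNat, by omega⟩
    obtain ⟨k, rfl⟩ : ∃ k' : ℕ, k = k' := ⟨k.toNat, by omega⟩
    rw [hg] at h5
    rw [hg, hg] at h6
    exact ⟨i, by exact_mod_cast h1, by exact_mod_cast h2, k, by exact_mod_cast h3,
      by exact_mod_cast h4, h5, h6⟩

theorem depOn_crossA (D : Set (ℤ × ℤ)) (w : ℕ → ℤ × ℤ) (c : ℤ) (a₀ a₁ b₀ b₁ : ℕ) :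
    DepOn D (CrossA D w c a₀ a₁ b₀ b₁) := by
  intro ω ω' h
  simp only [CrossA, Set.mem_ofPred_eq, GridA.conn_iff _ h]

theorem depOn_XA' (D : Set (ℤ × ℤ)) (w : ℕ → ℤ × ℤ) (c : ℤ) (a₀ a₁ b₀ b₁ : ℕ) :
    DepOn D (LC.XA c D w a₀ a₁ b₀ b₁) := by
  rw [← crossA_eq_XA]
  exact depOn_crossA D w c a₀ a₁ b₀ b₁

/-! ### Convergence -/

/-- **Integer marks.** -/
theorem tendsto_CrE (hCA : CAOut) (hP : MPoly S) (hg : Cont S L g) {a₀ a₁ b₀ b₁ : ℤ} (h12 : a₀ ≤ a₁)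
    (h23 : a₁ ≤ b₀) (h34 : b₀ ≤ b₁) (h41 : b₁ ≤ a₀ + L)
    (hnd : (a₀ < a₁ ∧ b₀ < b₁) ∨ (a₁ < b₀ ∧ b₁ < a₀ + L)) :
    ∃ p : ℝ, ((a₀ = a₁ ∨ b₀ = b₁) → p = 0) ∧ ((a₁ = b₀ ∨ b₁ = a₀ + L) → p = 1) ∧
      ∀ (m : ℕ → ℕ) (c i j k l : ℕ → ℤ), Tendsto m atTop atTop → (∀ n, c n = 0 ∨ c n = 1) →
        Tendsto (fun n => (i n : ℝ) / m n) atTop (nhds a₀) →
        Tendsto (fun n => (j n : ℝ) / m n) atTop (nhds a₁) →
        Tendsto (fun n => (k n : ℝ) / m n) atTop (nhds b₀) →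
        Tendsto (fun n => (l n : ℝ) / m n) atTop (nhds b₁) →
        Tendsto (fun n => pr (rf (m n) S) (CrE (rf (m n) S : Set (ℤ × ℤ)) (gr (m n) g) (c n) (i n) (j n)
          (k n) (l n))) atTop (nhds p) := by
  have e0 : ((a₀ + L : ℤ) : ℝ) = (a₀ : ℝ) + L := by push_cast; ring
  obtain ⟨p, p0, p1, hp⟩ := ca_corner hCA hP hg (t₁ := a₀) (t₂ := a₁) (t₃ := b₀) (t₄ := b₁)
    (by exact_mod_cast h12) (by exact_mod_cast h23) (by exact_mod_cast h34) (by exact_mod_cast h41)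
    (by
      rcases hnd with ⟨h1, h2⟩ | ⟨h1, h2⟩
      · exact Or.inl ⟨by exact_mod_cast h1, by exact_mod_cast h2⟩
      · exact Or.inr ⟨by exact_mod_cast h1, by exact_mod_cast h2⟩)
  refine ⟨p, fun h => p0 ?_, fun h => p1 ?_, hp⟩
  · rcases h with h | h
    · exact Or.inl (by rw [h])
    · exact Or.inr (by rw [h])
  · rcases h with h | h
    · exact Or.inl (by rw [h])
    · exact Or.inr (by rw [h, e0])

private theorem tendsto_ratio {m : ℕ → ℕ} (hm : Tendsto m atTop atTop) (a : ℕ) :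
    Tendsto (fun n => (((m n * a : ℕ) : ℤ) : ℝ) / m n) atTop (nhds (a : ℤ)) := by
  refine tendsto_const_nhds.congr' ?_
  filter_upwards [hm.eventually_ge_atTop 1] with n hn
  have h : (m n : ℝ) ≠ 0 := by
    have : (0 : ℝ) < m n := by exact_mod_cast hn
    exact this.ne'
  push_cast
  rw [mul_comm, mul_div_assoc, div_self h, mul_one]

/-- **Natural marks near multiples of `m n`**, contour as iterated sides, any start side `A` of `S`; `B n` is the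
first part of `A`. -/
theorem tendsto_crossA (hCA : CAOut) (hP : MPoly S) (hA : BD (S : Set (ℤ × ℤ)) A) {w : ℕ → ℤ × ℤ}
    (hw : Ctr (S : Set (ℤ × ℤ)) L w) {a₀ a₁ b₀ b₁ : ℕ} (h12 : a₀ ≤ a₁)
    (h23 : a₁ ≤ b₀) (h34 : b₀ ≤ b₁) (h41 : b₁ ≤ a₀ + L)
    (hnd : (a₀ < a₁ ∧ b₀ < b₁) ∨ (a₁ < b₀ ∧ b₁ < a₀ + L)) :
    ∃ p : ℝ, ((a₀ = a₁ ∨ b₀ = b₁) → p = 0) ∧ ((a₁ = b₀ ∨ b₁ = a₀ + L) → p = 1) ∧
      ∀ (m : ℕ → ℕ) (c : ℕ → ℤ) (i j k l : ℕ → ℕ) (B : ℕ → UE × Bool), Tendsto m atTop atTop →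
        (∀ n, c n = 0 ∨ c n = 1) →
        (∀ n, 0 < m n → BD (rf (m n) S : Set (ℤ × ℤ)) (B n)) →
        (∀ n, 0 < m n → lf (B n) = ((m n : ℤ) * (lf A).1, (m n : ℤ) * (lf A).2)) →
        Tendsto (fun n => (i n : ℝ) / m n) atTop (nhds a₀) →
        Tendsto (fun n => (j n : ℝ) / m n) atTop (nhds a₁) →
        Tendsto (fun n => (k n : ℝ) / m n) atTop (nhds b₀) →
        Tendsto (fun n => (l n : ℝ) / m n) atTop (nhds b₁) →
        Tendsto (fun n => pr (rf (m n) S) (CrossA (rf (m n) S : Set (ℤ × ℤ))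
          (fun x => lf ((sc (rf (m n) S : Set (ℤ × ℤ)))^[x] (B n))) (c n) (i n) (j n) (k n) (l n)))
          atTop (nhds p) := by
  obtain ⟨g, hg, hgA⟩ := hP.cont_of_ctr hA hw
  obtain ⟨p, p0, p1, hp⟩ := tendsto_CrE hCA hP hg (a₀ := a₀) (a₁ := a₁) (b₀ := b₀) (b₁ := b₁)
    (by exact_mod_cast h12) (by exact_mod_cast h23) (by exact_mod_cast h34) (by exact_mod_cast h41)
    (by
      rcases hnd with ⟨h1, h2⟩ | ⟨h1, h2⟩
      · exact Or.inl ⟨by exact_mod_cast h1, by exact_mod_cast h2⟩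
      · exact Or.inr ⟨by exact_mod_cast h1, by exact_mod_cast h2⟩)
  refine ⟨p, fun h => p0 ?_, fun h => p1 ?_, ?_⟩
  · rcases h with h | h
    · exact Or.inl (by rw [h])
    · exact Or.inr (by rw [h])
  · rcases h with h | h
    · exact Or.inl (by rw [h])
    · exact Or.inr (by rw [h]; push_cast; ring)
  intro m c i j k l B hm hc hB hlf hi hj hk hl
  have hlim := hp m c (fun n => i n) (fun n => j n) (fun n => k n) (fun n => l n) hm hc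
    (by simpa using hi) (by simpa using hj) (by simpa using hk) (by simpa using hl)
  refine hlim.congr' ?_
  filter_upwards [hm.eventually_ge_atTop 1] with n hn
  have hn' : 0 < m n := hn
  obtain ⟨B', hB', hl', hg'⟩ := exists_start hP hn' hA hg hgA
  have hBB : B' = B n := start_unique (mpoly_rf hP hn').noPinch hB' (hB n hn') (hl'.trans (hlf n hn').symm)
  subst hBB
  rw [← crossA_eq_CrE hg']

/-- The same with marks which are multiples of `m n`. -/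
theorem tendsto_crossA_mul (hCA : CAOut) (hP : MPoly S) (hA : BD (S : Set (ℤ × ℤ)) A) {w : ℕ → ℤ × ℤ}
    (hw : Ctr (S : Set (ℤ × ℤ)) L w) {a₀ a₁ b₀ b₁ : ℕ} (h12 : a₀ ≤ a₁)
    (h23 : a₁ ≤ b₀) (h34 : b₀ ≤ b₁) (h41 : b₁ ≤ a₀ + L)
    (hnd : (a₀ < a₁ ∧ b₀ < b₁) ∨ (a₁ < b₀ ∧ b₁ < a₀ + L)) :
    ∃ p : ℝ, ((a₀ = a₁ ∨ b₀ = b₁) → p = 0) ∧ ((a₁ = b₀ ∨ b₁ = a₀ + L) → p = 1) ∧
      ∀ (m : ℕ → ℕ) (c : ℕ → ℤ) (B : ℕ → UE × Bool) (W : ℕ → Finset (ℤ × ℤ)), Tendsto m atTop atTop →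
        (∀ n, c n = 0 ∨ c n = 1) →
        (∀ n, 0 < m n → BD (rf (m n) S : Set (ℤ × ℤ)) (B n)) →
        (∀ n, 0 < m n → lf (B n) = ((m n : ℤ) * (lf A).1, (m n : ℤ) * (lf A).2)) →
        (∀ n, 0 < m n → rf (m n) S ⊆ W n) →
        Tendsto (fun n => pr (W n) (CrossA (rf (m n) S : Set (ℤ × ℤ))
          (fun x => lf ((sc (rf (m n) S : Set (ℤ × ℤ)))^[x] (B n))) (c n) (m n * a₀) (m n * a₁)
          (m n * b₀) (m n * b₁))) atTop (nhds p) := by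
  obtain ⟨p, p0, p1, hp⟩ := tendsto_crossA hCA hP hA hw h12 h23 h34 h41 hnd
  refine ⟨p, p0, p1, fun m c B W hm hc hB hlf hW => ?_⟩
  have hlim := hp m c (fun n => m n * a₀) (fun n => m n * a₁) (fun n => m n * b₀) (fun n => m n * b₁)
    B hm hc hB hlf (by simpa using tendsto_ratio hm a₀) (by simpa using tendsto_ratio hm a₁)
    (by simpa using tendsto_ratio hm b₀) (by simpa using tendsto_ratio hm b₁)
  refine hlim.congr' ?_
  filter_upwards [hm.eventually_ge_atTop 1] with n hn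
  exact (pr_eq_of_depOn (depOn_crossA _ _ _ _ _ _ _) (hW n hn)).symm

/-- **Convergence**, in the form which is used in the coarse exploration. -/
theorem conv_crossA (hCA : CAOut) (hP : MPoly S) (hA : BD (S : Set (ℤ × ℤ)) A) {w : ℕ → ℤ × ℤ}
    (hw : Ctr (S : Set (ℤ × ℤ)) L w) {a₀ a₁ b₀ b₁ : ℕ} (h12 : a₀ ≤ a₁)
    (h23 : a₁ ≤ b₀) (h34 : b₀ ≤ b₁) (h41 : b₁ ≤ a₀ + L)
    (hnd : (a₀ < a₁ ∧ b₀ < b₁) ∨ (a₁ < b₀ ∧ b₁ < a₀ + L))
    {m : ℕ → ℕ} {c : ℕ → ℤ} {B : ℕ → UE × Bool} {W : ℕ → Finset (ℤ × ℤ)} (hm : Tendsto m atTop atTop)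
    (hc : ∀ n, c n = 0 ∨ c n = 1)
    (hB : ∀ n, 0 < m n → BD (rf (m n) S : Set (ℤ × ℤ)) (B n))
    (hlf : ∀ n, 0 < m n → lf (B n) = ((m n : ℤ) * (lf A).1, (m n : ℤ) * (lf A).2))
    (hW : ∀ n, 0 < m n → rf (m n) S ⊆ W n) :
    Conv fun n => pr (W n) (CrossA (rf (m n) S : Set (ℤ × ℤ))
      (fun x => lf ((sc (rf (m n) S : Set (ℤ × ℤ)))^[x] (B n))) (c n) (m n * a₀) (m n * a₁)
      (m n * b₀) (m n * b₁)) := by
  obtain ⟨p, -, -, hp⟩ := tendsto_crossA_mul hCA hP hA hw h12 h23 h34 h41 hnd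
  exact ⟨p, hp m c B W hm hc hB hlf hW⟩

theorem conv_XA (hCA : CAOut) (hP : MPoly S) (hA : BD (S : Set (ℤ × ℤ)) A) {w : ℕ → ℤ × ℤ}
    (hw : Ctr (S : Set (ℤ × ℤ)) L w) {a₀ a₁ b₀ b₁ : ℕ} (h12 : a₀ ≤ a₁)
    (h23 : a₁ ≤ b₀) (h34 : b₀ ≤ b₁) (h41 : b₁ ≤ a₀ + L)
    (hnd : (a₀ < a₁ ∧ b₀ < b₁) ∨ (a₁ < b₀ ∧ b₁ < a₀ + L))
    {m : ℕ → ℕ} {c : ℕ → ℤ} {B : ℕ → UE × Bool} {W : ℕ → Finset (ℤ × ℤ)} (hm : Tendsto m atTop atTop)
    (hc : ∀ n, c n = 0 ∨ c n = 1)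
    (hB : ∀ n, 0 < m n → BD (rf (m n) S : Set (ℤ × ℤ)) (B n))
    (hlf : ∀ n, 0 < m n → lf (B n) = ((m n : ℤ) * (lf A).1, (m n : ℤ) * (lf A).2))
    (hW : ∀ n, 0 < m n → rf (m n) S ⊆ W n) :
    Conv fun n => pr (W n) (LC.XA (c n) (rf (m n) S : Set (ℤ × ℤ))
      (fun x => lf ((sc (rf (m n) S : Set (ℤ × ℤ)))^[x] (B n))) (m n * a₀) (m n * a₁)
      (m n * b₀) (m n * b₁)) := by
  have h := conv_crossA hCA hP hA hw h12 h23 h34 h41 hnd hm hc hB hlf hW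
  simp only [crossA_eq_XA] at h
  exact h

end poly

/-! ### Sets of cells -/

section set

variable {F : Set (ℤ × ℤ)} {L : ℕ} {A : UE × Bool}

/-- **Convergence for a set of cells**: with the limit, uniform over all sequences `m n → ∞`, colours and windows. -/
theorem tendsto_XA_set (hCA : CAOut) (hF : F.Finite) (hc : Top.EConn F) (he : Esc F) (hA : BD F A)
    {w : ℕ → ℤ × ℤ} (hw : Ctr F L w) {a₀ a₁ b₀ b₁ : ℕ} (h12 : a₀ ≤ a₁) (h23 : a₁ ≤ b₀) (h34 : b₀ ≤ b₁)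
    (h41 : b₁ ≤ a₀ + L) (hnd : (a₀ < a₁ ∧ b₀ < b₁) ∨ (a₁ < b₀ ∧ b₁ < a₀ + L)) :
    ∃ p : ℝ, ((a₀ = a₁ ∨ b₀ = b₁) → p = 0) ∧ ((a₁ = b₀ ∨ b₁ = a₀ + L) → p = 1) ∧
      ∀ (m : ℕ → ℕ) (c : ℕ → ℤ) (W : ℕ → Finset (ℤ × ℤ)), Tendsto m atTop atTop →
        (∀ n, c n = 0 ∨ c n = 1) → (∀ n, 0 < m n → blow (m n) F ⊆ (W n : Set (ℤ × ℤ))) →
        Tendsto (fun n => pr (W n) (LC.XA (c n) (blow (m n) F)
          (fun x => lf ((sc (blow (m n) F))^[x] (Blow.subE (m n) A 0))) (m n * a₀) (m n * a₁)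
          (m n * b₀) (m n * b₁))) atTop (nhds p) := by
  obtain ⟨S, rfl⟩ : ∃ S : Finset (ℤ × ℤ), F = (S : Set (ℤ × ℤ)) := ⟨hF.toFinset, by simp⟩
  have hne : S.Nonempty := ⟨ahead A, by simpa using hA.1⟩
  obtain ⟨p, p0, p1, hp⟩ := tendsto_crossA_mul hCA (mpoly_of_esc hne hc he) hA hw h12 h23 h34 h41 hnd
  refine ⟨p, p0, p1, fun m c W hm hcc hW => ?_⟩
  have hset : ∀ n, 0 < m n → (rf (m n) S : Set (ℤ × ℤ)) = blow (m n) (S : Set (ℤ × ℤ)) :=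
    fun n hn => coe_rf hn
  have h := hp m c (fun n => Blow.subE (m n) A 0) W hm hcc
    (fun n hn => by
      rw [hset n hn]
      exact Blow.bd_subE (by exact_mod_cast hn) hA le_rfl (by exact_mod_cast hn))
    (fun n _ => Blow.lf_subE_zero _ _)
    (fun n hn f hf => by
      have : f ∈ (rf (m n) S : Set (ℤ × ℤ)) := Finset.mem_coe.2 hf
      rw [hset n hn] at this
      exact Finset.mem_coe.1 (hW n hn this))
  refine h.congr' ?_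
  filter_upwards [hm.eventually_ge_atTop 1] with n hn
  rw [hset n hn, crossA_eq_XA]

theorem conv_XA_set (hCA : CAOut) (hF : F.Finite) (hc : Top.EConn F) (he : Esc F) (hA : BD F A)
    {w : ℕ → ℤ × ℤ} (hw : Ctr F L w) {a₀ a₁ b₀ b₁ : ℕ} (h12 : a₀ ≤ a₁) (h23 : a₁ ≤ b₀) (h34 : b₀ ≤ b₁)
    (h41 : b₁ ≤ a₀ + L) (hnd : (a₀ < a₁ ∧ b₀ < b₁) ∨ (a₁ < b₀ ∧ b₁ < a₀ + L))
    {m : ℕ → ℕ} {c : ℕ → ℤ} {W : ℕ → Finset (ℤ × ℤ)} (hm : Tendsto m atTop atTop)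
    (hcc : ∀ n, c n = 0 ∨ c n = 1) (hW : ∀ n, 0 < m n → blow (m n) F ⊆ (W n : Set (ℤ × ℤ))) :
    Conv fun n => pr (W n) (LC.XA (c n) (blow (m n) F)
      (fun x => lf ((sc (blow (m n) F))^[x] (Blow.subE (m n) A 0))) (m n * a₀) (m n * a₁)
      (m n * b₀) (m n * b₁)) := by
  obtain ⟨p, -, -, hp⟩ := tendsto_XA_set hCA hF hc he hA hw h12 h23 h34 h41 hnd
  exact ⟨p, hp m c W hm hcc hW⟩

end set

end Pool.Agent.SixB
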