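import Pool.Agent.Lib.SixB.S8Clu

/-!
# Step 8, bubbles (N4): definitions

`EnclV ω x₀ x₁ y₀ y₁ Z u`: a path of the colour which is not the colour of `u`, starting at a corner of
a face of `Z` and using only faces of the rectangle which carry no bond of the cluster of `u` in the
rectangle, does not reach the boundary of the rectangle.
-/

set_option autoImplicit false

namespace Pool.Agent.SixB

open Finset Pool.Agent.Perc Pool.Agent.Perc6

/-- The face carries a bond of the cluster of `u` in `F`. -/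
def Carry (ω : Cfg) (F : Set (ℤ × ℤ)) (u f : ℤ × ℤ) : Prop :=
  ∃ p q, Bond ω {f} p q ∧ Conn ω F u p

/-- A step between two corners of the same parity of a face of `F` which carries no bond of the cluster
of `u`. -/
def DSt (ω : Cfg) (F : Set (ℤ × ℤ)) (u p q : ℤ × ℤ) : Prop :=
  ∃ f ∈ F, IsCor f p ∧ IsCor f q ∧ par p = par q ∧ ¬ Carry ω F u f

/-- The vertices of `Z` of the other parity are enclosed by the cluster of `u` in the rectangle. -/
def EnclV (ω : Cfg) (x₀ x₁ y₀ y₁ : ℤ) (Z : Set (ℤ × ℤ)) (u : ℤ × ℤ) : Prop :=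
  ∀ p, (∃ f ∈ Z, IsCor f p) → par p ≠ par u → ∀ q,
    Relation.ReflTransGen (DSt ω (RF x₀ x₁ y₀ y₁ : Set (ℤ × ℤ)) u) p q →
    x₀ < q.1 ∧ q.1 < x₁ ∧ y₀ < q.2 ∧ q.2 < y₁

end Pool.Agent.SixB
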