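import Pool.Agent.Lib.SixB.S8BubDefs

/-!
# Step 8, bubbles (N4): the deterministic part

A strand of a rectangle, `Z` a connected set of faces next to it which it does not visit. Either there is
a fresh path of the other colour from `Z` to the boundary of the rectangle or the cluster of the strand
encloses `Z` in the rectangle.
-/

set_option autoImplicit false

namespace Pool.Agent.SixB

open Finset Pool.Agent.Perc Pool.Agent.Perc6

variable {ω : Cfg} {F Z : Set (ℤ × ℤ)} {e a : UE} {f z : ℤ × ℤ} {u v p q o u' b : ℤ × ℤ}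
  {M : Set UE} {Φ : ℤ × ℤ → ZMod 2} {x₀ x₁ y₀ y₁ c : ℤ}

/-! ### Bonds of a face -/

/-- In a face with the bond of the other colour the two corners of this colour are joined. -/
theorem bond_of_parD (hf : ω f = parD c f) (hc : c = 0 ∨ c = 1) (hp : IsCor f p) (hq : IsCor f q)
    (hpc : par p ≠ c) (hqc : par q ≠ c) : p = q ∨ Bond ω {f} p q := by
  obtain ⟨x, y⟩ := f
  obtain ⟨p1, p2⟩ := p
  obtain ⟨q1, q2⟩ := q
  unfold IsCor at hp hq
  unfold par at hpc hqc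
  unfold parD at hf
  simp only at hp hq hpc hqc hf
  by_cases h : (p1, p2) = (q1, q2)
  · exact Or.inl h
  right
  refine ⟨x, y, rfl, ?_⟩
  rcases Bool.eq_false_or_eq_true (ω (x, y)) with ht | ht
  · rw [ht] at hf
    have h2 := of_decide_eq_true hf.symm
    left
    refine ⟨ht, ?_⟩
    simp only [Prod.mk.injEq] at h ⊢
    omega
  · rw [ht] at hf
    have h2 := of_decide_eq_false hf.symm
    right
    refine ⟨ht, ?_⟩
    simp only [Prod.mk.injEq] at h ⊢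
    omega

/-- The bond of a face. -/
theorem exists_bond (ω : Cfg) (f : ℤ × ℤ) (hc : c = 0 ∨ c = 1) :
    ω f = parD c f ∨ ∃ p q, Bond ω {f} p q ∧ par p = c := by
  obtain ⟨x, y⟩ := f
  by_cases h : ω (x, y) = parD c (x, y)
  · exact Or.inl h
  right
  rcases Bool.eq_false_or_eq_true (ω (x, y)) with ht | ht
  · refine ⟨(x, y), (x + 1, y + 1), ⟨x, y, rfl, Or.inl ⟨ht, Or.inl ⟨rfl, rfl⟩⟩⟩, ?_⟩
    rw [ht] at h
    unfold parD at h
    unfold par
    simp only at h ⊢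
    by_contra hne
    exact h (by symm; apply decide_eq_true; omega)
  · refine ⟨(x, y + 1), (x + 1, y), ⟨x, y, rfl, Or.inr ⟨ht, Or.inl ⟨rfl, rfl⟩⟩⟩, ?_⟩
    rw [ht] at h
    unfold parD at h
    unfold par
    simp only at h ⊢
    by_contra hne
    exact h (by symm; apply decide_eq_false; omega)

/-! ### Potentials on the boundary of a rectangle -/

/-- The potential along a vertical segment which is not crossed. -/
theorem pot_sgV (hP : IsPot F M Φ) {x a b : ℤ} (hab : a ≤ b)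
    (h : ∀ j, a ≤ j → j < b → (∃ f ∈ F, IsSide f ((x, j, true) : UE)) ∧
      ((x, j, true) : UE) ∉ M) : Φ (x, a) = Φ (x, b) := by
  obtain ⟨n, rfl⟩ := Int.le.dest hab
  clear hab
  induction n with
  | zero => simp
  | succ n ih =>
    push_cast at h ⊢
    rw [ih fun j h1 h2 => h j h1 (by omega)]
    obtain ⟨⟨f, hf, hs⟩, h2⟩ := h (a + n) (by omega) (by omega)
    have := hP.joins (a := (x, a + n, true)) (p := (x, a + n)) (q := (x, a + n + 1)) hf hs
      (by simp [Joins, ua, ub])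
    rw [← add_assoc]
    by_contra hne
    exact h2 (this.2 hne)

/-- The potential along a horizontal segment which is not crossed. -/
theorem pot_sgH (hP : IsPot F M Φ) {y a b : ℤ} (hab : a ≤ b)
    (h : ∀ i, a ≤ i → i < b → (∃ f ∈ F, IsSide f ((i, y, false) : UE)) ∧
      ((i, y, false) : UE) ∉ M) : Φ (a, y) = Φ (b, y) := by
  obtain ⟨n, rfl⟩ := Int.le.dest hab
  clear hab
  induction n with
  | zero => simp
  | succ n ih =>
    push_cast at h ⊢
    rw [ih fun j h1 h2 => h j h1 (by omega)]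
    obtain ⟨⟨f, hf, hs⟩, h2⟩ := h (a + n) (by omega) (by omega)
    have := hP.joins (a := (a + n, y, false)) (p := (a + n, y)) (q := (a + n + 1, y)) hf hs
      (by simp [Joins, ua, ub])
    rw [← add_assoc]
    by_contra hne
    exact h2 (this.2 hne)

/-- If no unit edge of the boundary is in `M` then the potential is constant on the boundary. -/
theorem pot_onBd (hP : IsPot (RF x₀ x₁ y₀ y₁ : Set (ℤ × ℤ)) M Φ) (hx : x₀ < x₁) (hy : y₀ < y₁)
    (hM : ∀ a ∈ M, ¬ BdE x₀ x₁ y₀ y₁ a) (hp : OnBd x₀ x₁ y₀ y₁ p) : Φ p = Φ (x₀, y₀) := by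
  have hV : ∀ x, (x = x₀ ∨ x = x₁) → ∀ y, y₀ ≤ y → y ≤ y₁ → Φ (x, y₀) = Φ (x, y) := by
    intro x hx' y h1 h2
    refine pot_sgV hP h1 fun j h3 h4 => ⟨?_, fun h => hM _ h (Or.inr ⟨rfl, h3, (by show j < y₁; omega), hx'⟩)⟩
    rcases hx' with rfl | rfl
    · exact ⟨(x, j), by rw [mem_RF']; simp only; omega, Or.inr (Or.inl rfl)⟩
    · exact ⟨(x - 1, j), by rw [mem_RF']; simp only; omega,
        Or.inr (Or.inr (Or.inr (by unfold ri; simp)))⟩
  have hH : ∀ y, (y = y₀ ∨ y = y₁) → ∀ x, x₀ ≤ x → x ≤ x₁ → Φ (x₀, y) = Φ (x, y) := by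
    intro y hy' x h1 h2
    refine pot_sgH hP h1 fun j h3 h4 => ⟨?_, fun h => hM _ h (Or.inl ⟨rfl, h3, (by show j < x₁; omega), hy'⟩)⟩
    rcases hy' with rfl | rfl
    · exact ⟨(j, y), by rw [mem_RF']; simp only; omega, Or.inl rfl⟩
    · exact ⟨(j, y - 1), by rw [mem_RF']; simp only; omega,
        Or.inr (Or.inr (Or.inl (by unfold to'; simp)))⟩
  obtain ⟨x, y⟩ := p
  obtain ⟨h1, h2, h3, h4, h5⟩ := hp
  simp only at h1 h2 h3 h4 h5
  rcases h1 with rfl | rfl | rfl | rfl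
  · exact (hV x (Or.inl rfl) y h4 h5).symm
  · rw [← hV x (Or.inr rfl) y h4 h5]
    exact (hH y₀ (Or.inl rfl) x h2 h3).symm
  · exact (hH y (Or.inl rfl) x h2 h3).symm
  · rw [← hH y (Or.inr rfl) x h2 h3]
    exact (hV x₀ (Or.inl rfl) y h4 h5).symm

/-- The ends of a boundary edge are boundary vertices. -/
theorem onBd_of_bdE (hx : x₀ < x₁) (hy : y₀ < y₁) (h : BdE x₀ x₁ y₀ y₁ a) (hj : Joins a p q) :
    OnBd x₀ x₁ y₀ y₁ p := by
  obtain ⟨x, y, d⟩ := a
  unfold BdE at h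
  unfold OnBd
  cases d
  · simp only [Joins, ua_mk, ub_false] at hj
    simp only [Bool.false_eq_true, true_and, false_and, or_false] at h
    rcases hj with ⟨rfl, -⟩ | ⟨rfl, -⟩ <;> simp only <;> omega
  · simp only [Joins, ua_mk, ub_true] at hj
    simp only [Bool.true_eq_false, false_and, true_and, false_or] at h
    rcases hj with ⟨rfl, -⟩ | ⟨rfl, -⟩ <;> simp only <;> omega

/-- Faces at an interior vertex are faces of the rectangle. -/
theorem mem_RF_of_cor (hf : IsCor f p) (h1 : x₀ < p.1) (h2 : p.1 < x₁) (h3 : y₀ < p.2)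
    (h4 : p.2 < y₁) : f ∈ (RF x₀ x₁ y₀ y₁ : Set (ℤ × ℤ)) := by
  rw [mem_RF']
  unfold IsCor at hf
  omega

theorem inR_of_cor (hf : f ∈ (RF x₀ x₁ y₀ y₁ : Set (ℤ × ℤ))) (hp : IsCor f p) :
    x₀ ≤ p.1 ∧ p.1 ≤ x₁ ∧ y₀ ≤ p.2 ∧ p.2 ≤ y₁ := by
  rw [mem_RF'] at hf
  unfold IsCor at hp
  omega

/-- Neighbouring faces have a common corner of any parity. -/
theorem adj_cor {g : ℤ × ℤ} (h : Adj f g) (hc : c = 0 ∨ c = 1) :
    ∃ w, IsCor f w ∧ IsCor g w ∧ par w = c := by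
  obtain ⟨x, y⟩ := f
  obtain ⟨x', y'⟩ := g
  unfold Adj at h
  simp only at h
  unfold IsCor par
  rcases h with ⟨rfl, rfl | rfl⟩ | ⟨rfl, rfl | rfl⟩
  · by_cases hh : (x + (y' + 1)) % 2 = c
    · exact ⟨(x, y' + 1), by simp, by simp, hh⟩
    · exact ⟨(x + 1, y' + 1), by simp, by simp, by simp only; omega⟩
  · by_cases hh : (x + (y + 1)) % 2 = c
    · exact ⟨(x, y + 1), by simp, by simp, hh⟩
    · exact ⟨(x + 1, y + 1), by simp, by simp, by simp only; omega⟩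
  · by_cases hh : ((x' + 1) + y) % 2 = c
    · exact ⟨(x' + 1, y), by simp, by simp, hh⟩
    · exact ⟨(x' + 1, y + 1), by simp, by simp, by simp only; omega⟩
  · by_cases hh : ((x + 1) + y) % 2 = c
    · exact ⟨(x + 1, y), by simp, by simp, hh⟩
    · exact ⟨(x + 1, y + 1), by simp, by simp, by simp only; omega⟩

/-- **Bubbles, deterministic part.** -/
theorem bubble_det (hx : x₀ < x₁) (hy : y₀ < y₁)
    (hP : IsPot (RF x₀ x₁ y₀ y₁ : Set (ℤ × ℤ)) (MM ω (RF x₀ x₁ y₀ y₁ : Set (ℤ × ℤ)) e) Φ)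
    (he : Joins e u v) (hs : ∃ f ∈ (RF x₀ x₁ y₀ y₁ : Set (ℤ × ℤ)), IsSide f e)
    (hZ : Z ⊆ (RF x₀ x₁ y₀ y₁ : Set (ℤ × ℤ)))
    (hZS : ∀ f ∈ Z, f ∉ SS ω (RF x₀ x₁ y₀ y₁ : Set (ℤ × ℤ)) e) (hzc : ∀ f ∈ Z, Chn Z z f)
    (hzZ : z ∈ Z) (ha : IsSide z a) (hj : Joins a u' o)
    (huu : Conn ω (SS ω (RF x₀ x₁ y₀ y₁ : Set (ℤ × ℤ)) e) u u') (ho : Φ o = Φ u)
    (hb : OnBd x₀ x₁ y₀ y₁ b) (hub : Conn ω (SS ω (RF x₀ x₁ y₀ y₁ : Set (ℤ × ℤ)) e) u b) :
    (∃ p q, (∃ f ∈ Z, IsCor f p) ∧ OnBd x₀ x₁ y₀ y₁ q ∧ par p ≠ par u ∧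
      Conn ω ((RF x₀ x₁ y₀ y₁ : Set (ℤ × ℤ)) \ SS ω (RF x₀ x₁ y₀ y₁ : Set (ℤ × ℤ)) e) p q) ∨
    EnclV ω x₀ x₁ y₀ y₁ Z u := by
  obtain ⟨T, hT⟩ : ∃ T : Set (ℤ × ℤ), T = (RF x₀ x₁ y₀ y₁ : Set (ℤ × ℤ)) := ⟨_, rfl⟩
  have hpot : HasPot T := hT ▸ hasPot_RF x₀ x₁ y₀ y₁
  have hc := par_cases u
  obtain ⟨ω₁, hω₁⟩ : ∃ ω₁ : Cfg, ω₁ = setO (par u) Z ω := ⟨_, rfl⟩
  rw [← hT] at hP hs hZ hZS huu hub ⊢
  have hu' : par u' = par u := huu.par_eq.symm
  have ho' : par o ≠ par u := by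
    rw [← hu']
    exact hj.par_ne.symm
  have hin : ∀ {f : ℤ × ℤ}, f ∈ Z → ω₁ f = parD (par u) f := fun h => by
    rw [hω₁]; exact setO_mem h
  have hout : ∀ {f : ℤ × ℤ}, f ∉ Z → ω₁ f = ω f := fun h => by
    rw [hω₁]; exact setO_not h
  -- connections of the colour of `u`
  have hlift : ∀ {x y : ℤ × ℤ}, Conn ω (SS ω T e) x y → Conn ω₁ T x y := by
    intro x y h
    refine conn_induct (P := fun y => Conn ω₁ T x y) h Relation.ReflTransGen.refl ?_
    intro p q g _ hp hg hbd _ _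
    have hgZ : g ∉ Z := fun hz => hZS g hz hg
    exact hp.tail (bond_of_single hg.1 (bond_single_congr hbd (hout hgZ).symm))
  have hback : ∀ {y : ℤ × ℤ}, Conn ω₁ T u' y → Conn ω T u' y := by
    intro y h
    rw [hω₁, conn_setO hc hu'] at h
    exact conn_mono Set.sdiff_subset h
  have huT : Conn ω T u u' := conn_mono SS_sub huu
  have hub1 : Conn ω₁ T u' b := conn_trans (conn_symm (hlift huu)) (hlift hub)
  -- the strand of `a` in the changed configuration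
  obtain ⟨Ψ, hΨ⟩ := hpot (MM ω₁ T a) fun f hf => evenAt_MM hf
  have hsa : ∃ f ∈ T, IsSide f a := ⟨z, hZ hzZ, ha⟩
  have hne : Ψ u' ≠ Ψ o := hΨ.ne hj hsa
  have hoz : IsCor z o := ha.cor_left hj.symm
  by_cases hB : ∃ a₁ ∈ MM ω₁ T a, BdE x₀ x₁ y₀ y₁ a₁
  · -- the strand reaches the boundary
    left
    obtain ⟨a₁, ha₁, hbd⟩ := hB
    obtain ⟨p, q, hj', hp', hcp⟩ := MM_conn hj.symm ha₁
    have hcp' : Conn ω₁ T o p := conn_mono SS_sub hcp
    have hne' : Φ u ≠ Φ v := hP.ne he hs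
    have hvp : par v = par o := by
      have h1 := he.par_ne
      have h2 := par_cases v
      have h3 := par_cases o
      have h4 := par_cases u
      omega
    have key : Φ p = Φ u ∧ par p = par o ∧ ∃ p₀, (∃ f ∈ Z, IsCor f p₀) ∧ par p₀ = par o ∧
        Conn ω (T \ SS ω T e) p₀ p := by
      refine conn_induct (P := fun p => Φ p = Φ u ∧ par p = par o ∧
        ∃ p₀, (∃ f ∈ Z, IsCor f p₀) ∧ par p₀ = par o ∧ Conn ω (T \ SS ω T e) p₀ p) hcp'
        ⟨ho, rfl, o, ⟨z, hzZ, hoz⟩, rfl, Relation.ReflTransGen.refl⟩ ?_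
      rintro r s g hor ⟨h1, h2, p₀, h3, h4, h5⟩ hg hbd' k1 k2
      have hrs : par r = par s := (bond_of_single (F := T) hg hbd').par_eq
      by_cases hgZ : g ∈ Z
      · exact ⟨(hP.fresh (hZ hgZ) (hZS g hgZ) k2 k1).trans h1, hrs.symm.trans h2, s,
          ⟨g, hgZ, k2⟩, hrs.symm.trans h2, Relation.ReflTransGen.refl⟩
      · have hbd2 : Bond ω {g} r s := bond_single_congr hbd' (hout hgZ)
        have hgS : g ∉ SS ω T e := by
          intro hgS
          have h6 := hP.ss_bond he.symm hs hgS hbd2 (h2.trans hvp.symm)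
          exact hne' (h1.symm.trans h6.1)
        exact ⟨(hP.fresh hg hgS k2 k1).trans h1, hrs.symm.trans h2, p₀, h3, h4,
          h5.tail (bond_of_single ⟨hg, hgS⟩ hbd2)⟩
    obtain ⟨-, -, p₀, h3, h4, h5⟩ := key
    exact ⟨p₀, p, h3, onBd_of_bdE hx hy hbd hj', by rw [h4]; exact ho', h5⟩
  · -- the strand is a loop inside of the rectangle
    right
    have hB' : ∀ a₁ ∈ MM ω₁ T a, ¬ BdE x₀ x₁ y₀ y₁ a₁ := fun a₁ h1 h2 => hB ⟨a₁, h1, h2⟩
    have hΨ' : IsPot (RF x₀ x₁ y₀ y₁ : Set (ℤ × ℤ)) (MM ω₁ T a) Ψ := by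
      rw [← hT]
      exact hΨ
    have hbd : ∀ q, OnBd x₀ x₁ y₀ y₁ q → Ψ q = Ψ b := by
      intro q hq
      rw [pot_onBd hΨ' hx hy hB' hq, pot_onBd hΨ' hx hy hB' hb]
    have hob : Ψ o ≠ Ψ b := by
      rw [← hΨ.conn hub1]
      exact hne.symm
    -- the corners of a face which is not in the cluster
    have hstep : ∀ f ∈ T, ¬ Carry ω T u f → ∀ x y, IsCor f x → IsCor f y → par x ≠ par u →
        par y ≠ par u → Ψ x = Ψ y := by
      intro f hf hcar x y hxf hyf hxp hyp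
      by_cases hfS : f ∈ SS ω₁ T a
      · rcases exists_bond (c := par u) ω₁ f hc with h1 | ⟨p', q', h1, h2⟩
        · rcases bond_of_parD h1 hc hxf hyf hxp hyp with rfl | h2
          · rfl
          · exact hΨ.bond (bond_of_single hf h2)
        · exfalso
          have hfZ : f ∉ Z := fun h => bond_parD h1 (hin h) hc h2
          have h3 := (hΨ.ss_bond hj hsa hfS h1 (h2.trans hu'.symm)).2
          exact hcar ⟨p', q', bond_single_congr h1 (hout hfZ),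
            conn_trans huT (hback (conn_mono SS_sub h3))⟩
      · exact hΨ.fresh hf hfS hxf hyf
    -- the corners of the faces of `Z`
    have hZΨ : ∀ f ∈ Z, ∀ x y, IsCor f x → IsCor f y → par x ≠ par u → par y ≠ par u →
        Ψ x = Ψ y := by
      intro f hf x y hxf hyf hxp hyp
      rcases bond_of_parD (hin hf) hc hxf hyf hxp hyp with rfl | h2
      · rfl
      · exact hΨ.bond (bond_of_single (hZ hf) h2)
    have hoc : par o = 0 ∨ par o = 1 := par_cases o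
    have hall : ∀ f ∈ Z, ∀ x, IsCor f x → par x ≠ par u → Ψ x = Ψ o := by
      intro f hf
      obtain ⟨-, hch⟩ := hzc f hf
      have key : f ∈ Z ∧ ∀ x, IsCor f x → par x ≠ par u → Ψ x = Ψ o := by
        clear hf
        induction hch with
        | refl => exact ⟨hzZ, fun x hx hxp => hZΨ _ hzZ x o hx hoz hxp ho'⟩
        | @tail g g' _ hgg ih =>
          obtain ⟨hg, ih⟩ := ih
          refine ⟨hgg.2, fun x hx hxp => ?_⟩
          obtain ⟨w, h1, h2, h3⟩ := adj_cor hgg.1 hoc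
          have hw : par w ≠ par u := by rw [h3]; exact ho'
          rw [hZΨ g' hgg.2 x w hx h2 hxp hw]
          exact ih w h1 hw
      exact key.2
    rintro p ⟨f, hfZ, hpf⟩ hpp q hpq
    have hInt : ∀ q : ℤ × ℤ, (x₀ ≤ q.1 ∧ q.1 ≤ x₁ ∧ y₀ ≤ q.2 ∧ q.2 ≤ y₁) → Ψ q = Ψ o →
        x₀ < q.1 ∧ q.1 < x₁ ∧ y₀ < q.2 ∧ q.2 < y₁ := by
      intro q hq hqo
      by_contra hcon
      refine hob (hqo.symm.trans (hbd q ⟨?_, hq⟩))
      omega
    have key : (x₀ < q.1 ∧ q.1 < x₁ ∧ y₀ < q.2 ∧ q.2 < y₁) ∧ Ψ q = Ψ o ∧ par q ≠ par u := by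
      induction hpq with
      | refl =>
        have h1 := hall f hfZ p hpf hpp
        exact ⟨hInt p (inR_of_cor (hT ▸ hZ hfZ) hpf) h1, h1, hpp⟩
      | @tail r s _ hrs ih =>
        obtain ⟨⟨h1, h2, h3, h4⟩, h5, h6⟩ := ih
        obtain ⟨g, hgT, hg1, hg2, hg3, hg4⟩ := hrs
        have h7 : Ψ s = Ψ o := by
          rw [← h5]
          exact (hstep g (hT ▸ hgT) (by rw [hT]; exact hg4) r s hg1 hg2 h6
            (by rw [← hg3]; exact h6)).symm
        exact ⟨hInt s (inR_of_cor hgT hg2) h7, h7, by rw [← hg3]; exact h6⟩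
    exact key.1

end Pool.Agent.SixB
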