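import Pool.Agent.Lib.MP_6bd702_z.Z019
import Pool.Agent.Lib.MP_6bd702_z.Z034

/-!
# Step 8: every large cluster has a strand which crosses an interior rectangle

For the row SN (bubbles) of the scan. The interface around a large cluster comes into the interior
of the box and goes far; so there is a point `p` of the grid of mesh `a` such that it crosses one of
the four rectangles of width `a` and length `6 a` around the box of radius `a` of `p`, in the short
direction and at distance `a` of the short sides.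
-/

set_option autoImplicit false

namespace Pool.Agent.SixB

open Pool.Agent.Perc Pool.Agent.PercD
open Pool.Agent.MP_6bd702.H23 (Ed)
open Pool.Agent.PercU (Cor vtx fce qry qryb nxt prv nxtE)
open Pool.Agent.PercO (sd)
open Pool.Agent.PercX60 (gV gF gB gT dB Sn)
open Pool.Agent.PercW (kap ua_kap side_kap Mt_unique mt_nxt mt_prv Lay mem_Lay LayX LayY joins_kap)
open Filter Topology

/-- A strand crosses the rectangle from the left side to the right side, at distance `d` of the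
horizontal sides, and `u` is an end of its first unit edge (on the left side). -/
def CrH (ω : Cfg) (x0 x1 y0 y1 d : ℤ) (u : ℤ × ℤ) : Prop :=
  ∃ h g, y0 ≤ h ∧ h < y1 ∧ y0 ≤ g ∧ g < y1 ∧
    ((x1, g, true) : UE) ∈ MM ω (RF x0 x1 y0 y1 : Set (ℤ × ℤ)) (x0, h, true) ∧
    (∀ f ∈ SS ω (RF x0 x1 y0 y1 : Set (ℤ × ℤ)) (x0, h, true), y0 + d ≤ f.2 ∧ f.2 < y1 - d) ∧
    (u = (x0, h) ∨ u = (x0, h + 1))

/-- A strand crosses the rectangle from the lower side to the upper side, at distance `d` of the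
vertical sides, and `u` is an end of its first unit edge (on the lower side). -/
def CrV (ω : Cfg) (x0 x1 y0 y1 d : ℤ) (u : ℤ × ℤ) : Prop :=
  ∃ h g, x0 ≤ h ∧ h < x1 ∧ x0 ≤ g ∧ g < x1 ∧
    ((g, y1, false) : UE) ∈ MM ω (RF x0 x1 y0 y1 : Set (ℤ × ℤ)) (h, y0, false) ∧
    (∀ f ∈ SS ω (RF x0 x1 y0 y1 : Set (ℤ × ℤ)) (h, y0, false), x0 + d ≤ f.1 ∧ f.1 < x1 - d) ∧
    (u = (h, y0) ∨ u = (h + 1, y0))

/-- A strand crosses one of the four rectangles around the box of radius `a` of `p`. -/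
def CrAny (ω : Cfg) (p : ℤ × ℤ) (a : ℤ) (u : ℤ × ℤ) : Prop :=
  CrH ω (p.1 + a) (p.1 + 2 * a) (p.2 - 3 * a) (p.2 + 3 * a) a u ∨
  CrH ω (p.1 - 2 * a) (p.1 - a) (p.2 - 3 * a) (p.2 + 3 * a) a u ∨
  CrV ω (p.1 - 3 * a) (p.1 + 3 * a) (p.2 + a) (p.2 + 2 * a) a u ∨
  CrV ω (p.1 - 3 * a) (p.1 + 3 * a) (p.2 - 2 * a) (p.2 - a) a u

namespace BubbleC

variable {T : Set Ed} {k : Cor} {F : Set (ℤ × ℤ)} {c d l₀ : ℕ}

/-- The face of a step of the interface. -/
noncomputable def fc (T : Set Ed) (k : Cor) (j : ℕ) : ℤ × ℤ := phiE (qry ((nxt T)^[j] k))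

/-- The unit edge of a step of the interface. -/
noncomputable def ed (T : Set Ed) (k : Cor) (j : ℕ) : UE := kap ((nxt T)^[j] k)

theorem mt_fc (j : ℕ) : Mt (gT T) (fc T k j) (ed T k j) (ed T k (j + 1)) := by
  unfold fc ed
  rw [Function.iterate_succ_apply']
  exact mt_nxt T _

theorem qryb_succ (j : ℕ) : phiE (qryb ((nxt T)^[j + 1] k)) = fc T k j := by
  unfold fc
  rw [Function.iterate_succ_apply', ← PercU.qry_prv (ω := T), PercU.prv_nxt]

/-- A unit edge is a side of the faces before and after it only. -/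
theorem side_ed {f : ℤ × ℤ} {j : ℕ} (h : IsSide f (ed T k (j + 1))) :
    f = fc T k (j + 1) ∨ f = fc T k j := by
  rcases side_kap h with h | h
  · exact Or.inl h
  · exact Or.inr (h.trans (qryb_succ j))

theorem MM_arc (hc : fc T k c ∉ F) (hd : fc T k d ∉ F) (h1 : c < l₀) (h2 : l₀ ≤ d) {e : UE}
    (he : e ∈ MM (gT T) F (ed T k l₀)) : ∃ l, c < l ∧ l ≤ d ∧ e = ed T k l := by
  induction he with
  | refl => exact ⟨l₀, h1, h2, rfl⟩
  | tail hprev hs ih =>
    obtain ⟨l, h1, h2, rfl⟩ := ih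
    obtain ⟨f, hf, hm⟩ := hs
    obtain ⟨l, rfl⟩ : ∃ l', l = l' + 1 := ⟨l - 1, by omega⟩
    rcases side_ed hm.left with rfl | rfl
    · have h3 := Mt_unique (mt_fc (l + 1)) hm
      refine ⟨l + 1 + 1, by omega, ?_, h3.symm⟩
      rcases Nat.lt_or_ge (l + 1) d with h4 | h4
      · exact h4
      · have h5 : l + 1 = d := by omega
        rw [h5] at hf
        exact absurd hf hd
    · have h3 := Mt_unique (mt_fc l).symm hm
      refine ⟨l, ?_, by omega, h3.symm⟩
      rcases Nat.lt_or_ge c l with h4 | h4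
      · exact h4
      · have h5 : l = c := by omega
        rw [h5] at hf
        exact absurd hf hc

theorem arc_up (hF : ∀ l, c < l → l < d → fc T k l ∈ F) (h1 : c < l₀) (m : ℕ) (h2 : l₀ + m ≤ d) :
    ed T k (l₀ + m) ∈ MM (gT T) F (ed T k l₀) := by
  induction m with
  | zero => exact mem_MM_self
  | succ m ih => exact MM_step (hF (l₀ + m) (by omega) (by omega)) (mt_fc (l₀ + m)) (ih (by omega))

theorem arc_down (hF : ∀ l, c < l → l < d → fc T k l ∈ F) (h1 : c < l₀) (m : ℕ)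
    (h2 : l₀ + m ≤ d) : ed T k l₀ ∈ MM (gT T) F (ed T k (l₀ + m)) := by
  induction m generalizing l₀ with
  | zero => exact mem_MM_self
  | succ m ih =>
    have h3 := ih (l₀ := l₀ + 1) (by omega) (by omega)
    rw [show l₀ + 1 + m = l₀ + (m + 1) by omega] at h3
    exact MM_step (hF l₀ (by omega) (by omega)) (mt_fc l₀).symm h3

theorem SS_arc (hc : fc T k c ∉ F) (hd : fc T k d ∉ F) (h1 : c < l₀) (h2 : l₀ ≤ d) {f : ℤ × ℤ}
    (hf : f ∈ SS (gT T) F (ed T k l₀)) : ∃ l, c < l ∧ l < d ∧ f = fc T k l := by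
  obtain ⟨hfF, e, he, hs⟩ := hf
  obtain ⟨l, h3, h4, rfl⟩ := MM_arc hc hd h1 h2 he
  obtain ⟨l, rfl⟩ : ∃ l', l = l' + 1 := ⟨l - 1, by omega⟩
  rcases side_ed hs with rfl | rfl
  · refine ⟨l + 1, h3, ?_, rfl⟩
    rcases Nat.lt_or_ge (l + 1) d with h5 | h5
    · exact h5
    · have h6 : l + 1 = d := by omega
      rw [h6] at hfF
      exact absurd hfF hd
  · refine ⟨l, ?_, by omega, rfl⟩
    rcases Nat.lt_or_ge c l with h5 | h5
    · exact h5
    · have h6 : l = c := by omega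
      rw [h6] at hfF
      exact absurd hfF hc

/-- The two faces at a unit edge of the interface. -/
theorem faces_kap (k : Cor) :
    (kap k = ((phiE (qry k)).1, (phiE (qry k)).2, true) ∧
      phiE (qryb k) = ((phiE (qry k)).1 - 1, (phiE (qry k)).2)) ∨
    (kap k = ((phiE (qryb k)).1, (phiE (qryb k)).2, true) ∧
      phiE (qry k) = ((phiE (qryb k)).1 - 1, (phiE (qryb k)).2)) ∨
    (kap k = ((phiE (qry k)).1, (phiE (qry k)).2, false) ∧
      phiE (qryb k) = ((phiE (qry k)).1, (phiE (qry k)).2 - 1)) ∨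
    (kap k = ((phiE (qryb k)).1, (phiE (qryb k)).2, false) ∧
      phiE (qry k) = ((phiE (qryb k)).1, (phiE (qryb k)).2 - 1)) := by
  obtain ⟨x, y, _ | _, _ | _⟩ := k <;>
    simp [kap, qry, qryb, phiE] <;> omega

/-- A step of the interface: to the right, to the left, up or down. -/
theorem step_fc (j : ℕ) :
    (ed T k (j + 1) = ((fc T k (j + 1)).1, (fc T k (j + 1)).2, true) ∧
      fc T k (j + 1) = ((fc T k j).1 + 1, (fc T k j).2)) ∨
    (ed T k (j + 1) = ((fc T k j).1, (fc T k j).2, true) ∧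
      fc T k (j + 1) = ((fc T k j).1 - 1, (fc T k j).2)) ∨
    (ed T k (j + 1) = ((fc T k (j + 1)).1, (fc T k (j + 1)).2, false) ∧
      fc T k (j + 1) = ((fc T k j).1, (fc T k j).2 + 1)) ∨
    (ed T k (j + 1) = ((fc T k j).1, (fc T k j).2, false) ∧
      fc T k (j + 1) = ((fc T k j).1, (fc T k j).2 - 1)) := by
  have h := faces_kap ((nxt T)^[j + 1] k)
  rw [qryb_succ] at h
  change (ed T k (j + 1) = ((fc T k (j + 1)).1, (fc T k (j + 1)).2, true) ∧
      fc T k j = ((fc T k (j + 1)).1 - 1, (fc T k (j + 1)).2)) ∨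
    (ed T k (j + 1) = ((fc T k j).1, (fc T k j).2, true) ∧
      fc T k (j + 1) = ((fc T k j).1 - 1, (fc T k j).2)) ∨
    (ed T k (j + 1) = ((fc T k (j + 1)).1, (fc T k (j + 1)).2, false) ∧
      fc T k j = ((fc T k (j + 1)).1, (fc T k (j + 1)).2 - 1)) ∨
    (ed T k (j + 1) = ((fc T k j).1, (fc T k j).2, false) ∧
      fc T k (j + 1) = ((fc T k j).1, (fc T k j).2 - 1)) at h
  rcases h with ⟨h1, h2⟩ | ⟨h1, h2⟩ | ⟨h1, h2⟩ | ⟨h1, h2⟩
  · left
    refine ⟨h1, ?_⟩
    rw [h2]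
    ext <;> simp
  · right; left
    exact ⟨h1, h2⟩
  · right; right; left
    refine ⟨h1, ?_⟩
    rw [h2]
    ext <;> simp
  · right; right; right
    exact ⟨h1, h2⟩

/-- The last time before `m` at which `Q` fails. -/
theorem last_entry {Q : ℕ → Prop} {m : ℕ} (h0 : ¬ Q 0) (hm : Q m) :
    ∃ j, j < m ∧ ¬ Q j ∧ ∀ l, j < l → l ≤ m → Q l := by
  induction m with
  | zero => exact absurd hm h0
  | succ m ih =>
    by_cases h : Q m
    · obtain ⟨j, h1, h2, h3⟩ := ih h
      refine ⟨j, by omega, h2, fun l h4 h5 => ?_⟩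
      rcases Nat.lt_or_ge l (m + 1) with h6 | h6
      · exact h3 l h4 (by omega)
      · rw [show l = m + 1 by omega]; exact hm
    · refine ⟨m, by omega, h, fun l h4 h5 => ?_⟩
      rw [show l = m + 1 by omega]; exact hm

/-- The first time at which `Q` fails. -/
theorem first_exit {Q : ℕ → Prop} {b : ℕ} (h0 : Q 0) (hb : ¬ Q b) :
    ∃ m, ¬ Q (m + 1) ∧ ∀ l, l ≤ m → Q l := by
  induction b with
  | zero => exact absurd h0 hb
  | succ b ih =>
    by_cases h : Q b
    · by_cases hall : ∀ l, l ≤ b → Q l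
      · exact ⟨b, hb, hall⟩
      · push Not at hall
        classical
        obtain ⟨l, hl, hl'⟩ := hall
        have hex : ∃ l, ¬ Q l := ⟨l, hl'⟩
        have h1 := Nat.find_spec hex
        have h2 : Nat.find hex ≠ 0 := by
          intro h3
          rw [h3] at h1
          exact h1 h0
        obtain ⟨m, hm⟩ := Nat.exists_eq_succ_of_ne_zero h2
        refine ⟨m, by rw [← Nat.succ_eq_add_one, ← hm]; exact h1, fun l' hl'' => ?_⟩
        by_contra h4
        have := Nat.find_min' hex h4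
        omega
    · exact ih h

theorem gV_end_true {x y : ℤ} {j : ℕ} (h : ed T k j = (x, y, true)) :
    gV ((nxt T)^[j] k) = (x, y) ∨ gV ((nxt T)^[j] k) = (x, y + 1) := by
  have h1 := joins_kap ((nxt T)^[j] k)
  change Joins (ed T k j) _ _ at h1
  rw [h] at h1
  rcases h1 with ⟨h1, -⟩ | ⟨h1, -⟩
  · left; rw [h1]; rfl
  · right; rw [h1]; simp [ub]

theorem gV_end_false {x y : ℤ} {j : ℕ} (h : ed T k j = (x, y, false)) :
    gV ((nxt T)^[j] k) = (x, y) ∨ gV ((nxt T)^[j] k) = (x + 1, y) := by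
  have h1 := joins_kap ((nxt T)^[j] k)
  change Joins (ed T k j) _ _ at h1
  rw [h] at h1
  rcases h1 with ⟨h1, -⟩ | ⟨h1, -⟩
  · left; rw [h1]; rfl
  · right; rw [h1]; simp [ub]

/-- An interface from the box of radius `a` of `p` to distance `2 a` crosses one of the four
rectangles. -/
theorem cr_of_exit {p : ℤ × ℤ} {a : ℤ} (ha : 0 < a)
    (h0 : p.1 ≤ (fc T k 0).1 ∧ (fc T k 0).1 < p.1 + a ∧ p.2 ≤ (fc T k 0).2 ∧
      (fc T k 0).2 < p.2 + a) {b : ℕ}
    (hb : ¬ (p.1 - 2 * a ≤ (fc T k b).1 ∧ (fc T k b).1 < p.1 + 2 * a ∧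
      p.2 - 2 * a ≤ (fc T k b).2 ∧ (fc T k b).2 < p.2 + 2 * a)) :
    ∃ j, CrAny (gT T) p a (gV ((nxt T)^[j] k)) := by
  obtain ⟨m, hm, hall⟩ := first_exit (Q := fun l => p.1 - 2 * a ≤ (fc T k l).1 ∧
    (fc T k l).1 < p.1 + 2 * a ∧ p.2 - 2 * a ≤ (fc T k l).2 ∧ (fc T k l).2 < p.2 + 2 * a)
    (b := b) (by omega) hb
  have hm0 := hall m le_rfl
  rcases step_fc (T := T) (k := k) m with ⟨h1, h2⟩ | ⟨h1, h2⟩ | ⟨h1, h2⟩ | ⟨h1, h2⟩
  · -- to the right
    have e1 : (fc T k (m + 1)).1 = (fc T k m).1 + 1 := by rw [h2]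
    have e2 : (fc T k (m + 1)).2 = (fc T k m).2 := by rw [h2]
    have e3 : (fc T k (m + 1)).1 = p.1 + 2 * a := by omega
    obtain ⟨j, hj, hj1, hj2⟩ := last_entry (Q := fun l => p.1 + a ≤ (fc T k l).1) (m := m)
      (by omega) (by omega)
    have g1 := hj2 (j + 1) (by omega) (by omega)
    have g2 := hall (j + 1) (by omega)
    rcases step_fc (T := T) (k := k) j with ⟨f1, f2⟩ | ⟨f1, f2⟩ | ⟨f1, f2⟩ | ⟨f1, f2⟩
    · have k1 : (fc T k (j + 1)).1 = (fc T k j).1 + 1 := by rw [f2]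
      have k2 : (fc T k (j + 1)).1 = p.1 + a := by omega
      have hc : fc T k j ∉ (RF (p.1 + a) (p.1 + 2 * a) (p.2 - 3 * a) (p.2 + 3 * a) :
          Set (ℤ × ℤ)) := by
        rw [Finset.mem_coe, mem_RFi]; omega
      have hd : fc T k (m + 1) ∉ (RF (p.1 + a) (p.1 + 2 * a) (p.2 - 3 * a) (p.2 + 3 * a) :
          Set (ℤ × ℤ)) := by
        rw [Finset.mem_coe, mem_RFi]; omega
      have hF : ∀ l, j < l → l < m + 1 → fc T k l ∈
          (RF (p.1 + a) (p.1 + 2 * a) (p.2 - 3 * a) (p.2 + 3 * a) : Set (ℤ × ℤ)) := by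
        intro l hl hl'
        rw [Finset.mem_coe, mem_RFi]
        have := hj2 l hl (by omega)
        have := hall l (by omega)
        omega
      have e4 : ed T k (j + 1) = (p.1 + a, (fc T k (j + 1)).2, true) := by rw [f1, k2]
      have e5 : ed T k (m + 1) = (p.1 + 2 * a, (fc T k (m + 1)).2, true) := by rw [h1, e3]
      refine ⟨j + 1, Or.inl ⟨(fc T k (j + 1)).2, (fc T k (m + 1)).2, by omega, by omega, by omega,
        by omega, ?_, ?_, gV_end_true e4⟩⟩
      · rw [← e4, ← e5, show m + 1 = j + 1 + (m - j) by omega]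
        exact arc_up hF (by omega) (m - j) (by omega)
      · intro f hf
        rw [← e4] at hf
        obtain ⟨l, hl1, hl2, rfl⟩ := SS_arc hc hd (by omega) (by omega) hf
        have := hall l (by omega)
        omega
    all_goals
      exfalso
      have k1 := congrArg Prod.fst f2
      simp only at k1
      omega
  · -- to the left
    have e1 : (fc T k (m + 1)).1 = (fc T k m).1 - 1 := by rw [h2]
    have e2 : (fc T k (m + 1)).2 = (fc T k m).2 := by rw [h2]
    have e3 : (fc T k m).1 = p.1 - 2 * a := by omega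
    obtain ⟨j, hj, hj1, hj2⟩ := last_entry (Q := fun l => (fc T k l).1 < p.1 - a) (m := m)
      (by omega) (by omega)
    have g1 := hj2 (j + 1) (by omega) (by omega)
    have g2 := hall (j + 1) (by omega)
    rcases step_fc (T := T) (k := k) j with ⟨f1, f2⟩ | ⟨f1, f2⟩ | ⟨f1, f2⟩ | ⟨f1, f2⟩
    · exfalso
      have k1 := congrArg Prod.fst f2
      simp only at k1
      omega
    · have k1 : (fc T k (j + 1)).1 = (fc T k j).1 - 1 := by rw [f2]
      have k3 : (fc T k (j + 1)).2 = (fc T k j).2 := by rw [f2]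
      have k2 : (fc T k j).1 = p.1 - a := by omega
      have hc : fc T k j ∉ (RF (p.1 - 2 * a) (p.1 - a) (p.2 - 3 * a) (p.2 + 3 * a) :
          Set (ℤ × ℤ)) := by
        rw [Finset.mem_coe, mem_RFi]; omega
      have hd : fc T k (m + 1) ∉ (RF (p.1 - 2 * a) (p.1 - a) (p.2 - 3 * a) (p.2 + 3 * a) :
          Set (ℤ × ℤ)) := by
        rw [Finset.mem_coe, mem_RFi]; omega
      have hF : ∀ l, j < l → l < m + 1 → fc T k l ∈
          (RF (p.1 - 2 * a) (p.1 - a) (p.2 - 3 * a) (p.2 + 3 * a) : Set (ℤ × ℤ)) := by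
        intro l hl hl'
        rw [Finset.mem_coe, mem_RFi]
        have := hj2 l hl (by omega)
        have := hall l (by omega)
        omega
      have e4 : ed T k (j + 1) = (p.1 - a, (fc T k j).2, true) := by rw [f1, k2]
      have e5 : ed T k (m + 1) = (p.1 - 2 * a, (fc T k m).2, true) := by rw [h1, e3]
      refine ⟨m + 1, Or.inr (Or.inl ⟨(fc T k m).2, (fc T k j).2, by omega, by omega, by omega,
        by omega, ?_, ?_, gV_end_true e5⟩)⟩
      · rw [← e4, ← e5, show m + 1 = j + 1 + (m - j) by omega]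
        exact arc_down hF (by omega) (m - j) (by omega)
      · intro f hf
        rw [← e5] at hf
        obtain ⟨l, hl1, hl2, rfl⟩ := SS_arc hc hd (by omega) (by omega) hf
        have := hall l (by omega)
        omega
    all_goals
      exfalso
      have k1 := congrArg Prod.fst f2
      simp only at k1
      omega
  · -- up
    have e1 : (fc T k (m + 1)).2 = (fc T k m).2 + 1 := by rw [h2]
    have e2 : (fc T k (m + 1)).1 = (fc T k m).1 := by rw [h2]
    have e3 : (fc T k (m + 1)).2 = p.2 + 2 * a := by omega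
    obtain ⟨j, hj, hj1, hj2⟩ := last_entry (Q := fun l => p.2 + a ≤ (fc T k l).2) (m := m)
      (by omega) (by omega)
    have g1 := hj2 (j + 1) (by omega) (by omega)
    have g2 := hall (j + 1) (by omega)
    rcases step_fc (T := T) (k := k) j with ⟨f1, f2⟩ | ⟨f1, f2⟩ | ⟨f1, f2⟩ | ⟨f1, f2⟩
    · exfalso
      have k1 := congrArg Prod.snd f2
      simp only at k1
      omega
    · exfalso
      have k1 := congrArg Prod.snd f2
      simp only at k1
      omega
    · have k1 : (fc T k (j + 1)).2 = (fc T k j).2 + 1 := by rw [f2]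
      have k2 : (fc T k (j + 1)).2 = p.2 + a := by omega
      have hc : fc T k j ∉ (RF (p.1 - 3 * a) (p.1 + 3 * a) (p.2 + a) (p.2 + 2 * a) :
          Set (ℤ × ℤ)) := by
        rw [Finset.mem_coe, mem_RFi]; omega
      have hd : fc T k (m + 1) ∉ (RF (p.1 - 3 * a) (p.1 + 3 * a) (p.2 + a) (p.2 + 2 * a) :
          Set (ℤ × ℤ)) := by
        rw [Finset.mem_coe, mem_RFi]; omega
      have hF : ∀ l, j < l → l < m + 1 → fc T k l ∈
          (RF (p.1 - 3 * a) (p.1 + 3 * a) (p.2 + a) (p.2 + 2 * a) : Set (ℤ × ℤ)) := by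
        intro l hl hl'
        rw [Finset.mem_coe, mem_RFi]
        have := hj2 l hl (by omega)
        have := hall l (by omega)
        omega
      have e4 : ed T k (j + 1) = ((fc T k (j + 1)).1, p.2 + a, false) := by rw [f1, k2]
      have e5 : ed T k (m + 1) = ((fc T k (m + 1)).1, p.2 + 2 * a, false) := by rw [h1, e3]
      refine ⟨j + 1, Or.inr (Or.inr (Or.inl ⟨(fc T k (j + 1)).1, (fc T k (m + 1)).1, by omega,
        by omega, by omega, by omega, ?_, ?_, gV_end_false e4⟩))⟩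
      · rw [← e4, ← e5, show m + 1 = j + 1 + (m - j) by omega]
        exact arc_up hF (by omega) (m - j) (by omega)
      · intro f hf
        rw [← e4] at hf
        obtain ⟨l, hl1, hl2, rfl⟩ := SS_arc hc hd (by omega) (by omega) hf
        have := hall l (by omega)
        omega
    · exfalso
      have k1 := congrArg Prod.snd f2
      simp only at k1
      omega
  · -- down
    have e1 : (fc T k (m + 1)).2 = (fc T k m).2 - 1 := by rw [h2]
    have e2 : (fc T k (m + 1)).1 = (fc T k m).1 := by rw [h2]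
    have e3 : (fc T k m).2 = p.2 - 2 * a := by omega
    obtain ⟨j, hj, hj1, hj2⟩ := last_entry (Q := fun l => (fc T k l).2 < p.2 - a) (m := m)
      (by omega) (by omega)
    have g1 := hj2 (j + 1) (by omega) (by omega)
    have g2 := hall (j + 1) (by omega)
    rcases step_fc (T := T) (k := k) j with ⟨f1, f2⟩ | ⟨f1, f2⟩ | ⟨f1, f2⟩ | ⟨f1, f2⟩
    · exfalso
      have k1 := congrArg Prod.snd f2
      simp only at k1
      omega
    · exfalso
      have k1 := congrArg Prod.snd f2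
      simp only at k1
      omega
    · exfalso
      have k1 := congrArg Prod.snd f2
      simp only at k1
      omega
    · have k1 : (fc T k (j + 1)).2 = (fc T k j).2 - 1 := by rw [f2]
      have k3 : (fc T k (j + 1)).1 = (fc T k j).1 := by rw [f2]
      have k2 : (fc T k j).2 = p.2 - a := by omega
      have hc : fc T k j ∉ (RF (p.1 - 3 * a) (p.1 + 3 * a) (p.2 - 2 * a) (p.2 - a) :
          Set (ℤ × ℤ)) := by
        rw [Finset.mem_coe, mem_RFi]; omega
      have hd : fc T k (m + 1) ∉ (RF (p.1 - 3 * a) (p.1 + 3 * a) (p.2 - 2 * a) (p.2 - a) :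
          Set (ℤ × ℤ)) := by
        rw [Finset.mem_coe, mem_RFi]; omega
      have hF : ∀ l, j < l → l < m + 1 → fc T k l ∈
          (RF (p.1 - 3 * a) (p.1 + 3 * a) (p.2 - 2 * a) (p.2 - a) : Set (ℤ × ℤ)) := by
        intro l hl hl'
        rw [Finset.mem_coe, mem_RFi]
        have := hj2 l hl (by omega)
        have := hall l (by omega)
        omega
      have e4 : ed T k (j + 1) = ((fc T k j).1, p.2 - a, false) := by rw [f1, k2]
      have e5 : ed T k (m + 1) = ((fc T k m).1, p.2 - 2 * a, false) := by rw [h1, e3]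
      refine ⟨m + 1, Or.inr (Or.inr (Or.inr ⟨(fc T k m).1, (fc T k j).1, by omega,
        by omega, by omega, by omega, ?_, ?_, gV_end_false e5⟩))⟩
      · rw [← e4, ← e5, show m + 1 = j + 1 + (m - j) by omega]
        exact arc_down hF (by omega) (m - j) (by omega)
      · intro f hf
        rw [← e5] at hf
        obtain ⟨l, hl1, hl2, rfl⟩ := SS_arc hc hd (by omega) (by omega) hf
        have := hall l (by omega)
        omega

theorem fc_near (k : Cor) : (gV k).1 - 1 ≤ (phiE (qry k)).1 ∧ (phiE (qry k)).1 ≤ (gV k).1 ∧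
    (gV k).2 - 1 ≤ (phiE (qry k)).2 ∧ (phiE (qry k)).2 ≤ (gV k).2 := by
  obtain ⟨x, y, _ | _, _ | _⟩ := k <;>
    simp only [gV, qry, phiE, phiV, vtx] <;> simp <;> omega

theorem gB_near (k : Cor) : (gB k).1 ≤ (gV k).1 ∧ (gV k).1 ≤ (gB k).1 + 1 ∧ (gB k).2 ≤ (gV k).2 ∧
    (gV k).2 ≤ (gB k).2 + 1 := by
  rcases PercX60.g_cases k with ⟨h1, h2⟩ | ⟨h1, h2⟩ | ⟨h1, h2⟩ | ⟨h1, h2⟩
  · rw [h1]; omega
  · rw [h2]; simp only; omega
  · rw [h1]; omega
  · rw [h2]; simp only; omega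

theorem vtx_mem_iterate {T : Finset Edg} {v : ℤ × ℤ} {k : Cor} (hk : k ∈ PercO.Oc (T : Set Ed) v)
    (j : ℕ) : (nxt (T : Set Ed))^[j] k ∈ PercO.Oc (T : Set Ed) v := by
  induction j with
  | zero => exact hk
  | succ j ih =>
    rw [Function.iterate_succ_apply']
    exact PercO.nxt_mem_Oc ih

/-- A wide cluster outside of the events of the layers has a crossing of a rectangle of the grid. -/
theorem cr_of_large {n : ℕ} {T : Finset Edg} (hT : T ⊆ boxE n) {v : ℤ × ℤ} (hv : v ∈ Box n)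
    {a w E : ℤ} (ha : 0 < a) (hw : 4 * a + 2 ≤ w) (hE : 6 * a + 3 ≤ E) {D : ℝ} (hD0 : 0 < D)
    (hD : D ≤ Metric.diam (clS T v)) (hE2 : (E : ℝ) ≤ D / 2)
    (hX : (T : Set Ed) ∉ LayX n w E) (hY : (T : Set Ed) ∉ LayY n w E) :
    ∃ u ∈ clV T v, ∃ i j : ℤ, RFb (a * i, a * j) (3 * a) ⊆ Sn n ∧
      CrAny (gT (T : Set Ed)) (a * i, a * j) a (phiV u) := by
  obtain ⟨k, hk, hkl, k', hk', hkk⟩ := PercW.exists_inner_corner hT hv hD0 hD hE2 hX hY
  obtain ⟨b, hb⟩ := PercO.outer_orbit (PercO.boxE_sub hT) hk hk'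
  have hbox : vtx k ∈ Box n := by
    refine BoxAux.clV_subset_box hT hv ?_
    exact (PercO.mem_Oc.1 hk).1
  have hbox' := DictB.mem_Box.1 hbox
  rw [mem_Lay, not_and_not_right] at hkl
  have hdeep := hkl (by omega)
  have h1 := fc_near k
  have h1' := fc_near k'
  have h2 := gB_near k
  have h3 : (gV k).1 = (vtx k).1 + (vtx k).2 ∧ (gV k).2 = (vtx k).1 - (vtx k).2 := ⟨rfl, rfl⟩
  have h3' : (gV k').1 = (vtx k').1 + (vtx k').2 ∧ (gV k').2 = (vtx k').1 - (vtx k').2 :=
    ⟨rfl, rfl⟩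
  have hm1 := Int.mul_ediv_self_le (x := (phiE (qry k)).1) ha.ne'
  have hm2 := Int.lt_mul_ediv_self_add (x := (phiE (qry k)).1) ha
  have hm3 := Int.mul_ediv_self_le (x := (phiE (qry k)).2) ha.ne'
  have hm4 := Int.lt_mul_ediv_self_add (x := (phiE (qry k)).2) ha
  set i : ℤ := (phiE (qry k)).1 / a with hi
  set j : ℤ := (phiE (qry k)).2 / a with hj
  clear_value i j
  have hsub : RFb (a * i, a * j) (3 * a) ⊆ Sn n := by
    have hR : (w - 1) + 1 ≤ dB n (vtx k) := by
      unfold dB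
      simp only [le_min_iff]
      omega
    refine subset_trans ?_ (PercX60.ball_sub_Sn hR)
    intro f hf
    rw [mem_RFb] at hf
    rw [mem_RFi]
    simp only at hf
    generalize a * i = P at *
    generalize a * j = Q at *
    omega
  have h0 : (a * i, a * j).1 ≤ (fc (T : Set Ed) k 0).1 ∧
      (fc (T : Set Ed) k 0).1 < (a * i, a * j).1 + a ∧
      (a * i, a * j).2 ≤ (fc (T : Set Ed) k 0).2 ∧
      (fc (T : Set Ed) k 0).2 < (a * i, a * j).2 + a := by
    unfold fc
    simp only [Function.iterate_zero, id_eq]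
    exact ⟨hm1, hm2, hm3, hm4⟩
  have hexit : ¬ ((a * i, a * j).1 - 2 * a ≤ (fc (T : Set Ed) k b).1 ∧
      (fc (T : Set Ed) k b).1 < (a * i, a * j).1 + 2 * a ∧
      (a * i, a * j).2 - 2 * a ≤ (fc (T : Set Ed) k b).2 ∧
      (fc (T : Set Ed) k b).2 < (a * i, a * j).2 + 2 * a) := by
    unfold fc
    rw [hb]
    simp only
    generalize a * i = P at *
    generalize a * j = Q at *
    intro hcon
    have e1 : |(vtx k').1 - (vtx k).1| ≤ 3 * a + 1 := by
      rw [abs_le]; omega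
    have e2 : |(vtx k').2 - (vtx k).2| ≤ 3 * a + 1 := by
      rw [abs_le]; omega
    have e3 := max_le e1 e2
    omega
  obtain ⟨l, hl⟩ := cr_of_exit ha h0 hexit
  refine ⟨vtx ((nxt (T : Set Ed))^[l] k), ?_, i, j, hsub, hl⟩
  exact (PercO.mem_Oc.1 (vtx_mem_iterate hk l)).1

end BubbleC

/-- With high probability every large cluster has a strand which crosses one of the four rectangles
around a point of the grid, inside the box. -/
theorem bubbleC {δ ε : ℝ} (hδ : 0 < δ) (hε : 0 < ε) : ∃ K₀ : ℕ, ∀ K, K₀ ≤ K → ∃ N : ℕ,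
    ∀ n, N ≤ n → prB n {T | ∃ v ∈ Box n, δ * n ≤ Metric.diam (clS T v) ∧
      ∀ u ∈ clV T v, ∀ i j : ℤ,
        RFb (((n / K : ℕ) : ℤ) * i, ((n / K : ℕ) : ℤ) * j) (3 * ((n / K : ℕ) : ℤ)) ⊆ Sn n →
        ¬ CrAny (gT (T : Set Ed)) (((n / K : ℕ) : ℤ) * i, ((n / K : ℕ) : ℤ) * j)
          ((n / K : ℕ) : ℤ) (phiV u)} ≤ ε := by
  obtain ⟨κ, hκ, hlay⟩ := lay_small (δ / 4) ε (by positivity) hε
  rw [eventually_atTop] at hlay
  obtain ⟨N₀, hN₀⟩ := hlay
  obtain ⟨K₁, hK₁⟩ := exists_nat_gt (max (8 / κ) (24 / δ))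
  refine ⟨K₁ + 1, fun K hK => ?_⟩
  obtain ⟨N₁, hN₁⟩ := exists_nat_gt (max (4 / κ) (16 / δ))
  refine ⟨max N₀ (max N₁ K), fun n hn => ?_⟩
  have hn0 : N₀ ≤ n := (le_max_left _ _).trans hn
  have hn1 : N₁ ≤ n := ((le_max_left _ _).trans (le_max_right _ _)).trans hn
  have hn2 : K ≤ n := ((le_max_right _ _).trans (le_max_right _ _)).trans hn
  have hKpos : 0 < K := by omega
  have hKr : max (8 / κ) (24 / δ) < K := hK₁.trans_le (by exact_mod_cast (by omega : K₁ ≤ K))
  have hnr : max (4 / κ) (16 / δ) < n := hN₁.trans_le (by exact_mod_cast hn1)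
  have hK1 : 8 / κ < K := (le_max_left _ _).trans_lt hKr
  have hK2 : 24 / δ < K := (le_max_right _ _).trans_lt hKr
  have hn3 : 4 / κ < n := (le_max_left _ _).trans_lt hnr
  have hn4 : 16 / δ < n := (le_max_right _ _).trans_lt hnr
  rw [div_lt_iff₀ hκ] at hK1 hn3
  rw [div_lt_iff₀ hδ] at hK2 hn4
  have hKR : (0 : ℝ) < K := by exact_mod_cast hKpos
  have hnR : (0 : ℝ) < n := by
    have : 0 < n := by omega
    exact_mod_cast this
  have ha0 : 0 < n / K := Nat.div_pos hn2 hKpos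
  have haR : ((n / K : ℕ) : ℝ) ≤ n / K := Nat.cast_div_le
  have haK : ((n / K : ℕ) : ℝ) * K ≤ n := by
    rw [le_div_iff₀ hKR] at haR
    exact haR
  set a : ℕ := n / K with ha
  clear_value a
  set E : ℤ := ⌊δ * n / 2⌋ with hE
  have hE1 : (E : ℝ) ≤ δ * n / 2 := Int.floor_le _
  have hE2 : δ * n / 2 < E + 1 := Int.lt_floor_add_one _
  clear_value E
  have ha8 : (a : ℝ) * 8 ≤ κ * n := by
    have h1 : (a : ℝ) * 8 ≤ a * (K * κ) := by gcongr
    nlinarith
  have ha24 : (a : ℝ) * 24 ≤ δ * n := by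
    have h1 : (a : ℝ) * 24 ≤ a * (K * δ) := by gcongr
    nlinarith
  have hwr : ((4 * (a : ℤ) + 2 : ℤ) : ℝ) ≤ κ * n := by
    push_cast
    linarith
  have hEr : δ / 4 * n ≤ (E : ℝ) := by linarith
  have hE6 : 6 * (a : ℤ) + 3 ≤ E := by
    have h1 : ((6 * (a : ℤ) + 3 : ℤ) : ℝ) ≤ (E : ℝ) := by
      push_cast
      linarith
    exact_mod_cast h1
  refine (Pool.Agent.Perc.PercD.prB_mono fun T hT hmem => ?_).trans (hN₀ n hn0 (4 * (a : ℤ) + 2) E hwr hEr)
  obtain ⟨v, hv, hd, hno⟩ := hmem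
  by_contra hcon
  change ¬ ((T : Set Ed) ∈ LayX n (4 * (a : ℤ) + 2) E ∨
    (T : Set Ed) ∈ LayY n (4 * (a : ℤ) + 2) E) at hcon
  rw [not_or] at hcon
  obtain ⟨u, hu, i, j, h1, h2⟩ := BubbleC.cr_of_large hT hv (a := (a : ℤ)) (by exact_mod_cast ha0)
    le_rfl hE6 (by positivity) hd (by linarith) hcon.1 hcon.2
  exact hno u hu i j h1 h2

end Pool.Agent.SixB
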