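import Pool.Agent.Lib.SixB.S8BubbleS
import Pool.Agent.Lib.SixB.S8Fresh
import Pool.Agent.Lib.SixB.S3Cross
import Pool.Agent.Lib.SixB.S8BubbleC

/-!
# Step 8, bubbles (N4): probability

`pr_bubH`, `pr_bubV`: outside an event of probability `C θ ^ n` every strand which crosses a rectangle in the
short direction away from its other sides encloses, with the cluster of either end of its first unit edge, a
box of faces of side `2 m`; `4 ^ n m` is the size of the rectangle.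
-/

set_option autoImplicit false

namespace Pool.Agent.SixB

open Finset Pool.Agent.Perc Pool.Agent.PercD Pool.Agent.PercN Pool.Agent.Perc6

/-- The cluster of `u` encloses a box of side `2 m` in the rectangle. -/
def Bub (ω : Cfg) (x₀ x₁ y₀ y₁ m : ℤ) (u : ℤ × ℤ) : Prop :=
  ∃ a b : ℤ, x₀ ≤ a ∧ a + 2 * m ≤ x₁ ∧ y₀ ≤ b ∧ b + 2 * m ≤ y₁ ∧
    EnclV ω x₀ x₁ y₀ y₁ (RF a (a + 2 * m) b (b + 2 * m) : Set (ℤ × ℤ)) u

/-! ### The number of crossing strands -/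

theorem sum_LT (a : ℕ) : ∃ C : ℝ, 0 < C ∧ ∀ (x₀ x₁ y₀ y₁ : ℤ) (W : Finset (ℤ × ℤ)), x₀ < x₁ →
    y₁ - y₀ ≤ a * (x₁ - x₀) → RF x₀ x₁ y₀ y₁ ⊆ W →
    ∑ h ∈ Ico y₀ y₁, pr W {ω | h ∈ LT ω x₀ x₁ y₀ y₁} ≤ C := by
  classical
  obtain ⟨C, hC, H⟩ := LT_moment a (lam := 2) (by norm_num)
  refine ⟨C, hC, fun x₀ x₁ y₀ y₁ W h01 hasp hW => le_trans ?_ (H x₀ x₁ y₀ y₁ W h01 hasp hW)⟩
  simp_rw [ProbA.pr_eq_sum]
  rw [← Finset.sum_div, Finset.sum_comm]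
  refine div_le_div_of_nonneg_right (Finset.sum_le_sum fun T _ => ?_) (by positivity)
  have h1 : ∑ h ∈ Ico y₀ y₁, (if cfg T ∈ {ω : Cfg | h ∈ LT ω x₀ x₁ y₀ y₁} then (1 : ℝ) else 0) ≤
      ((LT (cfg T) x₀ x₁ y₀ y₁).card : ℝ) := by
    rw [Finset.sum_boole]
    have : ((Ico y₀ y₁).filter fun h => cfg T ∈ {ω : Cfg | h ∈ LT ω x₀ x₁ y₀ y₁}) ⊆
        LT (cfg T) x₀ x₁ y₀ y₁ := by
      intro h hh
      exact (mem_filter.1 hh).2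
    exact_mod_cast card_le_card this
  refine le_trans (le_of_eq ?_) (h1.trans ?_)
  · congr!
  · have h2 := (LT (cfg T) x₀ x₁ y₀ y₁).card.lt_two_pow_self
    exact_mod_cast h2.le

/-! ### One strand -/

theorem pr_side : ∃ θ : ℝ, 0 < θ ∧ θ < 1 ∧ ∀ (W : Finset (ℤ × ℤ)) (F : Set (ℤ × ℤ)) (e : UE)
    (A X : Set Cfg) (col m : ℤ) (z : Set (ℤ × ℤ) → ℤ × ℤ) (n : ℕ), 0 < m →
    (∀ ω ∈ A, ∀ ω' : Cfg, (∀ f ∈ SS ω F e, ω f = ω' f) → ω' ∈ A) →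
    (∀ ω ∈ A, ω ∈ X →
      ω ∈ FArm col ((W : Set (ℤ × ℤ)) \ SS ω F e) (z (SS ω F e)) m (4 ^ n * m)) →
    pr W (A ∩ X) ≤ θ ^ n * pr W A := by
  obtain ⟨θ, h0, h1, h⟩ := pr_fArm_stop
  refine ⟨θ, h0, h1, ?_⟩
  intro W F e A X col m z n hm hA hX
  refine le_trans (pr_mono _ ?_) (h W (fun ω => SS ω F e) (fun ω ω' hω => SS_congr hω) A hA
    (fun _ => col) (fun _ => m) (fun ω => z (SS ω F e)) n (fun _ _ => hm) ?_)
  · rintro ω ⟨h2, h3⟩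
    exact ⟨h2, hX ω h2 h3⟩
  · intro ω _ ω' hω
    have h4 : SS ω' F e = SS ω F e := SS_congr hω
    refine ⟨rfl, rfl, ?_⟩
    simp only [h4]

/-! ### Extreme visited faces -/

open Classical in
/-- The height of the highest visited face. -/
noncomputable def topY (c m : ℤ) (S : Set (ℤ × ℤ)) : ℤ :=
  if h : ∃ y, BubTop S c m y then h.choose else 0

open Classical in
/-- The height of the lowest visited face. -/
noncomputable def botY (c m : ℤ) (S : Set (ℤ × ℤ)) : ℤ :=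
  if h : ∃ y, BubBot S c m y then h.choose else 0

open Classical in
/-- The column of the rightmost visited face. -/
noncomputable def rtX (c m : ℤ) (S : Set (ℤ × ℤ)) : ℤ :=
  if h : ∃ y, BubRt S c m y then h.choose else 0

open Classical in
/-- The column of the leftmost visited face. -/
noncomputable def lfX (c m : ℤ) (S : Set (ℤ × ℤ)) : ℤ :=
  if h : ∃ y, BubLf S c m y then h.choose else 0

variable {S : Set (ℤ × ℤ)} {c m b : ℤ}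

theorem topY_spec (h1 : ∃ f ∈ S, c - m ≤ f.1 ∧ f.1 < c + m) (h2 : ∀ f ∈ S, f.2 ≤ b) :
    BubTop S c m (topY c m S) := by
  have h : ∃ y, BubTop S c m y := by
    obtain ⟨y, hy, hy'⟩ := Int.exists_greatest_of_bdd
      (P := fun y => ∃ f ∈ S, c - m ≤ f.1 ∧ f.1 < c + m ∧ f.2 = y)
      ⟨b, by rintro y ⟨f, hf, -, -, rfl⟩; exact h2 f hf⟩
      (by obtain ⟨f, hf, h3, h4⟩ := h1; exact ⟨f.2, f, hf, h3, h4, rfl⟩)
    exact ⟨y, hy, fun f hf h3 h4 => hy' f.2 ⟨f, hf, h3, h4, rfl⟩⟩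
  unfold topY
  rw [dif_pos h]
  exact h.choose_spec

theorem botY_spec (h1 : ∃ f ∈ S, c - m ≤ f.1 ∧ f.1 < c + m) (h2 : ∀ f ∈ S, b ≤ f.2) :
    BubBot S c m (botY c m S) := by
  have h : ∃ y, BubBot S c m y := by
    obtain ⟨y, hy, hy'⟩ := Int.exists_least_of_bdd
      (P := fun y => ∃ f ∈ S, c - m ≤ f.1 ∧ f.1 < c + m ∧ f.2 = y)
      ⟨b, by rintro y ⟨f, hf, -, -, rfl⟩; exact h2 f hf⟩
      (by obtain ⟨f, hf, h3, h4⟩ := h1; exact ⟨f.2, f, hf, h3, h4, rfl⟩)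
    exact ⟨y, hy, fun f hf h3 h4 => hy' f.2 ⟨f, hf, h3, h4, rfl⟩⟩
  unfold botY
  rw [dif_pos h]
  exact h.choose_spec

theorem rtX_spec (h1 : ∃ f ∈ S, c - m ≤ f.2 ∧ f.2 < c + m) (h2 : ∀ f ∈ S, f.1 ≤ b) :
    BubRt S c m (rtX c m S) := by
  have h : ∃ y, BubRt S c m y := by
    obtain ⟨y, hy, hy'⟩ := Int.exists_greatest_of_bdd
      (P := fun y => ∃ f ∈ S, c - m ≤ f.2 ∧ f.2 < c + m ∧ f.1 = y)
      ⟨b, by rintro y ⟨f, hf, -, -, rfl⟩; exact h2 f hf⟩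
      (by obtain ⟨f, hf, h3, h4⟩ := h1; exact ⟨f.1, f, hf, h3, h4, rfl⟩)
    exact ⟨y, hy, fun f hf h3 h4 => hy' f.1 ⟨f, hf, h3, h4, rfl⟩⟩
  unfold rtX
  rw [dif_pos h]
  exact h.choose_spec

theorem lfX_spec (h1 : ∃ f ∈ S, c - m ≤ f.2 ∧ f.2 < c + m) (h2 : ∀ f ∈ S, b ≤ f.1) :
    BubLf S c m (lfX c m S) := by
  have h : ∃ y, BubLf S c m y := by
    obtain ⟨y, hy, hy'⟩ := Int.exists_least_of_bdd
      (P := fun y => ∃ f ∈ S, c - m ≤ f.2 ∧ f.2 < c + m ∧ f.1 = y)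
      ⟨b, by rintro y ⟨f, hf, -, -, rfl⟩; exact h2 f hf⟩
      (by obtain ⟨f, hf, h3, h4⟩ := h1; exact ⟨f.1, f, hf, h3, h4, rfl⟩)
    exact ⟨y, hy, fun f hf h3 h4 => hy' f.1 ⟨f, hf, h3, h4, rfl⟩⟩
  unfold lfX
  rw [dif_pos h]
  exact h.choose_spec

variable {ω : Cfg} {x₀ x₁ y₀ y₁ h g d : ℤ}

/-- A crossing strand visits every vertical line. -/
theorem visit_col (hx : x₀ < c) (hx' : c ≤ x₁)
    (hg : ((x₁, g, true) : UE) ∈ MM ω (RF x₀ x₁ y₀ y₁ : Set (ℤ × ℤ)) (x₀, h, true)) :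
    ∃ f ∈ SS ω (RF x₀ x₁ y₀ y₁ : Set (ℤ × ℤ)) (x₀, h, true), f.1 + 1 = c := by
  obtain ⟨f, hf, h1, h2⟩ := line_step (c := c) mem_MM_self hg (by rw [ua_mk]; exact hx)
    (by rw [ua_mk]; exact hx')
  exact ⟨f, ⟨hf, _, h2, Or.inr (Or.inr (Or.inr rfl))⟩, h1⟩

/-! ### Horizontal crossings -/

/-- The event of the strand number `h`. -/
def BAH (x₀ x₁ y₀ y₁ d h : ℤ) : Set Cfg :=
  {ω | (y₀ ≤ h ∧ h < y₁) ∧ (∃ g, y₀ ≤ g ∧ g < y₁ ∧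
    ((x₁, g, true) : UE) ∈ MM ω (RF x₀ x₁ y₀ y₁) (x₀, h, true)) ∧
    ∀ f ∈ SS ω (RF x₀ x₁ y₀ y₁) (x₀, h, true), y₀ + d ≤ f.2 ∧ f.2 < y₁ - d}

theorem BAH_stop {ω' : Cfg} (hω : ω ∈ BAH x₀ x₁ y₀ y₁ d h)
    (hh : ∀ f ∈ SS ω (RF x₀ x₁ y₀ y₁) (x₀, h, true), ω f = ω' f) : ω' ∈ BAH x₀ x₁ y₀ y₁ d h := by
  unfold BAH at hω ⊢
  rw [Set.mem_ofPred_eq] at hω ⊢
  rw [MM_congr hh, SS_congr hh]
  exact hω

theorem BAH_sub : BAH x₀ x₁ y₀ y₁ d h ⊆ {ω | h ∈ LT ω x₀ x₁ y₀ y₁} := by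
  rintro ω ⟨h1, h2, -⟩
  exact mem_LT.2 ⟨h1, h2⟩

theorem pr_bubH : ∃ θ : ℝ, 0 < θ ∧ θ < 1 ∧ ∀ a : ℕ, ∃ C : ℝ, 0 < C ∧
    ∀ (x₀ x₁ y₀ y₁ d m : ℤ) (n : ℕ) (W : Finset (ℤ × ℤ)), 0 < m → 2 * (4 ^ n * m) ≤ x₁ - x₀ →
    4 ^ n * m + 2 * m ≤ d → y₁ - y₀ ≤ a * (x₁ - x₀) → RF x₀ x₁ y₀ y₁ ⊆ W →
    pr W {ω | ∃ u, CrH ω x₀ x₁ y₀ y₁ d u ∧ ¬ Bub ω x₀ x₁ y₀ y₁ m u} ≤ C * θ ^ n := by
  classical
  obtain ⟨θ, hθ0, hθ1, hθ⟩ := pr_side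
  refine ⟨θ, hθ0, hθ1, fun a => ?_⟩
  obtain ⟨C, hC, hL⟩ := sum_LT a
  refine ⟨2 * C, by positivity, ?_⟩
  intro x₀ x₁ y₀ y₁ d m n W hm hx hd hasp hW
  obtain ⟨R, hR⟩ : ∃ R : ℤ, R = 4 ^ n * m := ⟨_, rfl⟩
  have hmR : m ≤ R := by
    have : (1 : ℤ) ≤ 4 ^ n := one_le_pow₀ (by norm_num)
    rw [hR]
    nlinarith
  rw [← hR] at hx hd
  have hWs : (RF x₀ x₁ y₀ y₁ : Set (ℤ × ℤ)) ⊆ W := by exact_mod_cast hW
  have key : ∀ h : ℤ,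
      pr W (BAH x₀ x₁ y₀ y₁ d h ∩ {ω | ¬ Bub ω x₀ x₁ y₀ y₁ m (x₀, h + 1)}) ≤
        θ ^ n * pr W (BAH x₀ x₁ y₀ y₁ d h) ∧
      pr W (BAH x₀ x₁ y₀ y₁ d h ∩ {ω | ¬ Bub ω x₀ x₁ y₀ y₁ m (x₀, h)}) ≤
        θ ^ n * pr W (BAH x₀ x₁ y₀ y₁ d h) := by
    intro h
    constructor
    · refine hθ W (RF x₀ x₁ y₀ y₁ : Set (ℤ × ℤ)) (x₀, h, true) _ _
        (par ((x₀, h + 1) : ℤ × ℤ) + 1) m (fun S => (x₀ + R, topY (x₀ + R) m S + 1 + m)) n hm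
        (fun ω hω ω' h' => BAH_stop hω h') ?_
      rintro ω ⟨⟨hh0, hh1⟩, ⟨g, hg0, hg1, hg⟩, hcen⟩ hX
      obtain ⟨f₀, hf₀, hf₀'⟩ := visit_col (c := x₀ + R) (by omega) (by omega) hg
      have hy := topY_spec (c := x₀ + R) (m := m) (b := y₁) ⟨f₀, hf₀, by omega, by omega⟩
        fun f hf => by have := hcen f hf; omega
      generalize topY (x₀ + R) m (SS ω (RF x₀ x₁ y₀ y₁ : Set (ℤ × ℤ)) (x₀, h, true)) = y at hy ⊢
      have hyb : y₀ + d ≤ y ∧ y < y₁ - d := by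
        obtain ⟨⟨f, hf, -, -, rfl⟩, -⟩ := hy
        exact hcen f hf
      rcases sel_up (by omega) (by omega) (by omega) hh0 hh1 hg0 hg1 hg hy (by omega) with
        ⟨p, q, ⟨f, hf, hpf⟩, hq, hpar, hconn⟩ | henc
      · have hp := inR_of_cor hf hpf
        refine ⟨p, q, by simp only; omega, by simp only; omega, by simp only; omega,
          by simp only; omega, ?_, ?_, conn_mono (Set.sdiff_subset_sdiff_left hWs) hconn⟩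
        · unfold par at hpar ⊢
          simp only at hpar ⊢
          omega
        · unfold OnBd at hq
          rw [← hR]
          simp only
          omega
      · exfalso
        refine hX ⟨x₀ + R - m, y + 1, by omega, by omega, by omega, by omega, ?_⟩
        rw [show x₀ + R - m + 2 * m = x₀ + R + m by ring]
        exact henc
    · refine hθ W (RF x₀ x₁ y₀ y₁ : Set (ℤ × ℤ)) (x₀, h, true) _ _
        (par ((x₀, h) : ℤ × ℤ) + 1) m (fun S => (x₀ + R, botY (x₀ + R) m S - m)) n hm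
        (fun ω hω ω' h' => BAH_stop hω h') ?_
      rintro ω ⟨⟨hh0, hh1⟩, ⟨g, hg0, hg1, hg⟩, hcen⟩ hX
      obtain ⟨f₀, hf₀, hf₀'⟩ := visit_col (c := x₀ + R) (by omega) (by omega) hg
      have hy := botY_spec (c := x₀ + R) (m := m) (b := y₀) ⟨f₀, hf₀, by omega, by omega⟩
        fun f hf => by have := hcen f hf; omega
      generalize botY (x₀ + R) m (SS ω (RF x₀ x₁ y₀ y₁ : Set (ℤ × ℤ)) (x₀, h, true)) = y at hy ⊢
      have hyb : y₀ + d ≤ y ∧ y < y₁ - d := by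
        obtain ⟨⟨f, hf, -, -, rfl⟩, -⟩ := hy
        exact hcen f hf
      rcases sel_down (by omega) (by omega) (by omega) hh0 hh1 hg0 hg1 hg hy (by omega) with
        ⟨p, q, ⟨f, hf, hpf⟩, hq, hpar, hconn⟩ | henc
      · have hp := inR_of_cor hf hpf
        refine ⟨p, q, by simp only; omega, by simp only; omega, by simp only; omega,
          by simp only; omega, ?_, ?_, conn_mono (Set.sdiff_subset_sdiff_left hWs) hconn⟩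
        · unfold par at hpar ⊢
          simp only at hpar ⊢
          omega
        · unfold OnBd at hq
          rw [← hR]
          simp only
          omega
      · exfalso
        refine hX ⟨x₀ + R - m, y - 2 * m, by omega, by omega, by omega, by omega, ?_⟩
        rw [show x₀ + R - m + 2 * m = x₀ + R + m by ring, show y - 2 * m + 2 * m = y by ring]
        exact henc
  have hsub : {ω | ∃ u, CrH ω x₀ x₁ y₀ y₁ d u ∧ ¬ Bub ω x₀ x₁ y₀ y₁ m u} ⊆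
      ⋃ h ∈ Ico y₀ y₁, ((BAH x₀ x₁ y₀ y₁ d h ∩ {ω | ¬ Bub ω x₀ x₁ y₀ y₁ m (x₀, h + 1)}) ∪
        (BAH x₀ x₁ y₀ y₁ d h ∩ {ω | ¬ Bub ω x₀ x₁ y₀ y₁ m (x₀, h)})) := by
    rintro ω ⟨u, ⟨h, g, h1, h2, h3, h4, h5, h6, h7⟩, h8⟩
    rw [Set.mem_iUnion₂]
    refine ⟨h, mem_Ico.2 ⟨h1, h2⟩, ?_⟩
    rcases h7 with rfl | rfl
    · exact Or.inr ⟨⟨⟨h1, h2⟩, ⟨g, h3, h4, h5⟩, h6⟩, h8⟩
    · exact Or.inl ⟨⟨⟨h1, h2⟩, ⟨g, h3, h4, h5⟩, h6⟩, h8⟩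
  refine (pr_mono _ hsub).trans ((pr_biUnion_le W _ _).trans ?_)
  have hθn : 0 ≤ θ ^ n := by positivity
  calc _ ≤ ∑ h ∈ Ico y₀ y₁, 2 * θ ^ n * pr W {ω | h ∈ LT ω x₀ x₁ y₀ y₁} := by
        refine Finset.sum_le_sum fun h _ => (pr_union_le W _ _).trans ?_
        have k1 := (key h).1
        have k2 := (key h).2
        have k3 := mul_le_mul_of_nonneg_left
          (pr_mono W (BAH_sub (x₀ := x₀) (x₁ := x₁) (y₀ := y₀) (y₁ := y₁) (d := d) (h := h))) hθn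
        linarith
    _ = 2 * θ ^ n * ∑ h ∈ Ico y₀ y₁, pr W {ω | h ∈ LT ω x₀ x₁ y₀ y₁} := by
        rw [Finset.mul_sum]
    _ ≤ 2 * θ ^ n * C := mul_le_mul_of_nonneg_left (hL x₀ x₁ y₀ y₁ W (by omega) hasp hW)
        (by positivity)
    _ = 2 * C * θ ^ n := by ring

end Pool.Agent.SixB
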