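import Pool.Agent.Lib.SixB.S8BubbleA

/-!
# Step 8, bubbles (N4): the choice of the box next to a crossing strand

`sel_up`, `sel_down`: a strand crosses a rectangle from left to right at distance `d` from the other
sides. Above its highest (below its lowest) visited face in the middle columns there is a free box; the
cluster of the upper (lower) end of the first unit edge encloses it unless there is a fresh path of the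
other colour from the box to the boundary. `sel_right`, `sel_left`: the same for the strands which cross
in the vertical direction.
-/

set_option autoImplicit false

namespace Pool.Agent.SixB

open Finset Pool.Agent.Perc Pool.Agent.Perc6

variable {ω : Cfg} {F Z : Set (ℤ × ℤ)} {e a : UE} {f z w : ℤ × ℤ} {u v : ℤ × ℤ}
  {M : Set UE} {Φ : ℤ × ℤ → ZMod 2} {x₀ x₁ y₀ y₁ c m d h g y x : ℤ}

/-! ### Rectangles are connected -/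

theorem chn_step {S : Set (ℤ × ℤ)} {p q r : ℤ × ℤ} (h : Chn S p q) (h1 : Adj q r) (h2 : r ∈ S) :
    Chn S p r := ⟨h.1, h.2.tail ⟨h1, h2⟩⟩

theorem adj_symm' {p q : ℤ × ℤ} (h : Adj p q) : Adj q p := by
  unfold Adj at h ⊢
  omega

theorem chn_symm' {S : Set (ℤ × ℤ)} {p q : ℤ × ℤ} (h : Chn S p q) : Chn S q p := by
  obtain ⟨hp, hc⟩ := h
  have key : q ∈ S ∧ Chn S q p := by
    induction hc with
    | refl => exact ⟨hp, hp, Relation.ReflTransGen.refl⟩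
    | @tail b c _ hbc ih =>
      refine ⟨hbc.2, hbc.2, ?_⟩
      exact Relation.ReflTransGen.head ⟨adj_symm' hbc.1, ih.1⟩ ih.2.2
  exact key.2

theorem chn_trans' {S : Set (ℤ × ℤ)} {p q r : ℤ × ℤ} (h : Chn S p q) (h' : Chn S q r) : Chn S p r :=
  ⟨h.1, h.2.trans h'.2⟩

/-- A rectangle of faces is connected by sides. -/
theorem chn_RF {a b c' d' : ℤ} (hz : z ∈ (RF a b c' d' : Set (ℤ × ℤ)))
    (hf : f ∈ (RF a b c' d' : Set (ℤ × ℤ))) : Chn (RF a b c' d' : Set (ℤ × ℤ)) z f := by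
  -- to the lower left corner
  have key : ∀ f ∈ (RF a b c' d' : Set (ℤ × ℤ)), Chn (RF a b c' d' : Set (ℤ × ℤ)) (a, c') f := by
    rintro ⟨x, y⟩ hf
    rw [mem_RF'] at hf
    simp only at hf
    have h0 : ((a, c') : ℤ × ℤ) ∈ (RF a b c' d' : Set (ℤ × ℤ)) := by
      rw [mem_RF']; simp only; omega
    have h1 : ∀ k : ℕ, a + k < b → Chn (RF a b c' d' : Set (ℤ × ℤ)) (a, c') (a + k, c') := by
      intro k
      induction k with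
      | zero => intro _; simpa using ⟨h0, Relation.ReflTransGen.refl⟩
      | succ k ih =>
        intro hk
        push_cast at hk ⊢
        refine chn_step (ih (by omega)) (Or.inr ⟨rfl, Or.inr (by simp only; ring)⟩) ?_
        rw [mem_RF']; simp only; omega
    have h2 : ∀ k : ℕ, c' + k < d' → Chn (RF a b c' d' : Set (ℤ × ℤ)) (a, c') (x, c' + k) := by
      intro k
      induction k with
      | zero =>
        intro _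
        have := h1 (x - a).toNat (by rw [Int.toNat_of_nonneg (by omega)]; omega)
        rw [Int.toNat_of_nonneg (by omega)] at this
        simpa [show a + (x - a) = x by ring] using this
      | succ k ih =>
        intro hk
        push_cast at hk ⊢
        refine chn_step (ih (by omega)) (Or.inl ⟨rfl, Or.inr (by simp only; ring)⟩) ?_
        rw [mem_RF']; simp only; omega
    have := h2 (y - c').toNat (by rw [Int.toNat_of_nonneg (by omega)]; omega)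
    rw [Int.toNat_of_nonneg (by omega)] at this
    simpa [show c' + (y - c') = y by ring] using this
  exact chn_trans' (chn_symm' (key z hz)) (key f hf)

/-! ### The box next to a visited face -/

theorem bub_core (hx : x₀ < x₁) (hy : y₀ < y₁)
    (hP : IsPot (RF x₀ x₁ y₀ y₁ : Set (ℤ × ℤ)) (MM ω (RF x₀ x₁ y₀ y₁ : Set (ℤ × ℤ)) e) Φ)
    (he : Joins e u v) (hs : ∃ f ∈ (RF x₀ x₁ y₀ y₁ : Set (ℤ × ℤ)), IsSide f e)
    (hZ : Z ⊆ (RF x₀ x₁ y₀ y₁ : Set (ℤ × ℤ)))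
    (hZS : ∀ f ∈ Z, f ∉ SS ω (RF x₀ x₁ y₀ y₁ : Set (ℤ × ℤ)) e) (hzc : ∀ f ∈ Z, Chn Z z f)
    (hzZ : z ∈ Z) (hf : f ∈ SS ω (RF x₀ x₁ y₀ y₁ : Set (ℤ × ℤ)) e) (hfa : IsSide f a)
    (ha : IsSide z a) (hw : IsCor z w) (hwu : Φ w = Φ u) (hu : OnBd x₀ x₁ y₀ y₁ u) :
    (∃ p q, (∃ f ∈ Z, IsCor f p) ∧ OnBd x₀ x₁ y₀ y₁ q ∧ par p ≠ par u ∧
      Conn ω ((RF x₀ x₁ y₀ y₁ : Set (ℤ × ℤ)) \ SS ω (RF x₀ x₁ y₀ y₁ : Set (ℤ × ℤ)) e) p q) ∨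
    EnclV ω x₀ x₁ y₀ y₁ Z u := by
  obtain ⟨u', o, hj, hpu⟩ : ∃ u' o, Joins a u' o ∧ par u' = par u := by
    by_cases h : par (ua a) = par u
    · exact ⟨ua a, ub a, Or.inl ⟨rfl, rfl⟩, h⟩
    · refine ⟨ub a, ua a, Or.inr ⟨rfl, rfl⟩, ?_⟩
      have h1 := par_ub a
      have h2 := par_cases (ua a)
      have h3 := par_cases (ub a)
      have h4 := par_cases u
      omega
  have h1 : IsCor z u' := ha.cor_left hj
  have h2 : IsCor z o := ha.cor_left hj.symm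
  have h3 : Φ u' = Φ u := by
    rw [← hwu]
    exact hP.fresh (hZ hzZ) (hZS z hzZ) h1 hw
  have h4 : Φ o = Φ u := by
    rw [← hwu]
    exact hP.fresh (hZ hzZ) (hZS z hzZ) h2 hw
  have h5 := hP.ss_conn he hs hf (hfa.cor_left hj) hpu h3
  exact bubble_det hx hy hP he hs hZ hZS hzc hzZ ha hj h5 h4 hu Relation.ReflTransGen.refl

/-- The boundary edges of a crossing strand. -/
theorem bd_cross (hB : BdU F e) {t t' : UE} (ht : t ∈ MM ω F e) (ht' : t' ∈ MM ω F e)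
    (hb : BdU F t) (hb' : BdU F t') (h1 : t ≠ e) (h2 : t' ≠ e) : t' = t :=
  bdU_unique hB ht' ht hb' hb h2 h1

theorem bdU_of_bdE (hx : x₀ < x₁) (hy : y₀ < y₁) (h : BdE x₀ x₁ y₀ y₁ a) :
    BdU (RF x₀ x₁ y₀ y₁ : Set (ℤ × ℤ)) a := by
  obtain ⟨x, y, t⟩ := a
  unfold BdE at h
  cases t
  · simp only [Bool.false_eq_true, true_and, false_and, or_false] at h
    obtain ⟨h1, h2, rfl | rfl⟩ := h
    · exact ⟨⟨(x, y), by rw [mem_RF']; simp only; omega, Or.inl rfl⟩,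
        (x, y - 1), by rw [mem_RF']; simp only; omega,
        Or.inr (Or.inr (Or.inl (by unfold to'; simp)))⟩
    · exact ⟨⟨(x, y - 1), by rw [mem_RF']; simp only; omega,
        Or.inr (Or.inr (Or.inl (by unfold to'; simp)))⟩,
        (x, y), by rw [mem_RF']; simp only; omega, Or.inl rfl⟩
  · simp only [Bool.true_eq_false, false_and, true_and, false_or] at h
    obtain ⟨h1, h2, rfl | rfl⟩ := h
    · exact ⟨⟨(x, y), by rw [mem_RF']; simp only; omega, Or.inr (Or.inl rfl)⟩,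
        (x - 1, y), by rw [mem_RF']; simp only; omega,
        Or.inr (Or.inr (Or.inr (by unfold ri; simp)))⟩
    · exact ⟨⟨(x - 1, y), by rw [mem_RF']; simp only; omega,
        Or.inr (Or.inr (Or.inr (by unfold ri; simp)))⟩,
        (x, y), by rw [mem_RF']; simp only; omega, Or.inr (Or.inl rfl)⟩

/-! ### Horizontal crossings -/

/-- The highest visited face of the columns `[c - m, c + m)` is at height `y`. -/
def BubTop (S : Set (ℤ × ℤ)) (c m y : ℤ) : Prop :=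
  (∃ f ∈ S, c - m ≤ f.1 ∧ f.1 < c + m ∧ f.2 = y) ∧ ∀ f ∈ S, c - m ≤ f.1 → f.1 < c + m → f.2 ≤ y

/-- The lowest visited face. -/
def BubBot (S : Set (ℤ × ℤ)) (c m y : ℤ) : Prop :=
  (∃ f ∈ S, c - m ≤ f.1 ∧ f.1 < c + m ∧ f.2 = y) ∧ ∀ f ∈ S, c - m ≤ f.1 → f.1 < c + m → y ≤ f.2

/-- The rightmost visited face of the rows `[c - m, c + m)`. -/
def BubRt (S : Set (ℤ × ℤ)) (c m x : ℤ) : Prop :=
  (∃ f ∈ S, c - m ≤ f.2 ∧ f.2 < c + m ∧ f.1 = x) ∧ ∀ f ∈ S, c - m ≤ f.2 → f.2 < c + m → f.1 ≤ x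

/-- The leftmost visited face of the rows. -/
def BubLf (S : Set (ℤ × ℤ)) (c m x : ℤ) : Prop :=
  (∃ f ∈ S, c - m ≤ f.2 ∧ f.2 < c + m ∧ f.1 = x) ∧ ∀ f ∈ S, c - m ≤ f.2 → f.2 < c + m → x ≤ f.1

theorem sel_up (hx : x₀ < x₁) (hc0 : x₀ ≤ c - m) (hc1 : c + m ≤ x₁)
    (hh0 : y₀ ≤ h) (hh1 : h < y₁) (hg0 : y₀ ≤ g) (hg1 : g < y₁)
    (hg : ((x₁, g, true) : UE) ∈ MM ω (RF x₀ x₁ y₀ y₁ : Set (ℤ × ℤ)) (x₀, h, true))
    (hy : BubTop (SS ω (RF x₀ x₁ y₀ y₁ : Set (ℤ × ℤ)) (x₀, h, true)) c m y)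
    (hym : y + 1 + 2 * m ≤ y₁) :
    (∃ p q, (∃ f ∈ (RF (c - m) (c + m) (y + 1) (y + 1 + 2 * m) : Set (ℤ × ℤ)), IsCor f p) ∧
      OnBd x₀ x₁ y₀ y₁ q ∧ par p ≠ par ((x₀, h + 1) : ℤ × ℤ) ∧
      Conn ω ((RF x₀ x₁ y₀ y₁ : Set (ℤ × ℤ)) \
        SS ω (RF x₀ x₁ y₀ y₁ : Set (ℤ × ℤ)) (x₀, h, true)) p q) ∨
    EnclV ω x₀ x₁ y₀ y₁ (RF (c - m) (c + m) (y + 1) (y + 1 + 2 * m) : Set (ℤ × ℤ)) (x₀, h + 1) := by
  have hyy : y₀ < y₁ := by omega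
  obtain ⟨⟨f, hf, hf1, hf2, rfl⟩, hmax⟩ := hy
  obtain ⟨T, hT⟩ : ∃ T : Set (ℤ × ℤ), T = (RF x₀ x₁ y₀ y₁ : Set (ℤ × ℤ)) := ⟨_, rfl⟩
  have hfT := hf.1
  rw [mem_RF'] at hfT
  obtain ⟨Φ, hΦ⟩ := hasPot_RF x₀ x₁ y₀ y₁ (MM ω (RF x₀ x₁ y₀ y₁ : Set (ℤ × ℤ)) (x₀, h, true))
    fun f hf => evenAt_MM hf
  -- boundary edges of the strand
  have hb1 : BdU (RF x₀ x₁ y₀ y₁ : Set (ℤ × ℤ)) (x₀, h, true) :=
    bdU_of_bdE hx hyy (Or.inr ⟨rfl, hh0, hh1, Or.inl rfl⟩)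
  have hb2 : BdU (RF x₀ x₁ y₀ y₁ : Set (ℤ × ℤ)) (x₁, g, true) :=
    bdU_of_bdE hx hyy (Or.inr ⟨rfl, hg0, hg1, Or.inr rfl⟩)
  have hne : ((x₁, g, true) : UE) ≠ (x₀, h, true) := by
    intro h'
    rw [Prod.mk.injEq] at h'
    omega
  have hno : ∀ t : UE, BdE x₀ x₁ y₀ y₁ t → t ≠ (x₀, h, true) → t ≠ (x₁, g, true) →
      t ∉ MM ω (RF x₀ x₁ y₀ y₁ : Set (ℤ × ℤ)) (x₀, h, true) := by
    intro t h1 h2 h3 h4
    exact h3 (bdU_unique hb1 h4 hg (bdU_of_bdE hx hyy h1) hb2 h2 hne)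
  -- the potential
  have hmemT : ∀ x y, x₀ ≤ x → x < x₁ → y₀ ≤ y → y < y₁ →
      ((x, y) : ℤ × ℤ) ∈ (RF x₀ x₁ y₀ y₁ : Set (ℤ × ℤ)) := by
    intro x y h1 h2 h3 h4
    rw [mem_RF']
    exact ⟨h1, h2, h3, h4⟩
  have hfresh : ∀ j, f.2 < j → ((f.1, j) : ℤ × ℤ) ∉
      SS ω (RF x₀ x₁ y₀ y₁ : Set (ℤ × ℤ)) (x₀, h, true) := by
    intro j hj hS
    have := hmax _ hS hf1 hf2
    simp only at this
    omega
  have e1 : Φ (x₀, h + 1) = Φ (x₀, y₁) := by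
    refine pot_sgV hΦ (by omega) fun j h1 h2 => ⟨⟨(x₀, j), hmemT _ _ le_rfl hx (by omega) h2,
      Or.inr (Or.inl rfl)⟩, ?_⟩
    refine hno _ (Or.inr ⟨rfl, (by show y₀ ≤ j; omega), h2, Or.inl rfl⟩) ?_ ?_
    · intro h'
      rw [Prod.mk.injEq, Prod.mk.injEq] at h'
      omega
    · intro h'
      rw [Prod.mk.injEq] at h'
      omega
  have e2 : Φ (x₀, y₁) = Φ (f.1, y₁) := by
    refine pot_sgH hΦ (by omega) fun i h1 h2 => ⟨⟨(i, y₁ - 1), hmemT _ _ h1 (by omega) (by omega)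
      (by omega), Or.inr (Or.inr (Or.inl (by unfold to'; simp)))⟩, ?_⟩
    refine hno _ (Or.inl ⟨rfl, h1, (by show i < x₁; omega), Or.inr rfl⟩) ?_ ?_ <;>
    · intro h'
      simp only [Prod.mk.injEq, Bool.false_eq_true, and_false] at h'
  have e3 : Φ (f.1, f.2 + 1) = Φ (f.1, y₁) := by
    refine pot_sgV hΦ (by omega) fun j h1 h2 => ⟨⟨(f.1, j), hmemT _ _ (by omega) (by omega)
      (by omega) h2, Or.inr (Or.inl rfl)⟩, ?_⟩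
    intro hM
    exact hfresh j (by omega) ⟨hmemT _ _ (by omega) (by omega) (by omega) h2, _, hM,
      Or.inr (Or.inl rfl)⟩
  refine bub_core (z := (f.1, f.2 + 1)) (a := (f.1, f.2 + 1, false)) (w := (f.1, f.2 + 1)) hx hyy hΦ
    (v := (x₀, h)) (Or.inr ⟨by rw [ub_true], by rw [ua_mk]⟩)
    ⟨(x₀, h), hmemT _ _ le_rfl hx hh0 hh1, Or.inr (Or.inl rfl)⟩ ?_ ?_ ?_ ?_ hf
    (Or.inr (Or.inr (Or.inl rfl))) (Or.inl rfl) ⟨Or.inl rfl, Or.inl rfl⟩ (by rw [e3, e1, e2])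
    ⟨Or.inl rfl, le_rfl, hx.le, by simp only; omega, by simp only; omega⟩
  · intro k hk
    rw [mem_RF'] at hk ⊢
    omega
  · intro k hk hS
    rw [mem_RF'] at hk
    have := hmax k hS (by omega) (by omega)
    omega
  · intro k hk
    refine chn_RF ?_ hk
    rw [mem_RF']; simp only; omega
  · rw [mem_RF']; simp only; omega

theorem sel_down (hx : x₀ < x₁) (hc0 : x₀ ≤ c - m) (hc1 : c + m ≤ x₁)
    (hh0 : y₀ ≤ h) (hh1 : h < y₁) (hg0 : y₀ ≤ g) (hg1 : g < y₁)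
    (hg : ((x₁, g, true) : UE) ∈ MM ω (RF x₀ x₁ y₀ y₁ : Set (ℤ × ℤ)) (x₀, h, true))
    (hy : BubBot (SS ω (RF x₀ x₁ y₀ y₁ : Set (ℤ × ℤ)) (x₀, h, true)) c m y)
    (hym : y₀ ≤ y - 2 * m) :
    (∃ p q, (∃ f ∈ (RF (c - m) (c + m) (y - 2 * m) y : Set (ℤ × ℤ)), IsCor f p) ∧
      OnBd x₀ x₁ y₀ y₁ q ∧ par p ≠ par ((x₀, h) : ℤ × ℤ) ∧
      Conn ω ((RF x₀ x₁ y₀ y₁ : Set (ℤ × ℤ)) \
        SS ω (RF x₀ x₁ y₀ y₁ : Set (ℤ × ℤ)) (x₀, h, true)) p q) ∨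
    EnclV ω x₀ x₁ y₀ y₁ (RF (c - m) (c + m) (y - 2 * m) y : Set (ℤ × ℤ)) (x₀, h) := by
  have hyy : y₀ < y₁ := by omega
  obtain ⟨⟨f, hf, hf1, hf2, rfl⟩, hmax⟩ := hy
  have hfT := hf.1
  rw [mem_RF'] at hfT
  obtain ⟨Φ, hΦ⟩ := hasPot_RF x₀ x₁ y₀ y₁ (MM ω (RF x₀ x₁ y₀ y₁ : Set (ℤ × ℤ)) (x₀, h, true))
    fun f hf => evenAt_MM hf
  have hb1 : BdU (RF x₀ x₁ y₀ y₁ : Set (ℤ × ℤ)) (x₀, h, true) :=
    bdU_of_bdE hx hyy (Or.inr ⟨rfl, hh0, hh1, Or.inl rfl⟩)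
  have hb2 : BdU (RF x₀ x₁ y₀ y₁ : Set (ℤ × ℤ)) (x₁, g, true) :=
    bdU_of_bdE hx hyy (Or.inr ⟨rfl, hg0, hg1, Or.inr rfl⟩)
  have hne : ((x₁, g, true) : UE) ≠ (x₀, h, true) := by
    intro h'
    rw [Prod.mk.injEq] at h'
    omega
  have hno : ∀ t : UE, BdE x₀ x₁ y₀ y₁ t → t ≠ (x₀, h, true) → t ≠ (x₁, g, true) →
      t ∉ MM ω (RF x₀ x₁ y₀ y₁ : Set (ℤ × ℤ)) (x₀, h, true) := by
    intro t h1 h2 h3 h4
    exact h3 (bdU_unique hb1 h4 hg (bdU_of_bdE hx hyy h1) hb2 h2 hne)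
  have hmemT : ∀ x y, x₀ ≤ x → x < x₁ → y₀ ≤ y → y < y₁ →
      ((x, y) : ℤ × ℤ) ∈ (RF x₀ x₁ y₀ y₁ : Set (ℤ × ℤ)) := by
    intro x y h1 h2 h3 h4
    rw [mem_RF']
    exact ⟨h1, h2, h3, h4⟩
  have hfresh : ∀ j, j < f.2 → ((f.1, j) : ℤ × ℤ) ∉
      SS ω (RF x₀ x₁ y₀ y₁ : Set (ℤ × ℤ)) (x₀, h, true) := by
    intro j hj hS
    have := hmax _ hS hf1 hf2
    simp only at this
    omega
  have e1 : Φ (x₀, y₀) = Φ (x₀, h) := by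
    refine pot_sgV hΦ (by omega) fun j h1 h2 => ⟨⟨(x₀, j), hmemT _ _ le_rfl hx h1 (by omega),
      Or.inr (Or.inl rfl)⟩, ?_⟩
    refine hno _ (Or.inr ⟨rfl, h1, (by show j < y₁; omega), Or.inl rfl⟩) ?_ ?_
    · intro h'
      rw [Prod.mk.injEq, Prod.mk.injEq] at h'
      omega
    · intro h'
      rw [Prod.mk.injEq] at h'
      omega
  have e2 : Φ (x₀, y₀) = Φ (f.1, y₀) := by
    refine pot_sgH hΦ (by omega) fun i h1 h2 => ⟨⟨(i, y₀), hmemT _ _ h1 (by omega) le_rfl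
      hyy, Or.inl rfl⟩, ?_⟩
    refine hno _ (Or.inl ⟨rfl, h1, (by show i < x₁; omega), Or.inl rfl⟩) ?_ ?_ <;>
    · intro h'
      simp only [Prod.mk.injEq, Bool.false_eq_true, and_false] at h'
  have e3 : Φ (f.1, y₀) = Φ (f.1, f.2) := by
    refine pot_sgV hΦ (by omega) fun j h1 h2 => ⟨⟨(f.1, j), hmemT _ _ (by omega) (by omega)
      h1 (by omega), Or.inr (Or.inl rfl)⟩, ?_⟩
    intro hM
    exact hfresh j (by omega) ⟨hmemT _ _ (by omega) (by omega) h1 (by omega), _, hM,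
      Or.inr (Or.inl rfl)⟩
  refine bub_core (z := (f.1, f.2 - 1)) (a := (f.1, f.2, false)) (w := (f.1, f.2)) hx hyy hΦ
    (v := (x₀, h + 1)) (Or.inl ⟨by rw [ua_mk], by rw [ub_true]⟩)
    ⟨(x₀, h), hmemT _ _ le_rfl hx hh0 hh1, Or.inr (Or.inl rfl)⟩ ?_ ?_ ?_ ?_ hf
    (Or.inl rfl) (Or.inr (Or.inr (Or.inl (by unfold to'; simp))))
    ⟨Or.inl rfl, Or.inr (by simp)⟩ (by rw [← e3, ← e2, e1])
    ⟨Or.inl rfl, le_rfl, hx.le, hh0, hh1.le⟩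
  · intro k hk
    rw [mem_RF'] at hk ⊢
    omega
  · intro k hk hS
    rw [mem_RF'] at hk
    have := hmax k hS (by omega) (by omega)
    omega
  · intro k hk
    refine chn_RF ?_ hk
    rw [mem_RF'] at hk
    rw [mem_RF']; simp only; omega
  · rw [mem_RF']; simp only; omega

/-! ### Vertical crossings -/

theorem sel_right (hy : y₀ < y₁) (hc0 : y₀ ≤ c - m) (hc1 : c + m ≤ y₁)
    (hh0 : x₀ ≤ h) (hh1 : h < x₁) (hg0 : x₀ ≤ g) (hg1 : g < x₁)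
    (hg : ((g, y₁, false) : UE) ∈ MM ω (RF x₀ x₁ y₀ y₁ : Set (ℤ × ℤ)) (h, y₀, false))
    (hS : BubRt (SS ω (RF x₀ x₁ y₀ y₁ : Set (ℤ × ℤ)) (h, y₀, false)) c m x)
    (hxm : x + 1 + 2 * m ≤ x₁) :
    (∃ p q, (∃ f ∈ (RF (x + 1) (x + 1 + 2 * m) (c - m) (c + m) : Set (ℤ × ℤ)), IsCor f p) ∧
      OnBd x₀ x₁ y₀ y₁ q ∧ par p ≠ par ((h + 1, y₀) : ℤ × ℤ) ∧
      Conn ω ((RF x₀ x₁ y₀ y₁ : Set (ℤ × ℤ)) \
        SS ω (RF x₀ x₁ y₀ y₁ : Set (ℤ × ℤ)) (h, y₀, false)) p q) ∨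
    EnclV ω x₀ x₁ y₀ y₁ (RF (x + 1) (x + 1 + 2 * m) (c - m) (c + m) : Set (ℤ × ℤ)) (h + 1, y₀) := by
  have hx : x₀ < x₁ := by omega
  obtain ⟨⟨f, hf, hf1, hf2, rfl⟩, hmax⟩ := hS
  have hfT := hf.1
  rw [mem_RF'] at hfT
  obtain ⟨Φ, hΦ⟩ := hasPot_RF x₀ x₁ y₀ y₁ (MM ω (RF x₀ x₁ y₀ y₁ : Set (ℤ × ℤ)) (h, y₀, false))
    fun f hf => evenAt_MM hf
  have hb1 : BdU (RF x₀ x₁ y₀ y₁ : Set (ℤ × ℤ)) (h, y₀, false) :=
    bdU_of_bdE hx hy (Or.inl ⟨rfl, hh0, hh1, Or.inl rfl⟩)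
  have hb2 : BdU (RF x₀ x₁ y₀ y₁ : Set (ℤ × ℤ)) (g, y₁, false) :=
    bdU_of_bdE hx hy (Or.inl ⟨rfl, hg0, hg1, Or.inr rfl⟩)
  have hne : ((g, y₁, false) : UE) ≠ (h, y₀, false) := by
    intro h'
    rw [Prod.mk.injEq, Prod.mk.injEq] at h'
    omega
  have hno : ∀ t : UE, BdE x₀ x₁ y₀ y₁ t → t ≠ (h, y₀, false) → t ≠ (g, y₁, false) →
      t ∉ MM ω (RF x₀ x₁ y₀ y₁ : Set (ℤ × ℤ)) (h, y₀, false) := by
    intro t h1 h2 h3 h4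
    exact h3 (bdU_unique hb1 h4 hg (bdU_of_bdE hx hy h1) hb2 h2 hne)
  have hmemT : ∀ x y, x₀ ≤ x → x < x₁ → y₀ ≤ y → y < y₁ →
      ((x, y) : ℤ × ℤ) ∈ (RF x₀ x₁ y₀ y₁ : Set (ℤ × ℤ)) := by
    intro x y h1 h2 h3 h4
    rw [mem_RF']
    exact ⟨h1, h2, h3, h4⟩
  have hfresh : ∀ i, f.1 < i → ((i, f.2) : ℤ × ℤ) ∉
      SS ω (RF x₀ x₁ y₀ y₁ : Set (ℤ × ℤ)) (h, y₀, false) := by
    intro i hi hS
    have := hmax _ hS hf1 hf2
    simp only at this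
    omega
  have e1 : Φ (h + 1, y₀) = Φ (x₁, y₀) := by
    refine pot_sgH hΦ (by omega) fun i h1 h2 => ⟨⟨(i, y₀), hmemT _ _ (by omega) h2 le_rfl
      hy, Or.inl rfl⟩, ?_⟩
    refine hno _ (Or.inl ⟨rfl, (by show x₀ ≤ i; omega), h2, Or.inl rfl⟩) ?_ ?_
    · intro h'
      rw [Prod.mk.injEq] at h'
      omega
    · intro h'
      rw [Prod.mk.injEq, Prod.mk.injEq] at h'
      omega
  have e2 : Φ (x₁, y₀) = Φ (x₁, f.2) := by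
    refine pot_sgV hΦ (by omega) fun j h1 h2 => ⟨⟨(x₁ - 1, j), hmemT _ _ (by omega) (by omega) h1
      (by omega), Or.inr (Or.inr (Or.inr (by unfold ri; simp)))⟩, ?_⟩
    refine hno _ (Or.inr ⟨rfl, h1, (by show j < y₁; omega), Or.inr rfl⟩) ?_ ?_ <;>
    · intro h'
      simp only [Prod.mk.injEq, Bool.true_eq_false, and_false] at h'
  have e3 : Φ (f.1 + 1, f.2) = Φ (x₁, f.2) := by
    refine pot_sgH hΦ (by omega) fun i h1 h2 => ⟨⟨(i, f.2), hmemT _ _ (by omega) h2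
      (by omega) (by omega), Or.inl rfl⟩, ?_⟩
    intro hM
    exact hfresh i (by omega) ⟨hmemT _ _ (by omega) h2 (by omega) (by omega), _, hM,
      Or.inl rfl⟩
  refine bub_core (z := (f.1 + 1, f.2)) (a := (f.1 + 1, f.2, true)) (w := (f.1 + 1, f.2)) hx hy hΦ
    (v := (h, y₀)) (Or.inr ⟨by rw [ub_false], by rw [ua_mk]⟩)
    ⟨(h, y₀), hmemT _ _ hh0 hh1 le_rfl hy, Or.inl rfl⟩ ?_ ?_ ?_ ?_ hf
    (Or.inr (Or.inr (Or.inr rfl))) (Or.inr (Or.inl rfl)) ⟨Or.inl rfl, Or.inl rfl⟩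
    (by rw [e3, e1, e2])
    ⟨Or.inr (Or.inr (Or.inl rfl)), by simp only; omega, by simp only; omega, le_rfl, hy.le⟩
  · intro k hk
    rw [mem_RF'] at hk ⊢
    omega
  · intro k hk hS
    rw [mem_RF'] at hk
    have := hmax k hS (by omega) (by omega)
    omega
  · intro k hk
    refine chn_RF ?_ hk
    rw [mem_RF']; simp only; omega
  · rw [mem_RF']; simp only; omega

theorem sel_left (hy : y₀ < y₁) (hc0 : y₀ ≤ c - m) (hc1 : c + m ≤ y₁)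
    (hh0 : x₀ ≤ h) (hh1 : h < x₁) (hg0 : x₀ ≤ g) (hg1 : g < x₁)
    (hg : ((g, y₁, false) : UE) ∈ MM ω (RF x₀ x₁ y₀ y₁ : Set (ℤ × ℤ)) (h, y₀, false))
    (hS : BubLf (SS ω (RF x₀ x₁ y₀ y₁ : Set (ℤ × ℤ)) (h, y₀, false)) c m x)
    (hxm : x₀ ≤ x - 2 * m) :
    (∃ p q, (∃ f ∈ (RF (x - 2 * m) x (c - m) (c + m) : Set (ℤ × ℤ)), IsCor f p) ∧
      OnBd x₀ x₁ y₀ y₁ q ∧ par p ≠ par ((h, y₀) : ℤ × ℤ) ∧
      Conn ω ((RF x₀ x₁ y₀ y₁ : Set (ℤ × ℤ)) \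
        SS ω (RF x₀ x₁ y₀ y₁ : Set (ℤ × ℤ)) (h, y₀, false)) p q) ∨
    EnclV ω x₀ x₁ y₀ y₁ (RF (x - 2 * m) x (c - m) (c + m) : Set (ℤ × ℤ)) (h, y₀) := by
  have hx : x₀ < x₁ := by omega
  obtain ⟨⟨f, hf, hf1, hf2, rfl⟩, hmax⟩ := hS
  have hfT := hf.1
  rw [mem_RF'] at hfT
  obtain ⟨Φ, hΦ⟩ := hasPot_RF x₀ x₁ y₀ y₁ (MM ω (RF x₀ x₁ y₀ y₁ : Set (ℤ × ℤ)) (h, y₀, false))
    fun f hf => evenAt_MM hf
  have hb1 : BdU (RF x₀ x₁ y₀ y₁ : Set (ℤ × ℤ)) (h, y₀, false) :=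
    bdU_of_bdE hx hy (Or.inl ⟨rfl, hh0, hh1, Or.inl rfl⟩)
  have hb2 : BdU (RF x₀ x₁ y₀ y₁ : Set (ℤ × ℤ)) (g, y₁, false) :=
    bdU_of_bdE hx hy (Or.inl ⟨rfl, hg0, hg1, Or.inr rfl⟩)
  have hne : ((g, y₁, false) : UE) ≠ (h, y₀, false) := by
    intro h'
    rw [Prod.mk.injEq, Prod.mk.injEq] at h'
    omega
  have hno : ∀ t : UE, BdE x₀ x₁ y₀ y₁ t → t ≠ (h, y₀, false) → t ≠ (g, y₁, false) →
      t ∉ MM ω (RF x₀ x₁ y₀ y₁ : Set (ℤ × ℤ)) (h, y₀, false) := by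
    intro t h1 h2 h3 h4
    exact h3 (bdU_unique hb1 h4 hg (bdU_of_bdE hx hy h1) hb2 h2 hne)
  have hmemT : ∀ x y, x₀ ≤ x → x < x₁ → y₀ ≤ y → y < y₁ →
      ((x, y) : ℤ × ℤ) ∈ (RF x₀ x₁ y₀ y₁ : Set (ℤ × ℤ)) := by
    intro x y h1 h2 h3 h4
    rw [mem_RF']
    exact ⟨h1, h2, h3, h4⟩
  have hfresh : ∀ i, i < f.1 → ((i, f.2) : ℤ × ℤ) ∉
      SS ω (RF x₀ x₁ y₀ y₁ : Set (ℤ × ℤ)) (h, y₀, false) := by
    intro i hi hS
    have := hmax _ hS hf1 hf2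
    simp only at this
    omega
  have e1 : Φ (x₀, y₀) = Φ (h, y₀) := by
    refine pot_sgH hΦ (by omega) fun i h1 h2 => ⟨⟨(i, y₀), hmemT _ _ h1 (by omega) le_rfl
      hy, Or.inl rfl⟩, ?_⟩
    refine hno _ (Or.inl ⟨rfl, h1, (by show i < x₁; omega), Or.inl rfl⟩) ?_ ?_
    · intro h'
      rw [Prod.mk.injEq] at h'
      omega
    · intro h'
      rw [Prod.mk.injEq, Prod.mk.injEq] at h'
      omega
  have e2 : Φ (x₀, y₀) = Φ (x₀, f.2) := by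
    refine pot_sgV hΦ (by omega) fun j h1 h2 => ⟨⟨(x₀, j), hmemT _ _ le_rfl hx h1
      (by omega), Or.inr (Or.inl rfl)⟩, ?_⟩
    refine hno _ (Or.inr ⟨rfl, h1, (by show j < y₁; omega), Or.inl rfl⟩) ?_ ?_ <;>
    · intro h'
      simp only [Prod.mk.injEq, Bool.true_eq_false, and_false] at h'
  have e3 : Φ (x₀, f.2) = Φ (f.1, f.2) := by
    refine pot_sgH hΦ (by omega) fun i h1 h2 => ⟨⟨(i, f.2), hmemT _ _ h1 (by omega)
      (by omega) (by omega), Or.inl rfl⟩, ?_⟩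
    intro hM
    exact hfresh i (by omega) ⟨hmemT _ _ h1 (by omega) (by omega) (by omega), _, hM,
      Or.inl rfl⟩
  refine bub_core (z := (f.1 - 1, f.2)) (a := (f.1, f.2, true)) (w := (f.1, f.2)) hx hy hΦ
    (v := (h + 1, y₀)) (Or.inl ⟨by rw [ua_mk], by rw [ub_false]⟩)
    ⟨(h, y₀), hmemT _ _ hh0 hh1 le_rfl hy, Or.inl rfl⟩ ?_ ?_ ?_ ?_ hf
    (Or.inr (Or.inl rfl)) (Or.inr (Or.inr (Or.inr (by unfold ri; simp))))
    ⟨Or.inr (by simp), Or.inl rfl⟩ (by rw [← e3, ← e2, e1])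
    ⟨Or.inr (Or.inr (Or.inl rfl)), hh0, hh1.le, le_rfl, hy.le⟩
  · intro k hk
    rw [mem_RF'] at hk ⊢
    omega
  · intro k hk hS
    rw [mem_RF'] at hk
    have := hmax k hS (by omega) (by omega)
    omega
  · intro k hk
    refine chn_RF ?_ hk
    rw [mem_RF'] at hk
    rw [mem_RF']; simp only; omega
  · rw [mem_RF']; simp only; omega

end Pool.Agent.SixB
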