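import Pool.Agent.Lib.SixB.S8BubbleB

/-!
# Step 8, bubbles (N4): vertical crossings
-/

set_option autoImplicit false

namespace Pool.Agent.SixB

open Finset Pool.Agent.Perc Pool.Agent.PercD Pool.Agent.PercN Pool.Agent.Perc6

/-! ### Transposition -/

/-- The transposed configuration. -/
def trC (ω : Cfg) : Cfg := fun f => ω (f.2, f.1)

/-- The transposed unit edge. -/
def trE (a : UE) : UE := (a.2.1, a.1, !a.2.2)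

variable {ω : Cfg} {F F' : Set (ℤ × ℤ)} {e a a' : UE} {f : ℤ × ℤ}

theorem Mt_tr (h : Mt ω f a a') : Mt (trC ω) (f.2, f.1) (trE a) (trE a') := by
  have h1 : trE (bo f) = le' (f.2, f.1) := rfl
  have h2 : trE (le' f) = bo (f.2, f.1) := rfl
  have h3 : trE (to' f) = ri (f.2, f.1) := rfl
  have h4 : trE (ri f) = to' (f.2, f.1) := rfl
  have h5 : trC ω (f.2, f.1) = ω f := rfl
  unfold Mt at h ⊢
  rw [h5]
  rcases h with ⟨h0, (⟨rfl, rfl⟩ | ⟨rfl, rfl⟩ | ⟨rfl, rfl⟩ | ⟨rfl, rfl⟩)⟩ |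
    ⟨h0, (⟨rfl, rfl⟩ | ⟨rfl, rfl⟩ | ⟨rfl, rfl⟩ | ⟨rfl, rfl⟩)⟩
  · exact Or.inl ⟨h0, Or.inr (Or.inr (Or.inl ⟨h1, h4⟩))⟩
  · exact Or.inl ⟨h0, Or.inr (Or.inr (Or.inr ⟨h4, h1⟩))⟩
  · exact Or.inl ⟨h0, Or.inl ⟨h2, h3⟩⟩
  · exact Or.inl ⟨h0, Or.inr (Or.inl ⟨h3, h2⟩)⟩
  · exact Or.inr ⟨h0, Or.inr (Or.inl ⟨h1, h2⟩)⟩
  · exact Or.inr ⟨h0, Or.inl ⟨h2, h1⟩⟩
  · exact Or.inr ⟨h0, Or.inr (Or.inr (Or.inr ⟨h3, h4⟩))⟩
  · exact Or.inr ⟨h0, Or.inr (Or.inr (Or.inl ⟨h4, h3⟩))⟩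

theorem MM_tr (hF : ∀ f ∈ F, ((f.2, f.1) : ℤ × ℤ) ∈ F') (h : a ∈ MM ω F e) :
    trE a ∈ MM (trC ω) F' (trE e) := by
  induction h with
  | refl => exact mem_MM_self
  | tail _ hs ih =>
    obtain ⟨f, hf, hm⟩ := hs
    exact MM_step (hF f hf) (Mt_tr hm) ih

theorem sum_LV (a : ℕ) : ∃ C : ℝ, 0 < C ∧ ∀ (x₀ x₁ y₀ y₁ : ℤ) (W : Finset (ℤ × ℤ)), y₀ < y₁ →
    x₁ - x₀ ≤ a * (y₁ - y₀) → RF x₀ x₁ y₀ y₁ ⊆ W →
    ∑ h ∈ Ico x₀ x₁, pr W {ω | ∃ g, x₀ ≤ g ∧ g < x₁ ∧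
      ((g, y₁, false) : UE) ∈ MM ω (RF x₀ x₁ y₀ y₁) (h, y₀, false)} ≤ C := by
  obtain ⟨C, hC, H⟩ := sum_LT a
  refine ⟨C, hC, fun x₀ x₁ y₀ y₁ W h01 hasp hW => ?_⟩
  refine le_trans (Finset.sum_le_sum fun h hh => ?_)
    (H y₀ y₁ x₀ x₁ (RF y₀ y₁ x₀ x₁) h01 hasp (Finset.Subset.refl _))
  rw [mem_Ico] at hh
  have hd : DepOn (RF y₀ y₁ x₀ x₁ : Set (ℤ × ℤ)) {ω | h ∈ LT ω y₀ y₁ x₀ x₁} := by
    intro ω ω' h'
    rw [Set.mem_ofPred_eq, Set.mem_ofPred_eq, mem_LT, mem_LT, MM_congr' h']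
  rw [← pr_comp (f := fun x : ℤ × ℤ => (x.2, x.1)) (S' := W) ?_ ?_ hd]
  · refine pr_mono _ ?_
    rintro ω ⟨g, h1, h2, h3⟩
    rw [Set.mem_ofPred_eq]
    refine mem_LT.2 ⟨hh, g, h1, h2, ?_⟩
    refine MM_tr (F' := (RF y₀ y₁ x₀ x₁ : Set (ℤ × ℤ))) (fun f hf => ?_) h3
    rw [mem_RF'] at hf ⊢
    simp only
    omega
  · intro x _ y _ h
    simp only [Prod.mk.injEq] at h
    exact Prod.ext h.2 h.1
  · intro x hx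
    apply hW
    rw [PlanarB.mem_RF] at hx ⊢
    simp only
    omega

variable {x₀ x₁ y₀ y₁ h g d c m : ℤ}

/-- A crossing strand visits every horizontal line. -/
theorem visit_row (hy : y₀ < c) (hy' : c ≤ y₁)
    (hg : ((g, y₁, false) : UE) ∈ MM ω (RF x₀ x₁ y₀ y₁ : Set (ℤ × ℤ)) (h, y₀, false)) :
    ∃ f ∈ SS ω (RF x₀ x₁ y₀ y₁ : Set (ℤ × ℤ)) (h, y₀, false), f.2 + 1 = c := by
  have h1 := MM_tr (F' := (RF y₀ y₁ x₀ x₁ : Set (ℤ × ℤ))) (fun f hf => by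
    rw [mem_RF'] at hf ⊢
    simp only
    omega) hg
  obtain ⟨f, ⟨hf, a, ha, hs⟩, hf2⟩ := visit_col (ω := trC ω) (c := c) hy hy' h1
  have h2 := MM_tr (F' := (RF x₀ x₁ y₀ y₁ : Set (ℤ × ℤ))) (fun f hf => by
    rw [mem_RF'] at hf ⊢
    simp only
    omega) ha
  refine ⟨(f.2, f.1), ⟨?_, trE a, h2, ?_⟩, hf2⟩
  · rw [mem_RF'] at hf ⊢
    simp only
    omega
  · rcases hs with rfl | rfl | rfl | rfl
    · exact Or.inr (Or.inl rfl)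
    · exact Or.inl rfl
    · exact Or.inr (Or.inr (Or.inr rfl))
    · exact Or.inr (Or.inr (Or.inl rfl))

/-- The event of the strand number `h`. -/
def BAV (x₀ x₁ y₀ y₁ d h : ℤ) : Set Cfg :=
  {ω | (x₀ ≤ h ∧ h < x₁) ∧ (∃ g, x₀ ≤ g ∧ g < x₁ ∧
    ((g, y₁, false) : UE) ∈ MM ω (RF x₀ x₁ y₀ y₁) (h, y₀, false)) ∧
    ∀ f ∈ SS ω (RF x₀ x₁ y₀ y₁) (h, y₀, false), x₀ + d ≤ f.1 ∧ f.1 < x₁ - d}

theorem BAV_stop {ω' : Cfg} (hω : ω ∈ BAV x₀ x₁ y₀ y₁ d h)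
    (hh : ∀ f ∈ SS ω (RF x₀ x₁ y₀ y₁) (h, y₀, false), ω f = ω' f) :
    ω' ∈ BAV x₀ x₁ y₀ y₁ d h := by
  unfold BAV at hω ⊢
  rw [Set.mem_ofPred_eq] at hω ⊢
  rw [MM_congr hh, SS_congr hh]
  exact hω

theorem pr_bubV : ∃ θ : ℝ, 0 < θ ∧ θ < 1 ∧ ∀ a : ℕ, ∃ C : ℝ, 0 < C ∧
    ∀ (x₀ x₁ y₀ y₁ d m : ℤ) (n : ℕ) (W : Finset (ℤ × ℤ)), 0 < m → 2 * (4 ^ n * m) ≤ y₁ - y₀ →
    4 ^ n * m + 2 * m ≤ d → x₁ - x₀ ≤ a * (y₁ - y₀) → RF x₀ x₁ y₀ y₁ ⊆ W →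
    pr W {ω | ∃ u, CrV ω x₀ x₁ y₀ y₁ d u ∧ ¬ Bub ω x₀ x₁ y₀ y₁ m u} ≤ C * θ ^ n := by
  classical
  obtain ⟨θ, hθ0, hθ1, hθ⟩ := pr_side
  refine ⟨θ, hθ0, hθ1, fun a => ?_⟩
  obtain ⟨C, hC, hL⟩ := sum_LV a
  refine ⟨2 * C, by positivity, ?_⟩
  intro x₀ x₁ y₀ y₁ d m n W hm hy hd hasp hW
  obtain ⟨R, hR⟩ : ∃ R : ℤ, R = 4 ^ n * m := ⟨_, rfl⟩
  have hmR : m ≤ R := by
    have : (1 : ℤ) ≤ 4 ^ n := one_le_pow₀ (by norm_num)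
    rw [hR]
    nlinarith
  rw [← hR] at hy hd
  have hWs : (RF x₀ x₁ y₀ y₁ : Set (ℤ × ℤ)) ⊆ W := by exact_mod_cast hW
  have key : ∀ h : ℤ,
      pr W (BAV x₀ x₁ y₀ y₁ d h ∩ {ω | ¬ Bub ω x₀ x₁ y₀ y₁ m (h + 1, y₀)}) ≤
        θ ^ n * pr W (BAV x₀ x₁ y₀ y₁ d h) ∧
      pr W (BAV x₀ x₁ y₀ y₁ d h ∩ {ω | ¬ Bub ω x₀ x₁ y₀ y₁ m (h, y₀)}) ≤
        θ ^ n * pr W (BAV x₀ x₁ y₀ y₁ d h) := by
    intro h
    constructor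
    · refine hθ W (RF x₀ x₁ y₀ y₁ : Set (ℤ × ℤ)) (h, y₀, false) _ _
        (par ((h + 1, y₀) : ℤ × ℤ) + 1) m (fun S => (rtX (y₀ + R) m S + 1 + m, y₀ + R)) n hm
        (fun ω hω ω' h' => BAV_stop hω h') ?_
      rintro ω ⟨⟨hh0, hh1⟩, ⟨g, hg0, hg1, hg⟩, hcen⟩ hX
      obtain ⟨f₀, hf₀, hf₀'⟩ := visit_row (c := y₀ + R) (by omega) (by omega) hg
      have hx := rtX_spec (c := y₀ + R) (m := m) (b := x₁) ⟨f₀, hf₀, by omega, by omega⟩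
        fun f hf => by have := hcen f hf; omega
      generalize rtX (y₀ + R) m (SS ω (RF x₀ x₁ y₀ y₁ : Set (ℤ × ℤ)) (h, y₀, false)) = x at hx ⊢
      have hxb : x₀ + d ≤ x ∧ x < x₁ - d := by
        obtain ⟨⟨f, hf, -, -, rfl⟩, -⟩ := hx
        exact hcen f hf
      rcases sel_right (by omega) (by omega) (by omega) hh0 hh1 hg0 hg1 hg hx (by omega) with
        ⟨p, q, ⟨f, hf, hpf⟩, hq, hpar, hconn⟩ | henc
      · have hp := inR_of_cor hf hpf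
        refine ⟨p, q, by simp only; omega, by simp only; omega, by simp only; omega,
          by simp only; omega, ?_, ?_, conn_mono (Set.sdiff_subset_sdiff_left hWs) hconn⟩
        · unfold par at hpar ⊢
          simp only at hpar ⊢
          omega
        · unfold OnBd at hq
          rw [← hR]
          simp only
          omega
      · exfalso
        refine hX ⟨x + 1, y₀ + R - m, by omega, by omega, by omega, by omega, ?_⟩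
        rw [show y₀ + R - m + 2 * m = y₀ + R + m by ring]
        exact henc
    · refine hθ W (RF x₀ x₁ y₀ y₁ : Set (ℤ × ℤ)) (h, y₀, false) _ _
        (par ((h, y₀) : ℤ × ℤ) + 1) m (fun S => (lfX (y₀ + R) m S - m, y₀ + R)) n hm
        (fun ω hω ω' h' => BAV_stop hω h') ?_
      rintro ω ⟨⟨hh0, hh1⟩, ⟨g, hg0, hg1, hg⟩, hcen⟩ hX
      obtain ⟨f₀, hf₀, hf₀'⟩ := visit_row (c := y₀ + R) (by omega) (by omega) hg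
      have hx := lfX_spec (c := y₀ + R) (m := m) (b := x₀) ⟨f₀, hf₀, by omega, by omega⟩
        fun f hf => by have := hcen f hf; omega
      generalize lfX (y₀ + R) m (SS ω (RF x₀ x₁ y₀ y₁ : Set (ℤ × ℤ)) (h, y₀, false)) = x at hx ⊢
      have hxb : x₀ + d ≤ x ∧ x < x₁ - d := by
        obtain ⟨⟨f, hf, -, -, rfl⟩, -⟩ := hx
        exact hcen f hf
      rcases sel_left (by omega) (by omega) (by omega) hh0 hh1 hg0 hg1 hg hx (by omega) with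
        ⟨p, q, ⟨f, hf, hpf⟩, hq, hpar, hconn⟩ | henc
      · have hp := inR_of_cor hf hpf
        refine ⟨p, q, by simp only; omega, by simp only; omega, by simp only; omega,
          by simp only; omega, ?_, ?_, conn_mono (Set.sdiff_subset_sdiff_left hWs) hconn⟩
        · unfold par at hpar ⊢
          simp only at hpar ⊢
          omega
        · unfold OnBd at hq
          rw [← hR]
          simp only
          omega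
      · exfalso
        refine hX ⟨x - 2 * m, y₀ + R - m, by omega, by omega, by omega, by omega, ?_⟩
        rw [show y₀ + R - m + 2 * m = y₀ + R + m by ring, show x - 2 * m + 2 * m = x by ring]
        exact henc
  have hsub : {ω | ∃ u, CrV ω x₀ x₁ y₀ y₁ d u ∧ ¬ Bub ω x₀ x₁ y₀ y₁ m u} ⊆
      ⋃ h ∈ Ico x₀ x₁, ((BAV x₀ x₁ y₀ y₁ d h ∩ {ω | ¬ Bub ω x₀ x₁ y₀ y₁ m (h + 1, y₀)}) ∪
        (BAV x₀ x₁ y₀ y₁ d h ∩ {ω | ¬ Bub ω x₀ x₁ y₀ y₁ m (h, y₀)})) := by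
    rintro ω ⟨u, ⟨h, g, h1, h2, h3, h4, h5, h6, h7⟩, h8⟩
    rw [Set.mem_iUnion₂]
    refine ⟨h, mem_Ico.2 ⟨h1, h2⟩, ?_⟩
    rcases h7 with rfl | rfl
    · exact Or.inr ⟨⟨⟨h1, h2⟩, ⟨g, h3, h4, h5⟩, h6⟩, h8⟩
    · exact Or.inl ⟨⟨⟨h1, h2⟩, ⟨g, h3, h4, h5⟩, h6⟩, h8⟩
  refine (pr_mono _ hsub).trans ((pr_biUnion_le W _ _).trans ?_)
  have hθn : 0 ≤ θ ^ n := by positivity
  calc _ ≤ ∑ h ∈ Ico x₀ x₁, 2 * θ ^ n * pr W {ω | ∃ g, x₀ ≤ g ∧ g < x₁ ∧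
          ((g, y₁, false) : UE) ∈ MM ω (RF x₀ x₁ y₀ y₁) (h, y₀, false)} := by
        refine Finset.sum_le_sum fun h _ => (pr_union_le W _ _).trans ?_
        have k1 := (key h).1
        have k2 := (key h).2
        have k3 := mul_le_mul_of_nonneg_left
          (pr_mono W (show BAV x₀ x₁ y₀ y₁ d h ⊆ {ω | ∃ g, x₀ ≤ g ∧ g < x₁ ∧
            ((g, y₁, false) : UE) ∈ MM ω (RF x₀ x₁ y₀ y₁) (h, y₀, false)} from
            fun ω hω => hω.2.1)) hθn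
        linarith
    _ = 2 * θ ^ n * ∑ h ∈ Ico x₀ x₁, pr W {ω | ∃ g, x₀ ≤ g ∧ g < x₁ ∧
          ((g, y₁, false) : UE) ∈ MM ω (RF x₀ x₁ y₀ y₁) (h, y₀, false)} := by
        rw [Finset.mul_sum]
    _ ≤ 2 * θ ^ n * C := mul_le_mul_of_nonneg_left (hL x₀ x₁ y₀ y₁ W (by omega) hasp hW)
        (by positivity)
    _ = 2 * C * θ ^ n := by ring

end Pool.Agent.SixB
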