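import Pool.Agent.Lib.MP_6bd702_z.Main
import Pool.Agent.Lib.MP_6bd702_z.LawP

/-!
# Step 8: from convergence at finite resolution to convergence of the laws of the outer perimeter

`claim1_of_lip`: it is enough that the expectations of bounded Lipschitz functions converge.
`claim1_of_coarse`: it is enough that for every `ε` there is a finite valued output `out n T`, with
asymptotically constant law, and one curve for every value, such that the outer perimeter of every
largest cluster is within `ε` of the curve of the output outside an event of probability `ε`.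
-/

set_option autoImplicit false

namespace Pool.Agent.SixB

open Set Filter Topology MeasureTheory TopologicalSpace
open Pool.Agent.Perc Pool.Agent.PercD
open scoped NNReal

/-- Expectations are monotone. -/
theorem exB_mono {n : ℕ} {f g : Finset Edg → ℝ} (h : ∀ T ⊆ boxE n, f T ≤ g T) :
    exB n f ≤ exB n g := by
  unfold exB
  refine div_le_div_of_nonneg_right (Finset.sum_le_sum fun T hT => ?_) (by positivity)
  exact h T (Finset.mem_powerset.1 hT)

theorem exB_sub (n : ℕ) (f g : Finset Edg → ℝ) :
    exB n (fun T => f T - g T) = exB n f - exB n g := by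
  unfold exB
  rw [Finset.sum_sub_distrib, sub_div]

theorem exB_add (n : ℕ) (f g : Finset Edg → ℝ) :
    exB n (fun T => f T + g T) = exB n f + exB n g := by
  unfold exB
  rw [Finset.sum_add_distrib, add_div]

theorem exB_mul (n : ℕ) (c : ℝ) (f : Finset Edg → ℝ) :
    exB n (fun T => c * f T) = c * exB n f := by
  unfold exB
  rw [← Finset.mul_sum, mul_div_assoc]

theorem exB_const (n : ℕ) (c : ℝ) : exB n (fun _ => c) = c := by
  unfold exB
  rw [Finset.sum_const, Finset.card_powerset, nsmul_eq_mul]
  push_cast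
  field_simp

theorem abs_exB_le (n : ℕ) (f : Finset Edg → ℝ) : |exB n f| ≤ exB n fun T => |f T| := by
  unfold exB
  rw [abs_div, abs_of_nonneg (by positivity : (0 : ℝ) ≤ 2 ^ (boxE n).card)]
  exact div_le_div_of_nonneg_right (Finset.abs_sum_le_sum_abs _ _) (by positivity)

open Classical in
/-- The expectation of an indicator. -/
theorem exB_ind (n : ℕ) (A : Set (Finset Edg)) :
    exB n (fun T => if T ∈ A then (1 : ℝ) else 0) = prB n A := by
  unfold exB prB
  congr 1
  rw [Finset.card_filter]
  push_cast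
  exact Finset.sum_congr rfl fun T _ => by congr

/-- The expectation of a function of a finite valued output. -/
theorem exB_out {K : Type*} [Fintype K] (n : ℕ) (out : Finset Edg → K) (f : K → ℝ) :
    exB n (fun T => f (out T)) = ∑ k, f k * prB n {T | out T = k} := by
  classical
  have h1 : ∀ k, f k * prB n {T | out T = k} =
      exB n (fun T => f k * if T ∈ {T | out T = k} then (1 : ℝ) else 0) := fun k => by
    rw [exB_mul, exB_ind]
  rw [Finset.sum_congr rfl fun k _ => h1 k]
  unfold exB
  rw [← Finset.sum_div, Finset.sum_comm]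
  congr 1
  refine Finset.sum_congr rfl fun T _ => ?_
  simp

/-- It is enough to have the convergence of the expectations of bounded Lipschitz functions. -/
theorem claim1_of_lip (h : ∀ F : Curve → ℝ, (∃ C : ℝ, ∀ x y, dist (F x) (F y) ≤ C) →
      (∃ L, LipschitzWith L F) → ∃ a : ℝ, ∀ sel : ℕ → Finset Edg → ℤ × ℤ,
        (∀ n, IsSel n (sel n)) →
        Tendsto (fun n => exB n fun T => F (outerCurve n T (sel n T))) atTop (𝓝 a)) :
    ∃ μ : ProbabilityMeasure Curve, ∀ sel : ℕ → Finset Edg → ℤ × ℤ, (∀ n, IsSel n (sel n)) →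
      Tendsto (fun n => lawP n (sel n)) atTop (𝓝 μ) := by
  by_cases hne : ∃ sel : ℕ → Finset Edg → ℤ × ℤ, ∀ n, IsSel n (sel n)
  · obtain ⟨sel₀, hsel₀⟩ := hne
    obtain ⟨ψ, hψ, μ, hμ, hlim⟩ := targetExist_holds sel₀ hsel₀ id
    refine ⟨⟨μ, hμ⟩, fun sel hsel => ?_⟩
    rw [tendsto_iff_forall_lipschitz_integral_tendsto]
    intro F hF1 hF2
    obtain ⟨a, ha⟩ := h F hF1 hF2
    let F' : BoundedContinuousFunction Curve ℝ :=
      { toFun := F
        continuous_toFun := hF2.choose_spec.continuous
        map_bounded' := hF1 }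
    have h1 := hlim F'
    have h2 : Tendsto (fun k => exB ((id ∘ ψ) k) fun T => F' (outerCurve ((id ∘ ψ) k) T
        (sel₀ ((id ∘ ψ) k) T))) atTop (𝓝 a) := (ha sel₀ hsel₀).comp hψ.tendsto_atTop
    have h3 : ∫ c, F c ∂μ = a := tendsto_nhds_unique h1 h2
    have h4 := ha sel hsel
    rw [← h3] at h4
    refine h4.congr fun n => ?_
    exact (integral_lawC n (sel n) F').symm
  · exact ⟨lawP 0 fun _ => 0, fun sel hsel => (hne ⟨sel, hsel⟩).elim⟩

/-- Convergence at finite resolution gives the convergence of the laws of the outer perimeters. -/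
theorem claim1_of_coarse (h : ∀ ε : ℝ, 0 < ε → ∃ (K : Type) (_ : Fintype K) (c : K → Curve)
      (out : ℕ → Finset Edg → K) (a : K → ℝ) (N : ℕ), ∀ n, N ≤ n →
        (∑ k, |prB n {T | out n T = k} - a k| ≤ ε) ∧
        ∀ sel : Finset Edg → ℤ × ℤ, IsSel n sel →
          prB n {T | ε < dist (outerCurve n T (sel T)) (c (out n T))} ≤ ε) :
    ∃ μ : ProbabilityMeasure Curve, ∀ sel : ℕ → Finset Edg → ℤ × ℤ, (∀ n, IsSel n (sel n)) →
      Tendsto (fun n => lawP n (sel n)) atTop (𝓝 μ) := by
  refine claim1_of_lip fun F hF1 hF2 => ?_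
  obtain ⟨C, hC⟩ := hF1
  obtain ⟨L, hL⟩ := hF2
  have hC0 : 0 ≤ C := dist_nonneg.trans (hC (outerCurve 0 ∅ 0) (outerCurve 0 ∅ 0))
  set M : ℝ := |F (outerCurve 0 ∅ 0)| + C with hM
  have hFM : ∀ x, |F x| ≤ M := fun x => by
    have h1 := hC x (outerCurve 0 ∅ 0)
    rw [Real.dist_eq] at h1
    have h2 := abs_sub_abs_le_abs_sub (F x) (F (outerCurve 0 ∅ 0))
    rw [hM]; linarith
  have hM0 : 0 ≤ M := (abs_nonneg _).trans (hFM (outerCurve 0 ∅ 0))
  -- the estimate at resolution `ε`
  have key : ∀ ε : ℝ, 0 < ε → ∃ (A : ℝ) (N : ℕ), ∀ n, N ≤ n → ∀ sel : Finset Edg → ℤ × ℤ,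
      IsSel n sel → |(exB n fun T => F (outerCurve n T (sel T))) - A| ≤ (L + C + M) * ε := by
    intro ε hε
    obtain ⟨K, hK, c, out, a, N, hN⟩ := h ε hε
    refine ⟨∑ k, F (c k) * a k, N, fun n hn sel hsel => ?_⟩
    obtain ⟨h1, h2⟩ := hN n hn
    have h3 := h2 sel hsel
    classical
    have h4 : |(exB n fun T => F (outerCurve n T (sel T))) - exB n fun T => F (c (out n T))| ≤
        L * ε + C * ε := by
      rw [← exB_sub]
      refine (abs_exB_le _ _).trans ?_
      have h5 : exB n (fun T => |F (outerCurve n T (sel T)) - F (c (out n T))|) ≤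
          exB n (fun T => L * ε + C * (if T ∈ {T | ε < dist (outerCurve n T (sel T))
            (c (out n T))} then (1 : ℝ) else 0)) := by
        refine exB_mono fun T _ => ?_
        by_cases hT : ε < dist (outerCurve n T (sel T)) (c (out n T))
        · have h6 := hC (outerCurve n T (sel T)) (c (out n T))
          rw [Real.dist_eq] at h6
          have h7 : (0 : ℝ) ≤ L * ε := by positivity
          simp only [mem_setOf_eq, hT, if_true]
          linarith
        · have h6 := hL.dist_le_mul (outerCurve n T (sel T)) (c (out n T))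
          rw [Real.dist_eq] at h6
          have h7 : (L : ℝ) * dist (outerCurve n T (sel T)) (c (out n T)) ≤ L * ε :=
            mul_le_mul_of_nonneg_left (not_lt.1 hT) L.2
          simp only [mem_setOf_eq, hT, if_false]
          linarith
      refine h5.trans ?_
      rw [exB_add, exB_const, exB_mul, exB_ind]
      have := mul_le_mul_of_nonneg_left h3 hC0
      linarith
    have h5 : |(exB n fun T => F (c (out n T))) - ∑ k, F (c k) * a k| ≤ M * ε := by
      rw [exB_out n (out n) (fun k => F (c k)), ← Finset.sum_sub_distrib]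
      refine (Finset.abs_sum_le_sum_abs _ _).trans ?_
      have h6 : ∀ k ∈ Finset.univ, |F (c k) * prB n {T | out n T = k} - F (c k) * a k| ≤
          M * |prB n {T | out n T = k} - a k| := fun k _ => by
        rw [← mul_sub, abs_mul]
        exact mul_le_mul_of_nonneg_right (hFM _) (abs_nonneg _)
      refine (Finset.sum_le_sum h6).trans ?_
      rw [← Finset.mul_sum]
      exact mul_le_mul_of_nonneg_left h1 hM0
    have h6 := abs_sub_le (exB n fun T => F (outerCurve n T (sel T)))
      (exB n fun T => F (c (out n T))) (∑ k, F (c k) * a k)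
    calc _ ≤ _ := h6
      _ ≤ (L * ε + C * ε) + M * ε := add_le_add h4 h5
      _ = _ := by ring
  have hLCM : 0 ≤ (L : ℝ) + C + M := by positivity
  by_cases hne : ∃ sel : ℕ → Finset Edg → ℤ × ℤ, ∀ n, IsSel n (sel n)
  · obtain ⟨sel₀, hsel₀⟩ := hne
    have hcau : ∀ δ : ℝ, 0 < δ → ∃ (A : ℝ) (N : ℕ), ∀ n, N ≤ n → ∀ sel : Finset Edg → ℤ × ℤ,
        IsSel n sel → |(exB n fun T => F (outerCurve n T (sel T))) - A| < δ := by
      intro δ hδ
      obtain ⟨A, N, hAN⟩ := key (δ / (2 * (L + C + M + 1))) (by positivity)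
      refine ⟨A, N, fun n hn sel hsel => (hAN n hn sel hsel).trans_lt ?_⟩
      rw [mul_div_assoc', div_lt_iff₀ (by positivity)]
      nlinarith
    have h1 : CauchySeq fun n => exB n fun T => F (outerCurve n T (sel₀ n T)) := by
      rw [Metric.cauchySeq_iff']
      intro δ hδ
      obtain ⟨A, N, hAN⟩ := hcau (δ / 2) (by positivity)
      refine ⟨N, fun n hn => ?_⟩
      have h2 := hAN n hn _ (hsel₀ n)
      have h3 := hAN N le_rfl _ (hsel₀ N)
      rw [Real.dist_eq]
      rw [abs_lt] at h2 h3 ⊢
      constructor <;> linarith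
    obtain ⟨a, ha⟩ := cauchySeq_tendsto_of_complete h1
    refine ⟨a, fun sel hsel => ?_⟩
    rw [Metric.tendsto_atTop] at ha ⊢
    intro δ hδ
    obtain ⟨N₁, hN₁⟩ := ha (δ / 3) (by positivity)
    obtain ⟨A, N, hAN⟩ := hcau (δ / 3) (by positivity)
    refine ⟨max N N₁, fun n hn => ?_⟩
    have h2 := hAN n (le_trans (le_max_left _ _) hn) _ (hsel₀ n)
    have h3 := hAN n (le_trans (le_max_left _ _) hn) _ (hsel n)
    have h4 := hN₁ n (le_trans (le_max_right _ _) hn)
    rw [Real.dist_eq] at h4 ⊢
    rw [abs_lt] at h2 h3 h4 ⊢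
    constructor <;> linarith
  · exact ⟨0, fun sel hsel => (hne ⟨sel, hsel⟩).elim⟩

end Pool.Agent.SixB
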