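import Pool.Agent.Lib.SixB.S8Pick
import Pool.Agent.Lib.SixB.S8Tend
import Pool.Agent.Lib.MP_6bd702_nt.E2

/-!
# Step 8: the interface of the scan

The scan returns a finite list of curves. It is enough that with high probability
(1) some curve of the list has diameter at least the diameter of the largest cluster minus `ε` (so
it is enough to know that the largest cluster has been swallowed by some step), and
(2) every curve of the list is `ε`-close to the outer perimeter of some cluster,
and that the laws of the lists are asymptotically constant.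
-/

set_option autoImplicit false

namespace Pool.Agent.SixB

open Set Filter Topology MeasureTheory TopologicalSpace
open Pool.Agent.Perc Pool.Agent.PercD

theorem noNearTies : NoNearTies := Pool.Agent.NT6.no_near_ties

/-- The good event of the scan: the list `L` of curves contains a curve of almost largest diameter,
and all its curves are close to outer perimeters. -/
def GoodList (n : ℕ) (T : Finset Edg) (ε : ℝ) (L : Finset Curve) : Prop :=
  (∀ v, IsTop n T v → ∃ c ∈ L, cdiam (outerCurve n T v) ≤ cdiam c + ε) ∧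
    ∀ c ∈ L, ∃ v ∈ Box n, dist (outerCurve n T v) c ≤ ε

/-- A curve of largest diameter of a finite list. -/
theorem exists_biggest (L : Finset Curve) :
    ∃ c : Curve, L.Nonempty → c ∈ L ∧ ∀ c' ∈ L, cdiam c' ≤ cdiam c := by
  by_cases hne : L.Nonempty
  · obtain ⟨c, hc, hmax⟩ := Finset.exists_max_image L cdiam hne
    exact ⟨c, fun _ => ⟨hc, hmax⟩⟩
  · exact ⟨outerCurve 0 ∅ (0, 0), fun h => absurd h hne⟩

/-- A curve of largest diameter of a finite list. -/
noncomputable def biggest (L : Finset Curve) : Curve := (exists_biggest L).choose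

theorem biggest_spec {L : Finset Curve} (h : L.Nonempty) :
    biggest L ∈ L ∧ ∀ c' ∈ L, cdiam c' ≤ cdiam (biggest L) := (exists_biggest L).choose_spec h

/-- There is no near tie of size `η`. -/
def NoTie (n : ℕ) (T : Finset Edg) (η : ℝ) : Prop :=
  ¬ ∃ u ∈ Box n, ∃ v ∈ Box n, v ∉ clV T u ∧
    (∀ w ∈ Box n, Metric.diam (clS T w) ≤ Metric.diam (clS T u) + η * n) ∧
    (∀ w ∈ Box n, Metric.diam (clS T w) ≤ Metric.diam (clS T v) + η * n)

/-- On the good event without near ties the biggest curve of the list is close to the outer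
perimeter of every largest cluster. -/
theorem dist_biggest_le {n : ℕ} (hn : 0 < n) {T : Finset Edg} (hT : T ⊆ boxE n) {ε η : ℝ}
    (hε : 0 ≤ ε) (hη : 4 * ε ≤ η) {L : Finset Curve} (hg : GoodList n T ε L) (ht : NoTie n T η)
    {v : ℤ × ℤ} (hv : IsTop n T v) : dist (outerCurve n T v) (biggest L) ≤ ε := by
  obtain ⟨g1, g2⟩ := hg
  obtain ⟨c, hc, hvc⟩ := g1 v hv
  obtain ⟨hGm, hGmax⟩ := biggest_spec ⟨c, hc⟩
  obtain ⟨v', hv', hvc'⟩ := g2 _ hGm
  have e2 : cdiam (biggest L) ≤ cdiam (outerCurve n T v') + 2 * ε := by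
    have := cdiam_le_add (biggest L) (outerCurve n T v')
    rw [dist_comm] at this
    linarith
  have e3 := hGmax c hc
  have hn0' : (0 : ℝ) < n := by exact_mod_cast hn
  have e4 : cdiam (outerCurve n T v) ≤ cdiam (outerCurve n T v') + η := by linarith
  have e5 : Metric.diam (clS T v) ≤ Metric.diam (clS T v') + η * n := by
    rw [← cdiam_outerCurve hn hT, ← cdiam_outerCurve hn hT, ← add_mul]
    exact mul_le_mul_of_nonneg_right e4 hn0'.le
  have hηn : 0 ≤ η * n := mul_nonneg (by linarith) hn0'.le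
  by_cases hmem : v' ∈ clV T v
  · rw [← outerCurve_eq_of_mem hmem]
    exact hvc'
  · refine absurd ⟨v, hv.1, v', hv', hmem, fun w hw => ?_, fun w hw => ?_⟩ ht
    · exact (hv.2 w hw).trans (by linarith)
    · exact (hv.2 w hw).trans e5

/-- CLAIM 1 from the lists of the scan. -/
theorem claim1_of_scan (h : ∀ ε : ℝ, 0 < ε → ∃ (K : Type) (_ : Fintype K) (F : K → Finset Curve)
      (out : ℕ → Finset Edg → K) (a : K → ℝ) (N : ℕ), ∀ n, N ≤ n →
        (∑ k, |prB n {T | out n T = k} - a k| ≤ ε) ∧
        prB n {T | ¬ GoodList n T ε (F (out n T))} ≤ ε) :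
    ∃ μ : ProbabilityMeasure Curve, ∀ sel : ℕ → Finset Edg → ℤ × ℤ, (∀ n, IsSel n (sel n)) →
      Tendsto (fun n => lawP n (sel n)) atTop (𝓝 μ) := by
  refine claim1_of_coarse fun ε hε => ?_
  obtain ⟨η, hη, N₀, hN₀⟩ := noNearTies (ε / 2) (by positivity)
  set δ : ℝ := min (ε / 2) (η / 4) with hδ
  have hδ0 : 0 < δ := lt_min (by positivity) (by positivity)
  have hδ1 : δ ≤ ε / 2 := min_le_left _ _
  have hδ2 : δ ≤ η / 4 := min_le_right _ _
  obtain ⟨K, hK, F, out, a, N₁, hN₁⟩ := h δ hδ0
  refine ⟨K, hK, fun k => biggest (F k), out, a, max (max N₀ N₁) 1, fun n hn => ?_⟩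
  have hnN₀ : N₀ ≤ n := le_trans (le_trans (le_max_left _ _) (le_max_left _ _)) hn
  have hnN₁ : N₁ ≤ n := le_trans (le_trans (le_max_right _ _) (le_max_left _ _)) hn
  have hn0 : 0 < n := le_trans (le_max_right _ _) hn
  obtain ⟨h1, h2⟩ := hN₁ n hnN₁
  refine ⟨h1.trans (by linarith), fun sel hsel => ?_⟩
  refine (Perc.PercD.prB_union {T | ¬ GoodList n T δ (F (out n T))} {T | ¬ NoTie n T η} _ ?_).trans
    ((add_le_add h2 ?_).trans (by linarith : δ + ε / 2 ≤ ε))
  · intro T hT hfar
    by_contra hcon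
    rw [not_or] at hcon
    obtain ⟨hgood, hties⟩ := hcon
    rw [mem_ofPred_eq, not_not] at hgood hties
    have h3 := dist_biggest_le hn0 hT hδ0.le (by linarith) hgood hties
      (v := sel T) ⟨(hsel T hT).1, (hsel T hT).2⟩
    have h4 : ε < dist (outerCurve n T (sel T)) (biggest (F (out n T))) := hfar
    linarith
  · refine le_trans (Perc.PercD.prB_mono fun T _ hT => ?_) (hN₀ n hnN₀)
    exact not_not.1 hT

end Pool.Agent.SixB
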