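import Pool.Agent.Lib.SixB.S8RecOut

/-!
# Step 8: the exceptional event of the output row

`st i` is the number of finished needle steps at the stage `i` of the chain, `cnt j` a bound for the
number of stages of the needle step `j`. If `m T ≤ N` and `cnt j ≤ T` for all `j < m`, the `m` needle
steps are finished after `N` stages (`fin_of_count`). `chnOut_of_count`: the output row of the chain
from the deterministic statement for the finished scans.
-/

set_option autoImplicit false

namespace Pool.Agent.SixB.Out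

open Filter Topology Finset Pool.Agent.Perc Pool.Agent.PercD Pool.Agent.SixB.Rule
open PercX60 (Sn)

/-- If the counter is `< m` at all stages `i ≤ N`, some step has more than `T` stages. -/
theorem exists_long {N m T : ℕ} {st : ℕ → ℕ} (hst : ∀ i ≤ N, st i < m) (hT : m * T ≤ N) :
    ∃ j < m, T < #{i ∈ range (N + 1) | st i = j} := by
  by_contra hcon
  push Not at hcon
  have h1 : #(range (N + 1)) = ∑ j ∈ range m, #{i ∈ range (N + 1) | st i = j} :=
    Finset.card_eq_sum_card_fiberwise fun i hi => by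
      have := Finset.mem_range.1 (Finset.mem_coe.1 hi)
      exact Finset.mem_coe.2 (Finset.mem_range.2 (hst i (by omega)))
  have h2 : ∑ j ∈ range m, #{i ∈ range (N + 1) | st i = j} ≤ #(range m) • T :=
    Finset.sum_le_card_nsmul _ _ _ fun j hj => hcon j (Finset.mem_range.1 hj)
  rw [Finset.card_range, smul_eq_mul] at h2
  rw [Finset.card_range] at h1
  omega

/-- A monotone counter which is `< m` at the end is `< m` at all stages. -/
theorem lt_of_mono {N m : ℕ} {st : ℕ → ℕ} (hmono : ∀ i < N, st i ≤ st (i + 1)) (h : st N < m) :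
    ∀ i ≤ N, st i < m := by
  have key : ∀ k ≤ N, st (N - k) < m := by
    intro k
    induction k with
    | zero =>
      intro _
      simpa using h
    | succ k ih =>
      intro hk
      have h1 := ih (by omega)
      have h2 := hmono (N - (k + 1)) (by omega)
      rw [show N - (k + 1) + 1 = N - k by omega] at h2
      omega
  intro i hi
  have := key (N - i) (by omega)
  rwa [show N - (N - i) = i by omega] at this

/-- **The scan is finished** if every needle step has at most `T` stages. -/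
theorem fin_of_count {N m T : ℕ} {st cnt : ℕ → ℕ} (hT : m * T ≤ N)
    (hmono : ∀ i < N, st i ≤ st (i + 1)) (hle : ∀ j < m, #{i ∈ range (N + 1) | st i = j} ≤ cnt j)
    (hcnt : ∀ j < m, cnt j ≤ T) : m ≤ st N := by
  by_contra hlt
  obtain ⟨j, hj, hjT⟩ := exists_long (lt_of_mono hmono (Nat.lt_of_not_le hlt)) hT
  exact absurd (hjT.trans_le (hle j hj)) (Nat.not_lt.2 (hcnt j hj))

/-- The exceptional event is small. -/
theorem pr_long {W : Finset (ℤ × ℤ)} {m T : ℕ} {E : Set Cfg} {cnt : ℕ → Cfg → ℕ} {ε : ℝ}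
    (hε : 0 < ε) (hE : pr W E ≤ ε / 4)
    (hcnt : ∀ j < m, pr W {ω | T < cnt j ω} ≤ ε / (4 * (m + 1))) :
    pr W (E ∪ {ω | ∃ j < m, T < cnt j ω}) ≤ ε / 2 := by
  refine (pr_union_le W _ _).trans ?_
  have h3 : pr W {ω | ∃ j < m, T < cnt j ω} ≤ ∑ i ∈ Finset.range m, ε / (4 * (m + 1)) :=
    pr_biUnion_le W (fun j => {ω | T < cnt j ω}) (fun _ => ε / (4 * (m + 1))) m hcnt
  rw [Finset.sum_const, Finset.card_range, nsmul_eq_mul] at h3
  have h4 : (m : ℝ) * (ε / (4 * (m + 1))) ≤ ε / 4 := by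
    have hm : (0 : ℝ) ≤ m := Nat.cast_nonneg m
    rw [mul_div_assoc', div_le_div_iff₀ (by positivity) (by norm_num)]
    nlinarith
  linarith

/-- **The output row from the number of stages.** `st i` is the number of finished needle steps at the
stage `i`; `cnt j` bounds the number of stages of the step `j` on the good pasts. -/
theorem chnOut_of_count {A : Type} {c : ChnD A} {K m N T : ℕ} {r ε : ℝ} (hr : 0 < r) (hε : 0 < ε)
    (hT : m * T ≤ N) (tips : (ℕ → ℕ) → List A → ℕ → Option (ℂ × List ℂ)) (ℓ : ℕ) {δ : ℝ}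
    (hδ : δ ≤ r / 8) (hδε : 8 * δ ≤ ε)
    (H : ∀ d : ℕ → ℕ, d N = ℓ → c.Gro N d → ∀ᶠ n in atTop, ∃ R : Rul, RulOK n (n / K) R ∧
      ∃ (E : Set Cfg) (st cnt : ℕ → Cfg → ℕ), pr (Sn n) E ≤ ε / 4 ∧
        (∀ j < m, pr (Sn n) {ω | T < cnt j ω} ≤ ε / (4 * (m + 1))) ∧
        ∀ ω : Cfg, ω ∉ E → (∀ i < N, ω ∉ c.Bd d n i) →
          (∀ i < N, st i ω ≤ st (i + 1) ω) ∧
          (∀ j < m, #{i ∈ range (N + 1) | st i ω = j} ≤ cnt j ω) ∧
          (m ≤ st N ω → FinR (8 * r * n) n K m R (cfgE n ω) ∧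
            ∀ j < m, StepOut n R (cfgE n ω) j δ (tips d (histL (c.s d n) N ω) j))) :
    ChnOut c K m N r ε := by
  refine chnOut_of hr hε tips ℓ hδ hδε fun d hd hG => ?_
  filter_upwards [H d hd hG] with n hn
  obtain ⟨R, hR, E, st, cnt, hE, hcnt, hgood⟩ := hn
  refine ⟨R, hR, E ∪ {ω | ∃ j < m, T < cnt j ω}, pr_long hε hE hcnt, fun ω hω hbad => ?_⟩
  rw [Set.mem_union, not_or] at hω
  obtain ⟨h1, h2, h3⟩ := hgood ω hω.1 hbad
  refine h3 (fin_of_count hT (st := fun i => st i ω) (cnt := fun j => cnt j ω) h1 h2 ?_)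
  intro j hj
  by_contra hlt
  exact hω.2 ⟨j, hj, Nat.lt_of_not_le hlt⟩

end Pool.Agent.SixB.Out
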