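import Pool.Agent.Lib.MP_6bd702_z.Z018
import Pool.Agent.Lib.MP_6bd702_zc.Y024

/-!
# Step 8: the corner walk of the square lattice is the strand of the face grid

The curve of the final theorem is the orbit of a corner under `nxt` (square lattice). The corner
with vertex `v` and face `f` is the unit edge `{phiV v, phiF f}` of the face grid. The map of the
square lattice to the face grid reverses the orientation: the face (odd) is on the left, the vertex
(even) on the right. A step of `nxt` which queries an edge of the box is a step of the strand; the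
other steps rotate around the vertex: the wall of the box is odd.
-/

set_option autoImplicit false

namespace Pool.Agent.SixB

open Pool.Agent.Perc Pool.Agent.PercU Pool.Agent.PercX60 Pool.Agent.Perc.Q
open Pool.Agent.MP_6bd702.H23 (Ed ea eb)

/-- The directed unit edge of a corner: the face on the left, the vertex on the right. -/
def dC (k : Cor) : (ℤ × ℤ) × (ℤ × ℤ) := (gF k, gV k)

theorem dC_tt (x y : ℤ) : dC (x, y, true, true) = ((x + y + 1, x - y), (x + y, x - y)) := rfl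

theorem dC_ft (x y : ℤ) : dC (x, y, false, true) = ((x + y, x - y - 1), (x + y, x - y)) := by
  simp only [dC, gF, gV, phiV, phiF, vtx, fce, Bool.false_eq_true, if_false, if_true,
    Prod.mk.injEq, and_true]
  omega

theorem dC_ff (x y : ℤ) : dC (x, y, false, false) = ((x + y - 1, x - y), (x + y, x - y)) := by
  simp only [dC, gF, gV, phiV, phiF, vtx, fce, Bool.false_eq_true, if_false,
    Prod.mk.injEq, and_true]
  omega

theorem dC_tf (x y : ℤ) : dC (x, y, true, false) = ((x + y, x - y + 1), (x + y, x - y)) := by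
  simp only [dC, gF, gV, phiV, phiF, vtx, fce, Bool.false_eq_true, if_false, if_true,
    Prod.mk.injEq, and_true]
  omega

theorem dC_injective : Function.Injective dC := by
  rintro ⟨x, y, a, b⟩ ⟨x', y', a', b'⟩ h
  have h1 : x = x' ∧ y = y' := by
    have h2 : gV (x, y, a, b) = gV (x', y', a', b') := congrArg Prod.snd h
    simp only [gV, phiV, vtx, Prod.mk.injEq] at h2
    omega
  obtain ⟨rfl, rfl⟩ := h1
  rcases a with _ | _ <;> rcases b with _ | _ <;> rcases a' with _ | _ <;> rcases b' with _ | _ <;>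
    first
      | rfl
      | (exfalso
         simp only [dC_tt, dC_ft, dC_ff, dC_tf, Prod.mk.injEq] at h
         omega)

/-- The face of the grid ahead of a corner is the face of the queried edge. -/
theorem dC_ahead (k : Cor) : ∃ i : ZMod 4,
    dC k = (ZQ.c (phiE (qry k)) i, ZQ.c (phiE (qry k)) (i + 1)) ∧ ev i = (qry k).2.2 ∧
    dC (rot k) = (ZQ.c (phiE (qry k)) (i + 2), ZQ.c (phiE (qry k)) (i + 1)) ∧
    dC (adv k) = (ZQ.c (phiE (qry k)) i, ZQ.c (phiE (qry k)) (i + 3)) := by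
  obtain ⟨x, y, _ | _, _ | _⟩ := k
  · refine ⟨0, ?_, rfl, ?_, ?_⟩
    · show dC (x, y, false, false) = (cor0 (phiE (x, y - 1, true)) 0, cor0 (phiE (x, y - 1, true)) 1)
      refine Prod.ext (Prod.ext ?_ ?_) (Prod.ext ?_ ?_) <;>
        simp [dC_tt, dC_ft, dC_ff, dC_tf, cor0_0, cor0_1, cor0_2, cor0_3, phiE] <;> omega
    · show dC (x, y, true, false) = (cor0 (phiE (x, y - 1, true)) 2, cor0 (phiE (x, y - 1, true)) 1)
      refine Prod.ext (Prod.ext ?_ ?_) (Prod.ext ?_ ?_) <;>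
        simp [dC_tt, dC_ft, dC_ff, dC_tf, cor0_0, cor0_1, cor0_2, cor0_3, phiE] <;> omega
    · show dC (x, y - 1, false, true) =
        (cor0 (phiE (x, y - 1, true)) 0, cor0 (phiE (x, y - 1, true)) 3)
      refine Prod.ext (Prod.ext ?_ ?_) (Prod.ext ?_ ?_) <;>
        simp [dC_tt, dC_ft, dC_ff, dC_tf, cor0_0, cor0_1, cor0_2, cor0_3, phiE] <;> omega
  · refine ⟨1, ?_, rfl, ?_, ?_⟩
    · show dC (x, y, false, true) = (cor0 (phiE (x - 1, y, false)) 1, cor0 (phiE (x - 1, y, false)) 2)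
      refine Prod.ext (Prod.ext ?_ ?_) (Prod.ext ?_ ?_) <;>
        simp [dC_tt, dC_ft, dC_ff, dC_tf, cor0_0, cor0_1, cor0_2, cor0_3, phiE] <;> omega
    · show dC (x, y, false, false) =
        (cor0 (phiE (x - 1, y, false)) 3, cor0 (phiE (x - 1, y, false)) 2)
      refine Prod.ext (Prod.ext ?_ ?_) (Prod.ext ?_ ?_) <;>
        simp [dC_tt, dC_ft, dC_ff, dC_tf, cor0_0, cor0_1, cor0_2, cor0_3, phiE] <;> omega
    · show dC (x - 1, y, true, true) =
        (cor0 (phiE (x - 1, y, false)) 1, cor0 (phiE (x - 1, y, false)) 0)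
      refine Prod.ext (Prod.ext ?_ ?_) (Prod.ext ?_ ?_) <;>
        simp [dC_tt, dC_ft, dC_ff, dC_tf, cor0_0, cor0_1, cor0_2, cor0_3, phiE] <;> omega
  · refine ⟨3, ?_, rfl, ?_, ?_⟩
    · show dC (x, y, true, false) = (cor0 (phiE (x, y, false)) 3, cor0 (phiE (x, y, false)) 0)
      refine Prod.ext (Prod.ext ?_ ?_) (Prod.ext ?_ ?_) <;>
        simp [dC_tt, dC_ft, dC_ff, dC_tf, cor0_0, cor0_1, cor0_2, cor0_3, phiE] <;> omega
    · show dC (x, y, true, true) = (cor0 (phiE (x, y, false)) 1, cor0 (phiE (x, y, false)) 0)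
      refine Prod.ext (Prod.ext ?_ ?_) (Prod.ext ?_ ?_) <;>
        simp [dC_tt, dC_ft, dC_ff, dC_tf, cor0_0, cor0_1, cor0_2, cor0_3, phiE] <;> omega
    · show dC (x + 1, y, false, false) = (cor0 (phiE (x, y, false)) 3, cor0 (phiE (x, y, false)) 2)
      refine Prod.ext (Prod.ext ?_ ?_) (Prod.ext ?_ ?_) <;>
        simp [dC_tt, dC_ft, dC_ff, dC_tf, cor0_0, cor0_1, cor0_2, cor0_3, phiE] <;> omega
  · refine ⟨2, ?_, rfl, ?_, ?_⟩
    · show dC (x, y, true, true) = (cor0 (phiE (x, y, true)) 2, cor0 (phiE (x, y, true)) 3)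
      refine Prod.ext (Prod.ext ?_ ?_) (Prod.ext ?_ ?_) <;>
        simp [dC_tt, dC_ft, dC_ff, dC_tf, cor0_0, cor0_1, cor0_2, cor0_3, phiE] <;> omega
    · show dC (x, y, false, true) = (cor0 (phiE (x, y, true)) 0, cor0 (phiE (x, y, true)) 3)
      refine Prod.ext (Prod.ext ?_ ?_) (Prod.ext ?_ ?_) <;>
        simp [dC_tt, dC_ft, dC_ff, dC_tf, cor0_0, cor0_1, cor0_2, cor0_3, phiE] <;> omega
    · show dC (x, y + 1, true, false) = (cor0 (phiE (x, y, true)) 2, cor0 (phiE (x, y, true)) 1)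
      refine Prod.ext (Prod.ext ?_ ?_) (Prod.ext ?_ ?_) <;>
        simp [dC_tt, dC_ft, dC_ff, dC_tf, cor0_0, cor0_1, cor0_2, cor0_3, phiE] <;> omega

/-- A step of the corner walk is a step of the strand. -/
theorem nx_nxt {T : Set Ed} {ω : Cfg} {F : Set (ℤ × ℤ)} (k : Cor) (hF : phiE (qry k) ∈ F)
    (hω : qry k ∈ T ↔ ω (phiE (qry k)) = !(qry k).2.2) :
    Nx ZQ ω F (dC k) (dC (nxt T k)) := by
  obtain ⟨i, h1, h2, h3, h4⟩ := dC_ahead k
  refine ⟨phiE (qry k), hF, i, h1, ?_⟩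
  by_cases hq : qry k ∈ T
  · right
    rw [h2]
    refine ⟨hω.1 hq, ?_⟩
    rw [nxt, if_pos hq, h4]
  · left
    rw [h2]
    refine ⟨?_, ?_⟩
    · have h5 : ω (phiE (qry k)) ≠ !(qry k).2.2 := fun h => hq (hω.2 h)
      revert h5
      cases ω (phiE (qry k)) <;> cases (qry k).2.2 <;> simp
    · rw [nxt, if_neg hq, h3]

/-- There is no face of `F` ahead of the corner. -/
theorem ter_dC {F : Set (ℤ × ℤ)} {k : Cor} (h : phiE (qry k) ∉ F) : Ter ZQ F (dC k) := by
  intro f hf i hi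
  obtain ⟨j, h1, -⟩ := dC_ahead k
  rw [h1, Prod.mk.injEq] at hi
  obtain ⟨h2, -⟩ := ZQ.inj hi.1 hi.2
  exact h (h2 ▸ hf)

/-- The face behind a corner is the face of the other edge. -/
theorem dC_behind (k : Cor) : ∃ i : ZMod 4,
    dC k = (ZQ.c (phiE (qryb k)) (i + 1), ZQ.c (phiE (qryb k)) i) := by
  obtain ⟨x, y, _ | _, _ | _⟩ := k
  · refine ⟨2, ?_⟩
    show dC (x, y, false, false) = (cor0 (phiE (x - 1, y, false)) 3, cor0 (phiE (x - 1, y, false)) 2)
    refine Prod.ext (Prod.ext ?_ ?_) (Prod.ext ?_ ?_) <;>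
      simp [dC_tt, dC_ft, dC_ff, dC_tf, cor0_0, cor0_1, cor0_2, cor0_3, phiE] <;> omega
  · refine ⟨3, ?_⟩
    show dC (x, y, false, true) = (cor0 (phiE (x, y, true)) 0, cor0 (phiE (x, y, true)) 3)
    refine Prod.ext (Prod.ext ?_ ?_) (Prod.ext ?_ ?_) <;>
      simp [dC_tt, dC_ft, dC_ff, dC_tf, cor0_0, cor0_1, cor0_2, cor0_3, phiE] <;> omega
  · refine ⟨1, ?_⟩
    show dC (x, y, true, false) = (cor0 (phiE (x, y - 1, true)) 2, cor0 (phiE (x, y - 1, true)) 1)
    refine Prod.ext (Prod.ext ?_ ?_) (Prod.ext ?_ ?_) <;>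
      simp [dC_tt, dC_ft, dC_ff, dC_tf, cor0_0, cor0_1, cor0_2, cor0_3, phiE] <;> omega
  · refine ⟨0, ?_⟩
    show dC (x, y, true, true) = (cor0 (phiE (x, y, false)) 1, cor0 (phiE (x, y, false)) 0)
    refine Prod.ext (Prod.ext ?_ ?_) (Prod.ext ?_ ?_) <;>
      simp [dC_tt, dC_ft, dC_ff, dC_tf, cor0_0, cor0_1, cor0_2, cor0_3, phiE] <;> omega

/-- There is no face of `F` behind the corner. -/
theorem ini_dC {F : Set (ℤ × ℤ)} {k : Cor} (h : phiE (qryb k) ∉ F) : Ini ZQ F (dC k) := by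
  intro f hf i hi
  obtain ⟨j, h1⟩ := dC_behind k
  rw [h1, Prod.mk.injEq] at hi
  obtain ⟨h2, -⟩ := ZQ.inj (f := phiE (qryb k)) (k := j) (f' := f) (k' := i) hi.2 hi.1
  exact h (h2 ▸ hf)

/-! ### The box -/

theorem phiE_mem_Sn {n : ℕ} {e : Edg} : phiE e ∈ Sn n ↔ e ∈ boxE n := by
  unfold Sn
  rw [Finset.mem_image]
  constructor
  · rintro ⟨e', he', h⟩
    rwa [← phiE_injective h]
  · intro h
    exact ⟨e, h, rfl⟩

/-- Inside the box. -/
theorem nx_nxt_box {n : ℕ} {ω : Cfg} {k : Cor} (h : qry k ∈ boxE n) :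
    Nx ZQ ω (Sn n : Set (ℤ × ℤ)) (dC k) (dC (nxt (cfgE n ω : Set Ed) k)) := by
  refine nx_nxt k (by exact_mod_cast phiE_mem_Sn.2 h) ?_
  rw [Finset.mem_coe, DictB.mem_cfgE]
  exact ⟨fun h1 => h1.2, fun h1 => ⟨h, h1⟩⟩

/-- At the wall of the box. -/
theorem nxt_wall {n : ℕ} {ω : Cfg} {k : Cor} (h : qry k ∉ boxE n) :
    nxt (cfgE n ω : Set Ed) k = rot k ∧ Ter ZQ (Sn n : Set (ℤ × ℤ)) (dC k) ∧
      Ini ZQ (Sn n : Set (ℤ × ℤ)) (dC (rot k)) := by
  refine ⟨?_, ?_, ?_⟩
  · rw [nxt, if_neg]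
    rw [Finset.mem_coe, DictB.mem_cfgE]
    exact fun h1 => h h1.1
  · refine ter_dC ?_
    rw [Finset.mem_coe, phiE_mem_Sn]
    exact h
  · refine ini_dC ?_
    rw [Finset.mem_coe, phiE_mem_Sn, qryb_rot]
    exact h

/-! ### Positions -/

/-- The point of the plane of the square lattice with the coordinates `(X, Y)` of the face grid. -/
noncomputable def psiC (X Y : ℝ) : ℂ := ⟨(X + Y) / 2, (X - Y) / 2⟩

theorem toC_eq_psiC (v : ℤ × ℤ) : toC v = psiC (phiV v).1 (phiV v).2 := by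
  apply Complex.ext
  · simp only [toC, psiC, phiV, Complex.add_re, Complex.intCast_re, Complex.mul_re,
      Complex.intCast_im, Complex.I_re, Complex.I_im]
    push_cast
    ring
  · simp only [toC, psiC, phiV, Complex.add_im, Complex.intCast_re, Complex.mul_im,
      Complex.intCast_im, Complex.I_re, Complex.I_im]
    push_cast
    ring

theorem toC_vtx (k : Cor) : toC (vtx k) = psiC (gV k).1 (gV k).2 := toC_eq_psiC _

/-- A square of the face grid of half side `r` lies in the ball of radius `r`. -/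
theorem dist_psiC_le {X Y X' Y' r : ℝ} (hx : |X - X'| ≤ r) (hy : |Y - Y'| ≤ r) :
    dist (psiC X Y) (psiC X' Y') ≤ r := by
  have hr : 0 ≤ r := (abs_nonneg _).trans hx
  rw [Complex.dist_eq_re_im]
  apply Real.sqrt_le_iff.2
  refine ⟨hr, ?_⟩
  simp only [psiC]
  have h1 : (X - X') ^ 2 ≤ r ^ 2 := by
    rw [← sq_abs]; exact pow_le_pow_left₀ (abs_nonneg _) hx 2
  have h2 : (Y - Y') ^ 2 ≤ r ^ 2 := by
    rw [← sq_abs]; exact pow_le_pow_left₀ (abs_nonneg _) hy 2
  nlinarith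

/-- Points of the plane at distance at least `r` have face grid coordinates at distance at least
`r`. -/
theorem le_max_of_dist_psiC {X Y X' Y' r : ℝ} (h : r ≤ dist (psiC X Y) (psiC X' Y')) :
    r ≤ max |X - X'| |Y - Y'| :=
  h.trans (dist_psiC_le (le_max_left _ _) (le_max_right _ _))

/-- The converse comparison: the coordinates of the face grid differ by at most `2` times the
distance. -/
theorem abs_sub_le_psiC (X Y X' Y' : ℝ) :
    |X - X'| ≤ 2 * dist (psiC X Y) (psiC X' Y') ∧ |Y - Y'| ≤ 2 * dist (psiC X Y) (psiC X' Y') := by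
  have h1 := Complex.abs_re_le_norm (psiC X Y - psiC X' Y')
  have h2 := Complex.abs_im_le_norm (psiC X Y - psiC X' Y')
  rw [← dist_eq_norm] at h1 h2
  rw [Complex.sub_re] at h1
  rw [Complex.sub_im] at h2
  simp only [psiC] at h1 h2 ⊢
  obtain ⟨a1, a2⟩ := abs_le.1 h1
  obtain ⟨b1, b2⟩ := abs_le.1 h2
  constructor
  · rw [abs_le]
    constructor <;> linarith
  · rw [abs_le]
    constructor <;> linarith

theorem posC_eq (n : ℕ) (T : Set Ed) (k : Cor) (j : ℤ) :
    PercD.posC n T k j = psiC (gV ((nxtE T ^ j) k)).1 (gV ((nxtE T ^ j) k)).2 / n := by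
  rw [PercD.posC, toC_vtx]

/-- The corner walk stays in a ball if its vertices stay in a square of the face grid. -/
theorem dist_posC_le {n : ℕ} (hn : 0 < n) {T : Set Ed} {k : Cor} {j : ℤ} {X Y r : ℝ}
    (hx : |((gV ((nxtE T ^ j) k)).1 : ℝ) - n * X| ≤ n * r)
    (hy : |((gV ((nxtE T ^ j) k)).2 : ℝ) - n * Y| ≤ n * r) :
    dist (PercD.posC n T k j) (psiC X Y) ≤ r := by
  have hn0 : (0 : ℝ) < n := by exact_mod_cast hn
  have h1 : psiC X Y = psiC (n * X) (n * Y) / n := by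
    apply Complex.ext
    · rw [Complex.div_natCast_re]
      simp only [psiC]
      field_simp
    · rw [Complex.div_natCast_im]
      simp only [psiC]
      field_simp
  rw [posC_eq, h1, dist_eq_norm, ← sub_div, norm_div, Complex.norm_natCast, div_le_iff₀ hn0,
    ← dist_eq_norm, mul_comm r (n : ℝ)]
  exact dist_psiC_le hx hy

end Pool.Agent.SixB
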