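import Mathlib

/-!
# First return maps and transpositions

`g = f * swap a b`. If the set `X` lies in one cycle of `f` and in one cycle of `g`, then the first
return maps of `f` and `g` to `X` are the same.
-/

set_option autoImplicit false

namespace Pool.Agent.SixB.Ord

open Function

variable {α : Type*}

/-- `n` is the first positive time at which `z` is in `Y`. -/
def Fst (f : α → α) (Y : Set α) (z : α) (n : ℕ) : Prop :=
  0 < n ∧ f^[n] z ∈ Y ∧ ∀ i, 0 < i → i < n → f^[i] z ∉ Y

theorem Fst.unique {f : α → α} {Y : Set α} {z : α} {n m : ℕ} (h : Fst f Y z n)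
    (h' : Fst f Y z m) : n = m := by
  rcases lt_trichotomy n m with h1 | h1 | h1
  · exact absurd h.2.1 (h'.2.2 n h.1 h1)
  · exact h1
  · exact absurd h'.2.1 (h.2.2 m h'.1 h1)

theorem exists_fst {f : α → α} {Y : Set α} {z : α} {p : ℕ} (hp : 0 < p) (h : f^[p] z ∈ Y) :
    ∃ n, Fst f Y z n ∧ n ≤ p := by
  classical
  have hex : ∃ n, 0 < n ∧ f^[n] z ∈ Y := ⟨p, hp, h⟩
  refine ⟨Nat.find hex, ⟨(Nat.find_spec hex).1, (Nat.find_spec hex).2, fun i hi hin hY => ?_⟩,
    Nat.find_min' hex ⟨hp, h⟩⟩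
  exact Nat.find_min hex hin ⟨hi, hY⟩

/-- The hypotheses on `f`, `g`, `a`, `b`. -/
structure Sw (f g : α → α) (a b : α) : Prop where
  ne : a ≠ b
  fi : Injective f
  gi : Injective g
  ga : g a = f b
  gb : g b = f a
  go : ∀ z, z ≠ a → z ≠ b → g z = f z

theorem Sw.symm {f g : α → α} {a b : α} (h : Sw f g a b) : Sw f g b a where
  ne := h.ne.symm
  fi := h.fi
  gi := h.gi
  ga := h.gb
  gb := h.ga
  go z h1 h2 := h.go z h2 h1

theorem Sw.rev {f g : α → α} {a b : α} (h : Sw f g a b) : Sw g f a b where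
  ne := h.ne
  fi := h.gi
  gi := h.fi
  ga := h.gb.symm
  gb := h.ga.symm
  go z h1 h2 := (h.go z h1 h2).symm

/-- Follow `f` as long as `a` and `b` are not met. -/
theorem Sw.follow {f g : α → α} {a b : α} (h : Sw f g a b) {z : α} {n : ℕ}
    (hn : ∀ i < n, f^[i] z ≠ a ∧ f^[i] z ≠ b) : ∀ i ≤ n, g^[i] z = f^[i] z := by
  intro i hi
  induction i with
  | zero => rfl
  | succ i ih =>
    rw [iterate_succ_apply', iterate_succ_apply', ih (by omega)]
    exact h.go _ (hn i (by omega)).1 (hn i (by omega)).2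

/-- From `a`, `g` follows the `f` orbit of `b`. -/
theorem Sw.follow_a {f g : α → α} {a b : α} (h : Sw f g a b) {n : ℕ}
    (hn : ∀ i, 0 < i → i < n → f^[i] b ≠ a ∧ f^[i] b ≠ b) :
    ∀ i, 0 < i → i ≤ n → g^[i] a = f^[i] b := by
  intro i hi hin
  induction i with
  | zero => omega
  | succ i ih =>
    rcases Nat.eq_zero_or_pos i with h0 | h0
    · subst h0
      simp only [zero_add, iterate_one]
      exact h.ga
    · rw [iterate_succ_apply', iterate_succ_apply', ih h0 (by omega)]
      exact h.go _ (hn i h0 (by omega)).1 (hn i h0 (by omega)).2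

theorem iterate_mul_period {f : α → α} {z : α} {p : ℕ} (h : f^[p] z = z) (k : ℕ) :
    f^[k * p] z = z := by
  induction k with
  | zero => simp
  | succ k ih => rw [Nat.succ_mul, iterate_add_apply, h, ih]

/-- The orbit of a periodic point comes back from every point. -/
theorem comes_back {f : α → α} {z w : α} {p n : ℕ} (hp : 0 < p) (h : f^[p] z = z)
    (hn : f^[n] z = w) : ∃ q, 0 < q ∧ f^[q] w = z := by
  have h1 : n < (n + 1) * p := lt_of_lt_of_le (Nat.lt_succ_self n) (Nat.le_mul_of_pos_right _ hp)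
  refine ⟨(n + 1) * p - n, by omega, ?_⟩
  rw [← hn, ← iterate_add_apply, Nat.sub_add_cancel h1.le, iterate_mul_period h]

/-- The case in which the `f` orbit of `x` meets `a` first. -/
private theorem key {f g : α → α} {a b : α} (h : Sw f g a b) {X : Set α}
    (hpf : ∀ z, ∃ p, 0 < p ∧ f^[p] z = z) (hpg : ∀ z, ∃ p, 0 < p ∧ g^[p] z = z)
    (hXf : ∀ x ∈ X, ∀ y ∈ X, ∃ n, f^[n] x = y) (hXg : ∀ x ∈ X, ∀ y ∈ X, ∃ n, g^[n] x = y)
    {x : α} (hx : x ∈ X) {n i₀ : ℕ} (hn : Fst f X x n) (hi₀ : i₀ < n)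
    (hmin : ∀ i < i₀, f^[i] x ≠ a ∧ f^[i] x ≠ b) (hia : f^[i₀] x = a) :
    ∃ m, Fst g X x m ∧ g^[m] x = f^[n] x := by
  have hfol := h.follow hmin
  have hga : g^[i₀] x = a := (hfol i₀ le_rfl).trans hia
  -- the orbit of `a`
  set N := n - i₀ with hN
  have hN0 : 0 < N := by omega
  have hnN : n = N + i₀ := by omega
  have hay : f^[N] a = f^[n] x := by rw [hnN, iterate_add_apply, hia]
  have haX : ∀ i, 0 < i → i < N → f^[i] a ∉ X := by
    intro i h1 h2
    have := hn.2.2 (i + i₀) (by omega) (by omega)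
    rwa [iterate_add_apply, hia] at this
  have hyX : f^[n] x ∈ X := hn.2.1
  -- times of `g` from `x`
  have hgx : ∀ i, g^[i + i₀] x = g^[i] a := fun i => by rw [iterate_add_apply, hga]
  have hbefore : ∀ i, 0 < i → i ≤ i₀ → g^[i] x ∉ X := by
    intro i h1 h2
    rw [hfol i h2]
    exact hn.2.2 i h1 (by omega)
  -- the orbit of `b`
  obtain ⟨pb, hpb, hpb'⟩ := hpf b
  obtain ⟨M, ⟨hM0, hMY, hMm⟩, -⟩ := exists_fst (Y := X ∪ {a, b}) hpb
    (show f^[pb] b ∈ X ∪ {a, b} by rw [hpb']; exact Or.inr (Or.inr rfl))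
  have hMX : ∀ i, 0 < i → i < M → f^[i] b ∉ X := fun i h1 h2 h3 => hMm i h1 h2 (Or.inl h3)
  have hMa : ∀ i, 0 < i → i < M → f^[i] b ≠ a ∧ f^[i] b ≠ b := fun i h1 h2 =>
    ⟨fun h3 => hMm i h1 h2 (Or.inr (Or.inl h3)), fun h3 => hMm i h1 h2 (Or.inr (Or.inr h3))⟩
  have hgo := h.follow_a hMa
  by_cases hwX : f^[M] b ∈ X
  · -- the first return of `g` is `w = f^[M] b`
    have hfst : Fst g X x (M + i₀) := by
      refine ⟨by omega, ?_, ?_⟩
      · rw [hgx, hgo M hM0 le_rfl]; exact hwX
      · intro i h1 h2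
        rcases le_or_gt i i₀ with h3 | h3
        · exact hbefore i h1 h3
        · obtain ⟨j, rfl⟩ : ∃ j, i = j + i₀ := ⟨i - i₀, by omega⟩
          rw [hgx, hgo j (by omega) (by omega)]
          exact hMX j (by omega) (by omega)
    refine ⟨M + i₀, hfst, ?_⟩
    rw [hgx, hgo M hM0 le_rfl]
    by_contra hne
    -- `b` is not between `a` and `y`
    have hbt : ∀ t, 0 < t → t < N → f^[t] a ≠ b := by
      intro t h1 h2 h3
      have h4 : f^[N - t] b = f^[n] x := by
        rw [← h3, ← iterate_add_apply, Nat.sub_add_cancel h2.le, hay]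
      have h5 : ∀ i, 0 < i → i < N - t → f^[i] b ∉ X := by
        intro i h6 h7
        rw [← h3, ← iterate_add_apply]
        exact haX (i + t) (by omega) (by omega)
      rcases lt_trichotomy M (N - t) with h6 | h6 | h6
      · exact h5 M hM0 h6 hwX
      · exact hne (h6 ▸ h4)
      · exact hMX (N - t) (by omega) h6 (h4 ▸ hyX)
    -- `b` is on the orbit of `a`
    obtain ⟨q, hq⟩ := hXf _ hyX _ hwX
    obtain ⟨q', hq'0, hq'⟩ := comes_back hpb hpb' (rfl : f^[M] b = f^[M] b)
    have hab : f^[q' + q + N] a = b := by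
      rw [iterate_add_apply, iterate_add_apply, hay, hq, hq']
    obtain ⟨t, ⟨ht0, ht, htm⟩, -⟩ := exists_fst (Y := {b}) (show 0 < q' + q + N by omega)
      (show f^[q' + q + N] a ∈ ({b} : Set α) from hab)
    have htb : f^[t] a = b := ht
    have htm' : ∀ i, 0 < i → i < t → f^[i] a ≠ b := fun i h1 h2 h3 => htm i h1 h2 h3
    have htN : N ≤ t := by
      by_contra hcon
      exact hbt t ht0 (by omega) htb
    -- the arc from `f a` to `b` is invariant
    have hinv : ∀ z, (∃ i, 0 < i ∧ i ≤ t ∧ f^[i] a = z) → ∃ i, 0 < i ∧ i ≤ t ∧ f^[i] a = g z := by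
      rintro z ⟨i, h1, h2, rfl⟩
      rcases h2.lt_or_eq with h3 | h3
      · have h4 : f^[i] a ≠ b := htm' i h1 h3
        have h5 : f^[i] a ≠ a := by
          intro h6
          have h7 : f^[t - i] a = b := by
            conv_lhs => rw [← h6]
            rw [← iterate_add_apply, Nat.sub_add_cancel h3.le, htb]
          exact htm' (t - i) (by omega) (by omega) h7
        exact ⟨i + 1, by omega, by omega, by rw [iterate_succ_apply', h.go _ h5 h4]⟩
      · rw [h3, htb, h.gb]
        exact ⟨1, one_pos, ht0, by rw [iterate_one]⟩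
    have hinv' : ∀ m z, (∃ i, 0 < i ∧ i ≤ t ∧ f^[i] a = z) →
        ∃ i, 0 < i ∧ i ≤ t ∧ f^[i] a = g^[m] z := by
      intro m
      induction m with
      | zero => intro z hz; exact hz
      | succ m ih =>
        intro z hz
        rw [iterate_succ_apply]
        exact ih _ (hinv z hz)
    obtain ⟨m, hm⟩ := hXg _ hyX _ hwX
    obtain ⟨i, h1, h2, h3⟩ := hinv' m _ ⟨N, hN0, htN, hay⟩
    rw [hm] at h3
    rcases le_or_gt i M with h4 | h4
    · have h5 : f^[i] a = f^[i] (f^[M - i] b) := by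
        rw [h3, ← iterate_add_apply, Nat.add_sub_cancel' h4]
      have h6 : a = f^[M - i] b := (h.fi.iterate i) h5
      rcases Nat.eq_zero_or_pos (M - i) with h7 | h7
      · rw [h7] at h6
        exact h.ne h6
      · exact (hMa (M - i) h7 (by omega)).1 h6.symm
    · have h5 : f^[M] (f^[i - M] a) = f^[M] b := by
        rw [← iterate_add_apply, Nat.add_sub_cancel' h4.le, h3]
      have h6 : f^[i - M] a = b := (h.fi.iterate M) h5
      exact htm' (i - M) (by omega) (by omega) h6
  · rcases hMY with h1 | h1 | h1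
    · exact absurd h1 hwX
    · -- the orbit of `a` under `g` does not meet `X`
      exfalso
      have hMab : f^[M] b = a := h1
      have haX' : a ∉ X := hMab ▸ hwX
      have hloop : g^[M] a = a := (hgo M hM0 le_rfl).trans hMab
      obtain ⟨px, hpx, hpx'⟩ := hpg x
      obtain ⟨s, -, hs⟩ := comes_back hpx hpx' hga
      have hsmod : g^[s] a = g^[s % M] a := by
        conv_lhs => rw [← Nat.mod_add_div s M, iterate_add_apply, Nat.mul_comm M,
          iterate_mul_period hloop]
      rw [hsmod] at hs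
      have hsM : s % M < M := Nat.mod_lt _ hM0
      rcases Nat.eq_zero_or_pos (s % M) with h2 | h2
      · rw [h2] at hs
        exact haX' (show a ∈ X by rw [show a = x from hs]; exact hx)
      · rw [hgo _ h2 hsM.le] at hs
        exact hMX _ h2 hsM (hs ▸ hx)
    · -- the orbit of `b` under `f` does not meet `X`
      have hMb : f^[M] b = b := h1
      have hbX : ∀ j, f^[j] b ∉ X := by
        intro j
        have h2 : f^[j] b = f^[j % M] b := by
          conv_lhs => rw [← Nat.mod_add_div j M, iterate_add_apply, Nat.mul_comm M,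
            iterate_mul_period hMb]
        rw [h2]
        rcases Nat.eq_zero_or_pos (j % M) with h3 | h3
        · rw [h3]
          exact hMb ▸ hwX
        · exact hMX _ h3 (Nat.mod_lt _ hM0)
      have hNab : ∀ i, 0 < i → i < N → f^[i] a ≠ b ∧ f^[i] a ≠ a := by
        intro i h2 h3
        constructor
        · intro h4
          apply hbX (N - i)
          rw [← h4, ← iterate_add_apply, Nat.sub_add_cancel h3.le, hay]
          exact hyX
        · intro h4
          apply haX (N - i) (by omega) (by omega)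
          have h5 : f^[N - i] a = f^[N] a := by
            conv_lhs => rw [← h4]
            rw [← iterate_add_apply, Nat.sub_add_cancel h3.le]
          rw [h5, hay]
          exact hyX
      have hgo' := h.symm.follow_a hNab
      have hgMa : g^[M] a = b := (hgo M hM0 le_rfl).trans hMb
      refine ⟨N + M + i₀, ⟨by omega, ?_, ?_⟩, ?_⟩
      · rw [hgx, iterate_add_apply, hgMa, hgo' N hN0 le_rfl, hay]
        exact hyX
      · intro i h2 h3
        rcases le_or_gt i i₀ with h4 | h4
        · exact hbefore i h2 h4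
        · obtain ⟨j, rfl⟩ : ∃ j, i = j + i₀ := ⟨i - i₀, by omega⟩
          rw [hgx]
          rcases le_or_gt j M with h5 | h5
          · rw [hgo j (by omega) h5]
            exact hbX j
          · obtain ⟨l, rfl⟩ : ∃ l, j = l + M := ⟨j - M, by omega⟩
            rw [iterate_add_apply, hgMa, hgo' l (by omega) (by omega)]
            exact haX l (by omega) (by omega)
      · rw [hgx, iterate_add_apply, hgMa, hgo' N hN0 le_rfl, hay]

/-- The first return maps agree. -/
theorem fst_swap {f g : α → α} {a b : α} (h : Sw f g a b) {X : Set α}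
    (hpf : ∀ z, ∃ p, 0 < p ∧ f^[p] z = z) (hpg : ∀ z, ∃ p, 0 < p ∧ g^[p] z = z)
    (hXf : ∀ x ∈ X, ∀ y ∈ X, ∃ n, f^[n] x = y) (hXg : ∀ x ∈ X, ∀ y ∈ X, ∃ n, g^[n] x = y)
    {x : α} (hx : x ∈ X) {n : ℕ} (hn : Fst f X x n) :
    ∃ m, Fst g X x m ∧ g^[m] x = f^[n] x := by
  classical
  by_cases hex : ∃ i, i < n ∧ (f^[i] x = a ∨ f^[i] x = b)
  · have h1 := Nat.find_spec hex
    have h2 : ∀ i < Nat.find hex, f^[i] x ≠ a ∧ f^[i] x ≠ b := by
      intro i hi
      have h3 := Nat.find_min hex hi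
      push Not at h3
      exact h3 (hi.trans h1.1)
    rcases h1.2 with h3 | h3
    · exact key h hpf hpg hXf hXg hx hn h1.1 h2 h3
    · exact key h.symm hpf hpg hXf hXg hx hn h1.1 (fun i hi => ⟨(h2 i hi).2, (h2 i hi).1⟩) h3
  · push Not at hex
    have h1 := h.follow hex
    refine ⟨n, ⟨hn.1, ?_, fun i h2 h3 => ?_⟩, h1 n le_rfl⟩
    · rw [h1 n le_rfl]; exact hn.2.1
    · rw [h1 i h3.le]; exact hn.2.2 i h2 h3

end Pool.Agent.SixB.Ord
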