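import Pool.Agent.Lib.SixB.S8Itin
import Pool.Agent.Lib.SixB.S8Ord
import Pool.Agent.Lib.MP_6bd702_z.Z001
import Pool.Agent.Lib.MP_6bd702_z.Z019

/-!
# Step 8: two nested configurations with the same outer corners outside a ball

If `T ⊆ T'` and the clusters of `u` in `T` and in `T'` have the same outer corners outside the ball
of radius `r` around `c`, then their outer perimeters are at distance at most `2 r + 2 / n`: the
common outer corners outside the ball are visited in the same cyclic order.
-/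

set_option autoImplicit false

namespace Pool.Agent.SixB

open Set Filter Topology MeasureTheory TopologicalSpace Function
open Pool.Agent.Perc Pool.Agent.PercD
open Pool.Agent.MP_6bd702.H23 (Ed)
open Pool.Agent.PercU (Cor vtx fce nxt nxtE qry rot adv)
open Pool.Agent.PercO (Oc mem_Oc boxE_sub outer_orbit nxt_mem_Oc)

namespace Ord

/-! ### Synchronisation -/

variable {α : Type*}

/-- The common itinerary of two maps with the same first return map. -/
theorem sync {f g : α → α} {X : Set α} {x₀ : α} (hx₀ : x₀ ∈ X)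
    (hpf : ∀ z, ∃ p, 0 < p ∧ f^[p] z = z)
    (hfg : ∀ x ∈ X, ∀ n, Fst f X x n → ∃ m, Fst g X x m ∧ g^[m] x = f^[n] x)
    (hg : 0 < minimalPeriod g x₀) :
    ∃ (m : ℕ) (a a' : ℕ → ℕ), 0 < m ∧ a 0 = 0 ∧ a' 0 = 0 ∧ a m = minimalPeriod f x₀ ∧
      a' m = minimalPeriod g x₀ ∧ ∀ i < m, a i < a (i + 1) ∧ a' i < a' (i + 1) ∧
        f^[a i] x₀ = g^[a' i] x₀ ∧ f^[a (i + 1)] x₀ = g^[a' (i + 1)] x₀ ∧
        (∀ j, a i < j → j < a (i + 1) → f^[j] x₀ ∉ X) ∧
        (∀ j, a' i < j → j < a' (i + 1) → g^[j] x₀ ∉ X) := by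
  classical
  -- the return times
  have hex : ∀ x : X, ∃ n m, Fst f X x n ∧ Fst g X x m ∧ g^[m] (x : α) = f^[n] x := by
    rintro ⟨x, hx⟩
    obtain ⟨p, hp, hp'⟩ := hpf x
    obtain ⟨n, hn, -⟩ := exists_fst (Y := X) hp (hp'.symm ▸ hx)
    obtain ⟨m, hm, hm'⟩ := hfg x hx n hn
    exact ⟨n, m, hn, hm, hm'⟩
  choose N M hN hM hNM using hex
  -- the first return map on `X`
  let R : X → X := fun x => ⟨f^[N x] x, (hN x).2.1⟩
  let xs : ℕ → X := fun i => R^[i] ⟨x₀, hx₀⟩
  let a : ℕ → ℕ := fun i => ∑ j ∈ Finset.range i, N (xs j)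
  let a' : ℕ → ℕ := fun i => ∑ j ∈ Finset.range i, M (xs j)
  have ha0 : a 0 = 0 := by simp [a]
  have ha0' : a' 0 = 0 := by simp [a']
  have has : ∀ i, a (i + 1) = a i + N (xs i) := fun i => Finset.sum_range_succ _ _
  have has' : ∀ i, a' (i + 1) = a' i + M (xs i) := fun i => Finset.sum_range_succ _ _
  have hxs : ∀ i, ((xs (i + 1) : X) : α) = f^[N (xs i)] (xs i) := by
    intro i
    change ((R^[i + 1] ⟨x₀, hx₀⟩ : X) : α) = _
    rw [iterate_succ_apply']
  have hxs' : ∀ i, ((xs (i + 1) : X) : α) = g^[M (xs i)] (xs i) := by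
    intro i
    rw [hxs, hNM]
  have hf : ∀ i, f^[a i] x₀ = xs i := by
    intro i
    induction i with
    | zero => rw [ha0]; rfl
    | succ i ih => rw [has, add_comm, iterate_add_apply, ih, hxs]
  have hg' : ∀ i, g^[a' i] x₀ = xs i := by
    intro i
    induction i with
    | zero => rw [ha0']; rfl
    | succ i ih => rw [has', add_comm, iterate_add_apply, ih, hxs']
  have hlt : ∀ i, a i < a (i + 1) := fun i => by rw [has]; have := (hN (xs i)).1; omega
  have hlt' : ∀ i, a' i < a' (i + 1) := fun i => by rw [has']; have := (hM (xs i)).1; omega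
  have hmono : StrictMono a := strictMono_nat_of_lt_succ hlt
  have hmono' : StrictMono a' := strictMono_nat_of_lt_succ hlt'
  have hbtw : ∀ i j, a i < j → j < a (i + 1) → f^[j] x₀ ∉ X := by
    intro i j h1 h2
    have h3 : j = (j - a i) + a i := by omega
    rw [h3, iterate_add_apply, hf]
    rw [has] at h2
    exact (hN (xs i)).2.2 _ (by omega) (by omega)
  have hbtw' : ∀ i j, a' i < j → j < a' (i + 1) → g^[j] x₀ ∉ X := by
    intro i j h1 h2
    have h3 : j = (j - a' i) + a' i := by omega
    rw [h3, iterate_add_apply, hg']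
    rw [has'] at h2
    exact (hM (xs i)).2.2 _ (by omega) (by omega)
  -- all the visits of `X` are among the times `a i`
  have hvis : ∀ (b : ℕ → ℕ) (h : α → α), b 0 = 0 → StrictMono b →
      (∀ i j, b i < j → j < b (i + 1) → h^[j] x₀ ∉ X) → ∀ j, h^[j] x₀ ∈ X → ∃ i, b i = j := by
    intro b h hb0 hb hbt j hj
    obtain ⟨i, h1, h2⟩ : ∃ i, b i ≤ j ∧ j < b (i + 1) := by
      have hex : ∃ i, j < b i := ⟨j + 1, lt_of_lt_of_le (Nat.lt_succ_self j) hb.le_apply⟩
      refine ⟨Nat.find hex - 1, ?_, ?_⟩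
      · rcases Nat.eq_zero_or_pos (Nat.find hex) with h3 | h3
        · rw [h3]; simp [hb0]
        · have := Nat.find_min hex (m := Nat.find hex - 1) (by omega)
          omega
      · have h3 : 0 < Nat.find hex := by
          rcases Nat.eq_zero_or_pos (Nat.find hex) with h4 | h4
          · have := Nat.find_spec hex
            rw [h4, hb0] at this
            omega
          · exact h4
        rw [Nat.sub_add_cancel h3]
        exact Nat.find_spec hex
    rcases h1.lt_or_eq with h3 | h3
    · exact absurd hj (hbt i j h3 h2)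
    · exact ⟨i, h3⟩
  obtain ⟨p, hp, hp'⟩ := hpf x₀
  have hpos : 0 < minimalPeriod f x₀ := IsPeriodicPt.minimalPeriod_pos hp hp'
  obtain ⟨m, hm⟩ := hvis a f ha0 hmono hbtw (minimalPeriod f x₀) (by
    rw [iterate_minimalPeriod]; exact hx₀)
  obtain ⟨m', hm'⟩ := hvis a' g ha0' hmono' hbtw' (minimalPeriod g x₀) (by
    rw [iterate_minimalPeriod]; exact hx₀)
  have hm0 : 0 < m := by
    rcases Nat.eq_zero_or_pos m with h1 | h1
    · rw [h1, ha0] at hm; omega
    · exact h1
  have hm0' : 0 < m' := by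
    rcases Nat.eq_zero_or_pos m' with h1 | h1
    · rw [h1, ha0'] at hm'; omega
    · exact h1
  have hxm : ((xs m : X) : α) = x₀ := by rw [← hf, hm, iterate_minimalPeriod]
  have hxm' : ((xs m' : X) : α) = x₀ := by rw [← hg', hm', iterate_minimalPeriod]
  have hmm : m = m' := by
    apply le_antisymm
    · have h1 : minimalPeriod f x₀ ≤ a m' := IsPeriodicPt.minimalPeriod_le
        (by have := hmono hm0'; omega) (show f^[a m'] x₀ = x₀ by rw [hf, hxm'])
      rw [← hm] at h1
      exact hmono.le_iff_le.1 h1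
    · have h1 : minimalPeriod g x₀ ≤ a' m := IsPeriodicPt.minimalPeriod_le
        (by have := hmono' hm0; omega) (show g^[a' m] x₀ = x₀ by rw [hg', hxm])
      rw [← hm'] at h1
      exact hmono'.le_iff_le.1 h1
  subst hmm
  exact ⟨m, a, a', hm0, ha0, ha0', hm, hm', fun i _ => ⟨hlt i, hlt' i, by rw [hf, hg'],
    by rw [hf, hg'], hbtw i, hbtw' i⟩⟩

end Ord

/-! ### Opening one edge -/

/-- Opening one edge exchanges the images of two corners. -/
theorem sw_insert {ω : Set Ed} {e : Ed} (he : e ∉ ω) :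
    ∃ a b : Cor, Ord.Sw (nxt ω) (nxt (insert e ω)) a b := by
  classical
  have key : ∀ a b : Cor, a ≠ b → qry a = e → qry b = e → adv a = rot b → adv b = rot a →
      (∀ z, qry z = e → z = a ∨ z = b) → Ord.Sw (nxt ω) (nxt (insert e ω)) a b := by
    intro a b hab ha hb h1 h2 h3
    refine ⟨hab, (nxtE ω).injective, (nxtE (insert e ω)).injective, ?_, ?_, ?_⟩
    · unfold nxt
      rw [if_pos (by rw [ha]; exact mem_insert _ _), if_neg (by rw [hb]; exact he), h1]
    · unfold nxt
      rw [if_pos (by rw [hb]; exact mem_insert _ _), if_neg (by rw [ha]; exact he), h2]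
    · intro z hza hzb
      have h4 : qry z ≠ e := fun h => by
        rcases h3 z h with h5 | h5
        · exact hza h5
        · exact hzb h5
      unfold nxt
      have h5 : (qry z ∈ insert e ω) = (qry z ∈ ω) := by
        rw [mem_insert_iff]
        exact propext ⟨fun h => h.resolve_left h4, Or.inr⟩
      by_cases h6 : qry z ∈ ω
      · rw [if_pos h6, if_pos (by rw [h5]; exact h6)]
      · rw [if_neg h6, if_neg (by rw [h5]; exact h6)]
  obtain ⟨x, y, d⟩ := e
  rcases d with _ | _
  · refine ⟨_, _, key (x, y, true, false) (x + 1, y, false, true) ?_ rfl ?_ ?_ ?_ ?_⟩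
    · intro h
      have := congrArg (fun k : Cor => k.1) h
      simp at this
    · simp [qry]
    · simp [adv, rot]
    · simp [adv, rot]
    · rintro ⟨x', y', _ | _, _ | _⟩ h <;>
        simp only [qry, Prod.mk.injEq, Bool.false_eq_true, Bool.true_eq_false, and_false, and_true,
          false_and, true_and, or_false, false_or, reduceCtorEq] at h ⊢ <;> omega
  · refine ⟨_, _, key (x, y, true, true) (x, y + 1, false, false) ?_ rfl ?_ ?_ ?_ ?_⟩
    · intro h
      have := congrArg (fun k : Cor => k.2.1) h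
      simp at this
    · simp [qry]
    · simp [adv, rot]
    · simp [adv, rot]
    · rintro ⟨x', y', _ | _, _ | _⟩ h <;>
        simp only [qry, Prod.mk.injEq, Bool.false_eq_true, Bool.true_eq_false, and_false, and_true,
          false_and, true_and, or_false, false_or, reduceCtorEq] at h ⊢ <;> omega

/-- Every corner is periodic. -/
theorem nxt_periodic {n : ℕ} {T : Finset Edg} (hT : T ⊆ boxE n) (k : Cor) :
    ∃ p, 0 < p ∧ (nxt (T : Set Ed))^[p] k = k :=
  ⟨_, minimalPeriod_pos hT (BoxAux.mem_clV_self T (vtx k)),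
    iterate_minimalPeriod (f := nxtE (T : Set Ed))⟩

/-- An outer corner of a cluster in `T` which is an outer corner in `T'` is an outer corner in every
configuration between `T` and `T'`. -/
theorem mem_Oc_between {T S T' : Finset Edg} (h1 : T ⊆ S) (h2 : S ⊆ T') {u : ℤ × ℤ} {k : Cor}
    (hk : k ∈ Oc (T : Set Ed) u) (hk' : k ∈ Oc (T' : Set Ed) u) : k ∈ Oc (S : Set Ed) u := by
  rw [mem_Oc] at hk hk' ⊢
  refine ⟨BoxAux.clV_mono h1 u hk.1, fun hb => hk'.2 (hb.subset ?_)⟩
  exact connectedComponentIn_mono _ (compl_subset_compl.2 (BoxAux.clS_mono h2 u))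

/-- The first return maps to the common outer corners agree. -/
theorem fst_between {n : ℕ} {T T' : Finset Edg} (h : T ⊆ T') (hT' : T' ⊆ boxE n) {u : ℤ × ℤ}
    {X : Set Cor} (hX : ∀ k ∈ X, k ∈ Oc (T : Set Ed) u ∧ k ∈ Oc (T' : Set Ed) u) :
    ∀ x ∈ X, ∀ j, Ord.Fst (nxt (T : Set Ed)) X x j →
      ∃ m, Ord.Fst (nxt (T' : Set Ed)) X x m ∧
        (nxt (T' : Set Ed))^[m] x = (nxt (T : Set Ed))^[j] x := by
  classical
  have horb : ∀ S : Finset Edg, T ⊆ S → S ⊆ T' → ∀ x ∈ X, ∀ y ∈ X,
      ∃ j, (nxt (S : Set Ed))^[j] x = y := by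
    intro S hS hS' x hx y hy
    exact outer_orbit (boxE_sub (hS'.trans hT'))
      (mem_Oc_between hS hS' (hX x hx).1 (hX x hx).2)
      (mem_Oc_between hS hS' (hX y hy).1 (hX y hy).2)
  have key : ∀ D : Finset Edg, D ⊆ T' \ T → ∀ x ∈ X, ∀ j, Ord.Fst (nxt (T : Set Ed)) X x j →
      ∃ m, Ord.Fst (nxt ((T ∪ D : Finset Edg) : Set Ed)) X x m ∧
        (nxt ((T ∪ D : Finset Edg) : Set Ed))^[m] x = (nxt (T : Set Ed))^[j] x := by
    intro D
    induction D using Finset.induction_on with
    | empty =>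
      intro _ x _ j hj
      rw [Finset.union_empty]
      exact ⟨j, hj, rfl⟩
    | insert e D he ih =>
      intro hD x hx j hj
      have hD' : D ⊆ T' \ T := (Finset.subset_insert e D).trans hD
      have heT : e ∈ T' \ T := hD (Finset.mem_insert_self e D)
      rw [Finset.mem_sdiff] at heT
      obtain ⟨m, hm, hm'⟩ := ih hD' x hx j hj
      have heS : e ∉ ((T ∪ D : Finset Edg) : Set Ed) := by
        rw [Finset.mem_coe, Finset.mem_union]
        rintro (h1 | h1)
        · exact heT.2 h1
        · exact he h1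
      have hs1 : T ∪ D ⊆ T' := Finset.union_subset h (hD'.trans Finset.sdiff_subset)
      have hs2 : T ∪ insert e D ⊆ T' := Finset.union_subset h (hD.trans Finset.sdiff_subset)
      have hins : ((T ∪ insert e D : Finset Edg) : Set Ed)
          = insert e ((T ∪ D : Finset Edg) : Set Ed) := by
        rw [Finset.union_insert, Finset.coe_insert]
      obtain ⟨a, b, hsw⟩ := sw_insert heS
      rw [← hins] at hsw
      obtain ⟨m', h3, h4⟩ := Ord.fst_swap hsw (nxt_periodic (hs1.trans hT'))
        (nxt_periodic (hs2.trans hT')) (horb _ Finset.subset_union_left hs1)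
        (horb _ Finset.subset_union_left hs2) hx hm
      exact ⟨m', h3, h4.trans hm'⟩
  have h1 := key (T' \ T) subset_rfl
  rwa [Finset.union_sdiff_of_subset h] at h1

/-! ### The distance of the curves -/

private theorem norm_toC_le (v w : ℤ × ℤ) (h : v = w ∨ (|v.1 - w.1| + |v.2 - w.2| ≤ 1)) :
    dist (toC v) (toC w) ≤ 1 := by
  rcases h with h | h
  · rw [h, dist_self]; exact zero_le_one
  · rw [dist_eq_norm]
    have h1 : toC v - toC w = ((v.1 - w.1 : ℤ) : ℂ) + ((v.2 - w.2 : ℤ) : ℂ) * Complex.I := by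
      unfold toC; push_cast; ring
    rw [h1]
    refine (norm_add_le _ _).trans ?_
    rw [norm_mul, Complex.norm_I, mul_one, Complex.norm_intCast, Complex.norm_intCast]
    have : ((|v.1 - w.1| + |v.2 - w.2| : ℤ) : ℝ) ≤ 1 := by exact_mod_cast h
    push_cast at this
    push_cast
    exact this

/-- One step of the corner walk moves the vertex by at most one. -/
theorem dist_vtx_nxt (ω : Set Ed) (k : Cor) : dist (toC (vtx (nxt ω k))) (toC (vtx k)) ≤ 1 := by
  classical
  apply norm_toC_le
  unfold nxt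
  by_cases h : qry k ∈ ω
  · rw [if_pos h]
    right
    obtain ⟨x, y, _ | _, _ | _⟩ := k <;> simp [adv, vtx]
  · rw [if_neg h, PercU.vtx_rot]
    exact Or.inl rfl

/-- Two nested configurations with the same outer corners outside a ball. -/
theorem dist_outerCurve_of_same' {n : ℕ} (hn : 0 < n) {T Tp : Finset Edg} (h : T ⊆ Tp)
    (hTp : Tp ⊆ boxE n) {u : ℤ × ℤ} {c : ℂ} {r : ℝ} (hr : 0 ≤ r)
    (hsame : ∀ k : Cor, r < dist (toC (vtx k) / n) c →
      ((vtx k ∈ clV T u ∧ Outer T u (fce k)) ↔ (vtx k ∈ clV Tp u ∧ Outer Tp u (fce k)))) :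
    dist (outerCurve n T u) (outerCurve n Tp u) ≤ 2 * (r + 1 / n) := by
  classical
  have hn0 : (0 : ℝ) < n := by exact_mod_cast hn
  have hT : T ⊆ boxE n := h.trans hTp
  have hstep : ∀ (ω : Set Ed) (k : Cor),
      dist (toC (vtx (nxt ω k)) / n) (toC (vtx k) / (n : ℂ)) ≤ 1 / n := by
    intro ω k
    rw [dist_eq_norm, ← sub_div, norm_div, Complex.norm_natCast]
    have := dist_vtx_nxt ω k
    rw [dist_eq_norm] at this
    exact div_le_div_of_nonneg_right this hn0.le
  set X : Set Cor := {k | k ∈ Oc (T : Set Ed) u ∧ k ∈ Oc (Tp : Set Ed) u ∧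
    r < dist (toC (vtx k) / n) c} with hXdef
  have hXT : ∀ k, k ∈ Oc (T : Set Ed) u → k ∉ X → dist (toC (vtx k) / n) c ≤ r := by
    intro k hk hkX
    by_contra hcon
    rw [not_le] at hcon
    exact hkX ⟨hk, mem_Oc.2 ((hsame k hcon).1 (mem_Oc.1 hk)), hcon⟩
  have hXT' : ∀ k, k ∈ Oc (Tp : Set Ed) u → k ∉ X → dist (toC (vtx k) / n) c ≤ r := by
    intro k hk hkX
    by_contra hcon
    rw [not_le] at hcon
    exact hkX ⟨mem_Oc.2 ((hsame k hcon).2 (mem_Oc.1 hk)), hk, hcon⟩
  have hpos : ∀ (ω : Set Ed) (k : Cor) (j : ℤ), 0 ≤ j →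
      posC n ω k j = toC (vtx ((nxt ω)^[j.toNat] k)) / n := by
    intro ω k j hj
    obtain ⟨i, rfl⟩ := Int.eq_ofNat_of_zero_le hj
    unfold posC
    rw [zpow_natCast, Int.toNat_natCast, PercO.iterate_nxt]
  have hiter : ∀ (S : Finset Edg) (k : Cor) (j : ℕ), k ∈ Oc (S : Set Ed) u →
      (nxt (S : Set Ed))^[j] k ∈ Oc (S : Set Ed) u := by
    intro S k j hk
    induction j with
    | zero => exact hk
    | succ j ih => rw [iterate_succ_apply']; exact nxt_mem_Oc ih
  rcases X.eq_empty_or_nonempty with hX0 | ⟨x₀, hx₀⟩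
  · -- everything is in the ball
    obtain ⟨k, hk1, hk2⟩ := exists_outer (u := u) hT
    obtain ⟨k', hk1', hk2'⟩ := exists_outer (u := u) hTp
    have hkO := mem_Oc.2 ⟨hk1, hk2⟩
    have hkO' := mem_Oc.2 ⟨hk1', hk2'⟩
    have hmp := minimalPeriod_pos hT hk1
    have hmp' := minimalPeriod_pos hTp hk1'
    refine dist_outerCurve_le_of_itin hT hTp hk1 hk2 hk1' hk2' one_pos
      (fun i => (i : ℤ) * (minimalPeriod (nxtE (T : Set Ed)) k : ℕ))
      (fun i => (i : ℤ) * (minimalPeriod (nxtE (Tp : Set Ed)) k' : ℕ)) ?_ ?_ ?_ ?_ (fun _ => c)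
      ?_ ?_
    · intro i hi
      obtain rfl : i = 0 := by omega
      push_cast; omega
    · push_cast; ring
    · intro i hi
      obtain rfl : i = 0 := by omega
      push_cast; omega
    · push_cast; ring
    · intro i hi j h1 _
      obtain rfl : i = 0 := by omega
      have hj : 0 ≤ j := by simpa using h1
      rw [hpos _ _ _ hj]
      have := hXT _ (hiter T k j.toNat hkO) (by rw [hX0]; exact notMem_empty _)
      have h3 : (0 : ℝ) ≤ 1 / n := by positivity
      linarith
    · intro i hi j h1 _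
      obtain rfl : i = 0 := by omega
      have hj : 0 ≤ j := by simpa using h1
      rw [hpos _ _ _ hj]
      have := hXT' _ (hiter Tp k' j.toNat hkO') (by rw [hX0]; exact notMem_empty _)
      have h3 : (0 : ℝ) ≤ 1 / n := by positivity
      linarith
  · -- synchronisation
    have hk := mem_Oc.1 hx₀.1
    have hk' := mem_Oc.1 hx₀.2.1
    have hmp' := minimalPeriod_pos hTp hk'.1
    obtain ⟨m, a, a', hm, ha0, ha0', ham, ham', hall⟩ := Ord.sync hx₀ (nxt_periodic hT)
      (fst_between (u := u) h hTp fun k hk => ⟨hk.1, hk.2.1⟩) hmp'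
    have h1n : (0 : ℝ) ≤ 1 / n := by positivity
    set P : ℕ → ℂ := fun j => toC (vtx ((nxt (T : Set Ed))^[j] x₀)) / n with hP
    set P' : ℕ → ℂ := fun j => toC (vtx ((nxt (Tp : Set Ed))^[j] x₀)) / n with hP'
    have hPs : ∀ j, dist (P (j + 1)) (P j) ≤ 1 / n := by
      intro j
      simp only [hP, iterate_succ_apply']
      exact hstep _ _
    have hPs' : ∀ j, dist (P' (j + 1)) (P' j) ≤ 1 / n := by
      intro j
      simp only [hP', iterate_succ_apply']
      exact hstep _ _
    -- the positions on the arcs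
    have hin : ∀ i < m, ∀ j, a i < j → j < a (i + 1) → dist (P j) c ≤ r := by
      intro i hi j h1 h2
      exact hXT _ (hiter T x₀ j hx₀.1) ((hall i hi).2.2.2.2.1 j h1 h2)
    have hin' : ∀ i < m, ∀ j, a' i < j → j < a' (i + 1) → dist (P' j) c ≤ r := by
      intro i hi j h1 h2
      exact hXT' _ (hiter Tp x₀ j hx₀.2.1) ((hall i hi).2.2.2.2.2 j h1 h2)
    have heq : ∀ i < m, P (a i) = P' (a' i) ∧ P (a (i + 1)) = P' (a' (i + 1)) := by
      intro i hi
      simp only [hP, hP']
      rw [(hall i hi).2.2.1, (hall i hi).2.2.2.1]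
      exact ⟨rfl, rfl⟩
    -- the ends of an arc which is not direct
    have hends : ∀ i < m, ¬(a (i + 1) = a i + 1 ∧ a' (i + 1) = a' i + 1) →
        dist (P (a i)) c ≤ r + 1 / n ∧ dist (P (a (i + 1))) c ≤ r + 1 / n := by
      intro i hi hnd
      have hlt := (hall i hi).1
      have hlt' := (hall i hi).2.1
      by_cases hd : a (i + 1) = a i + 1
      · have hd' : a' i + 1 < a' (i + 1) := by
          by_contra hcon
          exact hnd ⟨hd, by omega⟩
        have e1 := hin' i hi (a' i + 1) (by omega) hd'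
        have e2 := hPs' (a' i)
        have e3 := hin' i hi (a' (i + 1) - 1) (by omega) (by omega)
        have e4 := hPs' (a' (i + 1) - 1)
        rw [Nat.sub_add_cancel (by omega)] at e4
        rw [(heq i hi).1, (heq i hi).2]
        have t1 := dist_triangle_left (P' (a' i)) c (P' (a' i + 1))
        have t2 := dist_triangle (P' (a' (i + 1))) (P' (a' (i + 1) - 1)) c
        constructor <;> linarith
      · have e1 := hin i hi (a i + 1) (by omega) (by omega)
        have e2 := hPs (a i)
        have e3 := hin i hi (a (i + 1) - 1) (by omega) (by omega)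
        have e4 := hPs (a (i + 1) - 1)
        rw [Nat.sub_add_cancel (by omega)] at e4
        have t1 := dist_triangle_left (P (a i)) c (P (a i + 1))
        have t2 := dist_triangle (P (a (i + 1))) (P (a (i + 1) - 1)) c
        constructor <;> linarith
    refine dist_outerCurve_le_of_itin hT hTp hk.1 hk.2 hk'.1 hk'.2 hm (fun i => (a i : ℤ))
      (fun i => (a' i : ℤ)) ?_ ?_ ?_ ?_
      (fun i => if a (i + 1) = a i + 1 ∧ a' (i + 1) = a' i + 1 then P (a i) else c) ?_ ?_
    · intro i hi
      exact_mod_cast (hall i hi).1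
    · simp only [ha0, ham]
      push_cast
      rw [zero_add]
      rfl
    · intro i hi
      exact_mod_cast (hall i hi).2.1
    · simp only [ha0', ham']
      push_cast
      rw [zero_add]
      rfl
    · intro i hi j h1 h2
      have hj0 : 0 ≤ j := by
        have : (0 : ℤ) ≤ (a i : ℤ) := by positivity
        linarith
      obtain ⟨j, rfl⟩ := Int.eq_ofNat_of_zero_le hj0
      rw [hpos _ _ _ hj0, Int.toNat_natCast]
      change dist (P j) _ ≤ _
      have h1' : a i ≤ j := by exact_mod_cast h1
      have h2' : j ≤ a (i + 1) := by exact_mod_cast h2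
      by_cases hd : a (i + 1) = a i + 1 ∧ a' (i + 1) = a' i + 1
      · rw [if_pos hd]
        rcases h1'.lt_or_eq with h3 | h3
        · obtain rfl : j = a i + 1 := by omega
          have := hPs (a i)
          linarith
        · rw [← h3, dist_self]
          linarith
      · rw [if_neg hd]
        have he := hends i hi hd
        rcases h1'.lt_or_eq with h3 | h3
        · rcases h2'.lt_or_eq with h4 | h4
          · have := hin i hi j h3 h4
            linarith
          · rw [h4]; exact he.2
        · rw [← h3]; exact he.1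
    · intro i hi j h1 h2
      have hj0 : 0 ≤ j := by
        have : (0 : ℤ) ≤ (a' i : ℤ) := by positivity
        linarith
      obtain ⟨j, rfl⟩ := Int.eq_ofNat_of_zero_le hj0
      rw [hpos _ _ _ hj0, Int.toNat_natCast]
      change dist (P' j) _ ≤ _
      have h1' : a' i ≤ j := by exact_mod_cast h1
      have h2' : j ≤ a' (i + 1) := by exact_mod_cast h2
      by_cases hd : a (i + 1) = a i + 1 ∧ a' (i + 1) = a' i + 1
      · rw [if_pos hd, (heq i hi).1]
        rcases h1'.lt_or_eq with h3 | h3
        · obtain rfl : j = a' i + 1 := by omega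
          have := hPs' (a' i)
          linarith
        · rw [← h3, dist_self]
          linarith
      · rw [if_neg hd]
        have he := hends i hi hd
        rw [(heq i hi).1, (heq i hi).2] at he
        rcases h1'.lt_or_eq with h3 | h3
        · rcases h2'.lt_or_eq with h4 | h4
          · have := hin' i hi j h3 h4
            linarith
          · rw [h4]; exact he.2
        · rw [← h3]; exact he.1

/-- Two nested configurations with the same outer corners outside a ball. -/
theorem dist_outerCurve_of_same {n : ℕ} (hn : 0 < n) {T Tp : Finset Edg} (h : T ⊆ Tp)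
    (hTp : Tp ⊆ boxE n) {u : ℤ × ℤ} (hu : u ∈ Box n) {c : ℂ} {r : ℝ} (hr : 0 ≤ r)
    (hsame : ∀ k : Cor, r < dist (toC (vtx k) / n) c →
      ((vtx k ∈ clV T u ∧ Outer T u (fce k)) ↔ (vtx k ∈ clV Tp u ∧ Outer Tp u (fce k)))) :
    dist (outerCurve n T u) (outerCurve n Tp u) ≤ 2 * r + 4 / n := by
  have h1 := dist_outerCurve_of_same' hn h hTp hr hsame
  have h2 : (0 : ℝ) ≤ 1 / n := by positivity
  have h3 : (4 : ℝ) / n = 4 * (1 / n) := by ring
  rw [h3]
  linarith

end Pool.Agent.SixB
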