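import Pool.Agent.Lib.SixB.S8Curve
import Pool.Agent.Lib.SixB.S8OrdCurve
import Pool.Agent.Lib.SixB.S8Dict
import Pool.Agent.Lib.SixB.S8ScanE
import Pool.Agent.Lib.SixB.S8ScanV

/-!
# Step 8: the curve output of one needle step

The record of a needle step contains the coarse tips `z₀, z₁, …` of the moves (in the units of the
grid of mesh `n / K`) and the coarse base. The output is the closed polygon through the tips, if one of
them is at distance more than `3 r / 2` from the base.

* `dist_polyLoop_weak`, `dist_outer`: if the corner walk stays near the tip number `i` between the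
  times `t i` and `t (i + 1)` (moves of length `0` are allowed) then the polygon is close to the outer
  perimeter.
* `exists_far_corner`, `exists_far_time`: the distance from the base is attained on the walk.
* `outF`, `outF_some`, `outF_close`: the two properties of the output in `RecordScan`.
* `near_grid`: the tips as fixed points of the plane.
-/

set_option autoImplicit false

namespace Pool.Agent.SixB.Out

open Set Filter Topology MeasureTheory TopologicalSpace
open Pool.Agent.Perc Pool.Agent.PercD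
open Pool.Agent.MP_6bd702.H23 Pool.Agent.MP_6bd702.H60
open Pool.Agent.PercU (Cor vtx fce nxt nxtE qry)
open Pool.Agent.PercO (Oc mem_Oc boxE_sub outer_orbit clV_eq finite_Kc vtx_nxt_mem)
open Pool.Agent.PercX60 (gV)
open Pool.Agent.SixB.Rule

/-! ### Closed polygons -/

/-- A closed polygon stays in a ball which contains its vertices. -/
theorem poly_ball {V : ℤ → ℂ} {a b : ℤ} {z : ℂ} {ε : ℝ}
    (h : ∀ j, a ≤ j → j ≤ b → dist (V j) z ≤ ε) {y : ℝ} (hy : y ∈ Icc (a : ℝ) b) :
    dist (poly V y) z ≤ ε := by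
  rcases hy.2.lt_or_eq with hlt | heq
  · have h1 : a ≤ ⌊y⌋ := Int.le_floor.2 hy.1
    have h2 : ⌊y⌋ < b := Int.floor_lt.2 hlt
    have h3 := h ⌊y⌋ h1 (by omega)
    have h4 := h (⌊y⌋ + 1) (by omega) (by omega)
    have h5 : poly V y ∈ segment ℝ (V ⌊y⌋) (V (⌊y⌋ + 1)) := poly_mem_segment V y
    exact (convex_closedBall z ε).segment_subset h3 h4 h5
  · rw [heq, poly_int]
    refine h b ?_ le_rfl
    have h1 : (a : ℝ) ≤ b := by rw [← heq]; exact hy.1
    exact_mod_cast h1

/-- The closed polygon through coarse points, stop times which are not strictly increasing. -/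
theorem dist_polyLoop_weak {V X : ℤ → ℂ} {p m : ℕ} {hV : ∀ j, V (j + p) = V j}
    {hX : ∀ j, X (j + m) = X j} (hp : 0 < p) (hm : 0 < m) {t : ℕ → ℤ}
    (ht : ∀ i < m, t i ≤ t (i + 1)) (htm : t m = t 0 + p) {ε δ : ℝ} (hδ : 0 ≤ δ)
    (hstep : ∀ j, dist (V (j + 1)) (V j) ≤ δ)
    (h : ∀ i < m, ∀ j, t i ≤ j → j ≤ t (i + 1) → dist (V j) (X i) ≤ ε) :
    dist (polyLoop V p hV) (polyLoop X m hX) ≤ 2 * (2 * ε + δ) := by
  have hε : 0 ≤ ε := dist_nonneg.trans (h 0 hm (t 0) le_rfl (ht 0 hm))
  have hp0 : (0 : ℝ) < p := by exact_mod_cast hp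
  have hm0 : (0 : ℝ) < m := by exact_mod_cast hm
  have hp1 : (0 : ℝ) < (p : ℝ) + 1 := by positivity
  -- the times are between `t 0` and `t 0 + p`
  have hmono : ∀ i j, i ≤ j → j ≤ m → t i ≤ t j := by
    intro i j hij
    induction j, hij using Nat.le_induction with
    | base => intro _; exact le_rfl
    | succ j hij ih => intro hj; exact (ih (by omega)).trans (ht j (by omega))
  set θ : ℝ := 1 / ((p : ℝ) + 1) with hθ
  have hθ0 : 0 < θ := by positivity
  have hθ1 : θ < 1 := by rw [hθ, div_lt_one hp1]; linarith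
  have hθp : θ * p ≤ 1 := by rw [hθ, one_div, inv_mul_le_iff₀ hp1]; linarith
  set u : ℕ → ℝ := fun i => (1 - θ) * t i + θ * (t 0 + p * (i / m)) with hu
  have hclose : ∀ i, i ≤ m → |u i - t i| ≤ 1 := by
    intro i hi
    have h1 : (t 0 : ℝ) ≤ t i := by exact_mod_cast hmono 0 i (Nat.zero_le _) hi
    have h2 : (t i : ℝ) ≤ t 0 + p := by
      have := hmono i m hi le_rfl
      rw [htm] at this
      exact_mod_cast this
    have h3 : (0 : ℝ) ≤ (i : ℝ) / m := by positivity
    have h4 : (i : ℝ) / m ≤ 1 := by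
      rw [div_le_one hm0]
      exact_mod_cast hi
    have e : u i - t i = θ * ((t 0 + p * (i / m)) - t i) := by rw [hu]; ring
    have h5 : (p : ℝ) * (i / m) ≤ p := by nlinarith
    have h6 : 0 ≤ (p : ℝ) * (i / m) := by positivity
    rw [e, abs_mul, abs_of_pos hθ0]
    refine le_trans (mul_le_mul_of_nonneg_left ?_ hθ0.le) hθp
    rw [abs_le]
    constructor <;> linarith
  refine Loop.dist_le_of_itin hm (fun i => u i / p) (fun i => (i : ℝ) / m) ?_ ?_ ?_ ?_
    (fun i => X i) ?_ ?_
  · intro i hi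
    refine div_lt_div_of_pos_right ?_ hp0
    have h1 : (t i : ℝ) ≤ t (i + 1) := by exact_mod_cast ht i hi
    have h2 : (i : ℝ) / m < ((i + 1 : ℕ) : ℝ) / m := by
      refine div_lt_div_of_pos_right ?_ hm0
      push_cast
      linarith
    simp only [hu]
    have h3 : θ * ((t 0 : ℝ) + p * (i / m)) < θ * (t 0 + p * (((i + 1 : ℕ) : ℝ) / m)) := by
      refine mul_lt_mul_of_pos_left ?_ hθ0
      have := mul_lt_mul_of_pos_left h2 hp0
      linarith
    have h4 : (1 - θ) * (t i : ℝ) ≤ (1 - θ) * t (i + 1) :=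
      mul_le_mul_of_nonneg_left h1 (by linarith)
    linarith
  · simp only [hu, htm]
    have e1 : (m : ℝ) / m = 1 := div_self hm0.ne'
    push_cast
    rw [e1, zero_div, div_add_one hp0.ne']
    congr 1
    ring
  · intro i _
    refine div_lt_div_of_pos_right ?_ hm0
    push_cast
    linarith
  · push_cast
    rw [zero_div, zero_add, div_self hm0.ne']
  · intro i hi x hx
    rw [polyLoop_f]
    have h1 := hclose i (by omega)
    have h2 := hclose (i + 1) (by omega)
    rw [abs_le] at h1 h2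
    have h3 : u i ≤ p * x := by
      have := (div_le_iff₀ hp0).1 hx.1
      rwa [mul_comm] at this
    have h4 : (p : ℝ) * x ≤ u (i + 1) := by
      have := (le_div_iff₀ hp0).1 hx.2
      rwa [mul_comm] at this
    refine poly_ball (a := t i - 1) (b := t (i + 1) + 1) ?_ ?_
    · intro j hj hj'
      have hti := ht i hi
      rcases lt_trichotomy j (t i) with h5 | h5 | h5
      · have e : j = t i - 1 := by omega
        subst e
        have h6 := hstep (t i - 1)
        rw [sub_add_cancel, dist_comm] at h6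
        have h7 := h i hi (t i) le_rfl hti
        have := dist_triangle (V (t i - 1)) (V (t i)) (X i)
        linarith
      · have := h i hi j (by omega) (by omega)
        linarith
      · by_cases h6 : j ≤ t (i + 1)
        · have := h i hi j (by omega) h6
          linarith
        · have e : j = t (i + 1) + 1 := by omega
          subst e
          have h6 := hstep (t (i + 1))
          have h7 := h i hi (t (i + 1)) hti le_rfl
          have := dist_triangle (V (t (i + 1) + 1)) (V (t (i + 1))) (X i)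
          linarith
    · push_cast
      constructor <;> linarith
  · intro i hi x hx
    rw [polyLoop_f]
    have h3 : (i : ℝ) ≤ m * x := by
      have := (div_le_iff₀ hm0).1 hx.1
      rwa [mul_comm] at this
    have h4 : (m : ℝ) * x ≤ ((i + 1 : ℕ) : ℝ) := by
      have := (le_div_iff₀ hm0).1 hx.2
      rwa [mul_comm] at this
    refine poly_ball (a := i) (b := (i : ℤ) + 1) ?_ ⟨by exact_mod_cast h3, by push_cast at h4 ⊢; exact h4⟩
    intro j hj hj'
    rcases (by omega : j = i ∨ j = (i : ℤ) + 1) with rfl | rfl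
    · rw [dist_self]
      positivity
    · have h5 := h i hi (t (i + 1)) (ht i hi) le_rfl
      have h6 : dist (V (t (i + 1))) (X ((i : ℤ) + 1)) ≤ ε := by
        by_cases hi' : i + 1 < m
        · exact_mod_cast h (i + 1) hi' (t (i + 1)) le_rfl (ht (i + 1) hi')
        · have e : i + 1 = m := by omega
          have e' : ((i : ℤ) + 1) = 0 + (m : ℤ) := by omega
          rw [e, htm, e', hX, hV]
          exact_mod_cast h 0 hm (t 0) le_rfl (ht 0 hm)
      have := dist_triangle_left (X ((i : ℤ) + 1)) (X i) (V (t (i + 1)))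
      linarith

/-- The closed polygon through the coarse tips as a curve. -/
noncomputable def lC (L : List ℂ) : Curve := SeparationQuotient.mk (listLoop L)

theorem dist_vtx_step {n : ℕ} (hn : 0 < n) (T : Set Ed) (k : Cor) (j : ℤ) :
    dist (posC n T k (j + 1)) (posC n T k j) ≤ 1 / n := by
  have hn0 : (0 : ℝ) < n := by exact_mod_cast hn
  have e : (nxtE T ^ (j + 1)) k = nxt T ((nxtE T ^ j) k) := by
    rw [add_comm, zpow_add, zpow_one, Equiv.Perm.mul_apply]
    rfl
  unfold posC
  rw [e, dist_eq_norm, ← sub_div, norm_div, Complex.norm_natCast]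
  have := dist_vtx_nxt T ((nxtE T ^ j) k)
  rw [dist_eq_norm] at this
  exact div_le_div_of_nonneg_right this hn0.le

/-- **The polygon through the tips is close to the outer perimeter.** -/
theorem dist_outer {n : ℕ} (hn : 0 < n) {T : Finset Edg} (hT : T ⊆ boxE n) {v : ℤ × ℤ} {k : Cor}
    (hk : vtx k ∈ clV T v) (hk' : Outer T v (fce k)) {L : List ℂ} (hL : 0 < L.length)
    {t : ℕ → ℕ} (h0 : t 0 = 0) (ht : ∀ i < L.length, t i ≤ t (i + 1))
    (hp : t L.length = Function.minimalPeriod (nxtE (T : Set Ed)) k) {ε : ℝ}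
    (h : ∀ i < L.length, ∀ j : ℕ, t i ≤ j → j ≤ t (i + 1) →
      dist (toC (vtx ((nxt (T : Set Ed))^[j] k)) / n) (L.getD i 0) ≤ ε) :
    dist (lC L) (outerCurve n T v) ≤ 4 * ε + 2 / n := by
  have hn0 : (0 : ℝ) < n := by exact_mod_cast hn
  have h1 := dist_outerLoop_cornerLoop (n := n) hT hk hk'
  have h2 : dist (cornerLoop n (T : Set Ed) k) (listLoop L) ≤ 2 * (2 * ε + 1 / n) := by
    refine dist_polyLoop_weak (minimalPeriod_pos hT hk) hL (t := fun i => (t i : ℤ))
      (fun i hi => by exact_mod_cast ht i hi) (by simp only [h0, hp]; push_cast; ring) (by positivity)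
      (dist_vtx_step hn _ _) ?_
    intro i hi j hj hj'
    obtain ⟨l, rfl⟩ := Int.eq_ofNat_of_zero_le (le_trans (Int.natCast_nonneg _) hj)
    have h3 := h i hi l (by exact_mod_cast hj) (by exact_mod_cast hj')
    have e : posC n (T : Set Ed) k l = toC (vtx ((nxt (T : Set Ed))^[l] k)) / n := by
      unfold posC
      rw [zpow_natCast, ← Equiv.Perm.iterate_eq_pow]
      rfl
    rw [perL_nat hi, e]
    exact h3
  unfold lC outerCurve
  rw [SeparationQuotient.dist_mk]
  have h3 := dist_triangle (listLoop L) (cornerLoop n (T : Set Ed) k) (outerLoop n T v)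
  rw [dist_comm (listLoop L) (cornerLoop n (T : Set Ed) k),
    dist_comm (cornerLoop n (T : Set Ed) k) (outerLoop n T v)] at h3
  have e : 2 * (2 * ε + 1 / (n : ℝ)) = 4 * ε + 2 / n := by ring
  linarith

/-! ### Far corners -/

/-- The cluster lies in the ball around `v` through its farthest vertex. -/
theorem clS_sub_ball {T : Finset Edg} {v : ℤ × ℤ} {c : ℂ} {D : ℝ}
    (h : ∀ u ∈ clV T v, dist (toC u) c ≤ D) : clS T v ⊆ Metric.closedBall c D := by
  intro z hz
  unfold clS at hz
  rcases hz with ⟨u, hu, rfl⟩ | hz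
  · exact h u hu
  · simp only [mem_iUnion] at hz
    obtain ⟨e, he, het, hz⟩ := hz
    have hhd : hd e ∈ clV T v := het.tail ⟨e, he, Or.inl ⟨rfl, rfl⟩⟩
    exact (convex_closedBall c D).segment_subset (h _ het) (h _ hhd) hz

/-- The centre of the outward face at a farthest vertex is in the unbounded component. -/
theorem outer_far {T : Finset Edg} {v f : ℤ × ℤ} {c : ℂ} {D : ℝ} (hD : 0 ≤ D)
    (h : ∀ u ∈ clV T v, dist (toC u) c ≤ D) (hf : D < dist (ctr f) c) : Outer T v f := by
  intro hb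
  set w := ctr f - c with hw
  have hwn : D < ‖w‖ := by rw [hw, ← dist_eq_norm]; exact hf
  have hw0 : 0 < ‖w‖ := hD.trans_lt hwn
  set R : Set ℂ := (fun s : ℝ => c + (1 + s) • w) '' Ici 0 with hR
  have hconn : IsPreconnected R := by
    refine (convex_Ici (0 : ℝ)).isPreconnected.image _ ?_
    fun_prop
  have hmem : ctr f ∈ R := ⟨0, mem_Ici.2 le_rfl, by simp [hw]⟩
  have hsub : R ⊆ (clS T v)ᶜ := by
    rintro z ⟨s, hs, rfl⟩ hz
    have h1 := clS_sub_ball h hz
    rw [Metric.mem_closedBall, dist_eq_norm] at h1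
    have e : c + (1 + s) • w - c = (1 + s) • w := by ring
    simp only at h1
    rw [e, norm_smul, Real.norm_eq_abs, abs_of_nonneg (by linarith [mem_Ici.1 hs])] at h1
    have : ‖w‖ ≤ (1 + s) * ‖w‖ := by nlinarith [mem_Ici.1 hs]
    linarith
  have hin := hconn.subset_connectedComponentIn hmem hsub
  have hbR := hb.subset hin
  obtain ⟨B, hB⟩ := (Metric.isBounded_iff_subset_closedBall c).1 hbR
  have h2 := hB ⟨|B| / ‖w‖, mem_Ici.2 (by positivity), rfl⟩
  rw [Metric.mem_closedBall, dist_eq_norm] at h2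
  simp only at h2
  have e : c + (1 + |B| / ‖w‖) • w - c = (1 + |B| / ‖w‖) • w := by ring
  rw [e, norm_smul, Real.norm_eq_abs, abs_of_nonneg (by positivity)] at h2
  have h3 : (1 + |B| / ‖w‖) * ‖w‖ = ‖w‖ + |B| := by
    rw [add_mul, one_mul, div_mul_cancel₀ _ hw0.ne']
  rw [h3] at h2
  have := le_abs_self B
  linarith

/-- There is an outer corner at least as far from `v` as a given vertex of the cluster. -/
theorem exists_far_corner {n : ℕ} {T : Finset Edg} (hT : T ⊆ boxE n) {v u : ℤ × ℤ}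
    (hu : u ∈ clV T v) : ∃ k : Cor, vtx k ∈ clV T v ∧ Outer T v (fce k) ∧
      dist (toC u) (toC v) ≤ dist (toC (vtx k)) (toC v) := by
  classical
  have hfin : (clV T v).Finite := by
    rw [clV_eq]
    exact finite_Kc (boxE_sub hT)
  obtain ⟨w, hw, hmax⟩ := hfin.exists_maximalFor (fun u => dist (toC u) (toC v)) _ ⟨u, hu⟩
  have hmax' : ∀ u ∈ clV T v, dist (toC u) (toC v) ≤ dist (toC w) (toC v) := by
    intro u hu
    rcases le_total (dist (toC u) (toC v)) (dist (toC w) (toC v)) with h | h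
    · exact h
    · exact hmax hu h
  refine ⟨(w.1, w.2, decide (v.1 ≤ w.1), decide (v.2 ≤ w.2)), hw, ?_, hmax' u hu⟩
  refine outer_far dist_nonneg hmax' ?_
  obtain ⟨w1, w2⟩ := w
  obtain ⟨v1, v2⟩ := v
  have key : ∀ (f : ℤ × ℤ), dist (toC (w1, w2)) (toC (v1, v2)) < dist (ctr f) (toC (v1, v2)) ↔
      ((w1 : ℝ) - v1) ^ 2 + ((w2 : ℝ) - v2) ^ 2 <
        ((f.1 : ℝ) + 1 / 2 - v1) ^ 2 + ((f.2 : ℝ) + 1 / 2 - v2) ^ 2 := by
    intro f
    rw [Complex.dist_eq_re_im, Complex.dist_eq_re_im, Real.sqrt_lt_sqrt_iff (by positivity)]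
    simp only [toC, ctr, Complex.add_re, Complex.add_im, Complex.mul_re, Complex.mul_im,
      Complex.intCast_re, Complex.intCast_im, Complex.I_re, Complex.I_im]
    norm_num
  rw [key]
  simp only [fce, decide_eq_true_eq]
  by_cases h1 : v1 ≤ w1 <;> by_cases h2 : v2 ≤ w2 <;> simp only [h1, h2, if_true, if_false]
  · have k1 : (v1 : ℝ) ≤ w1 := by exact_mod_cast h1
    have k2 : (v2 : ℝ) ≤ w2 := by exact_mod_cast h2
    nlinarith
  · have k1 : (v1 : ℝ) ≤ w1 := by exact_mod_cast h1
    have k2 : (w2 : ℝ) + 1 ≤ v2 := by exact_mod_cast (by omega : w2 + 1 ≤ v2)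
    push_cast
    nlinarith
  · have k1 : (w1 : ℝ) + 1 ≤ v1 := by exact_mod_cast (by omega : w1 + 1 ≤ v1)
    have k2 : (v2 : ℝ) ≤ w2 := by exact_mod_cast h2
    push_cast
    nlinarith
  · have k1 : (w1 : ℝ) + 1 ≤ v1 := by exact_mod_cast (by omega : w1 + 1 ≤ v1)
    have k2 : (w2 : ℝ) + 1 ≤ v2 := by exact_mod_cast (by omega : w2 + 1 ≤ v2)
    push_cast
    nlinarith

/-- The walk reaches the distance of every vertex of the cluster. -/
theorem exists_far_time {n : ℕ} {T : Finset Edg} (hT : T ⊆ boxE n) {v u : ℤ × ℤ}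
    (hu : u ∈ clV T v) {k : Cor} (hk : vtx k ∈ clV T v) (hk' : Outer T v (fce k)) :
    ∃ j < Function.minimalPeriod (nxtE (T : Set Ed)) k,
      dist (toC u) (toC v) ≤ dist (toC (vtx ((nxt (T : Set Ed))^[j] k))) (toC v) := by
  obtain ⟨k', h1, h2, h3⟩ := exists_far_corner hT hu
  obtain ⟨j, hj⟩ := outer_orbit (boxE_sub hT) (mem_Oc.2 ⟨hk, hk'⟩) (mem_Oc.2 ⟨h1, h2⟩)
  have hp := minimalPeriod_pos hT hk
  refine ⟨j % Function.minimalPeriod (nxtE (T : Set Ed)) k, Nat.mod_lt _ hp, ?_⟩
  have e : (nxt (T : Set Ed))^[j % Function.minimalPeriod (nxtE (T : Set Ed)) k] k = k' := by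
    rw [← hj]
    exact Function.iterate_mod_minimalPeriod_eq (f := nxtE (T : Set Ed)) (x := k) (n := j)
  rw [e]
  exact h3

/-- The walk stays in the cluster. -/
theorem vtx_mem {T : Finset Edg} {v : ℤ × ℤ} {k : Cor} (hk : vtx k ∈ clV T v) (j : ℕ) :
    vtx ((nxt (T : Set Ed))^[j] k) ∈ clV T v := by
  induction j with
  | zero => exact hk
  | succ j ih =>
    rw [Function.iterate_succ_apply']
    rw [clV_eq] at ih ⊢
    exact vtx_nxt_mem ih

/-! ### The output -/

open Classical in
/-- The output of a step: the closed polygon through the tips, if it is macroscopic. -/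
noncomputable def outF (r : ℝ) (b : ℂ) (L : List ℂ) : Option Curve :=
  if ∃ z ∈ L, 3 / 2 * r < dist z b then some (lC L) else none

/-- The corner walk around the cluster of `v` follows the tips `L` with the stop times `t`. -/
structure Fol (n : ℕ) (T : Finset Edg) (v : ℤ × ℤ) (k : Cor) (b : ℂ) (L : List ℂ) (t : ℕ → ℕ)
    (ε : ℝ) : Prop where
  mem : vtx k ∈ clV T v
  out : Outer T v (fce k)
  len : 0 < L.length
  t0 : t 0 = 0
  mono : ∀ i < L.length, t i ≤ t (i + 1)
  per : t L.length = Function.minimalPeriod (nxtE (T : Set Ed)) k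
  near : ∀ i < L.length, ∀ j : ℕ, t i ≤ j → j ≤ t (i + 1) →
    dist (toC (vtx ((nxt (T : Set Ed))^[j] k)) / n) (L.getD i 0) ≤ ε
  base : dist (toC v / n) b ≤ ε

/-- Every time is in one of the intervals. -/
theorem exists_idx {m : ℕ} {t : ℕ → ℕ} (h0 : t 0 = 0) {j : ℕ} (hj : j < t m) :
    ∃ i < m, t i ≤ j ∧ j ≤ t (i + 1) := by
  induction m with
  | zero => omega
  | succ m ih =>
    by_cases h : j < t m
    · obtain ⟨i, h1, h2⟩ := ih h
      exact ⟨i, by omega, h2⟩
    · exact ⟨m, by omega, by omega, hj.le⟩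

theorem dist_div (n : ℕ) (a b : ℂ) : dist (a / n) (b / (n : ℂ)) = dist a b / n := by
  rw [dist_eq_norm, ← sub_div, norm_div, Complex.norm_natCast, ← dist_eq_norm]

theorem outF_some {r : ℝ} {b : ℂ} {L : List ℂ} {c : Curve} (h : outF r b L = some c) :
    (∃ z ∈ L, 3 / 2 * r < dist z b) ∧ c = lC L := by
  classical
  unfold outF at h
  split_ifs at h with h1
  exact ⟨h1, (Option.some.inj h).symm⟩

theorem getD_mem {L : List ℂ} {i : ℕ} (hi : i < L.length) : L.getD i 0 ∈ L := by
  rw [List.getD_eq_getElem?_getD, List.getElem?_eq_getElem hi, Option.getD_some]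
  exact List.getElem_mem hi

/-- A macroscopic step has an output. -/
theorem exists_outF {n : ℕ} (hn : 0 < n) {T : Finset Edg} (hT : T ⊆ boxE n) {v : ℤ × ℤ} {k : Cor}
    {b : ℂ} {L : List ℂ} {t : ℕ → ℕ} {ε r : ℝ} (h : Fol n T v k b L t ε) (hε : ε ≤ r / 8)
    (hr : 0 < r) {u : ℤ × ℤ} (hu : u ∈ clV T v) (hd : 2 * r * n < dist (toC u) (toC v)) :
    ∃ c, outF r b L = some c := by
  classical
  have hn0 : (0 : ℝ) < n := by exact_mod_cast hn
  obtain ⟨j, hj, hj'⟩ := exists_far_time hT hu h.mem h.out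
  obtain ⟨i, hi, h1, h2⟩ := exists_idx h.t0 (by rw [h.per]; exact hj)
  have h3 := h.near i hi j h1 h2
  have h4 : 2 * r < dist (toC (vtx ((nxt (T : Set Ed))^[j] k)) / n) (toC v / n) := by
    rw [dist_div n, lt_div_iff₀ hn0]
    exact hd.trans_le hj'
  have h5 : 3 / 2 * r < dist (L.getD i 0) b := by
    have h6 := dist_triangle4 (toC (vtx ((nxt (T : Set Ed))^[j] k)) / n) (L.getD i 0) b (toC v / n)
    have h7 := h.base
    rw [dist_comm] at h7
    linarith
  refine ⟨lC L, ?_⟩
  unfold outF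
  rw [if_pos ⟨_, getD_mem hi, h5⟩]

/-- A step with an output is macroscopic. -/
theorem far_of_outF {n : ℕ} (hn : 0 < n) {T : Finset Edg} {v : ℤ × ℤ} {k : Cor}
    {b : ℂ} {L : List ℂ} {t : ℕ → ℕ} {ε r : ℝ} (h : Fol n T v k b L t ε) (hε : ε ≤ r / 8)
    (hr : 0 < r) {c : Curve} (hc : outF r b L = some c) :
    ∃ u ∈ clV T v, r * n < dist (toC u) (toC v) := by
  have hn0 : (0 : ℝ) < n := by exact_mod_cast hn
  obtain ⟨⟨z, hz, hzb⟩, -⟩ := outF_some hc
  obtain ⟨i, hi, rfl⟩ := List.getElem_of_mem hz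
  have e : L.getD i 0 = L[i] := by
    rw [List.getD_eq_getElem?_getD, List.getElem?_eq_getElem hi, Option.getD_some]
  have h3 := h.near i hi (t i) le_rfl (h.mono i hi)
  rw [e] at h3
  refine ⟨_, vtx_mem h.mem (t i), ?_⟩
  have h4 : r < dist (toC (vtx ((nxt (T : Set Ed))^[t i] k)) / n) (toC v / n) := by
    have h6 := dist_triangle4 L[i] (toC (vtx ((nxt (T : Set Ed))^[t i] k)) / n) (toC v / n) b
    have h7 := h.base
    rw [dist_comm L[i] (toC (vtx ((nxt (T : Set Ed))^[t i] k)) / n)] at h6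
    linarith
  rwa [dist_div n, lt_div_iff₀ hn0] at h4

/-- **The output of a step of the scan.** -/
theorem outF_rule {n h : ℕ} (hn : 0 < n) {R : Rul} (hR : RulOK n h R) {T : Finset Edg}
    (hT : T ⊆ boxE n) {j : ℕ} {q : Ndl} (hq : R j T = some q) {k : Cor} {b : ℂ} {L : List ℂ}
    {t : ℕ → ℕ} {ε r : ℝ} (hf : Fol n (cfQ T (stR n R T j) q) q.2 k b L t ε) (hε : ε ≤ r / 8)
    (hr : 0 < r) :
    (MacR (2 * r * n) n R T j → ∃ c, outF r b L = some c) ∧
      ∀ c, outF r b L = some c → MacR (r * n) n R T j ∧ dist c (crvR n R T j) ≤ 4 * ε + 2 / n := by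
  have hsub : cfQ T (stR n R T j) q ⊆ boxE n := cfQ_sub (hR.ndl T hT j q hq) hT (stR_sub_box j)
  constructor
  · rintro ⟨q', hq', u, hu, hd⟩
    rw [hq] at hq'
    obtain rfl := Option.some.inj hq'
    exact exists_outF hn hsub hf hε hr hu hd
  · intro c hc
    refine ⟨⟨q, hq, far_of_outF hn hf hε hr hc⟩, ?_⟩
    rw [(outF_some hc).2]
    unfold crvR
    rw [hq]
    exact dist_outer hn hsub hf.mem hf.out hf.len hf.t0 hf.mono hf.per hf.near

/-! ### The tips as fixed points of the plane -/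

/-- The point of the plane of the coarse point `w` in the grid of mesh `n / K`. -/
noncomputable def ptK (K : ℕ) (w : ℤ × ℤ) : ℂ := psiC w.1 w.2 / K

/-- Coordinates near the coarse point: the position is near the fixed point. -/
theorem near_grid {n K : ℕ} (hn : 0 < n) (hK : 0 < K) {v w : ℤ × ℤ} {ρ : ℝ}
    (h1 : |((phiV v).1 : ℝ) - (n / K : ℕ) * w.1| ≤ ρ)
    (h2 : |((phiV v).2 : ℝ) - (n / K : ℕ) * w.2| ≤ ρ) :
    dist (toC v / n) (ptK K w) ≤ ρ / n + (|(w.1 : ℝ)| + |(w.2 : ℝ)|) / n := by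
  have hn0 : (0 : ℝ) < n := by exact_mod_cast hn
  have hK0 : (0 : ℝ) < K := by exact_mod_cast hK
  have h3 : dist (toC v / n) (psiC ((n / K : ℕ) * w.1) ((n / K : ℕ) * w.2) / n) ≤ ρ / n := by
    rw [dist_div n, toC_eq_psiC]
    exact div_le_div_of_nonneg_right (dist_psiC_le h1 h2) hn0.le
  have e : psiC ((n / K : ℕ) * (w.1 : ℝ)) ((n / K : ℕ) * w.2) = ((n / K : ℕ) : ℂ) * psiC w.1 w.2 := by
    apply Complex.ext
    · simp only [psiC, Complex.mul_re, Complex.natCast_re, Complex.natCast_im]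
      ring
    · simp only [psiC, Complex.mul_im, Complex.natCast_re, Complex.natCast_im]
      ring
  have h4 : dist (psiC ((n / K : ℕ) * w.1) ((n / K : ℕ) * w.2) / n) (ptK K w) ≤
      (|(w.1 : ℝ)| + |(w.2 : ℝ)|) / n := by
    rw [e, ptK, dist_eq_norm]
    have e2 : ((n / K : ℕ) : ℂ) * psiC w.1 w.2 / n - psiC w.1 w.2 / K =
        ((((n / K : ℕ) : ℝ) / n - 1 / K : ℝ) : ℂ) * psiC w.1 w.2 := by
      push_cast
      ring
    rw [e2, norm_mul, Complex.norm_real, Real.norm_eq_abs]
    have h5 : |((n / K : ℕ) : ℝ) / n - 1 / K| ≤ 1 / n := by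
      have k1 : ((n / K : ℕ) : ℝ) * K ≤ n := by exact_mod_cast Nat.div_mul_le_self n K
      have k2 : (n : ℝ) < ((n / K : ℕ) : ℝ) * K + K := by
        have := Nat.lt_div_mul_add (a := n) hK
        exact_mod_cast this
      rw [abs_le]
      constructor
      · rw [neg_le_sub_iff_le_add, div_add_div _ _ hn0.ne' hn0.ne', div_le_div_iff₀ hK0 (by positivity)]
        nlinarith
      · have : ((n / K : ℕ) : ℝ) / n ≤ 1 / K := by
          rw [div_le_div_iff₀ hn0 hK0]
          linarith
        have : (0 : ℝ) ≤ 1 / n := by positivity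
        linarith
    have h6 : ‖psiC (w.1 : ℝ) w.2‖ ≤ |(w.1 : ℝ)| + |(w.2 : ℝ)| := by
      refine (Complex.norm_le_abs_re_add_abs_im _).trans ?_
      simp only [psiC]
      rw [abs_div, abs_div, abs_two]
      have := abs_add_le (w.1 : ℝ) w.2
      have := abs_sub (w.1 : ℝ) w.2
      linarith
    calc |((n / K : ℕ) : ℝ) / n - 1 / K| * ‖psiC (w.1 : ℝ) w.2‖
        ≤ 1 / n * (|(w.1 : ℝ)| + |(w.2 : ℝ)|) :=
          mul_le_mul h5 h6 (norm_nonneg _) (by positivity)
      _ = (|(w.1 : ℝ)| + |(w.2 : ℝ)|) / n := by ring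
  exact (dist_triangle _ _ _).trans (add_le_add h3 h4)

end Pool.Agent.SixB.Out
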