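import Pool.Agent.Lib.SixB.S8ScanEx
import Pool.Agent.Lib.SixB.S8Out
import Pool.Agent.Lib.SixB.S8Main

/-!
# Step 8: the rule of the needles from a chain of stages

A chain of stages for every configuration `T`: the state at the stage `i` has a set `V` of remaining
vertices, possibly a running needle `q`, and a counter `c` of the needles. A stage keeps `V`, `q` and `c`,
or it ends the step of the running needle (if there is one), and then it may plant or skip the next
needle. If the stages depend only on the explored edges then the needles form a rule (`PrcOK.rulOK`)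
and the remaining vertices are those of the scan (`PrcOK.inv`).

`TrcOK`: the same for a chain of stages on the configurations of the face grid (`trR` is the rule).

`walk_congr`: the corner walk around the cluster of a needle depends only on the edges with an end which
is removed by the step.
-/

set_option autoImplicit false

namespace Pool.Agent.SixB.Rule

open Pool.Agent.Perc Pool.Agent.PercD
open Pool.Agent.PercU (Cor vtx fce nxt nxtE qry)
open Pool.Agent.MP_6bd702.H23 (Ed ea eb)

variable {n h : ℕ} {σ : Type} {st : Finset Edg → ℕ → σ} {V : σ → Finset (ℤ × ℤ)}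
  {q : σ → Option Ndl} {c : σ → ℕ} {T T' : Finset Edg} {i j : ℕ} {x : Ndl}

/-- `T` and `T'` agree on the edges with an end outside of `U`. -/
def AgrE (n : ℕ) (U : Finset (ℤ × ℤ)) (T T' : Finset Edg) : Prop :=
  ∀ e ∈ boxE n, (tl e ∉ U ∨ hd e ∉ U) → (e ∈ T ↔ e ∈ T')

theorem AgrE.mono {U U' : Finset (ℤ × ℤ)} (h : AgrE n U T T') (hU : U ⊆ U') : AgrE n U' T T' :=
  fun e he h1 => h e he (h1.imp (fun h2 h3 => h2 (hU h3)) fun h2 h3 => h2 (hU h3))

/-- The remaining vertices after the step of the running needle. -/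
noncomputable def vEnd (T : Finset Edg) (V : Finset (ℤ × ℤ)) (q : Option Ndl) :
    Finset (ℤ × ℤ) := q.elim V (stpQ T V)

theorem vEnd_sub {V : Finset (ℤ × ℤ)} {q : Option Ndl} : vEnd T V q ⊆ V := by
  cases q with
  | none => exact Finset.Subset.refl _
  | some x => exact stpQ_sub

/-- A chain of stages. `V`: the remaining vertices, `q`: the running needle, `c`: the number of the
needles planted or skipped. -/
structure PrcOK (n h : ℕ) (st : Finset Edg → ℕ → σ) (V : σ → Finset (ℤ × ℤ))
    (q : σ → Option Ndl) (c : σ → ℕ) : Prop where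
  init : ∀ T T', st T' 0 = st T 0
  V0 : ∀ T, V (st T 0) = Box n
  q0 : ∀ T, q (st T 0) = none
  c0 : ∀ T, c (st T 0) = 0
  /-- nothing happens, or the running step ends, and the next needle may be planted or skipped -/
  move : ∀ T, T ⊆ boxE n → ∀ i,
    (V (st T (i + 1)) = V (st T i) ∧ q (st T (i + 1)) = q (st T i) ∧
      c (st T (i + 1)) = c (st T i)) ∨
    (V (st T (i + 1)) = vEnd T (V (st T i)) (q (st T i)) ∧
      (c (st T (i + 1)) = c (st T i) + 1 ∨
        (c (st T (i + 1)) = c (st T i) ∧ q (st T (i + 1)) = none)))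
  ndl : ∀ T, T ⊆ boxE n → ∀ i x, c (st T (i + 1)) = c (st T i) + 1 →
    q (st T (i + 1)) = some x → IsNdl h (V (st T (i + 1))) x
  /-- the stages depend on the explored edges -/
  loc : ∀ T T', T ⊆ boxE n → T' ⊆ boxE n → ∀ i, st T' i = st T i →
    AgrE n (vEnd T (V (st T i)) (q (st T i))) T T' → st T' (i + 1) = st T (i + 1)

open Classical in
/-- The rule of the needles. -/
noncomputable def prR (st : Finset Edg → ℕ → σ) (q : σ → Option Ndl) (c : σ → ℕ) : Rul :=
  fun j T => if h : ∃ i, c (st T i) = j ∧ c (st T (i + 1)) = j + 1 then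
    q (st T (Nat.find h + 1)) else none

namespace PrcOK

theorem step_c (H : PrcOK n h st V q c) (hT : T ⊆ boxE n) (i : ℕ) :
    c (st T (i + 1)) = c (st T i) ∨ c (st T (i + 1)) = c (st T i) + 1 := by
  rcases H.move T hT i with h1 | ⟨-, h1 | h1⟩
  · exact Or.inl h1.2.2
  · exact Or.inr h1
  · exact Or.inl h1.1

theorem mono_c (H : PrcOK n h st V q c) (hT : T ⊆ boxE n) {i i' : ℕ} (hi : i ≤ i') :
    c (st T i) ≤ c (st T i') := by
  induction i', hi using Nat.le_induction with
  | base => exact le_rfl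
  | succ k _ ih => rcases H.step_c hT k with h1 | h1 <;> omega

/-- The transition from `j` to `j + 1` happens at most once. -/
theorem uniq (H : PrcOK n h st V q c) (hT : T ⊆ boxE n) {i i' : ℕ} (h1 : c (st T i) = j)
    (h2 : c (st T (i + 1)) = j + 1) (h3 : c (st T i') = j) (h4 : c (st T (i' + 1)) = j + 1) :
    i = i' := by
  by_contra hne
  rcases Nat.lt_or_gt_of_ne hne with h5 | h5
  · have := H.mono_c hT (show i + 1 ≤ i' by omega)
    omega
  · have := H.mono_c hT (show i' + 1 ≤ i by omega)
    omega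

theorem prR_eq (H : PrcOK n h st V q c) (hT : T ⊆ boxE n) (h1 : c (st T i) = j)
    (h2 : c (st T (i + 1)) = j + 1) : prR st q c j T = q (st T (i + 1)) := by
  classical
  have hex : ∃ i, c (st T i) = j ∧ c (st T (i + 1)) = j + 1 := ⟨i, h1, h2⟩
  unfold prR
  rw [dif_pos hex]
  have h3 := Nat.find_spec hex
  rw [H.uniq hT h3.1 h3.2 h1 h2]

theorem exists_of_prR (hj : prR st q c j T = some x) :
    ∃ i, c (st T i) = j ∧ c (st T (i + 1)) = j + 1 ∧ q (st T (i + 1)) = some x := by
  classical
  unfold prR at hj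
  split_ifs at hj with hex
  exact ⟨Nat.find hex, (Nat.find_spec hex).1, (Nat.find_spec hex).2, hj⟩

/-- The remaining vertices after the step of a stage. -/
theorem vEnd_of {R : Rul} {V : Finset (ℤ × ℤ)} {q : Option Ndl} {c : ℕ}
    (h1 : q = none → V = stR n R T c)
    (h2 : ∀ x, q = some x → ∃ j, c = j + 1 ∧ R j T = some x ∧ V = stR n R T j) :
    vEnd T V q = stR n R T c := by
  cases q with
  | none => exact h1 rfl
  | some x =>
    obtain ⟨j, e1, e2, e3⟩ := h2 x rfl
    rw [e1, stR_succ_some e2, e3]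
    rfl

/-- **The remaining vertices of the stages are those of the scan.** -/
theorem inv (H : PrcOK n h st V q c) (hT : T ⊆ boxE n) (i : ℕ) :
    (q (st T i) = none → V (st T i) = stR n (prR st q c) T (c (st T i))) ∧
    ∀ x, q (st T i) = some x → ∃ j, c (st T i) = j + 1 ∧ prR st q c j T = some x ∧
      V (st T i) = stR n (prR st q c) T j := by
  induction i with
  | zero =>
    refine ⟨fun _ => ?_, fun x hx => ?_⟩
    · rw [H.V0, H.c0]; rfl
    · rw [H.q0] at hx; cases hx
  | succ i ih =>
    have hE := vEnd_of ih.1 ih.2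
    rcases H.move T hT i with ⟨h1, h2, h3⟩ | ⟨h1, h2 | ⟨h2, h3⟩⟩
    · rw [h1, h2, h3]
      exact ih
    · have h4 := H.prR_eq hT (j := c (st T i)) rfl h2
      rw [hE] at h1
      constructor
      · intro h5
        rw [h1, h2, stR_succ_none (h4.trans h5)]
      · intro x hx
        exact ⟨c (st T i), h2, h4.trans hx, h1⟩
    · rw [hE] at h1
      constructor
      · intro _
        rw [h1, h2]
      · intro x hx
        rw [h3] at hx; cases hx

/-- The remaining vertices after the step of the stage. -/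
theorem stR_of_run (H : PrcOK n h st V q c) (hT : T ⊆ boxE n) (i : ℕ) :
    vEnd T (V (st T i)) (q (st T i)) = stR n (prR st q c) T (c (st T i)) :=
  vEnd_of (H.inv hT i).1 (H.inv hT i).2

/-- The stages agree as long as the counter is at most `j`. -/
theorem st_eq (H : PrcOK n h st V q c) (hT : T ⊆ boxE n) (hT' : T' ⊆ boxE n)
    (hag : AgrE n (stR n (prR st q c) T j) T T') {i : ℕ} (hi : ∀ i' < i, c (st T i') ≤ j) :
    st T' i = st T i := by
  induction i with
  | zero => exact H.init T T'
  | succ i ih =>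
    have h1 := ih fun i' hi' => hi i' (by omega)
    have h2 := hi i (Nat.lt_succ_self i)
    refine H.loc T T' hT hT' i h1 (hag.mono ?_)
    rw [H.stR_of_run hT i]
    exact stR_anti n _ T h2

/-- Either the counter never exceeds `j`, or there is a transition. -/
theorem le_or_trans (H : PrcOK n h st V q c) (hT : T ⊆ boxE n) (j : ℕ) :
    (∀ i, c (st T i) ≤ j) ∨ ∃ i, c (st T i) = j ∧ c (st T (i + 1)) = j + 1 := by
  classical
  by_cases hc : ∀ i, c (st T i) ≤ j
  · exact Or.inl hc
  right
  push Not at hc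
  have h1 := Nat.find_spec hc
  set i := Nat.find hc with hi
  have h0 : i ≠ 0 := by
    intro h0
    rw [h0, H.c0] at h1
    omega
  obtain ⟨k, hk⟩ := Nat.exists_eq_succ_of_ne_zero h0
  have h2 : c (st T k) ≤ j := by
    have := Nat.find_min hc (m := k) (by omega)
    omega
  rw [hk, Nat.succ_eq_add_one] at h1
  refine ⟨k, ?_, ?_⟩
  · rcases H.step_c hT k with h3 | h3 <;> omega
  · rcases H.step_c hT k with h3 | h3 <;> omega

/-- **The needles of the chain form a rule.** -/
theorem rulOK (H : PrcOK n h st V q c) : RulOK n h (prR st q c) where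
  ndl := by
    intro T hT j x hx
    obtain ⟨i, h1, h2, h3⟩ := exists_of_prR hx
    have h4 := H.ndl T hT i x (by rw [h1, h2]) h3
    obtain ⟨j', e1, -, e2⟩ := (H.inv hT (i + 1)).2 x h3
    have e3 : j' = j := by omega
    rw [e2, e3] at h4
    exact h4
  loc := by
    intro T T' hT hT' j hag
    rcases H.le_or_trans hT j with h1 | ⟨i, h1, h2⟩
    · have h3 : ∀ i, st T' i = st T i := fun i => H.st_eq hT hT' hag fun i' _ => h1 i'
      have e1 : prR st q c j T = none := by
        unfold prR
        rw [dif_neg]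
        rintro ⟨i, -, hi⟩
        have := h1 (i + 1)
        omega
      have e2 : prR st q c j T' = none := by
        unfold prR
        rw [dif_neg]
        rintro ⟨i, -, hi⟩
        rw [h3] at hi
        have := h1 (i + 1)
        omega
      rw [e1, e2]
    · have hle : ∀ i' < i + 1, c (st T i') ≤ j := by
        intro i' hi'
        rw [← h1]
        exact H.mono_c hT (by omega)
      have h3 := H.st_eq hT hT' hag hle
      have h4 := H.st_eq hT hT' hag (i := i) fun i' hi' => hle i' (by omega)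
      rw [H.prR_eq hT h1 h2, H.prR_eq hT' (i := i) (by rw [h4, h1]) (by rw [h3, h2]), h3]

end PrcOK

/-! ### Chains of stages on the face grid -/

/-- A chain of stages for the configurations of the face grid. -/
structure TrcOK (n h : ℕ) (ts : Cfg → ℕ → σ) (V : σ → Finset (ℤ × ℤ)) (q : σ → Option Ndl)
    (c : σ → ℕ) : Prop where
  loc0 : ∀ ω ω', cfgE n ω = cfgE n ω' → ∀ i, ts ω i = ts ω' i
  init : ∀ ω ω', ts ω' 0 = ts ω 0
  V0 : ∀ ω, V (ts ω 0) = Box n
  q0 : ∀ ω, q (ts ω 0) = none
  c0 : ∀ ω, c (ts ω 0) = 0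
  move : ∀ ω i,
    (V (ts ω (i + 1)) = V (ts ω i) ∧ q (ts ω (i + 1)) = q (ts ω i) ∧
      c (ts ω (i + 1)) = c (ts ω i)) ∨
    (V (ts ω (i + 1)) = vEnd (cfgE n ω) (V (ts ω i)) (q (ts ω i)) ∧
      (c (ts ω (i + 1)) = c (ts ω i) + 1 ∨
        (c (ts ω (i + 1)) = c (ts ω i) ∧ q (ts ω (i + 1)) = none)))
  ndl : ∀ ω i x, c (ts ω (i + 1)) = c (ts ω i) + 1 → q (ts ω (i + 1)) = some x →
    IsNdl h (V (ts ω (i + 1))) x
  loc : ∀ ω ω' i, ts ω' i = ts ω i →
    AgrE n (vEnd (cfgE n ω) (V (ts ω i)) (q (ts ω i))) (cfgE n ω) (cfgE n ω') →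
      ts ω' (i + 1) = ts ω (i + 1)

/-- The rule of a chain of stages on the face grid. -/
noncomputable def trR (n : ℕ) (ts : Cfg → ℕ → σ) (q : σ → Option Ndl) (c : σ → ℕ) : Rul :=
  prR (fun T i => ts (cfgI n T) i) q c

theorem cfgE_cfgI' (hT : T ⊆ boxE n) : cfgE n (cfgI n T) = T := by
  have h : ∃ ω, cfgE n ω = T := ⟨_, DictA.right_inv hT⟩
  rw [cfgI, dif_pos h]
  exact h.choose_spec

namespace TrcOK

variable {ts : Cfg → ℕ → σ} {ω : Cfg}

theorem ts_cfgI (H : TrcOK n h ts V q c) (ω : Cfg) (i : ℕ) :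
    ts (cfgI n (cfgE n ω)) i = ts ω i := H.loc0 _ _ (cfgE_cfgI n ω) i

theorem prc (H : TrcOK n h ts V q c) : PrcOK n h (fun T i => ts (cfgI n T) i) V q c where
  init := fun T T' => H.init _ _
  V0 := fun T => H.V0 _
  q0 := fun T => H.q0 _
  c0 := fun T => H.c0 _
  move := fun T hT i => by
    have := H.move (cfgI n T) i
    rwa [cfgE_cfgI' hT] at this
  ndl := fun T _ i x h1 h2 => H.ndl _ i x h1 h2
  loc := fun T T' hT hT' i h1 h2 => by
    refine H.loc (cfgI n T) (cfgI n T') i h1 ?_
    rw [cfgE_cfgI' hT, cfgE_cfgI' hT']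
    exact h2

/-- **The needles of the chain form a rule.** -/
theorem rulOK (H : TrcOK n h ts V q c) : RulOK n h (trR n ts q c) := H.prc.rulOK

/-- **The remaining vertices of the stages are those of the scan.** -/
theorem inv (H : TrcOK n h ts V q c) (ω : Cfg) (i : ℕ) :
    (q (ts ω i) = none → V (ts ω i) = stR n (trR n ts q c) (cfgE n ω) (c (ts ω i))) ∧
    ∀ x, q (ts ω i) = some x → ∃ j, c (ts ω i) = j + 1 ∧
      trR n ts q c j (cfgE n ω) = some x ∧
      V (ts ω i) = stR n (trR n ts q c) (cfgE n ω) j := by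
  have h1 := H.prc.inv (T := cfgE n ω) (Finset.filter_subset _ _) i
  simp only [H.ts_cfgI] at h1
  exact h1

/-- The needle planted (or not) at a stage where the counter moves. -/
theorem trR_eq (H : TrcOK n h ts V q c) (h1 : c (ts ω i) = j) (h2 : c (ts ω (i + 1)) = j + 1) :
    trR n ts q c j (cfgE n ω) = q (ts ω (i + 1)) := by
  have h3 := H.prc.prR_eq (T := cfgE n ω) (i := i) (j := j) (Finset.filter_subset _ _)
    (by simp only [H.ts_cfgI]; exact h1) (by simp only [H.ts_cfgI]; exact h2)
  simp only [H.ts_cfgI] at h3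
  exact h3

/-- The remaining vertices after the step of the stage. -/
theorem stR_of_run (H : TrcOK n h ts V q c) (ω : Cfg) (i : ℕ) :
    vEnd (cfgE n ω) (V (ts ω i)) (q (ts ω i)) =
      stR n (trR n ts q c) (cfgE n ω) (c (ts ω i)) := by
  have h3 := H.prc.stR_of_run (T := cfgE n ω) (Finset.filter_subset _ _) i
  simp only [H.ts_cfgI] at h3
  exact h3

theorem mono_c (H : TrcOK n h ts V q c) {i i' : ℕ} (hi : i ≤ i') : c (ts ω i) ≤ c (ts ω i') := by
  have h3 := H.prc.mono_c (T := cfgE n ω) (Finset.filter_subset _ _) hi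
  simp only [H.ts_cfgI] at h3
  exact h3

theorem step_c (H : TrcOK n h ts V q c) (ω : Cfg) (i : ℕ) :
    c (ts ω (i + 1)) = c (ts ω i) ∨ c (ts ω (i + 1)) = c (ts ω i) + 1 := by
  have h3 := H.prc.step_c (T := cfgE n ω) (Finset.filter_subset _ _) i
  simp only [H.ts_cfgI] at h3
  exact h3

end TrcOK

/-! ### Locality of the walk -/

/-- Two configurations which agree on the edges with an end which is removed by the step have the same
edges at the vertices of the cluster. -/
theorem mem_cfQ_congr {U : Finset (ℤ × ℤ)} {q : Ndl} (hT : T ⊆ boxE n) (hT' : T' ⊆ boxE n)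
    (hag : AgrE n (stpQ T U q) T T') {e : Edg}
    (he : tl e ∈ clV (cfQ T U q) q.2 ∨ hd e ∈ clV (cfQ T U q) q.2) :
    e ∈ cfQ T U q ↔ e ∈ cfQ T' U q := by
  have h1 : e ∈ boxE n → (e ∈ T ↔ e ∈ T') := by
    intro hb
    refine hag e hb ?_
    rcases he with he | he
    · exact Or.inl fun h => (mem_stpQ.1 h).2 (Or.inl he)
    · exact Or.inr fun h => (mem_stpQ.1 h).2 (Or.inl he)
  have h2 : e ∈ T ↔ e ∈ T' := by
    by_cases hb : e ∈ boxE n
    · exact h1 hb
    · exact ⟨fun h => absurd (hT h) hb, fun h => absurd (hT' h) hb⟩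
  unfold cfQ rst
  simp only [Finset.mem_union, Finset.mem_filter, h2]

/-- **The corner walk around the cluster of a needle** depends only on the edges with an end which is
removed by the step. -/
theorem walk_congr {U : Finset (ℤ × ℤ)} {q : Ndl} {k : Cor} (hT : T ⊆ boxE n)
    (hT' : T' ⊆ boxE n) (hag : AgrE n (stpQ T U q) T T')
    (hk : vtx k ∈ clV (cfQ T U q) q.2) (t : ℕ) :
    (nxt ((cfQ T' U q : Finset Edg) : Set Ed))^[t] k =
      (nxt ((cfQ T U q : Finset Edg) : Set Ed))^[t] k := by
  induction t with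
  | zero => rfl
  | succ t ih =>
    rw [Function.iterate_succ_apply', Function.iterate_succ_apply', ih]
    have hv : vtx ((nxt ((cfQ T U q : Finset Edg) : Set Ed))^[t] k) ∈
        clV (cfQ T U q) q.2 := Out.vtx_mem hk t
    refine PercU.nxt_congr ?_
    rw [Finset.mem_coe, Finset.mem_coe]
    refine (mem_cfQ_congr hT hT' hag ?_).symm
    rcases Scan.qry_end ((nxt ((cfQ T U q : Finset Edg) : Set Ed))^[t] k) with h1 | h1
    · left; rw [PercO.tl_eq, h1]; exact hv
    · right; rw [PercO.hd_eq, h1]; exact hv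

end Pool.Agent.SixB.Rule
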