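import Pool.Agent.Lib.SixB.S8Tips
import Pool.Agent.Lib.SixB.S8Chain
import Pool.Agent.Lib.SixB.S8OutProb
import Pool.Agent.Lib.SixB.S8RuleT

/-!
# Step 8: the output row for the true chain

`stc`: the coarse states before the stages. `GoodO`: what has to be known about one configuration: the
needles are placed and the strand stays near the coarse tip, during the stages and until the end of the
step after the last stage. `stepOut_inst`: the output of a finished needle. `chnOut_inst`: the output row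
`ChnOut` of the chain `chD`, with the rule of `TrcOK`.
-/

set_option autoImplicit false

namespace Pool.Agent.SixB.Tru

open Finset Filter Topology Pool.Agent.Perc Pool.Agent.PercT Pool.Agent.PercX60
open Pool.Agent.MP_6bd702.H23 (Ed ea eb)
open Pool.Agent.PercU (Cor vtx fce nxt nxtE qry)
open Pool.Agent.SixB Pool.Agent.SixB.Rule Pool.Agent.SixB.Dct Pool.Agent.SixB.Mv
open Pool.Agent.SixB.Tps Pool.Agent.SixB.Out

variable {𝔇 : Dat} {d : ℕ → ℕ} {n N : ℕ} {ω : Cfg}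

/-! ### The coarse states of the chain -/

variable (𝔇 d n ω) in
/-- The coarse state before the stage `i`. -/
noncomputable def stc : ℕ → CSt
  | 0 => 𝔇.cs d []
  | i + 1 => 𝔇.cs d (tst 𝔇 d n ω i).x

theorem stc_step (i : ℕ) : ∃ L M ρ, stc 𝔇 d n ω (i + 1) = (stc 𝔇 d n ω i).mv (𝔇.prm d) L M ρ := by
  cases i with
  | zero =>
    obtain ⟨ρ, h⟩ := nxS_x 𝔇 d n ω ⟨Box n, none, 0, []⟩
    refine ⟨msh d 0, msz (𝔇.prm d).kap d 0, ρ, ?_⟩
    show 𝔇.cs d (tst 𝔇 d n ω 0).x = _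
    rw [show tst 𝔇 d n ω 0 = nxS 𝔇 d n ⟨Box n, none, 0, []⟩ ω from rfl, h]
    rfl
  | succ i =>
    obtain ⟨ρ, h⟩ := nxS_x 𝔇 d n ω (tst 𝔇 d n ω i)
    refine ⟨msh d (tst 𝔇 d n ω i).x.length, msz (𝔇.prm d).kap d (tst 𝔇 d n ω i).x.length, ρ, ?_⟩
    show 𝔇.cs d (tst 𝔇 d n ω (i + 1)).x = _
    rw [show tst 𝔇 d n ω (i + 1) = nxS 𝔇 d n (tst 𝔇 d n ω i) ω from rfl, h]
    rfl

variable (𝔇 d n ω) in
/-- The counter of the needles along the chain. -/
theorem stc_cnt : Cnt (fun i => IsRn (stc 𝔇 d n ω i)) fun i => (stc 𝔇 d n ω i).j :=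
  cnt_of_mv (σ := stc 𝔇 d n ω) (by unfold IsRn stc Dat.cs cst; simp) rfl stc_step

variable (𝔇 d n ω) in
/-- The number of finished needles before the stage `i`. -/
noncomputable def nfin (i : ℕ) : ℕ :=
  fin (fun i => IsRn (stc 𝔇 d n ω i)) (fun i => (stc 𝔇 d n ω i).j) i

theorem sta_eq_stc {i : ℕ} (hi : i ≤ N + 1) :
    sta (𝔇.prm d) d (𝔇.W₀ (d 0)) (histL (fun i => recS 𝔇 d n i) N ω) i = stc 𝔇 d n ω i := by
  cases i with
  | zero => exact sta_zero _ _ _ _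
  | succ i =>
    rw [sta_histL _ _ _ _ _ (by omega)]
    show _ = 𝔇.cs d (tst 𝔇 d n ω i).x
    rw [tst_x]
    rfl

/-! ### The stages -/

theorem finS_none {s : TS} {q : Rule.Ndl} {t : ℕ} {x : List Rec} (h : (𝔇.cs d x).run = none) :
    (finS 𝔇 d n s q t x ω).q = none := by
  unfold finS
  rw [h]

theorem finS_some {s : TS} {q : Rule.Ndl} {t : ℕ} {x : List Rec} (h : (𝔇.cs d x).run.isSome) :
    finS 𝔇 d n s q t x ω = ⟨s.V, some q, t, x⟩ := by
  obtain ⟨D, hD⟩ := Option.isSome_iff_exists.1 h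
  unfold finS
  rw [hD]

theorem stopT_le {u : ℕ} {s : TS} {q : Rule.Ndl} {D : Dom} {g : Grd} :
    s.t ≤ stopT n u s q D g ω := by
  unfold stopT
  rcases hit_spec (s.t + tmx n) (fun t => s.t ≤ t ∧ fa (pS s.V q ω t) ∈ blow u (D.P \ D.inr g))
    with h | h
  · rw [h]; exact Nat.le_add_right _ _
  · exact h.1

/-- A running stage after which the coarse state is still running. -/
theorem nxS_q_run {s : TS} {D : Dom} {q : Rule.Ndl} (h1 : (𝔇.cs d s.x).run = some D)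
    (h2 : s.q = some q) (h3 : (𝔇.cs d (nxS 𝔇 d n s ω).x).run.isSome) :
    (nxS 𝔇 d n s ω).V = s.V ∧ (nxS 𝔇 d n s ω).q = s.q ∧
      (nxS 𝔇 d n s ω).t = mvT 𝔇 d n s q D (𝔇.cs d s.x).ini ω := by
  have h4 : nxS 𝔇 d n s ω = finS 𝔇 d n s q (mvT 𝔇 d n s q D (𝔇.cs d s.x).ini ω)
      (mvR 𝔇 d n s q D (𝔇.cs d s.x).ini ω :: s.x) ω := by
    unfold nxS
    rw [h1, h2]
  rw [h4] at h3 ⊢
  rw [finS_x] at h3
  rw [finS_some h3, h2]
  exact ⟨rfl, rfl, rfl⟩

theorem mvT_ge {s : TS} {q : Rule.Ndl} {D : Dom} : s.t ≤ mvT 𝔇 d n s q D false ω := by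
  unfold mvT
  rw [if_neg (by simp)]
  split_ifs
  · exact le_rfl
  · exact stopT_le

/-- There is no needle if the new coarse state is not running. -/
theorem nxS_q_none {s : TS} (h : (𝔇.cs d (nxS 𝔇 d n s ω).x).run = none) :
    (nxS 𝔇 d n s ω).q = none := by
  unfold nxS at h ⊢
  split at h
  · rename_i q D h1 h2
    rw [finS_x] at h
    exact finS_none h
  · rename_i q h1 h2
    rw [finS_x] at h
    exact finS_none h
  · rfl
  · have h' : (𝔇.cs d ((∅, 0) :: s.x)).run = none := h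
    show (plS 𝔇 d n s).q = none
    unfold plS
    simp only
    rw [if_neg]
    rintro ⟨h4, -⟩
    rw [h'] at h4
    simp at h4

/-- A stage without needle and without running coarse state. -/
theorem nxS_plant {s : TS} (h1 : s.q = none) (h2 : (𝔇.cs d s.x).run = none) :
    nxS 𝔇 d n s ω = plS 𝔇 d n s := by
  unfold nxS
  rw [h1, h2]

theorem plS_ndf {s : TS} {q : Rule.Ndl} (h : (plS 𝔇 d n s).q = some q) :
    IsNdl (n / 𝔇.K) (plS 𝔇 d n s).V q ∧ ∃ k, NdF (plS 𝔇 d n s).V q.1 k ∧ vtx k = q.2 := by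
  unfold plS at h ⊢
  simp only at h ⊢
  split_ifs at h with h1
  obtain ⟨-, h2, h3⟩ := h1
  rw [← Option.some_inj.1 h]
  exact ⟨h2, h3⟩

theorem run_none {σ : CSt} (h : ¬ IsRn σ) : σ.run = none := by
  unfold IsRn at h
  exact Option.not_isSome_iff_eq_none.1 h

/-- There is no needle if the coarse chain is not running. -/
theorem q_none {i : ℕ} (h : ¬ IsRn (stc 𝔇 d n ω (i + 1))) : (tst 𝔇 d n ω i).q = none := by
  cases i with
  | zero => exact nxS_q_none (s := ⟨Box n, none, 0, []⟩) (run_none h)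
  | succ i => exact nxS_q_none (run_none h)

/-- The stages at which the coarse chain is not running. -/
theorem tst_plant {a : ℕ} (h : ¬ IsRn (stc 𝔇 d n ω a)) :
    ∃ s, tst 𝔇 d n ω a = plS 𝔇 d n s := by
  cases a with
  | zero => exact ⟨_, nxS_plant (s := ⟨Box n, none, 0, []⟩) rfl (run_none h)⟩
  | succ a => exact ⟨_, nxS_plant (q_none h) (run_none h)⟩

/-- The time is zero after a stage at which the coarse chain is not running. -/
theorem t_start {a : ℕ} (h : ¬ IsRn (stc 𝔇 d n ω a)) : (tst 𝔇 d n ω a).t = 0 := by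
  obtain ⟨s, hs⟩ := tst_plant h
  rw [hs]
  rfl

theorem q_start {a : ℕ} {q : Rule.Ndl} (h : ¬ IsRn (stc 𝔇 d n ω a))
    (hq : (tst 𝔇 d n ω a).q = some q) :
    IsNdl (n / 𝔇.K) (tst 𝔇 d n ω a).V q ∧ ∃ k, NdF (tst 𝔇 d n ω a).V q.1 k ∧ vtx k = q.2 := by
  obtain ⟨s, hs⟩ := tst_plant h
  rw [hs] at hq ⊢
  exact plS_ndf hq

theorem mvIni_false {σ : CSt} {π : Prm} {L M : ℤ} {ρ : Rec} (h : IsRn σ) :
    (σ.mv π L M ρ).ini = false := by
  unfold IsRn at h
  obtain ⟨s, hs⟩ := Option.isSome_iff_exists.1 h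
  unfold CSt.mv
  rw [hs]
  simp only
  split_ifs <;> rfl

theorem stc_ini {i : ℕ} (h : IsRn (stc 𝔇 d n ω i)) : (stc 𝔇 d n ω (i + 1)).ini = false := by
  obtain ⟨L, M, ρ, h1⟩ := stc_step (𝔇 := 𝔇) (d := d) (n := n) (ω := ω) i
  rw [h1]
  exact mvIni_false h

/-- The states of a stage between two running coarse states. -/
theorem tst_stay {i : ℕ} {q : Rule.Ndl} (h : IsRn (stc 𝔇 d n ω (i + 1)))
    (h' : IsRn (stc 𝔇 d n ω (i + 2))) (hq : (tst 𝔇 d n ω i).q = some q) :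
    (tst 𝔇 d n ω (i + 1)).V = (tst 𝔇 d n ω i).V ∧ (tst 𝔇 d n ω (i + 1)).q = some q ∧
      (tst 𝔇 d n ω i).t ≤ (tst 𝔇 d n ω (i + 1)).t := by
  obtain ⟨D, hD⟩ := Option.isSome_iff_exists.1 h
  obtain ⟨h1, h2, h3⟩ := nxS_q_run (n := n) (ω := ω) (𝔇 := 𝔇) (d := d) (s := tst 𝔇 d n ω i) hD hq h'
  refine ⟨h1, h2.trans hq, ?_⟩
  by_cases hr : IsRn (stc 𝔇 d n ω i)
  · show _ ≤ (nxS 𝔇 d n (tst 𝔇 d n ω i) ω).t
    rw [h3, show (𝔇.cs d (tst 𝔇 d n ω i).x).ini = false from stc_ini hr]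
    exact mvT_ge
  · rw [t_start hr]
    exact Nat.zero_le _

/-! ### The rows -/

/-- The strand of the state is near the point `w` of the coarse lattice. -/
def NearW (d : ℕ → ℕ) (n : ℕ) (ω : Cfg) (ρ : ℤ) (V : Finset (ℤ × ℤ)) (q : Rule.Ndl)
    (w : ℤ × ℤ) (t : ℕ) : Prop :=
  |(ua (pS V q ω t)).1 - (unt d n : ℤ) * w.1| ≤ ρ ∧ |(ua (pS V q ω t)).2 - (unt d n : ℤ) * w.2| ≤ ρ

/-- The length of the loop of the needle. -/
noncomputable def perS (n : ℕ) (ω : Cfg) (V : Finset (ℤ × ℤ)) (q : Rule.Ndl) : ℕ :=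
  Function.minimalPeriod (nxtE ((cfQ (cfgE n ω) V q : Finset Edg) : Set Ed)) (bc V q.1 q.2)

/-- What the output needs to know about a configuration. -/
structure GoodO (𝔇 : Dat) (d : ℕ → ℕ) (n N : ℕ) (ρ : ℤ) (ω : Cfg) : Prop where
  /-- the needle is placed if the coarse chain places it -/
  ndl : ∀ i, i + 1 < N → ¬ IsRn (stc 𝔇 d n ω i) → IsRn (stc 𝔇 d n ω (i + 1)) →
    (tst 𝔇 d n ω i).q.isSome
  /-- the strand is near the tip during the stage -/
  near : ∀ i, i + 1 < N → ∀ D q, (stc 𝔇 d n ω (i + 1)).run = some D → IsRn (stc 𝔇 d n ω (i + 2)) →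
    (tst 𝔇 d n ω i).q = some q → ∀ t, (tst 𝔇 d n ω i).t ≤ t →
      t ≤ (tst 𝔇 d n ω (i + 1)).t → NearW d n ω ρ (tst 𝔇 d n ω i).V q D.tip t
  /-- the last stage and the rest of the step -/
  last : ∀ i, i + 1 < N → ∀ D q, (stc 𝔇 d n ω (i + 1)).run = some D → ¬ IsRn (stc 𝔇 d n ω (i + 2)) →
    (tst 𝔇 d n ω i).q = some q →
      (tst 𝔇 d n ω i).t ≤ perS n ω (tst 𝔇 d n ω i).V q ∧
      ∀ t, (tst 𝔇 d n ω i).t ≤ t → t ≤ perS n ω (tst 𝔇 d n ω i).V q →
        NearW d n ω ρ (tst 𝔇 d n ω i).V q D.tip t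

/-- The strand of the exploration of the rule is the strand of the state. -/
theorem exR_pS {R : Rule.Rul} {j : ℕ} {q : Rule.Ndl} {V : Finset (ℤ × ℤ)}
    (hq : R j (cfgE n ω) = some q) (hV : stR n R (cfgE n ω) j = V) (t : ℕ) :
    (exR n R j).p ω t = pS V q ω t := by
  have h1 : ndE n R j ω = q.1 := by unfold ndE; rw [hq]; rfl
  have h2 : ndB n R j ω = q.2 := by unfold ndB; rw [hq]; rfl
  have h3 : Dct.rem n R j ω = V := hV
  have h4 : (exR n R j).cf ω = cfS V q ω := by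
    unfold Ex.cf exR cfS
    simp only
    rw [h1, h3]
  have h5 : (exR n R j).e ω = eS V q := by
    unfold exR eS
    simp only
    rw [h1, h2, h3]
  unfold Ex.p pS
  rw [h4, h5]

/-- The number of the needle of a state. -/
noncomputable def jc (𝔇 : Dat) (d : ℕ → ℕ) (s : TS) : ℕ := (𝔇.cs d s.x).j

/-- `ts` is the chain with the initial state. -/
structure IsTs (𝔇 : Dat) (d : ℕ → ℕ) (n : ℕ) (ts : Cfg → ℕ → TS) : Prop where
  zero : ∀ ω, ts ω 0 = ⟨Box n, none, 0, []⟩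
  succ : ∀ ω i, ts ω (i + 1) = tst 𝔇 d n ω i

theorem IsTs.cs {ts : Cfg → ℕ → TS} (h : IsTs 𝔇 d n ts) (i : ℕ) :
    𝔇.cs d (ts ω i).x = stc 𝔇 d n ω i := by
  cases i with
  | zero => rw [h.zero]; rfl
  | succ i => rw [h.succ]; rfl

/-- **The output of a finished needle.** -/
theorem stepOut_inst (hn : 0 < n) {h : ℕ} {ts : Cfg → ℕ → TS} (hts : IsTs 𝔇 d n ts)
    (HT : TrcOK n h ts TS.V TS.q (jc 𝔇 d)) {ρ B : ℤ} {δ : ℝ}
    (hG : GoodO 𝔇 d n N ρ ω) {j : ℕ} (hj : j < nfin 𝔇 d n ω N)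
    (hB : ∀ i ≤ N, |(tipZ (stc 𝔇 d n ω i)).1| ≤ B ∧ |(tipZ (stc 𝔇 d n ω i)).2| ≤ B)
    (hδ : ((ρ : ℝ) + 1 + 2 * B) / n ≤ δ) :
    StepOut n (trR n ts TS.q (jc 𝔇 d)) (cfgE n ω) j δ
      (tipsX (𝔇.prm d) d (𝔇.W₀ (d 0)) (histL (fun i => recS 𝔇 d n i) N ω) j) := by
  classical
  obtain ⟨a, b, hab, hbN, ha1, ha2, hb1, hb2, hiff, huniq⟩ := (stc_cnt 𝔇 d n ω).exists_stages hj
  set x := histL (fun i => recS 𝔇 d n i) N ω with hx
  have hlen : x.length = N + 1 := length_histL _ _ _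
  have hsta : ∀ i, i ≤ N + 1 → sta (𝔇.prm d) d (𝔇.W₀ (d 0)) x i = stc 𝔇 d n ω i :=
    fun i hi => sta_eq_stc hi
  have hiff' : ∀ i < x.length, (IsRn (sta (𝔇.prm d) d (𝔇.W₀ (d 0)) x i) ∧
      (sta (𝔇.prm d) d (𝔇.W₀ (d 0)) x i).j = j + 1) ↔ (a < i ∧ i ≤ b) := by
    intro i hi
    rw [hsta i (by omega)]
    exact hiff i
  -- the rule at the stage `a`
  have hja : (stc 𝔇 d n ω a).j = j ∧ (stc 𝔇 d n ω (a + 1)).j = j + 1 := (huniq a).2 rfl
  have hrule : trR n ts TS.q (jc 𝔇 d) j (cfgE n ω) = (tst 𝔇 d n ω a).q := by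
    have h1 := HT.trR_eq (ω := ω) (i := a) (j := j)
      (by show (𝔇.cs d (ts ω a).x).j = j; rw [hts.cs]; exact hja.1)
      (by show (𝔇.cs d (ts ω (a + 1)).x).j = j + 1; rw [hts.cs]; exact hja.2)
    rw [h1, hts.succ]
  rcases Nat.eq_or_lt_of_le hab with hab' | hab'
  · -- no needle
    subst hab'
    rw [tipsX_none (a := a) (by omega) hiff']
    show trR n ts TS.q (jc 𝔇 d) j (cfgE n ω) = none
    rw [hrule]
    exact q_none hb1
  · -- the needle
    have hrun : ∀ i, a < i → i ≤ b → IsRn (stc 𝔇 d n ω i) := fun i h1 h2 =>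
      ((hiff i).2 ⟨h1, h2⟩).1
    obtain ⟨q, hq⟩ := Option.isSome_iff_exists.1
      (hG.ndl a (by omega) ha1 (hrun (a + 1) (by omega) (by omega)))
    obtain ⟨-, hk⟩ := q_start ha1 hq
    have hRj : trR n ts TS.q (jc 𝔇 d) j (cfgE n ω) = some q := hrule.trans hq
    have hV : stR n (trR n ts TS.q (jc 𝔇 d)) (cfgE n ω) j = (tst 𝔇 d n ω a).V := by
      obtain ⟨j', h1, -, h2⟩ := (HT.inv ω (a + 1)).2 q (by rw [hts.succ]; exact hq)
      have h3 : j + 1 = j' + 1 := by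
        rw [← h1]
        show _ = (𝔇.cs d (ts ω (a + 1)).x).j
        rw [hts.cs]
        exact hja.2.symm
      have h4 : j = j' := by omega
      rw [h4, ← h2, hts.succ]
    -- the states of the running stages
    have hstay : ∀ i, a ≤ i → i < b → (tst 𝔇 d n ω i).V = (tst 𝔇 d n ω a).V ∧
        (tst 𝔇 d n ω i).q = some q := by
      intro i hai
      induction i, hai using Nat.le_induction with
      | base => exact fun _ => ⟨rfl, hq⟩
      | succ i hai ih =>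
        intro hib
        obtain ⟨h1, h2⟩ := ih (by omega)
        have h4 := tst_stay (hrun (i + 1) (by omega) (by omega))
          (hrun (i + 2) (by omega) (by omega)) h2
        exact ⟨h4.1.trans h1, h4.2.1⟩
    have hmono : ∀ i, a ≤ i → i + 1 < b → (tst 𝔇 d n ω i).t ≤ (tst 𝔇 d n ω (i + 1)).t := by
      intro i h1 h2
      exact (tst_stay (hrun (i + 1) (by omega) (by omega)) (hrun (i + 2) (by omega) (by omega))
        (hstay i h1 (by omega)).2).2.2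
    have hp : ∀ t, (exR n (trR n ts TS.q (jc 𝔇 d)) j).p ω t = pS (tst 𝔇 d n ω a).V q ω t :=
      fun t => exR_pS hRj hV t
    have htip : ∀ i D, (stc 𝔇 d n ω i).run = some D → tipZ (stc 𝔇 d n ω i) = D.tip := by
      intro i D h1
      unfold tipZ
      rw [h1]
      rfl
    rw [tipsX_some hab' (by omega) hiff', hsta (a + 1) (by omega)]
    have hmap : (List.range' (a + 1) (b + 1 - (a + 1))).map (fun i =>
        ptK (2 ^ d 0) (tipZ (sta (𝔇.prm d) d (𝔇.W₀ (d 0)) x i))) =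
        (List.range' (a + 1) (b + 1 - (a + 1))).map fun i =>
          ptK (2 ^ d 0) (if i ≤ N then tipZ (stc 𝔇 d n ω i) else (0, 0)) := by
      refine List.map_congr_left fun i hi => ?_
      have := List.mem_range'_1.1 hi
      rw [if_pos (by omega), hsta i (by omega)]
    rw [hmap]
    have hB0 : 0 ≤ B := (abs_nonneg _).trans (hB 0 (by omega)).1
    have hperS : perS n ω (tst 𝔇 d n ω a).V q = Function.minimalPeriod
        (nxtE ((cfQ (cfgE n ω) (Dct.rem n (trR n ts TS.q (jc 𝔇 d)) j ω) q : Finset Edg) : Set Ed))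
        (bc (Dct.rem n (trR n ts TS.q (jc 𝔇 d)) j ω) q.1 q.2) := by
      unfold perS Dct.rem
      rw [hV]
    have hnear : ∀ i, a + 1 ≤ i → i < b → ∀ t, (tst 𝔇 d n ω (i - 1)).t ≤ t →
        t ≤ (tst 𝔇 d n ω i).t → NearW d n ω ρ (tst 𝔇 d n ω a).V q (tipZ (stc 𝔇 d n ω i)) t := by
      intro i h1 h2 t h3 h4
      obtain ⟨k, rfl⟩ : ∃ k, i = k + 1 := ⟨i - 1, by omega⟩
      rw [Nat.add_sub_cancel] at h3
      obtain ⟨D, hD⟩ := Option.isSome_iff_exists.1 (hrun (k + 1) (by omega) (by omega))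
      have h5 := hstay k (by omega) (by omega)
      have h6 := hG.near k (by omega) D q hD (hrun (k + 2) (by omega) (by omega)) h5.2 t h3 h4
      rw [h5.1] at h6
      rw [htip _ D hD]
      exact h6
    obtain ⟨kb, hkb⟩ : ∃ kb, b = kb + 1 := ⟨b - 1, by omega⟩
    obtain ⟨Db, hDb⟩ := Option.isSome_iff_exists.1 (hrun b (by omega) le_rfl)
    have hlast := hG.last kb (by omega) Db q (by rw [← hkb]; exact hDb) (by
        have := hb1
        rw [hkb] at this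
        exact this)
      (hstay kb (by omega) (by omega)).2
    rw [(hstay kb (by omega) (by omega)).1] at hlast
    refine stepOut_of_strand hn (by positivity) (HT.rulOK) hRj (by
        unfold Dct.rem
        rw [hV]
        exact hk) (w := fun i => if i ≤ N then tipZ (stc 𝔇 d n ω i) else (0, 0))
      (z := tipZ (stc 𝔇 d n ω (a + 1))) (τ := fun i => (tst 𝔇 d n ω (i - 1)).t)
      (a := a + 1) (b := b) (P := perS n ω (tst 𝔇 d n ω a).V q) (ρ := ρ) (B := B) (by omega) hperS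
      ?_ ?_ ?_ ?_ ?_ ?_ ?_ ?_ hδ
    · show (tst 𝔇 d n ω (a + 1 - 1)).t = 0
      rw [Nat.add_sub_cancel]
      exact t_start ha1
    · intro i h1 h2
      show (tst 𝔇 d n ω (i - 1)).t ≤ (tst 𝔇 d n ω (i + 1 - 1)).t
      rw [Nat.add_sub_cancel]
      have := hmono (i - 1) (by omega) (by omega)
      rwa [Nat.sub_add_cancel (by omega)] at this
    · show (tst 𝔇 d n ω (b - 1)).t ≤ _
      rw [hkb, Nat.add_sub_cancel]
      exact hlast.1
    · intro i h1 h2 t h3 h4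
      rw [if_pos (by omega), hp t]
      refine hnear i h1 h2 t h3 ?_
      simp only [Nat.add_sub_cancel] at h4
      exact h4
    · intro t h3 h4
      rw [if_pos (by omega), hp t, htip _ Db hDb]
      refine hlast.2 t ?_ h4
      simp only [hkb, Nat.add_sub_cancel] at h3
      exact h3
    · -- the base
      rw [hp 0]
      rcases Nat.lt_or_ge (a + 1) b with h5 | h5
      · exact hnear (a + 1) le_rfl h5 0 (by rw [Nat.add_sub_cancel, t_start ha1]) (Nat.zero_le _)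
      · have h6 : a + 1 = b := by omega
        have h7 : kb = a := by omega
        rw [h6, htip _ Db hDb]
        refine hlast.2 0 ?_ (Nat.zero_le _)
        rw [h7, t_start ha1]
    · intro i
      split_ifs with h5
      · exact hB i h5
      · simp only [abs_zero]
        exact ⟨hB0, hB0⟩
    · exact hB (a + 1) (by omega)

/-! ### The output row -/

/-- **The output row of the chain.** -/
theorem chnOut_inst {G : ℕ → ℕ → ℕ} {Bd : (ℕ → ℕ) → ℕ → ℕ → Set Cfg} {m T : ℕ} {r ε : ℝ}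
    (hr : 0 < r) (hε : 0 < ε) (hT : m * T ≤ N) (ℓ : ℕ) {δ : ℝ} (hδ0 : 0 < δ) (hδ : δ ≤ r / 8)
    (hδε : 8 * δ ≤ ε)
    (hmem : ∀ d n i ω, recS 𝔇 d n i ω ∈ recs 𝔇.kap (d i))
    {ts : (ℕ → ℕ) → ℕ → Cfg → ℕ → TS} (hts : ∀ d n, IsTs 𝔇 d n (ts d n))
    (H : ∀ d : ℕ → ℕ, d N = ℓ → (chD 𝔇 G Bd).Gro N d → ∀ᶠ n in atTop,
      TrcOK n (n / 𝔇.K) (ts d n) TS.V TS.q (jc 𝔇 d) ∧
      ∃ (E : Set Cfg) (cnt : ℕ → Cfg → ℕ) (ρ : ℤ),
        (ρ : ℝ) ≤ δ / 2 * n ∧ pr (Sn n) E ≤ ε / 4 ∧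
        (∀ j < m, pr (Sn n) {ω | T < cnt j ω} ≤ ε / (4 * (m + 1))) ∧
        ∀ ω : Cfg, ω ∉ E → (∀ i < N, ω ∉ Bd d n i) →
          (∀ j < m, #{i ∈ range (N + 1) | nfin 𝔇 d n ω i = j} ≤ cnt j ω) ∧
          (m ≤ nfin 𝔇 d n ω N → GoodO 𝔇 d n N ρ ω ∧
            FinR (8 * r * n) n 𝔇.K m (trR n (ts d n) TS.q (jc 𝔇 d)) (cfgE n ω))) :
    ChnOut (chD 𝔇 G Bd) 𝔇.K m N r ε := by
  refine chnOut_of_count (T := T) hr hε hT
    (fun d x j => tipsX (𝔇.prm d) d (𝔇.W₀ (d 0)) x j) ℓ hδ hδε fun d hdN hgro => ?_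
  obtain ⟨B, hB0, hB⟩ := exists_bound (π := 𝔇.prm d) (d := d) (W₀ := 𝔇.W₀ (d 0))
    ((chD 𝔇 G Bd).hst d N) (N + 1)
  have hev : ∀ᶠ n : ℕ in atTop, ((1 : ℝ) + 2 * B) / n ≤ δ / 2 := by
    obtain ⟨M, hM⟩ := exists_nat_ge (2 * (1 + 2 * (B : ℝ)) / δ)
    filter_upwards [eventually_ge_atTop M, eventually_gt_atTop 0] with n hn hn0
    have hn0' : (0 : ℝ) < n := by exact_mod_cast hn0
    have h1 : 2 * (1 + 2 * (B : ℝ)) / δ ≤ n := hM.trans (by exact_mod_cast hn)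
    rw [div_le_iff₀ hδ0] at h1
    rw [div_le_iff₀ hn0']
    linarith
  filter_upwards [H d hdN hgro, hev, eventually_gt_atTop 0] with n hH hn1 hn0
  obtain ⟨HT, E, cnt, ρ, hρ, hE, hcnt, hgood⟩ := hH
  refine ⟨trR n (ts d n) TS.q (jc 𝔇 d), HT.rulOK, E, fun i ω => nfin 𝔇 d n ω i, cnt, hE, hcnt,
    fun ω hω hbad => ?_⟩
  obtain ⟨h1, h2⟩ := hgood ω hω hbad
  refine ⟨fun i _ => ((stc_cnt 𝔇 d n ω).fin_succ i).1, h1, fun hm => ?_⟩
  obtain ⟨h3, h4⟩ := h2 hm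
  refine ⟨h4, fun j hj => ?_⟩
  have hmemx : histL (fun i => recS 𝔇 d n i) N ω ∈ (chD 𝔇 G Bd).hst d N :=
    histL_mem fun i _ => hmem d n i ω
  refine stepOut_inst hn0 (hts d n) HT h3 (lt_of_lt_of_le hj hm) (B := B) (fun i hi => ?_) ?_
  · have := hB _ hmemx i (by omega)
    rwa [sta_eq_stc (by omega)] at this
  · have hn0' : (0 : ℝ) < n := by exact_mod_cast hn0
    have h5 : (ρ : ℝ) / n ≤ δ / 2 := by
      rw [div_le_iff₀ hn0']
      exact hρ
    have h6 : ((ρ : ℝ) + 1 + 2 * B) / n = (ρ : ℝ) / n + ((1 : ℝ) + 2 * B) / n := by ring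
    rw [h6]
    linarith

end Pool.Agent.SixB.Tru
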