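import Pool.Agent.Lib.MP_6bd702_nt.A4
import Pool.Agent.Lib.MP_6bd702_nt.A1

/-!
# Step 8, needles, part SA: one needle step

Language of open edges (`Conn ω R`, `pr W`). `LeaveV ω R V q`: the cluster of `q` in the region `R` leaves the
set `V`.

* `two_cl`: the probability that two different clusters meet the finite set `Q` and leave `V` is at most the
  square of the probability that one does (exploration of the clusters one after the other).
* `harris_mix`: an increasing and a decreasing event are negatively correlated.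
* `dual_arm`: a path of the dual lattice across closed edges of a window from near `x` to far away is
  unlikely.
* `sum_pr_le`: disjoint events.
* `two_bad`: the conditional probability of a bad needle step is small compared with the probability of
  a macroscopic step.
-/

set_option autoImplicit false

namespace Pool.Agent.SixB.ScanA

open Finset Pool.Agent.MP_6bd702 Pool.Agent.MP_6bd702.H23 Pool.Agent.NT6

/-- The cluster of `q` in the region `R` leaves `V`. -/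
def LeaveV (ω : Set Ed) (R V : Set (ℤ × ℤ)) (q : ℤ × ℤ) : Prop := ∃ v, v ∉ V ∧ Conn ω R q v

theorem LeaveV.mono {ω ω' : Set Ed} {R R' V : Set (ℤ × ℤ)} {q : ℤ × ℤ} (h : LeaveV ω R V q)
    (hω : ω ⊆ ω') (hR : R ⊆ R') : LeaveV ω' R' V q := by
  obtain ⟨v, h1, h2⟩ := h
  exact ⟨v, h1, h2.mono hω hR⟩

/-- Finite additivity as an inequality. -/
theorem sum_pr_le {ι : Type} (W : Finset Ed) (s : Finset ι) (X : ι → Set (Set Ed)) (A : Set (Set Ed))
    (hA : ∀ i ∈ s, ∀ ω ⊆ (W : Set Ed), ω ∈ X i → ω ∈ A)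
    (h : ∀ i ∈ s, ∀ j ∈ s, ∀ ω ⊆ (W : Set Ed), ω ∈ X i → ω ∈ X j → i = j) :
    ∑ i ∈ s, pr W (X i) ≤ pr W A := by
  classical
  have h1 : ∑ i ∈ s, pr W (X i) =
      Ex fun t : Finset W => ∑ i ∈ s, ({t : Finset W | cfg W t ∈ X i}.indicator
        (fun _ => (1 : ℝ)) t) := by
    rw [Ex_sum]
    rfl
  rw [h1]
  have h2 : pr W A = Ex (fun t : Finset W => {t : Finset W | cfg W t ∈ A}.indicator
      (fun _ => (1 : ℝ)) t) := rfl
  rw [h2]
  refine Ex_mono fun t => ?_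
  by_cases h3 : ∃ i ∈ s, cfg W t ∈ X i
  · obtain ⟨i, hi, hit⟩ := h3
    rw [sum_eq_single i]
    · have h5 : t ∈ {t : Finset W | cfg W t ∈ X i} := hit
      have h6 : t ∈ {t : Finset W | cfg W t ∈ A} := hA i hi _ cfg_sub hit
      rw [Set.indicator_of_mem h5, Set.indicator_of_mem h6]
    · intro j hj hji
      refine Set.indicator_of_notMem (fun hjt => hji ?_) _
      exact h j hj i hi _ cfg_sub hjt hit
    · intro h4
      exact absurd hi h4
  · push Not at h3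
    have h4 : ∑ i ∈ s, ({t : Finset W | cfg W t ∈ X i}.indicator (fun _ => (1 : ℝ)) t) = 0 := by
      refine Finset.sum_eq_zero fun i hi => ?_
      have h5 : t ∉ {t : Finset W | cfg W t ∈ X i} := h3 i hi
      rw [Set.indicator_of_notMem h5]
    rw [h4]
    exact Set.indicator_nonneg (fun _ _ => zero_le_one) _

/-- An increasing and a decreasing event. -/
theorem harris_mix {W : Finset Ed} {A D : Set (Set Ed)} (hA : IsUpperSet A) (hD : IsLowerSet D) :
    pr W (A ∩ D) ≤ pr W A * pr W D := by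
  have h1 : pr W A * pr W Dᶜ ≤ pr W (A ∩ Dᶜ) := harris_up hA hD.compl
  have h2 : pr W (A ∩ D) + pr W (A ∩ Dᶜ) ≤ pr W A := by
    have h3 := sum_pr_le W (univ : Finset Bool) (fun b => if b then A ∩ D else A ∩ Dᶜ) A
      (by
        intro b _ ω _ h
        cases b
        · simp only [Bool.false_eq_true, if_false] at h; exact h.1
        · simp only [if_true] at h; exact h.1)
      (by
        intro b _ b' _ ω _ h h'
        cases b <;> cases b' <;> simp only [Bool.false_eq_true, if_false, if_true] at h h' ⊢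
        · exact absurd h'.2 h.2
        · exact absurd h.2 h'.2)
    simpa using h3
  rw [pr_compl] at h1
  nlinarith

/-! ### Exploration of several clusters -/

/-- The edges with an end in one of the clusters of the points of `B`. -/
def Sm (R : Set (ℤ × ℤ)) (B : Set (ℤ × ℤ)) (ω : Set Ed) : Set Ed :=
  {e | ∃ q ∈ B, e ∈ Sc R q ω}

theorem cl_sm {R B : Set (ℤ × ℤ)} {ω ω' : Set Ed} (h : ∀ e ∈ Sm R B ω, e ∈ ω ↔ e ∈ ω')
    {q : ℤ × ℤ} (hq : q ∈ B) : Cl ω' R q = Cl ω R q :=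
  cl_congr fun e he => h e ⟨q, hq, he⟩

theorem stop_sm {W : Finset Ed} (R B : Set (ℤ × ℤ)) :
    ∀ ω ⊆ (W : Set Ed), ∀ ω' ⊆ (W : Set Ed), (∀ e ∈ Sm R B ω, e ∈ W → (e ∈ ω ↔ e ∈ ω')) →
      Sm R B ω' = Sm R B ω := by
  intro ω hω ω' hω' h
  have h1 : ∀ q ∈ B, Sc R q ω' = Sc R q ω := fun q hq =>
    stop_Sc R q ω hω ω' hω' fun e he heW => h e ⟨q, hq, he⟩ heW
  ext e
  constructor
  · rintro ⟨q, hq, he⟩
    exact ⟨q, hq, by rw [← h1 q hq]; exact he⟩
  · rintro ⟨q, hq, he⟩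
    exact ⟨q, hq, by rw [h1 q hq]; exact he⟩

theorem cl_mix_sm {R B : Set (ℤ × ℤ)} {ω ξ : Set Ed} {q : ℤ × ℤ} (hq : q ∈ B) :
    Cl ((ω ∩ Sm R B ω) ∪ (ξ \ Sm R B ω)) R q = Cl ω R q :=
  cl_sm (B := B) (fun e he => ⟨fun h => Or.inl ⟨h, he⟩, fun h => by
    rcases h with h | h
    · exact h.1
    · exact absurd he h.2⟩) hq

theorem conn_mix_sm {R B : Set (ℤ × ℤ)} {p x : ℤ × ℤ} {ω ξ : Set Ed}
    (hp : ∀ q ∈ B, p ∉ Cl ω R q)
    (h : Conn ((ω ∩ Sm R B ω) ∪ (ξ \ Sm R B ω)) R p x) : Conn ξ R p x := by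
  set ζ : Set Ed := (ω ∩ Sm R B ω) ∪ (ξ \ Sm R B ω) with hζ
  have key : ∀ b, Conn ζ R p b → ∀ q ∈ B, b ∉ Cl ω R q := by
    intro b hb q hq hbw
    have hcl : Cl ζ R q = Cl ω R q := cl_mix_sm hq
    rw [← hcl] at hbw
    apply hp q hq
    rw [← hcl]
    exact Conn.trans hbw hb.symm
  have h' : Relation.ReflTransGen (Step ζ R) p x := h
  show Relation.ReflTransGen (Step ξ R) p x
  induction h' with
  | refl => exact .refl
  | @tail b c hb h2 ih =>
    have ih := ih hb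
    have hb' := key b hb
    have hc' := key c (Relation.ReflTransGen.tail hb h2)
    obtain ⟨hbR, hcR, e, he, hE⟩ := h2
    refine ih.tail ⟨hbR, hcR, e, ?_, hE⟩
    rcases he with he | he
    · exfalso
      obtain ⟨q, hq, h3⟩ := he.2
      rcases h3 with h3 | h3 <;> rcases hE with ⟨h4, h5⟩ | ⟨h4, h5⟩
      · rw [h4] at h3; exact hb' q hq h3
      · rw [h4] at h3; exact hc' q hq h3
      · rw [h5] at h3; exact hc' q hq h3
      · rw [h5] at h3; exact hb' q hq h3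
    · exact he.1

/-- One cluster which meets `Q` leaves `V`. -/
def One (R V : Set (ℤ × ℤ)) (Q : Finset (ℤ × ℤ)) : Set (Set Ed) := {ω | ∃ q ∈ Q, LeaveV ω R V q}

/-- Two different clusters which meet `Q` leave `V`. -/
def Two (R V : Set (ℤ × ℤ)) (Q : Finset (ℤ × ℤ)) : Set (Set Ed) :=
  {ω | ∃ q ∈ Q, ∃ q' ∈ Q, LeaveV ω R V q ∧ LeaveV ω R V q' ∧ ¬ Conn ω R q q'}

/-- `q` is the first point of `Q` whose cluster leaves `V`. -/
def Fst (R V : Set (ℤ × ℤ)) (Q : Finset (ℤ × ℤ)) (q : ℤ × ℤ) : Set (Set Ed) :=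
  {ω | LeaveV ω R V q ∧ ∀ q' ∈ Q, toLex q' < toLex q → ¬ LeaveV ω R V q'}

theorem LeaveV.conn {ω : Set Ed} {R V : Set (ℤ × ℤ)} {q q' : ℤ × ℤ} (h : LeaveV ω R V q)
    (hq : Conn ω R q q') : LeaveV ω R V q' := by
  obtain ⟨v, h1, h2⟩ := h
  exact ⟨v, h1, hq.symm.trans h2⟩

theorem leaveV_of_cl {ω ω' : Set Ed} {R V : Set (ℤ × ℤ)} {q : ℤ × ℤ}
    (h : Cl ω' R q = Cl ω R q) : LeaveV ω' R V q ↔ LeaveV ω R V q := by
  constructor
  · rintro ⟨v, h1, h2⟩
    refine ⟨v, h1, ?_⟩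
    have : v ∈ Cl ω' R q := h2
    rw [h] at this
    exact this
  · rintro ⟨v, h1, h2⟩
    refine ⟨v, h1, ?_⟩
    have : v ∈ Cl ω R q := h2
    rw [← h] at this
    exact this

/-- Two clusters from `Q` out of `V`. -/
theorem two_cl (W : Finset Ed) (R V : Set (ℤ × ℤ)) (Q : Finset (ℤ × ℤ)) :
    pr W (Two R V Q) ≤ (pr W (One R V Q)) ^ 2 := by
  classical
  set a := pr W (One R V Q) with ha
  have key : ∀ q ∈ Q, pr W (Fst R V Q q ∩ Two R V Q) ≤ a * pr W (Fst R V Q q) := by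
    intro q hq
    set B : Set (ℤ × ℤ) := {q' | q' ∈ Q ∧ toLex q' ≤ toLex q} with hB
    have hqB : q ∈ B := ⟨hq, le_rfl⟩
    have h1 : (1 - a) * pr W (Fst R V Q q) ≤
        pr W (Fst R V Q q ∩ (Two R V Q)ᶜ) := by
      refine pr_mix (Sm R B) (stop_sm R B) (Fst R V Q q) (fun _ => (One R V Q)ᶜ) _ ?_ ?_
      · intro ω _ _
        rw [pr_compl]
      · intro ω hω _ ξ hξ _
        set ζ : Set Ed := (ω ∩ Sm R B ω) ∪ (ξ \ Sm R B ω) with hζ
        have hF : ζ ∈ Fst R V Q q := by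
          refine ⟨(leaveV_of_cl (cl_mix_sm hqB)).2 hω.1, fun q' hq' hlt h => ?_⟩
          exact hω.2 q' hq' hlt ((leaveV_of_cl (cl_mix_sm (show q' ∈ B from ⟨hq', hlt.le⟩))).1 h)
        refine ⟨hF, ?_⟩
        rintro ⟨p, hp, p', hp', hpl, hpl', hpp⟩
        -- one of the two points is not in the cluster of `q`
        obtain ⟨x, hx, hxl, hxq⟩ : ∃ x ∈ Q, LeaveV ζ R V x ∧ ¬ Conn ζ R q x := by
          by_cases h : Conn ζ R q p
          · refine ⟨p', hp', hpl', fun h' => hpp (h.symm.trans h')⟩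
          · exact ⟨p, hp, hpl, h⟩
        have hxB : ∀ q' ∈ B, x ∉ Cl ω R q' := by
          intro q' hq' hxc
          have h2 : Cl ζ R q' = Cl ω R q' := cl_mix_sm hq'
          rw [← h2] at hxc
          have h3 : Conn ζ R q' x := hxc
          rcases eq_or_lt_of_le hq'.2 with h4 | h4
          · have h5 : q' = q := toLex.injective h4
            rw [h5] at h3
            exact hxq h3
          · exact hF.2 q' hq'.1 h4 (hxl.conn h3.symm)
        obtain ⟨v, hv, hxv⟩ := hxl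
        exact hξ ⟨x, hx, v, hv, conn_mix_sm hxB hxv⟩
    have h2 : pr W (Fst R V Q q ∩ Two R V Q) + pr W (Fst R V Q q ∩ (Two R V Q)ᶜ) ≤
        pr W (Fst R V Q q) := by
      have h3 := sum_pr_le W (univ : Finset Bool)
        (fun b => if b then Fst R V Q q ∩ Two R V Q else Fst R V Q q ∩ (Two R V Q)ᶜ) (Fst R V Q q)
        (by
          intro b _ ω _ h
          cases b
          · simp only [Bool.false_eq_true, if_false] at h; exact h.1
          · simp only [if_true] at h; exact h.1)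
        (by
          intro b _ b' _ ω _ h h'
          cases b <;> cases b' <;> simp only [Bool.false_eq_true, if_false, if_true] at h h' ⊢
          · exact absurd h'.2 h.2
          · exact absurd h.2 h'.2)
      simpa using h3
    linarith
  have hcov : pr W (Two R V Q) ≤ ∑ q ∈ Q, pr W (Fst R V Q q ∩ Two R V Q) := by
    have h1 : ∀ s : Finset (ℤ × ℤ), pr W {ω | ∃ q ∈ s, ω ∈ Fst R V Q q ∩ Two R V Q} ≤
        ∑ q ∈ s, pr W (Fst R V Q q ∩ Two R V Q) := by
      intro s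
      induction s using Finset.induction_on with
      | empty =>
        rw [sum_empty]
        have : {ω : Set Ed | ∃ q ∈ (∅ : Finset (ℤ × ℤ)), ω ∈ Fst R V Q q ∩ Two R V Q} =
            (Set.univ)ᶜ := by
          ext ω; simp
        rw [this, pr_compl, pr_univ]
        simp
      | insert i s hi ih =>
        have h2 : {ω | ∃ j ∈ insert i s, ω ∈ Fst R V Q j ∩ Two R V Q} ⊆
            (Fst R V Q i ∩ Two R V Q) ∪ {ω | ∃ j ∈ s, ω ∈ Fst R V Q j ∩ Two R V Q} := by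
          rintro ω ⟨j, hj, hT⟩
          rcases Finset.mem_insert.1 hj with h3 | h3
          · left; rw [← h3]; exact hT
          · right; exact ⟨j, h3, hT⟩
        refine (pr_mono h2).trans ((pr_union_le _ _ _).trans ?_)
        rw [sum_insert hi]
        linarith
    refine (pr_mono ?_).trans (h1 Q)
    intro ω hω
    obtain ⟨q, hq, q', hq', hl, hl', hn⟩ := hω
    -- the smallest point of `Q` whose cluster leaves `V`
    obtain ⟨z, hz, hzmin⟩ := exists_min_image (Q.filter fun q => LeaveV ω R V q) toLex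
      ⟨q, mem_filter.2 ⟨hq, hl⟩⟩
    rw [mem_filter] at hz
    refine ⟨z, hz.1, ⟨hz.2, fun x hx hlt h => ?_⟩, q, hq, q', hq', hl, hl', hn⟩
    exact absurd (hzmin x (mem_filter.2 ⟨hx, h⟩)) (not_le.2 hlt)
  have hsum : ∑ q ∈ Q, pr W (Fst R V Q q) ≤ a := by
    refine sum_pr_le W Q _ _ ?_ ?_
    · intro q hq ω _ h
      exact ⟨q, hq, h.1⟩
    · intro q hq q' hq' ω _ h h'
      rcases lt_trichotomy (toLex q) (toLex q') with h1 | h1 | h1
      · exact absurd h.1 (h'.2 q hq h1)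
      · exact toLex.injective h1
      · exact absurd h'.1 (h.2 q' hq' h1)
  have ha0 : 0 ≤ a := pr_nonneg _ _
  calc pr W (Two R V Q) ≤ ∑ q ∈ Q, pr W (Fst R V Q q ∩ Two R V Q) := hcov
    _ ≤ ∑ q ∈ Q, a * pr W (Fst R V Q q) := sum_le_sum key
    _ = a * ∑ q ∈ Q, pr W (Fst R V Q q) := (mul_sum _ _ _).symm
    _ ≤ a * a := mul_le_mul_of_nonneg_left hsum ha0
    _ = a ^ 2 := (sq a).symm

/-! ### Dual arms -/

/-- A path of faces across closed edges of `E` from near `x` to far away. Faces are labelled by the lower left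
corner. -/
def DArm (E : Set Ed) (x : ℤ × ℤ) (ρ r : ℤ) : Set (Set Ed) :=
  {ω | ∃ f g, sd f x ≤ ρ ∧ r ≤ sd g x ∧ Conn {e | cr e ∈ E ∧ cr e ∉ ω} Set.univ f g}

theorem dArm_lower (E : Set Ed) (x : ℤ × ℤ) (ρ r : ℤ) : IsLowerSet (DArm E x ρ r) := by
  rintro ω ω' h ⟨f, g, h1, h2, h3⟩
  exact ⟨f, g, h1, h2, h3.mono (fun e he => ⟨he.1, fun h4 => he.2 (h h4)⟩) le_rfl⟩

theorem dual_arm : ∀ η : ℝ, 0 < η → ∃ K : ℕ, 1 ≤ K ∧ ∀ (W E : Finset Ed) (x : ℤ × ℤ) (ρ r : ℤ),
    E ⊆ W → 1 ≤ ρ → K * ρ ≤ r → pr W (DArm (E : Set Ed) x ρ r) ≤ η := by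
  classical
  intro η hη
  obtain ⟨K, hK1, hK⟩ := one_arm η hη
  refine ⟨K, hK1, fun W E x ρ r hE hρ hr => ?_⟩
  set D : Finset Ed := E.image dc with hD
  have hmem : ∀ e, e ∈ D ↔ cr e ∈ E := by
    intro e
    rw [hD, mem_image]
    constructor
    · rintro ⟨e', he', rfl⟩
      rw [cr_dc]
      exact he'
    · intro h
      exact ⟨cr e, h, dc_cr e⟩
  set A : Set (Set Ed) := {ζ | ∃ f g, sd f x ≤ ρ ∧ r ≤ sd g x ∧ Conn (ζ ∩ (D : Set Ed)) Set.univ f g}
    with hA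
  have hloc : Loc D A := by
    intro ζ
    rw [hA]
    simp only [Set.mem_ofPred_eq, Set.inter_assoc, Set.inter_self]
  have h1 : pr W {ω | du ω ∈ A} = pr D A := pr_dual (fun e he => hE ((hmem e).1 he)) hloc
  have h2 : pr W (DArm (E : Set Ed) x ρ r) = pr W {ω | du ω ∈ A} := by
    refine pr_congr fun ω _ => ?_
    have h3 : {e | cr e ∈ (E : Set Ed) ∧ cr e ∉ ω} = du ω ∩ (D : Set Ed) := by
      ext e
      simp only [Set.mem_ofPred_eq, Set.mem_inter_iff, mem_du, mem_coe, hmem]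
      tauto
    constructor
    · rintro ⟨f, g, h4, h5, h6⟩
      rw [h3] at h6
      exact ⟨f, g, h4, h5, h6⟩
    · rintro ⟨f, g, h4, h5, h6⟩
      rw [← h3] at h6
      exact ⟨f, g, h4, h5, h6⟩
  rw [h2, h1]
  refine (pr_mono ?_).trans (hK D x ρ r hρ hr)
  rintro ζ ⟨f, g, h4, h5, h6⟩
  exact ⟨f, g, h4, h5, h6.mono Set.inter_subset_left le_rfl⟩

/-! ### One needle step -/

theorem one_upper (R V : Set (ℤ × ℤ)) (Q : Finset (ℤ × ℤ)) : IsUpperSet (One R V Q) := by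
  rintro ω ω' h ⟨q, hq, hl⟩
  exact ⟨q, hq, hl.mono h le_rfl⟩

/-- The needle makes the step macroscopic iff a cluster at the needle does. -/
theorem macro_iff {ω : Set Ed} {R V : Set (ℤ × ℤ)} {Qe : Set Ed} {Q : Finset (ℤ × ℤ)} {v₀ : ℤ × ℤ}
    (h0 : v₀ ∈ Q) (hQe : ∀ e ∈ Qe, ea e ∈ Q ∧ eb e ∈ Q) (hQc : ∀ q ∈ Q, Conn Qe R v₀ q) :
    LeaveV (ω ∪ Qe) R V v₀ ↔ ω ∈ One R V Q := by
  constructor
  · rintro ⟨v, hv, h⟩
    suffices H : ∃ q ∈ Q, Conn ω R q v by
      obtain ⟨q, hq, h1⟩ := H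
      exact ⟨q, hq, v, hv, h1⟩
    clear hv
    unfold Conn at h
    induction h with
    | refl => exact ⟨v₀, h0, .refl⟩
    | @tail b c hb h2 ih =>
      obtain ⟨q, hq, h1⟩ := ih
      obtain ⟨hbR, hcR, e, he, hE⟩ := h2
      rcases he with he | he
      · exact ⟨q, hq, Relation.ReflTransGen.tail h1 ⟨hbR, hcR, e, he, hE⟩⟩
      · refine ⟨c, ?_, .refl⟩
        rcases hE with ⟨h3, h4⟩ | ⟨h3, h4⟩
        · rw [← h4]; exact (hQe e he).2
        · rw [← h3]; exact (hQe e he).1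
  · rintro ⟨q, hq, v, hv, h⟩
    exact ⟨v, hv, ((hQc q hq).mono Set.subset_union_right le_rfl).trans
      (h.mono Set.subset_union_left le_rfl)⟩

/-- SA5: the probability of a bad step is small compared with the probability of a macroscopic step. -/
theorem step_bad : ∀ η : ℝ, 0 < η → ∃ K : ℕ, 1 ≤ K ∧ ∀ (W E : Finset Ed) (R V : Set (ℤ × ℤ))
    (Q : Finset (ℤ × ℤ)) (x : ℤ × ℤ) (ρ r : ℤ), E ⊆ W → 1 ≤ ρ → K * ρ ≤ r →
    (∀ q ∈ Q, sd q x ≤ ρ) → (∀ v, v ∉ V → r ≤ sd v x) →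
    pr W (One R V Q ∩ (Two R V Q ∪ DArm (E : Set Ed) x ρ r)) ≤ η * pr W (One R V Q) := by
  intro η hη
  obtain ⟨K₁, hK₁, h₁⟩ := one_arm (η / 2) (by positivity)
  obtain ⟨K₂, hK₂, h₂⟩ := dual_arm (η / 2) (by positivity)
  refine ⟨max K₁ K₂, le_trans hK₁ (le_max_left _ _), fun W E R V Q x ρ r hE hρ hr hQ hV => ?_⟩
  have hr1 : (K₁ : ℤ) * ρ ≤ r := le_trans (mul_le_mul_of_nonneg_right
    (by exact_mod_cast le_max_left K₁ K₂) (by omega)) hr
  have hr2 : (K₂ : ℤ) * ρ ≤ r := le_trans (mul_le_mul_of_nonneg_right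
    (by exact_mod_cast le_max_right K₁ K₂) (by omega)) hr
  set a := pr W (One R V Q) with ha
  have ha0 : 0 ≤ a := pr_nonneg _ _
  have ha1 : a ≤ η / 2 := by
    refine (pr_mono ?_).trans (h₁ W x ρ r hρ hr1)
    rintro ω ⟨q, hq, v, hv, h⟩
    exact ⟨q, v, hQ q hq, hV v hv, h.mono le_rfl (Set.subset_univ _)⟩
  have h3 : pr W (Two R V Q) ≤ a * (η / 2) := by
    refine (two_cl W R V Q).trans ?_
    rw [sq]
    exact mul_le_mul_of_nonneg_left ha1 ha0
  have h4 : pr W (One R V Q ∩ DArm (E : Set Ed) x ρ r) ≤ a * (η / 2) := by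
    refine (harris_mix (one_upper R V Q) (dArm_lower _ _ _ _)).trans ?_
    exact mul_le_mul_of_nonneg_left (h₂ W E x ρ r hE hρ hr2) ha0
  have h5 : One R V Q ∩ (Two R V Q ∪ DArm (E : Set Ed) x ρ r) ⊆
      Two R V Q ∪ (One R V Q ∩ DArm (E : Set Ed) x ρ r) := by
    rintro ω ⟨h6, h7 | h7⟩
    · exact Or.inl h7
    · exact Or.inr ⟨h6, h7⟩
  refine (pr_mono h5).trans ((pr_union_le _ _ _).trans ?_)
  linarith

/-! ### Sums over the steps -/

/-- Counting: every macroscopic step has its own index. -/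
theorem sum_pr_le_sum {ι ζ : Type} [DecidableEq ζ] (W : Finset Ed) (J : Finset ι)
    (M : ι → Set (Set Ed)) (Z : Finset ζ) (A : ζ → Set (Set Ed))
    (h : ∀ ω ⊆ (W : Set Ed), ∃ g : ι → ζ, (∀ j ∈ J, ω ∈ M j → g j ∈ Z ∧ ω ∈ A (g j)) ∧
      ∀ i ∈ J, ∀ j ∈ J, ω ∈ M i → ω ∈ M j → g i = g j → i = j) :
    ∑ j ∈ J, pr W (M j) ≤ ∑ z ∈ Z, pr W (A z) := by
  classical
  have e1 : ∑ j ∈ J, pr W (M j) = Ex fun t : Finset W => ∑ j ∈ J,
      ({t : Finset W | cfg W t ∈ M j}.indicator (fun _ => (1 : ℝ)) t) := by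
    rw [Ex_sum]; rfl
  have e2 : ∑ z ∈ Z, pr W (A z) = Ex fun t : Finset W => ∑ z ∈ Z,
      ({t : Finset W | cfg W t ∈ A z}.indicator (fun _ => (1 : ℝ)) t) := by
    rw [Ex_sum]; rfl
  rw [e1, e2]
  refine Ex_mono fun t => ?_
  obtain ⟨g, hg1, hg2⟩ := h (cfg W t) cfg_sub
  have e3 : ∀ {κ : Type} (S : Finset κ) (B : κ → Set (Set Ed)), ∑ j ∈ S,
      ({t : Finset W | cfg W t ∈ B j}.indicator (fun _ => (1 : ℝ)) t) =
      ((S.filter fun j => cfg W t ∈ B j).card : ℝ) := by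
    intro κ S B
    rw [card_filter]
    push_cast
    refine sum_congr rfl fun j _ => ?_
    by_cases hj : cfg W t ∈ B j
    · rw [if_pos hj, Set.indicator_of_mem (show t ∈ {t : Finset W | cfg W t ∈ B j} from hj)]
    · rw [if_neg hj, Set.indicator_of_notMem (show t ∉ {t : Finset W | cfg W t ∈ B j} from hj)]
  rw [e3, e3]
  have : (J.filter fun j => cfg W t ∈ M j).card ≤ (Z.filter fun z => cfg W t ∈ A z).card := by
    refine card_le_card_of_injOn g ?_ ?_
    · intro j hj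
      rw [mem_coe, mem_filter] at hj
      rw [mem_coe, mem_filter]
      exact hg1 j hj.1 hj.2
    · intro i hi j hj hij
      rw [mem_coe, mem_filter] at hi hj
      exact hg2 i hi.1 j hj.1 hi.2 hj.2 hij
  exact_mod_cast this

/-- SA4: the expected number of macroscopic steps is bounded. -/
theorem sum_macro (K : ℕ) : ∃ C : ℝ, 0 ≤ C ∧ ∀ (n : ℕ) (W : Finset Ed), EW 0 n 0 n ⊆ W →
    ∀ {ι : Type} (J : Finset ι) (M : ι → Set (Set Ed)),
    (∀ ω ⊆ (W : Set Ed), ∃ g : ι → ℤ × ℤ,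
      (∀ j ∈ J, ω ∈ M j → g j ∈ Bx n ∧ BigS K n (Cl ω (Bx n) (g j))) ∧
      ∀ i ∈ J, ∀ j ∈ J, ω ∈ M i → ω ∈ M j → Conn ω (Bx n) (g i) (g j) → i = j) →
    ∑ j ∈ J, pr W (M j) ≤ C := by
  classical
  obtain ⟨C, hC0, hC⟩ := number K
  refine ⟨C, hC0, fun n W hW ι J M h => ?_⟩
  have h0 := hC n 0 0 (by positivity) W (by simpa using hW)
  simp only [zero_add] at h0
  refine (sum_pr_le_sum W J M (Icc (0 : ℤ) n ×ˢ Icc (0 : ℤ) n) (fun z => {ω | Mn ω (Bx n) z ∧
    BigS K n (Cl ω (Bx n) z)}) ?_).trans h0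
  intro ω hω
  obtain ⟨g, hg1, hg2⟩ := h ω hω
  -- the smallest vertex of the cluster
  have hmin : ∀ p : ℤ × ℤ, p ∈ Bx n → ∃ z, z ∈ Bx n ∧ Conn ω (Bx n) p z ∧ Mn ω (Bx n) z := by
    intro p hp
    obtain ⟨z, hz, hzmin⟩ := exists_min_image
      ((Icc (0 : ℤ) n ×ˢ Icc (0 : ℤ) n).filter fun z => Conn ω (Bx n) p z) toLex
      ⟨p, mem_filter.2 ⟨by
        rw [mem_product, mem_Icc, mem_Icc]
        rw [mem_Rect] at hp
        exact ⟨⟨hp.1, hp.2.1⟩, hp.2.2.1, hp.2.2.2⟩, .refl⟩⟩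
    rw [mem_filter] at hz
    refine ⟨z, hz.2.mem hp, hz.2, fun u hu => ?_⟩
    have hu' : Conn ω (Bx n) z u := hu
    have hpu := hz.2.trans hu'
    refine hzmin u (mem_filter.2 ⟨?_, hpu⟩)
    have := hpu.mem hp
    rw [mem_Rect] at this
    rw [mem_product, mem_Icc, mem_Icc]
    exact ⟨⟨this.1, this.2.1⟩, this.2.2.1, this.2.2.2⟩
  choose! z hz1 hz2 hz3 using hmin
  refine ⟨fun j => z (g j), ?_, ?_⟩
  · intro j hj hjM
    obtain ⟨h1, h2⟩ := hg1 j hj hjM
    refine ⟨?_, hz3 _ h1, ?_⟩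
    · have := hz1 _ h1
      rw [mem_Rect] at this
      rw [mem_product, mem_Icc, mem_Icc]
      exact ⟨⟨this.1, this.2.1⟩, this.2.2.1, this.2.2.2⟩
    · obtain ⟨u, hu, v, hv, huv⟩ := h2
      have hu' : Conn ω (Bx n) (g j) u := hu
      have hv' : Conn ω (Bx n) (g j) v := hv
      exact ⟨u, (hz2 _ h1).symm.trans hu', v, (hz2 _ h1).symm.trans hv', huv⟩
  · intro i hi j hj hiM hjM hij
    refine hg2 i hi j hj hiM hjM ?_
    have h1 := hz2 _ (hg1 i hi hiM).1
    have h2 := hz2 _ (hg1 j hj hjM).1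
    have hij' : z (g i) = z (g j) := hij
    rw [hij'] at h1
    exact h1.trans h2.symm

/-- Product over the states: if the state is independent of the step then the bound for one step
gives the bound for the whole. -/
theorem sum_states {σ : Type} (W : Finset Ed) (St : Finset σ) (X B M : σ → Set (Set Ed)) {η : ℝ}
    (hB : ∀ s ∈ St, pr W (X s ∩ B s) = pr W (X s) * pr W (B s))
    (hM : ∀ s ∈ St, pr W (X s ∩ M s) = pr W (X s) * pr W (M s))
    (hη : ∀ s ∈ St, pr W (B s) ≤ η * pr W (M s))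
    (hX : ∀ s ∈ St, ∀ s' ∈ St, ∀ ω ⊆ (W : Set Ed), ω ∈ X s → ω ∈ X s' → s = s') :
    pr W {ω | ∃ s ∈ St, ω ∈ X s ∧ ω ∈ B s} ≤ η * pr W {ω | ∃ s ∈ St, ω ∈ X s ∧ ω ∈ M s} := by
  classical
  have h1 : ∀ S : Finset σ, pr W {ω | ∃ s ∈ S, ω ∈ X s ∧ ω ∈ B s} ≤
      ∑ s ∈ S, pr W (X s ∩ B s) := by
    intro S
    induction S using Finset.induction_on with
    | empty =>
      rw [sum_empty]
      have : {ω : Set Ed | ∃ s ∈ (∅ : Finset σ), ω ∈ X s ∧ ω ∈ B s} = (Set.univ)ᶜ := by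
        ext ω; simp
      rw [this, pr_compl, pr_univ]
      simp
    | insert i S hi ih =>
      have h2 : {ω | ∃ j ∈ insert i S, ω ∈ X j ∧ ω ∈ B j} ⊆
          (X i ∩ B i) ∪ {ω | ∃ j ∈ S, ω ∈ X j ∧ ω ∈ B j} := by
        rintro ω ⟨j, hj, hT⟩
        rcases Finset.mem_insert.1 hj with h3 | h3
        · left; rw [← h3]; exact hT
        · right; exact ⟨j, h3, hT⟩
      refine (pr_mono h2).trans ((pr_union_le _ _ _).trans ?_)
      rw [sum_insert hi]
      linarith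
  have h2 : ∑ s ∈ St, pr W (X s ∩ M s) ≤ pr W {ω | ∃ s ∈ St, ω ∈ X s ∧ ω ∈ M s} := by
    refine sum_pr_le W St _ _ ?_ ?_
    · intro s hs ω _ h
      exact ⟨s, hs, h.1, h.2⟩
    · intro s hs s' hs' ω hω h h'
      exact hX s hs s' hs' ω hω h.1 h'.1
  have h3 : ∑ s ∈ St, pr W (X s ∩ B s) ≤ η * ∑ s ∈ St, pr W (X s ∩ M s) := by
    rw [mul_sum]
    refine sum_le_sum fun s hs => ?_
    rw [hB s hs, hM s hs]
    have h4 := mul_le_mul_of_nonneg_left (hη s hs) (pr_nonneg W (X s))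
    linarith
  by_cases hη0 : 0 ≤ η
  · exact (h1 St).trans (h3.trans (mul_le_mul_of_nonneg_left h2 hη0))
  · -- then all the probabilities of the steps vanish
    push Not at hη0
    have h5 : ∀ s ∈ St, pr W (X s ∩ B s) = 0 ∧ pr W (X s ∩ M s) = 0 := by
      intro s hs
      have h6 := hη s hs
      have h7 := pr_nonneg W (B s)
      have h8 := pr_nonneg W (M s)
      have h9 : pr W (M s) = 0 := by
        by_contra hne
        have : 0 < pr W (M s) := lt_of_le_of_ne h8 (Ne.symm hne)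
        have := mul_neg_of_neg_of_pos hη0 this
        linarith
      have h10 : pr W (B s) = 0 := by rw [h9] at h6; linarith
      rw [hB s hs, hM s hs, h9, h10]
      simp
    have h6 : pr W {ω | ∃ s ∈ St, ω ∈ X s ∧ ω ∈ B s} ≤ 0 := by
      refine (h1 St).trans (le_of_eq (sum_eq_zero fun s hs => (h5 s hs).1))
    have h7 : pr W {ω | ∃ s ∈ St, ω ∈ X s ∧ ω ∈ M s} ≤ 0 := by
      have h8 : ∀ S : Finset σ, S ⊆ St → pr W {ω | ∃ s ∈ S, ω ∈ X s ∧ ω ∈ M s} ≤ 0 := by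
        intro S
        induction S using Finset.induction_on with
        | empty =>
          intro _
          have : {ω : Set Ed | ∃ s ∈ (∅ : Finset σ), ω ∈ X s ∧ ω ∈ M s} = (Set.univ)ᶜ := by
            ext ω; simp
          rw [this, pr_compl, pr_univ]
          simp
        | insert i S hi ih =>
          intro hS
          have h9 : {ω | ∃ j ∈ insert i S, ω ∈ X j ∧ ω ∈ M j} ⊆
              (X i ∩ M i) ∪ {ω | ∃ j ∈ S, ω ∈ X j ∧ ω ∈ M j} := by
            rintro ω ⟨j, hj, hT⟩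
            rcases Finset.mem_insert.1 hj with h3 | h3
            · left; rw [← h3]; exact hT
            · right; exact ⟨j, h3, hT⟩
          refine (pr_mono h9).trans ((pr_union_le _ _ _).trans ?_)
          have h10 := ih fun x hx => hS (mem_insert_of_mem hx)
          have h11 := (h5 i (hS (mem_insert_self i S))).2
          linarith
      exact h8 St (Subset.refl _)
    have h8 := pr_nonneg W {ω | ∃ s ∈ St, ω ∈ X s ∧ ω ∈ M s}
    have h9 : pr W {ω | ∃ s ∈ St, ω ∈ X s ∧ ω ∈ M s} = 0 := le_antisymm h7 h8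
    rw [h9]
    simpa using h6

end Pool.Agent.SixB.ScanA
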