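import Pool.Agent.Lib.SixB.S8ScanE
import Pool.Agent.Lib.SixB.S8ScanV
import Pool.Agent.Lib.SixB.S8ScanA
import Pool.Agent.Lib.MP_6bd702_nt.P2

/-!
# Step 8: the scan, a bad macroscopic step is unlikely

Row SA of the scan (`Rule.pr_bad`, for an arbitrary rule): conditionally on the state, a step is bad (two different clusters at
the needle reach far, or a dual arm) with probability at most `η` times the probability that it is
macroscopic; the expected number of macroscopic steps is bounded, since they find different wide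
clusters.
-/

set_option autoImplicit false

namespace Pool.Agent.SixB.Rule

open Pool.Agent.Perc hiding pr pr_mono pr_compl pr_union_le Conn
open Pool.Agent.MP_6bd702 Pool.Agent.MP_6bd702.H23
open Pool.Agent.NT6 (sd Cl BigS Bx)
open Pool.Agent.SixB.ScanA

namespace ScanN

variable {n h : ℕ} {T : Finset Edg} {U : Finset (ℤ × ℤ)} {q : Ndl} {R : Rul}

open Classical in
/-- The edges of the box in `ω`. -/
noncomputable def tf (n : ℕ) (ω : Set Ed) : Finset Edg := (boxE n).filter fun e => e ∈ ω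

theorem mem_tf {ω : Set Ed} {e : Edg} : e ∈ tf n ω ↔ e ∈ boxE n ∧ e ∈ ω := by
  simp only [tf, Finset.mem_filter]

theorem tf_sub {ω : Set Ed} : tf n ω ⊆ boxE n := fun _ he => (mem_tf.1 he).1

theorem coe_tf {ω : Set Ed} (hω : ω ⊆ (boxE n : Set Ed)) : ((tf n ω : Finset Edg) : Set Ed) = ω := by
  ext e
  rw [Finset.mem_coe, mem_tf]
  exact ⟨fun h => h.2, fun h => ⟨hω h, h⟩⟩

theorem tf_coe (hT : T ⊆ boxE n) : tf n (T : Set Ed) = T := by
  ext e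
  rw [mem_tf, Finset.mem_coe]
  exact ⟨fun h => h.2, fun h => ⟨hT h, h⟩⟩

theorem prB_le_pr {A : Set (Finset Edg)} : prB n A ≤ pr (boxE n) {ω | tf n ω ∈ A} := by
  rw [SmallClusters.boxE_eq]
  refine PercW.prB_le fun T hT h => ?_
  change tf n (T : Set Ed) ∈ A
  rw [tf_coe hT]
  exact h

/-! ### Independence -/

theorem pr_indep {W : Finset Ed} (S : Set Ed) {A B : Set (Set Ed)}
    (hA : ∀ ω ⊆ (W : Set Ed), ∀ ω' ⊆ (W : Set Ed), (∀ e ∈ S, e ∈ ω ↔ e ∈ ω') → ω ∈ A → ω' ∈ A)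
    (hB : ∀ ω ω' : Set Ed, (∀ e, e ∉ S → (e ∈ ω ↔ e ∈ ω')) → ω ∈ B → ω' ∈ B) :
    pr W (A ∩ B) = pr W A * pr W B := by
  have hsub : ∀ ω ⊆ (W : Set Ed), ∀ ξ ⊆ (W : Set Ed), (ω ∩ S) ∪ (ξ \ S) ⊆ (W : Set Ed) := by
    rintro ω hω ξ hξ e (he | he)
    · exact hω he.1
    · exact hξ he.1
  have hS1 : ∀ ω ξ : Set Ed, ∀ e ∈ S, e ∈ ω ↔ e ∈ (ω ∩ S) ∪ (ξ \ S) := by
    intro ω ξ e he
    constructor
    · intro h; exact Or.inl ⟨h, he⟩
    · rintro (h | h)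
      · exact h.1
      · exact absurd he h.2
  have hS2 : ∀ ω ξ : Set Ed, ∀ e, e ∉ S → (e ∈ ξ ↔ e ∈ (ω ∩ S) ∪ (ξ \ S)) := by
    intro ω ξ e he
    constructor
    · intro h; exact Or.inr ⟨h, he⟩
    · rintro (h | h)
      · exact absurd h.2 he
      · exact h.1
  have h1 : pr W B * pr W A ≤ pr W (A ∩ B) := by
    refine pr_mix (fun _ => S) (fun _ _ _ _ _ => rfl) A (fun _ => B) _ (fun _ _ _ => le_rfl) ?_
    intro ω hωA hω ξ hξB hξ
    exact ⟨hA ω hω _ (hsub ω hω ξ hξ) (hS1 ω ξ) hωA, hB ξ _ (hS2 ω ξ) hξB⟩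
  have h2 : pr W Bᶜ * pr W A ≤ pr W (A ∩ Bᶜ) := by
    refine pr_mix (fun _ => S) (fun _ _ _ _ _ => rfl) A (fun _ => Bᶜ) _ (fun _ _ _ => le_rfl) ?_
    intro ω hωA hω ξ hξB hξ
    refine ⟨hA ω hω _ (hsub ω hω ξ hξ) (hS1 ω ξ) hωA, fun h => hξB ?_⟩
    exact hB _ ξ (fun e he => (hS2 ω ξ e he).symm) h
  have h3 : pr W (A ∩ B) + pr W (A ∩ Bᶜ) ≤ pr W A := by
    have h4 := sum_pr_le W (Finset.univ : Finset Bool) (fun b => if b then A ∩ B else A ∩ Bᶜ) A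
      (by
        intro b _ ω _ h
        cases b
        · simp only [Bool.false_eq_true, if_false] at h; exact h.1
        · simp only [if_true] at h; exact h.1)
      (by
        intro b _ b' _ ω _ h h'
        cases b <;> cases b' <;> simp only [Bool.false_eq_true, if_false, if_true] at h h' ⊢
        · exact absurd h'.2 h.2
        · exact absurd h.2 h'.2)
    simpa using h4
  rw [pr_compl] at h2
  refine le_antisymm ?_ ?_
  · nlinarith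
  · linarith

/-! ### Dictionary -/

theorem adj_rst {a b : ℤ × ℤ} :
    AdjT (rst T U) a b ↔ Step (T : Set Ed) (U : Set (ℤ × ℤ)) a b := by
  unfold AdjT Step rst
  simp only [Finset.mem_filter, Finset.mem_coe]
  constructor
  · rintro ⟨e, ⟨he, h1, h2⟩, ⟨rfl, rfl⟩ | ⟨rfl, rfl⟩⟩
    · exact ⟨h1, h2, e, he, Or.inl ⟨rfl, rfl⟩⟩
    · exact ⟨h2, h1, e, he, Or.inr ⟨rfl, rfl⟩⟩
  · rintro ⟨ha, hb, e, he, ⟨rfl, rfl⟩ | ⟨rfl, rfl⟩⟩
    · exact ⟨e, ⟨he, ha, hb⟩, Or.inl ⟨rfl, rfl⟩⟩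
    · exact ⟨e, ⟨he, hb, ha⟩, Or.inr ⟨rfl, rfl⟩⟩

theorem mem_clV_rst {x w : ℤ × ℤ} :
    w ∈ clV (rst T U) x ↔ Conn (T : Set Ed) (U : Set (ℤ × ℤ)) x w := by
  have h1 : AdjT (rst T U) = Step (T : Set Ed) (U : Set (ℤ × ℤ)) := by
    funext a b
    exact propext adj_rst
  change Relation.ReflTransGen (AdjT (rst T U)) x w ↔ Relation.ReflTransGen (Step _ _) x w
  rw [h1]

theorem mem_Bx {w : ℤ × ℤ} (h : w ∈ Box n) : w ∈ Bx n := by
  have h1 := DictB.mem_Box.1 h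
  rw [mem_Rect]
  exact ⟨h1.1.1, h1.1.2, h1.2.1, h1.2.2⟩

theorem conn_of_clV (hT : T ⊆ boxE n) {x w : ℤ × ℤ} :
    w ∈ clV T x ↔ Conn (T : Set Ed) (Bx n) x w := by
  have h1 : AdjT T = Step (T : Set Ed) (Bx n) := by
    funext a b
    refine propext ⟨?_, ?_⟩
    · rintro ⟨e, he, hh⟩
      have h2 := PercO.mem_boxE'.1 (hT he)
      have h3 : ea e ∈ Bx n := mem_Bx h2.1
      have h4 : eb e ∈ Bx n := mem_Bx h2.2
      rcases hh with ⟨rfl, rfl⟩ | ⟨rfl, rfl⟩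
      · exact ⟨h3, h4, e, he, Or.inl ⟨rfl, rfl⟩⟩
      · exact ⟨h4, h3, e, he, Or.inr ⟨rfl, rfl⟩⟩
    · rintro ⟨-, -, e, he, hh⟩
      exact ⟨e, he, hh⟩
  change Relation.ReflTransGen (AdjT T) x w ↔ Relation.ReflTransGen (Step _ _) x w
  rw [h1]

/-- The vertices within distance `ρ`. -/
def Vd (ρ : ℝ) (x : ℤ × ℤ) : Set (ℤ × ℤ) := {v | dist (toC v) (toC x) ≤ ρ}

theorem mac_iff {ρ : ℝ} (hT : T ⊆ boxE n) (hU : U ⊆ Box n) (hq : IsNdl h U q) :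
    Mac ρ T U q ↔ (T : Set Ed) ∈ One (U : Set (ℤ × ℤ)) (Vd ρ q.2) (qV q.1) := by
  constructor
  · rintro ⟨u, hu, hd⟩
    obtain ⟨x, hx, hux⟩ := exists_qV hT hU hq hu
    exact ⟨x, hx, u, fun h' => absurd hd (not_lt.2 h'), mem_clV_rst.1 hux⟩
  · rintro ⟨x, hx, v, hv, h1⟩
    refine ⟨v, ?_, not_le.1 hv⟩
    have h2 : v ∈ clV (rst T U) x := mem_clV_rst.2 h1
    refine Relation.ReflTransGen.trans (hq.sub_clV (T := T) hx)
      (Relation.ReflTransGen.mono (fun a b hab => ?_) _ _ h2)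
    obtain ⟨e, he, hh⟩ := hab
    exact ⟨e, Finset.mem_union_left _ he, hh⟩

theorem two_of {ρ : ℝ} (h2 : TwoArms ρ T U q) :
    (T : Set Ed) ∈ Two (U : Set (ℤ × ℤ)) (Vd ρ q.2) (qV q.1) := by
  obtain ⟨x, hx, y, hy, hn, ⟨u, hu, hd⟩, u', hu', hd'⟩ := h2
  exact ⟨x, hx, y, hy, ⟨u, fun h' => absurd hd (not_lt.2 h'), mem_clV_rst.1 hu⟩,
    ⟨u', fun h' => absurd hd' (not_lt.2 h'), mem_clV_rst.1 hu'⟩, fun hc => hn (mem_clV_rst.2 hc)⟩

open Classical in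
/-- The edges of the remaining part which are not in the needle. -/
noncomputable def EU (n : ℕ) (U : Finset (ℤ × ℤ)) (q : Ndl) : Finset Ed :=
  (boxE n).filter fun e => tl e ∈ U ∧ hd e ∈ U ∧ e ∉ q.1

theorem mem_EU {e : Ed} : e ∈ EU n U q ↔ e ∈ boxE n ∧ tl e ∈ U ∧ hd e ∈ U ∧ e ∉ q.1 := by
  simp only [EU, Finset.mem_filter]

theorem side_dc (e : Ed) : ea (dc e) = side e false ∧ eb (dc e) = side e true := by
  obtain ⟨x, y, _ | _⟩ := e
  · rw [dc_false]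
    refine ⟨rfl, ?_⟩
    rw [eb_true]
    simp [side, tl]
  · rw [dc_true]
    refine ⟨rfl, ?_⟩
    rw [eb_false]
    simp [side, tl]

theorem dist_ctr (f : ℤ × ℤ) : dist (ctr f) (toC f) ≤ 1 := by
  unfold ctr
  rw [dist_eq_norm, add_sub_cancel_left]
  refine (norm_add_le _ _).trans ?_
  rw [norm_mul, Complex.norm_I, mul_one]
  norm_num

theorem sd_side (e : Ed) (b : Bool) : sd (side e b) (ea e) ≤ 1 := by
  obtain ⟨x, y, _ | _⟩ := e <;> cases b <;> simp [side, tl, sd, ea]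

theorem sd_of_qV (hq : IsNdl h U q) {x : ℤ × ℤ} (hx : x ∈ qV q.1) : sd x q.2 ≤ 3 * (h : ℤ) := by
  have h3 : (sd x q.2 : ℝ) ≤ 3 * h := (NT6.sd_le_ed _ _).trans (hq.diam x hx)
  exact_mod_cast h3

theorem dual_of {ρ : ℝ} (hq : IsNdl h U q) {ρ₁ r₁ : ℤ} (h1 : 3 * (h : ℤ) + 2 ≤ ρ₁)
    (h2 : (r₁ : ℝ) ≤ (ρ - 2) / 2) (hD : DualArm ρ n T U q) :
    (T : Set Ed) ∈ DArm (EU n U q : Set Ed) q.2 ρ₁ r₁ := by
  obtain ⟨e, he, b, f, hf, hd⟩ := hD
  refine ⟨side e b, f, ?_, ?_, ?_⟩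
  · have h9 := sd_of_qV hq (mem_qV.2 ⟨e, he, Or.inl rfl⟩)
    have h10 := sd_side e b
    have h11 := NT6.sd_tri (side e b) (ea e) q.2
    change sd (ea e) q.2 ≤ _ at h9
    omega
  · by_contra hcon
    push Not at hcon
    have h3 : (sd f q.2 : ℝ) < r₁ := by exact_mod_cast hcon
    have h4 := NT6.ed_le_sd f q.2
    unfold NT6.ed at h4
    have h5 := dist_triangle (ctr f) (toC f) (toC q.2)
    have h6 := dist_ctr f
    have h7 : (0 : ℝ) ≤ (sd f q.2 : ℝ) := by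
      have : 0 ≤ sd f q.2 := le_max_of_le_left (abs_nonneg _)
      exact_mod_cast this
    linarith
  · refine Relation.ReflTransGen.mono (fun a c hac => ?_) _ _ hf
    obtain ⟨e', he', h3, h4, h5, h6, h7⟩ := hac
    refine ⟨Set.mem_univ _, Set.mem_univ _, dc e', ⟨?_, ?_⟩, ?_⟩
    · rw [cr_dc]
      exact mem_EU.2 ⟨he', h3, h4, h6⟩
    · rw [cr_dc]
      exact h5
    · rw [(side_dc e').1, (side_dc e').2]
      rcases h7 with ⟨h8, h9⟩ | ⟨h8, h9⟩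
      · exact Or.inr ⟨h9, h8⟩
      · exact Or.inl ⟨h9, h8⟩

/-! ### Locality of the events of a step -/

theorem conn_loc {ω ω' : Set Ed}
    (h : ∀ e : Ed, tl e ∈ U → hd e ∈ U → (e ∈ ω ↔ e ∈ ω')) {x v : ℤ × ℤ}
    (hc : Conn ω (U : Set (ℤ × ℤ)) x v) : Conn ω' (U : Set (ℤ × ℤ)) x v := by
  refine Relation.ReflTransGen.mono (fun a c hac => ?_) _ _ hc
  obtain ⟨ha, hb, e, he, hh⟩ := hac
  refine ⟨ha, hb, e, (h e ?_ ?_).1 he, hh⟩
  · rcases hh with ⟨h1, -⟩ | ⟨h1, -⟩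
    · change ea e ∈ U; rw [h1]; exact ha
    · change ea e ∈ U; rw [h1]; exact hb
  · rcases hh with ⟨-, h1⟩ | ⟨-, h1⟩
    · change eb e ∈ U; rw [h1]; exact hb
    · change eb e ∈ U; rw [h1]; exact ha

theorem leave_loc {ω ω' : Set Ed} {V : Set (ℤ × ℤ)}
    (h : ∀ e : Ed, tl e ∈ U → hd e ∈ U → (e ∈ ω ↔ e ∈ ω')) {x : ℤ × ℤ}
    (hc : LeaveV ω (U : Set (ℤ × ℤ)) V x) : LeaveV ω' (U : Set (ℤ × ℤ)) V x := by
  obtain ⟨v, hv, h1⟩ := hc
  exact ⟨v, hv, conn_loc h h1⟩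

theorem one_loc {ω ω' : Set Ed} {V : Set (ℤ × ℤ)} {Q : Finset (ℤ × ℤ)}
    (h : ∀ e : Ed, tl e ∈ U → hd e ∈ U → (e ∈ ω ↔ e ∈ ω'))
    (hc : ω ∈ One (U : Set (ℤ × ℤ)) V Q) : ω' ∈ One (U : Set (ℤ × ℤ)) V Q := by
  obtain ⟨q, hq, h1⟩ := hc
  exact ⟨q, hq, leave_loc h h1⟩

theorem two_loc {ω ω' : Set Ed} {V : Set (ℤ × ℤ)} {Q : Finset (ℤ × ℤ)}
    (h : ∀ e : Ed, tl e ∈ U → hd e ∈ U → (e ∈ ω ↔ e ∈ ω'))
    (hc : ω ∈ Two (U : Set (ℤ × ℤ)) V Q) : ω' ∈ Two (U : Set (ℤ × ℤ)) V Q := by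
  obtain ⟨q, hq, q', hq', h1, h2, h3⟩ := hc
  exact ⟨q, hq, q', hq', leave_loc h h1, leave_loc h h2,
    fun h4 => h3 (conn_loc (fun e h5 h6 => (h e h5 h6).symm) h4)⟩

theorem dArm_loc {ω ω' : Set Ed} {x : ℤ × ℤ} {ρ₁ r₁ : ℤ}
    (h' : ∀ e : Ed, tl e ∈ U → hd e ∈ U → (e ∈ ω ↔ e ∈ ω'))
    (hc : ω ∈ DArm (EU n U q : Set Ed) x ρ₁ r₁) :
    ω' ∈ DArm (EU n U q : Set Ed) x ρ₁ r₁ := by
  obtain ⟨f, g, h1, h2, h3⟩ := hc
  refine ⟨f, g, h1, h2, h3.mono ?_ le_rfl⟩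
  rintro e ⟨h4, h5⟩
  have h6 := mem_EU.1 (Finset.mem_coe.1 h4)
  exact ⟨h4, fun h7 => h5 ((h' _ h6.2.1 h6.2.2.1).2 h7)⟩

/-! ### One step -/

theorem one_step {η : ℝ} (hη : 0 < η) : ∃ K' : ℕ, 1 ≤ K' ∧ ∀ (n h : ℕ) (ρ : ℝ),
    (K' : ℝ) * (3 * h + 2) ≤ (ρ - 4) / 2 → ∀ R : Rul, RulOK n h R → ∀ j : ℕ,
    pr (boxE n) {ω | BadR ρ n R (tf n ω) j} ≤ η * pr (boxE n) {ω | MacR ρ n R (tf n ω) j} := by
  classical
  obtain ⟨K', hK', hstep⟩ := step_bad η hη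
  refine ⟨K', hK', fun n h ρ hρ R hR j => ?_⟩
  set r₁ : ℤ := ⌊(ρ - 2) / 2⌋ with hr₁
  have hr₁a : (r₁ : ℝ) ≤ (ρ - 2) / 2 := Int.floor_le _
  have hr₁b : (ρ - 2) / 2 < r₁ + 1 := Int.lt_floor_add_one _
  have hKr : (K' : ℤ) * (3 * (h : ℤ) + 2) ≤ r₁ := by
    have h1 : (((K' : ℤ) * (3 * (h : ℤ) + 2) : ℤ) : ℝ) ≤ (r₁ : ℝ) := by
      push_cast
      linarith
    exact_mod_cast h1
  have hρ0 : 0 ≤ ρ := by
    have h1 : (0 : ℝ) ≤ (K' : ℝ) * (3 * h + 2) := by positivity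
    linarith
  -- the state and the needle are decided by the explored edges
  have hX : ∀ s : Finset (ℤ × ℤ) × Ndl, ∀ ω ⊆ ((boxE n : Finset Ed) : Set Ed),
      ∀ ω' ⊆ ((boxE n : Finset Ed) : Set Ed),
      (∀ e ∈ {e : Ed | ¬ (tl e ∈ s.1 ∧ hd e ∈ s.1)}, e ∈ ω ↔ e ∈ ω') →
      ω ∈ {ω : Set Ed | ω ⊆ (boxE n : Set Ed) ∧ stR n R (tf n ω) j = s.1 ∧
        R j (tf n ω) = some s.2} →
      ω' ∈ {ω : Set Ed | ω ⊆ (boxE n : Set Ed) ∧ stR n R (tf n ω) j = s.1 ∧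
        R j (tf n ω) = some s.2} := by
    rintro s ω hω ω' hω' hag ⟨-, hU, hq⟩
    have h1 : ∀ e ∈ boxE n, (tl e ∉ stR n R (tf n ω) j ∨ hd e ∉ stR n R (tf n ω) j) →
        (e ∈ tf n ω ↔ e ∈ tf n ω') := by
      intro e he h1
      rw [mem_tf, mem_tf]
      refine and_congr_right fun _ => hag e fun h2 => ?_
      rw [hU] at h1
      rcases h1 with h1 | h1
      · exact h1 h2.1
      · exact h1 h2.2
    refine ⟨hω', ?_, ?_⟩
    · rw [← hU]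
      exact Rule.st_congr hR tf_sub tf_sub j h1
    · rw [← hq]
      exact hR.loc _ _ tf_sub tf_sub j h1
  have key := sum_states (σ := Finset (ℤ × ℤ) × Ndl) (boxE n)
    ((Box n).powerset ×ˢ ((boxE n).powerset ×ˢ Box n))
    (fun s => {ω | ω ⊆ (boxE n : Set Ed) ∧ stR n R (tf n ω) j = s.1 ∧ R j (tf n ω) = some s.2})
    (fun s => {ω | IsNdl h s.1 s.2 ∧
      ω ∈ One (s.1 : Set (ℤ × ℤ)) (Vd ρ s.2.2) (qV s.2.1) ∩
        (Two (s.1 : Set (ℤ × ℤ)) (Vd ρ s.2.2) (qV s.2.1) ∪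
          DArm (EU n s.1 s.2 : Set Ed) s.2.2 (3 * (h : ℤ) + 2) r₁)})
    (fun s => {ω | IsNdl h s.1 s.2 ∧
      ω ∈ One (s.1 : Set (ℤ × ℤ)) (Vd ρ s.2.2) (qV s.2.1)})
    (η := η) ?_ ?_ ?_ ?_
  · refine (pr_mono' fun ω hω hbad => ?_).trans (key.trans
      (mul_le_mul_of_nonneg_left (pr_mono' fun ω hω hmac => ?_) hη.le))
    · obtain ⟨q, hq, hM, hB⟩ := hbad
      have hN := hR.ndl (tf n ω) tf_sub j q hq
      have hUB : stR n R (tf n ω) j ⊆ Box n := stR_sub_box j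
      refine ⟨(stR n R (tf n ω) j, q), ?_, ⟨hω, rfl, hq⟩, hN, ?_, ?_⟩
      · rw [Finset.mem_product, Finset.mem_product, Finset.mem_powerset, Finset.mem_powerset]
        exact ⟨hUB, hN.sub hUB, hUB hN.base_mem⟩
      · have h1 := (mac_iff tf_sub hUB hN).1 hM
        rw [coe_tf hω] at h1
        exact h1
      · rcases hB with hB | hB
        · left
          have h1 := two_of hB
          rw [coe_tf hω] at h1
          exact h1
        · right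
          have h1 := dual_of hN (ρ₁ := 3 * (h : ℤ) + 2) le_rfl hr₁a hB
          rw [coe_tf hω] at h1
          exact h1
    · obtain ⟨⟨U, q⟩, hs, ⟨-, hU, hq⟩, hN, h1⟩ := hmac
      simp only at hU hq hN h1
      rw [Finset.mem_product, Finset.mem_powerset] at hs
      refine ⟨q, hq, ?_⟩
      rw [hU]
      refine (mac_iff tf_sub hs.1 hN).2 ?_
      rw [coe_tf hω]
      exact h1
  · -- independence for the bad event
    intro s _
    refine pr_indep {e | ¬ (tl e ∈ s.1 ∧ hd e ∈ s.1)} (hX s) ?_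
    rintro ω ω' hag ⟨hA, h1, h2⟩
    have hag' : ∀ e : Ed, tl e ∈ s.1 → hd e ∈ s.1 → (e ∈ ω ↔ e ∈ ω') :=
      fun e h3 h4 => hag e fun h5 => h5 ⟨h3, h4⟩
    refine ⟨hA, one_loc hag' h1, ?_⟩
    rcases h2 with h2 | h2
    · exact Or.inl (two_loc hag' h2)
    · exact Or.inr (dArm_loc hag' h2)
  · -- independence for the macroscopic event
    intro s _
    refine pr_indep {e | ¬ (tl e ∈ s.1 ∧ hd e ∈ s.1)} (hX s) ?_
    rintro ω ω' hag ⟨hA, h1⟩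
    have hag' : ∀ e : Ed, tl e ∈ s.1 → hd e ∈ s.1 → (e ∈ ω ↔ e ∈ ω') :=
      fun e h3 h4 => hag e fun h5 => h5 ⟨h3, h4⟩
    exact ⟨hA, one_loc hag' h1⟩
  · -- one step
    rintro ⟨U, q⟩ -
    simp only
    by_cases hN : IsNdl h U q
    · have h1 := hstep (boxE n) (EU n U q) (U : Set (ℤ × ℤ)) (Vd ρ q.2) (qV q.1) q.2
        (3 * (h : ℤ) + 2) r₁ (fun e he => (mem_EU.1 he).1) (by omega) hKr
        (fun x hx => by
          have h4 := sd_of_qV hN hx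
          omega)
        (fun v hv => by
          by_contra hcon
          push Not at hcon
          have h2 : (sd v q.2 : ℝ) < r₁ := by exact_mod_cast hcon
          have h3 := NT6.ed_le_sd v q.2
          unfold NT6.ed at h3
          have h4 : ρ < dist (toC v) (toC q.2) := not_le.1 hv
          linarith)
      refine (pr_mono ?_).trans (h1.trans (mul_le_mul_of_nonneg_left (pr_mono ?_) hη.le))
      · rintro ω ⟨-, h2⟩
        exact h2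
      · intro ω h2
        exact ⟨hN, h2⟩
    · refine (pr_mono (B := {ω | IsNdl h U q ∧
        ω ∈ One (U : Set (ℤ × ℤ)) (Vd ρ q.2) (qV q.1)}) ?_).trans ?_
      · rintro ω ⟨h2, -⟩
        exact absurd h2 hN
      · have h2 : ({ω | IsNdl h U q ∧
            ω ∈ One (U : Set (ℤ × ℤ)) (Vd ρ q.2) (qV q.1)} : Set (Set Ed)) = (Set.univ)ᶜ := by
          ext ω
          simp [hN]
        rw [h2, pr_compl, pr_univ]
        simp
  · rintro ⟨U, q⟩ _ ⟨U', q'⟩ _ ω _ ⟨-, h1, h2⟩ ⟨-, h3, h4⟩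
    rw [h1] at h3
    rw [h2] at h4
    simp only at h3 h4
    rw [Prod.mk.injEq]
    exact ⟨h3, Option.some.inj h4⟩

/-! ### Counting the macroscopic steps -/

theorem count_steps (K₂ : ℕ) : ∃ C : ℝ, 0 ≤ C ∧ ∀ (n h : ℕ) (ρ : ℝ),
    3 * (h : ℝ) ≤ ρ / 2 → (n : ℝ) < K₂ * (ρ / 3) → ∀ R : Rul, RulOK n h R → ∀ J : ℕ,
    ∑ j ∈ Finset.range J, pr (boxE n) {ω | MacR ρ n R (tf n ω) j} ≤ C := by
  classical
  obtain ⟨C, hC0, hC⟩ := sum_macro K₂
  refine ⟨C, hC0, fun n h ρ h1 h2 R hR J => ?_⟩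
  refine hC n (boxE n) (by rw [SmallClusters.boxE_eq]) (Finset.range J) _ ?_
  intro ω hω
  set T := tf n ω with hT
  have hTω : (T : Set Ed) = ω := coe_tf hω
  have hTs : T ⊆ boxE n := tf_sub
  have hq : ∀ j, MacR ρ n R T j → ∃ x, x ∈ stR n R T j ∧ x ∉ stR n R T (j + 1) ∧
      ∃ u ∈ clV (rst T (stR n R T j)) x, ρ - 3 * h < dist (toC u) (toC x) := by
    rintro j ⟨q, hq, u, hu, hd⟩
    have hN := hR.ndl T hTs j q hq
    obtain ⟨x, hx, hxu⟩ := exists_qV hTs (stR_sub_box j) hN hu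
    refine ⟨x, hN.mem hx, ?_, u, hxu, ?_⟩
    · rw [stR_succ_some hq, mem_stpQ]
      exact fun h3 => h3.2 (Or.inl (hN.sub_clV hx))
    · have h3 := dist_triangle (toC u) (toC x) (toC q.2)
      have h4 := hN.diam x hx
      linarith
  choose! g hg1 hg2 hg3 using hq
  have hlt : ∀ i j, i < j → MacR ρ n R T i → MacR ρ n R T j → ¬ Conn ω (Bx n) (g j) (g i) := by
    intro i j hij hi hj hc
    have hI := inv_stR hR hTs j
    have h3 : g i ∈ clV T (g j) := by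
      rw [conn_of_clV hTs, hTω]
      exact hc
    have h5 : g i ∈ stR n R T j := clV_sub_of_inv hI (hg1 j hj) h3
    exact hg2 i hi (stR_anti n R T (by omega) h5)
  refine ⟨g, ?_, ?_⟩
  · intro j _ hj
    change MacR ρ n R T j at hj
    obtain ⟨u, hu, hd⟩ := hg3 j hj
    have hI := inv_stR hR hTs j
    have h4 := hg1 j hj
    refine ⟨mem_Bx (stR_sub_box j h4), u, ?_, g j, .refl, ?_⟩
    · rw [clV_rst hI h4, conn_of_clV hTs, hTω] at hu
      exact hu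
    · have h7 := NT6.ed_le_sd u (g j)
      unfold NT6.ed at h7
      have h8 : ρ / 3 < (sd u (g j) : ℝ) := by linarith
      have h9 : (n : ℝ) < K₂ * (sd u (g j) : ℝ) :=
        h2.trans_le (mul_le_mul_of_nonneg_left h8.le (Nat.cast_nonneg _))
      exact_mod_cast h9
  · intro i _ j _ hi hj hc
    rcases lt_trichotomy i j with h3 | h3 | h3
    · exact absurd hc.symm (hlt i j h3 hi hj)
    · exact h3
    · exact absurd hc (hlt j i h3 hj hi)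

theorem pr_exists_le {W : Finset Ed} (J : ℕ) (A : ℕ → Set (Set Ed)) :
    pr W {ω | ∃ j < J, ω ∈ A j} ≤ ∑ j ∈ Finset.range J, pr W (A j) := by
  induction J with
  | zero =>
    rw [Finset.range_zero, Finset.sum_empty]
    have : ({ω | ∃ j < 0, ω ∈ A j} : Set (Set Ed)) = (Set.univ)ᶜ := by
      ext ω; simp
    rw [this, pr_compl, pr_univ]
    simp
  | succ J ih =>
    have h1 : ({ω | ∃ j < J + 1, ω ∈ A j} : Set (Set Ed)) ⊆ {ω | ∃ j < J, ω ∈ A j} ∪ A J := by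
      rintro ω ⟨j, hj, h2⟩
      rcases Nat.lt_or_ge j J with h3 | h3
      · exact Or.inl ⟨j, h3, h2⟩
      · rw [show j = J by omega] at h2
        exact Or.inr h2
    rw [Finset.sum_range_succ]
    refine (pr_mono h1).trans ((pr_union_le _ _ _).trans ?_)
    linarith

end ScanN

open ScanN

/-- Row SA of the scan: no macroscopic step is bad, with high probability. -/
theorem pr_bad {r ε : ℝ} (hr : 0 < r) (hε : 0 < ε) : ∃ K₀ : ℕ, ∀ K, K₀ ≤ K → ∀ m : ℕ, ∃ N : ℕ,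
    ∀ n, N ≤ n → ∀ R : Rul, RulOK n (n / K) R →
      prB n {T | ∃ j < m, BadR (r * n) n R T j} ≤ ε := by
  obtain ⟨K₂, hK₂⟩ := exists_nat_gt (3 / r)
  obtain ⟨C, hC0, hC⟩ := count_steps K₂
  obtain ⟨K', hK'1, hK'⟩ := one_step (η := ε / (C + 1)) (by positivity)
  obtain ⟨K₁, hK₁⟩ := exists_nat_gt (12 * K' / r)
  refine ⟨K₁ + 1, fun K hK m => ?_⟩
  obtain ⟨N, hN⟩ := exists_nat_gt ((8 * K' + 16) / r)
  refine ⟨N + 1, fun n hn R hR => ?_⟩
  have hK1 : 12 * K' / r < K := hK₁.trans_le (by exact_mod_cast (by omega : K₁ ≤ K))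
  have hn1 : (8 * K' + 16) / r < n := hN.trans_le (by exact_mod_cast (by omega : N ≤ n))
  rw [div_lt_iff₀ hr] at hK1 hn1 hK₂
  have hKpos : (0 : ℝ) < K := by
    have : 0 < K := by omega
    exact_mod_cast this
  have hnpos : (0 : ℝ) < n := by
    have : 0 < n := by omega
    exact_mod_cast this
  have hhR : ((n / K : ℕ) : ℝ) * K ≤ n := by
    have h1 : ((n / K : ℕ) : ℝ) ≤ n / K := Nat.cast_div_le
    rw [le_div_iff₀ hKpos] at h1
    exact h1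
  set a : ℕ := n / K with ha
  clear_value a
  have ha0 : (0 : ℝ) ≤ a := Nat.cast_nonneg _
  have hK'R : (1 : ℝ) ≤ K' := by exact_mod_cast hK'1
  have e1 : (a : ℝ) * (12 * K') ≤ r * n := by
    have h1 : (a : ℝ) * (12 * K') ≤ a * (K * r) := by gcongr
    nlinarith
  have e2 : (a : ℝ) * 12 ≤ r * n := by
    have h1 : (a : ℝ) * 12 ≤ a * (12 * K') := by nlinarith
    linarith
  have c1 : (K' : ℝ) * (3 * a + 2) ≤ (r * n - 4) / 2 := by nlinarith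
  have c2 : 3 * (a : ℝ) ≤ r * n / 2 := by nlinarith
  have c3 : (n : ℝ) < K₂ * (r * n / 3) := by nlinarith
  refine prB_le_pr.trans ?_
  refine (pr_exists_le m (fun j => {ω | BadR (r * n) n R (tf n ω) j})).trans ?_
  have h1 : ∑ j ∈ Finset.range m, pr (boxE n) {ω | BadR (r * n) n R (tf n ω) j} ≤
      ∑ j ∈ Finset.range m, ε / (C + 1) * pr (boxE n) {ω | MacR (r * n) n R (tf n ω) j} :=
    Finset.sum_le_sum fun j _ => hK' n a (r * n) c1 R hR j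
  refine h1.trans ?_
  rw [← Finset.mul_sum]
  have h2 := hC n a (r * n) c2 c3 R hR m
  have h3 : ε / (C + 1) * C ≤ ε := by
    rw [div_mul_eq_mul_div, div_le_iff₀ (by positivity)]
    nlinarith
  exact (mul_le_mul_of_nonneg_left h2 (by positivity)).trans h3

end Pool.Agent.SixB.Rule
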