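import Pool.Agent.Lib.SixB.S8ScanC
import Pool.Agent.Lib.SixB.S8ScanN
import Pool.Agent.Lib.SixB.S8OrdCurve
import Pool.Agent.Lib.SixB.S8Bubble

/-!
# Step 8: the theorem of the scan, and claim 1 from the records

`scan_thm`: for every rule for the needles, with high probability the scan finds the largest clusters and
the curves of its macroscopic steps are close to outer perimeters of clusters. `claim1_of_record`: the
statement `RecordScan` about the coarse exploration implies the existence of the scaling limit.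
-/

set_option autoImplicit false

namespace Pool.Agent.SixB.Rule

open Set Filter Topology MeasureTheory TopologicalSpace
open Pool.Agent.Perc Pool.Agent.PercD
open Pool.Agent.PercU (Cor vtx fce nxt nxtE qry)

variable {n h : ℕ} {T : Finset Edg} {U : Finset (ℤ × ℤ)} {q : Ndl} {R : Rul}

/-- A good macroscopic step: its curve is close to an outer perimeter. -/
theorem close_of_good (hn : 0 < n) (hT : T ⊆ boxE n) (hI : Inv n T U) (hq : IsNdl h U q) {ρ : ℝ}
    (hρ : 3 * (h : ℝ) + 2 ≤ ρ) (hM : Mac ρ T U q) (h2 : ¬ TwoArms ρ T U q)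
    (hD : ¬ DualArm ρ n T U q) :
    ∃ v ∈ Box n, dist (outerCurve n T v) (crv n T U q) ≤ 2 * (ρ / n) + 4 / n := by
  have hn0 : (0 : ℝ) < n := by exact_mod_cast hn
  obtain ⟨u, hu, huK, hsame⟩ := same_corners hT hI hq hρ hM h2 hD
  refine ⟨u, hI.sub hu, ?_⟩
  have h1 := dist_outerCurve_of_same hn (T := rst T U) (Tp := cfQ T U q)
    Finset.subset_union_left (cfQ_sub hq hT hI.sub) (hI.sub hu) (c := toC q.2 / n)
    (r := ρ / n) (div_nonneg (by have : (0 : ℝ) ≤ h := Nat.cast_nonneg h; linarith) hn0.le) ?_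
  · rw [outerCurve_rst hT hI hu, outerCurve_eq_of_mem huK] at h1
    exact h1
  · intro k hk
    refine hsame k ?_
    have e1 : dist (toC (vtx k) / (n : ℂ)) (toC q.2 / n) =
        dist (toC (vtx k)) (toC q.2) / n := by
      rw [dist_eq_norm, dist_eq_norm, ← sub_div, norm_div, Complex.norm_natCast]
    rw [e1, div_lt_div_iff_of_pos_right hn0] at hk
    exact hk

theorem crvR_some {j : ℕ} (hj : R j T = some q) : crvR n R T j = crv n T (stR n R T j) q := by
  unfold crvR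
  rw [hj]
  rfl

/-- The deterministic part of the theorem of the scan. -/
theorem scanGood_of {K m : ℕ} {r ε δ : ℝ} (hn1 : 0 < n) (hr : 0 < r) (hrδ : 8 * r ≤ δ)
    (hrε : 4 * r ≤ ε) (hKr : 8 ≤ r * K) (hK : 0 < K) (hnr : 8 ≤ r * n)
    (hR : RulOK n (n / K) R) (hT : T ⊆ boxE n)
    (h1 : ∃ v ∈ Box n, δ * n ≤ Metric.diam (clS T v))
    (h2 : ¬ ∃ j < m, BadR (r * n) n R T j)
    (h3 : ¬ ∃ v ∈ Box n, δ * n ≤ Metric.diam (clS T v) ∧
      ∀ a b : ℕ, a < K + 2 → b < K + 2 → ∃ w : ℤ × ℤ,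
        dist (toC w) (toC (((a * (n / K) : ℕ) : ℤ), ((b * (n / K) : ℕ) : ℤ))) ≤ 4 * (n / K : ℕ) ∧
        w ∉ Swal T v)
    (hF : FinR (8 * r * n) n K m R T) : ScanGood n m R r ε T := by
  have hn0 : (0 : ℝ) < n := by exact_mod_cast hn1
  have hK0 : (0 : ℝ) < K := by exact_mod_cast hK
  have hhK : ((n / K : ℕ) : ℝ) ≤ r * n / 8 := by
    have e1 : ((n / K : ℕ) : ℝ) ≤ n / K := Nat.cast_div_le
    refine e1.trans ?_
    rw [div_le_iff₀ hK0]
    nlinarith
  have h8 : 8 * r * n ≤ δ * n := mul_le_mul_of_nonneg_right hrδ hn0.le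
  refine ⟨fun v hv => ?_, fun j hj hm => ?_⟩
  · -- the cluster of `v` is swallowed
    obtain ⟨v₀, hv₀, hd₀⟩ := h1
    have hdv : δ * n ≤ Metric.diam (clS T v) := hd₀.trans (hv.2 v₀ hv₀)
    have hout : v ∉ stR n R T m := by
      intro hin
      refine h3 ⟨v, hv.1, hdv, fun a b ha hb => hF a b ha hb v hin (h8.trans hdv)⟩
    obtain ⟨j, hj, q, hjq, hvj, hsj⟩ := exists_step hv.1 hout
    have hI := inv_stR hR hT j
    have hq := hR.ndl T hT j q hjq
    have hdd := diam_le_of_sub_swal (clV_sub_swal hT hI hq hvj hsj)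
    refine ⟨j, hj, ⟨q, hjq, mac_of_diam hT hI.sub hq ?_⟩, ?_⟩
    · refine lt_of_lt_of_le ?_ (hdv.trans hdd)
      nlinarith
    · rw [crvR_some hjq]
      have hT' := cfQ_sub hq hT hI.sub
      have e1 := cdiam_outerCurve hn1 hT v
      have e2 := cdiam_outerCurve hn1 hT' q.2
      rw [← e1, ← e2] at hdd
      exact le_of_mul_le_mul_right hdd hn0
  · -- the curve of a macroscopic step
    obtain ⟨q, hjq, hM⟩ := hm
    have hI := inv_stR hR hT j
    have hq := hR.ndl T hT j q hjq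
    have hnot : ¬ TwoArms (r * n) T (stR n R T j) q ∧ ¬ DualArm (r * n) n T (stR n R T j) q := by
      constructor
      · exact fun hc => h2 ⟨j, hj, q, hjq, hM, Or.inl hc⟩
      · exact fun hc => h2 ⟨j, hj, q, hjq, hM, Or.inr hc⟩
    obtain ⟨v, hv, hd⟩ := close_of_good hn1 hT hI hq (ρ := r * n) (by linarith) hM hnot.1 hnot.2
    refine ⟨v, hv, ?_⟩
    rw [crvR_some hjq]
    refine hd.trans ?_
    rw [mul_div_cancel_right₀ _ hn0.ne']
    have : 4 / (n : ℝ) ≤ r / 2 := by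
      rw [div_le_iff₀ hn0]
      linarith
    linarith

/-- **The theorem of the scan.** -/
theorem scan_thm {ε : ℝ} (hε : 0 < ε) : ∃ r : ℝ, 0 < r ∧ r ≤ ε ∧ ∃ K₀ : ℕ, ∀ K, K₀ ≤ K →
    ∀ m : ℕ, ∃ N : ℕ, ∀ n, N ≤ n → ∀ R : Rul, RulOK n (n / K) R →
      prB n {T | FinR (8 * r * n) n K m R T ∧ ¬ ScanGood n m R r ε T} ≤ ε := by
  obtain ⟨δ, hδ, hdiam⟩ := diam_small (ε / 3) (by positivity)
  obtain ⟨N₁, hN₁⟩ := eventually_atTop.1 hdiam
  set r : ℝ := min (ε / 4) (δ / 8) with hr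
  have hr0 : 0 < r := lt_min (by positivity) (by positivity)
  have hr1 : r ≤ ε / 4 := min_le_left _ _
  have hr2 : r ≤ δ / 8 := min_le_right _ _
  obtain ⟨K₂, hK₂⟩ := pr_bad hr0 (show 0 < ε / 3 by positivity)
  obtain ⟨K₃, hK₃⟩ := bubble hδ (show 0 < ε / 3 by positivity)
  obtain ⟨K₄, hK₄⟩ := exists_nat_ge (8 / r)
  refine ⟨r, hr0, by linarith, max (max K₂ K₃) (max K₄ 1), fun K hK m => ?_⟩
  have k2 : K₂ ≤ K := le_trans (le_trans (le_max_left _ _) (le_max_left _ _)) hK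
  have k3 : K₃ ≤ K := le_trans (le_trans (le_max_right _ _) (le_max_left _ _)) hK
  have k4 : K₄ ≤ K := le_trans (le_trans (le_max_left _ _) (le_max_right _ _)) hK
  have k5 : 0 < K := lt_of_lt_of_le one_pos
    (le_trans (le_trans (le_max_right _ _) (le_max_right _ _)) hK)
  obtain ⟨N₂, hN₂⟩ := hK₂ K k2 m
  obtain ⟨N₃, hN₃⟩ := hK₃ K k3
  obtain ⟨N₄, hN₄⟩ := exists_nat_ge (8 / r)
  refine ⟨max (max N₁ N₂) (max N₃ (max N₄ 1)), fun n hn R hR => ?_⟩
  have n1 : N₁ ≤ n := le_trans (le_trans (le_max_left _ _) (le_max_left _ _)) hn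
  have n2 : N₂ ≤ n := le_trans (le_trans (le_max_right _ _) (le_max_left _ _)) hn
  have n3 : N₃ ≤ n := le_trans (le_trans (le_max_left _ _) (le_max_right _ _)) hn
  have n4 : N₄ ≤ n :=
    le_trans (le_trans (le_trans (le_max_left _ _) (le_max_right _ _)) (le_max_right _ _)) hn
  have n5 : 0 < n := lt_of_lt_of_le one_pos
    (le_trans (le_trans (le_trans (le_max_right _ _) (le_max_right _ _)) (le_max_right _ _)) hn)
  have hKr : 8 ≤ r * K := by
    have : 8 / r ≤ K := hK₄.trans (by exact_mod_cast k4)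
    rw [div_le_iff₀ hr0] at this
    linarith
  have hnr : 8 ≤ r * n := by
    have : 8 / r ≤ n := hN₄.trans (by exact_mod_cast n4)
    rw [div_le_iff₀ hr0] at this
    linarith
  set B₁ : Set (Finset Edg) := {T | ∀ v ∈ Box n, Metric.diam (clS T v) < δ * n} with hB₁
  set B₂ : Set (Finset Edg) := {T | ∃ j < m, BadR (r * n) n R T j} with hB₂
  set B₃ : Set (Finset Edg) := {T | ∃ v ∈ Box n, δ * n ≤ Metric.diam (clS T v) ∧
      ∀ a b : ℕ, a < K + 2 → b < K + 2 → ∃ w : ℤ × ℤ,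
        dist (toC w) (toC (((a * (n / K) : ℕ) : ℤ), ((b * (n / K) : ℕ) : ℤ))) ≤ 4 * (n / K : ℕ) ∧
        w ∉ Swal T v} with hB₃
  refine (Perc.PercD.prB_union B₁ (B₂ ∪ B₃) _ ?_).trans ((add_le_add (hN₁ n n1)
    ((Perc.PercD.prB_union B₂ B₃ _ ?_).trans (add_le_add (hN₂ n n2 R hR) (hN₃ n n3)))).trans
      (by linarith))
  · rintro T hT ⟨hF, hg⟩
    by_contra hc
    rw [not_or, mem_union, not_or] at hc
    obtain ⟨c1, c2, c3⟩ := hc
    rw [hB₁, mem_ofPred_eq] at c1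
    push Not at c1
    exact hg (scanGood_of n5 hr0 (by linarith) (by linarith) hKr k5 hnr hR hT c1 c2 c3 hF)
  · intro T _ hT
    exact hT

/-- **Claim 1 from the records.** -/
theorem claim1_of_record (h : RecordScan) :
    ∃ μ : ProbabilityMeasure Curve, ∀ sel : ℕ → Finset Edg → ℤ × ℤ, (∀ n, IsSel n (sel n)) →
      Tendsto (fun n => lawP n (sel n)) atTop (𝓝 μ) := by
  classical
  refine claim1_of_scan fun ε hε => ?_
  obtain ⟨r, hr, hrε, K₁, hK₁⟩ := scan_thm (show 0 < ε / 4 by positivity)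
  obtain ⟨K₂, hK₂⟩ := h r (ε / 4) hr (by positivity)
  obtain ⟨m, S, hS, F, out, a, N₂, hN₂⟩ := hK₂ (max K₁ K₂) (le_max_right _ _)
  obtain ⟨N₁, hN₁⟩ := hK₁ (max K₁ K₂) (le_max_left _ _) m
  refine ⟨S, hS, fun s => ((Finset.range m).image (F s)).eraseNone, out, a,
    max N₁ N₂, fun n hn => ?_⟩
  obtain ⟨n2, R, hR, n3⟩ := hN₂ n (le_trans (le_max_right _ _) hn)
  have n1 := hN₁ n (le_trans (le_max_left _ _) hn) R hR
  refine ⟨n2.trans (by linarith), ?_⟩
  refine (Perc.PercD.prB_union _ _ _ ?_).trans ((add_le_add n1 n3).trans (by linarith))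
  intro T hT hg
  by_contra hc
  rw [not_or] at hc
  obtain ⟨c1, c2⟩ := hc
  rw [mem_ofPred_eq, not_not] at c2
  obtain ⟨c3, c4⟩ := c2
  rw [mem_ofPred_eq, not_and, not_not] at c1
  obtain ⟨s1, s2⟩ := c1 c3
  apply hg
  constructor
  · intro v hv
    obtain ⟨j, hj, hm, hd⟩ := s1 v hv
    obtain ⟨c, hc⟩ := (c4 j hj).1 hm
    obtain ⟨-, hcd⟩ := (c4 j hj).2 c hc
    refine ⟨c, Finset.mem_eraseNone.2 (Finset.mem_image.2 ⟨j, Finset.mem_range.2 hj, hc⟩), ?_⟩
    have := cdiam_le_add (crvR n R T j) c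
    rw [dist_comm] at this
    linarith
  · intro c hc
    obtain ⟨j, hj, hjc⟩ := Finset.mem_image.1 (Finset.mem_eraseNone.1 hc)
    obtain ⟨hm, hcd⟩ := (c4 j (Finset.mem_range.1 hj)).2 c hjc
    obtain ⟨v, hv, hd⟩ := s2 j (Finset.mem_range.1 hj) hm
    refine ⟨v, hv, ?_⟩
    have := dist_triangle (outerCurve n T v) (crvR n R T j) c
    rw [dist_comm (crvR n R T j) c] at this
    linarith

end Pool.Agent.SixB.Rule
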