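import Pool.Agent.Lib.SixB.S8Law
import Pool.Agent.Lib.SixB.S8OutInst
import Pool.Agent.Lib.SixB.S8ChainR
import Pool.Agent.Lib.SixB.S8ScanMain
import Pool.Agent.Lib.SixB.Final

/-!
# Step 8: the rows of the chain of moves in the names of `S8Chain`

`𝔇` : data of the chain, `G` : growth of the resolutions, `Bd` : bad events. One proposition for every row of
`ChnOK` and of `ChnOut`; `chnOK_of_rows`, `chnOut_of_rows` and `nChn_of_rows` are the assembly.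
-/

set_option autoImplicit false

namespace Pool.Agent.SixB.Tru

open Filter Finset Pool.Agent.Perc Pool.Agent.PercT Pool.Agent.PercX60 Pool.Agent.PercD
open Pool.Agent.SixB Pool.Agent.SixB.Rule Pool.Agent.SixB.Dct Pool.Agent.SixB.Mv

section rows

variable (𝔇 : Dat) (G : ℕ → ℕ → ℕ) (Bd : (ℕ → ℕ) → ℕ → ℕ → Set Cfg)

/-- row `mem`: the records are possible records -/
def RowMem : Prop := ∀ d n i ω, recS 𝔇 d n i ω ∈ recs 𝔇.kap (d i)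

/-- the state of the chain is decided by the explored faces -/
def RowTst : Prop := ∀ d n m ω ω', (∀ f ∈ expS (tst 𝔇 d n ω m) ω, ω f = ω' f) →
  tst 𝔇 d n ω' m = tst 𝔇 d n ω m

/-- row `stop`: the explored faces are a stopping set -/
def RowStop : Prop := ∀ d n m ω ω', (∀ f ∈ expS (tst 𝔇 d n ω m) ω, ω f = ω' f) →
  expS (tst 𝔇 d n ω' m) ω' = expS (tst 𝔇 d n ω m) ω

/-- the explored faces grow -/
def RowGrow : Prop := ∀ d n ω i m, i ≤ m → expS (tst 𝔇 d n ω i) ω ⊆ expS (tst 𝔇 d n ω m) ω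

/-- row `bad`: the bad events are decided by the explored faces of their own stage -/
def RowBad : Prop := ∀ d n i ω ω', (∀ f ∈ expS (tst 𝔇 d n ω i) ω, ω f = ω' f) →
  (ω ∈ Bd d n i ↔ ω' ∈ Bd d n i)

/-- row `init`: the first record is trivial -/
def RowInit : Prop := ∀ d n ω, recS 𝔇 d n 0 ω = (∅, 0)

/-- row `Loc`: the records depend only on the edges of the box -/
def RowLoc : Prop := ∀ d n i ω ω', cfgE n ω = cfgE n ω' → recS 𝔇 d n i ω = recS 𝔇 d n i ω'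

/-- the mixed configuration gives the same tip -/
def RowTip : Prop := ∀ d n m ω, TipOK (tst 𝔇 d n ω m) ω

/-- row `rare`: the bad events are rare -/
def RowRare : Prop := ∀ (m ℓ : ℕ) (η : ℝ), 0 < η → ∃ L : ℕ, ∀ d : ℕ → ℕ, d (m + 1) = ℓ → L ≤ d m →
  (chD 𝔇 G Bd).Gro (m + 1) d → ∀ᶠ n in atTop, pr (Sn n) (Bd d n m) ≤ η

/-- the estimate of one move for one past (input of the row `law`) -/
def RowEst : Prop := ∀ m ℓ : ℕ, ∃ (B C α c₀ : ℝ) (L₀ : ℕ), 0 < α ∧ 0 ≤ B ∧ 0 ≤ C ∧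
  ∀ d : ℕ → ℕ, d (m + 1) = ℓ → L₀ ≤ d m → (chD 𝔇 G Bd).Gro (m + 1) d →
    ∀ᶠ n in atTop, ∀ ω, (∀ i ≤ m, ω ∉ Bd d n i) → ∃ x y : ℝ, 0 ≤ x ∧ 0 < y ∧
      x * 2 ^ gap (d m) ℓ ≤ c₀ * y ∧
      MvEst 𝔇 d n (Sn n) (tst 𝔇 d n ω m) ω (B * (C * (x / y) ^ α))

/-- **The rows of `ChnOK`.** -/
theorem chnOK_of_rows (hCA : CAOut) (hmem : RowMem 𝔇) (htst : RowTst 𝔇) (hstop : RowStop 𝔇)
    (hgrow : RowGrow 𝔇) (hbad : RowBad 𝔇 Bd) (hinit : RowInit 𝔇) (htip : RowTip 𝔇)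
    (hrare : RowRare 𝔇 G Bd) (hest : RowEst 𝔇 G Bd) : ChnOK (chD 𝔇 G Bd) Sn where
  mem := hmem
  stop := hstop
  recd d n m i him ω ω' h := by
    have h1 := htst d n i ω ω' fun f hf => h f (hgrow d n ω i m him hf)
    change recS 𝔇 d n i ω' = recS 𝔇 d n i ω
    unfold recS
    rw [h1]
  bad d n m i him ω ω' h := hbad d n i ω ω' fun f hf => h f (hgrow d n ω i m him hf)
  init d a ha := by
    classical
    have h1 : (fun n => pr (Sn n) {ω | (chD 𝔇 G Bd).s d n 0 ω = a}) = fun _ => if a = (∅, 0) then 1 else 0 := by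
      funext n
      have h2 : {ω | (chD 𝔇 G Bd).s d n 0 ω = a} = {_ω : Cfg | a = (∅, 0)} := by
        ext ω
        change recS 𝔇 d n 0 ω = a ↔ _
        rw [hinit d n ω]
        exact eq_comm
      rw [h2, pr_const_set]
    rw [h1]
    exact Conv.const _
  rare := hrare
  law := law_of_mvEst hCA htst htip hest

end rows

/-! ### The output row -/

/-- **What the chain has to deliver** (input of `recordScan_of_chn`). -/
def NChn : Prop := ∀ r ε : ℝ, 0 < r → 0 < ε → ∃ K₀ : ℕ, ∀ K, K₀ ≤ K →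
  ∃ (A : Type) (_ : DecidableEq A) (c : ChnD A) (m N : ℕ), ChnOK c Sn ∧ c.Loc ∧
    ChnOut c K m N r ε

section out

variable (𝔇 : Dat) (G : ℕ → ℕ → ℕ) (Bd : (ℕ → ℕ) → ℕ → ℕ → Set Cfg)

/-- the history at the stage `i` -/
noncomputable def hx (d : ℕ → ℕ) (n i : ℕ) (ω : Cfg) : List Rec :=
  histL (fun i => recS 𝔇 d n i) i ω

/-- no bad event before the stage `N` -/
def Gd (N : ℕ) (d : ℕ → ℕ) (n : ℕ) (ω : Cfg) : Prop := ∀ i < N, ω ∉ Bd d n i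

/-- the rule of the chain is a rule for needles of size `n / K` -/
def RowRule (R : (ℕ → ℕ) → ℕ → Rul) : Prop := ∀ d n, RulOK n (n / 𝔇.K) (R d n)

/-- the number of the needles which are finished before the stage `i` does not decrease -/
def RowMono : Prop := ∀ d n i ω, nfin 𝔇 d n ω i ≤ nfin 𝔇 d n ω (i + 1)

/-- row `count`: the number of stages of one needle is tight, uniformly in the resolutions -/
def RowCnt : Prop := ∀ ε : ℝ, 0 < ε → ∃ T : ℕ, ∀ N : ℕ, ∃ ℓ₀ : ℕ, ∀ d : ℕ → ℕ, ℓ₀ ≤ d N →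
  (chD 𝔇 G Bd).Gro N d → ∀ᶠ n in atTop, ∃ cnt : ℕ → Cfg → ℕ,
    (∀ j < 𝔇.m, pr (Sn n) {ω | T < cnt j ω} ≤ ε) ∧
    ∀ ω, Gd Bd N d n ω → ∀ j < 𝔇.m, #{i ∈ range (N + 1) | nfin 𝔇 d n ω i = j} ≤ cnt j ω

/-- row `step`: the tips read off from the history follow the walk, off a rare event -/
def RowStep (R : (ℕ → ℕ) → ℕ → Rul) (tips : (ℕ → ℕ) → List Rec → ℕ → Option (ℂ × List ℂ))
    (δ ε : ℝ) : Prop := ∀ N : ℕ, ∃ ℓ₀ : ℕ, ∀ d : ℕ → ℕ, ℓ₀ ≤ d N →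
  (chD 𝔇 G Bd).Gro N d → ∀ᶠ n in atTop, ∃ E : Set Cfg, pr (Sn n) E ≤ ε ∧
    ∀ ω, ω ∉ E → Gd Bd N d n ω → 𝔇.m ≤ nfin 𝔇 d n ω N →
      ∀ j < 𝔇.m, Out.StepOut n (R d n) (cfgE n ω) j δ (tips d (hx 𝔇 d n N ω) j)

/-- row `fin`: after the last needle the grid points are finished, off a rare event -/
def RowFin (R : (ℕ → ℕ) → ℕ → Rul) (r ε : ℝ) : Prop := ∀ N : ℕ, ∃ ℓ₀ : ℕ,
  ∀ d : ℕ → ℕ, ℓ₀ ≤ d N → (chD 𝔇 G Bd).Gro N d → ∀ᶠ n in atTop, ∃ E : Set Cfg, pr (Sn n) E ≤ ε ∧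
    ∀ ω, ω ∉ E → Gd Bd N d n ω → 𝔇.m ≤ nfin 𝔇 d n ω N →
      FinR (8 * r * n) n 𝔇.K 𝔇.m (R d n) (cfgE n ω)

/-- the row `mono` -/
theorem rowMono : RowMono 𝔇 := fun d n i ω => ((stc_cnt 𝔇 d n ω).fin_succ i).1

/-- the row `rule` -/
theorem rowRule : RowRule 𝔇 fun d n => TruR.ruleT 𝔇 d n := fun d n => TruR.ruleT_ok 𝔇 d n

/-- **The output row.** -/
theorem chnOut_of_rows {R : (ℕ → ℕ) → ℕ → Rul}
    {tips : (ℕ → ℕ) → List Rec → ℕ → Option (ℂ × List ℂ)} {r ε δ : ℝ} (hr : 0 < r) (hε : 0 < ε)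
    (hδ : δ ≤ r / 8) (hδε : 8 * δ ≤ ε) (hrule : RowRule 𝔇 R) (hmono : RowMono 𝔇)
    (hcnt : RowCnt 𝔇 G Bd) (hstep : RowStep 𝔇 G Bd R tips δ (ε / 8))
    (hfin : RowFin 𝔇 G Bd R r (ε / 8)) :
    ∃ N, ChnOut (chD 𝔇 G Bd) 𝔇.K 𝔇.m N r ε := by
  obtain ⟨T, hT⟩ := hcnt (ε / (4 * (𝔇.m + 1))) (by positivity)
  refine ⟨𝔇.m * T, ?_⟩
  obtain ⟨ℓ₁, h1⟩ := hT (𝔇.m * T)
  obtain ⟨ℓ₂, h2⟩ := hstep (𝔇.m * T)
  obtain ⟨ℓ₃, h3⟩ := hfin (𝔇.m * T)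
  refine Out.chnOut_of_count (T := T) hr hε le_rfl tips (max ℓ₁ (max ℓ₂ ℓ₃)) hδ hδε fun d hd hG => ?_
  filter_upwards [h1 d (by omega) hG, h2 d (by omega) hG, h3 d (by omega) hG] with n g1 g2 g3
  obtain ⟨cnt, c1, c2⟩ := g1
  obtain ⟨E, e1, e2⟩ := g2
  obtain ⟨E', e1', e2'⟩ := g3
  refine ⟨R d n, hrule d n, E ∪ E', fun i ω => nfin 𝔇 d n ω i, cnt, ?_, c1, fun ω hE hb => ?_⟩
  · have := pr_union_le (Sn n) E E'
    linarith
  · rw [Set.mem_union, not_or] at hE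
    exact ⟨fun i _ => hmono d n i ω, c2 ω hb, fun hm => ⟨e2' ω hE.2 hb hm, e2 ω hE.1 hb hm⟩⟩

end out

/-- the data for the accuracy `r`, `ε` and the size `n / K` of the needles, with all the rows -/
structure Deliv (K : ℕ) (r ε : ℝ) where
  D : Dat
  hK : D.K = K
  G : ℕ → ℕ → ℕ
  Bd : (ℕ → ℕ) → ℕ → ℕ → Set Cfg
  tips : (ℕ → ℕ) → List Rec → ℕ → Option (ℂ × List ℂ)
  δ : ℝ
  hδ : δ ≤ r / 8
  hδε : 8 * δ ≤ ε
  mem : RowMem D
  tst : RowTst D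
  stop : RowStop D
  grow : RowGrow D
  bad : RowBad D Bd
  init : RowInit D
  loc : RowLoc D
  tip : RowTip D
  rare : RowRare D G Bd
  est : RowEst D G Bd
  cnt : RowCnt D G Bd
  step : RowStep D G Bd (fun d n => TruR.ruleT D d n) tips δ (ε / 8)
  fin : RowFin D G Bd (fun d n => TruR.ruleT D d n) r (ε / 8)

/-- **The assembly of step 8.** -/
theorem nChn_of_rows (hCA : CAOut)
    (H : ∀ r ε : ℝ, 0 < r → 0 < ε → ∃ K₀ : ℕ, ∀ K, K₀ ≤ K → Nonempty (Deliv K r ε)) : NChn := by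
  intro r ε hr hε
  obtain ⟨K₀, hK₀⟩ := H r ε hr hε
  refine ⟨K₀, fun K hK => ?_⟩
  obtain ⟨h⟩ := hK₀ K hK
  obtain ⟨N, hN⟩ := chnOut_of_rows h.D h.G h.Bd hr hε h.hδ h.hδε (rowRule h.D) (rowMono h.D) h.cnt
    h.step h.fin
  rw [h.hK] at hN
  exact ⟨Rec, inferInstance, chD h.D h.G h.Bd, h.D.m, N,
    chnOK_of_rows h.D h.G h.Bd hCA h.mem h.tst h.stop h.grow h.bad h.init h.tip h.rare h.est,
    h.loc, hN⟩

/-- `RecordScan` from the rows -/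
theorem recordScan_of_rows (hCA : CAOut)
    (H : ∀ r ε : ℝ, 0 < r → 0 < ε → ∃ K₀ : ℕ, ∀ K, K₀ ≤ K → Nonempty (Deliv K r ε)) : RecordScan :=
  recordScan_of_chn (nChn_of_rows hCA H)

/-- **Claim 1 from `CAOut` and the rows** -/
theorem claim1_of_rows (hCA : CAOut)
    (H : ∀ r ε : ℝ, 0 < r → 0 < ε → ∃ K₀ : ℕ, ∀ K, K₀ ≤ K → Nonempty (Deliv K r ε)) : Claim1 :=
  claim1_of_record (recordScan_of_rows hCA H)

end Pool.Agent.SixB.Tru
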