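import Pool.Agent.Lib.SixB.S8ChainL
import Pool.Agent.Lib.SixB.S8RecSkel

/-!
# Step 8: the rows `tst`, `stop`, `grow`, `Loc` of the chain of moves
-/

set_option autoImplicit false

namespace Pool.Agent.SixB.Tru

open Pool.Agent.Perc Pool.Agent.SixB

theorem rowTst (𝔇 : Dat) : RowTst 𝔇 := fun _ _ _ _ _ h => tst_loc h

theorem rowStop (𝔇 : Dat) : RowStop 𝔇 := fun _ _ _ _ _ h => expS_stop h

theorem rowGrow (𝔇 : Dat) : RowGrow 𝔇 := fun d n ω _ _ him => expS_grow 𝔇 d n ω him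

theorem rowLoc (𝔇 : Dat) : RowLoc 𝔇 := fun d n i ω ω' h => by
  unfold recS
  rw [tst_box h]

end Pool.Agent.SixB.Tru
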