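import Pool.Agent.Lib.SixB.S8SideR2
import Pool.Agent.Lib.SixB.S8SideI
import Pool.Agent.Lib.SixB.S8AncF

/-!
# Step 8: the statement about one side, official data

* `side_num`: the numbers;
* `sideXD_datC`: **`SideXD`**.
-/

set_option autoImplicit false

namespace Pool.Agent.SixB.Fin8

open Filter Finset Pool.Agent.Perc Pool.Agent.Perc6 Pool.Agent.PercT Pool.Agent.PercX60
open Pool.Agent.SixB Pool.Agent.SixB.Rule Pool.Agent.SixB.Dct Pool.Agent.SixB.Mv
open Pool.Agent.SixB.Tru Pool.Agent.SixB.Cov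
open Pool.Agent.SixB.TruR (ts ruleT)
open Pool.Agent.SixB.Hook (ndL)
open Pool.Agent.SixB.Par (Nb2)

/-- The numbers of the grid. -/
theorem side_num {K e u n : ℕ} (hK : 0 < K) (h8 : 8 * K ≤ 2 ^ e) (hu : 2 ≤ u)
    (h1 : n = 2 ^ e * u + n % 2 ^ e) (h2 : 2 * (n % 2 ^ e) + 1 < u) {δ : ℤ}
    (hδ : 128 * δ ≤ ((n / K : ℕ) : ℤ)) :
    ((n / K : ℕ) : ℤ) + δ + 4 ≤ u * (3 * ((ndL K e : ℕ) : ℤ) - 1) ∧
      0 ≤ 4 * ((n / K : ℕ) : ℤ) - 2 * (u : ℤ) - 1 := by
  obtain ⟨m, hm⟩ : ∃ m : ℕ, m = n % 2 ^ e := ⟨_, rfl⟩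
  obtain ⟨E, hE⟩ : ∃ E : ℕ, E = 2 ^ e := ⟨_, rfl⟩
  obtain ⟨L, hL⟩ : ∃ L : ℕ, L = ndL K e := ⟨_, rfl⟩
  obtain ⟨Q, hQ⟩ : ∃ Q : ℕ, Q = n / K := ⟨_, rfl⟩
  rw [← hm, ← hE] at h1
  rw [← hm] at h2
  rw [← hE] at h8
  rw [← hQ] at hδ ⊢
  rw [← hL]
  have a1 : E < K * L + K := by
    rw [hL, hE]
    exact Nat.lt_mul_div_succ _ hK
  have a2 : n < K * Q + K := by
    rw [hQ]
    exact Nat.lt_mul_div_succ _ hK
  have a3 : K * Q ≤ n := by
    rw [hQ]
    exact Nat.mul_div_le _ _
  have b1 : (E : ℤ) + 1 ≤ K * L + K := by exact_mod_cast a1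
  have b2 : (n : ℤ) + 1 ≤ K * Q + K := by exact_mod_cast a2
  have b3 : (K : ℤ) * Q ≤ n := by exact_mod_cast a3
  have b4 : (n : ℤ) = E * u + m := by exact_mod_cast h1
  have b5 : 2 * (m : ℤ) + 1 + 1 ≤ u := by exact_mod_cast h2
  have b6 : 8 * (K : ℤ) ≤ E := by exact_mod_cast h8
  have b7 : (2 : ℤ) ≤ u := by exact_mod_cast hu
  have b8 : (1 : ℤ) ≤ K := by exact_mod_cast hK
  have b9 : (0 : ℤ) ≤ m := Int.natCast_nonneg _
  have c1 : ((E : ℤ) + 1) * u ≤ (K * L + K) * u := mul_le_mul_of_nonneg_right b1 (by omega)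
  have c2 : 8 * (K : ℤ) * u ≤ E * u := mul_le_mul_of_nonneg_right b6 (by omega)
  have c3 : (K : ℤ) * 2 ≤ K * u := mul_le_mul_of_nonneg_left b7 (by omega)
  have c4 : (1 : ℤ) * u ≤ K * u := mul_le_mul_of_nonneg_right b8 (by omega)
  have c5 : (K : ℤ) * (128 * δ) ≤ K * Q := mul_le_mul_of_nonneg_left hδ (by omega)
  constructor
  · have key : (K : ℤ) * ((Q : ℤ) + δ + 4) ≤ K * (u * (3 * (L : ℤ) - 1)) := by
      nlinarith
    exact le_of_mul_le_mul_left key (by omega)
  · have key : (K : ℤ) * 0 ≤ K * (4 * (Q : ℤ) - 2 * (u : ℤ) - 1) := by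
      nlinarith
    exact le_of_mul_le_mul_left key (by omega)

/-- **The statement about one side**, official data. -/
theorem sideXD_datC {K kap a : ℕ} {C : ℤ} (hK : 0 < K) (hC : 0 ≤ C)
    (ha : 16 * (9 * C + 6) ≤ 2 ^ a) : SideXD K kap a C := by
  intro N
  refine ⟨C * (N + 1) + 8, 8 * K, by positivity, fun d n ω x S i hi b b' _ _ q D hq hr hini => ?_⟩
  cases i with
  | zero => cases hq
  | succ j =>
    have hu : 0 < unt d n := by have := S.unt.1; omega
    have hanti : ∀ {l m : ℕ}, l ≤ m → m ≤ N → d m ≤ d l := by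
      intro l m hlm hm
      induction m, hlm using Nat.le_induction with
      | base => exact le_rfl
      | succ m hlm ih =>
        have h1 := ih (by omega)
        have h2 := S.gro m (by omega)
        omega
    have hj : j < N := by omega
    have hI := S.inv j hj
    have hq' : (tst (datC K kap) d n ω j).q = some q := hq
    have hr' : ((datC K kap).cs d (tst (datC K kap) d n ω j).x).run = some D := hr
    have hi' : ((datC K kap).cs d (tst (datC K kap) d n ω j).x).ini = false := hini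
    have hlen : (tst (datC K kap) d n ω j).x.length = j + 1 := tst_len _ _ _ _ _
    have hNO : NumO d n (j + 1) (Tru.rad C (unt d n) d (j + 1)) := by
      have hR : NumR a d n (N - 1) := ⟨hu, fun l hl => S.gro l (by omega)⟩
      exact hR.numO hC ha (by omega)
    have hNO' : NumO d n (tst (datC K kap) d n ω j).x.length
        (Tru.rad C (unt d n) d (tst (datC K kap) d n ω j).x.length) := by
      rw [hlen]
      exact hNO
    have hV : InvV C (datC K kap) d n j ω := hI.1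
    have hSt := S.st (j + 1) hi q hq
    have hdead := S.dead j hj
    -- the numbers
    obtain ⟨r, hrd⟩ : ∃ r : ℤ, r = Tru.rad C (unt d n) d (tst (datC K kap) d n ω j).x.length +
        7 * (unt d n * msh d (tst (datC K kap) d n ω j).x.length) := ⟨_, rfl⟩
    have hls : (unt d n : ℤ) * msh d (j + 1) ≤ Sc.ls d n (d N) := by
      rw [Cov.unt_msh]
      exact Sc.ls_anti n (hanti (by omega) le_rfl)
    have hls0 : 0 ≤ (unt d n : ℤ) * msh d (j + 1) :=
      mul_nonneg (Int.natCast_nonneg _) (msh_pos d _).le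
    have hradl : Tru.rad C (unt d n) d (j + 1) ≤ C * (N + 1) * Sc.ls d n (d N) := by
      refine (Cov.rad_le_ls hC n fun l hl => hanti (by omega) le_rfl).trans ?_
      refine mul_le_mul_of_nonneg_right (mul_le_mul_of_nonneg_left ?_ hC) (Sc.ls_nonneg _ _ _)
      push_cast
      have : ((j + 1 : ℕ) : ℤ) ≤ N := by exact_mod_cast hi.le
      push_cast at this
      linarith
    have hrad0 : 0 ≤ Tru.rad C (unt d n) d (j + 1) := by
      unfold Tru.rad
      have h1 : ∀ l ∈ range (j + 1), (0 : ℤ) ≤ msh d l := fun l _ => (msh_pos d l).le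
      have h2 := Finset.sum_nonneg h1
      positivity
    have hlp := S.rad.lp
    have hrN : r + 1 ≤ (C * (N + 1) + 8) * Sc.ls d n (d N) := by
      rw [hrd, hlen]
      linarith
    have hr0 : 0 ≤ r := by
      rw [hrd, hlen]
      linarith
    have hsc := S.rad.sc
    have hda := S.rad.da
    have haa := S.rad.aa
    have hab := S.rad.ab
    have hbb := S.rad.bb
    have hb := S.rad.b
    have hδ1 : 5 * ((C * (N + 1) + 8) * Sc.ls d n (d N)) + 40 * Sc.ls d n (d N) ≤ x.δ := by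
      refine le_trans ?_ hsc
      have h1 : 0 ≤ 26 * Sc.ls d n (d N) := by linarith
      have e : (5 * (C * (N + 1) + 8) + 2 * 13 + 40) * Sc.ls d n (d N) =
        5 * ((C * (N + 1) + 8) * Sc.ls d n (d N)) + 40 * Sc.ls d n (d N) +
          26 * Sc.ls d n (d N) := by ring
      rw [e]
      linarith
    have h8 : 8 * K ≤ 2 ^ d 0 := by
      have h1 : 8 * K ≤ d 0 := S.big.trans (hanti (Nat.zero_le _) le_rfl)
      exact h1.trans Nat.lt_two_pow_self.le
    obtain ⟨u1, u2, u3⟩ := S.unt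
    obtain ⟨g1, g2⟩ := side_num (δ := x.δ) hK h8 u1 u2 u3 (by rw [← hb]; omega)
    -- the time
    have hpos := perS_pos hq'
    obtain ⟨T, hT⟩ : ∃ T, T = perS n ω (tst (datC K kap) d n ω j).V q - 1 := ⟨_, rfl⟩
    have hT1 : T + 1 = perS n ω (tst (datC K kap) d n ω j).V q := by omega
    have hmv := lt_perS hq' (mem_frE.1 (fre_mvT hV (stO_tst hq') hNO' hq' hr' hi'
      fun hv => exists_regS hdead hq' hr' hi' hv)).2
    have hrec : recS (datC K kap) d n (j + 1) ω =
        mvR (datC K kap) d n (tst (datC K kap) d n ω j) q D false ω := by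
      rw [recS_run hq' hr', hi']
    have hw := hSt.wall D hr hini 1 (Or.inr rfl)
    have hlast := Cov.sideX_of (𝔇 := datC K kap) (d := d) (n := n) (T := T)
      (t := mvT (datC K kap) d n (tst (datC K kap) d n ω j) q D false ω)
      (s := tst (datC K kap) d n ω j) (q := q) (D := D)
      (ρ := recS (datC K kap) d n (j + 1) ω) (ω := ω) (B := 3 * ndL K (d 0))
      (A := 4 * ((n / K : ℕ) : ℤ) - 2 * (unt d n : ℤ) - 1) (r := r) (ρ' := x.δ)
      (ρa := x.ρa) (Ra := x.Ra) (ρb := x.ρb) (Rb := x.Rb) (x := xg d n K b b')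
      hu (TruR.inv_V _ _ _ _ _) (tst_ndF hq').2 hT1 (by omega)
      (fun hc => by
        rw [hrd]
        exact tst_rgt hV hNO' hdead hq' hr' hi' hrec hc)
      hr0 (by linarith) (fun l _ hl z hz => ?_) (by linarith) haa (by linarith) hbb hw.1 hw.2
      (by rw [hb]; exact g1) g2
    · exact hlast
    · exact hSt.gate l (nb_of_perS (TruR.inv_V _ _ _ _ _) (by omega)) z (r + 1) hrN hz

end Pool.Agent.SixB.Fin8
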