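import Pool.Agent.Lib.SixB.S8RecStep
import Pool.Agent.Lib.SixB.S8SideD

/-!
# Step 8: claim 1 from block CA

`claim1_of_ca`: **claim 1** from `CAOut`.
-/

set_option autoImplicit false

namespace Pool.Agent.SixB.Tru

open Pool.Agent.Perc Pool.Agent.PercT Pool.Agent.PercX60 Pool.Agent.PercD
open Pool.Agent.SixB

/-- **Claim 1** from block CA. -/
theorem claim1_of_ca (hCA : CAOut) : Claim1 :=
  claim1_of_side hCA ⟨0, fun _ _ => ⟨0, fun _ hg =>
    Fin8.sideXD_datC hg.hK (by have := hg.hC; omega) hg.ha⟩⟩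

end Pool.Agent.SixB.Tru
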