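import Pool.Agent.Lib.SixB.S8Close

/-!
# Step 8: the contour of the domain of a move

`exists_cross` : two sides `i < j` of the contour of `T` whose outer faces are joined by a chain in
`S ⊆ U \ T` give a closed chain of faces of `U`, with a potential on `U`. `two_arcs` : one of the two
parts of the contour of `T` between them has no side with an outer face outside `U`. `two_anchor` :
the same for a vertex of the contour which is a corner of a face joined to the complement of `U`.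
`Clo.layout` : the sides of `T` with outer face in `U` form one interval of the contour of `T`:
first sides at the right cap, then the exit sides of `D`, then sides at the left cap.
-/

set_option autoImplicit false

namespace Pool.Agent.SixB.Top

open Finset Pool.Agent.Perc Pool.Agent.Perc6 Pool.Agent.Perc6.C2Aux Pool.Agent.Perc.Tips

section Cross

variable {U T S : Set (ℤ × ℤ)} {A : UE × Bool} {m i j : ℕ}

/-- **A closed chain** which crosses the contour of `T` at the sides `i` and `j`. -/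
theorem exists_cross (hUf : U.Finite) (hUe : Esc U) (hTc : EConn T) (hA : BD T A)
    (hinj : ∀ i < m, ∀ j < m, (sc T)^[i] A = (sc T)^[j] A → i = j) (hST : ∀ f ∈ S, f ∉ T)
    (hij : i < j) (hj : j < m) (hi : ahead (rv ((sc T)^[i] A)) ∈ S)
    (hch : ChI S (ahead (rv ((sc T)^[i] A))) (ahead (rv ((sc T)^[j] A)))) :
    ∃ (M : Set UE) (Φ : ℤ × ℤ → ZMod 2), IsPot U M Φ ∧
      (∀ a ∈ M, ∀ k, IsSide k a → k ∈ S ∨ k ∈ T) ∧
      ∀ l < m, (((sc T)^[l] A).1 ∈ M ↔ l = i ∨ l = j) := by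
  have hBi := hA.iterate i
  have hBj := hA.iterate j
  set Bi := (sc T)^[i] A with hBi'
  set Bj := (sc T)^[j] A with hBj'
  have hjS : ahead (rv Bj) ∈ S := ChI.mem hi hch
  obtain ⟨-, M₁, hM1, hp1⟩ := chain_toggle (F := Sᶜ) (f := ahead (rv Bi)) (g := ahead (rv Bj))
    (not_not.2 hi) (hch.stepC fun f hf => not_not.2 hf)
  obtain ⟨-, M₂, hM2, hp2⟩ := chain_toggle (F := Tᶜ) (f := ahead Bi) (g := ahead Bj)
    (not_not.2 hBi.1) ((show ChI T (ahead Bi) (ahead Bj) from
      hTc _ hBi.1 _ hBj.1).stepC fun f hf => not_not.2 hf)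
  have s1 : IsSide (ahead (rv Bi)) Bi.1 := isSide_ahead Bi.1 (!Bi.2)
  have s1' : IsSide (ahead Bi) Bi.1 := isSide_ahead Bi.1 Bi.2
  have s2 : IsSide (ahead (rv Bj)) Bj.1 := isSide_ahead Bj.1 (!Bj.2)
  have s2' : IsSide (ahead Bj) Bj.1 := isSide_ahead Bj.1 Bj.2
  have a1 := (adjF_ahead Bi).1
  have a2 := (adjF_ahead Bj).1
  set M : Set UE := symmDiff (symmDiff (symmDiff M₁ M₂) {Bi.1}) {Bj.1} with hM
  have hmem : ∀ a, a ∈ M → a ∈ M₁ ∨ a ∈ M₂ ∨ a = Bi.1 ∨ a = Bj.1 := by
    intro a ha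
    simp only [hM, Set.mem_symmDiff, Set.mem_singleton_iff] at ha
    tauto
  have heven : ∀ f ∈ U, EvenAt M f := by
    intro f _
    rw [evenAt_iff, hM, parAt_symmDiff, parAt_symmDiff, parAt_symmDiff, hp1, hp2,
      parAt_side a1 s1 s1', parAt_side a2 s2 s2']
    generalize ind2 (f = ahead (rv Bi)) = p1
    generalize ind2 (f = ahead Bi) = p2
    generalize ind2 (f = ahead (rv Bj)) = p3
    generalize ind2 (f = ahead Bj) = p4
    revert p1 p2 p3 p4
    decide
  have hfaces : ∀ a ∈ M, ∀ k, IsSide k a → k ∈ S ∨ k ∈ T := by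
    intro a ha k hk
    rcases hmem a ha with h | h | h | h
    · by_contra hn
      exact hM1 a h k (fun hh => hn (Or.inl hh)) hk
    · by_contra hn
      exact hM2 a h k (fun hh => hn (Or.inr hh)) hk
    · subst h
      rcases side_two a1 s1 s1' hk with h | h
      · exact Or.inl (h ▸ hi)
      · exact Or.inr (h ▸ hBi.1)
    · subst h
      rcases side_two a2 s2 s2' hk with h | h
      · exact Or.inl (h ▸ hjS)
      · exact Or.inr (h ▸ hBj.1)
  have hne : Bi.1 ≠ Bj.1 := by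
    intro h
    have := hinj i (by omega) j hj (hBi.eq_of_fst hBj h)
    omega
  obtain ⟨Φ, hΦ⟩ := hUe.hasPot' hUf M heven
  refine ⟨M, Φ, hΦ, hfaces, fun l hl => ?_⟩
  have hB := hA.iterate l
  have n1 : ((sc T)^[l] A).1 ∉ M₁ := fun h => hM1 _ h _ (fun hh => hST _ hh hB.1)
    (isSide_ahead ((sc T)^[l] A).1 ((sc T)^[l] A).2)
  have n2 : ((sc T)^[l] A).1 ∉ M₂ := fun h => hM2 _ h _ hB.2
    (isSide_ahead ((sc T)^[l] A).1 (!((sc T)^[l] A).2))
  simp only [hM, Set.mem_symmDiff, Set.mem_singleton_iff, n1, n2]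
  constructor
  · intro h
    by_cases h1 : ((sc T)^[l] A).1 = Bi.1
    · exact Or.inl (hinj l hl i (by omega) (hB.eq_of_fst hBi h1))
    · by_cases h2 : ((sc T)^[l] A).1 = Bj.1
      · exact Or.inr (hinj l hl j hj (hB.eq_of_fst hBj h2))
      · simp only [h1, h2] at h
        tauto
  · rintro (rfl | rfl)
    · simp [← hBi', hne]
    · simp [← hBj', Ne.symm hne]

/-- **Two arcs.** -/
theorem two_arcs (hUf : U.Finite) (hUc : EConn U) (hUe : Esc U) (hTU : T ⊆ U) (hTc : EConn T)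
    (hA : BD T A) (hinj : ∀ i < m, ∀ j < m, (sc T)^[i] A = (sc T)^[j] A → i = j)
    (hSU : S ⊆ U) (hST : ∀ f ∈ S, f ∉ T) (hij : i < j) (hj : j < m)
    (hi : ahead (rv ((sc T)^[i] A)) ∈ S)
    (hch : ChI S (ahead (rv ((sc T)^[i] A))) (ahead (rv ((sc T)^[j] A)))) {k l : ℕ}
    (hik : i < k) (hkj : k < j) (hl : l < i ∨ j < l) (hlm : l < m)
    (hk : ahead (rv ((sc T)^[k] A)) ∉ U) (hl' : ahead (rv ((sc T)^[l] A)) ∉ U) : False := by
  obtain ⟨M, Φ, hΦ, hfaces, hM⟩ := exists_cross hUf hUe hTc hA hinj hST hij hj hi hch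
  have hbd : ∀ B, BD U B → B.1 ∉ M := by
    intro B hB h
    rcases hfaces _ h _ (isSide_ahead B.1 (!B.2)) with h1 | h1
    · exact hB.2 (hSU h1)
    · exact hB.2 (hTU h1)
  have e : Φ (lf ((sc T)^[l] A)) = Φ (lf ((sc T)^[k] A)) :=
    (pot_bd hUf hUc hUe hΦ hbd ⟨hTU (hA.iterate k).1, hk⟩ ⟨hTU (hA.iterate l).1, hl'⟩).1
  rcases hl with hl | hl
  · refine pot_tele hΦ hTU hA (k₁ := l) (k₃ := k) (r := i) (by omega) hik ?_ e.symm
    intro x h1 h2
    rw [hM x (by omega)]
    omega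
  · refine pot_tele hΦ hTU hA (k₁ := k) (k₃ := l) (r := j) (by omega) hl ?_ e
    intro x h1 h2
    rw [hM x (by omega)]
    omega

/-- **Two arcs and an anchor.** -/
theorem two_anchor (hUf : U.Finite) (hUc : EConn U) (hUe : Esc U) (hTU : T ⊆ U) (hTc : EConn T)
    (hA : BD T A) (hinj : ∀ i < m, ∀ j < m, (sc T)^[i] A = (sc T)^[j] A → i = j)
    (hSU : S ⊆ U) (hST : ∀ f ∈ S, f ∉ T) (hij : i < j) (hj : j < m)
    (hi : ahead (rv ((sc T)^[i] A)) ∈ S)
    (hch : ChI S (ahead (rv ((sc T)^[i] A))) (ahead (rv ((sc T)^[j] A)))) {S' : Set (ℤ × ℤ)}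
    (hS' : ∀ f ∈ S', f ∉ S ∧ f ∉ T) {k l : ℕ} {g x : ℤ × ℤ}
    (hik : i < k) (hkj : k ≤ j) (hl : l < i ∨ j < l) (hlm : l < m)
    (hk : IsCor g (lf ((sc T)^[k] A))) (hg : g ∈ S') (hgU : g ∈ U) (hx : x ∉ U)
    (hgx : ChI S' g x) (hl' : ahead (rv ((sc T)^[l] A)) ∉ U) : False := by
  obtain ⟨M, Φ, hΦ, hfaces, hM⟩ := exists_cross hUf hUe hTc hA hinj hST hij hj hi hch
  have hbd : ∀ B, BD U B → B.1 ∉ M := by
    intro B hB h
    rcases hfaces _ h _ (isSide_ahead B.1 (!B.2)) with h1 | h1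
    · exact hB.2 (hSU h1)
    · exact hB.2 (hTU h1)
  have e : Φ (lf ((sc T)^[k] A)) = Φ (lf ((sc T)^[l] A)) := by
    refine pot_anchor hUf hUc hUe hΦ hbd ⟨hTU (hA.iterate l).1, hl'⟩ (S := S') ?_ hg hx hgx hgU hk
    intro f hf a ha hMa
    rcases hfaces a hMa f ha with h | h
    · exact (hS' f hf).1 h
    · exact (hS' f hf).2 h
  rcases hl with hl | hl
  · refine pot_tele hΦ hTU hA (k₁ := l) (k₃ := k) (r := i) (by omega) hik ?_ e
    intro x h1 h2
    rw [hM x (by omega)]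
    omega
  · refine pot_tele hΦ hTU hA (k₁ := k) (k₃ := l) (r := j) (by omega) hl ?_ e.symm
    intro x h1 h2
    rw [hM x (by omega)]
    omega

end Cross

/-! ### The layout -/

/-- The caps are edge connected in `U`, and disjoint or equal in `U`. -/
structure Caps (U D : Set (ℤ × ℤ)) (A : UE × Bool) (k₁ k₃ : ℕ) (cR cL : Set (ℤ × ℤ)) : Prop where
  cnR : ∀ f ∈ cR, f ∈ U → ahead (rv ((sc D)^[k₁ - 1] A)) ∈ U ∧
    ChI (cR ∩ U) (ahead (rv ((sc D)^[k₁ - 1] A))) f
  cnL : ∀ f ∈ cL, f ∈ U → ahead (rv ((sc D)^[k₃] A)) ∈ U ∧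
    ChI (cL ∩ U) (ahead (rv ((sc D)^[k₃] A))) f
  dis : (∀ f ∈ cR, f ∈ U → f ∉ cL) ∨ ∀ f ∈ U, f ∈ cR ↔ f ∈ cL

/-- **The contour of `T`**: `m` sides, side `0` is `A`; the outer faces of the sides `a, ..., b - 1`
are in `U`; the sides `r, ..., r + (k₃ - k₁) - 1` are the exit sides `k₁, ..., k₃ - 1` of `D`. -/
structure LayT (U D T : Set (ℤ × ℤ)) (A : UE × Bool) (k₁ k₃ : ℕ) (cR cL : Set (ℤ × ℤ))
    (m a r b : ℕ) : Prop where
  pos : 0 < m
  per : (sc T)^[m] A = A
  inj : ∀ i < m, ∀ j < m, (sc T)^[i] A = (sc T)^[j] A → i = j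
  ctr : Ctr T m (fun i => lf ((sc T)^[i] A))
  a0 : 0 < a
  ar : a ≤ r
  rb : r + (k₃ - k₁) ≤ b
  bm : b ≤ m
  rm : r + (k₃ - k₁) < m
  inU : ∀ i < m, (ahead (rv ((sc T)^[i] A)) ∈ U ↔ a ≤ i ∧ i < b)
  run : ∀ j ≤ k₃ - k₁ + 1, (sc T)^[r - 1 + j] A = (sc D)^[k₁ - 1 + j] A
  capR : ∀ i, a ≤ i → i < r → ahead (rv ((sc T)^[i] A)) ∈ cR
  capL : ∀ i, r + (k₃ - k₁) ≤ i → i < b → ahead (rv ((sc T)^[i] A)) ∈ cL

/-- **The layout of the contour of `T`.** -/
theorem Clo.layout {U P D T cR cL : Set (ℤ × ℤ)} {A : UE × Bool} {k₁ k₃ m : ℕ}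
    (H : Clo U P D T A k₁ k₃ m cR cL) (K : Caps U D A k₁ k₃ cR cL) (htip : ahead (rv A) ∉ U)
    (hcomp : ∀ t ∈ T, ∀ g, AdjF t g → g ∉ T → g ∉ U ∨ g ∈ P ∨ g ∈ cR ∨ g ∈ cL)
    (hnbr : ∀ p ∈ P, ∀ y, y ∉ P → AdjF p y → ∃ x, x ∉ U ∧ ChI Pᶜ y x) :
    ∃ m' a r b, LayT U D T A k₁ k₃ cR cL m' a r b := by
  classical
  have hTf := H.finU.subset H.TU
  have hTe := H.esc hcomp hnbr
  have hk1 := H.k1
  have hk13 := H.k13
  have hk3 := H.k3
  have hA : BD T A := ⟨H.DT H.bdA.1, fun h => htip (H.TU h)⟩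
  obtain ⟨m', hm', hper, hinj, hctr⟩ := exists_dctr hTf H.ecT hTe hA
  -- the index of the last common side
  have hB := (H.run (j := 0) (Nat.zero_le _)).2
  rw [Nat.add_zero] at hB
  obtain ⟨n, hn, hnB⟩ : ∃ n < m', (sc T)^[n] A = (sc D)^[k₁ - 1] A := by
    obtain ⟨n, hn⟩ := contour_all hTf H.ecT hTe hA hB.bdU
    refine ⟨n % m', Nat.mod_lt _ hm', ?_⟩
    rw [← (hA.iterate n).eq_of_fst hB hn]
    exact Function.IsPeriodicPt.iterate_mod_apply
      (show Function.IsPeriodicPt (sc T) m' A from hper) n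
  have hrun : ∀ j ≤ k₃ - k₁ + 1, (sc T)^[n + j] A = (sc D)^[k₁ - 1 + j] A := by
    intro j hj
    rw [Nat.add_comm n, Function.iterate_add_apply, hnB]
    exact (H.run hj).1
  have hlt : ∀ j ≤ k₃ - k₁ + 1, n + j < m' := by
    intro j
    induction j with
    | zero => intro _; exact hn
    | succ j ih =>
      intro hj
      have h1 := ih (by omega)
      by_contra hge
      have h2 : n + (j + 1) = m' := by omega
      have h3 := hrun (j + 1) hj
      rw [h2, hper] at h3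
      have := H.inj 0 (by omega) (k₁ - 1 + (j + 1)) (by omega) h3
      omega
  set c := k₃ - k₁ with hc
  have hq : n + 1 + c < m' := by have := hlt (c + 1) le_rfl; omega
  set N : ℕ → Prop := fun i => ahead (rv ((sc T)^[i] A)) ∈ U with hN
  have hN0 : ¬ N 0 := htip
  have hgR : ahead (rv ((sc T)^[n] A)) = ahead (rv ((sc D)^[k₁ - 1] A)) := by rw [hnB]
  have hgL : ahead (rv ((sc T)^[n + 1 + c] A)) = ahead (rv ((sc D)^[k₃] A)) := by
    have := hrun (c + 1) le_rfl
    rw [show n + 1 + c = n + (c + 1) by ring, this, show k₁ - 1 + (c + 1) = k₃ by omega]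
  have hexit : ∀ i, n + 1 ≤ i → i < n + 1 + c → N i := by
    intro i h1 h2
    have h3 := hrun (i - n) (by omega)
    rw [show n + (i - n) = i by omega] at h3
    simp only [hN]
    rw [h3]
    exact H.PU ((H.out _ (by omega)).2 (by omega))
  have hex : ∀ i < m', (∃ i', k₁ ≤ i' ∧ i' < k₃ ∧ (sc D)^[i'] A = (sc T)^[i] A) →
      n + 1 ≤ i ∧ i < n + 1 + c := by
    rintro i hi ⟨i', h1, h2, h3⟩
    have h4 := hrun (i' - k₁ + 1) (by omega)
    rw [show k₁ - 1 + (i' - k₁ + 1) = i' by omega, h3] at h4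
    have := hinj _ (hlt (i' - k₁ + 1) (by omega)) i hi h4
    omega
  have STR : ∀ f ∈ cR ∩ U, f ∉ T := fun f hf => H.RT f hf.1
  have STL : ∀ f ∈ cL ∩ U, f ∉ T := fun f hf => H.LT f hf.1
  -- the right side
  have claimR : ∀ i ≤ n, N i → ahead (rv ((sc T)^[i] A)) ∈ cR ∧ ∀ k, i < k → k ≤ n → N k := by
    intro i hi hNi
    have hi0 : 0 < i := Nat.pos_of_ne_zero (by rintro rfl; exact hN0 hNi)
    rcases hi.lt_or_eq with hin | rfl
    swap
    · exact ⟨by rw [hgR]; exact H.inR, fun k h1 h2 => by omega⟩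
    have hmain : ahead (rv ((sc T)^[i] A)) ∈ cR →
        ahead (rv ((sc T)^[i] A)) ∈ cR ∧ ∀ k, i < k → k ≤ n → N k := by
      intro hiR
      refine ⟨hiR, fun k h1 h2 => ?_⟩
      obtain ⟨h3, h4⟩ := K.cnR _ hiR hNi
      rw [← hgR] at h3 h4
      rcases h2.lt_or_eq with hkn | rfl
      swap
      · exact h3
      by_contra hk
      have h5 : ahead (rv ((sc T)^[n] A)) ∈ cR ∩ U := ⟨by rw [hgR]; exact H.inR, h3⟩
      exact two_arcs H.finU H.ecU H.escU H.TU H.ecT hA hinj (S := cR ∩ U)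
        Set.inter_subset_right STR hin hn ⟨hiR, hNi⟩ (ChI.symm h5 h4) h1 hkn (Or.inl hi0)
        hm' hk hN0
    rcases H.bd hcomp (hA.iterate i) with h | h | h | h
    · exact absurd hNi h
    · have := hex i (by omega) h
      omega
    · exact hmain h
    · rcases K.dis with hd | hd
      · exfalso
        obtain ⟨h3, h4⟩ := K.cnL _ h hNi
        rw [← hgL] at h3 h4
        have h5 : ahead (rv ((sc T)^[n + 1 + c] A)) ∈ cL ∩ U := ⟨by rw [hgL]; exact H.inL, h3⟩
        by_cases hg : N n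
        · obtain ⟨x, hx, hgx⟩ := H.capR _ H.inR
          rw [← hgR] at hgx
          refine two_anchor H.finU H.ecU H.escU H.TU H.ecT hA hinj (S := cL ∩ U)
            Set.inter_subset_right STL (j := n + 1 + c) (by omega) hq ⟨h, hNi⟩ (ChI.symm h5 h4)
            (S' := cR) (fun f hf => ⟨fun hh => hd f hf hh.2 hh.1, H.RT f hf⟩) (k := n + 1) (l := 0)
            (g := ahead (rv ((sc T)^[n] A))) (by omega) (by omega) (Or.inl hi0) hm' ?_
            (by rw [hgR]; exact H.inR) hg hx hgx hN0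
          rw [Function.iterate_succ_apply', lf_sc]
          exact isCor_out_rg _
        · exact two_arcs H.finU H.ecU H.escU H.TU H.ecT hA hinj (S := cL ∩ U)
            Set.inter_subset_right STL (j := n + 1 + c) (by omega) hq ⟨h, hNi⟩ (ChI.symm h5 h4)
            hin (by omega) (Or.inl hi0) hm' hg hN0
      · exact hmain ((hd _ hNi).2 h)
  -- the left side
  have claimL : ∀ i, n + 1 + c ≤ i → i < m' → N i →
      ahead (rv ((sc T)^[i] A)) ∈ cL ∧ ∀ k, n + 1 + c ≤ k → k < i → N k := by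
    intro i hi him hNi
    rcases hi.lt_or_eq with hin | rfl
    swap
    · exact ⟨by rw [hgL]; exact H.inL, fun k h1 h2 => by omega⟩
    have hmain : ahead (rv ((sc T)^[i] A)) ∈ cL →
        ahead (rv ((sc T)^[i] A)) ∈ cL ∧ ∀ k, n + 1 + c ≤ k → k < i → N k := by
      intro hiL
      refine ⟨hiL, fun k h1 h2 => ?_⟩
      obtain ⟨h3, h4⟩ := K.cnL _ hiL hNi
      rw [← hgL] at h3 h4
      rcases h1.lt_or_eq with hkn | rfl
      swap
      · exact h3
      by_contra hk
      exact two_arcs H.finU H.ecU H.escU H.TU H.ecT hA hinj (S := cL ∩ U)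
        Set.inter_subset_right STL hin him ⟨by rw [hgL]; exact H.inL, h3⟩ h4 hkn h2
        (l := 0) (Or.inl (by omega)) hm' hk hN0
    rcases H.bd hcomp (hA.iterate i) with h | h | h | h
    · exact absurd hNi h
    · have := hex i him h
      omega
    · rcases K.dis with hd | hd
      · exfalso
        obtain ⟨h3, h4⟩ := K.cnR _ h hNi
        rw [← hgR] at h3 h4
        have hn0 : 0 < n := Nat.pos_of_ne_zero (by rintro rfl; exact hN0 h3)
        have h5 : ahead (rv ((sc T)^[n] A)) ∈ cR ∩ U := ⟨by rw [hgR]; exact H.inR, h3⟩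
        by_cases hg : N (n + 1 + c)
        · obtain ⟨x, hx, hgx⟩ := H.capL _ H.inL
          rw [← hgL] at hgx
          exact two_anchor H.finU H.ecU H.escU H.TU H.ecT hA hinj (S := cR ∩ U)
            Set.inter_subset_right STR (i := n) (by omega) him h5 h4
            (S' := cL) (fun f hf => ⟨fun hh => hd f hh.1 hh.2 hf, H.LT f hf⟩) (k := n + 1 + c)
            (l := 0) (g := ahead (rv ((sc T)^[n + 1 + c] A))) (by omega) hi (Or.inl hn0) hm'
            (isCor_out_lf _) (by rw [hgL]; exact H.inL) hg hx hgx hN0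
        · exact two_arcs H.finU H.ecU H.escU H.TU H.ecT hA hinj (S := cR ∩ U)
            Set.inter_subset_right STR (i := n) (by omega) him h5 h4
            (k := n + 1 + c) (by omega) hin (l := 0) (Or.inl hn0) hm' hg hN0
      · exact hmain ((hd _ hNi).1 h)
    · exact hmain h
  -- the interval
  have hexa : ∃ a, ∀ k, a ≤ k → k ≤ n → N k := ⟨n + 1, fun k h1 h2 => by omega⟩
  set a := Nat.find hexa with ha
  have ha1 := Nat.find_spec hexa
  have ha2 : a ≤ n + 1 := Nat.find_min' hexa fun k h1 h2 => by omega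
  have hexb : ∃ b, n + 1 + c ≤ b ∧ (b = m' ∨ ¬ N b) := ⟨m', by omega, Or.inl rfl⟩
  set b := Nat.find hexb with hb
  have hb1 := Nat.find_spec hexb
  have hb2 : b ≤ m' := Nat.find_min' hexb ⟨by omega, Or.inl rfl⟩
  have hb3 : ∀ k, n + 1 + c ≤ k → k < b → N k := by
    intro k h1 h2
    have := Nat.find_min hexb h2
    by_contra hk
    exact this ⟨h1, Or.inr hk⟩
  have ha0 : 0 < a := by
    rcases Nat.eq_zero_or_pos a with h | h
    · exact absurd (ha1 0 (by omega) (Nat.zero_le _)) hN0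
    · exact h
  have hinU : ∀ i < m', (N i ↔ a ≤ i ∧ i < b) := by
    intro i hi
    constructor
    · intro hNi
      constructor
      · by_contra hlt'
        have h1 := claimR i (by omega) hNi
        have : a ≤ i := Nat.find_min' hexa fun k h2 h3 => by
          rcases h2.lt_or_eq with h4 | rfl
          · exact h1.2 k h4 h3
          · exact hNi
        omega
      · by_contra hge
        have hbi : b ≤ i := by omega
        have h1 := claimL i (by omega) hi hNi
        rcases hb1.2 with h2 | h2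
        · omega
        · rcases hbi.lt_or_eq with h3 | h3
          · exact h2 (h1.2 b hb1.1 h3)
          · exact h2 (by rw [← hb, h3]; exact hNi)
    · rintro ⟨h1, h2⟩
      rcases Nat.lt_or_ge n i with h3 | h3
      · rcases Nat.lt_or_ge i (n + 1 + c) with h4 | h4
        · exact hexit i h3 h4
        · exact hb3 i h4 h2
      · exact ha1 i h1 h3
  refine ⟨m', a, n + 1, b, hm', hper, hinj, hctr, ha0, ha2, hb1.1, hb2, hq, hinU, ?_, ?_, ?_⟩
  · intro j hj
    rw [show n + 1 - 1 + j = n + j by omega]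
    exact hrun j hj
  · intro i h1 h2
    exact (claimR i (by omega) (ha1 i h1 (by omega))).1
  · intro i h1 h2
    exact (claimL i h1 (by omega) (hb3 i h1 h2)).1

end Pool.Agent.SixB.Top
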