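import Pool.Agent.Lib.MP_6bd702_z.Z012
import Pool.Agent.Lib.MP_6bd702_z.Distinct

/-!
# The end of step 8: from coarse outputs with convergent laws to the scaling limit

An algorithm explores the configuration and returns a coarse output, an element `s n T` of a finite
set `S`; a fixed curve `F a` belongs to every output `a`. If the laws of the outputs converge and
the curve of the output is close to the outer perimeter of every largest cluster with high
probability, then the laws of the rescaled outer perimeters converge, to the same limit for all the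
selection rules.
-/

set_option autoImplicit false

namespace Pool.Agent.SixB

open Set Filter Topology MeasureTheory TopologicalSpace
open Pool.Agent.Perc Pool.Agent.PercD
open scoped NNReal

/-- The cluster of `v` is a cluster of largest diameter. -/
def IsTop (n : ℕ) (T : Finset Edg) (v : ℤ × ℤ) : Prop :=
  v ∈ Box n ∧ ∀ w ∈ Box n, Metric.diam (clS T w) ≤ Metric.diam (clS T v)

/-- Coarse outputs with convergent laws, close to the outer perimeters of the largest clusters. -/
def CoarseOut : Prop := ∀ ε : ℝ, 0 < ε → ∃ (S : Type) (_ : Fintype S) (F : S → Curve)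
  (s : ℕ → Finset Edg → S),
  (∀ a : S, ∃ p : ℝ, Tendsto (fun n => prB n {T | s n T = a}) atTop (𝓝 p)) ∧
  ∀ᶠ n : ℕ in atTop,
    prB n {T | ∃ v, IsTop n T v ∧ ε < dist (outerCurve n T v) (F (s n T))} ≤ ε

section

variable {n : ℕ}

private theorem exB_add' (g h : Finset Edg → ℝ) :
    exB n (fun T => g T + h T) = exB n g + exB n h := by
  unfold exB
  rw [Finset.sum_add_distrib, add_div]

private theorem exB_sub' (g h : Finset Edg → ℝ) :
    exB n (fun T => g T - h T) = exB n g - exB n h := by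
  unfold exB
  rw [Finset.sum_sub_distrib, sub_div]

private theorem exB_const' (c : ℝ) : exB n (fun _ => c) = c := by
  unfold exB
  rw [Finset.sum_const, Finset.card_powerset, nsmul_eq_mul]
  push_cast
  field_simp

private theorem abs_exB_sub_le (g h : Finset Edg → ℝ) :
    |exB n g - exB n h| ≤ exB n fun T => |g T - h T| := by
  rw [← exB_sub']
  unfold exB
  rw [abs_div, abs_of_pos (show (0 : ℝ) < 2 ^ (boxE n).card by positivity)]
  exact div_le_div_of_nonneg_right (Finset.abs_sum_le_sum_abs _ _) (by positivity)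

/-- The expectation of a function of a coarse output. -/
private theorem exB_fibre {S : Type} [Fintype S] (s : Finset Edg → S) (g : S → ℝ) :
    exB n (fun T => g (s T)) = ∑ a : S, g a * prB n {T | s T = a} := by
  classical
  have h1 : (fun T => g (s T)) =
      fun T => ∑ a : S, g a * (if T ∈ {T | s T = a} then (1 : ℝ) else 0) := by
    funext T
    rw [Finset.sum_eq_single (s T)]
    · simp
    · intro a _ ha
      rw [if_neg (show T ∉ {T | s T = a} from fun h => ha (Eq.symm h)), mul_zero]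
    · intro h
      exact absurd (Finset.mem_univ _) h
  rw [h1, Perc.PercD.exB_sum]
  refine Finset.sum_congr rfl fun a _ => ?_
  rw [Perc.PercD.exB_mul_left, Perc.PercD.prB_eq]

/-- The error of the coarse output. -/
private theorem exB_coarse_le {f : Curve → ℝ} {C : ℝ} (hC : ∀ x y, dist (f x) (f y) ≤ C)
    {L : ℝ≥0} (hL : LipschitzWith L f) {S : Type} (F : S → Curve) (s : Finset Edg → S)
    {sel : Finset Edg → ℤ × ℤ} (hsel : IsSel n sel) {ε : ℝ} (hε : 0 ≤ ε)
    (h : prB n {T | ∃ v, IsTop n T v ∧ ε < dist (outerCurve n T v) (F (s T))} ≤ ε) :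
    |exB n (fun T => f (outerCurve n T (sel T))) - exB n (fun T => f (F (s T)))|
      ≤ (L + C) * ε := by
  classical
  have hC0 : 0 ≤ C := dist_nonneg.trans (hC (F (s ∅)) (F (s ∅)))
  set B : Set (Finset Edg) := {T | ∃ v, IsTop n T v ∧ ε < dist (outerCurve n T v) (F (s T))}
    with hB
  refine (abs_exB_sub_le _ _).trans ?_
  have h1 : exB n (fun T => |f (outerCurve n T (sel T)) - f (F (s T))|) ≤
      exB n (fun T => L * ε + C * (if T ∈ B then (1 : ℝ) else 0)) := by
    refine Perc.PercD.exB_mono fun T hT => ?_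
    by_cases h2 : T ∈ B
    · rw [if_pos h2, mul_one]
      have h3 := hC (outerCurve n T (sel T)) (F (s T))
      rw [Real.dist_eq] at h3
      have h4 : 0 ≤ (L : ℝ) * ε := by positivity
      linarith
    · rw [if_neg h2, mul_zero, add_zero]
      have h3 : dist (outerCurve n T (sel T)) (F (s T)) ≤ ε := by
        by_contra hcon
        push Not at hcon
        exact h2 ⟨sel T, ⟨(hsel T hT).1, (hsel T hT).2⟩, hcon⟩
      have h4 := hL.dist_le_mul (outerCurve n T (sel T)) (F (s T))
      rw [Real.dist_eq] at h4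
      exact h4.trans (mul_le_mul_of_nonneg_left h3 L.2)
  refine h1.trans ?_
  rw [exB_add', exB_const', Perc.PercD.exB_mul_left]
  have h5 : exB n (fun T => if T ∈ B then (1 : ℝ) else 0) = prB n B := by
    rw [Perc.PercD.prB_eq]
  rw [h5, add_mul]
  have := mul_le_mul_of_nonneg_left h hC0
  linarith

end

/-- The expectations of a Lipschitz function converge, to the same limit for all selection rules. -/
private theorem lip_conv (h : CoarseOut) {f : Curve → ℝ} {C : ℝ}
    (hC : ∀ x y, dist (f x) (f y) ≤ C) {L : ℝ≥0} (hL : LipschitzWith L f) :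
    ∃ ℓ : ℝ, ∀ sel : ℕ → Finset Edg → ℤ × ℤ, (∀ n, IsSel n (sel n)) →
      Tendsto (fun n => exB n (fun T => f (outerCurve n T (sel n T)))) atTop (𝓝 ℓ) := by
  have hC0 : 0 ≤ C := by
    obtain ⟨S, _, F, s, _, _⟩ := h 1 one_pos
    exact dist_nonneg.trans (hC (F (s 0 ∅)) (F (s 0 ∅)))
  -- the approximations
  have key : ∀ δ : ℝ, 0 < δ → ∃ (g : ℕ → ℝ) (p : ℝ), Tendsto g atTop (𝓝 p) ∧
      ∀ sel : ℕ → Finset Edg → ℤ × ℤ, (∀ n, IsSel n (sel n)) → ∀ᶠ n : ℕ in atTop,
        |exB n (fun T => f (outerCurve n T (sel n T))) - g n| ≤ δ := by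
    intro δ hδ
    have hM : 0 < (L : ℝ) + C + 1 := by positivity
    obtain ⟨S, hS, F, s, h1, h2⟩ := h (δ / (L + C + 1)) (by positivity)
    choose p hp using h1
    refine ⟨fun n => exB n (fun T => f (F (s n T))), ∑ a : S, f (F a) * p a, ?_, ?_⟩
    · have h3 : (fun n => exB n (fun T => f (F (s n T)))) =
          fun n => ∑ a : S, f (F a) * prB n {T | s n T = a} := by
        funext n
        exact exB_fibre (s n) fun a => f (F a)
      rw [h3]
      exact tendsto_finsetSum _ fun a _ => (hp a).const_mul _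
    · intro sel hsel
      filter_upwards [h2] with n hn
      refine (exB_coarse_le hC hL F (s n) (hsel n) (by positivity) hn).trans ?_
      rw [mul_div_assoc', div_le_iff₀ hM]
      nlinarith
  choose g p hg hgs using key
  -- the limits of the approximations
  obtain ⟨sel₀, hsel₀⟩ : ∃ sel : ℕ → Finset Edg → ℤ × ℤ, ∀ n, IsSel n (sel n) := by
    choose sel hsel using exists_isSel
    exact ⟨sel, hsel⟩
  have hcauchy : CauchySeq fun n => exB n (fun T => f (outerCurve n T (sel₀ n T))) := by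
    rw [Metric.cauchySeq_iff']
    intro ε hε
    have hδ : 0 < ε / 8 := by positivity
    have h1 := hgs (ε / 8) hδ sel₀ hsel₀
    have h2 := (Metric.tendsto_atTop.1 (hg (ε / 8) hδ)) (ε / 8) hδ
    obtain ⟨N₁, hN₁⟩ := eventually_atTop.1 h1
    obtain ⟨N₂, hN₂⟩ := h2
    refine ⟨max N₁ N₂, fun n hn => ?_⟩
    have h3 := hN₁ n (le_trans (le_max_left _ _) hn)
    have h4 := hN₁ (max N₁ N₂) (le_max_left _ _)
    have h5 := hN₂ n (le_trans (le_max_right _ _) hn)
    have h6 := hN₂ (max N₁ N₂) (le_max_right _ _)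
    rw [Real.dist_eq] at h5 h6 ⊢
    rw [abs_le] at h3 h4
    rw [abs_lt] at h5 h6 ⊢
    constructor <;> linarith [h3.1, h3.2, h4.1, h4.2, h5.1, h5.2, h6.1, h6.2]
  obtain ⟨ℓ, hℓ⟩ := cauchySeq_tendsto_of_complete hcauchy
  refine ⟨ℓ, fun sel hsel => ?_⟩
  rw [Metric.tendsto_atTop]
  intro ε hε
  have hδ : 0 < ε / 8 := by positivity
  obtain ⟨N₁, hN₁⟩ := eventually_atTop.1 (hgs (ε / 8) hδ sel₀ hsel₀)
  obtain ⟨N₂, hN₂⟩ := eventually_atTop.1 (hgs (ε / 8) hδ sel hsel)
  obtain ⟨N₃, hN₃⟩ := Metric.tendsto_atTop.1 hℓ (ε / 8) hδ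
  refine ⟨max N₁ (max N₂ N₃), fun n hn => ?_⟩
  have h3 := hN₁ n (le_trans (le_max_left _ _) hn)
  have h4 := hN₂ n (le_trans (le_trans (le_max_left _ _) (le_max_right _ _)) hn)
  have h5 := hN₃ n (le_trans (le_trans (le_max_right _ _) (le_max_right _ _)) hn)
  rw [Real.dist_eq] at h5 ⊢
  rw [abs_le] at h3 h4
  rw [abs_lt] at h5 ⊢
  constructor <;> linarith [h3.1, h3.2, h4.1, h4.2, h5.1, h5.2]

/-- Coarse outputs give the scaling limit. -/
theorem limit_of_coarseOut (hE : TargetExist) (h : CoarseOut) :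
    ∃ μ : ProbabilityMeasure Curve, ∀ sel : ℕ → Finset Edg → ℤ × ℤ, (∀ n, IsSel n (sel n)) →
      Tendsto (fun n => lawP n (sel n)) atTop (𝓝 μ) := by
  obtain ⟨sel₀, hsel₀⟩ : ∃ sel : ℕ → Finset Edg → ℤ × ℤ, ∀ n, IsSel n (sel n) := by
    choose sel hsel using exists_isSel
    exact ⟨sel, hsel⟩
  obtain ⟨ψ, hψ, μ, hμ, hlim⟩ := hE sel₀ hsel₀ id
  refine ⟨⟨μ, hμ⟩, fun sel hsel => ?_⟩
  rw [tendsto_iff_forall_lipschitz_integral_tendsto]
  rintro f ⟨C, hC⟩ ⟨L, hL⟩
  obtain ⟨ℓ, hℓ⟩ := lip_conv h hC hL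
  let Fb : BoundedContinuousFunction Curve ℝ :=
    { toFun := f
      continuous_toFun := hL.continuous
      map_bounded' := ⟨C, hC⟩ }
  have h1 : ∀ n, ∫ x, f x ∂(lawP n (sel n) : Measure Curve) =
      exB n (fun T => f (outerCurve n T (sel n T))) := fun n => integral_lawC n (sel n) Fb
  simp only [h1]
  have h2 : Tendsto (fun k => exB (ψ k) fun T => f (outerCurve (ψ k) T (sel₀ (ψ k) T))) atTop
      (𝓝 (∫ c, f c ∂μ)) := hlim Fb
  have h3 := (hℓ sel₀ hsel₀).comp hψ.tendsto_atTop
  have h4 : ℓ = ∫ c, f c ∂μ := tendsto_nhds_unique h3 h2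
  have h5 := hℓ sel hsel
  rw [h4] at h5
  exact h5

end Pool.Agent.SixB
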