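import Pool.Agent.Lib.SixB.S8InvX
import Pool.Agent.Lib.SixB.S8InvX2

/-!
# Step 8, number of moves: one target side for all stages of a needle

* `TSt.uniq`: the length of the contour and the number of the target side of a true state are unique;
* `RunB.tgt_void`: a void stage does not change the target side;
* `RunB.tgt_reg`: a regular stage does not change the target side, the new true domain is the component
  of the target;
* `RunB.tgt_later`: both in one form.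
-/

set_option autoImplicit false

namespace Pool.Agent.SixB.Mv

open Finset Pool.Agent.Perc Pool.Agent.Perc6 Pool.Agent.Perc6.C2Aux Pool.Agent.Perc.Tips
open Pool.Agent.SixB.Top

section Uniq

variable {ω : Cfg} {R U : Set (ℤ × ℤ)} {A : UE × Bool} {m m' x x' : ℕ}

/-- The length of the contour is unique. -/
theorem Cyc.len_uniq (h : Cyc U A m) (h' : Cyc U A m') : m' = m := by
  have key : ∀ {m m' : ℕ}, Cyc U A m → Cyc U A m' → ¬ m < m' := by
    intro m m' h h' hlt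
    have h1 := h'.inj m hlt 0 h'.pos (by rw [h.per]; rfl)
    have := h.pos
    omega
  have h1 := key h h'
  have h2 := key h' h
  omega

/-- The connections of the true state, for the regions outside of the domain: the number of the target
side is the number of the label. -/
theorem TSt.le_of (h : TSt ω R U A m x) (h' : TSt ω R U A m x')
    (hper : ∃ N, 0 < N ∧ pth ω A.1 N = A.1) : x' ≤ x := by
  obtain ⟨LR, -⟩ := label h.hR h.UR h.ec h.cyc h.fwd hper h.pos h.lt h.conn_right h.conn_left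
  exact (LR x' h'.lt.le h'.conn_right).2

/-- **The numbers of a true state are unique.** -/
theorem TSt.uniq (h : TSt ω R U A m x) (h' : TSt ω R U A m' x')
    (hper : ∃ N, 0 < N ∧ pth ω A.1 N = A.1) : m' = m ∧ x' = x := by
  have hm := Cyc.len_uniq h.cyc h'.cyc
  subst hm
  exact ⟨rfl, le_antisymm (h.le_of h' hper) (h'.le_of h hper)⟩

end Uniq

end Pool.Agent.SixB.Mv

namespace Pool.Agent.SixB.Tru

open Finset Pool.Agent.Perc Pool.Agent.PercT Pool.Agent.PercX60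
open Pool.Agent.SixB Pool.Agent.SixB.Rule Pool.Agent.SixB.Dct Pool.Agent.SixB.Mv
open Pool.Agent.SixB.Top (compT)
open Pool.Agent.Perc.Tips

variable {𝔇 : Dat} {d : ℕ → ℕ} {n : ℕ} {r r' : ℤ} {s s' : TS} {ω : Cfg} {q : Rule.Ndl} {D D' : Dom}
  {κ κ' : ℤ × ℤ → ℤ × ℤ} {m x m' x' σ : ℕ}

/-- The true state of the true configuration. -/
theorem RunB.tst_self (h : RunB 𝔇 d n r s ω q D κ m x) :
    TSt (cfS s.V q ω) Set.univ (uS s q ω) (tS s q ω) m x := by
  have h1 := h.tst ω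
  rwa [Xi_self] at h1

/-- The strand from the tip is closed. -/
theorem RunB.per_self (_h : RunB 𝔇 d n r s ω q D κ m x) (hV : s.V ⊆ Box n) (hQ : QF q.1 ⊆ FU s.V) :
    ∃ N, 0 < N ∧ pth (cfS s.V q ω) (tS s q ω).1 N = (tS s q ω).1 := cfS_per hV hQ ω _

/-- **A void stage does not change the target side.** -/
theorem RunB.tgt_void (h : RunB 𝔇 d n r s ω q D κ m x) (h' : RunB 𝔇 d n r' s' ω q D' κ' m' x')
    (hB : s.V ⊆ Box n) (hQ : QF q.1 ⊆ FU s.V) (hV : s'.V = s.V) (ht : s'.t = s.t) :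
    uS s' q ω = uS s q ω ∧ tS s' q ω = tS s q ω ∧ m' = m ∧ x' = x := by
  have hu : uS s' q ω = uS s q ω := uS_void hV ht
  have hτ : tS s' q ω = tS s q ω := tS_void hV ht
  have h1 := h'.tst_self
  rw [hu, hτ, hV] at h1
  exact ⟨hu, hτ, h.tst_self.uniq h1 (h.per_self hB hQ)⟩

/-- **A regular stage does not change the target side.** -/
theorem RunB.tgt_reg (h : RunB 𝔇 d n r s ω q D κ m x) (h' : RunB 𝔇 d n r' s' ω q D' κ' m' x')
    (hB : s.V ⊆ Box n) (hQ : QF q.1 ⊆ FU s.V) (hV : s'.V = s.V) (ht : s'.t = s.t + σ) (hσ : 0 < σ)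
    (hg : inF (uS s q ω) (tS s q ω) x ∉ vs (cfS s.V q ω) (pS s.V q ω s.t) 0 σ)
    (hf : fa (pS s.V q ω s'.t) ∈ compT (uS s q ω \
      (vs (cfS s.V q ω) (pS s.V q ω s.t) 0 σ : Set (ℤ × ℤ))) (inF (uS s q ω) (tS s q ω) x)) :
    uS s' q ω = compT (uS s q ω \ (vs (cfS s.V q ω) (pS s.V q ω s.t) 0 σ : Set (ℤ × ℤ)))
        (inF (uS s q ω) (tS s q ω) x) ∧
      side (uS s' q ω) (tS s' q ω) x' = side (uS s q ω) (tS s q ω) x := by
  obtain ⟨A, hA⟩ : ∃ A, A = tS s q ω := ⟨_, rfl⟩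
  obtain ⟨U, hU⟩ : ∃ U, U = uS s q ω := ⟨_, rfl⟩
  have hA1 : A.1 = pS s.V q ω s.t := by rw [hA]; rfl
  have hT := h.tst_self
  have hp := h.per_self hB hQ
  rw [← hA, ← hU] at hT ⊢
  rw [← hA] at hp
  rw [← hA, ← hU, ← hA1] at hg hf
  rw [← hA1]
  have hpe : pth (cfS s.V q ω) A.1 σ = pS s.V q ω s'.t := by rw [hA1, pth_pS, ht]
  -- the new domain
  have hu' : uS s' q ω = compT (U \ (vs (cfS s.V q ω) A.1 0 σ : Set (ℤ × ℤ))) (inF U A x) := by
    have h1 : inF U A x ∈ U \ (vs (cfS s.V q ω) A.1 0 σ : Set (ℤ × ℤ)) :=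
      ⟨(bd_side hT.cyc.bd x).1, fun hh => hg (Finset.mem_coe.1 hh)⟩
    have h2 : (vs (cfS s.V q ω) A.1 0 σ : Set (ℤ × ℤ)) =
        (vS s.V q ω s.t (s.t + σ) : Set (ℤ × ℤ)) := by rw [hA1, vs_pS]
    rw [h2] at h1 hf ⊢
    rw [hU] at h1 hf ⊢
    rw [ht] at hf
    exact uS_step_of hV ht h.fre h1 hf
  refine ⟨hu', ?_⟩
  obtain ⟨m'', x'', hN⟩ := hT.step hp (σ := σ) (θ := σ) (fun _ _ => Set.mem_univ _) hσ le_rfl rfl hg
    (fun i h1 h2 => absurd h2 (by omega)) (by rw [hpe]; exact hf)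
  have ht' : tS s' q ω = dirE (pth (cfS s.V q ω) A.1 σ) := by rw [tS_step hV ht, hpe, ht]
  have h1 := h'.tst_self
  have hst := hN.st
  have htg := hN.tgt
  have hp' : ∃ N, 0 < N ∧ pth (cfS s.V q ω) (dirE (pth (cfS s.V q ω) A.1 σ)).1 N =
      (dirE (pth (cfS s.V q ω) A.1 σ)).1 := cfS_per hB hQ ω _
  rw [hV, hu', ht'] at h1
  obtain ⟨-, hx⟩ := hst.uniq h1 hp'
  rw [hu', ht', hx]
  exact htg

/-- **The target side** of a later stage, void or regular. -/
theorem RunB.tgt_later (h : RunB 𝔇 d n r s ω q D κ m x) (h' : RunB 𝔇 d n r' s' ω q D' κ' m' x')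
    (hB : s.V ⊆ Box n) (hQ : QF q.1 ⊆ FU s.V) (hV : s'.V = s.V) (ht : s'.t = s.t + σ)
    (hm : σ = 0 ∨ (0 < σ ∧ inF (uS s q ω) (tS s q ω) x ∉ vs (cfS s.V q ω) (pS s.V q ω s.t) 0 σ ∧
      fa (pS s.V q ω s'.t) ∈ compT (uS s q ω \
        (vs (cfS s.V q ω) (pS s.V q ω s.t) 0 σ : Set (ℤ × ℤ))) (inF (uS s q ω) (tS s q ω) x))) :
    uS s' q ω = compT (uS s q ω \ (vs (cfS s.V q ω) (pS s.V q ω s.t) 0 σ : Set (ℤ × ℤ)))
        (inF (uS s q ω) (tS s q ω) x) ∧
      side (uS s' q ω) (tS s' q ω) x' = side (uS s q ω) (tS s q ω) x := by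
  rcases hm with h0 | ⟨h1, h2, h3⟩
  · subst h0
    obtain ⟨e1, e2, -, e4⟩ := h.tgt_void h' hB hQ hV (by rw [ht, Nat.add_zero])
    rw [e1, e2, e4]
    refine ⟨?_, rfl⟩
    have h5 : (vs (cfS s.V q ω) (pS s.V q ω s.t) 0 0 : Set (ℤ × ℤ)) = ∅ := by
      ext f
      simp [mem_vs]
    rw [h5, Set.sdiff_empty]
    have h6 : inF (uS s q ω) (tS s q ω) x ∈ uS s q ω := (bd_side h.tst_self.cyc.bd x).1
    have h7 := comp_step (N := ∅) h.fre h6 (Set.notMem_empty _)
    rw [Set.sdiff_empty, Set.sdiff_empty] at h7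
    have h8 : compT (uS s q ω) (inF (uS s q ω) (tS s q ω) x) =
        compT (frS s q ω) (inF (uS s q ω) (tS s q ω) x) := h7.symm
    rw [h8]
    exact (Top.compT_eq h.fre h6).symm
  · exact h.tgt_reg h' hB hQ hV ht h1 h2 h3

/-- A void or regular stage of `σ` steps of the strand, in terms of the strand. -/
def TgtSt (s s' : TS) (q : Rule.Ndl) (ω : Cfg) (x σ : ℕ) : Prop :=
  σ = 0 ∨ (0 < σ ∧ inF (uS s q ω) (tS s q ω) x ∉ vs (cfS s.V q ω) (pS s.V q ω s.t) 0 σ ∧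
    fa (pS s.V q ω s'.t) ∈ compT (uS s q ω \
      (vs (cfS s.V q ω) (pS s.V q ω s.t) 0 σ : Set (ℤ × ℤ))) (inF (uS s q ω) (tS s q ω) x))

theorem TgtSt.notMem (h : TgtSt s s' q ω x σ) :
    inF (uS s q ω) (tS s q ω) x ∉ vs (cfS s.V q ω) (pS s.V q ω s.t) 0 σ := by
  rcases h with rfl | ⟨-, h, -⟩
  · intro hh
    obtain ⟨i, h1, h2, -⟩ := mem_vs.1 hh
    omega
  · exact h

/-- **One target side for all stages of a needle.** `S 0, …, S k`: states with the same remaining set and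
the same needle, every stage is void or regular. The target side is the same side `B`, the face at `B`
is not visited, and the true domain is the component of this face. -/
theorem RunB.tgt_chain {S : ℕ → TS} {R : ℕ → ℤ} {E : ℕ → Dom} {K : ℕ → ℤ × ℤ → ℤ × ℤ}
    {M X σ : ℕ → ℕ} {k : ℕ} (h : ∀ i ≤ k, RunB 𝔇 d n (R i) (S i) ω q (E i) (K i) (M i) (X i))
    (hB : (S 0).V ⊆ Box n) (hQ : QF q.1 ⊆ FU (S 0).V) (hV : ∀ i < k, (S (i + 1)).V = (S i).V)
    (ht : ∀ i < k, (S (i + 1)).t = (S i).t + σ i)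
    (hm : ∀ i < k, TgtSt (S i) (S (i + 1)) q ω (X i) (σ i)) {i : ℕ} (hi : i ≤ k) :
    (S i).V = (S 0).V ∧ (S 0).t ≤ (S i).t ∧
      side (uS (S i) q ω) (tS (S i) q ω) (X i) = side (uS (S 0) q ω) (tS (S 0) q ω) (X 0) ∧
      inF (uS (S 0) q ω) (tS (S 0) q ω) (X 0) ∉
        vs (cfS (S 0).V q ω) (pS (S 0).V q ω (S 0).t) 0 ((S i).t - (S 0).t) ∧
      uS (S i) q ω = compT (uS (S 0) q ω \
        (vs (cfS (S 0).V q ω) (pS (S 0).V q ω (S 0).t) 0 ((S i).t - (S 0).t) : Set (ℤ × ℤ)))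
          (inF (uS (S 0) q ω) (tS (S 0) q ω) (X 0)) := by
  induction i with
  | zero =>
    have h6 : inF (uS (S 0) q ω) (tS (S 0) q ω) (X 0) ∈ uS (S 0) q ω :=
      (bd_side (h 0 hi).tst_self.cyc.bd _).1
    have h5 : (vs (cfS (S 0).V q ω) (pS (S 0).V q ω (S 0).t) 0 ((S 0).t - (S 0).t) :
        Set (ℤ × ℤ)) = ∅ := by
      ext f
      simp [mem_vs]
    refine ⟨rfl, le_rfl, rfl, ?_, ?_⟩
    · intro hh
      have := Finset.mem_coe.2 hh
      rw [h5] at this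
      exact this
    · rw [h5, Set.sdiff_empty]
      have h7 := comp_step (N := ∅) (h 0 hi).fre h6 (Set.notMem_empty _)
      rw [Set.sdiff_empty, Set.sdiff_empty] at h7
      refine Eq.trans ?_ h7
      exact (Top.compT_eq (h 0 hi).fre h6).symm
  | succ i ih =>
    obtain ⟨e1, e2, e3, e4, e5⟩ := ih (by omega)
    obtain ⟨f1, f2⟩ := (h i (by omega)).tgt_later (h (i + 1) hi) (by rw [e1]; exact hB)
      (by rw [e1]; exact hQ) (hV i (by omega)) (ht i (by omega)) (hm i (by omega))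
    have hti := ht i (by omega)
    have e3' : inF (uS (S i) q ω) (tS (S i) q ω) (X i) =
        inF (uS (S 0) q ω) (tS (S 0) q ω) (X 0) := congrArg ahead e3
    have g1 := (hm i (by omega)).notMem
    rw [e3', vs_pS, e1] at g1
    rw [vs_pS, Nat.add_sub_cancel' e2] at e4 e5
    have hle : (S 0).t ≤ (S (i + 1)).t := by omega
    have hsp : vS (S 0).V q ω (S 0).t (S (i + 1)).t =
        vS (S 0).V q ω (S 0).t (S i).t ∪ vS (S 0).V q ω (S i).t ((S i).t + σ i) := by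
      rw [hti]
      exact vS_split e2 (Nat.le_add_right _ _)
    have g2 : inF (uS (S 0) q ω) (tS (S 0) q ω) (X 0) ∉ vS (S 0).V q ω (S 0).t (S (i + 1)).t := by
      rw [hsp, Finset.mem_union]
      rintro (h1 | h1)
      · exact e4 h1
      · exact g1 h1
    refine ⟨(hV i (by omega)).trans e1, hle, f2.trans e3, ?_, ?_⟩
    · rw [vs_pS, Nat.add_sub_cancel' hle]
      exact g2
    · rw [f1, e3', e5, vs_pS, vs_pS, Nat.add_sub_cancel' hle, e1, hsp, Finset.coe_union,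
        ← Set.sdiff_sdiff]
      have h0 : inF (uS (S 0) q ω) (tS (S 0) q ω) (X 0) ∈ uS (S 0) q ω \
          (vS (S 0).V q ω (S 0).t (S i).t : Set (ℤ × ℤ)) :=
        ⟨(bd_side (h 0 (Nat.zero_le _)).tst_self.cyc.bd _).1, fun hh => e4 (Finset.mem_coe.1 hh)⟩
      exact (comp_step h0 Top.self_mem_compT fun hh => g1 (Finset.mem_coe.1 hh)).symm

end Pool.Agent.SixB.Tru
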