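import Pool.Agent.Lib.SixB.S8LawT
import Pool.Agent.Lib.SixB.S8Uoc

/-!
# Step 8: the plumbing of one stage, for all resampled configurations

`s'` is a later state of the same needle: `s'.V = s.V`, `s'.q = s.q`, `s.t ≤ s'.t`.
* `expS_mono`: the explored set grows;
* `Xi_later`: `Xi s'` at `ξ` is `Xi s` at `mix (expS s' ω) ω ξ`;
* `pth_Xi`, `vs_Xi`: the strand of `Xi s q ω (mix (expS s' ω) ω ξ)` from the tip is the true strand up to the time
  `s'.t`;
* `cfS_agr`, `Xi_agr_off`, `Xi_agr_comp`: the resampled configuration agrees with `ξ` on the faces which are not explored.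
-/

set_option autoImplicit false

namespace Pool.Agent.SixB.Tru

open Finset Pool.Agent.Perc Pool.Agent.PercT Pool.Agent.PercX60
open Pool.Agent.MP_6bd702.H23 (Ed ea eb)
open Pool.Agent.SixB Pool.Agent.SixB.Rule Pool.Agent.SixB.Dct Pool.Agent.SixB.Mv
open Pool.Agent.SixB.Top (compT)

variable {s s' : TS} {q : Rule.Ndl} {ω ξ η : Cfg} {i σ : ℕ} {f f₀ : ℤ × ℤ}

/-- `s'` is a later state of the same needle. -/
structure Later (s s' : TS) : Prop where
  V : s'.V = s.V
  q : s'.q = s.q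
  t : s.t ≤ s'.t

theorem Later.refl (s : TS) : Later s s := ⟨rfl, rfl, le_rfl⟩

theorem Later.trans {s'' : TS} (h : Later s s') (h' : Later s' s'') : Later s s'' :=
  ⟨h'.V.trans h.V, h'.q.trans h.q, h.t.trans h'.t⟩

theorem later_mk (hq : s.q = some q) (σ : ℕ) (x : List Rec) : Later s ⟨s.V, some q, s.t + σ, x⟩ :=
  ⟨rfl, hq.symm, Nat.le_add_right _ _⟩

theorem Later.some (h : Later s s') (hq : s.q = some q) : s'.q = some q := h.q.trans hq

/-- the faces of the explored set of a running needle -/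
theorem mem_expS (hq : s.q = some q) : f ∈ expS s ω ↔
    f ∉ FU s.V ∨ ((f ∈ FU s.V ∧ f ∉ QF q.1) ∧ f ∈ vS s.V q ω 0 s.t) := by
  unfold expS
  rw [hq]
  simp only [Option.elim_some]
  constructor
  · rintro (h | ⟨⟨h1, h2⟩, h3⟩)
    · exact Or.inl h
    · exact Or.inr ⟨⟨h1, h2⟩, Finset.mem_coe.1 h3⟩
  · rintro (h | ⟨⟨h1, h2⟩, h3⟩)
    · exact Or.inl h
    · exact Or.inr ⟨⟨h1, h2⟩, Finset.mem_coe.2 h3⟩

/-- **The explored set grows.** -/
theorem expS_mono (h : Later s s') (ω : Cfg) : expS s ω ⊆ expS s' ω := by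
  cases hq : s.q with
  | none =>
    unfold expS
    rw [h.q, h.V, hq]
    exact Set.Subset.rfl
  | some q =>
    intro f hf
    rw [mem_expS hq] at hf
    rw [mem_expS (h.some hq), h.V]
    rcases hf with h1 | ⟨h1, h2⟩
    · exact Or.inl h1
    · exact Or.inr ⟨h1, vs_mono le_rfl h.t h2⟩

theorem mix_mix_of_sub {S T : Set (ℤ × ℤ)} (h : S ⊆ T) (ω ξ : Cfg) :
    mix S ω (mix T ω ξ) = mix T ω ξ := by
  funext f
  by_cases h1 : f ∈ S
  · rw [mix_of_mem h1, mix_of_mem (h h1)]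
  · rw [mix_of_notMem h1]

/-- **The configuration of a later state.** -/
theorem Xi_later (h : Later s s') (q : Rule.Ndl) (ω ξ : Cfg) :
    Xi s' q ω ξ = Xi s q ω (mix (expS s' ω) ω ξ) := by
  unfold Xi
  rw [h.V, mix_mix_of_sub (expS_mono h ω)]

/-- **The strand from the tip.** -/
theorem pth_Xi (h : Later s s') (hq : s.q = some q) (hi : s.t + i ≤ s'.t) :
    pth (Xi s q ω (mix (expS s' ω) ω ξ)) (pS s.V q ω s.t) i = pS s.V q ω (s.t + i) := by
  have key : ∀ t ≤ s'.t, pth (Xi s' q ω ξ) (eS s'.V q) t = pS s'.V q ω t := fun t ht =>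
    pS_congr (h.some hq) (fun _ hf => (mix_of_mem hf).symm) ht
  rw [h.V] at key
  rw [← Xi_later h, ← key s.t h.t, pth_add, key _ hi]

theorem vs_Xi (h : Later s s') (hq : s.q = some q) (hi : s.t + i ≤ s'.t) :
    vs (Xi s q ω (mix (expS s' ω) ω ξ)) (pS s.V q ω s.t) 0 i = vS s.V q ω s.t (s.t + i) := by
  ext f
  rw [mem_vs]
  unfold vS
  rw [mem_vs]
  constructor
  · rintro ⟨j, -, hj, rfl⟩
    refine ⟨s.t + j, Nat.le_add_right _ _, by omega, ?_⟩
    rw [pth_Xi h hq (by omega)]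
    rfl
  · rintro ⟨j, hj1, hj2, rfl⟩
    refine ⟨j - s.t, Nat.zero_le _, by omega, ?_⟩
    rw [pth_Xi h hq (by omega), Nat.add_sub_cancel' hj1]
    rfl

/-- the strand of the true configuration from the tip -/
theorem pth_pS (i : ℕ) : pth (cfS s.V q ω) (pS s.V q ω s.t) i = pS s.V q ω (s.t + i) := by
  unfold pS
  rw [pth_add]

theorem vs_pS (i : ℕ) : vs (cfS s.V q ω) (pS s.V q ω s.t) 0 i = vS s.V q ω s.t (s.t + i) := by
  unfold vS
  rw [show pS s.V q ω s.t = pth (cfS s.V q ω) (eS s.V q) s.t from rfl, vs_shift, Nat.add_zero]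

/-- The configuration read by the strand agrees with `η` on the faces off the needle. -/
theorem cfS_agr (h1 : f ∈ FU s.V) (h2 : f ∉ QF q.1) : cfS s.V q η f = η f := by
  unfold cfS
  exact mix_of_mem (S := ((FU s.V : Set (ℤ × ℤ)) \ QF q.1)) ⟨h1, h2⟩

/-- **The resampled configuration agrees with `ξ` off the explored faces.** -/
theorem Xi_agr_off (hq : s.q = some q) (h1 : f ∈ FU s.V) (h2 : f ∉ QF q.1)
    (h3 : f ∉ vS s.V q ω 0 s.t) : Xi s q ω ξ f = ξ f := by
  have h4 : f ∉ expS s ω := by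
    rw [mem_expS hq]
    rintro (h | ⟨-, h⟩)
    · exact h h1
    · exact h3 h
  unfold Xi
  rw [cfS_agr h1 h2, mix_of_notMem h4]

/-- **The resampled configuration agrees with `ξ` on the domain** (`TrueD.agr`). -/
theorem Xi_agr_comp (hq : s.q = some q)
    (h0 : f₀ ∈ (((FU s.V : Set (ℤ × ℤ)) \ QF q.1) \ (vS s.V q ω 0 s.t : Set (ℤ × ℤ))))
    (hf : f ∈ compT (((FU s.V : Set (ℤ × ℤ)) \ QF q.1) \ (vS s.V q ω 0 s.t : Set (ℤ × ℤ))) f₀) :
    Xi s q ω ξ f = ξ f := by
  have h1 := Top.compT_sub h0 hf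
  exact Xi_agr_off hq h1.1.1 h1.1.2 fun h2 => h1.2 (Finset.mem_coe.2 h2)

/-- The true configuration is the resampled configuration of `ω`. -/
theorem Xi_self (s : TS) (q : Rule.Ndl) (ω : Cfg) : Xi s q ω ω = cfS s.V q ω := by
  unfold Xi
  congr 1
  funext f
  by_cases h : f ∈ expS s ω
  · rw [mix_of_mem h]
  · rw [mix_of_notMem h]

/-- The resampled configurations agree on the explored faces and on the frozen faces. -/
theorem Xi_expl (h : f ∈ expS s ω ∨ f ∈ QF q.1) (ξ ξ' : Cfg) : Xi s q ω ξ f = Xi s q ω ξ' f := by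
  unfold Xi cfS
  by_cases h1 : f ∈ (FU s.V : Set (ℤ × ℤ)) \ QF q.1
  · rw [mix_of_mem h1, mix_of_mem h1]
    rcases h with h | h
    · rw [mix_of_mem h, mix_of_mem h]
    · exact absurd h h1.2
  · rw [mix_of_notMem h1, mix_of_notMem h1]

end Pool.Agent.SixB.Tru
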