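import Pool.Agent.Lib.SixB.S8CountT
import Pool.Agent.Lib.SixB.S8InvX
import Pool.Agent.Lib.SixB.S8InvX2

/-!
# Step 8, number of moves: the data of the stack in the names of the true states

`s₀` is the first running state of a needle, `B` its target side, `s` a later running state with the same
target side.
* `RunB.nb`: the strand does not come back to its first edge before a running state;
* `nE`: the period of the strand, minus one; `le_nE`: the running states are before;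
* `tg_run`: the data `Cnt.Tg` from the tip of `s₀`;
* `num_run`: the component `uT`, the time `th` and the numbers `pL`, `jT` at a running state, and the
  sides of the contour counted from the target side.
-/

set_option autoImplicit false

namespace Pool.Agent.SixB.Tru

open Finset Pool.Agent.Perc Pool.Agent.Perc6 Pool.Agent.PercT Pool.Agent.Perc6.C2Aux
open Pool.Agent.SixB Pool.Agent.SixB.Rule Pool.Agent.SixB.Dct Pool.Agent.SixB.Mv
open Pool.Agent.SixB.Top Pool.Agent.SixB.NearCut Pool.Agent.SixB.Cnt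
open Pool.Agent.Perc.Tips

variable {𝔇 : Dat} {d : ℕ → ℕ} {n : ℕ} {r r₀ : ℤ} {s s₀ : TS} {ω : Cfg} {q : Rule.Ndl} {D D₀ : Dom}
  {κ κ₀ : ℤ × ℤ → ℤ × ℤ} {m x m₀ x₀ T τ : ℕ} {B : UE × Bool}

/-- A strand which is at a face it has not crossed before has not come back to its first edge. -/
theorem nb_of_fresh {η : Cfg} {e : UE} {t : ℕ} (h : fa (pth η e t) ∉ vs η e 0 t) : Nb η e t := by
  intro l hl hlt hret
  have h1 : pth η e (t % l) = pth η e t := by
    have h2 : ∀ k, pth η e (t % l + k * l) = pth η e (t % l) := by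
      intro k
      induction k with
      | zero => rw [Nat.zero_mul, Nat.add_zero]
      | succ k ih =>
        have h3 : t % l + (k + 1) * l = l + (t % l + k * l) := by ring
        rw [h3, ← pth_add, hret, ih]
    have h4 := h2 (t / l)
    rw [Nat.mul_comm (t / l) l, Nat.mod_add_div t l] at h4
    exact h4.symm
  have h2 := Nat.mod_lt t hl
  exact h (by rw [← h1]; exact fa_mem_vs (Nat.zero_le _) (by omega))

/-- The walls of the true state are anchors. -/
theorem wall_of_tst {η : Cfg} {U : Set (ℤ × ℤ)} {A : UE × Bool} (h : TSt η Set.univ U A m x) :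
    ∀ a, BdU U a → a ≠ A.1 → ∃ c p, (c = 0 ∨ c = 1) ∧ (p = ua a ∨ p = ub a) ∧
      Conn η Uᶜ p (en c A.1) := by
  intro a ha hne
  obtain ⟨v, hv, hj⟩ := h.cyc.ctr.all _ ha
  have hs : (side U A v).1 = a := Joins.uniq (joins_side v) hj
  have hv0 : v ≠ 0 := by
    rintro rfl
    exact hne hs.symm
  have hcor : ∀ p, (p = vert U A v ∨ p = vert U A (v + 1)) → p = ua a ∨ p = ub a := by
    rintro p (rfl | rfl)
    · rcases hj with ⟨h1, -⟩ | ⟨h1, -⟩
      · exact Or.inl h1
      · exact Or.inr h1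
    · rcases hj with ⟨-, h1⟩ | ⟨-, h1⟩
      · exact Or.inr h1
      · exact Or.inl h1
  have hp := par_cases (vert U A v)
  have hp' : par (vert U A (v + 1)) = 1 - par (vert U A v) := par_vert_succ v
  have er0 : en 0 A.1 = rg A := en_joins (joins_lf_rg A).symm h.par_one
  have el0 : en 1 A.1 = lf A := en_joins (joins_lf_rg A) h.par_zero
  rw [Set.compl_eq_univ_sdiff]
  rcases Nat.lt_or_ge v x with h1 | h1
  · refine ⟨0, ?_⟩
    rw [er0, ← vert_one_rg (U := U)]
    rcases hp with h2 | h2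
    · exact ⟨vert U A v, Or.inl rfl, hcor _ (Or.inl rfl),
        conn_symm (h.walls.right v (by omega) h1 _ (Or.inl rfl) h2)⟩
    · exact ⟨vert U A (v + 1), Or.inl rfl, hcor _ (Or.inr rfl),
        conn_symm (h.walls.right v (by omega) h1 _ (Or.inr rfl) (by omega))⟩
  · refine ⟨1, ?_⟩
    rw [el0, ← vert_zero_lf (U := U)]
    rcases hp with h2 | h2
    · exact ⟨vert U A (v + 1), Or.inr rfl, hcor _ (Or.inr rfl),
        conn_symm (h.walls.left v h1 hv _ (Or.inr rfl) (by omega))⟩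
    · exact ⟨vert U A v, Or.inr rfl, hcor _ (Or.inl rfl),
        conn_symm (h.walls.left v h1 hv _ (Or.inl rfl) (by omega))⟩

/-- **The number of steps of the strand from the tip of `s`**, minus one. -/
noncomputable def nE (s : TS) (q : Rule.Ndl) (ω : Cfg) : ℕ :=
  Function.minimalPeriod (nx (cfS s.V q ω)) (pS s.V q ω s.t) - 1

theorem RunB.tstS (X : RunB 𝔇 d n r s ω q D κ m x) :
    TSt (cfS s.V q ω) Set.univ (uS s q ω) (tS s q ω) m x := by
  have h := X.tst ω
  rwa [Xi_self] at h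

/-- **The strand does not come back to its first edge before a running state.** -/
theorem RunB.nb (X : RunB 𝔇 d n r s ω q D κ m x) : Nb (cfS s.V q ω) (eS s.V q) s.t :=
  nb_of_fresh fun h => X.fre.2 (mem_coe.2 h)

theorem pS_eq_pth (s : TS) (q : Rule.Ndl) (ω : Cfg) (l : ℕ) :
    pS s.V q ω (s.t + l) = pth (cfS s.V q ω) (pS s.V q ω s.t) l := (pth_pS l).symm

/-- the period of the strand from the tip -/
theorem nE_per (hV : s.V ⊆ Box n) (hQ : QF q.1 ⊆ FU s.V) :
    pth (cfS s.V q ω) (pS s.V q ω s.t) (nE s q ω + 1) = pS s.V q ω s.t ∧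
      ∀ l, 0 < l → l ≤ nE s q ω → pth (cfS s.V q ω) (pS s.V q ω s.t) l ≠ pS s.V q ω s.t := by
  obtain ⟨N, hN, hret⟩ := cfS_per hV hQ ω (pS s.V q ω s.t)
  have hp : pS s.V q ω s.t ∈ Function.periodicPts (nx (cfS s.V q ω)) := ⟨N, hN, hret⟩
  have h0 := Function.minimalPeriod_pos_of_mem_periodicPts hp
  have e1 : nE s q ω + 1 = Function.minimalPeriod (nx (cfS s.V q ω)) (pS s.V q ω s.t) := by
    unfold nE
    omega
  refine ⟨?_, fun l hl hln hl' => ?_⟩
  · rw [e1]
    exact Function.isPeriodicPt_minimalPeriod _ _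
  · have h2 : Function.IsPeriodicPt (nx (cfS s.V q ω)) l (pS s.V q ω s.t) := hl'
    have := Nat.le_of_dvd hl h2.minimalPeriod_dvd
    omega

/-- The running states are not later than `nE`. -/
theorem le_nE (hV : s₀.V ⊆ Box n) (hQ : QF q.1 ⊆ FU s₀.V) (X : RunB 𝔇 d n r s ω q D κ m x)
    (hsV : s.V = s₀.V) (ht : s.t = s₀.t + τ) : τ ≤ nE s₀ q ω := by
  by_contra hno
  push Not at hno
  have hnb : Nb (cfS s₀.V q ω) (pS s₀.V q ω s₀.t) τ := by
    refine nb_of_fresh fun h => X.fre.2 (mem_coe.2 ?_)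
    have h1 : vs (cfS s₀.V q ω) (pS s₀.V q ω s₀.t) 0 τ = vS s₀.V q ω s₀.t (s₀.t + τ) := vs_pS τ
    rw [h1, ← pS_eq_pth, ← ht, ← hsV] at h
    exact vs_mono (Nat.zero_le _) le_rfl h
  exact hnb (nE s₀ q ω + 1) (Nat.succ_pos _) hno (nE_per hV hQ).1

/-- **The data of the stack from a running state.** `B` is its target side. -/
theorem tg_run (hV : s₀.V ⊆ Box n) (hQ : QF q.1 ⊆ FU s₀.V)
    (X : RunB 𝔇 d n r₀ s₀ ω q D₀ κ₀ m₀ x₀) (hB : B = side (uS s₀ q ω) (tS s₀ q ω) x₀)
    (hf : ahead B ∉ vs (cfS s₀.V q ω) (pS s₀.V q ω s₀.t) 0 T) :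
    Tg (cfS s₀.V q ω) (pS s₀.V q ω s₀.t) (uS s₀ q ω) (nE s₀ q ω) B T := by
  have h := X.tstS
  have hA1 : (tS s₀ q ω).1 = pS s₀.V q ω s₀.t := dirE_fst _
  have hbd := h.cyc.bd
  have hBD : BD (uS s₀ q ω) B := by
    rw [hB]
    exact bd_side hbd x₀
  have hpar : par (rg B) ≠ 0 := by
    have h1 := (joins_lf_rg B).par_ne
    have h2 : par (lf B) = 0 := by
      rw [hB]
      exact h.px
    omega
  obtain ⟨hfaB, hfbB⟩ := bwd_of_par hpar
  obtain ⟨hper, hmin⟩ := nE_per (ω := ω) hV hQ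
  refine
    { bas :=
        { back := ?_
          nb := fun l h1 h2 => hmin l h1 h2
          wall := ?_ }
      fin := h.fin
      esc := h.esc
      conn := h.ec
      front := self_mem_compT
      bd := hBD
      exit := by rw [hfaB]; exact hBD.2
      fresh := hf
      hit := ?_ }
  · have h1 := (fwd_of_par h.par_one).2
    rw [← hA1, h1]
    exact hbd.2
  · have h1 := wall_of_tst h
    rw [hA1] at h1
    exact h1
  · obtain ⟨t, ht⟩ := h.hit (cfS_per hV hQ ω _)
    rw [hA1, ← hB] at ht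
    -- reduce the time modulo the period
    have hred : pth (cfS s₀.V q ω) (pS s₀.V q ω s₀.t) (t % (nE s₀ q ω + 1)) = B.1 := by
      have h2 : ∀ k, pth (cfS s₀.V q ω) (pS s₀.V q ω s₀.t) (t % (nE s₀ q ω + 1) +
          k * (nE s₀ q ω + 1)) = pth (cfS s₀.V q ω) (pS s₀.V q ω s₀.t)
            (t % (nE s₀ q ω + 1)) := by
        intro k
        induction k with
        | zero => rw [Nat.zero_mul, Nat.add_zero]
        | succ k ih =>
          have h3 : t % (nE s₀ q ω + 1) + (k + 1) * (nE s₀ q ω + 1) =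
              (nE s₀ q ω + 1) + (t % (nE s₀ q ω + 1) + k * (nE s₀ q ω + 1)) := by ring
          rw [h3, ← pth_add, hper, ih]
      have h4 := h2 (t / (nE s₀ q ω + 1))
      rw [Nat.mul_comm (t / (nE s₀ q ω + 1)) (nE s₀ q ω + 1), Nat.mod_add_div, ht] at h4
      exact h4.symm
    have hlt : t % (nE s₀ q ω + 1) < nE s₀ q ω + 1 := Nat.mod_lt t (Nat.succ_pos (nE s₀ q ω))
    rcases Nat.eq_zero_or_pos (t % (nE s₀ q ω + 1)) with h0 | h0
    · exfalso
      rw [h0, pth_zero, ← hA1] at hred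
      have h1 : tS s₀ q ω = B := hbd.eq_of_fst hBD hred
      have h2 := h.cyc.inj x₀ h.lt 0 h.cyc.pos (by rw [← hB, ← h1]; rfl)
      have := h.pos
      omega
    · refine ⟨t % (nE s₀ q ω + 1) - 1, by omega, ?_⟩
      rw [← fb_pth_succ, Nat.sub_add_cancel h0, hred, hfbB]

/-- the number of the sides from another first side -/
theorem pL_of_cyc {U : Set (ℤ × ℤ)} {A : UE × Bool} (h : Cyc U A m) (x : ℕ) :
    Function.minimalPeriod (sc U) (side U A x) = m := by
  have hm : Per U m A := ⟨h.pos, h.per, fun i hi j hj hij => h.inj i hi j hj hij⟩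
  have hx : Per U m (side U A x) := hm.shift h.bd x
  have h1 : Function.IsPeriodicPt (sc U) m (side U A x) := hx.per
  have hp : side U A x ∈ Function.periodicPts (sc U) := ⟨m, h.pos, h1⟩
  have h0 := Function.minimalPeriod_pos_of_mem_periodicPts hp
  have h2 := Nat.le_of_dvd h.pos h1.minimalPeriod_dvd
  by_contra hne
  have h3 := hx.inj (Function.minimalPeriod (sc U) (side U A x)) (by omega) 0 h.pos
    (Function.isPeriodicPt_minimalPeriod _ _)
  omega

/-- **The numbers at a running state.** -/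
theorem num_run (X₀ : RunB 𝔇 d n r₀ s₀ ω q D₀ κ₀ m₀ x₀)
    (hT : Tg (cfS s₀.V q ω) (pS s₀.V q ω s₀.t) (uS s₀ q ω) (nE s₀ q ω) B T)
    (X : RunB 𝔇 d n r s ω q D κ m x) (hsV : s.V = s₀.V) (ht : s.t = s₀.t + τ) (hτ : τ ≤ T)
    (hB : side (uS s q ω) (tS s q ω) x = B) :
    uT (cfS s₀.V q ω) (pS s₀.V q ω s₀.t) (uS s₀ q ω) B τ = uS s q ω ∧
    th (cfS s₀.V q ω) (pS s₀.V q ω s₀.t) (uS s₀ q ω) B τ = τ ∧
    pL (cfS s₀.V q ω) (pS s₀.V q ω s₀.t) (uS s₀ q ω) B τ = m ∧
    jT (cfS s₀.V q ω) (pS s₀.V q ω s₀.t) (uS s₀ q ω) B τ = m - x ∧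
    (∀ i, side (uT (cfS s₀.V q ω) (pS s₀.V q ω s₀.t) (uS s₀ q ω) B τ) B i =
      side (uS s q ω) (tS s q ω) (x + i)) ∧
    ∀ i ≤ x, side (uT (cfS s₀.V q ω) (pS s₀.V q ω s₀.t) (uS s₀ q ω) B τ) B (m - i) =
      side (uS s q ω) (tS s q ω) (x - i) := by
  have h := X.tstS
  have hbd := h.cyc.bd
  have hBD : BD (uS s q ω) B := by
    rw [← hB]
    exact bd_side hbd x
  have hvs : vs (cfS s₀.V q ω) (pS s₀.V q ω s₀.t) 0 τ = vS s₀.V q ω s₀.t (s₀.t + τ) := vs_pS τ
  have hmem := hT.mem hτ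
  -- the component
  have e1 : uT (cfS s₀.V q ω) (pS s₀.V q ω s₀.t) (uS s₀ q ω) B τ = uS s q ω := by
    have h1 : uS s q ω = compT (frS s₀ q ω \ (vS s₀.V q ω s₀.t (s₀.t + τ) : Set (ℤ × ℤ)))
        (ahead B) := by
      rw [← frS_step hsV ht]
      exact (compT_eq X.fre hBD.1).symm
    rw [h1]
    unfold uT
    rw [hvs]
    rw [hvs] at hmem
    exact (comp_step X₀.fre hmem.1 hmem.2).symm
  have htip : pth (cfS s₀.V q ω) (pS s₀.V q ω s₀.t) τ = (tS s q ω).1 := by
    rw [← pS_eq_pth, ← ht, ← hsV]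
    exact (dirE_fst _).symm
  have hfa : fa (pth (cfS s₀.V q ω) (pS s₀.V q ω s₀.t) τ) ∈ uS s q ω := by
    rw [htip, h.fwd]
    exact hbd.1
  have e2 : th (cfS s₀.V q ω) (pS s₀.V q ω s₀.t) (uS s₀ q ω) B τ = τ := by
    unfold th
    rw [e1]
    refine le_antisymm (Nat.sInf_le ⟨le_rfl, hfa⟩) ?_
    have hne : {l | τ ≤ l ∧ fa (pth (cfS s₀.V q ω) (pS s₀.V q ω s₀.t) l) ∈ uS s q ω}.Nonempty :=
      ⟨τ, le_rfl, hfa⟩
    exact (Nat.sInf_mem hne).1
  have e3 : pL (cfS s₀.V q ω) (pS s₀.V q ω s₀.t) (uS s₀ q ω) B τ = m := by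
    unfold pL
    rw [e1, ← hB]
    exact pL_of_cyc h.cyc x
  have e5 : ∀ i, side (uS s q ω) B i = side (uS s q ω) (tS s q ω) (x + i) := fun i => by
    rw [← hB, ← side_add]
  have hlt := h.lt
  have hpos := h.pos
  have hA : side (uS s q ω) B (m - x) = tS s q ω := by
    rw [e5, Nat.add_sub_cancel' hlt.le]
    exact h.cyc.per
  refine ⟨e1, e2, e3, ?_, fun i => by rw [e1]; exact e5 i, fun i hi => ?_⟩
  · unfold jT
    rw [e1, e2, htip]
    refine le_antisymm (Nat.sInf_le (show (side (uS s q ω) B (m - x)).1 = (tS s q ω).1 by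
      rw [hA])) ?_
    have hne : {j | (side (uS s q ω) B j).1 = (tS s q ω).1}.Nonempty := ⟨m - x, by
      show (side (uS s q ω) B (m - x)).1 = (tS s q ω).1
      rw [hA]⟩
    have h1 : (side (uS s q ω) B (sInf {j | (side (uS s q ω) B j).1 = (tS s q ω).1})).1 =
        (tS s q ω).1 := Nat.sInf_mem hne
    set j := sInf {j | (side (uS s q ω) B j).1 = (tS s q ω).1} with hj
    by_contra hno
    push Not at hno
    have h2 : side (uS s q ω) B j = tS s q ω := (bd_side hBD j).eq_of_fst hbd h1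
    rw [e5] at h2
    have h3 := h.cyc.inj (x + j) (by omega) 0 h.cyc.pos h2
    omega
  · rw [e1, e5, show x + (m - i) = m + (x - i) by omega, side_add]
    rw [h.cyc.per]

end Pool.Agent.SixB.Tru
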