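import Pool.Agent.Lib.SixB.S8Ori
import Pool.Agent.Lib.SixB.S8AppLink
import Pool.Agent.Lib.SixB.S8MoveB
import Pool.Agent.Lib.SixB.S8CountS

/-!
# Step 8, number of moves: LEMMA M

`P` is the coarse approximation of the fresh region `U` (classes `κ`), with the labels `LabP`; `b₀` and
`y₀` are the sides of `P` number `j₁ - 1` and `j₂ + 1` (right and left of the target), behind different
classes. `E` is the set entered at the stop, it has the side `W` (number `w`) of `P`, and `ahead B ∉ E`.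

* `Stg.lk_left`, `Stg.lk_right`: the link of `W` is disjoint from the links of `y₀` and `b₀`;
* `Stg.ord_left` (T1): for `y₀ < w < r`, `r` far from `W` and from the target:
  `kt ≤ v(W) < v(r)` for every link of `W` and every left link of `r`; `Stg.ord_right`: the mirror image;
* `Stg.claim_left`, `Stg.claim_right` (T3, Claim A): a connected set `H₀ ⊆ U`, disjoint from the visited
  faces, from `E` and from the link of `W`, which contains the face of `b₀` (of `y₀`), has its sides of `U`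
  of the left (right) part between the target and `W`; `void_left`, `void_right`: the same for a void
  move.
-/

set_option autoImplicit false

namespace Pool.Agent.SixB.CntM

open Finset Pool.Agent.Perc Pool.Agent.Perc6 Pool.Agent.Perc6.C2Aux Pool.Agent.Perc.Tips
open Pool.Agent.SixB.Top Pool.Agent.SixB.Mv Pool.Agent.SixB.NearCut

variable {ι γ : Type*} {U P : Set (ℤ × ℤ)} {κ : ℤ × ℤ → ι} {d : ℤ} {A τ B : UE × Bool}

/-! ### The faces of a link -/

/-- The faces of the links of the side `B`. -/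
def lkF (U : Set (ℤ × ℤ)) (κ : ℤ × ℤ → ι) (B : UE × Bool) : Set (ℤ × ℤ) :=
  {x | ahead (rv B) ∈ U ∧ x ∈ capC U κ (ahead (rv B))}

theorem lkF_U {f : ℤ × ℤ} (hf : f ∈ lkF U κ B) : f ∈ U := (capC_le hf.1 hf.2).2

theorem lkF_class {f : ℤ × ℤ} (hf : f ∈ lkF U κ B) : κ f = κ (ahead (rv B)) :=
  (capC_le hf.1 hf.2).1

theorem lkF_sub (h : App U P κ d) (hB : BD P B) : ∀ f ∈ lkF U κ B, f ∈ U ∧ f ∉ P :=
  fun _ hf => ⟨lkF_U hf, h.cap_notMem hf.1 hB.2 hf.2⟩

theorem lkF_chain {f : ℤ × ℤ} (hf : f ∈ lkF U κ B) : ChI (lkF U κ B) (ahead (rv B)) f := by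
  have h1 : ChI (capC U κ (ahead (rv B))) (ahead (rv B)) f := compT_chain self_mem_compT hf.2
  have h2 : capC U κ (ahead (rv B)) ⊆ lkF U κ B := fun x hx => ⟨hf.1, hx⟩
  exact h1.mono h2

theorem lkF_self {f : ℤ × ℤ} (hf : f ∈ lkF U κ B) : ahead (rv B) ∈ lkF U κ B :=
  ⟨hf.1, self_mem_compT⟩

theorem lkF_lkS {C : UE × Bool} (h : LinkK U κ B C) : LkS (lkF U κ B) B C := by
  rcases h with h | ⟨h1, h2⟩
  · exact Or.inl h
  · exact Or.inr ⟨⟨h1, self_mem_compT⟩, lkF_chain (B := B) ⟨h1, h2⟩⟩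

theorem lkF_disj {B' : UE × Bool} (h : κ (ahead (rv B)) ≠ κ (ahead (rv B'))) :
    ∀ f ∈ lkF U κ B, f ∉ lkF U κ B' := fun _ hf hf' => h ((lkF_class hf).symm.trans (lkF_class hf'))

/-- Two links which meet have the same faces. -/
theorem lkF_meet {B' : UE × Bool} {f : ℤ × ℤ} (hf : f ∈ lkF U κ B) (hf' : f ∈ lkF U κ B') :
    ahead (rv B') ∈ lkF U κ B ∧ κ (ahead (rv B)) = κ (ahead (rv B')) := by
  have hk : κ (ahead (rv B)) = κ (ahead (rv B')) := (lkF_class hf).symm.trans (lkF_class hf')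
  refine ⟨⟨hf.1, ?_⟩, hk⟩
  have h1 : ChI ({x | κ x = κ (ahead (rv B))} ∩ U) (ahead (rv B)) f := hf.2
  have h2 : ChI ({x | κ x = κ (ahead (rv B'))} ∩ U) (ahead (rv B')) f := hf'.2
  rw [← hk] at h2
  exact h1.trans (ChI.symm ⟨hk.symm, hf'.1⟩ h2)

/-- The sides of a link are near. -/
theorem lkF_near (h : App U P κ d) {f : ℤ × ℤ} (hf : f ∈ lkF U κ B) :
    f ∈ sqF d (ahead B) := by
  have h1 := h.diam _ _ (lkF_class hf)
  have h2 := adj_near_app (adj_iff_adjFL.2 (adjF_ahead B).symm)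
  unfold sqF
  rw [Set.mem_setOf_eq]
  simp only [abs_lt, abs_le] at *
  omega

theorem link_near (h : App U P κ d) {C : UE × Bool} (hl : LinkK U κ B C) :
    ahead C ∈ sqF d (ahead B) := by
  have hd := h.d_pos
  rcases hl with rfl | hl
  · unfold sqF
    rw [Set.mem_setOf_eq]
    simp only [sub_self, abs_zero]
    omega
  · exact lkF_near h hl

/-! ### Consecutive sides -/

/-- The inner faces of consecutive sides. -/
theorem inF_succ_near (hA : BD P A) {s : ℤ} {g : ℤ × ℤ} {i : ℕ} (h : inF P A i ∈ sqF s g) :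
    inF P A (i + 1) ∈ sqF (s + 1) g := by
  have h1 : IsCor (inF P A i) (vert P A (i + 1)) := by
    rw [vert_succ]
    exact isCor_in_rg _
  have h2 : IsCor (inF P A (i + 1)) (vert P A (i + 1)) := isCor_in_lf _
  unfold sqF at *
  rw [Set.mem_setOf_eq, abs_le, abs_le] at *
  unfold IsCor at h1 h2
  omega

theorem inF_pred_near (hA : BD P A) {s : ℤ} {g : ℤ × ℤ} {i : ℕ} (h : inF P A (i + 1) ∈ sqF s g) :
    inF P A i ∈ sqF (s + 1) g := by
  have h1 : IsCor (inF P A i) (vert P A (i + 1)) := by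
    rw [vert_succ]
    exact isCor_in_rg _
  have h2 : IsCor (inF P A (i + 1)) (vert P A (i + 1)) := isCor_in_lf _
  unfold sqF at *
  rw [Set.mem_setOf_eq, abs_le, abs_le] at *
  unfold IsCor at h1 h2
  omega

theorem sqF_mono {s s' : ℤ} (hs : s ≤ s') {f g : ℤ × ℤ} (h : f ∈ sqF s g) : f ∈ sqF s' g :=
  ⟨h.1.trans hs, h.2.trans hs⟩

/-- A saturated set along an interval of sides near a face in the interior of a cell. -/
theorem run_iff (hA : BD P A) {E : Set (ℤ × ℤ)} {c : ℤ × ℤ → γ}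
    (hE : ∀ f ∈ E, ∀ g ∈ P, AdjF f g → c f = c g → g ∈ E) {r : ℤ} {z : ℤ × ℤ}
    (hc : ∀ f ∈ sqF (r + 1) z, c f = c z) {i j : ℕ} (hij : i ≤ j)
    (hn : ∀ k, i ≤ k → k < j → inF P A k ∈ sqF r z) : inF P A i ∈ E ↔ inF P A j ∈ E := by
  have key : ∀ k, i + k ≤ j → (inF P A i ∈ E ↔ inF P A (i + k) ∈ E) := by
    intro k
    induction k with
    | zero => exact fun _ => Iff.rfl
    | succ k ih =>
      intro hk
      refine (ih (by omega)).trans ?_
      refine inF_step (Q := {f | c f = c z}) hA (fun f hf => ?_) ?_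
      · refine hc f ?_
        have h := hn (i + k) (by omega) (by omega)
        have h3 : IsCor (inF P A (i + k)) (vert P A (i + k + 1)) := by
          rw [vert_succ]
          exact isCor_in_rg _
        unfold sqF at h ⊢
        rw [Set.mem_setOf_eq, abs_le, abs_le] at *
        unfold IsCor at h3 hf
        omega
      · intro f g hf hfQ hg hgQ hfg
        exact hE f hf g hg hfg (hfQ.trans hgQ.symm)
  have := key (j - i) (by omega)
  rwa [show i + (j - i) = j by omega] at this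

theorem cyc_per {F : Set (ℤ × ℤ)} {m : ℕ} (h : Cyc F A m) : Per F m A := ⟨h.pos, h.per, h.inj⟩

/-! ### The data of a stage -/

/-- The data at a stop: `E` is the entered set. -/
structure Stg (U P : Set (ℤ × ℤ)) (κ : ℤ × ℤ → ι) (d : ℤ) (A τ B : UE × Bool) (c : ℤ × ℤ → γ)
    (s s₀ : ℤ) (mP mU kt i₁ j₁ t j₂ i₂ : ℕ) (E : Set (ℤ × ℤ)) : Prop where
  app : App U P κ d
  fU : U.Finite
  cU : Top.EConn U
  eU : Esc U
  cP : Top.EConn P
  cyU : Cyc U τ mU
  lab : LabP U P κ A τ B s s₀ mP mU kt i₁ j₁ t j₂ i₂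
  sep : κ (outF P A (j₁ - 1)) ≠ κ (outF P A (j₂ + 1))
  sat : ∀ f ∈ E, ∀ g ∈ P, AdjF f g → c f = c g → g ∈ E
  EP : E ⊆ P
  cE : Top.EConn E
  BE : ahead B ∉ E
  celB : ∀ f ∈ sqF (s₀ + 2 * d + 4) (ahead B), c f = c (ahead B)

namespace Stg

variable {c : ℤ × ℤ → γ} {s s₀ : ℤ} {mP mU kt i₁ j₁ t j₂ i₂ : ℕ} {E : Set (ℤ × ℤ)}
  (S : Stg U P κ d A τ B c s s₀ mP mU kt i₁ j₁ t j₂ i₂ E)

include S

theorem jm : j₂ + 1 < mP := by
  have h1 := S.lab.ji
  have h2 := S.lab.im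
  omega

/-- A side near the target is not a side of `E`. -/
theorem near_notMem {i : ℕ} (h1 : j₁ ≤ i + 1) (h2 : i ≤ j₂ + 1) : inF P A i ∉ E := by
  have hd := S.app.d_pos
  have hjt := S.lab.jt
  have htj := S.lab.tj
  have hBt : inF P A t = ahead B := by
    unfold inF
    rw [S.lab.tgt]
  have hs : ahead B ∉ E := S.BE
  have hnr : ∀ k, j₁ ≤ k → k ≤ j₂ → inF P A k ∈ sqF (s₀ + 1) (ahead B) := fun k h3 h4 =>
    sqF_mono (by omega) (S.lab.nrB k h3 h4)
  have hcc : ∀ f ∈ sqF (s₀ + 1 + 1) (ahead B), c f = c (ahead B) := fun f hf =>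
    S.celB f (sqF_mono (by omega) hf)
  intro hi
  rcases Nat.lt_or_ge i t with h3 | h3
  · have h4 := (run_iff S.lab.cyc.bd S.sat hcc h3.le (fun k h5 h6 => ?_)).1 hi
    · rw [hBt] at h4
      exact hs h4
    · rcases Nat.lt_or_ge k j₁ with h7 | h7
      · have h8 : k + 1 = j₁ := by omega
        have h9 := S.lab.nrB j₁ le_rfl (hjt.trans htj)
        rw [← h8] at h9
        exact inF_pred_near S.lab.cyc.bd h9
      · exact hnr k h7 (by omega)
  · have h4 := (run_iff S.lab.cyc.bd S.sat hcc h3 (fun k h5 h6 => hnr k (by omega) (by omega))).2 hi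
    rw [hBt] at h4
    exact hs h4

/-- The side number `i` has a link. -/
theorem ex_link {i : ℕ} : ∃ v < mU, LinkK U κ (side P A i) (side U τ v) := by
  obtain ⟨C, hC, hl⟩ := exists_linkU S.app (bd_side S.lab.cyc.bd i)
  obtain ⟨v, hv, hvC⟩ := S.cyU.exists_index hC
  exact ⟨v, hv, by rw [hvC]; exact hl⟩

/-- **No class part joins two sides of `P` if it separates two other classes.** -/
theorem no_meet {i k j l : ℕ} (hik : i < k) (hkj : k < j) (hj : j < mP) (hl : l < i ∨ j < l)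
    (hlm : l < mP) {f : ℤ × ℤ} (hf : f ∈ lkF U κ (side P A i)) (hf' : f ∈ lkF U κ (side P A j))
    (hk : κ (outF P A k) ≠ κ (outF P A i)) (hl' : κ (outF P A l) ≠ κ (outF P A i)) : False := by
  have hA := S.lab.cyc.bd
  obtain ⟨v₃, -, l₃⟩ := S.ex_link (i := k)
  obtain ⟨v₄, -, l₄⟩ := S.ex_link (i := l)
  exact no_chord S.fU S.cU S.eU S.app.sub S.cP hA (cyc_per S.lab.cyc) (lkF_sub S.app (bd_side hA i))
    (lkF_sub S.app (bd_side hA k)) (lkF_sub S.app (bd_side hA l)) (lkF_disj hk) (lkF_disj hl') hik hkj hj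
    hl hlm (lkF_self hf) (lkF_chain (lkF_meet hf hf').1) (bd_side S.cyU.bd v₃) (bd_side S.cyU.bd v₄)
    (lkF_lkS l₃) (lkF_lkS l₄)

/-- The class of a side near the target. -/
theorem far_class {i k : ℕ} (hi : inF P A i ∈ sqF (s₀ + 1) (ahead B))
    (hk : inF P A k ∉ sqF (s₀ + d + 2) (ahead B)) : κ (outF P A k) ≠ κ (outF P A i) := by
  intro he
  apply hk
  have h1 := S.app.diam _ _ he
  have h2 := adj_near_app (adj_iff_adjFL.2 (adjF_ahead (side P A i)).symm)
  have h3 := adj_near_app (adj_iff_adjFL.2 (adjF_ahead (side P A k)).symm)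
  unfold outF at h1
  unfold inF at *
  unfold sqF at *
  rw [Set.mem_setOf_eq] at *
  simp only [abs_lt, abs_le] at *
  omega

theorem near_y : inF P A (j₂ + 1) ∈ sqF (s₀ + 1) (ahead B) :=
  inF_succ_near S.lab.cyc.bd (S.lab.nrB j₂ (S.lab.jt.trans S.lab.tj) le_rfl)

theorem near_b : inF P A (j₁ - 1) ∈ sqF (s₀ + 1) (ahead B) := by
  have h1 := S.lab.ij
  have h2 := S.lab.nrB j₁ le_rfl (S.lab.jt.trans S.lab.tj)
  rw [show j₁ = j₁ - 1 + 1 by omega] at h2
  exact inF_pred_near S.lab.cyc.bd h2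

/-- **The link of a side of `E` on the left is disjoint from the link of `y₀`.** -/
theorem lk_left {w : ℕ} (hw : j₂ + 1 < w) (hwm : w < mP) (hE : inF P A w ∈ E) :
    ∀ f ∈ lkF U κ (side P A (j₂ + 1)), f ∉ lkF U κ (side P A w) := by
  intro f hf hf'
  have hd := S.app.d_pos
  have hij := S.lab.ij
  have hjt := S.lab.jt
  have htj := S.lab.tj
  have hy := S.near_y
  have hcl : κ (outF P A w) = κ (outF P A (j₂ + 1)) := (lkF_meet hf hf').2.symm
  by_cases hall : ∀ k, j₂ + 1 ≤ k → k < w → inF P A k ∈ sqF (s₀ + d + 2) (ahead B)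
  · have h1 := (run_iff S.lab.cyc.bd S.sat (fun f hf => S.celB f (sqF_mono (by omega) hf)) hw.le
      hall).2 hE
    exact S.near_notMem (by omega) le_rfl h1
  · push Not at hall
    obtain ⟨k, h1, h2, h3⟩ := hall
    have h4 : k ≠ j₂ + 1 := by
      rintro rfl
      exact h3 (sqF_mono (by omega) hy)
    exact S.no_meet (i := j₂ + 1) (k := k) (j := w) (l := j₁ - 1) (by omega) h2 hwm (by omega)
      (by omega) hf hf' (S.far_class hy h3) S.sep

/-- **The link of a side of `E` on the right is disjoint from the link of `b₀`.** -/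
theorem lk_right {w : ℕ} (hw : w < j₁ - 1) (hE : inF P A w ∈ E) :
    ∀ f ∈ lkF U κ (side P A (j₁ - 1)), f ∉ lkF U κ (side P A w) := by
  intro f hf hf'
  have hd := S.app.d_pos
  have hij := S.lab.ij
  have hjt := S.lab.jt
  have htj := S.lab.tj
  have hjm := S.jm
  have hb := S.near_b
  have hcl : κ (outF P A w) = κ (outF P A (j₁ - 1)) := (lkF_meet hf hf').2.symm
  by_cases hall : ∀ k, w < k → k ≤ j₁ - 1 → inF P A k ∈ sqF (s₀ + d + 2) (ahead B)
  · have hw' : inF P A w ∈ sqF (s₀ + d + 2) (ahead B) := by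
      by_contra hn
      exact S.far_class hb hn hcl
    have h1 := (run_iff S.lab.cyc.bd S.sat (r := s₀ + d + 2)
      (fun f hf => S.celB f (sqF_mono (by omega) hf)) hw.le
      (fun k h5 h6 => by
        rcases Nat.eq_or_lt_of_le h5 with rfl | h7
        · exact hw'
        · exact hall k h7 h6.le)).1 hE
    exact S.near_notMem (by omega) (by omega) h1
  · push Not at hall
    obtain ⟨k, h1, h2, h3⟩ := hall
    have h4 : k ≠ j₁ - 1 := by
      rintro rfl
      exact h3 (sqF_mono (by omega) hb)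
    refine S.no_meet (i := w) (k := k) (j := j₁ - 1) (l := j₂ + 1) h1 (by omega) (by omega) (by omega)
      hjm hf' hf ?_ ?_
    · rw [hcl]
      exact S.far_class hb h3
    · rw [hcl]
      exact fun h => S.sep h.symm

/-- The links of `W` (left) and `b₀` are disjoint. -/
theorem lk_left' {w r : ℕ} (hw : j₂ + 1 < w) (hwr : w < r) (hr : r < mP)
    (hrb : κ (outF P A r) ≠ κ (outF P A (j₁ - 1))) :
    ∀ f ∈ lkF U κ (side P A (j₁ - 1)), f ∉ lkF U κ (side P A w) := by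
  intro f hf hf'
  have hij := S.lab.ij
  have hjt := S.lab.jt
  have htj := S.lab.tj
  exact S.no_meet (i := j₁ - 1) (k := j₂ + 1) (j := w) (l := r) (by omega) hw (by omega) (by omega)
    hr hf hf' (fun h => S.sep h.symm) hrb

/-- The links of `W` (right) and `y₀` are disjoint. -/
theorem lk_right' {w r : ℕ} (hw : w < j₁ - 1) (hwr : r < w)
    (hrb : κ (outF P A r) ≠ κ (outF P A (j₂ + 1))) :
    ∀ f ∈ lkF U κ (side P A (j₂ + 1)), f ∉ lkF U κ (side P A w) := by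
  intro f hf hf'
  have hij := S.lab.ij
  have hjt := S.lab.jt
  have htj := S.lab.tj
  have hjm := S.jm
  have hcl := (lkF_meet hf hf').2
  refine S.no_meet (i := w) (k := j₁ - 1) (j := j₂ + 1) (l := r) hw (by omega) hjm (by omega)
    (by omega) hf' hf ?_ ?_
  · exact fun h => S.sep (h.trans hcl.symm)
  · exact fun h => hrb (h.trans hcl.symm)

/-- Three disjoint links. -/
theorem cyc {i j k v₁ v₂ v₃ : ℕ} (hij : i < j) (hjk : j < k) (hk : k < mP) (hv₁ : v₁ < mU)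
    (hv₂ : v₂ < mU) (hv₃ : v₃ < mU) (l₁ : LinkK U κ (side P A i) (side U τ v₁))
    (l₂ : LinkK U κ (side P A j) (side U τ v₂)) (l₃ : LinkK U κ (side P A k) (side U τ v₃))
    (h12 : ∀ f ∈ lkF U κ (side P A i), f ∉ lkF U κ (side P A j))
    (h13 : ∀ f ∈ lkF U κ (side P A i), f ∉ lkF U κ (side P A k))
    (h23 : ∀ f ∈ lkF U κ (side P A j), f ∉ lkF U κ (side P A k)) :
    (v₁ < v₂ ∧ v₂ < v₃) ∨ (v₂ < v₃ ∧ v₃ < v₁) ∨ (v₃ < v₁ ∧ v₁ < v₂) := by
  have hA := S.lab.cyc.bd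
  exact cyc3 S.fU S.eU S.app.sub S.cP hA (cyc_per S.lab.cyc) S.cyU.bd (cyc_per S.cyU)
    (lkF_sub S.app (bd_side hA i)) (lkF_sub S.app (bd_side hA j)) (lkF_sub S.app (bd_side hA k))
    h12 h13 h23 hij hjk hk hv₁ hv₂ hv₃ (lkF_lkS l₁) (lkF_lkS l₂) (lkF_lkS l₃)

/-- **(T1), left.** -/
theorem ord_left {w r v vr : ℕ} (hw : j₂ + 1 < w) (hwr : w < r) (hr : r < mP)
    (hE : inF P A w ∈ E) (hrb : κ (outF P A r) ≠ κ (outF P A (j₁ - 1)))
    (hry : κ (outF P A r) ≠ κ (outF P A (j₂ + 1))) (hrw : κ (outF P A r) ≠ κ (outF P A w))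
    (hv : v < mU) (hvr : vr < mU) (hkt : kt ≤ vr) (lw : LinkK U κ (side P A w) (side U τ v))
    (lr : LinkK U κ (side P A r) (side U τ vr)) : kt ≤ v ∧ v < vr := by
  have hij := S.lab.ij
  have hjt := S.lab.jt
  have htj := S.lab.tj
  have hji := S.lab.ji
  obtain ⟨vb, hvb, lb⟩ := S.lab.b (j₁ - 1) (by omega) (by omega)
  obtain ⟨vy, hvy, hvym, ly⟩ := S.lab.l (j₂ + 1) (by omega) (by omega)
  have h1 := S.cyc (i := j₁ - 1) (j := j₂ + 1) (k := r) (by omega) (by omega) hr (by omega) hvym hvr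
    lb ly lr (lkF_disj S.sep) (lkF_disj fun h => hrb h.symm) (lkF_disj fun h => hry h.symm)
  have h2 := S.cyc (i := j₂ + 1) (j := w) (k := r) hw hwr hr hvym hv hvr ly lw lr
    (S.lk_left hw (by omega) hE) (lkF_disj fun h => hry h.symm) (lkF_disj fun h => hrw h.symm)
  omega

/-- **(T1), right.** -/
theorem ord_right {w r v vr : ℕ} (hw : w < j₁ - 1) (hwr : r < w)
    (hE : inF P A w ∈ E) (hrb : κ (outF P A r) ≠ κ (outF P A (j₁ - 1)))
    (hry : κ (outF P A r) ≠ κ (outF P A (j₂ + 1))) (hrw : κ (outF P A r) ≠ κ (outF P A w))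
    (hv : v < mU) (hkt : vr < kt) (hktm : kt ≤ mU) (lw : LinkK U κ (side P A w) (side U τ v))
    (lr : LinkK U κ (side P A r) (side U τ vr)) : vr < v ∧ v < kt := by
  have hij := S.lab.ij
  have hjt := S.lab.jt
  have htj := S.lab.tj
  have hji := S.lab.ji
  have hjm := S.jm
  obtain ⟨vb, hvb, lb⟩ := S.lab.b (j₁ - 1) (by omega) (by omega)
  obtain ⟨vy, hvy, hvym, ly⟩ := S.lab.l (j₂ + 1) (by omega) (by omega)
  have h1 := S.cyc (i := r) (j := j₁ - 1) (k := j₂ + 1) (by omega) (by omega) hjm (by omega)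
    (by omega) hvym lr lb ly (lkF_disj hrb) (lkF_disj hry) (lkF_disj S.sep)
  have h2 := S.cyc (i := r) (j := w) (k := j₁ - 1) hwr hw (by omega) (by omega) hv (by omega) lr lw lb
    (lkF_disj hrw) (lkF_disj hrb) (fun f hf hf' => S.lk_right hw hE f hf' hf)
  omega

/-! ### Claim A -/

/-- `E` with the link of a side of `E` is connected. -/
theorem econn_E {w : ℕ} (hE : inF P A w ∈ E) : Top.EConn (E ∪ lkF U κ (side P A w)) := by
  have hin : ∀ f ∈ E ∪ lkF U κ (side P A w), ChI (E ∪ lkF U κ (side P A w)) (inF P A w) f := by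
    rintro f (hf | hf)
    · exact ChI.mono Set.subset_union_left (S.cE _ hE _ hf)
    · have h1 : ChI (E ∪ lkF U κ (side P A w)) (inF P A w) (ahead (rv (side P A w))) :=
        ChI.single (adjF_ahead _).symm (Or.inr (lkF_self hf))
      exact h1.trans (ChI.mono Set.subset_union_right (lkF_chain hf))
  intro f hf g hg
  exact (ChI.symm (Or.inl hE) (hin f hf)).trans (hin g hg)

/-- The face of a linked side of `U`. -/
theorem inF_of_link {w v : ℕ} (hE : inF P A w ∈ E) (l : LinkK U κ (side P A w) (side U τ v)) :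
    inF U τ v ∈ E ∪ lkF U κ (side P A w) := by
  rcases l with l | ⟨h1, h2⟩
  · left
    unfold inF at *
    rwa [← l]
  · exact Or.inr ⟨h1, h2⟩

end Stg

/-- A connected set with the link of one of its sides. -/
theorem econn_add {H₀ : Set (ℤ × ℤ)} {b : UE × Bool} (cH : Top.EConn H₀) (hb : ahead b ∈ H₀) :
    Top.EConn (H₀ ∪ lkF U κ b) := by
  have hin : ∀ f ∈ H₀ ∪ lkF U κ b, ChI (H₀ ∪ lkF U κ b) (ahead b) f := by
    rintro f (hf | hf)
    · exact ChI.mono Set.subset_union_left (cH _ hb _ hf)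
    · have h1 : ChI (H₀ ∪ lkF U κ b) (ahead b) (ahead (rv b)) :=
        ChI.single (adjF_ahead _).symm (Or.inr (lkF_self hf))
      exact h1.trans (ChI.mono Set.subset_union_right (lkF_chain hf))
  intro f hf g hg
  exact (ChI.symm (Or.inl hb) (hin f hf)).trans (hin g hg)

theorem mem_add {H₀ : Set (ℤ × ℤ)} {b : UE × Bool} {v : ℕ} (hb : ahead b ∈ H₀)
    (l : LinkK U κ b (side U τ v)) : inF U τ v ∈ H₀ ∪ lkF U κ b := by
  rcases l with l | ⟨h1, h2⟩
  · left
    unfold inF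
    rwa [← l]
  · exact Or.inr ⟨h1, h2⟩

/-- The data of the strand between two stops for `Cnt.strand_nc`. -/
structure Strd (ω : Cfg) (e : UE) (n : ℕ) (U : Set (ℤ × ℤ)) (τ : UE × Bool) (s t : ℕ)
    (E : Set (ℤ × ℤ)) : Prop where
  anc : Cnt.Anc ω U τ.1
  nb : Nb ω e n
  st : s ≤ t
  tn : t ≤ n
  tip : τ.1 = pth ω e s
  fac : fa (pth ω e s) ∈ U
  ent : fa (pth ω e t) ∈ E

namespace Stg

variable {c : ℤ × ℤ → γ} {s s₀ : ℤ} {mP mU kt i₁ j₁ t j₂ i₂ : ℕ} {E : Set (ℤ × ℤ)}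
  (S : Stg U P κ d A τ B c s s₀ mP mU kt i₁ j₁ t j₂ i₂ E) {ω : Cfg} {e : UE} {n σ σ' : ℕ}
  {H₀ : Set (ℤ × ℤ)}

include S

/-- **(T3), Claim A on the left side.** -/
theorem claim_left (X : Strd ω e n U τ σ σ' E) {w r v q : ℕ} (hw : j₂ + 1 < w) (hwr : w < r)
    (hr : r < mP) (hE : inF P A w ∈ E) (hrb : κ (outF P A r) ≠ κ (outF P A (j₁ - 1)))
    (hkv : kt ≤ v) (hv : v < mU) (lw : LinkK U κ (side P A w) (side U τ v))
    (hH : H₀ ⊆ U) (cH : Top.EConn H₀) (hb : inF P A (j₁ - 1) ∈ H₀)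
    (hHE : ∀ f ∈ H₀, f ∉ E) (hHw : ∀ f ∈ H₀, f ∉ lkF U κ (side P A w))
    (hHv : ∀ l, σ ≤ l → l < σ' → fa (pth ω e l) ∉ H₀)
    (hbv : ∀ l, σ ≤ l → l < σ' → fa (pth ω e l) ∉ lkF U κ (side P A (j₁ - 1)))
    (hq : kt ≤ q) (hqm : q < mU) (hqH : inF U τ q ∈ H₀) : q < v := by
  have hA := S.lab.cyc.bd
  obtain ⟨vb, hvb, lb⟩ := S.lab.b (j₁ - 1) (by have := S.lab.ij; omega) (by have := S.lab.ij; omega)
  set H := H₀ ∪ lkF U κ (side P A (j₁ - 1)) with hHd
  set Z := E ∪ lkF U κ (side P A w) with hZd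
  have hZ : ∀ f ∈ Z, f ∉ H := by
    rintro f (hf | hf) (hf' | hf')
    · exact hHE f hf' hf
    · exact (lkF_sub S.app (bd_side hA _) f hf').2 (S.EP hf)
    · exact hHw f hf' hf
    · exact S.lk_left' hw hwr hr hrb f hf' hf
  have hne : q ≠ v := by
    rintro rfl
    exact hZ _ (S.inF_of_link hE lw) (Or.inl hqH)
  by_contra hcon
  refine Cnt.strand_nc S.fU S.cU S.eU S.cyU.bd (cyc_per S.cyU) X.anc X.nb X.st X.tn X.tip X.fac
    (Z := Z) (H := H) ?_ (S.econn_E hE) (Or.inl X.ent) ?_ (econn_add cH hb) ?_ hZ (x := vb) (y := q)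
    (z := v) (by omega) hqm (mem_add hb lb) (Or.inl hqH) (Or.inl (S.inF_of_link hE lw)) (by omega)
  · rintro f (hf | hf)
    · exact S.app.sub (S.EP hf)
    · exact lkF_U hf
  · rintro f (hf | hf)
    · exact hH hf
    · exact lkF_U hf
  · rintro l h1 h2 (hf | hf)
    · exact hHv l h1 h2 hf
    · exact hbv l h1 h2 hf

/-- **(T3), Claim A on the right side.** -/
theorem claim_right (X : Strd ω e n U τ σ σ' E) {w r v q : ℕ} (hw : w < j₁ - 1) (hwr : r < w)
    (hE : inF P A w ∈ E) (hry : κ (outF P A r) ≠ κ (outF P A (j₂ + 1)))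
    (hv : v < kt) (lw : LinkK U κ (side P A w) (side U τ v))
    (hH : H₀ ⊆ U) (cH : Top.EConn H₀) (hy : inF P A (j₂ + 1) ∈ H₀)
    (hHE : ∀ f ∈ H₀, f ∉ E) (hHw : ∀ f ∈ H₀, f ∉ lkF U κ (side P A w))
    (hHv : ∀ l, σ ≤ l → l < σ' → fa (pth ω e l) ∉ H₀)
    (hyv : ∀ l, σ ≤ l → l < σ' → fa (pth ω e l) ∉ lkF U κ (side P A (j₂ + 1)))
    (hqH : inF U τ q ∈ H₀) : v < q := by
  have hA := S.lab.cyc.bd
  obtain ⟨vy, hvy, hvym, ly⟩ := S.lab.l (j₂ + 1) (by omega) (by have := S.lab.ji; omega)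
  set H := H₀ ∪ lkF U κ (side P A (j₂ + 1)) with hHd
  set Z := E ∪ lkF U κ (side P A w) with hZd
  have hZ : ∀ f ∈ Z, f ∉ H := by
    rintro f (hf | hf) (hf' | hf')
    · exact hHE f hf' hf
    · exact (lkF_sub S.app (bd_side hA _) f hf').2 (S.EP hf)
    · exact hHw f hf' hf
    · exact S.lk_right' hw hwr hry f hf' hf
  have hne : q ≠ v := by
    rintro rfl
    exact hZ _ (S.inF_of_link hE lw) (Or.inl hqH)
  by_contra hcon
  refine Cnt.strand_nc S.fU S.cU S.eU S.cyU.bd (cyc_per S.cyU) X.anc X.nb X.st X.tn X.tip X.fac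
    (Z := Z) (H := H) ?_ (S.econn_E hE) (Or.inl X.ent) ?_ (econn_add cH hy) ?_ hZ (x := q) (y := vy)
    (z := v) (by omega) hvym (Or.inl hqH) (mem_add hy ly) (Or.inl (S.inF_of_link hE lw)) (by omega)
  · rintro f (hf | hf)
    · exact S.app.sub (S.EP hf)
    · exact lkF_U hf
  · rintro f (hf | hf)
    · exact hH hf
    · exact lkF_U hf
  · rintro l h1 h2 (hf | hf)
    · exact hHv l h1 h2 hf
    · exact hyv l h1 h2 hf

end Stg

end Pool.Agent.SixB.CntM
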