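import Pool.Agent.Lib.SixB.S8NearOne

/-!
# Step 8, near miss: two good annuli

The annulus between the boxes of radius `ρ` and `16 ρ` around `z` is good if it has no crossing of
either colour by faces of `F`. In a good annulus every passage of an exploration by faces of `F` meets
walls of both colours (`GoodAn.not_psg`). Off a stopping set, outside of a set of conditional
probability at most `C (r / R) ^ α`, there are two good annuli between the radii `r` and `R`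
(`pr_twoGood`).
-/

set_option autoImplicit false

namespace Pool.Agent.SixB

open Finset Pool.Agent.Perc Pool.Agent.PercT

/-- No crossing of either colour by faces of `F` between the radii `ρ` and `16 ρ`. -/
def GoodAn (ω : Cfg) (F : Set (ℤ × ℤ)) (z : ℤ × ℤ) (ρ : ℤ) : Prop :=
  ω ∉ FArm 0 F z ρ (16 * ρ) ∧ ω ∉ FArm 1 F z ρ (16 * ρ)

theorem GoodAn.mono {ω : Cfg} {F F' : Set (ℤ × ℤ)} {z : ℤ × ℤ} {ρ : ℤ} (h : GoodAn ω F z ρ)
    (hF : F' ⊆ F) : GoodAn ω F' z ρ :=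
  ⟨fun h1 => h.1 (fArm_mono hF le_rfl le_rfl h1), fun h1 => h.2 (fArm_mono hF le_rfl le_rfl h1)⟩

/-- In a good annulus no passage meets walls of one colour only. -/
theorem GoodAn.not_psg {ω : Cfg} {F : Set (ℤ × ℤ)} {z : ℤ × ℤ} {ρ : ℤ} (h : GoodAn ω F z ρ) {c : ℤ}
    (hc : c = 0 ∨ c = 1) {e a : UE}
    (he : InR (z.1 - (ρ - 1)) (z.1 + (ρ - 1)) (z.2 - (ρ - 1)) (z.2 + (ρ - 1)) (ua e))
    (ha : ¬ InR (z.1 - 16 * ρ) (z.1 + 16 * ρ) (z.2 - 16 * ρ) (z.2 + 16 * ρ) (ua a)) :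
    ¬ Psg ω F c e a := by
  intro hp
  have h1 := psg_fArm (r := ρ - 1) (R := 16 * ρ) hc hp he ha
  rw [sub_add_cancel] at h1
  rcases hc with rfl | rfl
  · exact h.1 h1
  · exact h.2 h1

/-- Not both blocking circuits. -/
def XA (z : ℤ × ℤ) (ρ : ℤ) : Set Cfg := (Blk 0 z ρ ∩ Blk 1 z (4 * ρ))ᶜ

theorem xa_of_not_good {ω : Cfg} {F : Set (ℤ × ℤ)} {z : ℤ × ℤ} {ρ : ℤ} (hρ : 0 < ρ)
    (h : ¬ GoodAn ω F z ρ) : ω ∈ XA z ρ := by
  rintro ⟨h0, h1⟩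
  apply h
  refine ⟨fun h2 => ?_, fun h2 => ?_⟩
  · exact blk_not_arm hρ h0 (fArm_subset_armB (by omega) (fArm_mono (subset_refl _) le_rfl
      (by omega) h2))
  · exact blk_not_arm (by omega) h1 (fArm_subset_armB (by omega) (fArm_mono (subset_refl _)
      (by omega) (by omega) h2))

theorem depOn_XA {z : ℤ × ℤ} {ρ : ℤ} (hρ : 0 < ρ) :
    DepOn ((RFb z (16 * ρ) \ RFb z ρ : Finset (ℤ × ℤ)) : Set (ℤ × ℤ)) (XA z ρ) := by
  refine depOn_compl (depOn_inter' (depOn_mono' (depOn_Blk hρ) ?_)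
    (depOn_mono' (depOn_Blk (by omega)) ?_))
  · intro f hf
    rw [mem_coe, mem_sdiff, mem_RFb, mem_RFb] at hf ⊢
    omega
  · intro f hf
    rw [mem_coe, mem_sdiff, mem_RFb, mem_RFb] at hf ⊢
    omega

theorem pr_XA : ∃ q : ℝ, 0 < q ∧ q < 1 ∧ ∀ (z : ℤ × ℤ) (ρ : ℤ), 0 < ρ →
    pr (RFb z (16 * ρ) \ RFb z ρ) (XA z ρ) ≤ q := by
  obtain ⟨c, hc, h⟩ := pr_Blk
  refine ⟨max (1 - c * c) (1 / 2), by positivity, max_lt (by nlinarith) (by norm_num), ?_⟩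
  intro z ρ hρ
  have d0 : DepOn ((RFb z (4 * ρ) \ RFb z ρ : Finset (ℤ × ℤ)) : Set (ℤ × ℤ)) (Blk 0 z ρ) :=
    depOn_Blk hρ
  have d1 : DepOn ((RFb z (4 * (4 * ρ)) \ RFb z (4 * ρ) : Finset (ℤ × ℤ)) : Set (ℤ × ℤ))
      (Blk 1 z (4 * ρ)) := depOn_Blk (by omega)
  have hu : RFb z (16 * ρ) \ RFb z ρ =
      (RFb z (4 * ρ) \ RFb z ρ) ∪ (RFb z (4 * (4 * ρ)) \ RFb z (4 * ρ)) := by
    ext f
    rw [mem_sdiff, mem_union, mem_sdiff, mem_sdiff, mem_RFb, mem_RFb, mem_RFb, mem_RFb]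
    omega
  have hd : Disjoint (RFb z (4 * ρ) \ RFb z ρ) (RFb z (4 * (4 * ρ)) \ RFb z (4 * ρ)) := by
    rw [Finset.disjoint_left]
    intro f hf hf'
    exact (mem_sdiff.1 hf').2 (mem_sdiff.1 hf).1
  have h0 := h 0 z ρ (RFb z (4 * ρ) \ RFb z ρ) hρ (Subset.refl _)
  have h1 := h 1 z (4 * ρ) (RFb z (4 * (4 * ρ)) \ RFb z (4 * ρ)) (by omega) (Subset.refl _)
  unfold XA
  rw [pr_compl, hu, pr_inter_of_disjoint d0 d1 hd]
  refine le_trans ?_ (le_max_left _ _)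
  have := mul_le_mul h0 h1 hc.le (pr_nonneg _ _)
  linarith

/-- All annuli of the family `s` are not blocked. -/
def XAs (z : ℤ × ℤ) (r : ℤ) (s : Finset ℕ) : Set Cfg := {ω | ∀ m ∈ s, ω ∈ XA z (16 ^ m * r)}

theorem pr_XAs : ∃ q : ℝ, 0 < q ∧ q < 1 ∧ ∀ (z : ℤ × ℤ) (r : ℤ), 0 < r → ∀ (K : ℕ) (s : Finset ℕ),
    s ⊆ range K → DepOn (RFb z (16 ^ K * r) : Set (ℤ × ℤ)) (XAs z r s) ∧
      pr (RFb z (16 ^ K * r)) (XAs z r s) ≤ q ^ s.card := by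
  obtain ⟨q, h0, h1, h⟩ := pr_XA
  refine ⟨q, h0, h1, ?_⟩
  intro z r hr K
  induction K with
  | zero =>
    intro s hs
    have he : s = ∅ := by
      rw [range_zero] at hs
      exact subset_empty.1 hs
    subst he
    have hU : XAs z r ∅ = Set.univ := by
      ext ω
      simp [XAs]
    rw [hU]
    refine ⟨fun ω ω' _ => Iff.rfl, ?_⟩
    rw [card_empty, pow_zero]
    exact pr_le_one _ _
  | succ K ih =>
    intro s hs
    obtain ⟨ρ, hρ⟩ : ∃ ρ : ℤ, ρ = 16 ^ K * r := ⟨_, rfl⟩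
    have hρ0 : 0 < ρ := by rw [hρ]; positivity
    have e : 16 ^ (K + 1) * r = 16 * ρ := by rw [hρ, pow_succ]; ring
    rw [← hρ] at ih
    rw [e]
    have hsub : RFb z ρ ⊆ RFb z (16 * ρ) := RFb_mono (by omega)
    by_cases hK : K ∈ s
    · have hs' : s.erase K ⊆ range K := by
        intro m hm
        have h2 := mem_range.1 (hs (mem_of_mem_erase hm))
        have h3 := ne_of_mem_erase hm
        rw [mem_range]
        omega
      obtain ⟨hd, hp⟩ := ih _ hs'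
      have hset : XAs z r s = XAs z r (s.erase K) ∩ XA z ρ := by
        ext ω
        simp only [XAs, Set.mem_ofPred_eq, Set.mem_inter_iff]
        constructor
        · intro h2
          refine ⟨fun m hm => h2 m (mem_of_mem_erase hm), ?_⟩
          rw [hρ]
          exact h2 K hK
        · rintro ⟨h2, h3⟩ m hm
          by_cases hmK : m = K
          · rw [hmK, ← hρ]
            exact h3
          · exact h2 m (mem_erase.2 ⟨hmK, hm⟩)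
      have hu : RFb z (16 * ρ) = RFb z ρ ∪ (RFb z (16 * ρ) \ RFb z ρ) := by
        rw [union_sdiff_of_subset hsub]
      rw [hset]
      refine ⟨depOn_inter' (depOn_mono' hd (coe_subset.2 hsub))
        (depOn_mono' (depOn_XA hρ0) (coe_subset.2 sdiff_subset)), ?_⟩
      rw [hu, pr_inter_of_disjoint hd (depOn_XA hρ0) disjoint_sdiff]
      have hc : s.card = (s.erase K).card + 1 := by
        rw [card_erase_of_mem hK]
        have := card_pos.2 ⟨K, hK⟩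
        omega
      rw [hc, pow_succ]
      exact mul_le_mul hp (h z ρ hρ0) (pr_nonneg _ _) (by positivity)
    · have hs' : s ⊆ range K := by
        intro m hm
        have h2 := mem_range.1 (hs hm)
        have h3 : m ≠ K := fun h => hK (h ▸ hm)
        rw [mem_range]
        omega
      obtain ⟨hd, hp⟩ := ih _ hs'
      exact ⟨depOn_mono' hd (coe_subset.2 hsub), by rwa [pr_eq_of_depOn hd hsub]⟩

/-- At most one of the first `K` annuli is good. -/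
def OneGood (ω : Cfg) (F : Set (ℤ × ℤ)) (z : ℤ × ℤ) (r : ℤ) (K : ℕ) : Prop :=
  ∀ m m' : ℕ, m < m' → m' < K → ¬ (GoodAn ω F z (16 ^ m * r) ∧ GoodAn ω F z (16 ^ m' * r))

theorem depOn_oneGood (F : Set (ℤ × ℤ)) (z : ℤ × ℤ) (r : ℤ) (K : ℕ) :
    DepOn F {ω | OneGood ω F z r K} := by
  intro ω ω' h
  have key : ∀ ρ, GoodAn ω F z ρ ↔ GoodAn ω' F z ρ := fun ρ =>
    and_congr (not_congr (depOn_fArm 0 F z ρ (16 * ρ) ω ω' h))
      (not_congr (depOn_fArm 1 F z ρ (16 * ρ) ω ω' h))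
  simp only [OneGood, Set.mem_ofPred_eq, key]

theorem oneGood_mono {ω : Cfg} {F F' : Set (ℤ × ℤ)} {z : ℤ × ℤ} {r : ℤ} {K : ℕ} (hF : F ⊆ F')
    (h : OneGood ω F z r K) : OneGood ω F' z r K := fun m m' h1 h2 h3 =>
  h m m' h1 h2 ⟨h3.1.mono hF, h3.2.mono hF⟩

/-- At most one good annulus: some family of `K - 1` annuli is not blocked. -/
theorem xas_of_oneGood {ω : Cfg} {F : Set (ℤ × ℤ)} {z : ℤ × ℤ} {r : ℤ} (hr : 0 < r) {K : ℕ}
    (hK : 0 < K) (h : OneGood ω F z r K) : ∃ m₀ ∈ range K, ω ∈ XAs z r ((range K).erase m₀) := by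
  by_cases h1 : ∃ m < K, GoodAn ω F z (16 ^ m * r)
  · obtain ⟨m, hm, hg⟩ := h1
    refine ⟨m, mem_range.2 hm, ?_⟩
    intro m' hm'
    have h2 := mem_range.1 (mem_of_mem_erase hm')
    have h3 := ne_of_mem_erase hm'
    refine xa_of_not_good (F := F) (by positivity) fun h4 => ?_
    rcases lt_or_gt_of_ne h3 with h5 | h5
    · exact h m' m h5 hm ⟨h4, hg⟩
    · exact h m m' h5 h2 ⟨hg, h4⟩
  · push Not at h1
    refine ⟨0, mem_range.2 hK, ?_⟩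
    intro m' hm'
    exact xa_of_not_good (F := F) (by positivity) (h1 m' (mem_range.1 (mem_of_mem_erase hm')))

private theorem pr_union_range (W : Finset (ℤ × ℤ)) (A : ℕ → Set Cfg) (K : ℕ) :
    pr W {ω | ∃ m ∈ range K, ω ∈ A m} ≤ ∑ m ∈ range K, pr W (A m) := by
  induction K with
  | zero =>
    have h0 : {ω : Cfg | ∃ m ∈ range 0, ω ∈ A m} = ∅ := by
      ext ω
      simp
    rw [h0, range_zero, sum_empty]
    refine le_of_eq ?_
    classical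
    rw [ProbA.pr_eq_sum]
    simp
  | succ K ih =>
    rw [sum_range_succ]
    have h1 : {ω : Cfg | ∃ m ∈ range (K + 1), ω ∈ A m} ⊆ {ω | ∃ m ∈ range K, ω ∈ A m} ∪ A K := by
      rintro ω ⟨m, hm, hω⟩
      by_cases hmK : m = K
      · exact Or.inr (hmK ▸ hω)
      · left
        have := mem_range.1 hm
        exact ⟨m, mem_range.2 (by omega), hω⟩
    exact ((pr_mono W h1).trans (pr_union_le W _ _)).trans (by linarith)

/-- **At most one good annulus, deterministic centre**, any window. -/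
theorem pr_oneGood : ∃ q : ℝ, 0 < q ∧ q < 1 ∧ ∀ (z : ℤ × ℤ) (r : ℤ) (K : ℕ) (W : Finset (ℤ × ℤ)),
    0 < r → pr W {ω | OneGood ω (W : Set (ℤ × ℤ)) z r K} ≤ (K + 1) * q ^ (K - 1) := by
  obtain ⟨q, h0, h1, h⟩ := pr_XAs
  refine ⟨q, h0, h1, ?_⟩
  intro z r K W hr
  rcases Nat.eq_zero_or_pos K with hK | hK
  · subst hK
    simpa using pr_le_one _ _
  rw [← pr_eq_of_depOn (depOn_oneGood (W : Set (ℤ × ℤ)) z r K)
    (subset_union_left (s₂ := RFb z (16 ^ K * r)))]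
  have h2 : {ω | OneGood ω (W : Set (ℤ × ℤ)) z r K} ⊆
      {ω | ∃ m ∈ range K, ω ∈ XAs z r ((range K).erase m)} :=
    fun ω hω => xas_of_oneGood hr hK hω
  refine (pr_mono _ h2).trans ((pr_union_range _ _ K).trans ?_)
  have h3 : ∀ m ∈ range K, pr (W ∪ RFb z (16 ^ K * r)) (XAs z r ((range K).erase m)) ≤
      q ^ (K - 1) := by
    intro m hm
    obtain ⟨hd, hp⟩ := h z r hr K _ (erase_subset m (range K))
    rw [pr_eq_of_depOn hd subset_union_right]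
    rwa [card_erase_of_mem hm, card_range] at hp
  refine (sum_le_sum h3).trans ?_
  rw [sum_const, card_range, nsmul_eq_mul]
  have : (0 : ℝ) ≤ q ^ (K - 1) := by positivity
  nlinarith

/-- **At most one good annulus off a stopping set**: centre and radius are functions of the stopped
configuration. -/
theorem pr_oneGood_stop : ∃ q : ℝ, 0 < q ∧ q < 1 ∧
    ∀ (W : Finset (ℤ × ℤ)) (S : Cfg → Set (ℤ × ℤ)),
    (∀ ω ω' : Cfg, (∀ f ∈ S ω, ω f = ω' f) → S ω' = S ω) → ∀ A : Set Cfg,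
    (∀ ω ∈ A, ∀ ω' : Cfg, (∀ f ∈ S ω, ω f = ω' f) → ω' ∈ A) →
    ∀ (r : Cfg → ℤ) (z : Cfg → ℤ × ℤ) (K : ℕ), (∀ ω ∈ A, 0 < r ω) →
    (∀ ω ∈ A, ∀ ω' : Cfg, (∀ f ∈ S ω, ω f = ω' f) → r ω' = r ω ∧ z ω' = z ω) →
    pr W (A ∩ {ω | OneGood ω ((W : Set (ℤ × ℤ)) \ S ω) (z ω) (r ω) K}) ≤
      (K + 1) * q ^ (K - 1) * pr W A := by
  obtain ⟨q, h0, h1, h⟩ := pr_oneGood
  refine ⟨q, h0, h1, ?_⟩
  intro W S hS A hA r z K hr hz
  refine pr_mix_le hS hA (fun ω => {ξ | OneGood ξ (W : Set (ℤ × ℤ)) (z ω) (r ω) K}) _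
    (fun ω hω => h _ _ _ _ (hr ω hω)) ?_
  intro ω hω ξ hξ
  have hag : ∀ f ∈ S ω, ω f = mix (S ω) ω ξ f := fun f hf => (mix_of_mem hf).symm
  obtain ⟨e2, e3⟩ := hz ω hω _ hag
  have e4 := hS ω _ hag
  rw [Set.mem_ofPred_eq, e2, e3, e4] at hξ
  have h5 : ∀ f ∈ (W : Set (ℤ × ℤ)) \ S ω, mix (S ω) ω ξ f = ξ f := fun f hf =>
    mix_of_notMem hf.2
  exact oneGood_mono Set.sdiff_subset
    ((depOn_oneGood ((W : Set (ℤ × ℤ)) \ S ω) (z ω) (r ω) K _ _ h5).1 hξ)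

/-- `(K + 1) q ^ (K - 1)` is at most a constant times `θ ^ K`. -/
private theorem exists_geom {q : ℝ} (h0 : 0 < q) (h1 : q < 1) : ∃ C θ : ℝ, 0 < C ∧ 0 < θ ∧ θ < 1 ∧
    ∀ K : ℕ, ((K : ℝ) + 1) * q ^ (K - 1) ≤ C * θ ^ K := by
  set θ := Real.sqrt q with hθ
  have hθ0 : 0 < θ := Real.sqrt_pos.2 h0
  have hθ1 : θ < 1 := by
    rw [hθ, Real.sqrt_lt' one_pos]
    simpa using h1
  have hq : q = θ * θ := (Real.mul_self_sqrt h0.le).symm
  have ht := tendsto_self_mul_const_pow_of_lt_one hθ0.le hθ1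
  obtain ⟨B, hB⟩ := ht.bddAbove_range
  have hB' : ∀ K : ℕ, (K : ℝ) * θ ^ K ≤ max B 1 := fun K =>
    (hB ⟨K, rfl⟩).trans (le_max_left _ _)
  have hB1 : (1 : ℝ) ≤ max B 1 := le_max_right _ _
  refine ⟨2 * max B 1 / (θ * θ), θ, by positivity, hθ0, hθ1, ?_⟩
  intro K
  rw [div_mul_eq_mul_div, le_div_iff₀ (by positivity)]
  rcases Nat.eq_zero_or_pos K with hK | hK
  · subst hK
    simp only [Nat.cast_zero, zero_add, one_mul, zero_tsub, pow_zero, mul_one]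
    nlinarith
  · have e1 : q ^ (K - 1) * (θ * θ) = θ ^ K * θ ^ K := by
      rw [← hq, ← pow_succ, Nat.sub_add_cancel hK, hq, mul_pow]
    have hK1 : (1 : ℝ) ≤ K := by exact_mod_cast hK
    have hp : 0 < θ ^ K := by positivity
    calc ((K : ℝ) + 1) * q ^ (K - 1) * (θ * θ) = ((K : ℝ) + 1) * (q ^ (K - 1) * (θ * θ)) := by ring
      _ = ((K : ℝ) + 1) * θ ^ K * θ ^ K := by rw [e1]; ring
      _ ≤ (2 * ((K : ℝ) * θ ^ K)) * θ ^ K := by
          refine mul_le_mul_of_nonneg_right ?_ hp.le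
          nlinarith
      _ ≤ (2 * max B 1) * θ ^ K := by
          refine mul_le_mul_of_nonneg_right ?_ hp.le
          have := hB' K
          linarith
      _ = 2 * max B 1 * θ ^ K := by ring

/-- There are two good annuli between the radii `r` and `R`. -/
def TwoGood (ω : Cfg) (F : Set (ℤ × ℤ)) (z : ℤ × ℤ) (r R : ℤ) : Prop :=
  ∃ m m' : ℕ, m < m' ∧ 16 ^ (m' + 1) * r ≤ R ∧ GoodAn ω F z (16 ^ m * r) ∧
    GoodAn ω F z (16 ^ m' * r)

/-- **Two good annuli off a stopping set, power form.** -/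
theorem pr_twoGood : ∃ C α : ℝ, 0 < C ∧ 0 < α ∧ ∀ (W : Finset (ℤ × ℤ)) (S : Cfg → Set (ℤ × ℤ)),
    (∀ ω ω' : Cfg, (∀ f ∈ S ω, ω f = ω' f) → S ω' = S ω) → ∀ A : Set Cfg,
    (∀ ω ∈ A, ∀ ω' : Cfg, (∀ f ∈ S ω, ω f = ω' f) → ω' ∈ A) →
    ∀ (z : Cfg → ℤ × ℤ) (r R : ℤ), 0 < r → 0 < R →
    (∀ ω ∈ A, ∀ ω' : Cfg, (∀ f ∈ S ω, ω f = ω' f) → z ω' = z ω) →
    pr W (A ∩ {ω | ¬ TwoGood ω ((W : Set (ℤ × ℤ)) \ S ω) (z ω) r R}) ≤
      C * ((r : ℝ) / R) ^ α * pr W A := by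
  obtain ⟨q, q0, q1, h⟩ := pr_oneGood_stop
  obtain ⟨C₁, θ, hC₁, t0, t1, hg⟩ := exists_geom q0 q1
  set η := Real.sqrt θ with hη
  have hη0 : 0 < η := Real.sqrt_pos.2 t0
  have hη1 : η < 1 := by
    rw [hη, Real.sqrt_lt' one_pos]
    simpa using t1
  have hθη : θ = η ^ 2 := (Real.sq_sqrt t0.le).symm
  obtain ⟨C₂, α, hC₂, hα, hp⟩ := exists_pow_of_theta hη0 hη1
  refine ⟨C₁ / η * C₂, α, by positivity, hα, ?_⟩
  intro W S hS A hA z r R hr hR hz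
  obtain ⟨n, hn, hn2, -⟩ := hp r R hr hR
  set K := n / 2 with hK
  have hrad : 0 < K → 16 ^ K * r ≤ R := by
    intro hK0
    rcases hn with hn | hn
    · refine le_trans ?_ hn
      have e1 : (16 : ℤ) ^ K = 4 ^ (2 * K) := by rw [pow_mul]; norm_num
      rw [e1]
      refine mul_le_mul_of_nonneg_right (pow_le_pow_right₀ (by norm_num) (by omega)) hr.le
    · omega
  have hsub : A ∩ {ω | ¬ TwoGood ω ((W : Set (ℤ × ℤ)) \ S ω) (z ω) r R} ⊆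
      A ∩ {ω | OneGood ω ((W : Set (ℤ × ℤ)) \ S ω) (z ω) r K} := by
    rintro ω ⟨hω, hng⟩
    refine ⟨hω, fun m m' h1 h2 h3 => hng ⟨m, m', h1, ?_, h3.1, h3.2⟩⟩
    refine le_trans ?_ (hrad (by omega))
    exact mul_le_mul_of_nonneg_right (pow_le_pow_right₀ (by norm_num) (by omega)) hr.le
  refine (pr_mono _ hsub).trans ((h W S hS A hA (fun _ => r) z K (fun _ _ => hr)
    (fun ω hω ω' hω' => ⟨rfl, hz ω hω ω' hω'⟩)).trans ?_)
  refine mul_le_mul_of_nonneg_right ((hg K).trans ?_) (pr_nonneg _ _)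
  have e2 : θ ^ K ≤ η ^ n / η := by
    rw [le_div_iff₀ hη0, hθη, ← pow_mul, ← pow_succ]
    exact pow_le_pow_of_le_one hη0.le hη1.le (by omega)
  calc C₁ * θ ^ K ≤ C₁ * (η ^ n / η) := mul_le_mul_of_nonneg_left e2 hC₁.le
    _ = C₁ / η * η ^ n := by ring
    _ ≤ C₁ / η * (C₂ * ((r : ℝ) / R) ^ α) := mul_le_mul_of_nonneg_left hn2 (by positivity)
    _ = C₁ / η * C₂ * ((r : ℝ) / R) ^ α := by ring


/-! ### Two good annuli which are not adjacent -/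

/-- At most one of the first `K` even annuli is good. -/
def OneGoodE (ω : Cfg) (F : Set (ℤ × ℤ)) (z : ℤ × ℤ) (r : ℤ) (K : ℕ) : Prop :=
  ∀ m m' : ℕ, m < m' → m' < K →
    ¬ (GoodAn ω F z (16 ^ (2 * m) * r) ∧ GoodAn ω F z (16 ^ (2 * m') * r))

theorem depOn_oneGoodE (F : Set (ℤ × ℤ)) (z : ℤ × ℤ) (r : ℤ) (K : ℕ) :
    DepOn F {ω | OneGoodE ω F z r K} := by
  intro ω ω' h
  have key : ∀ ρ, GoodAn ω F z ρ ↔ GoodAn ω' F z ρ := fun ρ =>
    and_congr (not_congr (depOn_fArm 0 F z ρ (16 * ρ) ω ω' h))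
      (not_congr (depOn_fArm 1 F z ρ (16 * ρ) ω ω' h))
  simp only [OneGoodE, Set.mem_ofPred_eq, key]

theorem oneGoodE_mono {ω : Cfg} {F F' : Set (ℤ × ℤ)} {z : ℤ × ℤ} {r : ℤ} {K : ℕ} (hF : F ⊆ F')
    (h : OneGoodE ω F z r K) : OneGoodE ω F' z r K := fun m m' h1 h2 h3 =>
  h m m' h1 h2 ⟨h3.1.mono hF, h3.2.mono hF⟩

private theorem xas_of_oneGoodE {ω : Cfg} {F : Set (ℤ × ℤ)} {z : ℤ × ℤ} {r : ℤ} (hr : 0 < r)
    {K : ℕ} (hK : 0 < K) (h : OneGoodE ω F z r K) :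
    ∃ m₀ ∈ range K, ω ∈ XAs z r (((range K).erase m₀).image (2 * ·)) := by
  by_cases h1 : ∃ m < K, GoodAn ω F z (16 ^ (2 * m) * r)
  · obtain ⟨m, hm, hg⟩ := h1
    refine ⟨m, mem_range.2 hm, ?_⟩
    intro m'' hm''
    obtain ⟨m', hm', rfl⟩ := mem_image.1 hm''
    have h2 := mem_range.1 (mem_of_mem_erase hm')
    have h3 := ne_of_mem_erase hm'
    refine xa_of_not_good (F := F) (by positivity) fun h4 => ?_
    rcases lt_or_gt_of_ne h3 with h5 | h5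
    · exact h m' m h5 hm ⟨h4, hg⟩
    · exact h m m' h5 h2 ⟨hg, h4⟩
  · push Not at h1
    refine ⟨0, mem_range.2 hK, ?_⟩
    intro m'' hm''
    obtain ⟨m', hm', rfl⟩ := mem_image.1 hm''
    exact xa_of_not_good (F := F) (by positivity) (h1 m' (mem_range.1 (mem_of_mem_erase hm')))

/-- **At most one good even annulus, deterministic centre**, any window. -/
theorem pr_oneGoodE : ∃ q : ℝ, 0 < q ∧ q < 1 ∧ ∀ (z : ℤ × ℤ) (r : ℤ) (K : ℕ) (W : Finset (ℤ × ℤ)),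
    0 < r → pr W {ω | OneGoodE ω (W : Set (ℤ × ℤ)) z r K} ≤ (K + 1) * q ^ (K - 1) := by
  obtain ⟨q, h0, h1, h⟩ := pr_XAs
  refine ⟨q, h0, h1, ?_⟩
  intro z r K W hr
  rcases Nat.eq_zero_or_pos K with hK | hK
  · subst hK
    simpa using pr_le_one _ _
  rw [← pr_eq_of_depOn (depOn_oneGoodE (W : Set (ℤ × ℤ)) z r K)
    (subset_union_left (s₂ := RFb z (16 ^ (2 * K) * r)))]
  have h2 : {ω | OneGoodE ω (W : Set (ℤ × ℤ)) z r K} ⊆
      {ω | ∃ m ∈ range K, ω ∈ XAs z r (((range K).erase m).image (2 * ·))} :=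
    fun ω hω => xas_of_oneGoodE hr hK hω
  refine (pr_mono _ h2).trans ((pr_union_range _ _ K).trans ?_)
  have h3 : ∀ m ∈ range K, pr (W ∪ RFb z (16 ^ (2 * K) * r))
      (XAs z r (((range K).erase m).image (2 * ·))) ≤ q ^ (K - 1) := by
    intro m hm
    obtain ⟨hd, hp⟩ := h z r hr (2 * K) (((range K).erase m).image (2 * ·)) (by
      intro i hi
      obtain ⟨j, hj, rfl⟩ := mem_image.1 hi
      have := mem_range.1 (mem_of_mem_erase hj)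
      rw [mem_range]
      omega)
    rw [pr_eq_of_depOn hd subset_union_right]
    rwa [card_image_of_injective _ (fun a b hab => by simpa using hab),
      card_erase_of_mem hm, card_range] at hp
  refine (sum_le_sum h3).trans ?_
  rw [sum_const, card_range, nsmul_eq_mul]
  have : (0 : ℝ) ≤ q ^ (K - 1) := by positivity
  nlinarith

/-- **At most one good even annulus off a stopping set**. -/
theorem pr_oneGoodE_stop : ∃ q : ℝ, 0 < q ∧ q < 1 ∧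
    ∀ (W : Finset (ℤ × ℤ)) (S : Cfg → Set (ℤ × ℤ)),
    (∀ ω ω' : Cfg, (∀ f ∈ S ω, ω f = ω' f) → S ω' = S ω) → ∀ A : Set Cfg,
    (∀ ω ∈ A, ∀ ω' : Cfg, (∀ f ∈ S ω, ω f = ω' f) → ω' ∈ A) →
    ∀ (r : Cfg → ℤ) (z : Cfg → ℤ × ℤ) (K : ℕ), (∀ ω ∈ A, 0 < r ω) →
    (∀ ω ∈ A, ∀ ω' : Cfg, (∀ f ∈ S ω, ω f = ω' f) → r ω' = r ω ∧ z ω' = z ω) →
    pr W (A ∩ {ω | OneGoodE ω ((W : Set (ℤ × ℤ)) \ S ω) (z ω) (r ω) K}) ≤
      (K + 1) * q ^ (K - 1) * pr W A := by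
  obtain ⟨q, h0, h1, h⟩ := pr_oneGoodE
  refine ⟨q, h0, h1, ?_⟩
  intro W S hS A hA r z K hr hz
  refine pr_mix_le hS hA (fun ω => {ξ | OneGoodE ξ (W : Set (ℤ × ℤ)) (z ω) (r ω) K}) _
    (fun ω hω => h _ _ _ _ (hr ω hω)) ?_
  intro ω hω ξ hξ
  have hag : ∀ f ∈ S ω, ω f = mix (S ω) ω ξ f := fun f hf => (mix_of_mem hf).symm
  obtain ⟨e2, e3⟩ := hz ω hω _ hag
  have e4 := hS ω _ hag
  rw [Set.mem_ofPred_eq, e2, e3, e4] at hξ
  have h5 : ∀ f ∈ (W : Set (ℤ × ℤ)) \ S ω, mix (S ω) ω ξ f = ξ f := fun f hf =>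
    mix_of_notMem hf.2
  exact oneGoodE_mono Set.sdiff_subset
    ((depOn_oneGoodE ((W : Set (ℤ × ℤ)) \ S ω) (z ω) (r ω) K _ _ h5).1 hξ)

/-- There are two good annuli between the radii `r` and `R` which are not adjacent. -/
def TwoFar (ω : Cfg) (F : Set (ℤ × ℤ)) (z : ℤ × ℤ) (r R : ℤ) : Prop :=
  ∃ m m' : ℕ, m + 1 < m' ∧ 16 ^ (m' + 1) * r ≤ R ∧ GoodAn ω F z (16 ^ m * r) ∧
    GoodAn ω F z (16 ^ m' * r)

/-- **Two good annuli which are not adjacent, off a stopping set, power form.** -/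
theorem pr_twoFar : ∃ C α : ℝ, 0 < C ∧ 0 < α ∧ ∀ (W : Finset (ℤ × ℤ)) (S : Cfg → Set (ℤ × ℤ)),
    (∀ ω ω' : Cfg, (∀ f ∈ S ω, ω f = ω' f) → S ω' = S ω) → ∀ A : Set Cfg,
    (∀ ω ∈ A, ∀ ω' : Cfg, (∀ f ∈ S ω, ω f = ω' f) → ω' ∈ A) →
    ∀ (z : Cfg → ℤ × ℤ) (r R : ℤ), 0 < r → 0 < R →
    (∀ ω ∈ A, ∀ ω' : Cfg, (∀ f ∈ S ω, ω f = ω' f) → z ω' = z ω) →
    pr W (A ∩ {ω | ¬ TwoFar ω ((W : Set (ℤ × ℤ)) \ S ω) (z ω) r R}) ≤
      C * ((r : ℝ) / R) ^ α * pr W A := by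
  obtain ⟨q, q0, q1, h⟩ := pr_oneGoodE_stop
  obtain ⟨C₁, θ, hC₁, t0, t1, hg⟩ := exists_geom q0 q1
  set η := Real.sqrt (Real.sqrt θ) with hη
  have hs0 : 0 < Real.sqrt θ := Real.sqrt_pos.2 t0
  have hs1 : Real.sqrt θ < 1 := by
    rw [Real.sqrt_lt' one_pos]
    simpa using t1
  have hη0 : 0 < η := Real.sqrt_pos.2 hs0
  have hη1 : η < 1 := by
    rw [hη, Real.sqrt_lt' one_pos]
    simpa using hs1
  have hθη : θ = η ^ 4 := by
    have h1 : η ^ 2 = Real.sqrt θ := Real.sq_sqrt hs0.le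
    have h2 : Real.sqrt θ ^ 2 = θ := Real.sq_sqrt t0.le
    rw [← h2, ← h1]
    ring
  obtain ⟨C₂, α, hC₂, hα, hp⟩ := exists_pow_of_theta hη0 hη1
  refine ⟨C₁ / η ^ 3 * C₂, α, by positivity, hα, ?_⟩
  intro W S hS A hA z r R hr hR hz
  obtain ⟨n, hn, hn2, -⟩ := hp r R hr hR
  set K := n / 4 with hK
  have hrad : 0 < K → 16 ^ (2 * K) * r ≤ R := by
    intro hK0
    rcases hn with hn | hn
    · refine le_trans ?_ hn
      have e1 : (16 : ℤ) ^ (2 * K) = 4 ^ (4 * K) := by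
        rw [show 4 * K = 2 * (2 * K) by ring, pow_mul 4 2]
        norm_num
      rw [e1]
      refine mul_le_mul_of_nonneg_right (pow_le_pow_right₀ (by norm_num) (by omega)) hr.le
    · omega
  have hsub : A ∩ {ω | ¬ TwoFar ω ((W : Set (ℤ × ℤ)) \ S ω) (z ω) r R} ⊆
      A ∩ {ω | OneGoodE ω ((W : Set (ℤ × ℤ)) \ S ω) (z ω) r K} := by
    rintro ω ⟨hω, hng⟩
    refine ⟨hω, fun m m' h1 h2 h3 => hng ⟨2 * m, 2 * m', by omega, ?_, h3.1, h3.2⟩⟩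
    refine le_trans ?_ (hrad (by omega))
    exact mul_le_mul_of_nonneg_right (pow_le_pow_right₀ (by norm_num) (by omega)) hr.le
  refine (pr_mono _ hsub).trans ((h W S hS A hA (fun _ => r) z K (fun _ _ => hr)
    (fun ω hω ω' hω' => ⟨rfl, hz ω hω ω' hω'⟩)).trans ?_)
  refine mul_le_mul_of_nonneg_right ((hg K).trans ?_) (pr_nonneg _ _)
  have e2 : θ ^ K ≤ η ^ n / η ^ 3 := by
    rw [le_div_iff₀ (by positivity), hθη, ← pow_mul, ← pow_add]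
    exact pow_le_pow_of_le_one hη0.le hη1.le (by omega)
  calc C₁ * θ ^ K ≤ C₁ * (η ^ n / η ^ 3) := mul_le_mul_of_nonneg_left e2 hC₁.le
    _ = C₁ / η ^ 3 * η ^ n := by ring
    _ ≤ C₁ / η ^ 3 * (C₂ * ((r : ℝ) / R) ^ α) := mul_le_mul_of_nonneg_left hn2 (by positivity)
    _ = C₁ / η ^ 3 * C₂ * ((r : ℝ) / R) ^ α := by ring

end Pool.Agent.SixB
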