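import Pool.Agent.Lib.SixB.S8Expl
import Pool.Agent.Lib.SixB.S8NearTwo

/-!
# Step 8, near miss: touches of the old faces in good annuli

`E.Touch c ω s t`: at the time `t` the strand crosses a face which is not fresh at the time `s` and which
carries the diagonal of colour `c` (the strand touches the wall of colour `c`).

* `exists_touch`: a passage of an annulus without fresh crossing of colour `c` has a touch of colour `c`.
* `two_far`: if around a point there are two non adjacent good annuli and the strand goes from the inside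
  to the outside, then after the last time `i` in the inner box there are touches of both colours in
  the first annulus and later touches of both colours in the second annulus.
-/

set_option autoImplicit false

namespace Pool.Agent.SixB

open Finset Pool.Agent.Perc Pool.Agent.PercT

/-- The unit edge `a` is in the box of radius `r` around `z`. -/
def InB (z : ℤ × ℤ) (r : ℤ) (a : UE) : Prop :=
  InR (z.1 - r) (z.1 + r) (z.2 - r) (z.2 + r) (ua a)

theorem InB.mono {z : ℤ × ℤ} {r r' : ℤ} {a : UE} (h : InB z r a) (hr : r ≤ r') : InB z r' a := by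
  unfold InB InR at *
  omega

/-- One step changes the position by at most one. -/
theorem ua_nx (ω : Cfg) (a : UE) : (ua (nx ω a)).1 ≤ (ua a).1 + 1 ∧ (ua a).1 ≤ (ua (nx ω a)).1 + 1 ∧
    (ua (nx ω a)).2 ≤ (ua a).2 + 1 ∧ (ua a).2 ≤ (ua (nx ω a)).2 + 1 := by
  have h1 := (mt_nx ω a).left
  have h2 := (mt_nx ω a).right
  have key : ∀ {f : ℤ × ℤ} {b : UE}, IsSide f b → f.1 ≤ (ua b).1 ∧ (ua b).1 ≤ f.1 + 1 ∧
      f.2 ≤ (ua b).2 ∧ (ua b).2 ≤ f.2 + 1 := by
    intro f b h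
    rcases h with rfl | rfl | rfl | rfl <;> simp [ua, bo, le', to', ri]
  have h3 := key h1
  have h4 := key h2
  omega

theorem InB.step {ω : Cfg} {z : ℤ × ℤ} {r : ℤ} {a : UE} (h : InB z r a) : InB z (r + 1) (nx ω a) := by
  have h1 := ua_nx ω a
  unfold InB InR at *
  omega

theorem InB.pth_succ {ω : Cfg} {e : UE} {z : ℤ × ℤ} {r : ℤ} {t : ℕ} (h : InB z r (pth ω e t)) :
    InB z (r + 1) (pth ω e (t + 1)) := by
  rw [SixB.pth_succ]
  exact h.step

/-- Last time with a property. -/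
theorem last_time {P : ℕ → Prop} {s u : ℕ} (hs : P s) (hsu : s ≤ u) :
    ∃ i, s ≤ i ∧ i ≤ u ∧ P i ∧ ∀ k, i < k → k ≤ u → ¬ P k := by
  classical
  induction u, hsu using Nat.le_induction with
  | base => exact ⟨s, le_rfl, le_rfl, hs, fun k h1 h2 => by omega⟩
  | succ u hsu ih =>
    by_cases h : P (u + 1)
    · exact ⟨u + 1, by omega, le_rfl, h, fun k h1 h2 => by omega⟩
    · obtain ⟨i, h1, h2, h3, h4⟩ := ih
      refine ⟨i, h1, by omega, h3, fun k h5 h6 => ?_⟩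
      rcases Nat.lt_or_eq_of_le h6 with h7 | rfl
      · exact h4 k h5 (by omega)
      · exact h

/-- First time with a property. -/
theorem first_time {P : ℕ → Prop} {s u : ℕ} (hu : P u) (hsu : s ≤ u) :
    ∃ j, s ≤ j ∧ j ≤ u ∧ P j ∧ ∀ k, s ≤ k → k < j → ¬ P k := by
  classical
  have h : ∃ j, s ≤ j ∧ P j := ⟨u, hsu, hu⟩
  refine ⟨Nat.find h, (Nat.find_spec h).1, Nat.find_min' h ⟨hsu, hu⟩, (Nat.find_spec h).2, ?_⟩
  intro k h1 h2 h3
  exact Nat.find_min h h2 ⟨h1, h3⟩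

namespace Ex

variable (E : Ex)

/-- The faces which are fresh at the time `s`. -/
def Fr (ω : Cfg) (s : ℕ) : Set (ℤ × ℤ) := E.U ω \ E.x ω s

/-- At the time `t` the strand touches the wall of colour `c` of the time `s`. -/
def Touch (c : ℤ) (ω : Cfg) (s t : ℕ) : Prop :=
  fa (E.p ω t) ∉ E.Fr ω s ∧ E.cf ω (fa (E.p ω t)) = !parD c (fa (E.p ω t))

variable {E} {S : Cfg → Set (ℤ × ℤ)} {ω : Cfg} {c : ℤ} {s t i j k l : ℕ} {z : ℤ × ℤ} {r R : ℤ}
  {F : Set (ℤ × ℤ)}

theorem fr_anti (h : s ≤ t) : E.Fr ω t ⊆ E.Fr ω s := fun _ hf => ⟨hf.1, fun h' => hf.2 (x_mono h h')⟩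

theorem Touch.mono (h : E.Touch c ω s k) (hst : s ≤ t) : E.Touch c ω t k :=
  ⟨fun h' => h.1 (fr_anti hst h'), h.2⟩

theorem cf_fresh {f : ℤ × ℤ} (h : f ∈ E.Fr ω s) : E.cf ω f = ω f := mix_of_mem h.1

theorem conn_cf {u v : ℤ × ℤ} (h : Conn (E.cf ω) (E.Fr ω s) u v) : Conn ω (E.Fr ω s) u v :=
  (GridA.conn_iff (ω := E.cf ω) (ω' := ω) (E.Fr ω s) (fun _ hf => cf_fresh hf) u v).1 h

/-- **No touch of colour `c`**: the ends of colour `c` are joined by fresh faces. -/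
theorem conn_of_no_touch (hc : c = 0 ∨ c = 1) (hij : i ≤ j)
    (h : ∀ k, i ≤ k → k < j → ¬ E.Touch c ω s k) :
    Conn ω (E.Fr ω s) (en c (E.p ω i)) (en c (E.p ω j)) := by
  refine conn_cf (conn_pth hc hij fun k h1 h2 => ?_)
  by_cases hf : fa (E.p ω k) ∈ E.Fr ω s
  · exact Or.inl hf
  · right
    have h3 : ¬ E.cf ω (fa (E.p ω k)) = !parD c (fa (E.p ω k)) := fun h4 => h k h1 h2 ⟨hf, h4⟩
    change E.cf ω (fa (E.p ω k)) = parD c (fa (E.p ω k))
    cases h4 : E.cf ω (fa (E.p ω k)) <;> cases h5 : parD c (fa (E.p ω k)) <;> simp_all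

/-- A passage without fresh crossing of colour `c` has a touch of colour `c`. -/
theorem exists_touch (hc : c = 0 ∨ c = 1) (hij : i ≤ j) (hF : E.Fr ω s ⊆ F)
    (hi : InB z (r - 1) (E.p ω i)) (hj : ¬ InB z R (E.p ω j)) (ha : ω ∉ FArm c F z r R) :
    ∃ k, i ≤ k ∧ k < j ∧ E.Touch c ω s k := by
  by_contra hno
  push Not at hno
  have h1 := conn_of_no_touch (s := s) hc hij hno
  apply ha
  have h2 := par_en hc (E.p ω i)
  have key : ∀ a : UE, (ua a).1 ≤ (ub a).1 ∧ (ub a).1 ≤ (ua a).1 + 1 ∧ (ua a).2 ≤ (ub a).2 ∧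
      (ub a).2 ≤ (ua a).2 + 1 := by
    rintro ⟨x, y, d⟩
    cases d <;> simp [ua, ub]
  have h3 := key (E.p ω i)
  have h4 := key (E.p ω j)
  unfold InB InR at hi hj
  refine ⟨en c (E.p ω i), en c (E.p ω j), ?_, ?_, ?_, ?_, ?_, ?_, conn_mono hF h1⟩
  · rcases en_or c (E.p ω i) with h5 | h5 <;> rw [h5] <;> omega
  · rcases en_or c (E.p ω i) with h5 | h5 <;> rw [h5] <;> omega
  · rcases en_or c (E.p ω i) with h5 | h5 <;> rw [h5] <;> omega
  · rcases en_or c (E.p ω i) with h5 | h5 <;> rw [h5] <;> omega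
  · unfold par at h2
    rcases hc with rfl | rfl <;> omega
  · intro h6
    rcases en_or c (E.p ω j) with h5 | h5 <;> rw [h5] at h6 <;> omega

/-- The touches of both colours of one passage. -/
theorem both_touch (hij : i ≤ j) (hF : E.Fr ω s ⊆ F) (hi : InB z (r - 1) (E.p ω i))
    (hj : ¬ InB z (16 * r) (E.p ω j)) (hg : GoodAn ω F z r) :
    ∀ c, (c = 0 ∨ c = 1) → ∃ k, i ≤ k ∧ k < j ∧ E.Touch c ω s k := by
  rintro c (rfl | rfl)
  · exact exists_touch (Or.inl rfl) hij hF hi hj hg.1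
  · exact exists_touch (Or.inr rfl) hij hF hi hj hg.2

/-- **Two non adjacent good annuli**: the strand is in the inner box at the time `s` and outside of the
box of radius `R` at the time `l`. -/
theorem two_far {m m' : ℕ} (hsl : s ≤ l) (hF : E.Fr ω s ⊆ F) (hr : 0 < r)
    (hs : InB z (r - 1) (E.p ω s)) (hl : ¬ InB z R (E.p ω l)) (hm : m + 1 < m')
    (hR : 16 ^ (m' + 1) * r ≤ R) (hg : GoodAn ω F z (16 ^ m * r))
    (hg' : GoodAn ω F z (16 ^ m' * r)) :
    ∃ i j, s ≤ i ∧ i ≤ j ∧ j ≤ l ∧ (∀ k, i < k → k ≤ l → ¬ InB z (r - 1) (E.p ω k)) ∧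
      (∀ c, (c = 0 ∨ c = 1) → ∃ k, i ≤ k ∧ k < j ∧ E.Touch c ω s k) ∧
      ∀ c, (c = 0 ∨ c = 1) → ∃ k, j ≤ k ∧ k < l ∧ E.Touch c ω s k := by
  have p1 : ∀ a b : ℕ, a ≤ b → (16 : ℤ) ^ a * r ≤ 16 ^ b * r := fun a b h =>
    mul_le_mul_of_nonneg_right (pow_le_pow_right₀ (by norm_num) h) hr.le
  have e1 : (16 : ℤ) ^ (m + 1) * r = 16 * (16 ^ m * r) := by ring
  have e2 : (16 : ℤ) ^ (m' + 1) * r = 16 * (16 ^ m' * r) := by ring
  have e3 : (16 : ℤ) ^ (m + 2) * r = 16 * (16 ^ (m + 1) * r) := by ring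
  have h0 := p1 0 m (by omega)
  have h1 := p1 (m + 2) m' (by omega)
  have h2 := p1 (m + 1) (m' + 1) (by omega)
  rw [pow_zero, one_mul] at h0
  -- last time in the inner box of the first annulus
  obtain ⟨i, hi1, hi2, hi3, hi4⟩ := last_time (P := fun k => InB z (16 ^ m * r - 1) (E.p ω k))
    (s := s) (u := l) (hs.mono (by omega)) hsl
  -- first time outside of the first annulus
  obtain ⟨j, hj1, hj2, hj3, hj4⟩ := first_time
    (P := fun k => ¬ InB z (16 * (16 ^ m * r)) (E.p ω k)) (s := i) (u := l)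
    (fun h => hl (h.mono (by omega))) hi2
  have hij : i < j := by
    rcases Nat.lt_or_eq_of_le hj1 with h | rfl
    · exact h
    · exact absurd (hi3.mono (by omega)) hj3
  -- at the time `j` the strand is in the inner box of the second annulus
  have hj5 : InB z (16 ^ m' * r - 1) (E.p ω j) := by
    obtain ⟨j', rfl⟩ : ∃ j', j = j' + 1 := ⟨j - 1, by omega⟩
    have h3 := not_not.1 (hj4 j' (by omega) (by omega))
    exact (InB.pth_succ h3).mono (by omega)
  refine ⟨i, j, hi1, hij.le, hj2, fun k h3 h4 h5 => hi4 k h3 h4 (h5.mono (by omega)),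
    both_touch hij.le hF hi3 hj3 hg, ?_⟩
  refine both_touch hj2 hF hj5 (fun h => hl (h.mono (by omega))) hg'

/-- The two passages with touches of both colours, after the last time in the inner box. -/
def Passages (E : Ex) (ω : Cfg) (s l : ℕ) (z : ℤ × ℤ) (r : ℤ) : Prop :=
  ∃ i j, s ≤ i ∧ i ≤ j ∧ j ≤ l ∧ (∀ k, i < k → k ≤ l → ¬ InB z (r - 1) (E.p ω k)) ∧
    (∀ c, (c = 0 ∨ c = 1) → ∃ k, i ≤ k ∧ k < j ∧ E.Touch c ω s k) ∧
    ∀ c, (c = 0 ∨ c = 1) → ∃ k, j ≤ k ∧ k < l ∧ E.Touch c ω s k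

theorem passages_of_twoFar (hsl : s ≤ l) (hF : E.Fr ω s ⊆ F) (hr : 0 < r)
    (hs : InB z (r - 1) (E.p ω s)) (hl : ¬ InB z R (E.p ω l)) (h : TwoFar ω F z r R) :
    Passages E ω s l z r := by
  obtain ⟨m, m', hm, hR, hg, hg'⟩ := h
  exact two_far hsl hF hr hs hl hm hR hg hg'

/-- **FACT B for explorations**: `τ` is a stopping time, `A` is decided at the time `τ`. Outside of a part
of `A` of relative probability `C (r / R) ^ α` the strand, whenever it goes from the tip at the time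
`τ` to distance `R`, makes two passages with touches of both colours. -/
theorem pr_passages : ∃ C α : ℝ, 0 < C ∧ 0 < α ∧ ∀ (W : Finset (ℤ × ℤ)) (E : Ex)
    (S : Cfg → Set (ℤ × ℤ)) (τ : Cfg → ℕ) (A : Set Cfg), E.Ok S → E.Time S τ →
    DetS (fun ω => S ω ∪ E.x ω (τ ω)) A → (∀ ω ∈ A, E.U ω ⊆ W) →
    (∀ ω ∈ A, Disjoint (E.U ω) (S ω)) → ∀ r R : ℤ, 0 < r → 0 < R →
    pr W (A ∩ {ω | ∃ l, τ ω ≤ l ∧ ¬ InB (ua (E.p ω (τ ω))) R (E.p ω l) ∧
      ¬ Passages E ω (τ ω) l (ua (E.p ω (τ ω))) r}) ≤ C * ((r : ℝ) / R) ^ α * pr W A := by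
  obtain ⟨C, α, hC, hα, h⟩ := pr_twoFar
  refine ⟨C, α, hC, hα, ?_⟩
  intro W E S τ A hE hτ hA hU hd r R hr hR
  refine le_trans (pr_mono W ?_) (h W _ (hE.stopS hτ) A hA (fun ω => ua (E.p ω (τ ω))) r R hr hR
    fun ω _ ω' hω' => (hE.adp_p hτ).map ua ω ω' hω')
  rintro ω ⟨hω, l, hl1, hl2, hl3⟩
  refine ⟨hω, fun h4 => hl3 ?_⟩
  refine passages_of_twoFar (F := (W : Set (ℤ × ℤ)) \ (S ω ∪ E.x ω (τ ω))) hl1 ?_ hr ?_ hl2 h4
  · intro f hf
    refine ⟨hU ω hω hf.1, ?_⟩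
    rintro (h5 | h5)
    · exact Set.disjoint_left.1 (hd ω hω) hf.1 h5
    · exact hf.2 h5
  · unfold InB InR
    omega

end Ex

/-! ### The path as an abstract strand -/

section Abstract

variable {ω : Cfg} {e : UE} {i j t : ℕ}

theorem mt_pth (ω : Cfg) (e : UE) (i : ℕ) :
    Mt ω (fa (pth ω e i)) (pth ω e i) (pth ω e (i + 1)) := by
  rw [pth_succ]
  exact mt_nx _ _

theorem fa_pth_succ_ne (ω : Cfg) (e : UE) (i : ℕ) :
    fa (pth ω e (i + 1)) ≠ fa (pth ω e i) := by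
  rw [← fb_pth_succ ω e i]
  exact fa_ne_fb _

/-- The path is injective as long as it does not come back to `e`. -/
theorem pth_injOn (h : ∀ k, 0 < k → k ≤ t → pth ω e k ≠ e) :
    Set.InjOn (pth ω e) {i | i ≤ t} := by
  intro i hi j hj hij
  simp only [Set.mem_ofPred_eq] at hi hj
  rcases lt_trichotomy i j with h1 | h1 | h1
  · exact absurd (pth_inj hij h1.le) (h _ (by omega) (by omega))
  · exact h1
  · exact absurd (pth_inj hij.symm h1.le) (h _ (by omega) (by omega))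

end Abstract

end Pool.Agent.SixB
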