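import Pool.Agent.Lib.SixB.S8StateG
import Pool.Agent.Lib.SixB.S8CountM
import Pool.Agent.Lib.SixB.S8BlowSt
import Pool.Agent.Lib.SixB.S8NearTouch

/-!
# Step 8, number of moves: the geometry of a small move

* `side_fstP`, `side_lstP`, `idx_mid`, `idx_p`, `idx_q`: the contour of a part `D ⊆ P` and the contour
  of `P`: numbers of the common sides;
* `Dom.Val.mark`: a small move which does not end the step: the entered set has a side `W` of `P`, with
  the number `w ≠ t` (`t` = the number of the target side); if `t < w` there is a side with number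
  `r > w` at the boundary of the block, if `w < t` there is one with `r < w`;
* `Dom.Val.mark_stg`: the data on the fine lattice for `CntM.Stg` (number conditions and zones of
  `Stg.claimA_left`, `Stg.claimA_right`).
-/

set_option autoImplicit false

namespace Pool.Agent.SixB.Mv

open Finset Pool.Agent.Perc Pool.Agent.Perc6 Pool.Agent.Perc6.C2Aux Pool.Agent.Perc.Tips
open Pool.Agent.SixB.Top

variable {D P : Set (ℤ × ℤ)} {A B C : UE × Bool} {m mP p q : ℕ}

/-! ### The contour of a part -/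

/-- The next side is the same in `D` and in `P`, if the faces at its beginning are the same. -/
theorem sc_eq_sc (hDP : D ⊆ P) (hC : ahead C ∈ D)
    (h : ∀ f g, f ∈ D → IsCor f (rg C) → g ∈ P → IsCor g (rg C) → AdjF f g → g ∈ D) :
    sc P C = sc D C := by
  have a1 : AdjF (ahead C) (ahead (rtn C)) := adjF_rtn C
  have a2 : AdjF (ahead (rtn C)) (ahead (rtn (rtn C))) := adjF_rtn (rtn C)
  have q0 : IsCor (ahead C) (rg C) := isCor_in_rg _
  have q1 : IsCor (ahead (rtn C)) (rg C) := (isCor_rg_iff _ _).2 (Or.inr (Or.inr (Or.inl rfl)))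
  have q2 : IsCor (ahead (rtn (rtn C))) (rg C) :=
    (isCor_rg_iff _ _).2 (Or.inr (Or.inr (Or.inr rfl)))
  by_cases h1 : ahead (rtn C) ∈ P
  · have h1' := h _ _ hC q0 h1 q1 a1
    by_cases h2 : ahead (rtn (rtn C)) ∈ P
    · have h2' := h _ _ h1' q1 h2 q2 a2
      rw [sc_right h1 h2, sc_right h1' h2']
    · rw [sc_straight h1 h2, sc_straight h1' fun h' => h2 (hDP h')]
  · rw [sc_left h1, sc_left fun h' => h1 (hDP h')]

/-- Before the first side with an outer face in `P` the contour of `D` is the contour of `P`. -/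
theorem side_fstP (hDP : D ⊆ P) (hA : BD D A) (hout : ∀ i < p, outF D A i ∉ P) {i : ℕ}
    (hi : i < p) : side P A i = side D A i :=
  (interval_of_out hDP hA (k := i) (fun j hj => hout j (by omega)) i le_rfl).1

/-- After the last side with an outer face in `P` the contour of `D` is the contour of `P`. -/
theorem side_lstP (hDP : D ⊆ P) (hD : Cyc D A m) (hP : Cyc P A mP)
    (hout : ∀ i, q < i → i < m → outF D A i ∉ P) {i : ℕ} (h1 : q < i) (h2 : i ≤ m) :
    m ≤ i + mP ∧ side P A (i + mP - m) = side D A i := by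
  have hmP := hP.pos
  rcases h2.eq_or_lt with h3 | h3
  · subst h3
    refine ⟨by omega, ?_⟩
    rw [show i + mP - i = mP by omega, hP.per, hD.per]
  have hAP : outF D A m ∉ P := by
    unfold outF
    rw [hD.per]
    exact hP.bd.2
  have hC' : BD P (side D A i) := ⟨hDP (bd_side hD.bd _).1, hout i h1 h3⟩
  obtain ⟨j, hj, hjs⟩ := hP.exists_index hC'
  have hout' : ∀ k ≤ m - i, ahead (rv ((sc D)^[k] (side D A i))) ∉ P := by
    intro k hk hh
    have e1 : (sc D)^[k] (side D A i) = side D A (i + k) := (side_add _ _).symm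
    rw [e1] at hh
    rcases hk.lt_or_eq with h8 | h8
    · exact hout (i + k) (by omega) (by omega) hh
    · rw [show i + k = m by omega] at hh
      exact hAP hh
  have hint := interval_of_out hDP (bd_side hD.bd i) hout'
  have hs : ∀ k ≤ m - i, side P A (j + k) = side D A (i + k) := by
    intro k hk
    have e1 := (hint k hk).1
    have e2 : side P A (j + k) = (sc P)^[k] (side D A i) := by
      rw [side_add, hjs]
      rfl
    rw [e2, e1]
    exact (side_add _ _).symm
  have hlen : j + (m - i) = mP := by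
    have h8 := hs (m - i) le_rfl
    rw [show i + (m - i) = m by omega, hD.per] at h8
    rcases lt_trichotomy (j + (m - i)) mP with h9 | h9 | h9
    · have := hP.inj _ h9 0 hP.pos (by rw [h8]; rfl)
      omega
    · exact h9
    · exfalso
      have h10 := hs (mP - j) (by omega)
      rw [show j + (mP - j) = mP by omega, hP.per] at h10
      have := hD.inj (i + (mP - j)) (by omega) 0 hD.pos (by rw [← h10]; rfl)
      omega
  refine ⟨by omega, ?_⟩
  rw [show i + mP - m = j by omega, hjs]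

/-- The number of a common side on the arc `p, …, q`. -/
theorem idx_mid (hDP : D ⊆ P) (hD : Cyc D A m) (hP : Cyc P A mP)
    (hf : ∀ i < p, outF D A i ∉ P) (hl : ∀ i, q < i → i < m → outF D A i ∉ P) (hqm : q < m)
    {i w : ℕ} (hpi : p ≤ i) (hiq : i ≤ q) (hw : w < mP) (he : side P A w = side D A i) :
    p ≤ w ∧ w + m ≤ q + mP := by
  constructor
  · by_contra hcon
    push Not at hcon
    rw [side_fstP hDP hD.bd hf hcon] at he
    have := hD.inj w (by omega) i (by omega) he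
    omega
  · by_contra hcon
    push Not at hcon
    obtain ⟨h1, h2⟩ := side_lstP hDP hD hP hl (i := w + m - mP) (by omega) (by omega)
    rw [show w + m - mP + mP - m = w by omega, he] at h2
    have := hD.inj i (by omega) (w + m - mP) (by omega) h2
    omega

/-- If the last exit side is the target side. -/
theorem idx_q (hDP : D ⊆ P) (hD : Cyc D A m) (hP : Cyc P A mP)
    (hl : ∀ i, q < i → i < m → outF D A i ∉ P) (hqm : q < m) (hB : side D A q = B)
    (hsc : sc P B = sc D B) {t : ℕ} (ht : t < mP) (htB : side P A t = B) : t + m = q + mP := by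
  obtain ⟨h1, h2⟩ := side_lstP hDP hD hP hl (i := q + 1) (by omega) (by omega)
  have h3 : side P A (t + 1) = side P A (q + 1 + mP - m) := by
    rw [h2, side_succ, htB, hsc, side_succ, hB]
  have hmP := hP.pos
  have e0 : side P A 0 = A := rfl
  rcases Nat.eq_zero_or_pos (q + 1 + mP - m) with h4 | h4
  · exfalso
    rw [h4] at h2
    rw [e0] at h2
    have h5 : q + 1 < m := by omega
    have := hD.inj (q + 1) h5 0 hD.pos (by rw [← h2]; rfl)
    omega
  · rcases lt_or_eq_of_le (show t + 1 ≤ mP by omega) with h5 | h5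
    · rcases lt_or_eq_of_le (show q + 1 + mP - m ≤ mP by omega) with h6 | h6
      · have := hP.inj _ h5 _ h6 h3
        omega
      · rw [h6, hP.per] at h3
        have := hP.inj _ h5 0 hmP h3
        omega
    · rcases lt_or_eq_of_le (show q + 1 + mP - m ≤ mP by omega) with h6 | h6
      · rw [h5, hP.per] at h3
        have := hP.inj _ h6 0 hmP (by rw [← h3]; rfl)
        omega
      · omega

/-- If the first exit side is the target side. -/
theorem idx_p (hDP : D ⊆ P) (hD : Cyc D A m) (hP : Cyc P A mP)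
    (hf : ∀ i < p, outF D A i ∉ P) (hp : 0 < p) (hpm : p < m) (hB : side D A p = B) (hAB : A ≠ B)
    (hsc : sc P (side D A (p - 1)) = sc D (side D A (p - 1))) {t : ℕ} (ht : t < mP)
    (htB : side P A t = B) : t = p := by
  have h1 : side P A (p - 1) = side D A (p - 1) := side_fstP hDP hD.bd hf (by omega)
  have h2 : side P A p = B := by
    have e1 : side P A (p - 1 + 1) = sc P (side P A (p - 1)) := side_succ _
    have e2 : side D A (p - 1 + 1) = sc D (side D A (p - 1)) := side_succ _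
    rw [show p - 1 + 1 = p by omega] at e1 e2
    rw [e1, h1, hsc, ← e2, hB]
  rcases lt_trichotomy p mP with h3 | h3 | h3
  · exact hP.inj t ht p h3 (htB.trans h2.symm)
  · exfalso
    rw [h3, hP.per] at h2
    exact hAB h2
  · exfalso
    have h4 : side P A mP = side D A mP := side_fstP hDP hD.bd hf h3
    rw [hP.per] at h4
    have := hD.inj mP (by omega) 0 hD.pos h4.symm
    have := hP.pos
    omega

/-! ### The coarse domain -/

namespace Dom

variable {s : Dom} {g : Grd}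

/-- The faces at a vertex off the lines are in one cell. -/
theorem Val.nm_cor (h : s.Val g) {v f : ℤ × ℤ} (hv : OffL g.a g.b g.L 1 v) (hf : IsCor f v) :
    g.nm f = g.nm v := by
  obtain ⟨h1, h2⟩ := hf
  exact hv.gc_eq_self h.hL (by omega) (by omega) (by omega) (by omega)

/-- The domain of the move around a vertex off the lines. -/
theorem Val.dom_cor (h : s.Val g) {v f k : ℤ × ℤ} (hv : OffL g.a g.b g.L 1 v) (hf : f ∈ s.dom g)
    (hfv : IsCor f v) (hk : k ∈ s.P) (hkv : IsCor k v) (ha : AdjF f k) : k ∈ s.dom g :=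
  compT_step hf ha
    ⟨hk, blk_sat ((h.nm_cor hv hfv).trans (h.nm_cor hv hkv).symm) (h.dom_sub hf).2⟩

/-- An outer face of the domain in `P` is outside the block. -/
theorem Val.out_blk (h : s.Val g) {i : ℕ} (ho : outF (s.dom g) s.A i ∈ s.P) :
    outF (s.dom g) s.A i ∉ s.blk g := by
  rcases domD_out h.mem (bd_side h.bdD i) with h1 | h1
  · exact absurd ho h1.2
  · exact h1.2

/-- The faces outside the block are far from the tip. -/
theorem Val.far_blk (h : s.Val g) {k V : ℤ × ℤ} (hk : k ∉ s.blk g) (hkV : IsCor k V) :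
    g.L * g.M ≤ |V.1 - s.tip.1| ∨ g.L * g.M ≤ |V.2 - s.tip.2| := by
  have hL := h.hL
  have key : ∀ x y v c : ℤ, (v = x ∨ v = x + 1) → g.M < |(x + c) / g.L - (y + c) / g.L| →
      g.L * g.M ≤ |v - y| := by
    intro x y v c hv hlt
    have a1 := Int.mul_ediv_self_le (x := x + c) (k := g.L) hL.ne'
    have a2 := Int.lt_mul_ediv_self_add (x := x + c) (k := g.L) hL
    have a3 := Int.mul_ediv_self_le (x := y + c) (k := g.L) hL.ne'
    have a4 := Int.lt_mul_ediv_self_add (x := y + c) (k := g.L) hL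
    rcases lt_abs.1 hlt with h1 | h1
    · have h2 : g.L * ((y + c) / g.L + g.M + 1) ≤ g.L * ((x + c) / g.L) :=
        mul_le_mul_of_nonneg_left (by omega) hL.le
      have h3 : g.L * ((y + c) / g.L + g.M + 1) = g.L * ((y + c) / g.L) + g.L * g.M + g.L := by ring
      refine le_trans ?_ (le_abs_self _)
      omega
    · have h2 : g.L * ((x + c) / g.L + g.M + 1) ≤ g.L * ((y + c) / g.L) :=
        mul_le_mul_of_nonneg_left (by omega) hL.le
      have h3 : g.L * ((x + c) / g.L + g.M + 1) = g.L * ((x + c) / g.L) + g.L * g.M + g.L := by ring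
      refine le_trans ?_ (neg_le_abs _)
      omega
  by_contra hcon
  push Not at hcon
  apply hk
  unfold blk Mv.blk gc
  rw [Set.mem_ofPred_eq]
  constructor
  · by_contra h1
    push Not at h1
    exact absurd (key k.1 s.tip.1 V.1 g.a hkV.1 h1) (not_le.2 hcon.1)
  · by_contra h1
    push Not at h1
    exact absurd (key k.2 s.tip.2 V.2 g.b hkV.2 h1) (not_le.2 hcon.2)

/-- The faces near the tip are in the block. -/
theorem Val.near_blk (h : s.Val g) {k : ℤ × ℤ} (h1 : |k.1 - s.tip.1| ≤ g.L * g.M)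
    (h2 : |k.2 - s.tip.2| ≤ g.L * g.M) : k ∈ s.blk g := by
  have hL := h.hL
  have key : ∀ x y c : ℤ, |x - y| ≤ g.L * g.M → |(x + c) / g.L - (y + c) / g.L| ≤ g.M := by
    intro x y c hxy
    rw [abs_le] at hxy ⊢
    constructor
    · have h3 : (y + c) / g.L ≤ (x + c + g.L * g.M) / g.L := Int.ediv_le_ediv hL (by omega)
      rw [Int.add_mul_ediv_left _ _ hL.ne'] at h3
      omega
    · have h3 : (x + c) / g.L ≤ (y + c + g.L * g.M) / g.L := Int.ediv_le_ediv hL (by omega)
      rw [Int.add_mul_ediv_left _ _ hL.ne'] at h3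
      omega
  exact ⟨key _ _ _ h1, key _ _ _ h2⟩

/-- The vertex `V` is at the boundary of the block. -/
def BdV (s : Dom) (g : Grd) (V : ℤ × ℤ) : Prop :=
  (∃ f k, IsCor f V ∧ IsCor k V ∧ g.nm f ≠ g.nm k) ∧
    (g.L * g.M ≤ |V.1 - s.tip.1| ∨ g.L * g.M ≤ |V.2 - s.tip.2|)

theorem Val.bdV_lf (h : s.Val g) {i : ℕ} (ho : outF (s.dom g) s.A i ∈ s.P) :
    s.BdV g (vert (s.dom g) s.A i) := by
  have hb := h.out_blk ho
  have hf : inF (s.dom g) s.A i ∈ s.blk g := (h.dom_sub (bd_side h.bdD i).1).2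
  exact ⟨⟨_, _, isCor_in_lf _, isCor_out_lf _, fun he => hb (blk_sat he hf)⟩,
    h.far_blk hb (isCor_out_lf _)⟩

theorem Val.bdV_rg (h : s.Val g) {i : ℕ} (ho : outF (s.dom g) s.A i ∈ s.P) :
    s.BdV g (vert (s.dom g) s.A (i + 1)) := by
  have hb := h.out_blk ho
  have hf : inF (s.dom g) s.A i ∈ s.blk g := (h.dom_sub (bd_side h.bdD i).1).2
  rw [vert_succ]
  exact ⟨⟨_, _, isCor_in_rg _, isCor_out_rg _, fun he => hb (blk_sat he hf)⟩,
    h.far_blk hb (isCor_out_rg _)⟩

theorem Val.not_bdV_tip (h : s.Val g) : ¬ s.BdV g s.tip := by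
  rintro ⟨⟨f, k, hf, hk, hne⟩, -⟩
  exact hne ((h.nm_eq hf).trans (h.nm_eq hk).symm)

/-- **A small move which does not end the step.** `E`: the entered set, near the tip. -/
theorem Val.mark (h : s.Val g) (o1 : OffL g.a g.b g.L 1 (lf s.B)) (o2 : OffL g.a g.b g.L 1 (rg s.B))
    {E : Set (ℤ × ℤ)} (hE : ∃ i, s.p g ≤ i ∧ i ≤ s.q g ∧ inF (s.dom g) s.A i ∈ E)
    (hB : ahead s.B ∉ E) (hnear : ∀ f ∈ E, ∀ k, AdjF f k → k ∈ s.blk g) {t : ℕ}
    (ht : t < cyl s.P s.A) (htB : side s.P s.A t = s.B) :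
    ∃ w, w < cyl s.P s.A ∧ w ≠ t ∧ inF s.P s.A w ∈ E ∧
      (t < w → ∃ r, w < r ∧ r < cyl s.P s.A ∧ s.BdV g (vert s.P s.A r)) ∧
      (w < t → ∃ r, r < w ∧ s.BdV g (vert s.P s.A (r + 1))) := by
  obtain ⟨i, hpi, hiq, hiE⟩ := hE
  have hDP : s.dom g ⊆ s.P := fun f hf => (h.dom_sub hf).1
  have hqm := h.q_lt
  have hpq := h.p_le
  have hp0 := h.p_pos
  have hcD := h.cyc
  have hcP := h.cycP
  have hfs : ∀ j < s.p g, outF (s.dom g) s.A j ∉ s.P := fun j hj ho =>
    h.arcsE.first j hj (Or.inl ho)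
  have hls : ∀ j, s.q g < j → j < cyl (s.dom g) s.A → outF (s.dom g) s.A j ∉ s.P :=
    fun j h1 h2 ho => h.arcsE.last j h1 h2 (Or.inl ho)
  have hiB : side (s.dom g) s.A i ≠ s.B := by
    intro he
    apply hB
    unfold inF at hiE
    rwa [he] at hiE
  have hio : outF (s.dom g) s.A i ∉ s.P := by
    intro ho
    exact h.out_blk ho (hnear _ hiE _ (adjF_ahead _).symm)
  have hBD : BD s.P (side (s.dom g) s.A i) := ⟨hDP (bd_side h.bdD i).1, hio⟩
  obtain ⟨w, hw, hws⟩ := hcP.exists_index hBD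
  obtain ⟨hpw, hwq⟩ := idx_mid hDP hcD hcP hfs hls hqm hpi hiq hw hws
  refine ⟨w, hw, ?_, ?_, ?_, ?_⟩
  · rintro rfl
    exact hiB (hws.symm.trans htB)
  · unfold inF at hiE ⊢
    rwa [hws]
  · intro htw
    have hq : outF (s.dom g) s.A (s.q g) ∈ s.P := by
      rcases h.arcsE.memq with h1 | h1
      · exact h1
      · exfalso
        have hBm : ahead s.B ∈ s.dom g := by
          have := (bd_side h.bdD (s.q g)).1
          rwa [h1] at this
        have := idx_q hDP hcD hcP hls hqm h1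
          (sc_eq_sc hDP hBm fun f k hf hfc hk hkc ha => h.dom_cor o2 hf hfc hk hkc ha) ht htB
        omega
    have hV := h.bdV_rg hq
    have hq1 : s.q g + 1 < cyl (s.dom g) s.A := by
      rcases (by omega : s.q g + 1 < cyl (s.dom g) s.A ∨ s.q g + 1 = cyl (s.dom g) s.A) with h1 | h1
      · exact h1
      · exfalso
        rw [h1] at hV
        have e : vert (s.dom g) s.A (cyl (s.dom g) s.A) = s.tip := by
          unfold vert tip
          rw [hcD.per]
        rw [e] at hV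
        exact h.not_bdV_tip hV
    obtain ⟨h1, h2⟩ := side_lstP hDP hcD hcP hls (i := s.q g + 1) (by omega) (by omega)
    refine ⟨s.q g + 1 + cyl s.P s.A - cyl (s.dom g) s.A, by omega, by omega, ?_⟩
    unfold vert at hV ⊢
    rwa [h2]
  · intro htw
    have hpP : side s.P s.A (s.p g - 1) = side (s.dom g) s.A (s.p g - 1) :=
      side_fstP hDP h.bdD hfs (by omega)
    have hp : outF (s.dom g) s.A (s.p g) ∈ s.P := by
      rcases h.arcsE.memp with h1 | h1
      · exact h1
      · exfalso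
        have hrl : rg (side (s.dom g) s.A (s.p g - 1)) = lf s.B := by
          rw [← h1, ← vert_succ, show s.p g - 1 + 1 = s.p g by omega]
          rfl
        have := idx_p hDP hcD hcP hfs hp0 (by omega) h1 h.ne
          (sc_eq_sc hDP (bd_side h.bdD (s.p g - 1)).1 fun f k hf hfc hk hkc ha => by
            rw [hrl] at hfc hkc
            exact h.dom_cor o1 hf hfc hk hkc ha) ht htB
        omega
    refine ⟨s.p g - 1, by omega, ?_⟩
    have hV := h.bdV_lf hp
    have e : vert s.P s.A (s.p g - 1 + 1) = vert (s.dom g) s.A (s.p g) := by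
      rw [vert_succ, hpP, ← vert_succ, show s.p g - 1 + 1 = s.p g by omega]
    rwa [e]

end Dom

end Pool.Agent.SixB.Mv

namespace Pool.Agent.SixB.CntM

open Finset Pool.Agent.Perc Pool.Agent.Perc6 Pool.Agent.Perc6.C2Aux Pool.Agent.Perc.Tips
open Pool.Agent.SixB.Top Pool.Agent.SixB.Mv Pool.Agent.SixB.Blow

variable {ι : Type*} {U P : Set (ℤ × ℤ)} {κ : ℤ × ℤ → ι} {d : ℤ} {A τ B : UE × Bool}

/-- The marks of a small move on the left: `w` = the number of a side of the entered set, `r` = the number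
of a side at the boundary of the block, `v`, `vr` = the numbers of linked sides of `U`. -/
structure MkL (U P : Set (ℤ × ℤ)) (κ : ℤ × ℤ → ι) (A τ : UE × Bool) (R R' : ℤ)
    (mU kt j₁ j₂ i₂ : ℕ) (E : Set (ℤ × ℤ)) (w r v vr : ℕ) : Prop where
  jw : j₂ + 1 < w
  wr : w < r
  ri : r < i₂
  E : inF P A w ∈ E
  rb : κ (outF P A r) ≠ κ (outF P A (j₁ - 1))
  ry : κ (outF P A r) ≠ κ (outF P A (j₂ + 1))
  rw : κ (outF P A r) ≠ κ (outF P A w)
  kv : kt ≤ v
  vv : v < vr
  vm : vr < mU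
  lw : LinkK U κ (side P A w) (side U τ v)
  lr : LinkK U κ (side P A r) (side U τ vr)
  nr : ahead (side U τ v) ∈ sqF R (ahead A)
  fr : ahead (side U τ vr) ∉ sqF R' (ahead A)
  nl : ∀ f ∈ lkF U κ (side P A w), f ∈ sqF R (ahead A)
  fl : ∀ f ∈ lkF U κ (side P A r), f ∉ sqF R' (ahead A)
  ni : inF P A w ∈ sqF R (ahead A)
  fi : inF P A r ∉ sqF R' (ahead A)

/-- The marks of a small move on the right. -/
structure MkR (U P : Set (ℤ × ℤ)) (κ : ℤ × ℤ → ι) (A τ : UE × Bool) (R R' : ℤ)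
    (kt i₁ j₁ j₂ : ℕ) (E : Set (ℤ × ℤ)) (w r v vr : ℕ) : Prop where
  wj : w < j₁ - 1
  rw : r < w
  ir : i₁ < r
  E : inF P A w ∈ E
  rb : κ (outF P A r) ≠ κ (outF P A (j₁ - 1))
  ry : κ (outF P A r) ≠ κ (outF P A (j₂ + 1))
  rw' : κ (outF P A r) ≠ κ (outF P A w)
  vv : vr < v
  vk : v < kt
  lw : LinkK U κ (side P A w) (side U τ v)
  lr : LinkK U κ (side P A r) (side U τ vr)
  nr : ahead (side U τ v) ∈ sqF R (ahead A)
  fr : ahead (side U τ vr) ∉ sqF R' (ahead A)
  nl : ∀ f ∈ lkF U κ (side P A w), f ∈ sqF R (ahead A)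
  fl : ∀ f ∈ lkF U κ (side P A r), f ∉ sqF R' (ahead A)
  ni : inF P A w ∈ sqF R (ahead A)
  fi : inF P A r ∉ sqF R' (ahead A)

/-! ### Vertices at the boundary of the block -/

section Bd

variable {s : Dom} {g : Grd} {u : ℕ}

/-- A fine face at a magnified vertex. -/
theorem cor_cl (hu : 0 < u) {f V : ℤ × ℤ} (h : IsCor f V) :
    IsCor ((u * V.1 + (f.1 - V.1), u * V.2 + (f.2 - V.2)) : ℤ × ℤ) ((u * V.1, u * V.2) : ℤ × ℤ) ∧
      cl u ((u * V.1 + (f.1 - V.1), u * V.2 + (f.2 - V.2)) : ℤ × ℤ) = f := by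
  have hu' : (0 : ℤ) < u := by exact_mod_cast hu
  obtain ⟨h1, h2⟩ := h
  refine ⟨⟨by simp only; omega, by simp only; omega⟩, ?_⟩
  have key : ∀ x y : ℤ, (x = y ∨ x = y + 1) → ((u : ℤ) * x + (y - x)) / u = y := by
    rintro x y (h | h)
    · subst h
      rw [sub_self, add_zero, Int.mul_ediv_cancel_left _ hu'.ne']
    · subst h
      refine ediv_aux' hu' ?_ ?_ <;> nlinarith
  unfold cl
  exact Prod.ext (key _ _ h1) (key _ _ h2)

/-- A face at a vertex of the boundary of the block is not near a face in the interior of a cell. -/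
theorem not_near_bdV (hu : 0 < u) {V z x : ℤ × ℤ} (hV : s.BdV g V) {ρ ρ' : ℤ}
    (hc : ∀ f ∈ sqF ρ' z, gc (u * g.a) (u * g.b) (u * g.L) f = gc (u * g.a) (u * g.b) (u * g.L) z)
    (hρ : ρ + 1 ≤ ρ') (hx : IsCor x ((u * V.1, u * V.2) : ℤ × ℤ)) : x ∉ sqF ρ z := by
  intro hxz
  obtain ⟨⟨f, k, hf, hk, hne⟩, -⟩ := hV
  have key : ∀ f, IsCor f V → g.nm f = gc (u * g.a) (u * g.b) (u * g.L) z := by
    intro f hf
    obtain ⟨h1, h2⟩ := cor_cl hu hf
    rw [← hc _ ?_, gc_up hu, h2]
    · rfl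
    · unfold sqF at hxz ⊢
      rw [Set.mem_ofPred_eq, abs_le, abs_le] at *
      unfold IsCor at hx h1
      simp only at hx h1 ⊢
      omega
  exact hne ((key f hf).trans (key k hk).symm)

/-- The face in front of the tip side is at the magnified tip. -/
theorem cor_tip (A : UE × Bool) (u : ℕ) :
    IsCor (ahead (subE u A 0)) ((u * (lf A).1, u * (lf A).2) : ℤ × ℤ) := by
  have h := isCor_in_lf (subE u A 0)
  rwa [lf_subE_zero] at h

/-- A face at a vertex of the boundary of the block is not near the tip. -/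
theorem not_near_tip {V x : ℤ × ℤ} (hV : s.BdV g V) {ρ : ℤ} (hρ : ρ + 2 < u * (g.L * g.M))
    (hx : IsCor x ((u * V.1, u * V.2) : ℤ × ℤ)) : x ∉ sqF ρ (ahead (subE u s.A 0)) := by
  intro hxz
  obtain ⟨-, hd⟩ := hV
  have hA := cor_tip s.A u
  have key : ∀ y w : ℤ, g.L * g.M ≤ |y - w| → u * (g.L * g.M) ≤ |u * y - u * w| := by
    intro y w h
    rw [← mul_sub, abs_mul, Nat.abs_cast]
    exact mul_le_mul_of_nonneg_left h (by positivity)
  have hd' : u * (g.L * g.M) ≤ |u * V.1 - u * (lf s.A).1| ∨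
      u * (g.L * g.M) ≤ |u * V.2 - u * (lf s.A).2| :=
    hd.imp (key _ _) (key _ _)
  unfold sqF at hxz
  rw [Set.mem_ofPred_eq, abs_le, abs_le] at hxz
  unfold IsCor at hx hA
  simp only [le_abs] at hx hA hd'
  omega

end Bd

/-! ### The marks on the fine lattice -/

/-- The sides of a link of a side of the entered set are near, the sides of a link of a far side are far. -/
theorem link_zones (app : App U P κ d) {C C' : UE × Bool} {R : ℤ} {z : ℤ × ℤ}
    (hl : LinkK U κ C C') :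
    (ahead C ∈ sqF R z → ahead C' ∈ sqF (R + d) z) ∧ (ahead C ∉ sqF R z → ahead C' ∉ sqF (R - d) z) := by
  have h := link_near app hl
  unfold sqF at h ⊢
  simp only [Set.mem_ofPred_eq, abs_le] at h ⊢
  constructor
  · intro h1
    omega
  · intro h1 h2
    apply h1
    omega

/-- The faces of the link of a near side are near, the faces of the link of a far side are far. -/
theorem lkF_zones (app : App U P κ d) {C : UE × Bool} {R : ℤ} {z f : ℤ × ℤ} (hf : f ∈ lkF U κ C) :
    (ahead C ∈ sqF R z → f ∈ sqF (R + d) z) ∧ (ahead C ∉ sqF R z → f ∉ sqF (R - d) z) := by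
  have h := lkF_near app hf
  unfold sqF at h ⊢
  simp only [Set.mem_ofPred_eq, abs_le] at h ⊢
  constructor
  · intro h1
    omega
  · intro h1 h2
    apply h1
    omega

/-- **The marks of a small move which does not end the step.** -/
theorem mark_stg {s : Dom} {g : Grd} (h : s.Val g) {u : ℕ} (hu : 0 < u)
    (o1 : OffL g.a g.b g.L 1 (lf s.B)) (o2 : OffL g.a g.b g.L 1 (rg s.B)) {sA sB : ℤ}
    {mP mU kt i₁ j₁ t j₂ i₂ : ℕ} {E : Set (ℤ × ℤ)}
    (S : Stg U (blow u s.P) κ d (subE u s.A 0) τ (subE u s.B 0)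
      (gc (u * g.a) (u * g.b) (u * g.L)) sA sB mP mU kt i₁ j₁ t j₂ i₂ (blow u E))
    (hE : ∃ i, s.p g ≤ i ∧ i ≤ s.q g ∧ inF (s.dom g) s.A i ∈ E) {R : ℤ}
    (hR : ∀ f ∈ blow u E, f ∈ sqF R (ahead (subE u s.A 0)))
    (hn : R + d + sA + u + 4 ≤ u * (g.L * g.M)) :
    (∃ w r v vr, MkL U (blow u s.P) κ (subE u s.A 0) τ (R + d) (u * (g.L * g.M) - 3 - d)
      mU kt j₁ j₂ i₂ (blow u E) w r v vr) ∨
    ∃ w r v vr, MkR U (blow u s.P) κ (subE u s.A 0) τ (R + d) (u * (g.L * g.M) - 3 - d)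
      kt i₁ j₁ j₂ (blow u E) w r v vr := by
  have hu' : (0 : ℤ) < u := by exact_mod_cast hu
  have hd := S.app.d_pos
  have hA := h.bdA
  have hij := S.lab.ij
  have hjt := S.lab.jt
  have htj := S.lab.tj
  have hji := S.lab.ji
  have him := S.lab.im
  have hmP : mP = u * cyl s.P s.A := S.lab.cyc.unique (cyc_blow hu h.fin h.con h.esc h.cycP)
  have hsA : 0 ≤ sA := by
    have := (S.lab.nrA 0 (Or.inl (Nat.zero_le _))).1
    exact (abs_nonneg _).trans this
  -- the coarse number of the target side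
  obtain ⟨tc, htc, htB⟩ := h.cycP.exists_index h.bdB
  have hmul : ∀ i, (u * i) / u = i ∧ (u * i) % u = 0 := fun i =>
    ⟨Nat.mul_div_cancel_left _ hu, Nat.mul_mod_right _ _⟩
  have ht : t = u * tc := by
    refine S.lab.cyc.inj t (by omega) (u * tc) ?_ ?_
    · rw [hmP]
      exact Nat.mul_lt_mul_of_pos_left htc hu
    · rw [S.lab.tgt, side_blow hu hA, (hmul tc).1, (hmul tc).2, htB]
      rfl
  have hBE : ahead s.B ∉ E := by
    intro hh
    apply S.BE
    rw [mem_blow, cl_ahead hu' s.B le_rfl (by omega)]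
    exact hh
  have hcA := cor_tip s.A u
  have hnear : ∀ f ∈ E, ∀ k, AdjF f k → k ∈ s.blk g := by
    intro f hf k hfk
    have h1 : ((u * f.1, u * f.2) : ℤ × ℤ) ∈ blow u E := by
      rw [mem_blow]
      unfold cl
      simp only [Int.mul_ediv_cancel_left _ hu'.ne']
      exact hf
    have h2 := hR _ h1
    have h3 := adj_near_app (adj_iff_adjFL.2 hfk)
    have key : ∀ x y w z : ℤ, |x - y| ≤ 1 → |u * x - z| ≤ R → (u * w = z ∨ u * w = z + 1) →
        |y - w| ≤ g.L * g.M := by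
      intro x y w z h1 h2 h3
      rw [abs_le] at h1 h2 ⊢
      have h4 : (u : ℤ) * (x - y) ≤ u * 1 := mul_le_mul_of_nonneg_left h1.2 hu'.le
      have h5 : (u : ℤ) * (-1) ≤ u * (x - y) := mul_le_mul_of_nonneg_left h1.1 hu'.le
      constructor
      · have h6 : (u : ℤ) * (-(g.L * g.M)) ≤ u * (y - w) := by
          rw [mul_sub] at h4 h5 ⊢
          rw [mul_neg]
          omega
        exact le_of_mul_le_mul_left h6 hu'
      · have h6 : (u : ℤ) * (y - w) ≤ u * (g.L * g.M) := by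
          rw [mul_sub] at h4 h5 ⊢
          omega
        exact le_of_mul_le_mul_left h6 hu'
    exact h.near_blk (key f.1 k.1 _ _ h3.1 h2.1 hcA.1) (key f.2 k.2 _ _ h3.2 h2.2 hcA.2)
  obtain ⟨w, hw, hwt, hwE, hl, hr⟩ := h.mark o1 o2 hE hBE hnear htc htB
  have hwE' : inF (blow u s.P) (subE u s.A 0) (u * w) ∈ blow u E := by
    rw [mem_blow, cl_inF hu hA, (hmul w).1]
    exact hwE
  have hwm : u * w < mP := by
    rw [hmP]
    exact Nat.mul_lt_mul_of_pos_left hw hu
  have hR0 : 0 ≤ R := (abs_nonneg _).trans (hR _ hwE').1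
  -- the properties of a side at the boundary of the block
  have far : ∀ {r : ℕ} {V : ℤ × ℤ}, s.BdV g V →
      IsCor (inF (blow u s.P) (subE u s.A 0) r) ((u * V.1, u * V.2) : ℤ × ℤ) →
      inF (blow u s.P) (subE u s.A 0) r ∉ sqF (u * (g.L * g.M) - 3) (ahead (subE u s.A 0)) ∧
      κ (outF (blow u s.P) (subE u s.A 0) r) ≠ κ (outF (blow u s.P) (subE u s.A 0) (j₁ - 1)) ∧
      κ (outF (blow u s.P) (subE u s.A 0) r) ≠ κ (outF (blow u s.P) (subE u s.A 0) (j₂ + 1)) ∧
      κ (outF (blow u s.P) (subE u s.A 0) r) ≠ κ (outF (blow u s.P) (subE u s.A 0) (u * w)) := by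
    intro r V hV hc
    have hB : inF (blow u s.P) (subE u s.A 0) r ∉ sqF (sB + d + 2) (ahead (subE u s.B 0)) :=
      not_near_bdV hu hV S.celB (by omega) hc
    have hf : inF (blow u s.P) (subE u s.A 0) r ∉
        sqF (u * (g.L * g.M) - 3) (ahead (subE u s.A 0)) := not_near_tip hV (by omega) hc
    refine ⟨hf, S.far_class S.near_b hB, S.far_class S.near_y hB, ?_⟩
    intro he
    apply hf
    have h1 := S.app.diam _ _ he
    have h2 := adj_near_app (adj_iff_adjFL.2 (adjF_ahead (side (blow u s.P) (subE u s.A 0) r)).symm)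
    have h3 := adj_near_app
      (adj_iff_adjFL.2 (adjF_ahead (side (blow u s.P) (subE u s.A 0) (u * w))).symm)
    have h4 := hR _ hwE'
    unfold outF at h1
    unfold inF at *
    unfold sqF at *
    simp only [Set.mem_ofPred_eq, abs_lt, abs_le] at *
    omega
  rcases lt_or_gt_of_ne hwt with h1 | h1
  · -- the right side
    right
    obtain ⟨r, hrw, hV⟩ := hr h1
    have hc : IsCor (inF (blow u s.P) (subE u s.A 0) (u * (r + 1) - 1))
        ((u * (vert s.P s.A (r + 1)).1, u * (vert s.P s.A (r + 1)).2) : ℤ × ℤ) := by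
      rw [← vert_blow_mul hu hA]
      have hpos : 0 < u * (r + 1) := Nat.mul_pos hu (by omega)
      have e : u * (r + 1) = u * (r + 1) - 1 + 1 := by omega
      rw [e, vert_succ]
      exact isCor_in_rg _
    obtain ⟨hf, hrb, hry, hrw'⟩ := far hV hc
    have hrw1 : u * (r + 1) ≤ u * w := Nat.mul_le_mul_left _ hrw
    have hpos : 0 < u * (r + 1) := Nat.mul_pos hu (by omega)
    have hwt' : u * w < u * tc := Nat.mul_lt_mul_of_pos_left h1 hu
    have hwj : u * w < j₁ - 1 := by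
      by_contra hcon
      exact S.near_notMem (i := u * w) (by omega) (by omega) hwE'
    have hir : i₁ < u * (r + 1) - 1 := by
      by_contra hcon
      exact hf (sqF_mono (by omega) (S.lab.nrA _ (Or.inl (by omega))))
    obtain ⟨vr, hvr, lr⟩ := S.lab.b (u * (r + 1) - 1) hir (by omega)
    obtain ⟨v, hv, lw⟩ := S.ex_link (i := u * w)
    obtain ⟨vy, hvy, hvym, -⟩ := S.lab.l (j₂ + 1) (by omega) (by omega)
    have hrw2 : u * (r + 1) - 1 < u * w := by omega
    obtain ⟨h2, h3⟩ := S.ord_right hwj hrw2 hwE' hrb hry hrw' hv hvr (by omega) lw lr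
    exact ⟨u * w, u * (r + 1) - 1, v, vr, hwj, hrw2, hir, hwE', hrb, hry, hrw', h2, h3, lw, lr,
      (link_zones S.app lw).1 (hR _ hwE'), (link_zones S.app lr).2 hf,
      fun f hf' => (lkF_zones S.app hf').1 (hR _ hwE'), fun f hf' => (lkF_zones S.app hf').2 hf,
      sqF_mono (by omega) (hR _ hwE'), fun hh => hf (sqF_mono (by omega) hh)⟩
  · -- the left side
    left
    obtain ⟨r, hwr, hrm, hV⟩ := hl h1
    have hc : IsCor (inF (blow u s.P) (subE u s.A 0) (u * r))
        ((u * (vert s.P s.A r).1, u * (vert s.P s.A r).2) : ℤ × ℤ) := by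
      rw [← vert_blow_mul hu hA]
      exact isCor_in_lf _
    obtain ⟨hf, hrb, hry, hrw'⟩ := far hV hc
    have hwr1 : u * w < u * r := Nat.mul_lt_mul_of_pos_left hwr hu
    have hrm1 : u * r < mP := by
      rw [hmP]
      exact Nat.mul_lt_mul_of_pos_left hrm hu
    have hwt' : u * tc < u * w := Nat.mul_lt_mul_of_pos_left h1 hu
    have hjw : j₂ + 1 < u * w := by
      by_contra hcon
      exact S.near_notMem (i := u * w) (by omega) (by omega) hwE'
    have hri : u * r < i₂ := by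
      by_contra hcon
      exact hf (sqF_mono (by omega) (S.lab.nrA _ (Or.inr ⟨by omega, by omega⟩)))
    obtain ⟨vr, hkr, hvr, lr⟩ := S.lab.l (u * r) (by omega) hri
    obtain ⟨v, hv, lw⟩ := S.ex_link (i := u * w)
    obtain ⟨h2, h3⟩ := S.ord_left hjw hwr1 hrm1 hwE' hrb hry hrw' hv hvr hkr lw lr
    exact ⟨u * w, u * r, v, vr, hjw, hwr1, hri, hwE', hrb, hry, hrw', h2, h3, hvr, lw, lr,
      (link_zones S.app lw).1 (hR _ hwE'), (link_zones S.app lr).2 hf,
      fun f hf' => (lkF_zones S.app hf').1 (hR _ hwE'), fun f hf' => (lkF_zones S.app hf').2 hf,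
      sqF_mono (by omega) (hR _ hwE'), fun hh => hf (sqF_mono (by omega) hh)⟩

/-! ### Zones -/

/-- A face near `z` is not far from `z'`. -/
theorem sqF_tri {z z' f : ℤ × ℤ} {R R' δ : ℤ} (h : f ∈ sqF R z) (hn : R + δ ≤ R')
    (hz : |z.1 - z'.1| ≤ δ ∧ |z.2 - z'.2| ≤ δ) : f ∈ sqF R' z' := by
  unfold sqF at h ⊢
  simp only [Set.mem_ofPred_eq, abs_le] at h hz ⊢
  omega

/-- A side with a near face is in a box. -/
theorem inB_of_sqF {C : UE × Bool} {z y : ℤ × ℤ} {r δ : ℤ} (h : ahead C ∈ sqF r z)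
    (hy : |z.1 - y.1| ≤ δ ∧ |z.2 - y.2| ≤ δ) : InB y (r + δ + 1) C.1 := by
  obtain ⟨⟨a, b, _ | _⟩, _ | _⟩ := C <;> unfold InB InR <;> unfold sqF at h <;>
    simp only [Set.mem_ofPred_eq, abs_le, ahead, ua] at h hy ⊢ <;> omega

/-- A side with a far face is not in a box. -/
theorem not_inB_of_sqF {C : UE × Bool} {z y : ℤ × ℤ} {r δ : ℤ} (h : ahead C ∉ sqF r z)
    (hy : |z.1 - y.1| ≤ δ ∧ |z.2 - y.2| ≤ δ) : ¬ InB y (r - δ - 1) C.1 := by
  intro hB
  apply h
  obtain ⟨⟨a, b, _ | _⟩, _ | _⟩ := C <;> unfold InB InR at hB <;> unfold sqF <;>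
    simp only [Set.mem_ofPred_eq, abs_le, ahead, ua] at hB hy ⊢ <;> omega

/-- The distance between the coarse and the true tip. -/
theorem tip_dist {A τ : UE × Bool} {ρ : ℤ} (h : LC.InB (lf A) ρ (rg τ)) :
    |(ahead A).1 - (ua τ.1).1| ≤ ρ + 2 ∧ |(ahead A).2 - (ua τ.1).2| ≤ ρ + 2 := by
  have h1 : IsCor (ahead A) (lf A) := isCor_in_lf A
  unfold LC.InB at h
  unfold IsCor at h1
  obtain ⟨⟨a, b, _ | _⟩, _ | _⟩ := τ <;> simp only [ua, rg] at h ⊢ <;> simp only [abs_le] <;> omega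

/-- The zones of the marks around the true tip, left. -/
theorem MkL.inB {R R' ρ : ℤ} {mU kt j₁ j₂ i₂ : ℕ} {E : Set (ℤ × ℤ)} {w r v vr : ℕ}
    (M : MkL U P κ A τ R R' mU kt j₁ j₂ i₂ E w r v vr) (h : LC.InB (lf A) ρ (rg τ)) :
    InB (ua τ.1) (R + ρ + 3) (side U τ v).1 ∧ ¬ InB (ua τ.1) (R' - ρ - 3) (side U τ vr).1 := by
  have h1 := inB_of_sqF M.nr (tip_dist h)
  have h2 := not_inB_of_sqF M.fr (tip_dist h)
  rw [show R + ρ + 3 = R + (ρ + 2) + 1 by ring, show R' - ρ - 3 = R' - (ρ + 2) - 1 by ring]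
  exact ⟨h1, h2⟩

/-- The zones of the marks around the true tip, right. -/
theorem MkR.inB {R R' ρ : ℤ} {kt i₁ j₁ j₂ : ℕ} {E : Set (ℤ × ℤ)} {w r v vr : ℕ}
    (M : MkR U P κ A τ R R' kt i₁ j₁ j₂ E w r v vr) (h : LC.InB (lf A) ρ (rg τ)) :
    InB (ua τ.1) (R + ρ + 3) (side U τ v).1 ∧ ¬ InB (ua τ.1) (R' - ρ - 3) (side U τ vr).1 := by
  have h1 := inB_of_sqF M.nr (tip_dist h)
  have h2 := not_inB_of_sqF M.fr (tip_dist h)
  rw [show R + ρ + 3 = R + (ρ + 2) + 1 by ring, show R' - ρ - 3 = R' - (ρ + 2) - 1 by ring]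
  exact ⟨h1, h2⟩

section Two

variable {γ ι' : Type*} {c : ℤ × ℤ → γ} {s s₀ : ℤ} {mP mU kt i₁ j₁ t j₂ i₂ : ℕ} {E : Set (ℤ × ℤ)}
  (S : Stg U P κ d A τ B c s s₀ mP mU kt i₁ j₁ t j₂ i₂ E) {U' P' : Set (ℤ × ℤ)}
  {κ' : ℤ × ℤ → ι'} {A' : UE × Bool} {R R' δ : ℤ} {w r' : ℕ}

include S

/-- **The zones of two stages, left** (`hz` of `Stg.claimA_left`): `hf` = the field `fl` of the marks of the
later stage, `hw` = the field `nl` of the marks of this stage. -/
theorem Stg.hz_left (hR : ∀ f ∈ E, f ∈ sqF R (ahead A))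
    (hw : ∀ f ∈ lkF U κ (side P A w), f ∈ sqF (R + d) (ahead A))
    (hf : ∀ f ∈ lkF U' κ' (side P' A' r'), f ∉ sqF R' (ahead A'))
    (hz : |(ahead A).1 - (ahead A').1| ≤ δ ∧ |(ahead A).2 - (ahead A').2| ≤ δ)
    (h1 : R + d + δ ≤ R') (h2 : s + 1 + d + δ ≤ R') :
    ∀ f ∈ lkF U' κ' (side P' A' r'), f ∉ E ∧ f ∉ lkF U κ (side P A w) ∧
      f ∉ lkF U κ (side P A (i₁ + 1)) := by
  intro f hff
  have hd := S.app.d_pos
  refine ⟨fun hh => hf f hff (sqF_tri (hR f hh) (by omega) hz),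
    fun hh => hf f hff (sqF_tri (hw f hh) h1 hz), fun hh => hf f hff ?_⟩
  exact sqF_tri ((lkF_zones S.app hh).1 (inF_succ_near S.lab.cyc.bd
    (S.lab.nrA i₁ (Or.inl le_rfl)))) h2 hz

/-- **The zones of two stages, right** (`hz` of `Stg.claimA_right`). -/
theorem Stg.hz_right (hR : ∀ f ∈ E, f ∈ sqF R (ahead A))
    (hw : ∀ f ∈ lkF U κ (side P A w), f ∈ sqF (R + d) (ahead A))
    (hf : ∀ f ∈ lkF U' κ' (side P' A' r'), f ∉ sqF R' (ahead A'))
    (hz : |(ahead A).1 - (ahead A').1| ≤ δ ∧ |(ahead A).2 - (ahead A').2| ≤ δ)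
    (h1 : R + d + δ ≤ R') (h2 : s + 1 + d + δ ≤ R') :
    ∀ f ∈ lkF U' κ' (side P' A' r'), f ∉ E ∧ f ∉ lkF U κ (side P A w) ∧
      f ∉ lkF U κ (side P A (i₂ - 1)) := by
  intro f hff
  have hd := S.app.d_pos
  have hji := S.lab.ji
  have him := S.lab.im
  refine ⟨fun hh => hf f hff (sqF_tri (hR f hh) (by omega) hz),
    fun hh => hf f hff (sqF_tri (hw f hh) h1 hz), fun hh => hf f hff ?_⟩
  have h3 := S.lab.nrA i₂ (Or.inr ⟨le_rfl, him⟩)
  rw [show i₂ = i₂ - 1 + 1 by omega] at h3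
  exact sqF_tri ((lkF_zones S.app hh).1 (inF_pred_near S.lab.cyc.bd h3)) h2 hz

end Two

end Pool.Agent.SixB.CntM
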