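import Pool.Agent.Lib.SixB.S8InvN
import Pool.Agent.Lib.SixB.S8NearTouch

/-!
# Step 8, number of moves: displacement, exit sides and the wall side of a small move

`s : Dom` a valid coarse domain with the grid `g`, `H = g.L * g.M` the half side of the block, `u` the unit
(magnification), `tip' = lf (subE u s.A 0) = u * s.tip`.

* `out_blk`: a face outside of the block is at distance more than `H` from the tip; `ex_cases`: an exit
  side is the target side or its outer face is a face of `P` outside of the block;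
* `far_exit`: the vertices of a magnified exit side which is not the target side are at distance at least
  `u * H` from `tip'`; `far_exit_InB`: the same with `InB`;
* `ent_box`, `ent_box_void`: the magnified entered set is near the stop edge, near the tip for a void move;
* `wall`: the sides before the first and after the last exit side are sides of `P`;
* `small_wall`: the move does not end the step and the entered set is in the box of radius `H`: there is a
  side `w` strictly between the first and the last exit side which is a side of `P` (no exit side) with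
  inner face in the entered set, and the first or the last exit side is at the boundary of the block;
* `small_of_stop`, `small_of_void`: the hypothesis of `small_wall` from the strand and for void moves;
* `last_far`, `first_far`: if the last (first) exit side is at the boundary of the block then the next
  (previous) side is a side of `P` whose common vertex is at distance at least `H`.
-/

set_option autoImplicit false

namespace Pool.Agent.SixB.CntH

open Finset Pool.Agent.Perc Pool.Agent.Perc6 Pool.Agent.Perc6.C2Aux Pool.Agent.Perc.Tips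
open Pool.Agent.SixB.Top Pool.Agent.SixB.Mv Pool.Agent.SixB.Blow Pool.Agent.SixB.InvN

variable {s : Dom} {g : Grd} {ρ : Rec}

/-! ### The block -/

theorem div_far {A B L M : ℤ} (hL : 0 < L) (h : M < |A / L - B / L|) : L * M < |A - B| := by
  have h1 := Int.mul_ediv_add_emod A L
  have h2 := Int.mul_ediv_add_emod B L
  have h3 := Int.emod_nonneg A hL.ne'
  have h4 := Int.emod_nonneg B hL.ne'
  have h5 := Int.emod_lt_of_pos A hL
  have h6 := Int.emod_lt_of_pos B hL
  rcases lt_abs.1 h with h7 | h7
  · have h8 : L * (M + 1) ≤ L * (A / L - B / L) := mul_le_mul_of_nonneg_left (by omega) hL.le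
    exact lt_abs.2 (Or.inl (by nlinarith))
  · have h8 : L * (M + 1) ≤ L * (-(A / L - B / L)) := mul_le_mul_of_nonneg_left (by omega) hL.le
    exact lt_abs.2 (Or.inr (by nlinarith))

/-- A face outside of the block is far from the tip. -/
theorem out_blk (hL : 0 < g.L) {k : ℤ × ℤ} (hk : k ∉ s.blk g) :
    g.L * g.M < |k.1 - s.tip.1| ∨ g.L * g.M < |k.2 - s.tip.2| := by
  have h0 : ¬ (|(gc g.a g.b g.L k).1 - (gc g.a g.b g.L s.tip).1| ≤ g.M ∧
      |(gc g.a g.b g.L k).2 - (gc g.a g.b g.L s.tip).2| ≤ g.M) := hk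
  rw [not_and_or, not_le, not_le] at h0
  rcases h0 with h | h
  · left
    have h1 := div_far (A := k.1 + g.a) (B := s.tip.1 + g.a) hL h
    rwa [show k.1 + g.a - (s.tip.1 + g.a) = k.1 - s.tip.1 by ring] at h1
  · right
    have h1 := div_far (A := k.2 + g.b) (B := s.tip.2 + g.b) hL h
    rwa [show k.2 + g.b - (s.tip.2 + g.b) = k.2 - s.tip.2 by ring] at h1

/-- An exit side is the target side or it is at the boundary of the block. -/
theorem ex_cases (h : s.Val g) {C : UE × Bool} (hC : BD (s.dom g) C) (hE : IsEx s.P s.B C) :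
    C = s.B ∨ (ahead (rv C) ∈ s.P ∧ ahead (rv C) ∉ s.blk g) := by
  rcases hE with h1 | h1
  · right
    rcases domD_out h.mem hC with h2 | h2
    · exact absurd h1 h2.2
    · exact h2
  · exact Or.inl h1

/-- A side of the domain which is no exit side is a side of `P` and not the target side. -/
theorem wall_of (h : s.Val g) {C : UE × Bool} (hC : BD (s.dom g) C) (hE : ¬ IsEx s.P s.B C) :
    BD s.P C ∧ C ≠ s.B := by
  unfold IsEx at hE
  rw [not_or] at hE
  exact ⟨⟨(h.dom_sub hC.1).1, hE.1⟩, hE.2⟩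

/-- **The sides before the first and after the last exit side are sides of `P`.** -/
theorem wall (h : s.Val g) {i : ℕ} (hi : i < cyl (s.dom g) s.A) (hx : i < s.p g ∨ s.q g < i) :
    BD s.P (side (s.dom g) s.A i) ∧ side (s.dom g) s.A i ≠ s.B := by
  refine wall_of h (bd_side h.bdD i) ?_
  rcases hx with hx | hx
  · exact h.arcsE.first i hx
  · exact h.arcsE.last i hx hi

/-! ### Magnified exit sides -/

/-- The distance of a magnified face. -/
theorem far_cl {u K t c x : ℤ} (hu : 0 < u) (hx : c = x / u) (h : K < |c - t|) :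
    u * K + u ≤ x - u * t ∨ x - u * t ≤ -(u * K) - 1 := by
  subst hx
  have h1 := Int.mul_ediv_add_emod x u
  have h3 := Int.emod_nonneg x hu.ne'
  have h5 := Int.emod_lt_of_pos x hu
  rcases lt_abs.1 h with h7 | h7
  · left
    have h8 : u * (K + 1) ≤ u * (x / u - t) := mul_le_mul_of_nonneg_left (by omega) hu.le
    nlinarith
  · right
    have h8 : u * (K + 1) ≤ u * (-(x / u - t)) := mul_le_mul_of_nonneg_left (by omega) hu.le
    nlinarith

/-- The corners of a magnified face outside of the block. -/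
theorem far_cor {u : ℤ} (hu : 0 < u) (hL : 0 < g.L) {f w : ℤ × ℤ} (hf : cl u f ∉ s.blk g)
    (hw : IsCor f w) : u * (g.L * g.M) ≤ |w.1 - (lf (subE u s.A 0)).1| ∨
      u * (g.L * g.M) ≤ |w.2 - (lf (subE u s.A 0)).2| := by
  rw [lf_subE_zero]
  unfold IsCor at hw
  obtain ⟨h1, h2⟩ := hw
  rcases out_blk hL hf with h3 | h3
  · left
    have h4 := far_cl hu (x := f.1) rfl h3
    change _ ≤ |w.1 - u * s.tip.1|
    rw [le_abs]
    rcases h4 with h4 | h4
    · left
      omega
    · right
      omega
  · right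
    have h4 := far_cl hu (x := f.2) rfl h3
    change _ ≤ |w.2 - u * s.tip.2|
    rw [le_abs]
    rcases h4 with h4 | h4
    · left
      omega
    · right
      omega

/-- **The exit sides at the boundary of the block are far from the tip.** -/
theorem far_exit {u : ℤ} (hu : 0 < u) (h : s.Val g) {C : UE × Bool} (hC : BD (s.dom g) C)
    (hE : IsEx s.P s.B C) (hne : C ≠ s.B) {r : ℤ} (h0 : 0 ≤ r) (h1 : r < u) {w : ℤ × ℤ}
    (hw : w = lf (subE u C r) ∨ w = rg (subE u C r)) :
    u * (g.L * g.M) ≤ |w.1 - (lf (subE u s.A 0)).1| ∨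
      u * (g.L * g.M) ≤ |w.2 - (lf (subE u s.A 0)).2| := by
  have h2 := ((ex_cases h hC hE).resolve_left hne).2
  have h3 : cl u (ahead (rv (subE u C r))) = ahead (rv C) := cl_ahead_rv hu C h0 h1
  refine far_cor hu h.hL (f := ahead (rv (subE u C r))) (by rw [h3]; exact h2) ?_
  rcases hw with rfl | rfl
  · exact isCor_out_lf _
  · exact isCor_out_rg _

/-- The same with `InB`. -/
theorem far_exit_InB {u : ℤ} (hu : 0 < u) (h : s.Val g) {C : UE × Bool} (hC : BD (s.dom g) C)
    (hE : IsEx s.P s.B C) (hne : C ≠ s.B) {r : ℤ} (h0 : 0 ≤ r) (h1 : r < u) {R : ℤ}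
    (hR : R < u * (g.L * g.M)) : ¬ SixB.InB (lf (subE u s.A 0)) R (subE u C r).1 := by
  intro hi
  have hw : ua (subE u C r).1 = lf (subE u C r) ∨ ua (subE u C r).1 = rg (subE u C r) := by
    obtain ⟨⟨x, y, _ | _⟩, _ | _⟩ := subE u C r <;> simp [ua, lf, rg]
  have h2 := far_exit hu h hC hE hne h0 h1 hw
  unfold SixB.InB InR at hi
  rw [le_abs, le_abs] at h2
  omega

/-! ### The entered set -/

/-- **The magnified entered set is near the stop edge.** -/
theorem ent_box {u : ℤ} (hu : 0 < u) (h : s.Val g) (hρ : s.RecOk g ρ) {e : UE}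
    (he : fa e ∈ blow u (s.ent g ρ)) {z : ℤ × ℤ} {R : ℤ} (hz : SixB.InB z R e) {f : ℤ × ℤ}
    (hf : f ∈ blow u (s.ent g ρ)) : LC.InB z (R + 1 + 2 * (u * g.L)) f := by
  have h1 := ((ent_dia h hρ).blow hu) _ hf _ he
  rw [show u * (2 * g.L) = 2 * (u * g.L) by ring, abs_lt, abs_lt] at h1
  have h2 : (fa e).1 ≤ (ua e).1 ∧ (ua e).1 ≤ (fa e).1 + 1 ∧ (fa e).2 ≤ (ua e).2 ∧
      (ua e).2 ≤ (fa e).2 + 1 := by
    have key : ∀ {f : ℤ × ℤ} {b : UE}, IsSide f b → f.1 ≤ (ua b).1 ∧ (ua b).1 ≤ f.1 + 1 ∧
        f.2 ≤ (ua b).2 ∧ (ua b).2 ≤ f.2 + 1 := by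
      intro f b h
      rcases h with rfl | rfl | rfl | rfl <;> simp [ua, bo, le', to', ri]
    exact key (isSide_fa e)
  unfold SixB.InB InR at hz
  unfold LC.InB
  omega

/-- The entered set of a void move is near the tip. -/
theorem ent_void (h : s.Val g) (hρ : s.RecOk g ρ) (hv : s.Void g) {f : ℤ × ℤ} (hf : f ∈ s.ent g ρ) :
    |f.1 - s.tip.1| ≤ 2 * g.L ∧ |f.2 - s.tip.2| ≤ 2 * g.L := by
  have h1 := Dom.stp_mem_ent s g ρ
  rw [Dom.stp_void hv] at h1
  have h2 := ent_dia h hρ _ hf _ h1
  have h3 := lf_bd s.A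
  rw [abs_lt, abs_lt] at h2
  change |f.1 - (lf s.A).1| ≤ _ ∧ |f.2 - (lf s.A).2| ≤ _
  rw [abs_le, abs_le]
  omega

/-- The entered set in coarse units. -/
def Small (s : Dom) (g : Grd) (ρ : Rec) : Prop :=
  ∀ f ∈ s.ent g ρ, |f.1 - s.tip.1| < g.L * g.M ∧ |f.2 - s.tip.2| < g.L * g.M

/-- The strand of the move stops near the tip. -/
theorem small_of_stop {u : ℤ} (hu : 0 < u) (h : s.Val g) (hρ : s.RecOk g ρ) {e : UE}
    (he : fa e ∈ blow u (s.ent g ρ)) {z : ℤ × ℤ} {R r : ℤ} (hz : SixB.InB z R e)
    (hr : LC.InB (lf (subE u s.A 0)) r z) (hR : r + R + 1 + 2 * (u * g.L) + u ≤ u * (g.L * g.M)) :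
    Small s g ρ := by
  intro f hf
  have h0 : cl u (u * f.1, u * f.2) = f := by
    unfold cl
    simp only
    rw [Int.mul_ediv_cancel_left _ hu.ne', Int.mul_ediv_cancel_left _ hu.ne']
  have h1 := ent_box hu h hρ he hz (f := (u * f.1, u * f.2)) (by rw [mem_blow, h0]; exact hf)
  rw [lf_subE_zero] at hr
  unfold LC.InB at h1 hr
  simp only at h1 hr
  have e1 : s.tip = lf s.A := rfl
  rw [e1]
  constructor
  · rw [abs_lt]
    constructor
    · by_contra hcon
      have h3 : u * (g.L * g.M) ≤ u * ((lf s.A).1 - f.1) := mul_le_mul_of_nonneg_left (by omega) hu.le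
      rw [mul_sub] at h3
      omega
    · by_contra hcon
      have h3 : u * (g.L * g.M) ≤ u * (f.1 - (lf s.A).1) := mul_le_mul_of_nonneg_left (by omega) hu.le
      rw [mul_sub] at h3
      omega
  · rw [abs_lt]
    constructor
    · by_contra hcon
      have h3 : u * (g.L * g.M) ≤ u * ((lf s.A).2 - f.2) := mul_le_mul_of_nonneg_left (by omega) hu.le
      rw [mul_sub] at h3
      omega
    · by_contra hcon
      have h3 : u * (g.L * g.M) ≤ u * (f.2 - (lf s.A).2) := mul_le_mul_of_nonneg_left (by omega) hu.le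
      rw [mul_sub] at h3
      omega

/-- The entered set of a void move. -/
theorem small_of_void (h : s.Val g) (hρ : s.RecOk g ρ) (hv : s.Void g) (hM : 3 ≤ g.M) :
    Small s g ρ := by
  intro f hf
  have h1 := ent_void h hρ hv hf
  have h2 : g.L * 3 ≤ g.L * g.M := mul_le_mul_of_nonneg_left hM h.hL.le
  have h3 := h.hL
  constructor <;> omega

/-- **The wall side of a small move** which does not end the step. -/
theorem small_wall (h : s.Val g) (hρ : s.RecOk g ρ) (hE : ¬ s.End g ρ) (hs : Small s g ρ) :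
    (∃ w, s.p g < w ∧ w < s.q g ∧ inF (s.dom g) s.A w ∈ s.ent g ρ ∧
      BD s.P (side (s.dom g) s.A w) ∧ side (s.dom g) s.A w ≠ s.B) ∧
    ((side (s.dom g) s.A (s.p g) ≠ s.B) ∨ (side (s.dom g) s.A (s.q g) ≠ s.B)) := by
  obtain ⟨w, h1, h2, h3⟩ := h.ent_layer hρ
  have hC : BD (s.dom g) (side (s.dom g) s.A w) := bd_side h.bdD w
  have hx : ¬ IsEx s.P s.B (side (s.dom g) s.A w) := by
    intro hx
    rcases ex_cases h hC hx with h4 | ⟨-, h4⟩
    · apply hE
      show ahead s.B ∈ s.ent g ρ
      rw [← h4]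
      exact h3
    · have h5 := hs _ h3
      have h6 := out_blk h.hL h4
      have h7 : AdjF (ahead (side (s.dom g) s.A w)) (ahead (rv (side (s.dom g) s.A w))) :=
        (adjF_ahead _).symm
      have h8 := adj_near_app (adj_iff_adjFL.2 h7)
      unfold inF at h5
      rw [abs_lt, abs_lt] at h5
      rw [lt_abs, lt_abs] at h6
      simp only [abs_le] at h8
      omega
  have hp : w ≠ s.p g := fun e => hx (e ▸ h.arcsE.memp)
  have hq : w ≠ s.q g := fun e => hx (e ▸ h.arcsE.memq)
  refine ⟨⟨w, by omega, by omega, h3, (wall_of h hC hx).1, (wall_of h hC hx).2⟩, ?_⟩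
  by_contra hcon
  rw [not_or, not_not, not_not] at hcon
  have h4 := h.cyc.inj _ (lt_of_le_of_lt h.p_le h.q_lt) _ h.q_lt (hcon.1.trans hcon.2.symm)
  omega

/-! ### The sides next to the exit interval -/

theorem vert_cyl (h : s.Val g) : vert (s.dom g) s.A (cyl (s.dom g) s.A) = s.tip := by
  have h1 : side (s.dom g) s.A (cyl (s.dom g) s.A) = side (s.dom g) s.A 0 := h.cyc.per
  unfold vert
  rw [h1]
  rfl

/-- The vertices of an exit side at the boundary of the block. -/
theorem far_vert (h : s.Val g) {i : ℕ} (hx : IsEx s.P s.B (side (s.dom g) s.A i))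
    (hne : side (s.dom g) s.A i ≠ s.B) {w : ℤ × ℤ}
    (hw : w = vert (s.dom g) s.A i ∨ w = vert (s.dom g) s.A (i + 1)) :
    g.L * g.M ≤ |w.1 - s.tip.1| ∨ g.L * g.M ≤ |w.2 - s.tip.2| := by
  have h1 := ((ex_cases h (bd_side h.bdD i) hx).resolve_left hne).2
  have hcor : IsCor (ahead (rv (side (s.dom g) s.A i))) w := by
    rcases hw with rfl | rfl
    · exact isCor_out_lf _
    · rw [vert_succ]
      exact isCor_out_rg _
  have h2 := out_blk h.hL h1
  unfold IsCor at hcor
  rw [lt_abs, lt_abs] at h2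
  rw [le_abs, le_abs]
  omega

/-- **The side after the last exit side** if the last exit side is at the boundary of the block. -/
theorem last_far (h : s.Val g) (hne : side (s.dom g) s.A (s.q g) ≠ s.B) :
    s.q g + 1 < cyl (s.dom g) s.A ∧ BD s.P (side (s.dom g) s.A (s.q g + 1)) ∧
      side (s.dom g) s.A (s.q g + 1) ≠ s.B ∧
      (g.L * g.M ≤ |(vert (s.dom g) s.A (s.q g + 1)).1 - s.tip.1| ∨
        g.L * g.M ≤ |(vert (s.dom g) s.A (s.q g + 1)).2 - s.tip.2|) := by
  have h1 := far_vert h h.arcsE.memq hne (Or.inr rfl)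
  have h2 : s.q g + 1 < cyl (s.dom g) s.A := by
    rcases Nat.lt_or_ge (s.q g + 1) (cyl (s.dom g) s.A) with h3 | h3
    · exact h3
    · exfalso
      have h4 : s.q g + 1 = cyl (s.dom g) s.A := by
        have := h.q_lt
        omega
      rw [h4, vert_cyl h, sub_self, sub_self, abs_zero] at h1
      have h5 : 0 < g.L * g.M := mul_pos h.hL h.hM
      omega
  obtain ⟨h3, h4⟩ := wall h h2 (Or.inr (Nat.lt_succ_self _))
  exact ⟨h2, h3, h4, h1⟩

/-- **The side before the first exit side** if the first exit side is at the boundary of the block. -/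
theorem first_far (h : s.Val g) (hM : 2 ≤ g.L * g.M) (hne : side (s.dom g) s.A (s.p g) ≠ s.B) :
    2 ≤ s.p g ∧ BD s.P (side (s.dom g) s.A (s.p g - 1)) ∧
      side (s.dom g) s.A (s.p g - 1) ≠ s.B ∧
      (g.L * g.M ≤ |(vert (s.dom g) s.A (s.p g)).1 - s.tip.1| ∨
        g.L * g.M ≤ |(vert (s.dom g) s.A (s.p g)).2 - s.tip.2|) := by
  have h1 := far_vert h h.arcsE.memp hne (Or.inl rfl)
  have h0 := h.p_pos
  have h2 : 2 ≤ s.p g := by
    rcases Nat.lt_or_ge 1 (s.p g) with h3 | h3
    · exact h3
    · exfalso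
      have h4 : s.p g = 0 + 1 := by omega
      have h5 : vert (s.dom g) s.A (s.p g) = rg s.A := by
        rw [h4, vert_succ]
        rfl
      rw [h5] at h1
      have h6 := lf_bd s.A
      have h7 := rg_bd s.A
      have e1 : s.tip = lf s.A := rfl
      rw [e1, le_abs, le_abs] at h1
      omega
  have h3 : s.p g - 1 < cyl (s.dom g) s.A := by
    have := h.p_le
    have := h.q_lt
    omega
  obtain ⟨h4, h5⟩ := wall h h3 (Or.inl (by omega))
  exact ⟨h2, h4, h5, h1⟩

end Pool.Agent.SixB.CntH
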