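import Mathlib.Data.Finset.Max
import Mathlib.Data.Finset.Card
import Mathlib.Data.Nat.Find
import Mathlib.Order.Interval.Finset.Nat
import Mathlib.Tactic.Linarith

/-!
# Step 8, number of moves: the injection (Claims B, C, D of S8Count)

`v t i` (`i < len t`) is the side number `i`, counted FROM THE TARGET, of one part (odd or even) of the contour of
the true domain at time `t`; `β x` is the birth of the side `x`: `0` for a side of the first domain, `u + 1` if the
outer face of `x` was visited for the first time at the time `u`. The contour is a stack (`Stk`).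

A mark `m` is a small move at the time `τ m` (equal times allowed): its barrier joins the tip to the side number
`e m` (in the zone `p`), the side number `h m > e m` is in the zone `q`. Claim A: the sides `h m'` of later marks
which are old at the time `τ m` are beyond `e m`.

* `Marks.le`: the number of marks is at most `K₀ + K₁ + 1` if the first contour has at most `K₀` disjoint
  pairs (p side, q side) and the strand has at most `K₁` disjoint pairs (visit of `p`, visit of `q`);
* `Prs P Q T k`: `k` disjoint pairs; `Prs.alt`: `k + 1` disjoint pairs give `k` passages Q, P, Q.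
-/

set_option autoImplicit false

namespace Pool.Agent.SixB.StkC

open Finset

/-- `k` disjoint pairs `(x, y)`, `x < y < T`, of indices with `P x` and `Q y`. -/
def Prs (P Q : ℕ → Prop) (T k : ℕ) : Prop :=
  ∃ s : Finset (ℕ × ℕ), s.card = k ∧ (∀ z ∈ s, z.1 < z.2 ∧ z.2 < T ∧ P z.1 ∧ Q z.2) ∧
    ∀ z ∈ s, ∀ z' ∈ s, z ≠ z' → z.2 < z'.1 ∨ z'.2 < z.1

/-- `k` passages Q, P, Q before the time `N` (form of S8CountP). -/
def Alt (P Q : ℕ → Prop) (N k : ℕ) : Prop :=
  ∃ i : ℕ → ℕ, (∀ l < 2 * k, i l < i (l + 1)) ∧ i (2 * k) ≤ N ∧ (∀ l ≤ k, Q (i (2 * l))) ∧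
    ∀ l < k, P (i (2 * l + 1))

theorem Prs.mono {P Q : ℕ → Prop} {T k k' : ℕ} (h : Prs P Q T k) (hk : k' ≤ k) : Prs P Q T k' := by
  obtain ⟨s, h1, h2, h3⟩ := h
  obtain ⟨s', hs', hc⟩ := Finset.exists_subset_card_eq (hk.trans h1.ge)
  exact ⟨s', hc, fun z hz => h2 z (hs' hz), fun z hz z' hz' => h3 z (hs' hz) z' (hs' hz')⟩

/-- The pairs in their order. -/
theorem Prs.exists_seq {P Q : ℕ → Prop} {T : ℕ} : ∀ {k : ℕ}, Prs P Q T k → ∃ a b : ℕ → ℕ,
    (∀ l < k, a l < b l ∧ b l < T ∧ P (a l) ∧ Q (b l)) ∧ ∀ l, l + 1 < k → b l < a (l + 1) := by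
  intro k
  induction k generalizing T with
  | zero => exact fun _ => ⟨fun _ => 0, fun _ => 0, fun l hl => absurd hl (Nat.not_lt_zero l),
      fun l hl => absurd hl (Nat.not_lt_zero _)⟩
  | succ k ih =>
    rintro ⟨s, h1, h2, h3⟩
    have hne : s.Nonempty := Finset.card_pos.1 (by omega)
    obtain ⟨z, hz, hmax⟩ := Finset.exists_max_image s (fun z => z.1) hne
    have hsub : Prs P Q z.1 k := by
      refine ⟨s.erase z, by rw [Finset.card_erase_of_mem hz, h1]; rfl, fun y hy => ?_, fun y hy y' hy' => ?_⟩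
      · obtain ⟨hyz, hys⟩ := Finset.mem_erase.1 hy
        obtain ⟨a1, a2, a3, a4⟩ := h2 y hys
        refine ⟨a1, ?_, a3, a4⟩
        rcases h3 y hys z hz hyz with h | h
        · exact h
        · have := hmax y hys
          have := (h2 z hz).1
          omega
      · exact h3 y (Finset.mem_of_mem_erase hy) y' (Finset.mem_of_mem_erase hy')
    obtain ⟨a, b, hab, hba⟩ := ih hsub
    refine ⟨fun l => if l < k then a l else z.1, fun l => if l < k then b l else z.2, fun l hl => ?_,
      fun l hl => ?_⟩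
    · by_cases hlk : l < k
      · simp only [if_pos hlk]
        obtain ⟨a1, a2, a3, a4⟩ := hab l hlk
        exact ⟨a1, a2.trans ((h2 z hz).1.trans (h2 z hz).2.1), a3, a4⟩
      · simp only [if_neg hlk]
        exact h2 z hz
    · have hlk : l < k := by omega
      simp only [if_pos hlk]
      by_cases hlk' : l + 1 < k
      · simp only [if_pos hlk']
        exact hba l hlk'
      · simp only [if_neg hlk']
        exact (hab l hlk).2.1

/-- `k + 1` disjoint pairs give `k` passages. -/
theorem Prs.alt {P Q : ℕ → Prop} {T k : ℕ} (h : Prs P Q T (k + 1)) : Alt P Q T k := by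
  obtain ⟨a, b, hab, hba⟩ := h.exists_seq
  refine ⟨fun l => if l % 2 = 0 then b (l / 2) else a (l / 2 + 1), fun l hl => ?_, ?_, fun l hl => ?_,
    fun l hl => ?_⟩
  · rcases Nat.mod_two_eq_zero_or_one l with h0 | h1
    · have e1 : (l + 1) % 2 = 1 := by omega
      have e2 : (l + 1) / 2 = l / 2 := by omega
      simp only [h0, e1, e2, if_true, one_ne_zero, if_false]
      exact hba _ (by omega)
    · have e1 : (l + 1) % 2 = 0 := by omega
      have e2 : (l + 1) / 2 = l / 2 + 1 := by omega
      simp only [h1, e1, e2, if_true, one_ne_zero, if_false]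
      exact (hab _ (by omega)).1
  · have e1 : 2 * k % 2 = 0 := by omega
    have e2 : 2 * k / 2 = k := by omega
    simp only [e1, e2, if_true]
    exact (hab k (by omega)).2.1.le
  · have e1 : 2 * l % 2 = 0 := by omega
    have e2 : 2 * l / 2 = l := by omega
    simp only [e1, e2, if_true]
    exact (hab l (by omega)).2.2.2
  · have e1 : (2 * l + 1) % 2 = 1 := by omega
    have e2 : (2 * l + 1) / 2 = l := by omega
    simp only [e1, e2, one_ne_zero, if_false]
    exact (hab (l + 1) (by omega)).2.2.1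

/-- `k` disjoint pairs from `k` numbers `m ∈ M` with pairs `(a m, b m)`. -/
theorem prs_of {P Q : ℕ → Prop} {T : ℕ} {M : Finset ℕ} {a b : ℕ → ℕ}
    (h : ∀ m ∈ M, a m < b m ∧ b m < T ∧ P (a m) ∧ Q (b m))
    (hd : ∀ m ∈ M, ∀ m' ∈ M, m < m' → b m < a m' ∨ b m' < a m) : Prs P Q T M.card := by
  classical
  have hd' : ∀ m ∈ M, ∀ m' ∈ M, m ≠ m' → b m < a m' ∨ b m' < a m := by
    intro m hm m' hm' hne
    rcases lt_or_gt_of_ne hne with h1 | h1
    · exact hd m hm m' hm' h1
    · exact (hd m' hm' m hm h1).symm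
  refine ⟨M.image fun m => (a m, b m), ?_, ?_, ?_⟩
  · refine Finset.card_image_of_injOn fun m hm m' hm' he => ?_
    by_contra hne
    have h1 : a m = a m' := (Prod.ext_iff.1 he).1
    have h2 : b m = b m' := (Prod.ext_iff.1 he).2
    have h3 := (h m hm).1
    have h4 := (h m' hm').1
    rcases hd' m hm m' hm' hne with h5 | h5 <;> omega
  · intro z hz
    obtain ⟨m, hm, rfl⟩ := Finset.mem_image.1 hz
    exact h m hm
  · intro z hz z' hz' hne
    obtain ⟨m, hm, rfl⟩ := Finset.mem_image.1 hz
    obtain ⟨m', hm', rfl⟩ := Finset.mem_image.1 hz'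
    exact hd' m hm m' hm' fun he => hne (by rw [he])

variable {S : Type*} {β : S → ℕ} {len : ℕ → ℕ} {v : ℕ → ℕ → S} {T : ℕ}

/-- One part of the contours of the domains at the times `t ≤ T`, sides numbered from the target: a stack. -/
structure Stk (β : S → ℕ) (len : ℕ → ℕ) (v : ℕ → ℕ → S) (T : ℕ) : Prop where
  birth : ∀ t ≤ T, ∀ i < len t, β (v t i) ≤ t
  old : ∀ s t, s ≤ t → t ≤ T → ∃ k, k ≤ len s ∧ (∀ i < k, v t i = v s i) ∧
    ∀ i, k ≤ i → i < len t → s < β (v t i)

/-- An old side has the same number as before. -/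
theorem Stk.eq (H : Stk β len v T) {s t i : ℕ} (hst : s ≤ t) (htT : t ≤ T) (hi : i < len t)
    (hb : β (v t i) ≤ s) : i < len s ∧ v t i = v s i := by
  obtain ⟨k, hk, h1, h2⟩ := H.old s t hst htT
  by_cases hik : i < k
  · exact ⟨lt_of_lt_of_le hik hk, h1 i hik⟩
  · have := h2 i (by omega) hi
    omega

/-- The births do not decrease in the direction of the tip. -/
theorem Stk.mono (H : Stk β len v T) {t i j : ℕ} (htT : t ≤ T) (hij : i ≤ j) (hj : j < len t) :
    β (v t i) ≤ β (v t j) := by
  rcases hij.eq_or_lt with rfl | hlt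
  · exact le_rfl
  by_contra hlt'
  push Not at hlt'
  have hs : β (v t j) ≤ t := H.birth t htT j hj
  obtain ⟨k, hk, h1, h2⟩ := H.old (β (v t j)) t hs htT
  have hjk : j < k := by
    by_contra hjk
    have := h2 j (by omega) hj
    omega
  have h3 := h1 i (by omega)
  have h4 := H.birth _ (hs.trans htT) i (by omega)
  rw [← h3] at h4
  omega

/-- The marks of one part of the contour and of one place of the net. -/
structure Marks (β : S → ℕ) (len : ℕ → ℕ) (v : ℕ → ℕ → S) (p q : S → Prop) (P Q : ℕ → Prop)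
    (T N : ℕ) (τ e h : ℕ → ℕ) : Prop where
  stk : Stk β len v T
  tau : ∀ m < N, τ m ≤ T
  mono : ∀ m m', m ≤ m' → m' < N → τ m ≤ τ m'
  PQ : ∀ u, P u → ¬ Q u
  pP : ∀ x u, β x = u + 1 → p x → P u
  qQ : ∀ x u, β x = u + 1 → q x → Q u
  ptau : ∀ m < N, P (τ m)
  eh : ∀ m < N, e m < h m
  hl : ∀ m < N, h m < len (τ m)
  pe : ∀ m < N, p (v (τ m) (e m))
  qh : ∀ m < N, q (v (τ m) (h m))
  claimA : ∀ m m', m < m' → m' < N → β (v (τ m') (h m')) ≤ τ m → h m' < e m

variable {p q : S → Prop} {P Q : ℕ → Prop} {N : ℕ} {τ e h : ℕ → ℕ}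

/-- **The number of marks.** -/
theorem Marks.le (H : Marks β len v p q P Q T N τ e h) {K₀ K₁ : ℕ}
    (h0 : ¬ Prs (fun i => p (v 0 i)) (fun i => q (v 0 i)) (len 0) (K₀ + 1))
    (h1 : ¬ Prs P Q T (K₁ + 1)) : N ≤ K₀ + K₁ + 1 := by
  classical
  -- the birth of the side `h m`
  set b : ℕ → ℕ := fun m => β (v (τ m) (h m)) with hb
  set w : ℕ → ℕ := fun m => β (v (τ m) (e m)) with hw
  have hbt : ∀ m < N, b m ≤ τ m := fun m hm => H.stk.birth _ (H.tau m hm) _ (H.hl m hm)
  have hwb : ∀ m < N, w m ≤ b m := fun m hm =>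
    H.stk.mono (H.tau m hm) (H.eh m hm).le (H.hl m hm)
  -- the q time
  have hQ : ∀ m < N, 0 < b m → Q (b m - 1) := fun m hm hpos =>
    H.qQ _ _ (by show b m = _; omega) (H.qh m hm)
  have hPw : ∀ m < N, 0 < w m → P (w m - 1) := fun m hm hpos =>
    H.pP _ _ (by show w m = _; omega) (H.pe m hm)
  -- comparison of two marks
  have cmp : ∀ m m', m < m' → m' < N → 0 < b m' →
      (τ m < b m' - 1 ∧ P (τ m)) ∨ (0 < w m ∧ b m' - 1 < w m - 1 ∧ h m' < e m) := by
    intro m m' hmm hm' hpos
    have hm : m < N := hmm.trans hm'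
    by_cases hc : b m' ≤ τ m
    · right
      have h2 : h m' < e m := H.claimA m m' hmm hm' hc
      have h3 : v (τ m') (h m') = v (τ m) (h m') :=
        (H.stk.eq (H.mono m m' hmm.le hm') (H.tau m' hm') (H.hl m' hm') hc).2
      have h4 : b m' ≤ w m := by
        show β (v (τ m') (h m')) ≤ β (v (τ m) (e m))
        rw [h3]
        exact H.stk.mono (H.tau m hm) h2.le ((H.eh m hm).trans (H.hl m hm))
      refine ⟨by omega, ?_, h2⟩
      rcases h4.eq_or_lt with h5 | h5
      · exfalso
        have h6 := hQ m' hm' hpos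
        rw [h5] at h6
        exact H.PQ _ (hPw m hm (by omega)) h6
      · omega
    · left
      push Not at hc
      refine ⟨?_, H.ptau m hm⟩
      have h5 : τ m ≤ b m' - 1 := by omega
      rcases h5.eq_or_lt with h6 | h6
      · exfalso
        have h7 := hQ m' hm' hpos
        rw [← h6] at h7
        exact H.PQ _ (H.ptau m hm) h7
      · exact h6
  -- the three kinds of marks
  set M₀ := (range N).filter fun m => b m = 0 with hM₀
  set M₁ := (range N).filter fun m => 0 < b m ∧ ∃ c < b m - 1, P c with hM₁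
  set M₂ := (range N).filter fun m => 0 < b m ∧ ¬ ∃ c < b m - 1, P c with hM₂
  have hcard : N ≤ M₀.card + M₁.card + M₂.card := by
    have hsub : range N ⊆ M₀ ∪ M₁ ∪ M₂ := by
      intro m hm
      rw [mem_union, mem_union, hM₀, hM₁, hM₂, mem_filter, mem_filter, mem_filter]
      rcases Nat.eq_zero_or_pos (b m) with h2 | h2
      · exact Or.inl (Or.inl ⟨hm, h2⟩)
      · by_cases h3 : ∃ c < b m - 1, P c
        · exact Or.inl (Or.inr ⟨hm, h2, h3⟩)
        · exact Or.inr ⟨hm, h2, h3⟩
    have := card_le_card hsub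
    rw [card_range] at this
    refine this.trans ((card_union_le _ _).trans ?_)
    have := card_union_le M₀ M₁
    omega
  -- Claim D
  have hc0 : M₀.card ≤ K₀ := by
    by_contra hlt
    push Not at hlt
    refine h0 (Prs.mono (prs_of (M := M₀) (a := e) (b := h) (fun m hm => ?_) fun m hm m' hm' hmm => ?_)
      hlt)
    · obtain ⟨hmN, hm0⟩ := mem_filter.1 hm
      rw [mem_range] at hmN
      have g1 := H.stk.eq (s := 0) (Nat.zero_le _) (H.tau m hmN) (H.hl m hmN) (le_of_eq hm0)
      have g2 := H.stk.eq (s := 0) (i := e m) (Nat.zero_le _) (H.tau m hmN)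
        ((H.eh m hmN).trans (H.hl m hmN)) (by
          have := hwb m hmN
          show w m ≤ 0
          omega)
      refine ⟨H.eh m hmN, g1.1, ?_, ?_⟩
      · show p (v 0 (e m))
        rw [← g2.2]
        exact H.pe m hmN
      · show q (v 0 (h m))
        rw [← g1.2]
        exact H.qh m hmN
    · obtain ⟨hmN, hm0⟩ := mem_filter.1 hm
      obtain ⟨hmN', hm0'⟩ := mem_filter.1 hm'
      rw [mem_range] at hmN hmN'
      exact Or.inr (H.claimA m m' hmm hmN' (by
        show b m' ≤ τ m
        omega))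
  -- Claim C
  have hc2 : M₂.card ≤ 1 := by
    rw [Finset.card_le_one]
    have key : ∀ m ∈ M₂, ∀ m' ∈ M₂, ¬ m < m' := by
      intro m hm m' hm' hmm
      obtain ⟨hmN, hm0, hmc⟩ := mem_filter.1 hm
      obtain ⟨hmN', hm0', hmc'⟩ := mem_filter.1 hm'
      rw [mem_range] at hmN hmN'
      rcases cmp m m' hmm hmN' hm0' with ⟨g1, g2⟩ | ⟨g1, g2, g3⟩
      · exact hmc' ⟨_, g1, g2⟩
      · have g4 := hwb m hmN
        rcases g4.eq_or_lt with g5 | g5
        · have g6 := hQ m hmN hm0
          rw [← g5] at g6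
          exact H.PQ _ (hPw m hmN g1) g6
        · exact hmc ⟨w m - 1, by omega, hPw m hmN g1⟩
    intro m hm m' hm'
    rcases lt_trichotomy m m' with g | g | g
    · exact absurd g (key m hm m' hm')
    · exact g
    · exact absurd g (key m' hm' m hm)
  -- Claim B
  have hc1 : M₁.card ≤ K₁ := by
    by_contra hlt
    push Not at hlt
    have hex : ∀ m ∈ M₁, ∃ c, c < b m - 1 ∧ P c ∧ ∀ c', c < c' → c' < b m - 1 → ¬ P c' := by
      intro m hm
      obtain ⟨hmN, hm0, c, hc, hPc⟩ := mem_filter.1 hm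
      have hfin : ((range (b m - 1)).filter P).Nonempty :=
        ⟨c, mem_filter.2 ⟨mem_range.2 hc, hPc⟩⟩
      obtain ⟨c', hc', hmax⟩ := Finset.exists_max_image _ id hfin
      obtain ⟨g1, g2⟩ := mem_filter.1 hc'
      refine ⟨c', mem_range.1 g1, g2, fun c'' g3 g4 g5 => ?_⟩
      have := hmax c'' (mem_filter.2 ⟨mem_range.2 g4, g5⟩)
      simp only [id] at this
      omega
    choose! c hc hPc hmax using hex
    refine h1 (Prs.mono (prs_of (M := M₁) (a := c) (b := fun m => b m - 1) (fun m hm => ?_)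
      fun m hm m' hm' hmm => ?_) hlt)
    · obtain ⟨hmN, hm0, -⟩ := mem_filter.1 hm
      rw [mem_range] at hmN
      refine ⟨hc m hm, ?_, hPc m hm, hQ m hmN hm0⟩
      have := hbt m hmN
      have := H.tau m hmN
      omega
    · obtain ⟨hmN, hm0, -⟩ := mem_filter.1 hm
      obtain ⟨hmN', hm0', -⟩ := mem_filter.1 hm'
      rw [mem_range] at hmN hmN'
      have g0 := hbt m hmN
      rcases cmp m m' hmm hmN' hm0' with ⟨g1, g2⟩ | ⟨g1, g2, g3⟩
      · left
        show b m - 1 < c m'
        by_contra hle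
        push Not at hle
        exact hmax m' hm' (τ m) (by omega) g1 g2
      · right
        show b m' - 1 < c m
        have g4 := hwb m hmN
        have g6 : w m < b m := by
          rcases g4.eq_or_lt with g5 | g5
          · exfalso
            have g6 := hQ m hmN hm0
            rw [← g5] at g6
            exact H.PQ _ (hPw m hmN g1) g6
          · exact g5
        by_contra hle
        push Not at hle
        exact hmax m hm (w m - 1) (by omega) (by omega) (hPw m hmN g1)
  omega

/-- The number of marks in terms of passages. -/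
theorem Marks.le_alt (H : Marks β len v p q P Q T N τ e h) {K₀ K₁ : ℕ}
    (h0 : ¬ Prs (fun i => p (v 0 i)) (fun i => q (v 0 i)) (len 0) (K₀ + 1))
    (h1 : ¬ Alt P Q T K₁) : N ≤ K₀ + K₁ + 1 := H.le h0 fun h => h1 h.alt

end Pool.Agent.SixB.StkC
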