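import Pool.Agent.Lib.SixB.S8ChainA
import Pool.Agent.Lib.SixB.S8ChainR
import Pool.Agent.Lib.SixB.S8OutInst

/-!
# Step 8, number of moves: the stages of a needle

For a configuration `ω`, a needle `j` and the last stage `N`: `Stgs N j a k` says that the stages `i ≤ N`
with `nfin i = j` are `a, …, a + k - 1`: the stage `a` is idle (the needle is placed), the others are
running, the coarse state before the stage `a + 1` has `ini = true` and the others have `ini = false`.

* `stages`: if there is a stage with `nfin = j` then `Stgs N j a k` for some `a`, with `k` the number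
  of these stages.
* `MvS s s' q D ω`: a move which is not the last one, from the state `s` to `s'`, with all the equations.
* `Stgs.mov`: the stages `a + 2, …, a + k - 2` are such moves, number `0, …, k - 4`, with the same needle
  `q` and the same `V`; `Stgs.t_mono`: the times are monotone. So `k ≤ 3 +` the number of these moves.
* `Stgs.rule`, `Stgs.V_eq`, `Stgs.p_eq`: the needle, the remaining set and the strand are those of the
  exploration `exR n (ruleT 𝔇 d n) j`.
-/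

set_option autoImplicit false

namespace Pool.Agent.SixB.CntJ

open Finset Pool.Agent.Perc Pool.Agent.PercT Pool.Agent.SixB
open Pool.Agent.SixB.Rule Pool.Agent.SixB.Dct Pool.Agent.SixB.Mv Pool.Agent.SixB.Tps
open Pool.Agent.SixB.Tru

/-! ### Counters -/

section Counter

variable {r : ℕ → Prop} {c : ℕ → ℕ} (h : Cnt r c)

include h

theorem fin_run {i : ℕ} (hi : r i) : fin r c i + 1 = c i := by
  have := h.pos hi
  unfold fin
  rw [if_pos hi]
  omega

omit h in
theorem fin_idle {i : ℕ} (hi : ¬ r i) : fin r c i = c i := by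
  unfold fin
  rw [if_neg hi]

/-- The values of the counter are a block. -/
theorem block {j N : ℕ} {a : ℕ} (ha : a ≤ N) (hj : fin r c a = j) (ha' : ∀ i < a, fin r c i ≠ j) :
    ∃ k, 1 ≤ k ∧ a + k ≤ N + 1 ∧ (∀ i ≤ N, fin r c i = j ↔ a ≤ i ∧ i < a + k) ∧
      (a + k ≤ N → fin r c (a + k) = j + 1) := by
  classical
  by_cases hex : ∃ b, b ≤ N ∧ j < fin r c b
  · have hs := Nat.find_spec hex
    set b := Nat.find hex with hb
    have hab : a < b := by
      by_contra hc
      have := h.fin_mono (Nat.le_of_not_lt hc)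
      omega
    have h1 : ∀ i, i < b → fin r c i ≤ j := by
      intro i hi
      by_contra hc
      exact Nat.find_min hex hi ⟨by omega, by omega⟩
    refine ⟨b - a, by omega, by omega, fun i hi => ⟨fun h2 => ⟨?_, ?_⟩, fun h2 => ?_⟩, fun _ => ?_⟩
    · by_contra hc
      exact ha' i (by omega) h2
    · by_contra hc
      have := h.fin_mono (show b ≤ i by omega)
      omega
    · have g1 := h.fin_mono h2.1
      have g2 := h1 i (by omega)
      omega
    · rw [Nat.add_sub_cancel' hab.le]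
      have g1 := h1 (b - 1) (by omega)
      have g2 := h.fin_succ (b - 1)
      rw [Nat.sub_add_cancel (by omega)] at g2
      omega
  · push Not at hex
    refine ⟨N + 1 - a, by omega, by omega, fun i hi => ⟨fun h2 => ⟨?_, by omega⟩, fun h2 => ?_⟩,
      fun h2 => by omega⟩
    · by_contra hc
      exact ha' i (by omega) h2
    · have g1 := h.fin_mono h2.1
      have g2 := hex i hi
      omega

/-- The first stage of a block is idle. -/
theorem first_idle {j a : ℕ} (hj : fin r c a = j) (ha' : ∀ i < a, fin r c i ≠ j) :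
    ¬ r a ∧ c a = j := by
  rcases Nat.eq_zero_or_pos a with h0 | h0
  · subst h0
    rw [h.fin_zero] at hj
    exact ⟨h.r0, by rw [h.c0, hj]⟩
  · have h1 := ha' (a - 1) (by omega)
    have h2 := h.fin_succ (a - 1)
    rw [Nat.sub_add_cancel h0] at h2
    obtain ⟨h3, h4⟩ := h.of_lt (i := a - 1) (by rw [Nat.sub_add_cancel h0]; omega)
    rw [Nat.sub_add_cancel h0] at h3 h4
    exact ⟨h3, by omega⟩

/-- The other stages of a block are running. -/
theorem block_run {j a i : ℕ} (hai : a < i) (hi : fin r c i = j) (hi' : fin r c (i - 1) = j) :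
    r i ∧ c i = j + 1 := by
  have key : r i := by
    by_contra hc
    have h1 := fin_idle (c := c) hc
    by_cases h2 : r (i - 1)
    · have h3 := fin_run h h2
      have h4 := h.run _ h2
      rw [Nat.sub_add_cancel (by omega)] at h4
      omega
    · have h3 := fin_idle (c := c) h2
      have h4 := h.idle _ h2
      rw [Nat.sub_add_cancel (by omega)] at h4
      omega
  exact ⟨key, by rw [← fin_run h key, hi]⟩

end Counter

/-! ### The stages of a needle -/

variable {𝔇 : Dat} {d : ℕ → ℕ} {n N j a k : ℕ} {ω : Cfg}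

/-- The stages of the needle `j` up to `N` are `a, …, a + k - 1`. -/
structure Stgs (𝔇 : Dat) (d : ℕ → ℕ) (n : ℕ) (ω : Cfg) (N j a k : ℕ) : Prop where
  pos : 1 ≤ k
  le : a + k ≤ N + 1
  fin : ∀ i ≤ N, nfin 𝔇 d n ω i = j ↔ a ≤ i ∧ i < a + k
  /-- the stage `a` is idle -/
  idle : ¬ IsRn (stc 𝔇 d n ω a)
  ja : (stc 𝔇 d n ω a).j = j
  /-- the others are running -/
  run : ∀ i, a < i → i < a + k → IsRn (stc 𝔇 d n ω i)
  /-- the last one is the last one or the step is finished -/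
  last : a + k ≤ N → ¬ IsRn (stc 𝔇 d n ω (a + k))

/-- **The stages of a needle are a block.** -/
theorem exists_stgs (h : ∃ i ≤ N, nfin 𝔇 d n ω i = j) : ∃ a k, Stgs 𝔇 d n ω N j a k := by
  classical
  have hC := stc_cnt 𝔇 d n ω
  obtain ⟨i₀, hi₀, h0⟩ := h
  have hex : ∃ a, nfin 𝔇 d n ω a = j := ⟨i₀, h0⟩
  set a := Nat.find hex with ha
  have ha1 : nfin 𝔇 d n ω a = j := Nat.find_spec hex
  have ha2 : a ≤ i₀ := Nat.find_min' hex h0
  have ha3 : ∀ i < a, nfin 𝔇 d n ω i ≠ j := fun i hi => Nat.find_min hex hi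
  obtain ⟨k, hk1, hk2, hk3, hk4⟩ := block hC (ha2.trans hi₀) ha1 ha3
  obtain ⟨g1, g2⟩ := first_idle hC ha1 ha3
  refine ⟨a, k, hk1, hk2, hk3, g1, g2, fun i h1 h2 => ?_, fun h1 => ?_⟩
  · exact (block_run hC h1 ((hk3 i (by omega)).2 ⟨by omega, h2⟩)
      ((hk3 (i - 1) (by omega)).2 ⟨by omega, by omega⟩)).1
  · have h2 := hk4 h1
    have h3 := (hk3 (a + k - 1) (by omega)).2 ⟨by omega, by omega⟩
    have h4 := hC.of_lt (i := a + k - 1) (by
      rw [Nat.sub_add_cancel (by omega)]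
      have h5 : nfin 𝔇 d n ω (a + k - 1) = j := h3
      show nfin 𝔇 d n ω (a + k - 1) < nfin 𝔇 d n ω (a + k)
      have h6 : nfin 𝔇 d n ω (a + k) = j + 1 := h2
      omega)
    rw [Nat.sub_add_cancel (by omega)] at h4
    exact h4.1

namespace Stgs

/-- The number of the stages. -/
theorem card (h : Stgs 𝔇 d n ω N j a k) :
    #{i ∈ range (N + 1) | nfin 𝔇 d n ω i = j} = k := by
  have : ({i ∈ range (N + 1) | nfin 𝔇 d n ω i = j} : Finset ℕ) = Finset.Ico a (a + k) := by
    ext i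
    rw [Finset.mem_filter, Finset.mem_range, Finset.mem_Ico]
    constructor
    · rintro ⟨h1, h2⟩
      exact (h.fin i (by omega)).1 h2
    · intro h1
      have := h.le
      exact ⟨by omega, (h.fin i (by omega)).2 h1⟩
  rw [this, Nat.card_Ico]
  omega

theorem j_succ (h : Stgs 𝔇 d n ω N j a k) {i : ℕ} (h1 : a ≤ i) (h2 : i < a + k) :
    (stc 𝔇 d n ω (i + 1)).j = j + 1 := by
  have hC := stc_cnt 𝔇 d n ω
  induction i, h1 using Nat.le_induction with
  | base =>
    have h1 : (stc 𝔇 d n ω (a + 1)).j = (stc 𝔇 d n ω a).j + 1 := hC.idle a h.idle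
    rw [h1, h.ja]
  | succ i hi ih =>
    have h1 : (stc 𝔇 d n ω (i + 1 + 1)).j = (stc 𝔇 d n ω (i + 1)).j :=
      hC.run (i + 1) (h.run (i + 1) (by omega) h2)
    rw [h1]
    exact ih (by omega)

/-- The number of the needle in the states of the stages. -/
theorem cnt (h : Stgs 𝔇 d n ω N j a k) {i : ℕ} (h1 : a ≤ i) (h2 : i < a + k) :
    TruR.cnt 𝔇 d (tst 𝔇 d n ω i) = j + 1 := h.j_succ h1 h2

theorem ini_false (h : Stgs 𝔇 d n ω N j a k) {i : ℕ} (h1 : a < i) (h2 : i < a + k) :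
    (𝔇.cs d (tst 𝔇 d n ω i).x).ini = false := stc_ini (h.run i h1 h2)

theorem ini_true (h : Stgs 𝔇 d n ω N j a k) (hk : 1 < k) :
    (𝔇.cs d (tst 𝔇 d n ω a).x).ini = true := by
  have h1 : IsRn (stc 𝔇 d n ω (a + 1)) := h.run (a + 1) (by omega) (by omega)
  obtain ⟨L, M, ρ, h2⟩ := stc_step (𝔇 := 𝔇) (d := d) (n := n) (ω := ω) a
  have h3 : (stc 𝔇 d n ω (a + 1)).ini = true := by
    rw [h2] at h1 ⊢
    rw [mv_ini_none (run_none h.idle)]
    exact h1
  exact h3

/-- The rule of the scan gives the needle of the state after the idle stage. -/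
theorem rule (h : Stgs 𝔇 d n ω N j a k) :
    TruR.ruleT 𝔇 d n j (cfgE n ω) = (tst 𝔇 d n ω a).q := by
  refine TruR.rule_eq 𝔇 d n ?_ (h.cnt le_rfl (by have := h.pos; omega))
  cases a with
  | zero => exact h.ja
  | succ a => exact h.ja

/-- The coarse domain before the stage `i + 1`. -/
theorem dom (h : Stgs 𝔇 d n ω N j a k) {i : ℕ} (h1 : a ≤ i) (h2 : i + 1 < a + k) :
    ∃ D, (𝔇.cs d (tst 𝔇 d n ω i).x).run = some D :=
  Option.isSome_iff_exists.1 (h.run (i + 1) (by omega) h2)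

variable {q : Rule.Ndl}

/-- The needle and the remaining set do not change. -/
theorem q_V (h : Stgs 𝔇 d n ω N j a k) (hq : (tst 𝔇 d n ω a).q = some q) {i : ℕ} (h1 : a ≤ i)
    (h2 : i + 1 < a + k) : (tst 𝔇 d n ω i).q = some q ∧ (tst 𝔇 d n ω i).V = (tst 𝔇 d n ω a).V := by
  induction i, h1 using Nat.le_induction with
  | base => exact ⟨hq, rfl⟩
  | succ i hi ih =>
    obtain ⟨g1, g2⟩ := ih (by omega)
    obtain ⟨g3, g4, -⟩ := tst_stay (h.run (i + 1) (by omega) (by omega)) (h.run (i + 2) (by omega) h2) g1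
    exact ⟨g4, g3.trans g2⟩

/-- The times are monotone. -/
theorem t_mono (h : Stgs 𝔇 d n ω N j a k) (hq : (tst 𝔇 d n ω a).q = some q) {i i' : ℕ} (h1 : a ≤ i)
    (hi : i ≤ i') (h2 : i' + 1 < a + k) : (tst 𝔇 d n ω i).t ≤ (tst 𝔇 d n ω i').t := by
  induction i', hi using Nat.le_induction with
  | base => exact le_rfl
  | succ i' hi ih =>
    obtain ⟨g1, -⟩ := h.q_V hq (i := i') (by omega) (by omega)
    obtain ⟨-, -, g3⟩ := tst_stay (h.run (i' + 1) (by omega) (by omega))
      (h.run (i' + 2) (by omega) h2) g1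
    exact (ih (by omega)).trans g3

theorem t_start (h : Stgs 𝔇 d n ω N j a k) : (tst 𝔇 d n ω a).t = 0 := Tru.t_start h.idle

/-- The remaining set is the one of the scan. -/
theorem V_eq (h : Stgs 𝔇 d n ω N j a k) (hq : (tst 𝔇 d n ω a).q = some q) {i : ℕ} (h1 : a ≤ i)
    (h2 : i + 1 < a + k) : (tst 𝔇 d n ω i).V = rem n (TruR.ruleT 𝔇 d n) j ω :=
  TruR.run_V (h.q_V hq h1 h2).1 (h.cnt h1 (by omega))

/-- The strand is the one of the exploration of the rule. -/
theorem p_eq (h : Stgs 𝔇 d n ω N j a k) (hq : (tst 𝔇 d n ω a).q = some q) {i : ℕ} (h1 : a ≤ i)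
    (h2 : i + 1 < a + k) (t : ℕ) :
    pS (tst 𝔇 d n ω i).V q ω t = (exR n (TruR.ruleT 𝔇 d n) j).p ω t :=
  (TruR.run_p (h.q_V hq h1 h2).1 (h.cnt h1 (by omega)) t).symm

theorem v_eq (h : Stgs 𝔇 d n ω N j a k) (hq : (tst 𝔇 d n ω a).q = some q) {i : ℕ} (h1 : a ≤ i)
    (h2 : i + 1 < a + k) (s t : ℕ) :
    vS (tst 𝔇 d n ω i).V q ω s t = (exR n (TruR.ruleT 𝔇 d n) j).v ω s t :=
  (TruR.run_v (h.q_V hq h1 h2).1 (h.cnt h1 (by omega)) s t).symm

end Stgs

/-! ### The moves -/

/-- A move (void or not) which is not the last one. `D`: the coarse domain before the move. -/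
structure MvS (𝔇 : Dat) (d : ℕ → ℕ) (n : ℕ) (ω : Cfg) (s s' : TS) (q : Rule.Ndl) (D : Dom) :
    Prop where
  q₀ : s.q = some q
  q₁ : s'.q = some q
  V : s'.V = s.V
  run : (𝔇.cs d s.x).run = some D
  ini : (𝔇.cs d s.x).ini = false
  x : s'.x = mvR 𝔇 d n s q D false ω :: s.x
  nend : ¬ D.End (𝔇.gr d s.x D) (mvR 𝔇 d n s q D false ω)
  ok : (D.nx (𝔇.gr d s.x D) (mvR 𝔇 d n s q D false ω)).Ok
  run' : (𝔇.cs d s'.x).run = some (D.nx (𝔇.gr d s.x D) (mvR 𝔇 d n s q D false ω))
  ini' : (𝔇.cs d s'.x).ini = false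
  t : s'.t = mvT 𝔇 d n s q D false ω

/-- A stage with a running needle without `ini`, after which the coarse state is running, is a move. -/
theorem mvS_of {i : ℕ} {q : Rule.Ndl} (hq : (tst 𝔇 d n ω i).q = some q)
    (hi : (𝔇.cs d (tst 𝔇 d n ω i).x).ini = false)
    (hr : (𝔇.cs d (tst 𝔇 d n ω (i + 1)).x).run.isSome = true) :
    ∃ D, MvS 𝔇 d n ω (tst 𝔇 d n ω i) (tst 𝔇 d n ω (i + 1)) q D := by
  obtain ⟨D, hD, h1⟩ := tst_run hq
  set s := tst 𝔇 d n ω i with hs
  rw [hi] at h1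
  have hx : (tst 𝔇 d n ω (i + 1)).x = mvR 𝔇 d n s q D false ω :: s.x := by
    rw [h1, finS_x]
  have hxr : (𝔇.cs d (mvR 𝔇 d n s q D false ω :: s.x)).run.isSome = true := by rw [← hx]; exact hr
  obtain ⟨D', hD'⟩ := Option.isSome_iff_exists.1 hxr
  rw [finS_run hD'] at h1
  have hE : ¬ D.End (𝔇.gr d s.x D) (mvR 𝔇 d n s q D false ω) := by
    intro hE
    have h2 := mv_end (π := 𝔇.prm d) (L := msh d s.x.length) (M := msz 𝔇.kap d s.x.length) hD hi hE
    rw [𝔇.cs_cons, h2] at hD'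
    cases hD'
  have hO : (D.nx (𝔇.gr d s.x D) (mvR 𝔇 d n s q D false ω)).Ok := by
    by_contra hO
    have h2 := mv_bad (π := 𝔇.prm d) (L := msh d s.x.length) (M := msz 𝔇.kap d s.x.length) hD hi hO
    rw [𝔇.cs_cons, h2] at hD'
    cases hD'
  have h2 := mv_run (π := 𝔇.prm d) (L := msh d s.x.length) (M := msz 𝔇.kap d s.x.length) hD hi hE hO
  refine ⟨D, hq, ?_, ?_, hD, hi, hx, hE, hO, ?_, ?_, ?_⟩
  · rw [h1]
  · rw [h1]
  · rw [hx, 𝔇.cs_cons, h2]; rfl
  · rw [hx, 𝔇.cs_cons, h2]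
  · rw [h1]

namespace Stgs

variable {q : Rule.Ndl}

/-- **The stages are moves**: the move number `m < k - 3` is the stage `a + 2 + m`. -/
theorem mov (h : Stgs 𝔇 d n ω N j a k) (hq : (tst 𝔇 d n ω a).q = some q) {m : ℕ} (hm : m + 3 < k) :
    ∃ D, MvS 𝔇 d n ω (tst 𝔇 d n ω (a + 1 + m)) (tst 𝔇 d n ω (a + 1 + (m + 1))) q D :=
  mvS_of (i := a + 1 + m) (h.q_V hq (by omega) (by omega)).1 (h.ini_false (by omega) (by omega))
    (h.run (a + 1 + m + 2) (by omega) (by omega))

end Stgs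

/-- **The stages of the needle `j`.** `k` is the number of the stages `i ≤ N` with `nfin i = j`; if it is
positive then they are the stages `a, …, a + k - 1`; the stages `a + 2, …, a + k - 2` are moves which are
not the last one. -/
theorem stages (𝔇 : Dat) (d : ℕ → ℕ) (n : ℕ) (ω : Cfg) (N j : ℕ) :
    #{i ∈ range (N + 1) | nfin 𝔇 d n ω i = j} = 0 ∨
      ∃ a, Stgs 𝔇 d n ω N j a (#{i ∈ range (N + 1) | nfin 𝔇 d n ω i = j}) := by
  by_cases h : ∃ i ≤ N, nfin 𝔇 d n ω i = j
  · obtain ⟨a, k, hk⟩ := exists_stgs h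
    refine Or.inr ⟨a, ?_⟩
    rw [hk.card]
    exact hk
  · left
    rw [Finset.card_eq_zero, Finset.filter_eq_empty_iff]
    intro i hi h1
    exact h ⟨i, by rw [Finset.mem_range] at hi; omega, h1⟩

/-- The number of the stages is at most `T + 3` if every `Stgs` with more than `3` stages has at most `T`
moves which are not the last one. -/
theorem card_le {T : ℕ} (h : ∀ a k, Stgs 𝔇 d n ω N j a k → 3 < k → k - 3 ≤ T) :
    #{i ∈ range (N + 1) | nfin 𝔇 d n ω i = j} ≤ T + 3 := by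
  rcases stages 𝔇 d n ω N j with h0 | ⟨a, ha⟩
  · rw [h0]; omega
  · by_contra hc
    have := h a _ ha (by omega)
    omega

/-- **The form for the row `count`.** `K` is the number of the stages of the needle `j`; the state after
the stage `a` is the first one with `ini = false`; the stages `a + 1, …, a + K - 3` are moves which are
not the last one. -/
theorem stages_row {K : ℕ} (hK : #{i ∈ range (N + 1) | nfin 𝔇 d n ω i = j} = K) (h4 : 4 ≤ K)
    (hq : ∀ i < N, (𝔇.cs d (tst 𝔇 d n ω i).x).run.isSome = true →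
      (tst 𝔇 d n ω i).q.isSome = true) :
    ∃ (a : ℕ) (V : Finset (ℤ × ℤ)) (q : Rule.Ndl), a + K ≤ N + 2 ∧
      TruR.ruleT 𝔇 d n j (cfgE n ω) = some q ∧ rem n (TruR.ruleT 𝔇 d n) j ω = V ∧
      (∀ m, m + 2 < K → (tst 𝔇 d n ω (a + m)).V = V ∧ (tst 𝔇 d n ω (a + m)).q = some q ∧
        (𝔇.cs d (tst 𝔇 d n ω (a + m)).x).run.isSome = true ∧
        (𝔇.cs d (tst 𝔇 d n ω (a + m)).x).ini = false) ∧
      ∀ m, m + 3 < K → ∃ D, MvS 𝔇 d n ω (tst 𝔇 d n ω (a + m)) (tst 𝔇 d n ω (a + m + 1)) q D ∧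
        tst 𝔇 d n ω (a + m + 1) = ⟨V, some q, mvT 𝔇 d n (tst 𝔇 d n ω (a + m)) q D false ω,
          mvR 𝔇 d n (tst 𝔇 d n ω (a + m)) q D false ω :: (tst 𝔇 d n ω (a + m)).x⟩ := by
  rcases stages 𝔇 d n ω N j with h0 | ⟨a, ha⟩
  · omega
  rw [hK] at ha
  have hle := ha.le
  have h1 : (tst 𝔇 d n ω a).q.isSome = true :=
    hq a (by omega) (ha.run (a + 1) (by omega) (by omega))
  obtain ⟨q, hqa⟩ := Option.isSome_iff_exists.1 h1
  have hV : rem n (TruR.ruleT 𝔇 d n) j ω = (tst 𝔇 d n ω a).V :=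
    (ha.V_eq hqa le_rfl (by omega)).symm
  refine ⟨a + 1, (tst 𝔇 d n ω a).V, q, by omega, ha.rule.trans hqa, hV, fun m hm => ?_, fun m hm => ?_⟩
  · obtain ⟨g1, g2⟩ := ha.q_V hqa (i := a + 1 + m) (by omega) (by omega)
    exact ⟨g2, g1, ha.run (a + 1 + m + 1) (by omega) (by omega),
      ha.ini_false (by omega) (by omega)⟩
  · obtain ⟨D, hD⟩ := ha.mov hqa hm
    refine ⟨D, hD, ?_⟩
    obtain ⟨g1, g2⟩ := ha.q_V hqa (i := a + 1 + (m + 1)) (by omega) (by omega)
    have e : a + 1 + m + 1 = a + 1 + (m + 1) := rfl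
    rw [e]
    have e1 := hD.t
    have e2 := hD.x
    generalize hs : tst 𝔇 d n ω (a + 1 + (m + 1)) = s at g1 g2 e1 e2
    obtain ⟨V', q', t', x'⟩ := s
    simp only at g1 g2 e1 e2
    rw [g1, g2, e1, e2]

end Pool.Agent.SixB.CntJ

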