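import Pool.Agent.Lib.SixB.S8NearCountB

/-!
# Step 8, near miss: tightness of the number of visits

`visits_real`: `K` complete visits of an exploration with joined walls: `K + 1 ≤ 2 m + k₀ + k₁`, where
`m` bounds the number of the classes of the frozen faces which come near and there are `k_c` crossing
classes of colour `c` of fresh faces, pairwise not joined by fresh faces.

`pr_crN_stop`: crossing classes of the fresh faces off a stopping set. `pr_visits`, `pr_visits_four`: the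
probability of `K` complete visits with at most `m` classes of frozen faces is at most
`2 (C ((ρ + 1) / ρ') ^ α) ^ k` relative to the past if `2 m + 2 k ≤ K + 2`.
-/

set_option autoImplicit false

namespace Pool.Agent.SixB.Near

open Finset Pool.Agent.Perc Pool.Agent.PercT Pool.Agent.Perc6 Pool.Agent.SixB Pool.Agent.SixB.NearCut

/-- `K` complete visits of the exploration to the deep part of the box before the time `N`; the walls are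
joined and the frozen faces have at most `m` classes of each colour near the box of radius `ρ'`. -/
def Vis (E : Ex) (ω : Cfg) (z : ℤ × ℤ) (ρ ρ' R : ℤ) (N K m : ℕ) (rep : ℤ → ℕ → ℤ × ℤ) : Prop :=
  Nb (E.cf ω) (E.e ω) (hk E ω z ρ R N K) ∧ fa (E.e ω) ∉ Bx z R ∧ hk E ω z ρ R N K < N ∧ E.Wll ω ∧
    ∀ c : ℤ, (c = 0 ∨ c = 1) → ∀ x, E.Sid c ω 0 x →
      InR (z.1 - ρ') (z.1 + ρ') (z.2 - ρ') (z.2 + ρ') x →
      ∃ i < m, Conn (E.cf ω) ((E.U ω)ᶜ ∩ Bx z R) (rep c i) x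

/-- **Visits and crossing classes of fresh faces.** -/
theorem visits_real {E : Ex} {ω : Cfg} {z : ℤ × ℤ} {ρ ρ' R : ℤ} {N K m : ℕ}
    {rep : ℤ → ℕ → ℤ × ℤ} (hρ : ρ + 1 < ρ') (hR : ρ' ≤ R) (hK : 0 < K)
    (h : Vis E ω z ρ ρ' R N K m rep) :
    ∃ k₀ k₁, K + 1 ≤ 2 * m + k₀ + k₁ ∧ CrN ω 0 (E.U ω) z (ρ + 1) ρ' k₀ ∧
      CrN ω 1 (E.U ω) z (ρ + 1) ρ' k₁ := by
  obtain ⟨h1, h2, h3, h4, h5⟩ := h
  exact visits_split (V := fun _ => Set.univ) hρ hR hK h1 h2 h3 h4 Set.Subset.rfl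
    (fun c _ f hf hf' => absurd hf hf') (fun c _ v _ => Or.inl (Set.mem_univ v)) h5

/-- One of the two colours has many classes. -/
theorem visits_or {E : Ex} {ω : Cfg} {z : ℤ × ℤ} {ρ ρ' R : ℤ} {N K m k : ℕ}
    {rep : ℤ → ℕ → ℤ × ℤ} (hρ : ρ + 1 < ρ') (hR : ρ' ≤ R) (hK : 0 < K)
    (hk : 2 * m + 2 * k ≤ K + 2) (h : Vis E ω z ρ ρ' R N K m rep) :
    CrN ω 0 (E.U ω) z (ρ + 1) ρ' k ∨ CrN ω 1 (E.U ω) z (ρ + 1) ρ' k := by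
  obtain ⟨k₀, k₁, h1, h2, h3⟩ := visits_real hρ hR hK h
  rcases Nat.lt_or_ge k₀ k with h4 | h4
  · exact Or.inr (h3.le (by omega))
  · exact Or.inl (h2.le h4)

/-- **Crossing classes off a stopping set**: any bound for fixed sets of faces. -/
theorem pr_crN_of {W : Finset (ℤ × ℤ)} {c : ℤ} {z : ℤ × ℤ} {ρ R : ℤ} {k : ℕ} {q : ℝ}
    (hq : ∀ F : Set (ℤ × ℤ), F ⊆ (W : Set (ℤ × ℤ)) → pr W {ω | CrN ω c F z ρ R k} ≤ q)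
    {S : Cfg → Set (ℤ × ℤ)} (hS : StopS S) {A : Set Cfg} (hA : DetS S A)
    {U : Cfg → Set (ℤ × ℤ)} (hU : Adp S U) (hUW : ∀ ω ∈ A, U ω ⊆ (W : Set (ℤ × ℤ)))
    (hd : ∀ ω ∈ A, Disjoint (U ω) (S ω)) :
    pr W (A ∩ {ω | CrN ω c (U ω) z ρ R k}) ≤ q * pr W A := by
  refine pr_mix_le hS hA (fun ω => {ξ | CrN ξ c (U ω) z ρ R k}) _
    (fun ω hω => hq _ (hUW ω hω)) ?_
  intro ω hω ξ hξ
  have hag : ∀ f ∈ S ω, ω f = mix (S ω) ω ξ f := fun f hf => (mix_of_mem hf).symm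
  rw [Set.mem_ofPred_eq] at hξ ⊢
  rw [hU ω _ hag] at hξ
  refine (crN_iff fun f hf => ?_).1 hξ
  exact mix_of_notMem fun hfS => (Set.disjoint_left.1 (hd ω hω)) hf.1 hfS

/-- **Crossing classes off a stopping set**, power form. -/
theorem pr_crN_stop : ∃ C α : ℝ, 0 < C ∧ 0 < α ∧ ∀ (W : Finset (ℤ × ℤ))
    (S : Cfg → Set (ℤ × ℤ)), StopS S → ∀ A : Set Cfg, DetS S A → ∀ U : Cfg → Set (ℤ × ℤ), Adp S U →
    (∀ ω ∈ A, U ω ⊆ (W : Set (ℤ × ℤ))) → (∀ ω ∈ A, Disjoint (U ω) (S ω)) →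
    ∀ (c : ℤ) (z : ℤ × ℤ) (ρ R : ℤ) (k : ℕ), 1 ≤ ρ → ρ ≤ R →
    pr W (A ∩ {ω | CrN ω c (U ω) z ρ R k}) ≤ (C * ((ρ : ℝ) / R) ^ α) ^ k * pr W A := by
  obtain ⟨C, α, hC, hα, h⟩ := pr_crN
  refine ⟨C, α, hC, hα, fun W S hS A hA U hU hUW hd c z ρ R k h1 h2 => ?_⟩
  exact pr_crN_of (fun F hF => h W c F z ρ R k h1 h2 (Set.inter_subset_left.trans hF)) hS hA hU
    hUW hd

/-- **Crossing classes off a stopping set**, annuli of fixed shape. -/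
theorem pr_crN_stop_four : ∃ q : ℝ, 0 < q ∧ q < 1 ∧ ∀ (W : Finset (ℤ × ℤ))
    (S : Cfg → Set (ℤ × ℤ)), StopS S → ∀ A : Set Cfg, DetS S A → ∀ U : Cfg → Set (ℤ × ℤ), Adp S U →
    (∀ ω ∈ A, U ω ⊆ (W : Set (ℤ × ℤ))) → (∀ ω ∈ A, Disjoint (U ω) (S ω)) →
    ∀ (c : ℤ) (z : ℤ × ℤ) (ρ R : ℤ) (k : ℕ), 1 ≤ ρ → 4 * ρ ≤ R →
    pr W (A ∩ {ω | CrN ω c (U ω) z ρ R k}) ≤ q ^ k * pr W A := by
  obtain ⟨q, h0, h1, h⟩ := pr_crN_four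
  refine ⟨q, h0, h1, fun W S hS A hA U hU hUW hd c z ρ R k h2 h3 => ?_⟩
  exact pr_crN_of (fun F hF => h W c F z ρ R k h2 h3 (Set.inter_subset_left.trans hF)) hS hA hU
    hUW hd

/-- The visits from a bound for the crossing classes. -/
theorem pr_visits_of {W : Finset (ℤ × ℤ)} {E : Ex} {z : ℤ × ℤ} {ρ ρ' R : ℤ} {N K m k : ℕ} {q : ℝ}
    {A : Set Cfg} {rep : Cfg → ℤ → ℕ → ℤ × ℤ} (hρ : ρ + 1 < ρ') (hR : ρ' ≤ R) (hK : 0 < K)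
    (hk : 2 * m + 2 * k ≤ K + 2)
    (hq : ∀ c : ℤ, pr W (A ∩ {ω | CrN ω c (E.U ω) z (ρ + 1) ρ' k}) ≤ q * pr W A) :
    pr W (A ∩ {ω | Vis E ω z ρ ρ' R N K m (rep ω)}) ≤ 2 * q * pr W A := by
  have h1 : A ∩ {ω | Vis E ω z ρ ρ' R N K m (rep ω)} ⊆
      A ∩ {ω | CrN ω 0 (E.U ω) z (ρ + 1) ρ' k} ∪ A ∩ {ω | CrN ω 1 (E.U ω) z (ρ + 1) ρ' k} := by
    rintro ω ⟨hA, hV⟩
    rcases visits_or hρ hR hK hk hV with h | h
    · exact Or.inl ⟨hA, h⟩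
    · exact Or.inr ⟨hA, h⟩
  refine ((pr_mono W h1).trans (pr_union_le _ _ _)).trans ?_
  have h2 := hq 0
  have h3 := hq 1
  linarith

/-- **The number of visits is tight**, conditional on the past, power form. -/
theorem pr_visits : ∃ C α : ℝ, 0 < C ∧ 0 < α ∧ ∀ (W : Finset (ℤ × ℤ)) (E : Ex)
    (S : Cfg → Set (ℤ × ℤ)), E.Ok S → ∀ A : Set Cfg, DetS S A →
    (∀ ω ∈ A, E.U ω ⊆ (W : Set (ℤ × ℤ))) → (∀ ω ∈ A, Disjoint (E.U ω) (S ω)) →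
    ∀ (z : ℤ × ℤ) (ρ ρ' R : ℤ) (N K m k : ℕ) (rep : Cfg → ℤ → ℕ → ℤ × ℤ), 0 ≤ ρ → ρ + 1 < ρ' →
    ρ' ≤ R → 0 < K → 2 * m + 2 * k ≤ K + 2 →
    pr W (A ∩ {ω | Vis E ω z ρ ρ' R N K m (rep ω)}) ≤
      2 * (C * (((ρ + 1 : ℤ) : ℝ) / ρ') ^ α) ^ k * pr W A := by
  obtain ⟨C, α, hC, hα, h⟩ := pr_crN_stop
  refine ⟨C, α, hC, hα, fun W E S hE A hA hUW hd z ρ ρ' R N K m k rep h0 h1 h2 h3 h4 => ?_⟩
  exact pr_visits_of h1 h2 h3 h4 fun c =>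
    h W S hE.stop A hA E.U hE.U hUW hd c z (ρ + 1) ρ' k (by omega) (by omega)

/-- **The number of visits is tight**, conditional on the past, annuli of fixed shape. -/
theorem pr_visits_four : ∃ q : ℝ, 0 < q ∧ q < 1 ∧ ∀ (W : Finset (ℤ × ℤ)) (E : Ex)
    (S : Cfg → Set (ℤ × ℤ)), E.Ok S → ∀ A : Set Cfg, DetS S A →
    (∀ ω ∈ A, E.U ω ⊆ (W : Set (ℤ × ℤ))) → (∀ ω ∈ A, Disjoint (E.U ω) (S ω)) →
    ∀ (z : ℤ × ℤ) (ρ ρ' R : ℤ) (N K m k : ℕ) (rep : Cfg → ℤ → ℕ → ℤ × ℤ), 0 ≤ ρ →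
    4 * (ρ + 1) ≤ ρ' → ρ' ≤ R → 0 < K → 2 * m + 2 * k ≤ K + 2 →
    pr W (A ∩ {ω | Vis E ω z ρ ρ' R N K m (rep ω)}) ≤ 2 * q ^ k * pr W A := by
  obtain ⟨q, h0, h1, h⟩ := pr_crN_stop_four
  refine ⟨q, h0, h1, fun W E S hE A hA hUW hd z ρ ρ' R N K m k rep h2 h3 h4 h5 h6 => ?_⟩
  exact pr_visits_of (by omega) h4 h5 h6 fun c =>
    h W S hE.stop A hA E.U hE.U hUW hd c z (ρ + 1) ρ' k (by omega) h3

end Pool.Agent.SixB.Near
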