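import Pool.Agent.Lib.SixB.S8NearRed
import Pool.Agent.Lib.SixB.S8Fresh
import Pool.Agent.Lib.MP_6bd702_zc.Y017

/-!
# Step 8, near miss: the number of crossing classes is tight

`CrN ω c F z ρ R k`: there are `k` vertices of parity `c` in the box of radius `ρ` around `z` which are
joined by faces of `F` in the box `Bx z R` to the boundary of this box, and pairwise not joined there.
`F` is an arbitrary set of faces (`Set.univ`: the whole plane; the faces of a domain near its boundary).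

* `pr_crN`: the probability is at most `(C (ρ / R) ^ α) ^ k`.
* `pr_crN_four`: it is at most `q ^ k` if `4 ρ ≤ R`.
* `crN_tight`: tightness, also for a finite net of centres, both colours and any scale.
* `pr_crF`: the product bound for arbitrary sets of faces and vertices.
-/

set_option autoImplicit false

namespace Pool.Agent.SixB.Near

open Finset Pool.Agent.Perc Pool.Agent.PercT Pool.Agent.SixB

/-- There are `k` classes of colour `c` of the faces of `F` in the box `Bx z R` which meet the box of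
radius `ρ` and the boundary of `Bx z R`. -/
def CrN (ω : Cfg) (c : ℤ) (F : Set (ℤ × ℤ)) (z : ℤ × ℤ) (ρ R : ℤ) (k : ℕ) : Prop :=
  ∃ v : Fin k → ℤ × ℤ, (∀ i, par (v i) = c ∧ InR (z.1 - ρ) (z.1 + ρ) (z.2 - ρ) (z.2 + ρ) (v i) ∧
    ∃ x, ¬ InR (z.1 - (R - 1)) (z.1 + (R - 1)) (z.2 - (R - 1)) (z.2 + (R - 1)) x ∧
      Conn ω (F ∩ Bx z R) (v i) x) ∧ ∀ i j, i ≠ j → ¬ Conn ω (F ∩ Bx z R) (v i) (v j)

variable {ω ω' : Cfg} {c : ℤ} {F F' : Set (ℤ × ℤ)} {z w w' v : ℤ × ℤ} {ρ ρ' R R' : ℤ} {k k' : ℕ}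
  {S : Finset (ℤ × ℤ)}

theorem bx_eq (z : ℤ × ℤ) (R : ℤ) : Bx z R = (RFb z R : Finset (ℤ × ℤ)) := rfl

theorem bx_mono (h : R' ≤ R) : Bx z R' ⊆ Bx z R := by
  intro f hf
  rw [bx_eq, mem_coe] at hf ⊢
  exact RFb_mono h hf

theorem crN_zero : CrN ω c F z ρ R 0 := ⟨fun i => i.elim0, fun i => i.elim0, fun i => i.elim0⟩

/-- Fewer classes. -/
theorem CrN.le (h : CrN ω c F z ρ R k) (hk : k' ≤ k) : CrN ω c F z ρ R k' := by
  obtain ⟨v, h1, h2⟩ := h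
  exact ⟨fun i => v (Fin.castLE hk i), fun i => h1 _, fun i j hij => h2 _ _ fun h =>
    hij (Fin.castLE_injective hk h)⟩

/-- A larger inner box. -/
theorem CrN.mono (h : CrN ω c F z ρ R k) (hρ : ρ ≤ ρ') : CrN ω c F z ρ' R k := by
  obtain ⟨v, h1, h2⟩ := h
  refine ⟨v, fun i => ?_, h2⟩
  obtain ⟨a1, a2, a3⟩ := h1 i
  refine ⟨a1, ?_, a3⟩
  unfold InR at a2 ⊢
  omega

/-- A smaller outer box. -/
theorem CrN.anti (h : CrN ω c F z ρ R k) (h1 : ρ ≤ R') (h2 : R' ≤ R) : CrN ω c F z ρ R' k := by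
  obtain ⟨v, a, b⟩ := h
  refine ⟨v, fun i => ?_, fun i j hij h => b i j hij
    (Conn.mono (Set.inter_subset_inter_right _ (bx_mono h2)) h)⟩
  obtain ⟨a1, a2, x, a3, a4⟩ := a i
  refine ⟨a1, a2, ?_⟩
  unfold InR at a2 a3
  obtain ⟨w, hw, hw'⟩ := Conn.toBd (x₀ := z.1 - R') (x₁ := z.1 + R') (y₀ := z.2 - R')
    (y₁ := z.2 + R') a4 (by omega) (by omega)
  refine ⟨w, ?_, Conn.mono ?_ hw⟩
  · obtain ⟨h8, h9⟩ := hw'
    unfold InR
    omega
  · rintro f ⟨⟨h3, -⟩, h4⟩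
    exact ⟨h3, h4⟩

/-- Only the faces of `F` in the box matter. -/
theorem crN_iff (h : ∀ f ∈ F ∩ Bx z R, ω f = ω' f) : CrN ω c F z ρ R k ↔ CrN ω' c F z ρ R k := by
  have e : ∀ u v, Conn ω (F ∩ Bx z R) u v ↔ Conn ω' (F ∩ Bx z R) u v := fun u v =>
    GridA.conn_iff (ω := ω) (ω' := ω') (F ∩ Bx z R) (fun f hf => h f hf) u v
  simp only [CrN, e]

theorem depOn_crN (c : ℤ) (F : Set (ℤ × ℤ)) (z : ℤ × ℤ) (ρ R : ℤ) (k : ℕ) :
    DepOn (F ∩ Bx z R) {ω | CrN ω c F z ρ R k} := fun _ _ h => crN_iff h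

/-! ### Clusters as witnesses -/

open Classical in
/-- The open faces of colour `c` of the cluster of `w` in `S`. -/
noncomputable def KS (ω : Cfg) (c : ℤ) (S : Finset (ℤ × ℤ)) (w : ℤ × ℤ) : Finset (ℤ × ℤ) :=
  S.filter fun f => flip (parD c) ω f = true ∧
    ∃ p, IsCor f p ∧ (p.1 + p.2 - c) % 2 = 0 ∧ Conn ω S w p

theorem mem_KS {f : ℤ × ℤ} : f ∈ KS ω c S w ↔ f ∈ S ∧ flip (parD c) ω f = true ∧
    ∃ p, IsCor f p ∧ (p.1 + p.2 - c) % 2 = 0 ∧ Conn ω S w p := by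
  classical
  unfold KS
  rw [mem_filter]

theorem conn_KS (hw : (w.1 + w.2 - c) % 2 = 0) (h : Conn ω S w v) :
    Conn (flip (parD c) (cfg (KS ω c S w))) S w v := by
  induction h with
  | refl => exact Relation.ReflTransGen.refl
  | tail hab hb ih =>
    rename_i p q
    refine ih.tail ?_
    have hp : (p.1 + p.2 - c) % 2 = 0 := by
      have h1 : par p = par w := (Conn.par_eq hab).symm
      unfold par at h1
      omega
    obtain ⟨x, y, hf, hh⟩ := hb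
    have hD : flip (parD c) ω (x, y) = true := by
      unfold Perc.flip parD
      rcases hh with ⟨h1, ⟨rfl, rfl⟩ | ⟨rfl, rfl⟩⟩ | ⟨h1, ⟨rfl, rfl⟩ | ⟨rfl, rfl⟩⟩ <;>
        simp only at hp <;> rw [h1] <;> simp <;> omega
    have hcor : IsCor (x, y) p := by
      unfold IsCor
      rcases hh with ⟨h1, ⟨rfl, rfl⟩ | ⟨rfl, rfl⟩⟩ | ⟨h1, ⟨rfl, rfl⟩ | ⟨rfl, rfl⟩⟩ <;> simp
    have hK : (x, y) ∈ KS ω c S w := mem_KS.2 ⟨hf, hD, p, hcor, hp, hab⟩
    have he : flip (parD c) (cfg (KS ω c S w)) (x, y) = ω (x, y) := by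
      have h1 : cfg (KS ω c S w) (x, y) = true := by
        unfold cfg
        rw [decide_eq_true_eq]
        exact hK
      unfold Perc.flip at hD ⊢
      rw [h1]
      revert hD
      cases parD c (x, y) <;> cases ω (x, y) <;> simp
    exact ⟨x, y, hf, by rw [he]; exact hh⟩

/-- Two corners of an open face of the colour of the face bond. -/
theorem bond_of_corS {f p q : ℤ × ℤ} (hf : flip (parD c) ω f = true) (hfR : f ∈ S)
    (hp : IsCor f p) (hq : IsCor f q) (hp2 : (p.1 + p.2 - c) % 2 = 0)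
    (hq2 : (q.1 + q.2 - c) % 2 = 0) : Conn ω S p q := by
  by_cases hpq : p = q
  · subst hpq
    exact Relation.ReflTransGen.refl
  refine Relation.ReflTransGen.single ?_
  obtain ⟨x, y⟩ := f
  refine ⟨x, y, hfR, ?_⟩
  obtain ⟨p1, p2⟩ := p
  obtain ⟨q1, q2⟩ := q
  unfold IsCor at hp hq
  unfold Perc.flip parD at hf
  simp only [Prod.mk.injEq, not_and] at hp hq hp2 hq2 hpq hf ⊢
  by_cases h : (x + y - c) % 2 = 0
  · have hω : ω (x, y) = true := by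
      have : decide ((x + y - c) % 2 ≠ 0) = false := by simp [h]
      rw [this, Bool.false_xor] at hf
      exact hf
    left
    refine ⟨hω, ?_⟩
    omega
  · have hω : ω (x, y) = false := by
      have : decide ((x + y - c) % 2 ≠ 0) = true := by simp [h]
      rw [this, Bool.true_xor, Bool.not_eq_true'] at hf
      exact hf
    right
    refine ⟨hω, ?_⟩
    omega

theorem KS_disjoint (h : ¬ Conn ω S w w') : Disjoint (KS ω c S w) (KS ω c S w') := by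
  rw [Finset.disjoint_left]
  intro f hf hf'
  obtain ⟨h1, h2, p, h3, h4, h5⟩ := mem_KS.1 hf
  obtain ⟨-, -, p', h3', h4', h5'⟩ := mem_KS.1 hf'
  exact h (h5.trans ((bond_of_corS h2 h1 h3 h3' h4 h4').trans (Conn.symm h5')))

/-- The classes have disjoint witnesses. -/
theorem wit_of_crN (hS : (S : Set (ℤ × ℤ)) = F ∩ Bx z R) (h : CrN ω c F z ρ R k) :
    ω ∈ PercN.Wit (parD c) S (FArm c (S : Set (ℤ × ℤ)) z ρ R) k := by
  obtain ⟨v, h1, h2⟩ := h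
  rw [← hS] at h1 h2
  refine ⟨fun i => KS ω c S (v i), fun i f hf => (mem_KS.1 hf).1,
    fun i f hf => (mem_KS.1 hf).2.1, fun i j hij => KS_disjoint (h2 i j hij), fun i => ?_⟩
  obtain ⟨a1, a2, x, a3, a4⟩ := h1 i
  have hp : ((v i).1 + (v i).2 - c) % 2 = 0 := by
    unfold par at a1
    omega
  unfold InR at a2 a3
  exact ⟨v i, x, by omega, by omega, by omega, by omega, hp, by omega, conn_KS hp a4⟩

theorem incD_fArm (c : ℤ) (F : Set (ℤ × ℤ)) (z : ℤ × ℤ) (ρ R : ℤ) :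
    IncD (parD c) (FArm c F z ρ R) := by
  rintro ω ω' h ⟨u, v, a1, a2, a3, a4, a5, a6, a7⟩
  exact ⟨u, v, a1, a2, a3, a4, a5, a6, incD_conn c F a5 ω ω' h a7⟩

theorem pr_crN_le_pow (hρ : ρ ≤ R) {W : Finset (ℤ × ℤ)} (hW : F ∩ Bx z R ⊆ (W : Set (ℤ × ℤ)))
    (k : ℕ) : pr W {ω | CrN ω c F z ρ R k} ≤ (pr (RFb z R) (Perc.ArmB c z ρ R)) ^ k := by
  classical
  set S : Finset (ℤ × ℤ) := (RFb z R).filter fun f => f ∈ F with hS
  have hS' : (S : Set (ℤ × ℤ)) = F ∩ Bx z R := by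
    ext f
    rw [hS, mem_coe, mem_filter, bx_eq, Set.mem_inter_iff, mem_coe]
    exact and_comm
  have hSW : S ⊆ W := by
    intro f hf
    have := hW (hS' ▸ mem_coe.2 hf)
    exact mem_coe.1 this
  have hSR : S ⊆ RFb z R := filter_subset _ _
  rw [pr_eq_of_depOn (S := S) (hS' ▸ depOn_crN c F z ρ R k) hSW]
  refine (pr_mono _ fun ω hω => wit_of_crN hS' hω).trans ?_
  refine (PercN.pr_Wit_le (depOn_fArm c _ z ρ R) (incD_fArm c _ z ρ R) k).trans ?_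
  refine pow_le_pow_left₀ (pr_nonneg _ _) ?_ k
  rw [← pr_eq_of_depOn (depOn_fArm c (S : Set (ℤ × ℤ)) z ρ R) hSR]
  exact pr_mono _ (fArm_subset_armB hρ)

/-- **The number of crossing classes**, power form. -/
theorem pr_crN : ∃ C α : ℝ, 0 < C ∧ 0 < α ∧ ∀ (W : Finset (ℤ × ℤ)) (c : ℤ) (F : Set (ℤ × ℤ))
    (z : ℤ × ℤ) (ρ R : ℤ) (k : ℕ), 1 ≤ ρ → ρ ≤ R → F ∩ Bx z R ⊆ (W : Set (ℤ × ℤ)) →
    pr W {ω | CrN ω c F z ρ R k} ≤ (C * ((ρ : ℝ) / R) ^ α) ^ k := by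
  obtain ⟨C, α, hC, hα, h⟩ := oneArm
  refine ⟨C, α, hC, hα, fun W c F z ρ R k h1 h2 hW => ?_⟩
  exact (pr_crN_le_pow h2 hW k).trans (pow_le_pow_left₀ (pr_nonneg _ _) (h c z ρ R (by omega) h2) k)

/-- **The number of crossing classes**, annuli of fixed shape. -/
theorem pr_crN_four : ∃ q : ℝ, 0 < q ∧ q < 1 ∧ ∀ (W : Finset (ℤ × ℤ)) (c : ℤ) (F : Set (ℤ × ℤ))
    (z : ℤ × ℤ) (ρ R : ℤ) (k : ℕ), 1 ≤ ρ → 4 * ρ ≤ R → F ∩ Bx z R ⊆ (W : Set (ℤ × ℤ)) →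
    pr W {ω | CrN ω c F z ρ R k} ≤ q ^ k := by
  obtain ⟨c₀, h0, h1, h⟩ := PercL.oneArm_le_one_sub
  refine ⟨1 - c₀, by linarith, by linarith, fun W c F z ρ R k h2 h3 hW => ?_⟩
  exact (pr_crN_le_pow (by omega) hW k).trans (pow_le_pow_left₀ (pr_nonneg _ _)
    (h c z ρ R h2 h3 (RFb z R) (Subset.refl _)) k)

/-- Union over a finite set of centres. -/
theorem pr_crN_net : ∃ q : ℝ, 0 < q ∧ q < 1 ∧ ∀ (W : Finset (ℤ × ℤ)) (c : ℤ) (F : Set (ℤ × ℤ))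
    (Z : Finset (ℤ × ℤ)) (ρ R : ℤ) (k : ℕ), 1 ≤ ρ → 4 * ρ ≤ R →
    (∀ z ∈ Z, F ∩ Bx z R ⊆ (W : Set (ℤ × ℤ))) →
    pr W {ω | ∃ z ∈ Z, CrN ω c F z ρ R k} ≤ Z.card * q ^ k := by
  classical
  obtain ⟨q, h0, h1, h⟩ := pr_crN_four
  refine ⟨q, h0, h1, fun W c F Z ρ R k h2 h3 hW => ?_⟩
  induction Z using Finset.induction_on with
  | empty =>
    have e : {ω : Cfg | ∃ z ∈ (∅ : Finset (ℤ × ℤ)), CrN ω c F z ρ R k} = ∅ := by
      ext ω
      simp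
    have h4 : pr W (∅ : Set Cfg) = 0 := by
      rw [ProbA.pr_eq_sum]
      simp
    rw [e, h4]
    simp
  | insert z Z hz ih =>
    have e : {ω : Cfg | ∃ w ∈ insert z Z, CrN ω c F w ρ R k} ⊆
        {ω | CrN ω c F z ρ R k} ∪ {ω | ∃ w ∈ Z, CrN ω c F w ρ R k} := by
      rintro ω ⟨w, hw, hw'⟩
      rcases mem_insert.1 hw with rfl | hw
      · exact Or.inl hw'
      · exact Or.inr ⟨w, hw, hw'⟩
    have h4 := h W c F z ρ R k h2 h3 (hW z (mem_insert_self _ _))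
    have h5 := ih fun w hw => hW w (mem_insert_of_mem hw)
    rw [card_insert_of_notMem hz]
    push_cast
    refine ((pr_mono W e).trans (pr_union_le _ _ _)).trans ?_
    nlinarith

/-- **Tightness of the number of crossing classes**: both colours, a finite net, all scales and all
domains. -/
theorem crN_tight {η : ℝ} (hη : 0 < η) (N : ℕ) : ∃ k : ℕ, ∀ (W : Finset (ℤ × ℤ))
    (F : Set (ℤ × ℤ)) (Z : Finset (ℤ × ℤ)) (ρ R : ℤ), 1 ≤ ρ → 4 * ρ ≤ R → Z.card ≤ N →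
    (∀ z ∈ Z, F ∩ Bx z R ⊆ (W : Set (ℤ × ℤ))) →
    pr W {ω | ∃ z ∈ Z, ∃ c, (c = 0 ∨ c = 1) ∧ CrN ω c F z ρ R k} ≤ η := by
  obtain ⟨q, h0, h1, h⟩ := pr_crN_net
  obtain ⟨k, hk⟩ := exists_pow_lt_of_lt_one (show 0 < η / (2 * (N + 1)) by positivity) h1
  refine ⟨k, fun W F Z ρ R h2 h3 hN hW => ?_⟩
  have e : {ω : Cfg | ∃ z ∈ Z, ∃ c, (c = 0 ∨ c = 1) ∧ CrN ω c F z ρ R k} ⊆
      {ω | ∃ z ∈ Z, CrN ω 0 F z ρ R k} ∪ {ω | ∃ z ∈ Z, CrN ω 1 F z ρ R k} := by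
    rintro ω ⟨z, hz, c, rfl | rfl, hc⟩
    · exact Or.inl ⟨z, hz, hc⟩
    · exact Or.inr ⟨z, hz, hc⟩
  refine ((pr_mono W e).trans (pr_union_le _ _ _)).trans ?_
  have h4 := h W 0 F Z ρ R k h2 h3 hW
  have h5 := h W 1 F Z ρ R k h2 h3 hW
  have h6 : (Z.card : ℝ) * q ^ k ≤ η / 2 := by
    have h7 : (Z.card : ℝ) ≤ N := by exact_mod_cast hN
    have h8 : (0 : ℝ) ≤ q ^ k := by positivity
    calc (Z.card : ℝ) * q ^ k ≤ (N + 1) * (η / (2 * (N + 1))) :=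
          mul_le_mul (by linarith) hk.le h8 (by positivity)
      _ = η / 2 := by field_simp
  linarith

/-! ### Arbitrary sets of vertices -/

/-- There are `k` classes of colour `c` of the faces of `S` which meet `A` and `B`. -/
def CrF (ω : Cfg) (c : ℤ) (S : Finset (ℤ × ℤ)) (A B : Set (ℤ × ℤ)) (k : ℕ) : Prop :=
  ∃ v : Fin k → ℤ × ℤ, (∀ i, par (v i) = c ∧ v i ∈ A ∧ ∃ x ∈ B, Conn ω S (v i) x) ∧
    ∀ i j, i ≠ j → ¬ Conn ω S (v i) (v j)

/-- A vertex of `A` of parity `c` is joined to `B` by faces of `S`. -/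
def JnF (c : ℤ) (S : Finset (ℤ × ℤ)) (A B : Set (ℤ × ℤ)) : Set Cfg :=
  {ω | ∃ u ∈ A, ∃ x ∈ B, par u = c ∧ Conn ω S u x}

theorem depOn_crF (c : ℤ) (S : Finset (ℤ × ℤ)) (A B : Set (ℤ × ℤ)) (k : ℕ) :
    DepOn (S : Set (ℤ × ℤ)) {ω | CrF ω c S A B k} := by
  intro ω ω' h
  have e : ∀ u v, Conn ω S u v ↔ Conn ω' S u v := fun u v =>
    GridA.conn_iff (ω := ω) (ω' := ω') (S : Set (ℤ × ℤ)) (fun f hf => h f hf) u v
  simp only [CrF, Set.mem_ofPred_eq, e]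

theorem depOn_jnF (c : ℤ) (S : Finset (ℤ × ℤ)) (A B : Set (ℤ × ℤ)) :
    DepOn (S : Set (ℤ × ℤ)) (JnF c S A B) := by
  intro ω ω' h
  have e : ∀ u v, Conn ω S u v ↔ Conn ω' S u v := fun u v =>
    GridA.conn_iff (ω := ω) (ω' := ω') (S : Set (ℤ × ℤ)) (fun f hf => h f hf) u v
  simp only [JnF, Set.mem_ofPred_eq, e]

theorem incD_jnF (c : ℤ) (S : Finset (ℤ × ℤ)) (A B : Set (ℤ × ℤ)) :
    IncD (parD c) (JnF c S A B) := by
  rintro ω ω' h ⟨u, a1, x, a2, a3, a4⟩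
  have hp : (u.1 + u.2 - c) % 2 = 0 := by
    unfold par at a3
    omega
  exact ⟨u, a1, x, a2, a3, incD_conn c _ hp ω ω' h a4⟩

/-- **Product bound**: `k` pairwise not joined connections from `A` to `B` in a set of faces. -/
theorem pr_crF {W : Finset (ℤ × ℤ)} (hW : S ⊆ W) (c : ℤ) (A B : Set (ℤ × ℤ)) (k : ℕ) :
    pr W {ω | CrF ω c S A B k} ≤ (pr W (JnF c S A B)) ^ k := by
  rw [pr_eq_of_depOn (depOn_crF c S A B k) hW, pr_eq_of_depOn (depOn_jnF c S A B) hW]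
  refine (pr_mono _ ?_).trans (PercN.pr_Wit_le (depOn_jnF c S A B) (incD_jnF c S A B) k)
  rintro ω ⟨v, h1, h2⟩
  refine ⟨fun i => KS ω c S (v i), fun i f hf => (mem_KS.1 hf).1,
    fun i f hf => (mem_KS.1 hf).2.1, fun i j hij => KS_disjoint (h2 i j hij), fun i => ?_⟩
  obtain ⟨a1, a2, x, a3, a4⟩ := h1 i
  have hp : ((v i).1 + (v i).2 - c) % 2 = 0 := by
    unfold par at a1
    omega
  exact ⟨v i, a2, x, a3, a1, conn_KS hp a4⟩

end Pool.Agent.SixB.Near
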