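import Pool.Agent.Lib.SixB.S8ScanEx
import Pool.Agent.Lib.SixB.S8NearCount

/-!
# Step 8: the number of the wall classes

In the frozen configuration of a step of the scan the odd walls are rings of removed sites. The number
of the classes of the walls in a box (`rep`, `m` of `near_red`) is bounded by the number of the steps
and the number of the clusters of `ω` which cross the annulus.

* `Dm z r v`: the site `v` is in the box of radius `r` around `z`.
* `KC U z r`: king connections of removed sites in the box.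
* `Cov U z ρ r m`: `m` sites represent all the classes of removed sites in the box of radius `ρ`.
* `cov_box`, `cov_next`, `cov_steps`: the first state and the next states.
* `NdPc Q z r N₀`: the needle has at most `N₀` pieces in the box. `NdOK Q C N₀`: this holds for every box
  whose boundary does not meet a certain box of radius `C` (the hook).
* `wall_rep`, `wall_rep_ok`: the hypothesis `hrep` of `near_red` for the step `j` with
  `m = 4 + (j + 1) (N₀ + k + 2)` if at most `k` even clusters of `ω` cross the annulus.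
-/

set_option autoImplicit false

namespace Pool.Agent.SixB.WC

open Finset Pool.Agent.Perc Pool.Agent.PercU Pool.Agent.PercT Pool.Agent.PercX60
open Pool.Agent.PercO (mem_boxE' tl_eq hd_eq Kc Tc Oc)
open Pool.Agent.MP_6bd702.H23 (Ed ea eb ea_mk eb_true eb_false f1 f2)
open Pool.Agent.MP_6bd702.H60 (Out)
open Pool.Agent.SixB Pool.Agent.SixB.Rule Pool.Agent.SixB.Scan Pool.Agent.SixB.Dct
open Pool.Agent.SixB.Near (Bx CrN)

variable {z : ℤ × ℤ} {r ρ R : ℤ} {U U' : Finset (ℤ × ℤ)} {m n : ℕ}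

/-! ### Boxes of sites -/

/-- The site `v` is in the box of radius `r` around `z` (coordinates of the face grid). -/
def Dm (z : ℤ × ℤ) (r : ℤ) (v : ℤ × ℤ) : Prop :=
  z.1 - r ≤ v.1 + v.2 ∧ v.1 + v.2 ≤ z.1 + r ∧ z.2 - r ≤ v.1 - v.2 ∧ v.1 - v.2 ≤ z.2 + r

theorem dm_iff {v : ℤ × ℤ} :
    Dm z r v ↔ InR (z.1 - r) (z.1 + r) (z.2 - r) (z.2 + r) (phiV v) := Iff.rfl

theorem Dm.mono {v : ℤ × ℤ} (h : Dm z r v) (hr : r ≤ R) : Dm z R v := by
  unfold Dm at *
  omega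

/-- A king step. -/
def Kg (a b : ℤ × ℤ) : Prop := |a.1 - b.1| ≤ 1 ∧ |a.2 - b.2| ≤ 1

theorem kg_iff {a b : ℤ × ℤ} : Kg a b ↔ a.1 ≤ b.1 + 1 ∧ b.1 ≤ a.1 + 1 ∧ a.2 ≤ b.2 + 1 ∧
    b.2 ≤ a.2 + 1 := by
  unfold Kg
  rw [abs_le, abs_le]
  omega

theorem Kg.symm {a b : ℤ × ℤ} (h : Kg a b) : Kg b a := by
  rw [kg_iff] at *
  omega

/-- All the sites of a box are joined to one site by king steps which go in a given direction. -/
theorem to_corner (z : ℤ × ℤ) (hr : 1 ≤ r) {σ τ : ℤ} (hσ : σ = 1 ∨ σ = -1) (hτ : τ = 1 ∨ τ = -1) :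
    ∃ c, Dm z r c ∧ ∀ v, Dm z r v → Relation.ReflTransGen (fun a b => Kg a b ∧ Dm z r b ∧
      σ * (b.1 + b.2) + τ * (b.1 - b.2) ≤ σ * (a.1 + a.2) + τ * (a.1 - a.2)) v c := by
  obtain ⟨c, hc1, hc2⟩ : ∃ c : ℤ × ℤ, σ * (c.1 + c.2) = σ * z.1 - r ∧
      (τ * (c.1 - c.2) = τ * z.2 - r ∨ τ * (c.1 - c.2) = τ * z.2 - r + 1) := by
    obtain ⟨z1, z2⟩ := z
    by_cases h : (z1 - σ * r + (z2 - τ * r)) % 2 = 0
    · refine ⟨((z1 - σ * r + (z2 - τ * r)) / 2, (z1 - σ * r - (z2 - τ * r)) / 2), ?_⟩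
      rcases hσ with rfl | rfl <;> rcases hτ with rfl | rfl <;> simp only <;> omega
    · refine ⟨((z1 - σ * r + (z2 - τ * r + τ)) / 2, (z1 - σ * r - (z2 - τ * r + τ)) / 2), ?_⟩
      rcases hσ with rfl | rfl <;> rcases hτ with rfl | rfl <;> simp only <;> omega
  refine ⟨c, ?_, ?_⟩
  · unfold Dm
    rcases hσ with rfl | rfl <;> rcases hτ with rfl | rfl <;> omega
  have key : ∀ N : ℕ, ∀ v, Dm z r v →
      σ * (v.1 + v.2) - (σ * z.1 - r) + (τ * (v.1 - v.2) - (τ * z.2 - r)) < N →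
      Relation.ReflTransGen (fun a b => Kg a b ∧ Dm z r b ∧
        σ * (b.1 + b.2) + τ * (b.1 - b.2) ≤ σ * (a.1 + a.2) + τ * (a.1 - a.2)) v c := by
    intro N
    induction N with
    | zero =>
      intro v hv h
      exfalso
      unfold Dm at hv
      rcases hσ with rfl | rfl <;> rcases hτ with rfl | rfl <;> push_cast at h <;> omega
    | succ N ih =>
      intro v hv h
      obtain ⟨v1, v2⟩ := v
      push_cast at h
      by_cases h1 : σ * z.1 - r + 2 ≤ σ * (v1 + v2)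
      · refine Relation.ReflTransGen.head ⟨?_, ?_, ?_⟩ (ih (v1 - σ, v2 - σ) ?_ ?_)
        · rw [kg_iff]
          rcases hσ with rfl | rfl <;> simp only <;> omega
        · unfold Dm at hv ⊢
          rcases hσ with rfl | rfl <;> simp only at hv ⊢ <;> omega
        · rcases hσ with rfl | rfl <;> rcases hτ with rfl | rfl <;> simp only <;> omega
        · unfold Dm at hv ⊢
          rcases hσ with rfl | rfl <;> simp only at hv ⊢ <;> omega
        · rcases hσ with rfl | rfl <;> rcases hτ with rfl | rfl <;> simp only at h ⊢ <;> omega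
      · by_cases h2 : τ * z.2 - r + 2 ≤ τ * (v1 - v2)
        · refine Relation.ReflTransGen.head ⟨?_, ?_, ?_⟩ (ih (v1 - τ, v2 + τ) ?_ ?_)
          · rw [kg_iff]
            rcases hτ with rfl | rfl <;> simp only <;> omega
          · unfold Dm at hv ⊢
            rcases hτ with rfl | rfl <;> simp only at hv ⊢ <;> omega
          · rcases hσ with rfl | rfl <;> rcases hτ with rfl | rfl <;> simp only <;> omega
          · unfold Dm at hv ⊢
            rcases hτ with rfl | rfl <;> simp only at hv ⊢ <;> omega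
          · rcases hσ with rfl | rfl <;> rcases hτ with rfl | rfl <;> simp only at h ⊢ <;> omega
        · by_cases h3 : (v1, v2) = c
          · rw [h3]
          · refine Relation.ReflTransGen.single ⟨?_, ?_, ?_⟩
            · obtain ⟨c1, c2⟩ := c
              obtain ⟨z1, z2⟩ := z
              rw [kg_iff]
              unfold Dm at hv
              rw [Prod.mk.injEq] at h3
              simp only at hv hc1 hc2 h1 h2 h3 ⊢
              rcases hσ with rfl | rfl <;> rcases hτ with rfl | rfl <;> omega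
            · obtain ⟨c1, c2⟩ := c
              obtain ⟨z1, z2⟩ := z
              unfold Dm at hv ⊢
              simp only at hv hc1 hc2 h1 h2 ⊢
              rcases hσ with rfl | rfl <;> rcases hτ with rfl | rfl <;> omega
            · obtain ⟨c1, c2⟩ := c
              obtain ⟨z1, z2⟩ := z
              unfold Dm at hv
              rw [Prod.mk.injEq] at h3
              simp only at hv hc1 hc2 h1 h2 h3 ⊢
              rcases hσ with rfl | rfl <;> rcases hτ with rfl | rfl <;> omega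
  intro v hv
  exact key (σ * (v.1 + v.2) - (σ * z.1 - r) + (τ * (v.1 - v.2) - (τ * z.2 - r)) + 1).toNat v hv
    (by
      have := Int.self_le_toNat
        (σ * (v.1 + v.2) - (σ * z.1 - r) + (τ * (v.1 - v.2) - (τ * z.2 - r)) + 1)
      omega)

/-! ### Removed sites -/

private theorem rtg_mono {α : Type*} {p q : α → α → Prop} {a b : α} (h : ∀ a b, p a b → q a b)
    (hab : Relation.ReflTransGen p a b) : Relation.ReflTransGen q a b := by
  induction hab with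
  | refl => exact Relation.ReflTransGen.refl
  | tail _ h1 ih => exact ih.tail (h _ _ h1)

/-- King steps between removed sites in a box. -/
def KC (U : Finset (ℤ × ℤ)) (z : ℤ × ℤ) (r : ℤ) (a b : ℤ × ℤ) : Prop :=
  Relation.ReflTransGen (fun a b => Kg a b ∧ Dm z r b ∧ b ∉ U) a b

/-- `m` sites represent the classes of removed sites. -/
def Cov (U : Finset (ℤ × ℤ)) (z : ℤ × ℤ) (ρ r : ℤ) (m : ℕ) : Prop :=
  ∃ S : Finset (ℤ × ℤ), S.card ≤ m ∧ (∀ s ∈ S, Dm z r s ∧ s ∉ U) ∧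
    ∀ v, Dm z ρ v → v ∉ U → ∃ s ∈ S, KC U z r s v

theorem KC.mono {a b : ℤ × ℤ} (hU : U' ⊆ U) (h : KC U z r a b) : KC U' z r a b :=
  rtg_mono (fun _ _ h => ⟨h.1, h.2.1, fun h1 => h.2.2 (hU h1)⟩) h

theorem KC.symm {a b : ℤ × ℤ} (ha : Dm z r a) (ha' : a ∉ U) (h : KC U z r a b) : KC U z r b a := by
  unfold KC at *
  have key : Relation.ReflTransGen (fun a b => Kg a b ∧ Dm z r b ∧ b ∉ U) b a ∧ Dm z r b ∧ b ∉ U := by
    induction h with
    | refl => exact ⟨Relation.ReflTransGen.refl, ha, ha'⟩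
    | tail _ h1 ih =>
      exact ⟨Relation.ReflTransGen.head ⟨h1.1.symm, ih.2⟩ ih.1, h1.2⟩
  exact key.1

theorem KC.mem {a b : ℤ × ℤ} (ha : Dm z r a) (ha' : a ∉ U) (h : KC U z r a b) :
    Dm z r b ∧ b ∉ U := by
  rcases Relation.ReflTransGen.cases_tail h with rfl | ⟨c, -, h1⟩
  · exact ⟨ha, ha'⟩
  · exact h1.2

/-- The first state. -/
theorem cov_box (n : ℕ) (z : ℤ × ℤ) (hr : 1 ≤ r) (hρ : ρ ≤ r) : Cov (Box n) z ρ r 4 := by
  classical
  obtain ⟨c1, hc1, k1⟩ := to_corner z hr (Or.inl rfl : (1 : ℤ) = 1 ∨ _) (Or.inl rfl : (1 : ℤ) = 1 ∨ _)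
  obtain ⟨c2, hc2, k2⟩ := to_corner z hr (Or.inr rfl : (-1 : ℤ) = 1 ∨ _) (Or.inr rfl : (-1 : ℤ) = 1 ∨ _)
  obtain ⟨c3, hc3, k3⟩ := to_corner z hr (Or.inl rfl : (1 : ℤ) = 1 ∨ _) (Or.inr rfl : (-1 : ℤ) = 1 ∨ _)
  obtain ⟨c4, hc4, k4⟩ := to_corner z hr (Or.inr rfl : (-1 : ℤ) = 1 ∨ _) (Or.inl rfl : (1 : ℤ) = 1 ∨ _)
  refine ⟨({c1, c2, c3, c4} : Finset (ℤ × ℤ)).filter (fun c => c ∉ Box n), ?_, ?_, ?_⟩
  · refine (card_filter_le _ _).trans ?_
    exact (card_insert_le _ _).trans (Nat.succ_le_succ ((card_insert_le _ _).trans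
      (Nat.succ_le_succ ((card_insert_le _ _).trans (by simp)))))
  · intro s hs
    rw [mem_filter] at hs
    refine ⟨?_, hs.2⟩
    have h1 := hs.1
    simp only [mem_insert, mem_singleton] at h1
    rcases h1 with rfl | rfl | rfl | rfl <;> assumption
  · intro v hv hvB
    -- a direction in which the path stays outside
    have key : ∀ (σ τ : ℤ) (C : ℤ) (c : ℤ × ℤ), (∀ w : ℤ × ℤ,
        σ * (w.1 + w.2) + τ * (w.1 - w.2) ≤ C → w ∉ Box n) →
        σ * (v.1 + v.2) + τ * (v.1 - v.2) ≤ C →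
        Relation.ReflTransGen (fun a b => Kg a b ∧ Dm z r b ∧
          σ * (b.1 + b.2) + τ * (b.1 - b.2) ≤ σ * (a.1 + a.2) + τ * (a.1 - a.2)) v c →
        c ∉ Box n ∧ KC (Box n) z r c v := by
      intro σ τ C c hout hvC hp
      have h1 : KC (Box n) z r v c ∧ σ * (c.1 + c.2) + τ * (c.1 - c.2) ≤ C := by
        induction hp with
        | refl => exact ⟨Relation.ReflTransGen.refl, hvC⟩
        | tail _ h2 ih => exact ⟨ih.1.tail ⟨h2.1, h2.2.1, hout _ (h2.2.2.trans ih.2)⟩,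
            h2.2.2.trans ih.2⟩
      exact ⟨hout _ h1.2, h1.1.symm (hv.mono hρ) hvB⟩
    rw [mem_Box_iff] at hvB
    have hvB' : v.1 ≤ -1 ∨ (n : ℤ) + 1 ≤ v.1 ∨ v.2 ≤ -1 ∨ (n : ℤ) + 1 ≤ v.2 := by omega
    rcases hvB' with h | h | h | h
    · obtain ⟨h1, h2⟩ := key 1 1 (-2) c1 (fun w hw => by rw [mem_Box_iff]; omega) (by omega)
        (k1 v (hv.mono hρ))
      exact ⟨c1, by simp [h1], h2⟩
    · obtain ⟨h1, h2⟩ := key (-1) (-1) (-2 * (n : ℤ) - 2) c2 (fun w hw => by rw [mem_Box_iff]; omega)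
        (by omega) (k2 v (hv.mono hρ))
      exact ⟨c2, by simp [h1], h2⟩
    · obtain ⟨h1, h2⟩ := key 1 (-1) (-2) c3 (fun w hw => by rw [mem_Box_iff]; omega) (by omega)
        (k3 v (hv.mono hρ))
      exact ⟨c3, by simp [h1], h2⟩
    · obtain ⟨h1, h2⟩ := key (-1) 1 (-2 * (n : ℤ) - 2) c4 (fun w hw => by rw [mem_Box_iff]; omega)
        (by omega) (k4 v (hv.mono hρ))
      exact ⟨c4, by simp [h1], h2⟩

/-! ### The next state -/

private theorem rtg_rev {P : ℤ × ℤ → Prop} {a b : ℤ × ℤ} (ha : P a)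
    (h : Relation.ReflTransGen (fun a b => Kg a b ∧ P b) a b) :
    Relation.ReflTransGen (fun a b => Kg a b ∧ P b) b a := by
  have key : Relation.ReflTransGen (fun a b => Kg a b ∧ P b) b a ∧ P b := by
    induction h with
    | refl => exact ⟨Relation.ReflTransGen.refl, ha⟩
    | tail _ h4 ih => exact ⟨Relation.ReflTransGen.head ⟨h4.1.symm, ih.2⟩ ih.1, h4.2⟩
  exact key.1

theorem dm_conn {v w : ℤ × ℤ} (hr : 1 ≤ r) (hv : Dm z r v) (hw : Dm z r w) :
    Relation.ReflTransGen (fun a b => Kg a b ∧ Dm z r b) v w := by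
  obtain ⟨c, hc, k⟩ := to_corner z hr (Or.inl rfl : (1 : ℤ) = 1 ∨ _) (Or.inl rfl : (1 : ℤ) = 1 ∨ _)
  have h1 : Relation.ReflTransGen (fun a b => Kg a b ∧ Dm z r b) v c :=
    rtg_mono (fun _ _ h => ⟨h.1, h.2.1⟩) (k v hv)
  have h2 : Relation.ReflTransGen (fun a b => Kg a b ∧ Dm z r b) w c :=
    rtg_mono (fun _ _ h => ⟨h.1, h.2.1⟩) (k w hw)
  exact h1.trans (rtg_rev hw h2)

/-- A walk in the filled cluster from a site to the cluster or to any other site of the box. -/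
theorem walk {S : Set Ed} {a v w : ℤ × ℤ} (hr : 1 ≤ r) (hv : Dm z r v) (hv' : v ∈ Hul S a)
    (hw : Dm z r w) :
    (∃ u, u ∈ Kc S a ∧ Dm z r u ∧
      Relation.ReflTransGen (fun p q => Kg p q ∧ Dm z r q ∧ q ∈ Hul S a) v u) ∨
    Relation.ReflTransGen (fun p q => Kg p q ∧ Dm z r q ∧ q ∈ Hul S a) v w := by
  by_cases hno : ∃ u, u ∈ Kc S a ∧ Dm z r u ∧
      Relation.ReflTransGen (fun p q => Kg p q ∧ Dm z r q ∧ q ∈ Hul S a) v u
  · exact Or.inl hno
  · refine Or.inr ?_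
    have key : ∀ p, Relation.ReflTransGen (fun a b => Kg a b ∧ Dm z r b) v p →
        Relation.ReflTransGen (fun p q => Kg p q ∧ Dm z r q ∧ q ∈ Hul S a) v p ∧ Dm z r p ∧
          p ∈ Hul S a := by
      intro p hp
      induction hp with
      | refl => exact ⟨Relation.ReflTransGen.refl, hv, hv'⟩
      | @tail p q _ h1 ih =>
        obtain ⟨i1, i2, i3⟩ := ih
        have h2 : p ∉ Kc S a := fun h => hno ⟨p, h, i2, i1⟩
        have h3 : ∀ k : Cor, vtx k = p → fce k ∉ Out (Tc S a) := by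
          rcases i3 with h | h
          · exact absurd h h2
          · exact h
        have h4 : q ∈ Hul S a := hul_step h3 (by
          have := h1.1
          unfold Kg at this
          unfold PercO.sd
          exact max_le this.1 this.2)
        exact ⟨i1.tail ⟨h1.1, h1.2, h4⟩, h1.2, h4⟩
    exact (key w (dm_conn hr hv hw)).1

theorem notMem_stpQ {T : Finset Edg} {q : Ndl} {w : ℤ × ℤ}
    (h : w ∉ U ∨ w ∈ Hul ((cfQ T U q : Finset Edg) : Set Ed) q.2) : w ∉ stpQ T U q := by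
  intro h1
  have h2 := mem_stpQ.1 h1
  rcases h with h | h
  · exact h h2.1
  · exact h2.2 (by rw [swal_eq_hul]; exact h)

/-- **The next state.** -/
theorem cov_next {T : Finset Edg} {q : Ndl} (hC : Cov U z ρ r m) (hρ1 : 1 ≤ ρ) (hρ : ρ ≤ r)
    {P : Finset (ℤ × ℤ)}
    (hP1 : ∀ p ∈ P, Dm z r p ∧ p ∈ Kc ((cfQ T U q : Finset Edg) : Set Ed) q.2)
    (hP2 : ∀ v ∈ Kc ((cfQ T U q : Finset Edg) : Set Ed) q.2, Dm z ρ v → ∃ p ∈ P,
      Relation.ReflTransGen (fun a b => Kg a b ∧ Dm z r b ∧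
        b ∈ Kc ((cfQ T U q : Finset Edg) : Set Ed) q.2) p v) :
    Cov (stpQ T U q) z ρ r (m + 1 + P.card) := by
  classical
  obtain ⟨S, hS, hS1, hS2⟩ := hC
  have hKH : ∀ w, w ∈ Kc ((cfQ T U q : Finset Edg) : Set Ed) q.2 →
      w ∈ Hul ((cfQ T U q : Finset Edg) : Set Ed) q.2 := fun w hw => Or.inl hw
  -- the part which is covered by `S` and `P`
  have hold : ∀ v, Dm z ρ v → v ∉ U → ∃ s ∈ S, KC (stpQ T U q) z r s v := by
    intro v hv hvU
    obtain ⟨s, hs, h1⟩ := hS2 v hv hvU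
    exact ⟨s, hs, h1.mono stpQ_sub⟩
  have hclu : ∀ v ∈ Kc ((cfQ T U q : Finset Edg) : Set Ed) q.2, Dm z ρ v →
      ∃ p ∈ P, KC (stpQ T U q) z r p v := by
    intro v hv hvd
    obtain ⟨p, hp, h1⟩ := hP2 v hv hvd
    exact ⟨p, hp, rtg_mono
      (fun _ _ h => ⟨h.1, h.2.1, notMem_stpQ (Or.inr (hKH _ h.2.2))⟩) h1⟩
  have hhul : ∀ v w : ℤ × ℤ, Dm z ρ v → v ∈ Hul ((cfQ T U q : Finset Edg) : Set Ed) q.2 →
      Relation.ReflTransGen (fun p q' => Kg p q' ∧ Dm z ρ q' ∧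
        q' ∈ Hul ((cfQ T U q : Finset Edg) : Set Ed) q.2) v w → KC (stpQ T U q) z r w v := by
    intro v w hv hv' h
    have h1 : KC (stpQ T U q) z r v w := rtg_mono
      (fun _ _ h => ⟨h.1, h.2.1.mono hρ, notMem_stpQ (Or.inr h.2.2)⟩) h
    exact h1.symm (hv.mono hρ) (notMem_stpQ (Or.inr hv'))
  by_cases hex : ∃ v₀, Dm z ρ v₀ ∧ v₀ ∈ Hul ((cfQ T U q : Finset Edg) : Set Ed) q.2
  · obtain ⟨v₀, hv₀, hv₀'⟩ := hex
    refine ⟨insert v₀ (S ∪ P), ?_, ?_, ?_⟩
    · have h1 := card_insert_le v₀ (S ∪ P)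
      have h2 := card_union_le S P
      omega
    · intro s hs
      rw [mem_insert, mem_union] at hs
      rcases hs with rfl | hs | hs
      · exact ⟨hv₀.mono hρ, notMem_stpQ (Or.inr hv₀')⟩
      · exact ⟨(hS1 s hs).1, notMem_stpQ (Or.inl (hS1 s hs).2)⟩
      · exact ⟨(hP1 s hs).1, notMem_stpQ (Or.inr (hKH _ (hP1 s hs).2))⟩
    · intro v hv hv'
      by_cases hvU : v ∈ U
      · have hvS : v ∈ Hul ((cfQ T U q : Finset Edg) : Set Ed) q.2 := by
          rw [mem_stpQ] at hv'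
          by_contra h
          exact hv' ⟨hvU, by rw [swal_eq_hul]; exact h⟩
        rcases walk hρ1 hv hvS hv₀ with ⟨u, hu, hud, h1⟩ | h1
        · obtain ⟨p, hp, h2⟩ := hclu u hu hud
          refine ⟨p, ?_, h2.trans (hhul v u hv hvS h1)⟩
          rw [mem_insert, mem_union]
          exact Or.inr (Or.inr hp)
        · exact ⟨v₀, mem_insert_self _ _, hhul v v₀ hv hvS h1⟩
      · obtain ⟨s, hs, h1⟩ := hold v hv hvU
        refine ⟨s, ?_, h1⟩
        rw [mem_insert, mem_union]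
        exact Or.inr (Or.inl hs)
  · push Not at hex
    refine ⟨S ∪ P, ?_, ?_, ?_⟩
    · have h2 := card_union_le S P
      omega
    · intro s hs
      rw [mem_union] at hs
      rcases hs with hs | hs
      · exact ⟨(hS1 s hs).1, notMem_stpQ (Or.inl (hS1 s hs).2)⟩
      · exact ⟨(hP1 s hs).1, notMem_stpQ (Or.inr (hKH _ (hP1 s hs).2))⟩
    · intro v hv hv'
      have hvU : v ∉ U := by
        intro hvU
        refine hv' (mem_stpQ.2 ⟨hvU, ?_⟩)
        rw [swal_eq_hul]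
        exact hex v hv
      obtain ⟨s, hs, h1⟩ := hold v hv hvU
      exact ⟨s, mem_union_left _ hs, h1⟩

/-! ### Representatives -/

/-- Representatives of a relation without `k + 1` unrelated elements. -/
theorem exists_reps {α : Type*} [DecidableEq α] (V : Finset α) (rel : α → α → Prop)
    (hrefl : ∀ a ∈ V, rel a a) (hsymm : ∀ a b, rel a b → rel b a) {k : ℕ}
    (h : ¬ ∃ f : Fin (k + 1) → α, (∀ i, f i ∈ V) ∧ ∀ i j, i ≠ j → ¬ rel (f i) (f j)) :
    ∃ S ⊆ V, S.card ≤ k ∧ ∀ v ∈ V, ∃ s ∈ S, rel s v := by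
  classical
  set F : Finset (Finset α) := V.powerset.filter fun P => ∀ a ∈ P, ∀ b ∈ P, a ≠ b → ¬ rel a b
    with hF
  have hne : F.Nonempty := ⟨∅, by
    rw [hF, mem_filter]
    exact ⟨mem_powerset.2 (empty_subset _), fun a ha => absurd ha (notMem_empty a)⟩⟩
  obtain ⟨S, hS, hmax⟩ := exists_max_image F card hne
  rw [hF, mem_filter, mem_powerset] at hS
  refine ⟨S, hS.1, ?_, ?_⟩
  · by_contra hcard
    push Not at hcard
    obtain ⟨S', hS', hc'⟩ := exists_subset_card_eq (show k + 1 ≤ S.card by omega)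
    refine h ⟨fun i => ((S'.equivFinOfCardEq hc').symm i : α), fun i => ?_, fun i j hij => ?_⟩
    · exact hS.1 (hS' (Subtype.coe_prop _))
    · refine hS.2 _ (hS' (Subtype.coe_prop _)) _ (hS' (Subtype.coe_prop _)) ?_
      intro heq
      exact hij ((S'.equivFinOfCardEq hc').symm.injective (Subtype.ext heq))
  · intro v hv
    by_contra hno
    push Not at hno
    have hvS : v ∉ S := fun hvS => hno v hvS (hrefl v hv)
    have h1 : insert v S ∈ F := by
      rw [hF, mem_filter, mem_powerset]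
      refine ⟨insert_subset hv hS.1, fun a ha b hb hab => ?_⟩
      rw [mem_insert] at ha hb
      rcases ha with rfl | ha <;> rcases hb with rfl | hb
      · exact absurd rfl hab
      · exact fun hr => hno b hb (hsymm _ _ hr)
      · exact hno a ha
      · exact hS.2 a ha b hb hab
    have h2 := hmax _ h1
    rw [card_insert_of_notMem hvS] at h2
    omega

/-! ### Pieces of the cluster -/

/-- The needle has at most `N₀` pieces in the box. -/
def NdPc (Q : Finset Edg) (z : ℤ × ℤ) (r : ℤ) (N₀ : ℕ) : Prop :=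
  ∃ S : Finset (ℤ × ℤ), S.card ≤ N₀ ∧ (∀ s ∈ S, Dm z r s) ∧ ∀ f ∈ QF Q, f ∈ Bx z r →
    ∃ s ∈ S, Conn (gT (Q : Set Ed)) (QF Q ∩ Bx z r) (phiV s) (phiV (ea (eE f)))

/-- The needle has at most `N₀` pieces in every box whose boundary does not meet the box of radius `C`
around `a`. -/
def NdOK (Q : Finset Edg) (C : ℤ) (N₀ : ℕ) : Prop :=
  ∃ a : ℤ × ℤ, ∀ z r, (Bx a C ⊆ Bx z r ∨ Disjoint (Bx a C) (Bx z r)) → NdPc Q z r N₀

theorem phiV_inj : Function.Injective phiV := by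
  rintro ⟨x, y⟩ ⟨x', y'⟩ h
  simp only [phiV, Prod.mk.injEq] at h ⊢
  omega

theorem par_phiV' (v : ℤ × ℤ) : par (phiV v) = 0 := by
  unfold par phiV
  simp only
  omega

theorem mem_bx {f : ℤ × ℤ} : f ∈ Bx z r ↔
    z.1 - r ≤ f.1 ∧ f.1 < z.1 + r ∧ z.2 - r ≤ f.2 ∧ f.2 < z.2 + r := by
  unfold Bx
  rw [mem_coe, RF, mem_product, mem_Ico, mem_Ico]
  tauto

theorem bx_mono (h : r ≤ R) : Bx z r ⊆ Bx z R := by
  intro f hf
  rw [mem_bx] at *
  omega

/-- The ends of an edge are king neighbours. -/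
theorem kg_ends (e : Ed) : Kg (ea e) (eb e) := by
  obtain ⟨x, y, _ | _⟩ := e <;> rw [kg_iff] <;> simp only [ea_mk, eb_true, eb_false] <;> omega

/-- An open edge is a bond of its face. -/
theorem bond_face {S : Set Ed} {f : ℤ × ℤ} (he : eE f ∈ S) :
    Bond (gT S) {f} (phiV (ea (eE f))) (phiV (eb (eE f))) := by
  obtain ⟨X, Y⟩ := f
  by_cases h : (X + Y) % 2 = 0
  · have e1 : eE (X, Y) = ((X + Y) / 2, (X - Y) / 2, false) := by simp only [eE, h, if_true]
    have h1 := (gT_eE S (X, Y)).2 he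
    rw [e1] at h1 ⊢
    rw [ea_mk, eb_false]
    refine ⟨X, Y, rfl, Or.inl ⟨by simpa using h1, Or.inl ⟨?_, ?_⟩⟩⟩ <;>
    · simp only [phiV, Prod.mk.injEq]
      omega
  · have e1 : eE (X, Y) = ((X + Y + 1) / 2, (X - Y - 1) / 2, true) := by
      simp only [eE, h, if_false]
    have h1 := (gT_eE S (X, Y)).2 he
    rw [e1] at h1 ⊢
    rw [ea_mk, eb_true]
    refine ⟨X, Y, rfl, Or.inr ⟨by simpa using h1, Or.inl ⟨?_, ?_⟩⟩⟩ <;>
    · simp only [phiV, Prod.mk.injEq]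
      omega

theorem bond_or' {w : Cfg} {f p q p' q' : ℤ × ℤ} (h : Bond w {f} p q) (h' : Bond w {f} p' q') :
    (p' = p ∧ q' = q) ∨ (q' = p ∧ p' = q) := by
  obtain ⟨x, y, hf, h⟩ := h
  obtain ⟨x', y', hf', h'⟩ := h'
  rw [Set.mem_singleton_iff] at hf hf'
  rw [← hf'] at hf
  obtain ⟨rfl, rfl⟩ := Prod.mk.inj hf
  rcases h with ⟨h0, (⟨rfl, rfl⟩ | ⟨rfl, rfl⟩)⟩ | ⟨h0, (⟨rfl, rfl⟩ | ⟨rfl, rfl⟩)⟩ <;>
    rcases h' with ⟨h0', (⟨rfl, rfl⟩ | ⟨rfl, rfl⟩)⟩ | ⟨h0', (⟨rfl, rfl⟩ | ⟨rfl, rfl⟩)⟩ <;>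
    simp_all

theorem bond_face' {S : Set Ed} {f p q : ℤ × ℤ} (h : Bond (gT S) {f} p q) (hp : par p = 0) :
    eE f ∈ S ∧ ((p = phiV (ea (eE f)) ∧ q = phiV (eb (eE f))) ∨
      (p = phiV (eb (eE f)) ∧ q = phiV (ea (eE f)))) := by
  obtain ⟨X, Y⟩ := f
  obtain ⟨x, y, hxy, h⟩ := h
  rw [Set.mem_singleton_iff, Prod.mk.injEq] at hxy
  obtain ⟨rfl, rfl⟩ := hxy
  unfold par at hp
  rw [← gT_eE S (x, y)]
  by_cases hpar : (x + y) % 2 = 0
  · have e1 : eE (x, y) = ((x + y) / 2, (x - y) / 2, false) := by simp only [eE, hpar, if_true]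
    rw [e1, ea_mk, eb_false]
    rcases h with ⟨ht, (⟨rfl, rfl⟩ | ⟨rfl, rfl⟩)⟩ | ⟨ht, (⟨rfl, rfl⟩ | ⟨rfl, rfl⟩)⟩
    · refine ⟨by rw [ht]; rfl, Or.inl ⟨?_, ?_⟩⟩ <;>
      · simp only [phiV, Prod.mk.injEq]
        omega
    · refine ⟨by rw [ht]; rfl, Or.inr ⟨?_, ?_⟩⟩ <;>
      · simp only [phiV, Prod.mk.injEq]
        omega
    · simp only at hp
      omega
    · simp only at hp
      omega
  · have e1 : eE (x, y) = ((x + y + 1) / 2, (x - y - 1) / 2, true) := by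
      simp only [eE, hpar, if_false]
    rw [e1, ea_mk, eb_true]
    rcases h with ⟨ht, (⟨rfl, rfl⟩ | ⟨rfl, rfl⟩)⟩ | ⟨ht, (⟨rfl, rfl⟩ | ⟨rfl, rfl⟩)⟩
    · simp only at hp
      omega
    · simp only at hp
      omega
    · refine ⟨by rw [ht]; rfl, Or.inl ⟨?_, ?_⟩⟩ <;>
      · simp only [phiV, Prod.mk.injEq]
        omega
    · refine ⟨by rw [ht]; rfl, Or.inr ⟨?_, ?_⟩⟩ <;>
      · simp only [phiV, Prod.mk.injEq]
        omega

/-- A path in the box from a site of the cluster. -/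
theorem lc_path {S : Set Ed} {a v p : ℤ × ℤ} (hv : v ∈ Kc S a)
    (h : Conn (gT S) (Bx z r) (phiV v) p) : ∃ w ∈ Kc S a, p = phiV w ∧
      Relation.ReflTransGen (fun a' b => Kg a' b ∧ Dm z r b ∧ b ∈ Kc S a) v w := by
  refine conn_induct (P := fun p => ∃ w ∈ Kc S a, p = phiV w ∧
    Relation.ReflTransGen (fun a' b => Kg a' b ∧ Dm z r b ∧ b ∈ Kc S a) v w) h
    ⟨v, hv, rfl, Relation.ReflTransGen.refl⟩ ?_
  rintro p q f - ⟨w, hw, rfl, hp⟩ hf hb h1 h2
  obtain ⟨he, h3⟩ := bond_face' hb (par_phiV' w)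
  have hd : ∀ u, q = phiV u → Dm z r u := by
    rintro u rfl
    rw [mem_bx] at hf
    rw [dm_iff]
    obtain ⟨h4, h5⟩ := h2
    unfold InR
    omega
  rcases h3 with ⟨h3, h4⟩ | ⟨h3, h4⟩
  · have h5 := phiV_inj h3
    refine ⟨eb (eE f), ?_, h4, hp.tail ⟨?_, hd _ h4, ?_⟩⟩
    · exact PercO.eb_mem (PercO.mem_Tc_of_ea he (by rw [← h5]; exact hw))
    · rw [h5]; exact kg_ends _
    · exact PercO.eb_mem (PercO.mem_Tc_of_ea he (by rw [← h5]; exact hw))
  · have h5 := phiV_inj h3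
    refine ⟨ea (eE f), ?_, h4, hp.tail ⟨?_, hd _ h4, ?_⟩⟩
    · exact PercO.ea_mem (PercO.mem_Tc_of_eb he (by rw [← h5]; exact hw))
    · rw [h5]; exact (kg_ends _).symm
    · exact PercO.ea_mem (PercO.mem_Tc_of_eb he (by rw [← h5]; exact hw))

section Pieces

variable {ω : Cfg} {q : Ndl} {h N₀ k : ℕ}

/-- The cluster of the base is in the remaining set. -/
theorem kc_sub (hq : IsNdl h U q) {w : ℤ × ℤ} {T : Finset Edg}
    (hw : w ∈ Kc ((cfQ T U q : Finset Edg) : Set Ed) q.2) : w ∈ U := by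
  have hav : ∀ e ∈ cfQ T U q, ea e ∈ U ∧ eb e ∈ U := by
    intro e he
    rcases Finset.mem_union.1 he with h1 | h1
    · exact (Finset.mem_filter.1 h1).2
    · exact hq.ends e h1
  have hb : q.2 ∈ U := by
    have h1 := hq.base
    unfold qV at h1
    rw [mem_union, mem_image, mem_image] at h1
    rcases h1 with ⟨e, he, h2⟩ | ⟨e, he, h2⟩
    · rw [← h2]; exact (hq.ends e he).1
    · rw [← h2]; exact (hq.ends e he).2
  rw [← PercO.clV_eq] at hw
  induction hw with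
  | refl => exact hb
  | tail _ h1 _ =>
    obtain ⟨e, he, hh⟩ := h1
    rw [tl_eq, hd_eq] at hh
    have h2 := hav e he
    rcases hh with ⟨-, h3⟩ | ⟨h3, -⟩
    · rw [← h3]; exact h2.2
    · rw [← h3]; exact h2.1

/-- No edge of the needle in the piece of `v`, and not the base. -/
def Free (T : Finset Edg) (U : Finset (ℤ × ℤ)) (q : Ndl) (z : ℤ × ℤ) (r : ℤ) (v : ℤ × ℤ) : Prop :=
  (∀ f ∈ QF q.1, f ∈ Bx z r → ¬ Conn (gT ((cfQ T U q : Finset Edg) : Set Ed)) (Bx z r) (phiV v)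
    (phiV (ea (eE f)))) ∧
  (Dm z r q.2 → ¬ Conn (gT ((cfQ T U q : Finset Edg) : Set Ed)) (Bx z r) (phiV v) (phiV q.2))

theorem end_dm {f : ℤ × ℤ} (hf : f ∈ Bx z r) : Dm z r (ea (eE f)) ∧ Dm z r (eb (eE f)) := by
  have key : ∀ w, (ea (eE f) = w ∨ eb (eE f) = w) → Dm z r w := by
    intro w hw
    have h1 := sq_phiV.2 hw
    obtain ⟨h2, h3⟩ := h1
    rw [mem_bx] at hf
    rw [dm_iff]
    unfold InR
    omega
  exact ⟨key _ (Or.inl rfl), key _ (Or.inr rfl)⟩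

/-- A bond of `ω` in a face of the box of sites. -/
theorem bond_cfgE (n : ℕ) (ω : Cfg) {f p p' : ℤ × ℤ} (hf : f ∈ FU (Box n)) :
    Bond ω {f} p p' ↔ Bond (gT (cfgE n ω : Set Ed)) {f} p p' := by
  have h1 : eE f ∈ boxE n := eE_mem_boxE (Finset.Subset.refl _) hf
  have h2 : gT (cfgE n ω : Set Ed) f = ω f := by
    have := gT_cfgE (ω := ω) h1
    rwa [phiE_eE] at this
  exact ⟨fun h => Bond.congr h2.symm h, fun h => Bond.congr h2 h⟩

/-- The piece of a free site in the configuration of the step is a piece of `ω`. -/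
theorem free_conn (hI : Rule.Inv n (cfgE n ω) U) {v p : ℤ × ℤ}
    (hF : Free (cfgE n ω) U q z r v)
    (h : Conn (gT ((cfQ (cfgE n ω) U q : Finset Edg) : Set Ed)) (Bx z r) (phiV v) p) :
    Conn ω (FU (Box n) ∩ Bx z r) (phiV v) p := by
  refine (conn_induct (P := fun p => Conn ω (FU (Box n) ∩ Bx z r) (phiV v) p ∧ par p = 0) h
    ⟨Relation.ReflTransGen.refl, par_phiV' v⟩ ?_).1
  rintro p q' f hc ⟨hp, hpar⟩ hf hb h1 h2
  obtain ⟨he, h3⟩ := bond_face' hb hpar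
  have hq' : par q' = 0 := by
    rcases h3 with ⟨-, h4⟩ | ⟨-, h4⟩ <;> rw [h4] <;> exact par_phiV' _
  have hnQ : eE f ∉ q.1 := by
    intro hQ
    rcases h3 with ⟨h3, -⟩ | ⟨-, h3⟩
    · exact hF.1 f hQ hf (by rw [← h3]; exact hc)
    · exact hF.1 f hQ hf (by rw [← h3]; exact hc.tail (bond_of_single hf hb))
  have hr' : eE f ∈ rst (cfgE n ω) U := by
    rcases Finset.mem_union.1 he with h4 | h4
    · exact h4
    · exact absurd h4 hnQ
  obtain ⟨h4, h5, h6⟩ := Finset.mem_filter.1 hr'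
  have hfB : f ∈ FU (Box n) := ⟨hI.sub h5, hI.sub h6⟩
  refine ⟨hp.tail (bond_of_single ⟨hfB, hf⟩ ?_), hq'⟩
  rw [bond_cfgE n ω hfB]
  have h7 := bond_face (S := (cfgE n ω : Set Ed)) (f := f) h4
  rcases h3 with ⟨h3, h8⟩ | ⟨h3, h8⟩
  · rw [h3, h8]; exact h7
  · rw [h3, h8]; exact h7.symm

/-- A connection of `ω` from a site of the cluster is a connection of the configuration of the step. -/
theorem conn_free (hI : Rule.Inv n (cfgE n ω) U) (hq : IsNdl h U q) {v p : ℤ × ℤ}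
    (hv : v ∈ Kc ((cfQ (cfgE n ω) U q : Finset Edg) : Set Ed) q.2)
    (h : Conn ω (FU (Box n) ∩ Bx z r) (phiV v) p) :
    Conn (gT ((cfQ (cfgE n ω) U q : Finset Edg) : Set Ed)) (Bx z r) (phiV v) p := by
  refine (conn_induct (P := fun p =>
    Conn (gT ((cfQ (cfgE n ω) U q : Finset Edg) : Set Ed)) (Bx z r) (phiV v) p ∧ par p = 0) h
    ⟨Relation.ReflTransGen.refl, par_phiV' v⟩ ?_).1
  rintro p q' f - ⟨hp, hpar⟩ ⟨hfB, hf⟩ hb h1 h2
  rw [bond_cfgE n ω hfB] at hb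
  obtain ⟨he, h3⟩ := bond_face' hb hpar
  have hq' : par q' = 0 := by
    rcases h3 with ⟨-, h4⟩ | ⟨-, h4⟩ <;> rw [h4] <;> exact par_phiV' _
  obtain ⟨w, hw, hpw, -⟩ := lc_path hv hp
  have hwU := kc_sub hq hw
  have hnc := hI.noCross (eE f) he
  have hboth : ea (eE f) ∈ U ∧ eb (eE f) ∈ U := by
    rcases h3 with ⟨h3, -⟩ | ⟨h3, -⟩
    · have h4 : w = ea (eE f) := phiV_inj (by rw [← hpw, h3])
      rw [h4] at hwU
      exact ⟨hwU, hnc.1 hwU⟩
    · have h4 : w = eb (eE f) := phiV_inj (by rw [← hpw, h3])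
      rw [h4] at hwU
      exact ⟨hnc.2 hwU, hwU⟩
  have hmem : eE f ∈ ((cfQ (cfgE n ω) U q : Finset Edg) : Set Ed) :=
    Finset.mem_coe.2 (Finset.mem_union_left _ (Finset.mem_filter.2 ⟨he, hboth⟩))
  refine ⟨hp.tail (bond_of_single hf ?_), hq'⟩
  have h7 := bond_face hmem
  rcases h3 with ⟨h3, h8⟩ | ⟨h3, h8⟩
  · rw [h3, h8]; exact h7
  · rw [h3, h8]; exact h7.symm

theorem conn_rev {F : Set (ℤ × ℤ)} {ω' : Cfg} {p p' : ℤ × ℤ} (h : Conn ω' F p p') : Conn ω' F p' p := by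
  induction h with
  | refl => exact Relation.ReflTransGen.refl
  | tail _ hb ih => exact Relation.ReflTransGen.head hb.symm ih

/-- The piece of a free site reaches the boundary of the box. -/
theorem free_exit {T : Finset Edg} {v : ℤ × ℤ}
    (hv : v ∈ Kc ((cfQ T U q : Finset Edg) : Set Ed) q.2) (hvd : Dm z r v)
    (hF : Free T U q z r v) : ∃ x, ¬ InR (z.1 - (r - 1)) (z.1 + (r - 1)) (z.2 - (r - 1)) (z.2 + (r - 1)) x ∧
      Conn (gT ((cfQ T U q : Finset Edg) : Set Ed)) (Bx z r) (phiV v) x := by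
  by_contra hno
  push Not at hno
  have key : ∀ w, Pool.Agent.MP_6bd702.H23.Conn ((cfQ T U q : Finset Edg) : Set Ed) Set.univ v w →
      Dm z r w ∧ Conn (gT ((cfQ T U q : Finset Edg) : Set Ed)) (Bx z r) (phiV v) (phiV w) := by
    intro w hw
    unfold Pool.Agent.MP_6bd702.H23.Conn at hw
    induction hw with
    | refl => exact ⟨hvd, Relation.ReflTransGen.refl⟩
    | @tail w w' _ h2 ih =>
      obtain ⟨-, -, e, he, hh⟩ := h2
      obtain ⟨i1, i2⟩ := ih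
      have hin : InR (z.1 - (r - 1)) (z.1 + (r - 1)) (z.2 - (r - 1)) (z.2 + (r - 1)) (phiV w) := by
        by_contra hc
        exact hno _ hc i2
      have hsq : Sq (phiV w) (phiE e) := by
        rw [sq_phiV, eE_phiE]
        rcases hh with ⟨h3, -⟩ | ⟨-, h3⟩
        · exact Or.inl h3
        · exact Or.inr h3
      have hfB : phiE e ∈ Bx z r := by
        rw [mem_bx]
        obtain ⟨h3, h4⟩ := hsq
        unfold InR at hin
        omega
      have hb := bond_face (S := ((cfQ T U q : Finset Edg) : Set Ed)) (f := phiE e)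
        (by rw [eE_phiE]; exact he)
      have hd := end_dm hfB
      rw [eE_phiE] at hb hd
      rcases hh with ⟨h3, h4⟩ | ⟨h4, h3⟩
      · rw [h3, h4] at hb
        rw [h4] at hd
        exact ⟨hd.2, i2.tail (bond_of_single hfB hb)⟩
      · rw [h3, h4] at hb
        rw [h4] at hd
        exact ⟨hd.1, i2.tail (bond_of_single hfB hb.symm)⟩
  have h1 : Pool.Agent.MP_6bd702.H23.Conn ((cfQ T U q : Finset Edg) : Set Ed) Set.univ v q.2 :=
    Pool.Agent.MP_6bd702.H23.Conn.symm hv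
  obtain ⟨h2, h3⟩ := key _ h1
  exact hF.2 h2 h3

end Pieces

/-! ### All the steps -/

theorem dm_finite (z : ℤ × ℤ) (r : ℤ) : {v | Dm z r v}.Finite := by
  refine Set.Finite.subset ((Finset.Icc (z.1 - r) (z.1 + r) ×ˢ
    Finset.Icc (z.2 - r) (z.2 + r)).finite_toSet.preimage phiV_inj.injOn) ?_
  intro v hv
  rw [Set.mem_preimage, Finset.mem_coe, Finset.mem_product, Finset.mem_Icc, Finset.mem_Icc]
  exact ⟨⟨hv.1, hv.2.1⟩, hv.2.2.1, hv.2.2.2⟩

/-- **The pieces of the cluster of a step.** -/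
theorem pieces {ω : Cfg} {q : Ndl} {h N₀ k : ℕ} (hI : Rule.Inv n (cfgE n ω) U)
    (hq : IsNdl h U q) (hN : NdPc q.1 z r N₀) (hρ : ρ ≤ r)
    (hk : ¬ CrN ω 0 (FU (Box n)) z ρ r (k + 1)) : ∃ P : Finset (ℤ × ℤ), P.card ≤ N₀ + 1 + k ∧
      (∀ p ∈ P, Dm z r p ∧ p ∈ Kc ((cfQ (cfgE n ω) U q : Finset Edg) : Set Ed) q.2) ∧
      ∀ v ∈ Kc ((cfQ (cfgE n ω) U q : Finset Edg) : Set Ed) q.2, Dm z ρ v → ∃ p ∈ P,
        Relation.ReflTransGen (fun a b => Kg a b ∧ Dm z r b ∧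
          b ∈ Kc ((cfQ (cfgE n ω) U q : Finset Edg) : Set Ed) q.2) p v := by
  classical
  set K := Kc ((cfQ (cfgE n ω) U q : Finset Edg) : Set Ed) q.2 with hK
  set g := gT ((cfQ (cfgE n ω) U q : Finset Edg) : Set Ed) with hg
  obtain ⟨S₀, hS₀, hS₀d, hS₀c⟩ := hN
  -- the free sites
  have hfin : {v | v ∈ K ∧ Dm z ρ v ∧ Free (cfgE n ω) U q z r v}.Finite :=
    (dm_finite z ρ).subset fun v hv => hv.2.1
  obtain ⟨S₁, hS₁V, hS₁, hS₁c⟩ := exists_reps hfin.toFinset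
    (fun a b => Conn g (Bx z r) (phiV a) (phiV b)) (fun a _ => Relation.ReflTransGen.refl)
    (fun a b h => conn_rev h) (k := k) (by
      rintro ⟨f, hf, hf'⟩
      refine hk ⟨fun i => phiV (f i), fun i => ?_, fun i j hij => ?_⟩
      · have h1 := hf i
        rw [Set.Finite.mem_toFinset] at h1
        obtain ⟨h2, h3, h4⟩ := h1
        obtain ⟨x, hx, hx'⟩ := free_exit h2 (h3.mono hρ) h4
        exact ⟨par_phiV' _, h3, x, hx, free_conn hI h4 hx'⟩
      · intro hc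
        have h1 := hf i
        rw [Set.Finite.mem_toFinset] at h1
        exact hf' i j hij (conn_free hI hq h1.1 hc))
  -- the sites of the needle
  have hQg : ∀ {a b : ℤ × ℤ}, Conn (gT (q.1 : Set Ed)) (QF q.1 ∩ Bx z r) a b →
      Conn g (Bx z r) a b := by
    intro a b hab
    refine conn_induct (P := fun p => Conn g (Bx z r) a p) hab Relation.ReflTransGen.refl ?_
    rintro p p' f - hp ⟨hfQ, hf⟩ hb - -
    refine hp.tail (bond_of_single hf (Bond.congr ?_ hb))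
    rw [hg]
    refine (gT_congr ?_)
    constructor
    · exact fun h => Finset.mem_coe.2 (Finset.mem_union_right _ (Finset.mem_coe.1 h))
    · exact fun _ => Finset.mem_coe.2 hfQ
  refine ⟨(insert q.2 S₀).filter (fun s => s ∈ K ∧ Dm z r s) ∪ S₁, ?_, ?_, ?_⟩
  · have h1 := card_union_le ((insert q.2 S₀).filter fun s => s ∈ K ∧ Dm z r s) S₁
    have h2 := card_filter_le (insert q.2 S₀) fun s => s ∈ K ∧ Dm z r s
    have h3 := card_insert_le q.2 S₀
    omega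
  · intro p hp
    rw [mem_union, mem_filter] at hp
    rcases hp with hp | hp
    · exact ⟨hp.2.2, hp.2.1⟩
    · have h1 := hS₁V hp
      rw [Set.Finite.mem_toFinset] at h1
      exact ⟨h1.2.1.mono hρ, h1.1⟩
  · intro v hv hvd
    by_cases hF : Free (cfgE n ω) U q z r v
    · obtain ⟨s, hs, h1⟩ := hS₁c v (by rw [Set.Finite.mem_toFinset]; exact ⟨hv, hvd, hF⟩)
      have h2 := hS₁V hs
      rw [Set.Finite.mem_toFinset] at h2
      obtain ⟨w, -, hw2, hw3⟩ := lc_path h2.1 h1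
      rw [← phiV_inj hw2] at hw3
      exact ⟨s, mem_union_right _ hs, hw3⟩
    · -- a representative which is joined to `v`
      have key : ∀ s ∈ insert q.2 S₀, Dm z r s → Conn g (Bx z r) (phiV v) (phiV s) →
          ∃ p ∈ (insert q.2 S₀).filter (fun s => s ∈ K ∧ Dm z r s) ∪ S₁,
          Relation.ReflTransGen (fun a b => Kg a b ∧ Dm z r b ∧ b ∈ K) p v := by
        intro s hs hsd h3
        obtain ⟨w, hw1, hw2, -⟩ := lc_path hv h3
        have h4 : s ∈ K := by rw [phiV_inj hw2]; exact hw1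
        obtain ⟨w', -, hw2', hw3'⟩ := lc_path h4 (conn_rev h3)
        rw [← phiV_inj hw2'] at hw3'
        exact ⟨s, mem_union_left _ (mem_filter.2 ⟨hs, h4, hsd⟩), hw3'⟩
      unfold Free at hF
      rw [not_and_or] at hF
      rcases hF with hF | hF
      · push Not at hF
        obtain ⟨f, hfQ, hf, h1⟩ := hF
        obtain ⟨s, hs, h2⟩ := hS₀c f hfQ hf
        exact key s (mem_insert_of_mem hs) (hS₀d s hs)
          (Relation.ReflTransGen.trans h1 (conn_rev (hQg h2)))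
      · push Not at hF
        exact key q.2 (mem_insert_self _ _) hF.1 hF.2

/-- **All the steps.** -/
theorem cov_steps {ω : Cfg} {h N₀ k : ℕ} {Ru : Rul} (hR : RulOK n h Ru) (hρ1 : 1 ≤ ρ) (hρ : ρ ≤ r)
    (hk : ¬ CrN ω 0 (FU (Box n)) z ρ r (k + 1)) (j : ℕ)
    (hN : ∀ i < j, ∀ q, Ru i (cfgE n ω) = some q → NdPc q.1 z r N₀) :
    Cov (rem n Ru j ω) z ρ r (4 + j * (N₀ + k + 2)) := by
  induction j with
  | zero =>
    have : rem n Ru 0 ω = Box n := rfl
    rw [this]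
    simpa using cov_box n z (by omega) hρ
  | succ j ih =>
    have h1 := ih fun i hi => hN i (by omega)
    cases hq : Ru j (cfgE n ω) with
    | none =>
      rw [rem_succ_none ω hq]
      obtain ⟨S, hS, h2⟩ := h1
      refine ⟨S, hS.trans ?_, h2⟩
      exact Nat.add_le_add_left (Nat.mul_le_mul_right _ (Nat.le_succ j)) 4
    | some q =>
      rw [rem_succ ω hq]
      have hI : Rule.Inv n (cfgE n ω) (rem n Ru j ω) := inv_stR hR (DictB.cfgE_subset n ω) j
      have hnd : IsNdl h (rem n Ru j ω) q := hR.ndl _ (DictB.cfgE_subset n ω) j q hq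
      obtain ⟨P, hP, hP1, hP2⟩ := pieces hI hnd (hN j (by omega) q hq) hρ hk
      obtain ⟨S, hS, h2⟩ := cov_next h1 hρ1 hρ hP1 hP2
      refine ⟨S, hS.trans ?_, h2⟩
      have : (j + 1) * (N₀ + k + 2) = j * (N₀ + k + 2) + (N₀ + k + 2) := by ring
      omega

/-! ### Rings -/

/-- `x` is one of the four odd neighbours of the removed site `s`. -/
def Rg (s x : ℤ × ℤ) : Prop :=
  (x.1 = (phiV s).1 + 1 ∧ x.2 = (phiV s).2) ∨ (x.1 = (phiV s).1 - 1 ∧ x.2 = (phiV s).2) ∨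
    (x.1 = (phiV s).1 ∧ x.2 = (phiV s).2 + 1) ∨ (x.1 = (phiV s).1 ∧ x.2 = (phiV s).2 - 1)

/-- The bond of a closed edge. -/
theorem bond_odd {Q : Set Ed} {f : ℤ × ℤ} (h : eE f ∉ Q) :
    ((f.1 + f.2) % 2 = 0 → Bond (gT Q) {f} (f.1 + 1, f.2) (f.1, f.2 + 1)) ∧
    ((f.1 + f.2) % 2 = 1 → Bond (gT Q) {f} (f.1, f.2) (f.1 + 1, f.2 + 1)) := by
  have h1 : ¬ (gT Q f = !(eE f).2.2) := fun h2 => h ((gT_eE Q f).1 h2)
  obtain ⟨X, Y⟩ := f
  constructor
  · intro hp
    simp only at hp ⊢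
    have e1 : eE (X, Y) = ((X + Y) / 2, (X - Y) / 2, false) := by simp only [eE, hp, if_true]
    rw [e1] at h1
    exact ⟨X, Y, rfl, Or.inr ⟨by simpa using h1, Or.inr ⟨rfl, rfl⟩⟩⟩
  · intro hp
    simp only at hp ⊢
    have hp' : ¬ (X + Y) % 2 = 0 := by omega
    have e1 : eE (X, Y) = ((X + Y + 1) / 2, (X - Y - 1) / 2, true) := by
      simp only [eE, hp', if_false]
    rw [e1] at h1
    exact ⟨X, Y, rfl, Or.inl ⟨by simpa using h1, Or.inl ⟨rfl, rfl⟩⟩⟩

section Rings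

variable {Q : Finset Edg} {s x y : ℤ × ℤ}

/-- The faces around a removed site are closed and removed. -/
theorem sq_removed (hQ : ∀ e ∈ Q, ea e ∈ U ∧ eb e ∈ U) (hs : s ∉ U) {f : ℤ × ℤ} (hf : Sq (phiV s) f) :
    eE f ∉ (Q : Set Ed) ∧ f ∉ FU U := by
  rw [sq_phiV] at hf
  constructor
  · intro h
    have h1 := hQ _ (Finset.mem_coe.1 h)
    rcases hf with hf | hf
    · rw [hf] at h1; exact hs h1.1
    · rw [hf] at h1; exact hs h1.2
  · intro h
    rcases hf with hf | hf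
    · exact hs (by rw [← hf]; exact h.1)
    · exact hs (by rw [← hf]; exact h.2)

/-- The ring around a removed site. -/
theorem ring_conn (hQ : ∀ e ∈ Q, ea e ∈ U ∧ eb e ∈ U) (hs : s ∉ U) (hd : Dm z r s) (hr : r + 1 ≤ R)
    (hx : Rg s x) (hy : Rg s y) :
    Conn (gT (Q : Set Ed)) ((FU U \ QF Q)ᶜ ∩ Bx z R) x y := by
  obtain ⟨X, Y, hV⟩ : ∃ X Y, phiV s = (X, Y) := ⟨_, _, rfl⟩
  have hpar : (X + Y) % 2 = 0 := by
    have := par_phiV' s
    rw [hV] at this
    exact this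
  have hbox : z.1 - r ≤ X ∧ X ≤ z.1 + r ∧ z.2 - r ≤ Y ∧ Y ≤ z.2 + r := by
    rw [dm_iff, hV] at hd
    exact hd
  have hface : ∀ f : ℤ × ℤ, Sq (X, Y) f → f ∈ (FU U \ QF Q)ᶜ ∩ Bx z R ∧ eE f ∉ (Q : Set Ed) := by
    intro f hf
    have h1 := sq_removed hQ hs (f := f) (by rw [hV]; exact hf)
    refine ⟨⟨fun h => h1.2 h.1, ?_⟩, h1.1⟩
    rw [mem_bx]
    obtain ⟨h2, h3⟩ := hf
    simp only at h2 h3
    omega
  have h1 := hface (X, Y) ⟨Or.inl rfl, Or.inl rfl⟩
  have h2 := hface (X - 1, Y) ⟨Or.inr rfl, Or.inl rfl⟩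
  have h3 := hface (X, Y - 1) ⟨Or.inl rfl, Or.inr rfl⟩
  have h4 := hface (X - 1, Y - 1) ⟨Or.inr rfl, Or.inr rfl⟩
  have b1 : Bond (gT (Q : Set Ed)) ((FU U \ QF Q)ᶜ ∩ Bx z R) (X + 1, Y) (X, Y + 1) :=
    bond_of_single h1.1 ((bond_odd h1.2).1 (by simpa using hpar))
  have b2 : Bond (gT (Q : Set Ed)) ((FU U \ QF Q)ᶜ ∩ Bx z R) (X - 1, Y) (X, Y + 1) := by
    have := bond_of_single h2.1 ((bond_odd h2.2).2 (by simp only; omega))
    simpa using this
  have b3 : Bond (gT (Q : Set Ed)) ((FU U \ QF Q)ᶜ ∩ Bx z R) (X, Y - 1) (X + 1, Y) := by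
    have := bond_of_single h3.1 ((bond_odd h3.2).2 (by simp only; omega))
    simpa using this
  have key : ∀ w, Rg s w → Conn (gT (Q : Set Ed)) ((FU U \ QF Q)ᶜ ∩ Bx z R) (X + 1, Y) w := by
    rintro ⟨w1, w2⟩ hw
    unfold Rg at hw
    rw [hV] at hw
    simp only at hw
    rcases hw with ⟨rfl, rfl⟩ | ⟨rfl, rfl⟩ | ⟨rfl, rfl⟩ | ⟨rfl, rfl⟩
    · exact Relation.ReflTransGen.refl
    · exact (Relation.ReflTransGen.single b1).tail b2.symm
    · exact Relation.ReflTransGen.single b1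
    · exact Relation.ReflTransGen.single b3.symm
  exact Relation.ReflTransGen.trans (conn_rev (key x hx)) (key y hy)

theorem rg_iff {s x : ℤ × ℤ} : Rg s x ↔ (x.1 = s.1 + s.2 + 1 ∧ x.2 = s.1 - s.2) ∨
    (x.1 = s.1 + s.2 - 1 ∧ x.2 = s.1 - s.2) ∨ (x.1 = s.1 + s.2 ∧ x.2 = s.1 - s.2 + 1) ∨
    (x.1 = s.1 + s.2 ∧ x.2 = s.1 - s.2 - 1) := Iff.rfl

/-- The rings of king neighbours meet. -/
theorem rg_meet {a b : ℤ × ℤ} (h : Kg a b) : ∃ y, Rg a y ∧ Rg b y := by
  rw [kg_iff] at h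
  obtain ⟨a1, a2⟩ := a
  obtain ⟨b1, b2⟩ := b
  simp only at h
  have key : ∀ X Y : ℤ, (X = a1 + a2 + 1 ∧ Y = a1 - a2 ∨ X = a1 + a2 - 1 ∧ Y = a1 - a2 ∨
      X = a1 + a2 ∧ Y = a1 - a2 + 1 ∨ X = a1 + a2 ∧ Y = a1 - a2 - 1) →
      (X = b1 + b2 + 1 ∧ Y = b1 - b2 ∨ X = b1 + b2 - 1 ∧ Y = b1 - b2 ∨
      X = b1 + b2 ∧ Y = b1 - b2 + 1 ∨ X = b1 + b2 ∧ Y = b1 - b2 - 1) →
      ∃ y, Rg (a1, a2) y ∧ Rg (b1, b2) y := fun X Y h1 h2 => ⟨(X, Y), rg_iff.2 h1, rg_iff.2 h2⟩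
  rcases lt_trichotomy (a1 + a2) (b1 + b2) with h1 | h1 | h1
  · exact key (a1 + a2 + 1) (a1 - a2) (by omega) (by omega)
  · rcases lt_trichotomy (a1 - a2) (b1 - b2) with h2 | h2 | h2
    · exact key (a1 + a2) (a1 - a2 + 1) (by omega) (by omega)
    · exact key (a1 + a2 + 1) (a1 - a2) (by omega) (by omega)
    · exact key (a1 + a2) (a1 - a2 - 1) (by omega) (by omega)
  · exact key (a1 + a2 - 1) (a1 - a2) (by omega) (by omega)

/-- Rings of joined removed sites are joined. -/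
theorem kc_ring (hQ : ∀ e ∈ Q, ea e ∈ U ∧ eb e ∈ U) (hs : s ∉ U) (hd : Dm z r s) (hr : r + 1 ≤ R)
    {v : ℤ × ℤ} (h : KC U z r s v) (hx : Rg s x) (hy : Rg v y) :
    Conn (gT (Q : Set Ed)) ((FU U \ QF Q)ᶜ ∩ Bx z R) x y := by
  unfold KC at h
  induction h generalizing y with
  | refl => exact ring_conn hQ hs hd hr hx hy
  | @tail a b _ h1 ih =>
    obtain ⟨w, hw1, hw2⟩ := rg_meet h1.1
    exact Relation.ReflTransGen.trans (ih hw1) (ring_conn hQ h1.2.2 h1.2.1 hr hw2 hy)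

end Rings

/-! ### The walls -/

private theorem cor_side {f : ℤ × ℤ} {a : UE} (h : IsSide f a) : IsCor f (ua a) ∧ IsCor f (ub a) := by
  obtain ⟨X, Y⟩ := f
  rcases h with rfl | rfl | rfl | rfl <;> simp [IsCor, bo, le', to', ri, ua, ub]

/-- An enumeration of a small set. -/
theorem exists_enum (S : Finset (ℤ × ℤ)) {m : ℕ} (h : S.card ≤ m) :
    ∃ f : ℕ → ℤ × ℤ, ∀ s ∈ S, ∃ i < m, f i = s := by
  refine ⟨fun i => S.toList.getD i (0, 0), fun s hs => ?_⟩
  rw [← Finset.mem_toList, List.mem_iff_getElem] at hs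
  obtain ⟨i, hi, his⟩ := hs
  rw [Finset.length_toList] at hi
  refine ⟨i, by omega, ?_⟩
  show S.toList.getD i (0, 0) = s
  rw [List.getD_eq_getElem _ _ (by rw [Finset.length_toList]; exact hi)]
  exact his

/-- **The number of the wall classes.** -/
theorem wall_rep {ω : Cfg} {h N₀ k : ℕ} {Ru : Rul} (hR : RulOK n h Ru) (j : ℕ) (hρ0 : 0 ≤ ρ)
    (hρ : ρ + 1 ≤ r) (hr : r + 1 ≤ R)
    (hN : ∀ i ≤ j, ∀ q, Ru i (cfgE n ω) = some q → NdPc q.1 z r N₀)
    (hk : ¬ CrN ω 0 (FU (Box n)) z (ρ + 1) r (k + 1)) (he : fa ((exR n Ru j).e ω) ∉ Bx z R) :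
    ∃ rep : ℤ → ℕ → ℤ × ℤ, ∀ c : ℤ, (c = 0 ∨ c = 1) → ∀ x, (exR n Ru j).Sid c ω 0 x →
      InR (z.1 - ρ) (z.1 + ρ) (z.2 - ρ) (z.2 + ρ) x →
      ∃ i < 4 + (j + 1) * (N₀ + k + 2), Conn ((exR n Ru j).cf ω) (((exR n Ru j).U ω)ᶜ ∩ Bx z R)
        (rep c i) x := by
  classical
  obtain ⟨U, hU⟩ : ∃ U, U = rem n Ru j ω := ⟨_, rfl⟩
  obtain ⟨Q, hQ⟩ : ∃ Q, Q = ndE n Ru j ω := ⟨_, rfl⟩
  have eU : (exR n Ru j).U ω = FU U \ QF Q := by rw [hU, hQ]; rfl
  have hQU : ∀ e ∈ Q, ea e ∈ U ∧ eb e ∈ U := by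
    intro e he'
    rw [hQ] at he'
    unfold ndE at he'
    cases hq : Ru j (cfgE n ω) with
    | none =>
      rw [hq] at he'
      exact absurd he' (notMem_empty e)
    | some q =>
      rw [hq] at he'
      rw [hU]
      exact (hR.ndl _ (DictB.cfgE_subset n ω) j q hq).ends e he'
  have hNQ : NdPc Q z r N₀ := by
    rw [hQ]
    unfold ndE
    cases hq : Ru j (cfgE n ω) with
    | none =>
      exact ⟨∅, by simp, fun s hs => absurd hs (notMem_empty s), fun f hf => absurd hf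
        (notMem_empty _)⟩
    | some q => exact hN j le_rfl q hq
  have hcov := cov_steps (z := z) (ρ := ρ + 1) (r := r) hR (by omega) hρ hk j
    fun i hi => hN i (by omega)
  rw [← hU] at hcov
  obtain ⟨S, hS, hS1, hS2⟩ := hcov
  obtain ⟨S₀, hS₀, hS₀d, hS₀c⟩ := hNQ
  have hm1 : S.card ≤ 4 + (j + 1) * (N₀ + k + 2) := by
    have : (j + 1) * (N₀ + k + 2) = j * (N₀ + k + 2) + (N₀ + k + 2) := by ring
    omega
  have hm2 : S₀.card ≤ 4 + (j + 1) * (N₀ + k + 2) := by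
    have : (j + 1) * (N₀ + k + 2) = j * (N₀ + k + 2) + (N₀ + k + 2) := by ring
    omega
  obtain ⟨f, hf⟩ := exists_enum S hm1
  obtain ⟨f₀, hf₀⟩ := exists_enum S₀ hm2
  refine ⟨fun c i => if c = 0 then phiV (f₀ i) else ((phiV (f i)).1 + 1, (phiV (f i)).2), ?_⟩
  intro c hc x hx hxρ
  -- the configuration off the fresh faces
  have hcf : ∀ g ∉ FU U \ QF Q, (exR n Ru j).cf ω g = gT (Q : Set Ed) g := by
    intro g hg
    have h1 : (exR n Ru j).cf ω g = (exR n Ru j).ζ ω g := by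
      unfold Ex.cf
      exact mix_of_notMem (by rw [eU]; exact hg)
    rw [h1, hQ]
    rfl
  have hcong : ∀ {a b : ℤ × ℤ}, Conn (gT (Q : Set Ed)) ((FU U \ QF Q)ᶜ ∩ Bx z R) a b →
      Conn ((exR n Ru j).cf ω) (((exR n Ru j).U ω)ᶜ ∩ Bx z R) a b := by
    intro a b hab
    rw [eU]
    refine conn_induct (P := fun p => Conn ((exR n Ru j).cf ω) ((FU U \ QF Q)ᶜ ∩ Bx z R) a p) hab
      Relation.ReflTransGen.refl ?_
    rintro p p' g - hp hg hb - -
    exact hp.tail (bond_of_single hg (Bond.congr (hcf g hg.1).symm hb))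
  -- the last bond
  unfold Ex.Sid at hx
  have hfr : (exR n Ru j).Fr ω 0 = FU U \ QF Q := by
    rw [← eU]
    unfold Ex.Fr Ex.x Ex.v
    ext g
    simp only [Set.mem_sdiff, Set.mem_inter_iff, Finset.mem_coe, mem_vs]
    constructor
    · exact fun h1 => h1.1
    · exact fun h1 => ⟨h1, fun h2 => by obtain ⟨-, i, -, hi, -⟩ := h2; omega⟩
  rw [hfr] at hx
  rcases Relation.ReflTransGen.cases_tail hx with h1 | ⟨y, -, h1⟩
  · exfalso
    refine he ?_
    have h2 := isSide_fa ((exR n Ru j).e ω)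
    have h3 : IsCor (fa ((exR n Ru j).e ω)) x := by
      have h4 : IsCor (fa ((exR n Ru j).e ω)) (ua ((exR n Ru j).e ω)) ∧
          IsCor (fa ((exR n Ru j).e ω)) (ub ((exR n Ru j).e ω)) := cor_side h2
      rcases en_or c ((exR n Ru j).e ω) with h5 | h5
      · rw [h1, h5]; exact h4.1
      · rw [h1, h5]; exact h4.2
    rw [mem_bx]
    obtain ⟨h4, h5⟩ := h3
    unfold InR at hxρ
    omega
  · obtain ⟨g, hg, hb, hy', hx'⟩ := Bond.face h1
    have hb2 : Bond (gT (Q : Set Ed)) {g} x y := (Bond.congr (hcf g hg) hb).symm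
    rcases hc with rfl | rfl
    · have hpx : par x = 0 := by
        have h2 := Conn.par_eq hx
        rw [par_en (Or.inl rfl)] at h2
        exact h2.symm
      obtain ⟨he1, h3⟩ := bond_face' hb2 hpx
      have hgB : g ∈ Bx z r := by
        rw [mem_bx]
        obtain ⟨h5, h6⟩ := hx'
        unfold InR at hxρ
        omega
      obtain ⟨s, hs, h5⟩ := hS₀c g (Finset.mem_coe.1 he1) hgB
      have h6 : Conn (gT (Q : Set Ed)) (QF Q ∩ Bx z r) (phiV s) x := by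
        rcases h3 with ⟨h3, -⟩ | ⟨h3, -⟩
        · rw [h3]
          exact h5
        · rw [h3]
          exact h5.tail (bond_of_single ⟨Finset.mem_coe.1 he1, hgB⟩ (bond_face he1))
      obtain ⟨i, hi, rfl⟩ := hf₀ s hs
      refine ⟨i, hi, ?_⟩
      simp only [if_true]
      refine hcong ?_
      refine Conn.mono ?_ h6
      rintro g' ⟨h7, h8⟩
      exact ⟨fun h9 => h9.2 h7, bx_mono (by omega) h8⟩
    · have hpx : par x = 1 := by
        have h2 := Conn.par_eq hx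
        rw [par_en (Or.inr rfl)] at h2
        exact h2.symm
      -- the face is not a face of the needle
      have hgQ : eE g ∉ (Q : Set Ed) := by
        intro hgQ
        have h3 := bond_face hgQ
        rcases bond_or' h3 hb2 with ⟨h4, -⟩ | ⟨-, h4⟩
        · have := par_phiV' (ea (eE g))
          rw [← h4] at this
          omega
        · have := par_phiV' (eb (eE g))
          rw [← h4] at this
          omega
      have hgU : g ∉ FU U := fun h3 => hg ⟨h3, hgQ⟩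
      obtain ⟨s, hs, hsU⟩ : ∃ s, (ea (eE g) = s ∨ eb (eE g) = s) ∧ s ∉ U := by
        by_contra hno
        push Not at hno
        exact hgU ⟨hno _ (Or.inl rfl), hno _ (Or.inr rfl)⟩
      have hsq : Sq (phiV s) g := sq_phiV.2 hs
      have hrg : Rg s x := by
        obtain ⟨X, Y, hV⟩ : ∃ X Y, phiV s = (X, Y) := ⟨_, _, rfl⟩
        have hpar : (X + Y) % 2 = 0 := by
          have := par_phiV' s
          rw [hV] at this
          exact this
        unfold Rg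
        rw [hV] at hsq ⊢
        obtain ⟨h3, h4⟩ := hsq
        obtain ⟨h5, h6⟩ := hx'
        unfold par at hpx
        simp only at h3 h4 ⊢
        omega
      have hsd : Dm z (ρ + 1) s := by
        rw [dm_iff]
        unfold Rg at hrg
        unfold InR at hxρ ⊢
        omega
      obtain ⟨t, ht, h3⟩ := hS2 s hsd hsU
      obtain ⟨i, hi, rfl⟩ := hf t ht
      refine ⟨i, hi, ?_⟩
      simp only [one_ne_zero, if_false]
      exact hcong (kc_ring hQU (hS1 _ ht).2 (hS1 _ ht).1 hr h3 (Or.inl ⟨rfl, rfl⟩) hrg)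

/-! ### Needles with spots -/

theorem bx_sub_of {a z : ℤ × ℤ} {C r : ℤ} (h : max |a.1 - z.1| |a.2 - z.2| + C ≤ r) :
    Bx a C ⊆ Bx z r := by
  intro f hf
  rw [mem_bx] at *
  have h1 := (le_max_left |a.1 - z.1| |a.2 - z.2|)
  have h2 := (le_max_right |a.1 - z.1| |a.2 - z.2|)
  have h3 := abs_le.1 (le_refl |a.1 - z.1|)
  have h4 := abs_le.1 (le_refl |a.2 - z.2|)
  omega

theorem bx_disj_of {a z : ℤ × ℤ} {C r : ℤ} (h : r + C ≤ max |a.1 - z.1| |a.2 - z.2|) :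
    Disjoint (Bx a C) (Bx z r) := by
  rw [Set.disjoint_left]
  intro f hf hf'
  rw [mem_bx] at hf hf'
  rcases le_max_iff.1 h with h1 | h1
  · rcases le_abs.1 h1 with h2 | h2 <;> omega
  · rcases le_abs.1 h1 with h2 | h2 <;> omega

/-- A radius whose box is not cut by the spots. -/
theorem exists_radius (a : ℕ → ℤ × ℤ) (z : ℤ × ℤ) {C : ℤ} (hC : 0 ≤ C) (r : ℤ) (j : ℕ) :
    ∃ l : ℕ, l ≤ j + 1 ∧ ∀ i ≤ j, Bx (a i) C ⊆ Bx z (r + l * (2 * C + 1)) ∨
      Disjoint (Bx (a i) C) (Bx z (r + l * (2 * C + 1))) := by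
  by_contra hno
  push Not at hno
  have h1 : ∀ l ∈ range (j + 2), ∃ i ∈ range (j + 1),
      r + (l : ℤ) * (2 * C + 1) < max |(a i).1 - z.1| |(a i).2 - z.2| + C ∧
      max |(a i).1 - z.1| |(a i).2 - z.2| < r + (l : ℤ) * (2 * C + 1) + C := by
    intro l hl
    rw [mem_range] at hl
    obtain ⟨i, hi, h2, h3⟩ := hno l (by omega)
    refine ⟨i, mem_range.2 (by omega), ?_, ?_⟩
    · by_contra h4
      exact h2 (bx_sub_of (not_lt.1 h4))
    · by_contra h4
      exact h3 (bx_disj_of (not_lt.1 h4))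
  choose! f hf1 hf2 using h1
  obtain ⟨x, hx, y, hy, hxy, hf⟩ := exists_ne_map_eq_of_card_lt_of_maps_to
    (s := range (j + 2)) (t := range (j + 1)) (by simp) (f := f) hf1
  have h2 := hf2 x hx
  have h3 := hf2 y hy
  rw [hf] at h2
  rcases Nat.lt_or_gt_of_ne hxy with h4 | h4
  · have h5 : ((x : ℤ) + 1) * (2 * C + 1) ≤ (y : ℤ) * (2 * C + 1) :=
      mul_le_mul_of_nonneg_right (by omega) (by omega)
    have h6 : ((x : ℤ) + 1) * (2 * C + 1) = (x : ℤ) * (2 * C + 1) + (2 * C + 1) := by ring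
    omega
  · have h5 : ((y : ℤ) + 1) * (2 * C + 1) ≤ (x : ℤ) * (2 * C + 1) :=
      mul_le_mul_of_nonneg_right (by omega) (by omega)
    have h6 : ((y : ℤ) + 1) * (2 * C + 1) = (y : ℤ) * (2 * C + 1) + (2 * C + 1) := by ring
    omega

/-- **The number of the wall classes**, for needles with spots. -/
theorem wall_rep_ok {ω : Cfg} {h N₀ k : ℕ} {Ru : Rul} {C : ℤ} (hR : RulOK n h Ru) (j : ℕ)
    (hρ0 : 0 ≤ ρ) (hC : 0 ≤ C) (hρ : ρ + 1 ≤ r) (hr : r + (j + 1) * (2 * C + 1) + 1 ≤ R)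
    (hN : ∀ i ≤ j, ∀ q, Ru i (cfgE n ω) = some q → NdOK q.1 C N₀)
    (hk : ¬ CrN ω 0 (FU (Box n)) z (ρ + 1) r (k + 1)) (he : fa ((exR n Ru j).e ω) ∉ Bx z R) :
    ∃ rep : ℤ → ℕ → ℤ × ℤ, ∀ c : ℤ, (c = 0 ∨ c = 1) → ∀ x, (exR n Ru j).Sid c ω 0 x →
      InR (z.1 - ρ) (z.1 + ρ) (z.2 - ρ) (z.2 + ρ) x →
      ∃ i < 4 + (j + 1) * (N₀ + k + 2), Conn ((exR n Ru j).cf ω) (((exR n Ru j).U ω)ᶜ ∩ Bx z R)
        (rep c i) x := by
  have h1 : ∀ i, ∃ a : ℤ × ℤ, i ≤ j → ∀ q, Ru i (cfgE n ω) = some q → ∀ z r,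
      (Bx a C ⊆ Bx z r ∨ Disjoint (Bx a C) (Bx z r)) → NdPc q.1 z r N₀ := by
    intro i
    by_cases hi : i ≤ j
    · cases hq : Ru i (cfgE n ω) with
      | none => exact ⟨(0, 0), fun _ q hq' => absurd hq' (by simp)⟩
      | some q =>
        obtain ⟨a, ha⟩ := hN i hi q hq
        exact ⟨a, fun _ q' hq' => by rw [← Option.some_injective _ hq']; exact ha⟩
    · exact ⟨(0, 0), fun h => absurd h hi⟩
  choose a ha using h1
  obtain ⟨l, hl, h2⟩ := exists_radius a z hC r j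
  have h3 : (0 : ℤ) ≤ (l : ℤ) * (2 * C + 1) := by positivity
  have h4 : (l : ℤ) * (2 * C + 1) ≤ ((j : ℤ) + 1) * (2 * C + 1) :=
    mul_le_mul_of_nonneg_right (by exact_mod_cast hl) (by omega)
  refine wall_rep (r := r + l * (2 * C + 1)) hR j hρ0 (by omega) (by omega)
    (fun i hi q hq => ha i hi q hq _ _ (h2 i hi)) (fun h5 => hk ?_) he
  exact h5.anti (by omega) (by omega)

end Pool.Agent.SixB.WC
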