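import Pool.Agent.Lib.SixB.S8NearMiss
import Pool.Agent.Lib.SixB.S8NearCountC
import Pool.Agent.Lib.SixB.S8WallCnt

/-!
# Step 8: near misses of all the steps of the scan

* `Rep E ω z ρ R m rep`: `m` vertices of each colour represent the classes of the walls in the box;
  `rep_congr`, `repA`, `adp_repA`: an adapted choice.
* `NewG E ω N z₁ r D`: at a time `t ≤ N` there is a gate of radius `r` around `z₁` which was not there at
  the time `0`; tip and start are outside of the box of radius `D` around `z₁`.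
* `pr_centre`: one centre, any exploration, conditional on the past.
* `pr_centre_rule`: one centre, the step `j` of the scan.
* `near_all`: all centres, all steps `j < J`, uniformly in the rule.
-/

set_option autoImplicit false

namespace Pool.Agent.SixB.NM

open Finset Pool.Agent.Perc Pool.Agent.PercT Pool.Agent.SixB Pool.Agent.SixB.NearCut
open Pool.Agent.SixB.Near (Bx CrN hk Vis NearM Leg)
open Pool.Agent.SixB.Rule Pool.Agent.SixB.Dct Pool.Agent.SixB.WC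
open Pool.Agent.PercX60 (Sn eE)
open Pool.Agent.MP_6bd702.H23 (ea eb)

/-! ### Increasing unions -/

theorem pr_iUnion_le {W : Finset (ℤ × ℤ)} {A : ℕ → Set Cfg} (hA : Monotone A) {c : ℝ}
    (h : ∀ N, pr W (A N) ≤ c) : pr W {ω | ∃ N, ω ∈ A N} ≤ c := by
  classical
  have h1 : ∀ T : Finset (ℤ × ℤ), ∃ N, (∃ N', cfg T ∈ A N') → cfg T ∈ A N := by
    intro T
    by_cases hT : ∃ N', cfg T ∈ A N'
    · obtain ⟨N, hN⟩ := hT
      exact ⟨N, fun _ => hN⟩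
    · exact ⟨0, fun h => absurd h hT⟩
  choose g hg using h1
  refine le_trans ?_ (h (W.powerset.sup g))
  unfold pr
  refine div_le_div_of_nonneg_right ?_ (by positivity)
  refine Nat.cast_le.2 (Finset.card_le_card fun T hT => ?_)
  rw [Finset.mem_filter] at hT ⊢
  exact ⟨hT.1, hA (Finset.le_sup (f := g) hT.1) (hg T hT.2)⟩

/-! ### Representatives of the walls -/

/-- `m` vertices of each colour represent the classes of the walls which come near. -/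
def Rep (E : Ex) (ω : Cfg) (z : ℤ × ℤ) (ρ R : ℤ) (m : ℕ) (rep : ℤ → ℕ → ℤ × ℤ) : Prop :=
  ∀ c : ℤ, (c = 0 ∨ c = 1) → ∀ x, E.Sid c ω 0 x →
    InR (z.1 - ρ) (z.1 + ρ) (z.2 - ρ) (z.2 + ρ) x →
    ∃ i < m, Conn (E.cf ω) ((E.U ω)ᶜ ∩ Bx z R) (rep c i) x

section Abs

variable {E : Ex} {S : Cfg → Set (ℤ × ℤ)} {ω ω' : Cfg} {z z₁ : ℤ × ℤ} {r s ρ ρ' R D : ℤ}
  {N K k m : ℕ} {rep : ℤ → ℕ → ℤ × ℤ}

theorem Rep.mono (h : Rep E ω z ρ' R m rep) (hρ : ρ ≤ ρ') : Rep E ω z ρ R m rep := by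
  intro c hc x h1 h2
  refine h c hc x h1 ?_
  unfold InR at h2 ⊢
  omega

theorem ag_zero (h : ∀ f ∈ S ω, ω f = ω' f) : E.Ag S ω ω' 0 := by
  rintro f (hf | hf)
  · exact h f hf
  · exfalso
    have h1 : f ∈ vs (E.cf ω) (E.e ω) 0 0 := hf.2
    rw [vs_self] at h1
    exact absurd h1 (Finset.notMem_empty f)

theorem rep_congr (hE : E.Ok S) (h : ∀ f ∈ S ω, ω f = ω' f) :
    Rep E ω' z ρ R m rep ↔ Rep E ω z ρ R m rep := by
  have ha : E.Ag S ω ω' 0 := ag_zero h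
  have hU : E.U ω' = E.U ω := hE.U ω ω' h
  unfold Rep
  refine forall_congr' fun c => forall_congr' fun _ => forall_congr' fun x => ?_
  rw [Near.ag_sid hE ha le_rfl]
  refine forall_congr' fun _ => forall_congr' fun _ => exists_congr fun i => and_congr_right fun _ => ?_
  rw [hU]
  refine (Near.ag_conn hE ha le_rfl ?_).symm
  intro f hf h'
  exact hf.1 h'.1

/-- An adapted choice of representatives. -/
noncomputable def repA (E : Ex) (z : ℤ × ℤ) (ρ R : ℤ) (m : ℕ) (ω : Cfg) : ℤ → ℕ → ℤ × ℤ :=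
  Classical.epsilon fun rep => Rep E ω z ρ R m rep

theorem adp_repA (hE : E.Ok S) : Adp S (repA E z ρ R m) := by
  intro ω ω' h
  unfold repA
  have : (fun rep => Rep E ω' z ρ R m rep) = fun rep => Rep E ω z ρ R m rep := by
    funext rep
    exact propext (rep_congr hE h)
  rw [this]

theorem repA_spec (h : ∃ rep, Rep E ω z ρ R m rep) : Rep E ω z ρ R m (repA E z ρ R m ω) :=
  Classical.epsilon_spec h

/-! ### One centre -/

/-- A new gate, far from the tip and from the start. -/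
def NewG (E : Ex) (ω : Cfg) (N : ℕ) (z₁ : ℤ × ℤ) (r D : ℤ) : Prop :=
  E.Wll ω ∧ ∃ t ≤ N, Nb (E.cf ω) (E.e ω) t ∧ E.Gate ω t z₁ r ∧ ¬ E.Gate ω 0 z₁ r ∧
    fa (E.e ω) ∉ Bx z₁ D ∧ fa (E.p ω t) ∉ Bx z₁ D

theorem NewG.mono {N N' : ℕ} (h : NewG E ω N z₁ r D) (hN : N ≤ N') : NewG E ω N' z₁ r D := by
  obtain ⟨h1, t, h2, h3⟩ := h
  exact ⟨h1, t, h2.trans hN, h3⟩

theorem bx_sub (h1 : |z.1 - z₁.1| ≤ s) (h2 : |z.2 - z₁.2| ≤ s) (h : R + s ≤ D) :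
    Bx z R ⊆ Bx z₁ D := by
  intro f hf
  rw [abs_le] at h1 h2
  rw [mem_bx] at *
  omega

/-- A new gate near the centre is a near miss or there are many visits. -/
theorem newG_or {rep : Cfg → ℤ → ℕ → ℤ × ℤ} (h1 : |z.1 - z₁.1| ≤ s) (h2 : |z.2 - z₁.2| ≤ s)
    (hs : s + r + 2 ≤ ρ) (hρ : ρ ≤ ρ') (hR : R + s ≤ D) (h : NewG E ω N z₁ r D)
    (hrep : Rep E ω z ρ' R m (rep ω)) :
    ω ∈ NearM E N z r ρ R K m rep ∨ Vis E ω z ρ ρ' R N K m (rep ω) := by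
  obtain ⟨hW, t, ht, hNb, hg, hg0, he, hp⟩ := h
  have hsub : Bx z R ⊆ Bx z₁ D := bx_sub h1 h2 hR
  have he' : fa (E.e ω) ∉ Bx z R := fun h => he (hsub h)
  rcases Nat.lt_or_ge (hk E ω z ρ R N K) t with h3 | h3
  · exact Or.inr ⟨fun l hl hl' => hNb l hl (hl'.trans h3.le), he', h3.trans_le ht, hW, hrep⟩
  · refine Or.inl ⟨t, ht, z₁, hW, hNb, ?_, hg, hg0, he', fun h => hp (hsub h), h3,
      hrep.mono hρ⟩
    rw [abs_le] at h1 h2
    unfold InR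
    omega

end Abs

/-- The new gates near a centre, with at most `m` classes of the walls. -/
def Cen (E : Ex) (z : ℤ × ℤ) (s r ρ' R D : ℤ) (m : ℕ) : Set Cfg :=
  {ω | (∃ rep, Rep E ω z ρ' R m rep) ∧ ∃ N, ∃ z₁ : ℤ × ℤ, |z.1 - z₁.1| ≤ s ∧ |z.2 - z₁.2| ≤ s ∧
    NewG E ω N z₁ r D}

/-- **One centre**, conditional on the past. -/
theorem pr_centre : ∃ C α q : ℝ, 0 < C ∧ 0 < α ∧ 0 < q ∧ q < 1 ∧ ∀ (W : Finset (ℤ × ℤ)) (E : Ex)
    (S : Cfg → Set (ℤ × ℤ)) (A : Set Cfg), E.Ok S → DetS S A → (∀ ω ∈ A, E.U ω ⊆ W) →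
    (∀ ω ∈ A, Disjoint (E.U ω) (S ω)) → ∀ (z : ℤ × ℤ) (s r ρ ρ' R D : ℤ) (K m k : ℕ),
    0 ≤ s → 0 ≤ r → s + r + 2 ≤ ρ → 4 * (ρ + 1) ≤ ρ' → ρ' ≤ R → R + s ≤ D → 0 < K →
    2 * m + 2 * k ≤ K + 2 →
    pr W (A ∩ Cen E z s r ρ' R D m) ≤
      (2 * q ^ k + 2 * K * ((K : ℝ) + m) * (C * ((2 * (r : ℝ) + 3) / (R - ρ - 1)) ^ α)) * pr W A := by
  obtain ⟨C, α, hC, hα, h1⟩ := Near.pr_near_miss
  obtain ⟨q, hq0, hq1, h2⟩ := Near.pr_visits_four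
  refine ⟨C, α, q, hC, hα, hq0, hq1, ?_⟩
  intro W E S A hE hA hU hd z s r ρ ρ' R D K m k hs hr hsr hρ hR hD hK hk
  have hN : ∀ N, pr W (A ∩ {ω | (∃ rep, Rep E ω z ρ' R m rep) ∧ ∃ z₁ : ℤ × ℤ,
      |z.1 - z₁.1| ≤ s ∧ |z.2 - z₁.2| ≤ s ∧ NewG E ω N z₁ r D}) ≤
      (2 * q ^ k + 2 * K * ((K : ℝ) + m) *
        (C * ((2 * (r : ℝ) + 3) / (R - ρ - 1)) ^ α)) * pr W A := by
    intro N
    have h3 := h1 W E S A hE hA hU hd z r ρ R N K m (repA E z ρ' R m) (adp_repA hE) hr (by omega)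
      (by omega)
    have h4 := h2 W E S hE A hA hU hd z ρ ρ' R N K m k (repA E z ρ' R m) (by omega) hρ hR hK hk
    refine ((pr_mono W ?_).trans (pr_union_le W (A ∩ NearM E N z r ρ R K m (repA E z ρ' R m))
      (A ∩ {ω | Vis E ω z ρ ρ' R N K m (repA E z ρ' R m ω)}))).trans ?_
    · rintro ω ⟨hω, hrep, z₁, h5, h6, h7⟩
      rcases newG_or (K := K) h5 h6 hsr (by omega) hD h7 (repA_spec hrep) with h8 | h8
      · exact Or.inl ⟨hω, h8⟩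
      · exact Or.inr ⟨hω, h8⟩
    · linarith
  have hmono : Monotone fun N => A ∩ {ω | (∃ rep, Rep E ω z ρ' R m rep) ∧ ∃ z₁ : ℤ × ℤ,
      |z.1 - z₁.1| ≤ s ∧ |z.2 - z₁.2| ≤ s ∧ NewG E ω N z₁ r D} := by
    rintro N N' hNN ω ⟨h3, h4, z₁, h5, h6, h7⟩
    exact ⟨h3, h4, z₁, h5, h6, h7.mono hNN⟩
  refine (pr_mono W ?_).trans (pr_iUnion_le hmono hN)
  rintro ω ⟨h3, h4, N, z₁, h5⟩
  exact ⟨N, h3, h4, z₁, h5⟩

/-! ### The steps of the scan -/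

theorem fu_sub_Sn {n : ℕ} {U : Finset (ℤ × ℤ)} (hU : U ⊆ Box n) : FU U ⊆ (Sn n : Set (ℤ × ℤ)) := by
  intro f hf
  exact Finset.mem_coe.2 (Finset.mem_image.2 ⟨eE f, eE_mem_boxE hU hf, PercX60.phiE_eE f⟩)

theorem rem_sub {n h : ℕ} {Ru : Rul} (hR : RulOK n h Ru) (j : ℕ) (ω : Cfg) :
    rem n Ru j ω ⊆ Box n := (inv_stR hR (DictB.cfgE_subset n ω) j).sub

theorem exR_sub {n h : ℕ} {Ru : Rul} (hR : RulOK n h Ru) (j : ℕ) (ω : Cfg) :
    (exR n Ru j).U ω ⊆ (Sn n : Set (ℤ × ℤ)) :=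
  fun _ hf => fu_sub_Sn (rem_sub hR j ω) hf.1

/-- All the needles up to the step `j` have few pieces. -/
def Nds (n : ℕ) (Ru : Rul) (C : ℤ) (N₀ j : ℕ) (ω : Cfg) : Prop :=
  ∀ i ≤ j, ∀ q, Ru i (cfgE n ω) = some q → NdOK q.1 C N₀

/-- **One centre, one step.** -/
theorem pr_centre_rule : ∃ C α q : ℝ, 0 < C ∧ 0 < α ∧ 0 < q ∧ q < 1 ∧
    ∀ (n h : ℕ) (Ru : Rul), RulOK n h Ru → ∀ (J j N₀ : ℕ) (z : ℤ × ℤ) (Cn s r ρ ρ' r' R D : ℤ)
    (k' k : ℕ), j < J → 0 ≤ Cn → 0 ≤ s → 0 ≤ r → s + r + 2 ≤ ρ → 4 * (ρ + 1) ≤ ρ' →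
    4 * (ρ' + 1) ≤ r' → r' + J * (2 * Cn + 1) + 1 ≤ R → R + s ≤ D → ∀ m K : ℕ,
    m = 4 + J * (N₀ + k' + 2) → K = 2 * m + 2 * k →
    pr (Sn n) {ω | Nds n Ru Cn N₀ j ω ∧ ∃ N, ∃ z₁ : ℤ × ℤ, |z.1 - z₁.1| ≤ s ∧ |z.2 - z₁.2| ≤ s ∧
        NewG (exR n Ru j) ω N z₁ r D} ≤
      q ^ (k' + 1) +
        (2 * q ^ k + 2 * K * ((K : ℝ) + m) * (C * ((2 * (r : ℝ) + 3) / (R - ρ - 1)) ^ α)) := by
  obtain ⟨C, α, q, hC, hα, hq0, hq1, h1⟩ := pr_centre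
  obtain ⟨q₂, hq20, hq21, h2⟩ := Near.pr_crN_four
  refine ⟨C, α, max q q₂, hC, hα, lt_max_of_lt_left hq0, max_lt hq1 hq21, ?_⟩
  intro n h Ru hRu J j N₀ z Cn s r ρ ρ' r' R D k' k hj hCn hs hr hsr hρ hρ' hr' hD m K hm hK
  have hJ : ((j : ℤ) + 1) * (2 * Cn + 1) ≤ J * (2 * Cn + 1) :=
    mul_le_mul_of_nonneg_right (by exact_mod_cast hj) (by omega)
  have hJ0 : (0 : ℤ) ≤ J * (2 * Cn + 1) := by positivity
  have hmj : 4 + (j + 1) * (N₀ + k' + 2) ≤ m := by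
    rw [hm]
    have : (j + 1) * (N₀ + k' + 2) ≤ J * (N₀ + k' + 2) := Nat.mul_le_mul_right _ hj
    omega
  have hm0 : 4 ≤ m := by omega
  have h3 := h1 (Sn n) (exR n Ru j) (expl n Ru j) Set.univ (exR_ok hRu j)
    (fun _ _ _ _ => Set.mem_univ _) (fun ω _ => exR_sub hRu j ω)
    (fun ω _ => exR_disj n Ru j ω) z s r ρ ρ' R D K m k hs hr hsr hρ (by omega) hD (by omega)
    (by omega)
  rw [PercT.TubeP.pr_univ, mul_one, Set.univ_inter] at h3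
  have h4 := h2 (Sn n) 0 (FU (Box n)) z (ρ' + 1) r' (k' + 1) (by omega) hρ'
    (Set.inter_subset_left.trans (fu_sub_Sn (Finset.Subset.refl _)))
  have h5 : {ω | Nds n Ru Cn N₀ j ω ∧ ∃ N, ∃ z₁ : ℤ × ℤ, |z.1 - z₁.1| ≤ s ∧ |z.2 - z₁.2| ≤ s ∧
      NewG (exR n Ru j) ω N z₁ r D} ⊆
      {ω | CrN ω 0 (FU (Box n)) z (ρ' + 1) r' (k' + 1)} ∪ Cen (exR n Ru j) z s r ρ' R D m := by
    rintro ω ⟨h6, N, z₁, h7, h8, h9⟩
    by_cases h10 : CrN ω 0 (FU (Box n)) z (ρ' + 1) r' (k' + 1)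
    · exact Or.inl h10
    · refine Or.inr ⟨?_, N, z₁, h7, h8, h9⟩
      have he : fa ((exR n Ru j).e ω) ∉ Bx z R := by
        obtain ⟨-, t, -, -, -, -, h11, -⟩ := h9
        exact fun h => h11 (bx_sub h7 h8 hD h)
      obtain ⟨rep, hrep⟩ := wall_rep_ok (ρ := ρ') (z := z) (r := r') (R := R) hRu j (by omega) hCn
        (by omega) (by omega) h6 h10 he
      refine ⟨rep, fun c hc x hx hx' => ?_⟩
      obtain ⟨i, hi, h11⟩ := hrep c hc x hx hx'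
      exact ⟨i, by omega, h11⟩
  refine ((pr_mono _ h5).trans (pr_union_le _ _ _)).trans ?_
  have hqq : q₂ ^ (k' + 1) ≤ (max q q₂) ^ (k' + 1) :=
    pow_le_pow_left₀ hq20.le (le_max_right _ _) _
  have hqq' : q ^ k ≤ (max q q₂) ^ k := pow_le_pow_left₀ hq0.le (le_max_left _ _) _
  linarith

/-! ### The gates are near the box -/

theorem even_corner {n : ℕ} {f v : ℤ × ℤ} (hf : f ∈ FU (Box n)) (hv : IsCor f v) (hp : par v = 0) :
    0 ≤ v.1 ∧ v.1 ≤ 2 * n ∧ -(n : ℤ) ≤ v.2 ∧ v.2 ≤ n := by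
  obtain ⟨h1, h2⟩ := hf
  have hw : v = phiV ((v.1 + v.2) / 2, (v.1 - v.2) / 2) := by
    unfold par at hp
    unfold phiV
    ext <;> simp only <;> omega
  have hsq : Sq (phiV ((v.1 + v.2) / 2, (v.1 - v.2) / 2)) f := by
    rw [← hw]
    unfold IsCor at hv
    unfold Sq
    omega
  have hB : ((v.1 + v.2) / 2, (v.1 - v.2) / 2) ∈ Box n := by
    rcases sq_phiV.1 hsq with h | h
    · rw [← h]; exact h1
    · rw [← h]; exact h2
  unfold Box at hB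
  rw [Finset.mem_product, Finset.mem_Icc, Finset.mem_Icc] at hB
  unfold par at hp
  simp only at hB
  omega

/-- The faces of the bonds of the even side are faces of the box. -/
theorem face_even {n h : ℕ} {Ru : Rul} (hR : RulOK n h Ru) (j : ℕ) {ω : Cfg} {f p q : ℤ × ℤ}
    (hb : Bond ((exR n Ru j).cf ω) {f} p q) (hp : par p = 0) : f ∈ FU (Box n) := by
  by_cases hf : f ∈ (exR n Ru j).U ω
  · exact ⟨rem_sub hR j ω hf.1.1, rem_sub hR j ω hf.1.2⟩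
  · have h1 : (exR n Ru j).cf ω f = PercX60.gT (ndE n Ru j ω : Set Edg) f := mix_of_notMem hf
    have h2 : Bond (PercX60.gT (ndE n Ru j ω : Set Edg)) {f} p q := Bond.congr h1 hb
    obtain ⟨h3, -⟩ := bond_face' h2 hp
    unfold ndE at h3
    cases hq : Ru j (cfgE n ω) with
    | none =>
      rw [hq] at h3
      simp at h3
    | some q' =>
      rw [hq] at h3
      have h4 := (hR.ndl _ (DictB.cfgE_subset n ω) j q' hq).ends _ (Finset.mem_coe.1 h3)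
      exact ⟨rem_sub hR j ω h4.1, rem_sub hR j ω h4.2⟩

private theorem en_cor {f : ℤ × ℤ} {a : UE} {c : ℤ} (h : IsSide f a) : IsCor f (en c a) := by
  obtain ⟨X, Y⟩ := f
  rcases en_or c a with h1 | h1 <;> rw [h1] <;> rcases h with rfl | rfl | rfl | rfl <;>
    simp [IsCor, ua, ub, bo, le', to', ri]

/-- A new gate far from the start is near the box. -/
theorem gate_near {n h : ℕ} {Ru : Rul} (hR : RulOK n h Ru) {j N : ℕ} {ω : Cfg} {z₁ : ℤ × ℤ}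
    {r D : ℤ} (hD : r + 2 ≤ D) (hg : NewG (exR n Ru j) ω N z₁ r D) :
    |z₁.1| ≤ 2 * n + r + 1 ∧ |z₁.2| ≤ n + r + 1 := by
  obtain ⟨-, t, -, -, ⟨v, w, h1, h2, h3⟩, -, he, -⟩ := hg
  have hpv : par v = 0 := by
    have := Conn.par_eq h1
    rw [par_en (Or.inl rfl)] at this
    exact this.symm
  have hpw : par w = 1 := by
    have := Conn.par_eq h2
    rw [par_en (Or.inr rfl)] at this
    exact this.symm
  have hv : z₁.1 - (r + 1) ≤ v.1 ∧ v.1 ≤ z₁.1 + (r + 1) ∧ z₁.2 - (r + 1) ≤ v.2 ∧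
      v.2 ≤ z₁.2 + (r + 1) := by
    rcases Relation.ReflTransGen.cases_head h3 with h4 | ⟨u, ⟨a, ⟨h5, -⟩, h6⟩, -⟩
    · rw [h4] at hpv
      omega
    · unfold InB InR at h5
      obtain ⟨x, y, d⟩ := a
      rcases h6 with ⟨h6, -⟩ | ⟨h6, -⟩ <;> rw [h6] <;> cases d <;> simp [ua, ub] at h5 ⊢ <;> omega
  rcases Relation.ReflTransGen.cases_tail h1 with h4 | ⟨p, h5, h6⟩
  · exfalso
    apply he
    rw [mem_bx]
    have h7 : en 0 ((exR n Ru j).e ω) = v := h4.symm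
    rw [← h7] at hv
    have h8 : IsCor (fa ((exR n Ru j).e ω)) (en 0 ((exR n Ru j).e ω)) := en_cor (isSide_fa _)
    unfold IsCor at h8
    omega
  · obtain ⟨f, -, h7, -, h8⟩ := Bond.exists_face h6
    have hpp : par p = 0 := by
      have := Conn.par_eq h5
      rw [par_en (Or.inl rfl)] at this
      exact this.symm
    have h9 := even_corner (face_even hR j h7 hpp) h8 hpv
    rw [abs_le, abs_le]
    omega

/-! ### All centres and all steps -/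

theorem exists_small {B α τ : ℝ} (hB : 0 ≤ B) (hα : 0 < α) (hτ : 0 < τ) :
    ∃ x₀ : ℝ, 0 < x₀ ∧ ∀ x : ℝ, 0 ≤ x → x ≤ x₀ → B * x ^ α ≤ τ := by
  have h0 : 0 < τ / (B + 1) := by positivity
  refine ⟨(τ / (B + 1)) ^ α⁻¹, by positivity, fun x hx hx' => ?_⟩
  have h1 : x ^ α ≤ τ / (B + 1) := by
    have := Real.rpow_le_rpow hx hx' hα.le
    rwa [Real.rpow_inv_rpow h0.le hα.ne'] at this
  calc B * x ^ α ≤ B * (τ / (B + 1)) := mul_le_mul_of_nonneg_left h1 hB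
    _ = τ * (B / (B + 1)) := by ring
    _ ≤ τ * 1 := by
      refine mul_le_mul_of_nonneg_left ?_ hτ.le
      rw [div_le_one (by linarith)]
      linarith
    _ = τ := mul_one τ

/-- **Near misses**, all centres and all the steps `j < J`, uniformly in the rule. -/
theorem near_all (J N₀ : ℕ) {δ η : ℝ} (hδ : 0 < δ) (hη : 0 < η) :
    ∃ κ : ℝ, 0 < κ ∧ ∃ n₀ : ℕ, ∀ n ≥ n₀, ∀ (h : ℕ) (Ru : Rul) (Cn r D : ℤ), RulOK n h Ru →
      0 ≤ Cn → (Cn : ℝ) ≤ κ * n → 0 ≤ r → (r : ℝ) ≤ κ * n → δ * n ≤ D →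
      pr (Sn n) {ω | ∃ j < J, Nds n Ru Cn N₀ j ω ∧ ∃ N, ∃ z₁ : ℤ × ℤ,
        NewG (exR n Ru j) ω N z₁ r D} ≤ η := by
  classical
  obtain ⟨C, α, q, hC, hα, hq0, hq1, hmain⟩ := pr_centre_rule
  obtain ⟨A, hA⟩ : ∃ A : ℕ, 800 / δ ≤ A := ⟨⌈800 / δ⌉₊, Nat.le_ceil _⟩
  obtain ⟨M, hM⟩ : ∃ M : ℝ, M = J * ((2 * A + 1) * (2 * A + 1)) + 1 := ⟨_, rfl⟩
  have hM0 : 0 < M := by rw [hM]; positivity
  obtain ⟨τ, hτ⟩ : ∃ τ : ℝ, τ = η / (3 * M) := ⟨_, rfl⟩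
  have hτ0 : 0 < τ := by rw [hτ]; positivity
  obtain ⟨k', hk'⟩ := exists_pow_lt_of_lt_one hτ0 hq1
  obtain ⟨k, hk⟩ := exists_pow_lt_of_lt_one (show 0 < τ / 2 by positivity) hq1
  obtain ⟨m, hm⟩ : ∃ m : ℕ, m = 4 + J * (N₀ + k' + 2) := ⟨_, rfl⟩
  obtain ⟨K, hK⟩ : ∃ K : ℕ, K = 2 * m + 2 * k := ⟨_, rfl⟩
  obtain ⟨x₀, hx0, hx⟩ := exists_small (B := 2 * K * ((K : ℝ) + m) * C) (α := α) (τ := τ)
    (by positivity) hα hτ0
  obtain ⟨κ, hκ⟩ : ∃ κ : ℝ, κ = min 1 (min (δ / (400 * (J + 1))) (δ * x₀ / 8)) := ⟨_, rfl⟩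
  have hκ0 : 0 < κ := by rw [hκ]; positivity
  have hκ1 : κ ≤ 1 := by rw [hκ]; exact min_le_left _ _
  have hκ2 : κ ≤ δ / (400 * (J + 1)) := by
    rw [hκ]; exact (min_le_right _ _).trans (min_le_left _ _)
  have hκ3 : κ ≤ δ * x₀ / 8 := by
    rw [hκ]; exact (min_le_right _ _).trans (min_le_right _ _)
  obtain ⟨n₀, hn₀⟩ : ∃ n₀ : ℕ, 400 / δ + 3 / κ + 200 * (J + 1) / δ + 1 ≤ n₀ :=
    ⟨⌈400 / δ + 3 / κ + 200 * (J + 1) / δ + 1⌉₊, Nat.le_ceil _⟩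
  refine ⟨κ, hκ0, n₀, ?_⟩
  intro n hn h Ru Cn r D hRu hCn hCn' hr hr' hD
  have hnr : (n₀ : ℝ) ≤ n := by exact_mod_cast hn
  have p1 : 0 < 400 / δ := by positivity
  have p2 : 0 < 3 / κ := by positivity
  have p3 : 0 < 200 * ((J : ℝ) + 1) / δ := by positivity
  have e1 : 400 ≤ δ * n := by
    have : 400 / δ ≤ n := by linarith
    rw [div_le_iff₀ hδ] at this
    linarith
  have e2 : 3 ≤ κ * n := by
    have : 3 / κ ≤ n := by linarith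
    rw [div_le_iff₀ hκ0] at this
    linarith
  have e3 : 200 * ((J : ℝ) + 1) ≤ δ * n := by
    have : 200 * ((J : ℝ) + 1) / δ ≤ n := by linarith
    rw [div_le_iff₀ hδ] at this
    linarith
  have e4 : (1 : ℝ) ≤ n := by linarith
  -- the scale
  obtain ⟨s, hs⟩ : ∃ s : ℤ, s = ⌊δ * n / 100⌋ := ⟨_, rfl⟩
  have hs1 : (s : ℝ) ≤ δ * n / 100 := by rw [hs]; exact Int.floor_le _
  have hs2 : δ * n / 200 ≤ s := by
    have : δ * n / 100 < s + 1 := by rw [hs]; exact Int.lt_floor_add_one _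
    linarith
  have hs3 : (2 : ℤ) ≤ s := by
    have : (2 : ℝ) ≤ s := by linarith
    exact_mod_cast this
  have hκn : κ * n ≤ δ * n / (400 * (J + 1)) := by
    have := mul_le_mul_of_nonneg_right hκ2 (Nat.cast_nonneg n : (0 : ℝ) ≤ n)
    calc κ * n ≤ δ / (400 * (J + 1)) * n := this
      _ = δ * n / (400 * (J + 1)) := by ring
  have hκn' : κ * n * (J + 1) ≤ δ * n / 400 := by
    have h1 : (0 : ℝ) < J + 1 := by positivity
    calc κ * n * (J + 1) ≤ δ * n / (400 * (J + 1)) * (J + 1) :=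
          mul_le_mul_of_nonneg_right hκn h1.le
      _ = δ * n / 400 := by field_simp
  have hκn2 : κ * n ≤ δ * n / 400 := by
    have h1 : (0 : ℝ) ≤ κ * n * J := by positivity
    nlinarith [hκn']
  have hrs : r ≤ s := by
    have : (r : ℝ) ≤ s := by linarith
    exact_mod_cast this
  have hJs : (J : ℤ) * (2 * Cn + 1) + 1 ≤ 8 * s := by
    have h1 : (J : ℝ) * Cn ≤ κ * n * (J + 1) := by
      have h2 : (J : ℝ) * Cn ≤ J * (κ * n) := mul_le_mul_of_nonneg_left hCn' (Nat.cast_nonneg J)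
      have h3 : (0 : ℝ) ≤ κ * n := by positivity
      nlinarith
    have h2 : ((J : ℝ) * (2 * Cn + 1) + 1) ≤ 8 * s := by nlinarith [e3]
    exact_mod_cast h2
  have hDs : 81 * s ≤ D := by
    have : (81 * s : ℝ) ≤ D := by linarith
    exact_mod_cast this
  have hAs : 4 * (n : ℤ) ≤ A * s := by
    have h1 : (4 : ℝ) * n ≤ A * s := by
      have h2 : 800 / δ * (δ * n / 200) ≤ A * s :=
        mul_le_mul hA hs2 (by positivity) (Nat.cast_nonneg A)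
      have h3 : 800 / δ * (δ * n / 200) = 4 * n := by field_simp; ring
      linarith
    exact_mod_cast h1
  have hn1 : (1 : ℤ) ≤ n := by exact_mod_cast e4
  have hrn : r ≤ n := by
    have : (r : ℝ) ≤ n := by nlinarith
    exact_mod_cast this
  -- the ratio
  have hx1 : (0 : ℝ) ≤ (2 * (r : ℝ) + 3) / ((80 * s : ℤ) - (3 * s : ℤ) - 1) ∧
      (2 * (r : ℝ) + 3) / ((80 * s : ℤ) - (3 * s : ℤ) - 1) ≤ x₀ := by
    have h1 : (0 : ℝ) ≤ r := by exact_mod_cast hr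
    have h2 : (76 : ℝ) * s ≤ (80 * s : ℤ) - (3 * s : ℤ) - 1 := by
      have : (2 : ℝ) ≤ s := by exact_mod_cast hs3
      push_cast
      linarith
    have h3 : (0 : ℝ) < 76 * s := by
      have : (2 : ℝ) ≤ s := by exact_mod_cast hs3
      linarith
    refine ⟨div_nonneg (by linarith) (by linarith), ?_⟩
    rw [div_le_iff₀ (by linarith)]
    have h4 : 2 * (r : ℝ) + 3 ≤ 3 * (κ * n) := by linarith
    have h5 : κ * n ≤ δ * x₀ / 8 * n := mul_le_mul_of_nonneg_right hκ3 (Nat.cast_nonneg n)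
    have h6 : x₀ * (76 * (δ * n / 200)) ≤ x₀ * ((80 * s : ℤ) - (3 * s : ℤ) - 1) :=
      mul_le_mul_of_nonneg_left (by linarith) hx0.le
    have h7 : 0 ≤ x₀ * (δ * n) := by positivity
    nlinarith
  have hterm : 2 * K * ((K : ℝ) + m) *
      (C * ((2 * (r : ℝ) + 3) / ((80 * s : ℤ) - (3 * s : ℤ) - 1)) ^ α) ≤ τ := by
    have := hx _ hx1.1 hx1.2
    calc _ = 2 * K * ((K : ℝ) + m) * C *
        ((2 * (r : ℝ) + 3) / ((80 * s : ℤ) - (3 * s : ℤ) - 1)) ^ α := by ring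
      _ ≤ τ := this
  -- the net
  obtain ⟨I, hI⟩ : ∃ I : Finset (ℕ × (ℤ × ℤ)), I = range J ×ˢ
      (Finset.Icc (-(A : ℤ)) A ×ˢ Finset.Icc (-(A : ℤ)) A) := ⟨_, rfl⟩
  have hcard : (I.card : ℝ) = J * ((2 * A + 1) * (2 * A + 1)) := by
    rw [hI, card_product, card_product, card_range, Int.card_Icc]
    have : ((A : ℤ) + 1 - -(A : ℤ)).toNat = 2 * A + 1 := by omega
    rw [this]
    push_cast
    ring
  have hsub : {ω | ∃ j < J, Nds n Ru Cn N₀ j ω ∧ ∃ N, ∃ z₁ : ℤ × ℤ,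
      NewG (exR n Ru j) ω N z₁ r D} ⊆ {ω | ∃ i ∈ I, ω ∈ (fun i : ℕ × (ℤ × ℤ) =>
        {ω | Nds n Ru Cn N₀ i.1 ω ∧ ∃ N, ∃ z₁ : ℤ × ℤ, |(s * i.2.1, s * i.2.2).1 - z₁.1| ≤ s ∧
          |(s * i.2.1, s * i.2.2).2 - z₁.2| ≤ s ∧ NewG (exR n Ru i.1) ω N z₁ r D}) i} := by
    rintro ω ⟨j, hj, h1, N, z₁, h2⟩
    have h3 := gate_near hRu (by omega) h2
    rw [abs_le, abs_le] at h3
    have hs0 : 0 < s := by omega
    have d1 := Int.emod_add_mul_ediv z₁.1 s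
    have d2 := Int.emod_nonneg z₁.1 hs0.ne'
    have d3 := Int.emod_lt_of_pos z₁.1 hs0
    have d4 := Int.emod_add_mul_ediv z₁.2 s
    have d5 := Int.emod_nonneg z₁.2 hs0.ne'
    have d6 := Int.emod_lt_of_pos z₁.2 hs0
    have hle : ∀ x : ℤ, |x| ≤ A * s → x / s ∈ Finset.Icc (-(A : ℤ)) A := by
      intro x hx
      rw [abs_le] at hx
      rw [Finset.mem_Icc]
      constructor
      · rw [Int.le_ediv_iff_mul_le hs0]
        linarith [hx.1]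
      · have : x / s ≤ A * s / s := Int.ediv_le_ediv hs0 hx.2
        rwa [Int.mul_ediv_cancel _ hs0.ne'] at this
    refine ⟨(j, (z₁.1 / s, z₁.2 / s)), ?_, h1, N, z₁, ?_, ?_, h2⟩
    · rw [hI, mem_product, mem_product]
      refine ⟨Finset.mem_range.2 hj, hle _ ?_, hle _ ?_⟩
      · rw [abs_le]; omega
      · rw [abs_le]; omega
    · simp only
      rw [abs_le]
      omega
    · simp only
      rw [abs_le]
      omega
  refine ((pr_mono _ hsub).trans (PercL.pr_biUnion_le I _)).trans ?_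
  have hone : ∀ i ∈ I, pr (Sn n) ((fun i : ℕ × (ℤ × ℤ) =>
        {ω | Nds n Ru Cn N₀ i.1 ω ∧ ∃ N, ∃ z₁ : ℤ × ℤ, |(s * i.2.1, s * i.2.2).1 - z₁.1| ≤ s ∧
          |(s * i.2.1, s * i.2.2).2 - z₁.2| ≤ s ∧ NewG (exR n Ru i.1) ω N z₁ r D}) i) ≤ 3 * τ := by
    rintro ⟨j, a, b⟩ hi
    rw [hI, mem_product] at hi
    have h1 := hmain n h Ru hRu J j N₀ (s * a, s * b) Cn s r (3 * s) (16 * s) (72 * s) (80 * s) D
      k' k (Finset.mem_range.1 hi.1) hCn (by omega) hr (by omega) (by omega) (by omega) (by omega)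
      (by omega) m K hm hK
    refine h1.trans ?_
    have h2 : q ^ (k' + 1) ≤ τ := by
      refine le_trans ?_ hk'.le
      exact pow_le_pow_of_le_one hq0.le hq1.le (Nat.le_succ k')
    linarith
  refine (Finset.sum_le_sum hone).trans ?_
  rw [Finset.sum_const, nsmul_eq_mul, hcard]
  have h1 : 3 * τ * M = η := by rw [hτ]; field_simp
  have h2 : (0 : ℝ) ≤ 3 * τ := by positivity
  nlinarith [hM]

/-- The same with the condition on the needles as a hypothesis. -/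
theorem near_all' (J N₀ : ℕ) {δ η : ℝ} (hδ : 0 < δ) (hη : 0 < η) :
    ∃ κ : ℝ, 0 < κ ∧ ∃ n₀ : ℕ, ∀ n ≥ n₀, ∀ (h : ℕ) (Ru : Rul) (Cn r D : ℤ), RulOK n h Ru →
      0 ≤ Cn → (Cn : ℝ) ≤ κ * n → 0 ≤ r → (r : ℝ) ≤ κ * n → δ * n ≤ D →
      (∀ ω : Cfg, ∀ j < J, ∀ q, Ru j (cfgE n ω) = some q → NdOK q.1 Cn N₀) →
      pr (Sn n) {ω | ∃ j < J, (exR n Ru j).Wll ω ∧ ∃ t, ∃ z₁ : ℤ × ℤ,
        Nb ((exR n Ru j).cf ω) ((exR n Ru j).e ω) t ∧ (exR n Ru j).Gate ω t z₁ r ∧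
        ¬ (exR n Ru j).Gate ω 0 z₁ r ∧ fa ((exR n Ru j).e ω) ∉ Bx z₁ D ∧
        fa ((exR n Ru j).p ω t) ∉ Bx z₁ D} ≤ η := by
  obtain ⟨κ, hκ, n₀, h1⟩ := near_all J N₀ hδ hη
  refine ⟨κ, hκ, n₀, fun n hn h Ru Cn r D h2 h3 h4 h5 h6 h7 h8 => ?_⟩
  refine (pr_mono _ ?_).trans (h1 n hn h Ru Cn r D h2 h3 h4 h5 h6 h7)
  rintro ω ⟨j, hj, hW, t, z₁, h9⟩
  exact ⟨j, hj, fun i hi q hq => h8 ω i (by omega) q hq, t, z₁, hW, t, le_rfl, h9⟩

end Pool.Agent.SixB.NM
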