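import Pool.Agent.Lib.SixB.S8NearCountC
import Pool.Agent.Lib.SixB.S8WallCnt
import Pool.Agent.Lib.SixB.S8GateZero
import Pool.Agent.Lib.SixB.S8CountI
import Pool.Agent.Lib.SixB.S8NMAll

/-!
# Step 8: the number of passages of the strand over an annulus

`Alt P Q N k` (`S8CountI`): before the time `N` there are `k` passages `Q`, `P`, `Q`.

* `exists_visits`: many passages of the strand between a box and the outside of a larger box (of any
  ratio) give many deep visits (`Near.hk`) to a point of a finite net, with a ratio as small as wanted.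
* `ndOK_of`: a needle of size `h` satisfies `NdOK` with a spot of radius `5 h + 1` and one piece.
* `exR_wll`: the walls of a step with a needle.
* `VisJ`: the step `j` has `K` complete visits; `vis_bd`: the bound for a finite net of centres.
* `vis_all`: the number of complete visits is tight, uniformly in the rule, for all the centres of a
  window. `alt_all`: the number of passages over an annulus is tight, for all centres and radii. The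
  condition `NM.Nds` on the needles is inside of the events; `vis_tight`, `alt_tight`: the same with this
  condition for all the configurations.
-/

set_option autoImplicit false

namespace Pool.Agent.SixB.CountP

open Finset Pool.Agent.Perc Pool.Agent.PercT Pool.Agent.SixB Pool.Agent.SixB.Near
open Pool.Agent.SixB.StkC (Alt)
open Pool.Agent.SixB.NearCut (Nb)
open Pool.Agent.SixB.NM (Nds)

section Alt

variable {P Q P' Q' : ℕ → Prop} {N k k' : ℕ}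

theorem mono_of {i : ℕ → ℕ} {m : ℕ} (h : ∀ l < m, i l < i (l + 1)) {a b : ℕ} (hab : a ≤ b)
    (hb : b ≤ m) : i a ≤ i b := by
  induction b, hab using Nat.le_induction with
  | base => exact le_rfl
  | succ b hab ih => exact (ih (by omega)).trans (h b (by omega)).le

theorem lt_of {i : ℕ → ℕ} {m : ℕ} (h : ∀ l < m, i l < i (l + 1)) {a b : ℕ} (hab : a < b)
    (hb : b ≤ m) : i a < i b :=
  (h a (by omega)).trans_le (mono_of h hab hb)

theorem alt_le (h : Alt P Q N k) (hk : k' ≤ k) : Alt P Q N k' := by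
  obtain ⟨i, h1, h2, h3, h4⟩ := h
  exact ⟨i, fun l hl => h1 l (by omega), (mono_of h1 (by omega) le_rfl).trans h2,
    fun l hl => h3 l (by omega), fun l hl => h4 l (by omega)⟩

theorem alt_mono (h : Alt P Q N k) (hP : ∀ t ≤ N, P t → P' t) (hQ : ∀ t ≤ N, Q t → Q' t) :
    Alt P' Q' N k := by
  obtain ⟨i, h1, h2, h3, h4⟩ := h
  refine ⟨i, h1, h2, fun l hl => hQ _ ?_ (h3 l hl), fun l hl => hP _ ?_ (h4 l hl)⟩
  · exact (mono_of h1 (by omega) le_rfl).trans h2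
  · exact (mono_of h1 (by omega) le_rfl).trans h2

theorem alt_time (h : Alt P Q N k) {N' : ℕ} (hN : N ≤ N') : Alt P Q N' k := by
  obtain ⟨i, h1, h2, h3, h4⟩ := h
  exact ⟨i, h1, h2.trans hN, h3, h4⟩

end Alt

/-- Sup distance. -/
def sd (u v : ℤ × ℤ) : ℤ := max |u.1 - v.1| |u.2 - v.2|

theorem sd_le_iff {u v : ℤ × ℤ} {r : ℤ} : sd u v ≤ r ↔
    v.1 - r ≤ u.1 ∧ u.1 ≤ v.1 + r ∧ v.2 - r ≤ u.2 ∧ u.2 ≤ v.2 + r := by
  unfold sd
  rw [max_le_iff, abs_le, abs_le]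
  omega

theorem inB_iff {z : ℤ × ℤ} {r : ℤ} {a : UE} : InB z r a ↔ sd (ua a) z ≤ r := by
  rw [sd_le_iff]
  rfl

/-- The distance changes by at most one. -/
theorem sd_pth_succ (ω : Cfg) (e : UE) (y : ℤ × ℤ) (t : ℕ) :
    sd (ua (pth ω e (t + 1))) y ≤ sd (ua (pth ω e t)) y + 1 ∧
      sd (ua (pth ω e t)) y ≤ sd (ua (pth ω e (t + 1))) y + 1 := by
  have h := ua_nx ω (pth ω e t)
  rw [← pth_succ] at h
  have h1 := (sd_le_iff (u := ua (pth ω e t)) (v := y)).1 le_rfl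
  have h2 := (sd_le_iff (u := ua (pth ω e (t + 1))) (v := y)).1 le_rfl
  rw [sd_le_iff, sd_le_iff]
  omega

/-- Intermediate value. -/
theorem exists_mid (ω : Cfg) (e : UE) {y : ℤ × ℤ} {m : ℤ} {s t : ℕ} (hst : s ≤ t)
    (h0 : m ≤ sd (ua (pth ω e s)) y) (h1 : sd (ua (pth ω e t)) y ≤ m) :
    ∃ u, s ≤ u ∧ u ≤ t ∧ sd (ua (pth ω e u)) y = m := by
  induction t, hst using Nat.le_induction with
  | base => exact ⟨s, le_rfl, le_rfl, le_antisymm h1 h0⟩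
  | succ t hst ih =>
    rcases le_or_gt (sd (ua (pth ω e t)) y) m with h | h
    · obtain ⟨u, h2, h3, h4⟩ := ih h
      exact ⟨u, h2, by omega, h4⟩
    · have h2 := (sd_pth_succ ω e y t).2
      exact ⟨t + 1, by omega, le_rfl, by omega⟩

/-- The net of mesh `ρ` of the box of radius `m`. -/
noncomputable def net (y : ℤ × ℤ) (m ρ : ℤ) : Finset (ℤ × ℤ) :=
  (Icc (-(m / ρ + 1)) (m / ρ + 1) ×ˢ Icc (-(m / ρ + 1)) (m / ρ + 1)).image
    fun u => (y.1 + ρ * u.1, y.2 + ρ * u.2)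

theorem card_net (y : ℤ × ℤ) {m ρ : ℤ} (hm : 0 ≤ m) (hρ : 0 < ρ) :
    ((net y m ρ).card : ℤ) ≤ (2 * (m / ρ) + 3) ^ 2 := by
  have h0 : 0 ≤ m / ρ := Int.ediv_nonneg hm hρ.le
  have h1 : (net y m ρ).card ≤ ((2 * (m / ρ) + 3) ^ 2).toNat := by
    refine card_image_le.trans ?_
    rw [card_product, Int.card_Icc]
    have : (m / ρ + 1 + 1 - -(m / ρ + 1)).toNat = (2 * (m / ρ) + 3).toNat := by congr 1; ring
    rw [this, pow_two, Int.toNat_mul (by omega) (by omega)]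
  have h2 : (0 : ℤ) ≤ (2 * (m / ρ) + 3) ^ 2 := by positivity
  omega

/-- The nearest point of the net. -/
theorem exists_net {x y : ℤ × ℤ} {m ρ : ℤ} (hρ : 0 < ρ) (h : sd x y ≤ m) :
    ∃ c ∈ net y m ρ, sd x c ≤ ρ := by
  rw [sd_le_iff] at h
  have h1 := Int.mul_ediv_self_le (x := x.1 - y.1) hρ.ne'
  have h2 := Int.lt_mul_ediv_self_add (x := x.1 - y.1) hρ
  have h3 := Int.mul_ediv_self_le (x := x.2 - y.2) hρ.ne'
  have h4 := Int.lt_mul_ediv_self_add (x := x.2 - y.2) hρ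
  have hb : ∀ t : ℤ, -m ≤ t → t ≤ m → -(m / ρ + 1) ≤ t / ρ ∧ t / ρ ≤ m / ρ + 1 := by
    intro t ht1 ht2
    constructor
    · rw [Int.le_ediv_iff_mul_le hρ]
      have := Int.lt_mul_ediv_self_add (x := m) hρ
      have e : -(m / ρ + 1) * ρ = -(ρ * (m / ρ) + ρ) := by ring
      rw [e]
      omega
    · have := Int.ediv_le_ediv hρ ht2
      omega
  refine ⟨(y.1 + ρ * ((x.1 - y.1) / ρ), y.2 + ρ * ((x.2 - y.2) / ρ)), ?_, ?_⟩
  · unfold net
    rw [mem_image]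
    refine ⟨((x.1 - y.1) / ρ, (x.2 - y.2) / ρ), ?_, rfl⟩
    rw [mem_product, mem_Icc, mem_Icc]
    exact ⟨hb _ (by omega) (by omega), hb _ (by omega) (by omega)⟩
  · rw [sd_le_iff]
    simp only
    omega

variable {E : Ex} {ω : Cfg} {y z : ℤ × ℤ} {a b m ρ R : ℤ} {N k K : ℕ}

/-- A unit edge far from the box has its face outside. -/
theorem fa_notMem (a : UE) (h : R + 1 ≤ sd (ua a) z) : fa a ∉ Bx z R := by
  intro h1
  unfold Bx at h1
  rw [Finset.mem_coe, mem_RF] at h1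
  have h2 : sd (ua a) z ≤ R := by
    rw [sd_le_iff]
    have h3 := isSide_fa a
    have h4 : ∀ f : ℤ × ℤ, (a = bo f ∨ a = le' f ∨ a = to' f ∨ a = ri f) →
        f.1 ≤ (ua a).1 ∧ (ua a).1 ≤ f.1 + 1 ∧ f.2 ≤ (ua a).2 ∧ (ua a).2 ≤ f.2 + 1 := by
      rintro f (h3 | h3 | h3 | h3) <;> rw [h3] <;> simp [ua, bo, le', to', ri]
    have h5 := h4 _ h3
    omega
  omega

/-- Separated deep times bound the entry times of the visits. -/
theorem hk_le_of {τ β : ℕ → ℕ} (h1 : ∀ j < K, InB z ρ (E.p ω (τ j)))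
    (h2 : ∀ j, j + 1 < K → τ j ≤ β j ∧ β j ≤ τ (j + 1) ∧ fa (E.p ω (β j)) ∉ Bx z R) :
    ∀ j < K, hk E ω z ρ R N j ≤ τ j := by
  intro j
  induction j with
  | zero => exact fun h => hit_le_of (h1 0 h)
  | succ j ih =>
    intro h
    obtain ⟨h3, h4, h5⟩ := h2 j h
    refine hit_le_of ⟨⟨β j, h4, (ih (by omega)).trans h3, h5⟩, h1 (j + 1) h⟩

/-- **Many passages over an annulus give many deep visits of a point of a finite net.** -/
theorem exists_visits {y₀ : ℤ × ℤ} {L : ℤ} (hL : ∀ x, sd x y = m → sd x y₀ ≤ L) (hρ : 0 < ρ)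
    (ham : a ≤ m) (hmb : m + 2 * ρ + R + 1 ≤ b) (hR : 0 ≤ R)
    (h : Alt (fun t => InB y a (E.p ω t)) (fun t => ¬ InB y b (E.p ω t)) N k)
    (hK : K * (net y₀ L ρ).card < k) :
    ∃ z ∈ net y₀ L ρ, (∃ x, sd x y = m ∧ sd x z ≤ ρ) ∧ hk E ω z ρ R N K < N := by
  classical
  obtain ⟨i, h1, h2, h3, h4⟩ := h
  -- one deep time for every passage
  have hone : ∀ l, l < k → ∃ c ∈ net y₀ L ρ, ∃ u, i (2 * l) ≤ u ∧
      u ≤ i (2 * l + 1) ∧ InB c ρ (E.p ω u) ∧ sd (ua (E.p ω u)) y = m := by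
    intro l hl
    have h5 : ¬ sd (ua (E.p ω (i (2 * l)))) y ≤ b := fun h' => h3 l hl.le (inB_iff.2 h')
    have h6 : sd (ua (E.p ω (i (2 * l + 1)))) y ≤ a := inB_iff.1 (h4 l hl)
    obtain ⟨u, u1, u2, u3⟩ := exists_mid (E.cf ω) (E.e ω) (y := y) (m := m)
      (h1 (2 * l) (by omega)).le (by
        change m ≤ sd (ua (E.p ω (i (2 * l)))) y
        omega) (by
        change sd (ua (E.p ω (i (2 * l + 1)))) y ≤ m
        omega)
    obtain ⟨c, c1, c2⟩ := exists_net (y := y₀) (m := L) hρ (hL _ u3)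
    exact ⟨c, c1, u, u1, u2, inB_iff.2 c2, u3⟩
  choose! c hc τ hτ1 hτ2 hτ3 hτ4 using hone
  -- pigeonhole
  obtain ⟨z, hz, hzK⟩ := exists_lt_card_fiber_of_mul_lt_card_of_maps_to
    (s := range k) (t := net y₀ L ρ) (f := c) (n := K) (fun l hl => hc l (mem_range.1 hl))
    (by rw [card_range, mul_comm]; exact hK)
  set L := (range k).filter fun l => c l = z with hL
  have hlt : ∀ j < K + 1, ∃ l ∈ L, True := fun j hj => by
    have : 0 < L.card := by omega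
    obtain ⟨l, hl⟩ := card_pos.1 this
    exact ⟨l, hl, trivial⟩
  -- the passages in increasing order
  let g := L.orderEmbOfFin rfl
  have hgL : ∀ j, g j ∈ L := fun j => L.orderEmbOfFin_mem rfl j
  have hg : ∀ j, g j < k ∧ c (g j) = z := fun j => by
    have h5 := mem_filter.1 (hgL j)
    exact ⟨mem_range.1 h5.1, h5.2⟩
  have hcard : K + 1 ≤ L.card := hzK
  set G : ℕ → ℕ := fun j => if hj : j < L.card then g ⟨j, hj⟩ else 0 with hG
  have hG1 : ∀ j, j < L.card → G j < k ∧ c (G j) = z := by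
    intro j hj
    rw [hG]
    simp only [hj, dif_pos]
    exact hg _
  have hG2 : ∀ j, j + 1 < L.card → G j < G (j + 1) := by
    intro j hj
    rw [hG]
    simp only [hj, (by omega : j < L.card), dif_pos]
    exact g.strictMono (by simp)
  refine ⟨z, hz, ?_, ?_⟩
  · obtain ⟨h5, h6⟩ := hG1 0 (by omega)
    refine ⟨_, hτ4 _ h5, ?_⟩
    have := hτ3 _ h5
    rw [h6] at this
    exact inB_iff.1 this
  have hzy : sd z y ≤ m + ρ := by
    obtain ⟨h5, h6⟩ := hG1 0 (by omega)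
    have h7 := hτ3 _ h5
    rw [h6] at h7
    have h8 := inB_iff.1 h7
    have h9 := hτ4 _ h5
    have h10 := (sd_le_iff (u := ua (E.p ω (τ (G 0)))) (v := y)).1 h9.le
    rw [sd_le_iff] at h8 ⊢
    omega
  have hkey := hk_le_of (E := E) (ω := ω) (z := z) (ρ := ρ) (R := R) (N := N) (K := K + 1)
    (τ := fun j => τ (G j)) (β := fun j => i (2 * G (j + 1))) ?_ ?_ K (Nat.lt_succ_self K)
  · refine lt_of_le_of_lt hkey ?_
    obtain ⟨h5, h6⟩ := hG1 K (by omega)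
    refine lt_of_le_of_lt (hτ2 _ h5) (lt_of_lt_of_le ?_ h2)
    exact lt_of h1 (by omega) le_rfl
  · intro j hj
    obtain ⟨h5, h6⟩ := hG1 j (by omega)
    have := hτ3 _ h5
    rw [h6] at this
    exact this
  · intro j hj
    obtain ⟨h5, h6⟩ := hG1 j (by omega)
    obtain ⟨h7, h8⟩ := hG1 (j + 1) (by omega)
    have h9 := hG2 j (by omega)
    refine ⟨(hτ2 _ h5).trans (mono_of h1 (by omega) (by omega)), hτ1 _ h7, fa_notMem _ ?_⟩
    have h10 : ¬ sd (ua (E.p ω (i (2 * G (j + 1))))) y ≤ b := fun h' => h3 _ h7.le (inB_iff.2 h')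
    by_contra hcon
    push Not at hcon
    apply h10
    have h11 : sd (ua (E.p ω (i (2 * G (j + 1))))) z ≤ R := by omega
    rw [sd_le_iff] at h11 hzy ⊢
    omega

/-! ### The needles -/

section Needles

open Pool.Agent.PercX60 Pool.Agent.SixB.Rule Pool.Agent.SixB.Scan Pool.Agent.SixB.Dct
open Pool.Agent.SixB.WC (Dm NdPc NdOK)
open Pool.Agent.MP_6bd702.H23 (Ed ea eb ea_mk eb_true eb_false)
open Pool.Agent.PercO (tl_eq hd_eq)

theorem dm_iff_sd {v : ℤ × ℤ} {r : ℤ} : Dm z r v ↔ sd (phiV v) z ≤ r := by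
  rw [WC.dm_iff, sd_le_iff]
  rfl

theorem sd_phiV_le {h : ℕ} {v w : ℤ × ℤ} (H : dist (toC v) (toC w) ≤ 3 * h) :
    sd (phiV v) (phiV w) ≤ 5 * h := by
  obtain ⟨x, y⟩ := v
  obtain ⟨x', y'⟩ := w
  have h1 : ((x - x' : ℤ) : ℝ) ^ 2 + ((y - y' : ℤ) : ℝ) ^ 2 ≤ (3 * h : ℝ) ^ 2 := by
    have h2 : dist (toC (x, y)) (toC (x', y')) ^ 2 =
        ((x - x' : ℤ) : ℝ) ^ 2 + ((y - y' : ℤ) : ℝ) ^ 2 := by
      rw [Complex.dist_eq, Complex.sq_norm, Complex.normSq_apply]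
      unfold toC
      simp
      ring
    rw [← h2]
    exact pow_le_pow_left₀ dist_nonneg H 2
  have h3 : (x - x') ^ 2 + (y - y') ^ 2 ≤ (3 * (h : ℤ)) ^ 2 := by exact_mod_cast h1
  have h4 : ∀ u : ℤ, u ^ 2 ≤ 2 * ((x - x') ^ 2 + (y - y') ^ 2) → |u| ≤ 5 * (h : ℤ) := by
    intro u hu
    have h5 : u ^ 2 ≤ (5 * (h : ℤ)) ^ 2 := by nlinarith [sq_nonneg (h : ℤ)]
    exact abs_le_of_sq_le_sq h5 (by positivity)
  have h5 : |x + y - (x' + y')| ≤ 5 * (h : ℤ) := h4 _ (by nlinarith [sq_nonneg (x - x' - (y - y'))])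
  have h6 : |x - y - (x' - y')| ≤ 5 * (h : ℤ) := h4 _ (by nlinarith [sq_nonneg (x - x' + (y - y'))])
  unfold sd phiV
  exact max_le h5 h6

/-- The needle is joined to its base. -/
theorem conn_ndl {Q : Finset Edg} {F : Set (ℤ × ℤ)} {u v : ℤ × ℤ} (hF : QF Q ⊆ F)
    (h : v ∈ clV Q u) : Conn (gT (Q : Set Ed)) F (phiV u) (phiV v) := by
  have hm : Relation.ReflTransGen (AdjT Q) u v := h
  induction hm with
  | refl => exact Relation.ReflTransGen.refl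
  | @tail b d _ hs ih =>
    refine (ih (by assumption)).tail ?_
    obtain ⟨e, he, hh⟩ := hs
    rw [tl_eq, hd_eq] at hh
    have h1 : eE (phiE e) ∈ (Q : Set Ed) := by rw [eE_phiE]; exact he
    have h2 := WC.bond_face h1
    have h3 : Bond (gT (Q : Set Ed)) F (phiV (ea (eE (phiE e)))) (phiV (eb (eE (phiE e)))) :=
      bond_of_single (hF (by show eE (phiE e) ∈ Q; rw [eE_phiE]; exact he)) h2
    rw [eE_phiE] at h3
    rcases hh with ⟨h4, h5⟩ | ⟨h4, h5⟩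
    · rw [h4, h5] at h3; exact h3
    · rw [h4, h5] at h3; exact h3.symm

/-- A small needle has at most one piece in a box whose boundary is not near. -/
theorem ndOK_of {U : Finset (ℤ × ℤ)} {q : Ndl} {h : ℕ} (hq : IsNdl h U q) :
    NdOK q.1 (5 * h + 1) 1 := by
  refine ⟨phiV q.2, fun z r hr => ?_⟩
  have hV : ∀ v ∈ qV q.1, sd (phiV v) (phiV q.2) ≤ 5 * h := fun v hv => sd_phiV_le (hq.diam v hv)
  have hQF : QF q.1 ⊆ Bx (phiV q.2) (5 * h + 1) := by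
    intro f hf
    have hf' : eE f ∈ q.1 := hf
    have h1 : sd (phiV (ea (eE f))) (phiV q.2) ≤ 5 * h := hV _ (by
      unfold qV
      rw [mem_union, mem_image, mem_image]
      exact Or.inl ⟨_, hf', rfl⟩)
    rw [WC.mem_bx]
    have h6 := WC.bond_face (S := (q.1 : Set Ed)) (Finset.mem_coe.2 hf')
    obtain ⟨X, Y, hXY, h7⟩ := h6
    rw [Set.mem_singleton_iff] at hXY
    subst hXY
    rw [sd_le_iff] at h1
    rcases h7 with ⟨-, ⟨h7, -⟩ | ⟨h7, -⟩⟩ | ⟨-, ⟨h7, -⟩ | ⟨h7, -⟩⟩ <;>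
      rw [h7] at h1 <;> simp only at h1 ⊢ <;> omega
  rcases hr with hr | hr
  · refine ⟨{q.2}, by simp, ?_, ?_⟩
    · intro s hs
      rw [mem_singleton.1 hs, dm_iff_sd]
      have h1 : phiV q.2 ∈ Bx (phiV q.2) (5 * h + 1) := by
        rw [WC.mem_bx]
        omega
      have h2 := hr h1
      rw [WC.mem_bx] at h2
      rw [sd_le_iff]
      omega
    · intro f hf _
      refine ⟨q.2, mem_singleton_self _, ?_⟩
      refine conn_ndl (F := QF q.1 ∩ Bx z r) (fun g hg => ⟨hg, hr (hQF hg)⟩) (hq.conn _ ?_)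
      unfold qV
      rw [mem_union, mem_image, mem_image]
      exact Or.inl ⟨_, hf, rfl⟩
  · refine ⟨∅, by simp, fun s hs => absurd hs (notMem_empty s), ?_⟩
    intro f hf hfr
    exact absurd hfr (Set.disjoint_left.1 hr (hQF hf))

/-- The walls of a step with a needle. -/
theorem exR_wll {n h : ℕ} {Ru : Rul} (hR : RulOK n h Ru) {j : ℕ}
    (hk : ∃ k, NdF (rem n Ru j ω) (ndE n Ru j ω) k ∧ PercU.vtx k = ndB n Ru j ω) :
    (exR n Ru j).Wll ω :=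
  GZ.wll (GZ.Stp.of_zeta rfl rfl rfl) (bc_spec hk).1 (inv_stR hR (DictB.cfgE_subset n ω) j)

/-! ### Visits are rare -/

/-- The step `j` has `K` complete visits to the deep part of the box. -/
def VisJ (n : ℕ) (Ru : Rul) (j : ℕ) (ω : Cfg) (z : ℤ × ℤ) (ρ R : ℤ) (K : ℕ) : Prop :=
  (exR n Ru j).Wll ω ∧ ∃ N, Nb ((exR n Ru j).cf ω) ((exR n Ru j).e ω)
    (hk (exR n Ru j) ω z ρ R N K) ∧ fa ((exR n Ru j).e ω) ∉ Bx z R ∧
    hk (exR n Ru j) ω z ρ R N K < N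

/-- Visits to a smaller box are visits to a larger box. -/
theorem hk_shift {z' : ℤ × ℤ} {s ρ' R' : ℤ} (hz : sd z z' ≤ s) (hρ' : ρ + s ≤ ρ')
    (hR' : R' + s ≤ R) (h : hk E ω z ρ R N K < N) : hk E ω z' ρ' R' N K ≤ hk E ω z ρ R N K := by
  have hz' := hz
  rw [sd_le_iff] at hz'
  have hlt : ∀ j ≤ K, hk E ω z ρ R N j < N := fun j hj => (hk_mono hj).trans_lt h
  have hin : ∀ j ≤ K, InB z ρ (E.p ω (hk E ω z ρ R N j)) := by
    intro j hj
    cases j with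
    | zero =>
      rcases hit_spec N fun t => InB z ρ (E.p ω t) with h1 | h1
      · exact absurd h1 (hlt 0 hj).ne
      · exact h1
    | succ j =>
      rcases hit_spec N fun t => (∃ b ≤ t, hk E ω z ρ R N j ≤ b ∧ fa (E.p ω b) ∉ Bx z R) ∧
        InB z ρ (E.p ω t) with h1 | h1
      · exact absurd h1 (hlt (j + 1) hj).ne
      · exact h1.2
  have hout : ∀ j, ∃ b, j + 1 ≤ K → b ≤ hk E ω z ρ R N (j + 1) ∧ hk E ω z ρ R N j ≤ b ∧
      fa (E.p ω b) ∉ Bx z R := by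
    intro j
    by_cases hj : j + 1 ≤ K
    · rcases hit_spec N fun t => (∃ b ≤ t, hk E ω z ρ R N j ≤ b ∧ fa (E.p ω b) ∉ Bx z R) ∧
        InB z ρ (E.p ω t) with h1 | h1
      · exact absurd h1 (hlt (j + 1) hj).ne
      · obtain ⟨⟨b, h2, h3, h4⟩, -⟩ := h1
        exact ⟨b, fun _ => ⟨h2, h3, h4⟩⟩
    · exact ⟨0, fun h => absurd h hj⟩
  choose β hβ using hout
  refine hk_le_of (K := K + 1) (τ := fun j => hk E ω z ρ R N j) (β := β) ?_ ?_ K (Nat.lt_succ_self K)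
  · intro j hj
    have h1 := inB_iff.1 (hin j (by omega))
    rw [inB_iff]
    rw [sd_le_iff] at h1 ⊢
    omega
  · intro j hj
    obtain ⟨h1, h2, h3⟩ := hβ j (by omega)
    refine ⟨h2, h1, fun h4 => h3 ?_⟩
    rw [WC.mem_bx] at h4 ⊢
    omega

theorem VisJ.shift {n : ℕ} {Ru : Rul} {j : ℕ} {z' : ℤ × ℤ} {s ρ' R' : ℤ} (hz : sd z z' ≤ s)
    (hρ' : ρ + s ≤ ρ') (hR' : R' + s ≤ R) (h : VisJ n Ru j ω z ρ R K) :
    VisJ n Ru j ω z' ρ' R' K := by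
  obtain ⟨h1, N, h2, h3, h4⟩ := h
  have h5 := hk_shift hz hρ' hR' h4
  refine ⟨h1, N, fun l hl hl' => h2 l hl (hl'.trans h5), fun h6 => h3 ?_, h5.trans_lt h4⟩
  rw [sd_le_iff] at hz
  rw [WC.mem_bx] at h6 ⊢
  omega

/-- Visits give crossing classes. -/
theorem VisJ.crN {n h J N₀ : ℕ} {C : ℤ} {Ru : Rul} (hR : RulOK n h Ru) {j : ℕ} (hj : j < J)
    (hC : 0 ≤ C) (hN : Nds n Ru C N₀ j ω) {ρ' r : ℤ}
    (hρ0 : 0 ≤ ρ) (hρ : ρ + 1 < ρ') (hρr : ρ' + 1 ≤ r) (hr : r + J * (2 * C + 1) + 1 ≤ R)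
    (hK : 2 * (4 + J * (N₀ + k + 2)) + 2 * k ≤ K + 2) (h : VisJ n Ru j ω z ρ R K) :
    CrN ω 0 (FU (Box n)) z (ρ' + 1) r (k + 1) ∨ CrN ω 0 ((exR n Ru j).U ω) z (ρ + 1) ρ' k ∨
      CrN ω 1 ((exR n Ru j).U ω) z (ρ + 1) ρ' k := by
  by_cases hk0 : CrN ω 0 (FU (Box n)) z (ρ' + 1) r (k + 1)
  · exact Or.inl hk0
  refine Or.inr ?_
  obtain ⟨h1, N, h2, h3, h4⟩ := h
  have hjJ : ((j : ℤ) + 1) ≤ J := by exact_mod_cast hj
  have h5 : ((j : ℤ) + 1) * (2 * C + 1) ≤ J * (2 * C + 1) :=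
    mul_le_mul_of_nonneg_right hjJ (by omega)
  have h50 : 0 ≤ ((j : ℤ) + 1) * (2 * C + 1) := by positivity
  obtain ⟨rep, h6⟩ := WC.wall_rep_ok hR j (by omega) hC hρr (by omega)
    hN hk0 h3
  have h7 : (j + 1) * (N₀ + k + 2) ≤ J * (N₀ + k + 2) := Nat.mul_le_mul_right _ hj
  refine visits_or (m := 4 + (j + 1) * (N₀ + k + 2)) (rep := rep) hρ (by omega) ?_ (by omega)
    ⟨h2, h3, h4, h1, h6⟩
  omega

theorem FU_sub_Sn (n : ℕ) : FU (Box n) ⊆ (Sn n : Set (ℤ × ℤ)) := by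
  intro f hf
  rw [Finset.mem_coe, Sn, mem_image]
  exact ⟨eE f, eE_mem_boxE (Finset.Subset.refl _) hf, phiE_eE f⟩

theorem exR_U_sub {n h : ℕ} {Ru : Rul} (hR : RulOK n h Ru) (j : ℕ) (ω : Cfg) :
    (exR n Ru j).U ω ⊆ FU (Box n) := by
  have hU : rem n Ru j ω ⊆ Box n := (inv_stR hR (DictB.cfgE_subset n ω) j).sub
  intro f hf
  exact ⟨hU hf.1.1, hU hf.1.2⟩

/-- **Bound for many complete visits**, a finite net of centres and finitely many steps. -/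
theorem vis_bd : ∃ q : ℝ, 0 < q ∧ q < 1 ∧ ∀ (n h J N₀ k : ℕ) (Ru : Rul) (C : ℤ), RulOK n h Ru →
    0 ≤ C → ∀ (Z : Finset (ℤ × ℤ)) (ρ ρ' r R : ℤ) (K : ℕ), 0 ≤ ρ → 4 * (ρ + 1) ≤ ρ' →
    4 * (ρ' + 1) ≤ r → r + J * (2 * C + 1) + 1 ≤ R → 2 * (4 + J * (N₀ + k + 2)) + 2 * k ≤ K + 2 →
    pr (Sn n) {ω | ∃ j < J, Nds n Ru C N₀ j ω ∧ ∃ z ∈ Z, VisJ n Ru j ω z ρ R K} ≤
      Z.card * ((2 * J + 1) * q ^ k) := by
  obtain ⟨q₁, a1, a2, ha⟩ := pr_crN_four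
  obtain ⟨q₂, b1, b2, hb⟩ := pr_crN_stop_four
  refine ⟨max q₁ q₂, lt_max_of_lt_left a1, max_lt a2 b2, ?_⟩
  intro n h J N₀ k Ru C hR hC Z ρ ρ' r R K h0 h1 h2 h3 h4
  set q := max q₁ q₂ with hq
  have hq0 : 0 ≤ q := a1.le.trans (le_max_left _ _)
  have hq1 : q ≤ 1 := (max_lt a2 b2).le
  have hA : ∀ z : ℤ × ℤ, pr (Sn n) {ω | CrN ω 0 (FU (Box n)) z (ρ' + 1) r (k + 1)} ≤ q ^ k := by
    intro z
    refine (ha (Sn n) 0 (FU (Box n)) z (ρ' + 1) r (k + 1) (by omega) h2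
      (Set.inter_subset_left.trans (FU_sub_Sn n))).trans ?_
    calc q₁ ^ (k + 1) ≤ q ^ (k + 1) := pow_le_pow_left₀ a1.le (le_max_left _ _) _
      _ ≤ q ^ k := pow_le_pow_of_le_one hq0 hq1 (Nat.le_succ k)
  have hB : ∀ (c : ℤ) (j : ℕ) (z : ℤ × ℤ),
      pr (Sn n) {ω | CrN ω c ((exR n Ru j).U ω) z (ρ + 1) ρ' k} ≤ q ^ k := by
    intro c j z
    have h5 := hb (Sn n) (expl n Ru j) (expl_stop hR j) Set.univ (fun _ _ _ _ => Set.mem_univ _)
      (exR n Ru j).U (exR_ok hR j).U (fun ω _ => (exR_U_sub hR j ω).trans (FU_sub_Sn n))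
      (fun ω _ => exR_disj n Ru j ω) c z (ρ + 1) ρ' k (by omega) h1
    rw [Set.univ_inter] at h5
    refine h5.trans ?_
    calc q₂ ^ k * pr (Sn n) Set.univ ≤ q₂ ^ k * 1 :=
          mul_le_mul_of_nonneg_left (pr_le_one _ _) (by positivity)
      _ = q₂ ^ k := mul_one _
      _ ≤ q ^ k := pow_le_pow_left₀ b1.le (le_max_right _ _) _
  have hsub : {ω | ∃ j < J, Nds n Ru C N₀ j ω ∧ ∃ z ∈ Z, VisJ n Ru j ω z ρ R K} ⊆ {ω | ∃ z ∈ Z,
      ω ∈ {ω | CrN ω 0 (FU (Box n)) z (ρ' + 1) r (k + 1)} ∪ {ω | ∃ j ∈ range J,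
        ω ∈ {ω | CrN ω 0 ((exR n Ru j).U ω) z (ρ + 1) ρ' k} ∪
          {ω | CrN ω 1 ((exR n Ru j).U ω) z (ρ + 1) ρ' k}}} := by
    rintro ω ⟨j, hj, hN, z, hz, hV⟩
    refine ⟨z, hz, ?_⟩
    rcases hV.crN (ρ' := ρ') (r := r) hR hj hC hN h0 (by omega) (by omega) h3 h4 with
      h5 | h5 | h5
    · exact Or.inl h5
    · exact Or.inr ⟨j, mem_range.2 hj, Or.inl h5⟩
    · exact Or.inr ⟨j, mem_range.2 hj, Or.inr h5⟩
  refine ((pr_mono _ hsub).trans (PercL.pr_biUnion_le Z _)).trans ?_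
  have h5 : ∀ z ∈ Z, pr (Sn n) ({ω | CrN ω 0 (FU (Box n)) z (ρ' + 1) r (k + 1)} ∪
      {ω | ∃ j ∈ range J, ω ∈ {ω | CrN ω 0 ((exR n Ru j).U ω) z (ρ + 1) ρ' k} ∪
          {ω | CrN ω 1 ((exR n Ru j).U ω) z (ρ + 1) ρ' k}}) ≤ (2 * J + 1) * q ^ k := by
    intro z _
    refine (pr_union_le _ _ _).trans ?_
    have h6 : pr (Sn n) {ω | ∃ j ∈ range J, ω ∈ {ω | CrN ω 0 ((exR n Ru j).U ω) z (ρ + 1) ρ' k} ∪
          {ω | CrN ω 1 ((exR n Ru j).U ω) z (ρ + 1) ρ' k}} ≤ J * (2 * q ^ k) := by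
      refine (PercL.pr_biUnion_le (range J) _).trans ?_
      have h7 : ∀ j ∈ range J, pr (Sn n) ({ω | CrN ω 0 ((exR n Ru j).U ω) z (ρ + 1) ρ' k} ∪
          {ω | CrN ω 1 ((exR n Ru j).U ω) z (ρ + 1) ρ' k}) ≤ 2 * q ^ k := by
        intro j _
        refine (pr_union_le _ _ _).trans ?_
        have := hB 0 j z
        have := hB 1 j z
        linarith
      refine (sum_le_sum h7).trans ?_
      rw [sum_const, card_range, nsmul_eq_mul]
    have h8 := hA z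
    linarith
  refine (sum_le_sum h5).trans ?_
  rw [sum_const, nsmul_eq_mul]

theorem card_net_le (y : ℤ × ℤ) {L s : ℤ} (hL : 0 ≤ L) (hs : 0 < s) {A : ℝ}
    (hA : (L : ℝ) ≤ A * s) : ((net y L s).card : ℝ) ≤ (2 * A + 3) ^ 2 := by
  have h1 : ((net y L s).card : ℝ) ≤ (2 * ((L / s : ℤ) : ℝ) + 3) ^ 2 := by
    exact_mod_cast card_net y hL hs
  have h2 : ((L / s : ℤ) : ℝ) ≤ A := by
    have h3 : s * (L / s) ≤ L := Int.mul_ediv_self_le hs.ne'
    have h4 : (s : ℝ) * ((L / s : ℤ) : ℝ) ≤ L := by exact_mod_cast h3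
    have h5 : (0 : ℝ) < s := by exact_mod_cast hs
    by_contra h6
    push Not at h6
    nlinarith
  have h3 : (0 : ℝ) ≤ ((L / s : ℤ) : ℝ) := by exact_mod_cast Int.ediv_nonneg hL hs.le
  refine h1.trans (pow_le_pow_left₀ (by positivity) (by linarith) 2)

/-- **The number of complete visits is tight**: all centres of a window, all rules. -/
theorem vis_all (J N₀ : ℕ) {δ η : ℝ} (hδ : 0 < δ) (hη : 0 < η) (B : ℝ) :
    ∃ κ : ℝ, 0 < κ ∧ ∃ K : ℕ, ∀ᶠ n : ℕ in Filter.atTop, ∀ (h : ℕ) (Ru : Rul) (C ρ R : ℤ),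
      RulOK n h Ru → 0 ≤ C → (C : ℝ) ≤ κ * n → 0 ≤ ρ → (ρ : ℝ) ≤ κ * n → δ * n ≤ (R : ℝ) →
      pr (Sn n) {ω | ∃ j < J, Nds n Ru C N₀ j ω ∧ ∃ z : ℤ × ℤ, (sd z 0 : ℝ) ≤ B * n ∧
        VisJ n Ru j ω z ρ R K} ≤ η := by
  obtain ⟨q, q0, q1, hq⟩ := vis_bd
  set κ : ℝ := δ / (2 * (33 + 2 * J)) with hκ
  have hκ0 : 0 < κ := by positivity
  set M : ℝ := (2 * (2 * |B| / κ) + 3) ^ 2 with hM
  have hM0 : 0 < M := by positivity
  obtain ⟨k, hk⟩ := exists_pow_lt_of_lt_one (show 0 < η / (M * (2 * J + 1)) by positivity) q1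
  refine ⟨κ, hκ0, 2 * (4 + J * (N₀ + k + 2)) + 2 * k, ?_⟩
  have e1 : ∀ᶠ n : ℕ in Filter.atTop, 2 ≤ κ * (n : ℝ) :=
    (tendsto_natCast_atTop_atTop.const_mul_atTop hκ0).eventually_ge_atTop 2
  have e2 : ∀ᶠ n : ℕ in Filter.atTop, 2 * (21 + J : ℝ) ≤ δ * (n : ℝ) :=
    (tendsto_natCast_atTop_atTop.const_mul_atTop hδ).eventually_ge_atTop _
  filter_upwards [e1, e2] with n h1 h2 h Ru C ρ R hR hC hCn hρ hρn hRn
  obtain ⟨s, hs⟩ : ∃ s : ℤ, s = ⌊κ * n⌋ := ⟨_, rfl⟩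
  obtain ⟨L, hL⟩ : ∃ L : ℤ, L = ⌊|B| * n⌋ := ⟨_, rfl⟩
  have s1 : (s : ℝ) ≤ κ * n := by rw [hs]; exact Int.floor_le _
  have s2 : κ * n < s + 1 := by rw [hs]; exact Int.lt_floor_add_one _
  have s3 : 0 < s := by
    have : (0 : ℝ) < s := by linarith
    exact_mod_cast this
  have s4 : C ≤ s := by rw [hs]; exact Int.le_floor.2 hCn
  have s5 : ρ ≤ s := by rw [hs]; exact Int.le_floor.2 hρn
  have hL0 : 0 ≤ L := by rw [hL]; exact Int.floor_nonneg.2 (by positivity)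
  have hcard : ((net 0 L s).card : ℝ) ≤ M := by
    refine card_net_le 0 hL0 s3 ?_
    have l1 : (L : ℝ) ≤ |B| * n := by rw [hL]; exact Int.floor_le _
    have l2 : κ * n ≤ 2 * s := by linarith
    have l3 : |B| * n ≤ 2 * |B| / κ * s := by
      rw [div_mul_eq_mul_div, le_div_iff₀ hκ0]
      nlinarith [abs_nonneg B]
    linarith
  have hJ : (J : ℤ) * (2 * C + 1) ≤ J * (2 * s + 1) :=
    mul_le_mul_of_nonneg_left (by omega) (by positivity)
  have hbig : 33 * s + 21 + J * (2 * s + 1) ≤ R := by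
    have h3 : (33 + 2 * (J : ℝ)) * κ = δ / 2 := by
      rw [hκ]
      field_simp
    have h4 : ((33 * s + 21 + J * (2 * s + 1) : ℤ) : ℝ) ≤ R := by
      push_cast
      have h5 : (33 + 2 * (J : ℝ)) * s ≤ δ / 2 * n := by
        rw [← h3, mul_assoc]
        exact mul_le_mul_of_nonneg_left s1 (by positivity)
      nlinarith
    exact_mod_cast h4
  have h3 := hq n h J N₀ k Ru C hR hC (net 0 L s) (2 * s) (4 * (2 * s + 1))
    (4 * (4 * (2 * s + 1) + 1)) (R - s) (2 * (4 + J * (N₀ + k + 2)) + 2 * k) (by omega) le_rfl le_rfl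
    (by omega) (by omega)
  refine ((pr_mono _ ?_).trans h3).trans ?_
  · rintro ω ⟨j, hj, hN, z, hz, hV⟩
    have hzL : sd z 0 ≤ L := by
      rw [hL, Int.le_floor]
      refine hz.trans (mul_le_mul_of_nonneg_right (le_abs_self B) (by positivity))
    obtain ⟨c, hc, hzc⟩ := exists_net (y := 0) (m := L) s3 hzL
    exact ⟨j, hj, hN, c, hc, hV.shift hzc (by omega) (by omega)⟩
  · have h4 : (0 : ℝ) ≤ q ^ k := by positivity
    calc ((net 0 L s).card : ℝ) * ((2 * J + 1) * q ^ k) ≤ M * ((2 * J + 1) * q ^ k) :=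
          mul_le_mul_of_nonneg_right hcard (by positivity)
      _ = (M * (2 * J + 1)) * q ^ k := by ring
      _ ≤ (M * (2 * J + 1)) * (η / (M * (2 * J + 1))) :=
          mul_le_mul_of_nonneg_left hk.le (by positivity)
      _ = η := by field_simp

/-- **The number of passages is tight**: all centres and radii of a window, all rules. -/
theorem alt_all (J N₀ : ℕ) {δ η : ℝ} (hδ : 0 < δ) (hη : 0 < η) (B : ℝ) :
    ∃ κ : ℝ, 0 < κ ∧ ∃ T : ℕ, ∀ᶠ n : ℕ in Filter.atTop, ∀ (h : ℕ) (Ru : Rul) (C : ℤ),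
      RulOK n h Ru → 0 ≤ C → (C : ℝ) ≤ κ * n →
      pr (Sn n) {ω | ∃ j < J, Nds n Ru C N₀ j ω ∧ (exR n Ru j).Wll ω ∧
        ∃ (y : ℤ × ℤ) (a b : ℤ) (N : ℕ), (a : ℝ) + δ * n ≤ b ∧ (sd y 0 : ℝ) + a ≤ B * n ∧
        Nb ((exR n Ru j).cf ω) ((exR n Ru j).e ω) N ∧
        Alt (fun t => InB y a ((exR n Ru j).p ω t)) (fun t => ¬ InB y b ((exR n Ru j).p ω t)) N T}
        ≤ η := by
  obtain ⟨κ₁, hκ₁, K, hK⟩ := vis_all J N₀ (δ := δ / 8) (by positivity) hη (|B| + δ)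
  set κ : ℝ := min κ₁ (δ / 32) with hκ
  have hκ0 : 0 < κ := lt_min hκ₁ (by positivity)
  set M : ℝ := (2 * (2 * (|B| + δ) / κ) + 3) ^ 2 with hM
  have hM0 : 0 ≤ M := by positivity
  refine ⟨κ, hκ0, ⌊K * M⌋₊ + 1, ?_⟩
  have e1 : ∀ᶠ n : ℕ in Filter.atTop, 2 ≤ κ * (n : ℝ) :=
    (tendsto_natCast_atTop_atTop.const_mul_atTop hκ0).eventually_ge_atTop 2
  have e2 : ∀ᶠ n : ℕ in Filter.atTop, 64 ≤ δ * (n : ℝ) :=
    (tendsto_natCast_atTop_atTop.const_mul_atTop hδ).eventually_ge_atTop _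
  filter_upwards [hK, e1, e2] with n hKn h1 h2 h Ru C hR hC hCn
  obtain ⟨s, hs⟩ : ∃ s : ℤ, s = ⌊κ * n⌋ := ⟨_, rfl⟩
  obtain ⟨L, hL⟩ : ∃ L : ℤ, L = ⌊(|B| + δ) * n⌋ := ⟨_, rfl⟩
  obtain ⟨R, hRR⟩ : ∃ R : ℤ, R = ⌊δ * n / 4⌋ := ⟨_, rfl⟩
  have hn0 : (0 : ℝ) ≤ n := by positivity
  have hκκ : κ * n ≤ κ₁ * n := mul_le_mul_of_nonneg_right (min_le_left _ _) hn0
  have hκδ : κ * n ≤ δ / 32 * n := mul_le_mul_of_nonneg_right (min_le_right _ _) hn0
  have s1 : (s : ℝ) ≤ κ * n := by rw [hs]; exact Int.floor_le _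
  have s2 : κ * n < s + 1 := by rw [hs]; exact Int.lt_floor_add_one _
  have s3 : 0 < s := by
    have : (0 : ℝ) < s := by linarith
    exact_mod_cast this
  have r1 : (R : ℝ) ≤ δ * n / 4 := by rw [hRR]; exact Int.floor_le _
  have r2 : δ * n / 4 < R + 1 := by rw [hRR]; exact Int.lt_floor_add_one _
  have hR0 : 0 ≤ R := by rw [hRR]; exact Int.floor_nonneg.2 (by positivity)
  have hL0 : 0 ≤ L := by rw [hL]; exact Int.floor_nonneg.2 (by positivity)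
  have hcard : ((net 0 L s).card : ℝ) ≤ M := by
    refine card_net_le 0 hL0 s3 ?_
    have l1 : (L : ℝ) ≤ (|B| + δ) * n := by rw [hL]; exact Int.floor_le _
    have l2 : κ * n ≤ 2 * s := by linarith
    have l3 : (|B| + δ) * n ≤ 2 * (|B| + δ) / κ * s := by
      rw [div_mul_eq_mul_div, le_div_iff₀ hκ0]
      nlinarith [abs_nonneg B]
    linarith
  have hKT : K * (net 0 L s).card < ⌊K * M⌋₊ + 1 := by
    have h3 : (K * (net 0 L s).card : ℕ) ≤ ⌊K * M⌋₊ := by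
      refine Nat.le_floor ?_
      push_cast
      exact mul_le_mul_of_nonneg_left hcard (by positivity)
    omega
  have h3 := hKn h Ru C s R hR hC (hCn.trans hκκ) s3.le (s1.trans hκκ) (by linarith)
  refine (pr_mono _ ?_).trans h3
  rintro ω ⟨j, hj, hN, hW, y, a, b, N, hab, hya, hNb, hAlt⟩
  have hab' : a + 3 * R + 4 * s + 4 ≤ b := by
    have h4 : ((a + 3 * R + 4 * s + 4 : ℤ) : ℝ) ≤ b := by
      push_cast
      linarith
    exact_mod_cast h4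
  -- a level which is far from the base
  obtain ⟨D, hD⟩ : ∃ D, D = sd (fa ((exR n Ru j).e ω)) y := ⟨_, rfl⟩
  obtain ⟨m, hm1, hm2, hm3⟩ : ∃ m : ℤ, a ≤ m ∧ m ≤ a + 2 * (R + s) + 1 ∧
      (D + (R + s) < m ∨ m + (R + s) < D) := by
    rcases le_or_gt D (a + R + s) with h4 | h4
    · exact ⟨a + 2 * (R + s) + 1, by omega, le_rfl, by omega⟩
    · exact ⟨a, le_rfl, by omega, by omega⟩
  have hLx : ∀ x, sd x y = m → sd x 0 ≤ L := by
    intro x hx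
    have h5 : sd x 0 ≤ sd y 0 + m := by
      have h6 := (sd_le_iff (u := x) (v := y)).1 hx.le
      have h7 := (sd_le_iff (u := y) (v := 0)).1 le_rfl
      rw [sd_le_iff]
      simp only [Prod.fst_zero, Prod.snd_zero] at h7 ⊢
      omega
    rw [hL, Int.le_floor]
    have h6 : ((sd x 0 : ℤ) : ℝ) ≤ sd y 0 + m := by exact_mod_cast h5
    have h7 : (m : ℝ) ≤ a + 2 * (R + s) + 1 := by exact_mod_cast hm2
    have h8 : B * n ≤ |B| * n := mul_le_mul_of_nonneg_right (le_abs_self B) hn0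
    linarith
  obtain ⟨z, -, ⟨x, hx1, hx2⟩, hz⟩ := exists_visits (E := exR n Ru j) (ω := ω) (y := y) (a := a)
    (b := b) (m := m) (ρ := s) (R := R) (N := N) (k := ⌊K * M⌋₊ + 1) (K := K) (y₀ := 0) (L := L)
    hLx s3 hm1 (by omega) hR0 hAlt hKT
  refine ⟨j, hj, hN, z, ?_, hW, N, fun l hl hl' => hNb l hl (hl'.trans hz.le), ?_, hz⟩
  · have h5 : sd z 0 ≤ sd y 0 + m + s := by
      have h6 := (sd_le_iff (u := x) (v := y)).1 hx1.le
      have h7 := (sd_le_iff (u := y) (v := 0)).1 le_rfl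
      have h8 := (sd_le_iff (u := x) (v := z)).1 hx2
      rw [sd_le_iff]
      simp only [Prod.fst_zero, Prod.snd_zero] at h7 ⊢
      omega
    have h6 : ((sd z 0 : ℤ) : ℝ) ≤ sd y 0 + m + s := by exact_mod_cast h5
    have h7 : (m : ℝ) ≤ a + 2 * (R + s) + 1 := by exact_mod_cast hm2
    have h8 : B * n ≤ |B| * n := mul_le_mul_of_nonneg_right (le_abs_self B) hn0
    linarith
  · intro hf
    have h5 : sd (fa ((exR n Ru j).e ω)) z ≤ R := by
      rw [WC.mem_bx] at hf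
      rw [sd_le_iff]
      omega
    have h6 := (sd_le_iff (u := fa ((exR n Ru j).e ω)) (v := z)).1 h5
    have h7 := (sd_le_iff (u := x) (v := z)).1 hx2
    have h8 : D ≤ m + R + s := by
      rw [hD]
      have h9 := (sd_le_iff (u := x) (v := y)).1 hx1.le
      rw [sd_le_iff]
      omega
    have h10 : m ≤ D + R + s := by
      rw [← hx1]
      have h9 := (sd_le_iff (u := fa ((exR n Ru j).e ω)) (v := y)).1 hD.ge
      rw [sd_le_iff]
      omega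
    omega

/-- `vis_all` if all the needles satisfy the condition. -/
theorem vis_tight (J N₀ : ℕ) {δ η : ℝ} (hδ : 0 < δ) (hη : 0 < η) (B : ℝ) :
    ∃ κ : ℝ, 0 < κ ∧ ∃ K : ℕ, ∀ᶠ n : ℕ in Filter.atTop, ∀ (h : ℕ) (Ru : Rul) (C ρ R : ℤ),
      RulOK n h Ru → 0 ≤ C → (C : ℝ) ≤ κ * n → 0 ≤ ρ → (ρ : ℝ) ≤ κ * n → δ * n ≤ (R : ℝ) →
      (∀ ω : Cfg, ∀ j < J, ∀ x, Ru j (cfgE n ω) = some x → NdOK x.1 C N₀) →
      pr (Sn n) {ω | ∃ j < J, ∃ z : ℤ × ℤ, (sd z 0 : ℝ) ≤ B * n ∧ VisJ n Ru j ω z ρ R K} ≤ η := by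
  obtain ⟨κ, hκ, K, hK⟩ := vis_all J N₀ hδ hη B
  refine ⟨κ, hκ, K, ?_⟩
  filter_upwards [hK] with n hKn h Ru C ρ R hR hC hCn hρ hρn hRn hN
  refine (pr_mono _ ?_).trans (hKn h Ru C ρ R hR hC hCn hρ hρn hRn)
  rintro ω ⟨j, hj, h1⟩
  exact ⟨j, hj, fun i hi x hx => hN ω i (by omega) x hx, h1⟩

/-- `alt_all` if all the needles satisfy the condition. -/
theorem alt_tight (J N₀ : ℕ) {δ η : ℝ} (hδ : 0 < δ) (hη : 0 < η) (B : ℝ) :
    ∃ κ : ℝ, 0 < κ ∧ ∃ T : ℕ, ∀ᶠ n : ℕ in Filter.atTop, ∀ (h : ℕ) (Ru : Rul) (C : ℤ),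
      RulOK n h Ru → 0 ≤ C → (C : ℝ) ≤ κ * n →
      (∀ ω : Cfg, ∀ j < J, ∀ x, Ru j (cfgE n ω) = some x → NdOK x.1 C N₀) →
      pr (Sn n) {ω | ∃ j < J, (exR n Ru j).Wll ω ∧ ∃ (y : ℤ × ℤ) (a b : ℤ) (N : ℕ),
        (a : ℝ) + δ * n ≤ b ∧ (sd y 0 : ℝ) + a ≤ B * n ∧
        Nb ((exR n Ru j).cf ω) ((exR n Ru j).e ω) N ∧
        Alt (fun t => InB y a ((exR n Ru j).p ω t)) (fun t => ¬ InB y b ((exR n Ru j).p ω t)) N T}
        ≤ η := by
  obtain ⟨κ, hκ, T, hT⟩ := alt_all J N₀ hδ hη B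
  refine ⟨κ, hκ, T, ?_⟩
  filter_upwards [hT] with n hTn h Ru C hR hC hCn hN
  refine (pr_mono _ ?_).trans (hTn h Ru C hR hC hCn)
  rintro ω ⟨j, hj, h1⟩
  exact ⟨j, hj, fun i hi x hx => hN ω i (by omega) x hx, h1⟩

end Needles

end Pool.Agent.SixB.CountP
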