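import Pool.Agent.Lib.SixB.S8App
import Pool.Agent.Lib.SixB.S8Inner
import Pool.Agent.Lib.SixB.S8Blow
import Pool.Agent.Lib.SixB.S8Dict
import Pool.Agent.Lib.SixB.S8ScanDet

/-!
# Step 8: the initial set of the chain

`Rh a b c d`: the faces with `a ≤ f.1 + f.2 ≤ b` and `c ≤ f.1 - f.2 ≤ d`; it is finite, edge connected
and has no hole. The faces of the edges of the box are `Rh (-1) (2 n - 1) 0 (2 n)` (`coe_Sn`,
`FU_Box`). `W0 e`: the unit cells of the initial coarse set, for the finest resolution `e`; if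
`2 ≤ u`, `n = 2 ^ e * u + r`, `2 r + 1 < u`, then `blow u (W0 e)` is the union of the cells of side `u`
which are contained in the set of the faces of the box (`cell_sub_iff`, `blow_W0`), and it is an inner
approximation with cells of diameter less than `u` (`app_W0`, `app_FU`); a face of the box at distance
at least `2 u` from the wall is in `blow u (W0 e)` (`mem_blow_W0_of`). `eventually_unt`: the
assumptions hold for all large `n`.
-/

set_option autoImplicit false

namespace Pool.Agent.SixB.Box0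

open Finset Pool.Agent.Perc Pool.Agent.Perc6 Pool.Agent.PercU Pool.Agent.PercX60
open Pool.Agent.MP_6bd702.H23 (Ed ea eb)
open Pool.Agent.SixB Pool.Agent.SixB.Dct Pool.Agent.SixB.Blow

/-! ### Rectangles in the diagonal coordinates -/

/-- The faces `f` with `a ≤ f.1 + f.2 ≤ b` and `c ≤ f.1 - f.2 ≤ d`. -/
def Rh (a b c d : ℤ) : Set (ℤ × ℤ) :=
  {f | (a ≤ f.1 + f.2 ∧ f.1 + f.2 ≤ b) ∧ (c ≤ f.1 - f.2 ∧ f.1 - f.2 ≤ d)}

variable {a b c d : ℤ}

theorem mem_Rh {f : ℤ × ℤ} : f ∈ Rh a b c d ↔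
    (a ≤ f.1 + f.2 ∧ f.1 + f.2 ≤ b) ∧ (c ≤ f.1 - f.2 ∧ f.1 - f.2 ≤ d) := Iff.rfl

theorem Rh_finite : (Rh a b c d).Finite := by
  refine ((Finset.Icc (-(|a| + |b| + |c| + |d|)) (|a| + |b| + |c| + |d|) ×ˢ
    Finset.Icc (-(|a| + |b| + |c| + |d|)) (|a| + |b| + |c| + |d|)).finite_toSet).subset ?_
  rintro ⟨x, y⟩ ⟨⟨h1, h2⟩, h3, h4⟩
  simp only at h1 h2 h3 h4
  rw [Finset.mem_coe, Finset.mem_product, Finset.mem_Icc, Finset.mem_Icc]
  simp only
  have a1 := neg_abs_le a
  have a2 := abs_nonneg a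
  have b1 := le_abs_self b
  have b2 := abs_nonneg b
  have c1 := neg_abs_le c
  have c2 := abs_nonneg c
  have d1 := le_abs_self d
  have d2 := abs_nonneg d
  omega

/-- A rectangle is edge connected. -/
theorem econn_Rh (hab : a < b) (hcd : c < d) : Top.EConn (Rh a b c d) := by
  have key : ∀ (N : ℕ) (f g : ℤ × ℤ), f ∈ Rh a b c d → g ∈ Rh a b c d →
      ((g.1 + g.2) - (f.1 + f.2)).natAbs + ((g.1 - g.2) - (f.1 - f.2)).natAbs ≤ N →
      Relation.ReflTransGen (fun a' b' => AdjF a' b' ∧ b' ∈ Rh a b c d) f g := by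
    intro N
    induction N using Nat.strong_induction_on with
    | _ N ih =>
      rintro ⟨x, y⟩ ⟨z, w⟩ hf hg hN
      simp only [mem_Rh] at hf hg
      simp only at hN
      by_cases h0 : x = z ∧ y = w
      · rw [h0.1, h0.2]
      -- one step
      have one : ∀ p q : ℤ, AdjF (x, y) (p, q) → (p, q) ∈ Rh a b c d →
          ((z + w) - (p + q)).natAbs + ((z - w) - (p - q)).natAbs <
            ((z + w) - (x + y)).natAbs + ((z - w) - (x - y)).natAbs →
          Relation.ReflTransGen (fun a' b' => AdjF a' b' ∧ b' ∈ Rh a b c d) (x, y) (z, w) := by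
        intro p q h1 h2 h3
        exact Relation.ReflTransGen.head ⟨h1, h2⟩
          (ih _ (lt_of_lt_of_le h3 hN) (p, q) (z, w) h2 hg le_rfl)
      have two : ∀ p q r s : ℤ, AdjF (x, y) (p, q) → (p, q) ∈ Rh a b c d →
          AdjF (p, q) (r, s) → (r, s) ∈ Rh a b c d →
          ((z + w) - (r + s)).natAbs + ((z - w) - (r - s)).natAbs <
            ((z + w) - (x + y)).natAbs + ((z - w) - (x - y)).natAbs →
          Relation.ReflTransGen (fun a' b' => AdjF a' b' ∧ b' ∈ Rh a b c d) (x, y) (z, w) := by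
        intro p q r s h1 h2 h3 h4 h5
        exact Relation.ReflTransGen.head ⟨h1, h2⟩ (Relation.ReflTransGen.head ⟨h3, h4⟩
          (ih _ (lt_of_lt_of_le h5 hN) (r, s) (z, w) h4 hg le_rfl))
      have aR : ∀ p q : ℤ, AdjF (p, q) (p + 1, q) := adjF_right
      have aL : ∀ p q : ℤ, AdjF (p, q) (p - 1, q) := adjF_left
      have aU : ∀ p q : ℤ, AdjF (p, q) (p, q + 1) := adjF_up
      have aD : ∀ p q : ℤ, AdjF (p, q) (p, q - 1) := adjF_down
      rcases lt_trichotomy (x + y) (z + w) with hS | hS | hS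
      · rcases lt_trichotomy (x - y) (z - w) with hT | hT | hT
        · refine one (x + 1) y (aR _ _) ?_ ?_
          · rw [mem_Rh]; simp only; omega
          · omega
        · by_cases hd : x - y < d
          · refine two (x + 1) y (x + 1) (y + 1) (aR _ _) ?_ (aU _ _) ?_ ?_
            · rw [mem_Rh]; simp only; omega
            · rw [mem_Rh]; simp only; omega
            · omega
          · refine two x (y + 1) (x + 1) (y + 1) (aU _ _) ?_ (aR _ _) ?_ ?_
            · rw [mem_Rh]; simp only; omega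
            · rw [mem_Rh]; simp only; omega
            · omega
        · refine one x (y + 1) (aU _ _) ?_ ?_
          · rw [mem_Rh]; simp only; omega
          · omega
      · rcases lt_trichotomy (x - y) (z - w) with hT | hT | hT
        · by_cases hb : x + y < b
          · refine two (x + 1) y (x + 1) (y - 1) (aR _ _) ?_ (aD _ _) ?_ ?_
            · rw [mem_Rh]; simp only; omega
            · rw [mem_Rh]; simp only; omega
            · omega
          · refine two x (y - 1) (x + 1) (y - 1) (aD _ _) ?_ (aR _ _) ?_ ?_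
            · rw [mem_Rh]; simp only; omega
            · rw [mem_Rh]; simp only; omega
            · omega
        · exact absurd ⟨by omega, by omega⟩ h0
        · by_cases hb : x + y < b
          · refine two x (y + 1) (x - 1) (y + 1) (aU _ _) ?_ (aL _ _) ?_ ?_
            · rw [mem_Rh]; simp only; omega
            · rw [mem_Rh]; simp only; omega
            · omega
          · refine two (x - 1) y (x - 1) (y + 1) (aL _ _) ?_ (aU _ _) ?_ ?_
            · rw [mem_Rh]; simp only; omega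
            · rw [mem_Rh]; simp only; omega
            · omega
      · rcases lt_trichotomy (x - y) (z - w) with hT | hT | hT
        · refine one x (y - 1) (aD _ _) ?_ ?_
          · rw [mem_Rh]; simp only; omega
          · omega
        · by_cases hd : x - y < d
          · refine two x (y - 1) (x - 1) (y - 1) (aD _ _) ?_ (aL _ _) ?_ ?_
            · rw [mem_Rh]; simp only; omega
            · rw [mem_Rh]; simp only; omega
            · omega
          · refine two (x - 1) y (x - 1) (y - 1) (aL _ _) ?_ (aD _ _) ?_ ?_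
            · rw [mem_Rh]; simp only; omega
            · rw [mem_Rh]; simp only; omega
            · omega
        · refine one (x - 1) y (aL _ _) ?_ ?_
          · rw [mem_Rh]; simp only; omega
          · omega
  intro f hf g hg
  exact key _ f g hf hg le_rfl

/-- A rectangle has no hole. -/
theorem esc_Rh : Esc (Rh a b c d) := by
  rintro ⟨x, y⟩ hf R
  have hcase : x + y < a ∨ b < x + y ∨ x - y < c ∨ d < x - y := by
    by_contra h
    push Not at h
    exact hf ⟨⟨h.1, h.2.1⟩, h.2.2.1, h.2.2.2⟩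
  rcases hcase with h | h | h | h
  · refine ⟨(x - (R.natAbs + x.natAbs + 1 : ℕ), y), Or.inl ?_, chain_left _ ?_⟩
    · simp only
      rw [lt_abs]
      right
      push_cast
      have := le_abs_self R
      have := le_abs_self x
      omega
    · intro k h0 _ h1
      rw [mem_Rh] at h1
      simp only at h1
      omega
  · refine ⟨(x + (R.natAbs + x.natAbs + 1 : ℕ), y), Or.inl ?_, chain_right _ ?_⟩
    · simp only
      rw [lt_abs]
      left
      push_cast
      have := le_abs_self R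
      have := neg_abs_le x
      omega
    · intro k h0 _ h1
      rw [mem_Rh] at h1
      simp only at h1
      omega
  · refine ⟨(x, y + (R.natAbs + y.natAbs + 1 : ℕ)), Or.inr ?_, chain_up _ ?_⟩
    · simp only
      rw [lt_abs]
      left
      push_cast
      have := le_abs_self R
      have := neg_abs_le y
      omega
    · intro k h0 _ h1
      rw [mem_Rh] at h1
      simp only at h1
      omega
  · refine ⟨(x, y - (R.natAbs + y.natAbs + 1 : ℕ)), Or.inr ?_, chain_down _ ?_⟩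
    · simp only
      rw [lt_abs]
      right
      push_cast
      have := le_abs_self R
      have := le_abs_self y
      omega
    · intro k h0 _ h1
      rw [mem_Rh] at h1
      simp only at h1
      omega

/-! ### The faces of the box -/

theorem mem_Sn {n : ℕ} {f : ℤ × ℤ} : f ∈ Sn n ↔
    (-1 ≤ f.1 + f.2 ∧ f.1 + f.2 ≤ 2 * n - 1) ∧ (0 ≤ f.1 - f.2 ∧ f.1 - f.2 ≤ 2 * n) := by
  rw [← phiE_eE f, phiE_mem_Sn, PercO.mem_boxE', DictB.mem_Box, DictB.mem_Box, phiE_eE]
  obtain ⟨X, Y⟩ := f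
  unfold eE ea eb
  by_cases h : (X + Y) % 2 = 0
  · simp only [h, if_true, Bool.false_eq_true, if_false]
    omega
  · simp only [h, if_false, if_true]
    omega

theorem coe_Sn (n : ℕ) : (Sn n : Set (ℤ × ℤ)) = Rh (-1) (2 * n - 1) 0 (2 * n) := by
  ext f
  rw [Finset.mem_coe, mem_Sn, mem_Rh]

theorem FU_Box (n : ℕ) : FU (Box n) = (Sn n : Set (ℤ × ℤ)) := by
  ext f
  rw [Finset.mem_coe, ← phiE_eE f, phiE_mem_Sn, PercO.mem_boxE', phiE_eE]
  exact Iff.rfl

theorem FU_Box_eq (n : ℕ) : FU (Box n) = Rh (-1) (2 * n - 1) 0 (2 * n) :=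
  (FU_Box n).trans (coe_Sn n)

theorem esc_Sn (n : ℕ) : Esc (Sn n : Set (ℤ × ℤ)) := by
  rw [coe_Sn]
  exact esc_Rh

theorem econn_Sn {n : ℕ} (hn : 0 < n) : Top.EConn (Sn n : Set (ℤ × ℤ)) := by
  rw [coe_Sn]
  exact econn_Rh (by omega) (by omega)

theorem esc_FU_Box (n : ℕ) : Esc (FU (Box n)) := by
  rw [FU_Box_eq]
  exact esc_Rh

theorem econn_FU_Box {n : ℕ} (hn : 0 < n) : Top.EConn (FU (Box n)) := by
  rw [FU_Box_eq]
  exact econn_Rh (by omega) (by omega)

/-! ### The initial coarse set -/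

/-- The unit cells of the initial coarse set, for the finest resolution `e`. -/
def W0 (e : ℕ) : Set (ℤ × ℤ) := Rh 0 (2 * 2 ^ e - 2) 1 (2 * 2 ^ e - 1)

theorem mem_W0 {e : ℕ} {f : ℤ × ℤ} : f ∈ W0 e ↔
    (0 ≤ f.1 + f.2 ∧ f.1 + f.2 ≤ 2 * 2 ^ e - 2) ∧ (1 ≤ f.1 - f.2 ∧ f.1 - f.2 ≤ 2 * 2 ^ e - 1) :=
  Iff.rfl

theorem W0_finite (e : ℕ) : (W0 e).Finite := Rh_finite

theorem esc_W0 (e : ℕ) : Esc (W0 e) := esc_Rh

theorem econn_W0 (e : ℕ) : Top.EConn (W0 e) := by
  rcases Nat.eq_zero_or_pos e with rfl | he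
  · intro f hf
    rw [mem_W0] at hf
    exfalso
    simp only [pow_zero] at hf
    omega
  · have h1 : (2 : ℤ) ^ 1 ≤ 2 ^ e := pow_le_pow_right₀ (by norm_num) he
    rw [pow_one] at h1
    exact econn_Rh (by omega) (by omega)

theorem one_mem_W0 {e : ℕ} (he : 0 < e) : ((1 : ℤ), (0 : ℤ)) ∈ W0 e := by
  have h1 : (2 : ℤ) ^ 1 ≤ 2 ^ e := pow_le_pow_right₀ (by norm_num) he
  rw [pow_one] at h1
  rw [mem_W0]
  simp only
  omega

theorem W0_box {e : ℕ} {f : ℤ × ℤ} (h : f ∈ W0 e) :
    (0 < f.1 ∧ f.1 < 2 * 2 ^ e) ∧ (-2 ^ e < f.2 ∧ f.2 < 2 ^ e) := by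
  rw [mem_W0] at h
  omega

section unit

variable {n e u r : ℕ} (hu : 2 ≤ u) (hn : n = 2 ^ e * u + r) (hr : 2 * r + 1 < u)

include hu hn hr

/-- A cell of side `u` is contained in the set of the faces of the box if and only if its name is in
`W0 e`. -/
theorem cell_sub_iff {c : ℤ × ℤ} : (∀ f : ℤ × ℤ, cl u f = c → f ∈ Sn n) ↔ c ∈ W0 e := by
  have hu0 : (0 : ℤ) < u := by omega
  have hu2 : (2 : ℤ) ≤ u := by omega
  obtain ⟨c1, c2⟩ := c
  have hn' : (n : ℤ) = 2 ^ e * u + r := by
    rw [hn]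
    push_cast
    ring
  have hr' : 2 * (r : ℤ) + 1 < u := by exact_mod_cast hr
  have hr0 : (0 : ℤ) ≤ r := by positivity
  set K : ℤ := 2 ^ e with hK
  constructor
  · intro h
    have h1 := h ((u : ℤ) * c1, (u : ℤ) * c2) ((cl_eq_iff hu0).2 ⟨le_rfl, by simp only; omega, le_rfl,
      by simp only; omega⟩)
    have h2 := h ((u : ℤ) * c1 + (u - 1), (u : ℤ) * c2 + (u - 1)) ((cl_eq_iff hu0).2
      ⟨by simp only; omega, by simp only; omega, by simp only; omega, by simp only; omega⟩)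
    have h3 := h ((u : ℤ) * c1, (u : ℤ) * c2 + (u - 1)) ((cl_eq_iff hu0).2
      ⟨by simp only; omega, by simp only; omega, by simp only; omega, by simp only; omega⟩)
    have h4 := h ((u : ℤ) * c1 + (u - 1), (u : ℤ) * c2) ((cl_eq_iff hu0).2
      ⟨by simp only; omega, by simp only; omega, by simp only; omega, by simp only; omega⟩)
    rw [mem_Sn] at h1 h2 h3 h4
    simp only at h1 h2 h3 h4
    have e1 := h1.1.1
    have e2 := h2.1.2
    have e3 := h3.2.1
    have e4 := h4.2.2
    rw [hn'] at e2 e4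
    rw [mem_W0]
    simp only
    refine ⟨⟨?_, ?_⟩, ?_, ?_⟩
    · by_contra hcon
      have : c1 + c2 ≤ -1 := by omega
      nlinarith
    · by_contra hcon
      have : 2 * K - 1 ≤ c1 + c2 := by omega
      nlinarith
    · by_contra hcon
      have : c1 - c2 ≤ 0 := by omega
      nlinarith
    · by_contra hcon
      have : 2 * K ≤ c1 - c2 := by omega
      nlinarith
  · rintro h ⟨x, y⟩ hf
    rw [cl_eq_iff hu0] at hf
    simp only at hf
    obtain ⟨f1, f2, f3, f4⟩ := hf
    rw [mem_W0] at h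
    simp only at h
    obtain ⟨⟨h1, h2⟩, h3, h4⟩ := h
    rw [mem_Sn]
    simp only
    rw [hn']
    refine ⟨⟨?_, ?_⟩, ?_, ?_⟩
    · nlinarith
    · nlinarith
    · nlinarith
    · nlinarith

/-- The blow up of the initial coarse set is the union of the cells in the set of the faces of the
box. -/
theorem mem_blow_W0 {f : ℤ × ℤ} : f ∈ blow u (W0 e) ↔ ∀ g : ℤ × ℤ, cl u g = cl u f → g ∈ Sn n := by
  rw [mem_blow]
  exact (cell_sub_iff hu hn hr).symm

theorem blow_W0 : blow u (W0 e) = (cellsIn (Sn n) (cl u) : Set (ℤ × ℤ)) := by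
  ext f
  rw [Finset.mem_coe, mem_cellsIn]
  exact mem_blow_W0 hu hn hr

theorem blow_W0_sub : blow u (W0 e) ⊆ (Sn n : Set (ℤ × ℤ)) := fun f hf =>
  (mem_blow_W0 hu hn hr).1 hf f rfl

/-- **The initial inner approximation.** -/
theorem app_W0 : App (Sn n : Set (ℤ × ℤ)) (blow u (W0 e)) (cl u) u := by
  have hu0 : (0 : ℤ) < u := by omega
  refine ⟨blow_W0_sub hu hn hr, ?_, ?_, ?_, ?_⟩
  · intro x y hxy hx
    rw [mem_blow] at hx ⊢
    rwa [← hxy]
  · intro x y hxy
    exact sqCell_chn hu0 hxy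
  · intro x y hxy
    exact sqCell_diam hu0 hxy
  · intro f _ g _ hg
    rw [mem_blow_W0 hu hn hr] at hg
    push Not at hg
    obtain ⟨x, hx1, hx2⟩ := hg
    exact ⟨x, hx1, hx2⟩

/-- The initial inner approximation, for the fresh faces of the first step. -/
theorem app_FU : App (FU (Box n)) (blow u (W0 e)) (cl u) u := by
  rw [FU_Box]
  exact app_W0 hu hn hr

/-- The faces at distance at least `2 u` from the wall are in the initial set. -/
theorem mem_blow_W0_of {f : ℤ × ℤ} (h1 : 2 * (u : ℤ) ≤ f.1 + f.2) (h2 : f.1 + f.2 ≤ 2 * n - 2 * u)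
    (h3 : 2 * (u : ℤ) ≤ f.1 - f.2) (h4 : f.1 - f.2 ≤ 2 * n - 2 * u) : f ∈ blow u (W0 e) := by
  rw [mem_blow_W0 hu hn hr]
  intro g hg
  obtain ⟨d1, d2⟩ := sqCell_diam (M := (u : ℤ)) (by omega) hg
  rw [abs_lt] at d1 d2
  rw [mem_Sn]
  omega

end unit

/-! ### All large `n` -/

theorem unt_spec {n e : ℕ} (h : 2 ^ e * (2 * 2 ^ e + 1) ≤ n) :
    2 ≤ n / 2 ^ e ∧ n = 2 ^ e * (n / 2 ^ e) + n % 2 ^ e ∧ 2 * (n % 2 ^ e) + 1 < n / 2 ^ e := by
  have he : 0 < 2 ^ e := by positivity
  have h1 : 2 * 2 ^ e + 1 ≤ n / 2 ^ e := by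
    rw [Nat.le_div_iff_mul_le he]
    linarith [h]
  have h2 := Nat.mod_lt n he
  have h3 := Nat.div_add_mod n (2 ^ e)
  refine ⟨by omega, h3.symm, by omega⟩

theorem eventually_unt (e : ℕ) : ∀ᶠ n : ℕ in Filter.atTop,
    2 ≤ n / 2 ^ e ∧ n = 2 ^ e * (n / 2 ^ e) + n % 2 ^ e ∧ 2 * (n % 2 ^ e) + 1 < n / 2 ^ e := by
  filter_upwards [Filter.eventually_ge_atTop (2 ^ e * (2 * 2 ^ e + 1))] with n hn
  exact unt_spec hn

/-- **The initial inner approximation, for all large `n`.** -/
theorem eventually_app (e : ℕ) : ∀ᶠ n : ℕ in Filter.atTop,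
    App (FU (Box n)) (blow (n / 2 ^ e : ℕ) (W0 e)) (cl (n / 2 ^ e : ℕ)) (n / 2 ^ e : ℕ) := by
  filter_upwards [eventually_unt e] with n hn
  exact app_FU hn.1 hn.2.1 hn.2.2

end Pool.Agent.SixB.Box0
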