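import Pool.Agent.Lib.SixB.S8CountD
import Pool.Agent.Lib.SixB.S8CountP
import Pool.Agent.Lib.SixB.S8StartBox
import Pool.Agent.Lib.SixB.S8LawW

/-!
# Step 8, number of moves: the window and the period of the strand of a needle

* `win_all`, `RunB.win`: the strand is in the window while it is at a fresh face;
* `nS`: the period of the strand from its first edge, minus one; `nS_per`, `nb_nS`;
* `RunB.le_nS`, `RunB.hit_nS`: the running states are before `nS`, and the strand crosses the target face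
  after the time of the state and not later than `nS`; `hit_all`: the same in one statement.
-/

set_option autoImplicit false

namespace Pool.Agent.SixB.Tru

open Finset Pool.Agent.Perc Pool.Agent.Perc6 Pool.Agent.PercT Pool.Agent.Perc6.C2Aux
open Pool.Agent.PercX60
open Pool.Agent.SixB Pool.Agent.SixB.Rule Pool.Agent.SixB.Dct Pool.Agent.SixB.Mv
open Pool.Agent.SixB.Top Pool.Agent.SixB.NearCut Pool.Agent.SixB.Cnt
open Pool.Agent.Perc.Tips
open Pool.Agent.SixB.CountP (sd sd_le_iff)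

variable {𝔇 : Dat} {d : ℕ → ℕ} {n : ℕ} {r : ℤ} {s : TS} {ω : Cfg} {q : Rule.Ndl} {D : Dom}
  {κ : ℤ × ℤ → ℤ × ℤ} {m x t : ℕ} {V : Finset (ℤ × ℤ)}

/-! ### The window -/

/-- The base vertex of a unit edge is near the face in front. -/
theorem sd_ua_fa (e : UE) : sd (ua e) (fa e) ≤ 1 := by
  obtain ⟨a, b, c⟩ := e
  rw [sd_le_iff]
  unfold fa ua
  cases c <;> simp only [Bool.false_eq_true, if_false, if_true] <;> split_ifs <;> simp only <;> omega

/-- The unit edges in front of which there is a face of the box. -/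
theorem sd_ua_of_Sn {e : UE} (h : fa e ∈ (Sn n : Set (ℤ × ℤ))) :
    0 < n ∧ sd (ua e) 0 ≤ 2 * n + 1 := by
  rw [Finset.mem_coe, Box0.mem_Sn] at h
  have h1 := (sd_le_iff (u := ua e) (v := fa e)).1 (sd_ua_fa e)
  rw [sd_le_iff]
  simp only [Prod.fst_zero, Prod.snd_zero]
  omega

/-- **The window**: at a fresh face the strand is in the box of radius `4 n`. -/
theorem win_all (hV : V ⊆ Box n) (h : fa (pS V q ω t) ∈ FU V \ QF q.1) :
    sd (ua (pS V q ω t)) 0 ≤ 4 * n := by
  obtain ⟨h0, h1⟩ := sd_ua_of_Sn (FU_box_sub hV h.1)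
  omega

theorem RunB.win (X : RunB 𝔇 d n r s ω q D κ m x) (hV : s.V ⊆ Box n) :
    sd (ua (pS s.V q ω s.t)) 0 ≤ 4 * n := win_all hV X.fre.1

/-! ### The period -/

/-- **The number of steps of the strand of the needle** before it comes back to its first edge, minus one. -/
noncomputable def nS (V : Finset (ℤ × ℤ)) (q : Rule.Ndl) (ω : Cfg) : ℕ :=
  Function.minimalPeriod (nx (cfS V q ω)) (eS V q) - 1

/-- The period of the strand. -/
theorem nS_per (hV : V ⊆ Box n) (hQ : QF q.1 ⊆ FU V) :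
    pth (cfS V q ω) (eS V q) (nS V q ω + 1) = eS V q := by
  obtain ⟨N, hN, hret⟩ := cfS_per hV hQ ω (eS V q)
  have hp : eS V q ∈ Function.periodicPts (nx (cfS V q ω)) := ⟨N, hN, hret⟩
  have h0 := Function.minimalPeriod_pos_of_mem_periodicPts hp
  have e1 : nS V q ω + 1 = Function.minimalPeriod (nx (cfS V q ω)) (eS V q) := by
    unfold nS
    omega
  rw [e1]
  exact Function.isPeriodicPt_minimalPeriod _ _

/-- The strand does not come back to its first edge up to the time `nS`. -/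
theorem nb_nS (V : Finset (ℤ × ℤ)) (q : Rule.Ndl) (ω : Cfg) : Nb (cfS V q ω) (eS V q) (nS V q ω) := by
  intro l hl hln hl'
  have h2 : Function.IsPeriodicPt (nx (cfS V q ω)) l (eS V q) := hl'
  have h3 := Nat.le_of_dvd hl h2.minimalPeriod_dvd
  have h4 : 0 < Function.minimalPeriod (nx (cfS V q ω)) (eS V q) :=
    Function.minimalPeriod_pos_of_mem_periodicPts ⟨l, hl, h2⟩
  unfold nS at hln
  omega

theorem pth_add_mul {η : Cfg} {e : UE} {P : ℕ} (h : pth η e P = e) (l k : ℕ) :
    pth η e (l + k * P) = pth η e l := by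
  induction k with
  | zero => rw [Nat.zero_mul, Nat.add_zero]
  | succ k ih =>
    have h3 : l + (k + 1) * P = P + (l + k * P) := by ring
    rw [h3, ← pth_add, h, ih]

theorem pth_mod {η : Cfg} {e : UE} {P : ℕ} (h : pth η e P = e) (t : ℕ) :
    pth η e (t % P) = pth η e t := by
  have h4 := pth_add_mul h (t % P) (t / P)
  rw [Nat.mul_comm (t / P) P, Nat.mod_add_div t P] at h4
  exact h4.symm

/-- **The running states are not later than `nS`.** -/
theorem RunB.le_nS (X : RunB 𝔇 d n r s ω q D κ m x) (hV : s.V ⊆ Box n) (hQ : QF q.1 ⊆ FU s.V) :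
    s.t ≤ nS s.V q ω := by
  by_contra hno
  push Not at hno
  exact X.nb (nS s.V q ω + 1) (Nat.succ_pos _) hno (nS_per hV hQ)

/-- **The strand crosses the target face** after the time of the state and not later than `nS`. -/
theorem RunB.hit_nS (X : RunB 𝔇 d n r s ω q D κ m x) (hV : s.V ⊆ Box n) (hQ : QF q.1 ⊆ FU s.V) :
    ∃ t, s.t ≤ t ∧ t ≤ nS s.V q ω ∧
      fa (pS s.V q ω t) = ahead (side (uS s q ω) (tS s q ω) x) := by
  have h := X.tstS
  obtain ⟨B, hB⟩ : ∃ B, B = side (uS s q ω) (tS s q ω) x := ⟨_, rfl⟩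
  have hBD : BD (uS s q ω) B := by
    rw [hB]
    exact bd_side h.cyc.bd x
  have hpar : par (rg B) ≠ 0 := by
    have h1 := (joins_lf_rg B).par_ne
    have h2 : par (lf B) = 0 := by
      rw [hB]
      exact h.px
    omega
  obtain ⟨-, hfbB⟩ := bwd_of_par hpar
  have hper := nS_per (ω := ω) hV hQ
  obtain ⟨t, ht⟩ := h.hit (cfS_per hV hQ ω _)
  have ht' : pth (cfS s.V q ω) (eS s.V q) (s.t + t) = B.1 := by
    rw [hB, ← ht, show (tS s q ω).1 = pS s.V q ω s.t from dirE_fst _]
    exact pS_eq_pth s q ω t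
  -- the face before the edge of `B`
  have key : ∃ t', t' ≤ nS s.V q ω ∧ fa (pS s.V q ω t') = ahead B := by
    have hlt : (s.t + t) % (nS s.V q ω + 1) < nS s.V q ω + 1 := Nat.mod_lt _ (Nat.succ_pos _)
    have hred := pth_mod hper (s.t + t)
    rw [ht'] at hred
    rcases Nat.eq_zero_or_pos ((s.t + t) % (nS s.V q ω + 1)) with h0 | h0
    · refine ⟨nS s.V q ω, le_rfl, ?_⟩
      rw [h0, pth_zero] at hred
      show fa (pth (cfS s.V q ω) (eS s.V q) (nS s.V q ω)) = _
      rw [← fb_pth_succ, hper, hred, hfbB]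
    · refine ⟨(s.t + t) % (nS s.V q ω + 1) - 1, by omega, ?_⟩
      show fa (pth (cfS s.V q ω) (eS s.V q) _) = _
      rw [← fb_pth_succ, Nat.sub_add_cancel h0, hred, hfbB]
  obtain ⟨t', h1, h2⟩ := key
  rw [← hB]
  refine ⟨t', ?_, h1, h2⟩
  by_contra hlt
  push Not at hlt
  have h3 : ahead B ∈ frS s q ω := compT_sub X.fre hBD.1
  refine h3.2 (Finset.mem_coe.2 ?_)
  rw [← h2]
  exact fa_mem_vs (Nat.zero_le _) hlt

/-- The period, the times of the running states and the target face in one statement. -/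
theorem hit_all (hV : s.V ⊆ Box n) (hQ : QF q.1 ⊆ FU s.V) (X : RunB 𝔇 d n r s ω q D κ m x) :
    ∃ P, 0 < P ∧ pth (cfS s.V q ω) (eS s.V q) P = eS s.V q ∧
      Nb (cfS s.V q ω) (eS s.V q) (P - 1) ∧ s.t ≤ P - 1 ∧
      ∃ t, s.t ≤ t ∧ t ≤ P - 1 ∧ fa (pS s.V q ω t) = ahead (side (uS s q ω) (tS s q ω) x) :=
  ⟨nS s.V q ω + 1, Nat.succ_pos _, nS_per hV hQ, nb_nS _ _ _, X.le_nS hV hQ, X.hit_nS hV hQ⟩

end Pool.Agent.SixB.Tru
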