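import Pool.Agent.Lib.SixB.S8InvSx

/-!
# Step 8, number of moves: the true domain at the first running stage

`comp_start`: the state after the entrance stage of a needle. The true domain is the WHOLE component of
the fresh faces off the needle, the strand has not been there before, and behind every side of the true
domain is a face which is not fresh.
-/

set_option autoImplicit false

namespace Pool.Agent.SixB.Tru

open Finset Pool.Agent.Perc Pool.Agent.PercT Pool.Agent.PercX60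
open Pool.Agent.SixB Pool.Agent.SixB.Rule Pool.Agent.SixB.Dct Pool.Agent.SixB.Mv
open Pool.Agent.SixB.Blow (subE)
open Pool.Agent.SixB.Top (compT ChI rg lf joins_lf_rg)
open Pool.Agent.Perc.Tips (ahead rv)

variable {𝔇 : Dat} {d : ℕ → ℕ} {n : ℕ} {r : ℤ} {s : TS} {ω : Cfg} {q : Rule.Ndl} {D : Dom}
  {κ : ℤ × ℤ → ℤ × ℤ} {m x : ℕ}

/-- The face of the coarse target side is in the true domain. -/
theorem RunB.subE_mem (X : RunB 𝔇 d n r s ω q D κ m x) :
    ahead (subE (unt d n) D.B 0) ∈ uS s q ω := by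
  have h1 : ahead (side (uS s q ω) (tS s q ω) x) ∈
      uS s q ω ∩ Mv.sqF r (ahead (subE (unt d n) D.B 0)) := ⟨X.tgt.1, X.tgt.2.1⟩
  exact (Top.ChI.mem h1 X.tgt.2.2).1

/-- **The true domain of the first running stage** is the whole component of the fresh faces. -/
theorem comp_start (X : RunB 𝔇 d n r s ω q D κ m x)
    (ht : s.t = staT n (unt d n) s.V q D.B ω) :
    uS s q ω = compT (FU s.V \ QF q.1) (fa (pS s.V q ω s.t)) ∧
      uS s q ω = compT (FU s.V \ QF q.1) (ahead (subE (unt d n) D.B 0)) ∧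
      (∀ l < s.t, fa (pS s.V q ω l) ∉ uS s q ω) ∧
      ∀ C, Top.BD (uS s q ω) C → ahead (rv C) ∉ FU s.V \ QF q.1 := by
  obtain ⟨F, hF⟩ : ∃ F : Set (ℤ × ℤ), F = FU s.V \ QF q.1 := ⟨_, rfl⟩
  obtain ⟨f₀, hf₀⟩ : ∃ f₀, f₀ = ahead (subE (unt d n) D.B 0) := ⟨_, rfl⟩
  have h1 := X.subE_mem
  rw [← hf₀] at h1 ⊢
  have hsub : frS s q ω ⊆ F := fun g hg => by rw [hF]; exact hg.1
  have h0 : fa (pS s.V q ω s.t) ∈ F := hsub X.fre
  have h2 : f₀ ∈ compT F (fa (pS s.V q ω s.t)) := Top.compT_mono hsub h1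
  have e : compT F f₀ = compT F (fa (pS s.V q ω s.t)) := Top.compT_eq h0 h2
  have hF0 : f₀ ∈ F := Top.compT_sub h0 h2
  have h3 : fa (pS s.V q ω s.t) ∈ compT F f₀ := by rw [e]; exact Top.self_mem_compT
  have h4 : ∀ l < s.t, fa (pS s.V q ω l) ∉ compT F f₀ := by
    intro l hl hh
    rw [hF, hf₀] at hh
    have h5 : staT n (unt d n) s.V q D.B ω ≤ l := by
      unfold staT
      exact hit_le_of (P := fun t => fa (pS s.V q ω t) ∈
        compT (FU s.V \ QF q.1) (ahead (subE (unt d n) D.B 0))) hh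
    omega
  have h6 : uS s q ω = compT F f₀ := by
    rw [hF] at hF0 h4 h3 ⊢
    exact Sx.uS_eq hF0 h4 h3
  rw [← hF]
  refine ⟨by rw [h6, e], h6, fun l hl => by rw [h6]; exact h4 l hl, fun C hC hh => hC.2 ?_⟩
  have h7 := hC.1
  rw [h6] at h7 ⊢
  exact Top.compT_step h7 (Top.adjF_ahead _).symm hh

/-- **The target side at the first running stage.** -/
theorem comp_start_tgt (X : RunB 𝔇 d n r s ω q D κ m x)
    (ht : s.t = staT n (unt d n) s.V q D.B ω) {B : UE × Bool}
    (hB : B = side (uS s q ω) (tS s q ω) x) :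
    ahead B ∈ FU s.V \ QF q.1 ∧ ahead (rv B) ∉ FU s.V \ QF q.1 ∧ fa B.1 ∉ FU s.V \ QF q.1 ∧
      fa B.1 = ahead (rv B) ∧ fb B.1 = ahead B ∧
      uS s q ω = compT (FU s.V \ QF q.1) (ahead B) := by
  obtain ⟨-, h2, h3, h4⟩ := comp_start X ht
  have hT := X.tst ω
  have hbd : Top.BD (uS s q ω) B := by rw [hB]; exact bd_side hT.cyc.bd x
  have hF0 : ahead (subE (unt d n) D.B 0) ∈ FU s.V \ QF q.1 := by
    have h5 := X.subE_mem
    exact (Top.compT_sub X.fre h5).1
  have h6 : ahead B ∈ compT (FU s.V \ QF q.1) (ahead (subE (unt d n) D.B 0)) := by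
    rw [← h2]; exact hbd.1
  have hp : par (rg B) ≠ 0 := by
    have h1 := (joins_lf_rg B).par_ne
    have h5 : par (lf B) = 0 := by rw [hB]; exact hT.px
    have h7 := par_cases (rg B)
    omega
  obtain ⟨e1, e2⟩ := bwd_of_par hp
  have h8 := h4 B hbd
  exact ⟨Top.compT_sub hF0 h6, h8, by rw [e1]; exact h8, e1, e2, by
    rw [h2]; exact (Top.compT_eq hF0 h6).symm⟩

end Pool.Agent.SixB.Tru
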