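import Pool.Agent.Lib.SixB.S8CountP

/-!
# Step 8, number of moves: the large moves

`Lg p N H L M s t`: during the disjoint time intervals `[s m, t m]`, `m ∈ M`, the strand `p` leaves the box of
radius `H` around its position at the time `s m`, and these positions lie in the box of radius `L`.

* `Lg.card_le`: the number of the intervals is at most `T` times the number of the points of a net, if no
  point of the net has `T` passages over its annulus;
* `lg_all`: the number of large moves is tight, uniformly in the rule, the step, the sizes.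
-/

set_option autoImplicit false

namespace Pool.Agent.SixB.CountP

open Finset Pool.Agent.Perc Pool.Agent.PercT Pool.Agent.SixB Pool.Agent.SixB.Near
open Pool.Agent.SixB.StkC (Alt Prs prs_of)
open Pool.Agent.SixB.NearCut (Nb)

/-- The strand leaves the box of radius `H` around its position `p (s m)` before the time `t m`; the
time intervals are disjoint. -/
def Lg (p : ℕ → UE) (N : ℕ) (H L : ℤ) (M : Finset ℕ) (s t : ℕ → ℕ) : Prop :=
  (∀ m ∈ M, s m < t m ∧ t m ≤ N ∧ ¬ InB (ua (p (s m))) H (p (t m)) ∧ sd (ua (p (s m))) 0 ≤ L) ∧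
    ∀ m ∈ M, ∀ m' ∈ M, m < m' → t m ≤ s m'

theorem sd_comm (u v : ℤ × ℤ) : sd u v = sd v u := by
  unfold sd
  rw [abs_sub_comm, abs_sub_comm u.2]

theorem sd_tri (u v w : ℤ × ℤ) : sd u w ≤ sd u v + sd v w := by
  have h1 := (sd_le_iff (u := u) (v := v)).1 le_rfl
  have h2 := (sd_le_iff (u := v) (v := w)).1 le_rfl
  rw [sd_le_iff]
  omega

theorem sd_nonneg (u v : ℤ × ℤ) : 0 ≤ sd u v := (abs_nonneg _).trans (le_max_left _ _)

/-- `k + 1` disjoint pairs up to the time `N` give `k` passages before the time `N`. -/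
theorem prs_alt {P Q : ℕ → Prop} {N k : ℕ} (h : Prs P Q (N + 1) (k + 1)) : Alt P Q N k := by
  obtain ⟨a, b, hab, hba⟩ := h.exists_seq
  refine ⟨fun l => if l % 2 = 0 then b (l / 2) else a (l / 2 + 1), fun l hl => ?_, ?_, fun l hl => ?_,
    fun l hl => ?_⟩
  · rcases Nat.mod_two_eq_zero_or_one l with h0 | h1
    · have e1 : (l + 1) % 2 = 1 := by omega
      have e2 : (l + 1) / 2 = l / 2 := by omega
      simp only [h0, e1, e2, if_true, one_ne_zero, if_false]
      exact hba _ (by omega)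
    · have e1 : (l + 1) % 2 = 0 := by omega
      have e2 : (l + 1) / 2 = l / 2 + 1 := by omega
      simp only [h1, e1, e2, if_true, one_ne_zero, if_false]
      exact (hab _ (by omega)).1
  · have e1 : 2 * k % 2 = 0 := by omega
    have e2 : 2 * k / 2 = k := by omega
    simp only [e1, e2, if_true]
    have := (hab k (by omega)).2.1
    omega
  · have e1 : 2 * l % 2 = 0 := by omega
    have e2 : 2 * l / 2 = l := by omega
    simp only [e1, e2, if_true]
    exact (hab l (by omega)).2.2.2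
  · have e1 : (2 * l + 1) % 2 = 1 := by omega
    have e2 : (2 * l + 1) / 2 = l := by omega
    simp only [e1, e2, one_ne_zero, if_false]
    exact (hab (l + 1) (by omega)).2.2.1

/-- A point of the net is not far. -/
theorem sd_of_mem_net {c y : ℤ × ℤ} {m ρ : ℤ} (hm : 0 ≤ m) (hρ : 0 < ρ) (h : c ∈ net y m ρ) :
    sd c y ≤ m + ρ := by
  unfold net at h
  rw [mem_image] at h
  obtain ⟨u, hu, rfl⟩ := h
  rw [mem_product, mem_Icc, mem_Icc] at hu
  obtain ⟨⟨h1, h2⟩, h3, h4⟩ := hu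
  have h0 : ρ * (m / ρ) ≤ m := Int.mul_ediv_self_le hρ.ne'
  have hb : ∀ x : ℤ, -(m / ρ + 1) ≤ x → x ≤ m / ρ + 1 → -(m + ρ) ≤ ρ * x ∧ ρ * x ≤ m + ρ := by
    intro x hx1 hx2
    have h5 := mul_le_mul_of_nonneg_left hx1 hρ.le
    have h6 := mul_le_mul_of_nonneg_left hx2 hρ.le
    have e1 : ρ * -(m / ρ + 1) = -(ρ * (m / ρ) + ρ) := by ring
    have e2 : ρ * (m / ρ + 1) = ρ * (m / ρ) + ρ := by ring
    omega
  have h5 := hb _ h1 h2
  have h6 := hb _ h3 h4
  rw [sd_le_iff]
  simp only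
  omega

/-- **The number of large moves**, deterministic. -/
theorem Lg.card_le {p : ℕ → UE} {N T : ℕ} {H L a b : ℤ} {M : Finset ℕ} {s t : ℕ → ℕ}
    (h : Lg p N H L M s t) (ha : 0 < a) (hab : a < b) (hH : a + b ≤ H)
    (hA : ∀ y ∈ net 0 L a, ¬ Alt (fun t => InB y a (p t)) (fun t => ¬ InB y b (p t)) N T) :
    M.card ≤ (net 0 L a).card * T := by
  classical
  obtain ⟨h1, h2⟩ := h
  have hex : ∀ m ∈ M, ∃ y ∈ net 0 L a, sd (ua (p (s m))) y ≤ a := fun m hm =>
    exists_net ha (h1 m hm).2.2.2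
  choose! f hf hfa using hex
  refine (card_le_mul_card_image_of_maps_to (f := f) (fun m hm => hf m hm) T ?_).trans_eq
    (mul_comm _ _)
  intro y hy
  by_contra hlt
  push Not at hlt
  set M' : Finset ℕ := M.filter fun m => f m = y with hM'
  have hmem : ∀ m ∈ M', m ∈ M ∧ f m = y := fun m hm => mem_filter.1 hm
  have hP : Prs (fun t => InB y a (p t)) (fun t => ¬ InB y b (p t)) (N + 1) M'.card := by
    have hin : ∀ m ∈ M', InB y a (p (s m)) := by
      intro m hm
      obtain ⟨hm1, hm2⟩ := hmem m hm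
      have := hfa m hm1
      rw [hm2] at this
      exact inB_iff.2 this
    have hout : ∀ m ∈ M', ¬ InB y b (p (t m)) := by
      intro m hm h3
      obtain ⟨hm1, hm2⟩ := hmem m hm
      refine (h1 m hm1).2.2.1 (inB_iff.2 ?_)
      have h4 := inB_iff.1 h3
      have h5 := inB_iff.1 (hin m hm)
      have h6 := sd_tri (ua (p (t m))) y (ua (p (s m)))
      have h7 := sd_comm y (ua (p (s m)))
      omega
    refine prs_of (a := s) (b := t) (fun m hm => ?_) (fun m hm m' hm' hlt' => ?_)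
    · obtain ⟨hm1, -⟩ := hmem m hm
      obtain ⟨h3, h4, -, -⟩ := h1 m hm1
      exact ⟨h3, by omega, hin m hm, hout m hm⟩
    · left
      refine lt_of_le_of_ne (h2 m (hmem m hm).1 m' (hmem m' hm').1 hlt') fun he => ?_
      have h3 := hin m' hm'
      rw [← he] at h3
      refine hout m hm (inB_iff.2 ((inB_iff.1 h3).trans hab.le))
  have hP' : Prs (fun t => InB y a (p t)) (fun t => ¬ InB y b (p t)) (N + 1) (T + 1) :=
    hP.mono hlt
  exact hA y hy (prs_alt hP')

section Tight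

open Pool.Agent.PercX60 Pool.Agent.SixB.Rule Pool.Agent.SixB.Scan Pool.Agent.SixB.Dct
open Pool.Agent.SixB.WC (Dm NdPc NdOK)
open Pool.Agent.SixB.NM (Nds)

/-- **The number of large moves is tight**: all rules, all steps, all sizes; `Nds`: all the needles up to the step `j` have few pieces. -/
theorem lg_all (J N₀ : ℕ) {δ η : ℝ} (hδ : 0 < δ) (hη : 0 < η) (B : ℝ) :
    ∃ κ : ℝ, 0 < κ ∧ ∃ T : ℕ, ∀ᶠ n : ℕ in Filter.atTop, ∀ (h : ℕ) (Ru : Rul) (C : ℤ),
      RulOK n h Ru → 0 ≤ C → (C : ℝ) ≤ κ * n →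
      pr (Sn n) {ω | ∃ j < J, Nds n Ru C N₀ j ω ∧ (exR n Ru j).Wll ω ∧
        ∃ (N : ℕ) (H L : ℤ) (M : Finset ℕ) (s t : ℕ → ℕ),
        δ * n ≤ (H : ℝ) ∧ (L : ℝ) ≤ B * n ∧
        Nb ((exR n Ru j).cf ω) ((exR n Ru j).e ω) N ∧
        Lg ((exR n Ru j).p ω) N H L M s t ∧ T < M.card} ≤ η := by
  obtain ⟨κ, hκ, T, hT⟩ := alt_all J N₀ (δ := δ / 2) (by positivity) hη (|B| + δ)
  set A : ℝ := (2 * (8 * |B| / δ) + 3) ^ 2 with hA
  have hA0 : 0 ≤ A := by positivity
  refine ⟨κ, hκ, ⌊A * T⌋₊, ?_⟩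
  have e1 : ∀ᶠ n : ℕ in Filter.atTop, 64 ≤ δ * (n : ℝ) :=
    (tendsto_natCast_atTop_atTop.const_mul_atTop hδ).eventually_ge_atTop _
  filter_upwards [hT, e1] with n hTn h1 h Ru C hR hC hCn
  refine (pr_mono _ ?_).trans (hTn h Ru C hR hC hCn)
  rintro ω ⟨j, hj, hN, hW, N, H, L, M, s, t, hH, hL, hNb, hLg, hlt⟩
  have hn0 : (0 : ℝ) ≤ n := by positivity
  obtain ⟨a, ha⟩ : ∃ a : ℤ, a = ⌊δ * n / 8⌋ + 1 := ⟨_, rfl⟩
  obtain ⟨L', hL'⟩ : ∃ L' : ℤ, L' = ⌊|B| * n⌋ := ⟨_, rfl⟩
  have a1 : δ * n / 8 < a := by rw [ha]; push_cast; exact Int.lt_floor_add_one _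
  have a2 : (a : ℝ) ≤ δ * n / 8 + 1 := by
    rw [ha]; push_cast; have := Int.floor_le (δ * n / 8); linarith
  have a3 : 0 < a := by
    have : (0 : ℝ) < a := by linarith
    exact_mod_cast this
  have l1 : (L' : ℝ) ≤ |B| * n := by rw [hL']; exact Int.floor_le _
  have l2 : L ≤ L' := by
    rw [hL', Int.le_floor]
    exact hL.trans (mul_le_mul_of_nonneg_right (le_abs_self B) hn0)
  have l3 : 0 ≤ L' := by rw [hL']; exact Int.floor_nonneg.2 (by positivity)
  have hLg' : Lg ((exR n Ru j).p ω) N H L' M s t :=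
    ⟨fun m hm => by
      obtain ⟨b1, b2, b3, b4⟩ := hLg.1 m hm
      exact ⟨b1, b2, b3, b4.trans l2⟩, hLg.2⟩
  have hcard : ((net 0 L' a).card : ℝ) ≤ A := by
    refine card_net_le 0 l3 a3 ?_
    have h3 : |B| * n ≤ 8 * |B| / δ * a := by
      rw [div_mul_eq_mul_div, le_div_iff₀ hδ]
      have h4 := mul_le_mul_of_nonneg_left a1.le (abs_nonneg B)
      nlinarith [abs_nonneg B]
    linarith
  by_contra hno
  refine absurd hlt (not_lt.2 ?_)
  have h3 := hLg'.card_le (T := T) (a := a) (b := H - a) a3 ?_ (by omega) ?_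
  · refine Nat.le_floor ?_
    have h4 : (M.card : ℝ) ≤ (net 0 L' a).card * T := by exact_mod_cast h3
    exact h4.trans (mul_le_mul_of_nonneg_right hcard (by positivity))
  · have h4 : ((a : ℤ) : ℝ) < ((H - a : ℤ) : ℝ) := by
      push_cast
      linarith
    exact_mod_cast h4
  · intro y hy hAlt
    refine hno ⟨j, hj, hN, hW, y, a, H - a, N, ?_, ?_, hNb, hAlt⟩
    · push_cast
      linarith
    · have h4 := sd_of_mem_net l3 a3 hy
      have h5 : ((sd y 0 : ℤ) : ℝ) ≤ L' + a := by exact_mod_cast h4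
      linarith

end Tight

end Pool.Agent.SixB.CountP
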