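import Pool.Agent.Lib.SixB.S8CountM
import Pool.Agent.Lib.SixB.S8CloseK

/-!
# Step 8, number of moves: LEMMA M, second part

* `Stg.void_left`, `Stg.void_right`: Claim A for a void move (`E` contains the face of the coarse tip side);
* `near_chain`: the faces of the sides `j₁ - 1, …, j₂ + 1` are joined to the face of the target side in `P`
  near the target; `persist`: such chains survive the moves;
* `side_pre`, `side_suf`, `exists_w`: the position on the contour of `P` of a side of the stop arc of the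
  coarse domain `D`;
* `link_notMem`: the link of a side whose face is not in the inner domain is not visited;
* `claimA_left`, `claimA_right`: Claim A in terms of two stages.
-/

set_option autoImplicit false

namespace Pool.Agent.SixB.CntM

open Finset Pool.Agent.Perc Pool.Agent.Perc6 Pool.Agent.Perc6.C2Aux Pool.Agent.Perc.Tips
open Pool.Agent.SixB.Top Pool.Agent.SixB.Mv Pool.Agent.SixB.NearCut Pool.Agent.SixB.CloK

variable {ι ι' γ : Type*} {U P : Set (ℤ × ℤ)} {κ : ℤ × ℤ → ι} {d : ℤ} {A τ B : UE × Bool}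

/-! ### Void moves -/

namespace Stg

variable {c : ℤ × ℤ → γ} {s s₀ : ℤ} {mP mU kt i₁ j₁ t j₂ i₂ : ℕ} {E : Set (ℤ × ℤ)}
  (S : Stg U P κ d A τ B c s s₀ mP mU kt i₁ j₁ t j₂ i₂ E) {H₀ : Set (ℤ × ℤ)}

include S

/-- The first side on the right which is far from the tip is a side of `E`. -/
theorem tip_b (hAE : ahead A ∈ E) (hc : ∀ f ∈ sqF (s + 2) (ahead A), c f = c (ahead A)) :
    inF P A (i₁ + 1) ∈ E ∧ i₁ + 1 < j₁ - 1 := by
  have hij := S.lab.ij
  have hji := S.lab.ji
  have him := S.lab.im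
  have hjt := S.lab.jt
  have htj := S.lab.tj
  have h1 : inF P A (i₁ + 1) ∈ E := by
    refine (run_iff S.lab.cyc.bd S.sat (r := s) (z := ahead A)
      (fun f hf => hc f (sqF_mono (by omega) hf)) (i := 0) (j := i₁ + 1) (Nat.zero_le _)
      (fun k _ h2 => S.lab.nrA k (Or.inl (by omega)))).1 ?_
    exact hAE
  refine ⟨h1, ?_⟩
  by_contra hcon
  exact S.near_notMem (i := i₁ + 1) (by omega) (by omega) h1

/-- The last side on the left which is far from the tip is a side of `E`. -/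
theorem tip_l (hAE : ahead A ∈ E) (hc : ∀ f ∈ sqF (s + 2) (ahead A), c f = c (ahead A)) :
    inF P A (i₂ - 1) ∈ E ∧ j₂ + 1 < i₂ - 1 := by
  have hij := S.lab.ij
  have hji := S.lab.ji
  have him := S.lab.im
  have hjt := S.lab.jt
  have htj := S.lab.tj
  have hA := S.lab.cyc.bd
  have h1 : inF P A (i₂ - 1) ∈ E := by
    refine (run_iff hA S.sat (r := s + 1) (z := ahead A)
      (fun f hf => hc f (sqF_mono (by omega) hf)) (i := i₂ - 1) (j := mP) (by omega)
      (fun k h2 h3 => ?_)).2 ?_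
    · rcases Nat.lt_or_ge k i₂ with h4 | h4
      · have h5 := S.lab.nrA i₂ (Or.inr ⟨le_rfl, him⟩)
        rw [show i₂ = k + 1 by omega] at h5
        exact inF_pred_near hA h5
      · exact sqF_mono (by omega) (S.lab.nrA k (Or.inr ⟨h4, h3.le⟩))
    · have : inF P A mP = ahead A := by
        unfold inF
        rw [S.lab.cyc.per]
      rw [this]
      exact hAE
  refine ⟨h1, ?_⟩
  by_contra hcon
  exact S.near_notMem (i := i₂ - 1) (by omega) (by omega) h1

/-- **Claim A for a void move, left side.** -/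
theorem void_left (hAE : ahead A ∈ E) (hc : ∀ f ∈ sqF (s + 2) (ahead A), c f = c (ahead A))
    {w r v q : ℕ} (hw : j₂ + 1 < w) (hwr : w < r) (hr : r < mP) (hE : inF P A w ∈ E)
    (hrb : κ (outF P A r) ≠ κ (outF P A (j₁ - 1))) (hry : κ (outF P A r) ≠ κ (outF P A (j₂ + 1)))
    (hkv : kt ≤ v) (hv : v < mU) (lw : LinkK U κ (side P A w) (side U τ v))
    (hH : H₀ ⊆ U) (cH : Top.EConn H₀) (hb : inF P A (j₁ - 1) ∈ H₀) (hHE : ∀ f ∈ H₀, f ∉ E)
    (hHw : ∀ f ∈ H₀, f ∉ lkF U κ (side P A w)) (hHs : ∀ f ∈ H₀, f ∉ lkF U κ (side P A (i₁ + 1)))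
    (hqm : q < mU) (hqH : inF U τ q ∈ H₀) : q < v := by
  have hA := S.lab.cyc.bd
  have hij := S.lab.ij
  have hjt := S.lab.jt
  have htj := S.lab.tj
  have hji := S.lab.ji
  obtain ⟨hE1, h1j⟩ := S.tip_b hAE hc
  obtain ⟨vb, hvb, lb⟩ := S.lab.b (j₁ - 1) (by omega) (by omega)
  obtain ⟨vs, hvs, ls⟩ := S.lab.b (i₁ + 1) (by omega) (by omega)
  obtain ⟨vy, hvy, hvym, ly⟩ := S.lab.l (j₂ + 1) (by omega) (by omega)
  -- the link of the side `i₁ + 1`
  have hsb : ∀ f ∈ lkF U κ (side P A (j₁ - 1)), f ∉ lkF U κ (side P A (i₁ + 1)) :=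
    S.lk_right h1j hE1
  have hsy : ∀ f ∈ lkF U κ (side P A (i₁ + 1)), f ∉ lkF U κ (side P A (j₂ + 1)) := by
    intro f hf hf'
    have hcl := (lkF_meet hf hf').2
    refine S.no_meet (i := i₁ + 1) (k := j₁ - 1) (j := j₂ + 1) (l := r) h1j (by omega) (by omega)
      (by omega) hr hf hf' ?_ ?_
    · exact fun h => S.sep (h.trans hcl)
    · exact fun h => hry (h.trans hcl)
  have h1 := S.cyc (i := i₁ + 1) (j := j₁ - 1) (k := j₂ + 1) h1j (by omega) (by omega)
    (by omega) (by omega) hvym ls lb ly (fun f hf hf' => hsb f hf' hf) hsy (lkF_disj S.sep)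
  -- the two connected sets
  set H := H₀ ∪ lkF U κ (side P A (j₁ - 1)) with hHd
  set X := (E ∪ lkF U κ (side P A w)) ∪ lkF U κ (side P A (i₁ + 1)) with hXd
  have hXH : ∀ f ∈ X, f ∉ H := by
    rintro f ((hf | hf) | hf) (hf' | hf')
    · exact hHE f hf' hf
    · exact (lkF_sub S.app (bd_side hA _) f hf').2 (S.EP hf)
    · exact hHw f hf' hf
    · exact S.lk_left' hw hwr hr hrb f hf' hf
    · exact hHs f hf' hf
    · exact hsb f hf' hf
  have cX : Top.EConn X := econn_add (S.econn_E hE) (Or.inl hE1)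
  have hXU : X ⊆ U := by
    rintro f ((hf | hf) | hf)
    · exact S.app.sub (S.EP hf)
    · exact lkF_U hf
    · exact lkF_U hf
  have hHU : H ⊆ U := by
    rintro f (hf | hf)
    · exact hH hf
    · exact lkF_U hf
  have hvX : inF U τ v ∈ X := Or.inl (S.inF_of_link hE lw)
  have hne : q ≠ v := by
    rintro rfl
    exact hXH _ hvX (Or.inl hqH)
  by_contra hcon
  exact Cnt.face_nc (S.eU.hasPot' S.fU) hXU cX hHU (econn_add cH hb) hXH S.cyU.bd (cyc_per S.cyU)
    (i := vs) (j := vb) (k := v) (l := q) (by omega) (by omega) (by omega) hqm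
    (mem_add (Or.inl hE1) ls) hvX (mem_add hb lb) (Or.inl hqH)

/-- **Claim A for a void move, right side.** -/
theorem void_right (hAE : ahead A ∈ E) (hc : ∀ f ∈ sqF (s + 2) (ahead A), c f = c (ahead A))
    {w r v q : ℕ} (hw : w < j₁ - 1) (hwr : r < w) (hE : inF P A w ∈ E)
    (hrb : κ (outF P A r) ≠ κ (outF P A (j₁ - 1))) (hry : κ (outF P A r) ≠ κ (outF P A (j₂ + 1)))
    (hv : v < kt) (lw : LinkK U κ (side P A w) (side U τ v))
    (hH : H₀ ⊆ U) (cH : Top.EConn H₀) (hy : inF P A (j₂ + 1) ∈ H₀) (hHE : ∀ f ∈ H₀, f ∉ E)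
    (hHw : ∀ f ∈ H₀, f ∉ lkF U κ (side P A w)) (hHs : ∀ f ∈ H₀, f ∉ lkF U κ (side P A (i₂ - 1)))
    (hqH : inF U τ q ∈ H₀) : v < q := by
  have hA := S.lab.cyc.bd
  have hij := S.lab.ij
  have hjt := S.lab.jt
  have htj := S.lab.tj
  have hji := S.lab.ji
  have him := S.lab.im
  obtain ⟨hE1, h1j⟩ := S.tip_l hAE hc
  obtain ⟨vb, hvb, lb⟩ := S.lab.b (j₁ - 1) (by omega) (by omega)
  obtain ⟨vs, hvs, hvsm, ls⟩ := S.lab.l (i₂ - 1) (by omega) (by omega)
  obtain ⟨vy, hvy, hvym, ly⟩ := S.lab.l (j₂ + 1) (by omega) (by omega)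
  have hsy : ∀ f ∈ lkF U κ (side P A (j₂ + 1)), f ∉ lkF U κ (side P A (i₂ - 1)) :=
    S.lk_left h1j (by omega) hE1
  have hsb : ∀ f ∈ lkF U κ (side P A (j₁ - 1)), f ∉ lkF U κ (side P A (i₂ - 1)) := by
    intro f hf hf'
    refine S.no_meet (i := j₁ - 1) (k := j₂ + 1) (j := i₂ - 1) (l := r) (by omega) h1j (by omega)
      (by omega) (by omega) hf hf' (fun h => S.sep h.symm) hrb
  have h1 := S.cyc (i := j₁ - 1) (j := j₂ + 1) (k := i₂ - 1) (by omega) h1j (by omega)
    (by omega) hvym hvsm lb ly ls (lkF_disj S.sep) hsb hsy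
  set H := H₀ ∪ lkF U κ (side P A (j₂ + 1)) with hHd
  set X := (E ∪ lkF U κ (side P A w)) ∪ lkF U κ (side P A (i₂ - 1)) with hXd
  have hXH : ∀ f ∈ X, f ∉ H := by
    rintro f ((hf | hf) | hf) (hf' | hf')
    · exact hHE f hf' hf
    · exact (lkF_sub S.app (bd_side hA _) f hf').2 (S.EP hf)
    · exact hHw f hf' hf
    · exact S.lk_right' hw hwr hry f hf' hf
    · exact hHs f hf' hf
    · exact hsy f hf' hf
  have cX : Top.EConn X := econn_add (S.econn_E hE) (Or.inl hE1)
  have hXU : X ⊆ U := by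
    rintro f ((hf | hf) | hf)
    · exact S.app.sub (S.EP hf)
    · exact lkF_U hf
    · exact lkF_U hf
  have hHU : H ⊆ U := by
    rintro f (hf | hf)
    · exact hH hf
    · exact lkF_U hf
  have hvX : inF U τ v ∈ X := Or.inl (S.inF_of_link hE lw)
  have hne : q ≠ v := by
    rintro rfl
    exact hXH _ hvX (Or.inl hqH)
  by_contra hcon
  exact Cnt.face_nc (S.eU.hasPot' S.fU) hHU (econn_add cH hy) hXU cX (fun f hf hf' => hXH f hf' hf)
    S.cyU.bd (cyc_per S.cyU) (i := q) (j := v) (k := vy) (l := vs) (by omega) (by omega) (by omega)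
    hvsm (Or.inl hqH) (mem_add hy ly) hvX (mem_add (Or.inl hE1) ls)

end Stg

/-! ### Chains near the target -/

/-- Consecutive inner faces are joined near the common vertex. -/
theorem succ_chain (hA : BD P A) (i : ℕ) :
    ChI (P ∩ {f | IsCor f (vert P A (i + 1))}) (inF P A i) (inF P A (i + 1)) := by
  have key := (inF_step (P := P) (Q := {f | IsCor f (vert P A (i + 1))})
    (S := {f | ChI (P ∩ {f | IsCor f (vert P A (i + 1))}) (inF P A i) f}) hA (i := i)
    (fun f hf => hf) (fun f g hf _ hg hgQ hfg => (hf : ChI _ _ f).tail ⟨hfg, hg, hgQ⟩)).1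
    (ChI.refl _)
  exact key

/-- **The faces of the sides near the target are joined in `P` near the target.** -/
theorem near_chain {s s₀ : ℤ} {mP mU kt i₁ j₁ t j₂ i₂ : ℕ}
    (X : LabP U P κ A τ B s s₀ mP mU kt i₁ j₁ t j₂ i₂) {i : ℕ} (h1 : j₁ ≤ i + 1) (h2 : i ≤ j₂ + 1) :
    ChI (P ∩ sqF (s₀ + 1) (ahead B)) (ahead B) (inF P A i) := by
  have hA := X.cyc.bd
  have hjt := X.jt
  have htj := X.tj
  have hBt : inF P A t = ahead B := by
    unfold inF
    rw [X.tgt]
  have hBP : ahead B ∈ P := by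
    rw [← hBt]
    exact (bd_side hA t).1
  have hs0 : 0 ≤ s₀ := by
    have := (X.nrB t hjt htj).1
    exact (abs_nonneg _).trans this
  have hBm : ahead B ∈ P ∩ sqF (s₀ + 1) (ahead B) := by
    refine ⟨hBP, ?_⟩
    unfold sqF
    rw [Set.mem_setOf_eq]
    simp only [sub_self, abs_zero]
    omega
  have step : ∀ k, (j₁ ≤ k ∧ k ≤ j₂) ∨ (j₁ ≤ k + 1 ∧ k + 1 ≤ j₂) →
      ChI (P ∩ sqF (s₀ + 1) (ahead B)) (inF P A k) (inF P A (k + 1)) := by
    intro k hk
    refine (succ_chain hA k).mono ?_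
    rintro f ⟨hf, hfc⟩
    refine ⟨hf, ?_⟩
    have hfc' : IsCor f (vert P A (k + 1)) := hfc
    rcases hk with hk | hk
    · have h := X.nrB k hk.1 hk.2
      have h3 : IsCor (inF P A k) (vert P A (k + 1)) := by
        rw [vert_succ]
        exact isCor_in_rg _
      unfold sqF at h ⊢
      rw [Set.mem_setOf_eq, abs_le, abs_le] at *
      unfold IsCor at h3 hfc'
      omega
    · have h := X.nrB (k + 1) hk.1 hk.2
      have h3 : IsCor (inF P A (k + 1)) (vert P A (k + 1)) := isCor_in_lf _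
      unfold sqF at h ⊢
      rw [Set.mem_setOf_eq, abs_le, abs_le] at *
      unfold IsCor at h3 hfc'
      omega
  have up : ∀ k, t + k ≤ j₂ + 1 → ChI (P ∩ sqF (s₀ + 1) (ahead B)) (ahead B) (inF P A (t + k)) := by
    intro k
    induction k with
    | zero =>
      intro _
      rw [Nat.add_zero, hBt]
      exact ChI.refl _
    | succ k ih =>
      intro hk
      exact (ih (by omega)).trans (step (t + k) (Or.inl (by omega)))
  have down : ∀ k, j₁ ≤ t + 1 - k → k ≤ t →
      ChI (P ∩ sqF (s₀ + 1) (ahead B)) (ahead B) (inF P A (t - k)) := by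
    intro k
    induction k with
    | zero =>
      intro _ _
      rw [Nat.sub_zero, hBt]
      exact ChI.refl _
    | succ k ih =>
      intro hk hkt
      have h3 := ih (by omega) (by omega)
      have h4 := step (t - (k + 1)) (Or.inr (by omega))
      rw [show t - (k + 1) + 1 = t - k by omega] at h4
      have hmem : inF P A (t - (k + 1)) ∈ P ∩ sqF (s₀ + 1) (ahead B) := by
        refine ⟨(bd_side hA _).1, ?_⟩
        have h5 := X.nrB (t - (k + 1) + 1) (by omega) (by omega)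
        exact inF_pred_near hA h5
      exact h3.trans (ChI.symm hmem h4)
  rcases Nat.lt_or_ge i t with h3 | h3
  · have := down (t - i) (by omega) (by omega)
    rwa [show t - (t - i) = i by omega] at this
  · have := up (i - t) (by omega)
    rwa [show t + (i - t) = i by omega] at this

/-- **Chains near the target survive a move.** -/
theorem persist {V : Set (ℤ × ℤ)} {c : ℤ × ℤ → γ} {z f : ℤ × ℤ} {r : ℤ}
    (hV : ∀ f ∈ V, ∀ g ∈ P, AdjF f g → c f = c g → g ∈ V) (hz : z ∈ P) (hzV : z ∉ V)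
    (hc : ∀ f ∈ sqF r z, c f = c z) (h : ChI (P ∩ sqF r z) z f) :
    ChI (compT (P \ V) z ∩ sqF r z) z f := by
  have key : f ∈ P ∧ f ∉ V ∧ c f = c z ∧ f ∈ compT (P \ V) z ∧
      ChI (compT (P \ V) z ∩ sqF r z) z f := by
    induction h with
    | refl => exact ⟨hz, hzV, rfl, self_mem_compT, ChI.refl _⟩
    | @tail b g hb hs ih =>
      obtain ⟨h1, h2, h3, h4, h5⟩ := ih
      have hg : c g = c z := hc g hs.2.2
      have hgV : g ∉ V := fun hh => h2 (hV g hh b h1 hs.1.symm (hg.trans h3.symm))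
      have h6 : g ∈ compT (P \ V) z := compT_step h4 hs.1 ⟨hs.2.1, hgV⟩
      exact ⟨hs.2.1, hgV, hg, h6, h5.tail ⟨hs.1, h6, hs.2.2⟩⟩
  exact key.2.2.2.2

/-! ### The position of the sides of the coarse domain -/

section Pos

variable {D : Set (ℤ × ℤ)} {m p q mP : ℕ}

/-- The sides before the stop arc. -/
theorem side_pre (H : Mvd U P D κ d A m p q) {i : ℕ} (hi : i < p) : side P A i = side D A i := by
  have h3 := H.pq
  have h4 := H.qm
  have h1 : ∀ j ≤ i, ahead (rv ((sc D)^[j] A)) ∉ P := by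
    intro j hj hP
    have := H.exit j (by omega) hP
    omega
  exact (interval_of_out H.DP H.cyc.bd h1 i le_rfl).1

/-- The sides after the stop arc. -/
theorem side_suf (H : Mvd U P D κ d A m p q) (hP : Cyc P A mP) {r : ℕ} (hr : r + q < m) :
    r ≤ mP ∧ side P A (mP - r) = side D A (m - r) := by
  have h3 := H.pq
  have h4 := H.qm
  have hAP : outF D A m ∉ P := by
    unfold outF
    rw [H.cyc.per]
    exact hP.bd.2
  rcases Nat.eq_zero_or_pos r with h0 | h0
  · subst h0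
    exact ⟨Nat.zero_le _, by rw [Nat.sub_zero, Nat.sub_zero, hP.per, H.cyc.per]⟩
  have hq1 : q + 1 < m := by omega
  have hC' : BD P (side D A (q + 1)) := ⟨H.DP (bd_side H.cyc.bd _).1, fun hh => by
    have := H.exit (q + 1) hq1 hh
    omega⟩
  obtain ⟨j, hj, hjs⟩ := hP.exists_index hC'
  have hout : ∀ i ≤ m - (q + 1), ahead (rv ((sc D)^[i] (side D A (q + 1)))) ∉ P := by
    intro i hi hh
    have e1 : (sc D)^[i] (side D A (q + 1)) = side D A (q + 1 + i) := (side_add _ _).symm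
    rw [e1] at hh
    rcases hi.lt_or_eq with h8 | h8
    · have := H.exit (q + 1 + i) (by omega) hh
      omega
    · rw [show q + 1 + i = m by omega] at hh
      exact hAP hh
  have hint := interval_of_out H.DP (bd_side H.cyc.bd (q + 1)) hout
  have hs : ∀ i ≤ m - (q + 1), side P A (j + i) = side D A (q + 1 + i) := by
    intro i hi
    have e1 := (hint i hi).1
    have e2 : side P A (j + i) = (sc P)^[i] (side D A (q + 1)) := by
      rw [side_add, hjs]
      rfl
    rw [e2, e1]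
    exact (side_add _ _).symm
  have hlen : j + (m - (q + 1)) = mP := by
    have h8 := hs (m - (q + 1)) le_rfl
    rw [show q + 1 + (m - (q + 1)) = m by omega, H.cyc.per] at h8
    rcases lt_trichotomy (j + (m - (q + 1))) mP with h9 | h9 | h9
    · have := hP.inj _ h9 0 hP.pos (by rw [h8]; rfl)
      omega
    · exact h9
    · exfalso
      have h10 := hs (mP - j) (by omega)
      rw [show j + (mP - j) = mP by omega, hP.per] at h10
      have := H.cyc.inj (q + 1 + (mP - j)) (by omega) 0 H.cyc.pos (by rw [← h10]; rfl)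
      omega
  refine ⟨by omega, ?_⟩
  have h8 := hs (m - (q + 1) - r) (by omega)
  rw [show mP - r = j + (m - (q + 1) - r) by omega, h8]
  congr 1
  omega

/-- **The position of a wall side of the stop arc on the contour of `P`.** -/
theorem exists_w (H : Mvd U P D κ d A m p q) (hP : Cyc P A mP) {i : ℕ} (h1 : p ≤ i) (h2 : i ≤ q)
    (ho : outF D A i ∉ P) :
    ∃ w, p ≤ w ∧ w < mP ∧ w + m ≤ q + mP ∧ side P A w = side D A i := by
  have h3 := H.qm
  obtain ⟨w, hw, hws⟩ := hP.exists_index (B := side D A i) ⟨H.DP (bd_side H.cyc.bd i).1, ho⟩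
  refine ⟨w, ?_, hw, ?_, hws⟩
  · by_contra hcon
    have h4 := side_pre H (i := w) (by omega)
    have := H.cyc.inj w (by omega) i (by omega) (h4.symm.trans hws)
    omega
  · by_contra hcon
    obtain ⟨h5, h6⟩ := side_suf H hP (r := mP - w) (by omega)
    rw [show mP - (mP - w) = w by omega, hws] at h6
    have := H.cyc.inj i (by omega) (m - (mP - w)) (by omega) h6
    omega

end Pos

/-! ### Visited faces -/

/-- **The link of a side whose face is outside of the inner domain is not visited.** -/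
theorem link_notMem {G T : Set (ℤ × ℤ)} {k₁ k₃ m : ℕ} {gR gL : ℤ × ℤ} {b : UE × Bool}
    (H : Clo U P G T A k₁ k₃ m (capK U κ gR) (capK U κ gL)) (app : App U P κ d)
    (hcomp : ∀ t ∈ T, ∀ g, AdjF t g → g ∉ T →
      g ∉ U ∨ g ∈ P ∨ g ∈ capK U κ gR ∨ g ∈ capK U κ gL)
    (hb : BD P b) (hbG : ahead b ∉ G) (hR : κ (ahead (rv b)) ≠ κ gR)
    (hL : κ (ahead (rv b)) ≠ κ gL) : ∀ f ∈ lkF U κ b, f ∉ T := by
  intro f hf hfT
  have hgT : ahead (rv b) ∉ T := by
    intro h
    have hnG : ahead (rv b) ∉ G := fun hh => hb.2 (H.DP hh)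
    exact H.not_adj h hnG hb.1 hbG (adjF_ahead b)
  have hch := lkF_chain hf
  have hsub := lkF_sub app hb
  have key : ∀ x, ChI (lkF U κ b) (ahead (rv b)) x → x ∉ T := by
    intro x hx
    induction hx with
    | refl => exact hgT
    | @tail y x hy hs ih =>
      intro hxT
      have hyL : y ∈ lkF U κ b := ChI.mem (lkF_self hf) hy
      rcases hcomp x hxT y hs.1.symm ih with h | h | h | h
      · exact h (lkF_U hyL)
      · exact (hsub y hyL).2 h
      · exact hR ((lkF_class hyL).symm.trans (capK_class h))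
      · exact hL ((lkF_class hyL).symm.trans (capK_class h))
  exact key f hch hfT

/-! ### Two stages -/

/-- The side which is old at the later stage: `P'` and the link of the side number `r'`. -/
theorem econn_later {U' P' : Set (ℤ × ℤ)} {κ' : ℤ × ℤ → ι'} {A' : UE × Bool} {r' : ℕ}
    (cP : Top.EConn P') (hA' : BD P' A') : Top.EConn (P' ∪ lkF U' κ' (side P' A' r')) :=
  econn_add cP (bd_side hA' r').1

namespace Stg

variable {c : ℤ × ℤ → γ} {s s₀ : ℤ} {mP mU kt i₁ j₁ t j₂ i₂ : ℕ} {E : Set (ℤ × ℤ)}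
  (S : Stg U P κ d A τ B c s s₀ mP mU kt i₁ j₁ t j₂ i₂ E) {ω : Cfg} {e : UE} {n σ σ' : ℕ}
  {U' P' : Set (ℤ × ℤ)} {κ' : ℤ × ℤ → ι'} {d' : ℤ} {A' τ' : UE × Bool}

include S

/-- **Claim A, left**: a regular stop (`X`) or a void stop (`ahead A ∈ E`); `v'` is the number at the
later stage of the far side, `q` its number at this stage. -/
theorem claimA_left (hX : Strd ω e n U τ σ σ' E ∨
      (ahead A ∈ E ∧ ∀ f ∈ sqF (s + 2) (ahead A), c f = c (ahead A)))
    {w r v : ℕ} (hw : j₂ + 1 < w) (hwr : w < r) (hr : r < mP) (hE : inF P A w ∈ E)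
    (hrb : κ (outF P A r) ≠ κ (outF P A (j₁ - 1))) (hry : κ (outF P A r) ≠ κ (outF P A (j₂ + 1)))
    (hkv : kt ≤ v) (hv : v < mU) (lw : LinkK U κ (side P A w) (side U τ v))
    (hbv : ∀ l, σ ≤ l → l < σ' → fa (pth ω e l) ∉ lkF U κ (side P A (j₁ - 1)))
    (app' : App U' P' κ' d') (cP' : Top.EConn P') (hA' : BD P' A') (hUU : U' ⊆ U)
    (hvis : ∀ l, σ ≤ l → l < σ' → fa (pth ω e l) ∉ U') (hPP : P' ⊆ P) (hPE : ∀ f ∈ P', f ∉ E)
    (hb : inF P A (j₁ - 1) ∈ P') {r' v' q : ℕ}
    (hz : ∀ f ∈ lkF U' κ' (side P' A' r'), f ∉ E ∧ f ∉ lkF U κ (side P A w) ∧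
      f ∉ lkF U κ (side P A (i₁ + 1)))
    (lr : LinkK U' κ' (side P' A' r') (side U' τ' v')) (hq : side U τ q = side U' τ' v')
    (hkq : kt ≤ q) (hqm : q < mU) : q < v := by
  have hA := S.lab.cyc.bd
  have hPlk : ∀ i, ∀ f ∈ P', f ∉ lkF U κ (side P A i) := fun i f hf hf' =>
    (lkF_sub S.app (bd_side hA i) f hf').2 (hPP hf)
  set H₀ := P' ∪ lkF U' κ' (side P' A' r') with hH₀
  have hHU : H₀ ⊆ U := by
    rintro f (hf | hf)
    · exact hUU (app'.sub hf)
    · exact hUU (lkF_U hf)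
  have hHE : ∀ f ∈ H₀, f ∉ E := by
    rintro f (hf | hf)
    · exact hPE f hf
    · exact (hz f hf).1
  have hHw : ∀ f ∈ H₀, f ∉ lkF U κ (side P A w) := by
    rintro f (hf | hf)
    · exact hPlk w f hf
    · exact (hz f hf).2.1
  have hHs : ∀ f ∈ H₀, f ∉ lkF U κ (side P A (i₁ + 1)) := by
    rintro f (hf | hf)
    · exact hPlk _ f hf
    · exact (hz f hf).2.2
  have hqH : inF U τ q ∈ H₀ := by
    have h1 : inF U' τ' v' ∈ H₀ := mem_add (bd_side hA' r').1 lr
    unfold inF at *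
    rwa [hq]
  rcases hX with X | ⟨hAE, hc⟩
  · refine S.claim_left X hw hwr hr hE hrb hkv hv lw hHU (econn_later cP' hA') (Or.inl hb) hHE hHw
      ?_ hbv hkq hqm hqH
    rintro l h1 h2 (hf | hf)
    · exact hvis l h1 h2 (app'.sub hf)
    · exact hvis l h1 h2 (lkF_U hf)
  · exact S.void_left hAE hc hw hwr hr hE hrb hry hkv hv lw hHU (econn_later cP' hA') (Or.inl hb) hHE
      hHw hHs hqm hqH

/-- **Claim A, right.** -/
theorem claimA_right (hX : Strd ω e n U τ σ σ' E ∨
      (ahead A ∈ E ∧ ∀ f ∈ sqF (s + 2) (ahead A), c f = c (ahead A)))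
    {w r v : ℕ} (hw : w < j₁ - 1) (hwr : r < w) (hE : inF P A w ∈ E)
    (hrb : κ (outF P A r) ≠ κ (outF P A (j₁ - 1))) (hry : κ (outF P A r) ≠ κ (outF P A (j₂ + 1)))
    (hv : v < kt) (lw : LinkK U κ (side P A w) (side U τ v))
    (hyv : ∀ l, σ ≤ l → l < σ' → fa (pth ω e l) ∉ lkF U κ (side P A (j₂ + 1)))
    (app' : App U' P' κ' d') (cP' : Top.EConn P') (hA' : BD P' A') (hUU : U' ⊆ U)
    (hvis : ∀ l, σ ≤ l → l < σ' → fa (pth ω e l) ∉ U') (hPP : P' ⊆ P) (hPE : ∀ f ∈ P', f ∉ E)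
    (hy : inF P A (j₂ + 1) ∈ P') {r' v' q : ℕ}
    (hz : ∀ f ∈ lkF U' κ' (side P' A' r'), f ∉ E ∧ f ∉ lkF U κ (side P A w) ∧
      f ∉ lkF U κ (side P A (i₂ - 1)))
    (lr : LinkK U' κ' (side P' A' r') (side U' τ' v')) (hq : side U τ q = side U' τ' v') :
    v < q := by
  have hA := S.lab.cyc.bd
  have hPlk : ∀ i, ∀ f ∈ P', f ∉ lkF U κ (side P A i) := fun i f hf hf' =>
    (lkF_sub S.app (bd_side hA i) f hf').2 (hPP hf)
  set H₀ := P' ∪ lkF U' κ' (side P' A' r') with hH₀
  have hHU : H₀ ⊆ U := by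
    rintro f (hf | hf)
    · exact hUU (app'.sub hf)
    · exact hUU (lkF_U hf)
  have hHE : ∀ f ∈ H₀, f ∉ E := by
    rintro f (hf | hf)
    · exact hPE f hf
    · exact (hz f hf).1
  have hHw : ∀ f ∈ H₀, f ∉ lkF U κ (side P A w) := by
    rintro f (hf | hf)
    · exact hPlk w f hf
    · exact (hz f hf).2.1
  have hHs : ∀ f ∈ H₀, f ∉ lkF U κ (side P A (i₂ - 1)) := by
    rintro f (hf | hf)
    · exact hPlk _ f hf
    · exact (hz f hf).2.2
  have hqH : inF U τ q ∈ H₀ := by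
    have h1 : inF U' τ' v' ∈ H₀ := mem_add (bd_side hA' r').1 lr
    unfold inF at *
    rwa [hq]
  rcases hX with X | ⟨hAE, hc⟩
  · refine S.claim_right X hw hwr hE hry hv lw hHU (econn_later cP' hA') (Or.inl hy) hHE hHw
      ?_ hyv hqH
    rintro l h1 h2 (hf | hf)
    · exact hvis l h1 h2 (app'.sub hf)
    · exact hvis l h1 h2 (lkF_U hf)
  · exact S.void_right hAE hc hw hwr hE hrb hry hv lw hHU (econn_later cP' hA') (Or.inl hy) hHE
      hHw hHs hqH

end Stg

end Pool.Agent.SixB.CntM
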