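import Pool.Agent.Lib.SixB.S8Grow
import Pool.Agent.Lib.SixB.S8Rare
import Pool.Agent.Lib.SixB.S8Scales

/-!
# Step 8, number of moves: the quantifiers of the row `RowCnt`

`rowCnt_of_core`: from the deterministic bound of the number of the stages of a needle (`core`), the tight
event `TE` and the rare transition events `Y`.
-/

set_option autoImplicit false

namespace Pool.Agent.SixB.CntQ

open Filter Finset Topology Pool.Agent.Perc Pool.Agent.PercT Pool.Agent.PercX60 Pool.Agent.PercD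
open Pool.Agent.SixB Pool.Agent.SixB.Rule Pool.Agent.SixB.Dct Pool.Agent.SixB.Mv Pool.Agent.SixB.Tru

/-- The scale of the resolution `e` is small. -/
theorem exists_ls_le {c₀ : ℤ} {κ : ℝ} (hκ : 0 < κ) : ∃ ℓ : ℕ, ∀ (d : ℕ → ℕ) (n e : ℕ), ℓ ≤ e → e ≤ d 0 →
    ((c₀ * Sc.ls d n e : ℤ) : ℝ) ≤ κ * n := by
  obtain ⟨ℓ, hℓ⟩ := pow_unbounded_of_one_lt ((|c₀| : ℤ) / κ : ℝ) (one_lt_two)
  refine ⟨ℓ, fun d n e he h0 => ?_⟩
  have h1 : ((Sc.ls d n e * 2 ^ e : ℤ) : ℝ) ≤ n := by exact_mod_cast Sc.ls_le n h0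
  have h2 : (0 : ℝ) ≤ (Sc.ls d n e : ℤ) := by exact_mod_cast Sc.ls_nonneg d n e
  have h3 : (2 : ℝ) ^ ℓ ≤ 2 ^ e := pow_le_pow_right₀ one_le_two he
  rw [div_lt_iff₀ hκ] at hℓ
  push_cast at h1 hℓ ⊢
  have h4 : (c₀ : ℝ) ≤ |(c₀ : ℝ)| := le_abs_self _
  have h5 : (c₀ : ℝ) * Sc.ls d n e ≤ |(c₀ : ℝ)| * Sc.ls d n e := mul_le_mul_of_nonneg_right h4 h2
  have h6 : |(c₀ : ℝ)| * Sc.ls d n e ≤ 2 ^ ℓ * κ * Sc.ls d n e :=
    mul_le_mul_of_nonneg_right hℓ.le h2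
  have h7 : (2 : ℝ) ^ ℓ * κ * Sc.ls d n e ≤ 2 ^ e * κ * Sc.ls d n e :=
    mul_le_mul_of_nonneg_right (mul_le_mul_of_nonneg_right h3 hκ.le) h2
  have h8 : (2 : ℝ) ^ e * κ * Sc.ls d n e = κ * (Sc.ls d n e * 2 ^ e) := by ring
  rw [h8] at h7
  exact h5.trans (h6.trans (h7.trans (mul_le_mul_of_nonneg_left h1 hκ.le)))

/-- **The row `RowCnt` from the deterministic bound.** `TE n Ru C T` is the tight event, `Y` are the rare
transition events, `Cn d n N` are conditions which hold for large `n`. -/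
theorem rowCnt_of_core {𝔇 : Dat} {Bd Y : EvF} {G₀ : ℕ → ℕ → ℕ} {Cn : (ℕ → ℕ) → ℕ → ℕ → Prop}
    {TE : ℕ → Rul → ℤ → ℕ → Set Cfg} {c₀ : ℤ} (hc : 0 ≤ c₀) (F : ℕ → ℕ)
    (hY : SmY G₀ Bd Y)
    (hC : ∃ ℓ₁ : ℕ, ∀ (N : ℕ) (d : ℕ → ℕ), ℓ₁ ≤ d N → GroF G₀ N d → ∀ᶠ n in atTop, Cn d n N)
    (hT : ∀ η : ℝ, 0 < η → ∃ κ : ℝ, 0 < κ ∧ ∃ T : ℕ, ∀ᶠ n : ℕ in atTop, ∀ (h : ℕ) (Ru : Rul) (C : ℤ),
      RulOK n h Ru → 0 ≤ C → (C : ℝ) ≤ κ * n → pr (Sn n) (TE n Ru C T) ≤ η)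
    (core : ∀ (d : ℕ → ℕ) (n N T : ℕ) (ω : Cfg), Cn d n N → (∀ i < N, ω ∉ Bd d n i) →
      (∀ l < N, ω ∉ Y d n l) → ω ∉ TE n (TruR.ruleT 𝔇 d n) (c₀ * Sc.ls d n (d N)) T →
      ∀ j < 𝔇.m, #{i ∈ range (N + 1) | nfin 𝔇 d n ω i = j} ≤ F T) :
    ∃ G : ℕ → ℕ → ℕ, (∀ l e, G₀ l e ≤ G l e) ∧ RowCnt 𝔇 G Bd := by
  classical
  choose LY hLY using hY
  obtain ⟨ℓ₁, hℓ₁⟩ := hC
  set G : ℕ → ℕ → ℕ := fun l e => max (max (G₀ l e) e) (LY l e (epsR e) (epsR_pos e)) with hGd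
  have g0 : ∀ l e, G₀ l e ≤ G l e := fun l e => (le_max_left _ _).trans (le_max_left _ _)
  have g1 : ∀ l e, e ≤ G l e := fun l e => (le_max_right _ _).trans (le_max_left _ _)
  have g2 : ∀ l e, LY l e (epsR e) (epsR_pos e) ≤ G l e := fun l e => le_max_right _ _
  refine ⟨G, g0, fun ε hε => ?_⟩
  obtain ⟨κ, hκ, T, hTT⟩ := hT (ε / 2) (by positivity)
  obtain ⟨ℓ₂, hℓ₂⟩ := exists_ls_le (c₀ := c₀) hκ
  refine ⟨F T, fun N => ?_⟩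
  obtain ⟨ℓ₀, hℓ₀⟩ := exc_small (chD 𝔇 G Bd) Sn (fun d n l _ => Y d n l)
    (fun l e η => if h : 0 < η then LY l e η h else 0)
    (by
      intro l e η hη d hd hL hG N' _ _
      have hL' : LY l e η hη ≤ d l := by
        simp only [hη, dif_pos] at hL
        exact hL
      exact hLY l e η hη d hd hL' (GroF.mono hG g0))
    g1 (by
      intro l e
      simp only [epsR_pos, dif_pos]
      exact g2 l e) N (ε := ε / 2) (by positivity)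
  refine ⟨max ℓ₀ (max ℓ₁ ℓ₂), fun d hd hG => ?_⟩
  have hG0 : GroF G₀ N d := GroF.mono hG g0
  have hdN : d N ≤ d 0 := ChnD.Gro.le (c := chD 𝔇 G Bd) g1 hG (Nat.zero_le N)
  filter_upwards [hℓ₀ d ((le_max_left _ _).trans hd) hG,
    hℓ₁ N d (((le_max_left _ _).trans (le_max_right _ _)).trans hd) hG0, hTT] with n h1 h2 h3
  set E₁ : Set Cfg := {ω | ∃ l < N, ω ∈ Y d n l ∧ ∀ i ≤ l, ω ∉ Bd d n i} with hE₁
  set E₂ : Set Cfg := TE n (TruR.ruleT 𝔇 d n) (c₀ * Sc.ls d n (d N)) T with hE₂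
  have h1' : pr (Sn n) E₁ ≤ ε / 2 := h1
  have h4 : pr (Sn n) E₂ ≤ ε / 2 := by
    refine h3 (n / 𝔇.K) (TruR.ruleT 𝔇 d n) _ (TruR.ruleT_ok 𝔇 d n)
      (mul_nonneg hc (Sc.ls_nonneg d n _)) ?_
    exact hℓ₂ d n (d N) (((le_max_right _ _).trans (le_max_right _ _)).trans hd) hdN
  refine ⟨fun _ ω => if ω ∈ E₁ ∪ E₂ then F T + (N + 1) else F T, fun j _ => ?_, fun ω hω j hj => ?_⟩
  · refine (pr_mono (Sn n) ?_).trans ((pr_union_le (Sn n) E₁ E₂).trans (by linarith))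
    intro ω hω
    by_contra hno
    have h5 : ¬ (F T < F T) := lt_irrefl _
    apply h5
    have h6 : F T < (if ω ∈ E₁ ∪ E₂ then F T + (N + 1) else F T) := hω
    rwa [if_neg hno] at h6
  · by_cases hE : ω ∈ E₁ ∪ E₂
    · show _ ≤ (if ω ∈ E₁ ∪ E₂ then F T + (N + 1) else F T)
      rw [if_pos hE]
      refine (card_filter_le _ _).trans ?_
      rw [card_range]
      omega
    · show _ ≤ (if ω ∈ E₁ ∪ E₂ then F T + (N + 1) else F T)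
      rw [if_neg hE]
      rw [Set.mem_union, not_or] at hE
      refine core d n N T ω h2 hω (fun l hl hY => hE.1 ⟨l, hl, hY, fun i hi => hω i (by omega)⟩) hE.2 j hj

end Pool.Agent.SixB.CntQ
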