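import Pool.Agent.Lib.SixB.S8CountStk
import Pool.Agent.Lib.SixB.S8Caps

/-!
# Step 8, number of moves: the walls of an exploration are anchors

* `bas_of_wll`: the hypothesis `Bas` of `S8CountU` from `Ex.Wll`.
* `tg_of_wll`: the hypothesis `Tg` of `S8CountStk`.
-/

set_option autoImplicit false

namespace Pool.Agent.SixB.Cnt

open Finset Pool.Agent.Perc Pool.Agent.Perc6 Pool.Agent.Perc6.C2Aux Pool.Agent.Perc.Tips
open Pool.Agent.SixB.Top Pool.Agent.SixB.Mv Pool.Agent.SixB.NearCut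

variable {E : Ex} {ω : Cfg} {n T : ℕ} {B : UE × Bool}

private theorem exists_mate (ω : Cfg) {f : ℤ × ℤ} {a : UE} (h : IsSide f a) : ∃ b, Mt ω f a b :=
  ⟨_, mt_pn h⟩

/-- The walls of an exploration are anchors. -/
theorem bas_of_wll (hW : E.Wll ω) (hb : fb (E.e ω) ∉ E.U ω) (hn : Nb (E.cf ω) (E.e ω) n) :
    Bas (E.cf ω) (E.e ω) (E.U ω) n where
  back := hb
  nb := hn
  wall := by
    rintro a ⟨-, g, hg, hgs⟩ -
    obtain ⟨b, hm⟩ := exists_mate (E.cf ω) hgs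
    have key : ∀ c : ℤ, (c = 0 ∨ c = 1) → NearCut.Cl (E.cf ω) c g → ∃ c p, (c = 0 ∨ c = 1) ∧
        (p = ua a ∨ p = ub a) ∧ Conn (E.cf ω) (E.U ω)ᶜ p (en c (E.e ω)) := by
      intro c hc hcl
      rcases mt_cl hc hm with ⟨-, -, h1⟩ | ⟨h1, -⟩
      · exact ⟨c, en c a, hc, en_or c a, conn_symm (hW c hc g hg _ _ h1 (par_en hc a))⟩
      · exact absurd h1 (cl_not hc hcl)
    rcases cl_or (ω := E.cf ω) (f := g) (Or.inl rfl : (0 : ℤ) = 0 ∨ (0 : ℤ) = 1) with h1 | h1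
    · exact key 0 (Or.inl rfl) h1
    · exact key (1 - 0) (Or.inr rfl) h1

/-- The data `Tg` of an exploration with the target side `B`. -/
theorem tg_of_wll (hW : E.Wll ω) (hb : fb (E.e ω) ∉ E.U ω) (hn : Nb (E.cf ω) (E.e ω) n)
    (hf : (E.U ω).Finite) (he : Esc (E.U ω)) (hc : Top.EConn (E.U ω)) (hfr : fa (E.e ω) ∈ E.U ω)
    (hB : BD (E.U ω) B) (hx : fa B.1 ∉ E.U ω) (hv : ahead B ∉ E.v ω 0 T)
    (hh : ∃ t ≤ n, fa (E.p ω t) = ahead B) :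
    Tg (E.cf ω) (E.e ω) (E.U ω) n B T :=
  ⟨bas_of_wll hW hb hn, hf, he, hc, hfr, hB, hx, hv, hh⟩

end Pool.Agent.SixB.Cnt
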