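import Pool.Agent.Lib.SixB.S8CountN
import Pool.Agent.Lib.SixB.S8CountT
import Pool.Agent.Lib.SixB.S8InvF
import Pool.Agent.Lib.SixB.S8InvX

/-!
# Step 8, number of moves: LEMMA M for coarse domains

* `cell_side`: the faces near a side are in one cell; `Dom.Val.satP`: the entered set is saturated in `P`;
* `Mc`: the data of a move which is not the end of the step, regular or void, for one configuration;
  `Mc.stg`: the data `CntM.Stg`; `Mc.strd`: the data `CntM.Strd`; `Mc.hbv`: the links of the sides near the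
  target are not visited;
* `Dom.Val.cl_nxP`, `Dsc`: later domains of the same needle, the faces near the target stay;
* `Mc.claimA_left`, `Mc.claimA_right`: Claim A for two stages of one needle.
-/

set_option autoImplicit false

namespace Pool.Agent.SixB.Mv

open Finset Pool.Agent.Perc Pool.Agent.Perc6 Pool.Agent.PercT Pool.Agent.Perc6.C2Aux
open Pool.Agent.Perc.Tips Pool.Agent.SixB Pool.Agent.SixB.Top Pool.Agent.SixB.Blow
open Pool.Agent.SixB.CloK Pool.Agent.SixB.NearCut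

/-! ### Cells -/

/-- The faces near a side which is far from the lines of the grid are in one cell. -/
theorem cell_side {u : ℕ} (hu : 0 < u) {a b L l R : ℤ} (hL : 0 < L) {X : UE × Bool}
    (off : OffL a b L l (lf X)) (hR : R + 2 ≤ u * l) :
    ∀ f ∈ sqF R (ahead (subE u X 0)), gc (u * a) (u * b) (u * L) f =
      gc (u * a) (u * b) (u * L) (ahead (subE u X 0)) := by
  intro f hf
  have h0 : OffL (u * a) (u * b) (u * L) (u * l) (lf (subE u X 0)) := by
    have := off.mag (m := (u : ℤ)) (by exact_mod_cast hu)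
    rwa [lf_subE_zero]
  have h2 : IsCor (ahead (subE u X 0)) (lf (subE u X 0)) := isCor_in_lf _
  unfold IsCor at h2
  unfold sqF at hf
  rw [Set.mem_ofPred_eq, abs_le, abs_le] at hf
  exact h0.gc_eq (mul_pos (by exact_mod_cast hu) hL) (by omega) (by omega) (by omega) (by omega)
    (by omega) (by omega) (by omega) (by omega)

section Val

variable {s : Dom} {g : Grd} {u : ℕ} {ρ : Rec}

/-- The entered set is saturated in `P`. -/
theorem Dom.Val.satP (h : s.Val g) (hu : 0 < u) (hρ : s.RecOk g ρ) :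
    ∀ f ∈ blow u (s.ent g ρ), ∀ k ∈ blow u s.P, AdjF f k →
      gc (u * g.a) (u * g.b) (u * g.L) f = gc (u * g.a) (u * g.b) (u * g.L) k →
      k ∈ blow u (s.ent g ρ) := fun f hf k hk ha hc =>
  sat_f' hu (h.sat_ent hρ) f hf k
    (dcell_f hu h.dcell f (blow_subset (h.ent_sub_dom hρ) hf) k hk ha hc) ha hc

/-- The removed set is saturated in `P`. -/
theorem Dom.Val.sat_rem (h : s.Val g) (hρ : s.RecOk g ρ) {f k : ℤ × ℤ} (hf : f ∈ s.rem g ρ)
    (hk : k ∈ s.P) (ha : AdjF f k) (hc : g.nm f = g.nm k) : k ∈ s.rem g ρ := by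
  have hfd : f ∈ s.dom g := h.rem_sub_dom hρ hf
  have hkd : k ∈ s.dom g := h.dcell f hfd k hk ha hc.symm
  by_cases hv : s.Void g
  · rw [Dom.rem_void s g hv] at hf ⊢
    exact h.sat_ent hρ f hf k hkd ha hc
  · rw [Dom.rem_reg s g hv] at hf ⊢
    rcases hf with hf | hf
    · left
      have hk1 : k ∈ s.inr g := inn_adj h.sat (h.tipm hv) hf.1 hkd ha hc
      refine ⟨hk1, fun hh => hf.2 ⟨hf.1, ?_⟩⟩
      rw [hc]
      exact hh.2
    · exact Or.inr (h.sat_ent hρ f hf k hkd ha hc)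

/-- The new set is closed in `P` inside the cells. -/
theorem Dom.Val.cl_nxP (h : s.Val g) (hρ : s.RecOk g ρ) (hE : ¬ s.End g ρ) :
    ∀ f ∈ s.nxP g ρ, ∀ k ∈ s.P, AdjF f k → g.nm k = g.nm f → k ∈ s.nxP g ρ := by
  intro f hf k hk ha hc
  have h1 := h.nxP_sub hE hf
  exact compT_step hf ha ⟨hk, fun hh => h1.2 (h.sat_rem hρ hh h1.1 ha.symm hc)⟩

/-- The entered set and the new set are disjoint. -/
theorem Dom.Val.nxP_ent (h : s.Val g) (hE : ¬ s.End g ρ) {f : ℤ × ℤ} (hf : f ∈ s.nxP g ρ) :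
    f ∉ s.ent g ρ := fun hh => (h.nxP_sub hE hf).2 (Dom.ent_sub_rem s g ρ hh)

/-- **The faces near the target stay in the new set.** -/
theorem Dom.Val.near_nx (h : s.Val g) (hu : 0 < u) (hρ : s.RecOk g ρ) (hE : ¬ s.End g ρ) {R : ℤ}
    (hc : ∀ f ∈ sqF R (ahead (subE u s.B 0)), gc (u * g.a) (u * g.b) (u * g.L) f =
      gc (u * g.a) (u * g.b) (u * g.L) (ahead (subE u s.B 0))) {f : ℤ × ℤ}
    (hf : ChI (blow u s.P ∩ sqF R (ahead (subE u s.B 0))) (ahead (subE u s.B 0)) f) :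
    ChI (blow u (s.nxP g ρ) ∩ sqF R (ahead (subE u s.B 0))) (ahead (subE u s.B 0)) f := by
  have hz : ahead (subE u s.B 0) ∈ blow u (s.nxP g ρ) := by
    rw [mem_blow, cl_ahead_zero hu]
    exact self_mem_compT
  have key : ∀ f, ChI (blow u s.P ∩ sqF R (ahead (subE u s.B 0))) (ahead (subE u s.B 0)) f →
      f ∈ blow u (s.nxP g ρ) ∧ gc (u * g.a) (u * g.b) (u * g.L) f =
        gc (u * g.a) (u * g.b) (u * g.L) (ahead (subE u s.B 0)) ∧
      ChI (blow u (s.nxP g ρ) ∩ sqF R (ahead (subE u s.B 0))) (ahead (subE u s.B 0)) f := by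
    intro f hf
    induction hf with
    | refl => exact ⟨hz, rfl, ChI.refl _⟩
    | @tail b y hb hs ih =>
      obtain ⟨h1, h2, h3⟩ := ih
      have hy := hc y hs.2.2
      have hy' : y ∈ blow u (s.nxP g ρ) :=
        dcell_f hu (h.cl_nxP hρ hE) b h1 y hs.2.1 hs.1 (h2.trans hy.symm)
      exact ⟨hy', hy, h3.tail ⟨hs.1, hy', hs.2.2⟩⟩
  exact (key f hf).2.2

end Val

/-! ### Later domains of one needle -/

/-- `s'` is reached from `s` by moves; the faces of the square of radius `R` around the target are in one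
cell of every grid. -/
inductive Dsc (u : ℕ) (R : ℤ) (s : Dom) : Dom → Prop
  | refl : Dsc u R s s
  | step {s' : Dom} {g : Grd} {ρ : Rec} : Dsc u R s s' → s'.Val g → s'.RecOk g ρ →
      ¬ s'.End g ρ → (∀ f ∈ sqF R (ahead (subE u s'.B 0)), gc (u * g.a) (u * g.b) (u * g.L) f =
        gc (u * g.a) (u * g.b) (u * g.L) (ahead (subE u s'.B 0))) → Dsc u R s (s'.nx g ρ)

namespace Dsc

variable {u : ℕ} {R : ℤ} {s s' : Dom}

theorem B_eq (h : Dsc u R s s') : s'.B = s.B := by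
  induction h with
  | refl => rfl
  | step _ _ _ _ _ ih => exact ih

theorem sub (h : Dsc u R s s') : s'.P ⊆ s.P := by
  induction h with
  | refl => exact subset_rfl
  | step _ hv _ hE _ ih => exact fun f hf => ih (hv.nxP_sub hE hf).1

theorem mono {R' : ℤ} (h : Dsc u R s s') (hR : R' ≤ R) : Dsc u R' s s' := by
  induction h with
  | refl => exact .refl
  | step _ hv hρ hE hc ih => exact .step ih hv hρ hE fun f hf => hc f (CntM.sqF_mono hR hf)

theorem trans {s'' : Dom} (h : Dsc u R s s') (h' : Dsc u R s' s'') : Dsc u R s s'' := by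
  induction h' with
  | refl => exact h
  | step _ hv hρ hE hc ih => exact .step ih hv hρ hE hc

theorem mem (h : Dsc u R s s') (hB : ahead s.B ∈ s.P) : ahead s.B ∈ s'.P := by
  induction h with
  | refl => exact hB
  | @step s₂ g ρ h₂ _ _ _ _ _ =>
    rw [← h₂.B_eq]
    exact self_mem_compT

/-- The faces near the target stay. -/
theorem near (h : Dsc u R s s') (hu : 0 < u) {f : ℤ × ℤ}
    (hf : ChI (blow u s.P ∩ sqF R (ahead (subE u s.B 0))) (ahead (subE u s.B 0)) f) :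
    ChI (blow u s'.P ∩ sqF R (ahead (subE u s.B 0))) (ahead (subE u s.B 0)) f := by
  induction h with
  | refl => exact hf
  | @step s₂ g ρ h₂ hv hρ hE hc ih =>
    have e := h₂.B_eq
    rw [← e] at ih ⊢
    exact hv.near_nx hu hρ hE hc ih

end Dsc

/-! ### One move -/

/-- The data of a move which is not the end of the step, for one configuration. `σ`: the duration, `0` if
the move is void. -/
structure Mc (s : Dom) (g : Grd) (u : ℕ) (ζ : Cfg) (U : Set (ℤ × ℤ)) (κ : ℤ × ℤ → ℤ × ℤ)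
    (r : ℤ) (τ : UE × Bool) (mU x i₁ j₁ t j₂ i₂ : ℕ) (lA lB : ℤ) (σ : ℕ) (ρ : Rec) : Prop where
  val : s.Val g
  hu : 0 < u
  rok : s.RecOk g ρ
  nE : ¬ s.End g ρ
  tst : TSt ζ Set.univ U τ mU x
  app : App U (blow u s.P) κ r
  lab : LabP U (blow u s.P) κ (subE u s.A 0) τ (subE u s.B 0) r r (u * cyl s.P s.A) mU x
    i₁ j₁ t j₂ i₂
  sep : κ (outF (blow u s.P) (subE u s.A 0) (j₁ - 1)) ≠
    κ (outF (blow u s.P) (subE u s.A 0) (j₂ + 1))
  tgt : TgG U (sqF r (ahead (subE u s.B 0))) (ahead (subE u s.B 0)) (inF U τ x)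
  offA : OffL g.a g.b g.L lA s.tip
  offB : OffL g.a g.b g.L lB (lf s.B)
  far : 3 * r + 6 < u * lA
  farB : 3 * r + 6 ≤ u * lB
  mov : (s.Void g ∧ σ = 0) ∨ (¬ s.Void g ∧ s.regS g u U κ τ.1 ζ σ ∧
    s.kst g ρ = s.kmx g (Blow.cl u '' (vs ζ τ.1 0 σ : Set (ℤ × ℤ))) ∧
    fa (pth ζ τ.1 σ) ∈ blow u (s.ent g ρ))

namespace Mc

variable {s : Dom} {g : Grd} {u : ℕ} {ζ : Cfg} {U : Set (ℤ × ℤ)} {κ : ℤ × ℤ → ℤ × ℤ}
  {r : ℤ} {τ : UE × Bool} {mU x i₁ j₁ t j₂ i₂ : ℕ} {lA lB : ℤ} {σ : ℕ} {ρ : Rec}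
  (h : Mc s g u ζ U κ r τ mU x i₁ j₁ t j₂ i₂ lA lB σ ρ)

include h

/-- The data of a regular move. -/
theorem rg (hv : ¬ s.Void g) : Rg s g u ζ U κ r τ mU x lA lB σ ρ := by
  rcases h.mov with h0 | ⟨-, h1, h2, h3⟩
  · exact absurd h0.1 hv
  · exact
      { val := h.val, nv := hv, hu := h.hu, tst := h.tst, app := h.app
        lab := ⟨_, _, _, _, _, _, h.lab⟩, tgt := h.tgt, offA := h.offA, offB := h.offB
        far := h.far, farB := h.farB, stop := h1, rok := h.rok, kst := h2, ent := h3 }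

/-- **The data of LEMMA M.** -/
theorem stg : CntM.Stg U (blow u s.P) κ r (subE u s.A 0) τ (subE u s.B 0)
    (gc (u * g.a) (u * g.b) (u * g.L)) r r (u * cyl s.P s.A) mU x i₁ j₁ t j₂ i₂
    (blow u (s.ent g ρ)) where
  app := h.app
  fU := h.tst.fin
  cU := h.tst.ec
  eU := h.tst.esc
  cP := econn_blow (by exact_mod_cast h.hu) h.val.con
  cyU := h.tst.cyc
  lab := h.lab
  sep := h.sep
  sat := h.val.satP h.hu h.rok
  EP := blow_subset (h.val.ent_sub_P h.rok)
  cE := econn_blow (by exact_mod_cast h.hu) (h.val.econn_ent h.rok)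
  BE := fun hh => h.nE (by
    rw [mem_blow, cl_ahead_zero h.hu] at hh
    exact hh)
  celB := cell_side h.hu h.val.hL h.offB (by have := h.farB; omega)

/-- **The links of the sides near the target are not visited.** -/
theorem hbv {i : ℕ} (h1 : j₁ ≤ i + 1) (h2 : i ≤ j₂ + 1) {l : ℕ} (hl : l < σ) :
    fa (pth ζ τ.1 l) ∉ CntM.lkF U κ (side (blow u s.P) (subE u s.A 0) i) := by
  intro hf
  have hv : ¬ s.Void g := by
    rcases h.mov with h0 | h0
    · omega
    · exact h0.1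
  have R := h.rg hv
  have h3 := R.hc h.nE h.lab h1 h2 hf.1 _ hf.2
  have h0 : inF U τ x ∈ U \ (vs ζ τ.1 0 σ : Set (ℤ × ℤ)) := ⟨h.tgt.1, R.tgt_step.1⟩
  have h4 := compT_sub h0 h3
  exact h4.2 (Finset.mem_coe.2 (mem_vs.2 ⟨l, Nat.zero_le _, hl, rfl⟩))

/-- The faces near the coarse tip side are in one cell. -/
theorem celA : ∀ f ∈ sqF (r + 2) (ahead (subE u s.A 0)), gc (u * g.a) (u * g.b) (u * g.L) f =
    gc (u * g.a) (u * g.b) (u * g.L) (ahead (subE u s.A 0)) :=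
  cell_side h.hu h.val.hL h.offA (by have := h.far; have := h.app.d_pos; omega)

/-- **The strand of the move.** -/
theorem strd {e : UE} {U₀ : Set (ℤ × ℤ)} {N T : ℕ} (hb : Cnt.Bas ζ e U₀ N)
    (hR : Cnt.Rm ζ e U₀ T U) (hτ : τ.1 = pth ζ e T) (hN : T + σ ≤ N) :
    CntM.Strd ζ e N U τ T (T + σ) (blow u (s.ent g ρ)) ∨
      (ahead (subE u s.A 0) ∈ blow u (s.ent g ρ) ∧
        ∀ f ∈ sqF (r + 2) (ahead (subE u s.A 0)), gc (u * g.a) (u * g.b) (u * g.L) f =
          gc (u * g.a) (u * g.b) (u * g.L) (ahead (subE u s.A 0))) := by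
  rcases h.mov with ⟨hv, -⟩ | ⟨hv, -, -, h3⟩
  · right
    refine ⟨?_, h.celA⟩
    rw [mem_blow, cl_ahead_zero h.hu, ← Dom.stp_void (ρ := ρ) hv]
    exact Dom.stp_mem_ent s g ρ
  · left
    refine
      { anc := by rw [hτ]; exact hb.anc hR
        nb := hb.nb
        st := Nat.le_add_right _ _
        tn := hN
        tip := hτ
        fac := by
          rw [← hτ, h.tst.fwd]
          exact h.tst.cyc.bd.1
        ent := ?_ }
    rw [← pth_add, ← hτ]
    exact h3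

end Mc

/-! ### Two stages -/

/-- Rooms of the unvisited faces decrease. -/
theorem rm_sub {ζ : Cfg} {e : UE} {U₀ U U' : Set (ℤ × ℤ)} {T T' : ℕ} (hR : Cnt.Rm ζ e U₀ T U)
    (hR' : Cnt.Rm ζ e U₀ T' U') (hT : T ≤ T') {f : ℤ × ℤ} (hf : f ∈ U) (hf' : f ∈ U') :
    U' ⊆ U := by
  intro y hy
  have hc : ChI U' f y := hR'.conn f hf' y hy
  clear hy
  induction hc with
  | refl => exact hf
  | @tail b y _ hs ih =>
    by_contra hn
    exact hR'.fresh y hs.2 (vs_mono le_rfl hT (hR.clo b ih y hs.1 (hR'.sub hs.2) hn))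

/-- The visited faces are not in a later room. -/
theorem rm_vis {ζ : Cfg} {e : UE} {U₀ U' : Set (ℤ × ℤ)} {T' : ℕ} (hR' : Cnt.Rm ζ e U₀ T' U')
    {l : ℕ} (hl : l < T') : fa (pth ζ e l) ∉ U' := fun hh =>
  hR'.fresh _ hh (fa_mem_vs (Nat.zero_le _) hl)

/-- A face of a link of a side which is far away. -/
theorem lk_far {ι : Type*} {U P : Set (ℤ × ℤ)} {κ : ℤ × ℤ → ι} {d R R' : ℤ} (app : App U P κ d)
    {B : UE × Bool} {z f : ℤ × ℤ} (hB : ahead B ∉ sqF (R + d) z) (hR : R' ≤ R)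
    (hf : f ∈ CntM.lkF U κ B) : f ∉ sqF R' z := by
  intro h
  have h1 := CntM.lkF_near app hf
  apply hB
  unfold sqF at *
  rw [Set.mem_ofPred_eq, abs_le, abs_le] at *
  omega

namespace Mc

variable {s : Dom} {g : Grd} {u : ℕ} {ζ : Cfg} {U : Set (ℤ × ℤ)} {κ : ℤ × ℤ → ℤ × ℤ}
  {r : ℤ} {τ : UE × Bool} {mU x i₁ j₁ t j₂ i₂ : ℕ} {lA lB : ℤ} {σ : ℕ} {ρ : Rec}
  (h : Mc s g u ζ U κ r τ mU x i₁ j₁ t j₂ i₂ lA lB σ ρ)

include h

/-- The faces of the sides near the target are in the later domains. -/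
theorem near_later {s' : Dom} (D : Dsc u (r + 1) (s.nx g ρ) s') {i : ℕ} (h1 : j₁ ≤ i + 1)
    (h2 : i ≤ j₂ + 1) : inF (blow u s.P) (subE u s.A 0) i ∈ blow u s'.P := by
  have hf := CntM.near_chain h.lab h1 h2
  have hc := h.val.near_nx h.hu h.rok h.nE
    (cell_side h.hu h.val.hL h.offB (by have := h.farB; have := h.app.d_pos; omega)) hf
  have h3 : ChI (blow u s'.P ∩ sqF (r + 1) (ahead (subE u s.B 0))) (ahead (subE u s.B 0))
      (inF (blow u s.P) (subE u s.A 0) i) := D.near h.hu hc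
  have h4 : ahead (subE u s.B 0) ∈ blow u s'.P ∩ sqF (r + 1) (ahead (subE u s.B 0)) := by
    constructor
    · rw [mem_blow, cl_ahead_zero h.hu]
      exact D.mem self_mem_compT
    · have := h.app.d_pos
      unfold sqF
      rw [Set.mem_ofPred_eq]
      simp only [sub_self, abs_zero]
      omega
  exact (ChI.mem h4 h3).1

/-- The later domains are contained in `P` and do not meet the entered set. -/
theorem later_sub {s' : Dom} {R : ℤ} (D : Dsc u R (s.nx g ρ) s') :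
    blow u s'.P ⊆ blow u s.P ∧ ∀ f ∈ blow u s'.P, f ∉ blow u (s.ent g ρ) :=
  ⟨blow_subset fun _ hf => (h.val.nxP_sub h.nE (D.sub hf)).1,
    fun _ hf hE => h.val.nxP_ent h.nE (D.sub hf) hE⟩

/-- The faces of a link which is far from the tip. -/
theorem far_link {ι : Type*} {U' : Set (ℤ × ℤ)} {κ' : ℤ × ℤ → ι} {P' : Set (ℤ × ℤ)} {d' R : ℤ}
    (app' : App U' P' κ' d') (hER : blow u (s.ent g ρ) ⊆ sqF R (ahead (subE u s.A 0)))
    (hR : r + 1 ≤ R) {B : UE × Bool} (hfar : ahead B ∉ sqF (R + r + d') (ahead (subE u s.A 0)))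
    {w : ℕ} (hE : inF (blow u s.P) (subE u s.A 0) w ∈ blow u (s.ent g ρ)) :
    ∀ f ∈ CntM.lkF U' κ' B, f ∉ blow u (s.ent g ρ) ∧
      f ∉ CntM.lkF U κ (side (blow u s.P) (subE u s.A 0) w) ∧
      f ∉ CntM.lkF U κ (side (blow u s.P) (subE u s.A 0) (i₁ + 1)) ∧
      f ∉ CntM.lkF U κ (side (blow u s.P) (subE u s.A 0) (i₂ - 1)) := by
  intro f hf
  have hd := h.app.d_pos
  have hA := h.lab.cyc.bd
  have h0 : f ∉ sqF (R + r) (ahead (subE u s.A 0)) := lk_far app' hfar le_rfl hf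
  have key : ∀ k, inF (blow u s.P) (subE u s.A 0) k ∈ sqF R (ahead (subE u s.A 0)) →
      f ∉ CntM.lkF U κ (side (blow u s.P) (subE u s.A 0) k) := by
    intro k hk hfk
    apply h0
    have h1 : f ∈ sqF r (inF (blow u s.P) (subE u s.A 0) k) := CntM.lkF_near h.app hfk
    unfold sqF at *
    rw [Set.mem_ofPred_eq, abs_le, abs_le] at *
    omega
  refine ⟨fun hh => h0 (CntM.sqF_mono (by omega) (hER hh)), key w (hER hE), key _ ?_, key _ ?_⟩
  · exact CntM.sqF_mono hR (CntM.inF_succ_near hA (h.lab.nrA i₁ (Or.inl le_rfl)))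
  · have h1 := h.lab.ji
    have h2 := h.lab.nrA i₂ (Or.inr ⟨le_rfl, h.lab.im⟩)
    rw [show i₂ = i₂ - 1 + 1 by omega] at h2
    exact CntM.sqF_mono hR (CntM.inF_pred_near hA h2)

/-- **Claim A, left**, for two stages of one needle. -/
theorem claimA_left {ι : Type*} {e : UE} {U₀ U' : Set (ℤ × ℤ)} {N T T' : ℕ}
    (hb : Cnt.Bas ζ e U₀ N) (hR : Cnt.Rm ζ e U₀ T U) (hτ : τ.1 = pth ζ e T)
    (hR' : Cnt.Rm ζ e U₀ T' U') (hT : T + σ ≤ T') (hN : T + σ ≤ N) {s' : Dom} (hs' : s'.Ok)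
    (D : Dsc u (r + 1) (s.nx g ρ) s') {κ' : ℤ × ℤ → ι} {d' R : ℤ} {τ' : UE × Bool}
    (app' : App U' (blow u s'.P) κ' d') {w k v : ℕ} (hw : j₂ + 1 < w) (hwk : w < k)
    (hk : k < u * cyl s.P s.A)
    (hE : inF (blow u s.P) (subE u s.A 0) w ∈ blow u (s.ent g ρ))
    (hkb : κ (outF (blow u s.P) (subE u s.A 0) k) ≠
      κ (outF (blow u s.P) (subE u s.A 0) (j₁ - 1)))
    (hky : κ (outF (blow u s.P) (subE u s.A 0) k) ≠
      κ (outF (blow u s.P) (subE u s.A 0) (j₂ + 1)))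
    (hxv : x ≤ v) (hv : v < mU) (lw : LinkK U κ (side (blow u s.P) (subE u s.A 0) w) (side U τ v))
    (hER : blow u (s.ent g ρ) ⊆ sqF R (ahead (subE u s.A 0))) (hR1 : r + 1 ≤ R) {k' v' q : ℕ}
    (hfar : inF (blow u s'.P) (subE u s'.A 0) k' ∉ sqF (R + r + d') (ahead (subE u s.A 0)))
    (lr : LinkK U' κ' (side (blow u s'.P) (subE u s'.A 0) k') (side U' τ' v'))
    (hq : side U τ q = side U' τ' v') (hxq : x ≤ q) (hqm : q < mU) : q < v := by
  have hu' : (0 : ℤ) < u := by exact_mod_cast h.hu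
  have hz := h.far_link app' hER hR1 hfar hE
  obtain ⟨hPP, hPE⟩ := h.later_sub D
  have hb0 := h.near_later D (i := j₁ - 1) (by omega)
    (by have := h.lab.ij; have := h.lab.jt; have := h.lab.tj; omega)
  have hUU : U' ⊆ U := rm_sub hR hR' (by omega) (h.app.sub (hPP hb0)) (app'.sub hb0)
  exact h.stg.claimA_left (h.strd hb hR hτ hN) hw hwk hk hE hkb hky hxv hv lw
    (fun l h1 h2 => by
      have := h.hbv (i := j₁ - 1) (by omega)
        (by have := h.lab.ij; have := h.lab.jt; have := h.lab.tj; omega) (l := l - T) (by omega)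
      rwa [hτ, pth_add, show T + (l - T) = l by omega] at this)
    app' (econn_blow hu' hs'.con) (bd_subE hu' hs'.bdA le_rfl hu') hUU
    (fun l _ h2 => rm_vis hR' (by omega)) hPP hPE hb0
    (fun f hf => ⟨(hz f hf).1, (hz f hf).2.1, (hz f hf).2.2.1⟩) lr hq hxq hqm

/-- **Claim A, right**, for two stages of one needle. -/
theorem claimA_right {ι : Type*} {e : UE} {U₀ U' : Set (ℤ × ℤ)} {N T T' : ℕ}
    (hb : Cnt.Bas ζ e U₀ N) (hR : Cnt.Rm ζ e U₀ T U) (hτ : τ.1 = pth ζ e T)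
    (hR' : Cnt.Rm ζ e U₀ T' U') (hT : T + σ ≤ T') (hN : T + σ ≤ N) {s' : Dom} (hs' : s'.Ok)
    (D : Dsc u (r + 1) (s.nx g ρ) s') {κ' : ℤ × ℤ → ι} {d' R : ℤ} {τ' : UE × Bool}
    (app' : App U' (blow u s'.P) κ' d') {w k v : ℕ} (hw : w < j₁ - 1) (hwk : k < w)
    (hE : inF (blow u s.P) (subE u s.A 0) w ∈ blow u (s.ent g ρ))
    (hkb : κ (outF (blow u s.P) (subE u s.A 0) k) ≠
      κ (outF (blow u s.P) (subE u s.A 0) (j₁ - 1)))
    (hky : κ (outF (blow u s.P) (subE u s.A 0) k) ≠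
      κ (outF (blow u s.P) (subE u s.A 0) (j₂ + 1)))
    (hv : v < x) (lw : LinkK U κ (side (blow u s.P) (subE u s.A 0) w) (side U τ v))
    (hER : blow u (s.ent g ρ) ⊆ sqF R (ahead (subE u s.A 0))) (hR1 : r + 1 ≤ R) {k' v' q : ℕ}
    (hfar : inF (blow u s'.P) (subE u s'.A 0) k' ∉ sqF (R + r + d') (ahead (subE u s.A 0)))
    (lr : LinkK U' κ' (side (blow u s'.P) (subE u s'.A 0) k') (side U' τ' v'))
    (hq : side U τ q = side U' τ' v') : v < q := by
  have hu' : (0 : ℤ) < u := by exact_mod_cast h.hu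
  have hz := h.far_link app' hER hR1 hfar hE
  obtain ⟨hPP, hPE⟩ := h.later_sub D
  have hy0 := h.near_later D (i := j₂ + 1)
    (by have := h.lab.ij; have := h.lab.jt; have := h.lab.tj; omega) le_rfl
  have hUU : U' ⊆ U := rm_sub hR hR' (by omega) (h.app.sub (hPP hy0)) (app'.sub hy0)
  exact h.stg.claimA_right (h.strd hb hR hτ hN) hw hwk hE hkb hky hv lw
    (fun l h1 h2 => by
      have := h.hbv (i := j₂ + 1)
        (by have := h.lab.ij; have := h.lab.jt; have := h.lab.tj; omega) le_rfl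
        (l := l - T) (by omega)
      rwa [hτ, pth_add, show T + (l - T) = l by omega] at this)
    app' (econn_blow hu' hs'.con) (bd_subE hu' hs'.bdA le_rfl hu') hUU
    (fun l _ h2 => rm_vis hR' (by omega)) hPP hPE hy0
    (fun f hf => ⟨(hz f hf).1, (hz f hf).2.1, (hz f hf).2.2.2⟩) lr hq

end Mc

end Pool.Agent.SixB.Mv
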