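import Pool.Agent.Lib.SixB.S8CountT

/-!
# Step 8, number of moves: the data `Tg` for a component of the fresh faces

`G` is a component of the fresh faces `E.U` (connected, without holes, the outer faces of its sides are
not fresh); the strand enters `G` for the first time at the time `t₀`. The exploration of `G` from the
unit edge `E.p ω t₀` satisfies `Tg` (times shifted by `t₀`).

* `tg_of_comp`: `Tg`;
* `uT_comp`: the component of the target side at the time `t` is the component of the faces of `E.U`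
  which are not visited up to the time `t₀ + t`.
-/

set_option autoImplicit false

namespace Pool.Agent.SixB.Cnt

open Finset Pool.Agent.Perc Pool.Agent.Perc6 Pool.Agent.Perc6.C2Aux Pool.Agent.Perc.Tips
open Pool.Agent.SixB.Top Pool.Agent.SixB.Mv Pool.Agent.SixB.NearCut

variable {E : Ex} {ω : Cfg} {n T t₀ t : ℕ} {B : UE × Bool} {G : Set (ℤ × ℤ)}

private theorem exists_mate' (ω : Cfg) {f : ℤ × ℤ} {a : UE} (h : IsSide f a) : ∃ b, Mt ω f a b :=
  ⟨_, mt_pn h⟩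

theorem nb_shift {ω : Cfg} {e : UE} (h : Nb ω e n) (ht : t₀ ≤ n) : Nb ω (pth ω e t₀) (n - t₀) := by
  intro l hl hln he
  rw [pth_add] at he
  have h1 := pth_inj he.symm (Nat.le_add_right t₀ l)
  rw [Nat.add_sub_cancel_left] at h1
  exact h l hl (by omega) h1

/-- The walls of an exploration are anchors for every component. -/
theorem bas_of_comp (hW : E.Wll ω) (hn : Nb (E.cf ω) (E.e ω) n) (hG : G ⊆ E.U ω)
    (ho : ∀ a, BdU G a → ∃ g, g ∉ E.U ω ∧ IsSide g a) (ht : t₀ ≤ n)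
    (hb : fb (E.p ω t₀) ∉ G) (hpre : ∀ l < t₀, fa (E.p ω l) ∉ G) :
    Bas (E.cf ω) (E.p ω t₀) G (n - t₀) where
  back := hb
  nb := nb_shift hn ht
  wall := by
    rintro a ha -
    obtain ⟨g, hg, hgs⟩ := ho a ha
    obtain ⟨b, hm⟩ := exists_mate' (E.cf ω) hgs
    have hst : ∀ c : ℤ, (c = 0 ∨ c = 1) → Conn (E.cf ω) Gᶜ (en c (E.e ω)) (en c (E.p ω t₀)) := by
      intro c hc
      refine Conn.mono ?_ (conn_pth_vs (ω := E.cf ω) (e := E.e ω) hc (Nat.zero_le t₀))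
      intro f hf
      obtain ⟨i, -, hi, rfl⟩ := mem_vs.1 (Finset.mem_coe.1 hf)
      exact hpre i hi
    have key : ∀ c : ℤ, (c = 0 ∨ c = 1) → NearCut.Cl (E.cf ω) c g → ∃ c p, (c = 0 ∨ c = 1) ∧
        (p = ua a ∨ p = ub a) ∧ Conn (E.cf ω) Gᶜ p (en c (E.p ω t₀)) := by
      intro c hc hcl
      rcases mt_cl hc hm with ⟨-, -, h1⟩ | ⟨h1, -⟩
      · refine ⟨c, en c a, hc, en_or c a, ?_⟩
        have h2 : Conn (E.cf ω) Gᶜ (en c a) (en c (E.e ω)) :=
          Conn.mono (Set.compl_subset_compl.2 hG) (conn_symm (hW c hc g hg _ _ h1 (par_en hc a)))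
        exact Relation.ReflTransGen.trans h2 (hst c hc)
      · exact absurd h1 (cl_not hc hcl)
    rcases cl_or (ω := E.cf ω) (f := g) (Or.inl rfl : (0 : ℤ) = 0 ∨ (0 : ℤ) = 1) with h1 | h1
    · exact key 0 (Or.inl rfl) h1
    · exact key (1 - 0) (Or.inr rfl) h1

/-- **The data `Tg` for a component** `G` of the fresh faces which is entered at the time `t₀`. -/
theorem tg_of_comp (hW : E.Wll ω) (hn : Nb (E.cf ω) (E.e ω) n) (hG : G ⊆ E.U ω)
    (ho : ∀ a, BdU G a → ∃ g, g ∉ E.U ω ∧ IsSide g a) (hf : G.Finite) (he : Esc G)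
    (hc : Top.EConn G) (ht : t₀ ≤ n) (hb : fb (E.p ω t₀) ∉ G)
    (hpre : ∀ l < t₀, fa (E.p ω l) ∉ G) (hfr : fa (E.p ω t₀) ∈ G) (hB : BD G B) (hx : fa B.1 ∉ G)
    (hv : ∀ l, t₀ ≤ l → l < t₀ + T → fa (E.p ω l) ≠ ahead B)
    (hh : ∃ t ≤ n, fa (E.p ω t) = ahead B) :
    Tg (E.cf ω) (E.p ω t₀) G (n - t₀) B T where
  bas := bas_of_comp hW hn hG ho ht hb hpre
  fin := hf
  esc := he
  conn := hc
  front := hfr
  bd := hB
  exit := hx
  fresh := by
    intro h
    obtain ⟨i, -, hi, h1⟩ := mem_vs.1 h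
    have h2 : pth (E.cf ω) (E.p ω t₀) i = E.p ω (t₀ + i) := pth_add _ _ _ _
    rw [h2] at h1
    exact hv (t₀ + i) (by omega) (by omega) h1.symm
  hit := by
    obtain ⟨t, h1, h2⟩ := hh
    have h3 : t₀ ≤ t := by
      by_contra h4
      exact hpre t (by omega) (h2 ▸ hB.1)
    refine ⟨t - t₀, by omega, ?_⟩
    have h4 : pth (E.cf ω) (E.p ω t₀) (t - t₀) = E.p ω (t₀ + (t - t₀)) := pth_add _ _ _ _
    rw [h4, Nat.add_sub_cancel' h3]
    exact h2

/-- The sides of a component. -/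
theorem bdU_comp {F : Set (ℤ × ℤ)} {f₀ : ℤ × ℤ} {a : UE} (ha : BdU (compT F f₀) a) :
    ∃ g, g ∉ F ∧ IsSide g a := by
  obtain ⟨⟨f, hf, hfa⟩, g, hg, hga⟩ := ha
  refine ⟨g, fun h => hg (compT_step hf ⟨?_, a, hfa, hga⟩ h), hga⟩
  rintro rfl
  exact hg hf

/-- **The component of the target side**, in the names of the exploration. -/
theorem uT_comp (hf : ahead B ∈ E.U ω) (hpre : ∀ l < t₀, fa (E.p ω l) ∉ compT (E.U ω) (ahead B))
    (hv : ∀ l < t₀ + t, fa (E.p ω l) ≠ ahead B) :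
    uT (E.cf ω) (E.p ω t₀) (compT (E.U ω) (ahead B)) B t =
      compT (E.U ω \ (vs (E.cf ω) (E.e ω) 0 (t₀ + t) : Set (ℤ × ℤ))) (ahead B) := by
  have hsh : ∀ i, pth (E.cf ω) (E.p ω t₀) i = E.p ω (t₀ + i) := fun i => pth_add _ _ _ _
  have hmem : ahead B ∈ E.U ω \ (vs (E.cf ω) (E.e ω) 0 (t₀ + t) : Set (ℤ × ℤ)) := by
    refine ⟨hf, fun h => ?_⟩
    obtain ⟨i, -, hi, h1⟩ := mem_vs.1 (Finset.mem_coe.1 h)
    exact hv i hi h1.symm
  unfold uT
  refine Set.Subset.antisymm (compT_mono ?_) ?_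
  · rintro f ⟨h1, h2⟩
    refine ⟨compT_sub hf h1, fun h3 => ?_⟩
    obtain ⟨i, -, hi, rfl⟩ := mem_vs.1 (Finset.mem_coe.1 h3)
    rcases Nat.lt_or_ge i t₀ with h4 | h4
    · exact hpre i h4 h1
    · refine h2 (Finset.mem_coe.2 (mem_vs.2 ⟨i - t₀, Nat.zero_le _, by omega, ?_⟩))
      rw [hsh, Nat.add_sub_cancel' h4]
      rfl
  · intro f h1
    have h2 : ∀ x, ChI (E.U ω \ (vs (E.cf ω) (E.e ω) 0 (t₀ + t) : Set (ℤ × ℤ))) (ahead B) x →
        x ∈ compT (E.U ω) (ahead B) := fun x hx => ChI.mono Set.sdiff_subset hx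
    have h3 : ∀ x, ChI (E.U ω \ (vs (E.cf ω) (E.e ω) 0 (t₀ + t) : Set (ℤ × ℤ))) (ahead B) x →
        ChI (compT (E.U ω) (ahead B) \ (vs (E.cf ω) (E.p ω t₀) 0 t : Set (ℤ × ℤ))) (ahead B) x := by
      intro x hx
      induction hx with
      | refl => exact ChI.refl _
      | @tail b c hb hs ih =>
        refine Relation.ReflTransGen.tail ih ⟨hs.1, h2 c (Relation.ReflTransGen.tail hb hs), ?_⟩
        intro h4
        obtain ⟨i, -, hi, rfl⟩ := mem_vs.1 (Finset.mem_coe.1 h4)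
        refine hs.2.2 (Finset.mem_coe.2 (mem_vs.2 ⟨t₀ + i, Nat.zero_le _, by omega, ?_⟩))
        rw [hsh]
        rfl
    exact h3 f h1

/-! ### The numbers from the tip and from the target -/

/-- **Conversion of the numbers**: `τ₀` is the tip side at the time `t`, `kt` the number of the target
side from the tip, `mU` the number of the sides. -/
theorem Tg.idx {ω : Cfg} {e : UE} {U₀ : Set (ℤ × ℤ)} (h : Tg ω e U₀ n B T) (ht : t ≤ T)
    {τ₀ : UE × Bool} {mU kt : ℕ} (hf : fa (pth ω e t) ∈ uT ω e U₀ B t)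
    (hτ : BD (uT ω e U₀ B t) τ₀) (hτ1 : τ₀.1 = pth ω e t) (hm : Per (uT ω e U₀ B t) mU τ₀)
    (hk : kt < mU) (hB : side (uT ω e U₀ B t) τ₀ kt = B) :
    th ω e U₀ B t = t ∧ pL ω e U₀ B t = mU ∧ jT ω e U₀ B t = mU - kt ∧
      (∀ i, side (uT ω e U₀ B t) B i = side (uT ω e U₀ B t) τ₀ (kt + i)) ∧
      ∀ i ≤ kt, side (uT ω e U₀ B t) B (pL ω e U₀ B t - i) = side (uT ω e U₀ B t) τ₀ (kt - i) := by
  have hth : th ω e U₀ B t = t := by
    refine le_antisymm (Nat.sInf_le ⟨le_rfl, hf⟩) (h.th_spec ht).1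
  have hsh : ∀ i, side (uT ω e U₀ B t) B i = side (uT ω e U₀ B t) τ₀ (kt + i) := by
    intro i
    rw [side_add, hB]
  have hmB : Per (uT ω e U₀ B t) mU B := by
    have h1 := hm.shift hτ kt
    have h2 : (sc (uT ω e U₀ B t))^[kt] τ₀ = B := hB
    rwa [h2] at h1
  have hpL : pL ω e U₀ B t = mU := by
    have h1 := h.perT ht
    rcases lt_trichotomy (pL ω e U₀ B t) mU with h2 | h2 | h2
    · exact absurd (hmB.inj _ h2 0 hmB.pos h1.per) h1.pos.ne'
    · exact h2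
    · exact absurd (h1.inj _ h2 0 h1.pos hmB.per) hmB.pos.ne'
  have hper : side (uT ω e U₀ B t) τ₀ mU = τ₀ := hm.per
  obtain ⟨j1, j2, j3⟩ := h.jT_spec ht
  refine ⟨hth, hpL, ?_, hsh, fun i hi => ?_⟩
  · have h1 : (side (uT ω e U₀ B t) B (mU - kt)).1 = pth ω e t := by
      rw [hsh, Nat.add_sub_cancel' hk.le, hper, hτ1]
    rw [hth] at j3
    rcases Nat.eq_zero_or_pos kt with h0 | h0
    · exfalso
      subst h0
      have h2 : τ₀ = B := hB
      rw [Nat.sub_zero] at h1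
      have h3 : B.1 = pth ω e t := by rw [← h2, hτ1]
      have h4 := side_inj (h.bdT ht) (h.perT ht) (i := jT ω e U₀ B t) (j := 0) j2 (by omega)
        (by rw [j3, ← h3]; rfl)
      omega
    · exact side_inj (h.bdT ht) hmB (by omega) (by omega) (j3.trans h1.symm)
  · rw [hsh, hpL]
    have h1 : kt + (mU - i) = mU + (kt - i) := by omega
    rw [h1, side_add, hper]

/-- The outer face of a side is visited at its birth. -/
theorem Tg.birth_fa {ω : Cfg} {e : UE} {U₀ : Set (ℤ × ℤ)} (h : Tg ω e U₀ n B T) (ht : t ≤ T)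
    {i u : ℕ} (hu : bS ω e U₀ (side (uT ω e U₀ B t) B i) = u + 1) :
    fa (pth ω e u) = outF (uT ω e U₀ B t) B i := by
  by_cases hU : outF (uT ω e U₀ B t) B i ∈ U₀
  · rcases (h.rm ht).outer (bd_side (h.bdT ht) i) with h1 | h1
    · exact absurd hU h1
    · obtain ⟨-, -, h2⟩ := brt_spec hU h1
      have h3 : brt ω e U₀ (outF (uT ω e U₀ B t) B i) = u + 1 := hu
      rw [h3, fb_pth_succ] at h2
      exact h2
  · have h3 : brt ω e U₀ (outF (uT ω e U₀ B t) B i) = u + 1 := hu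
    rw [brt_out hU] at h3
    omega

end Pool.Agent.SixB.Cnt
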