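import Pool.Agent.Lib.SixB.S8State
import Pool.Agent.Lib.SixB.S8Close

/-!
# Step 8, unit 8H: the geometry inside one move

For a valid coarse domain (`Dom.Val`): the domain of the move is a disc, its exit sides form an arc
with first index `p` and last index `q`, the barrier is attached and saturated, and if the move is not
void the stop sides are the interval `n₁ ≤ i < n₂` of the contour of the part in front of the barrier.
-/

set_option autoImplicit false

namespace Pool.Agent.SixB.Mv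

open Finset Pool.Agent.Perc Pool.Agent.Perc6 Pool.Agent.Perc6.C2Aux Pool.Agent.Perc.Tips
open Pool.Agent.SixB.Top

variable {D : Set (ℤ × ℤ)} {A : UE × Bool} {m : ℕ}

/-- The number of sides of the contour. -/
theorem Cyc.cyl (h : Cyc D A m) : cyl D A = m := by
  have hper : Function.IsPeriodicPt (sc D) m A := h.per
  have hpos : 0 < Function.minimalPeriod (sc D) A := hper.minimalPeriod_pos h.pos
  have hle : Function.minimalPeriod (sc D) A ≤ m := hper.minimalPeriod_le h.pos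
  rcases Nat.lt_or_ge (Function.minimalPeriod (sc D) A) m with hlt | hge
  · exfalso
    have h1 : side D A (Function.minimalPeriod (sc D) A) = side D A 0 :=
      Function.isPeriodicPt_minimalPeriod (sc D) A
    have := h.inj _ hlt 0 h.pos h1
    omega
  · exact le_antisymm hle hge

namespace Dom

variable {s : Dom} {g : Grd}

/-- A valid coarse domain with a grid. -/
structure Val (s : Dom) (g : Grd) : Prop extends Dom.Ok s where
  hL : 0 < g.L
  hM : 0 < g.M
  off : OffL g.a g.b g.L 1 s.tip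

namespace Val

variable (h : Val s g)

include h

theorem nm_eq {f : ℤ × ℤ} (hf : IsCor f s.tip) : g.nm f = g.nm s.tip := by
  obtain ⟨h1, h2⟩ := hf
  exact h.off.gc_eq_self h.hL (by omega) (by omega) (by omega) (by omega)

/-- The two faces of the tip side are in the cell of the tip. -/
theorem nm_ahead : g.nm (ahead s.A) = g.nm s.tip := h.nm_eq (isCor_in_lf s.A)

theorem nm_out : g.nm (ahead (rv s.A)) = g.nm s.tip := h.nm_eq (isCor_out_lf s.A)

theorem mem_blk : ahead s.A ∈ s.blk g :=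
  blk_sat (h.nm_ahead).symm (self_mem_blk h.hM.le)

theorem mem : ahead s.A ∈ s.P ∩ s.blk g := ⟨h.bdA.1, h.mem_blk⟩

theorem dom_sub : s.dom g ⊆ s.P ∩ s.blk g := domD_sub h.mem

theorem finD : (s.dom g).Finite := finite_domD h.fin h.mem

theorem conD : Top.EConn (s.dom g) := econn_domD h.mem

theorem escD : Esc (s.dom g) := esc_domD h.fin h.esc (esc_blk h.hL) h.mem

theorem bdD : BD (s.dom g) s.A := bd_domD h.bdA h.mem_blk

theorem cyc : Cyc (s.dom g) s.A (cyl (s.dom g) s.A) := by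
  obtain ⟨m, hm⟩ := exists_cyc h.finD h.conD h.escD h.bdD
  rw [hm.cyl]
  exact hm

theorem cycP : Cyc s.P s.A (cyl s.P s.A) := by
  obtain ⟨m, hm⟩ := exists_cyc h.fin h.con h.esc h.bdA
  rw [hm.cyl]
  exact hm

/-- The first and the last exit side. -/
theorem arcs : ArcsE (s.dom g) s.A (IsEx s.P s.B) (cyl (s.dom g) s.A) (s.p g) (s.q g) ∧
    0 < s.p g := by
  obtain ⟨m, p, q, hE, hp⟩ := exists_arcs_domD h.fin h.con h.esc (esc_blk (M := g.M) (v := s.tip)
    (a := g.a) (b := g.b) h.hL) h.bdA h.mem_blk h.bdB h.ne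
  have hm : cyl (s.dom g) s.A = m := hE.cyc.cyl
  have hex : ∀ i, i ∈ s.ex g ↔ i < m ∧ IsEx s.P s.B (side (s.dom g) s.A i) := by
    intro i
    unfold ex
    rw [Set.mem_ofPred_eq, hm]
  have hmp : p ∈ s.ex g := (hex p).2 ⟨lt_of_le_of_lt hE.le hE.lt, hE.memp⟩
  have hmq : q ∈ s.ex g := (hex q).2 ⟨hE.lt, hE.memq⟩
  have hlb : ∀ i ∈ s.ex g, p ≤ i := fun i hi => by
    by_contra hcon
    exact hE.first i (by omega) ((hex i).1 hi).2
  have hub : ∀ i ∈ s.ex g, i ≤ q := fun i hi => by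
    by_contra hcon
    exact hE.last i (by omega) ((hex i).1 hi).1 ((hex i).1 hi).2
  have e1 : s.p g = p := le_antisymm (Nat.sInf_le hmp) (hlb _ (Nat.sInf_mem ⟨p, hmp⟩))
  have e2 : s.q g = q := by
    refine le_antisymm (csSup_le ⟨p, hmp⟩ hub) (le_csSup ⟨q, hub⟩ hmq)
  rw [e1, e2, hm]
  exact ⟨hE, hp⟩

theorem arcsE : ArcsE (s.dom g) s.A (IsEx s.P s.B) (cyl (s.dom g) s.A) (s.p g) (s.q g) :=
  h.arcs.1

theorem p_pos : 0 < s.p g := h.arcs.2

theorem p_le : s.p g ≤ s.q g := h.arcsE.le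

theorem q_lt : s.q g < cyl (s.dom g) s.A := h.arcsE.lt

theorem att : Att (s.dom g) s.A (s.p g) (s.q g) (s.bar g) := att_barV h.bdD

theorem sat : Sat (s.dom g) (gc g.a g.b g.L) (s.bar g) := sat_barV

theorem bar_sub : s.bar g ⊆ s.dom g := h.att.sub

/-- An exit side has its inner face in the barrier. -/
theorem ex_bar {C : UE × Bool} (hC : BD (s.dom g) C) (hE : IsEx s.P s.B C) :
    ahead C ∈ s.bar g := by
  obtain ⟨c, hc, hcs⟩ := h.cyc.exists_index hC
  have h1 : s.p g ≤ c := by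
    by_contra hcon
    exact h.arcsE.first c (by omega) (hcs ▸ hE)
  have h2 : c ≤ s.q g := by
    by_contra hcon
    exact h.arcsE.last c (by omega) hc (hcs ▸ hE)
  refine h.att.on ⟨c, h1, h2, ?_⟩
  unfold inF
  rw [hcs]

/-- A face of the domain next to a face of `P` outside the block is in the barrier. -/
theorem out_bar {f k : ℤ × ℤ} (hf : f ∈ s.dom g) (hk : k ∈ s.P) (hkb : k ∉ s.blk g)
    (ha : AdjF f k) : f ∈ s.bar g := by
  obtain ⟨C, h1, h2⟩ : ∃ C : UE × Bool, ahead C = f ∧ ahead (rv C) = k := by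
    obtain ⟨hne, e, he1, he2⟩ := ha
    have h1 : IsSide (ahead (e, true)) e := isSide_ahead e true
    have h2 : IsSide (ahead (e, false)) e := isSide_ahead e false
    have h3 : ahead (e, true) ≠ ahead (e, false) := ahead_ne (e, true)
    rcases side_two hne he1 he2 h1 with h4 | h4
    · refine ⟨(e, true), h4, ?_⟩
      rcases side_two hne he1 he2 h2 with h | h
      · exact absurd (h4.trans h.symm) h3
      · exact h
    · refine ⟨(e, false), ?_, h4⟩
      rcases side_two hne he1 he2 h2 with h | h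
      · exact h
      · exact absurd (h4.trans h.symm) h3
  have hkD : k ∉ s.dom g := fun h' => hkb (h.dom_sub h').2
  rw [← h1]
  exact h.ex_bar ⟨h1 ▸ hf, h2 ▸ hkD⟩ (Or.inl (h2 ▸ hk))

/-- The face at the target side is in the barrier if it is in the domain. -/
theorem tgt_bar (hB : ahead s.B ∈ s.dom g) : ahead s.B ∈ s.bar g :=
  h.ex_bar ⟨hB, fun h' => h.bdB.2 (h.dom_sub h').1⟩ (Or.inr rfl)

/-! ### The part in front of the barrier -/

variable (hv : ¬ s.Void g)

include hv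

omit h in
theorem tip_nbar : ahead s.A ∉ s.bar g := hv

theorem tipm : ahead s.A ∈ s.dom g \ s.bar g := ⟨h.bdD.1, hv⟩

theorem inr_sub : s.inr g ⊆ s.dom g \ s.bar g := inn_sub (h.tipm hv)

theorem tgt_inr : ahead s.B ∉ s.inr g := fun h' =>
  (h.inr_sub hv h').2 (h.tgt_bar (h.inr_sub hv h').1)

/-- **The stop sides form an interval of the contour.** -/
theorem runS : RunS g.a g.b g.L (s.dom g) s.A (s.p g) (s.q g) (s.bar g) (cyl (s.dom g) s.A)
    (cyl (s.inr g) s.A) (s.n₁ g) (s.n₂ g) := by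
  obtain ⟨n, N₁, N₂, hr⟩ := exists_runS h.hL h.finD h.escD h.cyc h.att h.sat h.p_le h.q_lt hv
  have hn : cyl (s.inr g) s.A = n := hr.con.cyc.cyl
  have hst : ∀ i, i ∈ s.stI g ↔ N₁ ≤ i ∧ i < N₂ := by
    intro i
    unfold stI
    rw [Set.mem_ofPred_eq, hn]
    constructor
    · rintro ⟨h1, h2⟩
      exact hr.mem_arc h1 (h.bar_sub h2)
    · rintro ⟨h1, h2⟩
      exact ⟨lt_of_lt_of_le h2 hr.con.le, hr.con.mid i h1 h2⟩
  have hlt := hr.con.lt
  have hm1 : N₁ ∈ s.stI g := (hst _).2 ⟨le_rfl, hlt⟩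
  have hm2 : N₂ - 1 ∈ s.stI g := (hst _).2 ⟨by omega, by omega⟩
  have hub : ∀ i ∈ s.stI g, i ≤ N₂ - 1 := fun i hi => by
    have := (hst i).1 hi
    omega
  have e1 : s.n₁ g = N₁ := le_antisymm (Nat.sInf_le hm1) ((hst _).1 (Nat.sInf_mem ⟨_, hm1⟩)).1
  have e2 : s.n₂ g = N₂ := by
    have : sSup (s.stI g) = N₂ - 1 :=
      le_antisymm (csSup_le ⟨_, hm1⟩ hub) (le_csSup ⟨_, hub⟩ hm2)
    unfold n₂
    rw [this]
    omega
  rw [e1, e2, hn]
  exact hr

theorem mem_stI {i : ℕ} : i ∈ s.stI g ↔ s.n₁ g ≤ i ∧ i < s.n₂ g := by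
  have hr := h.runS hv
  unfold stI
  rw [Set.mem_ofPred_eq]
  constructor
  · rintro ⟨h1, h2⟩
    exact hr.mem_arc h1 (h.bar_sub h2)
  · rintro ⟨h1, h2⟩
    exact ⟨lt_of_lt_of_le h2 hr.con.le, hr.con.mid i h1 h2⟩

theorem n_lt : s.n₁ g < s.n₂ g := (h.runS hv).con.lt

theorem n₁_pos : 0 < s.n₁ g := (h.runS hv).con.pos

theorem n₂_le : s.n₂ g ≤ cyl (s.inr g) s.A := (h.runS hv).con.le

theorem finI : (s.inr g).Finite := (h.runS hv).finG

theorem conI : Top.EConn (s.inr g) := (h.runS hv).connG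

theorem escI : Esc (s.inr g) := (h.runS hv).escG

theorem bdI : BD (s.inr g) s.A := (h.runS hv).bdG

theorem cycI : Cyc (s.inr g) s.A (cyl (s.inr g) s.A) := (h.runS hv).con.cyc

/-- The neighbours of the part in front of the barrier are in the barrier or outside `P`. -/
theorem inr_nbr {f k : ℤ × ℤ} (hf : f ∈ s.inr g) (ha : AdjF f k) :
    k ∈ s.inr g ∨ k ∈ s.bar g ∨ k ∉ s.P := by
  by_cases hkP : k ∈ s.P
  · by_cases hkb : k ∈ s.blk g
    · have hkD : k ∈ s.dom g := compT_step (h.inr_sub hv hf).1 ha ⟨hkP, hkb⟩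
      by_cases hkZ : k ∈ s.bar g
      · exact Or.inr (Or.inl hkZ)
      · exact Or.inl (sat_inn (h.tipm hv) hf ⟨hkD, hkZ⟩ ha)
    · exact absurd (h.out_bar (h.inr_sub hv hf).1 hkP hkb ha) (h.inr_sub hv hf).2
  · exact Or.inr (Or.inr hkP)

/-- The stop sides are away from the tip. -/
theorem far_tip {r : ℤ} (hr : OffL g.a g.b g.L r s.tip) {i : ℕ} (hi : i ∈ s.stI g) {w : ℤ × ℤ}
    (hw : w = vert (s.inr g) s.A i ∨ w = vert (s.inr g) s.A (i + 1)) :
    r ≤ |w.1 - s.tip.1| ∨ r ≤ |w.2 - s.tip.2| :=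
  far_stop h.hL hr h.bar_sub h.sat h.bdD hv ((h.runS hv).con.mid i ((h.mem_stI hv).1 hi).1
    ((h.mem_stI hv).1 hi).2) hw

/-- The stop sides are away from a vertex which is away from the lines. -/
theorem far_vert {r : ℤ} {v : ℤ × ℤ} (hr : OffL g.a g.b g.L r v) {i : ℕ} (hi : i ∈ s.stI g)
    {w : ℤ × ℤ} (hw : w = vert (s.inr g) s.A i ∨ w = vert (s.inr g) s.A (i + 1)) :
    r ≤ |w.1 - v.1| ∨ r ≤ |w.2 - v.2| :=
  far_stop h.hL hr h.bar_sub h.sat h.bdD hv ((h.runS hv).con.mid i ((h.mem_stI hv).1 hi).1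
    ((h.mem_stI hv).1 hi).2) hw

/-- The cell of the tip is not contained in the part in front of the barrier. -/
theorem tip_full : ¬ s.Full g (g.nm s.tip) := fun hF =>
  h.bdA.2 (h.dom_sub (h.inr_sub hv (hF _ h.nm_out)).1).1

/-- The number of the runs. -/
theorem rno_le {i : ℕ} (hi : i < cyl (s.inr g) s.A) :
    (s.rno g i : ℤ) ≤ ((2 * g.M + 1) + 1) * ((2 * g.M + 1) + 1) := by
  have hbox : ∀ f ∈ s.inr g,
      g.L * ((gc g.a g.b g.L s.tip).1 - g.M) - g.a ≤ f.1 ∧
      f.1 < g.L * ((gc g.a g.b g.L s.tip).1 + g.M + 1) - g.a ∧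
      g.L * ((gc g.a g.b g.L s.tip).2 - g.M) - g.b ≤ f.2 ∧
      f.2 < g.L * ((gc g.a g.b g.L s.tip).2 + g.M + 1) - g.b := by
    intro f hf
    have h1 := (h.dom_sub (h.inr_sub hv hf).1).2
    unfold blk at h1
    rw [blk_eq h.hL, Finset.mem_coe] at h1
    unfold RF at h1
    rw [Finset.mem_product, Finset.mem_Ico, Finset.mem_Ico] at h1
    exact ⟨h1.1.1, h1.1.2, h1.2.1, h1.2.2⟩
  have h1 := rn_le_box (a := g.a) (b := g.b) h.hL (h.finI hv) (h.conI hv) (h.escI hv) (h.cycI hv)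
    hbox (N := s.n₁ g) (i := i) hi
  have e : ∀ c t : ℤ, (g.L * (c + g.M + 1) - t - (g.L * (c - g.M) - t)) / g.L = 2 * g.M + 1 := by
    intro c t
    rw [show g.L * (c + g.M + 1) - t - (g.L * (c - g.M) - t) = g.L * (2 * g.M + 1) by ring]
    exact Int.mul_ediv_cancel_left _ h.hL.ne'
  rw [e, e] at h1
  exact h1

end Val

end Dom

end Pool.Agent.SixB.Mv
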