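import Pool.Agent.Lib.SixB.S8MoveI
import Pool.Agent.Lib.SixB.S8StateG

/-!
# Step 8: the coarse data of a move for a valid domain

* `Dom.Val.runK`: the setting of the runs;
* `Dom.Val.mvd`: the data `Mvd` of the magnified domain;
* `Dom.Val.side_tgt`: the target sides of the magnified domain are exit sides;
* `lf_tipU`: the magnified tip.
-/

set_option autoImplicit false

namespace Pool.Agent.SixB.Mv.Dom.Val

open Finset Pool.Agent.Perc Pool.Agent.Perc6 Pool.Agent.PercT Pool.Agent.Perc6.C2Aux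
open Pool.Agent.Perc.Tips Pool.Agent.SixB Pool.Agent.SixB.Top Pool.Agent.SixB.Blow
open Pool.Agent.SixB.CloK

variable {ι : Type*} {s : Dom} {g : Grd} {U : Set (ℤ × ℤ)} {κ : ℤ × ℤ → ι} {d : ℤ} {u : ℕ}
  (h : s.Val g)

include h

/-- The setting of the runs for a valid domain. -/
theorem runK (hv : ¬ s.Void g) : s.RunK g (cyl (s.dom g) s.A) (cyl (s.inr g) s.A) :=
  ⟨h.runS hv, h.p_le, h.q_lt, h.off⟩

/-- The data of a move for a valid domain. -/
theorem mvd (hu : 0 < u) (happ : App U (blow u s.P) κ d) (hU : U.Finite) (cU : Top.EConn U)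
    (eU : Esc U) :
    Mvd U (blow u s.P) (blow u (s.dom g)) κ d (subE u s.A 0) (u * cyl (s.dom g) s.A)
      (u * s.p g) (u * (s.q g + 1) - 1) :=
  Dom.mvdBlow hu happ hU cU eU h.fin h.con h.esc h.bdA h.bdB h.ne h.hL h.mem_blk

/-- The sides of the magnified domain which are parts of the target side are exit sides. -/
theorem side_tgt (hu : 0 < u) {r : ℕ} (hr : r < u) {i : ℕ} (hi : i < u * cyl (s.dom g) s.A)
    (he : side (blow u (s.dom g)) (subE u s.A 0) i = subE u s.B r) :
    u * s.p g ≤ i ∧ i ≤ u * (s.q g + 1) - 1 := by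
  rw [side_blow hu h.bdD] at he
  have hm := Nat.mod_lt i hu
  obtain ⟨e1, -⟩ := subE_inj (m := (u : ℤ)) (by omega) (by omega) (by exact_mod_cast hm)
    (by omega) (by exact_mod_cast hr) he
  refine (idx_iff hu).2 ⟨?_, ?_⟩
  · by_contra hcon
    exact h.arcsE.first (i / u) (by omega) (Or.inr e1)
  · by_contra hcon
    exact h.arcsE.last (i / u) (by omega) (Nat.div_lt_of_lt_mul hi) (Or.inr e1)

omit h in
/-- The magnified tip. -/
theorem lf_tipU : lf (subE u s.A 0) = (u * s.tip.1, u * s.tip.2) := lf_subE_zero _ _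

end Pool.Agent.SixB.Mv.Dom.Val
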