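import Pool.Agent.Lib.SixB.S8MoveD
import Pool.Agent.Lib.SixB.S8MoveJ
import Pool.Agent.Lib.SixB.S8MoveG

/-!
# Step 8, unit 8H: the estimate for one past, for a coarse domain

`MvB`: all data of one past for a coarse domain `s` with the grid `g`, magnified by `u`: the true data,
the inner approximation, the labels, the target, distances from the lines of the grid, gates.

* `MvB₀.mvB`: the gates, from the gates of the exploration;
* `MvB.mvS`: the data `MvS`;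
* `move_estB`: the law of the record (`move_est`);
* `not_stopR_estB`: the stop of the strand is regular off a rare event.
-/

set_option autoImplicit false

namespace Pool.Agent.SixB.Mv

open Finset Pool.Agent.Perc Pool.Agent.Perc6 Pool.Agent.PercT Pool.Agent.Perc6.C2Aux
open Pool.Agent.Perc.Tips Pool.Agent.SixB Pool.Agent.SixB.Top Pool.Agent.SixB.Blow
open Pool.Agent.SixB.CloK

namespace Dom.Val

variable {s : Dom} {g : Grd}

/-- The target side on the contour of the magnified domain is in the exit interval. -/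
theorem hex {u : ℕ} (h : s.Val g) (hu : 0 < u) {r : ℤ} (h0 : 0 ≤ r) (h1 : r < u) :
    ∀ i < u * cyl (s.dom g) s.A, side (blow u (s.dom g)) (subE u s.A 0) i = subE u s.B r →
      u * s.p g ≤ i ∧ i ≤ u * (s.q g + 1) - 1 := by
  intro i hi hs
  have e : side (blow u (s.dom g)) (subE u s.A 0) i =
      subE u (side (s.dom g) s.A (i / u)) ((i % u : ℕ) : ℤ) := iter_subE' hu h.bdD i
  rw [e] at hs
  obtain ⟨h2, -⟩ := subE_inj (by omega) (by omega)
    (by exact_mod_cast Nat.mod_lt i hu) h0 h1 hs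
  have hE : IsEx s.P s.B (side (s.dom g) s.A (i / u)) := Or.inr h2
  have hlt : i / u < cyl (s.dom g) s.A := Nat.div_lt_of_lt_mul hi
  have hq : s.q g < cyl (s.dom g) s.A := h.q_lt
  refine (idx_iff hu).2 ⟨?_, ?_⟩
  · by_contra hcon
    exact h.arcsE.first _ (by omega) hE
  · by_contra hcon
    exact h.arcsE.last _ (by omega) hlt hE

end Dom.Val

/-- **All data of one past but the gates**, for a coarse domain `s` with the grid `g`, magnified by `u`.
`lA`, `lB`: distances of the coarse tip and of the coarse target side from the lines of the grid (in units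
of the coarse lattice). -/
structure MvB₀ {ι : Type} (s : Dom) (g : Grd) (u : ℕ) (Ξ : Cfg → Cfg) (R U : Set (ℤ × ℤ))
    (κ : ℤ × ℤ → ι) (d : ℤ) (τ : UE × Bool) (mU kt x : ℕ) (r₀ s₀ lA lB E ρ : ℤ) : Prop where
  val : s.Val g
  nv : ¬ s.Void g
  hu : 0 < u
  tru : TrueD Ξ 0 R U τ mU kt x
  fin : U.Finite
  ec : Top.EConn U
  esc : Esc U
  app : App U (blow u s.P) κ d
  lab : ∃ mP i₁ j₁ t j₂ i₂, LabP U (blow u s.P) κ (subE u s.A 0) τ (subE u s.B 0) r₀ s₀ mP mU kt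
    i₁ j₁ t j₂ i₂
  tgt : LinkK U κ (subE u s.B 0) (side U τ x) ∨
    ∃ v, LC.InB v s₀ (ahead (subE u s.B 0)) ∧
      ChI {f | f ∈ U ∧ LC.InB v s₀ f} (ahead (subE u s.B 0)) (inF U τ x)
  offA : OffL g.a g.b g.L lA s.tip
  offB : OffL g.a g.b g.L lB (lf s.B)
  s0 : 0 ≤ s₀
  hE : r₀ + 2 + d ≤ E
  Eρ : E ≤ ρ
  far : 5 * ρ + 10 * E + 11 < u * lA
  farB : 2 * s₀ + d + 6 ≤ u * lB

/-- **All data of one past**, with the gates. -/
structure MvB {ι : Type} (s : Dom) (g : Grd) (u : ℕ) (Ξ : Cfg → Cfg) (R U : Set (ℤ × ℤ))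
    (κ : ℤ × ℤ → ι) (d : ℤ) (τ : UE × Bool) (mU kt x : ℕ) (r₀ s₀ lA lB E ρ : ℤ) : Prop
    extends MvB₀ s g u Ξ R U κ d τ mU kt x r₀ s₀ lA lB E ρ where
  gate : ∀ K ∈ s.fam g, ∀ T M s' t u' k,
    TSide U (blow u s.P) (blow u (s.dom g)) κ (u * g.a) (u * g.b) (u * g.L) (subE u s.A 0) τ
      (u * cyl (s.dom g) s.A) (u * s.p g) (u * (s.q g + 1) - 1) (blow u (s.yK g K)) T
      (u * cyl (s.gK g K) s.A) (u * s.n1 g K) (u * s.n2 g K) mU M s' t u' k →
    ∀ i, k ≤ i → i ≤ k + (u * s.n2 g K - u * s.n1 g K) →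
      ¬ LC.Gate (T : Set (ℤ × ℤ)) (LC.av (vert (T : Set (ℤ × ℤ)) τ) 0 k)
        (LC.av (vert (T : Set (ℤ × ℤ)) τ) (k + (u * s.n2 g K - u * s.n1 g K)) M)
        (vert (T : Set (ℤ × ℤ)) τ i) (6 * ρ)

variable {ι : Type} {s : Dom} {g : Grd} {u : ℕ} {Ξ : Cfg → Cfg} {R U : Set (ℤ × ℤ)}
  {κ : ℤ × ℤ → ι} {d : ℤ} {τ : UE × Bool} {mU kt x : ℕ} {r₀ s₀ lA lB E ρ : ℤ}

namespace MvB₀

variable (h : MvB₀ s g u Ξ R U κ d τ mU kt x r₀ s₀ lA lB E ρ)

include h

theorem runK : s.RunK g (cyl (s.dom g) s.A) (cyl (s.inr g) s.A) := h.val.runK h.nv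

theorem mvd : Mvd U (blow u s.P) (blow u (s.dom g)) κ d (subE u s.A 0) (u * cyl (s.dom g) s.A)
    (u * s.p g) (u * (s.q g + 1) - 1) := h.val.mvd h.hu h.app h.fin h.ec h.esc

theorem runS {K : Finset (ℤ × ℤ)} (hK : K ∈ s.fam g) :
    RunS (u * g.a) (u * g.b) (u * g.L) (blow u (s.dom g)) (subE u s.A 0) (u * s.p g)
      (u * (s.q g + 1) - 1) (blow u (s.yK g K)) (u * cyl (s.dom g) s.A) (u * cyl (s.gK g K) s.A)
      (u * s.n1 g K) (u * s.n2 g K) :=
  h.runK.runS_blow h.hu h.val.conD hK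

theorem lt {K : Finset (ℤ × ℤ)} (hK : K ∈ s.fam g) :
    u * s.n2 g K < u * cyl (s.gK g K) s.A :=
  Nat.mul_lt_mul_of_pos_left (h.runK.lt_cyl hK) h.hu

theorem offA' : OffL (u * g.a) (u * g.b) (u * g.L) (u * lA) (lf (subE u s.A 0)) := by
  have := h.offA.mag (m := (u : ℤ)) (by exact_mod_cast h.hu)
  rwa [lf_subE_zero]

theorem offB' : OffL (u * g.a) (u * g.b) (u * g.L) (u * lB) (lf (subE u s.B 0)) := by
  have := h.offB.mag (m := (u : ℤ)) (by exact_mod_cast h.hu)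
  rwa [lf_subE_zero]

theorem hL' : 0 < (u : ℤ) * g.L := mul_pos (by exact_mod_cast h.hu) h.val.hL

/-- The faces near the target side are in one cell. -/
theorem cellB {f : ℤ × ℤ} (hf : |f.1 - (ahead (subE u s.B 0)).1| ≤ 2 * s₀ + 2)
    (hf' : |f.2 - (ahead (subE u s.B 0)).2| ≤ 2 * s₀ + 2) :
    gc (u * g.a) (u * g.b) (u * g.L) f =
      gc (u * g.a) (u * g.b) (u * g.L) (ahead (subE u s.B 0)) := by
  have h1 := h.farB
  have hd := h.app.d_pos
  have hs := h.s0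
  have h2 : IsCor (ahead (subE u s.B 0)) (lf (subE u s.B 0)) := isCor_in_lf _
  unfold IsCor at h2
  rw [abs_le] at hf hf'
  exact h.offB'.gc_eq h.hL' (by omega) (by omega) (by omega) (by omega) (by omega) (by omega)
    (by omega) (by omega)

/-- A box around a point near the target side is near the target side. -/
theorem nearB {v f : ℤ × ℤ} (hv : LC.InB v s₀ (ahead (subE u s.B 0))) (hf : LC.InB v s₀ f) :
    |f.1 - (ahead (subE u s.B 0)).1| ≤ 2 * s₀ + 2 ∧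
      |f.2 - (ahead (subE u s.B 0)).2| ≤ 2 * s₀ + 2 := by
  unfold LC.InB at *
  rw [abs_le, abs_le]
  omega

/-- The ends of the stop arcs are far from the target side. -/
theorem farB' {K : Finset (ℤ × ℤ)} (hK : K ∈ s.fam g) {v : ℤ × ℤ}
    (hv : LC.InB v s₀ (ahead (subE u s.B 0))) {i : ℕ} (h1 : u * s.n1 g K ≤ i)
    (h2 : i ≤ u * s.n2 g K) :
    ¬ LC.InB v (s₀ + d + 2)
      (vert (inn (blow u (s.dom g)) (subE u s.A 0) (blow u (s.yK g K))) (subE u s.A 0) i) := by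
  have h3 := not_inB_of_far ((h.runS hK).far_vert h.offB' h1 h2) (s := u * lB - 1) (by omega)
  have h4 : IsCor (ahead (subE u s.B 0)) (lf (subE u s.B 0)) := isCor_in_lf _
  have h5 := h.farB
  intro h6
  apply h3
  unfold IsCor at h4
  unfold LC.InB at *
  omega

/-- The face at the true target is not in the true domain. -/
theorem tgtK {K : Finset (ℤ × ℤ)} (hK : K ∈ s.fam g) : inF U τ x ∉
    domT U (blow u (s.yK g K))
      (capK U κ (gR (blow u (s.dom g)) (subE u s.A 0) (blow u (s.yK g K)) (u * s.n1 g K)))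
      (capK U κ (gL (blow u (s.dom g)) (subE u s.A 0) (blow u (s.yK g K)) (u * s.n2 g K)))
      (subE u s.A 0) := by
  have hB : BD (blow u s.P) (subE u s.B 0) :=
    bd_subE (by exact_mod_cast h.hu) h.val.bdB le_rfl (by exact_mod_cast h.hu)
  have hnG := tgt_nG h.mvd (h.runS hK) hB (h.val.hex h.hu le_rfl (by exact_mod_cast h.hu))
  have hlt := (h.runS hK).con.lt
  rcases h.tgt with hl | ⟨v, hv, hch⟩
  · exact notMem_of_link h.mvd (h.runS hK) (h.lt hK) hB hnG hl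
  · refine notMem_of_box (v := v) (ρ₀ := s₀) h.mvd (h.runS hK) (h.lt hK) hB.1 hnG hv
      (fun f hf => ?_) (h.farB' hK hv le_rfl hlt.le) (h.farB' hK hv hlt.le le_rfl) hch
    obtain ⟨h1, h2⟩ := h.nearB hv hf
    exact h.cellB h1 h2

/-- **The gates.** `X` is the exploration, `t₀` the time: no gate of the strand at the vertices of the stop
arcs. -/
theorem mvB {X : Ex} {ω : Cfg} {t₀ : ℕ} (ht : TSt (X.cf ω) Set.univ U τ mU x)
    (hper : ∃ N, 0 < N ∧ pth (X.cf ω) τ.1 N = τ.1) (hW : X.Wll ω) (hUF : U ⊆ X.Fr ω t₀)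
    (hout : ∀ i, outF U τ i ∉ X.Fr ω t₀) (tip : X.p ω t₀ = τ.1) (he : fb (X.e ω) ∉ X.U ω)
    {σ δ : ℤ} (hvt : LC.InB (lf (subE u s.A 0)) σ (rg τ)) (hδ : d ≤ δ)
    (hr : 6 * ρ + 2 * δ + 3 + σ < u * lA)
    (hno : ∀ K ∈ s.fam g, ∀ i, u * s.n1 g K ≤ i → i ≤ u * s.n2 g K →
      ¬ X.Gate ω t₀ (vert (blow u (s.gK g K)) (subE u s.A 0) i) (6 * ρ + 2 * δ + 1)) :
    MvB s g u Ξ R U κ d τ mU kt x r₀ s₀ lA lB E ρ where
  toMvB₀ := h
  gate := by
    have hd := h.app.d_pos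
    refine gate_fam (𝒦 := s.fam g) (cf := fun K => blow u (Mv.fcs g.nm (s.inr g) K))
      (n := fun K => u * cyl (s.gK g K) s.A) (N₁ := fun K => u * s.n1 g K)
      (N₂ := fun K => u * s.n2 g K) (Z := blow u (s.bar g)) h.mvd ht hper hW hUF hout tip he
      (fun K hK => h.tgtK hK) h.offA' hvt (by omega) hδ hr fun K hK i h1 h2 => ?_
    have h3 : inn (blow u (s.dom g)) (subE u s.A 0)
        (blow u (s.bar g) ∪ blow u (Mv.fcs g.nm (s.inr g) K)) = blow u (s.gK g K) :=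
      h.runK.blow_inn h.hu hK
    simp only [h3]
    exact hno K hK i h1 h2

end MvB₀

namespace MvB

variable (h : MvB s g u Ξ R U κ d τ mU kt x r₀ s₀ lA lB E ρ)

include h

/-- **The data `MvS`.** -/
theorem mvS : MvS (s.fam g) (fun K => blow u (Mv.fcs g.nm (s.inr g) K)) Ξ 0 R U (blow u s.P)
    (blow u (s.dom g)) κ d (u * g.a) (u * g.b) (u * g.L) (subE u s.A 0) τ (subE u s.B 0)
    (u * cyl (s.dom g) s.A) (u * s.p g) (u * (s.q g + 1) - 1) mU kt x
    (fun K => u * cyl (s.gK g K) s.A) (fun K => u * s.n1 g K) (fun K => u * s.n2 g K)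
    (blow u (s.bar g)) r₀ s₀ E ρ where
  mvd := h.mvd
  tru := h.tru
  lab := h.lab
  run := fun K hK => h.runS hK
  lt := fun K hK => h.lt hK
  hex := h.val.hex h.hu le_rfl (by exact_mod_cast h.hu)
  hcell := fun f hf => by
    have hs := h.s0
    unfold sqF at hf
    exact h.cellB (hf.1.trans (by omega)) (hf.2.trans (by omega))
  tgt := fun K hK => h.tgtK hK
  hE := h.hE
  Eρ := h.Eρ
  far := fun K hK i h1 h2 =>
    not_inB_of_far ((h.runS hK).far_vert h.offA' h1 h2) h.far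
  gate := h.gate

end MvB

/-- **The law of the record** for one past. -/
theorem move_estB : ∃ C α : ℝ, 0 < C ∧ 0 < α ∧ ∀ {ι : Type} {s : Dom} {g : Grd} {u : ℕ}
    {av : Cfg → ℤ × ℤ → Prop} {rn' : Cfg → ℕ} {Ξ : Cfg → Cfg} {R U : Set (ℤ × ℤ)}
    {κ : ℤ × ℤ → ι} {d : ℤ} {τ : UE × Bool} {mU kt x : ℕ} {r₀ s₀ lA lB E ρ : ℤ}
    {W : Finset (ℤ × ℤ)},
    MvB s g u Ξ R U κ d τ mU kt x r₀ s₀ lA lB E ρ → U ⊆ W →
    (∀ r : ℕ, ∀ K ∈ s.fam g, ∀ ξ, StopE τ.1 (blow u (s.P \ s.inr g))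
      (runE (blow u (s.inr g)) (subE u s.A 0) (u * s.n₁ g) (u * s.n₂ g)) (Ξ ξ) →
      ((∀ i ∈ K, av (Ξ ξ) i) ∧ rn' (Ξ ξ) = r ↔ Ξ ξ ∈ MoveEv τ.1 (blow u (s.P \ s.inr g))
        (blow u (Mv.fcs g.nm (s.inr g) K))
        (runE (blow u (s.inr g)) (subE u s.A 0) (u * s.runI g r) (u * s.runI g (r + 1))))) →
    ∀ a : Rec, |pr W {ξ | RunRec (s.fam g) av rn' (Ξ ξ) = (s.kst g a, a.2)} - s.lawq g u a| ≤
      2 ^ (s.fam g).card * (C * ((E : ℝ) / ρ) ^ α) := by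
  classical
  obtain ⟨C, α, hC, hα, key⟩ := move_est
  refine ⟨C, α, hC, hα, ?_⟩
  intro ι s g u av rn' Ξ R U κ d τ mU kt x r₀ s₀ lA lB E ρ W h hUW hrec a
  have hS := h.mvS
  have h0 : (∅ : Finset (ℤ × ℤ)) ∈ s.fam g := Dom.empty_mem
  have hcf : blow u (Mv.fcs g.nm (s.inr g) ∅) = ∅ := by
    rw [Mv.fcs_empty]
    rfl
  refine key (R := R) (κ₂ := fun _ => subK (blow u s.P) κ) (v := lf (subE u s.A 0)) (E := E) (ρ := ρ)
    h.runK h.hu h.val.conD h.mvd h.tru.cyc (fun K hK => hS.tin hK) (fun K hK T M s' t u' k S => ?_)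
    (fun ξ => ?_) hUW hrec a
  · exact hS.hdom hK ((h.runK.coe_gK h.hu hK).trans (h.runK.blow_inn h.hu hK).symm) S
  · have h1 := hS.hstop₀ h0 hcf ξ
    simp only [Dom.n1_empty, Dom.n2_empty] at h1
    exact h1

/-- **The stop of the strand is regular** off a rare event, for one past. -/
theorem not_stopR_estB : ∃ C α : ℝ, 0 < C ∧ 0 < α ∧ ∀ {ι : Type} {s : Dom} {g : Grd} {u : ℕ}
    {Ξ : Cfg → Cfg} {R U : Set (ℤ × ℤ)} {κ : ℤ × ℤ → ι} {d : ℤ} {τ : UE × Bool} {mU kt x : ℕ}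
    {r₀ s₀ lA lB E ρ : ℤ} {W : Finset (ℤ × ℤ)},
    MvB s g u Ξ R U κ d τ mU kt x r₀ s₀ lA lB E ρ → U ⊆ W →
    pr W {ξ | ¬ ∃ σ, StopR τ.1 U
      (domT U (blow u (s.bar g))
        (capK U κ (gR (blow u (s.dom g)) (subE u s.A 0) (blow u (s.bar g)) (u * s.n₁ g)))
        (capK U κ (gL (blow u (s.dom g)) (subE u s.A 0) (blow u (s.bar g)) (u * s.n₂ g)))
        (subE u s.A 0)) (blow u (s.bar g))
      (runE (blow u (s.inr g)) (subE u s.A 0) (u * s.n₁ g) (u * s.n₂ g)) (Ξ ξ) σ} ≤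
      C * ((E : ℝ) / ρ) ^ α := by
  classical
  obtain ⟨C, α, hC, hα, key⟩ := not_stopR_mvS
  refine ⟨C, α, hC, hα, ?_⟩
  intro ι s g u Ξ R U κ d τ mU kt x r₀ s₀ lA lB E ρ W h hUW
  have hS := h.mvS
  have h0 : (∅ : Finset (ℤ × ℤ)) ∈ s.fam g := Dom.empty_mem
  have hcf : blow u (Mv.fcs g.nm (s.inr g) ∅) = ∅ := by
    rw [Mv.fcs_empty]
    rfl
  have hinr := h.runK.blow_inn' h.hu
  have hfin : (inn (blow u (s.dom g)) (subE u s.A 0) (blow u (s.bar g))).Finite := by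
    rw [hinr]
    exact blow_finite (by exact_mod_cast h.hu) (h.val.finI h.nv)
  have h1 := key h0 hcf hS hfin hUW
  simp only [Dom.n1_empty, Dom.n2_empty, hinr] at h1
  exact h1

end Pool.Agent.SixB.Mv
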