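import Pool.Agent.Lib.SixB.S8InvD
import Pool.Agent.Lib.SixB.S8MoveE
import Pool.Agent.Lib.SixB.S8MoveIn
import Pool.Agent.Lib.SixB.S8GridSt
import Pool.Agent.Lib.SixB.S8StartW
import Pool.Agent.Lib.SixB.S8BadD

/-!
# Step 8, unit 8H: from the invariant of the true chain to the data of one move

* `MvB.moveIn`: the data `MoveIn` from `MvB`;
* `RunB.trueD`: the true data of a state with the invariant;
* `RunI.mvB₀`, `RunI.mvB`: the data of the move of a state with the invariant, from the inequalities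
  between the scales and from the gates of the exploration.
-/

set_option autoImplicit false

namespace Pool.Agent.SixB.Mv

open Finset Pool.Agent.Perc Pool.Agent.Perc6 Pool.Agent.PercT Pool.Agent.Perc6.C2Aux
open Pool.Agent.Perc.Tips Pool.Agent.SixB Pool.Agent.SixB.Top Pool.Agent.SixB.Blow
open Pool.Agent.SixB.CloK

/-- **The data of one move.** -/
theorem MvB.moveIn {ι : Type} {s : Dom} {g : Grd} {u : ℕ} {Ξ : Cfg → Cfg} {R U : Set (ℤ × ℤ)}
    {κ : ℤ × ℤ → ι} {d : ℤ} {τ : UE × Bool} {mU kt x : ℕ} {r₀ s₀ lA lB E ρ : ℤ}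
    (h : MvB s g u Ξ R U κ d τ mU kt x r₀ s₀ lA lB E ρ) {W : Finset (ℤ × ℤ)} (hUW : U ⊆ W) :
    MoveIn s g (cyl (s.dom g) s.A) (cyl (s.inr g) s.A) u mU Ξ R U κ
      (fun _ => subK (blow u s.P) κ) d τ (lf (subE u s.A 0)) E ρ W := by
  have hS := h.mvS
  have h0 : (∅ : Finset (ℤ × ℤ)) ∈ s.fam g := Dom.empty_mem
  have hcf : blow u (Mv.fcs g.nm (s.inr g) ∅) = ∅ := by
    rw [Mv.fcs_empty]
    rfl
  refine ⟨h.runK, h.hu, h.val.conD, h.mvd, h.tru.cyc, fun K hK => hS.tin hK,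
    fun K hK T M s' t u' k S => ?_, fun ξ => ?_, hUW⟩
  · exact hS.hdom hK ((h.runK.coe_gK h.hu hK).trans (h.runK.blow_inn h.hu hK).symm) S
  · have h1 := hS.hstop₀ h0 hcf ξ
    simp only [Dom.n1_empty, Dom.n2_empty] at h1
    exact h1

end Pool.Agent.SixB.Mv

namespace Pool.Agent.SixB.Tru

open Finset Pool.Agent.Perc Pool.Agent.Perc6 Pool.Agent.PercT Pool.Agent.Perc6.C2Aux
open Pool.Agent.PercX60
open Pool.Agent.MP_6bd702.H23 (Ed ea eb)
open Pool.Agent.SixB Pool.Agent.SixB.Rule Pool.Agent.SixB.Dct Pool.Agent.SixB.Mv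
open Pool.Agent.SixB.Blow (subE)
open Pool.Agent.SixB.Top (compT compT_sub ChI lf rg)
open Pool.Agent.SixB.CloK (capK gR gL domT)
open Pool.Agent.Perc.Tips

variable {𝔇 : Dat} {d : ℕ → ℕ} {n : ℕ} {r : ℤ} {s : TS} {ω : Cfg} {q : Rule.Ndl} {D : Dom}
  {κ : ℤ × ℤ → ℤ × ℤ} {m x i₁ j₁ t j₂ i₂ : ℕ}

/-- **The true data** of a state with the invariant. -/
theorem RunB.trueD (h : RunB 𝔇 d n r s ω q D κ m x) :
    TrueD (Xi s q ω) 0 Set.univ (uS s q ω) (tS s q ω) m x x := by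
  have h1 := h.tst ω
  refine
    { cyc := h1.cyc
      ktm := h1.lt.le
      lt := h1.lt
      tgt := Or.inl ⟨rfl, h1.px⟩
      hR := h1.hR
      UR := h1.UR
      hc := Or.inl rfl
      hpt := h1.par_one
      hfa := h1.fwd
      hfb := (fwd_of_par h1.par_one).2
      agr := fun ξ f hf => ?_
      walls := fun ξ => (h.tst ξ).walls
      solid := ?_ }
  · have h2 : f ∈ frS s q ω := compT_sub h.fre hf
    have h3 : f ∉ expS s ω := by
      unfold expS
      rw [h.hq]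
      simp only [Option.elim_some]
      rintro (h4 | h4)
      · exact h4 h2.1.1
      · exact h2.2 h4.2
    change mix (FU s.V \ QF q.1) (mix (expS s ω) ω ξ) (gT (q.1 : Set Ed)) f = ξ f
    rw [mix_of_mem h2.1, mix_of_notMem h3]
  · have hQf : (QF q.1).Finite := by
      refine Set.Finite.preimage (f := eE) ?_ q.1.finite_toSet
      intro a _ b _ hab
      have := congrArg phiE hab
      rwa [phiE_eE, phiE_eE] at this
    have hVf : (FU s.V).Finite := by
      have h5 : (FU s.V : Set (ℤ × ℤ)) ⊆ phiE '' {e : Ed | ea e ∈ s.V ∧ eb e ∈ s.V} := fun f hf =>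
        ⟨eE f, hf, phiE_eE f⟩
      refine (Set.Finite.image _ ?_).subset h5
      have h6 : {e : Ed | ea e ∈ s.V ∧ eb e ∈ s.V} ⊆
          ((s.V ×ˢ (Finset.univ : Finset Bool)).image
            fun p : (ℤ × ℤ) × Bool => ((p.1.1, p.1.2, p.2) : Ed) : Set Ed) := by
        rintro ⟨a, b, c⟩ ⟨h7, -⟩
        rw [Finset.coe_image]
        exact ⟨((a, b), c), by
          rw [Finset.mem_coe, Finset.mem_product]
          exact ⟨h7, Finset.mem_univ _⟩, rfl⟩
      exact (Finset.finite_toSet _).subset h6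
    refine ⟨0, Or.inl rfl, (hVf.union hQf).toFinset, fun ξ g hg => ?_⟩
    rw [Set.Finite.mem_toFinset] at hg
    have h2 : g ∉ FU s.V \ QF q.1 := fun hh => hg (Or.inl hh.1)
    have h3 : eE g ∉ (q.1 : Set Ed) := fun hh => hg (Or.inr hh)
    change mix (FU s.V \ QF q.1) (mix (expS s ω) ω ξ) (gT (q.1 : Set Ed)) g = parD 0 g
    rw [mix_of_notMem h2, ← StW.eE_parD]
    have h4 : ¬ (gT (q.1 : Set Ed) g = !(eE g).2.2) := fun hh => h3 ((gT_eE _ g).1 hh)
    cases h5 : gT (q.1 : Set Ed) g <;> cases h6 : (eE g).2.2 <;> simp_all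

/-- The grid of a move is valid. -/
theorem val_gr (hD : (𝔇.cs d s.x).run = some D) (hL : 0 < msh d s.x.length)
    (h16 : 16 ∣ msh d s.x.length) : D.Val (𝔇.gr d s.x D) where
  toOk := cst_ok hD
  hL := hL
  hM := msz_pos _ _ _
  off := by
    have h1 := D.grd_tip (M := msz 𝔇.kap d s.x.length) hL h16
    refine h1.mono ?_
    obtain ⟨k, hk⟩ := h16
    omega

/-- **The data of the move** of a state with the invariant, without the gates. -/
theorem RunI.mvB₀ (h : RunI 𝔇 d n r s ω q D κ m x i₁ j₁ t j₂ i₂)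
    (hu : 0 < unt d n) (hL : 0 < msh d s.x.length) (h16 : 16 ∣ msh d s.x.length)
    (hv : ¬ D.Void (𝔇.gr d s.x D)) {E ρ : ℤ} (hE : 2 * r + 2 ≤ E) (Eρ : E ≤ ρ)
    (far : 5 * ρ + 10 * E + 11 < unt d n * (msh d s.x.length / 5))
    (farB : 3 * r + 6 ≤ unt d n * (msh d s.x.length / 16)) :
    MvB₀ D (𝔇.gr d s.x D) (unt d n) (Xi s q ω) Set.univ (uS s q ω) κ r (tS s q ω) m x x r r
      (msh d s.x.length / 5) (msh d s.x.length / 16) E ρ where
  val := val_gr h.run hL h16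
  nv := hv
  hu := hu
  tru := h.trueD
  fin := (h.tst ω).fin
  ec := (h.tst ω).ec
  esc := (h.tst ω).esc
  app := h.app
  lab := ⟨_, _, _, _, _, _, h.lab⟩
  tgt := by
    right
    obtain ⟨h1, h2, h3⟩ := h.tgt
    have hset : uS s q ω ∩ Mv.sqF r (ahead (subE (unt d n) D.B 0)) =
        {f | f ∈ uS s q ω ∧ LC.InB (ahead (subE (unt d n) D.B 0)) r f} := by
      ext f
      unfold Mv.sqF LC.InB
      simp only [Set.mem_inter_iff, Set.mem_ofPred_eq, abs_le]
      constructor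
      · rintro ⟨h4, h5⟩
        exact ⟨h4, by omega⟩
      · rintro ⟨h4, h5⟩
        exact ⟨h4, by omega⟩
    have h4 := ChI.symm (S := uS s q ω ∩ Mv.sqF r (ahead (subE (unt d n) D.B 0))) ⟨h1, h2⟩ h3
    rw [hset] at h4
    refine ⟨ahead (subE (unt d n) D.B 0), ?_, h4⟩
    have hr := h.app.d_pos
    unfold LC.InB
    omega
  offA := D.grd_tip hL h16
  offB := D.grd_lfB hL h16
  s0 := h.app.d_pos.le
  hE := by omega
  Eρ := Eρ
  far := far
  farB := by omega

/-- The fresh faces of the exploration of a state. -/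
theorem fr_exS_frS : (exS s.V q).Fr ω s.t = frS s q ω := by
  ext f
  unfold Ex.Fr Ex.x frS
  rw [exS_v]
  simp only [exS, Set.mem_sdiff, Set.mem_inter_iff]
  tauto

/-- **The data of the move** of a state with the invariant: no gate of the strand at the vertices of the
stop arcs. -/
theorem RunI.mvB (h : RunI 𝔇 d n r s ω q D κ m x i₁ j₁ t j₂ i₂)
    (hu : 0 < unt d n) (hL : 0 < msh d s.x.length) (h16 : 16 ∣ msh d s.x.length)
    (hv : ¬ D.Void (𝔇.gr d s.x D)) {E ρ : ℤ} (hE : 2 * r + 2 ≤ E) (Eρ : E ≤ ρ)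
    (far : 5 * ρ + 10 * E + 11 < unt d n * (msh d s.x.length / 5))
    (farB : 3 * r + 6 ≤ unt d n * (msh d s.x.length / 16))
    (farG : 6 * ρ + 3 * r + 3 < unt d n * (msh d s.x.length / 5))
    (hW : (exS s.V q).Wll ω) (he : fb (eS s.V q) ∉ FU s.V \ QF q.1)
    (hno : ∀ K ∈ D.fam (𝔇.gr d s.x D), ∀ i, unt d n * D.n1 (𝔇.gr d s.x D) K ≤ i →
      i ≤ unt d n * D.n2 (𝔇.gr d s.x D) K → ¬ (exS s.V q).Gate ω s.t
        (vert (blow (unt d n) (D.gK (𝔇.gr d s.x D) K)) (subE (unt d n) D.A 0) i)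
        (6 * ρ + 2 * r + 1)) :
    MvB D (𝔇.gr d s.x D) (unt d n) (Xi s q ω) Set.univ (uS s q ω) κ r (tS s q ω) m x x r r
      (msh d s.x.length / 5) (msh d s.x.length / 16) E ρ := by
  have h0 := h.mvB₀ hu hL h16 hv hE Eρ far farB
  have hX : Xi s q ω ω = (exS s.V q).cf ω := by
    change cfS s.V q (mix (expS s ω) ω ω) = cfS s.V q ω
    congr 1
    funext f
    by_cases hf : f ∈ expS s ω
    · rw [mix_of_mem hf]
    · rw [mix_of_notMem hf]
  have ht : TSt ((exS s.V q).cf ω) Set.univ (uS s q ω) (tS s q ω) m x := by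
    rw [← hX]
    exact h.tst ω
  have hfre : fa (pS s.V q ω s.t) ∈ (exS s.V q).Fr ω s.t := by
    rw [fr_exS_frS]
    exact h.fre
  have hout := out_of_comp (F := (exS s.V q).Fr ω s.t) (U := uS s q ω) (τ := tS s q ω) hfre
    (by rw [fr_exS_frS]; rfl) (h.tst ω).cyc.bd
  refine h0.mvB (X := exS s.V q) (ω := ω) (t₀ := s.t) (σ := r) (δ := r) ht ?_ hW hout.1 hout.2 ?_ he
    h.near le_rfl (by omega) hno
  · obtain ⟨dd, hdd, F, hF⟩ := h.trueD.solid
    obtain ⟨N, hN, hN'⟩ := pth_periodic hdd (F := F) (fun g hg => hF ω g hg) (tS s q ω).1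
    rw [← hX]
    exact ⟨N, hN, hN'⟩
  · rw [exS_p]
    rfl

end Pool.Agent.SixB.Tru
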