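import Pool.Agent.Lib.SixB.S8InvD
import Pool.Agent.Lib.SixB.S8InvX
import Pool.Agent.Lib.SixB.S8InvX2
import Pool.Agent.Lib.SixB.S8InvR
import Pool.Agent.Lib.SixB.S8InvF
import Pool.Agent.Lib.SixB.S8ChainA
import Pool.Agent.Lib.SixB.S8MoveK

/-!
# Step 8, unit 8H: the invariant along the chain, without the labels

* `RunB.nxt`: the step of the true domain for all configurations of the fresh faces;
* `RunI.rg`: a regular stop gives the data `Rg` of `S8InvF`;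
* `RunI.next_regB`: the invariant `RunB` after a regular move;
* `RunB.next_voidB`: the invariant `RunB` after a void move.
-/

set_option autoImplicit false

namespace Pool.Agent.SixB.Tru

open Finset Pool.Agent.Perc Pool.Agent.Perc6 Pool.Agent.PercT Pool.Agent.Perc6.C2Aux
open Pool.Agent.SixB Pool.Agent.SixB.Rule Pool.Agent.SixB.Dct Pool.Agent.SixB.Mv
open Pool.Agent.SixB.Blow (subE runS_blowR)
open Pool.Agent.SixB.Top (compT ChI lf rg compT_eq compT_sub capC)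
open Pool.Agent.Perc.Tips

variable {𝔇 : Dat} {d : ℕ → ℕ} {n : ℕ} {r : ℤ} {s s' : TS} {ω : Cfg} {q : Rule.Ndl} {D : Dom}
  {κ : ℤ × ℤ → ℤ × ℤ} {m x i₁ j₁ t j₂ i₂ : ℕ}

/-- One step of the true domain, for all configurations of the fresh faces. -/
theorem RunB.nxt (X : RunB 𝔇 d n r s ω q D κ m x) (hL : Later s s') {σ : ℕ} (hσ : 0 < σ)
    (ht : s'.t = s.t + σ) (hV : s.V ⊆ Box n) (hQ : QF q.1 ⊆ FU s.V)
    (hy : ahead (side (uS s q ω) (tS s q ω) x) ∉ vS s.V q ω s.t (s.t + σ))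
    (hf : fa (pS s.V q ω (s.t + σ)) ∈
      compT (uS s q ω \ (vS s.V q ω s.t (s.t + σ) : Set (ℤ × ℤ)))
        (ahead (side (uS s q ω) (tS s q ω) x))) :
    (uS s' q ω = compT (uS s q ω \ (vS s.V q ω s.t (s.t + σ) : Set (ℤ × ℤ)))
      (ahead (side (uS s q ω) (tS s q ω) x))) ∧
    ∃ m' x', ∀ ξ, Nxt (Xi s' q ω ξ) Set.univ (uS s q ω) (tS s q ω) m x
      (vS s.V q ω s.t (s.t + σ) : Set (ℤ × ℤ)) (uS s' q ω) (tS s' q ω) m' x' := by
  have hu' : uS s' q ω = compT (uS s q ω \ (vS s.V q ω s.t (s.t + σ) : Set (ℤ × ℤ)))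
      (ahead (side (uS s q ω) (tS s q ω) x)) :=
    uS_step_of hL.V ht X.fre ⟨X.tgt.1, fun h => hy (mem_coe.1 h)⟩ hf
  refine ⟨hu', ?_⟩
  have hτ : tS s' q ω = dirE (pS s.V q ω (s.t + σ)) := tS_step hL.V ht
  have key : ∀ ξ, ∃ m' x', Nxt (Xi s' q ω ξ) Set.univ (uS s q ω) (tS s q ω) m x
      (vS s.V q ω s.t (s.t + σ) : Set (ℤ × ℤ)) (uS s' q ω) (tS s' q ω) m' x' := by
    intro ξ
    have hX := Xi_later hL q ω ξ
    have T := X.tst (mix (expS s' ω) ω ξ)
    have hper := Xi_per hV hQ ω (mix (expS s' ω) ω ξ) (tS s q ω).1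
    have hp := pth_Xi (ω := ω) (ξ := ξ) hL X.hq (i := σ) (by omega)
    have hv := vs_Xi (ω := ω) (ξ := ξ) hL X.hq (i := σ) (by omega)
    rw [← hX] at T hper hp hv
    have h1 := T.step hper (σ := σ) (θ := σ) (fun _ _ => Set.mem_univ _) hσ le_rfl
      (U' := uS s' q ω) (by
        rw [hu']
        change _ = compT (uS s q ω \ (vs (Xi s' q ω ξ) (pS s.V q ω s.t) 0 σ : Set (ℤ × ℤ))) _
        rw [hv]) (by
        change _ ∉ vs (Xi s' q ω ξ) (pS s.V q ω s.t) 0 σ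
        rw [hv]
        exact hy)
      (fun i h1 h2 => absurd h2 (by omega)) (by
        change fa (pth (Xi s' q ω ξ) (pS s.V q ω s.t) σ) ∈ _
        rw [hp, hu']
        exact hf)
    change ∃ m' x', Nxt (Xi s' q ω ξ) Set.univ (uS s q ω) (tS s q ω) m x
      (vs (Xi s' q ω ξ) (pS s.V q ω s.t) 0 σ : Set (ℤ × ℤ)) (uS s' q ω)
      (dirE (pth (Xi s' q ω ξ) (pS s.V q ω s.t) σ)) m' x' at h1
    rw [hv, hp, ← hτ] at h1
    exact h1
  obtain ⟨m', x', h₀⟩ := key fun _ => false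
  refine ⟨m', x', fun ξ => ?_⟩
  obtain ⟨m₁, x₁, h₁⟩ := key ξ
  have e1 : m₁ = m' := h₁.st.cyc.unique h₀.st.cyc
  subst e1
  have e2 : x₁ = x' := h₁.st.cyc.inj _ h₁.st.lt _ h₀.st.lt (h₁.tgt.trans h₀.tgt.symm)
  subst e2
  exact h₁

/-- The state conditions: the remaining vertices are in the box, the needle is admissible. -/
structure StO (n : ℕ) (s : TS) (q : Rule.Ndl) : Prop where
  box : s.V ⊆ Box n
  sub : QF q.1 ⊆ FU s.V
  ndl : ∃ k, NdF s.V q.1 k ∧ PercU.vtx k = q.2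

theorem stO_tst {i : ℕ} (h : (tst 𝔇 d n ω i).q = some q) : StO n (tst 𝔇 d n ω i) q :=
  ⟨tst_V_sub i, tst_QF_sub h, (tst_ndF h).2⟩

/-- The numbers of a stage: the radius is small with respect to the cells of the grid. -/
structure NumO (d : ℕ → ℕ) (n : ℕ) (k : ℕ) (r : ℤ) : Prop where
  hu : 0 < unt d n
  h16 : 16 ∣ msh d k
  far : 3 * r + 6 < unt d n * (msh d k / 5)
  farB : 3 * r + 6 ≤ unt d n * (msh d k / 16)

/-- The record of a regular move. -/
theorem mvR_reg (hv : ¬ D.Void (𝔇.gr d s.x D)) : mvR 𝔇 d n s q D false ω =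
    D.rcd (𝔇.gr d s.x D) (capR (𝔇.gr d s.x D).M)
      (visC (unt d n) s q ω (stopT n (unt d n) s q D (𝔇.gr d s.x D) ω))
      (stopI (unt d n) s q D (𝔇.gr d s.x D) ω
        (stopT n (unt d n) s q D (𝔇.gr d s.x D) ω)) := by
  unfold mvR
  rw [if_neg (by simpa using hv)]

theorem mvT_reg (hv : ¬ D.Void (𝔇.gr d s.x D)) :
    mvT 𝔇 d n s q D false ω = stopT n (unt d n) s q D (𝔇.gr d s.x D) ω := by
  unfold mvT
  rw [if_neg (by simp), if_neg hv]

theorem mvR_void (hv : D.Void (𝔇.gr d s.x D)) : mvR 𝔇 d n s q D false ω = (∅, 0) := by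
  unfold mvR
  rw [if_pos (Or.inr hv)]

theorem mvT_void (hv : D.Void (𝔇.gr d s.x D)) : mvT 𝔇 d n s q D false ω = s.t := by
  unfold mvT
  rw [if_neg (by simp), if_pos hv]

/-- **A regular stop.** The time after the stage and the data of the move. -/
theorem RunI.rg (X : RunI 𝔇 d n r s ω q D κ m x i₁ j₁ t j₂ i₂) (hO : StO n s q)
    (hN : NumO d n s.x.length r) (hv : ¬ D.Void (𝔇.gr d s.x D)) {σ : ℕ}
    (hS : D.regS (𝔇.gr d s.x D) (unt d n) (uS s q ω) κ (tS s q ω).1 (cfS s.V q ω) σ) :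
    mvT 𝔇 d n s q D false ω = s.t + σ ∧
    Rg D (𝔇.gr d s.x D) (unt d n) (cfS s.V q ω) (uS s q ω) κ r (tS s q ω) m x
      (msh d s.x.length / 5) (msh d s.x.length / 16) σ (mvR 𝔇 d n s q D false ω) := by
  have hval : D.Val (𝔇.gr d s.x D) := val_gr X.run (msh_pos _ _) hN.h16
  have hT := X.tst ω
  rw [Xi_self] at hT
  -- the true domain of the move and the set `P`
  have hTP : ∀ f ∈ D.tru (𝔇.gr d s.x D) (unt d n) (uS s q ω) κ, f ∈ blow (unt d n : ℤ) D.P →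
      f ∈ blow (unt d n : ℤ) (D.inr (𝔇.gr d s.x D)) := by
    have hM := hval.mvd hN.hu X.app hT.fin hT.ec hT.esc
    have hr := runS_blowR hN.hu hval.conD (hval.runS hv)
    have hlt : unt d n * D.n₂ (𝔇.gr d s.x D) < unt d n * cyl (D.inr (𝔇.gr d s.x D)) D.A := by
      have h1 := (hval.runK hv).lt_cyl (K := ∅) Dom.empty_mem
      rw [Dom.n2_empty, Dom.gK_empty] at h1
      exact Nat.mul_lt_mul_of_pos_left h1 hN.hu
    intro f hf hfP
    have h1 := (hM.closure hr.att hr.tip hr.con hlt).1 f hf hfP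
    rwa [(hval.runK hv).blow_inn' hN.hu] at h1
  have R := rdS_of_stopR hO.box hO.ndl hN.hu hval hv X.app.sub hTP hS
  obtain ⟨e1, e2, ⟨e3, e4, -⟩, e5, e6, -, e7, -⟩ := read_stop R
  have hρ : mvR 𝔇 d n s q D false ω = D.rcd (𝔇.gr d s.x D) (capR (𝔇.gr d s.x D).M)
      (visC (unt d n) s q ω (s.t + σ)) (stopI (unt d n) s q D (𝔇.gr d s.x D) ω (s.t + σ)) := by
    rw [mvR_reg hv, e1]
  refine ⟨(mvT_reg hv).trans e1, ?_⟩
  rw [hρ]
  exact
    { val := hval
      nv := hv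
      hu := hN.hu
      tst := hT
      app := X.app
      lab := ⟨_, _, _, _, _, _, X.lab⟩
      tgt := X.tgt
      offA := D.grd_tip (msh_pos _ _) hN.h16
      offB := D.grd_lfB (msh_pos _ _) hN.h16
      far := hN.far
      farB := hN.farB
      stop := hS
      rok := Dom.recOk_rcd e3 e4 (by
        have h1 : min (D.rno (𝔇.gr d s.x D) (stopI (unt d n) s q D (𝔇.gr d s.x D) ω (s.t + σ)))
            (capR (𝔇.gr d s.x D).M) =
            D.rno (𝔇.gr d s.x D) (stopI (unt d n) s q D (𝔇.gr d s.x D) ω (s.t + σ)) := e5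
        exact min_eq_left_iff.1 h1)
      kst := by
        rw [e6, e2]
        rfl
      ent := by
        have h1 : pth (cfS s.V q ω) (tS s q ω).1 σ = pS s.V q ω (s.t + σ) := pth_pS σ
        rw [h1]
        exact e7 }

/-- The coarse state after a stage with the running domain `D`. -/
theorem cs_next (hD : (𝔇.cs d s.x).run = some D) (hi : (𝔇.cs d s.x).ini = false) {ρ : Rec}
    (hE : ¬ D.End (𝔇.gr d s.x D) ρ) (hO : (D.nx (𝔇.gr d s.x D) ρ).Ok) :
    (𝔇.cs d (ρ :: s.x)).run = some (D.nx (𝔇.gr d s.x D) ρ) ∧ (𝔇.cs d (ρ :: s.x)).ini = false := by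
  rw [Dat.cs_cons, mv_run hD hi hE hO]
  exact ⟨rfl, rfl⟩

/-- **The invariant after a regular move, without the labels.** -/
theorem RunI.next_regB (X : RunI 𝔇 d n r s ω q D κ m x i₁ j₁ t j₂ i₂) (hO : StO n s q)
    (hN : NumO d n s.x.length r) (hv : ¬ D.Void (𝔇.gr d s.x D)) {σ : ℕ}
    (hS : D.regS (𝔇.gr d s.x D) (unt d n) (uS s q ω) κ (tS s q ω).1 (cfS s.V q ω) σ)
    (hE : ¬ D.End (𝔇.gr d s.x D) (mvR 𝔇 d n s q D false ω)) {r' : ℤ}
    (hr : r + 7 * (unt d n * msh d s.x.length) ≤ r')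
    (hs' : s' = ⟨s.V, some q, s.t + σ, mvR 𝔇 d n s q D false ω :: s.x⟩) :
    ∃ κ' m' x', RunB 𝔇 d n r' s' ω q
        (D.nx (𝔇.gr d s.x D) (mvR 𝔇 d n s q D false ω)) κ' m' x' ∧
      uS s' q ω = compT (uS s q ω \ (vs (cfS s.V q ω) (tS s q ω).1 0 σ : Set (ℤ × ℤ)))
        (inF (uS s q ω) (tS s q ω) x) ∧
      App (uS s' q ω) (blow (unt d n : ℤ) (D.nxP (𝔇.gr d s.x D) (mvR 𝔇 d n s q D false ω))) κ'
        (r + 7 * (unt d n * msh d s.x.length)) ∧
      Nxt (cfS s.V q ω) Set.univ (uS s q ω) (tS s q ω) m x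
        (vs (cfS s.V q ω) (tS s q ω).1 0 σ : Set (ℤ × ℤ)) (uS s' q ω)
        (dirE (pth (cfS s.V q ω) (tS s q ω).1 σ)) m' x' ∧
      (∀ x, x ∉ blow (unt d n : ℤ) D.P → ∀ y, y ∉ blow (unt d n : ℤ) D.P →
        (κ' x = κ' y ↔ κ x = κ y)) ∧
      ∀ x ∈ blow (unt d n : ℤ) (D.ent (𝔇.gr d s.x D) (mvR 𝔇 d n s q D false ω)),
        ∀ y ∈ blow (unt d n : ℤ) (D.ent (𝔇.gr d s.x D) (mvR 𝔇 d n s q D false ω)),
        κ' x = κ' y := by
  obtain ⟨-, R⟩ := X.rg hO hN hv hS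
  obtain ⟨ρ, hρ⟩ : ∃ ρ, ρ = mvR 𝔇 d n s q D false ω := ⟨_, rfl⟩
  rw [← hρ] at R hE hs' ⊢
  have hu : (0 : ℤ) < unt d n := by exact_mod_cast hN.hu
  have hL : (𝔇.gr d s.x D).L = msh d s.x.length := rfl
  have hr0 := X.app.d_pos
  have hLp : 0 ≤ (unt d n : ℤ) * msh d s.x.length := mul_nonneg hu.le (msh_pos _ _).le
  have hrr : r ≤ r' := by omega
  have hLater : Later s s' := by
    rw [hs']
    exact later_mk X.hq σ _
  have hvs : vs (cfS s.V q ω) (tS s q ω).1 0 σ = vS s.V q ω s.t (s.t + σ) := vs_pS σ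
  have hpt : pth (cfS s.V q ω) (tS s q ω).1 σ = pS s.V q ω (s.t + σ) := pth_pS σ
  have hst' : s'.t = s.t + σ := by rw [hs']
  have hf := (R.move hE).2.2
  have hy := R.tgt_step.1
  obtain ⟨hu', m', x', hNx⟩ := X.toRunB.nxt hLater R.pos hst' hO.box hO.sub
    (by rw [← hvs]; exact fun h => hy (mem_coe.2 h)) (by rw [← hvs, ← hpt]; exact hf)
  have hu'' : uS s' q ω = compT (uS s q ω \ (vs (cfS s.V q ω) (tS s q ω).1 0 σ : Set (ℤ × ℤ)))
      (inF (uS s q ω) (tS s q ω) x) := by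
    rw [hvs]
    exact hu'
  obtain ⟨κ', hA, hκ, hκE⟩ := R.app_next hE
  rw [← hu'', hL] at hA
  have hτ' : tS s' q ω = dirE (pS s.V q ω (s.t + σ)) := tS_step hLater.V hst'
  have hcs := cs_next X.run X.ini hE (R.ok hE)
  have hN0 := hNx ω
  refine ⟨κ', m', x', ?_, hu'', hA, ?_, hκ, hκE⟩
  · refine
      { hq := by rw [hs']
        run := by rw [hs']; exact hcs.1
        ini := by rw [hs']; exact hcs.2
        fre := ?_
        tst := fun ξ => (hNx ξ).st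
        app := hA.mono hr
        tgt := ?_
        near := ?_ }
    · rw [frS_step hLater.V hst', hLater.V, hst', ← hvs, ← hpt]
      have h1 := compT_sub (W := uS s q ω \ (vs (cfS s.V q ω) (tS s q ω).1 0 σ : Set (ℤ × ℤ)))
        ⟨X.tgt.1, hy⟩ hf
      exact ⟨compT_sub X.fre h1.1, h1.2⟩
    · have h1 := (R.tgt_step.2.2.1).mono (S' := Mv.sqF r' (ahead (subE (unt d n) D.B 0)))
        fun f hf => ⟨hf.1.trans hrr, hf.2.trans hrr⟩
      rw [← hu''] at h1
      have h2 : ahead (side (uS s' q ω) (tS s' q ω) x') = inF (uS s q ω) (tS s q ω) x := by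
        rw [hN0.tgt]
        rfl
      rw [h2]
      exact h1
    · rw [hτ']
      have h1 := (InvN.near_reg_val R.val hu R.rok hE (e := pS s.V q ω (s.t + σ))
        (by rw [← hpt]; exact R.ent)).1
      refine InvN.InB.mono h1 ?_
      rw [hL]
      omega
  · rw [Xi_self, hLater.V] at hN0
    rw [hpt, ← hτ', hvs]
    exact hN0

/-- **The invariant after a void move, without the labels.** -/
theorem RunB.next_voidB (X : RunB 𝔇 d n r s ω q D κ m x) (hN : NumO d n s.x.length r)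
    (hv : D.Void (𝔇.gr d s.x D)) {ρ : Rec} (hE : ¬ D.End (𝔇.gr d s.x D) ρ) {r' : ℤ}
    (hr : r + 7 * (unt d n * msh d s.x.length) ≤ r') (hs' : s' = ⟨s.V, some q, s.t, ρ :: s.x⟩) :
    ∃ κ', RunB 𝔇 d n r' s' ω q (D.nx (𝔇.gr d s.x D) ρ) κ' m x ∧
      uS s' q ω = uS s q ω ∧ tS s' q ω = tS s q ω ∧
      App (uS s q ω) (blow (unt d n : ℤ) (D.nxP (𝔇.gr d s.x D) ρ)) κ'
        (r + 7 * (unt d n * msh d s.x.length)) ∧
      (∀ x, x ∉ blow (unt d n : ℤ) D.P → ∀ y, y ∉ blow (unt d n : ℤ) D.P →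
        (κ' x = κ' y ↔ κ x = κ y)) ∧
      ∀ x ∈ blow (unt d n : ℤ) (D.ent (𝔇.gr d s.x D) ρ),
        ∀ y ∈ blow (unt d n : ℤ) (D.ent (𝔇.gr d s.x D) ρ), κ' x = κ' y := by
  have hval : D.Val (𝔇.gr d s.x D) := val_gr X.run (msh_pos _ _) hN.h16
  have hu : (0 : ℤ) < unt d n := by exact_mod_cast hN.hu
  have hL : (𝔇.gr d s.x D).L = msh d s.x.length := rfl
  have hr0 := X.app.d_pos
  have hLp : 0 ≤ (unt d n : ℤ) * msh d s.x.length := mul_nonneg hu.le (msh_pos _ _).le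
  have hrr : r ≤ r' := by omega
  have hrok : D.RecOk (𝔇.gr d s.x D) ρ := Dom.recOk_void hv
  have hsV : s'.V = s.V := by rw [hs']
  have hst : s'.t = s.t := by rw [hs']
  have hsq : s'.q = s.q := by rw [hs', X.hq]
  have e1 : uS s' q ω = uS s q ω := uS_void hsV hst
  have e2 : tS s' q ω = tS s q ω := tS_void hsV hst
  obtain ⟨κ', hA, hκ, hκE⟩ := hval.app_void hN.hu hv X.app (ρ := ρ)
  have hsub : blow (unt d n : ℤ) (D.nxP (𝔇.gr d s.x D) ρ) ⊆ uS s q ω := fun f hf =>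
    X.app.sub (hval.nxP_sub hE hf).1
  have hA' := hA.nxP hN.hu (hval.tgt_rem hE) hsub subset_rfl
  rw [hL] at hA'
  have hcs := cs_next X.run X.ini hE (hval.ok_next hrok hE (hval.esc_void_rest hN.hu hv))
  refine ⟨κ', ?_, e1, e2, hA', hκ, hκE⟩
  exact
    { hq := by rw [hs']
      run := by rw [hs']; exact hcs.1
      ini := by rw [hs']; exact hcs.2
      fre := by
        unfold frS
        rw [hsV, hst]
        exact X.fre
      tst := fun ξ => by
        rw [e1, e2, Xi_void hsV hsq hst]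
        exact X.tst ξ
      app := by
        rw [e1]
        exact hA'.mono hr
      tgt := by
        rw [e1, e2]
        exact TgG.mono (S' := Mv.sqF r' (ahead (subE (unt d n) D.B 0))) X.tgt
          fun f hf => ⟨hf.1.trans hrr, hf.2.trans hrr⟩
      near := by
        rw [e2]
        refine InvN.InB.mono (InvN.near_void_val hval hu hrok hE hv X.near) ?_
        rw [hL]
        omega }

end Pool.Agent.SixB.Tru
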