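import Pool.Agent.Lib.SixB.S8CountR
import Pool.Agent.Lib.SixB.S8CountG
import Pool.Agent.Lib.SixB.S8CountJ
import Pool.Agent.Lib.SixB.S8CountTc
import Pool.Agent.Lib.SixB.S8InvB

/-!
# Step 8, number of moves: LEMMA M on the chain

* `McT`: a move which is not the end of the step, at the time `T₁` of the exploration with the target side
  `B` (`Cnt.Tg`); `McT.numL`, `McT.numR`: the marks `MkL`, `MkR` in the numbers from the target side;
* `McT.pairL`, `McT.pairR`: the field `claimA` of `StkC.Marks`;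
* `Mc.dsc`, `dsc_seq`: later domains;
* `Tru.mc_of_run`: the data `Mc` for a move of the true chain.
-/

set_option autoImplicit false

namespace Pool.Agent.SixB.Mv

open Finset Pool.Agent.Perc Pool.Agent.Perc6 Pool.Agent.PercT Pool.Agent.Perc6.C2Aux
open Pool.Agent.Perc.Tips Pool.Agent.SixB Pool.Agent.SixB.Top Pool.Agent.SixB.Blow
open Pool.Agent.SixB.CloK Pool.Agent.SixB.NearCut

/-! ### Later domains -/

/-- One more move. -/
theorem Mc.dsc {s s₀ : Dom} {g : Grd} {u : ℕ} {ζ : Cfg} {U : Set (ℤ × ℤ)} {κ : ℤ × ℤ → ℤ × ℤ}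
    {r : ℤ} {τ : UE × Bool} {mU x i₁ j₁ t j₂ i₂ : ℕ} {lA lB : ℤ} {σ : ℕ} {ρ : Rec}
    (h : Mc s g u ζ U κ r τ mU x i₁ j₁ t j₂ i₂ lA lB σ ρ) {R : ℤ} (hR : R ≤ 3 * r + 4)
    (D : Dsc u R s₀ s) : Dsc u R s₀ (s.nx g ρ) :=
  .step D h.val h.rok h.nE (cell_side h.hu h.val.hL h.offB (by have := h.farB; omega))

/-- A sequence of moves. -/
theorem dsc_seq {S : ℕ → Dom} {G : ℕ → Grd} {X : ℕ → Rec} {u : ℕ} {R : ℤ} {a b : ℕ} (hab : a ≤ b)
    (h : ∀ i, a ≤ i → i < b → (S i).Val (G i) ∧ (S i).RecOk (G i) (X i) ∧ ¬ (S i).End (G i) (X i) ∧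
      S (i + 1) = (S i).nx (G i) (X i) ∧ ∀ f ∈ sqF R (ahead (subE u (S i).B 0)),
        gc (u * (G i).a) (u * (G i).b) (u * (G i).L) f =
          gc (u * (G i).a) (u * (G i).b) (u * (G i).L) (ahead (subE u (S i).B 0))) :
    Dsc u R (S a) (S b) := by
  obtain ⟨k, rfl⟩ := Nat.exists_eq_add_of_le hab
  induction k with
  | zero => exact .refl
  | succ k ih =>
    have h1 := ih (by omega) fun i h2 h3 => h i h2 (by omega)
    obtain ⟨h2, h3, h4, h5, h6⟩ := h (a + k) (by omega) (by omega)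
    have e : a + (k + 1) = a + k + 1 := rfl
    rw [e, h5]
    exact .step h1 h2 h3 h4 h6

/-! ### A move in the numbers from the target side -/

/-- A move which is not the end of the step, at the time `T₁` of the exploration with the target side
`B`. -/
structure McT (e : UE) (U₀ : Set (ℤ × ℤ)) (B : UE × Bool) (T₁ : ℕ) (s : Dom) (g : Grd) (u : ℕ)
    (ζ : Cfg) (U : Set (ℤ × ℤ)) (κ : ℤ × ℤ → ℤ × ℤ) (r : ℤ) (τ : UE × Bool)
    (mU x i₁ j₁ t j₂ i₂ : ℕ) (lA lB : ℤ) (σ : ℕ) (ρ : Rec) : Prop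
    extends Mc s g u ζ U κ r τ mU x i₁ j₁ t j₂ i₂ lA lB σ ρ where
  eU : Cnt.uT ζ e U₀ B T₁ = U
  eT : τ.1 = pth ζ e T₁
  eB : side U τ x = B
  near : LC.InB (lf (subE u s.A 0)) r (rg τ)

namespace McT

variable {s : Dom} {g : Grd} {u : ℕ} {ζ : Cfg} {U : Set (ℤ × ℤ)} {κ : ℤ × ℤ → ℤ × ℤ}
  {r : ℤ} {τ : UE × Bool} {mU x i₁ j₁ t j₂ i₂ : ℕ} {lA lB : ℤ} {σ : ℕ} {ρ : Rec}
  {e : UE} {U₀ : Set (ℤ × ℤ)} {B : UE × Bool} {T₁ T₂ T N : ℕ}
  (h : McT e U₀ B T₁ s g u ζ U κ r τ mU x i₁ j₁ t j₂ i₂ lA lB σ ρ)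

include h

/-- The numbers. -/
theorem idx (hG : Cnt.Tg ζ e U₀ N B T) (hT : T₁ ≤ T) :
    Cnt.th ζ e U₀ B T₁ = T₁ ∧ Cnt.pL ζ e U₀ B T₁ = mU ∧ Cnt.jT ζ e U₀ B T₁ = mU - x ∧
      (∀ i, side (Cnt.uT ζ e U₀ B T₁) B i = side U τ (x + i)) ∧
      ∀ i ≤ x, side (Cnt.uT ζ e U₀ B T₁) B (Cnt.pL ζ e U₀ B T₁ - i) = side U τ (x - i) := by
  have hU := h.eU
  have h1 := hG.idx hT (τ₀ := τ) (mU := mU) (kt := x)
    (by
      rw [hU, ← h.eT, h.tst.fwd]
      exact h.tst.cyc.bd.1)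
    (by rw [hU]; exact h.tst.cyc.bd) h.eT (by rw [hU]; exact CntM.cyc_per h.tst.cyc) h.tst.lt
    (by rw [hU]; exact h.eB)
  rw [hU] at h1 ⊢
  exact h1

/-- The room of the stage. -/
theorem rm (hG : Cnt.Tg ζ e U₀ N B T) (hT : T₁ ≤ T) : Cnt.Rm ζ e U₀ T₁ U := by
  have h1 := hG.rm hT
  rwa [h.eU] at h1

/-- The true tip side is near the coarse tip side. -/
theorem tip_near : ahead τ ∈ sqF (r + 2) (ahead (subE u s.A 0)) := by
  have h1 := h.near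
  have h2 : IsCor (ahead τ) (rg τ) := isCor_in_rg τ
  have h3 : IsCor (ahead (subE u s.A 0)) (lf (subE u s.A 0)) := isCor_in_lf _
  unfold LC.InB at h1
  unfold IsCor at h2 h3
  unfold sqF
  rw [Set.mem_ofPred_eq, abs_le, abs_le]
  omega

/-- **The marks on the left** in the numbers from the target side. -/
theorem numL (hG : Cnt.Tg ζ e U₀ N B T) (hT : T₁ ≤ T) {R R' : ℤ} {w k v vk : ℕ}
    (M : CntM.MkL U (blow u s.P) κ (subE u s.A 0) τ R R' mU x j₁ j₂ i₂ (blow u (s.ent g ρ))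
      w k v vk) :
    v - x < vk - x ∧ vk - x < Cnt.jT ζ e U₀ B T₁ ∧
      side (Cnt.uT ζ e U₀ B T₁) B (v - x) = side U τ v ∧
      side (Cnt.uT ζ e U₀ B T₁) B (vk - x) = side U τ vk := by
  obtain ⟨-, -, h3, h4, -⟩ := h.idx hG hT
  have h5 := M.kv
  have h6 := M.vv
  have h7 := M.vm
  refine ⟨by omega, by omega, ?_, ?_⟩
  · rw [h4, Nat.add_sub_cancel' h5]
  · rw [h4, Nat.add_sub_cancel' (by omega)]

/-- **The marks on the right** in the numbers from the target side. -/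
theorem numR (hG : Cnt.Tg ζ e U₀ N B T) (hT : T₁ ≤ T) {R R' : ℤ} (hR : r + 2 ≤ R')
    {w k v vk : ℕ}
    (M : CntM.MkR U (blow u s.P) κ (subE u s.A 0) τ R R' x i₁ j₁ j₂ (blow u (s.ent g ρ))
      w k v vk) :
    x - v < x - vk ∧ x - vk < Cnt.pL ζ e U₀ B T₁ - Cnt.jT ζ e U₀ B T₁ ∧
      side (Cnt.uT ζ e U₀ B T₁) B (Cnt.pL ζ e U₀ B T₁ - (x - v)) = side U τ v ∧
      side (Cnt.uT ζ e U₀ B T₁) B (Cnt.pL ζ e U₀ B T₁ - (x - vk)) = side U τ vk := by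
  obtain ⟨-, h2, h3, -, h5⟩ := h.idx hG hT
  have h6 := M.vv
  have h7 := M.vk
  have h8 := h.tst.lt
  have h9 : vk ≠ 0 := by
    rintro rfl
    exact M.fr (CntM.sqF_mono hR h.tip_near)
  refine ⟨by omega, by omega, ?_, ?_⟩
  · rw [h5 _ (by omega)]
    congr 1
    omega
  · rw [h5 _ (by omega)]
    congr 1
    omega


/-! ### Two stages -/

variable {s' : Dom} {g' : Grd} {U' : Set (ℤ × ℤ)} {κ' : ℤ × ℤ → ℤ × ℤ} {r' : ℤ}
  {τ' : UE × Bool} {mU' x' i₁' j₁' t' j₂' i₂' : ℕ} {lA' lB' : ℤ} {σ' : ℕ} {ρ' : Rec}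
  {R R₁ R₂ R' δ : ℤ} {w k v vk w' k' v' vk' : ℕ}

omit h in
/-- The time of the stop is at most the last time. -/
theorem le_N (hG : Cnt.Tg ζ e U₀ N B T) (h12 : T₁ + σ ≤ T₂) (hT : T₂ ≤ T) : T₁ + σ ≤ N := by
  obtain ⟨t₁, ht, h1⟩ := hG.hit
  by_contra hcon
  exact hG.fresh (h1 ▸ fa_mem_vs (Nat.zero_le _) (by omega))

/-- **Claim A on the left**: the field `claimA` of `StkC.Marks`, with `e = v - x`, `h = vk - x`. -/
theorem pairL (hG : Cnt.Tg ζ e U₀ N B T)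
    (h' : McT e U₀ B T₂ s' g' u ζ U' κ' r' τ' mU' x' i₁' j₁' t' j₂' i₂' lA' lB' σ' ρ')
    (h12 : T₁ + σ ≤ T₂) (hT : T₂ ≤ T) (D : Dsc u (r + 1) (s.nx g ρ) s')
    (M : CntM.MkL U (blow u s.P) κ (subE u s.A 0) τ (R + r) R₁ mU x j₁ j₂ i₂
      (blow u (s.ent g ρ)) w k v vk)
    (M' : CntM.MkL U' (blow u s'.P) κ' (subE u s'.A 0) τ' R₂ R' mU' x' j₁' j₂' i₂'
      (blow u (s'.ent g' ρ')) w' k' v' vk')
    (hER : ∀ f ∈ blow u (s.ent g ρ), f ∈ sqF R (ahead (subE u s.A 0)))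
    (hδ : |(ahead (subE u s.A 0)).1 - (ahead (subE u s'.A 0)).1| ≤ δ ∧
      |(ahead (subE u s.A 0)).2 - (ahead (subE u s'.A 0)).2| ≤ δ)
    (hn : R + r + δ ≤ R') (hn' : 2 * r + 1 + δ ≤ R')
    (hold : Cnt.bS ζ e U₀ (side (Cnt.uT ζ e U₀ B T₂) B (vk' - x')) ≤ T₁) :
    vk' - x' < v - x := by
  have hu' : (0 : ℤ) < u := by exact_mod_cast h.hu
  have hT1 : T₁ ≤ T := by omega
  obtain ⟨-, -, a3, a4, -⟩ := h.idx hG hT1
  obtain ⟨-, -, b3, b4, -⟩ := h'.idx hG hT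
  have c1 := M'.kv
  have c2 := M'.vv
  have c3 := M'.vm
  have c4 := M.kv
  have c5 := M.vv
  have c6 := M.vm
  have c7 := h.lab.ij
  have c8 := h.lab.jt
  have c9 := h.lab.tj
  -- the side is old
  obtain ⟨d1, d2⟩ := hG.stk_right.eq (by omega) hT (i := vk' - x') (by rw [b3]; omega) hold
  have hq : side U τ (x + (vk' - x')) = side U' τ' vk' := by
    have e1 : side U' τ' vk' = side U' τ' (x' + (vk' - x')) := by
      congr 1
      omega
    rw [e1, ← a4, ← b4]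
    exact d2.symm
  rw [a3] at d1
  obtain ⟨hPP, hPE⟩ := h.later_sub D
  have hb0 := h.near_later D (i := j₁ - 1) (by omega) (by omega)
  have hUU : U' ⊆ U := rm_sub (h.rm hG hT1) (h'.rm hG hT) (by omega)
    (h.app.sub (hPP hb0)) (h'.app.sub hb0)
  have hz := h.stg.hz_left hER M.nl M'.fl hδ hn (by omega)
  have key := h.stg.claimA_left (h.strd hG.bas (h.rm hG hT1) h.eT (le_N hG h12 hT))
    (w := w) (r := k) (v := v) M.jw M.wr (M.ri.trans_le h.lab.im) M.E M.rb M.ry M.kv (by omega)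
    M.lw
    (fun l h1 h2 => by
      have h3 := h.hbv (i := j₁ - 1) (by omega) (by omega) (l := l - T₁) (by omega)
      rwa [h.eT, pth_add, show T₁ + (l - T₁) = l by omega] at h3)
    h'.app (econn_blow hu' h'.val.con) (bd_subE hu' h'.val.bdA le_rfl hu') hUU
    (fun l _ h2 => rm_vis (h'.rm hG hT) (by omega)) hPP hPE hb0 (r' := k') (v' := vk')
    (q := x + (vk' - x')) hz M'.lr hq (by omega) (by omega)
  omega

/-- **Claim A on the right**: the field `claimA` of `StkC.Marks`, with `e = x - v`, `h = x - vk`. -/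
theorem pairR (hG : Cnt.Tg ζ e U₀ N B T)
    (h' : McT e U₀ B T₂ s' g' u ζ U' κ' r' τ' mU' x' i₁' j₁' t' j₂' i₂' lA' lB' σ' ρ')
    (h12 : T₁ + σ ≤ T₂) (hT : T₂ ≤ T) (D : Dsc u (r + 1) (s.nx g ρ) s')
    (M : CntM.MkR U (blow u s.P) κ (subE u s.A 0) τ (R + r) R₁ x i₁ j₁ j₂
      (blow u (s.ent g ρ)) w k v vk)
    (M' : CntM.MkR U' (blow u s'.P) κ' (subE u s'.A 0) τ' R₂ R' x' i₁' j₁' j₂'
      (blow u (s'.ent g' ρ')) w' k' v' vk')
    (hr' : r' + 2 ≤ R')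
    (hER : ∀ f ∈ blow u (s.ent g ρ), f ∈ sqF R (ahead (subE u s.A 0)))
    (hδ : |(ahead (subE u s.A 0)).1 - (ahead (subE u s'.A 0)).1| ≤ δ ∧
      |(ahead (subE u s.A 0)).2 - (ahead (subE u s'.A 0)).2| ≤ δ)
    (hn : R + r + δ ≤ R') (hn' : 2 * r + 1 + δ ≤ R')
    (hold : Cnt.bS ζ e U₀ (side (Cnt.uT ζ e U₀ B T₂) B (Cnt.pL ζ e U₀ B T₂ - (x' - vk'))) ≤ T₁) :
    x' - vk' < x - v := by
  have hu' : (0 : ℤ) < u := by exact_mod_cast h.hu
  have hT1 : T₁ ≤ T := by omega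
  obtain ⟨-, a2, a3, -, a5⟩ := h.idx hG hT1
  obtain ⟨-, b2, b3, -, b5⟩ := h'.idx hG hT
  have c1 := M'.vv
  have c2 := M'.vk
  have c4 := M.vv
  have c5 := M.vk
  have c7 := h.lab.ij
  have c8 := h.lab.jt
  have c9 := h.lab.tj
  have l1 := h.tst.lt
  have l2 := h'.tst.lt
  -- the side is old
  obtain ⟨d1, d2⟩ := hG.stk_left.eq (by omega) hT (i := x' - vk')
    (h'.numR hG hT hr' M').2.1 hold
  have d3 : x' - vk' < x := by
    have d1' : x' - vk' < Cnt.pL ζ e U₀ B T₁ - Cnt.jT ζ e U₀ B T₁ := d1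
    omega
  have hq : side U τ (x - (x' - vk')) = side U' τ' vk' := by
    have e1 : side U' τ' vk' = side U' τ' (x' - (x' - vk')) := by
      congr 1
      omega
    rw [e1, ← a5 _ d3.le, ← b5 _ (by omega)]
    exact d2.symm
  obtain ⟨hPP, hPE⟩ := h.later_sub D
  have hy0 := h.near_later D (i := j₂ + 1) (by omega) le_rfl
  have hUU : U' ⊆ U := rm_sub (h.rm hG hT1) (h'.rm hG hT) (by omega)
    (h.app.sub (hPP hy0)) (h'.app.sub hy0)
  have hz := h.stg.hz_right hER M.nl M'.fl hδ hn (by omega)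
  have key := h.stg.claimA_right (h.strd hG.bas (h.rm hG hT1) h.eT (le_N hG h12 hT))
    (w := w) (r := k) (v := v) M.wj M.rw M.E M.rb M.ry M.vk M.lw
    (fun l h1 h2 => by
      have h3 := h.hbv (i := j₂ + 1) (by omega) le_rfl (l := l - T₁) (by omega)
      rwa [h.eT, pth_add, show T₁ + (l - T₁) = l by omega] at h3)
    h'.app (econn_blow hu' h'.val.con) (bd_subE hu' h'.val.bdA le_rfl hu') hUU
    (fun l _ h2 => rm_vis (h'.rm hG hT) (by omega)) hPP hPE hy0 (r' := k') (v' := vk')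
    (q := x - (x' - vk')) hz M'.lr hq
  omega

end McT

end Pool.Agent.SixB.Mv

namespace Pool.Agent.SixB.Tru

open Finset Pool.Agent.Perc Pool.Agent.Perc6 Pool.Agent.PercT Pool.Agent.Perc6.C2Aux
open Pool.Agent.SixB Pool.Agent.SixB.Rule Pool.Agent.SixB.Dct Pool.Agent.SixB.Mv
open Pool.Agent.SixB.Blow (subE)
open Pool.Agent.SixB.Top (compT ChI lf rg)
open Pool.Agent.SixB.NearCut (Nb)
open Pool.Agent.Perc.Tips

variable {𝔇 : Dat} {d : ℕ → ℕ} {n : ℕ} {r : ℤ} {s s' : TS} {ω : Cfg} {q : Rule.Ndl} {D : Dom}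
  {κ : ℤ × ℤ → ℤ × ℤ} {m x i₁ j₁ t j₂ i₂ : ℕ}

/-- The room of a state. -/
theorem RunB.room (h : RunB 𝔇 d n r s ω q D κ m x) :
    Cnt.Rm (cfS s.V q ω) (eS s.V q) (FU s.V \ QF q.1) s.t (uS s q ω) :=
  Cnt.rm_compT h.fre

/-- **The data `Mc` for a move of the true chain.** -/
theorem mc_of_run (X : RunI 𝔇 d n r s ω q D κ m x i₁ j₁ t j₂ i₂) (hO : StO n s q)
    (hN : NumO d n s.x.length r) (M : CntJ.MvS 𝔇 d n ω s s' q D)
    (hS : ¬ D.Void (𝔇.gr d s.x D) → ∃ σ, D.regS (𝔇.gr d s.x D) (unt d n) (uS s q ω) κ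
      (tS s q ω).1 (cfS s.V q ω) σ) :
    ∃ σ, s'.t = s.t + σ ∧ Mc D (𝔇.gr d s.x D) (unt d n) (cfS s.V q ω) (uS s q ω) κ r (tS s q ω)
      m x i₁ j₁ t j₂ i₂ (msh d s.x.length / 5) (msh d s.x.length / 16) σ
      (mvR 𝔇 d n s q D false ω) := by
  have hval : D.Val (𝔇.gr d s.x D) := val_gr X.run (msh_pos _ _) hN.h16
  have hT := X.tst ω
  rw [Xi_self] at hT
  by_cases hv : D.Void (𝔇.gr d s.x D)
  · refine ⟨0, by rw [M.t, mvT_void hv, Nat.add_zero], ?_⟩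
    exact
      { val := hval, hu := hN.hu, rok := Dom.recOk_void hv, nE := M.nend, tst := hT, app := X.app
        lab := X.lab, sep := X.sep, tgt := X.tgt, offA := D.grd_tip (msh_pos _ _) hN.h16
        offB := D.grd_lfB (msh_pos _ _) hN.h16, far := hN.far, farB := hN.farB
        mov := Or.inl ⟨hv, rfl⟩ }
  · obtain ⟨σ, hσ⟩ := hS hv
    obtain ⟨h1, R⟩ := X.rg hO hN hv hσ
    refine ⟨σ, by rw [M.t, h1], ?_⟩
    exact
      { val := hval, hu := hN.hu, rok := R.rok, nE := M.nend, tst := hT, app := X.app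
        lab := X.lab, sep := X.sep, tgt := X.tgt, offA := R.offA, offB := R.offB
        far := hN.far, farB := hN.farB, mov := Or.inr ⟨hv, hσ, R.kst, R.ent⟩ }

/-- A stage with the tip beside the target is the end of the step: the other stages have labels. -/
theorem runI_of_nend (h : RunV 𝔇 d n r s ω) (hN : NumO d n s.x.length r) (hq : s.q = some q)
    (hD : (𝔇.cs d s.x).run = some D) (hi : (𝔇.cs d s.x).ini = false) {ρ : Rec}
    (hE : ¬ D.End (𝔇.gr d s.x D) ρ) :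
    ∃ κ m x i₁ j₁ t j₂ i₂, RunI 𝔇 d n r s ω q D κ m x i₁ j₁ t j₂ i₂ := by
  rcases h q D hq hD hi with h1 | ⟨κ, m, x, h1⟩
  · exact h1
  · exfalso
    have hval : D.Val (𝔇.gr d s.x D) := val_gr hD (msh_pos _ _) hN.h16
    have h2 := hval.near_end_f hN.hu (R := 3 * r) (cell_side hN.hu hval.hL
      (D.grd_lfB (msh_pos _ _) hN.h16) (by have := hN.farB; omega)) h1.nrB ρ
    exact hE h2.2

end Pool.Agent.SixB.Tru
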