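import Pool.Agent.Lib.SixB.S8CountRc
import Pool.Agent.Lib.SixB.S8CountP
import Pool.Agent.Lib.SixB.S8CountD

/-!
# Step 8, number of moves: Claim A for the stages of one needle

* `Seq`: the moves `0, …, K - 1` of one needle which are not the end of the step, with the chosen data of
  every stage;
* `Seq.cll`, `Seq.clr`: the fields `cll`, `clr` of `CntS.Stp`.
-/

set_option autoImplicit false

namespace Pool.Agent.SixB.Tru

open Finset Pool.Agent.Perc Pool.Agent.Perc6 Pool.Agent.PercT Pool.Agent.Perc6.C2Aux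
open Pool.Agent.SixB Pool.Agent.SixB.Rule Pool.Agent.SixB.Dct Pool.Agent.SixB.Mv
open Pool.Agent.SixB.Blow (subE econn_blow bd_subE)
open Pool.Agent.SixB.Top (compT ChI lf rg)
open Pool.Agent.SixB.NearCut (Nb)
open Pool.Agent.SixB.CountP (sd sd_le_iff)
open Pool.Agent.Perc.Tips

/-- The moves `0, …, K - 1` of one needle which are not the end of the step. -/
structure Seq (𝔇 : Dat) (d : ℕ → ℕ) (n : ℕ) (ω : Cfg) (q : Rule.Ndl) (K : ℕ) (S : ℕ → TS)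
    (D : ℕ → Dom) (r : ℕ → ℤ) (κ : ℕ → ℤ × ℤ → ℤ × ℤ) (m x i₁ j₁ t j₂ i₂ σ : ℕ → ℕ) : Prop where
  wll : (exS (S 0).V q).Wll ω
  back : fb (eS (S 0).V q) ∉ FU (S 0).V \ QF q.1
  inv : ∀ i < K, RunI 𝔇 d n (r i) (S i) ω q (D i) (κ i) (m i) (x i) (i₁ i) (j₁ i) (t i) (j₂ i)
    (i₂ i)
  mv : ∀ i < K, CntJ.MvS 𝔇 d n ω (S i) (S (i + 1)) q (D i)
  tm : ∀ i < K, (S (i + 1)).t = (S i).t + σ i
  mc : ∀ i < K, Mc (D i) (𝔇.gr d (S i).x (D i)) (unt d n) (cfS (S i).V q ω) (uS (S i) q ω) (κ i)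
    (r i) (tS (S i) q ω) (m i) (x i) (i₁ i) (j₁ i) (t i) (j₂ i) (i₂ i)
    (msh d (S i).x.length / 5) (msh d (S i).x.length / 16) (σ i) (mvR 𝔇 d n (S i) q (D i) false ω)
  mono : ∀ i j, i ≤ j → j < K → r i ≤ r j

namespace Seq

variable {𝔇 : Dat} {d : ℕ → ℕ} {n : ℕ} {ω : Cfg} {q : Rule.Ndl} {K : ℕ} {S : ℕ → TS}
  {D : ℕ → Dom} {r : ℕ → ℤ} {κ : ℕ → ℤ × ℤ → ℤ × ℤ} {m x i₁ j₁ t j₂ i₂ σ : ℕ → ℕ}
  (H : Seq 𝔇 d n ω q K S D r κ m x i₁ j₁ t j₂ i₂ σ)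

include H

theorem V_eq {i : ℕ} (hi : i ≤ K) : (S i).V = (S 0).V := by
  induction i with
  | zero => rfl
  | succ i ih => rw [(H.mv i (by omega)).V, ih (by omega)]

theorem t_le {i j : ℕ} (hij : i ≤ j) (hj : j ≤ K) : (S i).t ≤ (S j).t := by
  induction j, hij using Nat.le_induction with
  | base => exact le_rfl
  | succ j h1 ih =>
    have := H.tm j (by omega)
    have := ih (by omega)
    omega

theorem D_succ {i : ℕ} (hi : i + 1 < K) :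
    D (i + 1) = (D i).nx (𝔇.gr d (S i).x (D i)) (mvR 𝔇 d n (S i) q (D i) false ω) := by
  have h1 := (H.mv i (by omega)).run'
  have h2 := (H.mv (i + 1) hi).run
  rw [h1] at h2
  exact (Option.some.inj h2).symm

/-- The later domains. -/
theorem dsc {k k2 : ℕ} (hk : k < k2) (hk2 : k2 < K) : Dsc (unt d n) (r k + 1)
    ((D k).nx (𝔇.gr d (S k).x (D k)) (mvR 𝔇 d n (S k) q (D k) false ω)) (D k2) := by
  rw [← H.D_succ (by omega)]
  induction k2, hk using Nat.le_induction with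
  | base => exact .refl
  | succ j h1 ih =>
    rw [H.D_succ hk2]
    have h2 := H.mono k j (by omega) (by omega)
    have h3 := (H.mc j (by omega)).app.d_pos
    exact (H.mc j (by omega)).dsc (by omega) (ih (by omega))

/-- The start of the exploration. -/
theorem bas {k : ℕ} (hk : k < K) :
    Cnt.Bas (cfS (S 0).V q ω) (eS (S 0).V q) (FU (S 0).V \ QF q.1) (S k).t := by
  have hnb := (H.inv k hk).toRunB.nb
  rw [H.V_eq hk.le] at hnb
  have h0 : Cnt.Bas ((exS (S 0).V q).cf ω) ((exS (S 0).V q).e ω) ((exS (S 0).V q).U ω) (S k).t :=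
    Cnt.bas_of_wll H.wll H.back hnb
  exact h0

/-- The room of a stage. -/
theorem rm {k : ℕ} (hk : k < K) :
    Cnt.Rm (cfS (S 0).V q ω) (eS (S 0).V q) (FU (S 0).V \ QF q.1) (S k).t (uS (S k) q ω) := by
  have h1 := (H.inv k hk).room
  rwa [H.V_eq hk.le] at h1

/-- The distance of the coarse tips. -/
theorem dist {k k2 : ℕ} (hk : k < K) (hk2 : k2 < K) {δ : ℤ}
    (hsd : sd (ua (pS (S k).V q ω (S k).t)) (ua (pS (S k2).V q ω (S k2).t)) ≤ δ) :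
    |(ahead (subE (unt d n) (D k).A 0)).1 - (ahead (subE (unt d n) (D k2).A 0)).1| ≤
        δ + r k + r k2 + 4 ∧
      |(ahead (subE (unt d n) (D k).A 0)).2 - (ahead (subE (unt d n) (D k2).A 0)).2| ≤
        δ + r k + r k2 + 4 := by
  have h1 := CntM.tip_dist (H.inv k hk).near
  have h2 := CntM.tip_dist (H.inv k2 hk2).near
  have e1 : (tS (S k) q ω).1 = pS (S k).V q ω (S k).t := rfl
  have e2 : (tS (S k2) q ω).1 = pS (S k2).V q ω (S k2).t := rfl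
  rw [e1] at h1
  rw [e2] at h2
  rw [sd_le_iff] at hsd
  rw [abs_le, abs_le] at h1 h2 ⊢
  omega

/-- **Claim A, left**: the field `cll` of `CntS.Stp`. -/
theorem cll {k k2 : ℕ} (hk : k < k2) (hk2 : k2 < K) {R R₁ R₂ R₃ R' δ : ℤ}
    {w a v b w2 a2 v2 b2 : ℕ} {E' : Set (ℤ × ℤ)}
    (M : CntM.MkL (uS (S k) q ω) (blow (unt d n : ℤ) (D k).P) (κ k) (subE (unt d n) (D k).A 0)
      (tS (S k) q ω) R₁ R₂ (m k) (x k) (j₁ k) (j₂ k) (i₂ k) (blow (unt d n : ℤ)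
        ((D k).ent (𝔇.gr d (S k).x (D k)) (mvR 𝔇 d n (S k) q (D k) false ω))) w a v b)
    (M2 : CntM.MkL (uS (S k2) q ω) (blow (unt d n : ℤ) (D k2).P) (κ k2)
      (subE (unt d n) (D k2).A 0) (tS (S k2) q ω) R₃ R' (m k2) (x k2) (j₁ k2) (j₂ k2) (i₂ k2) E'
      w2 a2 v2 b2)
    (hER : ∀ f ∈ blow (unt d n : ℤ)
      ((D k).ent (𝔇.gr d (S k).x (D k)) (mvR 𝔇 d n (S k) q (D k) false ω)),
      f ∈ Mv.sqF R (ahead (subE (unt d n) (D k).A 0))) (hR1 : r k + 1 ≤ R)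
    (hsd : sd (ua (pS (S k).V q ω (S k).t)) (ua (pS (S k2).V q ω (S k2).t)) ≤ δ)
    (hn : R + 2 * r k + 2 * r k2 + δ + 4 ≤ R') {p : ℕ} (hxp : x k ≤ p) (hpm : p < m k)
    (hs : side (uS (S k) q ω) (tS (S k) q ω) p = side (uS (S k2) q ω) (tS (S k2) q ω) b2) :
    p < v := by
  have C := H.mc k (by omega)
  have hb := H.bas hk2
  have hRm := H.rm (k := k) (by omega)
  have hRm2 := H.rm hk2
  rw [← H.V_eq (i := k) (by omega)] at hb hRm hRm2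
  have ht := H.tm k (by omega)
  have ht2 := H.t_le (i := k + 1) (j := k2) (by omega) (by omega)
  have X2 := H.inv k2 hk2
  have hd := H.dist (k := k) (by omega) hk2 hsd
  have hτ : (tS (S k) q ω).1 = pth (cfS (S k).V q ω) (eS (S k).V q) (S k).t := rfl
  have hok : (D k2).Ok := cst_ok X2.run
  have hD := H.dsc hk hk2
  refine C.claimA_left hb hRm hτ hRm2 (by omega) (by omega) hok hD X2.app
    M.jw M.wr (M.ri.trans_le C.lab.im) M.E M.rb M.ry M.kv (by have := M.vv; have := M.vm; omega)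
    M.lw hER hR1 (k' := a2) (v' := b2) ?_ M2.lr hs hxp hpm
  intro hf
  exact M2.fi (CntM.sqF_tri hf (by omega) hd)

/-- **Claim A, right**: the field `clr` of `CntS.Stp`. -/
theorem clr {k k2 : ℕ} (hk : k < k2) (hk2 : k2 < K) {R R₁ R₂ R₃ R' δ : ℤ}
    {w a v b w2 a2 v2 b2 : ℕ} {E' : Set (ℤ × ℤ)}
    (M : CntM.MkR (uS (S k) q ω) (blow (unt d n : ℤ) (D k).P) (κ k) (subE (unt d n) (D k).A 0)
      (tS (S k) q ω) R₁ R₂ (x k) (i₁ k) (j₁ k) (j₂ k) (blow (unt d n : ℤ)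
        ((D k).ent (𝔇.gr d (S k).x (D k)) (mvR 𝔇 d n (S k) q (D k) false ω))) w a v b)
    (M2 : CntM.MkR (uS (S k2) q ω) (blow (unt d n : ℤ) (D k2).P) (κ k2)
      (subE (unt d n) (D k2).A 0) (tS (S k2) q ω) R₃ R' (x k2) (i₁ k2) (j₁ k2) (j₂ k2) E'
      w2 a2 v2 b2)
    (hER : ∀ f ∈ blow (unt d n : ℤ)
      ((D k).ent (𝔇.gr d (S k).x (D k)) (mvR 𝔇 d n (S k) q (D k) false ω)),
      f ∈ Mv.sqF R (ahead (subE (unt d n) (D k).A 0))) (hR1 : r k + 1 ≤ R)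
    (hsd : sd (ua (pS (S k).V q ω (S k).t)) (ua (pS (S k2).V q ω (S k2).t)) ≤ δ)
    (hn : R + 2 * r k + 2 * r k2 + δ + 4 ≤ R') {p : ℕ}
    (hs : side (uS (S k) q ω) (tS (S k) q ω) p = side (uS (S k2) q ω) (tS (S k2) q ω) b2) :
    v < p := by
  have C := H.mc k (by omega)
  have hb := H.bas hk2
  have hRm := H.rm (k := k) (by omega)
  have hRm2 := H.rm hk2
  rw [← H.V_eq (i := k) (by omega)] at hb hRm hRm2
  have ht := H.tm k (by omega)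
  have ht2 := H.t_le (i := k + 1) (j := k2) (by omega) (by omega)
  have X2 := H.inv k2 hk2
  have hd := H.dist (k := k) (by omega) hk2 hsd
  have hτ : (tS (S k) q ω).1 = pth (cfS (S k).V q ω) (eS (S k).V q) (S k).t := rfl
  have hok : (D k2).Ok := cst_ok X2.run
  have hD := H.dsc hk hk2
  refine C.claimA_right hb hRm hτ hRm2 (by omega) (by omega) hok hD
    X2.app M.wj M.rw M.E M.rb M.ry M.vk M.lw hER hR1 (k' := a2) (v' := b2) ?_ M2.lr hs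
  intro hf
  exact M2.fi (CntM.sqF_tri hf (by omega) hd)

end Seq

/-- **The choice of the data of every stage.** -/
theorem exists_seq {𝔇 : Dat} {d : ℕ → ℕ} {n : ℕ} {ω : Cfg} {q : Rule.Ndl} {K : ℕ} {S : ℕ → TS}
    {r : ℕ → ℤ} (hW : (exS (S 0).V q).Wll ω) (he : fb (eS (S 0).V q) ∉ FU (S 0).V \ QF q.1)
    (h : ∀ i < K, ∃ D κ m x i₁ j₁ t j₂ i₂, RunI 𝔇 d n (r i) (S i) ω q D κ m x i₁ j₁ t j₂ i₂ ∧
      CntJ.MvS 𝔇 d n ω (S i) (S (i + 1)) q D ∧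
      (¬ D.Void (𝔇.gr d (S i).x D) → ∃ σ, D.regS (𝔇.gr d (S i).x D) (unt d n) (uS (S i) q ω) κ
        (tS (S i) q ω).1 (cfS (S i).V q ω) σ))
    (hO : ∀ i < K, StO n (S i) q) (hN : ∀ i < K, NumO d n (S i).x.length (r i))
    (hr : ∀ i j, i ≤ j → j < K → r i ≤ r j) :
    ∃ D κ m x i₁ j₁ t j₂ i₂ σ, Seq 𝔇 d n ω q K S D r κ m x i₁ j₁ t j₂ i₂ σ := by
  classical
  have key : ∀ i, ∃ (D : Dom) (κ : ℤ × ℤ → ℤ × ℤ) (m x i₁ j₁ t j₂ i₂ σ : ℕ), i < K →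
      RunI 𝔇 d n (r i) (S i) ω q D κ m x i₁ j₁ t j₂ i₂ ∧
      CntJ.MvS 𝔇 d n ω (S i) (S (i + 1)) q D ∧ (S (i + 1)).t = (S i).t + σ ∧
      Mc D (𝔇.gr d (S i).x D) (unt d n) (cfS (S i).V q ω) (uS (S i) q ω) κ (r i) (tS (S i) q ω)
        m x i₁ j₁ t j₂ i₂ (msh d (S i).x.length / 5) (msh d (S i).x.length / 16) σ
        (mvR 𝔇 d n (S i) q D false ω) := by
    intro i
    by_cases hi : i < K
    · obtain ⟨D, κ, m, x, i₁, j₁, t, j₂, i₂, X, M, hS⟩ := h i hi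
      obtain ⟨σ, h1, h2⟩ := mc_of_run X (hO i hi) (hN i hi) M hS
      exact ⟨D, κ, m, x, i₁, j₁, t, j₂, i₂, σ, fun _ => ⟨X, M, h1, h2⟩⟩
    · exact ⟨⟨∅, ((0, 0, false), false), ((0, 0, false), false)⟩, fun _ => (0, 0), 0, 0, 0, 0, 0,
        0, 0, 0, fun h => absurd h hi⟩
  choose D κ m x i₁ j₁ t j₂ i₂ σ hall using key
  exact ⟨D, κ, m, x, i₁, j₁, t, j₂, i₂, σ,
    { wll := hW, back := he
      inv := fun i hi => (hall i hi).1
      mv := fun i hi => (hall i hi).2.1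
      tm := fun i hi => (hall i hi).2.2.1
      mc := fun i hi => (hall i hi).2.2.2
      mono := hr }⟩

end Pool.Agent.SixB.Tru
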