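import Pool.Agent.Lib.SixB.S8Hook
import Pool.Agent.Lib.SixB.S8WallCnt

/-!
# Step 8: the pieces of a needle in a box

* `Cvx S`: any two faces of `S` are joined by faces of `S` in their common rectangle;
* `cvx_pthF`: the path of faces along a monotone path of cells has this property;
* `ndOK_of`: a needle whose faces are a set `S` with `Cvx S` and a connected hook in the box of radius
  `C` has the property `NdOK` with two pieces;
* `ndOK_hookU`: the needles of the chain.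
-/

set_option autoImplicit false

namespace Pool.Agent.SixB.NdC

open Finset Pool.Agent.Perc Pool.Agent.PercT Pool.Agent.PercX60
open Pool.Agent.MP_6bd702.H23 (Ed ea eb ea_mk eb_true eb_false)
open Pool.Agent.SixB Pool.Agent.SixB.Rule Pool.Agent.SixB.Dct Pool.Agent.SixB.Top
open Pool.Agent.SixB.Ndle Pool.Agent.SixB.Hook Pool.Agent.SixB.WC Pool.Agent.SixB.Near

/-! ### Monotone paths of cells -/

/-- The steps go in one direction in each coordinate. -/
structure Mon (c : ℕ → ℤ × ℤ) (L : ℕ) : Prop where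
  x : (∀ i < L, (c i).1 ≤ (c (i + 1)).1) ∨ (∀ i < L, (c (i + 1)).1 ≤ (c i).1)
  y : (∀ i < L, (c i).2 ≤ (c (i + 1)).2) ∨ (∀ i < L, (c (i + 1)).2 ≤ (c i).2)

theorem stT_x {z q : ℤ × ℤ} (h : q ≠ z) : (q.1 ≤ z.1 → q.1 ≤ (stT z q).1 ∧ (stT z q).1 ≤ z.1) ∧
    (z.1 ≤ q.1 → (stT z q).1 ≤ q.1 ∧ z.1 ≤ (stT z q).1) := by
  obtain ⟨a, b⟩ := q
  obtain ⟨c, d⟩ := z
  have hne : ¬ (a = c ∧ b = d) := fun h' => h (Prod.ext h'.1 h'.2)
  unfold stT
  simp only
  by_cases h1 : |b - d| ≤ |a - c|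
  · rw [if_pos h1]
    have h2 : a ≠ c := by
      rintro rfl
      rw [sub_self, abs_zero, abs_nonpos_iff] at h1
      exact hne ⟨rfl, by omega⟩
    simp only
    split_ifs with h3 <;> constructor <;> intro h4 <;> constructor <;> omega
  · rw [if_neg h1]
    simp only
    constructor <;> intro h4 <;> constructor <;> omega

theorem stT_y {z q : ℤ × ℤ} (h : q ≠ z) : (q.2 ≤ z.2 → q.2 ≤ (stT z q).2 ∧ (stT z q).2 ≤ z.2) ∧
    (z.2 ≤ q.2 → (stT z q).2 ≤ q.2 ∧ z.2 ≤ (stT z q).2) := by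
  obtain ⟨a, b⟩ := q
  obtain ⟨c, d⟩ := z
  unfold stT
  simp only
  by_cases h1 : |b - d| ≤ |a - c|
  · rw [if_pos h1]
    simp only
    constructor <;> intro h4 <;> constructor <;> omega
  · rw [if_neg h1]
    have h2 : b ≠ d := by
      rintro rfl
      rw [sub_self, abs_zero] at h1
      exact h1 (abs_nonneg _)
    simp only
    split_ifs with h3 <;> constructor <;> intro h4 <;> constructor <;> omega

theorem npt_side {z y : ℤ × ℤ} {i : ℕ} (hi : (i : ℤ) ≤ sd y z) :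
    (y.1 ≤ z.1 → (npt z y i).1 ≤ z.1) ∧ (z.1 ≤ y.1 → z.1 ≤ (npt z y i).1) ∧
    (y.2 ≤ z.2 → (npt z y i).2 ≤ z.2) ∧ (z.2 ≤ y.2 → z.2 ≤ (npt z y i).2) := by
  induction i with
  | zero => rw [npt_zero]; tauto
  | succ i ih =>
    obtain ⟨h1, h2, h3, h4⟩ := ih (by push_cast at hi; omega)
    have hne : npt z y i ≠ z := npt_ne (by push_cast at hi; omega)
    rw [npt_succ]
    exact ⟨fun h => ((stT_x hne).1 (h1 h)).2, fun h => ((stT_x hne).2 (h2 h)).2,
      fun h => ((stT_y hne).1 (h3 h)).2, fun h => ((stT_y hne).2 (h4 h)).2⟩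

theorem mon_npt {z y : ℤ × ℤ} {L : ℕ} (hL : (L : ℤ) ≤ sd y z) : Mon (npt z y) L where
  x := by
    rcases le_total y.1 z.1 with h | h
    · left
      intro i hi
      have h1 : ((i : ℕ) : ℤ) < sd y z := by
        have : (i : ℤ) < L := by exact_mod_cast hi
        omega
      rw [npt_succ]
      exact ((stT_x (npt_ne h1)).1 ((npt_side h1.le).1 h)).1
    · right
      intro i hi
      have h1 : ((i : ℕ) : ℤ) < sd y z := by
        have : (i : ℤ) < L := by exact_mod_cast hi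
        omega
      rw [npt_succ]
      exact ((stT_x (npt_ne h1)).2 ((npt_side h1.le).2.1 h)).1
  y := by
    rcases le_total y.2 z.2 with h | h
    · left
      intro i hi
      have h1 : ((i : ℕ) : ℤ) < sd y z := by
        have : (i : ℤ) < L := by exact_mod_cast hi
        omega
      rw [npt_succ]
      exact ((stT_y (npt_ne h1)).1 ((npt_side h1.le).2.2.1 h)).1
    · right
      intro i hi
      have h1 : ((i : ℕ) : ℤ) < sd y z := by
        have : (i : ℤ) < L := by exact_mod_cast hi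
        omega
      rw [npt_succ]
      exact ((stT_y (npt_ne h1)).2 ((npt_side h1.le).2.2.2 h)).1

theorem mon_ndc {C : Finset (ℤ × ℤ)} {z : ℤ × ℤ} {L : ℕ} (hL : L ≤ dlt C z) : Mon (ndc C z) L := by
  have h : (L : ℤ) ≤ sd (bse C z) z := by
    rw [sd_bse]
    exact_mod_cast hL
  exact mon_npt h

/-! ### The rectangle of two faces -/

theorem seg_sub {f g a b : ℤ × ℤ} (ha : a ∈ Ndle.seg f g) (hb : b ∈ Ndle.seg f g) : Ndle.seg a b ⊆ Ndle.seg f g := by
  intro x hx
  rw [mem_seg] at *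
  omega

theorem left_mem_seg {f g : ℤ × ℤ} : f ∈ Ndle.seg f g := by
  rw [mem_seg]
  omega

theorem right_mem_seg {f g : ℤ × ℤ} : g ∈ Ndle.seg f g := by
  rw [mem_seg]
  omega

theorem seg_comm (f g : ℤ × ℤ) : Ndle.seg f g = Ndle.seg g f := by
  ext x
  rw [mem_seg, mem_seg]
  omega

/-- Any two faces of `S` are joined by faces of `S` in their rectangle. -/
def Cvx (S : Set (ℤ × ℤ)) : Prop := ∀ f ∈ S, ∀ g ∈ S, ChI (S ∩ (Ndle.seg f g : Set (ℤ × ℤ))) f g

section Path

variable {m : ℤ} {c : ℕ → ℤ × ℤ} {L : ℕ}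

/-- Between the segments. -/
theorem cen_mem_seg (hm : 0 < m) (hM : Mon c L) {i j k : ℕ} (hij : i ≤ j) (hjk : j ≤ k)
    (hk : k ≤ L) {f g : ℤ × ℤ} (hf : f ∈ Ndle.seg (cen m (c (i - 1))) (cen m (c i)))
    (hg : g ∈ Ndle.seg (cen m (c k)) (cen m (c (min L (k + 1))))) (hi : 1 ≤ i) :
    cen m (c j) ∈ Ndle.seg f g := by
  have mono : ∀ {a : ℕ → ℤ}, (∀ i < L, a i ≤ a (i + 1)) → ∀ i j, i ≤ j → j ≤ L → a i ≤ a j := by
    intro a ha i j hij hj
    induction j, hij using Nat.le_induction with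
    | base => exact le_rfl
    | succ j _ ih => exact (ih (by omega)).trans (ha j (by omega))
  have anti : ∀ {a : ℕ → ℤ}, (∀ i < L, a (i + 1) ≤ a i) → ∀ i j, i ≤ j → j ≤ L → a j ≤ a i := by
    intro a ha i j hij hj
    induction j, hij using Nat.le_induction with
    | base => exact le_rfl
    | succ j _ ih => exact (ha j (by omega)).trans (ih (by omega))
  have hmul : ∀ {x y : ℤ}, x ≤ y → m * x ≤ m * y := fun h => mul_le_mul_of_nonneg_left h hm.le
  rw [mem_seg] at hf hg ⊢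
  unfold cen at hf hg ⊢
  simp only at hf hg ⊢
  have hx : (f.1 ≤ m * (c j).1 + m / 2 ∧ m * (c j).1 + m / 2 ≤ g.1) ∨
      (g.1 ≤ m * (c j).1 + m / 2 ∧ m * (c j).1 + m / 2 ≤ f.1) := by
    rcases hM.x with h | h
    · have h1 := hmul (mono (a := fun i => (c i).1) h (i - 1) i (by omega) (by omega))
      have h2 := hmul (mono (a := fun i => (c i).1) h i j hij (by omega))
      have h3 := hmul (mono (a := fun i => (c i).1) h j k hjk hk)
      have h4 := hmul (mono (a := fun i => (c i).1) h k (min L (k + 1)) (by omega) (by omega))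
      left
      omega
    · have h1 := hmul (anti (a := fun i => (c i).1) h (i - 1) i (by omega) (by omega))
      have h2 := hmul (anti (a := fun i => (c i).1) h i j hij (by omega))
      have h3 := hmul (anti (a := fun i => (c i).1) h j k hjk hk)
      have h4 := hmul (anti (a := fun i => (c i).1) h k (min L (k + 1)) (by omega) (by omega))
      right
      omega
  have hy : (f.2 ≤ m * (c j).2 + m / 2 ∧ m * (c j).2 + m / 2 ≤ g.2) ∨
      (g.2 ≤ m * (c j).2 + m / 2 ∧ m * (c j).2 + m / 2 ≤ f.2) := by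
    rcases hM.y with h | h
    · have h1 := hmul (mono (a := fun i => (c i).2) h (i - 1) i (by omega) (by omega))
      have h2 := hmul (mono (a := fun i => (c i).2) h i j hij (by omega))
      have h3 := hmul (mono (a := fun i => (c i).2) h j k hjk hk)
      have h4 := hmul (mono (a := fun i => (c i).2) h k (min L (k + 1)) (by omega) (by omega))
      left
      omega
    · have h1 := hmul (anti (a := fun i => (c i).2) h (i - 1) i (by omega) (by omega))
      have h2 := hmul (anti (a := fun i => (c i).2) h i j hij (by omega))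
      have h3 := hmul (anti (a := fun i => (c i).2) h j k hjk hk)
      have h4 := hmul (anti (a := fun i => (c i).2) h k (min L (k + 1)) (by omega) (by omega))
      right
      omega
  omega

/-- **The path of faces along a monotone path of cells.** -/
theorem cvx_pthF (hm : 0 < m) (hadj : ∀ i < L, ld (c (i + 1)) (c i) = 1)
    (hne : ∀ i, 1 ≤ i → i ≤ L → c i ≠ c 0) (hM : Mon c L) : Cvx (pthF m c L : Set (ℤ × ℤ)) := by
  have hseg : ∀ i, 1 ≤ i → i < L → ∀ g ∈ Ndle.seg (cen m (c i)) (cen m (c (i + 1))),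
      g ∈ pthF m c L := by
    intro i h1 hi g hg
    refine mem_pthF.2 ⟨⟨i, hi, hg⟩, ?_⟩
    rcases (seg_cases hm (hadj i hi) hg).2 with h3 | h3
    · rw [h3]; exact hne i h1 hi.le
    · rw [h3]; exact hne (i + 1) (by omega) hi
  have hst : ∀ i < L, (cen m (c i)).1 = (cen m (c (i + 1))).1 ∨
      (cen m (c i)).2 = (cen m (c (i + 1))).2 := by
    intro i hi
    rcases adj_cases (hadj i hi) with h | h | h | h
    · right; unfold cen; rw [h.2]
    · right; unfold cen; rw [h.2]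
    · left; unfold cen; rw [h.1]
    · left; unfold cen; rw [h.1]
  -- inside of one segment
  have hone : ∀ i < L, ∀ f g, f ∈ pthF m c L → g ∈ pthF m c L →
      f ∈ Ndle.seg (cen m (c i)) (cen m (c (i + 1))) → g ∈ Ndle.seg (cen m (c i)) (cen m (c (i + 1))) →
      ChI ((pthF m c L : Set (ℤ × ℤ)) ∩ (Ndle.seg f g : Set (ℤ × ℤ))) f g := by
    intro i hi f g hf hg hf' hg'
    refine chI_seg ?_ fun x hx => ⟨?_, mem_coe.2 hx⟩
    · have h1 := (seg_cases hm (hadj i hi) hf').1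
      have h2 := (seg_cases hm (hadj i hi) hg').1
      have h3 : ∀ x, x ∈ Ndle.seg (cen m (c i)) (cen m (c (i + 1))) →
          ((cen m (c i)).1 = (cen m (c (i + 1))).1 → x.1 = (cen m (c i)).1) ∧
          ((cen m (c i)).2 = (cen m (c (i + 1))).2 → x.2 = (cen m (c i)).2) := by
        intro x hx
        rw [mem_seg] at hx
        omega
      rcases hst i hi with h4 | h4
      · left
        rw [(h3 f hf').1 h4, (h3 g hg').1 h4]
      · right
        rw [(h3 f hf').2 h4, (h3 g hg').2 h4]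
    · have hx' := seg_sub hf' hg' hx
      rcases Nat.eq_zero_or_pos i with h0 | h0
      · subst h0
        have h5 : ∀ f, f ∈ pthF m c L → f ∈ Ndle.seg (cen m (c 0)) (cen m (c (0 + 1))) →
            Ndle.cel m f = c 1 := fun f hf hf' =>
          (seg_cases hm (hadj 0 hi) hf').2.resolve_left (mem_pthF.1 hf).2
        refine mem_coe.2 (mem_pthF.2 ⟨⟨0, hi, hx'⟩, ?_⟩)
        rw [cel_seg hm (h5 f hf hf') (h5 g hg hg') hx]
        exact hne 1 le_rfl hi
      · exact mem_coe.2 (hseg i h0 hi x hx')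
  -- between the centres
  have hcen : ∀ i j, 1 ≤ i → i ≤ j → j ≤ L → ∀ f g, (∀ k, i ≤ k → k ≤ j → cen m (c k) ∈ Ndle.seg f g) →
      ChI ((pthF m c L : Set (ℤ × ℤ)) ∩ (Ndle.seg f g : Set (ℤ × ℤ))) (cen m (c i)) (cen m (c j)) := by
    intro i j hi hij hj f g hk
    induction j, hij using Nat.le_induction with
    | base => exact ChI.refl _
    | succ j hij ih =>
      refine (ih (by omega) fun k h1 h2 => hk k h1 (by omega)).trans (chI_seg (hst j (by omega)) ?_)
      intro x hx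
      exact ⟨mem_coe.2 (hseg j (by omega) (by omega) x hx),
        mem_coe.2 (seg_sub (hk j hij (by omega)) (hk (j + 1) (by omega) le_rfl) hx)⟩
  -- two segments
  have htwo : ∀ i j, i < j → j < L → ∀ f g, f ∈ pthF m c L → g ∈ pthF m c L →
      f ∈ Ndle.seg (cen m (c i)) (cen m (c (i + 1))) → g ∈ Ndle.seg (cen m (c j)) (cen m (c (j + 1))) →
      ChI ((pthF m c L : Set (ℤ × ℤ)) ∩ (Ndle.seg f g : Set (ℤ × ℤ))) f g := by
    intro i j hij hj f g hf hg hf' hg'
    have hk : ∀ k, i + 1 ≤ k → k ≤ j → cen m (c k) ∈ Ndle.seg f g := by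
      intro k h1 h2
      refine cen_mem_seg hm hM h1 h2 hj.le (f := f) (g := g) ?_ ?_ (by omega)
      · rw [show i + 1 - 1 = i by omega]; exact hf'
      · rw [show min L (j + 1) = j + 1 by omega]; exact hg'
    have h1 : ChI ((pthF m c L : Set (ℤ × ℤ)) ∩ (Ndle.seg f g : Set (ℤ × ℤ))) f (cen m (c (i + 1))) := by
      refine (hone i (by omega) f _ hf (cen_mem hm hadj hne (by omega) (by omega)) hf'
        right_mem_seg).mono ?_
      intro x hx
      exact ⟨hx.1, mem_coe.2 (seg_sub left_mem_seg (hk (i + 1) le_rfl hij) (mem_coe.1 hx.2))⟩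
    have h2 : ChI ((pthF m c L : Set (ℤ × ℤ)) ∩ (Ndle.seg f g : Set (ℤ × ℤ))) (cen m (c j)) g := by
      refine (hone j hj _ g (cen_mem hm hadj hne (by omega) hj.le) hg left_mem_seg hg').mono ?_
      intro x hx
      exact ⟨hx.1, mem_coe.2 (seg_sub (hk j hij le_rfl) right_mem_seg (mem_coe.1 hx.2))⟩
    exact (h1.trans (hcen (i + 1) j (by omega) hij hj.le f g hk)).trans h2
  intro f hf g hg
  rw [mem_coe] at hf hg
  obtain ⟨⟨i, hi, hf'⟩, -⟩ := mem_pthF.1 hf
  obtain ⟨⟨j, hj, hg'⟩, -⟩ := mem_pthF.1 hg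
  rcases lt_trichotomy i j with h | h | h
  · exact htwo i j h hj f g hf hg hf' hg'
  · subst h
    exact hone i hi f g hf hg hf' hg'
  · have h1 := htwo j i h hi g f hg hf hg' hf'
    rw [seg_comm g f] at h1
    exact ChI.symm (S := (pthF m c L : Set (ℤ × ℤ)) ∩ (Ndle.seg f g : Set (ℤ × ℤ)))
      ⟨mem_coe.2 hg, mem_coe.2 right_mem_seg⟩ h1

end Path

/-! ### The cluster of the needle -/

/-- Two adjacent faces of the needle are joined. -/
theorem conn_adj {Q : Finset Edg} {B : Set (ℤ × ℤ)} {f g : ℤ × ℤ} (hf : f ∈ QF Q ∩ B)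
    (hg : g ∈ QF Q ∩ B) (h : AdjF f g) : Conn (gT (Q : Set Ed)) (QF Q ∩ B) (phiV (ea (eE f)))
      (phiV (ea (eE g))) := by
  have hb : ∀ x ∈ QF Q ∩ B, Conn (gT (Q : Set Ed)) (QF Q ∩ B) (phiV (ea (eE x)))
      (phiV (eb (eE x))) := by
    intro x hx
    have h1 := bond_face (S := (Q : Set Ed)) (f := x) hx.1
    exact conn_mono (Set.singleton_subset_iff.2 hx) (Relation.ReflTransGen.single h1)
  have hall : ∀ x ∈ QF Q ∩ B, ∀ w, Sq (phiV w) x →
      Conn (gT (Q : Set Ed)) (QF Q ∩ B) (phiV (ea (eE x))) (phiV w) := by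
    intro x hx w hw
    rcases sq_phiV.1 hw with h1 | h1
    · rw [h1]; exact Relation.ReflTransGen.refl
    · rw [← h1]; exact hb x hx
  obtain ⟨w, h1, h2⟩ := adj_share h
  exact (hall f hf w h1).trans (NearCut.conn_symm' (hall g hg w h2))

theorem conn_chI {Q : Finset Edg} {S B : Set (ℤ × ℤ)} (hS : S ⊆ QF Q ∩ B) {f g : ℤ × ℤ}
    (hf : f ∈ S) (h : ChI S f g) : Conn (gT (Q : Set Ed)) (QF Q ∩ B) (phiV (ea (eE f)))
      (phiV (ea (eE g))) := by
  have key : g ∈ S ∧ Conn (gT (Q : Set Ed)) (QF Q ∩ B) (phiV (ea (eE f))) (phiV (ea (eE g))) := by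
    induction h with
    | refl => exact ⟨hf, Relation.ReflTransGen.refl⟩
    | tail _ hs ih => exact ⟨hs.2, ih.2.trans (conn_adj (hS ih.1) (hS hs.2) hs.1)⟩
  exact key.2

/-- A vertex of a face of the box. -/
theorem dm_ea {z : ℤ × ℤ} {r : ℤ} {f : ℤ × ℤ} (hf : f ∈ Near.Bx z r) : Dm z r (ea (eE f)) := by
  have h1 : Sq (phiV (ea (eE f))) f := sq_phiV.2 (Or.inl rfl)
  rw [mem_bx] at hf
  rw [dm_iff]
  unfold InR
  unfold Sq at h1
  omega

/-- Two faces of a box: their rectangle is in the box. -/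
theorem seg_bx {z f g : ℤ × ℤ} {r : ℤ} (hf : f ∈ Near.Bx z r) (hg : g ∈ Near.Bx z r) :
    (Ndle.seg f g : Set (ℤ × ℤ)) ⊆ Near.Bx z r := by
  intro x hx
  rw [mem_coe, mem_seg] at hx
  rw [mem_bx] at *
  omega

/-- **The pieces of a needle**: a set with `Cvx` and a connected hook in a box. -/
theorem ndOK_of {Q : Finset Edg} {S H : Set (ℤ × ℤ)} {y : ℤ × ℤ} {C : ℤ} (hQ : QF Q = S ∪ H)
    (hS : Cvx S) (hH : ∀ f ∈ H, f ∈ Near.Bx y C) (hy : ∀ f ∈ H, y ∈ H ∧ ChI H y f) :
    NdOK Q C 2 := by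
  classical
  refine ⟨y, fun z r hbox => ?_⟩
  -- the pieces of `S`
  have h1 : ∃ A : Finset (ℤ × ℤ), A.card ≤ 1 ∧ (∀ s ∈ A, Dm z r s) ∧ ∀ f ∈ S, f ∈ Near.Bx z r →
      ∃ s ∈ A, Conn (gT (Q : Set Ed)) (QF Q ∩ Near.Bx z r) (phiV s) (phiV (ea (eE f))) := by
    by_cases hex : ∃ f₀ ∈ S, f₀ ∈ Near.Bx z r
    · obtain ⟨f₀, h1, h2⟩ := hex
      refine ⟨{ea (eE f₀)}, by simp, fun s hs => ?_, fun f hf hfB => ⟨_, mem_singleton_self _, ?_⟩⟩
      · rw [mem_singleton] at hs
        rw [hs]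
        exact dm_ea h2
      · refine conn_chI (S := S ∩ (Ndle.seg f₀ f : Set (ℤ × ℤ))) ?_ ⟨h1, mem_coe.2 left_mem_seg⟩
          (hS f₀ h1 f hf)
        intro x hx
        exact ⟨by rw [hQ]; exact Or.inl hx.1, seg_bx h2 hfB hx.2⟩
    · push Not at hex
      exact ⟨∅, by simp, fun s hs => absurd hs (notMem_empty s), fun f hf hfB => absurd hfB (hex f hf)⟩
  -- the hook
  have h2 : ∃ A : Finset (ℤ × ℤ), A.card ≤ 1 ∧ (∀ s ∈ A, Dm z r s) ∧ ∀ f ∈ H, f ∈ Near.Bx z r →
      ∃ s ∈ A, Conn (gT (Q : Set Ed)) (QF Q ∩ Near.Bx z r) (phiV s) (phiV (ea (eE f))) := by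
    by_cases hex : ∃ f₀ ∈ H, f₀ ∈ Near.Bx z r
    · obtain ⟨f₀, h1, h2⟩ := hex
      have hsub : Near.Bx y C ⊆ Near.Bx z r := by
        rcases hbox with h3 | h3
        · exact h3
        · exact absurd h2 (Set.disjoint_left.1 h3 (hH f₀ h1))
      have hyH := (hy f₀ h1).1
      refine ⟨{ea (eE y)}, by simp, fun s hs => ?_, fun f hf _ => ⟨_, mem_singleton_self _, ?_⟩⟩
      · rw [mem_singleton] at hs
        rw [hs]
        exact dm_ea (hsub (hH y hyH))
      · refine conn_chI (S := H) (fun x hx => ⟨by rw [hQ]; exact Or.inr hx, hsub (hH x hx)⟩) hyH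
          (hy f hf).2
    · push Not at hex
      exact ⟨∅, by simp, fun s hs => absurd hs (notMem_empty s), fun f hf hfB => absurd hfB (hex f hf)⟩
  obtain ⟨A, a1, a2, a3⟩ := h1
  obtain ⟨A', b1, b2, b3⟩ := h2
  refine ⟨A ∪ A', (card_union_le _ _).trans (by omega), fun s hs => ?_, fun f hf hfB => ?_⟩
  · rcases mem_union.1 hs with h | h
    · exact a2 s h
    · exact b2 s h
  · rw [hQ] at hf
    rcases hf with h | h
    · obtain ⟨s, hs, h3⟩ := a3 f h hfB
      exact ⟨s, mem_union_left _ hs, h3⟩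
    · obtain ⟨s, hs, h3⟩ := b3 f h hfB
      exact ⟨s, mem_union_right _ hs, h3⟩

/-- More room. -/
theorem NdOK.mono {Q : Finset Edg} {C C' : ℤ} {N N' : ℕ} (h : NdOK Q C N) (hC : C ≤ C')
    (hN : N ≤ N') : NdOK Q C' N' := by
  obtain ⟨a, ha⟩ := h
  refine ⟨a, fun z r hbox => ?_⟩
  have hsub : Near.Bx a C ⊆ Near.Bx a C' := WC.bx_mono hC
  obtain ⟨S, h1, h2, h3⟩ := ha z r (hbox.imp (fun h => hsub.trans h) fun h =>
    Set.disjoint_of_subset_left hsub h)
  exact ⟨S, h1.trans hN, h2, h3⟩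

/-- **The needles of the chain.** -/
theorem ndOK_hookU {u : ℤ} {L : ℕ} {V : Finset (ℤ × ℤ)} {C : Set (ℤ × ℤ)} {z : ℤ × ℤ} {r : ℕ}
    (hu : 0 < u) (hL : L ≤ dlt (Hook.fin C) z)
    (H : Pre V (blow u C) (ndF u (Hook.fin C) z L) (ndA u (Hook.fin C) z)
      (ndB u (Hook.fin C) z) r) : NdOK (hookU u L V C z).1 (r + 1) 2 := by
  refine ndOK_of (S := (ndF u (Hook.fin C) z L : Set (ℤ × ℤ)))
    (H := (hkS (FU V) (blow u C) (ndB u (Hook.fin C) z) : Set (ℤ × ℤ)))
    (y := ndB u (Hook.fin C) z) qF_hookU ?_ (fun f hf => ?_) fun f hf => ?_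
  · exact cvx_pthF hu (ndc_hadj hu hL) (ndc_hne hu hL) (mon_ndc hL)
  · have h1 := (H.hkS_sub (mem_coe.1 hf)).2.2
    have h2 : |f.1 - (ndB u (Hook.fin C) z).1| ≤ r := (le_max_left _ _).trans h1
    have h3 : |f.2 - (ndB u (Hook.fin C) z).2| ≤ r := (le_max_right _ _).trans h1
    rw [abs_le] at h2 h3
    rw [mem_bx]
    omega
  · obtain ⟨h1, h2⟩ := H.hkS_con (mem_coe.1 hf)
    exact ⟨mem_coe.2 h1, h2⟩

end Pool.Agent.SixB.NdC
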