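import Pool.Agent.Lib.SixB.S8Rare
import Pool.Agent.Lib.SixB.S8ChainA
import Pool.Agent.Lib.SixB.S8ChainR
import Pool.Agent.Lib.SixB.S8NMAll
import Pool.Agent.Lib.SixB.S8NdOK

/-!
# Step 8: the needles of the chain have few pieces

`NdI c₀`: in the state of the stage `i` the running needle has the property `NdOK` with the radius
`c₀ * D_i` and two pieces (`D_i`: the size of the cells of the stage).

* `ndI_dec`: this is decided by the explored faces;
* `ndI_step`: it is preserved, if it holds for a new needle;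
* `nds_of`: if it holds at all stages `≤ m` then `Nds` holds for all needles which are placed up to the
  stage `m`, with the radius `c₀ * D_m`.
-/

set_option autoImplicit false

namespace Pool.Agent.SixB.Tru

open Finset Pool.Agent.Perc Pool.Agent.PercT Pool.Agent.PercX60
open Pool.Agent.SixB Pool.Agent.SixB.Rule Pool.Agent.SixB.Dct Pool.Agent.SixB.Mv
open Pool.Agent.SixB.WC Pool.Agent.SixB.TruR

/-- The running needle has few pieces. -/
def NdI (c₀ : ℤ) : InvP := fun d n i s _ =>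
  ∀ q, s.q = some q → NdOK q.1 (c₀ * Sc.ls d n (d i)) 2

section

variable {𝔇 : Dat} {d : ℕ → ℕ} {n i m j : ℕ} {ω : Cfg} {c₀ : ℤ}

theorem ndI_dec (c₀ : ℤ) : InvDec (NdI c₀) := fun _ _ _ _ _ _ _ h => h

theorem mul_ls_mono (hc : 0 ≤ c₀) (hd : d m ≤ d i) :
    c₀ * Sc.ls d n (d i) ≤ c₀ * Sc.ls d n (d m) :=
  mul_le_mul_of_nonneg_left (Sc.ls_anti n hd) hc

/-- The property is preserved. -/
theorem ndI_step (hc : 0 ≤ c₀) (hd : d (i + 1) ≤ d i) (h : NdI c₀ d n i (tst 𝔇 d n ω i) ω)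
    (hpl : (tst 𝔇 d n ω i).q = none → ∀ q, (tst 𝔇 d n ω (i + 1)).q = some q →
      NdOK q.1 (c₀ * Sc.ls d n (d (i + 1))) 2) :
    NdI c₀ d n (i + 1) (tst 𝔇 d n ω (i + 1)) ω := by
  intro q hq
  cases hq0 : (tst 𝔇 d n ω i).q with
  | none => exact hpl hq0 q hq
  | some q₀ =>
    rcases (tst_run_or hq0).2 with ⟨h1, -⟩ | ⟨h1, -⟩
    · rw [hq] at h1
      cases h1
      exact NdC.NdOK.mono (h _ hq0) (mul_ls_mono hc hd) le_rfl
    · rw [hq] at h1
      cases h1

/-- **All the needles up to the stage `m` have few pieces.** -/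
theorem nds_of (hc : 0 ≤ c₀) (hd : ∀ i ≤ m, d m ≤ d i)
    (h : ∀ i ≤ m, NdI c₀ d n i (tst 𝔇 d n ω i) ω) (hj : j < (𝔇.cs d (tst 𝔇 d n ω m).x).j) :
    NM.Nds n (ruleT 𝔇 d n) (c₀ * Sc.ls d n (d m)) 2 j ω := by
  intro j' hj' q hq
  obtain ⟨i, hi, h1, h2⟩ := TruR.exists_start 𝔇 d n (ω := ω) (N := m) (j := j') (hj'.trans_lt hj)
  have h3 := rule_eq 𝔇 d n h1 h2
  rw [hq] at h3
  exact NdC.NdOK.mono (h i hi q h3.symm) (mul_ls_mono hc (hd i hi)) le_rfl

/-- The resolutions decrease. -/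
theorem le_of_groF {G : ℕ → ℕ → ℕ} (hG : ∀ i e, e ≤ G i e) (h : GroF G m d) {i j : ℕ} (hij : i ≤ j)
    (hj : j ≤ m) : d j ≤ d i := by
  induction j, hij using Nat.le_induction with
  | base => exact le_rfl
  | succ j hij ih => exact ((hG j _).trans (h j (by omega))).trans (ih (by omega))

end

end Pool.Agent.SixB.Tru
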