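import Pool.Agent.Lib.SixB.S8CountStp
import Pool.Agent.Lib.SixB.S8CountRc
import Pool.Agent.Lib.SixB.S8CountA
import Pool.Agent.Lib.SixB.S8CountD
import Pool.Agent.Lib.SixB.S8CountH
import Pool.Agent.Lib.SixB.S8CountQ
import Pool.Agent.Lib.SixB.S8Inv
import Pool.Agent.Lib.SixB.S8RareJ
import Pool.Agent.Lib.SixB.S8ScanDet

/-!
# Step 8, number of moves: the stages of a needle

* `Sg`: the data of a move of the true chain which is not the end of the step; `exists_sg`;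
* `KL`, `KR`: the left and the right marks of a stage; `Sg.kind`: a move is large or has a mark;
* `Sg.cll`, `Sg.clr`: Claim A for two stages.
-/

set_option autoImplicit false

namespace Pool.Agent.SixB.CntZ

open Filter Finset Pool.Agent.Perc Pool.Agent.Perc6 Pool.Agent.PercT Pool.Agent.PercX60
open Pool.Agent.Perc6.C2Aux Pool.Agent.Perc.Tips
open Pool.Agent.SixB Pool.Agent.SixB.Rule Pool.Agent.SixB.Dct Pool.Agent.SixB.Mv
open Pool.Agent.SixB.Tru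
open Pool.Agent.SixB.Top (compT ChI lf rg)
open Pool.Agent.SixB.Blow (subE blow_subset econn_blow mem_blow lf_subE_zero cl_ahead_zero bd_subE)
open Pool.Agent.SixB.CountP (sd sd_le_iff inB_iff)
open Pool.Agent.SixB.NearCut (Nb)
open Pool.Agent.SixB.CntM (MkL MkR)

variable {𝔇 : Dat} {d : ℕ → ℕ} {n N : ℕ} {C r W : ℤ} {s s' : TS} {ω : Cfg} {q : Rule.Ndl} {D D' : Dom}
  {κ κ' : ℤ × ℤ → ℤ × ℤ} {m x i₁ j₁ t j₂ i₂ σ : ℕ}

/-! ### Numbers -/

/-- The numbers of the chain up to the stage `N`. -/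
structure NumZ (𝔇 : Dat) (C : ℤ) (d : ℕ → ℕ) (n N : ℕ) : Prop where
  hn : 2 ^ d 0 ≤ n
  num : ∀ i < N, NumO d n (i + 1) (rad C (unt d n) d (i + 1))
  hd : ∀ i ≤ N, 𝔇.kap + 10 ≤ d i ∧ d i ≤ d 0

/-- The numbers of one stage: `W` is 1/64 of the half side of the block. -/
structure NumW (𝔇 : Dat) (d : ℕ → ℕ) (n k : ℕ) (r W : ℤ) : Prop where
  sm : r + unt d n * msh d k + 16 ≤ W
  blk : 64 * W ≤ unt d n * (msh d k * msz 𝔇.kap d k)
  u1 : (1 : ℤ) ≤ unt d n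
  L16 : 16 ≤ msh d k
  h16 : 16 ∣ msh d k

theorem rad_nonneg (hC : 0 ≤ C) (u : ℕ) (d : ℕ → ℕ) (k : ℕ) : 0 ≤ rad C u d k := by
  unfold rad
  have h1 : 0 ≤ ∑ j ∈ range k, msh d j := sum_nonneg fun j _ => (msh_pos d j).le
  positivity

theorem blk_eq {k : ℕ} (h1 : 𝔇.kap ≤ d k) (h2 : d k ≤ d 0) :
    (unt d n : ℤ) * (msh d k * msz 𝔇.kap d k) = Sc.ls d n 𝔇.kap := by
  unfold Sc.ls msh msz unt
  rw [← pow_add]
  congr 2
  omega

theorem NumZ.numW (h : NumZ 𝔇 C d n N) (hC : 0 ≤ C) {i : ℕ} (hi : i < N) :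
    NumW 𝔇 d n (i + 1) (rad C (unt d n) d (i + 1)) (Sc.ls d n 𝔇.kap / 64) := by
  obtain ⟨h1, h2⟩ := h.hd (i + 1) hi
  have h3 := h.num i hi
  have h4 := rad_nonneg hC (unt d n) d (i + 1)
  have hu : (1 : ℤ) ≤ unt d n := by exact_mod_cast h3.hu
  have hL : (0 : ℤ) < msh d (i + 1) := msh_pos _ _
  have hL16 : (16 : ℤ) ≤ msh d (i + 1) := Int.le_of_dvd hL h3.h16
  have e1 : (unt d n : ℤ) * msh d (i + 1) = Sc.ls d n (d (i + 1)) := rfl
  have e2 := Sc.ls_mul (d := d) n (e := 𝔇.kap) (e' := d (i + 1)) (by omega) h2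
  have e3 : (2 : ℤ) ^ 10 ≤ 2 ^ (d (i + 1) - 𝔇.kap) := pow_le_pow_right₀ (by norm_num) (by omega)
  have e4 : Sc.ls d n (d (i + 1)) * 2 ^ 10 ≤ Sc.ls d n 𝔇.kap := by
    rw [e2]
    exact mul_le_mul_of_nonneg_left e3 (Sc.ls_nonneg d n _)
  have e5 : (unt d n : ℤ) * (msh d (i + 1) / 5) * 5 ≤ unt d n * msh d (i + 1) := by
    rw [mul_assoc]
    exact mul_le_mul_of_nonneg_left (Int.ediv_mul_le _ (by norm_num)) (by omega)
  have e6 : (16 : ℤ) ≤ unt d n * msh d (i + 1) := by nlinarith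
  have h5 := h3.far
  refine ⟨?_, ?_, hu, hL16, h3.h16⟩
  · rw [e1] at e5 e6 ⊢
    omega
  · rw [blk_eq (by omega) h2]
    omega

theorem NumW.le (h : NumW 𝔇 d n N r W) : (unt d n : ℤ) ≤ unt d n * msh d N := by
  have h1 := h.u1
  have h2 := h.L16
  nlinarith

/-! ### The data of a stage -/

/-- The data of a move of the true chain which is not the end of the step. -/
structure Sg (C : ℤ) (𝔇 : Dat) (d : ℕ → ℕ) (n : ℕ) (ω : Cfg) (s s' : TS) (q : Rule.Ndl) (D : Dom)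
    (κ : ℤ × ℤ → ℤ × ℤ) (m x i₁ j₁ t j₂ i₂ σ : ℕ) : Prop where
  X : RunI 𝔇 d n (rad C (unt d n) d s.x.length) s ω q D κ m x i₁ j₁ t j₂ i₂
  M : CntJ.MvS 𝔇 d n ω s s' q D
  t' : s'.t = s.t + σ
  mc : Mc D (𝔇.gr d s.x D) (unt d n) (cfS s.V q ω) (uS s q ω) κ (rad C (unt d n) d s.x.length)
    (tS s q ω) m x i₁ j₁ t j₂ i₂ (msh d s.x.length / 5) (msh d s.x.length / 16) σ
    (mvR 𝔇 d n s q D false ω)

/-- The data of a stage outside of the dead stops. -/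
theorem exists_sg {i : ℕ} (hV : InvV C 𝔇 d n i ω)
    (hN : NumO d n (i + 1) (rad C (unt d n) d (i + 1))) (hD : ω ∉ Dead C 𝔇 d n i)
    (M : CntJ.MvS 𝔇 d n ω (tst 𝔇 d n ω i) (tst 𝔇 d n ω (i + 1)) q D) :
    ∃ κ m x i₁ j₁ t j₂ i₂ σ, Sg C 𝔇 d n ω (tst 𝔇 d n ω i) (tst 𝔇 d n ω (i + 1)) q D κ m x i₁ j₁ t j₂ i₂
      σ := by
  have hl : (tst 𝔇 d n ω i).x.length = i + 1 := tst_len 𝔇 d n ω i
  by_cases hv : D.Void (𝔇.gr d (tst 𝔇 d n ω i).x D)
  · obtain ⟨κ, m, x, i₁, j₁, t, j₂, i₂, X⟩ := runI_of_nend hV (by rw [hl]; exact hN) M.q₀ M.run M.ini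
      M.nend
    obtain ⟨σ, h1, h2⟩ := mc_of_run X (stO_tst M.q₀) (by rw [hl]; exact hN) M fun h => absurd hv h
    exact ⟨κ, m, x, i₁, j₁, t, j₂, i₂, σ, X, M, h1, h2⟩
  · obtain ⟨κ, m, x, i₁, j₁, t, j₂, i₂, X, hσ⟩ := exists_regS hD M.q₀ M.run M.ini hv
    obtain ⟨σ, h1, h2⟩ := mc_of_run X (stO_tst M.q₀) (by rw [hl]; exact hN) M fun _ => hσ
    exact ⟨κ, m, x, i₁, j₁, t, j₂, i₂, σ, X, M, h1, h2⟩

/-! ### Marks -/

/-- The entered set is near the coarse tip. -/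
def EntN (𝔇 : Dat) (d : ℕ → ℕ) (n : ℕ) (W : ℤ) (ω : Cfg) (s : TS) (q : Rule.Ndl) (D : Dom) : Prop :=
  ∀ f ∈ blow (unt d n : ℤ) (D.ent (𝔇.gr d s.x D) (mvR 𝔇 d n s q D false ω)),
    f ∈ Mv.sqF (19 * W) (ahead (subE (unt d n) D.A 0))

/-- A left mark of a stage. -/
def KL (C : ℤ) (𝔇 : Dat) (d : ℕ → ℕ) (n : ℕ) (W : ℤ) (ω : Cfg) (s : TS) (q : Rule.Ndl) (D : Dom)
    (κ : ℤ × ℤ → ℤ × ℤ) (m x j₁ j₂ i₂ : ℕ) (v vr : ℕ) : Prop :=
  EntN 𝔇 d n W ω s q D ∧ ∃ w k, MkL (uS s q ω) (blow (unt d n : ℤ) D.P) κ (subE (unt d n) D.A 0)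
    (tS s q ω) (19 * W + rad C (unt d n) d s.x.length)
    (unt d n * ((𝔇.gr d s.x D).L * (𝔇.gr d s.x D).M) - 3 - rad C (unt d n) d s.x.length) m x j₁ j₂ i₂
    (blow (unt d n : ℤ) (D.ent (𝔇.gr d s.x D) (mvR 𝔇 d n s q D false ω))) w k v vr

/-- A right mark of a stage. -/
def KR (C : ℤ) (𝔇 : Dat) (d : ℕ → ℕ) (n : ℕ) (W : ℤ) (ω : Cfg) (s : TS) (q : Rule.Ndl) (D : Dom)
    (κ : ℤ × ℤ → ℤ × ℤ) (x i₁ j₁ j₂ : ℕ) (v vr : ℕ) : Prop :=
  EntN 𝔇 d n W ω s q D ∧ ∃ w k, MkR (uS s q ω) (blow (unt d n : ℤ) D.P) κ (subE (unt d n) D.A 0)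
    (tS s q ω) (19 * W + rad C (unt d n) d s.x.length)
    (unt d n * ((𝔇.gr d s.x D).L * (𝔇.gr d s.x D).M) - 3 - rad C (unt d n) d s.x.length) x i₁ j₁ j₂
    (blow (unt d n : ℤ) (D.ent (𝔇.gr d s.x D) (mvR 𝔇 d n s q D false ω))) w k v vr

section Stage

variable (S : Sg C 𝔇 d n ω s s' q D κ m x i₁ j₁ t j₂ i₂ σ)
  (hW : NumW 𝔇 d n s.x.length (rad C (unt d n) d s.x.length) W)

include S hW

/-- The strand of the move stops far from the tip, or the entered set is near the tip. -/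
theorem Sg.near_or : (0 < σ ∧ ¬ SixB.InB (ua (pS s.V q ω s.t)) (16 * W) (pS s.V q ω (s.t + σ))) ∨
    EntN 𝔇 d n W ω s q D := by
  have hval := S.mc.val
  have hρ := S.mc.rok
  have hu : (0 : ℤ) < unt d n := by have := hW.u1; omega
  have hsm := hW.sm
  have hle := hW.le
  have hr := S.mc.app.d_pos
  have hL : (𝔇.gr d s.x D).L = msh d s.x.length := rfl
  by_cases hv : D.Void (𝔇.gr d s.x D)
  · right
    intro f hf
    have h1 := CntH.ent_void hval hρ hv (mem_blow.1 hf)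
    have h2 : IsCor (ahead (subE (unt d n) D.A 0)) (lf (subE (unt d n) D.A 0)) :=
      Top.isCor_in_lf _
    rw [lf_subE_zero] at h2
    have e1 : D.tip = lf D.A := rfl
    rw [e1, hL, abs_le, abs_le] at h1
    have k1 := Int.mul_ediv_add_emod f.1 (unt d n)
    have k2 := Int.mul_ediv_add_emod f.2 (unt d n)
    have k3 := Int.emod_nonneg f.1 hu.ne'
    have k4 := Int.emod_nonneg f.2 hu.ne'
    have k5 := Int.emod_lt_of_pos f.1 hu
    have k6 := Int.emod_lt_of_pos f.2 hu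
    have c1 : (Blow.cl (unt d n : ℤ) f).1 = f.1 / unt d n := rfl
    have c2 : (Blow.cl (unt d n : ℤ) f).2 = f.2 / unt d n := rfl
    rw [c1, c2] at h1
    have a1 : (unt d n : ℤ) * (f.1 / unt d n - (lf D.A).1) ≤ unt d n * (2 * msh d s.x.length) :=
      mul_le_mul_of_nonneg_left h1.1.2 hu.le
    have a2 : (unt d n : ℤ) * (-(2 * msh d s.x.length)) ≤ unt d n * (f.1 / unt d n - (lf D.A).1) :=
      mul_le_mul_of_nonneg_left h1.1.1 hu.le
    have a3 : (unt d n : ℤ) * (f.2 / unt d n - (lf D.A).2) ≤ unt d n * (2 * msh d s.x.length) :=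
      mul_le_mul_of_nonneg_left h1.2.2 hu.le
    have a4 : (unt d n : ℤ) * (-(2 * msh d s.x.length)) ≤ unt d n * (f.2 / unt d n - (lf D.A).2) :=
      mul_le_mul_of_nonneg_left h1.2.1 hu.le
    have b1 : (unt d n : ℤ) * (2 * msh d s.x.length) = 2 * (unt d n * msh d s.x.length) := by ring
    rw [mul_neg, b1] at a2 a4
    rw [b1] at a1 a3
    rw [mul_sub] at a1 a2 a3 a4
    unfold Mv.sqF
    rw [Set.mem_ofPred_eq, abs_le, abs_le]
    unfold IsCor at h2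
    simp only at h2
    omega
  · have R := S.mc.rg hv
    by_cases hz : SixB.InB (ua (pS s.V q ω s.t)) (16 * W) (pS s.V q ω (s.t + σ))
    · right
      intro f hf
      have he : fa (pS s.V q ω (s.t + σ)) ∈
          blow (unt d n : ℤ) (D.ent (𝔇.gr d s.x D) (mvR 𝔇 d n s q D false ω)) := by
        have h1 := R.ent
        have h2 : pth (cfS s.V q ω) (tS s q ω).1 σ = pS s.V q ω (s.t + σ) := pth_pS σ
        rwa [h2] at h1
      have h1 := CntH.ent_box hu hval hρ he hz hf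
      have h2 := CntM.tip_dist S.X.near
      have h3 : (tS s q ω).1 = pS s.V q ω s.t := rfl
      rw [h3, abs_le, abs_le] at h2
      rw [hL] at h1
      unfold LC.InB at h1
      unfold Mv.sqF
      rw [Set.mem_ofPred_eq, abs_le, abs_le]
      omega
    · exact Or.inl ⟨R.pos, hz⟩

/-- **The kinds of a move**: large, or a mark. -/
theorem Sg.kind : (0 < σ ∧ ¬ SixB.InB (ua (pS s.V q ω s.t)) (16 * W) (pS s.V q ω (s.t + σ))) ∨
    (∃ v vr, KL C 𝔇 d n W ω s q D κ m x j₁ j₂ i₂ v vr) ∨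
    ∃ v vr, KR C 𝔇 d n W ω s q D κ x i₁ j₁ j₂ v vr := by
  rcases S.near_or hW with h | h
  · exact Or.inl h
  right
  have hval := S.mc.val
  have hsm := hW.sm
  have hle := hW.le
  have hblk := hW.blk
  have hr := S.mc.app.d_pos
  have h16 := hW.h16
  have hL1 : (1 : ℤ) ≤ msh d s.x.length / 16 := by have := hW.L16; omega
  have hL := msh_pos d s.x.length
  have hLM : (𝔇.gr d s.x D).L * (𝔇.gr d s.x D).M =
    msh d s.x.length * msz 𝔇.kap d s.x.length := rfl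
  rcases CntM.mark_stg hval S.mc.hu ((D.grd_lfB (M := msz 𝔇.kap d s.x.length) hL h16).mono hL1)
    ((D.grd_rgB (M := msz 𝔇.kap d s.x.length) hL h16).mono hL1) S.mc.stg
    (hval.ent_layer S.mc.rok) (R := 19 * W) h (by rw [hLM]; omega) with
    ⟨w, k, v, vr, h1⟩ | ⟨w, k, v, vr, h1⟩
  · exact Or.inl ⟨v, vr, h, w, k, h1⟩
  · exact Or.inr ⟨v, vr, h, w, k, h1⟩

end Stage

/-! ### Claim A -/

section Two

variable {s₁ s₁' : TS} {m' x' i₁' j₁' t' j₂' i₂' σ' : ℕ}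
  (S : Sg C 𝔇 d n ω s s₁ q D κ m x i₁ j₁ t j₂ i₂ σ)
  (S' : Sg C 𝔇 d n ω s' s₁' q D' κ' m' x' i₁' j₁' t' j₂' i₂' σ')
  (hW : NumW 𝔇 d n s.x.length (rad C (unt d n) d s.x.length) W)
  (hW' : NumW 𝔇 d n s'.x.length (rad C (unt d n) d s'.x.length) W)
  (hV : s'.V = s.V)
  (hsd : sd (ua (pS s.V q ω s.t)) (ua (pS s.V q ω s'.t)) ≤ 16 * W)

include S S' hW hW' hV hsd

/-- A face which is far from the later tip is far from the tip. -/
theorem far_tip {f : ℤ × ℤ}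
    (hf : f ∉ Mv.sqF (unt d n * ((𝔇.gr d s'.x D').L * (𝔇.gr d s'.x D').M) - 3 -
      rad C (unt d n) d s'.x.length) (ahead (subE (unt d n) D'.A 0))) :
    f ∉ Mv.sqF (19 * W + rad C (unt d n) d s.x.length + rad C (unt d n) d s'.x.length)
      (ahead (subE (unt d n) D.A 0)) := by
  intro h
  apply hf
  have h1 := CntM.tip_dist S.X.near
  have h2 := CntM.tip_dist S'.X.near
  have e1 : (tS s q ω).1 = pS s.V q ω s.t := rfl
  have e2 : (tS s' q ω).1 = pS s'.V q ω s'.t := rfl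
  rw [e1, abs_le, abs_le] at h1
  rw [e2, hV, abs_le, abs_le] at h2
  rw [sd_le_iff] at hsd
  have h3 := hW.sm
  have h4 := hW'.sm
  have h5 := hW'.blk
  have h6 := hW.le
  have h7 := hW'.le
  have h8 := hW.u1
  have hr := S.mc.app.d_pos
  have hr' := S'.mc.app.d_pos
  have hLM : (𝔇.gr d s'.x D').L * (𝔇.gr d s'.x D').M =
    msh d s'.x.length * msz 𝔇.kap d s'.x.length := rfl
  rw [hLM]
  unfold Mv.sqF at h ⊢
  rw [Set.mem_ofPred_eq, abs_le, abs_le] at h ⊢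
  omega

variable {N' : ℕ} (hb : Cnt.Bas (cfS s.V q ω) (eS s.V q) (FU s.V \ QF q.1) N')
  (ht : s.t + σ ≤ s'.t) (hN : s'.t ≤ N')
  (hD : Dsc (unt d n) (rad C (unt d n) d s.x.length + 1)
    (D.nx (𝔇.gr d s.x D) (mvR 𝔇 d n s q D false ω)) D')

include hb ht hN hD

/-- **Claim A on the left** for two stages of a needle. -/
theorem cll {v vr v' vr' y : ℕ} (M : KL C 𝔇 d n W ω s q D κ m x j₁ j₂ i₂ v vr)
    (M' : KL C 𝔇 d n W ω s' q D' κ' m' x' j₁' j₂' i₂' v' vr') (hxy : x ≤ y) (hym : y < m)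
    (hy : side (uS s q ω) (tS s q ω) y = side (uS s' q ω) (tS s' q ω) vr') : y < v := by
  obtain ⟨hE, w, k, M⟩ := M
  obtain ⟨-, w', k', M'⟩ := M'
  have hR' := S'.X.toRunB.room
  rw [hV] at hR'
  have h3 := hW.sm
  have h6 := hW.le
  have h8 := hW.u1
  have hr := S.mc.app.d_pos
  exact S.mc.claimA_left hb S.X.toRunB.room rfl hR' ht (ht.trans hN)
    (Dat.cs_ok 𝔇 d S'.X.run) hD S'.X.app M.jw M.wr (M.ri.trans_le S.mc.lab.im) M.E M.rb M.ry M.kv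
    (M.vv.trans M.vm) M.lw hE (by omega) (far_tip S S' hW hW' hV hsd M'.fi) M'.lr hy hxy hym

/-- **Claim A on the right** for two stages of a needle. -/
theorem clr {v vr v' vr' y : ℕ} (M : KR C 𝔇 d n W ω s q D κ x i₁ j₁ j₂ v vr)
    (M' : KR C 𝔇 d n W ω s' q D' κ' x' i₁' j₁' j₂' v' vr')
    (hy : side (uS s q ω) (tS s q ω) y = side (uS s' q ω) (tS s' q ω) vr') : v < y := by
  obtain ⟨hE, w, k, M⟩ := M
  obtain ⟨-, w', k', M'⟩ := M'
  have hR' := S'.X.toRunB.room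
  rw [hV] at hR'
  have h3 := hW.sm
  have h6 := hW.le
  have h8 := hW.u1
  have hr := S.mc.app.d_pos
  exact S.mc.claimA_right hb S.X.toRunB.room rfl hR' ht (ht.trans hN)
    (Dat.cs_ok 𝔇 d S'.X.run) hD S'.X.app M.wj M.rw M.E M.rb M.ry M.vk M.lw hE (by omega)
    (far_tip S S' hW hW' hV hsd M'.fi) M'.lr hy

end Two

end Pool.Agent.SixB.CntZ
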