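import Pool.Agent.Lib.SixB.S8CountRow
import Pool.Agent.Lib.SixB.S8LawW

/-!
# Step 8, number of moves: the moves of a needle

* `Rn`: the moves `k < K` of one needle; `Rn.tgt`, `Rn.dsc`: the target side and the later domains;
* `Rn.stp`: the instance of `CntS.Stp`.
-/

set_option autoImplicit false

namespace Pool.Agent.SixB.CntZ

open Filter Finset Pool.Agent.Perc Pool.Agent.Perc6 Pool.Agent.PercT Pool.Agent.PercX60
open Pool.Agent.Perc6.C2Aux Pool.Agent.Perc.Tips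
open Pool.Agent.SixB Pool.Agent.SixB.Rule Pool.Agent.SixB.Dct Pool.Agent.SixB.Mv
open Pool.Agent.SixB.Tru
open Pool.Agent.SixB.Top (compT ChI lf rg compT_sub compT_eq self_mem_compT esc_compT BD joins_lf_rg)
open Pool.Agent.SixB.Blow (subE)
open Pool.Agent.SixB.CountP (sd sd_le_iff inB_iff)
open Pool.Agent.SixB.NearCut (Nb)
open Pool.Agent.SixB.CntM (MkL MkR)

/-- The moves `k < K` of one needle. -/
structure Rn (C : ℤ) (𝔇 : Dat) (d : ℕ → ℕ) (n : ℕ) (ω : Cfg) (V : Finset (ℤ × ℤ)) (q : Rule.Ndl)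
    (K : ℕ) (S : ℕ → TS) (W : ℤ) (R : ℕ → ℤ) (D : ℕ → Dom) (κ : ℕ → ℤ × ℤ → ℤ × ℤ)
    (m x i₁ j₁ t j₂ i₂ σ : ℕ → ℕ) : Prop where
  C0 : 0 ≤ C
  pos : 0 < K
  V : ∀ k ≤ K, (S k).V = V
  run : ∀ k ≤ K, RunB 𝔇 d n (R k) (S k) ω q (D k) (κ k) (m k) (x k)
  sg : ∀ k < K, Sg C 𝔇 d n ω (S k) (S (k + 1)) q (D k) (κ k) (m k) (x k) (i₁ k) (j₁ k) (t k) (j₂ k)
    (i₂ k) (σ k)
  num : ∀ k < K, NumW 𝔇 d n (S k).x.length (rad C (unt d n) d (S k).x.length) W
  hO : StO n (S 0) q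

namespace Rn

variable {C : ℤ} {𝔇 : Dat} {d : ℕ → ℕ} {n : ℕ} {ω : Cfg} {V : Finset (ℤ × ℤ)} {q : Rule.Ndl}
  {K : ℕ} {S : ℕ → TS} {W : ℤ} {R : ℕ → ℤ} {D : ℕ → Dom} {κ : ℕ → ℤ × ℤ → ℤ × ℤ}
  {m x i₁ j₁ t j₂ i₂ σ : ℕ → ℕ} (h : Rn C 𝔇 d n ω V q K S W R D κ m x i₁ j₁ t j₂ i₂ σ)

include h

theorem VB : V ⊆ Box n := by
  rw [← h.V 0 (Nat.zero_le _)]
  exact h.hO.box

theorem QV : QF q.1 ⊆ FU V := by
  rw [← h.V 0 (Nat.zero_le _)]
  exact h.hO.sub

theorem t_succ {k : ℕ} (hk : k < K) : (S (k + 1)).t = (S k).t + σ k := (h.sg k hk).t'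

theorem t_mono {k k' : ℕ} (hk : k ≤ k') (hk' : k' ≤ K) : (S k).t ≤ (S k').t := by
  induction k', hk using Nat.le_induction with
  | base => exact le_rfl
  | succ k' hk ih =>
    rw [h.t_succ (by omega)]
    exact (ih (by omega)).trans (Nat.le_add_right _ _)

theorem len {k : ℕ} (hk : k < K) : (S (k + 1)).x.length = (S k).x.length + 1 := by
  rw [(h.sg k hk).M.x]
  rfl

theorem len_mono {k k' : ℕ} (hk : k ≤ k') (hk' : k' ≤ K) : (S k).x.length ≤ (S k').x.length := by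
  induction k', hk using Nat.le_induction with
  | base => exact le_rfl
  | succ k' hk ih =>
    rw [h.len (by omega)]
    exact (ih (by omega)).trans (Nat.le_add_right _ _)

theorem D_succ {k : ℕ} (hk : k < K) :
    D (k + 1) = (D k).nx (𝔇.gr d (S k).x (D k)) (mvR 𝔇 d n (S k) q (D k) false ω) := by
  have h1 := (h.run (k + 1) hk).run
  have h2 := (h.sg k hk).M.run'
  rw [h1] at h2
  exact Option.some.inj h2

/-- **Later domains.** -/
theorem dsc {k k' : ℕ} (hk : k < k') (hk' : k' ≤ K) : Dsc (unt d n)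
    (rad C (unt d n) d (S k).x.length + 1)
    ((D k).nx (𝔇.gr d (S k).x (D k)) (mvR 𝔇 d n (S k) q (D k) false ω)) (D k') := by
  rw [← h.D_succ (hk.trans_le hk')]
  obtain ⟨l, rfl⟩ := Nat.exists_eq_add_of_lt hk
  induction l with
  | zero => exact .refl
  | succ l ih =>
    have h1 := ih (by omega) (by omega)
    have hl : k + l + 1 < K := by omega
    have h2 := (h.sg (k + l + 1) hl).mc.dsc (R := rad C (unt d n) d (S k).x.length + 1)
      (by
        have h3 := rad_mono h.C0 (unt d n) d (h.len_mono (show k ≤ k + l + 1 by omega) hl.le)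
        have h4 := rad_nonneg h.C0 (unt d n) d (S k).x.length
        omega) h1
    rwa [← h.D_succ hl] at h2

theorem tgtSt {k : ℕ} (hk : k < K) : TgtSt (S k) (S (k + 1)) q ω (x k) (σ k) := by
  have G := h.sg k hk
  by_cases hv : (D k).Void (𝔇.gr d (S k).x (D k))
  · rcases G.mc.mov with ⟨-, h1⟩ | ⟨h1, -⟩
    · exact Or.inl h1
    · exact absurd hv h1
  · have R := G.mc.rg hv
    refine Or.inr ⟨R.pos, fun hh => R.tgt_step.1 (Finset.mem_coe.2 hh), ?_⟩
    have h1 := (R.move G.mc.nE).2.2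
    have h2 : pth (cfS (S k).V q ω) (tS (S k) q ω).1 (σ k) = pS (S k).V q ω ((S k).t + σ k) :=
      pth_pS _
    rw [h2, ← G.t'] at h1
    exact h1

/-- **The target side.** -/
theorem tgt {k : ℕ} (hk : k ≤ K) : side (uS (S k) q ω) (tS (S k) q ω) (x k) =
    side (uS (S 0) q ω) (tS (S 0) q ω) (x 0) :=
  (RunB.tgt_chain (S := S) (k := K) h.run h.hO.box h.hO.sub
    (fun i hi => (h.V (i + 1) hi).trans (h.V i hi.le).symm) (fun _ hi => h.t_succ hi)
    (fun _ hi => h.tgtSt hi) hk).2.2.1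

theorem uS_eq {k : ℕ} (hk : k ≤ K) : uS (S k) q ω = compT ((FU V \ QF q.1) \
    (vS V q ω 0 (S k).t : Set (ℤ × ℤ))) (fa (pS V q ω (S k).t)) := by
  have h1 := h.V k hk
  unfold uS frS
  rw [h1]

theorem fre {k : ℕ} (hk : k ≤ K) : fa (pS V q ω (S k).t) ∈ (FU V \ QF q.1) \
    (vS V q ω 0 (S k).t : Set (ℤ × ℤ)) := by
  have h1 := (h.run k hk).fre
  unfold frS at h1
  rwa [h.V k hk] at h1

theorem tipE {k : ℕ} (hk : k ≤ K) : (tS (S k) q ω).1 = pS V q ω (S k).t := by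
  unfold tS
  rw [dirE_fst, h.V k hk]

theorem bdB : BD (uS (S 0) q ω) (side (uS (S 0) q ω) (tS (S 0) q ω) (x 0)) :=
  bd_side (h.run 0 (Nat.zero_le _)).tstS.cyc.bd _

theorem memB : ahead (side (uS (S 0) q ω) (tS (S 0) q ω) (x 0)) ∈ FU V \ QF q.1 := by
  have h1 := h.bdB.1
  have h2 := compT_sub (h.run 0 (Nat.zero_le _)).fre h1
  rw [← h.V 0 (Nat.zero_le _)]
  exact h2.1

theorem exitB : fa (side (uS (S 0) q ω) (tS (S 0) q ω) (x 0)).1 =
    ahead (rv (side (uS (S 0) q ω) (tS (S 0) q ω) (x 0))) := by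
  have h0 := (h.run 0 (Nat.zero_le _)).tstS
  have hpar : par (rg (side (uS (S 0) q ω) (tS (S 0) q ω) (x 0))) ≠ 0 := by
    have h1 := (joins_lf_rg (side (uS (S 0) q ω) (tS (S 0) q ω) (x 0))).par_ne
    have h2 : par (lf (side (uS (S 0) q ω) (tS (S 0) q ω) (x 0))) = 0 := h0.px
    omega
  exact (bwd_of_par hpar).1

/-- **One needle step**: the data for the number of the moves. -/
theorem stp {T : Finset Edg} (hI : Rule.Inv n T V) (hw : (exS V q).Wll ω) {N' : ℕ} {L : ℤ}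
    (hnb : Nb (cfS V q ω) (eS V q) N')
    (hlt : ∀ k ≤ K, (S k).t ≤ N')
    (hhit : ∃ t ≤ N', fa (pS V q ω t) = ahead (side (uS (S 0) q ω) (tS (S 0) q ω) (x 0)))
    (hout : ahead (rv (side (uS (S 0) q ω) (tS (S 0) q ω) (x 0))) ∉ FU V \ QF q.1)
    (hwin : ∀ k < K, sd (ua (pS V q ω (S k).t)) 0 ≤ L) :
    CntS.Stp (exS V q) ω N' (side (uS (S 0) q ω) (tS (S 0) q ω) (x 0)) (range K)
      (fun k => (S k).t) (fun k => uS (S k) q ω) (fun k => tS (S k) q ω) m x
      (fun k => KL C 𝔇 d n W ω (S k) q (D k) (κ k) (m k) (x k) (j₁ k) (j₂ k) (i₂ k))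
      (fun k => KR C 𝔇 d n W ω (S k) q (D k) (κ k) (x k) (i₁ k) (j₁ k) (j₂ k))
      (21 * W) (61 * W) (16 * W) L (8 * W) := by
  obtain ⟨k₀, hk₀, hvt⟩ := h.hO.ndl
  have hV0 := h.V 0 (Nat.zero_le _)
  rw [hV0] at hk₀
  have hfb : fb (eS V q) ∉ FU V \ QF q.1 := fb_eS' ⟨k₀, hk₀, hvt⟩
  have hbas : Cnt.Bas (cfS V q ω) (eS V q) (FU V \ QF q.1) N' :=
    Cnt.bas_of_wll (E := exS V q) (ω := ω) hw hfb hnb
  refine
    { wll := hw
      nb := hnb
      fin := (finite_FU h.VB).subset fun _ hf => hf.1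
      esc := esc_compT ((finite_FU h.VB).subset fun _ hf => hf.1) (hk₀.esc hI) h.memB
      bd := h.memB
      bd' := hout
      exit := ?_
      back := hfb
      hit := hhit
      mono := ?_
      hU := ?_
      tipU := ?_
      tip := ?_
      cyc := ?_
      xm := ?_
      tgt := ?_
      win := ?_
      kind := ?_
      mkl := ?_
      mkr := ?_
      cll := ?_
      clr := ?_ }
  · rw [h.exitB]
    exact hout
  · intro k hk k' hk' hkk
    rw [mem_range] at hk hk'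
    exact h.t_mono hkk hk'.le
  · intro k hk
    rw [mem_range] at hk
    exact h.uS_eq hk.le
  · intro k hk
    rw [mem_range] at hk
    exact h.fre hk.le
  · intro k hk
    rw [mem_range] at hk
    exact h.tipE hk.le
  · intro k hk
    rw [mem_range] at hk
    exact (h.run k hk.le).tstS.cyc
  · intro k hk
    rw [mem_range] at hk
    exact (h.run k hk.le).tstS.lt
  · intro k hk
    rw [mem_range] at hk
    exact h.tgt hk.le
  · intro k hk
    rw [mem_range] at hk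
    exact hwin k hk
  · intro k hk
    rw [mem_range] at hk
    rcases (h.sg k hk).kind (h.num k hk) with ⟨h1, h2⟩ | h1 | h1
    · left
      refine ⟨(S (k + 1)).t, ?_, hlt (k + 1) hk, ?_, fun k' hk' hkk => ?_⟩
      · show (S k).t < (S (k + 1)).t
        rw [h.t_succ hk]
        omega
      · rw [h.V k hk.le] at h2
        rw [h.t_succ hk]
        exact h2
      · rw [mem_range] at hk'
        exact h.t_mono hkk hk'.le
    · exact Or.inr (Or.inl h1)
    · exact Or.inr (Or.inr h1)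
  · intro k hk v vr hkl
    rw [mem_range] at hk
    obtain ⟨-, w, k', M⟩ := hkl
    have h1 := M.inB (h.sg k hk).X.near
    have h2 := (h.num k hk).sm
    have h3 := (h.num k hk).blk
    have h4 := (h.num k hk).le
    have h5 := (h.num k hk).u1
    have hr := (h.sg k hk).mc.app.d_pos
    rw [h.tipE hk.le] at h1
    rw [inB_iff, inB_iff, not_le] at h1
    refine ⟨M.kv, M.vv, M.vm, h1.1.trans (by omega), ?_⟩
    have hLM : (𝔇.gr d (S k).x (D k)).L * (𝔇.gr d (S k).x (D k)).M =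
      msh d (S k).x.length * msz 𝔇.kap d (S k).x.length := rfl
    rw [hLM] at h1
    exact le_trans (by omega) h1.2.le
  · intro k hk v vr hkr
    rw [mem_range] at hk
    obtain ⟨-, w, k', M⟩ := hkr
    have h1 := M.inB (h.sg k hk).X.near
    have h2 := (h.num k hk).sm
    have h3 := (h.num k hk).blk
    have h4 := (h.num k hk).le
    have h5 := (h.num k hk).u1
    have hr := (h.sg k hk).mc.app.d_pos
    rw [h.tipE hk.le] at h1
    rw [inB_iff, inB_iff, not_le] at h1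
    refine ⟨M.vv, M.vk.le, h1.1.trans (by omega), ?_⟩
    have hLM : (𝔇.gr d (S k).x (D k)).L * (𝔇.gr d (S k).x (D k)).M =
      msh d (S k).x.length * msz 𝔇.kap d (S k).x.length := rfl
    rw [hLM] at h1
    exact le_trans (by omega) h1.2.le
  · intro k hk k' hk' hkk v vr v' vr' hkl hkl' hsd y hy1 hy2 hy3
    rw [mem_range] at hk hk'
    have hVk := h.V k hk.le
    have hVk' := h.V k' hk'.le
    refine cll (h.sg k hk) (h.sg k' hk') (h.num k hk) (h.num k' hk') (hVk'.trans hVk.symm)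
      (by rw [hVk]; exact hsd.trans (by omega)) (N' := N') (by rw [hVk]; exact hbas)
      (by rw [← h.t_succ hk]; exact h.t_mono hkk hk'.le) (hlt k' hk'.le) (h.dsc hkk hk'.le) hkl hkl'
      hy1 hy2 hy3
  · intro k hk k' hk' hkk v vr v' vr' hkr hkr' hsd y hy1 hy3
    rw [mem_range] at hk hk'
    have hVk := h.V k hk.le
    have hVk' := h.V k' hk'.le
    exact clr (h.sg k hk) (h.sg k' hk') (h.num k hk) (h.num k' hk') (hVk'.trans hVk.symm)
      (by rw [hVk]; exact hsd.trans (by omega)) (N' := N') (by rw [hVk]; exact hbas)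
      (by rw [← h.t_succ hk]; exact h.t_mono hkk hk'.le) (hlt k' hk'.le) (h.dsc hkk hk'.le) hkr hkr'
      hy3

end Rn

end Pool.Agent.SixB.CntZ
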