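import Pool.Agent.Lib.SixB.S8LawH

/-!
# Step 8: the rows of the law and of the dead stops for an invariant

* `BasI`: the base of the running needle is near the coarse target side;
* `LawInv C 𝔇 I`: what the law needs from the invariant `I`;
* `LawInv.pastOK`, `LawInv.rowEst`, `LawInv.smY_dead`: the rows for the bad events `BdI I 𝔇`.
-/

set_option autoImplicit false

namespace Pool.Agent.SixB.Tru

open Filter Finset Pool.Agent.Perc Pool.Agent.PercT Pool.Agent.PercX60 Pool.Agent.PercD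
open Pool.Agent.SixB Pool.Agent.SixB.Rule Pool.Agent.SixB.Dct Pool.Agent.SixB.Mv
open Pool.Agent.SixB.Near
open Pool.Agent.SixB.Blow (subE)
open Pool.Agent.SixB.Top (lf rg)

/-- The base of the running needle is near the coarse target side. -/
def BasI (C : ℤ) (𝔇 : Dat) : InvP := fun d n _ s _ =>
  ∀ q D, s.q = some q → (𝔇.cs d s.x).run = some D → (𝔇.cs d s.x).ini = false →
    LC.InB (lf (subE (unt d n) D.B 0)) (rad C (unt d n) d s.x.length) (ua (eS s.V q))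

/-- The invariant of the running stages as an `InvP`. -/
def RunVI (C : ℤ) (𝔇 : Dat) : InvP := fun d n _ s ω =>
  RunV 𝔇 d n (rad C (unt d n) d s.x.length) s ω

/-- The true needle is running if the coarse domain is. -/
def QI (𝔇 : Dat) : InvP := fun d _ _ s _ =>
  ∀ D, (𝔇.cs d s.x).run = some D → ∃ q, s.q = some q

theorem basI_dec (C : ℤ) (𝔇 : Dat) : InvDec (BasI C 𝔇) := fun _ _ _ _ _ _ _ h => h

theorem runVI_dec (C : ℤ) (𝔇 : Dat) : InvDec (RunVI C 𝔇) := fun _ _ _ _ _ _ h H => H.congr h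

theorem qI_dec (𝔇 : Dat) : InvDec (QI 𝔇) := fun _ _ _ _ _ _ _ h => h

/-- Near the end of the step the move is void. -/
def VoidN (𝔇 : Dat) : Prop := ∀ {d n r s ω q D κ m x}, RunN 𝔇 d n r s ω q D κ m x → 0 < unt d n →
  16 ∣ msh d s.x.length → 3 * r + 6 ≤ unt d n * (msh d s.x.length / 16) →
  D.Void (𝔇.gr d s.x D)

/-- **What the law needs from the invariant.** -/
structure LawInv (C : ℤ) (𝔇 : Dat) (I : InvP) : Prop where
  C1 : 1 ≤ C
  void : VoidN 𝔇
  run : ∀ d n i ω, I d n i (tst 𝔇 d n ω i) ω → RunVI C 𝔇 d n i (tst 𝔇 d n ω i) ω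
  q : ∀ d n i ω, I d n i (tst 𝔇 d n ω i) ω → QI 𝔇 d n i (tst 𝔇 d n ω i) ω
  bas : ∀ d n i ω, I d n i (tst 𝔇 d n ω i) ω → BasI C 𝔇 d n i (tst 𝔇 d n ω i) ω

variable {C : ℤ} {𝔇 : Dat} {I : InvP}

/-- **The data of all good pasts.** -/
theorem LawInv.pastOK (h : LawInv C 𝔇 I) (G : ℕ → ℕ → ℕ) : PastOK C 𝔇 G (BdI I 𝔇) := by
  refine pastOK_of h.C1 (fun d n i ω hω => h.q d n i ω (notMem_bdI.1 hω).1)
    (fun d n i ω hω => h.run d n i ω (notMem_bdI.1 hω).1) h.void ?_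
  intro d n i ω q D κ m x i₁ j₁ t j₂ i₂ E hR hω hu h16 hv hN
  have hω' := notMem_bdI.1 hω
  refine hno_of hR hu h16 hv hN (h.bas d n i ω hω'.1 q D hR.hq hR.run hR.ini) fun z h1 h2 => ?_
  exact not_gateS hω'.2 hR.hq (r := 8 * Sc.ls d n (Sc.eR (d i) (d (i + 1)))) le_rfl h1 h2

/-- **The row `RowEst`.** -/
theorem LawInv.rowEst (h : LawInv C 𝔇 I) {G : ℕ → ℕ → ℕ} (hG : ∀ i e, e < G i e) :
    RowEst 𝔇 G (BdI I 𝔇) := (h.pastOK G).rowEst hG

/-- **The dead stops are rare.** -/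
theorem LawInv.smY_dead (h : LawInv C 𝔇 I) (hI : InvDec I) {G : ℕ → ℕ → ℕ}
    (hG : ∀ i e, e < G i e) (htst : RowTst 𝔇) (hgrow : RowGrow 𝔇) :
    SmY G (BdI I 𝔇) (Dead C 𝔇) := (h.pastOK G).smY_dead hG htst hgrow (rowBad hI htst)

end Pool.Agent.SixB.Tru
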