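import Pool.Agent.Lib.SixB.S8Inv
import Pool.Agent.Lib.SixB.S8LawI

/-!
# Step 8, unit 8H: the invariant of the chain for large `n`

* `NumR a d n m`: the numbers of the stages up to `m + 1` (a condition as in `rowRare_of_step`);
  `numR_ev`: it holds for large `n` if the resolutions grow fast; `NumR.numO`: the numbers of a stage;
* `voidN`: the stage beside the target is void;
* `tst_succ_run`: the stage before a running stage;
* `runVI_step`, `qI_step`, `basI_step`: the steps of the parts `RunVI`, `QI`, `BasI` of the invariant.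
-/

set_option autoImplicit false

namespace Pool.Agent.SixB.Tru

open Filter Finset Pool.Agent.Perc Pool.Agent.PercT
open Pool.Agent.SixB Pool.Agent.SixB.Rule Pool.Agent.SixB.Dct Pool.Agent.SixB.Mv
open Pool.Agent.SixB.Blow (subE)
open Pool.Agent.SixB.Top (compT lf rg)
open Pool.Agent.Perc.Tips (ahead)

variable {𝔇 : Dat} {d : ℕ → ℕ} {n m i a : ℕ} {ω : Cfg} {q : Rule.Ndl} {D : Dom} {C : ℤ}

/-! ### Numbers -/

/-- The numbers of the stages up to `m + 1`. -/
def NumR (a : ℕ) (d : ℕ → ℕ) (n m : ℕ) : Prop := 0 < unt d n ∧ ∀ i ≤ m, d (i + 1) + a ≤ d i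

theorem numR_ev {G : ℕ → ℕ → ℕ} (hG : ∀ i e, e + a ≤ G i e) (m : ℕ) (d : ℕ → ℕ)
    (h : GroF G (m + 1) d) : ∀ᶠ n in atTop, NumR a d n m := by
  filter_upwards [eventually_ge_atTop (2 ^ d 0)] with n hn
  exact ⟨Nat.div_pos hn (by positivity), fun i hi => (hG i _).trans (h i (by omega))⟩

theorem NumR.le (h : NumR a d n m) {k : ℕ} (hk : k ≤ m) : NumR a d n k :=
  ⟨h.1, fun i hi => h.2 i (hi.trans hk)⟩

theorem NumR.dec (h : NumR a d n m) (ha : 0 < a) : Sc.Dec d (m + 1) := fun i hi => by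
  have := h.2 i (by omega)
  omega

/-- The numbers of a stage. -/
theorem NumR.numO (h : NumR a d n m) (hC : 0 ≤ C) (ha : 16 * (9 * C + 6) ≤ 2 ^ a) {i : ℕ}
    (hi : i ≤ m) : NumO d n (i + 1) (rad C (unt d n) d (i + 1)) := by
  have ha4 : 4 ≤ a := by
    by_contra hcon
    have h1 : (2 : ℤ) ^ a ≤ 2 ^ 3 := pow_le_pow_right₀ (by norm_num) (by omega)
    omega
  have hdec := h.dec (by omega)
  have h0 := hdec.anti i (by omega) 0 (by omega)
  have hi1 := h.2 i hi
  have hu : (0 : ℤ) < unt d n := by exact_mod_cast h.1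
  have hm : 0 < msh d i := msh_pos d i
  have h16 : (16 : ℤ) ∣ msh d (i + 1) := msh_16 (by omega)
  -- the mesh grows
  have hms : 2 ^ a * msh d i ≤ msh d (i + 1) := InvN.msh_step hi1 h0
  -- the radius
  have hr := hdec.rad i (by omega)
  have hrad : rad C (unt d n) d (i + 1) ≤ 3 * C * (unt d n * msh d i) := by
    unfold rad
    have h2 : (0 : ℤ) ≤ C * unt d n := by positivity
    have h3 := mul_le_mul_of_nonneg_left hr h2
    linarith
  obtain ⟨k, hk⟩ := h16
  have hk0 : 0 < k := by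
    have h1 := msh_pos d (i + 1)
    omega
  have e1 : msh d (i + 1) / 16 = k := by omega
  have e2 : k < msh d (i + 1) / 5 := by omega
  have hkm : (9 * C + 6) * msh d i ≤ k := by
    have h1 : 16 * (9 * C + 6) * msh d i ≤ 16 * k := by
      rw [← hk]
      exact (mul_le_mul_of_nonneg_right ha hm.le).trans hms
    linarith
  have hum : 1 ≤ (unt d n : ℤ) * msh d i := Int.add_one_le_iff.2 (mul_pos hu hm)
  have hfar : 3 * rad C (unt d n) d (i + 1) + 6 ≤ unt d n * k := by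
    have h1 : (unt d n : ℤ) * ((9 * C + 6) * msh d i) ≤ unt d n * k :=
      mul_le_mul_of_nonneg_left hkm hu.le
    have h2 : (unt d n : ℤ) * ((9 * C + 6) * msh d i) =
        3 * (3 * C * (unt d n * msh d i)) + 6 * (unt d n * msh d i) := by ring
    linarith
  exact
    { hu := h.1
      h16 := ⟨k, hk⟩
      far := hfar.trans_lt (mul_lt_mul_of_pos_left e2 hu)
      farB := by
        rw [e1]
        exact hfar }

/-- The stage beside the target is void. -/
theorem voidN (𝔇 : Dat) : VoidN 𝔇 := by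
  intro d n r s ω q D κ m x X hu h16 hfar
  refine (X.end_void (ρ := (∅, 0)) { hu := hu, h16 := h16, far := ?_, farB := hfar }).1
  have h1 := msh_pos d s.x.length
  obtain ⟨k, hk⟩ := h16
  have h2 : msh d s.x.length / 16 < msh d s.x.length / 5 := by omega
  exact hfar.trans_lt (mul_lt_mul_of_pos_left h2 (by exact_mod_cast hu))

/-! ### The stage before a running stage -/

/-- The time of the first stop: the state after the first stage of a needle. -/
theorem tst_succ_run {D' : Dom} (hq' : (tst 𝔇 d n ω (i + 1)).q = some q)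
    (hD' : (𝔇.cs d (tst 𝔇 d n ω (i + 1)).x).run = some D')
    (hi' : (𝔇.cs d (tst 𝔇 d n ω (i + 1)).x).ini = false) :
    ∃ D, (tst 𝔇 d n ω i).q = some q ∧ (𝔇.cs d (tst 𝔇 d n ω i).x).run = some D ∧
      (((𝔇.cs d (tst 𝔇 d n ω i).x).ini = true ∧ D' = D ∧
        tst 𝔇 d n ω (i + 1) = ⟨(tst 𝔇 d n ω i).V, some q,
          staT n (unt d n) (tst 𝔇 d n ω i).V q D.B ω, (∅, 0) :: (tst 𝔇 d n ω i).x⟩) ∨
      ((𝔇.cs d (tst 𝔇 d n ω i).x).ini = false ∧
        ¬ D.End (𝔇.gr d (tst 𝔇 d n ω i).x D) (mvR 𝔇 d n (tst 𝔇 d n ω i) q D false ω) ∧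
        D' = D.nx (𝔇.gr d (tst 𝔇 d n ω i).x D) (mvR 𝔇 d n (tst 𝔇 d n ω i) q D false ω) ∧
        D'.Ok ∧
        tst 𝔇 d n ω (i + 1) = ⟨(tst 𝔇 d n ω i).V, some q,
          mvT 𝔇 d n (tst 𝔇 d n ω i) q D false ω,
          mvR 𝔇 d n (tst 𝔇 d n ω i) q D false ω :: (tst 𝔇 d n ω i).x⟩)) := by
  rcases hq0 : (tst 𝔇 d n ω i).q with _ | q₀
  · exfalso
    rw [tst_succ] at hq' hD' hi'
    rcases hD0 : (𝔇.cs d (tst 𝔇 d n ω i).x).run with _ | D
    · rw [nxS_rest hq0 hD0] at hD' hi'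
      rw [plS_x, Dat.cs_cons] at hD' hi'
      rw [mv_ini_none hD0, hD'] at hi'
      exact absurd hi' (by simp)
    · rw [nxS_skip hq0 hD0] at hq'
      exact absurd hq' (by simp)
  · obtain ⟨D, hD, hst⟩ := tst_run hq0
    have hfin := hq'
    rw [hst] at hfin
    obtain ⟨e1, e2, e3, e4⟩ := finS_q hfin
    subst e1
    obtain ⟨D₁, hD₁⟩ := Option.isSome_iff_exists.1 e2
    have hst' := hst
    rw [finS_run hD₁] at hst'
    refine ⟨D, rfl, hD, ?_⟩
    rcases hi : (𝔇.cs d (tst 𝔇 d n ω i).x).ini with _ | _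
    · right
      rw [hi] at hst' hD₁
      have hnE : ¬ D.End (𝔇.gr d (tst 𝔇 d n ω i).x D)
          (mvR 𝔇 d n (tst 𝔇 d n ω i) q D false ω) := by
        intro hE
        rw [Dat.cs_cons, mv_end hD hi hE] at hD₁
        exact absurd hD₁ (by simp)
      have hnO : (D.nx (𝔇.gr d (tst 𝔇 d n ω i).x D)
          (mvR 𝔇 d n (tst 𝔇 d n ω i) q D false ω)).Ok := by
        by_contra hO
        rw [Dat.cs_cons, mv_bad hD hi hO] at hD₁
        exact absurd hD₁ (by simp)
      have hDD : D' = D.nx (𝔇.gr d (tst 𝔇 d n ω i).x D)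
          (mvR 𝔇 d n (tst 𝔇 d n ω i) q D false ω) := by
        have h1 := (cs_next hD hi hnE hnO).1
        rw [hst'] at hD'
        exact Option.some.inj (hD'.symm.trans h1)
      refine ⟨rfl, hnE, hDD, ?_, hst'⟩
      rw [hDD]
      exact hnO
    · left
      rw [hi] at hst' hD₁
      have hT : mvT 𝔇 d n (tst 𝔇 d n ω i) q D true ω =
          staT n (unt d n) (tst 𝔇 d n ω i).V q D.B ω := by
        unfold mvT
        rw [if_pos rfl]
      have hRr : mvR 𝔇 d n (tst 𝔇 d n ω i) q D true ω = (∅, 0) := by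
        unfold mvR
        rw [if_pos (Or.inl rfl)]
      rw [hT, hRr] at hst'
      refine ⟨rfl, ?_, hst'⟩
      rw [hst', Dat.cs_cons, mv_enter hD hi] at hD'
      exact (Option.some.inj hD').symm

/-! ### The steps of the invariant -/

/-- **The step of `RunVI`.** `hS`: the first stage of a needle. -/
theorem runVI_step (hC : 9 ≤ C) (ha : 16 * (9 * C + 6) ≤ 2 ^ a) (hN : NumR a d n i)
    (hR : ω ∉ Dead C 𝔇 d n i)
    (hS : ∀ q D, (tst 𝔇 d n ω i).q = some q → (𝔇.cs d (tst 𝔇 d n ω i).x).run = some D →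
      (𝔇.cs d (tst 𝔇 d n ω i).x).ini = true → RunVI C 𝔇 d n (i + 1) (tst 𝔇 d n ω (i + 1)) ω)
    (h : RunVI C 𝔇 d n i (tst 𝔇 d n ω i) ω) :
    RunVI C 𝔇 d n (i + 1) (tst 𝔇 d n ω (i + 1)) ω := by
  refine runV_succ hC ?_ (fun q D hq hD hini hv => exists_regS hR hq hD hini hv) hS h
  rw [tst_len]
  exact hN.numO (by omega) ha le_rfl

/-- **The step of `QI`.** `hP`: the placing of a needle. -/
theorem qI_step
    (hP : (tst 𝔇 d n ω i).q = none → (𝔇.cs d (tst 𝔇 d n ω i).x).run = none →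
      QI 𝔇 d n (i + 1) (tst 𝔇 d n ω (i + 1)) ω)
    (h : QI 𝔇 d n i (tst 𝔇 d n ω i) ω) : QI 𝔇 d n (i + 1) (tst 𝔇 d n ω (i + 1)) ω := by
  rcases hq0 : (tst 𝔇 d n ω i).q with _ | q
  · rcases hD0 : (𝔇.cs d (tst 𝔇 d n ω i).x).run with _ | D
    · exact hP hq0 hD0
    · obtain ⟨q, hq⟩ := h D hD0
      exact absurd (hq0.symm.trans hq) (by simp)
  · obtain ⟨D, hD, hst⟩ := tst_run hq0
    intro D' hD'
    have h1 : (tst 𝔇 d n ω (i + 1)).x =
        mvR 𝔇 d n (tst 𝔇 d n ω i) q D (𝔇.cs d (tst 𝔇 d n ω i).x).ini ω ::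
          (tst 𝔇 d n ω i).x := by
      rw [hst]
      exact finS_x 𝔇 d n _ _ _ _ ω
    rw [h1] at hD'
    rw [finS_run hD'] at hst
    exact ⟨q, by rw [hst]⟩

/-- **The step of `BasI`.** `hS`: the first stage of a needle. -/
theorem basI_step (hC : 0 ≤ C)
    (hS : ∀ q D, (tst 𝔇 d n ω i).q = some q → (𝔇.cs d (tst 𝔇 d n ω i).x).run = some D →
      (𝔇.cs d (tst 𝔇 d n ω i).x).ini = true →
      LC.InB (lf (subE (unt d n) D.B 0)) (rad C (unt d n) d (tst 𝔇 d n ω i).x.length)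
        (ua (eS (tst 𝔇 d n ω i).V q)))
    (h : BasI C 𝔇 d n i (tst 𝔇 d n ω i) ω) : BasI C 𝔇 d n (i + 1) (tst 𝔇 d n ω (i + 1)) ω := by
  intro q D' hq' hD' hi'
  obtain ⟨D, hq, hD, hcase⟩ := tst_succ_run hq' hD' hi'
  have hrad : rad C (unt d n) d (tst 𝔇 d n ω i).x.length ≤
      rad C (unt d n) d (tst 𝔇 d n ω (i + 1)).x.length :=
    rad_mono hC _ _ (by rw [tst_len, tst_len]; omega)
  rcases hcase with ⟨hini, hDD, hst⟩ | ⟨hini, -, hDD, -, hst⟩
  · have h1 := hS q D hq hD hini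
    have e1 : (tst 𝔇 d n ω (i + 1)).V = (tst 𝔇 d n ω i).V := by rw [hst]
    rw [e1, hDD]
    exact InvN.InB.mono h1 hrad
  · have h1 := h q D hq hD hini
    have e1 : (tst 𝔇 d n ω (i + 1)).V = (tst 𝔇 d n ω i).V := by rw [hst]
    rw [e1, hDD]
    exact InvN.InB.mono h1 hrad

/-- The first stage. -/
theorem runVI_zero : RunVI C 𝔇 d n 0 (tst 𝔇 d n ω 0) ω := runV_zero

theorem basI_zero : BasI C 𝔇 d n 0 (tst 𝔇 d n ω 0) ω := by
  intro q' D' hq' hD' hi'
  exfalso
  rw [tst_zero] at hq' hD' hi'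
  have hD0 : (𝔇.cs d ([] : List Rec)).run = none := rfl
  rw [nxS_rest (s := ⟨Box n, none, 0, []⟩) rfl hD0] at hD' hi'
  rw [plS_x, Dat.cs_cons] at hD' hi'
  rw [mv_ini_none hD0, hD'] at hi'
  exact absurd hi' (by simp)

end Pool.Agent.SixB.Tru
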