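import Pool.Agent.Lib.SixB.S8CountRowB
import Pool.Agent.Lib.SixB.S8InvA
import Pool.Agent.Lib.SixB.S8LawI
import Pool.Agent.Lib.SixB.S8CountK
import Pool.Agent.Lib.SixB.S8CountK2

/-!
# Step 8, number of moves: the row `RowCnt`

* `stages_start`: the stages of a needle, with the time of the first one;
* `exists_rn`: the data of the moves of a needle; `core`: the number of the stages;
* `rowCnt`: the row.
-/

set_option autoImplicit false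

namespace Pool.Agent.SixB.CntZ

open Filter Finset Pool.Agent.Perc Pool.Agent.Perc6 Pool.Agent.PercT Pool.Agent.PercX60
open Pool.Agent.Perc6.C2Aux Pool.Agent.Perc.Tips
open Pool.Agent.SixB Pool.Agent.SixB.Rule Pool.Agent.SixB.Dct Pool.Agent.SixB.Mv
open Pool.Agent.SixB.Tru Pool.Agent.SixB.CntJ
open Pool.Agent.SixB.Top (compT ChI lf rg compT_sub compT_eq self_mem_compT esc_compT BD)
open Pool.Agent.SixB.Blow (subE)
open Pool.Agent.SixB.CountP (sd sd_le_iff inB_iff)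
open Pool.Agent.SixB.NearCut (Nb)

variable {𝔇 : Dat} {d : ℕ → ℕ} {n N : ℕ} {C : ℤ} {ω : Cfg} {q : Rule.Ndl} {V : Finset (ℤ × ℤ)}

/-- **The stages of a needle**, with the time of the first one. -/
theorem stages_start {j K : ℕ} (hK : #{i ∈ range (N + 1) | nfin 𝔇 d n ω i = j} = K) (h4 : 4 ≤ K)
    (hq : ∀ i < N, (𝔇.cs d (tst 𝔇 d n ω i).x).run.isSome = true →
      (tst 𝔇 d n ω i).q.isSome = true) :
    ∃ (a : ℕ) (V : Finset (ℤ × ℤ)) (q : Rule.Ndl), a + K ≤ N + 2 ∧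
      TruR.ruleT 𝔇 d n j (cfgE n ω) = some q ∧ rem n (TruR.ruleT 𝔇 d n) j ω = V ∧
      (𝔇.cs d (tst 𝔇 d n ω a).x).j = j + 1 ∧
      (∀ D, (𝔇.cs d (tst 𝔇 d n ω a).x).run = some D →
        (tst 𝔇 d n ω a).t = staT n (unt d n) V q D.B ω) ∧
      (∀ m, m + 2 < K → (tst 𝔇 d n ω (a + m)).V = V ∧ (tst 𝔇 d n ω (a + m)).q = some q ∧
        (𝔇.cs d (tst 𝔇 d n ω (a + m)).x).run.isSome = true ∧
        (𝔇.cs d (tst 𝔇 d n ω (a + m)).x).ini = false) ∧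
      ∀ m, m + 3 < K → ∃ D, MvS 𝔇 d n ω (tst 𝔇 d n ω (a + m)) (tst 𝔇 d n ω (a + (m + 1))) q D := by
  rcases stages 𝔇 d n ω N j with h0 | ⟨a, ha⟩
  · omega
  rw [hK] at ha
  have hle := ha.le
  have h1 : (tst 𝔇 d n ω a).q.isSome = true :=
    hq a (by omega) (ha.run (a + 1) (by omega) (by omega))
  obtain ⟨q, hqa⟩ := Option.isSome_iff_exists.1 h1
  have hV : rem n (TruR.ruleT 𝔇 d n) j ω = (tst 𝔇 d n ω a).V :=
    (ha.V_eq hqa le_rfl (by omega)).symm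
  obtain ⟨g1, g2⟩ := ha.q_V hqa (i := a + 1) (by omega) (by omega)
  refine ⟨a + 1, (tst 𝔇 d n ω a).V, q, by omega, ha.rule.trans hqa, hV,
    ha.cnt (by omega) (by omega), fun D hD => ?_, fun m hm => ?_, fun m hm => ha.mov hqa hm⟩
  · obtain ⟨D₀, -, -, ⟨-, e1, e2⟩ | ⟨e1, -⟩⟩ := tst_succ_run g1 hD
      (ha.ini_false (by omega) (by omega))
    · rw [e2, e1]
    · rw [ha.ini_true (by omega)] at e1
      exact absurd e1 (by simp)
  · obtain ⟨g1, g2⟩ := ha.q_V hqa (i := a + 1 + m) (by omega) (by omega)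
    exact ⟨g2, g1, ha.run (a + 1 + m + 1) (by omega) (by omega),
      ha.ini_false (by omega) (by omega)⟩

/-- **The data of the moves of a needle.** -/
theorem exists_rn (hZ : NumZ 𝔇 C d n N) (hC : 0 ≤ C) (hV : ∀ i < N, InvV C 𝔇 d n i ω)
    (hD : ∀ i < N, ω ∉ Dead C 𝔇 d n i) {a K : ℕ} (hK : 0 < K) (haK : a + K < N)
    (hst : ∀ m ≤ K, (tst 𝔇 d n ω (a + m)).V = V ∧ (tst 𝔇 d n ω (a + m)).q = some q ∧
      (𝔇.cs d (tst 𝔇 d n ω (a + m)).x).run.isSome = true ∧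
      (𝔇.cs d (tst 𝔇 d n ω (a + m)).x).ini = false)
    (hmv : ∀ m < K, ∃ D, MvS 𝔇 d n ω (tst 𝔇 d n ω (a + m)) (tst 𝔇 d n ω (a + (m + 1))) q D) :
    ∃ R D κ m x i₁ j₁ t j₂ i₂ σ, Rn C 𝔇 d n ω V q K (fun k => tst 𝔇 d n ω (a + k))
      (Sc.ls d n 𝔇.kap / 64) R D κ m x i₁ j₁ t j₂ i₂ σ := by
  have key : ∀ k, ∃ D κ m x i₁ j₁ t j₂ i₂ σ,
      (k < K → Sg C 𝔇 d n ω (tst 𝔇 d n ω (a + k)) (tst 𝔇 d n ω (a + (k + 1))) q D κ m x i₁ j₁ t
        j₂ i₂ σ) ∧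
      (k ≤ K → RunB 𝔇 d n (rad C (unt d n) d (tst 𝔇 d n ω (a + k)).x.length)
        (tst 𝔇 d n ω (a + k)) ω q D κ m x) := by
    intro k
    rcases lt_trichotomy k K with hk | rfl | hk
    · obtain ⟨D, M⟩ := hmv k hk
      obtain ⟨κ, m, x, i₁, j₁, t, j₂, i₂, σ, h⟩ :=
        exists_sg (hV (a + k) (by omega)) (hZ.num (a + k) (by omega)) (hD (a + k) (by omega)) M
      exact ⟨D, κ, m, x, i₁, j₁, t, j₂, i₂, σ, fun _ => h, fun _ => h.X.toRunB⟩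
    · obtain ⟨h1, h2, h3, h4⟩ := hst k le_rfl
      obtain ⟨D, hD⟩ := Option.isSome_iff_exists.1 h3
      rcases hV (a + k) haK q D h2 hD h4 with ⟨κ, m, x, i₁, j₁, t, j₂, i₂, X⟩ | ⟨κ, m, x, X⟩
      · exact ⟨D, κ, m, x, 0, 0, 0, 0, 0, 0, fun h => absurd h (lt_irrefl _), fun _ => X.toRunB⟩
      · exact ⟨D, κ, m, x, 0, 0, 0, 0, 0, 0, fun h => absurd h (lt_irrefl _), fun _ => X.toRunB⟩
    · obtain ⟨D, M⟩ := hmv 0 hK
      exact ⟨D, id, 0, 0, 0, 0, 0, 0, 0, 0, fun h => absurd h (by omega), fun h =>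
        absurd h (by omega)⟩
  choose D κ m x i₁ j₁ t j₂ i₂ σ h using key
  refine ⟨_, D, κ, m, x, i₁, j₁, t, j₂, i₂, σ,
    { C0 := hC
      pos := hK
      V := fun k hk => (hst k hk).1
      run := fun k hk => (h k).2 hk
      sg := fun k hk => (h k).1 hk
      num := fun k hk => ?_
      hO := stO_tst (hst 0 (Nat.zero_le _)).2.1 }⟩
  have h1 := hZ.numW hC (i := a + k) (by omega)
  have h2 : (tst 𝔇 d n ω (a + k)).x.length = a + k + 1 := tst_len 𝔇 d n ω (a + k)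
  show NumW 𝔇 d n (tst 𝔇 d n ω (a + k)).x.length _ _
  rw [h2]
  exact h1

/-! ### The exploration of the rule -/

theorem stp_ext {E E' : Ex} {N : ℕ} {B : UE × Bool} {M : Finset ℕ} {τ : ℕ → ℕ}
    {U : ℕ → Set (ℤ × ℤ)} {A : ℕ → UE × Bool} {m x : ℕ → ℕ} {kl kr : ℕ → ℕ → ℕ → Prop}
    {a b H L ρ : ℤ} (hU : E'.U ω = E.U ω) (hc : E'.cf ω = E.cf ω) (he : E'.e ω = E.e ω)
    (S : CntS.Stp E ω N B M τ U A m x kl kr a b H L ρ) :
    CntS.Stp E' ω N B M τ U A m x kl kr a b H L ρ := by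
  have hp : ∀ t, E'.p ω t = E.p ω t := Ex.p_ext hc he
  have hv : ∀ s t, E'.v ω s t = E.v ω s t := Ex.v_ext hc he
  exact
    { wll := (Ex.wll_ext hU hc he).2 S.wll
      nb := by rw [hc, he]; exact S.nb
      fin := by rw [hU]; exact S.fin
      esc := by rw [hU]; exact S.esc
      bd := by rw [hU]; exact S.bd
      bd' := by rw [hU]; exact S.bd'
      exit := by rw [hU]; exact S.exit
      back := by rw [hU, he]; exact S.back
      hit := by simp only [hp]; exact S.hit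
      mono := S.mono
      hU := by simp only [hp, hv, hU]; exact S.hU
      tipU := by simp only [hp, hv, hU]; exact S.tipU
      tip := by simp only [hp]; exact S.tip
      cyc := S.cyc
      xm := S.xm
      tgt := S.tgt
      win := by simp only [hp]; exact S.win
      kind := by simp only [hp]; exact S.kind
      mkl := by simp only [hp]; exact S.mkl
      mkr := by simp only [hp]; exact S.mkr
      cll := by simp only [hp]; exact S.cll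
      clr := by simp only [hp]; exact S.clr }

open Pool.Agent.MP_6bd702.H23 (Ed) in
/-- The exploration of the rule is the exploration of the needle. -/
theorem exR_eq {Ru : Rul} {j : ℕ} (hq : Ru j (cfgE n ω) = some q) (hV : rem n Ru j ω = V) :
    (exR n Ru j).U ω = (exS V q).U ω ∧ (exR n Ru j).cf ω = (exS V q).cf ω ∧
      (exR n Ru j).e ω = (exS V q).e ω := by
  have h1 : ndE n Ru j ω = q.1 := by unfold ndE; rw [hq]; rfl
  have h2 : ndB n Ru j ω = q.2 := by unfold ndB; rw [hq]; rfl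
  refine ⟨?_, ?_, ?_⟩
  · show FU (rem n Ru j ω) \ QF (ndE n Ru j ω) = FU V \ QF q.1
    rw [hV, h1]
  · unfold Ex.cf
    show mix (FU (rem n Ru j ω) \ QF (ndE n Ru j ω)) ω (gT (ndE n Ru j ω : Set Ed)) =
      mix (FU V \ QF q.1) ω (gT (q.1 : Set Ed))
    rw [hV, h1]
  · show kU (bc (rem n Ru j ω) (ndE n Ru j ω) (ndB n Ru j ω)) = eS V q
    rw [hV, h1, h2]
    rfl

/-- The size of `W`. -/
theorem le_W {k : ℕ} (hn : 2 ^ d 0 ≤ n) (hk : k + 10 ≤ d 0) :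
    (n : ℤ) ≤ 2 ^ (k + 8) * (Sc.ls d n k / 64) ∧ 64 * (Sc.ls d n k / 64) ≤ (n : ℤ) := by
  have h1 : n < 2 ^ d 0 * (n / 2 ^ d 0 + 1) := Nat.lt_mul_div_succ n (by positivity)
  have h2 : 0 < n / 2 ^ d 0 := Nat.div_pos hn (by positivity)
  have h3 : (2 : ℕ) ^ d 0 = 2 ^ k * 2 ^ (d 0 - k) := by
    rw [← pow_add]
    congr 1
    omega
  have h4 : (2 : ℕ) ^ 10 ≤ 2 ^ (d 0 - k) := Nat.pow_le_pow_right (by norm_num) (by omega)
  have h5 : (Sc.ls d n k : ℤ) = ((n / 2 ^ d 0 * 2 ^ (d 0 - k) : ℕ) : ℤ) := by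
    unfold Sc.ls
    push_cast
    rfl
  have h6 : (2 : ℤ) ^ (k + 8) = ((2 ^ k * 256 : ℕ) : ℤ) := by
    push_cast
    rw [pow_add]
    norm_num
  obtain ⟨u, hu⟩ : ∃ u, u = n / 2 ^ d 0 := ⟨_, rfl⟩
  obtain ⟨p, hp⟩ : ∃ p, p = 2 ^ (d 0 - k) := ⟨_, rfl⟩
  obtain ⟨K, hK⟩ : ∃ K, K = 2 ^ k := ⟨_, rfl⟩
  rw [h5, h6]
  rw [← hu] at h1 h2 ⊢
  rw [h3] at h1
  rw [← hp] at h1 h4 ⊢
  rw [← hK] at h1 ⊢
  have hK0 : 0 < K := by rw [hK]; positivity
  have h7 : 128 ≤ u * p := by nlinarith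
  have h8 : u * p ≤ 128 * (u * p / 64) := by omega
  have h9 : n ≤ K * 256 * (u * p / 64) := by
    have e1 : n ≤ K * (2 * (u * p)) := by nlinarith
    have e2 : K * (2 * (u * p)) ≤ K * (2 * (128 * (u * p / 64))) :=
      Nat.mul_le_mul_left _ (Nat.mul_le_mul_left _ h8)
    calc n ≤ _ := e1
      _ ≤ _ := e2
      _ = _ := by ring
  have h10 : u * p ≤ n := by
    have e1 := Nat.div_mul_le_self n (2 ^ d 0)
    rw [← hu, h3, ← hp, ← hK] at e1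
    nlinarith
  constructor
  · exact_mod_cast h9
  · have : 64 * (u * p / 64) ≤ n := by omega
    exact_mod_cast this

/-! ### The number of the stages -/

/-- The tight event. -/
def TE (𝔇 : Dat) (n : ℕ) (Ru : Rul) (C : ℤ) (T : ℕ) : Set Cfg :=
  {ω | ∃ j < 𝔇.m, NM.Nds n Ru C 2 j ω ∧ (∃ q, Ru j (cfgE n ω) = some q) ∧
    ∃ (N : ℕ) (Bt : UE × Bool) (M : Finset ℕ) (τ : ℕ → ℕ) (U : ℕ → Set (ℤ × ℤ))
      (A : ℕ → UE × Bool) (m x : ℕ → ℕ) (kl kr : ℕ → ℕ → ℕ → Prop) (a b H L ρ : ℤ),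
      CntS.Stp (exR n Ru j) ω N Bt M τ U A m x kl kr a b H L ρ ∧ 0 ≤ a ∧
      (1 / 2 ^ (𝔇.kap + 8) : ℝ) * n ≤ ρ ∧ (a : ℝ) + 2 * ρ + (1 / 2 ^ (𝔇.kap + 8) : ℝ) * n ≤ b ∧
      (1 / 2 ^ (𝔇.kap + 8) : ℝ) * n ≤ H ∧ (L : ℝ) ≤ 5 * n ∧ (b : ℝ) ≤ 5 * n ∧ T < M.card}

/-- **The number of the stages of a needle** outside of the rare events. -/
theorem card_stages_le (hZ : NumZ 𝔇 C d n N) (hC : 0 ≤ C) (hV : ∀ i < N, InvV C 𝔇 d n i ω)
    (hD : ∀ i < N, ω ∉ Dead C 𝔇 d n i) (hq : ∀ i < N, QI 𝔇 d n i (tst 𝔇 d n ω i) ω) {c₀ : ℤ}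
    (hc : 0 ≤ c₀) (hnd : ∀ i < N, NdI c₀ d n i (tst 𝔇 d n ω i) ω) (hd : ∀ i ≤ N, ∀ k ≤ i, d i ≤ d k)
    {T : ℕ} (hT : ω ∉ TE 𝔇 n (TruR.ruleT 𝔇 d n) (c₀ * Sc.ls d n (d N)) T) {j : ℕ} (hj : j < 𝔇.m) :
    #{i ∈ range (N + 1) | nfin 𝔇 d n ω i = j} ≤ T + 3 := by
  obtain ⟨K, hK⟩ : ∃ K, #{i ∈ range (N + 1) | nfin 𝔇 d n ω i = j} = K := ⟨_, rfl⟩
  rw [hK]
  by_contra hlt
  push Not at hlt
  obtain ⟨a, V, q, haK, hru, hrem, hjj, hsta, hst, hmv⟩ := stages_start hK (by omega) (fun i hi h1 => by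
    obtain ⟨D, hD⟩ := Option.isSome_iff_exists.1 h1
    obtain ⟨q, hq⟩ := hq i hi D hD
    rw [hq]
    rfl)
  obtain ⟨R, D, κ, m, x, i₁, j₁, t, j₂, i₂, σ, h⟩ := exists_rn (K := K - 3) hZ hC hV hD (by omega)
    (by omega) (fun m hm => hst m (by omega)) (fun m hm => hmv m (by omega))
  obtain ⟨hV0, hq0, -, -⟩ := hst 0 (by omega)
  have hI : Rule.Inv n (cfgE n ω) V := by
    rw [← hV0]
    exact TruR.inv_V 𝔇 d n ω (a + 0)
  have hw : (exS V q).Wll ω := by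
    rw [← hV0]
    exact tst_wll hq0
  have hr := h.run
  have hVB := h.VB
  have hQV := h.QV
  have hr0 := hr 0 (Nat.zero_le _)
  have hb := comp_start_tgt hr0 (by
    have h1 := hsta (D 0) hr0.run
    have h2 : (tst 𝔇 d n ω (a + 0)).V = V := hV0
    rw [h2]
    exact h1) rfl
  have hS := h.stp hI hw (N' := nS V q ω) (L := 4 * n) (nb_nS V q ω)
    (fun k hk => by
      have h1 := (hr k hk).le_nS (by rw [h.V k hk]; exact hVB) (by rw [h.V k hk]; exact hQV)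
      rwa [h.V k hk] at h1)
    (by
      obtain ⟨t, -, h1, h2⟩ := hr0.hit_nS h.hO.box h.hO.sub
      rw [h.V 0 (Nat.zero_le _)] at h1 h2
      exact ⟨t, h1, h2⟩)
    (by
      have h1 := hb.2.1
      rwa [h.V 0 (Nat.zero_le _)] at h1)
    (fun k hk => win_all hVB (h.fre hk.le).1)
  obtain ⟨e1, e2, e3⟩ := exR_eq hru hrem
  have hS' := stp_ext e1 e2 e3 hS
  obtain ⟨hk1, hk2⟩ := hZ.hd 0 (Nat.zero_le _)
  obtain ⟨w1, w2⟩ := le_W (k := 𝔇.kap) hZ.hn hk1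
  obtain ⟨W, hW⟩ : ∃ W, W = Sc.ls d n 𝔇.kap / 64 := ⟨_, rfl⟩
  rw [← hW] at w1 w2 hS'
  have w1' : (n : ℝ) ≤ 2 ^ (𝔇.kap + 8) * W := by exact_mod_cast w1
  have w2' : 64 * (W : ℝ) ≤ n := by exact_mod_cast w2
  have w3 : (1 / 2 ^ (𝔇.kap + 8) : ℝ) * n ≤ W := by
    rw [one_div, inv_mul_le_iff₀ (by positivity)]
    exact w1'
  have w4 : 0 ≤ W := by
    have h1 : (0 : ℤ) ≤ 2 ^ (𝔇.kap + 8) * W := le_trans (by positivity) w1
    by_contra hneg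
    push Not at hneg
    have h2 : (2 : ℤ) ^ (𝔇.kap + 8) * W < 0 := mul_neg_of_pos_of_neg (by positivity) hneg
    omega
  have w4' : (0 : ℝ) ≤ W := by exact_mod_cast w4
  refine hT ⟨j, hj, ?_, ⟨q, hru⟩, _, _, _, _, _, _, _, _, _, _, _, _, _, _, _, hS', ?_, ?_, ?_, ?_, ?_,
    ?_, ?_⟩
  · intro j' hj' q' hq'
    have h1 := nds_of (m := a) hc (fun i hi => hd a (by omega) i hi) (fun i hi => hnd i (by omega))
      (j := j) (by rw [hjj]; exact Nat.lt_succ_self _) j' hj' q' hq'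
    exact NdC.NdOK.mono h1 (mul_ls_mono hc (hd N le_rfl a (by omega))) le_rfl
  · omega
  · push_cast
    linarith
  · push_cast
    linarith
  · push_cast
    linarith
  · push_cast
    have : (0 : ℝ) ≤ n := by positivity
    linarith
  · push_cast
    linarith
  · rw [card_range]
    omega

/-- **The row `RowCnt`.** -/
theorem rowCnt {I : InvP} (h : LawInv C 𝔇 I) (hI : InvDec I) {c₀ : ℤ} (hc : 0 ≤ c₀)
    (hnd : ∀ d n i ω, 0 < unt d n → I d n i (tst 𝔇 d n ω i) ω → NdI c₀ d n i (tst 𝔇 d n ω i) ω)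
    {a : ℕ}
    (ha : 16 * (9 * C + 6) ≤ 2 ^ a) {G₀ : ℕ → ℕ → ℕ} (hG : ∀ i e, e + a ≤ G₀ i e) (htst : RowTst 𝔇)
    (hgrow : RowGrow 𝔇) : ∃ G : ℕ → ℕ → ℕ, (∀ l e, G₀ l e ≤ G l e) ∧ RowCnt 𝔇 G (BdI I 𝔇) := by
  have hC0 : 0 ≤ C := by have := h.C1; omega
  have ha0 : 0 < a := by
    rcases Nat.eq_zero_or_pos a with h0 | h0
    · rw [h0] at ha
      norm_num at ha
      omega
    · exact h0
  refine CntQ.rowCnt_of_core (Cn := fun d n N => NumZ 𝔇 C d n N ∧ ∀ i ≤ N, ∀ k ≤ i, d i ≤ d k)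
    (TE := TE 𝔇) hc (fun T => T + 3)
    (h.smY_dead hI (fun i e => lt_of_lt_of_le (by omega) (hG i e)) htst hgrow) ?_ ?_ ?_
  · refine ⟨𝔇.kap + 10, fun N d hdN hGr => ?_⟩
    have hle : ∀ i ≤ N, ∀ k ≤ i, d i ≤ d k := fun i hi k hk =>
      le_of_groF (fun i e => le_trans (by omega) (hG i e)) hGr hk hi
    filter_upwards [eventually_ge_atTop (2 ^ d 0)] with n hn
    refine ⟨{ hn := hn, num := ?_, hd := ?_ }, hle⟩
    · intro i hi
      obtain ⟨m, rfl⟩ : ∃ m, N = m + 1 := ⟨N - 1, by omega⟩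
      have h1 : NumR a d n m := ⟨Nat.div_pos hn (by positivity), fun i hi =>
        (hG i _).trans (hGr i (by omega))⟩
      exact h1.numO hC0 ha (by omega)
    · intro i hi
      exact ⟨hdN.trans (hle N le_rfl i hi), hle i hi 0 (Nat.zero_le _)⟩
  · intro η hη
    exact CntS.stp_tight 𝔇.m 2 (δ := 1 / 2 ^ (𝔇.kap + 8)) (by positivity) hη 5
  · intro d n N T ω hCn hbd hY hTE j hj
    obtain ⟨hZ, hd⟩ := hCn
    have hII : ∀ i < N, I d n i (tst 𝔇 d n ω i) ω := fun i hi => (notMem_bdI.1 (hbd i hi)).1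
    exact card_stages_le hZ hC0 (fun i hi => h.run d n i ω (hII i hi)) hY
      (fun i hi => h.q d n i ω (hII i hi)) hc
      (fun i hi => hnd d n i ω (Nat.div_pos hZ.hn (by positivity)) (hII i hi)) hd hTE hj

end Pool.Agent.SixB.CntZ
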