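import Pool.Agent.Lib.SixB.S8RareI
import Pool.Agent.Lib.SixB.S8LawI
import Pool.Agent.Lib.SixB.S8StartCh
import Pool.Agent.Lib.SixB.S8ChainRow

/-!
# Step 8: the row `rare`, assembly

* `InvA C c₀ K J 𝔇`: the invariant of the chain: the running stages (`RunVI`), the true needle is running
  if the coarse domain is (`QI`), the base is near the coarse target side (`BasI`), the needles have a
  short hook (`HkI`), and a further invariant `J` (the stored part);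
* `NumC G N₁`: the numbers: the resolutions grow like `G`, `n` is large;
* `GdP`: what is known before and at the stage `i`;
* `RareIn`: the inputs: a new needle is admissible (`plant`), the entrance of the strand (`ent`), a move
  (`mov`), the step of `J` (`stJ`);
* `RareIn.rowRare`: **the row `rare`**; `RareIn.lawInv`, `RareIn.rowEst`: the inputs of the row `law`.
-/

set_option autoImplicit false

namespace Pool.Agent.SixB.Tru

open Filter Finset Topology Pool.Agent.Perc Pool.Agent.PercT Pool.Agent.PercX60 Pool.Agent.PercD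
open Pool.Agent.SixB Pool.Agent.SixB.Rule Pool.Agent.SixB.Dct Pool.Agent.SixB.Mv
open Pool.Agent.SixB.Blow (subE)
open Pool.Agent.SixB.Top (lf rg)
open Pool.Agent.SixB.TruR (ts)

/-- **The invariant of the chain.** -/
def InvA (C c₀ : ℤ) (K : ℕ) (J : InvP) (𝔇 : Dat) : InvP := fun d n i s ω =>
  RunVI C 𝔇 d n i s ω ∧ QI 𝔇 d n i s ω ∧ BasI C 𝔇 d n i s ω ∧ HkI c₀ K d n i s ω ∧ J d n i s ω

/-- The numbers. -/
def NumC (G : ℕ → ℕ → ℕ) (N₁ : (ℕ → ℕ) → ℕ) (d : ℕ → ℕ) (n m : ℕ) : Prop :=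
  GroF G (m + 1) d ∧ N₁ d ≤ n

/-- What is known before the stage `i` and at this stage. -/
structure GdP (I : InvP) (𝔇 : Dat) (Cn : (ℕ → ℕ) → ℕ → ℕ → Prop) (Y Z : EvF) (d : ℕ → ℕ) (n i : ℕ)
    (ω : Cfg) : Prop where
  num : Cn d n i
  z : ω ∉ Z d n i
  y : ∀ l < i, ω ∉ Y d n l
  b : ∀ l < i, ω ∉ BdI I 𝔇 d n l

/-- The static events with the gates. -/
def ZA (𝔇 : Dat) (c₀ : ℤ) (Z : EvF) : EvF := fun d n m => TruG.ZG 𝔇 c₀ 2 d n m ∪ Z d n m

/-- The transition events with the dead stops. -/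
def YA (𝔇 : Dat) (C : ℤ) (Y : EvF) : EvF := fun d n l => Dead C 𝔇 d n l ∪ Y d n l

/-- **The inputs of the row `rare`.** -/
structure RareIn (C c₀ : ℤ) (K : ℕ) (J : InvP) (𝔇 : Dat) (G : ℕ → ℕ → ℕ) (N₁ : (ℕ → ℕ) → ℕ)
    (Y Z : EvF) : Prop where
  C1 : 1 ≤ C
  c0 : 0 ≤ c₀
  grow : ∃ k : ℕ, 5 * 8 + 2 * c₀.toNat + 8 + 16 ≤ 2 ^ k ∧ ∀ i e, e + 6 + 3 * (k + 6) ≤ G i e
  large : ∀ d, 2 ^ d 0 ≤ N₁ d
  void : VoidN 𝔇
  decJ : InvDec J
  smZ : SmZ G Z
  smY : SmY G (BdI (InvA C c₀ K J 𝔇) 𝔇) Y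
  /-- a new needle is admissible if the coarse rule places one -/
  plant : ∀ {d n i ω D},
    GdP (InvA C c₀ K J 𝔇) 𝔇 (NumC G N₁) (YA 𝔇 C Y) (ZA 𝔇 c₀ Z) d n i ω →
    (ts 𝔇 d n ω i).q = none → (𝔇.cs d (ts 𝔇 d n ω i).x).run = none →
    (𝔇.cs d (tst 𝔇 d n ω i).x).run = some D →
    (∃ q, (tst 𝔇 d n ω i).q = some q) ∧ ∀ q, (tst 𝔇 d n ω i).q = some q →
      ∃ (X : Set (ℤ × ℤ)) (z : ℤ × ℤ) (r : ℕ),
        HkOK (unt d n) (Hook.ndL K (d 0)) (tst 𝔇 d n ω i).V q X z r ∧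
          (r : ℤ) + 1 ≤ c₀ * Sc.ls d n (d i)
  /-- the entrance of the strand -/
  ent : ∀ {d n i ω V x q D},
    GdP (InvA C c₀ K J 𝔇) 𝔇 (NumC G N₁) (YA 𝔇 C Y) (ZA 𝔇 c₀ Z) d n (i + 1) ω →
    EntS 𝔇 d n ω i V x q D →
    RunVI C 𝔇 d n (i + 1) (tst 𝔇 d n ω (i + 1)) ω ∧ BasI C 𝔇 d n (i + 1) (tst 𝔇 d n ω (i + 1)) ω
  /-- a move -/
  mov : ∀ {d n i ω q D D'},
    GdP (InvA C c₀ K J 𝔇) 𝔇 (NumC G N₁) (YA 𝔇 C Y) (ZA 𝔇 c₀ Z) d n (i + 1) ω →
    MovS 𝔇 d n ω i q D D' → RunVI C 𝔇 d n (i + 1) (tst 𝔇 d n ω (i + 1)) ω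
  /-- the further invariant -/
  stJ : ∀ {d n i ω}, GdP (InvA C c₀ K J 𝔇) 𝔇 (NumC G N₁) (YA 𝔇 C Y) (ZA 𝔇 c₀ Z) d n i ω →
    J d n i (tst 𝔇 d n ω i) ω

section

variable {C c₀ : ℤ} {K : ℕ} {J I : InvP} {𝔇 : Dat} {G : ℕ → ℕ → ℕ} {N₁ : (ℕ → ℕ) → ℕ} {Y Z : EvF}
  {d : ℕ → ℕ} {n i m : ℕ} {ω : Cfg}

theorem invA_dec (hJ : InvDec J) : InvDec (InvA C c₀ K J 𝔇) :=
  (runVI_dec C 𝔇).and ((qI_dec 𝔇).and ((basI_dec C 𝔇).and ((hkI_dec c₀ K).and hJ)))

/-- The invariant gives the inputs of the row `law`. -/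
theorem lawInv_of (hC : 1 ≤ C) (hv : VoidN 𝔇) : LawInv C 𝔇 (InvA C c₀ K J 𝔇) where
  C1 := hC
  void := hv
  run _ _ _ _ h := h.1
  q _ _ _ _ h := h.2.1
  bas _ _ _ _ h := h.2.2.1

theorem NumC.grw (h : NumC G N₁ d n m) {i : ℕ} (hi : i ≤ m) : G i (d (i + 1)) ≤ d i :=
  h.1 i (by omega)

theorem NumC.anti (h : NumC G N₁ d n m) (hG : ∀ i e, e ≤ G i e) {i j : ℕ} (hij : i ≤ j)
    (hj : j ≤ m + 1) : d j ≤ d i := le_of_groF hG h.1 hij hj

/-- The coarse state has the same target side after a move. -/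
theorem MovS.B {q : Rule.Ndl} {D D' : Dom} (h : MovS 𝔇 d n ω i q D D') : D'.B = D.B := by
  rw [h.dom]
  rfl

/-- The history before a move and after it. -/
theorem rad_le_succ (hC : 0 ≤ C) (u : ℕ) (d : ℕ → ℕ) (k : ℕ) : rad C u d k ≤ rad C u d (k + 1) :=
  rad_mono hC u d (Nat.le_succ k)

theorem lcInB_mono {v a : ℤ × ℤ} {r r' : ℤ} (h : LC.InB v r a) (hr : r ≤ r') :
    LC.InB v r' a := by
  unfold LC.InB at h ⊢
  omega

/-- The coarse domain is running after a stage with running needle if the needle is. -/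
theorem q_of_run {q : Rule.Ndl} {D : Dom} (hq : (tst 𝔇 d n ω i).q = some q)
    (hD : (𝔇.cs d (tst 𝔇 d n ω (i + 1)).x).run = some D) :
    (tst 𝔇 d n ω (i + 1)).q = some q ∧ (tst 𝔇 d n ω (i + 1)).V = (tst 𝔇 d n ω i).V := by
  obtain ⟨D', -, h1⟩ := tst_run hq
  rw [h1, finS_x] at hD
  rw [h1, finS_run hD]
  exact ⟨rfl, rfl⟩

variable (H : RareIn C c₀ K J 𝔇 G N₁ Y Z)

include H

theorem RareIn.leG : ∀ i e, e ≤ G i e := fun i e => by
  obtain ⟨k, -, h⟩ := H.grow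
  have := h i e
  omega

theorem RareIn.ltG : ∀ i e, e < G i e := fun i e => by
  obtain ⟨k, -, h⟩ := H.grow
  have := h i e
  omega

/-- **The step of the invariant.** -/
theorem RareIn.inv
    (h : GdP (InvA C c₀ K J 𝔇) 𝔇 (NumC G N₁) (YA 𝔇 C Y) (ZA 𝔇 c₀ Z) d n i ω) :
    InvA C c₀ K J 𝔇 d n i (tst 𝔇 d n ω i) ω := by
  have hC : 0 ≤ C := by
    have := H.C1
    omega
  have hinv : ∀ l < i, InvA C c₀ K J 𝔇 d n l (tst 𝔇 d n ω l) ω := fun l hl =>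
    (notMem_bdI.1 (h.b l hl)).1
  refine ⟨?_, ?_, ?_, ?_, H.stJ h⟩
  · -- the running stages
    intro q D hq hD hi
    rcases run_cases hq hD hi with ⟨k, V, x, rfl, h1⟩ | ⟨k, D₁, rfl, h1⟩
    · exact (H.ent h h1).1 q D hq hD hi
    · exact H.mov h h1 q D hq hD hi
  · -- the true needle is running
    intro D hD
    cases i with
    | zero => exact (H.plant h rfl rfl hD).1
    | succ k =>
      cases h1 : (𝔇.cs d (tst 𝔇 d n ω k).x).run with
      | none =>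
        have h2 : (tst 𝔇 d n ω k).q = none := by
          cases h3 : (tst 𝔇 d n ω k).q with
          | none => rfl
          | some q' =>
            obtain ⟨D'', h4⟩ := run_of_q h3
            rw [h1] at h4
            cases h4
        exact (H.plant h h2 h1 hD).1
      | some D₀ =>
        obtain ⟨q, hq⟩ := (hinv k (Nat.lt_succ_self k)).2.1 D₀ h1
        exact ⟨q, (q_of_run hq hD).1⟩
  · -- the base
    intro q D hq hD hi
    rcases run_cases hq hD hi with ⟨k, V, x, rfl, h1⟩ | ⟨k, D₁, rfl, h1⟩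
    · exact (H.ent h h1).2 q D hq hD hi
    · have h2 := (hinv k (Nat.lt_succ_self k)).2.2.1 q D₁ h1.q h1.run h1.ini
      have h3 := (q_stay hq ⟨D₁, h1.run⟩).2
      have h4 : (tst 𝔇 d n ω (k + 1)).x.length = (tst 𝔇 d n ω k).x.length + 1 := by
        rw [tst_len, tst_len]
      rw [h1.B, h3, h4]
      exact lcInB_mono h2 (rad_le_succ hC _ d _)
  · -- the hooks
    cases i with
    | zero =>
      intro q hq
      obtain ⟨D, hD⟩ := run_of_q hq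
      exact (H.plant h rfl rfl hD).2 q hq
    | succ k =>
      refine hkI_step H.c0 (h.num.anti H.leG (Nat.le_succ k) (by omega))
        (hinv k (Nat.lt_succ_self k)).2.2.2.1 fun hq0 q hq => ?_
      obtain ⟨D, hD⟩ := run_of_q hq
      cases h1 : (𝔇.cs d (tst 𝔇 d n ω k).x).run with
      | none => exact (H.plant h hq0 h1 hD).2 q hq
      | some D₀ =>
        obtain ⟨q', hq'⟩ := (hinv k (Nat.lt_succ_self k)).2.1 D₀ h1
        rw [hq0] at hq'
        cases hq'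

/-- **The row `rare`.** -/
theorem RareIn.rowRare : ∃ G' : ℕ → ℕ → ℕ, (∀ i e, G i e ≤ G' i e) ∧
    ∀ G'' : ℕ → ℕ → ℕ, (∀ i e, G' i e ≤ G'' i e) → RowRare 𝔇 G'' (BdI (InvA C c₀ K J 𝔇) 𝔇) := by
  have hI := invA_dec (C := C) (c₀ := c₀) (K := K) (𝔇 := 𝔇) H.decJ
  have hL := lawInv_of (c₀ := c₀) (K := K) (J := J) H.C1 H.void
  refine rowRare_bdI (C := NumC G N₁) (Z := ZA 𝔇 c₀ Z) (Y := YA 𝔇 C Y) ?_ ?_ ?_ ?_ ?_ ?_
  · intro m d hG
    filter_upwards [eventually_ge_atTop (N₁ d)] with n hn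
    exact ⟨hG, hn⟩
  · exact (TruG.smZ_ZG 𝔇 H.leG H.c0 2).union H.smZ
  · exact (hL.smY_dead hI H.ltG (rowTst 𝔇) (rowGrow 𝔇)).union H.smY
  · intro d n hc ω hz
    exact H.inv ⟨hc, hz, fun l hl => absurd hl (Nat.not_lt_zero l),
      fun l hl => absurd hl (Nat.not_lt_zero l)⟩
  · intro d n m hc ω hb hy hz
    exact H.inv ⟨hc, hz, fun l hl => hy l (by omega), fun l hl => hb l (by omega)⟩
  · intro d n m hc ω hb hy hz hi
    have h2 : 2 ^ d 0 ≤ n := (H.large d).trans hc.2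
    have hu : 0 < unt d n := Nat.div_pos h2 (by positivity)
    obtain ⟨k, hk, hg⟩ := H.grow
    have h3 : d (m + 1) + 6 + 3 * (k + 6) ≤ d m := (hg m _).trans (hc.grw le_rfl)
    refine not_gateS_of (K := K) hu H.c0 (fun i hi => hc.anti H.leG hi (by omega))
      (gR_ge H.c0 (hc.anti H.leG (Nat.zero_le m) (by omega)) rfl hk h3 h2) hi.1 ?_
      fun hz' => hz (Or.inl hz')
    intro i him
    rcases Nat.lt_or_ge i m with h4 | h4
    · exact (notMem_bdI.1 (hb i h4)).1.2.2.2.1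
    · obtain rfl : i = m := by omega
      exact hi.2.2.2.1

end

end Pool.Agent.SixB.Tru
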