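import Pool.Agent.Lib.SixB.S8InvA
import Pool.Agent.Lib.SixB.S8RareK

/-!
# Step 8, unit 8H: the field `mov` of `RareIn`

* `NumC.numR`, `NumC.numO`: the numbers of a stage;
* `GdP.mov`: the invariant `RunVI` after a move (the field `mov` of `RareIn`);
* `GdP.inv`: the invariant of the earlier stages, `GdP.dead`: their stops are not dead.
-/

set_option autoImplicit false

namespace Pool.Agent.SixB.Tru

open Filter Finset Pool.Agent.Perc Pool.Agent.PercT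
open Pool.Agent.SixB Pool.Agent.SixB.Rule Pool.Agent.SixB.Dct Pool.Agent.SixB.Mv

variable {C c₀ : ℤ} {K a : ℕ} {J I : InvP} {𝔇 : Dat} {G : ℕ → ℕ → ℕ} {N₁ : (ℕ → ℕ) → ℕ}
  {Y Z : EvF} {d : ℕ → ℕ} {n i l m : ℕ} {ω : Cfg} {q : Rule.Ndl} {D D' : Dom}

/-- The numbers in both forms. -/
theorem NumC.numR (h : NumC G N₁ d n m) (hG : ∀ i e, e + a ≤ G i e) (hN : ∀ d, 2 ^ d 0 ≤ N₁ d) :
    NumR a d n m :=
  ⟨Nat.div_pos ((hN d).trans h.2) (by positivity), fun i hi => (hG i _).trans (h.1 i (by omega))⟩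

/-- The numbers of the stages. -/
theorem NumC.numO (h : NumC G N₁ d n m) (hC : 0 ≤ C) (ha : 16 * (9 * C + 6) ≤ 2 ^ a)
    (hG : ∀ i e, e + a ≤ G i e) (hN : ∀ d, 2 ^ d 0 ≤ N₁ d) (hi : i ≤ m) :
    NumO d n (i + 1) (rad C (unt d n) d (i + 1)) := (h.numR hG hN).numO hC ha hi

/-- The invariant of the earlier stages. -/
theorem GdP.inv {Cn : (ℕ → ℕ) → ℕ → ℕ → Prop} (h : GdP I 𝔇 Cn Y Z d n i ω) (hl : l < i) :
    I d n l (tst 𝔇 d n ω l) ω := (notMem_bdI.1 (h.b l hl)).1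

/-- The stops of the earlier stages are not dead. -/
theorem GdP.dead {Cn : (ℕ → ℕ) → ℕ → ℕ → Prop} (h : GdP I 𝔇 Cn (YA 𝔇 C Y) Z d n i ω)
    (hl : l < i) : ω ∉ Dead C 𝔇 d n l := fun hh => h.y l hl (Or.inl hh)

/-- **The invariant after a move**, the field `mov` of `RareIn`. -/
theorem GdP.mov (h : GdP (InvA C c₀ K J 𝔇) 𝔇 (NumC G N₁) (YA 𝔇 C Y) (ZA 𝔇 c₀ Z) d n (i + 1) ω)
    (hC : 9 ≤ C) (ha : 16 * (9 * C + 6) ≤ 2 ^ a) (hG : ∀ i e, e + a ≤ G i e)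
    (hN : ∀ d, 2 ^ d 0 ≤ N₁ d) (hm : MovS 𝔇 d n ω i q D D') :
    RunVI C 𝔇 d n (i + 1) (tst 𝔇 d n ω (i + 1)) ω := by
  refine runVI_step hC ha ((h.num.numR hG hN).le (Nat.le_succ i)) (h.dead (Nat.lt_succ_self i))
    (fun q' D₁ _ _ hi => ?_) (h.inv (Nat.lt_succ_self i)).1
  rw [hm.ini] at hi
  exact absurd hi (by simp)

/-- The data of a move: the invariant and a regular stop. -/
theorem GdP.stop (h : GdP (InvA C c₀ K J 𝔇) 𝔇 (NumC G N₁) (YA 𝔇 C Y) (ZA 𝔇 c₀ Z) d n (i + 1) ω)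
    (hm : MovS 𝔇 d n ω i q D D') (hv : ¬ D.Void (𝔇.gr d (tst 𝔇 d n ω i).x D)) :
    ∃ κ m x i₁ j₁ t j₂ i₂,
      RunI 𝔇 d n (rad C (unt d n) d (tst 𝔇 d n ω i).x.length) (tst 𝔇 d n ω i) ω q D κ m x
        i₁ j₁ t j₂ i₂ ∧
      ∃ σ, D.regS (𝔇.gr d (tst 𝔇 d n ω i).x D) (unt d n) (uS (tst 𝔇 d n ω i) q ω) κ
        (tS (tst 𝔇 d n ω i) q ω).1 (cfS (tst 𝔇 d n ω i).V q ω) σ :=
  exists_regS (h.dead (Nat.lt_succ_self i)) hm.q hm.run hm.ini hv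

end Pool.Agent.SixB.Tru
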