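import Pool.Agent.Lib.SixB.S8Prm
import Pool.Agent.Lib.SixB.S8ErodeG

/-!
# Step 8: the coarse coverage of the scan

`CSt.Rc`: the recorded region (stored cells and running domain).

* `CSt.rc_mv`, `rc_anti`: the recorded region never grows;
* `cover`: after enough visits of a target `z` there is a cell outside of the recorded region at
  distance less than `3 Lu + 3 L` from `z`;
* `drop_run`, `drop_none`: what is lost in one stage.
-/

set_option autoImplicit false

namespace Pool.Agent.SixB.Mv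

open Pool.Agent.Perc Pool.Agent.Perc6 Pool.Agent.Perc.Tips Pool.Agent.SixB.Top Pool.Agent.SixB.Ndle

/-! ### Boxes are connected -/

theorem compT_sub_insert {W : Set (ℤ × ℤ)} {f g : ℤ × ℤ} (h : g ∈ compT W f) : g = f ∨ g ∈ W := by
  induction h with
  | refl => exact Or.inl rfl
  | tail _ h2 _ => exact Or.inr h2.2

theorem compT_finite {W : Set (ℤ × ℤ)} (hW : W.Finite) (f : ℤ × ℤ) : (compT W f).Finite := by
  refine (hW.insert f).subset fun g hg => ?_
  rcases compT_sub_insert hg with h | h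
  · exact Or.inl h
  · exact Or.inr h

theorem chI_box {S : Set (ℤ × ℤ)} {z f : ℤ × ℤ} {r : ℤ} (hS : ∀ g, sd g z < r → g ∈ S)
    (hf : sd f z < r) : ChI S z f := by
  have h1 : |f.1 - z.1| ≤ sd f z := le_max_left _ _
  have h2 : |f.2 - z.2| ≤ sd f z := le_max_right _ _
  rw [abs_le] at h1 h2
  refine (chI_seg (a := z) (b := (f.1, z.2)) (Or.inr rfl) ?_).trans
    (chI_seg (a := (f.1, z.2)) (b := f) (Or.inl rfl) ?_)
  · intro g hg
    rw [mem_seg] at hg
    refine hS g (lt_of_le_of_lt ?_ hf)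
    have h3 := sd_nonneg f z
    simp only at hg
    exact max_le (abs_le.2 (by omega)) (abs_le.2 (by omega))
  · intro g hg
    rw [mem_seg] at hg
    refine hS g (lt_of_le_of_lt ?_ hf)
    have h3 := sd_nonneg f z
    simp only at hg
    exact max_le (abs_le.2 (by omega)) (abs_le.2 (by omega))

/-- The box in `W` is in the component. -/
theorem box_compT {W : Set (ℤ × ℤ)} {z f : ℤ × ℤ} {r : ℤ} (hW : ∀ g, sd g z < r → g ∈ W)
    (hf : sd f z < r) : f ∈ compT W z := chI_box hW hf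

theorem le_dlt {W : Set (ℤ × ℤ)} (hW : W.Finite) {z : ℤ × ℤ} {r : ℕ}
    (h : ∀ g, sd g z < r → g ∈ W) : r ≤ dlt (toF W) z := by
  by_contra hcon
  obtain ⟨w, h1, h2⟩ := exists_dlt (toF W) z
  refine h1 ((mem_toF hW).2 (h w ?_))
  rw [h2]
  exact_mod_cast not_le.1 hcon

/-! ### Inactive targets -/

theorem erW_sub {W : Set (ℤ × ℤ)} {L : ℤ} {z : ℤ × ℤ} : CSt.erW W L z ⊆ W := by
  rintro f (h | h)
  · exact h.1
  · exact h.2

/-- If the target is not active, then it is near the complement of `W`. -/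
theorem near_of_inactive {W : Set (ℤ × ℤ)} (hW : W.Finite) {L : ℤ} (hL : 0 < L) {z : ℤ × ℤ}
    {Lu : ℕ} (h : ¬ (z ∈ CSt.erW W L z ∧
      3 * Lu ≤ dlt (toF (compT (CSt.erW W L z) z)) z)) :
    (dlt (toF W) z : ℤ) < 3 * Lu + 3 * L := by
  by_contra hcon
  rw [not_lt] at hcon
  have h1 : ∀ f, sd f z < dlt (toF W) z → f ∈ compT W z := fun f hf =>
    box_compT (r := dlt (toF W) z) (fun g hg => box_sub_W hg) hf
  have h2 : ∀ f, sd f z < dlt (toF W) z - 3 * L + 1 → f ∈ CSt.erW W L z := by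
    intro f hf
    refine Or.inr ⟨er3_of_box hL fun g h3 h4 => h1 g ?_, box_sub_W (z := z) (by omega)⟩
    have h5 : sd g f ≤ 3 * L - 1 := max_le (by omega) (by omega)
    have h6 := sd_triangle g f z
    omega
  have h3 : (3 * Lu : ℤ) + 1 ≤ dlt (toF W) z - 3 * L + 1 := by omega
  have h4 : ∀ f, sd f z < ((3 * Lu : ℕ) : ℤ) → f ∈ compT (CSt.erW W L z) z := by
    intro f hf
    refine box_compT (r := dlt (toF W) z - 3 * L + 1) h2 ?_
    push_cast at hf
    omega
  apply h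
  refine ⟨h2 z ?_, le_dlt (compT_finite (hW.subset erW_sub) z) h4⟩
  rw [Ndle.sd_self]
  omega

/-! ### The recorded region -/

namespace CSt

/-- The recorded region. -/
def Rc (σ : CSt) : Set (ℤ × ℤ) := {f | f ∈ σ.W ∨ ∃ s, σ.run = some s ∧ f ∈ s.P}

/-- The target side of the running domain is a side of it. -/
def TgOK (σ : CSt) : Prop := ∀ s, σ.run = some s → ahead s.B ∈ s.P

variable {σ : CSt} {π : Prm} {L M : ℤ} {ρ : Rec}

theorem nxP_sub {s : Dom} {g : Grd} (h : ahead s.B ∈ s.P) : s.nxP g ρ ⊆ s.P := by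
  intro f hf
  rcases compT_sub_insert hf with h1 | h1
  · rw [h1]; exact h
  · exact h1.1

theorem lef_sub {s : Dom} {g : Grd} : s.lef g ρ ⊆ s.P := fun _ h => h.1.1

/-- The stage after a needle is placed. -/
theorem mv_ini {s : Dom} (h : σ.run = some s) (hi : σ.ini = true) :
    σ.mv π L M ρ = ⟨σ.W, some s, σ.j, false⟩ := by
  obtain ⟨W, run, j, ini⟩ := σ
  simp only at h hi
  subst h
  subst hi
  unfold mv
  simp only
  rw [if_pos trivial]

/-- A running domain: the stage ends the step. -/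
theorem mv_end {s : Dom} (h : σ.run = some s) (hi : σ.ini = false)
    (hE : s.End (s.grd L M) ρ ∨ ¬ (s.nx (s.grd L M) ρ).Ok) :
    σ.mv π L M ρ = ⟨σ.W ∪ s.lef (s.grd L M) ρ, none, σ.j, false⟩ := by
  obtain ⟨W, run, j, ini⟩ := σ
  simp only at h hi
  subst h
  subst hi
  unfold mv
  simp only
  rw [if_neg Bool.false_ne_true, if_pos hE]

/-- A running domain: the step goes on. -/
theorem mv_run {s : Dom} (h : σ.run = some s) (hi : σ.ini = false)
    (hE : ¬ (s.End (s.grd L M) ρ ∨ ¬ (s.nx (s.grd L M) ρ).Ok)) :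
    σ.mv π L M ρ = ⟨σ.W ∪ s.lef (s.grd L M) ρ, some (s.nx (s.grd L M) ρ), σ.j, false⟩ := by
  obtain ⟨W, run, j, ini⟩ := σ
  simp only at h hi
  subst h
  subst hi
  unfold mv
  simp only
  rw [if_neg Bool.false_ne_true, if_neg hE]

/-- The component of the target in the eroded set. -/
def c₁ (σ : CSt) (π : Prm) (L : ℤ) : Set (ℤ × ℤ) := compT (erW σ.W L (π.zt σ.j)) (π.zt σ.j)

/-- There is a target for a needle. -/
def Tg (σ : CSt) (π : Prm) (L : ℤ) : Prop :=
  σ.j < π.m ∧ π.zt σ.j ∈ erW σ.W L (π.zt σ.j) ∧ π.act (σ.c₁ π L) (π.zt σ.j)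

/-- There is a needle. -/
def Nw (σ : CSt) (π : Prm) (L : ℤ) : Prop :=
  σ.j < π.m ∧ π.zt σ.j ∈ erW σ.W L (π.zt σ.j) ∧ π.act (σ.c₁ π L) (π.zt σ.j) ∧
    (dom₀ π (σ.c₁ π L) (π.zt σ.j)).Ok

/-- The first domain of every needle is a disc with two sides. -/
def StOK (σ : CSt) (π : Prm) (L : ℤ) : Prop :=
  σ.run = none → σ.Tg π L → (dom₀ π (σ.c₁ π L) (π.zt σ.j)).Ok

/-- No running domain: a new needle. -/
theorem mv_new (h : σ.run = none) (hN : σ.Nw π L) : σ.mv π L M ρ =
    ⟨erW σ.W L (π.zt σ.j) \ (π.ndl (σ.c₁ π L) (π.zt σ.j) ∪ (dom₀ π (σ.c₁ π L) (π.zt σ.j)).P),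
      some (dom₀ π (σ.c₁ π L) (π.zt σ.j)), σ.j + 1, true⟩ := by
  obtain ⟨W, run, j, ini⟩ := σ
  simp only at h
  subst h
  unfold mv
  simp only
  exact if_pos hN

/-- No running domain: no needle. -/
theorem mv_skip (h : σ.run = none) (hN : ¬ σ.Nw π L) :
    σ.mv π L M ρ = ⟨σ.W, none, σ.j + 1, false⟩ := by
  obtain ⟨W, run, j, ini⟩ := σ
  simp only at h
  subst h
  unfold mv
  simp only
  exact if_neg hN

theorem c₁_sub (hN : σ.Nw π L) : σ.c₁ π L ⊆ erW σ.W L (π.zt σ.j) := compT_sub hN.2.1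

theorem dom₀_sub {W : Set (ℤ × ℤ)} {z : ℤ × ℤ} (hz : z ∈ W \ π.ndl W z) :
    (dom₀ π W z).P ⊆ W \ π.ndl W z := compT_sub hz

/-- The targets are not on the needles. -/
def NdOK (π : Prm) : Prop := ∀ W z, π.act W z → z ∉ π.ndl W z

theorem self_mem_c₁ : π.zt σ.j ∈ σ.c₁ π L := self_mem_compT

theorem tgOK_of_ok (h : ∀ s, σ.run = some s → s.Ok) : σ.TgOK := fun s hs => (h s hs).bdB.1

/-- **The recorded region never grows.** -/
theorem rc_mv (hT : σ.TgOK) (hπ : NdOK π) : (σ.mv π L M ρ).Rc ⊆ σ.Rc := by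
  rcases hr : σ.run with _ | s
  · by_cases hN : σ.Nw π L
    · rw [mv_new hr hN]
      rintro f (h | ⟨s, hs, h⟩)
      · exact Or.inl (erW_sub h.1)
      · simp only [Option.some.injEq] at hs
        subst hs
        exact Or.inl (erW_sub (c₁_sub hN (dom₀_sub ⟨self_mem_c₁, hπ _ _ hN.2.2.1⟩ h).1))
    · rw [mv_skip hr hN]
      rintro f (h | ⟨s, hs, h⟩)
      · exact Or.inl h
      · exact absurd hs (by simp)
  · rcases hi : σ.ini with _ | _
    · by_cases hE : s.End (s.grd L M) ρ ∨ ¬ (s.nx (s.grd L M) ρ).Ok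
      · rw [mv_end hr hi hE]
        rintro f (h | ⟨s', hs, h⟩)
        · rcases h with h | h
          · exact Or.inl h
          · exact Or.inr ⟨s, hr, lef_sub h⟩
        · exact absurd hs (by simp)
      · rw [mv_run hr hi hE]
        rintro f (h | ⟨s', hs, h⟩)
        · rcases h with h | h
          · exact Or.inl h
          · exact Or.inr ⟨s, hr, lef_sub h⟩
        · simp only [Option.some.injEq] at hs
          subst hs
          exact Or.inr ⟨s, hr, nxP_sub (hT s hr) h⟩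
    · rw [mv_ini hr hi]
      rintro f (h | ⟨s', hs, h⟩)
      · exact Or.inl h
      · simp only [Option.some.injEq] at hs
        subst hs
        exact Or.inr ⟨s, hr, h⟩

/-- In a new step the cells of the needle are not recorded any more. -/
theorem rc_new (h : σ.run = none) (hN : σ.Nw π L) (hπ : NdOK π) {f : ℤ × ℤ}
    (hf : f ∈ π.ndl (σ.c₁ π L) (π.zt σ.j)) : f ∉ (σ.mv π L M ρ).Rc := by
  rw [mv_new h hN]
  rintro (h1 | ⟨s, hs, h1⟩)
  · exact h1.2 (Or.inl hf)
  · simp only [Option.some.injEq] at hs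
    subst hs
    exact (dom₀_sub ⟨self_mem_c₁, hπ _ _ hN.2.2.1⟩ h1).2 hf

theorem j_mv : (σ.mv π L M ρ).j = if σ.run = none then σ.j + 1 else σ.j := by
  rcases hr : σ.run with _ | s
  · rw [if_pos rfl]
    by_cases hN : σ.Nw π L
    · rw [mv_new hr hN]
    · rw [mv_skip hr hN]
  · rw [if_neg (by simp)]
    rcases hi : σ.ini with _ | _
    · by_cases hE : s.End (s.grd L M) ρ ∨ ¬ (s.nx (s.grd L M) ρ).Ok
      · rw [mv_end hr hi hE]
      · rw [mv_run hr hi hE]
    · rw [mv_ini hr hi]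

end CSt

/-! ### The coverage -/

theorem ndOK_prmC {kp m : ℕ} {zt : ℕ → ℤ × ℤ} {Lu : ℕ} (hLu : 1 ≤ Lu) : CSt.NdOK (prmC kp m zt Lu) :=
  fun _ _ h => target_notMem hLu h

/-- The number of visits of `z` before the step `k`. -/
def vis (zt : ℕ → ℤ × ℤ) (z : ℤ × ℤ) (k : ℕ) : ℕ := ((Finset.range k).filter fun i => zt i = z).card

theorem vis_succ (zt : ℕ → ℤ × ℤ) (z : ℤ × ℤ) (k : ℕ) :
    vis zt z (k + 1) = vis zt z k + if zt k = z then 1 else 0 := by
  unfold vis
  rw [Finset.range_add_one, Finset.filter_insert]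
  by_cases h : zt k = z
  · rw [if_pos h, if_pos h, Finset.card_insert_of_notMem (by simp)]
  · rw [if_neg h, if_neg h, add_zero]

theorem tgOK_cst (π : Prm) (d : ℕ → ℕ) (W₀ : Set (ℤ × ℤ)) (x : List Rec) : (cst π d W₀ x).TgOK :=
  CSt.tgOK_of_ok fun _ hs => cst_ok hs

theorem rc_cst {π : Prm} (hπ : CSt.NdOK π) (d : ℕ → ℕ) (W₀ : Set (ℤ × ℤ)) (x : List Rec) :
    (cst π d W₀ x).Rc ⊆ W₀ := by
  induction x with
  | nil =>
    rintro f (h1 | ⟨s, hs, -⟩)
    · exact h1
    · exact absurd hs (by simp [cst])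
  | cons ρ x ih => exact (CSt.rc_mv (tgOK_cst π d W₀ x) hπ).trans ih

/-- The recorded region decreases along a history. -/
theorem rc_anti {π : Prm} (hπ : CSt.NdOK π) (d : ℕ → ℕ) (W₀ : Set (ℤ × ℤ)) {x y : List Rec}
    (hy : y <:+ x) : (cst π d W₀ x).Rc ⊆ (cst π d W₀ y).Rc := by
  induction x with
  | nil =>
    rw [List.suffix_nil] at hy
    rw [hy]
  | cons ρ x ih =>
    rcases List.suffix_cons_iff.1 hy with h1 | h1
    · rw [h1]
    · exact (CSt.rc_mv (tgOK_cst π d W₀ x) hπ).trans (ih h1)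

/-- Along the history the first domain of every needle is a disc with two sides. -/
def StH (π : Prm) (d : ℕ → ℕ) (W₀ : Set (ℤ × ℤ)) (x : List Rec) : Prop :=
  ∀ ρ y, ρ :: y <:+ x → (cst π d W₀ y).StOK π (msh d y.length)

theorem StH.tail {π : Prm} {d : ℕ → ℕ} {W₀ : Set (ℤ × ℤ)} {ρ : Rec} {x : List Rec}
    (h : StH π d W₀ (ρ :: x)) : StH π d W₀ x :=
  fun ρ' y hy => h ρ' y (hy.trans (List.suffix_cons ρ x))

/-- **Progress.** -/
theorem progress {kp m : ℕ} {zt : ℕ → ℤ × ℤ} {Lu : ℕ} (hLu : 1 ≤ Lu) {d : ℕ → ℕ}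
    {W₀ : Set (ℤ × ℤ)} (hW₀ : W₀.Finite) {x : List Rec} (h : StH (prmC kp m zt Lu) d W₀ x)
    {Λ : ℤ} (hpos : ∀ i < x.length, 0 < msh d i) (hΛ : ∀ i < x.length, msh d i ≤ Λ) (z : ℤ × ℤ) :
    (dlt (toF (cst (prmC kp m zt Lu) d W₀ x).Rc) z : ℤ) < 3 * Lu + 3 * Λ ∨
      2 * (dlt (toF (cst (prmC kp m zt Lu) d W₀ x).Rc) z : ℤ) +
        vis zt z (min (cst (prmC kp m zt Lu) d W₀ x).j m) * (Lu - 1) ≤ 2 * dlt (toF W₀) z := by
  induction x with
  | nil =>
    right
    have h1 : (cst (prmC kp m zt Lu) d W₀ []).Rc = W₀ := by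
      ext f
      constructor
      · rintro (h1 | ⟨s, hs, -⟩)
        · exact h1
        · exact absurd hs (by simp [cst])
      · exact fun h1 => Or.inl h1
    have h2 : (cst (prmC kp m zt Lu) d W₀ []).j = 0 := rfl
    rw [h1, h2, Nat.zero_min]
    simp [vis]
  | cons ρ x ih =>
    have ih' := ih h.tail (fun i hi => hpos i (by simp; omega)) (fun i hi => hΛ i (by simp; omega))
    clear ih
    have hcst : cst (prmC kp m zt Lu) d W₀ (ρ :: x) =
        (cst (prmC kp m zt Lu) d W₀ x).mv (prmC kp m zt Lu) (msh d x.length) (msz (prmC kp m zt Lu).kap d x.length) ρ := rfl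
    have hTg := tgOK_cst (prmC kp m zt Lu) d W₀ x
    have hSt := h ρ x List.suffix_rfl
    have hfin : (cst (prmC kp m zt Lu) d W₀ x).Rc.Finite := hW₀.subset (rc_cst (ndOK_prmC hLu) d W₀ x)
    have hL := hpos x.length (by simp)
    have hLΛ := hΛ x.length (by simp)
    rw [hcst]
    generalize cst (prmC kp m zt Lu) d W₀ x = σ at ih' hTg hSt hfin ⊢
    generalize msh d x.length = L at hL hLΛ hSt ⊢
    generalize msz (prmC kp m zt Lu).kap d x.length = M
    have hsub := CSt.rc_mv (L := L) (M := M) (ρ := ρ) hTg (ndOK_prmC (kp := kp) (m := m) (zt := zt) hLu)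
    have hfin' := hfin.subset hsub
    have hmono : dlt (toF (σ.mv (prmC kp m zt Lu) L M ρ).Rc) z ≤ dlt (toF σ.Rc) z :=
      dlt_mono fun f hf => (mem_toF hfin).2 (hsub ((mem_toF hfin').1 hf))
    have hmono' : (dlt (toF (σ.mv (prmC kp m zt Lu) L M ρ).Rc) z : ℤ) ≤ dlt (toF σ.Rc) z := by
      exact_mod_cast hmono
    rcases ih' with h1 | h1
    · exact Or.inl (lt_of_le_of_lt hmono' h1)
    by_cases hr : σ.run = none
    · have hj : (σ.mv (prmC kp m zt Lu) L M ρ).j = σ.j + 1 := by rw [CSt.j_mv, if_pos hr]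
      rw [hj]
      by_cases hjm : σ.j < m
      · rw [min_eq_left hjm.le] at h1
        rw [min_eq_left (by omega : σ.j + 1 ≤ m), vis_succ]
        by_cases hz : zt σ.j = z
        · rw [if_pos hz]
          have hWfin : σ.W.Finite := hfin.subset fun f hf => Or.inl hf
          by_cases hN : σ.Nw (prmC kp m zt Lu) L
          · right
            have hact : 3 * Lu ≤ dlt (toF (σ.c₁ (prmC kp m zt Lu) L)) (zt σ.j) := hN.2.2.1
            have hc1 : (σ.c₁ (prmC kp m zt Lu) L).Finite :=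
              compT_finite (hWfin.subset erW_sub) _
            have h2 : ndc (toF (σ.c₁ (prmC kp m zt Lu) L)) (zt σ.j) Lu ∉
                toF (σ.mv (prmC kp m zt Lu) L M ρ).Rc := by
              intro hc
              refine CSt.rc_new hr hN (ndOK_prmC hLu) (M := M) (ρ := ρ) ?_ ((mem_toF hfin').1 hc)
              exact ⟨Lu, hLu, le_rfl, rfl⟩
            have h3 := dlt_progress (C := toF (σ.c₁ (prmC kp m zt Lu) L)) (z := zt σ.j) (i := Lu)
              (by omega) h2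
            have h4 : dlt (toF (σ.c₁ (prmC kp m zt Lu) L)) (zt σ.j) ≤ dlt (toF σ.Rc) (zt σ.j) := by
              refine dlt_mono fun f hf => (mem_toF hfin).2 ?_
              exact Or.inl (erW_sub (CSt.c₁_sub hN ((mem_toF hc1).1 hf)))
            rw [hz] at h3 h4
            have h4' : (dlt (toF (σ.c₁ (prmC kp m zt Lu) L)) z : ℤ) ≤ dlt (toF σ.Rc) z := by
              exact_mod_cast h4
            push_cast
            linarith
          · left
            have h2 : ¬ (z ∈ CSt.erW σ.W L z ∧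
                3 * Lu ≤ dlt (toF (compT (CSt.erW σ.W L z) z)) z) := by
              rintro ⟨h3, h4⟩
              have h5 : σ.Tg (prmC kp m zt Lu) L := by
                refine ⟨hjm, ?_, ?_⟩
                · change zt σ.j ∈ CSt.erW σ.W L (zt σ.j)
                  rw [hz]; exact h3
                · change 3 * Lu ≤ dlt (toF (compT (CSt.erW σ.W L (zt σ.j)) (zt σ.j))) (zt σ.j)
                  rw [hz]; exact h4
              exact hN ⟨h5.1, h5.2.1, h5.2.2, hSt hr h5⟩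
            have h3 := near_of_inactive hWfin hL h2
            have h4 : dlt (toF (σ.mv (prmC kp m zt Lu) L M ρ).Rc) z ≤ dlt (toF σ.W) z := by
              refine dlt_mono fun f hf => (mem_toF hWfin).2 ?_
              rcases hsub ((mem_toF hfin').1 hf) with h5 | ⟨s, hs, -⟩
              · exact h5
              · rw [hr] at hs
                exact absurd hs (by simp)
            have h4' : (dlt (toF (σ.mv (prmC kp m zt Lu) L M ρ).Rc) z : ℤ) ≤ dlt (toF σ.W) z := by
              exact_mod_cast h4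
            linarith
        · rw [if_neg hz, add_zero]
          right
          linarith
      · rw [min_eq_right (by omega)] at h1
        rw [min_eq_right (by omega)]
        right
        linarith
    · have hj : (σ.mv (prmC kp m zt Lu) L M ρ).j = σ.j := by rw [CSt.j_mv, if_neg hr]
      rw [hj]
      right
      linarith

/-- **Coverage.** After enough visits of the target `z` there is a cell outside of the recorded region
near `z`. -/
theorem cover {kp m : ℕ} {zt : ℕ → ℤ × ℤ} {Lu : ℕ} (hLu : 1 ≤ Lu) {d : ℕ → ℕ}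
    {W₀ : Set (ℤ × ℤ)} (hW₀ : W₀.Finite) {x : List Rec} (h : StH (prmC kp m zt Lu) d W₀ x)
    {Λ : ℤ} (hΛ0 : 0 ≤ Λ) (hpos : ∀ i < x.length, 0 < msh d i) (hΛ : ∀ i < x.length, msh d i ≤ Λ)
    {z : ℤ × ℤ} {v : ℕ} (hv : v ≤ vis zt z (min (cst (prmC kp m zt Lu) d W₀ x).j m))
    (hb : 2 * (dlt (toF W₀) z : ℤ) < v * (Lu - 1) + 6 * Lu) :
    ∃ f, f ∉ (cst (prmC kp m zt Lu) d W₀ x).Rc ∧ sd f z < 3 * Lu + 3 * Λ := by
  have hfin : (cst (prmC kp m zt Lu) d W₀ x).Rc.Finite :=
    hW₀.subset (rc_cst (ndOK_prmC hLu) d W₀ x)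
  have key : (dlt (toF (cst (prmC kp m zt Lu) d W₀ x).Rc) z : ℤ) < 3 * Lu + 3 * Λ := by
    rcases progress hLu hW₀ h hpos hΛ z with h1 | h1
    · exact h1
    · have h2 : (v : ℤ) * (Lu - 1) ≤
          vis zt z (min (cst (prmC kp m zt Lu) d W₀ x).j m) * (Lu - 1) := by
        refine mul_le_mul_of_nonneg_right (by exact_mod_cast hv) ?_
        have : (1 : ℤ) ≤ Lu := by exact_mod_cast hLu
        linarith
      linarith
  obtain ⟨w, h1, h2⟩ := exists_dlt (toF (cst (prmC kp m zt Lu) d W₀ x).Rc) z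
  exact ⟨w, fun hw => h1 ((mem_toF hfin).2 hw), by rw [h2]; exact key⟩

/-! ### What is lost in one stage -/

theorem ent_sub_rem {s : Dom} {g : Grd} {ρ : Rec} : s.ent g ρ ⊆ s.rem g ρ := by
  intro f hf
  unfold Dom.rem
  split_ifs
  · exact hf
  · exact Or.inr hf

/-- What is lost in a stage of a running step: removed cells; the component of the target if the new
domain is not a disc (this does not happen); the other components which are not stored. -/
theorem drop_run {σ : CSt} {π : Prm} {L M : ℤ} {ρ : Rec} {s : Dom} (hs : σ.run = some s)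
    {f : ℤ × ℤ} (hf : f ∈ σ.Rc) (hf' : f ∉ (σ.mv π L M ρ).Rc) :
    σ.ini = false ∧ f ∈ s.P ∧ (f ∈ s.rem (s.grd L M) ρ ∨
      (f ∉ s.rem (s.grd L M) ρ ∧ f ∈ s.nxP (s.grd L M) ρ ∧ ¬ s.End (s.grd L M) ρ ∧
        ¬ (s.nx (s.grd L M) ρ).Ok) ∨
      (f ∉ s.rem (s.grd L M) ρ ∧ ahead s.B ∉ compT (s.P \ s.rem (s.grd L M) ρ) f ∧
        f ∉ s.lef (s.grd L M) ρ)) := by
  have hi : σ.ini = false := by
    rcases h : σ.ini with _ | _
    · rfl
    · exfalso
      apply hf'
      rw [CSt.mv_ini hs h]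
      rcases hf with h1 | ⟨s', hs', h1⟩
      · exact Or.inl h1
      · rw [hs] at hs'
        exact Or.inr ⟨s', hs', h1⟩
  have hW : f ∉ σ.W := by
    intro h
    apply hf'
    by_cases hE : s.End (s.grd L M) ρ ∨ ¬ (s.nx (s.grd L M) ρ).Ok
    · rw [CSt.mv_end hs hi hE]; exact Or.inl (Or.inl h)
    · rw [CSt.mv_run hs hi hE]; exact Or.inl (Or.inl h)
  have hP : f ∈ s.P := by
    rcases hf with h | ⟨s', hs', h⟩
    · exact absurd h hW
    · rw [hs] at hs'
      simp only [Option.some.injEq] at hs'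
      rw [hs']; exact h
  refine ⟨hi, hP, ?_⟩
  by_cases hr : f ∈ s.rem (s.grd L M) ρ
  · exact Or.inl hr
  right
  have hl : f ∉ s.lef (s.grd L M) ρ := by
    intro hl
    apply hf'
    by_cases hE : s.End (s.grd L M) ρ ∨ ¬ (s.nx (s.grd L M) ρ).Ok
    · rw [CSt.mv_end hs hi hE]; exact Or.inl (Or.inr hl)
    · rw [CSt.mv_run hs hi hE]; exact Or.inl (Or.inr hl)
  by_cases hB : ahead s.B ∈ compT (s.P \ s.rem (s.grd L M) ρ) f
  · left
    have hB' : ahead s.B ∈ s.P \ s.rem (s.grd L M) ρ := by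
      rcases compT_sub_insert hB with h1 | h1
      · rw [h1]; exact ⟨hP, hr⟩
      · exact h1
    have hn : f ∈ s.nxP (s.grd L M) ρ := ChI.symm (show f ∈ s.P \ s.rem (s.grd L M) ρ from ⟨hP, hr⟩) hB
    have hE : ¬ s.End (s.grd L M) ρ := fun h => hB'.2 (ent_sub_rem h)
    refine ⟨hr, hn, hE, fun hOk => ?_⟩
    apply hf'
    rw [CSt.mv_run hs hi (by rintro (h | h); exacts [hE h, h hOk])]
    exact Or.inr ⟨_, rfl, hn⟩
  · exact Or.inr ⟨hr, hB, hl⟩

/-- What is lost in a stage between two steps. -/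
theorem drop_none {σ : CSt} {π : Prm} {L M : ℤ} {ρ : Rec} (hs : σ.run = none)
    {f : ℤ × ℤ} (hf : f ∈ σ.Rc) (hf' : f ∉ (σ.mv π L M ρ).Rc) :
    f ∈ σ.W ∧ σ.Nw π L ∧ (f ∉ CSt.erW σ.W L (π.zt σ.j) ∨ f ∈ π.ndl (σ.c₁ π L) (π.zt σ.j)) := by
  have hW : f ∈ σ.W := by
    rcases hf with h | ⟨s, hs', -⟩
    · exact h
    · rw [hs] at hs'
      exact absurd hs' (by simp)
  have hN : σ.Nw π L := by
    by_contra hN
    apply hf'
    rw [CSt.mv_skip hs hN]
    exact Or.inl hW
  refine ⟨hW, hN, ?_⟩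
  by_contra hcon
  push Not at hcon
  apply hf'
  rw [CSt.mv_new hs hN]
  by_cases hP : f ∈ (CSt.dom₀ π (σ.c₁ π L) (π.zt σ.j)).P
  · exact Or.inr ⟨_, rfl, hP⟩
  · refine Or.inl ⟨hcon.1, ?_⟩
    rintro (h | h)
    · exact hcon.2 h
    · exact hP h

/-- An eroded cell is near a cell which is not in the component of the target. -/
theorem near_of_eroded {W : Set (ℤ × ℤ)} {L : ℤ} (hL : 0 < L) {z f : ℤ × ℤ}
    (hf : f ∈ W) (h : f ∉ CSt.erW W L z) : ∃ g, g ∉ W ∧ sd g f < 6 * L := by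
  have h1 : f ∈ compT W z := by
    by_contra h1
    exact h (Or.inl ⟨hf, h1⟩)
  have h2 : f ∉ er3 (gc 0 0 L) (compT W z) := fun h2 => h (Or.inr ⟨h2, hf⟩)
  have h3 : ∃ g : ℤ × ℤ, |g.1 - f.1| < 3 * L ∧ |g.2 - f.2| < 3 * L ∧ g ∉ compT W z := by
    by_contra hcon
    push Not at hcon
    exact h2 (er3_of_box hL hcon)
  obtain ⟨g, h4, h5, h6⟩ := h3
  by_contra hcon
  push Not at hcon
  have hbox : ∀ k, sd k f < 6 * L → k ∈ W := by
    intro k hk
    by_contra hk'
    exact absurd (hcon k hk') (not_le.2 hk)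
  have h7 : sd g f < 6 * L := max_lt (by omega) (by omega)
  have h8 : ChI W f g := chI_box hbox h7
  exact h6 (ChI.trans h1 h8)

end Pool.Agent.SixB.Mv
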