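import Pool.Agent.Lib.SixB.S8ScanD

/-!
# Step 8, SCAN: the outer corners of the declared cluster far from the declared set are real

`H` removed vertices, `A` the declared set, `V ⊇ Vs A` a neighbourhood. If any two vertices of the
declared cluster outside of `V` are joined by real edges (`no2`) and if no face of a corner outside of
`V` is joined to a face of an edge of `A` across closed edges of the box which are not in `A` and have
no end in `H` (`nodual`), then outside of `V` the declared cluster and the real cluster have the same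
outer corners (`same_corners`).
-/

set_option autoImplicit false

namespace Pool.Agent.SixB.Scan

open Set Pool.Agent.MP_6bd702.H23 Pool.Agent.MP_6bd702.H60 Pool.Agent.PercU Pool.Agent.PercO

/-- Two faces on the two sides of a closed edge of the box which is not in `A` and has no end in
`H`. -/
def DSt (n : ℤ) (H : Set (ℤ × ℤ)) (A ω : Set Ed) (f g : ℤ × ℤ) : Prop :=
  ∃ e ∈ EW 0 n 0 n, e ∉ ω ∧ e ∉ A ∧ ea e ∉ H ∧ eb e ∉ H ∧
    ((f1 e = f ∧ f2 e = g) ∨ (f1 e = g ∧ f2 e = f))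

variable {n : ℤ} {H : Set (ℤ × ℤ)} {A ω : Set Ed} {a : ℤ × ℤ}

/-! ### Clusters and outer corners of joined vertices -/

theorem kc_eq {ω : Set Ed} {u v : ℤ × ℤ} (h : Conn ω univ u v) : Kc ω v = Kc ω u := by
  ext w
  exact ⟨fun hw => h.trans hw, fun hw => h.symm.trans hw⟩

theorem tc_eq {ω : Set Ed} {u v : ℤ × ℤ} (h : Conn ω univ u v) : Tc ω v = Tc ω u := by
  ext e
  exact ⟨fun hw => ⟨hw.1, h.trans hw.2⟩, fun hw => ⟨hw.1, h.symm.trans hw.2⟩⟩

theorem oc_eq {ω : Set Ed} {u v : ℤ × ℤ} (h : Conn ω univ u v) : Oc ω v = Oc ω u := by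
  unfold Oc
  rw [kc_eq h, tc_eq h]

theorem frz_empty_sub : frz H ∅ ω ⊆ ω := by
  rintro e (h | h)
  · exact absurd h (Set.notMem_empty e)
  · exact h.1

/-- The real cluster does not see the removed vertices. -/
theorem kc_frz_empty (hC : Closed H ω) {u : ℤ × ℤ} (hu : u ∉ H) :
    Kc (frz H ∅ ω) u = Kc ω u := by
  refine Subset.antisymm (fun w hw => Conn.mono hw frz_empty_sub le_rfl) ?_
  exact kc_real hC Relation.ReflTransGen.refl hu

theorem tc_frz_empty (hC : Closed H ω) {u : ℤ × ℤ} (hu : u ∉ H) :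
    Tc (frz H ∅ ω) u = Tc ω u := by
  refine Subset.antisymm ?_ (tc_real hC Relation.ReflTransGen.refl hu)
  rintro e ⟨h1, h2⟩
  exact ⟨frz_empty_sub h1, Conn.mono h2 frz_empty_sub le_rfl⟩

theorem oc_frz_empty (hC : Closed H ω) {u : ℤ × ℤ} (hu : u ∉ H) :
    Oc (frz H ∅ ω) u = Oc ω u := by
  unfold Oc
  rw [kc_frz_empty hC hu, tc_frz_empty hC hu]

/-- The outer corners are closed under the inverse of the corner walk. -/
theorem mem_Oc_of_nxt {ω : Set Ed} {v : ℤ × ℤ} {k : Cor} (hk : nxt ω k ∈ Oc ω v) : k ∈ Oc ω v := by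
  have h1 : vtx k ∈ Kc ω v := Conn.trans hk.1 (conn_vtx k 1).symm
  refine ⟨h1, ?_⟩
  by_cases h : qry k ∈ ω
  · have := hk.2
    rwa [nxt_of_mem h, fce_adv] at this
  · have := hk.2
    rw [nxt_of_notMem h] at this
    exact Out.of_conn (fstep_rot fun h' => h h'.1).symm this

/-! ### The outer perimeter of a real cluster which touches `A` -/

/-- Edges at a vertex outside of `H` which are not in `A`. -/
theorem mem_frz_iff' (hC : Closed H ω) {e : Ed} {u : ℤ × ℤ} (huH : u ∉ H) (heA : e ∉ A)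
    (he : ea e = u ∨ eb e = u) : e ∈ frz H A ω ↔ e ∈ ω := by
  constructor
  · rintro (h | h)
    · exact absurd h heA
    · exact h.1
  · intro h
    refine Or.inr ⟨h, ?_⟩
    rcases he with he | he
    · have h1 : ea e ∉ H := by rw [he]; exact huH
      exact ⟨h1, fun h2 => h1 ((hC e h).2 h2)⟩
    · have h1 : eb e ∉ H := by rw [he]; exact huH
      exact ⟨fun h2 => h1 ((hC e h).1 h2), h1⟩

theorem nxt_frz' (hC : Closed H ω) {k : Cor} (hH : vtx k ∉ H) (hA : qry k ∉ A) :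
    nxt (frz H A ω) k = nxt ω k := nxt_congr (mem_frz_iff' hC hH hA (qry_end k))

/-- Every edge is queried by a corner at each of its ends. -/
theorem exists_qry (e : Ed) {p : ℤ × ℤ} (hp : ea e = p ∨ eb e = p) :
    ∃ k : Cor, vtx k = p ∧ qry k = e := by
  obtain ⟨x, y, s⟩ := e
  rcases hp with rfl | rfl
  · cases s
    · exact ⟨(x, y, true, false), rfl, rfl⟩
    · exact ⟨(x, y, true, true), rfl, rfl⟩
  · cases s
    · exact ⟨(x + 1, y, false, true), rfl, by simp [qry]⟩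
    · exact ⟨(x, y + 1, false, false), rfl, by simp [qry]⟩

/-- The outer perimeter of a real cluster which touches `A` queries an edge of `A` or has a common
corner with the outer perimeter of the declared cluster. -/
theorem exists_corner_at (hA : A ⊆ EW 0 n 0 n) (hω : ω ⊆ EW 0 n 0 n) (hC : Closed H ω)
    (hH : Att n H) (hAH : ∀ e ∈ A, ea e ∉ H ∧ eb e ∉ H) {u v v₀ w : ℤ × ℤ}
    (hu : u ∈ Kc (frz H A ω) a) (huH : u ∉ H) (hv : v ∈ Kc ω u) (hvA : Conn A univ v v₀)
    (hw : w ∈ H ∨ w ∈ Ext n) (hvw : sd v₀ w ≤ 1) :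
    ∃ k ∈ Oc ω u, qry k ∈ A ∨ k ∈ Oc (frz H A ω) a := by
  have hT : Tc ω u ⊆ EW 0 n 0 n := Tc_sub.trans hω
  have hT' : Tc (frz H A ω) a ⊆ EW 0 n 0 n := Tc_sub.trans (frz_sub (H := H) hA hω)
  have hTH : ∀ e ∈ Tc ω u, ea e ∉ H ∧ eb e ∉ H := fun e he =>
    ⟨closed_cluster' hC huH (ea_mem he), closed_cluster' hC huH (eb_mem he)⟩
  have key : ∀ x, Relation.ReflTransGen (Step A univ) x v₀ →
      (∃ k ∈ Oc ω u, qry k ∈ A ∨ k ∈ Oc (frz H A ω) a) ∨
        (x ∉ Kc ω u ∧ ∀ k : Cor, vtx k = x → fce k ∈ Out (Tc ω u)) := by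
    intro x hx
    induction hx using Relation.ReflTransGen.head_induction_on with
    | refl =>
      obtain ⟨k1, k2, e1, e2, e3⟩ := fce_share hvw
      have h1 : fce k1 ∈ Out (Tc ω u) := by
        rw [e3]
        rcases hw with hw | hw
        · exact att_out hT hH hTH (by rw [e2]; exact hw)
        · exact ext_out hT (by rw [e2]; exact hw)
      have h2 : fce k1 ∈ Out (Tc (frz H A ω) a) := by
        rw [e3]
        rcases hw with hw | hw
        · exact att_out hT' hH (fun e he => tc_avoid hAH he) (by rw [e2]; exact hw)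
        · exact ext_out hT' (by rw [e2]; exact hw)
      by_cases hx : v₀ ∈ Kc ω u
      · exact Or.inl ⟨k1, ⟨by rw [e1]; exact hx, h1⟩,
          Or.inr ⟨by rw [e1]; exact kc_real hC hu huH hx, h2⟩⟩
      · exact Or.inr ⟨hx, fun k hk => out_of_notMem hx e1 hk h1⟩
    | @head p q h1 _ ih =>
      obtain ⟨-, -, e, he, hh⟩ := h1
      have hpq : sd p q ≤ 1 := by
        have := sd_ends e
        rcases hh with ⟨h3, h4⟩ | ⟨h3, h4⟩
        · rwa [h3, h4] at this
        · rwa [h3, h4, sd_comm] at this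
      rcases ih with h2 | ⟨hq, h2⟩
      · exact Or.inl h2
      by_cases hp : p ∈ Kc ω u
      · obtain ⟨k, hk1, hk2⟩ := exists_qry e (p := p) (by
          rcases hh with ⟨h3, -⟩ | ⟨-, h3⟩
          · exact Or.inl h3
          · exact Or.inr h3)
        refine Or.inl ⟨k, ⟨by rw [hk1]; exact hp, ?_⟩, Or.inl (by rw [hk2]; exact he)⟩
        have h3 : vtx (adv k) = q := by
          rcases ends_qry k with ⟨h4, h5⟩ | ⟨h4, h5⟩ <;> rw [hk2] at h4 h5 <;> rw [hk1] at * <;>
            rcases hh with ⟨h6, h7⟩ | ⟨h6, h7⟩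
          · rw [← h5, h7]
          · rw [← h5, h7, ← h6, h4]
          · rw [← h4, h6, ← h7, h5]
          · rw [← h4, h6]
        have h4 := h2 (adv k) h3
        rwa [fce_adv] at h4
      · obtain ⟨k1, k2, e1, e2, e3⟩ := fce_share hpq
        have h3 : fce k1 ∈ Out (Tc ω u) := by
          rw [e3]
          exact h2 k2 e2
        exact Or.inr ⟨hp, fun k hk => out_of_notMem hp e1 hk h3⟩
  rcases key v hvA with h | ⟨h, -⟩
  · exact h
  · exact absurd hv h

/-! ### The dual path -/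

/-- A corner of the outer perimeter of the real cluster which is not an outer corner of the declared
cluster is joined to `A` by a dual path of fresh closed edges. -/
theorem dual_path (hA : A ⊆ EW 0 n 0 n) (hω : ω ⊆ EW 0 n 0 n) (hC : Closed H ω) (hH : Att n H)
    (hAH : ∀ e ∈ A, ea e ∉ H ∧ eb e ∉ H) {u : ℤ × ℤ} (hu : u ∈ Kc (frz H A ω) a) (huH : u ∉ H)
    {k k₁ : Cor} (hk : k ∈ Oc ω u) (hk₁ : k₁ ∈ Oc ω u) (hkA : qry k₁ ∈ A ∨ k₁ ∈ Oc (frz H A ω) a)
    (hkn : k ∉ Oc (frz H A ω) a) :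
    ∃ k' : Cor, qry k' ∈ A ∧ Relation.ReflTransGen (DSt n H A ω) (fce k) (fce k') := by
  classical
  obtain ⟨j, hj⟩ := outer_orbit hω hk hk₁
  have hT : Tc (frz H A ω) a ⊆ EW 0 n 0 n := Tc_sub.trans (frz_sub (H := H) hA hω)
  have hcl : ∀ i, vtx ((nxt ω)^[i] k) ∈ Kc ω u := fun i => vtx_iter_mem hk.1 i
  have hnH : ∀ i, vtx ((nxt ω)^[i] k) ∉ H := fun i => closed_cluster' hC huH (hcl i)
  have hK : ∀ i, vtx ((nxt ω)^[i] k) ∈ Kc (frz H A ω) a := fun i => kc_real hC hu huH (hcl i)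
  -- no corner before the first query of `A` is an outer corner of the declared cluster
  have hno : ∀ i, (∀ l < i, qry ((nxt ω)^[l] k) ∉ A) → (nxt ω)^[i] k ∉ Oc (frz H A ω) a := by
    intro i
    induction i with
    | zero => intro _; exact hkn
    | succ i ih =>
      intro hi h
      refine ih (fun l hl => hi l (by omega)) (mem_Oc_of_nxt ?_)
      rw [nxt_frz' hC (hnH i) (hi i (by omega))]
      rwa [Function.iterate_succ_apply'] at h
  have hex : ∃ i : ℕ, qry ((nxt ω)^[i] k) ∈ A := by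
    by_contra hcon
    push Not at hcon
    rcases hkA with h | h
    · exact hcon j (by rw [hj]; exact h)
    · exact hno j (fun l _ => hcon l) (by rw [hj]; exact h)
  set j₀ := Nat.find hex with hj₀
  have hend : qry ((nxt ω)^[j₀] k) ∈ A := Nat.find_spec hex
  have hbef : ∀ i < j₀, qry ((nxt ω)^[i] k) ∉ A := fun i hi => Nat.find_min hex hi
  have hf : ∀ i ≤ j₀, fce ((nxt ω)^[i] k) ∉ Out (Tc (frz H A ω) a) := fun i hi h =>
    hno i (fun l hl => hbef l (by omega)) ⟨hK i, h⟩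
  have hpath : ∀ i ≤ j₀, Relation.ReflTransGen (DSt n H A ω) (fce k) (fce ((nxt ω)^[i] k)) := by
    intro i
    induction i with
    | zero => intro _; exact .refl
    | succ i ih =>
      intro hi
      have h1 := ih (by omega)
      rw [Function.iterate_succ_apply']
      set k' := (nxt ω)^[i] k with hk'
      have hvA : qry k' ∉ A := hbef i (by omega)
      have hvH : vtx k' ∉ H := hnH i
      have hout : fce k' ∉ Out (Tc (frz H A ω) a) := hf i (by omega)
      by_cases hq : qry k' ∈ ω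
      · rw [nxt_of_mem hq, fce_adv]
        exact h1
      · rw [nxt_of_notMem hq]
        have hadv : vtx (adv k') ∉ H := fun h =>
          hout (by
            have := att_out hT hH (fun e he => tc_avoid hAH he) (k := adv k') h
            rwa [fce_adv] at this)
        have hex1 : vtx k' ∉ Ext n := fun h => hout (ext_out hT h)
        have hex2 : vtx (adv k') ∉ Ext n := fun h => hout (by
          have := ext_out hT (k := adv k') h
          rwa [fce_adv] at this)
        refine h1.tail ⟨qry k', ?_, hq, hvA, ?_, ?_, faces_qry k'⟩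
        · rw [mem_EW, mem_Rect, mem_Rect]
          unfold Ext at hex1 hex2
          simp only [mem_ofPred_eq, not_or, not_lt] at hex1 hex2
          rcases ends_qry k' with ⟨h3, h4⟩ | ⟨h3, h4⟩ <;> rw [h3, h4] <;> omega
        · rcases ends_qry k' with ⟨h3, -⟩ | ⟨h3, -⟩ <;> rw [h3]
          · exact hvH
          · exact hadv
        · rcases ends_qry k' with ⟨-, h3⟩ | ⟨-, h3⟩ <;> rw [h3]
          · exact hadv
          · exact hvH
  exact ⟨_, hend, hpath j₀ le_rfl⟩

/-! ### The same corners -/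

/-- **N3, deterministic part.** -/
theorem same_corners (hA : A ⊆ EW 0 n 0 n) (hω : ω ⊆ EW 0 n 0 n) (hC : Closed H ω) (hH : Att n H)
    (hAH : ∀ e ∈ A, ea e ∉ H ∧ eb e ∉ H) (haA : a ∈ Vs A) (hconn : ∀ x ∈ Vs A, Conn A univ a x)
    {v₀ w : ℤ × ℤ} (hv₀ : v₀ ∈ Vs A) (hw : w ∈ H ∨ w ∈ Ext n) (hvw : sd v₀ w ≤ 1)
    {V : Set (ℤ × ℤ)} (hV : Vs A ⊆ V)
    (no2 : ∀ x ∈ Kc (frz H A ω) a, x ∉ V → ∀ y ∈ Kc (frz H A ω) a, y ∉ V → Conn ω univ x y)
    (nodual : ∀ k k' : Cor, vtx k ∉ V → qry k' ∈ A →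
      ¬ Relation.ReflTransGen (DSt n H A ω) (fce k) (fce k'))
    {u : ℤ × ℤ} (hu : u ∈ Kc (frz H A ω) a) (huV : u ∉ V) {k : Cor} (hk : vtx k ∉ V) :
    k ∈ Oc (frz H A ω) a ↔ k ∈ Oc ω u := by
  have haH : a ∉ H := by
    obtain ⟨e, he, h | h⟩ := haA
    · rw [← h]; exact (hAH e he).1
    · rw [← h]; exact (hAH e he).2
  have huH : u ∉ H := kc_avoid hAH haH hu
  constructor
  · intro h
    have h1 : vtx k ∉ H := kc_avoid hAH haH h.1
    have h2 := real_corner hC h h1
    rwa [oc_eq (no2 u hu huV (vtx k) h.1 hk)] at h2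
  · intro h
    by_contra hcon
    obtain ⟨v, hv, hvu⟩ : ∃ v ∈ Vs A, Conn ω univ v u := by
      rcases touch haA hu with h1 | h1
      · exact absurd (hV h1) huV
      · exact h1
    obtain ⟨k₁, hk₁, hk₁A⟩ := exists_corner_at hA hω hC hH hAH hu huH hvu.symm
      ((hconn v hv).symm.trans (hconn v₀ hv₀)) hw hvw
    obtain ⟨k', h1, h2⟩ := dual_path hA hω hC hH hAH hu huH h hk₁ hk₁A hcon
    exact nodual k k' hk h1 h2

/-! ### Finite sets of edges -/

open Pool.Agent.Perc

open Classical in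
/-- The edges of `Q` and the edges of `T` without ends in `H`. -/
noncomputable def frzF (H : Set (ℤ × ℤ)) (Q T : Finset Edg) : Finset Edg :=
  Q ∪ T.filter fun e => ea e ∉ H ∧ eb e ∉ H

theorem mem_frzF {Q T : Finset Edg} {e : Edg} :
    e ∈ frzF H Q T ↔ e ∈ Q ∨ (e ∈ T ∧ ea e ∉ H ∧ eb e ∉ H) := by
  unfold frzF
  simp only [Finset.mem_union, Finset.mem_filter]

theorem coe_frzF (H : Set (ℤ × ℤ)) (Q T : Finset Edg) :
    ((frzF H Q T : Finset Edg) : Set Ed) = frz H (Q : Set Ed) (T : Set Ed) := by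
  ext e
  rw [Finset.mem_coe, mem_frzF]
  rfl

theorem frzF_sub {m : ℕ} {Q T : Finset Edg} (hQ : Q ⊆ boxE m) (hT : T ⊆ boxE m) :
    frzF H Q T ⊆ boxE m := by
  intro e he
  rcases mem_frzF.1 he with h | h
  · exact hQ h
  · exact hT h.1

theorem frzF_mono {Q T : Finset Edg} : frzF H ∅ T ⊆ frzF H Q T := by
  intro e he
  rcases mem_frzF.1 he with h | h
  · exact absurd h (Finset.notMem_empty e)
  · exact mem_frzF.2 (Or.inr h)

/-- The outer corners of a cluster which avoids `H` do not see `H`. -/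
theorem outer_frzF {T : Finset Edg} (hC : Closed H (T : Set Ed)) {u : ℤ × ℤ}
    (hu : u ∉ H) (k : Cor) : (vtx k ∈ clV (frzF H ∅ T) u ∧ Outer (frzF H ∅ T) u (fce k)) ↔
      (vtx k ∈ clV T u ∧ Outer T u (fce k)) := by
  rw [← mem_Oc, ← mem_Oc, coe_frzF, Finset.coe_empty, oc_frz_empty hC hu]

/-- **N3, deterministic part, for finite sets of edges.** -/
theorem same_outer {m : ℕ} {Q T : Finset Edg} (hQ : Q ⊆ boxE m) (hT : T ⊆ boxE m)
    (hC : Closed H (T : Set Ed)) (hH : Att m H) (hQH : ∀ e ∈ Q, ea e ∉ H ∧ eb e ∉ H)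
    (haA : a ∈ Vs (Q : Set Ed)) (hconn : ∀ x ∈ Vs (Q : Set Ed), Conn (Q : Set Ed) univ a x)
    {v₀ w : ℤ × ℤ} (hv₀ : v₀ ∈ Vs (Q : Set Ed)) (hw : w ∈ H ∨ w ∈ Ext m) (hvw : sd v₀ w ≤ 1)
    {V : Set (ℤ × ℤ)} (hV : Vs (Q : Set Ed) ⊆ V)
    (no2 : ∀ x ∈ clV (frzF H Q T) a, x ∉ V → ∀ y ∈ clV (frzF H Q T) a, y ∉ V → y ∈ clV T x)
    (nodual : ∀ k k' : Cor, vtx k ∉ V → qry k' ∈ Q →
      ¬ Relation.ReflTransGen (DSt m H (Q : Set Ed) (T : Set Ed)) (fce k) (fce k'))
    {u : ℤ × ℤ} (hu : u ∈ clV (frzF H Q T) a) (huV : u ∉ V) {k : Cor} (hk : vtx k ∉ V) :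
    (vtx k ∈ clV (frzF H ∅ T) u ∧ Outer (frzF H ∅ T) u (fce k)) ↔
      (vtx k ∈ clV (frzF H Q T) u ∧ Outer (frzF H Q T) u (fce k)) := by
  have hKc : ∀ x, clV (frzF H Q T) x = Kc (frz H (Q : Set Ed) (T : Set Ed)) x := by
    intro x
    rw [clV_eq, coe_frzF]
  have haH : a ∉ H := by
    obtain ⟨e, he, h | h⟩ := haA
    · rw [← h]; exact (hQH e he).1
    · rw [← h]; exact (hQH e he).2
  rw [hKc] at hu no2
  have huH : u ∉ H := kc_avoid hQH haH hu
  rw [outer_frzF hC huH, ← mem_Oc, ← mem_Oc, coe_frzF, oc_eq hu]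
  refine (same_corners (boxE_sub hQ) (boxE_sub hT) hC hH hQH haA hconn hv₀ hw hvw hV ?_ nodual hu
    huV hk).symm
  intro x hx hxV y hy hyV
  have h1 := no2 x hx hxV y hy hyV
  rw [clV_eq] at h1
  exact h1

end Pool.Agent.SixB.Scan
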