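import Pool.Agent.Lib.SixB.S8NeedleF
import Pool.Agent.Lib.SixB.S8ScanDet
import Pool.Agent.Lib.SixB.S8ScanB
import Pool.Agent.Lib.SixB.S8ScanV
import Pool.Agent.Lib.SixB.S8App
import Pool.Agent.Lib.SixB.S8Blow

/-!
# Step 8: the true needle

`F`: the fresh faces, `P ⊆ F`: the recorded faces. The recorded part `G ⊆ P` of the needle starts at
the face `a`, next to the face `y` outside of `P`. The hook is a chain of fresh faces outside of `P` from
`y` to a face which is not fresh, in the smallest possible square around `y`.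

* `hkR_of_app`: there is a hook inside of the class of `y`.
* `ndT`: the needle (edges and base); `Pre`: its hypotheses.
* `Pre.qF`: its faces are `G` and the hook; `Pre.ndF`: it is a needle with a base corner (`NdF`);
  `Pre.isNdl`: it is a needle of the scan (`IsNdl`).
* `hookU u L V C z`: the needle for the unit `u` with `L` cells towards `z` in the set of cells `C`.
-/

set_option autoImplicit false

namespace Pool.Agent.SixB.Hook

open Pool.Agent.Perc Pool.Agent.PercU Pool.Agent.PercT Pool.Agent.PercX60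
open Pool.Agent.MP_6bd702.H23 (Ed ea eb ea_mk eb_true eb_false)
open Pool.Agent.PercO (mem_boxE' tl_eq hd_eq)
open Pool.Agent.SixB Pool.Agent.SixB.Rule Pool.Agent.SixB.Dct Pool.Agent.SixB.Top
open Pool.Agent.SixB.Ndle (sd ndF ndA ndB)

variable {F P : Set (ℤ × ℤ)} {y : ℤ × ℤ} {r : ℕ}

/-! ### Hooks -/

/-- A hook: a chain of faces of `F` outside of `P` from `y` to a face outside of `F`, in the square of
radius `r` around `y`. -/
structure IsHk (F P : Set (ℤ × ℤ)) (y : ℤ × ℤ) (r : ℕ) (γ : ℕ → ℤ × ℤ) (k : ℕ) : Prop where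
  zero : γ 0 = y
  adj : ∀ i < k, AdjF (γ i) (γ (i + 1))
  fresh : ∀ i < k, γ i ∈ F
  last : γ k ∉ F
  out : ∀ i < k, γ i ∉ P
  box : ∀ i ≤ k, sd (γ i) y ≤ r

/-- There is a hook in the square of radius `r`. -/
def HkR (F P : Set (ℤ × ℤ)) (y : ℤ × ℤ) (r : ℕ) : Prop := ∃ γ k, IsHk F P y r γ k

/-- The least radius. -/
noncomputable def hkr (F P : Set (ℤ × ℤ)) (y : ℤ × ℤ) : ℕ := sInf {r | HkR F P y r}

/-- The hook. -/
noncomputable def hk (F P : Set (ℤ × ℤ)) (y : ℤ × ℤ) : (ℕ → ℤ × ℤ) × ℕ :=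
  Classical.epsilon fun p => IsHk F P y (hkr F P y) p.1 p.2

theorem hkr_le (h : HkR F P y r) : hkr F P y ≤ r := Nat.sInf_le h

theorem hk_spec (h : HkR F P y r) : IsHk F P y (hkr F P y) (hk F P y).1 (hk F P y).2 := by
  have h1 : HkR F P y (hkr F P y) := Nat.sInf_mem (s := {r | HkR F P y r}) ⟨r, h⟩
  obtain ⟨γ, k, h2⟩ := h1
  exact Classical.epsilon_spec (p := fun p : (ℕ → ℤ × ℤ) × ℕ => IsHk F P y (hkr F P y) p.1 p.2)
    ⟨(γ, k), h2⟩

theorem hk_box (h : HkR F P y r) {i : ℕ} (hi : i ≤ (hk F P y).2) : sd ((hk F P y).1 i) y ≤ r := by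
  have h1 := (hk_spec h).box i hi
  have h2 : (hkr F P y : ℤ) ≤ r := by exact_mod_cast hkr_le h
  omega

/-- From a chain to a hook. -/
theorem hkR_of_chain {S : Set (ℤ × ℤ)} (hS : ∀ f ∈ S, sd f y ≤ r) (hSP : ∀ f ∈ S, f ∉ P)
    (hy : y ∈ S) {g : ℤ × ℤ} (hg : g ∉ F) (hc : ChI S y g) : HkR F P y r := by
  have key : ∀ x, ChI S y x → (∃ γ : ℕ → ℤ × ℤ, ∃ k, γ 0 = y ∧ γ k = x ∧
      (∀ i < k, AdjF (γ i) (γ (i + 1))) ∧ (∀ i ≤ k, γ i ∈ S) ∧ ∀ i < k, γ i ∈ F) ∨
      HkR F P y r := by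
    intro x hx
    induction hx with
    | refl =>
      exact Or.inl ⟨fun _ => y, 0, rfl, rfl, fun i hi => absurd hi (Nat.not_lt_zero i),
        fun i _ => hy, fun i hi => absurd hi (Nat.not_lt_zero i)⟩
    | @tail b c _ hs ih =>
      rcases ih with ⟨γ, k, h0, h1, h2, h3, h4⟩ | h
      · by_cases hb : b ∈ F
        · left
          set γ' : ℕ → ℤ × ℤ := fun i => if i ≤ k then γ i else c with hγ'
          have e1 : ∀ i ≤ k, γ' i = γ i := fun i hi => if_pos hi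
          have e2 : γ' (k + 1) = c := if_neg (by omega)
          refine ⟨γ', k + 1, ?_, e2, ?_, ?_, ?_⟩
          · rw [e1 0 (Nat.zero_le k)]; exact h0
          · intro i hi
            rcases Nat.lt_or_ge i k with h5 | h5
            · rw [e1 i h5.le, e1 (i + 1) h5]; exact h2 i h5
            · have h6 : i = k := by omega
              rw [h6, e1 k le_rfl, e2, h1]
              exact hs.1
          · intro i hi
            rcases Nat.lt_or_ge k i with h5 | h5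
            · rw [show i = k + 1 by omega, e2]; exact hs.2
            · rw [e1 i h5]; exact h3 i h5
          · intro i hi
            rcases Nat.lt_or_ge i k with h5 | h5
            · rw [e1 i h5.le]; exact h4 i h5
            · have h6 : i = k := by omega
              rw [h6, e1 k le_rfl, h1]; exact hb
        · right
          exact ⟨γ, k, h0, h2, h4, by rw [h1]; exact hb, fun i hi => hSP _ (h3 i hi.le),
            fun i hi => hS _ (h3 i hi)⟩
      · exact Or.inr h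
  rcases key g hc with ⟨γ, k, h0, h1, h2, h3, h4⟩ | h
  · exact ⟨γ, k, h0, h2, h4, by rw [h1]; exact hg, fun i hi => hSP _ (h3 i hi.le),
      fun i hi => hS _ (h3 i hi)⟩
  · exact h

/-- There is a hook in the class of a face next to `P`. -/
theorem hkR_of_app {ι : Type*} {U : Set (ℤ × ℤ)} {κ : ℤ × ℤ → ι} {d : ℤ} (h : App U P κ d)
    (hcl : ∀ a ∈ U, ∀ b, AdjF a b → b ∈ F → b ∈ U) {a : ℤ × ℤ} (ha : a ∈ P)
    (hay : AdjF a y) (hy : y ∉ P) : HkR F P y (d - 1).toNat := by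
  obtain ⟨x, hx, hxU⟩ := h.out a ha y (adj_iff_adjFL.2 hay) hy
  have hbox : ∀ f ∈ {z | κ z = κ y}, sd f y ≤ ((d - 1).toNat : ℕ) := by
    intro f hf
    have h1 := h.diam f y hf
    have h2 : sd f y < d := max_lt h1.1 h1.2
    have := Int.self_le_toNat (d - 1)
    omega
  have hout : ∀ f ∈ {z | κ z = κ y}, f ∉ P := fun f hf hfP => hy (h.sat f y hf hfP)
  by_cases hyF : y ∈ F
  · have hyU : y ∈ U := hcl a (h.sub ha) y hay hyF
    have hch : ChI {z | κ z = κ y} y x := by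
      have h1 := (h.cell y x hx.symm).2
      have h2 : ∀ g, Relation.ReflTransGen (fun a b => Adj a b ∧ b ∈ {z | κ z = κ y}) y g →
          ChI {z | κ z = κ y} y g := by
        intro g hg
        induction hg with
        | refl => exact ChI.refl _
        | tail _ hs ih => exact Relation.ReflTransGen.tail ih ⟨adj_iff_adjFL.1 hs.1, hs.2⟩
      exact h2 x h1
    -- the chain leaves `U`, the first face outside of `U` is not in `F`
    have key : ∀ g, ChI {z | κ z = κ y} y g → g ∈ U ∨ ∃ g', ChI {z | κ z = κ y} y g' ∧ g' ∉ F := by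
      intro g hg
      induction hg with
      | refl => exact Or.inl hyU
      | @tail b c hb hs ih =>
        rcases ih with ih | ih
        · by_cases hc : c ∈ F
          · exact Or.inl (hcl b ih c hs.1 hc)
          · exact Or.inr ⟨c, Relation.ReflTransGen.tail hb hs, hc⟩
        · exact Or.inr ih
    rcases key x hch with h1 | ⟨g', h1, h2⟩
    · exact absurd h1 hxU
    · exact hkR_of_chain hbox hout rfl h2 h1
  · exact hkR_of_chain hbox hout rfl hyF (ChI.refl y)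

/-! ### The needle -/

/-- The faces of the hook. -/
noncomputable def hkS (F P : Set (ℤ × ℤ)) (y : ℤ × ℤ) : Finset (ℤ × ℤ) :=
  (Finset.range (hk F P y).2).image (hk F P y).1

/-- The face at the end of the hook, outside of `F`. -/
noncomputable def hkE (F P : Set (ℤ × ℤ)) (y : ℤ × ℤ) : ℤ × ℤ := (hk F P y).1 (hk F P y).2

/-- The last face of the needle: the last face of the hook or the face `a`. -/
noncomputable def hkL (F P : Set (ℤ × ℤ)) (a y : ℤ × ℤ) : ℤ × ℤ :=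
  if (hk F P y).2 = 0 then a else (hk F P y).1 ((hk F P y).2 - 1)

/-- The base: the common vertex of the square lattice of the faces `hkL` and `hkE`. -/
noncomputable def hkB (F P : Set (ℤ × ℤ)) (a y : ℤ × ℤ) : ℤ × ℤ :=
  Classical.epsilon fun w => Sq (phiV w) (hkL F P a y) ∧ Sq (phiV w) (hkE F P y)

/-- The faces of the needle. -/
noncomputable def ndS (F P : Set (ℤ × ℤ)) (G : Finset (ℤ × ℤ)) (y : ℤ × ℤ) : Finset (ℤ × ℤ) :=
  G ∪ hkS F P y

/-- The needle. -/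
noncomputable def ndT (F P : Set (ℤ × ℤ)) (G : Finset (ℤ × ℤ)) (a y : ℤ × ℤ) : Rule.Ndl :=
  ((ndS F P G y).image eE, hkB F P a y)

theorem eE_injective : Function.Injective eE := fun f g h => by
  rw [← phiE_eE f, ← phiE_eE g, h]

theorem qF_ndT (G : Finset (ℤ × ℤ)) (a : ℤ × ℤ) :
    QF (ndT F P G a y).1 = (ndS F P G y : Set (ℤ × ℤ)) := by
  ext f
  change eE f ∈ (ndS F P G y).image eE ↔ f ∈ ndS F P G y
  rw [Finset.mem_image]
  constructor
  · rintro ⟨g, hg, h⟩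
    rwa [← eE_injective h]
  · exact fun h => ⟨f, h, rfl⟩

theorem mem_hkS {f : ℤ × ℤ} : f ∈ hkS F P y ↔ ∃ i < (hk F P y).2, (hk F P y).1 i = f := by
  unfold hkS
  rw [Finset.mem_image]
  simp only [Finset.mem_range]

variable {V : Finset (ℤ × ℤ)} {G : Finset (ℤ × ℤ)} {a : ℤ × ℤ}

/-- The hypotheses of the needle. -/
structure Pre (V : Finset (ℤ × ℤ)) (P : Set (ℤ × ℤ)) (G : Finset (ℤ × ℤ)) (a y : ℤ × ℤ) (r : ℕ) :
    Prop where
  sub : ∀ f ∈ G, f ∈ P
  fresh : P ⊆ FU V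
  mem : a ∈ G
  adj : AdjF a y
  con : ∀ f ∈ G, ChI (G : Set (ℤ × ℤ)) a f
  hook : HkR (FU V) P y r

namespace Pre

variable (H : Pre V P G a y r)

include H

theorem hkS_sub {f : ℤ × ℤ} (hf : f ∈ hkS (FU V) P y) : f ∈ FU V ∧ f ∉ P ∧ sd f y ≤ r := by
  obtain ⟨i, hi, rfl⟩ := mem_hkS.1 hf
  exact ⟨(hk_spec H.hook).fresh i hi, (hk_spec H.hook).out i hi, hk_box H.hook hi.le⟩

theorem hkE_notMem : hkE (FU V) P y ∉ FU V := (hk_spec H.hook).last

theorem ndS_sub {f : ℤ × ℤ} (hf : f ∈ ndS (FU V) P G y) : f ∈ FU V := by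
  rcases Finset.mem_union.1 hf with h | h
  · exact H.fresh (H.sub f h)
  · exact (H.hkS_sub h).1

/-- The part of the needle in `P`. -/
theorem ndS_inter : {f | f ∈ ndS (FU V) P G y ∧ f ∈ P} = (G : Set (ℤ × ℤ)) := by
  ext f
  simp only [Set.mem_ofPred_eq, Finset.mem_coe]
  constructor
  · rintro ⟨h1, h2⟩
    rcases Finset.mem_union.1 h1 with h | h
    · exact h
    · exact absurd h2 (H.hkS_sub h).2.1
  · exact fun h => ⟨Finset.mem_union_left _ h, H.sub f h⟩

/-- The part of the needle outside of `P`. -/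
theorem ndS_diff : {f | f ∈ ndS (FU V) P G y ∧ f ∉ P} = (hkS (FU V) P y : Set (ℤ × ℤ)) := by
  ext f
  simp only [Set.mem_ofPred_eq, Finset.mem_coe]
  constructor
  · rintro ⟨h1, h2⟩
    rcases Finset.mem_union.1 h1 with h | h
    · exact absurd (H.sub f h) h2
    · exact h
  · exact fun h => ⟨Finset.mem_union_right _ h, (H.hkS_sub h).2.1⟩

/-- If the hook is not empty, it contains `y` and is joined to `y`. -/
theorem hkS_con {f : ℤ × ℤ} (hf : f ∈ hkS (FU V) P y) :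
    y ∈ hkS (FU V) P y ∧ ChI (hkS (FU V) P y : Set (ℤ × ℤ)) y f := by
  obtain ⟨i, hi, rfl⟩ := mem_hkS.1 hf
  have h0 := (hk_spec H.hook).zero
  refine ⟨mem_hkS.2 ⟨0, by omega, h0⟩, ?_⟩
  induction i with
  | zero => rw [h0]; exact ChI.refl _
  | succ i ih =>
    refine Relation.ReflTransGen.tail (ih (by omega) (mem_hkS.2 ⟨i, by omega, rfl⟩))
      ⟨(hk_spec H.hook).adj i (by omega), ?_⟩
    exact Finset.mem_coe.2 (mem_hkS.2 ⟨i + 1, hi, rfl⟩)

theorem adj_last : AdjF (hkL (FU V) P a y) (hkE (FU V) P y) := by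
  unfold hkL hkE
  split_ifs with h
  · rw [h, (hk_spec H.hook).zero]
    exact H.adj
  · have h1 := (hk_spec H.hook).adj ((hk (FU V) P y).2 - 1) (by omega)
    rwa [show (hk (FU V) P y).2 - 1 + 1 = (hk (FU V) P y).2 by omega] at h1

theorem last_mem : hkL (FU V) P a y ∈ ndS (FU V) P G y := by
  unfold hkL
  split_ifs with h
  · exact Finset.mem_union_left _ H.mem
  · exact Finset.mem_union_right _ (mem_hkS.2 ⟨_, by omega, rfl⟩)

/-- The needle is side connected. -/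
theorem con_a {f : ℤ × ℤ} (hf : f ∈ ndS (FU V) P G y) :
    ChI (ndS (FU V) P G y : Set (ℤ × ℤ)) a f := by
  rcases Finset.mem_union.1 hf with h | h
  · exact (H.con f h).mono (by intro x hx; exact Finset.mem_coe.2 (Finset.mem_union_left _ hx))
  · obtain ⟨h1, h2⟩ := H.hkS_con h
    have h3 : ChI (ndS (FU V) P G y : Set (ℤ × ℤ)) y f :=
      h2.mono (by intro x hx; exact Finset.mem_coe.2 (Finset.mem_union_right _ hx))
    exact Relation.ReflTransGen.head ⟨H.adj, Finset.mem_coe.2 (Finset.mem_union_right _ h1)⟩ h3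

theorem con_last {f : ℤ × ℤ} (hf : f ∈ ndS (FU V) P G y) :
    ChI (ndS (FU V) P G y : Set (ℤ × ℤ)) (hkL (FU V) P a y) f := by
  have ha : a ∈ (ndS (FU V) P G y : Set (ℤ × ℤ)) :=
    Finset.mem_coe.2 (Finset.mem_union_left _ H.mem)
  exact (ChI.symm ha (H.con_a H.last_mem)).trans (H.con_a hf)

theorem base_spec : Sq (phiV (hkB (FU V) P a y)) (hkL (FU V) P a y) ∧
    Sq (phiV (hkB (FU V) P a y)) (hkE (FU V) P y) :=
  Classical.epsilon_spec
    (p := fun w => Sq (phiV w) (hkL (FU V) P a y) ∧ Sq (phiV w) (hkE (FU V) P y))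
    (adj_share H.adj_last)

theorem base_mem : hkB (FU V) P a y ∈ V := by
  by_contra h
  exact sq_notMem h H.base_spec.1 (H.ndS_sub H.last_mem)

/-- **The needle has a base corner**: behind it is the face at the end of the hook. -/
theorem ndF : ∃ k, NdF V (ndT (FU V) P G a y).1 k ∧ vtx k = (ndT (FU V) P G a y).2 ∧
    phiE (qryb k) = hkE (FU V) P y := by
  obtain ⟨k', hk1, hk2⟩ := Scan.exists_qry (eE (hkE (FU V) P y)) (sq_phiV.1 H.base_spec.2)
  have e1 : qryb (rot k') = eE (hkE (FU V) P y) := by rw [qryb_rot, hk2]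
  have e2 : vtx (rot k') = hkB (FU V) P a y := by rw [vtx_rot, hk1]
  have e3 : phiE (qryb (rot k')) = hkE (FU V) P y := by rw [e1, phiE_eE]
  refine ⟨rot k', ⟨?_, ?_, ?_, ?_⟩, e2, e3⟩
  · intro e he
    obtain ⟨f, hf, rfl⟩ := Finset.mem_image.1 he
    exact H.ndS_sub hf
  · rw [e2]; exact H.base_mem
  · intro hw
    apply H.hkE_notMem
    have hb := H.base_mem
    rw [← e2] at hb
    change ea (eE (hkE (FU V) P y)) ∈ V ∧ eb (eE (hkE (FU V) P y)) ∈ V
    rw [← e1]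
    rcases qryb_ends (rot k') with ⟨h3, h4⟩ | ⟨h3, h4⟩
    · rw [h3, h4]; exact ⟨hb, hw⟩
    · rw [h3, h4]; exact ⟨hw, hb⟩
  · intro f hf
    rw [qF_ndT] at hf ⊢
    rw [e3]
    refine Relation.ReflTransGen.head (b := hkL (FU V) P a y)
      ⟨H.adj_last.symm, Finset.mem_coe.2 H.last_mem⟩ (H.con_last hf)

end Pre

/-! ### Distances -/

/-- Vertices of near faces are near. -/
theorem dist_of_sq {v w f g : ℤ × ℤ} {m : ℤ} (hv : Sq (phiV v) f) (hw : Sq (phiV w) g)
    (hm : sd f g ≤ m) : dist (toC v) (toC w) ≤ m + 1 := by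
  have h1 : |f.1 - g.1| ≤ m := (le_max_left _ _).trans hm
  have h2 : |f.2 - g.2| ≤ m := (le_max_right _ _).trans hm
  rw [abs_le] at h1 h2
  obtain ⟨v1, v2⟩ := v
  obtain ⟨w1, w2⟩ := w
  simp only [Sq, phiV] at hv hw
  have h3 : |v1 + v2 - (w1 + w2)| ≤ m + 1 := by rw [abs_le]; omega
  have h4 : |v1 - v2 - (w1 - w2)| ≤ m + 1 := by rw [abs_le]; omega
  have h5 : (0 : ℤ) ≤ m + 1 := (abs_nonneg _).trans h3
  have h3' : ((v1 : ℝ) + v2 - (w1 + w2)) ^ 2 ≤ ((m : ℝ) + 1) ^ 2 := by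
    have := sq_le_sq' (neg_le_of_abs_le h3) (le_of_abs_le h3)
    exact_mod_cast this
  have h4' : ((v1 : ℝ) - v2 - (w1 - w2)) ^ 2 ≤ ((m : ℝ) + 1) ^ 2 := by
    have := sq_le_sq' (neg_le_of_abs_le h4) (le_of_abs_le h4)
    exact_mod_cast this
  have h6 : (0 : ℝ) ≤ (m : ℝ) + 1 := by exact_mod_cast h5
  rw [dist_eq_norm]
  have h7 : ‖toC (v1, v2) - toC (w1, w2)‖ ^ 2 = ((v1 : ℝ) - w1) ^ 2 + ((v2 : ℝ) - w2) ^ 2 := by
    rw [← Complex.normSq_eq_norm_sq, Complex.normSq_apply, Complex.sub_re, Complex.sub_im,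
      DictC.toC_re, DictC.toC_re, DictC.toC_im, DictC.toC_im]
    simp only
    ring
  refine le_of_sq_le_sq ?_ h6
  rw [h7]
  nlinarith

variable {V : Finset (ℤ × ℤ)} {G : Finset (ℤ × ℤ)} {a : ℤ × ℤ}

namespace Pre

variable (H : Pre V P G a y r)

include H

/-- **The needle is a needle of the scan.** -/
theorem isNdl {h : ℕ} {l : ℤ} (hG : ∀ f ∈ G, sd f y ≤ l) (hr : (r : ℤ) ≤ l)
    (hl : 2 * l + 1 ≤ 3 * h) : IsNdl h V (ndT (FU V) P G a y) := by
  have hall : ∀ f ∈ ndS (FU V) P G y, sd f y ≤ l := by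
    intro f hf
    rcases Finset.mem_union.1 hf with h1 | h1
    · exact hG f h1
    · exact (H.hkS_sub h1).2.2.trans hr
  obtain ⟨k, hk, hk2, hk3⟩ := H.ndF
  refine ⟨?_, ?_, ?_, ?_, ?_⟩
  · intro e he
    rw [tl_eq, hd_eq]
    exact hk.ends e he
  · rw [mem_qV]
    have h1 := H.last_mem
    refine ⟨eE (hkL (FU V) P a y), Finset.mem_image.2 ⟨_, h1, rfl⟩, ?_⟩
    rw [tl_eq, hd_eq]
    exact sq_phiV.1 H.base_spec.1
  · intro v hv
    obtain ⟨e, he, h1⟩ := mem_qV.1 hv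
    have h2 := hk.mem_clV ∅ he
    have h3 : rst ∅ V ∪ (ndT (FU V) P G a y).1 = (ndT (FU V) P G a y).1 := by
      unfold rst
      rw [Finset.filter_empty, Finset.empty_union]
    rw [h3, hk2] at h2
    rw [tl_eq, hd_eq] at h1
    rcases h1 with h1 | h1
    · rw [← h1]; exact h2.1
    · rw [← h1]; exact h2.2
  · refine ⟨vtx k, ?_, vtx (advb k), hk.wall, ?_⟩
    · rw [hk2, mem_qV]
      refine ⟨eE (hkL (FU V) P a y), Finset.mem_image.2 ⟨_, H.last_mem, rfl⟩, ?_⟩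
      rw [tl_eq, hd_eq]
      exact sq_phiV.1 H.base_spec.1
    · obtain ⟨x, y', _ | _, _ | _⟩ := k <;> simp [vtx, advb]
  · intro v hv
    obtain ⟨e, he, h1⟩ := mem_qV.1 hv
    obtain ⟨f, hf, rfl⟩ := Finset.mem_image.1 he
    rw [tl_eq, hd_eq] at h1
    have h2 : sd f (hkL (FU V) P a y) ≤ 2 * l := by
      have h3 := Ndle.sd_triangle f y (hkL (FU V) P a y)
      have h4 := hall f hf
      have h5 := hall _ H.last_mem
      rw [Ndle.sd_comm] at h5
      omega
    have h3 := dist_of_sq (sq_phiV.2 h1) H.base_spec.1 h2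
    refine h3.trans ?_
    exact_mod_cast hl

end Pre

/-! ### The needle of a set of cells -/

/-- The size of the needle for the resolution `e`: the number of cells. -/
def ndL (K e : ℕ) : ℕ := 2 ^ e / K

open Classical in
/-- A set of cells as a finite set (empty, if it is infinite). -/
noncomputable def fin (C : Set (ℤ × ℤ)) : Finset (ℤ × ℤ) := if h : C.Finite then h.toFinset else ∅

theorem mem_fin {C : Set (ℤ × ℤ)} (hC : C.Finite) {c : ℤ × ℤ} : c ∈ fin C ↔ c ∈ C := by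
  unfold fin
  rw [dif_pos hC, Set.Finite.mem_toFinset]

theorem fin_sub {C : Set (ℤ × ℤ)} {c : ℤ × ℤ} (hc : c ∈ fin C) : c ∈ C := by
  by_cases hC : C.Finite
  · exact (mem_fin hC).1 hc
  · unfold fin at hc
    rw [dif_neg hC] at hc
    exact absurd hc (Finset.notMem_empty c)

/-- There is room for a needle with `L` cells towards `z`. -/
def act (L : ℕ) (C : Set (ℤ × ℤ)) (z : ℤ × ℤ) : Prop := C.Finite ∧ 3 * L ≤ Ndle.dlt (fin C) z

/-- The cells of the needle. -/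
def ndC (L : ℕ) (C : Set (ℤ × ℤ)) (z : ℤ × ℤ) : Set (ℤ × ℤ) :=
  {c | ∃ i, 1 ≤ i ∧ i ≤ L ∧ Ndle.ndc (fin C) z i = c}

/-- The true needle: unit `u`, `L` cells, remaining vertices `V`, cells `C`, target `z`. -/
noncomputable def hookU (u : ℤ) (L : ℕ) (V : Finset (ℤ × ℤ)) (C : Set (ℤ × ℤ)) (z : ℤ × ℤ) :
    Rule.Ndl :=
  ndT (FU V) (blow u C) (ndF u (fin C) z L) (ndA u (fin C) z) (ndB u (fin C) z)

theorem ndB_notMem {u : ℤ} {L : ℕ} {C : Set (ℤ × ℤ)} {z : ℤ × ℤ} (hC : C.Finite) (hu : 0 < u)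
    (hL : L ≤ Ndle.dlt (fin C) z) (h1 : 1 ≤ L) : ndB u (fin C) z ∉ blow u C := by
  have h2 := (Ndle.ndF_start hu hL h1).1
  rw [mem_fin hC] at h2
  exact h2

theorem ndA_adj {u : ℤ} {L : ℕ} {C : Set (ℤ × ℤ)} {z : ℤ × ℤ} (hu : 0 < u)
    (hL : L ≤ Ndle.dlt (fin C) z) (h1 : 1 ≤ L) : AdjF (ndA u (fin C) z) (ndB u (fin C) z) :=
  (Ndle.ndF_start hu hL h1).2.2

theorem ndF_blow {u : ℤ} {L : ℕ} {C : Set (ℤ × ℤ)} {z : ℤ × ℤ} (hu : 0 < u)
    (hL : L ≤ Ndle.dlt (fin C) z) {f : ℤ × ℤ} (hf : f ∈ ndF u (fin C) z L) : f ∈ blow u C := by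
  have h1 := fin_sub (Ndle.ndF_sub hu hL hf)
  exact h1

/-- The hypotheses for the needle of a set of cells. -/
theorem pre_of {u : ℤ} {L : ℕ} {C : Set (ℤ × ℤ)} {z : ℤ × ℤ} (hu : 0 < u)
    (hL : L ≤ Ndle.dlt (fin C) z) (h1 : 1 ≤ L) (hF : blow u C ⊆ FU V)
    (hH : HkR (FU V) (blow u C) (ndB u (fin C) z) r) :
    Pre V (blow u C) (ndF u (fin C) z L) (ndA u (fin C) z) (ndB u (fin C) z) r where
  sub _ hf := ndF_blow hu hL hf
  fresh := hF
  mem := (Ndle.ndF_start hu hL h1).2.1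
  adj := ndA_adj hu hL h1
  con _ hf := Ndle.ndF_conn hu hL (Ndle.ndF_start hu hL h1).2.1 hf
  hook := hH

/-- The hypotheses for the needle from `App`. -/
theorem pre_of_app {ι : Type*} {U : Set (ℤ × ℤ)} {κ : ℤ × ℤ → ι} {d u : ℤ} {L : ℕ}
    {C : Set (ℤ × ℤ)} {z : ℤ × ℤ} (hC : C.Finite) (hu : 0 < u) (hL : L ≤ Ndle.dlt (fin C) z)
    (h1 : 1 ≤ L) (h : App U (blow u C) κ d) (hU : U ⊆ FU V)
    (hcl : ∀ a ∈ U, ∀ b, AdjF a b → b ∈ FU V → b ∈ U) :
    Pre V (blow u C) (ndF u (fin C) z L) (ndA u (fin C) z) (ndB u (fin C) z) (d - 1).toNat :=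
  pre_of hu hL h1 (h.sub.trans hU) (hkR_of_app h hcl
    (ndF_blow hu hL (Ndle.ndF_start hu hL h1).2.1) (ndA_adj hu hL h1) (ndB_notMem hC hu hL h1))

/-- **The true needle is a needle of the scan.** -/
theorem hookU_ok {u : ℤ} {L : ℕ} {C : Set (ℤ × ℤ)} {z : ℤ × ℤ} {h : ℕ} (hu : 0 < u)
    (hL : L ≤ Ndle.dlt (fin C) z)
    (H : Pre V (blow u C) (ndF u (fin C) z L) (ndA u (fin C) z) (ndB u (fin C) z) r)
    (hr : (r : ℤ) ≤ u * (L + 1)) (hh : 2 * (u * (L + 1)) + 1 ≤ 3 * h) :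
    IsNdl h V (hookU u L V C z) ∧ ∃ k, NdF V (hookU u L V C z).1 k ∧
      vtx k = (hookU u L V C z).2 ∧ phiE (qryb k) = hkE (FU V) (blow u C) (ndB u (fin C) z) := by
  refine ⟨H.isNdl (l := u * (L + 1)) (fun f hf => ?_) hr hh, H.ndF⟩
  have := Ndle.ndF_diam hu hL hf
  omega

/-- The faces of the true needle. -/
theorem qF_hookU {u : ℤ} {L : ℕ} {C : Set (ℤ × ℤ)} {z : ℤ × ℤ} : QF (hookU u L V C z).1 =
    (ndF u (fin C) z L : Set (ℤ × ℤ)) ∪
      (hkS (FU V) (blow u C) (ndB u (fin C) z) : Set (ℤ × ℤ)) := by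
  unfold hookU
  rw [qF_ndT]
  unfold ndS
  rw [Finset.coe_union]

/-! ### Progress -/

/-- If the last cell of the needle is lost, the distance to the complement is smaller. -/
theorem progress {L : ℕ} {C C' : Set (ℤ × ℤ)} {z : ℤ × ℤ} (hC : act L C z)
    (h' : Ndle.ndc (fin C) z L ∉ C') :
    2 * (Ndle.dlt (fin C') z : ℤ) ≤ 2 * Ndle.dlt (fin C) z - L + 1 :=
  Ndle.dlt_progress (by have := hC.2; omega) fun h => h' (fin_sub h)

theorem dlt_mono {C C' : Set (ℤ × ℤ)} {z : ℤ × ℤ} (hC : C.Finite) (h : C' ⊆ C) :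
    Ndle.dlt (fin C') z ≤ Ndle.dlt (fin C) z :=
  Ndle.dlt_mono fun _ hc => (mem_fin hC).2 (h (fin_sub hc))

end Pool.Agent.SixB.Hook
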