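import Pool.Agent.Lib.SixB.S8ChainR
import Pool.Agent.Lib.SixB.S8Hook
import Pool.Agent.Lib.SixB.S8StateA
import Pool.Agent.Lib.SixB.S8StartBox
import Pool.Agent.Lib.SixB.S8Cover

/-!
# Step 8: the data of the chain; coverage, definitions

* `ztG K M`: the targets of the needles, every point of the grid of mesh `n / K` comes `M` times;
* `datC K kap`: the data of the chain (`datC_prm`: the parameters of the coarse chain are `prmC`);
* `vst`: the vertices which are left after the step of the running needle (before the stage `i`);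
* `sgm`: the coarse state before the stage `i`;
* `CovI`: every face whose unit cell is not recorded is near a face with a removed end;
* `NearT`, `NearB`: the faces of the block (of a box around the target side) are near the true tip
  (near the base of the needle);
* `RgtC`, `SideX`: if all faces near `x` are left after the step then the cell of `x` is not deep in a
  component on the right of the strand; `SideZ`, `SideR`: stronger forms;
* `EroN`: the eroded cells are near faces with a removed end;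
* `StgZ`: what the coverage of the face `x` needs to know about the stage `i`; `StgOK`: a stronger form.
-/

set_option autoImplicit false

namespace Pool.Agent.SixB.Cov

open Pool.Agent.Perc Pool.Agent.Perc6 Pool.Agent.PercT Pool.Agent.PercX60
open Pool.Agent.SixB Pool.Agent.SixB.Rule Pool.Agent.SixB.Dct Pool.Agent.SixB.Mv
open Pool.Agent.SixB.Tru
open Pool.Agent.SixB.Top (compT BD)
open Pool.Agent.SixB.Ndle (sd)
open Pool.Agent.Perc.Tips (ahead)

/-! ### The data of the chain -/

/-- The target with the number `(a, b)` in unit cells: the vertex `(a n / K, b n / K)` has the face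
coordinates `((a + b) n / K, (a - b) n / K)`. -/
def gpt (K e : ℕ) (a b : ℕ) : ℤ × ℤ := (((a : ℤ) + b) * 2 ^ e / K, ((a : ℤ) - b) * 2 ^ e / K)

/-- The targets of the needles: every grid point comes `M` times. -/
def ztG (K M e j : ℕ) : ℤ × ℤ := gpt K e (j / M / (K + 2)) (j / M % (K + 2))

/-- The number of the needles. -/
def numN (K : ℕ) : ℕ := (K + 2) ^ 2 * (8 * K)

/-- **The data of the chain.** -/
noncomputable def datC (K kap : ℕ) : Dat where
  K := K
  kap := kap
  m := numN K
  zt := ztG K (8 * K)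
  act := fun e W z => 3 * Hook.ndL K e ≤ Ndle.dlt (toF W) z
  ndl := fun e W z => {f | ∃ i, 1 ≤ i ∧ i ≤ Hook.ndL K e ∧ f = Ndle.ndc (toF W) z i}
  W₀ := Box0.W0
  hook := fun n d V C z => Hook.hookU (unt d n) (Hook.ndL K (d 0)) V C z

theorem datC_prm (K kap : ℕ) (d : ℕ → ℕ) : (datC K kap).prm d =
    prmC kap (numN K) (ztG K (8 * K) (d 0)) (Hook.ndL K (d 0)) := rfl

theorem fin_eq_toF (C : Set (ℤ × ℤ)) : Hook.fin C = toF C := rfl

/-! ### Coverage -/

variable (𝔇 : Dat) (d : ℕ → ℕ) (n : ℕ)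

/-- The vertices which are left after the step of the running needle, before the stage `i`. -/
noncomputable def vst (ω : Cfg) (i : ℕ) : Finset (ℤ × ℤ) :=
  vEnd (cfgE n ω) (TruR.ts 𝔇 d n ω i).V (TruR.ts 𝔇 d n ω i).q

/-- The coarse state before the stage `i`. -/
noncomputable def sgm (ω : Cfg) (i : ℕ) : CSt := 𝔇.cs d (TruR.ts 𝔇 d n ω i).x

/-- **Coverage before the stage `i`**: every face whose unit cell is not recorded is near a face with a
removed end. -/
def CovI (ω : Cfg) (i : ℕ) (ρ : ℤ) : Prop :=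
  ∀ f : ℤ × ℤ, Blow.cl (unt d n) f ∉ (sgm 𝔇 d n ω i).Rc →
    ∃ g : ℤ × ℤ, g ∉ FU (vst 𝔇 d n ω i) ∧ sd g f ≤ ρ

/-- The box around the tip which contains the block. -/
def boxT (D : Dom) (g : Grd) : Set (ℤ × ℤ) := sqr (g.M * g.L + 16 * g.L) D.tip

/-- The box around the target side. -/
def boxB (D : Dom) (g : Grd) : Set (ℤ × ℤ) := sqr (16 * g.L) (ahead D.B)

/-- The faces of the box around the block of the move are near the true tip. -/
def NearT (s : TS) (q : Rule.Ndl) (D : Dom) (ω : Cfg) (r : ℤ) : Prop :=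
  ∀ f : ℤ × ℤ, Blow.cl (unt d n) f ∈ boxT D (𝔇.gr d s.x D) → sd (fa (pS s.V q ω s.t)) f ≤ r

/-- The faces of the box around the target side are near the base of the needle. -/
def NearB (s : TS) (q : Rule.Ndl) (D : Dom) (ω : Cfg) (r : ℤ) : Prop :=
  ∀ f : ℤ × ℤ, Blow.cl (unt d n) f ∈ boxB D (𝔇.gr d s.x D) → sd (fa (pS s.V q ω 0)) f ≤ r

/-- The cell `c` is in a component on the right of the strand: a component of the rest of `P` without
the target, which is not stored and has a side of `P` far from the block and from the target side. -/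
def RgtC (D : Dom) (g : Grd) (ρ : Rec) (c : ℤ × ℤ) : Prop :=
  c ∈ D.P \ D.rem g ρ ∧ ahead D.B ∉ compT (D.P \ D.rem g ρ) c ∧ c ∉ D.lef g ρ ∧
    ∃ x, BD D.P x ∧ ahead x ∈ compT (D.P \ D.rem g ρ) c ∧ ahead x ∉ boxT D g ∧ ahead x ∉ boxB D g

/-- **Side.** The deep faces of the components on the right of the strand are removed by the step.
`ρ`: the record of the stage, `R`: the depth, `R'`: the distance from the base of the needle. -/
def SideR (s : TS) (q : Rule.Ndl) (D : Dom) (ρ : Rec) (ω : Cfg) (R R' : ℤ) : Prop :=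
  ∀ f : ℤ × ℤ, RgtC D (𝔇.gr d s.x D) ρ (Blow.cl (unt d n) f) →
    (∀ h : ℤ × ℤ, sd h f ≤ R →
      Blow.cl (unt d n) h ∈ compT (D.P \ D.rem (𝔇.gr d s.x D) ρ) (Blow.cl (unt d n) f)) →
    R' < sd (fa (pS s.V q ω 0)) f → f ∉ FU (stpQ (cfgE n ω) s.V q)

/-- **Side, for one point** (the input of the coverage). If the box of radius `B` around the cell `z` is
in a component on the right of the strand then the faces of the cell `z` are removed by the step. -/
def SideZ (s : TS) (q : Rule.Ndl) (D : Dom) (ρ : Rec) (ω : Cfg) (B : ℤ) (z : ℤ × ℤ) : Prop :=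
  RgtC D (𝔇.gr d s.x D) ρ z →
    (∀ c, sd c z < B → c ∈ compT (D.P \ D.rem (𝔇.gr d s.x D) ρ) z) →
    ∃ f : ℤ × ℤ, Blow.cl (unt d n) f = z ∧ f ∉ FU (stpQ (cfgE n ω) s.V q)

/-- **The input of the coverage.** If all faces near the face `x` are left after the step (so they are
never visited, and the tip and the base are far) then the box of radius `B` around the cell of `x` is not
in a component on the right of the strand. -/
def SideX (s : TS) (q : Rule.Ndl) (D : Dom) (ρ : Rec) (ω : Cfg) (B A : ℤ) (x : ℤ × ℤ) : Prop :=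
  RgtC D (𝔇.gr d s.x D) ρ (Blow.cl (unt d n) x) →
    (∀ c, sd c (Blow.cl (unt d n) x) < B →
      c ∈ compT (D.P \ D.rem (𝔇.gr d s.x D) ρ) (Blow.cl (unt d n) x)) →
    ¬ ∀ f : ℤ × ℤ, sd f x ≤ A → f ∈ FU (stpQ (cfgE n ω) s.V q)

/-- The eroded cells are near faces with a removed end. -/
def EroN (ω : Cfg) (i : ℕ) (r : ℤ) : Prop :=
  (sgm 𝔇 d n ω i).run = none → (sgm 𝔇 d n ω i).Nw (𝔇.prm d) (msh d i) → ∀ f : ℤ × ℤ,
    Blow.cl (unt d n) f ∈ (sgm 𝔇 d n ω i).W →
    Blow.cl (unt d n) f ∉ CSt.erW (sgm 𝔇 d n ω i).W (msh d i)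
      ((𝔇.prm d).zt (sgm 𝔇 d n ω i).j) → ∃ g, g ∉ FU (vst 𝔇 d n ω i) ∧ sd g f ≤ r

/-- The true needle is there when the coarse state says so, the coarse domain is valid. -/
structure StgB (ω : Cfg) (i : ℕ) : Prop where
  /-- a needle is running if the coarse state is running -/
  run : ∀ D, (sgm 𝔇 d n ω i).run = some D → ∃ q, (TruR.ts 𝔇 d n ω i).q = some q
  /-- the next needle is placed if the coarse state says so -/
  new : (sgm 𝔇 d n ω i).run = none → (sgm 𝔇 d n ω (i + 1)).run.isSome →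
    ∃ q, (TruR.ts 𝔇 d n ω (i + 1)).q = some q
  /-- the coarse domain is valid, the record is possible, no holes -/
  val : ∀ D, (sgm 𝔇 d n ω i).run = some D → (sgm 𝔇 d n ω i).ini = false →
    D.Val (𝔇.gr d (TruR.ts 𝔇 d n ω i).x D) ∧
      D.RecOk (𝔇.gr d (TruR.ts 𝔇 d n ω i).x D) (recS 𝔇 d n i ω) ∧
      Esc (D.P \ D.rem (𝔇.gr d (TruR.ts 𝔇 d n ω i).x D) (recS 𝔇 d n i ω))

/-- **What the coverage of the face `x` needs to know about the stage `i`.** `r`: the distances, `B`:
the radius of the box (in cells), `A`: the radius of the box which is left (in faces). -/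
structure StgZ (ω : Cfg) (i : ℕ) (r B A : ℤ) (x : ℤ × ℤ) : Prop extends StgB 𝔇 d n ω i where
  /-- the invariant of the coarse state -/
  inv : (sgm 𝔇 d n ω i).Inv
  near : ∀ q D, (TruR.ts 𝔇 d n ω i).q = some q → (sgm 𝔇 d n ω i).run = some D →
    (sgm 𝔇 d n ω i).ini = false → NearT 𝔇 d n (TruR.ts 𝔇 d n ω i) q D ω r
  base : ∀ q D, (TruR.ts 𝔇 d n ω i).q = some q → (sgm 𝔇 d n ω i).run = some D →
    (sgm 𝔇 d n ω i).ini = false → NearB 𝔇 d n (TruR.ts 𝔇 d n ω i) q D ω r
  ero : EroN 𝔇 d n ω i r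
  side : ∀ q D, (TruR.ts 𝔇 d n ω i).q = some q → (sgm 𝔇 d n ω i).run = some D →
    (sgm 𝔇 d n ω i).ini = false →
      SideX 𝔇 d n (TruR.ts 𝔇 d n ω i) q D (recS 𝔇 d n i ω) ω B A x

/-- A stronger form, for all faces at once. `r`: a macroscopic distance, `R`: a small one. -/
structure StgOK (ω : Cfg) (i : ℕ) (r R : ℤ) : Prop extends StgB 𝔇 d n ω i where
  /-- the invariant of the coarse state -/
  inv : (sgm 𝔇 d n ω i).Inv
  near : ∀ q D, (TruR.ts 𝔇 d n ω i).q = some q → (sgm 𝔇 d n ω i).run = some D →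
    (sgm 𝔇 d n ω i).ini = false → NearT 𝔇 d n (TruR.ts 𝔇 d n ω i) q D ω r
  base : ∀ q D, (TruR.ts 𝔇 d n ω i).q = some q → (sgm 𝔇 d n ω i).run = some D →
    (sgm 𝔇 d n ω i).ini = false → NearB 𝔇 d n (TruR.ts 𝔇 d n ω i) q D ω r
  side : ∀ q D, (TruR.ts 𝔇 d n ω i).q = some q → (sgm 𝔇 d n ω i).run = some D →
    (sgm 𝔇 d n ω i).ini = false →
      SideR 𝔇 d n (TruR.ts 𝔇 d n ω i) q D (recS 𝔇 d n i ω) ω R r

end Pool.Agent.SixB.Cov
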