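import Pool.Agent.Lib.SixB.S8StartD
import Pool.Agent.Lib.SixB.S8NeedleF
import Pool.Agent.Lib.SixB.S8Cover
import Pool.Agent.Lib.SixB.S8Hook
import Pool.Agent.Lib.SixB.S8StateA
import Pool.Agent.Lib.SixB.S8GridSt

/-!
# Step 8, unit 8H: the first domain of a needle is a disc with two sides

`C` is a finite disc, `z` an active target of `C`, `N` the cells of the clearance needle. Then `N ⊆ C`,
`C \ N` has no holes, `z ∉ N`, and the component of `z` in `C \ N` with the tip side `tipS` and the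
target side `tgtS` has the property `Dom.Ok` (`plant_ok`). So the guard of the state at the planting
stage passes for every active target.
-/

set_option autoImplicit false

namespace Pool.Agent.SixB.Mv

open Pool.Agent.Perc Pool.Agent.Perc6 Pool.Agent.Perc6.C2Aux Pool.Agent.Perc.Tips
open Pool.Agent.SixB.Top Pool.Agent.SixB.Ndle

/-! ### The path of the needle stays on one side of the target -/

/-- One step: the first coordinate stays the larger one. -/
theorem stT_one {z q : ℤ × ℤ} (h : q ≠ z) (hq : |q.2 - z.2| ≤ |q.1 - z.1| + 1) :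
    |(stT z q).2 - z.2| ≤ |(stT z q).1 - z.1| + 1 := by
  rcases stT_cases h with ⟨h1, h2, -, h4⟩ | ⟨h1, h2, -, h4⟩
  · rw [h2, h4]; omega
  · rw [h2, h4]; omega

/-- One step: the second coordinate stays the larger one. -/
theorem stT_two {z q : ℤ × ℤ} (h : q ≠ z) (hq : |q.1 - z.1| ≤ |q.2 - z.2| + 1) :
    |(stT z q).1 - z.1| ≤ |(stT z q).2 - z.2| + 1 := by
  rcases stT_cases h with ⟨h1, h2, -, h4⟩ | ⟨h1, h2, -, h4⟩
  · rw [h2, h4]; omega
  · rw [h2, h4]; omega

/-- One step stays in the quadrant. -/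
theorem stT_sgn {z q : ℤ × ℤ} (h : q ≠ z) :
    (z.1 ≤ q.1 → z.1 ≤ (stT z q).1) ∧ (q.1 ≤ z.1 → (stT z q).1 ≤ z.1) ∧
      (z.2 ≤ q.2 → z.2 ≤ (stT z q).2) ∧ (q.2 ≤ z.2 → (stT z q).2 ≤ z.2) := by
  rcases stT_cases h with ⟨h1, h2, h3, h4⟩ | ⟨h1, h2, h3, h4⟩
  · rw [h2]
    refine ⟨?_, ?_, fun h => h, fun h => h⟩
    · intro h5
      by_contra h6
      rw [not_le] at h6
      rw [abs_of_neg (by omega : (stT z q).1 - z.1 < 0), abs_of_nonneg (by omega : 0 ≤ q.1 - z.1)] at h4
      rw [abs_of_neg (by omega : (stT z q).1 - q.1 < 0)] at h3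
      omega
    · intro h5
      by_contra h6
      rw [not_le] at h6
      rw [abs_of_pos (by omega : 0 < (stT z q).1 - z.1), abs_of_nonpos (by omega : q.1 - z.1 ≤ 0)] at h4
      rw [abs_of_pos (by omega : 0 < (stT z q).1 - q.1)] at h3
      omega
  · rw [h2]
    refine ⟨fun h => h, fun h => h, ?_, ?_⟩
    · intro h5
      by_contra h6
      rw [not_le] at h6
      rw [abs_of_neg (by omega : (stT z q).2 - z.2 < 0), abs_of_nonneg (by omega : 0 ≤ q.2 - z.2)] at h4
      rw [abs_of_neg (by omega : (stT z q).2 - q.2 < 0)] at h3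
      omega
    · intro h5
      by_contra h6
      rw [not_le] at h6
      rw [abs_of_pos (by omega : 0 < (stT z q).2 - z.2), abs_of_nonpos (by omega : q.2 - z.2 ≤ 0)] at h4
      rw [abs_of_pos (by omega : 0 < (stT z q).2 - q.2)] at h3
      omega

/-- A property of faces which is preserved by a step holds along the path. -/
theorem npt_ind {z y : ℤ × ℤ} {p : ℤ × ℤ → Prop} (h0 : p y) (hs : ∀ q, q ≠ z → p q → p (stT z q))
    {i : ℕ} (hi : (i : ℤ) ≤ sd y z) : p (npt z y i) := by
  induction i with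
  | zero => exact h0
  | succ i ih =>
    rw [npt_succ]
    exact hs _ (npt_ne (by push_cast at hi; omega)) (ih (by push_cast at hi; omega))

/-- **Four cases**: the path stays strictly on one side of `z`, as long as it is far from `z`. -/
theorem npt_side (z y : ℤ × ℤ) {L : ℕ} (hL : (L : ℤ) + 2 ≤ sd y z) :
    (∀ i ≤ L, z.1 < (npt z y i).1) ∨ (∀ i ≤ L, (npt z y i).1 < z.1) ∨
      (∀ i ≤ L, z.2 < (npt z y i).2) ∨ (∀ i ≤ L, (npt z y i).2 < z.2) := by
  have far : ∀ i ≤ L, 2 ≤ sd (npt z y i) z := by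
    intro i hi
    have h1 : (i : ℤ) ≤ L := by exact_mod_cast hi
    have h2 := npt_ge z y (i := i) (by omega)
    omega
  have le : ∀ i ≤ L, (i : ℤ) ≤ sd y z := by
    intro i hi
    have h1 : (i : ℤ) ≤ L := by exact_mod_cast hi
    omega
  rcases le_total |y.2 - z.2| |y.1 - z.1| with h | h
  · have key : ∀ i ≤ L, 1 ≤ |(npt z y i).1 - z.1| := by
      intro i hi
      have h1 := npt_ind (z := z) (y := y) (p := fun q => |q.2 - z.2| ≤ |q.1 - z.1| + 1)
        (by show _ ≤ _; omega) (fun q hq h => stT_one hq h) (le i hi)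
      have h2 := far i hi
      unfold sd at h2
      rcases le_max_iff.1 h2 with h3 | h3 <;> omega
    rcases le_total z.1 y.1 with h1 | h1
    · left
      intro i hi
      have h2 := npt_ind (z := z) (y := y) (p := fun q => z.1 ≤ q.1) h1
        (fun q hq h => (stT_sgn hq).1 h) (le i hi)
      have h3 := key i hi
      rw [abs_of_nonneg (by omega)] at h3
      omega
    · right; left
      intro i hi
      have h2 := npt_ind (z := z) (y := y) (p := fun q => q.1 ≤ z.1) h1
        (fun q hq h => (stT_sgn hq).2.1 h) (le i hi)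
      have h3 := key i hi
      rw [abs_of_nonpos (by omega)] at h3
      omega
  · have key : ∀ i ≤ L, 1 ≤ |(npt z y i).2 - z.2| := by
      intro i hi
      have h1 := npt_ind (z := z) (y := y) (p := fun q => |q.1 - z.1| ≤ |q.2 - z.2| + 1)
        (by show _ ≤ _; omega) (fun q hq h => stT_two hq h) (le i hi)
      have h2 := far i hi
      unfold sd at h2
      rcases le_max_iff.1 h2 with h3 | h3 <;> omega
    rcases le_total z.2 y.2 with h1 | h1
    · right; right; left
      intro i hi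
      have h2 := npt_ind (z := z) (y := y) (p := fun q => z.2 ≤ q.2) h1
        (fun q hq h => (stT_sgn hq).2.2.1 h) (le i hi)
      have h3 := key i hi
      rw [abs_of_nonneg (by omega)] at h3
      omega
    · right; right; right
      intro i hi
      have h2 := npt_ind (z := z) (y := y) (p := fun q => q.2 ≤ z.2) h1
        (fun q hq h => (stT_sgn hq).2.2.2 h) (le i hi)
      have h3 := key i hi
      rw [abs_of_nonpos (by omega)] at h3
      omega

/-! ### A ray leaves the set at a common side -/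

/-- A ray which avoids the needle leaves `C` at a side of `C` which is a side of the component. -/
theorem ray_exit {C N : Set (ℤ × ℤ)} (hC : C.Finite) {z : ℤ × ℤ} (hzC : z ∈ C \ N) {r : ℕ → ℤ × ℤ}
    (hr : Function.Injective r) (ha : ∀ k, AdjF (r k) (r (k + 1))) (hN : ∀ k, r k ∉ N)
    (hz : r 0 ∈ compT (C \ N) z) (h0 : r 0 ∈ C) :
    ∃ X : UE × Bool, ∃ k, ahead X = r k ∧ BD C X ∧ BD (compT (C \ N) z) X := by
  classical
  have hex : ∃ k, r k ∉ C := by
    by_contra hcon
    push Not at hcon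
    exact (Set.infinite_range_of_injective hr) (hC.subset (by rintro _ ⟨k, rfl⟩; exact hcon k))
  have h1 := Nat.find_spec hex
  have hmin : ∀ j, j < Nat.find hex → r j ∈ C := fun j hj => by
    by_contra h
    exact Nat.find_min hex hj h
  set k := Nat.find hex with hk
  rcases Nat.eq_zero_or_pos k with h2 | h2
  · rw [h2] at h1
    exact absurd h0 h1
  obtain ⟨j, hj⟩ : ∃ j, k = j + 1 := ⟨k - 1, by omega⟩
  have hin : ∀ i, i ≤ j → r i ∈ compT (C \ N) z := by
    intro i hi
    induction i with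
    | zero => exact hz
    | succ i ih => exact compT_step (ih (by omega)) (ha i) ⟨hmin _ (by omega), hN _⟩
  obtain ⟨X, hX1, hX2⟩ := StartA.exists_dir (ha j)
  have hout : r (j + 1) ∉ C := hj ▸ h1
  refine ⟨X, j, hX1, ⟨?_, ?_⟩, ?_, ?_⟩
  · rw [hX1]; exact hmin j (by omega)
  · rw [hX2]; exact hout
  · rw [hX1]; exact hin j le_rfl
  · rw [hX2]
    exact fun h => hout (compT_sub hzC h).1

/-! ### The first domain -/

/-- **The first domain of a needle.** `F` is the disc `C` as a finite set, `N` the cells of the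
needle. -/
theorem plant_ok {C N : Set (ℤ × ℤ)} {F : Finset (ℤ × ℤ)} {z : ℤ × ℤ} {L : ℕ}
    (hF : ∀ f, f ∈ F ↔ f ∈ C) (hc : Top.EConn C) (he : Esc C) (hL : 1 ≤ L) (ha : 3 * L ≤ dlt F z)
    (hN : ∀ f, f ∈ N ↔ ∃ i, 1 ≤ i ∧ i ≤ L ∧ ndc F z i = f) :
    N ⊆ C ∧ Esc (C \ N) ∧ z ∈ C \ N ∧
      (⟨compT (C \ N) z, StartA.tipS C (compT (C \ N) z), StartA.tgtS C (compT (C \ N) z)⟩ :
        Dom).Ok := by
  have hCf : C.Finite := F.finite_toSet.subset fun f hf => (hF f).2 hf
  have hz1 : ∀ w, sd w z < dlt F z → w ∈ C := fun w hw => (hF w).1 (mem_of_lt hw)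
  have hNC : N ⊆ C := by
    intro f hf
    obtain ⟨i, h1, h2, rfl⟩ := (hN f).1 hf
    exact (hF _).1 (ndc_mem h1 (by omega))
  have hbs : sd (bse F z) z = dlt F z := sd_bse
  -- the target is not on the needle
  have hfar : ∀ f ∈ N, 2 ≤ sd f z := by
    intro f hf
    obtain ⟨i, h1, h2, rfl⟩ := (hN f).1 hf
    have h3 := npt_ge z (bse F z) (i := i) (by rw [hbs]; exact_mod_cast (by omega : i ≤ dlt F z))
    rw [hbs] at h3
    have h4 : (i : ℤ) ≤ L := by exact_mod_cast h2
    have h5 : (3 * L : ℤ) ≤ dlt F z := by exact_mod_cast ha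
    have h6 : (1 : ℤ) ≤ L := by exact_mod_cast hL
    change (2 : ℤ) ≤ sd (npt z (bse F z) i) z
    omega
  have hzN : ∀ f, sd f z ≤ 1 → f ∉ N := fun f h1 h2 => by
    have := hfar f h2
    omega
  have hd3 : (3 : ℤ) ≤ dlt F z := by exact_mod_cast (by omega : 3 ≤ dlt F z)
  have hzC : z ∈ C \ N :=
    ⟨hz1 z (by rw [sd_self]; omega), hzN z (by rw [sd_self]; omega)⟩
  have hVQ : StartA.VQ C N id = N := by
    ext f
    constructor
    · rintro ⟨-, q, h1, h2⟩
      have : q = f := h2
      exact this ▸ h1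
    · exact fun h => ⟨hNC h, f, h, rfl⟩
  have hγP : ∀ x y : ℤ × ℤ, id x = id y → x ∈ C → y ∈ C := fun x y h hx =>
    (show x = y from h) ▸ hx
  have hγ : ∀ x y : ℤ × ℤ, id x = id y → Chn {w | id w = id x} x y := by
    intro x y h
    have h' : x = y := h
    subst h'
    exact ⟨rfl, Relation.ReflTransGen.refl⟩
  have hq₀ : ndc F z 1 ∈ N := (hN _).2 ⟨1, le_rfl, hL, rfl⟩
  have hg₀ : bse F z ∉ C := fun h => (bse_spec F z).1 ((hF _).2 h)
  have hqg : AdjF (ndc F z 1) (bse F z) :=
    (adjF_of_ld (ndc_adj (C := F) (z := z) (i := 0) (by omega))).symm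
  have hQ : ∀ q ∈ N, q ∈ C → JoinIn (N ∩ C) q (ndc F z 1) := by
    intro q hq _
    obtain ⟨i, h1, h2, rfl⟩ := (hN q).1 hq
    have hmem : ∀ j, 1 ≤ j → j ≤ i → ndc F z j ∈ N ∩ C := fun j h3 h4 =>
      ⟨(hN _).2 ⟨j, h3, by omega, rfl⟩, hNC ((hN _).2 ⟨j, h3, by omega, rfl⟩)⟩
    have key : ∀ j, 1 ≤ j → j ≤ i → JoinIn (N ∩ C) (ndc F z j) (ndc F z 1) := by
      intro j h3
      induction j, h3 using Nat.le_induction with
      | base => exact fun _ => Relation.ReflTransGen.refl
      | succ j h3 ih =>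
        intro h4
        exact (Relation.ReflTransGen.single
          ⟨(adjF_of_ld (ndc_adj (C := F) (z := z) (i := j) (by omega))).symm,
            hmem j h3 (by omega)⟩).trans (ih (by omega))
    exact key i h1 le_rfl
  have hE : Esc (C \ N) := by
    have := StartA.esc_start (γ := id) he hγP hγ hQ hg₀ hqg
    rwa [hVQ] at this
  refine ⟨hNC, hE, hzC, ?_⟩
  -- two common sides
  have hnear : ∀ w, sd w z ≤ 1 → w ∈ C \ N := fun w hw => ⟨hz1 w (by omega), hzN w hw⟩
  have hone : ∀ w, sd w z ≤ 1 → AdjF z w → w ∈ compT (C \ N) z := fun w hw h =>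
    compT_step self_mem_compT h (hnear w hw)
  have two : ∃ X X' : UE × Bool, X ≠ X' ∧ BD C X ∧ BD (compT (C \ N) z) X ∧ BD C X' ∧
      BD (compT (C \ N) z) X' := by
    have gen : ∀ r r' : ℕ → ℤ × ℤ, Function.Injective r → Function.Injective r' →
        (∀ k, AdjF (r k) (r (k + 1))) → (∀ k, AdjF (r' k) (r' (k + 1))) → (∀ k, r k ∉ N) →
        (∀ k, r' k ∉ N) → r 0 = z → sd (r' 0) z ≤ 1 → AdjF z (r' 0) → (∀ k k', r k ≠ r' k') →
        ∃ X X' : UE × Bool, X ≠ X' ∧ BD C X ∧ BD (compT (C \ N) z) X ∧ BD C X' ∧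
          BD (compT (C \ N) z) X' := by
      intro r r' h1 h2 h3 h4 h5 h6 h7 h8 h9 h10
      obtain ⟨X, k, hX1, hX2, hX3⟩ := ray_exit hCf hzC h1 h3 h5 (by rw [h7]; exact self_mem_compT)
        (by rw [h7]; exact hzC.1)
      obtain ⟨X', k', hX1', hX2', hX3'⟩ := ray_exit hCf hzC h2 h4 h6 (hone _ h8 h9) (hnear _ h8).1
      refine ⟨X, X', fun h => h10 k k' ?_, hX2, hX3, hX2', hX3'⟩
      rw [← hX1, ← hX1', h]
    have hside := npt_side z (bse F z) (L := L) (by
      rw [hbs]
      have h5 : (3 * L : ℤ) ≤ dlt F z := by exact_mod_cast ha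
      have h6 : (1 : ℤ) ≤ L := by exact_mod_cast hL
      omega)
    have inN : ∀ f ∈ N, ∃ i ≤ L, npt z (bse F z) i = f := by
      intro f hf
      obtain ⟨i, -, h1, h2⟩ := (hN f).1 hf
      exact ⟨i, h1, h2⟩
    rcases hside with h | h | h | h
    · refine gen (fun k => (z.1 - k, z.2)) (fun k => (z.1 - k, z.2 + 1)) ?_ ?_ ?_ ?_ ?_ ?_ ?_ ?_ ?_ ?_
      · intro a b hab; simpa using hab
      · intro a b hab; simpa using hab
      · intro k; refine adj_iff_adjFL.1 (Or.inr ⟨rfl, Or.inl ?_⟩); push_cast; ring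
      · intro k; refine adj_iff_adjFL.1 (Or.inr ⟨rfl, Or.inl ?_⟩); push_cast; ring
      · intro k hk
        obtain ⟨i, h1, h2⟩ := inN _ hk
        have := h i h1
        rw [h2] at this
        simp only at this
        omega
      · intro k hk
        obtain ⟨i, h1, h2⟩ := inN _ hk
        have := h i h1
        rw [h2] at this
        simp only at this
        omega
      · simp
      · simp [sd]
      · exact adj_iff_adjFL.1 (Or.inl ⟨by simp, Or.inr (by simp)⟩)
      · intro k k' hkk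
        have := congrArg Prod.snd hkk
        simp at this
    · refine gen (fun k => (z.1 + k, z.2)) (fun k => (z.1 + k, z.2 + 1)) ?_ ?_ ?_ ?_ ?_ ?_ ?_ ?_ ?_ ?_
      · intro a b hab; simpa using hab
      · intro a b hab; simpa using hab
      · intro k; refine adj_iff_adjFL.1 (Or.inr ⟨rfl, Or.inr ?_⟩); push_cast; ring
      · intro k; refine adj_iff_adjFL.1 (Or.inr ⟨rfl, Or.inr ?_⟩); push_cast; ring
      · intro k hk
        obtain ⟨i, h1, h2⟩ := inN _ hk
        have := h i h1
        rw [h2] at this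
        simp only at this
        omega
      · intro k hk
        obtain ⟨i, h1, h2⟩ := inN _ hk
        have := h i h1
        rw [h2] at this
        simp only at this
        omega
      · simp
      · simp [sd]
      · exact adj_iff_adjFL.1 (Or.inl ⟨by simp, Or.inr (by simp)⟩)
      · intro k k' hkk
        have := congrArg Prod.snd hkk
        simp at this
    · refine gen (fun k => (z.1, z.2 - k)) (fun k => (z.1 + 1, z.2 - k)) ?_ ?_ ?_ ?_ ?_ ?_ ?_ ?_ ?_ ?_
      · intro a b hab; simpa using hab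
      · intro a b hab; simpa using hab
      · intro k; refine adj_iff_adjFL.1 (Or.inl ⟨rfl, Or.inl ?_⟩); push_cast; ring
      · intro k; refine adj_iff_adjFL.1 (Or.inl ⟨rfl, Or.inl ?_⟩); push_cast; ring
      · intro k hk
        obtain ⟨i, h1, h2⟩ := inN _ hk
        have := h i h1
        rw [h2] at this
        simp only at this
        omega
      · intro k hk
        obtain ⟨i, h1, h2⟩ := inN _ hk
        have := h i h1
        rw [h2] at this
        simp only at this
        omega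
      · simp
      · simp [sd]
      · exact adj_iff_adjFL.1 (Or.inr ⟨by simp, Or.inr (by simp)⟩)
      · intro k k' hkk
        have := congrArg Prod.fst hkk
        simp at this
    · refine gen (fun k => (z.1, z.2 + k)) (fun k => (z.1 + 1, z.2 + k)) ?_ ?_ ?_ ?_ ?_ ?_ ?_ ?_ ?_ ?_
      · intro a b hab; simpa using hab
      · intro a b hab; simpa using hab
      · intro k; refine adj_iff_adjFL.1 (Or.inl ⟨rfl, Or.inr ?_⟩); push_cast; ring
      · intro k; refine adj_iff_adjFL.1 (Or.inl ⟨rfl, Or.inr ?_⟩); push_cast; ring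
      · intro k hk
        obtain ⟨i, h1, h2⟩ := inN _ hk
        have := h i h1
        rw [h2] at this
        simp only at this
        omega
      · intro k hk
        obtain ⟨i, h1, h2⟩ := inN _ hk
        have := h i h1
        rw [h2] at this
        simp only at this
        omega
      · simp
      · simp [sd]
      · exact adj_iff_adjFL.1 (Or.inr ⟨by simp, Or.inr (by simp)⟩)
      · intro k k' hkk
        have := congrArg Prod.fst hkk
        simp at this
  obtain ⟨X, X', hne, hX1, hX2, hX3, hX4⟩ := two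
  obtain ⟨m, hm⟩ := StartA.start_dom (γ := id) hCf hc he hγP hγ hQ hq₀ (hNC hq₀) hg₀ hqg
    (f₀ := z) (by rw [hVQ]; exact hzC) ⟨X, hX1, by rw [hVQ]; exact hX2⟩
  rw [hVQ] at hm
  refine ⟨hCf.subset fun f hf => (compT_sub hzC hf).1, econn_compT hzC,
    esc_compT (hCf.subset Set.sdiff_subset) hE hzC, hm.cyc.bd, hm.bdRB, fun hAB => hne ?_⟩
  -- if the tip side is the target side then all common sides are equal
  have hm' : StartA.tgtN C (compT (C \ N) z) = m := by
    by_contra h
    have h1 := hm.one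
    have h2 := hm.le
    have h3 := hm.cyc.inj 0 hm.cyc.pos _ (lt_of_le_of_ne h2 h) hAB
    omega
  have hall : ∀ Y, BD C Y → BD (compT (C \ N) z) Y → Y = StartA.tipS C (compT (C \ N) z) := by
    intro Y h1 h2
    obtain ⟨c, hc1, hc2⟩ := hm.cyc.exists_index h2
    rcases Nat.eq_zero_or_pos c with h3 | h3
    · rw [← hc2, h3]; rfl
    · exfalso
      have h4 := hm.mid c h3 (by rw [hm']; exact hc1)
      unfold outF at h4
      rw [hc2] at h4
      exact h1.2 (hNC h4)
  rw [hall X hX1 hX2, hall X' hX3 hX4]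

/-! ### The parameters -/

/-- The parameters with clearance needles of `K` cells. -/
structure Clr (π : Prm) (K : ℕ) : Prop where
  one : 1 ≤ K
  act : ∀ C z, π.act C z ↔ 3 * K ≤ dlt (toF C) z
  ndl : ∀ C z f, f ∈ π.ndl C z ↔ ∃ i, 1 ≤ i ∧ i ≤ K ∧ ndc (toF C) z i = f

theorem clr_prmC {kp m : ℕ} {zt : ℕ → ℤ × ℤ} {K : ℕ} (hK : 1 ≤ K) : Clr (prmC kp m zt K) K where
  one := hK
  act := fun _ _ => Iff.rfl
  ndl := fun _ _ f => by
    constructor
    · rintro ⟨i, h1, h2, h3⟩; exact ⟨i, h1, h2, h3.symm⟩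
    · rintro ⟨i, h1, h2, h3⟩; exact ⟨i, h1, h2, h3.symm⟩

theorem toF_eq (C : Set (ℤ × ℤ)) : toF C = Hook.fin C := rfl

/-- The distance to the complement is zero for the empty set. -/
theorem dlt_empty (z : ℤ × ℤ) : dlt ∅ z = 0 := by
  have h := dlt_le (C := ∅) (z := z) (w := z) (Finset.notMem_empty z)
  rw [sd_self] at h
  omega

theorem clr_hook {π : Prm} {K : ℕ} (hK : 1 ≤ K) (ha : π.act = Hook.act K) (hn : π.ndl = Hook.ndC K) :
    Clr π K where
  one := hK
  act := fun C z => by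
    rw [ha]
    constructor
    · exact fun h => h.2
    · intro h
      refine ⟨?_, h⟩
      by_contra hC
      have : toF C = ∅ := by
        unfold toF
        rw [dif_neg hC]
      rw [this, dlt_empty] at h
      omega
  ndl := fun C z f => by
    rw [hn]
    exact Iff.rfl

/-- All parameters with clearance needles are of the form `prmC`. -/
theorem Clr.eq {π : Prm} {K : ℕ} (h : Clr π K) : π = prmC π.kap π.m π.zt K := by
  obtain ⟨kap, m, zt, act, ndl⟩ := π
  have h1 : act = (prmC kap m zt K).act := by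
    funext C z
    exact propext (h.act C z)
  have h2 : ndl = (prmC kap m zt K).ndl := by
    funext C z
    ext f
    rw [h.ndl C z f, (clr_prmC h.one).ndl C z f]
  subst h1
  subst h2
  rfl

theorem compT_econn {C : Set (ℤ × ℤ)} {z : ℤ × ℤ} (hc : Top.EConn C) (hz : z ∈ C) : compT C z = C :=
  Set.Subset.antisymm (compT_sub hz) fun f hf => hc z hz f hf

/-- **The guard passes**: an active target of a disc. -/
theorem Clr.plant {π : Prm} {K : ℕ} (h : Clr π K) {C : Set (ℤ × ℤ)} {z : ℤ × ℤ} (hC : C.Finite)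
    (hc : Top.EConn C) (he : Esc C) (ha : π.act C z) :
    CSt.NdlOk π C z ∧ (CSt.dom₀ π C z).Ok := by
  obtain ⟨h1, h2, h3, h4⟩ := plant_ok (C := C) (N := π.ndl C z) (F := toF C) (z := z)
    (fun f => mem_toF hC) hc he h.one ((h.act C z).1 ha) (h.ndl C z)
  refine ⟨⟨h1, h2, h3⟩, ?_⟩
  unfold CSt.dom₀
  rw [compT_econn hc h3.1]
  exact h4

/-- A running domain with the grid of its move. -/
theorem Dom.Ok.val_grd {s : Dom} (h : s.Ok) {L M : ℤ} (hL : 0 < L) (h16 : 16 ∣ L) (hM : 0 < M) :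
    s.Val (s.grd L M) where
  toOk := h
  hL := hL
  hM := hM
  off := by
    obtain ⟨h1, h2⟩ := s.grd_tip (M := M) hL h16
    have h3 : 1 ≤ L / 5 := by
      obtain ⟨k, hk⟩ := h16
      omega
    exact ⟨fun t ht => h3.trans (h1 t ht), fun t ht => h3.trans (h2 t ht)⟩

namespace CSt

variable {σ : CSt} {π : Prm} {K : ℕ} {L M : ℤ} {ρ : Rec}

theorem esc_cmp (hI : σ.Inv) (hL : 0 < L) (hz : π.zt σ.j ∈ erW σ.W L (π.zt σ.j)) :
    (σ.cmp π L).Finite ∧ Top.EConn (σ.cmp π L) ∧ Esc (σ.cmp π L) := by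
  refine ⟨hI.fin.subset ((compT_sub hz).trans erW_subset), econn_compT hz, ?_⟩
  exact esc_erW hL hI.fin (erW_subset hz) hI.esc hz

/-- **The guard passes at every planting stage.** -/
theorem Inv.plant (hI : σ.Inv) (hπ : Clr π K) (hL : 0 < L)
    (hz : π.zt σ.j ∈ erW σ.W L (π.zt σ.j)) (ha : π.act (σ.cmp π L) (π.zt σ.j)) :
    NdlOk π (σ.cmp π L) (π.zt σ.j) ∧ (dom₀ π (σ.cmp π L) (π.zt σ.j)).Ok := by
  obtain ⟨h1, h2, h3⟩ := esc_cmp (π := π) hI hL hz
  exact hπ.plant h1 h2 h3 ha

/-- The condition for a needle. -/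
theorem Inv.plant_iff (hI : σ.Inv) (hπ : Clr π K) (hL : 0 < L) : σ.Plant π L ↔
    σ.j < π.m ∧ π.zt σ.j ∈ erW σ.W L (π.zt σ.j) ∧ π.act (σ.cmp π L) (π.zt σ.j) :=
  ⟨fun h => ⟨h.1, h.2.1, h.2.2.1⟩, fun h => ⟨h.1, h.2.1, h.2.2, (hI.plant hπ hL h.2.1 h.2.2).2⟩⟩

/-- **The invariant is preserved**, clearance needles. -/
theorem Inv.mv_clr (hI : σ.Inv) (hπ : Clr π K) (hL : 0 < L)
    (hval : ∀ s, σ.run = some s → σ.ini = false → s.Val (s.grd L M))
    (hesc : ∀ s, σ.run = some s → σ.ini = false → Esc (s.P \ s.rem (s.grd L M) ρ)) :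
    (σ.mv π L M ρ).Inv :=
  hI.mv hL hval hesc fun _ hp => (hI.plant hπ hL hp.2.1 hp.2.2.1).1

end CSt

/-- The removed sets of the history make no holes. -/
def EscH (π : Prm) (d : ℕ → ℕ) (W₀ : Set (ℤ × ℤ)) (x : List Rec) : Prop :=
  ∀ ρ y, ρ :: y <:+ x → ∀ s, (cst π d W₀ y).run = some s → (cst π d W₀ y).ini = false →
    Esc (s.P \ s.rem (s.grd (msh d y.length) (msz π.kap d y.length)) ρ)

theorem EscH.tail {π : Prm} {d : ℕ → ℕ} {W₀ : Set (ℤ × ℤ)} {ρ : Rec} {x : List Rec}
    (h : EscH π d W₀ (ρ :: x)) : EscH π d W₀ x :=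
  fun ρ' y hy => h ρ' y (hy.trans (List.suffix_cons ρ x))

theorem EscH.of_suffix {π : Prm} {d : ℕ → ℕ} {W₀ : Set (ℤ × ℤ)} {x y : List Rec}
    (h : EscH π d W₀ x) (hy : y <:+ x) : EscH π d W₀ y :=
  fun ρ' z hz => h ρ' z (hz.trans hy)

/-- **The invariant along a history.** -/
theorem inv_cst {π : Prm} {K : ℕ} (hπ : Clr π K) {d : ℕ → ℕ} {W₀ : Set (ℤ × ℤ)} (hW : W₀.Finite)
    (hWe : ∀ f ∈ W₀, Esc (compT W₀ f)) {x : List Rec} (hd : ∀ i < x.length, 0 < i → d i + 4 ≤ d 0)
    (h : EscH π d W₀ x) : (cst π d W₀ x).Inv := by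
  induction x with
  | nil => exact ⟨hW, hWe, fun s hs => by cases hs⟩
  | cons ρ x ih =>
    have hI := ih (fun i hi hi0 => hd i (by simp; omega) hi0) h.tail
    refine hI.mv_clr hπ (msh_pos d _) (fun s hs _ => ?_) fun s hs hi => h ρ x List.suffix_rfl s hs hi
    have hx : 0 < x.length := by
      cases x with
      | nil => cases hs
      | cons => simp
    exact (cst_ok hs).val_grd (msh_pos d _) (msh_16 (hd _ (by simp) hx)) (msz_pos _ _ _)

/-- **The guard passes along a history**: the hypothesis of `cover`. -/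
theorem stH_cst {π : Prm} {K : ℕ} (hπ : Clr π K) {d : ℕ → ℕ} {W₀ : Set (ℤ × ℤ)} (hW : W₀.Finite)
    (hWe : ∀ f ∈ W₀, Esc (compT W₀ f)) {x : List Rec} (hd : ∀ i < x.length, 0 < i → d i + 4 ≤ d 0)
    (h : EscH π d W₀ x) : StH π d W₀ x := by
  intro ρ y hy _ hT
  have hyx : y <:+ x := (List.suffix_cons ρ y).trans hy
  have hlen : y.length < x.length := by
    have := hy.length_le
    simp at this
    omega
  have hI := inv_cst hπ hW hWe (fun i hi hi0 => hd i (by omega) hi0) (h.of_suffix hyx)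
  exact (hI.plant hπ (msh_pos d _) hT.2.1 hT.2.2).2

end Pool.Agent.SixB.Mv
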