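import Pool.Agent.Lib.SixB.S8StartD
import Pool.Agent.Lib.SixB.S8Close

/-!
# Step 8: the target at the start of a needle step

`U` is the fresh region, `P ⊆ U` the coarse region, `Q ⊆ U` the needle. `T` is the component of `U \ Q`,
`R` the component of `P` without the cells of the needle. The true target side is `tgtS U T`, the coarse
target side `tgtS P R`. THEOREM `tgt_start`: the inner faces of these two sides are joined inside `T`
near the base of the needle.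

Proof. The last side of `R` before the target is linked, inside a cell, to a side `E` of `T` at the
needle. No side between `E` and the true target is far from the base: such a side would be joined to
`R`, and the closed chain through this side, the needle and a far common side of `P` and `R` has a
potential which is different at the two ends.
-/

set_option autoImplicit false

namespace Pool.Agent.SixB.StartA

open Pool.Agent.Perc Pool.Agent.Perc6 Pool.Agent.Perc6.C2Aux Pool.Agent.Perc.Tips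
open Pool.Agent.SixB.Top Pool.Agent.SixB.LC Pool.Agent.SixB.Mv

/-! ### Potentials along contours -/

section Pot

variable {U F S : Set (ℤ × ℤ)} {M : Set UE} {Φ : ℤ × ℤ → ZMod 2}

/-- A potential is constant along a part of a contour without sides in `M`. -/
theorem pot_const (hP : IsPot U M Φ) (hFU : F ⊆ U) {A : UE × Bool} (hA : BD F A) {k₁ k₃ : ℕ}
    (h13 : k₁ ≤ k₃) (h : ∀ i, k₁ ≤ i → i < k₃ → (side F A i).1 ∉ M) :
    Φ (lf (side F A k₃)) = Φ (lf (side F A k₁)) := by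
  induction k₃, h13 using Nat.le_induction with
  | base => rfl
  | succ j hj ih =>
    rw [← ih fun i h1 h2 => h i h1 (by omega), side_succ, lf_sc]
    by_contra hne
    exact h j hj (by omega) ((pot_side hP (hFU (bd_side hA j).1)).2 (Ne.symm hne))

/-- The potential changes along a part of a contour with one side in `M`. -/
theorem pot_change (hP : IsPot U M Φ) (hFU : F ⊆ U) {A : UE × Bool} (hA : BD F A) {k₁ k₃ r : ℕ}
    (h1 : k₁ ≤ r) (h3 : r < k₃) (h : ∀ i, k₁ ≤ i → i < k₃ → ((side F A i).1 ∈ M ↔ i = r)) :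
    Φ (lf (side F A k₃)) ≠ Φ (lf (side F A k₁)) :=
  pot_tele hP hFU hA h1 h3 h

/-- **Transport around a set.** If the contours of `S` have exactly two sides `B`, `C` in `M`, then the
potential after `C` is the potential before `B`. -/
theorem pot_transport (hSf : S.Finite) (hP : IsPot U M Φ) (hSU : S ⊆ U) {B C : UE × Bool}
    (hB : BD S B) (hBM : B.1 ∈ M)
    (h : ∀ D, BD S D → D.1 ∈ M → D = B ∨ D = C) : Φ (rg C) = Φ (lf B) := by
  obtain ⟨m, hm⟩ := exists_per hSf hB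
  have hper : side S B m = B := hm.per
  have hex : ∃ c, 0 < c ∧ c < m ∧ side S B c = C := by
    by_contra hno
    push Not at hno
    refine pot_change hP hSU hB (k₁ := 0) (k₃ := m) (r := 0) le_rfl hm.pos (fun i _ him => ?_)
      (by rw [hper]; rfl)
    constructor
    · intro hi
      rcases h _ (bd_side hB i) hi with h1 | h1
      · exact hm.inj i him 0 hm.pos h1
      · by_contra hi0
        exact hno i (by omega) him h1
    · rintro rfl
      exact hBM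
  obtain ⟨c, hc0, hcm, hcC⟩ := hex
  have h1 := pot_const hP hSU hB (k₁ := c + 1) (k₃ := m) (by omega) fun i h1 h2 hi => by
    rcases h _ (bd_side hB i) hi with h3 | h3
    · have := hm.inj i h2 0 hm.pos h3
      omega
    · have := hm.inj i h2 c hcm (h3.trans hcC.symm)
      omega
  rw [hper, side_succ, lf_sc, hcC] at h1
  exact h1.symm

theorem chiMono {S T : Set (ℤ × ℤ)} {f g : ℤ × ℤ} (h : ChI S f g) (hST : ∀ z ∈ S, z ∈ T) :
    ChI T f g := h.mono hST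

/-- Faces with a common side have a common corner. -/
theorem exists_cor {f g : ℤ × ℤ} (h : AdjF f g) : ∃ v, IsCor f v ∧ IsCor g v := by
  obtain ⟨B, rfl, rfl⟩ := exists_dir h
  exact ⟨rg B, isCor_in_rg B, isCor_out_rg B⟩

/-- A potential is constant on the corners of a connected set of faces without sides in `M`. -/
theorem pot_chain (hP : IsPot U M Φ) (hSU : S ⊆ U) (hM : ∀ f ∈ S, ∀ a, IsSide f a → a ∉ M)
    {f g v w : ℤ × ℤ} (hf : f ∈ S) (hfg : ChI S f g) (hv : IsCor f v) (hw : IsCor g w) :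
    Φ v = Φ w := by
  unfold ChI at hfg
  induction hfg generalizing w with
  | refl => exact pot_face hP (hSU hf) (hM f hf) hv hw
  | @tail b c hb hs ih =>
    obtain ⟨u, hu1, hu2⟩ := exists_cor hs.1
    rw [ih hu1]
    exact pot_face hP (hSU hs.2) (hM c hs.2) hu2 hw

/-- The inner faces of consecutive sides. -/
theorem inner_chain (F : Set (ℤ × ℤ)) (A : UE × Bool) :
    ChI {g | g ∈ F ∧ IsCor g (rg A)} (ahead A) (ahead (sc F A)) := by
  have c1 : IsCor (ahead (rtn A)) (rg A) := (isCor_rg_iff _ _).2 (Or.inr (Or.inr (Or.inl rfl)))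
  have c2 : IsCor (ahead (rtn (rtn A))) (rg A) :=
    (isCor_rg_iff _ _).2 (Or.inr (Or.inr (Or.inr rfl)))
  by_cases h1 : ahead (rtn A) ∈ F
  · by_cases h2 : ahead (rtn (rtn A)) ∈ F
    · rw [sc_right h1 h2, ahead_rv_rtn]
      have s1 : ChI {g | g ∈ F ∧ IsCor g (rg A)} (ahead A) (ahead (rtn A)) :=
        ChI.single (adjF_rtn A) ⟨h1, c1⟩
      exact s1.trans (ChI.single (adjF_rtn (rtn A)) ⟨h2, c2⟩)
    · rw [sc_straight h1 h2, ahead_rv_rtn]
      exact ChI.single (adjF_rtn A) ⟨h1, c1⟩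
  · rw [sc_left h1, ahead_rv_rtn]
    exact ChI.refl _

end Pot

/-! ### The two contours -/

/-- The contours of `P` and of `R ⊆ P`, both started at the tip side `A`: the sides `1, ..., t - 1` of
`R` are not sides of `P`, the side `t` of `R` is the side `u` of `P`, `β` is the side `p < u` of `P`. -/
structure Rel (P R : Set (ℤ × ℤ)) (β : UE × Bool) (mP mR p t u : ℕ) : Prop where
  cP : Cyc P (tipS P R) mP
  cR : Cyc R (tipS P R) mR
  p0 : 0 < p
  pu : p < u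
  t1 : 1 < t
  tm : t ≤ mR
  um : u + (mR - t) = mP
  tgt : t = tgtN P R
  mid : ∀ i, 0 < i → i < t → ¬ BD P (side R (tipS P R) i)
  lst : ∀ j, t + j ≤ mR → side R (tipS P R) (t + j) = side P (tipS P R) (u + j)
  bet : side P (tipS P R) p = β

namespace Rel

variable {P R : Set (ℤ × ℤ)} {β D : UE × Bool} {mP mR p t u : ℕ}

theorem u_le (h : Rel P R β mP mR p t u) : u ≤ mP := by
  have := h.um
  omega

/-- A common side of `P` and `R` is not between the tip and the target on the contour of `P`. -/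
theorem not_mid (h : Rel P R β mP mR p t u) (hP : BD P D) (hR : BD R D) {j : ℕ} (h0 : 0 < j)
    (hj : j < u) : side P (tipS P R) j ≠ D := by
  intro hjD
  obtain ⟨i, hi, hiD⟩ := h.cR.exists_index hR
  have hum := h.um
  have htm := h.tm
  rcases Nat.eq_zero_or_pos i with rfl | hi0
  · have := h.cP.inj j (by omega) 0 h.cP.pos (by rw [hjD, ← hiD]; rfl)
    omega
  · have hti : t ≤ i := by
      by_contra hlt
      exact h.mid i hi0 (by omega) (by rw [hiD]; exact hP)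
    have h1 := h.lst (i - t) (by omega)
    rw [show t + (i - t) = i by omega, hiD] at h1
    have := h.cP.inj j (by omega) (u + (i - t)) (by omega) (by rw [hjD, h1])
    omega

/-- The potential at the target is the potential after `β`. -/
theorem pot (h : Rel P R β mP mR p t u) (hP : BD P D) (hR : BD R D) {U : Set (ℤ × ℤ)} {M : Set UE}
    {Φ : ℤ × ℤ → ZMod 2} (hΦ : IsPot U M Φ) (hPU : P ⊆ U)
    (hM : ∀ B, BD P B → B.1 ∈ M → B = β ∨ B = D) :
    Φ (lf (side R (tipS P R) t)) = Φ (rg β) := by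
  have hum := h.um
  have htm := h.tm
  have hpu := h.pu
  have h1 := h.lst 0 (by omega)
  rw [Nat.add_zero, Nat.add_zero] at h1
  rw [h1, pot_const hΦ hPU h.cP.bd (k₁ := p + 1) (k₃ := u) (by omega) ?_, side_succ, lf_sc, h.bet]
  intro i hi1 hi2 hi
  rcases hM _ (bd_side h.cP.bd i) hi with h3 | h3
  · have := h.cP.inj i (by omega) p (by omega) (by rw [h3, h.bet])
    omega
  · exact h.not_mid hP hR (by omega) hi2 h3

end Rel

section Exists

variable {P Q : Set (ℤ × ℤ)} {γ : ℤ × ℤ → ℤ × ℤ} {f₀ : ℤ × ℤ} {β : UE × Bool}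

theorem exists_rel (hPf : P.Finite) (hPc : Top.EConn P) (hPe : Esc P)
    (hγP : ∀ x y, γ x = γ y → x ∈ P → y ∈ P) (hγ : ∀ x y, γ x = γ y → Chn {z | γ z = γ x} x y)
    (hβ : BD P β) (hβQ : ahead β ∈ Q) (hQ : ∀ q ∈ Q, q ∈ P → JoinIn (Q ∩ P) q (ahead β))
    (hf₀ : f₀ ∈ P \ VQ P Q γ) (hcom : ∃ A, BD P A ∧ BD (compT (P \ VQ P Q γ) f₀) A) :
    ∃ mP mR p t u, Rel P (compT (P \ VQ P Q γ) f₀) β mP mR p t u ∧
      StartD P (VQ P Q γ) (compT (P \ VQ P Q γ) f₀) mR := by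
  obtain ⟨m, hm⟩ := start_dom hPf hPc hPe hγP hγ hQ hβQ hβ.1 hβ.2
    (AdjF.symm (adjF_ahead β)) hf₀ hcom
  set R := compT (P \ VQ P Q γ) f₀ with hR
  obtain ⟨mP, hmP⟩ := exists_cyc hPf hPc hPe hm.bd
  obtain ⟨p, hp, hpB⟩ := hmP.exists_index hβ
  obtain ⟨s, t, u, h1, h2, h3, h4, h5, h6, h7, h8⟩ := contig_start hPf hPc hPe hγP hγ hQ hβQ hf₀
    hm.bd hm.cyc.bd ⟨hmP.pos, hmP.per, hmP.inj⟩ ⟨hm.cyc.pos, hm.cyc.per, hm.cyc.inj⟩ hp (by
      have : (sc P)^[p] (tipS P R) = β := hpB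
      rw [this])
  have hlst : ∀ j, t + j ≤ m → side R (tipS P R) (t + j) = side P (tipS P R) (u + j) := h8
  have hfst : ∀ i ≤ s, side R (tipS P R) i = side P (tipS P R) i := h6
  have hmid : ∀ i, s < i → i < t → ¬ BD P (side R (tipS P R) i) := fun i hi1 hi2 hb =>
    hb.2 (h7 i hi1 hi2).1
  have hs : s = 0 := by
    by_contra hs
    have h9 := hm.mid 1 (by omega) hm.one
    have h10 : BD P (side R (tipS P R) 1) := by
      rw [hfst 1 (by omega)]
      exact bd_side hm.bd 1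
    exact h10.2 h9.1
  subst hs
  have ht : t = tgtN P R := by
    have h9 : ¬ t < tgtN P R := by
      intro hlt
      have h10 := hm.mid t (by omega) hlt
      have h11 := hlst 0 (by omega)
      rw [Nat.add_zero, Nat.add_zero] at h11
      have h12 : BD P (side R (tipS P R) t) := by rw [h11]; exact bd_side hm.bd u
      exact h12.2 h10.1
    have h10 : ¬ tgtN P R < t := by
      intro hlt
      exact hmid _ (by have := hm.one; omega) hlt (hm.lst _ le_rfl hm.le)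
    omega
  exact ⟨mP, m, p, t, u, ⟨hmP, hm.cyc, by omega, h4, by omega, h2, h5, ht, hmid, hlst, hpB⟩, hm⟩

end Exists

/-! ### The closed chain -/

theorem tog {S : Set (ℤ × ℤ)} {f g : ℤ × ℤ} (hf : f ∈ S) (h : ChI S f g) :
    ∃ M : Set UE, (∀ a ∈ M, ∀ k, IsSide k a → k ∈ S) ∧
      ∀ k, parAt M k = ind2 (k = f) + ind2 (k = g) := by
  obtain ⟨-, M, hM, hp⟩ := chain_toggle (F := Sᶜ) (f := f) (g := g) (not_not.2 hf)
    (h.stepC fun f hf => not_not.2 hf)
  refine ⟨M, fun a ha k hk => ?_, hp⟩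
  by_contra hn
  exact hM a ha k hn hk

theorem tog_side (B : UE × Bool) (k : ℤ × ℤ) :
    parAt {B.1} k = ind2 (k = ahead B) + ind2 (k = ahead (rv B)) :=
  parAt_side (ahead_ne B) (sideA B) (sideB B) k

/-- The part of the closed chain outside of the far common side `D`. -/
theorem exists_exit {U P Q : Set (ℤ × ℤ)} {D : UE × Bool} {x : ℤ × ℤ} (hPU : P ⊆ U)
    (hDP : ahead D ∈ P) (hDQ : ahead D ∉ Q) (hDn : ahead (rv D) ∉ P) (hDm : ahead (rv D) ∉ Q)
    (hx : x ∉ U) (hch : ChI (P ∪ Q)ᶜ (ahead (rv D)) x) :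
    ∃ (e : UE × Bool) (M : Set UE), BD U e ∧ ahead e ∉ Q ∧
      (e = D ∨ (ahead (rv D) ∈ U ∧ ahead e ∉ P ∧
        ChI ((P ∪ Q)ᶜ ∩ U) (ahead (rv D)) (ahead e))) ∧
      (∀ f ∈ U, parAt M f = ind2 (f = ahead D)) ∧
      ∀ a ∈ M, a = D.1 ∨ a = e.1 ∨ ∀ k, IsSide k a → k ∈ (P ∪ Q)ᶜ ∩ U := by
  by_cases hU : ahead (rv D) ∈ U
  · obtain ⟨c, y, h1, h2, h3, h4, h5⟩ := first_entry (T := (P ∪ Q)ᶜ) (D := Uᶜ)
      (fun h => h.elim hDn hDm) (not_not.2 hU) hch hx
    obtain ⟨e, rfl, rfl⟩ := exists_dir h4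
    have h3' : ahead e ∈ U := not_not.1 h3
    have hsub : ((P ∪ Q)ᶜ \ Uᶜ : Set (ℤ × ℤ)) ⊆ (P ∪ Q)ᶜ ∩ U := fun z hz =>
      ⟨hz.1, not_not.1 hz.2⟩
    have hS : ChI ((P ∪ Q)ᶜ ∩ U) (ahead (rv D)) (ahead e) := ChI.mono hsub h1
    obtain ⟨M, hM, hp⟩ := tog (S := (P ∪ Q)ᶜ ∩ U) ⟨fun h => h.elim hDn hDm, hU⟩ hS
    refine ⟨e, symmDiff (symmDiff M {D.1}) {e.1}, ⟨h3', h5⟩,
      fun h => h2 (Or.inr h), Or.inr ⟨hU, fun h => h2 (Or.inl h), hS⟩, ?_, ?_⟩
    · intro f hf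
      have n1 : ind2 (f = ahead (rv e)) = 0 := ind2_neg fun h => h5 (h ▸ hf)
      rw [parAt_symmDiff, parAt_symmDiff, hp, tog_side, tog_side, n1]
      generalize ind2 (f = ahead (rv D)) = p1
      generalize ind2 (f = ahead e) = p2
      generalize ind2 (f = ahead D) = p3
      revert p1 p2 p3
      decide
    · intro a ha
      simp only [Set.mem_symmDiff, Set.mem_singleton_iff] at ha
      by_cases h6 : a ∈ M
      · exact Or.inr (Or.inr (hM a h6))
      · tauto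
  · refine ⟨D, {D.1}, ⟨hPU hDP, hU⟩, hDQ, Or.inl rfl, ?_, ?_⟩
    · intro f hf
      have n1 : ind2 (f = ahead (rv D)) = 0 := ind2_neg fun h => hU (h ▸ hf)
      rw [tog_side, n1, add_zero]
    · intro a ha
      exact Or.inl ha

/-- The closed chain: from outside `U` through the far common side `D`, the region `P \ Q`, the side
`J` of the needle, the needle in `P`, the side `β`, the needle outside `P`, to the outside of `U`. -/
structure Closed (U P Q K : Set (ℤ × ℤ)) (β βU J D e : UE × Bool) (M : Set UE)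
    (Φ : ℤ × ℤ → ZMod 2) : Prop where
  pot : IsPot U M Φ
  bdE : BD U e
  eQ : ahead e ∉ Q
  eD : e = D ∨ (ahead (rv D) ∈ U ∧ ahead e ∉ P ∧ ChI ((P ∪ Q)ᶜ ∩ U) (ahead (rv D)) (ahead e))
  memJ : J.1 ∈ M
  memB : β.1 ∈ M
  cls : ∀ a ∈ M, a = D.1 ∨ a = e.1 ∨ a = J.1 ∨ a = β.1 ∨ a = βU.1 ∨
    (∀ k, IsSide k a → k ∈ (P ∪ Q)ᶜ ∩ U) ∨ (∀ k, IsSide k a → k ∈ (P \ Q) \ K) ∨
    (∀ k, IsSide k a → k ∈ Q ∩ P) ∨ ∀ k, IsSide k a → k ∈ Q \ P

theorem exists_closed {U P Q K : Set (ℤ × ℤ)} {β βU J D : UE × Bool} {x : ℤ × ℤ} (hUf : U.Finite)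
    (hUe : Esc U) (hPU : P ⊆ U) (hQU : Q ⊆ U) (hβ : BD P β) (hβ1 : ahead β ∈ Q)
    (hβ2 : ahead (rv β) ∈ Q) (hu : BD U βU)
    (hout : ChI (Q \ P) (ahead (rv β)) (ahead βU)) (hJ : ahead J ∈ (P \ Q) \ K)
    (hJ1 : ahead (rv J) ∈ Q ∩ P) (hin : ChI (Q ∩ P) (ahead (rv J)) (ahead β)) (hD : BD P D)
    (hD1 : ahead D ∈ (P \ Q) \ K) (hD2 : ahead (rv D) ∉ Q)
    (hL : ChI ((P \ Q) \ K) (ahead D) (ahead J)) (hx : x ∉ U)
    (hch : ChI (P ∪ Q)ᶜ (ahead (rv D)) x) :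
    ∃ e M Φ, Closed U P Q K β βU J D e M Φ := by
  obtain ⟨e, M₀, he, heQ, heD, hp0, hc0⟩ := exists_exit hPU hD.1 hD1.1.2 hD.2 hD2 hx hch
  obtain ⟨M₁, hM1, hp1⟩ := tog hD1 hL
  obtain ⟨M₂, hM2, hp2⟩ := tog hJ1 hin
  obtain ⟨M₃, hM3, hp3⟩ := tog (S := Q \ P) (f := ahead (rv β)) ⟨hβ2, hβ.2⟩ hout
  set M : Set UE := symmDiff (symmDiff (symmDiff (symmDiff (symmDiff (symmDiff M₀ M₁) M₂) M₃) {J.1})
    {β.1}) {βU.1} with hM
  have heven : ∀ f ∈ U, EvenAt M f := by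
    intro f hf
    have n1 : ind2 (f = ahead (rv βU)) = 0 := ind2_neg fun h => hu.2 (h ▸ hf)
    rw [evenAt_iff, hM, parAt_symmDiff, parAt_symmDiff, parAt_symmDiff, parAt_symmDiff,
      parAt_symmDiff, parAt_symmDiff, hp0 f hf, hp1, hp2, hp3, tog_side, tog_side, tog_side, n1]
    generalize ind2 (f = ahead D) = p1
    generalize ind2 (f = ahead J) = p2
    generalize ind2 (f = ahead (rv J)) = p3
    generalize ind2 (f = ahead β) = p4
    generalize ind2 (f = ahead (rv β)) = p5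
    generalize ind2 (f = ahead βU) = p6
    revert p1 p2 p3 p4 p5 p6
    decide
  obtain ⟨Φ, hΦ⟩ := hUe.hasPot' hUf M heven
  -- the faces of the sides
  have sJ := sideA J
  have sJ' := sideB J
  have sB := sideA β
  have sB' := sideB β
  have sU := sideA βU
  have sU' := sideB βU
  -- the side `J`
  have j0 : J.1 ∉ M₀ := by
    intro h
    rcases hc0 _ h with h1 | h1 | h1
    · rcases faces_of_fst' h1.symm with h2 | h2
      · exact hD.2 (h2 ▸ hJ.1.1)
      · exact hD.2 (h2 ▸ hJ1.2)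
    · rcases faces_of_fst' h1.symm with h2 | h2
      · exact he.2 (h2 ▸ hPU hJ.1.1)
      · exact he.2 (h2 ▸ hPU hJ1.2)
    · exact (h1 _ sJ).1 (Or.inl hJ.1.1)
  have j1 : J.1 ∉ M₁ := fun h => (hM1 _ h _ sJ').1.2 hJ1.1
  have j2 : J.1 ∉ M₂ := fun h => hJ.1.2 (hM2 _ h _ sJ).1
  have j3 : J.1 ∉ M₃ := fun h => hJ.1.2 (hM3 _ h _ sJ).1
  have j4 : J.1 ≠ β.1 := by
    intro h
    rcases faces_of_fst h with h2 | h2
    · exact hJ.1.2 (h2 ▸ hβ1)
    · exact hJ.1.2 (h2 ▸ hβ2)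
  have j5 : J.1 ≠ βU.1 := by
    intro h
    rcases faces_of_fst' h.symm with h2 | h2
    · exact hu.2 (h2 ▸ hPU hJ.1.1)
    · exact hu.2 (h2 ▸ hPU hJ1.2)
  -- the side `β`
  have b0 : β.1 ∉ M₀ := by
    intro h
    rcases hc0 _ h with h1 | h1 | h1
    · rcases faces_of_fst h1.symm with h2 | h2
      · exact hD1.1.2 (h2 ▸ hβ1)
      · exact hD1.1.2 (h2 ▸ hβ2)
    · rcases faces_of_fst h1.symm with h2 | h2
      · exact heQ (h2 ▸ hβ1)
      · exact heQ (h2 ▸ hβ2)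
    · exact (h1 _ sB).1 (Or.inr hβ1)
  have b1 : β.1 ∉ M₁ := fun h => (hM1 _ h _ sB).1.2 hβ1
  have b2 : β.1 ∉ M₂ := fun h => hβ.2 (hM2 _ h _ sB').2
  have b3 : β.1 ∉ M₃ := fun h => (hM3 _ h _ sB).2 hβ.1
  have b5 : β.1 ≠ βU.1 := by
    intro h
    rcases faces_of_fst' h.symm with h2 | h2
    · exact hu.2 (h2 ▸ hPU hβ.1)
    · exact hu.2 (h2 ▸ hQU hβ2)
  refine ⟨e, M, Φ, hΦ, he, heQ, heD, ?_, ?_, ?_⟩
  · simp only [hM, Set.mem_symmDiff, Set.mem_singleton_iff, j0, j1, j2, j3, j4, j5]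
    tauto
  · simp only [hM, Set.mem_symmDiff, Set.mem_singleton_iff, b0, b1, b2, b3, b5]
    have : β.1 ≠ J.1 := Ne.symm j4
    tauto
  · intro a ha
    simp only [hM, Set.mem_symmDiff, Set.mem_singleton_iff] at ha
    by_cases h0 : a ∈ M₀
    · rcases hc0 a h0 with h1 | h1 | h1
      · exact Or.inl h1
      · exact Or.inr (Or.inl h1)
      · exact Or.inr (Or.inr (Or.inr (Or.inr (Or.inr (Or.inl h1)))))
    · by_cases h1 : a ∈ M₁
      · exact Or.inr (Or.inr (Or.inr (Or.inr (Or.inr (Or.inr (Or.inl (hM1 a h1)))))))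
      · by_cases h2 : a ∈ M₂
        · exact Or.inr (Or.inr (Or.inr (Or.inr (Or.inr (Or.inr (Or.inr (Or.inl (hM2 a h2))))))))
        · by_cases h3 : a ∈ M₃
          · exact Or.inr (Or.inr (Or.inr (Or.inr (Or.inr (Or.inr (Or.inr (Or.inr (hM3 a h3))))))))
          · tauto

/-! ### The start of a needle step -/

theorem VQ_id {U Q : Set (ℤ × ℤ)} (hQU : Q ⊆ U) : VQ U Q id = Q := by
  ext f
  constructor
  · rintro ⟨-, q, hq, hqf⟩
    have h2 : q = f := hqf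
    rw [← h2]
    exact hq
  · exact fun hf => ⟨hQU hf, f, hf, rfl⟩

/-- The start of a needle step: the fresh region `U`, the coarse region `P`, the needle `Q` which
crosses the contour of `P` at `β` and ends at the side `βU` of `U`, the cells of `γ`; `D` is a common
side of `P` and of the new region which is joined to the outside of `U` outside of `P` and `Q`. -/
structure StH (U P Q : Set (ℤ × ℤ)) (γ : ℤ × ℤ → ℤ × ℤ) (f₀ y : ℤ × ℤ) (β βU D : UE × Bool)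
    (m₁ m₂ : ℤ) : Prop where
  finU : U.Finite
  ecU : Top.EConn U
  escU : Esc U
  ecP : Top.EConn P
  escP : Esc P
  PU : P ⊆ U
  QU : Q ⊆ U
  cell : ∀ x z, γ x = γ z → x ∈ P → z ∈ P
  conn : ∀ x z, γ x = γ z → Chn {w | γ w = γ x} x z
  bdB : BD P β
  BQ : ahead β ∈ Q
  BQ' : ahead (rv β) ∈ Q
  inn : ∀ q ∈ Q, q ∈ P → JoinIn (Q ∩ P) q (ahead β)
  bdU : BD U βU
  UQ : ahead βU ∈ Q
  UP : ahead βU ∉ P
  out : ∀ q ∈ Q, q ∉ P → JoinIn (Q \ P) (ahead (rv β)) q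
  f0 : f₀ ∈ P \ VQ P Q γ
  bdD : BD P D
  bdD' : BD (compT (P \ VQ P Q γ) f₀) D
  DQ : ahead (rv D) ∉ Q
  exit : ∃ x, x ∉ U ∧ ChI (P ∪ Q)ᶜ (ahead (rv D)) x
  nearQ : ∀ q ∈ Q, q ∉ P → InB y m₁ q
  lnk : ∀ q ∈ Q, ¬ InB y m₁ q → ∀ a ∈ U, a ∉ Q → AdjF a q → (a ∈ P ∧ ¬ InB y m₂ a) ∧
    ∃ r ∈ compT (P \ VQ P Q γ) f₀, ChI ((P \ Q) \ {f | InB y m₂ f}) a r
  near : ∀ v ∈ VQ P Q γ, ∀ g, g ∉ P → (∃ w, IsCor v w ∧ IsCor g w) →
    ∀ f, γ f = γ v → InB y m₂ f

namespace StH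

variable {U P Q : Set (ℤ × ℤ)} {γ : ℤ × ℤ → ℤ × ℤ} {f₀ y : ℤ × ℤ} {β βU D : UE × Bool} {m₁ m₂ : ℤ}

theorem subQ (h : StH U P Q γ f₀ y β βU D m₁ m₂) : P \ VQ P Q γ ⊆ U \ Q := fun _ hf =>
  ⟨h.PU hf.1, fun hq => hf.2 (mem_VQ_of_Q hf.1 hq)⟩

theorem RT (h : StH U P Q γ f₀ y β βU D m₁ m₂) :
    compT (P \ VQ P Q γ) f₀ ⊆ compT (U \ Q) f₀ := compT_mono h.subQ

theorem TU (h : StH U P Q γ f₀ y β βU D m₁ m₂) : compT (U \ Q) f₀ ⊆ U \ Q :=
  compT_sub (h.subQ h.f0)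

theorem RP (h : StH U P Q γ f₀ y β βU D m₁ m₂) :
    compT (P \ VQ P Q γ) f₀ ⊆ P \ VQ P Q γ := compT_sub h.f0

/-- The contours at the side of `P`. -/
theorem relP (h : StH U P Q γ f₀ y β βU D m₁ m₂) :
    ∃ mP mR p t u, Rel P (compT (P \ VQ P Q γ) f₀) β mP mR p t u ∧
      StartD P (VQ P Q γ) (compT (P \ VQ P Q γ) f₀) mR :=
  exists_rel (h.finU.subset h.PU) h.ecP h.escP h.cell h.conn h.bdB h.BQ h.inn h.f0
    ⟨D, h.bdD, h.bdD'⟩

/-- A common side of `U` and `T` at the end of a chain from the far side `D`. -/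
theorem bdT (h : StH U P Q γ f₀ y β βU D m₁ m₂) {e : UE × Bool} (he : BD U e)
    (heD : e = D ∨ (ahead (rv D) ∈ U ∧ ahead e ∉ P ∧
      ChI ((P ∪ Q)ᶜ ∩ U) (ahead (rv D)) (ahead e))) : BD (compT (U \ Q) f₀) e := by
  refine ⟨?_, fun hh => he.2 (h.TU hh).1⟩
  rcases heD with rfl | ⟨h1, -, h2⟩
  · exact h.RT h.bdD'.1
  · have h3 : ahead (rv D) ∈ compT (U \ Q) f₀ :=
      compT_step (h.RT h.bdD'.1) (AdjF.symm (adjF_ahead D)) ⟨h1, h.DQ⟩
    have hsub : ((P ∪ Q)ᶜ ∩ U : Set (ℤ × ℤ)) ⊆ U \ Q := fun z hz => ⟨hz.2, fun hq => hz.1 (Or.inr hq)⟩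
    exact ChI.mem h3 (compT_chain h3 (h2.mono hsub))

/-- The contours at the side of `U`. -/
theorem relU (h : StH U P Q γ f₀ y β βU D m₁ m₂) :
    ∃ mP mR p t u, Rel U (compT (U \ Q) f₀) βU mP mR p t u ∧
      StartD U Q (compT (U \ Q) f₀) mR := by
  have hV : VQ U Q id = Q := VQ_id h.QU
  obtain ⟨x, hx, hch⟩ := h.exit
  obtain ⟨e, -, he, -, heD, -, -⟩ := exists_exit h.PU h.bdD.1
    (fun hq => (h.RP h.bdD'.1).2 (mem_VQ_of_Q h.bdD.1 hq)) h.bdD.2 h.DQ hx hch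
  have hout : ∀ q ∈ Q, q ∉ P → ChI Q (ahead (rv β)) q := fun q hq hqP =>
    ChI.mono (S := Q \ P) (fun _ hz => hz.1) (h.out q hq hqP)
  have h0 : ChI Q (ahead (rv β)) (ahead βU) := hout _ h.UQ h.UP
  have hj : ∀ q ∈ Q, ChI Q q (ahead βU) := by
    intro q hq
    by_cases hqP : q ∈ P
    · have h1 : ChI Q q (ahead β) := ChI.mono (S := Q ∩ P) (fun _ hz => hz.1) (h.inn q hq hqP)
      exact (h1.tail ⟨AdjF.symm (adjF_ahead β), h.BQ'⟩).trans h0
    · exact (ChI.symm h.BQ' (hout q hq hqP)).trans h0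
  have key := exists_rel (P := U) (Q := Q) (γ := id) (f₀ := f₀) (β := βU) h.finU h.ecU h.escU
    (fun x y hxy hx => by rw [← show x = y from hxy]; exact hx)
    (fun x y hxy => by
      have hxy' : x = y := hxy
      subst hxy'
      exact ⟨rfl, Relation.ReflTransGen.refl⟩) h.bdU h.UQ
    (fun q hq _ => by
      have hsub : Q ⊆ Q ∩ U := fun z hz => ⟨hz, h.QU hz⟩
      exact ChI.mono hsub (hj q hq))
    (by rw [hV]; exact h.subQ h.f0)
    (by rw [hV]; exact ⟨e, he, h.bdT he heD⟩)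
  rw [hV] at key
  exact key

theorem closed_side {U P Q K : Set (ℤ × ℤ)} {β βU J D e : UE × Bool} {M : Set UE}
    {Φ : ℤ × ℤ → ZMod 2} (C : Closed U P Q K β βU J D e M Φ) (hPU : P ⊆ U) (hQU : Q ⊆ U)
    (hβ : BD P β) (hD : BD P D) (hu : BD U βU) (hu1 : ahead βU ∉ P) (hJ : ahead J ∈ P)
    (hJ' : ahead (rv J) ∈ P) (hβQ : ahead (rv β) ∈ Q) :
    (∀ B, BD P B → B.1 ∈ M → B = β ∨ B = D) ∧ ∀ B, BD U B → B.1 ∈ M → B = βU ∨ B = e := by
  constructor
  · intro B hB hM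
    rcases C.cls _ hM with h1 | h1 | h1 | h1 | h1 | h1 | h1 | h1 | h1
    · exact Or.inr (hB.eq_of_fst hD h1)
    · rcases C.eD with h2 | ⟨-, h2, -⟩
      · exact Or.inr (hB.eq_of_fst hD (h2 ▸ h1))
      · exfalso
        rcases faces_of_fst h1 with h3 | h3
        · exact h2 (h3 ▸ hB.1)
        · exact C.bdE.2 (h3 ▸ hPU hB.1)
    · exfalso
      rcases faces_of_fst' h1 with h3 | h3
      · exact hB.2 (h3 ▸ hJ)
      · exact hB.2 (h3 ▸ hJ')
    · exact Or.inl (hB.eq_of_fst hβ h1)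
    · exfalso
      rcases faces_of_fst h1 with h3 | h3
      · exact hu1 (h3 ▸ hB.1)
      · exact hu.2 (h3 ▸ hPU hB.1)
    · exact absurd (Or.inl hB.1) (h1 _ (sideA B)).1
    · exact absurd (h1 _ (sideB B)).1.1 hB.2
    · exact absurd (h1 _ (sideB B)).2 hB.2
    · exact absurd hB.1 (h1 _ (sideA B)).2
  · intro B hB hM
    rcases C.cls _ hM with h1 | h1 | h1 | h1 | h1 | h1 | h1 | h1 | h1
    · rcases C.eD with h2 | ⟨h2, -, -⟩
      · exact Or.inr (hB.eq_of_fst C.bdE (h2 ▸ h1))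
      · exfalso
        rcases faces_of_fst' h1 with h3 | h3
        · exact hB.2 (h3 ▸ hPU hD.1)
        · exact hB.2 (h3 ▸ h2)
    · exact Or.inr (hB.eq_of_fst C.bdE h1)
    · exfalso
      rcases faces_of_fst' h1 with h3 | h3
      · exact hB.2 (h3 ▸ hPU hJ)
      · exact hB.2 (h3 ▸ hPU hJ')
    · exfalso
      rcases faces_of_fst' h1 with h3 | h3
      · exact hB.2 (h3 ▸ hPU hβ.1)
      · exact hB.2 (h3 ▸ hQU hβQ)
    · exact Or.inl (hB.eq_of_fst hu h1)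
    · exact absurd (h1 _ (sideB B)).2 hB.2
    · exact absurd (hPU (h1 _ (sideB B)).1.1) hB.2
    · exact absurd (hPU (h1 _ (sideB B)).2) hB.2
    · exact absurd (hQU (h1 _ (sideB B)).1) hB.2

/-- The sides of the closed chain at the contour of `T`. -/
theorem closed_T (h : StH U P Q γ f₀ y β βU D m₁ m₂) {K : Set (ℤ × ℤ)} {J e : UE × Bool}
    {M : Set UE} {Φ : ℤ × ℤ → ZMod 2} (C : Closed U P Q K β βU J D e M Φ)
    (hJ : BD (compT (U \ Q) f₀) J) {B : UE × Bool} (hB : BD (compT (U \ Q) f₀) B)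
    (hM : B.1 ∈ M) : B = J ∨ B = e := by
  have hBU := h.TU hB.1
  have step : ahead (rv B) ∈ U \ Q → False := fun hh =>
    hB.2 (compT_step hB.1 (AdjF.symm (adjF_ahead B)) hh)
  rcases C.cls _ hM with h1 | h1 | h1 | h1 | h1 | h1 | h1 | h1 | h1
  · rcases C.eD with h2 | ⟨h2, -, -⟩
    · exact Or.inr (hB.eq_of_fst (h.bdT C.bdE C.eD) (h2 ▸ h1))
    · exfalso
      rcases faces_of_fst' h1 with h3 | h3
      · exact hB.2 (h3 ▸ h.RT h.bdD'.1)
      · exact step (h3 ▸ ⟨h2, h.DQ⟩)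
  · exact Or.inr (hB.eq_of_fst (h.bdT C.bdE C.eD) h1)
  · exact Or.inl (hB.eq_of_fst hJ h1)
  · exfalso
    rcases faces_of_fst h1 with h3 | h3
    · exact hBU.2 (h3 ▸ h.BQ)
    · exact hBU.2 (h3 ▸ h.BQ')
  · exfalso
    rcases faces_of_fst h1 with h3 | h3
    · exact hBU.2 (h3 ▸ h.UQ)
    · exact h.bdU.2 (h3 ▸ hBU.1)
  · exfalso
    have h2 := h1 _ (sideB B)
    exact step ⟨h2.2, fun hq => h2.1 (Or.inr hq)⟩
  · exfalso
    have h2 := h1 _ (sideB B)
    exact step ⟨h.PU h2.1.1, h2.1.2⟩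
  · exact absurd (h1 _ (sideA B)).1 hBU.2
  · exact absurd (h1 _ (sideA B)).1 hBU.2

/-- The sides of the closed chain at the needle outside of `P`. -/
theorem closed_Q (h : StH U P Q γ f₀ y β βU D m₁ m₂) {K : Set (ℤ × ℤ)} {J e : UE × Bool}
    {M : Set UE} {Φ : ℤ × ℤ → ZMod 2} (C : Closed U P Q K β βU J D e M Φ) (hJ : ahead J ∈ P)
    (hJ' : ahead (rv J) ∈ P) {B : UE × Bool} (hB : BD (Q \ P) B) (hM : B.1 ∈ M) :
    B = rv β ∨ B = βU := by
  have bd1 : BD (Q \ P) (rv β) := ⟨⟨h.BQ', h.bdB.2⟩, by rw [rv_rv]; exact fun hh => hh.2 h.bdB.1⟩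
  have bd2 : BD (Q \ P) βU := ⟨⟨h.UQ, h.UP⟩, fun hh => h.bdU.2 (h.QU hh.1)⟩
  rcases C.cls _ hM with h1 | h1 | h1 | h1 | h1 | h1 | h1 | h1 | h1
  · exfalso
    rcases faces_of_fst h1 with h3 | h3
    · exact hB.1.2 (h3 ▸ h.bdD.1)
    · exact h.DQ (h3 ▸ hB.1.1)
  · exfalso
    rcases faces_of_fst h1 with h3 | h3
    · exact C.eQ (h3 ▸ hB.1.1)
    · exact C.bdE.2 (h3 ▸ h.QU hB.1.1)
  · exfalso
    rcases faces_of_fst h1 with h3 | h3
    · exact hB.1.2 (h3 ▸ hJ)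
    · exact hB.1.2 (h3 ▸ hJ')
  · exact Or.inl (hB.eq_of_fst bd1 h1)
  · exact Or.inr (hB.eq_of_fst bd2 h1)
  · exact absurd (Or.inr hB.1.1) (h1 _ (sideA B)).1
  · exact absurd (h1 _ (sideA B)).1.1 hB.1.2
  · exact absurd (h1 _ (sideA B)).2 hB.1.2
  · exact absurd (h1 _ (sideB B)) hB.2

/-- The faces of a cell of the needle have no sides in the closed chain. -/
theorem closed_K (h : StH U P Q γ f₀ y β βU D m₁ m₂) {v : ℤ × ℤ} (hv : v ∈ VQ P Q γ)
    {J e : UE × Bool} {M : Set UE} {Φ : ℤ × ℤ → ZMod 2}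
    (C : Closed U P Q {f | γ f = γ v} β βU J D e M Φ) (hJ : ahead J ∉ {f | γ f = γ v})
    (hJQ : ahead (rv J) ∈ Q) {f : ℤ × ℤ} (hf : γ f = γ v) (hfQ : f ∉ Q) {a : UE}
    (ha : IsSide f a) : a ∉ M := by
  intro hM
  have hfV : f ∈ VQ P Q γ := VQ_sat h.cell hf.symm hv
  have hfR : f ∉ compT (P \ VQ P Q γ) f₀ := fun hh => (h.RP hh).2 hfV
  have two : ∀ B : UE × Bool, a = B.1 → f = ahead B ∨ f = ahead (rv B) := fun B hB =>
    side_two (ahead_ne B) (sideA B) (sideB B) (hB ▸ ha)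
  have hd : a ≠ D.1 := by
    intro h1
    rcases two D h1 with h3 | h3
    · exact hfR (h3 ▸ h.bdD'.1)
    · exact h.bdD.2 (h3 ▸ hfV.1)
  rcases C.cls _ hM with h1 | h1 | h1 | h1 | h1 | h1 | h1 | h1 | h1
  · exact hd h1
  · rcases C.eD with h2 | ⟨-, h2, -⟩
    · exact hd (h2 ▸ h1)
    · rcases two e h1 with h3 | h3
      · exact h2 (h3 ▸ hfV.1)
      · exact C.bdE.2 (h3 ▸ h.PU hfV.1)
  · rcases two J h1 with h3 | h3
    · exact hJ (h3 ▸ hf)
    · exact hfQ (h3 ▸ hJQ)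
  · rcases two β h1 with h3 | h3
    · exact hfQ (h3 ▸ h.BQ)
    · exact hfQ (h3 ▸ h.BQ')
  · rcases two βU h1 with h3 | h3
    · exact hfQ (h3 ▸ h.UQ)
    · exact h.bdU.2 (h3 ▸ h.PU hfV.1)
  · exact (h1 _ ha).1 (Or.inl hfV.1)
  · exact (h1 _ ha).2 hf
  · exact hfQ (h1 _ ha).1
  · exact hfQ (h1 _ ha).1

/-- The cell at the last side of the new region before the target. -/
theorem cell_near (h : StH U P Q γ f₀ y β βU D m₁ m₂) {mP mR p t u : ℕ}
    (hr : Rel P (compT (P \ VQ P Q γ) f₀) β mP mR p t u)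
    (hs : StartD P (VQ P Q γ) (compT (P \ VQ P Q γ) f₀) mR) {k : ℕ} (hk : k + 1 = t) :
    outF (compT (P \ VQ P Q γ) f₀) (tipS P (compT (P \ VQ P Q γ) f₀)) k ∈ VQ P Q γ ∧
    ∀ f, γ f = γ (outF (compT (P \ VQ P Q γ) f₀) (tipS P (compT (P \ VQ P Q γ) f₀)) k) →
      InB y m₂ f := by
  set R := compT (P \ VQ P Q γ) f₀ with hR
  have h1 := hr.t1
  have ht := hr.tgt
  have hv := hs.mid k (by omega) (by omega)
  have hB : BD P (side R (tipS P R) t) := hs.lst t (by omega) (by have := hs.le; omega)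
  refine ⟨hv, h.near _ hv _ hB.2 ⟨lf (side R (tipS P R) t), ?_, isCor_out_lf _⟩⟩
  rw [← hk, side_succ, lf_sc]
  exact isCor_out_rg _

/-- **No far side between the linked side `E` and the target.** -/
theorem no_far (h : StH U P Q γ f₀ y β βU D m₁ m₂) {mP mR p t u mU mT p' t' u' : ℕ}
    (hr : Rel P (compT (P \ VQ P Q γ) f₀) β mP mR p t u)
    (hs : StartD P (VQ P Q γ) (compT (P \ VQ P Q γ) f₀) mR)
    (hr' : Rel U (compT (U \ Q) f₀) βU mU mT p' t' u')
    (hs' : StartD U Q (compT (U \ Q) f₀) mT) {k i j : ℕ} (hk : k + 1 = t)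
    (hE : rg (side (compT (U \ Q) f₀) (tipS U (compT (U \ Q) f₀)) i)
        = rg (side (compT (P \ VQ P Q γ) f₀) (tipS P (compT (P \ VQ P Q γ) f₀)) k) ∨
      (outF (compT (P \ VQ P Q γ) f₀) (tipS P (compT (P \ VQ P Q γ) f₀)) k ∉ Q ∧
        ChI ({f | γ f = γ (outF (compT (P \ VQ P Q γ) f₀)
          (tipS P (compT (P \ VQ P Q γ) f₀)) k)} \ Q)
          (outF (compT (P \ VQ P Q γ) f₀) (tipS P (compT (P \ VQ P Q γ) f₀)) k)
          (ahead (side (compT (U \ Q) f₀) (tipS U (compT (U \ Q) f₀)) i))))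
    (hij : i < j) (hj : j < t') :
    InB y m₁ (outF (compT (U \ Q) f₀) (tipS U (compT (U \ Q) f₀)) j) := by
  by_contra hfar
  obtain ⟨hv, hK⟩ := h.cell_near hr hs hk
  set R := compT (P \ VQ P Q γ) f₀ with hR
  set T := compT (U \ Q) f₀ with hT
  set A := tipS P R with hA
  set A' := tipS U T with hA'
  set v := outF R A k with hvd
  set K : Set (ℤ × ℤ) := {f | γ f = γ v} with hKd
  have htt := hr'.tgt
  set J := side T A' j with hJd
  have hJT : BD T J := bd_side hs'.cyc.bd j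
  have hJQ : ahead (rv J) ∈ Q := hs'.mid j (by omega) (by omega)
  have hJU := h.TU hJT.1
  obtain ⟨⟨haP, haB⟩, r, hrR, hch⟩ := h.lnk _ hJQ hfar _ hJU.1 hJU.2 (AdjF.symm (adjF_ahead J))
  have hJP' : ahead (rv J) ∈ P := by
    by_contra hn
    exact hfar (h.nearQ _ hJQ hn)
  have hJK : ahead J ∉ K := fun hh => haB (hK _ hh)
  have hRS : R ⊆ (P \ Q) \ K := by
    intro f hf
    have h1 := h.RP hf
    exact ⟨⟨h1.1, fun hq => h1.2 (mem_VQ_of_Q h1.1 hq)⟩, fun hh => h1.2 (VQ_sat h.cell hh.symm hv)⟩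
  have hBS : ((P \ Q) \ {f | InB y m₂ f} : Set (ℤ × ℤ)) ⊆ (P \ Q) \ K := fun f hf =>
    ⟨hf.1, fun hh => hf.2 (hK _ hh)⟩
  have hRc : Top.EConn R := econn_compT h.f0
  have hL : ChI ((P \ Q) \ K) (ahead D) (ahead J) := by
    have h1 : ChI R (ahead D) r := hRc _ h.bdD'.1 _ hrR
    have h2 : ChI ((P \ Q) \ {f | InB y m₂ f}) r (ahead J) := ChI.symm ⟨⟨haP, hJU.2⟩, haB⟩ hch
    exact (h1.mono hRS).trans (h2.mono hBS)
  obtain ⟨x, hx, hxch⟩ := h.exit
  obtain ⟨e, M, Φ, C⟩ := exists_closed (K := K) h.finU h.escU h.PU h.QU h.bdB h.BQ h.BQ' h.bdU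
    (h.out _ h.UQ h.UP) ⟨⟨haP, hJU.2⟩, hJK⟩ ⟨hJQ, hJP'⟩ (h.inn _ hJQ hJP') h.bdD (hRS h.bdD'.1)
    h.DQ hL hx hxch
  obtain ⟨c1, c2⟩ := closed_side C h.PU h.QU h.bdB h.bdD h.bdU h.UP haP hJP' h.BQ'
  -- the contour of `P`
  have e1 : Φ (lf (side R A t)) = Φ (rg β) := hr.pot h.bdD h.bdD' C.pot h.PU c1
  -- the contour of `U`
  have e2 : Φ (lf (side T A' t')) = Φ (rg βU) :=
    hr'.pot C.bdE (h.bdT C.bdE C.eD) C.pot (subset_refl U) c2
  -- the needle outside of `P`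
  have bd1 : BD (Q \ P) (rv β) :=
    ⟨⟨h.BQ', h.bdB.2⟩, by rw [rv_rv]; exact fun hh => hh.2 h.bdB.1⟩
  have hsub : Q \ P ⊆ U := fun z hz => h.QU hz.1
  have e3 : Φ (rg βU) = Φ (lf (rv β)) := pot_transport (h.finU.subset hsub) C.pot hsub bd1
    C.memB fun B hB hM => closed_Q h C haP hJP' hB hM
  rw [lf_rv] at e3
  -- the contour of `T`
  have hTU : T ⊆ U := fun z hz => (h.TU hz).1
  have e4 : Φ (lf (side T A' t')) ≠ Φ (lf (side T A' (i + 1))) := by
    refine pot_change C.pot hTU hs'.cyc.bd (r := j) (by omega) hj fun l h1 h2 => ?_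
    constructor
    · intro hM
      rcases closed_T h C hJT (bd_side hs'.cyc.bd l) hM with h3 | h3
      · exact hs'.cyc.inj l (by have := hs'.le; omega) j (by have := hs'.le; omega) h3
      · exfalso
        have h4 := hs'.mid l (by omega) (by omega)
        have h5 : BD U (side T A' l) := by rw [h3]; exact C.bdE
        exact h5.2 (h.QU h4)
    · rintro rfl
      exact C.memJ
  rw [side_succ, lf_sc] at e4
  -- the link
  have e5 : Φ (rg (side T A' i)) = Φ (rg (side R A k)) := by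
    rcases hE with hE | ⟨hvQ, hE⟩
    · rw [hE]
    · have hKU : K \ Q ⊆ U := fun f hf => h.PU (VQ_sat h.cell hf.1.symm hv).1
      refine (pot_chain C.pot hKU (fun f hf a ha => closed_K h hv C hJK hJQ hf.1 hf.2 ha)
        ⟨rfl, hvQ⟩ hE ?_ (isCor_in_rg _)).symm
      exact isCor_out_rg _
  have e6 : lf (side R A t) = rg (side R A k) := by rw [← hk, side_succ, lf_sc]
  apply e4
  rw [e2, e3, e5, ← e6, e1]

theorem cor_near {k g w : ℤ × ℤ} {r : ℤ} (hk : IsCor k w) (hg : IsCor g w) (h : InB y r k) :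
    InB y (r + 1) g := by
  unfold IsCor at hk hg
  unfold InB at *
  omega

/-- **The target at the start.** -/
theorem tgt_start (h : StH U P Q γ f₀ y β βU D m₁ m₂) :
    ChI (compT (U \ Q) f₀ ∩ {f | InB y (max m₁ m₂ + 1) f})
      (ahead (tgtS U (compT (U \ Q) f₀))) (ahead (tgtS P (compT (P \ VQ P Q γ) f₀))) := by
  obtain ⟨mP, mR, p, t, u, hr, hs⟩ := h.relP
  obtain ⟨mU, mT, p', t', u', hr', hs'⟩ := h.relU
  have hdef : tgtS P (compT (P \ VQ P Q γ) f₀) = side (compT (P \ VQ P Q γ) f₀)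
      (tipS P (compT (P \ VQ P Q γ) f₀)) t := by
    unfold tgtS
    rw [← hr.tgt]
  have hdef' : tgtS U (compT (U \ Q) f₀) = side (compT (U \ Q) f₀)
      (tipS U (compT (U \ Q) f₀)) t' := by
    unfold tgtS
    rw [← hr'.tgt]
  rw [hdef, hdef']
  obtain ⟨k, hk⟩ : ∃ k, k + 1 = t := ⟨t - 1, by have := hr.t1; omega⟩
  obtain ⟨hv, hK⟩ := h.cell_near hr hs hk
  have nf := fun {i j : ℕ} => h.no_far hr hs hr' hs' hk (i := i) (j := j)
  have hRT := h.RT
  have hTU := h.TU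
  set R := compT (P \ VQ P Q γ) f₀ with hR
  set T := compT (U \ Q) f₀ with hT
  set A := tipS P R with hA
  set A' := tipS U T with hA'
  set v := outF R A k with hvd
  set G : Set (ℤ × ℤ) := T ∩ {f | InB y (max m₁ m₂ + 1) f} with hG
  have htt := hr'.tgt
  have hm1 : m₁ ≤ max m₁ m₂ := le_max_left _ _
  have hm2 : m₂ ≤ max m₁ m₂ := le_max_right _ _
  have big : ∀ {r : ℤ} {f : ℤ × ℤ}, r ≤ max m₁ m₂ + 1 → InB y r f → InB y (max m₁ m₂ + 1) f := by
    intro r f hr hf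
    unfold InB at *
    omega
  have hBR : BD R (side R A k) := bd_side hs.cyc.bd k
  have hvk : IsCor v (rg (side R A k)) := isCor_out_rg _
  have hvB : InB y m₂ v := hK v rfl
  have hB1 : ahead (side R A k) ∈ G := by
    refine ⟨hRT hBR.1, big (r := m₂ + 1) (by omega) (cor_near hvk (isCor_in_rg _) hvB)⟩
  -- the last step, inside `R`
  have s3 : ChI G (ahead (side R A k)) (ahead (side R A t)) := by
    rw [← hk, side_succ]
    refine chiMono (inner_chain R (side R A k)) fun z hz => ⟨hRT hz.1, ?_⟩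
    exact big (r := m₂ + 1) (by omega) (cor_near hvk hz.2 hvB)
  -- the side `E`
  obtain ⟨E, hET, hEQ, hEc, hEn, hEl⟩ : ∃ E, BD T E ∧ ahead (rv E) ∈ Q ∧
      ChI G (ahead E) (ahead (side R A k)) ∧ (∃ f, IsCor f (rg E) ∧ InB y m₂ f) ∧
      (rg E = rg (side R A k) ∨ (v ∉ Q ∧ ChI ({f | γ f = γ v} \ Q) v (ahead E))) := by
    by_cases hvQ : v ∈ Q
    · exact ⟨side R A k, ⟨hRT hBR.1, fun hh => (hTU hh).2 hvQ⟩, hvQ, ChI.refl _,
        ⟨v, hvk, hvB⟩, Or.inl rfl⟩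
    · have hv' := hv
      obtain ⟨hvP, q, hq, hqv⟩ := hv'
      have h1 : ChI {w | γ w = γ v} v q := by
        have h2 := chn_joinIn (h.conn v q hqv.symm)
        exact h2
      obtain ⟨c, q', h3, h4, h5, h6, h7⟩ := first_entry (T := {w | γ w = γ v}) (D := Q) rfl hvQ h1 hq
      obtain ⟨E, rfl, rfl⟩ := exists_dir h6
      have hvT : v ∈ T := compT_step (hRT hBR.1) (AdjF.symm (adjF_ahead (side R A k)))
        ⟨h.PU hvP, hvQ⟩
      have hKU : ({w | γ w = γ v} \ Q : Set (ℤ × ℤ)) ⊆ U \ Q := fun f hf =>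
        ⟨h.PU (VQ_sat h.cell hf.1.symm hv).1, hf.2⟩
      have hKT : ∀ f, ChI ({w | γ w = γ v} \ Q) v f → f ∈ T := fun f hf =>
        ChI.mem hvT (compT_chain hvT (hf.mono hKU))
      have hch : ChI G (ahead E) v := by
        have h8 : ChI ({w | γ w = γ v} \ Q) (ahead E) v := ChI.symm ⟨rfl, hvQ⟩ h3
        have hET : ahead E ∈ T := hKT _ h3
        have h9 : ChI (T ∩ {f | γ f = γ v}) (ahead E) v := by
          clear hET
          have h10 : ∀ z, ChI ({w | γ w = γ v} \ Q) v z → ChI (T ∩ {f | γ f = γ v}) v z := by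
            intro z hz
            induction hz with
            | refl => exact ChI.refl _
            | @tail b c hb hs ih => exact ih.tail ⟨hs.1, hKT _ (hb.tail hs), hs.2.1⟩
          exact ChI.symm ⟨hvT, rfl⟩ (h10 _ h3)
        exact chiMono h9 fun z hz => ⟨hz.1, big (r := m₂) (by omega) (hK z hz.2)⟩
      refine ⟨E, ⟨hKT _ h3, fun hh => (hTU hh).2 h7⟩, h7,
        hch.trans (ChI.single (adjF_ahead (side R A k)) hB1),
        ⟨ahead E, isCor_in_rg _, hK _ h4⟩, Or.inr ⟨hvQ, h3⟩⟩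
  obtain ⟨i, hi, hiE⟩ := hs'.cyc.exists_index hET
  have hnb : ¬ BD U (side T A' i) := by
    rw [hiE]
    exact fun hh => hh.2 (h.QU hEQ)
  have hi0 : i ≠ 0 := by
    rintro rfl
    exact hnb hs'.bd
  have hit : i < t' := by
    by_contra hge
    exact hnb (hs'.lst i (by omega) hi.le)
  -- the contour of `T` from `E` to the target
  have s1 : ∀ j, i ≤ j → j ≤ t' → ChI G (ahead (side T A' i)) (ahead (side T A' j)) := by
    intro j hj
    induction j, hj using Nat.le_induction with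
    | base => exact fun _ => ChI.refl _
    | succ j hj ih =>
      intro hjt
      refine (ih (by omega)).trans ?_
      rw [side_succ]
      refine chiMono (inner_chain T (side T A' j)) fun z hz => ⟨hz.1, ?_⟩
      rcases Nat.eq_or_lt_of_le hj with h1 | h1
      · obtain ⟨f, hf1, hf2⟩ := hEn
        rw [← hiE, h1] at hf1
        exact big (r := m₂ + 1) (by omega) (cor_near hf1 hz.2 hf2)
      · have h2 := nf (i := i) (j := j) (by rw [hiE]; exact hEl) h1 (by omega)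
        exact big (r := m₁ + 1) (by omega) (cor_near (isCor_out_rg _) hz.2 h2)
  have hEG : ahead E ∈ G := by
    obtain ⟨f, hf1, hf2⟩ := hEn
    exact ⟨hET.1, big (r := m₂ + 1) (by omega) (cor_near hf1 (isCor_in_rg _) hf2)⟩
  have s2 : ChI G (ahead (side T A' t')) (ahead E) := by
    have h1 := s1 t' (by omega) le_rfl
    rw [hiE] at h1
    exact ChI.symm hEG h1
  exact s2.trans (hEc.trans s3)

end StH

end Pool.Agent.SixB.StartA
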