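import Pool.Agent.Lib.SixB.S8StartN
import Pool.Agent.Lib.SixB.S8StartTgt
import Pool.Agent.Lib.SixB.S8NeedleF

/-!
# Step 8: the start of a step, the instance for the needle `ndF`

`C` is a finite set of cells of side `m`, `P = blow m C`. The needle is `Q = ndF m C z L ∪ H`, where `H`
(the hook) is a set of faces outside `P` within `d` of the base `ndB m C z`.
* `ndl_of`: the clearance needle `Ndl (blow m C) Q (ndB m C z) (ndA m C z) (cen m z) r l c d` with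
  `r = m (dlt C z - 1)`, `c = 6 m`;
* `Ndl.stH`: the hypotheses `StH` of `tgt_start` for a clearance needle, `m₁ = 8 d + 3 c + 2`,
  `m₂ = 4 d + c`.
-/

set_option autoImplicit false

namespace Pool.Agent.SixB.StartA

open Pool.Agent.Perc Pool.Agent.Perc6 Pool.Agent.Perc6.C2Aux Pool.Agent.Perc.Tips
open Pool.Agent.SixB.Top Pool.Agent.SixB.LC Pool.Agent.SixB.Mv Pool.Agent.SixB.Ndle

/-! ### The hypotheses of `tgt_start` -/

section StH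

variable {ι : Type*} {U P Q : Set (ℤ × ℤ)} {κ : ℤ × ℤ → ι} {γ : ℤ × ℤ → ℤ × ℤ} {y a z : ℤ × ℤ}
  {r l c d : ℤ}

theorem Ndl.stH (N : Ndl P Q y a z r l c d) (A : App U P κ d) (hUf : U.Finite)
    (hUc : Top.EConn U) (hUe : Esc U) (hPc : Top.EConn P) (hPe : Esc P) (hQU : Q ⊆ U)
    (hγP : ∀ x y, γ x = γ y → x ∈ P → y ∈ P) (hγ : ∀ x y, γ x = γ y → Chn {z | γ z = γ x} x y)
    (hdγ : ∀ x y, γ x = γ y → |x.1 - y.1| < d ∧ |x.2 - y.2| < d) (hyQ : y ∈ Q)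
    (hout : ∀ q ∈ Q, q ∉ P → JoinIn (Q \ P) y q) {βU : UE × Bool} (hβU : BD U βU)
    (h1 : ahead βU ∈ Q) (h2 : ahead βU ∉ P) (hr : 4 * d + c < r) :
    ∃ β D : UE × Bool, ahead β = a ∧ ahead (rv β) = y ∧ ¬ InB y (2 * r + 1) (ahead (rv D)) ∧
      StH U P Q γ z y β βU D (8 * d + 3 * c + 2) (4 * d + c) := by
  obtain ⟨β, hβ1, hβ2⟩ := exists_dir N.adj
  obtain ⟨D, hD, hD', hfar, x, hxU, -, hch⟩ := N.exists_D (hUf.subset A.sub) A hdγ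
  have hd := N.d0
  have hc := N.c0
  have hz := N.z_mem hdγ
  refine ⟨β, D, hβ1, hβ2, hfar, hUf, hUc, hUe, hPc, hPe, A.sub, hQU, hγP, hγ,
    ⟨by rw [hβ1]; exact N.aP, by rw [hβ2]; exact N.yP⟩, by rw [hβ1]; exact N.aQ,
    by rw [hβ2]; exact hyQ, by rw [hβ1]; exact N.join, hβU, h1, h2, by rw [hβ2]; exact hout, hz, hD,
    hD', fun hh => ?_, ⟨x, hxU, hch.mono fun f hf => ?_⟩, fun q hq hqP => ?_,
    fun q hq hqn f hfU hfQ hfq => ?_, fun v hv g hg hw f hf => ?_⟩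
  · have h3 := N.hook _ hh hD.2
    have h4 := N.l0
    have h5 := N.len
    apply hfar
    unfold InB at *
    omega
  · rintro (h | h)
    · exact hf.1 h
    · exact hf.2.1 h
  · have h3 := N.hook q hq hqP
    unfold InB at *
    omega
  · obtain ⟨h3, h4, h5⟩ := N.join_R (s := 4 * d + c) (t := 8 * d + 3 * c + 2) (by omega) hr
      (by omega) hfQ hq hfq hqn
    refine ⟨⟨h4, h5⟩, z, self_mem_compT, ?_⟩
    exact chiMono h3 fun g hg => ⟨⟨hg.1, hg.2.1⟩, hg.2.2⟩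
  · obtain ⟨w, hw1, hw2⟩ := hw
    exact N.cell_near hdγ hv hg hw1 hw2 hf.symm

end StH

/-! ### The instance -/

section Inst

variable {m : ℤ} {C : Finset (ℤ × ℤ)} {z : ℤ × ℤ} {L : ℕ}

theorem inB_iff_sd {w f : ℤ × ℤ} {s : ℤ} : InB w s f ↔ sd f w ≤ s := by
  unfold InB sd
  rw [max_le_iff, abs_le, abs_le]
  omega

theorem mem_blow_iff {f : ℤ × ℤ} : f ∈ blow m (C : Set (ℤ × ℤ)) ↔ Ndle.cel m f ∈ C := Iff.rfl

/-- One step of the needle, in the order given by the quadrant. -/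
theorem stT_mono {w q : ℤ × ℤ} (h : q ≠ w) {s₁ s₂ : ℤ} (h₁ : s₁ = 1 ∨ s₁ = -1)
    (h₂ : s₂ = 1 ∨ s₂ = -1) (h3 : 0 ≤ s₁ * (q.1 - w.1)) (h4 : 0 ≤ s₂ * (q.2 - w.2)) :
    0 ≤ s₁ * ((stT w q).1 - w.1) ∧ 0 ≤ s₂ * ((stT w q).2 - w.2) ∧
      s₁ * (stT w q).1 ≤ s₁ * q.1 ∧ s₂ * (stT w q).2 ≤ s₂ * q.2 := by
  have hne : ¬ (q.1 = w.1 ∧ q.2 = w.2) := fun h' => h (Prod.ext h'.1 h'.2)
  unfold stT
  rcases h₁ with rfl | rfl <;> rcases h₂ with rfl | rfl <;>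
    rcases abs_cases (q.1 - w.1) with ⟨e1, g1⟩ | ⟨e1, g1⟩ <;>
    rcases abs_cases (q.2 - w.2) with ⟨e2, g2⟩ | ⟨e2, g2⟩ <;>
    rw [e1, e2] <;> split_ifs <;> simp only <;> omega

/-- The signs of the quadrant. -/
theorem exists_sgn (x w : ℤ) : ∃ s : ℤ, (s = 1 ∨ s = -1) ∧ 0 ≤ s * (x - w) := by
  rcases le_total w x with h | h
  · exact ⟨1, Or.inl rfl, by omega⟩
  · exact ⟨-1, Or.inr rfl, by omega⟩

/-- The cells of the needle are in one quadrant of `z` and run towards `z`. -/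
theorem ndc_mono {s₁ s₂ : ℤ} (h₁ : s₁ = 1 ∨ s₁ = -1) (h₂ : s₂ = 1 ∨ s₂ = -1)
    (h3 : 0 ≤ s₁ * ((bse C z).1 - z.1)) (h4 : 0 ≤ s₂ * ((bse C z).2 - z.2)) :
    ∀ j ≤ dlt C z, 0 ≤ s₁ * ((ndc C z j).1 - z.1) ∧ 0 ≤ s₂ * ((ndc C z j).2 - z.2) ∧
      ∀ i ≤ j, s₁ * (ndc C z j).1 ≤ s₁ * (ndc C z i).1 ∧ s₂ * (ndc C z j).2 ≤ s₂ * (ndc C z i).2 := by
  intro j
  induction j with
  | zero =>
    intro _
    refine ⟨h3, h4, fun i hi => ?_⟩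
    rw [Nat.le_zero.1 hi]
    exact ⟨le_rfl, le_rfl⟩
  | succ j ih =>
    intro hj
    obtain ⟨i1, i2, i3⟩ := ih (by omega)
    have hne : ndc C z j ≠ z := npt_ne (by rw [sd_bse]; exact_mod_cast hj)
    obtain ⟨k1, k2, k3, k4⟩ := stT_mono hne h₁ h₂ i1 i2
    have e : ndc C z (j + 1) = stT z (ndc C z j) := npt_succ _ _ _
    rw [e]
    refine ⟨k1, k2, fun i hi => ?_⟩
    rcases Nat.lt_or_ge i (j + 1) with h | h
    · obtain ⟨g1, g2⟩ := i3 i (by omega)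
      exact ⟨k3.trans g1, k4.trans g2⟩
    · have : i = j + 1 := by omega
      subst this
      rw [e]
      exact ⟨le_rfl, le_rfl⟩

theorem cen_le (hm : 0 < m) {u v : ℤ × ℤ} {s₁ s₂ : ℤ} (h₁ : s₁ = 1 ∨ s₁ = -1)
    (h₂ : s₂ = 1 ∨ s₂ = -1) (h3 : s₁ * u.1 ≤ s₁ * v.1) (h4 : s₂ * u.2 ≤ s₂ * v.2) :
    s₁ * (cen m u).1 ≤ s₁ * (cen m v).1 ∧ s₂ * (cen m u).2 ≤ s₂ * (cen m v).2 := by
  unfold cen
  constructor
  · rcases h₁ with rfl | rfl <;> simp only <;> nlinarith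
  · rcases h₂ with rfl | rfl <;> simp only <;> nlinarith

theorem seg_le {u v f : ℤ × ℤ} {s₁ s₂ : ℤ} (h₁ : s₁ = 1 ∨ s₁ = -1) (h₂ : s₂ = 1 ∨ s₂ = -1)
    (h3 : s₁ * v.1 ≤ s₁ * u.1) (h4 : s₂ * v.2 ≤ s₂ * u.2) (hf : f ∈ Ndle.seg u v) :
    (s₁ * v.1 ≤ s₁ * f.1 ∧ s₁ * f.1 ≤ s₁ * u.1) ∧ s₂ * v.2 ≤ s₂ * f.2 ∧ s₂ * f.2 ≤ s₂ * u.2 := by
  rw [mem_seg] at hf
  rcases h₁ with rfl | rfl <;> rcases h₂ with rfl | rfl <;> omega

/-- The needle is monotone. -/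
theorem ndF_mono (hm : 0 < m) (hL : L ≤ dlt C z) :
    ∃ s₁ s₂ : ℤ, (s₁ = 1 ∨ s₁ = -1) ∧ (s₂ = 1 ∨ s₂ = -1) ∧
      (∀ f ∈ ndF m C z L, 0 ≤ s₁ * (f.1 - (cen m z).1) ∧ 0 ≤ s₂ * (f.2 - (cen m z).2)) ∧
      ∀ f ∈ ndF m C z L, ∀ g ∈ ndF m C z L, (s₁ * f.1 ≤ s₁ * g.1 ∧ s₂ * f.2 ≤ s₂ * g.2) ∨
        (s₁ * g.1 ≤ s₁ * f.1 ∧ s₂ * g.2 ≤ s₂ * f.2) := by
  obtain ⟨s₁, h₁, h3⟩ := exists_sgn (bse C z).1 z.1
  obtain ⟨s₂, h₂, h4⟩ := exists_sgn (bse C z).2 z.2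
  have key := ndc_mono h₁ h₂ h3 h4
  have hle : ∀ i j, i ≤ j → j ≤ L → s₁ * (cen m (ndc C z j)).1 ≤ s₁ * (cen m (ndc C z i)).1 ∧
      s₂ * (cen m (ndc C z j)).2 ≤ s₂ * (cen m (ndc C z i)).2 := by
    intro i j hij hj
    obtain ⟨g1, g2⟩ := (key j (by omega)).2.2 i hij
    exact cen_le hm h₁ h₂ g1 g2
  have hz : ∀ j ≤ L, s₁ * (cen m z).1 ≤ s₁ * (cen m (ndc C z j)).1 ∧
      s₂ * (cen m z).2 ≤ s₂ * (cen m (ndc C z j)).2 := by
    intro j hj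
    obtain ⟨g1, g2, -⟩ := key j (by omega)
    exact cen_le hm h₁ h₂ (by rw [mul_sub] at g1; omega) (by rw [mul_sub] at g2; omega)
  have hseg : ∀ f ∈ ndF m C z L, ∃ i < L, (s₁ * (cen m (ndc C z (i + 1))).1 ≤ s₁ * f.1 ∧
      s₁ * f.1 ≤ s₁ * (cen m (ndc C z i)).1) ∧ (s₂ * (cen m (ndc C z (i + 1))).2 ≤ s₂ * f.2 ∧
      s₂ * f.2 ≤ s₂ * (cen m (ndc C z i)).2) := by
    intro f hf
    obtain ⟨⟨i, hi, hfs⟩, -⟩ := mem_pthF.1 hf
    obtain ⟨g1, g2⟩ := hle i (i + 1) (by omega) hi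
    exact ⟨i, hi, seg_le h₁ h₂ g1 g2 hfs⟩
  refine ⟨s₁, s₂, h₁, h₂, fun f hf => ?_, fun f hf g hg => ?_⟩
  · obtain ⟨i, hi, ⟨g1, -⟩, g2, -⟩ := hseg f hf
    obtain ⟨g3, g4⟩ := hz (i + 1) hi
    rw [mul_sub, mul_sub]
    constructor <;> omega
  · obtain ⟨i, hi, ⟨a1, a2⟩, a3, a4⟩ := hseg f hf
    obtain ⟨j, hj, ⟨b1, b2⟩, b3, b4⟩ := hseg g hg
    rcases lt_trichotomy i j with h | h | h
    · obtain ⟨g1, g2⟩ := hle (i + 1) j h (by omega)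
      right
      constructor <;> omega
    · subst h
      -- the same segment
      have hadj := adj_cases (ndc_adj (C := C) (z := z) (i := i) (by omega))
      have e : s₁ * (cen m (ndc C z (i + 1))).1 = s₁ * (cen m (ndc C z i)).1 ∨
          s₂ * (cen m (ndc C z (i + 1))).2 = s₂ * (cen m (ndc C z i)).2 := by
        unfold cen
        rcases hadj with ⟨h5, h6⟩ | ⟨h5, h6⟩ | ⟨h5, h6⟩ | ⟨h5, h6⟩
        · right; rw [h6]
        · right; rw [h6]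
        · left; rw [h5]
        · left; rw [h5]
      rcases e with e | e
      · rcases le_total (s₂ * f.2) (s₂ * g.2) with h7 | h7
        · left; constructor <;> omega
        · right; constructor <;> omega
      · rcases le_total (s₁ * f.1) (s₁ * g.1) with h7 | h7
        · left; constructor <;> omega
        · right; constructor <;> omega
    · obtain ⟨g1, g2⟩ := hle (j + 1) i h (by omega)
      left
      constructor <;> omega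

/-- **The instance.** -/
theorem ndl_of (hm : 0 < m) (h1 : 1 ≤ L) (hL : L ≤ dlt C z) {H : Set (ℤ × ℤ)} {l d : ℤ}
    (hd : 0 < d) (hHC : ∀ f ∈ H, Ndle.cel m f ∉ C) (hHn : ∀ f ∈ H, InB (ndB m C z) d f)
    (hl : m * (L + 1) - 1 ≤ l) (hdl : d ≤ l) (hr : l + d ≤ m * (dlt C z - 1)) :
    Ndl (blow m (C : Set (ℤ × ℤ))) ((ndF m C z L : Set (ℤ × ℤ)) ∪ H) (ndB m C z) (ndA m C z)
      (cen m z) (m * (dlt C z - 1)) l (6 * m) d := by
  obtain ⟨s1, s2, s3⟩ := ndF_start hm hL h1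
  have hsub : ∀ f ∈ (ndF m C z L : Set (ℤ × ℤ)) ∪ H, f ∈ blow m (C : Set (ℤ × ℤ)) →
      f ∈ ndF m C z L := by
    rintro f (hf | hf) hfP
    · exact Finset.mem_coe.1 hf
    · exact absurd (mem_blow_iff.1 hfP) (hHC f hf)
  have hzc : Ndle.cel m (cen m z) = z := cel_cen hm z
  refine ⟨hd, by omega, fun f hf => ?_, fun hh => s1 (mem_blow_iff.1 hh), Or.inl (Finset.mem_coe.2 s2),
    mem_blow_iff.2 (ndF_sub hm hL s2), s3, fun f hf hfP => ?_, fun f hf => ?_, hr,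
    fun f hf hfP => ?_, fun f hf hfP s t ht hst => ?_, ?_⟩
  · rw [inB_iff_sd] at hf
    have h2 := sd_cell_le hm (f := f) (g := cen m z)
    rw [hzc] at h2
    apply mem_blow_iff.2
    apply mem_of_lt (z := z)
    have h3 : m * (sd (Ndle.cel m f) z - 1) < m * (dlt C z - 1) := by omega
    have h4 := lt_of_mul_lt_mul_left h3 hm.le
    omega
  · have hfn := hsub f hf hfP
    have h2 := ndF_conn hm hL hfn s2
    have h3 : ChI (((ndF m C z L : Set (ℤ × ℤ)) ∪ H) ∩ blow m (C : Set (ℤ × ℤ))) f (ndA m C z) :=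
      chiMono h2 fun x hx => ⟨Or.inl hx, mem_blow_iff.2 (ndF_sub hm hL (Finset.mem_coe.1 hx))⟩
    exact h3
  · rcases hf with hf | hf
    · rw [inB_iff_sd]
      exact (ndF_diam hm hL (Finset.mem_coe.1 hf)).trans hl
    · have h2 := hHn f hf
      unfold InB at *
      omega
  · rcases hf with hf | hf
    · exact absurd (mem_blow_iff.2 (ndF_sub hm hL (Finset.mem_coe.1 hf))) hfP
    · exact hHn f hf
  · have hfn := hsub f hf hfP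
    rw [inB_iff_sd] at ht ⊢
    obtain ⟨i, i1, i2, i3⟩ := ndF_cell hm hL hfn
    have h2 := ndF_near hm hL i2 h1 i3
    have h3 := ndc_le (C := C) (z := z) (i2.trans hL)
    have h4 := sd_face_le hm (f := f) (g := cen m z)
    rw [hzc, i3] at h4
    have h5 : m * (2 * sd (ndc C z i) z) ≤ m * (2 * dlt C z - i + 1) :=
      mul_le_mul_of_nonneg_left h3 hm.le
    nlinarith
  · obtain ⟨t₁, t₂, k1, k2, k3, k4⟩ := ndF_mono hm hL
    exact ⟨t₁, t₂, k1, k2, fun f hf hfP => k3 f (hsub f hf hfP),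
      fun f hf hfP g hg hgP => k4 f (hsub f hf hfP) g (hsub g hg hgP)⟩

end Inst

end Pool.Agent.SixB.StartA
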