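import Pool.Agent.Lib.SixB.S8StartD
import Pool.Agent.Lib.SixB.S8StartI
import Pool.Agent.Lib.SixB.S8BlowT
import Pool.Agent.Lib.SixB.S8StateG
import Pool.Agent.Lib.SixB.S8Hook

/-!
# Step 8: the start of a needle step under magnification

`P`, `R` coarse sets with the tip side `tipS P R` and the target side `tgtS P R`.

* `tipS_blow`: the tip side of the magnified sets is the LAST piece of the coarse tip side;
* `tgtS_blow`: the target side of the magnified sets is the FIRST piece of the coarse target side;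
* `tgtN_blow`: its number is `u * (tgtN P R - 1) + 1`;
* `startD_blow`: `StartD` for the magnified sets;
* `vQ_hookU`: the cells of the true needle are the cells `ndC`;
* `blow_dom0`: the magnified first domain.
-/

set_option autoImplicit false

namespace Pool.Agent.SixB.StartB

open Pool.Agent.Perc Pool.Agent.Perc6 Pool.Agent.Perc6.C2Aux Pool.Agent.Perc.Tips
open Pool.Agent.SixB Pool.Agent.SixB.Top Pool.Agent.SixB.Mv Pool.Agent.SixB.Blow
open Pool.Agent.SixB.StartA

variable {P R V : Set (ℤ × ℤ)} {A : UE × Bool} {m u : ℕ}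

/-! ### A contour with another first side -/

/-- A contour, started at another side. -/
theorem cyc_shift (hF : R.Finite) (hc : Top.EConn R) (he : Esc R) (h : Cyc R A m) (k : ℕ) :
    Cyc R (side R A k) m := by
  obtain ⟨m', hm'⟩ := exists_cyc hF hc he (bd_side h.bd k)
  have h1 : Function.minimalPeriod (sc R) A = m := h.cyl
  have h2 : Function.minimalPeriod (sc R) (side R A k) = m' := hm'.cyl
  have h3 : Function.minimalPeriod (sc R) ((sc R)^[k] A) = Function.minimalPeriod (sc R) A :=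
    Function.minimalPeriod_apply_iterate (Function.mk_mem_periodicPts h.pos h.per) k
  have h4 : m' = m := by
    rw [← h1, ← h2, ← h3]
    rfl
  exact h4 ▸ hm'

/-! ### The tip side -/

theorem isTip_subE (hu : 0 < u) (h : IsTip P R A) :
    IsTip (blow u P) (blow u R) (subE u A ((u : ℤ) - 1)) := by
  have hu' : (0 : ℤ) < u := by exact_mod_cast hu
  refine ⟨bd_subE hu' h.1 (by omega) (by omega), bd_subE hu' h.2.1 (by omega) (by omega), ?_⟩
  rw [sc_subE_last hu', bd_subE_iff hu' le_rfl hu']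
  exact h.2.2

/-- The tip sides of the magnified sets. -/
theorem isTip_blow (hu : 0 < u) {A' : UE × Bool} (h : IsTip (blow u P) (blow u R) A') :
    ∃ A, IsTip P R A ∧ A' = subE u A ((u : ℤ) - 1) := by
  have hu' : (0 : ℤ) < u := by exact_mod_cast hu
  obtain ⟨h1, h2, h3⟩ := h
  obtain ⟨A, r, h0, hr, hA, rfl⟩ := exists_subE hu' h2
  have hP : BD P A := (bd_subE_iff hu' h0 hr).1 h1
  have hr' : r = (u : ℤ) - 1 := by
    by_contra hne
    rw [sc_subE hu' hA h0 (by omega), bd_subE_iff hu' (by omega) (by omega)] at h3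
    exact h3 hP
  subst hr'
  rw [sc_subE_last hu', bd_subE_iff hu' le_rfl hu'] at h3
  exact ⟨A, ⟨hP, hA, h3⟩, rfl⟩

/-- The next side after the tip side is not a side of `P`. -/
theorem isTip_of (h : StartD P V R m) : IsTip P R (tipS P R) := by
  classical
  refine ⟨h.bd, h.cyc.bd, ?_⟩
  intro hb
  have h1 : 0 < 1 ∧ BD P (side R (tipS P R) 1) := ⟨one_pos, hb⟩
  have hex : ∃ n, 0 < n ∧ BD P (side R (tipS P R) n) := ⟨1, h1⟩
  have h2 : tgtN P R ≤ 1 := by
    unfold tgtN
    rw [dif_pos hex]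
    exact Nat.find_min' hex h1
  have := h.one
  omega

/-- **The tip side of the magnified sets** is the last piece of the coarse tip side. -/
theorem tipS_blow (hu : 0 < u) (h : StartD P V R m) :
    tipS (blow u P) (blow u R) = subE u (tipS P R) ((u : ℤ) - 1) := by
  obtain ⟨A, hA, hA'⟩ := isTip_blow hu (tipS_spec ⟨_, isTip_subE hu (isTip_of h)⟩)
  rw [hA', h.uniq A hA]

/-- The sides of the magnified set, from the tip side. -/
theorem side_tip_blow (hu : 0 < u) (h : StartD P V R m) (j : ℕ) :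
    side (blow u R) (tipS (blow u P) (blow u R)) j =
      subE u (side R (tipS P R) ((u - 1 + j) / u)) (((u - 1 + j) % u : ℕ) : ℤ) := by
  have h1 : tipS (blow u P) (blow u R) = side (blow u R) (subE u (tipS P R) 0) (u - 1) := by
    rw [tipS_blow hu h, side_blow hu h.cyc.bd, Nat.div_eq_of_lt (by omega),
      Nat.mod_eq_of_lt (by omega)]
    have : ((u - 1 : ℕ) : ℤ) = (u : ℤ) - 1 := by omega
    rw [this]
    rfl
  rw [h1, ← side_add, side_blow hu h.cyc.bd]

theorem bd_side_tip (hu : 0 < u) (h : StartD P V R m) (j : ℕ) :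
    BD (blow u P) (side (blow u R) (tipS (blow u P) (blow u R)) j) ↔
      BD P (side R (tipS P R) ((u - 1 + j) / u)) := by
  rw [side_tip_blow hu h]
  exact bd_subE_iff (by omega) (by omega) (by exact_mod_cast Nat.mod_lt _ hu)

/-- The number of the target side is the first side of `P` after the tip side. -/
theorem tgtN_spec (h : StartD P V R m) : (0 < tgtN P R ∧ BD P (side R (tipS P R) (tgtN P R))) ∧
    ∀ k, 0 < k → k < tgtN P R → ¬ BD P (side R (tipS P R) k) := by
  classical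
  have hex : ∃ n, 0 < n ∧ BD P (side R (tipS P R) n) :=
    ⟨tgtN P R, by have := h.one; omega, h.lst _ le_rfl h.le⟩
  have e : tgtN P R = Nat.find hex := by
    unfold tgtN
    rw [dif_pos hex]
  rw [e]
  refine ⟨Nat.find_spec hex, fun k hk hk' hb => Nat.find_min hex hk' ⟨hk, hb⟩⟩

theorem idx_last (hu : 0 < u) {k : ℕ} (hk : 0 < k) : (u - 1 + (u * (k - 1) + 1)) / u = k := by
  have : u - 1 + (u * (k - 1) + 1) = u * k := by
    obtain ⟨k, rfl⟩ : ∃ l, k = l + 1 := ⟨k - 1, by omega⟩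
    rw [Nat.add_sub_cancel, Nat.mul_succ]
    omega
  rw [this, Nat.mul_div_cancel_left _ hu]

theorem idx_last_mod (hu : 0 < u) {k : ℕ} (hk : 0 < k) : (u - 1 + (u * (k - 1) + 1)) % u = 0 := by
  have : u - 1 + (u * (k - 1) + 1) = u * k := by
    obtain ⟨k, rfl⟩ : ∃ l, k = l + 1 := ⟨k - 1, by omega⟩
    rw [Nat.add_sub_cancel, Nat.mul_succ]
    omega
  rw [this, Nat.mul_mod_right]

/-- **The number of the target side of the magnified sets.** -/
theorem tgtN_blow (hu : 0 < u) (h : StartD P V R m) :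
    tgtN (blow u P) (blow u R) = u * (tgtN P R - 1) + 1 := by
  classical
  obtain ⟨⟨h1, h2⟩, h3⟩ := tgtN_spec h
  have h4 : 0 < u * (tgtN P R - 1) + 1 ∧ BD (blow u P) (side (blow u R)
      (tipS (blow u P) (blow u R)) (u * (tgtN P R - 1) + 1)) := by
    refine ⟨by omega, ?_⟩
    rw [bd_side_tip hu h, idx_last hu h1]
    exact h2
  have hex : ∃ n, 0 < n ∧ BD (blow u P) (side (blow u R) (tipS (blow u P) (blow u R)) n) :=
    ⟨_, h4⟩
  have e : tgtN (blow u P) (blow u R) = Nat.find hex := by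
    unfold tgtN
    rw [dif_pos hex]
  rw [e, Nat.find_eq_iff]
  refine ⟨h4, ?_⟩
  rintro n hn ⟨hn0, hb⟩
  rw [bd_side_tip hu h] at hb
  refine h3 _ ?_ ?_ hb
  · rw [Nat.div_pos_iff]
    omega
  · rw [Nat.div_lt_iff_lt_mul hu]
    obtain ⟨k, hk⟩ : ∃ l, tgtN P R = l + 1 := ⟨tgtN P R - 1, by omega⟩
    rw [hk, Nat.add_sub_cancel] at hn
    rw [hk, Nat.succ_mul, Nat.mul_comm]
    omega

/-- **The target side of the magnified sets** is the first piece of the coarse target side. -/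
theorem tgtS_blow (hu : 0 < u) (h : StartD P V R m) :
    tgtS (blow u P) (blow u R) = subE u (tgtS P R) 0 := by
  have h1 : 0 < tgtN P R := by have := h.one; omega
  unfold tgtS
  rw [tgtN_blow hu h, side_tip_blow hu h, idx_last hu h1, idx_last_mod hu h1]
  rfl

/-- **The start of the magnified sets.** -/
theorem startD_blow (hu : 0 < u) (hF : R.Finite) (hc : Top.EConn R) (he : Esc R)
    (h : StartD P V R m) : StartD (blow u P) (blow u V) (blow u R) (u * m) := by
  classical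
  have hu' : (0 : ℤ) < u := by exact_mod_cast hu
  obtain ⟨⟨h1, h2⟩, h3⟩ := tgtN_spec h
  have hcyc := cyc_blow hu hF hc he h.cyc
  have htip : tipS (blow u P) (blow u R) = side (blow u R) (subE u (tipS P R) 0) (u - 1) := by
    rw [tipS_blow hu h, side_blow hu h.cyc.bd, Nat.div_eq_of_lt (by omega),
      Nat.mod_eq_of_lt (by omega)]
    have : ((u - 1 : ℕ) : ℤ) = (u : ℤ) - 1 := by omega
    rw [this]
    rfl
  have key : ∀ i, i ≤ u * m → (u - 1 + i) / u ≤ m := by
    intro i hi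
    have : (u - 1 + i) / u < m + 1 := by
      rw [Nat.div_lt_iff_lt_mul hu, Nat.succ_mul, Nat.mul_comm]
      omega
    omega
  have key2 : ∀ i, u * (tgtN P R - 1) + 1 ≤ i → tgtN P R ≤ (u - 1 + i) / u := by
    intro i hi
    rw [Nat.le_div_iff_mul_le hu]
    obtain ⟨k, hk⟩ : ∃ l, tgtN P R = l + 1 := ⟨tgtN P R - 1, by omega⟩
    rw [hk, Nat.add_sub_cancel] at hi
    rw [hk, Nat.succ_mul, Nat.mul_comm]
    omega
  have key3 : ∀ i, 0 < i → 0 < (u - 1 + i) / u := by
    intro i hi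
    rw [Nat.div_pos_iff]
    omega
  have key4 : ∀ i, i < u * (tgtN P R - 1) + 1 → (u - 1 + i) / u < tgtN P R := by
    intro i hi
    rw [Nat.div_lt_iff_lt_mul hu]
    obtain ⟨k, hk⟩ : ∃ l, tgtN P R = l + 1 := ⟨tgtN P R - 1, by omega⟩
    rw [hk, Nat.add_sub_cancel] at hi
    rw [hk, Nat.succ_mul, Nat.mul_comm]
    omega
  refine ⟨?_, ?_, ?_, ?_, ?_, ?_, ?_⟩
  · rw [htip]
    exact cyc_shift (blow_finite hu' hF) (econn_blow hu' hc) (Esc.blow hu' he) hcyc _
  · rw [tipS_blow hu h]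
    exact bd_subE hu' h.bd (by omega) (by omega)
  · rw [tgtN_blow hu h]
    have := h.one
    have h5 : 0 < u * (tgtN P R - 1) := Nat.mul_pos hu (by omega)
    omega
  · rw [tgtN_blow hu h]
    have h5 : u * (tgtN P R - 1) + u = u * tgtN P R := by
      obtain ⟨k, hk⟩ : ∃ l, tgtN P R = l + 1 := ⟨tgtN P R - 1, by omega⟩
      rw [hk, Nat.add_sub_cancel, Nat.mul_succ]
    have h6 : u * tgtN P R ≤ u * m := Nat.mul_le_mul_left _ h.le
    omega
  · intro i hi hi'
    rw [tgtN_blow hu h] at hi'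
    show ahead (rv (side (blow u R) (tipS (blow u P) (blow u R)) i)) ∈ blow u V
    rw [side_tip_blow hu h, mem_blow, cl_ahead_rv hu' _ (by omega)
      (by exact_mod_cast Nat.mod_lt _ hu)]
    exact h.mid _ (key3 i hi) (key4 i hi')
  · intro i hi hi'
    rw [tgtN_blow hu h] at hi
    rw [bd_side_tip hu h]
    exact h.lst _ (key2 i hi) (key i hi')
  · intro A' hA'
    obtain ⟨A, hA, rfl⟩ := isTip_blow hu hA'
    rw [h.uniq A hA, tipS_blow hu h]

/-! ### The cells of the true needle -/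

/-- **The cells of the true needle in `C`** are the cells of the coarse needle. -/
theorem vQ_hookU {C : Set (ℤ × ℤ)} {z : ℤ × ℤ} {W : Finset (ℤ × ℤ)} {L : ℕ} {w : ℤ} (hw : 0 < w)
    (hL : L ≤ Ndle.dlt (Hook.fin C) z) {r : ℕ}
    (H : Hook.Pre W (blow w C) (Ndle.ndF w (Hook.fin C) z L) (Ndle.ndA w (Hook.fin C) z)
      (Ndle.ndB w (Hook.fin C) z) r) :
    VQ (blow w C) (Dct.QF (Hook.hookU w L W C z).1) (cl w) = blow w (Hook.ndC L C z) := by
  ext f
  constructor
  · rintro ⟨hf, q, hq, hqf⟩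
    rw [Hook.qF_hookU] at hq
    rcases hq with hq | hq
    · obtain ⟨i, h1, h2, h3⟩ := Ndle.ndF_cell hw hL hq
      rw [mem_blow]
      exact ⟨i, h1, h2, h3.symm.trans hqf⟩
    · exfalso
      refine (H.hkS_sub hq).2.1 ?_
      rw [mem_blow, hqf]
      exact hf
  · rintro ⟨i, h1, h2, h3⟩
    have e : cl w (Ndle.cen w (Ndle.ndc (Hook.fin C) z i)) = Ndle.ndc (Hook.fin C) z i :=
      Ndle.cel_cen hw _
    refine ⟨?_, Ndle.cen w (Ndle.ndc (Hook.fin C) z i), ?_, e.trans h3⟩
    · show cl w f ∈ C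
      rw [show cl w f = Ndle.ndc (Hook.fin C) z i from h3.symm]
      exact Hook.fin_sub (Ndle.ndc_mem h1 (h2.trans hL))
    · rw [Hook.qF_hookU]
      exact Or.inl (Ndle.ndF_cen hw hL h1 h2)

/-- **The magnified first domain.** -/
theorem blow_dom0 {C : Set (ℤ × ℤ)} {z : ℤ × ℤ} {W : Finset (ℤ × ℤ)} {L : ℕ} {w : ℤ} (hw : 0 < w)
    (hL : L ≤ Ndle.dlt (Hook.fin C) z) {r : ℕ}
    (H : Hook.Pre W (blow w C) (Ndle.ndF w (Hook.fin C) z L) (Ndle.ndA w (Hook.fin C) z)
      (Ndle.ndB w (Hook.fin C) z) r) {f : ℤ × ℤ} (hf : cl w f ∈ C \ Hook.ndC L C z) :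
    compT (blow w C \ VQ (blow w C) (Dct.QF (Hook.hookU w L W C z).1) (cl w)) f =
      blow w (compT (C \ Hook.ndC L C z) (cl w f)) := by
  rw [vQ_hookU hw hL H, ← blow_sdiff]
  exact compT_blow hw hf

/-! ### The coarse start -/

section coarse

variable {C : Set (ℤ × ℤ)} {z : ℤ × ℤ} {L : ℕ}

/-- An edge connected set has one component. -/
theorem compT_self {W : Set (ℤ × ℤ)} (hc : Top.EConn W) {f : ℤ × ℤ} (hf : f ∈ W) :
    compT W f = W := by
  refine Set.Subset.antisymm (compT_sub hf) fun g hg => ?_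
  have key : ∀ g, Relation.ReflTransGen (fun a b => AdjF a b ∧ b ∈ W) f g → g ∈ compT W f := by
    intro g h
    induction h with
    | refl => exact ChI.refl _
    | tail _ hs ih => exact compT_step ih hs.1 hs.2
  exact key g (hc f hf g hg)

theorem ndC_sub (hL : L ≤ Ndle.dlt (Hook.fin C) z) : Hook.ndC L C z ⊆ C := by
  rintro f ⟨i, h1, h2, rfl⟩
  exact Hook.fin_sub (Ndle.ndc_mem h1 (h2.trans hL))

theorem adjF_ld {f g : ℤ × ℤ} (h : Ndle.ld g f = 1) : AdjF f g := by
  rw [adjF_iff]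
  obtain ⟨a, b⟩ := f
  obtain ⟨c, d⟩ := g
  unfold Ndle.ld at h
  simp only at h
  rcases abs_cases (c - a) with ⟨h1, h2⟩ | ⟨h1, h2⟩ <;> rcases abs_cases (d - b) with ⟨h3, h4⟩ | ⟨h3, h4⟩ <;>
    simp only [Prod.mk.injEq] <;> omega

/-- The cells of the needle are joined to the first one. -/
theorem ndC_join (hL : L ≤ Ndle.dlt (Hook.fin C) z) {f : ℤ × ℤ} (hf : f ∈ Hook.ndC L C z) :
    JoinIn (Hook.ndC L C z ∩ C) f (Ndle.ndc (Hook.fin C) z 1) := by
  have hmem : ∀ i, 1 ≤ i → i ≤ L → Ndle.ndc (Hook.fin C) z i ∈ Hook.ndC L C z ∩ C := fun i h1 h2 =>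
    ⟨⟨i, h1, h2, rfl⟩, Hook.fin_sub (Ndle.ndc_mem h1 (h2.trans hL))⟩
  obtain ⟨i, h1, h2, rfl⟩ := hf
  induction i, h1 using Nat.le_induction with
  | base => exact Relation.ReflTransGen.refl
  | succ i h1 ih =>
    refine Relation.ReflTransGen.head ⟨?_, hmem i h1 (by omega)⟩ (ih (by omega))
    exact (adjF_ld (Ndle.ndc_adj (by omega))).symm

theorem z_mem (hL : 0 < Ndle.dlt (Hook.fin C) z) : z ∈ C := by
  refine Hook.fin_sub (Ndle.mem_of_lt (z := z) ?_)
  rw [Ndle.sd_self]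
  exact_mod_cast hL

theorem z_notMem (hL : L < Ndle.dlt (Hook.fin C) z) : z ∉ Hook.ndC L C z := by
  rintro ⟨i, h1, h2, h3⟩
  refine Ndle.npt_ne (z := z) (y := Ndle.bse (Hook.fin C) z) (i := i) ?_ h3
  rw [Ndle.sd_bse]
  exact_mod_cast (by omega)

theorem vQ_id (hL : L ≤ Ndle.dlt (Hook.fin C) z) :
    VQ C (Hook.ndC L C z) (fun f => f) = Hook.ndC L C z := by
  ext f
  constructor
  · rintro ⟨-, q, hq, hqf⟩
    have h' : q = f := hqf
    exact h' ▸ hq
  · exact fun hf => ⟨ndC_sub hL hf, f, hf, rfl⟩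

/-- There is a common side of the set and the rest. -/
theorem exists_common (hC : C.Finite) (h2 : 2 ≤ L) (h3 : 3 * L ≤ Ndle.dlt (Hook.fin C) z) :
    ∃ A, BD C A ∧ BD (compT (C \ Hook.ndC L C z) z) A := by
  have hw : (0 : ℤ) < 1 := one_pos
  have hL : L ≤ Ndle.dlt (Hook.fin C) z := by omega
  have e : ((Hook.fin C : Finset (ℤ × ℤ)) : Set (ℤ × ℤ)) = C := by
    ext f
    rw [Finset.mem_coe]
    exact Hook.mem_fin hC
  have hN := ndl_of (m := 1) (C := Hook.fin C) (z := z) (L := L) hw (by omega) hL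
    (H := (∅ : Set (ℤ × ℤ))) (l := (L : ℤ) + 1) (d := 1) one_pos (fun f hf => hf.elim)
    (fun f hf => hf.elim) (by omega) (by omega) (by
      have : (3 * L : ℤ) ≤ Ndle.dlt (Hook.fin C) z := by exact_mod_cast h3
      omega)
  rw [e] at hN
  have hbf : (blow 1 C).Finite := blow_finite hw hC
  obtain ⟨A, h4, h5, -⟩ := hN.exists_com (γ := fun f => f) hbf (fun x y h => by
    have : x = y := h
    subst this
    simp)
  have hb : blow 1 C = C := by
    ext f
    rw [mem_blow]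
    have : cl 1 f = f := by unfold cl; simp
    rw [this]
  have hcen : Ndle.cen 1 z = z := by
    unfold Ndle.cen
    simp
  rw [hb] at h4 h5
  rw [hcen] at h5
  have hV : VQ C ((Ndle.ndF 1 (Hook.fin C) z L : Set (ℤ × ℤ)) ∪ ∅) (fun f => f) =
      Hook.ndC L C z := by
    ext f
    constructor
    · rintro ⟨-, q, hq, hqf⟩
      have hqf' : q = f := hqf
      subst hqf'
      rcases hq with hq | hq
      · obtain ⟨i, h6, h7, h8⟩ := Ndle.ndF_cell hw hL (Finset.mem_coe.1 hq)
        refine ⟨i, h6, h7, ?_⟩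
        rw [← h8]
        unfold Ndle.cel
        simp
      · exact hq.elim
    · rintro ⟨i, h6, h7, rfl⟩
      refine ⟨Hook.fin_sub (Ndle.ndc_mem h6 (h7.trans hL)), _, Or.inl ?_, rfl⟩
      have := Ndle.ndF_cen (m := 1) hw hL h6 h7
      have hc : Ndle.cen 1 (Ndle.ndc (Hook.fin C) z i) = Ndle.ndc (Hook.fin C) z i := by
        unfold Ndle.cen
        simp
      rw [hc] at this
      exact Finset.mem_coe.2 this
  rw [hV] at h5
  exact ⟨A, h4, h5⟩

variable (hC : C.Finite) (cC : Top.EConn C) (eC : Esc C) (h2 : 2 ≤ L)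
  (h3 : 3 * L ≤ Ndle.dlt (Hook.fin C) z)

include hC cC eC h2 h3

/-- **The coarse start**: tip and target of the rest. -/
theorem startD_coarse : ∃ m, StartD C (Hook.ndC L C z) (compT (C \ Hook.ndC L C z) z) m := by
  have hL : L ≤ Ndle.dlt (Hook.fin C) z := by omega
  have e := vQ_id hL
  have h4 := start_dom (P := C) (Q := Hook.ndC L C z) (γ := fun f => f) (f₀ := z)
    (q₀ := Ndle.ndc (Hook.fin C) z 1) (g₀ := Ndle.bse (Hook.fin C) z) hC cC eC
    (fun x y h hx => by have h' : x = y := h; exact h' ▸ hx)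
    (fun x y h => by have h' : x = y := h; subst h'; exact ⟨rfl, Relation.ReflTransGen.refl⟩)
    (fun q hq _ => ndC_join hL hq) ⟨1, le_rfl, by omega, rfl⟩
    (Hook.fin_sub (Ndle.ndc_mem le_rfl (by omega)))
    (fun h => (Ndle.bse_spec (Hook.fin C) z).1 ((Hook.mem_fin hC).2 h))
    (by
      have := adjF_ld (Ndle.ndc_adj (C := Hook.fin C) (z := z) (i := 0) (by omega))
      exact this.symm)
    (by rw [e]; exact ⟨z_mem (by omega), z_notMem (by omega)⟩)
    (by rw [e]; exact exists_common hC h2 h3)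
  rw [e] at h4
  exact h4

omit cC in
/-- The rest is a disc. -/
theorem rest_disc : (compT (C \ Hook.ndC L C z) z).Finite ∧
    Top.EConn (compT (C \ Hook.ndC L C z) z) ∧ Esc (compT (C \ Hook.ndC L C z) z) := by
  have hL : L ≤ Ndle.dlt (Hook.fin C) z := by omega
  have e := vQ_id hL
  have hz : z ∈ C \ Hook.ndC L C z := ⟨z_mem (by omega), z_notMem (by omega)⟩
  have h4 := comp_start (P := C) (Q := Hook.ndC L C z) (γ := fun f => f) (f₀ := z)
    (q₀ := Ndle.ndc (Hook.fin C) z 1) (g₀ := Ndle.bse (Hook.fin C) z) hC eC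
    (fun x y h hx => by have h' : x = y := h; exact h' ▸ hx)
    (fun x y h => by have h' : x = y := h; subst h'; exact ⟨rfl, Relation.ReflTransGen.refl⟩)
    (fun q hq _ => ndC_join hL hq)
    (fun h => (Ndle.bse_spec (Hook.fin C) z).1 ((Hook.mem_fin hC).2 h))
    (by
      have := adjF_ld (Ndle.ndc_adj (C := Hook.fin C) (z := z) (i := 0) (by omega))
      exact this.symm)
    (by rw [e]; exact hz)
  rw [e] at h4
  exact ⟨hC.subset fun f hf => (compT_sub hz hf).1, h4.1, h4.2⟩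

omit hC eC in
/-- The first domain after a needle. -/
theorem dom0_eq {π : Prm} (hπ : π.ndl C z = Hook.ndC L C z) : CSt.dom₀ π C z =
    ⟨compT (C \ Hook.ndC L C z) z, tipS C (compT (C \ Hook.ndC L C z) z),
      tgtS C (compT (C \ Hook.ndC L C z) z)⟩ := by
  unfold CSt.dom₀
  rw [hπ, compT_self cC (z_mem (by omega))]

end coarse

/-- **The contour of the magnified first domain.** `t` = number of the coarse target side. -/
structure StB (u : ℕ) (C N : Set (ℤ × ℤ)) (D : Dom) (t : ℕ) : Prop where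
  fin : D.P.Finite
  con : Top.EConn D.P
  esc : Esc D.P
  one : 1 < t
  le : t ≤ cyl D.P D.A
  cyc : Cyc (blow u D.P) (subE u D.A 0) (u * cyl D.P D.A)
  old0 : ∀ i < u, BD (blow u C) (side (blow u D.P) (subE u D.A 0) i)
  mid : ∀ i, u ≤ i → i < u * t → outF (blow u D.P) (subE u D.A 0) i ∈ blow u N
  old1 : ∀ i, u * t ≤ i → i ≤ u * cyl D.P D.A → BD (blow u C) (side (blow u D.P) (subE u D.A 0) i)
  tgt : side (blow u D.P) (subE u D.A 0) (u * t) = subE u D.B 0

/-- **The first domain after a needle, magnified.** -/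
theorem stB_of {C : Set (ℤ × ℤ)} {z : ℤ × ℤ} {L : ℕ} {π : Prm} (hu : 0 < u) (hC : C.Finite)
    (cC : Top.EConn C) (eC : Esc C) (h2 : 2 ≤ L) (h3 : 3 * L ≤ Ndle.dlt (Hook.fin C) z)
    (hπ : π.ndl C z = Hook.ndC L C z) :
    StB u C (Hook.ndC L C z) (CSt.dom₀ π C z) (tgtN C (compT (C \ Hook.ndC L C z) z)) := by
  have hu' : (0 : ℤ) < u := by exact_mod_cast hu
  obtain ⟨m, h⟩ := startD_coarse hC cC eC h2 h3
  obtain ⟨fR, cR, eR⟩ := rest_disc hC eC h2 h3
  rw [dom0_eq cC h2 h3 hπ]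
  set R := compT (C \ Hook.ndC L C z) z with hR
  have hm : cyl R (tipS C R) = m := h.cyc.cyl
  have h1 := h.one
  refine ⟨fR, cR, eR, h1, by rw [hm]; exact h.le, ?_, ?_, ?_, ?_, ?_⟩
  · rw [hm]
    exact cyc_blow hu fR cR eR h.cyc
  · intro i hi
    show BD (blow u C) (side (blow u R) (subE u (tipS C R) 0) i)
    rw [side_blow hu h.cyc.bd, bd_subE_iff hu' (by omega) (by exact_mod_cast Nat.mod_lt _ hu),
      Nat.div_eq_of_lt hi]
    exact h.bd
  · intro i hi hi'
    show ahead (rv (side (blow u R) (subE u (tipS C R) 0) i)) ∈ blow u (Hook.ndC L C z)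
    rw [side_blow hu h.cyc.bd, mem_blow, cl_ahead_rv hu' _ (by omega)
      (by exact_mod_cast Nat.mod_lt _ hu)]
    refine h.mid _ ?_ ?_
    · rw [Nat.div_pos_iff]
      omega
    · rw [Nat.div_lt_iff_lt_mul hu, Nat.mul_comm]
      exact hi'
  · intro i hi hi'
    rw [hm] at hi'
    show BD (blow u C) (side (blow u R) (subE u (tipS C R) 0) i)
    rw [side_blow hu h.cyc.bd, bd_subE_iff hu' (by omega) (by exact_mod_cast Nat.mod_lt _ hu)]
    refine h.lst _ ?_ ?_
    · rw [Nat.le_div_iff_mul_le hu, Nat.mul_comm]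
      exact hi
    · have : i / u < m + 1 := by
        rw [Nat.div_lt_iff_lt_mul hu, Nat.succ_mul, Nat.mul_comm]
        omega
      omega
  · show side (blow u R) (subE u (tipS C R) 0) (u * tgtN C R) = subE u (tgtS C R) 0
    rw [side_blow hu h.cyc.bd, Nat.mul_div_cancel_left _ hu, Nat.mul_mod_right]
    rfl

/-! ### A face of the needle far from the base -/

/-- **The centre of the last cell of the needle is far from the base.** -/
theorem far_face {C : Finset (ℤ × ℤ)} {z : ℤ × ℤ} {L : ℕ} {w t : ℤ} (hw : 0 < w) (h1 : 1 ≤ L)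
    (hL : L ≤ Ndle.dlt C z) (ht : 2 * t ≤ w * (L - 3)) :
    ∃ f ∈ Ndle.ndF w C z L, ¬ LC.InB (Ndle.ndB w C z) t f := by
  refine ⟨_, Ndle.ndF_cen hw hL h1 le_rfl, fun hin => ?_⟩
  have h2 := Ndle.ndc_le hL
  have h3 := Ndle.sd_triangle (Ndle.bse C z) (Ndle.ndc C z L) z
  rw [Ndle.sd_bse, Ndle.sd_comm (Ndle.bse C z)] at h3
  have h4 : (L : ℤ) - 1 ≤ 2 * Ndle.sd (Ndle.ndc C z L) (Ndle.bse C z) := by omega
  have h5 := Ndle.sd_cell_le hw (f := Ndle.cen w (Ndle.ndc C z L)) (g := Ndle.ndB w C z)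
  have h6 : Ndle.cel w (Ndle.ndB w C z) = Ndle.ndc C z 0 :=
    (Ndle.pthF_start hw (Ndle.ndc_hadj hw hL) (Ndle.ndc_hne hw hL) h1).1
  rw [Ndle.cel_cen hw, h6, Ndle.ndc_zero] at h5
  have h7 : Ndle.sd (Ndle.cen w (Ndle.ndc C z L)) (Ndle.ndB w C z) ≤ t := by
    unfold LC.InB at hin
    unfold Ndle.sd
    refine max_le ?_ ?_ <;> rw [abs_le] <;> omega
  have h8 : w * ((L : ℤ) - 1) ≤ w * (2 * Ndle.sd (Ndle.ndc C z L) (Ndle.bse C z)) :=
    mul_le_mul_of_nonneg_left h4 hw.le
  nlinarith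

end Pool.Agent.SixB.StartB
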