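import Pool.Agent.Lib.SixB.S8StartBox
import Pool.Agent.Lib.SixB.S8StateA

/-!
# Step 8: the invariants of the state without history

`compT_W0`: the initial coarse set has one component. `inv_nil`: `CSt.Inv` for the history `[]`.
`app_comp`: the component of every cell of the initial coarse set is an inner approximation of the
fresh faces of the box.
-/

set_option autoImplicit false

namespace Pool.Agent.SixB.Box0

open Finset Pool.Agent.Perc Pool.Agent.Perc6 Pool.Agent.PercU Pool.Agent.PercX60
open Pool.Agent.SixB Pool.Agent.SixB.Dct Pool.Agent.SixB.Blow Pool.Agent.SixB.Top Pool.Agent.SixB.Mv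

/-- An edge connected set has one component. -/
theorem compT_econn {W : Set (ℤ × ℤ)} (hc : Top.EConn W) {f : ℤ × ℤ} (hf : f ∈ W) :
    compT W f = W := by
  refine Set.Subset.antisymm (compT_sub hf) fun g hg => ?_
  have h := hc f hf g hg
  have key : ∀ g, Relation.ReflTransGen (fun a b => AdjF a b ∧ b ∈ W) f g → g ∈ compT W f := by
    intro g h
    induction h with
    | refl => exact ChI.refl _
    | tail _ hs ih => exact compT_step ih hs.1 hs.2
  exact key g h

theorem compT_W0 {e : ℕ} {f : ℤ × ℤ} (hf : f ∈ W0 e) : compT (W0 e) f = W0 e :=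
  compT_econn (econn_W0 e) hf

/-- The invariant of the coarse state without history. -/
theorem inv_nil (π : Prm) (d : ℕ → ℕ) (e : ℕ) : (cst π d (W0 e) []).Inv where
  fin := W0_finite e
  esc := fun f hf => by
    show Esc (compT (W0 e) f)
    rw [compT_W0 hf]
    exact esc_W0 e
  sep := fun s hs => by cases hs

/-- The stored set without history: the component of every cell is an inner approximation of the
fresh faces of the box. -/
theorem app_comp {n e u r : ℕ} (hu : 2 ≤ u) (hn : n = 2 ^ e * u + r) (hr : 2 * r + 1 < u)
    {f : ℤ × ℤ} (hf : f ∈ W0 e) :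
    App (FU (Box n)) (blow u (compT (W0 e) f)) (cl u) u := by
  rw [compT_W0 hf]
  exact app_FU hu hn hr

end Pool.Agent.SixB.Box0
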