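import Pool.Agent.Lib.SixB.S8InvWC
import Pool.Agent.Lib.SixB.S8PlantOk
import Pool.Agent.Lib.SixB.S8StartBU
import Pool.Agent.Lib.SixB.S8StartBoxW
import Pool.Agent.Lib.SixB.S8FinD

/-!
# Step 8: the stored discs along the chain, the official data

* `HistOK`: the removed sets of the history make no holes and its run numbers are numbers of runs; one
  stage: `HistOK.nx`;
* `WI 𝔇 C`: `StT` and `HistOK` as one invariant (`InvP`), decided by the explored faces (`wI_dec`); one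
  stage: `wI_step`, the first state: `wI_zero` (official data `datC K kap`);
* `PlW.of_pre`: the facts of a planting stage from the conditions on the needle (`Hook.Pre`).
-/

set_option autoImplicit false

namespace Pool.Agent.SixB.Tru

open Finset Pool.Agent.Perc Pool.Agent.PercT Pool.Agent.PercX60 Pool.Agent.Perc6
open Pool.Agent.MP_6bd702.H23 (Ed ea eb)
open Pool.Agent.PercU (vtx)
open Pool.Agent.SixB Pool.Agent.SixB.Rule Pool.Agent.SixB.Dct Pool.Agent.SixB.Mv
open Pool.Agent.SixB.Blow (subE)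
open Pool.Agent.SixB.Top (compT)
open Pool.Agent.Perc.Tips (ahead rv)

variable {𝔇 : Dat} {d : ℕ → ℕ} {n : ℕ} {s : TS} {ω ω' : Cfg} {q : Rule.Ndl} {D : Dom}
  {r : ℤ} {t : ℕ} {x : List Rec} {ρ : Rec}

/-! ### The history -/

/-- The removed sets of the history make no holes, the run numbers are numbers of runs. -/
structure HistOK (𝔇 : Dat) (d : ℕ → ℕ) (x : List Rec) : Prop where
  esc : EscH (𝔇.prm d) d (𝔇.W₀ (d 0)) x
  rok : ∀ ρ y, ρ :: y <:+ x → ∀ D, (𝔇.cs d y).run = some D → (𝔇.cs d y).ini = false →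
    D.RecOk (𝔇.gr d y D) ρ

theorem HistOK.nil : HistOK 𝔇 d [] where
  esc := fun ρ y h => by
    have := h.length_le
    simp at this
  rok := fun ρ y h => by
    have := h.length_le
    simp at this

theorem HistOK.cons (h : HistOK 𝔇 d x)
    (hn : ∀ D, (𝔇.cs d x).run = some D → (𝔇.cs d x).ini = false →
      Esc (D.P \ D.rem (𝔇.gr d x D) ρ) ∧ D.RecOk (𝔇.gr d x D) ρ) : HistOK 𝔇 d (ρ :: x) where
  esc := by
    intro ρ' y hy D hD hi
    rcases List.suffix_cons_iff.1 hy with h1 | h1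
    · rw [List.cons.injEq] at h1
      obtain ⟨rfl, rfl⟩ := h1
      exact (hn D hD hi).1
    · exact h.esc ρ' y h1 D hD hi
  rok := by
    intro ρ' y hy D hD hi
    rcases List.suffix_cons_iff.1 hy with h1 | h1
    · rw [List.cons.injEq] at h1
      obtain ⟨rfl, rfl⟩ := h1
      exact (hn D hD hi).2
    · exact h.rok ρ' y h1 D hD hi

theorem HistOK.of_suffix {y : List Rec} (h : HistOK 𝔇 d x) (hy : y <:+ x) : HistOK 𝔇 d y :=
  ⟨h.esc.of_suffix hy, fun ρ z hz => h.rok ρ z (hz.trans hy)⟩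

/-- The record of a move has the number of a run. -/
theorem MvW.rok (h : MvW 𝔇 d n r s ω q D) :
    D.RecOk (𝔇.gr d s.x D) (mvR 𝔇 d n s q D false ω) := fun hv => (h.reg hv).hρ hv

/-- **The history after one stage.** -/
theorem HistOK.nx (h : StOK 𝔇 d n s) (H : StT 𝔇 d n r s ω) (hx : HistOK 𝔇 d s.x)
    (G : StgW 𝔇 d n r s ω) (hu : 0 < unt d n) : HistOK 𝔇 d (nxS 𝔇 d n s ω).x := by
  cases hq : s.q with
  | some q =>
    obtain ⟨-, hrun⟩ := h.ndl q hq
    obtain ⟨D, hD⟩ := Option.isSome_iff_exists.1 hrun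
    rw [nxS_run_eq hq hD, finS_x]
    refine hx.cons fun D' hD' hi => ?_
    have e : D' = D := by
      rw [hD] at hD'
      exact (Option.some.inj hD').symm
    subst e
    have M := G.move q D' hq hD hi
    rw [hi]
    exact ⟨M.esc hu, M.rok⟩
  | none =>
    have hD := H.nr hq
    rw [nxS_rest hq hD, plS_x]
    refine hx.cons fun D' hD' _ => ?_
    rw [hD] at hD'
    cases hD'

/-! ### The invariant -/

/-- **The stored discs and the history**, as one invariant of the stage `i`. -/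
def WI (𝔇 : Dat) (C : ℤ) : InvP := fun d n i s ω =>
  StT 𝔇 d n (rad C (unt d n) d (i + 1)) s ω ∧ HistOK 𝔇 d s.x

/-- The invariant is decided by the explored faces. -/
theorem wI_dec (𝔇 : Dat) (C : ℤ) : InvDec (WI 𝔇 C) :=
  fun _ _ _ _ _ _ h H => ⟨H.1.congr h, H.2⟩

theorem unt_le_rad {C : ℤ} (hC : 1 ≤ C) (i : ℕ) : (unt d n : ℤ) ≤ rad C (unt d n) d i := by
  have h1 : rad C (unt d n) d 0 ≤ rad C (unt d n) d i :=
    rad_mono (by omega) _ _ (Nat.zero_le _)
  refine le_trans ?_ h1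
  unfold rad
  simp only [range_zero, sum_empty, add_zero, mul_one]
  have : (0 : ℤ) ≤ unt d n := by positivity
  nlinarith

theorem step_nonneg (i : ℕ) : (0 : ℤ) ≤ unt d n * msh d i := by
  have h1 : (0 : ℤ) ≤ msh d i := by
    unfold msh
    positivity
  positivity

/-- **One stage.** -/
theorem wI_step {C : ℤ} {i : ℕ} (hC : 13 ≤ C) (hu : 0 < unt d n)
    (h : WI 𝔇 C d n i (tst 𝔇 d n ω i) ω)
    (G : StgW 𝔇 d n (rad C (unt d n) d (i + 1)) (tst 𝔇 d n ω i) ω) :
    WI 𝔇 C d n (i + 1) (tst 𝔇 d n ω (i + 1)) ω := by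
  refine ⟨?_, ?_⟩
  · have h2 := StT.nx (stOK ω i) h.1 G hu (unt_le_rad (by omega) (i + 1))
    refine StT.mono (s := tst 𝔇 d n ω (i + 1)) h2 ?_
    rw [tst_len, rad_succ C (unt d n) d (i + 1)]
    have := step_nonneg (d := d) (n := n) (i + 1)
    nlinarith
  · exact HistOK.nx (stOK ω i) h.1 h.2 G hu

/-! ### The first state -/

/-- The initial set: the first target is not in it. -/
theorem zero_notMem_W0 (e : ℕ) : ((0 : ℤ), (0 : ℤ)) ∉ Box0.W0 e := by
  rw [Box0.mem_W0]
  simp only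
  omega

theorem zt_datC_zero {K kap : ℕ} : (Cov.datC K kap).zt (d 0) 0 = (0, 0) := by
  show Cov.ztG K (8 * K) (d 0) 0 = (0, 0)
  unfold Cov.ztG Cov.gpt
  simp

theorem not_plant_zero {K kap : ℕ} {L : ℤ} :
    ¬ ((Cov.datC K kap).cs d []).Plant ((Cov.datC K kap).prm d) L := by
  intro h
  have h1 := CSt.erW_subset h.2.1
  have h2 : ((Cov.datC K kap).prm d).zt ((Cov.datC K kap).cs d []).j = (0, 0) :=
    zt_datC_zero (K := K) (kap := kap)
  rw [h2] at h1
  exact zero_notMem_W0 _ h1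

theorem stT_init {K kap r₀ : ℕ} (hu : 2 ≤ unt d n) (hn : n = 2 ^ d 0 * unt d n + r₀)
    (hr : 2 * r₀ + 1 < unt d n) {C : ℤ} (hC : 1 ≤ C) :
    StT (Cov.datC K kap) d n (rad C (unt d n) d 0) ⟨Box n, none, 0, []⟩ ω where
  nr := fun _ => rfl
  inv := Box0.inv_nil _ d (d 0)
  st := by
    have h1 : App (FU (Box n)) (blow (unt d n) (Box0.W0 (d 0))) (Blow.cl (unt d n)) (unt d n) :=
      Box0.app_FU hu hn hr
    exact (StW.of_app h1).mono (unt_le_rad hC 0)

/-- **The first state.** -/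
theorem wI_zero {K kap r₀ : ℕ} (hu : 2 ≤ unt d n) (hn : n = 2 ^ d 0 * unt d n + r₀)
    (hr : 2 * r₀ + 1 < unt d n) {C : ℤ} (hC : 13 ≤ C) :
    WI (Cov.datC K kap) C d n 0 (tst (Cov.datC K kap) d n ω 0) ω := by
  have h0 : StT (Cov.datC K kap) d n (rad C (unt d n) d 0) ⟨Box n, none, 0, []⟩ ω :=
    stT_init hu hn hr (by omega)
  have g0 : StgW (Cov.datC K kap) d n (rad C (unt d n) d 0) ⟨Box n, none, 0, []⟩ ω :=
    ⟨fun _ hp => absurd hp not_plant_zero, fun q D hq => by cases hq⟩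
  refine ⟨?_, HistOK.nx StOK.init h0 HistOK.nil g0 (by omega)⟩
  exact stT_tst (k := 0) hC (by omega) h0 g0 fun i hi => absurd hi (Nat.not_lt_zero i)

/-! ### The planting stage -/

/-- **The facts of a planting stage**, official data: from the conditions on the true needle. -/
theorem PlW.of_pre {K kap r₀ : ℕ} (H : StT (Cov.datC K kap) d n r s ω)
    (hK : 1 ≤ Hook.ndL K (d 0)) (hu : 0 < unt d n)
    (hp : ((Cov.datC K kap).cs d s.x).Plant ((Cov.datC K kap).prm d) (msh d s.x.length))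
    (hq : (plS (Cov.datC K kap) d n s).q = some (nxQ (Cov.datC K kap) d n s))
    (hP : Hook.Pre s.V (blow (unt d n : ℤ) ((Cov.datC K kap).disc d s.x))
      (Ndle.ndF (unt d n : ℤ) (Hook.fin ((Cov.datC K kap).disc d s.x))
        ((Cov.datC K kap).zt (d 0) ((Cov.datC K kap).cs d s.x).j) (Hook.ndL K (d 0)))
      (Ndle.ndA (unt d n : ℤ) (Hook.fin ((Cov.datC K kap).disc d s.x))
        ((Cov.datC K kap).zt (d 0) ((Cov.datC K kap).cs d s.x).j))
      (Ndle.ndB (unt d n : ℤ) (Hook.fin ((Cov.datC K kap).disc d s.x))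
        ((Cov.datC K kap).zt (d 0) ((Cov.datC K kap).cs d s.x).j)) r₀) :
    PlW (Cov.datC K kap) d n s where
  ndl := (H.inv.plant (clr_prmC hK) (msh_pos d _) hp.2.1 hp.2.2.1).1
  plc := hq
  cel := by
    have h1 : 3 * Hook.ndL K (d 0) ≤ Ndle.dlt (toF ((Cov.datC K kap).disc d s.x))
        ((Cov.datC K kap).zt (d 0) ((Cov.datC K kap).cs d s.x).j) := hp.2.2.1
    have h2 := StartB.vQ_hookU (C := (Cov.datC K kap).disc d s.x)
      (z := (Cov.datC K kap).zt (d 0) ((Cov.datC K kap).cs d s.x).j) (W := s.V)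
      (L := Hook.ndL K (d 0)) (w := (unt d n : ℤ)) (by exact_mod_cast hu)
      (by rw [← toF_eq]; omega) hP
    have e1 : Hook.ndC (Hook.ndL K (d 0)) ((Cov.datC K kap).disc d s.x)
        ((Cov.datC K kap).zt (d 0) ((Cov.datC K kap).cs d s.x).j) =
        (Cov.datC K kap).ndl (d 0) ((Cov.datC K kap).disc d s.x)
          ((Cov.datC K kap).zt (d 0) ((Cov.datC K kap).cs d s.x).j) := by
      ext f
      constructor
      · rintro ⟨i, h3, h4, h5⟩
        exact ⟨i, h3, h4, h5.symm⟩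
      · rintro ⟨i, h3, h4, h5⟩
        exact ⟨i, h3, h4, h5.symm⟩
    rw [← e1]
    exact h2

end Pool.Agent.SixB.Tru
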