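import Pool.Agent.Lib.SixB.S8InvS
import Pool.Agent.Lib.SixB.S8InvM
import Pool.Agent.Lib.SixB.S8Nbh
import Pool.Agent.Lib.SixB.S8InvWD

/-!
# Step 8, START: the inputs of the row `rare` at the entrance stage

* `nbh_of_ent`, `nbI_of_ent`: the neighbourhood of the tip at the entrance stage (`NbI`);
* `GdP.app_ent`: the disc of the needle is an approximation of the fresh faces;
* `GdP.ent`, `GdP.nbI`: the input `ent` of `RareIn` (running stages), and `NbI`.
-/

set_option autoImplicit false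

namespace Pool.Agent.SixB.StS

open Finset Pool.Agent.Perc Pool.Agent.Perc6 Pool.Agent.PercT Pool.Agent.Perc6.C2Aux
open Pool.Agent.Perc.Tips Pool.Agent.PercU Pool.Agent.PercX60
open Pool.Agent.MP_6bd702.H23 (Ed ea eb)
open Pool.Agent.SixB Pool.Agent.SixB.Top Pool.Agent.SixB.Mv
open Pool.Agent.SixB.Rule Pool.Agent.SixB.Dct Pool.Agent.SixB.Hook
open Pool.Agent.SixB.Blow (subE)
open Pool.Agent.SixB.Ndle (dlt cen)
open Pool.Agent.SixB.Tru

variable {n L : ℕ} {V : Finset (ℤ × ℤ)} {T₀ : Finset Edg} {w : ℤ} {κ : ℤ × ℤ → ℤ × ℤ}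
  {𝔇 : Dat} {d : ℕ → ℕ} {i : ℕ} {ω : Cfg} {x : List Rec} {q : Rule.Ndl} {D : Dom} {r : ℤ}

/-- **The neighbourhood of the tip at the entrance stage**, with free numbers. -/
theorem nbh_of_ent (E : EntS 𝔇 d n ω i V x q D)
    (hhk : 𝔇.hook n d V (𝔇.disc d x) (𝔇.tgt d x) =
      hookU (unt d n) L V (𝔇.disc d x) (𝔇.tgt d x))
    (hnd : (𝔇.prm d).ndl (𝔇.disc d x) (𝔇.tgt d x) = ndC L (𝔇.disc d x) (𝔇.tgt d x))
    (hI : Rule.Inv n T₀ V) (hJ : (𝔇.cs d x).Inv)
    (h3 : 3 * L ≤ dlt (fin (𝔇.disc d x)) (𝔇.tgt d x)) (hu : 0 < unt d n)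
    (A : App (FU V) (blow (unt d n) (𝔇.disc d x)) κ w) (huw : (unt d n : ℤ) ≤ w)
    (hfar : 2 * (2 * (4 * w + 6 * unt d n + 8) + 6 * unt d n) ≤ unt d n * ((L : ℤ) - 3))
    (hR : 16 * w + 38 * unt d n + 11 ≤ r) : Nbh d n r (tst 𝔇 d n ω (i + 1)) ω q D := by
  have hdisc := E.disc
  obtain ⟨f1, f2, f3⟩ : (𝔇.disc d x).Finite ∧ Top.EConn (𝔇.disc d x) ∧ Esc (𝔇.disc d x) := by
    rw [hdisc]
    exact CSt.esc_cmp (π := 𝔇.prm d) hJ (msh_pos d i) E.mem
  obtain ⟨k₀, hN, hk₀⟩ := E.ndf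
  have hqe : q = hookU (unt d n) L V (𝔇.disc d x) (𝔇.tgt d x) := E.hk.trans hhk
  have hDe := E.dom
  have hok := E.ok
  have hndl := E.ndl
  have hst := E.st'
  clear E
  subst hqe hDe
  obtain ⟨S, m, x', κ', j₁, j₂, i₂, F⟩ := exists_fine (π := 𝔇.prm d) hu f1 f2 f3 h3 hnd hok A huw hI hN
    hfar (R := r - 1) (by omega)
  obtain ⟨k, hS⟩ := F.st
  have hE := Sx.entS_staT hI hndl ⟨k₀, hN, hk₀⟩ F.cQ F.nA F.cen hS F.memB
    ((∅, 0) :: (∅, 0) :: x) ω
  rw [← hst] at hE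
  obtain ⟨s, hs⟩ : ∃ s, s = tst 𝔇 d n ω (i + 1) := ⟨_, rfl⟩
  rw [← hs] at hE ⊢
  have e1 : fa (pS s.V (hookU (unt d n) L V (𝔇.disc d x) (𝔇.tgt d x)) ω s.t) = ahead S := by
    rw [hE.tip]
    exact StU.fa_can hS.par
  exact nbh_of_chain (T := tD (unt d n) L V (𝔇.disc d x) (𝔇.tgt d x)) hE.dom.symm.le
    (by rw [e1]; exact F.tipc.1) (by rw [e1]; exact F.tipc.2) (by omega)

section Row

open Pool.Agent.SixB.Cov (datC)

/-- The numbers of START. -/
theorem num_ent {C C₁ : ℤ} {K kap N : ℕ} (E : EntS (datC K kap) d n ω i V x q D)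
    (hC₁ : 1 ≤ C₁) (hC : 16 * C₁ + 48 ≤ C) (hK : 0 < K) (hd : Sc.Dec d N) (hiN : i + 1 ≤ N)
    (hl : (K : ℤ) * (32 * C₁ + 80) ≤ 2 ^ d N) (hn : 2 ^ d 0 ≤ n) :
    (unt d n : ℤ) ≤ rad C₁ (unt d n) d (i + 1) ∧
    2 * (2 * (4 * rad C₁ (unt d n) d (i + 1) + 6 * unt d n + 8) + 6 * unt d n) ≤
      unt d n * ((Hook.ndL K (d 0) : ℤ) - 3) ∧
    16 * rad C₁ (unt d n) d (i + 1) + 38 * unt d n + 11 ≤ rad C (unt d n) d (i + 2) := by
  have hu : 0 < unt d n := by exact_mod_cast InvN.unt_pos hn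
  have hu' : (0 : ℤ) < unt d n := by exact_mod_cast hu
  have hS1 : 0 ≤ ∑ j ∈ Finset.range (i + 1), msh d j := by
    have := InvN.sms_nonneg (d := d) (k := i + 1)
    unfold InvN.sms at this
    exact this
  have hrad : ∀ c : ℤ, rad c (unt d n) d (i + 1) =
      c * (unt d n * (1 + ∑ j ∈ Finset.range (i + 1), msh d j)) := fun c => by
    unfold rad
    ring
  have h1 : (unt d n : ℤ) ≤ unt d n * (1 + ∑ j ∈ Finset.range (i + 1), msh d j) := by nlinarith
  have h0 : (unt d n : ℤ) ≤ rad C₁ (unt d n) d (i + 1) := by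
    rw [hrad]
    nlinarith
  have hnum := StNum.start_num hC₁ hK hd hiN hl hn h0 le_rfl
    (by exact_mod_cast E.act : 3 * (Hook.ndL K (d 0) : ℤ) ≤
      (dlt (fin ((datC K kap).disc d x)) ((datC K kap).tgt d x) : ℤ)) rfl rfl rfl rfl rfl
  refine ⟨h0, ?_, ?_⟩
  · have := hnum.ρc2
    omega
  · have hm := msh_pos d (i + 1)
    have h2 : rad C (unt d n) d (i + 1) + 1 ≤ rad C (unt d n) d (i + 2) := by
      rw [rad_succ C (unt d n) d (i + 1)]
      have h4 : 1 * (1 * 1) ≤ C * (unt d n * msh d (i + 1)) := by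
        have h5 : (1 : ℤ) * 1 ≤ unt d n * msh d (i + 1) :=
          mul_le_mul (by omega) (by omega) (by norm_num) hu'.le
        exact mul_le_mul (by omega) h5 (by norm_num) (by omega)
      omega
    refine le_trans ?_ h2
    rw [hrad, hrad]
    have h3 : (16 * C₁ + 48) * (unt d n * (1 + ∑ j ∈ Finset.range (i + 1), msh d j)) ≤
        C * (unt d n * (1 + ∑ j ∈ Finset.range (i + 1), msh d j)) :=
      mul_le_mul_of_nonneg_right hC (by positivity)
    nlinarith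

/-- **`NbI` at the entrance stage.** -/
theorem nbI_of_ent {C C₁ : ℤ} {K kap N : ℕ} (E : EntS (datC K kap) d n ω i V x q D)
    (hC₁ : 1 ≤ C₁) (hC : 16 * C₁ + 48 ≤ C) (hK : 0 < K) (hd : Sc.Dec d N) (hiN : i + 1 ≤ N)
    (hl : (K : ℤ) * (32 * C₁ + 80) ≤ 2 ^ d N) (hn : 2 ^ d 0 ≤ n)
    (hI : Rule.Inv n T₀ V) (hJ : ((datC K kap).cs d x).Inv)
    (A : App (FU V) (blow (unt d n) ((datC K kap).disc d x)) κ (rad C₁ (unt d n) d (i + 1))) :
    NbI C (datC K kap) d n (i + 1) (tst (datC K kap) d n ω (i + 1)) ω := by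
  have hu : 0 < unt d n := by exact_mod_cast InvN.unt_pos hn
  obtain ⟨h0, h1, h2⟩ := num_ent E hC₁ hC hK hd hiN hl hn
  have hnb := nbh_of_ent (L := Hook.ndL K (d 0)) E rfl (datC_ndl K kap d _ _) hI hJ E.act hu A h0 h1 h2
  intro q' D' hq' hD' _
  have e1 := E.st'
  have e2 := congrArg CSt.run E.co'
  have hxl : (tst (datC K kap) d n ω (i + 1)).x.length = i + 2 := by
    rw [e1]
    simp [E.len]
  have hq1 : q' = q := by
    rw [e1] at hq'
    exact (Option.some.inj hq').symm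
  have hD1 : D' = D := by
    rw [e1] at hD'
    exact Option.some.inj (hD'.symm.trans e2)
  subst hq1 hD1
  rw [hxl]
  exact hnb

variable {C c₀ C₁ : ℤ} {K kap a : ℕ} {J : InvP} {G : ℕ → ℕ → ℕ} {N₁ : (ℕ → ℕ) → ℕ} {Y Z : EvF}

/-- The disc of the needle is an approximation of the fresh faces. -/
theorem app_ent (E : EntS 𝔇 d n ω i V x q D) (hu : 0 < unt d n)
    (hst : StT 𝔇 d n (rad C₁ (unt d n) d (i + 1)) (TruR.ts 𝔇 d n ω i) ω)
    (hfr : blow (unt d n : ℤ) (𝔇.disc d x) ⊆ FU V) :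
    (𝔇.cs d x).Inv ∧ ∃ κ : ℤ × ℤ → ℤ × ℤ, App (FU V) (blow (unt d n) (𝔇.disc d x)) κ
      (rad (C₁ + 12) (unt d n) d (i + 1)) := by
  have hu' : (0 : ℤ) < unt d n := by exact_mod_cast hu
  have e1 := E.V0
  have e2 := E.x0
  have e3 := E.len
  refine ⟨e2 ▸ hst.inv, ?_⟩
  obtain ⟨κ, hκ⟩ := hst.app_disc E.q0 hu
    (by rw [e2, e3]; exact E.mem) (by rw [e1, e2]; exact hfr)
  rw [e1, e2, e3] at hκ
  refine ⟨κ, hκ.mono ?_⟩
  have hS1 : 0 ≤ ∑ j ∈ Finset.range i, msh d j := by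
    have := InvN.sms_nonneg (d := d) (k := i)
    unfold InvN.sms at this
    exact this
  have hm := msh_pos d i
  have hsum : ∑ j ∈ Finset.range (i + 1), msh d j = ∑ j ∈ Finset.range i, msh d j + msh d i :=
    Finset.sum_range_succ _ _
  have h4 : (unt d n : ℤ) * msh d i + 1 ≤
      unt d n * (1 + ∑ j ∈ Finset.range (i + 1), msh d j) := by
    rw [hsum]
    nlinarith
  have h5 : rad (C₁ + 12) (unt d n) d (i + 1) = rad C₁ (unt d n) d (i + 1) +
      12 * (unt d n * (1 + ∑ j ∈ Finset.range (i + 1), msh d j)) := by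
    unfold rad
    ring
  have h6 : 0 ≤ (unt d n : ℤ) * msh d i := by positivity
  omega

/-- The radii of the earlier stages are small against the present mesh. -/
theorem rad_le_one {C : ℤ} {u a i : ℕ} {d : ℕ → ℕ} (hi : 1 ≤ i) (hC : 0 ≤ C) (ha : 3 * C ≤ 2 ^ a)
    (hd : ∀ l ≤ i, d (l + 1) + a ≤ d l) (h1 : 1 ≤ a) : rad C u d i ≤ rad 1 u d (i + 1) := by
  obtain ⟨k, rfl⟩ : ∃ k, i = k + 1 := ⟨i - 1, by omega⟩
  have anti : ∀ l ≤ k + 1, d l ≤ d 0 := by
    intro l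
    induction l with
    | zero => exact fun _ => le_rfl
    | succ l ih =>
      intro hl
      have := hd l (by omega)
      have := ih (by omega)
      omega
  have h2 : InvN.sms d (k + 1) + 1 ≤ 2 * msh d k :=
    InvN.sms_le (fun j hj => by have := hd j (by omega); omega) (fun j hj => anti j (by omega))
      (Nat.succ_pos k)
  have h3 : 0 ≤ InvN.sms d (k + 1) := InvN.sms_nonneg
  have h4 : (2 : ℤ) ^ a * msh d k ≤ msh d (k + 1) := by
    have h5 := hd k (by omega)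
    have h6 := anti k (by omega)
    unfold msh
    rw [← pow_add]
    exact pow_le_pow_right₀ (by norm_num) (by omega)
  have hm := msh_pos d k
  have e1 : rad C u d (k + 1) = u * (C * (InvN.sms d (k + 1) + 1)) := by
    unfold rad InvN.sms
    ring
  have e2 : rad 1 u d (k + 1 + 1) = u * (InvN.sms d (k + 1) + 1 + msh d (k + 1)) := by
    unfold rad InvN.sms
    rw [sum_range_succ]
    ring
  rw [e1, e2]
  refine mul_le_mul_of_nonneg_left ?_ (by positivity)
  have h7 : C * (InvN.sms d (k + 1) + 1) ≤ C * (2 * msh d k) := mul_le_mul_of_nonneg_left h2 hC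
  have h8 : 3 * C * msh d k ≤ 2 ^ a * msh d k := mul_le_mul_of_nonneg_right ha hm.le
  have h9 : 0 ≤ C * msh d k := mul_nonneg hC hm.le
  nlinarith

/-- What START needs from the invariant and from the events. `hst`: the stored part of the invariant,
`hfr`: the faces of the disc are fresh when the needle is placed. -/
structure StIn (C c₀ : ℤ) (K kap a : ℕ) (J : InvP) (G : ℕ → ℕ → ℕ) (N₁ : (ℕ → ℕ) → ℕ)
    (Y Z : EvF) : Prop where
  hC : 256 ≤ C
  hK : 0 < K
  haC : 16 * (9 * C + 6) ≤ 2 ^ a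
  haK : (K : ℤ) * (32 * 13 + 80) ≤ 2 ^ a
  hG : ∀ i e, e + a ≤ G i e
  hN : ∀ d, 2 ^ d 0 ≤ N₁ d
  hst : ∀ {d n i s ω}, J d n i s ω → StT (datC K kap) d n (rad C (unt d n) d (i + 1)) s ω
  hfr : ∀ {d n i ω V x q D},
    GdP (InvA C c₀ K J (datC K kap)) (datC K kap) (NumC G N₁) (YA (datC K kap) C Y)
      (ZA (datC K kap) c₀ Z) d n (i + 1) ω →
    EntS (datC K kap) d n ω i V x q D → blow (unt d n : ℤ) ((datC K kap).disc d x) ⊆ FU V

variable (H : StIn C c₀ K kap a J G N₁ Y Z)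
  (h : GdP (InvA C c₀ K J (datC K kap)) (datC K kap) (NumC G N₁) (YA (datC K kap) C Y)
      (ZA (datC K kap) c₀ Z) d n (i + 1) ω)

include H

theorem StIn.a1 : 1 ≤ a := by
  rcases Nat.eq_zero_or_pos a with h1 | h1
  · have h2 := H.haC
    have h3 := H.hC
    rw [h1, pow_zero] at h2
    omega
  · exact h1

include h

theorem StIn.big : 2 ^ d 0 ≤ n := (H.hN d).trans h.num.2

theorem StIn.dec : Sc.Dec d (i + 1) := fun l hl => by
  have h1 := h.num.1 l (by omega)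
  have h2 := H.hG l (d (l + 1))
  have h3 := H.a1
  omega

theorem StIn.pow : (K : ℤ) * (32 * (1 + 12) + 80) ≤ 2 ^ d (i + 1) := by
  rw [show (32 * (1 + 12) + 80 : ℤ) = 32 * 13 + 80 by norm_num]
  have h1 := h.num.1 (i + 1) (by omega)
  have h2 := H.hG (i + 1) (d (i + 1 + 1))
  exact H.haK.trans (pow_le_pow_right₀ (by norm_num) (by omega))

/-- The stored part before the placing stage. -/
theorem StIn.stT (E : EntS (datC K kap) d n ω i V x q D) :
    StT (datC K kap) d n (rad 1 (unt d n) d (i + 1)) (TruR.ts (datC K kap) d n ω i) ω := by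
  cases i with
  | zero =>
    exfalso
    have hx : x = [] := E.x0.symm
    have hlt := E.lt
    have hmem := E.mem
    have hact := E.act
    have hok := E.ok
    rw [E.dom] at hok
    rw [E.disc] at hact hok
    rw [hx] at hlt hmem hact hok
    exact not_plant_zero (d := d) (K := K) (kap := kap) (L := msh d 0) ⟨hlt, hmem, hact, hok⟩
  | succ k =>
    have h1 := H.hst (h.inv (l := k) (by omega)).2.2.2.2
    have hC := H.hC
    have ha := H.haC
    exact h1.mono (rad_le_one (a := a) (by omega) (by omega) (by omega) (fun l hl => by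
      have h2 := h.num.1 l (by omega)
      have h3 := H.hG l (d (l + 1))
      omega) H.a1)

theorem StIn.app (E : EntS (datC K kap) d n ω i V x q D) :
    ((datC K kap).cs d x).Inv ∧ ∃ κ : ℤ × ℤ → ℤ × ℤ,
      App (FU V) (blow (unt d n) ((datC K kap).disc d x)) κ (rad (1 + 12) (unt d n) d (i + 1)) :=
  app_ent E (by exact_mod_cast InvN.unt_pos (H.big h)) (H.stT h E) (H.hfr h E)

/-- **The entrance of the strand**: the running stages. -/
theorem StIn.runVI (E : EntS (datC K kap) d n ω i V x q D) :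
    RunVI C (datC K kap) d n (i + 1) (tst (datC K kap) d n ω (i + 1)) ω := by
  obtain ⟨h1, κ, h2⟩ := H.app h E
  have h4 := H.hC
  have h5 := inv_ts (datC K kap) d n ω i
  rw [E.V0] at h5
  exact invV_of_ent E (C₁ := 1 + 12) (by norm_num) (by omega) H.hK (H.dec h) le_rfl (H.pow h) (H.big h)
    h5 h1 h2

/-- **The entrance of the strand**: the neighbourhood of the tip. -/
theorem StIn.nbI (E : EntS (datC K kap) d n ω i V x q D) :
    NbI C (datC K kap) d n (i + 1) (tst (datC K kap) d n ω (i + 1)) ω := by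
  obtain ⟨h1, κ, h2⟩ := H.app h E
  have h4 := H.hC
  have h5 := inv_ts (datC K kap) d n ω i
  rw [E.V0] at h5
  exact nbI_of_ent E (C₁ := 1 + 12) (by norm_num) (by omega) H.hK (H.dec h) le_rfl (H.pow h) (H.big h)
    h5 h1 h2

end Row

end Pool.Agent.SixB.StS
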