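import Pool.Agent.Lib.SixB.S8RareP
import Pool.Agent.Lib.SixB.S8InvSn

/-!
# Step 8: the row `rare` with START

* `stIn_of`: the inputs of START;
* `BasIn`: the base of a new needle is near the coarse target side;
* `rowRare_of_kept`: **the row `rare`** from `SmY` for the event `YK` and `BasIn`.
-/

set_option autoImplicit false

namespace Pool.Agent.SixB.Tru

open Filter Finset Topology Pool.Agent.Perc Pool.Agent.PercT Pool.Agent.PercX60 Pool.Agent.PercD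
open Pool.Agent.SixB Pool.Agent.SixB.Rule Pool.Agent.SixB.Dct Pool.Agent.SixB.Mv
open Pool.Agent.SixB.TruR (ts)

variable {K kap a : ℕ} {C : ℤ} {G : ℕ → ℕ → ℕ} {Y Z : EvF} {d : ℕ → ℕ} {n i : ℕ} {ω : Cfg}

/-- The inputs of START. -/
theorem stIn_of (hC : 256 ≤ C) (hK : 0 < K) (ha : 16 * (9 * C + 6) ≤ 2 ^ a)
    (haK : 512 * K ≤ 2 ^ a) (hG : ∀ i e, e + a ≤ G i e)
    (hYK : ∀ d n l ω, ω ∈ YK (Cov.datC K kap) d n l → ω ∈ Y d n l) :
    StS.StIn C 13 K kap a (JI C (Cov.datC K kap)) G N1 Y Z where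
  hC := hC
  hK := hK
  haC := ha
  haK := by
    have h1 : ((512 * K : ℕ) : ℤ) ≤ ((2 ^ a : ℕ) : ℤ) := by exact_mod_cast haK
    push_cast at h1
    linarith
  hG := hG
  hN d := Nat.le_mul_of_pos_right _ (by positivity)
  hst h := h.1.1
  hfr h hE := kept_ent hYK h hE

/-- **The base of a new needle is near the coarse target side.** -/
def BasIn (K kap : ℕ) (C : ℤ) (G : ℕ → ℕ → ℕ) (Y Z : EvF) : Prop :=
  ∀ {d n i ω V x q D}, GdC K kap C G Y Z d n (i + 1) ω →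
    blow (unt d n : ℤ) ((Cov.datC K kap).disc d x) ⊆ FU V →
    EntS (Cov.datC K kap) d n ω i V x q D →
    BasI C (Cov.datC K kap) d n (i + 1) (tst (Cov.datC K kap) d n ω (i + 1)) ω

/-- **The entrance of the strand.** -/
theorem entIn_of (hC : 256 ≤ C) (hK : 0 < K) (ha : 16 * (9 * C + 6) ≤ 2 ^ a)
    (haK : 512 * K ≤ 2 ^ a) (hG : ∀ i e, e + a ≤ G i e)
    (hYK : ∀ d n l ω, ω ∈ YK (Cov.datC K kap) d n l → ω ∈ Y d n l)
    (hB : BasIn K kap C G Y Z) : EntIn K kap C G Y Z := fun h hf hE =>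
  ⟨(stIn_of hC hK ha haK hG hYK).runVI h hE, hB h hf hE, (stIn_of hC hK ha haK hG hYK).nbI h hE⟩

/-- **The row `rare`.** -/
theorem rowRare_of_kept (hC : 256 ≤ C) (hK : 0 < K) (ha : 16 * (9 * C + 6) ≤ 2 ^ a)
    (haK : 512 * K ≤ 2 ^ a) (ha45 : 45 ≤ a) (hG : ∀ i e, e + a ≤ G i e)
    (hB : BasIn K kap C G (YK (Cov.datC K kap)) fun _ _ _ => ∅)
    (hY : SmY G (BdI (IC K kap C) (Cov.datC K kap)) (YK (Cov.datC K kap))) :
    ∃ G' : ℕ → ℕ → ℕ, (∀ i e, G i e ≤ G' i e) ∧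
      ∀ G'' : ℕ → ℕ → ℕ, (∀ i e, G' i e ≤ G'' i e) →
        RowRare (Cov.datC K kap) G'' (BdI (IC K kap C) (Cov.datC K kap)) :=
  rowRare_datC hC hK ha haK ha45 hG (fun _ _ _ _ h => h) smZ_empty hY
    (entIn_of hC hK ha haK hG (fun _ _ _ _ h => h) hB)

end Pool.Agent.SixB.Tru
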