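import Pool.Agent.Lib.SixB.S8CountRowC
import Pool.Agent.Lib.SixB.S8RareR

/-!
# Step 8, number of moves: the row `RowCnt` for the official data
-/

set_option autoImplicit false

namespace Pool.Agent.SixB.CntZ

open Pool.Agent.SixB Pool.Agent.SixB.Tru

variable {K kap : ℕ} {C : ℤ}

/-- **The row `cnt`** for the official data and the official invariant, monotone in `G`. -/
theorem rowCnt_datC (hC : 256 ≤ C) {a : ℕ} (ha : 16 * (9 * C + 6) ≤ 2 ^ a) {G : ℕ → ℕ → ℕ}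
    (hG : ∀ i e, e + a ≤ G i e) : ∃ G' : ℕ → ℕ → ℕ, (∀ i e, G i e ≤ G' i e) ∧
      ∀ G'' : ℕ → ℕ → ℕ, (∀ i e, G' i e ≤ G'' i e) →
        RowCnt (Cov.datC K kap) G'' (BdI (IC K kap C) (Cov.datC K kap)) := by
  obtain ⟨G', h1, h2⟩ := rowCnt (lawInv_datC hC) iC_dec (c₀ := 13) (by norm_num)
    (fun d n i ω hu h => HkI.ndI (K := K) hu h.2.2.2.1) ha hG (rowTst _) (rowGrow _)
  exact ⟨G', h1, fun G'' h3 => RowCnt.mono h3 h2⟩

end Pool.Agent.SixB.CntZ
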