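import Pool.Agent.Lib.SixB.S8CountU
import Pool.Agent.Lib.SixB.S8CountI

/-!
# Step 8, number of moves: the contour of the component with the target is a stack

`B` is the true target side of `U₀` (an exit), `uT t` the component of the unvisited faces at the time
`t` which contains the face at `B`. The contour of `uT t` is numbered from `B`: `pL t` sides, the tip
side `jT t` is the side through which the strand enters `uT t` at the time `th t ≥ t`.

* `Tg`: the data; `Tg.th_spec`, `Tg.jT_spec`;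
* `Tg.stk_right`, `Tg.stk_left`: both parts are stacks (`StkC.Stk`);
* `Tg.strand_nc2`: (D1) with the numbers from the target.
-/

set_option autoImplicit false

namespace Pool.Agent.SixB.Cnt

open Finset Pool.Agent.Perc Pool.Agent.Perc6 Pool.Agent.Perc6.C2Aux Pool.Agent.Perc.Tips
open Pool.Agent.SixB.Top Pool.Agent.SixB.Mv Pool.Agent.SixB.NearCut

variable {ω : Cfg} {e : UE} {n s t T : ℕ} {U U₀ G : Set (ℤ × ℤ)} {A B : UE × Bool} {m : ℕ}

theorem esc_unv (he : Esc U₀) (h0 : fb e ∉ U₀) : Esc (U₀ \ (vs ω e 0 t : Set (ℤ × ℤ))) := by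
  refine he.diff fun f hf => ?_
  obtain ⟨i, -, hi, rfl⟩ := mem_vs.1 (Finset.mem_coe.1 hf)
  have hmem : ∀ k < t, fa (pth ω e k) ∉ U₀ \ (vs ω e 0 t : Set (ℤ × ℤ)) := fun k hk h =>
    h.2 (Finset.mem_coe.2 (fa_mem_vs (Nat.zero_le k) hk))
  have hadj : ∀ a : UE, AdjF (fa a) (fb a) := fun a => ⟨fa_ne_fb a, a, isSide_fa a, isSide_fb a⟩
  refine ⟨fb e, h0, ?_⟩
  induction i with
  | zero => exact Relation.ReflTransGen.single ⟨hadj e, fun h => h0 h.1⟩
  | succ k ih =>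
    refine Relation.ReflTransGen.head (b := fa (pth ω e k)) ⟨?_, hmem k (by omega)⟩
      (ih (by omega) (Finset.mem_coe.2 (fa_mem_vs (Nat.zero_le k) (by omega))))
    have h1 := hadj (pth ω e (k + 1))
    rwa [fb_pth_succ] at h1

theorem per_min (hF : U.Finite) (hA : BD U A) : Per U (Function.minimalPeriod (sc U) A) A := by
  obtain ⟨L, hL, hper⟩ := exists_period hF hA
  have hp : A ∈ Function.periodicPts (sc U) := ⟨L, hL, hper⟩
  refine ⟨Function.minimalPeriod_pos_of_mem_periodicPts hp,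
    Function.isPeriodicPt_minimalPeriod (sc U) A, ?_⟩
  intro i hi j hj hij
  exact Function.iterate_injOn_Iio_minimalPeriod (f := sc U) (x := A) hi hj hij

/-- The exploration of `U₀` from `e` with the target side `B`, up to the time `T`. -/
structure Tg (ω : Cfg) (e : UE) (U₀ : Set (ℤ × ℤ)) (n : ℕ) (B : UE × Bool) (T : ℕ) : Prop where
  bas : Bas ω e U₀ n
  fin : U₀.Finite
  esc : Esc U₀
  conn : EConn U₀
  front : fa e ∈ U₀
  bd : BD U₀ B
  exit : fa B.1 ∉ U₀
  fresh : ahead B ∉ vs ω e 0 T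
  hit : ∃ t₁ ≤ n, fa (pth ω e t₁) = ahead B

/-- The component with the target. -/
def uT (ω : Cfg) (e : UE) (U₀ : Set (ℤ × ℤ)) (B : UE × Bool) (t : ℕ) : Set (ℤ × ℤ) :=
  compT (U₀ \ (vs ω e 0 t : Set (ℤ × ℤ))) (ahead B)

/-- The first time `≥ t` at which the strand enters a face of `uT t`. -/
noncomputable def th (ω : Cfg) (e : UE) (U₀ : Set (ℤ × ℤ)) (B : UE × Bool) (t : ℕ) : ℕ :=
  sInf {l | t ≤ l ∧ fa (pth ω e l) ∈ uT ω e U₀ B t}

/-- The number of sides of the contour of `uT t`. -/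
noncomputable def pL (ω : Cfg) (e : UE) (U₀ : Set (ℤ × ℤ)) (B : UE × Bool) (t : ℕ) : ℕ :=
  Function.minimalPeriod (sc (uT ω e U₀ B t)) B

/-- The number of the tip side. -/
noncomputable def jT (ω : Cfg) (e : UE) (U₀ : Set (ℤ × ℤ)) (B : UE × Bool) (t : ℕ) : ℕ :=
  sInf {j | (side (uT ω e U₀ B t) B j).1 = pth ω e (th ω e U₀ B t)}

theorem Tg.mem (h : Tg ω e U₀ n B T) (ht : t ≤ T) :
    ahead B ∈ U₀ \ (vs ω e 0 t : Set (ℤ × ℤ)) :=
  ⟨h.bd.1, fun h1 => h.fresh (vs_mono le_rfl ht (Finset.mem_coe.1 h1))⟩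

theorem Tg.rm (h : Tg ω e U₀ n B T) (ht : t ≤ T) : Rm ω e U₀ t (uT ω e U₀ B t) :=
  rm_compT (h.mem ht)

theorem Tg.memT (_h : Tg ω e U₀ n B T) (t : ℕ) : ahead B ∈ uT ω e U₀ B t := self_mem_compT

theorem Tg.bdT (h : Tg ω e U₀ n B T) (ht : t ≤ T) : BD (uT ω e U₀ B t) B :=
  ⟨h.memT t, fun h1 => h.bd.2 ((h.rm ht).sub h1)⟩

theorem Tg.finT (h : Tg ω e U₀ n B T) (ht : t ≤ T) : (uT ω e U₀ B t).Finite :=
  h.fin.subset (h.rm ht).sub

theorem Tg.escT (h : Tg ω e U₀ n B T) (ht : t ≤ T) : Esc (uT ω e U₀ B t) :=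
  esc_compT (h.fin.subset Set.sdiff_subset) (esc_unv h.esc h.bas.back) (h.mem ht)

theorem Tg.perT (h : Tg ω e U₀ n B T) (ht : t ≤ T) : Per (uT ω e U₀ B t) (pL ω e U₀ B t) B :=
  per_min (h.finT ht) (h.bdT ht)

theorem uT_anti (hst : s ≤ t) : uT ω e U₀ B t ⊆ uT ω e U₀ B s :=
  compT_mono (Set.sdiff_subset_sdiff_right (Finset.coe_subset.2 (vs_mono le_rfl hst)))

theorem Tg.th_spec (h : Tg ω e U₀ n B T) (ht : t ≤ T) :
    t ≤ th ω e U₀ B t ∧ th ω e U₀ B t ≤ n ∧ fa (pth ω e (th ω e U₀ B t)) ∈ uT ω e U₀ B t ∧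
      fb (pth ω e (th ω e U₀ B t)) ∉ uT ω e U₀ B t ∧
      ∀ l, t ≤ l → l < th ω e U₀ B t → fa (pth ω e l) ∉ uT ω e U₀ B t := by
  obtain ⟨t₁, h1, h2⟩ := h.hit
  have ht1 : t ≤ t₁ := by
    by_contra hno
    exact (h.mem ht).2 (Finset.mem_coe.2 (mem_vs.2 ⟨t₁, Nat.zero_le _, by omega, h2.symm⟩))
  have hne : {l | t ≤ l ∧ fa (pth ω e l) ∈ uT ω e U₀ B t}.Nonempty :=
    ⟨t₁, ht1, by rw [h2]; exact h.memT t⟩
  obtain ⟨h3, h4⟩ : t ≤ th ω e U₀ B t ∧ fa (pth ω e (th ω e U₀ B t)) ∈ uT ω e U₀ B t :=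
    Nat.sInf_mem hne
  have h5 : th ω e U₀ B t ≤ t₁ := Nat.sInf_le ⟨ht1, by rw [h2]; exact h.memT t⟩
  have h6 : ∀ l, t ≤ l → l < th ω e U₀ B t → fa (pth ω e l) ∉ uT ω e U₀ B t := by
    intro l hl1 hl2 hl3
    have : th ω e U₀ B t ≤ l := Nat.sInf_le ⟨hl1, hl3⟩
    omega
  refine ⟨h3, by omega, h4, ?_, h6⟩
  intro h7
  rcases Nat.eq_zero_or_pos (th ω e U₀ B t) with h8 | h8
  · rw [h8] at h7
    exact h.bas.back ((h.rm ht).sub h7)
  · have h9 : fb (pth ω e (th ω e U₀ B t)) = fa (pth ω e (th ω e U₀ B t - 1)) := by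
      rw [← fb_pth_succ, Nat.sub_add_cancel h8]
    rw [h9] at h7
    rcases Nat.eq_or_lt_of_le h3 with h10 | h10
    · exact (h.rm ht).fresh _ h7 (fa_mem_vs (Nat.zero_le _) (by omega))
    · exact h6 _ (by omega) (by omega) h7

/-- `uT t` is also a room at the time `th t`. -/
theorem Tg.rm_th (h : Tg ω e U₀ n B T) (ht : t ≤ T) :
    Rm ω e U₀ (th ω e U₀ B t) (uT ω e U₀ B t) := by
  obtain ⟨h1, -, -, -, h5⟩ := h.th_spec ht
  have hR := h.rm ht
  refine ⟨hR.sub, fun f hf hv => ?_, hR.conn, fun f hf g hfg hg hg' =>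
    vs_mono le_rfl h1 (hR.clo f hf g hfg hg hg')⟩
  obtain ⟨i, -, hi, rfl⟩ := mem_vs.1 hv
  rcases Nat.lt_or_ge i t with h2 | h2
  · exact hR.fresh _ hf (fa_mem_vs (Nat.zero_le _) h2)
  · exact h5 i h2 hi hf

theorem Tg.jT_spec (h : Tg ω e U₀ n B T) (ht : t ≤ T) :
    0 < jT ω e U₀ B t ∧ jT ω e U₀ B t < pL ω e U₀ B t ∧
      (side (uT ω e U₀ B t) B (jT ω e U₀ B t)).1 = pth ω e (th ω e U₀ B t) := by
  obtain ⟨-, -, h3, h4, -⟩ := h.th_spec ht
  obtain ⟨x, hx, hxe⟩ := exists_idx (h.finT ht) (h.rm ht).conn (h.escT ht) (h.bdT ht) (h.perT ht)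
    (a := pth ω e (th ω e U₀ B t)) ⟨⟨_, h3, isSide_fa _⟩, _, h4, isSide_fb _⟩
  have hne : {j | (side (uT ω e U₀ B t) B j).1 = pth ω e (th ω e U₀ B t)}.Nonempty := ⟨x, hxe⟩
  have h5 : (side (uT ω e U₀ B t) B (jT ω e U₀ B t)).1 = pth ω e (th ω e U₀ B t) :=
    Nat.sInf_mem hne
  have h6 : jT ω e U₀ B t ≤ x := Nat.sInf_le hxe
  refine ⟨?_, by omega, h5⟩
  rcases Nat.eq_zero_or_pos (jT ω e U₀ B t) with h7 | h7
  · exfalso
    rw [h7] at h5
    have h8 : B.1 = pth ω e (th ω e U₀ B t) := h5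
    apply h.exit
    rw [h8]
    exact (h.rm ht).sub h3
  · exact h7

/-- **(D1)** with numbers from an arbitrary side `B`: the chain from the tip side `j` is not separated
by the sides of `H`. -/
theorem strand_nc2 (hUf : U.Finite) (cU : EConn U) (he : Esc U) (hB : BD U B) (hm : Per U m B)
    {j : ℕ} (hj : j < m) {s t : ℕ} (hjs : (side U B j).1 = pth ω e s)
    (hanc : Anc ω U (pth ω e s)) (hn : Nb ω e n) (hst : s ≤ t) (htn : t ≤ n)
    (hfs : fa (pth ω e s) ∈ U) {Z H : Set (ℤ × ℤ)} (hZU : Z ⊆ U)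
    (cZ : EConn Z) (htZ : fa (pth ω e t) ∈ Z) (hHU : H ⊆ U) (cH : EConn H)
    (hHv : ∀ l, s ≤ l → l < t → fa (pth ω e l) ∉ H) (hHZ : ∀ f ∈ Z, f ∉ H) {x y z : ℕ}
    (hxy : x < y) (hym : y < m) (hx : inF U B x ∈ H) (hy : inF U B y ∈ H) (hzm : z < m)
    (hz : inF U B z ∈ Z ∨ ∃ l, s ≤ l ∧ l < t ∧ inF U B z = fa (pth ω e l)) :
    (x < j ∧ j < y) ↔ (x < z ∧ z < y) := by
  set A := side U B j with hAdef
  have hA : BD U A := bd_side hB j
  have hmA : Per U m A := hm.shift hB j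
  obtain ⟨Φ, g1, g2, g3, g4⟩ := conn_pot_idx (he.hasPot' hUf) hHU cH hB hm hxy hym hx hy
  have hcst : ∀ l, s ≤ l → l ≤ t → fa (pth ω e l) ∈ U → Cst Φ (fa (pth ω e l)) := by
    intro l hl1 hl2 hlU
    refine g1 _ hlU ?_
    rcases Nat.eq_or_lt_of_le hl2 with rfl | h3
    · exact hHZ _ htZ
    · exact hHv l hl1 h3
  have hval := strand_val hUf cU he hA hmA (hjs ▸ hanc) hn htn hjs hfs hcst
  have hvj : vert U A 0 = vert U B j := rfl
  rw [hvj] at hval
  have hzj : Φ (vert U B z) = Φ (vert U B j) := by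
    rcases hz with hz | ⟨l, hl1, hl2, hl⟩
    · have h3 : Φ (ua (pth ω e t)) = Φ (vert U B z) :=
        Cst.econn cZ (fun f hf => g1 f (hZU hf) (hHZ f hf)) htZ hz (PotB.cor_ua (isSide_fa _))
          (cor_vert z)
      rw [← h3]
      exact hval t hst le_rfl (hZU htZ) _ (PotB.cor_ua (isSide_fa _))
    · have hzU : inF U B z ∈ U := inF_mem hB z
      exact hval l hl1 hl2.le (hl ▸ hzU) _ (hl ▸ cor_vert z)
  have hzH : inF U B z ∉ H := by
    intro h
    rcases hz with hz | ⟨l, hl1, hl2, hl⟩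
    · exact hHZ _ hz h
    · exact hHv l hl1 hl2 (hl ▸ h)
  have hjH : inF U B j ∉ H := by
    have h1 : fa (pth ω e s) = inF U B j := bd_faces hA (by rw [hjs]; exact isSide_fa _) hfs
    rw [← h1]
    rcases Nat.eq_or_lt_of_le hst with rfl | h3
    · exact hHZ _ htZ
    · exact hHv s le_rfl h3
  have key : ∀ i < m, inF U B i ∉ H → ((x < i ∧ i < y) ↔ Φ (vert U B i) ≠ Φ (vert U B 0)) := by
    intro i hi hiH
    have e1 : i ≠ x := fun h => hiH (h ▸ hx)
    have e2 : i ≠ y := fun h => hiH (h ▸ hy)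
    constructor
    · rintro ⟨e3, e4⟩
      exact g3 i e3 e4.le
    · intro e3
      rcases Nat.lt_or_ge x i with e4 | e4
      · refine ⟨e4, ?_⟩
        by_contra e5
        exact e3 (g4 i (by omega) hi.le)
      · exact absurd (g2 i e4) e3
  rw [key j hj hjH, key z hzm hzH, hzj]

/-! ### Births along the contour -/

/-- The birth of a side. -/
noncomputable def bS (ω : Cfg) (e : UE) (U₀ : Set (ℤ × ℤ)) (X : UE × Bool) : ℕ :=
  brt ω e U₀ (ahead (rv X))

theorem Tg.bS_le (h : Tg ω e U₀ n B T) (ht : t ≤ T) (i : ℕ) :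
    bS ω e U₀ (side (uT ω e U₀ B t) B i) ≤ t := by
  unfold bS
  rcases (h.rm ht).outer (bd_side (h.bdT ht) i) with h1 | h1
  · rw [brt_out h1]; exact Nat.zero_le _
  · exact brt_le_of_mem h1

theorem Tg.bS_zero (h : Tg ω e U₀ n B T) : bS ω e U₀ B = 0 := brt_out h.bd.2

/-- the first visit is after the time `th t` if `th t = 0` -/
theorem Tg.bS_th0 (h : Tg ω e U₀ n B T) (ht : t ≤ T) (h0 : th ω e U₀ B t = 0) (i : ℕ) :
    bS ω e U₀ (side (uT ω e U₀ B t) B i) = 0 := by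
  obtain ⟨h1, -⟩ := h.th_spec ht
  have := h.bS_le ht i
  omega

theorem Tg.mono_r (h : Tg ω e U₀ n B T) (ht : t ≤ T) {a b : ℕ} (hab : a ≤ b)
    (hb : b < jT ω e U₀ B t) :
    bS ω e U₀ (side (uT ω e U₀ B t) B a) ≤ bS ω e U₀ (side (uT ω e U₀ B t) B b) := by
  obtain ⟨j1, j2, j3⟩ := h.jT_spec ht
  rcases Nat.eq_zero_or_pos (th ω e U₀ B t) with h0 | h0
  · rw [h.bS_th0 ht h0, h.bS_th0 ht h0]
  rcases Nat.eq_zero_or_pos a with rfl | ha
  · have h1 : bS ω e U₀ (side (uT ω e U₀ B t) B 0) = 0 := h.bS_zero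
    rw [h1]
    exact Nat.zero_le _
  rcases Nat.eq_or_lt_of_le hab with rfl | hab
  · exact le_rfl
  by_contra hno
  push Not at hno
  have h1 := uni (s := bS ω e U₀ (side (uT ω e U₀ B t) B b)) h.bas (h.rm_th ht) h0
    (h.th_spec ht).2.1 (h.bdT ht) (h.perT ht) (x1 := b) (x2 := 0) (y1 := a)
    (y2 := jT ω e U₀ B t) (by omega) (by omega) (by omega) j2 (by omega) (by omega) (by omega)
    (by omega) (by omega) le_rfl (by
      have h1 : brt ω e U₀ (outF (uT ω e U₀ B t) B 0) = 0 := h.bS_zero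
      rw [h1]
      exact Nat.zero_le _) (Or.inl hno) (Or.inr j3)
  omega

theorem Tg.mono_l (h : Tg ω e U₀ n B T) (ht : t ≤ T) {a b : ℕ} (hab : a ≤ b)
    (ha : jT ω e U₀ B t < a) (hb : b ≤ pL ω e U₀ B t) :
    bS ω e U₀ (side (uT ω e U₀ B t) B b) ≤ bS ω e U₀ (side (uT ω e U₀ B t) B a) := by
  obtain ⟨j1, j2, j3⟩ := h.jT_spec ht
  rcases Nat.eq_zero_or_pos (th ω e U₀ B t) with h0 | h0
  · rw [h.bS_th0 ht h0, h.bS_th0 ht h0]
  rcases Nat.eq_or_lt_of_le hb with hb | hb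
  · have h1 : bS ω e U₀ (side (uT ω e U₀ B t) B b) = 0 := by
      rw [hb]
      have h2 : side (uT ω e U₀ B t) B (pL ω e U₀ B t) = B := (h.perT ht).per
      rw [h2]
      exact h.bS_zero
    rw [h1]
    exact Nat.zero_le _
  rcases Nat.eq_or_lt_of_le hab with rfl | hab
  · exact le_rfl
  by_contra hno
  push Not at hno
  have h1 := uni (s := bS ω e U₀ (side (uT ω e U₀ B t) B a)) h.bas (h.rm_th ht) h0
    (h.th_spec ht).2.1 (h.bdT ht) (h.perT ht) (x1 := a) (x2 := 0) (y1 := b)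
    (y2 := jT ω e U₀ B t) (by omega) (by omega) (by omega) j2 (by omega) (by omega) (by omega)
    (by omega) (by omega) le_rfl (by
      have h1 : brt ω e U₀ (outF (uT ω e U₀ B t) B 0) = 0 := h.bS_zero
      rw [h1]
      exact Nat.zero_le _) (Or.inl hno) (Or.inr j3)
  omega

/-- A side with an old birth is a side of the old domain. -/
theorem Tg.bd_old (h : Tg ω e U₀ n B T) (hst : s ≤ t) (ht : t ≤ T) {i : ℕ}
    (hi : bS ω e U₀ (side (uT ω e U₀ B t) B i) ≤ s) :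
    BD (uT ω e U₀ B s) (side (uT ω e U₀ B t) B i) := by
  have hbd := bd_side (h.bdT ht) i
  refine ⟨uT_anti hst hbd.1, fun h1 => ?_⟩
  have h2 := (h.rm (hst.trans ht)).sub h1
  rcases (h.rm ht).outer hbd with h3 | h3
  · exact h3 h2
  · exact (h.rm (hst.trans ht)).fresh _ h1 (mem_vs_of_brt h2 h3 hi)

/-- If the tip side at the time `s` is a side of the later domain then nothing has changed. -/
theorem Tg.same (h : Tg ω e U₀ n B T) (hst : s ≤ t) (ht : t ≤ T)
    (hin : ahead (side (uT ω e U₀ B s) B (jT ω e U₀ B s)) ∈ uT ω e U₀ B t) :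
    jT ω e U₀ B t = jT ω e U₀ B s ∧ pL ω e U₀ B t = pL ω e U₀ B s := by
  have hs : s ≤ T := hst.trans ht
  obtain ⟨s1, s2, s3, s4, s5⟩ := h.th_spec hs
  obtain ⟨-, -, j3⟩ := h.jT_spec hs
  have h1 : fa (pth ω e (th ω e U₀ B s)) = ahead (side (uT ω e U₀ B s) B (jT ω e U₀ B s)) :=
    bd_faces (bd_side (h.bdT hs) _) (by rw [j3]; exact isSide_fa _) s3
  rw [← h1] at hin
  have h2 : t ≤ th ω e U₀ B s := by
    by_contra hno
    exact (h.rm ht).fresh _ hin (fa_mem_vs (Nat.zero_le _) (by omega))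
  have h3 : uT ω e U₀ B t = uT ω e U₀ B s := by
    refine Set.Subset.antisymm (uT_anti hst) ?_
    refine sub_compT (h.rm hs).conn (fun f hf => ⟨(h.rm hs).sub hf, fun hv => ?_⟩) (h.memT s)
    obtain ⟨i, -, hi, rfl⟩ := mem_vs.1 (Finset.mem_coe.1 hv)
    rcases Nat.lt_or_ge i s with h4 | h4
    · exact (h.rm hs).fresh _ hf (fa_mem_vs (Nat.zero_le _) h4)
    · exact s5 i h4 (by omega) hf
  have h4 : th ω e U₀ B t = th ω e U₀ B s := by
    obtain ⟨t1, -, t3, -, t5⟩ := h.th_spec ht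
    rw [h3] at t3 t5
    refine le_antisymm ?_ ?_
    · by_contra hno
      exact t5 _ h2 (by omega) s3
    · by_contra hno
      exact s5 _ (by omega) (by omega) t3
  unfold jT pL
  rw [h3, h4]
  exact ⟨rfl, rfl⟩

/-- The first index with a birth `> s`. -/
private theorem first_new (f : ℕ → ℕ) (L s : ℕ) (hmono : ∀ a b, a ≤ b → b < L → f a ≤ f b) :
    ∃ k ≤ L, (∀ i < k, f i ≤ s) ∧ ∀ i, k ≤ i → i < L → s < f i := by
  classical
  have hex : ∃ k, k = L ∨ s < f k := ⟨L, Or.inl rfl⟩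
  have hspec := Nat.find_spec hex
  have hmin : ∀ i, i < Nat.find hex → ¬ (i = L ∨ s < f i) := fun i hi => Nat.find_min hex hi
  set k := Nat.find hex with hk
  have hkL : k ≤ L := Nat.find_min' hex (Or.inl rfl)
  refine ⟨k, hkL, fun i hi => ?_, fun i hi1 hi2 => ?_⟩
  · have := hmin i hi
    omega
  · rcases hspec with h1 | h1
    · omega
    · exact lt_of_lt_of_le h1 (hmono k i hi1 hi2)

/-- **The part of the contour after the target is a stack.** -/
theorem Tg.stk_right (h : Tg ω e U₀ n B T) :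
    StkC.Stk (bS ω e U₀) (jT ω e U₀ B) (fun t i => side (uT ω e U₀ B t) B i) T where
  birth := fun t ht i _ => h.bS_le ht i
  old := by
    intro s t hst ht
    have hs := hst.trans ht
    obtain ⟨k, hk, h1, h2⟩ := first_new (fun i => bS ω e U₀ (side (uT ω e U₀ B t) B i))
      (jT ω e U₀ B t) s (fun a b hab hb => h.mono_r ht hab hb)
    have hcom : ∀ i < k, side (uT ω e U₀ B t) B i = side (uT ω e U₀ B s) B i := by
      intro i
      induction i with
      | zero => exact fun _ => rfl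
      | succ i ih =>
        intro hi
        have h3 := ih (by omega)
        have h4 := h.bd_old hst ht (h1 (i + 1) hi)
        have h5 := h.bd_old hst ht (h1 i (by omega))
        rw [side_succ] at h4 ⊢
        rw [succ_common (h.finT hs) (h.rm hs).conn (h.escT hs) (uT_anti hst) (h.rm ht).conn h5
          (bd_side (h.bdT ht) i) h4, h3, ← side_succ]
    refine ⟨k, ?_, hcom, h2⟩
    by_contra hno
    push Not at hno
    have h3 := hcom _ hno
    obtain ⟨h4, -⟩ := h.same hst ht (by rw [← h3]; exact (bd_side (h.bdT ht) _).1)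
    omega

/-- **The part of the contour before the target is a stack.** -/
theorem Tg.stk_left (h : Tg ω e U₀ n B T) :
    StkC.Stk (bS ω e U₀) (fun t => pL ω e U₀ B t - jT ω e U₀ B t)
      (fun t i => side (uT ω e U₀ B t) B (pL ω e U₀ B t - i)) T where
  birth := fun t ht i _ => h.bS_le ht _
  old := by
    intro s t hst ht
    have hs := hst.trans ht
    obtain ⟨j1, j2, -⟩ := h.jT_spec ht
    obtain ⟨i1, i2, -⟩ := h.jT_spec hs
    obtain ⟨k, hk, h1, h2⟩ := first_new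
      (fun i => bS ω e U₀ (side (uT ω e U₀ B t) B (pL ω e U₀ B t - i)))
      (pL ω e U₀ B t - jT ω e U₀ B t) s
      (fun a b hab hb => h.mono_l ht (by omega) (by omega) (by omega))
    have hcom : ∀ i < k, side (uT ω e U₀ B t) B (pL ω e U₀ B t - i) =
        side (uT ω e U₀ B s) B (pL ω e U₀ B s - i) := by
      intro i
      induction i with
      | zero =>
        intro _
        rw [Nat.sub_zero, Nat.sub_zero]
        exact (h.perT ht).per.trans (h.perT hs).per.symm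
      | succ i ih =>
        intro hi
        have h3 := ih (by omega)
        have hG1 : pL ω e U₀ B t - i = pL ω e U₀ B t - (i + 1) + 1 := by omega
        -- the index in the old contour
        have hF0 : i < pL ω e U₀ B s := by
          by_contra hno
          rw [show pL ω e U₀ B s - i = 0 by omega] at h3
          have h4 := (h.perT ht).inj (pL ω e U₀ B t - i) (by omega) 0 (by omega)
            (show (sc (uT ω e U₀ B t))^[pL ω e U₀ B t - i] B = (sc (uT ω e U₀ B t))^[0] B from h3)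
          omega
        have hF1 : pL ω e U₀ B s - i = pL ω e U₀ B s - (i + 1) + 1 := by omega
        have h5 := h.bd_old hst ht (h1 (i + 1) hi)
        have h6 := h.bd_old hst ht (h1 i (by omega))
        rw [hG1, side_succ] at h6
        have h7 := succ_common (h.finT hs) (h.rm hs).conn (h.escT hs) (uT_anti hst)
          (h.rm ht).conn h5 (bd_side (h.bdT ht) _) h6
        rw [hG1, hF1, side_succ, side_succ, h7] at h3
        exact sc_inj h5 (bd_side (h.bdT hs) _) h3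
    refine ⟨k, ?_, hcom, h2⟩
    by_contra hno
    push Not at hno
    have h3 := hcom _ hno
    rw [show pL ω e U₀ B s - (pL ω e U₀ B s - jT ω e U₀ B s) = jT ω e U₀ B s by omega] at h3
    obtain ⟨h4, h5⟩ := h.same hst ht (by rw [← h3]; exact (bd_side (h.bdT ht) _).1)
    omega

end Pool.Agent.SixB.Cnt
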