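import Pool.Agent.Lib.SixB.S8WallCnt
import Pool.Agent.Lib.SixB.S8Lay

/-!
# Step 8, count of the moves: classes of the faces outside a fresh set

`G` finite, edge connected and without holes, contained in the fresh faces `FU U \ QF Q`.
* `cor_chain` (B0): the faces outside `G` at a vertex are joined by faces outside `G` at this vertex.
* `conn_chain`: the faces outside `G` at two vertices which are joined by bonds of faces outside `G` are joined.
* `kc_chain`: the faces at two removed sites which are joined by king steps are joined outside `FU U`.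
* `classes` (B1): the faces of a box outside `FU U \ QF Q` are in at most `m + N₀` classes; faces of the same
  class are joined outside `G` in the box of radius `r + 1`.
-/

set_option autoImplicit false

namespace Pool.Agent.SixB.CntV

open Finset Pool.Agent.Perc Pool.Agent.PercU Pool.Agent.PercT Pool.Agent.PercX60
open Pool.Agent.MP_6bd702.H23 (Ed ea eb)
open Pool.Agent.SixB Pool.Agent.SixB.Scan Pool.Agent.SixB.Dct Pool.Agent.SixB.Top
open Pool.Agent.Perc6 Pool.Agent.Perc.Tips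
open Pool.Agent.SixB.Near (Bx)

variable {z : ℤ × ℤ} {r ρ : ℤ} {U : Finset (ℤ × ℤ)} {Q : Finset Edg} {G : Set (ℤ × ℤ)} {m N₀ : ℕ}

/-- Chains in `S` are chains of steps outside of the complement of `S`. -/
theorem chI_of_step {S F : Set (ℤ × ℤ)} (hF : ∀ h, h ∉ F → h ∈ S) {f g : ℤ × ℤ}
    (h : Relation.ReflTransGen (StepC F) f g) : ChI S f g := by
  induction h with
  | refl => exact ChI.refl f
  | tail _ hs ih => exact Relation.ReflTransGen.tail ih ⟨hs.1, hF _ hs.2⟩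

theorem isCor_iff_sq {h v : ℤ × ℤ} : IsCor h v ↔ Sq v h := by
  unfold IsCor Sq
  omega

/-- Every vertex is the right end of a directed unit edge. -/
theorem exists_rg (v : ℤ × ℤ) : ∃ A : UE × Bool, rg A = v := ⟨((v.1, v.2, false), false), rfl⟩

/-- **(B0)** The faces outside `G` at a vertex are joined. -/
theorem cor_chain (hG : G.Finite) (hc : Top.EConn G) (he : Esc G) {f f' v : ℤ × ℤ} (hf : f ∉ G)
    (hf' : f' ∉ G) (hv : IsCor f v) (hv' : IsCor f' v) : ChI {h | h ∉ G ∧ IsCor h v} f f' := by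
  obtain ⟨B, hB⟩ := exists_rg v
  by_cases hA : ∃ A, BD G A ∧ rg A = v
  · obtain ⟨A, hA, rfl⟩ := hA
    have h1 := out_chain hG hc he hA hf hv
    have h2 := out_chain hG hc he hA hf' hv'
    have h3 : ahead (rv A) ∈ {h | h ∉ G ∧ IsCor h (rg A)} :=
      ⟨hA.2, (isCor_rg_iff _ _).2 (Or.inl rfl)⟩
    exact (ChI.symm h3 h1).trans h2
  · push Not at hA
    -- all the faces at `v` are outside
    have key : ∀ h, IsCor h v → h ∉ G := by
      have e0 : ahead (rv B) ∉ G ∨ ahead (rv B) ∈ G := by tauto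
      have s1 : ahead (rv B) ∉ G → ahead B ∉ G := fun h1 h2 => hA B ⟨h2, h1⟩ hB
      have s2 : ahead B ∉ G → ahead (rtn B) ∉ G := fun h1 h2 =>
        hA (rtn B) ⟨h2, by rw [ahead_rv_rtn]; exact h1⟩ (by rw [rg_rtn]; exact hB)
      have s3 : ahead (rtn B) ∉ G → ahead (rtn (rtn B)) ∉ G := fun h1 h2 =>
        hA (rtn (rtn B)) ⟨h2, by rw [ahead_rv_rtn]; exact h1⟩ (by rw [rg_rtn, rg_rtn]; exact hB)
      have s4 : ahead (rtn (rtn B)) ∉ G → ahead (rv B) ∉ G := fun h1 h2 =>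
        hA (rtn (rtn (rtn B))) ⟨by rw [ahead_rtn_three]; exact h2, by rw [ahead_rv_rtn]; exact h1⟩
          (by rw [rg_rtn, rg_rtn, rg_rtn]; exact hB)
      have ex : ahead (rv B) ∉ G ∨ ahead B ∉ G ∨ ahead (rtn B) ∉ G ∨ ahead (rtn (rtn B)) ∉ G := by
        rw [← hB] at hv
        rcases (isCor_rg_iff _ _).1 hv with rfl | rfl | rfl | rfl
        · exact Or.inl hf
        · exact Or.inr (Or.inl hf)
        · exact Or.inr (Or.inr (Or.inl hf))
        · exact Or.inr (Or.inr (Or.inr hf))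
      have hall : ahead (rv B) ∉ G ∧ ahead B ∉ G ∧ ahead (rtn B) ∉ G ∧
          ahead (rtn (rtn B)) ∉ G := by tauto
      intro h hh
      rw [← hB] at hh
      rcases (isCor_rg_iff _ _).1 hh with rfl | rfl | rfl | rfl
      · exact hall.1
      · exact hall.2.1
      · exact hall.2.2.1
      · exact hall.2.2.2
    refine chI_of_step (F := {h | ¬ (h ∉ G ∧ IsCor h v)}) (fun h hh => ?_) ?_
    · by_contra h1
      exact hh h1
    · refine sq_chain (v := v) (fun h hh => ?_) (isCor_iff_sq.1 hv) (isCor_iff_sq.1 hv')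
      intro h1
      exact h1 ⟨key h (isCor_iff_sq.2 hh), isCor_iff_sq.2 hh⟩

/-- the closed box -/
def Cb (z : ℤ × ℤ) (r : ℤ) (v : ℤ × ℤ) : Prop :=
  z.1 - r ≤ v.1 ∧ v.1 ≤ z.1 + r ∧ z.2 - r ≤ v.2 ∧ v.2 ≤ z.2 + r

theorem cb_of_cor {f v : ℤ × ℤ} (hf : f ∈ Bx z r) (hv : IsCor f v) : Cb z r v := by
  rw [WC.mem_bx] at hf
  unfold IsCor at hv
  unfold Cb
  omega

theorem bx_of_cb {f v : ℤ × ℤ} (h : Cb z r v) (hv : IsCor f v) : f ∈ Bx z (r + 1) := by
  rw [WC.mem_bx]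
  unfold IsCor at hv
  unfold Cb at h
  omega

theorem cor_chain_bx (hG : G.Finite) (hc : Top.EConn G) (he : Esc G) {f f' v : ℤ × ℤ} (hf : f ∉ G)
    (hf' : f' ∉ G) (hv : IsCor f v) (hv' : IsCor f' v) (hb : Cb z r v) :
    ChI {h | h ∉ G ∧ h ∈ Bx z (r + 1)} f f' := by
  refine ChI.mono ?_ (cor_chain hG hc he hf hf' hv hv')
  intro h hh
  exact ⟨hh.1, bx_of_cb hb hh.2⟩

/-- **Bonds.** Faces outside `G` at two vertices which are joined by bonds of faces outside `G`. -/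
theorem conn_chain (hG : G.Finite) (hc : Top.EConn G) (he : Esc G) {w : Cfg} {F : Set (ℤ × ℤ)}
    (hF : ∀ f ∈ F, f ∉ G ∧ f ∈ Bx z r) {p₀ p : ℤ × ℤ} (hb : Cb z r p₀) (h : Conn w F p₀ p)
    {g g' : ℤ × ℤ} (hg : g ∉ G) (hg' : g' ∉ G) (hv : IsCor g p₀) (hv' : IsCor g' p) :
    ChI {h | h ∉ G ∧ h ∈ Bx z (r + 1)} g g' := by
  have key : Cb z r p ∧ ∀ g', g' ∉ G → IsCor g' p →
      ChI {h | h ∉ G ∧ h ∈ Bx z (r + 1)} g g' := by
    refine conn_induct (P := fun p => Cb z r p ∧ ∀ g', g' ∉ G → IsCor g' p →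
      ChI {h | h ∉ G ∧ h ∈ Bx z (r + 1)} g g') h ?_ ?_
    · exact ⟨hb, fun g' h1 h2 => cor_chain_bx hG hc he hg h1 hv h2 hb⟩
    rintro p q f - ⟨-, ih⟩ hf - h1 h2
    obtain ⟨hf1, hf2⟩ := hF f hf
    have hq := cb_of_cor hf2 h2
    exact ⟨hq, fun g' h3 h4 => (ih f hf1 h1).trans (cor_chain_bx hG hc he hf1 h3 h2 h4 hq)⟩
  exact key.2 g' hg' hv'

theorem cb_of_dm {s : ℤ × ℤ} (h : WC.Dm z r s) : Cb z r (phiV s) := h

/-- **King steps.** -/
theorem kc_chain {s v : ℤ × ℤ} (hs : s ∉ U) (hd : WC.Dm z r s) (h : WC.KC U z r s v)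
    {f g : ℤ × ℤ} (hf : Sq (phiV s) f) (hg : Sq (phiV v) g) :
    ChI {h | h ∉ FU U ∧ h ∈ Bx z (r + 1)} f g := by
  have around : ∀ w, w ∉ U → WC.Dm z r w → ∀ h, Sq (phiV w) h →
      h ∉ {h | ¬ (h ∉ FU U ∧ h ∈ Bx z (r + 1))} := by
    intro w hw hwd h hh h1
    exact h1 ⟨sq_notMem hw hh, bx_of_cb (cb_of_dm hwd) (isCor_iff_sq.2 hh)⟩
  have step : ∀ f g, Relation.ReflTransGen
      (StepC {h | ¬ (h ∉ FU U ∧ h ∈ Bx z (r + 1))}) f g →
      ChI {h | h ∉ FU U ∧ h ∈ Bx z (r + 1)} f g := by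
    intro f g h
    refine chI_of_step (fun h hh => ?_) h
    by_contra h1
    exact hh h1
  unfold WC.KC at h
  induction h generalizing g with
  | refl => exact step _ _ (sq_chain (around s hs hd) hf hg)
  | @tail a b hab h1 ih =>
    have ha : WC.Dm z r a ∧ a ∉ U := WC.KC.mem hd hs hab
    refine (ih (sq_self _)).trans (step _ _ ?_)
    exact king_chain (around a ha.2 ha.1) (around b h1.2.2 h1.2.1) h1.1.1 h1.1.2 (sq_self _) hg

/-- **(B1) The classes.** -/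
theorem classes (hG : G.Finite) (hc : Top.EConn G) (he : Esc G) (hGU : G ⊆ FU U \ QF Q)
    (hC : WC.Cov U z ρ r m) (hN : WC.NdPc Q z r N₀) (hρ : ρ ≤ r) :
    ∃ c : ℤ × ℤ → ℕ, (∀ f ∈ Bx z ρ, f ∉ FU U \ QF Q → c f < m + N₀) ∧
      ∀ f ∈ Bx z ρ, ∀ f' ∈ Bx z ρ, f ∉ FU U \ QF Q → f' ∉ FU U \ QF Q → c f = c f' →
        ChI {h | h ∉ G ∧ h ∈ Bx z (r + 1)} f f' := by
  classical
  obtain ⟨S, hS, hS1, hS2⟩ := hC
  obtain ⟨S₀, hS₀, hS₀d, hS₀c⟩ := hN
  obtain ⟨e, hE⟩ := WC.exists_enum S hS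
  obtain ⟨e₀, hE₀⟩ := WC.exists_enum S₀ hS₀
  -- a removed end
  have h1 : ∀ f, f ∈ Bx z ρ → f ∉ FU U → ∃ i, i < m ∧ e i ∈ S ∧ ∃ a, Sq (phiV a) f ∧
      WC.KC U z r (e i) a := by
    intro f hf hfU
    obtain ⟨a, ha, haU⟩ : ∃ a, (ea (eE f) = a ∨ eb (eE f) = a) ∧ a ∉ U := by
      by_contra hno
      push Not at hno
      exact hfU ⟨hno _ (Or.inl rfl), hno _ (Or.inr rfl)⟩
    have hsq : Sq (phiV a) f := sq_phiV.2 ha
    have hd : WC.Dm z ρ a := cb_of_cor hf (isCor_iff_sq.2 hsq)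
    obtain ⟨s, hs, hk⟩ := hS2 a hd haU
    obtain ⟨i, hi, rfl⟩ := hE s hs
    exact ⟨i, hi, hs, a, hsq, hk⟩
  have h2 : ∀ f, f ∈ Bx z ρ → f ∈ QF Q → ∃ i, i < N₀ ∧ e₀ i ∈ S₀ ∧
      Conn (gT (Q : Set Ed)) (QF Q ∩ Bx z r) (phiV (e₀ i)) (phiV (ea (eE f))) := by
    intro f hf hfQ
    obtain ⟨s, hs, hk⟩ := hS₀c f hfQ (WC.bx_mono hρ hf)
    obtain ⟨i, hi, rfl⟩ := hE₀ s hs
    exact ⟨i, hi, hs, hk⟩
  choose! c₁ hc₁ using h1
  choose! c₂ hc₂ using h2
  refine ⟨fun f => if f ∈ FU U then m + c₂ f else c₁ f, ?_, ?_⟩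
  · intro f hf hf'
    by_cases hU : f ∈ FU U
    · have hQ : f ∈ QF Q := by
        by_contra hQ
        exact hf' ⟨hU, hQ⟩
      simp only [hU, if_true]
      have := (hc₂ f hf hQ).1
      omega
    · simp only [hU, if_false]
      have := (hc₁ f hf hU).1
      omega
  · intro f hf f' hf' hn hn' hcc
    have hfG : f ∉ G := fun h => hn (hGU h)
    have hfG' : f' ∉ G := fun h => hn' (hGU h)
    by_cases hU : f ∈ FU U <;> by_cases hU' : f' ∈ FU U
    · have hQ : f ∈ QF Q := by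
        by_contra hQ
        exact hn ⟨hU, hQ⟩
      have hQ' : f' ∈ QF Q := by
        by_contra hQ
        exact hn' ⟨hU', hQ⟩
      simp only [hU, hU', if_true] at hcc
      have hcc' : c₂ f = c₂ f' := by omega
      obtain ⟨-, -, k1⟩ := hc₂ f hf hQ
      obtain ⟨-, -, k2⟩ := hc₂ f' hf' hQ'
      rw [hcc'] at k1
      have k3 : Conn (gT (Q : Set Ed)) (QF Q ∩ Bx z r) (phiV (ea (eE f))) (phiV (ea (eE f'))) :=
        Relation.ReflTransGen.trans (WC.conn_rev k1) k2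
      have q1 : IsCor f (phiV (ea (eE f))) := isCor_iff_sq.2 (sq_phiV.2 (Or.inl rfl))
      have q2 : IsCor f' (phiV (ea (eE f'))) := isCor_iff_sq.2 (sq_phiV.2 (Or.inl rfl))
      exact conn_chain hG hc he (fun g hg => ⟨fun h => (hGU h).2 hg.1, hg.2⟩)
        (cb_of_cor (WC.bx_mono hρ hf) q1) k3 hfG hfG' q1 q2
    · simp only [hU, hU', if_true, if_false] at hcc
      have := (hc₁ f' hf' hU').1
      omega
    · simp only [hU, hU', if_true, if_false] at hcc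
      have := (hc₁ f hf hU).1
      omega
    · simp only [hU, hU', if_false] at hcc
      obtain ⟨-, ks, a, ha, k1⟩ := hc₁ f hf hU
      obtain ⟨-, -, a', ha', k2⟩ := hc₁ f' hf' hU'
      rw [← hcc] at k2
      obtain ⟨hd, hs⟩ := hS1 _ ks
      have d1 := kc_chain hs hd k1 (sq_self _) ha
      have d2 := kc_chain hs hd k2 (sq_self _) ha'
      have h0 : phiV (e (c₁ f)) ∈ {h | h ∉ FU U ∧ h ∈ Bx z (r + 1)} :=
        ⟨sq_notMem hs (sq_self _), bx_of_cb (cb_of_dm hd) (isCor_iff_sq.2 (sq_self _))⟩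
      refine ((ChI.symm h0 d1).trans d2).mono ?_
      rintro h ⟨h3, h4⟩
      exact ⟨fun h5 => h3 (hGU h5).1, h4⟩

end Pool.Agent.SixB.CntV
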