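import Pool.Agent.Lib.SixB.S8CountX
import Pool.Agent.Lib.SixB.S8CountV
import Pool.Agent.Lib.SixB.S8CountP

/-!
# Step 8, number of moves: the number of alternations of a contour is tight

* `CrN.shift`: change of the centre.
* `cl_of`: the classes of the outer faces of a component of the fresh region of step `j` (`Cl`).
* `cl_tight`: all small boxes of a window at the same time.
* `prs_tight`: the number of disjoint pairs (side in `box (y, a)`, side outside `box (y, b)`) along the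
  contour of a component of the fresh region, for all steps, centres and radii of a window, is tight.
-/

set_option autoImplicit false

namespace Pool.Agent.SixB.CntW

open Finset Pool.Agent.Perc Pool.Agent.Perc6 Pool.Agent.Perc6.C2Aux Pool.Agent.Perc.Tips
open Pool.Agent.PercT Pool.Agent.PercX60
open Pool.Agent.SixB.Top Pool.Agent.SixB.Mv Pool.Agent.SixB.Dct Pool.Agent.SixB.Rule
open Pool.Agent.SixB.Near (Bx CrN)
open Pool.Agent.SixB.CountP (sd sd_le_iff)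
open Pool.Agent.SixB.StkC (Prs)
open Pool.Agent.SixB.WC (NdOK NdPc Cov)

variable {G : Set (ℤ × ℤ)} {A : UE × Bool} {y z z' : ℤ × ℤ} {a b s ρ r R : ℤ}
  {n h j k m N₀ : ℕ} {ω : Cfg} {c : ℤ} {F : Set (ℤ × ℤ)} {Ru : Rul}

/-- Change of the centre. -/
theorem CrN.shift (h : CrN ω c F z ρ R k) (hz : sd z z' ≤ s) (h1 : ρ + s ≤ R - s) :
    CrN ω c F z' (ρ + s) (R - s) k := by
  rw [sd_le_iff] at hz
  have hsub : Bx z' (R - s) ⊆ Bx z R := by
    intro f hf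
    rw [mem_bx] at hf ⊢
    omega
  obtain ⟨v, a, b⟩ := h
  refine ⟨v, fun i => ?_, fun i j hij h => b i j hij
    (Conn.mono (Set.inter_subset_inter_right _ hsub) h)⟩
  obtain ⟨a1, a2, x, a3, a4⟩ := a i
  refine ⟨a1, ?_, ?_⟩
  · unfold InR at a2 ⊢
    omega
  unfold InR at a2 a3
  obtain ⟨w, hw, hw'⟩ := Conn.toBd (x₀ := z'.1 - (R - s)) (x₁ := z'.1 + (R - s))
    (y₀ := z'.2 - (R - s)) (y₁ := z'.2 + (R - s)) a4 (by omega) (by omega)
  refine ⟨w, ?_, Conn.mono ?_ hw⟩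
  · obtain ⟨h8, h9⟩ := hw'
    unfold InR
    omega
  · rintro f ⟨⟨h3, -⟩, h4⟩
    exact ⟨h3, h4⟩

/-- `G` is a component of the region `F`. -/
structure IsRm (F G : Set (ℤ × ℤ)) (A : UE × Bool) : Prop where
  fin : G.Finite
  con : Top.EConn G
  esc : Esc G
  bd : BD G A
  sub : G ⊆ F
  out : ∀ x, BD G x → ahead (rv x) ∉ F

/-- **The classes** near `z` of the outer faces of a component of the fresh region of the step `j`. -/
theorem cl_of {C : ℤ} (hR : RulOK n h Ru) (j : ℕ) (hρ1 : 1 ≤ ρ) (hρ : ρ ≤ r) (hC : 0 ≤ C)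
    (hN : ∀ i ≤ j, ∀ x, Ru i (cfgE n ω) = some x → NdOK x.1 C N₀)
    (hk : ¬ CrN ω 0 (FU (Box n)) z ρ r (k + 1)) {q : Rule.Ndl} (hq : Ru j (cfgE n ω) = some q)
    (hG : IsRm (FU (rem n Ru j ω) \ QF q.1) G A) :
    Cl G A z ρ (r + (j + 1) * (2 * C + 1) + 1) (4 + j * (N₀ + k + 2) + N₀) := by
  classical
  have h1 : ∀ i, ∃ a : ℤ × ℤ, i ≤ j → ∀ x, Ru i (cfgE n ω) = some x → ∀ z r,
      (Bx a C ⊆ Bx z r ∨ Disjoint (Bx a C) (Bx z r)) → NdPc x.1 z r N₀ := by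
    intro i
    by_cases hi : i ≤ j
    · cases hx : Ru i (cfgE n ω) with
      | none => exact ⟨(0, 0), fun _ x hx' => absurd hx' (by simp)⟩
      | some x =>
        obtain ⟨a, ha⟩ := hN i hi x hx
        exact ⟨a, fun _ x' hx' => by rw [← Option.some_injective _ hx']; exact ha⟩
    · exact ⟨(0, 0), fun h => absurd h hi⟩
  choose o ho using h1
  obtain ⟨l, hl, h2⟩ := WC.exists_radius o z hC r j
  have h3 : (0 : ℤ) ≤ (l : ℤ) * (2 * C + 1) := by positivity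
  have h4 : (l : ℤ) * (2 * C + 1) ≤ ((j : ℤ) + 1) * (2 * C + 1) :=
    mul_le_mul_of_nonneg_right (by exact_mod_cast hl) (by omega)
  have hcov := WC.cov_steps (r := r + l * (2 * C + 1)) (N₀ := N₀) (k := k) hR hρ1 (by omega)
    (fun h5 => hk (h5.anti (by omega) (by omega))) j
    (fun i hi x hx => ho i (by omega) x hx _ _ (h2 i (by omega)))
  obtain ⟨cl, hc1, hc2⟩ := CntV.classes hG.fin hG.con hG.esc hG.sub hcov
    (ho j le_rfl q hq _ _ (h2 j le_rfl)) (by omega)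
  have hout : ∀ i, outF G A i ∉ FU (rem n Ru j ω) \ QF q.1 := fun i => hG.out _ (bd_side hG.bd i)
  refine ⟨cl, fun i hi => hc1 _ hi (hout i), fun i i' hi hi' he => ?_⟩
  refine ChI.mono ?_ (hc2 _ hi _ hi' (hout i) (hout i') he)
  rintro f ⟨h5, h6⟩
  exact ⟨h5, Near.bx_mono (by omega) h6⟩

theorem Cl.mono {r' : ℤ} {C C' : ℕ} (h : Cl G A z ρ r C) (hr : r ≤ r') (hC : C ≤ C') :
    Cl G A z ρ r' C' := by
  obtain ⟨c, h1, h2⟩ := h
  refine ⟨c, fun i hi => (h1 i hi).trans_le hC, fun i j hi hj he => ChI.mono ?_ (h2 i j hi hj he)⟩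
  rintro f ⟨h3, h4⟩
  exact ⟨h3, Near.bx_mono hr h4⟩

/-- **The number of the classes is tight**: all small boxes of a window, all steps. -/
theorem cl_tight (J N₀ : ℕ) {δ η : ℝ} (hδ : 0 < δ) (hη : 0 < η) (B : ℝ) :
    ∃ κ : ℝ, 0 < κ ∧ ∃ C₀ : ℕ, ∀ᶠ n : ℕ in Filter.atTop, ∀ (h : ℕ) (Ru : Rul) (C ρ r : ℤ),
      RulOK n h Ru → 0 ≤ C → (C : ℝ) ≤ κ * n → 1 ≤ ρ → (ρ : ℝ) ≤ κ * n → δ * n ≤ (r : ℝ) →
      pr (Sn n) {ω | ∃ j < J, (∀ i ≤ j, ∀ x, Ru i (cfgE n ω) = some x → NdOK x.1 C N₀) ∧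
        ∃ q, Ru j (cfgE n ω) = some q ∧ ∃ z : ℤ × ℤ, (sd z 0 : ℝ) ≤ B * n ∧
        ∃ G A, IsRm (FU (rem n Ru j ω) \ QF q.1) G A ∧ ¬ Cl G A z ρ r C₀} ≤ η := by
  set κ : ℝ := δ / (2 * (10 + 2 * J)) with hκ
  have hκ0 : 0 < κ := by positivity
  set M : ℝ := (2 * (2 * |B| / κ) + 3) ^ 2 with hM
  obtain ⟨k, hk⟩ := Near.crN_tight hη ⌈M⌉₊
  refine ⟨κ, hκ0, 4 + J * (N₀ + k + 2) + N₀, ?_⟩
  have e1 : ∀ᶠ n : ℕ in Filter.atTop, 2 ≤ κ * (n : ℝ) :=
    (tendsto_natCast_atTop_atTop.const_mul_atTop hκ0).eventually_ge_atTop 2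
  have e2 : ∀ᶠ n : ℕ in Filter.atTop, 2 * (21 + J : ℝ) ≤ δ * (n : ℝ) :=
    (tendsto_natCast_atTop_atTop.const_mul_atTop hδ).eventually_ge_atTop _
  filter_upwards [e1, e2] with n h1 h2 h Ru C ρ r hR hC hCn hρ hρn hrn
  obtain ⟨s, hs⟩ : ∃ s : ℤ, s = ⌊κ * n⌋ := ⟨_, rfl⟩
  obtain ⟨L, hL⟩ : ∃ L : ℤ, L = ⌊|B| * n⌋ := ⟨_, rfl⟩
  have s1 : (s : ℝ) ≤ κ * n := by rw [hs]; exact Int.floor_le _
  have s2 : κ * n < s + 1 := by rw [hs]; exact Int.lt_floor_add_one _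
  have s3 : 0 < s := by
    have : (0 : ℝ) < s := by linarith
    exact_mod_cast this
  have s4 : C ≤ s := by rw [hs]; exact Int.le_floor.2 hCn
  have s5 : ρ ≤ s := by rw [hs]; exact Int.le_floor.2 hρn
  have hL0 : 0 ≤ L := by rw [hL]; exact Int.floor_nonneg.2 (by positivity)
  have hcard : ((CountP.net 0 L s).card : ℝ) ≤ M := by
    refine CountP.card_net_le 0 hL0 s3 ?_
    have l1 : (L : ℝ) ≤ |B| * n := by rw [hL]; exact Int.floor_le _
    have l2 : κ * n ≤ 2 * s := by linarith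
    have l3 : |B| * n ≤ 2 * |B| / κ * s := by
      rw [div_mul_eq_mul_div, le_div_iff₀ hκ0]
      nlinarith [abs_nonneg B]
    linarith
  have hJ : (J : ℤ) * (2 * C + 1) ≤ J * (2 * s + 1) :=
    mul_le_mul_of_nonneg_left (by omega) (by positivity)
  have hbig : 10 * s + 21 + J * (2 * s + 1) ≤ r := by
    have h3 : (10 + 2 * (J : ℝ)) * κ = δ / 2 := by
      rw [hκ]
      field_simp
    have h4 : ((10 * s + 21 + J * (2 * s + 1) : ℤ) : ℝ) ≤ r := by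
      push_cast
      have h5 : (10 + 2 * (J : ℝ)) * s ≤ δ / 2 * n := by
        rw [← h3, mul_assoc]
        exact mul_le_mul_of_nonneg_left s1 (by positivity)
      nlinarith
    exact_mod_cast h4
  -- the boxes of the net: radii `2 s` and `8 s`
  have h3 := hk (Sn n) (FU (Box n)) (CountP.net 0 L s) (2 * s) (8 * s) (by omega) (by omega)
    (by
      have : ((CountP.net 0 L s).card : ℝ) ≤ (⌈M⌉₊ : ℝ) := hcard.trans (Nat.le_ceil M)
      exact_mod_cast this)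
    (fun z _ f hf => CountP.FU_sub_Sn n hf.1)
  refine (pr_mono _ ?_).trans h3
  rintro ω ⟨j, hj, hN, q, hq, z, hz, G, A, hG, hCl⟩
  have hzL : sd z 0 ≤ L := by
    rw [hL, Int.le_floor]
    exact hz.trans (mul_le_mul_of_nonneg_right (le_abs_self B) (by positivity))
  obtain ⟨c, hc, hzc⟩ := CountP.exists_net (y := 0) (m := L) s3 hzL
  refine ⟨c, hc, 0, Or.inl rfl, ?_⟩
  by_contra hno
  apply hCl
  have h4 : ¬ CrN ω 0 (FU (Box n)) z ρ (9 * s) (k + 1) := by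
    intro h5
    apply hno
    have h6 : CrN ω 0 (FU (Box n)) z ρ (9 * s) k := h5.le (by omega)
    have h7 := CrN.shift h6 hzc (by omega)
    have e9 : 9 * s - s = 8 * s := by ring
    rw [e9] at h7
    exact Near.CrN.mono h7 (by omega)
  have h5 := cl_of hR j hρ (by omega) hC hN h4 hq hG
  have h6 : ((j : ℤ) + 1) * (2 * C + 1) ≤ J * (2 * C + 1) :=
    mul_le_mul_of_nonneg_right (by omega) (by omega)
  refine h5.mono (by omega) ?_
  have h7 : j * (N₀ + k + 2) ≤ J * (N₀ + k + 2) := Nat.mul_le_mul_right _ hj.le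
  omega

/-- The number of pairs along the contour, both directions. -/
def PrsG (G : Set (ℤ × ℤ)) (A : UE × Bool) (m : ℕ) (y : ℤ × ℤ) (a b : ℤ) (K : ℕ) : Prop :=
  (∃ len ≤ m, Prs (fun i => InB y a (side G A i).1) (fun i => ¬ InB y b (side G A i).1) len K) ∨
    ∃ len ≤ m, Prs (fun i => InB y a (side G A (m - i)).1)
      (fun i => ¬ InB y b (side G A (m - i)).1) len K

theorem prs_congr {P Q P' Q' : ℕ → Prop} {T K : ℕ} (h : Prs P Q T K) (hP : ∀ i, P i → P' i)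
    (hQ : ∀ i, Q i → Q' i) : Prs P' Q' T K := by
  obtain ⟨S, h1, h2, h3⟩ := h
  exact ⟨S, h1, fun z hz => ⟨(h2 z hz).1, (h2 z hz).2.1, hP _ (h2 z hz).2.2.1, hQ _ (h2 z hz).2.2.2⟩,
    h3⟩

/-- The deterministic bound. -/
theorem prsG_of_cl {C M : ℕ} (hG : G.Finite) (cG : Top.EConn G) (eG : Esc G) (hA : BD G A)
    (hm : Per G m A) (hρ : 1 ≤ ρ) (hr : 1 ≤ r) (hab : a + 2 + 2 * r ≤ b)
    (hM : 2 * b + 1 ≤ M * ρ) (hcl : ∀ z, sd z y ≤ b → Cl G A z ρ r C) :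
    ¬ PrsG G A m y a b (4 * (M * C) + 1) := by
  have e1 : ∀ v w : ℤ × ℤ, nm (v - w) = sd v w := fun v w => rfl
  have key : 0 ≤ a → Pk G A m y (b - 1) ρ r C := fun _ => ⟨hG, cG, eG, hA, hm, fun z hz => by
    apply hcl
    rw [e1] at hz
    omega⟩
  have hin : ∀ {x : UE × Bool}, InB y a x.1 → 0 ≤ a := by
    intro x hx
    unfold InB InR at hx
    omega
  have hpos : 0 < 4 * (M * C) + 1 := by omega
  have hM' : 2 * (b - 1) + 1 ≤ M * ρ := by omega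
  rintro (⟨len, hlen, h⟩ | ⟨len, hlen, h⟩)
  · have ha : 0 ≤ a := by
      obtain ⟨S, h1, h2, -⟩ := h
      obtain ⟨z, hz⟩ := Finset.card_pos.1 (by rw [h1]; exact hpos)
      exact hin (h2 z hz).2.2.1
    refine (key ha).prs_out (a := a + 1) (by omega) hρ hr (by omega) hM' hlen
      (prs_congr h (fun i hi => nm_of_inB hi) fun i hi => nm_of_not_inB hi)
  · have ha : 0 ≤ a := by
      obtain ⟨S, h1, h2, -⟩ := h
      obtain ⟨z, hz⟩ := Finset.card_pos.1 (by rw [h1]; exact hpos)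
      exact hin (h2 z hz).2.2.1
    refine (key ha).prs_in (a := a + 1) (by omega) hρ hr (by omega) hM' hlen
      (prs_congr h (fun i hi => nm_of_inB hi) fun i hi => nm_of_not_inB hi)

/-- **The number of alternations of the contours is tight.** -/
theorem prs_tight (J N₀ : ℕ) {δ η : ℝ} (hδ : 0 < δ) (hη : 0 < η) (B : ℝ) :
    ∃ κ : ℝ, 0 < κ ∧ ∃ K : ℕ, ∀ᶠ n : ℕ in Filter.atTop, ∀ (h : ℕ) (Ru : Rul) (C : ℤ),
      RulOK n h Ru → 0 ≤ C → (C : ℝ) ≤ κ * n →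
      pr (Sn n) {ω | ∃ j < J, (∀ i ≤ j, ∀ x, Ru i (cfgE n ω) = some x → NdOK x.1 C N₀) ∧
        ∃ q, Ru j (cfgE n ω) = some q ∧ ∃ (y : ℤ × ℤ) (a b : ℤ), (a : ℝ) + δ * n ≤ b ∧
        (sd y 0 : ℝ) + b ≤ B * n ∧
        ∃ G A m, IsRm (FU (rem n Ru j ω) \ QF q.1) G A ∧ Per G m A ∧ PrsG G A m y a b (K + 1)}
        ≤ η := by
  obtain ⟨κ, hκ, C₀, hC₀⟩ := cl_tight J N₀ (δ := δ / 4) (by positivity) hη B
  obtain ⟨M, hM⟩ : ∃ M : ℕ, 4 * |B| / κ + 2 ≤ M := ⟨⌈4 * |B| / κ + 2⌉₊, Nat.le_ceil _⟩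
  refine ⟨κ, hκ, 4 * (M * C₀), ?_⟩
  have e1 : ∀ᶠ n : ℕ in Filter.atTop, 2 ≤ κ * (n : ℝ) :=
    (tendsto_natCast_atTop_atTop.const_mul_atTop hκ).eventually_ge_atTop 2
  have e2 : ∀ᶠ n : ℕ in Filter.atTop, 16 ≤ δ * (n : ℝ) :=
    (tendsto_natCast_atTop_atTop.const_mul_atTop hδ).eventually_ge_atTop _
  filter_upwards [hC₀, e1, e2] with n h0 h1 h2 h Ru C hR hC hCn
  obtain ⟨ρ, hρ⟩ : ∃ ρ : ℤ, ρ = ⌊κ * n⌋ := ⟨_, rfl⟩
  obtain ⟨r, hr⟩ : ∃ r : ℤ, r = ⌈δ / 4 * n⌉ := ⟨_, rfl⟩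
  have s1 : (ρ : ℝ) ≤ κ * n := by rw [hρ]; exact Int.floor_le _
  have s2 : κ * n < ρ + 1 := by rw [hρ]; exact Int.lt_floor_add_one _
  have s3 : 0 < ρ := by
    have : (0 : ℝ) < ρ := by linarith
    exact_mod_cast this
  have r1 : δ / 4 * n ≤ r := by rw [hr]; exact Int.le_ceil _
  have r2 : (r : ℝ) < δ / 4 * n + 1 := by rw [hr]; exact Int.ceil_lt_add_one _
  have r3 : 0 < r := by
    have : (0 : ℝ) < r := by linarith
    exact_mod_cast this
  refine (pr_mono _ ?_).trans (h0 h Ru C ρ r hR hC hCn (by omega) s1 r1)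
  rintro ω ⟨j, hj, hN, q, hq, y, a, b, hab, hyB, G, A, m, hG, hm, hPr⟩
  refine ⟨j, hj, hN, q, hq, ?_⟩
  by_contra hno
  push Not at hno
  have hb : (b : ℝ) ≤ B * n ∨ b < 0 := by
    left
    have h3 : (0 : ℤ) ≤ sd y 0 := le_trans (abs_nonneg _) (le_max_left _ _)
    have h4 : (0 : ℝ) ≤ (sd y 0 : ℝ) := by exact_mod_cast h3
    linarith
  have hMρ : 2 * b + 1 ≤ M * ρ := by
    have h3 : ((2 * b + 1 : ℤ) : ℝ) ≤ ((M * ρ : ℤ) : ℝ) := by
      push_cast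
      have h4 : κ * n ≤ 2 * ρ := by
        have : (1 : ℝ) ≤ ρ := by exact_mod_cast s3
        linarith
      have h5 : B * n ≤ |B| * n := mul_le_mul_of_nonneg_right (le_abs_self B) (by positivity)
      have h6 : 2 * (|B| * n) ≤ 4 * |B| / κ * ρ := by
        rw [div_mul_eq_mul_div, le_div_iff₀ hκ]
        nlinarith [abs_nonneg B]
      have h7 : (4 * |B| / κ + 2) * ρ ≤ M * ρ := mul_le_mul_of_nonneg_right hM (by positivity)
      have h8 : (1 : ℝ) ≤ ρ := by exact_mod_cast s3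
      rcases hb with h9 | h9
      · nlinarith
      · have h10 : (b : ℝ) < 0 := by exact_mod_cast h9
        have h11 : (0 : ℝ) ≤ 4 * |B| / κ * ρ := by positivity
        nlinarith
    exact_mod_cast h3
  refine prsG_of_cl (ρ := ρ) (r := r) hG.fin hG.con hG.esc hG.bd hm (by omega) (by omega) ?_ hMρ (fun z hz => ?_) hPr
  · have h3 : ((a + 2 + 2 * r : ℤ) : ℝ) ≤ b := by
      push_cast
      linarith
    exact_mod_cast h3
  · refine hno z ?_ G A hG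
    have h3 : sd z 0 ≤ sd z y + sd y 0 := by
      rw [sd_le_iff]
      have h4 := sd_le_iff.1 (le_refl (sd z y))
      have h5 := sd_le_iff.1 (le_refl (sd y 0))
      simp only [Prod.fst_zero, Prod.snd_zero] at h5 ⊢
      omega
    have h4' : sd z 0 ≤ b + sd y 0 := by omega
    have h4 : ((sd z 0 : ℤ) : ℝ) ≤ (b : ℝ) + sd y 0 := by exact_mod_cast h4'
    linarith

end Pool.Agent.SixB.CntW
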