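import Pool.Agent.Lib.SixB.S8CountSum
import Pool.Agent.Lib.SixB.S8CountY
import Pool.Agent.Lib.SixB.S8CountTc

/-!
# Step 8, number of moves: one step

* `Stp`: the moves `k ∈ M` of one needle step which are not the last one, with the numbers of the
  sides counted from the tip; every move is large or has a left or a right mark;
* `Stp.card_le`: the number of the moves; `stp_tight`: it is tight, uniformly in the rule.
-/

set_option autoImplicit false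

namespace Pool.Agent.SixB.CntS

open Finset Pool.Agent.Perc Pool.Agent.Perc6 Pool.Agent.Perc6.C2Aux Pool.Agent.Perc.Tips
open Pool.Agent.PercT Pool.Agent.PercX60
open Pool.Agent.SixB.Top Pool.Agent.SixB.Mv Pool.Agent.SixB.Dct Pool.Agent.SixB.Rule
open Pool.Agent.SixB.Scan
open Pool.Agent.SixB.Near (Bx)
open Pool.Agent.SixB.NearCut (Nb)
open Pool.Agent.SixB.CountP
open Pool.Agent.SixB.StkC (Prs Alt Stk)
open Pool.Agent.SixB.NM (Nds)
open Pool.Agent.SixB.Cnt (Tg uT pL jT th bS tg_of_comp uT_comp bdU_comp)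
open Pool.Agent.SixB.CntW (IsRm PrsG)

/-- The moves `k ∈ M` of one step which are not the last one. `U k`, `A k`: the true domain and the
tip side at the time `τ k`, `m k` sides, the target side `B` has the number `x k`. `kl k v r`: the
move has the left mark `v < r`; `kr k v r`: the right mark `r < v`. -/
structure Stp (E : Ex) (ω : Cfg) (N : ℕ) (B : UE × Bool) (M : Finset ℕ) (τ : ℕ → ℕ)
    (U : ℕ → Set (ℤ × ℤ)) (A : ℕ → UE × Bool) (m x : ℕ → ℕ) (kl kr : ℕ → ℕ → ℕ → Prop)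
    (a b H L ρ : ℤ) : Prop where
  wll : E.Wll ω
  nb : Nb (E.cf ω) (E.e ω) N
  fin : (E.U ω).Finite
  esc : Esc (compT (E.U ω) (ahead B))
  bd : ahead B ∈ E.U ω
  bd' : ahead (rv B) ∉ E.U ω
  exit : fa B.1 ∉ E.U ω
  back : fb (E.e ω) ∉ E.U ω
  hit : ∃ t ≤ N, fa (E.p ω t) = ahead B
  mono : ∀ k ∈ M, ∀ k' ∈ M, k ≤ k' → τ k ≤ τ k'
  hU : ∀ k ∈ M, U k = compT (E.U ω \ (E.v ω 0 (τ k) : Set (ℤ × ℤ))) (fa (E.p ω (τ k)))
  tipU : ∀ k ∈ M, fa (E.p ω (τ k)) ∈ E.U ω \ (E.v ω 0 (τ k) : Set (ℤ × ℤ))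
  tip : ∀ k ∈ M, (A k).1 = E.p ω (τ k)
  cyc : ∀ k ∈ M, Cyc (U k) (A k) (m k)
  xm : ∀ k ∈ M, x k < m k
  tgt : ∀ k ∈ M, side (U k) (A k) (x k) = B
  win : ∀ k ∈ M, sd (ua (E.p ω (τ k))) 0 ≤ L
  kind : ∀ k ∈ M, (∃ t, τ k < t ∧ t ≤ N ∧ ¬ InB (ua (E.p ω (τ k))) H (E.p ω t) ∧
    ∀ k' ∈ M, k < k' → t ≤ τ k') ∨ (∃ v r, kl k v r) ∨ ∃ v r, kr k v r
  mkl : ∀ k ∈ M, ∀ v r, kl k v r → x k ≤ v ∧ v < r ∧ r < m k ∧
    sd (ua (side (U k) (A k) v).1) (ua (E.p ω (τ k))) ≤ a ∧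
    b ≤ sd (ua (side (U k) (A k) r).1) (ua (E.p ω (τ k)))
  mkr : ∀ k ∈ M, ∀ v r, kr k v r → r < v ∧ v ≤ x k ∧
    sd (ua (side (U k) (A k) v).1) (ua (E.p ω (τ k))) ≤ a ∧
    b ≤ sd (ua (side (U k) (A k) r).1) (ua (E.p ω (τ k)))
  cll : ∀ k ∈ M, ∀ k' ∈ M, k < k' → ∀ v r v' r', kl k v r → kl k' v' r' →
    sd (ua (E.p ω (τ k))) (ua (E.p ω (τ k'))) ≤ 2 * ρ →
    ∀ q, x k ≤ q → q < m k → side (U k) (A k) q = side (U k') (A k') r' → q < v
  clr : ∀ k ∈ M, ∀ k' ∈ M, k < k' → ∀ v r v' r', kr k v r → kr k' v' r' →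
    sd (ua (E.p ω (τ k))) (ua (E.p ω (τ k'))) ≤ 2 * ρ →
    ∀ q, q ≤ x k → side (U k) (A k) q = side (U k') (A k') r' → v < q

theorem sd_of_isSide {f : ℤ × ℤ} {a c : UE} (ha : IsSide f a) (hc : IsSide f c) :
    sd (ua a) (ua c) ≤ 1 := by
  rw [sd_le_iff]
  rcases ha with rfl | rfl | rfl | rfl <;> rcases hc with rfl | rfl | rfl | rfl <;>
    simp only [ua, bo, le', to', ri] <;> omega

theorem isSide_outF {F : Set (ℤ × ℤ)} {A : UE × Bool} (i : ℕ) : IsSide (outF F A i) (side F A i).1 :=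
  isSide_ahead _ _

/-- Passages of the shifted strand. -/
theorem alt_shift {P Q : ℕ → Prop} {t₀ T N K : ℕ} (h : Alt (fun t => P (t₀ + t)) (fun t => Q (t₀ + t)) T K)
    (hN : t₀ + T ≤ N) : Alt P Q N K := by
  obtain ⟨i, h1, h2, h3, h4⟩ := h
  refine ⟨fun l => t₀ + i l, fun l hl => ?_, ?_, fun l hl => h3 l hl, fun l hl => h4 l hl⟩
  · have := h1 l hl
    show t₀ + i l < t₀ + i (l + 1)
    omega
  · show t₀ + i (2 * K) ≤ N
    omega

namespace Stp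

variable {E : Ex} {ω : Cfg} {N : ℕ} {B : UE × Bool} {M : Finset ℕ} {τ : ℕ → ℕ}
  {U : ℕ → Set (ℤ × ℤ)} {A : ℕ → UE × Bool} {m x : ℕ → ℕ} {kl kr : ℕ → ℕ → ℕ → Prop}
  {a b H L ρ : ℤ} (S : Stp E ω N B M τ U A m x kl kr a b H L ρ) {k : ℕ}

include S

theorem memU (hk : k ∈ M) : ahead B ∈ U k := by
  have h := bd_side (S.cyc k hk).bd (x k)
  rw [S.tgt k hk] at h
  exact h.1

theorem memW (hk : k ∈ M) : ahead B ∈ E.U ω \ (E.v ω 0 (τ k) : Set (ℤ × ℤ)) := by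
  have h := S.memU hk
  rw [S.hU k hk] at h
  exact compT_sub (S.tipU k hk) h

theorem not_visited (hk : k ∈ M) {l : ℕ} (hl : l < τ k) : fa (E.p ω l) ≠ ahead B := by
  intro he
  exact (S.memW hk).2 (Finset.mem_coe.2 (mem_vs.2 ⟨l, Nat.zero_le _, hl, he.symm⟩))

theorem U_eq (hk : k ∈ M) : U k = compT (E.U ω \ (E.v ω 0 (τ k) : Set (ℤ × ℤ))) (ahead B) := by
  have h := S.memU hk
  rw [S.hU k hk] at h ⊢
  exact (compT_eq (S.tipU k hk) h).symm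

theorem U_sub (hk : k ∈ M) : U k ⊆ compT (E.U ω) (ahead B) := by
  rw [S.U_eq hk]
  exact compT_mono Set.sdiff_subset

theorem tau_le (hk : k ∈ M) : τ k ≤ N := by
  obtain ⟨t, h1, h2⟩ := S.hit
  by_contra h3
  exact S.not_visited hk (l := t) (by omega) h2

/-- The first entry into the component of the target side. -/
theorem exists_entry : ∃ t₀ ≤ N, fa (E.p ω t₀) ∈ compT (E.U ω) (ahead B) ∧
    ∀ l < t₀, fa (E.p ω l) ∉ compT (E.U ω) (ahead B) := by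
  obtain ⟨t, h1, h2⟩ := S.hit
  obtain ⟨t₀, -, h3, h4, h5⟩ := first_time (P := fun t => fa (E.p ω t) ∈ compT (E.U ω) (ahead B))
    (s := 0) (u := t) (by show fa (E.p ω t) ∈ _; rw [h2]; exact self_mem_compT) (Nat.zero_le _)
  exact ⟨t₀, h3.trans h1, h4, fun l hl => h5 l (Nat.zero_le _) hl⟩

theorem entry_le {t₀ : ℕ} (hpre : ∀ l < t₀, fa (E.p ω l) ∉ compT (E.U ω) (ahead B)) (hk : k ∈ M) :
    t₀ ≤ τ k := by
  by_contra h
  refine hpre (τ k) (by omega) (S.U_sub hk ?_)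
  rw [S.hU k hk]
  exact self_mem_compT

theorem exists_tg {t₀ k₀ : ℕ} (hN : t₀ ≤ N) (hfr : fa (E.p ω t₀) ∈ compT (E.U ω) (ahead B))
    (hpre : ∀ l < t₀, fa (E.p ω l) ∉ compT (E.U ω) (ahead B)) (hk₀ : k₀ ∈ M) :
    Tg (E.cf ω) (E.p ω t₀) (compT (E.U ω) (ahead B)) (N - t₀) B (τ k₀ - t₀) := by
  have hle := S.entry_le hpre hk₀
  refine tg_of_comp S.wll S.nb (compT_sub S.bd) (fun _ ha => bdU_comp ha)
    (S.fin.subset (compT_sub S.bd)) S.esc (econn_compT S.bd) hN ?_ hpre hfr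
    ⟨self_mem_compT, fun h => S.bd' (compT_sub S.bd h)⟩ (fun h => S.exit (compT_sub S.bd h)) ?_ S.hit
  · rcases Nat.eq_zero_or_pos t₀ with h0 | h0
    · subst h0
      intro h
      exact S.back (compT_sub S.bd h)
    · have h1 : fb (E.p ω t₀) = fa (E.p ω (t₀ - 1)) := by
        have h2 := fb_pth_succ (E.cf ω) (E.e ω) (t₀ - 1)
        rw [Nat.sub_add_cancel h0] at h2
        exact h2
      rw [h1]
      exact hpre _ (by omega)
  · intro l _ hl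
    exact S.not_visited hk₀ (by omega)

/-- The numbers at the stages. -/
theorem nums {t₀ k₀ : ℕ}
    (hT : Tg (E.cf ω) (E.p ω t₀) (compT (E.U ω) (ahead B)) (N - t₀) B (τ k₀ - t₀))
    (hpre : ∀ l < t₀, fa (E.p ω l) ∉ compT (E.U ω) (ahead B)) (hk₀ : k₀ ∈ M) (hk : k ∈ M)
    (hkk : k ≤ k₀) :
    uT (E.cf ω) (E.p ω t₀) (compT (E.U ω) (ahead B)) B (τ k - t₀) = U k ∧
    pL (E.cf ω) (E.p ω t₀) (compT (E.U ω) (ahead B)) B (τ k - t₀) = m k ∧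
    jT (E.cf ω) (E.p ω t₀) (compT (E.U ω) (ahead B)) B (τ k - t₀) = m k - x k ∧
    (∀ i, side (U k) B i = side (U k) (A k) (x k + i)) ∧
    ∀ i ≤ x k, side (U k) B (m k - i) = side (U k) (A k) (x k - i) := by
  have hle := S.entry_le hpre hk
  have hmono := S.mono k hk k₀ hk₀ hkk
  have hsh : pth (E.cf ω) (E.p ω t₀) (τ k - t₀) = E.p ω (τ k) := by
    have h1 : pth (E.cf ω) (E.p ω t₀) (τ k - t₀) = E.p ω (t₀ + (τ k - t₀)) := pth_add _ _ _ _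
    rw [h1, Nat.add_sub_cancel' hle]
  have hu : uT (E.cf ω) (E.p ω t₀) (compT (E.U ω) (ahead B)) B (τ k - t₀) = U k := by
    rw [uT_comp S.bd hpre (fun l hl => S.not_visited hk (by omega)), S.U_eq hk,
      Nat.add_sub_cancel' hle]
    rfl
  have h := hT.idx (t := τ k - t₀) (by omega) (τ₀ := A k) (mU := m k) (kt := x k)
    (by
      rw [hsh, hu, S.hU k hk]
      exact self_mem_compT)
    (by rw [hu]; exact (S.cyc k hk).bd) (by rw [hsh]; exact S.tip k hk)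
    (by rw [hu]; exact ⟨(S.cyc k hk).pos, (S.cyc k hk).per, (S.cyc k hk).inj⟩) (S.xm k hk)
    (by rw [hu]; exact S.tgt k hk)
  rw [hu] at h
  obtain ⟨-, h2, h3, h4, h5⟩ := h
  refine ⟨hu, h2, h3, h4, fun i hi => ?_⟩
  have := h5 i hi
  rwa [h2] at this

/-- The left marks. -/
theorem sml_left {t₀ k₀ : ℕ}
    (hT : Tg (E.cf ω) (E.p ω t₀) (compT (E.U ω) (ahead B)) (N - t₀) B (τ k₀ - t₀))
    (hpre : ∀ l < t₀, fa (E.p ω l) ∉ compT (E.U ω) (ahead B)) (hk₀ : k₀ ∈ M)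
    (hmax : ∀ k ∈ M, k ≤ k₀) {M' : Finset ℕ} (hM' : M' ⊆ M) {v r : ℕ → ℕ}
    (hk : ∀ k ∈ M', kl k (v k) (r k)) :
    Sml (bS (E.cf ω) (E.p ω t₀) (compT (E.U ω) (ahead B)))
      (jT (E.cf ω) (E.p ω t₀) (compT (E.U ω) (ahead B)) B)
      (fun t i => side (uT (E.cf ω) (E.p ω t₀) (compT (E.U ω) (ahead B)) B t) B i)
      (fun t => E.p ω (t₀ + t)) (τ k₀ - t₀) M' (fun k => τ k - t₀) (fun k => v k - x k)
      (fun k => r k - x k) a b L ρ := by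
  have hsh : ∀ k ∈ M, E.p ω (t₀ + (τ k - t₀)) = E.p ω (τ k) := fun k hk => by
    rw [Nat.add_sub_cancel' (S.entry_le hpre hk)]
  have hpt : ∀ t, pth (E.cf ω) (E.p ω t₀) t = E.p ω (t₀ + t) := fun t => pth_add _ _ _ _
  have hs := hT.stk_right
  refine ⟨hs, ?_, ?_, ?_, ?_, ?_, ?_, ?_, ?_, ?_⟩
  · intro t ht i _ u hu
    have h1 := hT.birth_fa ht hu
    refine sd_of_isSide (isSide_outF (F := uT (E.cf ω) (E.p ω t₀) (compT (E.U ω) (ahead B)) B t) i) ?_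
    rw [← h1, hpt]
    exact isSide_fa _
  · intro k hk
    have := S.mono k (hM' hk) k₀ hk₀ (hmax k (hM' hk))
    show τ k - t₀ ≤ τ k₀ - t₀
    omega
  · intro k hk k' hk' hkk
    have := S.mono k (hM' hk) k' (hM' hk') hkk
    show τ k - t₀ ≤ τ k' - t₀
    omega
  · intro k hk'
    obtain ⟨h1, h2, -⟩ := S.mkl k (hM' hk') _ _ (hk k hk')
    show v k - x k < r k - x k
    omega
  · intro k hk'
    obtain ⟨h1, h2, h3, -⟩ := S.mkl k (hM' hk') _ _ (hk k hk')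
    obtain ⟨-, -, h4, -⟩ := S.nums hT hpre hk₀ (hM' hk') (hmax k (hM' hk'))
    show r k - x k < jT _ _ _ _ (τ k - t₀)
    rw [h4]
    omega
  · intro k hk'
    show sd (ua (E.p ω (t₀ + (τ k - t₀)))) 0 ≤ L
    rw [hsh k (hM' hk')]
    exact S.win k (hM' hk')
  · intro k hk'
    obtain ⟨h1, h2, h3, h4, h5⟩ := S.mkl k (hM' hk') _ _ (hk k hk')
    obtain ⟨g1, -, -, g2, -⟩ := S.nums hT hpre hk₀ (hM' hk') (hmax k (hM' hk'))
    show sd (ua (side (uT _ _ _ _ (τ k - t₀)) B (v k - x k)).1) (ua (E.p ω (t₀ + (τ k - t₀)))) ≤ a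
    rw [hsh k (hM' hk'), g1, g2, Nat.add_sub_cancel' h1]
    exact h4
  · intro k hk'
    obtain ⟨h1, h2, h3, h4, h5⟩ := S.mkl k (hM' hk') _ _ (hk k hk')
    obtain ⟨g1, -, -, g2, -⟩ := S.nums hT hpre hk₀ (hM' hk') (hmax k (hM' hk'))
    show b ≤ sd (ua (side (uT _ _ _ _ (τ k - t₀)) B (r k - x k)).1) (ua (E.p ω (t₀ + (τ k - t₀))))
    rw [hsh k (hM' hk'), g1, g2, Nat.add_sub_cancel' (h1.trans h2.le)]
    exact h5
  · intro k hk1 k' hk1' hlt hd hb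
    have hkM := hM' hk1
    have hkM' := hM' hk1'
    obtain ⟨h1, h2, h3, -⟩ := S.mkl k hkM _ _ (hk k hk1)
    obtain ⟨h1', h2', h3', -⟩ := S.mkl k' hkM' _ _ (hk k' hk1')
    obtain ⟨g1, -, g3, g2, -⟩ := S.nums hT hpre hk₀ hkM (hmax k hkM)
    obtain ⟨g1', -, g3', g2', -⟩ := S.nums hT hpre hk₀ hkM' (hmax k' hkM')
    have m1 := S.mono k hkM k' hkM' hlt.le
    have m2 := S.mono k' hkM' k₀ hk₀ (hmax k' hkM')
    obtain ⟨e1, e2⟩ := hs.eq (s := τ k - t₀) (t := τ k' - t₀) (i := r k' - x k') (by omega) (by omega)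
      (by rw [g3']; omega) hb
    simp only [g1, g1'] at e2
    rw [g3] at e1
    have h4 := S.cll k hkM k' hkM' hlt _ _ _ _ (hk k hk1) (hk k' hk1')
      (by
        have hd' : sd (ua (E.p ω (t₀ + (τ k - t₀)))) (ua (E.p ω (t₀ + (τ k' - t₀)))) ≤ 2 * ρ := hd
        rwa [hsh k hkM, hsh k' hkM'] at hd')
      (x k + (r k' - x k')) (by omega) (by omega)
      (by rw [← g2, ← e2, g2', Nat.add_sub_cancel' (h1'.trans h2'.le)])
    show r k' - x k' < v k - x k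
    omega

/-- The right marks. -/
theorem sml_right {t₀ k₀ : ℕ}
    (hT : Tg (E.cf ω) (E.p ω t₀) (compT (E.U ω) (ahead B)) (N - t₀) B (τ k₀ - t₀))
    (hpre : ∀ l < t₀, fa (E.p ω l) ∉ compT (E.U ω) (ahead B)) (hk₀ : k₀ ∈ M) (hb0 : 0 < b)
    (hmax : ∀ k ∈ M, k ≤ k₀) {M' : Finset ℕ} (hM' : M' ⊆ M) {v r : ℕ → ℕ}
    (hk : ∀ k ∈ M', kr k (v k) (r k)) :
    Sml (bS (E.cf ω) (E.p ω t₀) (compT (E.U ω) (ahead B)))
      (fun t => pL (E.cf ω) (E.p ω t₀) (compT (E.U ω) (ahead B)) B t -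
        jT (E.cf ω) (E.p ω t₀) (compT (E.U ω) (ahead B)) B t)
      (fun t i => side (uT (E.cf ω) (E.p ω t₀) (compT (E.U ω) (ahead B)) B t) B
        (pL (E.cf ω) (E.p ω t₀) (compT (E.U ω) (ahead B)) B t - i))
      (fun t => E.p ω (t₀ + t)) (τ k₀ - t₀) M' (fun k => τ k - t₀) (fun k => x k - v k)
      (fun k => x k - r k) a b L ρ := by
  have hsh : ∀ k ∈ M, E.p ω (t₀ + (τ k - t₀)) = E.p ω (τ k) := fun k hk => by
    rw [Nat.add_sub_cancel' (S.entry_le hpre hk)]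
  have hpt : ∀ t, pth (E.cf ω) (E.p ω t₀) t = E.p ω (t₀ + t) := fun t => pth_add _ _ _ _
  have hr0 : ∀ k ∈ M', 0 < r k := by
    intro k hk'
    by_contra h0
    have h0 : r k = 0 := by omega
    obtain ⟨-, -, -, h5⟩ := S.mkr k (hM' hk') _ _ (hk k hk')
    have h6 : side (U k) (A k) (r k) = A k := by rw [h0]; rfl
    rw [h6, S.tip k (hM' hk')] at h5
    have h7 : sd (ua (E.p ω (τ k))) (ua (E.p ω (τ k))) ≤ 0 := by
      rw [sd_le_iff]
      omega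
    omega
  have hs := hT.stk_left
  refine ⟨hs, ?_, ?_, ?_, ?_, ?_, ?_, ?_, ?_, ?_⟩
  · intro t ht i _ u hu
    have h1 := hT.birth_fa ht hu
    refine sd_of_isSide (isSide_outF (F := uT (E.cf ω) (E.p ω t₀) (compT (E.U ω) (ahead B)) B t) _) ?_
    rw [← h1, hpt]
    exact isSide_fa _
  · intro k hk
    have := S.mono k (hM' hk) k₀ hk₀ (hmax k (hM' hk))
    show τ k - t₀ ≤ τ k₀ - t₀
    omega
  · intro k hk k' hk' hkk
    have := S.mono k (hM' hk) k' (hM' hk') hkk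
    show τ k - t₀ ≤ τ k' - t₀
    omega
  · intro k hk'
    obtain ⟨h1, h2, -⟩ := S.mkr k (hM' hk') _ _ (hk k hk')
    show x k - v k < x k - r k
    omega
  · intro k hk'
    obtain ⟨h1, h2, -⟩ := S.mkr k (hM' hk') _ _ (hk k hk')
    obtain ⟨-, h4, h5, -⟩ := S.nums hT hpre hk₀ (hM' hk') (hmax k (hM' hk'))
    have h6 := S.xm k (hM' hk')
    have h7 := hr0 k hk'
    show x k - r k < pL _ _ _ _ (τ k - t₀) - jT _ _ _ _ (τ k - t₀)
    rw [h4, h5]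
    omega
  · intro k hk'
    show sd (ua (E.p ω (t₀ + (τ k - t₀)))) 0 ≤ L
    rw [hsh k (hM' hk')]
    exact S.win k (hM' hk')
  · intro k hk'
    obtain ⟨h1, h2, h3, h4⟩ := S.mkr k (hM' hk') _ _ (hk k hk')
    obtain ⟨g1, g3, -, -, g2⟩ := S.nums hT hpre hk₀ (hM' hk') (hmax k (hM' hk'))
    show sd (ua (side (uT _ _ _ _ (τ k - t₀)) B (pL _ _ _ _ (τ k - t₀) - (x k - v k))).1)
      (ua (E.p ω (t₀ + (τ k - t₀)))) ≤ a
    rw [hsh k (hM' hk'), g1, g3, g2 _ (Nat.sub_le _ _), Nat.sub_sub_self h2]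
    exact h3
  · intro k hk'
    obtain ⟨h1, h2, h3, h4⟩ := S.mkr k (hM' hk') _ _ (hk k hk')
    obtain ⟨g1, g3, -, -, g2⟩ := S.nums hT hpre hk₀ (hM' hk') (hmax k (hM' hk'))
    show b ≤ sd (ua (side (uT _ _ _ _ (τ k - t₀)) B (pL _ _ _ _ (τ k - t₀) - (x k - r k))).1)
      (ua (E.p ω (t₀ + (τ k - t₀))))
    rw [hsh k (hM' hk'), g1, g3, g2 _ (Nat.sub_le _ _), Nat.sub_sub_self (h1.le.trans h2)]
    exact h4
  · intro k hk1 k' hk1' hlt hd hb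
    have hkM := hM' hk1
    have hkM' := hM' hk1'
    obtain ⟨h1, h2, -⟩ := S.mkr k hkM _ _ (hk k hk1)
    obtain ⟨h1', h2', -⟩ := S.mkr k' hkM' _ _ (hk k' hk1')
    obtain ⟨g1, g4, g3, -, g2⟩ := S.nums hT hpre hk₀ hkM (hmax k hkM)
    obtain ⟨g1', g4', g3', -, g2'⟩ := S.nums hT hpre hk₀ hkM' (hmax k' hkM')
    have m1 := S.mono k hkM k' hkM' hlt.le
    have m2 := S.mono k' hkM' k₀ hk₀ (hmax k' hkM')
    have x1 := S.xm k hkM
    have x2 := S.xm k' hkM'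
    have r1 := hr0 k' hk1'
    obtain ⟨e1, e2⟩ := hs.eq (s := τ k - t₀) (t := τ k' - t₀) (i := x k' - r k') (by omega) (by omega)
      (by rw [g3', g4']; omega) hb
    simp only [g1, g1', g4, g4'] at e2
    rw [g3, g4] at e1
    have h4 := S.clr k hkM k' hkM' hlt _ _ _ _ (hk k hk1) (hk k' hk1')
      (by
        have hd' : sd (ua (E.p ω (t₀ + (τ k - t₀)))) (ua (E.p ω (t₀ + (τ k' - t₀)))) ≤ 2 * ρ := hd
        rwa [hsh k hkM, hsh k' hkM'] at hd')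
      (x k - (x k' - r k')) (by omega)
      (by rw [← g2 _ (by omega), ← e2, g2' _ (Nat.sub_le _ _), Nat.sub_sub_self (h1'.le.trans h2')])
    show x k' - r k' < x k - v k
    omega

/-- The component of the target side is a room. -/
theorem isRm {t₀ k₀ : ℕ}
    (hT : Tg (E.cf ω) (E.p ω t₀) (compT (E.U ω) (ahead B)) (N - t₀) B (τ k₀ - t₀)) :
    IsRm (E.U ω) (uT (E.cf ω) (E.p ω t₀) (compT (E.U ω) (ahead B)) B 0) B where
  fin := hT.finT (Nat.zero_le _)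
  con := (hT.rm (Nat.zero_le _)).conn
  esc := hT.escT (Nat.zero_le _)
  bd := hT.bdT (Nat.zero_le _)
  sub := (hT.rm (Nat.zero_le _)).sub.trans (compT_sub S.bd)
  out := by
    intro X hX h
    rcases (hT.rm (Nat.zero_le _)).outer hX with h1 | h1
    · exact h1 (compT_step ((hT.rm (Nat.zero_le _)).sub hX.1) (adjF_ahead_sub hX) h)
    · obtain ⟨i, -, hi, -⟩ := mem_vs.1 h1
      exact absurd hi (Nat.not_lt_zero _)

/-- **The number of the moves of one step.** -/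
theorem card_le (hρ : 0 < ρ) (ha : 0 ≤ a) (hab : a + 2 * ρ + 4 ≤ b) {K₀ K₁ K₂ : ℕ}
    (h0 : ∀ y ∈ net 0 L ρ, ∀ G A' m', IsRm (E.U ω) G A' → Per G m' A' →
      ¬ PrsG G A' m' y (a + ρ) (b - ρ - 1) (K₀ + 1))
    (h1 : ∀ y ∈ net 0 L ρ, ¬ Alt (fun t => InB y (a + ρ + 1) (E.p ω t))
      (fun t => ¬ InB y (b - ρ - 2) (E.p ω t)) N K₁)
    (h2 : ∀ M' t, Lg (E.p ω) N H L M' τ t → M'.card ≤ K₂) :
    M.card ≤ 2 * ((net 0 L ρ).card * (K₀ + K₁ + 1)) + K₂ := by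
  classical
  rcases M.eq_empty_or_nonempty with rfl | hne
  · rw [card_empty]
    exact Nat.zero_le _
  obtain ⟨k₀, hk₀, hmax⟩ := M.exists_max_image id hne
  obtain ⟨t₀, hN, hfr, hpre⟩ := S.exists_entry
  have hT := S.exists_tg hN hfr hpre hk₀
  have hle := S.entry_le hpre hk₀
  have hleN := S.tau_le hk₀
  have hA : ∀ y ∈ net 0 L ρ, ¬ Alt (fun t => InB y (a + ρ + 1) (E.p ω (t₀ + t)))
      (fun t => ¬ InB y (b - ρ - 2) (E.p ω (t₀ + t))) (τ k₀ - t₀) K₁ := fun y hy h =>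
    h1 y hy (alt_shift (P := fun t => InB y (a + ρ + 1) (E.p ω t))
      (Q := fun t => ¬ InB y (b - ρ - 2) (E.p ω t)) h (by omega))
  have hP : ∀ (y : ℤ × ℤ) (X : UE × Bool), sd (ua X.1) y ≤ a + ρ → InB y (a + ρ) X.1 :=
    fun y X h => inB_iff.2 h
  have hQ : ∀ (y : ℤ × ℤ) (X : UE × Bool), b - ρ ≤ sd (ua X.1) y → ¬ InB y (b - ρ - 1) X.1 := by
    intro y X h h'
    have := inB_iff.1 h'
    omega
  have hj := hT.jT_spec (t := 0) (Nat.zero_le _)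
  -- the left marks
  set Ml := M.filter fun k => ∃ v r, kl k v r with hMl
  have hl : ∀ k ∈ Ml, ∃ v r, kl k v r := fun k hk => (mem_filter.1 hk).2
  choose! vl rl hvl using hl
  have cl : Ml.card ≤ (net 0 L ρ).card * (K₀ + K₁ + 1) := by
    refine (S.sml_left hT hpre hk₀ hmax (filter_subset _ _) hvl).card_le hρ ha hab ?_ hA
    intro y hy h
    refine h0 y hy _ _ _ (S.isRm hT) (hT.perT (Nat.zero_le _)) (Or.inl ⟨_, hj.2.1.le, ?_⟩)
    exact CntW.prs_congr h (fun i hi => hP _ _ hi) fun i hi => hQ _ _ hi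
  -- the right marks
  set Mr := M.filter fun k => ∃ v r, kr k v r with hMr
  have hr : ∀ k ∈ Mr, ∃ v r, kr k v r := fun k hk => (mem_filter.1 hk).2
  choose! vr rr hvr using hr
  have cr : Mr.card ≤ (net 0 L ρ).card * (K₀ + K₁ + 1) := by
    refine (S.sml_right hT hpre hk₀ (by omega) hmax (filter_subset _ _) hvr).card_le hρ ha hab ?_ hA
    intro y hy h
    exact h0 y hy _ _ _ (S.isRm hT) (hT.perT (Nat.zero_le _)) (Or.inr
      ⟨pL (E.cf ω) (E.p ω t₀) (compT (E.U ω) (ahead B)) B 0 -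
        jT (E.cf ω) (E.p ω t₀) (compT (E.U ω) (ahead B)) B 0, Nat.sub_le _ _,
        CntW.prs_congr h (fun i hi => hP _ _ hi) fun i hi => hQ _ _ hi⟩)
  -- the large moves
  set Mg := M.filter fun k => ∃ t, τ k < t ∧ t ≤ N ∧ ¬ InB (ua (E.p ω (τ k))) H (E.p ω t) ∧
    ∀ k' ∈ M, k < k' → t ≤ τ k' with hMg
  have hg : ∀ k ∈ Mg, ∃ t, τ k < t ∧ t ≤ N ∧ ¬ InB (ua (E.p ω (τ k))) H (E.p ω t) ∧
    ∀ k' ∈ M, k < k' → t ≤ τ k' := fun k hk => (mem_filter.1 hk).2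
  choose! tg htg using hg
  have cg : Mg.card ≤ K₂ := by
    refine h2 Mg tg ⟨fun k hk => ?_, fun k hk k' hk' hlt => ?_⟩
    · obtain ⟨g1, g2, g3, -⟩ := htg k hk
      exact ⟨g1, g2, g3, S.win k (mem_filter.1 hk).1⟩
    · exact (htg k hk).2.2.2 k' (mem_filter.1 hk').1 hlt
  have hsub : M ⊆ Ml ∪ Mr ∪ Mg := by
    intro k hk
    rw [mem_union, mem_union]
    rcases S.kind k hk with h | h | h
    · exact Or.inr (mem_filter.2 ⟨hk, h⟩)
    · exact Or.inl (Or.inl (mem_filter.2 ⟨hk, h⟩))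
    · exact Or.inl (Or.inr (mem_filter.2 ⟨hk, h⟩))
  have c1 := card_le_card hsub
  have c2 := card_union_le (Ml ∪ Mr) Mg
  have c3 := card_union_le Ml Mr
  omega

end Stp

/-- **The number of the moves of one step is tight**, uniformly in the rule. -/
theorem stp_tight (J N₀ : ℕ) {δ η : ℝ} (hδ : 0 < δ) (hη : 0 < η) (B : ℝ) :
    ∃ κ : ℝ, 0 < κ ∧ ∃ T : ℕ, ∀ᶠ n : ℕ in Filter.atTop, ∀ (h : ℕ) (Ru : Rul) (C : ℤ),
      RulOK n h Ru → 0 ≤ C → (C : ℝ) ≤ κ * n →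
      pr (Sn n) {ω | ∃ j < J, Nds n Ru C N₀ j ω ∧ (∃ q, Ru j (cfgE n ω) = some q) ∧
        ∃ (N : ℕ) (Bt : UE × Bool) (M : Finset ℕ) (τ : ℕ → ℕ) (U : ℕ → Set (ℤ × ℤ))
          (A : ℕ → UE × Bool) (m x : ℕ → ℕ) (kl kr : ℕ → ℕ → ℕ → Prop) (a b H L ρ : ℤ),
          Stp (exR n Ru j) ω N Bt M τ U A m x kl kr a b H L ρ ∧ 0 ≤ a ∧ δ * n ≤ ρ ∧
          (a : ℝ) + 2 * ρ + δ * n ≤ b ∧ δ * n ≤ H ∧ (L : ℝ) ≤ B * n ∧ (b : ℝ) ≤ B * n ∧
          T < M.card} ≤ η := by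
  obtain ⟨κ₁, k1, K₀, h1⟩ := CntW.prs_tight J N₀ (δ := δ / 2) (η := η / 3) (by positivity)
    (by positivity) (3 * |B|)
  obtain ⟨κ₂, k2, K₁, h2⟩ := alt_all J N₀ (δ := δ / 2) (η := η / 3) (by positivity)
    (by positivity) (3 * |B|)
  obtain ⟨κ₃, k3, K₂, h3⟩ := lg_all J N₀ (δ := δ) (η := η / 3) hδ (by positivity) |B|
  set D : ℝ := (2 * (|B| / δ) + 3) ^ 2 with hD
  refine ⟨min κ₁ (min κ₂ κ₃), lt_min k1 (lt_min k2 k3), 2 * (⌊D⌋₊ * (K₀ + K₁ + 1)) + K₂, ?_⟩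
  have e1 : ∀ᶠ n : ℕ in Filter.atTop, 8 ≤ δ * (n : ℝ) :=
    (tendsto_natCast_atTop_atTop.const_mul_atTop hδ).eventually_ge_atTop _
  filter_upwards [h1, h2, h3, e1] with n g1 g2 g3 g4 h Ru C hR hC hCn
  have hn0 : (0 : ℝ) ≤ n := by positivity
  have c1 : (C : ℝ) ≤ κ₁ * n := hCn.trans (mul_le_mul_of_nonneg_right (min_le_left _ _) hn0)
  have c2 : (C : ℝ) ≤ κ₂ * n := hCn.trans (mul_le_mul_of_nonneg_right
    ((min_le_right _ _).trans (min_le_left _ _)) hn0)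
  have c3 : (C : ℝ) ≤ κ₃ * n := hCn.trans (mul_le_mul_of_nonneg_right
    ((min_le_right _ _).trans (min_le_right _ _)) hn0)
  have p1 := g1 h Ru C hR hC c1
  have p2 := g2 h Ru C hR hC c2
  have p3 := g3 h Ru C hR hC c3
  refine (pr_mono (B := _ ∪ (_ ∪ _)) _ ?_).trans ((pr_union_le _ _ _).trans
    ((add_le_add p1 ((pr_union_le _ _ _).trans (add_le_add p2 p3))).trans_eq (by ring)))
  rintro ω ⟨j, hj, hNd, ⟨q, hq⟩, N, Bt, M, τ, U, A, m, x, kl, kr, a, b, H, L, ρ, S, ha, hρ, hab, hH, hL,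
    hb, hcard⟩
  by_contra hno
  rw [Set.mem_union, Set.mem_union, not_or, not_or] at hno
  obtain ⟨n1, n2, n3⟩ := hno
  refine absurd hcard (not_lt.2 ?_)
  have hρ0 : 0 < ρ := by
    have : (0 : ℝ) < ρ := by linarith
    exact_mod_cast this
  have haR : (0 : ℝ) ≤ a := by exact_mod_cast ha
  have hρR : (0 : ℝ) < ρ := by exact_mod_cast hρ0
  have hab' : a + 2 * ρ + 4 ≤ b := by
    have : ((a + 2 * ρ + 4 : ℤ) : ℝ) ≤ b := by
      push_cast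
      linarith
    exact_mod_cast this
  have hBn : B * n ≤ |B| * n := mul_le_mul_of_nonneg_right (le_abs_self B) hn0
  rcases M.eq_empty_or_nonempty with rfl | ⟨k₀, hk₀⟩
  · rw [card_empty]
    exact Nat.zero_le _
  have hL0 : 0 ≤ L := (sd_nonneg _ _).trans (S.win k₀ hk₀)
  have hUq : (exR n Ru j).U ω = FU (rem n Ru j ω) \ QF q.1 := by
    show FU (rem n Ru j ω) \ QF (ndE n Ru j ω) = _
    unfold ndE
    rw [hq]
    rfl
  have hnet : ∀ y ∈ net 0 L ρ, (sd y 0 : ℝ) ≤ L + ρ := by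
    intro y hy
    exact_mod_cast sd_of_mem_net hL0 hρ0 hy
  have hcn : (net 0 L ρ).card ≤ ⌊D⌋₊ := by
    refine Nat.le_floor (card_net_le 0 hL0 hρ0 ?_)
    have l1 : |B| * n ≤ |B| / δ * ρ := by
      rw [div_mul_eq_mul_div, le_div_iff₀ hδ]
      nlinarith [abs_nonneg B]
    linarith
  have hmain := S.card_le (K₀ := K₀) (K₁ := K₁) (K₂ := K₂) hρ0 ha hab' ?_ ?_ ?_
  · refine hmain.trans ?_
    have := Nat.mul_le_mul_right (K₀ + K₁ + 1) hcn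
    omega
  · intro y hy G A' m' hG hP hPr
    refine n1 ⟨j, hj, hNd, q, hq, y, a + ρ, b - ρ - 1, ?_, ?_, G, A', m', ?_, hP, hPr⟩
    · push_cast
      linarith
    · push_cast
      have := hnet y hy
      linarith
    · rwa [hUq] at hG
  · intro y hy hA
    refine n2 ⟨j, hj, hNd, S.wll, y, a + ρ + 1, b - ρ - 2, N, ?_, ?_, S.nb, hA⟩
    · push_cast
      linarith
    · push_cast
      have := hnet y hy
      linarith
  · intro M' t hLg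
    by_contra hlt
    push Not at hlt
    exact n3 ⟨j, hj, hNd, S.wll, N, H, L, M', τ, t, hH, hL.trans hBn, S.nb, hLg, hlt⟩

end Pool.Agent.SixB.CntS
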