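import Pool.Agent.Lib.SixB.S8CountL

/-!
# Step 8, number of moves: the sum over the net

* `marks_card`: `StkC.Marks.le_alt` for a finite set `M` of moves;
* `Sml`: the small moves of one part of the contour (marks); `Sml.card_le`: their number is at most
  `(net 0 L ρ).card * (K₀ + K₁ + 1)`.
-/


set_option autoImplicit false

namespace Pool.Agent.SixB.CountP

open Finset Pool.Agent.Perc Pool.Agent.PercT Pool.Agent.SixB Pool.Agent.SixB.Near
open Pool.Agent.SixB.StkC (Alt Stk Prs Marks)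

/-- **The number of marks**, for a finite set of moves. -/
theorem marks_card {S : Type*} {β : S → ℕ} {len : ℕ → ℕ} {v : ℕ → ℕ → S} {T : ℕ} {p q : S → Prop}
    {P Q : ℕ → Prop} {M : Finset ℕ} {τ e h : ℕ → ℕ} {K₀ K₁ : ℕ} (stk : Stk β len v T)
    (tau : ∀ m ∈ M, τ m ≤ T) (mono : ∀ m ∈ M, ∀ m' ∈ M, m ≤ m' → τ m ≤ τ m')
    (PQ : ∀ u, P u → ¬ Q u) (pP : ∀ t ≤ T, ∀ i < len t, ∀ u, β (v t i) = u + 1 → p (v t i) → P u)
    (qQ : ∀ t ≤ T, ∀ i < len t, ∀ u, β (v t i) = u + 1 → q (v t i) → Q u)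
    (ptau : ∀ m ∈ M, P (τ m)) (eh : ∀ m ∈ M, e m < h m) (hl : ∀ m ∈ M, h m < len (τ m))
    (pe : ∀ m ∈ M, p (v (τ m) (e m))) (qh : ∀ m ∈ M, q (v (τ m) (h m)))
    (claimA : ∀ m ∈ M, ∀ m' ∈ M, m < m' → β (v (τ m') (h m')) ≤ τ m → h m' < e m)
    (h0 : ¬ Prs (fun i => p (v 0 i)) (fun i => q (v 0 i)) (len 0) (K₀ + 1))
    (h1 : ¬ Alt P Q T K₁) : M.card ≤ K₀ + K₁ + 1 := by
  classical
  set β' : S → ℕ := fun x => if ∃ t ≤ T, ∃ i < len t, v t i = x then β x else 0 with hβ'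
  have e1 : ∀ t ≤ T, ∀ i < len t, β' (v t i) = β (v t i) := fun t ht i hi =>
    if_pos ⟨t, ht, i, hi, rfl⟩
  have e2 : ∀ x u, β' x = u + 1 → β x = u + 1 ∧ ∃ t ≤ T, ∃ i < len t, v t i = x := by
    intro x u hx
    by_cases hc : ∃ t ≤ T, ∃ i < len t, v t i = x
    · refine ⟨?_, hc⟩
      rw [← hx, hβ']
      exact (if_pos hc).symm
    · have : β' x = 0 := if_neg hc
      omega
  set f : ℕ → ℕ := fun m => if hm : m < M.card then M.orderEmbOfFin rfl ⟨m, hm⟩ else 0 with hf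
  have f1 : ∀ m < M.card, f m ∈ M := by
    intro m hm
    have : f m = M.orderEmbOfFin rfl ⟨m, hm⟩ := dif_pos hm
    rw [this]
    exact M.orderEmbOfFin_mem rfl _
  have f2 : ∀ m m', m < m' → m' < M.card → f m < f m' := by
    intro m m' hmm hm'
    have e3 : f m = M.orderEmbOfFin rfl ⟨m, hmm.trans hm'⟩ := dif_pos _
    have e4 : f m' = M.orderEmbOfFin rfl ⟨m', hm'⟩ := dif_pos hm'
    rw [e3, e4]
    exact (M.orderEmbOfFin rfl).strictMono (by exact hmm)
  have H : Marks β' len v p q P Q T M.card (τ ∘ f) (e ∘ f) (h ∘ f) :=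
    { stk := by
        refine ⟨fun t ht i hi => ?_, fun s t hst ht => ?_⟩
        · rw [e1 t ht i hi]
          exact stk.birth t ht i hi
        · obtain ⟨k, k1, k2, k3⟩ := stk.old s t hst ht
          refine ⟨k, k1, k2, fun i h3 h4 => ?_⟩
          rw [e1 t ht i h4]
          exact k3 i h3 h4
      tau := fun m hm => tau _ (f1 m hm)
      mono := by
        intro m m' hmm hm'
        rcases hmm.eq_or_lt with rfl | h3
        · exact le_rfl
        · exact mono _ (f1 m (h3.trans hm')) _ (f1 m' hm') (f2 m m' h3 hm').le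
      PQ := PQ
      pP := by
        intro x u hx hp
        obtain ⟨h3, t, ht, i, hi, rfl⟩ := e2 x u hx
        exact pP t ht i hi u h3 hp
      qQ := by
        intro x u hx hp
        obtain ⟨h3, t, ht, i, hi, rfl⟩ := e2 x u hx
        exact qQ t ht i hi u h3 hp
      ptau := fun m hm => ptau _ (f1 m hm)
      eh := fun m hm => eh _ (f1 m hm)
      hl := fun m hm => hl _ (f1 m hm)
      pe := fun m hm => pe _ (f1 m hm)
      qh := fun m hm => qh _ (f1 m hm)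
      claimA := by
        intro m m' hmm hm' hb
        refine claimA _ (f1 m (hmm.trans hm')) _ (f1 m' hm') (f2 m m' hmm hm') ?_
        have h3 := f1 m' hm'
        have h4 := e1 _ (tau _ h3) _ (hl _ h3)
        rw [← h4]
        exact hb }
  exact H.le_alt h0 h1

/-- The small moves `m ∈ M` of one part of the contour: at the time `τ m` the side number `e m` is
within `a` of the tip, the side number `h m > e m` is at distance at least `b`. -/
structure Sml (β : UE × Bool → ℕ) (len : ℕ → ℕ) (v : ℕ → ℕ → UE × Bool) (p : ℕ → UE) (T : ℕ)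
    (M : Finset ℕ) (τ e h : ℕ → ℕ) (a b L ρ : ℤ) : Prop where
  stk : Stk β len v T
  born : ∀ t ≤ T, ∀ i < len t, ∀ u, β (v t i) = u + 1 → sd (ua (v t i).1) (ua (p u)) ≤ 1
  tau : ∀ m ∈ M, τ m ≤ T
  mono : ∀ m ∈ M, ∀ m' ∈ M, m ≤ m' → τ m ≤ τ m'
  eh : ∀ m ∈ M, e m < h m
  hl : ∀ m ∈ M, h m < len (τ m)
  win : ∀ m ∈ M, sd (ua (p (τ m))) 0 ≤ L
  near : ∀ m ∈ M, sd (ua (v (τ m) (e m)).1) (ua (p (τ m))) ≤ a
  far : ∀ m ∈ M, b ≤ sd (ua (v (τ m) (h m)).1) (ua (p (τ m)))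
  claimA : ∀ m ∈ M, ∀ m' ∈ M, m < m' → sd (ua (p (τ m))) (ua (p (τ m'))) ≤ 2 * ρ →
    β (v (τ m') (h m')) ≤ τ m → h m' < e m

/-- **The number of small moves of one part.** -/
theorem Sml.card_le {β : UE × Bool → ℕ} {len : ℕ → ℕ} {v : ℕ → ℕ → UE × Bool} {p : ℕ → UE} {T : ℕ}
    {M : Finset ℕ} {τ e h : ℕ → ℕ} {a b L ρ : ℤ} {K₀ K₁ : ℕ} (H : Sml β len v p T M τ e h a b L ρ)
    (hρ : 0 < ρ) (ha : 0 ≤ a) (hab : a + 2 * ρ + 4 ≤ b)
    (h0 : ∀ y ∈ net 0 L ρ, ¬ Prs (fun i => sd (ua (v 0 i).1) y ≤ a + ρ)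
      (fun i => b - ρ ≤ sd (ua (v 0 i).1) y) (len 0) (K₀ + 1))
    (h1 : ∀ y ∈ net 0 L ρ, ¬ Alt (fun t => InB y (a + ρ + 1) (p t))
      (fun t => ¬ InB y (b - ρ - 2) (p t)) T K₁) :
    M.card ≤ (net 0 L ρ).card * (K₀ + K₁ + 1) := by
  classical
  have hsub : M ⊆ (net 0 L ρ).biUnion fun y => M.filter fun m => sd (ua (p (τ m))) y ≤ ρ := by
    intro m hm
    obtain ⟨c, hc, hcd⟩ := exists_net (y := 0) (m := L) hρ (H.win m hm)
    exact mem_biUnion.2 ⟨c, hc, mem_filter.2 ⟨hm, hcd⟩⟩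
  have hone : ∀ y ∈ net 0 L ρ, (M.filter fun m => sd (ua (p (τ m))) y ≤ ρ).card ≤ K₀ + K₁ + 1 := by
    intro y hy
    have hM : ∀ m ∈ M.filter (fun m => sd (ua (p (τ m))) y ≤ ρ), m ∈ M ∧ sd (ua (p (τ m))) y ≤ ρ :=
      fun m hm => mem_filter.1 hm
    generalize (M.filter fun m => sd (ua (p (τ m))) y ≤ ρ) = M' at hM
    have a1 : ∀ u, InB y (a + ρ + 1) (p u) → ¬ ¬ InB y (b - ρ - 2) (p u) := by
      intro u hu hu'
      refine hu' ?_
      rw [inB_iff] at hu ⊢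
      omega
    have a2 : ∀ t ≤ T, ∀ i < len t, ∀ u, β (v t i) = u + 1 → sd (ua (v t i).1) y ≤ a + ρ →
        InB y (a + ρ + 1) (p u) := by
      intro t ht i hi u hu hp
      have h2 := H.born t ht i hi u hu
      have h3 := sd_tri (ua (p u)) (ua (v t i).1) y
      rw [sd_comm (ua (p u)) (ua (v t i).1)] at h3
      rw [inB_iff]
      omega
    have a3 : ∀ t ≤ T, ∀ i < len t, ∀ u, β (v t i) = u + 1 → b - ρ ≤ sd (ua (v t i).1) y →
        ¬ InB y (b - ρ - 2) (p u) := by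
      intro t ht i hi u hu hp
      have h2 := H.born t ht i hi u hu
      have h3 := sd_tri (ua (v t i).1) (ua (p u)) y
      rw [inB_iff]
      omega
    have a4 : ∀ m ∈ M', InB y (a + ρ + 1) (p (τ m)) := by
      intro m hm
      have h2 := (hM m hm).2
      rw [inB_iff]
      omega
    have a5 : ∀ m ∈ M', sd (ua (v (τ m) (e m)).1) y ≤ a + ρ := by
      intro m hm
      have h2 := (hM m hm).2
      have h3 := H.near m (hM m hm).1
      have h4 := sd_tri (ua (v (τ m) (e m)).1) (ua (p (τ m))) y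
      omega
    have a6 : ∀ m ∈ M', b - ρ ≤ sd (ua (v (τ m) (h m)).1) y := by
      intro m hm
      have h2 := (hM m hm).2
      have h3 := H.far m (hM m hm).1
      have h4 := sd_tri (ua (v (τ m) (h m)).1) y (ua (p (τ m)))
      rw [sd_comm y] at h4
      omega
    have b1 : ∀ m ∈ M', τ m ≤ T := fun m hm => H.tau m (hM m hm).1
    have b2 : ∀ m ∈ M', ∀ m' ∈ M', m ≤ m' → τ m ≤ τ m' :=
      fun m hm m' hm' => H.mono m (hM m hm).1 m' (hM m' hm').1
    have b3 : ∀ m ∈ M', e m < h m := fun m hm => H.eh m (hM m hm).1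
    have b4 : ∀ m ∈ M', h m < len (τ m) := fun m hm => H.hl m (hM m hm).1
    have b5 : ∀ m ∈ M', ∀ m' ∈ M', m < m' → β (v (τ m') (h m')) ≤ τ m → h m' < e m := by
      intro m hm m' hm' hlt
      refine H.claimA m (hM m hm).1 m' (hM m' hm').1 hlt ?_
      have h2 := (hM m hm).2
      have h3 := (hM m' hm').2
      have h4 := sd_tri (ua (p (τ m))) y (ua (p (τ m')))
      rw [sd_comm y] at h4
      omega
    have b6 := h0 y hy
    have b7 := h1 y hy
    have key := @marks_card (UE × Bool) β len v T (fun x => sd (ua x.1) y ≤ a + ρ)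
      (fun x => b - ρ ≤ sd (ua x.1) y) (fun t => InB y (a + ρ + 1) (p t))
      (fun t => ¬ InB y (b - ρ - 2) (p t)) M' τ e h K₀ K₁ H.stk b1 b2 a1
    exact key a2 a3 a4 b3 b4 a5 a6 b5 b6 b7

  exact (card_le_card hsub).trans (card_biUnion_le_card_mul _ _ _ hone)

end Pool.Agent.SixB.CountP
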