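import Pool.Agent.Lib.SixB.S8CountS

/-!
# Step 8, number of moves: rooms of the unvisited faces and births

* `Bas`: the start of an exploration of `U₀` (the sides of `U₀` are anchored at the start side `e`),
  `Rm`: a component `G` of the unvisited faces at the time `t`; `rm_compT`; `Bas.anc`: every side of a
  room is anchored at `pth ω e t`.
* `brt`: the birth of a face: `0` outside `U₀`, the time after the first visit otherwise.
* `uni`: the births of the outer faces along the contour of a room do not interlace; `mono_left`,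
  `mono_right`: they are monotone between the tip and a side of `U₀`.
-/

set_option autoImplicit false

namespace Pool.Agent.SixB.Cnt

open Finset Pool.Agent.Perc Pool.Agent.Perc6 Pool.Agent.Perc6.C2Aux Pool.Agent.Perc.Tips
open Pool.Agent.SixB.Top Pool.Agent.SixB.Mv Pool.Agent.SixB.NearCut

variable {ω : Cfg} {e : UE} {n s t : ℕ} {U₀ G : Set (ℤ × ℤ)} {A : UE × Bool} {m : ℕ}

/-- The start of an exploration of `U₀`: `e` is a side of `U₀`, the strand does not come back to `e`,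
and every other side of `U₀` has an end which is joined outside of `U₀` to the end of `e` of the same
colour. -/
structure Bas (ω : Cfg) (e : UE) (U₀ : Set (ℤ × ℤ)) (n : ℕ) : Prop where
  back : fb e ∉ U₀
  nb : Nb ω e n
  wall : ∀ a, BdU U₀ a → a ≠ e → ∃ c p, (c = 0 ∨ c = 1) ∧ (p = ua a ∨ p = ub a) ∧
    Conn ω U₀ᶜ p (en c e)

/-- `G` is a component of the faces of `U₀` which are not visited up to the time `t`. -/
structure Rm (ω : Cfg) (e : UE) (U₀ : Set (ℤ × ℤ)) (t : ℕ) (G : Set (ℤ × ℤ)) : Prop where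
  sub : G ⊆ U₀
  fresh : ∀ f ∈ G, f ∉ vs ω e 0 t
  conn : EConn G
  clo : ∀ f ∈ G, ∀ g, AdjF f g → g ∈ U₀ → g ∉ G → g ∈ vs ω e 0 t

theorem rm_compT {f₀ : ℤ × ℤ} (h : f₀ ∈ U₀ \ (vs ω e 0 t : Set (ℤ × ℤ))) :
    Rm ω e U₀ t (compT (U₀ \ (vs ω e 0 t : Set (ℤ × ℤ))) f₀) where
  sub := fun _ hf => (compT_sub h hf).1
  fresh := fun _ hf => (compT_sub h hf).2
  conn := econn_compT h
  clo := by
    intro f hf g hfg hg hg'
    by_contra hn
    exact hg' (compT_step hf hfg ⟨hg, hn⟩)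

theorem Rm.outer (h : Rm ω e U₀ t G) {B : UE × Bool} (hB : BD G B) :
    ahead (rv B) ∉ U₀ ∨ ahead (rv B) ∈ vs ω e 0 t := by
  by_cases h1 : ahead (rv B) ∈ U₀
  · exact Or.inr (h.clo _ hB.1 _ (adjF_ahead_sub hB) h1 hB.2)
  · exact Or.inl h1

/-- A side with an old outer face is joined to the start. -/
theorem Bas.join (hb : Bas ω e U₀ n) {B : UE × Bool} (hB : ahead B ∈ U₀)
    (ho : ahead (rv B) ∉ U₀ ∨ ahead (rv B) ∈ vs ω e 0 s) (hne : B.1 ≠ e) :
    ∃ c p, (c = 0 ∨ c = 1) ∧ (p = ua B.1 ∨ p = ub B.1) ∧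
      Conn ω (U₀ᶜ ∪ (vs ω e 0 s : Set (ℤ × ℤ))) p (en c e) := by
  rcases ho with ho | ho
  · obtain ⟨c, p, hc, hp, h⟩ := hb.wall B.1
      ⟨⟨_, hB, side_ahead B⟩, _, ho, side_behind B⟩ hne
    exact ⟨c, p, hc, hp, h.mono Set.subset_union_left⟩
  · have key : ∀ c : ℤ, (c = 0 ∨ c = 1) → Cl ω c (ahead (rv B)) →
        ∃ c p, (c = 0 ∨ c = 1) ∧ (p = ua B.1 ∨ p = ub B.1) ∧
          Conn ω (U₀ᶜ ∪ (vs ω e 0 s : Set (ℤ × ℤ))) p (en c e) := by
      intro c hc hcl
      refine ⟨c, en c B.1, hc, en_or c B.1, ?_⟩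
      have h1 : Conn ω (vs ω e 0 s : Set (ℤ × ℤ)) (en c B.1) (en c (pth ω e s)) :=
        vs_corner hc ho hcl (isCor_en (side_behind B) c) (par_en hc _)
      have h2 : Conn ω (vs ω e 0 s : Set (ℤ × ℤ)) (en c e) (en c (pth ω e s)) :=
        conn_pth_vs hc (Nat.zero_le s)
      exact (conn_trans h1 (conn_symm h2)).mono Set.subset_union_right
    rcases cl_or (f := ahead (rv B)) (ω := ω) (c := 0) (Or.inl rfl) with h | h
    · exact key 0 (Or.inl rfl) h
    · exact key (1 - 0) (Or.inr rfl) h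

theorem Rm.not_side (hb : Bas ω e U₀ n) (h : Rm ω e U₀ t G) (ht : 0 < t) :
    ∀ f ∈ G, ¬ IsSide f e := by
  intro f hf hs
  rcases side_fa_fb hs with h1 | h1
  · refine h.fresh f hf (mem_vs.2 ⟨0, le_rfl, ht, ?_⟩)
    rw [h1]
    rfl
  · exact hb.back (h1 ▸ h.sub hf)

/-- **The sides of a room are anchored at the present side of the strand.** -/
theorem Bas.anc (hb : Bas ω e U₀ n) (h : Rm ω e U₀ t G) : Anc ω G (pth ω e t) := by
  intro a ha hne
  obtain ⟨d, hd⟩ := exists_BD ha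
  have hae : a ≠ e := by
    rintro rfl
    rcases Nat.eq_zero_or_pos t with rfl | ht
    · exact hne rfl
    · exact Rm.not_side hb h ht _ hd.1 (side_ahead (a, d))
  obtain ⟨c, p, hc, hp, h1⟩ := hb.join (s := t) (B := (a, d)) (h.sub hd.1) (h.outer hd) hae
  have h2 : Conn ω (vs ω e 0 t : Set (ℤ × ℤ)) (en c e) (en c (pth ω e t)) :=
    conn_pth_vs hc (Nat.zero_le t)
  have hsub : U₀ᶜ ∪ (vs ω e 0 t : Set (ℤ × ℤ)) ⊆ Gᶜ := by
    rintro f (hf | hf) hfG
    · exact hf (h.sub hfG)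
    · exact h.fresh f hfG (Finset.mem_coe.1 hf)
  have h3 : Conn ω Gᶜ p (en c (pth ω e t)) :=
    conn_trans (h1.mono hsub) (h2.mono (Set.subset_union_right.trans hsub))
  refine ⟨p, hp, ?_⟩
  rcases en_or c (pth ω e t) with h4 | h4
  · exact Or.inl (h4 ▸ h3)
  · exact Or.inr (h4 ▸ h3)

/-! ### Births -/

/-- The birth of a face: `0` outside of `U₀`, the time after the first visit in `U₀`. -/
noncomputable def brt (ω : Cfg) (e : UE) (U₀ : Set (ℤ × ℤ)) (g : ℤ × ℤ) : ℕ := by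
  classical exact if g ∈ U₀ then sInf {l | fa (pth ω e l) = g} + 1 else 0

theorem brt_out {g : ℤ × ℤ} (hg : g ∉ U₀) : brt ω e U₀ g = 0 := by
  unfold brt
  exact if_neg hg

theorem brt_spec {g : ℤ × ℤ} (hg : g ∈ U₀) (hv : g ∈ vs ω e 0 t) :
    1 ≤ brt ω e U₀ g ∧ brt ω e U₀ g ≤ t ∧ fb (pth ω e (brt ω e U₀ g)) = g := by
  obtain ⟨i, -, hi, he⟩ := mem_vs.1 hv
  have hne : {l | fa (pth ω e l) = g}.Nonempty := ⟨i, he.symm⟩
  have h1 : fa (pth ω e (sInf {l | fa (pth ω e l) = g})) = g := Nat.sInf_mem hne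
  have h2 : sInf {l | fa (pth ω e l) = g} ≤ i := Nat.sInf_le he.symm
  have h3 : brt ω e U₀ g = sInf {l | fa (pth ω e l) = g} + 1 := by
    unfold brt
    exact if_pos hg
  rw [h3]
  exact ⟨by omega, by omega, by rw [fb_pth_succ]; exact h1⟩

theorem mem_vs_of_brt {g : ℤ × ℤ} (hg : g ∈ U₀) (hv : g ∈ vs ω e 0 t)
    (hs : brt ω e U₀ g ≤ s) : g ∈ vs ω e 0 s := by
  obtain ⟨h1, -, h3⟩ := brt_spec hg hv
  refine mem_vs.2 ⟨brt ω e U₀ g - 1, Nat.zero_le _, by omega, ?_⟩
  rw [← fb_pth_succ, Nat.sub_add_cancel h1]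
  exact h3.symm

theorem brt_le_of_mem {g : ℤ × ℤ} (hv : g ∈ vs ω e 0 s) : brt ω e U₀ g ≤ s := by
  obtain ⟨i, -, hi, he⟩ := mem_vs.1 hv
  by_cases hg : g ∈ U₀
  · have h2 : sInf {l | fa (pth ω e l) = g} ≤ i := Nat.sInf_le he.symm
    have h3 : brt ω e U₀ g = sInf {l | fa (pth ω e l) = g} + 1 := by
      unfold brt
      exact if_pos hg
    omega
  · rw [brt_out hg]
    exact Nat.zero_le _

theorem mem_of_brt_pos {g : ℤ × ℤ} (h : s < brt ω e U₀ g) : g ∈ U₀ := by
  by_contra hn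
  rw [brt_out hn] at h
  omega

/-! ### A closed curve through a room and a piece of the strand -/

private theorem xor_four (p q r u : Prop) :
    (((p ∧ ¬q ∨ q ∧ ¬p) ∧ ¬r ∨ r ∧ ¬(p ∧ ¬q ∨ q ∧ ¬p)) ∧ ¬u ∨
      u ∧ ¬((p ∧ ¬q ∨ q ∧ ¬p) ∧ ¬r ∨ r ∧ ¬(p ∧ ¬q ∨ q ∧ ¬p))) ↔
      ¬ (¬ (¬ (p ↔ q) ↔ r) ↔ u) := by
  by_cases h1 : p <;> by_cases h2 : q <;> by_cases h3 : r <;> by_cases h4 : u <;>
    simp [h1, h2, h3, h4]

/-- The potential of the closed curve which consists of the piece of the strand between the times `i`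
and `j` and of a path in the room `G` between the sides `B` and `C`. -/
private theorem two_port (hn : Nb ω e n) (cG : EConn G) {i j : ℕ} (hij : i ≤ j) (hi0 : 0 < i)
    (hjn : j ≤ n) {B C : UE × Bool} (hB : BD G B) (hC : BD G C) (hBC : B.1 ≠ C.1)
    (hBi : ahead (rv B) = fb (pth ω e i)) (hCj : ahead (rv C) = fb (pth ω e j))
    (hGs : ∀ l, i ≤ l → l < j → ∀ Z, BD G Z → Z.1 ≠ pth ω e l)
    (heG : ∀ f ∈ G, ¬ IsSide f e) :
    ∃ Θ : ℤ × ℤ → ZMod 2, Θ (ua e) = Θ (ub e) ∧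
      (∀ D : Set (ℤ × ℤ), (∀ f ∈ D, f ∉ G ∧ f ≠ fb (pth ω e i) ∧
        (f ≠ fb (pth ω e j) ∨ C.1 = pth ω e j)) → ∀ p q, Conn ω D p q → Θ p = Θ q) ∧
      ∀ Z, BD G Z → (Θ (lf Z) ≠ Θ (rg Z) ↔ Z.1 = B.1 ∨ Z.1 = C.1) := by
  have hch : Relation.ReflTransGen (StepC Gᶜ) (ahead B) (ahead C) :=
    Relation.ReflTransGen.mono (p := StepC Gᶜ)
      (fun b d (hbd : AdjF b d ∧ d ∈ G) => ⟨hbd.1, fun h => h hbd.2⟩) _ _ (cG _ hB.1 _ hC.1)
  obtain ⟨-, P, hP, hpar⟩ := chain_toggle (F := Gᶜ) (fun h => h hB.1) hch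
  have hneB : ahead B ≠ ahead (rv B) := fun h => hB.2 (h ▸ hB.1)
  have hneC : ahead C ≠ ahead (rv C) := fun h => hC.2 (h ▸ hC.1)
  set M : Set UE := symmDiff (symmDiff (symmDiff (Gs ω e i j) P) {B.1}) {C.1} with hM
  have hev : ∀ f ∈ (Set.univ : Set (ℤ × ℤ)), EvenAt M f := by
    intro f _
    rw [evenAt_iff, hM, parAt_symmDiff, parAt_symmDiff, parAt_symmDiff,
      parAt_Gs hn hij (by omega), hpar, parAt_side hneB (side_ahead B) (side_behind B),
      parAt_side hneC (side_ahead C) (side_behind C), hBi, hCj]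
    generalize ind2 (f = fb (pth ω e i)) = p
    generalize ind2 (f = fb (pth ω e j)) = q
    generalize ind2 (f = ahead B) = r
    generalize ind2 (f = ahead C) = u
    revert p q r u
    decide
  obtain ⟨Θ, hΘ⟩ := hasPot_univ M hev
  have hmem : ∀ a, a ∈ M ↔ ¬ (¬ (¬ (a ∈ Gs ω e i j ↔ a ∈ P) ↔ a = B.1) ↔ a = C.1) := by
    intro a
    rw [hM, Set.mem_symmDiff, Set.mem_symmDiff, Set.mem_symmDiff, Set.mem_singleton_iff,
      Set.mem_singleton_iff]
    exact xor_four _ _ _ _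
  have hnP : ∀ f, f ∉ G → ∀ a, IsSide f a → a ∉ P := fun f hf a ha h => hP a h f hf ha
  refine ⟨Θ, ?_, ?_, ?_⟩
  · -- the start side is not crossed
    by_contra hne
    have h1 := (hΘ (fa e) (Set.mem_univ _) e (isSide_fa e)).2 hne
    rw [hmem] at h1
    have c1 : e ∉ Gs ω e i j := by
      rintro ⟨l, hl1, hl2, hl⟩
      exact hn l (by omega) (by omega) hl
    have c2 : e ∉ P := by
      intro h
      by_cases h2 : fa e ∈ G
      · exact heG _ h2 (isSide_fa e)
      · exact hnP _ h2 e (isSide_fa e) h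
    have c3 : e ≠ B.1 := by
      intro h
      exact heG _ hB.1 (h ▸ side_ahead B)
    have c4 : e ≠ C.1 := by
      intro h
      exact heG _ hC.1 (h ▸ side_ahead C)
    simp only [c1, c2, c3, c4, iff_self, not_true_eq_false] at h1
  · -- clusters
    intro D hD p q hpq
    have hinv : MtInv ω D M := by
      intro f hf a a' hmt
      obtain ⟨d1, d2, d3⟩ := hD f hf
      have nB : ∀ a, IsSide f a → a ≠ B.1 := by
        rintro a ha rfl
        exact d2 ((bd_faces' hB ha d1).trans hBi)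
      have nC : f ≠ fb (pth ω e j) → ∀ a, IsSide f a → a ≠ C.1 := by
        rintro h a ha rfl
        exact h ((bd_faces' hC ha d1).trans hCj)
      have p1 := hnP f d1 a hmt.left
      have p2 := hnP f d1 a' hmt.right
      have b1 := nB a hmt.left
      have b2 := nB a' hmt.right
      have g1 : a ∈ M ↔ ¬ (a ∈ Gs ω e i j ↔ a = C.1) := by
        rw [hmem]
        simp only [p1, b1, iff_false, not_not]
      have g2 : a' ∈ M ↔ ¬ (a' ∈ Gs ω e i j ↔ a' = C.1) := by
        rw [hmem]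
        simp only [p2, b2, iff_false, not_not]
      by_cases h3 : f = fb (pth ω e j)
      · have h4 : C.1 = pth ω e j := d3.resolve_left (fun h => h h3)
        have h5 : fa (pth ω e j) ∈ G := by
          have h6 : IsSide (ahead C) (pth ω e j) := h4 ▸ side_ahead C
          rcases side_fa_fb h6 with h7 | h7
          · rw [← h7]; exact hC.1
          · exfalso
            exact hC.2 (by rw [hCj, ← h7]; exact hC.1)
        have h6 : ∀ a, (a ∈ Gs ω e i (j + 1) ↔ ¬ (a ∈ Gs ω e i j ↔ a = C.1)) := by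
          intro a
          have h7 : C.1 ∉ Gs ω e i j := by
            rw [h4]
            intro h8
            have := (mem_Gs hn (by omega) hjn).1 h8
            omega
          constructor
          · rintro ⟨l, l1, l2, l3⟩
            rcases Nat.lt_succ_iff_lt_or_eq.1 l2 with l4 | rfl
            · intro h8
              have h9 : a ∈ Gs ω e i j := ⟨l, l1, l4, l3⟩
              rw [h8.1 h9] at h9
              exact h7 h9
            · intro h8
              have h9 : a = C.1 := by rw [h4, l3]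
              exact h7 (h9 ▸ h8.2 h9)
          · intro h8
            by_cases h9 : a = C.1
            · exact ⟨j, hij, by omega, by rw [h9, h4]⟩
            · by_cases h10 : a ∈ Gs ω e i j
              · obtain ⟨l, l1, l2, l3⟩ := h10
                exact ⟨l, l1, by omega, l3⟩
              · exact absurd ⟨fun h => absurd h h10, fun h => absurd h h9⟩ h8
        have h7 := Gs_mt_iff (e := e) (i := i) (j := j + 1) hmt (fun h8 => d2 h8.1) (fun h8 => by
          have h9 := h8.1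
          rw [fb_pth_succ] at h9
          exact d1 (h9 ▸ h5))
        rw [h6, h6] at h7
        rw [g1, g2]
        exact h7
      · have c1 := nC h3 a hmt.left
        have c2 := nC h3 a' hmt.right
        have h7 := Gs_mt_iff (e := e) (i := i) (j := j) hmt (fun h8 => d2 h8.1)
          (fun h8 => h3 h8.1)
        rw [g1, g2]
        simp only [c1, c2, iff_false, not_not]
        exact h7
    exact hinv.conn (fun f _ => hΘ f (Set.mem_univ f)) hpq
  · -- the contour
    intro Z hZ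
    rw [← hΘ.joins (Set.mem_univ _) (side_ahead Z) (joins_lf_rg Z), hmem]
    have c1 : Z.1 ∉ Gs ω e i j := by
      rintro ⟨l, l1, l2, l3⟩
      exact hGs l l1 l2 Z hZ l3.symm
    have c2 : Z.1 ∉ P := hnP _ hZ.2 _ (side_behind Z)
    simp only [c1, c2, iff_self, not_true_eq_false]
    by_cases h1 : Z.1 = B.1
    · have h2 : Z.1 ≠ C.1 := fun h => hBC (h1.symm.trans h)
      simp [h1, hBC]
    · simp [h1]

/-- Births do not interlace, the case of ordered ports. -/
private theorem uni_core (hb : Bas ω e U₀ n) (hR : Rm ω e U₀ t G) (ht0 : 0 < t) (htn : t ≤ n)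
    (hA : BD G A) (hm : Per G m A) (hst : s ≤ t) {x1 x2 y1 y2 i j : ℕ} (hx1 : x1 < m)
    (hx2 : x2 < m) (hy1 : y1 < m) (hy2 : y2 < m) (hy : y1 ≠ y2) (h11 : x1 ≠ y1) (h12 : x1 ≠ y2)
    (h21 : x2 ≠ y1) (h22 : x2 ≠ y2)
    (hO1 : outF G A x1 ∉ U₀ ∨ outF G A x1 ∈ vs ω e 0 s)
    (hO2 : outF G A x2 ∉ U₀ ∨ outF G A x2 ∈ vs ω e 0 s) (hij : i ≤ j) (hi0 : 0 < i)
    (hjt : j ≤ t) (hi : outF G A y1 = fb (pth ω e i)) (hj : outF G A y2 = fb (pth ω e j))
    (hiN : outF G A y1 ∈ U₀ ∧ outF G A y1 ∉ vs ω e 0 s)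
    (hjN : (outF G A y2 ∈ U₀ ∧ outF G A y2 ∉ vs ω e 0 s) ∨ (side G A y2).1 = pth ω e j) :
    (min y1 y2 < x1 ∧ x1 < max y1 y2) ↔ (min y1 y2 < x2 ∧ x2 < max y1 y2) := by
  have hGs : ∀ l, i ≤ l → l < j → ∀ Z, BD G Z → Z.1 ≠ pth ω e l := by
    intro l hl1 hl2 Z hZ hZl
    have h1 : IsSide (ahead Z) (pth ω e l) := hZl ▸ side_ahead Z
    rcases side_fa_fb h1 with h2 | h2
    · exact hR.fresh _ hZ.1 (mem_vs.2 ⟨l, Nat.zero_le _, by omega, h2⟩)
    · refine hR.fresh _ hZ.1 (mem_vs.2 ⟨l - 1, Nat.zero_le _, by omega, ?_⟩)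
      rw [h2, ← fb_pth_succ, Nat.sub_add_cancel (by omega)]
  obtain ⟨Θ, t1, t2, t3⟩ := two_port hb.nb hR.conn hij hi0 (by omega) (bd_side hA y1)
    (bd_side hA y2) (fun h => hy (side_inj hA hm hy1 hy2 h)) hi hj hGs (Rm.not_side hb hR ht0)
  have hstep : ∀ k < m, (Θ (vert G A k) ≠ Θ (vert G A (k + 1)) ↔
      (k = min y1 y2 ∨ k = max y1 y2)) := by
    intro k hk
    have h3 : (k = min y1 y2 ∨ k = max y1 y2) ↔ (k = y1 ∨ k = y2) := by
      rcases le_total y1 y2 with h | h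
      · rw [min_eq_left h, max_eq_right h]
      · rw [min_eq_right h, max_eq_left h]
        tauto
    rw [vert_succ, h3]
    refine (t3 _ (bd_side hA k)).trans ⟨?_, ?_⟩
    · rintro (h | h)
      · exact Or.inl (side_inj hA hm hk hy1 h)
      · exact Or.inr (side_inj hA hm hk hy2 h)
    · rintro (rfl | rfl)
      · exact Or.inl rfl
      · exact Or.inr rfl
  have hmin : min y1 y2 < max y1 y2 := by
    rcases lt_or_gt_of_ne hy with h | h
    · rw [min_eq_left h.le, max_eq_right h.le]; exact h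
    · rw [min_eq_right h.le, max_eq_left h.le]; exact h
  have hmax : max y1 y2 < m := max_lt hy1 hy2
  obtain ⟨v1, v2, v3⟩ := val_two (f := fun k => Θ (vert G A k)) hmin hstep
  have hD : ∀ f ∈ U₀ᶜ ∪ (vs ω e 0 s : Set (ℤ × ℤ)), f ∉ G ∧ f ≠ fb (pth ω e i) ∧
      (f ≠ fb (pth ω e j) ∨ (side G A y2).1 = pth ω e j) := by
    intro f hf
    refine ⟨fun hfG => ?_, fun h => ?_, ?_⟩
    · rcases hf with hf | hf
      · exact hf (hR.sub hfG)
      · exact hR.fresh f hfG (vs_mono le_rfl hst (Finset.mem_coe.1 hf))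
    · rw [← hi] at h
      rcases hf with hf | hf
      · exact hf (h ▸ hiN.1)
      · exact hiN.2 (h ▸ Finset.mem_coe.1 hf)
    · rcases hjN with h1 | h1
      · left
        intro h
        rw [← hj] at h
        rcases hf with hf | hf
        · exact hf (h ▸ h1.1)
        · exact h1.2 (h ▸ Finset.mem_coe.1 hf)
      · exact Or.inr h1
  have hends : ∀ c, Θ (en c e) = Θ (ua e) := by
    intro c
    rcases en_or c e with h | h
    · rw [h]
    · rw [h]; exact t1.symm
  have key : ∀ x, x < m → x ≠ y1 → x ≠ y2 → (outF G A x ∉ U₀ ∨ outF G A x ∈ vs ω e 0 s) →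
      ((min y1 y2 < x ∧ x < max y1 y2) ↔ Θ (ua e) ≠ Θ (vert G A 0)) := by
    intro x hx hxy1 hxy2 hO
    have hne : (side G A x).1 ≠ e := fun h =>
      Rm.not_side hb hR ht0 _ (bd_side hA x).1 (h ▸ side_ahead _)
    obtain ⟨c, p, -, hp, hpc⟩ := hb.join (hR.sub (bd_side hA x).1) hO hne
    have h1 : Θ p = Θ (ua e) := (t2 _ hD p _ hpc).trans (hends c)
    rw [← h1]
    have hxm : x ≠ min y1 y2 ∧ x ≠ max y1 y2 := by
      rcases le_total y1 y2 with h | h
      · rw [min_eq_left h, max_eq_right h]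
        exact ⟨hxy1, hxy2⟩
      · rw [min_eq_right h, max_eq_left h]
        exact ⟨hxy2, hxy1⟩
    constructor
    · rintro ⟨h2, h3⟩
      rcases ends_joins (joins_side _) hp with rfl | rfl
      · exact v2 _ h2 (by omega) (by omega)
      · exact v2 _ (by omega) (by omega) (by omega)
    · intro h2
      rcases Nat.lt_or_ge x (min y1 y2) with h3 | h3
      · exfalso
        rcases ends_joins (joins_side _) hp with rfl | rfl
        · exact h2 (v1 _ (by omega) (by omega))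
        · exact h2 (v1 _ (by omega) (by omega))
      · refine ⟨by omega, ?_⟩
        by_contra h4
        rcases ends_joins (joins_side _) hp with rfl | rfl
        · exact h2 (v3 _ (by omega) (by omega))
        · exact h2 (v3 _ (by omega) (by omega))
  rw [key x1 hx1 h11 h12 hO1, key x2 hx2 h21 h22 hO2]

/-- **Births do not interlace.** On the contour of the room `G` two sides with births `≤ s` are not
separated by two sides with births `> s`; the side of the strand at the time `t` counts as a side with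
birth `> s`. -/
theorem uni (hb : Bas ω e U₀ n) (hR : Rm ω e U₀ t G) (ht0 : 0 < t) (htn : t ≤ n)
    (hA : BD G A) (hm : Per G m A) {x1 x2 y1 y2 : ℕ} (hx1 : x1 < m)
    (hx2 : x2 < m) (hy1 : y1 < m) (hy2 : y2 < m) (hy : y1 ≠ y2) (h11 : x1 ≠ y1) (h12 : x1 ≠ y2)
    (h21 : x2 ≠ y1) (h22 : x2 ≠ y2) (hO1 : brt ω e U₀ (outF G A x1) ≤ s)
    (hO2 : brt ω e U₀ (outF G A x2) ≤ s)
    (hN1 : s < brt ω e U₀ (outF G A y1) ∨ (side G A y1).1 = pth ω e t)
    (hN2 : s < brt ω e U₀ (outF G A y2) ∨ (side G A y2).1 = pth ω e t) :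
    (min y1 y2 < x1 ∧ x1 < max y1 y2) ↔ (min y1 y2 < x2 ∧ x2 < max y1 y2) := by
  have hold : ∀ x, brt ω e U₀ (outF G A x) ≤ s →
      (outF G A x ∉ U₀ ∨ outF G A x ∈ vs ω e 0 s) := by
    intro x hx
    rcases hR.outer (bd_side hA x) with h | h
    · exact Or.inl h
    · by_cases h1 : outF G A x ∈ U₀
      · exact Or.inr (mem_vs_of_brt h1 h hx)
      · exact Or.inl h1
  have hnew : ∀ y, s < brt ω e U₀ (outF G A y) → 0 < brt ω e U₀ (outF G A y) ∧
      brt ω e U₀ (outF G A y) ≤ t ∧ outF G A y = fb (pth ω e (brt ω e U₀ (outF G A y))) ∧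
      (outF G A y ∈ U₀ ∧ outF G A y ∉ vs ω e 0 s) := by
    intro y hy
    have h1 := mem_of_brt_pos hy
    have h2 : outF G A y ∈ vs ω e 0 t := by
      rcases hR.outer (bd_side hA y) with h | h
      · exact absurd h1 h
      · exact h
    obtain ⟨h3, h4, h5⟩ := brt_spec h1 h2
    refine ⟨by omega, h4, h5.symm, h1, fun h => ?_⟩
    have := brt_le_of_mem (U₀ := U₀) h
    omega
  have htip : ∀ y, (side G A y).1 = pth ω e t → outF G A y = fb (pth ω e t) := by
    intro y hy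
    have h1 : fb (pth ω e t) ∉ G := by
      intro h
      refine hR.fresh _ h (mem_vs.2 ⟨t - 1, Nat.zero_le _, by omega, ?_⟩)
      rw [← fb_pth_succ, Nat.sub_add_cancel (by omega)]
    exact (bd_faces' (bd_side hA y) (by rw [hy]; exact isSide_fb _) h1).symm
  rcases hN1 with hN1 | hN1
  · obtain ⟨a1, a2, a3, a4⟩ := hnew y1 hN1
    rcases hN2 with hN2 | hN2
    · obtain ⟨b1, b2, b3, b4⟩ := hnew y2 hN2
      rcases le_total (brt ω e U₀ (outF G A y1)) (brt ω e U₀ (outF G A y2)) with h | h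
      · exact uni_core hb hR ht0 htn hA hm (by omega) hx1 hx2 hy1 hy2 hy h11 h12 h21 h22
          (hold x1 hO1) (hold x2 hO2) h a1 b2 a3 b3 a4 (Or.inl b4)
      · rw [min_comm, max_comm]
        exact uni_core hb hR ht0 htn hA hm (by omega) hx1 hx2 hy2 hy1 hy.symm h12 h11 h22 h21
          (hold x1 hO1) (hold x2 hO2) h b1 a2 b3 a3 b4 (Or.inl a4)
    · exact uni_core hb hR ht0 htn hA hm (by omega) hx1 hx2 hy1 hy2 hy h11 h12 h21 h22
        (hold x1 hO1) (hold x2 hO2) a2 a1 le_rfl a3 (htip y2 hN2) a4 (Or.inr hN2)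
  · rcases hN2 with hN2 | hN2
    · obtain ⟨b1, b2, b3, b4⟩ := hnew y2 hN2
      rw [min_comm, max_comm]
      exact uni_core hb hR ht0 htn hA hm (by omega) hx1 hx2 hy2 hy1 hy.symm h12 h11 h22 h21
        (hold x1 hO1) (hold x2 hO2) b2 b1 le_rfl b3 (htip y1 hN1) b4 (Or.inr hN1)
    · exact absurd (side_inj hA hm hy1 hy2 (hN1.trans hN2.symm)) hy

/-- **Births from the tip to the target, first side.** -/
theorem mono_left (hb : Bas ω e U₀ n) (hR : Rm ω e U₀ t G) (ht0 : 0 < t) (htn : t ≤ n)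
    (hA : BD G A) (hm : Per G m A) (hAt : A.1 = pth ω e t) {T i j : ℕ} (hT : T < m)
    (hTo : outF G A T ∉ U₀) (hi : 0 < i) (hij : i < j) (hjT : j < T) :
    brt ω e U₀ (outF G A j) ≤ brt ω e U₀ (outF G A i) := by
  by_contra hno
  push Not at hno
  have h1 := uni (s := brt ω e U₀ (outF G A i)) hb hR ht0 htn hA hm (x1 := i) (x2 := T)
    (y1 := 0) (y2 := j) (by omega) hT hm.pos (by omega) (by omega) (by omega) (by omega)
    (by omega) (by omega) le_rfl (by rw [brt_out hTo]; exact Nat.zero_le _) (Or.inr hAt)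
    (Or.inl hno)
  omega

/-- **Births from the tip to the target, second side.** -/
theorem mono_right (hb : Bas ω e U₀ n) (hR : Rm ω e U₀ t G) (ht0 : 0 < t) (htn : t ≤ n)
    (hA : BD G A) (hm : Per G m A) (hAt : A.1 = pth ω e t) {T i j : ℕ} (hT0 : 0 < T)
    (hTo : outF G A T ∉ U₀) (hi : T < i) (hij : i < j) (hjm : j < m) :
    brt ω e U₀ (outF G A i) ≤ brt ω e U₀ (outF G A j) := by
  by_contra hno
  push Not at hno
  have h1 := uni (s := brt ω e U₀ (outF G A j)) hb hR ht0 htn hA hm (x1 := j) (x2 := T)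
    (y1 := 0) (y2 := i) (by omega) (by omega) hm.pos (by omega) (by omega) (by omega) (by omega)
    (by omega) (by omega) le_rfl (by rw [brt_out hTo]; exact Nat.zero_le _) (Or.inr hAt)
    (Or.inl hno)
  omega

end Pool.Agent.SixB.Cnt
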