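import Pool.Agent.Lib.SixB.S8NearDet

/-!
# Step 8, near miss: the birth of a gate

`exists_gate`: if the two sides of the strand are joined by a path of unit edges of `E` at the time `n`, but not at
the time `0`, then there is a first time `s`; at this time one end of the unit edge of the strand is new on its
side and a crosscut of edges of `E` joins it to the other side of the time `s - 1`.
-/

set_option autoImplicit false

namespace Pool.Agent.SixB.Near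

open Finset Pool.Agent.Perc Pool.Agent.PercT Pool.Agent.SixB

variable {w : Cfg} {e : UE} {Z : Set (ℤ × ℤ)} {c κ : ℤ} {i j l n s t u : ℕ} {E : Set UE}
  {p q r x : ℤ × ℤ}

/-- A path of unit edges of `E`. -/
def Lk (E : Set UE) (p q : ℤ × ℤ) : Prop :=
  Relation.ReflTransGen (fun p q => ∃ a ∈ E, Joins a p q) p q

theorem joins_symmE {a : UE} (h : Joins a p q) : Joins a q p := by
  rcases h with ⟨h1, h2⟩ | ⟨h1, h2⟩
  · exact Or.inr ⟨h2, h1⟩
  · exact Or.inl ⟨h2, h1⟩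

theorem Lk.symm (h : Lk E p q) : Lk E q p := by
  unfold Lk at h ⊢
  induction h with
  | refl => exact Relation.ReflTransGen.refl
  | tail _ h1 ih =>
    obtain ⟨a, ha, hj⟩ := h1
    exact Relation.ReflTransGen.head ⟨a, ha, joins_symmE hj⟩ ih

/-- The last vertex of a path on the side `κ` and the first vertex on the other side after it. -/
theorem path_cut (hκ : κ = 0 ∨ κ = 1) (hpq : Lk E p q) (hq : q ∈ PP w e Z (1 - κ) t) :
    (∃ x ∈ PP w e Z (1 - κ) t, Relation.ReflTransGen (CS w e Z E t) p x) ∨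
      ∃ p' ∈ PP w e Z κ t, Lk E p' q ∧ ∃ x ∈ PP w e Z (1 - κ) t, Cut w e Z E t p' x := by
  unfold Lk at hpq
  induction hpq using Relation.ReflTransGen.head_induction_on with
  | refl => exact Or.inl ⟨q, hq, Relation.ReflTransGen.refl⟩
  | @head p r h1 h2 ih =>
    obtain ⟨a, ha, hj⟩ := h1
    rcases ih with ⟨x, hx, hr⟩ | h3
    · by_cases hA : p ∈ PP w e Z κ t
      · exact Or.inr ⟨p, hA, Relation.ReflTransGen.head ⟨a, ha, hj⟩ h2, x, hx, r, a, ha, hj, hr⟩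
      · by_cases hB : p ∈ PP w e Z (1 - κ) t
        · exact Or.inl ⟨p, hB, Relation.ReflTransGen.refl⟩
        · refine Or.inl ⟨x, hx, Relation.ReflTransGen.head ⟨a, ⟨ha, ?_⟩, hj⟩ hr⟩
          rcases hκ with rfl | rfl
          · exact ⟨hA, hB⟩
          · exact ⟨hB, hA⟩
    · exact Or.inr h3

theorem path_cut' (hκ : κ = 0 ∨ κ = 1) (hpq : Lk E p q) (hp : p ∈ PP w e Z κ t)
    (hq : q ∈ PP w e Z (1 - κ) t) :
    ∃ p' ∈ PP w e Z κ t, Lk E p' q ∧ ∃ x ∈ PP w e Z (1 - κ) t, Cut w e Z E t p' x := by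
  rcases path_cut hκ hpq hq with ⟨x, hx, hr⟩ | h
  · exfalso
    rcases Relation.ReflTransGen.cases_head hr with h1 | ⟨r, ⟨a, ⟨-, h2, h3⟩, -⟩, -⟩
    · subst h1
      have h2 := PP_par hκ hp
      have h3 := PP_par (c := 1 - κ) (by omega) hx
      omega
    · rcases hκ with rfl | rfl
      · exact h2 hp
      · exact h3 hp
  · exact h

/-- one step: a side does not grow if its end does not move -/
theorem PP_fix (hW : Wall w e Z) (hc : c = 0 ∨ c = 1) (h : en c (pth w e t) = en c (pth w e (t + 1)))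
    {v : ℤ × ℤ} (hv : v ∈ PP w e Z c (t + 1)) : v ∈ PP w e Z c t := by
  rcases PP_succ hW hc hv with h1 | h1
  · exact h1
  · rw [h1, ← h]
    exact en_mem_PP hc

theorem gate_step (hW : Wall w e Z) (hκ : κ = 0 ∨ κ = 1)
    (h : en (1 - κ) (pth w e t) = en (1 - κ) (pth w e (t + 1))) (hp : p ∈ PP w e Z κ (t + 1))
    (hq : q ∈ PP w e Z (1 - κ) (t + 1)) (hpq : Lk E p q)
    (h0 : ∀ p ∈ PP w e Z κ t, ∀ q ∈ PP w e Z (1 - κ) t, ¬ Lk E p q) :
    ∃ x : ℤ × ℤ, en κ (pth w e (t + 1)) ∉ PP w e Z κ t ∧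
      Cut w e Z E (t + 1) (en κ (pth w e (t + 1))) x ∧ x ∈ PP w e Z (1 - κ) t := by
  have hκ' : 1 - κ = 0 ∨ 1 - κ = 1 := by omega
  obtain ⟨p', hp', h1, x, hx, hcut⟩ := path_cut' hκ hpq hp hq
  have hq' := PP_fix hW hκ' h hq
  have hp'' : p' ∉ PP w e Z κ t := fun h2 => h0 p' h2 q hq' h1
  rcases PP_succ hW hκ hp' with h2 | h2
  · exact absurd h2 hp''
  · rw [h2] at hcut hp''
    exact ⟨x, hp'', hcut, PP_fix hW hκ' h hx⟩

/-- **The birth of a gate.** -/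
theorem exists_gate (hW : Wall w e Z) {E : Set UE} {p q : ℤ × ℤ} (hp : p ∈ PP w e Z 0 n)
    (hq : q ∈ PP w e Z 1 n) (hpq : Lk E p q)
    (h0 : ∀ p ∈ PP w e Z 0 0, ∀ q ∈ PP w e Z 1 0, ¬ Lk E p q) :
    ∃ (κ : ℤ) (s : ℕ) (x : ℤ × ℤ), (κ = 0 ∨ κ = 1) ∧ 0 < s ∧ s ≤ n ∧
      en κ (pth w e s) ∉ PP w e Z κ (s - 1) ∧ Cut w e Z E s (en κ (pth w e s)) x ∧
      x ∈ PP w e Z (1 - κ) (s - 1) := by
  classical
  have hex : ∃ s, ∃ p ∈ PP w e Z 0 s, ∃ q ∈ PP w e Z 1 s, Lk E p q := ⟨n, p, hp, q, hq, hpq⟩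
  obtain ⟨p₁, hp₁, q₁, hq₁, h₁⟩ := Nat.find_spec hex
  have hle : Nat.find hex ≤ n := Nat.find_min' hex ⟨p, hp, q, hq, hpq⟩
  have hmin : ∀ m, m < Nat.find hex → ¬ ∃ p ∈ PP w e Z 0 m, ∃ q ∈ PP w e Z 1 m, Lk E p q :=
    fun m hm => Nat.find_min hex hm
  generalize hs : Nat.find hex = s at hp₁ hq₁ h₁ hle hmin
  rcases Nat.eq_zero_or_pos s with h2 | h2
  · subst h2
    exact absurd h₁ (h0 p₁ hp₁ q₁ hq₁)
  obtain ⟨m, rfl⟩ : ∃ m, s = m + 1 := ⟨s - 1, by omega⟩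
  have hm := hmin m (by omega)
  push Not at hm
  have hmt := mt_nx w (pth w e m)
  rw [← pth_succ] at hmt
  rcases mt_ends (c := 0) (Or.inl rfl) hmt with ⟨-, h3, -⟩ | ⟨-, h3, -⟩
  · obtain ⟨x, k1, k2, k3⟩ := gate_step (κ := 0) hW (Or.inl rfl) h3 hp₁ hq₁ h₁
      fun p hp q hq => hm p hp q hq
    exact ⟨0, m + 1, x, Or.inl rfl, h2, hle, k1, k2, k3⟩
  · obtain ⟨x, k1, k2, k3⟩ := gate_step (κ := 1) hW (Or.inr rfl) h3 hq₁ hp₁ h₁.symm
      fun p hp q hq h => hm q hq p hp h.symm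
    exact ⟨1, m + 1, x, Or.inr rfl, h2, hle, k1, k2, k3⟩

end Pool.Agent.SixB.Near
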