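import Pool.Agent.Lib.SixB.S8NearDet
import Pool.Agent.Lib.SixB.S8Caps
import Pool.Agent.Lib.SixB.S8NearGate

/-!
# Step 8, near miss: visits, legs and trials

`z` is the centre of a box, `ρ` the radius of the deep part, `R` the radius of the box `Bx z R`.

* `hk E ω z ρ R N k`: the first deep time of the visit number `k`.
* `Leg E ω z R κ h v`: the vertices of the side `1 - κ` at the time `h` joined to `v` in the box.
* `Tc`: the condition of a trial at the time `s`: the end of colour `κ` of the tip is new and there is a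
  crosscut of radius `r` to the leg.
* `sg`: the time of the trial for the colour `κ`, the visit `k` and the leg number `i`.
* `near_red`: a gate in the deep part at a time when the tip is outside of the box: one of the trials has
  no two passages with touches of both colours.
-/

set_option autoImplicit false

namespace Pool.Agent.SixB.Near

open Finset Pool.Agent.Perc Pool.Agent.PercT Pool.Agent.SixB Pool.Agent.SixB.NearCut

/-- The faces of the box of radius `R` around `z`. -/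
def Bx (z : ℤ × ℤ) (R : ℤ) : Set (ℤ × ℤ) := (RF (z.1 - R) (z.1 + R) (z.2 - R) (z.2 + R) : Finset (ℤ × ℤ))

/-- The first deep time of the visit number `k`. -/
noncomputable def hk (E : Ex) (ω : Cfg) (z : ℤ × ℤ) (ρ R : ℤ) (N : ℕ) : ℕ → ℕ
  | 0 => hit N fun t => InB z ρ (E.p ω t)
  | k + 1 => hit N fun t => (∃ b ≤ t, hk E ω z ρ R N k ≤ b ∧ fa (E.p ω b) ∉ Bx z R) ∧ InB z ρ (E.p ω t)

/-- The leg of the vertex `v` at the time `h`. -/
def Leg (E : Ex) (ω : Cfg) (z : ℤ × ℤ) (R : ℤ) (κ : ℤ) (h : ℕ) (v : ℤ × ℤ) : Set (ℤ × ℤ) :=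
  {x | E.Sid (1 - κ) ω h x ∧ Conn (E.cf ω) ((E.Fr ω h)ᶜ ∩ Bx z R) v x}

/-- The condition of a trial. -/
def Tc (E : Ex) (ω : Cfg) (z : ℤ × ℤ) (ρ r : ℤ) (κ : ℤ) (L : Set (ℤ × ℤ)) (s : ℕ) : Prop :=
  0 < s ∧ InB z ρ (E.p ω s) ∧ ¬ E.Sid κ ω (s - 1) (en κ (E.p ω s)) ∧
    ∃ y ∈ L, Cut (E.cf ω) (E.e ω) (E.U ω)ᶜ {a | InB (ua (E.p ω s)) r a ∧ ∀ l ≤ s, E.p ω l ≠ a} s
      (en κ (E.p ω s)) y

/-- The vertex of the leg number `i` of the visit `k`: earlier visits, then the vertices `rep`. -/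
noncomputable def tgt (E : Ex) (ω : Cfg) (z : ℤ × ℤ) (ρ R : ℤ) (N : ℕ) (rep : ℤ → ℕ → ℤ × ℤ) (κ : ℤ)
    (k i : ℕ) : ℤ × ℤ :=
  if i < k then en (1 - κ) (E.p ω (hk E ω z ρ R N i)) else rep (1 - κ) (i - k)

/-- The time of a trial. -/
noncomputable def sg (E : Ex) (ω : Cfg) (z : ℤ × ℤ) (ρ R r : ℤ) (N : ℕ) (rep : ℤ → ℕ → ℤ × ℤ) (κ : ℤ)
    (k i : ℕ) : ℕ :=
  hit N fun s => hk E ω z ρ R N k ≤ s ∧
    Tc E ω z ρ r κ (Leg E ω z R κ (hk E ω z ρ R N k) (tgt E ω z ρ R N rep κ k i)) s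

section Lemmas

variable {E : Ex} {ω : Cfg} {z : ℤ × ℤ} {r ρ R : ℤ} {N k i j l s t n : ℕ} {c κ : ℤ} {x v : ℤ × ℤ}

theorem TT_eq (t : ℕ) : TT (E.cf ω) (E.e ω) (E.U ω)ᶜ t = (E.Fr ω t)ᶜ := by
  ext f
  unfold TT Ex.Fr Ex.x Ex.v
  simp only [Set.mem_union, Set.mem_compl_iff, Set.mem_sdiff, Set.mem_inter_iff, Finset.mem_coe]
  tauto

theorem mem_PP_iff : v ∈ PP (E.cf ω) (E.e ω) (E.U ω)ᶜ c t ↔ E.Sid c ω t v := by
  unfold PP Ex.Sid
  rw [TT_eq]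
  rfl

theorem wall_of_wll (h : E.Wll ω) : Wall (E.cf ω) (E.e ω) (E.U ω)ᶜ := fun c hc g hg u v hb hu =>
  h c hc g hg u v hb hu

theorem hk_le (E : Ex) (ω : Cfg) (z : ℤ × ℤ) (ρ R : ℤ) (N k : ℕ) : hk E ω z ρ R N k ≤ N := by
  cases k with
  | zero => exact hit_le _ _
  | succ k => exact hit_le _ _

theorem hk_succ : hk E ω z ρ R N k ≤ hk E ω z ρ R N (k + 1) := by
  rcases hit_spec N (fun t => (∃ b ≤ t, hk E ω z ρ R N k ≤ b ∧ fa (E.p ω b) ∉ Bx z R) ∧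
    InB z ρ (E.p ω t)) with h | h
  · change hk E ω z ρ R N (k + 1) = N at h
    rw [h]
    exact hk_le _ _ _ _ _ _ _
  · obtain ⟨⟨b, hb, hb1, -⟩, -⟩ := h
    exact hb1.trans hb

theorem hk_mono (h : i ≤ k) : hk E ω z ρ R N i ≤ hk E ω z ρ R N k := by
  induction k, h using Nat.le_induction with
  | base => exact le_rfl
  | succ k _ ih => exact ih.trans hk_succ

/-- Every deep time is in a visit. -/
theorem exists_visit (hs : InB z ρ (E.p ω s)) {K : ℕ} (hK : s < hk E ω z ρ R N K) :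
    ∃ k < K, hk E ω z ρ R N k ≤ s ∧ (∀ i, hk E ω z ρ R N i ≤ s → i ≤ k) ∧
      ∀ l, hk E ω z ρ R N k ≤ l → l ≤ s → fa (E.p ω l) ∈ Bx z R := by
  classical
  obtain ⟨k, h1, h2, h3⟩ : ∃ k < K, hk E ω z ρ R N k ≤ s ∧ s < hk E ω z ρ R N (k + 1) := by
    induction K with
    | zero =>
      exact absurd (hit_le_of (N := N) (P := fun t => InB z ρ (E.p ω t)) hs) (by
        change ¬ hk E ω z ρ R N 0 ≤ s
        omega)
    | succ K ih =>
      by_cases h : hk E ω z ρ R N K ≤ s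
      · exact ⟨K, by omega, h, hK⟩
      · obtain ⟨k, h1, h2⟩ := ih (by omega)
        exact ⟨k, by omega, h2⟩
  refine ⟨k, h1, h2, fun i hi => ?_, fun l hl hls => ?_⟩
  · by_contra hik
    have := hk_mono (E := E) (ω := ω) (z := z) (ρ := ρ) (R := R) (N := N) (by omega : k + 1 ≤ i)
    omega
  · by_contra hl'
    have h4 : hk E ω z ρ R N (k + 1) ≤ s := hit_le_of (N := N)
      (P := fun t => (∃ b ≤ t, hk E ω z ρ R N k ≤ b ∧ fa (E.p ω b) ∉ Bx z R) ∧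
        InB z ρ (E.p ω t)) ⟨⟨l, hls, hl, hl'⟩, hs⟩
    omega

theorem inB_iff {a : UE} : InB z r a ↔ z.1 - r ≤ (ua a).1 ∧ (ua a).1 ≤ z.1 + r ∧
    z.2 - r ≤ (ua a).2 ∧ (ua a).2 ≤ z.2 + r := by
  unfold InB InR
  rfl

theorem ua_ub (a : UE) : (ua a).1 ≤ (ub a).1 ∧ (ub a).1 ≤ (ua a).1 + 1 ∧ (ua a).2 ≤ (ub a).2 ∧
    (ub a).2 ≤ (ua a).2 + 1 := by
  obtain ⟨x, y, d⟩ := a
  cases d <;> simp [ua, ub]

/-- A unit edge in front of a face outside of the box. -/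
theorem not_bx {a : UE} (h : InB z (R - 1) a) : fa a ∈ Bx z R := by
  have h1 := isSide_fa a
  rw [inB_iff] at h
  obtain ⟨f, hf⟩ : ∃ f, f = fa a := ⟨_, rfl⟩
  rw [← hf] at h1 ⊢
  unfold Bx
  rw [Finset.mem_coe, memRF]
  obtain ⟨f1, f2⟩ := f
  rcases h1 with rfl | rfl | rfl | rfl <;>
    simp only [bo, le', to', ri, ua] at h ⊢ <;> omega

theorem inRE_of {a : UE} (h : InB z (R - 1) a) :
    InRE (z.1 - R) (z.1 + R) (z.2 - R) (z.2 + R) a := by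
  have h1 := ua_ub a
  rw [inB_iff] at h
  unfold InRE InR
  omega

/-- Two unit edges with a common end. -/
theorem inB_common {a b : UE} (hv : AtE v a) (hv' : AtE v b) (h : InB z r a) : InB z (r + 1) b := by
  obtain ⟨a1, a2, d⟩ := a
  obtain ⟨b1, b2, d'⟩ := b
  rw [inB_iff] at h ⊢
  unfold AtE at hv hv'
  cases d <;> cases d' <;> rcases hv with rfl | rfl <;> rcases hv' with h2 | h2 <;>
    simp only [ua, ub, if_true, if_false, Bool.false_eq_true, Prod.mk.injEq] at h h2 ⊢ <;> omega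

theorem inR_end {a : UE} (hv : AtE v a) (h : InB z r a) :
    InR (z.1 - (r + 1)) (z.1 + (r + 1)) (z.2 - (r + 1)) (z.2 + (r + 1)) v := by
  have h1 := ua_ub a
  rw [inB_iff] at h
  unfold InR
  rcases hv with rfl | rfl <;> omega

theorem inB_trans {z₁ : ℤ × ℤ} {r' : ℤ} {a : UE}
    (hz : InR (z.1 - r') (z.1 + r') (z.2 - r') (z.2 + r') z₁) (h : InB z₁ r a) :
    InB z (r' + r) a := by
  rw [inB_iff] at h ⊢
  unfold InR at hz
  omega

theorem atE_of_joins {a : UE} {p q : ℤ × ℤ} (h : Joins a p q) : AtE p a ∧ AtE q a := by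
  rcases h with ⟨rfl, rfl⟩ | ⟨rfl, rfl⟩
  · exact ⟨Or.inl rfl, Or.inr rfl⟩
  · exact ⟨Or.inr rfl, Or.inl rfl⟩

end Lemmas

section CutLemmas

variable {w : Cfg} {e : UE} {Z : Set (ℤ × ℤ)} {Eg Eg' : Set UE} {t : ℕ} {p y : ℤ × ℤ}

theorem Cut.mono (h : Cut w e Z Eg t p y) (hE : Eg ⊆ Eg') : Cut w e Z Eg' t p y := by
  obtain ⟨q, a, ha, hj, hr⟩ := h
  refine ⟨q, a, hE ha, hj, ?_⟩
  induction hr with
  | refl => exact Relation.ReflTransGen.refl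
  | tail _ hs ih =>
    obtain ⟨b, hb, hj'⟩ := hs
    exact Relation.ReflTransGen.tail ih ⟨b, ⟨hE hb.1, hb.2⟩, hj'⟩

theorem Cut.first (h : Cut w e Z Eg t p y) : ∃ a ∈ Eg, AtE p a := by
  obtain ⟨q, a, ha, hj, -⟩ := h
  exact ⟨a, ha, (atE_of_joins hj).1⟩

theorem Cut.last (h : Cut w e Z Eg t p y) : ∃ a ∈ Eg, AtE y a := by
  obtain ⟨q, a, ha, hj, hr⟩ := h
  rcases Relation.ReflTransGen.cases_tail hr with rfl | ⟨u, -, b, hb, hj'⟩
  · exact ⟨a, ha, (atE_of_joins hj).2⟩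
  · exact ⟨b, hb.1, (atE_of_joins hj').2⟩

end CutLemmas

/-- **The reduction.** -/
theorem near_red {E : Ex} {ω : Cfg} {z z₁ : ℤ × ℤ} {r ρ R : ℤ} {N n K m : ℕ}
    {rep : ℤ → ℕ → ℤ × ℤ} (hW : E.Wll ω) (hn : Nb (E.cf ω) (E.e ω) n) (hnN : n ≤ N) (hr : 0 ≤ r)
    (hz : InR (z.1 - (ρ - r - 2)) (z.1 + (ρ - r - 2)) (z.2 - (ρ - r - 2)) (z.2 + (ρ - r - 2)) z₁)
    (hR : ρ + 2 * r + 3 ≤ R) (hg : E.Gate ω n z₁ r) (hg0 : ¬ E.Gate ω 0 z₁ r)
    (h0 : fa (E.e ω) ∉ Bx z R) (ho : fa (E.p ω n) ∉ Bx z R) (hK : n ≤ hk E ω z ρ R N K)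
    (hrep : ∀ c : ℤ, (c = 0 ∨ c = 1) → ∀ x, E.Sid c ω 0 x →
      InR (z.1 - ρ) (z.1 + ρ) (z.2 - ρ) (z.2 + ρ) x →
      ∃ i < m, Conn (E.cf ω) ((E.U ω)ᶜ ∩ Bx z R) (rep c i) x) :
    ∃ (κ : ℤ) (k i : ℕ), (κ = 0 ∨ κ = 1) ∧ k < K ∧ i < k + m ∧
      hk E ω z ρ R N k ≤ sg E ω z ρ R (2 * r + 2) N rep κ k i ∧
      sg E ω z ρ R (2 * r + 2) N rep κ k i < n ∧
      Tc E ω z ρ (2 * r + 2) κ (Leg E ω z R κ (hk E ω z ρ R N k) (tgt E ω z ρ R N rep κ k i))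
        (sg E ω z ρ R (2 * r + 2) N rep κ k i) ∧
      ¬ Ex.Passages E ω (sg E ω z ρ R (2 * r + 2) N rep κ k i) n
        (ua (E.p ω (sg E ω z ρ R (2 * r + 2) N rep κ k i))) (2 * r + 3) := by
  have hWall := wall_of_wll hW
  obtain ⟨v, v', hv, hv', hpath⟩ := hg
  obtain ⟨Eg, hEg⟩ : ∃ Eg : Set UE, Eg = {a | InB z₁ r a ∧ ∀ l ≤ n, E.p ω l ≠ a} := ⟨_, rfl⟩
  have hEgm : ∀ a ∈ Eg, InB z₁ r a ∧ ∀ l ≤ n, E.p ω l ≠ a := fun a ha => by
    rw [hEg] at ha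
    exact ha
  rw [← hEg] at hpath
  obtain ⟨κ, s, x, hκ, hs, hsn, hnew, hcut, hx⟩ := exists_gate hWall (E := Eg) (mem_PP_iff.2 hv)
    (mem_PP_iff.2 hv') hpath (fun p hp q hq hpq => hg0
      ⟨p, q, mem_PP_iff.1 hp, mem_PP_iff.1 hq, Pth.mono hpq fun a ha =>
        ⟨(hEgm a ha).1, fun l hl => (hEgm a ha).2 l (by omega)⟩⟩)
  have hκ' : 1 - κ = 0 ∨ 1 - κ = 1 := by omega
  obtain ⟨a₁, ha₁, hXa⟩ := hcut.first
  obtain ⟨a₂, ha₂, hxa⟩ := hcut.last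
  -- positions
  have hzR : ∀ {a : UE}, InB z₁ (r + 1) a → InB z ρ a := fun {a} h =>
    (inB_trans hz h).mono (by omega)
  have hs1 : InB z₁ (r + 1) (E.p ω s) := inB_common hXa (atE_en κ _) (hEgm a₁ ha₁).1
  have hdeep : InB z ρ (E.p ω s) := hzR hs1
  have hRE : ∀ {a : UE}, InB z ρ a → InRE (z.1 - R) (z.1 + R) (z.2 - R) (z.2 + R) a := fun {a} h =>
    inRE_of (h.mono (by omega))
  have hsn' : s < n := by
    rcases Nat.lt_or_eq_of_le hsn with h | rfl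
    · exact h
    · exact absurd (not_bx (hdeep.mono (by omega))) ho
  obtain ⟨k, hkK, hks, hkmax, hin⟩ := exists_visit hdeep (lt_of_lt_of_le hsn' hK)
  have hEgB : ∀ a ∈ Eg, InRE (z.1 - R) (z.1 + R) (z.2 - R) (z.2 + R) a := fun a ha =>
    hRE (hzR ((hEgm a ha).1.mono (by omega)))
  -- no gate to the side of the visit
  have hN3 : ¬ Conn (E.cf ω) (TT (E.cf ω) (E.e ω) (E.U ω)ᶜ s ∩ Bx z R) x
      (en (1 - κ) (pth (E.cf ω) (E.e ω) s)) := fun h =>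
    fact_N3 hκ hn hs hsn hcut (fun a ha => (hEgm a ha).2) hEgB h (hRE hdeep) h0 ho
  -- the leg
  obtain ⟨i₀, hi₀, hxL⟩ : ∃ i < k + m, x ∈ Leg E ω z R κ (hk E ω z ρ R N k)
      (tgt E ω z ρ R N rep κ k i) := by
    rcases PP_new hWall hκ' (Nat.zero_le (s - 1)) hx with hx0 | ⟨j, hj0, hjs, rfl⟩
    · have hx1 : E.Sid (1 - κ) ω 0 x := mem_PP_iff.1 hx0
      obtain ⟨i, hi, hc⟩ := hrep (1 - κ) hκ' x hx1 (by
        have h1 := inR_end hxa (hEgm a₂ ha₂).1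
        unfold InR at h1 hz ⊢
        omega)
      refine ⟨k + i, by omega, hx1.mono (Nat.zero_le _), ?_⟩
      unfold tgt
      rw [if_neg (by omega), Nat.add_sub_cancel_left]
      exact Conn.mono (Set.inter_subset_inter_left _ (Set.compl_subset_compl.2 fr_sub)) hc
    · have hjd : InB z ρ (E.p ω j) := hzR (inB_common hxa (atE_en (1 - κ) _) (hEgm a₂ ha₂).1)
      obtain ⟨k', hk'K, hk'j, hk'max, hin'⟩ := exists_visit (R := R) hjd
        (lt_of_lt_of_le (by omega : j < n) hK)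
      have hk'k : k' ≤ k := hkmax k' (by omega)
      rcases Nat.lt_or_eq_of_le hk'k with hlt | rfl
      · have hjk : j < hk E ω z ρ R N k := by
          by_contra hjk
          have := hk'max k (by omega)
          omega
        refine ⟨k', by omega, Ex.sid_strand hκ' hjk.le, ?_⟩
        unfold tgt
        rw [if_pos hlt]
        exact conn_pth hκ' hk'j fun l h1 h2 => Or.inl ⟨fa_not_fr (by omega), hin' l h1 (by omega)⟩
      · exact absurd (conn_symm'' (conn_between hκ' (by omega) fun l h1 h2 =>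
          hin l (by omega) (by omega))) hN3
  -- the trial
  have hTs : hk E ω z ρ R N k ≤ s ∧ Tc E ω z ρ (2 * r + 2) κ
      (Leg E ω z R κ (hk E ω z ρ R N k) (tgt E ω z ρ R N rep κ k i₀)) s := by
    refine ⟨hks, hs, hdeep, fun h => hnew (mem_PP_iff.2 h), x, hxL, hcut.mono fun a ha => ?_⟩
    refine ⟨?_, fun l hl => (hEgm a ha).2 l (by omega)⟩
    have h1 := (hEgm a ha).1
    rw [inB_iff] at h1 hs1 ⊢
    omega
  have hσs : sg E ω z ρ R (2 * r + 2) N rep κ k i₀ ≤ s := hit_le_of hTs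
  obtain ⟨hσk, hσ⟩ : hk E ω z ρ R N k ≤ sg E ω z ρ R (2 * r + 2) N rep κ k i₀ ∧
      Tc E ω z ρ (2 * r + 2) κ (Leg E ω z R κ (hk E ω z ρ R N k) (tgt E ω z ρ R N rep κ k i₀))
        (sg E ω z ρ R (2 * r + 2) N rep κ k i₀) := by
    rcases hit_spec N (fun s => hk E ω z ρ R N k ≤ s ∧ Tc E ω z ρ (2 * r + 2) κ
      (Leg E ω z R κ (hk E ω z ρ R N k) (tgt E ω z ρ R N rep κ k i₀)) s) with h | h
    · change sg E ω z ρ R (2 * r + 2) N rep κ k i₀ = N at h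
      omega
    · exact h
  refine ⟨κ, k, i₀, hκ, hkK, hi₀, hσk, by omega, hσ, fun hpass => ?_⟩
  obtain ⟨σ, hσdef⟩ : ∃ σ, σ = sg E ω z ρ R (2 * r + 2) N rep κ k i₀ := ⟨_, rfl⟩
  rw [← hσdef] at hσs hσk hσ hpass
  obtain ⟨hσ0, hσd, hσnew, y, hyL, hyc⟩ := hσ
  obtain ⟨i, j, hi1, hi2, hi3, hi4, hT1, hT2⟩ := hpass
  obtain ⟨tQ, q1, q2, qT⟩ := hT1 (1 - κ) hκ'
  obtain ⟨tP, p1, p2, pT⟩ := hT2 κ hκ
  have hmono : (E.Fr ω (hk E ω z ρ R N k))ᶜ ∩ Bx z R ⊆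
      TT (E.cf ω) (E.e ω) (E.U ω)ᶜ σ ∩ Bx z R := by
    rw [TT_eq]
    exact Set.inter_subset_inter_left _ (Set.compl_subset_compl.2 (Ex.fr_anti hσk))
  refine near_core' (s := s) (k := i) (l := n) (tQ := tQ) (tP := tP) hκ hWall hn hσ0 hσs hsn
    (fun h => hσnew (mem_PP_iff.1 h)) hnew hyc hcut (mem_PP_iff.2 (hyL.1.mono hσk))
    (Relation.ReflTransGen.trans (conn_symm'' (Conn.mono hmono hyL.2)) (Conn.mono hmono hxL.2))
    (fun a ha => ha.2) (fun a ha j h1 h2 h3 => ?_) (fun a ha => (hEgm a ha).2) (fun a ha => ?_)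
    hEgB (fun l h1 h2 => hin l (by omega) (by omega)) (hRE hdeep) h0 ho (by omega) q1 (by omega) p2
    le_rfl ?_ qT.2 ?_ pT.2
  · refine hi4 j h1 h2 ?_
    have h4 := ha.1
    rw [← h3] at h4
    exact h4.mono (by omega)
  · have h4 := ha.1
    refine inRE_of ?_
    rw [inB_iff] at h4 hσd ⊢
    omega
  · rw [TT_eq]
    exact qT.1
  · rw [TT_eq]
    exact pT.1

end Pool.Agent.SixB.Near
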