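import Pool.Agent.Lib.SixB.S8CountC
import Pool.Agent.Lib.SixB.S8Lay
import Pool.Agent.Lib.SixB.S8BarV
import Pool.Agent.Lib.SixB.S8NearRed

/-!
# Step 8, number of moves: arcs of a contour across a rectangle

`G` is finite, edge connected and without holes. An arc is a piece of its contour which crosses a
rectangle from the left side to the right side (`G` above the arc).

* `rect_nc`: planar fact for a rectangle.
* `out_walk`, `in_walk`: the outer (inner) faces along a piece of the contour are joined.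
* `Arc`, `arc_sep`: the outer faces at two different arcs are not joined in the rectangle outside `G`.
-/

set_option autoImplicit false

namespace Pool.Agent.SixB.CntW

open Finset Pool.Agent.Perc Pool.Agent.Perc6 Pool.Agent.Perc6.C2Aux Pool.Agent.Perc.Tips
open Pool.Agent.SixB.Top Pool.Agent.SixB.Mv Pool.Agent.SixB.Cnt

/-! ### A rectangle -/

private theorem const_int {f : ℤ → ZMod 2} {l u : ℤ} (h : ∀ y, l ≤ y → y < u → f y = f (y + 1)) :
    ∀ y, l ≤ y → y ≤ u → f y = f l := by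
  intro y hy
  induction y, hy using Int.leInduction with
  | base => exact fun _ => rfl
  | succ y hy ih =>
    intro hu
    rw [← h y hy (by omega)]
    exact ih (by omega)

/-- Two disjoint connected sets of faces of a rectangle: one has two places on the left side, the other
one has a place between them and a place on the right side. -/
theorem rect_nc {x₀ x₁ y₀ y₁ a₁ a₂ a₃ b : ℤ} {X Y : Set (ℤ × ℤ)}
    (hXR : X ⊆ (RF x₀ x₁ y₀ y₁ : Set (ℤ × ℤ))) (cX : Top.EConn X)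
    (hYR : Y ⊆ (RF x₀ x₁ y₀ y₁ : Set (ℤ × ℤ))) (cY : Top.EConn Y)
    (hXY : ∀ f ∈ X, f ∉ Y) (h12 : a₁ < a₂) (h23 : a₂ < a₃)
    (h1 : (x₀, a₁) ∈ X) (h3 : (x₀, a₃) ∈ X) (h2 : (x₀, a₂) ∈ Y) (hb : (x₁ - 1, b) ∈ Y) : False := by
  have hR : ∀ {x y : ℤ}, (x, y) ∈ (RF x₀ x₁ y₀ y₁ : Set (ℤ × ℤ)) ↔
      (x₀ ≤ x ∧ x < x₁) ∧ (y₀ ≤ y ∧ y < y₁) := by
    intro x y
    rw [Finset.mem_coe, RF, mem_product, mem_Ico, mem_Ico]
  have r1 := hR.1 (hXR h1)
  have r3 := hR.1 (hXR h3)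
  have r2 := hR.1 (hYR h2)
  have rb := hR.1 (hYR hb)
  have bl : ∀ y, y₀ ≤ y → y < y₁ → BD (RF x₀ x₁ y₀ y₁ : Set (ℤ × ℤ)) ((x₀, y, true), true) := by
    intro y hy1 hy2
    refine ⟨?_, ?_⟩
    · show (x₀, y) ∈ _
      rw [hR]; omega
    · show (x₀ - 1, y) ∉ _
      rw [hR]; omega
  have bb : ∀ x, x₀ ≤ x → x < x₁ → BD (RF x₀ x₁ y₀ y₁ : Set (ℤ × ℤ)) ((x, y₀, false), true) := by
    intro x hx1 hx2
    refine ⟨?_, ?_⟩
    · show (x, y₀) ∈ _
      rw [hR]; omega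
    · show (x, y₀ - 1) ∉ _
      rw [hR]; omega
  have br : ∀ y, y₀ ≤ y → y < y₁ → BD (RF x₀ x₁ y₀ y₁ : Set (ℤ × ℤ)) ((x₁, y, true), false) := by
    intro y hy1 hy2
    refine ⟨?_, ?_⟩
    · show (x₁ - 1, y) ∈ _
      rw [hR]; omega
    · show (x₁, y) ∉ _
      rw [hR]; omega
  obtain ⟨Φ, hΦ1, hΦ2⟩ := conn_pot (hasPot_RF x₀ x₁ y₀ y₁) hXR cX (bl a₁ r1.2.1 r1.2.2) h1
    (bl a₃ r3.2.1 r3.2.2) h3 (by simp only [ne_eq, Prod.mk.injEq]; omega)
  -- the left side
  have el : ∀ y, y₀ ≤ y → y < y₁ → y ≠ a₁ → y ≠ a₃ → Φ (x₀, y) = Φ (x₀, y + 1) := by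
    intro y hy1 hy2 n1 n3
    by_contra hne
    rcases (hΦ2 _ (bl y hy1 hy2)).1 (fun h => hne h.symm) with h | h
    · simp only [Prod.mk.injEq] at h; omega
    · simp only [Prod.mk.injEq] at h; omega
  have ea : Φ (x₀, a₁) ≠ Φ (x₀, a₁ + 1) := fun h =>
    (hΦ2 _ (bl a₁ r1.2.1 r1.2.2)).2 (Or.inl rfl) h.symm
  have eb : ∀ x, x₀ ≤ x → x < x₁ → Φ (x, y₀) = Φ (x + 1, y₀) := by
    intro x hx1 hx2
    by_contra hne
    rcases (hΦ2 _ (bb x hx1 hx2)).1 hne with h | h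
    · simp at h
    · simp at h
  have er : ∀ y, y₀ ≤ y → y < y₁ → Φ (x₁, y) = Φ (x₁, y + 1) := by
    intro y hy1 hy2
    by_contra hne
    rcases (hΦ2 _ (br y hy1 hy2)).1 hne with h | h
    · simp only [Prod.mk.injEq] at h; omega
    · simp only [Prod.mk.injEq] at h; omega
  have s1 : Φ (x₀, a₂) = Φ (x₀, a₁ + 1) :=
    const_int (f := fun y => Φ (x₀, y)) (l := a₁ + 1) (u := a₂)
      (fun y h4 h5 => el y (by omega) (by omega) (by omega) (by omega)) a₂ (by omega) le_rfl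
  have s2 : Φ (x₀, a₁) = Φ (x₀, y₀) :=
    const_int (f := fun y => Φ (x₀, y)) (l := y₀) (u := a₁)
      (fun y h4 h5 => el y (by omega) (by omega) (by omega) (by omega)) a₁ (by omega) le_rfl
  have s3 : Φ (x₁, y₀) = Φ (x₀, y₀) :=
    const_int (f := fun x => Φ (x, y₀)) (l := x₀) (u := x₁)
      (fun x h4 h5 => eb x (by omega) (by omega)) x₁ (by omega) le_rfl
  have s4 : Φ (x₁, b) = Φ (x₁, y₀) :=
    const_int (f := fun y => Φ (x₁, y)) (l := y₀) (u := b)
      (fun y h4 h5 => er y (by omega) (by omega)) b (by omega) le_rfl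
  have s5 : Φ (x₀, a₂) = Φ (x₁, b) :=
    Cst.econn cY (fun f hf => hΦ1 f (hYR hf) fun h => hXY f h hf) h2 hb
      (by unfold IsCor; simp) (by unfold IsCor; simp)
  exact ea (s2.trans (s3.symm.trans (s4.symm.trans (s5.symm.trans s1))))

/-! ### Walks along the contour -/

variable {G W : Set (ℤ × ℤ)} {A : UE × Bool}

theorem isCor_outF (i : ℕ) : IsCor (outF G A i) (vert G A i) := isCor_out_lf _

theorem isCor_outF_succ (i : ℕ) : IsCor (outF G A (i + 1)) (vert G A (i + 1)) := isCor_out_lf _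

theorem out_walk (hGf : G.Finite) (cG : Top.EConn G) (eG : Esc G) (hA : BD G A) {s t : ℕ} (hst : s ≤ t)
    (hW : ∀ i, s < i → i ≤ t → ∀ f, IsCor f (vert G A i) → f ∈ W) :
    ChI {f | f ∉ G ∧ f ∈ W} (outF G A s) (outF G A t) := by
  induction t, hst using Nat.le_induction with
  | base => exact ChI.refl _
  | succ t hst ih =>
    refine (ih fun i h1 h2 f hf => hW i h1 (by omega) f hf).trans ?_
    have hB := bd_side hA t
    have h1 : outF G A (t + 1) ∉ G := (bd_side hA (t + 1)).2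
    have h2 : IsCor (outF G A (t + 1)) (rg (side G A t)) := by
      rw [← vert_succ]
      exact isCor_outF_succ t
    refine ChI.mono ?_ (out_chain hGf cG eG hB h1 h2)
    rintro f ⟨h3, h4⟩
    exact ⟨h3, hW (t + 1) (by omega) le_rfl f (by rw [vert_succ]; exact h4)⟩

theorem in_walk (hA : BD G A) {s t : ℕ} (hst : s ≤ t)
    (hW : ∀ i, s < i → i ≤ t → ∀ f, IsCor f (vert G A i) → f ∈ W) :
    ChI {f | f ∈ G ∧ f ∈ W} (inF G A s) (inF G A t) := by
  induction t, hst using Nat.le_induction with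
  | base => exact ChI.refl _
  | succ t hst ih =>
    refine (ih fun i h1 h2 f hf => hW i h1 (by omega) f hf).trans ?_
    have hc : IsCor (crF G A t) (vert G A (t + 1)) := by
      rw [vert_succ]
      exact (isCor_rg_iff _ _).2 (Or.inr (Or.inr (Or.inl rfl)))
    have hc2 : IsCor (inF G A (t + 1)) (vert G A (t + 1)) := cor_vert _
    have hi : inF G A (t + 1) ∈ G := (bd_side hA (t + 1)).1
    have w1 := hW (t + 1) (by omega) le_rfl
    rcases lay_step G A t with h | ⟨h1, h2, h3⟩ | ⟨h1, h2, h3⟩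
    · rw [h]
      exact ChI.refl _
    · rw [h2]
      exact ChI.single h3 ⟨h1, w1 _ hc⟩
    · have k1 : ChI {f | f ∈ G ∧ f ∈ W} (inF G A t) (crF G A t) := ChI.single h2 ⟨h1, w1 _ hc⟩
      exact k1.trans (ChI.single h3 ⟨hi, w1 _ hc2⟩)

/-! ### Arcs across a rectangle -/

/-- The sides `s, …, t` of the contour cross the rectangle from the left side to the right side. -/
structure Arc (G : Set (ℤ × ℤ)) (A : UE × Bool) (x₀ x₁ y₀ y₁ : ℤ) (s t : ℕ) : Prop where
  st : s ≤ t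
  vs : (vert G A s).1 = x₀
  vt : (vert G A (t + 1)).1 = x₁
  x : ∀ i, s < i → i ≤ t → x₀ < (vert G A i).1 ∧ (vert G A i).1 < x₁
  y : ∀ i, s ≤ i → i ≤ t + 1 → y₀ < (vert G A i).2 ∧ (vert G A i).2 < y₁
  lt : x₀ < x₁

variable {x₀ x₁ y₀ y₁ : ℤ} {s t s' t' : ℕ}

/-- A side which goes to the right. -/
theorem side_right {B : UE × Bool} (h : (rg B).1 = (lf B).1 + 1) :
    B = (((lf B).1, (lf B).2, false), true) := by
  obtain ⟨⟨x, y, _ | _⟩, _ | _⟩ := B <;> simp [lf, rg] at h ⊢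
  omega

theorem step_fst (B : UE × Bool) : (rg B).1 ≤ (lf B).1 + 1 ∧ (lf B).1 ≤ (rg B).1 + 1 := by
  obtain ⟨⟨x, y, _ | _⟩, _ | _⟩ := B <;> simp [lf, rg] <;> omega

theorem step_snd (B : UE × Bool) : (rg B).2 ≤ (lf B).2 + 1 ∧ (lf B).2 ≤ (rg B).2 + 1 := by
  obtain ⟨⟨x, y, _ | _⟩, _ | _⟩ := B <;> simp [lf, rg] <;> omega

theorem Arc.side_s (h : Arc G A x₀ x₁ y₀ y₁ s t) :
    side G A s = ((x₀, (vert G A s).2, false), true) := by
  have h1 : (vert G A (s + 1)).1 = x₀ + 1 := by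
    have h2 := step_fst (side G A s)
    rw [← vert_succ] at h2
    have h3 : (lf (side G A s)).1 = x₀ := h.vs
    have h4 := h.st
    rcases Nat.lt_or_ge s t with h5 | h5
    · have := (h.x (s + 1) (by omega) (by omega)).1
      omega
    · have h6 : s = t := by omega
      have h7 := h.vt
      rw [← h6] at h7
      have := h.lt
      omega
  have h2 := side_right (B := side G A s) (by
    rw [← vert_succ, h1]
    show _ = (vert G A s).1 + 1
    rw [h.vs])
  rw [h2]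
  show (((vert G A s).1, (vert G A s).2, false), true) = _
  rw [h.vs]

theorem Arc.side_t (h : Arc G A x₀ x₁ y₀ y₁ s t) :
    side G A t = ((x₁ - 1, (vert G A t).2, false), true) := by
  have h1 : (vert G A t).1 = x₁ - 1 := by
    have h2 := step_fst (side G A t)
    rw [← vert_succ, h.vt] at h2
    have h3 : (lf (side G A t)).1 = (vert G A t).1 := rfl
    have h4 := h.st
    rcases Nat.lt_or_ge s t with h5 | h5
    · have := (h.x t (by omega) (by omega)).2
      omega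
    · have h6 : s = t := by omega
      have h7 := h.vs
      rw [h6] at h7
      have := h.lt
      omega
  have h2 := side_right (B := side G A t) (by
    rw [← vert_succ, h.vt]
    show _ = (vert G A t).1 + 1
    rw [h1]
    ring)
  rw [h2]
  show (((vert G A t).1, (vert G A t).2, false), true) = _
  rw [h1]

theorem Arc.cor (h : Arc G A x₀ x₁ y₀ y₁ s t) : ∀ i, s < i → i ≤ t → ∀ f, IsCor f (vert G A i) →
    f ∈ (RF x₀ x₁ y₀ y₁ : Set (ℤ × ℤ)) := by
  intro i h1 h2 f hf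
  have h3 := h.x i h1 h2
  have h4 := h.y i h1.le (by omega)
  obtain ⟨f1, f2⟩ := f
  rw [Finset.mem_coe, RF, mem_product, mem_Ico, mem_Ico]
  unfold IsCor at hf
  simp only at hf ⊢
  omega

theorem Arc.inF_s (h : Arc G A x₀ x₁ y₀ y₁ s t) : inF G A s = (x₀, (vert G A s).2) := by
  unfold inF
  rw [h.side_s]
  rfl

theorem Arc.outF_s (h : Arc G A x₀ x₁ y₀ y₁ s t) : outF G A s = (x₀, (vert G A s).2 - 1) := by
  unfold outF
  rw [h.side_s]
  rfl

theorem Arc.inF_t (h : Arc G A x₀ x₁ y₀ y₁ s t) : inF G A t = (x₁ - 1, (vert G A t).2) := by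
  unfold inF
  rw [h.side_t]
  rfl

theorem Arc.outF_t (h : Arc G A x₀ x₁ y₀ y₁ s t) : outF G A t = (x₁ - 1, (vert G A t).2 - 1) := by
  unfold outF
  rw [h.side_t]
  rfl

theorem Arc.mem_s (h : Arc G A x₀ x₁ y₀ y₁ s t) : inF G A s ∈ (RF x₀ x₁ y₀ y₁ : Set (ℤ × ℤ)) ∧
    outF G A s ∈ (RF x₀ x₁ y₀ y₁ : Set (ℤ × ℤ)) := by
  have h1 := h.y s le_rfl (by have := h.st; omega)
  have h2 := h.lt
  rw [h.inF_s, h.outF_s]
  simp only [Finset.mem_coe, RF, mem_product, mem_Ico]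
  omega

/-- The sides of the arc are in the rectangle. -/
theorem Arc.mem (h : Arc G A x₀ x₁ y₀ y₁ s t) {i : ℕ} (h1 : s ≤ i) (h2 : i ≤ t) :
    inF G A i ∈ (RF x₀ x₁ y₀ y₁ : Set (ℤ × ℤ)) ∧ outF G A i ∈ (RF x₀ x₁ y₀ y₁ : Set (ℤ × ℤ)) := by
  rcases h1.eq_or_lt with rfl | h3
  · exact h.mem_s
  · exact ⟨h.cor i h3 h2 _ (cor_vert i), h.cor i h3 h2 _ (isCor_outF i)⟩

theorem Arc.out_chain (hGf : G.Finite) (cG : Top.EConn G) (eG : Esc G) (hA : BD G A)
    (h : Arc G A x₀ x₁ y₀ y₁ s t) {i : ℕ} (h1 : s ≤ i) (h2 : i ≤ t) :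
    ChI {f | f ∉ G ∧ f ∈ (RF x₀ x₁ y₀ y₁ : Set (ℤ × ℤ))} (outF G A s) (outF G A i) :=
  out_walk hGf cG eG hA h1 fun j h3 h4 => h.cor j h3 (by omega)

theorem Arc.in_chain (hA : BD G A) (h : Arc G A x₀ x₁ y₀ y₁ s t) {i : ℕ} (h1 : s ≤ i) (h2 : i ≤ t) :
    ChI {f | f ∈ G ∧ f ∈ (RF x₀ x₁ y₀ y₁ : Set (ℤ × ℤ))} (inF G A s) (inF G A i) :=
  in_walk hA h1 fun j h3 h4 => h.cor j h3 (by omega)

private theorem arc_sep_aux (hA : BD G A)
    (h : Arc G A x₀ x₁ y₀ y₁ s t) (h' : Arc G A x₀ x₁ y₀ y₁ s' t')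
    (hlt : (vert G A s).2 < (vert G A s').2)
    (hc : ChI {f | f ∉ G ∧ f ∈ (RF x₀ x₁ y₀ y₁ : Set (ℤ × ℤ))} (outF G A s) (outF G A s')) :
    False := by
  have hin : inF G A s ∈ G := (bd_side hA s).1
  have hout : outF G A s ∉ G := (bd_side hA s).2
  have hout' : outF G A s' ∉ G := (bd_side hA s').2
  set R : Set (ℤ × ℤ) := (RF x₀ x₁ y₀ y₁ : Set (ℤ × ℤ)) with hR
  have m1 : outF G A s ∈ {f | f ∉ G ∧ f ∈ R} := ⟨hout, h.mem_s.2⟩
  have m2 : inF G A s ∈ {f | f ∈ G ∧ f ∈ R} := ⟨hin, h.mem_s.1⟩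
  have sX := compT_sub m1
  have sY := compT_sub m2
  have hne : (vert G A s).2 ≠ (vert G A s').2 - 1 := by
    intro he
    apply hout'
    rw [h'.outF_s, ← he, ← h.inF_s]
    exact hin
  refine rect_nc (x₀ := x₀) (x₁ := x₁) (y₀ := y₀) (y₁ := y₁) (a₁ := (vert G A s).2 - 1)
    (a₂ := (vert G A s).2) (a₃ := (vert G A s').2 - 1) (b := (vert G A t).2)
    (X := compT {f | f ∉ G ∧ f ∈ R} (outF G A s)) (Y := compT {f | f ∈ G ∧ f ∈ R} (inF G A s))
    (fun f hf => (sX hf).2) (econn_compT m1) (fun f hf => (sY hf).2) (econn_compT m2)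
    (fun f hf hf' => (sX hf).1 (sY hf').1) (by omega) (by omega) ?_ ?_ ?_ ?_
  · rw [← h.outF_s]
    exact self_mem_compT
  · rw [← h'.outF_s]
    exact hc
  · rw [← h.inF_s]
    exact self_mem_compT
  · rw [← h.inF_t]
    exact h.in_chain hA h.st le_rfl

/-- **Two arcs.** The outer faces at two different arcs are not joined in the rectangle outside `G`. -/
theorem arc_sep (hGf : G.Finite) (cG : Top.EConn G) (eG : Esc G) (hA : BD G A)
    (h : Arc G A x₀ x₁ y₀ y₁ s t) (h' : Arc G A x₀ x₁ y₀ y₁ s' t')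
    (hne : side G A s ≠ side G A s') {i i' : ℕ} (hi : s ≤ i) (hit : i ≤ t) (hi' : s' ≤ i')
    (hit' : i' ≤ t')
    (hc : ChI {f | f ∉ G ∧ f ∈ (RF x₀ x₁ y₀ y₁ : Set (ℤ × ℤ))} (outF G A i) (outF G A i')) :
    False := by
  have m' : outF G A s' ∈ {f | f ∉ G ∧ f ∈ (RF x₀ x₁ y₀ y₁ : Set (ℤ × ℤ))} :=
    ⟨(bd_side hA s').2, h'.mem_s.2⟩
  have m : outF G A s ∈ {f | f ∉ G ∧ f ∈ (RF x₀ x₁ y₀ y₁ : Set (ℤ × ℤ))} :=
    ⟨(bd_side hA s).2, h.mem_s.2⟩
  have c1 := (h.out_chain hGf cG eG hA hi hit).trans (hc.trans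
    ((h'.out_chain hGf cG eG hA hi' hit').symm m'))
  rcases lt_trichotomy (vert G A s).2 (vert G A s').2 with h1 | h1 | h1
  · exact arc_sep_aux hA h h' h1 c1
  · apply hne
    rw [h.side_s, h'.side_s, h1]
  · exact arc_sep_aux hA h' h h1 (c1.symm m)

/-! ### Sequences -/

/-- The last visit of `(-∞, a]` before `b` is reached. -/
theorem last_le {f : ℕ → ℤ} (hf : ∀ i, f (i + 1) ≤ f i + 1) {i u : ℕ} (hiu : i ≤ u) {a b : ℤ}
    (hab : a < b) (hi : f i ≤ a) (hu : f u = b) :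
    ∃ s, i ≤ s ∧ s < u ∧ f s = a ∧ ∀ l, s < l → l < u → a < f l := by
  obtain ⟨s, h1, h2, h3, h4⟩ := last_time (P := fun l => f l ≤ a) hi hiu
  have h5 : s < u := by
    rcases h2.eq_or_lt with rfl | h5
    · exfalso; omega
    · exact h5
  refine ⟨s, h1, h5, ?_, fun l hl hlu => by
    have := h4 l hl hlu.le
    omega⟩
  have h6 : a < f (s + 1) := by
    have := h4 (s + 1) (by omega) (by omega)
    omega
  have := hf s
  omega

/-- The first visit of `(-∞, a]` after `b`. -/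
theorem first_le {f : ℕ → ℤ} (hf : ∀ i, f i ≤ f (i + 1) + 1) {s j : ℕ} (hsj : s ≤ j) {a b : ℤ}
    (hab : a < b) (hs : f s = b) (hj : f j ≤ a) :
    ∃ u, s < u ∧ u ≤ j ∧ f u = a ∧ ∀ l, s < l → l < u → a < f l := by
  classical
  have hex : ∃ u, s ≤ u ∧ f u ≤ a := ⟨j, hsj, hj⟩
  obtain ⟨h1, h2⟩ := Nat.find_spec hex
  have h3 : ∀ l, s ≤ l → l < Nat.find hex → a < f l := fun l h4 h5 => by
    have := Nat.find_min hex h5
    push Not at this
    exact this h4
  have h4 : s < Nat.find hex := by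
    rcases h1.eq_or_lt with h4 | h4
    · exfalso
      rw [← h4] at h2
      omega
    · exact h4
  refine ⟨Nat.find hex, h4, Nat.find_min' hex ⟨hsj, hj⟩, ?_, fun l h5 h6 => h3 l h5.le h6⟩
  have h5 := h3 (Nat.find hex - 1) (by omega) (by omega)
  have h6 := hf (Nat.find hex - 1)
  rw [show Nat.find hex - 1 + 1 = Nat.find hex by omega] at h6
  omega

/-- A passage from `x₀` to `x₁` of the first coordinate, inside the strip of half width `b`. -/
structure Psg (v : ℕ → ℤ × ℤ) (x₀ x₁ b : ℤ) (s t : ℕ) : Prop where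
  st : s ≤ t
  vs : (v s).1 = x₀
  vt : (v (t + 1)).1 = x₁
  x : ∀ i, s < i → i ≤ t → x₀ < (v i).1 ∧ (v i).1 < x₁
  y : ∀ i, s ≤ i → i ≤ t + 1 → -b ≤ (v i).2 ∧ (v i).2 ≤ b

/-- The quarter turn of the plane. -/
def qt (v : ℤ × ℤ) : ℤ × ℤ := (-v.2, v.1)

/-- The sup norm. -/
def nm (v : ℤ × ℤ) : ℤ := max |v.1| |v.2|

theorem nm_le {v : ℤ × ℤ} {r : ℤ} : nm v ≤ r ↔ -r ≤ v.1 ∧ v.1 ≤ r ∧ -r ≤ v.2 ∧ v.2 ≤ r := by
  unfold nm
  rw [max_le_iff, abs_le, abs_le]
  omega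

/-- Steps of size at most one in each coordinate. -/
def St (v : ℕ → ℤ × ℤ) : Prop := ∀ i, (v (i + 1)).1 ≤ (v i).1 + 1 ∧ (v i).1 ≤ (v (i + 1)).1 + 1 ∧
  (v (i + 1)).2 ≤ (v i).2 + 1 ∧ (v i).2 ≤ (v (i + 1)).2 + 1

theorem St.nm {v : ℕ → ℤ × ℤ} (h : St v) (i : ℕ) : CntW.nm (v (i + 1)) ≤ CntW.nm (v i) + 1 ∧
    CntW.nm (v i) ≤ CntW.nm (v (i + 1)) + 1 := by
  have h1 := h i
  have h2 := nm_le.1 (le_refl (CntW.nm (v i)))
  have h3 := nm_le.1 (le_refl (CntW.nm (v (i + 1))))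
  rw [nm_le, nm_le]
  omega

theorem nm_eq_cases {v : ℤ × ℤ} {b : ℤ} (h : nm v = b) :
    v.1 = b ∨ v.1 = -b ∨ v.2 = b ∨ v.2 = -b := by
  have h1 := nm_le.1 h.le
  by_contra hno
  push Not at hno
  have : nm v ≤ b - 1 := by
    rw [nm_le]
    omega
  omega

/-- **Outward passages.** -/
theorem exists_out {v : ℕ → ℤ × ℤ} (hv : St v) {i j : ℕ} (hij : i ≤ j) {a b : ℤ} (hab : a < b)
    (hi : nm (v i) ≤ a) (hj : b < nm (v j)) :
    ∃ k < 4, ∃ s t, i ≤ s ∧ t < j ∧ Psg (fun l => qt^[k] (v l)) a b b s t := by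
  classical
  obtain ⟨u', h1, h2, h3, h4⟩ := first_le (f := fun l => - nm (v l)) (fun l => by
    have := (hv.nm l).1
    omega) hij (a := -b) (b := - nm (v i)) (by omega) rfl (by omega)
  obtain ⟨t, rfl⟩ : ∃ t, u' = t + 1 := ⟨u' - 1, by omega⟩
  have h5 : ∀ l, i ≤ l → l ≤ t → nm (v l) < b := by
    intro l hl1 hl2
    rcases hl1.eq_or_lt with rfl | hl1
    · omega
    · have := h4 l hl1 (by omega)
      omega
  have h6 : ∀ l, i ≤ l → l ≤ t → -b < (v l).1 ∧ (v l).1 < b ∧ -b < (v l).2 ∧ (v l).2 < b := by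
    intro l hl1 hl2
    have h7 := h5 l hl1 hl2
    have h8 := nm_le.1 (show nm (v l) ≤ b - 1 by omega)
    omega
  have h7 : ∀ l, i ≤ l → l ≤ t + 1 → -b ≤ (v l).1 ∧ (v l).1 ≤ b ∧ -b ≤ (v l).2 ∧ (v l).2 ≤ b := by
    intro l hl1 hl2
    rcases hl2.eq_or_lt with rfl | hl2
    · exact nm_le.1 (by omega)
    · have := h6 l hl1 (by omega)
      omega
  have ha := nm_le.1 hi
  rcases nm_eq_cases (show nm (v (t + 1)) = b by omega) with h8 | h8 | h8 | h8
  · obtain ⟨s, k1, k2, k3, k4⟩ := last_le (f := fun l => (v l).1) (fun l => (hv l).1) h1.le hab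
      (by omega) h8
    refine ⟨0, by omega, s, t, k1, by omega, by omega, k3, h8, fun l l1 l2 => ?_, fun l l1 l2 => ?_⟩
    · exact ⟨k4 l l1 (by omega), (h6 l (by omega) l2).2.1⟩
    · have := h7 l (by omega) l2
      simp only [Function.iterate_zero, id]
      omega
  · obtain ⟨s, k1, k2, k3, k4⟩ := last_le (f := fun l => - (v l).1) (fun l => by
      have := (hv l).2.1
      omega) h1.le hab (by omega) (by omega)
    refine ⟨2, by omega, s, t, k1, by omega, by omega, ?_, ?_, fun l l1 l2 => ?_,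
      fun l l1 l2 => ?_⟩
    · show -(v s).1 = a
      exact k3
    · show -(v (t + 1)).1 = b
      omega
    · show a < -(v l).1 ∧ -(v l).1 < b
      exact ⟨k4 l l1 (by omega), by have := h6 l (by omega) l2; omega⟩
    · show -b ≤ -(v l).2 ∧ -(v l).2 ≤ b
      have := h7 l (by omega) l2
      omega
  · obtain ⟨s, k1, k2, k3, k4⟩ := last_le (f := fun l => (v l).2) (fun l => (hv l).2.2.1) h1.le hab
      (by omega) h8
    refine ⟨3, by omega, s, t, k1, by omega, by omega, ?_, ?_, fun l l1 l2 => ?_,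
      fun l l1 l2 => ?_⟩
    · show - -(v s).2 = a
      omega
    · show - -(v (t + 1)).2 = b
      omega
    · show a < - -(v l).2 ∧ - -(v l).2 < b
      have := h6 l (by omega) l2
      have := k4 l l1 (by omega)
      omega
    · show -b ≤ -(v l).1 ∧ -(v l).1 ≤ b
      have := h7 l (by omega) l2
      omega
  · obtain ⟨s, k1, k2, k3, k4⟩ := last_le (f := fun l => - (v l).2) (fun l => by
      have := (hv l).2.2.2
      omega) h1.le hab (by omega) (by omega)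
    refine ⟨1, by omega, s, t, k1, by omega, by omega, k3, ?_, fun l l1 l2 => ?_,
      fun l l1 l2 => ?_⟩
    · show -(v (t + 1)).2 = b
      omega
    · show a < -(v l).2 ∧ -(v l).2 < b
      exact ⟨k4 l l1 (by omega), by have := h6 l (by omega) l2; omega⟩
    · show -b ≤ (v l).1 ∧ (v l).1 ≤ b
      have := h7 l (by omega) l2
      omega

/-- **Inward passages.** -/
theorem exists_in {v : ℕ → ℤ × ℤ} (hv : St v) {i j : ℕ} (hij : i ≤ j) {a b : ℤ} (hab : a < b)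
    (hi : b < nm (v i)) (hj : nm (v j) ≤ a) :
    ∃ k < 4, ∃ s t, i ≤ s ∧ t < j ∧ Psg (fun l => qt^[k] (v l)) (-b) (-a) b s t := by
  classical
  obtain ⟨s, h1, h2, h3, h4⟩ := last_le (f := fun l => - nm (v l)) (fun l => by
    have := (hv.nm l).2
    omega) hij (a := -b) (b := - nm (v j)) (by omega) (by omega) rfl
  have h5 : ∀ l, s < l → l ≤ j → nm (v l) < b := by
    intro l hl1 hl2
    rcases hl2.eq_or_lt with rfl | hl2
    · omega
    · have := h4 l hl1 hl2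
      omega
  have h6 : ∀ l, s < l → l ≤ j → -b < (v l).1 ∧ (v l).1 < b ∧ -b < (v l).2 ∧ (v l).2 < b := by
    intro l hl1 hl2
    have h7 := h5 l hl1 hl2
    have h8 := nm_le.1 (show nm (v l) ≤ b - 1 by omega)
    omega
  have h7 : ∀ l, s ≤ l → l ≤ j → -b ≤ (v l).1 ∧ (v l).1 ≤ b ∧ -b ≤ (v l).2 ∧ (v l).2 ≤ b := by
    intro l hl1 hl2
    rcases hl1.eq_or_lt with rfl | hl1
    · exact nm_le.1 (by omega)
    · have := h6 l hl1 (by omega)
      omega
  have ha := nm_le.1 hj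
  rcases nm_eq_cases (show nm (v s) = b by omega) with h8 | h8 | h8 | h8
  · obtain ⟨u, k1, k2, k3, k4⟩ := first_le (f := fun l => (v l).1) (fun l => (hv l).2.1) h2.le hab
      h8 (by omega)
    obtain ⟨t, rfl⟩ : ∃ t, u = t + 1 := ⟨u - 1, by omega⟩
    refine ⟨2, by omega, s, t, h1, by omega, by omega, ?_, ?_, fun l l1 l2 => ?_,
      fun l l1 l2 => ?_⟩
    · show -(v s).1 = -b
      omega
    · show -(v (t + 1)).1 = -a
      omega
    · show -b < -(v l).1 ∧ -(v l).1 < -a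
      have := h6 l l1 (by omega)
      have := k4 l l1 (by omega)
      omega
    · show -b ≤ -(v l).2 ∧ -(v l).2 ≤ b
      have := h7 l (by omega) (by omega)
      omega
  · obtain ⟨u, k1, k2, k3, k4⟩ := first_le (f := fun l => -(v l).1) (fun l => by
      have := (hv l).1
      omega) h2.le hab (by omega) (by omega)
    obtain ⟨t, rfl⟩ : ∃ t, u = t + 1 := ⟨u - 1, by omega⟩
    refine ⟨0, by omega, s, t, h1, by omega, by omega, ?_, ?_, fun l l1 l2 => ?_,
      fun l l1 l2 => ?_⟩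
    · show (v s).1 = -b
      omega
    · show (v (t + 1)).1 = -a
      omega
    · show -b < (v l).1 ∧ (v l).1 < -a
      have := h6 l l1 (by omega)
      have := k4 l l1 (by omega)
      omega
    · show -b ≤ (v l).2 ∧ (v l).2 ≤ b
      have := h7 l (by omega) (by omega)
      omega
  · obtain ⟨u, k1, k2, k3, k4⟩ := first_le (f := fun l => (v l).2) (fun l => (hv l).2.2.2) h2.le hab
      h8 (by omega)
    obtain ⟨t, rfl⟩ : ∃ t, u = t + 1 := ⟨u - 1, by omega⟩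
    refine ⟨1, by omega, s, t, h1, by omega, by omega, ?_, ?_, fun l l1 l2 => ?_,
      fun l l1 l2 => ?_⟩
    · show -(v s).2 = -b
      omega
    · show -(v (t + 1)).2 = -a
      omega
    · show -b < -(v l).2 ∧ -(v l).2 < -a
      have := h6 l l1 (by omega)
      have := k4 l l1 (by omega)
      omega
    · show -b ≤ (v l).1 ∧ (v l).1 ≤ b
      have := h7 l (by omega) (by omega)
      omega
  · obtain ⟨u, k1, k2, k3, k4⟩ := first_le (f := fun l => -(v l).2) (fun l => by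
      have := (hv l).2.2.1
      omega) h2.le hab (by omega) (by omega)
    obtain ⟨t, rfl⟩ : ∃ t, u = t + 1 := ⟨u - 1, by omega⟩
    refine ⟨3, by omega, s, t, h1, by omega, by omega, ?_, ?_, fun l l1 l2 => ?_,
      fun l l1 l2 => ?_⟩
    · show - -(v s).2 = -b
      omega
    · show - -(v (t + 1)).2 = -a
      omega
    · show -b < - -(v l).2 ∧ - -(v l).2 < -a
      have := h6 l l1 (by omega)
      have := k4 l l1 (by omega)
      omega
    · show -b ≤ -(v l).1 ∧ -(v l).1 ≤ b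
      have := h7 l (by omega) (by omega)
      omega

/-! ### The number of arcs in one rectangle -/

theorem mem_bx {z f : ℤ × ℤ} {r : ℤ} : f ∈ Near.Bx z r ↔
    z.1 - r ≤ f.1 ∧ f.1 < z.1 + r ∧ z.2 - r ≤ f.2 ∧ f.2 < z.2 + r := by
  obtain ⟨f1, f2⟩ := f
  unfold Near.Bx
  rw [Finset.mem_coe, RF, mem_product, mem_Ico, mem_Ico]
  simp only
  tauto

/-- The outer faces at the contour of `G` in a small box have at most `C` classes. -/
def Cl (G : Set (ℤ × ℤ)) (A : UE × Bool) (z : ℤ × ℤ) (ρ r : ℤ) (C : ℕ) : Prop :=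
  ∃ c : ℤ × ℤ → ℕ, (∀ i, outF G A i ∈ Near.Bx z ρ → c (outF G A i) < C) ∧
    ∀ i j, outF G A i ∈ Near.Bx z ρ → outF G A j ∈ Near.Bx z ρ →
      c (outF G A i) = c (outF G A j) →
      ChI {h | h ∉ G ∧ h ∈ Near.Bx z r} (outF G A i) (outF G A j)

/-- The vertices of the contour relative to `y`. -/
noncomputable def rv0 (G : Set (ℤ × ℤ)) (A : UE × Bool) (y : ℤ × ℤ) (l : ℕ) : ℤ × ℤ :=
  vert G A l - y

theorem st_rv0 (y : ℤ × ℤ) : St (rv0 G A y) := by
  intro i
  have h1 := step_fst (side G A i)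
  have h2 := step_snd (side G A i)
  rw [← vert_succ] at h1 h2
  have h3 : lf (side G A i) = vert G A i := rfl
  rw [h3] at h1 h2
  unfold rv0
  simp only [Prod.fst_sub, Prod.snd_sub]
  omega

variable {y : ℤ × ℤ} {X₀ X₁ b ρ r : ℤ} {m C M : ℕ}

theorem Psg.arc (h : Psg (rv0 G A y) X₀ X₁ b s t) (hr : 1 ≤ r) (hX : X₀ < X₁) :
    Arc G A (y.1 + X₀) (y.1 + X₁) (y.2 - b - r) (y.2 + b + r) s t := by
  have e1 : ∀ l, (vert G A l).1 = y.1 + (rv0 G A y l).1 := fun l => by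
    unfold rv0
    simp
  have e2 : ∀ l, (vert G A l).2 = y.2 + (rv0 G A y l).2 := fun l => by
    unfold rv0
    simp
  refine ⟨h.st, ?_, ?_, fun i h1 h2 => ?_, fun i h1 h2 => ?_, by omega⟩
  · rw [e1, h.vs]
  · rw [e1, h.vt]
  · have := h.x i h1 h2
    rw [e1]
    omega
  · have := h.y i h1 h2
    rw [e2]
    omega

/-- **The number of arcs** which cross one rectangle. -/
theorem arcs_le (hGf : G.Finite) (cG : Top.EConn G) (eG : Esc G) (hA : BD G A) (hm : Per G m A)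
    (hρ : 1 ≤ ρ) (hr : 1 ≤ r) (hX : X₀ + 2 * r ≤ X₁) (hM : 2 * b + 1 ≤ M * ρ)
    (hcl : ∀ z : ℤ × ℤ, z.1 = y.1 + X₀ + r → y.2 - b ≤ z.2 → z.2 ≤ y.2 + b → Cl G A z ρ r C)
    {ι : Type*} (S : Finset ι) (s t : ι → ℕ)
    (hS : ∀ p ∈ S, t p < m ∧ Psg (rv0 G A y) X₀ X₁ b (s p) (t p))
    (hinj : ∀ p ∈ S, ∀ p' ∈ S, s p = s p' → p = p') : S.card ≤ M * C := by
  classical
  -- the middle
  have hmid : ∀ p ∈ S, ∃ i l : ℕ, s p < i ∧ i ≤ t p ∧ l < M ∧
      outF G A i ∈ Near.Bx (y.1 + X₀ + r, y.2 - b + l * ρ) ρ ∧ y.2 - b + l * ρ ≤ y.2 + b := by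
    intro p hp
    obtain ⟨h1, h2⟩ := hS p hp
    have hst := h2.st
    obtain ⟨i, k1, k2, k3, -⟩ := last_le (f := fun l => (rv0 G A y l).1)
      (fun l => ((st_rv0 y) l).1) (i := s p) (u := t p + 1) (by omega) (a := X₀ + r) (b := X₁)
      (by omega) (by have := h2.vs; omega) h2.vt
    have k4 : s p < i := by
      rcases k1.eq_or_lt with k4 | k4
      · exfalso
        have := h2.vs
        rw [k4] at this
        omega
      · exact k4
    have k5 := h2.y i k4.le (by omega)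
    have k6 : 0 ≤ (rv0 G A y i).2 + b := by omega
    obtain ⟨l, hl⟩ : ∃ l : ℕ, (l : ℤ) = ((rv0 G A y i).2 + b) / ρ :=
      ⟨(((rv0 G A y i).2 + b) / ρ).toNat, Int.toNat_of_nonneg (Int.ediv_nonneg k6 (by omega))⟩
    have k7 := Int.emod_add_mul_ediv ((rv0 G A y i).2 + b) ρ
    have k8 := Int.emod_nonneg ((rv0 G A y i).2 + b) (show ρ ≠ 0 by omega)
    have k9 := Int.emod_lt_of_pos ((rv0 G A y i).2 + b) (show 0 < ρ by omega)
    rw [← hl] at k7
    have k10 : ρ * (l : ℤ) = l * ρ := mul_comm _ _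
    have e1 : (vert G A i).1 = y.1 + (rv0 G A y i).1 := by
      unfold rv0
      simp
    have e2 : (vert G A i).2 = y.2 + (rv0 G A y i).2 := by
      unfold rv0
      simp
    refine ⟨i, l, k4, by omega, ?_, ?_, by omega⟩
    · by_contra hlM
      push Not at hlM
      have h6 : (M : ℤ) * ρ ≤ l * ρ := mul_le_mul_of_nonneg_right (by exact_mod_cast hlM) (by omega)
      omega
    · have h7 : IsCor (outF G A i) (vert G A i) := isCor_outF i
      rw [mem_bx]
      unfold IsCor at h7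
      simp only
      omega
  choose! i l hi1 hi2 hl hbx hle using hmid
  have hc : ∀ k : ℕ, ∃ c : ℤ × ℤ → ℕ, y.2 - b + k * ρ ≤ y.2 + b →
      (∀ i, outF G A i ∈ Near.Bx (y.1 + X₀ + r, y.2 - b + k * ρ) ρ → c (outF G A i) < C) ∧
      ∀ i j, outF G A i ∈ Near.Bx (y.1 + X₀ + r, y.2 - b + k * ρ) ρ →
        outF G A j ∈ Near.Bx (y.1 + X₀ + r, y.2 - b + k * ρ) ρ →
        c (outF G A i) = c (outF G A j) →
        ChI {h | h ∉ G ∧ h ∈ Near.Bx (y.1 + X₀ + r, y.2 - b + k * ρ) r} (outF G A i)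
          (outF G A j) := by
    intro k
    by_cases hk : y.2 - b + k * ρ ≤ y.2 + b
    · have h0 : (0 : ℤ) ≤ (k : ℤ) * ρ := mul_nonneg (Int.natCast_nonneg k) (by omega)
      obtain ⟨c, h1, h2⟩ := hcl (y.1 + X₀ + r, y.2 - b + k * ρ) rfl (by simp only; omega) hk
      exact ⟨c, fun _ => ⟨h1, h2⟩⟩
    · exact ⟨fun _ => 0, fun h => absurd h hk⟩
  choose c hc using hc
  have hcard : S.card ≤ (range M ×ˢ range C).card := by
    refine Finset.card_le_card_of_injOn (fun p => (l p, c (l p) (outF G A (i p)))) ?_ ?_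
    · intro p hp
      rw [Finset.mem_coe] at hp
      rw [Finset.mem_coe, mem_product, mem_range, mem_range]
      exact ⟨hl p hp, (hc (l p) (hle p hp)).1 _ (hbx p hp)⟩
    · intro p hp p' hp' he
      rw [Finset.mem_coe] at hp hp'
      have he1 : l p = l p' := (Prod.ext_iff.1 he).1
      have he2 : c (l p) (outF G A (i p)) = c (l p') (outF G A (i p')) := (Prod.ext_iff.1 he).2
      by_contra hne
      have hss : s p ≠ s p' := fun h => hne (hinj p hp p' hp' h)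
      have hp1 := hS p hp
      have hp2 := hS p' hp'
      have h1 := hp1.2.arc (r := r) hr (by omega)
      have h2 := hp2.2.arc (r := r) hr (by omega)
      refine arc_sep hGf cG eG hA h1 h2 (fun h => hss ?_) (hi1 p hp).le (hi2 p hp)
        (hi1 p' hp').le (hi2 p' hp') ?_
      · have h3 := hp1.2.st
        have h4 := hp2.2.st
        exact hm.inj _ (by omega) _ (by omega) h
      · rw [← he1] at he2
        have h3 := (hc (l p) (hle p hp)).2 _ _ (hbx p hp) (by rw [he1]; exact hbx p' hp') he2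
        refine ChI.mono ?_ h3
        rintro f ⟨h4, h5⟩
        refine ⟨h4, ?_⟩
        rw [mem_bx] at h5
        have h6 := hle p hp
        have h7 : (0 : ℤ) ≤ (l p : ℤ) * ρ := mul_nonneg (Int.natCast_nonneg _) (by omega)
        obtain ⟨f1, f2⟩ := f
        rw [Finset.mem_coe, RF, mem_product, mem_Ico, mem_Ico]
        simp only at h5 ⊢
        omega
  rw [card_product, card_range, card_range] at hcard
  exact hcard

end Pool.Agent.SixB.CntW
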