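import Pool.Agent.Lib.SixB.S8Thick
import Pool.Agent.Lib.SixB.S8Sub
import Pool.Agent.Lib.SixB.S8NearRed

/-!
# 6BD step 8: the quarter turn of the plane

`rV`, `rF`, `rA`: the quarter turn of the vertices, of the faces, of the directed unit edges. All
notions for contours are invariant: `ahead`, `rv`, `rtn`, `lf`, `rg`, `BD`, `sc`, `Per`, `Cyc`,
`AdjF`, `IsCor`, `ChI`, `EConn`, `Esc`, boxes.
-/

set_option autoImplicit false

namespace Pool.Agent.SixB.Rot

open Finset Pool.Agent.Perc Pool.Agent.Perc6 Pool.Agent.Perc.Tips Pool.Agent.SixB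
  Pool.Agent.SixB.Top Pool.Agent.SixB.Mv

/-- The quarter turn of a vertex. -/
def rV (v : ℤ × ℤ) : ℤ × ℤ := (-v.2, v.1)

/-- The quarter turn of a face. -/
def rF (f : ℤ × ℤ) : ℤ × ℤ := (-f.2 - 1, f.1)

/-- The quarter turn of a directed unit edge. -/
def rA : UE × Bool → UE × Bool
  | ((x, y, false), d) => ((-y, x, true), !d)
  | ((x, y, true), d) => ((-y - 1, x, false), d)

/-! ### Four times -/

theorem rV_four (v : ℤ × ℤ) : rV (rV (rV (rV v))) = v := by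
  obtain ⟨x, y⟩ := v
  simp [rV]

theorem rF_four (f : ℤ × ℤ) : rF (rF (rF (rF f))) = f := by
  obtain ⟨x, y⟩ := f
  simp [rF]

theorem rA_four (A : UE × Bool) : rA (rA (rA (rA A))) = A := by
  obtain ⟨⟨x, y, _ | _⟩, _ | _⟩ := A <;> simp [rA]

theorem rV_inj {v w : ℤ × ℤ} (h : rV v = rV w) : v = w := by
  rw [← rV_four v, ← rV_four w, h]

theorem rF_inj {f g : ℤ × ℤ} (h : rF f = rF g) : f = g := by
  rw [← rF_four f, ← rF_four g, h]

theorem rA_inj {A B : UE × Bool} (h : rA A = rA B) : A = B := by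
  rw [← rA_four A, ← rA_four B, h]

theorem injective_rV : Function.Injective rV := fun _ _ => rV_inj

theorem injective_rF : Function.Injective rF := fun _ _ => rF_inj

theorem injective_rA : Function.Injective rA := fun _ _ => rA_inj

theorem surj_rV (w : ℤ × ℤ) : ∃ v, rV v = w := ⟨rV (rV (rV w)), rV_four w⟩

theorem surj_rF (g : ℤ × ℤ) : ∃ f, rF f = g := ⟨rF (rF (rF g)), rF_four g⟩

theorem surj_rA (B : UE × Bool) : ∃ A, rA A = B := ⟨rA (rA (rA B)), rA_four B⟩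

theorem rF_mem {F : Set (ℤ × ℤ)} {f : ℤ × ℤ} : rF f ∈ rF '' F ↔ f ∈ F :=
  injective_rF.mem_set_image

theorem rV_mem {F : Set (ℤ × ℤ)} {f : ℤ × ℤ} : rV f ∈ rV '' F ↔ f ∈ F :=
  injective_rV.mem_set_image

theorem rF_image_four (F : Set (ℤ × ℤ)) : rF '' (rF '' (rF '' (rF '' F))) = F := by
  simp_rw [Set.image_image, rF_four]
  exact Set.image_id' F

theorem rF_compl (F : Set (ℤ × ℤ)) : rF '' Fᶜ = (rF '' F)ᶜ := by
  ext g
  obtain ⟨f, rfl⟩ := surj_rF g
  rw [rF_mem, Set.mem_compl_iff, Set.mem_compl_iff, rF_mem]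

theorem rF_diff (F G : Set (ℤ × ℤ)) : rF '' (F \ G) = rF '' F \ rF '' G :=
  Set.image_sdiff injective_rF F G

theorem rF_inter (F G : Set (ℤ × ℤ)) : rF '' (F ∩ G) = rF '' F ∩ rF '' G :=
  Set.image_inter injective_rF

theorem rF_finite {F : Set (ℤ × ℤ)} : (rF '' F).Finite ↔ F.Finite :=
  Set.finite_image_iff injective_rF.injOn

theorem rF_sub {F G : Set (ℤ × ℤ)} : rF '' F ⊆ rF '' G ↔ F ⊆ G :=
  Set.image_subset_image_iff injective_rF

/-! ### Directed unit edges -/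

theorem ahead_rA (A : UE × Bool) : ahead (rA A) = rF (ahead A) := by
  obtain ⟨⟨x, y, _ | _⟩, _ | _⟩ := A <;> simp [rA, ahead, rF]

theorem rv_rA (A : UE × Bool) : rv (rA A) = rA (rv A) := by
  obtain ⟨⟨x, y, _ | _⟩, _ | _⟩ := A <;> simp [rA, rv]

theorem rtn_rA (A : UE × Bool) : rtn (rA A) = rA (rtn A) := by
  obtain ⟨⟨x, y, _ | _⟩, _ | _⟩ := A <;> simp [rA, rtn] <;> omega

theorem lf_rA (A : UE × Bool) : lf (rA A) = rV (lf A) := by
  obtain ⟨⟨x, y, _ | _⟩, _ | _⟩ := A <;> simp [rA, lf, rV] <;> omega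

theorem rg_rA (A : UE × Bool) : rg (rA A) = rV (rg A) := by
  obtain ⟨⟨x, y, _ | _⟩, _ | _⟩ := A <;> simp [rA, rg, rV] <;> omega

/-! ### Corners and adjacent faces -/

theorem isCor_rF {f v : ℤ × ℤ} : IsCor (rF f) (rV v) ↔ IsCor f v := by
  unfold IsCor rF rV
  simp only
  omega

theorem adjF_rF {f g : ℤ × ℤ} : AdjF (rF f) (rF g) ↔ AdjF f g := by
  rw [adjF_iff, adjF_iff]
  obtain ⟨x, y⟩ := f
  obtain ⟨x', y'⟩ := g
  unfold rF
  simp only [Prod.mk.injEq]
  omega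

/-! ### Contours -/

variable {F G W : Set (ℤ × ℤ)} {A : UE × Bool} {f g : ℤ × ℤ}

theorem bd_rA : BD (rF '' F) (rA A) ↔ BD F A := by
  unfold BD
  rw [rv_rA, ahead_rA, ahead_rA, rF_mem, rF_mem]

theorem sc_rA : sc (rF '' F) (rA A) = rA (sc F A) := by
  by_cases h1 : ahead (rtn A) ∈ F
  · have h1' : ahead (rtn (rA A)) ∈ rF '' F := by rwa [rtn_rA, ahead_rA, rF_mem]
    by_cases h2 : ahead (rtn (rtn A)) ∈ F
    · have h2' : ahead (rtn (rtn (rA A))) ∈ rF '' F := by rwa [rtn_rA, rtn_rA, ahead_rA, rF_mem]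
      rw [sc_right h1 h2, sc_right h1' h2', rtn_rA, rtn_rA, rtn_rA, rv_rA]
    · have h2' : ahead (rtn (rtn (rA A))) ∉ rF '' F := by rwa [rtn_rA, rtn_rA, ahead_rA, rF_mem]
      rw [sc_straight h1 h2, sc_straight h1' h2', rtn_rA, rtn_rA, rv_rA]
  · have h1' : ahead (rtn (rA A)) ∉ rF '' F := by rwa [rtn_rA, ahead_rA, rF_mem]
    rw [sc_left h1, sc_left h1', rtn_rA, rv_rA]

theorem iter_rA (n : ℕ) : (sc (rF '' F))^[n] (rA A) = rA ((sc F)^[n] A) := by
  induction n with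
  | zero => rfl
  | succ n ih => rw [Function.iterate_succ_apply', Function.iterate_succ_apply', ih, sc_rA]

theorem side_rA (n : ℕ) : side (rF '' F) (rA A) n = rA (side F A n) := iter_rA n

theorem vert_rA (n : ℕ) : vert (rF '' F) (rA A) n = rV (vert F A n) := by
  unfold vert
  rw [side_rA, lf_rA]

theorem inF_rA (n : ℕ) : inF (rF '' F) (rA A) n = rF (inF F A n) := by
  unfold inF
  rw [side_rA, ahead_rA]

theorem outF_rA (n : ℕ) : outF (rF '' F) (rA A) n = rF (outF F A n) := by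
  unfold outF
  rw [side_rA, rv_rA, ahead_rA]

theorem per_rA {m : ℕ} : Per (rF '' F) m (rA A) ↔ Per F m A := by
  constructor
  · intro h
    refine ⟨h.pos, ?_, ?_⟩
    · have := h.per
      rw [iter_rA] at this
      exact rA_inj this
    · intro i hi j hj e
      exact h.inj i hi j hj (by rw [iter_rA, iter_rA, e])
  · intro h
    refine ⟨h.pos, ?_, ?_⟩
    · rw [iter_rA, h.per]
    · intro i hi j hj e
      rw [iter_rA, iter_rA] at e
      exact h.inj i hi j hj (rA_inj e)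

/-! ### Chains -/

theorem chI_rF : ChI (rF '' W) (rF f) (rF g) ↔ ChI W f g := by
  have key : ∀ {W : Set (ℤ × ℤ)} {f g : ℤ × ℤ}, ChI W f g → ChI (rF '' W) (rF f) (rF g) := by
    intro W f g h
    refine Relation.ReflTransGen.lift rF ?_ _ _ h
    intro a b h
    exact ⟨adjF_rF.mpr h.1, rF_mem.mpr h.2⟩
  constructor
  · intro h
    have h4 := key (key (key h))
    rw [rF_image_four, rF_four, rF_four] at h4
    exact h4
  · exact key

theorem joinIn_rF : JoinIn (rF '' W) (rF f) (rF g) ↔ JoinIn W f g := chI_rF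

theorem eConn_rF : Top.EConn (rF '' F) ↔ Top.EConn F := by
  constructor
  · intro h f hf g hg
    exact chI_rF.mp (h _ (rF_mem.mpr hf) _ (rF_mem.mpr hg))
  · intro h f' hf g' hg
    obtain ⟨f, rfl⟩ := surj_rF f'
    obtain ⟨g, rfl⟩ := surj_rF g'
    exact chI_rF.mpr (h _ (rF_mem.mp hf) _ (rF_mem.mp hg))

theorem stepC_rF (h : StepC F f g) : StepC (rF '' F) (rF f) (rF g) :=
  ⟨adjF_rF.mpr h.1, fun h2 => h.2 (rF_mem.mp h2)⟩

theorem esc_rF : Esc (rF '' F) ↔ Esc F := by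
  have key : ∀ {F : Set (ℤ × ℤ)}, Esc F → Esc (rF '' F) := by
    intro F h f' hf R
    obtain ⟨f, rfl⟩ := surj_rF f'
    obtain ⟨g, hg, hs⟩ := h f (fun h1 => hf (rF_mem.mpr h1)) (R + 1)
    refine ⟨rF g, ?_, Relation.ReflTransGen.lift rF (fun a b h => stepC_rF h) _ _ hs⟩
    unfold rF
    simp only
    rcases hg with hg | hg
    · right
      omega
    · left
      rcases abs_cases g.2 with h1 | h1 <;> rcases abs_cases (-g.2 - 1) with h2 | h2 <;> omega
  constructor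
  · intro h
    have h4 := key (key (key h))
    rwa [rF_image_four] at h4
  · exact key

theorem cyc_rA {m : ℕ} (hF : F.Finite) (hc : Top.EConn F) (he : Esc F) (h : Cyc F A m) :
    ∃ m', Cyc (rF '' F) (rA A) m' :=
  exists_cyc (rF_finite.mpr hF) (eConn_rF.mpr hc) (esc_rF.mpr he) (bd_rA.mpr h.bd)

/-! ### Boxes -/

theorem rF_RF (x₀ x₁ y₀ y₁ : ℤ) :
    rF '' ((RF x₀ x₁ y₀ y₁ : Finset (ℤ × ℤ)) : Set (ℤ × ℤ)) =
      ((RF (-y₁) (-y₀) x₀ x₁ : Finset (ℤ × ℤ)) : Set (ℤ × ℤ)) := by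
  ext g
  obtain ⟨f, rfl⟩ := surj_rF g
  rw [rF_mem]
  unfold RF rF
  simp only [Finset.coe_product, Finset.coe_Ico, Set.mem_prod, Set.mem_Ico]
  omega

theorem rF_Bx (z : ℤ × ℤ) (r : ℤ) : rF '' Near.Bx z r = Near.Bx (rV z) r := by
  unfold Near.Bx
  rw [rF_RF]
  unfold rV
  simp only
  congr 3 <;> ring

end Pool.Agent.SixB.Rot
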