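import Pool.Agent.Lib.SixB.S8CountW
import Pool.Agent.Lib.SixB.S8CountI
import Pool.Agent.Lib.SixB.S8Rot

/-!
# Step 8, number of moves: alternations of a contour

The number of disjoint pairs (side near `y`, side far from `y`) along the contour of `G` is at most
`4 M C` if the outer faces in every small box have at most `C` classes (`Cl`, S8CountW) and `M` small
boxes cover a line of the annulus: every pair gives an arc across one of the four rectangles of the
annulus.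
-/

set_option autoImplicit false

namespace Pool.Agent.SixB.CntW

open Finset Pool.Agent.Perc Pool.Agent.Perc6 Pool.Agent.Perc6.C2Aux Pool.Agent.Perc.Tips
open Pool.Agent.SixB.Top Pool.Agent.SixB.Mv Pool.Agent.SixB.Cnt Pool.Agent.SixB.Rot
open Pool.Agent.SixB.StkC (Prs)

variable {G : Set (ℤ × ℤ)} {A : UE × Bool} {y z : ℤ × ℤ} {a b ρ r : ℤ} {m C M k₀ len : ℕ}

theorem bx_rF {f : ℤ × ℤ} : rF f ∈ Near.Bx (rV z) r ↔ f ∈ Near.Bx z r := by
  rw [← rF_Bx, rF_mem]

/-- The quarter turn of the classes. -/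
theorem Cl.rot (h : Cl G A z ρ r C) : Cl (rF '' G) (rA A) (rV z) ρ r C := by
  obtain ⟨c, h1, h2⟩ := h
  refine ⟨fun f => c (rF (rF (rF f))), fun i hi => ?_, fun i j hi hj he => ?_⟩
  · rw [outF_rA] at hi ⊢
    rw [bx_rF] at hi
    show c (rF (rF (rF (rF (outF G A i))))) < C
    rw [rF_four]
    exact h1 i hi
  · rw [outF_rA] at hi hj ⊢
    rw [bx_rF] at hi hj
    rw [outF_rA, outF_rA] at he
    change c (rF (rF (rF (rF (outF G A i))))) = c (rF (rF (rF (rF (outF G A j))))) at he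
    rw [rF_four, rF_four] at he
    rw [outF_rA]
    have h3 := chI_rF.2 (h2 i j hi hj he)
    refine ChI.mono ?_ h3
    rintro _ ⟨g, ⟨h4, h5⟩, rfl⟩
    exact ⟨fun h => h4 (rF_mem.1 h), bx_rF.2 h5⟩

/-- The hypotheses for one contour. -/
structure Pk (G : Set (ℤ × ℤ)) (A : UE × Bool) (m : ℕ) (y : ℤ × ℤ) (b ρ r : ℤ) (C : ℕ) : Prop where
  fin : G.Finite
  con : Top.EConn G
  esc : Esc G
  bd : BD G A
  per : Per G m A
  cl : ∀ z, nm (z - y) ≤ b → Cl G A z ρ r C

theorem nm_qt (v : ℤ × ℤ) : nm (qt v) = nm v := by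
  unfold nm qt
  simp only [abs_neg]
  exact max_comm _ _

theorem rV_sub (v w : ℤ × ℤ) : rV v - rV w = qt (v - w) := by
  unfold rV qt
  refine Prod.ext ?_ ?_
  · simp only [Prod.fst_sub, Prod.snd_sub]
    ring
  · simp only [Prod.fst_sub, Prod.snd_sub]

theorem Pk.rot (h : Pk G A m y b ρ r C) : Pk (rF '' G) (rA A) m (rV y) b ρ r C where
  fin := rF_finite.2 h.fin
  con := eConn_rF.2 h.con
  esc := esc_rF.2 h.esc
  bd := bd_rA.2 h.bd
  per := per_rA.2 h.per
  cl := by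
    intro z hz
    obtain ⟨z, rfl⟩ := surj_rV z
    rw [rV_sub, nm_qt] at hz
    exact (h.cl z hz).rot

theorem rv0_rot (l : ℕ) : rv0 (rF '' G) (rA A) (rV y) l = qt (rv0 G A y l) := by
  unfold rv0
  rw [vert_rA, rV_sub]

/-- The four frames. -/
theorem Pk.frame (h : Pk G A m y b ρ r C) (k : ℕ) : ∃ G' A' y', Pk G' A' m y' b ρ r C ∧
    ∀ l, rv0 G' A' y' l = qt^[k] (rv0 G A y l) := by
  induction k with
  | zero => exact ⟨G, A, y, h, fun l => rfl⟩
  | succ k ih =>
    obtain ⟨G', A', y', h1, h2⟩ := ih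
    refine ⟨_, _, _, h1.rot, fun l => ?_⟩
    rw [rv0_rot, h2, Function.iterate_succ_apply']

/-- **The number of passages** in four frames. -/
theorem Pk.card_le (h : Pk G A m y b ρ r C) {X₀ X₁ : ℤ} (hρ : 1 ≤ ρ) (hr : 1 ≤ r)
    (hX : X₀ + 2 * r ≤ X₁) (hX0 : -b ≤ X₀) (hX1 : X₁ ≤ b) (hM : 2 * b + 1 ≤ M * ρ)
    {ι : Type*} (S : Finset ι) (i j : ι → ℕ) (hij : ∀ p ∈ S, j p ≤ m)
    (hS : ∀ p ∈ S, ∃ k < 4, ∃ s t, i p ≤ s ∧ t < j p ∧
      Psg (fun l => qt^[k] (rv0 G A y l)) X₀ X₁ b s t)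
    (hd : ∀ p ∈ S, ∀ p' ∈ S, p ≠ p' → j p ≤ i p' ∨ j p' ≤ i p) : S.card ≤ 4 * (M * C) := by
  classical
  choose! k hk s t hs ht hp using hS
  have h1 : S.card = ∑ q ∈ range 4, #{p ∈ S | k p = q} :=
    Finset.card_eq_sum_card_fiberwise fun p hp' => by
      rw [Finset.mem_coe] at hp' ⊢
      exact Finset.mem_range.2 (hk p hp')
  have h2 : ∀ q ∈ range 4, #{p ∈ S | k p = q} ≤ M * C := by
    intro q _
    obtain ⟨G', A', y', h3, h4⟩ := h.frame q
    refine arcs_le (y := y') (X₀ := X₀) (X₁ := X₁) (b := b) h3.fin h3.con h3.esc h3.bd h3.per hρ hr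
      hX hM (fun z z1 z2 z3 => h3.cl z ?_) {p ∈ S | k p = q} s t ?_ ?_
    · rw [nm_le]
      simp only [Prod.fst_sub, Prod.snd_sub]
      omega
    · intro p hp'
      obtain ⟨h5, h6⟩ := Finset.mem_filter.1 hp'
      refine ⟨by have := ht p h5; have := hij p h5; omega, ?_⟩
      have h7 := hp p h5
      rw [h6] at h7
      have h8 : rv0 G' A' y' = fun l => qt^[q] (rv0 G A y l) := funext h4
      rw [h8]
      exact h7
    · intro p hp1 p' hp2 he
      obtain ⟨h5, -⟩ := Finset.mem_filter.1 hp1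
      obtain ⟨h6, -⟩ := Finset.mem_filter.1 hp2
      by_contra hne
      have a1 := hs p h5
      have a2 := ht p h5
      have a3 := (hp p h5).st
      have b1 := hs p' h6
      have b2 := ht p' h6
      have b3 := (hp p' h6).st
      rcases hd p h5 p' h6 hne with h7 | h7 <;> omega
  rw [h1]
  refine (Finset.sum_le_sum h2).trans ?_
  simp

/-- **Right part**: pairs in the direction of the contour. -/
theorem Pk.prs_out (h : Pk G A m y b ρ r C) (ha : -b ≤ a) (hρ : 1 ≤ ρ) (hr : 1 ≤ r)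
    (hab : a + 2 * r ≤ b) (hM : 2 * b + 1 ≤ M * ρ) (hlen : len ≤ m) :
    ¬ Prs (fun i => nm (rv0 G A y i) ≤ a) (fun i => b < nm (rv0 G A y i)) len
      (4 * (M * C) + 1) := by
  rintro ⟨S, h1, h2, h3⟩
  have h4 := h.card_le hρ hr hab ha le_rfl hM S (fun p => p.1) (fun p => p.2)
    (fun p hp => by have := (h2 p hp).2.1; omega) (fun p hp => by
      obtain ⟨h5, h6, h7, h8⟩ := h2 p hp
      exact exists_out (st_rv0 y) h5.le (by omega) h7 h8)
    (fun p hp p' hp' hne => by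
      rcases h3 p hp p' hp' hne with h5 | h5
      · exact Or.inl h5.le
      · exact Or.inr h5.le)
  omega

/-- **Left part**: pairs against the direction of the contour. -/
theorem Pk.prs_in (h : Pk G A m y b ρ r C) (ha : -b ≤ a) (hρ : 1 ≤ ρ) (hr : 1 ≤ r)
    (hab : a + 2 * r ≤ b) (hM : 2 * b + 1 ≤ M * ρ) (hlen : len ≤ m) :
    ¬ Prs (fun i => nm (rv0 G A y (m - i)) ≤ a) (fun i => b < nm (rv0 G A y (m - i))) len
      (4 * (M * C) + 1) := by
  rintro ⟨S, h1, h2, h3⟩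
  have h4 := h.card_le (X₀ := -b) (X₁ := -a) hρ hr (by omega) le_rfl (by omega) hM S
    (fun p => m - p.2) (fun p => m - p.1)
    (fun p hp => by omega) (fun p hp => by
      obtain ⟨h5, h6, h7, h8⟩ := h2 p hp
      exact exists_in (st_rv0 y) (by omega) (by omega) h8 h7)
    (fun p hp p' hp' hne => by
      have h5 := h2 p hp
      have h6 := h2 p' hp'
      rcases h3 p hp p' hp' hne with h7 | h7
      · right; omega
      · left; omega)
  omega

/-! ### Zones of sides -/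

theorem nm_of_inB {B : UE × Bool} (h : InB y a B.1) : nm (lf B - y) ≤ a + 1 := by
  rw [nm_le]
  obtain ⟨⟨x, x', _ | _⟩, _ | _⟩ := B <;> unfold InB InR at h <;>
    simp only [ua, lf, Prod.fst_sub, Prod.snd_sub] at h ⊢ <;> omega

theorem nm_of_not_inB {B : UE × Bool} (h : ¬ InB y b B.1) : b - 1 < nm (lf B - y) := by
  by_contra hle
  push Not at hle
  rw [nm_le] at hle
  apply h
  unfold InB InR
  obtain ⟨⟨x, x', _ | _⟩, _ | _⟩ := B <;>
    simp only [ua, lf, Prod.fst_sub, Prod.snd_sub] at hle ⊢ <;> omega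

end Pool.Agent.SixB.CntW
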