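import Pool.Agent.Lib.MP_6bd702_z.Z006

/-!
# Step 8: closed polygons through coarse points

If a closed polygon stays within `ε` of the point `X i` between the times `t i` and `t (i + 1)`,
then its distance (up to reparametrisation) to the closed polygon through the points `X i` is at
most `3 ε`. `listLoop L` is the closed polygon through the points of the list `L`.
-/

set_option autoImplicit false

namespace Pool.Agent.SixB

open Set Filter Topology
open Pool.Agent.PercD
open Pool.Agent.MP_6bd702.H23 (Ed)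
open Pool.Agent.PercU (Cor vtx fce nxt nxtE)
open Pool.Agent.Perc

/-! ### Real piecewise linear interpolation -/

/-- Linear interpolation of a sequence of real numbers. -/
noncomputable def rpoly (τ : ℤ → ℝ) (t : ℝ) : ℝ := τ ⌊t⌋ + Int.fract t * (τ (⌊t⌋ + 1) - τ ⌊t⌋)

theorem rpoly_mem {τ : ℤ → ℝ} (hτ : StrictMono τ) (t : ℝ) :
    τ ⌊t⌋ ≤ rpoly τ t ∧ rpoly τ t < τ (⌊t⌋ + 1) := by
  have h1 := hτ (show ⌊t⌋ < ⌊t⌋ + 1 by omega)
  have h2 := Int.fract_nonneg t
  have h3 := Int.fract_lt_one t
  unfold rpoly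
  constructor
  · nlinarith
  · nlinarith

theorem rpoly_strictMono {τ : ℤ → ℝ} (hτ : StrictMono τ) : StrictMono (rpoly τ) := by
  intro s t hst
  rcases (Int.floor_le_floor hst.le).lt_or_eq with h | h
  · exact ((rpoly_mem hτ s).2.trans_le (hτ.monotone (by omega))).trans_le (rpoly_mem hτ t).1
  · have h1 := hτ (show ⌊t⌋ < ⌊t⌋ + 1 by omega)
    have h2 : Int.fract s < Int.fract t := by
      rw [← Int.self_sub_floor, ← Int.self_sub_floor, h]
      linarith
    unfold rpoly
    rw [h]
    nlinarith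

theorem rpoly_add {τ : ℤ → ℝ} {m : ℤ} {c : ℝ} (h : ∀ i, τ (i + m) = τ i + c) (t : ℝ) :
    rpoly τ (t + m) = rpoly τ t + c := by
  unfold rpoly
  rw [Int.floor_add_intCast, Int.fract_add_intCast, h,
    show ⌊t⌋ + m + 1 = (⌊t⌋ + 1) + m by ring, h]
  ring

theorem per_mul {τ : ℤ → ℝ} {m : ℤ} {c : ℝ} (h : ∀ i, τ (i + m) = τ i + c) (i k : ℤ) :
    τ (i + k * m) = τ i + k * c := by
  induction k using Int.induction_on with
  | zero => simp
  | succ k ih =>
    rw [show i + ((k : ℤ) + 1) * m = (i + k * m) + m by ring, h, ih]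
    push_cast
    ring
  | pred k ih =>
    have h1 := h (i + (-(k : ℤ) - 1) * m)
    rw [show i + (-(k : ℤ) - 1) * m + m = i + -(k : ℤ) * m by ring, ih] at h1
    push_cast at h1 ⊢
    linarith

theorem rpoly_surjective {τ : ℤ → ℝ} (hτ : StrictMono τ) {m : ℤ}
    (h : ∀ i, τ (i + m) = τ i + 1) : Function.Surjective (rpoly τ) := by
  intro y
  -- the last index with `τ k ≤ y`
  have hlow : ∃ k : ℤ, τ k ≤ y := by
    refine ⟨⌊y - τ 0⌋ * m, ?_⟩
    have h1 := per_mul h 0 ⌊y - τ 0⌋
    rw [zero_add, mul_one] at h1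
    rw [h1]
    have := Int.floor_le (y - τ 0)
    linarith
  have hup : ∃ b : ℤ, ∀ k : ℤ, τ k ≤ y → k ≤ b := by
    refine ⟨(⌊y - τ 0⌋ + 1) * m, fun k hk => ?_⟩
    by_contra hcon
    push Not at hcon
    have h1 := per_mul h 0 (⌊y - τ 0⌋ + 1)
    rw [zero_add, mul_one] at h1
    have h2 := hτ hcon
    rw [h1] at h2
    have h3 := Int.lt_floor_add_one (y - τ 0)
    push_cast at h2
    linarith
  obtain ⟨b, hb⟩ := hup
  obtain ⟨k, hk, hmax⟩ := Int.exists_greatest_of_bdd (P := fun k => τ k ≤ y) ⟨b, hb⟩ hlow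
  have hk1 : y < τ (k + 1) := by
    by_contra hcon
    push Not at hcon
    have := hmax (k + 1) hcon
    omega
  have hd : 0 < τ (k + 1) - τ k := by
    have := hτ (show k < k + 1 by omega)
    linarith
  set θ : ℝ := (y - τ k) / (τ (k + 1) - τ k) with hθ
  have h0 : 0 ≤ θ := div_nonneg (by linarith) hd.le
  have h1 : θ < 1 := by
    rw [hθ, div_lt_one hd]
    linarith
  refine ⟨k + θ, ?_⟩
  have hfl : ⌊(k : ℝ) + θ⌋ = k := by
    rw [Int.floor_eq_iff]
    constructor <;> linarith
  unfold rpoly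
  rw [← Int.self_sub_floor, hfl]
  rw [show (k : ℝ) + θ - k = θ by ring, hθ, div_mul_cancel₀ _ hd.ne']
  ring

/-- The change of parameter given by a sequence of times. -/
noncomputable def repOf {τ : ℤ → ℝ} (hτ : StrictMono τ) {m : ℕ} (hm : 0 < m)
    (h : ∀ i, τ (i + m) = τ i + 1) : Rep where
  φ := StrictMono.orderIsoOfSurjective (fun s : ℝ => rpoly τ (m * s))
    (fun s t hst => rpoly_strictMono hτ (by
      have : (0 : ℝ) < m := by exact_mod_cast hm
      nlinarith))
    (fun y => by
      obtain ⟨t, ht⟩ := rpoly_surjective hτ h y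
      have : (0 : ℝ) < m := by exact_mod_cast hm
      exact ⟨t / m, by simp only [mul_div_cancel₀ t this.ne', ht]⟩)
  per t := by
    simp only [StrictMono.coe_orderIsoOfSurjective]
    rw [mul_add, mul_one]
    exact rpoly_add (m := (m : ℤ)) h _

theorem repOf_apply {τ : ℤ → ℝ} (hτ : StrictMono τ) {m : ℕ} (hm : 0 < m)
    (h : ∀ i, τ (i + m) = τ i + 1) (s : ℝ) : (repOf hτ hm h).φ s = rpoly τ (m * s) := rfl

/-! ### Coarse polygons -/

/-- Between two integer times a polygon stays in the ball of its vertices. -/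
theorem dist_poly_le {V : ℤ → ℂ} {x : ℂ} {ε : ℝ} {a b : ℤ}
    (h : ∀ j, a ≤ j → j ≤ b → dist (V j) x ≤ ε) {t : ℝ} (h1 : (a : ℝ) ≤ t) (h2 : t ≤ b) :
    dist (poly V t) x ≤ ε := by
  have hf : a ≤ ⌊t⌋ := Int.le_floor.2 h1
  rcases h2.lt_or_eq with h3 | h3
  · have hf' : ⌊t⌋ < b := Int.floor_lt.2 h3
    have hseg := poly_mem_segment V t
    have e1 : V ⌊t⌋ ∈ Metric.closedBall x ε := h _ hf hf'.le
    have e2 : V (⌊t⌋ + 1) ∈ Metric.closedBall x ε := h _ (by omega) (by omega)
    exact (convex_closedBall x ε).segment_subset e1 e2 hseg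
  · rw [h3, poly_int]
    exact h b (by rw [h3, Int.floor_intCast] at hf; exact hf) le_rfl

/-- **Coarse polygons.** `V` has period `p`, `X` has period `m`, and `V` stays within `ε` of `X i`
between the times `t i` and `t (i + 1)`. -/
theorem dist_polyLoop_coarse {V X : ℤ → ℂ} {p m : ℕ} {hV : ∀ j, V (j + p) = V j}
    {hX : ∀ j, X (j + m) = X j} (hp : 0 < p) (hm : 0 < m) {t : ℤ → ℤ} (ht : StrictMono t)
    (hper : ∀ i, t (i + m) = t i + p) {ε : ℝ}
    (h : ∀ i j, t i ≤ j → j ≤ t (i + 1) → dist (V j) (X i) ≤ ε) :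
    dist (polyLoop V p hV) (polyLoop X m hX) ≤ 3 * ε := by
  have hp0 : (0 : ℝ) < p := by exact_mod_cast hp
  have hm0 : (0 : ℝ) < m := by exact_mod_cast hm
  have hτ : StrictMono fun i : ℤ => (t i : ℝ) / p := fun i j hij => by
    have : (t i : ℝ) < t j := by exact_mod_cast ht hij
    exact div_lt_div_of_pos_right this hp0
  have hτp : ∀ i : ℤ, (fun i : ℤ => (t i : ℝ) / p) (i + m) = (fun i : ℤ => (t i : ℝ) / p) i + 1 := by
    intro i
    simp only [hper]
    push_cast
    field_simp
  rw [dist_comm]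
  refine Loop.dist_le (repOf hτ hm hτp) fun s => ?_
  rw [polyLoop_f, polyLoop_f, repOf_apply]
  set u : ℝ := (m : ℝ) * s with hu
  set k : ℤ := ⌊u⌋ with hk
  have hmem := rpoly_mem hτ u
  rw [← hk, div_le_iff₀ hp0, lt_div_iff₀ hp0] at hmem
  have h1 : dist (poly V (p * rpoly (fun i : ℤ => (t i : ℝ) / p) u)) (X k) ≤ ε := by
    refine dist_poly_le (a := t k) (b := t (k + 1)) (h k) ?_ ?_
    · linarith [hmem.1]
    · linarith [hmem.2]
  have h2 : dist (X (k + 1)) (X k) ≤ 2 * ε := by
    have e1 := h k (t (k + 1)) (ht.monotone (by omega)) le_rfl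
    have e2 := h (k + 1) (t (k + 1)) le_rfl (ht.monotone (by omega))
    have e3 := dist_triangle_left (X (k + 1)) (X k) (V (t (k + 1)))
    linarith
  have hε : 0 ≤ ε := dist_nonneg.trans h1
  have h3 : dist (poly X u) (X k) ≤ 2 * ε := by
    have hseg := poly_mem_segment X u
    rw [← hk] at hseg
    have e1 : X k ∈ Metric.closedBall (X k) (2 * ε) := by
      rw [Metric.mem_closedBall, dist_self]
      linarith
    exact (convex_closedBall (X k) (2 * ε)).segment_subset e1 h2 hseg
  have h4 := dist_triangle (poly X u) (X k) (poly V (p * rpoly (fun i : ℤ => (t i : ℝ) / p) u))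
  rw [dist_comm (X k)] at h4
  linarith

/-! ### Lists -/

/-- The periodic extension of a list of points. -/
noncomputable def perL (L : List ℂ) (j : ℤ) : ℂ := L.getD (j % L.length).toNat 0

theorem perL_per (L : List ℂ) (j : ℤ) : perL L (j + L.length) = perL L j := by
  unfold perL
  rw [Int.add_emod_right]

theorem perL_nat {L : List ℂ} {i : ℕ} (hi : i < L.length) : perL L i = L.getD i 0 := by
  unfold perL
  rw [Int.emod_eq_of_lt (by omega) (by exact_mod_cast hi), Int.toNat_natCast]

/-- The closed polygon through the points of a list (a constant curve for the empty list). -/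
noncomputable def listLoop (L : List ℂ) : Loop := polyLoop (perL L) L.length (perL_per L)

/-- The periodic extension of a finite sequence of times `t 0 = 0 < t 1 < ... < t m = p`. -/
noncomputable def perT (t : ℕ → ℕ) (m p : ℕ) (i : ℤ) : ℤ :=
  t (i % m).toNat + (i / m) * p

theorem perT_per {t : ℕ → ℕ} {m p : ℕ} (hm : 0 < m) (i : ℤ) :
    perT t m p (i + m) = perT t m p i + p := by
  have hm' : (m : ℤ) ≠ 0 := by omega
  unfold perT
  rw [Int.add_emod_right, Int.add_ediv_of_dvd_right (dvd_refl _), Int.ediv_self hm']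
  ring

theorem perT_succ {t : ℕ → ℕ} {m p : ℕ} (hm : 0 < m) (h0 : t 0 = 0) (hp : t m = p) (i : ℤ) :
    perT t m p (i + 1) = t ((i % m).toNat + 1) + (i / m) * p := by
  have hm' : (0 : ℤ) < m := by exact_mod_cast hm
  have hr0 : 0 ≤ i % m := Int.emod_nonneg _ hm'.ne'
  have hr1 : i % m < m := Int.emod_lt_of_pos _ hm'
  have hi : i = (i / m) * m + i % m := by
    have := Int.mul_ediv_add_emod i m
    linarith
  unfold perT
  rcases (show i % m + 1 ≤ m by omega).lt_or_eq with h | h
  · have e1 : (i + 1) % m = i % m + 1 := by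
      rw [show i + 1 = (i % m + 1) + (i / m) * m by linarith, Int.add_mul_emod_self_right,
        Int.emod_eq_of_lt (by omega) h]
    have e2 : (i + 1) / m = i / m := by
      rw [show i + 1 = (i % m + 1) + (i / m) * m by linarith, Int.add_mul_ediv_right _ _ hm'.ne',
        Int.ediv_eq_zero_of_lt (by omega) h, zero_add]
    rw [e1, e2, show (i % m + 1).toNat = (i % m).toNat + 1 by omega]
  · have e1 : (i + 1) % m = 0 := by
      rw [show i + 1 = (i / m + 1) * m by linarith, Int.mul_emod_left]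
    have e2 : (i + 1) / m = i / m + 1 := by
      rw [show i + 1 = (i / m + 1) * m by linarith, Int.mul_ediv_cancel _ hm'.ne']
    have e3 : (i % m).toNat + 1 = m := by omega
    rw [e1, e2, e3, Int.toNat_zero, h0, hp]
    push_cast
    ring

/-- **Coarse polygons, finite form.** -/
theorem dist_polyLoop_listLoop {V : ℤ → ℂ} {p : ℕ} {hV : ∀ j, V (j + p) = V j} {L : List ℂ}
    {t : ℕ → ℕ} (hL : 0 < L.length) (h0 : t 0 = 0) (hp : t L.length = p)
    (ht : ∀ i < L.length, t i < t (i + 1)) {ε : ℝ}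
    (h : ∀ i < L.length, ∀ j : ℕ, t i ≤ j → j ≤ t (i + 1) → dist (V j) (L.getD i 0) ≤ ε) :
    dist (polyLoop V p hV) (listLoop L) ≤ 3 * ε := by
  have hm' : (0 : ℤ) < L.length := by exact_mod_cast hL
  have hp0 : 0 < p := by
    have h1 : ∀ i, i ≤ L.length → i ≤ t i := by
      intro i
      induction i with
      | zero => intro _; omega
      | succ i ih =>
        intro hi
        have h2 := ih (by omega)
        have h3 := ht i (by omega)
        omega
    have := h1 _ le_rfl
    omega
  have hVp : ∀ (j : ℤ) (k : ℤ), V (j + k * p) = V j := by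
    intro j k
    induction k using Int.induction_on with
    | zero => simp
    | succ k ih =>
      rw [show j + ((k : ℤ) + 1) * p = (j + k * p) + p by ring, hV, ih]
    | pred k ih =>
      have h1 := hV (j + (-(k : ℤ) - 1) * p)
      rw [show j + (-(k : ℤ) - 1) * p + p = j + -(k : ℤ) * p by ring, ih] at h1
      exact h1.symm
  refine dist_polyLoop_coarse (t := perT t L.length p) hp0 hL ?_ (perT_per hL) ?_
  · refine strictMono_int_of_lt_succ fun i => ?_
    rw [perT_succ hL h0 hp]
    have hr0 : 0 ≤ i % (L.length : ℤ) := Int.emod_nonneg _ hm'.ne'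
    have hr1 : i % (L.length : ℤ) < L.length := Int.emod_lt_of_pos _ hm'
    have h1 := ht (i % (L.length : ℤ)).toNat (by omega)
    unfold perT
    omega
  · intro i j h1 h2
    rw [perT_succ hL h0 hp] at h2
    unfold perT at h1
    have hr0 : 0 ≤ i % (L.length : ℤ) := Int.emod_nonneg _ hm'.ne'
    have hr1 : i % (L.length : ℤ) < L.length := Int.emod_lt_of_pos _ hm'
    set r : ℕ := (i % (L.length : ℤ)).toNat with hr
    set q : ℤ := i / (L.length : ℤ) with hq
    have hX : perL L i = L.getD r 0 := rfl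
    rw [hX]
    have hj0 : 0 ≤ j - q * p := by
      have : (0 : ℤ) ≤ t r := by positivity
      omega
    have hj : V j = V ((j - q * p).toNat : ℤ) := by
      rw [Int.toNat_of_nonneg hj0, ← hVp (j - q * p) q]
      congr 1
      ring
    rw [hj]
    exact h r (by omega) _ (by omega) (by omega)

/-- The corner loop and a coarse polygon. -/
theorem dist_cornerLoop_listLoop {n : ℕ} {ω : Set Ed} {k : Cor} {L : List ℂ} {t : ℕ → ℕ}
    (hL : 0 < L.length) (h0 : t 0 = 0) (hp : t L.length = Function.minimalPeriod (nxtE ω) k)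
    (ht : ∀ i < L.length, t i < t (i + 1)) {ε : ℝ}
    (h : ∀ i < L.length, ∀ j : ℕ, t i ≤ j → j ≤ t (i + 1) →
      dist (toC (vtx ((nxt ω)^[j] k)) / n) (L.getD i 0) ≤ ε) :
    dist (cornerLoop n ω k) (listLoop L) ≤ 3 * ε := by
  refine dist_polyLoop_listLoop hL h0 hp ht fun i hi j h1 h2 => ?_
  have e : posC n ω k j = toC (vtx ((nxt ω)^[j] k)) / n := by
    unfold posC
    rw [zpow_natCast, ← Equiv.Perm.iterate_eq_pow]
    rfl
  rw [e]
  exact h i hi j h1 h2

end Pool.Agent.SixB
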