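import Pool.Agent.Lib.SixB.S8Par

/-!
# Step 8: the side of a deep face of a polygon

`C`: a finite set of faces which is fresh at the time `t₀`. Every vertex `v` of its boundary is joined to
a vertex of the sides by a fixed walk which is not crossed at the time `t₀` (`Anch`). `dft t a`: the
defect of the unit edge `a` at the time `t`.

* `sum_sq_cr`: the number of crossings of the boundary of a finite set of faces;
* `sum_half`: the defects of a half of `C`: those of the boundary of `C` in this half and those of the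
  line.
* `psi_eq`: a potential which vanishes at the vertices of the boundary: its sum over a half line.
* `deep`: if the strand never comes near the vertex `x₀` and the anchors on the vertical line through
  `x₀` have the colour `c` then `x₀` is on the side `c` of the closed strand.
-/

set_option autoImplicit false

namespace Pool.Agent.SixB.Deep

open Finset Pool.Agent.Perc Pool.Agent.PercT Pool.Agent.Perc6 Pool.Agent.SixB
  Pool.Agent.SixB.NearCut Pool.Agent.SixB.Mv Pool.Agent.SixB.Par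

theorem z2_self (a : ZMod 2) : a + a = 0 := by
  revert a
  decide

/-! ### Sums over the sides of faces -/

/-- The sum of `g` over the four sides of a face. -/
def sq (g : UE → ZMod 2) (f : ℤ × ℤ) : ZMod 2 := g (bo f) + g (to' f) + g (le' f) + g (ri f)

theorem sq_add (g h : UE → ZMod 2) (f : ℤ × ℤ) : sq (fun a => g a + h a) f = sq g f + sq h f := by
  unfold sq
  ring

/-- A difference of a function of the vertices has the sum zero. -/
theorem sq_grad (s : ℤ × ℤ → ZMod 2) (f : ℤ × ℤ) : sq (fun a => s (ua a) + s (ub a)) f = 0 := by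
  obtain ⟨x, y⟩ := f
  simp only [sq, bo, to', le', ri, ua, ub, Bool.false_eq_true, if_false, if_true]
  generalize s (x, y) = a
  generalize s (x + 1, y) = b
  generalize s (x, y + 1) = c
  generalize s (x + 1, y + 1) = d
  revert a b c d
  decide

theorem sq_delta (a : UE) (f : ℤ × ℤ) :
    sq (fun b => ind2 (a = b)) f = ind2 (f = fa a) + ind2 (f = fb a) := by
  have h1 : ∀ b, IsSide f b ↔ b = bo f ∨ b = le' f ∨ b = to' f ∨ b = ri f := fun b => Iff.rfl
  have h2 := @isSide_iff f a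
  have hne : fa a ≠ fb a := fa_ne_fb a
  have hd : bo f ≠ le' f ∧ bo f ≠ to' f ∧ bo f ≠ ri f ∧ le' f ≠ to' f ∧ le' f ≠ ri f ∧
      to' f ≠ ri f := by
    obtain ⟨x, y⟩ := f
    simp [bo, le', to', ri]
  obtain ⟨d1, d2, d3, d4, d5, d6⟩ := hd
  by_cases h : IsSide f a
  · have hR : ind2 (f = fa a) + ind2 (f = fb a) = 1 := by
      rcases h2.1 h with h3 | h3
      · rw [ind2_pos h3, ind2_neg (fun h4 => hne (h3.symm.trans h4)), add_zero]
      · rw [ind2_pos h3, ind2_neg (fun h4 => hne (h4.symm.trans h3)), zero_add]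
    rw [hR]
    simp only [sq]
    rcases (h1 a).1 h with rfl | rfl | rfl | rfl
    · rw [ind2_pos rfl, ind2_neg d2, ind2_neg d1, ind2_neg d3]; decide
    · rw [ind2_neg d1.symm, ind2_neg d4, ind2_pos rfl, ind2_neg d5]; decide
    · rw [ind2_neg d2.symm, ind2_pos rfl, ind2_neg d4.symm, ind2_neg d6]; decide
    · rw [ind2_neg d3.symm, ind2_neg d6.symm, ind2_neg d5.symm, ind2_pos rfl]; decide
  · have h3 : ¬ (f = fa a) := fun h4 => h (h2.2 (Or.inl h4))
    have h4 : ¬ (f = fb a) := fun h4 => h (h2.2 (Or.inr h4))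
    rw [ind2_neg h3, ind2_neg h4, add_zero]
    simp only [sq]
    rw [ind2_neg fun h5 => h ((h1 a).2 (Or.inl h5)), ind2_neg fun h5 => h ((h1 a).2 (Or.inr (Or.inr (Or.inl h5)))),
      ind2_neg fun h5 => h ((h1 a).2 (Or.inr (Or.inl h5))),
      ind2_neg fun h5 => h ((h1 a).2 (Or.inr (Or.inr (Or.inr h5))))]
    decide

theorem sum_delta (S : Finset (ℤ × ℤ)) (a : UE) :
    ∑ f ∈ S, sq (fun b => ind2 (a = b)) f = ind2 (fa a ∈ S) + ind2 (fb a ∈ S) := by
  classical
  simp only [sq_delta, Finset.sum_add_distrib]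
  have h : ∀ g : ℤ × ℤ, ∑ f ∈ S, ind2 (f = g) = ind2 (g ∈ S) := by
    intro g
    by_cases hg : g ∈ S
    · rw [Finset.sum_eq_single_of_mem g hg fun b _ hb => ind2_neg hb, ind2_pos rfl, ind2_pos hg]
    · rw [ind2_neg hg]
      refine Finset.sum_eq_zero fun b hb => ind2_neg fun h => hg ?_
      rw [← h]
      exact hb
  rw [h, h]

/-- The sides of the faces of a set. -/
noncomputable def eds (S : Finset (ℤ × ℤ)) : Finset UE := by
  classical
  exact S.biUnion fun f => {bo f, to' f, le' f, ri f}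

theorem mem_eds {S : Finset (ℤ × ℤ)} {a : UE} : a ∈ eds S ↔ fa a ∈ S ∨ fb a ∈ S := by
  classical
  unfold eds
  rw [Finset.mem_biUnion]
  constructor
  · rintro ⟨f, hf, h⟩
    have h1 : IsSide f a := by
      simp only [Finset.mem_insert, Finset.mem_singleton] at h
      unfold IsSide
      tauto
    rcases isSide_iff.1 h1 with rfl | rfl
    · exact Or.inl hf
    · exact Or.inr hf
  · have key : ∀ f ∈ S, IsSide f a → ∃ f ∈ S, a ∈ ({bo f, to' f, le' f, ri f} : Finset UE) := by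
      intro f hf h
      refine ⟨f, hf, ?_⟩
      simp only [Finset.mem_insert, Finset.mem_singleton]
      unfold IsSide at h
      tauto
    rintro (h | h)
    · exact key _ h (isSide_fa a)
    · exact key _ h (isSide_fb a)

/-- **The sum over the faces** is the sum over the boundary. -/
theorem sum_sq (S : Finset (ℤ × ℤ)) (g : UE → ZMod 2) {A : Finset UE} (hA : eds S ⊆ A) :
    ∑ f ∈ S, sq g f = ∑ a ∈ A, g a * (ind2 (fa a ∈ S) + ind2 (fb a ∈ S)) := by
  classical
  have h1 : ∀ f ∈ S, sq g f = ∑ a ∈ A, g a * sq (fun b => ind2 (a = b)) f := by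
    intro f hf
    have h2 : ∀ b, b ∈ A → ∑ a ∈ A, g a * ind2 (a = b) = g b := by
      intro b hb
      rw [Finset.sum_eq_single_of_mem b hb fun c _ hc => by rw [ind2_neg hc, mul_zero], ind2_pos rfl,
        mul_one]
    have h3 : ∀ b, IsSide f b → b ∈ A := by
      intro b hb
      refine hA (mem_eds.2 ?_)
      rcases isSide_iff.1 hb with h | h
      · exact Or.inl (h ▸ hf)
      · exact Or.inr (h ▸ hf)
    simp only [sq, mul_add, Finset.sum_add_distrib]
    rw [h2 _ (h3 _ (Or.inl rfl)), h2 _ (h3 _ (Or.inr (Or.inr (Or.inl rfl)))),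
      h2 _ (h3 _ (Or.inr (Or.inl rfl))), h2 _ (h3 _ (Or.inr (Or.inr (Or.inr rfl))))]
  rw [Finset.sum_congr rfl h1, Finset.sum_comm]
  refine Finset.sum_congr rfl fun a _ => ?_
  rw [← Finset.mul_sum, sum_delta]

/-! ### The crossings -/

variable {E : Ex} {ω : Cfg} {t t₀ T : ℕ}

/-- **The number of crossings of the boundary of a finite set of faces.** -/
theorem sum_sq_cr (S : Finset (ℤ × ℤ)) (hn : Nb (E.cf ω) (E.e ω) t) :
    ∑ f ∈ S, sq (cr E ω t) f = ind2 (fb (E.e ω) ∈ S) + ind2 (fa (E.p ω t) ∈ S) := by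
  induction t with
  | zero =>
    have h1 : cr E ω 0 = fun a => ind2 (E.e ω = a) := by
      funext a
      refine ind2_congr ⟨?_, fun h => ⟨0, le_rfl, h⟩⟩
      rintro ⟨l, hl, h⟩
      have : l = 0 := by omega
      subst this
      exact h
    rw [h1, sum_delta, add_comm]
    rfl
  | succ t ih =>
    have h1 : cr E ω (t + 1) = fun a => cr E ω t a + ind2 (E.p ω (t + 1) = a) := by
      funext a
      unfold cr
      by_cases h2 : E.p ω (t + 1) = a
      · have h3 : ¬ ∃ l ≤ t, E.p ω l = a := by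
          rintro ⟨l, hl, h⟩
          have := hn.inj (i := l) (j := t + 1) (by omega) le_rfl (h.trans h2.symm)
          omega
        rw [ind2_neg h3, ind2_pos h2, ind2_pos ⟨t + 1, le_rfl, h2⟩, zero_add]
      · rw [ind2_neg h2, add_zero]
        refine ind2_congr ⟨?_, fun ⟨l, hl, h⟩ => ⟨l, by omega, h⟩⟩
        rintro ⟨l, hl, h⟩
        rcases Nat.lt_or_ge l (t + 1) with h3 | h3
        · exact ⟨l, by omega, h⟩
        · have : l = t + 1 := by omega
          subst this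
          exact absurd h h2
    rw [h1]
    simp only [sq_add, Finset.sum_add_distrib]
    rw [ih (hn.mono (by omega)), sum_delta]
    have h2 : fb (E.p ω (t + 1)) = fa (E.p ω t) := fb_pth_succ _ _ _
    rw [h2]
    generalize ind2 (fb (E.e ω) ∈ S) = x1
    generalize ind2 (fa (E.p ω t) ∈ S) = x2
    generalize ind2 (fa (E.p ω (t + 1)) ∈ S) = x3
    revert x1 x2 x3
    decide

/-! ### Half planes -/

variable {C : Finset (ℤ × ℤ)} {k y₀ : ℤ} {g : UE → ZMod 2}

/-- The faces on both sides of the edge with number `y` of the vertical line `k` are in `C`. -/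
def Bt (C : Finset (ℤ × ℤ)) (k y : ℤ) : Prop := (k, y) ∈ C ∧ (k - 1, y) ∈ C

/-- The sum over a part of the vertical line. -/
noncomputable def psi (C : Finset (ℤ × ℤ)) (k : ℤ) (g : UE → ZMod 2) (I : Finset ℤ) : ZMod 2 :=
  ∑ y ∈ I, ind2 (Bt C k y) * g (k, y, true)

theorem fab_vert (k y : ℤ) : (fa (k, y, true) = (k, y) ∧ fb (k, y, true) = (k - 1, y)) ∨
    (fa (k, y, true) = (k - 1, y) ∧ fb (k, y, true) = (k, y)) := by
  unfold fa fb
  by_cases h : par (ua (k, y, true)) = 0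
  · left; simp [h]
  · right; simp [h]

/-- A boundary edge of `C`, with its face in `C`. -/
def BdE (C : Finset (ℤ × ℤ)) (a : UE) (f : ℤ × ℤ) : Prop :=
  (f = fa a ∧ fa a ∈ C ∧ fb a ∉ C) ∨ (f = fb a ∧ fb a ∈ C ∧ fa a ∉ C)

/-- **The sum over a part of `C`** which is separated from the rest by the vertical line `k`. -/
theorem sum_half {S : Finset (ℤ × ℤ)} {I : Finset ℤ} (hS : S ⊆ C)
    (hline : ∀ a, fa a ∈ C → fb a ∈ C → ¬ (fa a ∈ S ↔ fb a ∈ S) → ∃ y, a = (k, y, true))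
    (hside : ∀ y, Bt C k y → ((k, y) ∈ S ↔ (k - 1, y) ∉ S)) (hI : ∀ f ∈ C, f.2 ∈ I)
    (h0 : ∀ a f, BdE C a f → f ∈ S → g a = 0) :
    ∑ f ∈ S, sq g f = psi C k g I := by
  classical
  set J : Finset UE := I.image fun y => (k, y, true) with hJ
  rw [sum_sq S g (A := eds S ∪ J) Finset.subset_union_left]
  have h1 : ∀ a ∈ eds S ∪ J, a ∉ J → g a * (ind2 (fa a ∈ S) + ind2 (fb a ∈ S)) = 0 := by
    intro a _ ha
    by_cases h2 : fa a ∈ S ↔ fb a ∈ S
    · rw [ind2_congr h2, z2_self, mul_zero]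
    · by_cases h3 : fa a ∈ C
      · by_cases h4 : fb a ∈ C
        · obtain ⟨y, rfl⟩ := hline a h3 h4 h2
          exfalso
          apply ha
          rw [hJ, Finset.mem_image]
          refine ⟨y, ?_, rfl⟩
          rcases fab_vert k y with ⟨e1, -⟩ | ⟨e1, -⟩
          · rw [e1] at h3; exact hI _ h3
          · rw [e1] at h3; exact hI _ h3
        · have h5 : fa a ∈ S := by
            by_contra h5
            exact h2 ⟨fun h => absurd h h5, fun h => absurd (hS h) h4⟩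
          rw [h0 a _ (Or.inl ⟨rfl, h3, h4⟩) h5, zero_mul]
      · have h5 : fb a ∈ S := by
          by_contra h5
          exact h2 ⟨fun h => absurd (hS h) h3, fun h => absurd h h5⟩
        rw [h0 a _ (Or.inr ⟨rfl, hS h5, h3⟩) h5, zero_mul]
  rw [← Finset.sum_subset (Finset.subset_union_right : J ⊆ eds S ∪ J) h1, hJ,
    Finset.sum_image fun y _ y' _ h => by simpa using h]
  unfold psi
  refine Finset.sum_congr rfl fun y _ => ?_
  have hf : ind2 (fa (k, y, true) ∈ S) + ind2 (fb (k, y, true) ∈ S) =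
      ind2 ((k, y) ∈ S) + ind2 ((k - 1, y) ∈ S) := by
    rcases fab_vert k y with ⟨e1, e2⟩ | ⟨e1, e2⟩
    · rw [e1, e2]
    · rw [e1, e2, add_comm]
  have hbd : ∀ f ∈ S, (f = (k, y) ∧ (k - 1, y) ∉ C) ∨ (f = (k - 1, y) ∧ (k, y) ∉ C) →
      g (k, y, true) = 0 := by
    intro f hf h
    refine h0 _ f ?_ hf
    unfold BdE
    rcases fab_vert k y with ⟨e1, e2⟩ | ⟨e1, e2⟩ <;> rw [e1, e2] <;> rcases h with ⟨rfl, h⟩ | ⟨rfl, h⟩
    · exact Or.inl ⟨rfl, hS hf, h⟩
    · exact Or.inr ⟨rfl, hS hf, h⟩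
    · exact Or.inr ⟨rfl, hS hf, h⟩
    · exact Or.inl ⟨rfl, hS hf, h⟩
  rw [hf]
  by_cases hB : Bt C k y
  · rw [ind2_pos hB, one_mul]
    have h2 := hside y hB
    by_cases h3 : (k, y) ∈ S
    · rw [ind2_pos h3, ind2_neg (h2.1 h3), add_zero, mul_one]
    · have h4 : (k - 1, y) ∈ S := by
        by_contra h4
        exact h3 (h2.2 h4)
      rw [ind2_neg h3, ind2_pos h4, zero_add, mul_one]
  · rw [ind2_neg hB, zero_mul]
    by_cases h3 : (k, y) ∈ S
    · rw [hbd _ h3 (Or.inl ⟨rfl, fun h4 => hB ⟨hS h3, h4⟩⟩), zero_mul]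
    · by_cases h4 : (k - 1, y) ∈ S
      · rw [hbd _ h4 (Or.inr ⟨rfl, fun h5 => hB ⟨h5, hS h4⟩⟩), zero_mul]
      · rw [ind2_neg h3, ind2_neg h4, add_zero, mul_zero]

/-- The exceptional boundary edges of `C`. -/
def BdX (C : Finset (ℤ × ℤ)) (X : UE → Prop) (a : UE) : Prop := (∃ f, BdE C a f) ∧ X a

theorem not_bd_of_bt {y : ℤ} (h : Bt C k y) (f : ℤ × ℤ) : ¬ BdE C (k, y, true) f := by
  unfold BdE
  rcases fab_vert k y with ⟨e1, e2⟩ | ⟨e1, e2⟩ <;> rw [e1, e2] <;>
    rintro (⟨-, -, h1⟩ | ⟨-, -, h1⟩)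
  exacts [h1 h.2, h1 h.1, h1 h.1, h1 h.2]

/-- The sum over a part of `C` with exceptional boundary edges. -/
theorem sum_halfX {S : Finset (ℤ × ℤ)} {I : Finset ℤ} {X : UE → Prop} (hS : S ⊆ C)
    (hline : ∀ a, fa a ∈ C → fb a ∈ C → ¬ (fa a ∈ S ↔ fb a ∈ S) → ∃ y, a = (k, y, true))
    (hside : ∀ y, Bt C k y → ((k, y) ∈ S ↔ (k - 1, y) ∉ S)) (hI : ∀ f ∈ C, f.2 ∈ I)
    (h0 : ∀ a f, BdE C a f → f ∈ S → ¬ X a → g a = 0) :
    ∑ f ∈ S, sq g f = psi C k g I + ∑ f ∈ S, sq (fun a => ind2 (BdX C X a) * g a) f := by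
  have h1 := sum_half (g := fun a => g a + ind2 (BdX C X a) * g a) hS hline hside hI (by
    intro a f ha hf
    by_cases hX : X a
    · rw [ind2_pos ⟨⟨f, ha⟩, hX⟩, one_mul, z2_self]
    · rw [h0 a f ha hf hX, mul_zero, add_zero])
  simp only [sq_add, Finset.sum_add_distrib] at h1
  have h2 : psi C k (fun a => g a + ind2 (BdX C X a) * g a) I = psi C k g I := by
    unfold psi
    refine Finset.sum_congr rfl fun y _ => ?_
    by_cases hB : Bt C k y
    · have h3 : ¬ BdX C X (k, y, true) := fun h => h.1.elim fun f hf => not_bd_of_bt hB f hf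
      simp only [ind2_neg h3, zero_mul, add_zero]
    · rw [ind2_neg hB, zero_mul, zero_mul]
  rw [h2] at h1
  rw [← h1, add_assoc, z2_self, add_zero]

/-! ### Potentials -/

/-- A vertex of the boundary of `C`: one of its four faces is in `C` and one is not. -/
def Bv (C : Finset (ℤ × ℤ)) (v : ℤ × ℤ) : Prop :=
  (∃ f ∈ C, (f.1 = v.1 ∨ f.1 = v.1 - 1) ∧ (f.2 = v.2 ∨ f.2 = v.2 - 1)) ∧
    ∃ f ∉ C, (f.1 = v.1 ∨ f.1 = v.1 - 1) ∧ (f.2 = v.2 ∨ f.2 = v.2 - 1)

theorem bt_iff_of_not_bv {y : ℤ} (h : ¬ Bv C (k, y)) : Bt C k y ↔ Bt C k (y - 1) := by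
  unfold Bv at h
  unfold Bt
  constructor
  · rintro ⟨h1, h2⟩
    constructor
    · by_contra h3
      exact h ⟨⟨_, h1, Or.inl rfl, Or.inl rfl⟩, _, h3, Or.inl rfl, Or.inr rfl⟩
    · by_contra h3
      exact h ⟨⟨_, h1, Or.inl rfl, Or.inl rfl⟩, _, h3, Or.inr rfl, Or.inr rfl⟩
  · rintro ⟨h1, h2⟩
    constructor
    · by_contra h3
      exact h ⟨⟨_, h1, Or.inl rfl, Or.inr rfl⟩, _, h3, Or.inl rfl, Or.inl rfl⟩
    · by_contra h3
      exact h ⟨⟨_, h1, Or.inl rfl, Or.inr rfl⟩, _, h3, Or.inr rfl, Or.inl rfl⟩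

/-- **The sum of a potential over a half line, upwards.** -/
theorem psi_up {σ : ℤ × ℤ → ZMod 2} {N : ℤ} (h0 : ∀ y, Bv C (k, y) → σ (k, y) = 0)
    (hN : ∀ f ∈ C, f.2 < N) (hx : Bt C k y₀) :
    psi C k (fun a => σ (ua a) + σ (ub a)) (Finset.Ico y₀ N) = σ (k, y₀) := by
  have hN' : ¬ Bt C k N := fun h => absurd (hN _ h.1) (by simp)
  have hle : y₀ ≤ N := (hN _ hx.1).le
  obtain ⟨n, hn⟩ : ∃ n : ℕ, N = y₀ + n := ⟨(N - y₀).toNat, by omega⟩
  -- the partial sums
  have key : ∀ n : ℕ, psi C k (fun a => σ (ua a) + σ (ub a)) (Finset.Ico y₀ (y₀ + n)) =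
      ind2 (Bt C k y₀) * σ (k, y₀) + ind2 (Bt C k (y₀ + n)) * σ (k, y₀ + n) := by
    intro n
    induction n with
    | zero =>
      unfold psi
      simp [z2_self]
    | succ n ih =>
      have h1 : Finset.Ico y₀ (y₀ + ((n + 1 : ℕ) : ℤ)) =
          insert (y₀ + (n : ℤ)) (Finset.Ico y₀ (y₀ + (n : ℤ))) := by
        ext y
        simp only [Finset.mem_Ico, Finset.mem_insert]
        push_cast
        omega
      unfold psi at ih ⊢
      rw [h1, Finset.sum_insert (by simp), ih]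
      have h2 : ind2 (Bt C k (y₀ + n)) * σ (k, y₀ + n + 1) =
          ind2 (Bt C k (y₀ + n + 1)) * σ (k, y₀ + n + 1) := by
        by_cases hb : Bv C (k, y₀ + n + 1)
        · rw [h0 _ hb, mul_zero, mul_zero]
        · have h3 := bt_iff_of_not_bv hb
          rw [show y₀ + (n : ℤ) + 1 - 1 = y₀ + n by ring] at h3
          rw [ind2_congr h3]
      simp only [ua, ub, if_true]
      rw [mul_add, h2]
      push_cast
      rw [show y₀ + ((n : ℤ) + 1) = y₀ + n + 1 by ring]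
      generalize ind2 (Bt C k (y₀ + n)) * σ (k, y₀ + n) = a
      generalize ind2 (Bt C k (y₀ + n + 1)) * σ (k, y₀ + n + 1) = b
      generalize ind2 (Bt C k y₀) * σ (k, y₀) = c
      revert a b c
      decide
  rw [hn, key n, ← hn, ind2_pos hx, ind2_neg hN', one_mul, zero_mul, add_zero]

/-- **The sum of a potential over a half line, downwards.** -/
theorem psi_down {σ : ℤ × ℤ → ZMod 2} {N : ℤ} (h0 : ∀ y, Bv C (k, y) → σ (k, y) = 0)
    (hN : ∀ f ∈ C, N < f.2) (hx : Bt C k (y₀ - 1)) :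
    psi C k (fun a => σ (ua a) + σ (ub a)) (Finset.Ico N y₀) = σ (k, y₀) := by
  have hN' : ¬ Bt C k (N - 1) := fun h => absurd (hN _ h.1) (by simp)
  have hle : N ≤ y₀ := by
    have := hN _ hx.1
    simp only at this
    omega
  obtain ⟨n, hn⟩ : ∃ n : ℕ, y₀ = N + n := ⟨(y₀ - N).toNat, by omega⟩
  have key : ∀ n : ℕ, psi C k (fun a => σ (ua a) + σ (ub a)) (Finset.Ico N (N + n)) =
      ind2 (Bt C k (N - 1)) * σ (k, N) + ind2 (Bt C k (N + n - 1)) * σ (k, N + n) := by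
    intro n
    induction n with
    | zero =>
      unfold psi
      simp [z2_self]
    | succ n ih =>
      have h1 : Finset.Ico N (N + ((n + 1 : ℕ) : ℤ)) =
          insert (N + (n : ℤ)) (Finset.Ico N (N + (n : ℤ))) := by
        ext y
        simp only [Finset.mem_Ico, Finset.mem_insert]
        push_cast
        omega
      unfold psi at ih ⊢
      rw [h1, Finset.sum_insert (by simp), ih]
      have h2 : ind2 (Bt C k (N + n)) * σ (k, N + n) =
          ind2 (Bt C k (N + n - 1)) * σ (k, N + n) := by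
        by_cases hb : Bv C (k, N + n)
        · rw [h0 _ hb, mul_zero, mul_zero]
        · rw [ind2_congr (bt_iff_of_not_bv hb)]
      simp only [ua, ub, if_true]
      rw [mul_add, h2]
      push_cast
      rw [show N + ((n : ℤ) + 1) - 1 = N + n by ring, show N + ((n : ℤ) + 1) = N + n + 1 by ring]
      generalize ind2 (Bt C k (N + n - 1)) * σ (k, N + n) = a
      generalize ind2 (Bt C k (N + n)) * σ (k, N + n + 1) = b
      generalize ind2 (Bt C k (N - 1)) * σ (k, N) = c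
      revert a b c
      decide
  have h3 := key n
  rw [← hn] at h3
  rw [h3, ind2_pos hx, ind2_neg hN', one_mul, zero_mul, zero_add]

theorem psi_congr {g' : UE → ZMod 2} {I : Finset ℤ}
    (h : ∀ y ∈ I, Bt C k y → g (k, y, true) = g' (k, y, true)) : psi C k g I = psi C k g' I := by
  unfold psi
  refine Finset.sum_congr rfl fun y hy => ?_
  by_cases hB : Bt C k y
  · rw [h y hy hB]
  · rw [ind2_neg hB, zero_mul, zero_mul]

/-! ### Fixed walks -/

/-- The list of unit edges is a walk from `v` to `w`. -/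
def IsWk : List UE → ℤ × ℤ → ℤ × ℤ → Prop
  | [], v, w => v = w
  | a :: L, v, w => ∃ u, Joins a v u ∧ IsWk L u w

theorem IsWk.wk {Eg : Set UE} {χ : UE → ZMod 2} {L : List UE} {v w : ℤ × ℤ} (h : IsWk L v w)
    (hE : ∀ a ∈ L, a ∈ Eg) : Wk Eg χ v w (L.map χ).sum := by
  induction L generalizing v with
  | nil =>
    have h1 : v = w := h
    subst h1
    exact Wk.nil v
  | cons a L ih =>
    obtain ⟨u, h1, h2⟩ := h
    rw [List.map_cons, List.sum_cons]
    exact Wk.cons (hE a List.mem_cons_self) h1 (ih h2 fun b hb => hE b (List.mem_cons_of_mem a hb))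

theorem exists_isWk {Eg : Set UE} {v w : ℤ × ℤ} (h : Pth Eg v w) :
    ∃ L, IsWk L v w ∧ ∀ a ∈ L, a ∈ Eg := by
  induction h using Relation.ReflTransGen.head_induction_on with
  | refl => exact ⟨[], rfl, by simp⟩
  | head h1 _ ih =>
    obtain ⟨a, ha, hj⟩ := h1
    obtain ⟨L, h2, h3⟩ := ih
    refine ⟨a :: L, ⟨_, hj, h2⟩, fun b hb => ?_⟩
    rcases List.mem_cons.1 hb with rfl | hb
    · exact ha
    · exact h3 b hb

/-- Every vertex of the boundary of `C` is anchored at the time `t₀`: a fixed walk, not crossed at the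
time `t₀`, from `v` to the vertex `y v` of the sides. -/
structure Anch (E : Ex) (ω : Cfg) (t₀ : ℕ) (d : ℤ) (C : Finset (ℤ × ℤ)) (y : ℤ × ℤ → ℤ × ℤ)
    (L : ℤ × ℤ → List UE) : Prop where
  wk : ∀ v, Bv C v → IsWk (L v) v (y v)
  box : ∀ v, Bv C v → ∀ a ∈ L v, InB v d a
  unc : ∀ v, Bv C v → ∀ a ∈ L v, ∀ l ≤ t₀, E.p ω l ≠ a
  sd : ∀ v, Bv C v → Sd E ω t₀ (y v)

open Classical in
/-- The number of a vertex of the boundary at the time `t`. -/
noncomputable def sv (E : Ex) (ω : Cfg) (C : Finset (ℤ × ℤ)) (y : ℤ × ℤ → ℤ × ℤ)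
    (L : ℤ × ℤ → List UE) (t : ℕ) (v : ℤ × ℤ) : ZMod 2 :=
  if Bv C v then ((L v).map (cr E ω t)).sum + cl (y v) else 0

/-- The defect of a unit edge at the time `t`. -/
noncomputable def dft (E : Ex) (ω : Cfg) (C : Finset (ℤ × ℤ)) (y : ℤ × ℤ → ℤ × ℤ)
    (L : ℤ × ℤ → List UE) (t : ℕ) (a : UE) : ZMod 2 :=
  cr E ω t a + (sv E ω C y L t (ua a) + sv E ω C y L t (ub a))

variable {y : ℤ × ℤ → ℤ × ℤ} {L : ℤ × ℤ → List UE} {d R R₁ Rb : ℤ} {b : ℤ × ℤ}

/-- The vertex `v` is in the box of radius `r` around `z`. -/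
def inb (z : ℤ × ℤ) (r : ℤ) (v : ℤ × ℤ) : Prop := |v.1 - z.1| ≤ r ∧ |v.2 - z.2| ≤ r

theorem bv_of_bdE {a : UE} {f : ℤ × ℤ} (h : BdE C a f) : Bv C (ua a) ∧ Bv C (ub a) := by
  obtain ⟨p, q, dd⟩ := a
  have key : ∀ x y : ℤ × ℤ, x ∈ C → y ∉ C →
      ((x = fa (p, q, dd) ∧ y = fb (p, q, dd)) ∨ (x = fb (p, q, dd) ∧ y = fa (p, q, dd))) →
      Bv C (ua (p, q, dd)) ∧ Bv C (ub (p, q, dd)) := by
    intro x y hx hy h
    have h1 : ∀ f : ℤ × ℤ, (f = fa (p, q, dd) ∨ f = fb (p, q, dd)) →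
        (((f.1 = (ua (p, q, dd)).1 ∨ f.1 = (ua (p, q, dd)).1 - 1) ∧
          (f.2 = (ua (p, q, dd)).2 ∨ f.2 = (ua (p, q, dd)).2 - 1)) ∧
        ((f.1 = (ub (p, q, dd)).1 ∨ f.1 = (ub (p, q, dd)).1 - 1) ∧
          (f.2 = (ub (p, q, dd)).2 ∨ f.2 = (ub (p, q, dd)).2 - 1))) := by
      intro f hf
      unfold fa fb at hf
      cases dd <;> simp only [ua, ub, Bool.false_eq_true, if_false, if_true] at hf ⊢ <;>
        split_ifs at hf <;> rcases hf with rfl | rfl <;> simp
    have hx' := h1 x (by rcases h with h | h; exacts [Or.inl h.1, Or.inr h.1])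
    have hy' := h1 y (by rcases h with h | h; exacts [Or.inr h.2, Or.inl h.2])
    exact ⟨⟨⟨x, hx, hx'.1⟩, y, hy, hy'.1⟩, ⟨x, hx, hx'.2⟩, y, hy, hy'.2⟩
  rcases h with ⟨-, h1, h2⟩ | ⟨-, h1, h2⟩
  · exact key _ _ h1 h2 (Or.inl ⟨rfl, rfl⟩)
  · exact key _ _ h1 h2 (Or.inr ⟨rfl, rfl⟩)

private theorem z2_aux2 : ∀ s s' x a b : ZMod 2, s + x + s' = a + b → x + (s + a + (s' + b)) = 0 := by
  decide

/-- **No gate, no defect.** -/
theorem dft_zero (hA : Anch E ω t₀ d C y L) (ht : t₀ ≤ t) (hd : 0 ≤ d) {a : UE} {f : ℤ × ℤ}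
    (ha : BdE C a f) (hg : ¬ E.Gate ω t (ua a) (d + 1)) : dft E ω C y L t a = 0 := by
  obtain ⟨hv, hw⟩ := bv_of_bdE ha
  have hj : Joins a (ua a) (ub a) := Or.inl ⟨rfl, rfl⟩
  have hn := joins_near hj
  have e1 : ∀ x ∈ L (ua a), x ∈ {x | InB (ua a) (d + 1) x} := fun x hx =>
    (hA.box _ hv x hx).mono (by omega)
  have e2 : ∀ x ∈ L (ub a), x ∈ {x | InB (ua a) (d + 1) x} := by
    intro x hx
    have hb' := hA.box _ hw x hx
    have h1 := abs_le.1 hn.1
    have h2 := abs_le.1 hn.2.1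
    show InB (ua a) (d + 1) x
    unfold InB InR at hb' ⊢
    omega
  have e3 : a ∈ {x | InB (ua a) (d + 1) x} := by
    show InB (ua a) (d + 1) a
    unfold InB InR
    omega
  have w1 : Wk {x | InB (ua a) (d + 1) x} (cr E ω t) (ua a) (y (ua a))
      ((L (ua a)).map (cr E ω t)).sum := (hA.wk _ hv).wk e1
  have w2 : Wk {x | InB (ua a) (d + 1) x} (cr E ω t) (ub a) (y (ub a))
      ((L (ub a)).map (cr E ω t)).sum := (hA.wk _ hw).wk e2
  have h4 := (w1.symm.trans (Wk.single e3 hj)).trans w2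
  have h5 := par_path hg h4 ((hA.sd _ hv).mono ht) ((hA.sd _ hw).mono ht)
  unfold dft sv
  rw [if_pos hv, if_pos hw]
  exact z2_aux2 _ _ _ _ _ h5

theorem cr_succ {a : UE} (h : E.p ω (t + 1) ≠ a) : cr E ω (t + 1) a = cr E ω t a := by
  refine ind2_congr ⟨?_, fun ⟨l, hl, h⟩ => ⟨l, by omega, h⟩⟩
  rintro ⟨l, hl, h1⟩
  rcases Nat.lt_or_ge l (t + 1) with h3 | h3
  · exact ⟨l, by omega, h1⟩
  · have : l = t + 1 := by omega
    subst this
    exact absurd h1 h

theorem sv_succ (hA : Anch E ω t₀ d C y L) {v : ℤ × ℤ}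
    (h : Bv C v → ¬ InB v d (E.p ω (t + 1))) : sv E ω C y L (t + 1) v = sv E ω C y L t v := by
  unfold sv
  by_cases hv : Bv C v
  · rw [if_pos hv, if_pos hv]
    congr 2
    refine List.map_congr_left fun a ha => cr_succ fun h1 => ?_
    exact h hv (h1 ▸ hA.box v hv a ha)
  · rw [if_neg hv, if_neg hv]

theorem sv_zero (hA : Anch E ω t₀ d C y L) {v : ℤ × ℤ} (hv : Bv C v) :
    sv E ω C y L t₀ v = cl (y v) := by
  unfold sv
  rw [if_pos hv]
  have h1 : (L v).map (cr E ω t₀) = (L v).map fun _ => 0 := by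
    refine List.map_congr_left fun a ha => ind2_neg ?_
    rintro ⟨l, hl, h⟩
    exact hA.unc v hv a ha l hl h
  rw [h1, List.map_const', List.sum_replicate, smul_zero, zero_add]

/-- The sum of the defects of the exceptional boundary edges. -/
noncomputable def bet (E : Ex) (ω : Cfg) (C : Finset (ℤ × ℤ)) (y : ℤ × ℤ → ℤ × ℤ)
    (L : ℤ × ℤ → List UE) (X : UE → Prop) (t : ℕ) : ZMod 2 :=
  ∑ f ∈ C, sq (fun a => ind2 (BdX C X a) * dft E ω C y L t a) f

/-- **The total defect of a part of `C`** which contains neither the tip nor the start. -/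
theorem psi_part (hA : Anch E ω t₀ d C y L) (ht : t₀ ≤ t) (hd : 0 ≤ d)
    (hn : Nb (E.cf ω) (E.e ω) t) {S : Finset (ℤ × ℤ)} {I : Finset ℤ} {X : UE → Prop} (hS : S ⊆ C)
    (hline : ∀ a, fa a ∈ C → fb a ∈ C → ¬ (fa a ∈ S ↔ fb a ∈ S) → ∃ y, a = (k, y, true))
    (hside : ∀ y, Bt C k y → ((k, y) ∈ S ↔ (k - 1, y) ∉ S)) (hI : ∀ f ∈ C, f.2 ∈ I)
    (h0 : ∀ a f, BdE C a f → f ∈ S → ¬ X a → ¬ E.Gate ω t (ua a) (d + 1))
    (h1 : fb (E.e ω) ∉ S) (h2 : fa (E.p ω t) ∉ S) :
    psi C k (dft E ω C y L t) I =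
      ∑ f ∈ S, sq (fun a => ind2 (BdX C X a) * dft E ω C y L t a) f := by
  have h3 := sum_halfX (g := dft E ω C y L t) (X := X) hS hline hside hI
    fun a f ha hf hX => dft_zero hA ht hd ha (h0 a f ha hf hX)
  have h4 : ∑ f ∈ S, sq (dft E ω C y L t) f = 0 := by
    have h5 : ∀ f, sq (dft E ω C y L t) f = sq (cr E ω t) f := by
      intro f
      have h6 : sq (dft E ω C y L t) f = sq (cr E ω t) f +
          sq (fun a => sv E ω C y L t (ua a) + sv E ω C y L t (ub a)) f := sq_add _ _ f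
      rw [h6, sq_grad, add_zero]
    rw [Finset.sum_congr rfl fun f _ => h5 f, sum_sq_cr S hn, ind2_neg h1, ind2_neg h2, add_zero]
  rw [h4] at h3
  generalize psi C k (dft E ω C y L t) I = u at h3 ⊢
  generalize ∑ f ∈ S, sq (fun a => ind2 (BdX C X a) * dft E ω C y L t a) f = v at h3 ⊢
  revert u v
  decide

end Pool.Agent.SixB.Deep
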