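import Pool.Agent.Lib.SixB.S8Deep

/-!
# Step 8: the side of a deep face of a polygon, the main theorem

`deep`: `C` is a finite set of faces, fresh at the time `t₀`, with anchors; the vertex `x₀` is deep in
`C`, the strand never comes near `x₀`; the anchors on the vertical line through `x₀` have the colour
`c`. There are no gates at the vertices of the boundary of `C` which are far from the tip and outside of
a box (base); the defects in this box have the sum zero if the tip is on the other side of the line.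
Then at the time `T` of the closed strand the vertex `x₀` is on the side `c`.
-/

set_option autoImplicit false

namespace Pool.Agent.SixB.Deep

open Finset Pool.Agent.Perc Pool.Agent.PercT Pool.Agent.Perc6 Pool.Agent.SixB
  Pool.Agent.SixB.NearCut Pool.Agent.SixB.Mv Pool.Agent.SixB.Par

variable {E : Ex} {ω : Cfg} {t t₀ T : ℕ} {C : Finset (ℤ × ℤ)} {k y₀ N N' : ℤ}
  {y : ℤ × ℤ → ℤ × ℤ} {L : ℤ × ℤ → List UE} {d R R₁ Rb : ℤ} {b : ℤ × ℤ} {c : ZMod 2}

theorem fa_le (a : UE) : (fa a).1 ≤ (ua a).1 ∧ (ua a).1 - 1 ≤ (fa a).1 ∧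
    (fb a).1 ≤ (ua a).1 ∧ (ua a).1 - 1 ≤ (fb a).1 := by
  obtain ⟨p, q, dd⟩ := a
  unfold fa fb
  cases dd <;> simp only [ua, Bool.false_eq_true, if_false, if_true] <;> split_ifs <;>
    simp only <;> omega

/-- The faces of a unit edge have the same first coordinate or it is vertical. -/
theorem fa_fst (a : UE) : (fa a).1 = (fb a).1 ∨ ((fa a = (a.1, a.2.1) ∨ fa a = (a.1 - 1, a.2.1)) ∧
    (fb a = (a.1, a.2.1) ∨ fb a = (a.1 - 1, a.2.1)) ∧ a = (a.1, a.2.1, true)) := by
  obtain ⟨p, q, dd⟩ := a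
  unfold fa fb
  cases dd
  · left
    simp only [Bool.false_eq_true, if_false]
    split_ifs <;> rfl
  · right
    simp only [if_true]
    split_ifs <;> simp

/-- The exceptional sum over a part of `C` which contains all the faces near the box. -/
theorem bet_eq {S : Finset (ℤ × ℤ)} (hS : S ⊆ C)
    (h : ∀ f ∈ C, f ∉ S → ∀ a, IsSide f a → ¬ InB b Rb a) :
    ∑ f ∈ S, sq (fun a => ind2 (BdX C (InB b Rb) a) * dft E ω C y L t a) f =
      bet E ω C y L (InB b Rb) t := by
  unfold bet
  refine Finset.sum_subset hS fun f hf hf' => ?_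
  have h1 : ∀ a, IsSide f a → ind2 (BdX C (InB b Rb) a) * dft E ω C y L t a = 0 := fun a ha => by
    rw [ind2_neg fun h2 => h f hf hf' a ha h2.2, zero_mul]
  simp only [sq]
  rw [h1 _ (Or.inl rfl), h1 _ (Or.inr (Or.inr (Or.inl rfl))), h1 _ (Or.inr (Or.inl rfl)),
    h1 _ (Or.inr (Or.inr (Or.inr rfl)))]
  decide

theorem bet_none {S : Finset (ℤ × ℤ)} (h : ∀ f ∈ S, ∀ a, IsSide f a → ¬ InB b Rb a) :
    ∑ f ∈ S, sq (fun a => ind2 (BdX C (InB b Rb) a) * dft E ω C y L t a) f = 0 := by
  refine Finset.sum_eq_zero fun f hf => ?_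
  have h1 : ∀ a, IsSide f a → ind2 (BdX C (InB b Rb) a) * dft E ω C y L t a = 0 := fun a ha => by
    rw [ind2_neg fun h2 => h f hf a ha h2.2, zero_mul]
  simp only [sq]
  rw [h1 _ (Or.inl rfl), h1 _ (Or.inr (Or.inr (Or.inl rfl))), h1 _ (Or.inr (Or.inl rfl)),
    h1 _ (Or.inr (Or.inr (Or.inr rfl)))]
  decide

theorem side_fst {f : ℤ × ℤ} {a : UE} (h : IsSide f a) : f.1 ≤ (ua a).1 ∧ (ua a).1 ≤ f.1 + 1 := by
  have h1 := fa_le a
  rcases isSide_iff.1 h with rfl | rfl <;> omega

/-- The conditions on the boundary of `C` and the strand from the time `t₀` to the time `T`. -/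
structure Cond (E : Ex) (ω : Cfg) (t₀ T : ℕ) (C : Finset (ℤ × ℤ)) (y : ℤ × ℤ → ℤ × ℤ)
    (L : ℤ × ℤ → List UE) (d R : ℤ) (b : ℤ × ℤ) (Rb : ℤ) : Prop where
  an : Anch E ω t₀ d C y L
  d0 : 0 ≤ d
  nb : Nb (E.cf ω) (E.e ω) T
  st : fb (E.e ω) ∉ C
  gate : ∀ t, t₀ < t → t ≤ T → ∀ a f, BdE C a f → ¬ inb b Rb (ua a) → ¬ InB (ua a) R (E.p ω t) →
    ¬ E.Gate ω t (ua a) (d + 1)

/-- **The right half**, the tip is on the left. -/
theorem half_right (H : Cond E ω t₀ T C y L d R b Rb) (ht : t₀ < t) (htT : t ≤ T) (hR : R ≤ R₁)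
    (hR1 : 1 ≤ R₁) (hbk : Rb + 1 < |b.1 - k|) (hN : ∀ f ∈ C, N' < f.2 ∧ f.2 < N)
    (htip : (ua (E.p ω t)).1 < k - R₁)
    (hb : k < b.1 → bet E ω C y L (InB b Rb) t = 0) :
    psi C k (dft E ω C y L t) (Finset.Ico N' N) = 0 := by
  classical
  have hS : (C.filter fun f => k ≤ f.1) ⊆ C := Finset.filter_subset _ _
  have h2 := fa_le (E.p ω t)
  rw [psi_part (X := InB b Rb) H.an ht.le H.d0 (H.nb.mono htT) hS ?_ ?_ ?_ ?_ ?_ ?_]
  · rcases le_or_gt b.1 k with h3 | h3
    · refine bet_none fun f hf a ha hX => ?_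
      rw [Finset.mem_filter] at hf
      have h4 := side_fst ha
      rw [abs_of_nonpos (by omega)] at hbk
      unfold InB InR at hX
      omega
    · rw [bet_eq hS, hb h3]
      intro f hf hf' a ha hX
      rw [Finset.mem_filter] at hf'
      have h4 := side_fst ha
      rw [abs_of_pos (by omega)] at hbk
      unfold InB InR at hX
      have h5 : ¬ k ≤ f.1 := fun h => hf' ⟨hf, h⟩
      omega
  · intro a h3 h4 h5
    rcases fa_fst a with h6 | ⟨h6, h7, h8⟩
    · exfalso
      apply h5
      simp only [Finset.mem_filter, h3, h4, true_and, h6]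
    · refine ⟨a.2.1, ?_⟩
      rw [h8]
      simp only [Prod.mk.injEq, and_true]
      by_contra h9
      apply h5
      simp only [Finset.mem_filter, h3, h4, true_and]
      rcases h6 with h6 | h6 <;> rcases h7 with h7 | h7 <;> rw [h6, h7] <;> simp only <;> omega
  · intro y' hy'
    simp only [Finset.mem_filter, hy'.1, hy'.2, true_and]
    omega
  · intro f hf
    rw [Finset.mem_Ico]
    have := hN f hf
    omega
  · intro a f ha hf hX
    rw [Finset.mem_filter] at hf
    have h4 : f.1 ≤ (ua a).1 := by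
      rcases ha with ⟨rfl, -, -⟩ | ⟨rfl, -, -⟩
      · exact (fa_le a).1
      · exact (fa_le a).2.2.1
    refine H.gate t ht htT _ f ha (fun h5 => hX ?_) fun h5 => ?_
    · unfold inb at h5
      rw [abs_le, abs_le] at h5
      unfold InB InR
      omega
    · unfold InB InR at h5
      omega
  · rw [Finset.mem_filter]
    exact fun h => H.st h.1
  · rw [Finset.mem_filter]
    omega

/-- **The left half**, the tip is on the right. -/
theorem half_left (H : Cond E ω t₀ T C y L d R b Rb) (ht : t₀ < t) (htT : t ≤ T) (hR : R ≤ R₁)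
    (hR1 : 1 ≤ R₁) (hbk : Rb + 1 < |b.1 - k|) (hN : ∀ f ∈ C, N' < f.2 ∧ f.2 < N)
    (htip : k + R₁ < (ua (E.p ω t)).1)
    (hb : b.1 < k → bet E ω C y L (InB b Rb) t = 0) :
    psi C k (dft E ω C y L t) (Finset.Ico N' N) = 0 := by
  classical
  have hS : (C.filter fun f => f.1 < k) ⊆ C := Finset.filter_subset _ _
  have h2 := fa_le (E.p ω t)
  rw [psi_part (X := InB b Rb) H.an ht.le H.d0 (H.nb.mono htT) hS ?_ ?_ ?_ ?_ ?_ ?_]
  · rcases le_or_gt k b.1 with h3 | h3
    · refine bet_none fun f hf a ha hX => ?_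
      rw [Finset.mem_filter] at hf
      have h4 := side_fst ha
      rw [abs_of_nonneg (by omega)] at hbk
      unfold InB InR at hX
      omega
    · rw [bet_eq hS, hb h3]
      intro f hf hf' a ha hX
      rw [Finset.mem_filter] at hf'
      have h4 := side_fst ha
      rw [abs_of_neg (by omega)] at hbk
      unfold InB InR at hX
      have h5 : ¬ f.1 < k := fun h => hf' ⟨hf, h⟩
      omega
  · intro a h3 h4 h5
    rcases fa_fst a with h6 | ⟨h6, h7, h8⟩
    · exfalso
      apply h5
      simp only [Finset.mem_filter, h3, h4, true_and, h6]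
    · refine ⟨a.2.1, ?_⟩
      rw [h8]
      simp only [Prod.mk.injEq, and_true]
      by_contra h9
      apply h5
      simp only [Finset.mem_filter, h3, h4, true_and]
      rcases h6 with h6 | h6 <;> rcases h7 with h7 | h7 <;> rw [h6, h7] <;> simp only <;> omega
  · intro y' hy'
    simp only [Finset.mem_filter, hy'.1, hy'.2, true_and]
    omega
  · intro f hf
    rw [Finset.mem_Ico]
    have := hN f hf
    omega
  · intro a f ha hf hX
    rw [Finset.mem_filter] at hf
    have h4 : (ua a).1 ≤ f.1 + 1 := by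
      have := fa_le a
      rcases ha with ⟨rfl, -, -⟩ | ⟨rfl, -, -⟩ <;> omega
    refine H.gate t ht htT _ f ha (fun h5 => hX ?_) fun h5 => ?_
    · unfold inb at h5
      rw [abs_le, abs_le] at h5
      unfold InB InR
      omega
    · unfold InB InR at h5
      omega
  · rw [Finset.mem_filter]
    exact fun h => H.st h.1
  · rw [Finset.mem_filter]
    omega

theorem psi_split (g : UE → ZMod 2) (h1 : N' ≤ y₀) (h2 : y₀ ≤ N) :
    psi C k g (Finset.Ico N' N) = psi C k g (Finset.Ico y₀ N) + psi C k g (Finset.Ico N' y₀) := by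
  unfold psi
  rw [add_comm]
  have h3 : Finset.Ico N' N = Finset.Ico N' y₀ ∪ Finset.Ico y₀ N := by
    rw [Finset.Ico_union_Ico_eq_Ico h1 h2]
  rw [h3, Finset.sum_union (Finset.Ico_disjoint_Ico_consecutive _ _ _)]

/-- **The side of a deep vertex.** -/
theorem deep {Side : ℤ × ℤ → ZMod 2} (H : Cond E ω t₀ T C y L d R b Rb) (hT : t₀ ≤ T)
    (hR : R ≤ R₁) (hdR : d + 1 ≤ R₁) (hbk : Rb + 1 < |b.1 - k|)
    (hx : ∀ v, Bv C v → ¬ inb (k, y₀) R₁ v) (hx1 : Bt C k y₀) (hx2 : Bt C k (y₀ - 1))
    (htip : ∀ t, t₀ ≤ t → t ≤ T → ¬ InB (k, y₀) (R₁ + 1) (E.p ω t))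
    (hfr : ∀ y', Bt C k y' → ∀ l ≤ t₀, E.p ω l ≠ (k, y', true))
    (hcol : ∀ y', Bv C (k, y') → cl (y (k, y')) = c)
    (hb : ∀ t, t₀ < t → t ≤ T → ((k < b.1 ∧ (ua (E.p ω t)).1 < k - R₁) ∨
      (b.1 < k ∧ k + R₁ < (ua (E.p ω t)).1)) → bet E ω C y L (InB b Rb) t = 0)
    (hS : ∀ a, cr E ω T a = Side (ua a) + Side (ub a))
    (hSd : ∀ v, Sd E ω T v → Side v = cl v) : Side (k, y₀) = c := by
  have hd := H.d0
  -- bounds of `C`
  obtain ⟨N', N, hN, h1, h2⟩ : ∃ N' N : ℤ, (∀ f ∈ C, N' < f.2 ∧ f.2 < N) ∧ N' ≤ y₀ ∧ y₀ ≤ N := by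
    obtain ⟨n, hn⟩ : ∃ n : ℕ, ∀ f ∈ C, |f.2| < n := by
      refine ⟨(∑ f ∈ C, f.2.natAbs) + 1, fun f hf => ?_⟩
      have h3 : f.2.natAbs ≤ ∑ f ∈ C, f.2.natAbs :=
        Finset.single_le_sum (f := fun f : ℤ × ℤ => f.2.natAbs) (fun _ _ => Nat.zero_le _) hf
      rw [Int.abs_eq_natAbs]
      exact_mod_cast Nat.lt_succ_of_le h3
    have h3 := hn _ hx1.1
    simp only at h3
    rw [abs_lt] at h3
    refine ⟨-n, n, fun f hf => abs_lt.1 (hn f hf), by omega, by omega⟩
  -- the two numbers
  set U : ℕ → ZMod 2 := fun t => psi C k (dft E ω C y L t) (Finset.Ico y₀ N) with hU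
  set D : ℕ → ZMod 2 := fun t => psi C k (dft E ω C y L t) (Finset.Ico N' y₀) with hD
  -- the ends of the stretches are far from `x₀`
  have hxv : ∀ y', Bv C (k, y') → R₁ < |y' - y₀| := by
    intro y' hv
    by_contra h3
    refine hx _ hv ⟨?_, not_lt.1 h3⟩
    rw [show ((k, y') : ℤ × ℤ).1 - ((k, y₀) : ℤ × ℤ).1 = 0 by simp, abs_zero]
    omega
  -- one step, the tip is far from the half line
  have stepU : ∀ t, t₀ ≤ t → t + 1 ≤ T →
      ¬ (|(ua (E.p ω (t + 1))).1 - k| ≤ R₁ ∧ y₀ ≤ (ua (E.p ω (t + 1))).2) → U (t + 1) = U t := by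
    intro t ht hT' hfar
    refine psi_congr fun y' hy' hB => ?_
    rw [Finset.mem_Ico] at hy'
    have key : ∀ y'', y₀ ≤ y'' → Bv C (k, y'') → ¬ InB (k, y'') d (E.p ω (t + 1)) := by
      intro y'' h3 hv h4
      have h5 := hxv y'' hv
      unfold InB InR at h4
      simp only at h4
      rw [abs_of_nonneg (by omega)] at h5
      refine hfar ⟨abs_le.2 (by omega), ?_⟩
      omega
    unfold dft
    rw [cr_succ, sv_succ (v := ua (k, y', true)) H.an (fun hv => key y' hy'.1 hv),
      sv_succ (v := ub (k, y', true)) H.an (fun hv => key (y' + 1) (by omega) hv)]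
    intro h3
    apply hfar
    rw [h3]
    simp only [ua, sub_self, abs_zero]
    omega
  have stepD : ∀ t, t₀ ≤ t → t + 1 ≤ T →
      ¬ (|(ua (E.p ω (t + 1))).1 - k| ≤ R₁ ∧ (ua (E.p ω (t + 1))).2 < y₀) → D (t + 1) = D t := by
    intro t ht hT' hfar
    refine psi_congr fun y' hy' hB => ?_
    rw [Finset.mem_Ico] at hy'
    have key : ∀ y'', y'' ≤ y₀ → Bv C (k, y'') → ¬ InB (k, y'') d (E.p ω (t + 1)) := by
      intro y'' h3 hv h4
      have h5 := hxv y'' hv
      unfold InB InR at h4
      simp only at h4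
      rw [abs_of_nonpos (by omega)] at h5
      refine hfar ⟨abs_le.2 (by omega), ?_⟩
      omega
    unfold dft
    rw [cr_succ, sv_succ (v := ua (k, y', true)) H.an (fun hv => key y' hy'.2.le hv),
      sv_succ (v := ub (k, y', true)) H.an (fun hv => key (y' + 1) (by omega) hv)]
    intro h3
    apply hfar
    rw [h3]
    simp only [ua, sub_self, abs_zero]
    omega
  -- far from the line
  have both : ∀ t, t₀ < t → t ≤ T → R₁ < |(ua (E.p ω t)).1 - k| → U t + D t = 0 := by
    intro t ht hT' hfar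
    have h3 := psi_split (C := C) (k := k) (dft E ω C y L t) h1 h2
    rw [lt_abs] at hfar
    rcases hfar with h4 | h4
    · rw [half_left H ht hT' hR (by omega) hbk hN (by omega)
        (fun h5 => hb t ht hT' (Or.inr ⟨h5, by omega⟩))] at h3
      exact h3.symm
    · rw [half_right H ht hT' hR (by omega) hbk hN (by omega)
        (fun h5 => hb t ht hT' (Or.inl ⟨h5, by omega⟩))] at h3
      exact h3.symm
  -- consecutive places of the tip
  have adj : ∀ t, (ua (E.p ω (t + 1))).1 ≤ (ua (E.p ω t)).1 + 1 ∧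
      (ua (E.p ω t)).1 ≤ (ua (E.p ω (t + 1))).1 + 1 ∧
      (ua (E.p ω (t + 1))).2 ≤ (ua (E.p ω t)).2 + 1 ∧
      (ua (E.p ω t)).2 ≤ (ua (E.p ω (t + 1))).2 + 1 := by
    intro t
    have h3 : E.p ω (t + 1) = nx (E.cf ω) (E.p ω t) := SixB.pth_succ _ _ _
    rw [h3]
    exact ua_nx _ _
  have htip' : ∀ t, t₀ ≤ t → t ≤ T → |(ua (E.p ω t)).1 - k| ≤ R₁ →
      R₁ + 1 < |(ua (E.p ω t)).2 - y₀| := by
    intro t ht hT' h3
    by_contra h4
    rw [not_lt] at h4
    apply htip t ht hT'
    rw [abs_le] at h3 h4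
    unfold InB InR
    simp only
    omega
  have aux : ∀ u c : ZMod 2, u + c = 0 → u = c := by decide
  have aux' : ∀ u c : ZMod 2, c + u = 0 → u = c := by decide
  -- the induction
  have main : ∀ t, t₀ ≤ t → t ≤ T →
      (¬ (|(ua (E.p ω t)).1 - k| ≤ R₁ ∧ y₀ ≤ (ua (E.p ω t)).2) → U t = c) ∧
      (¬ (|(ua (E.p ω t)).1 - k| ≤ R₁ ∧ (ua (E.p ω t)).2 < y₀) → D t = c) := by
    intro t ht
    induction t, ht using Nat.le_induction with
    | base =>
      intro _
      -- at the time `t₀`
      have h3 : ∀ I, psi C k (dft E ω C y L t₀) I =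
          psi C k (fun a => (fun v => sv E ω C y L t₀ v + c) (ua a) +
            (fun v => sv E ω C y L t₀ v + c) (ub a)) I := by
        intro I
        refine psi_congr fun y' _ hB => ?_
        have h4 : cr E ω t₀ (k, y', true) = 0 := by
          refine ind2_neg ?_
          rintro ⟨l, hl, h⟩
          exact hfr y' hB l hl h
        have aux : ∀ p q c : ZMod 2, 0 + (p + q) = p + c + (q + c) := by decide
        unfold dft
        rw [h4]
        exact aux _ _ _
      have h4 : ∀ y', Bv C (k, y') → (fun v => sv E ω C y L t₀ v + c) (k, y') = 0 := by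
        intro y' hv
        simp only
        rw [sv_zero H.an hv, hcol y' hv, z2_self]
      have hx0 : ¬ Bv C (k, y₀) := by
        intro h
        have := hxv _ h
        rw [sub_self, abs_zero] at this
        omega
      have h5 : (fun v => sv E ω C y L t₀ v + c) (k, y₀) = c := by
        simp only
        unfold sv
        rw [if_neg hx0, zero_add]
      constructor
      · intro _
        simp only [hU]
        rw [h3, psi_up (σ := fun v => sv E ω C y L t₀ v + c) h4 (fun f hf => (hN f hf).2) hx1]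
        exact h5
      · intro _
        simp only [hD]
        rw [h3, psi_down (σ := fun v => sv E ω C y L t₀ v + c) h4 (fun f hf => (hN f hf).1) hx2]
        exact h5
    | succ t ht ih =>
      intro hT'
      obtain ⟨i1, i2⟩ := ih (by omega)
      have hadj := adj t
      constructor
      · intro hfar
        by_cases h3 : |(ua (E.p ω t)).1 - k| ≤ R₁ ∧ y₀ ≤ (ua (E.p ω t)).2
        · -- the tip leaves the upper half line
          have h4 := htip' t ht (by omega) h3.1
          rw [abs_of_nonneg (by omega)] at h4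
          have h5 : R₁ < |(ua (E.p ω (t + 1))).1 - k| := by
            by_contra h6
            exact hfar ⟨not_lt.1 h6, by omega⟩
          have h6 := both (t + 1) (by omega) hT' h5
          have h7 : D (t + 1) = D t := stepD t ht hT' fun h8 => by omega
          have h8 : D t = c := i2 fun h9 => by omega
          rw [h7, h8] at h6
          exact aux _ _ h6
        · rw [stepU t ht hT' hfar]
          exact i1 h3
      · intro hfar
        by_cases h3 : |(ua (E.p ω t)).1 - k| ≤ R₁ ∧ (ua (E.p ω t)).2 < y₀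
        · have h4 := htip' t ht (by omega) h3.1
          rw [abs_of_neg (by omega)] at h4
          have h5 : R₁ < |(ua (E.p ω (t + 1))).1 - k| := by
            by_contra h6
            exact hfar ⟨not_lt.1 h6, by omega⟩
          have h6 := both (t + 1) (by omega) hT' h5
          have h7 : U (t + 1) = U t := stepU t ht hT' fun h8 => by omega
          have h8 : U t = c := i1 fun h9 => by omega
          rw [h7, h8] at h6
          exact aux' _ _ h6
        · rw [stepD t ht hT' hfar]
          exact i2 h3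
  -- the end
  obtain ⟨m1, m2⟩ := main T hT le_rfl
  have h3 : ∀ I, psi C k (dft E ω C y L T) I =
      psi C k (fun a => (fun v => Side v + sv E ω C y L T v) (ua a) +
        (fun v => Side v + sv E ω C y L T v) (ub a)) I := by
    intro I
    refine psi_congr fun y' _ _ => ?_
    unfold dft
    rw [hS]
    ring
  have h4 : ∀ y', Bv C (k, y') → (fun v => Side v + sv E ω C y L T v) (k, y') = 0 := by
    intro y' hv
    simp only
    have h5 : Wk Set.univ (cr E ω T) (k, y') (y (k, y')) ((L (k, y')).map (cr E ω T)).sum :=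
      (H.an.wk _ hv).wk fun _ _ => Set.mem_univ _
    have h6 : ∀ {v w : ℤ × ℤ} {s : ZMod 2}, Wk Set.univ (cr E ω T) v w s → s = Side v + Side w := by
      intro v w s h
      induction h with
      | nil x => rw [z2_self]
      | @cons x u z a s _ hj _ ih =>
        rw [ih, hS]
        have h7 : Side (ua a) + Side (ub a) = Side x + Side u := by
          rcases hj with ⟨rfl, rfl⟩ | ⟨rfl, rfl⟩
          · rfl
          · rw [add_comm]
        rw [h7]
        generalize Side x = p
        generalize Side u = q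
        generalize Side z = r
        revert p q r
        decide
    unfold sv
    rw [if_pos hv, h6 h5, hSd _ ((H.an.sd _ hv).mono hT)]
    generalize Side (k, y') = p
    generalize cl (y (k, y')) = q
    revert p q
    decide
  have hx0 : ¬ Bv C (k, y₀) := by
    intro h
    have := hxv _ h
    rw [sub_self, abs_zero] at this
    omega
  have h5 : (fun v => Side v + sv E ω C y L T v) (k, y₀) = Side (k, y₀) := by
    simp only
    unfold sv
    rw [if_neg hx0, add_zero]
  by_cases h6 : |(ua (E.p ω T)).1 - k| ≤ R₁ ∧ y₀ ≤ (ua (E.p ω T)).2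
  · have h7 := m2 fun h8 => by omega
    simp only [hD] at h7
    rw [h3, psi_down (σ := fun v => Side v + sv E ω C y L T v) h4 (fun f hf => (hN f hf).1) hx2] at h7
    exact h5.symm.trans h7
  · have h7 := m1 h6
    simp only [hU] at h7
    rw [h3, psi_up (σ := fun v => Side v + sv E ω C y L T v) h4 (fun f hf => (hN f hf).2) hx1] at h7
    exact h5.symm.trans h7

end Pool.Agent.SixB.Deep
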