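import Pool.Agent.Lib.SixB.S8DeepH
import Pool.Agent.Lib.SixB.S8ParSum

/-!
# Step 8: stored and dropped polygons are on the right side of the closed loop

`side_deep`: `C` is a finite set of faces, fresh at the time `s`; every vertex of its boundary is joined
to the wall of colour `lam` of the time `s` by a short path which is not crossed up to the time `s`. After
the time `s` gates near the boundary of `C` are near the tip or near the base; there is no passage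
`OneWall (1 - lam)` at the base. Then a face which is deep in `C` and far from the base is not visited
up to the time `T`, and its corners are on the side `lam` of the loop of the time `T`.
-/

set_option autoImplicit false

namespace Pool.Agent.SixB.Deep

open Finset Pool.Agent.Perc Pool.Agent.PercT Pool.Agent.Perc6 Pool.Agent.SixB
  Pool.Agent.SixB.NearCut Pool.Agent.SixB.Mv Pool.Agent.SixB.Par
open Pool.Agent.SixB.Near (AtE)

variable {E : Ex} {ω : Cfg} {lam : ℤ} {s t T : ℕ} {r R R₀ ρ ρ' ρ₁ : ℤ} {C : Finset (ℤ × ℤ)}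
  {x₀ b₀ f : ℤ × ℤ}

/-! ### The boundary -/

theorem bdU_of_bdE {a : UE} {f : ℤ × ℤ} (h : BdE C a f) : BdU (C : Set (ℤ × ℤ)) a := by
  rcases h with ⟨-, h1, h2⟩ | ⟨-, h1, h2⟩
  · exact ⟨⟨_, h1, isSide_fa a⟩, _, h2, isSide_fb a⟩
  · exact ⟨⟨_, h1, isSide_fb a⟩, _, h2, isSide_fa a⟩

theorem exists_bdE {a : UE} (h : BdU (C : Set (ℤ × ℤ)) a) : ∃ f, BdE C a f := by
  obtain ⟨⟨f, hf, hfa⟩, g, hg, hga⟩ := h
  have hf' : f ∈ C := hf
  have hg' : g ∉ C := hg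
  rcases isSide_iff.1 hfa with h1 | h1 <;> rcases isSide_iff.1 hga with h2 | h2
  · exact absurd (h1.trans h2.symm ▸ hf') hg'
  · exact ⟨f, Or.inl ⟨h1, h1 ▸ hf', h2 ▸ hg'⟩⟩
  · exact ⟨f, Or.inr ⟨h1, h1 ▸ hf', h2 ▸ hg'⟩⟩
  · exact absurd (h1.trans h2.symm ▸ hf') hg'

theorem bv_iff {v : ℤ × ℤ} : Bv C v ↔ v ∈ VB (C : Set (ℤ × ℤ)) := by
  constructor
  · intro h
    by_contra hno
    -- no side at `v` is a boundary side
    have h1 : ∀ a, AtE v a → (fa a ∈ C ↔ fb a ∈ C) := by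
      intro a ha
      by_contra h2
      refine hno ⟨a, ?_, ha⟩
      by_cases h3 : fa a ∈ C
      · exact ⟨⟨_, h3, isSide_fa a⟩, _, fun h4 => h2 ⟨fun _ => h4, fun _ => h3⟩, isSide_fb a⟩
      · have h4 : fb a ∈ C := by
          by_contra h4
          exact h2 ⟨fun h5 => absurd h5 h3, fun h5 => absurd h5 h4⟩
        exact ⟨⟨_, h4, isSide_fb a⟩, _, h3, isSide_fa a⟩
    obtain ⟨x, y⟩ := v
    have e1 := h1 (x, y, true) (Or.inl rfl)
    have e2 := h1 (x, y, false) (Or.inl rfl)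
    have e3 := h1 (x, y - 1, true) (Or.inr (by simp [ub]))
    have e4 := h1 (x - 1, y, false) (Or.inr (by simp [ub]))
    have f1 : (x, y) ∈ C ↔ (x - 1, y) ∈ C := by
      rcases fab_vert x y with ⟨g1, g2⟩ | ⟨g1, g2⟩ <;> rw [g1, g2] at e1
      · exact e1
      · exact e1.symm
    have f2 : (x, y) ∈ C ↔ (x, y - 1) ∈ C := by
      rcases fab_hor y x with ⟨g1, g2⟩ | ⟨g1, g2⟩ <;> rw [g1, g2] at e2
      · exact e2
      · exact e2.symm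
    have f3 : (x, y - 1) ∈ C ↔ (x - 1, y - 1) ∈ C := by
      rcases fab_vert x (y - 1) with ⟨g1, g2⟩ | ⟨g1, g2⟩ <;> rw [g1, g2] at e3
      · exact e3
      · exact e3.symm
    have key : ∀ g : ℤ × ℤ, (g.1 = x ∨ g.1 = x - 1) ∧ (g.2 = y ∨ g.2 = y - 1) →
        (g ∈ C ↔ (x, y) ∈ C) := by
      rintro ⟨p, q⟩ ⟨h2, h3⟩
      simp only at h2 h3
      rcases h2 with rfl | rfl <;> rcases h3 with rfl | rfl
      · rfl
      · exact f2.symm
      · exact f1.symm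
      · exact (f2.trans f3).symm
    obtain ⟨⟨g, hg, hg1⟩, g', hg', hg2⟩ := h
    exact hg' ((key g' hg2).2 ((key g hg1).1 hg))
  · rintro ⟨a, ha, hv⟩
    obtain ⟨f, hf⟩ := exists_bdE ha
    have h1 := bv_of_bdE hf
    rcases hv with rfl | rfl
    · exact h1.1
    · exact h1.2

/-- The faces near a deep vertex are in `C`. -/
theorem mem_of_deep (hf : f ∈ C) (hx : IsCor f x₀) (hR : 0 ≤ R₀)
    (hdeep : ∀ v ∈ VB (C : Set (ℤ × ℤ)), ¬ Nb2 x₀ v R₀) {g : ℤ × ℤ} (h1 : |g.1 - x₀.1| ≤ R₀)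
    (h2 : |g.2 - x₀.2| ≤ R₀) : g ∈ C := by
  have hv : ∀ v : ℤ × ℤ, |v.1 - x₀.1| ≤ R₀ → |v.2 - x₀.2| ≤ R₀ → ∀ g g' : ℤ × ℤ, g ∈ C →
      ((g.1 = v.1 ∨ g.1 = v.1 - 1) ∧ (g.2 = v.2 ∨ g.2 = v.2 - 1)) →
      ((g'.1 = v.1 ∨ g'.1 = v.1 - 1) ∧ (g'.2 = v.2 ∨ g'.2 = v.2 - 1)) → g' ∈ C := by
    intro v k1 k2 g g' hg h3 h4
    by_contra h5
    exact hdeep v (bv_iff.1 ⟨⟨g, hg, h3⟩, g', h5, h4⟩) ⟨k1, k2⟩
  have h0 : |x₀.1 - x₀.1| ≤ R₀ := by simpa using hR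
  have h0' : |x₀.2 - x₀.2| ≤ R₀ := by simpa using hR
  -- the row
  have row : ∀ n : ℕ, ∀ x : ℤ, (x - x₀.1).natAbs = n → |x - x₀.1| ≤ R₀ → (x, x₀.2) ∈ C := by
    intro n
    induction n with
    | zero =>
      intro x hx0 _
      have : x = x₀.1 := by omega
      subst this
      unfold IsCor at hx
      exact hv x₀ h0 h0' f _ hf (by omega) ⟨Or.inl rfl, Or.inl rfl⟩
    | succ n ih =>
      intro x hn hx
      rw [abs_le] at hx
      rcases le_or_gt x x₀.1 with h3 | h3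
      · have h4 := ih (x + 1) (by omega) (abs_le.2 (by omega))
        exact hv (x + 1, x₀.2) (abs_le.2 (by constructor <;> simp only <;> omega)) h0' (x + 1, x₀.2) _ h4
          ⟨Or.inl rfl, Or.inl rfl⟩ ⟨Or.inr (by simp), Or.inl rfl⟩
      · have h4 := ih (x - 1) (by omega) (abs_le.2 (by omega))
        exact hv (x, x₀.2) (abs_le.2 (by constructor <;> simp only <;> omega)) h0' (x - 1, x₀.2) _ h4
          ⟨Or.inr rfl, Or.inl rfl⟩ ⟨Or.inl rfl, Or.inl rfl⟩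
  have col : ∀ n : ℕ, ∀ y : ℤ, (y - x₀.2).natAbs = n → |y - x₀.2| ≤ R₀ → ∀ x, |x - x₀.1| ≤ R₀ →
      (x, y) ∈ C := by
    intro n
    induction n with
    | zero =>
      intro y hy0 _ x hx
      have : y = x₀.2 := by omega
      subst this
      exact row _ x rfl hx
    | succ n ih =>
      intro y hn hy x hx
      rw [abs_le] at hy
      rcases le_or_gt y x₀.2 with h3 | h3
      · have h4 := ih (y + 1) (by omega) (abs_le.2 (by omega)) x hx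
        exact hv (x, y + 1) hx (abs_le.2 (by constructor <;> simp only <;> omega)) (x, y + 1) _ h4
          ⟨Or.inl rfl, Or.inl rfl⟩ ⟨Or.inl rfl, Or.inr (by simp)⟩
      · have h4 := ih (y - 1) (by omega) (abs_le.2 (by omega)) x hx
        exact hv (x, y) hx (abs_le.2 (by constructor <;> simp only <;> omega)) (x, y - 1) _ h4
          ⟨Or.inl rfl, Or.inr rfl⟩ ⟨Or.inl rfl, Or.inl rfl⟩
  exact col _ g.2 rfl h2 g.1 h1

/-! ### The two defects -/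

variable {Y : ℤ × ℤ → ℤ × ℤ} {Lh : ℤ × ℤ → List UE}

theorem isWk_of_wl {Eg : Set UE} {x y : ℤ × ℤ} {L : List UE} (h : Wl Eg x y L) : IsWk L x y := by
  induction h with
  | nil x => exact rfl
  | cons ha hj _ ih => exact ⟨_, hj, ih⟩

theorem anch_of_hop (H : Hop E ω lam s r (VB (C : Set (ℤ × ℤ))) Y Lh) (hlam : lam = 0 ∨ lam = 1) :
    Anch E ω s r C Y Lh where
  wk := fun v hv => isWk_of_wl (H.wl v (bv_iff.1 hv))
  box := fun v hv a ha => ((H.wl v (bv_iff.1 hv)).mem a ha).1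
  unc := fun v hv a ha => ((H.wl v (bv_iff.1 hv)).mem a ha).2
  sd := fun v hv => ⟨lam, hlam, H.sid v (bv_iff.1 hv)⟩

theorem cl_hop (H : Hop E ω lam s r (VB (C : Set (ℤ × ℤ))) Y Lh) (hlam : lam = 0 ∨ lam = 1)
    {v : ℤ × ℤ} (hv : v ∈ VB (C : Set (ℤ × ℤ))) : Par.cl (Y v) = ind2 (lam = 1) := by
  unfold Par.cl
  rw [sid_par hlam (H.sid v hv)]

theorem dft_eq (H : Hop E ω lam s r (VB (C : Set (ℤ × ℤ))) Y Lh) (hlam : lam = 0 ∨ lam = 1)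
    {a : UE} (ha : a ∈ bdF C) : dft E ω C Y Lh t a = dfc E ω Lh t a := by
  have h1 := mem_VB ha
  unfold dft sv dfc
  rw [if_pos (bv_iff.2 h1.1), if_pos (bv_iff.2 h1.2), cl_hop H hlam h1.1, cl_hop H hlam h1.2]
  have aux : ∀ a b c d : ZMod 2, a + (b + d + (c + d)) = b + a + c := by decide
  exact aux _ _ _ _

open Classical in
theorem bet_eq_sum (H : Hop E ω lam s r (VB (C : Set (ℤ × ℤ))) Y Lh) (hlam : lam = 0 ∨ lam = 1) :
    bet E ω C Y Lh (InB b₀ ρ₁) t =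
      ∑ a ∈ (bdF C).filter (fun a => Nb2 b₀ (ua a) ρ₁), dfc E ω Lh t a := by
  have h1 : ∀ g : UE → ZMod 2, ∀ f, sq g f = fsum g f := by
    intro g f
    unfold sq fsum
    ring
  unfold bet
  simp only [h1]
  rw [← sum_bdF, Finset.sum_filter]
  refine Finset.sum_congr rfl fun a ha => ?_
  obtain ⟨f, hf⟩ := exists_bdE (mem_bdF.1 ha)
  have h2 : BdX C (InB b₀ ρ₁) a ↔ Nb2 b₀ (ua a) ρ₁ := by
    unfold BdX Nb2 InB InR
    rw [abs_le, abs_le]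
    constructor
    · rintro ⟨-, h3⟩
      omega
    · intro h3
      exact ⟨⟨f, hf⟩, by omega⟩
  by_cases h3 : Nb2 b₀ (ua a) ρ₁
  · rw [if_pos h3, ind2_pos (h2.2 h3), one_mul, dft_eq H hlam ha]
  · rw [if_neg h3, ind2_neg fun h4 => h3 (h2.1 h4), zero_mul]

/-! ### The strand is not deep in `C` -/

open Classical in
theorem tip_far (hb : fb (E.e ω) ∉ E.U ω) (hn : Nb (E.cf ω) (E.e ω) T)
    (hCF : (C : Set (ℤ × ℤ)) ⊆ E.Fr ω s) (hsC : fa (E.p ω s) ∉ C) (hlam : lam = 0 ∨ lam = 1)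
    (hr : 0 ≤ r) (H : Hop E ω lam s r (VB (C : Set (ℤ × ℤ))) Y Lh)
    (gt : ∀ l, s < l → l ≤ T → ∀ a ∈ bdF C, ¬ Nb2 b₀ (ua a) ρ₁ → E.Gate ω l (ua a) (r + 1) →
      Nb2 (ua (E.p ω l)) (ua a) ρ')
    (hρ' : 0 ≤ ρ')
    (bz : ∀ t, s < t → t ≤ T → ¬ InB b₀ R (E.p ω t) →
      ∑ a ∈ (bdF C).filter (fun a => Nb2 b₀ (ua a) ρ₁), dfc E ω Lh t a = 0)
    (hf : f ∈ C) (hx : IsCor f x₀) (hdeep : ∀ v ∈ VB (C : Set (ℤ × ℤ)), ¬ Nb2 x₀ v R₀)
    (hR₀ : 2 * ρ' + 3 ≤ R₀) (hxb : ¬ Nb2 b₀ x₀ (R + ρ' + 2)) (hst : s ≤ t) (htT : t ≤ T) :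
    ¬ InB x₀ (ρ' + 1) (E.p ω t) := by
  intro hin
  have h1 := fa_le (E.p ω t)
  have h2 := fa_le2 (E.p ω t)
  have hin' := hin
  unfold InB InR at hin'
  have hC : fa (E.p ω t) ∈ C :=
    mem_of_deep hf hx (by omega) hdeep (abs_le.2 (by omega)) (abs_le.2 (by omega))
  rcases Nat.lt_or_eq_of_le hst with hlt | rfl
  swap
  · exact hsC hC
  have h3 := sum_dfc (E := E) (ω := ω) C Lh (hn.mono htT)
  have hbC : fb (E.e ω) ∉ C := fun h => hb (hCF h).1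
  rw [ind2_neg hbC, ind2_pos hC, zero_add,
    ← Finset.sum_filter_add_sum_filter_not (bdF C) (fun a => Nb2 b₀ (ua a) ρ₁),
    bz t hlt htT ?_, zero_add] at h3
  · obtain ⟨a, ha, ha1⟩ := Finset.exists_ne_zero_of_sum_ne_zero (h3.symm ▸ one_ne_zero)
    have ha2 := (Finset.mem_filter.1 ha).2
    have ha3 := (Finset.mem_filter.1 ha).1
    have hV := mem_VB ha3
    have hu := uncr_bd hb hCF hsC ha3
    have hnear := gt t hlt htT a ha3 ha2 (dfc_gate H hr hV.1 hV.2 hu hlam hst ha1)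
    refine hdeep _ hV.1 ?_
    unfold Nb2 at hnear ⊢
    rw [abs_le, abs_le] at hnear ⊢
    omega
  · intro h4
    refine hxb ?_
    unfold InB InR at h4
    unfold Nb2
    rw [abs_le, abs_le]
    omega

/-! ### The theorem -/

open Classical in
/-- The theorem with a hypothesis on the sums near the base. -/
theorem side_deep' {Side : ℤ × ℤ → ZMod 2} (hb : fb (E.e ω) ∉ E.U ω)
    (hn : Nb (E.cf ω) (E.e ω) T) (hsT : s ≤ T) (hCF : (C : Set (ℤ × ℤ)) ⊆ E.Fr ω s)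
    (hsC : fa (E.p ω s) ∉ C) (hlam : lam = 0 ∨ lam = 1) (hr : 0 ≤ r) (hrρ : r + 1 ≤ ρ')
    (H : Hop E ω lam s r (VB (C : Set (ℤ × ℤ))) Y Lh)
    (gt : ∀ l, s < l → l ≤ T → ∀ a ∈ bdF C, ¬ Nb2 b₀ (ua a) ρ₁ → E.Gate ω l (ua a) (r + 1) →
      Nb2 (ua (E.p ω l)) (ua a) ρ')
    (hR : ρ₁ + 2 ≤ R)
    (bz : ∀ t, s < t → t ≤ T → ¬ InB b₀ R (E.p ω t) →
      ∑ a ∈ (bdF C).filter (fun a => Nb2 b₀ (ua a) ρ₁), dfc E ω Lh t a = 0)
    (hf : f ∈ C) (hx : IsCor f x₀) (hdeep : ∀ v ∈ VB (C : Set (ℤ × ℤ)), ¬ Nb2 x₀ v R₀)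
    (hR₀ : 2 * ρ' + 3 ≤ R₀) (hxb : ¬ Nb2 b₀ x₀ (R + ρ' + 2))
    (hS : ∀ a, cr E ω T a = Side (ua a) + Side (ub a))
    (hSd : ∀ c v, (c = 0 ∨ c = 1) → E.Sid c ω T v → Side v = ind2 (c = 1)) :
    (∀ l ≤ T, fa (E.p ω l) ≠ f) ∧ Side x₀ = ind2 (lam = 1) := by
  have hfar : ∀ t, s ≤ t → t ≤ T → ¬ InB x₀ (ρ' + 1) (E.p ω t) := fun t h1 h2 =>
    tip_far hb hn hCF hsC hlam hr H gt (by omega) bz hf hx hdeep hR₀ hxb h1 h2
  constructor
  · intro l hl h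
    rcases Nat.lt_or_ge l s with h1 | h1
    · exact NearCut.fa_not_fr h1 (h ▸ hCF hf)
    · refine hfar l h1 hl ?_
      have h2 := fa_le (E.p ω l)
      have h3 := fa_le2 (E.p ω l)
      rw [h] at h2 h3
      unfold IsCor at hx
      unfold InB InR
      omega
  have hC : ∀ g : ℤ × ℤ, |g.1 - x₀.1| ≤ R₀ → |g.2 - x₀.2| ≤ R₀ → g ∈ C := fun g h1 h2 =>
    mem_of_deep hf hx (by omega) hdeep h1 h2
  obtain ⟨k, y₀⟩ := x₀
  have hcond : Cond E ω s T C Y Lh r ρ' b₀ ρ₁ := by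
    refine ⟨anch_of_hop H hlam, hr, hn, fun h => hb (hCF h).1, ?_⟩
    intro t ht htT a g ha hvb hvt hg
    have h1 := gt t ht htT a (mem_bdF.2 (bdU_of_bdE ha)) hvb hg
    refine hvt ?_
    unfold Nb2 at h1
    rw [abs_le, abs_le] at h1
    unfold InB InR
    omega
  have hxR : ∀ v, Bv C v → ¬ inb (k, y₀) ρ' v := by
    intro v hv h1
    refine hdeep v (bv_iff.1 hv) ⟨h1.1.trans (by omega), h1.2.trans (by omega)⟩
  have hC' : ∀ p q : ℤ, |p - k| ≤ 1 → |q - y₀| ≤ 1 → (p, q) ∈ C := fun p q h1 h2 =>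
    hC (p, q) (h1.trans (by omega)) (h2.trans (by omega))
  have hSd' : ∀ v, Sd E ω T v → Side v = Par.cl v := by
    rintro v ⟨c, hc, hv⟩
    rw [hSd c v hc hv]
    unfold Par.cl
    rw [sid_par hc hv]
  have hcol : ∀ v, Bv C v → Par.cl (Y v) = ind2 (lam = 1) := fun v hv => cl_hop H hlam (bv_iff.1 hv)
  have hbet : ∀ t, s < t → t ≤ T → ¬ InB b₀ R (E.p ω t) → bet E ω C Y Lh (InB b₀ ρ₁) t = 0 := by
    intro t ht htT h1
    rw [bet_eq_sum H hlam]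
    exact bz t ht htT h1
  have hxb' : R + ρ' + 2 < |k - b₀.1| ∨ R + ρ' + 2 < |y₀ - b₀.2| := by
    by_contra h1
    rw [not_or, not_lt, not_lt] at h1
    exact hxb h1
  rcases hxb' with h1 | h1
  · -- the vertical line
    refine deep (R₁ := ρ') hcond hsT le_rfl hrρ ?_ hxR ⟨hC' _ _ ?_ ?_, hC' _ _ ?_ ?_⟩
      ⟨hC' _ _ ?_ ?_, hC' _ _ ?_ ?_⟩ hfar ?_ (fun y' hv => hcol _ hv) ?_ hS hSd'
    · rw [abs_sub_comm] at h1
      omega
    any_goals simp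
    · intro y' hB l hl h2
      refine uncr_bdF (a := (k, y', true)) hb hCF hsC hB.1 ?_ l hl h2
      rcases fab_vert k y' with ⟨g1, -⟩ | ⟨-, g1⟩
      · rw [← g1]; exact isSide_fa _
      · rw [← g1]; exact isSide_fb _
    · intro t ht htT h2
      refine hbet t ht htT fun h3 => ?_
      unfold InB InR at h3
      rw [lt_abs] at h1
      rcases h2 with h2 | h2 <;> rcases h1 with h1 | h1 <;> omega
  · refine deepH (R₁ := ρ') (k := y₀) (y₀ := k) hcond hsT le_rfl hrρ ?_ hxR ⟨hC' _ _ ?_ ?_, hC' _ _ ?_ ?_⟩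
      ⟨hC' _ _ ?_ ?_, hC' _ _ ?_ ?_⟩ hfar ?_ (fun y' hv => hcol _ hv) ?_ hS hSd'
    · rw [abs_sub_comm] at h1
      omega
    any_goals simp
    · intro y' hB l hl h2
      refine uncr_bdF (a := (y', y₀, false)) hb hCF hsC hB.1 ?_ l hl h2
      rcases fab_hor y₀ y' with ⟨g1, -⟩ | ⟨-, g1⟩
      · rw [← g1]; exact isSide_fa _
      · rw [← g1]; exact isSide_fb _
    · intro t ht htT h2
      refine hbet t ht htT fun h3 => ?_
      unfold InB InR at h3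
      rw [lt_abs] at h1
      rcases h2 with h2 | h2 <;> rcases h1 with h1 | h1 <;> omega

/-- **The side of the deep faces of a polygon.** `lam = 1`: the faces are kept, `lam = 0`: they are
removed. -/
theorem side_deep {Side : ℤ × ℤ → ZMod 2} (hW : E.Wll ω) (hb : fb (E.e ω) ∉ E.U ω)
    (hn : Nb (E.cf ω) (E.e ω) T) (hsT : s ≤ T) (hCF : (C : Set (ℤ × ℤ)) ⊆ E.Fr ω s)
    (hsC : fa (E.p ω s) ∉ C) (hlam : lam = 0 ∨ lam = 1) (hr : 0 ≤ r) (hrρ : r + 1 ≤ ρ')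
    (anc : ∀ v ∈ VB (C : Set (ℤ × ℤ)), ∃ y, E.Sid lam ω s y ∧
      Pth {a | InB v r a ∧ ∀ l ≤ s, E.p ω l ≠ a} v y)
    (hρ : ρ₁ + r + 2 ≤ ρ) (hρR : ρ ≤ R)
    (gs : ∀ a ∈ bdF C, ¬ Nb2 b₀ (ua a) ρ₁ → Nb2 b₀ (ua a) (R + ρ') → ¬ E.Gate ω s (ua a) (r + 1))
    (gt : ∀ l, s < l → l ≤ T → ∀ a ∈ bdF C, ¬ Nb2 b₀ (ua a) ρ₁ → E.Gate ω l (ua a) (r + 1) →
      Nb2 (ua (E.p ω l)) (ua a) ρ')
    (hO : ¬ E.OneWall (1 - lam) ω s b₀ ρ R)
    (hf : f ∈ C) (hx : IsCor f x₀) (hdeep : ∀ v ∈ VB (C : Set (ℤ × ℤ)), ¬ Nb2 x₀ v R₀)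
    (hR₀ : 2 * ρ' + 3 ≤ R₀) (hxb : ¬ Nb2 b₀ x₀ (R + ρ' + 2))
    (hS : ∀ a, cr E ω T a = Side (ua a) + Side (ub a))
    (hSd : ∀ c v, (c = 0 ∨ c = 1) → E.Sid c ω T v → Side v = ind2 (c = 1)) :
    (∀ l ≤ T, fa (E.p ω l) ≠ f) ∧ Side x₀ = ind2 (lam = 1) := by
  obtain ⟨Y, Lh, H⟩ := exists_hop anc
  refine side_deep' hb hn hsT hCF hsC hlam hr hrρ H gt (by omega) ?_ hf hx hdeep hR₀ hxb hS hSd
  intro t ht htT hRt
  exact base_zero hW hb (hn.mono htT) hCF hsC hlam hr hρ H gs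
    (fun l h1 h2 => gt l h1 (h2.trans htT)) hRt hO

end Pool.Agent.SixB.Deep
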