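import Pool.Agent.Lib.SixB.S8DeepB

/-!
# Step 8: the side of a deep face of a polygon, with a horizontal line

The same as `S8Deep`, `S8DeepB` with the roles of the two coordinates exchanged.
-/

set_option autoImplicit false

namespace Pool.Agent.SixB.Deep

open Finset Pool.Agent.Perc Pool.Agent.PercT Pool.Agent.Perc6 Pool.Agent.SixB
  Pool.Agent.SixB.NearCut Pool.Agent.SixB.Mv Pool.Agent.SixB.Par

variable {E : Ex} {ω : Cfg} {t t₀ T : ℕ} {C : Finset (ℤ × ℤ)} {k y₀ N N' : ℤ} {g : UE → ZMod 2}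
  {y : ℤ × ℤ → ℤ × ℤ} {L : ℤ × ℤ → List UE} {d R R₁ Rb : ℤ} {b : ℤ × ℤ} {c : ZMod 2}

/-- The faces on both sides of the edge with number `y` of the horizontal line `k` are in `C`. -/
def BtH (C : Finset (ℤ × ℤ)) (k y : ℤ) : Prop := (y, k) ∈ C ∧ (y, k - 1) ∈ C

/-- The sum over a part of the horizontal line. -/
noncomputable def psiH (C : Finset (ℤ × ℤ)) (k : ℤ) (g : UE → ZMod 2) (I : Finset ℤ) : ZMod 2 :=
  ∑ y ∈ I, ind2 (BtH C k y) * g (y, k, false)

theorem fab_hor (k y : ℤ) : (fa (y, k, false) = (y, k) ∧ fb (y, k, false) = (y, k - 1)) ∨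
    (fa (y, k, false) = (y, k - 1) ∧ fb (y, k, false) = (y, k)) := by
  unfold fa fb
  by_cases h : par (ua (y, k, false)) = 1
  · left; simp [h]
  · right; simp [h]


/-- **The sum over a part of `C`** which is separated from the rest by the horizontal line `k`. -/
theorem sum_halfH {S : Finset (ℤ × ℤ)} {I : Finset ℤ} (hS : S ⊆ C)
    (hline : ∀ a, fa a ∈ C → fb a ∈ C → ¬ (fa a ∈ S ↔ fb a ∈ S) → ∃ y, a = (y, k, false))
    (hside : ∀ y, BtH C k y → ((y, k) ∈ S ↔ (y, k - 1) ∉ S)) (hI : ∀ f ∈ C, f.1 ∈ I)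
    (h0 : ∀ a f, BdE C a f → f ∈ S → g a = 0) :
    ∑ f ∈ S, sq g f = psiH C k g I := by
  classical
  set J : Finset UE := I.image fun y => (y, k, false) with hJ
  rw [sum_sq S g (A := eds S ∪ J) Finset.subset_union_left]
  have h1 : ∀ a ∈ eds S ∪ J, a ∉ J → g a * (ind2 (fa a ∈ S) + ind2 (fb a ∈ S)) = 0 := by
    intro a _ ha
    by_cases h2 : fa a ∈ S ↔ fb a ∈ S
    · rw [ind2_congr h2, z2_self, mul_zero]
    · by_cases h3 : fa a ∈ C
      · by_cases h4 : fb a ∈ C
        · obtain ⟨y, rfl⟩ := hline a h3 h4 h2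
          exfalso
          apply ha
          rw [hJ, Finset.mem_image]
          refine ⟨y, ?_, rfl⟩
          rcases fab_hor k y with ⟨e1, -⟩ | ⟨e1, -⟩
          · rw [e1] at h3; exact hI _ h3
          · rw [e1] at h3; exact hI _ h3
        · have h5 : fa a ∈ S := by
            by_contra h5
            exact h2 ⟨fun h => absurd h h5, fun h => absurd (hS h) h4⟩
          rw [h0 a _ (Or.inl ⟨rfl, h3, h4⟩) h5, zero_mul]
      · have h5 : fb a ∈ S := by
          by_contra h5
          exact h2 ⟨fun h => absurd (hS h) h3, fun h => absurd h h5⟩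
        rw [h0 a _ (Or.inr ⟨rfl, hS h5, h3⟩) h5, zero_mul]
  rw [← Finset.sum_subset (Finset.subset_union_right : J ⊆ eds S ∪ J) h1, hJ,
    Finset.sum_image fun y _ y' _ h => by simpa using h]
  unfold psiH
  refine Finset.sum_congr rfl fun y _ => ?_
  have hf : ind2 (fa (y, k, false) ∈ S) + ind2 (fb (y, k, false) ∈ S) =
      ind2 ((y, k) ∈ S) + ind2 ((y, k - 1) ∈ S) := by
    rcases fab_hor k y with ⟨e1, e2⟩ | ⟨e1, e2⟩
    · rw [e1, e2]
    · rw [e1, e2, add_comm]
  have hbd : ∀ f ∈ S, (f = (y, k) ∧ (y, k - 1) ∉ C) ∨ (f = (y, k - 1) ∧ (y, k) ∉ C) →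
      g (y, k, false) = 0 := by
    intro f hf h
    refine h0 _ f ?_ hf
    unfold BdE
    rcases fab_hor k y with ⟨e1, e2⟩ | ⟨e1, e2⟩ <;> rw [e1, e2] <;> rcases h with ⟨rfl, h⟩ | ⟨rfl, h⟩
    · exact Or.inl ⟨rfl, hS hf, h⟩
    · exact Or.inr ⟨rfl, hS hf, h⟩
    · exact Or.inr ⟨rfl, hS hf, h⟩
    · exact Or.inl ⟨rfl, hS hf, h⟩
  rw [hf]
  by_cases hB : BtH C k y
  · rw [ind2_pos hB, one_mul]
    have h2 := hside y hB
    by_cases h3 : (y, k) ∈ S
    · rw [ind2_pos h3, ind2_neg (h2.1 h3), add_zero, mul_one]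
    · have h4 : (y, k - 1) ∈ S := by
        by_contra h4
        exact h3 (h2.2 h4)
      rw [ind2_neg h3, ind2_pos h4, zero_add, mul_one]
  · rw [ind2_neg hB, zero_mul]
    by_cases h3 : (y, k) ∈ S
    · rw [hbd _ h3 (Or.inl ⟨rfl, fun h4 => hB ⟨hS h3, h4⟩⟩), zero_mul]
    · by_cases h4 : (y, k - 1) ∈ S
      · rw [hbd _ h4 (Or.inr ⟨rfl, fun h5 => hB ⟨h5, hS h4⟩⟩), zero_mul]
      · rw [ind2_neg h3, ind2_neg h4, add_zero, mul_zero]


theorem not_bd_of_btH {y : ℤ} (h : BtH C k y) (f : ℤ × ℤ) : ¬ BdE C (y, k, false) f := by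
  unfold BdE
  rcases fab_hor k y with ⟨e1, e2⟩ | ⟨e1, e2⟩ <;> rw [e1, e2] <;>
    rintro (⟨-, -, h1⟩ | ⟨-, -, h1⟩)
  exacts [h1 h.2, h1 h.1, h1 h.1, h1 h.2]

/-- The sum over a part of `C` with exceptional boundary edges. -/
theorem sum_halfHX {S : Finset (ℤ × ℤ)} {I : Finset ℤ} {X : UE → Prop} (hS : S ⊆ C)
    (hline : ∀ a, fa a ∈ C → fb a ∈ C → ¬ (fa a ∈ S ↔ fb a ∈ S) → ∃ y, a = (y, k, false))
    (hside : ∀ y, BtH C k y → ((y, k) ∈ S ↔ (y, k - 1) ∉ S)) (hI : ∀ f ∈ C, f.1 ∈ I)
    (h0 : ∀ a f, BdE C a f → f ∈ S → ¬ X a → g a = 0) :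
    ∑ f ∈ S, sq g f = psiH C k g I + ∑ f ∈ S, sq (fun a => ind2 (BdX C X a) * g a) f := by
  have h1 := sum_halfH (g := fun a => g a + ind2 (BdX C X a) * g a) hS hline hside hI (by
    intro a f ha hf
    by_cases hX : X a
    · rw [ind2_pos ⟨⟨f, ha⟩, hX⟩, one_mul, z2_self]
    · rw [h0 a f ha hf hX, mul_zero, add_zero])
  simp only [sq_add, Finset.sum_add_distrib] at h1
  have h2 : psiH C k (fun a => g a + ind2 (BdX C X a) * g a) I = psiH C k g I := by
    unfold psiH
    refine Finset.sum_congr rfl fun y _ => ?_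
    by_cases hB : BtH C k y
    · have h3 : ¬ BdX C X (y, k, false) := fun h => h.1.elim fun f hf => not_bd_of_btH hB f hf
      simp only [ind2_neg h3, zero_mul, add_zero]
    · rw [ind2_neg hB, zero_mul, zero_mul]
  rw [h2] at h1
  rw [← h1, add_assoc, z2_self, add_zero]


theorem btH_iff_of_not_bv {y : ℤ} (h : ¬ Bv C (y, k)) : BtH C k y ↔ BtH C k (y - 1) := by
  unfold Bv at h
  unfold BtH
  constructor
  · rintro ⟨h1, h2⟩
    constructor
    · by_contra h3
      exact h ⟨⟨_, h1, Or.inl rfl, Or.inl rfl⟩, _, h3, Or.inr rfl, Or.inl rfl⟩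
    · by_contra h3
      exact h ⟨⟨_, h1, Or.inl rfl, Or.inl rfl⟩, _, h3, Or.inr rfl, Or.inr rfl⟩
  · rintro ⟨h1, h2⟩
    constructor
    · by_contra h3
      exact h ⟨⟨_, h1, Or.inr rfl, Or.inl rfl⟩, _, h3, Or.inl rfl, Or.inl rfl⟩
    · by_contra h3
      exact h ⟨⟨_, h1, Or.inr rfl, Or.inl rfl⟩, _, h3, Or.inl rfl, Or.inr rfl⟩

/-- **The sum of a potential over a half line, to the right.** -/
theorem psiH_up {σ : ℤ × ℤ → ZMod 2} {N : ℤ} (h0 : ∀ y, Bv C (y, k) → σ (y, k) = 0)
    (hN : ∀ f ∈ C, f.1 < N) (hx : BtH C k y₀) :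
    psiH C k (fun a => σ (ua a) + σ (ub a)) (Finset.Ico y₀ N) = σ (y₀, k) := by
  have hN' : ¬ BtH C k N := fun h => absurd (hN _ h.1) (by simp)
  have hle : y₀ ≤ N := (hN _ hx.1).le
  obtain ⟨n, hn⟩ : ∃ n : ℕ, N = y₀ + n := ⟨(N - y₀).toNat, by omega⟩
  -- the partial sums
  have key : ∀ n : ℕ, psiH C k (fun a => σ (ua a) + σ (ub a)) (Finset.Ico y₀ (y₀ + n)) =
      ind2 (BtH C k y₀) * σ (y₀, k) + ind2 (BtH C k (y₀ + n)) * σ (y₀ + n, k) := by
    intro n
    induction n with
    | zero =>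
      unfold psiH
      simp [z2_self]
    | succ n ih =>
      have h1 : Finset.Ico y₀ (y₀ + ((n + 1 : ℕ) : ℤ)) =
          insert (y₀ + (n : ℤ)) (Finset.Ico y₀ (y₀ + (n : ℤ))) := by
        ext y
        simp only [Finset.mem_Ico, Finset.mem_insert]
        push_cast
        omega
      unfold psiH at ih ⊢
      rw [h1, Finset.sum_insert (by simp), ih]
      have h2 : ind2 (BtH C k (y₀ + n)) * σ (y₀ + n + 1, k) =
          ind2 (BtH C k (y₀ + n + 1)) * σ (y₀ + n + 1, k) := by
        by_cases hb : Bv C (y₀ + n + 1, k)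
        · rw [h0 _ hb, mul_zero, mul_zero]
        · have h3 := btH_iff_of_not_bv hb
          rw [show y₀ + (n : ℤ) + 1 - 1 = y₀ + n by ring] at h3
          rw [ind2_congr h3]
      simp only [ua, ub, Bool.false_eq_true, if_false]
      rw [mul_add, h2]
      push_cast
      rw [show y₀ + ((n : ℤ) + 1) = y₀ + n + 1 by ring]
      generalize ind2 (BtH C k (y₀ + n)) * σ (y₀ + n, k) = a
      generalize ind2 (BtH C k (y₀ + n + 1)) * σ (y₀ + n + 1, k) = b
      generalize ind2 (BtH C k y₀) * σ (y₀, k) = c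
      revert a b c
      decide
  rw [hn, key n, ← hn, ind2_pos hx, ind2_neg hN', one_mul, zero_mul, add_zero]

/-- **The sum of a potential over a half line, to the left.** -/
theorem psiH_down {σ : ℤ × ℤ → ZMod 2} {N : ℤ} (h0 : ∀ y, Bv C (y, k) → σ (y, k) = 0)
    (hN : ∀ f ∈ C, N < f.1) (hx : BtH C k (y₀ - 1)) :
    psiH C k (fun a => σ (ua a) + σ (ub a)) (Finset.Ico N y₀) = σ (y₀, k) := by
  have hN' : ¬ BtH C k (N - 1) := fun h => absurd (hN _ h.1) (by simp)
  have hle : N ≤ y₀ := by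
    have := hN _ hx.1
    simp only at this
    omega
  obtain ⟨n, hn⟩ : ∃ n : ℕ, y₀ = N + n := ⟨(y₀ - N).toNat, by omega⟩
  have key : ∀ n : ℕ, psiH C k (fun a => σ (ua a) + σ (ub a)) (Finset.Ico N (N + n)) =
      ind2 (BtH C k (N - 1)) * σ (N, k) + ind2 (BtH C k (N + n - 1)) * σ (N + n, k) := by
    intro n
    induction n with
    | zero =>
      unfold psiH
      simp [z2_self]
    | succ n ih =>
      have h1 : Finset.Ico N (N + ((n + 1 : ℕ) : ℤ)) =
          insert (N + (n : ℤ)) (Finset.Ico N (N + (n : ℤ))) := by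
        ext y
        simp only [Finset.mem_Ico, Finset.mem_insert]
        push_cast
        omega
      unfold psiH at ih ⊢
      rw [h1, Finset.sum_insert (by simp), ih]
      have h2 : ind2 (BtH C k (N + n)) * σ (N + n, k) =
          ind2 (BtH C k (N + n - 1)) * σ (N + n, k) := by
        by_cases hb : Bv C (N + n, k)
        · rw [h0 _ hb, mul_zero, mul_zero]
        · rw [ind2_congr (btH_iff_of_not_bv hb)]
      simp only [ua, ub, Bool.false_eq_true, if_false]
      rw [mul_add, h2]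
      push_cast
      rw [show N + ((n : ℤ) + 1) - 1 = N + n by ring, show N + ((n : ℤ) + 1) = N + n + 1 by ring]
      generalize ind2 (BtH C k (N + n - 1)) * σ (N + n, k) = a
      generalize ind2 (BtH C k (N + n)) * σ (N + n + 1, k) = b
      generalize ind2 (BtH C k (N - 1)) * σ (N, k) = c
      revert a b c
      decide
  have h3 := key n
  rw [← hn] at h3
  rw [h3, ind2_pos hx, ind2_neg hN', one_mul, zero_mul, zero_add]

theorem psiH_congr {g' : UE → ZMod 2} {I : Finset ℤ}
    (h : ∀ y ∈ I, BtH C k y → g (y, k, false) = g' (y, k, false)) : psiH C k g I = psiH C k g' I := by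
  unfold psiH
  refine Finset.sum_congr rfl fun y hy => ?_
  by_cases hB : BtH C k y
  · rw [h y hy hB]
  · rw [ind2_neg hB, zero_mul, zero_mul]


/-- **The total defect of a part of `C`** which contains neither the tip nor the start. -/
theorem psiH_part (hA : Anch E ω t₀ d C y L) (ht : t₀ ≤ t) (hd : 0 ≤ d)
    (hn : Nb (E.cf ω) (E.e ω) t) {S : Finset (ℤ × ℤ)} {I : Finset ℤ} {X : UE → Prop} (hS : S ⊆ C)
    (hline : ∀ a, fa a ∈ C → fb a ∈ C → ¬ (fa a ∈ S ↔ fb a ∈ S) → ∃ y, a = (y, k, false))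
    (hside : ∀ y, BtH C k y → ((y, k) ∈ S ↔ (y, k - 1) ∉ S)) (hI : ∀ f ∈ C, f.1 ∈ I)
    (h0 : ∀ a f, BdE C a f → f ∈ S → ¬ X a → ¬ E.Gate ω t (ua a) (d + 1))
    (h1 : fb (E.e ω) ∉ S) (h2 : fa (E.p ω t) ∉ S) :
    psiH C k (dft E ω C y L t) I =
      ∑ f ∈ S, sq (fun a => ind2 (BdX C X a) * dft E ω C y L t a) f := by
  have h3 := sum_halfHX (g := dft E ω C y L t) (X := X) hS hline hside hI
    fun a f ha hf hX => dft_zero hA ht hd ha (h0 a f ha hf hX)
  have h4 : ∑ f ∈ S, sq (dft E ω C y L t) f = 0 := by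
    have h5 : ∀ f, sq (dft E ω C y L t) f = sq (cr E ω t) f := by
      intro f
      have h6 : sq (dft E ω C y L t) f = sq (cr E ω t) f +
          sq (fun a => sv E ω C y L t (ua a) + sv E ω C y L t (ub a)) f := sq_add _ _ f
      rw [h6, sq_grad, add_zero]
    rw [Finset.sum_congr rfl fun f _ => h5 f, sum_sq_cr S hn, ind2_neg h1, ind2_neg h2, add_zero]
  rw [h4] at h3
  generalize psiH C k (dft E ω C y L t) I = u at h3 ⊢
  generalize ∑ f ∈ S, sq (fun a => ind2 (BdX C X a) * dft E ω C y L t a) f = v at h3 ⊢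
  revert u v
  decide


theorem fa_le2 (a : UE) : (fa a).2 ≤ (ua a).2 ∧ (ua a).2 - 1 ≤ (fa a).2 ∧
    (fb a).2 ≤ (ua a).2 ∧ (ua a).2 - 1 ≤ (fb a).2 := by
  obtain ⟨p, q, dd⟩ := a
  unfold fa fb
  cases dd <;> simp only [ua, Bool.false_eq_true, if_false, if_true] <;> split_ifs <;>
    simp only <;> omega

theorem side_snd {f : ℤ × ℤ} {a : UE} (h : IsSide f a) : f.2 ≤ (ua a).2 ∧ (ua a).2 ≤ f.2 + 1 := by
  have h1 := fa_le2 a
  rcases isSide_iff.1 h with rfl | rfl <;> omega

/-- The faces of a unit edge have the same second coordinate or it is horizontal. -/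
theorem fa_snd (a : UE) : (fa a).2 = (fb a).2 ∨ ((fa a = (a.1, a.2.1) ∨ fa a = (a.1, a.2.1 - 1)) ∧
    (fb a = (a.1, a.2.1) ∨ fb a = (a.1, a.2.1 - 1)) ∧ a = (a.1, a.2.1, false)) := by
  obtain ⟨p, q, dd⟩ := a
  unfold fa fb
  cases dd
  · right
    simp only [Bool.false_eq_true, if_false]
    split_ifs <;> simp
  · left
    simp only [if_true]
    split_ifs <;> rfl

/-- **The upper half**, the tip is below. -/
theorem half_top (H : Cond E ω t₀ T C y L d R b Rb) (ht : t₀ < t) (htT : t ≤ T) (hR : R ≤ R₁)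
    (hR1 : 1 ≤ R₁) (hbk : Rb + 1 < |b.2 - k|) (hN : ∀ f ∈ C, N' < f.1 ∧ f.1 < N)
    (htip : (ua (E.p ω t)).2 < k - R₁)
    (hb : k < b.2 → bet E ω C y L (InB b Rb) t = 0) :
    psiH C k (dft E ω C y L t) (Finset.Ico N' N) = 0 := by
  classical
  have hS : (C.filter fun f => k ≤ f.2) ⊆ C := Finset.filter_subset _ _
  have h2 := fa_le2 (E.p ω t)
  rw [psiH_part (X := InB b Rb) H.an ht.le H.d0 (H.nb.mono htT) hS ?_ ?_ ?_ ?_ ?_ ?_]
  · rcases le_or_gt b.2 k with h3 | h3
    · refine bet_none fun f hf a ha hX => ?_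
      rw [Finset.mem_filter] at hf
      have h4 := side_snd ha
      rw [abs_of_nonpos (by omega)] at hbk
      unfold InB InR at hX
      omega
    · rw [bet_eq hS, hb h3]
      intro f hf hf' a ha hX
      rw [Finset.mem_filter] at hf'
      have h4 := side_snd ha
      rw [abs_of_pos (by omega)] at hbk
      unfold InB InR at hX
      have h5 : ¬ k ≤ f.2 := fun h => hf' ⟨hf, h⟩
      omega
  · intro a h3 h4 h5
    rcases fa_snd a with h6 | ⟨h6, h7, h8⟩
    · exfalso
      apply h5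
      simp only [Finset.mem_filter, h3, h4, true_and, h6]
    · refine ⟨a.1, ?_⟩
      rw [h8]
      simp only [Prod.mk.injEq, and_true, true_and]
      by_contra h9
      apply h5
      simp only [Finset.mem_filter, h3, h4, true_and]
      rcases h6 with h6 | h6 <;> rcases h7 with h7 | h7 <;> rw [h6, h7] <;> simp only <;> omega
  · intro y' hy'
    simp only [Finset.mem_filter, hy'.1, hy'.2, true_and]
    omega
  · intro f hf
    rw [Finset.mem_Ico]
    have := hN f hf
    omega
  · intro a f ha hf hX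
    rw [Finset.mem_filter] at hf
    have h4 : f.2 ≤ (ua a).2 := by
      rcases ha with ⟨rfl, -, -⟩ | ⟨rfl, -, -⟩
      · exact (fa_le2 a).1
      · exact (fa_le2 a).2.2.1
    refine H.gate t ht htT _ f ha (fun h5 => hX ?_) fun h5 => ?_
    · unfold inb at h5
      rw [abs_le, abs_le] at h5
      unfold InB InR
      omega
    · unfold InB InR at h5
      omega
  · rw [Finset.mem_filter]
    exact fun h => H.st h.1
  · rw [Finset.mem_filter]
    omega

/-- **The lower half**, the tip is above. -/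
theorem half_bot (H : Cond E ω t₀ T C y L d R b Rb) (ht : t₀ < t) (htT : t ≤ T) (hR : R ≤ R₁)
    (hR1 : 1 ≤ R₁) (hbk : Rb + 1 < |b.2 - k|) (hN : ∀ f ∈ C, N' < f.1 ∧ f.1 < N)
    (htip : k + R₁ < (ua (E.p ω t)).2)
    (hb : b.2 < k → bet E ω C y L (InB b Rb) t = 0) :
    psiH C k (dft E ω C y L t) (Finset.Ico N' N) = 0 := by
  classical
  have hS : (C.filter fun f => f.2 < k) ⊆ C := Finset.filter_subset _ _
  have h2 := fa_le2 (E.p ω t)
  rw [psiH_part (X := InB b Rb) H.an ht.le H.d0 (H.nb.mono htT) hS ?_ ?_ ?_ ?_ ?_ ?_]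
  · rcases le_or_gt k b.2 with h3 | h3
    · refine bet_none fun f hf a ha hX => ?_
      rw [Finset.mem_filter] at hf
      have h4 := side_snd ha
      rw [abs_of_nonneg (by omega)] at hbk
      unfold InB InR at hX
      omega
    · rw [bet_eq hS, hb h3]
      intro f hf hf' a ha hX
      rw [Finset.mem_filter] at hf'
      have h4 := side_snd ha
      rw [abs_of_neg (by omega)] at hbk
      unfold InB InR at hX
      have h5 : ¬ f.2 < k := fun h => hf' ⟨hf, h⟩
      omega
  · intro a h3 h4 h5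
    rcases fa_snd a with h6 | ⟨h6, h7, h8⟩
    · exfalso
      apply h5
      simp only [Finset.mem_filter, h3, h4, true_and, h6]
    · refine ⟨a.1, ?_⟩
      rw [h8]
      simp only [Prod.mk.injEq, and_true, true_and]
      by_contra h9
      apply h5
      simp only [Finset.mem_filter, h3, h4, true_and]
      rcases h6 with h6 | h6 <;> rcases h7 with h7 | h7 <;> rw [h6, h7] <;> simp only <;> omega
  · intro y' hy'
    simp only [Finset.mem_filter, hy'.1, hy'.2, true_and]
    omega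
  · intro f hf
    rw [Finset.mem_Ico]
    have := hN f hf
    omega
  · intro a f ha hf hX
    rw [Finset.mem_filter] at hf
    have h4 : (ua a).2 ≤ f.2 + 1 := by
      have := fa_le2 a
      rcases ha with ⟨rfl, -, -⟩ | ⟨rfl, -, -⟩ <;> omega
    refine H.gate t ht htT _ f ha (fun h5 => hX ?_) fun h5 => ?_
    · unfold inb at h5
      rw [abs_le, abs_le] at h5
      unfold InB InR
      omega
    · unfold InB InR at h5
      omega
  · rw [Finset.mem_filter]
    exact fun h => H.st h.1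
  · rw [Finset.mem_filter]
    omega

theorem psiH_split (g : UE → ZMod 2) (h1 : N' ≤ y₀) (h2 : y₀ ≤ N) :
    psiH C k g (Finset.Ico N' N) = psiH C k g (Finset.Ico y₀ N) + psiH C k g (Finset.Ico N' y₀) := by
  unfold psiH
  rw [add_comm]
  have h3 : Finset.Ico N' N = Finset.Ico N' y₀ ∪ Finset.Ico y₀ N := by
    rw [Finset.Ico_union_Ico_eq_Ico h1 h2]
  rw [h3, Finset.sum_union (Finset.Ico_disjoint_Ico_consecutive _ _ _)]

/-- **The side of a deep vertex.** -/
theorem deepH {Side : ℤ × ℤ → ZMod 2} (H : Cond E ω t₀ T C y L d R b Rb) (hT : t₀ ≤ T)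
    (hR : R ≤ R₁) (hdR : d + 1 ≤ R₁) (hbk : Rb + 1 < |b.2 - k|)
    (hx : ∀ v, Bv C v → ¬ inb (y₀, k) R₁ v) (hx1 : BtH C k y₀) (hx2 : BtH C k (y₀ - 1))
    (htip : ∀ t, t₀ ≤ t → t ≤ T → ¬ InB (y₀, k) (R₁ + 1) (E.p ω t))
    (hfr : ∀ y', BtH C k y' → ∀ l ≤ t₀, E.p ω l ≠ (y', k, false))
    (hcol : ∀ y', Bv C (y', k) → cl (y (y', k)) = c)
    (hb : ∀ t, t₀ < t → t ≤ T → ((k < b.2 ∧ (ua (E.p ω t)).2 < k - R₁) ∨
      (b.2 < k ∧ k + R₁ < (ua (E.p ω t)).2)) → bet E ω C y L (InB b Rb) t = 0)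
    (hS : ∀ a, cr E ω T a = Side (ua a) + Side (ub a))
    (hSd : ∀ v, Sd E ω T v → Side v = cl v) : Side (y₀, k) = c := by
  have hd := H.d0
  -- bounds of `C`
  obtain ⟨N', N, hN, h1, h2⟩ : ∃ N' N : ℤ, (∀ f ∈ C, N' < f.1 ∧ f.1 < N) ∧ N' ≤ y₀ ∧ y₀ ≤ N := by
    obtain ⟨n, hn⟩ : ∃ n : ℕ, ∀ f ∈ C, |f.1| < n := by
      refine ⟨(∑ f ∈ C, f.1.natAbs) + 1, fun f hf => ?_⟩
      have h3 : f.1.natAbs ≤ ∑ f ∈ C, f.1.natAbs :=
        Finset.single_le_sum (f := fun f : ℤ × ℤ => f.1.natAbs) (fun _ _ => Nat.zero_le _) hf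
      rw [Int.abs_eq_natAbs]
      exact_mod_cast Nat.lt_succ_of_le h3
    have h3 := hn _ hx1.1
    simp only at h3
    rw [abs_lt] at h3
    refine ⟨-n, n, fun f hf => abs_lt.1 (hn f hf), by omega, by omega⟩
  -- the two numbers
  set U : ℕ → ZMod 2 := fun t => psiH C k (dft E ω C y L t) (Finset.Ico y₀ N) with hU
  set D : ℕ → ZMod 2 := fun t => psiH C k (dft E ω C y L t) (Finset.Ico N' y₀) with hD
  -- the ends of the stretches are far from `x₀`
  have hxv : ∀ y', Bv C (y', k) → R₁ < |y' - y₀| := by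
    intro y' hv
    by_contra h3
    refine hx _ hv ⟨not_lt.1 h3, ?_⟩
    rw [show ((y', k) : ℤ × ℤ).2 - ((y₀, k) : ℤ × ℤ).2 = 0 by simp, abs_zero]
    omega
  -- one step, the tip is far from the half line
  have stepU : ∀ t, t₀ ≤ t → t + 1 ≤ T →
      ¬ (|(ua (E.p ω (t + 1))).2 - k| ≤ R₁ ∧ y₀ ≤ (ua (E.p ω (t + 1))).1) → U (t + 1) = U t := by
    intro t ht hT' hfar
    refine psiH_congr fun y' hy' hB => ?_
    rw [Finset.mem_Ico] at hy'
    have key : ∀ y'', y₀ ≤ y'' → Bv C (y'', k) → ¬ InB (y'', k) d (E.p ω (t + 1)) := by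
      intro y'' h3 hv h4
      have h5 := hxv y'' hv
      unfold InB InR at h4
      simp only at h4
      rw [abs_of_nonneg (by omega)] at h5
      refine hfar ⟨abs_le.2 (by omega), ?_⟩
      omega
    unfold dft
    rw [cr_succ, sv_succ (v := ua (y', k, false)) H.an (fun hv => key y' hy'.1 hv),
      sv_succ (v := ub (y', k, false)) H.an (fun hv => key (y' + 1) (by omega) hv)]
    intro h3
    apply hfar
    rw [h3]
    simp only [ua, sub_self, abs_zero]
    omega
  have stepD : ∀ t, t₀ ≤ t → t + 1 ≤ T →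
      ¬ (|(ua (E.p ω (t + 1))).2 - k| ≤ R₁ ∧ (ua (E.p ω (t + 1))).1 < y₀) → D (t + 1) = D t := by
    intro t ht hT' hfar
    refine psiH_congr fun y' hy' hB => ?_
    rw [Finset.mem_Ico] at hy'
    have key : ∀ y'', y'' ≤ y₀ → Bv C (y'', k) → ¬ InB (y'', k) d (E.p ω (t + 1)) := by
      intro y'' h3 hv h4
      have h5 := hxv y'' hv
      unfold InB InR at h4
      simp only at h4
      rw [abs_of_nonpos (by omega)] at h5
      refine hfar ⟨abs_le.2 (by omega), ?_⟩
      omega
    unfold dft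
    rw [cr_succ, sv_succ (v := ua (y', k, false)) H.an (fun hv => key y' hy'.2.le hv),
      sv_succ (v := ub (y', k, false)) H.an (fun hv => key (y' + 1) (by omega) hv)]
    intro h3
    apply hfar
    rw [h3]
    simp only [ua, sub_self, abs_zero]
    omega
  -- far from the line
  have both : ∀ t, t₀ < t → t ≤ T → R₁ < |(ua (E.p ω t)).2 - k| → U t + D t = 0 := by
    intro t ht hT' hfar
    have h3 := psiH_split (C := C) (k := k) (dft E ω C y L t) h1 h2
    rw [lt_abs] at hfar
    rcases hfar with h4 | h4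
    · rw [half_bot H ht hT' hR (by omega) hbk hN (by omega)
        (fun h5 => hb t ht hT' (Or.inr ⟨h5, by omega⟩))] at h3
      exact h3.symm
    · rw [half_top H ht hT' hR (by omega) hbk hN (by omega)
        (fun h5 => hb t ht hT' (Or.inl ⟨h5, by omega⟩))] at h3
      exact h3.symm
  -- consecutive places of the tip
  have adj : ∀ t, (ua (E.p ω (t + 1))).2 ≤ (ua (E.p ω t)).2 + 1 ∧
      (ua (E.p ω t)).2 ≤ (ua (E.p ω (t + 1))).2 + 1 ∧
      (ua (E.p ω (t + 1))).1 ≤ (ua (E.p ω t)).1 + 1 ∧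
      (ua (E.p ω t)).1 ≤ (ua (E.p ω (t + 1))).1 + 1 := by
    intro t
    have h3 : E.p ω (t + 1) = nx (E.cf ω) (E.p ω t) := SixB.pth_succ _ _ _
    rw [h3]
    obtain ⟨a1, a2, a3, a4⟩ := ua_nx (E.cf ω) (E.p ω t)
    exact ⟨a3, a4, a1, a2⟩
  have htip' : ∀ t, t₀ ≤ t → t ≤ T → |(ua (E.p ω t)).2 - k| ≤ R₁ →
      R₁ + 1 < |(ua (E.p ω t)).1 - y₀| := by
    intro t ht hT' h3
    by_contra h4
    rw [not_lt] at h4
    apply htip t ht hT'
    rw [abs_le] at h3 h4
    unfold InB InR
    simp only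
    omega
  have aux : ∀ u c : ZMod 2, u + c = 0 → u = c := by decide
  have aux' : ∀ u c : ZMod 2, c + u = 0 → u = c := by decide
  -- the induction
  have main : ∀ t, t₀ ≤ t → t ≤ T →
      (¬ (|(ua (E.p ω t)).2 - k| ≤ R₁ ∧ y₀ ≤ (ua (E.p ω t)).1) → U t = c) ∧
      (¬ (|(ua (E.p ω t)).2 - k| ≤ R₁ ∧ (ua (E.p ω t)).1 < y₀) → D t = c) := by
    intro t ht
    induction t, ht using Nat.le_induction with
    | base =>
      intro _
      -- at the time `t₀`
      have h3 : ∀ I, psiH C k (dft E ω C y L t₀) I =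
          psiH C k (fun a => (fun v => sv E ω C y L t₀ v + c) (ua a) +
            (fun v => sv E ω C y L t₀ v + c) (ub a)) I := by
        intro I
        refine psiH_congr fun y' _ hB => ?_
        have h4 : cr E ω t₀ (y', k, false) = 0 := by
          refine ind2_neg ?_
          rintro ⟨l, hl, h⟩
          exact hfr y' hB l hl h
        have aux : ∀ p q c : ZMod 2, 0 + (p + q) = p + c + (q + c) := by decide
        unfold dft
        rw [h4]
        exact aux _ _ _
      have h4 : ∀ y', Bv C (y', k) → (fun v => sv E ω C y L t₀ v + c) (y', k) = 0 := by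
        intro y' hv
        simp only
        rw [sv_zero H.an hv, hcol y' hv, z2_self]
      have hx0 : ¬ Bv C (y₀, k) := by
        intro h
        have := hxv _ h
        rw [sub_self, abs_zero] at this
        omega
      have h5 : (fun v => sv E ω C y L t₀ v + c) (y₀, k) = c := by
        simp only
        unfold sv
        rw [if_neg hx0, zero_add]
      constructor
      · intro _
        simp only [hU]
        rw [h3, psiH_up (σ := fun v => sv E ω C y L t₀ v + c) h4 (fun f hf => (hN f hf).2) hx1]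
        exact h5
      · intro _
        simp only [hD]
        rw [h3, psiH_down (σ := fun v => sv E ω C y L t₀ v + c) h4 (fun f hf => (hN f hf).1) hx2]
        exact h5
    | succ t ht ih =>
      intro hT'
      obtain ⟨i1, i2⟩ := ih (by omega)
      have hadj := adj t
      constructor
      · intro hfar
        by_cases h3 : |(ua (E.p ω t)).2 - k| ≤ R₁ ∧ y₀ ≤ (ua (E.p ω t)).1
        · -- the tip leaves the upper half line
          have h4 := htip' t ht (by omega) h3.1
          rw [abs_of_nonneg (by omega)] at h4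
          have h5 : R₁ < |(ua (E.p ω (t + 1))).2 - k| := by
            by_contra h6
            exact hfar ⟨not_lt.1 h6, by omega⟩
          have h6 := both (t + 1) (by omega) hT' h5
          have h7 : D (t + 1) = D t := stepD t ht hT' fun h8 => by omega
          have h8 : D t = c := i2 fun h9 => by omega
          rw [h7, h8] at h6
          exact aux _ _ h6
        · rw [stepU t ht hT' hfar]
          exact i1 h3
      · intro hfar
        by_cases h3 : |(ua (E.p ω t)).2 - k| ≤ R₁ ∧ (ua (E.p ω t)).1 < y₀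
        · have h4 := htip' t ht (by omega) h3.1
          rw [abs_of_neg (by omega)] at h4
          have h5 : R₁ < |(ua (E.p ω (t + 1))).2 - k| := by
            by_contra h6
            exact hfar ⟨not_lt.1 h6, by omega⟩
          have h6 := both (t + 1) (by omega) hT' h5
          have h7 : U (t + 1) = U t := stepU t ht hT' fun h8 => by omega
          have h8 : U t = c := i1 fun h9 => by omega
          rw [h7, h8] at h6
          exact aux' _ _ h6
        · rw [stepD t ht hT' hfar]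
          exact i2 h3
  -- the end
  obtain ⟨m1, m2⟩ := main T hT le_rfl
  have h3 : ∀ I, psiH C k (dft E ω C y L T) I =
      psiH C k (fun a => (fun v => Side v + sv E ω C y L T v) (ua a) +
        (fun v => Side v + sv E ω C y L T v) (ub a)) I := by
    intro I
    refine psiH_congr fun y' _ _ => ?_
    unfold dft
    rw [hS]
    ring
  have h4 : ∀ y', Bv C (y', k) → (fun v => Side v + sv E ω C y L T v) (y', k) = 0 := by
    intro y' hv
    simp only
    have h5 : Wk Set.univ (cr E ω T) (y', k) (y (y', k)) ((L (y', k)).map (cr E ω T)).sum :=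
      (H.an.wk _ hv).wk fun _ _ => Set.mem_univ _
    have h6 : ∀ {v w : ℤ × ℤ} {s : ZMod 2}, Wk Set.univ (cr E ω T) v w s → s = Side v + Side w := by
      intro v w s h
      induction h with
      | nil x => rw [z2_self]
      | @cons x u z a s _ hj _ ih =>
        rw [ih, hS]
        have h7 : Side (ua a) + Side (ub a) = Side x + Side u := by
          rcases hj with ⟨rfl, rfl⟩ | ⟨rfl, rfl⟩
          · rfl
          · rw [add_comm]
        rw [h7]
        generalize Side x = p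
        generalize Side u = q
        generalize Side z = r
        revert p q r
        decide
    unfold sv
    rw [if_pos hv, h6 h5, hSd _ ((H.an.sd _ hv).mono hT)]
    generalize Side (y', k) = p
    generalize cl (y (y', k)) = q
    revert p q
    decide
  have hx0 : ¬ Bv C (y₀, k) := by
    intro h
    have := hxv _ h
    rw [sub_self, abs_zero] at this
    omega
  have h5 : (fun v => Side v + sv E ω C y L T v) (y₀, k) = Side (y₀, k) := by
    simp only
    unfold sv
    rw [if_neg hx0, add_zero]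
  by_cases h6 : |(ua (E.p ω T)).2 - k| ≤ R₁ ∧ y₀ ≤ (ua (E.p ω T)).1
  · have h7 := m2 fun h8 => by omega
    simp only [hD] at h7
    rw [h3, psiH_down (σ := fun v => Side v + sv E ω C y L T v) h4 (fun f hf => (hN f hf).1) hx2] at h7
    exact h5.symm.trans h7
  · have h7 := m1 h6
    simp only [hU] at h7
    rw [h3, psiH_up (σ := fun v => Side v + sv E ω C y L T v) h4 (fun f hf => (hN f hf).2) hx1] at h7
    exact h5.symm.trans h7


end Pool.Agent.SixB.Deep
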