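import Pool.Agent.Lib.SixB.S8Sub
import Pool.Agent.Lib.SixB.S8Lay
import Pool.Agent.Lib.SixB.S8Walls

/-!
# Step 8: the true state at the start of a step

`F` is the fresh region, finite, edge connected and without holes, `Q` the set of the faces of the
needle, `G` an edge component of `F \ Q`.

* `esc_start`, `start_disc`: `F \ Q` has no holes; `G` is edge connected and has no holes.
* `exists_start`: the contour of `G` consists of one interval of sides with the outer face in `Q` and of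
  one interval of sides of `F`.
* `fan_needle`, `fan_old`: the outer faces at an interior vertex of an interval are of one kind.
* `strand_ends`: in a frozen configuration with two walls the strand from the tip ends at the target; up
  to this time it is in `G` or it turns around an interior vertex of a wall.
-/

set_option autoImplicit false

namespace Pool.Agent.SixB.StU

open Finset Pool.Agent.Perc Pool.Agent.PercT Pool.Agent.Perc6 Pool.Agent.SixB Pool.Agent.SixB.Top
open Pool.Agent.Perc6.C2Aux (isSide_ahead eq_ahead)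
open Pool.Agent.Perc.Tips (ahead rv rv_rv)

variable {F Q G : Set (ℤ × ℤ)} {A B S : UE × Bool} {f₀ : ℤ × ℤ} {ω : Cfg} {m k : ℕ}

/-! ### The fresh region minus the needle -/

/-- `F \ Q` has no holes. -/
theorem esc_start (hF : Esc F) (hQ : EConn Q) {q : ℤ × ℤ} (hq : q ∈ Q) {g : ℤ × ℤ} (hg : g ∉ F)
    (ha : AdjF q g) : Esc (F \ Q) := by
  refine hF.diff fun f hf => ⟨g, hg, ?_⟩
  have h1 : ChI Q f q := hQ f hf q hq
  exact (h1.stepC fun _ hl hl' => hl'.2 hl).tail ⟨ha, fun h => hg h.1⟩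

/-- The component `G` of the fresh region minus the needle. -/
theorem start_disc (hFf : F.Finite) (hF : Esc F) (hQ : EConn Q) {q : ℤ × ℤ} (hq : q ∈ Q)
    {g : ℤ × ℤ} (hg : g ∉ F) (ha : AdjF q g) (hf₀ : f₀ ∈ F \ Q) :
    (compT (F \ Q) f₀).Finite ∧ EConn (compT (F \ Q) f₀) ∧ Esc (compT (F \ Q) f₀) ∧
      compT (F \ Q) f₀ ⊆ F \ Q :=
  ⟨(hFf.subset Set.sdiff_subset).subset (compT_sub hf₀), econn_compT hf₀,
    esc_compT (hFf.subset Set.sdiff_subset) (esc_start hF hQ hq hg ha) hf₀, compT_sub hf₀⟩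

/-- The outer faces of the sides of `G`. -/
theorem start_cases (hB : BD (compT (F \ Q) f₀) B) :
    ahead (rv B) ∉ F ∨ ahead (rv B) ∈ Q := by
  have h := compT_bd_out hB
  by_cases h1 : ahead (rv B) ∈ F
  · right
    by_contra h2
    exact h ⟨h1, h2⟩
  · exact Or.inl h1

/-- A side of `G` which is not a side of `F` has its outer face in the needle. -/
theorem needle_of_not (hf₀ : f₀ ∈ F \ Q) (hB : BD (compT (F \ Q) f₀) B) (h : ¬ BD F B) :
    ahead (rv B) ∈ Q := by
  rcases start_cases hB with h1 | h1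
  · exact absurd ⟨(compT_sub hf₀ hB.1).1, h1⟩ h
  · exact h1

/-- **The contour of `G`**: one interval of sides at the needle, one interval of old sides. -/
theorem exists_start (hFf : F.Finite) (cF : EConn F) (hF : Esc F) (hQF : Q ⊆ F) (hQ : EConn Q)
    {q : ℤ × ℤ} (hq : q ∈ Q) {g : ℤ × ℤ} (hg : g ∉ F) (ha : AdjF q g) (hf₀ : f₀ ∈ F \ Q)
    (hold : ∃ B, BD (compT (F \ Q) f₀) B ∧ ahead (rv B) ∉ F) :
    ∃ A m k, BD (compT (F \ Q) f₀) A ∧ Per (compT (F \ Q) f₀) m A ∧ 0 < k ∧ k < m ∧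
      (∀ i < k, ahead (rv ((sc (compT (F \ Q) f₀))^[i] A)) ∈ Q) ∧
      (∀ i, k ≤ i → i < m → ahead (rv ((sc (compT (F \ Q) f₀))^[i] A)) ∉ F) ∧
      ∀ i, k ≤ i → i + 1 < m →
        (sc (compT (F \ Q) f₀))^[i + 1] A = sc F ((sc (compT (F \ Q) f₀))^[i] A) := by
  obtain ⟨hGf, cG, eG, hGF⟩ := start_disc hFf hF hQ hq hg ha hf₀
  have hGF' : compT (F \ Q) f₀ ⊆ F := fun f hf => (hGF hf).1
  obtain ⟨A₀, hA₀, hA₀F⟩ := hold
  have hA₀F : BD F A₀ := ⟨hGF' hA₀.1, hA₀F⟩
  obtain ⟨mF, hmF⟩ := exists_per hFf hA₀F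
  obtain ⟨mG, hmG⟩ := exists_per hGf hA₀
  -- the side of `F` at the needle
  obtain ⟨hne, a, hqa, hga⟩ := ha
  obtain ⟨d, hB₀⟩ := exists_BD (F := F) (a := a) ⟨⟨q, hQF hq, hqa⟩, g, hg, hga⟩
  have hB₀q : ahead (a, d) = q := by
    rcases side_two hne hqa hga (isSide_ahead a d) with h | h
    · exact h
    · exact absurd (h ▸ hB₀.1) hg
  obtain ⟨n, hn⟩ := contour_all hFf cF hF hA₀F hB₀.bdU
  have hn1 : (sc F)^[n] A₀ = (a, d) := (hA₀F.iterate n).eq_of_fst hB₀ hn
  have hn2 : (sc F)^[n % mF] A₀ = (a, d) := by rw [hmF.mod, hn1]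
  have hlt := Nat.mod_lt n hmF.pos
  obtain ⟨s, t, u, hst, htm, -, -, -, h1, h2, h3⟩ := contig hFf cF hF hGF' cG hA₀F hA₀ hmF hmG
    (p := n % mF) (q := n % mF) le_rfl hlt (by
      intro i hi1 hi2
      obtain rfl : i = n % mF := by omega
      rw [hn2, hB₀q]
      exact fun h => (hGF h).2 hq)
    (by
      intro f hf y hfy hy hyG
      refine ⟨n % mF, le_rfl, le_rfl, ?_⟩
      rw [hn2, hB₀q]
      have hyQ : y ∈ Q := by
        by_contra hyQ
        exact hyG (compT_step hf hfy ⟨hy, hyQ⟩)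
      have h4 : ChI Q y q := hQ y hyQ q hq
      exact ChI.mono (show Q ⊆ F \ compT (F \ Q) f₀ from
        fun l hl => ⟨hQF hl, fun h => (hGF h).2 hl⟩) h4)
  have hGB : ∀ i, BD (compT (F \ Q) f₀) ((sc (compT (F \ Q) f₀))^[i] A₀) := fun i => hA₀.iterate i
  -- the old sides
  have hbd : ∀ i, i ≤ s ∨ (t ≤ i ∧ i ≤ mG) → BD F ((sc (compT (F \ Q) f₀))^[i] A₀) := by
    rintro i (hi | ⟨hi1, hi2⟩)
    · rw [h1 i hi]
      exact hA₀F.iterate i
    · obtain ⟨j, rfl⟩ := Nat.exists_eq_add_of_le hi1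
      rw [h3 j hi2]
      exact hA₀F.iterate (u + j)
  have hshift : ∀ i, (sc (compT (F \ Q) f₀))^[i] ((sc (compT (F \ Q) f₀))^[s + 1] A₀) =
      (sc (compT (F \ Q) f₀))^[s + 1 + i] A₀ := fun i => by
    rw [← Function.iterate_add_apply, add_comm]
  have hwrap : ∀ i, mG ≤ i → (sc (compT (F \ Q) f₀))^[i] A₀ =
      (sc (compT (F \ Q) f₀))^[i - mG] A₀ := fun i hi => by
    conv_lhs => rw [show i = i - mG + mG by omega, Function.iterate_add_apply, hmG.per]
  have hold' : ∀ i, t - (s + 1) ≤ i → i < mG →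
      BD F ((sc (compT (F \ Q) f₀))^[i] ((sc (compT (F \ Q) f₀))^[s + 1] A₀)) := by
    intro i hi1 hi2
    rw [hshift]
    rcases Nat.lt_or_ge (s + 1 + i) mG with h | h
    · exact hbd _ (Or.inr ⟨by omega, h.le⟩)
    · rw [hwrap _ h]
      exact hbd _ (Or.inl (by omega))
  refine ⟨(sc (compT (F \ Q) f₀))^[s + 1] A₀, mG, t - (s + 1), hGB _, hmG.shift hA₀ _, by omega,
    by omega, ?_, fun i hi1 hi2 => (hold' i hi1 hi2).2, ?_⟩
  · intro i hi
    rw [hshift]
    exact needle_of_not hf₀ (hGB _) (h2 _ (by omega) (by omega))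
  · intro i hi1 hi2
    rw [Function.iterate_succ_apply']
    refine succ_common hFf cF hF hGF' cG (hold' i hi1 (by omega))
      ((hGB _).iterate i) ?_
    rw [← Function.iterate_succ_apply' (sc (compT (F \ Q) f₀))]
    exact hold' (i + 1) (by omega) hi2

/-! ### Both kinds of sides occur -/

/-- If the needle has no holes then `G` has an old side. -/
theorem exists_old (hFf : F.Finite) (hQe : Esc Q) (hf₀ : f₀ ∈ F \ Q) :
    ∃ B, BD (compT (F \ Q) f₀) B ∧ ahead (rv B) ∉ F := by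
  obtain ⟨x₀, x₁, y₀, y₁, hb⟩ := exists_RF hFf
  obtain ⟨g, hg, hch⟩ := hQe f₀ hf₀.2 (|x₀| + |x₁| + |y₀| + |y₁|)
  have hgF : g ∉ F := by
    intro h
    have hm := hb g h
    simp only [RF, mem_product, mem_Ico] at hm
    have a1 := neg_abs_le x₀
    have a2 := le_abs_self x₁
    have a3 := neg_abs_le y₀
    have a4 := le_abs_self y₁
    have b1 := abs_nonneg x₀
    have b2 := abs_nonneg x₁
    have b3 := abs_nonneg y₀
    have b4 := abs_nonneg y₁
    rcases hg with hg | hg
    · rcases abs_cases g.1 with ⟨h1, _⟩ | ⟨h1, _⟩ <;> omega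
    · rcases abs_cases g.2 with ⟨h1, _⟩ | ⟨h1, _⟩ <;> omega
  clear hg
  -- the first face of the chain outside the component
  have key : ∀ g, Relation.ReflTransGen (StepC Q) f₀ g → g ∉ compT (F \ Q) f₀ →
      ∃ b ∈ compT (F \ Q) f₀, ∃ c, AdjF b c ∧ c ∉ F := by
    intro g hch
    induction hch with
    | refl => intro h; exact absurd self_mem_compT h
    | @tail b c hb' hs ih =>
      intro hcG
      by_cases hbG : b ∈ compT (F \ Q) f₀
      · exact ⟨b, hbG, c, hs.1, fun hcF => hcG (compT_step hbG hs.1 ⟨hcF, hs.2⟩)⟩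
      · exact ih hbG
  obtain ⟨b, hbG, c, ⟨hne, a, hba, hca⟩, hcF⟩ := key g hch fun h => hgF (compT_sub hf₀ h).1
  have hcG : c ∉ compT (F \ Q) f₀ := fun h => hcF (compT_sub hf₀ h).1
  obtain ⟨d, hB⟩ := exists_BD (F := compT (F \ Q) f₀) (a := a) ⟨⟨b, hbG, hba⟩, c, hcG, hca⟩
  refine ⟨(a, d), hB, ?_⟩
  rcases side_two hne hba hca (isSide_ahead a (!d)) with h | h
  · exfalso
    apply hB.2
    change ahead (a, !d) ∈ _
    rw [h]
    exact hbG
  · change ahead (a, !d) ∉ F
    rw [h]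
    exact hcF

/-! ### The outer faces at a vertex -/

/-- The outer faces at the vertex between two sides at the needle are faces of the needle. -/
theorem fan_needle (hQf : Q.Finite) (hQ : EConn Q) (hQe : Esc Q) (hGf : G.Finite) (cG : EConn G)
    (eG : Esc G) (hGQ : ∀ f ∈ G, f ∉ Q) (hB : BD G B) (h1 : ahead (rv B) ∈ Q)
    (h2 : ahead (rv (sc G B)) ∈ Q) {f : ℤ × ℤ} (hf : f ∉ G) (hc : IsCor f (rg B)) : f ∈ Q := by
  have hp : ahead (rtn B) ∉ G → ahead (rtn (rtn B)) ∉ G := by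
    intro h3 h4
    have hX : BD G (rtn (rtn B)) := ⟨h4, by rw [ahead_rv_rtn]; exact h3⟩
    exact rtn_rtn_ne B (no_pinch hGf cG eG hX hB (by rw [rg_rtn, rg_rtn]))
  by_cases k1 : ahead (rtn B) ∈ G
  · by_cases k2 : ahead (rtn (rtn B)) ∈ G
    · rcases (isCor_rg_iff _ _).1 hc with rfl | rfl | rfl | rfl
      · exact h1
      · exact absurd hB.1 hf
      · exact absurd k1 hf
      · exact absurd k2 hf
    · rw [sc_straight k1 k2, rv_rv] at h2
      rcases (isCor_rg_iff _ _).1 hc with rfl | rfl | rfl | rfl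
      · exact h1
      · exact absurd hB.1 hf
      · exact absurd k1 hf
      · exact h2
  · rw [sc_left k1, rv_rv] at h2
    rcases (isCor_rg_iff _ _).1 hc with rfl | rfl | rfl | rfl
    · exact h1
    · exact absurd hB.1 hf
    · exact h2
    · by_contra h3
      have hX : BD Q (rtn B) := ⟨h2, by rw [ahead_rv_rtn]; exact hGQ _ hB.1⟩
      have hY : BD Q (rtn (rtn (rtn B))) :=
        ⟨by rw [ahead_rtn_three]; exact h1, by rw [ahead_rv_rtn]; exact h3⟩
      have h4 := no_pinch hQf hQ hQe hX hY (by rw [rg_rtn, rg_rtn, rg_rtn, rg_rtn])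
      exact rtn_rtn_ne (rtn B) h4.symm

/-- The outer faces at the vertex between two old sides are outside `F`. -/
theorem fan_old (hFf : F.Finite) (cF : EConn F) (hF : Esc F) (hGF : G ⊆ F) (hB : BD G B)
    (h1 : ahead (rv B) ∉ F) (h2 : ahead (rv (sc G B)) ∉ F) {f : ℤ × ℤ} (hf : f ∉ G)
    (hc : IsCor f (rg B)) : f ∉ F := by
  have hBF : BD F B := ⟨hGF hB.1, h1⟩
  by_cases k1 : ahead (rtn B) ∈ G
  · by_cases k2 : ahead (rtn (rtn B)) ∈ G
    · rcases (isCor_rg_iff _ _).1 hc with rfl | rfl | rfl | rfl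
      · exact h1
      · exact absurd hB.1 hf
      · exact absurd k1 hf
      · exact absurd k2 hf
    · rw [sc_straight k1 k2, rv_rv] at h2
      rcases (isCor_rg_iff _ _).1 hc with rfl | rfl | rfl | rfl
      · exact h1
      · exact absurd hB.1 hf
      · exact absurd k1 hf
      · exact h2
  · rw [sc_left k1, rv_rv] at h2
    rcases (isCor_rg_iff _ _).1 hc with rfl | rfl | rfl | rfl
    · exact h1
    · exact absurd hB.1 hf
    · exact h2
    · intro h3
      have hX : BD F (rtn (rtn B)) := ⟨h3, by rw [ahead_rv_rtn]; exact h2⟩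
      exact rtn_rtn_ne B (no_pinch hFf cF hF hX hBF (by rw [rg_rtn, rg_rtn]))

/-! ### Rotations -/

theorem par_lf (A : UE × Bool) : par (lf A) = 1 - par (rg A) := by
  have h1 := par_rg_ne_lf A
  have h2 := par_cases (lf A)
  have h3 := par_cases (rg A)
  omega

theorem fa_can (h : par (rg A) = 0) : fa A.1 = ahead A := by
  obtain ⟨⟨x, y, _ | _⟩, _ | _⟩ := A <;> simp only [rg, par] at h
  · have e : par (x, y) = 0 := by simp only [par]; omega
    simp [fa, ahead, ua_mk, e]
  · have e : par (x, y) = 1 := by simp only [par]; omega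
    simp [fa, ahead, ua_mk, e]
  · have e : par (x, y) = 1 := by simp only [par]; omega
    simp [fa, ahead, ua_mk, e]
  · have e : par (x, y) = 0 := by simp only [par]; omega
    simp [fa, ahead, ua_mk, e]

theorem fb_can (h : par (rg A) = 0) : fb A.1 = ahead (rv A) := by
  obtain ⟨⟨x, y, _ | _⟩, _ | _⟩ := A <;> simp only [rg, par] at h
  · have e : par (x, y) = 0 := by simp only [par]; omega
    simp [fb, ahead, rv, ua_mk, e]
  · have e : par (x, y) = 1 := by simp only [par]; omega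
    simp [fb, ahead, rv, ua_mk, e]
  · have e : par (x, y) = 1 := by simp only [par]; omega
    simp [fb, ahead, rv, ua_mk, e]
  · have e : par (x, y) = 0 := by simp only [par]; omega
    simp [fb, ahead, rv, ua_mk, e]

theorem nx_of_mt {a b : UE} (h : Mt ω (fa a) a b) : nx ω a = b := (pn_of_mt h).symm

/-- Turn around the right end. -/
theorem nx_odd (h : par (rg A) = 0) (hω : ω (ahead A) = parD 0 (ahead A)) :
    nx ω A.1 = (rtn A).1 := by
  apply nx_of_mt
  rw [fa_can h]
  obtain ⟨⟨x, y, _ | _⟩, _ | _⟩ := A <;> simp only [rg, par] at h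
  · have e : ω (x, y - 1) = true := hω.trans (decide_eq_true (by simp only [ahead]; omega))
    exact Or.inl ⟨e, by simp [ahead, rtn, bo, ri, le', to']⟩
  · have e : ω (x, y) = true := hω.trans (decide_eq_true (by simp only [ahead]; omega))
    exact Or.inl ⟨e, by simp [ahead, rtn, bo, ri, le', to']⟩
  · have e : ω (x - 1, y) = false := hω.trans (decide_eq_false (by simp only [ahead]; omega))
    exact Or.inr ⟨e, by simp [ahead, rtn, bo, ri, le', to']⟩
  · have e : ω (x, y) = false := hω.trans (decide_eq_false (by simp only [ahead]; omega))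
    exact Or.inr ⟨e, by simp [ahead, rtn, bo, ri, le', to']⟩

/-- Turn around the left end. -/
theorem nx_even (h : par (rg A) = 0) (hω : ω (ahead A) = !parD 0 (ahead A)) :
    nx ω A.1 = (rtn (rtn (rtn (rv A)))).1 := by
  apply nx_of_mt
  rw [fa_can h]
  obtain ⟨⟨x, y, _ | _⟩, _ | _⟩ := A <;> simp only [rg, par] at h
  · have e : ω (x, y - 1) = false := hω.trans (by
      rw [show parD 0 (ahead ((x, y, false), false)) = true from
        decide_eq_true (by simp only [ahead]; omega)]; rfl)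
    exact Or.inr ⟨e, by simp [ahead, rtn, rv, bo, ri, le', to']⟩
  · have e : ω (x, y) = false := hω.trans (by
      rw [show parD 0 (ahead ((x, y, false), true)) = true from
        decide_eq_true (by simp only [ahead]; omega)]; rfl)
    exact Or.inr ⟨e, by simp [ahead, rtn, rv, bo, ri, le', to']⟩
  · have e : ω (x - 1, y) = true := hω.trans (by
      rw [show parD 0 (ahead ((x, y, true), false)) = false from
        decide_eq_false (by simp only [ahead]; omega)]; rfl)
    exact Or.inl ⟨e, by simp [ahead, rtn, rv, bo, ri, le', to']⟩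
  · have e : ω (x, y) = true := hω.trans (by
      rw [show parD 0 (ahead ((x, y, true), true)) = false from
        decide_eq_false (by simp only [ahead]; omega)]; rfl)
    exact Or.inl ⟨e, by simp [ahead, rtn, rv, bo, ri, le', to']⟩

theorem rtn_par (A : UE × Bool) : par (rg (rtn A)) = par (rg A) := by rw [rg_rtn]

theorem fa_out (h : par (rg B) = 1) : fa B.1 = ahead (rv B) := by
  have h1 : par (rg (rv B)) = 0 := by rw [rg_rv, par_lf, h]; rfl
  exact fa_can h1

/-- One step of a rotation to the left around the right end of `B` (seen from inside). -/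
theorem nx_out_even (h : par (rg B) = 1) (hω : ω (ahead (rv B)) = !parD 0 (ahead (rv B))) :
    nx ω B.1 = (rtn (rtn (rtn B))).1 := by
  have h1 : par (rg (rv B)) = 0 := by rw [rg_rv, par_lf, h]; rfl
  have h2 := nx_even h1 hω
  rwa [rv_rv] at h2

/-- **Rotation at an even wall.** The strand which leaves through the side `B` comes back through the
next side if all the outer faces at the vertex between them are even. -/
theorem rot_even (hGf : G.Finite) (cG : EConn G) (eG : Esc G) (hB : BD G B) (hp : par (rg B) = 1)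
    (hfan : ∀ f, f ∉ G → IsCor f (rg B) → ω f = !parD 0 f) :
    ∃ j, 0 < j ∧ pth ω B.1 j = (sc G B).1 ∧
      ∀ i < j, fa (pth ω B.1 i) ∉ G ∧ IsCor (fa (pth ω B.1 i)) (rg B) := by
  have hpin : ahead (rtn B) ∉ G → ahead (rtn (rtn B)) ∉ G := by
    intro h3 h4
    have hX : BD G (rtn (rtn B)) := ⟨h4, by rw [ahead_rv_rtn]; exact h3⟩
    exact rtn_rtn_ne B (no_pinch hGf cG eG hX hB (by rw [rg_rtn, rg_rtn]))
  have c0 : IsCor (ahead (rv B)) (rg B) := (isCor_rg_iff _ _).2 (Or.inl rfl)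
  have c1 : IsCor (ahead (rtn B)) (rg B) := (isCor_rg_iff _ _).2 (Or.inr (Or.inr (Or.inl rfl)))
  have c2 : IsCor (ahead (rtn (rtn B))) (rg B) :=
    (isCor_rg_iff _ _).2 (Or.inr (Or.inr (Or.inr rfl)))
  have f0 : fa (pth ω B.1 0) = ahead (rv B) := fa_out hp
  have p1 : pth ω B.1 1 = (rtn (rtn (rtn B))).1 := by
    rw [pth_succ, pth_zero]
    exact nx_out_even hp (hfan _ hB.2 c0)
  have hp3 : par (rg (rtn (rtn (rtn B)))) = 1 := by rw [rtn_par, rtn_par, rtn_par, hp]
  have f1 : fa (pth ω B.1 1) = ahead (rtn (rtn B)) := by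
    rw [p1, fa_out hp3, ahead_rv_rtn]
  have hp2 : par (rg (rtn (rtn B))) = 1 := by rw [rtn_par, rtn_par, hp]
  have p2 : ahead (rtn (rtn B)) ∉ G → pth ω B.1 2 = (rtn (rtn B)).1 := by
    intro h
    rw [pth_succ, p1, nx_out_even hp3 (by rw [ahead_rv_rtn]; exact hfan _ h c2)]
    rw [rtn_four (rtn (rtn B))]
  have f2 : ahead (rtn (rtn B)) ∉ G → fa (pth ω B.1 2) = ahead (rtn B) := by
    intro h
    rw [p2 h, fa_out hp2, ahead_rv_rtn]
  by_cases k1 : ahead (rtn B) ∈ G
  · by_cases k2 : ahead (rtn (rtn B)) ∈ G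
    · refine ⟨1, one_pos, ?_, fun i hi => ?_⟩
      · rw [sc_right k1 k2]
        exact p1
      · obtain rfl : i = 0 := by omega
        rw [f0]
        exact ⟨hB.2, c0⟩
    · refine ⟨2, two_pos, ?_, fun i hi => ?_⟩
      · rw [sc_straight k1 k2]
        exact p2 k2
      · rcases (by omega : i = 0 ∨ i = 1) with rfl | rfl
        · rw [f0]
          exact ⟨hB.2, c0⟩
        · rw [f1]
          exact ⟨k2, c2⟩
  · have k2 := hpin k1
    refine ⟨3, by norm_num, ?_, fun i hi => ?_⟩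
    · rw [sc_left k1, pth_succ, p2 k2,
        nx_out_even hp2 (by rw [ahead_rv_rtn]; exact hfan _ k1 c1), rtn_four (rtn B)]
      rfl
    · rcases (by omega : i = 0 ∨ i = 1 ∨ i = 2) with rfl | rfl | rfl
      · rw [f0]
        exact ⟨hB.2, c0⟩
      · rw [f1]
        exact ⟨k2, c2⟩
      · rw [f2 k2]
        exact ⟨k1, c1⟩

/-- **Rotation at an odd wall.** The strand which leaves through the side `sc G B` comes back through
`B` if all the outer faces at the vertex between them are odd. -/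
theorem rot_odd (hGf : G.Finite) (cG : EConn G) (eG : Esc G) (hB : BD G B) (hp : par (rg B) = 0)
    (hfan : ∀ f, f ∉ G → IsCor f (rg B) → ω f = parD 0 f) :
    ∃ j, 0 < j ∧ pth ω (sc G B).1 j = B.1 ∧
      ∀ i < j, fa (pth ω (sc G B).1 i) ∉ G ∧ IsCor (fa (pth ω (sc G B).1 i)) (rg B) := by
  have hpin : ahead (rtn B) ∉ G → ahead (rtn (rtn B)) ∉ G := by
    intro h3 h4
    have hX : BD G (rtn (rtn B)) := ⟨h4, by rw [ahead_rv_rtn]; exact h3⟩
    exact rtn_rtn_ne B (no_pinch hGf cG eG hX hB (by rw [rg_rtn, rg_rtn]))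
  have c0 : IsCor (ahead (rv B)) (rg B) := (isCor_rg_iff _ _).2 (Or.inl rfl)
  have c1 : IsCor (ahead (rtn B)) (rg B) := (isCor_rg_iff _ _).2 (Or.inr (Or.inr (Or.inl rfl)))
  have c2 : IsCor (ahead (rtn (rtn B))) (rg B) :=
    (isCor_rg_iff _ _).2 (Or.inr (Or.inr (Or.inr rfl)))
  have q1 : par (rg (rtn B)) = 0 := by rw [rtn_par, hp]
  have q2 : par (rg (rtn (rtn B))) = 0 := by rw [rtn_par, q1]
  have q3 : par (rg (rtn (rtn (rtn B)))) = 0 := by rw [rtn_par, q2]
  -- the last step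
  have s3 : nx ω (rtn (rtn (rtn B))).1 = B.1 := by
    rw [nx_odd q3 (by rw [ahead_rtn_three]; exact hfan _ hB.2 c0), rtn_four]
  have g3 : fa (rtn (rtn (rtn B))).1 = ahead (rv B) := by rw [fa_can q3, ahead_rtn_three]
  have s2 : ahead (rtn (rtn B)) ∉ G → nx ω (rtn (rtn B)).1 = (rtn (rtn (rtn B))).1 :=
    fun h => nx_odd q2 (hfan _ h c2)
  have g2 : fa (rtn (rtn B)).1 = ahead (rtn (rtn B)) := fa_can q2
  have s1 : ahead (rtn B) ∉ G → nx ω (rtn B).1 = (rtn (rtn B)).1 :=
    fun h => nx_odd q1 (hfan _ h c1)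
  have g1 : fa (rtn B).1 = ahead (rtn B) := fa_can q1
  by_cases k1 : ahead (rtn B) ∈ G
  · by_cases k2 : ahead (rtn (rtn B)) ∈ G
    · have e : (sc G B).1 = (rtn (rtn (rtn B))).1 := by rw [sc_right k1 k2]; rfl
      rw [e]
      refine ⟨1, one_pos, by rw [pth_succ, pth_zero, s3], fun i hi => ?_⟩
      obtain rfl : i = 0 := by omega
      rw [pth_zero, g3]
      exact ⟨hB.2, c0⟩
    · have e : (sc G B).1 = (rtn (rtn B)).1 := by rw [sc_straight k1 k2]; rfl
      rw [e]
      have p1 : pth ω (rtn (rtn B)).1 1 = (rtn (rtn (rtn B))).1 := by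
        rw [pth_succ, pth_zero, s2 k2]
      refine ⟨2, two_pos, by rw [pth_succ, p1, s3], fun i hi => ?_⟩
      rcases (by omega : i = 0 ∨ i = 1) with rfl | rfl
      · rw [pth_zero, g2]
        exact ⟨k2, c2⟩
      · rw [p1, g3]
        exact ⟨hB.2, c0⟩
  · have k2 := hpin k1
    have e : (sc G B).1 = (rtn B).1 := by rw [sc_left k1]; rfl
    rw [e]
    have p1 : pth ω (rtn B).1 1 = (rtn (rtn B)).1 := by rw [pth_succ, pth_zero, s1 k1]
    have p2 : pth ω (rtn B).1 2 = (rtn (rtn (rtn B))).1 := by rw [pth_succ, p1, s2 k2]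
    refine ⟨3, by norm_num, by rw [pth_succ, p2, s3], fun i hi => ?_⟩
    rcases (by omega : i = 0 ∨ i = 1 ∨ i = 2) with rfl | rfl | rfl
    · rw [pth_zero, g1]
      exact ⟨k1, c1⟩
    · rw [p1, g2]
      exact ⟨k2, c2⟩
    · rw [p2, g3]
      exact ⟨hB.2, c0⟩

/-! ### The strand of a region with two walls -/

/-- The region `G` with the contour `S, sc G S, …` of `m` sides: the strand enters through the tip side
`S`; at the vertices between the sides `1, …, k₁ - 1` the outer faces are even, at the vertices between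
the sides `k₁, …, m - 1` they are odd. -/
structure Frz (ω : Cfg) (G : Set (ℤ × ℤ)) (S : UE × Bool) (m k₁ : ℕ) : Prop where
  fin : G.Finite
  cG : EConn G
  eG : Esc G
  bd : BD G S
  per : Per G m S
  tp : par (rg S) = 0
  le : 1 ≤ k₁
  lm : k₁ ≤ m
  ev : ∀ j, 0 < j → j + 1 < k₁ → ∀ f, f ∉ G → IsCor f (rg ((sc G)^[j] S)) → ω f = !parD 0 f
  od : ∀ j, k₁ ≤ j → j + 1 < m → ∀ f, f ∉ G → IsCor f (rg ((sc G)^[j] S)) → ω f = parD 0 f

/-- The index of the target side. -/
def jt (k₁ : ℕ) : ℕ := if k₁ % 2 = 1 then k₁ else k₁ - 1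

theorem jt_odd (h : 1 ≤ k) : jt k % 2 = 1 := by
  unfold jt
  split_ifs <;> omega

theorem par_side (hS : par (rg S) = 0) (j : ℕ) : par (rg ((sc G)^[j] S)) = ((j % 2 : ℕ) : ℤ) := by
  induction j with
  | zero => simpa using hS
  | succ j ih =>
    have h1 := par_lf ((sc G)^[j + 1] S)
    rw [Function.iterate_succ_apply', lf_sc, ih] at h1
    rw [Function.iterate_succ_apply']
    omega

section Ends

variable (h : Frz ω G S m k)

include h

theorem Frz.m_even : m % 2 = 0 := by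
  have h1 := par_side (G := G) h.tp m
  rw [h.per.per, h.tp] at h1
  omega

theorem Frz.jt_lt : jt k < m := by
  have h1 := h.m_even
  have h2 := h.lm
  have h3 := h.le
  unfold jt
  split_ifs <;> omega

theorem Frz.fa_tip : fa S.1 ∈ G := by
  rw [fa_can h.tp]
  exact h.bd.1

theorem Frz.fb_tip : fb S.1 ∉ G := by
  rw [fb_can h.tp]
  exact h.bd.2

/-- The faces at the walls. -/
def Wf (G : Set (ℤ × ℤ)) (S : UE × Bool) (m k : ℕ) (f : ℤ × ℤ) : Prop :=
  f ∉ G ∧ ∃ j, ((0 < j ∧ j + 1 < k) ∨ (k ≤ j ∧ j + 1 < m)) ∧ IsCor f (rg ((sc G)^[j] S))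

/-- From an entrance to the next entrance or to the target. -/
theorem Frz.step {t : ℕ} (h1 : fb (pth ω S.1 t) ∉ G) (h2 : fa (pth ω S.1 t) ∈ G)
    (h3 : ∀ i < t, fa (pth ω S.1 i) ∈ G ∨ Wf G S m k (fa (pth ω S.1 i)))
    (h4 : ∀ i, 0 < i → i ≤ t → pth ω S.1 i ≠ S.1) :
    (∃ τ, t < τ ∧ pth ω S.1 τ = ((sc G)^[jt k] S).1 ∧ fb (pth ω S.1 τ) ∈ G ∧
      fa (pth ω S.1 τ) ∉ G ∧ (∀ i < τ, fa (pth ω S.1 i) ∈ G ∨ Wf G S m k (fa (pth ω S.1 i))) ∧
      ∀ i, 0 < i → i ≤ τ → pth ω S.1 i ≠ S.1) ∨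
    ∃ u, t < u ∧ fb (pth ω S.1 u) ∉ G ∧ fa (pth ω S.1 u) ∈ G ∧
      (∀ i < u, fa (pth ω S.1 i) ∈ G ∨ Wf G S m k (fa (pth ω S.1 i))) ∧
      ∀ i, 0 < i → i ≤ u → pth ω S.1 i ≠ S.1 := by
  classical
  -- the exit
  obtain ⟨r, hr1, hr2⟩ := exists_exit_of_enter (e := pth ω S.1 t) h.fin.toFinset ω
    (by rw [Set.Finite.mem_toFinset]; exact h1)
  simp only [Set.Finite.mem_toFinset, pth_add] at hr1 hr2
  have hr0 : 0 < r := by
    rcases Nat.eq_zero_or_pos r with rfl | h0
    · exact absurd h2 hr2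
    · exact h0
  have hfbT : ∀ i, t < i → i ≤ t + r → fb (pth ω S.1 i) ∈ G := by
    intro i hi1 hi2
    obtain ⟨l, rfl⟩ : ∃ l, i = (t + l) + 1 := ⟨i - 1 - t, by omega⟩
    rw [fb_pth_succ]
    exact hr1 l (by omega)
  have hgood : ∀ i < t + r, fa (pth ω S.1 i) ∈ G ∨ Wf G S m k (fa (pth ω S.1 i)) := by
    intro i hi
    rcases Nat.lt_or_ge i t with hlt | hge
    · exact h3 i hlt
    · left
      obtain ⟨l, rfl⟩ := Nat.exists_eq_add_of_le hge
      exact hr1 l (by omega)
  have hne : ∀ i, 0 < i → i ≤ t + r → pth ω S.1 i ≠ S.1 := by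
    intro i hi1 hi2
    rcases Nat.lt_or_ge t i with hlt | hge
    · intro hh
      have h5 := hfbT i hlt hi2
      rw [hh] at h5
      exact h.fb_tip h5
    · exact h4 i hi1 hge
  -- the side
  have hfb := hfbT (t + r) (by omega) le_rfl
  obtain ⟨d, hB⟩ := exists_BD (F := G) (a := pth ω S.1 (t + r))
    ⟨⟨_, hfb, isSide_fb _⟩, _, hr2, isSide_fa _⟩
  obtain ⟨n, hn⟩ := contour_all h.fin h.cG h.eG h.bd hB.bdU
  have hn1 : (sc G)^[n] S = (pth ω S.1 (t + r), d) := (h.bd.iterate n).eq_of_fst hB hn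
  obtain ⟨j, hjm, hj⟩ : ∃ j < m, (sc G)^[j] S = (pth ω S.1 (t + r), d) :=
    ⟨n % m, Nat.mod_lt _ h.per.pos, by rw [h.per.mod, hn1]⟩
  have hj1 : ((sc G)^[j] S).1 = pth ω S.1 (t + r) := by rw [hj]
  have hBj : BD G ((sc G)^[j] S) := h.bd.iterate j
  have hjodd : j % 2 = 1 := by
    by_contra hcon
    have h5 : par (rg ((sc G)^[j] S)) = 0 := by
      rw [par_side h.tp]
      omega
    have h6 := fa_can h5
    rw [hj1] at h6
    rw [h6] at hr2
    exact hr2 hBj.1
  have hpj : par (rg ((sc G)^[j] S)) = 1 := by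
    rw [par_side h.tp]
    omega
  -- the end of the proof for a rotation
  have key : ∀ (r' j' : ℕ), 0 < r' → 0 < j' → j' < m → j' % 2 = 0 →
      pth ω (pth ω S.1 (t + r)) r' = ((sc G)^[j'] S).1 →
      (∀ i < r', Wf G S m k (fa (pth ω (pth ω S.1 (t + r)) i))) →
      ∃ u, t < u ∧ fb (pth ω S.1 u) ∉ G ∧ fa (pth ω S.1 u) ∈ G ∧
      (∀ i < u, fa (pth ω S.1 i) ∈ G ∨ Wf G S m k (fa (pth ω S.1 i))) ∧
      ∀ i, 0 < i → i ≤ u → pth ω S.1 i ≠ S.1 := by
    intro r' j' hr' hj' hj'm hj'e hend hw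
    simp only [pth_add] at hend hw
    have hBj' : BD G ((sc G)^[j'] S) := h.bd.iterate j'
    have hpj' : par (rg ((sc G)^[j'] S)) = 0 := by
      rw [par_side h.tp]
      omega
    refine ⟨t + r + r', by omega, ?_, ?_, ?_, ?_⟩
    · rw [hend, fb_can hpj']
      exact hBj'.2
    · rw [hend, fa_can hpj']
      exact hBj'.1
    · intro i hi
      rcases Nat.lt_or_ge i (t + r) with hlt | hge
      · exact hgood i hlt
      · right
        obtain ⟨l, rfl⟩ := Nat.exists_eq_add_of_le hge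
        exact hw l (by omega)
    · intro i hi1 hi2
      rcases Nat.lt_or_ge (t + r) i with hlt | hge
      · rcases Nat.lt_or_ge i (t + r + r') with hlt2 | hge2
        · intro hh
          obtain ⟨l, rfl⟩ := Nat.exists_eq_add_of_le hlt.le
          have h5 := (hw l (by omega)).1
          rw [hh] at h5
          exact h5 h.fa_tip
        · obtain rfl : i = t + r + r' := by omega
          rw [hend]
          intro hh
          have h5 : (sc G)^[j'] S = S := hBj'.eq_of_fst h.bd hh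
          have := h.per.inj j' hj'm 0 h.per.pos (by simpa using h5)
          omega
      · exact hne i hi1 hge
  have hle := h.le
  have hlm := h.lm
  rcases Nat.lt_or_ge j k with hjk | hjk
  · rcases Nat.lt_or_ge (j + 1) k with hjk1 | hjk1
    · -- rotation at the even wall
      right
      obtain ⟨r', hr', he, hw⟩ := rot_even (ω := ω) h.fin h.cG h.eG hBj hpj
        (h.ev j (by omega) hjk1)
      rw [hj1] at he hw
      refine key r' (j + 1) hr' (by omega) (by omega) (by omega) ?_ ?_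
      · rw [he, Function.iterate_succ_apply']
      · intro i hi
        exact ⟨(hw i hi).1, j, Or.inl ⟨by omega, hjk1⟩, (hw i hi).2⟩
    · left
      have e : jt k = j := by
        unfold jt
        rw [if_neg (by omega)]
        omega
      exact ⟨t + r, by omega, by rw [e, hj1], hfb, hr2, hgood, hne⟩
  · rcases Nat.lt_or_ge k j with hkj | hkj
    · -- rotation at the odd wall
      right
      obtain ⟨l, rfl⟩ : ∃ l, j = l + 1 := ⟨j - 1, by omega⟩
      have hBl : BD G ((sc G)^[l] S) := h.bd.iterate l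
      have hpl : par (rg ((sc G)^[l] S)) = 0 := by
        rw [par_side h.tp]
        omega
      obtain ⟨r', hr', he, hw⟩ := rot_odd (ω := ω) h.fin h.cG h.eG hBl hpl
        (h.od l (by omega) (by omega))
      rw [← Function.iterate_succ_apply' (sc G) l S, hj1] at he hw
      refine key r' l hr' (by omega) (by omega) (by omega) he ?_
      intro i hi
      exact ⟨(hw i hi).1, l, Or.inr ⟨by omega, by omega⟩, (hw i hi).2⟩
    · left
      have e : jt k = j := by
        unfold jt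
        rw [if_pos (by omega)]
        omega
      exact ⟨t + r, by omega, by rw [e, hj1], hfb, hr2, hgood, hne⟩

/-- **The strand ends at the target.** -/
theorem Frz.ends : ∃ τ, 0 < τ ∧ pth ω S.1 τ = ((sc G)^[jt k] S).1 ∧ fb (pth ω S.1 τ) ∈ G ∧
    fa (pth ω S.1 τ) ∉ G ∧ (∀ i < τ, fa (pth ω S.1 i) ∈ G ∨ Wf G S m k (fa (pth ω S.1 i))) ∧
    ∀ i ≤ τ, ∀ j ≤ τ, pth ω S.1 i = pth ω S.1 j → i = j := by
  classical
  by_contra hcon
  set I : Set ℕ := {t | fb (pth ω S.1 t) ∉ G ∧ fa (pth ω S.1 t) ∈ G ∧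
    (∀ i < t, fa (pth ω S.1 i) ∈ G ∨ Wf G S m k (fa (pth ω S.1 i))) ∧
    ∀ i, 0 < i → i ≤ t → pth ω S.1 i ≠ S.1} with hI
  have h0 : 0 ∈ I := ⟨h.fb_tip, h.fa_tip, fun i hi => absurd hi (Nat.not_lt_zero i),
    fun i h1 h2 => by omega⟩
  have hstep : ∀ t ∈ I, ∃ u ∈ I, t < u := by
    rintro t ⟨h1, h2, h3, h4⟩
    rcases h.step h1 h2 h3 h4 with ⟨τ, ht, k1, k2, k3, k4, k5⟩ | ⟨u, hu, k1, k2, k3, k4⟩
    · exfalso
      refine hcon ⟨τ, by omega, k1, k2, k3, k4, ?_⟩
      intro i hi j hj hij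
      rcases lt_trichotomy i j with hlt | heq | hlt
      · exact absurd (pth_inj hij hlt.le) (k5 (j - i) (by omega) (by omega))
      · exact heq
      · exact absurd (pth_inj hij.symm hlt.le) (k5 (i - j) (by omega) (by omega))
    · exact ⟨u, ⟨k1, k2, k3, k4⟩, hu⟩
  have hinf : I.Infinite := by
    apply Set.infinite_of_not_bddAbove
    rintro ⟨b, hb⟩
    have key : ∀ n : ℕ, ∃ t ∈ I, n ≤ t := by
      intro n
      induction n with
      | zero => exact ⟨0, h0, le_rfl⟩
      | succ n ih =>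
        obtain ⟨t, ht, hnt⟩ := ih
        obtain ⟨u, hu, htu⟩ := hstep t ht
        exact ⟨u, hu, by omega⟩
    obtain ⟨t, ht, hbt⟩ := key (b + 1)
    have := hb ht
    omega
  have hfin : {a : UE | fa a ∈ G}.Finite := by
    refine ((finite_ahead h.fin).image Prod.fst).subset fun a ha => ?_
    rcases eq_ahead (isSide_fa a) with h1 | h1
    · exact ⟨(a, true), by
        change ahead (a, true) ∈ G
        rw [← h1]
        exact ha, rfl⟩
    · exact ⟨(a, false), by
        change ahead (a, false) ∈ G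
        rw [← h1]
        exact ha, rfl⟩
  obtain ⟨s, hs, t, ht, hst, he⟩ := hinf.exists_ne_map_eq_of_mapsTo (f := fun t => pth ω S.1 t)
    (t := {a : UE | fa a ∈ G}) (fun t ht => ht.2.1) hfin
  rcases Nat.lt_or_gt_of_ne hst with hlt | hlt
  · exact ht.2.2.2 (t - s) (by omega) (by omega) (pth_inj he hlt.le)
  · exact hs.2.2.2 (s - t) (by omega) (by omega) (pth_inj he.symm hlt.le)

end Ends

end Pool.Agent.SixB.StU
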