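import Pool.Agent.Lib.SixB.S8ParApp
import Pool.Agent.Lib.SixB.S8WallSide
import Pool.Agent.Lib.SixB.S8StartU
import Pool.Agent.Lib.SixB.S8MoveB

/-!
# Step 8: the displacement of a move

* `par_arc`: parity along the contour of a polygon with an arc of uncrossed sides; the ends of the arc
  are joined to vertices of the two sides of the strand by uncrossed paths.
* `Mid`: the time `t` is between a stop (time `s`) and the next stop, which is regular.
* `Mid.right_unc`, `Mid.left_unc`, `Mid.cap_path`, `Mid.end_right`, `Mid.end_left`: the ends of the stop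
  arc are joined to the walls of the time `s` by paths which are not crossed up to `t`.
* `away`: without gates at the contour of the inner domain the strand is in the inner domain or at an
  end of the stop arc.
-/

set_option autoImplicit false

namespace Pool.Agent.SixB.Dsp

open Finset Pool.Agent.Perc Pool.Agent.PercT Pool.Agent.Perc6 Pool.Agent.SixB
  Pool.Agent.SixB.NearCut Pool.Agent.SixB.Mv Pool.Agent.SixB.Top Pool.Agent.SixB.Par
open Pool.Agent.Perc.Tips (ahead rv)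
open Pool.Agent.SixB.LC (side_cor)
open Pool.Agent.SixB.CloK

variable {E : Ex} {ω : Cfg} {P : Set (ℤ × ℤ)} {A B : UE × Bool} {d r : ℤ} {m s t x y : ℕ} {a b v : ℤ × ℤ}

/-- The uncrossed unit edges of a box. -/
def Unc (E : Ex) (ω : Cfg) (t : ℕ) (z : ℤ × ℤ) (r : ℤ) : Set UE :=
  {e | InB z r e ∧ ∀ l ≤ t, E.p ω l ≠ e}

theorem wk_of_pth (h : Pth (Unc E ω t v d) a b) : Wk {e | InB v d e} (cr E ω t) a b 0 := by
  induction h with
  | refl => exact Wk.nil _
  | tail _ hs ih =>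
    obtain ⟨e, ⟨he, hu⟩, hj⟩ := hs
    have h1 : cr E ω t e = 0 := ind2_neg fun ⟨l, hl, h⟩ => hu l hl h
    have h2 := ih.trans (Wk.single (χ := cr E ω t) (Eg := {e | InB v d e}) he hj)
    rwa [h1, add_zero] at h2

/-- The number of a vertex which is joined to a side by an uncrossed path. -/
theorem sg_of_pth (hg : ¬ E.Gate ω t v d) (hp : Pth (Unc E ω t v d) v a) (ha : Sd E ω t a) {d' : ℤ}
    (hd : d' ≤ d) (hv : Anc E ω t d' v) : sg E ω t d' v = cl a := by
  obtain ⟨y, τ, h1, h2, h3⟩ := sg_spec hv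
  have e1 : {e | InB v d' e} ⊆ {e | InB v d e} := fun e he => he.mono hd
  have h4 := (h2.mono e1).symm.trans (wk_of_pth hp)
  have h5 := par_path hg h4 h1 ha
  rw [h3]
  rw [add_zero] at h5
  rw [h5]
  generalize cl y = x1
  generalize cl a = x2
  revert x1 x2
  decide

/-- **Parity along a contour with an uncrossed arc.** -/
theorem par_arc (hP : P.Finite) (hPc : Top.EConn P) (hPe : Esc P) (hC : Cyc P A m)
    (hn : Nb (E.cf ω) (E.e ω) t) (hxy : x ≤ y) (hym : y < m)
    (hun : ∀ j, x ≤ j → j < y → ∀ l ≤ t, E.p ω l ≠ (side P A j).1)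
    (hanc : ∀ j < m, (j ≤ x ∨ y ≤ j) → Anc E ω t d (vert P A j))
    (hng : ∀ j < m, (j ≤ x ∨ y ≤ j) → ¬ E.Gate ω t (vert P A j) (d + 1))
    (hxa : Pth (Unc E ω t (vert P A x) (d + 1)) (vert P A x) a) (ha : Sd E ω t a)
    (hyb : Pth (Unc E ω t (vert P A y) (d + 1)) (vert P A y) b) (hb : Sd E ω t b) :
    ind2 (fa (E.p ω t) ∈ P) = ind2 (fb (E.e ω) ∈ P) + (cl a + cl b) := by
  set σ := sg E ω t d with hσ
  set ε : ℕ → ZMod 2 := fun j => cr E ω t (side P A j).1 + σ (vert P A j) + σ (vert P A (j + 1))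
    with hε
  have h1 := par_poly (E := E) (ω := ω) hP hPc hPe hC hn σ ε (fun j _ => by
    simp only [hε]
    generalize cr E ω t (side P A j).1 = x0
    generalize σ (vert P A j) = x1
    generalize σ (vert P A (j + 1)) = x2
    revert x0 x1 x2
    decide)
  have hm : 0 < m := hC.pos
  -- outside of the arc
  have hv0 : ∀ j, j ≤ m → (j ≤ x ∨ y ≤ j) → Anc E ω t d (vert P A j) := by
    intro j hj h
    rcases Nat.lt_or_ge j m with h2 | h2
    · exact hanc j h2 h
    · have h3 : j = m := by omega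
      have h4 : vert P A m = vert P A 0 := by
        unfold vert
        rw [hC.per]
        rfl
      rw [h3, h4]
      exact hanc 0 hm (Or.inl (Nat.zero_le _))
  have hout : ∀ j < m, (j < x ∨ y ≤ j) → ε j = 0 := by
    intro j hj h
    have h2 := cr_eq (E := E) (ω := ω) (t := t) (joins_side j) (hv0 j (by omega) (by omega))
      (hv0 (j + 1) (by omega) (by omega)) (hng j hj (by omega))
    simp only [hε, h2, hσ]
    generalize sg E ω t d (vert P A j) = x1
    generalize sg E ω t d (vert P A (j + 1)) = x2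
    revert x1 x2
    decide
  have hin : ∀ j, x ≤ j → j < y → ε j = σ (vert P A j) + σ (vert P A (j + 1)) := by
    intro j h2 h3
    have h4 : cr E ω t (side P A j).1 = 0 := ind2_neg fun ⟨l, hl, h⟩ => hun j h2 h3 l hl h
    simp only [hε, h4, zero_add]
  have htel : ∀ k, x ≤ k → k ≤ y → ∑ j ∈ Finset.Ico x k, ε j = σ (vert P A x) + σ (vert P A k) := by
    intro k hk
    induction k, hk using Nat.le_induction with
    | base =>
      intro _
      rw [Finset.Ico_self, Finset.sum_empty, z2_add_self]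
    | succ k hk ih =>
      intro hky
      rw [Finset.sum_Ico_succ_top hk, ih (by omega), hin k hk (by omega)]
      generalize σ (vert P A x) = x1
      generalize σ (vert P A k) = x2
      generalize σ (vert P A (k + 1)) = x3
      revert x1 x2 x3
      decide
  have hsum : ∑ j ∈ range m, ε j = ∑ j ∈ Finset.Ico x y, ε j := by
    symm
    refine Finset.sum_subset (fun j hj => ?_) fun j hj hj' => ?_
    · rw [Finset.mem_Ico] at hj
      exact Finset.mem_range.2 (by omega)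
    · rw [Finset.mem_Ico] at hj'
      exact hout j (Finset.mem_range.1 hj) (by omega)
  have ex : σ (vert P A x) = cl a := sg_of_pth (hng x (by omega) (Or.inl le_rfl)) hxa ha (by omega)
    (hanc x (by omega) (Or.inl le_rfl))
  have ey : σ (vert P A y) = cl b := sg_of_pth (hng y hym (Or.inr le_rfl)) hyb hb (by omega)
    (hanc y hym (Or.inr le_rfl))
  rw [h1, hsum, htel y hxy le_rfl, ex, ey]

/-! ### Geometry -/

/-- Two faces at a vertex: every other face at this vertex has a common side with one of them. -/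
theorem adj_of_corner {f z g v : ℤ × ℤ} (hf : IsCor f v) (hz : IsCor z v) (hg : IsCor g v)
    (hne : f ≠ z) (hgf : g ≠ f) (hgz : g ≠ z) : AdjF f g ∨ AdjF z g := by
  have hfz : Adj f g ∨ Adj z g := by
    obtain ⟨f1, f2⟩ := f
    obtain ⟨z1, z2⟩ := z
    obtain ⟨g1, g2⟩ := g
    obtain ⟨v1, v2⟩ := v
    obtain ⟨ha, hb⟩ := hf
    obtain ⟨hc, hd⟩ := hz
    obtain ⟨he, hh⟩ := hg
    rw [ne_eq, Prod.mk.injEq] at hne hgf hgz
    unfold Adj
    dsimp only at *
    rcases ha with ha | ha <;> rcases hb with hb | hb <;> rcases hc with hc | hc <;>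
      rcases hd with hd | hd <;> rcases he with he | he <;> rcases hh with hh | hh <;>
      first
        | exact absurd ⟨by omega, by omega⟩ hne
        | exact absurd ⟨by omega, by omega⟩ hgf
        | exact absurd ⟨by omega, by omega⟩ hgz
        | exact Or.inl (Or.inl ⟨by omega, by omega⟩)
        | exact Or.inl (Or.inr ⟨by omega, by omega⟩)
        | exact Or.inr (Or.inl ⟨by omega, by omega⟩)
        | exact Or.inr (Or.inr ⟨by omega, by omega⟩)
  rcases hfz with h | h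
  · exact Or.inl (adj_iff_adjFL.1 h)
  · exact Or.inr (adj_iff_adjFL.1 h)

/-- Two corners of a face are joined by sides of the face. -/
theorem pth_face {f p q : ℤ × ℤ} (hp : IsCor f p) (hq : IsCor f q) : Pth {e | IsSide f e} p q := by
  have key : ∀ {p q : ℤ × ℤ}, IsCor f p → IsCor f q → par p ≠ par q → Pth {e | IsSide f e} p q := by
    intro p q hp hq h
    obtain ⟨a, ha, hj⟩ := exists_side hp hq h
    exact Relation.ReflTransGen.single ⟨a, ha, hj⟩
  by_cases h : par p = par q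
  · obtain ⟨r, hr, h1⟩ : ∃ r, IsCor f r ∧ par p ≠ par r := by
      obtain ⟨f1, f2⟩ := f
      by_cases h2 : par p = par (f1, f2)
      · refine ⟨(f1 + 1, f2), ⟨Or.inr rfl, Or.inl rfl⟩, ?_⟩
        rw [h2]
        unfold par
        simp only
        omega
      · exact ⟨(f1, f2), ⟨Or.inl rfl, Or.inl rfl⟩, h2⟩
    exact (key hp hr h1).trans (key hr hq (by rw [← h]; exact h1.symm))
  · exact key hp hq h

/-- Corners of faces of a chain are joined by sides of these faces. -/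
theorem pth_chain {S : Set (ℤ × ℤ)} {f g p q : ℤ × ℤ} (h : ChI S f g) (hf : f ∈ S) (hp : IsCor f p)
    (hq : IsCor g q) : Pth {e | ∃ k ∈ S, IsSide k e} p q := by
  have key : g ∈ S ∧ ∀ q, IsCor g q → Pth {e | ∃ k ∈ S, IsSide k e} p q := by
    clear hq
    induction h with
    | refl => exact ⟨hf, fun q hq => (pth_face hp hq).mono fun e he => ⟨f, hf, he⟩⟩
    | @tail g g' _ hs ih =>
      obtain ⟨⟨hne, a, ha, ha'⟩, hg'⟩ := hs
      refine ⟨hg', fun q hq => ?_⟩
      have h1 := (side_cor ha (Or.inl ⟨rfl, rfl⟩)).1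
      have h2 := (side_cor ha' (Or.inl ⟨rfl, rfl⟩)).1
      exact (ih.2 _ h1).trans ((pth_face h2 hq).mono fun e he => ⟨g', hg', he⟩)
  exact key.2 q hq

/-- Every boundary side is the next side of another one. -/
theorem exists_prev {F : Set (ℤ × ℤ)} (hF : F.Finite) (hc : Top.EConn F) (he : Esc F)
    {A : UE × Bool} (hA : BD F A) : ∃ B, BD F B ∧ sc F B = A := by
  obtain ⟨m, hm⟩ := exists_cyc hF hc he hA
  obtain ⟨k, hk⟩ : ∃ k, m = k + 1 := ⟨m - 1, by have := hm.pos; omega⟩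
  refine ⟨side F A k, bd_side hA k, ?_⟩
  rw [← side_succ, ← hk]
  exact hm.per

theorem no_pinch_lf {F : Set (ℤ × ℤ)} (hF : F.Finite) (hc : Top.EConn F) (he : Esc F)
    {A B : UE × Bool} (hA : BD F A) (hB : BD F B) (h : lf A = lf B) : A = B := by
  obtain ⟨A₀, hA₀, rfl⟩ := exists_prev hF hc he hA
  obtain ⟨B₀, hB₀, rfl⟩ := exists_prev hF hc he hB
  rw [lf_sc, lf_sc] at h
  rw [no_pinch hF hc he hA₀ hB₀ h]

theorem inB_joins {e : UE} (hj : Joins e a b) : InB a 1 e := by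
  have h1 := joins_near hj
  unfold InB InR
  rcases h1.2.2 with h2 | h2 <;> rw [h2] <;> have h3 := abs_le.1 h1.1 <;>
    have h4 := abs_le.1 h1.2.1 <;> omega

/-! ### Between a stop and the next stop -/

/-- The fresh component `U` at the time `s` with the tip side `τ`; up to the time `t` the strand visits
only faces of `T₀` inside of `U`. -/
structure Mid (E : Ex) (ω : Cfg) (s t : ℕ) (U T₀ : Set (ℤ × ℤ)) (τ : UE × Bool) : Prop where
  wll : E.Wll ω
  he : fb (E.e ω) ∉ E.U ω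
  nb : Nb (E.cf ω) (E.e ω) t
  st : s ≤ t
  sub : U ⊆ E.Fr ω s
  frz : ∀ f ∈ U, ∀ g, AdjF f g → g ∉ U → g ∉ E.Fr ω s
  fin : U.Finite
  ec : Top.EConn U
  esc : Esc U
  bd : BD U τ
  tip : E.p ω s = τ.1
  prt : Perc.par (rg τ) = 0
  bef : ∀ l, s ≤ l → l ≤ t → fa (E.p ω l) ∈ U → fa (E.p ω l) ∈ T₀
  TU : T₀ ⊆ U
  ecT : Top.EConn T₀
  escT : Esc T₀

section Mid

variable {U T₀ : Set (ℤ × ℤ)} {τ B C S : UE × Bool} {f g : ℤ × ℤ} {e : UE} {l : ℕ}

/-- A side of a fresh face is not crossed before, except at the tip. -/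
theorem unc_fresh (he : fb (E.e ω) ∉ E.U ω) (hf : f ∈ E.Fr ω s) (ha : IsSide f e) (hl : l ≤ s)
    (h : E.p ω l = e) : l = s ∧ fa (E.p ω s) = f := by
  rcases isSide_iff.1 ha with h1 | h1
  · rw [← h] at h1
    rcases Nat.eq_or_lt_of_le hl with rfl | hlt
    · exact ⟨rfl, h1.symm⟩
    · exact absurd (h1 ▸ hf) (fa_not_fr hlt)
  · rw [← h] at h1
    rcases Nat.eq_zero_or_pos l with h0 | h0
    · subst h0
      exact absurd (h1 ▸ hf.1) he
    · obtain ⟨l, rfl⟩ : ∃ l', l = l' + 1 := ⟨l - 1, by omega⟩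
      have h2 : fb (E.p ω (l + 1)) = fa (E.p ω l) := fb_pth_succ _ _ _
      rw [h2] at h1
      exact absurd (h1 ▸ hf) (fa_not_fr (by omega))

variable (M : Mid E ω s t U T₀ τ)

include M

/-- The sides of a face of `U` outside of `T₀` are not crossed. -/
theorem Mid.unc (hf : f ∈ U) (hfT : f ∉ T₀) (ha : IsSide f e) : ∀ l ≤ t, E.p ω l ≠ e := by
  intro l hl h
  rcases Nat.lt_or_ge s l with h1 | h1
  · rcases isSide_iff.1 ha with h2 | h2
    · rw [← h] at h2
      exact hfT (h2 ▸ M.bef l h1.le hl (h2 ▸ hf))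
    · rw [← h] at h2
      obtain ⟨l, rfl⟩ : ∃ l', l = l' + 1 := ⟨l - 1, by omega⟩
      have h3 : fb (E.p ω (l + 1)) = fa (E.p ω l) := fb_pth_succ _ _ _
      rw [h3] at h2
      exact hfT (h2 ▸ M.bef l (by omega) (by omega) (h2 ▸ hf))
  · obtain ⟨-, h2⟩ := unc_fresh M.he (M.sub hf) ha h1 h
    exact hfT (h2 ▸ M.bef s le_rfl M.st (h2 ▸ hf))

/-- A boundary side of `U` is not crossed up to the time `s`, except at the tip. -/
theorem Mid.unc_bd (hB : BD U B) (hne : B ≠ τ) : ∀ l ≤ s, E.p ω l ≠ B.1 := by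
  intro l hl h
  obtain ⟨h1, -⟩ := unc_fresh M.he (M.sub hB.1) (sideA B) hl h
  rw [h1, M.tip] at h
  exact hne (hB.eq_of_fst M.bd h.symm)

/-- The faces at a vertex of the contour of `U` next to a second face of `U` are not fresh. -/
theorem Mid.frz_cor {v z : ℤ × ℤ} (hf : f ∈ U) (hz : z ∈ U) (hfv : IsCor f v) (hzv : IsCor z v)
    (hne : f ≠ z) (hg : g ∉ U) (hgv : IsCor g v) : g ∉ E.Fr ω s := by
  rcases adj_of_corner hfv hzv hgv hne (fun h => hg (h ▸ hf)) (fun h => hg (h ▸ hz)) with h | h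
  · exact M.frz f hf g h hg
  · exact M.frz z hz g h hg

/-- **The right end of the stop arc.** `B` is the last side before the stop arc, `S` the first stop
side. If `B` is a side of `U` at the right wall and its right end is odd then `B` is not crossed up to
`t`, unless the tip of the time `t` is at this end. -/
theorem Mid.right_unc (hB : BD U B) (hp : Perc.par (rg B) = 1) (hS : BD T₀ S) (hlS : lf S = rg B)
    (hSU : ahead (rv S) ∈ U) (hSB : ahead (rv S) ≠ ahead B) (hev : E.Sid 0 ω s (lf B))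
    (hg : ¬ E.Gate ω s (rg B) 1) (hnear : ¬ IsCor (fa (E.p ω t)) (rg B)) :
    ∀ l ≤ t, E.p ω l ≠ B.1 := by
  intro l hl h
  have hBτ : B ≠ τ := by
    rintro rfl
    have := M.prt
    omega
  have hls : s < l := by
    by_contra hc
    exact M.unc_bd hB hBτ l (by omega) h
  have hbox : InB (rg B) 1 B.1 := inB_joins (joins_lf_rg B).symm
  have hfan : ∀ f, f ∉ U → IsCor f (rg B) → E.cf ω f = !parD 0 f := by
    intro f hf hfc
    have hz : IsCor (ahead (rv S)) (rg B) := by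
      rw [← hlS]
      exact isCor_out_lf S
    have hfr := M.frz_cor hB.1 hSU (isCor_in_rg B) hz hSB.symm hf hfc
    rcases cl_or (ω := E.cf ω) (f := f) (Or.inl rfl : (0 : ℤ) = 0 ∨ (0 : ℤ) = 1) with h1 | h1
    · exact h1
    · exfalso
      have h2 : E.Sid 1 ω s (rg B) :=
        S8WallSide.sid_face M.wll (Or.inr rfl) hfr h1 hfc hp
      refine hg ⟨_, _, hev, h2, Relation.ReflTransGen.single ⟨B.1, ⟨hbox, M.unc_bd hB hBτ⟩, ?_⟩⟩
      exact joins_lf_rg B
  obtain ⟨j, hj0, hj, hji⟩ := StU.rot_even (ω := E.cf ω) M.fin M.ec M.esc hB hp hfan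
  have hadd : ∀ i, pth (E.cf ω) B.1 i = E.p ω (l + i) := by
    intro i
    rw [← h]
    exact pth_add _ _ _ _
  rcases Nat.lt_or_ge t (l + j) with h1 | h1
  · refine hnear ?_
    have h2 := (hji (t - l) (by omega)).2
    rw [hadd, show l + (t - l) = t by omega] at h2
    exact h2
  · have hS' : BD U (sc U B) := bd_side hB 1
    have hp' : Perc.par (rg (sc U B)) = 0 := by
      have h2 := (joins_lf_rg (sc U B)).par_ne
      rw [lf_sc] at h2
      have h3 := par_cases (rg (sc U B))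
      omega
    have h2 := M.bef (l + j) (by omega) h1
    rw [← hadd, hj, StU.fa_can hp'] at h2
    have h3 : ahead (sc U B) ∈ T₀ := h2 hS'.1
    have h4 : BD T₀ (sc U B) := ⟨h3, fun h => hS'.2 (M.TU h)⟩
    have h5 := no_pinch_lf (M.fin.subset M.TU) M.ecT M.escT h4 hS (by rw [lf_sc, hlS])
    rw [← h5] at hSU
    exact hS'.2 hSU

/-- **The left end of the stop arc.** `B` is the first side after the stop arc, `S` the last stop
side. -/
theorem Mid.left_unc (hB : BD U B) (hp : Perc.par (lf B) = 0) (hS : BD T₀ S) (hrS : rg S = lf B)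
    (hSU : ahead (rv S) ∈ U) (hSB : ahead (rv S) ≠ ahead B) (hod : E.Sid 1 ω s (rg B))
    (hg : ¬ E.Gate ω s (lf B) 1) (hnear : ¬ IsCor (fa (E.p ω t)) (lf B)) :
    ∀ l ≤ t, E.p ω l ≠ B.1 := by
  intro l hl h
  have hBτ : B ≠ τ := by
    rintro rfl
    have h1 := M.prt
    have h2 := (joins_lf_rg B).par_ne
    omega
  have hls : s < l := by
    by_contra hc
    exact M.unc_bd hB hBτ l (by omega) h
  have hbox : InB (lf B) 1 B.1 := inB_joins (joins_lf_rg B)
  obtain ⟨B₀, hB₀, hsc⟩ := exists_prev M.fin M.ec M.esc hB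
  have hr₀ : rg B₀ = lf B := by rw [← hsc, lf_sc]
  have hfan : ∀ f, f ∉ U → IsCor f (rg B₀) → E.cf ω f = parD 0 f := by
    intro f hf hfc
    rw [hr₀] at hfc
    have hz : IsCor (ahead (rv S)) (lf B) := by
      rw [← hrS]
      exact isCor_out_rg S
    have hfr := M.frz_cor hB.1 hSU (isCor_in_lf B) hz hSB.symm hf hfc
    by_contra hno
    have h1 : NearCut.Cl (E.cf ω) 0 f := by
      unfold NearCut.Cl
      revert hno
      cases E.cf ω f <;> cases parD 0 f <;> simp
    have h2 : E.Sid 0 ω s (lf B) :=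
      S8WallSide.sid_face M.wll (Or.inl rfl) hfr h1 hfc hp
    refine hg ⟨_, _, h2, hod, Relation.ReflTransGen.single ⟨B.1, ⟨hbox, M.unc_bd hB hBτ⟩, ?_⟩⟩
    exact joins_lf_rg B
  obtain ⟨j, hj0, hj, hji⟩ := StU.rot_odd (ω := E.cf ω) M.fin M.ec M.esc hB₀ (by rw [hr₀, hp]) hfan
  rw [hsc] at hj hji
  have hadd : ∀ i, pth (E.cf ω) B.1 i = E.p ω (l + i) := by
    intro i
    rw [← h]
    exact pth_add _ _ _ _
  rcases Nat.lt_or_ge t (l + j) with h1 | h1
  · refine hnear ?_
    have h2 := (hji (t - l) (by omega)).2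
    rw [hadd, show l + (t - l) = t by omega, hr₀] at h2
    exact h2
  · have hp' : Perc.par (rg B₀) = 0 := by rw [hr₀, hp]
    have h2 := M.bef (l + j) (by omega) h1
    rw [← hadd, hj, StU.fa_can hp'] at h2
    have h3 : ahead B₀ ∈ T₀ := h2 hB₀.1
    have h4 : BD T₀ B₀ := ⟨h3, fun h => hB₀.2 (M.TU h)⟩
    have h5 := no_pinch (M.fin.subset M.TU) M.ecT M.escT h4 hS (by rw [hr₀, hrS])
    rw [← h5] at hSU
    exact hB₀.2 hSU

end Mid

/-! ### The ends of the stop arc and the displacement -/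

section Move

variable {ι : Type*} {U P D Y T₀ : Set (ℤ × ℤ)} {κ : ℤ × ℤ → ι} {τ B C S A : UE × Bool}
  {p q n N₁ N₂ mU kt : ℕ}

/-- The cap behind a side of `P`: uncrossed paths between its corners. -/
theorem Mid.cap_path (M : Mid E ω s t U T₀ τ) (hd : App U P κ d) (hg : ahead (rv B) ∈ U)
    (hC : ahead C ∈ capC U κ (ahead (rv B))) (hcap : ∀ f ∈ capC U κ (ahead (rv B)), f ∉ T₀)
    (hv : IsCor (ahead (rv B)) v) (ha : IsCor (ahead C) a) : Pth (Unc E ω t v (d + 1)) v a := by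
  have hx : ahead (rv B) ∈ {x | κ x = κ (ahead (rv B))} ∩ U := ⟨rfl, hg⟩
  have h1 : ChI (capC U κ (ahead (rv B))) (ahead (rv B)) (ahead C) :=
    econn_compT hx _ (ChI.refl _) _ hC
  refine (pth_chain h1 (ChI.refl _) hv ha).mono ?_
  rintro e ⟨k, hk, hke⟩
  obtain ⟨h2, h3⟩ := capC_sub hg hk
  refine ⟨?_, M.unc h3 (hcap k hk) hke⟩
  have h4 := hd.diam _ _ h2
  have h5 := (side_cor hke (Or.inl ⟨rfl, rfl⟩)).1
  rw [abs_lt, abs_lt] at h4
  unfold IsCor at hv h5
  unfold InB InR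
  omega

theorem Mid.end_right (M : Mid E ω s t U T₀ τ) (hd : App U P κ d) (hl : LinkK U κ B C)
    (hC : BD U C) (hcap : ahead (rv B) ∈ U → ∀ f ∈ capC U κ (ahead (rv B)), f ∉ T₀)
    (hS : BD T₀ S) (hlS : lf S = rg B) (hSU : ahead (rv S) ∈ U) (hSB : ahead (rv S) ≠ ahead B)
    (hev : ∀ v, (v = lf C ∨ v = rg C) → Perc.par v = 0 → E.Sid 0 ω s v)
    (hg : ¬ E.Gate ω s (rg B) 1) (hnear : ¬ IsCor (fa (E.p ω t)) (rg B)) :
    ∃ a, E.Sid 0 ω s a ∧ Pth (Unc E ω t (rg B) (d + 1)) (rg B) a := by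
  have hcol : ∃ v, (v = lf C ∨ v = rg C) ∧ Perc.par v = 0 := by
    have h1 := (joins_lf_rg C).par_ne
    have h2 := par_cases (lf C)
    have h3 := par_cases (rg C)
    rcases h2 with h2 | h2
    · exact ⟨_, Or.inl rfl, h2⟩
    · exact ⟨_, Or.inr rfl, by omega⟩
  rcases hl with rfl | ⟨hgU, hl⟩
  · rcases par_cases (rg B) with h1 | h1
    · exact ⟨_, hev _ (Or.inr rfl) h1, Relation.ReflTransGen.refl⟩
    · have h2 : Perc.par (lf B) = 0 := by
        have h3 := (joins_lf_rg B).par_ne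
        have h4 := par_cases (lf B)
        omega
      have h3 := M.right_unc hC h1 hS hlS hSU hSB (hev _ (Or.inl rfl) h2) hg hnear
      refine ⟨_, hev _ (Or.inl rfl) h2, Relation.ReflTransGen.single ⟨B.1, ⟨?_, h3⟩, ?_⟩⟩
      · exact (inB_joins (joins_lf_rg B).symm).mono (by have := hd.d_pos; omega)
      · exact (joins_lf_rg B).symm
  · obtain ⟨v, hv, hp⟩ := hcol
    refine ⟨v, hev v hv hp, M.cap_path hd hgU hl (hcap hgU) (isCor_out_rg B) ?_⟩
    rcases hv with rfl | rfl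
    · exact isCor_in_lf C
    · exact isCor_in_rg C

theorem Mid.end_left (M : Mid E ω s t U T₀ τ) (hd : App U P κ d) (hl : LinkK U κ B C)
    (hC : BD U C) (hcap : ahead (rv B) ∈ U → ∀ f ∈ capC U κ (ahead (rv B)), f ∉ T₀)
    (hS : BD T₀ S) (hrS : rg S = lf B) (hSU : ahead (rv S) ∈ U) (hSB : ahead (rv S) ≠ ahead B)
    (hod : ∀ v, (v = lf C ∨ v = rg C) → Perc.par v = 1 → E.Sid 1 ω s v)
    (hg : ¬ E.Gate ω s (lf B) 1) (hnear : ¬ IsCor (fa (E.p ω t)) (lf B)) :
    ∃ a, E.Sid 1 ω s a ∧ Pth (Unc E ω t (lf B) (d + 1)) (lf B) a := by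
  have hcol : ∃ v, (v = lf C ∨ v = rg C) ∧ Perc.par v = 1 := by
    have h1 := (joins_lf_rg C).par_ne
    have h2 := par_cases (lf C)
    have h3 := par_cases (rg C)
    rcases h2 with h2 | h2
    · exact ⟨_, Or.inr rfl, by omega⟩
    · exact ⟨_, Or.inl rfl, h2⟩
  rcases hl with rfl | ⟨hgU, hl⟩
  · rcases par_cases (lf B) with h1 | h1
    · have h2 : Perc.par (rg B) = 1 := by
        have h3 := (joins_lf_rg B).par_ne
        have h4 := par_cases (rg B)
        omega
      have h3 := M.left_unc hC h1 hS hrS hSU hSB (hod _ (Or.inr rfl) h2) hg hnear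
      refine ⟨_, hod _ (Or.inr rfl) h2, Relation.ReflTransGen.single ⟨B.1, ⟨?_, h3⟩, ?_⟩⟩
      · exact (inB_joins (joins_lf_rg B)).mono (by have := hd.d_pos; omega)
      · exact joins_lf_rg B
    · exact ⟨_, hod _ (Or.inl rfl) h1, Relation.ReflTransGen.refl⟩
  · obtain ⟨v, hv, hp⟩ := hcol
    refine ⟨v, hod v hv hp, M.cap_path hd hgU hl (hcap hgU) (isCor_out_lf B) ?_⟩
    rcases hv with rfl | rfl
    · exact isCor_in_lf C
    · exact isCor_in_rg C

/-- **Displacement of a move.** Before the stop the strand is in the inner domain, or at an end of the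
stop arc, or there is a gate at a vertex of the contour of the inner domain. -/
theorem away (H : Mvd U P D κ d A m p q) (hY : Mv.Att D A p q Y) (hA : ahead A ∉ Y)
    (hC : Contig D A p q Y m n N₁ N₂) (hN : N₂ < n) (hcU : Cyc U τ mU)
    (M : Mid E ω s t U (domT U Y (capK U κ (gR D A Y N₁)) (capK U κ (gL D A Y N₂)) A) τ)
    (lR : ∃ w < kt, LinkK U κ (side (inn D A Y) A (N₁ - 1)) (side U τ w))
    (lL : ∃ w, kt ≤ w ∧ w < mU ∧ LinkK U κ (side (inn D A Y) A N₂) (side U τ w))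
    (hwb : ∀ v, 1 ≤ v → v ≤ kt → Perc.par (vert U τ v) = 0 → E.Sid 0 ω s (vert U τ v))
    (hwl : ∀ v, kt ≤ v → v ≤ mU → Perc.par (vert U τ v) = 1 → E.Sid 1 ω s (vert U τ v))
    (hg1 : ¬ E.Gate ω s (vert (inn D A Y) A N₁) 1) (hg2 : ¬ E.Gate ω s (vert (inn D A Y) A N₂) 1)
    (hgt : ∀ j < n, (j ≤ N₁ ∨ N₂ ≤ j) → ¬ E.Gate ω t (vert (inn D A Y) A j) (d + 1))
    (hn1 : ¬ IsCor (fa (E.p ω t)) (vert (inn D A Y) A N₁))
    (hn2 : ¬ IsCor (fa (E.p ω t)) (vert (inn D A Y) A N₂)) : fa (E.p ω t) ∈ inn D A Y := by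
  by_contra hG
  have hclo := H.clo hY hA hC hN
  have hGU : inn D A Y ⊆ U := hclo.DP.trans hclo.PU
  have hN0 := hC.pos
  have hN12 := hC.lt
  have hGb := hC.cyc.bd
  have hAD : ahead A ∈ D \ Y := ⟨H.cyc.bd.1, hA⟩
  have hgR : gR D A Y N₁ ∉ P := by
    intro h
    have := (H.out_iff hY hC (i := N₁ - 1) (by omega)).1 h
    omega
  have hgL : gL D A Y N₂ ∉ P := by
    intro h
    have := (H.out_iff hY hC (i := N₂) hN).1 h
    omega
  have hAW : ahead A ∈ U \ (Y ∪ capK U κ (gR D A Y N₁) ∪ capK U κ (gL D A Y N₂)) := by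
    refine ⟨H.app.sub (H.DP hAD.1), ?_⟩
    rintro ((h | h) | h)
    · exact hA h
    · exact capK_notP H.app hgR h (H.DP hAD.1)
    · exact capK_notP H.app hgL h (H.DP hAD.1)
  have hTsub : domT U Y (capK U κ (gR D A Y N₁)) (capK U κ (gL D A Y N₂)) A ⊆
      U \ (Y ∪ capK U κ (gR D A Y N₁) ∪ capK U κ (gL D A Y N₂)) := compT_sub hAW
  have hYT : ∀ f ∈ Y, f ∉ domT U Y (capK U κ (gR D A Y N₁)) (capK U κ (gL D A Y N₂)) A :=
    fun f hf hT => (hTsub hT).2 (Or.inl (Or.inl hf))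
  have hYU : Y ⊆ U := fun f hf => hclo.PU (H.DP (hY.sub hf))
  have hYG : ∀ f ∈ Y, f ∉ inn D A Y := fun f hf hfG =>
    (inn_sub (show ahead A ∈ D \ Y from ⟨H.cyc.bd.1, hA⟩) hfG).2 hf
  -- the sides outside of the arc
  have hBP : ∀ j < n, (j < N₁ ∨ N₂ ≤ j) → BD P (side (inn D A Y) A j) := by
    intro j hj h
    refine ⟨hclo.DP (bd_side hGb j).1, fun h1 => ?_⟩
    have := (H.out_iff hY hC hj).1 h1
    omega
  have hanc0 : ∀ B, BD P B → Anc E ω t d (lf B) := fun B hB =>
    anc_of_comp M.wll H.app (fun f hf g hfg hgU => M.frz f hf g (adj_iff_adjFL.1 hfg) hgU) M.st hB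
  have hanc : ∀ j < n, (j ≤ N₁ ∨ N₂ ≤ j) → Anc E ω t d (vert (inn D A Y) A j) := by
    intro j hj h
    rcases (by omega : j = N₁ ∨ (j < N₁ ∨ N₂ ≤ j)) with rfl | h1
    · have h2 := hanc0 _ (BD.step (hBP (j - 1) (by omega) (Or.inl (by omega))))
      rw [lf_sc] at h2
      have h3 : vert (inn D A Y) A j = rg (side (inn D A Y) A (j - 1)) := by
        rw [← vert_succ, Nat.sub_add_cancel (by omega)]
      rw [h3]
      exact h2
    · exact hanc0 _ (hBP j hj h1)
  have hun : ∀ j, N₁ ≤ j → j < N₂ → ∀ l ≤ t, E.p ω l ≠ (side (inn D A Y) A j).1 := by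
    intro j h1 h2
    have h3 := hC.mid j h1 h2
    exact M.unc (hYU h3) (hYT _ h3) (sideB _)
  -- the ends
  have hevn : ∀ w < kt, ∀ v, (v = lf (side U τ w) ∨ v = rg (side U τ w)) → Perc.par v = 0 →
      E.Sid 0 ω s v := by
    rintro w hw v (rfl | rfl) hp
    · rcases Nat.eq_zero_or_pos w with rfl | h0
      · exfalso
        have h1 := M.prt
        have h2 := (joins_lf_rg τ).par_ne
        exact h2 (hp.trans h1.symm)
      · exact hwb w h0 hw.le hp
    · rw [← vert_succ] at hp ⊢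
      exact hwb (w + 1) (by omega) hw hp
  have hodd : ∀ w, kt ≤ w → w < mU → ∀ v, (v = lf (side U τ w) ∨ v = rg (side U τ w)) →
      Perc.par v = 1 → E.Sid 1 ω s v := by
    rintro w hw hw' v (rfl | rfl) hp
    · exact hwl w hw hw'.le hp
    · rw [← vert_succ] at hp ⊢
      exact hwl (w + 1) (by omega) hw' hp
  have hcapR : ∀ g, g = gR D A Y N₁ → g ∈ U → ∀ f ∈ capC U κ g,
      f ∉ domT U Y (capK U κ (gR D A Y N₁)) (capK U κ (gL D A Y N₂)) A := by
    rintro g rfl hgU f hf hT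
    exact (hTsub hT).2 (Or.inl (Or.inr (Or.inl ⟨hgU, hf⟩)))
  have hcapL : ∀ g, g = gL D A Y N₂ → g ∈ U → ∀ f ∈ capC U κ g,
      f ∉ domT U Y (capK U κ (gR D A Y N₁)) (capK U κ (gL D A Y N₂)) A := by
    rintro g rfl hgU f hf hT
    exact (hTsub hT).2 (Or.inr (Or.inl ⟨hgU, hf⟩))
  have hrun := fun j (hj : j ≤ N₂ - N₁ + 1) => (hclo.run hj).2
  have hS1 : BD (domT U Y (capK U κ (gR D A Y N₁)) (capK U κ (gL D A Y N₂)) A)
      (side (inn D A Y) A N₁) := by
    have := hrun 1 (by omega)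
    rw [Nat.sub_add_cancel (by omega)] at this
    exact this
  have hS2 : BD (domT U Y (capK U κ (gR D A Y N₁)) (capK U κ (gL D A Y N₂)) A)
      (side (inn D A Y) A (N₂ - 1)) := by
    have := hrun (N₂ - N₁) (by omega)
    rw [show N₁ - 1 + (N₂ - N₁) = N₂ - 1 by omega] at this
    exact this
  have hv1 : vert (inn D A Y) A N₁ = rg (side (inn D A Y) A (N₁ - 1)) := by
    rw [← vert_succ, Nat.sub_add_cancel (by omega)]
  obtain ⟨w, hw, hlw⟩ := lR
  obtain ⟨w', hw', hwm, hlw'⟩ := lL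
  obtain ⟨a, ha, hpa⟩ := M.end_right (B := side (inn D A Y) A (N₁ - 1)) H.app hlw
    (bd_side hcU.bd w) (hcapR _ rfl) hS1 hv1
    (hYU (hC.mid N₁ le_rfl hN12))
    (fun h => hYG _ (hC.mid N₁ le_rfl hN12) (by
      show ahead (rv (side (inn D A Y) A N₁)) ∈ _
      rw [h]
      exact (bd_side hGb _).1))
    (hevn w hw) (by rw [← hv1]; exact hg1) (by rw [← hv1]; exact hn1)
  obtain ⟨b, hb, hpb⟩ := M.end_left (B := side (inn D A Y) A N₂) H.app hlw'
    (bd_side hcU.bd w') (hcapL _ rfl) hS2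
    (by
      show rg (side (inn D A Y) A (N₂ - 1)) = vert (inn D A Y) A N₂
      rw [← vert_succ, Nat.sub_add_cancel (by omega)])
    (hYU (hC.mid (N₂ - 1) (by omega) (by omega)))
    (fun h => hYG _ (hC.mid (N₂ - 1) (by omega) (by omega)) (by
      show ahead (rv (side (inn D A Y) A (N₂ - 1))) ∈ _
      rw [h]
      exact (bd_side hGb _).1))
    (hodd w' hw' hwm) hg2 hn2
  rw [← hv1] at hpa
  have key := par_arc (E := E) (ω := ω) (t := t) (d := d) (a := a) (b := b)
    (M.fin.subset hGU) hclo.ecD hclo.escD hC.cyc M.nb hN12.le hN hun hanc hgt hpa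
    ⟨0, Or.inl rfl, ha.mono M.st⟩ hpb ⟨1, Or.inr rfl, hb.mono M.st⟩
  have hfbG : fb (E.e ω) ∉ inn D A Y := fun h => M.he (M.sub (hGU h)).1
  rw [ind2_neg hG, ind2_neg hfbG] at key
  have h1 : cl a = 0 := ind2_neg (by rw [sid_par (Or.inl rfl) ha]; decide)
  have h2 : cl b = 1 := ind2_pos (sid_par (Or.inr rfl) hb)
  rw [h1, h2] at key
  exact absurd key (by decide)

end Move

end Pool.Agent.SixB.Dsp
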