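import Pool.Agent.Lib.SixB.S8Kernel
import Pool.Agent.Lib.SixB.S8BoxP
import Pool.Agent.Lib.SixB.S8BlowT

/-!
# Step 8: convergence of the coarse law of the record

`F` is a fixed finite edge connected set of cells without holes, `A` the tip side, `L` the number of its sides,
`0 < l₁ ≤ y ≤ l₃ < L` marks on the contour, `blow (m n) F` the magnified domain, contour from `subE (m n) A 0`.

* `conv_Xc`: the crossing probability `Xmk` of S8Kernel (with the constants at the end marks) converges;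
* `conv_kernel`: the Moebius sum of `Xmk (y₁ q) - Xmk (y₂ q)` converges;
* `conv_kernel_contig`: the same for the inner domains `inn D A (Y q)` of a domain `D` (`Contig`).
-/

set_option autoImplicit false

namespace Pool.Agent.SixB

open Filter Finset Pool.Agent.Perc Pool.Agent.Perc6 Pool.Agent.Perc6.C2Aux Pool.Agent.Perc.Tips
open Pool.Agent.SixB.Top Pool.Agent.SixB.Mv

/-- **The crossing probability of the coarse domain converges.** -/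
theorem conv_Xc (hCA : CAOut) {F : Set (ℤ × ℤ)} (hF : F.Finite) (hc : Top.EConn F) (he : Esc F)
    {A : UE × Bool} (hA : BD F A) {L : ℕ} {w : ℕ → ℤ × ℤ} (hw : Ctr F L w) {l₁ l₃ y : ℕ} (h1 : 0 < l₁)
    (h1y : l₁ ≤ y) (hy3 : y ≤ l₃) (h3 : l₃ < L) {m : ℕ → ℕ} {c : ℕ → ℤ} {P : ℕ → Finset (ℤ × ℤ)}
    (hm : Tendsto m atTop atTop) (hcc : ∀ n, c n = 0 ∨ c n = 1)
    (hP : ∀ n, 0 < m n → (P n : Set (ℤ × ℤ)) = blow (m n) F) :
    Conv fun n => Xmk (c n) (P n) (vert (blow (m n) F) (Blow.subE (m n) A 0)) (m n * l₁) (m n * l₃)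
      (m n * y) := by
  by_cases hy1 : y = l₁
  · refine (Conv.const 1).congr' ?_
    filter_upwards with n
    unfold Xmk
    rw [if_pos (by rw [hy1])]
  by_cases hy2 : y = l₃
  · refine (Conv.const 0).congr' ?_
    filter_upwards [hm.eventually_ge_atTop 1] with n hn
    unfold Xmk
    have hne : m n * y ≠ m n * l₁ := fun h => hy1 (Nat.eq_of_mul_eq_mul_left hn h)
    rw [if_neg hne, if_pos (by rw [hy2])]
  have hlt1 : l₁ < y := lt_of_le_of_ne h1y (Ne.symm hy1)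
  have hlt2 : y < l₃ := lt_of_le_of_ne hy3 hy2
  obtain ⟨p, -, -, hp⟩ := tendsto_XA_set hCA hF hc he hA hw (a₀ := 0) (a₁ := l₁) (b₀ := y) (b₁ := l₃)
    h1.le h1y hy3 (by omega) (Or.inl ⟨h1, hlt2⟩)
  classical
  refine ⟨p, ?_⟩
  have h := hp m c (fun n => if 0 < m n then P n else ∅) hm hcc (fun n hn => by
    rw [if_pos hn, hP n hn])
  refine h.congr' ?_
  filter_upwards [hm.eventually_ge_atTop 1] with n hn
  have hn' : 0 < m n := hn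
  unfold Xmk
  rw [if_pos hn', if_neg (fun h => hy1 (Nat.eq_of_mul_eq_mul_left hn' h)),
    if_neg (fun h => hy2 (Nat.eq_of_mul_eq_mul_left hn' h)), hP n hn', Nat.mul_zero]
  rfl

/-- **The coarse law of the record converges.** -/
theorem conv_kernel (hCA : CAOut) {ι : Type*} [DecidableEq ι] {𝒦 : Finset (Finset ι)}
    (hK : ∀ K ∈ 𝒦, ∀ K' ∈ 𝒦, K ∪ K' ∈ 𝒦) {F : Finset ι → Set (ℤ × ℤ)} {A : Finset ι → UE × Bool}
    {L l₁ l₃ y₁ y₂ : Finset ι → ℕ} {w : Finset ι → ℕ → ℤ × ℤ} (hF : ∀ q ∈ 𝒦, (F q).Finite)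
    (hc : ∀ q ∈ 𝒦, Top.EConn (F q)) (he : ∀ q ∈ 𝒦, Esc (F q)) (hA : ∀ q ∈ 𝒦, BD (F q) (A q))
    (hw : ∀ q ∈ 𝒦, Ctr (F q) (L q) (w q)) (h1 : ∀ q ∈ 𝒦, 0 < l₁ q) (hy1 : ∀ q ∈ 𝒦, l₁ q ≤ y₁ q)
    (hy12 : ∀ q ∈ 𝒦, y₁ q ≤ y₂ q) (hy2 : ∀ q ∈ 𝒦, y₂ q ≤ l₃ q) (h3 : ∀ q ∈ 𝒦, l₃ q < L q)
    {m : ℕ → ℕ} {c : ℕ → ℤ} {P : ℕ → Finset ι → Finset (ℤ × ℤ)} (hm : Tendsto m atTop atTop)
    (hcc : ∀ n, c n = 0 ∨ c n = 1)
    (hP : ∀ n, 0 < m n → ∀ q ∈ 𝒦, (P n q : Set (ℤ × ℤ)) = blow (m n) (F q)) {K : Finset ι}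
    (hKm : K ∈ 𝒦) :
    Conv fun n => Mob 𝒦 (fun q =>
      Xmk (c n) (P n q) (vert (blow (m n) (F q)) (Blow.subE (m n) (A q) 0)) (m n * l₁ q) (m n * l₃ q)
        (m n * y₁ q) -
      Xmk (c n) (P n q) (vert (blow (m n) (F q)) (Blow.subE (m n) (A q) 0)) (m n * l₁ q) (m n * l₃ q)
        (m n * y₂ q)) K := by
  refine Conv.Mob (fun p hp q hq => hK p hp q hq) (fun q hq => ?_) hKm
  refine Conv.sub ?_ ?_
  · exact conv_Xc hCA (hF q hq) (hc q hq) (he q hq) (hA q hq) (hw q hq) (h1 q hq) (hy1 q hq)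
      ((hy12 q hq).trans (hy2 q hq)) (h3 q hq) hm hcc fun n hn => hP n hn q hq
  · exact conv_Xc hCA (hF q hq) (hc q hq) (he q hq) (hA q hq) (hw q hq) (h1 q hq)
      ((hy1 q hq).trans (hy12 q hq)) (hy2 q hq) (h3 q hq) hm hcc fun n hn => hP n hn q hq

/-- The same for the inner domains of a domain `D`: `Y q` is attached to the stop arc `p, …, p'` of the contour of
`D` and the tip side `A` is not at `Y q`. The marks are those of `Contig`; the last arc is not empty. -/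
theorem conv_kernel_contig (hCA : CAOut) {ι : Type*} [DecidableEq ι] {𝒦 : Finset (Finset ι)}
    (hK : ∀ K ∈ 𝒦, ∀ K' ∈ 𝒦, K ∪ K' ∈ 𝒦) {D : Set (ℤ × ℤ)} {A : UE × Bool} {p p' M : ℕ}
    (hD : D.Finite) (he : Esc D) (hbd : BD D A)
    {Y : Finset ι → Set (ℤ × ℤ)} (hY : ∀ q ∈ 𝒦, Mv.Att D A p p' (Y q)) (hAY : ∀ q ∈ 𝒦, ahead A ∉ Y q)
    {L N₁ N₂ y₁ y₂ : Finset ι → ℕ}
    (hcg : ∀ q ∈ 𝒦, Contig D A p p' (Y q) M (L q) (N₁ q) (N₂ q)) (hy1 : ∀ q ∈ 𝒦, N₁ q ≤ y₁ q)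
    (hy12 : ∀ q ∈ 𝒦, y₁ q ≤ y₂ q) (hy2 : ∀ q ∈ 𝒦, y₂ q ≤ N₂ q) (h3 : ∀ q ∈ 𝒦, N₂ q < L q)
    {m : ℕ → ℕ} {c : ℕ → ℤ} {P : ℕ → Finset ι → Finset (ℤ × ℤ)} (hm : Tendsto m atTop atTop)
    (hcc : ∀ n, c n = 0 ∨ c n = 1)
    (hP : ∀ n, 0 < m n → ∀ q ∈ 𝒦, (P n q : Set (ℤ × ℤ)) = blow (m n) (inn D A (Y q)))
    {K : Finset ι} (hKm : K ∈ 𝒦) :
    Conv fun n => Mob 𝒦 (fun q =>
      Xmk (c n) (P n q) (vert (blow (m n) (inn D A (Y q))) (Blow.subE (m n) A 0)) (m n * N₁ q)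
        (m n * N₂ q) (m n * y₁ q) -
      Xmk (c n) (P n q) (vert (blow (m n) (inn D A (Y q))) (Blow.subE (m n) A 0)) (m n * N₁ q)
        (m n * N₂ q) (m n * y₂ q)) K := by
  refine conv_kernel hCA hK (F := fun q => inn D A (Y q)) (A := fun _ => A)
    (w := fun q => vert (inn D A (Y q)) A) (L := L) ?_ ?_ ?_ ?_ ?_ ?_ hy1 hy12 hy2 h3 hm hcc hP hKm
  · exact fun q hq => hD.subset fun f hf => (inn_sub ⟨hbd.1, hAY q hq⟩ hf).1
  · exact fun q hq => econn_inn ⟨hbd.1, hAY q hq⟩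
  · intro q hq
    have h1 := (hY q hq).esc hbd he
    obtain ⟨x₀, x₁, y₀, y₁, hb⟩ := exists_RF (hD.subset (Set.sdiff_subset (s := D) (t := Y q)))
    exact h1.component (inn_sub ⟨hbd.1, hAY q hq⟩) hb fun f hf g hg hfg =>
      compT_step hf hfg hg
  · exact fun q hq => (hcg q hq).cyc.bd
  · exact fun q hq => (hcg q hq).cyc.ctr
  · exact fun q hq => (hcg q hq).pos

end Pool.Agent.SixB
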