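import Pool.Agent.Lib.SixB.S8LawQ
import Pool.Agent.Lib.SixB.S8KerConv

/-!
# Step 8: convergence of the coarse law of a move
-/

set_option autoImplicit false

namespace Pool.Agent.SixB.Mv

open Filter Finset Pool.Agent.Perc Pool.Agent.Perc6 Pool.Agent.Perc6.C2Aux Pool.Agent.Perc.Tips
open Pool.Agent.SixB.Top Pool.Agent.SixB.Blow

namespace Dom

variable {s : Dom} {g : Grd} {m n : ℕ}

/-- **The coarse law of a record converges.** -/
theorem RunK.conv (hCA : CAOut) (h : s.RunK g m n) {u : ℕ → ℕ} (hu : Tendsto u atTop atTop)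
    (ρ : Rec) : Conv fun k => s.lawq g (u k) ρ := by
  unfold lawq
  split_ifs with hρ
  · refine conv_kernel_contig hCA (fun K hK K' hK' => union_mem K K' hK hK') h.run.fin h.run.esc
      h.run.cyc.bd (Y := fun K => s.yK g K) (fun K hK => (h.runS hK).att)
      (fun K hK => (h.runS hK).tip) (fun K hK => (h.runS hK).con)
      (fun K hK => (h.mark hK _).ge) (fun K hK => (h.mark hK _).le) (fun K hK => (h.mark hK _).le')
      (fun K hK => h.lt_cyl hK) hu (c := fun _ => 0) (fun _ => Or.inl rfl)
      (P := fun k K => fsF (blow (u k) (s.gK g K))) (fun k hk K hK => ?_) hρ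
    have hf : (s.gK g K).Finite := (h.runS hK).finG
    exact coe_fsF (blow_finite (by exact_mod_cast hk) hf)
  · exact Conv.const 0

end Dom

end Pool.Agent.SixB.Mv
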