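import Pool.Agent.Lib.SixB.S8State
import Pool.Agent.Lib.SixB.S8Fam
import Pool.Agent.Lib.SixB.S8Kernel
import Pool.Agent.Lib.SixB.S8BlowT

/-!
# Step 8: the coarse law of a move

For a coarse domain `s` with the grid `g` and a set `K` of names of cells: `yK K` is the removed set
(barrier and cells of `K`), `gK K` the inner domain, `[n1 K, n2 K)` its stop arc, `rmk K r` the marks of
the run `r` on its contour. `lawq u ρ` is the coarse law of the record `ρ` when the unit is `u`: the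
Moebius sum of the crossing probabilities of the magnified inner domains between the marks.

* `cyl_of_cyc`: the length of a contour;
* `RunK`: the setting (`RunS` for the barrier, the cell of the tip is not full); `RunK.run`: `RunS` for
  `yK K` with the numbers `cyl`, `n1`, `n2`; `RunK.mark`: the marks `rmk K r` satisfy `RMark`.
-/

set_option autoImplicit false

namespace Pool.Agent.SixB.Mv

open Filter Finset Pool.Agent.Perc Pool.Agent.Perc6 Pool.Agent.Perc6.C2Aux Pool.Agent.Perc.Tips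
open Pool.Agent.SixB.Top Pool.Agent.SixB.Blow

namespace Dom

variable (s : Dom) (g : Grd)

/-- The removed set: the barrier and the cells of `K`. -/
def yK (K : Finset (ℤ × ℤ)) : Set (ℤ × ℤ) := s.bar g ∪ Mv.fcs g.nm (s.inr g) K

/-- The inner domain of the removed set of `K`. -/
def gK (K : Finset (ℤ × ℤ)) : Set (ℤ × ℤ) := inn (s.dom g) s.A (s.yK g K)

/-- The indices of the stop sides of the inner domain. -/
def stK (K : Finset (ℤ × ℤ)) : Set ℕ :=
  {i | i < cyl (s.gK g K) s.A ∧ outF (s.gK g K) s.A i ∈ s.yK g K}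

/-- The first stop side. -/
noncomputable def n1 (K : Finset (ℤ × ℤ)) : ℕ := sInf (s.stK g K)

/-- The last stop side, plus one. -/
noncomputable def n2 (K : Finset (ℤ × ℤ)) : ℕ := sSup (s.stK g K) + 1

/-- The marks of the run `r` on the contour of the inner domain. -/
noncomputable def rmk (K : Finset (ℤ × ℤ)) (r : ℕ) : ℕ × ℕ :=
  Classical.epsilon fun x : ℕ × ℕ => RMark (s.inr g) (s.gK g K) s.A (s.n1 g K) (s.n2 g K)
    (s.runI g r) (s.runI g (r + 1)) x.1 x.2

end Dom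

open Classical in
/-- A finite set of faces as a finset. -/
noncomputable def fsF (F : Set (ℤ × ℤ)) : Finset (ℤ × ℤ) := if h : F.Finite then h.toFinset else ∅

theorem coe_fsF {F : Set (ℤ × ℤ)} (h : F.Finite) : (fsF F : Set (ℤ × ℤ)) = F := by
  unfold fsF
  rw [dif_pos h]
  simp

namespace Dom

variable (s : Dom) (g : Grd)

/-- The crossing probability of the magnified inner domain of `K` with the mark `y`. -/
noncomputable def xval (u : ℕ) (K : Finset (ℤ × ℤ)) (y : ℕ) : ℝ :=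
  Xmk 0 (fsF (blow u (s.gK g K))) (vert (blow u (s.gK g K)) (subE u s.A 0)) (u * s.n1 g K)
    (u * s.n2 g K) (u * y)

open Classical in
/-- The coarse law of the record `ρ`. -/
noncomputable def lawq (u : ℕ) (ρ : Rec) : ℝ :=
  if s.kst g ρ ∈ s.fam g then
    Mob (s.fam g) (fun K => s.xval g u K (s.rmk g K ρ.2).1 - s.xval g u K (s.rmk g K ρ.2).2)
      (s.kst g ρ)
  else 0

end Dom

/-! ### The numbers -/

variable {G : Set (ℤ × ℤ)} {A : UE × Bool} {m n M₁ M₂ : ℕ}

theorem cyl_of_cyc (h : Cyc G A n) : cyl G A = n := by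
  have hper : Function.IsPeriodicPt (sc G) n A := h.per
  have h1 : cyl G A ≤ n := hper.minimalPeriod_le h.pos
  have h2 : 0 < cyl G A := hper.minimalPeriod_pos h.pos
  have h3 : side G A (cyl G A) = side G A 0 := Function.iterate_minimalPeriod
  by_contra hne
  have := h.inj _ (lt_of_le_of_ne h1 hne) 0 h.pos h3
  omega

theorem sInf_Ico' {S : Set ℕ} (h : ∀ i, i ∈ S ↔ M₁ ≤ i ∧ i < M₂) (hlt : M₁ < M₂) : sInf S = M₁ :=
  IsLeast.csInf_eq ⟨(h _).2 ⟨le_rfl, hlt⟩, fun _ hi => ((h _).1 hi).1⟩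

theorem sSup_Ico' {S : Set ℕ} (h : ∀ i, i ∈ S ↔ M₁ ≤ i ∧ i < M₂) (hlt : M₁ < M₂) :
    sSup S + 1 = M₂ := by
  have : sSup S = M₂ - 1 := IsGreatest.csSup_eq
    ⟨(h _).2 ⟨by omega, by omega⟩, fun _ hi => by have := ((h _).1 hi).2; omega⟩
  omega

/-- The setting of a move which is not void. -/
structure Dom.RunK (s : Dom) (g : Grd) (m n : ℕ) : Prop where
  run : RunS g.a g.b g.L (s.dom g) s.A (s.p g) (s.q g) (s.bar g) m n (s.n₁ g) (s.n₂ g)
  pq : s.p g ≤ s.q g
  qm : s.q g < m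
  off : OffL g.a g.b g.L 1 s.tip

namespace Dom

variable {s : Dom} {g : Grd} {K : Finset (ℤ × ℤ)}

theorem mem_fam_iff : K ∈ s.fam g ↔ K ∈ Mv.fam g.nm (s.inr g) (s.bar g)
    (blkN g.a g.b g.L g.M s.tip) := by
  classical
  rw [Mv.mem_fam, Dom.fam, Finset.mem_filter, Finset.mem_powerset]
  exact and_congr_right fun _ => ⟨fun h => ⟨h.full, h.ch⟩, fun h => ⟨h.full, h.ch⟩⟩

theorem atK_of_mem (h : K ∈ s.fam g) : Mv.AtK g.nm (s.inr g) (s.bar g) K :=
  (Mv.mem_fam.1 (mem_fam_iff.1 h)).2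

theorem union_mem (K K' : Finset (ℤ × ℤ)) (h : K ∈ s.fam g) (h' : K' ∈ s.fam g) :
    K ∪ K' ∈ s.fam g := by
  rw [mem_fam_iff] at *
  refine cast ?_ (Mv.union_mem_fam h h')
  congr
  exact Subsingleton.elim _ _

theorem empty_mem : (∅ : Finset (ℤ × ℤ)) ∈ s.fam g := mem_fam_iff.2 Mv.empty_mem_fam

theorem card_fam (hM : 0 ≤ g.M) : (s.fam g).card ≤ 2 ^ (2 * g.M.toNat + 1) ^ 2 := by
  classical
  have h1 : s.fam g = Mv.fam g.nm (s.inr g) (s.bar g) (blkN g.a g.b g.L g.M s.tip) := by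
    ext K
    exact mem_fam_iff
  rw [h1]
  refine Mv.card_fam_le.trans ?_
  rw [card_blkN hM]

theorem gc_tip {a b L : ℤ} {B : UE × Bool} (hL : 0 < L) (h : OffL a b L 1 (lf B)) :
    gc a b L (ahead (rv B)) = gc a b L (ahead B) := by
  have e1 : gc a b L (ahead B) = gc a b L (lf B) := by
    obtain ⟨⟨x, y, _ | _⟩, _ | _⟩ := B <;>
      (refine h.gc_eq_self hL ?_ ?_ ?_ ?_ <;> simp [ahead, lf])
  have e2 : gc a b L (ahead (rv B)) = gc a b L (lf B) := by
    obtain ⟨⟨x, y, _ | _⟩, _ | _⟩ := B <;>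
      (refine h.gc_eq_self hL ?_ ?_ ?_ ?_ <;> simp [ahead, lf, rv])
  rw [e1, e2]

/-- The cell of the tip is not full. -/
theorem RunK.tip (h : s.RunK g m n) : ¬ Mv.Full g.nm (s.inr g) (g.nm (ahead s.A)) := by
  intro hf
  have h1 := hf (ahead (rv s.A)) (gc_tip h.run.hL h.off)
  exact h.run.cyc.bd.2 (h.run.sub h1)

theorem RunK.tipK (h : s.RunK g m n) (hK : K ∈ s.fam g) : ahead s.A ∉ Mv.fcs g.nm (s.inr g) K :=
  (atK_of_mem hK).tip h.tip

/-- **The setting for the removed set of `K`.** -/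
theorem RunK.runS (h : s.RunK g m n) (hK : K ∈ s.fam g) :
    RunS g.a g.b g.L (s.dom g) s.A (s.p g) (s.q g) (s.yK g K) m (cyl (s.gK g K) s.A) (s.n1 g K)
      (s.n2 g K) := by
  obtain ⟨n', M₁, M₂, h'⟩ := h.run.addK (K := K) h.pq h.qm (atK_of_mem hK) (h.tipK hK)
  have h0 : RunS g.a g.b g.L (s.dom g) s.A (s.p g) (s.q g) (s.yK g K) m n' M₁ M₂ := h'
  have e1 : cyl (s.gK g K) s.A = n' := cyl_of_cyc h0.con.cyc
  have hst : ∀ i, i ∈ s.stK g K ↔ M₁ ≤ i ∧ i < M₂ := by
    intro i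
    constructor
    · rintro ⟨h1, h2⟩
      rw [e1] at h1
      exact h0.mem_arc h1 (h0.att.sub h2)
    · rintro ⟨h1, h2⟩
      exact ⟨by rw [e1]; exact lt_of_lt_of_le h2 h0.con.le, h0.con.mid i h1 h2⟩
  have e2 : s.n1 g K = M₁ := sInf_Ico' hst h0.con.lt
  have e3 : s.n2 g K = M₂ := sSup_Ico' hst h0.con.lt
  rw [e1, e2, e3]
  exact h0

theorem yK_empty : s.yK g ∅ = s.bar g := by
  unfold yK
  rw [Mv.fcs_empty, Set.union_empty]

theorem gK_empty : s.gK g ∅ = s.inr g := by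
  unfold gK
  rw [yK_empty]
  rfl

theorem n1_empty : s.n1 g ∅ = s.n₁ g := by
  unfold n1 n₁ stK stI
  rw [yK_empty, gK_empty]

theorem n2_empty : s.n2 g ∅ = s.n₂ g := by
  unfold n2 n₂ stK stI
  rw [yK_empty, gK_empty]

theorem bar_sub_yK : s.bar g ⊆ s.yK g K := Set.subset_union_left

/-- **The marks of the run.** -/
theorem RunK.mark (h : s.RunK g m n) (hK : K ∈ s.fam g) (r : ℕ) :
    RMark (s.inr g) (s.gK g K) s.A (s.n1 g K) (s.n2 g K) (s.runI g r) (s.runI g (r + 1))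
      (s.rmk g K r).1 (s.rmk g K r).2 := by
  have hex : ∃ x : ℕ × ℕ, RMark (s.inr g) (s.gK g K) s.A (s.n1 g K) (s.n2 g K) (s.runI g r)
      (s.runI g (r + 1)) x.1 x.2 := by
    obtain ⟨x₁, x₂, hx⟩ := exists_rmark h.run (h.runS hK) bar_sub_yK r
    exact ⟨(x₁, x₂), hx⟩
  exact Classical.epsilon_spec hex

theorem RunK.pos (h : s.RunK g m n) (hK : K ∈ s.fam g) : 0 < s.n1 g K := (h.runS hK).con.pos

theorem RunK.lt12 (h : s.RunK g m n) (hK : K ∈ s.fam g) : s.n1 g K < s.n2 g K :=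
  (h.runS hK).con.lt

/-- The last arc of the contour is not empty. -/
theorem RunK.lt_cyl (h : s.RunK g m n) (hK : K ∈ s.fam g) : s.n2 g K < cyl (s.gK g K) s.A := by
  have h0 := h.runS hK
  rcases h0.con.le.lt_or_eq with h1 | h1
  · exact h1
  exfalso
  have hlt := h0.con.lt
  have hm := h0.con.mid (s.n2 g K - 1) (by omega) (by omega)
  have hw : s.tip = vert (inn (s.dom g) s.A (s.yK g K)) s.A (s.n2 g K - 1) ∨
      s.tip = vert (inn (s.dom g) s.A (s.yK g K)) s.A (s.n2 g K - 1 + 1) := by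
    right
    rw [Nat.sub_add_cancel (by omega), h1]
    exact h0.con.cyc.vert_m.symm
  have := far_stop h0.hL h.off h0.att.sub h0.sat h0.cyc.bd h0.tip hm hw
  simp at this

end Dom

end Pool.Agent.SixB.Mv
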