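import Pool.Agent.Lib.SixB.S8Chain
import Pool.Agent.Lib.SixB.S8LawQ

/-!
# Step 8: the record of a stage as a function of the tip and of the configuration

`sgT`, `vcT`, `idT`: time of the stop, visited cells, number of the stop side of the move which starts at
the unit edge `a` in the configuration `ζ`. `avT`, `rnT`: the cell is not visited, the run number.

* `rcd_eq_iff`: `rcd g c N i = ρ` iff `kmx N = kst ρ` and `min (rno i) c = ρ.2`;
* `rec_iff`: the record of a stage is `ρ` iff `RunRec fam avT rnT = (kst ρ, ρ.2)`.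
-/

set_option autoImplicit false

namespace Pool.Agent.SixB.Tru

open Finset Pool.Agent.Perc Pool.Agent.PercT Pool.Agent.PercX60
open Pool.Agent.SixB Pool.Agent.SixB.Rule Pool.Agent.SixB.Dct Pool.Agent.SixB.Mv
open Pool.Agent.SixB.Blow (subE)

section Loc

variable (u N : ℕ) (D : Dom) (g : Grd) (a : UE) (ζ : Cfg)

/-- The time of the stop. -/
noncomputable def sgT : ℕ := hit N fun t => fa (pth ζ a t) ∈ blow u (D.P \ D.inr g)

/-- The cells visited up to the time `t`. -/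
def vcT (t : ℕ) : Set (ℤ × ℤ) := {c | ∃ f ∈ vs ζ a 0 t, Blow.cl u f = c}

/-- The number of the stop side. -/
noncomputable def idT (t : ℕ) : ℕ :=
  sInf {i | i ∈ D.stI g ∧ ∃ r : ℕ, r < u ∧ (subE u (side (D.inr g) D.A i) r).1 = pth ζ a t}

/-- The cell `c` is not visited in the move. -/
def avT (c : ℤ × ℤ) : Prop := ∀ f, g.nm f = c → f ∉ vcT u a ζ (sgT u N D g a ζ)

/-- The run number of the move. -/
noncomputable def rnT (b : ℕ) : ℕ := min (D.rno g (idT u D g a ζ (sgT u N D g a ζ))) b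

end Loc

/-! ### The record -/

section Rcd

variable {D : Dom} {g : Grd}

theorem image_rel_kst (ρ : Rec) : (D.kst g ρ).image (D.rel g) = ρ.1 := by
  unfold Dom.kst Dom.rel
  rw [Finset.image_image]
  have : ((fun c => c - g.nm D.tip) ∘ fun c => c + g.nm D.tip) = id := by
    funext c
    simp
  rw [this, Finset.image_id]

theorem kst_image (K : Finset (ℤ × ℤ)) (r : ℕ) : D.kst g (K.image (D.rel g), r) = K := by
  unfold Dom.kst Dom.rel
  rw [Finset.image_image]
  have : ((fun c => c + g.nm D.tip) ∘ fun c => c - g.nm D.tip) = id := by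
    funext c
    simp
  rw [this, Finset.image_id]

theorem rcd_eq_iff {b i : ℕ} {N : Set (ℤ × ℤ)} {ρ : Rec} :
    D.rcd g b N i = ρ ↔ D.kmx g N = D.kst g ρ ∧ min (D.rno g i) b = ρ.2 := by
  constructor
  · rintro rfl
    exact ⟨(kst_image _ _).symm, rfl⟩
  · rintro ⟨h1, h2⟩
    unfold Dom.rcd
    rw [h1, h2, image_rel_kst]

theorem top_eq_kmx {av : Cfg → ℤ × ℤ → Prop} {ζ : Cfg} {N : Set (ℤ × ℤ)}
    (h : ∀ c, av ζ c ↔ ∀ f, g.nm f = c → f ∉ N) : Top (D.fam g) (Avd av) ζ = D.kmx g N := by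
  classical
  unfold Top Dom.kmx
  congr 1
  ext K
  rw [Finset.mem_filter, Finset.mem_filter]
  refine and_congr_right fun _ => ?_
  exact ⟨fun hK c hc => (h c).1 (hK c hc), fun hK c hc => (h c).2 (hK c hc)⟩

end Rcd

/-! ### The stage of the chain -/

section Stage

variable {n : ℕ} {s : TS} {q : Rule.Ndl} {D : Dom} {g : Grd} {ω : Cfg} {u : ℕ}

theorem pS_add (t : ℕ) : pS s.V q ω (s.t + t) = pth (cfS s.V q ω) (pS s.V q ω s.t) t := by
  unfold pS
  rw [pth_add]

theorem stopT_eq : stopT n u s q D g ω =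
    s.t + sgT u (tmx n) D g (pS s.V q ω s.t) (cfS s.V q ω) := by
  have key : ∀ t, fa (pS s.V q ω (s.t + t)) ∈ blow u (D.P \ D.inr g) ↔
      fa (pth (cfS s.V q ω) (pS s.V q ω s.t) t) ∈ blow u (D.P \ D.inr g) := by
    intro t
    rw [pS_add]
  set σ := sgT u (tmx n) D g (pS s.V q ω s.t) (cfS s.V q ω) with hσ
  have hlt : ∀ t < s.t + σ, ¬ (s.t ≤ t ∧ fa (pS s.V q ω t) ∈ blow u (D.P \ D.inr g)) := by
    rintro t ht ⟨h1, h2⟩
    obtain ⟨j, rfl⟩ := Nat.exists_eq_add_of_le h1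
    have hj : j < sgT u (tmx n) D g (pS s.V q ω s.t) (cfS s.V q ω) := by omega
    exact not_of_lt_hit hj ((key j).1 h2)
  unfold stopT
  rcases hit_spec (tmx n) (fun t => fa (pth (cfS s.V q ω) (pS s.V q ω s.t) t) ∈
    blow u (D.P \ D.inr g)) with h | h
  · have h0 : σ = tmx n := h
    refine le_antisymm (by rw [h0]; exact hit_le _ _) ?_
    by_contra hno
    push Not at hno
    rcases hit_spec (s.t + tmx n) (fun t => s.t ≤ t ∧ fa (pS s.V q ω t) ∈
      blow u (D.P \ D.inr g)) with h1 | h1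
    · omega
    · exact hlt _ hno h1
  · have h0 : σ ≤ tmx n := hit_le _ _
    exact hit_eq ⟨Nat.le_add_right _ _, (key σ).2 h⟩ (by omega) hlt

theorem visC_eq (t : ℕ) :
    visC u s q ω (s.t + t) = vcT u (pS s.V q ω s.t) (cfS s.V q ω) t := by
  unfold visC vcT vS
  have h : vs (cfS s.V q ω) (pS s.V q ω s.t) 0 t = vs (cfS s.V q ω) (eS s.V q) s.t (s.t + t) := by
    unfold pS
    rw [vs_shift, Nat.add_zero]
  rw [h]

theorem stopI_eq (t : ℕ) : stopI u s q D g ω (s.t + t) =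
    idT u D g (pS s.V q ω s.t) (cfS s.V q ω) t := by
  unfold stopI idT
  rw [pS_add]

/-- **The record of a stage.** -/
theorem rcd_iff {b : ℕ} {ρ : Rec} :
    D.rcd g b (visC u s q ω (stopT n u s q D g ω)) (stopI u s q D g ω (stopT n u s q D g ω)) = ρ ↔
      RunRec (D.fam g) (fun ζ => avT u (tmx n) D g (pS s.V q ω s.t) ζ)
        (fun ζ => rnT u (tmx n) D g (pS s.V q ω s.t) ζ b) (cfS s.V q ω) = (D.kst g ρ, ρ.2) := by
  rw [rcd_eq_iff, stopT_eq, visC_eq, stopI_eq]
  unfold RunRec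
  rw [Prod.mk.injEq, top_eq_kmx (N := vcT u (pS s.V q ω s.t) (cfS s.V q ω)
    (sgT u (tmx n) D g (pS s.V q ω s.t) (cfS s.V q ω))) fun c => Iff.rfl]
  exact Iff.rfl

variable {𝔇 : Dat} {d : ℕ → ℕ}

/-- The record of a stage with a running needle and a running domain. -/
theorem nxS_x_run (hD : (𝔇.cs d s.x).run = some D) (hq : s.q = some q) :
    (nxS 𝔇 d n s ω).x = mvR 𝔇 d n s q D (𝔇.cs d s.x).ini ω :: s.x := by
  unfold nxS
  rw [hD, hq]
  exact finS_x 𝔇 d n s _ _ _ ω

/-- The record of a stage without running domain. -/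
theorem nxS_x_none (hD : (𝔇.cs d s.x).run = none) : (nxS 𝔇 d n s ω).x = (∅, 0) :: s.x := by
  unfold nxS
  rw [hD]
  cases s.q with
  | none => rfl
  | some q => exact finS_x 𝔇 d n s _ _ _ ω

/-- The record of a stage without running needle. -/
theorem nxS_x_noq (hq : s.q = none) : (nxS 𝔇 d n s ω).x = (∅, 0) :: s.x := by
  unfold nxS
  rw [hq]
  cases (𝔇.cs d s.x).run with
  | none => rfl
  | some D => rfl

/-- The first stage of a needle and the void moves have the trivial record. -/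
theorem mvR_triv {ini : Bool} (h : ini = true ∨ D.Void (𝔇.gr d s.x D)) :
    mvR 𝔇 d n s q D ini ω = (∅, 0) := by
  unfold mvR
  rw [if_pos h]

theorem nxS_x_triv (hD : (𝔇.cs d s.x).run = some D)
    (h : (𝔇.cs d s.x).ini = true ∨ D.Void (𝔇.gr d s.x D)) :
    (nxS 𝔇 d n s ω).x = (∅, 0) :: s.x := by
  cases hq : s.q with
  | none => exact nxS_x_noq hq
  | some q => rw [nxS_x_run hD hq, mvR_triv h]

/-- **The record of a stage with a move.** -/
theorem rec_iff (hD : (𝔇.cs d s.x).run = some D) (hq : s.q = some q)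
    (hi : (𝔇.cs d s.x).ini = false) (hV : ¬ D.Void (𝔇.gr d s.x D)) {ρ : Rec} :
    (nxS 𝔇 d n s ω).x = ρ :: s.x ↔
      RunRec (D.fam (𝔇.gr d s.x D))
        (fun ζ => avT (unt d n) (tmx n) D (𝔇.gr d s.x D) (pS s.V q ω s.t) ζ)
        (fun ζ => rnT (unt d n) (tmx n) D (𝔇.gr d s.x D) (pS s.V q ω s.t) ζ
          (capR (𝔇.gr d s.x D).M)) (cfS s.V q ω) = (D.kst (𝔇.gr d s.x D) ρ, ρ.2) := by
  have hn : ¬ ((𝔇.cs d s.x).ini = true ∨ D.Void (𝔇.gr d s.x D)) := by
    rintro (h | h)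
    · rw [hi] at h
      exact absurd h (by decide)
    · exact hV h
  rw [nxS_x_run hD hq, ← rcd_iff]
  unfold mvR
  rw [if_neg hn]
  simp only [List.cons.injEq, and_true]

end Stage

end Pool.Agent.SixB.Tru
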