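import Pool.Agent.Lib.SixB.S8LawA
import Pool.Agent.Lib.SixB.S8LawC
import Pool.Agent.Lib.SixB.S8LawR

/-!
# Step 8: the row `law` of the chain of moves

* `qL`: the coarse law of the next record after the history `x`;
* `MvEst`: the estimate for one past: the law of `RunRec` is close to `lawq`;
* `law_of_mvEst`: the row `law` of `ChnOK` from the stopping property of the chain and from `MvEst`.
-/

set_option autoImplicit false

namespace Pool.Agent.SixB.Tru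

open Filter Finset Pool.Agent.Perc Pool.Agent.PercT Pool.Agent.PercX60 Pool.Agent.PercD
open Pool.Agent.SixB Pool.Agent.SixB.Rule Pool.Agent.SixB.Dct Pool.Agent.SixB.Mv
open Pool.Agent.SixB.Blow (subE)

variable (𝔇 : Dat) (d : ℕ → ℕ)

open Classical in
/-- The law of the trivial record. -/
noncomputable def ind0 (a : Rec) : ℝ := if a = (∅, 0) then 1 else 0

open Classical in
/-- The coarse law of the next record for a running domain. -/
noncomputable def qD (D : Dom) (g : Grd) (a : Rec) (n : ℕ) : ℝ :=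
  if D.Void g then ind0 a else if ∃ m k, D.RunK g m k then D.lawq g (unt d n) a else 0

/-- The coarse law of the next record after the history `x`. -/
noncomputable def qL (x : List Rec) (a : Rec) (n : ℕ) : ℝ :=
  (𝔇.cs d x).run.elim (ind0 a) fun D =>
    if (𝔇.cs d x).ini then ind0 a else qD d D (𝔇.gr d x D) a n

variable {𝔇 d}

theorem tendsto_unt (d : ℕ → ℕ) : Tendsto (fun n => unt d n) atTop atTop := by
  refine tendsto_atTop.2 fun b => ?_
  filter_upwards [eventually_ge_atTop (b * 2 ^ d 0)] with n hn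
  exact (Nat.le_div_iff_mul_le (by positivity)).2 hn

/-- **The coarse law converges.** -/
theorem conv_qL (hCA : CAOut) (x : List Rec) (a : Rec) : Conv (qL 𝔇 d x a) := by
  unfold qL
  cases (𝔇.cs d x).run with
  | none => exact Conv.const _
  | some D =>
    change Conv fun n => if (𝔇.cs d x).ini = true then ind0 a else qD d D (𝔇.gr d x D) a n
    unfold qD
    split_ifs with h0 h1 h2
    · exact Conv.const _
    · exact Conv.const _
    · obtain ⟨m, k, h⟩ := h2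
      exact h.conv hCA (tendsto_unt d) a
    · exact Conv.const _

/-- The configuration read by the strand after the past `ω`. -/
noncomputable def Xi (s : TS) (q : Rule.Ndl) (ω ξ : Cfg) : Cfg := cfS s.V q (mix (expS s ω) ω ξ)

/-- The estimate for one past: a state `s` with the configuration `ω`, the next record is read in a move
which is not void. `e` is the error. -/
def MvEst (𝔇 : Dat) (d : ℕ → ℕ) (n : ℕ) (W : Finset (ℤ × ℤ)) (s : TS) (ω : Cfg) (e : ℝ) : Prop :=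
  ∀ D, (𝔇.cs d s.x).run = some D → (𝔇.cs d s.x).ini = false → ¬ D.Void (𝔇.gr d s.x D) →
    (∃ m k, D.RunK (𝔇.gr d s.x D) m k) ∧ ∃ q, s.q = some q ∧ ∀ a : Rec,
      |pr W {ξ | RunRec (D.fam (𝔇.gr d s.x D))
          (fun ζ => avT (unt d n) (tmx n) D (𝔇.gr d s.x D) (pS s.V q ω s.t) ζ)
          (fun ζ => rnT (unt d n) (tmx n) D (𝔇.gr d s.x D) (pS s.V q ω s.t) ζ
            (capR (𝔇.gr d s.x D).M)) (Xi s q ω ξ) = (D.kst (𝔇.gr d s.x D) a, a.2)} -
        D.lawq (𝔇.gr d s.x D) (unt d n) a| ≤ e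

theorem pr_const_set (W : Finset (ℤ × ℤ)) (p : Prop) [Decidable p] :
    pr W {_ξ : Cfg | p} = if p then 1 else 0 := by
  by_cases h : p
  · rw [if_pos h]
    have : {_ξ : Cfg | p} = Set.univ := by ext; simp [h]
    rw [this]
    simp [ProbA.pr_eq_sum]
  · rw [if_neg h]
    have : {_ξ : Cfg | p} = ∅ := by ext; simp [h]
    rw [this]
    simp [ProbA.pr_eq_sum]

/-- The mixed configuration gives the same tip. -/
def TipOK (s : TS) (ω : Cfg) : Prop :=
  ∀ q, s.q = some q → ∀ ξ, pS s.V q (mix (expS s ω) ω ξ) s.t = pS s.V q ω s.t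

/-- The law of the next stage for one past. -/
theorem nxS_law {n : ℕ} {W : Finset (ℤ × ℤ)} {s : TS} {ω : Cfg} {e : ℝ} (he : 0 ≤ e)
    (hM : MvEst 𝔇 d n W s ω e) (hT : TipOK s ω) (a : Rec) :
    |pr W {ξ | (nxS 𝔇 d n s (mix (expS s ω) ω ξ)).x = a :: s.x} - qL 𝔇 d s.x a n| ≤ e := by
  classical
  have hconst : ∀ b : Rec, (∀ ξ, (nxS 𝔇 d n s (mix (expS s ω) ω ξ)).x = b :: s.x) →
      pr W {ξ | (nxS 𝔇 d n s (mix (expS s ω) ω ξ)).x = a :: s.x} = if a = b then 1 else 0 := by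
    intro b hb
    have : {ξ | (nxS 𝔇 d n s (mix (expS s ω) ω ξ)).x = a :: s.x} = {_ξ : Cfg | a = b} := by
      ext ξ
      rw [Set.mem_ofPred_eq, Set.mem_ofPred_eq, hb ξ, List.cons.injEq]
      simp only [and_true]
      exact eq_comm
    rw [this, pr_const_set]
  unfold qL
  cases hD : (𝔇.cs d s.x).run with
  | none =>
    rw [hconst (∅, 0) fun ξ => nxS_x_none hD]
    simp only [Option.elim_none, ind0]
    rw [sub_self, abs_zero]
    exact he
  | some D =>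
    simp only [Option.elim_some]
    cases hi : (𝔇.cs d s.x).ini with
    | true =>
      rw [hconst (∅, 0) fun ξ => nxS_x_triv hD (Or.inl hi)]
      unfold ind0
      rw [if_pos rfl, sub_self, abs_zero]
      exact he
    | false =>
      rw [if_neg (by decide)]
      by_cases hV : D.Void (𝔇.gr d s.x D)
      · rw [hconst (∅, 0) fun ξ => nxS_x_triv hD (Or.inr hV)]
        unfold qD ind0
        rw [if_pos hV, sub_self, abs_zero]
        exact he
      · obtain ⟨hR, q, hq, h⟩ := hM D hD hi hV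
        unfold qD
        rw [if_neg hV, if_pos hR]
        refine le_of_eq_of_le ?_ (h a)
        congr 2
        congr 1
        ext ξ
        rw [Set.mem_ofPred_eq, Set.mem_ofPred_eq, rec_iff hD hq hi hV, hT q hq ξ]
        exact Iff.rfl

/-- **The row `law`** of the chain. `hstop`: the chain is decided by the explored faces; `hest`: the
estimate for one past outside of the bad events. -/
theorem law_of_mvEst {G : ℕ → ℕ → ℕ} {Bd : (ℕ → ℕ) → ℕ → ℕ → Set Cfg} {W : ℕ → Finset (ℤ × ℤ)}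
    (hCA : CAOut)
    (hstop : ∀ d n m ω ω', (∀ f ∈ expS (tst 𝔇 d n ω m) ω, ω f = ω' f) →
      tst 𝔇 d n ω' m = tst 𝔇 d n ω m)
    (htip : ∀ d n m ω, TipOK (tst 𝔇 d n ω m) ω)
    (hest : ∀ m ℓ : ℕ, ∃ (B C α c₀ : ℝ) (L₀ : ℕ), 0 < α ∧ 0 ≤ B ∧ 0 ≤ C ∧
      ∀ d : ℕ → ℕ, d (m + 1) = ℓ → L₀ ≤ d m → (chD 𝔇 G Bd).Gro (m + 1) d →
        ∀ᶠ n in atTop, ∀ ω, (∀ i ≤ m, ω ∉ Bd d n i) → ∃ x y : ℝ, 0 ≤ x ∧ 0 < y ∧
          x * 2 ^ gap (d m) ℓ ≤ c₀ * y ∧
          MvEst 𝔇 d n (W n) (tst 𝔇 d n ω m) ω (B * (C * (x / y) ^ α)))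
    (m ℓ : ℕ) (η : ℝ) (hη : 0 < η) :
    ∃ L : ℕ, ∀ d : ℕ → ℕ, d (m + 1) = ℓ → L ≤ d m →
      (chD 𝔇 G Bd).Gro (m + 1) d → ∃ q : List Rec → Rec → ℕ → ℝ,
        (∀ x ∈ (chD 𝔇 G Bd).hst d m, ∀ a ∈ (chD 𝔇 G Bd).R (m + 1) ℓ, Conv (q x a)) ∧
        (∀ x ∈ (chD 𝔇 G Bd).hst d m, ∀ a ∈ (chD 𝔇 G Bd).R (m + 1) ℓ, ∀ n, |q x a n| ≤ 1) ∧
        ∀ᶠ n in atTop, ∀ x ∈ (chD 𝔇 G Bd).hst d m, ∀ a ∈ (chD 𝔇 G Bd).R (m + 1) ℓ, ∀ ω,
          histL ((chD 𝔇 G Bd).s d n) m ω = x → (∀ i ≤ m, ω ∉ (chD 𝔇 G Bd).Bd d n i) →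
          |pr (W n) {ξ | (chD 𝔇 G Bd).s d n (m + 1)
            (PercT.mix ((chD 𝔇 G Bd).S d n m ω) ω ξ) = a} - q x a n| ≤ η := by
  refine law_of_est (c := chD 𝔇 G Bd) (fun m ℓ => ?_) m ℓ η hη
  obtain ⟨B, C, α, c₀, L₀, hα, hB, hC, h⟩ := hest m ℓ
  refine ⟨B, C, 0, 0, α, 1, 1, c₀, L₀, hα, one_pos, one_pos, fun d hd hL hG => ?_⟩
  refine ⟨qL 𝔇 d, fun x _ a _ => conv_qL hCA x a, ?_⟩
  filter_upwards [h d hd hL hG] with n hn x _ a _ ω hx hb
  obtain ⟨X, Y, h1, h2, h3, h4⟩ := hn ω hb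
  refine ⟨X, Y, X, Y, X, Y, h1, h2, h3, h1, h2, h3, h1, h2, h3, ?_⟩
  have hpos : 0 ≤ B * (C * (X / Y) ^ α) := by positivity
  have key := nxS_law hpos h4 (htip d n m ω) a
  have hxs : (tst 𝔇 d n ω m).x = x := by rw [tst_x]; exact hx
  have hset : {ξ | (chD 𝔇 G Bd).s d n (m + 1) (PercT.mix ((chD 𝔇 G Bd).S d n m ω) ω ξ) = a} =
      {ξ | (nxS 𝔇 d n (tst 𝔇 d n ω m) (mix (expS (tst 𝔇 d n ω m) ω) ω ξ)).x =
        a :: (tst 𝔇 d n ω m).x} := by
    ext ξ
    rw [Set.mem_ofPred_eq, Set.mem_ofPred_eq]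
    set ω' := mix (expS (tst 𝔇 d n ω m) ω) ω ξ with hω'
    have e1 : tst 𝔇 d n ω' m = tst 𝔇 d n ω m := by
      refine hstop d n m ω ω' fun f hf => ?_
      rw [hω', mix_of_mem hf]
    obtain ⟨ρ, hρ⟩ := nxS_x 𝔇 d n ω' (tst 𝔇 d n ω m)
    have e2 : recS 𝔇 d n (m + 1) ω' = ρ := by
      unfold recS
      rw [show tst 𝔇 d n ω' (m + 1) = nxS 𝔇 d n (tst 𝔇 d n ω' m) ω' from rfl, e1, hρ]
      rfl
    change recS 𝔇 d n (m + 1) ω' = a ↔ _
    rw [e2, hρ, List.cons.injEq]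
    simp only [and_true]
  rw [hset, ← hxs]
  refine key.trans (le_of_eq ?_)
  ring

end Pool.Agent.SixB.Tru
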