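import Pool.Agent.Lib.SixB.S8Chain
import Pool.Agent.Lib.SixB.S8Law
import Pool.Agent.Lib.SixB.S8TruStep
import Pool.Agent.Lib.SixB.S8InvT
import Pool.Agent.Lib.SixB.S8MoveB
import Pool.Agent.Lib.SixB.S8LabWd

/-!
# Step 8, unit 8H: the invariant of the true chain, definitions

* `uS`: the true domain of a state (the component of the current face in the set of the fresh faces),
  `tS`: the true tip side;
* `RunI`: the invariant of a state with a running strand and a running coarse domain, `RunN`: the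
  alternative at the end of the step, `RunV`: one of them; `RunV.wk`: the weak labels in both cases;
* `rad`: the radius of a stage.
-/

set_option autoImplicit false

namespace Pool.Agent.SixB.Tru

open Finset Pool.Agent.Perc Pool.Agent.Perc6 Pool.Agent.PercT Pool.Agent.Perc6.C2Aux
open Pool.Agent.SixB Pool.Agent.SixB.Rule Pool.Agent.SixB.Dct Pool.Agent.SixB.Mv
open Pool.Agent.SixB.Blow (subE)
open Pool.Agent.SixB.Top (compT ChI lf rg)
open Pool.Agent.Perc.Tips

/-- The faces of the remaining set outside of the needle which are not crossed up to the time `s.t`. -/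
noncomputable def frS (s : TS) (q : Rule.Ndl) (ω : Cfg) : Set (ℤ × ℤ) :=
  (FU s.V \ QF q.1) \ (vS s.V q ω 0 s.t : Set (ℤ × ℤ))

/-- The true domain: the component of the face in front of the strand. -/
noncomputable def uS (s : TS) (q : Rule.Ndl) (ω : Cfg) : Set (ℤ × ℤ) :=
  compT (frS s q ω) (fa (pS s.V q ω s.t))

/-- The true tip side. -/
noncomputable def tS (s : TS) (q : Rule.Ndl) (ω : Cfg) : UE × Bool := dirE (pS s.V q ω s.t)

/-- The radius after `k` stages. -/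
noncomputable def rad (C : ℤ) (u : ℕ) (d : ℕ → ℕ) (k : ℕ) : ℤ :=
  C * u * (1 + ∑ j ∈ range k, msh d j)

theorem rad_succ (C : ℤ) (u : ℕ) (d : ℕ → ℕ) (k : ℕ) :
    rad C u d (k + 1) = rad C u d k + C * (u * msh d k) := by
  unfold rad
  rw [sum_range_succ]
  ring

theorem rad_mono {C : ℤ} (hC : 0 ≤ C) (u : ℕ) (d : ℕ → ℕ) {j k : ℕ} (h : j ≤ k) :
    rad C u d j ≤ rad C u d k := by
  have hs : ∑ i ∈ range j, msh d i ≤ ∑ i ∈ range k, msh d i :=
    sum_le_sum_of_subset_of_nonneg (range_mono h) fun i _ _ => by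
      unfold msh
      positivity
  unfold rad
  exact mul_le_mul_of_nonneg_left (by linarith) (by positivity)

/-- The invariant of a running stage without the labels. `r`: the radius, `κ`: the classes, `m`: the
length of the contour of the true domain, `x`: the number of the target side. -/
structure RunB (𝔇 : Dat) (d : ℕ → ℕ) (n : ℕ) (r : ℤ) (s : TS) (ω : Cfg) (q : Rule.Ndl) (D : Dom)
    (κ : ℤ × ℤ → ℤ × ℤ) (m x : ℕ) : Prop where
  hq : s.q = some q
  run : (𝔇.cs d s.x).run = some D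
  ini : (𝔇.cs d s.x).ini = false
  fre : fa (pS s.V q ω s.t) ∈ frS s q ω
  tst : ∀ ξ, TSt (Xi s q ω ξ) Set.univ (uS s q ω) (tS s q ω) m x
  app : App (uS s q ω) (blow (unt d n : ℤ) D.P) κ r
  tgt : ahead (side (uS s q ω) (tS s q ω) x) ∈ uS s q ω ∧
    ahead (side (uS s q ω) (tS s q ω) x) ∈ Mv.sqF r (ahead (subE (unt d n) D.B 0)) ∧
    ChI (uS s q ω ∩ Mv.sqF r (ahead (subE (unt d n) D.B 0)))
      (ahead (side (uS s q ω) (tS s q ω) x)) (ahead (subE (unt d n) D.B 0))
  near : LC.InB (lf (subE (unt d n) D.A 0)) r (rg (tS s q ω))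

/-- **The invariant of a running stage.** `i₁ … i₂`: the marks of the contour of the coarse domain. -/
structure RunI (𝔇 : Dat) (d : ℕ → ℕ) (n : ℕ) (r : ℤ) (s : TS) (ω : Cfg) (q : Rule.Ndl) (D : Dom)
    (κ : ℤ × ℤ → ℤ × ℤ) (m x i₁ j₁ t j₂ i₂ : ℕ) : Prop extends RunB 𝔇 d n r s ω q D κ m x where
  lab : LabP (uS s q ω) (blow (unt d n : ℤ) D.P) κ (subE (unt d n) D.A 0) (tS s q ω)
    (subE (unt d n) D.B 0) r r (unt d n * cyl D.P D.A) m x i₁ j₁ t j₂ i₂
  sep : κ (outF (blow (unt d n : ℤ) D.P) (subE (unt d n) D.A 0) (j₁ - 1)) ≠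
    κ (outF (blow (unt d n : ℤ) D.P) (subE (unt d n) D.A 0) (j₂ + 1))

/-- The invariant of a stage at the end of the step: the tip side is next to the target side; the labels
hold in the weak form. -/
structure RunN (𝔇 : Dat) (d : ℕ → ℕ) (n : ℕ) (r : ℤ) (s : TS) (ω : Cfg) (q : Rule.Ndl) (D : Dom)
    (κ : ℤ × ℤ → ℤ × ℤ) (m x : ℕ) : Prop extends RunB 𝔇 d n r s ω q D κ m x where
  nrB : ChI (blow (unt d n : ℤ) D.P ∩ Mv.sqF (3 * r) (ahead (subE (unt d n) D.B 0)))
    (ahead (subE (unt d n) D.B 0)) (ahead (subE (unt d n) D.A 0))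
  lbn : ∃ t, WkLab (uS s q ω) (blow (unt d n : ℤ) D.P) κ (subE (unt d n) D.A 0) (tS s q ω)
    (subE (unt d n) D.B 0) (3 * r) (3 * r) (unt d n * cyl D.P D.A) m x t

/-- The invariant of a running stage, both alternatives. -/
def RunV (𝔇 : Dat) (d : ℕ → ℕ) (n : ℕ) (r : ℤ) (s : TS) (ω : Cfg) : Prop :=
  ∀ q D, s.q = some q → (𝔇.cs d s.x).run = some D → (𝔇.cs d s.x).ini = false →
    (∃ κ m x i₁ j₁ t j₂ i₂, RunI 𝔇 d n r s ω q D κ m x i₁ j₁ t j₂ i₂) ∨
      ∃ κ m x, RunN 𝔇 d n r s ω q D κ m x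

/-- **The weak labels** of all running stages. -/
theorem RunV.wk {𝔇 : Dat} {d : ℕ → ℕ} {n : ℕ} {r : ℤ} {s : TS} {ω : Cfg} {q : Rule.Ndl} {D : Dom}
    (h : RunV 𝔇 d n r s ω) (hq : s.q = some q) (hD : (𝔇.cs d s.x).run = some D)
    (hi : (𝔇.cs d s.x).ini = false) :
    ∃ κ m x, RunB 𝔇 d n r s ω q D κ m x ∧
      ∃ t, WkLab (uS s q ω) (blow (unt d n : ℤ) D.P) κ (subE (unt d n) D.A 0) (tS s q ω)
        (subE (unt d n) D.B 0) (3 * r) (3 * r) (unt d n * cyl D.P D.A) m x t := by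
  rcases h q D hq hD hi with ⟨κ, m, x, i₁, j₁, t, j₂, i₂, X⟩ | ⟨κ, m, x, X⟩
  · have hr := X.app.d_pos
    exact ⟨κ, m, x, X.toRunB, t, X.lab.wk.mono (by omega) (by omega)⟩
  · exact ⟨κ, m, x, X.toRunB, X.lbn⟩

end Pool.Agent.SixB.Tru
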