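import Pool.Agent.Lib.SixB.S8RareE
import Pool.Agent.Lib.SixB.S8BlowSt
import Pool.Agent.Lib.SixB.S8InvD
import Pool.Agent.Lib.SixB.S8BadD
import Pool.Agent.Lib.SixB.S8Thick

/-!
# Step 8: the strand stays near the base

If the event `BaseEv` at the base does not happen, then a strand which is at a place `μ` near the base
(connected, fresh, contained in a small box) at the time `s` and crosses a side of `μ` at a later time
`m` is in the big box at all times between `s` and `m` (`disp_base`).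

* `chI_union`: the union of two connected sets with adjacent faces is connected.
* `disp_base_mov`: the case of a move: `μ` is the union of the place of the last stop and of the part of
  the domain in front of the barrier, `m` is the time of the stop.
-/

set_option autoImplicit false

namespace Pool.Agent.SixB.Dsp

open Finset Pool.Agent.Perc Pool.Agent.PercT Pool.Agent.Perc.Tips Pool.Agent.SixB
open Pool.Agent.SixB.Rule Pool.Agent.SixB.Dct Pool.Agent.SixB.NearCut Pool.Agent.SixB.Mv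
open Pool.Agent.SixB.Top (compT compT_sub ChI BD lf rg)
open Pool.Agent.SixB.Blow (subE bd_subE blow_subset econn_blow)
open Pool.Agent.SixB.BaseE (Ret BaseEv)
open Pool.Agent.SixB.Tru (Dat unt exS cfS pS vS frS uS tS TS RunB Xi)

section Conn

variable {μ ν : Set (ℤ × ℤ)} {x y : ℤ × ℤ}

/-- **The union of two connected sets with a common face or with adjacent faces.** -/
theorem chI_union (hμ : ∀ f ∈ μ, ∀ f' ∈ μ, ChI μ f f') (hν : ∀ f ∈ ν, ∀ f' ∈ ν, ChI ν f f')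
    (hx : x ∈ μ) (hy : y ∈ ν) (h : x = y ∨ AdjF x y) :
    ∀ f ∈ μ ∪ ν, ∀ f' ∈ μ ∪ ν, ChI (μ ∪ ν) f f' := by
  have hxy : ChI (μ ∪ ν) x y := by
    rcases h with rfl | h
    · exact ChI.refl _
    · exact ChI.single h (Or.inr hy)
  have key : ∀ f ∈ μ ∪ ν, ChI (μ ∪ ν) f x := by
    rintro f (hf | hf)
    · exact (hμ f hf x hx).mono Set.subset_union_left
    · exact ((hν f hf y hy).mono Set.subset_union_right).trans (ChI.symm (Or.inl hx) hxy)
  intro f hf f' hf'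
  exact (key f hf).trans (ChI.symm hf' (key f' hf'))

end Conn

section Base

variable {E : Ex} {ω : Cfg} {b : ℤ × ℤ} {ρ R : ℤ} {μ : Set (ℤ × ℤ)} {s t m : ℕ}

/-- **The strand stays near the base.** -/
theorem disp_base (hB : ¬ BaseEv E ω b ρ R) (hW : E.Wll ω) (hU : fb (E.e ω) ∉ E.U ω)
    (hμ : μ ⊆ E.Fr ω s) (hc : ∀ f ∈ μ, ∀ f' ∈ μ, ChI μ f f')
    (hb : ∀ f ∈ μ, ∀ a, IsSide f a → InB b ρ a) (hs : fa (E.p ω s) ∈ μ) (hst : s ≤ t) (htm : t ≤ m)
    (hN : Nb (E.cf ω) (E.e ω) m) (hm : ∃ h ∈ μ, IsSide h (E.p ω m)) : InB b R (E.p ω t) := by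
  by_contra hcon
  exact hB (Or.inl ⟨hW, hU, μ, s, t, m, hμ, hc, hb, hs, hst, htm, hN, hcon, hm⟩)

/-- The same for a place with two parts: `μ` contains the face at the time `s`, `ν` has the side which is
crossed at the time `m`. -/
theorem disp_base₂ {ν : Set (ℤ × ℤ)} {x y : ℤ × ℤ} (hB : ¬ BaseEv E ω b ρ R) (hW : E.Wll ω)
    (hU : fb (E.e ω) ∉ E.U ω) (hμ : μ ⊆ E.Fr ω s) (hν : ν ⊆ E.Fr ω s)
    (hcμ : ∀ f ∈ μ, ∀ f' ∈ μ, ChI μ f f') (hcν : ∀ f ∈ ν, ∀ f' ∈ ν, ChI ν f f')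
    (hx : x ∈ μ) (hy : y ∈ ν) (hxy : x = y ∨ AdjF x y)
    (hbμ : ∀ f ∈ μ, ∀ a, IsSide f a → InB b ρ a) (hbν : ∀ f ∈ ν, ∀ a, IsSide f a → InB b ρ a)
    (hs : fa (E.p ω s) ∈ μ) (hst : s ≤ t) (htm : t ≤ m) (hN : Nb (E.cf ω) (E.e ω) m)
    (hm : ∃ h ∈ ν, IsSide h (E.p ω m)) : InB b R (E.p ω t) := by
  obtain ⟨h, h1, h2⟩ := hm
  refine disp_base hB hW hU (Set.union_subset hμ hν) (chI_union hcμ hcν hx hy hxy) ?_ (Or.inl hs) hst
    htm hN ⟨h, Or.inr h1, h2⟩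
  rintro f (hf | hf)
  · exact hbμ f hf
  · exact hbν f hf

end Base

section Chain

variable {𝔇 : Dat} {d : ℕ → ℕ} {n : ℕ} {r : ℤ} {s : TS} {ω : Cfg} {q : Rule.Ndl} {D : Dom} {g : Grd}
  {κ : ℤ × ℤ → ℤ × ℤ} {m₀ x₀ : ℕ} {ρ R : ℤ} {b : ℤ × ℤ} {μ : Set (ℤ × ℤ)} {t m : ℕ}

/-- The fresh faces. -/
theorem frS_eq (s : TS) (q : Rule.Ndl) (ω : Cfg) : (exS s.V q).Fr ω s.t = frS s q ω := by
  ext f
  constructor
  · rintro ⟨h1, h2⟩
    exact ⟨h1, fun h => h2 ⟨h1, h⟩⟩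
  · rintro ⟨h1, h2⟩
    exact ⟨h1, fun h => h2 h.2⟩

/-- The domain is fresh. -/
theorem blow_fresh (hR : RunB 𝔇 d n r s ω q D κ m₀ x₀) :
    blow (unt d n : ℤ) D.P ⊆ frS s q ω := hR.app.sub.trans (compT_sub hR.fre)

/-- The side of the stop is a side of a face in front of the barrier. -/
theorem stop_side {u : ℕ} (hu : 0 < u) (hbd : BD (D.inr g) D.A) {i j : ℕ} (hj : j < u) :
    ahead (subE u (side (D.inr g) D.A i) j) ∈ blow (u : ℤ) (D.inr g) ∧
      IsSide (ahead (subE u (side (D.inr g) D.A i) j)) (subE u (side (D.inr g) D.A i) j).1 :=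
  ⟨(bd_subE (by exact_mod_cast hu) (bd_side hbd i) (by positivity) (by exact_mod_cast hj)).1,
    sideA _⟩

/-- **The strand stays near the base during a move.** `μ`: the place of the last stop. -/
theorem disp_base_mov (hu : 0 < unt d n) (hR : RunB 𝔇 d n r s ω q D κ m₀ x₀)
    (hB : ¬ BaseEv (exS s.V q) ω b ρ R) (hW : (exS s.V q).Wll ω)
    (hU : fb (Tru.eS s.V q) ∉ FU s.V \ QF q.1)
    (hinr : D.inr g ⊆ D.P) (hcon : Top.EConn (D.inr g)) (hbd : BD (D.inr g) D.A)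
    (hμ : μ ⊆ frS s q ω) (hcμ : ∀ f ∈ μ, ∀ f' ∈ μ, ChI μ f f')
    (hs : fa (pS s.V q ω s.t) ∈ μ)
    (hadj : ∃ x ∈ μ, ∃ y ∈ blow (unt d n : ℤ) (D.inr g), x = y ∨ AdjF x y)
    (hbμ : ∀ f ∈ μ, ∀ a, IsSide f a → InB b ρ a)
    (hbi : ∀ f ∈ blow (unt d n : ℤ) (D.inr g), ∀ a, IsSide f a → InB b ρ a)
    (hst : s.t ≤ t) (htm : t ≤ m) (hN : Nb (cfS s.V q ω) (Tru.eS s.V q) m)
    (hm : ∃ i, ∃ j < unt d n, (subE (unt d n) (side (D.inr g) D.A i) j).1 = pS s.V q ω m) :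
    InB b R (pS s.V q ω t) := by
  obtain ⟨x, hx, y, hy, hxy⟩ := hadj
  obtain ⟨i, j, hj, hij⟩ := hm
  have h1 := stop_side (D := D) (g := g) hu hbd (i := i) hj
  rw [hij] at h1
  have hsub : blow (unt d n : ℤ) (D.inr g) ⊆ frS s q ω :=
    (blow_subset hinr).trans (blow_fresh hR)
  have hcon' : ∀ f ∈ blow (unt d n : ℤ) (D.inr g), ∀ f' ∈ blow (unt d n : ℤ) (D.inr g),
      ChI (blow (unt d n : ℤ) (D.inr g)) f f' :=
    fun f hf f' hf' => econn_blow (by exact_mod_cast hu) hcon f hf f' hf'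
  exact disp_base₂ (E := exS s.V q) hB hW hU (by rw [frS_eq]; exact hμ) (by rw [frS_eq]; exact hsub)
    hcμ hcon' hx hy hxy hbμ hbi hs hst htm hN ⟨_, h1.1, h1.2⟩

end Chain

end Pool.Agent.SixB.Dsp
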