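import Pool.Agent.Lib.SixB.S8NoRet
import Pool.Agent.Lib.SixB.S8NearMiss

/-!
# Step 8: no return near a decided place

`BaseRet E N b ρ R K ω`: a connected set `μ` of faces inside the box of radius `ρ` around `b`, fresh at the
time `σ`, is visited at the time `σ` (during one of the first `K` visits of the box, see `hk`), then
the strand is outside of the box of radius `R` around `b`, and then it crosses a side of a face of `μ`.
Here `b` is decided at the beginning; `μ` is arbitrary.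

`pr_base_ret`: the probability is at most `K C ((2 ρ + 1) / (R - ρ)) ^ α`. Use: a room which has its
mouth `μ` near the base of the needle is not visited at distance `R`, for walls of any colours.
-/

set_option autoImplicit false

namespace Pool.Agent.SixB.Near

open Finset Pool.Agent.Perc Pool.Agent.PercT Pool.Agent.SixB Pool.Agent.SixB.NearCut
  Pool.Agent.SixB.Top

variable {E : Ex} {S : Cfg → Set (ℤ × ℤ)} {ω : Cfg} {b : ℤ × ℤ} {ρ R : ℤ} {N K k σ : ℕ}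

/-- The beginnings of the visits of a decided box are stopping times. -/
theorem time_hk' (hE : E.Ok S) {b : Cfg → ℤ × ℤ} (hb : Adp S b) (k : ℕ) :
    E.Time S (fun ω => hk E ω (b ω) ρ R N k) := by
  intro ω ω' ha
  simp only at ha ⊢
  have h1 : hk E ω' (b ω) ρ R N k = hk E ω (b ω) ρ R N k :=
    time_hk (z := b ω) (ρ := ρ) (R := R) (N := N) hE k ω ω' ha
  rw [hb ω ω' ha.past, h1]

theorem inB_hk (h : hk E ω b ρ R N k < N) : InB b ρ (E.p ω (hk E ω b ρ R N k)) := by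
  cases k with
  | zero =>
    rcases hit_spec N (fun t => InB b ρ (E.p ω t)) with h1 | h1
    · change hk E ω b ρ R N 0 = N at h1
      omega
    · exact h1
  | succ k =>
    rcases hit_spec N (fun t => (∃ c ≤ t, hk E ω b ρ R N k ≤ c ∧ fa (E.p ω c) ∉ Bx b R) ∧
      InB b ρ (E.p ω t)) with h1 | h1
    · change hk E ω b ρ R N (k + 1) = N at h1
      omega
    · exact h1.2

/-- A place near `b` is visited, then the strand is at distance `R`, then it comes back. -/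
def BaseRet (E : Ex) (N : ℕ) (b : ℤ × ℤ) (ρ R : ℤ) (K : ℕ) (ω : Cfg) : Prop :=
  E.Wll ω ∧ fb (E.e ω) ∉ E.U ω ∧ ∃ (μ : Set (ℤ × ℤ)) (σ l m : ℕ), μ ⊆ E.Fr ω σ ∧
    (∀ f ∈ μ, ∀ f' ∈ μ, ChI μ f f') ∧ (∀ f ∈ μ, ∀ a, IsSide f a → InB b ρ a) ∧
    fa (E.p ω σ) ∈ μ ∧ σ ≤ l ∧ l ≤ m ∧ Nb (E.cf ω) (E.e ω) m ∧ σ < hk E ω b ρ R N K ∧
    ¬ InB b R (E.p ω l) ∧ ∃ h ∈ μ, IsSide h (E.p ω m)

theorem BaseRet.return (h : BaseRet E N b ρ R K ω) :
    ∃ k < K, E.Return ω (hk E ω b ρ R N k) (2 * ρ + 1) (R - ρ) := by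
  obtain ⟨h1, h2, μ, σ, l, m, h3, h4, h5, h6, h7, h8, h9, h10, h11, f, h12, h13⟩ := h
  have hσ : InB b ρ (E.p ω σ) := h5 _ h6 _ (isSide_fa _)
  obtain ⟨k, hkK, hks, -, -⟩ := exists_visit hσ h10
  have hkN : hk E ω b ρ R N k < N := by
    have := hk_le E ω b ρ R N K
    omega
  have hin := inB_hk hkN
  refine ⟨k, hkK, h1, h2, σ, l, m, hks, h7, h8, h9, fun h => h11 ?_, f, ?_, h13⟩
  · rw [inB_iff] at h hin ⊢
    omega
  · refine Ex.sub_reachAt (fun f hf => ⟨Ex.fr_anti hks (h3 hf), fun a ha => ?_⟩)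
      (fun f hf => h4 _ h6 f hf) h6 h12
    have h14 := h5 f hf a ha
    rw [inB_iff] at h14 hin ⊢
    omega

/-- **No return near a decided place.** -/
theorem pr_base_ret : ∃ C α : ℝ, 0 < C ∧ 0 < α ∧ ∀ (W : Finset (ℤ × ℤ)) (E : Ex)
    (S : Cfg → Set (ℤ × ℤ)) (A : Set Cfg), E.Ok S → DetS S A → (∀ ω ∈ A, E.U ω ⊆ W) →
    (∀ ω ∈ A, Disjoint (E.U ω) (S ω)) → ∀ (b : Cfg → ℤ × ℤ), Adp S b → ∀ (ρ R : ℤ) (N K : ℕ),
    0 ≤ ρ → ρ < R →
    pr W (A ∩ {ω | BaseRet E N (b ω) ρ R K ω}) ≤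
      K * (C * ((2 * (ρ : ℝ) + 1) / (R - ρ)) ^ α) * pr W A := by
  obtain ⟨C, α, hC, hα, h⟩ := Ex.pr_no_return
  refine ⟨C, α, hC, hα, ?_⟩
  intro W E S A hE hA hU hd b hb ρ R N K hρ hR
  have key : ∀ k ∈ range K, pr W (A ∩ {ω | E.Return ω (hk E ω (b ω) ρ R N k) (2 * ρ + 1) (R - ρ)}) ≤
      C * ((2 * (ρ : ℝ) + 1) / (R - ρ)) ^ α * pr W A := by
    intro k _
    have h1 := h W E S _ A hE (time_hk' (ρ := ρ) (R := R) (N := N) hE hb k)
      (DetS.mono (fun ω f hf => Or.inl hf) hA) hU hd (2 * ρ + 1) (R - ρ) (by omega) (by omega)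
    push_cast at h1
    exact h1
  have h1 := trials_sum (W := W) (s := range K) (A := fun _ : ℕ => A)
    (F := fun k => {ω | E.Return ω (hk E ω (b ω) ρ R N k) (2 * ρ + 1) (R - ρ)}) key
  rw [Finset.sum_const, card_range, nsmul_eq_mul] at h1
  refine (pr_mono W ?_).trans (h1.trans (by ring_nf; rfl))
  rintro ω ⟨hω, h2⟩
  obtain ⟨k, h3, h4⟩ := h2.return
  exact ⟨k, Finset.mem_range.2 h3, hω, h4⟩

end Pool.Agent.SixB.Near
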