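import Pool.Agent.Lib.SixB.S8NMAll
import Pool.Agent.Lib.SixB.S8NoRetB
import Pool.Agent.Lib.SixB.S8CountP

/-!
# Step 8: the rare events at the base of the needles

* `Ret E ω b ρ R`: a connected set `μ` of faces in the box of radius `ρ` around `b`, fresh at the time `σ`,
  is visited at the time `σ`, then the strand is outside of the box of radius `R`, and then it crosses
  a side of a face of `μ`. This is `Near.BaseRet` without a bound on the number of visits.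
* `BaseEv E ω b ρ R`: `Ret`, or a passage of the annulus around `b` which touches a wall of the time `0` of one
  colour only.
* `alt_of_hk`: many visits give many passages of the annulus.
* `base_all`: all the steps `j < J` of the scan, uniformly in the rule: `BaseEv` at the base of the needle
  has small probability if `ρ` is small in comparison with `R`.
-/

set_option autoImplicit false

namespace Pool.Agent.SixB.BaseE

open Finset Pool.Agent.Perc Pool.Agent.PercT Pool.Agent.SixB Pool.Agent.SixB.NearCut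
  Pool.Agent.SixB.Top
open Pool.Agent.SixB.Near (Bx hk hk_le hk_mono BaseRet inB_iff not_bx)
open Pool.Agent.SixB.Rule Pool.Agent.SixB.Dct Pool.Agent.SixB.NM
open Pool.Agent.SixB.StkC (Alt)
open Pool.Agent.PercX60 (Sn)

variable {E : Ex} {S : Cfg → Set (ℤ × ℤ)} {ω : Cfg} {b b' : ℤ × ℤ} {ρ ρ' R R' s : ℤ} {N N' K k : ℕ}

/-! ### The visits -/

theorem hit_mono {P Q : ℕ → Prop} (hN : N ≤ N') (h : ∀ t, Q t → P t) : hit N P ≤ hit N' Q := by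
  rcases hit_spec N' Q with h1 | h1
  · rw [h1]
    exact (hit_le _ _).trans hN
  · exact hit_le_of (h _ h1)

theorem hk_mono_time (hN : N ≤ N') (k : ℕ) : hk E ω b ρ R N k ≤ hk E ω b ρ R N' k := by
  induction k with
  | zero => exact hit_mono hN fun _ h => h
  | succ k ih =>
    refine hit_mono hN ?_
    rintro t ⟨⟨c, h1, h2, h3⟩, h4⟩
    exact ⟨⟨c, h1, ih.trans h2, h3⟩, h4⟩

theorem baseRet_mono (h : BaseRet E N b ρ R K ω) (hN : N ≤ N') : BaseRet E N' b ρ R K ω := by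
  obtain ⟨h1, h2, μ, σ, l, m, h3, h4, h5, h6, h7, h8, h9, h10, h11⟩ := h
  exact ⟨h1, h2, μ, σ, l, m, h3, h4, h5, h6, h7, h8, h9, h10.trans_le (hk_mono_time hN K), h11⟩

/-- Many visits give many passages. -/
theorem alt_of_hk (hρ : ρ + 1 ≤ R) (h : hk E ω b ρ R N (k + 1) < N) :
    Alt (fun t => InB b ρ (E.p ω t)) (fun t => ¬ InB b (R - 1) (E.p ω t)) N k := by
  have h1 : ∀ l ≤ k, ∃ c, c ≤ hk E ω b ρ R N (l + 1) ∧ hk E ω b ρ R N l ≤ c ∧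
      fa (E.p ω c) ∉ Bx b R ∧ InB b ρ (E.p ω (hk E ω b ρ R N (l + 1))) := by
    intro l hl
    have h2 : hk E ω b ρ R N (l + 1) ≤ hk E ω b ρ R N (k + 1) := hk_mono (by omega)
    rcases hit_spec N (fun t => (∃ c ≤ t, hk E ω b ρ R N l ≤ c ∧ fa (E.p ω c) ∉ Bx b R) ∧
      InB b ρ (E.p ω t)) with h3 | ⟨⟨c, h3, h4, h5⟩, h6⟩
    · change hk E ω b ρ R N (l + 1) = N at h3
      omega
    · exact ⟨c, h3, h4, h5, h6⟩
  have hin0 : InB b ρ (E.p ω (hk E ω b ρ R N 0)) := by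
    have h2 : hk E ω b ρ R N 0 ≤ hk E ω b ρ R N (k + 1) := hk_mono (by omega)
    rcases hit_spec N (fun t => InB b ρ (E.p ω t)) with h3 | h3
    · change hk E ω b ρ R N 0 = N at h3
      omega
    · exact h3
  have hout : ∀ t, InB b ρ (E.p ω t) → ¬ fa (E.p ω t) ∉ Bx b R := fun t h2 h3 =>
    h3 (not_bx (h2.mono (by omega)))
  choose! c hc1 hc2 hc3 hc4 using h1
  have hin : ∀ l ≤ k + 1, InB b ρ (E.p ω (hk E ω b ρ R N l)) := by
    intro l hl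
    cases l with
    | zero => exact hin0
    | succ l => exact hc4 l (by omega)
  refine ⟨fun l => if l % 2 = 0 then c (l / 2) else hk E ω b ρ R N ((l + 1) / 2), fun l hl => ?_, ?_,
    fun l hl => ?_, fun l hl => ?_⟩
  · rcases Nat.mod_two_eq_zero_or_one l with h0 | h0
    · have e1 : (l + 1) % 2 = 1 := by omega
      have e2 : (l + 1 + 1) / 2 = l / 2 + 1 := by omega
      simp only [h0, e1, e2, if_true, one_ne_zero, if_false]
      refine lt_of_le_of_ne (hc1 _ (by omega)) fun h5 => ?_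
      have h6 := hin (l / 2 + 1) (by omega)
      rw [← h5] at h6
      exact hout _ h6 (hc3 _ (by omega))
    · have e1 : (l + 1) % 2 = 0 := by omega
      simp only [h0, e1, if_true, one_ne_zero, if_false]
      refine lt_of_le_of_ne (hc2 _ (by omega)) fun h5 => ?_
      have h6 := hin ((l + 1) / 2) (by omega)
      rw [h5] at h6
      exact hout _ h6 (hc3 _ (by omega))
  · have e1 : 2 * k % 2 = 0 := by omega
    have e2 : 2 * k / 2 = k := by omega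
    simp only [e1, e2, if_true]
    exact (hc1 k le_rfl).trans (hk_le _ _ _ _ _ _ _)
  · have e1 : 2 * l % 2 = 0 := by omega
    have e2 : 2 * l / 2 = l := by omega
    simp only [e1, e2, if_true]
    exact fun h5 => hc3 l hl (not_bx h5)
  · have e1 : (2 * l + 1) % 2 = 1 := by omega
    have e2 : (2 * l + 1 + 1) / 2 = l + 1 := by omega
    simp only [e1, e2, one_ne_zero, if_false]
    exact hc4 l (by omega)

/-! ### The events -/

/-- A place near `b` is visited, then the strand is at distance `R`, then it comes back. -/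
def Ret (E : Ex) (ω : Cfg) (b : ℤ × ℤ) (ρ R : ℤ) : Prop :=
  E.Wll ω ∧ fb (E.e ω) ∉ E.U ω ∧ ∃ (μ : Set (ℤ × ℤ)) (σ l m : ℕ), μ ⊆ E.Fr ω σ ∧
    (∀ f ∈ μ, ∀ f' ∈ μ, ChI μ f f') ∧ (∀ f ∈ μ, ∀ a, IsSide f a → InB b ρ a) ∧
    fa (E.p ω σ) ∈ μ ∧ σ ≤ l ∧ l ≤ m ∧ Nb (E.cf ω) (E.e ω) m ∧
    ¬ InB b R (E.p ω l) ∧ ∃ h ∈ μ, IsSide h (E.p ω m)

/-- The rare event at the base `b`. -/
def BaseEv (E : Ex) (ω : Cfg) (b : ℤ × ℤ) (ρ R : ℤ) : Prop :=
  Ret E ω b ρ R ∨ E.OneWall 0 ω 0 b (ρ + 1) R ∨ E.OneWall 1 ω 0 b (ρ + 1) R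

/-- Another centre. -/
theorem inB_shift (h1 : |b.1 - b'.1| ≤ s) (h2 : |b.2 - b'.2| ≤ s) {r : ℤ} {a : UE}
    (h : InB b r a) : InB b' (r + s) a := by
  rw [inB_iff] at h ⊢
  rw [abs_le] at h1 h2
  omega

theorem Ret.shift (h1 : |b.1 - b'.1| ≤ s) (h2 : |b.2 - b'.2| ≤ s) (hρ : ρ + s ≤ ρ')
    (hR : R' + s ≤ R) (h : Ret E ω b ρ R) : Ret E ω b' ρ' R' := by
  obtain ⟨a1, a2, μ, σ, l, m, a3, a4, a5, a6, a7, a8, a9, a10, a11⟩ := h
  refine ⟨a1, a2, μ, σ, l, m, a3, a4, fun f hf a ha => (inB_shift h1 h2 (a5 f hf a ha)).mono hρ, a6,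
    a7, a8, a9, fun h3 => a10 ?_, a11⟩
  rw [abs_sub_comm] at h1 h2
  exact (inB_shift h1 h2 h3).mono hR

theorem oneWall_shift {c : ℤ} {t : ℕ} (h1 : |b.1 - b'.1| ≤ s) (h2 : |b.2 - b'.2| ≤ s)
    (hρ : ρ + s ≤ ρ') (hR : R' + s ≤ R) (h : E.OneWall c ω t b ρ R) :
    E.OneWall c ω t b' ρ' R' := by
  obtain ⟨i, j, a1, a2, a3, a4, a5⟩ := h
  refine ⟨i, j, a1, a2, (inB_shift h1 h2 a3).mono (by omega), fun h3 => a4 ?_, a5⟩
  rw [abs_sub_comm] at h1 h2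
  exact (inB_shift h1 h2 h3).mono hR

/-- Another centre and other radii. -/
theorem BaseEv.shift (h1 : |b.1 - b'.1| ≤ s) (h2 : |b.2 - b'.2| ≤ s) (hρ : ρ + s ≤ ρ')
    (hR : R' + s ≤ R) (h : BaseEv E ω b ρ R) : BaseEv E ω b' ρ' R' :=
  h.imp (fun h => h.shift h1 h2 hρ hR) fun h =>
    h.imp (oneWall_shift h1 h2 (by omega) hR) (oneWall_shift h1 h2 (by omega) hR)

/-- A return is one of the first visits, or there are many passages. -/
theorem ret_or (hρ : ρ + 1 ≤ R) (h : Ret E ω b ρ R) (k : ℕ) :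
    ∃ N, BaseRet E N b ρ R (k + 1) ω ∨ (E.Wll ω ∧ Nb (E.cf ω) (E.e ω) N ∧
      Alt (fun t => InB b ρ (E.p ω t)) (fun t => ¬ InB b (R - 1) (E.p ω t)) N k) := by
  obtain ⟨a1, a2, μ, σ, l, m, a3, a4, a5, a6, a7, a8, a9, a10, a11⟩ := h
  refine ⟨m, ?_⟩
  by_cases h1 : σ < hk E ω b ρ R m (k + 1)
  · exact Or.inl ⟨a1, a2, μ, σ, l, m, a3, a4, a5, a6, a7, a8, a9, h1, a10, a11⟩
  · right
    refine ⟨a1, a9, alt_of_hk hρ ?_⟩
    have h2 : σ ≠ l := by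
      rintro rfl
      exact a10 ((a5 _ a6 _ (isSide_fa _)).mono (by omega))
    omega

/-! ### One base -/

/-- The returns of one of the first visits, all times. -/
theorem pr_ret : ∃ C α : ℝ, 0 < C ∧ 0 < α ∧ ∀ (W : Finset (ℤ × ℤ)) (E : Ex)
    (S : Cfg → Set (ℤ × ℤ)) (A : Set Cfg), E.Ok S → DetS S A → (∀ ω ∈ A, E.U ω ⊆ W) →
    (∀ ω ∈ A, Disjoint (E.U ω) (S ω)) → ∀ (b : Cfg → ℤ × ℤ), Adp S b → ∀ (ρ R : ℤ) (K : ℕ),
    0 ≤ ρ → ρ < R →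
    pr W (A ∩ {ω | ∃ N, BaseRet E N (b ω) ρ R K ω}) ≤
      K * (C * ((2 * (ρ : ℝ) + 1) / (R - ρ)) ^ α) * pr W A := by
  obtain ⟨C, α, hC, hα, h⟩ := Near.pr_base_ret
  refine ⟨C, α, hC, hα, ?_⟩
  intro W E S A hE hA hU hd b hb ρ R K hρ hR
  have h1 := pr_iUnion_le (W := W) (A := fun N => A ∩ {ω | BaseRet E N (b ω) ρ R K ω})
    (fun N N' hN ω hω => ⟨hω.1, baseRet_mono hω.2 hN⟩)
    fun N => h W E S A hE hA hU hd b hb ρ R N K hρ hR
  refine le_trans (pr_mono W ?_) h1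
  rintro ω ⟨hω, N, hN⟩
  exact ⟨N, hω, hN⟩

/-- A passage with walls of one colour, time `0`. -/
theorem pr_one : ∃ C α : ℝ, 0 < C ∧ 0 < α ∧ ∀ (W : Finset (ℤ × ℤ)) (E : Ex)
    (S : Cfg → Set (ℤ × ℤ)) (A : Set Cfg), E.Ok S → DetS S A → (∀ ω ∈ A, E.U ω ⊆ W) →
    (∀ ω ∈ A, Disjoint (E.U ω) (S ω)) → ∀ (b : Cfg → ℤ × ℤ), Adp S b → ∀ (r R : ℤ),
    0 < r → 0 < R →
    pr W (A ∩ {ω | E.OneWall 0 ω 0 (b ω) r R ∨ E.OneWall 1 ω 0 (b ω) r R}) ≤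
      C * ((r : ℝ) / R) ^ α * pr W A := by
  obtain ⟨C, α, hC, hα, h⟩ := Ex.pr_leak
  refine ⟨C, α, by linarith, hα, ?_⟩
  intro W E S A hE hA hU hd b hb r R hr hR
  exact h W E S (fun _ => 0) A hE (Ex.Time.const 0) (DetS.mono (fun ω f hf => Or.inl hf) hA) hU hd b
    (hb.mono fun ω f hf => Or.inl hf) r R hr hR

/-! ### All the steps -/

theorem sd_phiV_le {n : ℕ} {v : ℤ × ℤ} (hv : v ∈ Box n) : CountP.sd (phiV v) 0 ≤ 2 * n := by
  unfold Box at hv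
  rw [Finset.mem_product, Finset.mem_Icc, Finset.mem_Icc] at hv
  rw [CountP.sd_le_iff]
  simp only [phiV, Prod.fst_zero, Prod.snd_zero]
  omega

/-- **The rare events at the bases** of the steps `j < J` of the scan, uniformly in the rule. -/
theorem base_all (J N₀ : ℕ) {δ η : ℝ} (hδ : 0 < δ) (hη : 0 < η) :
    ∃ κ : ℝ, 0 < κ ∧ ∃ n₀ : ℕ, ∀ n ≥ n₀, ∀ (h : ℕ) (Ru : Rul) (Cn ρ R : ℤ), RulOK n h Ru →
      0 ≤ Cn → (Cn : ℝ) ≤ κ * n → 0 ≤ ρ → (ρ : ℝ) ≤ κ * n → δ * n ≤ R →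
      pr (Sn n) {ω | ∃ j < J, Nds n Ru Cn N₀ j ω ∧ ∃ q, Ru j (cfgE n ω) = some q ∧
        BaseEv (exR n Ru j) ω (phiV q.2) ρ R} ≤ η := by
  obtain ⟨κ₁, hκ₁, T, hT⟩ := CountP.alt_all J N₀ (δ := δ / 2) (η := η / 2) (by positivity)
    (by positivity) 3
  obtain ⟨C₁, α₁, hC₁, hα₁, h1⟩ := pr_ret
  obtain ⟨C₂, α₂, hC₂, hα₂, h2⟩ := pr_one
  obtain ⟨τ, hτ⟩ : ∃ τ : ℝ, τ = η / (4 * (J + 1)) := ⟨_, rfl⟩
  have hτ0 : 0 < τ := by rw [hτ]; positivity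
  obtain ⟨x₁, hx1, hx1'⟩ := exists_small (B := ((T + 1 : ℕ) : ℝ) * C₁) (by positivity) hα₁ hτ0
  obtain ⟨x₂, hx2, hx2'⟩ := exists_small (B := C₂) hC₂.le hα₂ hτ0
  obtain ⟨κ, hκ⟩ : ∃ κ : ℝ, κ = min κ₁ (min 1 (min (δ / 8) (min (δ * x₁ / 8) (δ * x₂ / 8)))) :=
    ⟨_, rfl⟩
  have hκ0 : 0 < κ := by rw [hκ]; positivity
  have k1 : κ ≤ κ₁ := by rw [hκ]; exact min_le_left _ _
  have k2 : κ ≤ 1 := by rw [hκ]; exact (min_le_right _ _).trans (min_le_left _ _)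
  have k3 : κ ≤ δ / 8 := by
    rw [hκ]; exact (min_le_right _ _).trans ((min_le_right _ _).trans (min_le_left _ _))
  have k4 : κ ≤ δ * x₁ / 8 := by
    rw [hκ]
    exact (min_le_right _ _).trans ((min_le_right _ _).trans ((min_le_right _ _).trans
      (min_le_left _ _)))
  have k5 : κ ≤ δ * x₂ / 8 := by
    rw [hκ]
    exact (min_le_right _ _).trans ((min_le_right _ _).trans ((min_le_right _ _).trans
      (min_le_right _ _)))
  have e1 : ∀ᶠ n : ℕ in Filter.atTop, 1 ≤ κ * (n : ℝ) :=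
    (tendsto_natCast_atTop_atTop.const_mul_atTop hκ0).eventually_ge_atTop 1
  have e2 : ∀ᶠ n : ℕ in Filter.atTop, 8 ≤ δ * (n : ℝ) :=
    (tendsto_natCast_atTop_atTop.const_mul_atTop hδ).eventually_ge_atTop _
  obtain ⟨n₀, hn₀⟩ := Filter.eventually_atTop.1 (hT.and (e1.and e2))
  refine ⟨κ, hκ0, n₀, ?_⟩
  intro n hn h Ru Cn ρ R hRu hCn hCn' hρ hρ' hR
  obtain ⟨hTn, f1, f2⟩ := hn₀ n hn
  have hn0 : (0 : ℝ) ≤ n := by positivity
  have g1 : κ * n ≤ κ₁ * n := mul_le_mul_of_nonneg_right k1 hn0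
  have g2 : κ * n ≤ 1 * n := mul_le_mul_of_nonneg_right k2 hn0
  have g3 : κ * n ≤ δ / 8 * n := mul_le_mul_of_nonneg_right k3 hn0
  have g4 : κ * n ≤ δ * x₁ / 8 * n := mul_le_mul_of_nonneg_right k4 hn0
  have g5 : κ * n ≤ δ * x₂ / 8 * n := mul_le_mul_of_nonneg_right k5 hn0
  have hρR : (ρ : ℝ) + δ / 2 * n ≤ R - 1 := by nlinarith
  have hρR' : ρ + 1 ≤ R := by
    have : (ρ : ℝ) + 1 ≤ R := by nlinarith
    exact_mod_cast this
  have hρ0 : (0 : ℝ) ≤ ρ := by exact_mod_cast hρ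
  have hden : δ / 2 * n ≤ R - ρ := by linarith
  have hden0 : (0 : ℝ) < δ / 2 * n := by linarith
  have hRp : (0 : ℝ) < R := by nlinarith
  -- the returns
  have t1 : ((T + 1 : ℕ) : ℝ) * (C₁ * ((2 * (ρ : ℝ) + 1) / (R - ρ)) ^ α₁) ≤ τ := by
    have q1 : (2 * (ρ : ℝ) + 1) / (R - ρ) ≤ x₁ := by
      rw [div_le_iff₀ (by linarith)]
      have q2 : x₁ * (δ / 2 * n) ≤ x₁ * (R - ρ) := mul_le_mul_of_nonneg_left hden hx1.le
      nlinarith
    have q3 := hx1' _ (div_nonneg (by linarith) (by linarith)) q1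
    calc _ = ((T + 1 : ℕ) : ℝ) * C₁ * ((2 * (ρ : ℝ) + 1) / (R - ρ)) ^ α₁ := by ring
      _ ≤ τ := q3
  have t2 : C₂ * ((((ρ + 1 : ℤ) : ℝ)) / R) ^ α₂ ≤ τ := by
    have q1 : (((ρ + 1 : ℤ) : ℝ)) / R ≤ x₂ := by
      rw [div_le_iff₀ hRp]
      push_cast
      have q2 : x₂ * (δ * n) ≤ x₂ * R := mul_le_mul_of_nonneg_left hR hx2.le
      nlinarith
    exact hx2' _ (div_nonneg (by push_cast; linarith) hRp.le) q1
  -- the base
  have hbase : ∀ j ω q, Ru j (cfgE n ω) = some q → phiV q.2 = phiV (Dct.ndB n Ru j ω) ∧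
      q.2 ∈ Box n := by
    intro j ω q hq
    refine ⟨by unfold Dct.ndB; rw [hq]; rfl, ?_⟩
    have h3 := hRu.ndl (cfgE n ω) (DictB.cfgE_subset n ω) j q hq
    exact rem_sub hRu j ω h3.base_mem
  have hone : ∀ j ∈ range J, pr (Sn n) {ω | (∃ N, BaseRet (exR n Ru j) N
      (phiV (Dct.ndB n Ru j ω)) ρ R (T + 1) ω) ∨
      ((exR n Ru j).OneWall 0 ω 0 (phiV (Dct.ndB n Ru j ω)) (ρ + 1) R ∨
        (exR n Ru j).OneWall 1 ω 0 (phiV (Dct.ndB n Ru j ω)) (ρ + 1) R)} ≤ 2 * τ := by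
    intro j _
    have a1 := h1 (Sn n) (exR n Ru j) (expl n Ru j) Set.univ (exR_ok hRu j)
      (fun _ _ _ _ => Set.mem_univ _) (fun ω _ => exR_sub hRu j ω)
      (fun ω _ => exR_disj n Ru j ω) (fun ω => phiV (Dct.ndB n Ru j ω)) ((ndB_adp hRu j).map _)
      ρ R (T + 1) hρ (by omega)
    have a2 := h2 (Sn n) (exR n Ru j) (expl n Ru j) Set.univ (exR_ok hRu j)
      (fun _ _ _ _ => Set.mem_univ _) (fun ω _ => exR_sub hRu j ω)
      (fun ω _ => exR_disj n Ru j ω) (fun ω => phiV (Dct.ndB n Ru j ω)) ((ndB_adp hRu j).map _)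
      (ρ + 1) R (by omega) (by omega)
    rw [PercT.TubeP.pr_univ, mul_one, Set.univ_inter] at a1 a2
    refine (pr_union_le (Sn n) {ω | ∃ N, BaseRet (exR n Ru j) N
      (phiV (Dct.ndB n Ru j ω)) ρ R (T + 1) ω}
      {ω | (exR n Ru j).OneWall 0 ω 0 (phiV (Dct.ndB n Ru j ω)) (ρ + 1) R ∨
        (exR n Ru j).OneWall 1 ω 0 (phiV (Dct.ndB n Ru j ω)) (ρ + 1) R}).trans ?_
    refine (add_le_add (a1.trans t1) (a2.trans t2)).trans (by linarith)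
  -- the union
  have hsub : {ω | ∃ j < J, Nds n Ru Cn N₀ j ω ∧ ∃ q, Ru j (cfgE n ω) = some q ∧
      BaseEv (exR n Ru j) ω (phiV q.2) ρ R} ⊆
      {ω | ∃ j < J, Nds n Ru Cn N₀ j ω ∧ (exR n Ru j).Wll ω ∧
        ∃ (y : ℤ × ℤ) (a b : ℤ) (N : ℕ), (a : ℝ) + δ / 2 * n ≤ b ∧
        (CountP.sd y 0 : ℝ) + a ≤ 3 * n ∧ Nb ((exR n Ru j).cf ω) ((exR n Ru j).e ω) N ∧
        Alt (fun t => InB y a ((exR n Ru j).p ω t)) (fun t => ¬ InB y b ((exR n Ru j).p ω t)) N T} ∪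
      {ω | ∃ j ∈ range J, ω ∈ {ω | (∃ N, BaseRet (exR n Ru j) N
        (phiV (Dct.ndB n Ru j ω)) ρ R (T + 1) ω) ∨
        ((exR n Ru j).OneWall 0 ω 0 (phiV (Dct.ndB n Ru j ω)) (ρ + 1) R ∨
          (exR n Ru j).OneWall 1 ω 0 (phiV (Dct.ndB n Ru j ω)) (ρ + 1) R)}} := by
    rintro ω ⟨j, hj, hN, q, hq, hB⟩
    obtain ⟨b1, b2⟩ := hbase j ω q hq
    rcases hB with hB | hB
    · obtain ⟨N, h3 | ⟨h3, h4, h5⟩⟩ := ret_or hρR' hB T
      · exact Or.inr ⟨j, Finset.mem_range.2 hj, Or.inl ⟨N, by rw [← b1]; exact h3⟩⟩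
      · refine Or.inl ⟨j, hj, hN, h3, phiV q.2, ρ, R - 1, N, ?_, ?_, h4, h5⟩
        · push_cast
          exact hρR
        · have h6 : ((CountP.sd (phiV q.2) 0 : ℤ) : ℝ) ≤ 2 * n := by
            exact_mod_cast sd_phiV_le b2
          linarith
    · exact Or.inr ⟨j, Finset.mem_range.2 hj, Or.inr (by rw [← b1]; exact hB)⟩
  refine (pr_mono _ hsub).trans ((pr_union_le _ _ _).trans ?_)
  have s1 := hTn h Ru Cn hRu hCn (hCn'.trans g1)
  have s2 := (PercL.pr_biUnion_le (W := Sn n) (range J) (fun j => {ω | (∃ N, BaseRet (exR n Ru j) N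
        (phiV (Dct.ndB n Ru j ω)) ρ R (T + 1) ω) ∨
        ((exR n Ru j).OneWall 0 ω 0 (phiV (Dct.ndB n Ru j ω)) (ρ + 1) R ∨
          (exR n Ru j).OneWall 1 ω 0 (phiV (Dct.ndB n Ru j ω)) (ρ + 1) R)})).trans
    (Finset.sum_le_sum hone)
  rw [Finset.sum_const, card_range, nsmul_eq_mul] at s2
  have s3 : (J : ℝ) * (2 * τ) ≤ η / 2 := by
    have : (2 * (J + 1 : ℝ)) * τ = η / 2 := by rw [hτ]; field_simp; ring
    nlinarith
  linarith

end Pool.Agent.SixB.BaseE
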