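import Pool.Agent.Lib.SixB.S8NearTop
import Pool.Agent.Lib.SixB.S8RareE

/-!
# Step 8: the event at the base for the rows

* `Bs`: the rare event at the base, the centre is the first vertex of the strand;
* `baseAll_bs`: it is rare, uniformly in the rule;
* `bsExt_bs`: it depends only on the data of the exploration.
-/

set_option autoImplicit false

namespace Pool.Agent.SixB.Tru

open Finset Pool.Agent.Perc Pool.Agent.PercT Pool.Agent.SixB Pool.Agent.SixB.NearCut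
  Pool.Agent.SixB.Top
open Pool.Agent.SixB.Near (Bx BaseRet)
open Pool.Agent.SixB.Rule Pool.Agent.SixB.Dct Pool.Agent.SixB.NM Pool.Agent.SixB.BaseE
open Pool.Agent.SixB.StkC (Alt)
open Pool.Agent.PercX60 (Sn)

/-- The rare event at the base, around the first vertex of the strand. -/
def Bs (E : Ex) (ω : Cfg) (ρ R : ℤ) : Prop := BaseE.BaseEv E ω (ua (E.e ω)) ρ R

/-! ### The place of the base -/

theorem eps_none {α : Type*} [h : Nonempty α] {p : α → Prop} (hp : ¬ ∃ x, p x) :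
    Classical.epsilon p = Classical.epsilon fun _ : α => False := by
  unfold Classical.epsilon Classical.strongIndefiniteDescription
  have h2 : ¬ ∃ x : α, (fun _ : α => False) x := fun ⟨_, h3⟩ => h3
  rw [dif_neg hp, dif_neg h2]

/-- The corner which stands for a missing needle. -/
noncomputable def kNo : PercU.Cor := Classical.epsilon fun _ => False

theorem sd_kU (k : PercU.Cor) : CountP.sd (ua (kU k)) (phiV (PercU.vtx k)) ≤ 1 := by
  obtain ⟨x, y, c, d⟩ := k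
  rw [CountP.sd_le_iff]
  cases c <;> cases d <;> simp only [kU, ua, phiV, PercU.vtx] <;> omega

theorem sd_tri (u v w : ℤ × ℤ) : CountP.sd u w ≤ CountP.sd u v + CountP.sd v w := by
  have h1 := (CountP.sd_le_iff (u := u) (v := v)).1 le_rfl
  have h2 := (CountP.sd_le_iff (u := v) (v := w)).1 le_rfl
  rw [CountP.sd_le_iff]
  omega

variable {n h : ℕ} {Ru : Rul} {j : ℕ} {ω : Cfg}

/-- The first vertex of the strand is in the box, or is a constant. -/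
theorem sd_e (hR : RulOK n h Ru) (j : ℕ) (ω : Cfg) :
    CountP.sd (ua ((exR n Ru j).e ω)) 0 ≤ 2 * n + 1 + CountP.sd (ua (kU kNo)) 0 := by
  have h0 : 0 ≤ CountP.sd (ua (kU kNo)) 0 := (abs_nonneg _).trans (le_max_left _ _)
  change CountP.sd (ua (kU (bc (rem n Ru j ω) (ndE n Ru j ω) (ndB n Ru j ω)))) 0 ≤ _
  by_cases hk : ∃ k, NdF (rem n Ru j ω) (ndE n Ru j ω) k ∧ PercU.vtx k = ndB n Ru j ω
  · obtain ⟨h1, h2⟩ := bc_spec hk
    have h3 := rem_sub hR j ω h1.base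
    have h4 := sd_phiV_le h3
    have h5 := sd_kU (bc (rem n Ru j ω) (ndE n Ru j ω) (ndB n Ru j ω))
    have h6 := sd_tri (ua (kU (bc (rem n Ru j ω) (ndE n Ru j ω) (ndB n Ru j ω))))
      (phiV (PercU.vtx (bc (rem n Ru j ω) (ndE n Ru j ω) (ndB n Ru j ω)))) 0
    omega
  · have h1 : bc (rem n Ru j ω) (ndE n Ru j ω) (ndB n Ru j ω) = kNo := eps_none hk
    rw [h1]
    omega

/-! ### The probability -/

/-- **The rare event at the base** is rare. -/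
theorem baseAll_bs : BaseAll Bs := by
  intro J N₀ δ η hδ hη
  obtain ⟨κ₁, hκ₁, T, hT⟩ := CountP.alt_all J N₀ (δ := δ / 2) (η := η / 2) (by positivity)
    (by positivity) 4
  obtain ⟨C₁, α₁, hC₁, hα₁, h1⟩ := pr_ret
  obtain ⟨C₂, α₂, hC₂, hα₂, h2⟩ := pr_one
  obtain ⟨τ, hτ⟩ : ∃ τ : ℝ, τ = η / (4 * (J + 1)) := ⟨_, rfl⟩
  have hτ0 : 0 < τ := by rw [hτ]; positivity
  obtain ⟨x₁, hx1, hx1'⟩ := exists_small (B := ((T + 1 : ℕ) : ℝ) * C₁) (by positivity) hα₁ hτ0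
  obtain ⟨x₂, hx2, hx2'⟩ := exists_small (B := C₂) hC₂.le hα₂ hτ0
  obtain ⟨κ, hκ⟩ : ∃ κ : ℝ, κ = min κ₁ (min 1 (min (δ / 8) (min (δ * x₁ / 8) (δ * x₂ / 8)))) :=
    ⟨_, rfl⟩
  have hκ0 : 0 < κ := by rw [hκ]; positivity
  have k1 : κ ≤ κ₁ := by rw [hκ]; exact min_le_left _ _
  have k2 : κ ≤ 1 := by rw [hκ]; exact (min_le_right _ _).trans (min_le_left _ _)
  have k3 : κ ≤ δ / 8 := by
    rw [hκ]; exact (min_le_right _ _).trans ((min_le_right _ _).trans (min_le_left _ _))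
  have k4 : κ ≤ δ * x₁ / 8 := by
    rw [hκ]
    exact (min_le_right _ _).trans ((min_le_right _ _).trans ((min_le_right _ _).trans
      (min_le_left _ _)))
  have k5 : κ ≤ δ * x₂ / 8 := by
    rw [hκ]
    exact (min_le_right _ _).trans ((min_le_right _ _).trans ((min_le_right _ _).trans
      (min_le_right _ _)))
  obtain ⟨K₀, hK₀⟩ : ∃ K₀ : ℤ, K₀ = CountP.sd (ua (kU kNo)) 0 := ⟨_, rfl⟩
  have e1 : ∀ᶠ n : ℕ in Filter.atTop, 1 ≤ κ * (n : ℝ) :=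
    (tendsto_natCast_atTop_atTop.const_mul_atTop hκ0).eventually_ge_atTop 1
  have e2 : ∀ᶠ n : ℕ in Filter.atTop, 8 ≤ δ * (n : ℝ) :=
    (tendsto_natCast_atTop_atTop.const_mul_atTop hδ).eventually_ge_atTop _
  have e3 : ∀ᶠ n : ℕ in Filter.atTop, 1 + (K₀ : ℝ) ≤ (n : ℝ) :=
    tendsto_natCast_atTop_atTop.eventually_ge_atTop _
  obtain ⟨n₀, hn₀⟩ := Filter.eventually_atTop.1 (hT.and (e1.and (e2.and e3)))
  refine ⟨κ, hκ0, n₀, ?_⟩
  intro n hn h Ru Cn ρ R hRu hCn hCn' hρ hρ' hR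
  obtain ⟨hTn, f1, f2, f3⟩ := hn₀ n hn
  have hn0 : (0 : ℝ) ≤ n := by positivity
  have g1 : κ * n ≤ κ₁ * n := mul_le_mul_of_nonneg_right k1 hn0
  have g2 : κ * n ≤ 1 * n := mul_le_mul_of_nonneg_right k2 hn0
  have g3 : κ * n ≤ δ / 8 * n := mul_le_mul_of_nonneg_right k3 hn0
  have g4 : κ * n ≤ δ * x₁ / 8 * n := mul_le_mul_of_nonneg_right k4 hn0
  have g5 : κ * n ≤ δ * x₂ / 8 * n := mul_le_mul_of_nonneg_right k5 hn0
  have hρR : (ρ : ℝ) + δ / 2 * n ≤ R - 1 := by nlinarith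
  have hρR' : ρ + 1 ≤ R := by
    have : (ρ : ℝ) + 1 ≤ R := by nlinarith
    exact_mod_cast this
  have hρ0 : (0 : ℝ) ≤ ρ := by exact_mod_cast hρ
  have hden : δ / 2 * n ≤ R - ρ := by linarith
  have hden0 : (0 : ℝ) < δ / 2 * n := by linarith
  have hRp : (0 : ℝ) < R := by nlinarith
  -- the returns
  have t1 : ((T + 1 : ℕ) : ℝ) * (C₁ * ((2 * (ρ : ℝ) + 1) / (R - ρ)) ^ α₁) ≤ τ := by
    have q1 : (2 * (ρ : ℝ) + 1) / (R - ρ) ≤ x₁ := by
      rw [div_le_iff₀ (by linarith)]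
      have q2 : x₁ * (δ / 2 * n) ≤ x₁ * (R - ρ) := mul_le_mul_of_nonneg_left hden hx1.le
      nlinarith
    have q3 := hx1' _ (div_nonneg (by linarith) (by linarith)) q1
    calc _ = ((T + 1 : ℕ) : ℝ) * C₁ * ((2 * (ρ : ℝ) + 1) / (R - ρ)) ^ α₁ := by ring
      _ ≤ τ := q3
  have t2 : C₂ * ((((ρ + 1 : ℤ) : ℝ)) / R) ^ α₂ ≤ τ := by
    have q1 : (((ρ + 1 : ℤ) : ℝ)) / R ≤ x₂ := by
      rw [div_le_iff₀ hRp]
      push_cast
      have q2 : x₂ * (δ * n) ≤ x₂ * R := mul_le_mul_of_nonneg_left hR hx2.le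
      nlinarith
    exact hx2' _ (div_nonneg (by push_cast; linarith) hRp.le) q1
  have hone : ∀ j ∈ range J, pr (Sn n) {ω | (∃ N, BaseRet (exR n Ru j) N
      (ua ((exR n Ru j).e ω)) ρ R (T + 1) ω) ∨
      ((exR n Ru j).OneWall 0 ω 0 (ua ((exR n Ru j).e ω)) (ρ + 1) R ∨
        (exR n Ru j).OneWall 1 ω 0 (ua ((exR n Ru j).e ω)) (ρ + 1) R)} ≤ 2 * τ := by
    intro j _
    have a1 := h1 (Sn n) (exR n Ru j) (expl n Ru j) Set.univ (exR_ok hRu j)
      (fun _ _ _ _ => Set.mem_univ _) (fun ω _ => exR_sub hRu j ω)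
      (fun ω _ => exR_disj n Ru j ω) (fun ω => ua ((exR n Ru j).e ω)) ((exR_ok hRu j).e.map _)
      ρ R (T + 1) hρ (by omega)
    have a2 := h2 (Sn n) (exR n Ru j) (expl n Ru j) Set.univ (exR_ok hRu j)
      (fun _ _ _ _ => Set.mem_univ _) (fun ω _ => exR_sub hRu j ω)
      (fun ω _ => exR_disj n Ru j ω) (fun ω => ua ((exR n Ru j).e ω)) ((exR_ok hRu j).e.map _)
      (ρ + 1) R (by omega) (by omega)
    rw [PercT.TubeP.pr_univ, mul_one, Set.univ_inter] at a1 a2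
    refine (pr_union_le (Sn n) {ω | ∃ N, BaseRet (exR n Ru j) N
      (ua ((exR n Ru j).e ω)) ρ R (T + 1) ω}
      {ω | (exR n Ru j).OneWall 0 ω 0 (ua ((exR n Ru j).e ω)) (ρ + 1) R ∨
        (exR n Ru j).OneWall 1 ω 0 (ua ((exR n Ru j).e ω)) (ρ + 1) R}).trans ?_
    refine (add_le_add (a1.trans t1) (a2.trans t2)).trans (by linarith)
  -- the union
  have hsub : {ω | ∃ j < J, Nds n Ru Cn N₀ j ω ∧ Bs (exR n Ru j) ω ρ R} ⊆
      {ω | ∃ j < J, Nds n Ru Cn N₀ j ω ∧ (exR n Ru j).Wll ω ∧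
        ∃ (y : ℤ × ℤ) (a b : ℤ) (N : ℕ), (a : ℝ) + δ / 2 * n ≤ b ∧
        (CountP.sd y 0 : ℝ) + a ≤ 4 * n ∧ Nb ((exR n Ru j).cf ω) ((exR n Ru j).e ω) N ∧
        Alt (fun t => InB y a ((exR n Ru j).p ω t)) (fun t => ¬ InB y b ((exR n Ru j).p ω t)) N T} ∪
      {ω | ∃ j ∈ range J, ω ∈ {ω | (∃ N, BaseRet (exR n Ru j) N
        (ua ((exR n Ru j).e ω)) ρ R (T + 1) ω) ∨
        ((exR n Ru j).OneWall 0 ω 0 (ua ((exR n Ru j).e ω)) (ρ + 1) R ∨
          (exR n Ru j).OneWall 1 ω 0 (ua ((exR n Ru j).e ω)) (ρ + 1) R)}} := by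
    rintro ω ⟨j, hj, hN, hB⟩
    rcases hB with hB | hB
    · obtain ⟨N, h3 | ⟨h3, h4, h5⟩⟩ := ret_or hρR' hB T
      · exact Or.inr ⟨j, Finset.mem_range.2 hj, Or.inl ⟨N, h3⟩⟩
      · refine Or.inl ⟨j, hj, hN, h3, ua ((exR n Ru j).e ω), ρ, R - 1, N, ?_, ?_, h4, h5⟩
        · push_cast
          exact hρR
        · have h6 : ((CountP.sd (ua ((exR n Ru j).e ω)) 0 : ℤ) : ℝ) ≤ 2 * n + 1 + K₀ := by
            rw [hK₀]
            exact_mod_cast sd_e hRu j ω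
          linarith
    · exact Or.inr ⟨j, Finset.mem_range.2 hj, Or.inr hB⟩
  refine (pr_mono _ hsub).trans ((pr_union_le _ _ _).trans ?_)
  have s1 := hTn h Ru Cn hRu hCn (hCn'.trans g1)
  have s2 := (PercL.pr_biUnion_le (W := Sn n) (range J) (fun j => {ω | (∃ N, BaseRet (exR n Ru j) N
        (ua ((exR n Ru j).e ω)) ρ R (T + 1) ω) ∨
        ((exR n Ru j).OneWall 0 ω 0 (ua ((exR n Ru j).e ω)) (ρ + 1) R ∨
          (exR n Ru j).OneWall 1 ω 0 (ua ((exR n Ru j).e ω)) (ρ + 1) R)})).trans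
    (Finset.sum_le_sum hone)
  rw [Finset.sum_const, card_range, nsmul_eq_mul] at s2
  have s3 : (J : ℝ) * (2 * τ) ≤ η / 2 := by
    have : (2 * (J + 1 : ℝ)) * τ = η / 2 := by rw [hτ]; field_simp; ring
    nlinarith
  linarith

/-! ### The data -/

section ext

variable {E E' : Ex} {ω ω' : Cfg} {s t : ℕ} {c : ℤ} {z : ℤ × ℤ} {r R ρ : ℤ}

theorem touch_ext (hU : E'.U ω' = E.U ω) (hc : E'.cf ω' = E.cf ω) (he : E'.e ω' = E.e ω) :
    E'.Touch c ω' s t ↔ E.Touch c ω s t := by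
  unfold Ex.Touch
  rw [Ex.fr_ext hU hc he, Ex.p_ext hc he, hc]

theorem oneWall_ext (hU : E'.U ω' = E.U ω) (hc : E'.cf ω' = E.cf ω) (he : E'.e ω' = E.e ω) :
    E'.OneWall c ω' s z r R ↔ E.OneWall c ω s z r R := by
  unfold Ex.OneWall
  simp only [touch_ext hU hc he, Ex.p_ext hc he]

theorem ret_ext (hU : E'.U ω' = E.U ω) (hc : E'.cf ω' = E.cf ω) (he : E'.e ω' = E.e ω) :
    BaseE.Ret E' ω' z ρ R ↔ BaseE.Ret E ω z ρ R := by
  unfold BaseE.Ret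
  simp only [Ex.wll_ext hU hc he, Ex.fr_ext hU hc he, Ex.p_ext hc he, hU, hc, he]

/-- **The event at the base depends only on the data.** -/
theorem bsExt_bs : BsExt Bs := by
  intro E E' ω ρ R hU hc he
  unfold Bs BaseE.BaseEv
  rw [he, ret_ext hU hc he, oneWall_ext hU hc he, oneWall_ext hU hc he]

end ext

end Pool.Agent.SixB.Tru
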