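import Pool.Agent.Lib.SixB.S8OutRow
import Pool.Agent.Lib.SixB.S8FinH
import Pool.Agent.Lib.SixB.S8NearTouch

/-!
# Step 8: from the strand to the coarse tip

`nearR_iff`: `NearR` as a sup distance. `nearR_box`: the strand is in a box around the base and the tip
is near the base. `nearR_face`: the strand is near a face of the domain of the move. `nearR_fbox`: the
strand is in a box around the base and the base is near a face of the domain of the move. `nearR_end`: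
the last stage, the target side is near the base. `len_le`: the size of the block.
-/

set_option autoImplicit false

namespace Pool.Agent.SixB.TipCv

open Pool.Agent.Perc Pool.Agent.Perc.Tips Pool.Agent.PercT Pool.Agent.PercX60
open Pool.Agent.SixB Pool.Agent.SixB.Rule Pool.Agent.SixB.Dct Pool.Agent.SixB.Mv Pool.Agent.SixB.Tru
open Pool.Agent.SixB.Cov Pool.Agent.SixB.Top
open Pool.Agent.SixB.Ndle (sd sd_triangle sd_comm)

variable {𝔇 : Dat} {d : ℕ → ℕ} {n t i : ℕ} {ω : Cfg} {V : Finset (ℤ × ℤ)} {q : Rule.Ndl}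

/-- The point `w` of the coarse lattice. -/
def up (d : ℕ → ℕ) (n : ℕ) (w : ℤ × ℤ) : ℤ × ℤ := ((unt d n : ℤ) * w.1, (unt d n : ℤ) * w.2)

theorem nearR_iff {ρ : ℤ} {w : ℤ × ℤ} :
    NearR d n ω (ρ : ℝ) V q w t ↔ sd (ua (pS V q ω t)) (up d n w) ≤ ρ := by
  unfold NearR sd up
  simp only [Int.cast_le, max_le_iff]

theorem NearR.mono' {ρ ρ' : ℝ} {w : ℤ × ℤ} (h : NearR d n ω ρ V q w t) (hρ : ρ ≤ ρ') :
    NearR d n ω ρ' V q w t := ⟨h.1.trans hρ, h.2.trans hρ⟩

theorem nearR_of_le {ρ : ℤ} {r : ℝ} {w : ℤ × ℤ} (h : sd (ua (pS V q ω t)) (up d n w) ≤ ρ) (hr : (ρ : ℝ) ≤ r) :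
    NearR d n ω r V q w t := NearR.mono' (nearR_iff.2 h) hr

theorem inB_sd {z : ℤ × ℤ} {R : ℤ} {a : UE} : Pool.Agent.SixB.InB z R a ↔ sd (ua a) z ≤ R := by
  unfold Pool.Agent.SixB.InB InR sd
  rw [max_le_iff, abs_le, abs_le]
  constructor
  · rintro ⟨h1, h2, h3, h4⟩
    exact ⟨⟨by omega, by omega⟩, by omega, by omega⟩
  · rintro ⟨⟨h1, h2⟩, h3, h4⟩
    exact ⟨by omega, by omega, by omega, by omega⟩

/-- **The strand is near the base and the tip is near the base.** -/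
theorem nearR_box {k R : ℤ} {w : ℤ × ℤ} (hk : sd (up d n w) (ua (Tru.eS V q)) ≤ k)
    (h : Pool.Agent.SixB.InB (ua (Tru.eS V q)) R (pS V q ω t)) : NearR d n ω ((R + k : ℤ) : ℝ) V q w t := by
  rw [nearR_iff]
  have h1 := inB_sd.1 h
  have h2 := sd_triangle (ua (pS V q ω t)) (ua (Tru.eS V q)) (up d n w)
  rw [sd_comm (ua (Tru.eS V q))] at h2
  omega

/-! ### Faces of the domain of the move -/

/-- the coarse cell of a face and the face -/
theorem cl_near {u : ℕ} (hu : 0 < u) {f w : ℤ × ℤ} {m : ℤ} (h1 : |(f.1 / (u : ℤ)) - w.1| < m)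
    (h2 : |(f.2 / (u : ℤ)) - w.2| < m) : sd f ((u : ℤ) * w.1, (u : ℤ) * w.2) ≤ u * m := by
  have hu' : (0 : ℤ) < u := by exact_mod_cast hu
  have key : ∀ x y : ℤ, |x / (u : ℤ) - y| < m → |x - u * y| ≤ u * m := by
    intro x y h
    rw [abs_lt] at h
    have a1 := Int.lt_ediv_add_one_mul_self x hu'
    have a2 := Int.ediv_mul_le x hu'.ne'
    have b1 : x / (u : ℤ) ≤ y + m - 1 := by omega
    have b2 : y - m + 1 ≤ x / (u : ℤ) := by omega
    have c1 : (x / (u : ℤ) + 1) * u ≤ (y + m) * u := mul_le_mul_of_nonneg_right (by omega) hu'.le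
    have c2 : (y - m) * u ≤ (x / (u : ℤ)) * u := mul_le_mul_of_nonneg_right (by omega) hu'.le
    rw [abs_le]
    constructor <;> nlinarith
  exact max_le (key _ _ h1) (key _ _ h2)

variable {D : Dom} {g : Grd} {ρ : Rec}

/-- A face whose cell is near the tip. -/
theorem face_near (hu : 0 < unt d n) {f : ℤ × ℤ}
    (hf : |(Blow.cl (unt d n) f).1 - D.tip.1| < (g.M + 1) * g.L ∧
      |(Blow.cl (unt d n) f).2 - D.tip.2| < (g.M + 1) * g.L) :
    sd f (up d n D.tip) ≤ unt d n * ((g.M + 1) * g.L) := cl_near hu hf.1 hf.2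

/-- **The strand is near a face of the domain of the move.** -/
theorem nearR_face (hu : 0 < unt d n) (hV : D.Val g) {f : ℤ × ℤ} {e : ℤ} (hf : f ∈ blow (unt d n) (D.dom g))
    (h : sd (ua (pS V q ω t)) f ≤ e) :
    NearR d n ω ((e + unt d n * ((g.M + 1) * g.L) : ℤ) : ℝ) V q D.tip t := by
  rw [nearR_iff]
  have h1 := face_near hu (dom_near hV hf)
  have h2 := sd_triangle (ua (pS V q ω t)) f (up d n D.tip)
  omega

/-- the same for the part in front of the barrier -/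
theorem nearR_inr (hu : 0 < unt d n) (hV : D.Val g) {f : ℤ × ℤ} {e : ℤ} (hf : f ∈ blow (unt d n) (D.inr g))
    (h : sd (ua (pS V q ω t)) f ≤ e) :
    NearR d n ω ((e + unt d n * ((g.M + 1) * g.L) : ℤ) : ℝ) V q D.tip t :=
  nearR_face hu hV (f := f) (inr_sub_dom hV hf) h

/-- **The strand is near the base and the base is near a face of the domain of the move.** -/
theorem nearR_fbox (hu : 0 < unt d n) (hV : D.Val g) {f : ℤ × ℤ} {R D₁ : ℤ} (hf : f ∈ blow (unt d n) (D.dom g))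
    (h1 : sd (ua (Tru.eS V q)) f ≤ D₁) (h2 : Pool.Agent.SixB.InB (ua (Tru.eS V q)) R (pS V q ω t)) :
    NearR d n ω ((R + D₁ + unt d n * ((g.M + 1) * g.L) : ℤ) : ℝ) V q D.tip t := by
  refine nearR_face hu hV hf ?_
  have h3 := inB_sd.1 h2
  have h4 := sd_triangle (ua (pS V q ω t)) (ua (Tru.eS V q)) f
  omega

/-- the same for the part in front of the barrier -/
theorem nearR_ibox (hu : 0 < unt d n) (hV : D.Val g) {f : ℤ × ℤ} {R D₁ : ℤ} (hf : f ∈ blow (unt d n) (D.inr g))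
    (h1 : sd (ua (Tru.eS V q)) f ≤ D₁) (h2 : Pool.Agent.SixB.InB (ua (Tru.eS V q)) R (pS V q ω t)) :
    NearR d n ω ((R + D₁ + unt d n * ((g.M + 1) * g.L) : ℤ) : ℝ) V q D.tip t :=
  nearR_fbox hu hV (f := f) (inr_sub_dom hV hf) h1 h2

/-! ### The last stage -/

theorem sd_ahead_lf (x : UE × Bool) : sd (lf x) (ahead x) ≤ 1 := by
  obtain ⟨h1, h2⟩ := isCor_in_lf x
  unfold sd
  rw [max_le_iff, abs_le, abs_le]
  omega

theorem sd_up {w w' : ℤ × ℤ} {m : ℤ} (h : sd w w' ≤ m) : sd (up d n w) (up d n w') ≤ unt d n * m := by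
  unfold sd up at *
  rw [max_le_iff] at h ⊢
  have h0 : (0 : ℤ) ≤ unt d n := Int.natCast_nonneg _
  constructor
  · simp only
    rw [← mul_sub, abs_mul, abs_of_nonneg h0]
    exact mul_le_mul_of_nonneg_left h.1 h0
  · simp only
    rw [← mul_sub, abs_mul, abs_of_nonneg h0]
    exact mul_le_mul_of_nonneg_left h.2 h0

/-- In the last stage the target side is near the tip. -/
theorem end_near (hV : D.Val g) (hρ : D.RecOk g ρ) (hE : D.End g ρ) :
    sd (up d n D.tip) (up d n (lf D.B)) ≤ unt d n * ((g.M + 1) * g.L) := by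
  have h1 := ent_near hV hρ hE
  have h2 := sd_ahead_lf D.B
  refine sd_up ?_
  unfold sd at h2 ⊢
  rw [max_le_iff] at h2 ⊢
  rw [abs_lt, abs_lt] at h1
  rw [abs_le, abs_le] at h2
  rw [abs_le, abs_le]
  omega

/-- **The last stage.** -/
theorem nearR_end {k R : ℤ} (hV : D.Val g) (hρ : D.RecOk g ρ) (hE : D.End g ρ)
    (hk : sd (up d n (lf D.B)) (ua (Tru.eS V q)) ≤ k) (h : Pool.Agent.SixB.InB (ua (Tru.eS V q)) R (pS V q ω t)) :
    NearR d n ω ((R + (k + unt d n * ((g.M + 1) * g.L)) : ℤ) : ℝ) V q D.tip t := by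
  refine nearR_box ?_ h
  have h1 := end_near (d := d) (n := n) hV hρ hE
  have h2 := sd_triangle (up d n D.tip) (up d n (lf D.B)) (ua (Tru.eS V q))
  omega

/-- the face on the left of a unit edge -/
theorem fa_ua (a : UE) : sd (fa a) (ua a) ≤ 1 := by
  have key : ∀ f : ℤ × ℤ, IsSide f a → f.1 ≤ (ua a).1 ∧ (ua a).1 ≤ f.1 + 1 ∧ f.2 ≤ (ua a).2 ∧
      (ua a).2 ≤ f.2 + 1 := by
    intro f h
    rcases h with rfl | rfl | rfl | rfl <;> simp [ua, bo, le', to', ri]
  have h1 := key _ (isSide_fa a)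
  unfold sd
  rw [max_le_iff, abs_le, abs_le]
  omega

/-- The target side is near the base (from `NearB` of `S8FinD`). -/
theorem base_near {s : TS} {r : ℤ} (hu : 0 < unt d n) (hL : 0 ≤ (𝔇.gr d s.x D).L)
    (h : Cov.NearB 𝔇 d n s q D ω r) :
    sd (up d n (lf D.B)) (ua (Tru.eS s.V q)) ≤ unt d n + r + 1 := by
  have hu' : (0 : ℤ) < unt d n := by exact_mod_cast hu
  have h0 : Blow.cl (unt d n) (up d n (ahead D.B)) = ahead D.B := by
    unfold Blow.cl up
    simp only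
    rw [Int.mul_ediv_cancel_left _ hu'.ne', Int.mul_ediv_cancel_left _ hu'.ne']
  have h1 := h (up d n (ahead D.B)) (by
    rw [h0]
    refine ⟨?_, ?_⟩ <;> simp only [sub_self, abs_zero] <;> positivity)
  have h2 := sd_up (d := d) (n := n) (sd_ahead_lf D.B)
  have h3 : sd (fa (pS s.V q ω 0)) (ua (Tru.eS s.V q)) ≤ 1 := by
    rw [pS, pth_zero]
    exact fa_ua _
  have h4 := sd_triangle (up d n (lf D.B)) (up d n (ahead D.B)) (ua (Tru.eS s.V q))
  have h5 := sd_triangle (up d n (ahead D.B)) (fa (pS s.V q ω 0)) (ua (Tru.eS s.V q))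
  rw [sd_comm (up d n (ahead D.B)) (fa _)] at h5
  omega

/-! ### Numbers -/

/-- **The size of the block.** -/
theorem len_le {κ : ℕ} (h : d i ≤ d 0) :
    ((unt d n * ((msz κ d i + 1) * msh d i) : ℤ) : ℝ) ≤ n / 2 ^ κ + 2 * (n / 2 ^ d i) := by
  have hu : (unt d n : ℝ) ≤ n / 2 ^ d 0 := by
    unfold unt
    rw [le_div_iff₀ (by positivity)]
    have := Nat.div_mul_le_self n (2 ^ d 0)
    exact_mod_cast this
  have hu0 : (0 : ℝ) ≤ unt d n := Nat.cast_nonneg _
  have hn : (0 : ℝ) ≤ n := Nat.cast_nonneg _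
  have hL : ((msh d i : ℤ) : ℝ) = 2 ^ (d 0 - d i) := by
    unfold msh
    push_cast
    rfl
  have hM : ((msz κ d i : ℤ) : ℝ) = 2 ^ (d i - κ) := by
    unfold msz
    push_cast
    rfl
  have e1 : (unt d n : ℝ) * (2 : ℝ) ^ (d 0 - d i) ≤ n / 2 ^ d i := by
    calc (unt d n : ℝ) * (2 : ℝ) ^ (d 0 - d i) ≤ n / 2 ^ d 0 * (2 : ℝ) ^ (d 0 - d i) :=
          mul_le_mul_of_nonneg_right hu (by positivity)
      _ = n / 2 ^ d i := by
          rw [div_mul_eq_mul_div, div_eq_div_iff (by positivity) (by positivity), mul_assoc, ← pow_add,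
            Nat.sub_add_cancel h]
  have e2 : (unt d n : ℝ) * ((2 : ℝ) ^ (d i - κ) * (2 : ℝ) ^ (d 0 - d i)) ≤ n / 2 ^ κ + n / 2 ^ d i := by
    rcases le_total κ (d i) with hκ | hκ
    · have : (unt d n : ℝ) * ((2 : ℝ) ^ (d i - κ) * (2 : ℝ) ^ (d 0 - d i)) ≤ n / 2 ^ κ := by
        calc (unt d n : ℝ) * ((2 : ℝ) ^ (d i - κ) * (2 : ℝ) ^ (d 0 - d i)) ≤
              n / 2 ^ d 0 * ((2 : ℝ) ^ (d i - κ) * (2 : ℝ) ^ (d 0 - d i)) :=
              mul_le_mul_of_nonneg_right hu (by positivity)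
          _ = n / 2 ^ κ := by
              rw [div_mul_eq_mul_div, div_eq_div_iff (by positivity) (by positivity), mul_assoc, ← pow_add,
                ← pow_add]
              congr 2
              omega
      have h3 : (0 : ℝ) ≤ n / 2 ^ d i := by positivity
      linarith
    · rw [Nat.sub_eq_zero_of_le hκ, pow_zero, one_mul]
      have h3 : (0 : ℝ) ≤ n / 2 ^ κ := by positivity
      linarith
  push_cast
  rw [hL, hM]
  calc (unt d n : ℝ) * ((2 ^ (d i - κ) + 1) * 2 ^ (d 0 - d i)) =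
        (unt d n : ℝ) * ((2 : ℝ) ^ (d i - κ) * (2 : ℝ) ^ (d 0 - d i)) +
          (unt d n : ℝ) * (2 : ℝ) ^ (d 0 - d i) := by ring
    _ ≤ n / 2 ^ κ + n / 2 ^ d i + n / 2 ^ d i := add_le_add e2 e1
    _ = _ := by ring

/-- The size of the block of the stage after the stage `i` of the chain. -/
theorem gr_len_le (h : d (i + 1) ≤ d 0) (D : Dom) :
    ((unt d n * (((𝔇.gr d (tst 𝔇 d n ω i).x D).M + 1) * (𝔇.gr d (tst 𝔇 d n ω i).x D).L) : ℤ) : ℝ) ≤
      n / 2 ^ 𝔇.kap + 2 * (n / 2 ^ d (i + 1)) := by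
  show ((unt d n * ((msz 𝔇.kap d (tst 𝔇 d n ω i).x.length + 1) * msh d (tst 𝔇 d n ω i).x.length) : ℤ) : ℝ) ≤ _
  rw [tst_len]
  exact len_le h

end Pool.Agent.SixB.TipCv
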