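import Pool.Agent.Lib.SixB.S8NMAll
import Pool.Agent.Lib.SixB.S8Rare
import Pool.Agent.Lib.SixB.S8ChainR
import Pool.Agent.Lib.SixB.S8CountP

/-!
# Step 8: the row `rare`, the gates

* `ls_le`, `ls_ge`: the length `ls d n e` is between `n / 2 ^ (e + 1)` and `n / 2 ^ e`;
* `ZG 𝔇 c₀ N₀ d n m`: in one of the steps there is a new gate of the width `gW d n m`, at the distance
  `gR d n m` from the tip and from the base; the needles up to this step have at most `N₀` pieces off a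
  spot of radius `c₀ * ls d n (d m)`;
* `zG_small`: the event is rare;
* `gateS_mem`: the gates of the state of the stage `m` belong to this event, if there is no gate at the
  time `0`.
-/

set_option autoImplicit false

namespace Pool.Agent.SixB.TruG

open Filter Topology Finset Pool.Agent.Perc Pool.Agent.PercT Pool.Agent.PercX60
open Pool.Agent.SixB Pool.Agent.SixB.Rule Pool.Agent.SixB.Dct Pool.Agent.SixB.Mv
open Pool.Agent.SixB.Tru Pool.Agent.SixB.TruR Pool.Agent.SixB.NearCut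
open Pool.Agent.SixB.Near (Bx)

/-! ### The lengths -/

theorem ls_le (d : ℕ → ℕ) (n : ℕ) {e : ℕ} (he : e ≤ d 0) : (Sc.ls d n e : ℝ) ≤ n / 2 ^ e := by
  unfold Sc.ls
  push_cast
  have h1 : ((n / 2 ^ d 0 : ℕ) : ℝ) ≤ (n : ℝ) / 2 ^ d 0 := by
    have := Nat.cast_div_le (α := ℝ) (m := n) (n := 2 ^ d 0)
    push_cast at this
    exact this
  have h2 : (2 : ℝ) ^ d 0 = 2 ^ (d 0 - e) * 2 ^ e := by
    rw [← pow_add]
    congr 1
    omega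
  calc ((n / 2 ^ d 0 : ℕ) : ℝ) * 2 ^ (d 0 - e) ≤ (n : ℝ) / 2 ^ d 0 * 2 ^ (d 0 - e) :=
        mul_le_mul_of_nonneg_right h1 (by positivity)
    _ = n / 2 ^ e := by
      rw [h2]
      field_simp

theorem ls_ge (d : ℕ → ℕ) {n e : ℕ} (he : e ≤ d 0) (hn : 2 ^ (d 0 + 1) ≤ n) :
    (n : ℝ) / 2 ^ (e + 1) ≤ Sc.ls d n e := by
  unfold Sc.ls
  push_cast
  have h0 : (0 : ℝ) < 2 ^ d 0 := by positivity
  have h1 : (n : ℝ) / 2 ^ (d 0 + 1) ≤ ((n / 2 ^ d 0 : ℕ) : ℝ) := by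
    have h3 : (n : ℝ) / 2 ^ d 0 < ((n / 2 ^ d 0 : ℕ) : ℝ) + 1 := by
      have h4 := Nat.lt_div_mul_add (a := n) (show 0 < 2 ^ d 0 by positivity)
      have h5 : (n : ℝ) < ((n / 2 ^ d 0 : ℕ) : ℝ) * 2 ^ d 0 + 2 ^ d 0 := by exact_mod_cast h4
      rw [div_lt_iff₀ h0]
      linarith
    have h6 : (2 : ℝ) ^ (d 0 + 1) ≤ n := by exact_mod_cast hn
    have h7 : (1 : ℝ) ≤ (n : ℝ) / 2 ^ (d 0 + 1) := by
      rw [le_div_iff₀ (by positivity)]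
      linarith
    have h8 : (n : ℝ) / 2 ^ d 0 = 2 * ((n : ℝ) / 2 ^ (d 0 + 1)) := by
      rw [pow_succ]
      field_simp
    linarith
  have h2 : (2 : ℝ) ^ (d 0 + 1) = 2 ^ (d 0 - e) * 2 ^ (e + 1) := by
    rw [← pow_add]
    congr 1
    omega
  calc (n : ℝ) / 2 ^ (e + 1) = (n : ℝ) / 2 ^ (d 0 + 1) * 2 ^ (d 0 - e) := by
        rw [h2]
        field_simp
    _ ≤ _ := mul_le_mul_of_nonneg_right h1 (by positivity)

/-! ### The event -/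

/-- New gates in one of the steps, at the scales of the stage `m`. -/
def ZG (𝔇 : Dat) (c₀ : ℤ) (N₀ : ℕ) (d : ℕ → ℕ) (n m : ℕ) : Set Cfg :=
  {ω | ∃ j < 𝔇.m, NM.Nds n (ruleT 𝔇 d n) (c₀ * Sc.ls d n (d m)) N₀ j ω ∧ ∃ N, ∃ z₁ : ℤ × ℤ,
    NM.NewG (exR n (ruleT 𝔇 d n) j) ω N z₁ (gW d n m) (gR d n m)}

/-- **New gates are rare.** -/
theorem zG_small (𝔇 : Dat) {c₀ : ℤ} (hc₀ : 0 ≤ c₀) (N₀ : ℕ) (m e : ℕ) {η : ℝ} (hη : 0 < η) :
    ∃ L : ℕ, ∀ d : ℕ → ℕ, d (m + 1) = e → L ≤ d m → d m ≤ d 0 →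
      ∀ᶠ n in atTop, pr (Sn n) (ZG 𝔇 c₀ N₀ d n m) ≤ η := by
  obtain ⟨κ, hκ, n₀, hmain⟩ := NM.near_all 𝔇.m N₀ (δ := 1 / 2 ^ (e + 7)) (by positivity) hη
  obtain ⟨J, hJ⟩ : ∃ J : ℕ, (8 + (c₀ : ℝ)) * (1 / 2) ^ J ≤ κ := by
    have hc : (0 : ℝ) < 8 + c₀ := by
      have : (0 : ℝ) ≤ c₀ := by exact_mod_cast hc₀
      linarith
    obtain ⟨J, hJ⟩ := exists_pow_lt_of_lt_one (div_pos hκ hc) (show (1 / 2 : ℝ) < 1 by norm_num)
    refine ⟨J, ?_⟩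
    rw [lt_div_iff₀ hc] at hJ
    linarith
  refine ⟨3 * J + 3 + (e + 6), fun d hd hL hd0 => ?_⟩
  filter_upwards [eventually_ge_atTop n₀, eventually_ge_atTop (2 ^ (d 0 + 1))] with n hn hn2
  have hn0 : (0 : ℝ) ≤ n := Nat.cast_nonneg n
  have key : ∀ a, J ≤ a → a ≤ d 0 → (8 + (c₀ : ℝ)) * Sc.ls d n a ≤ κ * n := by
    intro a ha ha0
    have h1 := ls_le d n ha0
    have hc : (0 : ℝ) ≤ c₀ := by exact_mod_cast hc₀
    have h2 : (n : ℝ) / 2 ^ a ≤ n * (1 / 2) ^ J := by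
      rw [div_eq_mul_one_div]
      refine mul_le_mul_of_nonneg_left ?_ hn0
      rw [one_div_pow]
      exact one_div_le_one_div_of_le (by positivity) (pow_le_pow_right₀ (by norm_num) ha)
    calc (8 + (c₀ : ℝ)) * Sc.ls d n a ≤ (8 + (c₀ : ℝ)) * (n * (1 / 2) ^ J) :=
          mul_le_mul_of_nonneg_left (h1.trans h2) (by linarith)
      _ = (8 + (c₀ : ℝ)) * (1 / 2) ^ J * n := by ring
      _ ≤ κ * n := mul_le_mul_of_nonneg_right hJ hn0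
  have hl0 : ∀ a, (0 : ℝ) ≤ Sc.ls d n a := fun a => by exact_mod_cast Sc.ls_nonneg d n a
  have hcR : (0 : ℝ) ≤ c₀ := by exact_mod_cast hc₀
  refine hmain n hn (n / 𝔇.K) (ruleT 𝔇 d n) (c₀ * Sc.ls d n (d m)) (gW d n m) (gR d n m)
    (ruleT_ok 𝔇 d n) (mul_nonneg hc₀ (Sc.ls_nonneg d n _)) ?_ ?_ ?_ ?_
  · have h1 := key (d m) (by omega) hd0
    push_cast
    nlinarith [hl0 (d m)]
  · exact mul_nonneg (by norm_num) (Sc.ls_nonneg d n _)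
  · have h1 := key (Sc.eR (d m) (d (m + 1))) (by unfold Sc.eR; omega) (by unfold Sc.eR; omega)
    unfold gW
    push_cast
    nlinarith [hl0 (Sc.eR (d m) (d (m + 1)))]
  · have h1 := ls_ge d (e := d (m + 1) + 6) (by omega) hn2
    unfold gR
    rw [hd] at h1 ⊢
    calc 1 / 2 ^ (e + 7) * (n : ℝ) = n / 2 ^ (e + 6 + 1) := by ring
      _ ≤ _ := h1

theorem groF_le {G : ℕ → ℕ → ℕ} (hG : ∀ i e, e ≤ G i e) {m : ℕ} {d : ℕ → ℕ} (h : GroF G m d) :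
    ∀ i ≤ m, d i ≤ d 0 := by
  intro i
  induction i with
  | zero => intro _; exact le_rfl
  | succ i ih =>
    intro hi
    exact ((hG i _).trans (h i (by omega))).trans (ih (by omega))

/-- **New gates are rare**, in the form of the row `rare`. -/
theorem smZ_ZG (𝔇 : Dat) {G : ℕ → ℕ → ℕ} (hG : ∀ i e, e ≤ G i e) {c₀ : ℤ} (hc₀ : 0 ≤ c₀)
    (N₀ : ℕ) : SmZ G (ZG 𝔇 c₀ N₀) := by
  intro m e η hη
  obtain ⟨L, hL⟩ := zG_small 𝔇 hc₀ N₀ m e hη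
  exact ⟨L, fun d h1 h2 h3 => hL d h1 h2 (groF_le hG h3 m (by omega))⟩

/-! ### The gates of the states -/

/-- A running coarse state has placed at most `m` needles. -/
theorem cst_j_le {π : Prm} {d : ℕ → ℕ} {W₀ : Set (ℤ × ℤ)} {x : List Rec} {s : Dom}
    (hs : (cst π d W₀ x).run = some s) : (cst π d W₀ x).j ≤ π.m := by
  induction x generalizing s with
  | nil => cases hs
  | cons ρ x ih =>
    change ((cst π d W₀ x).mv π (msh d x.length) (msz π.kap d x.length) ρ).run = some s at hs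
    change ((cst π d W₀ x).mv π (msh d x.length) (msz π.kap d x.length) ρ).j ≤ π.m
    unfold CSt.mv at hs ⊢
    split
    · rename_i s₀ h₀
      split_ifs
      · exact ih h₀
      · exact ih h₀
      · exact ih h₀
    · rename_i h₀
      rw [h₀] at hs
      simp only at hs
      split_ifs at hs ⊢ with h1
      exact h1.1

section Gates

variable {𝔇 : Dat} {d : ℕ → ℕ} {n m : ℕ} {ω : Cfg} {q : Rule.Ndl} {c₀ : ℤ} {N₀ : ℕ}

/-- The number of the running step. -/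
theorem exists_run (hq : (tst 𝔇 d n ω m).q = some q) :
    ∃ j < 𝔇.m, cnt 𝔇 d (tst 𝔇 d n ω m) = j + 1 := by
  obtain ⟨D, hD⟩ := (stOK_tst 𝔇 d n ω m).run q hq
  obtain ⟨j, hj, -, -⟩ := run_of 𝔇 d n hq
  refine ⟨j, ?_, hj⟩
  have h1 : cnt 𝔇 d (tst 𝔇 d n ω m) ≤ 𝔇.m := cst_j_le (π := 𝔇.prm d) hD
  omega

/-- The exploration of the state and the exploration of the rule. -/
theorem run_U {j : ℕ} (hq : (tst 𝔇 d n ω m).q = some q) (hj : cnt 𝔇 d (tst 𝔇 d n ω m) = j + 1) :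
    (exR n (ruleT 𝔇 d n) j).U ω = (exS (tst 𝔇 d n ω m).V q).U ω := by
  unfold exR exS
  simp only
  rw [run_ndE hq hj, run_V hq hj]

/-- The walls of the running step. -/
theorem run_wll {j : ℕ} (hq : (tst 𝔇 d n ω m).q = some q) (hj : cnt 𝔇 d (tst 𝔇 d n ω m) = j + 1) :
    (exR n (ruleT 𝔇 d n) j).Wll ω := by
  obtain ⟨-, k, hk, hk'⟩ := (stOK_tst 𝔇 d n ω m).nd q hq
  refine CountP.exR_wll (ruleT_ok 𝔇 d n) ⟨k, ?_, ?_⟩
  · rw [← run_V hq hj, run_ndE hq hj]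
    exact hk
  · rw [run_ndB hq hj]
    exact hk'

/-- A gate of the running strand at a time `t` which was not there at the time `0`. -/
theorem newG_of {j t : ℕ} {z : ℤ × ℤ} {r R : ℤ} (hq : (tst 𝔇 d n ω m).q = some q)
    (hj : cnt 𝔇 d (tst 𝔇 d n ω m) = j + 1)
    (hNb : Nb (cfS (tst 𝔇 d n ω m).V q ω) (Tru.eS (tst 𝔇 d n ω m).V q) t)
    (hg : (exS (tst 𝔇 d n ω m).V q).Gate ω t z r) (hg0 : ¬ (exS (tst 𝔇 d n ω m).V q).Gate ω 0 z r)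
    (h1 : fa (pS (tst 𝔇 d n ω m).V q ω t) ∉ Bx z R)
    (h2 : fa (Tru.eS (tst 𝔇 d n ω m).V q) ∉ Bx z R) :
    NM.NewG (exR n (ruleT 𝔇 d n) j) ω t z r R := by
  have eU := run_U hq hj
  have ec := run_cf hq hj
  have ee := run_e hq hj
  refine ⟨run_wll hq hj, t, le_rfl, ?_, ?_, ?_, ?_, ?_⟩
  · rw [ec, ee]
    exact hNb
  · exact (Ex.gate_ext (E := exS (tst 𝔇 d n ω m).V q) (ω := ω) eU ec ee).2 hg
  · exact fun h => hg0 ((Ex.gate_ext (E := exS (tst 𝔇 d n ω m).V q) (ω := ω) eU ec ee).1 h)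
  · rw [ee]
    exact h2
  · rw [run_p hq hj]
    exact h1

/-- A gate of the running strand at the scales of the stage `l`. -/
theorem mem_ZG {l t : ℕ} {z : ℤ × ℤ} (hq : (tst 𝔇 d n ω m).q = some q)
    (hNds : ∀ j, cnt 𝔇 d (tst 𝔇 d n ω m) = j + 1 →
      NM.Nds n (ruleT 𝔇 d n) (c₀ * Sc.ls d n (d l)) N₀ j ω)
    (hNb : Nb (cfS (tst 𝔇 d n ω m).V q ω) (Tru.eS (tst 𝔇 d n ω m).V q) t)
    (hg0 : ¬ (exS (tst 𝔇 d n ω m).V q).Gate ω 0 z (gW d n l))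
    (hg : (exS (tst 𝔇 d n ω m).V q).Gate ω t z (gW d n l))
    (h1 : fa (pS (tst 𝔇 d n ω m).V q ω t) ∉ Bx z (gR d n l))
    (h2 : fa (Tru.eS (tst 𝔇 d n ω m).V q) ∉ Bx z (gR d n l)) : ω ∈ ZG 𝔇 c₀ N₀ d n l := by
  obtain ⟨j, hj, hj'⟩ := exists_run hq
  exact ⟨j, hj, hNds j hj', t, z, newG_of hq hj' hNb hg hg0 h1 h2⟩

/-- **The gates of the state of the stage `m`.** -/
theorem gateS_mem (hg : GateS d n m (tst 𝔇 d n ω m) ω)
    (hNds : ∀ j, cnt 𝔇 d (tst 𝔇 d n ω m) = j + 1 →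
      NM.Nds n (ruleT 𝔇 d n) (c₀ * Sc.ls d n (d m)) N₀ j ω)
    (hNb : ∀ q, (tst 𝔇 d n ω m).q = some q →
      Nb (cfS (tst 𝔇 d n ω m).V q ω) (Tru.eS (tst 𝔇 d n ω m).V q) (tst 𝔇 d n ω m).t)
    (hg0 : ∀ q, (tst 𝔇 d n ω m).q = some q → ∀ z : ℤ × ℤ,
      fa (Tru.eS (tst 𝔇 d n ω m).V q) ∉ Bx z (gR d n m) →
      ¬ (exS (tst 𝔇 d n ω m).V q).Gate ω 0 z (gW d n m)) : ω ∈ ZG 𝔇 c₀ N₀ d n m := by
  obtain ⟨q, hq, z, h1, h2, h3⟩ := hg
  exact mem_ZG hq hNds (hNb q hq) (hg0 q hq z h2) h3 h1 h2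

end Gates

end Pool.Agent.SixB.TruG
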