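import Pool.Agent.Lib.SixB.S8RareH
import Pool.Agent.Lib.SixB.S8RareG
import Pool.Agent.Lib.SixB.S8InvD
import Pool.Agent.Lib.SixB.S8ChainL

/-!
# Step 8: no gates outside of the rare events

* `nb_of_fre`: a strand in front of a face which is not crossed has not come back to its first unit edge;
* `nb_run`: this holds in every running state with `RunV`;
* `not_gateS_of`: outside of the event `ZG` of the stage `m` there are no gates in the state of the stage.
-/

set_option autoImplicit false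

namespace Pool.Agent.SixB.Tru

open Finset Pool.Agent.Perc Pool.Agent.PercT Pool.Agent.PercX60
open Pool.Agent.SixB Pool.Agent.SixB.Rule Pool.Agent.SixB.Dct Pool.Agent.SixB.Mv
open Pool.Agent.SixB.WC Pool.Agent.SixB.NearCut

variable {𝔇 : Dat} {d : ℕ → ℕ} {n i m j K : ℕ} {ω : Cfg} {c₀ r : ℤ} {q : Rule.Ndl}

theorem nb_of_notMem {w : Cfg} {e : UE} {t : ℕ} (h : fa (pth w e t) ∉ vs w e 0 t) : Nb w e t := by
  intro l hl hlt he
  refine h (mem_vs.2 ⟨t - l, Nat.zero_le _, by omega, ?_⟩)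
  have h1 : pth w e t = pth w (pth w e l) (t - l) := by
    rw [pth_add]
    congr 1
    omega
  rw [h1, he]

/-- In every running state the strand has not come back to its first unit edge. -/
theorem nb_run (hV : RunV 𝔇 d n r (tst 𝔇 d n ω m) ω) (hq : (tst 𝔇 d n ω m).q = some q) :
    Nb (cfS (tst 𝔇 d n ω m).V q ω) (eS (tst 𝔇 d n ω m).V q) (tst 𝔇 d n ω m).t := by
  obtain ⟨D, hD⟩ := run_of_q hq
  have key : fa (pS (tst 𝔇 d n ω m).V q ω (tst 𝔇 d n ω m).t) ∈ frS (tst 𝔇 d n ω m) q ω →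
      Nb (cfS (tst 𝔇 d n ω m).V q ω) (eS (tst 𝔇 d n ω m).V q) (tst 𝔇 d n ω m).t := fun h =>
    nb_of_notMem fun h1 => h.2 (Finset.mem_coe.2 h1)
  cases hi : (𝔇.cs d (tst 𝔇 d n ω m).x).ini with
  | true =>
    have h0 : (tst 𝔇 d n ω m).t = 0 := (stOK ω m).ini hi
    intro l h1 h2
    omega
  | false =>
    rcases hV q D hq hD hi with ⟨_, _, _, _, _, _, _, _, h⟩ | ⟨_, _, _, h⟩
    · exact key h.fre
    · exact key h.fre

/-- **No gates at the stage `m`** outside of the event `ZG`. -/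
theorem not_gateS_of (hu : 0 < unt d n) (hc : 0 ≤ c₀) (hd : ∀ i ≤ m, d m ≤ d i)
    (hR : 5 * gW d n m + 2 * (c₀ * Sc.ls d n (d m)) + 8 * unt d n + 16 ≤ gR d n m)
    (hV : RunV 𝔇 d n r (tst 𝔇 d n ω m) ω) (hI : ∀ i ≤ m, HkI c₀ K d n i (tst 𝔇 d n ω i) ω)
    (hZ : ω ∉ TruG.ZG 𝔇 c₀ 2 d n m) : ¬ GateS d n m (tst 𝔇 d n ω m) ω := by
  intro hg
  refine hZ (TruG.gateS_mem hg (fun j hj => ?_) (fun q hq => nb_run hV hq) fun q hq z hz => ?_)
  · refine nds_of hc hd (fun i hi => (hI i hi).ndI hu) ?_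
    have hj' : (𝔇.cs d (tst 𝔇 d n ω m).x).j = j + 1 := hj
    omega
  · exact (hI m le_rfl).not_gate hu hq hR hz

end Pool.Agent.SixB.Tru
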