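import Pool.Agent.Lib.SixB.S8Nbh
import Pool.Agent.Lib.SixB.S8DispB
import Pool.Agent.Lib.SixB.S8NearBs
import Pool.Agent.Lib.SixB.S8OutCv
import Pool.Agent.Lib.SixB.S8RareI

/-!
# Step 8: the strand stays near the coarse tip during a move

`disp_mov`: in a stage which is not void and which ends with a regular stop the strand is near the coarse
tip. Near the base: `disp_base_mov` with the neighbourhood `Nbh` of the tip; away from the base there are
no gates at the contour of the inner part of the domain, and the strand is next to this part (`haway`).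
-/

set_option autoImplicit false

namespace Pool.Agent.SixB.Tru

open Finset Pool.Agent.Perc Pool.Agent.Perc6 Pool.Agent.PercT Pool.Agent.Perc6.C2Aux
open Pool.Agent.SixB Pool.Agent.SixB.Rule Pool.Agent.SixB.Dct Pool.Agent.SixB.Mv
open Pool.Agent.SixB.Blow (subE cl_ahead cl_ahead_rv lf_subE_zero mem_blow)
open Pool.Agent.SixB.Top (compT ChI lf rg BD econn_compT self_mem_compT compT_sub)
open Pool.Agent.SixB.NearCut (Nb)
open Pool.Agent.SixB.Near (Bx)
open Pool.Agent.SixB.TipCv (up inB_sd nearR_of_le nearR_box)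
open Pool.Agent.SixB.Ndle (sd sd_triangle sd_comm sd_nonneg)
open Pool.Agent.Perc.Tips

variable {𝔇 : Dat} {d : ℕ → ℕ} {n : ℕ} {r : ℤ} {s : TS} {ω : Cfg} {q : Rule.Ndl} {D : Dom}
  {κ : ℤ × ℤ → ℤ × ℤ} {m x i₁ j₁ t j₂ i₂ σ : ℕ} {wd D₁ ρ R B T : ℤ} {r' : ℝ}

/-- The sup distance of two faces of a side. -/
theorem sd_le_iff' {v w : ℤ × ℤ} {m : ℤ} : sd v w ≤ m ↔ |v.1 - w.1| ≤ m ∧ |v.2 - w.2| ≤ m := by
  unfold sd
  exact max_le_iff

theorem lcInB_sd {z f : ℤ × ℤ} {k : ℤ} : LC.InB z k f ↔ sd f z ≤ k := by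
  rw [sd_le_iff', abs_le, abs_le]
  unfold LC.InB
  constructor
  · rintro ⟨h1, h2, h3, h4⟩
    exact ⟨⟨by omega, by omega⟩, by omega, by omega⟩
  · rintro ⟨⟨h1, h2⟩, h3, h4⟩
    exact ⟨by omega, by omega, by omega, by omega⟩

theorem sd_side {f : ℤ × ℤ} {a : UE} (h : IsSide f a) : sd (ua a) f ≤ 1 := by
  rw [sd_le_iff', abs_le, abs_le]
  unfold IsSide at h
  rcases h with h | h | h | h <;> rw [h] <;> simp only [bo, le', to', ri, ua] <;> omega

theorem sd_up (A : UE × Bool) : sd (lf (subE (unt d n) A 0)) (up d n (lf A)) = 0 := by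
  rw [lf_subE_zero]
  unfold sd up
  simp

/-- A face in the box `Bx z R`. -/
theorem sd_of_bx {f z : ℤ × ℤ} {k : ℤ} (h : f ∈ Bx z k) : sd f z ≤ k := by
  rw [sd_le_iff', abs_le, abs_le]
  unfold Bx at h
  rw [Finset.mem_coe] at h
  unfold RF at h
  rw [Finset.mem_product, Finset.mem_Ico, Finset.mem_Ico] at h
  omega

/-- A vertex of the contour of a set is near a face of the set. -/
theorem sd_vert {P : Set (ℤ × ℤ)} {A : UE × Bool} (hA : BD P A) (j : ℕ) :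
    ∃ f ∈ P, sd (vert P A j) f ≤ 1 := by
  refine ⟨ahead (side P A j), (bd_side hA j).1, ?_⟩
  have h := InvN.lf_bd (side P A j)
  have e : vert P A j = lf (side P A j) := rfl
  rw [e, sd_le_iff', abs_le, abs_le]
  omega

/-- **The strand stays near the tip during a move.** `σ`: the number of steps to the stop, `B`: the size
of the block and of the neighbourhood of the tip, `T`: the tip is near the base if the distance is at
most `T`. -/
theorem disp_mov (X : RunI 𝔇 d n r s ω q D κ m x i₁ j₁ t j₂ i₂) (hNb : Nbh d n r s ω q D)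
    (hO : StO n s q) (hN : NumO d n s.x.length r) (hv : ¬ D.Void (𝔇.gr d s.x D))
    (hS : D.regS (𝔇.gr d s.x D) (unt d n) (uS s q ω) κ (tS s q ω).1 (cfS s.V q ω) σ)
    (hE : EnvS Bs s q wd D₁ ρ R ω) (hU : fb (Tru.eS s.V q) ∉ FU s.V \ QF q.1)
    (hnb : Nb (cfS s.V q ω) (Tru.eS s.V q) (s.t + σ))
    (h0 : ∀ z, fa (Tru.eS s.V q) ∉ Bx z D₁ → ¬ (exS s.V q).Gate ω 0 z wd)
    (haway : ∀ t, s.t ≤ t → t < s.t + σ →
      (∀ j, ¬ (exS s.V q).Gate ω t (vert (blow (unt d n : ℤ) (D.inr (𝔇.gr d s.x D)))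
        (subE (unt d n) D.A 0) j) wd) →
      ∃ f ∈ blow (unt d n : ℤ) (D.inr (𝔇.gr d s.x D)), sd (ua (pS s.V q ω t)) f ≤ 2)
    (hr : r ≤ B) (hb : unt d n * ((𝔇.gr d s.x D).L * ((𝔇.gr d s.x D).M + 1)) ≤ B)
    (hT : T + B + 1 ≤ ρ) (hD : D₁ + B + 2 ≤ T) (hD0 : 0 ≤ D₁)
    (hr1 : ((R + T : ℤ) : ℝ) ≤ r') (hr2 : ((D₁ + B + 2 : ℤ) : ℝ) ≤ r') :
    ∀ t, s.t ≤ t → t ≤ s.t + σ → NearR d n ω r' s.V q D.tip t := by
  obtain ⟨-, Rg⟩ := X.rg hO hN hv hS
  have hu : (0 : ℤ) < unt d n := by exact_mod_cast hN.hu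
  have hval := Rg.val
  have hPU : blow (unt d n : ℤ) D.P ⊆ uS s q ω := X.app.sub
  obtain ⟨μ, h1, h2, h3, h4, h5⟩ := hNb.inr hval hN.hu hPU hv
  have hpt : pth (cfS s.V q ω) (tS s q ω).1 σ = pS s.V q ω (s.t + σ) := pth_pS σ
  have hlast := Rg.last
  rw [hpt] at hlast
  have hμB : ∀ f ∈ μ, sd f (up d n D.tip) ≤ B := by
    intro f hf
    have g1 := lcInB_sd.1 (h5 f hf)
    have g2 := sd_triangle f (lf (subE (unt d n) D.A 0)) (up d n D.tip)
    have g3 := sd_up (d := d) (n := n) D.A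
    have g4 : sd (lf (subE (unt d n) D.A 0)) (up d n D.tip) = 0 := g3
    have g5 : max r (unt d n * ((𝔇.gr d s.x D).L * ((𝔇.gr d s.x D).M + 1))) ≤ B := max_le hr hb
    omega
  have hiB : ∀ f ∈ blow (unt d n : ℤ) (D.inr (𝔇.gr d s.x D)), sd f (up d n D.tip) ≤ B :=
    fun f hf => hμB f (h4 hf)
  intro t ht1 ht2
  by_cases hbase : sd (up d n D.tip) (ua (Tru.eS s.V q)) ≤ T
  · -- near the base
    have key : InB (ua (Tru.eS s.V q)) R (pS s.V q ω t) := by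
      refine Dsp.disp_base (E := exS s.V q) (b := ua (Tru.eS s.V q)) (ρ := ρ) (μ := μ)
        (s := s.t) (m := s.t + σ) hE.base hE.wll hU (by
          rw [Dsp.frS_eq]
          exact h1.trans (uS_subset X.fre)) (fun f hf f' hf' => h2 f hf f' hf') ?_ h3 ht1 ht2 hnb
        ⟨_, h4 hlast.2.1, isSide_fb _⟩
      intro f hf a ha
      rw [inB_sd]
      have g1 := sd_side ha
      have g2 := hμB f hf
      have g3 := sd_triangle (ua a) f (up d n D.tip)
      have g4 := sd_triangle (ua a) (up d n D.tip) (ua (Tru.eS s.V q))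
      omega
    exact TipCv.NearR.mono' (nearR_box hbase key) hr1
  · -- away from the base
    have hend : ∀ f ∈ blow (unt d n : ℤ) (D.inr (𝔇.gr d s.x D)),
        sd (ua (pS s.V q ω t)) f ≤ D₁ + 2 → NearR d n ω r' s.V q D.tip t := by
      intro f hf hft
      refine nearR_of_le (ρ := D₁ + B + 2) ?_ hr2
      have g1 := hiB f hf
      have g2 := sd_triangle (ua (pS s.V q ω t)) f (up d n D.tip)
      omega
    rcases Nat.lt_or_ge t (s.t + σ) with htσ | htσ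
    · have hbd : BD (blow (unt d n : ℤ) (D.inr (𝔇.gr d s.x D))) (subE (unt d n) D.A 0) :=
        Blow.bd_subE hu (hval.bdI hv) le_rfl hu
      by_cases hz : ∃ j, fa (pS s.V q ω t) ∈ Bx (vert (blow (unt d n : ℤ)
        (D.inr (𝔇.gr d s.x D))) (subE (unt d n) D.A 0) j) D₁
      · obtain ⟨j, hj⟩ := hz
        obtain ⟨f, hf, hfz⟩ := sd_vert hbd j
        have g1 := sd_of_bx hj
        have g2 := sd_side (isSide_fa (pS s.V q ω t))
        have g3 := sd_triangle (ua (pS s.V q ω t)) (fa (pS s.V q ω t)) f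
        have g4 := sd_triangle (fa (pS s.V q ω t)) (vert (blow (unt d n : ℤ)
          (D.inr (𝔇.gr d s.x D))) (subE (unt d n) D.A 0) j) f
        exact hend f hf (by omega)
      · push Not at hz
        obtain ⟨f, hf, hft⟩ := haway t ht1 htσ fun j hg => by
          refine h0 _ ?_ (hE.gate t _ (fun l hl hlt => hnb l hl (by omega)) ?_ (hz j) hg)
          all_goals
            intro hin
            obtain ⟨f, hf, hfz⟩ := sd_vert hbd j
            have g1 := sd_of_bx hin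
            have g2 := sd_side (isSide_fa (Tru.eS s.V q))
            have g3 := sd_triangle (ua (Tru.eS s.V q)) (fa (Tru.eS s.V q)) f
            have g4 := sd_triangle (fa (Tru.eS s.V q)) (vert (blow (unt d n : ℤ)
              (D.inr (𝔇.gr d s.x D))) (subE (unt d n) D.A 0) j) f
            have g5 := hiB f hf
            have g6 := sd_triangle (ua (Tru.eS s.V q)) f (up d n D.tip)
            have g7 := sd_comm (ua (Tru.eS s.V q)) (up d n D.tip)
            omega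
        exact hend f hf (by omega)
    · obtain rfl : t = s.t + σ := by omega
      exact hend _ hlast.2.1 (by
        have := sd_side (isSide_fb (pS s.V q ω (s.t + σ)))
        omega)

/-- The strand has not come back to its first unit edge at a regular stop. -/
theorem RunI.nb_stop (X : RunI 𝔇 d n r s ω q D κ m x i₁ j₁ t j₂ i₂) (hO : StO n s q)
    (hN : NumO d n s.x.length r) (hv : ¬ D.Void (𝔇.gr d s.x D))
    (hS : D.regS (𝔇.gr d s.x D) (unt d n) (uS s q ω) κ (tS s q ω).1 (cfS s.V q ω) σ) :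
    Nb (cfS s.V q ω) (Tru.eS s.V q) (s.t + σ) := by
  obtain ⟨-, Rg⟩ := X.rg hO hN hv hS
  have hpt : pth (cfS s.V q ω) (tS s q ω).1 σ = pS s.V q ω (s.t + σ) := pth_pS σ
  have hvs : vs (cfS s.V q ω) (tS s q ω).1 0 σ = vS s.V q ω s.t (s.t + σ) := vs_pS σ
  have hmem : fa (pS s.V q ω (s.t + σ)) ∈ blow (unt d n : ℤ) (D.bar (𝔇.gr d s.x D)) := by
    rw [← hpt]
    exact Rg.stop.mem
  have hP : fa (pS s.V q ω (s.t + σ)) ∈ blow (unt d n : ℤ) D.P :=
    (Rg.val.dom_sub (Rg.val.bar_sub hmem)).1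
  refine nb_of_notMem fun hin => ?_
  have hin' : fa (pS s.V q ω (s.t + σ)) ∈ vS s.V q ω 0 (s.t + σ) := hin
  rw [vS_split (Nat.zero_le _) (Nat.le_add_right s.t σ), Finset.mem_union] at hin'
  rcases hin' with h1 | h1
  · exact (uS_subset X.fre (X.app.sub hP)).2 (Finset.mem_coe.2 h1)
  · rw [← hvs] at h1
    have h2 := Rg.vis_P _ (Finset.mem_coe.2 h1) hP
    exact (Rg.val.inr_sub hv h2).2 hmem

/-! ### The chain -/

section Chain

variable {i K : ℕ} {C c₀ : ℤ}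

/-- **The strand stays near the tip**: a stage of the chain which is not void. -/
theorem mov_chain (hq : (tst 𝔇 d n ω i).q = some q)
    (hD : (𝔇.cs d (tst 𝔇 d n ω i).x).run = some D)
    (hi : (𝔇.cs d (tst 𝔇 d n ω i).x).ini = false)
    (hv : ¬ D.Void (𝔇.gr d (tst 𝔇 d n ω i).x D))
    (hR : ω ∉ Dead C 𝔇 d n i)
    (hNb : NbI C 𝔇 d n i (tst 𝔇 d n ω i) ω) (hI : HkI c₀ K d n i (tst 𝔇 d n ω i) ω)
    (hNO : NumO d n (tst 𝔇 d n ω i).x.length (rad C (unt d n) d (tst 𝔇 d n ω i).x.length))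
    (hE : EnvS Bs (tst 𝔇 d n ω i) q wd D₁ ρ R ω)
    (haway : ∀ κ m x i₁ j₁ t₀ j₂ i₂ σ,
      RunI 𝔇 d n (rad C (unt d n) d (tst 𝔇 d n ω i).x.length) (tst 𝔇 d n ω i) ω q D κ m x
        i₁ j₁ t₀ j₂ i₂ →
      D.regS (𝔇.gr d (tst 𝔇 d n ω i).x D) (unt d n) (uS (tst 𝔇 d n ω i) q ω) κ
        (pS (tst 𝔇 d n ω i).V q ω (tst 𝔇 d n ω i).t) (cfS (tst 𝔇 d n ω i).V q ω) σ →
      ∀ t, (tst 𝔇 d n ω i).t ≤ t → t < (tst 𝔇 d n ω i).t + σ →
      Nb (cfS (tst 𝔇 d n ω i).V q ω) (Tru.eS (tst 𝔇 d n ω i).V q) t →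
      (∀ j, ¬ (exS (tst 𝔇 d n ω i).V q).Gate ω t (vert (blow (unt d n : ℤ)
        (D.inr (𝔇.gr d (tst 𝔇 d n ω i).x D))) (subE (unt d n) D.A 0) j) wd) →
      ∃ f ∈ blow (unt d n : ℤ) (D.inr (𝔇.gr d (tst 𝔇 d n ω i).x D)),
        sd (ua (pS (tst 𝔇 d n ω i).V q ω t)) f ≤ 2)
    (hr : rad C (unt d n) d (tst 𝔇 d n ω i).x.length ≤ B)
    (hb : unt d n * ((𝔇.gr d (tst 𝔇 d n ω i).x D).L *
      ((𝔇.gr d (tst 𝔇 d n ω i).x D).M + 1)) ≤ B)
    (hW : 5 * wd + 2 * (c₀ * Sc.ls d n (d i)) + 8 * unt d n + 16 ≤ D₁)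
    (hT : T + B + 1 ≤ ρ) (hDT : D₁ + B + 2 ≤ T) (hD0 : 0 ≤ D₁)
    (hr1 : ((R + T : ℤ) : ℝ) ≤ r') (hr2 : ((D₁ + B + 2 : ℤ) : ℝ) ≤ r') :
    ∀ t, (tst 𝔇 d n ω i).t ≤ t →
      t ≤ stopT n (unt d n) (tst 𝔇 d n ω i) q D (𝔇.gr d (tst 𝔇 d n ω i).x D) ω →
      NearR d n ω r' (tst 𝔇 d n ω i).V q D.tip t := by
  obtain ⟨κ, m, x, i₁, j₁, t₀, j₂, i₂, X, σ, hσ⟩ := exists_regS hR hq hD hi hv
  have hO := stO_tst hq
  have hT' := (X.rg hO hNO hv hσ).1
  rw [mvT_reg hv] at hT'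
  have hnb := X.nb_stop hO hNO hv hσ
  rw [hT']
  exact disp_mov X (hNb q D hq hD hi) hO hNO hv hσ hE (tst_fb hq) hnb
    (fun z hz => hI.not_gate hNO.hu hq hW hz)
    (fun t h1 h2 h3 => haway κ m x i₁ j₁ t₀ j₂ i₂ σ X hσ t h1 h2
      (fun l hl hlt => hnb l hl (by omega)) h3)
    hr hb hT hDT hD0 hr1 hr2

end Chain

end Pool.Agent.SixB.Tru
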