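import Mathlib

/-!
# Step 8: needles with clearance

`C` is a finite set of cells (points of `ℤ × ℤ`), `z` a cell at sup distance `δ` from the complement of
`C`. The needle starts at a cell `y ∉ C` at distance `δ` and walks towards `z`, always in the coordinate
with the larger difference. Its cell number `i` is at distance at least `i / 2` from the complement of
`C`, and `i` steps bring the complement of `C` together with the needle `i / 2` closer to `z`.
-/

set_option autoImplicit false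

namespace Pool.Agent.SixB.Ndle

/-- The sup distance. -/
def sd (v w : ℤ × ℤ) : ℤ := max |v.1 - w.1| |v.2 - w.2|

/-- The `ℓ¹` distance. -/
def ld (v w : ℤ × ℤ) : ℤ := |v.1 - w.1| + |v.2 - w.2|

theorem sd_nonneg (v w : ℤ × ℤ) : 0 ≤ sd v w := (abs_nonneg _).trans (le_max_left _ _)

theorem sd_self (v : ℤ × ℤ) : sd v v = 0 := by simp [sd]

theorem sd_comm (v w : ℤ × ℤ) : sd v w = sd w v := by
  unfold sd
  rw [abs_sub_comm, abs_sub_comm v.2]

theorem sd_triangle (u v w : ℤ × ℤ) : sd u w ≤ sd u v + sd v w := by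
  unfold sd
  refine max_le ?_ ?_
  · refine (abs_sub_le u.1 v.1 w.1).trans (add_le_add (le_max_left _ _) (le_max_left _ _))
  · refine (abs_sub_le u.2 v.2 w.2).trans (add_le_add (le_max_right _ _) (le_max_right _ _))

theorem sd_eq_zero {v w : ℤ × ℤ} (h : sd v w = 0) : v = w := by
  unfold sd at h
  have h1 : |v.1 - w.1| ≤ 0 := h ▸ le_max_left _ _
  have h2 : |v.2 - w.2| ≤ 0 := h ▸ le_max_right _ _
  rw [abs_nonpos_iff] at h1 h2
  exact Prod.ext (by omega) (by omega)

theorem sd_pos {v w : ℤ × ℤ} (h : v ≠ w) : 1 ≤ sd v w := by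
  have h1 := sd_nonneg v w
  rcases h1.eq_or_lt with h2 | h2
  · exact absurd (sd_eq_zero h2.symm) h
  · omega

/-- One step towards `z`. -/
def stT (z q : ℤ × ℤ) : ℤ × ℤ :=
  if |q.2 - z.2| ≤ |q.1 - z.1| then (if q.1 < z.1 then q.1 + 1 else q.1 - 1, q.2)
  else (q.1, if q.2 < z.2 then q.2 + 1 else q.2 - 1)

theorem stT_cases {z q : ℤ × ℤ} (h : q ≠ z) :
    (|q.2 - z.2| ≤ |q.1 - z.1| ∧ (stT z q).2 = q.2 ∧ |(stT z q).1 - q.1| = 1 ∧
      |(stT z q).1 - z.1| = |q.1 - z.1| - 1) ∨
    (|q.1 - z.1| < |q.2 - z.2| ∧ (stT z q).1 = q.1 ∧ |(stT z q).2 - q.2| = 1 ∧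
      |(stT z q).2 - z.2| = |q.2 - z.2| - 1) := by
  obtain ⟨a, b⟩ := q
  obtain ⟨c, d⟩ := z
  have hne : ¬ (a = c ∧ b = d) := fun h' => h (Prod.ext h'.1 h'.2)
  unfold stT
  simp only
  by_cases h1 : |b - d| ≤ |a - c|
  · left
    rw [if_pos h1]
    refine ⟨h1, rfl, ?_, ?_⟩
    · simp only
      by_cases h2 : a < c
      · rw [if_pos h2]; simp
      · rw [if_neg h2]; simp
    · simp only
      by_cases h2 : a < c
      · rw [if_pos h2, abs_of_nonpos (by omega), abs_of_neg (by omega)]; ring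
      · rw [if_neg h2]
        have h3 : c < a := by
          rcases (not_lt.1 h2).eq_or_lt with h3 | h3
          · exfalso
            rw [h3, sub_self, abs_zero, abs_nonpos_iff] at h1
            exact hne ⟨h3.symm, by omega⟩
          · exact h3
        rw [abs_of_nonneg (by omega), abs_of_pos (by omega)]; ring
  · right
    rw [if_neg h1]
    have h1' : |a - c| < |b - d| := not_le.1 h1
    refine ⟨h1', rfl, ?_, ?_⟩
    · simp only
      by_cases h2 : b < d
      · rw [if_pos h2]; simp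
      · rw [if_neg h2]; simp
    · simp only
      by_cases h2 : b < d
      · rw [if_pos h2, abs_of_nonpos (by omega), abs_of_neg (by omega)]; ring
      · rw [if_neg h2]
        have h3 : d < b := by
          rcases (not_lt.1 h2).eq_or_lt with h3 | h3
          · exfalso
            rw [h3, sub_self, abs_zero] at h1'
            exact absurd (abs_nonneg (a - c)) (not_le.2 h1')
          · exact h3
        rw [abs_of_nonneg (by omega), abs_of_pos (by omega)]; ring

theorem sd_stT_self {z q : ℤ × ℤ} (h : q ≠ z) : sd (stT z q) q = 1 := by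
  rcases stT_cases h with ⟨-, h2, h3, -⟩ | ⟨-, h2, h3, -⟩
  · unfold sd
    rw [h3, h2, sub_self, abs_zero]; rfl
  · unfold sd
    rw [h3, h2, sub_self, abs_zero]; rfl

theorem ld_stT_self {z q : ℤ × ℤ} (h : q ≠ z) : ld (stT z q) q = 1 := by
  rcases stT_cases h with ⟨-, h2, h3, -⟩ | ⟨-, h2, h3, -⟩
  · unfold ld
    rw [h3, h2, sub_self, abs_zero]; rfl
  · unfold ld
    rw [h3, h2, sub_self, abs_zero]; rfl

theorem ld_stT {z q : ℤ × ℤ} (h : q ≠ z) : ld (stT z q) z = ld q z - 1 := by
  rcases stT_cases h with ⟨-, h2, -, h3⟩ | ⟨-, h2, -, h3⟩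
  · unfold ld
    rw [h3, h2]; ring
  · unfold ld
    rw [h3, h2]; ring

theorem sd_stT_le {z q : ℤ × ℤ} (h : q ≠ z) : sd (stT z q) z ≤ sd q z := by
  rcases stT_cases h with ⟨-, h2, -, h3⟩ | ⟨-, h2, -, h3⟩
  · unfold sd
    rw [h3, h2]
    exact max_le_max (by omega) le_rfl
  · unfold sd
    rw [h3, h2]
    exact max_le_max le_rfl (by omega)

theorem sd_stT_ge {z q : ℤ × ℤ} (h : q ≠ z) : sd q z - 1 ≤ sd (stT z q) z := by
  have h1 := sd_triangle q (stT z q) z
  rw [sd_comm q (stT z q), sd_stT_self h] at h1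
  omega

/-- Two steps bring us closer. -/
theorem sd_stT_stT {z q : ℤ × ℤ} (h : q ≠ z) (h' : stT z q ≠ z) :
    sd (stT z (stT z q)) z ≤ sd q z - 1 := by
  rcases stT_cases h with ⟨h1, h2, -, h3⟩ | ⟨h1, h2, -, h3⟩
  · rcases stT_cases h' with ⟨k1, k2, -, k3⟩ | ⟨k1, k2, -, k3⟩
    · unfold sd
      rw [k2, h2] at *
      rw [k3, h3] at *
      rw [max_eq_left h1]
      exact max_le (by omega) (by omega)
    · unfold sd
      rw [k3, k2, h3, h2] at *
      rw [max_eq_left h1]
      exact max_le (by omega) (by omega)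
  · rcases stT_cases h' with ⟨k1, k2, -, k3⟩ | ⟨k1, k2, -, k3⟩
    · unfold sd
      rw [k3, k2, h2, h3] at *
      rw [max_eq_right h1.le]
      exact max_le (by omega) (by omega)
    · unfold sd
      rw [k3, h3] at *
      rw [k2, h2] at *
      rw [max_eq_right h1.le]
      exact max_le (by omega) (by omega)

/-- The path from `y` towards `z`. -/
def npt (z y : ℤ × ℤ) (i : ℕ) : ℤ × ℤ := (stT z)^[i] y

theorem npt_zero (z y : ℤ × ℤ) : npt z y 0 = y := rfl

theorem npt_succ (z y : ℤ × ℤ) (i : ℕ) : npt z y (i + 1) = stT z (npt z y i) :=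
  Function.iterate_succ_apply' _ _ _

/-- The path is far from `z` for a while. -/
theorem npt_ge (z y : ℤ × ℤ) {i : ℕ} (hi : (i : ℤ) ≤ sd y z) :
    sd y z - i ≤ sd (npt z y i) z := by
  induction i with
  | zero => rw [npt_zero]; simp
  | succ i ih =>
    have h1 := ih (by push_cast at hi; omega)
    have h2 : npt z y i ≠ z := by
      intro h
      rw [h, sd_self] at h1
      push_cast at hi
      omega
    rw [npt_succ]
    have h3 := sd_stT_ge h2
    push_cast
    omega

theorem npt_ne {z y : ℤ × ℤ} {i : ℕ} (hi : (i : ℤ) < sd y z) : npt z y i ≠ z := by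
  intro h
  have h1 := npt_ge z y hi.le
  rw [h, sd_self] at h1
  omega

/-- The path comes closer to `z`. -/
theorem npt_le (z y : ℤ × ℤ) {i : ℕ} (hi : (i : ℤ) ≤ sd y z) :
    2 * sd (npt z y i) z ≤ 2 * sd y z - i + 1 := by
  induction i using Nat.strong_induction_on with
  | _ i ih =>
    match i, ih, hi with
    | 0, _, _ => rw [npt_zero]; simp
    | 1, _, hi =>
      rw [npt_succ, npt_zero]
      have h1 : y ≠ z := by
        rintro rfl
        rw [sd_self] at hi
        norm_num at hi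
      have h2 := sd_stT_le h1
      push_cast
      omega
    | i + 2, ih, hi =>
      push_cast at hi
      have h1 := ih i (by omega) (by omega)
      have h2 : npt z y i ≠ z := npt_ne (by omega)
      have h3 : npt z y (i + 1) ≠ z := npt_ne (by push_cast; omega)
      have h4 := sd_stT_stT h2 (by rw [← npt_succ]; exact h3)
      rw [npt_succ, npt_succ]
      push_cast
      omega

theorem npt_dist (z y : ℤ × ℤ) {i : ℕ} (hi : (i : ℤ) ≤ sd y z) : sd (npt z y i) y ≤ i := by
  induction i with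
  | zero => rw [npt_zero, sd_self]; simp
  | succ i ih =>
    push_cast at hi ⊢
    have h1 := ih (by omega)
    have h2 : npt z y i ≠ z := npt_ne (by omega)
    have h3 := sd_triangle (npt z y (i + 1)) (npt z y i) y
    rw [npt_succ, sd_stT_self h2] at h3
    rw [npt_succ]
    omega

/-- Consecutive cells have a common side. -/
theorem npt_adj {z y : ℤ × ℤ} {i : ℕ} (hi : (i : ℤ) < sd y z) :
    ld (npt z y (i + 1)) (npt z y i) = 1 := by
  rw [npt_succ]
  exact ld_stT_self (npt_ne hi)

theorem npt_ld (z y : ℤ × ℤ) {i : ℕ} (hi : (i : ℤ) ≤ sd y z) : ld (npt z y i) z = ld y z - i := by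
  induction i with
  | zero => rw [npt_zero]; simp
  | succ i ih =>
    push_cast at hi ⊢
    have h1 := ih (by omega)
    have h2 : npt z y i ≠ z := npt_ne (by omega)
    rw [npt_succ, ld_stT h2, h1]
    ring

/-- The path is injective. -/
theorem npt_inj {z y : ℤ × ℤ} {i j : ℕ} (hi : (i : ℤ) ≤ sd y z) (hj : (j : ℤ) ≤ sd y z)
    (h : npt z y i = npt z y j) : i = j := by
  have h1 := npt_ld z y hi
  have h2 := npt_ld z y hj
  rw [h] at h1
  omega

/-! ### The distance to the complement -/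

variable {C : Finset (ℤ × ℤ)} {z : ℤ × ℤ}

theorem exists_out (C : Finset (ℤ × ℤ)) (z : ℤ × ℤ) :
    ∃ r : ℕ, ∃ w, w ∉ C ∧ sd w z = r := by
  obtain ⟨w, hw⟩ := Infinite.exists_notMem_finset C
  exact ⟨(sd w z).toNat, w, hw, (Int.toNat_of_nonneg (sd_nonneg w z)).symm⟩

open Classical in
/-- The sup distance of `z` to the complement of `C`. -/
noncomputable def dlt (C : Finset (ℤ × ℤ)) (z : ℤ × ℤ) : ℕ := Nat.find (exists_out C z)

theorem dlt_le {w : ℤ × ℤ} (hw : w ∉ C) : (dlt C z : ℤ) ≤ sd w z := by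
  classical
  have h1 : dlt C z ≤ (sd w z).toNat :=
    Nat.find_min' (exists_out C z) ⟨w, hw, (Int.toNat_of_nonneg (sd_nonneg w z)).symm⟩
  have h2 := Int.toNat_of_nonneg (sd_nonneg w z)
  omega

theorem mem_of_lt {w : ℤ × ℤ} (hw : sd w z < dlt C z) : w ∈ C := by
  by_contra h
  exact absurd (dlt_le (z := z) h) (not_le.2 hw)

theorem exists_dlt (C : Finset (ℤ × ℤ)) (z : ℤ × ℤ) : ∃ w, w ∉ C ∧ sd w z = dlt C z := by
  classical
  exact Nat.find_spec (exists_out C z)

theorem exists_near (C : Finset (ℤ × ℤ)) (z : ℤ × ℤ) : ∃ r : ℕ, ∃ w, w ∉ C ∧ sd w z = dlt C z ∧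
    ld w z = r := by
  obtain ⟨w, h1, h2⟩ := exists_dlt C z
  refine ⟨(ld w z).toNat, w, h1, h2, ?_⟩
  have : 0 ≤ ld w z := by unfold ld; positivity
  exact (Int.toNat_of_nonneg this).symm

open Classical in
/-- The cell outside of `C` at which the needle starts. -/
noncomputable def bse (C : Finset (ℤ × ℤ)) (z : ℤ × ℤ) : ℤ × ℤ :=
  (Nat.find_spec (exists_near C z)).choose

theorem bse_spec (C : Finset (ℤ × ℤ)) (z : ℤ × ℤ) : bse C z ∉ C ∧ sd (bse C z) z = dlt C z := by
  classical
  have := (Nat.find_spec (exists_near C z)).choose_spec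
  exact ⟨this.1, this.2.1⟩

theorem bse_min {w : ℤ × ℤ} (hw : w ∉ C) (h : sd w z = dlt C z) : ld (bse C z) z ≤ ld w z := by
  classical
  have h1 := (Nat.find_spec (exists_near C z)).choose_spec.2.2
  have h0 : 0 ≤ ld w z := by unfold ld; positivity
  have h2 : Nat.find (exists_near C z) ≤ (ld w z).toNat :=
    Nat.find_min' (exists_near C z) ⟨w, hw, h, (Int.toNat_of_nonneg h0).symm⟩
  have h3 := Int.toNat_of_nonneg h0
  unfold bse
  omega

/-- The cells of the needle. -/
noncomputable def ndc (C : Finset (ℤ × ℤ)) (z : ℤ × ℤ) (i : ℕ) : ℤ × ℤ := npt z (bse C z) i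

theorem ndc_zero : ndc C z 0 = bse C z := rfl

theorem sd_bse : sd (bse C z) z = dlt C z := (bse_spec C z).2

theorem ndc_le {i : ℕ} (hi : i ≤ dlt C z) : 2 * sd (ndc C z i) z ≤ 2 * dlt C z - i + 1 := by
  have h := npt_le z (bse C z) (i := i) (by rw [sd_bse]; exact_mod_cast hi)
  rw [sd_bse] at h
  exact h

/-- **Clearance.** The cell number `i` is at distance at least `(i - 1) / 2` from everything outside
of `C`. -/
theorem ndc_clear {i : ℕ} (hi : i ≤ dlt C z) {w : ℤ × ℤ} (hw : w ∉ C) :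
    (i : ℤ) - 1 ≤ 2 * sd w (ndc C z i) := by
  have h1 := ndc_le hi
  have h2 := dlt_le (z := z) hw
  have h3 := sd_triangle w (ndc C z i) z
  omega

theorem ndc_dist {i : ℕ} (hi : i ≤ dlt C z) : sd (ndc C z i) (bse C z) ≤ i :=
  npt_dist z _ (by rw [sd_bse]; exact_mod_cast hi)

theorem ndc_adj {i : ℕ} (hi : i < dlt C z) : ld (ndc C z (i + 1)) (ndc C z i) = 1 :=
  npt_adj (by rw [sd_bse]; exact_mod_cast hi)

theorem ndc_inj {i j : ℕ} (hi : i ≤ dlt C z) (hj : j ≤ dlt C z) (h : ndc C z i = ndc C z j) :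
    i = j :=
  npt_inj (by rw [sd_bse]; exact_mod_cast hi) (by rw [sd_bse]; exact_mod_cast hj) h

/-- The needle is in `C`. -/
theorem ndc_mem {i : ℕ} (h1 : 1 ≤ i) (hi : i ≤ dlt C z) : ndc C z i ∈ C := by
  by_cases h : sd (ndc C z i) z < dlt C z
  · exact mem_of_lt h
  · have h2 := ndc_le hi
    have h3 : i = 1 := by omega
    subst h3
    have hne : bse C z ≠ z := by
      intro h'
      have := sd_bse (C := C) (z := z)
      rw [h', sd_self] at this
      omega
    have h4 : ndc C z 1 = stT z (bse C z) := npt_succ _ _ _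
    by_contra hcon
    have h5 : sd (ndc C z 1) z = dlt C z := by
      have h6 : sd (ndc C z 1) z ≤ sd (bse C z) z := by
        rw [h4]; exact sd_stT_le hne
      rw [sd_bse] at h6
      omega
    have h7 := bse_min hcon h5
    rw [h4, ld_stT hne] at h7
    omega

/-- **Progress.** If the cells of the needle are removed, the complement comes closer to `z`. -/
theorem dlt_progress {C' : Finset (ℤ × ℤ)} {i : ℕ} (hi : i ≤ dlt C z) (h : ndc C z i ∉ C') :
    2 * (dlt C' z : ℤ) ≤ 2 * dlt C z - i + 1 := by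
  have h1 := dlt_le (z := z) h
  have h2 := ndc_le hi
  omega

theorem dlt_mono {C' : Finset (ℤ × ℤ)} (h : C' ⊆ C) : dlt C' z ≤ dlt C z := by
  have h1 := dlt_le (z := z) (fun h' => (bse_spec C z).1 (h h'))
  rw [sd_bse] at h1
  exact_mod_cast h1

/-- The box around `z` of radius less than `dlt` is in `C`. -/
theorem box_sub {w : ℤ × ℤ} (h : |w.1 - z.1| < dlt C z) (h' : |w.2 - z.2| < dlt C z) : w ∈ C :=
  mem_of_lt (max_lt h h')

end Pool.Agent.SixB.Ndle
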