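import Pool.Agent.Lib.SixB.S8Disp
import Pool.Agent.Lib.SixB.S8DispB
import Pool.Agent.Lib.SixB.S8InvB
import Pool.Agent.Lib.SixB.S8MoveG
import Pool.Agent.Lib.SixB.S8Needle
import Pool.Agent.Lib.SixB.S8LawI

/-!
# Step 8: the displacement of a regular move, for a state of the chain

`mid_run`: the data `Mid` of a state with a regular stop. `away_run`: before the stop the strand is in the
inner domain, or at an end of the stop arc, or there is a gate. `away_sd`: the same with a distance.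
`away_chain`: for a stage of the chain, in the form of `haway` of `mov_chain`.
-/

set_option autoImplicit false

namespace Pool.Agent.SixB.Dsp

open Finset Pool.Agent.Perc Pool.Agent.PercT Pool.Agent.Perc6 Pool.Agent.SixB
  Pool.Agent.SixB.NearCut Pool.Agent.SixB.Mv Pool.Agent.SixB.Top Pool.Agent.SixB.Par
open Pool.Agent.SixB.Tru Pool.Agent.SixB.Dct Pool.Agent.SixB.Rule
open Pool.Agent.SixB.Blow (subE)
open Pool.Agent.Perc.Tips (ahead rv)
open Pool.Agent.SixB.CloK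
open Pool.Agent.SixB.LC (side_cor)

variable {𝔇 : Dat} {d : ℕ → ℕ} {n : ℕ} {r : ℤ} {s : TS} {ω : Cfg} {q : Rule.Ndl} {D : Dom}
  {κ : ℤ × ℤ → ℤ × ℤ} {m x i₁ j₁ t j₂ i₂ t₁ σ : ℕ}

/-- Between a state of the chain and its regular stop. -/
theorem mid_run (X : RunB 𝔇 d n r s ω q D κ m x)
    {mU lx : ℕ} {lA lB : ℤ} {ρ : Rec} {g : Grd} (R : Rg D g (unt d n) (cfS s.V q ω) (uS s q ω) κ r
      (tS s q ω) mU lx lA lB σ ρ)
    (hW : (exS s.V q).Wll ω) (he : fb (Tru.eS s.V q) ∉ FU s.V \ QF q.1)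
    (hst : s.t ≤ t₁) (hlt : t₁ < s.t + σ) (hnb : Nb (cfS s.V q ω) (Tru.eS s.V q) t₁) :
    Mid (exS s.V q) ω s.t t₁ (uS s q ω) (D.tru g (unt d n) (uS s q ω) κ) (tS s q ω) := by
  have hT := R.tst
  have hclo := R.mvd.clo R.runS.att R.runS.tip R.runS.con R.lt
  have hfr := frS_eq s q ω
  exact
    { wll := hW
      he := he
      nb := hnb
      st := hst
      sub := by
        rw [hfr]
        exact compT_sub X.fre
      frz := fun f hf g hg hgU hgF => by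
        rw [hfr] at hgF
        exact hgU (compT_step hf hg hgF)
      fin := hT.fin
      ec := hT.ec
      esc := hT.esc
      bd := hT.cyc.bd
      tip := rfl
      prt := par_rg_of_fwd hT.fwd
      bef := fun l h1 h2 hl => by
        have h3 := R.stop.bef (l - s.t) (by omega)
        have h4 : pth (cfS s.V q ω) (tS s q ω).1 (l - s.t) = pS s.V q ω l := by
          have h5 : pth (cfS s.V q ω) (pS s.V q ω s.t) (l - s.t) = pS s.V q ω (s.t + (l - s.t)) :=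
            pth_pS _
          rw [show s.t + (l - s.t) = l by omega] at h5
          exact h5
        rw [h4] at h3
        exact h3 hl
      TU := hclo.TU
      ecT := hclo.ecT
      escT := (R.mvd.closure R.runS.att R.runS.tip R.runS.con R.lt).2.1 }

/-- **Displacement of a move of the chain.** -/
theorem away_run (X : RunI 𝔇 d n r s ω q D κ m x i₁ j₁ t j₂ i₂) (hO : StO n s q)
    (hN : NumO d n s.x.length r) (hv : ¬ D.Void (𝔇.gr d s.x D))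
    (hS : D.regS (𝔇.gr d s.x D) (unt d n) (uS s q ω) κ (tS s q ω).1 (cfS s.V q ω) σ)
    (hW : (exS s.V q).Wll ω) (he : fb (Tru.eS s.V q) ∉ FU s.V \ QF q.1)
    (hst : s.t ≤ t₁) (hlt : t₁ < s.t + σ) (hnb : Nb (cfS s.V q ω) (Tru.eS s.V q) t₁)
    (hg0 : ∀ i, (i = unt d n * D.n₁ (𝔇.gr d s.x D) ∨ i = unt d n * D.n₂ (𝔇.gr d s.x D)) →
      ¬ (exS s.V q).Gate ω s.t
        (vert (blow (unt d n : ℤ) (D.inr (𝔇.gr d s.x D))) (subE (unt d n) D.A 0) i) 1)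
    (hgt : ∀ i < unt d n * cyl (D.inr (𝔇.gr d s.x D)) D.A,
      (i ≤ unt d n * D.n₁ (𝔇.gr d s.x D) ∨ unt d n * D.n₂ (𝔇.gr d s.x D) ≤ i) →
      ¬ (exS s.V q).Gate ω t₁
        (vert (blow (unt d n : ℤ) (D.inr (𝔇.gr d s.x D))) (subE (unt d n) D.A 0) i) (r + 1)) :
    fa (pS s.V q ω t₁) ∈ blow (unt d n : ℤ) (D.inr (𝔇.gr d s.x D)) ∨
      ∃ i, (i = unt d n * D.n₁ (𝔇.gr d s.x D) ∨ i = unt d n * D.n₂ (𝔇.gr d s.x D)) ∧
        IsCor (fa (pS s.V q ω t₁))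
          (vert (blow (unt d n : ℤ) (D.inr (𝔇.gr d s.x D))) (subE (unt d n) D.A 0) i) := by
  obtain ⟨-, R⟩ := X.rg hO hN hv hS
  by_cases hn1 : IsCor (fa (pS s.V q ω t₁)) (vert (blow (unt d n : ℤ) (D.inr (𝔇.gr d s.x D)))
      (subE (unt d n) D.A 0) (unt d n * D.n₁ (𝔇.gr d s.x D)))
  · exact Or.inr ⟨_, Or.inl rfl, hn1⟩
  by_cases hn2 : IsCor (fa (pS s.V q ω t₁)) (vert (blow (unt d n : ℤ) (D.inr (𝔇.gr d s.x D)))
      (subE (unt d n) D.A 0) (unt d n * D.n₂ (𝔇.gr d s.x D)))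
  · exact Or.inr ⟨_, Or.inr rfl, hn2⟩
  left
  have M := mid_run X.toRunB R hW he hst hlt hnb
  have hd := R.app.d_pos
  have hNN := R.runS.con.lt
  have hT := R.tst
  have I := X.lab.labI R.mvd R.runS R.lt R.hex R.hcell
    (not_inB_mono (R.farA le_rfl hNN.le) (by omega))
    (not_inB_mono (R.farA hNN.le le_rfl) (by omega))
  have hper : ∃ N, 0 < N ∧ pth ((exS s.V q).cf ω) (tS s q ω).1 N = (tS s q ω).1 := by
    have h1 := Xi_per hO.box hO.sub ω ω (tS s q ω).1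
    rwa [Xi_self] at h1
  have hUF : uS s q ω ⊆ (exS s.V q).Fr ω s.t := M.sub
  have hout : ∀ i, outF (uS s q ω) (tS s q ω) i ∉ (exS s.V q).Fr ω s.t := by
    intro i
    have h1 := bd_side hT.cyc.bd i
    exact M.frz _ h1.1 _ (adjF_ahead _).symm h1.2
  have key := away R.mvd R.runS.att R.runS.tip R.runS.con R.lt hT.cyc M (kt := x)
    (I.b _ (by have := I.h1; omega) (by have := I.h1; omega))
    (I.l _ le_rfl I.h2)
    (hT.hwb (X := exS s.V q) hper hW hUF hout rfl)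
    (hT.hwl (X := exS s.V q) hper hW hUF hout rfl)
    (by rw [R.inr_eq]; exact hg0 _ (Or.inl rfl)) (by rw [R.inr_eq]; exact hg0 _ (Or.inr rfl))
    (by rw [R.inr_eq]; exact hgt) (by rw [R.inr_eq]; exact hn1) (by rw [R.inr_eq]; exact hn2)
  rwa [R.inr_eq] at key

/-- The first end of a unit edge is near its face. -/
theorem sd_ua_fa (e : UE) {f : ℤ × ℤ} (hf : IsSide f e) : Ndle.sd (ua e) f ≤ 1 := by
  obtain ⟨h1, h2⟩ := (side_cor hf (Or.inl ⟨rfl, rfl⟩ : Joins e (ua e) (ub e))).1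
  unfold Ndle.sd
  rw [max_le_iff, abs_le, abs_le]
  omega

/-- Two faces at a vertex. -/
theorem sd_cor {f f' v : ℤ × ℤ} (h : IsCor f v) (h' : IsCor f' v) : Ndle.sd f f' ≤ 1 := by
  obtain ⟨h1, h2⟩ := h
  obtain ⟨h3, h4⟩ := h'
  unfold Ndle.sd
  rw [max_le_iff, abs_le, abs_le]
  omega

/-- **Displacement of a move of the chain**, with a distance. -/
theorem away_sd (X : RunI 𝔇 d n r s ω q D κ m x i₁ j₁ t j₂ i₂) (hO : StO n s q)
    (hN : NumO d n s.x.length r) (hv : ¬ D.Void (𝔇.gr d s.x D))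
    (hS : D.regS (𝔇.gr d s.x D) (unt d n) (uS s q ω) κ (tS s q ω).1 (cfS s.V q ω) σ)
    (hW : (exS s.V q).Wll ω) (he : fb (Tru.eS s.V q) ∉ FU s.V \ QF q.1)
    (hst : s.t ≤ t₁) (hlt : t₁ < s.t + σ) (hnb : Nb (cfS s.V q ω) (Tru.eS s.V q) t₁)
    (hg0 : ∀ i, (i = unt d n * D.n₁ (𝔇.gr d s.x D) ∨ i = unt d n * D.n₂ (𝔇.gr d s.x D)) →
      ¬ (exS s.V q).Gate ω s.t
        (vert (blow (unt d n : ℤ) (D.inr (𝔇.gr d s.x D))) (subE (unt d n) D.A 0) i) 1)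
    (hgt : ∀ i < unt d n * cyl (D.inr (𝔇.gr d s.x D)) D.A,
      (i ≤ unt d n * D.n₁ (𝔇.gr d s.x D) ∨ unt d n * D.n₂ (𝔇.gr d s.x D) ≤ i) →
      ¬ (exS s.V q).Gate ω t₁
        (vert (blow (unt d n : ℤ) (D.inr (𝔇.gr d s.x D))) (subE (unt d n) D.A 0) i) (r + 1)) :
    ∃ f ∈ blow (unt d n : ℤ) (D.inr (𝔇.gr d s.x D)), Ndle.sd (ua (pS s.V q ω t₁)) f ≤ 2 := by
  obtain ⟨-, R⟩ := X.rg hO hN hv hS
  have hbd : BD (blow (unt d n : ℤ) (D.inr (𝔇.gr d s.x D))) (subE (unt d n) D.A 0) := by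
    have := R.runS.bdG
    rwa [R.inr_eq] at this
  have h0 := sd_ua_fa (pS s.V q ω t₁) (isSide_fa _)
  rcases away_run X hO hN hv hS hW he hst hlt hnb hg0 hgt with h | ⟨i, -, h⟩
  · exact ⟨_, h, h0.trans (by norm_num)⟩
  · refine ⟨_, (bd_side hbd i).1, ?_⟩
    have h1 : IsCor (ahead (side (blow (unt d n : ℤ) (D.inr (𝔇.gr d s.x D)))
        (subE (unt d n) D.A 0) i)) (vert (blow (unt d n : ℤ) (D.inr (𝔇.gr d s.x D)))
        (subE (unt d n) D.A 0) i) := isCor_in_lf _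
    have h2 := sd_cor h h1
    have h3 := Ndle.sd_triangle (ua (pS s.V q ω t₁)) (fa (pS s.V q ω t₁))
      (ahead (side (blow (unt d n : ℤ) (D.inr (𝔇.gr d s.x D))) (subE (unt d n) D.A 0) i))
    omega

/-- The vertices of the contour of the inner domain are near its faces. -/
theorem vert_near (hbd : BD (blow (unt d n : ℤ) (D.inr (𝔇.gr d s.x D))) (subE (unt d n) D.A 0))
    (i : ℕ) : ∃ f ∈ blow (unt d n : ℤ) (D.inr (𝔇.gr d s.x D)),
      Ndle.sd (vert (blow (unt d n : ℤ) (D.inr (𝔇.gr d s.x D))) (subE (unt d n) D.A 0) i) f ≤ 1 := by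
  obtain ⟨h1, h2⟩ := isCor_in_lf (side (blow (unt d n : ℤ) (D.inr (𝔇.gr d s.x D)))
    (subE (unt d n) D.A 0) i)
  refine ⟨_, (bd_side hbd i).1, ?_⟩
  have h3 : vert (blow (unt d n : ℤ) (D.inr (𝔇.gr d s.x D))) (subE (unt d n) D.A 0) i =
    lf (side (blow (unt d n : ℤ) (D.inr (𝔇.gr d s.x D))) (subE (unt d n) D.A 0) i) := rfl
  rw [h3]
  unfold Ndle.sd
  rw [max_le_iff, abs_le, abs_le]
  omega

/-! ### The chain -/

/-- The distance of the gates of a stage, the radius and the cells. -/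
theorem gR_far {i : ℕ} {R₀ : ℤ} (h6 : d (i + 1) + 6 ≤ d 0) (hN : NumO d n (i + 1) R₀) :
    gR d n i + R₀ + 2 ≤ unt d n * (msh d (i + 1) / 16) ∧
      (unt d n : ℤ) * (msh d (i + 1) / 16) ≤ unt d n * (msh d (i + 1) / 5) := by
  have h1 := Sc.ls_six n h6
  have h2 := Sc.ls_eq_msh d n (i + 1)
  have h3 := hN.farB
  have h4 := hN.h16
  have hL : 0 < msh d (i + 1) := msh_pos _ _
  obtain ⟨c, hc⟩ := h4
  have h5 : msh d (i + 1) / 16 = c := by omega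
  have h6' : (unt d n : ℤ) * msh d (i + 1) = 16 * (unt d n * c) := by rw [hc]; ring
  have e1 : gR d n i = Sc.ls d n (d (i + 1) + 6) := rfl
  have hu : (0 : ℤ) ≤ unt d n := by positivity
  refine ⟨?_, mul_le_mul_of_nonneg_left (by omega) hu⟩
  rw [h5] at h3 ⊢
  rw [e1]
  rw [h2, h6'] at h1
  have h7 := Sc.ls_nonneg d n (d (i + 1) + 6)
  omega

/-- **Displacement of a move**, for a stage of the chain: the hypothesis `haway` of `mov_chain`. -/
theorem away_chain {i : ℕ} {C wd : ℤ} (hv : ¬ D.Void (𝔇.gr d (tst 𝔇 d n ω i).x D))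
    (hN : NumO d n (tst 𝔇 d n ω i).x.length (rad C (unt d n) d (tst 𝔇 d n ω i).x.length))
    (hbas : BasI C 𝔇 d n i (tst 𝔇 d n ω i) ω) (hG : ¬ GateS d n i (tst 𝔇 d n ω i) ω)
    (h6 : d (i + 1) + 6 ≤ d 0) (hw : rad C (unt d n) d (tst 𝔇 d n ω i).x.length + 1 ≤ wd) :
    ∀ κ m x i₁ j₁ t₀ j₂ i₂ σ,
      RunI 𝔇 d n (rad C (unt d n) d (tst 𝔇 d n ω i).x.length) (tst 𝔇 d n ω i) ω q D κ m x
        i₁ j₁ t₀ j₂ i₂ →
      D.regS (𝔇.gr d (tst 𝔇 d n ω i).x D) (unt d n) (uS (tst 𝔇 d n ω i) q ω) κ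
        (pS (tst 𝔇 d n ω i).V q ω (tst 𝔇 d n ω i).t) (cfS (tst 𝔇 d n ω i).V q ω) σ →
      ∀ t, (tst 𝔇 d n ω i).t ≤ t → t < (tst 𝔇 d n ω i).t + σ →
      Nb (cfS (tst 𝔇 d n ω i).V q ω) (Tru.eS (tst 𝔇 d n ω i).V q) t →
      (∀ j, ¬ (exS (tst 𝔇 d n ω i).V q).Gate ω t (vert (blow (unt d n : ℤ)
        (D.inr (𝔇.gr d (tst 𝔇 d n ω i).x D))) (subE (unt d n) D.A 0) j) wd) →
      ∃ f ∈ blow (unt d n : ℤ) (D.inr (𝔇.gr d (tst 𝔇 d n ω i).x D)),
        Ndle.sd (ua (pS (tst 𝔇 d n ω i).V q ω t)) f ≤ 2 := by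
  intro κ m x i₁ j₁ t₀ j₂ i₂ σ X hσ t h1 h2 hnb hg
  have hq := X.hq
  have hO := stO_tst hq
  have hlen : (tst 𝔇 d n ω i).x.length = i + 1 := tst_len 𝔇 d n ω i
  obtain ⟨-, R⟩ := X.rg hO hN hv hσ
  have hd := R.app.d_pos
  have hNN := R.runS.con.lt
  have hnum := gR_far h6 (by rw [← hlen]; exact hN)
  have hb := hbas q D hq X.run X.ini
  rw [← hlen] at hnum
  refine away_sd X hO hN hv hσ (tst_wll hq) (tst_fb hq) h1 h2 hnb ?_
    fun j _ _ hh => hg j (hh.mono hw)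
  intro j hj
  have hj1 : unt d n * D.n₁ (𝔇.gr d (tst 𝔇 d n ω i).x D) ≤ j := by
    rcases hj with rfl | rfl
    · exact le_rfl
    · exact hNN.le
  have hj2 : j ≤ unt d n * D.n₂ (𝔇.gr d (tst 𝔇 d n ω i).x D) := by
    rcases hj with rfl | rfl
    · exact hNN.le
    · exact le_rfl
  have hA := R.runS.far_vert R.offA' hj1 hj2
  have hB := R.runS.far_vert R.offB' hj1 hj2
  rw [R.inr_eq] at hA hB
  refine not_gateS hG hq (r := 1) ?_ (notMem_Bx hA (k := rad C (unt d n) d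
    (tst 𝔇 d n ω i).x.length + 1) ?_ ?_ ?_) (notMem_Bx hB (k := rad C (unt d n) d
    (tst 𝔇 d n ω i).x.length + 1) ?_ ?_ ?_)
  · have h3 := Sc.unit_le_ls (d := d) n (Sc.eR (d i) (d (i + 1)))
    have h4 : (1 : ℤ) ≤ ((n / 2 ^ d 0 : ℕ) : ℤ) := by
      have : 0 < n / 2 ^ d 0 := hN.hu
      exact_mod_cast this
    unfold gW
    linarith
  · have hfa : fa (pS (tst 𝔇 d n ω i).V q ω (tst 𝔇 d n ω i).t) = ahead (tS (tst 𝔇 d n ω i) q ω) :=
      R.tst.fwd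
    have hc : IsCor (ahead (tS (tst 𝔇 d n ω i) q ω)) (rg (tS (tst 𝔇 d n ω i) q ω)) := isCor_in_rg _
    have hn := X.near
    rw [hfa, abs_le]
    unfold IsCor at hc
    unfold LC.InB at hn
    omega
  · have hfa : fa (pS (tst 𝔇 d n ω i).V q ω (tst 𝔇 d n ω i).t) = ahead (tS (tst 𝔇 d n ω i) q ω) :=
      R.tst.fwd
    have hc : IsCor (ahead (tS (tst 𝔇 d n ω i) q ω)) (rg (tS (tst 𝔇 d n ω i) q ω)) := isCor_in_rg _
    have hn := X.near
    rw [hfa, abs_le]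
    unfold IsCor at hc
    unfold LC.InB at hn
    omega
  · omega
  · have hc : IsCor (fa (Tru.eS (tst 𝔇 d n ω i).V q)) (ua (Tru.eS (tst 𝔇 d n ω i).V q)) :=
      (side_cor (isSide_fa (Tru.eS (tst 𝔇 d n ω i).V q)) (Or.inl ⟨rfl, rfl⟩)).1
    rw [abs_le]
    unfold IsCor at hc
    unfold LC.InB at hb
    omega
  · have hc : IsCor (fa (Tru.eS (tst 𝔇 d n ω i).V q)) (ua (Tru.eS (tst 𝔇 d n ω i).V q)) :=
      (side_cor (isSide_fa (Tru.eS (tst 𝔇 d n ω i).V q)) (Or.inl ⟨rfl, rfl⟩)).1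
    rw [abs_le]
    unfold IsCor at hc
    unfold LC.InB at hb
    omega
  · omega

end Pool.Agent.SixB.Dsp
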