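import Pool.Agent.Lib.SixB.S8StartD
import Pool.Agent.Lib.SixB.S8StartTube

/-!
# Step 8: the start of a step with a clearance needle

`P` contains the box of radius `r` around `z`. The needle `Q` is attached to the outside of `P`: its
face `a ∈ P` has a common side with `y ∉ P` (the base); the part of `Q` outside of `P` (the hook) is
within `d` of `y`, the part inside of `P` is connected, it runs away from the outside of `P` (a face at
distance more than `t` from `y` is within `r + (c - t) / 2` of `z`) and it is monotone: it lies in one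
quadrant of `z` and any two faces are comparable (`Ndl`). `γ`: cells of diameter `< d`, `VQ`: the cells
in `P` which meet the needle, `R`: the component of `P \ VQ` at `z`.
* `Ndl.clear`: a face of the needle within `s` of a face outside `P` is within `2 s + c` of `y`;
* `Ndl.box_sub`: the box of radius `r - l - d` around `z` is in `R` (`l`: size of the needle);
* `Ndl.start`: the tip side and the target side (`StartD`);
* `Ndl.tip_near`, `Ndl.tgt_near`: their corners are within `3 d + c` of `y`;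
* `Ndl.lab`: the labels outside the box of radius `3 d + c + 3` around `y`;
* `Ndl.app`: the approximation `App` for the new state;
* `Ndl.exists_D`: a side of `R` far from the base with a chain from its outer face to the outside of `U`;
* `Ndl.join_R`: a face which has a common side with a face of the needle far from the base is joined to
  `z` in `P \ Q` away from the base;
* `Ndl.cell_near`: a cell of the needle which touches the outside of `P` is near the base.
-/

set_option autoImplicit false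

namespace Pool.Agent.SixB.StartA

open Pool.Agent.Perc Pool.Agent.Perc6 Pool.Agent.Perc6.C2Aux Pool.Agent.Perc.Tips
open Pool.Agent.SixB.Top Pool.Agent.SixB.LC Pool.Agent.SixB.Mv

variable {ι : Type*} {U P Q R V S : Set (ℤ × ℤ)} {γ : ℤ × ℤ → ℤ × ℤ} {y a z : ℤ × ℤ}
  {r l c d : ℤ} {m : ℕ}

/-- The clearance needle. -/
structure Ndl (P Q : Set (ℤ × ℤ)) (y a z : ℤ × ℤ) (r l c d : ℤ) : Prop where
  d0 : 0 < d
  c0 : 0 ≤ c
  box : ∀ f, InB z r f → f ∈ P
  yP : y ∉ P
  aQ : a ∈ Q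
  aP : a ∈ P
  adj : AdjF a y
  join : ∀ f ∈ Q, f ∈ P → JoinIn (Q ∩ P) f a
  size : ∀ f ∈ Q, InB y l f
  len : l + d ≤ r
  hook : ∀ f ∈ Q, f ∉ P → InB y d f
  inn : ∀ f ∈ Q, f ∈ P → ∀ s t : ℤ, ¬ InB y t f → 2 * r + c ≤ 2 * s + t → InB z s f
  mono : ∃ s₁ s₂ : ℤ, (s₁ = 1 ∨ s₁ = -1) ∧ (s₂ = 1 ∨ s₂ = -1) ∧
    (∀ f ∈ Q, f ∈ P → 0 ≤ s₁ * (f.1 - z.1) ∧ 0 ≤ s₂ * (f.2 - z.2)) ∧
    ∀ f ∈ Q, f ∈ P → ∀ g ∈ Q, g ∈ P → (s₁ * f.1 ≤ s₁ * g.1 ∧ s₂ * f.2 ≤ s₂ * g.2) ∨
      (s₁ * g.1 ≤ s₁ * f.1 ∧ s₂ * g.2 ≤ s₂ * f.2)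

/-- Boxes are connected. -/
theorem chI_box {f g : ℤ × ℤ} (hf : InB z r f) (hg : InB z r g) :
    ChI {x | InB z r x} f g := by
  unfold InB at hf hg
  have e1 : ChI {x | InB z r x} (f.1, f.2) (g.1, f.2) := by
    refine Tube.chain_row fun x h1 h2 => ?_
    show InB z r (x, f.2)
    unfold InB
    simp only
    omega
  have e2 : ChI {x | InB z r x} (g.1, f.2) (g.1, g.2) := by
    refine Tube.chain_col fun x h1 h2 => ?_
    show InB z r (g.1, x)
    unfold InB
    simp only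
    omega
  exact e1.trans e2

namespace Ndl

theorem l0 (N : Ndl P Q y a z r l c d) : 0 ≤ l := by
  have h := N.size a N.aQ
  unfold InB at h
  omega

theorem y_far (N : Ndl P Q y a z r l c d) : ¬ InB z r y := fun hh => N.yP (N.box _ hh)

/-- **Clearance**: the needle runs away from the outside of `P`. -/
theorem clear (N : Ndl P Q y a z r l c d) {s : ℤ} {f g : ℤ × ℤ} (hf : f ∈ Q) (hg : g ∉ P)
    (hfg : InB f s g) (hs : d ≤ 2 * s + c) : InB y (2 * s + c) f := by
  by_contra hn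
  by_cases hfP : f ∈ P
  · have h1 := N.inn f hf hfP (r - s) (2 * s + c) hn (by omega)
    apply hg
    apply N.box
    unfold InB at *
    omega
  · have h1 := N.hook f hf hfP
    apply hn
    unfold InB at *
    omega

/-- The condition of `lab_start`. -/
theorem hfar (N : Ndl P Q y a z r l c d) {s : ℤ} (hs : d ≤ 2 * s + c) :
    ∀ f ∈ Q, ¬ InB y (2 * s + c) f → ∀ x, InB f s x → x ∈ P := by
  intro f hf hn x hx
  by_contra hxP
  exact hn (N.clear hf hxP hx hs)

theorem far_VQ (N : Ndl P Q y a z r l c d)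
    (hdγ : ∀ x y, γ x = γ y → |x.1 - y.1| < d ∧ |x.2 - y.2| < d) {f : ℤ × ℤ}
    (hf : f ∈ VQ P Q γ) : InB y (l + d - 1) f := by
  obtain ⟨-, g, hg, hgf⟩ := hf
  have h1 := N.size g hg
  have h2 := hdγ g f hgf
  rw [abs_lt, abs_lt] at h2
  unfold InB at *
  omega

/-- The faces near `z` are not in cells of the needle. -/
theorem not_VQ (N : Ndl P Q y a z r l c d)
    (hdγ : ∀ x y, γ x = γ y → |x.1 - y.1| < d ∧ |x.2 - y.2| < d) {f : ℤ × ℤ}
    (hf : InB z (r - l - d) f) : f ∉ VQ P Q γ := by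
  intro hV
  have h1 := N.far_VQ hdγ hV
  have h2 := N.y_far
  unfold InB at *
  omega

theorem box_diff (N : Ndl P Q y a z r l c d)
    (hdγ : ∀ x y, γ x = γ y → |x.1 - y.1| < d ∧ |x.2 - y.2| < d) {f : ℤ × ℤ}
    (hf : InB z (r - l - d) f) : f ∈ P \ VQ P Q γ := by
  refine ⟨N.box f ?_, N.not_VQ hdγ hf⟩
  have := N.l0
  have := N.d0
  unfold InB at *
  omega

theorem z_mem (N : Ndl P Q y a z r l c d)
    (hdγ : ∀ x y, γ x = γ y → |x.1 - y.1| < d ∧ |x.2 - y.2| < d) : z ∈ P \ VQ P Q γ := by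
  apply N.box_diff hdγ
  have := N.len
  unfold InB
  omega

/-- The box of radius `r - l - d` around `z` is in the new region. -/
theorem box_sub (N : Ndl P Q y a z r l c d)
    (hdγ : ∀ x y, γ x = γ y → |x.1 - y.1| < d ∧ |x.2 - y.2| < d) {f : ℤ × ℤ}
    (hf : InB z (r - l - d) f) : f ∈ compT (P \ VQ P Q γ) z := by
  have hz : InB z (r - l - d) z := by
    have := N.len
    unfold InB
    omega
  exact (chI_box hz hf).mono fun x hx => N.box_diff hdγ hx

end Ndl

/-! ### The common side -/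

/-- `P \ V` has a side of `P` at the end of a ray which does not meet `V`. -/
theorem exists_com_ray (hPf : P.Finite) {e : ℤ × ℤ}
    (he : e = (1, 0) ∨ e = (-1, 0) ∨ e = (0, 1) ∨ e = (0, -1)) (hz : z ∈ P \ V)
    (hV : ∀ k : ℕ, (z.1 + k * e.1, z.2 + k * e.2) ∉ V) :
    ∃ A : UE × Bool, BD P A ∧ BD (compT (P \ V) z) A ∧
      ∃ k : ℕ, ahead (rv A) = (z.1 + k * e.1, z.2 + k * e.2) := by
  classical
  set g : ℕ → ℤ × ℤ := fun k => (z.1 + k * e.1, z.2 + k * e.2) with hg
  have hex : ∃ j, g j ∉ P := by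
    by_contra hcon
    push Not at hcon
    have hinj : Function.Injective g := by
      intro i j hij
      simp only [hg, Prod.mk.injEq] at hij
      rcases he with rfl | rfl | rfl | rfl <;> simp at hij <;> exact_mod_cast hij
    exact (Set.infinite_of_injective_forall_mem hinj hcon) hPf
  obtain ⟨j, hj, hmin⟩ : ∃ j, g j ∉ P ∧ ∀ k < j, g k ∈ P :=
    ⟨Nat.find hex, Nat.find_spec hex, fun k hk => not_not.1 (Nat.find_min hex hk)⟩
  have hadj : ∀ k, AdjF (g k) (g (k + 1)) := by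
    intro k
    rw [adjF_iff]
    rcases he with rfl | rfl | rfl | rfl <;> simp [hg] <;> omega
  have h0 : g 0 = z := by simp [hg]
  have hcon : ∀ k, k < j → g k ∈ compT (P \ V) z := by
    intro k
    induction k with
    | zero => intro _; rw [h0]; exact self_mem_compT
    | succ k ih => exact fun hk => compT_step (ih (by omega)) (hadj k) ⟨hmin _ hk, hV _⟩
  have hj0 : 0 < j := by
    rcases Nat.eq_zero_or_pos j with h | h
    · subst h
      rw [h0] at hj
      exact absurd hz.1 hj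
    · exact h
  obtain ⟨k, rfl⟩ : ∃ k, j = k + 1 := ⟨j - 1, by omega⟩
  have h1 := hcon k (by omega)
  have h2 : g (k + 1) ∉ compT (P \ V) z := fun hc => hj (compT_sub hz hc).1
  obtain ⟨A, hA, ha, hb⟩ := Tube.exists_bd h1 h2 (hadj k)
  exact ⟨A, ⟨by rw [ha]; exact hmin k (by omega), by rw [hb]; exact hj⟩, hA, k + 1, hb⟩

/-! ### The corners of the tip and of the target -/

theorem isCor_out_rg (A : UE × Bool) : IsCor (ahead (rv A)) (rg A) :=
  (isCor_rg_iff A _).2 (Or.inl rfl)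

/-- The right end of the tip side is a corner of a face of `V` and of a face outside `P`. -/
theorem StartD.tip_cor (h : StartD P V R m) :
    ∃ f ∈ V, ∃ g, g ∉ P ∧ IsCor f (rg (tipS P R)) ∧ IsCor g (rg (tipS P R)) := by
  refine ⟨outF R (tipS P R) 1, h.mid 1 one_pos h.one, ahead (rv (tipS P R)), h.bd.2, ?_,
    isCor_out_rg _⟩
  exact isCor_out_sc R (tipS P R)

/-- The left end of the target side is a corner of a face of `V` and of a face outside `P`. -/
theorem StartD.tgt_cor (h : StartD P V R m) :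
    ∃ f ∈ V, ∃ g, g ∉ P ∧ IsCor f (lf (tgtS P R)) ∧ IsCor g (lf (tgtS P R)) := by
  obtain ⟨n, hn⟩ : ∃ n, tgtN P R = n + 1 := ⟨tgtN P R - 1, by have := h.one; omega⟩
  have h1 := h.one
  refine ⟨outF R (tipS P R) n, h.mid n (by omega) (by omega), ahead (rv (tgtS P R)), h.bdB.2, ?_,
    isCor_out_lf _⟩
  unfold tgtS
  rw [hn, side_succ, lf_sc]
  exact isCor_out_rg _

namespace Ndl

/-- The new region has a side of `P`, far from the base. -/
theorem exists_com (N : Ndl P Q y a z r l c d) (hPf : P.Finite)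
    (hdγ : ∀ x y, γ x = γ y → |x.1 - y.1| < d ∧ |x.2 - y.2| < d) :
    ∃ A : UE × Bool, BD P A ∧ BD (compT (P \ VQ P Q γ) z) A ∧ ¬ InB y (2 * r + 1) (ahead (rv A)) := by
  have hz := N.z_mem hdγ
  have h1 := N.y_far
  have h3 := N.len
  have h4 := N.d0
  have h5 := N.l0
  have key : ∀ e : ℤ × ℤ, (e = (1, 0) ∨ e = (-1, 0) ∨ e = (0, 1) ∨ e = (0, -1)) →
      (∀ k : ℕ, ¬ InB y (l + d - 1) (z.1 + k * e.1, z.2 + k * e.2)) →
      (∀ k : ℕ, r < k → ¬ InB y (2 * r + 1) (z.1 + k * e.1, z.2 + k * e.2)) →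
      ∃ A : UE × Bool, BD P A ∧ BD (compT (P \ VQ P Q γ) z) A ∧
        ¬ InB y (2 * r + 1) (ahead (rv A)) := by
    intro e he h6 h7
    obtain ⟨A, hA, hA', k, hk⟩ := exists_com_ray hPf he hz fun k hk => h6 k (N.far_VQ hdγ hk)
    refine ⟨A, hA, hA', ?_⟩
    rw [hk]
    refine h7 k ?_
    by_contra hkr
    have h8 : ahead (rv A) ∈ P := by
      rw [hk]
      apply N.box
      unfold InB
      rcases he with rfl | rfl | rfl | rfl <;> simp <;> omega
    exact hA.2 h8
  have hc : y.1 ≥ z.1 + r + 1 ∨ y.1 ≤ z.1 - r - 1 ∨ y.2 ≥ z.2 + r + 1 ∨ y.2 ≤ z.2 - r - 1 := by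
    unfold InB at h1
    omega
  rcases hc with hc | hc | hc | hc
  · refine key (-1, 0) (Or.inr (Or.inl rfl)) (fun k hk => ?_) fun k hk hk' => ?_
    · unfold InB at hk
      simp only at hk
      omega
    · unfold InB at hk'
      simp only at hk'
      omega
  · refine key (1, 0) (Or.inl rfl) (fun k hk => ?_) fun k hk hk' => ?_
    · unfold InB at hk
      simp only at hk
      omega
    · unfold InB at hk'
      simp only at hk'
      omega
  · refine key (0, -1) (Or.inr (Or.inr (Or.inr rfl))) (fun k hk => ?_) fun k hk hk' => ?_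
    · unfold InB at hk
      simp only at hk
      omega
    · unfold InB at hk'
      simp only at hk'
      omega
  · refine key (0, 1) (Or.inr (Or.inr (Or.inl rfl))) (fun k hk => ?_) fun k hk hk' => ?_
    · unfold InB at hk
      simp only at hk
      omega
    · unfold InB at hk'
      simp only at hk'
      omega

/-- **The tip side and the target side.** -/
theorem start (N : Ndl P Q y a z r l c d) (hPf : P.Finite) (hPc : Top.EConn P) (hPe : Esc P)
    (hγP : ∀ x y, γ x = γ y → x ∈ P → y ∈ P) (hγ : ∀ x y, γ x = γ y → Chn {z | γ z = γ x} x y)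
    (hdγ : ∀ x y, γ x = γ y → |x.1 - y.1| < d ∧ |x.2 - y.2| < d) :
    ∃ m, StartD P (VQ P Q γ) (compT (P \ VQ P Q γ) z) m := by
  obtain ⟨A, hA, hA', -⟩ := N.exists_com hPf hdγ
  exact start_dom hPf hPc hPe hγP hγ N.join N.aQ N.aP N.yP N.adj (N.z_mem hdγ) ⟨A, hA, hA'⟩

/-- The new region is a disc. -/
theorem disc (N : Ndl P Q y a z r l c d) (hPf : P.Finite) (hPe : Esc P)
    (hγP : ∀ x y, γ x = γ y → x ∈ P → y ∈ P) (hγ : ∀ x y, γ x = γ y → Chn {z | γ z = γ x} x y)
    (hdγ : ∀ x y, γ x = γ y → |x.1 - y.1| < d ∧ |x.2 - y.2| < d) :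
    Top.EConn (compT (P \ VQ P Q γ) z) ∧ Esc (compT (P \ VQ P Q γ) z) :=
  comp_start hPf hPe hγP hγ N.join N.yP N.adj (N.z_mem hdγ)

/-- A face of a cell of the needle which touches the outside of `P` is near the base. -/
theorem touch (N : Ndl P Q y a z r l c d)
    (hdγ : ∀ x y, γ x = γ y → |x.1 - y.1| < d ∧ |x.2 - y.2| < d) {s : ℤ} {f g : ℤ × ℤ}
    (hf : f ∈ VQ P Q γ) (hg : g ∉ P) (hfg : InB f s g) (hs : 0 < s) :
    InB y (2 * s + 3 * d + c - 3) f := by
  obtain ⟨-, k, hk, hkf⟩ := hf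
  have h2 := hdγ k f hkf
  rw [abs_lt, abs_lt] at h2
  have h4 := N.d0
  have h5 := N.c0
  have h3 : InB y (2 * (s + d - 1) + c) k := by
    refine N.clear hk hg ?_ (by omega)
    unfold InB at *
    omega
  unfold InB at *
  omega

/-- A common corner of a face of a cell of the needle and of a face outside `P` is near the base. -/
theorem corner (N : Ndl P Q y a z r l c d)
    (hdγ : ∀ x y, γ x = γ y → |x.1 - y.1| < d ∧ |x.2 - y.2| < d) {f g v : ℤ × ℤ}
    (hf : f ∈ VQ P Q γ) (hg : g ∉ P) (hfv : IsCor f v) (hgv : IsCor g v) :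
    InB y (3 * d + c) v := by
  have h1 : InB f 1 g := by
    unfold IsCor at hfv hgv
    unfold InB
    omega
  have h2 := N.touch hdγ hf hg h1 one_pos
  unfold IsCor at hfv
  unfold InB at *
  omega

/-- The cell of a face as in `corner` is near the base. -/
theorem cell_near (N : Ndl P Q y a z r l c d)
    (hdγ : ∀ x y, γ x = γ y → |x.1 - y.1| < d ∧ |x.2 - y.2| < d) {f f' g v : ℤ × ℤ}
    (hf : f ∈ VQ P Q γ) (hg : g ∉ P) (hfv : IsCor f v) (hgv : IsCor g v) (hff : γ f = γ f') :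
    InB y (4 * d + c) f' := by
  have h1 : InB f 1 g := by
    unfold IsCor at hfv hgv
    unfold InB
    omega
  have h2 := N.touch hdγ hf hg h1 one_pos
  have h3 := hdγ f f' hff
  rw [abs_lt, abs_lt] at h3
  unfold InB at *
  omega

/-- **The tip is near the base.** -/
theorem tip_near (N : Ndl P Q y a z r l c d)
    (hdγ : ∀ x y, γ x = γ y → |x.1 - y.1| < d ∧ |x.2 - y.2| < d)
    (hS : StartD P (VQ P Q γ) R m) : InB y (3 * d + c) (rg (tipS P R)) := by
  obtain ⟨f, hf, g, hg, h1, h2⟩ := hS.tip_cor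
  exact N.corner hdγ hf hg h1 h2

/-- **The target is near the base.** -/
theorem tgt_near (N : Ndl P Q y a z r l c d)
    (hdγ : ∀ x y, γ x = γ y → |x.1 - y.1| < d ∧ |x.2 - y.2| < d)
    (hS : StartD P (VQ P Q γ) R m) : InB y (3 * d + c) (lf (tgtS P R)) := by
  obtain ⟨f, hf, g, hg, h1, h2⟩ := hS.tgt_cor
  exact N.corner hdγ hf hg h1 h2

/-- **The approximation for the new state.** -/
theorem app {κ : ℤ × ℤ → ι} (N : Ndl P Q y a z r l c d) (A : App U P κ d)
    (hγP : ∀ x y, γ x = γ y → x ∈ P → y ∈ P) (hγ : ∀ x y, γ x = γ y → Chn {z | γ z = γ x} x y)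
    (hdγ : ∀ x y, γ x = γ y → |x.1 - y.1| < d ∧ |x.2 - y.2| < d) :
    App (compT (U \ Q) z) (compT (P \ VQ P Q γ) z) (kapS κ P (VQ P Q γ) γ) d :=
  app_start_comp A hγP hγ hdγ (N.z_mem hdγ)

/-- **The labels at the start.** -/
theorem lab {κ : ℤ × ℤ → ι} {T R : Finset (ℤ × ℤ)} (N : Ndl P Q y a z r l c d) (A : App U P κ d)
    (hdγ : ∀ x y, γ x = γ y → |x.1 - y.1| < d ∧ |x.2 - y.2| < d)
    (hT : (T : Set (ℤ × ℤ)) = compT (U \ Q) z)
    (hR : (R : Set (ℤ × ℤ)) = compT (P \ VQ P Q γ) z) {e e' : UE}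
    (he : BdU (R : Set (ℤ × ℤ)) e) (he' : BdU (T : Set (ℤ × ℤ)) e')
    (hl : LinkC T R (kapS κ P (VQ P Q γ) γ) e e') (hb : ¬ InB y (3 * d + c + 3) (ua e)) :
    OutIn (R : Set (ℤ × ℤ)) (VQ P Q γ) e ↔ OutIn (T : Set (ℤ × ℤ)) Q e' := by
  have hd := N.d0
  have hc := N.c0
  have hsub : P \ VQ P Q γ ⊆ U \ Q := fun f hf => ⟨A.sub hf.1, fun h => hf.2 (mem_VQ_of_Q hf.1 h)⟩
  have mT : ∀ f, f ∈ T ↔ f ∈ compT (U \ Q) z := fun f => by rw [← hT, Finset.mem_coe]
  have mR : ∀ f, f ∈ R ↔ f ∈ compT (P \ VQ P Q γ) z := fun f => by rw [← hR, Finset.mem_coe]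
  refine lab_start (t := 2 * d + c) (d := d) (b := y) A.sub (fun f hf g hfg hg hgQ => ?_)
    (fun f hf => ?_) (fun f hf g hfg hg => ?_) A.diam hdγ (N.hfar (by omega)) he he' hl
    (fun hh => hb ?_)
  · rw [mT] at *
    exact compT_step hf hfg ⟨hg, hgQ⟩
  · rw [mT]
    rw [mR] at hf
    exact compT_mono hsub hf
  · rw [mR] at *
    exact compT_step hf hfg hg
  · unfold InB at *
    omega

/-- **A side of the new region far from the base**, with a chain to the outside of `U`. -/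
theorem exists_D {κ : ℤ × ℤ → ι} (N : Ndl P Q y a z r l c d) (hPf : P.Finite) (A : App U P κ d)
    (hdγ : ∀ x y, γ x = γ y → |x.1 - y.1| < d ∧ |x.2 - y.2| < d) :
    ∃ D : UE × Bool, BD P D ∧ BD (compT (P \ VQ P Q γ) z) D ∧ ¬ InB y (2 * r + 1) (ahead (rv D)) ∧
      ∃ x, x ∉ U ∧ κ x = κ (ahead (rv D)) ∧
        ChI {f | f ∉ P ∧ f ∉ Q ∧ κ f = κ (ahead (rv D))} (ahead (rv D)) x := by
  obtain ⟨D, hD, hD', hfar⟩ := N.exists_com hPf hdγ
  refine ⟨D, hD, hD', hfar, ?_⟩
  obtain ⟨x, hx, hxU⟩ := A.out _ hD.1 _ (adj_iff_adjFL.2 (adjF_ahead D).symm) hD.2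
  refine ⟨x, hxU, hx, ?_⟩
  have h3 := N.len
  have h4 := N.d0
  have h5 := N.l0
  have h1 : ChI {f | κ f = κ (ahead (rv D))} (ahead (rv D)) x :=
    chn_joinIn (A.cell _ _ hx.symm)
  refine h1.mono fun f hf => ?_
  have hf' : κ f = κ (ahead (rv D)) := hf
  have hfP : f ∉ P := fun h => hD.2 (A.sat _ _ hf' h)
  refine ⟨hfP, fun hfQ => hfar ?_, hf'⟩
  have h6 := N.hook f hfQ hfP
  have h7 := A.diam _ _ hf'
  rw [abs_lt, abs_lt] at h7
  unfold InB at *
  omega

/-! ### The needle does not separate the box -/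

/-- The case of the quadrant to the upper right of `z`. -/
theorem box_conn_aux {W : Set (ℤ × ℤ)} {z : ℤ × ℤ} {s : ℤ} (hs : 0 < s)
    (hq : ∀ f ∈ W, z.1 ≤ f.1 ∧ z.2 ≤ f.2) (hz : z ∉ W)
    (hc : ∀ f ∈ W, ∀ g ∈ W, (f.1 ≤ g.1 ∧ f.2 ≤ g.2) ∨ (g.1 ≤ f.1 ∧ g.2 ≤ f.2)) {f : ℤ × ℤ}
    (hf : InB z s f) (hfW : f ∉ W) : ChI {x | InB z s x ∧ x ∉ W} f z := by
  have hf' := hf
  unfold InB at hf'
  -- the part of the box which is not in the quadrant
  have e1 : ChI {x | InB z s x ∧ x ∉ W} (z.1 - 1, z.2) z := by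
    refine ChI.single ?_ ⟨by unfold InB; omega, hz⟩
    rw [adjF_iff]
    left
    ext <;> simp
  have e2 : ∀ g : ℤ × ℤ, InB z s g → g.1 < z.1 → ChI {x | InB z s x ∧ x ∉ W} g (z.1 - 1, z.2) := by
    intro g hg h1
    unfold InB at hg
    have e3 : ChI {x | InB z s x ∧ x ∉ W} (g.1, g.2) (g.1, z.2) := by
      refine Tube.chain_col fun x h2 h3 => ⟨?_, fun hW => ?_⟩
      · unfold InB
        simp only
        omega
      · have := hq _ hW
        simp only at this
        omega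
    have e4 : ChI {x | InB z s x ∧ x ∉ W} (g.1, z.2) (z.1 - 1, z.2) := by
      refine Tube.chain_row fun x h2 h3 => ⟨?_, fun hW => ?_⟩
      · unfold InB
        simp only
        omega
      · have := hq _ hW
        simp only at this
        omega
    exact e3.trans e4
  have e5 : ∀ g : ℤ × ℤ, InB z s g → g.2 < z.2 → ChI {x | InB z s x ∧ x ∉ W} g (z.1 - 1, z.2) := by
    intro g hg h1
    unfold InB at hg
    have e3 : ChI {x | InB z s x ∧ x ∉ W} (g.1, g.2) (z.1 - 1, g.2) := by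
      refine Tube.chain_row fun x h2 h3 => ⟨?_, fun hW => ?_⟩
      · unfold InB
        simp only
        omega
      · have := hq _ hW
        simp only at this
        omega
    refine e3.trans (e2 _ ?_ ?_)
    · unfold InB
      simp only
      omega
    · simp
  by_cases h1 : f.1 < z.1
  · exact (e2 f hf h1).trans e1
  by_cases h2 : f.2 < z.2
  · exact (e5 f hf h2).trans e1
  -- the face is in the quadrant
  by_cases h3 : ∀ x, z.1 - 1 ≤ x → x ≤ f.1 → (x, f.2) ∉ W
  · have e3 : ChI {x | InB z s x ∧ x ∉ W} (f.1, f.2) (z.1 - 1, f.2) := by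
      refine Tube.chain_row fun x h4 h5 => ⟨?_, h3 x ?_ ?_⟩
      · unfold InB
        simp only
        omega
      · omega
      · omega
    refine (e3.trans (e2 _ ?_ ?_)).trans e1
    · unfold InB
      simp only
      omega
    · simp
  · push Not at h3
    obtain ⟨x, hx1, hx2, hxW⟩ := h3
    have hxf : x < f.1 := by
      rcases hx2.lt_or_eq with h | h
      · exact h
      · subst h
        exact absurd hxW hfW
    have e3 : ChI {x | InB z s x ∧ x ∉ W} (f.1, f.2) (f.1, z.2 - 1) := by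
      refine Tube.chain_col fun v h4 h5 => ⟨?_, fun hW => ?_⟩
      · unfold InB
        simp only
        omega
      · have h6 : v < f.2 := by
          rcases lt_or_ge v f.2 with h | h
          · exact h
          · have : v = f.2 := by omega
            subst this
            exact absurd hW hfW
        have := hc _ hxW _ hW
        simp only at this
        omega
    refine (e3.trans (e5 _ ?_ ?_)).trans e1
    · unfold InB
      simp only
      omega
    · simp

/-- Reflections. -/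
theorem chI_map {S : Set (ℤ × ℤ)} {φ : ℤ × ℤ → ℤ × ℤ} (hφ : ∀ f g, AdjF f g → AdjF (φ f) (φ g))
    {f g : ℤ × ℤ} (h : ChI (φ ⁻¹' S) f g) : ChI S (φ f) (φ g) := by
  induction h with
  | refl => exact ChI.refl _
  | tail _ hs ih => exact ih.tail ⟨hφ _ _ hs.1, hs.2⟩

/-- **A monotone needle does not separate a box around `z`.** -/
theorem box_conn {W : Set (ℤ × ℤ)} {z : ℤ × ℤ} {s s₁ s₂ : ℤ} (hs : 0 < s)
    (h₁ : s₁ = 1 ∨ s₁ = -1) (h₂ : s₂ = 1 ∨ s₂ = -1)
    (hq : ∀ f ∈ W, 0 ≤ s₁ * (f.1 - z.1) ∧ 0 ≤ s₂ * (f.2 - z.2)) (hz : z ∉ W)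
    (hc : ∀ f ∈ W, ∀ g ∈ W, (s₁ * f.1 ≤ s₁ * g.1 ∧ s₂ * f.2 ≤ s₂ * g.2) ∨
      (s₁ * g.1 ≤ s₁ * f.1 ∧ s₂ * g.2 ≤ s₂ * f.2)) {f : ℤ × ℤ}
    (hf : InB z s f) (hfW : f ∉ W) : ChI {x | InB z s x ∧ x ∉ W} f z := by
  set φ : ℤ × ℤ → ℤ × ℤ := fun f => (s₁ * f.1, s₂ * f.2) with hφ
  have hinv : ∀ f, φ (φ f) = f := by
    intro f
    rcases h₁ with rfl | rfl <;> rcases h₂ with rfl | rfl <;> simp [hφ]
  have hadj : ∀ f g, AdjF f g → AdjF (φ f) (φ g) := by
    intro f g h
    rw [adjF_iff] at *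
    rcases h₁ with rfl | rfl <;> rcases h₂ with rfl | rfl <;> rcases h with h | h | h | h <;>
      rw [h] <;> simp [hφ] <;> omega
  have hin : ∀ g, InB (φ z) s (φ g) ↔ InB z s g := by
    intro g
    unfold InB
    rcases h₁ with rfl | rfl <;> rcases h₂ with rfl | rfl <;> simp [hφ] <;> omega
  have key : ChI {x | InB (φ z) s x ∧ x ∉ φ ⁻¹' W} (φ f) (φ z) := by
    refine box_conn_aux hs ?_ ?_ ?_ ((hin f).2 hf) ?_
    · intro g hg
      have := hq _ hg
      rcases h₁ with rfl | rfl <;> rcases h₂ with rfl | rfl <;> simp [hφ] at this ⊢ <;> omega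
    · show φ (φ z) ∉ W
      rw [hinv]
      exact hz
    · intro g hg k hk
      have := hc _ hg _ hk
      rcases h₁ with rfl | rfl <;> rcases h₂ with rfl | rfl <;> simp [hφ] at this ⊢ <;> omega
    · show φ (φ f) ∉ W
      rw [hinv]
      exact hfW
  have h3 := chI_map (S := {x | InB z s x ∧ x ∉ W}) (φ := φ) hadj (f := φ f) (g := φ z)
    (key.mono fun x hx => ?_)
  · rw [hinv, hinv] at h3
    exact h3
  · show InB z s (φ x) ∧ φ x ∉ W
    refine ⟨?_, hx.2⟩
    rw [← hin, hinv]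
    exact hx.1

/-- **The needle does not separate.** A face which has a common side with a face of the needle outside
of the box of radius `t` around the base is joined to `z` in `P \ Q`, outside of the box of radius `s`
around the base. -/
theorem join_R (N : Ndl P Q y a z r l c d) {s t : ℤ} (hds : d ≤ s) (hsr : s < r)
    (ht : 2 * s + c + 2 ≤ t) {f q : ℤ × ℤ} (hfQ : f ∉ Q) (hq : q ∈ Q) (hfq : AdjF f q)
    (hqt : ¬ InB y t q) : ChI {x | x ∈ P ∧ x ∉ Q ∧ ¬ InB y s x} f z ∧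
      f ∈ P ∧ ¬ InB y s f := by
  obtain ⟨s₁, s₂, h1, h2, h3, h4⟩ := N.mono
  have hd := N.d0
  have hc := N.c0
  have hqP : q ∈ P := by
    by_contra hn
    have := N.hook q hq hn
    unfold InB at *
    omega
  have hin := N.inn q hq hqP (r - s - 1) t hqt (by omega)
  have hy := N.y_far
  have hfin : InB z (r - s) f := by
    rcases adjF_iff.1 hfq with h | h | h | h <;> rw [h] at hin <;> unfold InB at * <;>
      simp only at hin <;> omega
  have hsub : ∀ x, InB z (r - s) x → x ∈ P ∧ ¬ InB y s x := by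
    intro x hx
    refine ⟨N.box x ?_, fun hxy => hy ?_⟩
    · unfold InB at *
      omega
    · unfold InB at *
      omega
  have hzQ : z ∉ Q := by
    intro hz
    have := N.size z hz
    have := N.len
    unfold InB at *
    omega
  have key := box_conn (W := {x | x ∈ Q ∧ x ∈ P}) (z := z) (s := r - s) (by omega) h1 h2
    (fun x hx => h3 x hx.1 hx.2) (fun hh => hzQ hh.1) (fun x hx g hg => h4 x hx.1 hx.2 g hg.1 hg.2)
    hfin (fun hh => hfQ hh.1)
  refine ⟨key.mono fun x hx => ?_, hsub f hfin⟩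
  obtain ⟨h5, h6⟩ := hsub x hx.1
  exact ⟨h5, fun hh => hx.2 ⟨hh, h5⟩, h6⟩

end Ndl

end Pool.Agent.SixB.StartA
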