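import Pool.Agent.Lib.SixB.S8Leak
import Pool.Agent.Lib.SixB.S8Walls
import Pool.Agent.Lib.SixB.S8Caps
import Pool.Agent.Lib.SixB.S8NearRed
import Pool.Agent.Lib.SixB.S8StartN
import Pool.Agent.Lib.SixB.S8BadD

/-!
# Step 8: the strand before its first visit of the component of the target

`Q`: the frozen faces with a bond of colour `c` (the needle), `G`: the component of the target. If all
the faces around the needle vertices outside of the box of radius `ρ` around `z` are in `Q ∪ G`, then a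
strand which starts in this box, is later outside of the box of radius `R`, and did not visit `G`
before, makes a passage without touching the wall of colour `c` (`one_of_far`). `one_of_start`: the
same for the exploration of a clearance needle (`StartA.Ndl`), `G` = the component of the target.
-/

set_option autoImplicit false

namespace Pool.Agent.SixB.Dsp

open Pool.Agent.Perc Pool.Agent.PercT Pool.Agent.SixB Pool.Agent.SixB.Mv

variable {ω : Cfg} {e : UE} {c : ℤ} {a k : ℕ}

/-- While the crossed faces have a bond of colour `c`, the end of the other colour is fixed. -/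
theorem en_run (hc : c = 0 ∨ c = 1) (hak : a ≤ k)
    (h : ∀ l, a ≤ l → l < k → ω (fa (pth ω e l)) = !parD c (fa (pth ω e l))) :
    en (1 - c) (pth ω e k) = en (1 - c) (pth ω e a) := by
  induction k, hak using Nat.le_induction with
  | base => rfl
  | succ k hak ih =>
    rw [← ih fun l h1 h2 => h l h1 (by omega)]
    have h1 := h k hak (by omega)
    rw [pth_succ]
    rcases mt_ends hc (mt_nx ω (pth ω e k)) with ⟨-, h3, -⟩ | ⟨h3, -, -⟩
    · exact h3.symm
    · rw [h3] at h1
      cases hh : parD c (fa (pth ω e k)) <;> rw [hh] at h1 <;> simp at h1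

section far

variable {E : Ex} {Q G : Set (ℤ × ℤ)} {z : ℤ × ℤ} {ρ R : ℤ} {s t : ℕ}

/-- **A passage without visit of `G` touches the walls of one colour only** (`s`: time of the walls,
the passage begins at the time `u` in the box of radius `ρ`). -/
theorem one_of_far_from (hc : c = 0 ∨ c = 1) {u : ℕ} (hsu : s ≤ u) (hst : u ≤ t)
    (hQ : ∀ f, f ∉ E.Fr ω s → E.cf ω f = !parD c f → f ∈ Q)
    (hQ' : ∀ f ∈ Q, E.cf ω f = !parD c f)
    (hV : ∀ v, par v = c → ¬ InR (z.1 - ρ) (z.1 + ρ) (z.2 - ρ) (z.2 + ρ) v →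
      (∃ f ∈ Q, IsCor f v) → ∀ f, IsCor f v → f ∈ Q ∨ f ∈ G)
    (h0 : InB z ρ (E.p ω u)) (hG : ∀ l, u ≤ l → l < t → fa (E.p ω l) ∉ G)
    (hR : ¬ InB z R (E.p ω t)) (hr : ρ + 3 ≤ R) : E.OneWall c ω s z (ρ + 4) R := by
  obtain ⟨i, hi1, hi2, hi3, hi4⟩ := last_time (P := fun k => InB z (ρ + 3) (E.p ω k))
    (s := u) (u := t) (h0.mono (by omega)) hst
  have hit : i < t := by
    rcases Nat.lt_or_ge i t with h | h
    · exact h
    · exact absurd ((show i = t by omega) ▸ hi3.mono hr) hR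
  refine ⟨i, t, hsu.trans hi1, hi2, by rw [show ρ + 4 - 1 = ρ + 3 by ring]; exact hi3, hR, ?_⟩
  rintro k hik hkt ⟨ht1, ht2⟩
  -- the place of the touch is outside of the box of radius `ρ + 2`
  have hk : ¬ InB z (ρ + 2) (E.p ω k) := by
    intro hk
    refine hi4 (k + 1) (by omega) (by omega) ?_
    exact (hk.pth_succ (ω := E.cf ω) (e := E.e ω)).mono (by omega)
  -- the run of needle faces
  have hex : ∃ a, u ≤ a ∧ a ≤ k ∧ ∀ l, a ≤ l → l ≤ k → fa (E.p ω l) ∈ Q :=
    ⟨k, by omega, le_rfl, fun l h1 h2 => by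
      rw [show l = k by omega]
      exact hQ _ ht1 ht2⟩
  classical
  set a := Nat.find hex with ha
  obtain ⟨ha1, ha2, ha3⟩ := Nat.find_spec hex
  rw [← ha] at ha1 ha2 ha3
  have hen : en (1 - c) (E.p ω k) = en (1 - c) (E.p ω a) :=
    en_run hc ha2 fun l h1 h2 => hQ' _ (ha3 l h1 (by omega))
  have hak : ¬ InB z (ρ + 1) (E.p ω a) := by
    intro h
    apply hk
    have e1 := en_or (1 - c) (E.p ω k)
    have e2 := en_or (1 - c) (E.p ω a)
    have u1 := Near.ua_ub (E.p ω k)
    have u2 := Near.ua_ub (E.p ω a)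
    rw [Near.inB_iff] at h ⊢
    rw [hen] at e1
    rcases e1 with e1 | e1 <;> rcases e2 with e2 | e2 <;> rw [e2] at e1 <;>
      rw [Prod.ext_iff] at e1 <;> omega
  have has : u < a := by
    rcases Nat.lt_or_ge u a with h | h
    · exact h
    · exact absurd ((show a = u by omega) ▸ h0.mono (by omega)) hak
  obtain ⟨b, hb⟩ : ∃ b, a = b + 1 := ⟨a - 1, by omega⟩
  have hbQ : fa (E.p ω b) ∉ Q := by
    intro h
    refine Nat.find_min hex (m := b) (by omega) ⟨by omega, by omega, fun l h1 h2 => ?_⟩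
    rcases Nat.eq_or_lt_of_le h1 with h3 | h3
    · rw [← h3]; exact h
    · exact ha3 l (by omega) h2
  have hfb : fb (E.p ω a) = fa (E.p ω b) := by
    rw [hb]
    exact fb_pth_succ _ _ _
  have hv : ¬ InR (z.1 - ρ) (z.1 + ρ) (z.2 - ρ) (z.2 + ρ) (en c (E.p ω a)) := by
    intro h
    apply hak
    have e2 := en_or c (E.p ω a)
    have u2 := Near.ua_ub (E.p ω a)
    unfold InR at h
    rw [Near.inB_iff]
    rcases e2 with e2 | e2 <;> rw [e2] at h <;> omega
  rcases hV _ (par_en hc _) hv ⟨_, ha3 a le_rfl ha2, isCor_en (isSide_fa _) c⟩ _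
    (isCor_en (isSide_fb (E.p ω a)) c) with h | h
  · rw [hfb] at h; exact hbQ h
  · rw [hfb] at h; exact hG b (by omega) (by omega) h

/-- **A passage before the first visit of `G` touches the walls of one colour only.** -/
theorem one_of_far (hc : c = 0 ∨ c = 1) (hst : s ≤ t)
    (hQ : ∀ f, f ∉ E.Fr ω s → E.cf ω f = !parD c f → f ∈ Q)
    (hQ' : ∀ f ∈ Q, E.cf ω f = !parD c f)
    (hV : ∀ v, par v = c → ¬ InR (z.1 - ρ) (z.1 + ρ) (z.2 - ρ) (z.2 + ρ) v →
      (∃ f ∈ Q, IsCor f v) → ∀ f, IsCor f v → f ∈ Q ∨ f ∈ G)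
    (h0 : InB z ρ (E.p ω s)) (hG : ∀ l, s ≤ l → l < t → fa (E.p ω l) ∉ G)
    (hR : ¬ InB z R (E.p ω t)) (hr : ρ + 3 ≤ R) : E.OneWall c ω s z (ρ + 4) R :=
  one_of_far_from hc le_rfl hst hQ hQ' hV h0 hG hR hr

end far

/-! ### Clearance needles -/

section start

open Pool.Agent.SixB.StartA Pool.Agent.SixB.Dct Pool.Agent.SixB.Tru Pool.Agent.SixB.Top
open Pool.Agent.PercX60
open Pool.Agent.MP_6bd702.H23 (Ed)

variable {P Q F : Set (ℤ × ℤ)} {y a z b : ℤ × ℤ} {r l c d s t k ρ R : ℤ}

/-- The faces at a vertex of the needle far from the base are needle faces or in the component of `z`. -/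
theorem ndl_faces (N : Ndl P Q y a z r l c d) (hPF : P ⊆ F) (hds : d ≤ s) (hsr : s < r)
    (ht : 2 * s + c + 2 ≤ t) {v q : ℤ × ℤ} (hq : q ∈ Q) (hqv : IsCor q v)
    (hv : ¬ LC.InB y (t + 2) v) {f : ℤ × ℤ} (hf : IsCor f v) : f ∈ Q ∨ f ∈ compT (F \ Q) z := by
  by_cases hfQ : f ∈ Q
  · exact Or.inl hfQ
  right
  have hd := N.d0
  have hc := N.c0
  have hfar : ∀ q, IsCor q v → ¬ LC.InB y t q := by
    intro q hqv h
    apply hv
    unfold IsCor at hqv
    unfold LC.InB at h ⊢
    omega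
  have key : ∀ g q, g ∉ Q → q ∈ Q → IsCor q v → AdjF g q → g ∈ compT (F \ Q) z ∧ g ∈ P := by
    intro g q hg hq hqv hgq
    obtain ⟨h1, h2, h3⟩ := N.join_R hds hsr ht hg hq hgq (hfar q hqv)
    have h4 : ChI (F \ Q) g z := h1.mono fun x hx => (⟨hPF hx.1, hx.2.1⟩ : x ∈ F \ Q)
    exact ⟨h4.symm ⟨hPF h2, hg⟩, h2⟩
  by_cases h1 : AdjF f q
  · exact (key f q hfQ hq hqv h1).1
  have hfq : f.1 ≠ q.1 ∧ f.2 ≠ q.2 := by
    have hne : f ≠ q := fun h => hfQ (h ▸ hq)
    have h2 : ¬ (q = (f.1 + 1, f.2) ∨ q = (f.1 - 1, f.2) ∨ q = (f.1, f.2 + 1) ∨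
        q = (f.1, f.2 - 1)) := fun h => h1 (adjF_iff.2 h)
    unfold IsCor at hf hqv
    rw [Ne, Prod.ext_iff] at hne
    simp only [Prod.ext_iff] at h2
    omega
  set g : ℤ × ℤ := (f.1, q.2) with hg
  have hgv : IsCor g v := by
    unfold IsCor at *
    simp only [hg]
    omega
  have hgf : AdjF f g := by
    rw [adjF_iff]
    unfold IsCor at hf hqv
    simp only [hg, Prod.ext_iff, true_and]
    have := hfq.2
    rcases hf.2 with h3 | h3 <;> rcases hqv.2 with h4 | h4
    · omega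
    · right; right; right; omega
    · right; right; left; omega
    · omega
  have hgq : AdjF g q := by
    rw [adjF_iff]
    unfold IsCor at hf hqv
    simp only [hg, Prod.ext_iff, and_true]
    have := hfq.1
    rcases hf.1 with h3 | h3 <;> rcases hqv.1 with h4 | h4
    · omega
    · right; left; omega
    · left; omega
    · omega
  by_cases hgQ : g ∈ Q
  · exact (key f g hfQ hgQ hgv hgf).1
  · have h2 := (key g q hgQ hq hqv hgq).1
    have hfP : f ∈ P := by
      refine N.hfar (s := s) (by omega) q hq ?_ f ?_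
      · intro h
        exact hfar q hqv (by unfold LC.InB at h ⊢; omega)
      · unfold IsCor at hf hqv
        unfold LC.InB
        omega
    exact Relation.ReflTransGen.tail h2 ⟨by
      obtain ⟨h3, a', h4, h5⟩ := hgf
      exact ⟨fun h => h3 h.symm, a', h5, h4⟩, hPF hfP, hfQ⟩

variable {V : Finset (ℤ × ℤ)} {q : Rule.Ndl} {T : ℕ}

theorem gT_true {T : Set Ed} {f : ℤ × ℤ} : (gT T f = !parD 0 f) ↔ eE f ∈ T := by
  have h : (eE f).2.2 = parD 0 f := by
    unfold eE parD
    split_ifs with h <;> simp [h]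
  rw [← h]
  exact gT_eE T f

/-- **A passage without visit of the component of `z`**, from the time `u` at which the strand is in the
box of radius `ρ` around `b`, touches the walls of one colour only. `y`: the base face of the clearance
needle, `b`: any centre near `y`. -/
theorem one_of_pass (N : Ndl P (QF q.1) y a z r l c d) (hPF : P ⊆ FU V) (hds : d ≤ s) (hsr : s < r)
    (ht : 2 * s + c + 2 ≤ t) (hb : LC.InB y k b) (hρ : t + 2 + k ≤ ρ) {u : ℕ} (huT : u ≤ T)
    (h0 : InB b ρ (pS V q ω u))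
    (hG : ∀ l, u ≤ l → l < T → fa (pS V q ω l) ∉ compT (FU V \ QF q.1) z)
    (hR : ¬ InB b R (pS V q ω T)) (hr : ρ + 3 ≤ R) : (exS V q).OneWall 0 ω 0 b (ρ + 4) R := by
  refine one_of_far_from (Or.inl rfl) (Nat.zero_le u) huT (Q := QF q.1)
    (G := compT (FU V \ QF q.1) z) ?_ ?_ ?_ h0 hG hR hr
  · intro f hf h
    have hfU : f ∉ FU V \ QF q.1 := by
      intro h1
      refine hf ⟨h1, ?_⟩
      rintro ⟨-, h2⟩
      have h3 : (exS V q).v ω 0 0 = ∅ := vs_self
      rw [h3] at h2
      simp at h2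
    have h1 : (exS V q).cf ω f = gT (q.1 : Set Ed) f := mix_of_notMem hfU
    rw [h1, gT_true] at h
    exact h
  · intro f hf
    have h1 : (exS V q).cf ω f = gT (q.1 : Set Ed) f := mix_of_notMem fun h => h.2 hf
    rw [h1, gT_true]
    exact hf
  · rintro v - hv ⟨q', hq', hqv⟩ f hf
    refine ndl_faces N hPF hds hsr ht hq' hqv ?_ hf
    intro h
    apply hv
    unfold LC.InB at h hb
    unfold InR
    omega

/-- **Start of a step**: a passage before the first visit of the component of `z` touches the walls of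
one colour only. -/
theorem one_of_start (N : Ndl P (QF q.1) y a z r l c d) (hPF : P ⊆ FU V) (hds : d ≤ s) (hsr : s < r)
    (ht : 2 * s + c + 2 ≤ t) (hb : LC.InB y k b) (hρ : t + 2 + k ≤ ρ)
    (h0 : InB b ρ (eS V q)) (hG : ∀ l < T, fa (pS V q ω l) ∉ compT (FU V \ QF q.1) z)
    (hR : ¬ InB b R (pS V q ω T)) (hr : ρ + 3 ≤ R) : (exS V q).OneWall 0 ω 0 b (ρ + 4) R :=
  one_of_pass N hPF hds hsr ht hb hρ (Nat.zero_le T) h0 (fun l _ h => hG l h) hR hr

/-- The base is in the box of every radius around its lower left end. -/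
theorem inB_self {a : UE} (hρ : 0 ≤ ρ) : InB (ua a) ρ a := by
  unfold InB InR
  omega

/-- **The first stage of a needle**: until the first visit of the component of the target `h` the strand
is near the base. -/
theorem ini_near (N : Ndl P (QF q.1) y a z r l c d) (hPF : P ⊆ FU V) (hds : d ≤ s) (hsr : s < r)
    (ht : 2 * s + c + 2 ≤ t) (hb : LC.InB y k (ua (eS V q))) (hk : 0 ≤ k) (hρ : t + 2 + k ≤ ρ)
    (hr : ρ + 3 ≤ R) {h : ℤ × ℤ} (hh : h ∈ compT (FU V \ QF q.1) z)
    (hG : ∀ l < T, fa (pS V q ω l) ∉ compT (FU V \ QF q.1) h)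
    (hO : ¬ (exS V q).OneWall 0 ω 0 (ua (eS V q)) (ρ + 4) R) :
    ∀ t ≤ T, InB (ua (eS V q)) R (pS V q ω t) := by
  intro t' ht'
  by_contra hR
  have h1 := N.box z (by
    have := N.len
    have := N.l0
    have := N.d0
    unfold LC.InB
    omega)
  have h2 : z ∉ QF q.1 := by
    intro hz
    have h3 := N.size z hz
    have h4 := N.len
    have h5 := N.y_far
    have h6 := N.d0
    unfold LC.InB at *
    omega
  have hz : z ∈ FU V \ QF q.1 := ⟨hPF h1, h2⟩
  refine hO (one_of_start N hPF hds hsr ht hb hρ (inB_self (by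
    have := N.c0
    have := N.d0
    omega)) (fun l hl hm => ?_) hR hr)
  exact hG l (by omega) ((ChI.symm hz hh).trans hm)

/-- **Stage `ini`**, in the names of the chain. -/
theorem disp_ini {n u : ℕ} {B : UE × Bool} (N : Ndl P (QF q.1) y a z r l c d) (hPF : P ⊆ FU V)
    (hds : d ≤ s) (hsr : s < r) (ht : 2 * s + c + 2 ≤ t) (hb : LC.InB y k (ua (eS V q)))
    (hk : 0 ≤ k) (hρ : t + 2 + k ≤ ρ) (hr : ρ + 3 ≤ R)
    (hB : Perc.Tips.ahead (Blow.subE u B 0) ∈ compT (FU V \ QF q.1) z)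
    (hO : ¬ (exS V q).OneWall 0 ω 0 (ua (eS V q)) (ρ + 4) R) :
    ∀ t ≤ staT n u V q B ω, InB (ua (eS V q)) R (pS V q ω t) := by
  refine ini_near N hPF hds hsr ht hb hk hρ hr hB (fun l hl => ?_) hO
  exact not_of_lt_hit (P := fun t => fa (pS V q ω t) ∈ compT (FU V \ QF q.1)
    (Perc.Tips.ahead (Blow.subE u B 0))) hl

end start

end Pool.Agent.SixB.Dsp
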