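import Pool.Agent.Lib.SixB.S8ChainL
import Pool.Agent.Lib.SixB.S8KerBad

/-!
# Step 8: the strand of a state is periodic with a period `≤ tmx n`

* `exists_period`: the strand of an admissible needle repeats after at most `4 (n + 1) ^ 2` steps;
* `lt_tmx`: the first time with a property of the unit edge is less than `tmx n`;
* `StopR.lt_tmx`, `StopE.lt_tmx`: the times of the stops.
-/

set_option autoImplicit false

namespace Pool.Agent.SixB.Tru

open Finset Pool.Agent.Perc Pool.Agent.PercT Pool.Agent.PercX60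
open Pool.Agent.MP_6bd702.H23 (Ed ea eb)
open Pool.Agent.PercU (vtx nxt nxtE Cor)
open Pool.Agent.SixB Pool.Agent.SixB.Rule Pool.Agent.SixB.Dct Pool.Agent.SixB.Mv

variable {n h : ℕ} {V : Finset (ℤ × ℤ)} {q : Rule.Ndl} {ω : Cfg}

/-- The cluster of the needle is in the remaining set. -/
theorem clV_cfQ_sub {T : Finset Edg} (hq : IsNdl h V q) : clV (cfQ T V q) q.2 ⊆ V := by
  have hends : ∀ e ∈ cfQ T V q, tl e ∈ V ∧ hd e ∈ V := by
    intro e he
    unfold cfQ rst at he
    rcases Finset.mem_union.1 he with h1 | h1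
    · exact (Finset.mem_filter.1 h1).2
    · exact hq.ends e h1
  have h0 : q.2 ∈ V := by
    have h1 := hq.base
    unfold qV at h1
    rcases Finset.mem_union.1 h1 with h2 | h2
    · obtain ⟨e, he, h3⟩ := Finset.mem_image.1 h2
      exact h3 ▸ (hq.ends e he).1
    · obtain ⟨e, he, h3⟩ := Finset.mem_image.1 h2
      exact h3 ▸ (hq.ends e he).2
  intro v hv
  change Relation.ReflTransGen _ _ _ at hv
  induction hv with
  | refl => exact h0
  | tail _ hst _ =>
    obtain ⟨e, he, h1 | h1⟩ := hst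
    · rw [← h1.2]
      exact (hends e he).2
    · rw [← h1.1]
      exact (hends e he).1

/-- The number of corners at the vertices of the box. -/
theorem card_box (n : ℕ) : (Box n).card = (n + 1) ^ 2 := by
  unfold Box
  rw [Finset.card_product, Int.card_Icc]
  simp [sq]

/-- **The strand is periodic** with a period at most `tmx n`. -/
theorem exists_period (hV : V ⊆ Box n) (hq : IsNdl h V q) (hk : ∃ k, NdF V q.1 k ∧ vtx k = q.2) :
    ∃ N, 0 < N ∧ N ≤ tmx n ∧ ∀ t, pS V q ω (t + N) = pS V q ω t := by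
  classical
  set T := cfgE n ω with hT
  set k : ℕ → Cor := fun t => (nxt ((cfQ T V q : Finset Edg) : Set Ed))^[t] (bc V q.1 q.2) with hkd
  let F : Finset Cor := (Box n ×ˢ (univ : Finset (Bool × Bool))).image
    fun x => (x.1.1, x.1.2, x.2.1, x.2.2)
  have hF : F.card ≤ tmx n := by
    refine Finset.card_image_le.trans ?_
    rw [Finset.card_product, card_box]
    simp [tmx, Fintype.card_prod, mul_comm]
  have hmem : ∀ t, k t ∈ F := by
    intro t
    have h1 : vtx (k t) ∈ clV (cfQ T V q) q.2 := Out.vtx_mem (bc_mem hk) t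
    have h2 := hV (clV_cfQ_sub hq h1)
    exact Finset.mem_image.2 ⟨(vtx (k t), (k t).2.2), Finset.mem_product.2 ⟨h2, mem_univ _⟩, rfl⟩
  obtain ⟨i, hi, j, hj, hij, he⟩ := Finset.exists_ne_map_eq_of_card_lt_of_maps_to
    (s := Finset.range (tmx n + 1)) (t := F) (f := k) (by rw [Finset.card_range]; omega)
    fun t _ => hmem t
  have key : ∀ i j, i < j → k i = k j → ∀ t, k (t + (j - i)) = k t := by
    intro i j hlt he t
    have hinj : Function.Injective (nxt ((cfQ T V q : Finset Edg) : Set Ed)) :=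
      (nxtE _).injective
    have h1 : (nxt ((cfQ T V q : Finset Edg) : Set Ed))^[i] (k (j - i)) =
        (nxt ((cfQ T V q : Finset Edg) : Set Ed))^[i] (k 0) := by
      rw [hkd]
      simp only
      rw [← Function.iterate_add_apply, ← Function.iterate_add_apply]
      rw [show i + (j - i) = j by omega, Nat.add_zero]
      exact he.symm
    have h2 := hinj.iterate i h1
    rw [hkd]
    simp only
    rw [Function.iterate_add_apply]
    exact congrArg _ h2
  have hpS : ∀ t, pS V q ω t = kU (k t) := fun t => pS_strd hV t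
  rw [Finset.mem_range] at hi hj
  rcases lt_or_gt_of_ne hij with h1 | h1
  · exact ⟨j - i, by omega, by omega, fun t => by rw [hpS, hpS, key i j h1 he t]⟩
  · exact ⟨i - j, by omega, by omega, fun t => by rw [hpS, hpS, key j i h1 he.symm t]⟩

/-- **The first time** with a property of the unit edge is less than `tmx n`. -/
theorem lt_tmx (hV : V ⊆ Box n) (hq : IsNdl h V q) (hk : ∃ k, NdF V q.1 k ∧ vtx k = q.2)
    {P : UE → Prop} {s σ : ℕ} (h1 : ∀ i < σ, ¬ P (pS V q ω (s + i))) (h2 : P (pS V q ω (s + σ))) :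
    σ < tmx n := by
  obtain ⟨N, hN, hNt, hp⟩ := exists_period (ω := ω) hV hq hk
  by_contra hno
  push Not at hno
  refine h1 (σ - N) (by omega) ?_
  rw [← hp (s + (σ - N)), show s + (σ - N) + N = s + σ by omega]
  exact h2

/-- The strand of a state is periodic at every time. -/
theorem exists_period_pth (hV : V ⊆ Box n) (hq : IsNdl h V q)
    (hk : ∃ k, NdF V q.1 k ∧ vtx k = q.2) (s : ℕ) :
    ∃ N, 0 < N ∧ N ≤ tmx n ∧ pth (cfS V q ω) (pS V q ω s) N = pS V q ω s := by
  obtain ⟨N, hN, hNt, hp⟩ := exists_period (ω := ω) hV hq hk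
  refine ⟨N, hN, hNt, ?_⟩
  have h1 : pth (cfS V q ω) (pS V q ω s) N = pS V q ω (s + N) := by
    unfold pS
    rw [pth_add]
  rw [h1, hp s]

section Stop

variable {U T₀ Z Zp : Set (ℤ × ℤ)} {Es : Set UE} {s σ : ℕ}

/-- The time of the first entrance of `Zp`. -/
theorem ent_lt_tmx (hV : V ⊆ Box n) (hq : IsNdl h V q) (hk : ∃ k, NdF V q.1 k ∧ vtx k = q.2)
    (h1 : ∀ i < σ, fa (pth (cfS V q ω) (pS V q ω s) i) ∉ Zp)
    (h2 : fa (pth (cfS V q ω) (pS V q ω s) σ) ∈ Zp) : σ < tmx n := by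
  have e : ∀ i, pth (cfS V q ω) (pS V q ω s) i = pS V q ω (s + i) := fun i => by
    unfold pS
    rw [pth_add]
  refine lt_tmx (ω := ω) (P := fun e => fa e ∈ Zp) (s := s) hV hq hk (fun i hi => ?_) ?_
  · rw [← e i]
    exact h1 i hi
  · rw [← e σ]
    exact h2

/-- The time of a regular stop. -/
theorem _root_.Pool.Agent.SixB.StopR.lt_tmx (hV : V ⊆ Box n) (hq : IsNdl h V q)
    (hk : ∃ k, NdF V q.1 k ∧ vtx k = q.2)
    (hS : StopR (pS V q ω s) U T₀ Z Es (cfS V q ω) σ) (hZU : Z ⊆ U) (hZ₀ : ∀ g ∈ Z, g ∉ T₀) :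
    σ < tmx n := ent_lt_tmx hV hq hk (hS.notMem hZU hZ₀) hS.mem

/-- The time of a stop at a stop side. -/
theorem _root_.Pool.Agent.SixB.StopE.exists_lt_tmx (hV : V ⊆ Box n) (hq : IsNdl h V q)
    (hk : ∃ k, NdF V q.1 k ∧ vtx k = q.2) (hS : StopE (pS V q ω s) Zp Es (cfS V q ω)) :
    ∃ σ < tmx n, (∀ i < σ, fa (pth (cfS V q ω) (pS V q ω s) i) ∉ Zp) ∧
      fa (pth (cfS V q ω) (pS V q ω s) σ) ∈ Zp ∧ pth (cfS V q ω) (pS V q ω s) σ ∈ Es := by
  obtain ⟨σ, h1, h2, h3⟩ := hS
  exact ⟨σ, ent_lt_tmx hV hq hk h1 h2, h1, h2, h3⟩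

end Stop

end Pool.Agent.SixB.Tru
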