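import Pool.Agent.Lib.SixB.S8InvD
import Pool.Agent.Lib.SixB.S8StartW
import Pool.Agent.Lib.SixB.S8TimeB
import Pool.Agent.Lib.SixB.S8ChainA
import Pool.Agent.Lib.SixB.S8StartTgt0

/-!
# Step 8, unit 8H: the state at the entrance of the strand

* `nxS_enter`: the entrance stage of the chain.
* `uS_eq`: the true domain of a state is the component `T` of the fresh faces if the strand is in `T` now
  and was not in `T` before.
* `EntS`: the state at the entrance with the contour data `Start`: the tip side, the true domain, the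
  data `TSt` and `TrueD` for all `ξ`. `entS`: the state after the entrance stage.
* `exists_start_stH`, `exists_start_stH0`: the contour data from the geometry of the needle.
-/

set_option autoImplicit false

namespace Pool.Agent.SixB.Tru.Sx

open Finset Pool.Agent.Perc Pool.Agent.Perc6 Pool.Agent.PercT Pool.Agent.Perc6.C2Aux
open Pool.Agent.PercU (vtx)
open Pool.Agent.SixB Pool.Agent.SixB.Rule Pool.Agent.SixB.Dct Pool.Agent.SixB.Mv
open Pool.Agent.SixB.Blow (subE)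
open Pool.Agent.SixB.Top
open Pool.Agent.SixB.StW (Start Froz froz_mix)
open Pool.Agent.SixB.StartA (VQ)
open Pool.Agent.Perc.Tips (ahead rv)

/-! ### The entrance stage -/

section Stage

variable {𝔇 : Dat} {d : ℕ → ℕ} {n : ℕ} {s : TS} {q : Rule.Ndl} {D : Dom} {ω : Cfg}

/-- The coarse state after the entrance stage. -/
theorem cs_enter {x : List Rec} (hD : (𝔇.cs d x).run = some D) (hi : (𝔇.cs d x).ini = true)
    (ρ : Rec) : 𝔇.cs d (ρ :: x) = ⟨(𝔇.cs d x).W, some D, (𝔇.cs d x).j, false⟩ := by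
  rw [𝔇.cs_cons]
  exact mv_enter hD hi

/-- **The entrance stage.** -/
theorem nxS_enter (hq : s.q = some q) (hD : (𝔇.cs d s.x).run = some D)
    (hi : (𝔇.cs d s.x).ini = true) : nxS 𝔇 d n s ω =
      ⟨s.V, some q, staT n (unt d n) s.V q D.B ω, (∅, 0) :: s.x⟩ := by
  have h1 : mvT 𝔇 d n s q D (𝔇.cs d s.x).ini ω = staT n (unt d n) s.V q D.B ω := by
    unfold mvT
    rw [if_pos hi]
  have h2 : mvR 𝔇 d n s q D (𝔇.cs d s.x).ini ω = (∅, 0) := by
    unfold mvR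
    rw [if_pos (Or.inl hi)]
  rw [nxS_run_eq hq hD, h1, h2]
  exact finS_run (D := D) (by rw [cs_enter hD hi])

end Stage

/-! ### The true domain -/

section Dom

variable {n h : ℕ} {V : Finset (ℤ × ℤ)} {q : Rule.Ndl} {s : TS} {ω : Cfg} {f₀ : ℤ × ℤ}

/-- The directed edge of a canonical side. -/
theorem dirE_eq {S : UE × Bool} (hS : fa S.1 = ahead S) : dirE S.1 = S := by
  have h1 : ahead (dirE S.1) = ahead S := by rw [ahead_dirE, hS]
  obtain ⟨e, b⟩ := S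
  obtain ⟨c, hc⟩ : ∃ c, dirE e = (e, c) := ⟨_, rfl⟩
  simp only at h1 ⊢
  rw [hc] at h1 ⊢
  have hne := ahead_ne (e, b)
  have hrv : rv (e, b) = (e, !b) := rfl
  rw [hrv] at hne
  cases b <;> cases c <;> simp_all

/-- The fresh faces off the needle are not changed by the past outside of the visited ones. -/
theorem Xi_eq (hq : s.q = some q) {f : ℤ × ℤ} (hf : f ∈ frS s q ω) (ξ : Cfg) :
    Xi s q ω ξ f = ξ f := by
  unfold Xi cfS
  rw [mix_of_mem hf.1]
  refine mix_of_notMem ?_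
  rw [expS_someL hq]
  rintro (h1 | h1)
  · exact h1 hf.1.1
  · exact hf.2 h1.2

/-- The configurations of the future are even on the needle and odd on the old faces. -/
theorem froz_Xi (hQ : QF q.1 ⊆ FU s.V) (ξ : Cfg) : Froz (FU s.V) (QF q.1) (Xi s q ω ξ) :=
  froz_mix hQ _

/-- **The true domain** of a state is the component of the fresh faces which the strand enters now for
the first time. -/
theorem uS_eq (hf₀ : f₀ ∈ FU s.V \ QF q.1)
    (h1 : ∀ i < s.t, fa (pS s.V q ω i) ∉ compT (FU s.V \ QF q.1) f₀)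
    (h2 : fa (pS s.V q ω s.t) ∈ compT (FU s.V \ QF q.1) f₀) :
    uS s q ω = compT (FU s.V \ QF q.1) f₀ := by
  set F := FU s.V \ QF q.1 with hF
  set p := fa (pS s.V q ω s.t) with hp
  have hvis : ∀ g ∈ compT F f₀, g ∉ (vS s.V q ω 0 s.t : Set (ℤ × ℤ)) := by
    intro g hg hv
    obtain ⟨i, -, hi, rfl⟩ := mem_vs.1 (Finset.mem_coe.1 hv)
    exact h1 i hi hg
  have hsub : frS s q ω ⊆ F := fun g hg => hg.1
  have e : compT F p = compT F f₀ := compT_eq hf₀ h2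
  change compT (frS s q ω) p = _
  rw [← e]
  refine Set.Subset.antisymm (compT_mono hsub) fun g hg => ?_
  change ChI F p g at hg
  have key : g ∈ compT F f₀ ∧ ChI (frS s q ω) p g := by
    induction hg with
    | refl => exact ⟨h2, ChI.refl _⟩
    | @tail a b _ hs ih =>
      have h3 := compT_step ih.1 hs.1 hs.2
      have h4 : b ∈ frS s q ω := ⟨hs.2, hvis _ h3⟩
      exact ⟨h3, ih.2.tail ⟨hs.1, h4⟩⟩
  exact key.2

/-- The time of the entrance stage. -/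
theorem staT_eq (hV : V ⊆ Box n) (hq : IsNdl h V q) (hk : ∃ k, NdF V q.1 k ∧ vtx k = q.2)
    (hf₀ : f₀ ∈ FU V \ QF q.1) {B : UE × Bool} {u t : ℕ}
    (hb : ahead (subE u B 0) ∈ compT (FU V \ QF q.1) f₀)
    (h1 : ∀ i < t, fa (pS V q ω i) ∉ compT (FU V \ QF q.1) f₀)
    (h2 : fa (pS V q ω t) ∈ compT (FU V \ QF q.1) f₀) : staT n u V q B ω = t := by
  unfold staT
  rw [compT_eq hf₀ hb]
  refine hit_eq h2 (lt_tmx (ω := ω) (P := fun e => fa e ∈ compT (FU V \ QF q.1) f₀) (s := 0)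
    hV hq hk (fun i hi => ?_) ?_).le h1
  · rw [Nat.zero_add]
    exact h1 i hi
  · rw [Nat.zero_add]
    exact h2

/-- The true data from the contour at the start, for a domain whose faces are not changed. -/
theorem trueD_of {W Q U : Set (ℤ × ℤ)} {S : UE × Bool} {m k x : ℕ} (hS : Start W Q U S m k x)
    (hWf : W.Finite) (eW : Esc W) (cQ : Top.EConn Q) {Ξ : Cfg → Cfg}
    (hΞ : ∀ ξ, Froz W Q (Ξ ξ)) (agr : ∀ ξ, ∀ f ∈ U, Ξ ξ f = ξ f) :
    TrueD Ξ 0 Set.univ U S m x x where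
  cyc := hS.cyc
  ktm := hS.lt.le
  lt := hS.lt
  tgt := Or.inl ⟨rfl, hS.px⟩
  hR := StW.hasPot_univ
  UR := Set.subset_univ _
  hc := Or.inl rfl
  hpt := hS.par
  hfa := StU.fa_can hS.par
  hfb := StU.fb_can hS.par
  agr := agr
  walls := fun ξ => hS.walls hWf eW cQ (hΞ ξ)
  solid := ⟨0, Or.inl rfl, hWf.toFinset, fun ξ g hg =>
    (hΞ ξ).od g fun hh => hg (hWf.mem_toFinset.2 hh)⟩

end Dom

/-! ### The state at the entrance -/

/-- The state `s` at the entrance of the component `T` of the fresh faces, with the tip side `S`, the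
length `m` of the contour and the number `x` of the target side. -/
structure EntS (s : TS) (q : Rule.Ndl) (ω : Cfg) (T : Set (ℤ × ℤ)) (S : UE × Bool) (m x : ℕ) :
    Prop where
  tip : pS s.V q ω s.t = S.1
  old : ∀ i < s.t, fa (pS s.V q ω i) ∉ T
  fre : fa (pS s.V q ω s.t) ∈ frS s q ω
  dom : uS s q ω = T
  dir : tS s q ω = S
  froz : ∀ ξ, Froz (FU s.V) (QF q.1) (Xi s q ω ξ)
  agr : ∀ ξ, ∀ f ∈ uS s q ω, Xi s q ω ξ f = ξ f
  tst : ∀ ξ, TSt (Xi s q ω ξ) Set.univ (uS s q ω) (tS s q ω) m x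
  tru : TrueD (Xi s q ω) 0 Set.univ (uS s q ω) (tS s q ω) m x x

section Ent

variable {n h : ℕ} {T : Finset Edg} {V : Finset (ℤ × ℤ)} {q : Rule.Ndl} {s : TS} {ω : Cfg}
  {f₀ q₀ : ℤ × ℤ} {S : UE × Bool} {m k x : ℕ}

/-- The strand of the needle enters `compT (FU V \ QF q.1) f₀` through the tip side `S` for the first
time. -/
theorem first_time (hI : Rule.Inv n T V) (hk : ∃ k, NdF V q.1 k ∧ vtx k = q.2)
    (cQ : Top.EConn (QF q.1)) (hq₀ : q₀ ∈ QF q.1)
    (hS : Start (FU V) (QF q.1) (compT (FU V \ QF q.1) f₀) S m k x) (ω : Cfg) :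
    ∃ t, pS V q ω t = S.1 ∧ (∀ i < t, fa (pS V q ω i) ∉ compT (FU V \ QF q.1) f₀) ∧
      fa (pS V q ω t) ∈ compT (FU V \ QF q.1) f₀ := by
  obtain ⟨hN, -⟩ := bc_spec hk
  obtain ⟨q₁, hq₁, -, hcor⟩ := StW.exists_first hN ⟨q₀, hq₀⟩
  have hb : fb (kU (bc V q.1 q.2)) ∉ FU V := by rw [fb_kU]; exact hN.f₀_notMem
  obtain ⟨N, t, t', -, -, -, -, h1, h2, -, -⟩ := hS.strand (finite_FU hI.sub) (esc_FU hI) cQ
    (froz_mix hN.QF_sub ω) hb ⟨q₁, hq₁, hcor⟩
  have h1' : pS V q ω t = S.1 := h1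
  refine ⟨t, h1', h2, ?_⟩
  rw [h1', StU.fa_can hS.par]
  exact hS.cyc.bd.1

/-- **The state at the entrance.** -/
theorem entS_of (hI : Rule.Inv n T s.V) (hk : ∃ k, NdF s.V q.1 k ∧ vtx k = q.2)
    (cQ : Top.EConn (QF q.1)) (hf₀ : f₀ ∈ FU s.V \ QF q.1)
    (hS : Start (FU s.V) (QF q.1) (compT (FU s.V \ QF q.1) f₀) S m k x) (hq : s.q = some q)
    (h1 : pS s.V q ω s.t = S.1)
    (h2 : ∀ i < s.t, fa (pS s.V q ω i) ∉ compT (FU s.V \ QF q.1) f₀) :
    EntS s q ω (compT (FU s.V \ QF q.1) f₀) S m x := by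
  have hN := (bc_spec hk).1
  have h3 : fa (pS s.V q ω s.t) ∈ compT (FU s.V \ QF q.1) f₀ := by
    rw [h1, StU.fa_can hS.par]
    exact hS.cyc.bd.1
  have hdom := uS_eq hf₀ h2 h3
  have hdir : tS s q ω = S := by
    unfold tS
    rw [h1]
    exact dirE_eq (StU.fa_can hS.par)
  have hfr : ∀ ξ, Froz (FU s.V) (QF q.1) (Xi s q ω ξ) := fun ξ => froz_Xi hN.QF_sub ξ
  have hp : fa (pS s.V q ω s.t) ∈ frS s q ω := by
    refine ⟨compT_sub hf₀ h3, fun hv => ?_⟩
    obtain ⟨i, -, hi, he⟩ := mem_vs.1 (Finset.mem_coe.1 hv)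
    refine h2 i hi ?_
    have he' : fa (pS s.V q ω s.t) = fa (pS s.V q ω i) := he
    rw [← he']
    exact h3
  have hin : ∀ f ∈ uS s q ω, f ∈ frS s q ω := fun f hf => compT_sub hp hf
  have hagr : ∀ ξ, ∀ f ∈ uS s q ω, Xi s q ω ξ f = ξ f := fun ξ f hf => Xi_eq hq (hin f hf) ξ
  refine ⟨h1, h2, hp, hdom, hdir, hfr, hagr, fun ξ => ?_, ?_⟩
  · rw [hdom, hdir]
    exact hS.tst (finite_FU hI.sub) (esc_FU hI) cQ (hfr ξ)
  · rw [hdom] at hagr ⊢
    rw [hdir]
    exact trueD_of hS (finite_FU hI.sub) (esc_FU hI) cQ hfr hagr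

/-- **The state with the time `staT`.** -/
theorem entS_staT (hI : Rule.Inv n T V) (hq : IsNdl h V q) (hk : ∃ k, NdF V q.1 k ∧ vtx k = q.2)
    (cQ : Top.EConn (QF q.1)) (hq₀ : q₀ ∈ QF q.1) (hf₀ : f₀ ∈ FU V \ QF q.1)
    (hS : Start (FU V) (QF q.1) (compT (FU V \ QF q.1) f₀) S m k x) {B : UE × Bool} {u : ℕ}
    (hb : ahead (subE u B 0) ∈ compT (FU V \ QF q.1) f₀) (X : List Rec) (ω : Cfg) :
    EntS ⟨V, some q, staT n u V q B ω, X⟩ q ω (compT (FU V \ QF q.1) f₀) S m x := by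
  obtain ⟨t, h1, h2, h3⟩ := first_time hI hk cQ hq₀ hS ω
  have ht : staT n u V q B ω = t := staT_eq hI.sub hq hk hf₀ hb h2 h3
  refine entS_of (n := n) (T := T) hI hk cQ hf₀ hS rfl ?_ ?_
  · change pS V q ω (staT n u V q B ω) = S.1
    rw [ht]
    exact h1
  · change ∀ i < staT n u V q B ω, _
    rw [ht]
    exact h2

/-- **The state after the entrance stage.** -/
theorem entS_nxS {𝔇 : Dat} {d : ℕ → ℕ} {D : Dom} (hI : Rule.Inv n T s.V) (hN : IsNdl h s.V q)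
    (hk : ∃ k, NdF s.V q.1 k ∧ vtx k = q.2) (cQ : Top.EConn (QF q.1)) (hq₀ : q₀ ∈ QF q.1)
    (hf₀ : f₀ ∈ FU s.V \ QF q.1)
    (hS : Start (FU s.V) (QF q.1) (compT (FU s.V \ QF q.1) f₀) S m k x)
    (hb : ahead (subE (unt d n) D.B 0) ∈ compT (FU s.V \ QF q.1) f₀) (hq : s.q = some q)
    (hD : (𝔇.cs d s.x).run = some D) (hi : (𝔇.cs d s.x).ini = true) (ω : Cfg) :
    EntS (nxS 𝔇 d n s ω) q ω (compT (FU s.V \ QF q.1) f₀) S m x := by
  rw [nxS_enter hq hD hi]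
  exact entS_staT hI hN hk cQ hq₀ hf₀ hS hb _ ω

end Ent

/-! ### The contour data from the geometry of the needle -/

section Geo

variable {W U P Q : Set (ℤ × ℤ)} {γ : ℤ × ℤ → ℤ × ℤ} {f₀ q₀ g₀ y : ℤ × ℤ} {β βU D : UE × Bool}
  {m₁ m₂ : ℤ}

/-- A common side of the component `U` of `W` and of `T` is an old side. -/
theorem old_side {e : UE × Bool} (he : BD (compT W q₀) e) : ahead (rv e) ∉ W :=
  fun hW => he.2 (compT_step he.1 (adjF_ahead e).symm hW)

/-- The needle is connected. -/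
theorem econn_stH (h : StartA.StH U P Q γ f₀ y β βU D m₁ m₂) : Top.EConn Q := by
  have key : ∀ q ∈ Q, ChI Q q (ahead β) := by
    intro q hq
    by_cases hqP : q ∈ P
    · exact ChI.mono (S := Q ∩ P) (fun _ hz => hz.1) (h.inn q hq hqP)
    · have h1 : ChI Q (ahead (rv β)) q := ChI.mono (S := Q \ P) (fun _ hz => hz.1) (h.out q hq hqP)
      exact (ChI.symm h.BQ' h1).tail ⟨adjF_ahead β, h.BQ⟩
  exact fun f hf g hg => (key f hf).trans (ChI.symm hg (key g hg))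

theorem econn_stH0 (h : StartA.StH0 U P Q γ f₀ y β D m₁ m₂) : Top.EConn Q := by
  have key : ∀ q ∈ Q, ChI Q q (ahead β) := fun q hq =>
    ChI.mono (S := Q ∩ P) (fun _ hz => hz.1) (h.inn q hq (h.QP hq))
  exact fun f hf g hg => (key f hf).trans (ChI.symm hg (key g hg))

/-- The coarse domain at the start is in the true domain. -/
theorem sub_stH (hq : q₀ ∈ W) (h : StartA.StH (compT W q₀) P Q γ f₀ y β βU D m₁ m₂) :
    compT (P \ VQ P Q γ) f₀ ⊆ compT (W \ Q) f₀ := by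
  rw [← StW.compT_diff_eq hq (h.subQ h.f0).1]
  exact compT_mono h.subQ

theorem sub_stH0 (hq : q₀ ∈ W) (h : StartA.StH0 (compT W q₀) P Q γ f₀ y β D m₁ m₂) :
    compT (P \ VQ P Q γ) f₀ ⊆ compT (W \ Q) f₀ := by
  rw [← StW.compT_diff_eq hq (h.subQ h.f0).1]
  exact compT_mono h.subQ

variable {n : ℕ} {T : Finset Edg} {V : Finset (ℤ × ℤ)} {q : Rule.Ndl}

/-- **The contour data** if the component of the needle and the true domain have a common side. -/
theorem exists_start_V (hI : Rule.Inv n T V) (hk : ∃ k, NdF V q.1 k ∧ vtx k = q.2)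
    (cQ : Top.EConn (QF q.1)) (hq₀ : q₀ ∈ QF q.1) (hf₀ : f₀ ∈ compT (FU V) q₀ \ QF q.1)
    (he : ∃ e, BD (compT (FU V) q₀) e ∧ BD (compT (compT (FU V) q₀ \ QF q.1) f₀) e) :
    ∃ S m k x, Start (FU V) (QF q.1) (compT (FU V \ QF q.1) f₀) S m k x := by
  obtain ⟨hN, -⟩ := bc_spec hk
  obtain ⟨e, he1, he2⟩ := he
  have hqW := hN.QF_sub hq₀
  have eq := StW.compT_diff_eq (Q := QF q.1) hqW hf₀.1
  rw [eq] at he2
  obtain ⟨S, m, k, x, h, -⟩ := StW.start_scan hI hN cQ ⟨compT_sub hqW hf₀.1, hf₀.2⟩ hq₀ hf₀.1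
    ⟨e, he2, old_side he1⟩
  exact ⟨S, m, k, x, h⟩

/-- **The contour data from the geometry of the needle** with a hook. `U` is the component of the needle
in the fresh faces. -/
theorem exists_start_stH (hI : Rule.Inv n T V) (hk : ∃ k, NdF V q.1 k ∧ vtx k = q.2)
    (hq₀ : q₀ ∈ QF q.1)
    (h : StartA.StH (compT (FU V) q₀) P (QF q.1) γ f₀ y β βU D m₁ m₂) :
    ∃ S m k x, Start (FU V) (QF q.1) (compT (FU V \ QF q.1) f₀) S m k x := by
  obtain ⟨_, _, _, _, _, -, hs⟩ := h.relU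
  exact exists_start_V hI hk (econn_stH h) hq₀ (h.subQ h.f0) ⟨_, hs.bdB, hs.bdRB⟩

/-- **The contour data from the geometry of the needle** without a hook. -/
theorem exists_start_stH0 (hI : Rule.Inv n T V) (hk : ∃ k, NdF V q.1 k ∧ vtx k = q.2)
    (hq₀ : q₀ ∈ QF q.1)
    (h : StartA.StH0 (compT (FU V) q₀) P (QF q.1) γ f₀ y β D m₁ m₂) :
    ∃ S m k x, Start (FU V) (QF q.1) (compT (FU V \ QF q.1) f₀) S m k x := by
  obtain ⟨_, _, _, _, _, -, hs⟩ := h.relU
  exact exists_start_V hI hk (econn_stH0 h) hq₀ (h.subQ h.f0) ⟨_, hs.bdB, hs.bdRB⟩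

end Geo

end Pool.Agent.SixB.Tru.Sx
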