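import Pool.Agent.Lib.SixB.S8Par
import Pool.Agent.Lib.SixB.S8CountC
import Pool.Agent.Lib.SixB.S8GateZero
import Pool.Agent.Lib.SixB.S8ScanNext
import Pool.Agent.Lib.SixB.S8ScanEx

/-!
# Step 8: the side of a closed strand

`τ + 1` is the period of the strand: `Nb ω e τ` and `pth ω e (τ + 1) = e`.

* `loop_pot`: the set of all the crossed unit edges has a potential in the plane. It is constant along
  `Conn`, for both colours, and it has different values at the two ends of `e`.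
* `par_end`: the number of crossings of a walk between two vertices of the sides of the strand is the sum
  of the colours of the ends; no hypothesis on gates. `not_gate_end`: there is no gate.
* `kept_pot`: an unvisited fresh face is kept by the step of the scan iff the potential at its corners is
  the potential of the side of colour `1`.
* `side_kept`: if a walk from a vertex of `Sid c` to a corner of the unvisited fresh face `f` has `σ`
  crossings then `f` is kept iff `c = 1 ↔ σ = 0`. `side_kept_zero`: kept iff `c = 1` if `σ = 0`.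
* `removed`: both ends of an unvisited fresh face which is not kept are removed.
* `Scn`: the exploration of a step of the scan; `scn_exR`, `Scn.of_zeta`: instances.
* `closed_scan`: the strand of a step of the scan is closed.
-/

set_option autoImplicit false

namespace Pool.Agent.SixB.SideT

open Finset Pool.Agent.Perc Pool.Agent.PercT Pool.Agent.Perc6 Pool.Agent.PercX60
  Pool.Agent.SixB Pool.Agent.SixB.NearCut Pool.Agent.SixB.Par
open Pool.Agent.SixB.Dct Pool.Agent.SixB.GZ Pool.Agent.SixB.Rule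
open Pool.Agent.PercU (Cor vtx fce nxt nxtE qry qryb)
open Pool.Agent.PercO (tl_eq hd_eq Kc Tc Oc)
open Pool.Agent.MP_6bd702.H23 (Ed ea eb)

/-! ### Potential of a closed strand -/

section Loop

variable {ω : Cfg} {e a : UE} {τ t t' l : ℕ} {x y z p q f : ℤ × ℤ} {c r : ℤ} {Φ : ℤ × ℤ → ZMod 2}
  {M : Set UE}

theorem loop_even (hn : Nb ω e τ) (hτ : pth ω e (τ + 1) = e) (f : ℤ × ℤ) :
    EvenAt (Gs ω e 0 (τ + 1)) f := by
  rw [evenAt_iff, parAt_Gs hn (Nat.zero_le _) le_rfl, hτ, pth_zero, z2_add_self]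

theorem loop_mt (hτ : pth ω e (τ + 1) = e) (F : Set (ℤ × ℤ)) : MtInv ω F (Gs ω e 0 (τ + 1)) := by
  have key : ∀ g a a', Mt ω g a a' → a ∈ Gs ω e 0 (τ + 1) → a' ∈ Gs ω e 0 (τ + 1) := by
    rintro g a a' hm ⟨l, -, h2, rfl⟩
    rcases mt_iff.1 hm with ⟨h3, h4⟩ | ⟨h3, h4⟩
    · rw [← pth_succ] at h4
      rcases Nat.lt_or_ge (l + 1) (τ + 1) with h5 | h5
      · exact ⟨l + 1, by omega, h5, h4.symm⟩
      · have h6 : l + 1 = τ + 1 := by omega
        rw [h6, hτ] at h4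
        exact ⟨0, le_rfl, by omega, by rw [pth_zero, h4]⟩
    · rcases Nat.eq_zero_or_pos l with h5 | h5
      · subst h5
        rw [pth_zero] at h4
        rw [← hτ, pth_succ, pv_nx] at h4
        exact ⟨τ, by omega, by omega, h4.symm⟩
      · obtain ⟨k, rfl⟩ : ∃ k, l = k + 1 := ⟨l - 1, by omega⟩
        rw [pth_succ, pv_nx] at h4
        exact ⟨k, by omega, by omega, h4.symm⟩
  exact fun g _ a a' h => ⟨key g a a' h, key g a' a h.symm⟩

/-- **The potential of a closed strand.** -/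
theorem loop_pot (hn : Nb ω e τ) (hτ : pth ω e (τ + 1) = e) :
    ∃ Φ : ℤ × ℤ → ZMod 2, IsPot Set.univ (Gs ω e 0 (τ + 1)) Φ ∧
      (∀ F p q, Conn ω F p q → Φ p = Φ q) ∧ Φ (en 0 e) ≠ Φ (en 1 e) := by
  obtain ⟨Φ, hΦ⟩ := Cnt.hasPot_univ (Gs ω e 0 (τ + 1)) fun f _ => loop_even hn hτ f
  refine ⟨Φ, hΦ, fun F p q h => (loop_mt hτ Set.univ).conn hΦ (Conn.mono (Set.subset_univ _) h), ?_⟩
  have h1 : Joins e (en 0 e) (en 1 e) := by
    have := en_joins' (c := 0) (Or.inl rfl) e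
    simpa using this
  exact (hΦ.joins (Set.mem_univ _) (isSide_fa e) h1).1 ⟨0, le_rfl, by omega, pth_zero ω e⟩

theorem z2_cases (u v : ZMod 2) : u = v ∨ u = v + 1 := by
  revert u v
  decide

/-- The sum of the weights of a walk. -/
theorem wk_pot {Eg : Set UE} {χ : UE → ZMod 2} {σ : ZMod 2} (hΦ : IsPot Set.univ M Φ)
    (hχ : ∀ a, χ a = ind2 (a ∈ M)) (h : Par.Wk Eg χ x y σ) : σ = Φ x + Φ y := by
  induction h with
  | nil x => exact (z2_add_self _).symm
  | @cons x y z a s ha hj hw ih =>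
    have h1 : χ a = Φ x + Φ y := by
      rw [hχ]
      by_cases h2 : a ∈ M
      · have h3 := (hΦ.joins (Set.mem_univ _) (isSide_fa a) hj).1 h2
        rw [ind2_pos h2]
        generalize Φ x = u at h3
        generalize Φ y = v at h3
        revert h3
        revert u v
        decide
      · have h3 : Φ x = Φ y := by
          by_contra h4
          exact h2 ((hΦ.joins (Set.mem_univ _) (isSide_fa a) hj).2 h4)
        rw [ind2_neg h2, h3, z2_add_self]
    rw [h1, ih]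
    generalize Φ x = u
    generalize Φ y = v
    generalize Φ z = w
    revert u v w
    decide

theorem not_mem_loop (hτ : pth ω e (τ + 1) = e) (hf : ∀ l ≤ τ, fa (pth ω e l) ≠ f)
    (ha : IsSide f a) : a ∉ Gs ω e 0 (τ + 1) := by
  rintro ⟨l, -, h1, rfl⟩
  rcases isSide_iff.1 ha with h2 | h2
  · exact hf l (by omega) h2.symm
  · rcases Nat.eq_zero_or_pos l with h3 | h3
    · subst h3
      rw [pth_zero] at h2
      refine hf τ le_rfl ?_
      rw [← fb_pth_succ, hτ, h2]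
    · obtain ⟨k, rfl⟩ : ∃ k, l = k + 1 := ⟨l - 1, by omega⟩
      rw [fb_pth_succ] at h2
      exact hf k (by omega) h2.symm

end Loop

/-! ### The end of the strand of an exploration -/

section End

variable {E : Ex} {ω : Cfg} {τ t t' : ℕ} {x y z f : ℤ × ℤ} {c r : ℤ} {Φ : ℤ × ℤ → ZMod 2}
  {Eg : Set UE} {σ : ZMod 2}

theorem cr_eq_ind (E : Ex) (ω : Cfg) (τ : ℕ) (a : UE) :
    cr E ω τ a = ind2 (a ∈ Gs (E.cf ω) (E.e ω) 0 (τ + 1)) :=
  ind2_congr ⟨fun ⟨l, h1, h2⟩ => ⟨l, Nat.zero_le l, by omega, h2⟩,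
    fun ⟨l, _, h1, h2⟩ => ⟨l, by omega, h2⟩⟩

theorem sid_pot (hc : ∀ F p q, Conn (E.cf ω) F p q → Φ p = Φ q) (h : E.Sid c ω t x) :
    Φ x = Φ (en c (E.e ω)) := (hc _ _ _ h).symm

/-- The potential at the vertices of the sides. -/
theorem sd_pot (hc : ∀ F p q, Conn (E.cf ω) F p q → Φ p = Φ q)
    (hne : Φ (en 0 (E.e ω)) ≠ Φ (en 1 (E.e ω))) (hx : Sd E ω t x) (hy : Sd E ω t' y) :
    Φ x + Φ y = Par.cl x + Par.cl y := by
  have h1 := sid_pot hc hx.sid
  have h2 := sid_pot hc hy.sid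
  rw [h1, h2]
  have e0 : ind2 ((0 : ℤ) = 1) = 0 := ind2_neg (by decide)
  have e1 : ind2 ((1 : ℤ) = 1) = 1 := ind2_pos rfl
  unfold Par.cl
  rcases par01 x with h3 | h3 <;> rcases par01 y with h4 | h4 <;> rw [h3, h4]
  · rw [z2_add_self, z2_add_self]
  · rw [e0, e1]
    generalize Φ (en 0 (E.e ω)) = u at hne
    generalize Φ (en 1 (E.e ω)) = v at hne
    revert hne
    revert u v
    decide
  · rw [e0, e1]
    generalize Φ (en 0 (E.e ω)) = u at hne
    generalize Φ (en 1 (E.e ω)) = v at hne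
    revert hne
    revert u v
    decide
  · rw [z2_add_self, z2_add_self]

/-- **Parity at the end of the strand** (no hypothesis on gates). -/
theorem par_end (hn : Nb (E.cf ω) (E.e ω) τ) (hτ : E.p ω (τ + 1) = E.e ω)
    (h : Par.Wk Eg (cr E ω τ) x y σ) (hx : Sd E ω t x) (hy : Sd E ω t' y) : σ = Par.cl x + Par.cl y := by
  obtain ⟨Φ, hΦ, hc, hne⟩ := loop_pot hn hτ
  rw [wk_pot hΦ (cr_eq_ind E ω τ) h, sd_pot hc hne hx hy]

/-- A walk from a vertex of one side to a vertex of the other side is crossed an odd number of times. -/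
theorem par_end' (hn : Nb (E.cf ω) (E.e ω) τ) (hτ : E.p ω (τ + 1) = E.e ω) {c' : ℤ}
    (hc : c = 0 ∨ c = 1) (hc' : c' = 0 ∨ c' = 1)
    (h : Par.Wk Eg (cr E ω τ) x y σ) (hx : E.Sid c ω t x) (hy : E.Sid c' ω t' y) :
    σ = 0 ↔ c = c' := by
  rw [par_end hn hτ h ⟨c, hc, hx⟩ ⟨c', hc', hy⟩]
  have e0 : ind2 ((0 : ℤ) = 1) = 0 := ind2_neg (by decide)
  have e1 : ind2 ((1 : ℤ) = 1) = 1 := ind2_pos rfl
  unfold Par.cl
  rw [sid_par hc hx, sid_par hc' hy]
  rcases hc with rfl | rfl <;> rcases hc' with rfl | rfl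
  · rw [e0]; decide
  · rw [e0, e1]; decide
  · rw [e0, e1]; decide
  · rw [e1]; decide

theorem wk_of_pth {χ : UE → ZMod 2} {D : Set UE} (hD : ∀ a ∈ D, χ a = 0) (h : Pth D x y) :
    Par.Wk Set.univ χ x y 0 := by
  induction h with
  | refl => exact Par.Wk.nil x
  | tail _ hb ih =>
    obtain ⟨a, ha, hj⟩ := hb
    have h1 := ih.trans (Par.Wk.single (Set.mem_univ a) hj)
    rwa [hD a ha, add_zero] at h1

/-- There is no gate at the end of the strand. -/
theorem not_gate_end (hn : Nb (E.cf ω) (E.e ω) τ) (hτ : E.p ω (τ + 1) = E.e ω) :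
    ¬ E.Gate ω τ z r := by
  rintro ⟨u, v, hu, hv, hp⟩
  have h1 := wk_of_pth (χ := cr E ω τ) (fun a ha => ind2_neg fun ⟨l, h1, h2⟩ => ha.2 l h1 h2) hp
  exact absurd ((par_end' hn hτ (Or.inl rfl) (Or.inr rfl) h1 hu hv).1 rfl) (by decide)

end End

/-! ### Kept faces -/

/-- The exploration of a step of the scan. -/
structure Scn (E : Ex) (ω : Cfg) (n : ℕ) (T : Finset Edg) (V : Finset (ℤ × ℤ)) (Q : Finset Edg)
    (k₀ : Cor) : Prop where
  hU : E.U ω = FU V \ QF Q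
  hcf : E.cf ω = gT ((rst T V ∪ Q : Finset Edg) : Set Ed)
  he : E.e ω = kU k₀
  hT : T ⊆ boxE n
  hI : Rule.Inv n T V
  hN : NdF V Q k₀

section Kept

variable {E : Ex} {ω : Cfg} {n τ t : ℕ} {T Q : Finset Edg} {V : Finset (ℤ × ℤ)} {k₀ : Cor}
  {x y z f g p q : ℤ × ℤ} {c : ℤ} {Φ : ℤ × ℤ → ZMod 2} {Eg : Set UE} {σ : ZMod 2}

theorem parV (v : ℤ × ℤ) : par (phiV v) = 0 := by
  unfold par phiV
  simp only
  omega

theorem parF (v : ℤ × ℤ) : par (phiF v) = 1 := by
  unfold par phiF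
  simp only
  omega

theorem cor_sq : IsCor f x ↔ Sq x f := by
  unfold IsCor Sq
  omega

/-- The even corners of a face with an even bond are joined. -/
theorem conn_even {ω : Cfg} {F : Set (ℤ × ℤ)} (hf : f ∈ F) (h : ω f = !(eE f).2.2)
    (hp : par p = 0) (hq : par q = 0) (hpf : Sq p f) (hqf : Sq q f) : Conn ω F p q := by
  by_cases hpq : p = q
  · rw [hpq]; exact Relation.ReflTransGen.refl
  refine Relation.ReflTransGen.single ?_
  obtain ⟨X, Y⟩ := f
  obtain ⟨p1, p2⟩ := p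
  obtain ⟨q1, q2⟩ := q
  refine ⟨X, Y, hf, ?_⟩
  simp only [Sq, par] at hp hq hpf hqf
  rw [Prod.mk.injEq] at hpq
  by_cases hXY : (X + Y) % 2 = 0
  · have e1 : (eE (X, Y)).2.2 = false := by simp only [eE, hXY, if_true]
    rw [e1] at h
    left
    refine ⟨by simpa using h, ?_⟩
    simp only [Prod.mk.injEq]
    omega
  · have e1 : (eE (X, Y)).2.2 = true := by simp only [eE, hXY, if_false]
    rw [e1] at h
    right
    refine ⟨by simpa using h, ?_⟩
    simp only [Prod.mk.injEq]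
    omega

theorem Scn.stp (H : Scn E ω n T V Q k₀) : Stp E ω V Q k₀ := Stp.of_gT H.hU H.hcf H.he

/-- The odd corners of the faces which are not left are on the side of colour `1`. -/
theorem Scn.conn_wall (H : Scn E ω n T V Q k₀) (hg : g ∉ FU V) (hp : par p = 1) (hpg : Sq p g) :
    Conn (E.cf ω) (E.U ω)ᶜ (en 1 (E.e ω)) p := by
  rw [H.he, en1_kU]
  have h2 := compl_chain (finite_FU H.hI.sub) (esc_FU H.hI) H.hN.f₀_notMem hg
  refine conn_odd_chain (G := FU V) ?_ (fun g hg => cf_odd H.stp H.hN hg) H.hN.f₀_notMem h2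
    (par_gF k₀) hp (sq_base H.stp H.hN) hpg
  rw [H.hU]
  exact Set.compl_subset_compl.2 Set.sdiff_subset

/-- The faces of the strand. -/
theorem Scn.mem_VF (H : Scn E ω n T V Q k₀) :
    f ∈ VF ((rst T V ∪ Q : Finset Edg) : Set Ed) (vtx k₀) ↔ ∃ t : ℕ, fa (E.p ω t) = f := by
  rw [mem_VF_iff (H.hN.coe_sub H.hT H.hI.sub) (H.hN.mem_Oc H.hT H.hI)]
  unfold Ex.p
  rw [H.hcf, H.he]

/-- The face before the exit of the unvisited fresh faces. -/
theorem Scn.exit_iff (H : Scn E ω n T V Q k₀) (hc : ∀ F p q, Conn (E.cf ω) F p q → Φ p = Φ q)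
    (hne : Φ (en 0 (E.e ω)) ≠ Φ (en 1 (E.e ω))) (hf : f ∈ FU V)
    (hfv : f ∉ VF ((rst T V ∪ Q : Finset Edg) : Set Ed) (vtx k₀)) (hadj : AdjF f g)
    (hg : ¬ (g ∈ FU V ∧ g ∉ QF Q ∧ g ∉ VF ((rst T V ∪ Q : Finset Edg) : Set Ed) (vtx k₀)))
    (hcor : ∀ x y, IsCor f x → IsCor f y → Φ x = Φ y) (hx : IsCor f x) :
    f ∈ FU (stpQ T V (Q, vtx k₀)) ↔ Φ x = Φ (en 1 (E.e ω)) := by
  obtain ⟨F, hF1, hF2⟩ := adj_share_odd hadj
  obtain ⟨w, hw1, hw2⟩ := adj_share hadj
  have hxF : Φ x = Φ (phiF F) := hcor _ _ hx (cor_sq.2 hF1)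
  have hxw : Φ x = Φ (phiV w) := hcor _ _ hx (cor_sq.2 hw1)
  by_cases hgV : g ∈ FU V
  · by_cases hgv : g ∈ VF ((rst T V ∪ Q : Finset Edg) : Set Ed) (vtx k₀)
    · -- a visited face
      rw [H.hN.next_step H.hT H.hI hf hfv hgv hadj]
      obtain ⟨t, ht⟩ := H.mem_VF.1 hgv
      have hs : ∀ c : ℤ, (c = 0 ∨ c = 1) → Φ (en c (E.p ω t)) = Φ (en c (E.e ω)) := fun c hc' =>
        sid_pot hc (Ex.sid_strand hc' (le_refl t))
      have hq : ∀ c : ℤ, Sq (en c (E.p ω t)) g := fun c => by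
        rw [← ht]
        exact sq_en (isSide_fa _) c
      have hcfg := gT_eE ((rst T V ∪ Q : Finset Edg) : Set Ed) g
      rw [← H.hcf] at hcfg
      constructor
      · intro h1
        have h2 : E.cf ω g ≠ !(eE g).2.2 := fun h => h1 (Finset.mem_coe.1 (hcfg.1 h))
        rw [hxF, ← hs 1 (Or.inr rfl)]
        exact (hc Set.univ _ _ (conn_odd (Set.mem_univ g) h2 (par_en (Or.inr rfl) _) (parF F)
          (hq 1) hF2)).symm
      · intro h1 h2
        have h3 : E.cf ω g = !(eE g).2.2 := hcfg.2 (Finset.mem_coe.2 h2)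
        apply hne
        rw [← h1, hxw, ← hs 0 (Or.inl rfl)]
        exact hc Set.univ _ _ (conn_even (Set.mem_univ g) h3 (par_en (Or.inl rfl) _) (parV w)
          (hq 0) hw2)
    · -- a face of the needle
      have hgQ : g ∈ QF Q := by
        by_contra h
        exact hg ⟨hgV, h, hgv⟩
      have hgQ' : eE g ∈ Q := hgQ
      have hwe : ea (eE g) = w ∨ eb (eE g) = w := sq_phiV.1 hw2
      have h1 : Φ (phiV w) = Φ (en 0 (E.e ω)) := by
        have h2 := conn_needle H.stp H.hN (a := w) ⟨_, hgQ', hwe⟩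
        rw [H.he, en0_kU]
        exact (hc _ _ _ h2).symm
      constructor
      · intro h2
        exfalso
        have h3 : w ∈ Kc ((rst T V ∪ Q : Finset Edg) : Set Ed) (vtx k₀) := by
          have h4 := H.hN.mem_clV T hgQ'
          rw [PercO.clV_eq] at h4
          rcases hwe with h5 | h5
          · rw [← h5]; exact h4.1
          · rw [← h5]; exact h4.2
        have h6 : w ∈ stpQ T V (Q, vtx k₀) := by
          rcases sq_phiV.1 hw1 with h5 | h5
          · rw [← h5]; exact h2.1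
          · rw [← h5]; exact h2.2
        exact (mem_next.1 (mem_stpQ.1 h6).2).1 h3
      · intro h2
        exact absurd (h1.symm.trans (hxw.symm.trans h2)) hne
  · -- a face which is not left
    refine iff_of_true (H.hN.next_wall H.hT H.hI hf hfv hadj hgV) ?_
    rw [hxF]
    exact (hc _ _ _ (H.conn_wall hgV (parF F) hF2)).symm

/-- **The kept faces are on the side of colour `1`.** -/
theorem Scn.kept_pot (H : Scn E ω n T V Q k₀)
    (hΦ : IsPot Set.univ (Gs (E.cf ω) (E.e ω) 0 (τ + 1)) Φ)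
    (hc : ∀ F p q, Conn (E.cf ω) F p q → Φ p = Φ q)
    (hne : Φ (en 0 (E.e ω)) ≠ Φ (en 1 (E.e ω))) (hτ : E.p ω (τ + 1) = E.e ω)
    (hf : f ∈ FU V) (hfQ : f ∉ QF Q) (hv : ∀ l ≤ τ, fa (E.p ω l) ≠ f) (hx : IsCor f x) :
    f ∈ FU (stpQ T V (Q, vtx k₀)) ↔ Φ x = Φ (en 1 (E.e ω)) := by
  -- the faces of the strand up to the time `τ`
  have hper : ∀ l, ∃ l' ≤ τ, E.p ω l' = E.p ω l := by
    intro l
    induction l with
    | zero => exact ⟨0, Nat.zero_le _, rfl⟩
    | succ l ih =>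
      obtain ⟨l', h1, h2⟩ := ih
      have h3 : E.p ω (l' + 1) = E.p ω (l + 1) := by
        unfold Ex.p at h2 ⊢
        rw [pth_succ, pth_succ, h2]
      rcases Nat.lt_or_ge l' τ with h4 | h4
      · exact ⟨l' + 1, by omega, h3⟩
      · have h5 : l' = τ := by omega
        subst h5
        exact ⟨0, Nat.zero_le _, by rw [← h3, hτ]; rfl⟩
  have hVF : ∀ g, g ∉ VF ((rst T V ∪ Q : Finset Edg) : Set Ed) (vtx k₀) ↔
      ∀ l ≤ τ, fa (E.p ω l) ≠ g := by
    intro g
    rw [H.mem_VF]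
    push Not
    constructor
    · exact fun h l _ => h l
    · intro h l
      obtain ⟨l', h1, h2⟩ := hper l
      rw [← h2]
      exact h l' h1
  -- the potential on an unvisited face
  have hcor : ∀ g, (∀ l ≤ τ, fa (E.p ω l) ≠ g) → ∀ x y, IsCor g x → IsCor g y → Φ x = Φ y := by
    intro g hg x y hx hy
    have hcst : Cnt.Cst Φ g := by
      intro a ha
      by_contra h
      exact not_mem_loop hτ hg ha ((hΦ g (Set.mem_univ g) a ha).2 h)
    exact hcst.cor hx hy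
  set A : Set (ℤ × ℤ) := {g | g ∈ FU V ∧ g ∉ QF Q ∧
    g ∉ VF ((rst T V ∪ Q : Finset Edg) : Set Ed) (vtx k₀)} with hA
  have hAfin : A.Finite := (finite_FU H.hI.sub).subset fun g hg => hg.1
  have hfA : f ∈ A := ⟨hf, hfQ, (hVF f).2 hv⟩
  -- the first exit to the right
  have hex : ∃ m : ℕ, ((f.1 + (m + 1 : ℕ), f.2) : ℤ × ℤ) ∉ A := by
    by_contra hno
    push Not at hno
    refine Set.infinite_of_injective_forall_mem (f := fun m : ℕ => ((f.1 + (m + 1 : ℕ), f.2) : ℤ × ℤ))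
      ?_ hno hAfin
    intro a b hab
    simp only [Prod.mk.injEq] at hab
    have := hab.1
    omega
  obtain ⟨m, hm, hmin⟩ : ∃ m : ℕ, ((f.1 + (m + 1 : ℕ), f.2) : ℤ × ℤ) ∉ A ∧
      ∀ k < m, ((f.1 + (k + 1 : ℕ), f.2) : ℤ × ℤ) ∈ A := by
    classical
    refine ⟨Nat.find hex, Nat.find_spec hex, fun k hk => ?_⟩
    have := Nat.find_min hex hk
    push Not at this
    exact this
  have hin : ∀ k ≤ m, ((f.1 + (k : ℕ), f.2) : ℤ × ℤ) ∈ A := by
    intro k hk
    cases k with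
    | zero =>
      have : ((f.1 + (0 : ℕ), f.2) : ℤ × ℤ) = f := by simp
      rw [this]
      exact hfA
    | succ k => exact hmin k (by omega)
  have hadj : ∀ k : ℕ, AdjF ((f.1 + (k : ℕ), f.2) : ℤ × ℤ) (f.1 + (k + 1 : ℕ), f.2) := by
    intro k
    rw [adjF_iff]
    left
    refine Prod.ext ?_ rfl
    show f.1 + ((k + 1 : ℕ) : ℤ) = f.1 + (k : ℕ) + 1
    push_cast
    ring
  -- backwards induction
  have key : ∀ i ≤ m, ∀ x, IsCor ((f.1 + ((m - i : ℕ) : ℕ), f.2) : ℤ × ℤ) x →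
      (((f.1 + ((m - i : ℕ) : ℕ), f.2) : ℤ × ℤ) ∈ FU (stpQ T V (Q, vtx k₀)) ↔
        Φ x = Φ (en 1 (E.e ω))) := by
    intro i
    induction i with
    | zero =>
      intro _ x hx
      rw [Nat.sub_zero] at hx ⊢
      have h1 := hin m le_rfl
      exact H.exit_iff hc hne h1.1 h1.2.2 (hadj m) (fun h => hm h)
        (hcor _ ((hVF _).1 h1.2.2)) hx
    | succ i ih =>
      intro hi x hx
      have e1 : m - i = (m - (i + 1)) + 1 := by omega
      have h0 := ih (by omega)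
      rw [e1] at h0
      have h1 := hin (m - (i + 1)) (by omega)
      have h2 := hin (m - (i + 1) + 1) (by omega)
      rw [H.hN.next_adj H.hT H.hI h1.1 h1.2.2 h2.1 h2.2.2 (hadj _)]
      obtain ⟨F, hF1, hF2⟩ := adj_share_odd (hadj (m - (i + 1)))
      rw [h0 (phiF F) (cor_sq.2 hF2), hcor _ ((hVF _).1 h1.2.2) x (phiF F) hx (cor_sq.2 hF1)]
  have h0 := key m le_rfl x
  rw [Nat.sub_self] at h0
  have e0 : ((f.1 + ((0 : ℕ) : ℕ), f.2) : ℤ × ℤ) = f := by simp
  rw [e0] at h0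
  exact h0 hx

/-- **The side decides whether an unvisited fresh face is kept.** -/
theorem Scn.side_kept (H : Scn E ω n T V Q k₀) (hn : Nb (E.cf ω) (E.e ω) τ)
    (hτ : E.p ω (τ + 1) = E.e ω) (hc : c = 0 ∨ c = 1) (hy : E.Sid c ω t y)
    (hw : Par.Wk Eg (cr E ω τ) y x σ) (hf : f ∈ FU V) (hfQ : f ∉ QF Q)
    (hv : ∀ l ≤ τ, fa (E.p ω l) ≠ f) (hx : IsCor f x) :
    f ∈ FU (stpQ T V (Q, vtx k₀)) ↔ (c = 1 ↔ σ = 0) := by
  obtain ⟨Φ, hΦ, hc', hne⟩ := loop_pot hn hτ
  rw [H.kept_pot hΦ hc' hne hτ hf hfQ hv hx]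
  have h1 := wk_pot hΦ (cr_eq_ind E ω τ) hw
  rw [sid_pot hc' hy] at h1
  rcases hc with rfl | rfl
  · have e0 : ((0 : ℤ) = 1) = False := by simp
    rw [e0]
    generalize Φ (en 0 (E.e ω)) = u at *
    generalize Φ (en 1 (E.e ω)) = v at *
    generalize Φ x = w at *
    clear hΦ hc' hw
    revert h1 hne
    revert u v w σ
    decide
  · have e0 : ((1 : ℤ) = 1) = True := by simp
    rw [e0]
    generalize Φ (en 0 (E.e ω)) = u at *
    generalize Φ (en 1 (E.e ω)) = v at *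
    generalize Φ x = w at *
    clear hΦ hc' hw
    revert h1 hne
    revert u v w σ
    decide

/-- The even form: the walk is crossed an even number of times. -/
theorem Scn.side_kept_zero (H : Scn E ω n T V Q k₀) (hn : Nb (E.cf ω) (E.e ω) τ)
    (hτ : E.p ω (τ + 1) = E.e ω) (hc : c = 0 ∨ c = 1) (hy : E.Sid c ω t y)
    (hw : Par.Wk Eg (cr E ω τ) y x 0) (hf : f ∈ FU V) (hfQ : f ∉ QF Q)
    (hv : ∀ l ≤ τ, fa (E.p ω l) ≠ f) (hx : IsCor f x) :
    f ∈ FU (stpQ T V (Q, vtx k₀)) ↔ c = 1 := by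
  rw [H.side_kept hn hτ hc hy hw hf hfQ hv hx]
  simp

/-- Both ends of an unvisited fresh face which is not kept are removed. -/
theorem Scn.removed (H : Scn E ω n T V Q k₀) (hf : f ∈ FU V)
    (hfv : f ∉ VF ((rst T V ∪ Q : Finset Edg) : Set Ed) (vtx k₀))
    (hk : f ∉ FU (stpQ T V (Q, vtx k₀))) {w : ℤ × ℤ} (hw : ea (eE f) = w ∨ eb (eE f) = w) :
    w ∉ stpQ T V (Q, vtx k₀) := by
  intro h1
  obtain ⟨F, hF⟩ : ∃ F, Sq (phiF F) f := ⟨MP_6bd702.H23.f1 (eE f), sq_phiF.2 (Or.inl rfl)⟩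
  obtain ⟨k, hk1, hk2, -⟩ := exists_corner_edge (eE f) hw (sq_phiF.1 hF)
  refine hk ((H.hN.kept_iff H.hT H.hI hf hfv hF).2 ?_)
  rw [← hk2]
  exact (mem_next.1 (mem_stpQ.1 h1).2).2 k hk1

/-- The strand of a step of the scan is closed. -/
theorem closed_scan
    (hτ : τ + 1 = Function.minimalPeriod (nxtE ((rst T V ∪ Q : Finset Edg) : Set Ed)) k₀) :
    pth (gT ((rst T V ∪ Q : Finset Edg) : Set Ed)) (kU k₀) (τ + 1) = kU k₀ ∧
      Nb (gT ((rst T V ∪ Q : Finset Edg) : Set Ed)) (kU k₀) τ := by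
  have hcoe : ∀ j, (nxt ((rst T V ∪ Q : Finset Edg) : Set Ed))^[j] k₀ =
      (nxtE ((rst T V ∪ Q : Finset Edg) : Set Ed))^[j] k₀ := fun j => rfl
  constructor
  · rw [← kU_iterate, hcoe, hτ, Function.iterate_minimalPeriod]
  · intro l hl hl' h
    rw [← kU_iterate, hcoe] at h
    have h1 := kU_injective h
    have h2 : Function.minimalPeriod (nxtE ((rst T V ∪ Q : Finset Edg) : Set Ed)) k₀ ≤ l :=
      Function.IsPeriodicPt.minimalPeriod_le hl h1
    omega

theorem exists_period (hN : NdF V Q k₀) (hT : T ⊆ boxE n) (hI : Rule.Inv n T V) :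
    ∃ τ, τ + 1 = Function.minimalPeriod (nxtE ((rst T V ∪ Q : Finset Edg) : Set Ed)) k₀ := by
  have := hN.period_pos hT hI
  exact ⟨Function.minimalPeriod (nxtE ((rst T V ∪ Q : Finset Edg) : Set Ed)) k₀ - 1, by omega⟩

/-- The end of the strand. -/
theorem Scn.closed (H : Scn E ω n T V Q k₀) (hτ : τ + 1 =
    Function.minimalPeriod (nxtE ((rst T V ∪ Q : Finset Edg) : Set Ed)) k₀) :
    E.p ω (τ + 1) = E.e ω ∧ Nb (E.cf ω) (E.e ω) τ := by
  unfold Ex.p
  rw [H.hcf, H.he]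
  exact closed_scan hτ

/-- The exploration with the frozen configuration of a step. -/
theorem Scn.of_zeta (hU : E.U ω = FU V \ QF Q) (hζ : E.ζ ω = gT (Q : Set Ed)) (he : E.e ω = kU k₀)
    (hI : Rule.Inv n (cfgE n ω) V) (hN : NdF V Q k₀) : Scn E ω n (cfgE n ω) V Q k₀ where
  hU := hU
  hcf := by
    unfold Ex.cf
    rw [hU, hζ]
    exact (gT_cfg hI.sub Q ω).symm
  he := he
  hT := DictB.cfgE_subset n ω
  hI := hI
  hN := hN

/-- The steps of a rule. -/
theorem scn_exR {h : ℕ} {R : Rul} {j : ℕ} {q : Ndl} (hR : RulOK n h R)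
    (hq : R j (cfgE n ω) = some q) (hk : ∃ k, NdF (rem n R j ω) q.1 k ∧ vtx k = q.2) :
    Scn (exR n R j) ω n (cfgE n ω) (rem n R j ω) q.1 (bc (rem n R j ω) q.1 q.2) where
  hU := by
    show FU (rem n R j ω) \ QF (ndE n R j ω) = _
    have h1 : ndE n R j ω = q.1 := by unfold ndE; rw [hq]; rfl
    rw [h1]
  hcf := exR_cf hR ω hq
  he := by
    show kU (bc (rem n R j ω) (ndE n R j ω) (ndB n R j ω)) = _
    have h1 : ndE n R j ω = q.1 := by unfold ndE; rw [hq]; rfl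
    have h2 : ndB n R j ω = q.2 := by unfold ndB; rw [hq]; rfl
    rw [h1, h2]
  hT := DictB.cfgE_subset n ω
  hI := inv_stR hR (DictB.cfgE_subset n ω) j
  hN := (bc_spec hk).1

end Kept

end Pool.Agent.SixB.SideT
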