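import Pool.Agent.Lib.SixB.S8OutRow
import Pool.Agent.Lib.SixB.S8SideT
import Pool.Agent.Lib.SixB.S8InvD

/-!
# Step 8: the period of a needle, and the place of the strand in a state

`pS_per`: the strand of a running needle is periodic with the period `perS`, `perS_pos`. `t_lt_perS`: the
time of a state is smaller than the period if the face in front of the strand is not crossed.
`nearR_of`: the strand is near the coarse tip at the time of a state.
-/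

set_option autoImplicit false

namespace Pool.Agent.SixB.Tru

open Finset Filter Topology Pool.Agent.Perc Pool.Agent.Perc6 Pool.Agent.PercT Pool.Agent.PercX60
open Pool.Agent.MP_6bd702.H23 (Ed ea eb)
open Pool.Agent.PercU (Cor vtx fce nxt nxtE qry)
open Pool.Agent.SixB Pool.Agent.SixB.Rule Pool.Agent.SixB.Dct Pool.Agent.SixB.Mv
open Pool.Agent.SixB.Blow (subE lf_subE_zero)
open Pool.Agent.SixB.Top (compT ChI lf rg)
open Pool.Agent.Perc.Tips

variable {𝔇 : Dat} {d : ℕ → ℕ} {n i : ℕ} {ω : Cfg} {q : Rule.Ndl}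

/-- The strand in terms of the corner walk. -/
theorem pS_walk (hq : (tst 𝔇 d n ω i).q = some q) (t : ℕ) :
    pS (tst 𝔇 d n ω i).V q ω t = kU ((nxtE ((cfQ (cfgE n ω) (tst 𝔇 d n ω i).V q : Finset Edg) :
      Set Ed))^[t] (bc (tst 𝔇 d n ω i).V q.1 q.2)) := by
  rw [TruR.pS_eq (TruR.stOK_tst 𝔇 d n ω i).sub, strd_eq_pth, ← kU_iterate]
  rfl

/-- **The strand is periodic.** -/
theorem pS_per (hq : (tst 𝔇 d n ω i).q = some q) (t : ℕ) :
    pS (tst 𝔇 d n ω i).V q ω (t + perS n ω (tst 𝔇 d n ω i).V q) =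
      pS (tst 𝔇 d n ω i).V q ω t := by
  rw [pS_walk hq, pS_walk hq, Function.iterate_add_apply]
  unfold perS
  rw [Function.iterate_minimalPeriod]

theorem perS_pos (hq : (tst 𝔇 d n ω i).q = some q) : 0 < perS n ω (tst 𝔇 d n ω i).V q := by
  obtain ⟨-, hk⟩ := tst_ndF hq
  have h := (bc_spec hk).1.period_pos (T := cfgE n ω) (DictB.cfgE_subset n ω)
    (TruR.inv_V 𝔇 d n ω i)
  exact h

/-- The time of a state is smaller than the period. -/
theorem t_lt_perS (hq : (tst 𝔇 d n ω i).q = some q)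
    (h : fa (pS (tst 𝔇 d n ω i).V q ω (tst 𝔇 d n ω i).t) ∉
      vS (tst 𝔇 d n ω i).V q ω 0 (tst 𝔇 d n ω i).t) :
    (tst 𝔇 d n ω i).t < perS n ω (tst 𝔇 d n ω i).V q := by
  by_contra hc
  push Not at hc
  apply h
  have hpos := perS_pos hq
  rw [TruR.mem_vS]
  refine ⟨(tst 𝔇 d n ω i).t - perS n ω (tst 𝔇 d n ω i).V q, Nat.zero_le _, by omega, ?_⟩
  have h1 := pS_per hq ((tst 𝔇 d n ω i).t - perS n ω (tst 𝔇 d n ω i).V q)
  rw [Nat.sub_add_cancel hc] at h1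
  rw [h1]

theorem t_lt_runB {r : ℤ} {D : Dom} {κ : ℤ × ℤ → ℤ × ℤ} {m x : ℕ}
    (h : RunB 𝔇 d n r (tst 𝔇 d n ω i) ω q D κ m x) :
    (tst 𝔇 d n ω i).t < perS n ω (tst 𝔇 d n ω i).V q :=
  t_lt_perS h.hq fun h1 => h.fre.2 h1

theorem t_lt_runV {r : ℤ} {D : Dom} (h : RunV 𝔇 d n r (tst 𝔇 d n ω i) ω)
    (hq : (tst 𝔇 d n ω i).q = some q) (hD : (𝔇.cs d (tst 𝔇 d n ω i).x).run = some D)
    (hi : (𝔇.cs d (tst 𝔇 d n ω i).x).ini = false) :
    (tst 𝔇 d n ω i).t < perS n ω (tst 𝔇 d n ω i).V q := by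
  rcases h q D hq hD hi with ⟨κ, m, x, i₁, j₁, t, j₂, i₂, h1⟩ | ⟨κ, m, x, h1⟩
  · exact (t_lt_runB h1.toRunB)
  · exact (t_lt_runB h1.toRunB)

/-! ### The place of the strand -/

theorem ua_rg (e : UE) : |(ua e).1 - (rg (dirE e)).1| ≤ 1 ∧ |(ua e).2 - (rg (dirE e)).2| ≤ 1 := by
  obtain ⟨x, y, b⟩ := e
  have key : ∀ c : Bool, |(ua ((x, y, b) : UE)).1 - (rg (((x, y, b) : UE), c)).1| ≤ 1 ∧
      |(ua ((x, y, b) : UE)).2 - (rg (((x, y, b) : UE), c)).2| ≤ 1 := by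
    intro c
    cases b <;> cases c <;> simp [ua, rg]
  exact key _

theorem nearR_of_near {r : ℤ} {s : TS} {D : Dom} {ρ : ℝ}
    (h : LC.InB (lf (subE (unt d n) D.A 0)) r (rg (tS s q ω))) (hr : ((r + 1 : ℤ) : ℝ) ≤ ρ) :
    NearR d n ω ρ s.V q D.tip s.t := by
  have h1 := ua_rg (pS s.V q ω s.t)
  have h2 : rg (tS s q ω) = rg (dirE (pS s.V q ω s.t)) := rfl
  rw [h2, lf_subE_zero] at h
  obtain ⟨a1, a2, a3, a4⟩ := h
  have b1 := abs_le.1 h1.1
  have b2 := abs_le.1 h1.2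
  have e : D.tip = lf D.A := rfl
  unfold NearR
  rw [e]
  constructor
  · refine le_trans ?_ hr
    exact_mod_cast abs_le.2 ⟨by simp only at a1 a2; linarith [b1.1, b1.2], by
      simp only at a1 a2; linarith [b1.1, b1.2]⟩
  · refine le_trans ?_ hr
    exact_mod_cast abs_le.2 ⟨by simp only at a3 a4; linarith [b2.1, b2.2], by
      simp only at a3 a4; linarith [b2.1, b2.2]⟩

/-- **The strand is near the coarse tip at the time of a state.** -/
theorem nearR_runV {r : ℤ} {s : TS} {D : Dom} {ρ : ℝ} (h : RunV 𝔇 d n r s ω)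
    (hq : s.q = some q) (hD : (𝔇.cs d s.x).run = some D) (hi : (𝔇.cs d s.x).ini = false)
    (hr : ((r + 1 : ℤ) : ℝ) ≤ ρ) : NearR d n ω ρ s.V q D.tip s.t := by
  rcases h q D hq hD hi with ⟨κ, m, x, i₁, j₁, t, j₂, i₂, h1⟩ | ⟨κ, m, x, h1⟩
  · exact nearR_of_near h1.near hr
  · exact nearR_of_near h1.near hr

end Pool.Agent.SixB.Tru
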