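import Pool.Agent.Lib.SixB.S8Inv
import Pool.Agent.Lib.SixB.S8Nbh
import Pool.Agent.Lib.SixB.S8OutPer
import Pool.Agent.Lib.SixB.S8InvSx
import Pool.Agent.Lib.SixB.S8DispS
import Pool.Agent.Lib.SixB.S8DispB

/-!
# Step 8: the strand at the end of a needle step

* `last_exit_tst`: the strand of the tip leaves the true domain for the last time (before its return to
  the tip) through the true target side.
* `LastX`: the time of the last exit; it is the same for all the running stages of a step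
  (`LastX.restrict`), and the exit side is the true target side (`RunB.last_exit`).
* `ret_of_end`: the strand after the last move and before the last exit.
-/

set_option autoImplicit false

namespace Pool.Agent.SixB.Tru

open Finset Pool.Agent.Perc Pool.Agent.Perc6 Pool.Agent.PercT Pool.Agent.Perc6.C2Aux
open Pool.Agent.Perc.Tips Pool.Agent.SixB Pool.Agent.SixB.Rule Pool.Agent.SixB.Dct
open Pool.Agent.SixB.Top Pool.Agent.SixB.Mv Pool.Agent.SixB.Blow

/-- **The last exit.** -/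
theorem last_exit_tst {ω : Cfg} {R U : Set (ℤ × ℤ)} {A : UE × Bool} {m x : ℕ} (h : TSt ω R U A m x)
    {N s : ℕ} (hret : pth ω A.1 N = A.1) (hsN : s ≤ N) (hsC : fb (pth ω A.1 s) ∈ U)
    (hout : ∀ i, s ≤ i → i < N → fa (pth ω A.1 i) ∉ U) :
    pth ω A.1 s = (side U A x).1 ∧ fb (pth ω A.1 s) = ahead (side U A x) := by
  have hbd := h.cyc.bd
  have hC := h.cyc
  have hfb : fb A.1 = ahead (rv A) := (fwd_of_par (par_rg_of_fwd h.fwd)).2
  have hsN' : s < N := by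
    rcases hsN.lt_or_eq with h3 | h3
    · exact h3
    · exfalso
      rw [h3, hret, hfb] at hsC
      exact hbd.2 hsC
  have hfaN : fa (pth ω A.1 N) ∈ U := by rw [hret, h.fwd]; exact hbd.1
  obtain ⟨Θ, hΘc, hΘ⟩ := exc_pot_out h.hR h.ec hsN' hsC hfaN hout
  have hbs : BdU U (pth ω A.1 s) := ⟨⟨_, hsC, isSide_fb _⟩, _, hout s le_rfl hsN', isSide_fa _⟩
  obtain ⟨i₀, hi0, j0⟩ := hC.ctr.all _ hbs
  have hm := hC.pos
  have hval : ∀ i, i < m → (Θ (vert U A i) ≠ Θ (vert U A (i + 1)) → i = i₀ ∨ i = 0) := by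
    intro i hi
    rw [hΘ (ahead (side U A i)) (h.UR (bd_side hbd i).1) (side U A i).1 _ _ (sideA _) (joins_side i)
      ⟨_, (bd_side hbd i).2, sideB _⟩]
    rintro ⟨k, hk1, hk2, hk⟩
    have hk' : IsSide (ahead (side U A i)) (pth ω A.1 k) := hk ▸ sideA _
    rcases side_fa_fb hk' with h2 | h2
    · have hkN : k = N := by
        by_contra hne
        exact hout k hk1 (by omega) (h2 ▸ (bd_side hbd i).1)
      subst hkN
      right
      refine hC.ctr.inj i hi 0 hm A.1 ?_ (joins_side (D := U) (A := A) 0)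
      rw [← hret, ← hk]
      exact joins_side i
    · have hks : k = s := by
        by_contra hne
        refine hout (k - 1) (by omega) (by omega) ?_
        rw [← fb_pth_succ, Nat.sub_add_cancel (by omega), ← h2]
        exact (bd_side hbd i).1
      subst hks
      left
      exact hC.ctr.inj i hi i₀ hi0 _ (hk ▸ joins_side i) j0
  have e1 := hΘc _ _ h.conn_right
  have e0 := hΘc _ _ h.conn_left
  have h00 : Θ (lf A) ≠ Θ (rg A) := by
    have h3 := (hΘ (ahead (side U A 0)) (h.UR (bd_side hbd 0).1) (side U A 0).1 _ _ (sideA _)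
      (joins_side 0) ⟨_, (bd_side hbd 0).2, sideB _⟩).2 ⟨N, hsN'.le, le_rfl, hret.symm⟩
    rw [zero_add, vert_one_rg] at h3
    exact h3
  have hxi : x = i₀ := by
    have h3 : Θ (vert U A x) ≠ Θ (vert U A (x + 1)) := by
      rw [← e1, ← e0]
      exact h00.symm
    rcases hval x h.lt h3 with h4 | h4
    · exact h4
    · have := h.pos
      omega
  subst hxi
  have hx : pth ω A.1 s = (side U A x).1 := Joins.uniq j0 (joins_side _)
  refine ⟨hx, ?_⟩
  have h4 : IsSide (fb (pth ω A.1 s)) (side U A x).1 := hx ▸ isSide_fb _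
  rcases side_fa_fb (h4) with h5 | h5
  · rcases side_fa_fb (sideA (side U A x)) with h6 | h6
    · rw [h5, ← h6]
    · exfalso
      have h7 := side_fa_fb (sideB (side U A x))
      rcases h7 with h7 | h7
      · rw [h5, ← h7] at hsC
        exact (bd_side hbd x).2 hsC
      · exact fa_ne_fb (side U A x).1 (by rw [← h5, ← hx])
  · rcases side_fa_fb (sideA (side U A x)) with h6 | h6
    · rcases side_fa_fb (sideB (side U A x)) with h7 | h7
      · exact absurd (h7.trans h6.symm) (adjF_ahead _).1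
      · rw [h5, ← h7] at hsC
        exact absurd hsC (bd_side hbd x).2
    · rw [h5, ← h6]

/-! ### The time of the last exit -/

/-- The strand `p` leaves `U` for the last time before the time `N` at the time `a`. -/
structure LastX (p : ℕ → UE) (N a : ℕ) (U : Set (ℤ × ℤ)) : Prop where
  le : a ≤ N
  mem : fb (p a) ∈ U
  out : ∀ l, a ≤ l → l < N → fa (p l) ∉ U

namespace LastX

variable {p : ℕ → UE} {N a b t : ℕ} {U U' : Set (ℤ × ℤ)}

theorem unique (hp : ∀ l, fb (p (l + 1)) = fa (p l)) (h : LastX p N a U) (h' : LastX p N b U) :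
    a = b := by
  have key : ∀ a b, LastX p N a U → LastX p N b U → ¬ a < b := by
    intro a b h h' hab
    refine h.out (b - 1) (by omega) (by have := h'.le; omega) ?_
    rw [← hp, Nat.sub_add_cancel (by omega)]
    exact h'.mem
  have h1 := key a b h h'
  have h2 := key b a h' h
  omega

theorem restrict (h : LastX p N a U) (hU : U' ⊆ U) (hm : fb (p a) ∈ U') : LastX p N a U' :=
  ⟨h.le, hm, fun l h1 h2 h3 => h.out l h1 h2 (hU h3)⟩

theorem exists_of (hp : ∀ l, fb (p (l + 1)) = fa (p l)) (ht : t < N) (hU : fa (p t) ∈ U) :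
    ∃ a, LastX p N a U ∧ t < a := by
  classical
  set Q : Finset ℕ := (range (N + 1)).filter fun s => t < s ∧ fb (p s) ∈ U with hQ
  have hne : Q.Nonempty := ⟨t + 1, Finset.mem_filter.2
    ⟨Finset.mem_range.2 (by omega), by omega, by rw [hp]; exact hU⟩⟩
  have h3 : ∀ r ∈ Q, r ≤ N ∧ t < r ∧ fb (p r) ∈ U := fun r hr => by
    rw [hQ, Finset.mem_filter, Finset.mem_range] at hr
    exact ⟨by omega, hr.2⟩
  obtain ⟨h4, h5, h6⟩ := h3 _ (Finset.max'_mem Q hne)
  refine ⟨Q.max' hne, ⟨h4, h6, fun i hi1 hi2 hi3 => ?_⟩, h5⟩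
  have := Finset.le_max' Q (i + 1) (Finset.mem_filter.2
    ⟨Finset.mem_range.2 (by omega), by omega, by rw [hp]; exact hi3⟩)
  omega

end LastX

theorem fb_pS_succ (V : Finset (ℤ × ℤ)) (q : Rule.Ndl) (ω : Cfg) (l : ℕ) :
    fb (pS V q ω (l + 1)) = fa (pS V q ω l) := fb_pth_succ _ _ _

section run

variable {𝔇 : Dat} {d : ℕ → ℕ} {n : ℕ} {r : ℤ} {s : TS} {ω : Cfg} {q : Rule.Ndl} {D : Dom}
  {κ : ℤ × ℤ → ℤ × ℤ} {m x N a : ℕ}

theorem pS_addN (hN : pS s.V q ω N = eS s.V q) (l : ℕ) : pS s.V q ω (N + l) = pS s.V q ω l := by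
  show pth (cfS s.V q ω) (eS s.V q) (N + l) = _
  rw [← pth_add]
  show pth _ (pS s.V q ω N) _ = _
  rw [hN]
  rfl

/-- The time of a running stage is before the end of the loop. -/
theorem RunB.lt_per (h : RunB 𝔇 d n r s ω q D κ m x) (hN0 : 0 < N) (hN : pS s.V q ω N = eS s.V q) :
    s.t < N := by
  by_contra hc
  push Not at hc
  obtain ⟨l, hl⟩ := Nat.exists_eq_add_of_le hc
  refine h.fre.2 (Finset.mem_coe.2 ?_)
  rw [hl, pS_addN hN]
  exact mem_vs.2 ⟨l, Nat.zero_le _, by omega, rfl⟩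

theorem uS_sub (h : RunB 𝔇 d n r s ω q D κ m x) : uS s q ω ⊆ frS s q ω := compT_sub h.fre

/-- **The last exit from the true domain of a running stage.** -/
theorem RunB.last_exit (h : RunB 𝔇 d n r s ω q D κ m x) (hN0 : 0 < N)
    (hN : pS s.V q ω N = eS s.V q) (hX : LastX (pS s.V q ω) N a (uS s q ω)) :
    pS s.V q ω a = (side (uS s q ω) (tS s q ω) x).1 ∧
      fb (pS s.V q ω a) = inF (uS s q ω) (tS s q ω) x := by
  have hlt := h.lt_per hN0 hN
  have hfre : fa (pS s.V q ω s.t) ∈ uS s q ω := self_mem_compT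
  have hta : s.t < a := by
    by_contra hc
    push Not at hc
    exact hX.out _ hc hlt hfre
  have hT := h.tst ω
  rw [Xi_self] at hT
  have e : ∀ i, pth (cfS s.V q ω) (tS s q ω).1 i = pS s.V q ω (s.t + i) := fun i => pth_pS i
  obtain ⟨k1, k2⟩ := last_exit_tst hT (N := N) (s := a - s.t)
    (by rw [e, Nat.add_comm, pS_addN hN]; rfl) (by have := hX.le; omega)
    (by rw [e, Nat.add_sub_cancel' hta.le]; exact hX.mem)
    (fun i h1 h2 h3 => by
      rw [e] at h3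
      rcases Nat.lt_or_ge (s.t + i) N with h4 | h4
      · exact hX.out _ (by omega) h4 h3
      · obtain ⟨l, hl⟩ := Nat.exists_eq_add_of_le h4
        rw [hl, pS_addN hN] at h3
        exact (uS_sub h h3).2 (Finset.mem_coe.2 (mem_vs.2 ⟨l, Nat.zero_le _, by omega, rfl⟩)))
  rw [e, Nat.add_sub_cancel' hta.le] at k1 k2
  exact ⟨k1, k2⟩

end run

/-! ### The end move -/

theorem econn_un {F G : Set (ℤ × ℤ)} (hF : Top.EConn F) (hG : Top.EConn G) {x : ℤ × ℤ} (hx : x ∈ F)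
    (hx' : x ∈ G) : Top.EConn (F ∪ G) := by
  have m1 : ∀ f g, ChI F f g → ChI (F ∪ G) f g := fun f g h =>
    StartA.chiMono h fun z hz => Or.inl hz
  have m2 : ∀ f g, ChI G f g → ChI (F ∪ G) f g := fun f g h =>
    StartA.chiMono h fun z hz => Or.inr hz
  rintro f (hf | hf) g (hg | hg)
  · exact m1 _ _ (hF f hf g hg)
  · exact (m1 _ _ (hF f hf x hx)).trans (m2 _ _ (hG x hx' g hg))
  · exact (m2 _ _ (hG f hf x hx')).trans (m1 _ _ (hF x hx g hg))
  · exact m2 _ _ (hG f hf g hg)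

/-- A component is connected. -/
theorem econn_comp {W : Set (ℤ × ℤ)} {f : ℤ × ℤ} : Top.EConn (compT W f) := by
  have m : ∀ g, ChI W f g → ChI (compT W f) f g := by
    intro g hg
    unfold ChI at hg
    induction hg with
    | refl => exact ChI.refl _
    | @tail x z hx hs ih => exact ih.tail ⟨hs.1, hx.tail hs⟩
  intro x hx y hy
  exact ((m x hx).symm (S := compT W f) self_mem_compT).trans (m y hy)

/-- **The strand after the last move is not far away before the last exit.** `μ`: a connected set of fresh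
faces near the base which is visited at the time `σ` and has the exit side as a side. -/
theorem near_of_ret {V : Finset (ℤ × ℤ)} {q : Rule.Ndl} {ω : Cfg} {b : ℤ × ℤ} {ρ R : ℤ}
    {μ : Set (ℤ × ℤ)} {σ t a : ℕ} {y : ℤ × ℤ} (hret : ¬ BaseE.Ret (exS V q) ω b ρ R)
    (hW : (exS V q).Wll ω) (he : fb (eS V q) ∉ FU V \ QF q.1) (hn : NearCut.Nb (cfS V q ω) (eS V q) a)
    (hμ : ∀ f ∈ μ, (f ∈ FU V ∧ f ∉ QF q.1) ∧ f ∉ vS V q ω 0 σ) (hμc : Top.EConn μ)
    (hμb : ∀ f ∈ μ, ∀ a, IsSide f a → InB b ρ a) (hμσ : fa (pS V q ω σ) ∈ μ) (hσt : σ ≤ t)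
    (hta : t ≤ a) (hy : y ∈ μ) (hya : IsSide y (pS V q ω a)) : InB b R (pS V q ω t) := by
  by_contra hc
  refine hret ⟨hW, he, μ, σ, t, a, fun f hf => ⟨(hμ f hf).1, fun hx => (hμ f hf).2 ?_⟩, hμc, hμb,
    hμσ, hσt, hta, hn, hc, y, hy, hya⟩
  exact Finset.mem_coe.1 hx.2

section endmove

variable {𝔇 : Dat} {d : ℕ → ℕ} {n : ℕ} {r : ℤ} {s : TS} {ω : Cfg} {q : Rule.Ndl} {D : Dom}
  {κ : ℤ × ℤ → ℤ × ℤ} {m x N a : ℕ} {g : Grd} {lA lB : ℤ} {σ : ℕ} {ρ : Rec}

/-- The set `μ` of a regular last move. -/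
theorem end_reg (hB : RunB 𝔇 d n r s ω q D κ m x)
    (h : Rg D g (unt d n) (cfS s.V q ω) (uS s q ω) κ r (tS s q ω) m x lA lB σ ρ)
    (hE : D.End g ρ) :
    ∃ μ : Set (ℤ × ℤ), (∀ f ∈ μ, (f ∈ FU s.V ∧ f ∉ QF q.1) ∧ f ∉ vS s.V q ω 0 (s.t + σ)) ∧
      Top.EConn μ ∧ (∀ f ∈ μ, |f.1 - (ahead (subE (unt d n) D.B 0)).1| ≤
        max r (unt d n * (2 * g.L)) ∧ |f.2 - (ahead (subE (unt d n) D.B 0)).2| ≤
        max r (unt d n * (2 * g.L))) ∧ fa (pS s.V q ω (s.t + σ)) ∈ μ ∧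
      inF (uS s q ω) (tS s q ω) x ∈ μ := by
  obtain ⟨b, hb⟩ : ∃ b, b = ahead (subE (unt d n : ℤ) D.B 0) := ⟨_, rfl⟩
  obtain ⟨y, hy⟩ : ∃ y, y = inF (uS s q ω) (tS s q ω) x := ⟨_, rfl⟩
  rw [← hb, ← hy]
  have hu : (0 : ℤ) < unt d n := by exact_mod_cast h.hu
  have hvs : vs (cfS s.V q ω) (tS s q ω).1 0 σ = vS s.V q ω s.t (s.t + σ) := vs_pS σ
  have hvis : ∀ f, f ∈ uS s q ω → f ∉ vs (cfS s.V q ω) (tS s q ω).1 0 σ →
      (f ∈ FU s.V ∧ f ∉ QF q.1) ∧ f ∉ vS s.V q ω 0 (s.t + σ) := by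
    intro f hf h1
    have h2 := uS_sub hB hf
    refine ⟨h2.1, fun h3 => ?_⟩
    obtain ⟨i, -, hi, hfi⟩ := mem_vs.1 h3
    rcases Nat.lt_or_ge i s.t with h4 | h4
    · exact h2.2 (Finset.mem_coe.2 (mem_vs.2 ⟨i, Nat.zero_le _, h4, hfi⟩))
    · rw [hvs] at h1
      exact h1 (mem_vs.2 ⟨i, h4, hi, hfi⟩)
  have hent : ∀ f ∈ blow (unt d n : ℤ) (D.ent g ρ), f ∈ uS s q ω ∧
      f ∉ vs (cfS s.V q ω) (tS s q ω).1 0 σ := by
    intro f hf
    have h1 := h.val.ent_sub_bar h.rok (mem_blow.1 hf)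
    have h2 : f ∈ blow (unt d n : ℤ) D.P :=
      mem_blow.2 (h.val.dom_sub (h.val.bar_sub h1)).1
    refine ⟨h.app.sub h2, fun h3 => ?_⟩
    exact (h.val.inr_sub h.nv (mem_blow.1 (h.vis_P f (Finset.mem_coe.2 h3) h2))).2 h1
  obtain ⟨t1, t2, t3, -⟩ := h.tgt_step
  rw [← hy] at t1 t3
  rw [← hb] at t2 t3
  have hyW : y ∈ (uS s q ω \ (vs (cfS s.V q ω) (tS s q ω).1 0 σ : Set (ℤ × ℤ))) ∩
      Mv.sqF r b := ⟨⟨by rw [hy]; exact h.tgt.1, t1⟩, t3.2.1⟩
  have hch : ChI ((uS s q ω \ (vs (cfS s.V q ω) (tS s q ω).1 0 σ : Set (ℤ × ℤ))) ∩ Mv.sqF r b) y b :=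
    StartA.chiMono t3.2.2 fun z hz => ⟨compT_sub hyW.1 hz.1, hz.2⟩
  have hbent : b ∈ blow (unt d n : ℤ) (D.ent g ρ) := by
    rw [hb, mem_blow, cl_ahead_zero h.hu]
    exact hE
  refine ⟨blow (unt d n : ℤ) (D.ent g ρ) ∪
    compT ((uS s q ω \ (vs (cfS s.V q ω) (tS s q ω).1 0 σ : Set (ℤ × ℤ))) ∩ Mv.sqF r b) y,
    ?_, econn_un (econn_blow hu (h.val.econn_ent h.rok)) econn_comp hbent hch, ?_,
    Or.inl ?_, Or.inr self_mem_compT⟩
  · rintro f (hf | hf)
    · exact hvis f (hent f hf).1 (hent f hf).2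
    · have h1 := compT_sub hyW hf
      exact hvis f h1.1.1 fun h2 => h1.1.2 (Finset.mem_coe.2 h2)
  · rintro f (hf | hf)
    · obtain ⟨h1, h2⟩ := ((InvN.ent_dia h.val h.rok).blow hu) _ hf _ hbent
      exact ⟨h1.le.trans (le_max_right _ _), h2.le.trans (le_max_right _ _)⟩
    · have h1 := (compT_sub hyW hf).2
      unfold Mv.sqF at h1
      exact ⟨h1.1.trans (le_max_left _ _), h1.2.trans (le_max_left _ _)⟩
  · have h1 := h.ent
    rwa [show pth (cfS s.V q ω) (tS s q ω).1 σ = pS s.V q ω (s.t + σ) from pth_pS σ] at h1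

/-- The set `μ` of a void last move. `R₀`: the radius of the neighbourhood of the tip. -/
theorem end_void {R₀ : ℤ} (hB : RunB 𝔇 d n r s ω q D κ m x) (hN : NumO d n s.x.length r)
    (hv : D.Void (𝔇.gr d s.x D)) (hE : D.End (𝔇.gr d s.x D) ρ) (hM : Nbh d n R₀ s ω q D) :
    ∃ μ : Set (ℤ × ℤ), (∀ f ∈ μ, (f ∈ FU s.V ∧ f ∉ QF q.1) ∧ f ∉ vS s.V q ω 0 s.t) ∧
      Top.EConn μ ∧ (∀ f ∈ μ, |f.1 - (ahead (subE (unt d n) D.B 0)).1| ≤
        max r (max R₀ (2 * (unt d n * msh d s.x.length)) + 2 * (unt d n * msh d s.x.length)) ∧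
        |f.2 - (ahead (subE (unt d n) D.B 0)).2| ≤
        max r (max R₀ (2 * (unt d n * msh d s.x.length)) + 2 * (unt d n * msh d s.x.length))) ∧ fa (pS s.V q ω s.t) ∈ μ ∧
      inF (uS s q ω) (tS s q ω) x ∈ μ := by
  obtain ⟨b, hb⟩ : ∃ b, b = ahead (subE (unt d n : ℤ) D.B 0) := ⟨_, rfl⟩
  obtain ⟨y, hy⟩ : ∃ y, y = inF (uS s q ω) (tS s q ω) x := ⟨_, rfl⟩
  rw [← hb, ← hy]
  have hval : D.Val (𝔇.gr d s.x D) := val_gr hB.run (msh_pos _ _) hN.h16
  have hu : (0 : ℤ) < unt d n := by exact_mod_cast hN.hu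
  have hL : (𝔇.gr d s.x D).L = msh d s.x.length := rfl
  have hrok : D.RecOk (𝔇.gr d s.x D) ρ := Dom.recOk_void hv
  have h0 : ahead D.A ∈ D.ent (𝔇.gr d s.x D) ρ := Dom.ahead_mem_ent hv
  have hbent : b ∈ blow (unt d n : ℤ) (D.ent (𝔇.gr d s.x D) ρ) := by
    rw [hb, mem_blow, cl_ahead_zero hN.hu]
    exact hE
  have hent : blow (unt d n : ℤ) (D.ent (𝔇.gr d s.x D) ρ) ⊆ uS s q ω := fun f hf =>
    hB.app.sub (hval.ent_sub_P hrok hf)
  obtain ⟨μ, h1, h2, h3, h4, h5⟩ := hM.union hent (Blow.econn_blow hu (hval.econn_ent hrok))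
    (InvN.ahead_blow hu h0 le_rfl hu) fun f hf => near_ent_old hval hu hrok hv hf
  have hyW : y ∈ uS s q ω ∩ Mv.sqF r b := by
    rw [hy, hb]
    exact ⟨hB.tgt.1, hB.tgt.2.1⟩
  have hch : ChI (uS s q ω ∩ Mv.sqF r b) y b := by
    rw [hy, hb]
    exact hB.tgt.2.2
  refine ⟨μ ∪ compT (uS s q ω ∩ Mv.sqF r b) y, fun f hf => ?_,
    econn_un h2 econn_comp (h4 hbent) hch, ?_, Or.inl h3, Or.inr self_mem_compT⟩
  · have h6 : f ∈ uS s q ω := by
      rcases hf with hf | hf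
      · exact h1 hf
      · exact (compT_sub hyW hf).1
    have h7 := uS_sub hB h6
    exact ⟨h7.1, fun h8 => h7.2 (Finset.mem_coe.2 h8)⟩
  · rintro f (hf | hf)
    · have g1 := h5 f hf
      have g3 := near_ent_old hval hu hrok hv hbent
      rw [hL] at g1 g3
      unfold LC.InB at g1 g3
      constructor
      · refine le_trans ?_ (le_max_right _ _)
        rw [abs_le]
        omega
      · refine le_trans ?_ (le_max_right _ _)
        rw [abs_le]
        omega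
    · have h1 := (compT_sub hyW hf).2
      unfold Mv.sqF at h1
      exact ⟨h1.1.trans (le_max_left _ _), h1.2.trans (le_max_left _ _)⟩

/-! ### The last exit along the chain -/

/-- The time `a` of the last exit of the true domain and of the component of the target. -/
def LX (d : ℕ → ℕ) (n : ℕ) (s : TS) (ω : Cfg) (q : Rule.Ndl) (D : Dom) (N a : ℕ) : Prop :=
  LastX (pS s.V q ω) N a (uS s q ω) ∧
    LastX (pS s.V q ω) N a (compT (FU s.V \ QF q.1) (ahead (subE (unt d n) D.B 0)))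

/-- The first stage after the entrance. -/
theorem lx_enter (hB : RunB 𝔇 d n r s ω q D κ m x)
    (ht : s.t = staT n (unt d n) s.V q D.B ω) (hN0 : 0 < N) (hN : pS s.V q ω N = eS s.V q) :
    ∃ a, LX d n s ω q D N a := by
  obtain ⟨b, hb⟩ : ∃ b, b = ahead (subE (unt d n : ℤ) D.B 0) := ⟨_, rfl⟩
  have hbU : b ∈ uS s q ω := by
    have h1 := TgG.mem' (U := uS s q ω) (S := Mv.sqF r b) (b := b)
      (y := ahead (side (uS s q ω) (tS s q ω) x)) (by rw [hb]; exact hB.tgt)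
    exact h1.1
  have hbW : b ∈ frS s q ω := uS_sub hB hbU
  have e1 : uS s q ω = compT (frS s q ω) b := (compT_eq hB.fre hbU).symm
  have hsub : uS s q ω ⊆ compT (FU s.V \ QF q.1) b := by
    rw [e1]
    exact compT_mono fun f hf => hf.1
  have hlt := hB.lt_per hN0 hN
  have hno : ∀ l < s.t, fa (pS s.V q ω l) ∉ compT (FU s.V \ QF q.1) b := by
    intro l hl hh
    rw [ht] at hl
    unfold staT at hl
    rw [← hb] at hl
    exact absurd (hit_le_of (P := fun t => fa (pS s.V q ω t) ∈ compT (FU s.V \ QF q.1) b)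
      (N := tmx n) hh) (by omega)
  have heq : uS s q ω = compT (FU s.V \ QF q.1) b := by
    refine Set.Subset.antisymm hsub ?_
    rw [e1]
    have hbF : b ∈ (FU s.V \ QF q.1 : Set (ℤ × ℤ)) := hbW.1
    have key : ∀ g, ChI (FU s.V \ QF q.1) b g → ChI (frS s q ω) b g := by
      intro g hg
      unfold ChI at hg
      induction hg with
      | refl => exact ChI.refl _
      | @tail u v hu hs ih =>
        refine ih.tail ⟨hs.1, hs.2, fun hv => ?_⟩
        obtain ⟨l, -, hl, hlv⟩ := mem_vs.1 (Finset.mem_coe.1 hv)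
        exact hno l hl (by
          show ChI _ b _
          have h3 : ChI (FU s.V \ QF q.1) b v := hu.tail hs
          rw [hlv] at h3
          exact h3)
    exact fun g hg => key g hg
  obtain ⟨a, ha, -⟩ := LastX.exists_of (p := pS s.V q ω) (U := uS s q ω)
    (fun l => fb_pS_succ _ _ _ l) hlt self_mem_compT
  refine ⟨a, ha, ?_⟩
  rw [← hb, ← heq]
  exact ha

theorem lx_void {s' : TS} {D' : Dom} (h : LX d n s ω q D N a) (hV : s'.V = s.V) (ht : s'.t = s.t)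
    (hD : D'.B = D.B) : LX d n s' ω q D' N a := by
  unfold LX
  rw [uS_void hV ht, hV, hD]
  exact h

theorem lx_reg {s' : TS} {i₁ j₁ t j₂ i₂ : ℕ} (X : RunI 𝔇 d n r s ω q D κ m x i₁ j₁ t j₂ i₂)
    (hO : StO n s q) (hNO : NumO d n s.x.length r) (hv : ¬ D.Void (𝔇.gr d s.x D)) {σ : ℕ}
    (hS : D.regS (𝔇.gr d s.x D) (unt d n) (uS s q ω) κ (tS s q ω).1 (cfS s.V q ω) σ)
    (hE : ¬ D.End (𝔇.gr d s.x D) (mvR 𝔇 d n s q D false ω)) (hN0 : 0 < N)
    (hN : pS s.V q ω N = eS s.V q) (h : LX d n s ω q D N a)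
    (hs' : s' = ⟨s.V, some q, s.t + σ, mvR 𝔇 d n s q D false ω :: s.x⟩) :
    LX d n s' ω q (D.nx (𝔇.gr d s.x D) (mvR 𝔇 d n s q D false ω)) N a := by
  obtain ⟨-, R⟩ := X.rg hO hNO hv hS
  obtain ⟨κ', m', x', -, hu', -⟩ := X.next_regB hO hNO hv hS hE (r' := _) le_rfl hs'
  have hV : s'.V = s.V := by rw [hs']
  have h1 := (X.toRunB.last_exit hN0 hN h.1).2
  refine ⟨?_, ?_⟩
  · rw [hV]
    refine h.1.restrict ?_ ?_
    · rw [hu']
      exact fun f hf => (compT_sub (W := uS s q ω \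
        (vs (cfS s.V q ω) (tS s q ω).1 0 σ : Set (ℤ × ℤ))) ⟨X.tgt.1, R.tgt_step.1⟩ hf).1
    · rw [hu', h1]
      exact self_mem_compT
  · rw [hV]
    exact h.2

end endmove

/-- **The time of the last exit** is the same for all the running stages of a step. -/
theorem lx_all {𝔇 : Dat} {d : ℕ → ℕ} {n k : ℕ} {ω : Cfg} {C : ℤ}
    (hN : ∀ i < k, NumO d n (i + 1) (rad C (unt d n) d (i + 1)))
    (hR : ∀ i < k, ω ∉ Dead C 𝔇 d n i) (hV : ∀ i ≤ k, InvV C 𝔇 d n i ω) :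
    ∀ i ≤ k, ∀ q D, (tst 𝔇 d n ω i).q = some q → (𝔇.cs d (tst 𝔇 d n ω i).x).run = some D →
      (𝔇.cs d (tst 𝔇 d n ω i).x).ini = false →
      ∃ a, LX d n (tst 𝔇 d n ω i) ω q D (perS n ω (tst 𝔇 d n ω i).V q) a := by
  intro i
  induction i with
  | zero =>
    intro _ q D hq hD hi
    exfalso
    rw [tst_zero] at hq hD hi
    have hD0 : (𝔇.cs d ([] : List Rec)).run = none := rfl
    rw [nxS_rest (s := ⟨Box n, none, 0, []⟩) rfl hD0] at hD hi
    rw [plS_x, Dat.cs_cons] at hD hi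
    rw [mv_ini_none hD0, hD] at hi
    exact absurd hi (by simp)
  | succ i ih =>
    intro hk q' D' hq' hD' hi'
    rcases hq0 : (tst 𝔇 d n ω i).q with _ | q
    · -- no needle
      exfalso
      rw [tst_succ] at hq' hD' hi'
      rcases hD0 : (𝔇.cs d (tst 𝔇 d n ω i).x).run with _ | D
      · rw [nxS_rest hq0 hD0] at hD' hi'
        rw [plS_x, Dat.cs_cons] at hD' hi'
        rw [mv_ini_none hD0, hD'] at hi'
        exact absurd hi' (by simp)
      · rw [nxS_skip hq0 hD0] at hq'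
        exact absurd hq' (by simp)
    · obtain ⟨D, hD, hst⟩ := tst_run hq0
      have hper : ∀ s : TS, s.V = (tst 𝔇 d n ω i).V → perS n ω s.V q =
          perS n ω (tst 𝔇 d n ω i).V q := fun s h => by rw [h]
      have hN0 := perS_pos (ω := ω) hq0
      have hNp : pS (tst 𝔇 d n ω i).V q ω (perS n ω (tst 𝔇 d n ω i).V q) =
          eS (tst 𝔇 d n ω i).V q := by
        have h1 := pS_per (ω := ω) hq0 0
        rw [Nat.zero_add] at h1
        exact h1
      rcases hi : (𝔇.cs d (tst 𝔇 d n ω i).x).ini with _ | _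
      · -- a running stage
        rw [hi] at hst
        have hfin := hq'
        rw [hst] at hfin
        obtain ⟨e1, e2, e3, e4⟩ := finS_q hfin
        subst e1
        obtain ⟨D₁, hD₁⟩ := Option.isSome_iff_exists.1 e2
        have hnE : ¬ D.End (𝔇.gr d (tst 𝔇 d n ω i).x D)
            (mvR 𝔇 d n (tst 𝔇 d n ω i) q' D false ω) := by
          intro hE
          rw [Dat.cs_cons, mv_end hD hi hE] at hD₁
          exact absurd hD₁ (by simp)
        have hst' := hst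
        rw [finS_run hD₁] at hst'
        have hnO : (D.nx (𝔇.gr d (tst 𝔇 d n ω i).x D)
            (mvR 𝔇 d n (tst 𝔇 d n ω i) q' D false ω)).Ok := by
          by_contra hO
          rw [Dat.cs_cons, mv_bad hD hi hO] at hD₁
          exact absurd hD₁ (by simp)
        have hDD : D' = D.nx (𝔇.gr d (tst 𝔇 d n ω i).x D)
            (mvR 𝔇 d n (tst 𝔇 d n ω i) q' D false ω) := by
          have h1 := (cs_next hD hi hnE hnO).1
          rw [hst'] at hD'
          exact Option.some.inj (hD'.symm.trans h1)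
        obtain ⟨a, ha⟩ := ih (by omega) q' D hq0 hD hi
        refine ⟨a, ?_⟩
        have hVV : (tst 𝔇 d n ω (i + 1)).V = (tst 𝔇 d n ω i).V := by rw [hst']
        rw [hVV, hDD]
        by_cases hv : D.Void (𝔇.gr d (tst 𝔇 d n ω i).x D)
        · exact lx_void ha hVV (by rw [hst', mvT_void hv]) rfl
        · obtain ⟨κ, m, x, i₁, j₁, t, j₂, i₂, X, σ, hσ⟩ := exists_regS (hR i (by omega)) hq0 hD hi hv
          have hO := stO_tst hq0
          have hNO : NumO d n (tst 𝔇 d n ω i).x.length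
              (rad C (unt d n) d (tst 𝔇 d n ω i).x.length) := by
            rw [tst_len]
            exact hN i (by omega)
          obtain ⟨hT, -⟩ := X.rg hO hNO hv hσ
          exact lx_reg X hO hNO hv hσ hnE hN0 hNp ha (by rw [hst', hT])
      · -- the entrance stage
        have hst' : tst 𝔇 d n ω (i + 1) = ⟨(tst 𝔇 d n ω i).V, some q,
            staT n (unt d n) (tst 𝔇 d n ω i).V q D.B ω, (∅, 0) :: (tst 𝔇 d n ω i).x⟩ := by
          rw [tst_succ]
          exact Sx.nxS_enter hq0 hD hi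
        have hqq : q' = q := by
          rw [hst'] at hq'
          exact (Option.some.inj hq').symm
        subst hqq
        have hDD : D' = D := by
          rw [hst', Sx.cs_enter hD hi] at hD'
          exact (Option.some.inj hD').symm
        subst hDD
        have hVV : (tst 𝔇 d n ω (i + 1)).V = (tst 𝔇 d n ω i).V := by rw [hst']
        have htt : (tst 𝔇 d n ω (i + 1)).t =
            staT n (unt d n) (tst 𝔇 d n ω (i + 1)).V q' D'.B ω := by rw [hst']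
        rcases hV (i + 1) hk q' D' hq' hD' hi' with ⟨κ, m, x, i₁, j₁, t, j₂, i₂, X⟩ | ⟨κ, m, x, X⟩
        · exact lx_enter X.toRunB htt (by rw [hVV]; exact hN0) (by rw [hVV]; exact hNp)
        · exact lx_enter X.toRunB htt (by rw [hVV]; exact hN0) (by rw [hVV]; exact hNp)

/-! ### The strand stays near the base -/

/-- The strand does not return to the base before the period. -/
theorem nb_perS {𝔇 : Dat} {d : ℕ → ℕ} {n i a : ℕ} {ω : Cfg} {q : Rule.Ndl}
    (hq : (tst 𝔇 d n ω i).q = some q) (ha : a < perS n ω (tst 𝔇 d n ω i).V q) :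
    NearCut.Nb (cfS (tst 𝔇 d n ω i).V q ω) (eS (tst 𝔇 d n ω i).V q) a := by
  intro l h0 hl h1
  have h2 : pS (tst 𝔇 d n ω i).V q ω l = pS (tst 𝔇 d n ω i).V q ω 0 := h1
  rw [pS_walk hq, pS_walk hq] at h2
  have h3 := kU_injective h2
  have h4 : Function.IsPeriodicPt (PercU.nxtE ((cfQ (cfgE n ω) (tst 𝔇 d n ω i).V q :
      Finset Edg) : Set MP_6bd702.H23.Ed)) l (bc (tst 𝔇 d n ω i).V q.1 q.2) := h3
  have h5 := h4.minimalPeriod_le h0
  unfold perS at ha
  omega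

/-- The target of a clearance needle is fresh at the beginning. -/
theorem ndl_tgt {V : Finset (ℤ × ℤ)} {q : Rule.Ndl} {P : Set (ℤ × ℤ)} {y a z : ℤ × ℤ}
    {r l c d : ℤ} (N : StartA.Ndl P (QF q.1) y a z r l c d) (hPF : P ⊆ FU V) :
    z ∈ (FU V \ QF q.1 : Set (ℤ × ℤ)) := by
  have h1 := N.box z (by
    have := N.len
    have := N.l0
    have := N.d0
    unfold LC.InB
    omega)
  refine ⟨hPF h1, fun hz => ?_⟩
  have h3 := N.size z hz
  have h4 := N.len
  have h5 := N.y_far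
  have h6 := N.d0
  unfold LC.InB at *
  omega

theorem side_ua_near {f : ℤ × ℤ} {e : UE} (h : IsSide f e) :
    f.1 ≤ (ua e).1 ∧ (ua e).1 ≤ f.1 + 1 ∧ f.2 ≤ (ua e).2 ∧ (ua e).2 ≤ f.2 + 1 := by
  obtain ⟨f1, f2⟩ := f
  rcases h with rfl | rfl | rfl | rfl <;> simp [bo, to', le', ri, ua]

/-- **After the last move** the strand stays near the base. `b`: the face of the coarse target side, `zt`:
the target of the needle, `z`: the centre of the box. -/
theorem end_box {𝔇 : Dat} {d : ℕ → ℕ} {n i : ℕ} {ω : Cfg} {C : ℤ} {q : Rule.Ndl} {D : Dom}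
    (hN : ∀ j ≤ i, NumO d n (j + 1) (rad C (unt d n) d (j + 1)))
    (hR : ∀ j ≤ i, ω ∉ Dead C 𝔇 d n j) (hV : ∀ j ≤ i, InvV C 𝔇 d n j ω)
    (hq : (tst 𝔇 d n ω i).q = some q) (hD : (𝔇.cs d (tst 𝔇 d n ω i).x).run = some D)
    (hi : (𝔇.cs d (tst 𝔇 d n ω i).x).ini = false)
    (hend : (𝔇.cs d (tst 𝔇 d n ω (i + 1)).x).run = none)
    {R₀ : ℤ} (hM : Nbh d n R₀ (tst 𝔇 d n ω i) ω q D)
    {z : ℤ × ℤ} {ρ R : ℤ} (hBE : ¬ BaseE.BaseEv (exS (tst 𝔇 d n ω i).V q) ω z ρ R) (hρR : ρ ≤ R)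
    {P : Set (ℤ × ℤ)} {y₀ a₀ zt : ℤ × ℤ} {r₀ l₀ c₀ d₀ s₀ t₀ k₀ k₁ : ℤ}
    (hNd : StartA.Ndl P (QF q.1) y₀ a₀ zt r₀ l₀ c₀ d₀) (hPF : P ⊆ FU (tst 𝔇 d n ω i).V)
    (hds : d₀ ≤ s₀) (hsr : s₀ < r₀) (ht₀ : 2 * s₀ + c₀ + 2 ≤ t₀) (hz : LC.InB y₀ k₀ z)
    (hk₀ : t₀ + 2 + k₀ ≤ ρ - 3)
    (hb : ahead (subE (unt d n) D.B 0) ∈ compT (FU (tst 𝔇 d n ω i).V \ QF q.1) zt)
    (hbz : |(ahead (subE (unt d n) D.B 0)).1 - z.1| ≤ k₁ ∧
      |(ahead (subE (unt d n) D.B 0)).2 - z.2| ≤ k₁)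
    (hk₁ : k₁ + max (rad C (unt d n) d (i + 1)) (max R₀ (2 * (unt d n * msh d (i + 1))) +
      2 * (unt d n * msh d (i + 1))) + 4 ≤ ρ) :
    ∀ t, mvT 𝔇 d n (tst 𝔇 d n ω i) q D false ω ≤ t → t ≤ perS n ω (tst 𝔇 d n ω i).V q →
      InB z R (pS (tst 𝔇 d n ω i).V q ω t) := by
  have hlen := tst_len 𝔇 d n ω i
  have hNO : NumO d n (tst 𝔇 d n ω i).x.length
      (rad C (unt d n) d (tst 𝔇 d n ω i).x.length) := by
    rw [hlen]
    exact hN i le_rfl
  have hu : (0 : ℤ) < unt d n := by exact_mod_cast hNO.hu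
  have hN0 := perS_pos (ω := ω) hq
  have hNp : pS (tst 𝔇 d n ω i).V q ω (perS n ω (tst 𝔇 d n ω i).V q) =
      eS (tst 𝔇 d n ω i).V q := by
    have h1 := pS_per (ω := ω) hq 0
    rw [Nat.zero_add] at h1
    exact h1
  obtain ⟨a, ha⟩ := lx_all (k := i) (fun j hj => hN j hj.le) (fun j hj => hR j hj.le) hV i le_rfl
    q D hq hD hi
  have hfb := tst_fb (ω := ω) hq
  have hLp : 0 < (unt d n : ℤ) * msh d (i + 1) := mul_pos hu (msh_pos _ _)
  -- the next coarse state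
  have hxs : (𝔇.cs d (mvR 𝔇 d n (tst 𝔇 d n ω i) q D false ω :: (tst 𝔇 d n ω i).x)).run = none := by
    obtain ⟨D₁, hD₁, hst⟩ := tst_run hq
    have hDD : D₁ = D := Option.some.inj (hD₁.symm.trans hD)
    subst hDD
    rw [hst, hi, finS_x] at hend
    exact hend
  -- the set `μ`
  obtain ⟨μ, y, hμ, hμc, hμb, hμσ, hyμ, hya⟩ : ∃ (μ : Set (ℤ × ℤ)) (y : ℤ × ℤ),
      (∀ f ∈ μ, (f ∈ FU (tst 𝔇 d n ω i).V ∧ f ∉ QF q.1) ∧
        f ∉ vS (tst 𝔇 d n ω i).V q ω 0 (mvT 𝔇 d n (tst 𝔇 d n ω i) q D false ω)) ∧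
      Top.EConn μ ∧ (∀ f ∈ μ, |f.1 - (ahead (subE (unt d n) D.B 0)).1| ≤
        max (rad C (unt d n) d (i + 1)) (max R₀ (2 * (unt d n * msh d (i + 1))) +
          2 * (unt d n * msh d (i + 1))) ∧ |f.2 - (ahead (subE (unt d n) D.B 0)).2| ≤
        max (rad C (unt d n) d (i + 1)) (max R₀ (2 * (unt d n * msh d (i + 1))) +
          2 * (unt d n * msh d (i + 1)))) ∧
      fa (pS (tst 𝔇 d n ω i).V q ω (mvT 𝔇 d n (tst 𝔇 d n ω i) q D false ω)) ∈ μ ∧ y ∈ μ ∧
      fb (pS (tst 𝔇 d n ω i).V q ω a) = y := by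
    by_cases hv : D.Void (𝔇.gr d (tst 𝔇 d n ω i).x D)
    · have hval : D.Val (𝔇.gr d (tst 𝔇 d n ω i).x D) := val_gr hD (msh_pos _ _) hNO.h16
      have hE : D.End (𝔇.gr d (tst 𝔇 d n ω i).x D)
          (mvR 𝔇 d n (tst 𝔇 d n ω i) q D false ω) := by
        by_contra hE
        have h1 := (cs_next hD hi hE (hval.ok_next (Dom.recOk_void hv) hE
          (hval.esc_void_rest hNO.hu hv))).1
        rw [hxs] at h1
        exact absurd h1 (by simp)
      obtain ⟨κ, m, x, X⟩ : ∃ κ m x, RunB 𝔇 d n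
          (rad C (unt d n) d (tst 𝔇 d n ω i).x.length) (tst 𝔇 d n ω i) ω q D κ m x := by
        rcases hV i le_rfl q D hq hD hi with ⟨κ, m, x, i₁, j₁, t, j₂, i₂, X⟩ | ⟨κ, m, x, X⟩
        · exact ⟨κ, m, x, X.toRunB⟩
        · exact ⟨κ, m, x, X.toRunB⟩
      obtain ⟨μ, h1, h2, h3, h4, h5⟩ := end_void X hNO hv hE hM
      rw [hlen] at h3
      rw [mvT_void hv]
      exact ⟨μ, _, h1, h2, h3, h4, h5, (X.last_exit hN0 hNp ha.1).2⟩
    · obtain ⟨κ, m, x, i₁, j₁, t, j₂, i₂, X, σ, hσ⟩ := exists_regS (hR i le_rfl) hq hD hi hv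
      obtain ⟨hT, RR⟩ := X.rg (stO_tst hq) hNO hv hσ
      have hE : D.End (𝔇.gr d (tst 𝔇 d n ω i).x D)
          (mvR 𝔇 d n (tst 𝔇 d n ω i) q D false ω) := by
        by_contra hE
        have h1 := (cs_next hD hi hE (RR.ok hE)).1
        rw [hxs] at h1
        exact absurd h1 (by simp)
      obtain ⟨μ, h1, h2, h3, h4, h5⟩ := end_reg X.toRunB RR hE
      have hL : (𝔇.gr d (tst 𝔇 d n ω i).x D).L = msh d (tst 𝔇 d n ω i).x.length := rfl
      rw [hlen] at h3 hL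
      rw [hL] at h3
      rw [hT]
      refine ⟨μ, _, h1, h2, fun f hf => ?_, h4, h5, (X.toRunB.last_exit hN0 hNp ha.1).2⟩
      obtain ⟨g1, g2⟩ := h3 f hf
      have g3 : max (rad C (unt d n) d (i + 1)) ((unt d n : ℤ) * (2 * msh d (i + 1))) ≤
          max (rad C (unt d n) d (i + 1)) (max R₀ (2 * (unt d n * msh d (i + 1))) +
            2 * (unt d n * msh d (i + 1))) := by
        refine max_le_max le_rfl ?_
        have g4 := le_max_right R₀ (2 * ((unt d n : ℤ) * msh d (i + 1)))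
        have g5 : (unt d n : ℤ) * (2 * msh d (i + 1)) = 2 * (unt d n * msh d (i + 1)) := by ring
        omega
      exact ⟨g1.trans g3, g2.trans g3⟩
  have haN : a < perS n ω (tst 𝔇 d n ω i).V q := by
    rcases ha.1.le.lt_or_eq with h1 | h1
    · exact h1
    · exfalso
      apply hfb
      have h2 : fb (pS (tst 𝔇 d n ω i).V q ω a) ∈ uS (tst 𝔇 d n ω i) q ω := ha.1.mem
      rw [h1, hNp] at h2
      have h3 := ha.2.mem
      rw [h1, hNp] at h3
      exact (compT_sub (W := (FU (tst 𝔇 d n ω i).V \ QF q.1 : Set (ℤ × ℤ)))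
        (compT_sub (ndl_tgt hNd hPF) hb) h3)
  obtain ⟨Rm, hRm⟩ : ∃ Rm, Rm = max (rad C (unt d n) d (i + 1))
      (max R₀ (2 * (unt d n * msh d (i + 1))) + 2 * (unt d n * msh d (i + 1))) := ⟨_, rfl⟩
  rw [← hRm] at hk₁ hμb
  have hside : ∀ f ∈ μ, ∀ e, IsSide f e → InB z (ρ - 3) e := by
    intro f hf e he
    obtain ⟨h1, h2⟩ := hμb f hf
    obtain ⟨h3, h4⟩ := hbz
    rw [abs_le] at h1 h2 h3 h4
    have h5 := side_ua_near he
    rw [Near.inB_iff]
    omega
  have hbase : ∀ t, mvT 𝔇 d n (tst 𝔇 d n ω i) q D false ω ≤ t → t ≤ a →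
      InB z R (pS (tst 𝔇 d n ω i).V q ω t) := by
    intro t h1 h2
    refine near_of_ret (ρ := ρ) (fun h => hBE (Or.inl h)) (tst_wll hq) hfb (nb_perS hq haN) hμ hμc
      (fun f hf e he => (hside f hf e he).mono (by omega)) hμσ h1 h2 hyμ ?_
    rw [← hya]
    exact isSide_fb _
  intro t h1 h2
  rcases Nat.lt_or_ge a t with h3 | h3
  · by_contra hcon
    refine hBE (Or.inr (Or.inl ?_))
    have h4 := Dsp.one_of_pass (ω := ω) (T := t) (R := R) (ρ := ρ - 3) hNd hPF hds hsr ht₀ hz hk₀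
      (u := a) h3.le (hside y hyμ _ (by rw [← hya]; exact isSide_fb _)) (fun l h5 h6 h7 => ?_) hcon
      (by omega)
    · rw [show ρ - 3 + 4 = ρ + 1 by ring] at h4
      exact h4
    · refine ha.2.out l h5 (by omega) ?_
      exact (ChI.symm (ndl_tgt hNd hPF) hb).trans h7
  · exact hbase t h1 h3

end Pool.Agent.SixB.Tru
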