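import Pool.Agent.Lib.SixB.S8App

/-!
# Step 8: change of grid for a coarse polygon, with merged spots

`P` approximates the region `U` from inside: `P` is a union of classes of `κ`, the classes are connected
and small, and every class outside of `P` next to `P` contains a face which is not in `U`. Let `c` be
cells of another grid, and let `N_1, …, N_k` be spots: small connected sets which contain a face
outside of `U'`. If `P'` is a union of `c`-cells, every `c`-cell next to `P'` which is contained in `P` and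
meets no spot is in `P'`, then `P'` approximates `U'` for the classes obtained from the old classes, the
components of the cut cells and the spots by merging.
-/

set_option autoImplicit false

namespace Pool.Agent.SixB.EndApp

variable {V : Type*} {R : V → V → Prop}

/-- A chain of `R`-steps; all points but the first one are in `S`. -/
def CC (R : V → V → Prop) (S : Set V) (f g : V) : Prop :=
  Relation.ReflTransGen (fun a b => R a b ∧ b ∈ S) f g

theorem CC.mono {S T : Set V} (h : S ⊆ T) {f g : V} (hc : CC R S f g) : CC R T f g := by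
  induction hc with
  | refl => exact Relation.ReflTransGen.refl
  | tail _ hs ih => exact ih.tail ⟨hs.1, h hs.2⟩

theorem CC.mem {S : Set V} {f g : V} (hf : f ∈ S) (hc : CC R S f g) : g ∈ S := by
  rcases Relation.ReflTransGen.cases_tail hc with h | ⟨d, -, h⟩
  · rw [h]; exact hf
  · exact h.2

theorem CC.trans {S : Set V} {f g k : V} (h : CC R S f g) (h' : CC R S g k) : CC R S f k :=
  Relation.ReflTransGen.trans h h'

theorem CC.symm (hR : ∀ a b, R a b → R b a) {S : Set V} {f g : V} (hf : f ∈ S)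
    (hc : CC R S f g) : CC R S g f := by
  induction hc with
  | refl => exact Relation.ReflTransGen.refl
  | @tail b c hb hs ih => exact Relation.ReflTransGen.head ⟨hR _ _ hs.1, CC.mem hf hb⟩ ih

/-- The first exit of a chain from `P`. -/
theorem CC.exit {S P : Set V} {f g : V} (hc : CC R S f g) (hf : f ∈ P) (hg : g ∉ P) :
    ∃ p h, CC R (S ∩ P) f p ∧ p ∈ P ∧ R p h ∧ h ∈ S ∧ h ∉ P := by
  induction hc with
  | refl => exact absurd hf hg
  | @tail b c hb hs ih =>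
    by_cases hbP : b ∈ P
    · -- the last step leaves `P`; look for an earlier exit
      by_cases hex : CC R (S ∩ P) f b
      · exact ⟨b, c, hex, hbP, hs.1, hs.2, hg⟩
      · -- an earlier exit
        clear ih
        have key : ∀ x, CC R S f x → CC R (S ∩ P) f x ∨
            ∃ p h, CC R (S ∩ P) f p ∧ p ∈ P ∧ R p h ∧ h ∈ S ∧ h ∉ P := by
          intro x hx
          induction hx with
          | refl => exact Or.inl Relation.ReflTransGen.refl
          | @tail y z hy hz ih =>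
            rcases ih with ih | ih
            · have hyP : y ∈ P := by
                rcases Relation.ReflTransGen.cases_tail ih with h | ⟨d, -, h⟩
                · rw [h]; exact hf
                · exact h.2.2
              by_cases hzP : z ∈ P
              · exact Or.inl (ih.tail ⟨hz.1, hz.2, hzP⟩)
              · exact Or.inr ⟨y, z, ih, hyP, hz.1, hz.2, hzP⟩
            · exact Or.inr ih
        rcases key b hb with h | h
        · exact absurd h hex
        · exact h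
    · exact ih hbP

/-! ### Merging a spot -/

section Merge

variable {ι : Type*} (κ : V → ι) (N : Set V)

open Classical in
/-- All classes which meet `N` are merged. -/
noncomputable def mrg : V → Option ι := fun f => if ∃ g ∈ N, κ g = κ f then none else some (κ f)

variable {κ N}

theorem mrg_none {f : V} : mrg κ N f = none ↔ ∃ g ∈ N, κ g = κ f := by
  unfold mrg
  split_ifs with h
  · exact ⟨fun _ => h, fun _ => rfl⟩
  · exact ⟨fun hh => absurd hh (by simp), fun hh => absurd hh h⟩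

theorem mrg_of_eq {f g : V} (h : κ f = κ g) : mrg κ N f = mrg κ N g := by
  unfold mrg
  rw [h]

theorem mrg_mem {g : V} (hg : g ∈ N) : mrg κ N g = none := mrg_none.2 ⟨g, hg, rfl⟩

theorem mrg_some {f : V} {i : ι} (h : mrg κ N f = some i) : κ f = i := by
  unfold mrg at h
  split_ifs at h with h'
  exact Option.some.inj h

theorem mrg_conn
    (hκ : ∀ x y, κ x = κ y → CC R {z | κ z = κ x} x y)
    (hN : ∀ x ∈ N, ∀ y ∈ N, CC R N x y) (x y : V) (h : mrg κ N x = mrg κ N y) :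
    CC R {z | mrg κ N z = mrg κ N x} x y := by
  cases hx : mrg κ N x with
  | none =>
    have hy : mrg κ N y = none := by rw [← h, hx]
    obtain ⟨g, hg, hgx⟩ := mrg_none.1 hx
    obtain ⟨k, hk, hky⟩ := mrg_none.1 hy
    have h1 : CC R {z | mrg κ N z = none} x g := by
      refine (hκ x g hgx.symm).mono fun z hz => ?_
      rw [Set.mem_ofPred_eq, mrg_of_eq hz, hx]
    have h2 : CC R {z | mrg κ N z = none} g k := (hN g hg k hk).mono fun z hz => mrg_mem hz
    have h3 : CC R {z | mrg κ N z = none} k y := by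
      refine (hκ k y hky).mono fun z hz => ?_
      rw [Set.mem_ofPred_eq, mrg_of_eq hz, mrg_of_eq hky, hy]
    exact (h1.trans h2).trans h3
  | some i =>
    have e1 := mrg_some hx
    have e2 : κ y = i := mrg_some (by rw [← h, hx])
    refine (hκ x y (by rw [e1, e2])).mono fun z hz => ?_
    rw [Set.mem_ofPred_eq, mrg_of_eq hz, hx]

end Merge

/-! ### Distances -/

/-- The two coordinates differ by less than `d`. -/
def Nr (d : ℤ) (x y : ℤ × ℤ) : Prop := |x.1 - y.1| < d ∧ |x.2 - y.2| < d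

theorem Nr.trans {d e : ℤ} {x y z : ℤ × ℤ} (h : Nr d x y) (h' : Nr e y z) : Nr (d + e) x z := by
  unfold Nr at *
  simp only [abs_lt] at *
  omega

theorem Nr.symm {d : ℤ} {x y : ℤ × ℤ} (h : Nr d x y) : Nr d y x := by
  unfold Nr at *
  simp only [abs_lt] at *
  omega

theorem Nr.mono {d e : ℤ} (hde : d ≤ e) {x y : ℤ × ℤ} (h : Nr d x y) : Nr e x y := by
  unfold Nr at *
  exact ⟨h.1.trans_le hde, h.2.trans_le hde⟩

theorem Nr.pos {d : ℤ} {x y : ℤ × ℤ} (h : Nr d x y) : 0 < d := by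
  unfold Nr at h
  exact lt_of_le_of_lt (abs_nonneg _) h.1

theorem mrg_diam {ι : Type*} {κ : ℤ × ℤ → ι} {N : Set (ℤ × ℤ)} {d e : ℤ}
    (hκ : ∀ x y, κ x = κ y → Nr d x y) (hN : ∀ x ∈ N, ∀ y ∈ N, Nr e x y) (he : 0 ≤ e)
    (x y : ℤ × ℤ) (h : mrg κ N x = mrg κ N y) : Nr (2 * d + e) x y := by
  have hd : 0 < d := (hκ x x rfl).pos
  cases hx : mrg κ N x with
  | none =>
    have hy : mrg κ N y = none := by rw [← h, hx]
    obtain ⟨g, hg, hgx⟩ := mrg_none.1 hx
    obtain ⟨k, hk, hky⟩ := mrg_none.1 hy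
    have := ((hκ x g hgx.symm).trans (hN g hg k hk)).trans (hκ k y hky)
    exact this.mono (by omega)
  | some i =>
    have e1 := mrg_some hx
    have e2 : κ y = i := mrg_some (by rw [← h, hx])
    exact (hκ x y (by rw [e1, e2])).mono (by omega)

/-! ### The property of an approximation -/

/-- Data of an approximation without the inclusion: `P` is saturated, the classes are connected and
smaller than `d`, every class outside `P` next to `P` and next to it outside of `B` contains a point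
which is not in `U`. -/
structure Pre {ι : Type*} (R : ℤ × ℤ → ℤ × ℤ → Prop) (U P B : Set (ℤ × ℤ)) (κ : ℤ × ℤ → ι)
    (d : ℤ) : Prop where
  sat : ∀ x y, κ x = κ y → x ∈ P → y ∈ P
  cell : ∀ x y, κ x = κ y → CC R {z | κ z = κ x} x y
  diam : ∀ x y, κ x = κ y → Nr d x y
  not : ∀ f ∈ P, ∀ g, R f g → g ∉ P → g ∉ B → ∃ x, κ x = κ g ∧ x ∉ U

theorem Pre.merge {ι : Type*} {R : ℤ × ℤ → ℤ × ℤ → Prop} {U P B N : Set (ℤ × ℤ)} {κ : ℤ × ℤ → ι} {d e : ℤ}
    (h : Pre R U P (N ∪ B) κ d) (hN : ∀ x ∈ N, ∀ y ∈ N, CC R N x y)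
    (hNd : ∀ x ∈ N, ∀ y ∈ N, Nr e x y) (he : 0 ≤ e) (hNP : ∀ x ∈ N, x ∉ P)
    (hNU : ∃ x ∈ N, x ∉ U) : Pre R U P B (mrg κ N) (2 * d + e) := by
  refine ⟨?_, mrg_conn h.cell hN, mrg_diam h.diam hNd he, ?_⟩
  · intro x y hxy hx
    cases hm : mrg κ N x with
    | none =>
      obtain ⟨g, hg, hgx⟩ := mrg_none.1 hm
      exact absurd (h.sat x g hgx.symm hx) (hNP g hg)
    | some i =>
      have e1 := mrg_some hm
      have e2 : κ y = i := mrg_some (by rw [← hxy, hm])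
      exact h.sat x y (by rw [e1, e2]) hx
  · intro f hf g hfg hg hgB
    by_cases hgN : g ∈ N
    · obtain ⟨x, hx, hxU⟩ := hNU
      exact ⟨x, by rw [mrg_mem hx, mrg_mem hgN], hxU⟩
    · obtain ⟨x, hx, hxU⟩ := h.not f hf g hfg hg (fun hh => hh.elim hgN hgB)
      exact ⟨x, mrg_of_eq hx, hxU⟩

/-! ### The new classes before merging -/

section Base

variable {ι ι₂ : Type*} (R : ℤ × ℤ → ℤ × ℤ → Prop) (P P' : Set (ℤ × ℤ)) (κ : ℤ × ℤ → ι)
  (c : ℤ × ℤ → ι₂)

/-- The component of `f` in the part of its cell in `P`. -/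
def cmp (f : ℤ × ℤ) : Set (ℤ × ℤ) := {z | CC R ({z | c z = c f} ∩ P) f z}

/-- The faces of the cell of `f` outside of `P` next to the component of `f`. -/
def gate (f : ℤ × ℤ) : Set (ℤ × ℤ) := {h | h ∉ P ∧ c h = c f ∧ ∃ p ∈ cmp R P c f, R p h}

open Classical in
/-- The names of the new classes. -/
noncomputable def nm (f : ℤ × ℤ) : ι₂ ⊕ (ι ⊕ Set (ℤ × ℤ)) :=
  if f ∈ P' then Sum.inl (c f)
  else if f ∈ P then
    (if h : (gate R P c f).Nonempty then Sum.inr (Sum.inl (κ h.some))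
      else Sum.inr (Sum.inr (cmp R P c f)))
  else Sum.inr (Sum.inl (κ f))

variable {R P P' κ c}

theorem cmp_sub {f z : ℤ × ℤ} (hf : f ∈ P) (hz : z ∈ cmp R P c f) : z ∈ P ∧ c z = c f := by
  have := CC.mem (S := {z | c z = c f} ∩ P) ⟨rfl, hf⟩ hz
  exact ⟨this.2, this.1⟩

theorem self_mem_cmp {f : ℤ × ℤ} : f ∈ cmp R P c f := Relation.ReflTransGen.refl

theorem cmp_eq (hR : ∀ a b, R a b → R b a) {f z : ℤ × ℤ} (hf : f ∈ P) (hz : z ∈ cmp R P c f) :
    cmp R P c z = cmp R P c f := by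
  have h1 := cmp_sub hf hz
  have h2 : ({y | c y = c z} ∩ P : Set (ℤ × ℤ)) = {y | c y = c f} ∩ P := by rw [h1.2]
  have h3 : CC R ({y | c y = c f} ∩ P) z f := CC.symm hR ⟨rfl, hf⟩ hz
  ext x
  unfold cmp
  rw [Set.mem_ofPred_eq, Set.mem_ofPred_eq, h2]
  exact ⟨fun h => CC.trans hz h, fun h => CC.trans h3 h⟩

theorem gate_eq (hR : ∀ a b, R a b → R b a) {f z : ℤ × ℤ} (hf : f ∈ P) (hz : z ∈ cmp R P c f) :
    gate R P c z = gate R P c f := by
  unfold gate
  rw [cmp_eq hR hf hz, (cmp_sub hf hz).2]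

theorem nm_in {f : ℤ × ℤ} (hf : f ∈ P') : nm R P P' κ c f = Sum.inl (c f) := by
  unfold nm; rw [if_pos hf]

theorem nm_out {f : ℤ × ℤ} (hf : f ∉ P') (hP : f ∉ P) :
    nm R P P' κ c f = Sum.inr (Sum.inl (κ f)) := by
  unfold nm; rw [if_neg hf, if_neg hP]

theorem nm_gate {f : ℤ × ℤ} (hf : f ∉ P') (hP : f ∈ P) (h : (gate R P c f).Nonempty) :
    nm R P P' κ c f = Sum.inr (Sum.inl (κ h.some)) := by
  unfold nm; rw [if_neg hf, if_pos hP, dif_pos h]

theorem nm_cmp {f : ℤ × ℤ} (hf : f ∉ P') (hP : f ∈ P) (h : ¬ (gate R P c f).Nonempty) :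
    nm R P P' κ c f = Sum.inr (Sum.inr (cmp R P c f)) := by
  unfold nm; rw [if_neg hf, if_pos hP, dif_neg h]

/-- The name is constant on the component. -/
theorem nm_const (hR : ∀ a b, R a b → R b a) (hsat : ∀ x y, c x = c y → x ∈ P' → y ∈ P')
    {f z : ℤ × ℤ} (hf : f ∈ P) (hf' : f ∉ P') (hz : z ∈ cmp R P c f) :
    nm R P P' κ c z = nm R P P' κ c f := by
  have h1 := cmp_sub hf hz
  have hz' : z ∉ P' := fun h => hf' (hsat z f h1.2 h)
  have h2 := gate_eq hR hf hz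
  have h3 := cmp_eq hR hf hz
  have pick : ∀ (S T : Set (ℤ × ℤ)) (hS : S.Nonempty) (hT : T.Nonempty), S = T →
      hS.some = hT.some := by
    intro S T hS hT e
    subst e
    rfl
  by_cases hg : (gate R P c f).Nonempty
  · have hg' : (gate R P c z).Nonempty := by rw [h2]; exact hg
    rw [nm_gate hz' h1.1 hg', nm_gate hf' hf hg, pick _ _ hg' hg h2]
  · have hg' : ¬ (gate R P c z).Nonempty := by rw [h2]; exact hg
    rw [nm_cmp hz' h1.1 hg', nm_cmp hf' hf hg, h3]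

theorem nm_eq_inl {f : ℤ × ℤ} {a : ι₂} (h : nm R P P' κ c f = Sum.inl a) : f ∈ P' ∧ c f = a := by
  by_cases hf : f ∈ P'
  · rw [nm_in hf] at h
    exact ⟨hf, Sum.inl.inj h⟩
  · exfalso
    by_cases hP : f ∈ P
    · by_cases hg : (gate R P c f).Nonempty
      · rw [nm_gate hf hP hg] at h; exact absurd h (by simp)
      · rw [nm_cmp hf hP hg] at h; exact absurd h (by simp)
    · rw [nm_out hf hP] at h; exact absurd h (by simp)

theorem nm_eq_cmp {f : ℤ × ℤ} {S : Set (ℤ × ℤ)} (h : nm R P P' κ c f = Sum.inr (Sum.inr S)) :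
    f ∉ P' ∧ f ∈ P ∧ cmp R P c f = S := by
  by_cases hf : f ∈ P'
  · rw [nm_in hf] at h; exact absurd h (by simp)
  · by_cases hP : f ∈ P
    · by_cases hg : (gate R P c f).Nonempty
      · rw [nm_gate hf hP hg] at h; exact absurd h (by simp)
      · rw [nm_cmp hf hP hg] at h
        exact ⟨hf, hP, Sum.inr.inj (Sum.inr.inj h)⟩
    · rw [nm_out hf hP] at h; exact absurd h (by simp)

/-- A face with an old name is joined to a face of this old class outside of `P`. -/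
theorem nm_eq_old (hR : ∀ a b, R a b → R b a) (hsat : ∀ x y, c x = c y → x ∈ P' → y ∈ P')
    {f : ℤ × ℤ} {a : ι} (h : nm R P P' κ c f = Sum.inr (Sum.inl a)) :
    ∃ g, g ∉ P ∧ g ∉ P' ∧ κ g = a ∧ c g = c f ∧
      CC R {z | nm R P P' κ c z = Sum.inr (Sum.inl a)} f g := by
  by_cases hf : f ∈ P'
  · rw [nm_in hf] at h; exact absurd h (by simp)
  · by_cases hP : f ∈ P
    · by_cases hg : (gate R P c f).Nonempty
      · have h' := h
        rw [nm_gate hf hP hg] at h'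
        have e : κ hg.some = a := Sum.inl.inj (Sum.inr.inj h')
        obtain ⟨g1, g2, p, hp, hph⟩ := hg.some_mem
        have hg' : hg.some ∉ P' := fun hh => hf (hsat _ _ g2 hh)
        refine ⟨hg.some, g1, hg', e, g2, ?_⟩
        have hc1 : CC R {z | nm R P P' κ c z = Sum.inr (Sum.inl a)} f p := by
          have key : ∀ y, CC R ({z | c z = c f} ∩ P) f y →
              CC R {z | nm R P P' κ c z = Sum.inr (Sum.inl a)} f y := by
            intro y hy
            induction hy with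
            | refl => exact Relation.ReflTransGen.refl
            | @tail b d hb hs ih =>
              refine ih.tail ⟨hs.1, ?_⟩
              have hd : d ∈ cmp R P c f := Relation.ReflTransGen.tail hb hs
              rw [Set.mem_ofPred_eq, nm_const hR hsat hP hf hd, h]
          exact key p hp
        exact hc1.tail ⟨hph, by rw [Set.mem_ofPred_eq, nm_out hg' g1, e]⟩
      · rw [nm_cmp hf hP hg] at h; exact absurd h (by simp)
    · refine ⟨f, hP, hf, ?_, rfl, Relation.ReflTransGen.refl⟩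
      rw [nm_out hf hP] at h
      exact Sum.inl.inj (Sum.inr.inj h)

theorem nm_conn (hR : ∀ a b, R a b → R b a) (hsat : ∀ x y, c x = c y → x ∈ P' → y ∈ P')
    (hP : ∀ x y, κ x = κ y → x ∈ P → y ∈ P) (hκ : ∀ x y, κ x = κ y → CC R {z | κ z = κ x} x y)
    (hc : ∀ x y, c x = c y → CC R {z | c z = c x} x y) (hPP : P' ⊆ P) (x y : ℤ × ℤ)
    (h : nm R P P' κ c x = nm R P P' κ c y) :
    CC R {z | nm R P P' κ c z = nm R P P' κ c x} x y := by
  cases hx : nm R P P' κ c x with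
  | inl a =>
    obtain ⟨h1, h2⟩ := nm_eq_inl hx
    obtain ⟨h3, h4⟩ := nm_eq_inl (h ▸ hx : nm R P P' κ c y = Sum.inl a)
    refine (hc x y (by rw [h2, h4])).mono fun z hz => ?_
    have hz' : z ∈ P' := hsat x z (by rw [hz]) h1
    rw [Set.mem_ofPred_eq, nm_in hz', hz, h2]
  | inr b =>
    cases b with
    | inl a =>
      obtain ⟨g, g1, g2, g3, g4, g5⟩ := nm_eq_old hR hsat hx
      have hy : nm R P P' κ c y = Sum.inr (Sum.inl a) := h ▸ hx
      obtain ⟨k, k1, k2, k3, k4, k5⟩ := nm_eq_old hR hsat hy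
      have m1 : CC R {z | nm R P P' κ c z = Sum.inr (Sum.inl a)} g k := by
        refine (hκ g k (by rw [g3, k3])).mono fun z hz => ?_
        have hzP : z ∉ P := fun hh => g1 (hP z g hz hh)
        rw [Set.mem_ofPred_eq, nm_out (fun hh => hzP (hPP hh)) hzP, hz, g3]
      exact (g5.trans m1).trans (CC.symm hR hy k5)
    | inr S =>
      obtain ⟨h1, h2, h3⟩ := nm_eq_cmp hx
      have hy : nm R P P' κ c y = Sum.inr (Sum.inr S) := h ▸ hx
      obtain ⟨h4, h5, h6⟩ := nm_eq_cmp hy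
      have hyx : y ∈ cmp R P c x := by rw [h3, ← h6]; exact self_mem_cmp
      have key : ∀ z, CC R ({z | c z = c x} ∩ P) x z →
          CC R {z | nm R P P' κ c z = Sum.inr (Sum.inr S)} x z := by
        intro z hz
        induction hz with
        | refl => exact Relation.ReflTransGen.refl
        | @tail b d hb hs ih =>
          refine ih.tail ⟨hs.1, ?_⟩
          have hd : d ∈ cmp R P c x := Relation.ReflTransGen.tail hb hs
          rw [Set.mem_ofPred_eq, nm_const hR hsat h2 h1 hd, hx]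
      exact key y hyx

theorem nm_diam (hR : ∀ a b, R a b → R b a) (hsat : ∀ x y, c x = c y → x ∈ P' → y ∈ P')
    {d D : ℤ} (hκ : ∀ x y, κ x = κ y → Nr d x y) (hc : ∀ x y, c x = c y → Nr D x y)
    (x y : ℤ × ℤ) (h : nm R P P' κ c x = nm R P P' κ c y) : Nr (d + 2 * D) x y := by
  have hd : 0 < d := (hκ x x rfl).pos
  have hD : 0 < D := (hc x x rfl).pos
  cases hx : nm R P P' κ c x with
  | inl a =>
    obtain ⟨-, h2⟩ := nm_eq_inl hx
    obtain ⟨-, h4⟩ := nm_eq_inl (h ▸ hx : nm R P P' κ c y = Sum.inl a)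
    exact (hc x y (by rw [h2, h4])).mono (by omega)
  | inr b =>
    cases b with
    | inl a =>
      obtain ⟨g, -, -, g3, g4, -⟩ := nm_eq_old hR hsat hx
      obtain ⟨k, -, -, k3, k4, -⟩ :=
        nm_eq_old hR hsat (h ▸ hx : nm R P P' κ c y = Sum.inr (Sum.inl a))
      have := ((hc x g g4.symm).trans (hκ g k (by rw [g3, k3]))).trans (hc k y k4)
      exact this.mono (by omega)
    | inr S =>
      obtain ⟨-, h2, h3⟩ := nm_eq_cmp hx
      obtain ⟨-, -, h6⟩ := nm_eq_cmp (h ▸ hx : nm R P P' κ c y = Sum.inr (Sum.inr S))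
      have hyx : y ∈ cmp R P c x := by rw [h3, ← h6]; exact self_mem_cmp
      exact (hc x y (cmp_sub h2 hyx).2.symm).mono (by omega)

/-- **The new classes before merging.** -/
theorem pre_nm (hR : ∀ a b, R a b → R b a) {U U' N : Set (ℤ × ℤ)} {d D : ℤ}
    (h : Pre R U P ∅ κ d) (hc : ∀ x y, c x = c y → CC R {z | c z = c x} x y)
    (hcD : ∀ x y, c x = c y → Nr D x y) (hUU : U' ⊆ U) (hPP : P' ⊆ P)
    (hsat : ∀ x y, c x = c y → x ∈ P' → y ∈ P')
    (hclo : ∀ f ∈ P', ∀ g, R f g → (∀ y, c y = c g → y ∈ P) → g ∉ N → g ∈ P') :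
    Pre R U' P' N (nm R P P' κ c) (d + 2 * D) := by
  refine ⟨?_, nm_conn hR hsat h.sat h.cell hc hPP, nm_diam hR hsat h.diam hcD, ?_⟩
  · intro x y hxy hx
    rw [nm_in hx] at hxy
    exact (nm_eq_inl hxy.symm).1
  · intro f hf g hfg hg hgN
    by_cases hgP : g ∈ P
    · -- the cell of `g` is not contained in `P`
      have hno : ¬ ∀ y, c y = c g → y ∈ P := fun hh => hg (hclo f hf g hfg hh hgN)
      push Not at hno
      obtain ⟨y, hy, hyP⟩ := hno
      obtain ⟨p, k, h1, h2, h3, h4, h5⟩ := (hc g y hy.symm).exit (P := P) hgP hyP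
      have hne : (gate R P c g).Nonempty := ⟨k, h5, h4, p, h1, h3⟩
      obtain ⟨s1, s2, q, hq, hqs⟩ := hne.some_mem
      obtain ⟨x, hx1, hx2⟩ := h.not q (cmp_sub hgP hq).1 _ hqs s1 (fun hh => hh)
      have hxP : x ∉ P := fun hh => s1 (h.sat x _ hx1 hh)
      refine ⟨x, ?_, fun hh => hx2 (hUU hh)⟩
      rw [nm_gate hg hgP hne, nm_out (fun hh => hxP (hPP hh)) hxP, hx1]
    · obtain ⟨x, hx1, hx2⟩ := h.not f (hPP hf) g hfg hgP (fun hh => hh)
      have hxP : x ∉ P := fun hh => hgP (h.sat x g hx1 hh)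
      refine ⟨x, ?_, fun hh => hx2 (hUU hh)⟩
      rw [nm_out hg hgP, nm_out (fun hh => hxP (hPP hh)) hxP, hx1]

end Base

/-! ### All spots -/

/-- The names may be taken to be the classes. -/
theorem Pre.toSet {ι : Type*} {R : ℤ × ℤ → ℤ × ℤ → Prop} {U P B : Set (ℤ × ℤ)}
    {κ : ℤ × ℤ → ι} {d : ℤ} (h : Pre R U P B κ d) :
    Pre R U P B (fun f => {z | κ z = κ f}) d := by
  have key : ∀ x y : ℤ × ℤ, {z | κ z = κ x} = {z | κ z = κ y} ↔ κ x = κ y := by
    intro x y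
    constructor
    · intro hh
      have : x ∈ {z | κ z = κ y} := by rw [← hh]; rfl
      exact this
    · intro hh
      rw [hh]
  refine ⟨fun x y hxy => h.sat x y ((key x y).1 hxy), ?_, fun x y hxy => h.diam x y ((key x y).1 hxy),
    ?_⟩
  · intro x y hxy
    refine (h.cell x y ((key x y).1 hxy)).mono fun z hz => ?_
    exact (key z x).2 hz
  · intro f hf g hfg hg hgB
    obtain ⟨x, hx1, hx2⟩ := h.not f hf g hfg hg hgB
    exact ⟨x, (key x g).2 hx1, hx2⟩

/-- **Merging finitely many spots.** -/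
theorem Pre.merges {R : ℤ × ℤ → ℤ × ℤ → Prop} {U P : Set (ℤ × ℤ)} {e : ℤ} (he : 0 ≤ e)
    (L : List (Set (ℤ × ℤ))) (hN : ∀ N ∈ L, ∀ x ∈ N, ∀ y ∈ N, CC R N x y)
    (hNd : ∀ N ∈ L, ∀ x ∈ N, ∀ y ∈ N, Nr e x y) (hNP : ∀ N ∈ L, ∀ x ∈ N, x ∉ P)
    (hNU : ∀ N ∈ L, ∃ x ∈ N, x ∉ U) : ∀ {κ : ℤ × ℤ → Set (ℤ × ℤ)} {d : ℤ},
    Pre R U P {x | ∃ N ∈ L, x ∈ N} κ d →
    ∃ κ' : ℤ × ℤ → Set (ℤ × ℤ), Pre R U P ∅ κ' (2 ^ L.length * (d + e)) := by
  induction L with
  | nil =>
    intro κ d h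
    refine ⟨κ, h.sat, h.cell, fun x y hxy => (h.diam x y hxy).mono ?_, fun f hf g hfg hg _ => ?_⟩
    · simp only [List.length_nil, pow_zero, one_mul]; omega
    · exact h.not f hf g hfg hg (by rintro ⟨N, hN, -⟩; exact absurd hN (by simp))
  | cons N L ih =>
    intro κ d h
    have h1 : Pre R U P (N ∪ {x | ∃ N' ∈ L, x ∈ N'}) κ d := by
      refine ⟨h.sat, h.cell, h.diam, fun f hf g hfg hg hgB => ?_⟩
      refine h.not f hf g hfg hg ?_
      rintro ⟨N', hN', hg'⟩
      rcases List.mem_cons.1 hN' with rfl | hN'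
      · exact hgB (Or.inl hg')
      · exact hgB (Or.inr ⟨N', hN', hg'⟩)
    have h2 := (h1.merge (hN N (by simp)) (hNd N (by simp)) he (hNP N (by simp))
      (hNU N (by simp))).toSet
    obtain ⟨κ', h3⟩ := ih (fun N' hN' => hN N' (by simp [hN'])) (fun N' hN' => hNd N' (by simp [hN']))
      (fun N' hN' => hNP N' (by simp [hN'])) (fun N' hN' => hNU N' (by simp [hN'])) h2
    refine ⟨κ', h3.sat, h3.cell, fun x y hxy => (h3.diam x y hxy).mono ?_, h3.not⟩
    have hp : (0 : ℤ) < 2 ^ L.length := by positivity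
    rw [List.length_cons, pow_succ]
    nlinarith

/-- **Change of grid.** -/
theorem coarsen {ι ι₂ : Type*} {R : ℤ × ℤ → ℤ × ℤ → Prop} (hR : ∀ a b, R a b → R b a)
    {U U' P P' : Set (ℤ × ℤ)} {κ : ℤ × ℤ → ι} {c : ℤ × ℤ → ι₂} {d D e : ℤ}
    (h : Pre R U P ∅ κ d) (hc : ∀ x y, c x = c y → CC R {z | c z = c x} x y)
    (hcD : ∀ x y, c x = c y → Nr D x y) (hUU : U' ⊆ U) (hPP : P' ⊆ P)
    (hsat : ∀ x y, c x = c y → x ∈ P' → y ∈ P') (he : 0 ≤ e) (L : List (Set (ℤ × ℤ)))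
    (hN : ∀ N ∈ L, ∀ x ∈ N, ∀ y ∈ N, CC R N x y) (hNd : ∀ N ∈ L, ∀ x ∈ N, ∀ y ∈ N, Nr e x y)
    (hNP : ∀ N ∈ L, ∀ x ∈ N, x ∉ P') (hNU : ∀ N ∈ L, ∃ x ∈ N, x ∉ U')
    (hclo : ∀ f ∈ P', ∀ g, R f g → (∀ y, c y = c g → y ∈ P) → (∀ N ∈ L, g ∉ N) → g ∈ P') :
    ∃ κ' : ℤ × ℤ → Set (ℤ × ℤ), Pre R U' P' ∅ κ' (2 ^ L.length * (d + 2 * D + e)) := by
  have h1 : Pre R U' P' {x | ∃ N ∈ L, x ∈ N} (nm R P P' κ c) (d + 2 * D) :=
    pre_nm hR h hc hcD hUU hPP hsat fun f hf g hfg hg hgN =>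
      hclo f hf g hfg hg fun N hN' hgN' => hgN ⟨N, hN', hgN'⟩
  exact Pre.merges he L hN hNd hNP hNU h1.toSet

end Pool.Agent.SixB.EndApp

namespace Pool.Agent.SixB

open EndApp

theorem chn_iff_cc {S : Set (ℤ × ℤ)} {f g : ℤ × ℤ} : Chn S f g ↔ f ∈ S ∧ CC Adj S f g := Iff.rfl

theorem App.pre {ι : Type*} {U P : Set (ℤ × ℤ)} {κ : ℤ × ℤ → ι} {d : ℤ} (h : App U P κ d) :
    Pre Adj U P ∅ κ d :=
  ⟨h.sat, fun x y hxy => (h.cell x y hxy).2, h.diam, fun f hf g hfg hg _ => h.out f hf g hfg hg⟩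

theorem EndApp.Pre.app {ι : Type*} {U P : Set (ℤ × ℤ)} {κ : ℤ × ℤ → ι} {d : ℤ}
    (h : Pre Adj U P ∅ κ d) (hPU : P ⊆ U) : App U P κ d :=
  ⟨hPU, h.sat, fun x y hxy => ⟨rfl, h.cell x y hxy⟩, h.diam,
    fun f hf g hfg hg => h.not f hf g hfg hg fun hh => hh⟩

/-- **Change of grid.** `c` are the cells of the new grid, `L` the spots. -/
theorem App.coarsen {ι ι₂ : Type*} {U U' P P' : Set (ℤ × ℤ)} {κ : ℤ × ℤ → ι} {c : ℤ × ℤ → ι₂}
    {d D e : ℤ} (h : App U P κ d) (hc : ∀ x y, c x = c y → Chn {z | c z = c x} x y)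
    (hcD : ∀ x y, c x = c y → |x.1 - y.1| < D ∧ |x.2 - y.2| < D) (hUU : U' ⊆ U) (hPP : P' ⊆ P)
    (hPU : P' ⊆ U') (hsat : ∀ x y, c x = c y → x ∈ P' → y ∈ P') (he : 0 ≤ e)
    (L : List (Set (ℤ × ℤ))) (hN : ∀ N ∈ L, ∀ x ∈ N, ∀ y ∈ N, Chn N x y)
    (hNd : ∀ N ∈ L, ∀ x ∈ N, ∀ y ∈ N, |x.1 - y.1| < e ∧ |x.2 - y.2| < e)
    (hNP : ∀ N ∈ L, ∀ x ∈ N, x ∉ P') (hNU : ∀ N ∈ L, ∃ x ∈ N, x ∉ U')
    (hclo : ∀ f ∈ P', ∀ g, Adj f g → (∀ y, c y = c g → y ∈ P) → (∀ N ∈ L, g ∉ N) → g ∈ P') :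
    ∃ κ' : ℤ × ℤ → Set (ℤ × ℤ), App U' P' κ' (2 ^ L.length * (d + 2 * D + e)) := by
  obtain ⟨κ', h'⟩ := EndApp.coarsen (fun a b => adj_symm_app) h.pre
    (fun x y hxy => (hc x y hxy).2) hcD hUU hPP hsat he L (fun N hN' x hx y hy => (hN N hN' x hx y hy).2)
    hNd hNP hNU hclo
  exact ⟨κ', h'.app hPU⟩

end Pool.Agent.SixB

/-! ### Erosion -/

namespace Pool.Agent.SixB.EndApp

section Piece

variable {ι ι₂ : Type*} (R : ℤ × ℤ → ℤ × ℤ → Prop) (P P' : Set (ℤ × ℤ)) (κ : ℤ × ℤ → ι)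
  (c : ℤ × ℤ → ι₂)

/-- The faces outside of `P` next to the component of `f`. -/
def gateO (f : ℤ × ℤ) : Set (ℤ × ℤ) := {h | h ∉ P ∧ ∃ p ∈ cmp R P c f, R p h}

open Classical in
/-- The names of the new classes. -/
noncomputable def nmO (f : ℤ × ℤ) : ι₂ ⊕ (ι ⊕ Set (ℤ × ℤ)) :=
  if f ∈ P' then Sum.inl (c f)
  else if f ∈ P then
    (if h : (gateO R P c f).Nonempty then Sum.inr (Sum.inl (κ h.some))
      else Sum.inr (Sum.inr (cmp R P c f)))
  else Sum.inr (Sum.inl (κ f))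

variable {R P P' κ c}

theorem gateO_eq (hR : ∀ a b, R a b → R b a) {f z : ℤ × ℤ} (hf : f ∈ P) (hz : z ∈ cmp R P c f) :
    gateO R P c z = gateO R P c f := by
  unfold gateO
  rw [cmp_eq hR hf hz]

theorem nmO_in {f : ℤ × ℤ} (hf : f ∈ P') : nmO R P P' κ c f = Sum.inl (c f) := by
  unfold nmO; rw [if_pos hf]

theorem nmO_out {f : ℤ × ℤ} (hf : f ∉ P') (hP : f ∉ P) :
    nmO R P P' κ c f = Sum.inr (Sum.inl (κ f)) := by
  unfold nmO; rw [if_neg hf, if_neg hP]

theorem nmO_gate {f : ℤ × ℤ} (hf : f ∉ P') (hP : f ∈ P) (h : (gateO R P c f).Nonempty) :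
    nmO R P P' κ c f = Sum.inr (Sum.inl (κ h.some)) := by
  unfold nmO; rw [if_neg hf, if_pos hP, dif_pos h]

theorem nmO_cmp {f : ℤ × ℤ} (hf : f ∉ P') (hP : f ∈ P) (h : ¬ (gateO R P c f).Nonempty) :
    nmO R P P' κ c f = Sum.inr (Sum.inr (cmp R P c f)) := by
  unfold nmO; rw [if_neg hf, if_pos hP, dif_neg h]

theorem nmO_const (hR : ∀ a b, R a b → R b a) (hsat : ∀ x y, c x = c y → x ∈ P' → y ∈ P')
    {f z : ℤ × ℤ} (hf : f ∈ P) (hf' : f ∉ P') (hz : z ∈ cmp R P c f) :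
    nmO R P P' κ c z = nmO R P P' κ c f := by
  have h1 := cmp_sub hf hz
  have hz' : z ∉ P' := fun h => hf' (hsat z f h1.2 h)
  have h2 := gateO_eq hR hf hz
  have h3 := cmp_eq hR hf hz
  have pick : ∀ (S T : Set (ℤ × ℤ)) (hS : S.Nonempty) (hT : T.Nonempty), S = T →
      hS.some = hT.some := by
    intro S T hS hT e
    subst e
    rfl
  by_cases hg : (gateO R P c f).Nonempty
  · have hg' : (gateO R P c z).Nonempty := by rw [h2]; exact hg
    rw [nmO_gate hz' h1.1 hg', nmO_gate hf' hf hg, pick _ _ hg' hg h2]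
  · have hg' : ¬ (gateO R P c z).Nonempty := by rw [h2]; exact hg
    rw [nmO_cmp hz' h1.1 hg', nmO_cmp hf' hf hg, h3]

theorem nmO_eq_inl {f : ℤ × ℤ} {a : ι₂} (h : nmO R P P' κ c f = Sum.inl a) :
    f ∈ P' ∧ c f = a := by
  by_cases hf : f ∈ P'
  · rw [nmO_in hf] at h
    exact ⟨hf, Sum.inl.inj h⟩
  · exfalso
    by_cases hP : f ∈ P
    · by_cases hg : (gateO R P c f).Nonempty
      · rw [nmO_gate hf hP hg] at h; exact absurd h (by simp)
      · rw [nmO_cmp hf hP hg] at h; exact absurd h (by simp)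
    · rw [nmO_out hf hP] at h; exact absurd h (by simp)

theorem nmO_eq_cmp {f : ℤ × ℤ} {S : Set (ℤ × ℤ)} (h : nmO R P P' κ c f = Sum.inr (Sum.inr S)) :
    f ∉ P' ∧ f ∈ P ∧ cmp R P c f = S := by
  by_cases hf : f ∈ P'
  · rw [nmO_in hf] at h; exact absurd h (by simp)
  · by_cases hP : f ∈ P
    · by_cases hg : (gateO R P c f).Nonempty
      · rw [nmO_gate hf hP hg] at h; exact absurd h (by simp)
      · rw [nmO_cmp hf hP hg] at h
        exact ⟨hf, hP, Sum.inr.inj (Sum.inr.inj h)⟩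
    · rw [nmO_out hf hP] at h; exact absurd h (by simp)

/-- A face with an old name is joined to a face of this old class outside of `P`; it is this face or
next to its piece. -/
theorem nmO_eq_old (hR : ∀ a b, R a b → R b a) (hsat : ∀ x y, c x = c y → x ∈ P' → y ∈ P')
    (hPP : P' ⊆ P) {f : ℤ × ℤ} {a : ι} (h : nmO R P P' κ c f = Sum.inr (Sum.inl a)) :
    ∃ g, g ∉ P ∧ κ g = a ∧ (g = f ∨ ∃ p ∈ cmp R P c f, f ∈ P ∧ R p g) ∧
      CC R {z | nmO R P P' κ c z = Sum.inr (Sum.inl a)} f g := by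
  by_cases hf : f ∈ P'
  · rw [nmO_in hf] at h; exact absurd h (by simp)
  · by_cases hP : f ∈ P
    · by_cases hg : (gateO R P c f).Nonempty
      · have h' := h
        rw [nmO_gate hf hP hg] at h'
        have e : κ hg.some = a := Sum.inl.inj (Sum.inr.inj h')
        obtain ⟨g1, p, hp, hph⟩ := hg.some_mem
        refine ⟨hg.some, g1, e, Or.inr ⟨p, hp, hP, hph⟩, ?_⟩
        have hc1 : CC R {z | nmO R P P' κ c z = Sum.inr (Sum.inl a)} f p := by
          have key : ∀ y, CC R ({z | c z = c f} ∩ P) f y →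
              CC R {z | nmO R P P' κ c z = Sum.inr (Sum.inl a)} f y := by
            intro y hy
            induction hy with
            | refl => exact Relation.ReflTransGen.refl
            | @tail b d hb hs ih =>
              refine ih.tail ⟨hs.1, ?_⟩
              have hd : d ∈ cmp R P c f := Relation.ReflTransGen.tail hb hs
              rw [Set.mem_ofPred_eq, nmO_const hR hsat hP hf hd, h]
          exact key p hp
        exact hc1.tail ⟨hph, by
          rw [Set.mem_ofPred_eq, nmO_out (fun hh => g1 (hPP hh)) g1, e]⟩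
      · rw [nmO_cmp hf hP hg] at h; exact absurd h (by simp)
    · rw [nmO_out hf hP] at h
      exact ⟨f, hP, Sum.inl.inj (Sum.inr.inj h), Or.inl rfl, Relation.ReflTransGen.refl⟩

/-- **Removing pieces which touch the outside.** `c` cuts `P` into pieces; every piece outside of `P'`
next to `P'` and outside of `N` touches the complement of `P`. -/
theorem pre_nmO (hR : ∀ a b, R a b → R b a) (hR1 : ∀ a b, R a b → Nr 2 a b)
    {U U' N : Set (ℤ × ℤ)} {d M : ℤ}
    (h : Pre R U P ∅ κ d) (hUU : U' ⊆ U) (hPP : P' ⊆ P)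
    (hsat : ∀ x y, c x = c y → x ∈ P' → y ∈ P')
    (hc : ∀ x ∈ P', ∀ y, c x = c y → CC R {z | c z = c x} x y)
    (hM0 : 0 < M) (hM : ∀ x ∈ P, ∀ y ∈ P, c x = c y → Nr M x y)
    (hclo : ∀ f ∈ P', ∀ g ∈ P, R f g → g ∉ P' → g ∉ N → ∃ p ∈ cmp R P c g, ∃ k, R p k ∧ k ∉ P) :
    Pre R U' P' N (nmO R P P' κ c) (d + 2 * M + 2) := by
  have hsatc : ∀ x y, c x = c y → x ∈ P' → y ∈ P' := hsat
  refine ⟨?_, ?_, ?_, ?_⟩
  · intro x y hxy hx
    rw [nmO_in hx] at hxy
    exact (nmO_eq_inl hxy.symm).1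
  · intro x y hxy
    cases hx : nmO R P P' κ c x with
    | inl a =>
      obtain ⟨h1, h2⟩ := nmO_eq_inl hx
      obtain ⟨h3, h4⟩ := nmO_eq_inl (hxy ▸ hx : nmO R P P' κ c y = Sum.inl a)
      refine (hc x h1 y (by rw [h2, h4])).mono fun z hz => ?_
      have hz' : z ∈ P' := hsatc x z (by rw [hz]) h1
      rw [Set.mem_ofPred_eq, nmO_in hz', hz, h2]
    | inr b =>
      cases b with
      | inl a =>
        obtain ⟨g, g1, g3, -, g5⟩ := nmO_eq_old hR hsatc hPP hx
        have hy : nmO R P P' κ c y = Sum.inr (Sum.inl a) := hxy ▸ hx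
        obtain ⟨k, k1, k3, -, k5⟩ := nmO_eq_old hR hsatc hPP hy
        have m1 : CC R {z | nmO R P P' κ c z = Sum.inr (Sum.inl a)} g k := by
          refine (h.cell g k (by rw [g3, k3])).mono fun z hz => ?_
          have hzP : z ∉ P := fun hh => g1 (h.sat z g hz hh)
          rw [Set.mem_ofPred_eq, nmO_out (fun hh => hzP (hPP hh)) hzP, hz, g3]
        exact (g5.trans m1).trans (CC.symm hR hy k5)
      | inr S =>
        obtain ⟨h1, h2, h3⟩ := nmO_eq_cmp hx
        have hy : nmO R P P' κ c y = Sum.inr (Sum.inr S) := hxy ▸ hx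
        obtain ⟨h4, h5, h6⟩ := nmO_eq_cmp hy
        have hyx : y ∈ cmp R P c x := by rw [h3, ← h6]; exact self_mem_cmp
        have key : ∀ z, CC R ({z | c z = c x} ∩ P) x z →
            CC R {z | nmO R P P' κ c z = Sum.inr (Sum.inr S)} x z := by
          intro z hz
          induction hz with
          | refl => exact Relation.ReflTransGen.refl
          | @tail b d hb hs ih =>
            refine ih.tail ⟨hs.1, ?_⟩
            have hd : d ∈ cmp R P c x := Relation.ReflTransGen.tail hb hs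
            rw [Set.mem_ofPred_eq, nmO_const hR hsatc h2 h1 hd, hx]
        exact key y hyx
  · intro x y hxy
    have hd : 0 < d := (h.diam x x rfl).pos
    -- the distance to the old face
    have near : ∀ {f g : ℤ × ℤ}, (g = f ∨ ∃ p ∈ cmp R P c f, f ∈ P ∧ R p g) →
        Nr (max M 0 + 1) f g := by
      intro f g hfg
      rcases hfg with rfl | ⟨p, hp, hfP, hpg⟩
      · unfold Nr
        simp only [sub_self, abs_zero]
        omega
      · have h1 := hM f hfP p (cmp_sub hfP hp).1 (cmp_sub hfP hp).2.symm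
        have h2 := hR1 p g hpg
        have h3 := h1.pos
        unfold Nr at *
        simp only [abs_lt] at *
        omega
    have hMpos : ∀ f ∈ P, 0 < M := fun f hf => (hM f hf f hf rfl).pos
    cases hx : nmO R P P' κ c x with
    | inl a =>
      obtain ⟨h1, h2⟩ := nmO_eq_inl hx
      obtain ⟨h3, h4⟩ := nmO_eq_inl (hxy ▸ hx : nmO R P P' κ c y = Sum.inl a)
      have := hMpos x (hPP h1)
      exact (hM x (hPP h1) y (hPP h3) (by rw [h2, h4])).mono (by omega)
    | inr b =>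
      cases b with
      | inl a =>
        obtain ⟨g, -, g3, g4, -⟩ := nmO_eq_old hR hsatc hPP hx
        obtain ⟨k, -, k3, k4, -⟩ :=
          nmO_eq_old hR hsatc hPP (hxy ▸ hx : nmO R P P' κ c y = Sum.inr (Sum.inl a))
        have hgk := h.diam g k (by rw [g3, k3])
        have := ((near g4).trans hgk).trans (near k4).symm
        exact this.mono (by omega)
      | inr S =>
        obtain ⟨-, h2, h3⟩ := nmO_eq_cmp hx
        obtain ⟨-, h5, h6⟩ := nmO_eq_cmp (hxy ▸ hx : nmO R P P' κ c y = Sum.inr (Sum.inr S))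
        have hyx : y ∈ cmp R P c x := by rw [h3, ← h6]; exact self_mem_cmp
        have := hMpos x h2
        exact (hM x h2 y h5 (cmp_sub h2 hyx).2.symm).mono (by omega)
  · intro f hf g hfg hg hgN
    by_cases hgP : g ∈ P
    · obtain ⟨p, hp, k, hpk, hk⟩ := hclo f hf g hgP hfg hg hgN
      have hne : (gateO R P c g).Nonempty := ⟨k, hk, p, hp, hpk⟩
      obtain ⟨s1, q, hq, hqs⟩ := hne.some_mem
      obtain ⟨x, hx1, hx2⟩ := h.not q (cmp_sub hgP hq).1 _ hqs s1 (fun hh => hh)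
      have hxP : x ∉ P := fun hh => s1 (h.sat x _ hx1 hh)
      refine ⟨x, ?_, fun hh => hx2 (hUU hh)⟩
      rw [nmO_gate hg hgP hne, nmO_out (fun hh => hxP (hPP hh)) hxP, hx1]
    · obtain ⟨x, hx1, hx2⟩ := h.not f (hPP hf) g hfg hgP (fun hh => hh)
      have hxP : x ∉ P := fun hh => hgP (h.sat x g hx1 hh)
      refine ⟨x, ?_, fun hh => hx2 (hUU hh)⟩
      rw [nmO_out hg hgP, nmO_out (fun hh => hxP (hPP hh)) hxP, hx1]

end Piece

/-- The faces whose cell is contained in `P`. -/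
def er0 {ι₂ : Type*} (c : ℤ × ℤ → ι₂) (P : Set (ℤ × ℤ)) : Set (ℤ × ℤ) := {f | ∀ y, c y = c f → y ∈ P}

/-- The faces of `S` whose cell has no neighbour outside of `S`. -/
def er {ι₂ : Type*} (R : ℤ × ℤ → ℤ × ℤ → Prop) (c : ℤ × ℤ → ι₂) (S : Set (ℤ × ℤ)) : Set (ℤ × ℤ) :=
  {f | f ∈ S ∧ ∀ y, c y = c f → ∀ z, R y z → z ∈ S}

section Erode

variable {ι ι₂ : Type*} {R : ℤ × ℤ → ℤ × ℤ → Prop} {U U' P P' S : Set (ℤ × ℤ)} {κ : ℤ × ℤ → ι}
  {c : ℤ × ℤ → ι₂} {d D : ℤ}

theorem er0_sat (x y : ℤ × ℤ) (h : c x = c y) (hx : x ∈ er0 c P) : y ∈ er0 c P :=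
  fun z hz => hx z (by rw [hz, h])

theorem er0_sub : er0 c P ⊆ P := fun x hx => hx x rfl

theorem er_sub : er R c S ⊆ S := fun _ hx => hx.1

theorem er_sat (hS : ∀ x y, c x = c y → x ∈ S → y ∈ S) (x y : ℤ × ℤ) (h : c x = c y)
    (hx : x ∈ er R c S) : y ∈ er R c S :=
  ⟨hS x y h hx.1, fun z hz => hx.2 z (by rw [hz, h])⟩

/-- The first step. -/
theorem pre_er0 (hR : ∀ a b, R a b → R b a) (hR1 : ∀ a b, R a b → Nr 2 a b)
    (h : Pre R U P ∅ κ d) (hc : ∀ x y, c x = c y → CC R {z | c z = c x} x y)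
    (hcD : ∀ x y, c x = c y → Nr D x y) (hUU : U' ⊆ U) :
    Pre R U' (er0 c P) ∅ (nmO R P (er0 c P) κ c) (d + 2 * D + 2) := by
  refine pre_nmO hR hR1 h hUU er0_sub er0_sat (fun x _ y hxy => hc x y hxy)
    (hcD (0, 0) (0, 0) rfl).pos (fun x _ y _ hxy => hcD x y hxy) ?_
  intro f hf g hg hfg hgn _
  have : ¬ ∀ y, c y = c g → y ∈ P := hgn
  push Not at this
  obtain ⟨y, hy, hyP⟩ := this
  obtain ⟨p, k, h1, h2, h3, h4, h5⟩ := (hc g y hy.symm).exit (P := P) hg hyP
  exact ⟨p, h1, k, h3, h5⟩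

/-- The next steps. -/
theorem pre_peel (hR : ∀ a b, R a b → R b a) (hR1 : ∀ a b, R a b → Nr 2 a b)
    (h : Pre R U S ∅ κ d) (hc : ∀ x y, c x = c y → CC R {z | c z = c x} x y)
    (hcD : ∀ x y, c x = c y → Nr D x y) (hUU : U' ⊆ U) (hS : ∀ x y, c x = c y → x ∈ S → y ∈ S)
    (hPS : P' ⊆ S) (hsat : ∀ x y, c x = c y → x ∈ P' → y ∈ P')
    (hclo : ∀ f ∈ P', ∀ g ∈ er R c S, R f g → g ∈ P') :
    Pre R U' P' ∅ (nmO R S P' κ c) (d + 2 * D + 2) := by
  refine pre_nmO hR hR1 h hUU hPS hsat (fun x _ y hxy => hc x y hxy)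
    (hcD (0, 0) (0, 0) rfl).pos (fun x _ y _ hxy => hcD x y hxy) ?_
  intro f hf g hg hfg hgn _
  have h1 : g ∉ er R c S := fun hh => hgn (hclo f hf g hh hfg)
  have h2 : ¬ ∀ y, c y = c g → ∀ z, R y z → z ∈ S := fun hh => h1 ⟨hg, hh⟩
  push Not at h2
  obtain ⟨y, hy, z, hyz, hzS⟩ := h2
  refine ⟨y, ?_, z, hyz, hzS⟩
  refine CC.mono ?_ (hc g y hy.symm)
  intro w hw
  exact ⟨hw, hS g w (show c g = c w from hw.symm) hg⟩

/-- **Erosion.** -/
theorem pre_erode (hR : ∀ a b, R a b → R b a) (hR1 : ∀ a b, R a b → Nr 2 a b)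
    (h : Pre R U P ∅ κ d) (hc : ∀ x y, c x = c y → CC R {z | c z = c x} x y)
    (hcD : ∀ x y, c x = c y → Nr D x y) (hUU : U' ⊆ U)
    (hPS : P' ⊆ er R c (er R c (er0 c P))) (hsat : ∀ x y, c x = c y → x ∈ P' → y ∈ P')
    (hclo : ∀ f ∈ P', ∀ g ∈ er R c (er R c (er0 c P)), R f g → g ∈ P') :
    ∃ κ' : ℤ × ℤ → Set (ℤ × ℤ), Pre R U' P' ∅ κ' (d + 6 * D + 6) := by
  have h1 := (pre_er0 hR hR1 h hc hcD hUU).toSet
  have s1 : ∀ x y, c x = c y → x ∈ er R c (er0 c P) → y ∈ er R c (er0 c P) := er_sat er0_sat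
  have h2 := (pre_peel hR hR1 h1 hc hcD (subset_refl U') er0_sat er_sub s1
    (fun f hf g hg _ => hg)).toSet
  have h3 := (pre_peel hR hR1 h2 hc hcD (subset_refl U') s1 (hPS.trans er_sub) hsat hclo).toSet
  exact ⟨_, h3.sat, h3.cell, fun x y hxy => (h3.diam x y hxy).mono (by omega), h3.not⟩

end Erode

end Pool.Agent.SixB.EndApp

namespace Pool.Agent.SixB

open EndApp

/-- The faces whose cell, and all cells at side distance at most two from it, lie in `P`. -/
def er3 {ι₂ : Type*} (c : ℤ × ℤ → ι₂) (P : Set (ℤ × ℤ)) : Set (ℤ × ℤ) := er Adj c (er Adj c (er0 c P))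

/-- **Erosion at the use of a component.** `c` are the cells of the new grid; `P'` is a union of
components of the set of the cells of distance two from the complement of `P`. -/
theorem App.erodeC {ι ι₂ : Type*} {U U' P P' : Set (ℤ × ℤ)} {κ : ℤ × ℤ → ι} {c : ℤ × ℤ → ι₂}
    {d D : ℤ} (h : App U P κ d) (hc : ∀ x y, c x = c y → Chn {z | c z = c x} x y)
    (hcD : ∀ x y, c x = c y → |x.1 - y.1| < D ∧ |x.2 - y.2| < D) (hUU : U' ⊆ U)
    (hPS : P' ⊆ er3 c P) (hPU : P' ⊆ U')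
    (hsat : ∀ x y, c x = c y → x ∈ P' → y ∈ P')
    (hclo : ∀ f ∈ P', ∀ g ∈ er3 c P, Adj f g → g ∈ P') :
    ∃ κ' : ℤ × ℤ → Set (ℤ × ℤ), App U' P' κ' (d + 6 * D + 6) := by
  have hR1 : ∀ a b : ℤ × ℤ, Adj a b → Nr 2 a b := by
    intro a b hab
    unfold Adj at hab
    unfold Nr
    simp only [abs_lt]
    omega
  obtain ⟨κ', h'⟩ := pre_erode (fun a b => adj_symm_app) hR1 h.pre
    (fun x y hxy => (hc x y hxy).2) hcD hUU hPS hsat hclo
  exact ⟨κ', h'.app hPU⟩

end Pool.Agent.SixB
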