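import Pool.Agent.Lib.SixB.S8End
import Pool.Agent.Lib.SixB.S8DispMov

/-!
# Step 8: the last stage of a needle

* `end_chain`: if the coarse state does not run after a stage, then this stage is the end of the step:
  the entered piece contains the face at the target side.
* `last_chain`: the strand stays near the coarse tip from the beginning of the last stage until it is back
  at its first side. This is the hypothesis `hlast` of `nearT_pieces`.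
-/

set_option autoImplicit false

namespace Pool.Agent.SixB.Tru

open Finset Pool.Agent.Perc Pool.Agent.Perc6 Pool.Agent.PercT Pool.Agent.Perc6.C2Aux
open Pool.Agent.SixB Pool.Agent.SixB.Rule Pool.Agent.SixB.Dct Pool.Agent.SixB.Mv
open Pool.Agent.SixB.Blow (subE lf_subE_zero)
open Pool.Agent.SixB.Top (compT ChI lf rg)
open Pool.Agent.SixB.NearCut (Nb)
open Pool.Agent.SixB.TipCv (up inB_sd nearR_end)
open Pool.Agent.SixB.Ndle (sd sd_triangle sd_comm)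
open Pool.Agent.Perc.Tips

variable {𝔇 : Dat} {d : ℕ → ℕ} {n i K : ℕ} {ω : Cfg} {C c₀ : ℤ} {q : Rule.Ndl} {D : Dom}
  {wd D₁ ρ R B T : ℤ} {r' : ℝ}

/-- **The stage after which the coarse state does not run is the end of the step.** -/
theorem end_chain (hNO : NumO d n (i + 1) (rad C (unt d n) d (i + 1))) (hR : ω ∉ Dead C 𝔇 d n i)
    (hq : (tst 𝔇 d n ω i).q = some q) (hD : (𝔇.cs d (tst 𝔇 d n ω i).x).run = some D)
    (hi : (𝔇.cs d (tst 𝔇 d n ω i).x).ini = false)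
    (hend : (𝔇.cs d (tst 𝔇 d n ω (i + 1)).x).run = none) :
    D.Val (𝔇.gr d (tst 𝔇 d n ω i).x D) ∧
      D.RecOk (𝔇.gr d (tst 𝔇 d n ω i).x D) (mvR 𝔇 d n (tst 𝔇 d n ω i) q D false ω) ∧
      D.End (𝔇.gr d (tst 𝔇 d n ω i).x D) (mvR 𝔇 d n (tst 𝔇 d n ω i) q D false ω) := by
  rw [← tst_len 𝔇 d n ω i] at hNO
  have hxs : (𝔇.cs d (mvR 𝔇 d n (tst 𝔇 d n ω i) q D false ω :: (tst 𝔇 d n ω i).x)).run =
      none := by
    obtain ⟨D₁, hD₁, hst⟩ := tst_run hq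
    have hDD : D₁ = D := Option.some.inj (hD₁.symm.trans hD)
    subst hDD
    rw [hst, hi, finS_x] at hend
    exact hend
  by_cases hv : D.Void (𝔇.gr d (tst 𝔇 d n ω i).x D)
  · have hval : D.Val (𝔇.gr d (tst 𝔇 d n ω i).x D) := val_gr hD (msh_pos _ _) hNO.h16
    refine ⟨hval, Dom.recOk_void hv, ?_⟩
    by_contra hE
    have h1 := (cs_next hD hi hE (hval.ok_next (Dom.recOk_void hv) hE
      (hval.esc_void_rest hNO.hu hv))).1
    rw [hxs] at h1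
    exact absurd h1 (by simp)
  · obtain ⟨κ, m, x, i₁, j₁, t, j₂, i₂, X, σ, hσ⟩ := exists_regS hR hq hD hi hv
    obtain ⟨-, RR⟩ := X.rg (stO_tst hq) hNO hv hσ
    refine ⟨RR.val, RR.rok, ?_⟩
    by_contra hE
    have h1 := (cs_next hD hi hE (RR.ok hE)).1
    rw [hxs] at h1
    exact absurd h1 (by simp)

/-- **The strand stays near the tip in the last stage** of a needle and until it is back at its first
side. The hypotheses are the ones of `mov_chain` and of `end_box` (centre: the first vertex of the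
strand). -/
theorem last_chain (hN : ∀ j ≤ i, NumO d n (j + 1) (rad C (unt d n) d (j + 1)))
    (hR : ∀ j ≤ i, ω ∉ Dead C 𝔇 d n j) (hV : ∀ j ≤ i, InvV C 𝔇 d n j ω)
    (hq : (tst 𝔇 d n ω i).q = some q) (hD : (𝔇.cs d (tst 𝔇 d n ω i).x).run = some D)
    (hi : (𝔇.cs d (tst 𝔇 d n ω i).x).ini = false)
    (hend : (𝔇.cs d (tst 𝔇 d n ω (i + 1)).x).run = none)
    (hNb : NbI C 𝔇 d n i (tst 𝔇 d n ω i) ω) (hI : HkI c₀ K d n i (tst 𝔇 d n ω i) ω)
    (hE : EnvS Bs (tst 𝔇 d n ω i) q wd D₁ ρ R ω)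
    (haway : ¬ D.Void (𝔇.gr d (tst 𝔇 d n ω i).x D) → ∀ κ m x i₁ j₁ t₀ j₂ i₂ σ,
      RunI 𝔇 d n (rad C (unt d n) d (tst 𝔇 d n ω i).x.length) (tst 𝔇 d n ω i) ω q D κ m x
        i₁ j₁ t₀ j₂ i₂ →
      D.regS (𝔇.gr d (tst 𝔇 d n ω i).x D) (unt d n) (uS (tst 𝔇 d n ω i) q ω) κ
        (pS (tst 𝔇 d n ω i).V q ω (tst 𝔇 d n ω i).t) (cfS (tst 𝔇 d n ω i).V q ω) σ →
      ∀ t, (tst 𝔇 d n ω i).t ≤ t → t < (tst 𝔇 d n ω i).t + σ →
      Nb (cfS (tst 𝔇 d n ω i).V q ω) (Tru.eS (tst 𝔇 d n ω i).V q) t →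
      (∀ j, ¬ (exS (tst 𝔇 d n ω i).V q).Gate ω t (vert (blow (unt d n : ℤ)
        (D.inr (𝔇.gr d (tst 𝔇 d n ω i).x D))) (subE (unt d n) D.A 0) j) wd) →
      ∃ f ∈ blow (unt d n : ℤ) (D.inr (𝔇.gr d (tst 𝔇 d n ω i).x D)),
        sd (ua (pS (tst 𝔇 d n ω i).V q ω t)) f ≤ 2)
    (hr : rad C (unt d n) d (tst 𝔇 d n ω i).x.length ≤ B)
    (hb : unt d n * ((𝔇.gr d (tst 𝔇 d n ω i).x D).L *
      ((𝔇.gr d (tst 𝔇 d n ω i).x D).M + 1)) ≤ B)
    (hW : 5 * wd + 2 * (c₀ * Sc.ls d n (d i)) + 8 * unt d n + 16 ≤ D₁)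
    (hT : T + B + 1 ≤ ρ) (hDT : D₁ + B + 2 ≤ T) (hD0 : 0 ≤ D₁) (hρR : ρ ≤ R)
    (hr1 : ((R + T : ℤ) : ℝ) ≤ r') (hr2 : ((D₁ + B + 2 : ℤ) : ℝ) ≤ r')
    {P : Set (ℤ × ℤ)} {y₀ a₀ zt : ℤ × ℤ} {r₀ l₀ c₁ d₀ s₀ t₀ k₀ k₁ : ℤ}
    (hNd : StartA.Ndl P (QF q.1) y₀ a₀ zt r₀ l₀ c₁ d₀) (hPF : P ⊆ FU (tst 𝔇 d n ω i).V)
    (hds : d₀ ≤ s₀) (hsr : s₀ < r₀) (ht₀ : 2 * s₀ + c₁ + 2 ≤ t₀)
    (hz : LC.InB y₀ k₀ (ua (Tru.eS (tst 𝔇 d n ω i).V q))) (hk₀ : t₀ + 2 + k₀ ≤ ρ - 3)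
    (hbc : ahead (subE (unt d n) D.B 0) ∈ compT (FU (tst 𝔇 d n ω i).V \ QF q.1) zt)
    (hbz : LC.InB (lf (subE (unt d n) D.B 0)) k₁ (ua (Tru.eS (tst 𝔇 d n ω i).V q)))
    (hk₁ : k₁ + rad C (unt d n) d (i + 1) + 4 * (unt d n * msh d (i + 1)) + 5 ≤ ρ)
    (hr3 : ((R + k₁ + B : ℤ) : ℝ) ≤ r') :
    (tst 𝔇 d n ω i).t ≤ perS n ω (tst 𝔇 d n ω i).V q ∧
      ∀ t, (tst 𝔇 d n ω i).t ≤ t → t ≤ perS n ω (tst 𝔇 d n ω i).V q →
        NearR d n ω r' (tst 𝔇 d n ω i).V q D.tip t := by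
  have hNi := hN i le_rfl
  have hNO : NumO d n (tst 𝔇 d n ω i).x.length
      (rad C (unt d n) d (tst 𝔇 d n ω i).x.length) := by
    rw [tst_len]
    exact hNi
  have hu : (0 : ℤ) < unt d n := by exact_mod_cast hNO.hu
  have hLp : 0 < (unt d n : ℤ) * msh d (i + 1) := mul_pos hu (msh_pos _ _)
  obtain ⟨v1, v2, v3⟩ := end_chain hNi (hR i le_rfl) hq hD hi hend
  refine ⟨(t_lt_runV (hV i le_rfl) hq hD hi).le, fun t ht1 ht2 => ?_⟩
  rcases Nat.lt_or_ge t (mvT 𝔇 d n (tst 𝔇 d n ω i) q D false ω) with hlt | hge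
  · -- before the stop
    by_cases hv : D.Void (𝔇.gr d (tst 𝔇 d n ω i).x D)
    · rw [mvT_void hv] at hlt
      omega
    · rw [mvT_reg hv] at hlt
      exact mov_chain hq hD hi hv (hR i le_rfl) hNb hI hNO hE (haway hv) hr hb hW hT hDT hD0
        hr1 hr2 t ht1 hlt.le
  · -- after the stop
    have hbz' : |(ahead (subE (unt d n) D.B 0)).1 - (ua (Tru.eS (tst 𝔇 d n ω i).V q)).1| ≤
          k₁ + 1 ∧
        |(ahead (subE (unt d n) D.B 0)).2 - (ua (Tru.eS (tst 𝔇 d n ω i).V q)).2| ≤ k₁ + 1 := by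
      have h1 := InvN.lf_bd (subE (unt d n) D.B 0)
      unfold LC.InB at hbz
      rw [abs_le, abs_le]
      omega
    have hr0 : 0 ≤ rad C (unt d n) d (i + 1) := by
      have h1 := hV i le_rfl
      rcases h1 q D hq hD hi with ⟨κ, m, x, i₁, j₁, t, j₂, i₂, X⟩ | ⟨κ, m, x, X⟩
      · have := X.app.d_pos
        rw [tst_len] at this
        omega
      · have := X.app.d_pos
        rw [tst_len] at this
        omega
    have hbox : InB (ua (Tru.eS (tst 𝔇 d n ω i).V q)) R (pS (tst 𝔇 d n ω i).V q ω t) := by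
      refine end_box hN hR hV hq hD hi hend (hNb q D hq hD hi) (ρ := ρ) hE.base hρR hNd hPF hds
        hsr ht₀ hz hk₀ hbc hbz' ?_ t hge ht2
      rw [tst_len]
      have h1 : max (rad C (unt d n) d (i + 1)) (max (rad C (unt d n) d (i + 1))
          (2 * ((unt d n : ℤ) * msh d (i + 1))) + 2 * (unt d n * msh d (i + 1))) ≤
          rad C (unt d n) d (i + 1) + 4 * (unt d n * msh d (i + 1)) := by
        refine max_le (by omega) ?_
        have h2 : max (rad C (unt d n) d (i + 1)) (2 * ((unt d n : ℤ) * msh d (i + 1))) ≤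
            rad C (unt d n) d (i + 1) + 2 * (unt d n * msh d (i + 1)) :=
          max_le (by omega) (by omega)
        omega
      omega
    refine TipCv.NearR.mono' (nearR_end (k := k₁) v1 v2 v3 ?_ hbox) (le_trans ?_ hr3)
    · have h1 : up d n (lf D.B) = lf (subE (unt d n) D.B 0) := by
        rw [lf_subE_zero]
        rfl
      rw [h1, sd_comm]
      exact lcInB_sd.1 hbz
    · have h2 : (unt d n : ℤ) * (((𝔇.gr d (tst 𝔇 d n ω i).x D).M + 1) *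
          (𝔇.gr d (tst 𝔇 d n ω i).x D).L) ≤ B := by
        rw [mul_comm ((𝔇.gr d (tst 𝔇 d n ω i).x D).M + 1)]
        exact hb
      have h3 : R + (k₁ + unt d n * (((𝔇.gr d (tst 𝔇 d n ω i).x D).M + 1) *
          (𝔇.gr d (tst 𝔇 d n ω i).x D).L)) ≤ R + k₁ + B := by omega
      exact_mod_cast h3

end Pool.Agent.SixB.Tru
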