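import Pool.Agent.Lib.SixB.S8FinI
import Pool.Agent.Lib.SixB.S8PlantOk

/-!
# Step 8: the coarse invariant along the true chain

If the removed sets of the stages `j < i` with a running domain make no holes (`EscS`) then the coarse
state before the stage `i` has the invariant `CSt.Inv` (`inv_sgm`), and every active target of the
history gives a disc with two sides (`stH_ts`, the hypothesis of `cover`).
-/

set_option autoImplicit false

namespace Pool.Agent.SixB.Cov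

open Pool.Agent.Perc Pool.Agent.Perc6 Pool.Agent.PercT Pool.Agent.PercX60
open Pool.Agent.SixB Pool.Agent.SixB.Rule Pool.Agent.SixB.Dct Pool.Agent.SixB.Mv
open Pool.Agent.SixB.Tru
open Pool.Agent.SixB.Top (compT)

variable {𝔇 : Dat} {d : ℕ → ℕ} {n : ℕ} {ω : Cfg}

/-- The removed set of the stage `j` makes no holes. -/
def EscS (𝔇 : Dat) (d : ℕ → ℕ) (n : ℕ) (ω : Cfg) (j : ℕ) : Prop :=
  ∀ s, (sgm 𝔇 d n ω j).run = some s → (sgm 𝔇 d n ω j).ini = false →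
    Esc (s.P \ s.rem (𝔇.gr d (TruR.ts 𝔇 d n ω j).x s) (recS 𝔇 d n j ω))

/-- The histories are the suffixes of the last one. -/
theorem suffix_ts {i : ℕ} {ρ : Rec} {y : List Rec} (h : ρ :: y <:+ (TruR.ts 𝔇 d n ω i).x) :
    ∃ j < i, y = (TruR.ts 𝔇 d n ω j).x ∧ ρ = recS 𝔇 d n j ω := by
  induction i with
  | zero =>
    have h1 := h.length_le
    rw [ts_len] at h1
    simp at h1
  | succ i ih =>
    rw [ts_x] at h
    rcases List.suffix_cons_iff.1 h with h1 | h1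
    · rw [List.cons.injEq] at h1
      exact ⟨i, by omega, h1.2, h1.1⟩
    · obtain ⟨j, hj, h2⟩ := ih h1
      exact ⟨j, by omega, h2⟩

theorem escH_ts {i : ℕ} (h : ∀ j < i, EscS 𝔇 d n ω j) :
    EscH (𝔇.prm d) d (𝔇.W₀ (d 0)) (TruR.ts 𝔇 d n ω i).x := by
  intro ρ y hy s hs hi
  obtain ⟨j, hj, rfl, rfl⟩ := suffix_ts hy
  have h1 := h j hj s hs hi
  rw [gr_ts] at h1
  rw [ts_len]
  exact h1

/-- **The invariant of the coarse state along the chain.** -/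
theorem inv_sgm {K i : ℕ} (hπ : Clr (𝔇.prm d) K) (hW : (𝔇.W₀ (d 0)).Finite)
    (hWe : ∀ f ∈ 𝔇.W₀ (d 0), Esc (compT (𝔇.W₀ (d 0)) f)) (hd : ∀ j < i, 0 < j → d j + 4 ≤ d 0)
    (h : ∀ j < i, EscS 𝔇 d n ω j) : (sgm 𝔇 d n ω i).Inv :=
  inv_cst hπ hW hWe (by rw [ts_len]; exact hd) (escH_ts h)

theorem stH_ts {K i : ℕ} (hπ : Clr (𝔇.prm d) K) (hW : (𝔇.W₀ (d 0)).Finite)
    (hWe : ∀ f ∈ 𝔇.W₀ (d 0), Esc (compT (𝔇.W₀ (d 0)) f)) (hd : ∀ j < i, 0 < j → d j + 4 ≤ d 0)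
    (h : ∀ j < i, EscS 𝔇 d n ω j) :
    StH (𝔇.prm d) d (𝔇.W₀ (d 0)) (TruR.ts 𝔇 d n ω i).x :=
  stH_cst hπ hW hWe (by rw [ts_len]; exact hd) (escH_ts h)

/-! ### The data of the chain -/

theorem clr_datC {K kap : ℕ} (h : 1 ≤ Hook.ndL K (d 0)) :
    Clr ((datC K kap).prm d) (Hook.ndL K (d 0)) := clr_prmC h

theorem esc_W0C {K kap : ℕ} (f : ℤ × ℤ) (hf : f ∈ (datC K kap).W₀ (d 0)) :
    Esc (compT ((datC K kap).W₀ (d 0)) f) := by
  show Esc (compT (Box0.W0 (d 0)) f)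
  rw [compT_econn (Box0.econn_W0 (d 0)) hf]
  exact Box0.esc_W0 (d 0)

theorem inv_datC {K kap i : ℕ} (hK : 1 ≤ Hook.ndL K (d 0)) (hd : ∀ j < i, 0 < j → d j + 4 ≤ d 0)
    (h : ∀ j < i, EscS (datC K kap) d n ω j) : (sgm (datC K kap) d n ω i).Inv :=
  inv_sgm (clr_datC hK) (Box0.W0_finite (d 0)) esc_W0C hd h

theorem stH_datC {K kap i : ℕ} (hK : 1 ≤ Hook.ndL K (d 0)) (hd : ∀ j < i, 0 < j → d j + 4 ≤ d 0)
    (h : ∀ j < i, EscS (datC K kap) d n ω j) :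
    StH ((datC K kap).prm d) d (Box0.W0 (d 0)) (TruR.ts (datC K kap) d n ω i).x :=
  stH_ts (clr_datC hK) (Box0.W0_finite (d 0)) esc_W0C hd h

end Pool.Agent.SixB.Cov
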