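import Pool.Agent.Lib.SixB.S8EscH
import Pool.Agent.Lib.SixB.S8InvB
import Pool.Agent.Lib.SixB.S8LawD

/-!
# Step 8: the removed sets make no holes, along the true chain

* `RunI.esc_mv`: the removed set of a move with a regular stop makes no holes;
* `escH_nxS`: the property `EscH` of the history is preserved by a stage;
* `escH_tst`: the same for the stages of the chain outside of the event `Dead`; `EscI`: the property as
  a part of the invariant, it is decided by the explored faces;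
* `EscS` of the stages from `EscH` of the history (`escS_of_escH`).
-/

set_option autoImplicit false

namespace Pool.Agent.SixB.Tru

open Finset Pool.Agent.Perc Pool.Agent.Perc6 Pool.Agent.PercT Pool.Agent.PercX60
open Pool.Agent.SixB Pool.Agent.SixB.Rule Pool.Agent.SixB.Dct Pool.Agent.SixB.Mv
open Pool.Agent.SixB.Blow (subE)

variable {𝔇 : Dat} {d : ℕ → ℕ} {n : ℕ} {r : ℤ} {s : TS} {ω : Cfg} {q : Rule.Ndl} {D : Dom}
  {κ : ℤ × ℤ → ℤ × ℤ} {m x i₁ j₁ t j₂ i₂ : ℕ}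

/-- **A move with a regular stop makes no holes.** -/
theorem RunI.esc_mv (X : RunI 𝔇 d n r s ω q D κ m x i₁ j₁ t j₂ i₂) (hO : StO n s q)
    (hN : NumO d n s.x.length r) (hv : ¬ D.Void (𝔇.gr d s.x D)) {σ : ℕ}
    (hS : D.regS (𝔇.gr d s.x D) (unt d n) (uS s q ω) κ (tS s q ω).1 (cfS s.V q ω) σ) :
    Esc (D.P \ D.rem (𝔇.gr d s.x D) (mvR 𝔇 d n s q D false ω)) :=
  (X.rg hO hN hv hS).2.esc

/-- A void move makes no holes. -/
theorem esc_mv_void (hD : (𝔇.cs d s.x).run = some D) (hu : 0 < unt d n)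
    (h16 : 16 ∣ msh d s.x.length) (hv : D.Void (𝔇.gr d s.x D)) (ρ : Rec) :
    Esc (D.P \ D.rem (𝔇.gr d s.x D) ρ) :=
  (val_gr hD (msh_pos _ _) h16).esc_void_rest hu hv

/-- **One stage**: the property of the history is preserved. -/
theorem escH_nxS (hu : 0 < unt d n) (h16 : 16 ∣ msh d s.x.length)
    (hE : EscH (𝔇.prm d) d (𝔇.W₀ (d 0)) s.x)
    (hrun : ∀ D, (𝔇.cs d s.x).run = some D → ∃ q, s.q = some q)
    (hmv : ∀ q D, s.q = some q → (𝔇.cs d s.x).run = some D → (𝔇.cs d s.x).ini = false →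
      ¬ D.Void (𝔇.gr d s.x D) →
      Esc (D.P \ D.rem (𝔇.gr d s.x D) (mvR 𝔇 d n s q D false ω))) :
    EscH (𝔇.prm d) d (𝔇.W₀ (d 0)) (nxS 𝔇 d n s ω).x := by
  obtain ⟨ρ, hρ⟩ := nxS_x 𝔇 d n ω s
  rw [hρ]
  intro ρ' y hy D hD hi
  rcases List.suffix_cons_iff.1 hy with h1 | h1
  · rw [List.cons.injEq] at h1
    obtain ⟨rfl, rfl⟩ := h1
    have hD' : (𝔇.cs d s.x).run = some D := hD
    have hi' : (𝔇.cs d s.x).ini = false := hi
    obtain ⟨q, hq⟩ := hrun D hD'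
    have hx : (nxS 𝔇 d n s ω).x = mvR 𝔇 d n s q D false ω :: s.x := by
      unfold nxS
      rw [hq, hD']
      simp only
      rw [finS_x, hi']
    rw [hx, List.cons.injEq] at hρ
    show Esc (D.P \ D.rem (𝔇.gr d s.x D) ρ')
    by_cases hv : D.Void (𝔇.gr d s.x D)
    · exact esc_mv_void hD' hu h16 hv ρ'
    · rw [← hρ.1]
      exact hmv q D hq hD' hi' hv
  · exact hE ρ' y h1 D hD hi

/-- **The stages of the chain.** -/
theorem escH_tst {C : ℤ} {l : ℕ}
    (hN : NumO d n (tst 𝔇 d n ω l).x.length (rad C (unt d n) d (tst 𝔇 d n ω l).x.length))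
    (hE : EscH (𝔇.prm d) d (𝔇.W₀ (d 0)) (tst 𝔇 d n ω l).x)
    (hrun : ∀ D, (𝔇.cs d (tst 𝔇 d n ω l).x).run = some D → ∃ q, (tst 𝔇 d n ω l).q = some q)
    (hD : ω ∉ Dead C 𝔇 d n l) :
    EscH (𝔇.prm d) d (𝔇.W₀ (d 0)) (tst 𝔇 d n ω (l + 1)).x := by
  have h := escH_nxS (ω := ω) hN.hu hN.h16 hE hrun fun q D hq hrun hi hv => by
    obtain ⟨κ, m, x, i₁, j₁, t, j₂, i₂, X, σ, hS⟩ := exists_regS hD hq hrun hi hv
    exact X.esc_mv (stO_tst hq) hN hv hS
  exact h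

/-- The first stage: no domain is running. -/
theorem escH_zero (h : (𝔇.cs d []).run = none) : EscH (𝔇.prm d) d (𝔇.W₀ (d 0)) (tst 𝔇 d n ω 0).x := by
  obtain ⟨ρ, hρ⟩ := nxS_x 𝔇 d n ω ⟨Box n, none, 0, []⟩
  rw [tst_zero, hρ]
  intro ρ' y hy D hD hi
  rcases List.suffix_cons_iff.1 hy with h1 | h1
  · rw [List.cons.injEq] at h1
    obtain ⟨rfl, rfl⟩ := h1
    have hD' : (𝔇.cs d []).run = some D := hD
    rw [h] at hD'
    cases hD'
  · have := h1.length_le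
    simp at this

/-- The property of the history as a part of the invariant. -/
def EscI (𝔇 : Dat) : InvP := fun d _ _ s _ => EscH (𝔇.prm d) d (𝔇.W₀ (d 0)) s.x

theorem escI_dec (𝔇 : Dat) : InvDec (EscI 𝔇) := fun _ _ _ _ _ _ _ h => h

/-- The property is decided by the history. -/
theorem escH_congr {ω' : Cfg} {l : ℕ} (h : tst 𝔇 d n ω l = tst 𝔇 d n ω' l)
    (hE : EscH (𝔇.prm d) d (𝔇.W₀ (d 0)) (tst 𝔇 d n ω l).x) :
    EscH (𝔇.prm d) d (𝔇.W₀ (d 0)) (tst 𝔇 d n ω' l).x := by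
  rw [← h]
  exact hE

end Pool.Agent.SixB.Tru

namespace Pool.Agent.SixB.Cov

open Pool.Agent.Perc Pool.Agent.Perc6 Pool.Agent.PercT Pool.Agent.PercX60
open Pool.Agent.SixB Pool.Agent.SixB.Rule Pool.Agent.SixB.Dct Pool.Agent.SixB.Mv
open Pool.Agent.SixB.Tru

variable {𝔇 : Dat} {d : ℕ → ℕ} {n : ℕ} {ω : Cfg}

/-- The stages before the stage `i`, from the property of the history. -/
theorem escS_of_escH {i : ℕ} (h : EscH (𝔇.prm d) d (𝔇.W₀ (d 0)) (TruR.ts 𝔇 d n ω i).x) :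
    ∀ j < i, EscS 𝔇 d n ω j := by
  induction i with
  | zero => exact fun j hj => absurd hj (Nat.not_lt_zero j)
  | succ i ih =>
    rw [ts_x] at h
    intro j hj
    rcases Nat.lt_succ_iff_lt_or_eq.1 hj with h1 | rfl
    · exact ih h.tail j h1
    · intro s hs hi
      have h2 := h (recS 𝔇 d n j ω) (TruR.ts 𝔇 d n ω j).x List.suffix_rfl s hs hi
      rw [ts_len] at h2
      rw [gr_ts]
      exact h2

end Pool.Agent.SixB.Cov
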