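import Pool.Agent.Lib.SixB.S8App
import Pool.Agent.Lib.SixB.S8Blow

/-!
# Step 8: the new coarse set has no holes

* `MoveData.esc`: in a move with the data `MoveData` the new set `P'` has no holes. The visited faces of
  `P` are in `Dm` (closure) and are joined in (visited faces or complement of `P`) to the complement of
  `P` (the strand comes from outside).
* `esc_of_blow`: if the magnified set has no holes then the set has no holes.
-/

set_option autoImplicit false

namespace Pool.Agent.SixB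

open Finset Pool.Agent.Perc Pool.Agent.Perc6 Pool.Agent.SixB.Top

section Move

variable {γ : Type*} {U P D Z Dm K N Zj P' U' : Set (ℤ × ℤ)} {c : ℤ × ℤ → γ} {d' : ℤ}

theorem chn_chI {S : Set (ℤ × ℤ)} {f g : ℤ × ℤ} (h : Chn S f g) : ChI S f g := by
  obtain ⟨-, h2⟩ := h
  induction h2 with
  | refl => exact ChI.refl _
  | @tail b c _ hs ih => exact ih.tail ⟨adj_iff_adjFL.1 hs.1, hs.2⟩

/-- A face of a cell of `Dm` which is not in `K`: the whole piece is outside `P'`. -/
theorem MoveData.notP' (M : MoveData U P D Z Dm K N Zj P' U' c d') {f : ℤ × ℤ} (hf : f ∈ Dm)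
    (hK : f ∉ K) : f ∉ P' := fun h => (M.P'V f h).1 ⟨hf, hK⟩

/-- **A removed face is joined outside `P'` to the complement of `P`.** -/
theorem MoveData.vout (M : MoveData U P D Z Dm K N Zj P' U' c d') (hP : P.Finite)
    (hNc : ∀ f ∈ N, f ∈ Dm → ∃ x, x ∉ P ∧ ChI (N ∪ Pᶜ) f x) {f : ℤ × ℤ}
    (hf : (f ∈ Dm ∧ f ∉ K) ∨ f ∈ Zj) : ∃ x, x ∉ P ∧ Relation.ReflTransGen (StepC P') f x := by
  have hNP' : ∀ g ∈ N ∪ Pᶜ, g ∉ P' := by
    rintro g (hg | hg) hg'
    · exact M.U'N g (M.P'U' hg') hg
    · exact hg (M.P'P hg')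
  have hN : ∀ g ∈ N, g ∈ Dm → ∃ x, x ∉ P ∧ Relation.ReflTransGen (StepC P') g x := by
    intro g hg hgD
    obtain ⟨x, hx, hch⟩ := hNc g hg hgD
    exact ⟨x, hx, hch.stepC hNP'⟩
  -- faces of `Dm \ K`
  have hDm : ∀ f, f ∈ Dm → f ∉ K → ∃ x, x ∉ P ∧ Relation.ReflTransGen (StepC P') f x := by
    intro f hf hfK
    obtain ⟨x₀, x₁, y₀, y₁, hb⟩ := exists_RF hP
    have key : ∀ (n : ℕ) (f : ℤ × ℤ), f ∈ Dm → f ∉ K → x₁ - f.1 ≤ n →
        ∃ x, x ∉ P ∧ Relation.ReflTransGen (StepC P') f x := by
      intro n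
      induction n with
      | zero =>
        intro f hf _ hn
        have := hb f (M.DP (M.DmD hf))
        simp only [RF, mem_product, mem_Ico] at this
        exfalso
        simp only [Nat.cast_zero] at hn
        omega
      | succ n ih =>
        intro x hx hxK hn
        have hadj : AdjF x (x.1 + 1, x.2) := by
          rw [adjF_iff]
          left; rfl
        by_cases hyP : (x.1 + 1, x.2) ∈ P
        · by_cases hyV : (x.1 + 1, x.2) ∈ Dm ∧ (x.1 + 1, x.2) ∉ K
          · obtain ⟨z, hz, hch⟩ := ih (x.1 + 1, x.2) hyV.1 hyV.2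
              (by simp only; push_cast at hn; omega)
            exact ⟨z, hz, Relation.ReflTransGen.head ⟨hadj, M.notP' hyV.1 hyV.2⟩ hch⟩
          · -- `x` is next to `K` or to the barrier
            have hKZ : (x.1 + 1, x.2) ∈ K ∨ (x.1 + 1, x.2) ∈ Z := by
              by_contra hcon
              push Not at hcon
              have hyDm : (x.1 + 1, x.2) ∉ Dm := fun h => hyV ⟨h, hcon.1⟩
              by_cases hyD : (x.1 + 1, x.2) ∈ D
              · exact hyDm (M.DmCl x hx _ hyD hcon.2 (adj_iff_adjFL.2 hadj))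
              · exact M.DmZ x hx (M.exit x (M.DmD hx) _ hyP hyD (adj_iff_adjFL.2 hadj))
            by_cases hfull : ∀ g, c g = c x → g ∈ Dm
            · by_cases hvis : ∃ g, c g = c x ∧ g ∈ N
              · obtain ⟨g, hg, hgN⟩ := hvis
                have hch : Relation.ReflTransGen (StepC P') x g := by
                  refine (chn_chI (M.cell x g hg.symm)).stepC fun y hy => ?_
                  exact M.notP' (hfull y hy) fun hyK => hxK (M.Ksat y hyK x hy.symm)
                obtain ⟨z, hz, hch'⟩ := hN g hgN (hfull g hg)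
                exact ⟨z, hz, hch.trans hch'⟩
              · exfalso
                push Not at hvis
                exact hxK (M.Kmax x (fun g hg => ⟨hfull g hg, hvis g hg⟩)
                  ⟨x, _, rfl, hKZ, adj_iff_adjFL.2 hadj⟩)
            · obtain ⟨h, hh, x₁, hx₁, hadj', -⟩ := exists_hfun M hx hfull
              have hch : Relation.ReflTransGen (StepC P') x x₁ := by
                refine (chn_chI (show Chn (Dm ∩ {z | c z = c x}) x x₁ from hx₁)).stepC
                  fun y hy => ?_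
                exact M.notP' hy.1 fun hyK =>
                  hfull fun z hz => M.KDm (M.Ksat y hyK z (hz.trans hy.2.symm))
              exact ⟨h, hh, hch.tail ⟨adj_iff_adjFL.1 hadj', fun hh' => hh (M.P'P hh')⟩⟩
        · exact ⟨_, hyP, Relation.ReflTransGen.single ⟨hadj, fun h => hyP (M.P'P h)⟩⟩
    exact key (x₁ - f.1).toNat f hf hfK (Int.self_le_toNat _)
  rcases hf with ⟨hf, hfK⟩ | hf
  · exact hDm f hf hfK
  · have hZ : ∀ g ∈ Zj, g ∉ P' := fun g hg h => (M.P'V g h).2 hg
    rcases M.Zjlast with ⟨y₀, hy1, hy2, z, hz, hadj⟩ | ⟨h, hh, z, hz, hadj⟩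
    · have hyK : y₀ ∉ K := fun h => M.KN y₀ h hy2
      have hch : Relation.ReflTransGen (StepC P') f z :=
        (chn_chI (M.Zjcon f hf z hz)).stepC fun y hy => hZ y hy
      obtain ⟨x, hx, hch'⟩ := hDm y₀ hy1 hyK
      exact ⟨x, hx, hch.trans (Relation.ReflTransGen.head
        ⟨adj_iff_adjFL.1 hadj, M.notP' hy1 hyK⟩ hch')⟩
    · have hch : Relation.ReflTransGen (StepC P') f z :=
        (chn_chI (M.Zjcon f hf z hz)).stepC fun y hy => hZ y hy
      exact ⟨h, hh, hch.tail ⟨adj_iff_adjFL.1 hadj, fun hh' => hh (M.P'P hh')⟩⟩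

/-- **The new set has no holes.** -/
theorem MoveData.esc (M : MoveData U P D Z Dm K N Zj P' U' c d') (hP : P.Finite) (heP : Esc P)
    (hNc : ∀ f ∈ N, f ∈ Dm → ∃ x, x ∉ P ∧ ChI (N ∪ Pᶜ) f x) : Esc P' := by
  obtain ⟨x₀, x₁, y₀, y₁, hb⟩ := exists_RF hP
  have key : ∀ (n : ℕ) (f : ℤ × ℤ), f ∈ P → f ∉ P' → x₁ - f.1 ≤ n →
      ∃ x, x ∉ P ∧ Relation.ReflTransGen (StepC P') f x := by
    intro n
    induction n with
    | zero =>
      intro f hf _ hn
      have := hb f hf
      simp only [RF, mem_product, mem_Ico] at this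
      exfalso
      simp only [Nat.cast_zero] at hn
      omega
    | succ n ih =>
      intro f hf hfP' hn
      by_cases hV : (f ∈ Dm ∧ f ∉ K) ∨ f ∈ Zj
      · exact M.vout hP hNc hV
      push Not at hV
      have hadj : AdjF f (f.1 + 1, f.2) := by
        rw [adjF_iff]
        left; rfl
      by_cases hg : (f.1 + 1, f.2) ∈ P
      · have hgP' : (f.1 + 1, f.2) ∉ P' := by
          intro h
          exact hfP' (M.P'cl _ h f hf (adj_iff_adjFL.2 hadj.symm)
            (fun hh => hh.2 (hV.1 hh.1)) hV.2)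
        obtain ⟨z, hz, hch⟩ := ih (f.1 + 1, f.2) hg hgP' (by simp only; push_cast at hn; omega)
        exact ⟨z, hz, Relation.ReflTransGen.head ⟨hadj, hgP'⟩ hch⟩
      · exact ⟨_, hg, Relation.ReflTransGen.single ⟨hadj, fun h => hg (M.P'P h)⟩⟩
  exact heP.sub M.P'P fun f hf hfP' => key (x₁ - f.1).toNat f hf hfP' (Int.self_le_toNat _)

end Move

/-! ### The magnified set -/

theorem esc_of_blow {m : ℤ} (hm : 0 < m) {F : Set (ℤ × ℤ)} (h : Esc (blow m F)) : Esc F := by
  intro f hf R
  have hcl : Blow.cl m (m * f.1, m * f.2) = f := by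
    unfold Blow.cl
    simp only
    rw [Int.mul_ediv_cancel_left _ hm.ne', Int.mul_ediv_cancel_left _ hm.ne']
  have hf' : (m * f.1, m * f.2) ∉ blow m F := by
    rw [Blow.mem_blow, hcl]
    exact hf
  obtain ⟨g, hg, hch⟩ := h _ hf' (m * (|R| + 1))
  refine ⟨Blow.cl m g, ?_, ?_⟩
  · have key : ∀ x : ℤ, m * (|R| + 1) < |x| → R < |x / m| := by
      intro x hx
      have e1 := Int.mul_ediv_add_emod x m
      have e2 := Int.emod_nonneg x hm.ne'
      have e3 := Int.emod_lt_of_pos x hm
      by_contra hcon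
      push Not at hcon
      have h4 := le_abs_self R
      have h5 : |x / m| ≤ |R| := hcon.trans h4
      rw [abs_le] at h5
      rcases abs_cases x with ⟨h6, _⟩ | ⟨h6, _⟩
      · rw [h6] at hx
        nlinarith [mul_le_mul_of_nonneg_left h5.2 hm.le]
      · rw [h6] at hx
        nlinarith [mul_le_mul_of_nonneg_left h5.1 hm.le]
    rcases hg with hg | hg
    · exact Or.inl (key _ hg)
    · exact Or.inr (key _ hg)
  · rw [← hcl]
    clear hg
    induction hch with
    | refl => exact Relation.ReflTransGen.refl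
    | @tail a b _ hs ih =>
      rcases Blow.adj_cl hm hs.1 with h1 | h1
      · rw [← h1]
        exact ih
      · exact ih.tail ⟨h1, fun hh => hs.2 hh⟩

end Pool.Agent.SixB
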