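import Pool.Agent.Lib.SixB.S8ExitTop
import Pool.Agent.Lib.SixB.S8Expl

/-!
# Step 8: the exit identity for the true strand

`T` is a region of fresh faces (part of the fresh component `U`), with contour `w`; side `0` is the tip
`a`, the sides `1, …, k₁ - 1` are sides of the right wall, the sides `k₁, …, k₃ - 1` are cut sides (towards
`U \ T`), the sides `k₃, …, m - 1` are sides of the left wall. The strand starts at the tip, it crosses only
faces of `T` and faces which are not in `U` (old faces, reflections on the walls), and it leaves through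
the cut side `x`.

* `TipDom.exit_conn`: the end of colour `c` of the exit side is joined in `T` to a vertex of the right
  wall.
* `TipDom.exit_cross_iff`: `k₂ ≤ x` if and only if the right wall is joined in `T` to the arc `[k₂, k₃]`
  by the colour `c`.
-/

set_option autoImplicit false

namespace Pool.Agent.SixB

open Finset Pool.Agent.Perc Pool.Agent.Perc6

/-- The data of a move: see the head of the file. -/
structure TipDom (ω : Cfg) (c : ℤ) (R U : Set (ℤ × ℤ)) (T : Finset (ℤ × ℤ)) (m : ℕ)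
    (w : ℕ → ℤ × ℤ) (k₁ k₃ : ℕ) (a : UE) : Prop where
  hR : HasPot R
  UR : U ⊆ R
  TU : (T : Set (ℤ × ℤ)) ⊆ U
  cT : Top.EConn (T : Set (ℤ × ℤ))
  ctr : Ctr (T : Set (ℤ × ℤ)) m w
  h1 : 1 ≤ k₁
  h13 : k₁ ≤ k₃
  h3 : k₃ ≤ m
  tip : Joins a (w 0) (w 1)
  faT : fa a ∈ T
  fbU : fb a ∉ U
  parc : par (w 1) = c
  cut : ∀ i, k₁ ≤ i → i < k₃ → ∀ s g, Joins s (w i) (w (i + 1)) → IsSide g s → g ∈ U
  wb : ∀ i, 1 ≤ i → i < k₁ → ∀ y, (y = i ∨ y = i + 1) → par (w y) = c →
    Conn ω (R \ T) (w 1) (w y)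
  wl : ∀ i, k₃ ≤ i → i < m → ∀ y, (y = i ∨ y = i + 1) → par (w y) ≠ c →
    Conn ω (R \ T) (w 0) (w y)
  q : ∃ i s g g' z, k₁ ≤ i ∧ i < k₃ ∧ Joins s (w i) (w (i + 1)) ∧ IsSide g s ∧ g ∉ T ∧
    Relation.ReflTransGen (StepC (U \ T)ᶜ) g g' ∧ IsCor g' z ∧
    (Conn ω (R \ T) (w 1) z ∨ Conn ω (R \ T) (w 0) z)

variable {ω : Cfg} {c : ℤ} {R U : Set (ℤ × ℤ)} {T : Finset (ℤ × ℤ)} {m : ℕ} {w : ℕ → ℤ × ℤ}
  {k₁ k₃ : ℕ} {a : UE}

/-- The contour in the other direction, with the same side `0`. -/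
def flipw (m : ℕ) (w : ℕ → ℤ × ℤ) (i : ℕ) : ℤ × ℤ := if i = 0 then w 1 else w (m + 1 - i)

theorem flipw_zero : flipw m w 0 = w 1 := if_pos rfl

theorem flipw_pos {i : ℕ} (hi : 1 ≤ i) : flipw m w i = w (m + 1 - i) := if_neg (by omega)

/-! ### The potential of an excursion -/

/-- The unit edges of the piece of the path between the times `s` and `t`. -/
def seg8 (ω : Cfg) (a : UE) (s t : ℕ) : Set UE := {y | ∃ i, s ≤ i ∧ i ≤ t ∧ y = pth ω a i}

theorem side_fa_fb {g : ℤ × ℤ} {y : UE} (h : IsSide g y) : g = fa y ∨ g = fb y := isSide_iff.1 h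

/-- The piece of the path outside `T` is invariant under the matching outside `T`. -/
theorem minv_seg8 {F : Set (ℤ × ℤ)} {s t : ℕ} (h0 : fb (pth ω a s) ∈ F)
    (h1 : fa (pth ω a t) ∈ F) : MtInv ω Fᶜ (seg8 ω a s t) := by
  have key : ∀ g ∈ Fᶜ, ∀ y y', Mt ω g y y' → y ∈ seg8 ω a s t → y' ∈ seg8 ω a s t := by
    rintro g hg y y' hm ⟨i, hi1, hi2, rfl⟩
    rcases mt_iff.1 hm with ⟨rfl, rfl⟩ | ⟨rfl, rfl⟩
    · refine ⟨i + 1, by omega, ?_, (pth_succ _ _ _).symm⟩
      rcases Nat.lt_or_ge i t with h | h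
      · exact h
      · exfalso
        have : i = t := by omega
        subst this
        exact hg h1
    · rcases Nat.lt_or_ge s i with h | h
      · refine ⟨i - 1, by omega, by omega, ?_⟩
        have h2 : pth ω a i = nx ω (pth ω a (i - 1)) := by
          rw [← pth_succ, Nat.sub_add_cancel (by omega)]
        rw [h2, pv_nx]
      · exfalso
        have : i = s := by omega
        subst this
        exact hg h0
  exact fun g hg y y' hm => ⟨key g hg y y' hm, key g hg y' y hm.symm⟩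

/-- **The potential of an excursion**: the path leaves `T` at time `s`, crosses faces outside `T`, and
comes back at time `t`. There is a function on the vertices which is constant on the clusters outside
`T` and changes across a side of a face outside `T` exactly if the side belongs to the excursion. -/
theorem exc_pot (hR : HasPot R) (cT : Top.EConn (T : Set (ℤ × ℤ)))
    {s t : ℕ} (hst : s < t) (h0 : fb (pth ω a s) ∈ T) (h1 : fa (pth ω a t) ∈ T)
    (hout : ∀ i, s ≤ i → i < t → fa (pth ω a i) ∉ T) :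
    ∃ Θ : ℤ × ℤ → ZMod 2, (∀ p q, Conn ω (R \ T) p q → Θ p = Θ q) ∧
      ∀ g ∈ R, ∀ y p q, IsSide g y → Joins y p q → (∃ g', g' ∉ T ∧ IsSide g' y) →
        (Θ p ≠ Θ q ↔ y ∈ seg8 ω a s t) := by
  set X := seg8 ω a s t with hX
  have hfbs : ∀ i, s < i → i ≤ t → fb (pth ω a i) ∉ T := by
    intro i hi1 hi2
    have h2 : fb (pth ω a i) = fa (pth ω a (i - 1)) := by
      rw [← fb_pth_succ, Nat.sub_add_cancel (by omega)]
    rw [h2]
    exact hout _ (by omega) (by omega)
  have hne : pth ω a s ≠ pth ω a t := by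
    intro h
    exact hout s le_rfl hst (by rw [h]; exact h1)
  -- close the excursion in `T`
  have hch : Relation.ReflTransGen (StepC (T : Set (ℤ × ℤ))ᶜ) (fb (pth ω a s))
      (fa (pth ω a t)) :=
    Relation.ReflTransGen.mono (p := StepC (T : Set (ℤ × ℤ))ᶜ)
      (fun b d (hbd : AdjF b d ∧ d ∈ (T : Set (ℤ × ℤ))) => ⟨hbd.1, fun h => h hbd.2⟩) _ _
      (cT _ (Finset.mem_coe.2 h0) _ (Finset.mem_coe.2 h1))
  obtain ⟨-, P, hP, hpar⟩ := chain_toggle (F := (T : Set (ℤ × ℤ))ᶜ)
    (fun h => h (Finset.mem_coe.2 h0)) hch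
  have hinv : MtInv ω (T : Set (ℤ × ℤ))ᶜ X :=
    minv_seg8 (Finset.mem_coe.2 h0) (Finset.mem_coe.2 h1)
  set M := symmDiff X P with hM
  -- sides of faces outside `T`
  have hMX : ∀ g, g ∉ T → ∀ y, IsSide g y → (y ∈ M ↔ y ∈ X) := by
    intro g hg y hy
    have : y ∉ P := fun h => hP y h g (fun h' => hg (Finset.mem_coe.1 h')) hy
    rw [hM, Set.mem_symmDiff]
    tauto
  have hMinv : MtInv ω (T : Set (ℤ × ℤ))ᶜ M := by
    intro g hg y y' hm
    have hg' : g ∉ T := fun h => hg (Finset.mem_coe.2 h)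
    rw [hMX g hg' y hm.left, hMX g hg' y' hm.right]
    exact hinv g hg y y' hm
  have hev : ∀ g ∈ R, EvenAt M g := by
    intro g _
    by_cases hg : g ∈ T
    · -- the sides of `g` in `X` are the first and the last one
      have h2 : parAt X g = parAt (symmDiff {pth ω a s} {pth ω a t}) g := by
        apply parAt_congr
        intro y hy
        rw [Set.mem_symmDiff, Set.mem_singleton_iff, Set.mem_singleton_iff]
        constructor
        · rintro ⟨i, hi1, hi2, rfl⟩
          rcases side_fa_fb hy with h | h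
          · have hit : i = t := by
              by_contra hne
              exact hout i hi1 (by omega) (by rw [← h]; exact hg)
            subst hit
            exact Or.inr ⟨rfl, hne.symm⟩
          · have his : i = s := by
              by_contra hne
              exact hfbs i (by omega) hi2 (by rw [← h]; exact hg)
            subst his
            exact Or.inl ⟨rfl, hne⟩
        · rintro (⟨rfl, -⟩ | ⟨rfl, -⟩)
          · exact ⟨s, le_rfl, hst.le, rfl⟩
          · exact ⟨t, hst.le, le_rfl, rfl⟩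
      have e1 : parAt {pth ω a s} g = ind2 (g = fb (pth ω a s)) := by
        rw [parAt_side (fa_ne_fb _) (isSide_fa _) (isSide_fb _), ind2_neg, zero_add]
        intro h
        exact hout s le_rfl hst (by rw [← h]; exact hg)
      have e2 : parAt {pth ω a t} g = ind2 (g = fa (pth ω a t)) := by
        rw [parAt_side (fa_ne_fb _) (isSide_fa _) (isSide_fb _), ind2_neg (P := g = fb _), add_zero]
        intro h
        exact hfbs t hst le_rfl (by rw [← h]; exact hg)
      rw [evenAt_iff, hM, parAt_symmDiff, h2, parAt_symmDiff, e1, e2, hpar]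
      exact z2_add_self _
    · exact hMinv.even (fun h => hg (Finset.mem_coe.1 h))
  obtain ⟨Θ, hΘ⟩ := hR M hev
  refine ⟨Θ, fun p q hpq => ?_, fun g hg y p q hy hj hg' => ?_⟩
  · have h2 : MtInv ω (R \ T) M := fun g hg => hMinv g fun h => hg.2 h
    exact h2.conn (fun g hg => hΘ g hg.1) hpq
  · obtain ⟨g', hg', hy'⟩ := hg'
    rw [← hMX g' hg' y hy', hΘ.joins hg hy hj]

/-! ### Excursions and the contour -/

section Dom

variable (h : TipDom ω c R U T m w k₁ k₃ a)

include h

theorem TipDom.hc : c = 0 ∨ c = 1 := by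
  rw [← h.parc]; exact par_cases _

theorem TipDom.m_pos : 0 < m := lt_of_lt_of_le h.h1 (h.h13.trans h.h3)

theorem TipDom.en_tip : en c a = w 1 := en_joins h.tip.symm h.parc

/-- The values of the potential of an excursion on the contour. -/
theorem TipDom.exc_val {s t : ℕ} (hst : s < t) (h0 : fb (pth ω a s) ∈ T)
    (h1 : fa (pth ω a t) ∈ T) (hout : ∀ i, s ≤ i → i < t → fa (pth ω a i) ∉ T)
    {Θ : ℤ × ℤ → ZMod 2} (hΘ : ∀ g ∈ R, ∀ y p q, IsSide g y → Joins y p q →
      (∃ g', g' ∉ T ∧ IsSide g' y) → (Θ p ≠ Θ q ↔ y ∈ seg8 ω a s t))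
    {i₀ i₁ : ℕ} (hi0 : i₀ < m) (hi1 : i₁ < m) (j0 : Joins (pth ω a s) (w i₀) (w (i₀ + 1)))
    (j1 : Joins (pth ω a t) (w i₁) (w (i₁ + 1))) (i : ℕ) (hi : i < m) :
    Θ (w i) ≠ Θ (w (i + 1)) ↔ i = i₀ ∨ i = i₁ := by
  obtain ⟨e, ⟨⟨g, hg, hgs⟩, g', hg', hgs'⟩, hj⟩ := h.ctr.step i hi
  rw [hΘ g (h.UR (h.TU hg)) e _ _ hgs hj ⟨g', fun hh => hg' (Finset.mem_coe.2 hh), hgs'⟩]
  constructor
  · rintro ⟨k, hk1, hk2, rfl⟩
    rcases side_fa_fb hgs with h2 | h2
    · have hkt : k = t := by
        by_contra hne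
        exact hout k hk1 (by omega) (by rw [← h2]; exact Finset.mem_coe.1 hg)
      subst hkt
      exact Or.inr (h.ctr.inj i hi i₁ hi1 _ hj j1)
    · have hks : k = s := by
        by_contra hne
        have h3 : fb (pth ω a k) = fa (pth ω a (k - 1)) := by
          rw [← fb_pth_succ, Nat.sub_add_cancel (by omega)]
        exact hout (k - 1) (by omega) (by omega) (by rw [← h3, ← h2]; exact Finset.mem_coe.1 hg)
      subst hks
      exact Or.inl (h.ctr.inj i hi i₀ hi0 _ hj j0)
  · rintro (rfl | rfl)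
    · rw [Joins.uniq hj j0]
      exact ⟨s, le_rfl, hst.le, rfl⟩
    · rw [Joins.uniq hj j1]
      exact ⟨t, hst.le, le_rfl, rfl⟩

omit h in
theorem const_run (f : ℕ → ZMod 2) {i j : ℕ} (hij : i ≤ j)
    (hc : ∀ k, i ≤ k → k < j → ¬ f k ≠ f (k + 1)) : f i = f j := by
  induction j, hij using Nat.le_induction with
  | base => rfl
  | succ j hij ih =>
    rw [ih fun k h1 h2 => hc k h1 (by omega)]
    exact not_not.1 (hc j hij (by omega))

/-- An excursion which comes back on the left wall is a rotation around a vertex of the colour `c`. -/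
theorem TipDom.exc_left {s t : ℕ} (hst : s < t) (h0 : fb (pth ω a s) ∈ T)
    (h1 : fa (pth ω a t) ∈ T) (hout : ∀ i, s ≤ i → i < t → fa (pth ω a i) ∉ U)
    {i₀ i₁ : ℕ} (hi0 : i₀ < m) (hi1 : i₁ < m) (j0 : Joins (pth ω a s) (w i₀) (w (i₀ + 1)))
    (j1 : Joins (pth ω a t) (w i₁) (w (i₁ + 1))) (hl : k₃ ≤ i₁) :
    en c (pth ω a s) = en c (pth ω a t) := by
  have houtT : ∀ i, s ≤ i → i < t → fa (pth ω a i) ∉ T :=
    fun i h2 h3 h4 => hout i h2 h3 (h.TU (Finset.mem_coe.2 h4))
  have hfbs : ∀ i, s < i → i ≤ t → fb (pth ω a i) ∉ U := by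
    intro i hi1 hi2
    have h2 : fb (pth ω a i) = fa (pth ω a (i - 1)) := by
      rw [← fb_pth_succ, Nat.sub_add_cancel (by omega)]
    rw [h2]
    exact hout _ (by omega) (by omega)
  obtain ⟨Θ, hΘc, hΘ⟩ := exc_pot h.hR h.cT hst h0 h1 houtT
  have hval := h.exc_val hst h0 h1 houtT hΘ hi0 hi1 j0 j1
  have k1 := h.h1
  have k13 := h.h13
  have k3 := h.h3
  -- the side `i₀` is neither the tip nor a cut side
  have hne0 : i₀ ≠ 0 := by
    rintro rfl
    have h2 := Joins.uniq j0 h.tip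
    rw [h2] at h0
    exact h.fbU (h.TU (Finset.mem_coe.2 h0))
  have hncut : i₀ < k₁ ∨ k₃ ≤ i₀ := by
    by_contra hno
    push Not at hno
    exact hout s le_rfl hst (h.cut i₀ hno.1 hno.2 _ _ j0 (isSide_fa _))
  have hne : i₀ ≠ i₁ := by
    rintro rfl
    have h2 := Joins.uniq j0 j1
    exact houtT s le_rfl hst (by rw [h2]; exact h1)
  -- values
  have hlow : ∀ j, j ≤ min i₀ i₁ → Θ (w j) = Θ (w 0) := by
    intro j hj
    refine (const_run (fun i => Θ (w i)) (Nat.zero_le j) fun k _ h3 h4 => ?_).symm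
    rcases (hval k (by omega)).1 h4 with h5 | h5 <;> omega
  have hhigh : ∀ j, min i₀ i₁ < j → j ≤ max i₀ i₁ → Θ (w j) ≠ Θ (w 0) := by
    intro j hj1 hj2
    have e1 : Θ (w (min i₀ i₁ + 1)) = Θ (w j) := by
      refine const_run (fun i => Θ (w i)) (by omega) fun k h3 h4 h5 => ?_
      rcases (hval k (by omega)).1 h5 with h6 | h6 <;> omega
    have e2 := (hval (min i₀ i₁) (by omega)).2 (by omega)
    rw [← e1, ← hlow (min i₀ i₁) le_rfl]
    exact e2.symm
  have e01 : Θ (w 1) = Θ (w 0) := hlow 1 (by omega)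
  -- a corner of a face of `U \ T`
  have hface : ∀ g, g ∈ U → g ∉ T → ∀ p p', IsCor g p → IsCor g p' → Θ p = Θ p' := by
    intro g hgU hgT
    have hs : ∀ y p q, IsSide g y → Joins y p q → Θ p = Θ q := by
      intro y p q hy hj
      by_contra hn
      obtain ⟨i, hi1, hi2, rfl⟩ := (hΘ g (h.UR hgU) y p q hy hj ⟨g, hgT, hy⟩).1 hn
      rcases side_fa_fb hy with h2 | h2
      · rcases Nat.lt_or_ge i t with h3 | h3
        · exact hout i hi1 h3 (by rw [← h2]; exact hgU)
        · have : i = t := by omega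
          subst this
          exact hgT (by rw [h2]; exact h1)
      · rcases Nat.lt_or_ge s i with h3 | h3
        · exact hfbs i h3 hi2 (by rw [← h2]; exact hgU)
        · have : i = s := by omega
          subst this
          exact hgT (by rw [h2]; exact h0)
    obtain ⟨x, y⟩ := g
    have b1 := hs _ _ _ (isSide_bo' _) (joins_bo' x y)
    have b2 := hs _ _ _ (isSide_le' _) (joins_le' x y)
    have b3 := hs _ _ _ (isSide_to' _) (joins_to' x y)
    have hall : ∀ p, IsCor (x, y) p → Θ p = Θ (x, y) := by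
      rintro ⟨p1, p2⟩ hp
      unfold IsCor at hp
      simp only at hp
      rcases hp with ⟨rfl | rfl, rfl | rfl⟩
      · rfl
      · exact b2.symm
      · exact b1.symm
      · rw [← b3, ← b2]
    intro p p' hp hp'
    rw [hall p hp, hall p' hp']
  rcases hncut with hb | hb
  · -- from the right wall to the left wall: around the cut sides
    exfalso
    obtain ⟨i, y, g, g', z, hi1', hi2', hj, hgs, hgT, hch, hz, hconn⟩ := h.q
    have hgU : g ∈ U := h.cut i hi1' hi2' y g hj hgs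
    have hi : Θ (w i) ≠ Θ (w 0) := hhigh i (by omega) (by omega)
    have hgi : IsCor g (w i) := by
      rcases hj with ⟨hj, -⟩ | ⟨hj, -⟩
      · rw [hj]; exact PotB.cor_ua hgs
      · rw [hj]; exact PotB.cor_ub hgs
    have key : g' ∈ U ∧ g' ∉ T ∧ ∀ p, IsCor g' p → Θ p = Θ (w i) := by
      clear hz hconn
      induction hch with
      | refl => exact ⟨hgU, hgT, fun p hp => hface g hgU hgT p _ hp hgi⟩
      | @tail b d _ hs ih =>
        obtain ⟨hbU, hbT, hb'⟩ := ih
        obtain ⟨⟨-, y', h2, h3⟩, h4⟩ := hs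
        rw [Set.mem_compl_iff, not_not] at h4
        have hdT : d ∉ T := fun hh => h4.2 (Finset.mem_coe.2 hh)
        refine ⟨h4.1, hdT, fun p hp => ?_⟩
        rw [hface d h4.1 hdT p (ua y') hp (PotB.cor_ua h3)]
        exact hb' _ (PotB.cor_ua h2)
    have hz0 : Θ z = Θ (w 0) := by
      rcases hconn with h2 | h2
      · rw [← hΘc _ _ h2, e01]
      · exact (hΘc _ _ h2).symm
    exact hi ((key.2.2 z hz).symm.trans hz0)
  · -- both on the left wall
    have hadj : max i₀ i₁ = min i₀ i₁ + 1 := by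
      by_contra hn
      -- the side `min + 1`
      have h2 := hhigh (min i₀ i₁ + 1) (by omega) (by omega)
      have h3 := hhigh (min i₀ i₁ + 2) (by omega) (by omega)
      have p1 := par_ne_succ h.ctr (i := min i₀ i₁ + 1) (by omega)
      have c1 := par_cases (w (min i₀ i₁ + 1))
      have c2 := par_cases (w (min i₀ i₁ + 1 + 1))
      have hcc := h.hc
      by_cases h4 : par (w (min i₀ i₁ + 1)) = c
      · exact h3 (hΘc _ _ (h.wl (min i₀ i₁ + 1) (by omega) (by omega) _ (Or.inr rfl)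
          (by omega))).symm
      · exact h2 (hΘc _ _ (h.wl (min i₀ i₁ + 1) (by omega) (by omega) _ (Or.inl rfl) h4)).symm
    have h2 := hhigh (max i₀ i₁) (by omega) le_rfl
    have hpc : par (w (max i₀ i₁)) = c := by
      by_contra hn
      exact h2 (hΘc _ _ (h.wl (max i₀ i₁) (by omega) (by omega) _ (Or.inl rfl) hn)).symm
    rcases lt_or_gt_of_ne hne with h3 | h3
    · have h4 : max i₀ i₁ = i₀ + 1 := by omega
      have h5 : max i₀ i₁ = i₁ := by omega
      rw [h4] at hpc
      have e1 : en c (pth ω a s) = w (i₀ + 1) := en_joins j0.symm hpc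
      have e2 : en c (pth ω a t) = w i₁ := en_joins j1 (by rw [← h5, h4]; exact hpc)
      rw [e1, e2, ← h4, h5]
    · have h4 : max i₀ i₁ = i₁ + 1 := by omega
      have h5 : max i₀ i₁ = i₀ := by omega
      have e1 : en c (pth ω a s) = w i₀ := en_joins j0 (by rw [← h5]; exact hpc)
      have e2 : en c (pth ω a t) = w (i₁ + 1) := en_joins j1.symm (by rw [← h4]; exact hpc)
      rw [e1, e2, ← h4, h5]

/-- In `T` the end of colour `c` is always joined to the right wall. -/
theorem TipDom.conn_in {τ : ℕ} (hst : ∀ i < τ, fa (pth ω a i) ∈ T ∨ fa (pth ω a i) ∉ U) :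
    ∀ j ≤ τ, fa (pth ω a j) ∈ T →
      ∃ i, 1 ≤ i ∧ i ≤ k₁ ∧ par (w i) = c ∧ Conn ω T (w i) (en c (pth ω a j)) := by
  intro j
  induction j using Nat.strong_induction_on with
  | _ j ih =>
  intro hj hjT
  rcases Nat.eq_zero_or_pos j with rfl | hpos
  · refine ⟨1, le_rfl, h.h1, h.parc, ?_⟩
    rw [pth_zero, h.en_tip]
    exact Relation.ReflTransGen.refl
  -- the last time in `T` before `j`
  obtain ⟨r, hr, hrT, hmax⟩ : ∃ r < j, fa (pth ω a r) ∈ T ∧
      ∀ i, r < i → i < j → fa (pth ω a i) ∉ T := by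
    classical
    set Q : Finset ℕ := (range j).filter fun r => fa (pth ω a r) ∈ T with hQ
    have hne : Q.Nonempty := ⟨0, Finset.mem_filter.2 ⟨Finset.mem_range.2 hpos, h.faT⟩⟩
    have hm : Q.max' hne < j ∧ fa (pth ω a (Q.max' hne)) ∈ T := by
      have h3 : ∀ r ∈ Q, r < j ∧ fa (pth ω a r) ∈ T := fun r hr => by
        rw [hQ, Finset.mem_filter, Finset.mem_range] at hr
        exact hr
      exact h3 _ (Finset.max'_mem Q hne)
    refine ⟨Q.max' hne, hm.1, hm.2, fun i hi1 hi2 hiT => ?_⟩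
    have hiQ : i ∈ Q := Finset.mem_filter.2 ⟨Finset.mem_range.2 hi2, hiT⟩
    have := Finset.le_max' Q i hiQ
    omega
  obtain ⟨i, hi1, hi2, hi3, hi4⟩ := ih r hr (by omega) hrT
  have hstep : Conn ω T (w i) (en c (pth ω a (r + 1))) :=
    conn_trans hi4 (conn_pth h.hc (Nat.le_succ r) fun l h1 h2 => Or.inl (by
      have : l = r := by omega
      rw [this]; exact Finset.mem_coe.2 hrT))
  have hfb : fb (pth ω a (r + 1)) ∈ T := by rw [fb_pth_succ]; exact hrT
  rcases Nat.eq_or_lt_of_le (Nat.succ_le_of_lt hr) with hrj | hrj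
  · rw [← hrj]
    exact ⟨i, hi1, hi2, hi3, hstep⟩
  -- an excursion
  have hout : ∀ l, r + 1 ≤ l → l < j → fa (pth ω a l) ∉ U := fun l h1 h2 =>
    (hst l (by omega)).resolve_left (hmax l (by omega) h2)
  have hfbj : fb (pth ω a j) ∉ T := by
    have h2 : fb (pth ω a j) = fa (pth ω a (j - 1)) := by
      rw [← fb_pth_succ, Nat.sub_add_cancel (by omega)]
    rw [h2]
    exact hmax _ (by omega) (by omega)
  have hbj : BdU (T : Set (ℤ × ℤ)) (pth ω a j) :=
    ⟨⟨_, Finset.mem_coe.2 hjT, isSide_fa _⟩, _, fun hh => hfbj (Finset.mem_coe.1 hh), isSide_fb _⟩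
  have hbr : BdU (T : Set (ℤ × ℤ)) (pth ω a (r + 1)) :=
    ⟨⟨_, Finset.mem_coe.2 hfb, isSide_fb _⟩, _, fun hh => hmax (r + 1) (by omega) hrj
      (Finset.mem_coe.1 hh), isSide_fa _⟩
  obtain ⟨i₁, hi1m, j1⟩ := h.ctr.all _ hbj
  obtain ⟨i₀, hi0m, j0⟩ := h.ctr.all _ hbr
  by_cases hl : k₃ ≤ i₁
  · rw [← h.exc_left hrj hfb hjT hout hi0m hi1m j0 j1 hl]
    exact ⟨i, hi1, hi2, hi3, hstep⟩
  · by_cases hb : i₁ < k₁
    · by_cases h0 : i₁ = 0
      · subst h0
        refine ⟨1, le_rfl, h.h1, h.parc, ?_⟩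
        rw [Joins.uniq j1 h.tip, h.en_tip]
        exact Relation.ReflTransGen.refl
      · have p1 := par_ne_succ h.ctr (i := i₁) (by omega)
        have c1 := par_cases (w i₁)
        have c2 := par_cases (w (i₁ + 1))
        have hcc := h.hc
        by_cases hp : par (w i₁) = c
        · refine ⟨i₁, by omega, by omega, hp, ?_⟩
          rw [en_joins j1 hp]
          exact Relation.ReflTransGen.refl
        · have hp' : par (w (i₁ + 1)) = c := by omega
          refine ⟨i₁ + 1, by omega, by omega, hp', ?_⟩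
          rw [en_joins j1.symm hp']
          exact Relation.ReflTransGen.refl
    · exfalso
      have h2 := h.cut i₁ (by omega) (by omega) _ _ j1 (isSide_fb _)
      have h3 : fb (pth ω a j) = fa (pth ω a (j - 1)) := by
        rw [← fb_pth_succ, Nat.sub_add_cancel (by omega)]
      rw [h3] at h2
      exact hout (j - 1) (by omega) (by omega) h2

/-- The end of colour `c` of the exit side is joined in `T` to the right wall. -/
theorem TipDom.exit_conn {τ : ℕ} (hst : ∀ i < τ, fa (pth ω a i) ∈ T ∨ fa (pth ω a i) ∉ U)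
    (hτ : fb (pth ω a τ) ∈ T) :
    ∃ i, 1 ≤ i ∧ i ≤ k₁ ∧ par (w i) = c ∧ Conn ω T (w i) (en c (pth ω a τ)) := by
  have hpos : 0 < τ := by
    rcases Nat.eq_zero_or_pos τ with rfl | h0
    · exact absurd (h.TU (Finset.mem_coe.2 hτ)) h.fbU
    · exact h0
  obtain ⟨r, rfl⟩ : ∃ r, τ = r + 1 := ⟨τ - 1, by omega⟩
  rw [fb_pth_succ] at hτ
  obtain ⟨i, hi1, hi2, hi3, hi4⟩ := h.conn_in hst r (by omega) hτ
  exact ⟨i, hi1, hi2, hi3, conn_trans hi4 (conn_pth h.hc (Nat.le_succ r) fun l h1 h2 => Or.inl (by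
      have : l = r := by omega
      rw [this]; exact Finset.mem_coe.2 hτ))⟩

/-- The same domain for the other colour, the contour reversed. -/
theorem TipDom.flip : TipDom ω (1 - c) R U T m (flipw m w)
    (m + 1 - k₃) (m + 1 - k₁) a := by
  have k1 := h.h1
  have k13 := h.h13
  have k3 := h.h3
  have hm := h.m_pos
  have hcl := h.ctr.close
  have w0 : flipw m w 0 = w 1 := flipw_zero
  have w1 : flipw m w 1 = w 0 := by
    rw [flipw_pos le_rfl, ← hcl, Nat.add_sub_cancel]
  have wi : ∀ i, 1 ≤ i → flipw m w i = w (m + 1 - i) := fun i hi => flipw_pos hi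
  -- the sides
  have hside0 : ∀ e, Joins e (flipw m w 0) (flipw m w (0 + 1)) ↔ Joins e (w 0) (w (0 + 1)) := by
    intro e
    rw [zero_add, w0, w1]
    exact ⟨fun h => h.symm, fun h => h.symm⟩
  have hside : ∀ i, 1 ≤ i → i < m → ∀ e,
      Joins e (flipw m w i) (flipw m w (i + 1)) ↔
        Joins e (w (m - i)) (w (m - i + 1)) := by
    intro i hi him e
    rw [wi i hi, wi (i + 1) (by omega), show m + 1 - i = m - i + 1 by omega,
      show m + 1 - (i + 1) = m - i by omega]
    exact ⟨fun h => h.symm, fun h => h.symm⟩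
  have hc := h.hc
  have hp0 : par (w 0) = 1 - c := by
    have h2 := h.tip.par_ne
    have h3 := h.parc
    have h4 := par_cases (w 0)
    omega
  have hpne : ∀ v : ℤ × ℤ, par v = 1 - c → par v ≠ c := fun v hv => by omega
  have hpne' : ∀ v : ℤ × ℤ, par v ≠ 1 - c → par v = c := fun v hv => by
    have := par_cases v
    omega
  refine ⟨h.hR, h.UR, h.TU, h.cT, ⟨?_, ?_, ?_, ?_, h.ctr.pot⟩, by omega, by omega, by omega, ?_,
    h.faT, h.fbU, ?_, ?_, ?_, ?_, ?_⟩
  · rw [wi m (by omega), w0, show m + 1 - m = 1 by omega]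
  · intro i hi
    rcases Nat.eq_zero_or_pos i with rfl | hpos
    · obtain ⟨e, he, hj⟩ := h.ctr.step 0 hm
      exact ⟨e, he, (hside0 e).2 hj⟩
    · obtain ⟨e, he, hj⟩ := h.ctr.step (m - i) (by omega)
      exact ⟨e, he, (hside i hpos hi e).2 hj⟩
  · intro e he
    obtain ⟨i, hi, hj⟩ := h.ctr.all e he
    rcases Nat.eq_zero_or_pos i with rfl | hpos
    · exact ⟨0, hm, (hside0 e).2 hj⟩
    · refine ⟨m - i, by omega, (hside (m - i) (by omega) (by omega) e).2 ?_⟩
      rw [show m - (m - i) = i by omega]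
      exact hj
  · intro i hi k hk e h1 h2
    rcases Nat.eq_zero_or_pos i with rfl | hi0 <;> rcases Nat.eq_zero_or_pos k with rfl | hk0
    · rfl
    · have := h.ctr.inj 0 hm (m - k) (by omega) e ((hside0 e).1 h1) ((hside k hk0 hk e).1 h2)
      omega
    · have := h.ctr.inj (m - i) (by omega) 0 hm e ((hside i hi0 hi e).1 h1) ((hside0 e).1 h2)
      omega
    · have := h.ctr.inj (m - i) (by omega) (m - k) (by omega) e ((hside i hi0 hi e).1 h1)
        ((hside k hk0 hk e).1 h2)
      omega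
  · rw [w0, w1]
    exact h.tip.symm
  · rw [w1]; exact hp0
  · intro i hi1 hi2 s g hj hg
    exact h.cut (m - i) (by omega) (by omega) s g ((hside i (by omega) (by omega) s).1 hj) hg
  · intro i hi1 hi2 y hy hpy
    rw [wi y (by omega)] at hpy ⊢
    rw [w1]
    exact h.wl (m - i) (by omega) (by omega) _ (by omega) (hpne _ hpy)
  · intro i hi1 hi2 y hy hpy
    rw [wi y (by omega)] at hpy ⊢
    rw [w0]
    exact h.wb (m - i) (by omega) (by omega) _ (by omega) (hpne' _ hpy)
  · obtain ⟨i, s, g, g', z, hi1, hi2, hj, hg, hgT, hch, hz, hconn⟩ := h.q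
    refine ⟨m - i, s, g, g', z, by omega, by omega, ?_, hg, hgT, hch, hz, ?_⟩
    · refine (hside (m - i) (by omega) (by omega) s).2 ?_
      rw [show m - (m - i) = i by omega]
      exact hj
    · rw [w0, w1]
      exact hconn.symm

/-- The end of the other colour of the exit side is joined in `T` to the left wall. -/
theorem TipDom.exit_conn' {τ : ℕ} (hst : ∀ i < τ, fa (pth ω a i) ∈ T ∨ fa (pth ω a i) ∉ U)
    (hτ : fb (pth ω a τ) ∈ T) :
    ∃ i, k₃ ≤ i ∧ i ≤ m ∧ par (w i) ≠ c ∧ Conn ω T (w i) (en (1 - c) (pth ω a τ)) := by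
  obtain ⟨i, hi1, hi2, hi3, hi4⟩ := h.flip.exit_conn hst hτ
  have k1 := h.h1
  have k13 := h.h13
  have k3 := h.h3
  have hc := h.hc
  have e1 : flipw m w i = w (m + 1 - i) := flipw_pos hi1
  rw [e1] at hi3 hi4
  exact ⟨m + 1 - i, by omega, by omega, by omega, hi4⟩

/-- **EXIT IDENTITY.** If the strand leaves `T` through the cut side `x`, then `k₂ ≤ x` if and only if
the right wall is joined in `T` to the arc `[k₂, k₃]` by the colour `c`. -/
theorem TipDom.exit_cross_iff {τ : ℕ}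
    (hst : ∀ i < τ, fa (pth ω a i) ∈ T ∨ fa (pth ω a i) ∉ U) (hτ : fb (pth ω a τ) ∈ T) {x : ℕ}
    (hx1 : k₁ ≤ x) (hx3 : x < k₃) (hj : Joins (pth ω a τ) (w x) (w (x + 1))) {k₂ : ℕ}
 :
    k₂ ≤ x ↔ ω ∈ CrossA (T : Set (ℤ × ℤ)) w c 0 k₁ k₂ k₃ := by
  have k1 := h.h1
  have k3 := h.h3
  have hc := h.hc
  have p1 := par_ne_succ h.ctr (i := x) (by omega)
  have c1 := par_cases (w x)
  have c2 := par_cases (w (x + 1))
  constructor
  · intro hkx
    obtain ⟨i, hi1, hi2, hi3, hi4⟩ := h.exit_conn hst hτ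
    by_cases hp : par (w x) = c
    · rw [en_joins hj hp] at hi4
      exact ⟨i, Nat.zero_le _, hi2, x, hkx, hx3.le, hi3, hi4⟩
    · rw [en_joins hj.symm (by omega)] at hi4
      exact ⟨i, Nat.zero_le _, hi2, x + 1, by omega, hx3, hi3, hi4⟩
  · rintro ⟨i, -, hi, l, hl, hl3, hpi, hil⟩
    by_contra hlt
    push Not at hlt
    obtain ⟨j, hj1, hj2, hj3, hj4⟩ := h.exit_conn' hst hτ
    have pl : par (w l) = c := by rw [← hpi]; exact (Conn.par_eq hil).symm
    obtain ⟨y, hy, hyp, hye⟩ : ∃ y, (y = x ∨ y = x + 1) ∧ par (w y) = 1 - c ∧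
        en (1 - c) (pth ω a τ) = w y := by
      by_cases hp : par (w x) = c
      · exact ⟨x + 1, Or.inr rfl, by omega, en_joins hj.symm (by omega)⟩
      · exact ⟨x, Or.inl rfl, by omega, en_joins hj (by omega)⟩
    rw [hye] at hj4
    have n1 : i ≠ y := by rintro rfl; omega
    have n2 : y ≠ l := by rintro rfl; omega
    have n3 : l ≠ j := by rintro rfl; omega
    exact ctr_nc h.ctr ω (t := i) (b := y) (a := l) (b' := j) (by omega) (by omega) (by omega)
      (Or.inr (by omega)) hj2 (by omega) hil (conn_symm hj4)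

end Dom

end Pool.Agent.SixB
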