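import Pool.Agent.Lib.SixB.S8FinD
import Pool.Agent.Lib.SixB.S8InvD

/-!
# Step 8: coverage, the distances from the tip and from the base of the needle

* `sd_cl_le`, `sd_cl_le'`: a face whose unit cell is near a coarse corner (a coarse face with this
  corner) is near a face at a vertex near the blown up corner;
* `nearT_of`, `nearT_of_runB`: the faces of the box around the block are near the true tip;
* `nearB_of`, `nearB_of_face`: the faces of the box around the target side are near the base.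
-/

set_option autoImplicit false

namespace Pool.Agent.SixB.Cov

open Pool.Agent.Perc Pool.Agent.Perc6 Pool.Agent.PercT Pool.Agent.PercX60
open Pool.Agent.SixB Pool.Agent.SixB.Rule Pool.Agent.SixB.Dct Pool.Agent.SixB.Mv
open Pool.Agent.SixB.Tru Pool.Agent.SixB.Top Pool.Agent.SixB.Blow
open Pool.Agent.SixB.Ndle (sd)
open Pool.Agent.Perc.Tips (ahead)

/-- The distance in coordinates. -/
theorem sd_crd {u v : ℤ × ℤ} {r : ℤ} : sd u v ≤ r ↔
    v.1 - r ≤ u.1 ∧ u.1 ≤ v.1 + r ∧ v.2 - r ≤ u.2 ∧ u.2 ≤ v.2 + r := by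
  unfold Ndle.sd
  rw [max_le_iff, abs_le, abs_le]
  omega

/-- Coordinates. -/
theorem cl_crd {u c f : ℤ} (hu : 0 < u) (h : f / u = c) : u * c ≤ f ∧ f ≤ u * c + u - 1 := by
  subst h
  have h1 := Int.mul_ediv_add_emod f u
  have h2 := Int.emod_nonneg f hu.ne'
  have h3 := Int.emod_lt_of_pos f hu
  constructor <;> omega

/-- A face whose unit cell is near the coarse corner `z` is near `y`, a face at a vertex near the
blown up corner. -/
theorem sd_cl_le {u R r : ℤ} (hu : 0 < u) {z x y f : ℤ × ℤ} (h : Blow.cl u f ∈ sqr R z)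
    (hx : LC.InB (u * z.1, u * z.2) r x) (hy : IsCor y x) : sd y f ≤ r + u * (R + 1) := by
  have h1 := cl_crd (f := f.1) hu rfl
  have h2 := cl_crd (f := f.2) hu rfl
  obtain ⟨h3, h4⟩ := h
  rw [abs_le] at h3 h4
  unfold Blow.cl at h3 h4
  simp only at h3 h4
  unfold LC.InB at hx
  unfold IsCor at hy
  simp only at hx
  have e1 : u * (f.1 / u) ≤ u * (z.1 + R) := mul_le_mul_of_nonneg_left (by linarith [h3.2]) hu.le
  have e2 : u * (z.1 - R) ≤ u * (f.1 / u) := mul_le_mul_of_nonneg_left (by linarith [h3.1]) hu.le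
  have e3 : u * (f.2 / u) ≤ u * (z.2 + R) := mul_le_mul_of_nonneg_left (by linarith [h4.2]) hu.le
  have e4 : u * (z.2 - R) ≤ u * (f.2 / u) := mul_le_mul_of_nonneg_left (by linarith [h4.1]) hu.le
  rw [mul_add] at e1 e3 ⊢
  rw [mul_sub] at e2 e4
  rw [sd_crd]
  omega

/-- The same, the unit cell is near a coarse face with the corner `z`. -/
theorem sd_cl_le' {u R r : ℤ} (hu : 0 < u) {z g x y f : ℤ × ℤ} (hg : IsCor g z)
    (h : Blow.cl u f ∈ sqr R g) (hx : LC.InB (u * z.1, u * z.2) r x) (hy : IsCor y x) :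
    sd y f ≤ r + u * (R + 1) := by
  have h1 := cl_crd (f := f.1) hu rfl
  have h2 := cl_crd (f := f.2) hu rfl
  obtain ⟨h3, h4⟩ := h
  rw [abs_le] at h3 h4
  unfold Blow.cl at h3 h4
  simp only at h3 h4
  unfold LC.InB at hx
  unfold IsCor at hy hg
  simp only at hx
  have e1 : u * (f.1 / u) ≤ u * (g.1 + R) := mul_le_mul_of_nonneg_left (by linarith [h3.2]) hu.le
  have e2 : u * (g.1 - R) ≤ u * (f.1 / u) := mul_le_mul_of_nonneg_left (by linarith [h3.1]) hu.le
  have e3 : u * (f.2 / u) ≤ u * (g.2 + R) := mul_le_mul_of_nonneg_left (by linarith [h4.2]) hu.le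
  have e4 : u * (g.2 - R) ≤ u * (f.2 / u) := mul_le_mul_of_nonneg_left (by linarith [h4.1]) hu.le
  have e5 : u * g.1 ≤ u * z.1 ∧ u * z.1 ≤ u * g.1 + u := by
    rcases hg.1 with e | e <;> rw [e]
    · exact ⟨le_refl _, by linarith⟩
    · rw [mul_add]; constructor <;> linarith
  have e6 : u * g.2 ≤ u * z.2 ∧ u * z.2 ≤ u * g.2 + u := by
    rcases hg.2 with e | e <;> rw [e]
    · exact ⟨le_refl _, by linarith⟩
    · rw [mul_add]; constructor <;> linarith
  rw [mul_add] at e1 e3 ⊢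
  rw [mul_sub] at e2 e4
  rw [sd_crd]
  omega

section Near

variable {𝔇 : Dat} {d : ℕ → ℕ} {n : ℕ} {s : TS} {q : Rule.Ndl} {D : Dom} {ω : Cfg} {r R : ℤ}

/-- **The faces of the box around the block are near the true tip**, from the position of the true
tip side. -/
theorem nearT_of (hu : 0 < unt d n) (hL : 1 ≤ (𝔇.gr d s.x D).L)
    (hn : LC.InB (lf (subE (unt d n) D.A 0)) r (rg (tS s q ω)))
    (hR : r + unt d n * ((𝔇.gr d s.x D).M * (𝔇.gr d s.x D).L + 17 * (𝔇.gr d s.x D).L) ≤ R) :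
    NearT 𝔇 d n s q D ω R := by
  intro f hf
  have hu' : (0 : ℤ) < unt d n := by exact_mod_cast hu
  rw [lf_subE_zero] at hn
  have hc : IsCor (fa (pS s.V q ω s.t)) (rg (tS s q ω)) := by
    have := isCor_in_rg (tS s q ω)
    unfold tS at this ⊢
    rwa [ahead_dirE] at this
  have h := sd_cl_le (z := D.tip) hu' hf hn hc
  have h2 : (unt d n : ℤ) * ((𝔇.gr d s.x D).M * (𝔇.gr d s.x D).L + 16 * (𝔇.gr d s.x D).L + 1) ≤
      unt d n * ((𝔇.gr d s.x D).M * (𝔇.gr d s.x D).L + 17 * (𝔇.gr d s.x D).L) :=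
    mul_le_mul_of_nonneg_left (by linarith) hu'.le
  linarith

theorem nearT_of_runB {κ : ℤ × ℤ → ℤ × ℤ} {m x : ℕ} (h : RunB 𝔇 d n r s ω q D κ m x)
    (hu : 0 < unt d n) (hL : 1 ≤ (𝔇.gr d s.x D).L)
    (hR : r + unt d n * ((𝔇.gr d s.x D).M * (𝔇.gr d s.x D).L + 17 * (𝔇.gr d s.x D).L) ≤ R) :
    NearT 𝔇 d n s q D ω R :=
  nearT_of hu hL h.near hR

/-- **The faces of the box around the target side are near the base**, `y`: a vertex of the base face. -/
theorem nearB_of {y : ℤ × ℤ} (hu : 0 < unt d n) (hL : 1 ≤ (𝔇.gr d s.x D).L)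
    (hn : LC.InB y r (lf (subE (unt d n) D.B 0))) (hy : IsCor (fa (pS s.V q ω 0)) y)
    (hR : r + unt d n * (17 * (𝔇.gr d s.x D).L) ≤ R) : NearB 𝔇 d n s q D ω R := by
  intro f hf
  have hu' : (0 : ℤ) < unt d n := by exact_mod_cast hu
  rw [lf_subE_zero] at hn
  have hn' : LC.InB ((unt d n : ℤ) * (lf D.B).1, (unt d n : ℤ) * (lf D.B).2) r y := by
    unfold LC.InB at hn ⊢
    simp only at hn ⊢
    omega
  have h := sd_cl_le' (z := lf D.B) hu' (isCor_in_lf D.B) hf hn' hy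
  have h2 : (unt d n : ℤ) * (16 * (𝔇.gr d s.x D).L + 1) ≤ unt d n * (17 * (𝔇.gr d s.x D).L) :=
    mul_le_mul_of_nonneg_left (by linarith) hu'.le
  linarith

/-- From the field `bas` of the invariant. -/
theorem nearB_of_bas (hu : 0 < unt d n) (hL : 1 ≤ (𝔇.gr d s.x D).L)
    (hn : LC.InB (ua (eS s.V q)) r (lf (subE (unt d n) D.B 0)))
    (hR : r + unt d n * (17 * (𝔇.gr d s.x D).L) ≤ R) : NearB 𝔇 d n s q D ω R :=
  nearB_of hu hL hn (LC.side_cor (isSide_fa (eS s.V q)) (Or.inl ⟨rfl, rfl⟩)).1 hR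

/-- The base face is near `y` and `y` is near the target side. -/
theorem nearB_of_face {y : ℤ × ℤ} {r' : ℤ} (hu : 0 < unt d n) (hL : 1 ≤ (𝔇.gr d s.x D).L)
    (hn : LC.InB y r (lf (subE (unt d n) D.B 0))) (hy : sd (fa (pS s.V q ω 0)) y ≤ r')
    (hR : r + r' + unt d n * (17 * (𝔇.gr d s.x D).L) ≤ R) : NearB 𝔇 d n s q D ω R := by
  intro f hf
  have hu' : (0 : ℤ) < unt d n := by exact_mod_cast hu
  rw [lf_subE_zero] at hn
  have hn' : LC.InB ((unt d n : ℤ) * (lf D.B).1, (unt d n : ℤ) * (lf D.B).2) r y := by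
    unfold LC.InB at hn ⊢
    simp only at hn ⊢
    omega
  have h := sd_cl_le' (z := lf D.B) hu' (isCor_in_lf D.B) hf hn'
    (⟨Or.inl rfl, Or.inl rfl⟩ : IsCor y y)
  have h2 : (unt d n : ℤ) * (16 * (𝔇.gr d s.x D).L + 1) ≤ unt d n * (17 * (𝔇.gr d s.x D).L) :=
    mul_le_mul_of_nonneg_left (by linarith) hu'.le
  rw [sd_crd] at h hy ⊢
  omega

end Near

end Pool.Agent.SixB.Cov
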