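import Pool.Agent.Lib.SixB.S8FinI
import Pool.Agent.Lib.SixB.S8InvW

/-!
# Step 8: coverage, the eroded cells

`eroN_of_stW`: the cells which are eroded when a needle is placed are near faces with a removed end, if
the components of the stored set are approximations (`StW`).
-/

set_option autoImplicit false

namespace Pool.Agent.SixB.Cov

open Pool.Agent.Perc Pool.Agent.Perc6 Pool.Agent.PercT Pool.Agent.PercX60
open Pool.Agent.SixB Pool.Agent.SixB.Rule Pool.Agent.SixB.Dct Pool.Agent.SixB.Mv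
open Pool.Agent.SixB.Tru
open Pool.Agent.SixB.Top (compT BD ChI compT_step self_mem_compT)
open Pool.Agent.SixB.Ndle (sd)

variable {𝔇 : Dat} {d : ℕ → ℕ} {n : ℕ} {ω : Cfg} {i : ℕ}

/-- A face of a stored component which is near the outside is near a face which is not fresh. -/
theorem stW_near {X F : Set (ℤ × ℤ)} {r R : ℤ} (h : StW X F r) {f k : ℤ × ℤ} (hf : f ∈ X)
    (hk : k ∉ X) (hR : sd k f ≤ R) : ∃ g, g ∉ F ∧ sd g f ≤ R + r := by
  obtain ⟨κ, F₀, hF, hA⟩ := h f hf
  have hk' : Blow.cl 1 k ∉ compT X f := by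
    unfold Blow.cl
    rw [Int.ediv_one, Int.ediv_one]
    exact fun h1 => hk (Top.compT_sub hf h1)
  have hf' : Blow.cl 1 f ∈ compT X f := by
    unfold Blow.cl
    rw [Int.ediv_one, Int.ediv_one]
    exact self_mem_compT
  obtain ⟨a, b, ha, hb, hab, haY, hbY⟩ := exists_exit hf' hk' hR
  unfold Blow.cl at haY hbY
  rw [Int.ediv_one, Int.ediv_one] at haY hbY
  obtain ⟨x, hx, hxF⟩ := hA.out a haY b (adj_iff_adjFL.2 hab) hbY
  refine ⟨x, fun h1 => hxF (hF h1), ?_⟩
  have h1 := hA.diam x b hx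
  have h2 : sd x b ≤ r := max_le h1.1.le h1.2.le
  have h3 := Ndle.sd_triangle x b f
  linarith

/-- **The eroded cells are near faces with a removed end.** -/
theorem eroN_of_stW {r : ℤ} (hu : 0 < unt d n) (hL : 0 < msh d i)
    (h : (sgm 𝔇 d n ω i).run = none →
      StW (blow (unt d n) (sgm 𝔇 d n ω i).W) (FU (TruR.ts 𝔇 d n ω i).V) r) :
    EroN 𝔇 d n ω i (6 * (unt d n * msh d i) + r) := by
  intro hrun hNw f hfW hfe
  have hu' : (0 : ℤ) < unt d n := by exact_mod_cast hu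
  obtain ⟨c, hc, hcf⟩ := near_of_eroded hL hfW hfe
  obtain ⟨k, h1, h2⟩ := exists_shift hu' f c
  have hk : k ∉ blow (unt d n) (sgm 𝔇 d n ω i).W := by
    show Blow.cl (unt d n) k ∉ (sgm 𝔇 d n ω i).W
    rw [h1]; exact hc
  have hR : sd k f ≤ 6 * (unt d n * msh d i) := by
    rw [h2]
    have := mul_le_mul_of_nonneg_left hcf.le hu'.le
    linarith
  obtain ⟨g, h3, h4⟩ := stW_near (h hrun) (show f ∈ blow _ _ from hfW) hk hR
  refine ⟨g, ?_, h4⟩
  have hq : (TruR.ts 𝔇 d n ω i).q = none := by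
    by_contra h5
    obtain ⟨x, hx⟩ := Option.ne_none_iff_exists'.1 h5
    obtain ⟨D, hD⟩ := (TruR.stOK_ts 𝔇 d n ω i).run x hx
    rw [sgm, hD] at hrun
    cases hrun
  unfold vst
  rw [hq]
  exact h3

end Pool.Agent.SixB.Cov
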