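import Pool.Agent.Lib.SixB.S8FinH

/-!
# Step 8: coverage, induction over the stages

`covI_succ`, `covI_all`: every face whose unit cell is not recorded is near a face with a removed end.
-/

set_option autoImplicit false

namespace Pool.Agent.SixB.Cov

open Pool.Agent.Perc Pool.Agent.Perc6 Pool.Agent.PercT Pool.Agent.PercX60
open Pool.Agent.SixB Pool.Agent.SixB.Rule Pool.Agent.SixB.Dct Pool.Agent.SixB.Mv
open Pool.Agent.SixB.Tru
open Pool.Agent.MP_6bd702.H23 (Ed ea eb)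
open Pool.Agent.PercU (Cor vtx fce nxt nxtE qry)
open Pool.Agent.SixB.Top (compT BD ChI compT_step self_mem_compT)
open Pool.Agent.SixB.Ndle (sd)
open Pool.Agent.Perc.Tips (ahead)

variable {𝔇 : Dat} {d : ℕ → ℕ} {n : ℕ} {ω : Cfg} {i : ℕ}

/-! ### Distances -/

theorem sd_comm' (f g : ℤ × ℤ) : sd f g = sd g f := by
  unfold Ndle.sd
  rw [abs_sub_comm f.1, abs_sub_comm f.2]

theorem sd_cell {u : ℤ} (hu : 0 < u) {f g : ℤ × ℤ} (h : Blow.cl u f = Blow.cl u g) :
    sd f g ≤ u - 1 := by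
  have h1 : f.1 / u = g.1 / u := congrArg Prod.fst h
  have h2 : f.2 / u = g.2 / u := congrArg Prod.snd h
  have a1 := Int.emod_add_mul_ediv f.1 u
  have a2 := Int.emod_add_mul_ediv f.2 u
  have a3 := Int.emod_add_mul_ediv g.1 u
  have a4 := Int.emod_add_mul_ediv g.2 u
  have b1 := Int.emod_nonneg f.1 hu.ne'
  have b2 := Int.emod_nonneg f.2 hu.ne'
  have b3 := Int.emod_nonneg g.1 hu.ne'
  have b4 := Int.emod_nonneg g.2 hu.ne'
  have c1 := Int.emod_lt_of_pos f.1 hu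
  have c2 := Int.emod_lt_of_pos f.2 hu
  have c3 := Int.emod_lt_of_pos g.1 hu
  have c4 := Int.emod_lt_of_pos g.2 hu
  rw [h1] at a1
  rw [h2] at a2
  refine max_le ?_ ?_ <;> rw [abs_le] <;> constructor <;> linarith

/-- The same position in another cell. -/
theorem exists_shift {u : ℤ} (hu : 0 < u) (f c : ℤ × ℤ) :
    ∃ g, Blow.cl u g = c ∧ sd g f = u * sd c (Blow.cl u f) := by
  refine ⟨(f.1 + u * (c.1 - f.1 / u), f.2 + u * (c.2 - f.2 / u)), ?_, ?_⟩
  · unfold Blow.cl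
    simp only
    rw [Int.add_mul_ediv_left _ _ hu.ne', Int.add_mul_ediv_left _ _ hu.ne']
    ext <;> simp
  · unfold Ndle.sd Blow.cl
    simp only [add_sub_cancel_left, abs_mul, abs_of_pos hu]
    rw [mul_max_of_nonneg _ _ hu.le]

/-! ### The remaining vertices -/

/-- The faces of the edges of the needle lose an end. -/
theorem ndl_notMem {h : ℕ} {T : Finset Edg} {V : Finset (ℤ × ℤ)} {q : Rule.Ndl}
    (hq : IsNdl h V q) {f : ℤ × ℤ} (hf : f ∈ QF q.1) : f ∉ FU (stpQ T V q) := by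
  rintro ⟨h1, -⟩
  have h2 : ea (eE f) ∈ qV q.1 := by
    unfold qV
    refine Finset.mem_union_left _ (Finset.mem_image.2 ⟨eE f, hf, ?_⟩)
    rfl
  have h3 := hq.conn _ h2
  refine (mem_stpQ.1 h1).2 (Or.inl ?_)
  have hmono : ∀ v, v ∈ clV q.1 q.2 → v ∈ clV (cfQ T V q) q.2 := by
    intro v hv
    induction hv with
    | refl => exact Relation.ReflTransGen.refl
    | tail _ h2 ih =>
      obtain ⟨e, he, hh⟩ := h2
      exact Relation.ReflTransGen.tail ih ⟨e, Finset.mem_union_right _ he, hh⟩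
  exact hmono _ h3

/-- The remaining vertices are those of the scan. -/
theorem vst_eq (𝔇 : Dat) (d : ℕ → ℕ) (n : ℕ) (ω : Cfg) (i : ℕ) : vst 𝔇 d n ω i =
    stR n (TruR.ruleT 𝔇 d n) (cfgE n ω) (TruR.cnt 𝔇 d (TruR.ts 𝔇 d n ω i)) :=
  (TruR.trcOK 𝔇 d n).stR_of_run ω i

theorem vst_anti (𝔇 : Dat) (d : ℕ → ℕ) (n : ℕ) (ω : Cfg) (i : ℕ) :
    vst 𝔇 d n ω (i + 1) ⊆ vst 𝔇 d n ω i := by
  rw [vst_eq, vst_eq]
  exact stR_anti n _ _ ((TruR.trcOK 𝔇 d n).mono_c (Nat.le_succ i))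

theorem FU_mono {U U' : Finset (ℤ × ℤ)} (h : U ⊆ U') : FU U ⊆ FU U' := fun _ hf =>
  ⟨h hf.1, h hf.2⟩

/-! ### One stage of the coarse state -/

theorem ts_len (𝔇 : Dat) (d : ℕ → ℕ) (n : ℕ) (ω : Cfg) (i : ℕ) :
    (TruR.ts 𝔇 d n ω i).x.length = i := by
  cases i with
  | zero => rfl
  | succ i => exact tst_len 𝔇 d n ω i

theorem ts_x (𝔇 : Dat) (d : ℕ → ℕ) (n : ℕ) (ω : Cfg) (i : ℕ) :
    (TruR.ts 𝔇 d n ω (i + 1)).x = recS 𝔇 d n i ω :: (TruR.ts 𝔇 d n ω i).x := by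
  have h1 : TruR.ts 𝔇 d n ω (i + 1) = nxS 𝔇 d n (TruR.ts 𝔇 d n ω i) ω := TruR.ts_succ ω i
  obtain ⟨ρ, h⟩ := nxS_x 𝔇 d n ω (TruR.ts 𝔇 d n ω i)
  have h2 : recS 𝔇 d n i ω = ρ := by
    unfold recS
    have h3 : tst 𝔇 d n ω i = nxS 𝔇 d n (TruR.ts 𝔇 d n ω i) ω := h1
    rw [h3, h]
    rfl
  rw [h1, h, h2]

theorem sgm_succ (𝔇 : Dat) (d : ℕ → ℕ) (n : ℕ) (ω : Cfg) (i : ℕ) :
    sgm 𝔇 d n ω (i + 1) =
      (sgm 𝔇 d n ω i).mv (𝔇.prm d) (msh d i) (msz (𝔇.prm d).kap d i) (recS 𝔇 d n i ω) := by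
  unfold sgm
  rw [ts_x, TruR.cs_cons, ts_len]

theorem gr_ts (𝔇 : Dat) (d : ℕ → ℕ) (n : ℕ) (ω : Cfg) (i : ℕ) (D : Dom) :
    𝔇.gr d (TruR.ts 𝔇 d n ω i).x D = D.grd (msh d i) (msz (𝔇.prm d).kap d i) := by
  unfold Dat.gr
  rw [ts_len]
  rfl

/-! ### The run stage -/

/-- A chain of faces from `f` inside a box leaves a set of cells at adjacent faces. -/
theorem exists_exit {u : ℤ} {Y : Set (ℤ × ℤ)} {f h : ℤ × ℤ} {R : ℤ} (hf : Blow.cl u f ∈ Y)
    (hh : Blow.cl u h ∉ Y) (hR : sd h f ≤ R) :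
    ∃ k k', sd k f ≤ R ∧ sd k' f ≤ R ∧ AdjF k k' ∧ Blow.cl u k ∈ Y ∧ Blow.cl u k' ∉ Y := by
  have h1 : ChI {g | sd g f < R + 1} f h := chI_box (fun g hg => hg) (by omega)
  have h0 : sd f f ≤ R := by
    rw [Ndle.sd_self]
    exact (Ndle.sd_nonneg h f).trans hR
  have key : ∀ k, ChI {g | sd g f < R + 1} f k → sd k f ≤ R ∧ (Blow.cl u k ∈ Y ∨
      ∃ k k', sd k f ≤ R ∧ sd k' f ≤ R ∧ AdjF k k' ∧ Blow.cl u k ∈ Y ∧ Blow.cl u k' ∉ Y) := by
    intro k hk
    induction hk with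
    | refl => exact ⟨h0, Or.inl hf⟩
    | @tail b c _ h2 ih =>
      have hc : sd c f ≤ R := Int.lt_add_one_iff.1 h2.2
      refine ⟨hc, ?_⟩
      rcases ih.2 with h3 | h3
      · by_cases h4 : Blow.cl u c ∈ Y
        · exact Or.inl h4
        · exact Or.inr ⟨b, c, ih.1, hc, h2.1, h3, h4⟩
      · exact Or.inr h3
  rcases (key h h1).2 with h2 | h2
  · exact absurd h2 hh
  · exact h2

/-- The cells of the new needle are near faces of its edges. -/
def NdlN (𝔇 : Dat) (d : ℕ → ℕ) (n : ℕ) (ω : Cfg) (i : ℕ) (r : ℤ) : Prop :=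
  (sgm 𝔇 d n ω i).run = none → (sgm 𝔇 d n ω i).Nw (𝔇.prm d) (msh d i) →
    ∀ q, (TruR.ts 𝔇 d n ω (i + 1)).q = some q → ∀ f : ℤ × ℤ,
      Blow.cl (unt d n) f ∈ (𝔇.prm d).ndl ((sgm 𝔇 d n ω i).c₁ (𝔇.prm d) (msh d i))
        ((𝔇.prm d).zt (sgm 𝔇 d n ω i).j) → ∃ g ∈ QF q.1, sd g f ≤ r

theorem vst_some {q : Rule.Ndl} (hq : (TruR.ts 𝔇 d n ω i).q = some q) :
    vst 𝔇 d n ω i = stpQ (cfgE n ω) (TruR.ts 𝔇 d n ω i).V q := by
  unfold vst
  rw [hq]
  rfl

/-- The faces which are visited by the strand of the running needle lose an end. -/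
theorem fa_notMem {q : Rule.Ndl} (hq : (TruR.ts 𝔇 d n ω i).q = some q) (t : ℕ) :
    fa (pS (TruR.ts 𝔇 d n ω i).V q ω t) ∉ FU (vst 𝔇 d n ω i) := by
  have hS := TruR.stOK_ts 𝔇 d n ω i
  rw [vst_some hq, TruR.pS_eq hS.sub]
  rintro ⟨h1, h2⟩
  rcases (strd_end (T := cfgE n ω) (hS.nd q hq).2 t).1 with h3 | h3
  · exact h3 h1
  · exact h3 h2

/-- **One stage.** -/
theorem covI_succ {r R ρ : ℤ} (hu : 0 < unt d n) (hL : 0 < msh d i) (hρ : CovI 𝔇 d n ω i ρ)
    (H : StgOK 𝔇 d n ω i r R)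
    (hN : NdlN 𝔇 d n ω i r) (hr : 0 ≤ r) (hR : 6 * (unt d n * msh d i) ≤ R) :
    CovI 𝔇 d n ω (i + 1) (max (r + R) (ρ + R)) := by
  have hu' : (0 : ℤ) < unt d n := by exact_mod_cast hu
  have hR0 : 0 ≤ R := by
    have : 0 < (unt d n : ℤ) * msh d i := mul_pos hu' hL
    omega
  intro f hf
  have old : ∀ g : ℤ × ℤ, g ∉ FU (vst 𝔇 d n ω i) → ∀ m, sd g f ≤ m → (m ≤ r + R ∨ m ≤ ρ + R) →
      ∃ g : ℤ × ℤ, g ∉ FU (vst 𝔇 d n ω (i + 1)) ∧ sd g f ≤ max (r + R) (ρ + R) := by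
    intro g hg m hm h
    refine ⟨g, fun h1 => hg (FU_mono (vst_anti 𝔇 d n ω i) h1), hm.trans ?_⟩
    rcases h with h | h
    · exact h.trans (le_max_left _ _)
    · exact h.trans (le_max_right _ _)
  by_cases h0 : Blow.cl (unt d n) f ∈ (sgm 𝔇 d n ω i).Rc
  swap
  · obtain ⟨g, hg, hgf⟩ := hρ f h0
    exact old g hg _ hgf (Or.inr (by omega))
  rw [sgm_succ] at hf
  rcases hrun : (sgm 𝔇 d n ω i).run with _ | D
  · obtain ⟨hW, hNw, h | h⟩ := drop_none hrun h0 hf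
    · -- eroded
      obtain ⟨c, hc, hcf⟩ := near_of_eroded hL hW h
      obtain ⟨f', h1, h2⟩ := exists_shift hu' f c
      have h3 : Blow.cl (unt d n) f' ∉ (sgm 𝔇 d n ω i).Rc := by
        rw [h1]
        rintro (h4 | ⟨D, h4, -⟩)
        · exact hc h4
        · rw [hrun] at h4
          cases h4
      obtain ⟨g, hg, hgf⟩ := hρ f' h3
      have h5 := Ndle.sd_triangle g f' f
      have h6 : (unt d n : ℤ) * sd c (Blow.cl (unt d n) f) ≤ 6 * (unt d n * msh d i) := by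
        have := mul_le_mul_of_nonneg_left hcf.le hu'.le
        linarith
      exact old g hg _ h5 (Or.inr (by rw [h2]; linarith))
    · -- the needle
      have h1 : (sgm 𝔇 d n ω (i + 1)).run.isSome := by
        rw [sgm_succ, CSt.mv_new hrun hNw]
        rfl
      obtain ⟨q, hq⟩ := H.new hrun h1
      obtain ⟨g, hg, hgf⟩ := hN hrun hNw q hq f h
      refine ⟨g, ?_, hgf.trans (by have := le_max_left (r + R) (ρ + R); linarith)⟩
      rw [vst_some hq]
      exact ndl_notMem ((TruR.stOK_ts 𝔇 d n ω (i + 1)).nd q hq).1 hg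
  · obtain ⟨hini, hP, h⟩ := drop_run hrun h0 hf
    obtain ⟨q, hq⟩ := H.run D hrun
    have hgr : 𝔇.gr d (TruR.ts 𝔇 d n ω i).x D = D.grd (msh d i) (msz (𝔇.prm d).kap d i) :=
      gr_ts 𝔇 d n ω i D
    obtain ⟨hval, hrec, hesc⟩ := H.val D hrun hini
    have hnear := H.near q D hq hrun hini
    have hbase := H.base q D hq hrun hini
    have hside := H.side q D hq hrun hini
    have hinv := H.inv.sep D hrun
    rw [← hgr] at h
    have hrT : D.rem (𝔇.gr d (TruR.ts 𝔇 d n ω i).x D) (recS 𝔇 d n i ω) ⊆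
        boxT D (𝔇.gr d (TruR.ts 𝔇 d n ω i).x D) := rem_sub_boxT hval hrec
    have tipN : ∀ k : ℤ × ℤ, Blow.cl (unt d n) k ∈ boxT D (𝔇.gr d (TruR.ts 𝔇 d n ω i).x D) →
        sd k f ≤ R → ∃ g : ℤ × ℤ, g ∉ FU (vst 𝔇 d n ω (i + 1)) ∧ sd g f ≤ max (r + R) (ρ + R) := by
      intro k hk hkf
      have h1 := hnear k hk
      have h2 := Ndle.sd_triangle (fa (pS (TruR.ts 𝔇 d n ω i).V q ω (TruR.ts 𝔇 d n ω i).t)) k f
      exact old _ (fa_notMem hq _) _ h2 (Or.inl (by linarith))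
    have hff : sd f f ≤ R := by rw [Ndle.sd_self]; exact hR0
    rcases h with h | h | h
    · exact tipN f (hrT h) hff
    · exact absurd (hval.ok_next hrec h.2.2.1 hesc) h.2.2.2
    · by_cases hbT' : Blow.cl (unt d n) f ∈ boxT D (𝔇.gr d (TruR.ts 𝔇 d n ω i).x D)
      · exact tipN f hbT' hff
      by_cases hbB : Blow.cl (unt d n) f ∈ boxB D (𝔇.gr d (TruR.ts 𝔇 d n ω i).x D)
      · exact old _ (fa_notMem hq 0) _ (hbase f hbB) (Or.inl (by linarith))
      by_cases hb : sd (fa (pS (TruR.ts 𝔇 d n ω i).V q ω 0)) f ≤ r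
      · exact old _ (fa_notMem hq 0) _ hb (Or.inl (by linarith))
      have hc : Blow.cl (unt d n) f ∈ D.P \ D.rem (𝔇.gr d (TruR.ts 𝔇 d n ω i).x D)
          (recS 𝔇 d n i ω) := ⟨hP, h.1⟩
      have hrg : RgtC D (𝔇.gr d (TruR.ts 𝔇 d n ω i).x D) (recS 𝔇 d n i ω)
          (Blow.cl (unt d n) f) := rgtC_of hval hrec hc h.2.1 h.2.2 hbT' hbB
      by_cases hdeep : ∀ k : ℤ × ℤ, sd k f ≤ R → Blow.cl (unt d n) k ∈
          compT (D.P \ D.rem (𝔇.gr d (TruR.ts 𝔇 d n ω i).x D) (recS 𝔇 d n i ω))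
            (Blow.cl (unt d n) f)
      · refine old f ?_ _ hff (Or.inl (by linarith))
        rw [vst_some hq]
        exact hside f hrg hdeep (not_le.1 hb)
      · push Not at hdeep
        obtain ⟨k, hk, hk'⟩ := hdeep
        obtain ⟨a, b, ha, hb', hab, haY, hbY⟩ := exists_exit (u := unt d n) self_mem_compT hk' hk
        have haS := Top.compT_sub hc haY
        have hbS : Blow.cl (unt d n) b ∉ D.P \ D.rem (𝔇.gr d (TruR.ts 𝔇 d n ω i).x D)
            (recS 𝔇 d n i ω) := by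
          intro hbS
          apply hbY
          rcases Blow.adj_cl hu' hab with h5 | h5
          · rw [← h5]; exact haY
          · exact compT_step haY h5 hbS
        by_cases hbP : Blow.cl (unt d n) b ∈ D.P
        · have hbr : Blow.cl (unt d n) b ∈ D.rem (𝔇.gr d (TruR.ts 𝔇 d n ω i).x D)
              (recS 𝔇 d n i ω) := by
            by_contra h6
            exact hbS ⟨hbP, h6⟩
          exact tipN b (hrT hbr) hb'
        · have hbR : Blow.cl (unt d n) b ∉ (sgm 𝔇 d n ω i).Rc := by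
            rintro (h6 | ⟨D', h6, h7⟩)
            · rcases Blow.adj_cl hu' hab with h5 | h5
              · rw [← h5] at h6
                exact hinv.dis _ h6 haS.1
              · exact hinv.adj _ h6 _ haS.1 h5.symm
            · rw [hrun] at h6
              cases h6
              exact hbP h7
          obtain ⟨g, hg, hgb⟩ := hρ b hbR
          have h5 := Ndle.sd_triangle g b f
          exact old g hg _ h5 (Or.inr (by linarith))

/-- **All stages.** -/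
theorem covI_all {r R : ℤ} {N : ℕ} (hu : 0 < unt d n) (hL : ∀ i < N, 0 < msh d i)
    (h0 : CovI 𝔇 d n ω 0 r) (H : ∀ i < N, StgOK 𝔇 d n ω i r R)
    (hN : ∀ i < N, NdlN 𝔇 d n ω i r) (hr : 0 ≤ r)
    (hR : ∀ i < N, 6 * (unt d n * msh d i) ≤ R) :
    ∀ i ≤ N, CovI 𝔇 d n ω i (r + i * R) := by
  intro i hi
  induction i with
  | zero => simpa using h0
  | succ i ih =>
    have h1 := covI_succ hu (hL i hi) (ih (by omega)) (H i hi) (hN i hi) hr (hR i hi)
    have hR0 : 0 ≤ R := by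
      have h2 := hR i hi
      have h3 : (0 : ℤ) < unt d n * msh d i := mul_pos (by exact_mod_cast hu) (hL i hi)
      omega
    intro f hf
    obtain ⟨g, hg, hgf⟩ := h1 f hf
    refine ⟨g, hg, hgf.trans (max_le ?_ ?_)⟩
    · push_cast
      have : 0 ≤ (i : ℤ) * R := by positivity
      linarith
    · push_cast
      linarith

/-! ### The data of the chain -/

section Dat

variable {K kap : ℕ}

/-- The needle which is placed. -/
theorem ts_new (h : (sgm 𝔇 d n ω i).run = none) {q : Rule.Ndl}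
    (hq : (TruR.ts 𝔇 d n ω (i + 1)).q = some q) :
    (TruR.ts 𝔇 d n ω (i + 1)).V = (TruR.ts 𝔇 d n ω i).V ∧
      q = nxQ 𝔇 d n (TruR.ts 𝔇 d n ω i) := by
  have hS := TruR.stOK_ts 𝔇 d n ω i
  have h0 : (TruR.ts 𝔇 d n ω i).q = none := by
    by_contra h1
    obtain ⟨x, hx⟩ := Option.ne_none_iff_exists'.1 h1
    obtain ⟨D, hD⟩ := hS.run x hx
    rw [sgm, hD] at h
    cases h
  have h1 : TruR.ts 𝔇 d n ω (i + 1) = plS 𝔇 d n (TruR.ts 𝔇 d n ω i) := by
    rw [TruR.ts_succ]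
    unfold nxS
    rw [h0]
    have h2 : (𝔇.cs d (TruR.ts 𝔇 d n ω i).x).run = none := h
    rw [h2]
  rw [h1] at hq ⊢
  refine ⟨rfl, ?_⟩
  unfold plS at hq
  simp only at hq
  split_ifs at hq with h3
  exact (Option.some.inj hq).symm

/-- The cells of the new needle are near faces of its edges. -/
theorem ndlN_datC (hu : 0 < unt d n) (i : ℕ) :
    NdlN (datC K kap) d n ω i ((unt d n : ℤ) - 1) := by
  intro hrun hNw q hq f hf
  have hu' : (0 : ℤ) < unt d n := by exact_mod_cast hu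
  obtain ⟨hV, rfl⟩ := ts_new hrun hq
  obtain ⟨k, h1, h2, h3⟩ := hf
  have hact : 3 * Hook.ndL K (d 0) ≤
      Ndle.dlt (toF ((sgm (datC K kap) d n ω i).c₁ ((datC K kap).prm d) (msh d i)))
        (((datC K kap).prm d).zt (sgm (datC K kap) d n ω i).j) := hNw.2.2.1
  have hlen := ts_len (datC K kap) d n ω i
  have hq' : QF (nxQ (datC K kap) d n (TruR.ts (datC K kap) d n ω i)).1 =
      (Ndle.ndF (unt d n) (Hook.fin ((sgm (datC K kap) d n ω i).c₁ ((datC K kap).prm d) (msh d i)))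
        (((datC K kap).prm d).zt (sgm (datC K kap) d n ω i).j) (Hook.ndL K (d 0)) : Set (ℤ × ℤ)) ∪
      (Hook.hkS (FU (TruR.ts (datC K kap) d n ω i).V)
        (blow (unt d n) ((sgm (datC K kap) d n ω i).c₁ ((datC K kap).prm d) (msh d i)))
        (Ndle.ndB (unt d n) (Hook.fin ((sgm (datC K kap) d n ω i).c₁ ((datC K kap).prm d) (msh d i)))
          (((datC K kap).prm d).zt (sgm (datC K kap) d n ω i).j)) : Set (ℤ × ℤ)) := by
    have := Hook.qF_hookU (u := unt d n) (L := Hook.ndL K (d 0))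
      (V := (TruR.ts (datC K kap) d n ω i).V)
      (C := (sgm (datC K kap) d n ω i).c₁ ((datC K kap).prm d) (msh d i))
      (z := ((datC K kap).prm d).zt (sgm (datC K kap) d n ω i).j)
    rw [← this]
    unfold nxQ Dat.disc
    rw [hlen]
    rfl
  refine ⟨Ndle.cen (unt d n) (Ndle.ndc (toF ((sgm (datC K kap) d n ω i).c₁
    ((datC K kap).prm d) (msh d i))) (((datC K kap).prm d).zt (sgm (datC K kap) d n ω i).j) k), ?_, ?_⟩
  · rw [hq']
    exact Or.inl (Ndle.ndF_cen hu' (by rw [fin_eq_toF]; omega) h1 h2)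
  · refine sd_cell hu' ?_
    rw [h3]
    exact Ndle.cel_cen hu' _

/-- **The start.** -/
theorem covI_zero {r : ℕ} (hu : 2 ≤ unt d n) (hn : n = 2 ^ (d 0) * unt d n + r)
    (hr : 2 * r + 1 < unt d n) : CovI (datC K kap) d n ω 0 ((unt d n : ℤ) - 1) := by
  intro f hf
  have hu' : (0 : ℤ) < unt d n := by omega
  have h1 : Blow.cl (unt d n) f ∉ Box0.W0 (d 0) := fun h => hf (Or.inl h)
  rw [← Box0.cell_sub_iff hu hn hr] at h1
  push Not at h1
  obtain ⟨g, h2, h3⟩ := h1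
  refine ⟨g, ?_, sd_cell hu' h2⟩
  have h4 : vst (datC K kap) d n ω 0 = Box n := rfl
  rw [h4, Box0.FU_Box]
  exact fun h => h3 (Finset.mem_coe.1 h)

end Dat

/-! ### The coverage of one point -/

theorem vst_le (𝔇 : Dat) (d : ℕ → ℕ) (n : ℕ) (ω : Cfg) {i N : ℕ} (h : i ≤ N) :
    vst 𝔇 d n ω N ⊆ vst 𝔇 d n ω i := by
  induction N, h using Nat.le_induction with
  | base => exact Finset.Subset.refl _
  | succ N _ ih => exact (vst_anti 𝔇 d n ω N).trans ih

/-- **One stage, for one point.** If all the faces near `x` are left then no cell near `x` is lost. -/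
theorem boxZ_succ {r B A : ℤ} {x : ℤ × ℤ} (hu : 0 < unt d n) {N : ℕ} (hi : i < N)
    (hfree : ∀ g : ℤ × ℤ, sd g x ≤ A → g ∈ FU (vst 𝔇 d n ω N)) (hr : (unt d n : ℤ) - 1 ≤ r)
    (hB : 0 < B) (hA : unt d n * (B - 1) + r ≤ A)
    (H : StgZ 𝔇 d n ω i r B A x)
    (hN : NdlN 𝔇 d n ω i ((unt d n : ℤ) - 1))
    (hI : ∀ c, sd c (Blow.cl (unt d n) x) < B → c ∈ (sgm 𝔇 d n ω i).Rc) :
    ∀ c, sd c (Blow.cl (unt d n) x) < B → c ∈ (sgm 𝔇 d n ω (i + 1)).Rc := by
  have hu' : (0 : ℤ) < unt d n := by exact_mod_cast hu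
  -- a removed face near a cell of the box is impossible
  have bad : ∀ c, sd c (Blow.cl (unt d n) x) < B → ∀ f, Blow.cl (unt d n) f = c →
      sd f x ≤ unt d n * (B - 1) → ∀ g : ℤ × ℤ, sd g f ≤ r →
      (g ∉ FU (vst 𝔇 d n ω i) ∨ g ∉ FU (vst 𝔇 d n ω (i + 1))) → False := by
    intro c _ f _ hfx g hgf hg
    have h1 := Ndle.sd_triangle g f x
    have h2 := hfree g (by linarith)
    rcases hg with hg | hg
    · exact hg (FU_mono (vst_le 𝔇 d n ω hi.le) h2)
    · exact hg (FU_mono (vst_le 𝔇 d n ω hi) h2)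
  have shf : ∀ c, sd c (Blow.cl (unt d n) x) < B → ∃ f, Blow.cl (unt d n) f = c ∧
      sd f x ≤ unt d n * (B - 1) := by
    intro c hc
    obtain ⟨f, h1, h2⟩ := exists_shift hu' x c
    refine ⟨f, h1, ?_⟩
    rw [h2]
    exact mul_le_mul_of_nonneg_left (by omega) hu'.le
  intro c hc
  by_contra hf
  obtain ⟨f, hfc, hfx⟩ := shf c hc
  have h0 := hI c hc
  rw [sgm_succ] at hf
  rcases hrun : (sgm 𝔇 d n ω i).run with _ | D
  · obtain ⟨hW, hNw, h | h⟩ := drop_none hrun h0 hf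
    · obtain ⟨g, hg, hgf⟩ := H.ero hrun hNw f (by rw [hfc]; exact hW) (by rw [hfc]; exact h)
      exact bad c hc f hfc hfx g hgf (Or.inl hg)
    · have h1 : (sgm 𝔇 d n ω (i + 1)).run.isSome := by
        rw [sgm_succ, CSt.mv_new hrun hNw]
        rfl
      obtain ⟨q, hq⟩ := H.new hrun h1
      obtain ⟨g, hg, hgf⟩ := hN hrun hNw q hq f (by rw [hfc]; exact h)
      refine bad c hc f hfc hfx g (hgf.trans hr) (Or.inr ?_)
      rw [vst_some hq]
      exact ndl_notMem ((TruR.stOK_ts 𝔇 d n ω (i + 1)).nd q hq).1 hg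
  · obtain ⟨hini, hP, h⟩ := drop_run hrun h0 hf
    obtain ⟨q, hq⟩ := H.run D hrun
    have hgr : 𝔇.gr d (TruR.ts 𝔇 d n ω i).x D = D.grd (msh d i) (msz (𝔇.prm d).kap d i) :=
      gr_ts 𝔇 d n ω i D
    obtain ⟨hval, hrec, hesc⟩ := H.val D hrun hini
    have hnear := H.near q D hq hrun hini
    have hbase := H.base q D hq hrun hini
    have hside := H.side q D hq hrun hini
    have hinv := H.inv.sep D hrun
    rw [← hgr] at h
    have hrT : D.rem (𝔇.gr d (TruR.ts 𝔇 d n ω i).x D) (recS 𝔇 d n i ω) ⊆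
        boxT D (𝔇.gr d (TruR.ts 𝔇 d n ω i).x D) := rem_sub_boxT hval hrec
    have noT : ∀ c, sd c (Blow.cl (unt d n) x) < B →
        c ∉ boxT D (𝔇.gr d (TruR.ts 𝔇 d n ω i).x D) := by
      intro c hc hcT
      obtain ⟨f, hfc, hfx⟩ := shf c hc
      exact bad c hc f hfc hfx _ (hnear f (by rw [hfc]; exact hcT)) (Or.inl (fa_notMem hq _))
    have noB : ∀ c, sd c (Blow.cl (unt d n) x) < B →
        c ∉ boxB D (𝔇.gr d (TruR.ts 𝔇 d n ω i).x D) := by
      intro c hc hcT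
      obtain ⟨f, hfc, hfx⟩ := shf c hc
      exact bad c hc f hfc hfx _ (hbase f (by rw [hfc]; exact hcT)) (Or.inl (fa_notMem hq 0))
    rcases h with h | h | h
    · exact noT c hc (hrT h)
    · exact absurd (hval.ok_next hrec h.2.2.1 hesc) h.2.2.2
    · -- the whole box is in `P`
      have hz0 : sd (Blow.cl (unt d n) x) (Blow.cl (unt d n) x) < B := by
        rw [Ndle.sd_self]; exact hB
      have hcz : ChI {c | sd c (Blow.cl (unt d n) x) < B} (Blow.cl (unt d n) x) c :=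
        chI_box (fun g hg => hg) hc
      have hall : ∀ b, ChI {c | sd c (Blow.cl (unt d n) x) < B} c b → b ∈ D.P := by
        intro b hb
        induction hb with
        | refl => exact hP
        | @tail a b _ h2 ih =>
          rcases hI b h2.2 with h3 | ⟨D', h3, h4⟩
          · exact absurd h2.1.symm (hinv.adj b h3 a ih)
          · rw [hrun] at h3
            cases h3
            exact h4
      have hzc : ChI {c | sd c (Blow.cl (unt d n) x) < B} c (Blow.cl (unt d n) x) :=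
        ChI.symm (S := {c | sd c (Blow.cl (unt d n) x) < B}) hz0 hcz
      have hbox : ∀ b, sd b (Blow.cl (unt d n) x) < B → b ∈ D.P \
          D.rem (𝔇.gr d (TruR.ts 𝔇 d n ω i).x D) (recS 𝔇 d n i ω) := by
        intro b hb
        refine ⟨hall b (hzc.trans (chI_box (fun g hg => hg) hb)), fun h5 => noT b hb (hrT h5)⟩
      have hcomp : ∀ b, sd b (Blow.cl (unt d n) x) < B → b ∈ compT (D.P \
          D.rem (𝔇.gr d (TruR.ts 𝔇 d n ω i).x D) (recS 𝔇 d n i ω)) (Blow.cl (unt d n) x) :=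
        fun b hb => chI_box hbox hb
      have hzS := hbox _ hz0
      have hcS := hbox c hc
      have heq : compT (D.P \ D.rem (𝔇.gr d (TruR.ts 𝔇 d n ω i).x D) (recS 𝔇 d n i ω)) c =
          compT (D.P \ D.rem (𝔇.gr d (TruR.ts 𝔇 d n ω i).x D) (recS 𝔇 d n i ω))
            (Blow.cl (unt d n) x) := Top.compT_eq hzS (hcomp c hc)
      have hzB : ahead D.B ∉ compT (D.P \ D.rem (𝔇.gr d (TruR.ts 𝔇 d n ω i).x D)
          (recS 𝔇 d n i ω)) (Blow.cl (unt d n) x) := by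
        rw [← heq]; exact h.2.1
      have hzl : Blow.cl (unt d n) x ∉ D.lef (𝔇.gr d (TruR.ts 𝔇 d n ω i).x D)
          (recS 𝔇 d n i ω) := by
        intro hl
        have h6 := (Dom.uoc_lef D (𝔇.gr d (TruR.ts 𝔇 d n ω i).x D) (recS 𝔇 d n i ω)).compT hl
        refine h.2.2 ?_
        have h7 := hcomp c hc
        rw [← h6] at h7
        exact Top.compT_sub hl h7
      refine hside (rgtC_of hval hrec hzS hzB hzl (noT _ hz0) (noB _ hz0)) hcomp fun f hf => ?_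
      rw [← vst_some hq]
      exact FU_mono (vst_le 𝔇 d n ω hi.le) (hfree f hf)

/-- The form for one cell gives the form for one face. -/
theorem SideZ.toX {s : TS} {q : Rule.Ndl} {D : Dom} {ρ : Rec} {B A : ℤ} {x : ℤ × ℤ}
    (hu : 0 < unt d n) (h : SideZ 𝔇 d n s q D ρ ω B (Blow.cl (unt d n) x))
    (hA : (unt d n : ℤ) - 1 ≤ A) : SideX 𝔇 d n s q D ρ ω B A x := by
  intro h1 h2 h3
  obtain ⟨f, h4, h5⟩ := h h1 h2
  exact h5 (h3 f ((sd_cell (by exact_mod_cast hu) h4).trans hA))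

/-- The form for all faces gives the form for one face. -/
theorem SideR.toX {s : TS} {q : Rule.Ndl} {D : Dom} {ρ : Rec} {B A R R' : ℤ} {x : ℤ × ℤ}
    (hu : 0 < unt d n) (h : SideR 𝔇 d n s q D ρ ω R R') (hR : R + unt d n ≤ unt d n * (B - 1))
    (hA : 0 ≤ A) (hA' : R' ≤ A) (hb : fa (pS s.V q ω 0) ∉ FU (stpQ (cfgE n ω) s.V q)) :
    SideX 𝔇 d n s q D ρ ω B A x := by
  intro h1 h2 h3
  have hu' : (0 : ℤ) < unt d n := by exact_mod_cast hu
  refine h x h1 (fun k hk => h2 _ ?_) ?_ (h3 x (by rw [Ndle.sd_self]; exact hA))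
  · have key : ∀ a b : ℤ, |a - b| ≤ R → |a / unt d n - b / unt d n| < B := by
      intro a b hab
      have e1 := Int.mul_ediv_add_emod a (unt d n)
      have e2 := Int.emod_nonneg a hu'.ne'
      have e3 := Int.emod_lt_of_pos a hu'
      have e4 := Int.mul_ediv_add_emod b (unt d n)
      have e5 := Int.emod_nonneg b hu'.ne'
      have e6 := Int.emod_lt_of_pos b hu'
      rw [abs_le] at hab
      rw [abs_lt]
      constructor
      · by_contra hcon
        have : b / unt d n - a / unt d n ≥ B := by omega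
        nlinarith
      · by_contra hcon
        have : a / unt d n - b / unt d n ≥ B := by omega
        nlinarith
    have hk1 : |k.1 - x.1| ≤ R := (le_max_left _ _).trans hk
    have hk2 : |k.2 - x.2| ≤ R := (le_max_right _ _).trans hk
    exact max_lt (key _ _ hk1) (key _ _ hk2)
  · by_contra hcon
    exact hb (h3 _ ((not_lt.1 hcon).trans hA'))

/-- **The coverage of one point.** If a cell near the cell of `x` is not recorded before the stage `N`
then there is a face near `x` with a removed end. -/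
theorem near_removed {r B A : ℤ} {x : ℤ × ℤ} {N : ℕ} (hu : 0 < unt d n)
    (hr : (unt d n : ℤ) - 1 ≤ r) (hB : 0 < B)
    (hA : unt d n * (B - 1) + r ≤ A) (h0 : CovI 𝔇 d n ω 0 r)
    (H : ∀ i < N, StgZ 𝔇 d n ω i r B A x)
    (hN : ∀ i < N, NdlN 𝔇 d n ω i ((unt d n : ℤ) - 1))
    (hc : ∃ c, c ∉ (sgm 𝔇 d n ω N).Rc ∧ sd c (Blow.cl (unt d n) x) < B) :
    ∃ g : ℤ × ℤ, g ∉ FU (vst 𝔇 d n ω N) ∧ sd g x ≤ A := by
  have hu' : (0 : ℤ) < unt d n := by exact_mod_cast hu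
  by_contra hcon
  push Not at hcon
  have hfree : ∀ g : ℤ × ℤ, sd g x ≤ A → g ∈ FU (vst 𝔇 d n ω N) := by
    intro g hg
    by_contra h1
    exact absurd hg (not_le.2 (hcon g h1))
  have key : ∀ i ≤ N, ∀ c, sd c (Blow.cl (unt d n) x) < B → c ∈ (sgm 𝔇 d n ω i).Rc := by
    intro i hi
    induction i with
    | zero =>
      intro c hc
      by_contra h1
      obtain ⟨f, h2, h3⟩ := exists_shift hu' x c
      rw [← h2] at h1
      obtain ⟨g, hg, hgf⟩ := h0 f h1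
      have h4 := Ndle.sd_triangle g f x
      have h5 : (unt d n : ℤ) * sd c (Blow.cl (unt d n) x) ≤ unt d n * (B - 1) :=
        mul_le_mul_of_nonneg_left (by omega) hu'.le
      have h6 := hfree g (by rw [h3] at h4; linarith)
      exact hg (FU_mono (vst_le 𝔇 d n ω (Nat.zero_le N)) h6)
    | succ i ih =>
      exact boxZ_succ hu hi hfree hr hB hA (H i hi) (hN i hi)
        (ih (by omega))
  obtain ⟨c, h1, h2⟩ := hc
  exact h1 (key N le_rfl c h2)

end Pool.Agent.SixB.Cov
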