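import Pool.Agent.Lib.SixB.S8Needle

/-!
# Step 8, coverage: the grid of the targets

* `gz K e a b`: the unit cell of the grid point `(a, b)` (mesh `n / K` in the frame of the vertices);
  `near_gz`: the vertex `(a h, b h)`, `h = n / K`, is at `u (gz K e a b)` up to `2 u`, `u = n / 2 ^ e`.
* `gi K M j`: the grid point of the target number `j`; `vis_ge`: every grid point is visited `M` times.
-/

set_option autoImplicit false

namespace Pool.Agent.SixB.Fin8

/-! ### The place of a grid point -/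

/-- rounding -/
theorem near_one {K n : ℕ} (e : ℕ) (hK : 0 < K) {c : ℤ} (hc : |c| ≤ 2 * (K + 1)) :
    |c * ((n / K : ℕ) : ℤ) - ((n / 2 ^ e : ℕ) : ℤ) * (c * 2 ^ e / K)| ≤
      ((n / 2 ^ e : ℕ) : ℤ) + 4 * (2 ^ e + K) := by
  have hK' : (0 : ℤ) < K := by exact_mod_cast hK
  have h2 : (0 : ℤ) < 2 ^ e := by positivity
  have e1 : (K : ℤ) * ((n / K : ℕ) : ℤ) + ((n % K : ℕ) : ℤ) = n := by exact_mod_cast Nat.div_add_mod n K
  have e2 : (2 : ℤ) ^ e * ((n / 2 ^ e : ℕ) : ℤ) + ((n % 2 ^ e : ℕ) : ℤ) = n := by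
    exact_mod_cast Nat.div_add_mod n (2 ^ e)
  have e3 := Int.mul_ediv_add_emod (c * 2 ^ e) K
  have b1 : ((n % K : ℕ) : ℤ) < K := by exact_mod_cast Nat.mod_lt n hK
  have b2 : ((n % 2 ^ e : ℕ) : ℤ) < 2 ^ e := by exact_mod_cast Nat.mod_lt n (by positivity)
  have b1' : (0 : ℤ) ≤ ((n % K : ℕ) : ℤ) := by positivity
  have b2' : (0 : ℤ) ≤ ((n % 2 ^ e : ℕ) : ℤ) := by positivity
  have b3 := Int.emod_nonneg (c * 2 ^ e) hK'.ne'
  have b3' := Int.emod_lt_of_pos (c * 2 ^ e) hK'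
  set h : ℤ := ((n / K : ℕ) : ℤ) with hh
  set u : ℤ := ((n / 2 ^ e : ℕ) : ℤ) with hu
  set q : ℤ := c * 2 ^ e / K with hq
  set n₁ : ℤ := ((n % K : ℕ) : ℤ) with hn₁
  set n₂ : ℤ := ((n % 2 ^ e : ℕ) : ℤ) with hn₂
  set q₁ : ℤ := c * 2 ^ e % K with hq₁
  have hu0 : 0 ≤ u := by rw [hu]; positivity
  have key : (K : ℤ) * (c * h - u * q) = c * (n₂ - n₁) + u * q₁ := by
    have f1 : (K : ℤ) * h = n - n₁ := by linarith
    have f2 : 2 ^ e * u = n - n₂ := by linarith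
    have f3 : (K : ℤ) * q = c * 2 ^ e - q₁ := by linarith
    calc (K : ℤ) * (c * h - u * q) = c * (K * h) - u * (K * q) := by ring
      _ = c * (n - n₁) - u * (c * 2 ^ e - q₁) := by rw [f1, f3]
      _ = c * (n - n₁) - c * (2 ^ e * u) + u * q₁ := by ring
      _ = c * (n - n₁) - c * (n - n₂) + u * q₁ := by rw [f2]
      _ = c * (n₂ - n₁) + u * q₁ := by ring
  have h4 : |c * (n₂ - n₁)| ≤ 2 * (K + 1) * (2 ^ e + K) := by
    rw [abs_mul]
    refine mul_le_mul hc ?_ (abs_nonneg _) (by positivity)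
    rw [abs_le]
    constructor <;> linarith
  have h5 : |u * q₁| ≤ u * K := by
    rw [abs_mul, abs_of_nonneg hu0, abs_of_nonneg b3]
    exact mul_le_mul_of_nonneg_left b3'.le hu0
  have h6 : (K : ℤ) * |c * h - u * q| ≤ K * (u + 4 * (2 ^ e + K)) := by
    have h7 : (K : ℤ) * |c * h - u * q| = |(K : ℤ) * (c * h - u * q)| := by
      rw [abs_mul, abs_of_pos hK']
    rw [h7, key]
    refine (abs_add_le _ _).trans ((add_le_add h4 h5).trans ?_)
    have h8 : (1 : ℤ) ≤ K := hK'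
    have h9 : (0 : ℤ) ≤ 2 ^ e + K := by positivity
    nlinarith
  exact le_of_mul_le_mul_left h6 hK'

/-- The unit cell of the grid point `(a, b)`. -/
def gz (K e : ℕ) (a b : ℤ) : ℤ × ℤ := ((a + b) * 2 ^ e / K, (a - b) * 2 ^ e / K)

/-- **The vertex of a grid point.** -/
theorem near_gz {K n : ℕ} (e : ℕ) (hK : 0 < K) {a b : ℤ} (ha : 0 ≤ a) (ha' : a ≤ K + 1) (hb : 0 ≤ b)
    (hb' : b ≤ K + 1) (hn : 4 * (2 ^ e + K) ≤ n / 2 ^ e) :
    |a * ((n / K : ℕ) : ℤ) + b * ((n / K : ℕ) : ℤ) - ((n / 2 ^ e : ℕ) : ℤ) * (gz K e a b).1| ≤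
        2 * ((n / 2 ^ e : ℕ) : ℤ) ∧
      |a * ((n / K : ℕ) : ℤ) - b * ((n / K : ℕ) : ℤ) - ((n / 2 ^ e : ℕ) : ℤ) * (gz K e a b).2| ≤
        2 * ((n / 2 ^ e : ℕ) : ℤ) := by
  have hn' : 4 * (2 ^ e + (K : ℤ)) ≤ ((n / 2 ^ e : ℕ) : ℤ) := by exact_mod_cast hn
  have h1 := near_one (n := n) e hK (c := a + b) (by rw [abs_le]; omega)
  have h2 := near_one (n := n) e hK (c := a - b) (by rw [abs_le]; omega)
  rw [add_mul] at h1
  rw [sub_mul] at h2
  exact ⟨h1.trans (by linarith), h2.trans (by linarith)⟩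

/-! ### The number of visits -/

/-- The grid point of the target number `j`: every grid point `(a, b)`, `a, b < K + 2`, has `M` numbers. -/
def gi (K M j : ℕ) : ℕ × ℕ := (j / M / (K + 2), j / M % (K + 2))

theorem gi_eq {K M a b i : ℕ} (hb : b < K + 2) (hi : i < M) :
    gi K M (M * (a * (K + 2) + b) + i) = (a, b) := by
  have hM : 0 < M := by omega
  have h1 : (M * (a * (K + 2) + b) + i) / M = a * (K + 2) + b := by
    rw [Nat.mul_add_div hM, Nat.div_eq_of_lt hi, add_zero]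
  unfold gi
  rw [h1]
  congr 1
  · rw [mul_comm a, Nat.mul_add_div (by omega), Nat.div_eq_of_lt hb, add_zero]
  · rw [mul_comm a, Nat.mul_add_mod, Nat.mod_eq_of_lt hb]

theorem gi_lt {K M j : ℕ} (hM : 0 < M) (hj : j < (K + 2) ^ 2 * M) :
    (gi K M j).1 < K + 2 ∧ (gi K M j).2 < K + 2 := by
  unfold gi
  refine ⟨?_, Nat.mod_lt _ (by omega)⟩
  have h1 : j / M < (K + 2) ^ 2 := (Nat.div_lt_iff_lt_mul hM).2 hj
  rw [Nat.div_lt_iff_lt_mul (by omega)]
  rwa [sq] at h1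

/-- **The number of visits**: a function of the grid point is equal to its value at `(a, b)` for at least
`M` numbers. -/
theorem vis_ge {K M a b : ℕ} (F : ℕ × ℕ → ℤ × ℤ) (ha : a < K + 2) (hb : b < K + 2) :
    M ≤ ((Finset.range ((K + 2) ^ 2 * M)).filter fun j => F (gi K M j) = F (a, b)).card := by
  have h1 : ((Finset.range M).image fun i => M * (a * (K + 2) + b) + i) ⊆
      (Finset.range ((K + 2) ^ 2 * M)).filter fun i => F (gi K M i) = F (a, b) := by
    intro j hj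
    rw [Finset.mem_image] at hj
    obtain ⟨i, hi, rfl⟩ := hj
    rw [Finset.mem_range] at hi
    rw [Finset.mem_filter, Finset.mem_range, gi_eq hb hi]
    refine ⟨?_, rfl⟩
    have h2 : a * (K + 2) + b + 1 ≤ (K + 2) ^ 2 := by
      have : a + 1 ≤ K + 2 := ha
      nlinarith
    calc M * (a * (K + 2) + b) + i < M * (a * (K + 2) + b) + M := by omega
      _ = M * (a * (K + 2) + b + 1) := by ring
      _ ≤ M * (K + 2) ^ 2 := Nat.mul_le_mul_left _ h2
      _ = (K + 2) ^ 2 * M := by ring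
  have h3 := Finset.card_le_card h1
  rwa [Finset.card_image_of_injective _ (fun i j h => by simpa using h), Finset.card_range] at h3

end Pool.Agent.SixB.Fin8
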