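import Pool.Agent.Lib.SixB.S8FinD
import Pool.Agent.Lib.SixB.S8FinN

/-!
# Step 8: the grid points are finished, metric part

* `exists_vert`: a face outside of `FU V` near a face at the vertex `v` gives a vertex outside of `V`
  near `v`;
* `two_dlt_W0`: the clearance of the initial set; `clear_lt`: the number of visits is large enough;
* `vis_ztG`: every grid point is visited `M` times;
* `cover_datC`: after the last needle there is a cell which is not recorded near every grid point;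
* `finR_of_face`, `finR_of_gpt`, `finR_of_cell`: the grid points are finished if there are faces outside
  of `FU` near them.
-/

set_option autoImplicit false

namespace Pool.Agent.SixB.Fin8

open Finset Pool.Agent.Perc Pool.Agent.PercT Pool.Agent.PercX60
open Pool.Agent.MP_6bd702.H23 (Ed ea eb)
open Pool.Agent.SixB Pool.Agent.SixB.Rule Pool.Agent.SixB.Dct Pool.Agent.SixB.Mv
open Pool.Agent.SixB.Tru Pool.Agent.SixB.Cov
open Pool.Agent.SixB.Box0 (W0 mem_W0 W0_finite)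
open Pool.Agent.SixB.Ndle (sd dlt)
open Pool.Agent.SixB.Hook (ndL)

/-! ### (M1) vertices -/

/-- A face outside of `FU V` has an end outside of `V`. -/
theorem exists_end {V : Finset (ℤ × ℤ)} {g : ℤ × ℤ} (hg : g ∉ FU V) :
    ∃ w, w ∉ V ∧ Sq (phiV w) g := by
  by_cases h1 : ea (eE g) ∈ V
  · have h2 : eb (eE g) ∉ V := fun h2 => hg ⟨h1, h2⟩
    exact ⟨_, h2, sq_phiV.2 (Or.inr rfl)⟩
  · exact ⟨_, h1, sq_phiV.2 (Or.inl rfl)⟩

/-- A vertex outside of `V` near the vertex `v`. -/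
theorem exists_vert {V : Finset (ℤ × ℤ)} {v f g : ℤ × ℤ} {m : ℤ} (hg : g ∉ FU V)
    (hm : sd g f ≤ m) (hv : Sq (phiV v) f) : ∃ w, w ∉ V ∧ dist (toC w) (toC v) ≤ m + 1 := by
  obtain ⟨w, h1, h2⟩ := exists_end hg
  exact ⟨w, h1, Hook.dist_of_sq h2 hv hm⟩

/-! ### (M4) the clearance of the initial set -/

/-- The distance from any cell to the complement of the initial set. -/
theorem two_dlt_W0 (e : ℕ) (z : ℤ × ℤ) : 2 * (dlt (toF (W0 e)) z : ℤ) ≤ 2 ^ e + 1 := by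
  obtain ⟨x, y⟩ := z
  set N : ℤ := 2 ^ e with hN
  have hN1 : 1 ≤ N := one_le_pow₀ (by norm_num)
  have key : ∀ k : ℤ, 0 ≤ k → 2 * k ≤ N + 1 → ∀ w : ℤ × ℤ, w ∉ W0 e → |w.1 - x| ≤ k →
      |w.2 - y| ≤ k → 2 * (dlt (toF (W0 e)) (x, y) : ℤ) ≤ N + 1 := by
    intro k _ hk2 w hw h1 h2
    have h3 : (dlt (toF (W0 e)) (x, y) : ℤ) ≤ sd w (x, y) :=
      Ndle.dlt_le fun h => hw (toF_sub h)
    have h4 : sd w (x, y) ≤ k := max_le h1 h2
    omega
  set k : ℤ := (N + 1) / 2 with hk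
  have hk0 : 0 ≤ k := by omega
  have hk2 : 2 * k ≤ N + 1 := by omega
  have hk3 : N ≤ 2 * k := by omega
  rcases le_total (x + y) (N - 1) with h | h
  · refine key k hk0 hk2 (x - k, y - k) ?_ ?_ ?_
    · rw [mem_W0]
      simp only
      intro hc
      omega
    · simp only
      rw [abs_le]
      omega
    · simp only
      rw [abs_le]
      omega
  · refine key k hk0 hk2 (x + k, y + k) ?_ ?_ ?_
    · rw [mem_W0]
      simp only
      intro hc
      omega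
    · simp only
      rw [abs_le]
      omega
    · simp only
      rw [abs_le]
      omega

/-- **(M4)** The number `M ≥ 3 K` of visits is large enough. -/
theorem clear_lt {K M e L : ℕ} (hK : 0 < K) (hM : 3 * K ≤ M) (hL : L = 2 ^ e / K) (hL2 : 2 ≤ L)
    (z : ℤ × ℤ) : 2 * (dlt (toF (W0 e)) z : ℤ) < M * ((L : ℤ) - 1) + 6 * L := by
  have h1 := two_dlt_W0 e z
  have h2 : 2 ^ e < K * (L + 1) := by
    rw [hL]
    exact Nat.lt_mul_div_succ (2 ^ e) hK
  have h3 : (2 : ℤ) ^ e < K * (L + 1) := by exact_mod_cast h2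
  have h4 : (3 * K : ℤ) ≤ M := by exact_mod_cast hM
  have h5 : (2 : ℤ) ≤ L := by exact_mod_cast hL2
  have h6 : (0 : ℤ) < K := by exact_mod_cast hK
  nlinarith

/-! ### The visits -/

theorem gpt_eq (K e a b : ℕ) : gpt K e a b = gz K e a b := rfl

theorem ztG_eq (K M e j : ℕ) : ztG K M e j = gpt K e (gi K M j).1 (gi K M j).2 := rfl

/-- **(M3)** Every grid point is visited `M` times. -/
theorem vis_ztG {K M e a b k : ℕ} (ha : a < K + 2) (hb : b < K + 2) (hk : (K + 2) ^ 2 * M ≤ k) :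
    M ≤ vis (ztG K M e) (gpt K e a b) k := by
  refine (vis_ge (K := K) (M := M) (fun p => gpt K e p.1 p.2) ha hb).trans ?_
  unfold vis
  refine Finset.card_le_card fun i hi => ?_
  rw [Finset.mem_filter, Finset.mem_range] at hi ⊢
  exact ⟨by omega, hi.2⟩

/-- **Coverage for the data of the chain**: after the last needle there is a cell which is not recorded
near every grid point. -/
theorem cover_datC {K kap : ℕ} {d : ℕ → ℕ} {x : List Rec} (hK : 0 < K) (hL : 2 ≤ ndL K (d 0))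
    (h : StH ((datC K kap).prm d) d (W0 (d 0)) x) {Λ : ℤ} (hΛ0 : 0 ≤ Λ)
    (hpos : ∀ i < x.length, 0 < msh d i) (hΛ : ∀ i < x.length, msh d i ≤ Λ)
    (hj : numN K ≤ ((datC K kap).cs d x).j) {a b : ℕ} (ha : a < K + 2) (hb : b < K + 2) :
    ∃ c, c ∉ ((datC K kap).cs d x).Rc ∧ sd c (gpt K (d 0) a b) < 3 * ndL K (d 0) + 3 * Λ := by
  have hm : min ((datC K kap).cs d x).j (numN K) = numN K := min_eq_right hj
  refine cover (kp := kap) (m := numN K) (zt := ztG K (8 * K) (d 0)) (Lu := ndL K (d 0)) (by omega)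
    (W0_finite (d 0)) h hΛ0 hpos hΛ (v := 8 * K) ?_
    (clear_lt hK (by omega) rfl hL _)
  have h1 := vis_ztG (K := K) (M := 8 * K) (e := d 0) (a := a) (b := b) (k := numN K) ha hb le_rfl
  rw [← hm] at h1
  exact h1

/-! ### (M5) the grid points are finished -/

variable {n h : ℕ} {R : Rul} {T : Finset Edg}

/-- **The grid points are finished** if there are faces outside of `FU` near them. -/
theorem finR_of_face {D : ℝ} {K m : ℕ} (hR : RulOK n h R) (hT : T ⊆ boxE n)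
    (H : ∀ a b : ℕ, a < K + 2 → b < K + 2 → ∃ g, g ∉ FU (stR n R T m) ∧
      sd g (phiV (((a * (n / K) : ℕ) : ℤ), ((b * (n / K) : ℕ) : ℤ))) + 1 ≤ 4 * (n / K : ℕ)) :
    FinR D n K m R T := by
  refine finR_of hR hT fun a b ha hb => ?_
  obtain ⟨g, h1, h2⟩ := H a b ha hb
  obtain ⟨w, h3, h4⟩ := exists_vert (m := 4 * (n / K : ℕ) - 1) h1 (by omega)
    (v := (((a * (n / K) : ℕ) : ℤ), ((b * (n / K) : ℕ) : ℤ))) ⟨Or.inl rfl, Or.inl rfl⟩
  refine ⟨w, h3, h4.trans (le_of_eq ?_)⟩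
  rw [Int.cast_sub, Int.cast_mul, Int.cast_ofNat, Int.cast_one, Int.cast_natCast, sub_add_cancel]

/-- The corner face of a cell. -/
def cf (u : ℤ) (c : ℤ × ℤ) : ℤ × ℤ := (u * c.1, u * c.2)

theorem cl_cf {u : ℤ} (hu : 0 < u) (c : ℤ × ℤ) : Blow.cl u (cf u c) = c := by
  unfold Blow.cl cf
  simp only
  rw [Int.mul_ediv_cancel_left _ hu.ne', Int.mul_ediv_cancel_left _ hu.ne']

theorem sd_cf {u : ℤ} (hu : 0 ≤ u) (c z : ℤ × ℤ) : sd (cf u c) (cf u z) = u * sd c z := by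
  unfold sd cf
  simp only
  rw [← mul_sub, ← mul_sub, abs_mul, abs_mul, abs_of_nonneg hu, mul_max_of_nonneg _ _ hu]

/-- **(M2)** The face of the cell of a grid point is near the vertex of the grid point. -/
theorem sd_gpt {K n e a b : ℕ} (hK : 0 < K) (ha : a < K + 2) (hb : b < K + 2)
    (hn : 4 * (2 ^ e + K) ≤ n / 2 ^ e) :
    sd (cf ((n / 2 ^ e : ℕ) : ℤ) (gpt K e a b))
      (phiV (((a * (n / K) : ℕ) : ℤ), ((b * (n / K) : ℕ) : ℤ))) ≤ 2 * ((n / 2 ^ e : ℕ) : ℤ) := by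
  obtain ⟨h1, h2⟩ := near_gz (K := K) (n := n) e hK (a := a) (b := b) (by positivity) (by omega)
    (by positivity) (by omega) hn
  refine max_le ?_ ?_
  · rw [abs_sub_comm]
    refine le_trans (le_of_eq ?_) h1
    congr 1
  · rw [abs_sub_comm]
    refine le_trans (le_of_eq ?_) h2
    congr 1

/-- **(M5)** The grid points are finished if there are faces outside of `FU` near the corner faces of
their cells. -/
theorem finR_of_gpt {D : ℝ} {K m e : ℕ} (hR : RulOK n h R) (hT : T ⊆ boxE n) (hK : 0 < K)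
    (hn : 4 * (2 ^ e + K) ≤ n / 2 ^ e)
    (H : ∀ a b : ℕ, a < K + 2 → b < K + 2 → ∃ g, g ∉ FU (stR n R T m) ∧
      sd g (cf ((n / 2 ^ e : ℕ) : ℤ) (gpt K e a b)) + 2 * ((n / 2 ^ e : ℕ) : ℤ) + 1 ≤
        4 * ((n / K : ℕ) : ℤ)) : FinR D n K m R T := by
  refine finR_of_face hR hT fun a b ha hb => ?_
  obtain ⟨g, h1, h2⟩ := H a b ha hb
  refine ⟨g, h1, ?_⟩
  have h3 := sd_gpt (n := n) hK ha hb hn
  have h4 := Ndle.sd_triangle g (cf ((n / 2 ^ e : ℕ) : ℤ) (gpt K e a b))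
    (phiV (((a * (n / K) : ℕ) : ℤ), ((b * (n / K) : ℕ) : ℤ)))
  linarith

/-- **(M5), cells.** The grid points are finished if near their cells there are cells all whose faces
are near faces outside of `FU`. -/
theorem finR_of_cell {D : ℝ} {K m e : ℕ} (hR : RulOK n h R) (hT : T ⊆ boxE n) (hK : 0 < K)
    (hn : 4 * (2 ^ e + K) ≤ n / 2 ^ e) {D₁ ρ : ℤ}
    (H : ∀ a b : ℕ, a < K + 2 → b < K + 2 → ∃ c, sd c (gpt K e a b) < D₁ ∧
      ∀ f, Blow.cl ((n / 2 ^ e : ℕ) : ℤ) f = c → ∃ g, g ∉ FU (stR n R T m) ∧ sd g f ≤ ρ)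
    (hρ : ρ + ((n / 2 ^ e : ℕ) : ℤ) * (D₁ + 1) + 1 ≤ 4 * ((n / K : ℕ) : ℤ)) :
    FinR D n K m R T := by
  have h2 : 0 < 2 ^ e := by positivity
  have hu : (0 : ℤ) < ((n / 2 ^ e : ℕ) : ℤ) := by
    have : 0 < n / 2 ^ e := by omega
    exact_mod_cast this
  refine finR_of_gpt hR hT hK hn fun a b ha hb => ?_
  obtain ⟨c, h3, h4⟩ := H a b ha hb
  obtain ⟨g, h5, h6⟩ := h4 (cf ((n / 2 ^ e : ℕ) : ℤ) c) (cl_cf hu c)
  refine ⟨g, h5, ?_⟩
  have h7 : sd (cf ((n / 2 ^ e : ℕ) : ℤ) c) (cf ((n / 2 ^ e : ℕ) : ℤ) (gpt K e a b)) ≤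
      ((n / 2 ^ e : ℕ) : ℤ) * (D₁ - 1) := by
    rw [sd_cf hu.le]
    exact mul_le_mul_of_nonneg_left (by omega) hu.le
  have h8 := Ndle.sd_triangle g (cf ((n / 2 ^ e : ℕ) : ℤ) c)
    (cf ((n / 2 ^ e : ℕ) : ℤ) (gpt K e a b))
  linarith

/-- The length of the needle in faces. -/
theorem unt_mul_ndL (K n e : ℕ) : ((n / 2 ^ e : ℕ) : ℤ) * (ndL K e : ℤ) ≤ ((n / K : ℕ) : ℤ) := by
  have h1 : n / 2 ^ e * (2 ^ e / K) ≤ n / K := by
    rcases Nat.eq_zero_or_pos K with hK | hK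
    · rw [hK]; simp
    · rw [Nat.le_div_iff_mul_le hK]
      calc n / 2 ^ e * (2 ^ e / K) * K = n / 2 ^ e * (2 ^ e / K * K) := by ring
        _ ≤ n / 2 ^ e * 2 ^ e := Nat.mul_le_mul_left _ (Nat.div_mul_le_self _ _)
        _ ≤ n := Nat.div_mul_le_self _ _
  exact_mod_cast h1

end Pool.Agent.SixB.Fin8
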