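import Pool.Agent.Lib.SixB.S8FinM
import Pool.Agent.Lib.SixB.S8ChainA
import Pool.Agent.Lib.SixB.S8EscH
import Pool.Agent.Lib.SixB.S8RecSkel

/-!
# Step 8: the row `RowFin`

* `run_j_le`: a running domain has a number at most `m`;
* `rule_none`: no needle is placed with a number `≥ m`; `vst_end`: after the last needle the remaining
  vertices of the chain are the remaining vertices of the scan after `m` steps;
* `finR_of_stgZ`: the grid points are finished, one configuration;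
* `RowStgZ`: the input, `rowFin_of_stgZ`: the row.
-/

set_option autoImplicit false

namespace Pool.Agent.SixB.Fin8

open Filter Finset Pool.Agent.Perc Pool.Agent.Perc6 Pool.Agent.PercT Pool.Agent.PercX60
open Pool.Agent.SixB Pool.Agent.SixB.Rule Pool.Agent.SixB.Dct Pool.Agent.SixB.Mv
open Pool.Agent.SixB.Tru Pool.Agent.SixB.Cov
open Pool.Agent.SixB.TruR (ts ruleT ruleT_ok cnt)
open Pool.Agent.SixB.Ndle (sd dlt)
open Pool.Agent.SixB.Hook (ndL)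

variable {𝔇 : Dat} {d : ℕ → ℕ} {n : ℕ} {ω : Cfg}

/-! ### The numbers of the needles -/

/-- A needle which is placed has a number less than `m`. -/
theorem lt_m_of_mv {σ : CSt} {π : Prm} {L M : ℤ} {ρ : Rec} (h : σ.run = none)
    (h' : (σ.mv π L M ρ).run.isSome = true) : σ.j < π.m := by
  by_cases hp : σ.Plant π L
  · exact hp.1
  · rw [CSt.mv_idle_eq h hp] at h'
    cases h'

/-- The number of the running domain. -/
theorem run_j_le {x : List Rec} {D : Dom} (h : (𝔇.cs d x).run = some D) :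
    (𝔇.cs d x).j ≤ 𝔇.m := by
  induction x generalizing D with
  | nil => cases h
  | cons ρ x ih =>
    rcases hr : (𝔇.cs d x).run with _ | D'
    · rw [TruR.j_none hr]
      have h1 : (𝔇.cs d (ρ :: x)).run.isSome = true := by rw [h]; rfl
      exact lt_m_of_mv hr h1
    · rw [TruR.j_some hr]
      exact ih hr

/-- No needle is placed with a number `≥ m`. -/
theorem rule_none {j N : ℕ} (hj : 𝔇.m ≤ j) (hN : j < cnt 𝔇 d (tst 𝔇 d n ω N)) :
    ruleT 𝔇 d n j (cfgE n ω) = none := by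
  obtain ⟨i, -, h1, h2⟩ := TruR.exists_start 𝔇 d n hN
  rw [TruR.rule_eq 𝔇 d n h1 h2]
  rcases hq : (tst 𝔇 d n ω i).q with _ | q
  · rfl
  · exfalso
    obtain ⟨D, hD⟩ := Tru.run_of_q hq
    have h3 := run_j_le hD
    unfold TruR.cnt at h2
    omega

/-- The remaining vertices do not change after `m` steps. -/
theorem stR_end {N k : ℕ} (hk : 𝔇.m ≤ k) (hN : k ≤ cnt 𝔇 d (tst 𝔇 d n ω N)) :
    stR n (ruleT 𝔇 d n) (cfgE n ω) k = stR n (ruleT 𝔇 d n) (cfgE n ω) 𝔇.m := by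
  induction k, hk using Nat.le_induction with
  | base => rfl
  | succ k hk ih => rw [stR_succ_none (rule_none (N := N) (by omega) (by omega)), ih (by omega)]

/-- After the last needle no needle is running. -/
theorem end_run {N : ℕ} (h : 𝔇.m ≤ nfin 𝔇 d n ω N) (hm : 0 < 𝔇.m) :
    (sgm 𝔇 d n ω N).run = none ∧ 𝔇.m ≤ (sgm 𝔇 d n ω N).j := by
  cases N with
  | zero =>
    exfalso
    have h1 : nfin 𝔇 d n ω 0 = 0 := (stc_cnt 𝔇 d n ω).fin_zero
    omega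
  | succ N =>
    have h0 : stc 𝔇 d n ω (N + 1) = sgm 𝔇 d n ω (N + 1) := rfl
    unfold nfin Tps.fin at h
    simp only [h0] at h
    rcases hr : (sgm 𝔇 d n ω (N + 1)).run with _ | D
    · refine ⟨rfl, ?_⟩
      rw [if_neg (by
        unfold Tps.IsRn
        rw [show (stc 𝔇 d n ω (N + 1)).run = none from hr]
        simp)] at h
      exact h
    · exfalso
      rw [if_pos (by
        unfold Tps.IsRn
        rw [show (stc 𝔇 d n ω (N + 1)).run = some D from hr]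
        rfl)] at h
      have h2 : (sgm 𝔇 d n ω (N + 1)).j ≤ 𝔇.m :=
        run_j_le (𝔇 := 𝔇) (d := d) (x := (ts 𝔇 d n ω (N + 1)).x) hr
      omega

/-- **After the last needle** the remaining vertices of the chain are the remaining vertices of the
scan after `m` steps. -/
theorem vst_end {N : ℕ} (hm : 0 < 𝔇.m) (h : 𝔇.m ≤ nfin 𝔇 d n ω N) :
    vst 𝔇 d n ω N = stR n (ruleT 𝔇 d n) (cfgE n ω) 𝔇.m := by
  obtain ⟨h1, h2⟩ := end_run h hm
  cases N with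
  | zero =>
    exfalso
    have h3 : nfin 𝔇 d n ω 0 = 0 := (stc_cnt 𝔇 d n ω).fin_zero
    omega
  | succ N =>
    rw [vst_eq]
    exact stR_end (N := N) h2 le_rfl

/-! ### Monotonicity -/

/-- The fields of `StgZ` which do not depend on the point. -/
structure StgA (𝔇 : Dat) (d : ℕ → ℕ) (n : ℕ) (ω : Cfg) (i : ℕ) (r : ℤ) : Prop extends
    StgB 𝔇 d n ω i where
  /-- the invariant of the coarse state -/
  inv : (sgm 𝔇 d n ω i).Inv
  near : ∀ q D, (ts 𝔇 d n ω i).q = some q → (sgm 𝔇 d n ω i).run = some D →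
    (sgm 𝔇 d n ω i).ini = false → NearT 𝔇 d n (ts 𝔇 d n ω i) q D ω r
  base : ∀ q D, (ts 𝔇 d n ω i).q = some q → (sgm 𝔇 d n ω i).run = some D →
    (sgm 𝔇 d n ω i).ini = false → NearB 𝔇 d n (ts 𝔇 d n ω i) q D ω r
  ero : EroN 𝔇 d n ω i r

/-- The field `side` of `StgZ`. -/
def StgS (𝔇 : Dat) (d : ℕ → ℕ) (n : ℕ) (ω : Cfg) (i : ℕ) (B A : ℤ) (x : ℤ × ℤ) : Prop :=
  ∀ q D, (ts 𝔇 d n ω i).q = some q → (sgm 𝔇 d n ω i).run = some D →
    (sgm 𝔇 d n ω i).ini = false → SideX 𝔇 d n (ts 𝔇 d n ω i) q D (recS 𝔇 d n i ω) ω B A x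

theorem StgA.toZ {i : ℕ} {r B A : ℤ} {x : ℤ × ℤ} (h : StgA 𝔇 d n ω i r)
    (hS : StgS 𝔇 d n ω i B A x) : StgZ 𝔇 d n ω i r B A x where
  toStgB := h.toStgB
  inv := h.inv
  near := h.near
  base := h.base
  ero := h.ero
  side := hS

theorem StgA.mono {i : ℕ} {r r' : ℤ} (h : StgA 𝔇 d n ω i r) (hr : r ≤ r') :
    StgA 𝔇 d n ω i r' where
  toStgB := h.toStgB
  inv := h.inv
  near q D h1 h2 h3 f hf := (h.near q D h1 h2 h3 f hf).trans hr
  base q D h1 h2 h3 f hf := (h.base q D h1 h2 h3 f hf).trans hr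
  ero h1 h2 f h3 h4 := by
    obtain ⟨g, h5, h6⟩ := h.ero h1 h2 f h3 h4
    exact ⟨g, h5, h6.trans hr⟩

theorem StgS.mono {i : ℕ} {B B' A A' : ℤ} {x : ℤ × ℤ} (h : StgS 𝔇 d n ω i B A x) (hB : B ≤ B')
    (hA : A ≤ A') : StgS 𝔇 d n ω i B' A' x := fun q D h1 h2 h3 h4 h5 h6 =>
  h q D h1 h2 h3 h4 (fun c hc => h5 c (lt_of_lt_of_le hc hB)) fun f hf => h6 f (hf.trans hA)

theorem covI_mono {i : ℕ} {ρ ρ' : ℤ} (h : CovI 𝔇 d n ω i ρ) (hρ : ρ ≤ ρ') :
    CovI 𝔇 d n ω i ρ' := fun f hf => by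
  obtain ⟨g, h1, h2⟩ := h f hf
  exact ⟨g, h1, h2.trans hρ⟩

/-! ### The grid points are finished -/

/-- The face of the grid point. -/
def xg (d : ℕ → ℕ) (n K a b : ℕ) : ℤ × ℤ := cf (unt d n) (gpt K (d 0) a b)

/-- **`FinR` from the coverage**, one configuration. -/
theorem finR_of_stgZ {K kap N : ℕ} {D : ℝ} {r Λ : ℤ} (hK : 0 < K) (hL : 2 ≤ ndL K (d 0))
    (hn : 4 * (2 ^ d 0 + K) ≤ n / 2 ^ d 0)
    (hu : 2 ≤ unt d n) (hn1 : n = 2 ^ (d 0) * unt d n + n % 2 ^ d 0)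
    (hn2 : 2 * (n % 2 ^ d 0) + 1 < unt d n)
    (hd : ∀ i < N, 0 < i → d i + 4 ≤ d 0) (hΛ0 : 0 ≤ Λ) (hΛ : ∀ i < N, msh d i ≤ Λ)
    (hfin : numN K ≤ nfin (datC K kap) d n ω N)
    (hA : ∀ i < N, StgA (datC K kap) d n ω i r)
    (hS : ∀ i < N, ∀ a b : ℕ, a < K + 2 → b < K + 2 →
      StgS (datC K kap) d n ω i (3 * ndL K (d 0))
        (4 * ((n / K : ℕ) : ℤ) - 2 * (unt d n : ℤ) - 1) (xg d n K a b))
    (hr : (unt d n : ℤ) - 1 ≤ r)
    (hρ : r + (unt d n : ℤ) * (3 * Λ + 1) + 1 ≤ ((n / K : ℕ) : ℤ)) :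
    FinR D n K (numN K) (ruleT (datC K kap) d n) (cfgE n ω) := by
  have hm : 0 < (datC K kap).m := by
    change 0 < (K + 2) ^ 2 * (8 * K)
    positivity
  have hu0 : 0 < unt d n := by omega
  have hu' : (0 : ℤ) < unt d n := by exact_mod_cast hu0
  have hj : numN K ≤ ((datC K kap).cs d (ts (datC K kap) d n ω N).x).j := (end_run hfin hm).2
  have hV : vst (datC K kap) d n ω N =
      stR n (ruleT (datC K kap) d n) (cfgE n ω) (numN K) := vst_end hm hfin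
  have hSt : StH ((datC K kap).prm d) d (Box0.W0 (d 0)) (ts (datC K kap) d n ω N).x := by
    refine stH_datC (by omega) hd fun j hj' s h1 h2 => ?_
    exact ((hA j hj').val s h1 h2).2.2
  have h0 : CovI (datC K kap) d n ω 0 r := covI_mono (covI_zero hu hn1 hn2) hr
  set B : ℤ := 3 * ndL K (d 0) + 3 * Λ with hB
  have hL' : (2 : ℤ) ≤ ndL K (d 0) := by exact_mod_cast hL
  have h4 : (unt d n : ℤ) * (ndL K (d 0) : ℤ) ≤ ((n / K : ℕ) : ℤ) := unt_mul_ndL K n (d 0)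
  have h5 : (unt d n : ℤ) * (B - 1) = 3 * ((unt d n : ℤ) * ndL K (d 0)) +
      (unt d n : ℤ) * (3 * Λ + 1) - 2 * unt d n := by rw [hB]; ring
  refine finR_of_gpt (e := d 0) (ruleT_ok (datC K kap) d n) (DictB.cfgE_subset n ω) hK hn
    fun a b ha hb => ?_
  have hcl : Blow.cl (unt d n) (xg d n K a b) = gpt K (d 0) a b := cl_cf hu' _
  obtain ⟨g, h1, h2⟩ := near_removed (𝔇 := datC K kap) (d := d) (n := n) (ω := ω) (r := r) (B := B)
    (A := 4 * ((n / K : ℕ) : ℤ) - 2 * (unt d n : ℤ) - 1) (x := xg d n K a b) (N := N) hu0 hr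
    (by omega) (by rw [h5]; linarith) h0
    (fun i hi => (hA i hi).toZ ((hS i hi a b ha hb).mono (by omega) le_rfl))
    (fun i _ => ndlN_datC hu0 i)
    (by
      rw [hcl]
      exact cover_datC (kap := kap) hK hL hSt hΛ0 (fun i _ => msh_pos d i)
        (fun i hi => hΛ i (by rwa [Cov.ts_len] at hi)) hj ha hb)
  rw [hV] at h1
  refine ⟨g, h1, ?_⟩
  change sd g (xg d n K a b) + 2 * (unt d n : ℤ) + 1 ≤ 4 * ((n / K : ℕ) : ℤ)
  linarith

/-! ### The row -/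

section Row

variable (K kap : ℕ) (G : ℕ → ℕ → ℕ) (Bd : (ℕ → ℕ) → ℕ → ℕ → Set Cfg)

/-- **Input 1 of the row `RowFin`**: the stages. -/
def RowStgA (ε : ℝ) : Prop := ∀ N : ℕ, ∃ ℓ₀ : ℕ, ∀ d : ℕ → ℕ, ℓ₀ ≤ d N →
  (chD (datC K kap) G Bd).Gro N d → ∀ᶠ n in atTop, ∃ E : Set Cfg, pr (Sn n) E ≤ ε ∧
    ∀ ω, ω ∉ E → Gd Bd N d n ω → ∀ i < N, StgA (datC K kap) d n ω i ((n / K / 4 : ℕ) : ℤ)

/-- **Input 2 of the row `RowFin`**: the side, for all the grid points. -/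
def RowStgS (ε : ℝ) : Prop := ∀ N : ℕ, ∃ ℓ₀ : ℕ, ∀ d : ℕ → ℕ, ℓ₀ ≤ d N →
  (chD (datC K kap) G Bd).Gro N d → ∀ᶠ n in atTop, ∃ E : Set Cfg, pr (Sn n) E ≤ ε ∧
    ∀ ω, ω ∉ E → Gd Bd N d n ω → ∀ i < N, ∀ a b : ℕ, a < K + 2 → b < K + 2 →
      StgS (datC K kap) d n ω i (3 * ndL K (d 0))
        (4 * ((n / K : ℕ) : ℤ) - 2 * (unt d n : ℤ) - 1) (xg d n K a b)

end Row

theorem gro_anti {G : ℕ → ℕ → ℕ} {Bd : (ℕ → ℕ) → ℕ → ℕ → Set Cfg} (hG : ∀ i x, x + 4 ≤ G i x)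
    {N : ℕ} (h : (chD 𝔇 G Bd).Gro N d) {i j : ℕ} (hij : i < j) (hj : j ≤ N) :
    d j + 4 ≤ d i := by
  have step : ∀ k < N, d (k + 1) + 4 ≤ d k := fun k hk => (hG k (d (k + 1))).trans (h k hk)
  induction j, hij using Nat.le_induction with
  | base => exact step i (by omega)
  | succ j hij ih =>
    have h1 := ih (by omega)
    have h2 := step j (by omega)
    omega

/-- **The row `RowFin`.** -/
theorem rowFin_of {K kap : ℕ} {G : ℕ → ℕ → ℕ} {Bd : (ℕ → ℕ) → ℕ → ℕ → Set Cfg} (hK : 0 < K)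
    (hG : ∀ i x, x + 4 ≤ G i x) {ε ε' : ℝ} (HA : RowStgA K kap G Bd ε) (HS : RowStgS K kap G Bd ε')
    (r : ℝ) : RowFin (datC K kap) G Bd (fun d n => ruleT (datC K kap) d n) r (ε + ε') := by
  intro N
  obtain ⟨ℓ₁, h1⟩ := HA N
  obtain ⟨ℓ₂, h2⟩ := HS N
  refine ⟨max (max ℓ₁ ℓ₂) (8 * K), fun d hd hGr => ?_⟩
  have hdN : 8 * K ≤ d N := (le_max_right _ _).trans hd
  have hd0 : d N ≤ d 0 := by
    rcases Nat.eq_zero_or_pos N with h | h
    · rw [h]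
    · have := gro_anti hG hGr h le_rfl
      omega
  have hp : ∀ x : ℕ, 8 * K ≤ x → 8 * K ≤ 2 ^ x := fun x hx => hx.trans Nat.lt_two_pow_self.le
  have hL : 2 ≤ ndL K (d 0) := by
    unfold Hook.ndL
    rw [Nat.le_div_iff_mul_le hK]
    have := hp (d 0) (hdN.trans hd0)
    omega
  filter_upwards [h1 d (((le_max_left _ _).trans (le_max_left _ _)).trans hd) hGr,
    h2 d (((le_max_right _ _).trans (le_max_left _ _)).trans hd) hGr, Box0.eventually_unt (d 0),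
    eventually_ge_atTop (4 * (2 ^ d 0 + K) * 2 ^ d 0), eventually_ge_atTop (8 * K)] with
    n ⟨E₁, hE₁, hA⟩ ⟨E₂, hE₂, hS⟩ ⟨hu1, hu2, hu3⟩ hn1 hn2
  refine ⟨E₁ ∪ E₂, (pr_union_le _ _ _).trans (by linarith), fun ω hω hg hm => ?_⟩
  have hn : 4 * (2 ^ d 0 + K) ≤ n / 2 ^ d 0 := by
    rw [Nat.le_div_iff_mul_le (by positivity)]
    exact hn1
  -- the scales
  have hh : 8 ≤ n / K := by
    rw [Nat.le_div_iff_mul_le hK]
    exact hn2
  have hu4 : n / 2 ^ d 0 ≤ n / K / 8 := by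
    rw [Nat.div_div_eq_div_mul]
    exact Nat.div_le_div_left (by rw [mul_comm]; exact hp _ (hdN.trans hd0)) (by omega)
  have hm0 : ∀ i < N, msh d i ≤ 2 ^ (d 0 - d N) := by
    intro i hi
    unfold msh
    refine pow_le_pow_right₀ (by norm_num) ?_
    have := gro_anti hG hGr hi le_rfl
    omega
  have hu5 : n / 2 ^ d 0 * 2 ^ (d 0 - d N) ≤ n / K / 8 := by
    have e1 : 2 ^ d 0 = 2 ^ (d 0 - d N) * 2 ^ d N := by
      rw [← pow_add]
      congr 1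
      omega
    calc n / 2 ^ d 0 * 2 ^ (d 0 - d N) = n / 2 ^ d N / 2 ^ (d 0 - d N) * 2 ^ (d 0 - d N) := by
          rw [Nat.div_div_eq_div_mul, e1, mul_comm (2 ^ d N)]
      _ ≤ n / 2 ^ d N := Nat.div_mul_le_self _ _
      _ ≤ n / K / 8 := by
          rw [Nat.div_div_eq_div_mul]
          exact Nat.div_le_div_left (by rw [mul_comm]; exact hp _ hdN) (by omega)
  have e2 : ((n / 2 ^ d 0 : ℕ) : ℤ) * (2 : ℤ) ^ (d 0 - d N) ≤ ((n / K / 8 : ℕ) : ℤ) := by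
    exact_mod_cast hu5
  have e3 : ((n / 2 ^ d 0 : ℕ) : ℤ) ≤ ((n / K / 8 : ℕ) : ℤ) := by exact_mod_cast hu4
  have e5 : ((n / K / 8 : ℕ) : ℤ) * 8 ≤ ((n / K : ℕ) : ℤ) := by
    exact_mod_cast Nat.div_mul_le_self (n / K) 8
  have e6 : ((n / K / 4 : ℕ) : ℤ) * 4 ≤ ((n / K : ℕ) : ℤ) := by
    exact_mod_cast Nat.div_mul_le_self (n / K) 4
  have e7 : (8 : ℤ) ≤ ((n / K : ℕ) : ℤ) := by exact_mod_cast hh
  have e8 : n / K / 8 ≤ n / K / 4 := Nat.div_le_div_left (by norm_num) (by norm_num)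
  have e9 : ((n / K / 8 : ℕ) : ℤ) ≤ ((n / K / 4 : ℕ) : ℤ) := by exact_mod_cast e8
  refine finR_of_stgZ (K := K) (kap := kap) (r := ((n / K / 4 : ℕ) : ℤ)) (Λ := 2 ^ (d 0 - d N)) hK hL
    hn hu1 hu2 hu3 (fun i hi hi0 => gro_anti hG hGr hi0 hi.le) (by positivity) hm0 hm
    (fun i hi => hA ω (fun h => hω (Or.inl h)) hg i hi)
    (fun i hi a b ha hb => hS ω (fun h => hω (Or.inr h)) hg i hi a b ha hb) ?_ ?_
  · unfold unt
    linarith
  · unfold unt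
    have e4 : ((n / 2 ^ d 0 : ℕ) : ℤ) * (3 * 2 ^ (d 0 - d N) + 1) =
        3 * (((n / 2 ^ d 0 : ℕ) : ℤ) * (2 : ℤ) ^ (d 0 - d N)) + ((n / 2 ^ d 0 : ℕ) : ℤ) := by ring
    rw [e4]
    linarith

end Pool.Agent.SixB.Fin8
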