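import Pool.Agent.Lib.SixB.S8RareA
import Pool.Agent.Lib.SixB.S8RecSkel

/-!
# Step 8: growth functions

* `Gro.le`: the resolutions decrease if the growth function is at least the identity;
* `exc_small`: the exceptional events of the output rows are small if all the resolutions are fine;
* `RowRare.mono`, `RowEst.mono`, …: the rows are monotone in the growth function, so each row can be
  proved for its own growth function (`gmx` is the maximum of two of them).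
-/

set_option autoImplicit false

namespace Pool.Agent.SixB

open Filter Topology Finset Pool.Agent.Perc

/-- The resolutions decrease. -/
theorem ChnD.Gro.le {A : Type} {c : ChnD A} (hG : ∀ l e, e ≤ c.G l e) {d : ℕ → ℕ} {m i : ℕ}
    (hg : c.Gro m d) (hi : i ≤ m) : d m ≤ d i := by
  induction m, hi using Nat.le_induction with
  | base => exact le_rfl
  | succ k hk ih =>
    exact ((hG k _).trans (hg k (Nat.lt_succ_self k))).trans (ih fun j hj => hg j (by omega))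

/-- **The exceptional events of the output are small.** `Y d n l N`, `l < N`, are events of which the
probability together with a good past of the stage `l` is small if the resolution `d l` is fine compared
with `d (l + 1)`. -/
theorem exc_small {A : Type} (c : ChnD A) (W : ℕ → Finset (ℤ × ℤ))
    (Y : (ℕ → ℕ) → ℕ → ℕ → ℕ → Set Cfg) (LY : ℕ → ℕ → ℝ → ℕ)
    (hY : ∀ (l e : ℕ) (η : ℝ), 0 < η → ∀ d : ℕ → ℕ, d (l + 1) = e → LY l e η ≤ d l →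
      c.Gro (l + 1) d → ∀ N, l < N → c.Gro N d →
      ∀ᶠ n in atTop, pr (W n) (Y d n l N ∩ {ω | ∀ i ≤ l, ω ∉ c.Bd d n i}) ≤ η)
    (hG1 : ∀ l e, e ≤ c.G l e) (hG3 : ∀ l e, LY l e (epsR e) ≤ c.G l e) (N : ℕ) {ε : ℝ}
    (hε : 0 < ε) : ∃ ℓ₀ : ℕ, ∀ d : ℕ → ℕ, ℓ₀ ≤ d N → c.Gro N d → ∀ᶠ n in atTop,
      pr (W n) {ω | ∃ l < N, ω ∈ Y d n l N ∧ ∀ i ≤ l, ω ∉ c.Bd d n i} ≤ ε := by
  obtain ⟨k₀, hk₀⟩ : ∃ k₀ : ℕ, (N : ℝ) * epsR k₀ ≤ ε := by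
    obtain ⟨k₀, hk₀⟩ := exists_pow_lt_of_lt_one (show (0 : ℝ) < ε / (N + 1) by positivity)
      (show (1 / 2 : ℝ) < 1 by norm_num)
    refine ⟨k₀, ?_⟩
    rw [lt_div_iff₀ (by positivity)] at hk₀
    have h1 : (0 : ℝ) ≤ (1 / 2 : ℝ) ^ k₀ := by positivity
    unfold epsR
    nlinarith
  refine ⟨k₀, fun d hd hg => ?_⟩
  have e1 : ∀ᶠ n in atTop, ∀ l ∈ range N, pr (W n) (Y d n l N ∩ {ω | ∀ i ≤ l,
      ω ∉ c.Bd d n i}) ≤ epsR k₀ := by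
    rw [eventually_all_finset]
    intro l hl
    rw [mem_range] at hl
    have h1 := hY l (d (l + 1)) (epsR (d (l + 1))) (epsR_pos _) d rfl
      ((hG3 _ _).trans (hg l hl)) (fun i hi => hg i (by omega)) N hl hg
    filter_upwards [h1] with n hn
    exact hn.trans (epsR_anti (hd.trans (hg.le hG1 (by omega))))
  filter_upwards [e1] with n hn
  have h2 := pr_biUnion_le (W n) (fun l => Y d n l N ∩ {ω | ∀ i ≤ l, ω ∉ c.Bd d n i})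
    (fun _ => epsR k₀) N fun l hl => hn l (mem_range.2 hl)
  rw [sum_const, card_range, nsmul_eq_mul] at h2
  refine (pr_mono (W n) ?_).trans (h2.trans hk₀)
  rintro ω ⟨l, hl, h3, h4⟩
  exact ⟨l, hl, h3, h4⟩

/-- The union of two exceptional events. -/
theorem exc_union {W : ℕ → Finset (ℤ × ℤ)} {P : (ℕ → ℕ) → Prop} {E₁ E₂ : (ℕ → ℕ) → ℕ → Set Cfg}
    {N : ℕ} (h₁ : ∀ ε : ℝ, 0 < ε → ∃ ℓ₀ : ℕ, ∀ d : ℕ → ℕ, ℓ₀ ≤ d N → P d →
      ∀ᶠ n in atTop, pr (W n) (E₁ d n) ≤ ε)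
    (h₂ : ∀ ε : ℝ, 0 < ε → ∃ ℓ₀ : ℕ, ∀ d : ℕ → ℕ, ℓ₀ ≤ d N → P d →
      ∀ᶠ n in atTop, pr (W n) (E₂ d n) ≤ ε) (ε : ℝ) (hε : 0 < ε) :
    ∃ ℓ₀ : ℕ, ∀ d : ℕ → ℕ, ℓ₀ ≤ d N → P d →
      ∀ᶠ n in atTop, pr (W n) (E₁ d n ∪ E₂ d n) ≤ ε := by
  obtain ⟨a, ha⟩ := h₁ (ε / 2) (by positivity)
  obtain ⟨b, hb⟩ := h₂ (ε / 2) (by positivity)
  refine ⟨max a b, fun d hd hP => ?_⟩
  filter_upwards [ha d ((le_max_left _ _).trans hd) hP, hb d ((le_max_right _ _).trans hd) hP]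
    with n h1 h2
  exact (pr_union_le _ _ _).trans (by linarith)

end Pool.Agent.SixB

namespace Pool.Agent.SixB.Tru

open Filter Topology Finset Pool.Agent.Perc

/-- The maximum of two growth functions and the identity. -/
def gmx (G G' : ℕ → ℕ → ℕ) : ℕ → ℕ → ℕ := fun l e => max (max (G l e) (G' l e)) e

theorem left_gmx {G G' : ℕ → ℕ → ℕ} (l e : ℕ) : G l e ≤ gmx G G' l e :=
  (le_max_left _ _).trans (le_max_left _ _)

theorem right_gmx {G G' : ℕ → ℕ → ℕ} (l e : ℕ) : G' l e ≤ gmx G G' l e :=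
  (le_max_right _ _).trans (le_max_left _ _)

theorem id_gmx {G G' : ℕ → ℕ → ℕ} (l e : ℕ) : e ≤ gmx G G' l e := le_max_right _ _

variable {𝔇 : Dat} {G G' : ℕ → ℕ → ℕ} {Bd : (ℕ → ℕ) → ℕ → ℕ → Set Cfg}

theorem gro_mono (h : ∀ l e, G l e ≤ G' l e) {N : ℕ} {d : ℕ → ℕ}
    (hg : (chD 𝔇 G' Bd).Gro N d) : (chD 𝔇 G Bd).Gro N d := fun i hi => (h _ _).trans (hg i hi)

theorem RowRare.mono (h : ∀ l e, G l e ≤ G' l e) (H : RowRare 𝔇 G Bd) : RowRare 𝔇 G' Bd := by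
  intro m ℓ η hη
  obtain ⟨L, hL⟩ := H m ℓ η hη
  exact ⟨L, fun d h1 h2 h3 => hL d h1 h2 (gro_mono h h3)⟩

theorem RowEst.mono (h : ∀ l e, G l e ≤ G' l e) (H : RowEst 𝔇 G Bd) : RowEst 𝔇 G' Bd := by
  intro m ℓ
  obtain ⟨B, C, α, c₀, L₀, h1, h2, h3, h4⟩ := H m ℓ
  exact ⟨B, C, α, c₀, L₀, h1, h2, h3, fun d k1 k2 k3 => h4 d k1 k2 (gro_mono h k3)⟩

theorem RowCnt.mono (h : ∀ l e, G l e ≤ G' l e) (H : RowCnt 𝔇 G Bd) : RowCnt 𝔇 G' Bd := by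
  intro ε hε
  obtain ⟨T, hT⟩ := H ε hε
  refine ⟨T, fun N => ?_⟩
  obtain ⟨ℓ₀, hℓ⟩ := hT N
  exact ⟨ℓ₀, fun d k1 k2 => hℓ d k1 (gro_mono h k2)⟩

theorem RowStep.mono {R : (ℕ → ℕ) → ℕ → Rule.Rul}
    {tips : (ℕ → ℕ) → List Mv.Rec → ℕ → Option (ℂ × List ℂ)} {δ ε : ℝ}
    (h : ∀ l e, G l e ≤ G' l e) (H : RowStep 𝔇 G Bd R tips δ ε) : RowStep 𝔇 G' Bd R tips δ ε := by
  intro N
  obtain ⟨ℓ₀, hℓ⟩ := H N
  exact ⟨ℓ₀, fun d k1 k2 => hℓ d k1 (gro_mono h k2)⟩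

theorem RowFin.mono {R : (ℕ → ℕ) → ℕ → Rule.Rul} {r ε : ℝ}
    (h : ∀ l e, G l e ≤ G' l e) (H : RowFin 𝔇 G Bd R r ε) : RowFin 𝔇 G' Bd R r ε := by
  intro N
  obtain ⟨ℓ₀, hℓ⟩ := H N
  exact ⟨ℓ₀, fun d k1 k2 => hℓ d k1 (gro_mono h k2)⟩

end Pool.Agent.SixB.Tru
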