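import Pool.Agent.Lib.SixB.S8FinR
import Pool.Agent.Lib.SixB.S8FinB
import Pool.Agent.Lib.SixB.S8FinE
import Pool.Agent.Lib.SixB.S8InvWD
import Pool.Agent.Lib.SixB.S8LawI
import Pool.Agent.Lib.SixB.S8Grow

/-!
# Step 8: the stages of the row `RowFin` from the invariant of the chain

* `StF`: what the coverage needs to know about a state; `stgA_of`: one stage;
* `FinInv`: what the invariant has to contain; `FinInv.stF`, `stF_zero`: the states of the chain;
* `rowStgA_of`: **the first input of the row `RowFin`**;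
* `RowStgA.mono`, `RowStgS.mono`: a larger growth function.
-/

set_option autoImplicit false

namespace Pool.Agent.SixB.Fin8

open Filter Finset Pool.Agent.Perc Pool.Agent.Perc6 Pool.Agent.PercT Pool.Agent.PercX60
open Pool.Agent.SixB Pool.Agent.SixB.Rule Pool.Agent.SixB.Dct Pool.Agent.SixB.Mv
open Pool.Agent.SixB.Tru Pool.Agent.SixB.Cov
open Pool.Agent.SixB.Blow (subE)
open Pool.Agent.SixB.Top (lf rg)
open Pool.Agent.SixB.TruR (ts ruleT)
open Pool.Agent.SixB.Ndle (sd)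

variable {𝔇 : Dat} {d : ℕ → ℕ} {n i : ℕ} {ω : Cfg} {s : TS} {r r' R C : ℤ}

/-! ### One stage -/

/-- **What the coverage needs to know about a state.** -/
structure StF (𝔇 : Dat) (d : ℕ → ℕ) (n : ℕ) (r : ℤ) (s : TS) (ω : Cfg) : Prop where
  /-- the true needle is running if the coarse domain is -/
  q : ∀ D, (𝔇.cs d s.x).run = some D → ∃ q, s.q = some q
  /-- the invariant of the running stages -/
  run : RunV 𝔇 d n r s ω
  /-- the base is near the coarse target side -/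
  bas : ∀ q D, s.q = some q → (𝔇.cs d s.x).run = some D → (𝔇.cs d s.x).ini = false →
    LC.InB (lf (subE (unt d n) D.B 0)) r (ua (eS s.V q))
  /-- the stored discs -/
  st : StT 𝔇 d n r s ω
  /-- the history -/
  hist : HistOK 𝔇 d s.x

theorem sgm_zero_run (𝔇 : Dat) (d : ℕ → ℕ) (n : ℕ) (ω : Cfg) : (sgm 𝔇 d n ω 0).run = none := rfl

/-- **One stage.** -/
theorem stgA_of (h : StF 𝔇 d n r (ts 𝔇 d n ω i) ω) (h' : StF 𝔇 d n r' (ts 𝔇 d n ω (i + 1)) ω)
    (hu : 0 < unt d n) (hd : 0 < i → d i + 4 ≤ d 0)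
    (hR : r + unt d n * (msz 𝔇.kap d i * msh d i + 17 * msh d i) ≤ R) :
    StgA 𝔇 d n ω i R := by
  have hL := msh_pos d i
  have hM := msz_pos 𝔇.kap d i
  have hu' : (0 : ℤ) < unt d n := by exact_mod_cast hu
  have hgr : ∀ D : Dom, 𝔇.gr d (ts 𝔇 d n ω i).x D = D.grd (msh d i) (msz 𝔇.kap d i) :=
    fun D => gr_ts 𝔇 d n ω i D
  have hgL : ∀ D : Dom, (𝔇.gr d (ts 𝔇 d n ω i).x D).L = msh d i := fun D => by rw [hgr]; rfl
  have hgM : ∀ D : Dom, (𝔇.gr d (ts 𝔇 d n ω i).x D).M = msz 𝔇.kap d i := fun D => by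
    rw [hgr]; rfl
  have hML : (0 : ℤ) ≤ msz 𝔇.kap d i * msh d i := (mul_pos hM hL).le
  refine ⟨⟨fun D hD => h.q D hD, fun _ hr => ?_, fun D hD hi => ?_⟩, h.st.inv,
    fun q D hq hD hi => ?_, fun q D hq hD hi => ?_, ?_⟩
  · obtain ⟨D, hD⟩ := Option.isSome_iff_exists.1 hr
    exact h'.q D hD
  · have hi0 : 0 < i := by
      rcases Nat.eq_zero_or_pos i with h0 | h0
      · subst h0
        rw [sgm_zero_run] at hD
        cases hD
      · exact h0
    have hsuf : recS 𝔇 d n i ω :: (ts 𝔇 d n ω i).x <:+ (ts 𝔇 d n ω (i + 1)).x := by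
      rw [ts_x]
    refine ⟨?_, h'.hist.rok _ _ hsuf D hD hi, ?_⟩
    · rw [hgr]
      exact (cst_ok hD).val_grd hL (msh_16 (hd hi0)) hM
    · have h1 := h'.hist.esc _ _ hsuf D hD hi
      rw [hgr]
      rw [Cov.ts_len] at h1
      exact h1
  · have hV := h.run q D hq hD hi
    have hR' : r + unt d n * ((𝔇.gr d (ts 𝔇 d n ω i).x D).M * (𝔇.gr d (ts 𝔇 d n ω i).x D).L +
        17 * (𝔇.gr d (ts 𝔇 d n ω i).x D).L) ≤ R := by rw [hgL, hgM]; exact hR
    rcases hV with ⟨_, _, _, _, _, _, _, _, h1⟩ | ⟨_, _, _, h1⟩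
    · exact nearT_of_runB h1.toRunB hu (by rw [hgL]; exact hL) hR'
    · exact nearT_of_runB h1.toRunB hu (by rw [hgL]; exact hL) hR'
  · have hb := h.bas q D hq hD hi
    have hb' : LC.InB (ua (eS (ts 𝔇 d n ω i).V q)) r (lf (subE (unt d n) D.B 0)) := by
      unfold LC.InB at hb ⊢
      omega
    refine nearB_of_bas hu (by rw [hgL]; exact hL) hb' (le_trans ?_ hR)
    rw [hgL, mul_add]
    have := mul_nonneg hu'.le hML
    linarith
  · have h1 : EroN 𝔇 d n ω i (6 * (unt d n * msh d i) + r) := by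
      refine eroN_of_stW hu hL fun hr => ?_
      have hq : (ts 𝔇 d n ω i).q = none := by
        by_contra h5
        obtain ⟨x, hx⟩ := Option.ne_none_iff_exists'.1 h5
        obtain ⟨D, hD⟩ := (TruR.stOK_ts 𝔇 d n ω i).run x hx
        rw [sgm, hD] at hr
        cases hr
      have h2 := h.st.st
      unfold frT at h2
      rw [hq] at h2
      exact h2
    intro h2 h3 f h4 h5
    obtain ⟨g, h6, h7⟩ := h1 h2 h3 f h4 h5
    refine ⟨g, h6, h7.trans (le_trans ?_ hR)⟩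
    rw [mul_add]
    have e1 := mul_nonneg hu'.le hML
    have e2 := mul_nonneg hu'.le hL.le
    linarith

/-! ### The states of the chain -/

/-- **What the invariant of the chain has to contain.** -/
structure FinInv (C : ℤ) (𝔇 : Dat) (I : InvP) : Prop where
  C1 : 1 ≤ C
  run : ∀ {d n i ω}, I d n i (tst 𝔇 d n ω i) ω → RunVI C 𝔇 d n i (tst 𝔇 d n ω i) ω
  q : ∀ {d n i ω}, I d n i (tst 𝔇 d n ω i) ω → QI 𝔇 d n i (tst 𝔇 d n ω i) ω
  bas : ∀ {d n i ω}, I d n i (tst 𝔇 d n ω i) ω → BasI C 𝔇 d n i (tst 𝔇 d n ω i) ω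
  w : ∀ {d n i ω}, I d n i (tst 𝔇 d n ω i) ω → WI 𝔇 C d n i (tst 𝔇 d n ω i) ω

theorem FinInv.stF {I : InvP} (H : FinInv C 𝔇 I) (h : I d n i (tst 𝔇 d n ω i) ω) :
    StF 𝔇 d n (rad C (unt d n) d (i + 1)) (ts 𝔇 d n ω (i + 1)) ω where
  q := H.q h
  run := by
    have h1 := H.run h
    unfold RunVI at h1
    rw [tst_len] at h1
    exact h1
  bas := by
    have h1 := H.bas h
    unfold BasI at h1
    rw [tst_len] at h1
    exact h1
  st := (H.w h).1
  hist := (H.w h).2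

/-- **The first state.** -/
theorem stF_zero {K kap r₀ : ℕ} (hC : 1 ≤ C) (hu : 2 ≤ unt d n) (hn : n = 2 ^ d 0 * unt d n + r₀)
    (hr : 2 * r₀ + 1 < unt d n) :
    StF (datC K kap) d n (rad C (unt d n) d 0) (ts (datC K kap) d n ω 0) ω where
  q := fun D hD => by cases hD
  run := fun q D hq => by cases hq
  bas := fun q D hq => by cases hq
  st := stT_init hu hn hr hC
  hist := HistOK.nil

/-! ### The row -/

theorem rad_le {N : ℕ} (hC : 0 ≤ C) {X : ℤ} (hX : 1 ≤ X) (hm : ∀ j < N, msh d j ≤ X) (hi : i ≤ N) :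
    rad C (unt d n) d i ≤ C * ((N + 1) * (unt d n * X)) := by
  have h1 : rad C (unt d n) d i ≤ rad C (unt d n) d N := rad_mono hC _ _ hi
  refine h1.trans ?_
  unfold rad
  have h2 : ∑ j ∈ range N, msh d j ≤ ∑ _j ∈ range N, X :=
    Finset.sum_le_sum fun j hj => hm j (Finset.mem_range.1 hj)
  rw [Finset.sum_const, Finset.card_range, nsmul_eq_mul] at h2
  have h3 : (1 : ℤ) + ∑ j ∈ range N, msh d j ≤ (N + 1) * X := by linarith
  have h4 : (0 : ℤ) ≤ C * unt d n := mul_nonneg hC (by positivity)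
  calc C * (unt d n : ℤ) * (1 + ∑ j ∈ range N, msh d j) ≤ C * unt d n * ((N + 1) * X) :=
        mul_le_mul_of_nonneg_left h3 h4
    _ = C * ((N + 1) * (unt d n * X)) := by ring

/-- **The first input of the row `RowFin`**, from the invariant of the chain. -/
theorem rowStgA_of {K kap : ℕ} {G : ℕ → ℕ → ℕ} {I : InvP} (H : FinInv C (datC K kap) I)
    (hK : 0 < K) (hkap : 8 * K ≤ 2 ^ kap) (hG : ∀ i x, x + 4 ≤ G i x) {ε : ℝ} (hε : 0 < ε) :
    RowStgA K kap G (BdI I (datC K kap)) ε := by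
  intro N
  have hC0 : 0 ≤ C := by have := H.C1; omega
  set P : ℕ := C.toNat * (N + 1) + 17 with hP
  refine ⟨max (8 * K * P) kap, fun d hd hGr => ?_⟩
  have hdN : 8 * K * P ≤ d N := (le_max_left _ _).trans hd
  have hdk : kap ≤ d N := (le_max_right _ _).trans hd
  have hd0 : ∀ j ≤ N, d N ≤ d j := by
    intro j hj
    rcases Nat.lt_or_ge j N with h | h
    · have := gro_anti hG hGr h le_rfl
      omega
    · have : j = N := le_antisymm hj h
      rw [this]
  have hd4 : ∀ j < N, 0 < j → d j + 4 ≤ d 0 := fun j hj h0 => gro_anti hG hGr h0 hj.le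
  filter_upwards [Box0.eventually_unt (d 0)] with n ⟨hu1, hu2, hu3⟩
  refine ⟨∅, by rw [Tru.pr_none]; exact hε.le, fun ω _ hg i hi => ?_⟩
  have hu0 : 0 < unt d n := by unfold unt; omega
  have hu' : (0 : ℤ) < unt d n := by exact_mod_cast hu0
  have hI : ∀ j < N, I d n j (tst (datC K kap) d n ω j) ω := fun j hj => (notMem_bdI.1 (hg j hj)).1
  have hst : StF (datC K kap) d n (rad C (unt d n) d i) (ts (datC K kap) d n ω i) ω := by
    cases i with
    | zero => exact stF_zero H.C1 hu1 hu2 hu3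
    | succ i => exact H.stF (hI i (by omega))
  -- the numbers
  have hX1 : (1 : ℤ) ≤ 2 ^ (d 0 - d N) := one_le_pow₀ (by norm_num)
  have hm0 : ∀ j ≤ N, msh d j ≤ 2 ^ (d 0 - d N) := by
    intro j hj
    unfold msh
    refine pow_le_pow_right₀ (by norm_num) ?_
    have := hd0 j hj
    omega
  have hrad : rad C (unt d n) d i ≤ C * ((N + 1) * (unt d n * 2 ^ (d 0 - d N))) :=
    rad_le hC0 hX1 (fun j hj => hm0 j hj.le) hi.le
  have hML : msz kap d i * msh d i = 2 ^ (d 0 - kap) := by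
    rw [mul_comm]
    refine msh_msz (hdk.trans (hd0 i hi.le)) ?_
    rcases Nat.eq_zero_or_pos i with h0 | h0
    · rw [h0]
    · have := hd4 i hi h0
      omega
  have hnu : (unt d n : ℤ) * 2 ^ d 0 ≤ n := by
    have : unt d n * 2 ^ d 0 ≤ n := Nat.div_mul_le_self _ _
    exact_mod_cast this
  have hd00 : d N ≤ d 0 := hd0 0 (Nat.zero_le N)
  have e1 : (2 : ℤ) ^ d 0 = 2 ^ (d 0 - kap) * 2 ^ kap := by
    rw [← pow_add]
    congr 1
    omega
  have e2 : (2 : ℤ) ^ d 0 = 2 ^ (d 0 - d N) * 2 ^ d N := by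
    rw [← pow_add]
    congr 1
    omega
  have e3 : (8 * K : ℤ) ≤ 2 ^ kap := by exact_mod_cast hkap
  have e4 : (8 * K * P : ℤ) ≤ 2 ^ d N := by
    have h1 : 8 * K * P ≤ 2 ^ d N := hdN.trans Nat.lt_two_pow_self.le
    exact_mod_cast h1
  have hPZ : (P : ℤ) = C * (N + 1) + 17 := by
    rw [hP]
    push_cast
    rw [Int.toNat_of_nonneg hC0]
  have f1 : (unt d n : ℤ) * 2 ^ (d 0 - kap) * (8 * K) ≤ n := by
    calc (unt d n : ℤ) * 2 ^ (d 0 - kap) * (8 * K) ≤ unt d n * 2 ^ (d 0 - kap) * 2 ^ kap :=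
          mul_le_mul_of_nonneg_left e3 (by positivity)
      _ = unt d n * 2 ^ d 0 := by rw [e1]; ring
      _ ≤ n := hnu
  have f2 : (unt d n : ℤ) * 2 ^ (d 0 - d N) * (8 * K * P) ≤ n := by
    calc (unt d n : ℤ) * 2 ^ (d 0 - d N) * (8 * K * P) ≤ unt d n * 2 ^ (d 0 - d N) * 2 ^ d N :=
          mul_le_mul_of_nonneg_left e4 (by positivity)
      _ = unt d n * 2 ^ d 0 := by rw [e2]; ring
      _ ≤ n := hnu
  refine stgA_of hst (H.stF (hI i hi)) hu0 (hd4 i hi) ?_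
  show rad C (unt d n) d i + unt d n * (msz kap d i * msh d i + 17 * msh d i) ≤ _
  have hKz : (0 : ℤ) < K * 4 := by
    have : (0 : ℤ) < K := by exact_mod_cast hK
    linarith
  have hcast : ((n / K / 4 : ℕ) : ℤ) = (n : ℤ) / (K * 4) := by
    rw [Nat.div_div_eq_div_mul]
    push_cast
    rfl
  rw [hML, hcast, Int.le_ediv_iff_mul_le hKz]
  have g1 : (unt d n : ℤ) * msh d i ≤ unt d n * 2 ^ (d 0 - d N) :=
    mul_le_mul_of_nonneg_left (hm0 i hi.le) hu'.le
  have g2 : rad C (unt d n) d i + unt d n * (2 ^ (d 0 - kap) + 17 * msh d i) ≤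
      unt d n * 2 ^ (d 0 - d N) * P + unt d n * 2 ^ (d 0 - kap) := by
    rw [hPZ]
    have : C * ((N + 1) * (unt d n * 2 ^ (d 0 - d N))) =
        (unt d n : ℤ) * 2 ^ (d 0 - d N) * (C * (N + 1)) := by ring
    rw [this] at hrad
    rw [mul_add, mul_add]
    linarith
  have g3 := mul_le_mul_of_nonneg_right g2 hKz.le
  have g4 : (unt d n * 2 ^ (d 0 - d N) * P + unt d n * 2 ^ (d 0 - kap)) * (K * 4 : ℤ) * 2 =
      unt d n * 2 ^ (d 0 - d N) * (8 * K * P) + unt d n * 2 ^ (d 0 - kap) * (8 * K) := by ring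
  linarith

/-! ### A larger growth function -/

section Mono

variable {K kap : ℕ} {G G' : ℕ → ℕ → ℕ} {Bd : (ℕ → ℕ) → ℕ → ℕ → Set Cfg}

theorem RowStgA.mono {ε : ℝ} (h : ∀ l e, G l e ≤ G' l e) (H : RowStgA K kap G Bd ε) :
    RowStgA K kap G' Bd ε := by
  intro N
  obtain ⟨ℓ₀, hℓ⟩ := H N
  exact ⟨ℓ₀, fun d k1 k2 => hℓ d k1 (gro_mono h k2)⟩

theorem RowStgS.mono {ε : ℝ} (h : ∀ l e, G l e ≤ G' l e) (H : RowStgS K kap G Bd ε) :
    RowStgS K kap G' Bd ε := by
  intro N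
  obtain ⟨ℓ₀, hℓ⟩ := H N
  exact ⟨ℓ₀, fun d k1 k2 => hℓ d k1 (gro_mono h k2)⟩

end Mono

end Pool.Agent.SixB.Fin8
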