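import Pool.Agent.Lib.SixB.S8GateZero
import Pool.Agent.Lib.SixB.S8NearRed
import Pool.Agent.Lib.SixB.S8ScanEx
import Pool.Agent.Lib.SixB.S8Hook
import Pool.Agent.Lib.SixB.S8BadD

/-!
# Step 8: no gate at the beginning of a step, needles of the chain

* `not_gate_clear`: if every face of the needle which is far from the base face `y` is far from the faces
  which are not left, then there is no gate at the time `0` in a box of radius `r` if the first
  face of the strand is outside of a larger box (radius `R ≥ 5 r + 2 c + 14`);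
* `not_gate_hookU`: the needles of the chain (`Hook.hookU`); `not_gate_exS`: the same for the exploration
  `Tru.exS` of a state of the chain.
-/

set_option autoImplicit false

namespace Pool.Agent.SixB.GZ

open Finset Pool.Agent.Perc Pool.Agent.PercT Pool.Agent.Perc6 Pool.Agent.PercX60
open Pool.Agent.PercU (Cor vtx fce qry qryb)
open Pool.Agent.MP_6bd702.H23 (Ed ea eb)
open Pool.Agent.SixB Pool.Agent.SixB.Dct Pool.Agent.SixB.NearCut Pool.Agent.SixB.Ndle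
open Pool.Agent.SixB.Blow

variable {ω : Cfg} {V : Finset (ℤ × ℤ)} {Q : Finset Edg} {k₀ : Cor} {z y : ℤ × ℤ} {r c R : ℤ}
  {E : Ex}

private theorem sd_le_iff {v w : ℤ × ℤ} {m : ℤ} : sd v w ≤ m ↔ |v.1 - w.1| ≤ m ∧ |v.2 - w.2| ≤ m := by
  unfold sd
  exact max_le_iff

private theorem sd_sq {v f : ℤ × ℤ} (h : Sq v f) : sd f v ≤ 1 := by
  rw [sd_le_iff, abs_le, abs_le]
  unfold Sq at h
  omega

/-- **No gate at the beginning of a step** for a needle with clearance. -/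
theorem not_gate_clear (hS : Stp E ω V Q k₀) (hN : NdF V Q k₀)
    (hc : ∀ f ∈ QF Q, ∀ x, x ∉ FU V → sd f y ≤ 2 * sd x f + c)
    (hb : sd (phiV (vtx k₀)) y ≤ c) (hR : 5 * r + 2 * c + 14 ≤ R)
    (hz : fa (E.e ω) ∉ Near.Bx z R) : ¬ E.Gate ω 0 z r := by
  have hc0 : 0 ≤ c := (sd_nonneg _ _).trans hb
  have hfa : sd (fa (E.e ω)) (phiV (vtx k₀)) ≤ 1 := by
    have h1 := sq_en (isSide_fa (E.e ω)) 0
    rw [hS.e, en0_kU] at h1
    have h2 : Sq (phiV (vtx k₀)) (fa (E.e ω)) := by rw [hS.e]; exact h1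
    exact sd_sq h2
  have hfar : ∀ m : ℤ, sd (phiV (vtx k₀)) z ≤ m → m + 2 ≤ R → False := by
    intro m h1 h2
    apply hz
    have h3 : sd (fa (E.e ω)) z ≤ m + 1 := by
      have := sd_triangle (fa (E.e ω)) (phiV (vtx k₀)) z
      omega
    rw [sd_le_iff, abs_le, abs_le] at h3
    unfold Near.Bx
    rw [Finset.mem_coe]
    unfold RF
    rw [Finset.mem_product, Finset.mem_Ico, Finset.mem_Ico]
    omega
  refine not_gate_zero' hS hN ?_ ?_
  · rintro ⟨h1, h2⟩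
    have h3 : (0 : ℤ) ≤ r + 1 := (abs_nonneg _).trans h1
    exact hfar (r + 1) (sd_le_iff.2 ⟨h1, h2⟩) (by omega)
  · intro f hf h1 h2 g h3 h4
    by_contra hg
    have h5 := hc f hf g hg
    have h6 : sd g f ≤ 2 * r + 4 := sd_le_iff.2 ⟨h3, h4⟩
    have h7 : sd f z ≤ r + 2 := sd_le_iff.2 ⟨h1, h2⟩
    have h8 := sd_triangle (phiV (vtx k₀)) y z
    have h9 := sd_triangle y f z
    have h10 := sd_comm y f
    exact hfar (5 * r + 2 * c + 12) (by omega) (by omega)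

/-- The needles of the chain have the clearance. -/
theorem hookU_clear {u : ℤ} {L ρ : ℕ} {C : Set (ℤ × ℤ)} {z₀ : ℤ × ℤ} (hC : C.Finite) (hu : 0 < u)
    (hL : L ≤ dlt (Hook.fin C) z₀)
    (H : Hook.Pre V (blow u C) (ndF u (Hook.fin C) z₀ L) (ndA u (Hook.fin C) z₀)
      (ndB u (Hook.fin C) z₀) ρ) {f x : ℤ × ℤ} (hf : f ∈ QF (Hook.hookU u L V C z₀).1)
    (hx : x ∉ FU V) : sd f (ndB u (Hook.fin C) z₀) ≤ 2 * sd x f + max (ρ : ℤ) (4 * u) := by
  rw [Hook.qF_hookU] at hf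
  rcases hf with hf | hf
  · have h1 : Ndle.cel u x ∉ Hook.fin C := by
      intro h2
      exact hx (H.fresh (show x ∈ blow u C from (Hook.mem_fin hC).1 h2))
    have h3 := ndF_clear hu hL (Finset.mem_coe.1 hf) h1
    have h4 := le_max_right (ρ : ℤ) (4 * u)
    omega
  · have h3 := (H.hkS_sub (Finset.mem_coe.1 hf)).2.2
    have h4 := le_max_left (ρ : ℤ) (4 * u)
    have h5 := sd_nonneg x f
    omega

/-- The base of a needle of the chain. -/
theorem hookU_base {u : ℤ} {L ρ : ℕ} {C : Set (ℤ × ℤ)} {z₀ : ℤ × ℤ}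
    (H : Hook.Pre V (blow u C) (ndF u (Hook.fin C) z₀ L) (ndA u (Hook.fin C) z₀)
      (ndB u (Hook.fin C) z₀) ρ) :
    sd (phiV (Hook.hookU u L V C z₀).2) (ndB u (Hook.fin C) z₀) ≤ ρ + 1 := by
  have h1 : Sq (phiV (Hook.hookU u L V C z₀).2)
      (Hook.hkE (FU V) (blow u C) (ndB u (Hook.fin C) z₀)) := H.base_spec.2
  have h2 : sd (Hook.hkE (FU V) (blow u C) (ndB u (Hook.fin C) z₀)) (ndB u (Hook.fin C) z₀) ≤ ρ :=
    Hook.hk_box H.hook le_rfl
  have h3 := sd_sq h1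
  rw [sd_comm] at h3
  have h4 := sd_triangle (phiV (Hook.hookU u L V C z₀).2)
    (Hook.hkE (FU V) (blow u C) (ndB u (Hook.fin C) z₀)) (ndB u (Hook.fin C) z₀)
  omega

/-- **No gate at the beginning of a step of the chain.** `u` = the unit, `ρ` = the radius of the hook. -/
theorem not_gate_hookU {u : ℤ} {L ρ : ℕ} {C : Set (ℤ × ℤ)} {z₀ : ℤ × ℤ} (hC : C.Finite) (hu : 0 < u)
    (hL : L ≤ dlt (Hook.fin C) z₀)
    (H : Hook.Pre V (blow u C) (ndF u (Hook.fin C) z₀ L) (ndA u (Hook.fin C) z₀)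
      (ndB u (Hook.fin C) z₀) ρ)
    (hS : Stp E ω V (Hook.hookU u L V C z₀).1 k₀) (hN : NdF V (Hook.hookU u L V C z₀).1 k₀)
    (hk : vtx k₀ = (Hook.hookU u L V C z₀).2)
    (hR : 5 * r + 2 * ρ + 8 * u + 16 ≤ R) (hz : fa (E.e ω) ∉ Near.Bx z R) : ¬ E.Gate ω 0 z r := by
  have h1 := le_max_left (ρ : ℤ) (4 * u)
  have h2 : max (ρ : ℤ) (4 * u) ≤ ρ + 4 * u := max_le (by omega) (by omega)
  refine not_gate_clear (y := ndB u (Hook.fin C) z₀) (c := max (ρ : ℤ) (4 * u) + 1) hS hN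
    (fun f hf x hx => (hookU_clear hC hu hL H hf hx).trans (by omega)) ?_ (by omega) hz
  rw [hk]
  exact (hookU_base H).trans (by omega)

/-- The data of a step in the form of the chain. -/
theorem stp_eS {q : Rule.Ndl} (hk : ∃ k, NdF V q.1 k ∧ vtx k = q.2)
    (hU : E.U ω = FU V \ QF q.1) (hζ : E.ζ ω = gT (q.1 : Set Ed))
    (he : E.e ω = kU (Dct.bc V q.1 q.2)) :
    Stp E ω V q.1 (Dct.bc V q.1 q.2) ∧ NdF V q.1 (Dct.bc V q.1 q.2) ∧
      vtx (Dct.bc V q.1 q.2) = q.2 :=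
  ⟨Stp.of_zeta hU hζ he, (Dct.bc_spec hk).1, (Dct.bc_spec hk).2⟩

/-- **No gate at the beginning of a step of the chain**, for the exploration of the state. -/
theorem not_gate_exS {u : ℤ} {L ρ : ℕ} {C : Set (ℤ × ℤ)} {z₀ : ℤ × ℤ} (hC : C.Finite) (hu : 0 < u)
    (hL : L ≤ dlt (Hook.fin C) z₀)
    (H : Hook.Pre V (blow u C) (ndF u (Hook.fin C) z₀ L) (ndA u (Hook.fin C) z₀)
      (ndB u (Hook.fin C) z₀) ρ)
    (hR : 5 * r + 2 * ρ + 8 * u + 16 ≤ R)
    (hz : fa (Tru.eS V (Hook.hookU u L V C z₀)) ∉ Near.Bx z R) :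
    ¬ (Tru.exS V (Hook.hookU u L V C z₀)).Gate ω 0 z r := by
  obtain ⟨k, hk1, hk2, -⟩ := H.ndF
  obtain ⟨h1, h2, h3⟩ := stp_eS (E := Tru.exS V (Hook.hookU u L V C z₀)) (ω := ω)
    (q := Hook.hookU u L V C z₀) ⟨k, hk1, hk2⟩ rfl rfl rfl
  exact not_gate_hookU hC hu hL H h1 h2 h3 hR hz

/-- The first face of the strand is near the start of the needle. -/
theorem fa_eS_near {u : ℤ} {L ρ : ℕ} {C : Set (ℤ × ℤ)} {z₀ : ℤ × ℤ}
    (H : Hook.Pre V (blow u C) (ndF u (Hook.fin C) z₀ L) (ndA u (Hook.fin C) z₀)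
      (ndB u (Hook.fin C) z₀) ρ) :
    sd (fa (Tru.eS V (Hook.hookU u L V C z₀))) (ndB u (Hook.fin C) z₀) ≤ ρ + 2 := by
  obtain ⟨k, hk1, hk2, -⟩ := H.ndF
  have h0 := Dct.bc_spec (U := V) (Q := (Hook.hookU u L V C z₀).1) (b := (Hook.hookU u L V C z₀).2)
    ⟨k, hk1, hk2⟩
  have h1 := sq_en (isSide_fa (Tru.eS V (Hook.hookU u L V C z₀))) 0
  unfold Tru.eS at h1
  rw [en0_kU] at h1
  have h2 : Sq (phiV (vtx (Dct.bc V (Hook.hookU u L V C z₀).1 (Hook.hookU u L V C z₀).2)))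
      (fa (Tru.eS V (Hook.hookU u L V C z₀))) := h1
  rw [h0.2] at h2
  have h3 := sd_sq h2
  have h4 := hookU_base H
  have h5 := sd_triangle (fa (Tru.eS V (Hook.hookU u L V C z₀))) (phiV (Hook.hookU u L V C z₀).2)
    (ndB u (Hook.fin C) z₀)
  omega

end Pool.Agent.SixB.GZ
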