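import Pool.Agent.Lib.SixB.TopPot
import Pool.Agent.Lib.SixB.S8Expl

/-!
# Step 8, near miss: crosscuts and strand loops

The strand `pth ω e 0, pth ω e 1, …` starts at the boundary edge `e` of the region `U` (`HasPot U`:
hole-free) and is reflected by solid walls (`Sol`: the faces crossed between two consecutive visits of
`U` have one colour). A touch of colour `κ` (`Lp`: a face of colour `κ` which is outside of `U` or was
crossed before) closes the piece with the times `[i, j)` to a loop; it has a potential `Φ` on the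
corners of `U`.

* `exists_lp`: touches. `Lp.side`: the side of the other colour (`Sd`: strand side and wall) is on one
  side of the loop.
* `fact_C` (FACT C of helper8): a path which is not crossed by the strand does not join
  `en κ (pth ω e s)` and the side of colour `1 - κ` if there is a touch of colour `κ` of the past of `s`
  at a time `≥ s`.
* `visit` (Claim 0): a gate inside of a box which is not crossed by a passage of the strand through the
  box: its old end is not joined inside of the box to the strand at the birth time of its young end.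
* `Leg.pot`: two vertices of one leg (a passage of the strand through the box, or a piece of the wall
  inside of the box, `Wk`) are on one side of the loop of a touch of the colour of the leg, unless the
  touch is joined to the leg inside of the box.
* `touch_core`: a crosscut from the tip to an arc `O` between the two walls which is not met any more:
  the strand does not touch both walls before it touches `O` (deterministic part of helper71's TOUCH
  LEMMA).
* `trial`, `near_trial`: the contradiction which proves the near miss lemma (FACTS C and D, Claim 0).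
-/

set_option autoImplicit false

namespace Pool.Agent.SixB.NearCut

open Finset Pool.Agent.Perc Pool.Agent.Perc6 Pool.Agent.SixB

/-- The face `f` carries the bond of colour `c`. -/
def Cl (ω : Cfg) (c : ℤ) (f : ℤ × ℤ) : Prop := ω f = !parD c f

section Basics

variable {ω : Cfg} {a b : UE} {f : ℤ × ℤ} {c : ℤ}

theorem cl_compl (hc : c = 0 ∨ c = 1) : Cl ω (1 - c) f ↔ ω f = parD c f := by
  have hc' := hc
  unfold Cl parD
  by_cases h : (f.1 + f.2 - c) % 2 = 0
  · have h' : (f.1 + f.2 - (1 - c)) % 2 ≠ 0 := by omega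
    simp [h, h']
  · have h' : (f.1 + f.2 - (1 - c)) % 2 = 0 := by omega
    simp [h, h']

theorem cl_or (hc : c = 0 ∨ c = 1) : Cl ω c f ∨ Cl ω (1 - c) f := by
  rw [cl_compl hc]
  unfold Cl
  cases ω f <;> cases parD c f <;> simp

theorem cl_not (hc : c = 0 ∨ c = 1) (h : Cl ω c f) : ¬ Cl ω (1 - c) f := by
  rw [cl_compl hc]
  unfold Cl at h
  rw [h]
  cases parD c f <;> simp

theorem mt_cl (hc : c = 0 ∨ c = 1) (h : Mt ω f a b) :
    (Cl ω c f ∧ en (1 - c) a = en (1 - c) b ∧ Bond ω {f} (en c a) (en c b)) ∨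
      (Cl ω (1 - c) f ∧ en c a = en c b) := by
  rcases mt_ends hc h with ⟨h1, h2, h3⟩ | ⟨h1, h2, -⟩
  · exact Or.inl ⟨h1, h2, h3⟩
  · exact Or.inr ⟨(cl_compl hc).2 h1, h2⟩

theorem en_joins' (hc : c = 0 ∨ c = 1) (a : UE) : Joins a (en c a) (en (1 - c) a) := by
  have hp := par_ub a
  have h1 := par_en hc a
  have h2 := par_en (c := 1 - c) (by omega) a
  rcases en_or c a with h3 | h3 <;> rcases en_or (1 - c) a with h4 | h4
  · rw [h3] at h1; rw [h4] at h2; omega
  · exact Or.inl ⟨h3, h4⟩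
  · exact Or.inr ⟨h3, h4⟩
  · rw [h3] at h1; rw [h4] at h2; omega

theorem zc (hc : c = 0 ∨ c = 1) : 1 - c = 0 ∨ 1 - c = 1 := by omega

theorem sub_sub' (c : ℤ) : 1 - (1 - c) = c := by omega

end Basics

/-! ### Potentials -/

/-- The sides of the faces of `U`. -/
def SU (U : Set (ℤ × ℤ)) : Set UE := {a | ∃ f ∈ U, IsSide f a}

/-- Paths of unit edges. -/
def Pth (E : Set UE) (p q : ℤ × ℤ) : Prop :=
  Relation.ReflTransGen (fun u v => ∃ a ∈ E, Joins a u v) p q

section Pot

variable {ω : Cfg} {U : Set (ℤ × ℤ)} {M M' E : Set UE} {Φ Ψ : ℤ × ℤ → ZMod 2} {a b : UE}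
  {p q : ℤ × ℤ} {c : ℤ}

theorem pot_ind (hP : IsPot U M Φ) (ha : a ∈ SU U) (hj : Joins a p q) :
    Φ p + Φ q = ind2 (a ∈ M) := by
  obtain ⟨f, hf, hs⟩ := ha
  rw [ind2_congr (hP.joins hf hs hj)]
  by_cases h : Φ p = Φ q
  · rw [h, ind2_neg (fun h' => h' rfl), z2_add_self]
  · rw [ind2_pos h]
    revert h
    generalize Φ p = x
    generalize Φ q = y
    revert x y
    decide

theorem pot_end (hP : IsPot U M Φ) (ha : a ∈ SU U) (hc : c = 0 ∨ c = 1) :
    Φ (en c a) + Φ (en (1 - c) a) = ind2 (a ∈ M) := pot_ind hP ha (en_joins' hc a)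

/-- A step of two unit edges with a common end. -/
theorem pot_step (hP : IsPot U M Φ) (ha : a ∈ SU U) (hb : b ∈ SU U) (hc : c = 0 ∨ c = 1)
    (hp : en (1 - c) a = en (1 - c) b) (hab : a ∈ M ↔ b ∈ M) : Φ (en c a) = Φ (en c b) := by
  have h1 := pot_end hP ha hc
  have h2 := pot_end hP hb hc
  rw [ind2_congr hab, ← h2, hp] at h1
  revert h1
  generalize Φ (en c a) = x
  generalize Φ (en c b) = y
  generalize Φ (en (1 - c) b) = z
  revert x y z
  decide

theorem Pth.pot_eq (h : Pth E p q) (hP : IsPot U M Φ) (hE : E ⊆ SU U) (hM : ∀ a ∈ E, a ∉ M) :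
    Φ p = Φ q := by
  induction h with
  | refl => rfl
  | tail _ hs ih =>
    obtain ⟨a, ha, hj⟩ := hs
    have h1 := pot_ind hP (hE ha) hj
    rw [ind2_neg (hM a ha)] at h1
    rw [ih]
    revert h1
    generalize Φ _ = x
    generalize Φ _ = y
    revert x y
    decide

/-- If two sets of unit edges agree along a path then the two potentials change by the same amount. -/
theorem Pth.pot_add (h : Pth E p q) (hP : IsPot U M Φ) (hP' : IsPot U M' Ψ) (hE : E ⊆ SU U)
    (hM : ∀ a ∈ E, (a ∈ M ↔ a ∈ M')) : Φ p + Φ q = Ψ p + Ψ q := by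
  induction h with
  | refl => rw [z2_add_self, z2_add_self]
  | @tail r s _ hs ih =>
    obtain ⟨a, ha, hj⟩ := hs
    have h1 := pot_ind hP (hE ha) hj
    have h2 := pot_ind hP' (hE ha) hj
    rw [ind2_congr (hM a ha), ← h2] at h1
    revert h1 ih
    generalize Φ p = x1
    generalize Φ r = x2
    generalize Φ s = x3
    generalize Ψ p = y1
    generalize Ψ r = y2
    generalize Ψ s = y3
    revert x1 x2 x3 y1 y2 y3
    decide

theorem Pth.mono {E' : Set UE} (h : Pth E p q) (hE : E ⊆ E') : Pth E' p q := by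
  induction h with
  | refl => exact Relation.ReflTransGen.refl
  | tail _ hs ih =>
    obtain ⟨a, ha, hj⟩ := hs
    exact Relation.ReflTransGen.tail ih ⟨a, hE ha, hj⟩

theorem Pth.symm (h : Pth E p q) : Pth E q p := by
  induction h with
  | refl => exact Relation.ReflTransGen.refl
  | tail _ hs ih =>
    obtain ⟨a, ha, hj⟩ := hs
    exact Relation.ReflTransGen.head ⟨a, ha, hj.symm⟩ ih

end Pot

/-! ### The times of the strand -/

/-- The unit edges at the times `i ≤ l < j`. -/
def Gs (ω : Cfg) (e : UE) (i j : ℕ) : Set UE := {a | ∃ l, i ≤ l ∧ l < j ∧ pth ω e l = a}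

/-- The strand does not come back to `e` up to the time `n`. -/
def Nb (ω : Cfg) (e : UE) (n : ℕ) : Prop := ∀ l, 0 < l → l ≤ n → pth ω e l ≠ e

/-- The walls are solid: consecutive faces outside of `U` have the same colour. -/
def Sol (ω : Cfg) (e : UE) (U : Set (ℤ × ℤ)) (n : ℕ) : Prop :=
  ∀ l < n, fa (pth ω e l) ∉ U → fa (pth ω e (l + 1)) ∉ U →
    ∀ c : ℤ, (c = 0 ∨ c = 1) → Cl ω c (fa (pth ω e l)) → Cl ω c (fa (pth ω e (l + 1)))

section Times

variable {ω : Cfg} {e : UE} {U : Set (ℤ × ℤ)} {n i j l k : ℕ}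

theorem Nb.inj (h : Nb ω e n) (hi : i ≤ n) (hj : j ≤ n) (hij : pth ω e i = pth ω e j) : i = j := by
  rcases le_total i j with h1 | h1
  · by_contra hne
    exact h (j - i) (by omega) (by omega) (pth_inj hij h1)
  · by_contra hne
    exact h (i - j) (by omega) (by omega) (pth_inj hij.symm h1)

theorem Nb.mono (h : Nb ω e n) (hk : k ≤ n) : Nb ω e k := fun l h1 h2 => h l h1 (h2.trans hk)

theorem mem_Gs (h : Nb ω e n) (hj : j ≤ n + 1) (hl : l ≤ n) :
    pth ω e l ∈ Gs ω e i j ↔ i ≤ l ∧ l < j := by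
  constructor
  · rintro ⟨k, h1, h2, h3⟩
    have := h.inj (by omega) hl h3
    omega
  · rintro ⟨h1, h2⟩
    exact ⟨l, h1, h2, rfl⟩

theorem parAt_Gs (h : Nb ω e n) (hij : i ≤ j) (hj : j ≤ n + 1) (f : ℤ × ℤ) :
    parAt (Gs ω e i j) f = ind2 (f = fb (pth ω e i)) + ind2 (f = fb (pth ω e j)) := by
  induction j, hij using Nat.le_induction with
  | base =>
    have e0 : Gs ω e i i = ∅ := by
      ext a
      simp only [Gs, Set.mem_ofPred_eq, Set.mem_empty_iff_false, iff_false]
      rintro ⟨k, h1, h2, -⟩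
      omega
    rw [e0, z2_add_self]
    unfold parAt
    rw [ind2_neg (Set.notMem_empty _), ind2_neg (Set.notMem_empty _),
      ind2_neg (Set.notMem_empty _), ind2_neg (Set.notMem_empty _)]
    decide
  | succ j hij ih =>
    have e1 : Gs ω e i (j + 1) = symmDiff (Gs ω e i j) {pth ω e j} := by
      ext a
      rw [Set.mem_symmDiff, Set.mem_singleton_iff]
      constructor
      · rintro ⟨k, h1, h2, rfl⟩
        rcases Nat.lt_succ_iff_lt_or_eq.1 h2 with h3 | rfl
        · refine Or.inl ⟨⟨k, h1, h3, rfl⟩, fun h4 => ?_⟩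
          have := h.inj (by omega) (by omega) h4
          omega
        · refine Or.inr ⟨rfl, fun h4 => ?_⟩
          have := (mem_Gs h (by omega) (by omega)).1 h4
          omega
      · rintro (⟨⟨k, h1, h2, rfl⟩, -⟩ | ⟨rfl, -⟩)
        · exact ⟨k, h1, by omega, rfl⟩
        · exact ⟨j, hij, by omega, rfl⟩
    rw [e1, parAt_symmDiff, ih (by omega),
      parAt_side (fa_ne_fb (pth ω e j)) (isSide_fa _) (isSide_fb _), fb_pth_succ]
    generalize ind2 (f = fb (pth ω e i)) = p1
    generalize ind2 (f = fb (pth ω e j)) = p2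
    generalize ind2 (f = fa (pth ω e j)) = p3
    revert p1 p2 p3
    decide

/-- The broken pair at the time `j`. -/
def Brk (ω : Cfg) (e : UE) (j : ℕ) (f : ℤ × ℤ) (a b : UE) : Prop :=
  f = fb (pth ω e j) ∧ (a = pth ω e j ∨ b = pth ω e j)

theorem Gs_mt {f : ℤ × ℤ} {a b : UE}
    (hm : Mt ω f a b) (hi : ¬ Brk ω e i f a b) (hj' : ¬ Brk ω e j f a b) (ha : a ∈ Gs ω e i j) :
    b ∈ Gs ω e i j := by
  obtain ⟨l, h1, h2, rfl⟩ := ha
  rcases mt_iff.1 hm with ⟨h3, h4⟩ | ⟨h3, h4⟩
  · rw [← pth_succ] at h4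
    rcases Nat.lt_or_ge (l + 1) j with h5 | h5
    · exact ⟨l + 1, by omega, h5, h4.symm⟩
    · have h6 : l + 1 = j := by omega
      refine (hj' ⟨?_, Or.inr ?_⟩).elim
      · rw [h3, ← fb_pth_succ, h6]
      · rw [h4, h6]
  · rcases Nat.lt_or_ge i l with h5 | h5
    · obtain ⟨k, rfl⟩ : ∃ k, l = k + 1 := ⟨l - 1, by omega⟩
      rw [pth_succ, pv_nx] at h4
      exact ⟨k, by omega, by omega, h4.symm⟩
    · have h6 : l = i := by omega
      subst h6
      exact (hi ⟨h3, Or.inl rfl⟩).elim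

theorem Brk.symm {f : ℤ × ℤ} {a b : UE} (h : Brk ω e j f a b) : Brk ω e j f b a := ⟨h.1, h.2.symm⟩

theorem Gs_mt_iff {f : ℤ × ℤ} {a b : UE} (hm : Mt ω f a b) (hi : ¬ Brk ω e i f a b)
    (hj : ¬ Brk ω e j f a b) : a ∈ Gs ω e i j ↔ b ∈ Gs ω e i j :=
  ⟨Gs_mt hm hi hj, Gs_mt hm.symm (fun h => hi h.symm) fun h => hj h.symm⟩

end Times

/-! ### Loops of touches -/

/-- The piece of the strand with the times in `[i, j)` is the loop of a touch of colour `κ`: the last
face `fb (pth ω e j)` has the colour `κ`; it was visited at the time `i - 1`, or it is outside of `U`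
and `i = 0`. -/
structure Lp (ω : Cfg) (e : UE) (U : Set (ℤ × ℤ)) (n : ℕ) (κ : ℤ) (i j : ℕ) : Prop where
  le : i ≤ j
  lt : j ≤ n
  col : Cl ω κ (fb (pth ω e j))
  cases : (i ≠ 0 ∧ fb (pth ω e i) = fb (pth ω e j) ∧ fb (pth ω e j) ∈ U) ∨
    (i = 0 ∧ fb e ∉ U ∧ fb (pth ω e j) ∉ U)

/-- A step of the wall of colour `c` by faces of `D`: the strand rotates from the boundary edge `a` to
the boundary edge `b` around their common end of colour `1 - c` through faces of colour `c` outside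
of `U`. -/
def Wk (ω : Cfg) (e : UE) (U : Set (ℤ × ℤ)) (c : ℤ) (D : Set (ℤ × ℤ)) (p q : ℤ × ℤ) : Prop :=
  ∃ a b, a ∈ SU U ∧ b ∈ SU U ∧ p = en c a ∧ q = en c b ∧
    Relation.ReflTransGen (fun a a' => ∃ f ∈ D, f ∉ U ∧ Cl ω c f ∧ Mt ω f a a' ∧ a ≠ e ∧ a' ≠ e) a b

/-- The vertex `v` is on the side of colour `c`: on the strand (up to the time `n`) or on the wall. -/
def Sd (ω : Cfg) (e : UE) (U : Set (ℤ × ℤ)) (n : ℕ) (c : ℤ) (v : ℤ × ℤ) : Prop :=
  (∃ l ≤ n, pth ω e l ∈ SU U ∧ v = en c (pth ω e l)) ∨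
    Relation.ReflTransGen (Wk ω e U c Set.univ) (en c e) v

section Loops

variable {ω : Cfg} {e : UE} {U D D' : Set (ℤ × ℤ)} {Φ Ψ : ℤ × ℤ → ZMod 2} {n i j l k s : ℕ}
  {c κ : ℤ} {p q v x y : ℤ × ℤ}

theorem SU_of_fa (h : fa (pth ω e l) ∈ U) : pth ω e l ∈ SU U := ⟨_, h, isSide_fa _⟩

theorem SU_succ (h : fa (pth ω e l) ∈ U) : pth ω e (l + 1) ∈ SU U :=
  ⟨_, h, by rw [← fb_pth_succ]; exact isSide_fb _⟩

theorem fa_of_SU (h : pth ω e l ∈ SU U) : fa (pth ω e l) ∈ U ∨ fb (pth ω e l) ∈ U := by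
  obtain ⟨f, hf, hs⟩ := h
  rcases isSide_iff.1 hs with rfl | rfl
  · exact Or.inl hf
  · exact Or.inr hf

/-- The loop is even in `U`. -/
theorem Lp.pot (h : Lp ω e U n κ i j) (hn : Nb ω e n) (hU : HasPot U) :
    ∃ Φ : ℤ × ℤ → ZMod 2, IsPot U (Gs ω e i j) Φ := by
  refine hU _ fun f hf => ?_
  have hlt := h.lt
  rw [evenAt_iff, parAt_Gs hn h.le (by omega)]
  rcases h.cases with ⟨-, h1, -⟩ | ⟨h0, h1, h2⟩
  · rw [h1, z2_add_self]
  · subst h0
    have g1 : ¬ f = fb (pth ω e 0) := fun h3 => h1 (by rw [← pth_zero ω e, ← h3]; exact hf)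
    have g2 : ¬ f = fb (pth ω e j) := fun h3 => h2 (by rw [← h3]; exact hf)
    rw [ind2_neg g1, ind2_neg g2, add_zero]

/-- Consecutive times on the side of the other colour. -/
theorem Lp.time (h : Lp ω e U n κ i j) (hκ : κ = 0 ∨ κ = 1) (hn : Nb ω e n)
    (hc : Cl ω (1 - κ) (fa (pth ω e l))) (hl : l + 1 ≤ n) :
    pth ω e l ∈ Gs ω e i j ↔ pth ω e (l + 1) ∈ Gs ω e i j := by
  have hlt := h.lt
  have hle := h.le
  have h1 : l + 1 ≠ j := by
    rintro rfl
    refine cl_not hκ h.col ?_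
    rw [fb_pth_succ]
    exact hc
  have h2 : l + 1 ≠ i := by
    rintro rfl
    rcases h.cases with ⟨-, h3, -⟩ | ⟨h3, -⟩
    · refine cl_not hκ h.col ?_
      rw [← h3, fb_pth_succ]
      exact hc
    · omega
  rw [mem_Gs hn (by omega) (by omega), mem_Gs hn (by omega) hl]
  omega

/-- **The strand side** of the other colour is on one side of the loop. -/
theorem Lp.strand (h : Lp ω e U n κ i j) (hκ : κ = 0 ∨ κ = 1) (hn : Nb ω e n)
    (hs : Sol ω e U n) (he : fa e ∈ U) (hP : IsPot U (Gs ω e i j) Φ) :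
    ∀ l ≤ n, (pth ω e l ∈ SU U → Φ (en (1 - κ) (pth ω e l)) = Φ (en (1 - κ) e)) ∧
      (0 < l → fa (pth ω e (l - 1)) ∉ U →
        (Cl ω (1 - κ) (fa (pth ω e (l - 1))) →
          Φ (en κ (pth ω e l)) + ind2 (pth ω e l ∈ Gs ω e i j) = Φ (en (1 - κ) e)) ∧
        (Cl ω κ (fa (pth ω e (l - 1))) → Φ (en (1 - κ) (pth ω e l)) = Φ (en (1 - κ) e))) := by
  have hκ' := zc hκ
  intro l
  induction l with
  | zero =>
    intro _
    refine ⟨fun _ => rfl, fun h0 => absurd h0 (by omega)⟩
  | succ l ih =>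
    intro hl
    obtain ⟨ih1, ih2⟩ := ih (by omega)
    have hmt := mt_nx ω (pth ω e l)
    rw [← pth_succ] at hmt
    by_cases hF : fa (pth ω e l) ∈ U
    · refine ⟨fun _ => ?_, fun _ h1 => absurd hF h1⟩
      rw [← ih1 (SU_of_fa hF)]
      rcases mt_cl hκ' hmt with ⟨h1, h2, -⟩ | ⟨-, h2⟩
      · exact (pot_step hP (SU_of_fa hF) (SU_succ hF) hκ' h2 (h.time hκ hn h1 hl)).symm
      · rw [h2]
    · -- the two forms at the time `l`
      have key : (Cl ω (1 - κ) (fa (pth ω e l)) →
            Φ (en κ (pth ω e l)) + ind2 (pth ω e l ∈ Gs ω e i j) = Φ (en (1 - κ) e)) ∧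
          (Cl ω κ (fa (pth ω e l)) → Φ (en (1 - κ) (pth ω e l)) = Φ (en (1 - κ) e)) := by
        by_cases hS : pth ω e l ∈ SU U
        · refine ⟨fun _ => ?_, fun _ => ih1 hS⟩
          rw [← ih1 hS, ← pot_end hP hS hκ]
          generalize Φ (en κ (pth ω e l)) = x
          generalize Φ (en (1 - κ) (pth ω e l)) = y
          revert x y
          decide
        · have hl0 : 0 < l := by
            rcases Nat.eq_zero_or_pos l with h0 | h0
            · exfalso
              subst h0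
              exact hS ⟨fa e, he, isSide_fa e⟩
            · exact h0
          obtain ⟨k, rfl⟩ : ∃ k, l = k + 1 := ⟨l - 1, by omega⟩
          have hk : fa (pth ω e k) ∉ U := by
            intro hk
            exact hS (SU_succ hk)
          obtain ⟨g1, g2⟩ := ih2 (by omega) hk
          simp only [Nat.add_sub_cancel] at g1 g2
          have hcol : ∀ c : ℤ, (c = 0 ∨ c = 1) → Cl ω c (fa (pth ω e (k + 1))) →
              Cl ω c (fa (pth ω e k)) := by
            intro c hc h1
            rcases cl_or hc (ω := ω) (f := fa (pth ω e k)) with h2 | h2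
            · exact h2
            · exact absurd (hs k (by omega) hk hF (1 - c) (zc hc) h2) (cl_not hc h1)
          exact ⟨fun h1 => g1 (hcol _ hκ' h1), fun h1 => g2 (hcol _ hκ h1)⟩
      have key2 : (Cl ω (1 - κ) (fa (pth ω e l)) →
            Φ (en κ (pth ω e (l + 1))) + ind2 (pth ω e (l + 1) ∈ Gs ω e i j) =
              Φ (en (1 - κ) e)) ∧
          (Cl ω κ (fa (pth ω e l)) → Φ (en (1 - κ) (pth ω e (l + 1))) = Φ (en (1 - κ) e)) := by
        refine ⟨fun h1 => ?_, fun h1 => ?_⟩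
        · rcases mt_cl hκ' hmt with ⟨-, h2, -⟩ | ⟨h2, -⟩
          · rw [sub_sub'] at h2
            rw [← h2, ← ind2_congr (h.time hκ hn h1 hl)]
            exact key.1 h1
          · exact absurd h2 (cl_not hκ' h1)
        · rcases mt_cl hκ' hmt with ⟨h2, -, -⟩ | ⟨-, h2⟩
          · exact absurd h2 (cl_not hκ h1)
          · rw [← h2]
            exact key.2 h1
      refine ⟨fun hS => ?_, fun _ _ => by simpa only [Nat.add_sub_cancel] using key2⟩
      rcases cl_or hκ (ω := ω) (f := fa (pth ω e l)) with h1 | h1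
      · exact key2.2 h1
      · rw [← key2.1 h1, ← pot_end hP hS hκ]
        generalize Φ (en κ (pth ω e (l + 1))) = x
        generalize Φ (en (1 - κ) (pth ω e (l + 1))) = y
        revert x y
        decide

theorem Lp.strand' (h : Lp ω e U n κ i j) (hκ : κ = 0 ∨ κ = 1) (hn : Nb ω e n)
    (hs : Sol ω e U n) (he : fa e ∈ U) (hP : IsPot U (Gs ω e i j) Φ) (hl : l ≤ n)
    (hS : pth ω e l ∈ SU U) : Φ (en (1 - κ) (pth ω e l)) = Φ (en (1 - κ) e) :=
  (h.strand hκ hn hs he hP l hl).1 hS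

/-- The steps of the wall of the other colour. -/
theorem Lp.wk (h : Lp ω e U n κ i j) (hκ : κ = 0 ∨ κ = 1) (hP : IsPot U (Gs ω e i j) Φ)
    (hw : Wk ω e U (1 - κ) D p q) : Φ p = Φ q := by
  have hκ' := zc hκ
  obtain ⟨a, b, ha, hb, rfl, rfl, hch⟩ := hw
  have key : en κ a = en κ b ∧ (a ∈ Gs ω e i j ↔ b ∈ Gs ω e i j) := by
    clear hb
    induction hch with
    | refl => exact ⟨rfl, Iff.rfl⟩
    | tail _ hs ih =>
      obtain ⟨f, -, hf, hc, hm, h1, h2⟩ := hs
      refine ⟨ih.1.trans ?_, ih.2.trans (Gs_mt_iff hm ?_ ?_)⟩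
      · rcases mt_cl hκ' hm with ⟨-, h3, -⟩ | ⟨h3, -⟩
        · rwa [sub_sub'] at h3
        · exact absurd h3 (cl_not hκ' hc)
      · rintro ⟨h3, h4⟩
        rcases h.cases with ⟨-, h5, h6⟩ | ⟨h5, -, -⟩
        · exact hf (by rw [h3, h5]; exact h6)
        · subst h5
          rcases h4 with h4 | h4
          · exact h1 h4
          · exact h2 h4
      · rintro ⟨h3, -⟩
        exact cl_not hκ h.col (by rw [← h3]; exact hc)
  refine pot_step hP ha hb hκ' ?_ key.2
  rw [sub_sub']
  exact key.1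

/-- **The side of the other colour** is on one side of the loop. -/
theorem Lp.side (h : Lp ω e U n κ i j) (hκ : κ = 0 ∨ κ = 1) (hn : Nb ω e n)
    (hs : Sol ω e U n) (he : fa e ∈ U) (hP : IsPot U (Gs ω e i j) Φ)
    (hv : Sd ω e U n (1 - κ) v) : Φ v = Φ (en (1 - κ) e) := by
  rcases hv with ⟨l, hl, hS, rfl⟩ | hv
  · exact h.strand' hκ hn hs he hP hl hS
  · induction hv with
    | refl => rfl
    | tail _ hw ih => rw [← h.wk hκ hP hw, ih]

/-- A unit edge of the piece separates its end of colour `κ` from the side of colour `1 - κ`. -/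
theorem Lp.cross (h : Lp ω e U n κ i j) (hκ : κ = 0 ∨ κ = 1) (hn : Nb ω e n)
    (hs : Sol ω e U n) (he : fa e ∈ U) (hP : IsPot U (Gs ω e i j) Φ) (hi : i ≤ s) (hj : s < j)
    (hS : pth ω e s ∈ SU U) (hv : Sd ω e U n (1 - κ) v) :
    Φ (en κ (pth ω e s)) + Φ v = 1 := by
  have hlt := h.lt
  rw [h.side hκ hn hs he hP hv, ← h.strand' hκ hn hs he hP (by omega) hS, pot_end hP hS hκ,
    ind2_pos ⟨s, hi, hj, rfl⟩]

/-- **FACT C.** -/
theorem fact_C (hU : HasPot U) (h : Lp ω e U n κ i j) (hκ : κ = 0 ∨ κ = 1) (hn : Nb ω e n)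
    (hs : Sol ω e U n) (he : fa e ∈ U) (hi : i ≤ s) (hj : s < j) (hS : pth ω e s ∈ SU U)
    {E : Set UE} (hE : E ⊆ SU U) (hEl : ∀ l < j, pth ω e l ∉ E)
    (hg : Pth E (en κ (pth ω e s)) x) (hx : Sd ω e U n (1 - κ) x) : False := by
  obtain ⟨Φ, hP⟩ := h.pot hn hU
  have h1 := h.cross hκ hn hs he hP hi hj hS hx
  rw [hg.pot_eq hP hE (by
    rintro a ha ⟨l, -, h2, rfl⟩
    exact hEl l h2 ha), z2_add_self] at h1
  exact absurd h1 (by decide)

/-- **FACTS C and D together**: the contradiction of one trial. `y` and `x` are the ends of the crosscut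
`z` at the time `s` and of the gate on the old leg of colour `1 - κ`; there is a touch of colour
`1 - κ` at the time `j'` and later a touch of colour `κ` at the time `j`, both of positions before
the time `s`, such that the crosscut is not met between the time `k` and these touches. -/
theorem trial (hU : HasPot U) (hκ : κ = 0 ∨ κ = 1) (hn : Nb ω e n) (hs : Sol ω e U n)
    (he : fa e ∈ U) {i' j' s' : ℕ} (hP : Lp ω e U n κ i j) (hQ : Lp ω e U n (1 - κ) i' j')
    (hi : i ≤ s) (hi' : i' ≤ s) (hsk : s ≤ k) (hkj' : k < j') (hj'j : j' ≤ j)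
    (hS : pth ω e s ∈ SU U) {E : Set UE} (hE : E ⊆ SU U) (hE1 : ∀ l < s, pth ω e l ∉ E)
    (hE2 : ∀ l, k < l → l < j → pth ω e l ∉ E) (hz : Pth E (en κ (pth ω e s)) y)
    (hy : Sd ω e U n (1 - κ) y) (hss : s ≤ s') (hs'n : s' ≤ n) (hS' : pth ω e s' ∈ SU U)
    {E' : Set UE} (hE' : E' ⊆ SU U) (hEl : ∀ l < j, pth ω e l ∉ E')
    (hg : Pth E' (en κ (pth ω e s')) x) (hx : Sd ω e U n (1 - κ) x)
    (hleg : j' ≤ s' → ∀ Ψ : ℤ × ℤ → ZMod 2, IsPot U (Gs ω e i' j') Ψ → Ψ x = Ψ y) : False := by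
  have hκ' := zc hκ
  rcases Nat.lt_or_ge s' j with h0 | h0
  · exact fact_C hU hP hκ hn hs he (hi.trans hss) h0 hS' hE' hEl hg hx
  obtain ⟨Φ, hΦ⟩ := hP.pot hn hU
  obtain ⟨Ψ, hΨ⟩ := hQ.pot hn hU
  have hlt := hP.lt
  have h1 := hP.cross hκ hn hs he hΦ hi (by omega) hS hy
  have h2 : Φ (en κ (pth ω e s)) + Φ y = Ψ (en κ (pth ω e s)) + Ψ y := by
    refine hz.pot_add hΦ hΨ hE fun a ha => ?_
    constructor
    · rintro ⟨l, g1, g2, rfl⟩
      have g3 : s ≤ l := by
        by_contra hlt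
        exact hE1 l (by omega) ha
      have g4 : l ≤ k := by
        by_contra hlt
        exact hE2 l (by omega) g2 ha
      exact ⟨l, by omega, by omega, rfl⟩
    · rintro ⟨l, g1, g2, rfl⟩
      have g3 : s ≤ l := by
        by_contra hlt
        exact hE1 l (by omega) ha
      have g4 : l ≤ k := by
        by_contra hlt
        exact hE2 l (by omega) (by omega) ha
      exact ⟨l, by omega, by omega, rfl⟩
  have h3 : Ψ (en κ (pth ω e s)) = Ψ (en κ (pth ω e s')) := by
    have g1 := hQ.strand' hκ' hn hs he hΨ (l := s) (by omega) hS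
    have g2 := hQ.strand' hκ' hn hs he hΨ (l := s') hs'n hS'
    rw [sub_sub'] at g1 g2
    rw [g1, g2]
  have h4 : Ψ (en κ (pth ω e s')) = Ψ x := by
    refine hg.pot_eq hΨ hE' ?_
    rintro a ha ⟨l, -, g2, rfl⟩
    exact hEl l (by omega) ha
  rw [h1, h3, h4, hleg (by omega) Ψ hΨ, z2_add_self] at h2
  exact absurd h2 (by decide)

/-- **TOUCH LEMMA of helper71, deterministic part.** `E` is a crosscut from the end `en κ (pth ω e s)`
of the tip to the vertex `y` of the arc `O`, which is joined along `O` to the two walls; the strand does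
not cross `O` and does not meet the crosscut after the time `k`. Then it has not both a touch of colour
`κ` and a touch of colour `1 - κ` of the past of `s` after the time `k`. -/
theorem touch_core (hU : HasPot U) (hκ : κ = 0 ∨ κ = 1) (hn : Nb ω e n) (hs : Sol ω e U n)
    (he : fa e ∈ U) {i' j' : ℕ} (hP : Lp ω e U n κ i j) (hQ : Lp ω e U n (1 - κ) i' j')
    (hi : i ≤ s) (hi' : i' ≤ s) (hsk : s ≤ k) (hkj : k < j) (hkj' : k < j')
    (hS : pth ω e s ∈ SU U) {E : Set UE} (hE : E ⊆ SU U) (hE1 : ∀ l < s, pth ω e l ∉ E)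
    (hE2 : ∀ l, k < l → l < max j j' → pth ω e l ∉ E) (hz : Pth E (en κ (pth ω e s)) y)
    {O : Set UE} (hO : O ⊆ SU U) (hOl : ∀ l < max j j', pth ω e l ∉ O) {v v' : ℤ × ℤ}
    (hv : Pth O y v) (hv' : Pth O y v') (hvs : Sd ω e U n (1 - κ) v) (hvs' : Sd ω e U n κ v') :
    False := by
  have hκ' := zc hκ
  obtain ⟨Φ, hΦ⟩ := hP.pot hn hU
  obtain ⟨Ψ, hΨ⟩ := hQ.pot hn hU
  have hlt := hP.lt
  have m1 := le_max_left j j'
  have m2 := le_max_right j j'
  have h1 := hP.cross hκ hn hs he hΦ hi (by omega) hS hvs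
  have h2 : Φ (en κ (pth ω e s)) + Φ y = Ψ (en κ (pth ω e s)) + Ψ y := by
    refine hz.pot_add hΦ hΨ hE fun a ha => ?_
    have key : ∀ l, l < max j j' → pth ω e l = a → s ≤ l ∧ l ≤ k := by
      rintro l g1 rfl
      constructor
      · by_contra hlt
        exact hE1 l (by omega) ha
      · by_contra hlt
        exact hE2 l (by omega) g1 ha
    constructor
    · rintro ⟨l, g1, g2, g3⟩
      have g4 := key l (by omega) g3
      exact ⟨l, by omega, by omega, g3⟩
    · rintro ⟨l, g1, g2, g3⟩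
      have g4 := key l (by omega) g3
      exact ⟨l, by omega, by omega, g3⟩
  have h3 : Φ y = Φ v := by
    refine hv.pot_eq hΦ hO ?_
    rintro a ha ⟨l, -, g2, rfl⟩
    exact hOl l (by omega) ha
  have h4 : Ψ y = Ψ v' := by
    refine hv'.pot_eq hΨ hO ?_
    rintro a ha ⟨l, -, g2, rfl⟩
    exact hOl l (by omega) ha
  have h5 : Ψ (en κ (pth ω e s)) = Ψ v' := by
    have g1 := hQ.strand' hκ' hn hs he hΨ (l := s) (by omega) hS
    have g2 := hQ.side hκ' hn hs he hΨ (v := v') (by rw [sub_sub']; exact hvs')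
    rw [sub_sub'] at g1 g2
    rw [g1, g2]
  rw [h3, h1, h5, h4, z2_add_self] at h2
  exact absurd h2 (by decide)

/-- **Touches.** The face crossed at the time `l` has the colour `κ` and is outside of `U` or was
crossed before the time `s`. -/
theorem exists_lp (he : fb e ∉ U) (hl : l < n) (hs : s ≤ l) (hc : Cl ω κ (fa (pth ω e l)))
    (ht : fa (pth ω e l) ∉ U ∨ ∃ l' < s, fa (pth ω e l') = fa (pth ω e l)) :
    ∃ i ≤ s, Lp ω e U n κ i (l + 1) := by
  have e1 := fb_pth_succ ω e l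
  by_cases h : fa (pth ω e l) ∈ U
  · obtain ⟨l', h1, h2⟩ := ht.resolve_left (fun h' => h' h)
    have e2 := fb_pth_succ ω e l'
    refine ⟨l' + 1, h1, by omega, hl, by rwa [e1], Or.inl ⟨by omega, by rw [e1, e2, h2], by rwa [e1]⟩⟩
  · exact ⟨0, Nat.zero_le _, Nat.zero_le _, hl, by rwa [e1], Or.inr ⟨rfl, he, by rwa [e1]⟩⟩

end Loops

/-! ### Boxes: Claim 0 -/

section Box

variable {ω : Cfg} {e : UE} {U D : Set (ℤ × ℤ)} {Φ Ψ : ℤ × ℤ → ZMod 2} {n i j l k s T : ℕ}
  {c κ : ℤ} {p q v x y : ℤ × ℤ}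

/-- A bond runs along a corner of its face: two matched sides. -/
theorem bond_sides {f : ℤ × ℤ} (hb : Bond ω {f} p q) :
    ∃ a b w, Mt ω f a b ∧ Joins a p w ∧ Joins b q w := by
  obtain ⟨x, y, hf, hb⟩ := hb
  rw [Set.mem_singleton_iff] at hf
  subst hf
  rcases hb with ⟨h0, ⟨rfl, rfl⟩ | ⟨rfl, rfl⟩⟩ | ⟨h0, ⟨rfl, rfl⟩ | ⟨rfl, rfl⟩⟩
  · exact ⟨bo (x, y), ri (x, y), (x + 1, y), Or.inl ⟨h0, Or.inl ⟨rfl, rfl⟩⟩,
      by simp [Joins, bo, ua, ub], by simp [Joins, ri, ua, ub]⟩
  · exact ⟨ri (x, y), bo (x, y), (x + 1, y), Or.inl ⟨h0, Or.inr (Or.inl ⟨rfl, rfl⟩)⟩,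
      by simp [Joins, ri, ua, ub], by simp [Joins, bo, ua, ub]⟩
  · exact ⟨le' (x, y), bo (x, y), (x, y), Or.inr ⟨h0, Or.inr (Or.inl ⟨rfl, rfl⟩)⟩,
      by simp [Joins, le', ua, ub], by simp [Joins, bo, ua, ub]⟩
  · exact ⟨bo (x, y), le' (x, y), (x, y), Or.inr ⟨h0, Or.inl ⟨rfl, rfl⟩⟩,
      by simp [Joins, bo, ua, ub], by simp [Joins, le', ua, ub]⟩

/-- A face carries only one bond. -/
theorem bond_unique {f p' q' : ℤ × ℤ} (h : Bond ω {f} p q) (h' : Bond ω {f} p' q') :
    Conn ω {f} p p' := by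
  have hb := h
  obtain ⟨x, y, hf, hb'⟩ := h
  obtain ⟨x', y', hf', hb''⟩ := h'
  rw [Set.mem_singleton_iff] at hf hf'
  have e1 : (x, y) = (x', y') := hf.trans hf'.symm
  rw [Prod.mk.injEq] at e1
  obtain ⟨rfl, rfl⟩ := e1
  rcases hb' with ⟨h0, ⟨rfl, rfl⟩ | ⟨rfl, rfl⟩⟩ | ⟨h0, ⟨rfl, rfl⟩ | ⟨rfl, rfl⟩⟩ <;>
    rcases hb'' with ⟨h1, ⟨rfl, rfl⟩ | ⟨rfl, rfl⟩⟩ | ⟨h1, ⟨rfl, rfl⟩ | ⟨rfl, rfl⟩⟩ <;>
    first
    | exact Relation.ReflTransGen.refl
    | exact Relation.ReflTransGen.single hb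
    | (rw [h0] at h1; exact absurd h1 (by decide))

/-- The loop of a piece of the strand which enters and leaves the box is constant along bonds. -/
theorem box_bond (hP : IsPot D (Gs ω e i j) Φ) (hi : fb (pth ω e i) ∉ D)
    (hj : fb (pth ω e j) ∉ D) (hb : Bond ω D p q) : Φ p = Φ q := by
  obtain ⟨f, hf, hb', -, -⟩ := hb.exists_face
  obtain ⟨a, b, w, hm, hja, hjb⟩ := bond_sides hb'
  have h1 := pot_ind hP ⟨f, hf, hm.left⟩ hja
  have h2 := pot_ind hP ⟨f, hf, hm.right⟩ hjb
  rw [ind2_congr (Gs_mt_iff hm (fun h => hi (h.1 ▸ hf)) fun h => hj (h.1 ▸ hf)), ← h2] at h1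
  revert h1
  generalize Φ p = x
  generalize Φ q = y
  generalize Φ w = z
  revert x y z
  decide

/-- **Claim 0.** A box `D`; the strand enters it at the time `i` and leaves it at the time `j`; there
is a gate inside of the box from `en κ (pth ω e s)` to `x` which is not crossed by this piece. Then `x`
is not joined to the other end of `pth ω e s` inside of the box. -/
theorem visit (hD : HasPot D) (hκ : κ = 0 ∨ κ = 1) (hn : Nb ω e n) (hjn : j ≤ n)
    (hi : fb (pth ω e i) ∉ D) (hj : fb (pth ω e j) ∉ D) (his : i ≤ s) (hsj : s < j)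
    (hS : pth ω e s ∈ SU D) {E : Set UE} (hE : E ⊆ SU D) (hEl : ∀ l < j, pth ω e l ∉ E)
    (hg : Pth E (en κ (pth ω e s)) x) : ¬ Conn ω D x (en (1 - κ) (pth ω e s)) := by
  intro hc
  obtain ⟨Φ, hP⟩ : ∃ Φ : ℤ × ℤ → ZMod 2, IsPot D (Gs ω e i j) Φ := by
    refine hD _ fun f hf => ?_
    have g1 : ¬ f = fb (pth ω e i) := fun h3 => hi (by rw [← h3]; exact hf)
    have g2 : ¬ f = fb (pth ω e j) := fun h3 => hj (by rw [← h3]; exact hf)
    rw [evenAt_iff, parAt_Gs hn (by omega) (by omega), ind2_neg g1, ind2_neg g2, add_zero]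
  have h1 : Φ (en κ (pth ω e s)) = Φ x := by
    refine hg.pot_eq hP hE ?_
    rintro a ha ⟨l, -, h2, rfl⟩
    exact hEl l h2 ha
  have h2 : ∀ r, Conn ω D x r → Φ x = Φ r := by
    intro r hr
    induction hr with
    | refl => rfl
    | tail _ hb ih => rw [ih, box_bond hP hi hj hb]
  have h3 := pot_end hP hS hκ
  rw [h1, h2 _ hc, z2_add_self, ind2_pos ⟨s, his, hsj, rfl⟩] at h3
  exact absurd h3 (by decide)

/-- The strand side inside of the box. -/
theorem conn_box (hc : c = 0 ∨ c = 1) (hst : i ≤ j)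
    (h : ∀ l, i ≤ l → l < j → fa (pth ω e l) ∈ D) :
    Conn ω D (en c (pth ω e i)) (en c (pth ω e j)) :=
  conn_pth hc hst fun l h1 h2 => Or.inl (h l h1 h2)

theorem conn_symm' (h : Conn ω D p q) : Conn ω D q p := by
  induction h with
  | refl => exact Relation.ReflTransGen.refl
  | tail _ hb ih => exact Relation.ReflTransGen.head hb.symm ih

theorem Wk.conn (hc : c = 0 ∨ c = 1) (h : Wk ω e U c D p q) : Conn ω D p q := by
  obtain ⟨a, b, -, -, rfl, rfl, hch⟩ := h
  induction hch with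
  | refl => exact Relation.ReflTransGen.refl
  | tail _ hs ih =>
    obtain ⟨f, hf, -, hcl, hm, -, -⟩ := hs
    rcases mt_cl hc hm with ⟨-, -, h2⟩ | ⟨h1, -⟩
    · exact Relation.ReflTransGen.tail ih (bond_of_single hf h2)
    · exact absurd h1 (cl_not hc hcl)

theorem Wk.mono {D' : Set (ℤ × ℤ)} (h : Wk ω e U c D p q) (hD : D ⊆ D') : Wk ω e U c D' p q := by
  obtain ⟨a, b, ha, hb, h1, h2, hch⟩ := h
  refine ⟨a, b, ha, hb, h1, h2, ?_⟩
  clear ha hb h1 h2
  induction hch with
  | refl => exact Relation.ReflTransGen.refl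
  | tail _ hs ih =>
    obtain ⟨f, hf, h3⟩ := hs
    exact Relation.ReflTransGen.tail ih ⟨f, hD hf, h3⟩

/-- The vertices `p`, `q` of colour `c` are on one leg in the box `D` at the time `T`: they belong to one
passage of the strand through `D` before the time `T`, or to one piece of the wall inside of `D`. -/
inductive Leg (ω : Cfg) (e : UE) (U : Set (ℤ × ℤ)) (c : ℤ) (D : Set (ℤ × ℤ)) (T : ℕ) :
    ℤ × ℤ → ℤ × ℤ → Prop
  | strand {i j k l : ℕ} : i ≤ k → k ≤ j → i ≤ l → l ≤ j → j ≤ T → pth ω e k ∈ SU U →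
      pth ω e l ∈ SU U → (∀ m, i ≤ m → m < j → fa (pth ω e m) ∈ D) →
      Leg ω e U c D T (en c (pth ω e k)) (en c (pth ω e l))
  | wall {p q : ℤ × ℤ} : Relation.ReflTransGen (Wk ω e U c D) p q → Leg ω e U c D T p q

theorem Leg.conn (hc : c = 0 ∨ c = 1) (h : Leg ω e U c D T p q) : Conn ω D p q := by
  cases h with
  | strand h1 h2 h3 h4 _ _ _ h5 =>
    rename_i i j k l
    refine Relation.ReflTransGen.trans (conn_symm' (conn_box hc h1 fun m g1 g2 => h5 m g1 ?_))
      (conn_box hc h3 fun m g1 g2 => h5 m g1 ?_)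
    · omega
    · omega
  | wall h =>
    induction h with
    | refl => exact Relation.ReflTransGen.refl
    | tail _ hw ih => exact Relation.ReflTransGen.trans ih (hw.conn hc)

/-- **Legs.** The two vertices of a leg are on the same side of the loop of a touch of their colour,
unless the touch is joined to the leg inside of the box. -/
theorem Leg.pot (hκ : κ = 0 ∨ κ = 1) (hn : Nb ω e n) (hs : Sol ω e U n) (he : fa e ∈ U)
    (hQ : Lp ω e U n κ i j) (hT : T < j) (hjD : fb (pth ω e j) ∈ D)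
    (hL : Leg ω e U κ D T p q) (hno : ¬ Conn ω D p (en κ (pth ω e j)))
    (hP : IsPot U (Gs ω e i j) Φ) : Φ p = Φ q := by
  have hκ' := zc hκ
  have hlt := hQ.lt
  cases hL with
  | @strand i₁ j₁ k₁ l₁ h1 h2 h3 h4 h5 hk hl h6 =>
    have g1 := hQ.strand' hκ hn hs he hP (l := k₁) (by omega) hk
    have g2 := hQ.strand' hκ hn hs he hP (l := l₁) (by omega) hl
    have g3 := pot_end hP hk hκ
    have g4 := pot_end hP hl hκ
    have hiff : pth ω e k₁ ∈ Gs ω e i j ↔ pth ω e l₁ ∈ Gs ω e i j := by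
      rw [mem_Gs hn (by omega) (by omega), mem_Gs hn (by omega) (by omega)]
      rcases hQ.cases with ⟨g5, g6, -⟩ | ⟨g5, -, -⟩
      · -- the position of the touch is not in this passage
        have g7 : ¬ (i₁ ≤ i - 1 ∧ i - 1 < j₁) := by
          rintro ⟨g8, g9⟩
          apply hno
          obtain ⟨m, rfl⟩ : ∃ m, i = m + 1 := ⟨i - 1, by omega⟩
          obtain ⟨m', rfl⟩ : ∃ m', j = m' + 1 := ⟨j - 1, by omega⟩
          simp only [Nat.add_sub_cancel] at g8 g9
          have hcol := hQ.col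
          have hmt := (mt_nx ω (pth ω e m)).symm
          have hmt' := (mt_nx ω (pth ω e m')).symm
          rw [← pth_succ] at hmt hmt'
          rw [fb_pth_succ] at g6 hcol
          rw [fb_pth_succ] at g6
          rw [fb_pth_succ] at hjD
          rw [g6] at hmt
          rcases mt_cl hκ hmt with ⟨-, -, c1⟩ | ⟨c1, -⟩
          · rcases mt_cl hκ hmt' with ⟨-, -, c2⟩ | ⟨c2, -⟩
            · have c3 : Conn ω D (en κ (pth ω e (m + 1))) (en κ (pth ω e (m' + 1))) :=
                Conn.mono (Set.singleton_subset_iff.2 hjD) (bond_unique c1 c2)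
              refine Relation.ReflTransGen.trans ?_ c3
              rcases le_total k₁ (m + 1) with c4 | c4
              · exact conn_box hκ c4 fun m₂ c5 c6 => h6 m₂ (by omega) (by omega)
              · exact conn_symm' (conn_box hκ c4 fun m₂ c5 c6 => h6 m₂ (by omega) (by omega))
            · exact absurd c2 (cl_not hκ hcol)
          · exact absurd c1 (cl_not hκ hcol)
        omega
      · omega
    rw [g1] at g3
    rw [g2, ← ind2_congr hiff, ← g3] at g4
    revert g4
    generalize Φ (en κ (pth ω e k₁)) = x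
    generalize Φ (en κ (pth ω e l₁)) = y
    generalize Φ (en (1 - κ) e) = z
    revert x y z
    decide
  | wall h =>
    have key : ∀ r, Relation.ReflTransGen (Wk ω e U κ D) p r → Φ p = Φ r ∧ Conn ω D p r := by
      intro r hr
      induction hr with
      | refl => exact ⟨rfl, Relation.ReflTransGen.refl⟩
      | tail _ hw ih =>
        obtain ⟨ih1, ih2⟩ := ih
        refine ⟨ih1.trans ?_, Relation.ReflTransGen.trans ih2 (hw.conn hκ)⟩
        obtain ⟨a, b, ha, hb, rfl, rfl, hch⟩ := hw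
        have key2 : en (1 - κ) a = en (1 - κ) b ∧ (a ∈ Gs ω e i j ↔ b ∈ Gs ω e i j) ∧
            Conn ω D (en κ a) (en κ b) := by
          clear hb
          induction hch with
          | refl => exact ⟨rfl, Iff.rfl, Relation.ReflTransGen.refl⟩
          | tail _ hst ih3 =>
            obtain ⟨f, hfD, hf, hc, hm, h1, h2⟩ := hst
            obtain ⟨k1, k2, k3⟩ := ih3
            rcases mt_cl hκ hm with ⟨-, h3, h4⟩ | ⟨h3, -⟩
            · refine ⟨k1.trans h3, k2.trans (Gs_mt_iff hm ?_ ?_),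
                Relation.ReflTransGen.tail k3 (bond_of_single hfD h4)⟩
              · rintro ⟨h5, h6⟩
                rcases hQ.cases with ⟨-, h7, h8⟩ | ⟨h7, -, -⟩
                · exact hf (by rw [h5, h7]; exact h8)
                · subst h7
                  rcases h6 with h6 | h6
                  · exact h1 h6
                  · exact h2 h6
              · rintro ⟨-, h6⟩
                apply hno
                rcases h6 with h6 | h6
                · rw [← h6]
                  exact Relation.ReflTransGen.trans ih2 k3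
                · rw [← h6]
                  exact Relation.ReflTransGen.trans ih2
                    (Relation.ReflTransGen.tail k3 (bond_of_single hfD h4))
            · exact absurd h3 (cl_not hκ hc)
        exact pot_step hP ha hb hκ key2.1 key2.2.1
    exact (key q h).1

/-- **The deterministic core of the near miss lemma.** The strand is inside of the box `D` between the
times `a` and `b` (one visit). At the time `s` there is a crosscut `E` from the tip end
`en κ (pth ω e s)` to the vertex `y` of a leg of colour `1 - κ` (which exists at the time `T ≤ a`); it is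
not met between the time `k` and the time `t`; `t' ≤ t` are the times of touches of the colours `1 - κ`
and `κ` of the past of `s`. Then there is no gate `E'` inside of the box from an end
`en κ (pth ω e s')`, `s ≤ s'`, of the same visit to the same leg which is not crossed up to the time
`b`. -/
theorem near_trial (hU : HasPot U) (hD : HasPot D) (hκ : κ = 0 ∨ κ = 1) (hn : Nb ω e n)
    (hs : Sol ω e U n) (he : fa e ∈ U) (he' : fb e ∉ U) {a b s s' k t t' T : ℕ} (hbn : b ≤ n)
    (ha : fb (pth ω e a) ∉ D) (hb : fb (pth ω e b) ∉ D)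
    (hin : ∀ l, a ≤ l → l + 1 < b → fa (pth ω e l) ∈ D) (hT : T ≤ a) (has : a ≤ s) (hsk : s ≤ k)
    (hkt' : k ≤ t') (ht't : t' ≤ t) (htb : t + 1 < b)
    (hct' : Cl ω (1 - κ) (fa (pth ω e t')))
    (ht' : fa (pth ω e t') ∉ U ∨ ∃ l' < s, fa (pth ω e l') = fa (pth ω e t'))
    (hct : Cl ω κ (fa (pth ω e t)))
    (ht : fa (pth ω e t) ∉ U ∨ ∃ l' < s, fa (pth ω e l') = fa (pth ω e t))
    (hS : pth ω e s ∈ SU U) {E : Set UE} (hE : E ⊆ SU U) (hE1 : ∀ l < s, pth ω e l ∉ E)
    (hE2 : ∀ l, k < l → l ≤ t → pth ω e l ∉ E) (hz : Pth E (en κ (pth ω e s)) y)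
    (hy : Sd ω e U n (1 - κ) y) (hss : s ≤ s') (hs'b : s' < b) (hS' : pth ω e s' ∈ SU U)
    (hSD : pth ω e s' ∈ SU D) {E' : Set UE} (hE' : E' ⊆ SU U) (hE'D : E' ⊆ SU D)
    (hEl : ∀ l < b, pth ω e l ∉ E') (hg : Pth E' (en κ (pth ω e s')) x)
    (hx : Sd ω e U n (1 - κ) x) (hL : Leg ω e U (1 - κ) D T y x) : False := by
  have hκ' := zc hκ
  obtain ⟨i, hi, hP⟩ := exists_lp (n := n) he' (show t < n by omega) (by omega : s ≤ t) hct ht
  obtain ⟨i', hi', hQ⟩ := exists_lp (n := n) he' (show t' < n by omega) (by omega : s ≤ t') hct' ht'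
  refine trial (k := k) hU hκ hn hs he hP hQ hi hi' hsk (by omega) (by omega) hS hE hE1
    (fun l h1 h2 => hE2 l h1 (by omega)) hz hy hss (by omega) hS' hE'
    (fun l hl => hEl l (by omega)) hg hx ?_
  intro hj Ψ hΨ
  refine (Leg.pot hκ' hn hs he hQ (T := T) (by omega) ?_ hL ?_ hΨ).symm
  · rw [fb_pth_succ]
    exact hin t' (by omega) (by omega)
  · intro hc
    refine visit hD hκ hn hbn ha hb (s := s') (by omega) hs'b hSD hE'D hEl hg ?_
    refine Relation.ReflTransGen.trans (conn_symm' (hL.conn hκ')) (Relation.ReflTransGen.trans hc ?_)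
    exact conn_box hκ' hj fun l h1 h2 => hin l (by omega) (by omega)

end Box

end Pool.Agent.SixB.NearCut
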