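import Pool.Agent.Lib.SixB.S8Trans
import Pool.Agent.Lib.SixB.S8NearCut

/-!
# Step 8: HD

The hypothesis `HD` of the transfer theorem (`LC.transfer`) holds for one of the two pairs of arcs unless
there is a narrow gate (a short path of unit edges in fresh faces) between the wall `b` and the wall `l`
near a point of the barrier arcs `[k1, k3]`.

* `gate_pth`: two arcs which are linked in a box are joined by a path of sides of faces of the box.
* `hd_or_gate`: `HD` for one of the pairs, or a path of sides of faces of `T` in a box of radius `3 * ρ`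
  from the arc `[0, k1]` to the arc `[k3, m]`; the box meets the arc `[k1, k2]` and the arc `[k2, k3]`.
* `hd_or_near`: the same with ends on two given sets of vertices (the sides of the strand) and with
  edges in a given set (edges which are not crossed by the strand).
* `not_crossed`: a side of a fresh face is not crossed by the strand, except for the side of the tip.
-/

set_option autoImplicit false

namespace Pool.Agent.SixB.S8HD

open Finset Pool.Agent.Perc Pool.Agent.Perc6 Pool.Agent.PercT LC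
open NearCut (SU Pth)

/-- Two corners of a face are joined by sides of the face. -/
theorem pth_face {F : Set (ℤ × ℤ)} {f u v : ℤ × ℤ} (hf : f ∈ F) (hu : IsCor f u) (hv : IsCor f v) :
    Pth (SU F) u v := by
  have hs : ∀ a p q, IsSide f a → Joins a p q → Pth (SU F) p q := fun a p q ha hj =>
    Relation.ReflTransGen.single ⟨a, ⟨f, hf, ha⟩, hj⟩
  obtain ⟨x, y⟩ := f
  have h1 : Pth (SU F) (x, y) (x + 1, y) :=
    hs (bo (x, y)) _ _ (Or.inl rfl) (by simp [Joins, ua, ub, bo])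
  have h2 : Pth (SU F) (x, y) (x, y + 1) :=
    hs (le' (x, y)) _ _ (Or.inr (Or.inl rfl)) (by simp [Joins, ua, ub, le'])
  have h3 : Pth (SU F) (x, y + 1) (x + 1, y + 1) :=
    hs (to' (x, y)) _ _ (Or.inr (Or.inr (Or.inl rfl))) (by simp [Joins, ua, ub, to'])
  have key : ∀ w, IsCor (x, y) w → Pth (SU F) (x, y) w := by
    rintro ⟨w1, w2⟩ ⟨h4, h5⟩
    simp only at h4 h5
    rcases h4 with rfl | rfl <;> rcases h5 with rfl | rfl
    · exact Relation.ReflTransGen.refl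
    · exact h2
    · exact h1
    · exact h2.trans h3
  exact (key u hu).symm.trans (key v hv)

/-- A path of bonds gives a path of sides. -/
theorem conn_pth {ω : Cfg} {F : Set (ℤ × ℤ)} {u v : ℤ × ℤ} (h : Conn ω F u v) : Pth (SU F) u v := by
  induction h with
  | refl => exact Relation.ReflTransGen.refl
  | tail _ hb ih =>
    rw [bond_iff] at hb
    obtain ⟨f, hf, h1, h2, -⟩ := hb
    exact ih.trans (pth_face hf h1 h2)

theorem inB_of_conn {ω : Cfg} {F : Set (ℤ × ℤ)} {z f u v : ℤ × ℤ} {R : ℤ} (hf : f ∈ RFb z R)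
    (hu : IsCor f u) (h : Conn ω (F ∩ RFb z R) v u) : InB z R v := by
  rcases Relation.ReflTransGen.cases_head h with rfl | ⟨x, hx, -⟩
  · exact inB_of_mem_RFb hf hu
  · rw [bond_iff] at hx
    obtain ⟨g, hg, h1, -⟩ := hx
    exact inB_of_mem_RFb (mem_coe.1 hg.2) h1

/-- Two arcs which are linked in a box are joined by a path of sides of faces of the box. -/
theorem gate_pth {F A B : Set (ℤ × ℤ)} {z : ℤ × ℤ} {R : ℤ} (h : Gate F A B z R) :
    ∃ a ∈ A, ∃ b ∈ B, InB z R a ∧ InB z R b ∧ Pth (SU (F ∩ RFb z R)) a b := by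
  obtain ⟨ω, ω', f, u, v, h1, h2, h3, ⟨a, ha, h4⟩, b, hb, h5⟩ := h
  have hf := mem_coe.1 h1.2
  exact ⟨a, ha, b, hb, inB_of_conn hf h2 h4, inB_of_conn hf h3 h5,
    (conn_pth h4).trans ((pth_face h1 h2 h3).trans (conn_pth h5).symm)⟩

/-- **HD or a narrow gate**: a path of sides of faces of `T` in a box from the arc `[0, k1]` to the arc
`[k3, m]`; the box meets the arcs `[k1, k2]` and `[k2, k3]`. -/
theorem hd_or_gate {T : Finset (ℤ × ℤ)} {m : ℕ} {w : ℕ → ℤ × ℤ} {k1 k2 k3 : ℕ} {c ρ : ℤ}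
    (hT : Ctr (T : Set (ℤ × ℤ)) m w) :
    (HD c T w 0 k1 k2 k3 ρ ∨ HD (1 - c) T w k1 k2 k3 m ρ) ∨
      ∃ z, (∃ i, k1 ≤ i ∧ i ≤ k2 ∧ InB z (3 * ρ) (w i)) ∧ (∃ i, k2 ≤ i ∧ i ≤ k3 ∧ InB z (3 * ρ) (w i)) ∧
        ∃ i j, i ≤ k1 ∧ k3 ≤ j ∧ j ≤ m ∧ InB z (3 * ρ) (w i) ∧ InB z (3 * ρ) (w j) ∧
          Pth (SU ((T : Set (ℤ × ℤ)) ∩ RFb z (3 * ρ))) (w i) (w j) := by
  by_cases hno : HD c T w 0 k1 k2 k3 ρ ∨ HD (1 - c) T w k1 k2 k3 m ρ
  · exact Or.inl hno
  · rw [not_or] at hno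
    obtain ⟨z, h1, h2, h3⟩ := link_meet hT hno.1 hno.2
    obtain ⟨a, ⟨i, -, hi, rfl⟩, b, ⟨j, hj, hj', rfl⟩, hai, hbj, hp⟩ := gate_pth h1
    exact Or.inr ⟨z, h2, h3, i, j, hi, hj, hj', hai, hbj, hp⟩

theorem inB_of_side {z f : ℤ × ℤ} {R : ℤ} {a : UE} (hf : f ∈ RFb z R) (ha : IsSide f a) :
    InB z R (ua a) ∧ InB z R (ub a) := by
  have h1 : IsCor f (ua a) ∧ IsCor f (ub a) := side_cor ha (Or.inl ⟨rfl, rfl⟩)
  exact ⟨inB_of_mem_RFb hf h1.1, inB_of_mem_RFb hf h1.2⟩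

/-- **HD or a near miss.** `E` is the set of the edges which are not crossed by the strand, `Pt` and `Qt`
are the sides of the strand. Every vertex of the arc `[0, k1]` which is far from the tip `a` is joined to
`Pt` by edges of `E` in the box of radius `δ` around it, similarly for the arc `[k3, m]` and `Qt`; the
arc `[k1, k2]` is far from the tip. -/
theorem hd_or_near_l {T : Finset (ℤ × ℤ)} {m : ℕ} {w : ℕ → ℤ × ℤ} {k1 k2 k3 : ℕ} {c ρ δ D r : ℤ}
    (hT : Ctr (T : Set (ℤ × ℤ)) m w) {a : ℤ × ℤ} {E : Set UE} {Pt Qt : Set (ℤ × ℤ)}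
    (hδ : 0 ≤ δ) (hD : r + 6 * ρ ≤ D)
    (hO : ∀ i, k1 ≤ i → i ≤ k2 → ¬ InB a D (w i))
    (hE : ∀ e, e ∈ SU (T : Set (ℤ × ℤ)) → ¬ InB a r (ua e) → e ∈ E)
    (hP : ∀ i, i ≤ k1 → ¬ InB a r (w i) →
      ∃ p ∈ Pt, Pth (E ∩ {e | InB (w i) δ (ua e) ∧ InB (w i) δ (ub e)}) (w i) p)
    (hQ : ∀ i, k3 ≤ i → i ≤ m → ¬ InB a r (w i) →
      ∃ q ∈ Qt, Pth (E ∩ {e | InB (w i) δ (ua e) ∧ InB (w i) δ (ub e)}) (w i) q) :
    (HD c T w 0 k1 k2 k3 ρ ∨ HD (1 - c) T w k1 k2 k3 m ρ) ∨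
      ∃ z l, k1 ≤ l ∧ l ≤ k2 ∧ InB z (3 * ρ) (w l) ∧ ¬ InB a (D - 3 * ρ) z ∧ ∃ p ∈ Pt, ∃ q ∈ Qt,
        Pth (E ∩ {e | InB z (3 * ρ + δ) (ua e) ∧ InB z (3 * ρ + δ) (ub e)}) p q := by
  rcases hd_or_gate (c := c) (ρ := ρ) (k1 := k1) (k2 := k2) (k3 := k3) hT with h | h
  · exact Or.inl h
  · obtain ⟨z, ⟨l, hl1, hl2, hl3⟩, -, i, j, hi, hj, hj', hwi, hwj, hp⟩ := h
    have hz : ¬ InB a (D - 3 * ρ) z := by
      intro h1
      refine hO l hl1 hl2 ?_
      unfold InB at *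
      omega
    have hfar : ∀ v, InB z (3 * ρ) v → ¬ InB a r v := by
      intro v hv h1
      refine hz ?_
      unfold InB at *
      omega
    obtain ⟨p, hpP, hp1⟩ := hP i hi (hfar _ hwi)
    obtain ⟨q, hqQ, hq1⟩ := hQ j hj hj' (hfar _ hwj)
    have hbox : ∀ v, InB z (3 * ρ) v →
        E ∩ {e | InB v δ (ua e) ∧ InB v δ (ub e)} ⊆
          E ∩ {e | InB z (3 * ρ + δ) (ua e) ∧ InB z (3 * ρ + δ) (ub e)} := by
      rintro v hv e ⟨h1, h2, h3⟩
      refine ⟨h1, ?_, ?_⟩ <;>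
      · unfold InB at *
        omega
    have hmid : SU ((T : Set (ℤ × ℤ)) ∩ RFb z (3 * ρ)) ⊆
        E ∩ {e | InB z (3 * ρ + δ) (ua e) ∧ InB z (3 * ρ + δ) (ub e)} := by
      rintro e ⟨f, hf, he⟩
      have h1 := inB_of_side (mem_coe.1 hf.2) he
      refine ⟨hE e ⟨f, hf.1, he⟩ (hfar _ h1.1), ?_, ?_⟩
      · have := h1.1
        unfold InB at *
        omega
      · have := h1.2
        unfold InB at *
        omega
    exact Or.inr ⟨z, l, hl1, hl2, hl3, hz, p, hpP, q, hqQ, ((hp1.mono (hbox _ hwi)).symm.trans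
      ((hp.mono hmid).trans (hq1.mono (hbox _ hwj))))⟩

/-- **HD or a near miss.** `E` is the set of the edges which are not crossed by the strand, `Pt` and `Qt`
are the sides of the strand. Every vertex of the arc `[0, k1]` which is far from the tip `a` is joined to
`Pt` by edges of `E` in the box of radius `δ` around it, similarly for the arc `[k3, m]` and `Qt`; the
arc `[k1, k2]` is far from the tip. -/
theorem hd_or_near {T : Finset (ℤ × ℤ)} {m : ℕ} {w : ℕ → ℤ × ℤ} {k1 k2 k3 : ℕ} {c ρ δ D r : ℤ}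
    (hT : Ctr (T : Set (ℤ × ℤ)) m w) {a : ℤ × ℤ} {E : Set UE} {Pt Qt : Set (ℤ × ℤ)}
    (hδ : 0 ≤ δ) (hD : r + 6 * ρ ≤ D)
    (hO : ∀ i, k1 ≤ i → i ≤ k2 → ¬ InB a D (w i))
    (hE : ∀ e, e ∈ SU (T : Set (ℤ × ℤ)) → ¬ InB a r (ua e) → e ∈ E)
    (hP : ∀ i, i ≤ k1 → ¬ InB a r (w i) →
      ∃ p ∈ Pt, Pth (E ∩ {e | InB (w i) δ (ua e) ∧ InB (w i) δ (ub e)}) (w i) p)
    (hQ : ∀ i, k3 ≤ i → i ≤ m → ¬ InB a r (w i) →
      ∃ q ∈ Qt, Pth (E ∩ {e | InB (w i) δ (ua e) ∧ InB (w i) δ (ub e)}) (w i) q) :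
    (HD c T w 0 k1 k2 k3 ρ ∨ HD (1 - c) T w k1 k2 k3 m ρ) ∨
      ∃ z, ¬ InB a (D - 3 * ρ) z ∧ ∃ p ∈ Pt, ∃ q ∈ Qt,
        Pth (E ∩ {e | InB z (3 * ρ + δ) (ua e) ∧ InB z (3 * ρ + δ) (ub e)}) p q := by
  rcases hd_or_near_l (c := c) (ρ := ρ) hT hδ hD hO hE hP hQ with h | ⟨z, -, -, -, -, h⟩
  · exact Or.inl h
  · exact Or.inr ⟨z, h⟩

/-- A side of a fresh face is not crossed by the strand up to the time `t`, except for the side of the
tip. -/
theorem not_crossed {ω : Cfg} {e : UE} {U : Set (ℤ × ℤ)} {t : ℕ} (he : fb e ∉ U) {f : ℤ × ℤ}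
    (hf : f ∈ U) (hv : ∀ s < t, fa (pth ω e s) ≠ f) {a : UE} (ha : IsSide f a) {l : ℕ} (hl : l ≤ t)
    (hal : pth ω e l = a) : l = t ∧ fa (pth ω e t) = f := by
  subst hal
  have h1 := isSide_iff.1 ha
  rcases h1 with h1 | h1
  · rcases Nat.lt_or_ge l t with h2 | h2
    · exact absurd h1.symm (hv l h2)
    · have : l = t := by omega
      subst this
      exact ⟨rfl, h1.symm⟩
  · exfalso
    rcases Nat.eq_zero_or_pos l with h2 | h2
    · subst h2
      exact he (by rw [h1] at hf; exact hf)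
    · obtain ⟨k, rfl⟩ : ∃ k, l = k + 1 := ⟨l - 1, by omega⟩
      rw [fb_pth_succ] at h1
      exact hv k (by omega) h1.symm

end Pool.Agent.SixB.S8HD
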