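import Pool.Agent.Lib.SixB.S8HD
import Pool.Agent.Lib.SixB.S8Caps
import Pool.Agent.Lib.SixB.S8ExitW

/-!
# Step 8: HD for the domain of a move

`T` is the domain of a move (fresh faces, contour `w`): side `0` is the tip, the sides `1, …, k₁ - 1` are
sides of the right wall, `k₁, …, r₁ - 1` the right cap, `r₁, …, r₃ - 1` the barrier, `r₃, …, k₃ - 1` the left
cap, `k₃, …, m - 1` the left wall. The caps are small, the barrier is far from the tip.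

`hd_of_no_gate`: if there is no gate (`Ex.Gate`) in the boxes of radius `6 ρ + 2 δ + 2` around the vertices
of the barrier, then `HD` holds for one of the two pairs of arcs, for every mark `x` of the barrier.
-/

set_option autoImplicit false

namespace Pool.Agent.SixB.S8HDc

open Finset Pool.Agent.Perc Pool.Agent.Perc6 Pool.Agent.PercT LC S8HD
open NearCut (SU Pth)

variable {E : Ex} {ω : Cfg} {t m : ℕ} {c : ℤ} {T : Finset (ℤ × ℤ)} {w : ℕ → ℤ × ℤ}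

/-- A side of a fresh face which is not next to the tip is not crossed. -/
theorem uncrossed (he : fb (E.e ω) ∉ E.U ω) (hTF : (T : Set (ℤ × ℤ)) ⊆ E.Fr ω t)
    (tip : Joins (E.p ω t) (w 0) (w 1)) {e : UE} (h : e ∈ SU (T : Set (ℤ × ℤ)))
    (hf : ¬ LC.InB (w 1) 1 (ua e)) {l : ℕ} (hl : l ≤ t) : E.p ω l ≠ e := by
  rintro rfl
  obtain ⟨f, hfT, hsd⟩ := h
  have hfr := hTF hfT
  have hv : ∀ s < t, fa (pth (E.cf ω) (E.e ω) s) ≠ f := by
    rintro s hs rfl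
    exact hfr.2 ⟨hfr.1, mem_coe.2 (fa_mem_vs (Nat.zero_le _) hs)⟩
  obtain ⟨rfl, -⟩ := not_crossed he hfr.1 hv hsd hl rfl
  refine hf ?_
  have h1 := joins_near tip
  rcases tip with ⟨h2, h3⟩ | ⟨h2, h3⟩
  · rw [← h2]
    unfold LC.InB at *
    omega
  · rw [← h3]
    unfold LC.InB
    omega

/-- A piece of the contour inside of a box. -/
theorem contour_pth (hT : Ctr (T : Set (ℤ × ℤ)) m w) {z : ℤ × ℤ} {δ : ℤ} {i j : ℕ} (hij : i ≤ j)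
    (hj : j ≤ m) (hb : ∀ l, i ≤ l → l ≤ j → LC.InB z δ (w l)) :
    Pth (SU (T : Set (ℤ × ℤ)) ∩ {e | LC.InB z δ (ua e) ∧ LC.InB z δ (ub e)}) (w i) (w j) := by
  induction j, hij using Nat.le_induction with
  | base => exact Relation.ReflTransGen.refl
  | succ j hij ih =>
    refine Relation.ReflTransGen.tail (ih (by omega) fun l h1 h2 => hb l h1 (by omega)) ?_
    obtain ⟨e, he, hje⟩ := hT.step j (by omega)
    have h1 := hb j hij (by omega)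
    have h2 := hb (j + 1) (by omega) le_rfl
    have hj' := hje
    rcases hje with ⟨h3, h4⟩ | ⟨h3, h4⟩
    · rw [h3] at h1
      rw [h4] at h2
      exact ⟨e, ⟨he.1, h1, h2⟩, hj'⟩
    · rw [h3] at h1
      rw [h4] at h2
      exact ⟨e, ⟨he.1, h2, h1⟩, hj'⟩

/-- The vertices of a cap are in the box of the cap. -/
theorem cap_box (hT : Ctr (T : Set (ℤ × ℤ)) m w) {i j : ℕ} (hj : j ≤ m) {S : Set (ℤ × ℤ)} {z : ℤ × ℤ}
    {δ : ℤ} (hS : ∀ g ∈ S, g ∈ RFb z δ)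
    (h : ∀ l, i ≤ l → l < j → ∀ e, Joins e (w l) (w (l + 1)) → ∃ g ∈ S, IsSide g e) {l : ℕ}
    (hl : i ≤ l) (hl' : l ≤ j) (hij : i < j) : LC.InB z δ (w l) := by
  have key : ∀ l, i ≤ l → l < j → LC.InB z δ (w l) ∧ LC.InB z δ (w (l + 1)) := by
    intro l h1 h2
    obtain ⟨e, -, hje⟩ := hT.step l (by omega)
    obtain ⟨g, hg, hs⟩ := h l h1 h2 e hje
    have h3 := side_cor hs hje
    exact ⟨inB_of_mem_RFb (hS g hg) h3.1, inB_of_mem_RFb (hS g hg) h3.2⟩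
  rcases Nat.lt_or_ge l j with h1 | h1
  · exact (key l hl h1).1
  · have h2 := (key (l - 1) (by omega) (by omega)).2
    rwa [Nat.sub_add_cancel (by omega : 1 ≤ l)] at h2

/-- The vertices of a cap are near its end. -/
theorem cap_near (hT : Ctr (T : Set (ℤ × ℤ)) m w) {i j : ℕ} (hj : j ≤ m) {S : Set (ℤ × ℤ)} {z : ℤ × ℤ}
    {δ : ℤ} (hδ : 0 ≤ δ) (hS : ∀ g ∈ S, g ∈ RFb z δ)
    (h : ∀ l, i ≤ l → l < j → ∀ e, Joins e (w l) (w (l + 1)) → ∃ g ∈ S, IsSide g e) {l k : ℕ}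
    (hl : i ≤ l) (hl' : l ≤ j) (hk : i ≤ k) (hk' : k ≤ j) : LC.InB (w k) (2 * δ) (w l) := by
  rcases Nat.lt_or_ge i j with hij | hij
  · have h1 := cap_box hT hj hS h hl hl' hij
    have h2 := cap_box hT hj hS h hk hk' hij
    unfold LC.InB at *
    omega
  · have h1 : l = k := by omega
    subst h1
    unfold LC.InB
    omega

theorem to_uncrossed (he : fb (E.e ω) ∉ E.U ω) (hTF : (T : Set (ℤ × ℤ)) ⊆ E.Fr ω t)
    (tip : Joins (E.p ω t) (w 0) (w 1)) {z p q : ℤ × ℤ} {R r : ℤ} (hr : R + 1 ≤ r)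
    (hz : ¬ LC.InB (w 1) r z)
    (h : Pth (SU (T : Set (ℤ × ℤ)) ∩ {e | LC.InB z R (ua e) ∧ LC.InB z R (ub e)}) p q) :
    Pth ({e | ∀ l ≤ t, E.p ω l ≠ e} ∩ {e | LC.InB z R (ua e) ∧ LC.InB z R (ub e)}) p q := by
  refine h.mono ?_
  rintro e ⟨h1, h2, h3⟩
  refine ⟨fun l hl => uncrossed he hTF tip h1 (fun h4 => hz ?_) hl, h2, h3⟩
  unfold LC.InB at *
  omega

/-- The vertices of the right wall and of the right cap are joined to the side of colour `c`. -/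
theorem right_pth (he : fb (E.e ω) ∉ E.U ω) {k₁ r₁ : ℕ} (hT : Ctr (T : Set (ℤ × ℤ)) m w)
    (hTF : (T : Set (ℤ × ℤ)) ⊆ E.Fr ω t) (h1 : 1 ≤ k₁) (hr1 : k₁ ≤ r₁) (hr1m : r₁ ≤ m)
    (tip : Joins (E.p ω t) (w 0) (w 1)) (parc : par (w 1) = c)
    (hwb : ∀ y, 1 ≤ y → y ≤ k₁ → par (w y) = c → E.Sid c ω t (w y)) {δ : ℤ} (hδ : 0 ≤ δ)
    (hcR : ∀ i, k₁ ≤ i → i ≤ r₁ → LC.InB (w r₁) δ (w i)) {i : ℕ} (hi : i ≤ r₁)
    (hfi : ¬ LC.InB (w 1) (2 * δ + 3) (w i)) : ∃ p ∈ {v | E.Sid c ω t v},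
      Pth ({e | ∀ l ≤ t, E.p ω l ≠ e} ∩ {e | LC.InB (w i) (2 * δ + 1) (ua e) ∧
        LC.InB (w i) (2 * δ + 1) (ub e)}) (w i) p := by
  have hi2 : 2 ≤ i := by
    by_contra hlt
    refine hfi ?_
    have h4 := joins_near tip
    rcases (by omega : i = 0 ∨ i = 1) with rfl | rfl
    · unfold LC.InB at *
      omega
    · unfold LC.InB
      omega
  obtain ⟨j, hj1, hj2, hj3, hjb⟩ : ∃ j, 1 ≤ j ∧ j ≤ k₁ ∧ j ≤ i ∧
      ∀ l, j ≤ l → l ≤ i → LC.InB (w i) (2 * δ) (w l) := by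
    rcases le_total i k₁ with h | h
    · refine ⟨i, by omega, h, le_rfl, fun l h4 h5 => ?_⟩
      have : l = i := by omega
      subst this
      unfold LC.InB
      omega
    · refine ⟨k₁, h1, le_rfl, h, fun l h4 h5 => ?_⟩
      have h6 := hcR l h4 (by omega)
      have h7 := hcR i h (by omega)
      unfold LC.InB at *
      omega
  obtain ⟨j', hj4, hj5, hj6, hj7⟩ : ∃ j', 1 ≤ j' ∧ j' ≤ j ∧ j ≤ j' + 1 ∧ par (w j') = c := by
    by_cases hp : par (w j) = c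
    · exact ⟨j, hj1, le_rfl, by omega, hp⟩
    · have hj : 2 ≤ j := by
        by_contra hlt
        have : j = 1 := by omega
        subst this
        exact hp parc
      refine ⟨j - 1, by omega, by omega, by omega, ?_⟩
      have h4 := par_ne_succ hT (i := j - 1) (by omega)
      have h5 := par_cases (w (j - 1))
      have h6 := par_cases (w j)
      have h7 := par_cases (w 1)
      rw [show j - 1 + 1 = j by omega] at h4
      omega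
  refine ⟨w j', hwb j' hj4 (by omega) hj7, to_uncrossed he hTF tip (by omega) hfi ?_⟩
  refine (contour_pth hT (by omega) (by omega) fun l h4 h5 => ?_).symm
  rcases Nat.lt_or_ge l j with h6 | h6
  · have : l = j' := by omega
    subst this
    have h7 := hjb j le_rfl hj3
    obtain ⟨e, -, hje⟩ := hT.step l (by omega)
    have h8 := joins_near hje
    rw [show l + 1 = j by omega] at h8
    unfold LC.InB at *
    omega
  · have h7 := hjb l h6 h5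
    unfold LC.InB at *
    omega

/-- The vertices of the left wall and of the left cap are joined to the other side. -/
theorem left_pth (hc : c = 0 ∨ c = 1) (he : fb (E.e ω) ∉ E.U ω) {r₃ k₃ : ℕ}
    (hT : Ctr (T : Set (ℤ × ℤ)) m w) (hm : 0 < m) (hTF : (T : Set (ℤ × ℤ)) ⊆ E.Fr ω t)
    (h3 : k₃ ≤ m) (tip : Joins (E.p ω t) (w 0) (w 1)) (parc : par (w 1) = c)
    (hwl : ∀ y, k₃ ≤ y → y ≤ m → par (w y) = 1 - c → E.Sid (1 - c) ω t (w y)) {δ : ℤ} (hδ : 0 ≤ δ)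
    (hcL : ∀ i, r₃ ≤ i → i ≤ k₃ → LC.InB (w r₃) δ (w i)) {i : ℕ} (hi : r₃ ≤ i) (hi' : i ≤ m)
    (hfi : ¬ LC.InB (w 1) (2 * δ + 3) (w i)) : ∃ p ∈ {v | E.Sid (1 - c) ω t v},
      Pth ({e | ∀ l ≤ t, E.p ω l ≠ e} ∩ {e | LC.InB (w i) (2 * δ + 1) (ua e) ∧
        LC.InB (w i) (2 * δ + 1) (ub e)}) (w i) p := by
  obtain ⟨j, hj1, hj2, hj3, hjb⟩ : ∃ j, k₃ ≤ j ∧ j ≤ m ∧ i ≤ j ∧
      ∀ l, i ≤ l → l ≤ j → LC.InB (w i) (2 * δ) (w l) := by
    rcases le_total k₃ i with h | h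
    · refine ⟨i, h, by omega, le_rfl, fun l h4 h5 => ?_⟩
      have : l = i := by omega
      subst this
      unfold LC.InB
      omega
    · refine ⟨k₃, le_rfl, h3, h, fun l h4 h5 => ?_⟩
      have h6 := hcL l (by omega) h5
      have h7 := hcL i hi h
      unfold LC.InB at *
      omega
  obtain ⟨j', hj4, hj5, hj6, hj7⟩ : ∃ j', j ≤ j' ∧ j' ≤ m ∧ j' ≤ j + 1 ∧ par (w j') = 1 - c := by
    by_cases hp : par (w j) = c
    · have hj : j ≠ m := by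
        rintro rfl
        rw [hT.close] at hp
        have h4 := par_ne_succ hT (i := 0) (by omega)
        rw [Nat.zero_add, hp, parc] at h4
        exact h4 rfl
      refine ⟨j + 1, by omega, by omega, le_rfl, ?_⟩
      have h4 := par_ne_succ hT (i := j) (by omega)
      have h5 := par_cases (w (j + 1))
      have h6 := par_cases (w j)
      omega
    · have h6 := par_cases (w j)
      exact ⟨j, le_rfl, hj2, by omega, by omega⟩
  refine ⟨w j', hwl j' (by omega) hj5 hj7, to_uncrossed he hTF tip (by omega) hfi ?_⟩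
  refine contour_pth hT (by omega) hj5 fun l h4 h5 => ?_
  rcases Nat.lt_or_ge j l with h6 | h6
  · have : l = j + 1 := by omega
    subst this
    have h7 := hjb j hj3 le_rfl
    obtain ⟨e, -, hje⟩ := hT.step j (by omega)
    have h8 := joins_near hje
    unfold LC.InB at *
    omega
  · have h7 := hjb l h4 h6
    unfold LC.InB at *
    omega

/-- **HD for the domain of a move.** -/
theorem hd_of_no_gate (hc : c = 0 ∨ c = 1) (he : fb (E.e ω) ∉ E.U ω) {k₁ r₁ x r₃ k₃ : ℕ}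
    (hT : Ctr (T : Set (ℤ × ℤ)) m w) (hTF : (T : Set (ℤ × ℤ)) ⊆ E.Fr ω t) (h1 : 1 ≤ k₁)
    (hr1 : k₁ ≤ r₁) (hx : r₁ ≤ x) (hx' : x ≤ r₃) (hr3 : r₃ ≤ k₃) (h3 : k₃ ≤ m)
    (tip : Joins (E.p ω t) (w 0) (w 1)) (parc : par (w 1) = c)
    (hwb : ∀ y, 1 ≤ y → y ≤ k₁ → par (w y) = c → E.Sid c ω t (w y))
    (hwl : ∀ y, k₃ ≤ y → y ≤ m → par (w y) = 1 - c → E.Sid (1 - c) ω t (w y)) {δ D ρ : ℤ}
    (hδ : 0 ≤ δ) (hcR : ∀ i, k₁ ≤ i → i ≤ r₁ → LC.InB (w r₁) δ (w i))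
    (hcL : ∀ i, r₃ ≤ i → i ≤ k₃ → LC.InB (w r₃) δ (w i))
    (hfar : ∀ i, r₁ ≤ i → i ≤ r₃ → ¬ LC.InB (w 1) D (w i)) (hD : 6 * ρ + 2 * δ + 3 ≤ D)
    (hno : ∀ i, r₁ ≤ i → i ≤ r₃ → ¬ E.Gate ω t (w i) (6 * ρ + 2 * δ + 2)) :
    HD c T w 0 r₁ x r₃ ρ ∨ HD (1 - c) T w r₁ x r₃ m ρ := by
  have hmain := hd_or_near_l (T := T) (k1 := r₁) (k2 := x) (k3 := r₃) (c := c) (ρ := ρ)
    (δ := 2 * δ + 1) (D := D) (r := 2 * δ + 3) (a := w 1) (E := {e | ∀ l ≤ t, E.p ω l ≠ e})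
    (Pt := {v | E.Sid c ω t v}) (Qt := {v | E.Sid (1 - c) ω t v}) hT (by omega) (by omega)
    (fun i h4 h5 => hfar i h4 (by omega)) ?_ ?_ ?_
  · rcases hmain with h | ⟨z, l, hl1, hl2, hl3, -, p, hp, q, hq, hpq⟩
    · exact h
    · exfalso
      refine hno l hl1 (by omega) ?_
      have hsub : {e | ∀ l ≤ t, E.p ω l ≠ e} ∩ {e | LC.InB z (3 * ρ + (2 * δ + 1)) (ua e) ∧
          LC.InB z (3 * ρ + (2 * δ + 1)) (ub e)} ⊆
          {a | SixB.InB (w l) (6 * ρ + 2 * δ + 2) a ∧ ∀ l ≤ t, E.p ω l ≠ a} := by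
        rintro e ⟨h6, h7, -⟩
        refine ⟨?_, h6⟩
        unfold SixB.InB InR
        unfold LC.InB at hl3 h7
        omega
      rcases hc with rfl | rfl
      · exact ⟨p, q, hp, hq, hpq.mono hsub⟩
      · exact ⟨q, p, hq, hp, hpq.symm.mono hsub⟩
  · intro e h4 h5 l hl
    refine uncrossed he hTF tip h4 ?_ hl
    intro h6
    refine h5 ?_
    unfold LC.InB at *
    omega
  · intro i hi hfi
    exact right_pth he hT hTF h1 hr1 (by omega) tip parc hwb hδ hcR hi hfi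
  · intro i hi hi' hfi
    exact left_pth hc he hT (by omega) hTF h3 tip parc hwl hδ hcL hi hi' hfi

/-- **A link between the two walls is a gate.** -/
theorem exGate_of_gate (hc : c = 0 ∨ c = 1) (he : fb (E.e ω) ∉ E.U ω) {k₁ r₁ r₃ k₃ : ℕ}
    (hT : Ctr (T : Set (ℤ × ℤ)) m w) (hTF : (T : Set (ℤ × ℤ)) ⊆ E.Fr ω t) (h1 : 1 ≤ k₁)
    (hr1 : k₁ ≤ r₁) (hr : r₁ ≤ r₃) (hr3 : r₃ ≤ k₃) (h3 : k₃ ≤ m)
    (tip : Joins (E.p ω t) (w 0) (w 1)) (parc : par (w 1) = c)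
    (hwb : ∀ y, 1 ≤ y → y ≤ k₁ → par (w y) = c → E.Sid c ω t (w y))
    (hwl : ∀ y, k₃ ≤ y → y ≤ m → par (w y) = 1 - c → E.Sid (1 - c) ω t (w y)) {δ R : ℤ}
    (hδ : 0 ≤ δ) (hcR : ∀ i, k₁ ≤ i → i ≤ r₁ → LC.InB (w r₁) δ (w i))
    (hcL : ∀ i, r₃ ≤ i → i ≤ k₃ → LC.InB (w r₃) δ (w i)) {z : ℤ × ℤ}
    (hz : ¬ LC.InB (w 1) (R + 2 * δ + 3) z)
    (hg : LC.Gate (T : Set (ℤ × ℤ)) (av w 0 r₁) (av w r₃ m) z R) :
    E.Gate ω t z (R + 2 * δ + 1) := by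
  obtain ⟨a, ⟨i, -, hi, rfl⟩, b, ⟨j, hj, hj', rfl⟩, hai, hbj, hp⟩ := gate_pth hg
  have hR : 0 ≤ R := by
    unfold LC.InB at hai
    omega
  have hnear : ∀ v, LC.InB z R v → ¬ LC.InB (w 1) (2 * δ + 3) v := by
    intro v hv h
    refine hz ?_
    unfold LC.InB at *
    omega
  obtain ⟨p, hpS, hp1⟩ := right_pth he hT hTF h1 hr1 (by omega) tip parc hwb hδ hcR hi (hnear _ hai)
  obtain ⟨q, hqS, hq1⟩ := left_pth hc he hT (by omega) hTF h3 tip parc hwl hδ hcL hj hj' (hnear _ hbj)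
  have hbox : ∀ v, LC.InB z R v → {e | ∀ l ≤ t, E.p ω l ≠ e} ∩ {e | LC.InB v (2 * δ + 1) (ua e) ∧
      LC.InB v (2 * δ + 1) (ub e)} ⊆
      {a | SixB.InB z (R + 2 * δ + 1) a ∧ ∀ l ≤ t, E.p ω l ≠ a} := by
    rintro v hv e ⟨h6, h7, -⟩
    refine ⟨?_, h6⟩
    unfold SixB.InB InR
    unfold LC.InB at hv h7
    omega
  have hmid : SU ((T : Set (ℤ × ℤ)) ∩ RFb z R) ⊆
      {a | SixB.InB z (R + 2 * δ + 1) a ∧ ∀ l ≤ t, E.p ω l ≠ a} := by
    rintro e ⟨f, hf, he'⟩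
    have h4 := inB_of_side (mem_coe.1 hf.2) he'
    refine ⟨?_, fun l hl => uncrossed he hTF tip ⟨f, hf.1, he'⟩ (fun h5 => ?_) hl⟩
    · unfold SixB.InB InR
      have := h4.1
      unfold LC.InB at this
      omega
    · refine hnear _ h4.1 ?_
      unfold LC.InB at *
      omega
  have hpq : Pth {a | SixB.InB z (R + 2 * δ + 1) a ∧ ∀ l ≤ t, E.p ω l ≠ a} p q :=
    (hp1.mono (hbox _ hai)).symm.trans ((hp.mono hmid).trans (hq1.mono (hbox _ hbj)))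
  rcases hc with rfl | rfl
  · exact ⟨p, q, hpS, hqS, hpq⟩
  · exact ⟨q, p, hqS, hpS, hpq.symm⟩

/-- **HD for the domain of a move, with caps.** Every side of the right cap has an outer face in the set
`SR`, which is contained in a box of radius `δ`, similarly for the left cap. -/
theorem hd_of_caps (hc : c = 0 ∨ c = 1) (he : fb (E.e ω) ∉ E.U ω) {k₁ r₁ x r₃ k₃ : ℕ}
    (hT : Ctr (T : Set (ℤ × ℤ)) m w) (hTF : (T : Set (ℤ × ℤ)) ⊆ E.Fr ω t) (h1 : 1 ≤ k₁)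
    (hr1 : k₁ ≤ r₁) (hx : r₁ ≤ x) (hx' : x ≤ r₃) (hr3 : r₃ ≤ k₃) (h3 : k₃ ≤ m)
    (tip : Joins (E.p ω t) (w 0) (w 1)) (parc : par (w 1) = c)
    (hwb : ∀ y, 1 ≤ y → y ≤ k₁ → par (w y) = c → E.Sid c ω t (w y))
    (hwl : ∀ y, k₃ ≤ y → y ≤ m → par (w y) = 1 - c → E.Sid (1 - c) ω t (w y)) {δ D ρ : ℤ}
    (hδ : 0 ≤ δ) {SR SL : Set (ℤ × ℤ)} {zR zL : ℤ × ℤ} (hSR : ∀ g ∈ SR, g ∈ RFb zR δ)
    (hSL : ∀ g ∈ SL, g ∈ RFb zL δ)
    (hcR : ∀ i, k₁ ≤ i → i < r₁ → ∀ e, Joins e (w i) (w (i + 1)) → ∃ g ∈ SR, IsSide g e)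
    (hcL : ∀ i, r₃ ≤ i → i < k₃ → ∀ e, Joins e (w i) (w (i + 1)) → ∃ g ∈ SL, IsSide g e)
    (hfar : ∀ i, r₁ ≤ i → i ≤ r₃ → ¬ LC.InB (w 1) D (w i)) (hD : 6 * ρ + 4 * δ + 3 ≤ D)
    (hno : ∀ i, r₁ ≤ i → i ≤ r₃ → ¬ E.Gate ω t (w i) (6 * ρ + 4 * δ + 2)) :
    HD c T w 0 r₁ x r₃ ρ ∨ HD (1 - c) T w r₁ x r₃ m ρ := by
  refine hd_of_no_gate (δ := 2 * δ) (D := D) hc he hT hTF h1 hr1 hx hx' hr3 h3 tip parc hwb hwl
    (by omega) (fun i h4 h5 => ?_) (fun i h4 h5 => ?_) hfar (by omega) fun i h4 h5 hg => ?_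
  · exact cap_near hT (by omega) hδ hSR hcR h4 h5 hr1 le_rfl
  · exact cap_near hT h3 hδ hSL hcL h4 h5 le_rfl hr3
  · exact hno i h4 h5 (hg.mono (by omega))

end Pool.Agent.SixB.S8HDc
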