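import Pool.Agent.Lib.SixB.S8InvG
import Pool.Agent.Lib.SixB.S8StartW
import Pool.Agent.Lib.SixB.S8MoveB
import Pool.Agent.Lib.SixB.S8EscUp

/-!
# Step 8: the target invariant and the tip at the start, for the true data `StW.Start`

* `start_tip`: the true tip side `S` of `StW.Start` is the side `tipS U T`, or the side after it; the
  numbers `k` and `tgtN U T`;
* `StH.start_tgg`: the target invariant `TgG` at the start in the box `sqF r b`, `b` a face of the cell of
  the target side of the coarse domain;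
* `StH.start_near`: the true tip side is near every side in the cell of the coarse tip side.
-/

set_option autoImplicit false

namespace Pool.Agent.SixB.StartA

open Pool.Agent.Perc Pool.Agent.Perc6 Pool.Agent.Perc6.C2Aux Pool.Agent.Perc.Tips
open Pool.Agent.SixB.Top Pool.Agent.SixB.LC Pool.Agent.SixB.Mv

/-- **The true tip side of `Start`** is the last old side or the side after it. -/
theorem start_tip {U W Q T : Set (ℤ × ℤ)} {S : UE × Bool} {m k x mT : ℕ}
    (h : StW.Start W Q T S m k x) (hs : StartD U Q T mT) (hQU : Q ⊆ U) (hUW : U ⊆ W) (hTU : T ⊆ U) :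
    (S = tipS U T ∧ tgtN U T = k ∧ outF T S 0 ∉ W ∧ outF T S 1 ∈ Q) ∨
      (S = sc T (tipS U T) ∧ tgtN U T = k + 1 ∧ k < m ∧ outF T (tipS U T) 0 ∉ W ∧
        outF T S 0 ∈ Q) := by
  have hBT : ∀ v, BD T (side T S v) := bd_side h.cyc.bd
  have hold : ∀ v, outF T S v ∉ W → BD U (side T S v) := fun v hv =>
    ⟨hTU (hBT v).1, fun hh => hv (hUW hh)⟩
  have hnd : ∀ v, outF T S v ∈ Q → ¬ BD U (side T S v) := fun v hv hb => hb.2 (hQU hv)
  have hWQ : ∀ {f : ℤ × ℤ}, f ∈ Q → f ∈ W := fun hf => hUW (hQU hf)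
  have hk := h.k1
  have hkm := h.km
  have h1 := hs.one
  rcases h.tip with h0 | h0
  · -- the tip side is at the needle
    right
    have hk' : k < m := by
      by_contra hcon
      have hkm' : k = m := by omega
      obtain ⟨j, hj, hjt⟩ := h.cyc.exists_index (B := tipS U T) hs.cyc.bd
      have h2 : BD U (side T S j) := by rw [hjt]; exact hs.bd
      rcases Nat.eq_zero_or_pos j with rfl | hj0
      · exact hnd 0 h0 h2
      · exact hnd j (h.nd j hj0 (by omega)) h2
    have hm1 : outF T S (m - 1) ∉ W := h.od (m - 1) (by omega) (by omega)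
    have hsc : sc T (side T S (m - 1)) = S := by
      rw [← side_succ, show m - 1 + 1 = m by omega]
      exact h.cyc.per
    have hti : IsTip U T (side T S (m - 1)) :=
      ⟨hold _ hm1, hBT _, by rw [hsc]; exact hnd 0 h0⟩
    have heq := hs.uniq _ hti
    have hS : sc T (tipS U T) = S := by rw [← heq, hsc]
    have hsh : ∀ i, side T (tipS U T) (i + 1) = side T S i := by
      intro i
      rw [Nat.add_comm i 1, side_add, side_succ, side_zero, hS]
    have hsho : ∀ i, outF T (tipS U T) (i + 1) = outF T S i := fun i => by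
      unfold outF
      rw [hsh]
    refine ⟨hS.symm, ?_, hk', ?_, h0⟩
    · rcases Nat.lt_trichotomy (tgtN U T) (k + 1) with h2 | h2 | h2
      · exfalso
        obtain ⟨j, hj⟩ : ∃ j, tgtN U T = j + 1 := ⟨tgtN U T - 1, by omega⟩
        have h3 := hs.lst _ le_rfl hs.le
        rw [hj, hsh] at h3
        exact hnd j (h.nd j (by omega) (by omega)) h3
      · exact h2
      · exfalso
        have h3 := hs.mid (k + 1) (by omega) h2
        rw [hsho] at h3
        exact h.od k le_rfl hk' (hWQ h3)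
    · have h2 : outF T (tipS U T) 0 = outF T S (m - 1) := by
        unfold outF
        rw [side_zero, heq]
      rw [h2]
      exact hm1
  · left
    have hk' : 1 < k := by
      by_contra hcon
      have hk1 : k = 1 := by omega
      obtain ⟨j, hj, hjt⟩ := h.cyc.exists_index (B := side T (tipS U T) 1) (bd_side hs.cyc.bd 1)
      have h2 := hs.mid 1 Nat.one_pos h1
      have h3 : outF T S j ∈ Q := by
        have h4 : outF T S j = outF T (tipS U T) 1 := by
          unfold outF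
          rw [hjt]
        rw [h4]
        exact h2
      rcases Nat.eq_zero_or_pos j with rfl | hj0
      · exact h0 (hWQ h3)
      · exact h.od j (by omega) hj (hWQ h3)
    have hn1 : outF T S 1 ∈ Q := h.nd 1 Nat.one_pos hk'
    have hti : IsTip U T S := by
      refine ⟨hold 0 h0, h.cyc.bd, ?_⟩
      have h2 := hnd 1 hn1
      rwa [side_succ, side_zero] at h2
    have heq := hs.uniq _ hti
    refine ⟨heq, ?_, h0, hn1⟩
    have hmid := hs.mid
    have hlst := hs.lst _ le_rfl hs.le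
    rw [← heq] at hmid hlst
    rcases Nat.lt_trichotomy (tgtN U T) k with h2 | h2 | h2
    · exact absurd hlst (hnd _ (h.nd _ (by omega) h2))
    · exact h2
    · exfalso
      have h3 := hmid k (by omega) h2
      rcases Nat.lt_or_ge k m with h4 | h4
      · exact h.od k le_rfl h4 (hWQ h3)
      · have h5 : k = m := by omega
        rw [h5] at h3
        have h6 : outF T S m = outF T S 0 := by
          unfold outF
          rw [h.cyc.per, side_zero]
        rw [h6] at h3
        exact h0 (hWQ h3)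

/-- A corner of a face. -/
theorem inB_cor {y q w : ℤ × ℤ} {r : ℤ} (hw : IsCor q w) (h : InB y r q) : InB y (r + 1) w := by
  unfold IsCor at hw
  unfold InB at *
  omega

theorem inB_cor' {y q w : ℤ × ℤ} {r : ℤ} (hw : IsCor q w) (h : InB y r w) : InB y (r + 1) q := by
  unfold IsCor at hw
  unfold InB at *
  omega

theorem inB_mono {y q : ℤ × ℤ} {r r' : ℤ} (hr : r ≤ r') (h : InB y r q) : InB y r' q := by
  unfold InB at *
  omega

namespace StH

variable {U P Q W : Set (ℤ × ℤ)} {γ : ℤ × ℤ → ℤ × ℤ} {f₀ y : ℤ × ℤ} {β βU D : UE × Bool}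
  {m₁ m₂ : ℤ}

/-- A needle face at an old face is near the base. -/
theorem old_near (h : StH U P Q γ f₀ y β βU D m₁ m₂) {q g w : ℤ × ℤ} (hq : q ∈ Q) (hg : g ∉ U)
    (hqw : IsCor q w) (hgw : IsCor g w) : InB y (max m₁ m₂) q := by
  have h1 := le_max_left m₁ m₂
  have h2 := le_max_right m₁ m₂
  by_cases hqP : q ∈ P
  · exact inB_mono h2 (h.near q (mem_VQ_of_Q hqP hq) g (fun hh => hg (h.PU hh)) ⟨w, hqw, hgw⟩ q rfl)
  · exact inB_mono h1 (h.nearQ q hq hqP)

/-- **The true tip side is near the base.** -/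
theorem start_rg (h : StH U P Q γ f₀ y β βU D m₁ m₂) {S : UE × Bool} {m k x : ℕ}
    (hs : StW.Start W Q (compT (U \ Q) f₀) S m k x) (hUW : U ⊆ W) :
    InB y (max m₁ m₂ + 1) (rg S) := by
  obtain ⟨mU, mT, p', t', u', hr', hs'⟩ := h.relU
  have hTU : compT (U \ Q) f₀ ⊆ U := fun _ hf => (h.TU hf).1
  rcases start_tip hs hs' h.QU hUW hTU with ⟨-, -, h0, h1⟩ | ⟨hS, -, -, h0, h1⟩
  · have c1 : IsCor (outF (compT (U \ Q) f₀) S 1) (rg S) := by
      have h2 : IsCor (outF (compT (U \ Q) f₀) S 1) (lf (side (compT (U \ Q) f₀) S 1)) := isCor_out_lf _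
      rwa [side_succ, side_zero, lf_sc] at h2
    exact inB_cor c1 (h.old_near h1 (fun hh => h0 (hUW hh)) c1 (isCor_out_rg S))
  · have c0 : IsCor (outF (compT (U \ Q) f₀) S 0) (lf S) := isCor_out_lf S
    have c1 : IsCor (outF (compT (U \ Q) f₀) (tipS U (compT (U \ Q) f₀)) 0) (lf S) := by
      rw [hS, lf_sc]
      exact isCor_out_rg _
    have h2 := h.old_near h1 (fun hh => h0 (hUW hh)) c0 c1
    exact inB_cor (isCor_out_rg S) h2

/-- The coarse tip side is near the base. -/
theorem tip_near (h : StH U P Q γ f₀ y β βU D m₁ m₂) :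
    InB y (m₂ + 1) (rg (tipS P (compT (P \ VQ P Q γ) f₀))) := by
  obtain ⟨mP, mR, p, t, u, hr, hs⟩ := h.relP
  have h1 := hs.mid 1 Nat.one_pos hs.one
  have c1 : IsCor (outF (compT (P \ VQ P Q γ) f₀) (tipS P (compT (P \ VQ P Q γ) f₀)) 1)
      (rg (tipS P (compT (P \ VQ P Q γ) f₀))) := by
    have h2 : IsCor (outF (compT (P \ VQ P Q γ) f₀) (tipS P (compT (P \ VQ P Q γ) f₀)) 1)
        (lf (side (compT (P \ VQ P Q γ) f₀) (tipS P (compT (P \ VQ P Q γ) f₀)) 1)) := isCor_out_lf _
    rwa [side_succ, side_zero, lf_sc] at h2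
  exact inB_cor c1 (h.near _ h1 _ hs.bd.2 ⟨_, c1, isCor_out_rg _⟩ _ rfl)

/-- The cell of a face of the new coarse region. -/
theorem cell_chain (h : StH U P Q γ f₀ y β βU D m₁ m₂) {b b' : ℤ × ℤ}
    (hb : b ∈ compT (P \ VQ P Q γ) f₀) (hbb : γ b' = γ b) :
    ChI (compT (P \ VQ P Q γ) f₀ ∩ {z | γ z = γ b}) b b' := by
  have hbV := h.RP hb
  have h1 : ∀ z, γ z = γ b → z ∈ P \ VQ P Q γ := fun z hz =>
    ⟨h.cell b z hz.symm hbV.1, fun hV => hbV.2 ⟨hbV.1, by
      obtain ⟨-, q, hq, hqz⟩ := hV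
      exact ⟨q, hq, hqz.trans hz⟩⟩⟩
  have h2 := chn_chI (h.conn b b' hbb.symm)
  clear hbb
  unfold ChI at h2
  induction h2 with
  | refl => exact ChI.refl _
  | @tail u v hu hs ih =>
    have h3 : u ∈ compT (P \ VQ P Q γ) f₀ := (ChI.mem (S := compT (P \ VQ P Q γ) f₀ ∩ {z | γ z = γ b})
      ⟨hb, rfl⟩ ih).1
    exact ih.tail ⟨hs.1, compT_step h3 hs.1 (h1 v hs.2), hs.2⟩

/-- **The target invariant at the start.** -/
theorem start_tgg (h : StH U P Q γ f₀ y β βU D m₁ m₂) {S : UE × Bool} {m k x : ℕ}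
    (hs : StW.Start W Q (compT (U \ Q) f₀) S m k x) (hUW : U ⊆ W) {b : ℤ × ℤ}
    (hb : γ b = γ (ahead (tgtS P (compT (P \ VQ P Q γ) f₀)))) {c r : ℤ} (hc0 : 0 ≤ c)
    (hc : ∀ x z, γ x = γ z → InB x c z) (hr : 2 * (max m₁ m₂ + 3 + c) ≤ r) :
    TgG (compT (U \ Q) f₀) (Mv.sqF r b) b (inF (compT (U \ Q) f₀) S x) := by
  obtain ⟨mU, mT, p', t', u', hr', hs'⟩ := h.relU
  have hmax := le_max_right m₁ m₂
  have hbn := h.tgt_near
  have ht := hr'.tgt
  have h1 := (tgg_of hr' hs' h.tgt_start (inB_mono (by omega) hbn)).2.2.2.2.2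
  rw [show max m₁ m₂ + 1 + 2 = max m₁ m₂ + 3 by ring] at h1
  set T := compT (U \ Q) f₀ with hT
  set b₀ := ahead (tgtS P (compT (P \ VQ P Q γ) f₀)) with hb₀
  have hTU : T ⊆ U := fun _ hf => (h.TU hf).1
  -- the first inner face
  have h2 : TgG T {f | InB y (max m₁ m₂ + 3) f} b₀ (inF T S x) := by
    have hkx := hs.kx
    rcases start_tip hs hs' h.QU hUW hTU with ⟨hS, hk, -, -⟩ | ⟨hS, hk, -, -, -⟩
    · rw [hS]
      exact h1 x (by omega)
    · have hsh : side T (tipS U T) (x + 1) = side T S x := by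
        rw [Nat.add_comm x 1, side_add, side_succ, side_zero, hS]
      have h3 := h1 (x + 1) (by omega)
      rw [hsh] at h3
      exact h3
  -- the cell
  obtain ⟨mP, mR, pP, tP, uP, hrP, hsP⟩ := h.relP
  have hbR : b₀ ∈ compT (P \ VQ P Q γ) f₀ := hsP.bdRB.1
  have hcell : ∀ z, γ z = γ b₀ → InB y (max m₁ m₂ + 3 + c) z := by
    intro z hz
    have h3 := hc _ _ hz.symm
    unfold InB at *
    omega
  have h4 : ChI (T ∩ {f | InB y (max m₁ m₂ + 3 + c) f}) b₀ b :=
    chiMono (h.cell_chain hbR hb) fun z hz => ⟨h.RT hz.1, hcell z hz.2⟩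
  have h5 := h2.mono (S' := {f | InB y (max m₁ m₂ + 3 + c) f}) fun f hf => inB_mono (by omega) hf
  have hbb := hcell b hb
  have h6 : ∀ f, InB y (max m₁ m₂ + 3 + c) f → f ∈ Mv.sqF r b := by
    intro f hf
    unfold Mv.sqF
    rw [Set.mem_ofPred_eq, abs_le, abs_le]
    unfold InB at *
    omega
  have h7 : TgG T {f | InB y (max m₁ m₂ + 3 + c) f} b (inF T S x) := ⟨h5.1, h5.2.1, h5.2.2.trans h4⟩
  exact h7.mono h6

/-- **The true tip side is near the coarse tip side.** -/
theorem start_near (h : StH U P Q γ f₀ y β βU D m₁ m₂) {S A : UE × Bool} {m k x : ℕ}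
    (hs : StW.Start W Q (compT (U \ Q) f₀) S m k x) (hUW : U ⊆ W)
    (hA : γ (ahead A) = γ (ahead (tipS P (compT (P \ VQ P Q γ) f₀)))) {c r : ℤ} (hc0 : 0 ≤ c)
    (hc : ∀ x z, γ x = γ z → InB x c z) (hr : 2 * (max m₁ m₂ + 3 + c) ≤ r) :
    InB (lf A) r (rg S) ∧ InB (ahead A) r (rg S) := by
  have h1 := h.start_rg hs hUW
  have h2 := inB_cor' (isCor_in_rg _) h.tip_near
  have h3 := hc _ _ hA.symm
  have h4 : IsCor (ahead A) (lf A) := isCor_in_lf A
  have h5 := le_max_right m₁ m₂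
  unfold IsCor at h4
  unfold InB at *
  omega

end StH

end Pool.Agent.SixB.StartA
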