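import Pool.Agent.Lib.SixB.S8StartTip
import Pool.Agent.Lib.SixB.S8StartI

/-!
# Step 8: the start of a needle step, both kinds of needles

* `StH0.tip_start`: the tip at the start, needle without a hook;
* `StN`: the facts about the start which both cases share, `StH.stN`, `StH0.stN`;
* `StN.start_tgg`, `StN.start_near`, `StN.start_nbh`: the target, the tip, the neighbourhood of the tip
  for the true data `StW.Start`;
* `Ndl.stH0`: the hypotheses `StH0` for a clearance needle;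
* `start_both`: the result for a clearance needle with or without a hook.
-/

set_option autoImplicit false

namespace Pool.Agent.SixB.StartA

open Pool.Agent.Perc Pool.Agent.Perc6 Pool.Agent.Perc6.C2Aux Pool.Agent.Perc.Tips
open Pool.Agent.SixB.Top Pool.Agent.SixB.LC Pool.Agent.SixB.Mv

namespace StH0

variable {U P Q : Set (ℤ × ℤ)} {γ : ℤ × ℤ → ℤ × ℤ} {f₀ y : ℤ × ℤ} {β D : UE × Bool} {m₁ m₂ : ℤ}

/-- The cell at the first side of the new region after the tip. -/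
theorem cell_near_one (h : StH0 U P Q γ f₀ y β D m₁ m₂) {mR : ℕ}
    (hs : StartD P (VQ P Q γ) (compT (P \ VQ P Q γ) f₀) mR) :
    outF (compT (P \ VQ P Q γ) f₀) (tipS P (compT (P \ VQ P Q γ) f₀)) 1 ∈ VQ P Q γ ∧
    ∀ f, γ f = γ (outF (compT (P \ VQ P Q γ) f₀) (tipS P (compT (P \ VQ P Q γ) f₀)) 1) →
      InB y m₂ f := by
  have hv := hs.mid 1 Nat.one_pos hs.one
  refine ⟨hv, h.near _ hv _ hs.bd.2
    ⟨rg (tipS P (compT (P \ VQ P Q γ) f₀)), ?_, isCor_out_rg _⟩⟩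
  have h2 : IsCor (outF (compT (P \ VQ P Q γ) f₀) (tipS P (compT (P \ VQ P Q γ) f₀)) 1)
      (lf (side (compT (P \ VQ P Q γ) f₀) (tipS P (compT (P \ VQ P Q γ) f₀)) 1)) := isCor_out_lf _
  rwa [side_succ, side_zero, lf_sc] at h2

/-- **No far side between the tip and the linked side `E`.** -/
theorem no_far_tip (h : StH0 U P Q γ f₀ y β D m₁ m₂) {mP mR p t u mU mT p' t' u' : ℕ}
    (hr : Rel P (compT (P \ VQ P Q γ) f₀) β mP mR p t u)
    (hs : StartD P (VQ P Q γ) (compT (P \ VQ P Q γ) f₀) mR)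
    (hr' : Rel U (compT (U \ Q) f₀) β mU mT p' t' u')
    (hs' : StartD U Q (compT (U \ Q) f₀) mT) {i j : ℕ}
    (hE : lf (side (compT (U \ Q) f₀) (tipS U (compT (U \ Q) f₀)) i)
        = lf (side (compT (P \ VQ P Q γ) f₀) (tipS P (compT (P \ VQ P Q γ) f₀)) 1) ∨
      (outF (compT (P \ VQ P Q γ) f₀) (tipS P (compT (P \ VQ P Q γ) f₀)) 1 ∉ Q ∧
        ChI ({f | γ f = γ (outF (compT (P \ VQ P Q γ) f₀)
          (tipS P (compT (P \ VQ P Q γ) f₀)) 1)} \ Q)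
          (outF (compT (P \ VQ P Q γ) f₀) (tipS P (compT (P \ VQ P Q γ) f₀)) 1)
          (ahead (side (compT (U \ Q) f₀) (tipS U (compT (U \ Q) f₀)) i))))
    (hj : 0 < j) (hij : j < i) (hi : i < t') :
    InB y m₁ (outF (compT (U \ Q) f₀) (tipS U (compT (U \ Q) f₀)) j) := by
  by_contra hfar
  obtain ⟨hv, hK⟩ := h.cell_near_one hs
  set R := compT (P \ VQ P Q γ) f₀ with hR
  set T := compT (U \ Q) f₀ with hT
  set A := tipS P R with hA
  set A' := tipS U T with hA'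
  set v := outF R A 1 with hvd
  set K : Set (ℤ × ℤ) := {f | γ f = γ v} with hKd
  have htt := hr'.tgt
  set J := side T A' j with hJd
  have hJT : BD T J := bd_side hs'.cyc.bd j
  have hJQ : ahead (rv J) ∈ Q := hs'.mid j hj (by omega)
  have hJU := h.TU hJT.1
  obtain ⟨⟨haP, haB⟩, r, hrR, hch⟩ := h.lnk _ hJQ hfar _ hJU.1 hJU.2 (AdjF.symm (adjF_ahead J))
  have hJP' : ahead (rv J) ∈ P := h.QP hJQ
  have hJK : ahead J ∉ K := fun hh => haB (hK _ hh)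
  have hRS : R ⊆ (P \ Q) \ K := by
    intro f hf
    have h1 := h.RP hf
    exact ⟨⟨h1.1, fun hq => h1.2 (mem_VQ_of_Q h1.1 hq)⟩, fun hh => h1.2 (VQ_sat h.cell hh.symm hv)⟩
  have hBS : ((P \ Q) \ {f | InB y m₂ f} : Set (ℤ × ℤ)) ⊆ (P \ Q) \ K := fun f hf =>
    ⟨hf.1, fun hh => hf.2 (hK _ hh)⟩
  have hRc : Top.EConn R := econn_compT h.f0
  have hL : ChI ((P \ Q) \ K) (ahead D) (ahead J) := by
    have h1 : ChI R (ahead D) r := hRc _ h.bdD'.1 _ hrR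
    have h2 : ChI ((P \ Q) \ {f | InB y m₂ f}) r (ahead J) := ChI.symm ⟨⟨haP, hJU.2⟩, haB⟩ hch
    exact (h1.mono hRS).trans (h2.mono hBS)
  obtain ⟨x, hx, hxch⟩ := h.exit
  obtain ⟨e, M, Φ, C⟩ := exists_closed0 (K := K) h.escU h.finU h.PU h.bdB h.BQ h.bdU
    ⟨⟨haP, hJU.2⟩, hJK⟩ ⟨hJQ, hJP'⟩ (h.inn _ hJQ hJP') h.bdD (hRS h.bdD'.1)
    h.DQ hL hx hxch
  obtain ⟨c1, c2⟩ := closed_side C h.PU h.QP h.bdB h.bdD h.bdU haP hJP'
  -- the contour of `P`
  have e1 : Φ (rg A) = Φ (lf β) := hr.pot_tip h.bdD h.bdD' C.pot h.PU c1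
  -- the contour of `U`
  have e2 : Φ (rg A') = Φ (lf β) :=
    hr'.pot_tip C.bdE (h.bdT C.bdE C.eD) C.pot (subset_refl U) c2
  -- the contour of `T`
  have hTU : T ⊆ U := fun z hz => (h.TU hz).1
  have e4 : Φ (lf (side T A' i)) ≠ Φ (lf (side T A' 1)) := by
    refine pot_change C.pot hTU hs'.cyc.bd (r := j) (by omega) hij fun l h1 h2 => ?_
    constructor
    · intro hM
      rcases closed_T h C hJT (bd_side hs'.cyc.bd l) hM with h3 | h3
      · exact hs'.cyc.inj l (by have := hs'.le; omega) j (by have := hs'.le; omega) h3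
      · exfalso
        have h4 := hs'.mid l (by omega) (by omega)
        have h5 : BD U (side T A' l) := by rw [h3]; exact C.bdE
        exact h5.2 (h.QU h4)
    · rintro rfl
      exact C.memJ
  -- the link
  have e5 : Φ (lf (side T A' i)) = Φ (lf (side R A 1)) := by
    rcases hE with hE | ⟨hvQ, hE⟩
    · rw [hE]
    · have hKU : K \ Q ⊆ U := fun f hf => h.PU (VQ_sat h.cell hf.1.symm hv).1
      refine (pot_chain C.pot hKU (fun f hf a ha => closed_K h hv C hJK hJQ hf.1 hf.2 ha)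
        ⟨rfl, hvQ⟩ hE ?_ (isCor_in_lf _)).symm
      exact isCor_out_lf _
  have e6 : lf (side R A 1) = rg A := by rw [side_succ, lf_sc, side_zero]
  have e7 : lf (side T A' 1) = rg A' := by rw [side_succ, lf_sc, side_zero]
  apply e4
  rw [e5, e6, e1, e7, e2]

/-- **The tip at the start.** -/
theorem tip_start (h : StH0 U P Q γ f₀ y β D m₁ m₂) :
    ChI (compT (U \ Q) f₀ ∩ {f | InB y (max m₁ m₂ + 1) f})
      (ahead (tipS U (compT (U \ Q) f₀))) (ahead (tipS P (compT (P \ VQ P Q γ) f₀))) := by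
  obtain ⟨mP, mR, p, t, u, hr, hs⟩ := h.relP
  obtain ⟨mU, mT, p', t', u', hr', hs'⟩ := h.relU
  obtain ⟨hv, hK⟩ := h.cell_near_one hs
  have nf := fun {i j : ℕ} => h.no_far_tip hr hs hr' hs' (i := i) (j := j)
  have hRT := h.RT
  have hTU := h.TU
  set R := compT (P \ VQ P Q γ) f₀ with hR
  set T := compT (U \ Q) f₀ with hT
  set A := tipS P R with hA
  set A' := tipS U T with hA'
  set v := outF R A 1 with hvd
  set G : Set (ℤ × ℤ) := T ∩ {f | InB y (max m₁ m₂ + 1) f} with hG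
  have htt := hr'.tgt
  have hm1 : m₁ ≤ max m₁ m₂ := le_max_left _ _
  have hm2 : m₂ ≤ max m₁ m₂ := le_max_right _ _
  have big : ∀ {r : ℤ} {f : ℤ × ℤ}, r ≤ max m₁ m₂ + 1 → InB y r f → InB y (max m₁ m₂ + 1) f := by
    intro r f hr hf
    unfold InB at *
    omega
  have hBR : BD R (side R A 1) := bd_side hs.cyc.bd 1
  have hvk : IsCor v (lf (side R A 1)) := isCor_out_lf _
  have hvB : InB y m₂ v := hK v rfl
  have hlr : lf (side R A 1) = rg A := by rw [side_succ, lf_sc, side_zero]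
  have hB1 : ahead (side R A 1) ∈ G :=
    ⟨hRT hBR.1, big (r := m₂ + 1) (by omega) (StH.cor_near hvk (isCor_in_lf _) hvB)⟩
  have hA0 : ahead A ∈ G := by
    refine ⟨hRT hs.cyc.bd.1, big (r := m₂ + 1) (by omega) (StH.cor_near hvk ?_ hvB)⟩
    rw [hlr]
    exact isCor_in_rg _
  -- the last step, inside `R`
  have s3 : ChI G (ahead (side R A 1)) (ahead A) := by
    have h1 : ChI G (ahead A) (ahead (sc R A)) := by
      refine chiMono (inner_chain R A) fun z hz => ⟨hRT hz.1, ?_⟩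
      refine big (r := m₂ + 1) (by omega) (StH.cor_near hvk ?_ hvB)
      rw [hlr]
      exact hz.2
    have h2 := ChI.symm hA0 h1
    rwa [show sc R A = side R A 1 by rw [side_succ, side_zero]] at h2
  -- the side `E`
  obtain ⟨E, hET, hEQ, hEc, hEn, hEl⟩ : ∃ E, BD T E ∧ ahead (rv E) ∈ Q ∧
      ChI G (ahead E) (ahead (side R A 1)) ∧ (∃ f, IsCor f (lf E) ∧ InB y m₂ f) ∧
      (lf E = lf (side R A 1) ∨ (v ∉ Q ∧ ChI ({f | γ f = γ v} \ Q) v (ahead E))) := by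
    by_cases hvQ : v ∈ Q
    · exact ⟨side R A 1, ⟨hRT hBR.1, fun hh => (hTU hh).2 hvQ⟩, hvQ, ChI.refl _,
        ⟨v, hvk, hvB⟩, Or.inl rfl⟩
    · have hv' := hv
      obtain ⟨hvP, q, hq, hqv⟩ := hv'
      have h1 : ChI {w | γ w = γ v} v q := by
        have h2 := chn_joinIn (h.conn v q hqv.symm)
        exact h2
      obtain ⟨c, q', h3, h4, h5, h6, h7⟩ := first_entry (T := {w | γ w = γ v}) (D := Q) rfl hvQ h1 hq
      obtain ⟨E, rfl, rfl⟩ := exists_dir h6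
      have hvT : v ∈ T := compT_step (hRT hBR.1) (AdjF.symm (adjF_ahead (side R A 1)))
        ⟨h.PU hvP, hvQ⟩
      have hKU : ({w | γ w = γ v} \ Q : Set (ℤ × ℤ)) ⊆ U \ Q := fun f hf =>
        ⟨h.PU (VQ_sat h.cell hf.1.symm hv).1, hf.2⟩
      have hKT : ∀ f, ChI ({w | γ w = γ v} \ Q) v f → f ∈ T := fun f hf =>
        ChI.mem hvT (compT_chain hvT (hf.mono hKU))
      have hch : ChI G (ahead E) v := by
        have hET : ahead E ∈ T := hKT _ h3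
        have h9 : ChI (T ∩ {f | γ f = γ v}) (ahead E) v := by
          clear hET
          have h10 : ∀ z, ChI ({w | γ w = γ v} \ Q) v z → ChI (T ∩ {f | γ f = γ v}) v z := by
            intro z hz
            induction hz with
            | refl => exact ChI.refl _
            | @tail b c hb hs ih => exact ih.tail ⟨hs.1, hKT _ (hb.tail hs), hs.2.1⟩
          exact ChI.symm ⟨hvT, rfl⟩ (h10 _ h3)
        exact chiMono h9 fun z hz => ⟨hz.1, big (r := m₂) (by omega) (hK z hz.2)⟩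
      refine ⟨E, ⟨hKT _ h3, fun hh => (hTU hh).2 h7⟩, h7,
        hch.trans (ChI.single (adjF_ahead (side R A 1)) hB1),
        ⟨ahead E, isCor_in_lf _, hK _ h4⟩, Or.inr ⟨hvQ, h3⟩⟩
  obtain ⟨i, hi, hiE⟩ := hs'.cyc.exists_index hET
  have hnb : ¬ BD U (side T A' i) := by
    rw [hiE]
    exact fun hh => hh.2 (h.QU hEQ)
  have hi0 : i ≠ 0 := by
    rintro rfl
    exact hnb hs'.bd
  have hit : i < t' := by
    by_contra hge
    exact hnb (hs'.lst i (by omega) hi.le)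
  -- the contour of `T` from the tip to `E`
  have s1 : ∀ j, j ≤ i → ChI G (ahead A') (ahead (side T A' j)) := by
    intro j
    induction j with
    | zero => exact fun _ => ChI.refl _
    | succ j ih =>
      intro hji
      refine (ih (by omega)).trans ?_
      rw [side_succ]
      refine chiMono (inner_chain T (side T A' j)) fun z hz => ⟨hz.1, ?_⟩
      have hz2 : IsCor z (lf (side T A' (j + 1))) := by
        rw [side_succ, lf_sc]
        exact hz.2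
      rcases Nat.eq_or_lt_of_le hji with h1 | h1
      · obtain ⟨f, hf1, hf2⟩ := hEn
        rw [← hiE, ← h1] at hf1
        exact big (r := m₂ + 1) (by omega) (StH.cor_near hf1 hz2 hf2)
      · have h2 := nf (i := i) (j := j + 1) (by rw [hiE]; exact hEl) (by omega) h1 hit
        exact big (r := m₁ + 1) (by omega) (StH.cor_near (isCor_out_lf _) hz2 h2)
  have s2 := s1 i le_rfl
  rw [hiE] at s2
  exact s2.trans (hEc.trans s3)

end StH0

/-! ### The common facts -/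

/-- The start of a needle step, the facts which the two kinds of needles share. -/
structure StN (U P Q : Set (ℤ × ℤ)) (γ : ℤ × ℤ → ℤ × ℤ) (f₀ y : ℤ × ℤ) (m₁ m₂ : ℤ) : Prop where
  PU : P ⊆ U
  QU : Q ⊆ U
  cell : ∀ x z, γ x = γ z → x ∈ P → z ∈ P
  conn : ∀ x z, γ x = γ z → Chn {w | γ w = γ x} x z
  f0 : f₀ ∈ P \ VQ P Q γ
  sP : ∃ m, StartD P (VQ P Q γ) (compT (P \ VQ P Q γ) f₀) m
  sU : ∃ m, StartD U Q (compT (U \ Q) f₀) m
  nearQ : ∀ q ∈ Q, q ∉ P → InB y m₁ q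
  near : ∀ v ∈ VQ P Q γ, ∀ g, g ∉ P → (∃ w, IsCor v w ∧ IsCor g w) →
    ∀ f, γ f = γ v → InB y m₂ f
  tgn : InB y (m₂ + 1) (ahead (tgtS P (compT (P \ VQ P Q γ) f₀)))
  tgt : ChI (compT (U \ Q) f₀ ∩ {f | InB y (max m₁ m₂ + 1) f})
    (ahead (tgtS U (compT (U \ Q) f₀))) (ahead (tgtS P (compT (P \ VQ P Q γ) f₀)))
  tip : ChI (compT (U \ Q) f₀ ∩ {f | InB y (max m₁ m₂ + 1) f})
    (ahead (tipS U (compT (U \ Q) f₀))) (ahead (tipS P (compT (P \ VQ P Q γ) f₀)))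

theorem StH.stN {U P Q : Set (ℤ × ℤ)} {γ : ℤ × ℤ → ℤ × ℤ} {f₀ y : ℤ × ℤ} {β βU D : UE × Bool}
    {m₁ m₂ : ℤ} (h : StH U P Q γ f₀ y β βU D m₁ m₂) : StN U P Q γ f₀ y m₁ m₂ := by
  obtain ⟨mP, mR, p, t, u, -, hs⟩ := h.relP
  obtain ⟨mU, mT, p', t', u', -, hs'⟩ := h.relU
  exact ⟨h.PU, h.QU, h.cell, h.conn, h.f0, ⟨_, hs⟩, ⟨_, hs'⟩, h.nearQ, h.near, h.tgt_near,
    h.tgt_start, h.tip_start⟩

theorem StH0.stN {U P Q : Set (ℤ × ℤ)} {γ : ℤ × ℤ → ℤ × ℤ} {f₀ y : ℤ × ℤ} {β D : UE × Bool}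
    {m₁ m₂ : ℤ} (h : StH0 U P Q γ f₀ y β D m₁ m₂) : StN U P Q γ f₀ y m₁ m₂ := by
  obtain ⟨mP, mR, p, t, u, -, hs⟩ := h.relP
  obtain ⟨mU, mT, p', t', u', -, hs'⟩ := h.relU
  exact ⟨h.PU, h.QU, h.cell, h.conn, h.f0, ⟨_, hs⟩, ⟨_, hs'⟩,
    fun q hq hqP => absurd (h.QP hq) hqP, h.near, h.tgt_near, h.tgt_start, h.tip_start⟩

namespace StN

variable {U P Q W : Set (ℤ × ℤ)} {γ : ℤ × ℤ → ℤ × ℤ} {f₀ y : ℤ × ℤ} {m₁ m₂ : ℤ}

theorem subQ (h : StN U P Q γ f₀ y m₁ m₂) : P \ VQ P Q γ ⊆ U \ Q := fun _ hf =>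
  ⟨h.PU hf.1, fun hq => hf.2 (mem_VQ_of_Q hf.1 hq)⟩

theorem RT (h : StN U P Q γ f₀ y m₁ m₂) :
    compT (P \ VQ P Q γ) f₀ ⊆ compT (U \ Q) f₀ := compT_mono h.subQ

theorem TU (h : StN U P Q γ f₀ y m₁ m₂) : compT (U \ Q) f₀ ⊆ U \ Q :=
  compT_sub (h.subQ h.f0)

theorem RP (h : StN U P Q γ f₀ y m₁ m₂) :
    compT (P \ VQ P Q γ) f₀ ⊆ P \ VQ P Q γ := compT_sub h.f0

/-- A needle face at an old face is near the base. -/
theorem old_near (h : StN U P Q γ f₀ y m₁ m₂) {q g w : ℤ × ℤ} (hq : q ∈ Q) (hg : g ∉ U)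
    (hqw : IsCor q w) (hgw : IsCor g w) : InB y (max m₁ m₂) q := by
  have h1 := le_max_left m₁ m₂
  have h2 := le_max_right m₁ m₂
  by_cases hqP : q ∈ P
  · exact inB_mono h2 (h.near q (mem_VQ_of_Q hqP hq) g (fun hh => hg (h.PU hh)) ⟨w, hqw, hgw⟩ q rfl)
  · exact inB_mono h1 (h.nearQ q hq hqP)

/-- **The true tip side is near the base.** -/
theorem start_rg (h : StN U P Q γ f₀ y m₁ m₂) {S : UE × Bool} {m k x : ℕ}
    (hs : StW.Start W Q (compT (U \ Q) f₀) S m k x) (hUW : U ⊆ W) :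
    InB y (max m₁ m₂ + 1) (rg S) := by
  obtain ⟨mT, hs'⟩ := h.sU
  have hTU : compT (U \ Q) f₀ ⊆ U := fun _ hf => (h.TU hf).1
  rcases start_tip hs hs' h.QU hUW hTU with ⟨-, -, h0, h1⟩ | ⟨hS, -, -, h0, h1⟩
  · have c1 : IsCor (outF (compT (U \ Q) f₀) S 1) (rg S) := by
      have h2 : IsCor (outF (compT (U \ Q) f₀) S 1) (lf (side (compT (U \ Q) f₀) S 1)) := isCor_out_lf _
      rwa [side_succ, side_zero, lf_sc] at h2
    exact inB_cor c1 (h.old_near h1 (fun hh => h0 (hUW hh)) c1 (isCor_out_rg S))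
  · have c0 : IsCor (outF (compT (U \ Q) f₀) S 0) (lf S) := isCor_out_lf S
    have c1 : IsCor (outF (compT (U \ Q) f₀) (tipS U (compT (U \ Q) f₀)) 0) (lf S) := by
      rw [hS, lf_sc]
      exact isCor_out_rg _
    have h2 := h.old_near h1 (fun hh => h0 (hUW hh)) c0 c1
    exact inB_cor (isCor_out_rg S) h2

/-- The coarse tip side is near the base. -/
theorem tip_near (h : StN U P Q γ f₀ y m₁ m₂) :
    InB y (m₂ + 1) (rg (tipS P (compT (P \ VQ P Q γ) f₀))) := by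
  obtain ⟨mR, hs⟩ := h.sP
  have h1 := hs.mid 1 Nat.one_pos hs.one
  have c1 : IsCor (outF (compT (P \ VQ P Q γ) f₀) (tipS P (compT (P \ VQ P Q γ) f₀)) 1)
      (rg (tipS P (compT (P \ VQ P Q γ) f₀))) := by
    have h2 : IsCor (outF (compT (P \ VQ P Q γ) f₀) (tipS P (compT (P \ VQ P Q γ) f₀)) 1)
        (lf (side (compT (P \ VQ P Q γ) f₀) (tipS P (compT (P \ VQ P Q γ) f₀)) 1)) := isCor_out_lf _
    rwa [side_succ, side_zero, lf_sc] at h2
  exact inB_cor c1 (h.near _ h1 _ hs.bd.2 ⟨_, c1, isCor_out_rg _⟩ _ rfl)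

/-- The cell of a face of the new coarse region. -/
theorem cell_chain (h : StN U P Q γ f₀ y m₁ m₂) {b b' : ℤ × ℤ}
    (hb : b ∈ compT (P \ VQ P Q γ) f₀) (hbb : γ b' = γ b) :
    ChI (compT (P \ VQ P Q γ) f₀ ∩ {z | γ z = γ b}) b b' := by
  have hbV := h.RP hb
  have h1 : ∀ z, γ z = γ b → z ∈ P \ VQ P Q γ := fun z hz =>
    ⟨h.cell b z hz.symm hbV.1, fun hV => hbV.2 ⟨hbV.1, by
      obtain ⟨-, q, hq, hqz⟩ := hV
      exact ⟨q, hq, hqz.trans hz⟩⟩⟩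
  have h2 := chn_chI (h.conn b b' hbb.symm)
  clear hbb
  unfold ChI at h2
  induction h2 with
  | refl => exact ChI.refl _
  | @tail u v hu hs ih =>
    have h3 : u ∈ compT (P \ VQ P Q γ) f₀ := (ChI.mem (S := compT (P \ VQ P Q γ) f₀ ∩ {z | γ z = γ b})
      ⟨hb, rfl⟩ ih).1
    exact ih.tail ⟨hs.1, compT_step h3 hs.1 (h1 v hs.2), hs.2⟩

/-- **The target invariant at the start.** -/
theorem start_tgg (h : StN U P Q γ f₀ y m₁ m₂) {S : UE × Bool} {m k x : ℕ}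
    (hs : StW.Start W Q (compT (U \ Q) f₀) S m k x) (hUW : U ⊆ W) {b : ℤ × ℤ}
    (hb : γ b = γ (ahead (tgtS P (compT (P \ VQ P Q γ) f₀)))) {c r : ℤ} (hc0 : 0 ≤ c)
    (hc : ∀ x z, γ x = γ z → InB x c z) (hr : 2 * (max m₁ m₂ + 3 + c) ≤ r) :
    TgG (compT (U \ Q) f₀) (Mv.sqF r b) b (inF (compT (U \ Q) f₀) S x) := by
  obtain ⟨mT, hs'⟩ := h.sU
  obtain ⟨mR, hsP⟩ := h.sP
  have hmax := le_max_right m₁ m₂
  have hbn := h.tgn
  have htg := h.tgt
  set T := compT (U \ Q) f₀ with hT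
  set b₀ := ahead (tgtS P (compT (P \ VQ P Q γ) f₀)) with hb₀
  have hTU : T ⊆ U := fun _ hf => (h.TU hf).1
  have hm := chi_near htg (inB_mono (by omega) hbn)
  -- the side number `tgtN U T`
  have g2 : TgG T {f | InB y (max m₁ m₂ + 2) f} b₀ (ahead (side T (tipS U T) (tgtN U T))) :=
    ⟨(bd_side hs'.cyc.bd _).1, inB_mono (by omega) hm,
      chiMono htg fun z hz => ⟨hz.1, inB_mono (by omega) hz.2⟩⟩
  have h1 : ∀ j, j = tgtN U T ∨ j + 1 = tgtN U T →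
      TgG T {f | InB y (max m₁ m₂ + 3) f} b₀ (ahead (side T (tipS U T) j)) := by
    rintro j (rfl | hj)
    · exact g2.mono fun z hz => inB_mono (by omega) hz
    · have h3 := tgg_pred (k := j) hs'.cyc.bd (by rw [hj]; exact g2)
      rwa [show max m₁ m₂ + 2 + 1 = max m₁ m₂ + 3 by ring] at h3
  -- the first inner face
  have h2 : TgG T {f | InB y (max m₁ m₂ + 3) f} b₀ (inF T S x) := by
    have hkx := hs.kx
    rcases start_tip hs hs' h.QU hUW hTU with ⟨hS, hk, -, -⟩ | ⟨hS, hk, -, -, -⟩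
    · rw [hS]
      exact h1 x (by omega)
    · have hsh : side T (tipS U T) (x + 1) = side T S x := by
        rw [Nat.add_comm x 1, side_add, side_succ, side_zero, hS]
      have h3 := h1 (x + 1) (by omega)
      rw [hsh] at h3
      exact h3
  -- the cell
  have hbR : b₀ ∈ compT (P \ VQ P Q γ) f₀ := hsP.bdRB.1
  have hcell : ∀ z, γ z = γ b₀ → InB y (max m₁ m₂ + 3 + c) z := by
    intro z hz
    have h3 := hc _ _ hz.symm
    unfold InB at *
    omega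
  have h4 : ChI (T ∩ {f | InB y (max m₁ m₂ + 3 + c) f}) b₀ b :=
    chiMono (h.cell_chain hbR hb) fun z hz => ⟨h.RT hz.1, hcell z hz.2⟩
  have h5 := h2.mono (S' := {f | InB y (max m₁ m₂ + 3 + c) f}) fun f hf => inB_mono (by omega) hf
  have hbb := hcell b hb
  have h6 : ∀ f, InB y (max m₁ m₂ + 3 + c) f → f ∈ Mv.sqF r b := by
    intro f hf
    unfold Mv.sqF
    rw [Set.mem_ofPred_eq, abs_le, abs_le]
    unfold InB at *
    omega
  have h7 : TgG T {f | InB y (max m₁ m₂ + 3 + c) f} b (inF T S x) := ⟨h5.1, h5.2.1, h5.2.2.trans h4⟩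
  exact h7.mono h6

/-- **The true tip side is near the coarse tip side.** -/
theorem start_near (h : StN U P Q γ f₀ y m₁ m₂) {S A : UE × Bool} {m k x : ℕ}
    (hs : StW.Start W Q (compT (U \ Q) f₀) S m k x) (hUW : U ⊆ W)
    (hA : γ (ahead A) = γ (ahead (tipS P (compT (P \ VQ P Q γ) f₀)))) {c r : ℤ} (hc0 : 0 ≤ c)
    (hc : ∀ x z, γ x = γ z → InB x c z) (hr : 2 * (max m₁ m₂ + 3 + c) ≤ r) :
    InB (lf A) r (rg S) ∧ InB (ahead A) r (rg S) := by
  have h1 := h.start_rg hs hUW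
  have h2 := inB_cor' (isCor_in_rg _) h.tip_near
  have h3 := hc _ _ hA.symm
  have h4 : IsCor (ahead A) (lf A) := isCor_in_lf A
  have h5 := le_max_right m₁ m₂
  unfold IsCor at h4
  unfold InB at *
  omega

/-- **The true tip side and the coarse tip side are joined near the base.** -/
theorem start_nbh (h : StN U P Q γ f₀ y m₁ m₂) {S : UE × Bool}
    {m k x : ℕ} (hs : StW.Start W Q (compT (U \ Q) f₀) S m k x) (hUW : U ⊆ W) {b : ℤ × ℤ}
    (hb : γ b = γ (ahead (tipS P (compT (P \ VQ P Q γ) f₀)))) {c r : ℤ} (hc0 : 0 ≤ c)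
    (hc : ∀ x z, γ x = γ z → InB x c z) (hr : 2 * (max m₁ m₂ + 3 + c) ≤ r) :
    ahead S ∈ compT (U \ Q) f₀ ∩ Mv.sqF r b ∧
      ChI (compT (U \ Q) f₀ ∩ Mv.sqF r b) (ahead S) b := by
  obtain ⟨mT, hs'⟩ := h.sU
  obtain ⟨mR, hsP⟩ := h.sP
  have h1 := h.tip
  have hTU : compT (U \ Q) f₀ ⊆ U := fun _ hf => (h.TU hf).1
  have hst := start_tip hs hs' h.QU hUW hTU
  have hbR : ahead (tipS P (compT (P \ VQ P Q γ) f₀)) ∈ compT (P \ VQ P Q γ) f₀ := hsP.cyc.bd.1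
  have hbn : InB y (m₂ + 2) (ahead (tipS P (compT (P \ VQ P Q γ) f₀))) := by
    have h2 := inB_cor' (isCor_in_rg (tipS P (compT (P \ VQ P Q γ) f₀))) h.tip_near
    rwa [show m₂ + 1 + 1 = m₂ + 2 by ring] at h2
  set T := compT (U \ Q) f₀ with hT
  set b₀ := ahead (tipS P (compT (P \ VQ P Q γ) f₀)) with hb₀
  have hmax := le_max_right m₁ m₂
  have h2 : ChI (T ∩ {f | InB y (max m₁ m₂ + 1) f}) (ahead S) b₀ ∧
      InB y (max m₁ m₂ + 1) (ahead S) := by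
    rcases hst with ⟨hS, -, h0, h5⟩ | ⟨hS, -, -, h0, h5⟩
    · have c1 : IsCor (outF T S 1) (rg S) := by
        have h6 : IsCor (outF T S 1) (lf (side T S 1)) := isCor_out_lf _
        rwa [side_succ, side_zero, lf_sc] at h6
      refine ⟨by rw [hS]; exact h1, ?_⟩
      exact StH.cor_near c1 (isCor_in_rg _)
        (h.old_near h5 (fun hh => h0 (hUW hh)) c1 (isCor_out_rg S))
    · have c0 : IsCor (outF T S 0) (lf S) := isCor_out_lf S
      have c1 : IsCor (outF T (tipS U T) 0) (lf S) := by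
        rw [hS, lf_sc]
        exact isCor_out_rg _
      have h6 := h.old_near h5 (fun hh => h0 (hUW hh)) c0 c1
      have h7 : ChI (T ∩ {f | InB y (max m₁ m₂ + 1) f}) (ahead (tipS U T)) (ahead S) := by
        rw [hS]
        refine chiMono (inner_chain T (tipS U T)) fun z hz => ⟨hz.1, ?_⟩
        refine StH.cor_near c0 ?_ h6
        rw [hS, lf_sc]
        exact hz.2
      have h8 : ahead (tipS U T) ∈ T ∩ {f | InB y (max m₁ m₂ + 1) f} := by
        refine ⟨hs'.cyc.bd.1, ?_⟩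
        refine StH.cor_near c0 ?_ h6
        rw [hS, lf_sc]
        exact isCor_in_rg _
      exact ⟨(ChI.symm h8 h7).trans h1, StH.cor_near c0 (isCor_in_lf _) h6⟩
  -- the cell
  have hcell : ∀ z, γ z = γ b₀ → InB y (max m₁ m₂ + 3 + c) z := by
    intro z hz
    have h3 := hc _ _ hz.symm
    unfold InB at *
    omega
  have h4 : ChI (T ∩ {f | InB y (max m₁ m₂ + 3 + c) f}) b₀ b :=
    chiMono (h.cell_chain hbR hb) fun z hz => ⟨h.RT hz.1, hcell z hz.2⟩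
  have hbb := hcell b hb
  have h6 : ∀ f, InB y (max m₁ m₂ + 3 + c) f → f ∈ Mv.sqF r b := by
    intro f hf
    unfold Mv.sqF
    rw [Set.mem_ofPred_eq, abs_le, abs_le]
    unfold InB at *
    omega
  refine ⟨⟨hs.cyc.bd.1, h6 _ (inB_mono (by omega) h2.2)⟩, ?_⟩
  have h7 : ChI (T ∩ {f | InB y (max m₁ m₂ + 3 + c) f}) (ahead S) b₀ :=
    chiMono h2.1 fun z hz => ⟨hz.1, inB_mono (by omega) hz.2⟩
  replace h7 := h7.trans h4
  exact chiMono h7 fun z hz => ⟨hz.1, h6 z hz.2⟩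

end StN

/-! ### Clearance needles -/

section Ndl

variable {ι : Type*} {U P Q : Set (ℤ × ℤ)} {κ : ℤ × ℤ → ι} {γ : ℤ × ℤ → ℤ × ℤ} {y a z : ℤ × ℤ}
  {r l c d : ℤ}

/-- The hypotheses `StH0` for a clearance needle in `P`, with the base outside of `U`. -/
theorem Ndl.stH0 (N : Ndl P Q y a z r l c d) (A : App U P κ d) (hUf : U.Finite)
    (hUc : Top.EConn U) (hUe : Esc U) (hPc : Top.EConn P) (hPe : Esc P) (hQP : Q ⊆ P)
    (hγP : ∀ x y, γ x = γ y → x ∈ P → y ∈ P) (hγ : ∀ x y, γ x = γ y → Chn {z | γ z = γ x} x y)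
    (hdγ : ∀ x y, γ x = γ y → |x.1 - y.1| < d ∧ |x.2 - y.2| < d) (hyU : y ∉ U)
    (hr : 4 * d + c < r) :
    ∃ β D : UE × Bool, ahead β = a ∧ ahead (rv β) = y ∧ ¬ InB y (2 * r + 1) (ahead (rv D)) ∧
      StH0 U P Q γ z y β D (8 * d + 3 * c + 2) (4 * d + c) := by
  obtain ⟨β, hβ1, hβ2⟩ := exists_dir N.adj
  obtain ⟨D, hD, hD', hfar, x, hxU, -, hch⟩ := N.exists_D (hUf.subset A.sub) A hdγ
  have hd := N.d0
  have hc := N.c0
  have hz := N.z_mem hdγ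
  refine ⟨β, D, hβ1, hβ2, hfar, hUf, hUc, hUe, hPc, hPe, A.sub, hQP, hγP, hγ,
    ⟨by rw [hβ1]; exact N.aP, by rw [hβ2]; exact N.yP⟩, by rw [hβ1]; exact N.aQ,
    ⟨by rw [hβ1]; exact A.sub N.aP, by rw [hβ2]; exact hyU⟩, by rw [hβ1]; exact N.join, hz, hD,
    hD', fun hh => hD.2 (hQP hh), ⟨x, hxU, hch.mono fun f hf => ?_⟩,
    fun q hq hqn f hfU hfQ hfq => ?_, fun v hv g hg hw f hf => ?_⟩
  · rintro (h | h)
    · exact hf.1 h
    · exact hf.2.1 h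
  · obtain ⟨h3, h4, h5⟩ := N.join_R (s := 4 * d + c) (t := 8 * d + 3 * c + 2) (by omega) hr
      (by omega) hfQ hq hfq hqn
    refine ⟨⟨h4, h5⟩, z, self_mem_compT, ?_⟩
    exact chiMono h3 fun g hg => ⟨⟨hg.1, hg.2.1⟩, hg.2.2⟩
  · obtain ⟨w, hw1, hw2⟩ := hw
    exact N.cell_near hdγ hv hg hw1 hw2 hf.symm

/-- The needle with a hook (`y ∈ Q`), or the needle in `P` with the base outside of `U`. -/
theorem Ndl.stN (N : Ndl P Q y a z r l c d) (A : App U P κ d) (hUf : U.Finite)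
    (hUc : Top.EConn U) (hUe : Esc U) (hPc : Top.EConn P) (hPe : Esc P) (hQU : Q ⊆ U)
    (hγP : ∀ x y, γ x = γ y → x ∈ P → y ∈ P) (hγ : ∀ x y, γ x = γ y → Chn {z | γ z = γ x} x y)
    (hdγ : ∀ x y, γ x = γ y → |x.1 - y.1| < d ∧ |x.2 - y.2| < d) (hr : 4 * d + c < r)
    (hyQ : (y ∈ Q ∧ (∀ q ∈ Q, q ∉ P → JoinIn (Q \ P) y q) ∧
      ∃ βU, BD U βU ∧ ahead βU ∈ Q ∧ ahead βU ∉ P) ∨ (Q ⊆ P ∧ y ∉ U)) :
    StN U P Q γ z y (8 * d + 3 * c + 2) (4 * d + c) := by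
  rcases hyQ with ⟨h1, h2, βU, h3, h4, h5⟩ | ⟨h1, h2⟩
  · obtain ⟨β, D, -, -, -, h⟩ := N.stH A hUf hUc hUe hPc hPe hQU hγP hγ hdγ h1 h2 h3 h4 h5 hr
    exact h.stN
  · obtain ⟨β, D, -, -, -, h⟩ := N.stH0 A hUf hUc hUe hPc hPe h1 hγP hγ hdγ h2 hr
    exact h.stN

/-- **The start of a step for a clearance needle with or without a hook.** -/
theorem start_both (N : Ndl P Q y a z r l c d) (A : App U P κ d) (hUf : U.Finite)
    (hUc : Top.EConn U) (hUe : Esc U) (hPc : Top.EConn P) (hPe : Esc P) (hQU : Q ⊆ U)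
    (hγP : ∀ x y, γ x = γ y → x ∈ P → y ∈ P) (hγ : ∀ x y, γ x = γ y → Chn {z | γ z = γ x} x y)
    (hdγ : ∀ x y, γ x = γ y → |x.1 - y.1| < d ∧ |x.2 - y.2| < d) (hr : 4 * d + c < r)
    (hyQ : (y ∈ Q ∧ (∀ q ∈ Q, q ∉ P → JoinIn (Q \ P) y q) ∧
      ∃ βU, BD U βU ∧ ahead βU ∈ Q ∧ ahead βU ∉ P) ∨ (Q ⊆ P ∧ y ∉ U))
    {W : Set (ℤ × ℤ)} {S : UE × Bool} {m k x : ℕ}
    (hs : StW.Start W Q (compT (U \ Q) z) S m k x) (hUW : U ⊆ W) {A₀ : UE × Bool} {b : ℤ × ℤ}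
    (hA₀ : γ (ahead A₀) = γ (ahead (tipS P (compT (P \ VQ P Q γ) z))))
    (hb : γ b = γ (ahead (tgtS P (compT (P \ VQ P Q γ) z)))) {c' rr : ℤ} (hc0 : 0 ≤ c')
    (hc : ∀ x z, γ x = γ z → InB x c' z) (hrr : 2 * (8 * d + 3 * c + 5 + c') ≤ rr) :
    TgG (compT (U \ Q) z) (Mv.sqF rr b) b (inF (compT (U \ Q) z) S x) ∧
      InB (lf A₀) rr (rg S) ∧
      ahead S ∈ compT (U \ Q) z ∩ Mv.sqF rr (ahead A₀) ∧
      ChI (compT (U \ Q) z ∩ Mv.sqF rr (ahead A₀)) (ahead S) (ahead A₀) := by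
  have h := N.stN A hUf hUc hUe hPc hPe hQU hγP hγ hdγ hr hyQ
  have hd := N.d0
  have hc1 := N.c0
  have hmx : max (8 * d + 3 * c + 2) (4 * d + c) = 8 * d + 3 * c + 2 := max_eq_left (by omega)
  have hrr' : 2 * (max (8 * d + 3 * c + 2) (4 * d + c) + 3 + c') ≤ rr := by
    rw [hmx]
    omega
  obtain ⟨h1, h2⟩ := h.start_nbh hs hUW hA₀ hc0 hc hrr'
  exact ⟨h.start_tgg hs hUW hb hc0 hc hrr', (h.start_near hs hUW hA₀ hc0 hc hrr').1, h1, h2⟩

end Ndl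

end Pool.Agent.SixB.StartA
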