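import Pool.Agent.Lib.SixB.S8AppLink
import Pool.Agent.Lib.SixB.S8BarV

/-!
# Step 8: the junction of the walls on the contour of a coarse domain

`U` is the fresh component with the contour started at the true tip side: its sides `0, …, kt - 1` are
the even wall, its sides `kt, …, mU - 1` the odd wall. `P ⊆ U` is the coarse domain with classes `κ`
(`App`). Every side of `P` is linked to sides of `U` (`LinkK`).

* `links_alt`: four sides of `P` with links in disjoint sets respect alternation, for every choice of the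
  links;
* `Sm`: two sides of `P` have the same component behind them; `sm_pinch`, `sm_pinch'`: the sides with the
  same component form one cyclic interval;
* `junction`: if the side `0` of `P` is linked to the odd wall and the side `q₀` to the even wall, in
  different components, then there is an index `x ≤ q₀` such that the sides `< x` are linked to the odd
  wall and the sides in `[x, q₀]` to the even wall; a side `z` which is linked to the side `0` of `U` is
  in one component with all sides between `x` and `z`.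
-/

set_option autoImplicit false

namespace Pool.Agent.SixB.Top

open Finset Pool.Agent.Perc Pool.Agent.Perc6 Pool.Agent.Perc6.C2Aux Pool.Agent.Perc.Tips
open Pool.Agent.SixB.Mv

variable {ι : Type*} {U P : Set (ℤ × ℤ)} {κ : ℤ × ℤ → ι} {d : ℤ}

/-! ### Connectors -/

/-- A connector in a given set. -/
theorem exists_cnx_set {S : Set (ℤ × ℤ)} (hPU : P ⊆ U) (hSU : S ⊆ U) (hSP : ∀ k ∈ S, k ∉ P)
    {e t : UE} {f g h g' : ℤ × ℤ} (hf : f ∈ P) (hfe : IsSide f e) (hge : IsSide g e) (hgS : g ∈ S)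
    (hhS : h ∈ S) (hs : IsSide h t) (hgs' : IsSide g' t) (hg' : g' ∉ U) (hch : ChI S g h) :
    ∃ Γ, Cnx U P S e t f Γ := by
  classical
  have hfg : f ≠ g := fun h => hSP g hgS (h ▸ hf)
  have hhU : h ∈ U := hSU hhS
  have hhg' : h ≠ g' := fun hx => hg' (hx ▸ hhU)
  obtain ⟨-, T, hT, hTpar⟩ := chain_toggle (F := Sᶜ) (f := g) (g := h)
    (by simpa using hgS) (hch.stepC (by simp))
  have hTin : ∀ a ∈ T, ∀ k, IsSide k a → k ∈ S := by
    intro a ha k hk
    by_contra hkC
    exact hT a ha k hkC hk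
  have heT : e ∉ T := fun hx => hSP f (hTin e hx f hfe) hf
  have htT : t ∉ T := fun hx => hg' (hSU (hTin t hx g' hgs'))
  have het : e ≠ t := by
    intro hx
    rcases side_two hfg hfe hge (hx ▸ hgs' : IsSide g' e) with h1 | h1
    · exact hg' (h1 ▸ hPU hf)
    · exact hg' (h1 ▸ hSU hgS)
  refine ⟨symmDiff (symmDiff T {e}) {t}, ?_⟩
  have hmem : ∀ a, a ∈ symmDiff (symmDiff T {e}) {t} ↔ a ∈ T ∨ a = e ∨ a = t := by
    intro a
    rw [Set.mem_symmDiff, Set.mem_symmDiff, Set.mem_singleton_iff, Set.mem_singleton_iff]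
    constructor
    · tauto
    · rintro (h1 | h1 | h1)
      · have h2 : a ≠ e := fun hx => heT (hx ▸ h1)
        have h3 : a ≠ t := fun hx => htT (hx ▸ h1)
        tauto
      · subst h1
        tauto
      · have h2 : t ≠ e := fun hx => het hx.symm
        rw [h1]
        tauto
  have htwo : ∀ k, IsSide k t → k = h ∨ k = g' := fun k hk => side_two hhg' hs hgs' hk
  refine
    { subU := fun k hk => hSU hk
      subP := fun k hk => hSP k hk
      fP := hf
      par := ?_
      side := ?_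
      inP := ?_
      eG := (hmem e).2 (Or.inr (Or.inl rfl))
      bd := ?_
      tG := (hmem t).2 (Or.inr (Or.inr rfl))
      const := ?_ }
  · intro k hk
    rw [parAt_symmDiff, parAt_symmDiff, hTpar, parAt_side hfg hfe hge, parAt_side hhg' hs hgs',
      ind2_neg (fun hx : k = g' => hg' (hx ▸ hk))]
    generalize ind2 (k = g) = x
    generalize ind2 (k = h) = y
    generalize ind2 (k = f) = z
    revert x y z
    decide
  · intro a ha k hk hka
    rcases (hmem a).1 ha with h1 | h1 | h1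
    · exact Or.inl (hTin a h1 k hka)
    · subst h1
      rcases side_two hfg hfe hge hka with h2 | h2
      · exact Or.inr h2
      · left; rw [h2]; exact hgS
    · subst h1
      rcases htwo k hka with h2 | h2
      · left; rw [h2]; exact hhS
      · exact absurd (h2 ▸ hk) hg'
  · intro a ha hfa
    rcases (hmem a).1 ha with h1 | h1 | h1
    · exact absurd hf (hSP f (hTin a h1 f hfa))
    · exact h1
    · subst h1
      rcases htwo f hfa with h2 | h2
      · exact absurd hf (hSP f (by rw [h2]; exact hhS))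
      · exact absurd (hPU hf) (h2 ▸ hg')
  · rintro a ha ⟨-, x, hx, hxs⟩
    rcases (hmem a).1 ha with h1 | h1 | h1
    · exact absurd (hSU (hTin a h1 x hxs)) hx
    · subst h1
      rcases side_two hfg hfe hge hxs with h2 | h2
      · exact absurd (h2 ▸ hPU hf) hx
      · exact absurd (h2 ▸ hSU hgS) hx
    · exact h1
  · intro Φ hc he
    have h1 := lab_face_const (hc g hgS) hge
    have h2 := lab_face_const (hc h hhS) hs
    have h3 : Φ h = Φ g := by
      have key : ∀ y, ChI S g y → Φ y = Φ g := by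
        intro y hy
        induction hy with
        | refl => rfl
        | @tail b c hb hs' ih =>
          obtain ⟨⟨-, a, ha1, ha2⟩, hcS⟩ := hs'
          have hbS : b ∈ S := ChI.mem hgS hb
          have e1 := (lab_face_const (hc b hbS) ha1).1
          have e2 := (lab_face_const (hc c hcS) ha2).1
          rw [← ih, ← e1, ← e2]
      exact key h hch
    rw [h2.1, h2.2, h1.1, h3]
    exact ⟨rfl, rfl⟩

/-- The component of the class behind the side `B` of `P`, in `U`. -/
def capS (U : Set (ℤ × ℤ)) (κ : ℤ × ℤ → ι) (B : UE × Bool) : Set (ℤ × ℤ) :=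
  {x | ahead (rv B) ∈ U ∧ x ∈ capC U κ (ahead (rv B))}

variable {A B C B' C' : UE × Bool}

theorem capS_sub (hB : ahead (rv B) ∈ U) : capS U κ B ⊆ {x | κ x = κ (ahead (rv B))} ∩ U :=
  fun _ h => capC_le hB h.2

theorem capS_eq (h : ahead (rv B) ∈ U) : capS U κ B = capC U κ (ahead (rv B)) := by
  ext x
  exact ⟨fun hx => hx.2, fun hx => ⟨h, hx⟩⟩

theorem self_mem_capS (h : ahead (rv B) ∈ U) : ahead (rv B) ∈ capS U κ B := ⟨h, self_mem_compT⟩

/-- Two of these sets are equal or disjoint. -/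
theorem capS_or : capS U κ B = capS U κ B' ∨ Disjoint (capS U κ B) (capS U κ B') := by
  by_cases h : ∃ x, x ∈ capS U κ B ∧ x ∈ capS U κ B'
  · left
    obtain ⟨x, ⟨h1, h2⟩, h3, h4⟩ := h
    have e1 := (capC_le h1 h2).1
    have e3 := (capC_le h3 h4).1
    have e2 : compT ({y | κ y = κ (ahead (rv B))} ∩ U) x = capC U κ (ahead (rv B)) :=
      compT_eq (show ahead (rv B) ∈ {y | κ y = κ (ahead (rv B))} ∩ U from ⟨rfl, h1⟩) h2
    have e4 : compT ({y | κ y = κ (ahead (rv B'))} ∩ U) x = capC U κ (ahead (rv B')) :=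
      compT_eq (show ahead (rv B') ∈ {y | κ y = κ (ahead (rv B'))} ∩ U from ⟨rfl, h3⟩) h4
    have e5 : κ (ahead (rv B)) = κ (ahead (rv B')) := (e1 : κ x = _).symm.trans e3
    rw [capS_eq h1, capS_eq h3, ← e2, ← e4, e5]
  · right
    rw [Set.disjoint_left]
    intro x h1 h2
    exact h ⟨x, h1, h2⟩

/-- A link is a connector. -/
theorem cnx_of_link (h : App U P κ d) (hB : BD P B) (hC : BD U C) (hl : LinkK U κ B C) :
    ∃ Γ, Cnx U P (capS U κ B) B.1 C.1 (ahead B) Γ := by
  rcases hl with rfl | ⟨h1, h2⟩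
  · have h0 : capS U κ B = ∅ := by
      ext x
      constructor
      · exact fun hx => absurd hx.1 hC.2
      · exact fun hx => absurd hx (Set.notMem_empty x)
    rw [h0]
    exact ⟨_, cnx_self h.sub hB.1 (isSide_ahead B.1 B.2) (isSide_ahead B.1 (!B.2)) hC.2⟩
  · refine exists_cnx_set h.sub (fun x hx => (capS_sub h1 hx).2)
      (fun x hx => h.cap_notMem h1 hB.2 hx.2) hB.1 (isSide_ahead B.1 B.2)
      (isSide_ahead B.1 (!B.2)) (self_mem_capS h1) (show ahead C ∈ capS U κ B from ⟨h1, h2⟩)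
      (isSide_ahead C.1 C.2) (isSide_ahead C.1 (!C.2)) hC.2 ?_
    rw [capS_eq h1]
    exact compT_chain self_mem_compT h2

/-- Links transfer to sides with the same component. -/
theorem LinkK.same (hC : BD U C) (hl : LinkK U κ B C) (hU : ahead (rv B) ∈ U)
    (he : capS U κ B = capS U κ B') : LinkK U κ B' C := by
  rcases hl with rfl | ⟨h1, h2⟩
  · exact absurd hU hC.2
  · have h3 : ahead C ∈ capS U κ B' := by rw [← he]; exact ⟨h1, h2⟩
    exact Or.inr ⟨h3.1, h3.2⟩

/-- Links in disjoint sets end at different sides. -/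
theorem linkK_ne (h : App U P κ d) (hB : BD P B) (hB' : BD P B') (hne : B ≠ B')
    (hl : LinkK U κ B C) (hl' : LinkK U κ B' C')
    (hd : Disjoint (capS U κ B) (capS U κ B')) : C ≠ C' := by
  rintro rfl
  rcases hl with h1 | ⟨h1, h2⟩ <;> rcases hl' with h3 | ⟨h3, h4⟩
  · exact hne (h1.trans h3.symm)
  · exact h.cap_notMem h3 hB'.2 h4 (h1 ▸ hB.1)
  · exact h.cap_notMem h1 hB.2 h2 (h3 ▸ hB'.1)
  · exact Set.disjoint_left.1 hd (show ahead C ∈ capS U κ B from ⟨h1, h2⟩) ⟨h3, h4⟩

section Order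

variable {AU AP : UE × Bool} {mU mP kt : ℕ}

/-- **Links in disjoint sets respect alternation.** -/
theorem links_alt (h : App U P κ d) (hU : Cyc U AU mU) (hP : Cyc P AP mP) (cP : EConn P)
    {i k l p : ℕ} (hik : i < k) (hkl : k < l) (hlp : l < p) (hpm : p < mP) {a b c e : ℕ}
    (ha : a < mU) (hb : b < mU) (hc : c < mU) (he : e < mU)
    (la : LinkK U κ (side P AP i) (side U AU a)) (lb : LinkK U κ (side P AP k) (side U AU b))
    (lc : LinkK U κ (side P AP l) (side U AU c)) (le : LinkK U κ (side P AP p) (side U AU e))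
    (dki : Disjoint (capS U κ (side P AP k)) (capS U κ (side P AP i)))
    (dkl : Disjoint (capS U κ (side P AP k)) (capS U κ (side P AP l)))
    (dpi : Disjoint (capS U κ (side P AP p)) (capS U κ (side P AP i)))
    (dpl : Disjoint (capS U κ (side P AP p)) (capS U κ (side P AP l))) :
    b ≠ e ∧ a ≠ c ∧ (a ∈ Ico (min b e) (max b e) ↔ c ∉ Ico (min b e) (max b e)) := by
  have bP : ∀ i, BD P (side P AP i) := fun i => bd_side hP.bd i
  have bU : ∀ i, BD U (side U AU i) := fun i => bd_side hU.bd i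
  obtain ⟨Γi, ci⟩ := cnx_of_link h (bP i) (bU a) la
  obtain ⟨Γk, ck⟩ := cnx_of_link h (bP k) (bU b) lb
  obtain ⟨Γl, cl⟩ := cnx_of_link h (bP l) (bU c) lc
  obtain ⟨Γp, cp⟩ := cnx_of_link h (bP p) (bU e) le
  have hne : ∀ i j a b, i < mP → j < mP → i ≠ j →
      LinkK U κ (side P AP i) (side U AU a) → LinkK U κ (side P AP j) (side U AU b) →
      Disjoint (capS U κ (side P AP i)) (capS U κ (side P AP j)) → a ≠ b := by
    intro i j a b hi hj hij l1 l2 hd hab
    subst hab
    exact linkK_ne h (bP i) (bP j) (fun hh => hij (hP.inj i hi j hj hh)) l1 l2 hd rfl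
  have hcon' : ∀ f ∈ P, ∀ g ∈ P, Relation.ReflTransGen (StepC Pᶜ) f g := by
    intro f hf g hg
    exact (show ChI P f g from cP f hf g hg).stepC (by simp)
  exact Cnx.sep hU.ctr hP.ctr h.sub hcon' hik hkl hlp hpm ha hb hc he
    (joins_side i) (joins_side k) (joins_side l) (joins_side p)
    (joins_side a) (joins_side b) (joins_side c) (joins_side e) ci ck cl cp dki dkl dpi dpl
    (hne k i b a (by omega) (by omega) (by omega) lb la dki)
    (hne k l b c (by omega) (by omega) (by omega) lb lc dkl)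
    (hne p i e a (by omega) (by omega) (by omega) le la dpi)
    (hne p l e c (by omega) (by omega) (by omega) le lc dpl)

/-- The sides `i`, `j` of `P` have the same component behind them. -/
def Sm (U P : Set (ℤ × ℤ)) (κ : ℤ × ℤ → ι) (AP : UE × Bool) (i j : ℕ) : Prop :=
  capS U κ (side P AP i) = capS U κ (side P AP j) ∧ outF P AP i ∈ U ∧ outF P AP j ∈ U

theorem Sm.symm {i j : ℕ} (h : Sm U P κ AP i j) : Sm U P κ AP j i := ⟨h.1.symm, h.2.2, h.2.1⟩

theorem Sm.trans {i j k : ℕ} (h : Sm U P κ AP i j) (h' : Sm U P κ AP j k) : Sm U P κ AP i k :=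
  ⟨h.1.trans h'.1, h.2.1, h'.2.2⟩

theorem dis_of_not_sm {i j : ℕ} (h : ¬ Sm U P κ AP i j) :
    Disjoint (capS U κ (side P AP i)) (capS U κ (side P AP j)) := by
  rcases (capS_or : capS U κ (side P AP i) = capS U κ (side P AP j) ∨ _) with h1 | h1
  · by_cases hi : outF P AP i ∈ U
    · have h2 : outF P AP i ∈ capS U κ (side P AP j) := by
        rw [← h1]; exact self_mem_capS hi
      exact absurd ⟨h1, hi, h2.1⟩ h
    · rw [Set.disjoint_left]
      exact fun x hx => absurd hx.1 hi
  · exact h1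

theorem Sm.link (hU : BD U AU) {i j v : ℕ} (h : Sm U P κ AP i j)
    (hl : LinkK U κ (side P AP i) (side U AU v)) : LinkK U κ (side P AP j) (side U AU v) :=
  hl.same (bd_side hU v) h.2.1 h.1

/-- The outer faces of sides with the same component are in one class. -/
theorem Sm.class_eq {i j : ℕ} (h : Sm U P κ AP i j) : κ (outF P AP i) = κ (outF P AP j) := by
  have h1 : outF P AP i ∈ capS U κ (side P AP j) := by
    rw [← h.1]; exact self_mem_capS h.2.1
  exact (capS_sub h.2.2 h1).1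

/-- **A component belongs to one interval of the contour**, first form. -/
theorem sm_pinch (h : App U P κ d) (hU : Cyc U AU mU) (hP : Cyc P AP mP) (cP : EConn P)
    {i k l p : ℕ} (hik : i < k) (hkl : k < l) (hlp : l < p) (hpm : p < mP)
    (s : Sm U P κ AP i l) (n1 : ¬ Sm U P κ AP i k) (n2 : ¬ Sm U P κ AP i p) : False := by
  have bP : ∀ i, BD P (side P AP i) := fun i => bd_side hP.bd i
  have hlk : ∀ i, ∃ a < mU, LinkK U κ (side P AP i) (side U AU a) := by
    intro i
    obtain ⟨C, hC, hl⟩ := exists_linkU h (bP i)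
    obtain ⟨c, hc, rfl⟩ := hU.exists_index hC
    exact ⟨c, hc, hl⟩
  obtain ⟨a, ha, la⟩ := hlk i
  obtain ⟨b, hb, lb⟩ := hlk k
  obtain ⟨e, he, le⟩ := hlk p
  have n3 : ¬ Sm U P κ AP k i := fun hh => n1 hh.symm
  have n4 : ¬ Sm U P κ AP k l := fun hh => n1 (s.trans hh.symm)
  have n5 : ¬ Sm U P κ AP p i := fun hh => n2 hh.symm
  have n6 : ¬ Sm U P κ AP p l := fun hh => n2 (s.trans hh.symm)
  exact (links_alt h hU hP cP hik hkl hlp hpm ha hb ha he la lb (s.link hU.bd la) le
    (dis_of_not_sm n3) (dis_of_not_sm n4) (dis_of_not_sm n5) (dis_of_not_sm n6)).2.1 rfl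

/-- Second form. -/
theorem sm_pinch' (h : App U P κ d) (hU : Cyc U AU mU) (hP : Cyc P AP mP) (cP : EConn P)
    {i k l p : ℕ} (hik : i < k) (hkl : k < l) (hlp : l < p) (hpm : p < mP)
    (s : Sm U P κ AP k p) (n1 : ¬ Sm U P κ AP k i) (n2 : ¬ Sm U P κ AP k l) : False := by
  have bP : ∀ i, BD P (side P AP i) := fun i => bd_side hP.bd i
  have hlk : ∀ i, ∃ a < mU, LinkK U κ (side P AP i) (side U AU a) := by
    intro i
    obtain ⟨C, hC, hl⟩ := exists_linkU h (bP i)
    obtain ⟨c, hc, rfl⟩ := hU.exists_index hC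
    exact ⟨c, hc, hl⟩
  obtain ⟨a, ha, la⟩ := hlk i
  obtain ⟨b, hb, lb⟩ := hlk k
  obtain ⟨c, hc, lc⟩ := hlk l
  exact (links_alt h hU hP cP hik hkl hlp hpm ha hb hc hb la lb lc (s.link hU.bd lb)
    (dis_of_not_sm n1) (dis_of_not_sm n2) (dis_of_not_sm fun hh => n1 (s.trans hh))
    (dis_of_not_sm fun hh => n2 (s.trans hh))).1 rfl

/-- **The junction.** -/
theorem junction (h : App U P κ d) (hU : Cyc U AU mU) (hP : Cyc P AP mP) (cP : EConn P)
    {q₀ : ℕ} (hqm : q₀ < mP)
    (h0 : ∃ v, kt ≤ v ∧ v < mU ∧ LinkK U κ (side P AP 0) (side U AU v))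
    (h1 : ∃ v < kt, LinkK U κ (side P AP q₀) (side U AU v)) (hn : ¬ Sm U P κ AP 0 q₀) :
    ∃ x, 0 < x ∧ x ≤ q₀ ∧
      (∀ i < x, ∃ v, kt ≤ v ∧ v < mU ∧ LinkK U κ (side P AP i) (side U AU v)) ∧
      (∀ i, x ≤ i → i ≤ q₀ → ∃ v < kt, LinkK U κ (side P AP i) (side U AU v)) ∧
      ∀ z, z ≤ q₀ → outF P AP z ∈ U → LinkK U κ (side P AP z) (side U AU 0) → 0 < kt →
        ¬ Sm U P κ AP 0 z → ¬ Sm U P κ AP z q₀ →
        x ≤ z ∧ z < q₀ ∧ ∀ i, x ≤ i → i ≤ z → Sm U P κ AP i z := by
  classical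
  have bP : ∀ i, BD P (side P AP i) := fun i => bd_side hP.bd i
  have hlk : ∀ i, ∃ a < mU, LinkK U κ (side P AP i) (side U AU a) := by
    intro i
    obtain ⟨C, hC, hl⟩ := exists_linkU h (bP i)
    obtain ⟨c, hc, rfl⟩ := hU.exists_index hC
    exact ⟨c, hc, hl⟩
  set CR : ℕ → Prop := fun i => ∃ v < kt, LinkK U κ (side P AP i) (side U AU v) with hCR
  set CL : ℕ → Prop := fun i => ∃ v, kt ≤ v ∧ v < mU ∧ LinkK U κ (side P AP i) (side U AU v)
    with hCL
  have hor : ∀ i, CR i ∨ CL i := by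
    intro i
    obtain ⟨a, ha, la⟩ := hlk i
    rcases Nat.lt_or_ge a kt with h2 | h2
    · exact Or.inl ⟨a, h2, la⟩
    · exact Or.inr ⟨a, h2, ha, la⟩
  have hCRs : ∀ i j, Sm U P κ AP i j → CR i → CR j := by
    rintro i j hs ⟨v, hv, hl⟩
    exact ⟨v, hv, hs.link hU.bd hl⟩
  have hCLs : ∀ i j, Sm U P κ AP i j → CL i → CL j := by
    rintro i j hs ⟨v, hv, hv', hl⟩
    exact ⟨v, hv, hv', hs.link hU.bd hl⟩
  set TB : ℕ → Prop := fun i => ¬ Sm U P κ AP 0 i ∧ CR i with hTB
  have hex : ∃ i, TB i := ⟨q₀, hn, h1⟩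
  have hx := Nat.find_spec hex
  have hmin : ∀ i < Nat.find hex, ¬ TB i := fun i hi => Nat.find_min hex hi
  set x := Nat.find hex with hxdef
  have hxq : x ≤ q₀ := Nat.find_min' hex ⟨hn, h1⟩
  -- the side `0`
  have hTB0 : ¬ TB 0 := by
    rintro ⟨h2, v, hv, hl⟩
    by_cases h3 : outF P AP 0 ∈ U
    · exact h2 ⟨rfl, h3, h3⟩
    · obtain ⟨v', hv1, hv2, hl'⟩ := h0
      rcases hl with h4 | ⟨h4, -⟩
      · rcases hl' with h5 | ⟨h5, -⟩
        · have := hU.inj v (by omega) v' hv2 (h4.symm.trans h5)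
          omega
        · exact h3 h5
      · exact h3 h4
  have hx0 : 0 < x := by
    rcases Nat.eq_zero_or_pos x with h2 | h2
    · exact absurd (h2 ▸ hx) hTB0
    · exact h2
  -- no component of the side `0` after `x`
  have hS0 : ∀ i, x ≤ i → i ≤ q₀ → ¬ Sm U P κ AP 0 i := by
    intro i h2 h3 hs
    rcases Nat.eq_or_lt_of_le h2 with h4 | h4
    · exact hx.1 (h4 ▸ hs)
    rcases Nat.eq_or_lt_of_le h3 with h5 | h5
    · exact hn (h5 ▸ hs)
    exact sm_pinch h hU hP cP hx0 h4 h5 hqm hs hx.1 hn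
  -- the sides after `x`
  have hCRx : ∀ i, x ≤ i → i ≤ q₀ → CR i := by
    intro i h2 h3
    by_contra hc
    have hcl := (hor i).resolve_left hc
    have h4 : x ≠ i := fun hh => hc (hh ▸ hx.2)
    have h5 : i ≠ q₀ := fun hh => hc (hh ▸ h1)
    obtain ⟨a, ha1, ha2, la⟩ := h0
    obtain ⟨b, hb, lb⟩ := hx.2
    obtain ⟨c, hc1, hc2, lc⟩ := hcl
    obtain ⟨e, he, le⟩ := h1
    have hkey := (links_alt h hU hP cP (i := 0) (k := x) (l := i) (p := q₀) hx0 (by omega)
      (by omega) hqm ha2 (by omega) hc2 (by omega) la lb lc le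
      (dis_of_not_sm fun hh => hx.1 hh.symm) (dis_of_not_sm fun hh => hc (hCRs _ _ hh hx.2))
      (dis_of_not_sm fun hh => hn hh.symm)
      (dis_of_not_sm fun hh => hc (hCRs _ _ hh ⟨e, he, le⟩))).2.2
    simp only [Finset.mem_Ico] at hkey
    omega
  refine ⟨x, hx0, hxq, ?_, hCRx, ?_⟩
  · intro i hi
    by_cases hs : Sm U P κ AP 0 i
    · exact hCLs 0 i hs h0
    · exact (hor i).resolve_left fun hr => hmin i hi ⟨hs, hr⟩
  · intro z hzq hzU lz hkt0 hz0 hzq0
    have hzlt : z < q₀ := by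
      rcases Nat.eq_or_lt_of_le hzq with h2 | h2
      · exact absurd ⟨by rw [h2], hzU, h2 ▸ hzU⟩ hzq0
      · exact h2
    have hTz : TB z := ⟨hz0, 0, hkt0, lz⟩
    refine ⟨Nat.find_min' hex hTz, hzlt, ?_⟩
    intro i h2 h3
    by_contra hs
    have hiz : i ≠ z := by
      rintro rfl
      exact hs ⟨rfl, hzU, hzU⟩
    obtain ⟨a, ha1, ha2, la⟩ := h0
    obtain ⟨b, hb, lb⟩ := hCRx i h2 (by omega)
    obtain ⟨e, he, le⟩ := h1
    have hb0 : b ≠ 0 := by
      rintro rfl
      exact linkK_ne h (bP i) (bP z) (fun hh => hiz (hP.inj i (by omega) z (by omega) hh)) lb lz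
        (dis_of_not_sm hs) rfl
    have he0 : e ≠ 0 := by
      rintro rfl
      exact linkK_ne h (bP q₀) (bP z) (fun hh => by
        have := hP.inj q₀ hqm z (by omega) hh
        omega) le lz (dis_of_not_sm fun hh => hzq0 hh.symm) rfl
    have hkey := (links_alt h hU hP cP (i := 0) (k := i) (l := z) (p := q₀) (by omega) (by omega)
      hzlt hqm ha2 (by omega) (by omega) (by omega) la lb lz le
      (dis_of_not_sm fun hh => hS0 i h2 (by omega) hh.symm)
      (dis_of_not_sm hs) (dis_of_not_sm fun hh => hn hh.symm)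
      (dis_of_not_sm fun hh => hzq0 hh.symm)).2.2
    simp only [Finset.mem_Ico] at hkey
    omega

end Order

end Pool.Agent.SixB.Top
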