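import Pool.Agent.Lib.SixB.S8Ori
import Pool.Agent.Lib.SixB.S8LabJun
import Pool.Agent.Lib.SixB.S8StartN
import Pool.Agent.Lib.SixB.S8StartW
import Pool.Agent.Lib.SixB.S8MoveB

/-!
# Step 8: the labels at the start of a needle step

`W`: the fresh faces, `P ⊆ W`: the recorded disc (`App W P κ d`), `Q ⊆ W`: the needle (`Ndl`),
`T = compT (W \ Q) z`: the true domain with the contour of `StW.Start` (the sides `1, …, k - 1` are at the
needle, the sides `k, …, m - 1` are old, `x ∈ {k - 1, k}` is the target side),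
`R = compT (P \ VQ P Q γ) z`: the coarse domain with the classes `kapS`.

* `ord3`: three links in disjoint sets keep the cyclic order;
* `LabH`: the hypotheses; `LabH.far_V`, `LabH.far_O`: the links of the far sides of `R`;
* `LabH.lab`: the labels `LabP` of the contour of `R`, and `sep`;
* `LabH.lab_rep`: the same with classes which are named by faces; `LabH.near_lf`: the two tips.
-/

set_option autoImplicit false

namespace Pool.Agent.SixB.StL

open Pool.Agent.Perc Pool.Agent.Perc6 Pool.Agent.Perc6.C2Aux Pool.Agent.Perc.Tips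
open Pool.Agent.SixB.Top Pool.Agent.SixB.LC Pool.Agent.SixB.Mv Pool.Agent.SixB.StartA

/-! ### The order of links -/

section Order

variable {ι : Type*} {U P : Set (ℤ × ℤ)} {κ : ℤ × ℤ → ι} {d : ℤ} {AU AP B C : UE × Bool} {mU mP : ℕ}

theorem lkS_of_linkK (hl : LinkK U κ B C) : LkS (capS U κ B) B C := by
  rcases hl with h | ⟨h1, h2⟩
  · exact Or.inl h
  · refine Or.inr ⟨self_mem_capS h1, ?_⟩
    rw [capS_eq h1]
    exact compT_chain self_mem_compT h2

/-- **Three links in disjoint sets keep the cyclic order.** -/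
theorem ord3 (h : App U P κ d) (hUf : U.Finite) (hUe : Esc U) (hU : Cyc U AU mU)
    (hP : Cyc P AP mP) (cP : Top.EConn P) {i j l : ℕ} (hij : i < j) (hjl : j < l) (hl : l < mP)
    {a b c : ℕ} (ha : a < mU) (hb : b < mU) (hc : c < mU)
    (la : LinkK U κ (side P AP i) (side U AU a)) (lb : LinkK U κ (side P AP j) (side U AU b))
    (lc : LinkK U κ (side P AP l) (side U AU c))
    (dij : Disjoint (capS U κ (side P AP i)) (capS U κ (side P AP j)))
    (dil : Disjoint (capS U κ (side P AP i)) (capS U κ (side P AP l)))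
    (djl : Disjoint (capS U κ (side P AP j)) (capS U κ (side P AP l))) :
    (a < b ∧ b < c) ∨ (b < c ∧ c < a) ∨ (c < a ∧ a < b) := by
  have hS : ∀ i, ∀ f ∈ capS U κ (side P AP i), f ∈ U ∧ f ∉ P := fun i f hf =>
    ⟨(capS_sub hf.1 hf).2, h.cap_notMem hf.1 (bd_side hP.bd i).2 hf.2⟩
  exact cyc3 hUf hUe h.sub cP hP.bd (cycPer hP) hU.bd (cycPer hU) (hS i) (hS j) (hS l)
    (fun f h1 h2 => Set.disjoint_left.1 dij h1 h2) (fun f h1 h2 => Set.disjoint_left.1 dil h1 h2)
    (fun f h1 h2 => Set.disjoint_left.1 djl h1 h2) hij hjl hl ha hb hc (lkS_of_linkK la)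
    (lkS_of_linkK lb) (lkS_of_linkK lc)

end Order

/-! ### Other names of the classes -/

section Names

variable {ι ι' : Type*} {U P : Set (ℤ × ℤ)} {κ : ℤ × ℤ → ι} {κ' : ℤ × ℤ → ι'} {A τ B C : UE × Bool}
  {s s₀ : ℤ} {mP mU kt i₁ j₁ t j₂ i₂ : ℕ}

theorem capC_congr (hκ : ∀ x y, κ' x = κ' y ↔ κ x = κ y) (g : ℤ × ℤ) : capC U κ' g = capC U κ g := by
  unfold capC
  congr 2
  ext f
  exact hκ f g

theorem linkK_congr (hκ : ∀ x y, κ' x = κ' y ↔ κ x = κ y) : LinkK U κ' B C ↔ LinkK U κ B C := by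
  unfold LinkK
  rw [capC_congr hκ]

theorem labP_congr (hκ : ∀ x y, κ' x = κ' y ↔ κ x = κ y)
    (h : LabP U P κ A τ B s s₀ mP mU kt i₁ j₁ t j₂ i₂) :
    LabP U P κ' A τ B s s₀ mP mU kt i₁ j₁ t j₂ i₂ where
  cyc := h.cyc
  ij := h.ij
  jt := h.jt
  tj := h.tj
  ji := h.ji
  im := h.im
  tgt := h.tgt
  b i h1 h2 := by
    obtain ⟨w, hw, hl⟩ := h.b i h1 h2
    exact ⟨w, hw, (linkK_congr hκ).2 hl⟩
  l i h1 h2 := by
    obtain ⟨w, hw, hw', hl⟩ := h.l i h1 h2
    exact ⟨w, hw, hw', (linkK_congr hκ).2 hl⟩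
  nrA := h.nrA
  nrB := h.nrB

end Names

/-! ### First and last indices -/

theorem exists_lst {p : ℕ → Prop} {a b : ℕ} (h : ∃ i, a ≤ i ∧ i < b ∧ p i) :
    ∃ j, a ≤ j ∧ j < b ∧ p j ∧ ∀ i, j < i → i < b → ¬ p i := by
  classical
  obtain ⟨i, h1, h2, h3⟩ := h
  have hne : ((Finset.Ico a b).filter p).Nonempty :=
    ⟨i, Finset.mem_filter.2 ⟨Finset.mem_Ico.2 ⟨h1, h2⟩, h3⟩⟩
  obtain ⟨h4, h5⟩ := Finset.mem_filter.1 (Finset.max'_mem _ hne)
  rw [Finset.mem_Ico] at h4
  refine ⟨_, h4.1, h4.2, h5, fun i h6 h7 h8 => ?_⟩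
  have h9 := Finset.le_max' ((Finset.Ico a b).filter p) i
    (Finset.mem_filter.2 ⟨Finset.mem_Ico.2 ⟨by omega, h7⟩, h8⟩)
  omega

theorem exists_fst {p : ℕ → Prop} {a b : ℕ} (h : ∃ i, a ≤ i ∧ i < b ∧ p i) :
    ∃ j, a ≤ j ∧ j < b ∧ p j ∧ ∀ i, a ≤ i → i < j → ¬ p i := by
  classical
  obtain ⟨i, h1, h2, h3⟩ := h
  have hne : ((Finset.Ico a b).filter p).Nonempty :=
    ⟨i, Finset.mem_filter.2 ⟨Finset.mem_Ico.2 ⟨h1, h2⟩, h3⟩⟩
  obtain ⟨h4, h5⟩ := Finset.mem_filter.1 (Finset.min'_mem _ hne)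
  rw [Finset.mem_Ico] at h4
  refine ⟨_, h4.1, h4.2, h5, fun i h6 h7 h8 => ?_⟩
  have h9 := Finset.min'_le ((Finset.Ico a b).filter p) i
    (Finset.mem_filter.2 ⟨Finset.mem_Ico.2 ⟨h6, by omega⟩, h8⟩)
  omega

/-! ### The labels -/

/-- The hypotheses for the labels at the start. The sides `0, …, e` and `t` of `R` are near the base,
behind the sides `e + 1, …, t - 1` are faces of `VQ`, behind the sides `t, …, mR - 1` are faces outside of
`P`; the needle has a face far from the base. -/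
structure LabH {ι : Type*} (W P Q : Set (ℤ × ℤ)) (κ : ℤ × ℤ → ι) (γ : ℤ × ℤ → ℤ × ℤ) (y a z : ℤ × ℤ)
    (r l c d ρ : ℤ) (S A : UE × Bool) (m k x mR e t : ℕ) : Prop where
  N : Ndl P Q y a z r l c d
  Pf : P.Finite
  app : App W P κ d
  QW : Q ⊆ W
  hγP : ∀ x y, γ x = γ y → x ∈ P → y ∈ P
  hγ : ∀ x y, γ x = γ y → Chn {z | γ z = γ x} x y
  hdγ : ∀ x y, γ x = γ y → |x.1 - y.1| < d ∧ |x.2 - y.2| < d
  st : StW.Start W Q (compT (W \ Q) z) S m k x
  cyc : Cyc (compT (P \ VQ P Q γ) z) A mR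
  near : ∀ i ≤ e, InB y ρ (outF (compT (P \ VQ P Q γ) z) A i)
  vq : ∀ i, e < i → i < t → outF (compT (P \ VQ P Q γ) z) A i ∈ VQ P Q γ
  od : ∀ i, t ≤ i → i < mR → outF (compT (P \ VQ P Q γ) z) A i ∉ P
  tm : t < mR
  nearB : InB y ρ (outF (compT (P \ VQ P Q γ) z) A t)
  hρ : 4 * d + c + 8 ≤ ρ
  hρr : ρ ≤ r
  far : ∃ q ∈ Q, q ∈ P ∧ ¬ InB y (2 * ρ + c) q

namespace LabH

variable {ι : Type*} {W P Q : Set (ℤ × ℤ)} {κ : ℤ × ℤ → ι} {γ : ℤ × ℤ → ℤ × ℤ} {y a z : ℤ × ℤ}
  {r l c d ρ : ℤ} {S A : UE × Bool} {m k x mR e t : ℕ}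
  (H : LabH W P Q κ γ y a z r l c d ρ S A m k x mR e t)

include H

theorem zP : z ∈ P \ VQ P Q γ := H.N.z_mem H.hdγ

theorem zW : z ∈ W \ Q := ⟨H.app.sub H.zP.1, fun hz => H.zP.2 (mem_VQ_of_Q H.zP.1 hz)⟩

theorem apT : App (compT (W \ Q) z) (compT (P \ VQ P Q γ) z) (kapS κ P (VQ P Q γ) γ) d :=
  H.N.app H.app H.hγP H.hγ H.hdγ

theorem outT (w : ℕ) : outF (compT (W \ Q) z) S w ∉ W ∨ outF (compT (W \ Q) z) S w ∈ Q :=
  StU.start_cases (bd_side H.st.cyc.bd w)

theorem idxQ {w : ℕ} (hw : w < m) (h : outF (compT (W \ Q) z) S w ∈ Q) : w < k := by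
  by_contra hcon
  exact H.st.od w (by omega) hw (H.QW h)

theorem idxW {w : ℕ} (h : outF (compT (W \ Q) z) S w ∉ W) : w = 0 ∨ k ≤ w := by
  by_contra hcon
  exact h (H.QW (H.st.nd w (by omega) (by omega)))

/-- A side with a corner of a face of the needle and a corner of a face outside of `W` is near the
base. -/
theorem side_near {E : UE × Bool} {f g v v' : ℤ × ℤ} (hf : f ∈ Q) (hg : g ∉ W) (hfv : IsCor f v)
    (hgv : IsCor g v') (hv : v = lf E ∨ v = rg E) (hv' : v' = lf E ∨ v' = rg E) :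
    InB y (2 * d + c + 4) (ahead E) := by
  have h1 : IsCor (ahead E) v := by
    rcases hv with rfl | rfl
    · exact isCor_in_lf E
    · exact isCor_in_rg E
  have h2 : IsCor (ahead E) v' := by
    rcases hv' with rfl | rfl
    · exact isCor_in_lf E
    · exact isCor_in_rg E
  have h3 := H.N.d0
  have h5 := H.N.c0
  have h4 := H.N.clear (s := d + 1) hf (fun h => hg (H.app.sub h)) (by
    unfold IsCor at *
    unfold InB
    omega) (by omega)
  unfold IsCor at *
  unfold InB at *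
  omega

theorem near0 : InB y (2 * d + c + 4) (ahead (side (compT (W \ Q) z) S 0)) := by
  obtain ⟨g, hg, hgv⟩ := H.st.c0
  obtain ⟨f, hf, hfv⟩ := H.st.c1
  exact H.side_near hf hg hfv hgv (Or.inr rfl) (Or.inl rfl)

theorem nearx : InB y (2 * d + c + 4) (ahead (side (compT (W \ Q) z) S x)) := by
  obtain ⟨f, hf, hfv⟩ := H.st.t0
  obtain ⟨g, hg, hgv⟩ := H.st.t1
  exact H.side_near hf hg hfv hgv (Or.inl rfl) (Or.inr (vert_succ x))

theorem near_rg : InB y (2 * d + c + 5) (rg S) := by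
  have h1 := H.near0
  have h2 : IsCor (ahead S) (rg S) := isCor_in_rg S
  have h3 : side (compT (W \ Q) z) S 0 = S := rfl
  rw [h3] at h1
  unfold IsCor at h2
  unfold InB at *
  omega

/-- The inner face of a linked side is near the outer face. -/
theorem link_near {i w : ℕ} (hl : LinkK (compT (W \ Q) z) (kapS κ P (VQ P Q γ) γ)
    (side (compT (P \ VQ P Q γ) z) A i) (side (compT (W \ Q) z) S w)) :
    InB (ahead (side (compT (W \ Q) z) S w)) d (outF (compT (P \ VQ P Q γ) z) A i) := by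
  have hd := H.N.d0
  rcases hl with h | ⟨h1, h2⟩
  · have h3 := adjF_iff.1 (adjF_ahead (side (compT (W \ Q) z) S w))
    unfold outF
    rw [h]
    unfold InB
    rcases h3 with h3 | h3 | h3 | h3 <;> rw [h3] <;> simp only <;> omega
  · have h3 := H.apT.diam _ _ (capC_le h1 h2).1
    rw [abs_lt, abs_lt] at h3
    unfold outF InB
    omega

/-- Links of a far side do not end at the side `0` or at the side `x`. -/
theorem far_ne {i w : ℕ} (hf : ¬ InB y ρ (outF (compT (P \ VQ P Q γ) z) A i))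
    (hl : LinkK (compT (W \ Q) z) (kapS κ P (VQ P Q γ) γ)
      (side (compT (P \ VQ P Q γ) z) A i) (side (compT (W \ Q) z) S w)) : w ≠ 0 ∧ w ≠ x := by
  have hd := H.N.d0
  have hc := H.N.c0
  have h1 := H.link_near hl
  have h4 := H.hρ
  constructor
  · rintro rfl
    have h2 := H.near0
    apply hf
    unfold InB at *
    omega
  · rintro rfl
    have h2 := H.nearx
    apply hf
    unfold InB at *
    omega

/-- The outer face of a linked side, for a far side with a face of `VQ` behind it. -/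
theorem far_V {i w : ℕ} (hi : outF (compT (P \ VQ P Q γ) z) A i ∈ VQ P Q γ)
    (hf : ¬ InB y ρ (outF (compT (P \ VQ P Q γ) z) A i)) (hw : w < m)
    (hl : LinkK (compT (W \ Q) z) (kapS κ P (VQ P Q γ) γ)
      (side (compT (P \ VQ P Q γ) z) A i) (side (compT (W \ Q) z) S w)) : 0 < w ∧ w < x := by
  obtain ⟨h1, h2⟩ := H.far_ne hf hl
  have hd := H.N.d0
  have hc := H.N.c0
  have h4 := H.hρ
  have hQ : outF (compT (W \ Q) z) S w ∈ Q := by
    refine (H.outT w).resolve_left fun hW => ?_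
    rcases hl with h | ⟨h5, h6⟩
    · have h7 : outF (compT (W \ Q) z) S w = outF (compT (P \ VQ P Q γ) z) A i := by
        unfold outF; rw [h]
      rw [h7] at hW
      exact hW (H.app.sub hi.1)
    · have h7 := (capC_le h5 h6).1
      obtain ⟨h8, h9⟩ := kapS_eq_V hi h7.symm
      have h10 := adjF_iff.1 (adjF_ahead (side (compT (W \ Q) z) S w))
      have h11 := H.N.touch H.hdγ h8 (fun h => hW (H.app.sub h)) (s := 1) (by
        unfold outF InB
        rcases h10 with h3 | h3 | h3 | h3 <;> rw [h3] <;> simp only <;> omega) one_pos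
      have h12 := H.hdγ _ _ h9
      rw [abs_lt, abs_lt] at h12
      apply hf
      unfold outF at *
      unfold InB at *
      omega
  have h5 := H.idxQ hw hQ
  have h6 := H.st.kx
  omega

/-- The outer face of a linked side, for a far old side. -/
theorem far_O {i w : ℕ} (hi : outF (compT (P \ VQ P Q γ) z) A i ∉ P)
    (hf : ¬ InB y ρ (outF (compT (P \ VQ P Q γ) z) A i))
    (hl : LinkK (compT (W \ Q) z) (kapS κ P (VQ P Q γ) γ)
      (side (compT (P \ VQ P Q γ) z) A i) (side (compT (W \ Q) z) S w)) : x < w := by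
  obtain ⟨h1, h2⟩ := H.far_ne hf hl
  have hd := H.N.d0
  have hc := H.N.c0
  have h4 := H.hρ
  have hW : outF (compT (W \ Q) z) S w ∉ W := by
    refine (H.outT w).resolve_right fun hQ => ?_
    rcases hl with h | ⟨h5, h6⟩
    · have h7 : outF (compT (W \ Q) z) S w = outF (compT (P \ VQ P Q γ) z) A i := by
        unfold outF; rw [h]
      rw [h7] at hQ
      have h8 := H.N.hook _ hQ hi
      apply hf
      unfold InB at *
      omega
    · have h7 := (capC_le h5 h6).1
      obtain ⟨h8, h9⟩ := kapS_eq_out VQ_sub hi h7.symm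
      have h10 := adjF_iff.1 (adjF_ahead (side (compT (W \ Q) z) S w))
      have h11 := H.N.clear (s := d) hQ h8 (by
        unfold outF InB
        rcases h10 with h3 | h3 | h3 | h3 <;> rw [h3] <;> simp only <;> omega) (by omega)
      have h12 := H.app.diam _ _ h9
      rw [abs_lt, abs_lt] at h12
      apply hf
      unfold outF at *
      unfold InB at *
      rcases h10 with h3 | h3 | h3 | h3 <;> rw [h3] at h12 <;> simp only at h12 <;> omega
  have h5 := H.idxW hW
  have h6 := H.st.kx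
  omega

/-- Every side has a link. -/
theorem exists_link (i : ℕ) : ∃ w < m, LinkK (compT (W \ Q) z) (kapS κ P (VQ P Q γ) γ)
    (side (compT (P \ VQ P Q γ) z) A i) (side (compT (W \ Q) z) S w) := by
  obtain ⟨C, hC, hl⟩ := exists_linkU H.apT (bd_side H.cyc.bd i)
  obtain ⟨w, hw, rfl⟩ := H.st.cyc.exists_index hC
  exact ⟨w, hw, hl⟩

/-- A side with a face of `VQ` behind it has a link to a side at the needle. -/
theorem link_V {i : ℕ} (hi : outF (compT (P \ VQ P Q γ) z) A i ∈ VQ P Q γ) :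
    ∃ w < k, w < m ∧ LinkK (compT (W \ Q) z) (kapS κ P (VQ P Q γ) γ)
      (side (compT (P \ VQ P Q γ) z) A i) (side (compT (W \ Q) z) S w) := by
  have hT := H.st.sub
  have hout : ∀ b ∈ compT (W \ Q) z, ∀ f, AdjF b f → f ∈ W → f ∉ compT (W \ Q) z → f ∈ Q := by
    intro b hb f hbf hf hfT
    by_contra hfQ
    exact hfT (compT_step hb hbf ⟨hf, hfQ⟩)
  by_cases hg : outF (compT (P \ VQ P Q γ) z) A i ∈ compT (W \ Q) z
  · obtain ⟨q, hq, hqg⟩ := hi.2
    have hch := (chn_iff.1 (H.hγ _ _ hqg.symm)).2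
    have key : ∀ f, ChI {z' | γ z' = γ (outF (compT (P \ VQ P Q γ) z) A i)}
        (outF (compT (P \ VQ P Q γ) z) A i) f →
        (∃ C, BD (compT (W \ Q) z) C ∧ ahead C ∈ capC (compT (W \ Q) z) (kapS κ P (VQ P Q γ) γ)
          (outF (compT (P \ VQ P Q γ) z) A i) ∧ ahead (rv C) ∈ Q) ∨
        f ∈ capC (compT (W \ Q) z) (kapS κ P (VQ P Q γ) γ) (outF (compT (P \ VQ P Q γ) z) A i) := by
      intro f hf
      induction hf with
      | refl => exact Or.inr self_mem_compT
      | @tail b c' _ hs ih =>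
        rcases ih with ih | ih
        · exact Or.inl ih
        · have hcV : c' ∈ VQ P Q γ := VQ_sat H.hγP (show γ _ = γ c' from hs.2.symm) hi
          have hbT := (capC_le hg ih).2
          by_cases hcT : c' ∈ compT (W \ Q) z
          · right
            refine compT_step ih hs.1 ⟨?_, hcT⟩
            show kapS κ P (VQ P Q γ) γ c' = _
            rw [kapS_V hcV, kapS_V hi, show γ c' = _ from hs.2]
          · left
            obtain ⟨C, hC1, hC2⟩ := adjF_dir hs.1
            exact ⟨C, ⟨by rw [hC1]; exact hbT, by rw [hC2]; exact hcT⟩, by rw [hC1]; exact ih, by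
              rw [hC2]
              exact hout b hbT c' hs.1 (H.app.sub hcV.1) hcT⟩
    rcases key q hch with ⟨C, hC, hC', hCQ⟩ | hqT
    · obtain ⟨w, hw, rfl⟩ := H.st.cyc.exists_index hC
      exact ⟨w, H.idxQ hw hCQ, hw, Or.inr ⟨hg, hC'⟩⟩
    · exact absurd hq (hT (capC_le hg hqT).2).2
  · have hB := bd_side H.cyc.bd i
    have hBT : BD (compT (W \ Q) z) (side (compT (P \ VQ P Q γ) z) A i) :=
      ⟨H.apT.sub hB.1, hg⟩
    obtain ⟨w, hw, hwB⟩ := H.st.cyc.exists_index hBT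
    refine ⟨w, H.idxQ hw ?_, hw, Or.inl hwB.symm⟩
    unfold outF
    rw [hwB]
    exact hout _ hBT.1 _ (adjF_ahead _).symm (H.app.sub hi.1) hg

omit H in
/-- Classes of faces of `VQ` and of faces outside of `P` are disjoint. -/
theorem dis_VO {i j : ℕ} (hi : outF (compT (P \ VQ P Q γ) z) A i ∈ VQ P Q γ)
    (hj : outF (compT (P \ VQ P Q γ) z) A j ∉ P) :
    Disjoint (capS (compT (W \ Q) z) (kapS κ P (VQ P Q γ) γ) (side (compT (P \ VQ P Q γ) z) A i))
      (capS (compT (W \ Q) z) (kapS κ P (VQ P Q γ) γ) (side (compT (P \ VQ P Q γ) z) A j)) := by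
  rw [Set.disjoint_left]
  intro f h1 h2
  have h3 := (capS_sub h1.1 h1).1
  have h4 := (capS_sub h2.1 h2).1
  have h5 : kapS κ P (VQ P Q γ) γ (outF (compT (P \ VQ P Q γ) z) A i) =
      kapS κ P (VQ P Q γ) γ (outF (compT (P \ VQ P Q γ) z) A j) :=
    (show _ = _ from h3.symm).trans h4
  exact hj (kapS_eq_V hi h5).1.1

/-- There is a far side at the needle. -/
theorem exists_farV : ∃ i, e + 1 ≤ i ∧ i < t ∧
    ¬ InB y ρ (outF (compT (P \ VQ P Q γ) z) A i) := by
  obtain ⟨q, hq, hqP, hqf⟩ := H.far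
  have h1 := H.N.inn q hq hqP (r - ρ) (2 * ρ + c) hqf (by omega)
  have h2 := H.N.y_far
  have h3 := H.hρ
  have h4 := H.N.d0
  have h5 := H.N.c0
  have h6 := H.hρr
  have hz : InB z (r - ρ) z := by unfold InB; omega
  have hbox : ∀ f, InB z (r - ρ) f → f ∈ P ∧ ¬ InB y ρ f := by
    intro f hf
    refine ⟨H.N.box f ?_, fun hfy => h2 ?_⟩
    · unfold InB at *; omega
    · unfold InB at *; omega
  have key : ∀ f, ChI {f | InB z (r - ρ) f} z f → f ∈ compT (P \ VQ P Q γ) z ∨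
      ∃ B, BD (compT (P \ VQ P Q γ) z) B ∧ ahead (rv B) ∈ VQ P Q γ ∧ ¬ InB y ρ (ahead (rv B)) := by
    intro f hf
    induction hf with
    | refl => exact Or.inl self_mem_compT
    | @tail b c' _ hs ih =>
      rcases ih with ih | ih
      · by_cases hc : c' ∈ compT (P \ VQ P Q γ) z
        · exact Or.inl hc
        · right
          obtain ⟨h7, h8⟩ := hbox c' hs.2
          obtain ⟨C, hC1, hC2⟩ := adjF_dir hs.1
          refine ⟨C, ⟨by rw [hC1]; exact ih, by rw [hC2]; exact hc⟩, ?_, by rw [hC2]; exact h8⟩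
          rw [hC2]
          by_contra hV
          exact hc (compT_step ih hs.1 ⟨h7, hV⟩)
      · exact Or.inr ih
  rcases key q (chI_box hz h1) with h7 | ⟨B, hB, hBV, hBf⟩
  · exact absurd (mem_VQ_of_Q hqP hq) (compT_sub H.zP h7).2
  · obtain ⟨i, hi, rfl⟩ := H.cyc.exists_index hB
    refine ⟨i, ?_, ?_, hBf⟩
    · by_contra hcon
      exact hBf (H.near i (by omega))
    · by_contra hcon
      exact H.od i (by omega) hi hBV.1

/-- There is a far old side. -/
theorem exists_farO : ∃ i, t ≤ i ∧ i < mR ∧ ¬ InB y ρ (outF (compT (P \ VQ P Q γ) z) A i) := by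
  obtain ⟨D, hD, hD', hf, -⟩ := H.N.exists_D H.Pf H.app H.hdγ
  obtain ⟨i, hi, rfl⟩ := H.cyc.exists_index hD'
  have h3 := H.hρ
  have h4 := H.N.d0
  have h5 := H.N.c0
  have h6 := H.hρr
  have hf' : ¬ InB y ρ (outF (compT (P \ VQ P Q γ) z) A i) := by
    intro hh
    apply hf
    unfold outF at hh
    unfold InB at *
    omega
  refine ⟨i, ?_, hi, hf'⟩
  by_contra hcon
  rcases Nat.lt_or_ge e i with h | h
  · exact hD.2 (H.vq i h (by omega)).1
  · exact hf' (H.near i h)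

omit H in
theorem sq_of_inB {f g y : ℤ × ℤ} {ρ b s : ℤ} (h1 : InB y ρ f) (h2 : InB y b g) (hs : ρ + b ≤ s) :
    f ∈ Mv.sqF s g := by
  unfold Mv.sqF
  rw [Set.mem_ofPred_eq, abs_le, abs_le]
  unfold InB at *
  omega

omit H in
theorem inF_near {R : Set (ℤ × ℤ)} {i : ℕ} (h : InB y ρ (outF R A i)) : InB y (ρ + 1) (inF R A i) := by
  have h10 := adjF_iff.1 (adjF_ahead (side R A i))
  unfold outF at h
  unfold inF InB at *
  rcases h10 with h3 | h3 | h3 | h3 <;> rw [h3] <;> simp only <;> omega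

/-- **The labels at the start.** -/
theorem lab {B : UE × Bool} {b s : ℤ} (hB : side (compT (P \ VQ P Q γ) z) A t = B)
    (hAy : InB y b (ahead A)) (hBy : InB y b (ahead B)) (hs : ρ + 1 + b ≤ s) :
    ∃ j₁ j₂ i₂, LabP (compT (W \ Q) z) (compT (P \ VQ P Q γ) z) (kapS κ P (VQ P Q γ) γ) A S B s s
      mR m x e j₁ t j₂ i₂ ∧
      kapS κ P (VQ P Q γ) γ (outF (compT (P \ VQ P Q γ) z) A (j₁ - 1)) ≠
        kapS κ P (VQ P Q γ) γ (outF (compT (P \ VQ P Q γ) z) A (j₂ + 1)) := by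
  have hρ := H.hρ
  have hd := H.N.d0
  have hc := H.N.c0
  have hb0 : 0 ≤ b := by unfold InB at hAy; omega
  have hkx := H.st.kx
  have hxm := H.st.lt
  obtain ⟨iV, hV1, hV2, hV3, hV4⟩ := exists_lst H.exists_farV
  obtain ⟨iF, hF1, hF2, hF3, hF4⟩ := exists_fst H.exists_farO
  obtain ⟨iL, hL1, hL2, hL3, hL4⟩ := exists_lst H.exists_farO
  have hFL : iF ≤ iL := by
    by_contra hcon
    exact hF4 iL hL1 (by omega) hL3
  have hFt : t < iF := by
    rcases Nat.lt_or_ge t iF with h | h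
    · exact h
    · have : iF = t := by omega
      subst this
      exact absurd H.nearB hF3
  have hVq := H.vq iV (by omega) hV2
  have hFo := H.od iF hF1 hF2
  have hLo := H.od iL hL1 hL2
  obtain ⟨wV, -, hwVm, lV⟩ := H.link_V hVq
  obtain ⟨wF, hwF, lF⟩ := H.exists_link iF
  obtain ⟨wL, hwL, lL⟩ := H.exists_link iL
  have hwV := H.far_V hVq hV3 hwVm lV
  have hwF' := H.far_O hFo hF3 lF
  have hwL' := H.far_O hLo hL3 lL
  have hTf := H.st.fin
  have hTe := H.st.esc
  have hRc : Top.EConn (compT (P \ VQ P Q γ) z) := econn_compT H.zP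
  refine ⟨iV + 1, iF - 1, iL + 1, ⟨H.cyc, by omega, by omega, by omega, by omega, by omega, hB,
    fun i h1 h2 => ?_, fun i h1 h2 => ?_, fun i hi => ?_, fun i h1 h2 => ?_⟩, fun hh => ?_⟩
  · -- the sides at the needle
    have hiq := H.vq i h1 (by omega)
    obtain ⟨w, hwk, hwm, hl⟩ := H.link_V hiq
    rcases Nat.lt_or_ge w x with h3 | h3
    · exact ⟨w, h3, hl⟩
    by_cases hs : Sm (compT (W \ Q) z) (compT (P \ VQ P Q γ) z) (kapS κ P (VQ P Q γ) γ) A iV i
    · exact ⟨wV, hwV.2, hs.link H.st.cyc.bd lV⟩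
    exfalso
    have hne : i ≠ iV := by
      rintro rfl
      have := H.far_V hiq hV3 hwm hl
      omega
    have hord := ord3 H.apT hTf hTe H.st.cyc H.cyc hRc (i := i) (j := iV) (l := iF) (by omega)
      (by omega) hF2 hwm hwVm hwF hl lV lF (dis_of_not_sm fun hh => hs hh.symm) (dis_VO hiq hFo)
      (dis_VO hVq hFo)
    omega
  · -- the old sides
    have hio := H.od i (by omega) (by omega)
    obtain ⟨w, hwm, hl⟩ := H.exists_link i
    rcases Nat.lt_or_ge w x with h3 | h3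
    swap
    · exact ⟨w, h3, hwm, hl⟩
    by_cases hs : Sm (compT (W \ Q) z) (compT (P \ VQ P Q γ) z) (kapS κ P (VQ P Q γ) γ) A iF i
    · exact ⟨wF, by omega, hwF, hs.link H.st.cyc.bd lF⟩
    by_cases hs' : Sm (compT (W \ Q) z) (compT (P \ VQ P Q γ) z) (kapS κ P (VQ P Q γ) γ) A iL i
    · exact ⟨wL, by omega, hwL, hs'.link H.st.cyc.bd lL⟩
    exfalso
    have hneF : i ≠ iF := by
      rintro rfl
      have := H.far_O hio hF3 hl
      omega
    have hneL : i ≠ iL := by
      rintro rfl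
      have := H.far_O hio hL3 hl
      omega
    have o1 := ord3 H.apT hTf hTe H.st.cyc H.cyc hRc (i := iV) (j := iF) (l := i) (by omega)
      (by omega) (by omega) hwVm hwF hwm lV lF hl (dis_VO hVq hFo) (dis_VO hVq hio)
      (dis_of_not_sm hs)
    have o2 := ord3 H.apT hTf hTe H.st.cyc H.cyc hRc (i := iV) (j := i) (l := iL) (by omega)
      (by omega) hL2 hwVm hwm hwL lV hl lL (dis_VO hVq hio) (dis_VO hVq hLo)
      (dis_of_not_sm fun hh => hs' hh.symm)
    omega
  · -- near the tip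
    rcases hi with hi | ⟨h1, h2⟩
    · exact sq_of_inB (inF_near (H.near i hi)) hAy hs
    · rcases h2.lt_or_eq with h3 | h3
      · exact sq_of_inB (inF_near (not_not.1 fun hf => hL4 i (by omega) h3 hf)) hAy hs
      · subst h3
        have h4 : inF (compT (P \ VQ P Q γ) z) A i = ahead A := by
          unfold inF
          rw [H.cyc.per]
        rw [h4]
        have h5 : (0 : ℤ) ≤ s := by omega
        show |(ahead A).1 - (ahead A).1| ≤ s ∧ |(ahead A).2 - (ahead A).2| ≤ s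
        rw [sub_self, sub_self, abs_zero]
        exact ⟨h5, h5⟩
  · -- near the target
    refine sq_of_inB (inF_near ?_) hBy hs
    rcases Nat.lt_or_ge i t with h3 | h3
    · exact not_not.1 fun hf => hV4 i (by omega) h3 hf
    · exact not_not.1 fun hf => hF4 i h3 (by omega) hf
  · rw [Nat.add_sub_cancel, Nat.sub_add_cancel (by omega)] at hh
    exact hFo (kapS_eq_V hVq hh).1.1

/-- **The labels at the start**, the classes are named by faces. -/
theorem lab_rep {B : UE × Bool} {b s : ℤ} (hB : side (compT (P \ VQ P Q γ) z) A t = B)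
    (hAy : InB y b (ahead A)) (hBy : InB y b (ahead B)) (hs : ρ + 1 + b ≤ s) :
    ∃ κ' : ℤ × ℤ → ℤ × ℤ, App (compT (W \ Q) z) (compT (P \ VQ P Q γ) z) κ' d ∧
      ∃ j₁ j₂ i₂, LabP (compT (W \ Q) z) (compT (P \ VQ P Q γ) z) κ' A S B s s
      mR m x e j₁ t j₂ i₂ ∧
      κ' (outF (compT (P \ VQ P Q γ) z) A (j₁ - 1)) ≠
        κ' (outF (compT (P \ VQ P Q γ) z) A (j₂ + 1)) := by
  obtain ⟨κ', hκ, happ⟩ := H.apT.rep
  obtain ⟨j₁, j₂, i₂, h1, h2⟩ := H.lab hB hAy hBy hs
  exact ⟨κ', happ, j₁, j₂, i₂, labP_congr hκ h1, fun hh => h2 ((hκ _ _).1 hh)⟩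

/-- The true tip is near the coarse tip. -/
theorem near_lf {b : ℤ} (hAy : InB y b (ahead A)) : InB (lf A) (2 * d + c + 6 + b) (rg S) := by
  have h1 := H.near_rg
  have h2 := isCor_in_lf A
  unfold IsCor at h2
  unfold InB at *
  omega

end LabH

end Pool.Agent.SixB.StL
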