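import Pool.Agent.Lib.SixB.S8StartBU
import Pool.Agent.Lib.SixB.S8StartL

/-!
# Step 8: the hypotheses for the labels at the start of a needle step

`labH_of`: the instance of `LabH` for the magnified first domain after a needle, with the tip side
`subE u D.A 0` and the target side `subE u D.B 0`; `start_lab`: the conclusions of `LabH`.
-/

set_option autoImplicit false

namespace Pool.Agent.SixB.StartB

open Pool.Agent.Perc Pool.Agent.Perc6 Pool.Agent.Perc6.C2Aux Pool.Agent.Perc.Tips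
open Pool.Agent.SixB Pool.Agent.SixB.Top Pool.Agent.SixB.Mv Pool.Agent.SixB.Blow
open Pool.Agent.SixB.StartA Pool.Agent.SixB.LC Pool.Agent.SixB.Dct

/-- The ends of a side differ by a unit vector. -/
theorem abs_rg_lf (A : UE × Bool) : |(rg A).1 - (lf A).1| ≤ 1 ∧ |(rg A).2 - (lf A).2| ≤ 1 := by
  obtain ⟨⟨x, y, _ | _⟩, _ | _⟩ := A <;> simp [rg, lf]

/-- The pieces of a side are near the end of the last piece. -/
theorem near_piece {u : ℕ} {A : UE × Bool} {i : ℕ} (hi : i < u) :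
    InB (rg (subE u A ((u : ℤ) - 1))) u (lf (subE u A (i : ℤ))) := by
  obtain ⟨h1, h2⟩ := abs_rg_lf A
  rw [rg_subE_last, lf_subE]
  unfold InB
  simp only
  rw [abs_le] at h1 h2
  have hi' : (i : ℤ) < u := by exact_mod_cast hi
  have hi0 : (0 : ℤ) ≤ i := by positivity
  refine ⟨?_, ?_, ?_, ?_⟩ <;> nlinarith

theorem near_cor {y p f : ℤ × ℤ} {s t : ℤ} (h1 : InB y s p) (h2 : InB p t f) : InB y (s + t) f := by
  unfold InB at *
  omega

theorem near_mono {y f : ℤ × ℤ} {s t : ℤ} (h : InB y s f) (hst : s ≤ t) : InB y t f := by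
  unfold InB at *
  omega

theorem near_isCor {f v : ℤ × ℤ} (h : IsCor f v) : InB v 1 f := by
  unfold IsCor at h
  unfold InB
  omega

section inst

variable {ι : Type*} {V : Finset (ℤ × ℤ)} {C : Set (ℤ × ℤ)} {z : ℤ × ℤ} {u L : ℕ} {π : Prm}
  {κ : ℤ × ℤ → ι} {r l d ρ : ℤ} {r' m k x : ℕ} {S : UE × Bool}

/-- **The instance of `LabH`.** -/
theorem labH_of (hu : 0 < u) (hC : C.Finite) (cC : Top.EConn C) (eC : Esc C) (h2 : 2 ≤ L)
    (h3 : 3 * L ≤ Ndle.dlt (Hook.fin C) z) (hπ : π.ndl C z = Hook.ndC L C z)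
    (hne : (CSt.dom₀ π C z).A ≠ (CSt.dom₀ π C z).B)
    (HP : Hook.Pre V (blow u C) (Ndle.ndF u (Hook.fin C) z L) (Ndle.ndA u (Hook.fin C) z)
      (Ndle.ndB u (Hook.fin C) z) r')
    (N : Ndl (blow u C) (QF (Hook.hookU u L V C z).1) (Ndle.ndB u (Hook.fin C) z)
      (Ndle.ndA u (Hook.fin C) z) (Ndle.cen u z) r l (6 * u) d)
    (happ : App (FU V) (blow u C) κ d) (hud : (u : ℤ) ≤ d)
    (hQ : QF (Hook.hookU u L V C z).1 ⊆ FU V)
    (st : StW.Start (FU V) (QF (Hook.hookU u L V C z).1)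
      (compT (FU V \ QF (Hook.hookU u L V C z).1) (Ndle.cen u z)) S m k x)
    (hρ : 4 * d + 6 * u + 8 ≤ ρ) (hρr : ρ ≤ r) (hfar : 2 * (2 * ρ + 6 * u) ≤ u * ((L : ℤ) - 3)) :
    StL.LabH (FU V) (blow u C) (QF (Hook.hookU u L V C z).1) κ (cl u) (Ndle.ndB u (Hook.fin C) z)
      (Ndle.ndA u (Hook.fin C) z) (Ndle.cen u z) r l (6 * u) d ρ S (subE u (CSt.dom₀ π C z).A 0)
      m k x (u * cyl (CSt.dom₀ π C z).P (CSt.dom₀ π C z).A) (u - 1)
      (u * tgtN C (compT (C \ Hook.ndC L C z) z)) := by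
  have hu' : (0 : ℤ) < u := by exact_mod_cast hu
  have hL : L ≤ Ndle.dlt (Hook.fin C) z := by omega
  have hcen : cl u (Ndle.cen u z) = z := Ndle.cel_cen hu' z
  have hz : z ∈ C \ Hook.ndC L C z := ⟨z_mem (by omega), z_notMem (by omega)⟩
  have hR : compT (blow u C \ VQ (blow u C) (QF (Hook.hookU u L V C z).1) (cl u)) (Ndle.cen u z) =
      blow u (compT (C \ Hook.ndC L C z) z) := by
    rw [blow_dom0 hu' hL HP (by rw [hcen]; exact hz), hcen]
  have hV := vQ_hookU hu' hL HP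
  have hB := stB_of hu hC cC eC h2 h3 hπ
  obtain ⟨mc, hs⟩ := startD_coarse hC cC eC h2 h3
  obtain ⟨fR, cR, eR⟩ := rest_disc (z := z) hC eC h2 h3
  have hs' := startD_blow hu fR cR eR hs
  have hdγ : ∀ x y : ℤ × ℤ, cl u x = cl u y → |x.1 - y.1| < d ∧ |x.2 - y.2| < d := by
    intro x y hxy
    have := sqCell_diam hu' hxy
    exact ⟨this.1.trans_le hud, this.2.trans_le hud⟩
  have hD := dom0_eq (π := π) cC h2 h3 hπ
  have htip := N.tip_near hdγ (R := blow u (compT (C \ Hook.ndC L C z) z)) (m := u * mc)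
    (by rw [hV]; exact hs')
  have htgt := N.tgt_near hdγ (R := blow u (compT (C \ Hook.ndC L C z) z)) (m := u * mc)
    (by rw [hV]; exact hs')
  rw [tipS_blow hu hs] at htip
  rw [tgtS_blow hu hs] at htgt
  have htm : tgtN C (compT (C \ Hook.ndC L C z) z) < cyl (CSt.dom₀ π C z).P (CSt.dom₀ π C z).A := by
    refine lt_of_le_of_ne hB.le fun he => hne ?_
    have e1 := hs.cyc.cyl
    rw [hD] at he ⊢
    have he' : tgtN C (compT (C \ Hook.ndC L C z) z) = mc := he.trans e1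
    show tipS C (compT (C \ Hook.ndC L C z) z) = tgtS C (compT (C \ Hook.ndC L C z) z)
    unfold tgtS
    rw [he']
    exact hs.cyc.per.symm
  have hPeq : blow u (CSt.dom₀ π C z).P = blow u (compT (C \ Hook.ndC L C z) z) := by rw [hD]
  have hAeq : (CSt.dom₀ π C z).A = tipS C (compT (C \ Hook.ndC L C z) z) := by rw [hD]
  have hBeq : (CSt.dom₀ π C z).B = tgtS C (compT (C \ Hook.ndC L C z) z) := by rw [hD]
  refine ⟨N, blow_finite hu' hC, happ, hQ, ?_, ?_, hdγ, st, ?_, ?_, ?_, ?_, ?_, ?_, hρ, hρr, ?_⟩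
  · intro x y hxy hx
    rw [mem_blow] at hx ⊢
    rwa [← hxy]
  · intro x y hxy
    exact sqCell_chn hu' hxy
  · rw [hR, ← hPeq]
    exact hB.cyc
  · intro i hi
    rw [hR, ← hPeq]
    have hi' : i < u := by omega
    show InB _ ρ (ahead (rv (side (blow u (CSt.dom₀ π C z).P) (subE u (CSt.dom₀ π C z).A 0) i)))
    rw [hPeq, hAeq, side_blow hu hs.cyc.bd, Nat.div_eq_of_lt hi', Nat.mod_eq_of_lt hi']
    have h4 := near_cor (near_cor htip (near_piece (A := tipS C (compT (C \ Hook.ndC L C z) z)) hi'))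
      (near_isCor (isCor_out_lf _))
    exact near_mono h4 (by omega)
  · intro i hi hi'
    rw [hR, ← hPeq, hV]
    exact hB.mid i (by omega) hi'
  · intro i hi hi'
    rw [hR, ← hPeq]
    exact (hB.old1 i hi hi'.le).2
  · exact Nat.mul_lt_mul_of_pos_left htm hu
  · rw [hR, ← hPeq]
    show InB _ ρ (ahead (rv (side (blow u (CSt.dom₀ π C z).P) (subE u (CSt.dom₀ π C z).A 0) _)))
    rw [hB.tgt, hBeq]
    exact near_mono (near_cor htgt (near_isCor (isCor_out_lf _))) (by omega)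
  · obtain ⟨f, hf, hf'⟩ := far_face (C := Hook.fin C) (z := z) (t := 2 * ρ + 6 * u) hu'
      (by omega) hL hfar
    refine ⟨f, ?_, Hook.ndF_blow hu' hL hf, hf'⟩
    rw [Hook.qF_hookU]
    exact Or.inl (Finset.mem_coe.2 hf)

/-- The faces at the tip side and at the target side are near the base. -/
theorem near_AB (hu : 0 < u) (hC : C.Finite) (cC : Top.EConn C) (eC : Esc C) (h2 : 2 ≤ L)
    (h3 : 3 * L ≤ Ndle.dlt (Hook.fin C) z) (hπ : π.ndl C z = Hook.ndC L C z)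
    (HP : Hook.Pre V (blow u C) (Ndle.ndF u (Hook.fin C) z L) (Ndle.ndA u (Hook.fin C) z)
      (Ndle.ndB u (Hook.fin C) z) r')
    (N : Ndl (blow u C) (QF (Hook.hookU u L V C z).1) (Ndle.ndB u (Hook.fin C) z)
      (Ndle.ndA u (Hook.fin C) z) (Ndle.cen u z) r l (6 * u) d) (hud : (u : ℤ) ≤ d) :
    InB (Ndle.ndB u (Hook.fin C) z) (4 * d + 6 * u + 1) (ahead (subE u (CSt.dom₀ π C z).A 0)) ∧
    InB (Ndle.ndB u (Hook.fin C) z) (4 * d + 6 * u + 1) (ahead (subE u (CSt.dom₀ π C z).B 0)) := by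
  have hu' : (0 : ℤ) < u := by exact_mod_cast hu
  have hL : L ≤ Ndle.dlt (Hook.fin C) z := by omega
  have hV := vQ_hookU hu' hL HP
  obtain ⟨mc, hs⟩ := startD_coarse hC cC eC h2 h3
  obtain ⟨fR, cR, eR⟩ := rest_disc (z := z) hC eC h2 h3
  have hs' := startD_blow hu fR cR eR hs
  have hdγ : ∀ x y : ℤ × ℤ, cl u x = cl u y → |x.1 - y.1| < d ∧ |x.2 - y.2| < d := by
    intro x y hxy
    have := sqCell_diam hu' hxy
    exact ⟨this.1.trans_le hud, this.2.trans_le hud⟩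
  have hD := dom0_eq (π := π) cC h2 h3 hπ
  have htip := N.tip_near hdγ (R := blow u (compT (C \ Hook.ndC L C z) z)) (m := u * mc)
    (by rw [hV]; exact hs')
  have htgt := N.tgt_near hdγ (R := blow u (compT (C \ Hook.ndC L C z) z)) (m := u * mc)
    (by rw [hV]; exact hs')
  rw [tipS_blow hu hs] at htip
  rw [tgtS_blow hu hs] at htgt
  have hAeq : (CSt.dom₀ π C z).A = tipS C (compT (C \ Hook.ndC L C z) z) := by rw [hD]
  have hBeq : (CSt.dom₀ π C z).B = tgtS C (compT (C \ Hook.ndC L C z) z) := by rw [hD]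
  rw [hAeq, hBeq]
  constructor
  · have h4 := near_cor (near_cor htip (near_piece
      (A := tipS C (compT (C \ Hook.ndC L C z) z)) hu)) (near_isCor (isCor_in_lf _))
    exact near_mono h4 (by omega)
  · exact near_mono (near_cor htgt (near_isCor (isCor_in_lf _))) (by omega)

/-- The magnified first domain is the rest of the set without the cells of the needle. -/
theorem rest_blow (hu : 0 < u) (cC : Top.EConn C) (h2 : 2 ≤ L)
    (h3 : 3 * L ≤ Ndle.dlt (Hook.fin C) z) (hπ : π.ndl C z = Hook.ndC L C z)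
    (HP : Hook.Pre V (blow u C) (Ndle.ndF u (Hook.fin C) z L) (Ndle.ndA u (Hook.fin C) z)
      (Ndle.ndB u (Hook.fin C) z) r') :
    compT (blow u C \ VQ (blow u C) (QF (Hook.hookU u L V C z).1) (cl u)) (Ndle.cen u z) =
      blow u (CSt.dom₀ π C z).P := by
  have hu' : (0 : ℤ) < u := by exact_mod_cast hu
  have hcen : cl u (Ndle.cen u z) = z := Ndle.cel_cen hu' z
  have hz : z ∈ C \ Hook.ndC L C z := ⟨z_mem (by omega), z_notMem (by omega)⟩
  rw [blow_dom0 hu' (by omega) HP (by rw [hcen]; exact hz), hcen, dom0_eq cC h2 h3 hπ]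

/-- **The labels, the separation and the tip at the start of a needle step.** -/
theorem start_lab (hu : 0 < u) (hC : C.Finite) (cC : Top.EConn C) (eC : Esc C) (h2 : 2 ≤ L)
    (h3 : 3 * L ≤ Ndle.dlt (Hook.fin C) z) (hπ : π.ndl C z = Hook.ndC L C z)
    (hne : (CSt.dom₀ π C z).A ≠ (CSt.dom₀ π C z).B)
    (HP : Hook.Pre V (blow u C) (Ndle.ndF u (Hook.fin C) z L) (Ndle.ndA u (Hook.fin C) z)
      (Ndle.ndB u (Hook.fin C) z) r')
    (N : Ndl (blow u C) (QF (Hook.hookU u L V C z).1) (Ndle.ndB u (Hook.fin C) z)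
      (Ndle.ndA u (Hook.fin C) z) (Ndle.cen u z) r l (6 * u) d)
    (happ : App (FU V) (blow u C) κ d) (hud : (u : ℤ) ≤ d)
    (hQ : QF (Hook.hookU u L V C z).1 ⊆ FU V)
    (st : StW.Start (FU V) (QF (Hook.hookU u L V C z).1)
      (compT (FU V \ QF (Hook.hookU u L V C z).1) (Ndle.cen u z)) S m k x)
    (hρ : 4 * d + 6 * u + 8 ≤ ρ) (hρr : ρ ≤ r) (hfar : 2 * (2 * ρ + 6 * u) ≤ u * ((L : ℤ) - 3))
    {s : ℤ} (hs : ρ + 4 * d + 6 * u + 2 ≤ s) :
    (∃ κ' : ℤ × ℤ → ℤ × ℤ, App (compT (FU V \ QF (Hook.hookU u L V C z).1) (Ndle.cen u z))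
        (blow u (CSt.dom₀ π C z).P) κ' d ∧
      ∃ j₁ j₂ i₂, LabP (compT (FU V \ QF (Hook.hookU u L V C z).1) (Ndle.cen u z))
        (blow u (CSt.dom₀ π C z).P) κ' (subE u (CSt.dom₀ π C z).A 0) S
        (subE u (CSt.dom₀ π C z).B 0) s s (u * cyl (CSt.dom₀ π C z).P (CSt.dom₀ π C z).A) m x
        (u - 1) j₁ (u * tgtN C (compT (C \ Hook.ndC L C z) z)) j₂ i₂ ∧
      κ' (outF (blow u (CSt.dom₀ π C z).P) (subE u (CSt.dom₀ π C z).A 0) (j₁ - 1)) ≠
        κ' (outF (blow u (CSt.dom₀ π C z).P) (subE u (CSt.dom₀ π C z).A 0) (j₂ + 1))) ∧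
    InB (lf (subE u (CSt.dom₀ π C z).A 0)) s (rg S) := by
  have H := labH_of hu hC cC eC h2 h3 hπ hne HP N happ hud hQ st hρ hρr hfar
  have hB := stB_of hu hC cC eC h2 h3 hπ
  obtain ⟨hA1, hB1⟩ := near_AB hu hC cC eC h2 h3 hπ HP N hud
  have hR := rest_blow (V := V) hu cC h2 h3 hπ HP
  have h4 := H.lab_rep (s := s) (by rw [hR]; exact hB.tgt) hA1 hB1 (by omega)
  rw [hR] at h4
  exact ⟨h4, near_mono (H.near_lf hA1) (by omega)⟩

end inst

end Pool.Agent.SixB.StartB
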