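import Pool.Agent.Lib.SixB.S8StartH
import Pool.Agent.Lib.SixB.S8StartBoth
import Pool.Agent.Lib.SixB.S8StartLH

/-!
# Step 8: the true needle at the start of a step, tip and target

* `qF_both`: the two cases of `start_both` for the true needle: `y` is in `Q` and the hook ends at a side of
  the fresh region, or `Q ⊆ P` and `y` is not fresh;
* `comp_sub`, `app_comp`: the needle and `P` are in the component of `FU V` at the centre of `z`;
* `both_hook`: `start_both` for the true needle and the magnified first domain `D = dom₀`;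
* `both_sub`: the same for the pieces of the sides `D.A`, `D.B`.
-/

set_option autoImplicit false

namespace Pool.Agent.SixB.StartH

open Pool.Agent.Perc Pool.Agent.Perc6 Pool.Agent.Perc6.C2Aux Pool.Agent.Perc.Tips
open Pool.Agent.PercU Pool.Agent.PercX60
open Pool.Agent.SixB Pool.Agent.SixB.Top Pool.Agent.SixB.Mv
open Pool.Agent.SixB.Rule Pool.Agent.SixB.Dct Pool.Agent.SixB.Hook
open Pool.Agent.SixB.Ndle (sd ndF ndA ndB dlt cen)

section Both

variable {V : Finset (ℤ × ℤ)} {C : Set (ℤ × ℤ)} {z : ℤ × ℤ} {u : ℤ} {L r : ℕ}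
  (H : Pre V (blow u C) (ndF u (fin C) z L) (ndA u (fin C) z) (ndB u (fin C) z) r)

include H

/-- **The two cases of a hook.** -/
theorem qF_both {U : Set (ℤ × ℤ)} (hU : U ⊆ FU V) (hQU : QF (hookU u L V C z).1 ⊆ U) :
    (ndB u (fin C) z ∈ QF (hookU u L V C z).1 ∧
      (∀ q ∈ QF (hookU u L V C z).1, q ∉ blow u C →
        JoinIn (QF (hookU u L V C z).1 \ blow u C) (ndB u (fin C) z) q) ∧
      ∃ βU, BD U βU ∧ ahead βU ∈ QF (hookU u L V C z).1 ∧ ahead βU ∉ blow u C) ∨
    (QF (hookU u L V C z).1 ⊆ blow u C ∧ ndB u (fin C) z ∉ U) := by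
  rcases Nat.eq_zero_or_pos (hk (FU V) (blow u C) (ndB u (fin C) z)).2 with h | h
  · right
    refine ⟨fun f hf => ?_, fun hy => ?_⟩
    · rcases Finset.mem_union.1 (mem_qF.1 hf) with h1 | h1
      · exact H.sub f h1
      · obtain ⟨i, hi, -⟩ := mem_hkS.1 h1
        omega
    · have h1 := (hk_spec H.hook).last
      rw [h, (hk_spec H.hook).zero] at h1
      exact h1 (hU hy)
  · left
    refine ⟨mem_qF.2 (Finset.mem_union_right _ (mem_hkS.2 ⟨0, h, (hk_spec H.hook).zero⟩)),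
      qF_out H, ?_⟩
    have h1 : hkL (FU V) (blow u C) (ndA u (fin C) z) (ndB u (fin C) z) ∈
        QF (hookU u L V C z).1 := mem_qF.2 H.last_mem
    obtain ⟨B, hB, hB', -⟩ := Tube.exists_bd (hQU h1) (fun hE => H.hkE_notMem (hU hE)) H.adj_last
    refine ⟨B, hB, by rw [hB']; exact h1, ?_⟩
    rw [hB']
    unfold hkL
    rw [if_neg (by omega)]
    exact (hk_spec H.hook).out _ (by omega)

end Both

section Comp

variable {V : Finset (ℤ × ℤ)} {C : Set (ℤ × ℤ)} {z : ℤ × ℤ} {u d l : ℤ} {L : ℕ}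
  (hC : C.Finite) (hu : 0 < u) (h1 : 1 ≤ L) (hL : L ≤ dlt (fin C) z) (hd : 0 < d)
  (H : Pre V (blow u C) (ndF u (fin C) z L) (ndA u (fin C) z) (ndB u (fin C) z) (d - 1).toNat)
  (hl : u * (L + 1) - 1 ≤ l) (hdl : d ≤ l) (hr : l + d ≤ u * (dlt (fin C) z - 1)) (hud : u ≤ d)

include hC hu h1 hL hd H hl hdl hr hud

/-- The component of the rest of the needle. -/
theorem compT_comp : compT (compT (FU V) (cen u z) \ QF (hookU u L V C z).1) (cen u z) =
    compT (FU V \ QF (hookU u L V C z).1) (cen u z) :=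
  StW.compT_diff_eq (cen_mem hC hu h1 hL hd H hl hdl hr hud).1 self_mem_compT

variable (hPc : Top.EConn (blow u C))

include hPc

/-- The needle is in the component of the centre of `z`. -/
theorem comp_sub : QF (hookU u L V C z).1 ⊆ compT (FU V) (cen u z) := by
  intro q hq
  exact ChI.symm (qF_sub H hq) (cen_comp hC hu h1 hL hd H hl hdl hr hud hPc hq)

/-- The set `P` is in the component of the centre of `z`. -/
theorem blow_sub : blow u C ⊆ compT (FU V) (cen u z) :=
  sub_compT hPc H.fresh (cen_mem_P hC hu h1 hL hd H hl hdl hr hud).1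

/-- The approximation of the component. -/
theorem app_comp {ι : Type*} {κ : ℤ × ℤ → ι} (A : App (FU V) (blow u C) κ d) :
    App (compT (FU V) (cen u z)) (blow u C) κ d := by
  refine ⟨blow_sub hC hu h1 hL hd H hl hdl hr hud hPc, A.sat, A.cell, A.diam,
    fun f hf g hfg hg => ?_⟩
  obtain ⟨x, hx, hxU⟩ := A.out f hf g hfg hg
  exact ⟨x, hx, fun h =>
    hxU (compT_sub (cen_mem hC hu h1 hL hd H hl hdl hr hud).1 h)⟩

end Comp

section Inst

variable {V : Finset (ℤ × ℤ)} {C : Set (ℤ × ℤ)} {z : ℤ × ℤ} {u L : ℕ} {d l : ℤ} {π : Prm}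
  (hu : 0 < u) (hC : C.Finite) (cC : Top.EConn C) (eC : Esc C) (h2 : 2 ≤ L)
  (h3 : 3 * L ≤ dlt (fin C) z) (hπ : π.ndl C z = ndC L C z) (hd : 0 < d)
  (H : Pre V (blow u C) (ndF u (fin C) z L) (ndA u (fin C) z) (ndB u (fin C) z) (d - 1).toNat)
  (hl : u * (L + 1) - 1 ≤ l) (hdl : d ≤ l) (hr : l + d ≤ u * (dlt (fin C) z - 1))
  (hud : (u : ℤ) ≤ d)

include hu hC cC eC h2 h3 hπ hd H hl hdl hr hud

/-- **Tip and target at the start of a step, for the true needle.** -/
theorem both_hook {ι : Type*} {U : Set (ℤ × ℤ)} {κ : ℤ × ℤ → ι}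
    (hUeq : U = compT (FU V) (cen u z)) (A : App U (blow u C) κ d) (hVf : (FU V).Finite)
    (hVe : Esc (FU V)) (hr4 : 4 * d + 6 * u < u * (dlt (fin C) z - 1)) {S : UE × Bool}
    {m k x : ℕ} (hs : StW.Start (FU V) (QF (hookU u L V C z).1)
      (compT (FU V \ QF (hookU u L V C z).1) (cen u z)) S m k x) {A₀ : UE × Bool} {b : ℤ × ℤ}
    (hA₀ : Blow.cl u (ahead A₀) = ahead (CSt.dom₀ π C z).A)
    (hb : Blow.cl u b = ahead (CSt.dom₀ π C z).B) {rr : ℤ} (hrr : 16 * d + 38 * u + 10 ≤ rr) :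
    TgG (compT (FU V \ QF (hookU u L V C z).1) (cen u z)) (Mv.sqF rr b) b
        (inF (compT (FU V \ QF (hookU u L V C z).1) (cen u z)) S x) ∧
      LC.InB (lf A₀) rr (rg S) ∧
      ahead S ∈ compT (FU V \ QF (hookU u L V C z).1) (cen u z) ∩ Mv.sqF rr (ahead A₀) ∧
      ChI (compT (FU V \ QF (hookU u L V C z).1) (cen u z) ∩ Mv.sqF rr (ahead A₀)) (ahead S)
        (ahead A₀) := by
  have hu' : (0 : ℤ) < u := by exact_mod_cast hu
  have hL : L ≤ dlt (fin C) z := by omega
  have h1 : 1 ≤ L := by omega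
  have hPc : Top.EConn (blow u C) := Blow.econn_blow hu' cC
  have hPe : Esc (blow u C) := Esc.blow hu' eC
  have N := ndl_hook hC hu' h1 hL hd H hl hdl hr
  have hcen := cen_mem hC hu' h1 hL hd H hl hdl hr hud
  have e1 := compT_comp hC hu' h1 hL hd H hl hdl hr hud
  have hQU := comp_sub hC hu' h1 hL hd H hl hdl hr hud hPc
  have hRb := StartB.rest_blow (V := V) hu cC h2 h3 hπ H
  obtain ⟨mc, hsc⟩ := StartB.startD_coarse hC cC eC h2 h3
  have hD := StartB.dom0_eq (π := π) cC h2 h3 hπ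
  have hP0 : (CSt.dom₀ π C z).P = compT (C \ ndC L C z) z := by rw [hD]
  have hA : (CSt.dom₀ π C z).A = StartA.tipS C (compT (C \ ndC L C z) z) := by rw [hD]
  have hB : (CSt.dom₀ π C z).B = StartA.tgtS C (compT (C \ ndC L C z) z) := by rw [hD]
  have hsub : compT (FU V) (cen u z) ⊆ FU V := compT_sub hcen.1
  have hdγ := cl_diam hu' hud
  subst hUeq
  have key := StartA.start_both (γ := Blow.cl u) N A (hVf.subset hsub) (econn_compT hcen.1)
    (esc_compT hVf hVe hcen.1) hPc hPe hQU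
    (fun a b hab ha => by
      rw [Blow.mem_blow] at ha ⊢
      rwa [← hab])
    (fun a b hab => sqCell_chn hu' hab) hdγ hr4 (qF_both H hsub hQU)
    (S := S) (m := m) (k := k) (x := x) (W := FU V) (by rw [e1]; exact hs) hsub (A₀ := A₀) (b := b)
    (by
      rw [hRb, hP0, StartB.tipS_blow hu hsc, Blow.cl_ahead hu' _ (by omega) (by omega), hA₀, hA])
    (by
      rw [hRb, hP0, StartB.tgtS_blow hu hsc, Blow.cl_ahead hu' _ le_rfl hu', hb, hB])
    (c' := u) (rr := rr) hu'.le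
    (fun a b hab => by
      have h5 := sqCell_diam hu' hab
      rw [abs_lt, abs_lt] at h5
      unfold LC.InB
      omega) (by omega)
  rw [e1] at key
  exact key

/-- The same for the pieces of the sides `D.A`, `D.B`. -/
theorem both_sub {ι : Type*} {U : Set (ℤ × ℤ)} {κ : ℤ × ℤ → ι}
    (hUeq : U = compT (FU V) (cen u z)) (A : App U (blow u C) κ d) (hVf : (FU V).Finite)
    (hVe : Esc (FU V)) (hr4 : 4 * d + 6 * u < u * (dlt (fin C) z - 1)) {S : UE × Bool}
    {m k x : ℕ} (hs : StW.Start (FU V) (QF (hookU u L V C z).1)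
      (compT (FU V \ QF (hookU u L V C z).1) (cen u z)) S m k x) {i j : ℤ} (hi0 : 0 ≤ i)
    (hi : i < u) (hj0 : 0 ≤ j) (hj : j < u) {rr : ℤ} (hrr : 16 * d + 38 * u + 10 ≤ rr) :
    TgG (compT (FU V \ QF (hookU u L V C z).1) (cen u z))
        (Mv.sqF rr (ahead (Blow.subE u (CSt.dom₀ π C z).B j)))
        (ahead (Blow.subE u (CSt.dom₀ π C z).B j))
        (inF (compT (FU V \ QF (hookU u L V C z).1) (cen u z)) S x) ∧
      LC.InB (lf (Blow.subE u (CSt.dom₀ π C z).A i)) rr (rg S) ∧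
      ahead S ∈ compT (FU V \ QF (hookU u L V C z).1) (cen u z) ∩
        Mv.sqF rr (ahead (Blow.subE u (CSt.dom₀ π C z).A i)) ∧
      ChI (compT (FU V \ QF (hookU u L V C z).1) (cen u z) ∩
        Mv.sqF rr (ahead (Blow.subE u (CSt.dom₀ π C z).A i))) (ahead S)
        (ahead (Blow.subE u (CSt.dom₀ π C z).A i)) := by
  have hu' : (0 : ℤ) < u := by exact_mod_cast hu
  exact both_hook hu hC cC eC h2 h3 hπ hd H hl hdl hr hud hUeq A hVf hVe hr4 hs
    (Blow.cl_ahead hu' _ hi0 hi) (Blow.cl_ahead hu' _ hj0 hj) hrr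

end Inst

end Pool.Agent.SixB.StartH
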