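import Pool.Agent.Lib.SixB.S8RecSkel

/-!
# Step 8: the scales of a move

In lattice units: `D = ls d n (d m)` the side of the cells of the stage `m` (unit of the diameters of the
classes of the state), `L = ls d n (d (m + 1))` the side of the cells of the move, `E`, `ρ` the two scales
between them.

* `Scl c D E ρ L`: the quotients are at least `c`;
* `exists_scl`: the scales of a chain whose resolutions grow fast enough;
* `ls_eq_msh`: the side of the cells is the unit times `msh`;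
* `Scl.far16`, …: the inequalities of the kernel;
* `Sc.Dec`: decreasing resolutions; `Dec.dbl`, `Dec.rad`, `Dec.rad_ls`: the radii of a state are at most
  `3 * C * D`;
* `two_pow_card_fam`: the factor of the error;
* `rowEst_of_scl`: the row `RowEst` from the estimate of one past at these scales.
-/

set_option autoImplicit false

namespace Pool.Agent.SixB.Sc

open Filter Topology

/-- The scales of a move. -/
structure Scl (c D E ρ L : ℤ) : Prop where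
  D0 : 0 < D
  DE : c * D ≤ E
  Eρ : c * E ≤ ρ
  ρL : c * ρ ≤ L

namespace Scl

variable {c c' D E ρ L : ℤ}

theorem E0 (h : Scl c D E ρ L) (hc : 0 < c) : 0 < E :=
  lt_of_lt_of_le (mul_pos hc h.D0) h.DE

theorem ρ0 (h : Scl c D E ρ L) (hc : 0 < c) : 0 < ρ :=
  lt_of_lt_of_le (mul_pos hc (h.E0 hc)) h.Eρ

theorem L0 (h : Scl c D E ρ L) (hc : 0 < c) : 0 < L :=
  lt_of_lt_of_le (mul_pos hc (h.ρ0 hc)) h.ρL

/-- A smaller constant. -/
theorem mono (h : Scl c D E ρ L) (hc' : 0 < c') (hcc : c' ≤ c) : Scl c' D E ρ L where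
  D0 := h.D0
  DE := (mul_le_mul_of_nonneg_right hcc h.D0.le).trans h.DE
  Eρ := (mul_le_mul_of_nonneg_right hcc (h.E0 (hc'.trans_le hcc)).le).trans h.Eρ
  ρL := (mul_le_mul_of_nonneg_right hcc (h.ρ0 (hc'.trans_le hcc)).le).trans h.ρL

theorem D_le_E (h : Scl c D E ρ L) (hc : 1 ≤ c) : D ≤ E := by
  have := h.mono one_pos hc
  have := this.DE
  omega

theorem E_le_ρ (h : Scl c D E ρ L) (hc : 1 ≤ c) : E ≤ ρ := by
  have := h.mono one_pos hc
  have := this.Eρ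
  omega

theorem ρ_le_L (h : Scl c D E ρ L) (hc : 1 ≤ c) : ρ ≤ L := by
  have := h.mono one_pos hc
  have := this.ρL
  omega

end Scl

/-- **The scales exist.** `a = d m`, `b = d (m + 1)`. -/
theorem exists_scl (c : ℤ) : ∃ J : ℕ, ∀ (d : ℕ → ℕ) (a b n : ℕ), b + 3 * (J + 1) ≤ a → a ≤ d 0 →
    2 ^ d 0 ≤ n → Scl c (ls d n a) (ls d n (eS a b)) (ls d n (eR a b)) (ls d n b) := by
  obtain ⟨J, hJ⟩ := pow_unbounded_of_one_lt c (show (1 : ℤ) < 2 by norm_num)
  refine ⟨J, fun d a b n hab ha hn => ?_⟩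
  obtain ⟨h1, h2, h3⟩ := eS_eR hab
  have key : ∀ e e', e + J ≤ e' → e' ≤ d 0 → c * ls d n e' ≤ ls d n e := fun e e' h h' => by
    have h4 := ls_quot n h h'
    have h5 := mul_le_mul_of_nonneg_right hJ.le (ls_nonneg d n e')
    linarith [mul_comm (ls d n e') (2 ^ J)]
  exact ⟨ls_pos hn a, key _ _ h3 ha, key _ _ h2 (by omega), key _ _ h1 (by omega)⟩

/-- The gap between `E` and `ρ`. -/
theorem gap_le (d : ℕ → ℕ) {a b : ℕ} (n : ℕ) (hab : b + 3 ≤ a) (ha : a ≤ d 0) :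
    ls d n (eS a b) * 2 ^ gap a b ≤ ls d n (eR a b) := by
  obtain ⟨h1, h2, h3⟩ := eS_eR (gap_spec hab)
  exact ls_quot n h2 (by omega)

theorem gap_le_real (d : ℕ → ℕ) {a b : ℕ} (n : ℕ) (hab : b + 3 ≤ a) (ha : a ≤ d 0) :
    (ls d n (eS a b) : ℝ) * 2 ^ gap a b ≤ 1 * (ls d n (eR a b) : ℝ) := by
  rw [one_mul]
  exact_mod_cast gap_le d n hab ha

/-! ### Lattice units and unit cells -/

open Pool.Agent.SixB.Tru in
/-- The side of the cells of the stage `i` in lattice units. -/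
theorem ls_eq_msh (d : ℕ → ℕ) (n i : ℕ) : ls d n (d i) = (unt d n : ℤ) * Mv.msh d i := rfl

/-- The sides of the cells are multiples of `16`. -/
theorem ls_div {u : ℕ} {L : ℤ} (h : 16 ∣ L) : (u : ℤ) * (L / 16) = (u * L) / 16 := by
  rw [Int.mul_ediv_assoc _ h]

/-! ### The numbers of the kernel -/

/-- The outer arc is far from the tip: everything of size at most `30 * ρ` is smaller than the distance
`u * (L / 16)` of the stop sides from the tip and from the target. -/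
theorem Scl.far16 {c D E ρ L : ℤ} {u : ℕ} (h : Scl c D E ρ (u * L)) (hc : 512 ≤ c) (hL : 16 ∣ L) :
    30 * ρ < u * (L / 16) := by
  have h1 := (h.mono (c' := 512) (by norm_num) hc).ρL
  have h2 := h.ρ0 (by omega)
  rw [ls_div hL]
  omega

theorem Scl.far5 {c D E ρ L : ℤ} {u : ℕ} (h : Scl c D E ρ (u * L)) (hc : 512 ≤ c) (hL : 16 ∣ L)
    (hL0 : 0 < L) : 30 * ρ < u * (L / 5) := by
  have h1 := h.far16 hc hL
  have h2 : L / 16 ≤ L / 5 := by omega
  have h3 : (u : ℤ) * (L / 16) ≤ u * (L / 5) := mul_le_mul_of_nonneg_left h2 (by positivity)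
  omega

/-- The numbers of the kernel: `5 * ρ + 10 * E + 10` plus the displacements of size `c' * D` are at most
`10 * ρ`. -/
theorem Scl.kern {c D E ρ L : ℤ} (h : Scl c D E ρ L) (hc : 512 ≤ c) :
    5 * ρ + 10 * E + 10 + 100 * D ≤ 6 * ρ := by
  have h1 := h.mono (c' := 512) (by norm_num) hc
  have := h1.D0
  have := h1.DE
  have := h1.Eρ
  omega

/-- The gate width of the kernel. -/
theorem Scl.width {c D E ρ L : ℤ} (h : Scl c D E ρ L) (hc : 512 ≤ c) :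
    6 * ρ + 100 * D ≤ 7 * ρ := by
  have h1 := h.mono (c' := 512) (by norm_num) hc
  have := h1.D0
  have := h1.DE
  have := h1.Eρ
  omega

end Pool.Agent.SixB.Sc

namespace Pool.Agent.SixB

open Filter Topology Finset Pool.Agent.Perc

/-- The resolutions decrease along the stages. -/
def Sc.Dec (d : ℕ → ℕ) (N : ℕ) : Prop := ∀ i < N, d (i + 1) < d i

theorem Sc.Dec.anti {d : ℕ → ℕ} {N : ℕ} (h : Sc.Dec d N) : ∀ j ≤ N, ∀ i ≤ j, d j ≤ d i := by
  intro j
  induction j with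
  | zero =>
    intro _ i hi
    obtain rfl : i = 0 := by omega
    exact le_rfl
  | succ j ih =>
    intro hj i hi
    rcases hi.lt_or_eq with h1 | rfl
    · exact (h j (by omega)).le.trans (ih (by omega) i (by omega))
    · exact le_rfl

/-- The sides of the cells are doubled at least. -/
theorem Sc.Dec.dbl {d : ℕ → ℕ} {N : ℕ} (h : Sc.Dec d N) {j : ℕ} (hj : j < N) :
    2 * Mv.msh d j ≤ Mv.msh d (j + 1) := by
  have h1 := h j hj
  have h2 := h.anti j hj.le 0 (by omega)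
  unfold Mv.msh
  rw [← pow_succ']
  exact pow_le_pow_right₀ (by norm_num) (by omega)

/-- **The radii of a state**: the sum of the sides of the cells of the past stages. -/
theorem Sc.Dec.rad {d : ℕ → ℕ} {N : ℕ} (h : Sc.Dec d N) : ∀ m ≤ N,
    1 + ∑ j ∈ range (m + 1), Mv.msh d j ≤ 3 * Mv.msh d m := by
  intro m
  induction m with
  | zero =>
    intro _
    simp [Mv.msh]
  | succ m ih =>
    intro hm
    have h1 := ih (by omega)
    have h2 := h.dbl (j := m) (by omega)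
    have h3 : 0 < Mv.msh d m := by
      unfold Mv.msh
      positivity
    rw [sum_range_succ]
    omega

/-- The radii in lattice units. -/
theorem Sc.Dec.rad_ls {d : ℕ → ℕ} {N m : ℕ} (h : Sc.Dec d N) (hm : m ≤ N) (n : ℕ) {C : ℤ}
    (hC : 0 ≤ C) : C * ((Tru.unt d n : ℕ) : ℤ) * (1 + ∑ j ∈ range (m + 1), Mv.msh d j) ≤
      3 * C * Sc.ls d n (d m) := by
  rw [Sc.ls_eq_msh]
  have h1 := h.rad m hm
  have h2 : (0 : ℤ) ≤ C * ((Tru.unt d n : ℕ) : ℤ) := by positivity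
  have h3 := mul_le_mul_of_nonneg_left h1 h2
  linarith

theorem ChnD.Gro.dec {A : Type} {c : ChnD A} (hG : ∀ i e, e < c.G i e) {m : ℕ} {d : ℕ → ℕ}
    (h : c.Gro m d) : Sc.Dec d m := fun i hi => (hG i _).trans_le (h i hi)

namespace Mv

/-- The factor of the error of a move with resolution `ℓ`. -/
noncomputable def facB (κ ℓ : ℕ) : ℝ := 2 ^ (2 ^ (2 * 2 ^ (ℓ - κ) + 1) ^ 2)

theorem facB_pos (κ ℓ : ℕ) : 0 < facB κ ℓ := by
  unfold facB
  positivity

theorem Dom.two_pow_card_fam (s : Dom) {g : Grd} {κ ℓ : ℕ} (hM : g.M = 2 ^ (ℓ - κ)) :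
    (2 : ℝ) ^ (s.fam g).card ≤ facB κ ℓ := by
  unfold facB
  refine pow_le_pow_right₀ one_le_two ?_
  have h := Dom.card_fam (s := s) (g := g) (by rw [hM]; positivity)
  rw [hM] at h
  have e : ((2 : ℤ) ^ (ℓ - κ)).toNat = 2 ^ (ℓ - κ) := by
    rw [show ((2 : ℤ) ^ (ℓ - κ)) = ((2 ^ (ℓ - κ) : ℕ) : ℤ) by push_cast; rfl, Int.toNat_natCast]
  rwa [e] at h

end Mv

namespace Tru

open Pool.Agent.PercX60 Pool.Agent.SixB.Mv

/-- The estimate with a larger error. -/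
theorem MvEst.mono {𝔇 : Dat} {d : ℕ → ℕ} {n : ℕ} {W : Finset (ℤ × ℤ)} {s : TS} {ω : Cfg}
    {e e' : ℝ} (h : MvEst 𝔇 d n W s ω e) (he : e ≤ e') : MvEst 𝔇 d n W s ω e' := by
  intro D hD hi hV
  obtain ⟨h1, q, hq, h2⟩ := h D hD hi hV
  exact ⟨h1, q, hq, fun a => (h2 a).trans he⟩

/-- **The row `RowEst`** from the estimate of one past at the scales `Scl`. -/
theorem rowEst_of_scl {𝔇 : Dat} {G : ℕ → ℕ → ℕ} {Bd : (ℕ → ℕ) → ℕ → ℕ → Set Cfg}
    (hG : ∀ i e, e < G i e)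
    (H : ∃ (C α : ℝ) (c : ℤ), 0 < C ∧ 0 < α ∧ ∀ m ℓ : ℕ, ∀ d : ℕ → ℕ, d (m + 1) = ℓ → ℓ + 6 ≤ d m →
      Sc.Dec d (m + 1) → (chD 𝔇 G Bd).Gro (m + 1) d →
      ∀ᶠ n in atTop, Sc.Scl c (Sc.ls d n (d m)) (Sc.ls d n (Sc.eS (d m) ℓ))
        (Sc.ls d n (Sc.eR (d m) ℓ)) (Sc.ls d n ℓ) → ∀ ω, (∀ i ≤ m, ω ∉ Bd d n i) →
        MvEst 𝔇 d n (Sn n) (tst 𝔇 d n ω m) ω (facB 𝔇.kap ℓ *
          (C * ((Sc.ls d n (Sc.eS (d m) ℓ) : ℝ) / (Sc.ls d n (Sc.eR (d m) ℓ) : ℝ)) ^ α))) :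
    RowEst 𝔇 G Bd := by
  obtain ⟨C, α, c, hC, hα, H⟩ := H
  intro m ℓ
  obtain ⟨J, hJ⟩ := Sc.exists_scl c
  refine ⟨facB 𝔇.kap ℓ, C, α, 1, ℓ + 3 * (J + 1) + 6, hα, (facB_pos _ _).le, hC.le, ?_⟩
  intro d hd hL hgro
  have hdec := ChnD.Gro.dec (c := chD 𝔇 G Bd) hG hgro
  have h0 : d m ≤ d 0 := hdec.anti m (by omega) 0 (by omega)
  filter_upwards [H m ℓ d hd (by omega) hdec hgro, eventually_ge_atTop (2 ^ d 0)] with n hn hn2 ω hω
  refine ⟨Sc.ls d n (Sc.eS (d m) ℓ), Sc.ls d n (Sc.eR (d m) ℓ), ?_, ?_, ?_, ?_⟩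
  · exact_mod_cast Sc.ls_nonneg d n _
  · exact_mod_cast Sc.ls_pos hn2 _
  · exact Sc.gap_le_real d n (by omega) h0
  · exact hn (hJ d _ _ n (by omega) h0 hn2) ω hω

end Tru

end Pool.Agent.SixB
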