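import Pool.Agent.Lib.SixB.S8InvD
import Pool.Agent.Lib.SixB.S8InvN
import Pool.Agent.Lib.SixB.S8LawS
import Pool.Agent.Lib.SixB.S8Hook

/-!
# Step 8, START: the numbers

`u` the unit, `w` the width of the classes when the needle is placed, `c = 6 u`, `ρ = 4 w + c + 8`,
`s = ρ + 3 w + c + 4`, `L` the number of cells of the needle, `dl` the depth of the target,
`l = u (L + 1) - 1`, `r = u (dl - 1)`.

* `NumC`: the inequalities which START needs;
* `numC_of`: they follow from `w ≤ C₁ u S`, `16 C₁ S + 80 ≤ L`, `3 L ≤ dl`;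
* `le_ndL`: the second inequality for the chain, if `K (32 C₁ + 80) ≤ 2 ^ (d N)`;
* **`start_num`**: all inequalities for the chain.
-/

set_option autoImplicit false

namespace Pool.Agent.SixB.StNum

open Pool.Agent.SixB.Mv Pool.Agent.SixB.Tru

/-- The inequalities of START. -/
structure NumC (u w c ρ s L dl l r R : ℤ) : Prop where
  u1 : 1 ≤ u
  uw : u ≤ w
  wL : w ≤ u * (L - 2)
  sR : s ≤ R
  wR : w ≤ R
  ρc : 2 * ρ + c < u * (L - 2)
  ρc2 : 2 * (2 * ρ + c) ≤ u * (L - 3)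
  ρw : ρ + w < u * (dl - 1)
  lw : l + w ≤ r
  sL : s < u * (L - 2)
  L8 : 8 ≤ L

theorem numC_of {C₁ u w c ρ s L dl l r S : ℤ} (hC : 1 ≤ C₁) (hu : 1 ≤ u) (hS : 1 ≤ S) (huw : u ≤ w)
    (hw : w ≤ C₁ * u * S) (hL : 16 * C₁ * S + 80 ≤ L) (hdl : 3 * L ≤ dl) (hc : c = 6 * u)
    (hρ : ρ = 4 * w + c + 8) (hs : s = ρ + 3 * w + c + 4) (hl : l = u * (L + 1) - 1)
    (hr : r = u * (dl - 1)) : NumC u w c ρ s L dl l r ((40 * C₁ + 200) * u * S) := by
  have h1 : u ≤ u * S := by nlinarith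
  have h2 : w ≤ C₁ * (u * S) := by linarith [mul_assoc C₁ u S]
  have h3 : 16 * C₁ * (u * S) + 80 * u ≤ u * L := by
    have := mul_le_mul_of_nonneg_left hL (by omega : 0 ≤ u)
    linarith [mul_comm u (16 * C₁ * S + 80)]
  have h4 : 3 * (u * L) ≤ u * dl := by
    have := mul_le_mul_of_nonneg_left hdl (by omega : 0 ≤ u)
    linarith
  have h5 : u * S ≤ C₁ * (u * S) := by
    have : 0 ≤ u * S := by positivity
    nlinarith
  have e1 : u * (L - 2) = u * L - 2 * u := by ring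
  have e2 : u * (dl - 1) = u * dl - u := by ring
  have e3 : u * (L + 1) - 1 = u * L + u - 1 := by ring
  have e4 : (40 * C₁ + 200) * u * S = 40 * (C₁ * (u * S)) + 200 * (u * S) := by ring
  have e5 : 16 * C₁ * (u * S) = 16 * (C₁ * (u * S)) := by ring
  have e6 : u * (L - 3) = u * L - 3 * u := by ring
  rw [e5] at h3
  refine ⟨hu, huw, ?_, ?_, ?_, ?_, ?_, ?_, ?_, ?_, ?_⟩
  · rw [e1]; linarith
  · rw [e4]; subst hs hρ hc; linarith
  · rw [e4]; linarith
  · rw [e1]; subst hρ hc; linarith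
  · rw [e6]; subst hρ hc; linarith
  · rw [e2]; subst hρ hc; linarith
  · rw [hl, hr, e2, e3]; linarith
  · rw [e1]; subst hs hρ hc; linarith
  · have : 0 ≤ C₁ * S := by positivity
    linarith [mul_assoc 16 C₁ S]

/-- The needle is long against the cells of the past stages. -/
theorem le_ndL {C₁ : ℤ} {K N i : ℕ} {d : ℕ → ℕ} (hC : 0 ≤ C₁) (hK : 0 < K) (hd : Sc.Dec d N)
    (hi : i ≤ N) (hl : (K : ℤ) * (32 * C₁ + 80) ≤ 2 ^ d N) :
    16 * C₁ * (1 + ∑ j ∈ Finset.range i, msh d j) + 80 ≤ (Hook.ndL K (d 0) : ℤ) := by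
  have hK' : (0 : ℤ) < K := by exact_mod_cast hK
  -- the sum of the meshes, times `2 ^ (d N)`
  have h1 : (1 + ∑ j ∈ Finset.range i, msh d j) * 2 ^ d N ≤ 2 * 2 ^ d 0 := by
    rcases Nat.eq_zero_or_pos i with hi0 | hi0
    · subst hi0
      have h2 : (2 : ℤ) ^ d N ≤ 2 ^ d 0 := pow_le_pow_right₀ (by norm_num) (hd.anti N le_rfl 0 (by omega))
      have h3 : (0 : ℤ) ≤ 2 ^ d 0 := by positivity
      simp only [Finset.range_zero, Finset.sum_empty, add_zero, one_mul]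
      linarith
    · have h2 : InvN.sms d i + 1 ≤ 2 * msh d (i - 1) :=
        InvN.sms_le (fun j hj => hd j (by omega)) (fun j hj => hd.anti j (by omega) 0 (by omega)) hi0
      have h3 : msh d (i - 1) * 2 ^ d N ≤ 2 ^ d 0 := by
        have h4 : msh d (i - 1) * 2 ^ d (i - 1) = 2 ^ d 0 := by
          have := hd.anti (i - 1) (by omega) 0 (by omega)
          unfold msh
          rw [← pow_add]
          congr 1
          omega
        rw [← h4]
        refine mul_le_mul_of_nonneg_left ?_ (msh_pos d _).le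
        exact pow_le_pow_right₀ (by norm_num) (hd.anti N le_rfl (i - 1) (by omega))
      have h5 : (1 + ∑ j ∈ Finset.range i, msh d j) = InvN.sms d i + 1 := by
        unfold InvN.sms
        ring
      rw [h5]
      calc (InvN.sms d i + 1) * 2 ^ d N ≤ 2 * msh d (i - 1) * 2 ^ d N :=
            mul_le_mul_of_nonneg_right h2 (by positivity)
        _ = 2 * (msh d (i - 1) * 2 ^ d N) := by ring
        _ ≤ 2 * 2 ^ d 0 := by linarith
  obtain ⟨S, hS⟩ : ∃ S : ℤ, S = 1 + ∑ j ∈ Finset.range i, msh d j := ⟨_, rfl⟩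
  rw [← hS] at h1 ⊢
  have hS1 : 1 ≤ S := by
    have := InvN.sms_nonneg (d := d) (k := i)
    unfold InvN.sms at this
    omega
  -- compare
  have h6 : (16 * C₁ * S + 80) * K ≤ 2 ^ d 0 := by
    have h7 : (0 : ℤ) < 2 ^ d N := by positivity
    have h8 : (2 : ℤ) ^ d N ≤ 2 ^ d 0 := pow_le_pow_right₀ (by norm_num) (hd.anti N le_rfl 0 (by omega))
    have h9 : (16 * C₁ * S + 80) * K * 2 ^ d N ≤ 2 ^ d 0 * 2 ^ d N := by
      have a1 : 16 * C₁ * K * (S * 2 ^ d N) ≤ 16 * C₁ * K * (2 * 2 ^ d 0) :=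
        mul_le_mul_of_nonneg_left h1 (by positivity)
      have a2 : 80 * (K : ℤ) * 2 ^ d N ≤ 80 * K * 2 ^ d 0 := mul_le_mul_of_nonneg_left h8 (by positivity)
      have a3 : (K : ℤ) * (32 * C₁ + 80) * 2 ^ d 0 ≤ 2 ^ d N * 2 ^ d 0 :=
        mul_le_mul_of_nonneg_right hl (by positivity)
      calc (16 * C₁ * S + 80) * K * 2 ^ d N = 16 * C₁ * K * (S * 2 ^ d N) + 80 * K * 2 ^ d N := by ring
        _ ≤ 16 * C₁ * K * (2 * 2 ^ d 0) + 80 * K * 2 ^ d 0 := add_le_add a1 a2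
        _ = (K : ℤ) * (32 * C₁ + 80) * 2 ^ d 0 := by ring
        _ ≤ 2 ^ d N * 2 ^ d 0 := a3
        _ = 2 ^ d 0 * 2 ^ d N := by ring
    exact le_of_mul_le_mul_right h9 h7
  unfold Hook.ndL
  push_cast
  exact (Int.le_ediv_iff_mul_le hK').2 h6

/-- **The numbers of START.** -/
theorem start_num {C₁ : ℤ} {K N i n : ℕ} {d : ℕ → ℕ} (hC : 1 ≤ C₁) (hK : 0 < K) (hd : Sc.Dec d N)
    (hi : i ≤ N) (hl : (K : ℤ) * (32 * C₁ + 80) ≤ 2 ^ d N) (hn : 2 ^ d 0 ≤ n) {w c ρ s dl l r : ℤ}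
    (huw : (unt d n : ℤ) ≤ w) (hw : w ≤ rad C₁ (unt d n) d i) (hdl : 3 * (Hook.ndL K (d 0) : ℤ) ≤ dl)
    (hc : c = 6 * unt d n) (hρ : ρ = 4 * w + c + 8) (hs : s = ρ + 3 * w + c + 4)
    (hll : l = unt d n * (Hook.ndL K (d 0) + 1) - 1) (hr : r = unt d n * (dl - 1)) :
    NumC (unt d n) w c ρ s (Hook.ndL K (d 0)) dl l r (rad (40 * C₁ + 200) (unt d n) d i) := by
  have hS1 : 1 ≤ 1 + ∑ j ∈ Finset.range i, msh d j := by
    have := InvN.sms_nonneg (d := d) (k := i)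
    unfold InvN.sms at this
    omega
  unfold rad at hw ⊢
  exact numC_of hC (by exact_mod_cast InvN.unt_pos hn) hS1 huw hw (le_ndL (by omega) hK hd hi hl) hdl hc hρ
    hs hll hr

end Pool.Agent.SixB.StNum
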