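import Pool.Agent.Lib.SixB.S8StartCh
import Pool.Agent.Lib.SixB.S8StartHB
import Pool.Agent.Lib.SixB.S8StartNum
import Pool.Agent.Lib.SixB.S8InvSx
import Pool.Agent.Lib.SixB.S8Inv
import Pool.Agent.Lib.SixB.S8InvWC
import Pool.Agent.Lib.SixB.S8PlantOk
import Pool.Agent.Lib.SixB.S8FinD

/-!
# Step 8, START: the invariant at the first running stage of a needle

* `FineS`, `exists_fine`: the true domain, the labels, the target and the tip for the true needle of a set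
  `blow u C` which is an approximation of the set of the fresh faces (`C`: a coarse disc, `z` its target);
* `start_runI`: the invariant `RunI` at the entrance stage of a needle.
-/

set_option autoImplicit false

namespace Pool.Agent.SixB.StS

open Finset Pool.Agent.Perc Pool.Agent.Perc6 Pool.Agent.PercT Pool.Agent.Perc6.C2Aux
open Pool.Agent.Perc.Tips Pool.Agent.PercU Pool.Agent.PercX60
open Pool.Agent.MP_6bd702.H23 (Ed ea eb)
open Pool.Agent.SixB Pool.Agent.SixB.Top Pool.Agent.SixB.Mv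
open Pool.Agent.SixB.Rule Pool.Agent.SixB.Dct Pool.Agent.SixB.Hook
open Pool.Agent.SixB.Blow (subE)
open Pool.Agent.SixB.Ndle (dlt cen)

/-- The true domain of the needle: the component of `FU V` without the needle at the centre of `z`. -/
noncomputable abbrev tD (u L : ℕ) (V : Finset (ℤ × ℤ)) (C : Set (ℤ × ℤ)) (z : ℤ × ℤ) : Set (ℤ × ℤ) :=
  compT (FU V \ QF (hookU u L V C z).1) (cen u z)

/-- The fine data at the start of a step: true needle `hookU u L V C z`, first domain `dom₀ π C z`,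
radius `R`; `S`: the tip side, `x`: the number of the target side, `k₀`: the first corner of the strand. -/
structure FineS (u L : ℕ) (V : Finset (ℤ × ℤ)) (C : Set (ℤ × ℤ)) (z : ℤ × ℤ) (π : Prm) (R : ℤ)
    (k₀ : Cor) (S : UE × Bool) (m x : ℕ) (κ : ℤ × ℤ → ℤ × ℤ) (j₁ j₂ i₂ : ℕ) : Prop where
  st : ∃ k, StW.Start (FU V) (QF (hookU u L V C z).1) (tD u L V C z) S m k x
  tst : ∀ ω, TSt (mix (FU V \ QF (hookU u L V C z).1) ω (gT ((hookU u L V C z).1 : Set Ed)))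
    Set.univ (tD u L V C z) S m x
  str : ∀ ω, ∃ N s t, 0 < N ∧
    pth (mix (FU V \ QF (hookU u L V C z).1) ω (gT ((hookU u L V C z).1 : Set Ed))) (kU k₀) N =
      kU k₀ ∧ s < t ∧ t < N ∧
    pth (mix (FU V \ QF (hookU u L V C z).1) ω (gT ((hookU u L V C z).1 : Set Ed))) (kU k₀) s =
      S.1 ∧
    (∀ i < s, fa (pth (mix (FU V \ QF (hookU u L V C z).1) ω
      (gT ((hookU u L V C z).1 : Set Ed))) (kU k₀) i) ∉ tD u L V C z) ∧
    pth (mix (FU V \ QF (hookU u L V C z).1) ω (gT ((hookU u L V C z).1 : Set Ed))) (kU k₀) t =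
      (side (tD u L V C z) S x).1 ∧
    ∀ i, t ≤ i → i < N → fa (pth (mix (FU V \ QF (hookU u L V C z).1) ω
      (gT ((hookU u L V C z).1 : Set Ed))) (kU k₀) i) ∉ tD u L V C z
  app : App (tD u L V C z) (blow u (CSt.dom₀ π C z).P) κ R
  tgt : TgG (tD u L V C z) (Mv.sqF R (ahead (subE u (CSt.dom₀ π C z).B 0)))
    (ahead (subE u (CSt.dom₀ π C z).B 0)) (inF (tD u L V C z) S x)
  near : LC.InB (lf (subE u (CSt.dom₀ π C z).A 0)) R (rg S)
  tipc : ahead S ∈ tD u L V C z ∩ Mv.sqF R (ahead (subE u (CSt.dom₀ π C z).A 0)) ∧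
    ChI (tD u L V C z ∩ Mv.sqF R (ahead (subE u (CSt.dom₀ π C z).A 0))) (ahead S)
      (ahead (subE u (CSt.dom₀ π C z).A 0))
  lab : LabP (tD u L V C z) (blow u (CSt.dom₀ π C z).P) κ (subE u (CSt.dom₀ π C z).A 0) S
    (subE u (CSt.dom₀ π C z).B 0) R R (u * cyl (CSt.dom₀ π C z).P (CSt.dom₀ π C z).A) m x
    (u - 1) j₁ (u * StartA.tgtN C (compT (C \ ndC L C z) z)) j₂ i₂
  sep : κ (outF (blow u (CSt.dom₀ π C z).P) (subE u (CSt.dom₀ π C z).A 0) (j₁ - 1)) ≠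
    κ (outF (blow u (CSt.dom₀ π C z).P) (subE u (CSt.dom₀ π C z).A 0) (j₂ + 1))
  /-- the needle and the centre of the target cell -/
  cQ : Top.EConn (QF (hookU u L V C z).1)
  nA : Ndle.ndA u (fin C) z ∈ QF (hookU u L V C z).1
  cen : cen u z ∈ FU V \ QF (hookU u L V C z).1
  memB : ahead (subE u (CSt.dom₀ π C z).B 0) ∈ tD u L V C z
  /-- the component of the target -/
  eqB : tD u L V C z = compT (FU V \ QF (hookU u L V C z).1) (ahead (subE u (CSt.dom₀ π C z).B 0))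

variable {n u L : ℕ} {V : Finset (ℤ × ℤ)} {T₀ : Finset Edg} {C : Set (ℤ × ℤ)} {z : ℤ × ℤ} {w R : ℤ}
  {π : Prm} {κ : ℤ × ℤ → ℤ × ℤ} {k₀ : Cor}

/-- **The fine data at the start of a step.** -/
theorem exists_fine (hu : 0 < u) (hC : C.Finite) (cC : Top.EConn C) (eC : Esc C)
    (h3 : 3 * L ≤ dlt (fin C) z) (hπ : π.ndl C z = ndC L C z) (hok : (CSt.dom₀ π C z).Ok)
    (A : App (FU V) (blow u C) κ w) (huw : (u : ℤ) ≤ w) (hI : Rule.Inv n T₀ V)
    (hN : NdF V (hookU u L V C z).1 k₀)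
    (hfar : 2 * (2 * (4 * w + 6 * u + 8) + 6 * u) ≤ u * ((L : ℤ) - 3))
    (hR : 16 * w + 38 * u + 10 ≤ R) :
    ∃ S m x κ' j₁ j₂ i₂, FineS u L V C z π R k₀ S m x κ' j₁ j₂ i₂ := by
  have hu' : (0 : ℤ) < u := by exact_mod_cast hu
  have h3' : 3 * (L : ℤ) ≤ (dlt (fin C) z : ℤ) := by exact_mod_cast h3
  have hm : (u : ℤ) * (3 * (L : ℤ)) ≤ u * (dlt (fin C) z : ℤ) := mul_le_mul_of_nonneg_left h3' hu'.le
  have e1 : (u : ℤ) * ((L : ℤ) - 3) = u * L - 3 * u := by ring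
  have e2 : (u : ℤ) * (3 * (L : ℤ)) = 3 * (u * L) := by ring
  have e3 : (u : ℤ) * ((L : ℤ) + 1) - 1 = u * L + u - 1 := by ring
  have e4 : (u : ℤ) * ((dlt (fin C) z : ℤ) - 1) = u * (dlt (fin C) z : ℤ) - u := by ring
  rw [e1] at hfar
  rw [e2] at hm
  have h2 : 2 ≤ L := by
    by_contra h
    have h5 : (L : ℤ) ≤ 1 := by exact_mod_cast (by omega : L ≤ 1)
    have h6 : (u : ℤ) * L ≤ u * 1 := mul_le_mul_of_nonneg_left h5 hu'.le
    omega
  have h1 : 1 ≤ L := by omega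
  have hL : L ≤ dlt (fin C) z := by omega
  have hd : 0 < w := by omega
  have hPc : Top.EConn (blow u C) := Blow.econn_blow hu' cC
  have H : Pre V (blow u C) (Ndle.ndF u (fin C) z L) (Ndle.ndA u (fin C) z)
      (Ndle.ndB u (fin C) z) (w - 1).toNat :=
    Hook.pre_of_app hC hu' hL h1 A subset_rfl fun _ _ _ _ h => h
  have hl : (u : ℤ) * ((L : ℤ) + 1) - 1 ≤ u * ((L : ℤ) + 1) - 1 := le_rfl
  have hdl : w ≤ (u : ℤ) * ((L : ℤ) + 1) - 1 := by rw [e3]; omega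
  have hr : (u : ℤ) * ((L : ℤ) + 1) - 1 + w ≤ u * ((dlt (fin C) z : ℤ) - 1) := by rw [e3, e4]; omega
  have hVf : (FU V).Finite := finite_FU hI.sub
  have hVe : Esc (FU V) := esc_FU hI
  have N := StartH.ndl_hook hC hu' h1 hL hd H hl hdl hr
  obtain ⟨S, m, k, x, hS, -, hT⟩ := StartH.start_hook_scan hC hu' h1 hL hd H hl hdl hr huw A hI hPc
    subset_rfl (fun _ _ _ _ h => h) rfl hN
  obtain ⟨⟨κ', hκ, j₁, j₂, i₂, hlab, hsep⟩, hnear⟩ := StartB.start_lab (π := π) hu hC cC eC h2 h3 hπ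
    hok.ne H N A huw (StartH.qF_sub H) hS (ρ := 4 * w + 6 * u + 8) le_rfl (by rw [e4]; omega)
    (by rw [e1]; exact hfar) (s := R) (by omega)
  obtain ⟨ht, -, htip⟩ := StartH.both_sub (π := π) hu hC cC eC h2 h3 hπ hd H hl hdl hr huw rfl
    (StartH.app_comp hC hu' h1 hL hd H hl hdl hr huw hPc A) hVf hVe (by rw [e4]; omega) hS
    (i := 0) (j := 0) le_rfl hu' le_rfl hu' hR
  have hcen : cen u z ∈ FU V \ QF (hookU u L V C z).1 :=
    StartH.cen_mem hC hu' h1 hL hd H hl hdl hr huw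
  have hsub : blow u (CSt.dom₀ π C z).P ⊆ tD u L V C z := hκ.sub
  have hB : ahead (subE u (CSt.dom₀ π C z).B 0) ∈ tD u L V C z := by
    apply hsub
    rw [Blow.mem_blow, Blow.cl_ahead hu' _ le_rfl hu']
    exact hok.bdB.1
  exact ⟨S, m, x, κ', j₁, j₂, i₂, ⟨k, hS⟩, fun ω => (hT ω).1, fun ω => (hT ω).2,
    hκ.mono (by omega), ht, hnear, htip, hlab, hsep,
    StartH.qF_econn H, StartH.ndA_mem_qF H, hcen, hB, (compT_eq hcen hB).symm⟩

/-! ### The chain -/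

section Chain

open Pool.Agent.SixB.Tru

variable {𝔇 : Dat} {d : ℕ → ℕ} {i : ℕ} {ω : Cfg} {x : List Rec} {q : Rule.Ndl} {D : Dom} {r : ℤ}

/-- The set of the stored faces after the placing stage is a set of `FU`. -/
theorem inv_ts (𝔇 : Dat) (d : ℕ → ℕ) (n : ℕ) (ω : Cfg) (i : ℕ) :
    Rule.Inv n (cfgE n ω) (TruR.ts 𝔇 d n ω i).V := by
  cases i with
  | zero => exact inv_box (DictB.cfgE_subset n ω)
  | succ i => exact TruR.inv_V 𝔇 d n ω i

/-- **The invariant at the entrance stage of a needle**, with free numbers. -/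
theorem runI_of_ent (E : EntS 𝔇 d n ω i V x q D)
    (hhk : 𝔇.hook n d V (𝔇.disc d x) (𝔇.tgt d x) =
      hookU (unt d n) L V (𝔇.disc d x) (𝔇.tgt d x))
    (hnd : (𝔇.prm d).ndl (𝔇.disc d x) (𝔇.tgt d x) = ndC L (𝔇.disc d x) (𝔇.tgt d x))
    (hI : Rule.Inv n T₀ V) (hJ : (𝔇.cs d x).Inv)
    (h3 : 3 * L ≤ dlt (fin (𝔇.disc d x)) (𝔇.tgt d x)) (hu : 0 < unt d n)
    (A : App (FU V) (blow (unt d n) (𝔇.disc d x)) κ w) (huw : (unt d n : ℤ) ≤ w)
    (hfar : 2 * (2 * (4 * w + 6 * unt d n + 8) + 6 * unt d n) ≤ unt d n * ((L : ℤ) - 3))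
    (hR : 16 * w + 38 * unt d n + 10 ≤ r) :
    ∃ κ m x' i₁ j₁ t j₂ i₂, RunI 𝔇 d n r (tst 𝔇 d n ω (i + 1)) ω q D κ m x' i₁ j₁ t j₂ i₂ := by
  have hdisc := E.disc
  obtain ⟨f1, f2, f3⟩ : (𝔇.disc d x).Finite ∧ Top.EConn (𝔇.disc d x) ∧ Esc (𝔇.disc d x) := by
    rw [hdisc]
    exact CSt.esc_cmp (π := 𝔇.prm d) hJ (msh_pos d i) E.mem
  obtain ⟨k₀, hN, hk₀⟩ := E.ndf
  have hqe : q = hookU (unt d n) L V (𝔇.disc d x) (𝔇.tgt d x) := E.hk.trans hhk
  have hDe := E.dom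
  have hok := E.ok
  have hndl := E.ndl
  have hst := E.st'
  have hco := E.co'
  clear E
  subst hqe hDe
  obtain ⟨S, m, x', κ', j₁, j₂, i₂, F⟩ := exists_fine (π := 𝔇.prm d) hu f1 f2 f3 h3 hnd hok A huw hI hN
    hfar hR
  obtain ⟨k, hS⟩ := F.st
  have hE := Sx.entS_staT hI hndl ⟨k₀, hN, hk₀⟩ F.cQ F.nA F.cen hS F.memB
    ((∅, 0) :: (∅, 0) :: x) ω
  rw [← hst] at hE
  obtain ⟨s, hs⟩ : ∃ s, s = tst 𝔇 d n ω (i + 1) := ⟨_, rfl⟩
  rw [← hs] at hE ⊢
  have hsq : s.q = some (hookU (unt d n) L V (𝔇.disc d x) (𝔇.tgt d x)) := by rw [hs, hst]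
  have hsx : s.x = (∅, 0) :: (∅, 0) :: x := by rw [hs, hst]
  have hrun := congrArg CSt.run hco
  have hini := congrArg CSt.ini hco
  rw [← hsx] at hrun hini
  refine ⟨κ', m, x', unt d n - 1, j₁, unt d n * StartA.tgtN (𝔇.disc d x)
    (compT (𝔇.disc d x \ ndC L (𝔇.disc d x) (𝔇.tgt d x)) (𝔇.tgt d x)), j₂, i₂,
    ⟨hsq, hrun, hini, hE.fre, hE.tst, ?_, ?_, ?_⟩, ?_, F.sep⟩
  · rw [hE.dom]
    exact F.app
  · rw [hE.dom, hE.dir]
    exact F.tgt
  · rw [hE.dir]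
    exact F.near
  · rw [hE.dom, hE.dir]
    exact F.lab

/-- The cells of the needle of the chain. -/
theorem datC_ndl (K kap : ℕ) (d : ℕ → ℕ) (C : Set (ℤ × ℤ)) (z : ℤ × ℤ) :
    ((Cov.datC K kap).prm d).ndl C z = ndC (Hook.ndL K (d 0)) C z := by
  ext f
  constructor
  · rintro ⟨j, h1, h2, h3⟩
    exact ⟨j, h1, h2, h3.symm⟩
  · rintro ⟨j, h1, h2, h3⟩
    exact ⟨j, h1, h2, h3.symm⟩

/-- **The invariant of the chain at the entrance stage.** `C₁`: the constant of the width of the classes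
when the needle is placed. -/
theorem invV_of_ent {C C₁ : ℤ} {K kap N : ℕ} (E : EntS (Cov.datC K kap) d n ω i V x q D)
    (hC₁ : 1 ≤ C₁) (hC : 16 * C₁ + 48 ≤ C) (hK : 0 < K) (hd : Sc.Dec d N) (hiN : i + 1 ≤ N)
    (hl : (K : ℤ) * (32 * C₁ + 80) ≤ 2 ^ d N) (hn : 2 ^ d 0 ≤ n)
    (hI : Rule.Inv n T₀ V) (hJ : ((Cov.datC K kap).cs d x).Inv)
    (A : App (FU V) (blow (unt d n) ((Cov.datC K kap).disc d x)) κ (rad C₁ (unt d n) d (i + 1))) :
    InvV C (Cov.datC K kap) d n (i + 1) ω := by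
  have hu : 0 < unt d n := by exact_mod_cast InvN.unt_pos hn
  have hu' : (0 : ℤ) < unt d n := by exact_mod_cast hu
  have hS1 : 0 ≤ ∑ j ∈ Finset.range (i + 1), msh d j := by
    have := InvN.sms_nonneg (d := d) (k := i + 1)
    unfold InvN.sms at this
    exact this
  have hrad : ∀ c : ℤ, rad c (unt d n) d (i + 1) =
      c * (unt d n * (1 + ∑ j ∈ Finset.range (i + 1), msh d j)) := fun c => by
    unfold rad
    ring
  have h1 : (unt d n : ℤ) ≤ unt d n * (1 + ∑ j ∈ Finset.range (i + 1), msh d j) := by nlinarith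
  have h0 : (unt d n : ℤ) ≤ rad C₁ (unt d n) d (i + 1) := by
    rw [hrad]
    nlinarith
  have hnum := StNum.start_num hC₁ hK hd hiN hl hn h0 le_rfl
    (by exact_mod_cast E.act : 3 * (Hook.ndL K (d 0) : ℤ) ≤
      (dlt (fin ((Cov.datC K kap).disc d x)) ((Cov.datC K kap).tgt d x) : ℤ)) rfl rfl rfl rfl rfl
  have hR : 16 * rad C₁ (unt d n) d (i + 1) + 38 * unt d n + 10 ≤ rad C (unt d n) d (i + 2) := by
    have h2 : rad C (unt d n) d (i + 1) ≤ rad C (unt d n) d (i + 2) :=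
      rad_mono (by omega) _ _ (by omega)
    refine le_trans ?_ h2
    rw [hrad, hrad]
    have h3 : (16 * C₁ + 48) * (unt d n * (1 + ∑ j ∈ Finset.range (i + 1), msh d j)) ≤
        C * (unt d n * (1 + ∑ j ∈ Finset.range (i + 1), msh d j)) :=
      mul_le_mul_of_nonneg_right hC (by positivity)
    refine le_trans ?_ h3
    nlinarith
  have hrun := runI_of_ent (L := Hook.ndL K (d 0)) E rfl (datC_ndl K kap d _ _) hI hJ E.act hu A h0
    (by
      have := hnum.ρc2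
      omega) hR
  intro q' D' hq' hD' _
  have e1 := E.st'
  have e2 := congrArg CSt.run E.co'
  have hxl : (tst (Cov.datC K kap) d n ω (i + 1)).x.length = i + 2 := by
    rw [e1]
    simp [E.len]
  have hq1 : q' = q := by
    rw [e1] at hq'
    exact (Option.some.inj hq').symm
  have hD1 : D' = D := by
    rw [e1] at hD'
    exact Option.some.inj (hD'.symm.trans e2)
  subst hq1 hD1
  left
  rw [hxl]
  exact hrun

/-- **START**: if the disc of the needle is an approximation of the fresh faces then the invariant holds at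
the entrance stage. -/
theorem start_invV {C C₁ : ℤ} {K kap N : ℕ} (hC₁ : 1 ≤ C₁) (hC : 16 * C₁ + 48 ≤ C) (hK : 0 < K)
    (hd : Sc.Dec d N) (hiN : i + 1 ≤ N) (hl : (K : ℤ) * (32 * C₁ + 80) ≤ 2 ^ d N) (hn : 2 ^ d 0 ≤ n)
    (hA : ∀ {V : Finset (ℤ × ℤ)} {x : List Rec} {q : Rule.Ndl} {D : Dom},
      EntS (Cov.datC K kap) d n ω i V x q D → ((Cov.datC K kap).cs d x).Inv ∧
        ∃ κ : ℤ × ℤ → ℤ × ℤ, App (FU V) (blow (unt d n) ((Cov.datC K kap).disc d x)) κ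
          (rad C₁ (unt d n) d (i + 1)))
    {q : Rule.Ndl} {D : Dom} (hq : (tst (Cov.datC K kap) d n ω i).q = some q)
    (hD : ((Cov.datC K kap).cs d (tst (Cov.datC K kap) d n ω i).x).run = some D)
    (hi : ((Cov.datC K kap).cs d (tst (Cov.datC K kap) d n ω i).x).ini = true) :
    InvV C (Cov.datC K kap) d n (i + 1) ω := by
  have E := ent_of hq hD hi
  obtain ⟨h1, κ, h2⟩ := hA E
  exact invV_of_ent E hC₁ hC hK hd hiN hl hn (inv_ts _ d n ω i) h1 h2

/-- **START from the stored discs**: `StT` at the state before the placing stage, and the faces of the disc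
are fresh. -/
theorem start_of_stT {C C₁ : ℤ} {K kap N : ℕ} (hC₁ : 1 ≤ C₁) (hC : 16 * (C₁ + 12) + 48 ≤ C)
    (hK : 0 < K) (hd : Sc.Dec d N) (hiN : i + 1 ≤ N)
    (hl : (K : ℤ) * (32 * (C₁ + 12) + 80) ≤ 2 ^ d N) (hn : 2 ^ d 0 ≤ n)
    (hst : StT (Cov.datC K kap) d n (rad C₁ (unt d n) d (i + 1)) (TruR.ts (Cov.datC K kap) d n ω i) ω)
    (hfr : ∀ {V : Finset (ℤ × ℤ)} {x : List Rec} {q : Rule.Ndl} {D : Dom},
      EntS (Cov.datC K kap) d n ω i V x q D →
        blow (unt d n : ℤ) ((Cov.datC K kap).disc d x) ⊆ FU V)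
    {q : Rule.Ndl} {D : Dom} (hq : (tst (Cov.datC K kap) d n ω i).q = some q)
    (hD : ((Cov.datC K kap).cs d (tst (Cov.datC K kap) d n ω i).x).run = some D)
    (hi : ((Cov.datC K kap).cs d (tst (Cov.datC K kap) d n ω i).x).ini = true) :
    InvV C (Cov.datC K kap) d n (i + 1) ω := by
  have hu : 0 < unt d n := by exact_mod_cast InvN.unt_pos hn
  have hu' : (0 : ℤ) < unt d n := by exact_mod_cast hu
  refine start_invV (C₁ := C₁ + 12) (by omega) hC hK hd hiN hl hn (fun {V x q D} E => ?_) hq hD hi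
  have e1 := E.V0
  have e2 := E.x0
  have e3 := E.len
  refine ⟨e2 ▸ hst.inv, ?_⟩
  obtain ⟨κ, hκ⟩ := hst.app_disc E.q0 hu
    (by rw [e2, e3]; exact E.mem) (by rw [e1, e2]; exact hfr E)
  rw [e1, e2, e3] at hκ
  refine ⟨κ, hκ.mono ?_⟩
  have hS1 : 0 ≤ ∑ j ∈ Finset.range i, msh d j := by
    have := InvN.sms_nonneg (d := d) (k := i)
    unfold InvN.sms at this
    exact this
  have hm := msh_pos d i
  have hsum : ∑ j ∈ Finset.range (i + 1), msh d j = ∑ j ∈ Finset.range i, msh d j + msh d i :=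
    Finset.sum_range_succ _ _
  have h4 : (unt d n : ℤ) * msh d i + 1 ≤
      unt d n * (1 + ∑ j ∈ Finset.range (i + 1), msh d j) := by
    rw [hsum]
    nlinarith
  have h5 : rad (C₁ + 12) (unt d n) d (i + 1) = rad C₁ (unt d n) d (i + 1) +
      12 * (unt d n * (1 + ∑ j ∈ Finset.range (i + 1), msh d j)) := by
    unfold rad
    ring
  have h6 : 0 ≤ (unt d n : ℤ) * msh d i := by positivity
  omega

end Chain

end Pool.Agent.SixB.StS
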