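import Pool.Agent.Lib.SixB.S8InvSn

/-!
# Step 8, START: the clearance needle at the entrance stage

* `fine_of_ent`: all fine data (`FineS`, `Sx.EntS`) at the entrance stage, with free numbers; `cor_of_ent`,
  `StIn.cor`: the left end of the true tip side is a corner of a face which is not fresh;
* `ndl_of_ent`, `StIn.ndl`: at the entrance stage the true needle is a clearance needle (`StartA.Ndl`) of
  the magnified disc of the target, the disc is fresh and the target face is in the component of the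
  centre of the target.
-/

set_option autoImplicit false

namespace Pool.Agent.SixB.StS

open Finset Pool.Agent.Perc Pool.Agent.Perc6 Pool.Agent.PercT Pool.Agent.Perc6.C2Aux
open Pool.Agent.Perc.Tips Pool.Agent.PercU Pool.Agent.PercX60
open Pool.Agent.MP_6bd702.H23 (Ed ea eb)
open Pool.Agent.SixB Pool.Agent.SixB.Top Pool.Agent.SixB.Mv
open Pool.Agent.SixB.Rule Pool.Agent.SixB.Dct Pool.Agent.SixB.Hook
open Pool.Agent.SixB.Blow (subE)
open Pool.Agent.SixB.Ndle (dlt cen ndA ndB ndF)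
open Pool.Agent.SixB.Tru

variable {n L : ℕ} {V : Finset (ℤ × ℤ)} {T₀ : Finset Edg} {w : ℤ} {κ : ℤ × ℤ → ℤ × ℤ}
  {𝔇 : Dat} {d : ℕ → ℕ} {i : ℕ} {ω : Cfg} {x : List Rec} {q : Rule.Ndl} {D : Dom} {r : ℤ}

/-- **All fine data at the entrance stage**, with free numbers. -/
theorem fine_of_ent (E : EntS 𝔇 d n ω i V x q D)
    (hhk : 𝔇.hook n d V (𝔇.disc d x) (𝔇.tgt d x) =
      hookU (unt d n) L V (𝔇.disc d x) (𝔇.tgt d x))
    (hnd : (𝔇.prm d).ndl (𝔇.disc d x) (𝔇.tgt d x) = ndC L (𝔇.disc d x) (𝔇.tgt d x))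
    (hI : Rule.Inv n T₀ V) (hJ : (𝔇.cs d x).Inv)
    (h3 : 3 * L ≤ dlt (fin (𝔇.disc d x)) (𝔇.tgt d x)) (hu : 0 < unt d n)
    (A : App (FU V) (blow (unt d n) (𝔇.disc d x)) κ w) (huw : (unt d n : ℤ) ≤ w)
    (hfar : 2 * (2 * (4 * w + 6 * unt d n + 8) + 6 * unt d n) ≤ unt d n * ((L : ℤ) - 3))
    (hR : 16 * w + 38 * unt d n + 10 ≤ r) :
    q = hookU (unt d n) L V (𝔇.disc d x) (𝔇.tgt d x) ∧
      ∃ k₀ S m x' κ' j₁ j₂ i₂,
        FineS (unt d n) L V (𝔇.disc d x) (𝔇.tgt d x) (𝔇.prm d) r k₀ S m x' κ' j₁ j₂ i₂ ∧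
        Sx.EntS (tst 𝔇 d n ω (i + 1)) q ω (tD (unt d n) L V (𝔇.disc d x) (𝔇.tgt d x)) S m x' := by
  have hdisc := E.disc
  obtain ⟨f1, f2, f3⟩ : (𝔇.disc d x).Finite ∧ Top.EConn (𝔇.disc d x) ∧ Esc (𝔇.disc d x) := by
    rw [hdisc]
    exact CSt.esc_cmp (π := 𝔇.prm d) hJ (msh_pos d i) E.mem
  obtain ⟨k₀, hN, hk₀⟩ := E.ndf
  have hqe : q = hookU (unt d n) L V (𝔇.disc d x) (𝔇.tgt d x) := E.hk.trans hhk
  have hDe := E.dom
  have hok := E.ok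
  have hndl := E.ndl
  have hst := E.st'
  clear E
  subst hqe hDe
  obtain ⟨S, m, x', κ', j₁, j₂, i₂, F⟩ := exists_fine (π := 𝔇.prm d) hu f1 f2 f3 h3 hnd hok A huw hI hN
    hfar hR
  obtain ⟨k, hS⟩ := F.st
  have hE := Sx.entS_staT hI hndl ⟨k₀, hN, hk₀⟩ F.cQ F.nA F.cen hS F.memB
    ((∅, 0) :: (∅, 0) :: x) ω
  rw [← hst] at hE
  exact ⟨rfl, k₀, S, m, x', κ', j₁, j₂, i₂, F, hE⟩

/-- **The left end of the true tip side** is a corner of a face which is not fresh. -/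
theorem cor_of_ent (E : EntS 𝔇 d n ω i V x q D)
    (hhk : 𝔇.hook n d V (𝔇.disc d x) (𝔇.tgt d x) =
      hookU (unt d n) L V (𝔇.disc d x) (𝔇.tgt d x))
    (hnd : (𝔇.prm d).ndl (𝔇.disc d x) (𝔇.tgt d x) = ndC L (𝔇.disc d x) (𝔇.tgt d x))
    (hI : Rule.Inv n T₀ V) (hJ : (𝔇.cs d x).Inv)
    (h3 : 3 * L ≤ dlt (fin (𝔇.disc d x)) (𝔇.tgt d x)) (hu : 0 < unt d n)
    (A : App (FU V) (blow (unt d n) (𝔇.disc d x)) κ w) (huw : (unt d n : ℤ) ≤ w)
    (hfar : 2 * (2 * (4 * w + 6 * unt d n + 8) + 6 * unt d n) ≤ unt d n * ((L : ℤ) - 3)) :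
    ∃ f, f ∉ FU V ∧ IsCor f (lf (tS (tst 𝔇 d n ω (i + 1)) q ω)) := by
  obtain ⟨-, k₀, S, m, x', κ', j₁, j₂, i₂, F, hE⟩ := fine_of_ent E hhk hnd hI hJ h3 hu A huw hfar
    (r := 16 * w + 38 * unt d n + 10) le_rfl
  obtain ⟨k, hS⟩ := F.st
  rw [hE.dir]
  exact hS.c0

/-- The clearance needle of the stage: `P` the magnified disc, `y₀` the face of the base, `zt` the centre of
the target, `w` the length of the hook. -/
structure NdD (V : Finset (ℤ × ℤ)) (q : Rule.Ndl) (u : ℤ) (L : ℕ) (C : Set (ℤ × ℤ)) (z : ℤ × ℤ)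
    (w : ℤ) (B : UE × Bool) : Prop where
  hk : q = hookU u L V C z
  pre : Pre V (blow u C) (ndF u (fin C) z L) (ndA u (fin C) z) (ndB u (fin C) z) (w - 1).toNat
  ndl : StartA.Ndl (blow u C) (QF q.1) (ndB u (fin C) z) (ndA u (fin C) z) (cen u z)
    (u * (dlt (fin C) z - 1)) (u * (L + 1) - 1) (6 * u) w
  sub : blow u C ⊆ FU V
  lt : 2 * w + 6 * u + 2 < u * ((dlt (fin C) z : ℤ) - 1)
  cenm : cen u z ∈ FU V \ QF q.1
  tgt : ahead B ∈ compT (FU V \ QF q.1) (cen u z)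

/-- **The clearance needle at the entrance stage**, with free numbers. -/
theorem ndl_of_ent (E : EntS 𝔇 d n ω i V x q D)
    (hhk : 𝔇.hook n d V (𝔇.disc d x) (𝔇.tgt d x) =
      hookU (unt d n) L V (𝔇.disc d x) (𝔇.tgt d x))
    (hnd : (𝔇.prm d).ndl (𝔇.disc d x) (𝔇.tgt d x) = ndC L (𝔇.disc d x) (𝔇.tgt d x))
    (hI : Rule.Inv n T₀ V) (hJ : (𝔇.cs d x).Inv)
    (h3 : 3 * L ≤ dlt (fin (𝔇.disc d x)) (𝔇.tgt d x)) (hu : 0 < unt d n)
    (A : App (FU V) (blow (unt d n) (𝔇.disc d x)) κ w) (huw : (unt d n : ℤ) ≤ w)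
    (hfar : 2 * (2 * (4 * w + 6 * unt d n + 8) + 6 * unt d n) ≤ unt d n * ((L : ℤ) - 3)) :
    NdD V q (unt d n) L (𝔇.disc d x) (𝔇.tgt d x) w (subE (unt d n) D.B 0) := by
  have hdisc := E.disc
  obtain ⟨f1, f2, f3⟩ : (𝔇.disc d x).Finite ∧ Top.EConn (𝔇.disc d x) ∧ Esc (𝔇.disc d x) := by
    rw [hdisc]
    exact CSt.esc_cmp (π := 𝔇.prm d) hJ (msh_pos d i) E.mem
  obtain ⟨k₀, hN, hk₀⟩ := E.ndf
  have hqe : q = hookU (unt d n) L V (𝔇.disc d x) (𝔇.tgt d x) := E.hk.trans hhk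
  have hDe := E.dom
  have hok := E.ok
  clear E
  subst hqe hDe
  obtain ⟨S, m, x', κ', j₁, j₂, i₂, F⟩ := exists_fine (π := 𝔇.prm d) hu f1 f2 f3 h3 hnd hok A huw hI hN
    hfar (R := 16 * w + 38 * unt d n + 10) le_rfl
  have hu' : (0 : ℤ) < unt d n := by exact_mod_cast hu
  have h3' : 3 * (L : ℤ) ≤ (dlt (fin (𝔇.disc d x)) (𝔇.tgt d x) : ℤ) := by exact_mod_cast h3
  have hm : (unt d n : ℤ) * (3 * (L : ℤ)) ≤
      unt d n * (dlt (fin (𝔇.disc d x)) (𝔇.tgt d x) : ℤ) := mul_le_mul_of_nonneg_left h3' hu'.le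
  have e1 : (unt d n : ℤ) * ((L : ℤ) - 3) = unt d n * L - 3 * unt d n := by ring
  have e2 : (unt d n : ℤ) * (3 * (L : ℤ)) = 3 * (unt d n * L) := by ring
  have e3 : (unt d n : ℤ) * ((L : ℤ) + 1) - 1 = unt d n * L + unt d n - 1 := by ring
  have e4 : (unt d n : ℤ) * ((dlt (fin (𝔇.disc d x)) (𝔇.tgt d x) : ℤ) - 1) =
      unt d n * (dlt (fin (𝔇.disc d x)) (𝔇.tgt d x) : ℤ) - unt d n := by ring
  rw [e1] at hfar
  rw [e2] at hm
  have h2 : 1 ≤ L := by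
    by_contra h
    have h5 : (L : ℤ) ≤ 0 := by exact_mod_cast (by omega : L ≤ 0)
    have h6 : (unt d n : ℤ) * L ≤ unt d n * 0 := mul_le_mul_of_nonneg_left h5 hu'.le
    omega
  have hL : L ≤ dlt (fin (𝔇.disc d x)) (𝔇.tgt d x) := by omega
  have hd : 0 < w := by omega
  have H : Pre V (blow (unt d n) (𝔇.disc d x))
      (ndF (unt d n) (fin (𝔇.disc d x)) (𝔇.tgt d x) L) (ndA (unt d n) (fin (𝔇.disc d x)) (𝔇.tgt d x))
      (ndB (unt d n) (fin (𝔇.disc d x)) (𝔇.tgt d x)) (w - 1).toNat :=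
    Hook.pre_of_app f1 hu' hL h2 A subset_rfl fun _ _ _ _ h => h
  have N := StartH.ndl_hook f1 hu' h2 hL hd H (le_refl ((unt d n : ℤ) * ((L : ℤ) + 1) - 1))
    (by rw [e3]; omega) (by rw [e3, e4]; omega)
  exact ⟨rfl, H, N, A.sub, by rw [e4]; omega, F.cen, F.memB⟩

section Row

open Pool.Agent.SixB.Cov (datC)

variable {C c₀ : ℤ} {K kap a : ℕ} {J : InvP} {G : ℕ → ℕ → ℕ} {N₁ : (ℕ → ℕ) → ℕ} {Y Z : EvF}

/-- **The clearance needle at the entrance stage.** -/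
theorem StIn.ndl (H : StIn C c₀ K kap a J G N₁ Y Z)
    (h : GdP (InvA C c₀ K J (datC K kap)) (datC K kap) (NumC G N₁) (YA (datC K kap) C Y)
      (ZA (datC K kap) c₀ Z) d n (i + 1) ω) (E : EntS (datC K kap) d n ω i V x q D) :
    NdD V q (unt d n) (Hook.ndL K (d 0)) ((datC K kap).disc d x) ((datC K kap).tgt d x)
      (rad 13 (unt d n) d (i + 1)) (subE (unt d n) D.B 0) := by
  obtain ⟨h1, κ, h2⟩ := H.app h E
  have h4 := H.hC
  have h5 := inv_ts (datC K kap) d n ω i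
  rw [E.V0] at h5
  obtain ⟨g1, g2, -⟩ := num_ent E (C₁ := 1 + 12) (C := C) (by norm_num) (by omega) H.hK (H.dec h) le_rfl
    (H.pow h) (H.big h)
  exact ndl_of_ent (L := Hook.ndL K (d 0)) E rfl (datC_ndl K kap d _ _) h5 h1 E.act
    (by exact_mod_cast InvN.unt_pos (H.big h)) h2 g1 g2

/-- **The left end of the true tip side at the entrance stage.** -/
theorem StIn.cor (H : StIn C c₀ K kap a J G N₁ Y Z)
    (h : GdP (InvA C c₀ K J (datC K kap)) (datC K kap) (NumC G N₁) (YA (datC K kap) C Y)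
      (ZA (datC K kap) c₀ Z) d n (i + 1) ω) (E : EntS (datC K kap) d n ω i V x q D) :
    ∃ f, f ∉ FU V ∧ IsCor f (lf (tS (tst (datC K kap) d n ω (i + 1)) q ω)) := by
  obtain ⟨h1, κ, h2⟩ := H.app h E
  have h4 := H.hC
  have h5 := inv_ts (datC K kap) d n ω i
  rw [E.V0] at h5
  obtain ⟨g1, g2, -⟩ := num_ent E (C₁ := 1 + 12) (C := C) (by norm_num) (by omega) H.hK (H.dec h) le_rfl
    (H.pow h) (H.big h)
  exact cor_of_ent (L := Hook.ndL K (d 0)) E rfl (datC_ndl K kap d _ _) h5 h1 E.act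
    (by exact_mod_cast InvN.unt_pos (H.big h)) h2 g1 g2

end Row

end Pool.Agent.SixB.StS
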