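import Pool.Agent.Lib.SixB.S8InvWD
import Pool.Agent.Lib.SixB.S8InvA
import Pool.Agent.Lib.SixB.S8RareK

/-!
# Step 8: the stored part of the row `rare`

* `StgW.of_inv`: the facts of a stage from the invariant of the running stages, outside of the dead stops;
* `unt_large`, `NumC.ndL_pos`: numbers;
* `stT_ts`: the stored part of the invariant of the state before a stage;
* `wI_of`: **the part `WI` of the input `stJ` of `RareIn`**, for every `J` which contains `WI`.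
-/

set_option autoImplicit false

namespace Pool.Agent.SixB.Tru

open Filter Finset Topology Pool.Agent.Perc Pool.Agent.PercT Pool.Agent.PercX60 Pool.Agent.PercD
open Pool.Agent.SixB Pool.Agent.SixB.Rule Pool.Agent.SixB.Dct Pool.Agent.SixB.Mv
open Pool.Agent.SixB.Blow (subE)
open Pool.Agent.SixB.Top (lf rg)
open Pool.Agent.SixB.TruR (ts)
open Pool.Agent.SixB.Cov (datC)

variable {𝔇 : Dat} {d : ℕ → ℕ} {n i m a : ℕ} {ω : Cfg} {C c₀ : ℤ} {K kap : ℕ} {s : TS}

/-! ### A stage outside of the dead stops -/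

/-- **The facts of a stage**, outside of the dead stops. -/
theorem StgW.of_inv (hN : NumO d n (i + 1) (rad C (unt d n) d (i + 1)))
    (hR : ω ∉ Dead C 𝔇 d n i) (hV : RunVI C 𝔇 d n i (tst 𝔇 d n ω i) ω)
    (hp : (tst 𝔇 d n ω i).q = none →
      (𝔇.cs d (tst 𝔇 d n ω i).x).Plant (𝔇.prm d) (msh d (tst 𝔇 d n ω i).x.length) →
      PlW 𝔇 d n (tst 𝔇 d n ω i)) :
    StgW 𝔇 d n (rad C (unt d n) d (i + 1)) (tst 𝔇 d n ω i) ω where
  plant := hp
  move := by
    intro q D hq hD hi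
    have hlen : (tst 𝔇 d n ω i).x.length = i + 1 := tst_len 𝔇 d n ω i
    have hval : D.Val (𝔇.gr d (tst 𝔇 d n ω i).x D) := by
      refine val_gr hD (msh_pos _ _) ?_
      rw [hlen]
      exact hN.h16
    have key : ¬ D.Void (𝔇.gr d (tst 𝔇 d n ω i).x D) →
        D.RegMv (𝔇.gr d (tst 𝔇 d n ω i).x D) (mvR 𝔇 d n (tst 𝔇 d n ω i) q D false ω) (unt d n)
          (uS (tst 𝔇 d n ω i) q ω) (vS (tst 𝔇 d n ω i).V q ω (tst 𝔇 d n ω i).t
            (mvT 𝔇 d n (tst 𝔇 d n ω i) q D false ω) : Set (ℤ × ℤ)) := by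
      intro hv
      obtain ⟨κ, m, x, i₁, j₁, t, j₂, i₂, X, σ, hσ⟩ := exists_regS hR hq hD hi hv
      rw [hlen] at X
      obtain ⟨hT, R⟩ := X.rg (stO_tst hq) (by rw [hlen]; exact hN) hv hσ
      have h1 := R.reg
      rw [hT, ← vs_pS]
      exact h1
    have h1 := hV q D hq hD hi
    rw [hlen] at h1
    rcases h1 with ⟨κ, m, x, i₁, j₁, t, j₂, i₂, X⟩ | ⟨κ, m, x, X⟩
    · exact MvW.of_run X.toRunB hval key
    · exact MvW.of_run X.toRunB hval key

/-! ### Numbers -/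

/-- The unit is large. -/
theorem unt_large (h : 2 ^ d 0 * (2 * 2 ^ d 0 + 2) ≤ n) : ∃ r₀ : ℕ, 2 ≤ unt d n ∧
    n = 2 ^ d 0 * unt d n + r₀ ∧ 2 * r₀ + 1 < unt d n := by
  have hp : 0 < 2 ^ d 0 := by positivity
  have h1 : 2 * 2 ^ d 0 + 2 ≤ unt d n := by
    unfold unt
    exact (Nat.le_div_iff_mul_le hp).2 (by rw [mul_comm]; exact h)
  have h2 : n % 2 ^ d 0 < 2 ^ d 0 := Nat.mod_lt _ hp
  exact ⟨n % 2 ^ d 0, by omega, (Nat.div_add_mod n (2 ^ d 0)).symm, by omega⟩

/-! ### The input of the row `rare` -/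

section Rare

variable {G : ℕ → ℕ → ℕ} {N₁ : (ℕ → ℕ) → ℕ} {Y Z : EvF} {J : InvP}

private theorem numR_aux (h : NumC G N₁ d n m) (hG : ∀ i e, e + a ≤ G i e)
    (hN : ∀ d, 2 ^ d 0 ≤ N₁ d) : NumR a d n m :=
  ⟨Nat.div_pos ((hN d).trans h.2) (by positivity), fun i hi => (hG i _).trans (h.1 i (by omega))⟩

/-- The needles have at least one cell. -/
theorem NumC.ndL_pos (h : NumC G N₁ d n m) (hK : 0 < K) (hG : ∀ i e, K ≤ G i e) :
    1 ≤ Hook.ndL K (d 0) := by
  have h1 : K ≤ d 0 := (hG 0 (d 1)).trans (h.1 0 (by omega))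
  have h2 : d 0 < 2 ^ d 0 := Nat.lt_two_pow_self
  exact (Nat.le_div_iff_mul_le hK).2 (by omega)

/-- The state before a stage has the stored part of the invariant, with the radius of the stage. -/
theorem stT_ts (hC : 1 ≤ C) (hu : 2 ^ d 0 * (2 * 2 ^ d 0 + 2) ≤ n)
    (h : ∀ l < i, WI (datC K kap) C d n l (tst (datC K kap) d n ω l) ω) :
    StT (datC K kap) d n (rad C (unt d n) d i) (ts (datC K kap) d n ω i) ω := by
  cases i with
  | zero =>
    obtain ⟨r₀, h1, h2, h3⟩ := unt_large hu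
    exact stT_init h1 h2 h3 hC
  | succ i => exact (h i (Nat.lt_succ_self i)).1

/-- **The stored part of the input `stJ` of the row `rare`**, for every invariant `J` which contains `WI`.
`hpl`: the facts of a planting stage. -/
theorem wI_of (hC : 13 ≤ C) (ha : 16 * (9 * C + 6) ≤ 2 ^ a) (hG : ∀ i e, e + a ≤ G i e)
    (hN : ∀ d, 2 ^ d 0 * (2 * 2 ^ d 0 + 2) ≤ N₁ d)
    (hJ : ∀ {d n i s ω}, J d n i s ω → WI (datC K kap) C d n i s ω)
    (hpl : (ts (datC K kap) d n ω i).q = none →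
      ((datC K kap).cs d (ts (datC K kap) d n ω i).x).Plant ((datC K kap).prm d)
        (msh d (ts (datC K kap) d n ω i).x.length) →
      PlW (datC K kap) d n (ts (datC K kap) d n ω i))
    (H : GdP (InvA C c₀ K J (datC K kap)) (datC K kap) (NumC G N₁)
        (YA (datC K kap) C Y) (ZA (datC K kap) c₀ Z) d n i ω) :
    WI (datC K kap) C d n i (tst (datC K kap) d n ω i) ω := by
  have hN2 : ∀ d : ℕ → ℕ, 2 ^ d 0 ≤ N₁ d := fun d =>
    le_trans (Nat.le_mul_of_pos_right _ (by omega)) (hN d)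
  cases i with
  | zero =>
    obtain ⟨r₀, h1, h2, h3⟩ := unt_large ((hN d).trans H.num.2)
    exact wI_zero h1 h2 h3 hC
  | succ i =>
    have hI := (notMem_bdI.1 (H.b i (Nat.lt_succ_self i))).1
    have hR : ω ∉ Dead C (datC K kap) d n i := fun h => H.y i (Nat.lt_succ_self i) (Or.inl h)
    have hnum : NumR a d n (i + 1) := numR_aux H.num hG hN2
    have hO := (hnum.le (Nat.le_succ i)).numO (C := C) (by omega) ha le_rfl
    exact wI_step hC hnum.1 (hJ hI.2.2.2.2) (StgW.of_inv hO hR hI.1 hpl)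

end Rare

end Pool.Agent.SixB.Tru
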