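import Pool.Agent.Lib.SixB.S8Kept
import Pool.Agent.Lib.SixB.S8FinD
import Pool.Agent.Lib.SixB.S8StartBox

/-!
# Step 8: the stored discs stay fresh, the first set

`box0_fresh`: the hypothesis `h0` of `kept_disc`, `kept_disc1` for the official data: the faces of the
magnified first set are faces of the box.
-/

set_option autoImplicit false

namespace Pool.Agent.SixB.Tru

open Pool.Agent.Perc Pool.Agent.Perc6 Pool.Agent.PercX60 Pool.Agent.SixB Pool.Agent.SixB.Dct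
  Pool.Agent.SixB.Mv

variable {K kap : ℕ} {d : ℕ → ℕ} {n : ℕ} {f : ℤ × ℤ} {c : ℤ}

/-- The faces of the magnified first set are faces of the box. -/
theorem blow_W0_sub (h : 2 ^ d 0 * (2 * 2 ^ d 0 + 1) ≤ n) :
    blow (unt d n : ℤ) ((Cov.datC K kap).W₀ (d 0)) ⊆ FU (Box n) := by
  obtain ⟨h1, h2, h3⟩ := Box0.unt_spec h
  exact (Box0.app_FU h1 h2 h3).sub

/-- **The first stored set is fresh.** -/
theorem box0_fresh (h : 2 ^ d 0 * (2 * 2 ^ d 0 + 1) ≤ n) (hc : 0 ≤ c)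
    (hf : Dp (blow (unt d n : ℤ) ((Cov.datC K kap).W₀ (d 0))) f c) : f ∈ FU (Box n) :=
  blow_W0_sub h (hf.mem hc)

/-- The same from the official bound for `n`. -/
theorem box0_fresh' (h : 2 ^ d 0 * (2 * 2 ^ d 0 + 3) ≤ n) (hc : 0 ≤ c) :
    ∀ f, Dp (blow (unt d n : ℤ) ((Cov.datC K kap).W₀ (d 0))) f c → f ∈ FU (Box n) :=
  fun _ hf => box0_fresh ((Nat.mul_le_mul_left _ (by omega)).trans h) hc hf

end Pool.Agent.SixB.Tru
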