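import Pool.Agent.Lib.SixB.S8KeptL
import Pool.Agent.Lib.SixB.S8InvSd

/-!
# Step 8, KEPT: the face in front of the strand at the entrance stage

* `out_of_ent`, `StIn.out`: at the entrance stage the face in front of the strand is not a face of the
  magnified domain (`OutP`), if the faces around the magnified disc of the target are fresh.
-/

set_option autoImplicit false

namespace Pool.Agent.SixB.StS

open Finset Pool.Agent.Perc Pool.Agent.Perc6 Pool.Agent.PercT Pool.Agent.Perc6.C2Aux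
open Pool.Agent.Perc.Tips Pool.Agent.PercU Pool.Agent.PercX60
open Pool.Agent.MP_6bd702.H23 (Ed ea eb)
open Pool.Agent.SixB Pool.Agent.SixB.Top Pool.Agent.SixB.Mv
open Pool.Agent.SixB.Rule Pool.Agent.SixB.Dct Pool.Agent.SixB.Hook
open Pool.Agent.SixB.Tru

variable {n : ℕ} {V : Finset (ℤ × ℤ)} {𝔇 : Dat} {d : ℕ → ℕ} {i : ℕ} {ω : Cfg} {x : List Rec}
  {q : Rule.Ndl} {D : Dom}

/-- **The face in front of the strand at the entrance stage**, from the left end of the tip side. -/
theorem out_of_ent (E : EntS 𝔇 d n ω i V x q D)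
    (hc : ∃ f, f ∉ FU V ∧ IsCor f (lf (tS (tst 𝔇 d n ω (i + 1)) q ω)))
    (h1 : ∀ f ∈ blow (unt d n : ℤ) (𝔇.disc d x), Dp (FU V) f 1) :
    OutP 𝔇 d n (tst 𝔇 d n ω (i + 1)) ω := by
  intro q' D' hq hD _
  rw [E.st'] at hq hD hc ⊢
  rw [E.co'] at hD
  obtain rfl := Option.some.inj hq
  obtain rfl := Option.some.inj hD
  have h2 := out_start (F := FU V) (P := blow (unt d n : ℤ) (𝔇.disc d x)) hc h1
  refine fun h => h2 (Blow.blow_subset ?_ h)
  rw [E.dom]
  intro f hf
  rcases compT_sub_insert hf with h3 | h3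
  · rw [h3, E.disc]
    exact self_mem_compT
  · exact h3.1

section Row

open Pool.Agent.SixB.Cov (datC)

variable {C c₀ : ℤ} {K kap a : ℕ} {J : InvP} {G : ℕ → ℕ → ℕ} {N₁ : (ℕ → ℕ) → ℕ} {Y Z : EvF}

/-- **The face in front of the strand at the entrance stage.** -/
theorem StIn.out (H : StIn C c₀ K kap a J G N₁ Y Z)
    (h : GdP (InvA C c₀ K J (datC K kap)) (datC K kap) (NumC G N₁) (YA (datC K kap) C Y)
      (ZA (datC K kap) c₀ Z) d n (i + 1) ω) (E : EntS (datC K kap) d n ω i V x q D)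
    (h1 : ∀ f ∈ blow (unt d n : ℤ) ((datC K kap).disc d x), Dp (FU V) f 1) :
    OutP (datC K kap) d n (tst (datC K kap) d n ω (i + 1)) ω :=
  out_of_ent E (H.cor h E) h1

end Row

end Pool.Agent.SixB.StS
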