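import Pool.Agent.Lib.SixB.S8RareJ
import Pool.Agent.Lib.SixB.S8GateS

/-!
# Step 8: the running needle is a needle with a short hook

`HkI c₀ K`: the running needle of the stage `i` is the needle `hookU` of the remaining set with a
hook in the square of radius `c₀ * D_i - 1` around its first face.

* `hkI_dec`, `hkI_step`: decided by the explored faces, preserved if it holds for a new needle;
* `HkI.ndI`: the needle has few pieces;
* `HkI.not_gate`: there are no gates at the beginning of the step.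
-/

set_option autoImplicit false

namespace Pool.Agent.SixB.Tru

open Finset Pool.Agent.Perc Pool.Agent.PercT Pool.Agent.PercX60
open Pool.Agent.SixB Pool.Agent.SixB.Rule Pool.Agent.SixB.Dct Pool.Agent.SixB.Mv
open Pool.Agent.SixB.WC Pool.Agent.SixB.TruR Pool.Agent.SixB.Ndle

/-- The needle `q` is the needle of the set of cells `C` with the target `z` in the remaining set `V`, with
a hook of radius `r`. -/
structure HkOK (u : ℤ) (L : ℕ) (V : Finset (ℤ × ℤ)) (q : Rule.Ndl) (C : Set (ℤ × ℤ)) (z : ℤ × ℤ)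
    (r : ℕ) : Prop where
  eq : q = Hook.hookU u L V C z
  fin : C.Finite
  le : L ≤ dlt (Hook.fin C) z
  pre : Hook.Pre V (blow u C) (ndF u (Hook.fin C) z L) (ndA u (Hook.fin C) z)
    (ndB u (Hook.fin C) z) r

/-- The running needle is a needle with a short hook. -/
def HkI (c₀ : ℤ) (K : ℕ) : InvP := fun d n i s _ =>
  ∀ q, s.q = some q → ∃ (C : Set (ℤ × ℤ)) (z : ℤ × ℤ) (r : ℕ),
    HkOK (unt d n) (Hook.ndL K (d 0)) s.V q C z r ∧ (r : ℤ) + 1 ≤ c₀ * Sc.ls d n (d i)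

section

variable {𝔇 : Dat} {d : ℕ → ℕ} {n i m j K : ℕ} {ω : Cfg} {c₀ : ℤ} {s : TS} {q : Rule.Ndl}

theorem hkI_dec (c₀ : ℤ) (K : ℕ) : InvDec (HkI c₀ K) := fun _ _ _ _ _ _ _ h => h

/-- The property is preserved. -/
theorem hkI_step (hc : 0 ≤ c₀) (hd : d (i + 1) ≤ d i) (h : HkI c₀ K d n i (tst 𝔇 d n ω i) ω)
    (hpl : (tst 𝔇 d n ω i).q = none → ∀ q, (tst 𝔇 d n ω (i + 1)).q = some q →
      ∃ (C : Set (ℤ × ℤ)) (z : ℤ × ℤ) (r : ℕ),
        HkOK (unt d n) (Hook.ndL K (d 0)) (tst 𝔇 d n ω (i + 1)).V q C z r ∧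
          (r : ℤ) + 1 ≤ c₀ * Sc.ls d n (d (i + 1))) :
    HkI c₀ K d n (i + 1) (tst 𝔇 d n ω (i + 1)) ω := by
  intro q hq
  cases hq0 : (tst 𝔇 d n ω i).q with
  | none => exact hpl hq0 q hq
  | some q₀ =>
    rcases (tst_run_or hq0).2 with ⟨h1, h2⟩ | ⟨h1, -⟩
    · rw [hq] at h1
      cases h1
      obtain ⟨C, z, r, h3, h4⟩ := h _ hq0
      rw [h2]
      exact ⟨C, z, r, h3, h4.trans (mul_ls_mono hc hd)⟩
    · rw [hq] at h1
      cases h1

theorem HkOK.ndOK {u : ℤ} {L r : ℕ} {V : Finset (ℤ × ℤ)} {C : Set (ℤ × ℤ)} {z : ℤ × ℤ} (hu : 0 < u)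
    (h : HkOK u L V q C z r) : NdOK q.1 (r + 1) 2 := by
  rw [h.eq]
  exact NdC.ndOK_hookU hu h.le h.pre

/-- **The needle has few pieces.** -/
theorem HkI.ndI (hu : 0 < unt d n) (h : HkI c₀ K d n i s ω) : NdI c₀ d n i s ω := by
  intro q hq
  obtain ⟨C, z, r, h1, h2⟩ := h q hq
  exact NdC.NdOK.mono (h1.ndOK (by exact_mod_cast hu)) h2 le_rfl

/-- **No gates at the beginning of the step.** -/
theorem HkI.not_gate (hu : 0 < unt d n) (h : HkI c₀ K d n i s ω) (hq : s.q = some q) {R W : ℤ}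
    (hR : 5 * W + 2 * (c₀ * Sc.ls d n (d i)) + 8 * unt d n + 16 ≤ R) {z : ℤ × ℤ}
    (hz : fa (eS s.V q) ∉ Near.Bx z R) : ¬ (exS s.V q).Gate ω 0 z W := by
  obtain ⟨C, z₀, r, h1, h2⟩ := h q hq
  rw [h1.eq] at hz ⊢
  exact GZ.not_gate_exS h1.fin (by exact_mod_cast hu) h1.le h1.pre (R := R) (by omega) hz

/-- The scales: the width of the gates is small compared with their distance. -/
theorem gR_ge (hc : 0 ≤ c₀) (hd0 : d m ≤ d 0) {e : ℕ} (he : d (m + 1) = e) {k : ℕ}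
    (hk : 5 * 8 + 2 * c₀.toNat + 8 + 16 ≤ 2 ^ k) (hm : e + 6 + 3 * (k + 6) ≤ d m)
    (hn : 2 ^ d 0 ≤ n) : 5 * gW d n m + 2 * (c₀ * Sc.ls d n (d m)) + 8 * unt d n + 16 ≤ gR d n m := by
  unfold gW gR
  rw [he]
  have h1 : e + 6 + k ≤ Sc.eR (d m) e := by
    unfold Sc.eR
    omega
  have h2 : Sc.eR (d m) e ≤ d m := by
    unfold Sc.eR
    omega
  have h3 : Sc.ls d n (Sc.eR (d m) e) * 2 ^ k ≤ Sc.ls d n (e + 6) :=
    Sc.ls_quot n h1 (h2.trans hd0)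
  have h4 : Sc.ls d n (d m) ≤ Sc.ls d n (Sc.eR (d m) e) := Sc.ls_anti n h2
  have h5 : ((unt d n : ℕ) : ℤ) ≤ Sc.ls d n (Sc.eR (d m) e) := Sc.unit_le_ls n _
  have h6 : 0 < Sc.ls d n (Sc.eR (d m) e) := Sc.ls_pos hn _
  have h7 : (5 * 8 + 2 * c₀ + 8 + 16 : ℤ) ≤ 2 ^ k := by
    have h8 : ((5 * 8 + 2 * c₀.toNat + 8 + 16 : ℕ) : ℤ) ≤ ((2 ^ k : ℕ) : ℤ) := by exact_mod_cast hk
    push_cast at h8
    rw [Int.toNat_of_nonneg hc] at h8
    exact h8
  have h9 : c₀ * Sc.ls d n (d m) ≤ c₀ * Sc.ls d n (Sc.eR (d m) e) :=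
    mul_le_mul_of_nonneg_left h4 hc
  have h10 : Sc.ls d n (Sc.eR (d m) e) * (5 * 8 + 2 * c₀ + 8 + 16) ≤
      Sc.ls d n (Sc.eR (d m) e) * 2 ^ k := mul_le_mul_of_nonneg_left h7 h6.le
  nlinarith

end

end Pool.Agent.SixB.Tru
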