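import Pool.Agent.Lib.SixB.S8KeptS
import Pool.Agent.Lib.SixB.S8RareH
import Pool.Agent.Lib.SixB.S8CountK

/-!
# Step 8: the gates of all strands of the stages `≤ m`

Outside of the event `ZGh` of the stage `m` the gates of width `≤ c₁ gW` of the strands which run in the
states `tst i`, `i ≤ m`, are near the tip or near the base, at all times of the loop: `gate_all` (the
form with `Nb`), `gate_per` (the form with the last time of the loop).
-/

set_option autoImplicit false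

namespace Pool.Agent.SixB.TruY

open Finset Pool.Agent.Perc Pool.Agent.PercT Pool.Agent.PercX60 Pool.Agent.PercU
open Pool.Agent.SixB Pool.Agent.SixB.Rule Pool.Agent.SixB.Dct Pool.Agent.SixB.Mv
open Pool.Agent.SixB.Tru Pool.Agent.SixB.NearCut
open Pool.Agent.SixB.Near (Bx)
open Pool.Agent.SixB.TruG (ZGh)
open Pool.Agent.SixB.Par (Nb2)
open Pool.Agent.MP_6bd702.H23 (Ed)

/-- The vertex of a unit edge in front of a face of a box. -/
theorem nb2_of_bx {a : UE} {v : ℤ × ℤ} {D R : ℤ} (h : fa a ∈ Bx v D) (hR : D + 4 ≤ R) :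
    Nb2 (ua a) v R := by
  have h1 : fa a ∈ RF (v.1 - D) (v.1 + D) (v.2 - D) (v.2 + D) := h
  unfold RF at h1
  rw [mem_product, mem_Ico, mem_Ico] at h1
  have h2 := (CountP.sd_le_iff (u := ua a) (v := fa a)).1 (sd_ua_fa a)
  unfold Nb2
  rw [abs_le, abs_le]
  omega

theorem nds_mono {n : ℕ} {Ru : Rul} {C C' : ℤ} {N₀ j : ℕ} {ω : Cfg} (h : NM.Nds n Ru C N₀ j ω)
    (hC : C ≤ C') : NM.Nds n Ru C' N₀ j ω :=
  fun i hi q hq => NdC.NdOK.mono (h i hi q hq) hC le_rfl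

section

variable {𝔇 : Dat} {d : ℕ → ℕ} {n m h M i t K : ℕ} {ω : Cfg} {q : Rule.Ndl} {b c₀ c₁ r' : ℤ}
  {v : ℤ × ℤ}

/-- **The gates at all times.** -/
theorem gate_all (hN : KNum b c₀ c₁ M d n m h) (hd : ∀ j k, j ≤ k → k ≤ m → d k ≤ d j) (hc₀ : 0 ≤ c₀)
    (hI : ∀ j ≤ m, HkI c₀ K d n j (tst 𝔇 d n ω j) ω) (hZ : ω ∉ ZGh 𝔇 c₀ c₁ 2 (4 * h + 1) d n m)
    (hi : i ≤ m) (hq : (tst 𝔇 d n ω i).q = some q)
    (hNb : Nb (cfS (tst 𝔇 d n ω i).V q ω) (Tru.eS (tst 𝔇 d n ω i).V q) t)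
    (hr' : r' ≤ c₁ * gW d n m) (hg : (exS (tst 𝔇 d n ω i).V q).Gate ω t v r') :
    Nb2 (ua (pS (tst 𝔇 d n ω i).V q ω t)) v (kt d n m h) ∨
      Nb2 (ua (Tru.eS (tst 𝔇 d n ω i).V q)) v (kt d n m h) := by
  have hls : Sc.ls d n (d i) ≤ Sc.ls d n (d m) := Sc.ls_anti n (hd i m hi le_rfl)
  have hcl : c₀ * Sc.ls d n (d i) ≤ c₀ * Sc.ls d n (d m) := mul_le_mul_of_nonneg_left hls hc₀
  have h1 := TruG.gate_near_tip (l := m) (D := Sc.ls d n (d (m + 1) + (4 * h + 1))) hq hZ hr' le_rfl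
    (fun j hj => by
      have hj' : (𝔇.cs d (tst 𝔇 d n ω i).x).j = j + 1 := hj
      refine nds_mono (nds_of hc₀ (m := i) (fun k hk => ?_) (fun k hk => (hI k (by omega)).ndI hN.u)
        (by omega)) hcl
      exact hd k i hk hi)
    hNb (fun hz => (hI i hi).not_gate hN.u hq (by have := hN.g0; omega) hz) hg
  have h2 := hN.zt
  exact h1.imp (fun h => nb2_of_bx h h2) fun h => nb2_of_bx h h2

end

end Pool.Agent.SixB.TruY
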