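import Pool.Agent.Lib.SixB.S8RareL
import Pool.Agent.Lib.SixB.S8InvWD

/-!
# Step 8: the row `rare`, the placing stages

* `PlH c₀ K 𝔇 d n i s`: the facts of a stage in which a needle is placed: `PlW` (the stored part) and the
  hook of the new needle;
* `plantIn_of`: the input `plant` of `RareIn` from these facts;
* `plH_of`: the facts, if the faces of the disc are fresh (official data `datC`).
-/

set_option autoImplicit false

namespace Pool.Agent.SixB.Tru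

open Filter Finset Topology Pool.Agent.Perc Pool.Agent.PercT Pool.Agent.PercX60 Pool.Agent.PercD
open Pool.Agent.SixB Pool.Agent.SixB.Rule Pool.Agent.SixB.Dct Pool.Agent.SixB.Mv
open Pool.Agent.SixB.TruR (ts)

/-- The facts of a stage `i` in which a needle is placed, `s` the state before the stage. -/
def PlH (c₀ : ℤ) (K : ℕ) (𝔇 : Dat) (d : ℕ → ℕ) (n i : ℕ) (s : TS) : Prop :=
  PlW 𝔇 d n s ∧ ∃ r : ℕ, HkOK (unt d n) (Hook.ndL K (d 0)) s.V (nxQ 𝔇 d n s) (𝔇.disc d s.x)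
    (𝔇.zt (d 0) (𝔇.cs d s.x).j) r ∧ (r : ℤ) + 1 ≤ c₀ * Sc.ls d n (d i)

section

variable {c₀ : ℤ} {K : ℕ} {𝔇 : Dat} {d : ℕ → ℕ} {n i : ℕ} {ω : Cfg} {D : Dom}

/-- The coarse rule has placed a needle. -/
theorem plant_of_run (hq : (ts 𝔇 d n ω i).q = none) (hr : (𝔇.cs d (ts 𝔇 d n ω i).x).run = none)
    (hD : (𝔇.cs d (tst 𝔇 d n ω i).x).run = some D) :
    (𝔇.cs d (ts 𝔇 d n ω i).x).Plant (𝔇.prm d) (msh d (ts 𝔇 d n ω i).x.length) := by
  by_contra hp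
  rw [tst_eq_nxS, nxS_rest hq hr, plS_x, 𝔇.cs_cons, CSt.mv_idle_eq hr hp] at hD
  cases hD

/-- **The input `plant` of `RareIn`** from the facts of the stage. -/
theorem plantIn_of (hq : (ts 𝔇 d n ω i).q = none) (hr : (𝔇.cs d (ts 𝔇 d n ω i).x).run = none)
    (hD : (𝔇.cs d (tst 𝔇 d n ω i).x).run = some D)
    (hP : (𝔇.cs d (ts 𝔇 d n ω i).x).Plant (𝔇.prm d) (msh d (ts 𝔇 d n ω i).x.length) →
      PlH c₀ K 𝔇 d n i (ts 𝔇 d n ω i)) :
    (∃ q, (tst 𝔇 d n ω i).q = some q) ∧ ∀ q, (tst 𝔇 d n ω i).q = some q →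
      ∃ (X : Set (ℤ × ℤ)) (z : ℤ × ℤ) (r : ℕ),
        HkOK (unt d n) (Hook.ndL K (d 0)) (tst 𝔇 d n ω i).V q X z r ∧
          (r : ℤ) + 1 ≤ c₀ * Sc.ls d n (d i) := by
  obtain ⟨h1, r, h2, h3⟩ := hP (plant_of_run hq hr hD)
  have e : tst 𝔇 d n ω i = plS 𝔇 d n (ts 𝔇 d n ω i) := by
    rw [tst_eq_nxS, nxS_rest hq hr]
  have e1 : (tst 𝔇 d n ω i).q = some (nxQ 𝔇 d n (ts 𝔇 d n ω i)) := by
    rw [e]
    exact h1.plc
  have e2 : (tst 𝔇 d n ω i).V = (ts 𝔇 d n ω i).V := by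
    rw [e, plS_V]
  refine ⟨⟨_, e1⟩, fun q hq' => ?_⟩
  rw [e1] at hq'
  cases hq'
  rw [e2]
  exact ⟨_, _, r, h2, h3⟩

end

/-! ### The facts of the placing stage -/

section Pl

variable {c₀ : ℤ} {K kap : ℕ} {d : ℕ → ℕ} {n i : ℕ} {ω : Cfg} {s : TS} {r : ℤ}

/-- The disc of the next needle is finite. -/
theorem StT.disc_fin {𝔇 : Dat} (H : StT 𝔇 d n r s ω)
    (hp : (𝔇.cs d s.x).Plant (𝔇.prm d) (msh d s.x.length)) : (𝔇.disc d s.x).Finite :=
  H.inv.fin.subset ((Top.compT_sub hp.2.1).trans CSt.erW_subset)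

/-- **The facts of the placing stage**, if the faces of the disc are fresh. `r`: the radius of the stored
part before the stage. -/
theorem plH_of (H : StT (Cov.datC K kap) d n r s ω) (hu : 0 < unt d n)
    (hK : 1 ≤ Hook.ndL K (d 0)) (hq : s.q = none)
    (hp : ((Cov.datC K kap).cs d s.x).Plant ((Cov.datC K kap).prm d) (msh d s.x.length))
    (hf : blow (unt d n : ℤ) ((Cov.datC K kap).disc d s.x) ⊆ FU s.V) (hr0 : 0 ≤ r)
    (hr : r + 6 * (unt d n * msh d s.x.length) + 6 ≤ unt d n * (Hook.ndL K (d 0) + 1))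
    (hh : 2 * ((unt d n : ℤ) * (Hook.ndL K (d 0) + 1)) + 1 ≤ 3 * (n / K : ℕ))
    (hc : r + 6 * (unt d n * msh d s.x.length) + 6 ≤ c₀ * Sc.ls d n (d i)) :
    PlH c₀ K (Cov.datC K kap) d n i s := by
  have hD := H.nr hq
  have hu' : (0 : ℤ) < unt d n := by exact_mod_cast hu
  have hfin := H.disc_fin hp
  obtain ⟨κ, hA⟩ := H.app_disc hq hu hp.2.1 hf
  have hL : Hook.ndL K (d 0) ≤ Ndle.dlt (Hook.fin ((Cov.datC K kap).disc d s.x))
      ((Cov.datC K kap).zt (d 0) ((Cov.datC K kap).cs d s.x).j) := by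
    have h1 : 3 * Hook.ndL K (d 0) ≤ Ndle.dlt (toF ((Cov.datC K kap).disc d s.x))
        ((Cov.datC K kap).zt (d 0) ((Cov.datC K kap).cs d s.x).j) := hp.2.2.1
    rw [Cov.fin_eq_toF]
    omega
  have hpre := Hook.pre_of_app (V := s.V) hfin hu' hL hK hA subset_rfl fun a _ b _ hb => hb
  have hm : (0 : ℤ) < msh d s.x.length := msh_pos d _
  have hum : 0 ≤ (unt d n : ℤ) * msh d s.x.length := by positivity
  have e1 : (((r + 6 * (unt d n * msh d s.x.length) + 6 - 1).toNat : ℕ) : ℤ) =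
      r + 6 * (unt d n * msh d s.x.length) + 6 - 1 := Int.toNat_of_nonneg (by omega)
  have hok := Hook.hookU_ok (h := n / K) hu' hL hpre (by rw [e1]; omega) hh
  have hpl : (plS (Cov.datC K kap) d n s).q = some (nxQ (Cov.datC K kap) d n s) := by
    unfold plS
    rw [if_pos]
    refine ⟨?_, hok.1, ?_⟩
    · rw [(Cov.datC K kap).cs_cons, CSt.mv_plant_eq hD hp]
      rfl
    · obtain ⟨k, h1, h2, -⟩ := hok.2
      exact ⟨k, h1, h2⟩
  refine ⟨PlW.of_pre H hK hu hp hpl hpre, _, ⟨rfl, hfin, hL, hpre⟩, ?_⟩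
  rw [e1]
  omega

end Pl

end Pool.Agent.SixB.Tru
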