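import Pool.Agent.Lib.SixB.S8Kept
import Pool.Agent.Lib.SixB.S8RareM

/-!
# Step 8: the faces of a new needle are not deep in the stored set

The field `ndl` of `StgK`. The faces of the needle in the magnified disc are in the magnified cells of the
needle (`PlW.cel`), and these cells are not in the stored set after the stage. The faces of the hook are
within the distance `r + 1` of the first face of the needle.

* `HkOK.not_dp`: the faces of a needle with a hook of radius `r` are not deep in a set which does not meet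
  the cells of the needle;
* `ndl_far`: for the placing stage `PlcS`;
* `ndl_of`, `ndl_of_plH`: the field, from `PlW` and `HkOK`, from `PlH`.
-/

set_option autoImplicit false

namespace Pool.Agent.SixB.Tru

open Finset Pool.Agent.Perc Pool.Agent.PercT Pool.Agent.PercX60 Pool.Agent.Perc6
open Pool.Agent.SixB Pool.Agent.SixB.Rule Pool.Agent.SixB.Dct Pool.Agent.SixB.Mv
open Pool.Agent.SixB.TruR (ts)
open Pool.Agent.SixB.Ndle (sd ndF ndA ndB)

/-! ### A needle with a hook -/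

/-- A face near a face outside of the set is not deep. -/
theorem not_dp {X : Set (ℤ × ℤ)} {f g : ℤ × ℤ} {c : ℤ} (hg : g ∉ X) (h : sd f g ≤ c) :
    ¬ Dp X f c := fun H => hg (H g
  (by rw [abs_sub_comm]; exact (le_max_left _ _).trans h)
  (by rw [abs_sub_comm]; exact (le_max_right _ _).trans h))

/-- Neighbours have distance at most one. -/
theorem sd_le_one {f g : ℤ × ℤ} (h : AdjF f g) : sd f g ≤ 1 := by
  rcases adjF_iff.1 h with rfl | rfl | rfl | rfl <;>
    exact max_le (by rw [abs_le]; constructor <;> simp) (by rw [abs_le]; constructor <;> simp)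

section Hk

variable {u c : ℤ} {L r : ℕ} {V : Finset (ℤ × ℤ)} {q : Rule.Ndl} {C N X : Set (ℤ × ℤ)} {z : ℤ × ℤ}

/-- The first face of the needle is a face of the needle in the magnified disc. -/
theorem HkOK.ndA_mem (H : HkOK u L V q C z r) :
    ndA u (Hook.fin C) z ∈ QF q.1 ∧ ndA u (Hook.fin C) z ∈ blow u C := by
  refine ⟨?_, H.pre.sub _ H.pre.mem⟩
  rw [H.eq, Hook.qF_hookU]
  exact Or.inl (Finset.mem_coe.2 H.pre.mem)

/-- A face of the needle is in the magnified disc or near the first face. -/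
theorem HkOK.near (H : HkOK u L V q C z r) {f : ℤ × ℤ} (hf : f ∈ QF q.1) :
    f ∈ blow u C ∨ sd f (ndA u (Hook.fin C) z) ≤ r + 1 := by
  rw [H.eq, Hook.qF_hookU] at hf
  rcases hf with hf | hf
  · exact Or.inl (H.pre.sub _ (Finset.mem_coe.1 hf))
  · refine Or.inr ?_
    have h1 := (H.pre.hkS_sub (Finset.mem_coe.1 hf)).2.2
    have h2 := sd_le_one H.pre.adj
    rw [Ndle.sd_comm] at h2
    have h3 := Ndle.sd_triangle f (ndB u (Hook.fin C) z) (ndA u (Hook.fin C) z)
    omega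

/-- **The faces of the needle are not deep** in a set which does not meet its cells. -/
theorem HkOK.not_dp (H : HkOK u L V q C z r)
    (hcel : StartA.VQ (blow u C) (QF q.1) (Blow.cl u) = blow u N) (hX : ∀ f ∈ blow u N, f ∉ X)
    (hc : (r : ℤ) + 1 ≤ c) {f : ℤ × ℤ} (hf : f ∈ QF q.1) : ¬ Dp X f c := by
  have key : ∀ g ∈ QF q.1, g ∈ blow u C → g ∉ X := by
    intro g hg hgC
    refine hX g ?_
    rw [← hcel]
    exact ⟨hgC, g, hg, rfl⟩
  rcases H.near hf with h | h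
  · exact Tru.not_dp (key f hf h) (by rw [Ndle.sd_self]; omega)
  · exact Tru.not_dp (key _ H.ndA_mem.1 H.ndA_mem.2) (h.trans hc)

end Hk

/-! ### The placing stage -/

section Stg

variable {𝔇 : Dat} {d : ℕ → ℕ} {n i : ℕ} {ω : Cfg} {s : TS} {c c₀ : ℤ} {K : ℕ}

/-- **The field `ndl` of `StgK`**, for the placing stage `PlcS`. -/
theorem ndl_far {V : Finset (ℤ × ℤ)} {x : List Rec} {q : Rule.Ndl} {D : Dom} {r L : ℕ}
    (P : PlcS 𝔇 d n ω i V x q D) (hk : HkOK (unt d n) L V q (𝔇.disc d x) (𝔇.tgt d x) r)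
    (hcel : StartA.VQ (blow (unt d n : ℤ) (𝔇.disc d x)) (QF q.1) (Blow.cl (unt d n : ℤ)) =
      blow (unt d n : ℤ) (𝔇.ndl (d 0) (𝔇.disc d x) (𝔇.tgt d x))) (hc : (r : ℤ) + 1 ≤ c) :
    ∀ f ∈ QF q.1, ¬ Dp (blW 𝔇 d n (tst 𝔇 d n ω i)) f c := by
  intro f hf
  refine hk.not_dp hcel (fun g hg h => ?_) hc hf
  unfold blW at h
  rw [P.st] at h
  simp only [P.co] at h
  exact h.2 (Or.inl hg)

/-- The stored set after a needle is placed does not meet the cells of the needle. -/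
theorem blW_plant (hq : s.q = none) (hr : (𝔇.cs d s.x).run = none)
    (hp : (𝔇.cs d s.x).Plant (𝔇.prm d) (msh d s.x.length)) :
    ∀ f ∈ blow (unt d n : ℤ) (𝔇.ndl (d 0) (𝔇.disc d s.x) (𝔇.zt (d 0) (𝔇.cs d s.x).j)),
      f ∉ blW 𝔇 d n (nxS 𝔇 d n s ω) := by
  intro f hf h
  unfold blW at h
  rw [nxS_rest hq hr, plS_x, 𝔇.cs_cons, CSt.mv_plant_eq hr hp] at h
  exact h.2 (Or.inl hf)

/-- A needle which is placed is the needle `nxQ`, and the coarse rule places a needle. -/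
theorem nxS_placed {q : Rule.Ndl} (hq : s.q = none) (hr : (𝔇.cs d s.x).run = none)
    (h : (nxS 𝔇 d n s ω).q = some q) :
    q = nxQ 𝔇 d n s ∧ (𝔇.cs d s.x).Plant (𝔇.prm d) (msh d s.x.length) := by
  rw [nxS_rest hq hr] at h
  obtain ⟨h1, h2, -⟩ := plS_q h
  refine ⟨h1, ?_⟩
  by_contra hp
  rw [𝔇.cs_cons, CSt.mv_idle_eq hr hp] at h2
  cases h2

/-- **The field `ndl` of `StgK`** from `PlW` and `HkOK`. -/
theorem ndl_of {L : ℕ} (hr : s.q = none → (𝔇.cs d s.x).run = none)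
    (hP : s.q = none → (𝔇.cs d s.x).Plant (𝔇.prm d) (msh d s.x.length) → PlW 𝔇 d n s ∧
      ∃ r : ℕ, HkOK (unt d n) L s.V (nxQ 𝔇 d n s) (𝔇.disc d s.x)
        (𝔇.zt (d 0) (𝔇.cs d s.x).j) r ∧ (r : ℤ) + 1 ≤ c) :
    ∀ q, s.q = none → (nxS 𝔇 d n s ω).q = some q → ∀ f ∈ QF q.1,
      ¬ Dp (blW 𝔇 d n (nxS 𝔇 d n s ω)) f c := by
  intro q hq hq' f hf
  obtain ⟨rfl, hp⟩ := nxS_placed hq (hr hq) hq'
  obtain ⟨h1, r, h2, h3⟩ := hP hq hp
  exact h2.not_dp h1.cel (blW_plant hq (hr hq) hp) h3 hf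

/-- **The field `ndl` of `StgK`** from the facts `PlH` of the placing stage. -/
theorem ndl_of_plH (hr : s.q = none → (𝔇.cs d s.x).run = none)
    (hP : s.q = none → (𝔇.cs d s.x).Plant (𝔇.prm d) (msh d s.x.length) →
      PlH c₀ K 𝔇 d n i s) (hc : c₀ * Sc.ls d n (d i) ≤ c) :
    ∀ q, s.q = none → (nxS 𝔇 d n s ω).q = some q → ∀ f ∈ QF q.1,
      ¬ Dp (blW 𝔇 d n (nxS 𝔇 d n s ω)) f c := by
  refine ndl_of (L := Hook.ndL K (d 0)) hr fun hq hp => ?_
  obtain ⟨h1, r, h2, h3⟩ := hP hq hp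
  exact ⟨h1, r, h2, h3.trans hc⟩

/-- The radius of `PlH` in the form `u * msh`. -/
theorem ls_unt (d : ℕ → ℕ) (n i : ℕ) : Sc.ls d n (d i) = (unt d n : ℤ) * msh d i := rfl

end Stg

end Pool.Agent.SixB.Tru
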