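import Pool.Agent.Lib.SixB.S8NdlConn
import Pool.Agent.Lib.SixB.S8StartBoxW

/-!
# Step 8: the needle of the stage 0 does not cut its disc

The disc of the stage `0` is the initial set without its two outer layers (`er3_Rh`), a rhombus. A
rhombus has no corridor of width one (`noCor_Rh`), so `Ndle.NoCor` holds for this disc
(`noCor_disc0`), and the needle does not cut it (`econn_disc0`).
-/

set_option autoImplicit false

namespace Pool.Agent.SixB.Box0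

open Pool.Agent.Perc Pool.Agent.Perc6 Pool.Agent.Perc6.C2Aux Pool.Agent.Perc.Tips
open Pool.Agent.SixB.Top Pool.Agent.SixB.Ndle Pool.Agent.SixB.Mv

variable {a b c d : ℤ}

/-- **No corridors in a rhombus.** -/
theorem noCor_Rh (hab : a + 2 ≤ b) (hcd : c + 2 ≤ d) : NoCor (Rh a b c d) := by
  rintro ⟨f1, f2⟩ ⟨d1, d2⟩ ⟨e1, e2⟩ h1 h2 h3 h4 h5 h6
  simp only at h1 h2 h3
  rw [mem_Rh] at h4 h5 h6 ⊢
  simp only [Prod.mk_add_mk, Prod.mk_sub_mk] at h4 h5 h6 ⊢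
  have hd : (d1 = 1 ∧ d2 = 0) ∨ (d1 = -1 ∧ d2 = 0) ∨ (d1 = 0 ∧ d2 = 1) ∨ (d1 = 0 ∧ d2 = -1) := by
    rcases abs_cases d1 with ⟨a1, b1⟩ | ⟨a1, b1⟩ <;> rcases abs_cases d2 with ⟨a2, b2⟩ | ⟨a2, b2⟩ <;>
      omega
  have he : (e1 = 1 ∧ e2 = 0) ∨ (e1 = -1 ∧ e2 = 0) ∨ (e1 = 0 ∧ e2 = 1) ∨ (e1 = 0 ∧ e2 = -1) := by
    rcases abs_cases e1 with ⟨a1, b1⟩ | ⟨a1, b1⟩ <;> rcases abs_cases e2 with ⟨a2, b2⟩ | ⟨a2, b2⟩ <;>
      omega
  rcases hd with ⟨rfl, rfl⟩ | ⟨rfl, rfl⟩ | ⟨rfl, rfl⟩ | ⟨rfl, rfl⟩ <;>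
    rcases he with ⟨rfl, rfl⟩ | ⟨rfl, rfl⟩ | ⟨rfl, rfl⟩ | ⟨rfl, rfl⟩ <;> omega

/-- The cells of side one are the faces. -/
theorem gc_one_inj {x y : ℤ × ℤ} (h : gc 0 0 1 x = gc 0 0 1 y) : x = y := by
  unfold gc at h
  rw [Prod.mk.injEq] at h
  simp only [Int.ediv_one, add_zero] at h
  exact Prod.ext h.1 h.2

theorem er_Rh : EndApp.er Adj (gc 0 0 1) (Rh a b c d) = Rh (a + 1) (b - 1) (c + 1) (d - 1) := by
  ext f
  constructor
  · rintro ⟨-, h2⟩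
    have key : ∀ z, Adj f z → z ∈ Rh a b c d := fun z hz => h2 f rfl z hz
    have k1 := key (f.1 + 1, f.2) (adj_iff_adjFL.2 (adjF_iff.2 (Or.inl rfl)))
    have k2 := key (f.1 - 1, f.2) (adj_iff_adjFL.2 (adjF_iff.2 (Or.inr (Or.inl rfl))))
    have k3 := key (f.1, f.2 + 1) (adj_iff_adjFL.2 (adjF_iff.2 (Or.inr (Or.inr (Or.inl rfl)))))
    have k4 := key (f.1, f.2 - 1) (adj_iff_adjFL.2 (adjF_iff.2 (Or.inr (Or.inr (Or.inr rfl)))))
    rw [mem_Rh] at k1 k2 k3 k4 ⊢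
    simp only at k1 k2 k3 k4
    omega
  · intro h
    rw [mem_Rh] at h
    refine ⟨by rw [mem_Rh]; omega, fun y hy z hz => ?_⟩
    have hyf : y = f := gc_one_inj hy
    subst hyf
    rw [mem_Rh]
    rcases adjF_iff.1 (adj_iff_adjFL.1 hz) with rfl | rfl | rfl | rfl <;> simp only <;> omega

theorem er0_one (P : Set (ℤ × ℤ)) : EndApp.er0 (gc 0 0 1) P = P := by
  ext f
  constructor
  · exact fun h => h f rfl
  · intro h y hy
    rw [gc_one_inj hy]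
    exact h

/-- **The erosion of a rhombus.** -/
theorem er3_Rh : er3 (gc 0 0 1) (Rh a b c d) = Rh (a + 2) (b - 2) (c + 2) (d - 2) := by
  unfold er3
  rw [er0_one, er_Rh, er_Rh]
  ring_nf

/-- The eroded initial set. -/
theorem er3_W0 (e : ℕ) : er3 (gc 0 0 1) (W0 e) = Rh 2 (2 * 2 ^ e - 4) 3 (2 * 2 ^ e - 3) := by
  unfold W0
  rw [er3_Rh]
  ring_nf

theorem erW_W0 {e : ℕ} {z : ℤ × ℤ} (hz : z ∈ W0 e) : CSt.erW (W0 e) 1 z = er3 (gc 0 0 1) (W0 e) := by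
  unfold CSt.erW
  rw [compT_W0 hz, Set.sdiff_self, Set.empty_union]
  refine Set.inter_eq_left.2 ?_
  rw [er3_W0]
  intro f hf
  rw [mem_Rh] at hf
  rw [mem_W0]
  omega

/-- The eroded initial set is connected. -/
theorem econn_er3_W0 {e : ℕ} {z : ℤ × ℤ} (hz : z ∈ er3 (gc 0 0 1) (W0 e)) :
    Top.EConn (er3 (gc 0 0 1) (W0 e)) := by
  rw [er3_W0] at hz ⊢
  rw [mem_Rh] at hz
  have h2 : 2 ≤ e := by
    by_contra h
    have h3 : e = 0 ∨ e = 1 := by omega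
    rcases h3 with rfl | rfl <;> norm_num at hz <;> omega
  have h3 : (4 : ℤ) ≤ 2 ^ e := by
    calc (4 : ℤ) = 2 ^ 2 := by norm_num
      _ ≤ 2 ^ e := pow_le_pow_right₀ (by norm_num) h2
  exact econn_Rh (by omega) (by omega)

/-- **The disc of the stage `0`.** -/
theorem disc0_eq {e : ℕ} {z : ℤ × ℤ} (hz : z ∈ CSt.erW (W0 e) 1 z) :
    compT (CSt.erW (W0 e) 1 z) z = Rh 2 (2 * 2 ^ e - 4) 3 (2 * 2 ^ e - 3) := by
  have hzW : z ∈ W0 e := by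
    rcases hz with h | h
    · exact h.1
    · exact h.2
  rw [erW_W0 hzW] at hz ⊢
  rw [compT_econn (econn_er3_W0 hz) hz, er3_W0]

/-- **No corridors in the disc of the stage `0`.** -/
theorem noCor_disc0 {e : ℕ} {z : ℤ × ℤ} (hz : z ∈ CSt.erW (W0 e) 1 z) :
    NoCor (compT (CSt.erW (W0 e) 1 z) z) := by
  have hz' : z ∈ compT (CSt.erW (W0 e) 1 z) z := self_mem_compT
  rw [disc0_eq hz] at hz' ⊢
  rw [mem_Rh] at hz'
  have h2 : 2 ≤ e := by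
    by_contra h
    have h3 : e = 0 ∨ e = 1 := by omega
    rcases h3 with rfl | rfl <;> norm_num at hz' <;> omega
  have h3 : (4 : ℤ) ≤ 2 ^ e := by
    calc (4 : ℤ) = 2 ^ 2 := by norm_num
      _ ≤ 2 ^ e := pow_le_pow_right₀ (by norm_num) h2
  exact noCor_Rh (by omega) (by omega)

end Pool.Agent.SixB.Box0
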