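import Pool.Agent.Lib.SixB.S8NdlConn
import Pool.Agent.Lib.SixB.S8NdlCon0
import Pool.Agent.Lib.SixB.S8StartCh
import Pool.Agent.Lib.SixB.S8EscH
import Pool.Agent.Lib.SixB.S8ErodeG

/-!
# Step 8: the planting stage cuts nothing off

The disc of a planting stage is a union of cells of the grid of the stage (`disc_sat`), hence the disc
minus the needle is connected. So the first domain of the needle is the whole disc minus the needle
(`PlcS.dom_eq`) and after the stage the stored set is the old one (with its component of the target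
eroded) without the disc (`PlcS.W_eq`).
-/

set_option autoImplicit false

namespace Pool.Agent.SixB.Tru

open Finset Pool.Agent.Perc Pool.Agent.PercT Pool.Agent.PercX60
open Pool.Agent.SixB Pool.Agent.SixB.Rule Pool.Agent.SixB.Dct Pool.Agent.SixB.Mv
open Pool.Agent.SixB.Top (compT)
open Pool.Agent.SixB.Ndle (NoCor dlt)
open Pool.Agent.SixB.Cov (datC numN datC_prm)

section Coarse

variable {W : Set (ℤ × ℤ)} {L : ℤ} {z : ℤ × ℤ}

/-- **The component of the target in the set with the eroded component is saturated.** -/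
theorem compT_erW_sat (hL : 0 < L) (hz : z ∈ CSt.erW W L z) (x y : ℤ × ℤ)
    (h : gc 0 0 L x = gc 0 0 L y) (hx : x ∈ compT (CSt.erW W L z) z) :
    y ∈ compT (CSt.erW W L z) z := by
  rw [CSt.compT_erW_self hz] at hx ⊢
  exact compT_er3_sat hL (CSt.mem_er3_of hz Top.self_mem_compT) x y h hx

/-- The component of the target is the eroded one; the rest of the set is untouched. -/
theorem compT_erW_noCor (hL : 2 ≤ L) (hz : z ∈ CSt.erW W L z) :
    NoCor (compT (CSt.erW W L z) z) :=
  Ndle.noCor_sat (a := 0) (b := 0) hL (compT_erW_sat (by omega) hz)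

/-- The first domain of a clearance needle is the whole set without the needle. -/
theorem dom_eq_of {kp m K : ℕ} {zt : ℕ → ℤ × ℤ} {C : Set (ℤ × ℤ)} (hC : C.Finite)
    (hc : Top.EConn C) (hN : NoCor C) (hK : 2 ≤ K) (ha : (prmC kp m zt K).act C z) :
    (CSt.dom₀ (prmC kp m zt K) C z).P = C \ (prmC kp m zt K).ndl C z := by
  have h1 : Top.EConn (C \ (prmC kp m zt K).ndl C z) :=
    Ndle.econn_ndl_toF hC hc hN (by have := prmC_act.1 ha; omega)
  exact compT_econn h1 ⟨target_mem (by omega) ha, target_notMem (by omega) ha⟩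

end Coarse

variable {K kap : ℕ} {d : ℕ → ℕ} {n : ℕ} {ω : Cfg} {i : ℕ} {V : Finset (ℤ × ℤ)} {x : List Rec}
  {q : Rule.Ndl} {D : Dom}

/-- The recorded cells are in the box: the stored set is finite. -/
theorem cs_finite (hK : 1 ≤ Hook.ndL K (d 0)) (x : List Rec) :
    ((datC K kap).cs d x).W.Finite := by
  have h1 := rc_cst (ndOK_prmC (kp := kap) (m := numN K) (zt := Cov.ztG K (8 * K) (d 0)) hK)
    d (Box0.W0 (d 0)) x
  exact (Box0.W0_finite (d 0)).subset fun f hf => h1 (Or.inl hf)

theorem PlcS.disc_fin (h : PlcS (datC K kap) d n ω i V x q D) (hK : 1 ≤ Hook.ndL K (d 0)) :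
    ((datC K kap).disc d x).Finite := by
  rw [h.disc]
  exact (cs_finite hK x).subset ((Top.compT_sub h.mem).trans CSt.erW_subset)

theorem PlcS.disc_conn (h : PlcS (datC K kap) d n ω i V x q D) :
    Top.EConn ((datC K kap).disc d x) := by
  rw [h.disc]
  exact Top.econn_compT h.mem

/-- **The disc is a union of cells.** -/
theorem PlcS.disc_sat (h : PlcS (datC K kap) d n ω i V x q D) (a b : ℤ × ℤ)
    (hab : gc 0 0 (msh d i) a = gc 0 0 (msh d i) b) (ha : a ∈ (datC K kap).disc d x) :
    b ∈ (datC K kap).disc d x := by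
  rw [h.disc] at ha ⊢
  exact compT_erW_sat (msh_pos d i) h.mem a b hab ha

theorem PlcS.disc_noCor (h : PlcS (datC K kap) d n ω i V x q D) (hL : 2 ≤ msh d i) :
    NoCor ((datC K kap).disc d x) :=
  Ndle.noCor_sat (a := 0) (b := 0) hL h.disc_sat

/-- The mesh of a stage with a coarser resolution is at least two. -/
theorem two_le_msh (h : d i < d 0) : 2 ≤ msh d i := by
  unfold msh
  calc (2 : ℤ) = 2 ^ 1 := (pow_one 2).symm
    _ ≤ 2 ^ (d 0 - d i) := pow_le_pow_right₀ (by norm_num) (by omega)

/-- No corridors in the disc of a later stage. -/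
theorem PlcS.disc_noCor' (h : PlcS (datC K kap) d n ω i V x q D) (hd : d i < d 0) :
    NoCor ((datC K kap).disc d x) := h.disc_noCor (two_le_msh hd)

/-- **No corridors in the disc of any stage.** -/
theorem PlcS.noCor (h : PlcS (datC K kap) d n ω i V x q D) (hd : 0 < i → d i < d 0) :
    NoCor ((datC K kap).disc d x) := by
  rcases Nat.eq_zero_or_pos i with hi | hi
  · subst hi
    have hx : x = [] := List.length_eq_zero_iff.1 h.len
    have hm := h.mem
    rw [h.disc]
    subst hx
    rw [msh_zero] at hm ⊢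
    exact Box0.noCor_disc0 hm
  · exact h.disc_noCor' (hd hi)

/-- **The first domain is the disc minus the needle.** -/
theorem PlcS.dom_eq (h : PlcS (datC K kap) d n ω i V x q D) (hK : 2 ≤ Hook.ndL K (d 0))
    (hN : NoCor ((datC K kap).disc d x)) :
    D.P = (datC K kap).disc d x \ (datC K kap).ndl (d 0) ((datC K kap).disc d x)
      ((datC K kap).tgt d x) := by
  have h1 := h.dom
  rw [datC_prm] at h1
  rw [h1]
  exact dom_eq_of (h.disc_fin (by omega)) h.disc_conn hN hK h.act

/-- **After the planting stage the stored set does not meet the disc.** -/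
theorem PlcS.W_eq (h : PlcS (datC K kap) d n ω i V x q D) (hK : 2 ≤ Hook.ndL K (d 0))
    (hN : NoCor ((datC K kap).disc d x)) :
    ((datC K kap).cs d ((∅, 0) :: x)).W =
      CSt.erW ((datC K kap).cs d x).W (msh d i) ((datC K kap).tgt d x) \ (datC K kap).disc d x := by
  rw [h.co]
  show CSt.erW ((datC K kap).cs d x).W (msh d i) ((datC K kap).tgt d x) \
    ((datC K kap).ndl (d 0) ((datC K kap).disc d x) ((datC K kap).tgt d x) ∪ D.P) = _
  have hsub : (datC K kap).ndl (d 0) ((datC K kap).disc d x) ((datC K kap).tgt d x) ⊆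
      (datC K kap).disc d x :=
    ndl_sub (kp := kap) (m := numN K) (zt := Cov.ztG K (8 * K) (d 0)) h.act
  rw [h.dom_eq hK hN, Set.union_sdiff_self, Set.union_eq_right.2 hsub]

/-- After the planting stage the stored set is the part outside of the component of the target and the
part of the eroded component outside of the disc. -/
theorem PlcS.W_eq' (h : PlcS (datC K kap) d n ω i V x q D) (hK : 2 ≤ Hook.ndL K (d 0))
    (hN : NoCor ((datC K kap).disc d x)) :
    ((datC K kap).cs d ((∅, 0) :: x)).W =
      (((datC K kap).cs d x).W \ compT ((datC K kap).cs d x).W ((datC K kap).tgt d x)) ∪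
      (er3 (gc 0 0 (msh d i)) (compT ((datC K kap).cs d x).W ((datC K kap).tgt d x)) \
        (datC K kap).disc d x) := by
  have hz := CSt.erW_subset h.mem
  rw [h.W_eq hK hN, CSt.erW_eq hz, Set.union_sdiff_distrib]
  congr 1
  refine Set.Subset.antisymm Set.sdiff_subset fun f hf => ⟨hf, fun hf' => ?_⟩
  rw [h.disc, CSt.compT_erW_self h.mem] at hf'
  exact hf.2 (er3_subset (Top.compT_sub (CSt.mem_er3_of h.mem Top.self_mem_compT) hf'))

end Pool.Agent.SixB.Tru
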