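import Pool.Agent.Lib.SixB.S8LawW
import Pool.Agent.Lib.SixB.S8InvW
import Pool.Agent.Lib.SixB.S8ParSum
import Pool.Agent.Lib.SixB.S8Hook

/-!
# Step 8: the anchors of an old disc at the beginning of a step

At the time `0` of a step with remaining vertices `V` and needle `q` nothing is crossed but the first
side, so a fixed walk of a contour vertex may be any walk which avoids this side. `C` = the fresh part
of a stored disc.

* `sid_one_of`: the odd corners of a face outside of `FU V` are on the side of colour `1`.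
* `pth_box`, `pth_avoid`: walks in a box which avoid one unit edge.
* `anc_near`: a vertex near a face outside of `FU V` has an anchor of colour `1`.
* `anc_of_near`: the anchors of a set whose outer faces are near faces outside of `FU V`.
* `anc_old`: the anchors of `P ∩ (FU V \ QF q.1)`, `P` a stored disc which is not planted in this step;
  `anc_hook`: the same if the needle is `hookU u L V C₁ z` and `P` is disjoint from the planted disc;
  `anc_plc`, `anc_plcW`: the stored discs when the needle is placed.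
* `NearO`, `NearO.rm`: the first face `fa (eS V q)` can be removed; `anc_hook0`, `anc_all0`, `anc_plcW0`.
-/

set_option autoImplicit false

namespace Pool.Agent.SixB.SideO

open Finset Pool.Agent.Perc Pool.Agent.PercT Pool.Agent.Perc6 Pool.Agent.PercX60
open Pool.Agent.PercU (Cor vtx fce)
open Pool.Agent.MP_6bd702.H23 (Ed ea eb ea_mk eb_true eb_false)
open Pool.Agent.SixB Pool.Agent.SixB.Dct Pool.Agent.SixB.NearCut Pool.Agent.SixB.Par
open Pool.Agent.SixB.Mv Pool.Agent.SixB.Tru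
open Pool.Agent.SixB.Top (compT compT_sub)

variable {ω : Cfg} {V : Finset (ℤ × ℤ)} {Q : Finset Edg} {k₀ : Cor} {n : ℕ} {E : Ex}
  {x y v w z f g : ℤ × ℤ} {D r d : ℤ}

/-! ### The walls -/

theorem fr_zero_sub : E.Fr ω 0 ⊆ E.U ω := NearCut.fr_sub

/-- **The odd corners of a face which is not left are on the side of colour `1`.** -/
theorem sid_one_of {T : Finset Edg} (hS : GZ.Stp E ω V Q k₀) (hN : NdF V Q k₀)
    (hI : Rule.Inv n T V) (hx : x ∉ FU V) (hp : par y = 1) (hs : Sq y x) : E.Sid 1 ω 0 y := by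
  unfold Ex.Sid
  rw [hS.e, en1_kU]
  have h2 := compl_chain (finite_FU hI.sub) (esc_FU hI) hN.f₀_notMem hx
  refine GZ.conn_odd_chain (G := FU V) ?_ (fun g hg => GZ.cf_odd hS hN hg) hN.f₀_notMem h2
    (par_gF k₀) hp (GZ.sq_base hS hN) hs
  refine Set.compl_subset_compl.2 (fr_zero_sub.trans ?_)
  rw [hS.U]
  exact Set.sdiff_subset

/-! ### Walks in a box which avoid one unit edge -/

theorem pth_h {A : Set UE} {a b : ℤ} : ∀ m : ℕ, (∀ k, a ≤ k → k < a + m → (k, b, false) ∈ A) →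
    Pth A (a, b) (a + m, b) := by
  intro m
  induction m with
  | zero =>
    intro _
    rw [Nat.cast_zero, add_zero]
    exact Relation.ReflTransGen.refl
  | succ m ih =>
    intro h
    refine (ih fun k h1 h2 => h k h1 (by push_cast; omega)).tail
      ⟨(a + m, b, false), h _ (by omega) (by push_cast; omega), Or.inl ⟨rfl, ?_⟩⟩
    simp only [ub_false]
    push_cast
    ring_nf

theorem pth_v {A : Set UE} {a b : ℤ} : ∀ m : ℕ, (∀ k, b ≤ k → k < b + m → (a, k, true) ∈ A) →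
    Pth A (a, b) (a, b + m) := by
  intro m
  induction m with
  | zero =>
    intro _
    rw [Nat.cast_zero, add_zero]
    exact Relation.ReflTransGen.refl
  | succ m ih =>
    intro h
    refine (ih fun k h1 h2 => h k h1 (by push_cast; omega)).tail
      ⟨(a, b + m, true), h _ (by omega) (by push_cast; omega), Or.inl ⟨rfl, ?_⟩⟩
    simp only [ub_true]
    push_cast
    ring_nf

theorem pth_box (h1 : |y.1 - v.1| ≤ D) (h2 : |y.2 - v.2| ≤ D) : Pth {a | InB v D a} v y := by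
  obtain ⟨p, q⟩ := v
  obtain ⟨p', q'⟩ := y
  simp only at h1 h2
  rw [abs_le] at h1 h2
  have e1 : Pth {a | InB (p, q) D a} (p, q) (p', q) := by
    rcases le_total p p' with h | h
    · obtain ⟨m, hm⟩ := Int.eq_ofNat_of_zero_le (sub_nonneg.2 h)
      rw [show p' = p + m by omega]
      refine pth_h m fun k k1 k2 => ?_
      show InB (p, q) D (k, q, false)
      unfold InB InR
      simp only [ua_mk]
      omega
    · obtain ⟨m, hm⟩ := Int.eq_ofNat_of_zero_le (sub_nonneg.2 h)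
      rw [show p = p' + m by omega]
      refine (pth_h m fun k k1 k2 => ?_).symm
      show InB (p' + m, q) D (k, q, false)
      unfold InB InR
      simp only [ua_mk]
      omega
  have e2 : Pth {a | InB (p, q) D a} (p', q) (p', q') := by
    rcases le_total q q' with h | h
    · obtain ⟨m, hm⟩ := Int.eq_ofNat_of_zero_le (sub_nonneg.2 h)
      rw [show q' = q + m by omega]
      refine pth_v m fun k k1 k2 => ?_
      show InB (p, q) D (p', k, true)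
      unfold InB InR
      simp only [ua_mk]
      omega
    · obtain ⟨m, hm⟩ := Int.eq_ofNat_of_zero_le (sub_nonneg.2 h)
      rw [show q = q' + m by omega]
      refine (pth_v m fun k k1 k2 => ?_).symm
      show InB (p, q' + m) D (p', k, true)
      unfold InB InR
      simp only [ua_mk]
      omega
  exact Relation.ReflTransGen.trans e1 e2

/-- The detour around one unit edge. -/
theorem pth_detour {e : UE} (he : InB v D e) (hj : Joins e x y) :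
    Pth {a | InB v (D + 1) a ∧ a ≠ e} x y := by
  have key : Pth {a | InB v (D + 1) a ∧ a ≠ e} (ua e) (ub e) := by
    obtain ⟨p, q, dd⟩ := e
    unfold InB InR at he
    simp only [ua_mk] at he
    cases dd
    · refine ((Relation.ReflTransGen.single ⟨(p, q, true), ⟨?_, ?_⟩, Or.inl ⟨rfl, rfl⟩⟩).tail
        ⟨(p, q + 1, false), ⟨?_, ?_⟩, Or.inl ⟨?_, rfl⟩⟩).tail
        ⟨(p + 1, q, true), ⟨?_, ?_⟩, Or.inr ⟨?_, ?_⟩⟩
      all_goals first
        | (unfold InB InR; simp only [ua_mk]; omega)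
        | (simp only [ne_eq, Prod.mk.injEq]; intro h; simp at h)
        | simp [ua, ub]
    · refine ((Relation.ReflTransGen.single ⟨(p, q, false), ⟨?_, ?_⟩, Or.inl ⟨rfl, rfl⟩⟩).tail
        ⟨(p + 1, q, true), ⟨?_, ?_⟩, Or.inl ⟨?_, rfl⟩⟩).tail
        ⟨(p, q + 1, false), ⟨?_, ?_⟩, Or.inr ⟨?_, ?_⟩⟩
      all_goals first
        | (unfold InB InR; simp only [ua_mk]; omega)
        | (simp only [ne_eq, Prod.mk.injEq]; intro h; simp at h)
        | simp [ua, ub]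
  rcases hj with ⟨rfl, rfl⟩ | ⟨rfl, rfl⟩
  · exact key
  · exact key.symm

theorem pth_avoid (e : UE) (h : Pth {a | InB v D a} x y) :
    Pth {a | InB v (D + 1) a ∧ a ≠ e} x y := by
  induction h with
  | refl => exact Relation.ReflTransGen.refl
  | @tail b c _ hs ih =>
    obtain ⟨a, ha, hj⟩ := hs
    refine Relation.ReflTransGen.trans ih ?_
    by_cases hae : a = e
    · subst hae
      exact pth_detour ha hj
    · exact Relation.ReflTransGen.single ⟨a, ⟨InB.mono ha (by omega), hae⟩, hj⟩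

/-! ### Anchors -/

theorem exists_odd_cor (x : ℤ × ℤ) : ∃ y, par y = 1 ∧ Sq y x := by
  obtain ⟨X, Y⟩ := x
  by_cases h : (X + Y) % 2 = 1
  · exact ⟨(X, Y), h, by simp [Sq]⟩
  · exact ⟨(X + 1, Y), by simp only [par]; omega, by simp [Sq]⟩

/-- **A vertex near a face which is not left has an anchor of colour `1`.** -/
theorem anc_near {T : Finset Edg} (hS : GZ.Stp E ω V Q k₀) (hN : NdF V Q k₀)
    (hI : Rule.Inv n T V) (hx : x ∉ FU V) (h1 : v.1 - (D + 1) ≤ x.1 ∧ x.1 ≤ v.1 + D)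
    (h2 : v.2 - (D + 1) ≤ x.2 ∧ x.2 ≤ v.2 + D) (hr : D + 2 ≤ r) :
    ∃ y, E.Sid 1 ω 0 y ∧ Pth {a | InB v r a ∧ ∀ l ≤ 0, E.p ω l ≠ a} v y := by
  obtain ⟨y, hy, hs⟩ := exists_odd_cor x
  refine ⟨y, sid_one_of hS hN hI hx hy hs, ?_⟩
  unfold Sq at hs
  have h3 : Pth {a | InB v (D + 1) a} v y := by
    refine pth_box (abs_le.2 ?_) (abs_le.2 ?_) <;> omega
  refine (pth_avoid (E.e ω) h3).mono ?_
  rintro a ⟨a1, a2⟩
  refine ⟨InB.mono a1 (by omega), fun l hl h => a2 ?_⟩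
  have h4 : l = 0 := by omega
  subst h4
  exact h.symm

theorem vert_side {a : UE} (hv : Near.AtE v a) (hg : IsSide g a) :
    (v.1 = g.1 ∨ v.1 = g.1 + 1) ∧ (v.2 = g.2 ∨ v.2 = g.2 + 1) := by
  have h := GZ.sq_of_side hg
  unfold Sq at h
  rcases hv with rfl | rfl <;> omega

/-- **The anchors of a set whose outer faces are near faces which are not left.** -/
theorem anc_of_near {T : Finset Edg} (hS : GZ.Stp E ω V Q k₀) (hN : NdF V Q k₀)
    (hI : Rule.Inv n T V) {C : Set (ℤ × ℤ)}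
    (hC : ∀ f ∈ C, ∀ g ∉ C, AdjF f g → ∃ x, x ∉ FU V ∧ |x.1 - g.1| ≤ D ∧ |x.2 - g.2| ≤ D)
    (hr : D + 2 ≤ r) : ∀ v ∈ VB C, ∃ y, E.Sid 1 ω 0 y ∧
      Pth {a | InB v r a ∧ ∀ l ≤ 0, E.p ω l ≠ a} v y := by
  rintro v ⟨a, ⟨⟨f, hf, hfa⟩, g, hg, hga⟩, hv⟩
  have hfg : AdjF f g := ⟨fun h => hg (h ▸ hf), a, hfa, hga⟩
  obtain ⟨x, hx, h1, h2⟩ := hC f hf g hg hfg
  rw [abs_le] at h1 h2
  have h3 := vert_side hv hga
  exact anc_near hS hN hI hx (by omega) (by omega) hr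

/-- Every outer face of `C` is near a face which is not left. -/
def NearO (V : Finset (ℤ × ℤ)) (C : Set (ℤ × ℤ)) (D : ℤ) : Prop :=
  ∀ f ∈ C, ∀ g ∉ C, AdjF f g → ∃ x, x ∉ FU V ∧ |x.1 - g.1| ≤ D ∧ |x.2 - g.2| ≤ D

theorem NearO.anc {T : Finset Edg} {C : Set (ℤ × ℤ)} (h : NearO V C D) (hS : GZ.Stp E ω V Q k₀)
    (hN : NdF V Q k₀) (hI : Rule.Inv n T V) (hr : D + 2 ≤ r) : ∀ v ∈ VB C, ∃ y,
      E.Sid 1 ω 0 y ∧ Pth {a | InB v r a ∧ ∀ l ≤ 0, E.p ω l ≠ a} v y :=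
  anc_of_near hS hN hI h hr

theorem NearO.of_app {ι : Type*} {κ : ℤ × ℤ → ι} {F₀ P : Set (ℤ × ℤ)} (hA : App F₀ P κ d)
    (hF : FU V ⊆ F₀) (hd : d ≤ D)
    (hQ : ∀ g ∈ P, g ∈ QF Q → ∃ x, x ∉ FU V ∧ |x.1 - g.1| ≤ D ∧ |x.2 - g.2| ≤ D) :
    NearO V (P ∩ (FU V \ QF Q)) D := by
  intro f hf g hg hfg
  have hd0 := hA.d_pos
  by_cases hgP : g ∈ P
  · by_cases hgV : g ∈ FU V
    · by_cases hgQ : g ∈ QF Q
      · exact hQ g hgP hgQ
      · exact absurd ⟨hgP, hgV, hgQ⟩ hg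
    · exact ⟨g, hgV, by rw [sub_self, abs_zero]; omega, by rw [sub_self, abs_zero]; omega⟩
  · obtain ⟨x, hx, hxF⟩ := hA.out f hf.1 g (adj_iff_adjFL.2 hfg) hgP
    obtain ⟨h1, h2⟩ := hA.diam x g hx
    exact ⟨x, fun h => hxF (hF h), by omega, by omega⟩

theorem NearO.of_stW {X : Set (ℤ × ℤ)} (hX : StW X (FU V) d) (hd : d ≤ D)
    (hQ : ∀ g ∈ X, g ∈ QF Q → ∃ x, x ∉ FU V ∧ |x.1 - g.1| ≤ D ∧ |x.2 - g.2| ≤ D) :
    NearO V (X ∩ (FU V \ QF Q)) D := by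
  intro f hf g hg hfg
  obtain ⟨κ, F₀, hF, hA⟩ := hX f hf.1
  have hd0 := hA.d_pos
  by_cases hgP : g ∈ X
  · by_cases hgV : g ∈ FU V
    · by_cases hgQ : g ∈ QF Q
      · exact hQ g hgP hgQ
      · exact absurd ⟨hgP, hgV, hgQ⟩ hg
    · exact ⟨g, hgV, by rw [sub_self, abs_zero]; omega, by rw [sub_self, abs_zero]; omega⟩
  · obtain ⟨x, hx, hxF⟩ := hA.out f Top.self_mem_compT g (adj_iff_adjFL.2 hfg)
      fun h => hgP (compT_sub hf.1 h)
    obtain ⟨h1, h2⟩ := hA.diam x g hx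
    exact ⟨x, fun h => hxF (hF h), by omega, by omega⟩

theorem fa_near_fb (a : UE) : |(fb a).1 - (fa a).1| ≤ 1 ∧ |(fb a).2 - (fa a).2| ≤ 1 := by
  have h1 := GZ.sq_of_side (isSide_fa a)
  have h2 := GZ.sq_of_side (isSide_fb a)
  unfold Sq at h1 h2
  rw [abs_le, abs_le]
  omega

/-- **The first face can be removed**: it is next to a face which is not left. -/
theorem NearO.rm {C : Set (ℤ × ℤ)} {e : UE} (h : NearO V C D) (hD : 1 ≤ D) (he : fb e ∉ FU V) :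
    NearO V (C \ {fa e}) D := by
  intro f hf g hg hfg
  by_cases hgC : g ∈ C
  · have hge : g = fa e := by
      by_contra h'
      exact hg ⟨hgC, h'⟩
    subst hge
    obtain ⟨h1, h2⟩ := fa_near_fb e
    exact ⟨_, he, h1.trans hD, h2.trans hD⟩
  · exact h f hf.1 g hgC hfg

/-- The contour vertices after a face is removed. -/
theorem VB_rm {C : Set (ℤ × ℤ)} {k : ℤ × ℤ} (hv : v ∈ VB (C \ {k})) :
    v ∈ VB C ∨ ((v.1 = k.1 ∨ v.1 = k.1 + 1) ∧ (v.2 = k.2 ∨ v.2 = k.2 + 1)) := by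
  obtain ⟨a, ⟨⟨f, hf, hfa⟩, g, hg, hga⟩, hva⟩ := hv
  by_cases hgC : g ∈ C
  · have hgk : g = k := by
      by_contra h'
      exact hg ⟨hgC, h'⟩
    subst hgk
    exact Or.inr (vert_side hva hga)
  · exact Or.inl ⟨a, ⟨⟨f, hf.1, hfa⟩, g, hgC, hga⟩, hva⟩

/-- **The anchors of the fresh part of an old disc**: `P` is an approximation of a set which contains
`FU V`; the faces of the needle in `P` are near faces which are not left. -/
theorem anc_old {T : Finset Edg} (hS : GZ.Stp E ω V Q k₀) (hN : NdF V Q k₀)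
    (hI : Rule.Inv n T V) {ι : Type*} {κ : ℤ × ℤ → ι} {F₀ P : Set (ℤ × ℤ)} (hA : App F₀ P κ d)
    (hF : FU V ⊆ F₀) (hd : d ≤ D)
    (hQ : ∀ g ∈ P, g ∈ QF Q → ∃ x, x ∉ FU V ∧ |x.1 - g.1| ≤ D ∧ |x.2 - g.2| ≤ D)
    (hr : D + 2 ≤ r) : ∀ v ∈ VB (P ∩ (FU V \ QF Q)), ∃ y, E.Sid 1 ω 0 y ∧
      Pth {a | InB v r a ∧ ∀ l ≤ 0, E.p ω l ≠ a} v y := by
  exact (NearO.of_app hA hF hd hQ).anc hS hN hI hr

/-- The anchors of the fresh part of a component of the stored set. -/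
theorem anc_stW {T : Finset Edg} (hS : GZ.Stp E ω V Q k₀) (hN : NdF V Q k₀)
    (hI : Rule.Inv n T V) {X : Set (ℤ × ℤ)} (hX : StW X (FU V) d) (hf : f ∈ X) (hd : d ≤ D)
    (hQ : ∀ g ∈ compT X f, g ∈ QF Q → ∃ x, x ∉ FU V ∧ |x.1 - g.1| ≤ D ∧ |x.2 - g.2| ≤ D)
    (hr : D + 2 ≤ r) : ∀ v ∈ VB (compT X f ∩ (FU V \ QF Q)), ∃ y, E.Sid 1 ω 0 y ∧
      Pth {a | InB v r a ∧ ∀ l ≤ 0, E.p ω l ≠ a} v y := by
  obtain ⟨κ, F₀, hF, hA⟩ := hX f hf
  exact anc_old hS hN hI hA hF hd hQ hr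

/-- The anchors of the fresh part of the whole stored set. -/
theorem anc_all {T : Finset Edg} (hS : GZ.Stp E ω V Q k₀) (hN : NdF V Q k₀)
    (hI : Rule.Inv n T V) {X : Set (ℤ × ℤ)} (hX : StW X (FU V) d) (hd : d ≤ D)
    (hQ : ∀ g ∈ X, g ∈ QF Q → ∃ x, x ∉ FU V ∧ |x.1 - g.1| ≤ D ∧ |x.2 - g.2| ≤ D)
    (hr : D + 2 ≤ r) : ∀ v ∈ VB (X ∩ (FU V \ QF Q)), ∃ y, E.Sid 1 ω 0 y ∧
      Pth {a | InB v r a ∧ ∀ l ≤ 0, E.p ω l ≠ a} v y := by
  exact (NearO.of_stW hX hd hQ).anc hS hN hI hr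

/-! ### The needle with its hook -/

/-- The faces of the needle outside of the planted disc are near a face which is not left. -/
theorem hook_near {G : Finset (ℤ × ℤ)} {P₁ : Set (ℤ × ℤ)} {a b : ℤ × ℤ} {ρ : ℕ}
    (H : Hook.Pre V P₁ G a b ρ) (hg : g ∈ QF (Hook.ndT (FU V) P₁ G a b).1) (hgP : g ∉ P₁) :
    ∃ x, x ∉ FU V ∧ |x.1 - g.1| ≤ 2 * ρ ∧ |x.2 - g.2| ≤ 2 * ρ := by
  have h1 : g ∈ Hook.hkS (FU V) P₁ b := by
    have h2 : g ∈ {f | f ∈ Hook.ndS (FU V) P₁ G b ∧ f ∉ P₁} := by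
      refine ⟨?_, hgP⟩
      have h3 := Hook.qF_ndT (F := FU V) (P := P₁) (y := b) G a
      rw [h3] at hg
      exact hg
    rw [H.ndS_diff] at h2
    exact h2
  have h2 := (H.hkS_sub h1).2.2
  have h3 : Ndle.sd (Hook.hkE (FU V) P₁ b) b ≤ ρ := Hook.hk_box H.hook le_rfl
  refine ⟨_, H.hkE_notMem, ?_, ?_⟩
  · unfold Ndle.sd at h2 h3
    rw [max_le_iff, abs_le, abs_le] at h2 h3
    rw [abs_le]
    omega
  · unfold Ndle.sd at h2 h3
    rw [max_le_iff, abs_le, abs_le] at h2 h3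
    rw [abs_le]
    omega

/-- **The anchors of an old disc in a step with the needle `hookU u L V C₁ z`**: the disc does not meet
the planted disc `blow u C₁`. -/
theorem anc_hook {T : Finset Edg} {u : ℤ} {L ρ : ℕ} {C₁ : Set (ℤ × ℤ)} (hI : Rule.Inv n T V)
    (hk : ∃ k, NdF V (Hook.hookU u L V C₁ z).1 k ∧ vtx k = (Hook.hookU u L V C₁ z).2)
    (H : Hook.Pre V (blow u C₁) (Ndle.ndF u (Hook.fin C₁) z L) (Ndle.ndA u (Hook.fin C₁) z)
      (Ndle.ndB u (Hook.fin C₁) z) ρ)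
    {ι : Type*} {κ : ℤ × ℤ → ι} {F₀ P : Set (ℤ × ℤ)} (hA : App F₀ P κ d) (hF : FU V ⊆ F₀)
    (hP : ∀ f ∈ P, f ∉ blow u C₁) (hd : d ≤ D) (hρ : 2 * (ρ : ℤ) ≤ D) (hr : D + 2 ≤ r) :
    ∀ v ∈ VB (P ∩ (FU V \ QF (Hook.hookU u L V C₁ z).1)), ∃ y,
      (exS V (Hook.hookU u L V C₁ z)).Sid 1 ω 0 y ∧
      Pth {a | InB v r a ∧ ∀ l ≤ 0, (exS V (Hook.hookU u L V C₁ z)).p ω l ≠ a} v y := by
  refine anc_old (GZ.Stp.of_zeta rfl rfl rfl) (bc_spec hk).1 hI hA hF hd (fun g hg hgQ => ?_) hr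
  obtain ⟨x, hx, h1, h2⟩ := hook_near H hgQ (hP g hg)
  exact ⟨x, hx, h1.trans hρ, h2.trans hρ⟩

/-- **The stored part after a needle is placed, before the faces of the needle are removed.** -/
theorem stW_plc {W F : Set (ℤ × ℤ)} {u : ℕ} {L : ℤ} (h : StW (blow (u : ℤ) W) F d) (hu : 0 < u)
    (hL : 0 < L) (hz : z ∈ CSt.erW W L z) :
    StW (blow (u : ℤ) (CSt.erW W L z \ compT (CSt.erW W L z) z)) F (d + 6 * (u * L) + 6) :=
  (h.erW hu hL hz).part ((uoc_compT hz).compl.blow (by exact_mod_cast hu))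

/-- **The anchors of the stored discs when the needle is placed.** -/
theorem anc_plc {T : Finset Edg} {W : Set (ℤ × ℤ)} {u : ℕ} {M : ℤ} {L ρ : ℕ}
    (hI : Rule.Inv n T V)
    (hk : ∃ k, NdF V (Hook.hookU u L V (compT (CSt.erW W M z) z) z).1 k ∧
      vtx k = (Hook.hookU u L V (compT (CSt.erW W M z) z) z).2)
    (H : Hook.Pre V (blow (u : ℤ) (compT (CSt.erW W M z) z))
      (Ndle.ndF u (Hook.fin (compT (CSt.erW W M z) z)) z L)
      (Ndle.ndA u (Hook.fin (compT (CSt.erW W M z) z)) z)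
      (Ndle.ndB u (Hook.fin (compT (CSt.erW W M z) z)) z) ρ)
    (h : StW (blow (u : ℤ) W) (FU V) d) (hu : 0 < u) (hM : 0 < M) (hz : z ∈ CSt.erW W M z)
    (hf : f ∈ blow (u : ℤ) (CSt.erW W M z \ compT (CSt.erW W M z) z))
    (hd : d + 6 * (u * M) + 6 ≤ D) (hρ : 2 * (ρ : ℤ) ≤ D) (hr : D + 2 ≤ r) :
    ∀ v ∈ VB (compT (blow (u : ℤ) (CSt.erW W M z \ compT (CSt.erW W M z) z)) f ∩
        (FU V \ QF (Hook.hookU u L V (compT (CSt.erW W M z) z) z).1)), ∃ y,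
      (exS V (Hook.hookU u L V (compT (CSt.erW W M z) z) z)).Sid 1 ω 0 y ∧
      Pth {a | InB v r a ∧
        ∀ l ≤ 0, (exS V (Hook.hookU u L V (compT (CSt.erW W M z) z) z)).p ω l ≠ a} v y := by
  obtain ⟨κ, F₀, hF, hA⟩ := stW_plc h hu hM hz f hf
  exact anc_hook hI hk H hA hF (fun g hg => (compT_sub hf hg).2) hd hρ hr

/-- **The anchors of the whole stored set when the needle is placed.** -/
theorem anc_plcW {T : Finset Edg} {W : Set (ℤ × ℤ)} {u : ℕ} {M : ℤ} {L ρ : ℕ}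
    (hI : Rule.Inv n T V)
    (hk : ∃ k, NdF V (Hook.hookU u L V (compT (CSt.erW W M z) z) z).1 k ∧
      vtx k = (Hook.hookU u L V (compT (CSt.erW W M z) z) z).2)
    (H : Hook.Pre V (blow (u : ℤ) (compT (CSt.erW W M z) z))
      (Ndle.ndF u (Hook.fin (compT (CSt.erW W M z) z)) z L)
      (Ndle.ndA u (Hook.fin (compT (CSt.erW W M z) z)) z)
      (Ndle.ndB u (Hook.fin (compT (CSt.erW W M z) z)) z) ρ)
    (h : StW (blow (u : ℤ) W) (FU V) d) (hu : 0 < u) (hM : 0 < M) (hz : z ∈ CSt.erW W M z)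
    (hd : d + 6 * (u * M) + 6 ≤ D) (hρ : 2 * (ρ : ℤ) ≤ D) (hr : D + 2 ≤ r) :
    ∀ v ∈ VB (blow (u : ℤ) (CSt.erW W M z \ compT (CSt.erW W M z) z) ∩
        (FU V \ QF (Hook.hookU u L V (compT (CSt.erW W M z) z) z).1)), ∃ y,
      (exS V (Hook.hookU u L V (compT (CSt.erW W M z) z) z)).Sid 1 ω 0 y ∧
      Pth {a | InB v r a ∧
        ∀ l ≤ 0, (exS V (Hook.hookU u L V (compT (CSt.erW W M z) z) z)).p ω l ≠ a} v y := by
  refine anc_all (GZ.Stp.of_zeta rfl rfl rfl) (bc_spec hk).1 hI (stW_plc h hu hM hz) hd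
    (fun g hg hgQ => ?_) hr
  obtain ⟨x, hx, h1, h2⟩ := hook_near H hgQ fun h' => hg.2 h'
  exact ⟨x, hx, h1.trans hρ, h2.trans hρ⟩

/-! ### Without the first face -/

/-- `anc_hook` without the first face. -/
theorem anc_hook0 {T : Finset Edg} {u : ℤ} {L ρ : ℕ} {C₁ : Set (ℤ × ℤ)} (hI : Rule.Inv n T V)
    (hk : ∃ k, NdF V (Hook.hookU u L V C₁ z).1 k ∧ vtx k = (Hook.hookU u L V C₁ z).2)
    (H : Hook.Pre V (blow u C₁) (Ndle.ndF u (Hook.fin C₁) z L) (Ndle.ndA u (Hook.fin C₁) z)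
      (Ndle.ndB u (Hook.fin C₁) z) ρ)
    {ι : Type*} {κ : ℤ × ℤ → ι} {F₀ P : Set (ℤ × ℤ)} (hA : App F₀ P κ d) (hF : FU V ⊆ F₀)
    (hP : ∀ f ∈ P, f ∉ blow u C₁) (hd : d ≤ D) (hρ : 2 * (ρ : ℤ) ≤ D) (hr : D + 2 ≤ r) :
    ∀ v ∈ VB ((P ∩ (FU V \ QF (Hook.hookU u L V C₁ z).1)) \
        {fa (eS V (Hook.hookU u L V C₁ z))}), ∃ y,
      (exS V (Hook.hookU u L V C₁ z)).Sid 1 ω 0 y ∧
      Pth {a | InB v r a ∧ ∀ l ≤ 0, (exS V (Hook.hookU u L V C₁ z)).p ω l ≠ a} v y := by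
  have hd0 := hA.d_pos
  refine ((NearO.of_app hA hF hd fun g hg hgQ => ?_).rm (by omega) (fb_eS hk)).anc
    (GZ.Stp.of_zeta rfl rfl rfl) (bc_spec hk).1 hI hr
  obtain ⟨x, hx, h1, h2⟩ := hook_near H hgQ (hP g hg)
  exact ⟨x, hx, h1.trans hρ, h2.trans hρ⟩

/-- The whole stored set, any needle, without the first face. -/
theorem anc_all0 {T : Finset Edg} {q : Rule.Ndl} {X : Set (ℤ × ℤ)} (hI : Rule.Inv n T V)
    (hk : ∃ k, NdF V q.1 k ∧ vtx k = q.2) (hX : StW X (FU V) d) (hd : d ≤ D) (hD : 1 ≤ D)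
    (hQ : ∀ g ∈ X, g ∈ QF q.1 → ∃ x, x ∉ FU V ∧ |x.1 - g.1| ≤ D ∧ |x.2 - g.2| ≤ D)
    (hr : D + 2 ≤ r) : ∀ v ∈ VB ((X ∩ (FU V \ QF q.1)) \ {fa (eS V q)}), ∃ y,
      (exS V q).Sid 1 ω 0 y ∧ Pth {a | InB v r a ∧ ∀ l ≤ 0, (exS V q).p ω l ≠ a} v y :=
  ((NearO.of_stW hX hd hQ).rm hD (fb_eS hk)).anc (GZ.Stp.of_zeta rfl rfl rfl) (bc_spec hk).1 hI hr

/-- `anc_plcW` without the first face. -/
theorem anc_plcW0 {T : Finset Edg} {W : Set (ℤ × ℤ)} {u : ℕ} {M : ℤ} {L ρ : ℕ}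
    (hI : Rule.Inv n T V)
    (hk : ∃ k, NdF V (Hook.hookU u L V (compT (CSt.erW W M z) z) z).1 k ∧
      vtx k = (Hook.hookU u L V (compT (CSt.erW W M z) z) z).2)
    (H : Hook.Pre V (blow (u : ℤ) (compT (CSt.erW W M z) z))
      (Ndle.ndF u (Hook.fin (compT (CSt.erW W M z) z)) z L)
      (Ndle.ndA u (Hook.fin (compT (CSt.erW W M z) z)) z)
      (Ndle.ndB u (Hook.fin (compT (CSt.erW W M z) z)) z) ρ)
    (h : StW (blow (u : ℤ) W) (FU V) d) (hu : 0 < u) (hM : 0 < M) (hz : z ∈ CSt.erW W M z)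
    (hd : d + 6 * (u * M) + 6 ≤ D) (hD : 1 ≤ D) (hρ : 2 * (ρ : ℤ) ≤ D) (hr : D + 2 ≤ r) :
    ∀ v ∈ VB ((blow (u : ℤ) (CSt.erW W M z \ compT (CSt.erW W M z) z) ∩
        (FU V \ QF (Hook.hookU u L V (compT (CSt.erW W M z) z) z).1)) \
        {fa (eS V (Hook.hookU u L V (compT (CSt.erW W M z) z) z))}), ∃ y,
      (exS V (Hook.hookU u L V (compT (CSt.erW W M z) z) z)).Sid 1 ω 0 y ∧
      Pth {a | InB v r a ∧
        ∀ l ≤ 0, (exS V (Hook.hookU u L V (compT (CSt.erW W M z) z) z)).p ω l ≠ a} v y := by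
  refine anc_all0 hI hk (stW_plc h hu hM hz) hd hD (fun g hg hgQ => ?_) hr
  obtain ⟨x, hx, h1, h2⟩ := hook_near H hgQ fun h' => hg.2 h'
  exact ⟨x, hx, h1.trans hρ, h2.trans hρ⟩

end Pool.Agent.SixB.SideO
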