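import Pool.Agent.Lib.SixB.S8Kept
import Pool.Agent.Lib.SixB.S8SideO
import Pool.Agent.Lib.SixB.S8DeepK
import Pool.Agent.Lib.SixB.S8NdlCh
import Pool.Agent.Lib.SixB.S8RareH
import Pool.Agent.Lib.SixB.S8InvWC

/-!
# Step 8: the stored discs stay fresh, the strand of the needle which is placed

The field `old` of `StgK`: a face which is deep in the fresh part of the stored set is kept by the strand
of the needle which is placed.

* `EvO`: the events of one strand at the beginning of a step: the gates at all times are near the tip or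
  near the base, and no passage with walls of colour `1` only, for two pairs of radii at the base.
* `keep_old`: one strand, any needle; `keep_plc`: the needle of a placing stage; `old_stg`: the field
  `old` of `StgK`.
-/

set_option autoImplicit false

namespace Pool.Agent.SixB.Tru

open Finset Pool.Agent.Perc Pool.Agent.PercT Pool.Agent.PercX60 Pool.Agent.Perc6
open Pool.Agent.PercU (Cor vtx nxt)
open Pool.Agent.MP_6bd702.H23 (Ed)
open Pool.Agent.SixB Pool.Agent.SixB.Rule Pool.Agent.SixB.Dct Pool.Agent.SixB.Mv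
open Pool.Agent.SixB.NearCut Pool.Agent.SixB.Par Pool.Agent.SixB.SideO
open Pool.Agent.SixB.Top (compT ChI)
open Pool.Agent.SixB.TruR (ts ts_succ)

variable {n : ℕ} {ω : Cfg} {V : Finset (ℤ × ℤ)} {q : Rule.Ndl} {f b₀ : ℤ × ℤ}

/-- **The events of the strand of the needle `q` from the time `0` on.** `r`: radius of the anchors, `ρ'`:
gates are near the tip, `ρ₁`: or near the base, `(ρa, Ra)`, `(ρb, Rb)`: two annuli at the base. -/
structure EvO (V : Finset (ℤ × ℤ)) (q : Rule.Ndl) (ω : Cfg) (b₀ : ℤ × ℤ) (r ρ' ρ₁ ρa Ra ρb Rb : ℤ) :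
    Prop where
  gate : ∀ l, Nb ((exS V q).cf ω) ((exS V q).e ω) l → ∀ v, (exS V q).Gate ω l v (r + 1) →
    Nb2 (ua ((exS V q).p ω l)) v ρ' ∨ Nb2 b₀ v ρ₁
  oa : ¬ (exS V q).OneWall 0 ω 0 b₀ ρa Ra
  ob : ¬ (exS V q).OneWall 0 ω 0 b₀ ρb Rb
  rr : r + 1 ≤ ρ'
  ha : ρ₁ + r + 2 ≤ ρa
  ha' : ρa ≤ Ra
  hb : Ra + 3 * ρ' + r + 2 ≤ ρb
  hb' : ρb ≤ Rb

theorem fr_zero_eq (E : Ex) (ω : Cfg) : E.Fr ω 0 = E.U ω := by
  refine Set.Subset.antisymm NearCut.fr_sub fun f hf => ⟨hf, fun h => ?_⟩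
  obtain ⟨l, -, h4, -⟩ := mem_vs.1 (Finset.mem_coe.1 h.2)
  omega

/-- The last time of the loop. -/
theorem exists_last_time (hI : Rule.Inv n (cfgE n ω) V) (hk : ∃ k, NdF V q.1 k ∧ vtx k = q.2) :
    ∃ T : ℕ, T + 1 = Function.minimalPeriod
      (nxt ((rst (cfgE n ω) V ∪ q.1 : Finset Edg) : Set Ed)) (bc V q.1 q.2) := by
  have h := (bc_spec hk).1.period_pos (T := cfgE n ω) (DictB.cfgE_subset n ω) hI
  exact ⟨_, Nat.sub_add_cancel h⟩

/-- Before the last time the strand is not at its first side. -/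
theorem nb_of_last (hI : Rule.Inv n (cfgE n ω) V) (hk : ∃ k, NdF V q.1 k ∧ vtx k = q.2) {T : ℕ}
    (hT : T + 1 = Function.minimalPeriod
      (nxt ((rst (cfgE n ω) V ∪ q.1 : Finset Edg) : Set Ed)) (bc V q.1 q.2)) :
    Nb ((exS V q).cf ω) ((exS V q).e ω) T := by
  have hF := SideK.fin_exS hI hk hT.ge
  have hcf : (exS V q).cf ω = gT ((rst (cfgE n ω) V ∪ q.1 : Finset Edg) : Set Ed) := hF.cf
  intro l hl hl' h
  rw [hcf] at h
  have h' : pth (gT ((rst (cfgE n ω) V ∪ q.1 : Finset Edg) : Set Ed)) (kU (bc V q.1 q.2)) l =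
    kU (bc V q.1 q.2) := h
  rw [← kU_iterate] at h'
  have h1 := kU_injective h'
  have h2 : Function.IsPeriodicPt (nxt ((rst (cfgE n ω) V ∪ q.1 : Finset Edg) : Set Ed)) l
    (bc V q.1 q.2) := h1
  have h3 := h2.minimalPeriod_le hl
  omega

/-- **A deep face of the fresh part of the stored set is kept by the strand of the next needle.** -/
theorem keep_old {X : Set (ℤ × ℤ)} {D r ρ' ρ₁ ρa Ra ρb Rb c₁ R₁ : ℤ} (hI : Rule.Inv n (cfgE n ω) V)
    (hk : ∃ k, NdF V q.1 k ∧ vtx k = q.2) (hX : NearO V (X ∩ (FU V \ QF q.1)) D) (hD : 1 ≤ D)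
    (hr : D + 2 ≤ r) (hE : EvO V q ω b₀ r ρ' ρ₁ ρa Ra ρb Rb) (hb₀ : Nb2 b₀ (ua (eS V q)) c₁)
    (hf : Dp (X ∩ (FU V \ QF q.1)) f R₁) (h1 : 2 * ρ' + 5 ≤ R₁) (h2 : Rb + ρ' + c₁ + 4 ≤ R₁) :
    (∀ l, Nb ((exS V q).cf ω) ((exS V q).e ω) l → fa ((exS V q).p ω l) ≠ f) ∧
      f ∈ FU (stpQ (cfgE n ω) V q) := by
  classical
  obtain ⟨T, hT⟩ := exists_last_time hI hk
  have hfb : fb (eS V q) ∉ FU V := fb_eS hk
  set S : Set (ℤ × ℤ) := (X ∩ (FU V \ QF q.1)) \ {fa (eS V q)} with hS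
  have hfin : S.Finite := (finite_FU hI.sub).subset fun g hg => hg.1.2.1
  have hC : ((hfin.toFinset : Finset (ℤ × ℤ)) : Set (ℤ × ℤ)) = S := hfin.coe_toFinset
  have hrr := hE.rr
  -- the base is far from `f`
  have hbf : ¬ Nb2 f (fb (eS V q)) R₁ := fun h => hfb (hf _ h.1 h.2).2.1
  have hua := GZ.sq_of_side (isSide_fb (eS V q))
  have hfa := GZ.sq_of_side (isSide_fa (eS V q))
  unfold Sq at hua hfa
  have hub : ¬ Nb2 f (ua (eS V q)) (R₁ - 1) := by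
    intro h
    have e1 := abs_le.1 h.1
    have e2 := abs_le.1 h.2
    exact hbf ⟨abs_le.2 (by omega), abs_le.2 (by omega)⟩
  have hxb : ¬ Nb2 b₀ f (Rb + ρ' + 2) := by
    intro h
    have e1 := abs_le.1 h.1
    have e2 := abs_le.1 h.2
    have e3 := abs_le.1 hb₀.1
    have e4 := abs_le.1 hb₀.2
    exact hub ⟨abs_le.2 (by omega), abs_le.2 (by omega)⟩
  -- the depth
  have hbox : ∀ g : ℤ × ℤ, Nb2 f g (R₁ - 1) → g ∈ hfin.toFinset := by
    intro g hg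
    rw [hfin.mem_toFinset]
    refine ⟨hf g (hg.1.trans (by omega)) (hg.2.trans (by omega)), fun h => hbf ?_⟩
    rw [Set.mem_singleton_iff] at h
    rw [h] at hg
    have e1 := abs_le.1 hg.1
    have e2 := abs_le.1 hg.2
    have e3 := abs_le.1 (fa_near_fb (eS V q)).1
    have e4 := abs_le.1 (fa_near_fb (eS V q)).2
    exact ⟨abs_le.2 (by omega), abs_le.2 (by omega)⟩
  have hR : 0 ≤ R₁ - 1 := by omega
  have hcor : IsCor f f := by
    unfold IsCor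
    omega
  have hdeep := Deep.deep_of_box hbox hcor
  have hfC : f ∈ hfin.toFinset := hbox f ⟨by simpa using hR, by simpa using hR⟩
  have hanc : ∀ v ∈ VB ((hfin.toFinset : Finset (ℤ × ℤ)) : Set (ℤ × ℤ)), ∃ y,
      (exS V q).Sid 1 ω 0 y ∧ Pth {a | InB v r a ∧ ∀ l ≤ 0, (exS V q).p ω l ≠ a} v y := by
    rw [hC]
    exact (hX.rm hD hfb).anc (GZ.Stp.of_zeta rfl rfl rfl) (bc_spec hk).1 hI hr
  have hCF : ((hfin.toFinset : Finset (ℤ × ℤ)) : Set (ℤ × ℤ)) ⊆ (exS V q).Fr ω 0 := by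
    rw [hC, fr_zero_eq]
    exact fun g hg => hg.1.2
  have hsC : fa ((exS V q).p ω 0) ∉ hfin.toFinset := by
    rw [hfin.mem_toFinset]
    exact fun h => h.2 rfl
  have hnb := nb_of_last hI hk hT
  obtain ⟨g1, g2⟩ := Deep.side_exS2 (lam := 1) (C := hfin.toFinset) (s := 0) (b₀ := b₀) (r := r)
    (ρ' := ρ') (ρ₁ := ρ₁) (ρa := ρa) (Ra := Ra) (ρb := ρb) (Rb := Rb) (R₀ := R₁ - 1 - 1) hI hk hT
    (Nat.zero_le T) hCF hsC (Or.inr rfl) (by omega) hrr hanc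
    (fun l _ hl v hv => hE.gate l (hnb.mono hl) v hv) hE.ha hE.ha' hE.hb hE.hb'
    (by simpa using hE.oa) (by simpa using hE.ob) hfC hcor hdeep (by omega) hxb
  refine ⟨fun l hl => g1 l ?_, g2.2 rfl⟩
  -- the strand comes back to its first side after the last time
  by_contra hlT
  push Not at hlT
  refine hl (T + 1) (Nat.succ_pos T) hlT ?_
  have hF := SideK.fin_exS hI hk hT.ge
  have hcf : (exS V q).cf ω = gT ((rst (cfgE n ω) V ∪ q.1 : Finset Edg) : Set Ed) := hF.cf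
  rw [hcf]
  show pth (gT ((rst (cfgE n ω) V ∪ q.1 : Finset Edg) : Set Ed)) (kU (bc V q.1 q.2)) (T + 1) =
    kU (bc V q.1 q.2)
  rw [← kU_iterate, hT, Function.iterate_minimalPeriod]

/-! ### The placing stage -/

section Chain

variable {K kap : ℕ} {d : ℕ → ℕ} {i : ℕ} {x : List Rec} {D : Dom}

/-- The outer faces of the fresh part of the stored set after a needle is placed are near faces which are
not left. -/
theorem nearO_plc {r₀ D₀ : ℤ} {ρ₀ : ℕ} (H : StT (Cov.datC K kap) d n r₀ (ts (Cov.datC K kap) d n ω i) ω)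
    (P : PlcS (Cov.datC K kap) d n ω i V x q D) (hk : HkOK (unt d n) (Hook.ndL K (d 0)) V q
      ((Cov.datC K kap).disc d x) ((Cov.datC K kap).tgt d x) ρ₀) (hu : 0 < unt d n)
    (hK : 2 ≤ Hook.ndL K (d 0)) (hd : 0 < i → d i < d 0)
    (h1 : r₀ + 6 * (unt d n * msh d i) + 6 ≤ D₀) (h2 : 2 * (ρ₀ : ℤ) ≤ D₀) :
    NearO V (blW (Cov.datC K kap) d n (tst (Cov.datC K kap) d n ω i) ∩ (FU V \ QF q.1)) D₀ := by
  have hst := H.st
  rw [frT_none P.q0, P.V0, P.x0] at hst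
  have hW := P.W_eq hK (P.noCor hd)
  have h3 : blW (Cov.datC K kap) d n (tst (Cov.datC K kap) d n ω i) = blow (unt d n : ℤ)
      (CSt.erW ((Cov.datC K kap).cs d x).W (msh d i) ((Cov.datC K kap).tgt d x) \
        compT (CSt.erW ((Cov.datC K kap).cs d x).W (msh d i) ((Cov.datC K kap).tgt d x))
          ((Cov.datC K kap).tgt d x)) := by
    unfold blW
    rw [P.st]
    show blow (unt d n : ℤ) ((Cov.datC K kap).cs d ((∅, 0) :: x)).W = _
    rw [hW, P.disc]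
  rw [h3]
  refine NearO.of_stW (stW_plc hst hu (msh_pos d i) P.mem) h1 fun g hg hgQ => ?_
  have hgP : g ∉ blow (unt d n : ℤ) ((Cov.datC K kap).disc d x) := by
    rw [P.disc]
    exact fun h => hg.2 h
  have hgQ' : g ∈ QF (Hook.hookU (unt d n) (Hook.ndL K (d 0)) V ((Cov.datC K kap).disc d x)
      ((Cov.datC K kap).tgt d x)).1 := by
    rw [← hk.eq]
    exact hgQ
  obtain ⟨y, hy, e1, e2⟩ := hook_near hk.pre hgQ' hgP
  exact ⟨y, hy, e1.trans h2, e2.trans h2⟩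

/-- **The field `old`, for the needle of a placing stage.** -/
theorem keep_plc {r₀ D₀ r ρ' ρ₁ ρa Ra ρb Rb c₁ R₁ : ℤ} {ρ₀ : ℕ}
    (H : StT (Cov.datC K kap) d n r₀ (ts (Cov.datC K kap) d n ω i) ω)
    (P : PlcS (Cov.datC K kap) d n ω i V x q D) (hk : HkOK (unt d n) (Hook.ndL K (d 0)) V q
      ((Cov.datC K kap).disc d x) ((Cov.datC K kap).tgt d x) ρ₀) (hu : 0 < unt d n)
    (hK : 2 ≤ Hook.ndL K (d 0)) (hd : 0 < i → d i < d 0)
    (h1 : r₀ + 6 * (unt d n * msh d i) + 6 ≤ D₀) (h2 : 2 * (ρ₀ : ℤ) ≤ D₀) (h3 : 1 ≤ D₀)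
    (hr : D₀ + 2 ≤ r) (hE : EvO V q ω b₀ r ρ' ρ₁ ρa Ra ρb Rb) (hb₀ : Nb2 b₀ (ua (eS V q)) c₁)
    (h4 : 2 * ρ' + 5 ≤ R₁) (h5 : Rb + ρ' + c₁ + 4 ≤ R₁)
    (hf : Dp (blW (Cov.datC K kap) d n (tst (Cov.datC K kap) d n ω i) ∩ (FU V \ QF q.1)) f R₁) :
    f ∈ FU (stpQ (cfgE n ω) V q) := by
  have hI : Rule.Inv n (cfgE n ω) V := by
    have h : Rule.Inv n (cfgE n ω) (ts (Cov.datC K kap) d n ω i).V := by
      cases i with
      | zero => exact inv_box (DictB.cfgE_subset n ω)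
      | succ i => exact TruR.inv_V (Cov.datC K kap) d n ω i
    rwa [P.V0] at h
  exact (keep_old hI P.ndf (nearO_plc H P hk hu hK hd h1 h2) h3 hr hE hb₀ hf h4 h5).2

/-- **The field `old` of `StgK`.** -/
theorem old_stg {r₀ D₀ r ρ' ρ₁ ρa Ra ρb Rb c₁ R₁ : ℤ} {b : Finset (ℤ × ℤ) → Rule.Ndl → ℤ × ℤ}
    (H : StT (Cov.datC K kap) d n r₀ (ts (Cov.datC K kap) d n ω i) ω)
    (hP : ∀ q, (tst (Cov.datC K kap) d n ω i).q = some q →
      (ts (Cov.datC K kap) d n ω i).q = none → ∃ (D : Dom) (ρ₀ : ℕ),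
        PlcS (Cov.datC K kap) d n ω i (ts (Cov.datC K kap) d n ω i).V
          (ts (Cov.datC K kap) d n ω i).x q D ∧
        HkOK (unt d n) (Hook.ndL K (d 0)) (ts (Cov.datC K kap) d n ω i).V q
          ((Cov.datC K kap).disc d (ts (Cov.datC K kap) d n ω i).x)
          ((Cov.datC K kap).tgt d (ts (Cov.datC K kap) d n ω i).x) ρ₀ ∧ 2 * (ρ₀ : ℤ) ≤ D₀)
    (hu : 0 < unt d n) (hK : 2 ≤ Hook.ndL K (d 0)) (hd : 0 < i → d i < d 0)
    (h1 : r₀ + 6 * (unt d n * msh d i) + 6 ≤ D₀) (h3 : 1 ≤ D₀) (hr : D₀ + 2 ≤ r)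
    (hE : ∀ q, (tst (Cov.datC K kap) d n ω i).q = some q →
      (ts (Cov.datC K kap) d n ω i).q = none →
      EvO (ts (Cov.datC K kap) d n ω i).V q ω (b (ts (Cov.datC K kap) d n ω i).V q) r ρ' ρ₁ ρa Ra ρb Rb ∧
        Nb2 (b (ts (Cov.datC K kap) d n ω i).V q) (ua (eS (ts (Cov.datC K kap) d n ω i).V q)) c₁)
    (h4 : 2 * ρ' + 5 ≤ R₁) (h5 : Rb + ρ' + c₁ + 4 ≤ R₁) :
    ∀ q, (ts (Cov.datC K kap) d n ω i).q = none →
      (nxS (Cov.datC K kap) d n (ts (Cov.datC K kap) d n ω i) ω).q = some q → ∀ f,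
        Dp (blW (Cov.datC K kap) d n (nxS (Cov.datC K kap) d n (ts (Cov.datC K kap) d n ω i) ω) ∩
          (FU (ts (Cov.datC K kap) d n ω i).V \ QF q.1)) f R₁ →
        f ∈ FU (stpQ (cfgE n ω) (ts (Cov.datC K kap) d n ω i).V q) := by
  intro q hq hq' f hf
  rw [← tst_eq_nxS] at hq' hf
  obtain ⟨D, ρ₀, P, hk, h2⟩ := hP q hq' hq
  obtain ⟨hE', hb⟩ := hE q hq' hq
  exact keep_plc H P hk hu hK hd h1 h2 h3 hr hE' hb h4 h5 hf

end Chain

end Pool.Agent.SixB.Tru
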