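import Pool.Agent.Lib.SixB.S8RareM
import Pool.Agent.Lib.SixB.S8Nbh

/-!
# Step 8: the row `rare`, the stored part and the neighbourhood of the tip

Official data `datC K kap`.

* `rad_small`: the radius before the stage `i` is at most the side of the cells of the stage;
* `mvW_of`: the facts of a move for the stored part;
* `JI C 𝔇`: the further invariant, `WI` and `NbI`;
* `RareQ`: the remaining inputs (`kept`: the disc of a new needle is fresh; `ent`: the entrance);
  `RareQ.rareIn`.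
-/

set_option autoImplicit false

namespace Pool.Agent.SixB.Tru

open Filter Finset Topology Pool.Agent.Perc Pool.Agent.PercT Pool.Agent.PercX60 Pool.Agent.PercD
open Pool.Agent.SixB Pool.Agent.SixB.Rule Pool.Agent.SixB.Dct Pool.Agent.SixB.Mv
open Pool.Agent.SixB.TruR (ts)

/-! ### Numbers -/

section Nums

variable {C : ℤ} {d : ℕ → ℕ} {n m i a K : ℕ}

/-- **The radius before the stage `i`** is at most the side of the cells of the stage. -/
theorem rad_small (hC : 0 ≤ C) (ha : 3 * C ≤ 2 ^ a) (ha0 : 0 < a) (hN : NumR a d n m) (hi0 : 1 ≤ i)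
    (hi : i ≤ m + 1) : rad C (unt d n) d i ≤ unt d n * msh d i := by
  obtain ⟨k, rfl⟩ : ∃ k, i = k + 1 := ⟨i - 1, by omega⟩
  have hdec := hN.dec ha0
  have h0 := hdec.anti k (by omega) 0 (by omega)
  have hi1 := hN.2 k (by omega)
  have hm : 0 < msh d k := msh_pos d k
  have hms : 2 ^ a * msh d k ≤ msh d (k + 1) := InvN.msh_step hi1 h0
  have hr := hdec.rad k (by omega)
  have hrad : rad C (unt d n) d (k + 1) ≤ 3 * C * (unt d n * msh d k) := by
    unfold rad
    have h2 : (0 : ℤ) ≤ C * unt d n := by positivity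
    have h3 := mul_le_mul_of_nonneg_left hr h2
    linarith
  have h4 : 3 * C * msh d k ≤ msh d (k + 1) :=
    (mul_le_mul_of_nonneg_right ha hm.le).trans hms
  have h5 : (unt d n : ℤ) * (3 * C * msh d k) ≤ unt d n * msh d (k + 1) :=
    mul_le_mul_of_nonneg_left h4 (by positivity)
  linarith

/-- The same with the radius of the constant `1`. -/
theorem rad_small_one (hC : 0 ≤ C) (ha : 3 * C ≤ 2 ^ a) (ha0 : 0 < a) (hN : NumR a d n m)
    (hi0 : 1 ≤ i) (hi : i ≤ m + 1) : rad C (unt d n) d i ≤ rad 1 (unt d n) d (i + 1) := by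
  refine (rad_small hC ha ha0 hN hi0 hi).trans ?_
  have h1 : (0 : ℤ) ≤ ∑ j ∈ range i, msh d j := sum_nonneg fun j _ => (msh_pos d j).le
  have hu : (0 : ℤ) ≤ unt d n := by positivity
  have h2 : msh d i ≤ 1 + ∑ j ∈ range (i + 1), msh d j := by
    rw [sum_range_succ]
    linarith
  unfold rad
  rw [one_mul]
  exact mul_le_mul_of_nonneg_left h2 hu

/-- The cells of the needle. -/
theorem ndL_ge {b : ℕ} (hK : 0 < K) (h : b * K ≤ 2 ^ d 0) : b ≤ Hook.ndL K (d 0) := by
  unfold Hook.ndL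
  exact (Nat.le_div_iff_mul_le hK).2 h

/-- The side of the cells of the stage is small compared with the needle. -/
theorem msh_ndL {b : ℕ} (hK : 0 < K) (h : b * K ≤ 2 ^ d i) (hd : d i ≤ d 0) :
    (b : ℤ) * msh d i ≤ Hook.ndL K (d 0) := by
  have h1 : b * 2 ^ (d 0 - d i) ≤ Hook.ndL K (d 0) := by
    unfold Hook.ndL
    rw [Nat.le_div_iff_mul_le hK]
    calc b * 2 ^ (d 0 - d i) * K = b * K * 2 ^ (d 0 - d i) := by ring
      _ ≤ 2 ^ d i * 2 ^ (d 0 - d i) := Nat.mul_le_mul_right _ h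
      _ = 2 ^ d 0 := by rw [← pow_add]; congr 1; omega
  unfold msh
  exact_mod_cast h1

/-- The size of the needles. -/
theorem ndl_size (hn : 2 ^ d 0 ≤ n) (hK : 0 < K) (hl : 4 ≤ Hook.ndL K (d 0)) :
    2 * ((unt d n : ℤ) * (Hook.ndL K (d 0) + 1)) + 1 ≤ 3 * (n / K : ℕ) := by
  have hu : 0 < unt d n := Nat.div_pos hn (by positivity)
  have h1 : unt d n * Hook.ndL K (d 0) ≤ n / K := by
    rw [Nat.le_div_iff_mul_le hK]
    have h2 : Hook.ndL K (d 0) * K ≤ 2 ^ d 0 := Nat.div_mul_le_self _ _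
    calc unt d n * Hook.ndL K (d 0) * K = unt d n * (Hook.ndL K (d 0) * K) := by ring
      _ ≤ unt d n * 2 ^ d 0 := Nat.mul_le_mul_left _ h2
      _ ≤ n := Nat.div_mul_le_self _ _
  have h3 : (unt d n : ℤ) * Hook.ndL K (d 0) ≤ (n / K : ℕ) := by exact_mod_cast h1
  have h4 : (4 : ℤ) ≤ Hook.ndL K (d 0) := by exact_mod_cast hl
  have h5 : (1 : ℤ) ≤ unt d n := by exact_mod_cast hu
  nlinarith

end Nums

/-! ### The moves -/

section Mov

variable {𝔇 : Dat} {C : ℤ} {d : ℕ → ℕ} {n i : ℕ} {ω : Cfg} {q : Rule.Ndl} {D : Dom}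

/-- **The facts of a move** from the invariant of the running stages, if the stop is not dead. -/
theorem mvW_of (hN : NumO d n (i + 1) (rad C (unt d n) d (i + 1)))
    (hV : RunVI C 𝔇 d n i (tst 𝔇 d n ω i) ω) (hd : ω ∉ Dead C 𝔇 d n i)
    (hq : (tst 𝔇 d n ω i).q = some q) (hD : (𝔇.cs d (tst 𝔇 d n ω i).x).run = some D)
    (hi : (𝔇.cs d (tst 𝔇 d n ω i).x).ini = false) :
    MvW 𝔇 d n (rad C (unt d n) d (i + 1)) (tst 𝔇 d n ω i) ω q D := by
  have hlen : (tst 𝔇 d n ω i).x.length = i + 1 := tst_len 𝔇 d n ω i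
  rw [← hlen] at hN ⊢
  have hval : D.Val (𝔇.gr d (tst 𝔇 d n ω i).x D) := val_gr hD (msh_pos _ _) hN.h16
  rcases hV q D hq hD hi with ⟨κ, m, x, i₁, j₁, t, j₂, i₂, X⟩ | ⟨κ, m, x, X⟩
  · refine MvW.of_run X.toRunB hval fun hv => ?_
    obtain ⟨κ', m', x', i₁', j₁', t', j₂', i₂', X', σ, hσ⟩ := exists_regS hd hq hD hi hv
    obtain ⟨e1, R⟩ := X'.rg (stO_tst hq) hN hv hσ
    have h1 := R.reg
    rw [e1, ← vs_pS]
    exact h1
  · exact MvW.of_run X.toRunB hval fun hv => absurd (X.end_void hN (∅, 0)).1 hv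

end Mov

/-! ### The further invariant -/

/-- **The further invariant**: the stored part, the history and the neighbourhood of the tip. -/
def JI (C : ℤ) (𝔇 : Dat) : InvP := fun d n i s ω => WI 𝔇 C d n i s ω ∧ NbI C 𝔇 d n i s ω

theorem jI_dec (C : ℤ) (𝔇 : Dat) : InvDec (JI C 𝔇) := (wI_dec 𝔇 C).and (nbI_dec C 𝔇)

/-- **The remaining inputs of the row `rare`**, official data. -/
structure RareQ (K kap : ℕ) (C : ℤ) (G : ℕ → ℕ → ℕ) (N₁ : (ℕ → ℕ) → ℕ) (Y Z : EvF) : Prop where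
  C256 : 256 ≤ C
  K0 : 0 < K
  grow : ∃ a : ℕ, 16 * (9 * C + 6) ≤ 2 ^ a ∧ 512 * K ≤ 2 ^ a ∧ 45 ≤ a ∧ ∀ i e, e + a ≤ G i e
  large : ∀ d, 2 ^ d 0 * (2 * 2 ^ d 0 + 3) ≤ N₁ d
  smZ : SmZ G Z
  smY : SmY G (BdI (InvA C 13 K (JI C (Cov.datC K kap)) (Cov.datC K kap)) (Cov.datC K kap)) Y
  /-- the disc of a new needle is fresh -/
  kept : ∀ {d n i ω},
    GdP (InvA C 13 K (JI C (Cov.datC K kap)) (Cov.datC K kap)) (Cov.datC K kap) (NumC G N₁)
      (YA (Cov.datC K kap) C Y) (ZA (Cov.datC K kap) 13 Z) d n i ω →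
    (ts (Cov.datC K kap) d n ω i).q = none →
    ((Cov.datC K kap).cs d (ts (Cov.datC K kap) d n ω i).x).Plant ((Cov.datC K kap).prm d)
      (msh d (ts (Cov.datC K kap) d n ω i).x.length) →
    blow (unt d n : ℤ) ((Cov.datC K kap).disc d (ts (Cov.datC K kap) d n ω i).x) ⊆
      FU (ts (Cov.datC K kap) d n ω i).V
  /-- the entrance of the strand -/
  ent : ∀ {d n i ω V x q D},
    GdP (InvA C 13 K (JI C (Cov.datC K kap)) (Cov.datC K kap)) (Cov.datC K kap) (NumC G N₁)
      (YA (Cov.datC K kap) C Y) (ZA (Cov.datC K kap) 13 Z) d n (i + 1) ω →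
    EntS (Cov.datC K kap) d n ω i V x q D →
    RunVI C (Cov.datC K kap) d n (i + 1) (tst (Cov.datC K kap) d n ω (i + 1)) ω ∧
      BasI C (Cov.datC K kap) d n (i + 1) (tst (Cov.datC K kap) d n ω (i + 1)) ω ∧
      NbI C (Cov.datC K kap) d n (i + 1) (tst (Cov.datC K kap) d n ω (i + 1)) ω

section

variable {K kap : ℕ} {C : ℤ} {G : ℕ → ℕ → ℕ} {N₁ : (ℕ → ℕ) → ℕ} {Y Z : EvF}
  {d : ℕ → ℕ} {n i m : ℕ} {ω : Cfg}

variable (H : RareQ K kap C G N₁ Y Z)

include H

theorem RareQ.large' : ∀ d, 2 ^ d 0 ≤ N₁ d := fun d => by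
  refine le_trans ?_ (H.large d)
  exact Nat.le_mul_of_pos_right _ (by positivity)

/-- The facts of a placing stage. `i ≥ 1`. -/
theorem RareQ.plH
    (h : GdP (InvA C 13 K (JI C (Cov.datC K kap)) (Cov.datC K kap)) (Cov.datC K kap) (NumC G N₁)
      (YA (Cov.datC K kap) C Y) (ZA (Cov.datC K kap) 13 Z) d n i ω)
    (hq : (ts (Cov.datC K kap) d n ω i).q = none)
    (hp : ((Cov.datC K kap).cs d (ts (Cov.datC K kap) d n ω i).x).Plant ((Cov.datC K kap).prm d)
      (msh d (ts (Cov.datC K kap) d n ω i).x.length)) :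
    PlH 13 K (Cov.datC K kap) d n i (ts (Cov.datC K kap) d n ω i) := by
  obtain ⟨a, ha, haK, ha45, hG⟩ := H.grow
  have hR : NumR a d n i := h.num.numR hG H.large'
  have hu : (0 : ℤ) < unt d n := by exact_mod_cast hR.1
  have hf := H.kept h hq hp
  cases i with
  | zero => exact absurd hp not_plant_zero
  | succ k =>
    have hJ := (h.inv (Nat.lt_succ_self k)).2.2.2.2
    have hlen : (tst (Cov.datC K kap) d n ω k).x.length = k + 1 := tst_len _ d n ω k
    have hdec := hR.dec (by omega)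
    have hd0 : d (k + 1) ≤ d 0 := hdec.anti (k + 1) (by omega) 0 (by omega)
    have hda : a ≤ d (k + 1) := by
      have := hR.2 (k + 1) le_rfl
      omega
    have h2a : 2 ^ a ≤ 2 ^ d (k + 1) := Nat.pow_le_pow_right (by norm_num) hda
    have h2a' : 2 ^ a ≤ 2 ^ d 0 := Nat.pow_le_pow_right (by norm_num) (hda.trans hd0)
    have hrs : rad C (unt d n) d (k + 1) ≤ unt d n * msh d (k + 1) :=
      rad_small (by have := H.C256; omega) (by have := H.C256; omega) (by omega) hR (by omega)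
        (by omega)
    have hr0 : 0 ≤ rad C (unt d n) d (k + 1) := by
      have h1 := unt_le_rad (d := d) (n := n) (C := C) (by have := H.C256; omega) (k + 1)
      omega
    have hm1 : 1 ≤ msh d (k + 1) := msh_pos d (k + 1)
    have hum : (unt d n : ℤ) ≤ unt d n * msh d (k + 1) := by nlinarith
    have hb : 13 * msh d (k + 1) ≤ Hook.ndL K (d 0) := by
      have h1 := msh_ndL (b := 13) (i := k + 1) H.K0 (by omega) hd0
      exact_mod_cast h1
    have hSc := ndl_size (d := d) (n := n) (K := K) ((H.large' d).trans h.num.2) H.K0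
      (ndL_ge H.K0 (by omega))
    refine plH_of (s := tst (Cov.datC K kap) d n ω k) hJ.1.1 hR.1
      (ndL_ge (b := 1) H.K0 (by omega)) hq hp hf hr0 ?_ ?_ ?_
    · rw [hlen]
      have h1 : (unt d n : ℤ) * (13 * msh d (k + 1)) ≤ unt d n * (Hook.ndL K (d 0) : ℤ) :=
        mul_le_mul_of_nonneg_left hb hu.le
      nlinarith
    · exact hSc
    · rw [hlen, Sc.ls_eq_msh]
      nlinarith

/-- **The inputs of the row `rare`.** -/
theorem RareQ.rareP :
    RareP C 13 K (JI C (Cov.datC K kap)) (Cov.datC K kap) G N₁ Y Z where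
  C9 := by
    have := H.C256
    omega
  c0 := by norm_num
  grow := by
    obtain ⟨a, ha, haK, ha45, hG⟩ := H.grow
    refine ⟨7, by decide, fun i e => ?_⟩
    have := hG i e
    omega
  grow' := by
    obtain ⟨a, ha, haK, ha45, hG⟩ := H.grow
    exact ⟨a, ha, hG⟩
  large := H.large'
  decJ := jI_dec C _
  smZ := H.smZ
  smY := H.smY
  plant h hq hr hD := plantIn_of hq hr hD fun hp => H.plH h hq hp
  ent h hE := ⟨(H.ent h hE).1, (H.ent h hE).2.1⟩
  stJ {d n i ω} h := by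
    obtain ⟨a, ha, haK, ha45, hG⟩ := H.grow
    have hC : 13 ≤ C := by
      have := H.C256
      omega
    have hR : NumR a d n i := h.num.numR hG H.large'
    cases i with
    | zero =>
      refine ⟨?_, nbI_zero⟩
      have h1 : 2 ^ d 0 * (2 * 2 ^ d 0 + 3) ≤ n := (H.large d).trans h.num.2
      have hp : 0 < 2 ^ d 0 := by positivity
      have h2 : 2 * 2 ^ d 0 + 3 ≤ unt d n := by
        unfold unt
        rw [Nat.le_div_iff_mul_le hp]
        calc (2 * 2 ^ d 0 + 3) * 2 ^ d 0 = 2 ^ d 0 * (2 * 2 ^ d 0 + 3) := Nat.mul_comm _ _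
          _ ≤ n := h1
      have h3 : n % 2 ^ d 0 < 2 ^ d 0 := Nat.mod_lt _ hp
      exact wI_zero (r₀ := n % 2 ^ d 0) (by omega) (by unfold unt; exact (Nat.div_add_mod _ _).symm)
        (by omega) hC
    | succ k =>
      have hi := h.inv (Nat.lt_succ_self k)
      have hdead := h.dead (Nat.lt_succ_self k)
      have hNO : NumO d n (k + 1) (rad C (unt d n) d (k + 1)) :=
        (hR.le (Nat.le_succ k)).numO (by omega) ha le_rfl
      have hent : ∀ q D, (tst (Cov.datC K kap) d n ω k).q = some q →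
          ((Cov.datC K kap).cs d (tst (Cov.datC K kap) d n ω k).x).run = some D →
          ((Cov.datC K kap).cs d (tst (Cov.datC K kap) d n ω k).x).ini = true →
          NbI C (Cov.datC K kap) d n (k + 1) (tst (Cov.datC K kap) d n ω (k + 1)) ω := by
        intro q D hq hD hini q' D' hq' hD' hi'
        exact (H.ent h (start_of hq' hD' hini)).2.2 q' D' hq' hD' hi'
      refine ⟨wI_step hC hR.1 hi.2.2.2.2.1 ⟨fun hq hp => ?_, fun q D hq hD hini => ?_⟩,
        nbI_step (by omega) ha (hR.le (Nat.le_succ k)) hdead hi.1 hent hi.2.2.2.2.2⟩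
      · exact (H.plH h hq hp).1
      · exact mvW_of hNO hi.1 hdead hq hD hini

end

end Pool.Agent.SixB.Tru
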