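import Pool.Agent.Lib.SixB.S8KeptL
import Pool.Agent.Lib.SixB.S8StartCh
import Pool.Agent.Lib.SixB.S8RareO

/-!
# Step 8: the face in front of the strand along the chain

* `RunI.rdS`, `stp_of`: the regular stop `RdS` of a move which is not void and not dead;
* `outP_ts`: the face in front of the strand is not a face of the magnified domain, at every stage;
* `stpW_tst`: the facts `StpW` at every stage with a move; `stpW_all`: the same from the invariant of the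
  running stages; `stpW_ic`: the same from the invariant `InvA`.
-/

set_option autoImplicit false

namespace Pool.Agent.SixB.Tru

open Finset Pool.Agent.Perc Pool.Agent.PercT Pool.Agent.PercX60 Pool.Agent.Perc6
open Pool.Agent.SixB Pool.Agent.SixB.Rule Pool.Agent.SixB.Dct Pool.Agent.SixB.Mv
open Pool.Agent.SixB.Blow (subE runS_blowR)
open Pool.Agent.SixB.TruR (ts)

variable {𝔇 : Dat} {C : ℤ} {d : ℕ → ℕ} {n i : ℕ} {s : TS} {ω : Cfg} {q : Rule.Ndl} {D : Dom}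
  {κ : ℤ × ℤ → ℤ × ℤ} {r : ℤ} {m x i₁ j₁ t j₂ i₂ : ℕ}

/-- **A regular stop gives the data `RdS`.** -/
theorem RunI.rdS (X : RunI 𝔇 d n r s ω q D κ m x i₁ j₁ t j₂ i₂) (hO : StO n s q)
    (hN : NumO d n s.x.length r) (hv : ¬ D.Void (𝔇.gr d s.x D)) {σ : ℕ}
    (hS : D.regS (𝔇.gr d s.x D) (unt d n) (uS s q ω) κ (tS s q ω).1 (cfS s.V q ω) σ) :
    RdS (unt d n) (tmx n) D (𝔇.gr d s.x D) (uS s q ω)
      (D.tru (𝔇.gr d s.x D) (unt d n) (uS s q ω) κ) (pS s.V q ω s.t) (cfS s.V q ω) σ := by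
  have hval : D.Val (𝔇.gr d s.x D) := val_gr X.run (msh_pos _ _) hN.h16
  have hT := X.tst ω
  rw [Xi_self] at hT
  have hTP : ∀ f ∈ D.tru (𝔇.gr d s.x D) (unt d n) (uS s q ω) κ, f ∈ blow (unt d n : ℤ) D.P →
      f ∈ blow (unt d n : ℤ) (D.inr (𝔇.gr d s.x D)) := by
    have hM := hval.mvd hN.hu X.app hT.fin hT.ec hT.esc
    have hr := runS_blowR hN.hu hval.conD (hval.runS hv)
    have hlt : unt d n * D.n₂ (𝔇.gr d s.x D) < unt d n * cyl (D.inr (𝔇.gr d s.x D)) D.A := by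
      have h1 := (hval.runK hv).lt_cyl (K := ∅) Dom.empty_mem
      rw [Dom.n2_empty, Dom.gK_empty] at h1
      exact Nat.mul_lt_mul_of_pos_left h1 hN.hu
    intro f hf hfP
    have h1 := (hM.closure hr.att hr.tip hr.con hlt).1 f hf hfP
    rwa [(hval.runK hv).blow_inn' hN.hu] at h1
  exact rdS_of_stopR hO.box hO.ndl hN.hu hval hv X.app.sub hTP hS

/-- **The regular stop of a move** which is not dead. -/
theorem stp_of (hN : NumO d n (i + 1) (rad C (unt d n) d (i + 1))) (hd : ω ∉ Dead C 𝔇 d n i)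
    (hq : (tst 𝔇 d n ω i).q = some q) (hD : (𝔇.cs d (tst 𝔇 d n ω i).x).run = some D)
    (hi : (𝔇.cs d (tst 𝔇 d n ω i).x).ini = false)
    (hv : ¬ D.Void (𝔇.gr d (tst 𝔇 d n ω i).x D)) :
    ∃ (U T₀ : Set (ℤ × ℤ)) (σ : ℕ), RdS (unt d n) (tmx n) D (𝔇.gr d (tst 𝔇 d n ω i).x D) U T₀
      (pS (tst 𝔇 d n ω i).V q ω (tst 𝔇 d n ω i).t) (cfS (tst 𝔇 d n ω i).V q ω) σ := by
  have hlen : (tst 𝔇 d n ω i).x.length = i + 1 := tst_len 𝔇 d n ω i
  rw [← hlen] at hN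
  obtain ⟨κ, m, x, i₁, j₁, t, j₂, i₂, X, σ, hσ⟩ := exists_regS hd hq hD hi hv
  exact ⟨_, _, σ, X.rdS (stO_tst hq) hN hv hσ⟩

/-- In a state with `ini = true` there is nothing to prove. -/
theorem OutP.of_ini (h : (𝔇.cs d s.x).ini = true) : OutP 𝔇 d n s ω := by
  intro q D _ _ h1
  rw [h] at h1
  cases h1

/-- **The face in front of the strand, along the chain.** -/
theorem outP_ts {N : ℕ} {r : ℕ → ℤ} (hu : 0 < unt d n)
    (hM : ∀ k < N, ∀ q D, (tst 𝔇 d n ω k).q = some q →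
      (𝔇.cs d (tst 𝔇 d n ω k).x).run = some D → (𝔇.cs d (tst 𝔇 d n ω k).x).ini = false →
      MvW 𝔇 d n (r k) (tst 𝔇 d n ω k) ω q D ∧
        (¬ D.Void (𝔇.gr d (tst 𝔇 d n ω k).x D) → ∃ (U T₀ : Set (ℤ × ℤ)) (σ : ℕ),
          RdS (unt d n) (tmx n) D (𝔇.gr d (tst 𝔇 d n ω k).x D) U T₀
            (pS (tst 𝔇 d n ω k).V q ω (tst 𝔇 d n ω k).t) (cfS (tst 𝔇 d n ω k).V q ω) σ))
    (hE : ∀ k V x q D, k + 1 ≤ N → EntS 𝔇 d n ω k V x q D → OutP 𝔇 d n (tst 𝔇 d n ω (k + 1)) ω) :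
    ∀ k ≤ N, OutP 𝔇 d n (tst 𝔇 d n ω k) ω := by
  intro k
  induction k with
  | zero =>
    intro _ q D hq hD hi
    rcases run_cases hq hD hi with ⟨k, V, x, h, -⟩ | ⟨k, D₁, h, -⟩
    · omega
    · omega
  | succ k ih =>
    intro hk q D hq hD hi
    rcases run_cases hq hD hi with ⟨k', V, x, h, hS⟩ | ⟨k', D₁, h, hS⟩
    · obtain rfl : k = k' := by omega
      exact hE k V x q D hk hS q D hq hD hi
    · obtain rfl : k = k' := by omega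
      obtain ⟨h1, h2⟩ := hM k (by omega) q D₁ hS.q hS.run hS.ini
      have h3 := (StpW.of_out (ih (by omega)) h1 hu hS.q hS.run hS.ini h2).out_nx hS.q hS.run hS.ini
      rw [← tst_succ] at h3
      exact h3 q D hq hD hi

/-- **The facts of a move, along the chain.** -/
theorem stpW_tst {N : ℕ} {r : ℕ → ℤ} (hu : 0 < unt d n)
    (hM : ∀ k ≤ N, ∀ q D, (tst 𝔇 d n ω k).q = some q →
      (𝔇.cs d (tst 𝔇 d n ω k).x).run = some D → (𝔇.cs d (tst 𝔇 d n ω k).x).ini = false →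
      MvW 𝔇 d n (r k) (tst 𝔇 d n ω k) ω q D ∧
        (¬ D.Void (𝔇.gr d (tst 𝔇 d n ω k).x D) → ∃ (U T₀ : Set (ℤ × ℤ)) (σ : ℕ),
          RdS (unt d n) (tmx n) D (𝔇.gr d (tst 𝔇 d n ω k).x D) U T₀
            (pS (tst 𝔇 d n ω k).V q ω (tst 𝔇 d n ω k).t) (cfS (tst 𝔇 d n ω k).V q ω) σ))
    (hE : ∀ k V x q D, k + 1 ≤ N → EntS 𝔇 d n ω k V x q D → OutP 𝔇 d n (tst 𝔇 d n ω (k + 1)) ω)
    {k : ℕ} (hk : k ≤ N) (hq : (tst 𝔇 d n ω k).q = some q)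
    (hD : (𝔇.cs d (tst 𝔇 d n ω k).x).run = some D)
    (hi : (𝔇.cs d (tst 𝔇 d n ω k).x).ini = false) :
    StpW 𝔇 d n (r k) (tst 𝔇 d n ω k) ω q D :=
  StpW.of_out (outP_ts hu (fun k h => hM k h.le) hE k hk) (hM k hk q D hq hD hi).1 hu hq hD hi
    (hM k hk q D hq hD hi).2

/-- **The facts of a move, along the chain**, from the invariant of the running stages. -/
theorem stpW_all {N : ℕ} (hN : ∀ k ≤ N, NumO d n (k + 1) (rad C (unt d n) d (k + 1)))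
    (hV : ∀ k ≤ N, RunVI C 𝔇 d n k (tst 𝔇 d n ω k) ω) (hd : ∀ k ≤ N, ω ∉ Dead C 𝔇 d n k)
    (hE : ∀ k V x q D, k + 1 ≤ N → EntS 𝔇 d n ω k V x q D → OutP 𝔇 d n (tst 𝔇 d n ω (k + 1)) ω)
    {k : ℕ} (hk : k ≤ N) (hq : (tst 𝔇 d n ω k).q = some q)
    (hD : (𝔇.cs d (tst 𝔇 d n ω k).x).run = some D)
    (hi : (𝔇.cs d (tst 𝔇 d n ω k).x).ini = false) :
    StpW 𝔇 d n (rad C (unt d n) d (k + 1)) (tst 𝔇 d n ω k) ω q D :=
  stpW_tst (r := fun k => rad C (unt d n) d (k + 1)) (hN 0 (Nat.zero_le _)).hu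
    (fun k h _ _ h1 h2 h3 => ⟨mvW_of (hN k h) (hV k h) (hd k h) h1 h2 h3,
      stp_of (hN k h) (hd k h) h1 h2 h3⟩) hE hk hq hD hi

/-- **The facts of a move, along the chain**, from the invariant `InvA` (the official `IC`). -/
theorem stpW_ic {c₀ : ℤ} {a K N : ℕ} {J : InvP} (hC : 0 ≤ C)
    (ha : 16 * (9 * C + 6) ≤ 2 ^ a) (hN : NumR a d n N)
    (hV : ∀ k ≤ N, InvA C c₀ K J 𝔇 d n k (tst 𝔇 d n ω k) ω) (hd : ∀ k ≤ N, ω ∉ Dead C 𝔇 d n k)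
    (hE : ∀ k V x q D, k + 1 ≤ N → EntS 𝔇 d n ω k V x q D → OutP 𝔇 d n (tst 𝔇 d n ω (k + 1)) ω)
    {k : ℕ} (hk : k ≤ N) (hq : (tst 𝔇 d n ω k).q = some q)
    (hD : (𝔇.cs d (tst 𝔇 d n ω k).x).run = some D)
    (hi : (𝔇.cs d (tst 𝔇 d n ω k).x).ini = false) :
    StpW 𝔇 d n (rad C (unt d n) d (k + 1)) (tst 𝔇 d n ω k) ω q D :=
  stpW_all (fun k h => hN.numO hC ha h) (fun k h => (hV k h).1) hd hE hk hq hD hi

end Pool.Agent.SixB.Tru
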