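import Pool.Agent.Lib.SixB.S8RareG

/-!
# Step 8: the row `rare`, gates with a free pair of radii

* `smZ_le`: if the static event `Z` is rare then the union of the events `Z d n l`, `l ≤ m`, is rare for a
  larger growth function;
* `ZGh 𝔇 c₀ c₁ N₀ h d n m`: as `ZG`, for the width `c₁ * gW d n m` and the distance
  `ls d n (d (m + 1) + h)`; `smZ_ZGh`: the event is rare;
* `mem_ZGh`, `gate_near_tip`: a gate of the running strand at any time.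
-/

set_option autoImplicit false

namespace Pool.Agent.SixB.TruG

open Filter Topology Finset Pool.Agent.Perc Pool.Agent.PercT Pool.Agent.PercX60
open Pool.Agent.SixB Pool.Agent.SixB.Rule Pool.Agent.SixB.Dct Pool.Agent.SixB.Mv
open Pool.Agent.SixB.Tru Pool.Agent.SixB.TruR Pool.Agent.SixB.NearCut
open Pool.Agent.SixB.Near (Bx)

/-! ### The union over the stages -/

theorem groF_anti {G : ℕ → ℕ → ℕ} (hG : ∀ i e, e ≤ G i e) {m : ℕ} {d : ℕ → ℕ} (h : GroF G m d)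
    {i j : ℕ} (hij : i ≤ j) (hj : j ≤ m) : d j ≤ d i := by
  induction j, hij using Nat.le_induction with
  | base => exact le_rfl
  | succ j _ ih => exact ((hG j _).trans (h j (by omega))).trans (ih (by omega))

/-- **The union of a rare static event over the stages `l ≤ m`.** -/
theorem smZ_le {G : ℕ → ℕ → ℕ} {Z : EvF} (hG : ∀ i e, e ≤ G i e) (h : SmZ G Z) :
    ∃ G₀ : ℕ → ℕ → ℕ, (∀ i e, G i e ≤ G₀ i e) ∧ ∀ G' : ℕ → ℕ → ℕ, (∀ i e, G₀ i e ≤ G' i e) →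
      SmZ G' fun d n m => {ω | ∃ l ≤ m, ω ∈ Z d n l} := by
  classical
  choose L hL using h
  refine ⟨fun i e => max (G i e) (L i e (epsR e) (epsR_pos e)), fun i e => le_max_left _ _, ?_⟩
  intro G' hG' m e η hη
  have g0 : ∀ i e, G i e ≤ G' i e := fun i e => (le_max_left _ _).trans (hG' i e)
  have g1 : ∀ i e, L i e (epsR e) (epsR_pos e) ≤ G' i e :=
    fun i e => (le_max_right _ _).trans (hG' i e)
  obtain ⟨k₀, hk₀⟩ : ∃ k₀ : ℕ, (m : ℝ) * epsR k₀ ≤ η / 2 := by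
    obtain ⟨k₀, hk₀⟩ := exists_pow_lt_of_lt_one (show (0 : ℝ) < η / 2 / (m + 1) by positivity)
      (show (1 / 2 : ℝ) < 1 by norm_num)
    refine ⟨k₀, ?_⟩
    rw [lt_div_iff₀ (by positivity)] at hk₀
    have h1 := epsR_pos k₀
    unfold epsR at h1 ⊢
    nlinarith
  refine ⟨max (L m e (η / 2) (by positivity)) k₀, fun d hd hdm hg => ?_⟩
  have e1 := hL m e (η / 2) (by positivity) d hd ((le_max_left _ _).trans hdm) (hg.mono g0)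
  have hk : k₀ ≤ d m := (le_max_right _ _).trans hdm
  have e2 : ∀ᶠ n in atTop, ∀ l ∈ range m, pr (Sn n) (Z d n l) ≤ epsR k₀ := by
    rw [eventually_all_finset]
    intro l hl
    rw [mem_range] at hl
    have h1 := hL l (d (l + 1)) (epsR (d (l + 1))) (epsR_pos _) d rfl
      ((g1 _ _).trans (hg l (by omega))) ((hg.mono g0).le (by omega))
    filter_upwards [h1] with n hn
    exact hn.trans (epsR_anti (hk.trans (groF_anti hG (hg.mono g0) (by omega) (by omega))))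
  filter_upwards [e1, e2] with n h1 h2
  have h3 : {ω | ∃ l ≤ m, ω ∈ Z d n l} ⊆ Z d n m ∪ {ω | ∃ l < m, ω ∈ Z d n l} := by
    rintro ω ⟨l, hl, hω⟩
    rcases hl.lt_or_eq with h4 | rfl
    · exact Or.inr ⟨l, h4, hω⟩
    · exact Or.inl hω
  have h4 := pr_biUnion_le (Sn n) (fun l => Z d n l) (fun _ => epsR k₀) m
    fun l hl => h2 l (mem_range.2 hl)
  rw [sum_const, card_range, nsmul_eq_mul] at h4
  refine ((pr_mono _ h3).trans (pr_union_le _ _ _)).trans ?_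
  linarith

/-! ### The event -/

/-- New gates in one of the steps, of the width `c₁ * gW d n m`, at the distance
`ls d n (d (m + 1) + h)`. -/
def ZGh (𝔇 : Dat) (c₀ c₁ : ℤ) (N₀ h : ℕ) (d : ℕ → ℕ) (n m : ℕ) : Set Cfg :=
  {ω | ∃ j < 𝔇.m, NM.Nds n (ruleT 𝔇 d n) (c₀ * Sc.ls d n (d m)) N₀ j ω ∧ ∃ N, ∃ z₁ : ℤ × ℤ,
    NM.NewG (exR n (ruleT 𝔇 d n) j) ω N z₁ (c₁ * gW d n m) (Sc.ls d n (d (m + 1) + h))}

theorem zG_eq (𝔇 : Dat) (c₀ : ℤ) (N₀ : ℕ) (d : ℕ → ℕ) (n m : ℕ) :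
    ZG 𝔇 c₀ N₀ d n m = ZGh 𝔇 c₀ 1 N₀ 6 d n m := by
  unfold ZG ZGh gR
  rw [one_mul]

/-- **New gates are rare.** -/
theorem zGh_small (𝔇 : Dat) {c₀ c₁ : ℤ} (hc₀ : 0 ≤ c₀) (hc₁ : 0 ≤ c₁) (N₀ h m e : ℕ) {η : ℝ}
    (hη : 0 < η) : ∃ L : ℕ, ∀ d : ℕ → ℕ, d (m + 1) = e → L ≤ d m → d m ≤ d 0 →
      ∀ᶠ n in atTop, pr (Sn n) (ZGh 𝔇 c₀ c₁ N₀ h d n m) ≤ η := by
  obtain ⟨κ, hκ, n₀, hmain⟩ := NM.near_all 𝔇.m N₀ (δ := 1 / 2 ^ (e + h + 1)) (by positivity) hη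
  have hcR : (0 : ℝ) ≤ c₀ := by exact_mod_cast hc₀
  have hcR1 : (0 : ℝ) ≤ c₁ := by exact_mod_cast hc₁
  obtain ⟨J, hJ⟩ : ∃ J : ℕ, (8 * (c₁ : ℝ) + c₀) * (1 / 2) ^ J ≤ κ := by
    obtain ⟨J, hJ⟩ := exists_pow_lt_of_lt_one
      (div_pos hκ (show (0 : ℝ) < 8 * c₁ + c₀ + 1 by linarith)) (show (1 / 2 : ℝ) < 1 by norm_num)
    refine ⟨J, ?_⟩
    rw [lt_div_iff₀ (by linarith)] at hJ
    have : (0 : ℝ) < (1 / 2) ^ J := by positivity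
    nlinarith
  refine ⟨3 * J + 3 + (e + h), fun d hd hL hd0 => ?_⟩
  filter_upwards [eventually_ge_atTop n₀, eventually_ge_atTop (2 ^ (d 0 + 1))] with n hn hn2
  have hn0 : (0 : ℝ) ≤ n := Nat.cast_nonneg n
  have hl0 : ∀ a, (0 : ℝ) ≤ Sc.ls d n a := fun a => by exact_mod_cast Sc.ls_nonneg d n a
  have key : ∀ a, J ≤ a → a ≤ d 0 → (8 * (c₁ : ℝ) + c₀) * Sc.ls d n a ≤ κ * n := by
    intro a ha ha0
    have h1 := ls_le d n ha0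
    have h2 : (n : ℝ) / 2 ^ a ≤ n * (1 / 2) ^ J := by
      rw [div_eq_mul_one_div]
      refine mul_le_mul_of_nonneg_left ?_ hn0
      rw [one_div_pow]
      exact one_div_le_one_div_of_le (by positivity) (pow_le_pow_right₀ (by norm_num) ha)
    calc (8 * (c₁ : ℝ) + c₀) * Sc.ls d n a ≤ (8 * (c₁ : ℝ) + c₀) * (n * (1 / 2) ^ J) :=
          mul_le_mul_of_nonneg_left (h1.trans h2) (by linarith)
      _ = (8 * (c₁ : ℝ) + c₀) * (1 / 2) ^ J * n := by ring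
      _ ≤ κ * n := mul_le_mul_of_nonneg_right hJ hn0
  refine hmain n hn (n / 𝔇.K) (ruleT 𝔇 d n) (c₀ * Sc.ls d n (d m)) (c₁ * gW d n m)
    (Sc.ls d n (d (m + 1) + h)) (ruleT_ok 𝔇 d n) (mul_nonneg hc₀ (Sc.ls_nonneg d n _)) ?_ ?_ ?_ ?_
  · have h1 := key (d m) (by omega) hd0
    push_cast
    have h2 : (0 : ℝ) ≤ 8 * c₁ * Sc.ls d n (d m) := mul_nonneg (by linarith) (hl0 _)
    linarith
  · exact mul_nonneg hc₁ (mul_nonneg (by norm_num) (Sc.ls_nonneg d n _))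
  · have h1 := key (Sc.eR (d m) (d (m + 1))) (by unfold Sc.eR; omega) (by unfold Sc.eR; omega)
    unfold gW
    push_cast
    have h2 : (0 : ℝ) ≤ c₀ * Sc.ls d n (Sc.eR (d m) (d (m + 1))) := mul_nonneg hcR (hl0 _)
    linarith
  · have h1 := ls_ge d (e := d (m + 1) + h) (by omega) hn2
    rw [hd] at h1 ⊢
    calc 1 / 2 ^ (e + h + 1) * (n : ℝ) = n / 2 ^ (e + h + 1) := by ring
      _ ≤ _ := h1

/-- **New gates are rare**, in the form of the row `rare`. -/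
theorem smZ_ZGh (𝔇 : Dat) {G : ℕ → ℕ → ℕ} (hG : ∀ i e, e ≤ G i e) {c₀ c₁ : ℤ} (hc₀ : 0 ≤ c₀)
    (hc₁ : 0 ≤ c₁) (N₀ h : ℕ) : SmZ G (ZGh 𝔇 c₀ c₁ N₀ h) := by
  intro m e η hη
  obtain ⟨L, hL⟩ := zGh_small 𝔇 hc₀ hc₁ N₀ h m e hη
  exact ⟨L, fun d h1 h2 h3 => hL d h1 h2 (groF_le hG h3 m (by omega))⟩

/-- The union over the stages `l ≤ m`. -/
theorem smZ_ZGh_le (𝔇 : Dat) {G : ℕ → ℕ → ℕ} (hG : ∀ i e, e ≤ G i e) {c₀ c₁ : ℤ} (hc₀ : 0 ≤ c₀)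
    (hc₁ : 0 ≤ c₁) (N₀ h : ℕ) :
    ∃ G₀ : ℕ → ℕ → ℕ, (∀ i e, G i e ≤ G₀ i e) ∧ ∀ G' : ℕ → ℕ → ℕ, (∀ i e, G₀ i e ≤ G' i e) →
      SmZ G' fun d n m => {ω | ∃ l ≤ m, ω ∈ ZGh 𝔇 c₀ c₁ N₀ h d n l} :=
  smZ_le hG (smZ_ZGh 𝔇 hG hc₀ hc₁ N₀ h)

/-! ### The gates of the running strand -/

section Gates

variable {𝔇 : Dat} {d : ℕ → ℕ} {n m : ℕ} {ω : Cfg} {q : Rule.Ndl} {c₀ c₁ : ℤ} {N₀ h : ℕ}

/-- A gate of the running strand at the scales of the stage `l`. -/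
theorem mem_ZGh {l t : ℕ} {z : ℤ × ℤ} {w D : ℤ} (hq : (tst 𝔇 d n ω m).q = some q)
    (hw : w ≤ c₁ * gW d n l) (hD : Sc.ls d n (d (l + 1) + h) ≤ D)
    (hNds : ∀ j, cnt 𝔇 d (tst 𝔇 d n ω m) = j + 1 →
      NM.Nds n (ruleT 𝔇 d n) (c₀ * Sc.ls d n (d l)) N₀ j ω)
    (hNb : Nb (cfS (tst 𝔇 d n ω m).V q ω) (Tru.eS (tst 𝔇 d n ω m).V q) t)
    (hg0 : ¬ (exS (tst 𝔇 d n ω m).V q).Gate ω 0 z (c₁ * gW d n l))
    (hg : (exS (tst 𝔇 d n ω m).V q).Gate ω t z w)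
    (h1 : fa (pS (tst 𝔇 d n ω m).V q ω t) ∉ Bx z D)
    (h2 : fa (Tru.eS (tst 𝔇 d n ω m).V q) ∉ Bx z D) : ω ∈ ZGh 𝔇 c₀ c₁ N₀ h d n l := by
  obtain ⟨j, hj, hj'⟩ := exists_run hq
  exact ⟨j, hj, hNds j hj', t, z, newG_of hq hj' hNb (hg.mono hw) hg0
    (fun h3 => h1 (WC.bx_mono hD h3)) (fun h3 => h2 (WC.bx_mono hD h3))⟩

/-- **Outside of the event every gate is near the tip or near the base**, at every time. -/
theorem gate_near_tip {l t : ℕ} {z : ℤ × ℤ} {w D : ℤ} (hq : (tst 𝔇 d n ω m).q = some q)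
    (hω : ω ∉ ZGh 𝔇 c₀ c₁ N₀ h d n l) (hw : w ≤ c₁ * gW d n l)
    (hD : Sc.ls d n (d (l + 1) + h) ≤ D)
    (hNds : ∀ j, cnt 𝔇 d (tst 𝔇 d n ω m) = j + 1 →
      NM.Nds n (ruleT 𝔇 d n) (c₀ * Sc.ls d n (d l)) N₀ j ω)
    (hNb : Nb (cfS (tst 𝔇 d n ω m).V q ω) (Tru.eS (tst 𝔇 d n ω m).V q) t)
    (hg0 : fa (Tru.eS (tst 𝔇 d n ω m).V q) ∉ Bx z D →
      ¬ (exS (tst 𝔇 d n ω m).V q).Gate ω 0 z (c₁ * gW d n l))
    (hg : (exS (tst 𝔇 d n ω m).V q).Gate ω t z w) :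
    fa (pS (tst 𝔇 d n ω m).V q ω t) ∈ Bx z D ∨ fa (Tru.eS (tst 𝔇 d n ω m).V q) ∈ Bx z D := by
  by_contra hno
  rw [not_or] at hno
  exact hω (mem_ZGh hq hw hD hNds hNb (hg0 hno.2) hg hno.1 hno.2)

end Gates

end Pool.Agent.SixB.TruG
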