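import Pool.Agent.Lib.SixB.S8Rare

/-!
# Step 8: rare transition events with a free scale

The radii of the one wall events are at the scales `e + 2 h`, `e + 3 h` of the next resolution `e`: for a
fixed `h` their probability does not tend to zero with the resolution. So the transition event `Y` is
defined by the failure of a property, and `h` is chosen after the bound `η`:

* `smY_of_h`: if for all large `h` the event `Y`, without bad events, is contained in `Zh h ∪ Oh h`, where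
  `Zh h` is static and rare for every `h` and `Oh h` has a probability `≤ C (m + 1) 2 ^ (- α h)`, then `Y`
  is rare;
* `smZ_of_h`: the same for static events.
-/

set_option autoImplicit false

namespace Pool.Agent.SixB.TruY

open Filter Finset Topology Pool.Agent.Perc Pool.Agent.PercT Pool.Agent.PercX60 Pool.Agent.PercD
open Pool.Agent.SixB Pool.Agent.SixB.Rule Pool.Agent.SixB.Dct Pool.Agent.SixB.Mv
open Pool.Agent.SixB.Tru

/-- A geometric sequence with a real exponent is small. -/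
theorem exists_h {C α η : ℝ} (hα : 0 < α) (hη : 0 < η) :
    ∃ h₀ : ℕ, ∀ h : ℕ, h₀ ≤ h → C * (1 / 2 : ℝ) ^ (α * h) ≤ η := by
  have hb0 : (0 : ℝ) < (1 / 2 : ℝ) ^ α := Real.rpow_pos_of_pos (by norm_num) α
  have hb1 : (1 / 2 : ℝ) ^ α < 1 := Real.rpow_lt_one (by norm_num) (by norm_num) hα
  obtain ⟨h₀, hh₀⟩ := exists_pow_lt_of_lt_one (show (0 : ℝ) < η / (|C| + 1) by positivity) hb1
  refine ⟨h₀, fun h hh => ?_⟩
  have e1 : (1 / 2 : ℝ) ^ (α * h) = ((1 / 2 : ℝ) ^ α) ^ h := by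
    rw [Real.rpow_mul (by norm_num), Real.rpow_natCast]
  rw [e1]
  have h1 : ((1 / 2 : ℝ) ^ α) ^ h ≤ ((1 / 2 : ℝ) ^ α) ^ h₀ :=
    pow_le_pow_of_le_one hb0.le hb1.le hh
  rw [lt_div_iff₀ (by positivity)] at hh₀
  have h2 : (0 : ℝ) < ((1 / 2 : ℝ) ^ α) ^ h := pow_pos hb0 h
  have h3 := le_abs_self C
  nlinarith [abs_nonneg C]

/-- **Rare transition events with a free scale.** -/
theorem smY_of_h {G : ℕ → ℕ → ℕ} {Bd Y : EvF} {Zh Oh : ℕ → EvF} (hZ : ∀ h, SmZ G (Zh h))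
    {C α : ℝ} (hα : 0 < α)
    (hO : ∀ h m e : ℕ, ∃ L : ℕ, ∀ d : ℕ → ℕ, d (m + 1) = e → L ≤ d m → GroF G (m + 1) d →
      ∀ᶠ n in atTop, pr (Sn n) (Oh h d n m) ≤ C * (m + 1) * (1 / 2 : ℝ) ^ (α * h))
    (hs : ∀ m e : ℕ, ∃ h₀ : ℕ, ∀ h, h₀ ≤ h → ∃ L : ℕ, ∀ d : ℕ → ℕ, d (m + 1) = e → L ≤ d m →
      GroF G (m + 1) d → ∀ᶠ n in atTop, ∀ ω, ω ∈ Y d n m → (∀ i ≤ m, ω ∉ Bd d n i) →
        ω ∈ Zh h d n m ∨ ω ∈ Oh h d n m) : SmY G Bd Y := by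
  intro m e η hη
  obtain ⟨h₁, hh₁⟩ := exists_h (C := C * (m + 1)) hα (show (0 : ℝ) < η / 2 by positivity)
  obtain ⟨h₀, hh₀⟩ := hs m e
  obtain ⟨L₁, hL₁⟩ := hh₀ (max h₀ h₁) (le_max_left _ _)
  obtain ⟨L₂, hL₂⟩ := hZ (max h₀ h₁) m e (η / 2) (by positivity)
  obtain ⟨L₃, hL₃⟩ := hO (max h₀ h₁) m e
  refine ⟨max L₁ (max L₂ L₃), fun d hd hL hG => ?_⟩
  filter_upwards [hL₁ d hd (by omega) hG, hL₂ d hd (by omega) hG, hL₃ d hd (by omega) hG]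
    with n h1 h2 h3
  have h4 : Y d n m ∩ {ω | ∀ i ≤ m, ω ∉ Bd d n i} ⊆
      Zh (max h₀ h₁) d n m ∪ Oh (max h₀ h₁) d n m := by
    rintro ω ⟨h5, h6⟩
    exact h1 ω h5 h6
  have h5 := hh₁ (max h₀ h₁) (le_max_right _ _)
  refine ((pr_mono _ h4).trans (pr_union_le _ _ _)).trans ?_
  linarith

/-- **Rare static events with a free scale.** -/
theorem smZ_of_h {G : ℕ → ℕ → ℕ} {Y : EvF} {Zh Oh : ℕ → EvF} (hZ : ∀ h, SmZ G (Zh h))
    {C α : ℝ} (hα : 0 < α)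
    (hO : ∀ h m e : ℕ, ∃ L : ℕ, ∀ d : ℕ → ℕ, d (m + 1) = e → L ≤ d m → GroF G (m + 1) d →
      ∀ᶠ n in atTop, pr (Sn n) (Oh h d n m) ≤ C * (m + 1) * (1 / 2 : ℝ) ^ (α * h))
    (hs : ∀ m e : ℕ, ∃ h₀ : ℕ, ∀ h, h₀ ≤ h → ∃ L : ℕ, ∀ d : ℕ → ℕ, d (m + 1) = e → L ≤ d m →
      GroF G (m + 1) d → ∀ᶠ n in atTop, ∀ ω, ω ∈ Y d n m →
        ω ∈ Zh h d n m ∨ ω ∈ Oh h d n m) : SmZ G Y := by
  have h1 := smY_of_h (G := G) (Bd := fun _ _ _ => ∅) (Y := Y) hZ hα hO fun m e => by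
    obtain ⟨h₀, h⟩ := hs m e
    refine ⟨h₀, fun k hk => ?_⟩
    obtain ⟨L, hL⟩ := h k hk
    refine ⟨L, fun d h2 h3 h4 => ?_⟩
    filter_upwards [hL d h2 h3 h4] with n hn ω h5 _
    exact hn ω h5
  intro m e η hη
  obtain ⟨L, hL⟩ := h1 m e η hη
  refine ⟨L, fun d h2 h3 h4 => ?_⟩
  filter_upwards [hL d h2 h3 h4] with n hn
  refine (pr_mono _ ?_).trans hn
  exact fun ω hω => ⟨hω, fun i _ h => h⟩

end Pool.Agent.SixB.TruY
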