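import Pool.Agent.Lib.SixB.S8RareW
import Pool.Agent.Lib.SixB.S8RareG2
import Pool.Agent.Lib.SixB.S8RareY
import Pool.Agent.Lib.SixB.S8RareK
import Pool.Agent.Lib.SixB.S8DeepK

/-!
# Step 8: the radii of the kept faces

For the stage `m` with `e = d (m + 1)` and a free `h`:

* `gW d n m - 1` is the radius of the anchors; `kt = ls (e + 4 h)` the radius at the tip and at the base;
  `ka = ls (e + 3 h)`, `kA = ls (e + 2 h + 2)` and `kb = ls (e + 2 h)`, `kB = ls (e + h)` the two pairs of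
  radii of the passages; `kR = 3 kB` the depth;
* `KNum b c₀ c₁ M d n m h`: the inequalities; `kNum`: they hold if `h` is large for `M`, `d m` is large for
  `h`, `m`, `e` and `n` is large;
* `smY_kept`: a transition event which is, without bad events, contained for all such `h` in the event
  `ZGh` of the gates or in the events `OWa` of the passages is rare;
* `gate_all`: outside of `ZGh` the gates at all times are near the tip or near the base.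
-/

set_option autoImplicit false

namespace Pool.Agent.SixB.TruY

open Filter Finset Topology Pool.Agent.Perc Pool.Agent.PercT Pool.Agent.PercX60 Pool.Agent.PercD
open Pool.Agent.SixB Pool.Agent.SixB.Rule Pool.Agent.SixB.Dct Pool.Agent.SixB.Mv
open Pool.Agent.SixB.Tru Pool.Agent.SixB.NearCut
open Pool.Agent.SixB.Near (Bx)
open Pool.Agent.SixB.TruW (OWa OWh bas owh_small)
open Pool.Agent.SixB.TruG (ZGh smZ_ZGh)
open Pool.Agent.SixB.Par (Nb2)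

/-! ### The radii -/

section Radii

variable (d : ℕ → ℕ) (n m h : ℕ)

/-- The radius at the tip and at the base. -/
def kt : ℤ := Sc.ls d n (d (m + 1) + 4 * h)

/-- The inner radius of the inner pair. -/
def ka : ℤ := 1 * Sc.ls d n (d (m + 1) + (2 * h + 2) + (h - 2))

/-- The outer radius of the inner pair. -/
def kA : ℤ := Sc.ls d n (d (m + 1) + (2 * h + 2))

/-- The inner radius of the outer pair. -/
def kb : ℤ := 1 * Sc.ls d n (d (m + 1) + h + h)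

/-- The outer radius of the outer pair. -/
def kB : ℤ := Sc.ls d n (d (m + 1) + h)

/-- The depth. -/
def kR : ℤ := 3 * kB d n m h

end Radii

/-- **The inequalities of the radii.** -/
structure KNum (b c₀ c₁ : ℤ) (M : ℕ) (d : ℕ → ℕ) (n m h : ℕ) : Prop where
  u : 0 < unt d n
  anc : b * Sc.ls d n (d m) ≤ gW d n m - 1
  r0 : 0 ≤ gW d n m - 1
  gt : gW d n m ≤ kt d n m h
  ha : kt d n m h + gW d n m + 1 ≤ ka d n m h
  aA : ka d n m h ≤ kA d n m h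
  hb : kA d n m h + 3 * kt d n m h + gW d n m + 1 ≤ kb d n m h
  bB : kb d n m h ≤ kB d n m h
  tR : 2 * kt d n m h + 5 ≤ kR d n m h
  BR : kB d n m h + kt d n m h + gW d n m + b + 16 ≤ kR d n m h
  fin : kR d n m h + M * (kR d n m h + 2) ≤ Sc.ls d n (d (m + 1))
  zt : Sc.ls d n (d (m + 1) + (4 * h + 1)) + 4 ≤ kt d n m h
  g0 : 5 * (c₁ * gW d n m) + 2 * (c₀ * Sc.ls d n (d m)) + 8 * unt d n + 16 ≤
    Sc.ls d n (d (m + 1) + (4 * h + 1))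

/-- The inequalities, reduced to powers of two: `D` the smallest length, `x = 2 ^ k`, `p = 2 ^ (k + 2)`. -/
theorem kNum_aux {w X D b c₀ c₁ U u p q r s : ℤ} {M : ℕ} (hc₀ : 0 ≤ c₀) (hc₁ : 1 ≤ c₁)
    (hX : 40 ≤ X) (_hD : 40 ≤ D) (hw : w = 8 * X) (hUX : U ≤ X) (huX : u ≤ X) (hbU : b * U + 1 ≤ X)
    (hbX : b ≤ X) (hXD : (40 * c₁ + 2 * c₀ + 40) * X ≤ D) (hp : 4 ≤ p) (hq : p ≤ q) (hr : r = 4 * q)
    (hs : r ≤ s) (hM : 4 * ((M : ℤ) + 1) ≤ p) :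
    b * U ≤ w - 1 ∧ 0 ≤ w - 1 ∧ w ≤ 2 * D ∧ 2 * D + w + 1 ≤ 2 * D * p ∧ 2 * D * p ≤ 2 * D * q ∧
      2 * D * q + 3 * (2 * D) + w + 1 ≤ 2 * D * r ∧ 2 * D * r ≤ 2 * D * s ∧
      2 * (2 * D) + 5 ≤ 3 * (2 * D * s) ∧ 2 * D * s + 2 * D + w + b + 16 ≤ 3 * (2 * D * s) ∧
      3 * (2 * D * s) + M * (3 * (2 * D * s) + 2) ≤ 2 * D * s * p ∧ D + 4 ≤ 2 * D ∧
      5 * (c₁ * w) + 2 * (c₀ * U) + 8 * u + 16 ≤ D := by
  have a1 : 40 * c₁ * X + 2 * c₀ * X + 40 * X ≤ D := by linarith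
  have a2 : X ≤ c₁ * X := le_mul_of_one_le_left (by linarith) hc₁
  have a3 : 0 ≤ c₀ * X := mul_nonneg hc₀ (by linarith)
  have a4 : c₀ * U ≤ c₀ * X := mul_le_mul_of_nonneg_left hUX hc₀
  have hD2 : (0 : ℤ) ≤ 2 * D := by linarith
  have m1 : 2 * D * 4 ≤ 2 * D * p := mul_le_mul_of_nonneg_left hp hD2
  have m2 : 2 * D * p ≤ 2 * D * q := mul_le_mul_of_nonneg_left hq hD2
  have m3 : 2 * D * r = 4 * (2 * D * q) := by rw [hr]; ring
  have m4 : 2 * D * r ≤ 2 * D * s := mul_le_mul_of_nonneg_left hs hD2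
  have a5 : 80 * X ≤ D := by linarith
  have m5 : 4 * ((M : ℤ) + 1) * (2 * D * s) ≤ p * (2 * D * s) :=
    mul_le_mul_of_nonneg_right hM (by linarith)
  have hM0 : (0 : ℤ) ≤ M := Int.natCast_nonneg M
  have m6 : (M : ℤ) * 2 ≤ M * (2 * D * s) := mul_le_mul_of_nonneg_left (by linarith) hM0
  refine ⟨by linarith, by linarith, by linarith, by linarith, m2, by linarith, m4, by linarith,
    by linarith, ?_, by linarith, ?_⟩
  · calc 3 * (2 * D * s) + M * (3 * (2 * D * s) + 2)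
        = 3 * (2 * D * s) + 3 * (M * (2 * D * s)) + M * 2 := by ring
      _ ≤ 4 * (2 * D * s) + 4 * (M * (2 * D * s)) := by linarith
      _ = 4 * ((M : ℤ) + 1) * (2 * D * s) := by ring
      _ ≤ p * (2 * D * s) := m5
      _ = 2 * D * s * p := by ring
  · calc 5 * (c₁ * w) + 2 * (c₀ * U) + 8 * u + 16
        = 40 * c₁ * X + 2 * (c₀ * U) + 8 * u + 16 := by rw [hw]; ring
      _ ≤ 40 * c₁ * X + 2 * (c₀ * X) + 40 * X := by linarith
      _ = 40 * c₁ * X + 2 * c₀ * X + 40 * X := by ring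
      _ ≤ D := a1

/-- **The inequalities hold.** -/
theorem kNum {c₀ c₁ : ℤ} (hc₀ : 0 ≤ c₀) (hc₁ : 1 ≤ c₁) (M : ℕ) (B : ℕ → ℤ) :
    ∃ h₀ : ℕ, 2 ≤ h₀ ∧ ∀ h, h₀ ≤ h → ∀ m e : ℕ, ∃ L : ℕ, ∀ d : ℕ → ℕ, d (m + 1) = e → L ≤ d m →
      d m ≤ d 0 → ∀ᶠ n in atTop, KNum (B m) c₀ c₁ M d n m h := by
  obtain ⟨h₁, hh₁⟩ := pow_unbounded_of_one_lt (4 * ((M : ℤ) + 1)) (show (1 : ℤ) < 2 by norm_num)
  refine ⟨max h₁ 2, le_max_right _ _, fun h hh m e => ?_⟩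
  obtain ⟨J, hJ⟩ := pow_unbounded_of_one_lt (40 * c₁ + 2 * c₀ + 40 + |B m| + 1)
    (show (1 : ℤ) < 2 by norm_num)
  refine ⟨e + 3 * (4 * h + 1 + J + 1), fun d hd hL hd0 => ?_⟩
  filter_upwards [Sc.eventually_unit d 40, eventually_ge_atTop (2 ^ d 0)] with n hn hn2
  have hh2 : 2 ≤ h := (le_max_right _ _).trans hh
  obtain ⟨k, rfl⟩ : ∃ k, h = k + 2 := ⟨h - 2, by omega⟩
  obtain ⟨s1, s2, s3⟩ := Sc.eS_eR (a := d m) (b := e) (j := 4 * (k + 2) + 1 + J) hL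
  have hu : 0 < unt d n := Nat.div_pos hn2 (by positivity)
  have hU0 : 40 ≤ Sc.ls d n (d m) := hn _
  have hX0 : 40 ≤ Sc.ls d n (Sc.eR (d m) e) := hn _
  have hD0 : 40 ≤ Sc.ls d n (e + (4 * (k + 2) + 1)) := hn _
  have hUX : Sc.ls d n (d m) * 2 ^ J ≤ Sc.ls d n (Sc.eR (d m) e) := Sc.ls_quot n (by omega) hd0
  have hXD : Sc.ls d n (Sc.eR (d m) e) * 2 ^ J ≤ Sc.ls d n (e + (4 * (k + 2) + 1)) :=
    Sc.ls_quot n (by omega) (by omega)
  have hux : (unt d n : ℤ) ≤ Sc.ls d n (Sc.eR (d m) e) := Sc.unit_le_ls n _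
  have hUX' : Sc.ls d n (d m) ≤ Sc.ls d n (Sc.eR (d m) e) := Sc.ls_anti n (by omega)
  have hgW : gW d n m = 8 * Sc.ls d n (Sc.eR (d m) e) := by
    unfold gW
    rw [hd]
  have hmul : ∀ a, a ≤ e + (4 * (k + 2) + 1) → Sc.ls d n a =
      Sc.ls d n (e + (4 * (k + 2) + 1)) * 2 ^ (e + (4 * (k + 2) + 1) - a) := fun a ha =>
    Sc.ls_mul n ha (by omega)
  have e1 : kt d n m (k + 2) = 2 * Sc.ls d n (e + (4 * (k + 2) + 1)) := by
    unfold kt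
    rw [hd, hmul _ (by omega), show e + (4 * (k + 2) + 1) - (e + 4 * (k + 2)) = 1 by omega, pow_one,
      mul_comm]
  have e2 : ka d n m (k + 2) = 2 * Sc.ls d n (e + (4 * (k + 2) + 1)) * 2 ^ (k + 2) := by
    unfold ka
    rw [hd, one_mul, hmul _ (by omega),
      show e + (4 * (k + 2) + 1) - (e + (2 * (k + 2) + 2) + (k + 2 - 2)) = (k + 2) + 1 by omega,
      pow_succ]
    ring
  have e3 : kA d n m (k + 2) = 2 * Sc.ls d n (e + (4 * (k + 2) + 1)) * 2 ^ (2 * k + 2) := by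
    unfold kA
    rw [hd, hmul _ (by omega),
      show e + (4 * (k + 2) + 1) - (e + (2 * (k + 2) + 2)) = (2 * k + 2) + 1 by omega, pow_succ]
    ring
  have e4 : kb d n m (k + 2) = 2 * Sc.ls d n (e + (4 * (k + 2) + 1)) * 2 ^ (2 * k + 4) := by
    unfold kb
    rw [hd, one_mul, hmul _ (by omega),
      show e + (4 * (k + 2) + 1) - (e + (k + 2) + (k + 2)) = (2 * k + 4) + 1 by omega, pow_succ]
    ring
  have e5 : kB d n m (k + 2) = 2 * Sc.ls d n (e + (4 * (k + 2) + 1)) * 2 ^ (3 * k + 6) := by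
    unfold kB
    rw [hd, hmul _ (by omega),
      show e + (4 * (k + 2) + 1) - (e + (k + 2)) = (3 * k + 6) + 1 by omega, pow_succ]
    ring
  have e6 : Sc.ls d n (d (m + 1)) =
      2 * Sc.ls d n (e + (4 * (k + 2) + 1)) * 2 ^ (3 * k + 6) * 2 ^ (k + 2) := by
    rw [hd, hmul _ (by omega), show e + (4 * (k + 2) + 1) - e = (3 * k + 6) + (k + 2) + 1 by omega,
      pow_succ, pow_add]
    ring
  have hp : ∀ j, (1 : ℤ) ≤ 2 ^ j := fun j => one_le_pow₀ (by norm_num)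
  have p1 : (4 : ℤ) ≤ 2 ^ (k + 2) := by
    have h1 : (2 : ℤ) ^ (k + 2) = 2 ^ k * 4 := by rw [pow_add]; norm_num
    have := hp k
    linarith
  have p3 : (2 : ℤ) ^ (2 * k + 4) = 4 * 2 ^ (2 * k + 2) := by
    rw [show 2 * k + 4 = (2 * k + 2) + 2 by omega, pow_add _ (2 * k + 2) 2]; ring
  have q1 : (2 : ℤ) ^ (k + 2) ≤ 2 ^ (2 * k + 2) := pow_le_pow_right₀ (by norm_num) (by omega)
  have q2 : (2 : ℤ) ^ (2 * k + 4) ≤ 2 ^ (3 * k + 6) := pow_le_pow_right₀ (by norm_num) (by omega)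
  have hM : 4 * ((M : ℤ) + 1) ≤ 2 ^ (k + 2) :=
    hh₁.le.trans (pow_le_pow_right₀ (by norm_num) ((le_max_left _ _).trans hh))
  have b0 : 0 ≤ |B m| := abs_nonneg _
  have bJ : |B m| + 1 ≤ 2 ^ J := by linarith
  have bJ' : 40 * c₁ + 2 * c₀ + 40 ≤ 2 ^ J := by linarith
  have b1 : (|B m| + 1) * Sc.ls d n (d m) ≤ 2 ^ J * Sc.ls d n (d m) :=
    mul_le_mul_of_nonneg_right bJ (by linarith)
  have b2 : (40 * c₁ + 2 * c₀ + 40) * Sc.ls d n (Sc.eR (d m) e) ≤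
      2 ^ J * Sc.ls d n (Sc.eR (d m) e) := mul_le_mul_of_nonneg_right bJ' (by linarith)
  have b3 : B m * Sc.ls d n (d m) ≤ |B m| * Sc.ls d n (d m) :=
    mul_le_mul_of_nonneg_right (le_abs_self _) (by linarith)
  have b4 : |B m| * 1 ≤ |B m| * Sc.ls d n (d m) :=
    mul_le_mul_of_nonneg_left (by linarith) b0
  have b5 := le_abs_self (B m)
  obtain ⟨z1, z2, z3, z4, z5, z6, z7, z8, z9, z10, z11, z12⟩ := kNum_aux (w := gW d n m)
    (b := B m) (u := unt d n) hc₀ hc₁ hX0 hD0 hgW hUX' hux (by linarith) (by linarith)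
    (by linarith) p1 q1 p3 q2 hM
  refine ⟨hu, z1, z2, ?_, ?_, ?_, ?_, ?_, ?_, ?_, ?_, ?_, ?_⟩
  · rw [e1]; exact z3
  · rw [e1, e2]; exact z4
  · rw [e2, e3]; exact z5
  · rw [e1, e3, e4]; exact z6
  · rw [e4, e5]; exact z7
  · unfold kR; rw [e1, e5]; exact z8
  · unfold kR; rw [e1, e5]; exact z9
  · unfold kR; rw [e6, e5]; exact z10
  · rw [e1, hd]; exact z11
  · rw [hd]; exact z12

/-! ### The event is rare -/

/-- The passages of the inner pair. -/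
theorem owh_a (𝔇 : Dat) (d : ℕ → ℕ) (n m h : ℕ) :
    OWh 𝔇 bas 1 (2 * h + 2) (h - 2) d n m = OWa 𝔇 bas d n m (ka d n m h) (kA d n m h) := rfl

/-- The passages of the outer pair. -/
theorem owh_b (𝔇 : Dat) (d : ℕ → ℕ) (n m h : ℕ) :
    OWh 𝔇 bas 1 h h d n m = OWa 𝔇 bas d n m (kb d n m h) (kB d n m h) := rfl

/-- **The failure of the kept faces is rare.** -/
theorem smY_kept {𝔇 : Dat} {G : ℕ → ℕ → ℕ} {Bd Y : EvF} {N₁ : (ℕ → ℕ) → ℕ} {c₀ c₁ : ℤ}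
    (hG : ∀ i e, e ≤ G i e) (hc₀ : 0 ≤ c₀) (hc₁ : 1 ≤ c₁) (M N₀ : ℕ) (B : ℕ → ℤ)
    (hs : ∀ (d : ℕ → ℕ) (n m h : ℕ), NumC G N₁ d n m → KNum (B m) c₀ c₁ M d n m h → ∀ ω,
      (∀ i ≤ m, ω ∉ Bd d n i) → ω ∉ ZGh 𝔇 c₀ c₁ N₀ (4 * h + 1) d n m →
      ω ∉ OWa 𝔇 bas d n m (ka d n m h) (kA d n m h) →
      ω ∉ OWa 𝔇 bas d n m (kb d n m h) (kB d n m h) → ω ∉ Y d n m) : SmY G Bd Y := by
  intro m e η hη
  obtain ⟨h₀, h2, hk⟩ := kNum hc₀ hc₁ M B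
  obtain ⟨h₁, hh₁⟩ := owh_small m (c := 1) one_pos (show (0 : ℝ) < η / 4 by positivity)
  obtain ⟨h, a1, a2, a3⟩ : ∃ h, h₀ ≤ h ∧ h₁ ≤ h ∧ h₁ ≤ h - 2 :=
    ⟨h₀ + h₁ + 2, by omega, by omega, by omega⟩
  obtain ⟨L₁, hL₁⟩ := hk h a1 m e
  obtain ⟨L₂, hL₂⟩ := smZ_ZGh 𝔇 (c₁ := c₁) hG hc₀ (by omega) N₀ (4 * h + 1) m e (η / 4)
    (by positivity)
  refine ⟨max (max L₁ L₂) (e + 4 * h), fun d hd hL hg => ?_⟩
  have hd0 : d m ≤ d 0 := le_of_groF hG hg (Nat.zero_le _) (by omega)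
  filter_upwards [hL₁ d hd (by omega) hd0, hL₂ d hd (by omega) hg,
    eventually_ge_atTop (2 ^ d 0), eventually_ge_atTop (N₁ d)] with n b1 b2 b3 b4
  have c1 := hh₁ (h - 2) a3 𝔇 bas (2 * h + 2) d n (by omega) b3
  have c2 := hh₁ h a2 𝔇 bas h d n (by omega) b3
  rw [owh_a] at c1
  rw [owh_b] at c2
  have hsub : Y d n m ∩ {ω | ∀ i ≤ m, ω ∉ Bd d n i} ⊆ ZGh 𝔇 c₀ c₁ N₀ (4 * h + 1) d n m ∪
      (OWa 𝔇 bas d n m (ka d n m h) (kA d n m h) ∪ OWa 𝔇 bas d n m (kb d n m h) (kB d n m h)) := by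
    rintro ω ⟨hY, hB⟩
    by_contra hno
    rw [Set.mem_union, Set.mem_union, not_or, not_or] at hno
    exact hs d n m h ⟨hg, b4⟩ b1 ω hB hno.1 hno.2.1 hno.2.2 hY
  have k1 := pr_union_le (Sn n) (ZGh 𝔇 c₀ c₁ N₀ (4 * h + 1) d n m)
    (OWa 𝔇 bas d n m (ka d n m h) (kA d n m h) ∪ OWa 𝔇 bas d n m (kb d n m h) (kB d n m h))
  have k2 := pr_union_le (Sn n) (OWa 𝔇 bas d n m (ka d n m h) (kA d n m h))
    (OWa 𝔇 bas d n m (kb d n m h) (kB d n m h))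
  refine (pr_mono _ hsub).trans ?_
  linarith

end Pool.Agent.SixB.TruY
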