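import Pool.Agent.Lib.SixB.S8KeptY
import Pool.Agent.Lib.SixB.S8AncF

/-!
# Step 8: the disc of a new needle is fresh

* `lefIn`: the anchors of the part which is stored by a move;
* `smY_yk`: **the event `YK` is rare**.
-/

set_option autoImplicit false

namespace Pool.Agent.SixB.Tru

open Filter Finset Topology Pool.Agent.Perc Pool.Agent.PercT Pool.Agent.PercX60 Pool.Agent.PercD
open Pool.Agent.SixB Pool.Agent.SixB.Rule Pool.Agent.SixB.Dct Pool.Agent.SixB.Mv

variable {K kap a : ℕ} {C : ℤ} {G : ℕ → ℕ → ℕ}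

/-- **The anchors of the part which is stored by a move**, official data. -/
theorem lefIn (hC : 256 ≤ C) (ha : 16 * (9 * C + 6) ≤ 2 ^ a) (hG : ∀ i e, e + a ≤ G i e) :
    LefIn K kap C G 7 := by
  intro d n m k ω q D H hk hq hD hi
  have hR : NumR a d n m := H.num.numR hG fun d => Nat.le_mul_of_pos_right _ (by positivity)
  have hN : NumO d n (k + 1) (rad C (unt d n) d (k + 1)) :=
    (hR.le hk.le).numO (by omega) ha le_rfl
  have hlen : (tst (Cov.datC K kap) d n ω k).x.length = k + 1 := tst_len _ d n ω k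
  have h1 := InvV.lefK (i := k) (H.inv hk.le).1 (by rw [hlen]; exact hN) (H.dead k hk.le) hq hD hi
  refine h1.mono ?_
  rw [hlen]
  have h2 : (0 : ℤ) ≤ rad C (unt d n) d (k + 1) := by
    have h3 := unt_le_rad (d := d) (n := n) (C := C) (by omega) (k + 1)
    omega
  linarith

/-- **The disc of a new needle is fresh outside of a rare event.** -/
theorem smY_yk (hC : 256 ≤ C) (hK : 0 < K) (ha : 16 * (9 * C + 6) ≤ 2 ^ a)
    (haK : 512 * K ≤ 2 ^ a) (ha45 : 45 ≤ a) (hG : ∀ i e, e + a ≤ G i e) :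
    ∃ G₀ : ℕ → ℕ → ℕ, (∀ i e, G i e ≤ G₀ i e) ∧ ∀ G' : ℕ → ℕ → ℕ, (∀ i e, G₀ i e ≤ G' i e) →
      SmY G' (BdI (IC K kap C) (Cov.datC K kap)) (YK (Cov.datC K kap)) :=
  smY_YK hC hK ha haK ha45 hG (by norm_num) (lefIn hC ha hG)

end Pool.Agent.SixB.Tru
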