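import Pool.Agent.Lib.SixB.S8KeptG
import Pool.Agent.Lib.SixB.S8KeptW
import Pool.Agent.Lib.SixB.S8KeptO

/-!
# Step 8: the events of one step from the rare events

`OutK 𝔇 c₀ K b M d n m h ω`: the configuration `ω` is outside of the events of the gates and of the
passages of the stage `m`, with the numbers `KNum` and the property `HkI` at the stages `≤ m`.

* `OutK.gate`: the gates at all times of all strands of the stages `≤ m`;
* `OutK.oneWall_zero`, `OutK.oneWall_t`, `OutK.oneWall_mv`: no passages with walls of one colour, both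
  pairs of radii;
* `OutK.evT_zero`, `OutK.evT_t`, `OutK.evT_mv`: the structure `EvT`;
* `OutK.evO`, `OutK.evO_ts`: the structure `EvO`, for a running needle and for the needle placed in the
  stage `i`.
-/

set_option autoImplicit false

namespace Pool.Agent.SixB.TruY

open Finset Pool.Agent.Perc Pool.Agent.PercT Pool.Agent.PercX60 Pool.Agent.PercU
open Pool.Agent.SixB Pool.Agent.SixB.Rule Pool.Agent.SixB.Dct Pool.Agent.SixB.Mv
open Pool.Agent.SixB.Tru Pool.Agent.SixB.NearCut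
open Pool.Agent.SixB.TruG (ZGh)
open Pool.Agent.SixB.TruW (OWa bas)
open Pool.Agent.SixB.Par (Nb2)

/-- **Outside of the rare events of the stage `m`.** -/
structure OutK (𝔇 : Dat) (c₀ c₁ : ℤ) (K : ℕ) (b : ℤ) (M : ℕ) (d : ℕ → ℕ) (n m h : ℕ) (ω : Cfg) :
    Prop where
  num : KNum b c₀ c₁ M d n m h
  anti : ∀ j k, j ≤ k → k ≤ m → d k ≤ d j
  c0 : 0 ≤ c₀
  c1 : 1 ≤ c₁
  hk : ∀ j ≤ m, HkI c₀ K d n j (tst 𝔇 d n ω j) ω
  gate' : ω ∉ ZGh 𝔇 c₀ c₁ 2 (4 * h + 1) d n m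
  pa : ω ∉ OWa 𝔇 bas d n m (ka d n m h) (kA d n m h)
  pb : ω ∉ OWa 𝔇 bas d n m (kb d n m h) (kB d n m h)

section

variable {𝔇 : Dat} {d : ℕ → ℕ} {n m h M i t K s : ℕ} {ω : Cfg} {q : Rule.Ndl} {b c₀ c₁ c r' : ℤ}
  {v : ℤ × ℤ} {D : Dom}

/-- The gates at all times. -/
theorem OutK.gate (H : OutK 𝔇 c₀ c₁ K b M d n m h ω) (hi : i ≤ m)
    (hq : (tst 𝔇 d n ω i).q = some q)
    (hNb : Nb (cfS (tst 𝔇 d n ω i).V q ω) (Tru.eS (tst 𝔇 d n ω i).V q) t)
    (hr' : r' ≤ c₁ * gW d n m) (hg : (exS (tst 𝔇 d n ω i).V q).Gate ω t v r') :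
    Nb2 (ua (pS (tst 𝔇 d n ω i).V q ω t)) v (kt d n m h) ∨
      Nb2 (ua (Tru.eS (tst 𝔇 d n ω i).V q)) v (kt d n m h) :=
  gate_all H.num H.anti H.c0 H.hk H.gate' hi hq hNb hr' hg

/-- No passages after the time `0`. -/
theorem OutK.oneWall_zero (H : OutK 𝔇 c₀ c₁ K b M d n m h ω) (hi : i ≤ m)
    (hq : (tst 𝔇 d n ω i).q = some q) (hc : c = 0 ∨ c = 1) :
    ¬ (exS (tst 𝔇 d n ω i).V q).OneWall c ω 0 (ua (Tru.eS (tst 𝔇 d n ω i).V q))
        (ka d n m h) (kA d n m h) ∧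
      ¬ (exS (tst 𝔇 d n ω i).V q).OneWall c ω 0 (ua (Tru.eS (tst 𝔇 d n ω i).V q))
        (kb d n m h) (kB d n m h) :=
  ⟨fun h1 => H.pa (TruW.OWa.mem_zero hi hc hq h1), fun h1 => H.pb (TruW.OWa.mem_zero hi hc hq h1)⟩

/-- No passages after the time of the state. -/
theorem OutK.oneWall_t (H : OutK 𝔇 c₀ c₁ K b M d n m h ω) (hi : i ≤ m)
    (hq : (tst 𝔇 d n ω i).q = some q) (hc : c = 0 ∨ c = 1) :
    ¬ (exS (tst 𝔇 d n ω i).V q).OneWall c ω (tst 𝔇 d n ω i).t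
        (ua (Tru.eS (tst 𝔇 d n ω i).V q)) (ka d n m h) (kA d n m h) ∧
      ¬ (exS (tst 𝔇 d n ω i).V q).OneWall c ω (tst 𝔇 d n ω i).t
        (ua (Tru.eS (tst 𝔇 d n ω i).V q)) (kb d n m h) (kB d n m h) :=
  ⟨fun h1 => H.pa (TruW.OWa.mem (b := bas) hi hc hq h1),
    fun h1 => H.pb (TruW.OWa.mem (b := bas) hi hc hq h1)⟩

/-- No passages after the time of the next stop. -/
theorem OutK.oneWall_mv (H : OutK 𝔇 c₀ c₁ K b M d n m h ω) (hi : i ≤ m)
    (hq : (tst 𝔇 d n ω i).q = some q) (hD : (𝔇.cs d (tst 𝔇 d n ω i).x).run = some D)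
    (hini : (𝔇.cs d (tst 𝔇 d n ω i).x).ini = false) (hc : c = 0 ∨ c = 1) :
    ¬ (exS (tst 𝔇 d n ω i).V q).OneWall c ω (mvT 𝔇 d n (tst 𝔇 d n ω i) q D false ω)
        (ua (Tru.eS (tst 𝔇 d n ω i).V q)) (ka d n m h) (kA d n m h) ∧
      ¬ (exS (tst 𝔇 d n ω i).V q).OneWall c ω (mvT 𝔇 d n (tst 𝔇 d n ω i) q D false ω)
        (ua (Tru.eS (tst 𝔇 d n ω i).V q)) (kb d n m h) (kB d n m h) := by
  refine ⟨fun h1 => H.pa ?_, fun h1 => H.pb ?_⟩
  · refine TruW.OWa.mem_mv (b := bas) hi hc hq hD ?_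
    rw [hini]
    exact h1
  · refine TruW.OWa.mem_mv (b := bas) hi hc hq hD ?_
    rw [hini]
    exact h1

/-- The structure of the events from the walls at the time `s`. -/
theorem OutK.evT (H : OutK 𝔇 c₀ c₁ K b M d n m h ω) (hi : i ≤ m)
    (hq : (tst 𝔇 d n ω i).q = some q)
    (ha : ¬ (exS (tst 𝔇 d n ω i).V q).OneWall 0 ω s (ua (Tru.eS (tst 𝔇 d n ω i).V q))
      (ka d n m h) (kA d n m h))
    (hb : ¬ (exS (tst 𝔇 d n ω i).V q).OneWall 0 ω s (ua (Tru.eS (tst 𝔇 d n ω i).V q))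
      (kb d n m h) (kB d n m h)) :
    EvT (tst 𝔇 d n ω i).V q ω (ua (Tru.eS (tst 𝔇 d n ω i).V q)) s (gW d n m - 1) (kt d n m h)
      (kt d n m h) (ka d n m h) (kA d n m h) (kb d n m h) (kB d n m h) where
  gate := fun l _ hl v hg => by
    refine H.gate hi hq hl ?_ hg
    have h1 := H.num.r0
    have h2 := H.c1
    nlinarith
  oa := ha
  ob := hb
  r0 := H.num.r0
  rr := by have := H.num.gt; omega
  ha := by have := H.num.ha; omega
  haa := H.num.aA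
  hb := by have := H.num.hb; omega
  hbb := H.num.bB

/-- **From the time `0` on.** -/
theorem OutK.evT_zero (H : OutK 𝔇 c₀ c₁ K b M d n m h ω) (hi : i ≤ m)
    (hq : (tst 𝔇 d n ω i).q = some q) :
    EvT (tst 𝔇 d n ω i).V q ω (ua (Tru.eS (tst 𝔇 d n ω i).V q)) 0 (gW d n m - 1) (kt d n m h)
      (kt d n m h) (ka d n m h) (kA d n m h) (kb d n m h) (kB d n m h) :=
  H.evT hi hq (H.oneWall_zero hi hq (Or.inl rfl)).1 (H.oneWall_zero hi hq (Or.inl rfl)).2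

/-- **From the time of the state on.** -/
theorem OutK.evT_t (H : OutK 𝔇 c₀ c₁ K b M d n m h ω) (hi : i ≤ m)
    (hq : (tst 𝔇 d n ω i).q = some q) :
    EvT (tst 𝔇 d n ω i).V q ω (ua (Tru.eS (tst 𝔇 d n ω i).V q)) (tst 𝔇 d n ω i).t (gW d n m - 1)
      (kt d n m h) (kt d n m h) (ka d n m h) (kA d n m h) (kb d n m h) (kB d n m h) :=
  H.evT hi hq (H.oneWall_t hi hq (Or.inl rfl)).1 (H.oneWall_t hi hq (Or.inl rfl)).2

/-- **From the time of the next stop on.** -/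
theorem OutK.evT_mv (H : OutK 𝔇 c₀ c₁ K b M d n m h ω) (hi : i ≤ m)
    (hq : (tst 𝔇 d n ω i).q = some q) (hD : (𝔇.cs d (tst 𝔇 d n ω i).x).run = some D)
    (hini : (𝔇.cs d (tst 𝔇 d n ω i).x).ini = false) :
    EvT (tst 𝔇 d n ω i).V q ω (ua (Tru.eS (tst 𝔇 d n ω i).V q))
      (mvT 𝔇 d n (tst 𝔇 d n ω i) q D false ω) (gW d n m - 1) (kt d n m h) (kt d n m h)
      (ka d n m h) (kA d n m h) (kb d n m h) (kB d n m h) :=
  H.evT hi hq (H.oneWall_mv hi hq hD hini (Or.inl rfl)).1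
    (H.oneWall_mv hi hq hD hini (Or.inl rfl)).2

/-- **The events of the strand from the time `0` on.** -/
theorem OutK.evO (H : OutK 𝔇 c₀ c₁ K b M d n m h ω) (hi : i ≤ m)
    (hq : (tst 𝔇 d n ω i).q = some q) :
    EvO (tst 𝔇 d n ω i).V q ω (ua (Tru.eS (tst 𝔇 d n ω i).V q)) (gW d n m - 1) (kt d n m h)
      (kt d n m h) (ka d n m h) (kA d n m h) (kb d n m h) (kB d n m h) :=
  have E := H.evT_zero hi hq
  { gate := fun l hl v hg => E.gate l (Nat.zero_le _) hl v hg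
    oa := E.oa
    ob := E.ob
    rr := E.rr
    ha := E.ha
    ha' := E.haa
    hb := E.hb
    hb' := E.hbb }

/-- A stage without needle does not change the remaining set. -/
theorem tst_V_of_none (hq : (TruR.ts 𝔇 d n ω i).q = none) :
    (tst 𝔇 d n ω i).V = (TruR.ts 𝔇 d n ω i).V := by
  rw [tst_eq_nxS]
  cases hD : (𝔇.cs d (TruR.ts 𝔇 d n ω i).x).run with
  | some D => rw [nxS_skip hq hD]
  | none => rw [nxS_rest hq hD, plS_V]

/-- **The events of the needle which is placed in the stage `i`**, in the form of `old_stg`. -/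
theorem OutK.evO_ts (H : OutK 𝔇 c₀ c₁ K b M d n m h ω) (hi : i ≤ m)
    (hq : (tst 𝔇 d n ω i).q = some q) (hq0 : (TruR.ts 𝔇 d n ω i).q = none) :
    EvO (TruR.ts 𝔇 d n ω i).V q ω (ua (Tru.eS (TruR.ts 𝔇 d n ω i).V q)) (gW d n m - 1)
      (kt d n m h) (kt d n m h) (ka d n m h) (kA d n m h) (kb d n m h) (kB d n m h) ∧
    Nb2 (ua (Tru.eS (TruR.ts 𝔇 d n ω i).V q)) (ua (Tru.eS (TruR.ts 𝔇 d n ω i).V q)) 0 := by
  have h1 := H.evO hi hq
  rw [tst_V_of_none hq0] at h1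
  exact ⟨h1, by unfold Nb2; simp⟩

end

end Pool.Agent.SixB.TruY
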