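import Pool.Agent.Lib.SixB.S8NearCountA
import Pool.Agent.Lib.SixB.S8NearCount

/-!
# Step 8, near miss: the number of visits and the crossing clusters of the true configuration

`visits_split`: `K` complete visits of the strand to the deep part: `K + 1 ≤ 2 m + k₀ + k₁`, where `m`
bounds the number of the classes of the frozen faces and `CrN ω c F z (ρ + 1) ρ' k_c` for the true
configuration `ω`.
-/

set_option autoImplicit false

namespace Pool.Agent.SixB.Near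

open Finset Pool.Agent.Perc Pool.Agent.PercT Pool.Agent.Perc6 Pool.Agent.SixB Pool.Agent.SixB.NearCut

theorem crN_of_finset {w : Cfg} {c : ℤ} {F : Set (ℤ × ℤ)} {z : ℤ × ℤ} {ρ R : ℤ}
    (S : Finset (ℤ × ℤ)) (h : ∀ v ∈ S, par v = c ∧
      InR (z.1 - ρ) (z.1 + ρ) (z.2 - ρ) (z.2 + ρ) v ∧
      ∃ x, ¬ InR (z.1 - (R - 1)) (z.1 + (R - 1)) (z.2 - (R - 1)) (z.2 + (R - 1)) x ∧
        Conn w (F ∩ Bx z R) v x)
    (h' : ∀ v ∈ S, ∀ v' ∈ S, v ≠ v' → ¬ Conn w (F ∩ Bx z R) v v') : CrN w c F z ρ R S.card := by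
  refine ⟨fun i => (S.equivFin.symm i : ℤ × ℤ), fun i => h _ (S.equivFin.symm i).2, ?_⟩
  intro i j hij
  refine h' _ (S.equivFin.symm i).2 _ (S.equivFin.symm j).2 fun h2 => hij ?_
  exact S.equivFin.symm.injective (Subtype.ext h2)

/-- The faces of a vertex. -/
theorem bx_of_cor {z f p : ℤ × ℤ} {R : ℤ} (h : IsCor f p)
    (hp : InR (z.1 - (R - 1)) (z.1 + (R - 1)) (z.2 - (R - 1)) (z.2 + (R - 1)) p) : f ∈ Bx z R := by
  unfold Bx
  rw [Finset.mem_coe, memRF]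
  unfold IsCor at h
  unfold InR at hp
  omega

theorem inR_of_cor {z f p : ℤ × ℤ} {R : ℤ} (h : IsCor f p) (hf : f ∈ Bx z R) :
    InR (z.1 - R) (z.1 + R) (z.2 - R) (z.2 + R) p := by
  unfold Bx at hf
  rw [Finset.mem_coe, memRF] at hf
  unfold IsCor at h
  unfold InR
  omega

section Split

variable {E : Ex} {ω : Cfg} {z : ℤ × ℤ} {ρ ρ' R : ℤ} {N K m : ℕ} {c : ℤ} {F V : Set (ℤ × ℤ)}
  {u v v' x : ℤ × ℤ}

/-- A corner of a frozen face. -/
def WVt (E : Ex) (ω : Cfg) (p : ℤ × ℤ) : Prop := ∃ f, f ∉ E.U ω ∧ ∃ q, Bond (E.cf ω) {f} p q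

theorem cf_bond {f p q : ℤ × ℤ} (hf : f ∈ E.U ω) : Bond (E.cf ω) {f} p q ↔ Bond ω {f} p q :=
  ⟨fun h => Bond.congr (if_pos hf) h, fun h => Bond.congr (if_pos hf).symm h⟩

/-- A crossing which does not meet the frozen faces is a crossing of the true configuration. -/
theorem real_path (hUF : E.U ω ⊆ F) (h : Conn (E.cf ω) (Bx z R) v u)
    (hv : InR (z.1 - (ρ' - 1)) (z.1 + (ρ' - 1)) (z.2 - (ρ' - 1)) (z.2 + (ρ' - 1)) v)
    (hu : ¬ InR (z.1 - (ρ' - 1)) (z.1 + (ρ' - 1)) (z.2 - (ρ' - 1)) (z.2 + (ρ' - 1)) u)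
    (hw : ∀ x, Conn (E.cf ω) (Bx z R) v x →
      InR (z.1 - ρ') (z.1 + ρ') (z.2 - ρ') (z.2 + ρ') x → ¬ WVt E ω x) :
    ∃ x, ¬ InR (z.1 - (ρ' - 1)) (z.1 + (ρ' - 1)) (z.2 - (ρ' - 1)) (z.2 + (ρ' - 1)) x ∧
      Conn ω (F ∩ Bx z ρ') v x := by
  have key : ∀ p, Conn (E.cf ω) (Bx z R) v p →
      (∃ x, ¬ InR (z.1 - (ρ' - 1)) (z.1 + (ρ' - 1)) (z.2 - (ρ' - 1)) (z.2 + (ρ' - 1)) x ∧
        Conn ω (F ∩ Bx z ρ') v x) ∨
      (InR (z.1 - (ρ' - 1)) (z.1 + (ρ' - 1)) (z.2 - (ρ' - 1)) (z.2 + (ρ' - 1)) p ∧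
        Conn ω (F ∩ Bx z ρ') v p) := by
    intro p hp
    induction hp with
    | refl => exact Or.inr ⟨hv, Relation.ReflTransGen.refl⟩
    | @tail p q hvp hb ih =>
      rcases ih with ih | ⟨ih1, ih2⟩
      · exact Or.inl ih
      · obtain ⟨f, hf, hbf, h1, h2⟩ := hb.exists_face
        have hfR : f ∈ Bx z ρ' := bx_of_cor h1 ih1
        have hfU : f ∈ E.U ω := by
          by_contra hfU
          refine hw p hvp ?_ ⟨f, hfU, q, hbf⟩
          unfold InR at ih1 ⊢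
          omega
        have h3 : Conn ω (F ∩ Bx z ρ') v q :=
          Relation.ReflTransGen.tail ih2 (bond_of_single ⟨hUF hfU, hfR⟩ ((cf_bond hfU).1 hbf))
        by_cases hq : InR (z.1 - (ρ' - 1)) (z.1 + (ρ' - 1)) (z.2 - (ρ' - 1)) (z.2 + (ρ' - 1)) q
        · exact Or.inr ⟨hq, h3⟩
        · exact Or.inl ⟨q, hq, h3⟩
  rcases key u h with h1 | h1
  · exact h1
  · exact absurd h1.1 hu

/-- A connection of the true configuration is a connection of `cf` if it does not meet the frozen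
faces. -/
theorem real_conn (hR : ρ' ≤ R) (hV1 : ∀ f ∈ F, f ∉ E.U ω → ∀ p q, Bond ω {f} p q → par p = c → p ∉ V)
    (hV2 : ∀ v, Conn (E.cf ω) Set.univ (en c (E.e ω)) v → v ∈ V ∨ WVt E ω v)
    (hvc : Conn (E.cf ω) Set.univ (en c (E.e ω)) v) (hpv : par v = c)
    (h : Conn ω (F ∩ Bx z ρ') v v')
    (hw : ∀ x, Conn (E.cf ω) (Bx z R) v x →
      InR (z.1 - ρ') (z.1 + ρ') (z.2 - ρ') (z.2 + ρ') x → ¬ WVt E ω x) :
    Conn (E.cf ω) (Bx z R) v v' := by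
  induction h with
  | refl => exact Relation.ReflTransGen.refl
  | @tail p q hvp hb ih =>
    obtain ⟨f, ⟨hfF, hfR⟩, hbf, h1, h2⟩ := hb.exists_face
    have hpp : par p = c := by rw [← Conn.par_eq hvp]; exact hpv
    by_cases hfU : f ∈ E.U ω
    · exact Relation.ReflTransGen.tail ih
        (bond_of_single (bx_mono hR hfR) ((cf_bond hfU).2 hbf))
    · exfalso
      rcases hV2 p (Relation.ReflTransGen.trans hvc (Conn.mono (Set.subset_univ _) ih)) with h3 | h3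
      · exact hV1 f hfF hfU p q hbf hpp h3
      · exact hw p ih (inR_of_cor h1 hfR) h3

/-- One colour. -/
theorem split_one (hc : c = 0 ∨ c = 1) (hρ : ρ + 1 < ρ') (hR : ρ' ≤ R) (hW : E.Wll ω)
    (hUF : E.U ω ⊆ F) (hV1 : ∀ f ∈ F, f ∉ E.U ω → ∀ p q, Bond ω {f} p q → par p = c → p ∉ V)
    (hV2 : ∀ v, Conn (E.cf ω) Set.univ (en c (E.e ω)) v → v ∈ V ∨ WVt E ω v) {rep : ℕ → ℤ × ℤ}
    (hrep : ∀ x, E.Sid c ω 0 x → InR (z.1 - ρ') (z.1 + ρ') (z.2 - ρ') (z.2 + ρ') x →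
      ∃ i < m, Conn (E.cf ω) ((E.U ω)ᶜ ∩ Bx z R) (rep i) x)
    (S : Finset (ℤ × ℤ)) (hS : ∀ v ∈ S, (∃ t, v = en c (E.p ω t)) ∧
      InR (z.1 - (ρ + 1)) (z.1 + (ρ + 1)) (z.2 - (ρ + 1)) (z.2 + (ρ + 1)) v ∧
      ∃ u, OnBd (z.1 - R) (z.1 + R) (z.2 - R) (z.2 + R) u ∧ Conn (E.cf ω) (Bx z R) v u)
    (hS' : ∀ v ∈ S, ∀ v' ∈ S, v ≠ v' → ¬ Conn (E.cf ω) (Bx z R) v v') :
    ∃ k, S.card ≤ m + k ∧ CrN ω c F z (ρ + 1) ρ' k := by
  classical
  obtain ⟨P, hP⟩ : ∃ P : ℤ × ℤ → Prop, ∀ v, P v ↔ ∃ x, Conn (E.cf ω) (Bx z R) v x ∧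
      InR (z.1 - ρ') (z.1 + ρ') (z.2 - ρ') (z.2 + ρ') x ∧ WVt E ω x := ⟨_, fun _ => Iff.rfl⟩
  have hside : ∀ t, Conn (E.cf ω) Set.univ (en c (E.e ω)) (en c (E.p ω t)) := by
    intro t
    have := conn_box (ω := E.cf ω) (e := E.e ω) (D := Set.univ) hc (Nat.zero_le t)
      fun m _ _ => Set.mem_univ _
    rwa [pth_zero] at this
  have hpar : ∀ v ∈ S, par v = c := by
    intro v hv
    obtain ⟨⟨t, rfl⟩, -⟩ := hS v hv
    exact par_en hc _
  refine ⟨(S.filter fun v => ¬ P v).card, ?_, ?_⟩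
  · have h1 := Finset.card_filter_add_card_filter_not (s := S) P
    have h2 : (S.filter P).card ≤ m := by
      have hg : ∀ v : ℤ × ℤ, ∃ i, v ∈ S.filter P → i < m ∧ Conn (E.cf ω) (Bx z R) v (rep i) := by
        intro v
        by_cases hv : v ∈ S.filter P
        · obtain ⟨hvS, hPv⟩ := Finset.mem_filter.1 hv
          obtain ⟨x, h3, h4, f, hf, q, hb⟩ := (hP v).1 hPv
          have hpx : par x = c := by rw [← Conn.par_eq h3]; exact hpar v hvS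
          have h5 : E.Sid c ω 0 x := by
            have := hW c hc f hf x q hb hpx
            exact Conn.mono (Set.compl_subset_compl.2 fr_sub) this
          obtain ⟨i, hi, h6⟩ := hrep x h5 h4
          exact ⟨i, fun _ => ⟨hi, Relation.ReflTransGen.trans h3
            (conn_symm'' (Conn.mono Set.inter_subset_right h6))⟩⟩
        · exact ⟨0, fun h => absurd h hv⟩
      choose g hg using hg
      have h3 : (S.filter P).card ≤ (Finset.range m).card := by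
        refine Finset.card_le_card_of_injOn g (fun v hv => ?_) ?_
        · rw [Finset.mem_coe, Finset.mem_range]
          exact (hg v hv).1
        · intro v hv v' hv' hvv
          by_contra hne
          refine hS' v (Finset.mem_filter.1 hv).1 v' (Finset.mem_filter.1 hv').1 hne ?_
          refine Relation.ReflTransGen.trans (hg v hv).2 (conn_symm'' ?_)
          rw [hvv]
          exact (hg v' hv').2
      rwa [Finset.card_range] at h3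
    omega
  · refine crN_of_finset _ ?_ ?_
    · intro v hv
      obtain ⟨hvS, hPv⟩ := Finset.mem_filter.1 hv
      obtain ⟨-, h1, u, h2, h3⟩ := hS v hvS
      refine ⟨hpar v hvS, h1, real_path hUF h3 ?_ ?_ ?_⟩
      · unfold InR at h1 ⊢
        omega
      · unfold OnBd at h2
        unfold InR
        omega
      · intro x h4 h5 h6
        exact hPv ((hP v).2 ⟨x, h4, h5, h6⟩)
    · intro v hv v' hv' hne hcon
      obtain ⟨hvS, hPv⟩ := Finset.mem_filter.1 hv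
      obtain ⟨hvS', -⟩ := Finset.mem_filter.1 hv'
      obtain ⟨⟨t, ht⟩, -⟩ := hS v hvS
      refine hS' v hvS v' hvS' hne (real_conn hR hV1 hV2 (by rw [ht]; exact hside t)
        (hpar v hvS) hcon fun x h4 h5 h6 => hPv ((hP v).2 ⟨x, h4, h5, h6⟩))

end Split

/-- **The number of visits and the crossing clusters of the true configuration.** -/
theorem visits_split {E : Ex} {ω : Cfg} {z : ℤ × ℤ} {ρ ρ' R : ℤ} {N K m : ℕ}
    {F : Set (ℤ × ℤ)} {V : ℤ → Set (ℤ × ℤ)} {rep : ℤ → ℕ → ℤ × ℤ} (hρ : ρ + 1 < ρ') (hR : ρ' ≤ R)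
    (hK : 0 < K) (hn : Nb (E.cf ω) (E.e ω) (hk E ω z ρ R N K)) (h0 : fa (E.e ω) ∉ Bx z R)
    (hN : hk E ω z ρ R N K < N) (hW : E.Wll ω) (hUF : E.U ω ⊆ F)
    (hV1 : ∀ c : ℤ, (c = 0 ∨ c = 1) → ∀ f ∈ F, f ∉ E.U ω → ∀ p q, Bond ω {f} p q → par p = c →
      p ∉ V c)
    (hV2 : ∀ c : ℤ, (c = 0 ∨ c = 1) → ∀ v, Conn (E.cf ω) Set.univ (en c (E.e ω)) v →
      v ∈ V c ∨ ∃ f, f ∉ E.U ω ∧ ∃ q, Bond (E.cf ω) {f} v q)
    (hrep : ∀ c : ℤ, (c = 0 ∨ c = 1) → ∀ x, E.Sid c ω 0 x →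
      InR (z.1 - ρ') (z.1 + ρ') (z.2 - ρ') (z.2 + ρ') x →
      ∃ i < m, Conn (E.cf ω) ((E.U ω)ᶜ ∩ Bx z R) (rep c i) x) :
    ∃ k₀ k₁, K + 1 ≤ 2 * m + k₀ + k₁ ∧ CrN ω 0 F z (ρ + 1) ρ' k₀ ∧ CrN ω 1 F z (ρ + 1) ρ' k₁ := by
  classical
  obtain ⟨S, h1, h2, h3⟩ := hk_clusters_p (by omega) hK hn h0 hN
  have one : ∀ c : ℤ, (c = 0 ∨ c = 1) → ∃ k, (S.filter fun v => par v = c).card ≤ m + k ∧
      CrN ω c F z (ρ + 1) ρ' k := by
    intro c hc
    refine split_one hc hρ hR hW hUF (hV1 c hc) (hV2 c hc) (hrep c hc) _ ?_ ?_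
    · intro v hv
      obtain ⟨hvS, hvc⟩ := Finset.mem_filter.1 hv
      obtain ⟨⟨c', hc', t, rfl⟩, h4, h5⟩ := h2 v hvS
      rw [par_en hc'] at hvc
      subst hvc
      exact ⟨⟨t, rfl⟩, h4, h5⟩
    · intro v hv v' hv'
      exact h3 v (Finset.mem_filter.1 hv).1 v' (Finset.mem_filter.1 hv').1
  obtain ⟨k₀, g1, g2⟩ := one 0 (Or.inl rfl)
  obtain ⟨k₁, g3, g4⟩ := one 1 (Or.inr rfl)
  refine ⟨k₀, k₁, ?_, g2, g4⟩
  have h4 : S.card ≤ (S.filter fun v => par v = 0).card + (S.filter fun v => par v = 1).card := by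
    refine le_trans (Finset.card_le_card fun v hv => ?_) (Finset.card_union_le _ _)
    rw [Finset.mem_union, Finset.mem_filter, Finset.mem_filter]
    rcases par_cases v with h5 | h5
    · exact Or.inl ⟨hv, h5⟩
    · exact Or.inr ⟨hv, h5⟩
  omega

end Pool.Agent.SixB.Near
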