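import Pool.Agent.Lib.SixB.S8Tri
import Pool.Agent.Lib.SixB.S8Expl

/-!
# Step 8, near miss: the deterministic core for frozen walls

`w` is a configuration on all faces, `Z` is a set of solid faces. The only hypothesis on the walls is
`Wall w e Z`: every bond of colour `c` in a solid face is joined by solid faces to the end of colour
`c` of the first unit edge `e`. The sides of the strand at the time `t` are the clusters
`PP w e Z c t` of the two ends of `e` in the solid and visited faces.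

`near_core`: a crosscut from a new vertex of the side `κ` at the time `s` to a leg `lam` of the side
`1 - κ`, then a touch of colour `1 - κ` and later a touch of colour `κ` without crossing of the
crosscut: there is no gate born later in the same visit of the box to the same leg.
-/

set_option autoImplicit false

namespace Pool.Agent.SixB.Near

open Finset Pool.Agent.Perc Pool.Agent.PercT Pool.Agent.SixB

variable {w : Cfg} {e : UE} {Z : Set (ℤ × ℤ)} {c κ : ℤ} {i j l n s t u : ℕ}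
  {N : UE → ZMod 2} {M : ℤ × ℤ → ZMod 2} {ψ : ℤ × ℤ → UE → ZMod 2}

/-! ### Sides -/

/-- The solid faces and the faces visited before the time `t`. -/
def TT (w : Cfg) (e : UE) (Z : Set (ℤ × ℤ)) (t : ℕ) : Set (ℤ × ℤ) := Z ∪ (vs w e 0 t : Set (ℤ × ℤ))

/-- The side of colour `c` at the time `t`. -/
def PP (w : Cfg) (e : UE) (Z : Set (ℤ × ℤ)) (c : ℤ) (t : ℕ) : Set (ℤ × ℤ) :=
  {v | Conn w (TT w e Z t) (en c e) v}

/-- The walls are joined to the first unit edge. -/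
def Wall (w : Cfg) (e : UE) (Z : Set (ℤ × ℤ)) : Prop :=
  ∀ c : ℤ, (c = 0 ∨ c = 1) → ∀ g ∈ Z, ∀ u v, Bond w {g} u v → par u = c → Conn w Z (en c e) u

theorem TT_mono (h : s ≤ t) : TT w e Z s ⊆ TT w e Z t :=
  Set.union_subset_union_right _ (Finset.coe_subset.2 (vs_mono le_rfl h))

theorem PP_mono (h : s ≤ t) : PP w e Z c s ⊆ PP w e Z c t := fun _ hv =>
  Conn.mono (TT_mono h) hv

theorem fa_mem_TT (h : i < t) : fa (pth w e i) ∈ TT w e Z t :=
  Or.inr (Finset.mem_coe.2 (fa_mem_vs (Nat.zero_le _) h))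

theorem en_mem_PP (hc : c = 0 ∨ c = 1) : en c (pth w e t) ∈ PP w e Z c t :=
  Conn.mono Set.subset_union_right (conn_pth_vs hc (Nat.zero_le t))

theorem PP_par (hc : c = 0 ∨ c = 1) {v : ℤ × ℤ} (hv : v ∈ PP w e Z c t) : par v = c := by
  rw [← Conn.par_eq hv, par_en hc]

theorem conn_symm'' {D : Set (ℤ × ℤ)} {p q : ℤ × ℤ} (h : Conn w D p q) : Conn w D q p := by
  induction h with
  | refl => exact Relation.ReflTransGen.refl
  | tail _ hb ih => exact Relation.ReflTransGen.head hb.symm ih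

/-- A face carries only one bond. -/
theorem bond_or {f p q p' q' : ℤ × ℤ} (h : Bond w {f} p q) (h' : Bond w {f} p' q') :
    (p' = p ∧ q' = q) ∨ (p' = q ∧ q' = p) := by
  obtain ⟨x, y, hf, h⟩ := h
  obtain ⟨x', y', hf', h'⟩ := h'
  rw [Set.mem_singleton_iff] at hf hf'
  rw [← hf'] at hf
  obtain ⟨rfl, rfl⟩ := Prod.mk.inj hf
  rcases h with ⟨h0, (⟨rfl, rfl⟩ | ⟨rfl, rfl⟩)⟩ | ⟨h0, (⟨rfl, rfl⟩ | ⟨rfl, rfl⟩)⟩ <;>
    rcases h' with ⟨h0', (⟨rfl, rfl⟩ | ⟨rfl, rfl⟩)⟩ | ⟨h0', (⟨rfl, rfl⟩ | ⟨rfl, rfl⟩)⟩ <;>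
    simp_all

/-- **The bonds of the solid and visited faces are on the sides.** -/
theorem mem_PP (hW : Wall w e Z) (hc : c = 0 ∨ c = 1) {g p q : ℤ × ℤ} (hg : g ∈ TT w e Z t)
    (hb : Bond w {g} p q) (hp : par p = c) : p ∈ PP w e Z c t := by
  rcases hg with hg | hg
  · exact Conn.mono Set.subset_union_left (hW c hc g hg p q hb hp)
  · obtain ⟨i, -, hi, rfl⟩ := mem_vs.1 (Finset.mem_coe.1 hg)
    have h1 := mt_nx w (pth w e i)
    rw [← pth_succ] at h1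
    have a1 : en c (pth w e i) ∈ PP w e Z c t := PP_mono hi.le (en_mem_PP hc)
    have a2 : en c (pth w e (i + 1)) ∈ PP w e Z c t := PP_mono hi (en_mem_PP hc)
    rcases mt_ends hc h1 with ⟨-, -, h2⟩ | ⟨-, -, h2⟩
    · rcases bond_or h2 hb with ⟨rfl, -⟩ | ⟨rfl, -⟩
      · exact a1
      · exact a2
    · exfalso
      have h3 : par (en (1 - c) (pth w e i)) = 1 - c := par_en (by omega) _
      have h4 : par (en (1 - c) (pth w e (i + 1))) = 1 - c := par_en (by omega) _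
      rcases bond_or h2 hb with ⟨h5, -⟩ | ⟨h5, -⟩
      · rw [h5, h3] at hp; omega
      · rw [h5, h4] at hp; omega

/-! ### Crosscuts -/

/-- A step of a crosscut along a unit edge of `E` from a vertex off the sides. -/
def CS (w : Cfg) (e : UE) (Z : Set (ℤ × ℤ)) (E : Set UE) (t : ℕ) (p q : ℤ × ℤ) : Prop :=
  ∃ a, (a ∈ E ∧ p ∉ PP w e Z 0 t ∧ p ∉ PP w e Z 1 t) ∧ Joins a p q

/-- A crosscut by unit edges of `E` from `p` to `y`; its inner vertices are off the sides. -/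
def Cut (w : Cfg) (e : UE) (Z : Set (ℤ × ℤ)) (E : Set UE) (t : ℕ) (p y : ℤ × ℤ) : Prop :=
  ∃ q a, a ∈ E ∧ Joins a p q ∧ Relation.ReflTransGen (CS w e Z E t) q y

theorem joins_atE {a : UE} {p q v : ℤ × ℤ} (h : Joins a p q) (hv : AtE v a) : v = p ∨ v = q := by
  rcases h with ⟨rfl, rfl⟩ | ⟨rfl, rfl⟩
  · exact hv
  · exact hv.symm

/-- The chain of a crosscut. -/
theorem Cut.chain {E : Set UE} {p y : ℤ × ℤ} (h : Cut w e Z E t p y) : ∃ N : UE → ZMod 2,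
    (∀ b, N b ≠ 0 → b ∈ E ∧ ∀ v, AtE v b → v = p ∨ v = y ∨ (v ∉ PP w e Z 0 t ∧ v ∉ PP w e Z 1 t)) ∧
    Fin' N 0 ∧ ∀ x, dg w N 0 x = pnt p x + pnt y x := by
  obtain ⟨q, a, ha, hj, hr⟩ := h
  have key : ∀ q' : ℤ × ℤ, Relation.ReflTransGen (CS w e Z E t) q' y →
      q' = y ∨ (q' ∉ PP w e Z 0 t ∧ q' ∉ PP w e Z 1 t) := by
    intro q' h
    rcases Relation.ReflTransGen.cases_head h with h1 | ⟨r, ⟨b, hb, -⟩, -⟩
    · exact Or.inl h1
    · exact Or.inr hb.2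
  obtain ⟨N, h1, h2, h3⟩ := chain_unit (ω := w) hr
  obtain ⟨N₀, k1, k2, k3⟩ := chain_unit (ω := w) (K := fun _ b => b = a) (u := p) (v := q)
    (Relation.ReflTransGen.single ⟨a, rfl, hj⟩)
  refine ⟨N₀ + N, fun b hb => ?_, ?_, fun x => ?_⟩
  · by_cases hN : N₀ b = 0
    · have hN' : N b ≠ 0 := fun h0 => hb (by simp [hN, h0])
      obtain ⟨p', q', ⟨hE, hp0, hp1⟩, hj', -, hq'⟩ := h1 b hN'
      refine ⟨hE, fun v hv => ?_⟩
      rcases joins_atE hj' hv with rfl | rfl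
      · exact Or.inr (Or.inr ⟨hp0, hp1⟩)
      · exact Or.inr (key _ hq')
    · obtain ⟨-, -, rfl, -, -, -⟩ := k1 b hN
      refine ⟨ha, fun v hv => ?_⟩
      rcases joins_atE hj hv with rfl | rfl
      · exact Or.inl rfl
      · exact Or.inr (key _ hr)
  · have := k2.add h2
    simpa using this
  · have e0 : (0 : ℤ × ℤ → ZMod 2) = 0 + 0 := (add_zero 0).symm
    rw [e0, dg_add, h3, k3]
    have := two_eq (pnt q x)
    linear_combination this

/-! ### Values along the strand and along the sides -/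

/-- The value at the time `i`. -/
noncomputable def val (w : Cfg) (e : UE) (ψ : ℤ × ℤ → UE → ZMod 2) (i : ℕ) : ZMod 2 :=
  ψ (fa (pth w e i)) (pth w e i)

theorem val_succ (h : Tri w N M ψ) (i : ℕ) :
    val w e ψ (i + 1) = val w e ψ i + N (pth w e (i + 1)) := by
  unfold val
  have h1 := mt_nx w (pth w e i)
  rw [← pth_succ] at h1
  have h2 := fb_pth_succ w e i
  have h3 : fa (pth w e i) ≠ fa (pth w e (i + 1)) := by
    rw [← h2]
    exact (fa_ne_fb _).symm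
  rw [h.sd (fa (pth w e i)) _ _ h1.right (isSide_fa _) h3, h.mt _ _ _ h1]

theorem val_eq (h : Tri w N M ψ) (hij : i ≤ j) (h0 : ∀ l, i < l → l ≤ j → N (pth w e l) = 0) :
    val w e ψ j = val w e ψ i := by
  induction j, hij using Nat.le_induction with
  | base => rfl
  | succ j hij ih =>
    rw [val_succ h, ih fun l h1 h2 => h0 l h1 (by omega), h0 (j + 1) (by omega) le_rfl, add_zero]

/-- The sides of a face at the ends of its bond. -/
theorem bond_side {g p q : ℤ × ℤ} (h : Bond w {g} p q) :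
    (∃ a, IsSide g a ∧ AtE p a) ∧ ∃ b, IsSide g b ∧ AtE q b := by
  obtain ⟨f, hf, hb, h1, h2⟩ := h.exists_face
  rw [Set.mem_singleton_iff] at hf
  subst hf
  have key : ∀ v : ℤ × ℤ, IsCor f v → ∃ a, IsSide f a ∧ AtE v a := by
    intro v hv
    obtain ⟨x, y⟩ := f
    obtain ⟨v1, v2⟩ := v
    unfold IsCor at hv
    simp only at hv
    rcases hv with ⟨(rfl | rfl), (rfl | rfl)⟩
    · exact ⟨bo (v1, v2), Or.inl rfl, Or.inl rfl⟩
    · exact ⟨to' (v1, y), Or.inr (Or.inr (Or.inl rfl)), Or.inl rfl⟩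
    · exact ⟨ri (x, v2), Or.inr (Or.inr (Or.inr rfl)), Or.inl rfl⟩
    · refine ⟨to' (x, y), Or.inr (Or.inr (Or.inl rfl)), Or.inr ?_⟩
      simp [to', ub]
  exact ⟨key _ h1, key _ h2⟩

/-- The vertex is not on the curve. -/
def Off (w : Cfg) (N : UE → ZMod 2) (M : ℤ × ℤ → ZMod 2) (v : ℤ × ℤ) : Prop :=
  (∀ a, AtE v a → N a = 0) ∧ ∀ f, AtB w v f → M f = 0

/-- **A cluster off the curve has one value.** -/
theorem conn_val (h : Tri w N M ψ) {F : Set (ℤ × ℤ)} {p q : ℤ × ℤ}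
    (hoff : ∀ r, Conn w F p r → Off w N M r) (hc : Conn w F p q) {f : ℤ × ℤ} {a : UE}
    (hf : IsSide f a) (ha : AtE p a) : ∀ {f' : ℤ × ℤ} {a' : UE}, IsSide f' a' → AtE q a' →
      ψ f a = ψ f' a' := by
  induction hc with
  | refl =>
    intro f' a' hf' ha'
    exact h.vertex (hoff p Relation.ReflTransGen.refl).1 (hoff p Relation.ReflTransGen.refl).2 hf hf'
      ha ha'
  | @tail r q hr hb ih =>
    intro f' a' hf' ha'
    obtain ⟨g, hg, hb', -, -⟩ := hb.exists_face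
    obtain ⟨⟨b, hb1, hb2⟩, b', hb3, hb4⟩ := bond_side hb'
    have h1 : M g = 0 := (hoff r hr).2 g ⟨q, hb'⟩
    have h2 := hoff q (Relation.ReflTransGen.tail hr hb)
    rw [ih hb1 hb2, h.face h1 hb1 hb3, h.vertex h2.1 h2.2 hb3 hf' hb4 ha']

/-! ### The growth of the sides -/

theorem bond_ne {D : Set (ℤ × ℤ)} {p q : ℤ × ℤ} (h : Bond w D p q) : p ≠ q := by
  obtain ⟨x, y, -, h⟩ := h
  rcases h with ⟨-, (⟨rfl, rfl⟩ | ⟨rfl, rfl⟩)⟩ | ⟨-, (⟨rfl, rfl⟩ | ⟨rfl, rfl⟩)⟩ <;> simp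

/-- In one step the sides grow at most by the end of the unit edge. -/
theorem PP_succ (hW : Wall w e Z) (hc : c = 0 ∨ c = 1) {v : ℤ × ℤ}
    (hv : v ∈ PP w e Z c (t + 1)) : v ∈ PP w e Z c t ∨ v = en c (pth w e (t + 1)) := by
  change Conn w (TT w e Z (t + 1)) (en c e) v at hv
  induction hv with
  | refl => exact Or.inl Relation.ReflTransGen.refl
  | @tail r q hr hb ih =>
    obtain ⟨g, hg, hb', -, -⟩ := hb.exists_face
    have hp : par r = c := PP_par hc (t := t + 1) hr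
    have hq : par q = c := by rw [← hp]; exact (Conn.par_eq (Relation.ReflTransGen.single hb')).symm
    rcases hg with hg | hg
    · exact Or.inl (mem_PP hW hc (Or.inl hg) hb'.symm hq)
    · obtain ⟨i, -, hi, rfl⟩ := mem_vs.1 (Finset.mem_coe.1 hg)
      rcases Nat.lt_succ_iff_lt_or_eq.1 hi with hi | rfl
      · exact Or.inl (mem_PP hW hc (fa_mem_TT hi) hb'.symm hq)
      · have h1 := mt_nx w (pth w e i)
        rw [← pth_succ] at h1
        rcases mt_ends hc h1 with ⟨-, -, h2⟩ | ⟨-, -, h2⟩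
        · rcases bond_or h2 hb' with ⟨-, rfl⟩ | ⟨-, rfl⟩
          · exact Or.inr rfl
          · exact Or.inl (en_mem_PP hc)
        · exfalso
          have h3 : par (en (1 - c) (pth w e i)) = 1 - c := par_en (by omega) _
          have h4 : par (en (1 - c) (pth w e (i + 1))) = 1 - c := par_en (by omega) _
          rcases bond_or h2 hb' with ⟨h5, -⟩ | ⟨h5, -⟩
          · rw [h5, h3] at hp; omega
          · rw [h5, h4] at hp; omega

/-- The new vertices of the sides are strand vertices. -/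
theorem PP_new (hW : Wall w e Z) (hc : c = 0 ∨ c = 1) (hst : s ≤ t) {v : ℤ × ℤ}
    (hv : v ∈ PP w e Z c t) : v ∈ PP w e Z c s ∨ ∃ j, s < j ∧ j ≤ t ∧ v = en c (pth w e j) := by
  induction t, hst using Nat.le_induction with
  | base => exact Or.inl hv
  | succ t hst ih =>
    rcases PP_succ hW hc hv with h | h
    · rcases ih h with h' | ⟨j, h1, h2, h3⟩
      · exact Or.inl h'
      · exact Or.inr ⟨j, h1, by omega, h3⟩
    · exact Or.inr ⟨t + 1, by omega, le_rfl, h⟩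

/-- **A touch of the colour `c` of the faces of the time `s`**: one of the two ends is on the side of
the time `s - 1`. -/
theorem touch_old (hW : Wall w e Z) (hc : c = 0 ∨ c = 1) (hs : 0 < s)
    (hf : fa (pth w e i) ∈ TT w e Z s) (hb : w (fa (pth w e i)) = !parD c (fa (pth w e i))) :
    (en c (pth w e i) ∈ PP w e Z c s ∧ en c (pth w e (i + 1)) ∈ PP w e Z c s) ∧
      ∃ j, i ≤ j ∧ j ≤ i + 1 ∧ en c (pth w e j) ∈ PP w e Z c (s - 1) := by
  have h1 := mt_nx w (pth w e i)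
  rw [← pth_succ] at h1
  rcases mt_ends hc h1 with ⟨-, -, h2⟩ | ⟨h2, -, -⟩
  · have a1 := mem_PP hW hc hf h2 (par_en hc _)
    have a2 := mem_PP hW hc hf h2.symm (par_en hc _)
    refine ⟨⟨a1, a2⟩, ?_⟩
    obtain ⟨s, rfl⟩ : ∃ s', s = s' + 1 := ⟨s - 1, by omega⟩
    rcases PP_succ hW hc a1 with h3 | h3
    · exact ⟨i, le_rfl, by omega, h3⟩
    · rcases PP_succ hW hc a2 with h4 | h4
      · exact ⟨i + 1, by omega, le_rfl, h4⟩
      · exact absurd (h3.trans h4.symm) (bond_ne h2)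
  · rw [h2] at hb
    cases h3 : parD c (fa (pth w e i)) <;> simp [h3] at hb

/-! ### Sums of crossings -/

/-- Values along the strand as a sum. -/
theorem val_sum (h : Tri w N M ψ) (hij : i ≤ j) :
    val w e ψ j = val w e ψ i + ∑ l ∈ Finset.Ioc i j, N (pth w e l) := by
  induction j, hij using Nat.le_induction with
  | base => simp
  | succ j hij ih =>
    rw [val_succ h, ih, ← Finset.insert_Ioc_right_eq_Ioc_add_one (by omega : i ≤ j), Finset.sum_insert (by simp)]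
    ring

theorem pth_ne (hN : ∀ k, 0 < k → k ≤ n → pth w e k ≠ e) (hi : i ≤ n) (hj : j ≤ n) (hij : i ≠ j) :
    pth w e i ≠ pth w e j := by
  intro h
  rcases Nat.lt_or_gt_of_ne hij with h1 | h1
  · exact hN _ (by omega) (by omega) (pth_inj h h1.le)
  · exact hN _ (by omega) (by omega) (pth_inj h.symm h1.le)

theorem oneE_self (a : UE) : oneE a a = 1 := by simp [oneE]

theorem oneE_ne {a b : UE} (h : b ≠ a) : oneE a b = 0 := by simp [oneE, h]

theorem atE_en (c : ℤ) (a : UE) : AtE (en c a) a := en_or c a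

theorem joins_en (hc : c = 0 ∨ c = 1) (a : UE) : Joins a (en c a) (en (1 - c) a) := by
  have h0 : par (en c a) = c := par_en hc a
  have h1 : par (en (1 - c) a) = 1 - c := par_en (by omega) a
  rcases en_or c a with h2 | h2 <;> rcases en_or (1 - c) a with h3 | h3
  · rw [h2] at h0; rw [h3] at h1; omega
  · exact Or.inl ⟨h2, h3⟩
  · exact Or.inr ⟨h2, h3⟩
  · rw [h2] at h0; rw [h3] at h1; omega

theorem atE_cases (hc : c = 0 ∨ c = 1) {a : UE} {v : ℤ × ℤ} (h : AtE v a) :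
    v = en c a ∨ v = en (1 - c) a := by
  have h1 := joins_en hc a
  exact joins_atE h1 h

/-! ### Closed curves -/

theorem dg_split (N : UE → ZMod 2) (M : ℤ × ℤ → ZMod 2) (v : ℤ × ℤ) :
    dg w N M v = dg w N 0 v + dg w 0 M v := by
  have := dg_add (ω := w) (N := N) (N' := 0) (M := 0) (M' := M) v
  rwa [add_zero, zero_add] at this

theorem dg_addN (N N' : UE → ZMod 2) (v : ℤ × ℤ) :
    dg w (N + N') 0 v = dg w N 0 v + dg w N' 0 v := by
  have := dg_add (ω := w) (N := N) (N' := N') (M := 0) (M' := 0) v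
  rwa [add_zero] at this

theorem dg_addM (M M' : ℤ × ℤ → ZMod 2) (v : ℤ × ℤ) :
    dg w 0 (M + M') v = dg w 0 M v + dg w 0 M' v := by
  have := dg_add (ω := w) (N := 0) (N' := 0) (M := M) (M' := M') v
  rwa [add_zero] at this

theorem fin_oneE (a : UE) : Fin' (oneE a) 0 := by
  refine ⟨|a.1| + |a.2.1| + 2, fun b hb => ?_, fun f hf => absurd rfl hf⟩
  have e : b = a := by
    by_contra hne
    exact hb (by simp [oneE, hne])
  subst e
  obtain ⟨b1, b2, b3⟩ := b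
  have a1 := neg_abs_le b1
  have a2 := le_abs_self b1
  have a3 := neg_abs_le b2
  have a4 := le_abs_self b2
  have a5 := abs_nonneg b1
  have a6 := abs_nonneg b2
  unfold InR ua ub
  cases b3 <;> simp only [if_true, if_false, Bool.false_eq_true] <;> omega

theorem Fin'.addN {N N' : UE → ZMod 2} (h : Fin' N 0) (h' : Fin' N' 0) : Fin' (N + N') 0 := by
  have := h.add h'
  rwa [add_zero] at this

theorem Fin'.addM {M M' : ℤ × ℤ → ZMod 2} (h : Fin' 0 M) (h' : Fin' 0 M') : Fin' 0 (M + M') := by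
  have := h.add h'
  rwa [add_zero] at this

theorem Fin'.mk' {N : UE → ZMod 2} {M : ℤ × ℤ → ZMod 2} (h : Fin' N 0) (h' : Fin' 0 M) :
    Fin' N M := by
  have := h.add h'
  rwa [add_zero, zero_add] at this

theorem exists_psi (hF : Fin' N M) (hd : ∀ v, dg w N M v = 0) : ∃ ψ, Tri w N M ψ := by
  obtain ⟨L, hL⟩ := hF
  obtain ⟨ψ, h1, h2, h3, -⟩ := exists_tri hL hd
  exact ⟨ψ, h1, h2, h3⟩

theorem exists_psi_box {x₀ x₁ y₀ y₁ : ℤ} (hs : SupR x₀ x₁ y₀ y₁ N M) (hd : ∀ v, dg w N M v = 0) :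
    ∃ ψ, Tri w N M ψ ∧ ∀ f a, f ∉ RF x₀ x₁ y₀ y₁ → ψ f a = 0 := by
  obtain ⟨ψ, h1, h2, h3, h4⟩ := exists_tri hs hd
  exact ⟨ψ, ⟨h1, h2, h3⟩, h4⟩

/-- The chain `N` is a crosscut from `p` to `y`. -/
def IsCut (w : Cfg) (e : UE) (Z : Set (ℤ × ℤ)) (E : Set UE) (t : ℕ) (p y : ℤ × ℤ)
    (N : UE → ZMod 2) : Prop :=
  (∀ b, N b ≠ 0 → b ∈ E ∧ ∀ v, AtE v b → v = p ∨ v = y ∨ (v ∉ PP w e Z 0 t ∧ v ∉ PP w e Z 1 t)) ∧
    Fin' N 0 ∧ ∀ x, dg w N 0 x = pnt p x + pnt y x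

/-- A crosscut is off the old vertices of the sides. -/
theorem IsCut.off {E : Set UE} {p y r : ℤ × ℤ} (h : IsCut w e Z E t p y N) (hc : c = 0 ∨ c = 1)
    (hst : s ≤ t) (hr : r ∈ PP w e Z c s) (h1 : r ≠ p) (h2 : r ≠ y) {b : UE} (hb : AtE r b) :
    N b = 0 := by
  by_contra h3
  rcases (h.1 b h3).2 r hb with h4 | h4 | h4
  · exact h1 h4
  · exact h2 h4
  · rcases hc with rfl | rfl
    · exact h4.1 (PP_mono hst hr)
    · exact h4.2 (PP_mono hst hr)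

/-- The bonds of a chain of one colour are off the vertices of the other colour. -/
theorem chain_off {F : Set (ℤ × ℤ)} {u r f : ℤ × ℤ} (hM : ∀ f, M f ≠ 0 → f ∈ F ∧
    ∃ p q, Bond w {f} p q ∧ Conn w F u p ∧ Conn w F u q) (hr : par r ≠ par u) (hf : AtB w r f) :
    M f = 0 := by
  by_contra h3
  obtain ⟨-, p, q, hb, hp, hq⟩ := hM f h3
  obtain ⟨v, hv⟩ := hf
  rcases bond_or hb hv with ⟨rfl, -⟩ | ⟨rfl, -⟩
  · exact hr (Conn.par_eq hp).symm
  · exact hr (Conn.par_eq hq).symm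

/-- The unit edge of the tip is off the old vertices of one side. -/
theorem one_off (hc : c = 0 ∨ c = 1) {a : UE} {r : ℤ × ℤ} (hr : par r = c) (h1 : r ≠ en c a) {b : UE}
    (hb : AtE r b) : oneE a b = 0 := by
  refine oneE_ne ?_
  rintro rfl
  rcases atE_cases hc hb with h2 | h2
  · exact h1 h2
  · have h3 : par (en (1 - c) b) = 1 - c := par_en (by omega) b
    rw [← h2, hr] at h3
    omega

theorem sum_one (hN : ∀ k, 0 < k → k ≤ n → pth w e k ≠ e) (hs : s ≤ n) (his : i < s) (hsj : s ≤ j)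
    (hj : j ≤ n) : ∑ l ∈ Finset.Ioc i j, oneE (pth w e s) (pth w e l) = 1 := by
  rw [Finset.sum_eq_single s]
  · exact oneE_self _
  · intro l hl hls
    rw [Finset.mem_Ioc] at hl
    exact oneE_ne (pth_ne hN (by omega) hs hls)
  · intro h
    exact absurd (Finset.mem_Ioc.2 ⟨his, hsj⟩) h

theorem sum_one' (hN : ∀ k, 0 < k → k ≤ n → pth w e k ≠ e) (hs : s ≤ n) (hsj : s ≤ i ∨ j < s)
    (hj : j ≤ n) : ∑ l ∈ Finset.Ioc i j, oneE (pth w e s) (pth w e l) = 0 := by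
  refine Finset.sum_eq_zero fun l hl => ?_
  rw [Finset.mem_Ioc] at hl
  exact oneE_ne (pth_ne hN (by omega) hs (by omega))

theorem IsCut.sum {E : Set UE} {p y : ℤ × ℤ} (h : IsCut w e Z E t p y N)
    (hE : ∀ a ∈ E, ∀ l ≤ n, pth w e l ≠ a) (hj : j ≤ n) :
    ∑ l ∈ Finset.Ioc i j, N (pth w e l) = 0 := by
  refine Finset.sum_eq_zero fun l hl => ?_
  rw [Finset.mem_Ioc] at hl
  by_contra h3
  exact hE _ (h.1 _ h3).1 l (by omega) rfl

/-- **FACT C**: the unit edge of a new tip and an uncrossed crosscut to the other side cut off the old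
part of the side of the tip. -/
theorem fact_C (hκ : κ = 0 ∨ κ = 1) (hN : ∀ k, 0 < k → k ≤ n → pth w e k ≠ e) (hs : 0 < s)
    (hnew : en κ (pth w e s) ∉ PP w e Z κ (s - 1)) {E : Set UE} {x : ℤ × ℤ}
    (hcut : Cut w e Z E s (en κ (pth w e s)) x) (hE : ∀ a ∈ E, ∀ l ≤ n, pth w e l ≠ a)
    (hx : x ∈ PP w e Z (1 - κ) s) (hsi : s ≤ i) (hin : i ≤ n) :
    en κ (pth w e i) ∉ PP w e Z κ (s - 1) := by
  intro hi
  have hκ' : 1 - κ = 0 ∨ 1 - κ = 1 := by omega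
  obtain ⟨N₀, hN0⟩ : ∃ N₀, IsCut w e Z E s (en κ (pth w e s)) x N₀ := hcut.chain
  have hxp : par x = 1 - κ := PP_par hκ' hx
  have hconn : Conn w (TT w e Z s) x (en (1 - κ) (pth w e s)) :=
    Relation.ReflTransGen.trans (conn_symm'' hx) (en_mem_PP hκ')
  obtain ⟨M, hM, hfM, hdM⟩ := chain_conn hconn
  obtain ⟨ψ, hψ⟩ : ∃ ψ, Tri w (N₀ + oneE (pth w e s)) M ψ := by
    refine exists_psi ((hN0.2.1.addN (fin_oneE _)).mk' hfM) fun v => ?_
    rw [dg_split, dg_addN, hN0.2.2, dg_oneE (joins_en hκ _), hdM]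
    have h1 := two_eq (pnt x v)
    have h2 := two_eq (pnt (en κ (pth w e s)) v)
    have h3 := two_eq (pnt (en (1 - κ) (pth w e s)) v)
    linear_combination h1 + h2 + h3
  have hoff : ∀ r ∈ PP w e Z κ (s - 1), Off w (N₀ + oneE (pth w e s)) M r := by
    intro r hr
    have hrp := PP_par hκ hr
    have hr1 : r ≠ en κ (pth w e s) := fun h => hnew (h ▸ hr)
    refine ⟨fun b hb => ?_, fun f hf => ?_⟩
    · rw [Pi.add_apply, hN0.off hκ (by omega : s - 1 ≤ s) hr hr1 (by rintro rfl; omega) hb,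
        one_off hκ hrp hr1 hb, add_zero]
    · exact chain_off hM (by omega) hf
  have h1 : val w e ψ 0 = val w e ψ i := conn_val hψ (F := TT w e Z (s - 1)) (p := en κ e)
    (fun r hr => hoff r hr) hi (isSide_fa e) (atE_en κ e) (isSide_fa _) (atE_en κ _)
  have h2 := val_sum (e := e) hψ (Nat.zero_le i)
  simp only [Pi.add_apply, Finset.sum_add_distrib] at h2
  rw [hN0.sum hE hin, sum_one hN (by omega : s ≤ n) hs hsi hin, h1] at h2
  simp at h2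

theorem inR_of_side {x₀ x₁ y₀ y₁ : ℤ} {f : ℤ × ℤ} {a : UE} (h : IsSide f a)
    (hf : f ∈ RF x₀ x₁ y₀ y₁) : InR x₀ x₁ y₀ y₁ (ua a) ∧ InR x₀ x₁ y₀ y₁ (ub a) := by
  rw [memRF] at hf
  unfold InR
  rcases h with rfl | rfl | rfl | rfl <;>
    simp only [bo, le', to', ri, ua, ub, if_true, if_false, Bool.false_eq_true] <;> omega

/-- The unit edge is in the closed rectangle. -/
def InRE (x₀ x₁ y₀ y₁ : ℤ) (a : UE) : Prop := InR x₀ x₁ y₀ y₁ (ua a) ∧ InR x₀ x₁ y₀ y₁ (ub a)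

theorem supE {x₀ x₁ y₀ y₁ : ℤ} (h : ∀ b, N b ≠ 0 → InRE x₀ x₁ y₀ y₁ b) : SupR x₀ x₁ y₀ y₁ N 0 :=
  ⟨h, fun _ hf => absurd rfl hf⟩

theorem supM {x₀ x₁ y₀ y₁ : ℤ} (h : ∀ f, M f ≠ 0 → f ∈ RF x₀ x₁ y₀ y₁) : SupR x₀ x₁ y₀ y₁ 0 M :=
  ⟨fun _ hf => absurd rfl hf, h⟩

theorem SupR.mk' {x₀ x₁ y₀ y₁ : ℤ} {N : UE → ZMod 2} {M : ℤ × ℤ → ZMod 2}
    (h : SupR x₀ x₁ y₀ y₁ N 0) (h' : SupR x₀ x₁ y₀ y₁ 0 M) : SupR x₀ x₁ y₀ y₁ N M := by
  have := h.add h'
  rwa [add_zero, zero_add] at this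

theorem SupR.addN {x₀ x₁ y₀ y₁ : ℤ} {N N' : UE → ZMod 2} (h : SupR x₀ x₁ y₀ y₁ N 0)
    (h' : SupR x₀ x₁ y₀ y₁ N' 0) : SupR x₀ x₁ y₀ y₁ (N + N') 0 := by
  have := h.add h'
  rwa [add_zero] at this

theorem SupR.addM {x₀ x₁ y₀ y₁ : ℤ} {M M' : ℤ × ℤ → ZMod 2} (h : SupR x₀ x₁ y₀ y₁ 0 M)
    (h' : SupR x₀ x₁ y₀ y₁ 0 M') : SupR x₀ x₁ y₀ y₁ 0 (M + M') := by
  have := h.add h'
  rwa [add_zero] at this

/-- **(N3)**: a gate to the side of the strand inside of a box which the strand leaves. -/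
theorem fact_N3 (hκ : κ = 0 ∨ κ = 1) (hN : ∀ k, 0 < k → k ≤ n → pth w e k ≠ e) (hs : 0 < s)
    (hsn : s ≤ n) {x₀ x₁ y₀ y₁ : ℤ} {E : Set UE} {x : ℤ × ℤ}
    (hcut : Cut w e Z E s (en κ (pth w e s)) x)
    (hE : ∀ a ∈ E, ∀ l ≤ n, pth w e l ≠ a) (hE' : ∀ a ∈ E, InRE x₀ x₁ y₀ y₁ a)
    (hx : Conn w (TT w e Z s ∩ RF x₀ x₁ y₀ y₁) x (en (1 - κ) (pth w e s)))
    (hp : InRE x₀ x₁ y₀ y₁ (pth w e s)) (h0 : fa e ∉ RF x₀ x₁ y₀ y₁)
    (hn : fa (pth w e n) ∉ RF x₀ x₁ y₀ y₁) : False := by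
  obtain ⟨N₀, hN0⟩ : ∃ N₀, IsCut w e Z E s (en κ (pth w e s)) x N₀ := hcut.chain
  obtain ⟨M, hM, hfM, hdM⟩ := chain_conn hx
  have hs1 : SupR x₀ x₁ y₀ y₁ (N₀ + oneE (pth w e s)) M := by
    refine SupR.mk' (SupR.addN (supE fun b hb => hE' b (hN0.1 b hb).1) (supE fun b hb => ?_))
      (supM fun f hf => (hM f hf).1.2)
    have : b = pth w e s := by
      by_contra h
      exact hb (oneE_ne h)
    exact this ▸ hp
  obtain ⟨ψ, hψ, hz⟩ := exists_psi_box (w := w) hs1 fun v => by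
    rw [dg_split, dg_addN, hN0.2.2, dg_oneE (joins_en hκ _), hdM]
    have h1 := two_eq (pnt x v)
    have h2 := two_eq (pnt (en κ (pth w e s)) v)
    have h3 := two_eq (pnt (en (1 - κ) (pth w e s)) v)
    linear_combination h1 + h2 + h3
  have h2 := val_sum (e := e) hψ (Nat.zero_le n)
  simp only [Pi.add_apply, Finset.sum_add_distrib] at h2
  rw [hN0.sum hE le_rfl, sum_one hN hsn hs hsn le_rfl] at h2
  have h3 : val w e ψ n = 0 := hz _ _ hn
  have h4 : val w e ψ 0 = 0 := hz _ _ h0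
  rw [h3, h4] at h2
  simp at h2

/-- The path up to the time `s` from the time `σ` on, for the ends of one colour. -/
theorem conn_between (hc : c = 0 ∨ c = 1) {σ : ℕ} (hσs : σ ≤ s) {D : Set (ℤ × ℤ)}
    (hD : ∀ l, σ ≤ l → l < s → fa (pth w e l) ∈ D) :
    Conn w (TT w e Z s ∩ D) (en c (pth w e s)) (en c (pth w e σ)) := by
  refine conn_symm'' (conn_pth hc hσs fun l h1 h2 => Or.inl ⟨?_, hD l h1 h2⟩)
  exact fa_mem_TT h2

/-- **(D1)**: a touch of the old side of colour `κ` before the birth of the gate is behind the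
crosscut. -/
theorem fact_D1 (hκ : κ = 0 ∨ κ = 1) (hN : ∀ k, 0 < k → k ≤ n → pth w e k ≠ e) {σ : ℕ}
    (hσ : 0 < σ) (hσs : σ < s) (hsn : s ≤ n) {Ez Eg : Set UE} {x y : ℤ × ℤ}
    (hnew : en κ (pth w e σ) ∉ PP w e Z κ (σ - 1)) (hnew' : en κ (pth w e s) ∉ PP w e Z κ (s - 1))
    {Nz Ng : UE → ZMod 2} (hz : IsCut w e Z Ez σ (en κ (pth w e σ)) y Nz)
    (hg : IsCut w e Z Eg s (en κ (pth w e s)) x Ng) (hy : par y = 1 - κ) {F : Set (ℤ × ℤ)}
    (hyx : Conn w F y x) (hEz : ∀ a ∈ Ez, ∀ l ≤ σ, pth w e l ≠ a)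
    (hEg : ∀ a ∈ Eg, ∀ l ≤ n, pth w e l ≠ a) (hσi : σ ≤ i) (his : i < s)
    (hi : en κ (pth w e i) ∈ PP w e Z κ (σ - 1)) : ∑ l ∈ Finset.Ioc σ i, Nz (pth w e l) = 1 := by
  have hκ' : 1 - κ = 0 ∨ 1 - κ = 1 := by omega
  have hxp : par x = 1 - κ := by rw [← hy]; exact (Conn.par_eq hyx).symm
  obtain ⟨M₁, hM1, hf1, hd1⟩ := chain_conn hyx
  have hY : Conn w (TT w e Z s ∩ Set.univ) (en (1 - κ) (pth w e s)) (en (1 - κ) (pth w e σ)) :=
    conn_between hκ' hσs.le fun _ _ _ => trivial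
  obtain ⟨M₂, hM2, hf2, hd2⟩ := chain_conn hY
  obtain ⟨ψ, hψ⟩ : ∃ ψ, Tri w (Nz + oneE (pth w e σ) + (Ng + oneE (pth w e s))) (M₁ + M₂) ψ := by
    refine exists_psi (((hz.2.1.addN (fin_oneE _)).addN (hg.2.1.addN (fin_oneE _))).mk'
      (hf1.addM hf2)) fun v => ?_
    rw [dg_split, dg_addN, dg_addN, dg_addN, dg_addM, hz.2.2, hg.2.2, dg_oneE (joins_en hκ _),
      dg_oneE (joins_en hκ _), hd1, hd2]
    have h1 := two_eq (pnt x v)
    have h2 := two_eq (pnt y v)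
    have h3 := two_eq (pnt (en κ (pth w e s)) v)
    have h4 := two_eq (pnt (en (1 - κ) (pth w e s)) v)
    have h5 := two_eq (pnt (en κ (pth w e σ)) v)
    have h6 := two_eq (pnt (en (1 - κ) (pth w e σ)) v)
    linear_combination h1 + h2 + h3 + h4 + h5 + h6
  have hoff : ∀ r ∈ PP w e Z κ (σ - 1),
      Off w (Nz + oneE (pth w e σ) + (Ng + oneE (pth w e s))) (M₁ + M₂) r := by
    intro r hr
    have hrp := PP_par hκ hr
    have hr1 : r ≠ en κ (pth w e σ) := fun h => hnew (h ▸ hr)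
    have hr2 : r ≠ en κ (pth w e s) := fun h => hnew' (h ▸ PP_mono (by omega) hr)
    refine ⟨fun b hb => ?_, fun f hf => ?_⟩
    · rw [Pi.add_apply, Pi.add_apply, Pi.add_apply,
        hz.off hκ (by omega : σ - 1 ≤ σ) hr hr1 (by rintro rfl; omega) hb,
        hg.off hκ (by omega : σ - 1 ≤ s) hr hr2 (by rintro rfl; omega) hb,
        one_off hκ hrp hr1 hb, one_off hκ hrp hr2 hb]
      simp
    · rw [Pi.add_apply, chain_off hM1 (by omega) hf, chain_off hM2 (by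
        rw [par_en hκ']; omega) hf, add_zero]
  have h1 : val w e ψ 0 = val w e ψ i := conn_val hψ (F := TT w e Z (σ - 1)) (p := en κ e)
    (fun r hr => hoff r hr) hi (isSide_fa e) (atE_en κ e) (isSide_fa _) (atE_en κ _)
  have h2 := val_sum (e := e) hψ (Nat.zero_le i)
  simp only [Pi.add_apply, Finset.sum_add_distrib] at h2
  have h3 : ∑ l ∈ Finset.Ioc 0 i, Nz (pth w e l) = ∑ l ∈ Finset.Ioc σ i, Nz (pth w e l) := by
    have h4 : Finset.Ioc 0 i = Finset.Ioc 0 σ ∪ Finset.Ioc σ i :=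
      (Finset.Ioc_union_Ioc_eq_Ioc (Nat.zero_le _) hσi).symm
    rw [h4, Finset.sum_union (Finset.Ioc_disjoint_Ioc_of_le le_rfl), hz.sum hEz le_rfl, zero_add]
  rw [h3, hg.sum hEg (by omega), sum_one hN (by omega : σ ≤ n) hσ hσi (by omega),
    sum_one' hN hsn (Or.inr his) (by omega), h1] at h2
  have h4 := two_eq (1 : ZMod 2)
  have h5 : ∑ l ∈ Finset.Ioc σ i, Nz (pth w e l) + 1 = 0 := by linear_combination -h2
  linear_combination h5 - h4

/-- **(D2)**: a touch of the old side of colour `1 - κ` behind the crosscut is a touch of the leg. -/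
theorem fact_D2 (hκ : κ = 0 ∨ κ = 1) {σ : ℕ} (hσs : σ < s) {Ez Eg : Set UE} {x y : ℤ × ℤ} {x₀ x₁ y₀ y₁ : ℤ}
    {Nz Ng : UE → ZMod 2} (hz : IsCut w e Z Ez σ (en κ (pth w e σ)) y Nz)
    (hg : IsCut w e Z Eg s (en κ (pth w e s)) x Ng) (hy : par y = 1 - κ)
    (hyx : Conn w (TT w e Z σ ∩ RF x₀ x₁ y₀ y₁) y x) (hEz : ∀ a ∈ Ez, ∀ l ≤ σ, pth w e l ≠ a)
    (hEg : ∀ a ∈ Eg, ∀ l ≤ n, pth w e l ≠ a) (hBz : ∀ a ∈ Ez, InRE x₀ x₁ y₀ y₁ a)
    (hBg : ∀ a ∈ Eg, InRE x₀ x₁ y₀ y₁ a)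
    (hD : ∀ l, σ ≤ l → l < s → fa (pth w e l) ∈ (RF x₀ x₁ y₀ y₁ : Set (ℤ × ℤ)))
    (h0 : fa e ∉ RF x₀ x₁ y₀ y₁) (hσi : σ ≤ i) (hin : i ≤ n)
    (hi : en (1 - κ) (pth w e i) ∈ PP w e Z (1 - κ) σ)
    (hsum : ∑ l ∈ Finset.Ioc σ i, Nz (pth w e l) = 1) :
    Conn w (TT w e Z σ ∩ RF x₀ x₁ y₀ y₁) y (en (1 - κ) (pth w e i)) := by
  have hκ' : 1 - κ = 0 ∨ 1 - κ = 1 := by omega
  have hxp : par x = 1 - κ := by rw [← hy]; exact (Conn.par_eq hyx).symm
  obtain ⟨M₁, hM1, hf1, hd1⟩ := chain_conn hyx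
  have hX : Conn w (TT w e Z s ∩ (RF x₀ x₁ y₀ y₁ : Set (ℤ × ℤ))) (en κ (pth w e s))
    (en κ (pth w e σ)) := conn_between hκ hσs.le hD
  obtain ⟨M₂, hM2, hf2, hd2⟩ := chain_conn hX
  have hsup : SupR x₀ x₁ y₀ y₁ (Nz + Ng) (M₁ + M₂) := by
    refine SupR.mk' (SupR.addN (supE fun b hb => hBz b (hz.1 b hb).1)
      (supE fun b hb => hBg b (hg.1 b hb).1)) (SupR.addM (supM fun f hf => (hM1 f hf).1.2)
      (supM fun f hf => (hM2 f hf).1.2))
  obtain ⟨ψ, hψ, hout⟩ := exists_psi_box (w := w) hsup fun v => by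
    rw [dg_split, dg_addN, dg_addM, hz.2.2, hg.2.2, hd1, hd2]
    have h1 := two_eq (pnt x v)
    have h2 := two_eq (pnt y v)
    have h3 := two_eq (pnt (en κ (pth w e s)) v)
    have h5 := two_eq (pnt (en κ (pth w e σ)) v)
    linear_combination h1 + h2 + h3 + h5
  by_contra hcon
  have hval : val w e ψ i = 1 := by
    have h2 := val_sum (e := e) hψ (Nat.zero_le i)
    simp only [Pi.add_apply, Finset.sum_add_distrib] at h2
    have h3 : ∑ l ∈ Finset.Ioc 0 i, Nz (pth w e l) = ∑ l ∈ Finset.Ioc σ i, Nz (pth w e l) := by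
      have h4 : Finset.Ioc 0 i = Finset.Ioc 0 σ ∪ Finset.Ioc σ i :=
        (Finset.Ioc_union_Ioc_eq_Ioc (Nat.zero_le _) hσi).symm
      rw [h4, Finset.sum_union (Finset.Ioc_disjoint_Ioc_of_le le_rfl), hz.sum hEz le_rfl, zero_add]
    have h5 : val w e ψ 0 = 0 := hout _ _ h0
    rw [h3, hsum, hg.sum hEg hin, h5] at h2
    rw [h2]
    ring
  -- vertices of the side off the leg are off the curve
  have hoff : ∀ r ∈ PP w e Z (1 - κ) σ, ¬ Conn w (TT w e Z σ ∩ RF x₀ x₁ y₀ y₁) y r →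
      Off w (Nz + Ng) (M₁ + M₂) r := by
    intro r hr hry
    have hrp := PP_par hκ' hr
    have e1 : ∀ k : ℕ, r ≠ en κ (pth w e k) := fun k h => by
      have := par_en hκ (pth w e k)
      rw [← h] at this
      omega
    have e2 : r ≠ y := by
      rintro rfl
      exact hry Relation.ReflTransGen.refl
    have e3 : r ≠ x := by
      rintro rfl
      exact hry hyx
    refine ⟨fun b hb => ?_, fun f hf => ?_⟩
    · rw [Pi.add_apply, hz.off hκ' le_rfl hr (e1 _) e2 hb,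
        hg.off hκ' hσs.le hr (e1 _) e3 hb, add_zero]
    · have h6 : M₁ f = 0 := by
        by_contra h3
        obtain ⟨-, p, q, hb, hp, hq⟩ := hM1 f h3
        obtain ⟨v, hv⟩ := hf
        rcases bond_or hb hv with ⟨rfl, -⟩ | ⟨rfl, -⟩
        · exact hry hp
        · exact hry hq
      rw [Pi.add_apply, h6, chain_off hM2 (by rw [par_en hκ]; omega) hf, add_zero]
  have hconn : Conn w (TT w e Z σ) (en (1 - κ) (pth w e i)) (en (1 - κ) e) := conn_symm'' hi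
  have key : ∀ r, Conn w (TT w e Z σ) (en (1 - κ) (pth w e i)) r →
      ¬ Conn w (TT w e Z σ ∩ RF x₀ x₁ y₀ y₁) y r ∧
      Conn w (TT w e Z σ ∩ RF x₀ x₁ y₀ y₁) (en (1 - κ) (pth w e i)) r ∧
      ∀ f a, IsSide f a → AtE r a → ψ f a = 1 := by
    intro r hr
    induction hr with
    | refl =>
      refine ⟨hcon, Relation.ReflTransGen.refl, fun f a hf ha => ?_⟩
      have ho := hoff _ hi hcon
      rw [hψ.vertex ho.1 ho.2 hf (isSide_fa _) ha (atE_en _ _)]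
      exact hval
    | @tail r q hr hb ih =>
      obtain ⟨i1, i2, i3⟩ := ih
      obtain ⟨g, hg', hb', -, -⟩ := hb.exists_face
      obtain ⟨⟨b, hb1, hb2⟩, b', hb3, hb4⟩ := bond_side hb'
      have hrP : r ∈ PP w e Z (1 - κ) σ := Relation.ReflTransGen.trans hi hr
      have hqP : q ∈ PP w e Z (1 - κ) σ := Relation.ReflTransGen.tail hrP hb
      have ho := hoff _ hrP i1
      have hM0 : (M₁ + M₂) g = 0 := ho.2 g ⟨q, hb'⟩
      have hgD : g ∈ RF x₀ x₁ y₀ y₁ := by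
        by_contra hgD
        have h7 := i3 g b hb1 hb2
        rw [hout g b hgD] at h7
        exact zero_ne_one h7
      have hb5 : Bond w (TT w e Z σ ∩ RF x₀ x₁ y₀ y₁) r q := bond_of_single ⟨hg', hgD⟩ hb'
      have i4 : ¬ Conn w (TT w e Z σ ∩ RF x₀ x₁ y₀ y₁) y q := fun h =>
        i1 (Relation.ReflTransGen.tail h hb5.symm)
      refine ⟨i4, Relation.ReflTransGen.tail i2 hb5, fun f a hf ha => ?_⟩
      have ho' := hoff _ hqP i4
      rw [hψ.vertex ho'.1 ho'.2 hf hb3 ha hb4, hψ.face hM0 hb3 hb1]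
      exact i3 g b hb1 hb2
  have h8 := (key _ hconn).2.2 (fa e) e (isSide_fa e) (atE_en _ e)
  rw [hout _ _ h0] at h8
  exact zero_ne_one h8

/-- **The deterministic core of the near miss lemma.** -/
theorem near_core (hκ : κ = 0 ∨ κ = 1) (hN : ∀ k, 0 < k → k ≤ n → pth w e k ≠ e) {σ k : ℕ}
    (hσ : 0 < σ) (hσs : σ ≤ s) (hsn : s ≤ n) {Ez Eg : Set UE} {x y : ℤ × ℤ} {x₀ x₁ y₀ y₁ : ℤ}
    (hnew : en κ (pth w e σ) ∉ PP w e Z κ (σ - 1)) (hnew' : en κ (pth w e s) ∉ PP w e Z κ (s - 1))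
    (hz : Cut w e Z Ez σ (en κ (pth w e σ)) y) (hg : Cut w e Z Eg s (en κ (pth w e s)) x)
    (hy : y ∈ PP w e Z (1 - κ) σ) (hyx : Conn w (TT w e Z σ ∩ RF x₀ x₁ y₀ y₁) y x)
    (hEz : ∀ a ∈ Ez, ∀ l ≤ σ, pth w e l ≠ a) (hEz' : ∀ a ∈ Ez, ∀ j, k < j → j ≤ l → pth w e j ≠ a)
    (hEg : ∀ a ∈ Eg, ∀ l ≤ n, pth w e l ≠ a) (hBz : ∀ a ∈ Ez, InRE x₀ x₁ y₀ y₁ a)
    (hBg : ∀ a ∈ Eg, InRE x₀ x₁ y₀ y₁ a)
    (hD : ∀ l, σ ≤ l → l < s → fa (pth w e l) ∈ (RF x₀ x₁ y₀ y₁ : Set (ℤ × ℤ)))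
    (hp : InRE x₀ x₁ y₀ y₁ (pth w e s)) (h0 : fa e ∉ RF x₀ x₁ y₀ y₁)
    (hn : fa (pth w e n) ∉ RF x₀ x₁ y₀ y₁) {iQ iP : ℕ} (hσQ : σ ≤ iQ) (hkQ : k ≤ iQ)
    (hQP : iQ ≤ iP) (hPl : iP ≤ l) (hln : l ≤ n)
    (hQ : en (1 - κ) (pth w e iQ) ∈ PP w e Z (1 - κ) σ)
    (hP : en κ (pth w e iP) ∈ PP w e Z κ (σ - 1)) : False := by
  have hκ' : 1 - κ = 0 ∨ 1 - κ = 1 := by omega
  have hxσ : x ∈ PP w e Z (1 - κ) σ :=
    Relation.ReflTransGen.trans hy (Conn.mono Set.inter_subset_left hyx)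
  by_cases hsP : s ≤ iP
  · exact fact_C hκ hN (by omega) hnew' hg hEg (PP_mono hσs hxσ) hsP (by omega)
      (PP_mono (by omega) hP)
  · push Not at hsP
    obtain ⟨Nz, hNz⟩ : ∃ N₀, IsCut w e Z Ez σ (en κ (pth w e σ)) y N₀ := hz.chain
    obtain ⟨Ng, hNg⟩ : ∃ N₀, IsCut w e Z Eg s (en κ (pth w e s)) x N₀ := hg.chain
    have hyp := PP_par hκ' hy
    have h1 := fact_D1 hκ hN hσ (by omega) hsn hnew hnew' hNz hNg hyp hyx hEz hEg
      (by omega : σ ≤ iP) hsP hP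
    have h2 : ∑ l ∈ Finset.Ioc σ iQ, Nz (pth w e l) = 1 := by
      rw [← h1, ← Finset.Ioc_union_Ioc_eq_Ioc hσQ hQP,
        Finset.sum_union (Finset.Ioc_disjoint_Ioc_of_le le_rfl)]
      have h3 : ∑ l ∈ Finset.Ioc iQ iP, Nz (pth w e l) = 0 := by
        refine Finset.sum_eq_zero fun j hj => ?_
        rw [Finset.mem_Ioc] at hj
        by_contra h3
        exact hEz' _ (hNz.1 _ h3).1 j (by omega) (by omega) rfl
      rw [h3, add_zero]
    have h4 := fact_D2 hκ (by omega : σ < s) hNz hNg hyp hyx hEz hEg hBz hBg hD h0 hσQ (by omega)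
      hQ h2
    refine fact_N3 hκ hN (by omega) hsn hg hEg hBg ?_ hp h0 hn
    have hmono : TT w e Z σ ∩ (RF x₀ x₁ y₀ y₁ : Set (ℤ × ℤ)) ⊆
        TT w e Z s ∩ (RF x₀ x₁ y₀ y₁ : Set (ℤ × ℤ)) :=
      Set.inter_subset_inter_left _ (TT_mono hσs)
    refine Relation.ReflTransGen.trans (Conn.mono hmono (conn_symm'' hyx)) ?_
    refine Relation.ReflTransGen.trans (Conn.mono hmono h4) ?_
    exact conn_symm'' (conn_between hκ' (by omega) fun j h1 h2 => hD j (by omega) h2)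

/-- The core with touches of the faces of the time `σ`. -/
theorem near_core' (hκ : κ = 0 ∨ κ = 1) (hW : Wall w e Z)
    (hN : ∀ k, 0 < k → k ≤ n → pth w e k ≠ e) {σ k : ℕ}
    (hσ : 0 < σ) (hσs : σ ≤ s) (hsn : s ≤ n) {Ez Eg : Set UE} {x y : ℤ × ℤ} {x₀ x₁ y₀ y₁ : ℤ}
    (hnew : en κ (pth w e σ) ∉ PP w e Z κ (σ - 1)) (hnew' : en κ (pth w e s) ∉ PP w e Z κ (s - 1))
    (hz : Cut w e Z Ez σ (en κ (pth w e σ)) y) (hg : Cut w e Z Eg s (en κ (pth w e s)) x)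
    (hy : y ∈ PP w e Z (1 - κ) σ) (hyx : Conn w (TT w e Z σ ∩ RF x₀ x₁ y₀ y₁) y x)
    (hEz : ∀ a ∈ Ez, ∀ l ≤ σ, pth w e l ≠ a) (hEz' : ∀ a ∈ Ez, ∀ j, k < j → j ≤ l → pth w e j ≠ a)
    (hEg : ∀ a ∈ Eg, ∀ l ≤ n, pth w e l ≠ a) (hBz : ∀ a ∈ Ez, InRE x₀ x₁ y₀ y₁ a)
    (hBg : ∀ a ∈ Eg, InRE x₀ x₁ y₀ y₁ a)
    (hD : ∀ l, σ ≤ l → l < s → fa (pth w e l) ∈ (RF x₀ x₁ y₀ y₁ : Set (ℤ × ℤ)))
    (hp : InRE x₀ x₁ y₀ y₁ (pth w e s)) (h0 : fa e ∉ RF x₀ x₁ y₀ y₁)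
    (hn : fa (pth w e n) ∉ RF x₀ x₁ y₀ y₁) {tQ tP : ℕ} (hσQ : σ ≤ tQ) (hkQ : k ≤ tQ)
    (hQP : tQ < tP) (hPl : tP < l) (hln : l ≤ n)
    (hQ : fa (pth w e tQ) ∈ TT w e Z σ) (hQ' : w (fa (pth w e tQ)) = !parD (1 - κ) (fa (pth w e tQ)))
    (hP : fa (pth w e tP) ∈ TT w e Z σ) (hP' : w (fa (pth w e tP)) = !parD κ (fa (pth w e tP))) :
    False := by
  have hκ' : 1 - κ = 0 ∨ 1 - κ = 1 := by omega
  obtain ⟨⟨h1, -⟩, -⟩ := touch_old hW hκ' hσ hQ hQ'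
  obtain ⟨-, j, h2, h3, h4⟩ := touch_old hW hκ hσ hP hP'
  exact near_core hκ hN hσ hσs hsn hnew hnew' hz hg hy hyx hEz hEz' hEg hBz hBg hD hp h0 hn hσQ hkQ
    (by omega) (by omega : j ≤ l) hln h1 h4

end Pool.Agent.SixB.Near
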