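import Pool.Agent.Lib.MP_6bd702_z.Z016

/-!
# Step 8, near miss: triangle potentials

A configuration cuts every face into two triangles. A chain of unit edges (`N`) and of bonds (`M`)
modulo 2, without boundary and with bounded support, has a potential on the triangles
(`exists_tri`): `ψ f a` is the value in the triangle of the face `f` with the side `a`. It jumps by
`N a` across the unit edge `a` and by `M f` across the bond of `f`, and vanishes outside of the
support. Connections and paths of unit edges give chains (`chain_conn`, `chain_unit`).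
-/

set_option autoImplicit false

namespace Pool.Agent.SixB.Near

open Finset Pool.Agent.Perc

variable {ω : Cfg} {N N' : UE → ZMod 2} {M M' : ℤ × ℤ → ZMod 2} {x₀ x₁ y₀ y₁ : ℤ}

theorem memRF {f : ℤ × ℤ} : f ∈ RF x₀ x₁ y₀ y₁ ↔ x₀ ≤ f.1 ∧ f.1 < x₁ ∧ y₀ ≤ f.2 ∧ f.2 < y₁ := by
  unfold RF
  rw [mem_product, mem_Ico, mem_Ico]
  omega

/-- The boundary of the chain `(N, M)` at the vertex `v`. -/
noncomputable def dg (ω : Cfg) (N : UE → ZMod 2) (M : ℤ × ℤ → ZMod 2) (v : ℤ × ℤ) : ZMod 2 :=
  (N (v.1, v.2, false) + N (v.1 - 1, v.2, false) + N (v.1, v.2, true) + N (v.1, v.2 - 1, true)) +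
  ((if ω (v.1, v.2) = true then M (v.1, v.2) else 0) +
   (if ω (v.1 - 1, v.2 - 1) = true then M (v.1 - 1, v.2 - 1) else 0) +
   (if ω (v.1 - 1, v.2) = true then 0 else M (v.1 - 1, v.2)) +
   (if ω (v.1, v.2 - 1) = true then 0 else M (v.1, v.2 - 1)))

theorem dg_add (v : ℤ × ℤ) : dg ω (N + N') (M + M') v = dg ω N M v + dg ω N' M' v := by
  unfold dg
  simp only [Pi.add_apply]
  split_ifs <;> ring

/-- The chain is supported in a rectangle. -/
def SupR (x₀ x₁ y₀ y₁ : ℤ) (N : UE → ZMod 2) (M : ℤ × ℤ → ZMod 2) : Prop :=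
  (∀ a, N a ≠ 0 → InR x₀ x₁ y₀ y₁ (ua a) ∧ InR x₀ x₁ y₀ y₁ (ub a)) ∧
    ∀ f, M f ≠ 0 → f ∈ RF x₀ x₁ y₀ y₁

theorem SupR.add (h : SupR x₀ x₁ y₀ y₁ N M) (h' : SupR x₀ x₁ y₀ y₁ N' M') :
    SupR x₀ x₁ y₀ y₁ (N + N') (M + M') := by
  refine ⟨fun a ha => ?_, fun f hf => ?_⟩
  · by_cases h1 : N a = 0
    · exact h'.1 a fun h2 => ha (by simp [h1, h2])
    · exact h.1 a h1
  · by_cases h1 : M f = 0
    · exact h'.2 f fun h2 => hf (by simp [h1, h2])
    · exact h.2 f h1

/-- The chain has bounded support. -/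
def Fin' (N : UE → ZMod 2) (M : ℤ × ℤ → ZMod 2) : Prop := ∃ L : ℤ, SupR (-L) L (-L) L N M

theorem SupR.mono {x₀' x₁' y₀' y₁' : ℤ} (h : SupR x₀ x₁ y₀ y₁ N M) (h1 : x₀' ≤ x₀) (h2 : x₁ ≤ x₁')
    (h3 : y₀' ≤ y₀) (h4 : y₁ ≤ y₁') : SupR x₀' x₁' y₀' y₁' N M := by
  refine ⟨fun a ha => ?_, fun f hf => ?_⟩
  · have := h.1 a ha
    unfold InR at this ⊢
    omega
  · have := h.2 f hf
    rw [memRF] at this ⊢
    omega

theorem SupR.fin (h : SupR x₀ x₁ y₀ y₁ N M) : Fin' N M :=
  ⟨|x₀| + |x₁| + |y₀| + |y₁|, h.mono (by have := neg_abs_le x₀; have := abs_nonneg x₁; have := abs_nonneg y₀; have := abs_nonneg y₁; omega)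
    (by have := le_abs_self x₁; have := abs_nonneg x₀; have := abs_nonneg y₀; have := abs_nonneg y₁; omega)
    (by have := neg_abs_le y₀; have := abs_nonneg x₁; have := abs_nonneg x₀; have := abs_nonneg y₁; omega)
    (by have := le_abs_self y₁; have := abs_nonneg x₀; have := abs_nonneg y₀; have := abs_nonneg x₁; omega)⟩

theorem Fin'.add (h : Fin' N M) (h' : Fin' N' M') : Fin' (N + N') (M + M') := by
  obtain ⟨L, h⟩ := h
  obtain ⟨L', h'⟩ := h'
  refine ⟨max L L', (h.mono ?_ ?_ ?_ ?_).add (h'.mono ?_ ?_ ?_ ?_)⟩ <;>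
    have h1 := le_max_left L L' <;> have h2 := le_max_right L L' <;> omega

/-! ### The potential -/

/-- The value in the lower triangle of a face. -/
noncomputable def low (N : UE → ZMod 2) (M : ℤ × ℤ → ZMod 2) (y₀ : ℤ) (f : ℤ × ℤ) : ZMod 2 :=
  (∑ j ∈ Ico y₀ (f.2 + 1), N (f.1, j, false)) + ∑ j ∈ Ico y₀ f.2, M (f.1, j)

open Classical in
/-- The potential. -/
noncomputable def tri (ω : Cfg) (N : UE → ZMod 2) (M : ℤ × ℤ → ZMod 2) (y₀ : ℤ) (f : ℤ × ℤ)
    (a : UE) : ZMod 2 :=
  low N M y₀ f + if a = to' f ∨ (ω f = true ∧ a = le' f) ∨ (ω f = false ∧ a = ri f) then M f else 0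

theorem low_below (x y : ℤ) (h : y < y₀) : low N M y₀ (x, y) = 0 := by
  unfold low
  simp only
  rw [Finset.Ico_eq_empty (by omega), Finset.Ico_eq_empty (by omega)]
  simp

theorem low_succ (hs : SupR x₀ x₁ y₀ y₁ N M) (x y : ℤ) :
    low N M y₀ (x, y + 1) = low N M y₀ (x, y) + M (x, y) + N (x, y + 1, false) := by
  unfold low
  simp only
  rcases lt_or_ge (y + 1) y₀ with h | h
  · rw [Finset.Ico_eq_empty (by omega), Finset.Ico_eq_empty (by omega),
      Finset.Ico_eq_empty (by omega)]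
    have h1 : M (x, y) = 0 := by
      by_contra h1
      have := hs.2 _ h1
      rw [memRF] at this
      simp only at this
      omega
    have h2 : N (x, y + 1, false) = 0 := by
      by_contra h2
      have := (hs.1 _ h2).1
      unfold InR ua at this
      simp only at this
      omega
    simp [h1, h2]
  · have e1 : Ico y₀ (y + 1 + 1) = insert (y + 1) (Ico y₀ (y + 1)) := by
      ext j
      simp only [mem_Ico, mem_insert]
      omega
    rw [e1, Finset.sum_insert (by simp)]
    rcases eq_or_lt_of_le h with h' | h'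
    · have e2 : Ico y₀ (y + 1) = ∅ := Finset.Ico_eq_empty (by omega)
      have h1 : M (x, y) = 0 := by
        by_contra h1
        have := hs.2 _ h1
        rw [memRF] at this
        simp only at this
        omega
      rw [e2, Finset.Ico_eq_empty (by omega)]
      simp [h1]
    · have e2 : Ico y₀ (y + 1) = insert y (Ico y₀ y) := by
        ext j
        simp only [mem_Ico, mem_insert]
        omega
      have e3 : ∑ j ∈ Ico y₀ (y + 1), M (x, j) = M (x, y) + ∑ j ∈ Ico y₀ y, M (x, j) := by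
        rw [e2, Finset.sum_insert (by simp)]
      rw [e3]
      ring

theorem two_eq (a : ZMod 2) : a + a = 0 := CharTwo.add_self_eq_zero a

theorem tri_bo (f : ℤ × ℤ) : tri ω N M y₀ f (bo f) = low N M y₀ f := by
  obtain ⟨x, y⟩ := f
  simp [tri, bo, to', le', ri]

theorem tri_to (f : ℤ × ℤ) : tri ω N M y₀ f (to' f) = low N M y₀ f + M f := by
  simp [tri]

theorem tri_ri (f : ℤ × ℤ) :
    tri ω N M y₀ f (ri f) = low N M y₀ f + if ω f = true then 0 else M f := by
  obtain ⟨x, y⟩ := f
  cases h : ω (x, y) <;> simp [tri, to', le', ri, h]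

theorem tri_le (f : ℤ × ℤ) :
    tri ω N M y₀ f (le' f) = low N M y₀ f + if ω f = true then M f else 0 := by
  obtain ⟨x, y⟩ := f
  cases h : ω (x, y) <;> simp [tri, to', le', ri, h]

theorem tri_side (hs : SupR x₀ x₁ y₀ y₁ N M) (hd : ∀ v, dg ω N M v = 0) (x y : ℤ) :
    tri ω N M y₀ (x + 1, y) (le' (x + 1, y)) = tri ω N M y₀ (x, y) (ri (x, y)) +
      N (x + 1, y, true) := by
  have key : ∀ k : ℕ, tri ω N M y₀ (x + 1, y₀ - 1 + k) (le' (x + 1, y₀ - 1 + k)) =
      tri ω N M y₀ (x, y₀ - 1 + k) (ri (x, y₀ - 1 + k)) + N (x + 1, y₀ - 1 + k, true) := by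
    intro k
    induction k with
    | zero =>
      rw [tri_le, tri_ri]
      have h1 : ∀ x : ℤ, M (x, y₀ - 1) = 0 := by
        intro x
        by_contra h1
        have := hs.2 _ h1
        rw [memRF] at this
        simp only at this
        omega
      have h2 : N (x + 1, y₀ - 1, true) = 0 := by
        by_contra h2
        have := (hs.1 _ h2).1
        unfold InR ua at this
        simp only at this
        omega
      simp only [Nat.cast_zero, add_zero]
      rw [low_below _ _ (by omega), low_below _ _ (by omega), h1, h1, h2]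
      simp
    | succ k ih =>
      obtain ⟨z, hz⟩ : ∃ z : ℤ, z = y₀ - 1 + k := ⟨_, rfl⟩
      have e : y₀ - 1 + ((k + 1 : ℕ) : ℤ) = z + 1 := by push_cast; omega
      rw [← hz] at ih
      rw [e, tri_le, tri_ri, low_succ hs, low_succ hs]
      rw [tri_le, tri_ri] at ih
      have hv := hd (x + 1, z + 1)
      unfold dg at hv
      simp only [add_sub_cancel_right] at hv
      generalize low N M y₀ (x + 1, z) = A at ih ⊢
      generalize low N M y₀ (x, z) = B at ih ⊢
      generalize N (x + 1, z, true) = a1 at ih hv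
      generalize N (x + 1, z + 1, true) = a2 at hv ⊢
      generalize N (x + 1, z + 1, false) = a3 at hv ⊢
      generalize N (x, z + 1, false) = a4 at hv ⊢
      generalize M (x, z) = m1 at ih hv ⊢
      generalize M (x + 1, z) = m2 at ih hv ⊢
      generalize M (x, z + 1) = m3 at hv ⊢
      generalize M (x + 1, z + 1) = m4 at hv ⊢
      cases h1 : ω (x, z) <;> cases h2 : ω (x + 1, z) <;> cases h3 : ω (x, z + 1) <;>
        cases h4 : ω (x + 1, z + 1) <;>
        simp only [h1, h2, h3, h4, if_true, if_false, Bool.false_eq_true] at ih hv ⊢ <;>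
        linear_combination (norm := (ring_nf; reduce_mod_char)) ih + hv
  rcases lt_or_ge y (y₀ - 1) with h | h
  · rw [tri_le, tri_ri]
    have h1 : ∀ x : ℤ, M (x, y) = 0 := by
      intro x
      by_contra h1
      have := hs.2 _ h1
      rw [memRF] at this
      simp only at this
      omega
    have h2 : N (x + 1, y, true) = 0 := by
      by_contra h2
      have := (hs.1 _ h2).1
      unfold InR ua at this
      simp only at this
      omega
    rw [low_below _ _ (by omega), low_below _ _ (by omega), h1, h1, h2]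
    simp
  · have := key (y - (y₀ - 1)).toNat
    rw [Int.toNat_of_nonneg (by omega)] at this
    simpa using this


theorem tri_out (hs : SupR x₀ x₁ y₀ y₁ N M) (hd : ∀ v, dg ω N M v = 0) {f : ℤ × ℤ} {a : UE}
    (hf : f ∉ RF x₀ x₁ y₀ y₁) : tri ω N M y₀ f a = 0 := by
  have hM : ∀ g : ℤ × ℤ, g ∉ RF x₀ x₁ y₀ y₁ → M g = 0 := fun g hg => by
    by_contra h
    exact hg (hs.2 g h)
  have hN : ∀ b : UE, ¬(InR x₀ x₁ y₀ y₁ (ua b) ∧ InR x₀ x₁ y₀ y₁ (ub b)) → N b = 0 := fun b hb => by
    by_contra h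
    exact hb (hs.1 b h)
  suffices h : low N M y₀ f = 0 by
    unfold tri
    rw [h, hM f hf]
    simp
  -- columns outside
  have col : ∀ x y : ℤ, x < x₀ ∨ x₁ ≤ x → low N M y₀ (x, y) = 0 := by
    intro x y hx
    unfold low
    simp only
    rw [Finset.sum_eq_zero, Finset.sum_eq_zero, add_zero]
    · intro j _
      refine hM _ fun h => ?_
      rw [memRF] at h
      simp only at h
      omega
    · intro j _
      refine hN _ fun h => ?_
      unfold InR ua ub at h
      simp only [Bool.false_eq_true, if_false] at h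
      omega
  obtain ⟨x, y⟩ := f
  rcases lt_or_ge y y₀ with hy | hy
  · exact low_below _ _ hy
  rcases lt_or_ge y y₁ with hy' | hy'
  · refine col x y ?_
    rw [memRF] at hf
    simp only at hf
    omega
  -- above the box
  have step : ∀ x : ℤ, low N M y₀ (x + 1, y) = low N M y₀ (x, y) := by
    intro x
    have h := tri_side hs hd x y
    rw [tri_le, tri_ri, hM (x + 1, y) (by rw [memRF]; simp only; omega),
      hM (x, y) (by rw [memRF]; simp only; omega), hN (x + 1, y, true) (by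
        unfold InR ua ub
        simp only [if_true]
        omega)] at h
    simpa using h
  have up : ∀ k : ℕ, low N M y₀ (x₀ - 1 + k, y) = 0 := by
    intro k
    induction k with
    | zero => exact col _ _ (by simp)
    | succ k ih =>
      have e : x₀ - 1 + ((k + 1 : ℕ) : ℤ) = (x₀ - 1 + k) + 1 := by push_cast; ring
      rw [e, step, ih]
  rcases lt_or_ge x x₀ with hx | hx
  · exact col _ _ (Or.inl hx)
  · have := up (x - (x₀ - 1)).toNat
    rw [Int.toNat_of_nonneg (by omega)] at this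
    simpa using this

/-- `a` and `b` are sides of the same triangle of the face `f`, or of different triangles. -/
theorem tri_cases (f : ℤ × ℤ) {a b : UE} (ha : IsSide f a) (hb : IsSide f b) :
    tri ω N M y₀ f a = tri ω N M y₀ f b ∨ tri ω N M y₀ f a = tri ω N M y₀ f b + M f := by
  have h2 : ∀ m : ZMod 2, m + m = 0 := two_eq
  rcases ha with rfl | rfl | rfl | rfl <;> rcases hb with rfl | rfl | rfl | rfl <;>
    simp only [tri_bo, tri_to, tri_ri, tri_le] <;> cases h : ω f <;> simp [add_assoc, h2]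

/-- **Potential of a closed curve on the triangles.** -/
theorem exists_tri (hs : SupR x₀ x₁ y₀ y₁ N M) (hd : ∀ v, dg ω N M v = 0) :
    ∃ ψ : ℤ × ℤ → UE → ZMod 2,
      (∀ f a a', Mt ω f a a' → ψ f a = ψ f a') ∧
      (∀ f a b, IsSide f a → IsSide f b → ψ f a = ψ f b ∨ ψ f a = ψ f b + M f) ∧
      (∀ f f' a, IsSide f a → IsSide f' a → f ≠ f' → ψ f' a = ψ f a + N a) ∧
      ∀ f a, f ∉ RF x₀ x₁ y₀ y₁ → ψ f a = 0 := by
  refine ⟨tri ω N M y₀, ?_, fun f a b ha hb => tri_cases f ha hb, ?_, fun f a hf => tri_out hs hd hf⟩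
  · intro f a a' h
    rcases h with ⟨h0, (⟨rfl, rfl⟩ | ⟨rfl, rfl⟩ | ⟨rfl, rfl⟩ | ⟨rfl, rfl⟩)⟩ |
      ⟨h0, (⟨rfl, rfl⟩ | ⟨rfl, rfl⟩ | ⟨rfl, rfl⟩ | ⟨rfl, rfl⟩)⟩ <;>
      simp [tri_bo, tri_to, tri_ri, tri_le, h0]
  · -- adjacent faces
    have v1 : ∀ x y : ℤ, tri ω N M y₀ (x, y + 1) (bo (x, y + 1)) =
        tri ω N M y₀ (x, y) (to' (x, y)) + N (x, y + 1, false) := by
      intro x y
      rw [tri_bo, tri_to, low_succ hs]
    have h2 : ∀ m : ZMod 2, m + m = 0 := two_eq
    intro f f' a ha ha' hne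
    obtain ⟨x, y⟩ := f
    obtain ⟨x', y'⟩ := f'
    have hs' := tri_side hs hd
    rcases ha with rfl | rfl | rfl | rfl
    · -- a = bo f
      have e : x' = x ∧ y' + 1 = y := by
        rcases ha' with h | h | h | h <;>
          simp only [bo, le', to', ri, Prod.mk.injEq] at h <;> simp_all
      obtain ⟨rfl, rfl⟩ := e
      have h1 := v1 x' y'
      have e1 : bo (x', y' + 1) = to' (x', y') := rfl
      rw [h1, e1, add_assoc]
      have e2 : to' (x', y') = (x', y' + 1, false) := rfl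
      rw [e2, h2, add_zero]
    · -- a = le' f
      have e : x' + 1 = x ∧ y' = y := by
        rcases ha' with h | h | h | h <;>
          simp only [bo, le', to', ri, Prod.mk.injEq] at h <;> simp_all
      obtain ⟨rfl, rfl⟩ := e
      have h1 := hs' x' y'
      have e1 : le' (x' + 1, y') = ri (x', y') := rfl
      rw [h1, e1, add_assoc]
      have e2 : ri (x', y') = (x' + 1, y', true) := rfl
      rw [e2, h2, add_zero]
    · have e : x' = x ∧ y' = y + 1 := by
        rcases ha' with h | h | h | h <;>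
          simp only [bo, le', to', ri, Prod.mk.injEq] at h <;> simp_all
      obtain ⟨rfl, rfl⟩ := e
      exact v1 x' y
    · have e : x' = x + 1 ∧ y' = y := by
        rcases ha' with h | h | h | h <;>
          simp only [bo, le', to', ri, Prod.mk.injEq] at h <;> simp_all
      obtain ⟨rfl, rfl⟩ := e
      exact hs' x y'

/-! ### Values around a vertex -/

/-- The unit edges at `v`. -/
def AtE (v : ℤ × ℤ) (a : UE) : Prop := v = ua a ∨ v = ub a

/-- The bond of the face `f` ends in `v`. -/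
def AtB (ω : Cfg) (v f : ℤ × ℤ) : Prop := ∃ w, Bond ω {f} v w

/-- A potential of the chain `(N, M)`. -/
structure Tri (ω : Cfg) (N : UE → ZMod 2) (M : ℤ × ℤ → ZMod 2) (ψ : ℤ × ℤ → UE → ZMod 2) : Prop where
  mt : ∀ f a a', Mt ω f a a' → ψ f a = ψ f a'
  bd : ∀ f a b, IsSide f a → IsSide f b → ψ f a = ψ f b ∨ ψ f a = ψ f b + M f
  sd : ∀ f f' a, IsSide f a → IsSide f' a → f ≠ f' → ψ f' a = ψ f a + N a

variable {ψ : ℤ × ℤ → UE → ZMod 2}

/-- A face whose bond is not on the curve has one value. -/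
theorem Tri.face (h : Tri ω N M ψ) {f : ℤ × ℤ} (hf : M f = 0) {a b : UE} (ha : IsSide f a)
    (hb : IsSide f b) : ψ f a = ψ f b := by
  rcases h.bd f a b ha hb with h1 | h1
  · exact h1
  · rw [h1, hf, add_zero]

/-- Two sides of a face at a vertex `v` which is not an end of a bond of the curve in the face. -/
theorem Tri.corner (h : Tri ω N M ψ) {v f : ℤ × ℤ} (hv : AtB ω v f → M f = 0) {a b : UE}
    (ha : IsSide f a) (hb : IsSide f b) (hav : AtE v a) (hbv : AtE v b) : ψ f a = ψ f b := by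
  by_cases hB : AtB ω v f
  · exact h.face (hv hB) ha hb
  · by_cases hab : a = b
    · rw [hab]
    · refine h.mt f a b ?_
      obtain ⟨x, y⟩ := f
      unfold AtB at hB
      have hB' : ∀ w, ¬Bond ω {((x, y) : ℤ × ℤ)} v w := fun w hw => hB ⟨w, hw⟩
      unfold AtE at hav hbv
      unfold Mt
      have b1 : ω (x, y) = true → v ≠ (x, y) ∧ v ≠ (x + 1, y + 1) := fun h0 =>
        ⟨fun e => hB' (x + 1, y + 1) ⟨x, y, rfl, Or.inl ⟨h0, Or.inl ⟨e, rfl⟩⟩⟩,
          fun e => hB' (x, y) ⟨x, y, rfl, Or.inl ⟨h0, Or.inr ⟨e, rfl⟩⟩⟩⟩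
      have b2 : ω (x, y) = false → v ≠ (x, y + 1) ∧ v ≠ (x + 1, y) := fun h0 =>
        ⟨fun e => hB' (x + 1, y) ⟨x, y, rfl, Or.inr ⟨h0, Or.inl ⟨e, rfl⟩⟩⟩,
          fun e => hB' (x, y + 1) ⟨x, y, rfl, Or.inr ⟨h0, Or.inr ⟨e, rfl⟩⟩⟩⟩
      obtain ⟨v1, v2⟩ := v
      cases h0 : ω (x, y)
      · have := b2 h0
        rcases ha with rfl | rfl | rfl | rfl <;> rcases hb with rfl | rfl | rfl | rfl <;>
          simp only [bo, le', to', ri, ua, ub, Prod.mk.injEq, ne_eq, if_true, if_false,
            Bool.false_eq_true, not_true_eq_false, reduceCtorEq, and_false, and_true, true_and,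
            false_and, or_false, false_or, not_and, or_true, true_or] at * <;> omega
      · have := b1 h0
        rcases ha with rfl | rfl | rfl | rfl <;> rcases hb with rfl | rfl | rfl | rfl <;>
          simp only [bo, le', to', ri, ua, ub, Prod.mk.injEq, ne_eq, if_true, if_false,
            Bool.false_eq_true, not_true_eq_false, reduceCtorEq, and_false, and_true, true_and,
            false_and, or_false, false_or, not_and, or_true, true_or] at * <;> omega


/-- The eight pairs of a face and a side at the vertex `v`. -/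
theorem flags {v f : ℤ × ℤ} {a : UE} (ha : IsSide f a) (hv : AtE v a) :
    (f = (v.1, v.2) ∧ (a = (v.1, v.2, false) ∨ a = (v.1, v.2, true))) ∨
    (f = (v.1 - 1, v.2) ∧ (a = (v.1, v.2, true) ∨ a = (v.1 - 1, v.2, false))) ∨
    (f = (v.1 - 1, v.2 - 1) ∧ (a = (v.1 - 1, v.2, false) ∨ a = (v.1, v.2 - 1, true))) ∨
    (f = (v.1, v.2 - 1) ∧ (a = (v.1, v.2 - 1, true) ∨ a = (v.1, v.2, false))) := by
  obtain ⟨x, y⟩ := f
  obtain ⟨v1, v2⟩ := v
  unfold AtE at hv
  rcases ha with rfl | rfl | rfl | rfl <;>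
    simp only [bo, le', to', ri, ua, ub, Prod.mk.injEq, if_true, if_false, Bool.false_eq_true,
      and_true, and_false, or_false, false_or, reduceCtorEq] at * <;> omega

theorem cyc {b0 b1 b2 b3 : Prop} {p0 p0' p1 p1' p2 p2' p3 p3' : ZMod 2} (c0 : ¬b0 → p0 = p0')
    (c1 : ¬b1 → p1 = p1') (c2 : ¬b2 → p2 = p2') (c3 : ¬b3 → p3 = p3') (e1 : ¬b0 → ¬b1 → p1 = p0')
    (e2 : ¬b1 → ¬b2 → p2 = p1') (e3 : ¬b2 → ¬b3 → p3 = p2') (e0 : ¬b3 → ¬b0 → p0 = p3')
    (h0 : b0 → ¬b1 ∧ ¬b2 ∧ ¬b3) (h1 : b1 → ¬b2 ∧ ¬b3) (h2 : b2 → ¬b3) :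
    ∃ q, (¬b0 → p0 = q ∧ p0' = q) ∧ (¬b1 → p1 = q ∧ p1' = q) ∧ (¬b2 → p2 = q ∧ p2' = q) ∧
      (¬b3 → p3 = q ∧ p3' = q) := by
  by_cases h : b0
  · exact ⟨p2, by by_cases h1' : b1 <;> by_cases h2' : b2 <;> by_cases h3' : b3 <;> grind⟩
  · exact ⟨p0, by by_cases h1' : b1 <;> by_cases h2' : b2 <;> by_cases h3' : b3 <;> grind⟩

/-- The values around a vertex `v` in the faces other than `f₀`, if the curve passes through `v` at
most by two sides of `f₀` and by the bond of `f₀`. -/
theorem Tri.vertex' (h : Tri ω N M ψ) {v f₀ : ℤ × ℤ}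
    (hN : ∀ a, AtE v a → ¬IsSide f₀ a → N a = 0) (hM : ∀ f, f ≠ f₀ → AtB ω v f → M f = 0)
    {f f' : ℤ × ℤ} {a a' : UE} (ha : IsSide f a) (ha' : IsSide f' a') (hv : AtE v a)
    (hv' : AtE v a') (hf : f ≠ f₀) (hf' : f' ≠ f₀) : ψ f a = ψ f' a' := by
  obtain ⟨x, y⟩ := v
  have s00 : IsSide (x, y) (x, y, false) := Or.inl rfl
  have s01 : IsSide (x, y) (x, y, true) := Or.inr (Or.inl rfl)
  have s11 : IsSide (x - 1, y) (x, y, true) := by
    right; right; right; simp [ri]
  have s12 : IsSide (x - 1, y) (x - 1, y, false) := Or.inl rfl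
  have s22 : IsSide (x - 1, y - 1) (x - 1, y, false) := by
    right; right; left; simp [to']
  have s23 : IsSide (x - 1, y - 1) (x, y - 1, true) := by
    right; right; right; simp [ri]
  have s33 : IsSide (x, y - 1) (x, y - 1, true) := Or.inr (Or.inl rfl)
  have s30 : IsSide (x, y - 1) (x, y, false) := by
    right; right; left; simp [to']
  have a0 : AtE (x, y) (x, y, false) := Or.inl rfl
  have a1 : AtE (x, y) (x, y, true) := Or.inl rfl
  have a2 : AtE (x, y) (x - 1, y, false) := by right; simp [ub]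
  have a3 : AtE (x, y) (x, y - 1, true) := by right; simp [ub]
  have ne1 : ((x, y) : ℤ × ℤ) ≠ (x - 1, y) := by
    intro h; have := congrArg Prod.fst h; simp only at this; omega
  have ne2 : ((x - 1, y) : ℤ × ℤ) ≠ (x - 1, y - 1) := by
    intro h; have := congrArg Prod.snd h; simp only at this; omega
  have ne3 : ((x - 1, y - 1) : ℤ × ℤ) ≠ (x, y - 1) := by
    intro h; have := congrArg Prod.fst h; simp only at this; omega
  have ne0 : ((x, y - 1) : ℤ × ℤ) ≠ (x, y) := by
    intro h; have := congrArg Prod.snd h; simp only at this; omega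
  have ne4 : ((x, y) : ℤ × ℤ) ≠ (x - 1, y - 1) := by
    intro h; have := congrArg Prod.fst h; simp only at this; omega
  have ne5 : ((x - 1, y) : ℤ × ℤ) ≠ (x, y - 1) := by
    intro h; have := congrArg Prod.fst h; simp only at this; omega
  -- a unit edge at the vertex is a side of `f₀` only if `f₀` is one of its two faces
  have n1 : IsSide f₀ (x, y, true) → f₀ = (x, y) ∨ f₀ = (x - 1, y) := fun hn => by
    rcases flags hn a1 with h | h | h | h
    · exact Or.inl h.1
    · exact Or.inr h.1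
    · rcases h.2 with h | h <;> simp only [Prod.mk.injEq] at h
      · simp at h
      · omega
    · rcases h.2 with h | h <;> simp only [Prod.mk.injEq] at h
      · omega
      · simp at h
  have n2 : IsSide f₀ (x - 1, y, false) → f₀ = (x - 1, y) ∨ f₀ = (x - 1, y - 1) := fun hn => by
    rcases flags hn a2 with h | h | h | h
    · rcases h.2 with h | h <;> simp only [Prod.mk.injEq] at h
      · omega
      · simp at h
    · exact Or.inl h.1
    · exact Or.inr h.1
    · rcases h.2 with h | h <;> simp only [Prod.mk.injEq] at h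
      · simp at h
      · omega
  have n3 : IsSide f₀ (x, y - 1, true) → f₀ = (x - 1, y - 1) ∨ f₀ = (x, y - 1) := fun hn => by
    rcases flags hn a3 with h | h | h | h
    · rcases h.2 with h | h <;> simp only [Prod.mk.injEq] at h
      · simp at h
      · omega
    · rcases h.2 with h | h <;> simp only [Prod.mk.injEq] at h
      · omega
      · simp at h
    · exact Or.inl h.1
    · exact Or.inr h.1
  have n0 : IsSide f₀ (x, y, false) → f₀ = (x, y - 1) ∨ f₀ = (x, y) := fun hn => by
    rcases flags hn a0 with h | h | h | h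
    · exact Or.inr h.1
    · rcases h.2 with h | h <;> simp only [Prod.mk.injEq] at h
      · simp at h
      · omega
    · rcases h.2 with h | h <;> simp only [Prod.mk.injEq] at h
      · omega
      · simp at h
    · exact Or.inl h.1
  obtain ⟨q, q0, q1, q2, q3⟩ := cyc (b0 := f₀ = (x, y)) (b1 := f₀ = (x - 1, y))
    (b2 := f₀ = (x - 1, y - 1)) (b3 := f₀ = (x, y - 1))
    (p0 := ψ (x, y) (x, y, false)) (p0' := ψ (x, y) (x, y, true))
    (p1 := ψ (x - 1, y) (x, y, true)) (p1' := ψ (x - 1, y) (x - 1, y, false))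
    (p2 := ψ (x - 1, y - 1) (x - 1, y, false)) (p2' := ψ (x - 1, y - 1) (x, y - 1, true))
    (p3 := ψ (x, y - 1) (x, y - 1, true)) (p3' := ψ (x, y - 1) (x, y, false))
    (fun hn => h.corner (hM _ (Ne.symm hn)) s00 s01 a0 a1)
    (fun hn => h.corner (hM _ (Ne.symm hn)) s11 s12 a1 a2)
    (fun hn => h.corner (hM _ (Ne.symm hn)) s22 s23 a2 a3)
    (fun hn => h.corner (hM _ (Ne.symm hn)) s33 s30 a3 a0)
    (fun h1 h2 => by
      rw [h.sd _ _ _ s01 s11 ne1, hN _ a1 fun hn => (n1 hn).elim h1 h2, add_zero])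
    (fun h1 h2 => by
      rw [h.sd _ _ _ s12 s22 ne2, hN _ a2 fun hn => (n2 hn).elim h1 h2, add_zero])
    (fun h1 h2 => by
      rw [h.sd _ _ _ s23 s33 ne3, hN _ a3 fun hn => (n3 hn).elim h1 h2, add_zero])
    (fun h1 h2 => by
      rw [h.sd _ _ _ s30 s00 ne0, hN _ a0 fun hn => (n0 hn).elim h1 h2, add_zero])
    (by rintro rfl; exact ⟨ne1, ne4, ne0.symm⟩)
    (by rintro rfl; exact ⟨ne2, ne5⟩)
    (by rintro rfl; exact ne3)
  have key : ∀ g b, IsSide g b → AtE (x, y) b → g ≠ f₀ → ψ g b = q := by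
    intro g b hg hb hgf
    rcases flags hg hb with ⟨rfl, (rfl | rfl)⟩ | ⟨rfl, (rfl | rfl)⟩ | ⟨rfl, (rfl | rfl)⟩ |
      ⟨rfl, (rfl | rfl)⟩
    · exact (q0 (Ne.symm hgf)).1
    · exact (q0 (Ne.symm hgf)).2
    · exact (q1 (Ne.symm hgf)).1
    · exact (q1 (Ne.symm hgf)).2
    · exact (q2 (Ne.symm hgf)).1
    · exact (q2 (Ne.symm hgf)).2
    · exact (q3 (Ne.symm hgf)).1
    · exact (q3 (Ne.symm hgf)).2
  rw [key f a ha hv hf, key f' a' ha' hv' hf']

/-- The values around a vertex which is not on the curve. -/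
theorem Tri.vertex (h : Tri ω N M ψ) {v : ℤ × ℤ} (hN : ∀ a, AtE v a → N a = 0)
    (hM : ∀ f, AtB ω v f → M f = 0) {f f' : ℤ × ℤ} {a a' : UE} (ha : IsSide f a)
    (ha' : IsSide f' a') (hv : AtE v a) (hv' : AtE v a') : ψ f a = ψ f' a' := by
  refine h.vertex' (f₀ := (v.1 + 7, v.2)) (fun a ha _ => hN a ha) (fun f _ hf => hM f hf) ha ha' hv
    hv' ?_ ?_
  · rintro rfl
    rcases flags ha hv with h | h | h | h <;> have := congrArg Prod.fst h.1 <;> simp at this <;> omega
  · rintro rfl
    rcases flags ha' hv' with h | h | h | h <;> have := congrArg Prod.fst h.1 <;> simp at this <;> omega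

/-! ### Chains -/

open Classical in
/-- The indicator of a unit edge. -/
noncomputable def oneE (a : UE) : UE → ZMod 2 := fun b => if b = a then 1 else 0

open Classical in
/-- The indicator of a face. -/
noncomputable def oneF (f : ℤ × ℤ) : ℤ × ℤ → ZMod 2 := fun g => if g = f then 1 else 0

open Classical in
/-- The indicator of a vertex. -/
noncomputable def pnt (v : ℤ × ℤ) : ℤ × ℤ → ZMod 2 := fun x => if x = v then 1 else 0

theorem pnt_self (v : ℤ × ℤ) : pnt v v = 1 := by simp [pnt]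

theorem pnt_ne {v x : ℤ × ℤ} (h : x ≠ v) : pnt v x = 0 := by simp [pnt, h]

theorem dg_oneE {a : UE} {p q : ℤ × ℤ} (h : Joins a p q) (x : ℤ × ℤ) :
    dg ω (oneE a) 0 x = pnt p x + pnt q x := by
  have key : ∀ x : ℤ × ℤ, dg ω (oneE a) 0 x = pnt (ua a) x + pnt (ub a) x := by
    intro x
    obtain ⟨a1, a2, b⟩ := a
    obtain ⟨x1, x2⟩ := x
    unfold dg oneE pnt ua ub
    cases b <;> simp only [Prod.mk.injEq, Pi.zero_apply, ite_self, add_zero, if_true, if_false,
      Bool.false_eq_true, and_true, and_false, reduceCtorEq, zero_add] <;>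
      split_ifs <;> first | rfl | omega
  rcases h with ⟨rfl, rfl⟩ | ⟨rfl, rfl⟩
  · exact key x
  · rw [key x, add_comm]

theorem dg_oneF {f p q : ℤ × ℤ} (h : Bond ω {f} p q) (x : ℤ × ℤ) :
    dg ω 0 (oneF f) x = pnt p x + pnt q x := by
  obtain ⟨f1, f2, hf, h⟩ := h
  rw [Set.mem_singleton_iff] at hf
  subst hf
  obtain ⟨x1, x2⟩ := x
  unfold dg oneF pnt
  have e : ∀ g1 g2 : ℤ, (if (g1, g2) = ((f1, f2) : ℤ × ℤ) then (1 : ZMod 2) else 0) =
    if g1 = f1 ∧ g2 = f2 then 1 else 0 := by
      intro g1 g2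
      simp only [Prod.mk.injEq]
  simp only [Pi.zero_apply, zero_add, add_zero]
  have c0 : ∀ g1 g2 : ℤ, (if ω (g1, g2) = true then
      (if (g1, g2) = ((f1, f2) : ℤ × ℤ) then (1 : ZMod 2) else 0) else 0) =
      if g1 = f1 ∧ g2 = f2 ∧ ω (f1, f2) = true then 1 else 0 := by
    intro g1 g2
    by_cases h1 : ((g1, g2) : ℤ × ℤ) = (f1, f2)
    · rw [h1]
      simp only [Prod.mk.injEq] at h1
      simp [h1.1, h1.2]
    · rw [if_neg h1, ite_self, if_neg]
      rintro ⟨a, b, -⟩
      exact h1 (by rw [a, b])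
  have c1 : ∀ g1 g2 : ℤ, (if ω (g1, g2) = true then 0 else
      (if (g1, g2) = ((f1, f2) : ℤ × ℤ) then (1 : ZMod 2) else 0)) =
      if g1 = f1 ∧ g2 = f2 ∧ ω (f1, f2) = false then 1 else 0 := by
    intro g1 g2
    by_cases h1 : ((g1, g2) : ℤ × ℤ) = (f1, f2)
    · rw [h1]
      simp only [Prod.mk.injEq] at h1
      cases h0 : ω (f1, f2) <;> simp [h1.1, h1.2]
    · rw [if_neg h1, ite_self, if_neg]
      rintro ⟨a, b, -⟩
      exact h1 (by rw [a, b])
  rw [c0, c0, c1, c1]
  rcases h with ⟨h0, (⟨rfl, rfl⟩ | ⟨rfl, rfl⟩)⟩ | ⟨h0, (⟨rfl, rfl⟩ | ⟨rfl, rfl⟩)⟩ <;>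
    simp only [h0, and_true, reduceCtorEq, and_false, if_false, Prod.mk.injEq, add_zero,
      zero_add] <;> split_ifs <;> first | rfl | omega

/-- **The chain of a connection.** -/
theorem chain_conn {F : Set (ℤ × ℤ)} {u v : ℤ × ℤ} (h : Conn ω F u v) :
    ∃ M : ℤ × ℤ → ZMod 2, (∀ f, M f ≠ 0 → f ∈ F ∧ ∃ p q, Bond ω {f} p q ∧ Conn ω F u p ∧ Conn ω F u q) ∧
      Fin' 0 M ∧ ∀ x, dg ω 0 M x = pnt u x + pnt v x := by
  induction h with
  | refl =>
    refine ⟨0, fun f hf => absurd rfl hf, ⟨0, fun a ha => absurd rfl ha, fun f hf => absurd rfl hf⟩,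
      fun x => ?_⟩
    rw [two_eq]
    simp [dg]
  | @tail v w hv hb ih =>
    obtain ⟨M, h1, h2, h3⟩ := ih
    obtain ⟨f, hf, hb', hc1, hc2⟩ := hb.exists_face
    refine ⟨M + oneF f, fun g hg => ?_, ?_, fun x => ?_⟩
    · by_cases hM : M g = 0
      · have : g = f := by
          by_contra hne
          exact hg (by simp [hM, oneF, hne])
        subst this
        exact ⟨hf, v, w, hb', hv, hv.tail hb⟩
      · exact h1 g hM
    · have : Fin' 0 (oneF f) := by
        refine ⟨|f.1| + |f.2| + 1, fun a ha => absurd rfl ha, fun g hg => ?_⟩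
        have e : g = f := by
          by_contra hne
          exact hg (by simp [oneF, hne])
        subst e
        rw [memRF]
        have a1 := neg_abs_le g.1
        have a2 := le_abs_self g.1
        have a3 := neg_abs_le g.2
        have a4 := le_abs_self g.2
        have a5 := abs_nonneg g.1
        have a6 := abs_nonneg g.2
        omega
      have := h2.add this
      simpa using this
    · have e : (0 : UE → ZMod 2) = 0 + 0 := (add_zero 0).symm
      rw [e, dg_add, h3, dg_oneF hb']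
      have := two_eq (pnt v x)
      linear_combination this

/-- **The chain of a path of unit edges**: `K p a` is the restriction on the step from `p` along
the unit edge `a`. -/
theorem chain_unit {K : ℤ × ℤ → UE → Prop} {u v : ℤ × ℤ}
    (h : Relation.ReflTransGen (fun p q => ∃ a, K p a ∧ Joins a p q) u v) :
    ∃ N : UE → ZMod 2, (∀ a, N a ≠ 0 → ∃ p q, K p a ∧ Joins a p q ∧
        Relation.ReflTransGen (fun p q => ∃ a, K p a ∧ Joins a p q) u p ∧
        Relation.ReflTransGen (fun p q => ∃ a, K p a ∧ Joins a p q) q v) ∧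
      Fin' N 0 ∧ ∀ x, dg ω N 0 x = pnt u x + pnt v x := by
  induction h with
  | refl =>
    refine ⟨0, fun f hf => absurd rfl hf, ⟨0, fun a ha => absurd rfl ha, fun f hf => absurd rfl hf⟩,
      fun x => ?_⟩
    rw [two_eq]
    simp [dg]
  | @tail v w hv hb ih =>
    obtain ⟨N, h1, h2, h3⟩ := ih
    obtain ⟨a, ha, hj⟩ := hb
    refine ⟨N + oneE a, fun b hb => ?_, ?_, fun x => ?_⟩
    · by_cases hN : N b = 0
      · have : b = a := by
          by_contra hne
          exact hb (by simp [hN, oneE, hne])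
        subst this
        exact ⟨v, w, ha, hj, hv, Relation.ReflTransGen.refl⟩
      · obtain ⟨p, q, k1, k2, k3, k4⟩ := h1 b hN
        exact ⟨p, q, k1, k2, k3, k4.tail ⟨a, ha, hj⟩⟩
    · have : Fin' (oneE a) 0 := by
        refine ⟨|a.1| + |a.2.1| + 2, fun b hb => ?_, fun f hf => absurd rfl hf⟩
        have e : b = a := by
          by_contra hne
          exact hb (by simp [oneE, hne])
        subst e
        obtain ⟨b1, b2, b3⟩ := b
        have a1 := neg_abs_le b1
        have a2 := le_abs_self b1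
        have a3 := neg_abs_le b2
        have a4 := le_abs_self b2
        have a5 := abs_nonneg b1
        have a6 := abs_nonneg b2
        unfold InR ua ub
        cases b3 <;> simp only [if_true, if_false, Bool.false_eq_true] <;> omega
      have := h2.add this
      simpa using this
    · have e : (0 : ℤ × ℤ → ZMod 2) = 0 + 0 := (add_zero 0).symm
      rw [e, dg_add, h3, dg_oneE hj]
      have := two_eq (pnt v x)
      linear_combination this

end Pool.Agent.SixB.Near
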