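import Pool.Agent.Lib.SixB.S8Caps
import Pool.Agent.Lib.SixB.S8Tri
import Pool.Agent.Lib.SixB.S8Lay

/-!
# Step 8: no return

Let `Loc E ω s g` be the set of the faces which are fresh at the time `s` and inside the box of radius
`g - 1` around the tip, and `ReachAt E ω s l₁ g` the component (by chains of adjacent faces) of
`Loc E ω s g` which contains the face visited at the time `l₁ ≥ s`; `Reach` is the case `l₁ = s`.

* `cut_off` (deterministic): if the strand, after its last time in this box, touches the wall of colour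
  `0` and the wall of colour `1` of the time `s` then it never crosses again a side of a face of a
  component of `Loc` which it has visited since the time `s`. Proof: the two touches, the walls and
  the tip give one closed curve of bonds and two unit edges which is crossed by the strand only at
  the time `s` and at the second touch.
* `pr_no_return`: at a stopping time the conditional probability that the strand goes to distance `R`
  and crosses afterwards a side of a face of a component of `Loc` which it has visited is at most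
  `C (g / R) ^ α`.
* `pr_stay`: the same for a set `K` of unit edges one of which is crossed at the end of the
  exploration: if `K` is near the tip then the strand stays in the box of radius `R` until it
  crosses `K`.

Uses: end of a needle step (target near the tip), stored components (the strand stops at a gap and
does not go far into the component behind it), rooms with a narrow mouth.
-/

set_option autoImplicit false

namespace Pool.Agent.SixB

open Finset Pool.Agent.Perc Pool.Agent.PercT Pool.Agent.Perc6 Pool.Agent.SixB.Near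
  Pool.Agent.SixB.NearCut Pool.Agent.SixB.Top

section Det

variable {ω : Cfg} {e : UE} {c : ℤ} {G T : Set (ℤ × ℤ)} {k₁ k₂ l l₁ m n s : ℕ} {h : ℤ × ℤ}

private theorem fin_oneE (a : UE) : Fin' (oneE a) 0 := by
  refine ⟨|a.1| + |a.2.1| + 2, fun b hb => ?_, fun f hf => absurd rfl hf⟩
  have e : b = a := by
    by_contra hne
    exact hb (by simp [oneE, hne])
  subst e
  obtain ⟨b1, b2, b3⟩ := b
  have a1 := neg_abs_le b1
  have a2 := le_abs_self b1
  have a3 := neg_abs_le b2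
  have a4 := le_abs_self b2
  have a5 := abs_nonneg b1
  have a6 := abs_nonneg b2
  unfold InR ua ub
  cases b3 <;> simp only [if_true, if_false, Bool.false_eq_true] <;> omega

private theorem oneE_self (a : UE) : oneE a a = 1 := by simp [oneE]

private theorem oneE_ne {a b : UE} (h : b ≠ a) : oneE a b = 0 := by simp [oneE, h]

/-- **Cut off.** `G` is a set of faces off `T`; at the times `k₁ < k₂` the strand is joined by bonds of
`T` on the side of colour `1 - c`, resp. `c`, to the tip of the time `s`; between these times it does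
not visit `G`. Then after the time `k₂` the strand does not cross sides of faces which are joined by
chains in `G` to a face of `G` visited between the times `s` and `k₂`. -/
theorem cut_off_abs (hn : Nb ω e n) (hc : c = 0 ∨ c = 1) (h1 : s ≤ k₁) (h12 : k₁ < k₂)
    (hm : k₂ < m) (hmn : m ≤ n) (hT : ∀ f ∈ G, f ∉ T)
    (hY : Conn ω T (en (1 - c) (pth ω e s)) (en (1 - c) (pth ω e k₁)))
    (hX : Conn ω T (en c (pth ω e s)) (en c (pth ω e k₂)))
    (hl1 : s ≤ l₁) (hl2 : l₁ < k₂) (hG0 : fa (pth ω e l₁) ∈ G) (hGv : ∀ l, k₁ ≤ l → l < k₂ → fa (pth ω e l) ∉ G)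
    (hs1 : fb (pth ω e s) ∉ G) (hs2 : ∀ f ∈ G, ¬ IsSide f (pth ω e k₂))
    (hch : ChI G (fa (pth ω e l₁)) h) : ¬ IsSide h (pth ω e m) := by
  classical
  obtain ⟨M1, a1, a2, a3⟩ := chain_conn hY
  obtain ⟨M2, b1, b2, b3⟩ := chain_conn (conn_pth_vs (ω := ω) (e := e) (zc hc) h12.le)
  obtain ⟨M3, c1, c2, c3⟩ := chain_conn hX
  -- the closed curve
  set N : UE → ZMod 2 := oneE (pth ω e s) + oneE (pth ω e k₂) with hN
  set M : ℤ × ℤ → ZMod 2 := M1 + M2 + M3 with hM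
  have hfin : Fin' N M := by
    have := (((a2.add b2).add c2).add (fin_oneE (pth ω e s))).add (fin_oneE (pth ω e k₂))
    simpa [hN, hM, add_assoc] using this
  have hdg : ∀ v, dg ω N M v = 0 := by
    intro v
    have e1 : N = (0 + 0 + 0) + oneE (pth ω e s) + oneE (pth ω e k₂) := by
      rw [hN]
      simp
    have e2 : M = (M1 + M2 + M3) + 0 + 0 := by
      rw [hM]
      simp
    rw [e1, e2, dg_add, dg_add, dg_add, dg_add, a3, b3, c3,
      dg_oneE (en_joins' hc (pth ω e s)), dg_oneE (en_joins' hc (pth ω e k₂))]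
    generalize pnt (en (1 - c) (pth ω e s)) v = x1
    generalize pnt (en (1 - c) (pth ω e k₁)) v = x2
    generalize pnt (en (1 - c) (pth ω e k₂)) v = x3
    generalize pnt (en c (pth ω e s)) v = x4
    generalize pnt (en c (pth ω e k₂)) v = x5
    revert x1 x2 x3 x4 x5
    decide
  obtain ⟨L, hL⟩ := hfin
  obtain ⟨ψ, p1, p2, p3, -⟩ := exists_tri hL hdg
  have hψ : Tri ω N M ψ := ⟨p1, p2, p3⟩
  -- the curve has no bond in `G`
  have hM0 : ∀ f ∈ G, M f = 0 := by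
    intro f hf
    have e1 : M1 f = 0 := by
      by_contra h0
      exact hT f hf (a1 f h0).1
    have e3 : M3 f = 0 := by
      by_contra h0
      exact hT f hf (c1 f h0).1
    have e2 : M2 f = 0 := by
      by_contra h0
      obtain ⟨l, l1, l2, l3⟩ := mem_vs.1 (Finset.mem_coe.1 (b1 f h0).1)
      exact hGv l l1 l2 (l3 ▸ hf)
    simp [hM, e1, e2, e3]
  -- the values along the strand
  have hNl : ∀ l, l ≤ n → l ≠ s → l ≠ k₂ → N (pth ω e l) = 0 := by
    intro l hl g1 g2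
    rw [hN]
    simp only [Pi.add_apply]
    rw [oneE_ne fun h => g1 (hn.inj hl (by omega) h), oneE_ne fun h => g2 (hn.inj hl (by omega) h),
      add_zero]
  have hstep : ∀ l, ψ (fa (pth ω e (l + 1))) (pth ω e (l + 1)) =
      ψ (fa (pth ω e l)) (pth ω e l) + N (pth ω e (l + 1)) := by
    intro l
    have g1 : fb (pth ω e (l + 1)) = fa (pth ω e l) := fb_pth_succ ω e l
    rw [p3 (fb (pth ω e (l + 1))) (fa (pth ω e (l + 1))) (pth ω e (l + 1)) (isSide_fb _)
      (isSide_fa _) (fa_ne_fb _).symm, g1, ← p1 _ _ _ (mt_pth ω e l)]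
  have hk2 : N (pth ω e k₂) = 1 := by
    rw [hN]
    simp only [Pi.add_apply]
    rw [oneE_self, oneE_ne, zero_add]
    intro h
    have := hn.inj (by omega) (by omega) h
    omega
  have v1 : ∀ l, s ≤ l → l < k₂ → ψ (fa (pth ω e l)) (pth ω e l) =
      ψ (fa (pth ω e s)) (pth ω e s) := by
    intro l hl
    induction l, hl using Nat.le_induction with
    | base => intro _; rfl
    | succ l hl ih =>
      intro h2
      rw [hstep, ih (by omega), hNl (l + 1) (by omega) (by omega) (by omega), add_zero]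
  have v2 : ∀ l, k₂ ≤ l → l ≤ n → ψ (fa (pth ω e l)) (pth ω e l) =
      ψ (fa (pth ω e s)) (pth ω e s) + 1 := by
    intro l hl
    induction l, hl using Nat.le_induction with
    | base =>
      intro _
      obtain ⟨k, rfl⟩ : ∃ k, k₂ = k + 1 := ⟨k₂ - 1, by omega⟩
      rw [hstep, hk2, v1 k (by omega) (by omega)]
    | succ l hl ih =>
      intro h2
      rw [hstep, ih (by omega), hNl (l + 1) h2 (by omega) (by omega), add_zero]
  -- the value on the faces joined to the tip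
  have key : ∀ f, ChI G (fa (pth ω e l₁)) f → f ∈ G ∧ ∀ a, IsSide f a →
      ψ f a = ψ (fa (pth ω e s)) (pth ω e s) := by
    intro f hf
    induction hf with
    | refl =>
      refine ⟨hG0, fun a ha => ?_⟩
      rw [hψ.face (hM0 _ hG0) ha (isSide_fa _)]
      exact v1 l₁ hl1 hl2
    | @tail f f' _ hst ih =>
      obtain ⟨⟨hne, a, ha, ha'⟩, hf'⟩ := hst
      obtain ⟨ih1, ih2⟩ := ih
      refine ⟨hf', fun b hb => ?_⟩
      have hNa : N a = 0 := by
        have g1 : a ≠ pth ω e s := by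
          rintro rfl
          rcases isSide_iff.1 ha with h3 | h3
          · rcases isSide_iff.1 ha' with h4 | h4
            · exact hne (h3.trans h4.symm)
            · exact hs1 (h4 ▸ hf')
          · exact hs1 (h3 ▸ ih1)
        have g2 : a ≠ pth ω e k₂ := by
          rintro rfl
          exact hs2 f ih1 ha
        rw [hN]
        simp only [Pi.add_apply]
        rw [oneE_ne g1, oneE_ne g2, add_zero]
      rw [hψ.face (hM0 _ hf') hb ha', p3 f f' a ha ha' hne, hNa, add_zero]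
      exact ih2 a ha
  intro hside
  obtain ⟨g1, g2⟩ := key h hch
  have g3 := g2 _ hside
  have g4 := v2 m hm.le hmn
  have g5 : ψ h (pth ω e m) = ψ (fa (pth ω e m)) (pth ω e m) := by
    rcases isSide_iff.1 hside with h5 | h5
    · rw [h5]
    · rw [h5, p3 (fa (pth ω e m)) (fb (pth ω e m)) (pth ω e m) (isSide_fa _) (isSide_fb _)
        (fa_ne_fb _), hNl m hmn (by omega) (by omega), add_zero]
  rw [g5, g4] at g3
  revert g3
  generalize ψ (fa (pth ω e s)) (pth ω e s) = x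
  revert x
  decide

end Det

namespace Ex

variable {E : Ex} {S : Cfg → Set (ℤ × ℤ)} {ω : Cfg} {c : ℤ} {i j k l l₁ m n s t : ℕ}
  {z h : ℤ × ℤ} {r R g : ℤ}

/-- The faces which are fresh at the time `s` and all sides of which are in the box of radius `g - 1`
around the tip. -/
def Loc (E : Ex) (ω : Cfg) (s : ℕ) (g : ℤ) : Set (ℤ × ℤ) :=
  {f | f ∈ E.Fr ω s ∧ ∀ a, IsSide f a → InB (ua (E.p ω s)) (g - 1) a}

/-- The faces which are joined to the face visited at the time `l₁` by chains of faces which are fresh at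
the time `s` and inside the box of radius `g - 1` around the tip of the time `s`. -/
def ReachAt (E : Ex) (ω : Cfg) (s l₁ : ℕ) (g : ℤ) : Set (ℤ × ℤ) :=
  {h | fa (E.p ω l₁) ∈ E.Loc ω s g ∧ ChI (E.Loc ω s g) (fa (E.p ω l₁)) h}

/-- The faces which are joined to the face in front of the tip by chains of fresh faces inside the
box of radius `g - 1` around the tip. -/
def Reach (E : Ex) (ω : Cfg) (s : ℕ) (g : ℤ) : Set (ℤ × ℤ) := E.ReachAt ω s s g

theorem ReachAt.mem (hh : h ∈ E.ReachAt ω s l₁ g) : h ∈ E.Loc ω s g := ChI.mem hh.1 hh.2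

theorem ReachAt.mono {g' : ℤ} (hg : g ≤ g') : E.ReachAt ω s l₁ g ⊆ E.ReachAt ω s l₁ g' := by
  have hL : E.Loc ω s g ⊆ E.Loc ω s g' := fun f hf => ⟨hf.1, fun a ha => (hf.2 a ha).mono (by omega)⟩
  rintro h ⟨h1, h2⟩
  exact ⟨hL h1, h2.mono hL⟩

/-- A connected set of local fresh faces which contains a visited face. -/
theorem sub_reachAt {K : Set (ℤ × ℤ)} (hK : ∀ f ∈ K, f ∈ E.Loc ω s g)
    (hc : ∀ f ∈ K, ChI K (fa (E.p ω l₁)) f) (h0 : fa (E.p ω l₁) ∈ K) : K ⊆ E.ReachAt ω s l₁ g :=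
  fun f hf => ⟨hK _ h0, (hc f hf).mono hK⟩

theorem fb_not_fr (hb : fb (E.e ω) ∉ E.U ω) : fb (E.p ω s) ∉ E.Fr ω s := by
  cases s with
  | zero => exact fun h => hb h.1
  | succ s =>
    have e1 : fb (E.p ω (s + 1)) = fa (E.p ω s) := fb_pth_succ _ _ _
    rw [e1]
    exact fa_not_fr (Nat.lt_succ_self s)

/-- The sides of colour `c` of the tip and of a touch of colour `c` are joined by the walls. -/
theorem conn_touch (hW : E.Wll ω) (hc : c = 0 ∨ c = 1) (h : E.Touch c ω s k) :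
    Conn (E.cf ω) (E.Fr ω s)ᶜ (en c (E.p ω s)) (en c (E.p ω k)) :=
  (conn_symm' (sid_strand hc le_rfl)).trans (sid_touch hW hc h)

/-- **Cut off**, two touches. -/
theorem cut_off_two (hW : E.Wll ω) (hb : fb (E.e ω) ∉ E.U ω) (hn : Nb (E.cf ω) (E.e ω) n)
    (hc : c = 0 ∨ c = 1) (hsi : s ≤ i) (hin : ∀ k, i < k → k ≤ l → ¬ InB (ua (E.p ω s)) (g - 1)
      (E.p ω k)) (hik : i ≤ j) (hjk : j < k) (hkl : k < l) (h0 : E.Touch (1 - c) ω s j)
    (h1 : E.Touch c ω s k) (hlm : l ≤ m) (hmn : m ≤ n) (hsl : s ≤ l₁) (hll : l₁ ≤ l)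
    (hh : h ∈ E.ReachAt ω s l₁ g) : ¬ IsSide h (E.p ω m) := by
  have hl1 : l₁ ≤ i := by
    by_contra hlt
    exact hin l₁ (by omega) hll (hh.1.2 _ (isSide_fa _))
  refine cut_off_abs (T := (E.Fr ω s)ᶜ) (G := E.Loc ω s g) hn hc (by omega) hjk
    (show k < m by omega) hmn (fun f hf h' => h' hf.1) (conn_touch hW (zc hc) h0)
    (conn_touch hW hc h1) hsl (by omega) hh.1 (fun l' l1 l2 hf => ?_)
    (fun hf => fb_not_fr hb hf.1) (fun f hf hs => hin k (by omega) (by omega) (hf.2 _ hs)) hh.2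
  have e1 : IsSide (fa (E.p ω l')) (E.p ω (l' + 1)) := by
    have e2 : fb (E.p ω (l' + 1)) = fa (E.p ω l') := fb_pth_succ _ _ _
    rw [← e2]
    exact isSide_fb _
  exact hin (l' + 1) (by omega) (by omega) (hf.2 _ e1)

/-- **Cut off.** After two passages with touches of both colours the strand does not come back to
the faces which were joined to the tip. -/
theorem cut_off (hW : E.Wll ω) (hb : fb (E.e ω) ∉ E.U ω) (hn : Nb (E.cf ω) (E.e ω) n)
    (hP : Passages E ω s l (ua (E.p ω s)) g) (hlm : l ≤ m) (hmn : m ≤ n) (hsl : s ≤ l₁)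
    (hll : l₁ ≤ l) (hh : h ∈ E.ReachAt ω s l₁ g) : ¬ IsSide h (E.p ω m) := by
  obtain ⟨i, j, h1, h2, h3, h4, h5, -⟩ := hP
  obtain ⟨k₀, a1, a2, a3⟩ := h5 0 (Or.inl rfl)
  obtain ⟨k₁, b1, b2, b3⟩ := h5 1 (Or.inr rfl)
  rcases lt_trichotomy k₀ k₁ with h6 | h6 | h6
  · exact cut_off_two (c := 1) hW hb hn (Or.inr rfl) h1 h4 a1 h6 (by omega) a3 b3 hlm hmn hsl
      hll hh
  · subst h6
    exact absurd b3.2 (cl_not (Or.inl rfl) a3.2)
  · exact cut_off_two (c := 0) hW hb hn (Or.inl rfl) h1 h4 b1 h6 (by omega) b3 a3 hlm hmn hsl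
      hll hh

/-- The strand visits a component of `Loc E ω s g` at the time `l₁ ≥ s`, then it is at distance `R` from
the tip of the time `s`, and then it crosses a side of a face of this component. -/
def Return (E : Ex) (ω : Cfg) (s : ℕ) (g R : ℤ) : Prop :=
  E.Wll ω ∧ fb (E.e ω) ∉ E.U ω ∧ ∃ l₁ l m, s ≤ l₁ ∧ l₁ ≤ l ∧ l ≤ m ∧ Nb (E.cf ω) (E.e ω) m ∧
    ¬ InB (ua (E.p ω s)) R (E.p ω l) ∧ ∃ h ∈ E.ReachAt ω s l₁ g, IsSide h (E.p ω m)

/-- **NO RETURN.** -/
theorem pr_no_return : ∃ C α : ℝ, 0 < C ∧ 0 < α ∧ ∀ (W : Finset (ℤ × ℤ)) (E : Ex)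
    (S : Cfg → Set (ℤ × ℤ)) (τ : Cfg → ℕ) (A : Set Cfg), E.Ok S → E.Time S τ →
    DetS (fun ω => S ω ∪ E.x ω (τ ω)) A → (∀ ω ∈ A, E.U ω ⊆ W) →
    (∀ ω ∈ A, Disjoint (E.U ω) (S ω)) → ∀ g R : ℤ, 0 < g → 0 < R →
    pr W (A ∩ {ω | E.Return ω (τ ω) g R}) ≤ C * ((g : ℝ) / R) ^ α * pr W A := by
  obtain ⟨C, α, hC, hα, h⟩ := pr_passages
  refine ⟨C, α, hC, hα, ?_⟩
  intro W E S τ A hE hτ hA hU hd g R hg hR
  refine le_trans (pr_mono W ?_) (h W E S τ A hE hτ hA hU hd g R hg hR)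
  rintro ω ⟨hω, hW, hb, l₁, l, m, h0, h1, h2, h3, h4, f, h5, h6⟩
  exact ⟨hω, l, h0.trans h1, h4, fun hP => cut_off hW hb h3 hP h2 le_rfl h0 h1 h5 h6⟩

/-- The set `K` of unit edges is near the tip at the time `s` (a side of a face which is joined to the
tip), the strand crosses a unit edge of `K` at the time `m` and is at distance `R` at a time
between `s` and `m`. -/
def Away (E : Ex) (ω : Cfg) (s : ℕ) (K : Set UE) (g R : ℤ) : Prop :=
  E.Wll ω ∧ fb (E.e ω) ∉ E.U ω ∧ ∃ l m, s ≤ l ∧ l ≤ m ∧ Nb (E.cf ω) (E.e ω) m ∧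
    ¬ InB (ua (E.p ω s)) R (E.p ω l) ∧ E.p ω m ∈ K ∧ ∀ a ∈ K, ∃ h ∈ E.Reach ω s g, IsSide h a

theorem Away.return {K : Set UE} (h : E.Away ω s K g R) : E.Return ω s g R := by
  obtain ⟨h1, h2, l, m, h3, h4, h5, h6, h7, h8⟩ := h
  exact ⟨h1, h2, s, l, m, le_rfl, h3, h4, h5, h6, h8 _ h7⟩

/-- **END OF THE STEP**: if the unit edge (or the set of unit edges) where the strand ends is near the
tip then the strand stays near until its end. -/
theorem pr_stay : ∃ C α : ℝ, 0 < C ∧ 0 < α ∧ ∀ (W : Finset (ℤ × ℤ)) (E : Ex)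
    (S : Cfg → Set (ℤ × ℤ)) (τ : Cfg → ℕ) (A : Set Cfg), E.Ok S → E.Time S τ →
    DetS (fun ω => S ω ∪ E.x ω (τ ω)) A → (∀ ω ∈ A, E.U ω ⊆ W) →
    (∀ ω ∈ A, Disjoint (E.U ω) (S ω)) → ∀ (K : Cfg → Set UE) (g R : ℤ), 0 < g → 0 < R →
    pr W (A ∩ {ω | E.Away ω (τ ω) (K ω) g R}) ≤ C * ((g : ℝ) / R) ^ α * pr W A := by
  obtain ⟨C, α, hC, hα, h⟩ := pr_no_return
  refine ⟨C, α, hC, hα, ?_⟩
  intro W E S τ A hE hτ hA hU hd K g R hg hR
  refine (pr_mono W ?_).trans (h W E S τ A hE hτ hA hU hd g R hg hR)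
  rintro ω ⟨hω, h1⟩
  exact ⟨hω, h1.return⟩

/-! ### Mouths -/

/-- The mouth `μ` (a connected set of faces of diameter at most `d` which are fresh at the time `t`) is
visited for the first time at a time `s ≥ t`, later the strand is at distance `R` from this place, and
later (at a time `m ≤ H`) it crosses again a side of a face of the mouth. -/
def Mouth (E : Ex) (ω : Cfg) (t H : ℕ) (μ : Set (ℤ × ℤ)) (d R : ℤ) : Prop :=
  E.Wll ω ∧ fb (E.e ω) ∉ E.U ω ∧ μ ⊆ E.Fr ω t ∧ (∀ f ∈ μ, ∀ f' ∈ μ, ChI μ f f') ∧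
    (∀ f ∈ μ, ∀ f' ∈ μ, |f.1 - f'.1| ≤ d ∧ |f.2 - f'.2| ≤ d) ∧
    ∃ s l m, t ≤ s ∧ s ≤ l ∧ l ≤ m ∧ m ≤ H ∧ Nb (E.cf ω) (E.e ω) m ∧ fa (E.p ω s) ∈ μ ∧
      (∀ k, t ≤ k → k < s → fa (E.p ω k) ∉ μ) ∧ ¬ InB (ua (E.p ω s)) R (E.p ω l) ∧
      ∃ h ∈ μ, IsSide h (E.p ω m)

theorem side_coord {f : ℤ × ℤ} {a : UE} (h : IsSide f a) : f.1 ≤ (ua a).1 ∧ (ua a).1 ≤ f.1 + 1 ∧
    f.2 ≤ (ua a).2 ∧ (ua a).2 ≤ f.2 + 1 := by
  rcases h with rfl | rfl | rfl | rfl <;> simp [ua, bo, le', to', ri]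

theorem mouth_reach {μ : Set (ℤ × ℤ)} {d : ℤ} (h1 : μ ⊆ E.Fr ω t)
    (h2 : ∀ f ∈ μ, ∀ f' ∈ μ, ChI μ f f')
    (h3 : ∀ f ∈ μ, ∀ f' ∈ μ, |f.1 - f'.1| ≤ d ∧ |f.2 - f'.2| ≤ d) (h4 : fa (E.p ω s) ∈ μ)
    (h5 : ∀ k, t ≤ k → k < s → fa (E.p ω k) ∉ μ) : μ ⊆ E.Reach ω s (d + 2) := by
  refine sub_reachAt (fun f hf => ⟨?_, fun a ha => ?_⟩) (fun f hf => h2 _ h4 f hf) h4
  · obtain ⟨g1, g2⟩ := h1 hf
    refine ⟨g1, fun g3 => ?_⟩
    obtain ⟨k, -, k2, k3⟩ := mem_vs.1 (Finset.mem_coe.1 g3.2)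
    have k3' : f = fa (E.p ω k) := k3
    rcases Nat.lt_or_ge k t with k4 | k4
    · exact g2 ⟨g1, Finset.mem_coe.2 (mem_vs.2 ⟨k, Nat.zero_le _, k4, k3⟩)⟩
    · exact h5 k k4 k2 (k3' ▸ hf)
  · have g1 := side_coord ha
    have g2 := side_coord (isSide_fa (E.p ω s))
    obtain ⟨g3, g4⟩ := h3 _ h4 f hf
    have g5 := abs_le.1 g3
    have g6 := abs_le.1 g4
    unfold InB InR
    omega

/-- **Leak through a mouth.** -/
theorem pr_mouth : ∃ C α : ℝ, 0 < C ∧ 0 < α ∧ ∀ (W : Finset (ℤ × ℤ)) (E : Ex)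
    (S : Cfg → Set (ℤ × ℤ)) (τ : Cfg → ℕ) (A : Set Cfg), E.Ok S → E.Time S τ →
    DetS (fun ω => S ω ∪ E.x ω (τ ω)) A → (∀ ω ∈ A, E.U ω ⊆ W) →
    (∀ ω ∈ A, Disjoint (E.U ω) (S ω)) → ∀ μ : Cfg → Set (ℤ × ℤ),
    Adp (fun ω => S ω ∪ E.x ω (τ ω)) μ → ∀ (H : ℕ) (d R : ℤ), 0 ≤ d → 0 < R →
    pr W (A ∩ {ω | E.Mouth ω (τ ω) H (μ ω) d R}) ≤
      C * (((d : ℝ) + 2) / R) ^ α * pr W A := by
  obtain ⟨C, α, hC, hα, h⟩ := pr_no_return
  refine ⟨C, α, hC, hα, ?_⟩
  intro W E S τ A hE hτ hA hU hd μ hμ H d R hd0 hR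
  set P : Cfg → ℕ → Prop := fun ω t => τ ω ≤ t ∧ fa (E.p ω t) ∈ μ ω with hPdef
  have hdec : E.Dec S P := by
    have key : ∀ ω ω' t, E.Ag S ω ω' t → P ω t → P ω' t := by
      rintro ω ω' t ha ⟨h1, h2⟩
      have e1 : τ ω' = τ ω := hτ ω ω' (ha.mono h1)
      have e2 : μ ω' = μ ω := hμ ω ω' (ha.mono h1)
      exact ⟨by rw [e1]; exact h1, by rw [e2, ha.p hE le_rfl]; exact h2⟩
    exact fun ω ω' t ha => ⟨key ω ω' t ha, key ω' ω t (ha.symm hE)⟩
  set σ : Cfg → ℕ := fun ω => hit H (P ω) with hσdef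
  have hσ : E.Time S σ := hdec.time H
  set B : Set Cfg := {ω | ω ∈ A ∧ τ ω ≤ σ ω} with hB
  have hBdet : DetS (fun ω => S ω ∪ E.x ω (σ ω)) B := by
    rintro ω ⟨h1, h2⟩ ω' h'
    have ha : E.Ag S ω ω' (σ ω) := h'
    refine ⟨hA ω h1 ω' (ha.mono h2), ?_⟩
    rw [hσ ω ω' ha, hτ ω ω' (ha.mono h2)]
    exact h2
  have hg : (0 : ℤ) < d + 2 := by omega
  have hmain := h W E S σ B hE hσ hBdet (fun ω hω => hU ω hω.1) (fun ω hω => hd ω hω.1) (d + 2) R
    hg hR
  have hC' : (0 : ℝ) ≤ C * (((d : ℝ) + 2) / R) ^ α := by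
    have h1 : (0 : ℝ) ≤ d := by exact_mod_cast hd0
    have h2 : (0 : ℝ) < R := by exact_mod_cast hR
    positivity
  push_cast at hmain
  refine (pr_mono W ?_).trans (hmain.trans
    (mul_le_mul_of_nonneg_left (pr_mono W fun ω hω => hω.1) hC'))
  rintro ω ⟨hω, h1, h2, h3, h4, h5, s, l, m, g1, g2, g3, g4, g5, g6, g7, g8, g9⟩
  have hs : σ ω = s := hit_eq ⟨g1, g6⟩ (by omega) fun k hk hk' => g7 k hk'.1 hk hk'.2
  obtain ⟨f, hf, hf'⟩ := g9
  refine ⟨⟨hω, by rw [hs]; exact g1⟩, h1, h2, s, l, m, by rw [hs], g2, g3, g5,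
    by rw [hs]; exact g8, f, ?_, hf'⟩
  rw [hs]
  exact mouth_reach h3 h4 h5 g6 g7 hf

/-- **Leak through one of `N` decided mouths.** -/
theorem pr_mouths : ∃ C α : ℝ, 0 < C ∧ 0 < α ∧ ∀ (W : Finset (ℤ × ℤ)) (E : Ex)
    (S : Cfg → Set (ℤ × ℤ)) (τ : Cfg → ℕ) (A : Set Cfg), E.Ok S → E.Time S τ →
    DetS (fun ω => S ω ∪ E.x ω (τ ω)) A → (∀ ω ∈ A, E.U ω ⊆ W) →
    (∀ ω ∈ A, Disjoint (E.U ω) (S ω)) → ∀ (N : ℕ) (μ : ℕ → Cfg → Set (ℤ × ℤ)),
    (∀ i < N, Adp (fun ω => S ω ∪ E.x ω (τ ω)) (μ i)) → ∀ (H : ℕ) (d R : ℤ), 0 ≤ d → 0 < R →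
    pr W (A ∩ {ω | ∃ i < N, E.Mouth ω (τ ω) H (μ i ω) d R}) ≤
      N * (C * (((d : ℝ) + 2) / R) ^ α) * pr W A := by
  obtain ⟨C, α, hC, hα, h⟩ := pr_mouth
  refine ⟨C, α, hC, hα, ?_⟩
  intro W E S τ A hE hτ hA hU hd N μ hμ H d R hd0 hR
  have h1 := trials_sum (W := W) (s := range N) (A := fun _ : ℕ => A)
    (F := fun i => {ω | E.Mouth ω (τ ω) H (μ i ω) d R})
    (fun i hi => h W E S τ A hE hτ hA hU hd (μ i) (hμ i (Finset.mem_range.1 hi)) H d R hd0 hR)
  rw [Finset.sum_const, card_range, nsmul_eq_mul] at h1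
  refine (pr_mono W ?_).trans (h1.trans (by ring_nf; rfl))
  rintro ω ⟨hω, i, hi, h2⟩
  exact ⟨i, Finset.mem_range.2 hi, hω, h2⟩

end Ex

end Pool.Agent.SixB
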