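import Pool.Agent.Lib.SixB.S8ParApp
import Pool.Agent.Lib.SixB.S8NoRet
import Pool.Agent.Lib.SixB.S8NearDet

/-!
# Step 8: a stored polygon near the base

`s` is the time at which the polygon `P` is stored, all the walls of the time `s` near its contour have
the colour `lam`.

* `Wl Eg x y L`: the walk with the list `L` of unit edges.
* `sep_gate`: a short path between two vertices of the wall of colour `lam` of the time `s` which is not
  crossed up to the time `s` and is crossed an odd number of times up to the time `k`; at the time `k` the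
  strand is at the other wall of the time `s`: then there is a gate at the time `s` on the path.
* `one_wall_of_defect`: a finite family of paths near `b₀` with an odd number of crossings.
* `one_wall_of_deep`: if the strand is deep in `P` at the time `t` and all gates near the contour are near
  the tip or near `b₀` then there is a passage from `b₀` to distance `R` after the time `s` without
  touch of the wall of colour `1 - lam`: the event `Ex.OneWall` of `S8Leak`.
-/

set_option autoImplicit false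

namespace Pool.Agent.SixB.Par

open Finset Pool.Agent.Perc Pool.Agent.PercT Pool.Agent.Perc6 Pool.Agent.SixB
  Pool.Agent.SixB.NearCut Pool.Agent.SixB.Mv Pool.Agent.SixB.Top
open Pool.Agent.Perc.Tips (ahead rv)
open Pool.Agent.SixB.Near (AtE oneE Fin' dg pnt chain_conn two_eq Tri exists_tri dg_add dg_oneE)

/-! ### Walks as lists -/

/-- A walk of unit edges of `Eg` with the list `L` of its unit edges. -/
inductive Wl (Eg : Set UE) : ℤ × ℤ → ℤ × ℤ → List UE → Prop
  | nil (x : ℤ × ℤ) : Wl Eg x x []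
  | cons {x y z : ℤ × ℤ} {a : UE} {L : List UE} : a ∈ Eg → Joins a x y → Wl Eg y z L →
      Wl Eg x z (a :: L)

section Lists

variable {Eg Eg' : Set UE} {χ : UE → ZMod 2} {x y z u : ℤ × ℤ} {a : UE} {L L' : List UE}
  {ω : Cfg}

theorem Wl.mono (h : Wl Eg x y L) (hE : Eg ⊆ Eg') : Wl Eg' x y L := by
  induction h with
  | nil x => exact Wl.nil x
  | cons ha hj _ ih => exact Wl.cons (hE ha) hj ih

theorem Wl.trans (h : Wl Eg x y L) (h' : Wl Eg y z L') : Wl Eg x z (L ++ L') := by
  induction h with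
  | nil x => simpa using h'
  | cons ha hj _ ih =>
    rw [List.cons_append]
    exact Wl.cons ha hj (ih h')

theorem Wl.single (ha : a ∈ Eg) (hj : Joins a x y) : Wl Eg x y [a] := Wl.cons ha hj (Wl.nil y)

theorem Wl.symm (h : Wl Eg x y L) : Wl Eg y x L.reverse := by
  induction h with
  | nil x => exact Wl.nil x
  | cons ha hj _ ih =>
    rw [List.reverse_cons]
    exact ih.trans (Wl.single ha (joins_swap hj))

theorem Wl.wk (h : Wl Eg x y L) : Wk Eg χ x y (L.map χ).sum := by
  induction h with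
  | nil x => exact Wk.nil x
  | cons ha hj _ ih =>
    rw [List.map_cons, List.sum_cons]
    exact Wk.cons ha hj ih

theorem Wl.mem (h : Wl Eg x y L) : ∀ a ∈ L, a ∈ Eg := by
  induction h with
  | nil x => simp
  | cons ha hj _ ih =>
    intro b hb
    rcases List.mem_cons.1 hb with rfl | hb
    · exact ha
    · exact ih b hb

theorem wl_of_pth (h : Pth Eg x y) : ∃ L, Wl Eg x y L := by
  induction h with
  | refl => exact ⟨[], Wl.nil _⟩
  | tail _ hs ih =>
    obtain ⟨L, hL⟩ := ih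
    obtain ⟨a, ha, hj⟩ := hs
    exact ⟨_, hL.trans (Wl.single ha hj)⟩

/-- The ends of the unit edges of a walk are reached from the start. -/
theorem Wl.reach (h : Wl Eg x y L) (ha : a ∈ L) (hu : AtE u a) : Pth Eg x u := by
  induction h with
  | nil x => exact absurd ha (by simp)
  | @cons x y z b L hb hj _ ih =>
    rcases List.mem_cons.1 ha with rfl | ha
    · rcases hj with ⟨h1, h2⟩ | ⟨h1, h2⟩ <;> rcases hu with h3 | h3
      · rw [h3, ← h1]
        exact Relation.ReflTransGen.refl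
      · rw [h3, ← h2]
        exact Relation.ReflTransGen.single ⟨a, hb, Or.inl ⟨h1, h2⟩⟩
      · rw [h3, ← h2]
        exact Relation.ReflTransGen.single ⟨a, hb, Or.inr ⟨h1, h2⟩⟩
      · rw [h3, ← h1]
        exact Relation.ReflTransGen.refl
    · exact Relation.ReflTransGen.head ⟨b, hb, hj⟩ (ih ha)

/-- The chain of a list. -/
noncomputable def chL (L : List UE) : UE → ZMod 2 := fun b => (L.map fun a => oneE a b).sum

theorem chL_cons : chL (a :: L) = oneE a + chL L := by
  funext b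
  simp [chL]

theorem chL_notMem (h : a ∉ L) : chL L a = 0 := by
  induction L with
  | nil => rfl
  | cons b L ih =>
    rw [List.mem_cons, not_or] at h
    rw [chL_cons, Pi.add_apply, ih h.2, add_zero]
    simp [oneE, h.1]

private theorem fin_oneE' (a : UE) : Fin' (oneE a) 0 := by
  refine ⟨|a.1| + |a.2.1| + 2, fun b hb => ?_, fun f hf => absurd rfl hf⟩
  have e : b = a := by
    by_contra hne
    exact hb (by simp [oneE, hne])
  subst e
  obtain ⟨b1, b2, b3⟩ := b
  have a1 := neg_abs_le b1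
  have a2 := le_abs_self b1
  have a3 := neg_abs_le b2
  have a4 := le_abs_self b2
  have a5 := abs_nonneg b1
  have a6 := abs_nonneg b2
  unfold InR ua ub
  cases b3 <;> simp only [if_true, if_false, Bool.false_eq_true] <;> omega

theorem Wl.chain (h : Wl Eg x y L) (ω : Cfg) : Fin' (chL L) 0 ∧
    ∀ v, dg ω (chL L) 0 v = pnt x v + pnt y v := by
  induction h with
  | nil x =>
    refine ⟨⟨0, fun a ha => absurd rfl ha, fun f hf => absurd rfl hf⟩, fun v => ?_⟩
    rw [two_eq]
    simp [dg, chL]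
  | @cons x y z a L ha hj _ ih =>
    rw [chL_cons]
    refine ⟨by simpa using (fin_oneE' a).add ih.1, fun v => ?_⟩
    have e : (0 : ℤ × ℤ → ZMod 2) = 0 + 0 := (add_zero 0).symm
    rw [e, dg_add, ih.2, dg_oneE hj]
    have := two_eq (pnt y v)
    linear_combination this

end Lists

/-! ### Separation -/

section Sep

variable {E : Ex} {ω : Cfg} {lam : ℤ} {s k l m n t : ℕ} {x y y' z u v : ℤ × ℤ} {r : ℤ} {L : List UE}

/-- The sum of the chain of a list along the strand. -/
theorem sum_chL (hn : Nb (E.cf ω) (E.e ω) k) (hL : ∀ a ∈ L, ∀ l ≤ s, E.p ω l ≠ a) :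
    ∑ l ∈ Ioc s k, chL L (E.p ω l) = (L.map (cr E ω k)).sum := by
  induction L with
  | nil => simp [chL]
  | cons a L ih =>
    have h1 := ih fun b hb => hL b (List.mem_cons_of_mem _ hb)
    rw [List.map_cons, List.sum_cons, ← h1]
    simp only [chL_cons, Pi.add_apply, Finset.sum_add_distrib]
    congr 1
    by_cases ha : ∃ l ≤ k, E.p ω l = a
    · obtain ⟨l, hl, hla⟩ := ha
      have hsl : s < l := by
        by_contra hle
        exact hL a (List.mem_cons_self ..) l (by omega) hla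
      unfold cr
      rw [ind2_pos ⟨l, hl, hla⟩, Finset.sum_eq_single l]
      · simp [oneE, hla]
      · intro i hi hne
        rw [Finset.mem_Ioc] at hi
        have : E.p ω i ≠ a := by
          intro h
          exact hne (hn.inj hi.2 hl (h.trans hla.symm))
        simp [oneE, this]
      · intro h
        exact absurd (Finset.mem_Ioc.2 ⟨hsl, hl⟩) h
    · unfold cr
      rw [ind2_neg ha]
      refine Finset.sum_eq_zero fun i hi => ?_
      rw [Finset.mem_Ioc] at hi
      have : E.p ω i ≠ a := fun h => ha ⟨i, hi.2, h⟩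
      simp [oneE, this]

/-- **Separation.** -/
theorem sep_gate (hn : Nb (E.cf ω) (E.e ω) k) (hsk : s ≤ k) (hlam : lam = 0 ∨ lam = 1)
    (hy : E.Sid lam ω s y) (hy' : E.Sid lam ω s y')
    (hL : Wl {a | InB z r a ∧ ∀ l ≤ s, E.p ω l ≠ a} y y' L) (hodd : (L.map (cr E ω k)).sum = 1)
    (hx : E.Sid (1 - lam) ω s (en (1 - lam) (E.p ω k))) : E.Gate ω s z r := by
  by_contra hg
  have hc : 1 - lam = 0 ∨ 1 - lam = 1 := by omega
  -- no vertex of the path is on the other side
  have hno : ∀ u, Pth {a | InB z r a ∧ ∀ l ≤ s, E.p ω l ≠ a} y u → ¬ E.Sid (1 - lam) ω s u := by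
    intro u hu hs
    rcases hlam with rfl | rfl
    · exact hg ⟨y, u, hy, hs, hu⟩
    · exact hg ⟨u, y, hs, hy, Pth.symm hu⟩
  -- the closed curve
  have hconn : Conn (E.cf ω) (E.Fr ω s)ᶜ y y' := (conn_symm' hy).trans hy'
  obtain ⟨M, m1, m2, m3⟩ := chain_conn hconn
  obtain ⟨n1, n2⟩ := hL.chain (E.cf ω)
  have hfin : Fin' (chL L) M := by
    have := n1.add m2
    simpa using this
  have hdg : ∀ v, dg (E.cf ω) (chL L) M v = 0 := by
    intro v
    have e1 : chL L = chL L + 0 := (add_zero _).symm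
    have e2 : M = 0 + M := (zero_add _).symm
    rw [e1, e2, dg_add, n2, m3]
    generalize pnt y v = x1
    generalize pnt y' v = x2
    revert x1 x2
    decide
  obtain ⟨B, hB⟩ := hfin
  obtain ⟨ψ, p1, p2, p3, -⟩ := exists_tri hB hdg
  have hψ : Tri (E.cf ω) (chL L) M ψ := ⟨p1, p2, p3⟩
  -- the values along the strand
  have hval : ∀ j, s ≤ j → ψ (fa (E.p ω j)) (E.p ω j) =
      ψ (fa (E.p ω s)) (E.p ω s) + ∑ l ∈ Ioc s j, chL L (E.p ω l) := by
    intro j hj
    induction j, hj using Nat.le_induction with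
    | base => simp
    | succ j hj ih =>
      have g1 : fb (E.p ω (j + 1)) = fa (E.p ω j) := fb_pth_succ _ _ _
      have hmt : Mt (E.cf ω) (fa (E.p ω j)) (E.p ω j) (E.p ω (j + 1)) := mt_pth _ _ j
      rw [Finset.sum_Ioc_succ_top hj, ← add_assoc, ← ih, p1 _ _ _ hmt]
      rw [p3 (fb (E.p ω (j + 1))) (fa (E.p ω (j + 1))) (E.p ω (j + 1)) (isSide_fb _)
        (isSide_fa _) (fa_ne_fb _).symm, g1]
  -- the values at the vertices of the other side
  have hM0 : ∀ f p q, Bond (E.cf ω) {f} p q → par p = 1 - lam → M f = 0 := by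
    intro f p q hb hp
    by_contra h0
    obtain ⟨-, p', q', hb', hc', -⟩ := m1 f h0
    have h2 : par p' = lam := by
      rw [← Conn.par_eq hc', ← Conn.par_eq hy, par_en hlam]
    have h3 := Near.bond_or hb' hb
    have h4 : par q = 1 - lam := by
      rw [← hb.par_eq]
      exact hp
    rcases h3 with ⟨h5, -⟩ | ⟨-, h5⟩
    · rw [h5] at hp
      omega
    · rw [h5] at h4
      omega
  have hs0 : E.Sid (1 - lam) ω s (en (1 - lam) (E.p ω s)) := Ex.sid_strand hc le_rfl
  have hoff : ∀ u, Conn (E.cf ω) (E.Fr ω s)ᶜ (en (1 - lam) (E.p ω s)) u →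
      Near.Off (E.cf ω) (chL L) M u := by
    intro u hcu
    have hu : E.Sid (1 - lam) ω s u := hs0.trans hcu
    refine ⟨fun b hb => chL_notMem fun hbL => hno u (hL.reach hbL hb) hu, ?_⟩
    rintro g ⟨w, hw⟩
    exact hM0 g u w hw (sid_par hc hu)
  have h2 := Near.conn_val hψ hoff ((conn_symm' hs0).trans hx) (isSide_fa (E.p ω s))
    (Near.atE_en _ _) (isSide_fa (E.p ω k)) (Near.atE_en _ _)
  have h1 := hval k hsk
  rw [← h2, sum_chL hn (fun a ha l hl => (hL.mem a ha).2 l hl), hodd] at h1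
  revert h1
  generalize ψ (fa (E.p ω s)) (E.p ω s) = x1
  revert x1
  decide

end Sep

/-! ### Deep visits -/

section Deep

variable {E : Ex} {ω : Cfg} {P : Set (ℤ × ℤ)} {lam c : ℤ} {s t k m : ℕ} {A : UE × Bool}
  {r R ρ ρ' ρ₁ : ℤ} {b₀ z : ℤ × ℤ} {a : UE} {L : List UE} {ι : Type*} {J : Finset ι} {Lp : ι → List UE}

/-- Distance at most `ρ` in both coordinates. -/
def Nb2 (b v : ℤ × ℤ) (ρ : ℤ) : Prop := |v.1 - b.1| ≤ ρ ∧ |v.2 - b.2| ≤ ρ

theorem cr_uncr (h : ∀ l ≤ s, E.p ω l ≠ a) : cr E ω s a = 0 :=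
  ind2_neg fun ⟨l, hl, hla⟩ => h l hl hla

theorem cr_const (hkt : k ≤ t) (h : ∀ l, k < l → l ≤ t → E.p ω l ≠ a) :
    cr E ω t a = cr E ω k a := by
  refine ind2_congr ⟨?_, fun ⟨l, hl, hla⟩ => ⟨l, hl.trans hkt, hla⟩⟩
  rintro ⟨l, hl, hla⟩
  rcases Nat.lt_or_ge k l with h1 | h1
  · exact absurd hla (h l h1 hl)
  · exact ⟨l, h1, hla⟩

theorem sumL_congr {χ χ' : UE → ZMod 2} (h : ∀ a ∈ L, χ a = χ' a) :
    (L.map χ).sum = (L.map χ').sum := by
  rw [List.map_congr_left h]

theorem sumL_zero {χ : UE → ZMod 2} (h : ∀ a ∈ L, χ a = 0) : (L.map χ).sum = 0 := by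
  rw [sumL_congr (χ' := fun _ => 0) h]
  simp

theorem sumL_append {χ : UE → ZMod 2} {L' : List UE} :
    ((L ++ L').map χ).sum = (L.map χ).sum + (L'.map χ).sum := by
  rw [List.map_append, List.sum_append]

theorem sumL_reverse {χ : UE → ZMod 2} : (L.reverse.map χ).sum = (L.map χ).sum := by
  rw [List.map_reverse, List.sum_reverse]

/-- **Defects near the base.** The paths `Lp j` in the box of radius `ρ - 1` around `b₀` are not crossed
up to the time `s`, the sum of the crossings at the time `t` is odd and the strand is outside of the box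
of radius `R`. A touch of colour `c` in the box is not possible while the sum is odd. -/
theorem one_wall_of_defect
    (hL : ∀ j ∈ J, ∀ a ∈ Lp j, InB b₀ (ρ - 1) a ∧ ∀ l ≤ s, E.p ω l ≠ a)
    (hodd : ∑ j ∈ J, ((Lp j).map (cr E ω t)).sum = 1) (hR : ¬ InB b₀ R (E.p ω t))
    (H : ∀ k, s < k → k ≤ t → InB b₀ R (E.p ω k) → E.Touch c ω s k →
      ∑ j ∈ J, ((Lp j).map (cr E ω k)).sum = 1 → False) : E.OneWall c ω s b₀ ρ R := by
  -- a visit of the inner box
  obtain ⟨l0, h0, h1, h2⟩ : ∃ l, s < l ∧ l ≤ t ∧ InB b₀ (ρ - 1) (E.p ω l) := by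
    by_contra hno
    push Not at hno
    have h3 : ∑ j ∈ J, ((Lp j).map (cr E ω t)).sum = 0 := by
      refine Finset.sum_eq_zero fun j hj => sumL_zero fun a ha => ?_
      have h4 := hL j hj a ha
      refine ind2_neg ?_
      rintro ⟨l, hl, rfl⟩
      rcases Nat.lt_or_ge s l with h5 | h5
      · exact hno l h5 hl h4.1
      · exact h4.2 l h5 rfl
    rw [h3] at hodd
    exact absurd hodd (by decide)
  obtain ⟨i, i1, i2, i3, i4⟩ := last_time (P := fun l => InB b₀ (ρ - 1) (E.p ω l)) h2 h1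
  have hconst : ∀ k, i ≤ k → k ≤ t → ∑ j ∈ J, ((Lp j).map (cr E ω k)).sum = 1 := by
    intro k hik hkt
    rw [← hodd]
    refine Finset.sum_congr rfl fun j hj => sumL_congr fun a ha => ?_
    refine (cr_const hkt fun l h3 h4 h5 => i4 l (by omega) h4 ?_).symm
    rw [h5]
    exact (hL j hj a ha).1
  obtain ⟨j, j1, j2, j3, j4⟩ := first_time (P := fun l => ¬ InB b₀ R (E.p ω l)) hR i2
  refine ⟨i, j, by omega, j1, i3, j3, fun k h3 h4 h5 => ?_⟩
  exact H k (by omega) (by omega) (not_not.1 (j4 k h3 h4)) h5 (hconst k h3 (by omega))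

/-- **A deep visit of a stored polygon.** -/
theorem one_wall_of_deep (hW : E.Wll ω) (hb : fb (E.e ω) ∉ E.U ω) (hn : Nb (E.cf ω) (E.e ω) t)
    (hst : s ≤ t) (hP : P.Finite) (hPc : Top.EConn P) (hPe : Esc P) (hPF : P ⊆ E.Fr ω s)
    (hsP : fa (E.p ω s) ∉ P) (hlam : lam = 0 ∨ lam = 1) (hr : 0 ≤ r) (hρ : ρ₁ + r + 2 ≤ ρ)
    (anc : ∀ B, BD P B → ∃ y, E.Sid lam ω s y ∧
      Pth {a | InB (lf B) r a ∧ ∀ l ≤ s, E.p ω l ≠ a} (lf B) y)
    (gs : ∀ B, BD P B → ¬ Nb2 b₀ (lf B) ρ₁ → Nb2 b₀ (lf B) (R + ρ') → ¬ E.Gate ω s (lf B) (r + 1))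
    (gt : ∀ l, s < l → l ≤ t → ∀ B, BD P B → ¬ Nb2 b₀ (lf B) ρ₁ → E.Gate ω l (lf B) (r + 1) →
      Nb2 (ua (E.p ω l)) (lf B) ρ')
    (ht : fa (E.p ω t) ∈ P) (hdeep : ∀ B, BD P B → ¬ Nb2 (ua (E.p ω t)) (lf B) ρ')
    (hR : ¬ InB b₀ R (E.p ω t)) : E.OneWall (1 - lam) ω s b₀ ρ R := by
  classical
  obtain ⟨A, hA⟩ : ∃ A, BD P A := exists_boundary hP ⟨_, ht⟩
  obtain ⟨m, hC⟩ := exists_cyc hP hPc hPe hA
  have hst' : s < t := by
    rcases Nat.lt_or_eq_of_le hst with h | rfl
    · exact h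
    · exact absurd ht hsP
  have hbP : fb (E.e ω) ∉ P := fun h => hb (hPF h).1
  have hc' : 1 - lam = 0 ∨ 1 - lam = 1 := by omega
  -- the hops
  have hop : ∀ v : ℤ × ℤ, ∃ (y : ℤ × ℤ) (L : List UE), (∃ B, BD P B ∧ lf B = v) →
      E.Sid lam ω s y ∧ Wl {a | InB v r a ∧ ∀ l ≤ s, E.p ω l ≠ a} v y L := by
    intro v
    by_cases hv : ∃ B, BD P B ∧ lf B = v
    · obtain ⟨B, hB, rfl⟩ := hv
      obtain ⟨y, h1, h2⟩ := anc B hB
      obtain ⟨L, hL⟩ := wl_of_pth h2
      exact ⟨y, L, fun _ => ⟨h1, hL⟩⟩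
    · exact ⟨v, [], fun h => absurd h hv⟩
  choose Y Lh hh using hop
  have hhj : ∀ j, E.Sid lam ω s (Y (vert P A j)) ∧
      Wl {a | InB (vert P A j) r a ∧ ∀ l ≤ s, E.p ω l ≠ a} (vert P A j) (Y (vert P A j))
        (Lh (vert P A j)) := fun j => hh _ ⟨_, bd_side hC.bd j, rfl⟩
  -- the sides of the contour are not crossed at the time `s`
  have hside : ∀ j, ∀ l ≤ s, E.p ω l ≠ (side P A j).1 := by
    intro j l hl h
    have hB := bd_side hC.bd j
    obtain ⟨f, hf, hfs⟩ := hB.bdU.1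
    rcases Nat.lt_or_ge l s with h1 | h1
    · exact NearCut.not_crossed hb h1 ⟨f, hPF hf, h ▸ hfs⟩
    · have : l = s := le_antisymm hl h1
      subst this
      rw [← h] at hfs
      rcases isSide_iff.1 hfs with h3 | h3
      · exact hsP (h3 ▸ hf)
      · exact Ex.fb_not_fr hb (h3 ▸ hPF hf)
  -- the paths
  set Lq : ℕ → List UE := fun j => (Lh (vert P A j)).reverse ++ ([(side P A j).1] ++
    Lh (vert P A (j + 1))) with hLq
  have hPi : ∀ j, Wl {a | InB (vert P A j) (r + 1) a ∧ ∀ l ≤ s, E.p ω l ≠ a} (Y (vert P A j))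
      (Y (vert P A (j + 1))) (Lq j) := by
    intro j
    have hj := joins_side (D := P) (A := A) j
    have hnr := joins_near hj
    have h1 := abs_le.1 hnr.1
    have h2 := abs_le.1 hnr.2.1
    have g1 : InB (vert P A j) (r + 1) (side P A j).1 := by
      unfold InB InR
      rcases hnr.2.2 with h | h <;> rw [h] <;> omega
    have g2 : ∀ a, InB (vert P A (j + 1)) r a → InB (vert P A j) (r + 1) a := by
      intro a ha
      unfold InB InR at ha ⊢
      omega
    have w1 : Wl {a | InB (vert P A j) (r + 1) a ∧ ∀ l ≤ s, E.p ω l ≠ a} (Y (vert P A j))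
        (vert P A j) (Lh (vert P A j)).reverse :=
      (hhj j).2.symm.mono fun a ha => ⟨ha.1.mono (by omega), ha.2⟩
    have w2 : Wl {a | InB (vert P A j) (r + 1) a ∧ ∀ l ≤ s, E.p ω l ≠ a} (vert P A j)
        (vert P A (j + 1)) [(side P A j).1] := Wl.single ⟨g1, hside j⟩ hj
    have w3 : Wl {a | InB (vert P A j) (r + 1) a ∧ ∀ l ≤ s, E.p ω l ≠ a} (vert P A (j + 1))
        (Y (vert P A (j + 1))) (Lh (vert P A (j + 1))) :=
      (hhj (j + 1)).2.mono fun a ha => ⟨g2 a ha.1, ha.2⟩
    exact w1.trans (w2.trans w3)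
  -- the defects
  have hpar : ∀ l ≤ t, ind2 (fa (E.p ω l) ∈ P) = ∑ j ∈ range m, ((Lq j).map (cr E ω l)).sum := by
    intro l hl
    have h1 := par_poly (E := E) (ω := ω) hP hPc hPe hC (hn.mono hl)
      (fun v => ((Lh v).map (cr E ω l)).sum) (fun j => ((Lq j).map (cr E ω l)).sum) fun j _ => by
        simp only [hLq]
        rw [sumL_append, sumL_append, sumL_reverse, List.map_singleton, List.sum_singleton]
        generalize ((Lh (vert P A j)).map (cr E ω l)).sum = x1
        generalize ((Lh (vert P A (j + 1))).map (cr E ω l)).sum = x2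
        generalize cr E ω l (side P A j).1 = x3
        revert x1 x2 x3
        decide
    rw [ind2_neg hbP, zero_add] at h1
    exact h1
  -- a defect is a gate
  have hgate : ∀ l, s < l → l ≤ t → ∀ j, ¬ Nb2 b₀ (vert P A j) ρ₁ →
      ((Lq j).map (cr E ω l)).sum ≠ 0 → Nb2 (ua (E.p ω l)) (vert P A j) ρ' := by
    intro l h1 h2 j h3 h4
    by_contra h5
    refine h4 ?_
    have h6 : ¬ E.Gate ω l (vert P A j) (r + 1) := fun h => h5 (gt l h1 h2 _ (bd_side hC.bd j) h3 h)
    have h7 := (hPi j).wk (χ := cr E ω l)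
    have h8 := par_path h6 (h7.mono fun a ha => ha.1) ⟨lam, hlam, (hhj j).1.mono h1.le⟩
      ⟨lam, hlam, (hhj (j + 1)).1.mono h1.le⟩
    rw [h8]
    unfold cl
    rw [sid_par hlam (hhj j).1, sid_par hlam (hhj (j + 1)).1, z2_add_self]
  have hsplit : ∀ l ≤ t, ind2 (fa (E.p ω l) ∈ P) =
      ∑ j ∈ (range m).filter (fun j => Nb2 b₀ (vert P A j) ρ₁), ((Lq j).map (cr E ω l)).sum +
      ∑ j ∈ (range m).filter (fun j => ¬ Nb2 b₀ (vert P A j) ρ₁), ((Lq j).map (cr E ω l)).sum := by
    intro l hl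
    rw [hpar l hl, Finset.sum_filter_add_sum_filter_not]
  refine one_wall_of_defect (J := (range m).filter (fun j => Nb2 b₀ (vert P A j) ρ₁)) (Lp := Lq)
    ?_ ?_ hR ?_
  · intro j hj a ha
    have h1 := (hPi j).mem a ha
    have h2 := (Finset.mem_filter.1 hj).2
    refine ⟨?_, h1.2⟩
    have h3 : InB (vert P A j) (r + 1) a := h1.1
    have h4 := abs_le.1 h2.1
    have h5 := abs_le.1 h2.2
    unfold InB InR at h3 ⊢
    omega
  · have h1 := hsplit t le_rfl
    rw [ind2_pos ht, Finset.sum_eq_zero (s := (range m).filter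
      (fun j => ¬ Nb2 b₀ (vert P A j) ρ₁)), add_zero] at h1
    · exact h1.symm
    · intro j hj
      by_contra h2
      exact hdeep _ (bd_side hC.bd j) (hgate t hst' le_rfl j (Finset.mem_filter.1 hj).2 h2)
  · intro k hsk hkt hin hT hodd
    have h1 := hsplit k hkt
    have hnP : fa (E.p ω k) ∉ P := fun h => hT.1 (hPF h)
    rw [ind2_neg hnP, hodd] at h1
    have h2 : ∑ j ∈ (range m).filter (fun j => ¬ Nb2 b₀ (vert P A j) ρ₁),
        ((Lq j).map (cr E ω k)).sum ≠ 0 := by
      intro h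
      rw [h] at h1
      exact absurd h1 (by decide)
    obtain ⟨j, hj, hj1⟩ := Finset.exists_ne_zero_of_sum_ne_zero h2
    have hj2 := (Finset.mem_filter.1 hj).2
    have hnear := hgate k hsk hkt j hj2 hj1
    have hone : ((Lq j).map (cr E ω k)).sum = 1 := by
      revert hj1
      generalize ((Lq j).map (cr E ω k)).sum = x
      revert x
      decide
    refine gs _ (bd_side hC.bd j) hj2 ?_ (sep_gate (hn.mono hkt) hsk.le hlam (hhj j).1
      (hhj (j + 1)).1 (hPi j) hone (Ex.sid_touch hW hc' hT))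
    have h3 := abs_le.1 hnear.1
    have h4 := abs_le.1 hnear.2
    unfold InB InR at hin
    have h5 : |(vert P A j).1 - b₀.1| ≤ R + ρ' ∧ |(vert P A j).2 - b₀.2| ≤ R + ρ' := by
      rw [abs_le, abs_le]
      omega
    exact h5

end Deep

end Pool.Agent.SixB.Par
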