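import Pool.Agent.Lib.SixB.S8Rare
import Pool.Agent.Lib.SixB.S8NMAll
import Pool.Agent.Lib.SixB.S8Leak
import Pool.Agent.Lib.SixB.S8ChainL
import Pool.Agent.Lib.SixB.S8ChainR

/-!
# Step 8: passages with walls of one colour at the times of the stages

`OWg 𝔇 T b d n i r R`: in the state after the stage `i` a needle is running and after the decided time `T`
of its strand there is a passage from the box of radius `r - 1` around `b` to distance `R` without touch of a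
wall (of the time `T`) of colour `0`, or without touch of a wall of colour `1`. The centre `b` is decided, for
example the base (`bas`).

* `pr_owg`: the probability is at most `C (r / R) ^ α`; `OWs`: the time of the state; `OWm`: the time `mvT` at the
  end of the next stage (also if this stage finishes the step); `OW0`: the time `0`, which is the time of an
  earlier state (`ow0_sub`);
* `OWa 𝔇 b d n m r R`: the union over the states `tst i`, `i ≤ m`, of `OWs` and `OWm`; it contains the passages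
  after the time `0`; `OWa.mem`, `OWa.mem_mv`, `OWa.mem_zero`, and with the states before the stages
  `OWa.mem_ts`, `OWa.mem_ts_t`, `OWa.mem_ts_zero` (`i ≤ m + 1`);
* `owa_real`: there is `κ > 0` for `m` and `η` such that the probability is at most `η` for all `r ≤ κ R`;
  `owa_small`: for `2 ^ h * r ≤ R` with `h` large for `m` and `η`;
* `smZ_owa`: the form of the row `rare` for radii with a quotient which tends to infinity;
* `OWh`: the radii `c * ls (d (m + 1) + k + h)` and `ls (d (m + 1) + k)`; `owh_small`, `owh_ev`.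
-/

set_option autoImplicit false

namespace Pool.Agent.SixB.TruW

open Filter Topology Finset Pool.Agent.Perc Pool.Agent.PercT Pool.Agent.PercX60
open Pool.Agent.SixB Pool.Agent.SixB.Rule Pool.Agent.SixB.Dct Pool.Agent.SixB.Mv
open Pool.Agent.SixB.Tru
open Pool.Agent.SixB.TruR (ts)

/-- The base of the needle `q`. -/
noncomputable def bas (s : TS) (q : Rule.Ndl) : ℤ × ℤ := ua (eS s.V q)

theorem pr_univ_eq (W : Finset (ℤ × ℤ)) : pr W (Set.univ : Set Cfg) = 1 := by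
  have h1 := pr_compl W (∅ : Set Cfg)
  have h2 : pr W (∅ : Set Cfg) = 0 := by rw [ProbA.pr_eq_sum]; simp
  rw [Set.compl_empty, h2, sub_zero] at h1
  exact h1

/-! ### Decided times -/

/-- A decided time of a state with a running needle: it is read from the faces which are visited up to this
time, and it is not earlier than the time of the state. -/
structure TimS (𝔇 : Dat) (d : ℕ → ℕ) (n : ℕ) (T : TS → Rule.Ndl → Cfg → ℕ) : Prop where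
  ge : ∀ (s : TS) (q : Rule.Ndl) (ω : Cfg), StOK 𝔇 d n s → s.q = some q → s.t ≤ T s q ω
  loc : ∀ (s : TS) (q : Rule.Ndl) (ω ω' : Cfg), (∀ f ∈ visS s.V q ω (T s q ω), ω f = ω' f) →
    T s q ω' = T s q ω

/-- The centre is decided at the time `T`. -/
def CenS (T : TS → Rule.Ndl → Cfg → ℕ) (b : TS → Rule.Ndl → Cfg → ℤ × ℤ) : Prop :=
  ∀ (s : TS) (q : Rule.Ndl) (ω ω' : Cfg), (∀ f ∈ visS s.V q ω (T s q ω), ω f = ω' f) →
    b s q ω' = b s q ω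

/-- The time of the state. -/
def tmS : TS → Rule.Ndl → Cfg → ℕ := fun s _ _ => s.t

/-- The time at the end of the next stage. -/
noncomputable def mvS (𝔇 : Dat) (d : ℕ → ℕ) (n : ℕ) : TS → Rule.Ndl → Cfg → ℕ := fun s q ω =>
  (𝔇.cs d s.x).run.elim s.t fun D => mvT 𝔇 d n s q D (𝔇.cs d s.x).ini ω

theorem timS_tm (𝔇 : Dat) (d : ℕ → ℕ) (n : ℕ) : TimS 𝔇 d n tmS where
  ge := fun _ _ _ _ _ => le_rfl
  loc := fun _ _ _ _ _ => rfl

theorem mvS_some {𝔇 : Dat} {d : ℕ → ℕ} {n : ℕ} {s : TS} {q : Rule.Ndl} {ω : Cfg} {D : Dom}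
    (hD : (𝔇.cs d s.x).run = some D) :
    mvS 𝔇 d n s q ω = mvT 𝔇 d n s q D (𝔇.cs d s.x).ini ω := by
  unfold mvS
  rw [hD]
  rfl

theorem mvS_none {𝔇 : Dat} {d : ℕ → ℕ} {n : ℕ} {s : TS} {q : Rule.Ndl} {ω : Cfg}
    (hD : (𝔇.cs d s.x).run = none) : mvS 𝔇 d n s q ω = s.t := by
  unfold mvS
  rw [hD]
  rfl

theorem timS_mv (𝔇 : Dat) (d : ℕ → ℕ) (n : ℕ) : TimS 𝔇 d n (mvS 𝔇 d n) where
  ge := by
    intro s q ω h hq
    rcases hD : (𝔇.cs d s.x).run with _ | D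
    · rw [mvS_none hD]
    · rw [mvS_some hD]
      exact le_mvTL h.ini
  loc := by
    intro s q ω ω' h
    rcases hD : (𝔇.cs d s.x).run with _ | D
    · rw [mvS_none hD, mvS_none hD]
    · rw [mvS_some hD] at h ⊢
      rw [mvS_some hD]
      exact mvT_loc h

/-- The explored faces of a state, with the exploration up to the time `T`. -/
def expG (T : TS → Rule.Ndl → Cfg → ℕ) (s : TS) (ω : Cfg) : Set (ℤ × ℤ) :=
  (FU s.V)ᶜ ∪ s.q.elim ∅ fun q => visS s.V q ω (T s q ω)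

theorem expG_some {T : TS → Rule.Ndl → Cfg → ℕ} {s : TS} {q : Rule.Ndl} (hq : s.q = some q) (ω : Cfg) :
    expG T s ω = (FU s.V)ᶜ ∪ visS s.V q ω (T s q ω) := by
  unfold expG
  rw [hq]
  rfl

theorem expS_sub_expG {𝔇 : Dat} {d : ℕ → ℕ} {n : ℕ} {T : TS → Rule.Ndl → Cfg → ℕ} (hT : TimS 𝔇 d n T)
    {s : TS} (hs : StOK 𝔇 d n s) (ω : Cfg) : expS s ω ⊆ expG T s ω := by
  rcases hq : s.q with _ | q
  · rw [expS_noneL hq]
    exact Set.subset_union_left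
  · rw [expS_someL hq, expG_some hq]
    exact Set.union_subset_union_right _ (visS_mono (hT.ge s q ω hs hq))

/-- The explored faces up to a decided time are a stopping set. -/
theorem expG_eq {𝔇 : Dat} {d : ℕ → ℕ} {n : ℕ} {T : TS → Rule.Ndl → Cfg → ℕ} (hT : TimS 𝔇 d n T)
    {i : ℕ} {ω ω' : Cfg} (h : ∀ f ∈ expG T (tst 𝔇 d n ω i) ω, ω f = ω' f) :
    tst 𝔇 d n ω' i = tst 𝔇 d n ω i ∧ expG T (tst 𝔇 d n ω' i) ω' = expG T (tst 𝔇 d n ω i) ω := by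
  have h1 : tst 𝔇 d n ω' i = tst 𝔇 d n ω i :=
    tst_loc fun f hf => h f (expS_sub_expG hT (stOK ω i) ω hf)
  refine ⟨h1, ?_⟩
  rw [h1]
  rcases hq : (tst 𝔇 d n ω i).q with _ | q
  · unfold expG
    rw [hq]
    rfl
  · rw [expG_some hq] at h
    rw [expG_some hq, expG_some hq]
    have h2 : ∀ f ∈ visS (tst 𝔇 d n ω i).V q ω (T (tst 𝔇 d n ω i) q ω), ω f = ω' f := fun f hf =>
      h f (Or.inr hf)
    rw [hT.loc _ _ _ _ h2, visS_loc h2]

/-- In the state after the stage `i` a needle is running, and after the time `T` of its strand there is a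
passage around `b` with walls of one colour. -/
def OWg (𝔇 : Dat) (T : TS → Rule.Ndl → Cfg → ℕ) (b : TS → Rule.Ndl → Cfg → ℤ × ℤ) (d : ℕ → ℕ)
    (n i : ℕ) (r R : ℤ) : Set Cfg :=
  {ω | ∃ q, (tst 𝔇 d n ω i).q = some q ∧
    ((exS (tst 𝔇 d n ω i).V q).OneWall 0 ω (T (tst 𝔇 d n ω i) q ω) (b (tst 𝔇 d n ω i) q ω) r R ∨
      (exS (tst 𝔇 d n ω i).V q).OneWall 1 ω (T (tst 𝔇 d n ω i) q ω) (b (tst 𝔇 d n ω i) q ω) r R)}

/-- **Passages with walls of one colour are rare.** -/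
theorem pr_owg : ∃ C α : ℝ, 1 ≤ C ∧ 0 < α ∧ ∀ (𝔇 : Dat) (d : ℕ → ℕ) (n : ℕ)
    (T : TS → Rule.Ndl → Cfg → ℕ) (b : TS → Rule.Ndl → Cfg → ℤ × ℤ), TimS 𝔇 d n T → CenS T b →
    ∀ (i : ℕ) (r R : ℤ), 0 < r → 0 < R → pr (Sn n) (OWg 𝔇 T b d n i r R) ≤ C * ((r : ℝ) / R) ^ α := by
  obtain ⟨C, α, hC, hα, h⟩ := pr_fArm_scale_stop
  refine ⟨2 * C, α, by linarith, hα, ?_⟩
  intro 𝔇 d n T b hT hb i r R hr hR
  set S : Cfg → Set (ℤ × ℤ) := fun ω => expG T (tst 𝔇 d n ω i) ω with hS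
  set z : Cfg → ℤ × ℤ := fun ω => (tst 𝔇 d n ω i).q.elim 0 fun q => b (tst 𝔇 d n ω i) q ω with hz
  have hstop : StopS S := fun ω ω' h1 => (expG_eq hT h1).2
  have hadp : Adp S z := by
    intro ω ω' h1
    show (tst 𝔇 d n ω' i).q.elim 0 _ = (tst 𝔇 d n ω i).q.elim 0 _
    have h2 : ∀ f ∈ expG T (tst 𝔇 d n ω i) ω, ω f = ω' f := h1
    rw [(expG_eq hT h2).1]
    rcases hq : (tst 𝔇 d n ω i).q with _ | q
    · rfl
    · rw [expG_some hq] at h2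
      exact hb _ _ _ _ fun f hf => h2 f (Or.inr hf)
  have hdet : DetS S (Set.univ : Set Cfg) := fun _ _ _ _ => Set.mem_univ _
  have key : ∀ c : ℤ, pr (Sn n) {ω | ω ∈ FArm c ((Sn n : Set (ℤ × ℤ)) \ S ω) (z ω) r R} ≤
      C * ((r : ℝ) / R) ^ α := by
    intro c
    have h1 := h (Sn n) S hstop Set.univ hdet (fun _ => c) z (Adp.const c) hadp r R hr hR
    rw [Set.univ_inter, pr_univ_eq, mul_one] at h1
    exact h1
  have hsub : OWg 𝔇 T b d n i r R ⊆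
      {ω | ω ∈ FArm 0 ((Sn n : Set (ℤ × ℤ)) \ S ω) (z ω) r R} ∪
        {ω | ω ∈ FArm 1 ((Sn n : Set (ℤ × ℤ)) \ S ω) (z ω) r R} := by
    rintro ω ⟨q, hq, h1⟩
    have hzω : z ω = b (tst 𝔇 d n ω i) q ω := by
      show (tst 𝔇 d n ω i).q.elim 0 _ = _
      rw [hq]
      rfl
    have hfr : (exS (tst 𝔇 d n ω i).V q).Fr ω (T (tst 𝔇 d n ω i) q ω) ⊆
        (Sn n : Set (ℤ × ℤ)) \ S ω := by
      intro f hf
      have hU : f ∈ FU (tst 𝔇 d n ω i).V := hf.1.1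
      refine ⟨NM.fu_sub_Sn (stOK ω i).sub hU, ?_⟩
      show f ∉ expG T (tst 𝔇 d n ω i) ω
      rw [expG_some hq]
      rintro (h2 | h2)
      · exact h2 hU
      · exact hf.2 h2
    rcases h1 with h1 | h1
    · refine Or.inl ?_
      rw [Set.mem_ofPred_eq, hzω]
      exact h1.fArm (Or.inl rfl) hfr
    · refine Or.inr ?_
      rw [Set.mem_ofPred_eq, hzω]
      exact h1.fArm (Or.inr rfl) hfr
  refine (pr_mono _ hsub).trans ((pr_union_le _ _ _).trans ?_)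
  have h0 := key 0
  have h1 := key 1
  linarith

/-! ### The passages around the base -/

/-- A passage after the time of the state of the stage `i`. -/
def OWs (𝔇 : Dat) (b : TS → Rule.Ndl → ℤ × ℤ) (d : ℕ → ℕ) (n i : ℕ) (r R : ℤ) : Set Cfg :=
  OWg 𝔇 tmS (fun s q _ => b s q) d n i r R

/-- A passage after the time at the end of the stage `i + 1`. -/
def OWm (𝔇 : Dat) (b : TS → Rule.Ndl → ℤ × ℤ) (d : ℕ → ℕ) (n i : ℕ) (r R : ℤ) : Set Cfg :=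
  OWg 𝔇 (mvS 𝔇 d n) (fun s q _ => b s q) d n i r R

/-- A passage after the time `0`. -/
def OW0 (𝔇 : Dat) (b : TS → Rule.Ndl → ℤ × ℤ) (d : ℕ → ℕ) (n i : ℕ) (r R : ℤ) : Set Cfg :=
  OWg 𝔇 (fun _ _ _ => 0) (fun s q _ => b s q) d n i r R

/-- **Passages with walls of one colour are rare, at the times of the stages.** -/
theorem pr_ows : ∃ C α : ℝ, 1 ≤ C ∧ 0 < α ∧ ∀ (𝔇 : Dat) (b : TS → Rule.Ndl → ℤ × ℤ) (d : ℕ → ℕ) (n i : ℕ)
    (r R : ℤ), 0 < r → 0 < R → pr (Sn n) (OWs 𝔇 b d n i r R) ≤ C * ((r : ℝ) / R) ^ α ∧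
      pr (Sn n) (OWm 𝔇 b d n i r R) ≤ C * ((r : ℝ) / R) ^ α := by
  obtain ⟨C, α, hC, hα, h⟩ := pr_owg
  refine ⟨C, α, hC, hα, fun 𝔇 b d n i r R hr hR => ⟨?_, ?_⟩⟩
  · exact h 𝔇 d n _ _ (timS_tm 𝔇 d n) (fun _ _ _ _ _ => rfl) i r R hr hR
  · exact h 𝔇 d n _ _ (timS_mv 𝔇 d n) (fun _ _ _ _ _ => rfl) i r R hr hR

/-! ### The time `0` -/

/-- A running needle was placed in an earlier stage. -/
theorem exists_placed {𝔇 : Dat} {d : ℕ → ℕ} {n : ℕ} {ω : Cfg} {i : ℕ} {q : Rule.Ndl}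
    (hq : (tst 𝔇 d n ω i).q = some q) : ∃ i₀ ≤ i, (tst 𝔇 d n ω i₀).V = (tst 𝔇 d n ω i).V ∧
      (tst 𝔇 d n ω i₀).q = some q ∧ (tst 𝔇 d n ω i₀).t = 0 := by
  have hfin : ∀ (s : TS) (q₁ : Rule.Ndl) (t : ℕ) (x : List Rec),
      (finS 𝔇 d n s q₁ t x ω).q = some q → q₁ = q ∧ (finS 𝔇 d n s q₁ t x ω).V = s.V := by
    intro s q₁ t x h
    unfold finS at h ⊢
    split at h
    · simp only [Option.some.injEq] at h
      exact ⟨h, rfl⟩
    · cases h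
  have hnx : ∀ s : TS, (nxS 𝔇 d n s ω).q = some q →
      (s.q = some q ∧ (nxS 𝔇 d n s ω).V = s.V) ∨ (nxS 𝔇 d n s ω).t = 0 := by
    intro s h
    unfold nxS at h ⊢
    split at h
    · rename_i q₁ D hq₁ hD
      simp only [hq₁] at h ⊢
      obtain ⟨h1, h2⟩ := hfin _ _ _ _ h
      exact Or.inl ⟨by rw [h1], h2⟩
    · rename_i q₁ hq₁ hD
      simp only [hq₁] at h ⊢
      obtain ⟨h1, h2⟩ := hfin _ _ _ _ h
      exact Or.inl ⟨by rw [h1], h2⟩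
    · cases h
    · rename_i hq₁ hD
      simp only [hq₁] at h ⊢
      exact Or.inr rfl
  induction i with
  | zero =>
    rcases hnx ⟨Box n, none, 0, []⟩ hq with ⟨h1, -⟩ | h1
    · cases h1
    · exact ⟨0, le_rfl, rfl, hq, h1⟩
  | succ i ih =>
    rcases hnx (tst 𝔇 d n ω i) hq with ⟨h1, h2⟩ | h1
    · obtain ⟨i₀, h3, h4, h5, h6⟩ := ih h1
      exact ⟨i₀, by omega, h4.trans h2.symm, h5, h6⟩
    · exact ⟨i + 1, le_rfl, rfl, hq, h1⟩

/-- A centre which depends on the remaining set and the needle only. -/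
theorem ow0_sub {𝔇 : Dat} {b : TS → Rule.Ndl → ℤ × ℤ} {d : ℕ → ℕ} {n i : ℕ} {r R : ℤ}
    (hb : ∀ s s' : TS, ∀ q, s.V = s'.V → b s q = b s' q) {ω : Cfg} (h : ω ∈ OW0 𝔇 b d n i r R) :
    ∃ i₀ ≤ i, ω ∈ OWs 𝔇 b d n i₀ r R := by
  obtain ⟨q, hq, h1⟩ := h
  obtain ⟨i₀, h2, h3, h4, h5⟩ := exists_placed hq
  refine ⟨i₀, h2, q, h4, ?_⟩
  show (exS (tst 𝔇 d n ω i₀).V q).OneWall 0 ω (tst 𝔇 d n ω i₀).t (b (tst 𝔇 d n ω i₀) q) r R ∨
    (exS (tst 𝔇 d n ω i₀).V q).OneWall 1 ω (tst 𝔇 d n ω i₀).t (b (tst 𝔇 d n ω i₀) q) r R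
  rw [h5, h3, hb _ _ q h3]
  exact h1

theorem bas_eq (s s' : TS) (q : Rule.Ndl) (h : s.V = s'.V) : bas s q = bas s' q := by
  unfold bas
  rw [h]

/-! ### All stages -/

/-- In a stage `≤ m` there is a passage with walls of one colour around `b`, after the time of the state or
after the time at the end of the next stage. -/
def OWa (𝔇 : Dat) (b : TS → Rule.Ndl → ℤ × ℤ) (d : ℕ → ℕ) (n m : ℕ) (r R : ℤ) : Set Cfg :=
  {ω | ∃ i < m + 1, ω ∈ OWs 𝔇 b d n i r R ∪ OWm 𝔇 b d n i r R}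

section mem

variable {𝔇 : Dat} {b : TS → Rule.Ndl → ℤ × ℤ} {d : ℕ → ℕ} {n m i : ℕ} {r R : ℤ} {ω : Cfg}
  {q : Rule.Ndl} {c : ℤ} {D : Dom}

/-- After the time of the state `tst i`, `i ≤ m`. -/
theorem OWa.mem (hi : i ≤ m) (hc : c = 0 ∨ c = 1) (hq : (tst 𝔇 d n ω i).q = some q)
    (h : (exS (tst 𝔇 d n ω i).V q).OneWall c ω (tst 𝔇 d n ω i).t (b (tst 𝔇 d n ω i) q) r R) :
    ω ∈ OWa 𝔇 b d n m r R := by
  refine ⟨i, by omega, Or.inl ⟨q, hq, ?_⟩⟩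
  rcases hc with rfl | rfl
  · exact Or.inl h
  · exact Or.inr h

/-- After the time at the end of the next stage, from the state `tst i`, `i ≤ m`. -/
theorem OWa.mem_mv (hi : i ≤ m) (hc : c = 0 ∨ c = 1) (hq : (tst 𝔇 d n ω i).q = some q)
    (hD : (𝔇.cs d (tst 𝔇 d n ω i).x).run = some D)
    (h : (exS (tst 𝔇 d n ω i).V q).OneWall c ω
      (mvT 𝔇 d n (tst 𝔇 d n ω i) q D (𝔇.cs d (tst 𝔇 d n ω i).x).ini ω) (b (tst 𝔇 d n ω i) q) r R) :
    ω ∈ OWa 𝔇 b d n m r R := by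
  refine ⟨i, by omega, Or.inr ⟨q, hq, ?_⟩⟩
  rw [mvS_some hD]
  rcases hc with rfl | rfl
  · exact Or.inl h
  · exact Or.inr h

/-- After the time `0` of the strand, around the base. -/
theorem OWa.mem_zero (hi : i ≤ m) (hc : c = 0 ∨ c = 1) (hq : (tst 𝔇 d n ω i).q = some q)
    (h : (exS (tst 𝔇 d n ω i).V q).OneWall c ω 0 (ua (eS (tst 𝔇 d n ω i).V q)) r R) :
    ω ∈ OWa 𝔇 bas d n m r R := by
  have h1 : ω ∈ OW0 𝔇 bas d n i r R := by
    refine ⟨q, hq, ?_⟩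
    rcases hc with rfl | rfl
    · exact Or.inl h
    · exact Or.inr h
  obtain ⟨i₀, h2, h3⟩ := ow0_sub bas_eq h1
  exact ⟨i₀, by omega, Or.inl h3⟩

/-- The state before the stage `i ≤ m + 1`, with a running needle. -/
theorem exists_ts (hq : (ts 𝔇 d n ω i).q = some q) (hi : i ≤ m + 1) :
    ∃ j ≤ m, ts 𝔇 d n ω i = tst 𝔇 d n ω j := by
  cases i with
  | zero => cases hq
  | succ j => exact ⟨j, by omega, rfl⟩

/-- The form with the state before the stage: after the time at the end of the stage `i`. -/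
theorem OWa.mem_ts (hi : i ≤ m + 1) (hc : c = 0 ∨ c = 1) (hq : (ts 𝔇 d n ω i).q = some q)
    (hD : (𝔇.cs d (ts 𝔇 d n ω i).x).run = some D) (hini : (𝔇.cs d (ts 𝔇 d n ω i).x).ini = false)
    (h : (exS (ts 𝔇 d n ω i).V q).OneWall c ω (mvT 𝔇 d n (ts 𝔇 d n ω i) q D false ω)
      (ua (eS (ts 𝔇 d n ω i).V q)) r R) : ω ∈ OWa 𝔇 bas d n m r R := by
  obtain ⟨j, hj, hij⟩ := exists_ts hq hi
  rw [hij] at hq hD hini h
  refine OWa.mem_mv hj hc hq hD ?_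
  rw [hini]
  exact h

/-- The form with the state before the stage: after the time of the state. -/
theorem OWa.mem_ts_t (hi : i ≤ m + 1) (hc : c = 0 ∨ c = 1) (hq : (ts 𝔇 d n ω i).q = some q)
    (h : (exS (ts 𝔇 d n ω i).V q).OneWall c ω (ts 𝔇 d n ω i).t
      (ua (eS (ts 𝔇 d n ω i).V q)) r R) : ω ∈ OWa 𝔇 bas d n m r R := by
  obtain ⟨j, hj, hij⟩ := exists_ts hq hi
  rw [hij] at hq h
  exact OWa.mem hj hc hq h

/-- The form with the state before the stage: after the time `0`. -/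
theorem OWa.mem_ts_zero (hi : i ≤ m + 1) (hc : c = 0 ∨ c = 1) (hq : (ts 𝔇 d n ω i).q = some q)
    (h : (exS (ts 𝔇 d n ω i).V q).OneWall c ω 0 (ua (eS (ts 𝔇 d n ω i).V q)) r R) :
    ω ∈ OWa 𝔇 bas d n m r R := by
  obtain ⟨j, hj, hij⟩ := exists_ts hq hi
  rw [hij] at hq h
  exact OWa.mem_zero hj hc hq h

end mem

/-- A smaller box and a larger distance. -/
theorem oneWall_mono {E : Ex} {c : ℤ} {ω : Cfg} {s : ℕ} {z : ℤ × ℤ} {r r' R R' : ℤ}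
    (h : E.OneWall c ω s z r R) (h1 : r ≤ r') (h2 : R' ≤ R) : E.OneWall c ω s z r' R' := by
  obtain ⟨i, j, a1, a2, a3, a4, a5⟩ := h
  refine ⟨i, j, a1, a2, ?_, fun h => a4 ?_, a5⟩
  · obtain ⟨b1, b2, b3, b4⟩ := a3
    exact ⟨by omega, by omega, by omega, by omega⟩
  · obtain ⟨b1, b2, b3, b4⟩ := h
    exact ⟨by omega, by omega, by omega, by omega⟩

theorem owg_mono {𝔇 : Dat} {T : TS → Rule.Ndl → Cfg → ℕ} {b : TS → Rule.Ndl → Cfg → ℤ × ℤ} {d : ℕ → ℕ}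
    {n i : ℕ} {r r' R R' : ℤ} (h1 : r ≤ r') (h2 : R' ≤ R) :
    OWg 𝔇 T b d n i r R ⊆ OWg 𝔇 T b d n i r' R' := by
  rintro ω ⟨q, hq, h | h⟩
  · exact ⟨q, hq, Or.inl (oneWall_mono h h1 h2)⟩
  · exact ⟨q, hq, Or.inr (oneWall_mono h h1 h2)⟩

theorem owa_mono {𝔇 : Dat} {b : TS → Rule.Ndl → ℤ × ℤ} {d : ℕ → ℕ} {n m m' : ℕ}
    {r r' R R' : ℤ} (hm : m ≤ m') (h1 : r ≤ r') (h2 : R' ≤ R) :
    OWa 𝔇 b d n m r R ⊆ OWa 𝔇 b d n m' r' R' := by
  rintro ω ⟨i, hi, h | h⟩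
  · exact ⟨i, by omega, Or.inl (owg_mono h1 h2 h)⟩
  · exact ⟨i, by omega, Or.inr (owg_mono h1 h2 h)⟩

/-- **The passages of the stages `≤ m` are rare**, real form. -/
theorem owa_real (m : ℕ) {η : ℝ} (hη : 0 < η) : ∃ κ : ℝ, 0 < κ ∧ κ ≤ 1 ∧ ∀ (𝔇 : Dat)
    (b : TS → Rule.Ndl → ℤ × ℤ) (d : ℕ → ℕ) (n : ℕ) (r R : ℤ), 0 < r → (r : ℝ) ≤ κ * R →
    pr (Sn n) (OWa 𝔇 b d n m r R) ≤ η := by
  obtain ⟨C, α, hC, hα, hmain⟩ := pr_ows
  obtain ⟨x₀, hx₀, hx⟩ := NM.exists_small (B := (m + 1 : ℝ) * (2 * C)) (by positivity) hα hη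
  refine ⟨min x₀ 1, lt_min hx₀ one_pos, min_le_right _ _, fun 𝔇 b d n r R hr hR => ?_⟩
  have hr' : (0 : ℝ) < r := by exact_mod_cast hr
  have hR' : (0 : ℝ) < R := by
    have h1 : 0 < min x₀ 1 * (R : ℝ) := lt_of_lt_of_le hr' hR
    exact (mul_pos_iff_of_pos_left (lt_min hx₀ one_pos)).1 h1
  have hR0 : 0 < R := by exact_mod_cast hR'
  have h1 : (r : ℝ) / R ≤ x₀ := by
    rw [div_le_iff₀ hR']
    exact hR.trans (mul_le_mul_of_nonneg_right (min_le_left _ _) hR'.le)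
  have h2 := pr_biUnion_le (Sn n) (fun i => OWs 𝔇 b d n i r R ∪ OWm 𝔇 b d n i r R)
    (fun _ => 2 * C * ((r : ℝ) / R) ^ α) (m + 1) fun i _ => by
      have h3 := hmain 𝔇 b d n i r R hr hR0
      have h4 := pr_union_le (Sn n) (OWs 𝔇 b d n i r R) (OWm 𝔇 b d n i r R)
      linarith [h3.1, h3.2]
  rw [sum_const, card_range, nsmul_eq_mul] at h2
  refine h2.trans ?_
  have h3 := hx ((r : ℝ) / R) (by positivity) h1
  push_cast
  rw [← mul_assoc]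
  exact h3

/-- **The passages of the stages `≤ m` are rare.** -/
theorem owa_small (m : ℕ) {η : ℝ} (hη : 0 < η) : ∃ h : ℕ, ∀ (𝔇 : Dat) (b : TS → Rule.Ndl → ℤ × ℤ)
    (d : ℕ → ℕ) (n : ℕ) (r R : ℤ), 0 < r → 2 ^ h * r ≤ R → pr (Sn n) (OWa 𝔇 b d n m r R) ≤ η := by
  obtain ⟨κ, hκ, hκ1, hmain⟩ := owa_real m hη
  obtain ⟨h, hh⟩ := exists_pow_lt_of_lt_one hκ (show (1 / 2 : ℝ) < 1 by norm_num)
  refine ⟨h, fun 𝔇 b d n r R hr hR => hmain 𝔇 b d n r R hr ?_⟩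
  have hp : (0 : ℝ) < 2 ^ h := by positivity
  have hr' : (0 : ℝ) < r := by exact_mod_cast hr
  have h2 : (2 : ℝ) ^ h * r ≤ R := by exact_mod_cast hR
  have h3 : (r : ℝ) ≤ (1 / 2) ^ h * R := by
    rw [one_div_pow, div_mul_eq_mul_div, one_mul, le_div_iff₀ hp]
    linarith
  refine h3.trans (mul_le_mul_of_nonneg_right hh.le ?_)
  have : (0 : ℝ) < 2 ^ h * r := by positivity
  linarith

/-- **The form of the row `rare`**: radii whose quotient tends to infinity. -/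
theorem smZ_owa (𝔇 : Dat) (b : TS → Rule.Ndl → ℤ × ℤ) {G : ℕ → ℕ → ℕ}
    {r R : (ℕ → ℕ) → ℕ → ℕ → ℤ}
    (hr : ∀ m e h : ℕ, ∃ L : ℕ, ∀ d : ℕ → ℕ, d (m + 1) = e → L ≤ d m → GroF G (m + 1) d →
      ∀ᶠ n in atTop, 0 < r d n m ∧ 2 ^ h * r d n m ≤ R d n m) :
    SmZ G fun d n m => OWa 𝔇 b d n m (r d n m) (R d n m) := by
  intro m e η hη
  obtain ⟨h, hh⟩ := owa_small m hη
  obtain ⟨L, hL⟩ := hr m e h
  refine ⟨L, fun d h1 h2 h3 => ?_⟩
  filter_upwards [hL d h1 h2 h3] with n hn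
  exact hh 𝔇 b d n _ _ hn.1 hn.2

/-! ### The radii of a stage, for a free `h` -/

/-- The passages between the scales `c * ls (e + k + h)` and `ls (e + k)`, `e = d (m + 1)`. -/
def OWh (𝔇 : Dat) (b : TS → Rule.Ndl → ℤ × ℤ) (c : ℤ) (k h : ℕ) : EvF := fun d n m =>
  OWa 𝔇 b d n m (c * Sc.ls d n (d (m + 1) + k + h)) (Sc.ls d n (d (m + 1) + k))

/-- **The passages between two scales of the stage are rare if `h` is large.** -/
theorem owh_small (m : ℕ) {c : ℤ} (hc : 0 < c) {η : ℝ} (hη : 0 < η) : ∃ h₀ : ℕ, ∀ h ≥ h₀, ∀ (𝔇 : Dat)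
    (b : TS → Rule.Ndl → ℤ × ℤ) (k : ℕ) (d : ℕ → ℕ) (n : ℕ), d (m + 1) + k + h ≤ d 0 → 2 ^ d 0 ≤ n →
    pr (Sn n) (OWh 𝔇 b c k h d n m) ≤ η := by
  obtain ⟨h₀, hh⟩ := owa_small m hη
  obtain ⟨j, hj⟩ := pow_unbounded_of_one_lt c (show (1 : ℤ) < 2 by norm_num)
  refine ⟨h₀ + j, fun h h1 𝔇 b k d n h2 h3 => ?_⟩
  refine hh 𝔇 b d n _ _ (mul_pos hc (Sc.ls_pos h3 _)) ?_
  have h4 : Sc.ls d n (d (m + 1) + k + h) * 2 ^ (h₀ + j) ≤ Sc.ls d n (d (m + 1) + k) :=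
    Sc.ls_quot n (by omega) h2
  have h5 : 0 < Sc.ls d n (d (m + 1) + k + h) := Sc.ls_pos h3 _
  have h6 : (0 : ℤ) < 2 ^ h₀ := by positivity
  calc (2 : ℤ) ^ h₀ * (c * Sc.ls d n (d (m + 1) + k + h))
      ≤ 2 ^ h₀ * (2 ^ j * Sc.ls d n (d (m + 1) + k + h)) :=
        mul_le_mul_of_nonneg_left (mul_le_mul_of_nonneg_right hj.le h5.le) h6.le
    _ = Sc.ls d n (d (m + 1) + k + h) * 2 ^ (h₀ + j) := by rw [pow_add]; ring
    _ ≤ _ := h4

/-- The event for a fixed `h` is small for the stage `m`, in the form which is combined with the gates. -/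
theorem owh_ev (𝔇 : Dat) (b : TS → Rule.Ndl → ℤ × ℤ) {G : ℕ → ℕ → ℕ} (hG : ∀ i e, e ≤ G i e) (m : ℕ)
    {c : ℤ} (hc : 0 < c) {η : ℝ} (hη : 0 < η) : ∃ h₀ : ℕ, ∀ h ≥ h₀, ∀ k e : ℕ, ∀ d : ℕ → ℕ,
    d (m + 1) = e → e + k + h ≤ d m → GroF G (m + 1) d →
    ∀ᶠ n in atTop, pr (Sn n) (OWh 𝔇 b c k h d n m) ≤ η := by
  obtain ⟨h₀, hh⟩ := owh_small m hc hη
  refine ⟨h₀, fun h h1 k e d h2 h3 h4 => ?_⟩
  have h5 : d m ≤ d 0 := by
    have h6 : ∀ i ≤ m, d i ≤ d 0 := by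
      intro i
      induction i with
      | zero => intro _; exact le_rfl
      | succ i ih =>
        intro hi
        exact ((hG i _).trans (h4 i (by omega))).trans (ih (by omega))
    exact h6 m le_rfl
  filter_upwards [eventually_ge_atTop (2 ^ d 0)] with n hn
  exact hh h h1 𝔇 b k d n (by omega) hn

end Pool.Agent.SixB.TruW
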