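import Pool.Agent.Lib.SixB.S8RareG2
import Pool.Agent.Lib.SixB.S8RareI
import Pool.Agent.Lib.SixB.S8FinR
import Pool.Agent.Lib.SixB.S8ParBase
import Pool.Agent.Lib.SixB.S8NearCountB
import Pool.Agent.Lib.SixB.S8RareW

/-!
# Step 8: the probability half of the row `RowStgS`

* `ZQ`: in one of the steps there is a new gate of radius `w` far from the tip and from the base;
  `gate_of_notMem`: outside of this event every gate of a running strand is near the tip or near the base;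
* `RdQ`: two nested pairs of radii and the distance of the gates, `RdQ.Ok`: the relations between them;
* `sideQ_of`: outside of an event of small probability the gates are near the tip or near the base, at
  all times, and there is no passage with walls of one colour at the end of a stage, for both pairs.
-/

set_option autoImplicit false

namespace Pool.Agent.SixB.Cov

open Filter Topology Finset Pool.Agent.Perc Pool.Agent.PercT Pool.Agent.PercX60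
open Pool.Agent.SixB Pool.Agent.SixB.Rule Pool.Agent.SixB.Dct Pool.Agent.SixB.Mv
open Pool.Agent.SixB.Tru Pool.Agent.SixB.NearCut
open Pool.Agent.SixB.TruR (ts ruleT ruleT_ok cnt)
open Pool.Agent.SixB.Near (Bx)
open Pool.Agent.SixB.Par (Nb2)

/-! ### The gates -/

/-- New gates in one of the steps. -/
def ZQ (𝔇 : Dat) (d : ℕ → ℕ) (n : ℕ) (C w D : ℤ) : Set Cfg :=
  {ω | ∃ j < 𝔇.m, NM.Nds n (ruleT 𝔇 d n) C 2 j ω ∧ ∃ N, ∃ z₁ : ℤ × ℤ,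
    NM.NewG (exR n (ruleT 𝔇 d n) j) ω N z₁ w D}

theorem nb2_of_bx {a : UE} {z : ℤ × ℤ} {D : ℤ} (h : fa a ∈ Bx z D) : Nb2 (ua a) z D := by
  have hc : IsCor (fa a) (ua a) := (LC.side_cor (isSide_fa a) (Or.inl ⟨rfl, rfl⟩)).1
  have h1 := Near.inR_of_cor hc h
  unfold InR at h1
  unfold Nb2
  rw [abs_le, abs_le]
  omega

section Gates

variable {𝔇 : Dat} {d : ℕ → ℕ} {n m K : ℕ} {ω : Cfg} {q : Rule.Ndl} {c₀ C w D : ℤ}

/-- **Outside of the event every gate is near the tip or near the base**, at every time. -/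
theorem gate_of_notMem (hu : 0 < unt d n) (hc₀ : 0 ≤ c₀) (hd : ∀ i ≤ m, d m ≤ d i)
    (hI : ∀ i ≤ m, HkI c₀ K d n i (tst 𝔇 d n ω i) ω) (hC : c₀ * Sc.ls d n (d m) ≤ C)
    (hR : 5 * w + 2 * (c₀ * Sc.ls d n (d m)) + 8 * unt d n + 16 ≤ D)
    (hq : (tst 𝔇 d n ω m).q = some q) (hω : ω ∉ ZQ 𝔇 d n C w D) {t : ℕ}
    (hNb : Nb (cfS (tst 𝔇 d n ω m).V q ω) (Tru.eS (tst 𝔇 d n ω m).V q) t) {z : ℤ × ℤ} {w' : ℤ}
    (hw : w' ≤ w) (hg : (exS (tst 𝔇 d n ω m).V q).Gate ω t z w') :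
    Nb2 (ua (pS (tst 𝔇 d n ω m).V q ω t)) z D ∨ Nb2 (ua (Tru.eS (tst 𝔇 d n ω m).V q)) z D := by
  by_contra hno
  rw [not_or] at hno
  have h1 : fa (pS (tst 𝔇 d n ω m).V q ω t) ∉ Bx z D := fun h => hno.1 (nb2_of_bx h)
  have h2 : fa (Tru.eS (tst 𝔇 d n ω m).V q) ∉ Bx z D := fun h => hno.2 (nb2_of_bx h)
  obtain ⟨j, hj, hj'⟩ := TruG.exists_run hq
  refine hω ⟨j, hj, ?_, t, z, TruG.newG_of hq hj' hNb (hg.mono hw) ?_ h1 h2⟩
  · have h3 : NM.Nds n (ruleT 𝔇 d n) (c₀ * Sc.ls d n (d m)) 2 j ω := by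
      refine nds_of hc₀ hd (fun i hi => (hI i hi).ndI hu) ?_
      have : (𝔇.cs d (tst 𝔇 d n ω m).x).j = j + 1 := hj'
      omega
    exact fun i hi q' hq' => NdC.NdOK.mono (h3 i hi q' hq') hC le_rfl
  · exact (hI m le_rfl).not_gate hu hq hR h2

/-- The same for the state before the stage `i`. -/
theorem gate_of_notMem' {i : ℕ} (hu : 0 < unt d n) (hc₀ : 0 ≤ c₀)
    (hd : ∀ l < i, d (i - 1) ≤ d l) (hI : ∀ l < i, HkI c₀ K d n l (tst 𝔇 d n ω l) ω)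
    (hC : c₀ * Sc.ls d n (d (i - 1)) ≤ C)
    (hR : 5 * w + 2 * (c₀ * Sc.ls d n (d (i - 1))) + 8 * unt d n + 16 ≤ D)
    (hq : (ts 𝔇 d n ω i).q = some q) (hω : ω ∉ ZQ 𝔇 d n C w D) {t : ℕ}
    (hNb : Nb (cfS (ts 𝔇 d n ω i).V q ω) (Tru.eS (ts 𝔇 d n ω i).V q) t) {z : ℤ × ℤ} {w' : ℤ}
    (hw : w' ≤ w) (hg : (exS (ts 𝔇 d n ω i).V q).Gate ω t z w') :
    Nb2 (ua (pS (ts 𝔇 d n ω i).V q ω t)) z D ∨ Nb2 (ua (Tru.eS (ts 𝔇 d n ω i).V q)) z D := by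
  cases i with
  | zero => cases hq
  | succ m =>
    exact gate_of_notMem (m := m) hu hc₀ (fun l hl => hd l (by omega)) (fun l hl => hI l (by omega)) hC hR
      hq hω hNb hw hg

end Gates

/-! ### The radii -/

/-- Two nested pairs of radii and the distance of the gates. -/
structure RdQ where
  /-- the inner pair -/
  ρa : ℤ
  /-- the inner pair -/
  Ra : ℤ
  /-- the outer pair -/
  ρb : ℤ
  /-- the outer pair -/
  Rb : ℤ
  /-- the distance of the gates -/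
  δ : ℤ

/-- The radii with the exponent `k`. -/
def rdQ (K k n : ℕ) : RdQ where
  ρa := ((n / K / 2 ^ k / 8 / 2 ^ k : ℕ) : ℤ)
  Ra := ((n / K / 2 ^ k / 8 : ℕ) : ℤ)
  ρb := ((n / K / 2 ^ k : ℕ) : ℤ)
  Rb := ((n / K : ℕ) : ℤ)
  δ := ((n / K / 2 ^ k / 8 / 2 ^ k / 16 : ℕ) : ℤ)

/-- The relations between the radii. -/
structure RdQ.Ok (x : RdQ) (K : ℕ) (c : ℤ) (d : ℕ → ℕ) (n N : ℕ) : Prop where
  da : 16 * x.δ ≤ x.ρa
  aa : x.ρa ≤ x.Ra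
  ab : 8 * x.Ra ≤ x.ρb
  bb : x.ρb ≤ x.Rb
  b : x.Rb = ((n / K : ℕ) : ℤ)
  sc : c * Sc.ls d n (d N) ≤ x.δ
  lp : 1 ≤ Sc.ls d n (d N)

theorem rdQ_ok {K k : ℕ} {c : ℤ} {d : ℕ → ℕ} {n N : ℕ}
    (h : c * Sc.ls d n (d N) ≤ ((n / K / 2 ^ k / 8 / 2 ^ k / 16 : ℕ) : ℤ))
    (hn : 2 ^ d 0 ≤ n) : (rdQ K k n).Ok K c d n N where
  da := by
    change 16 * ((n / K / 2 ^ k / 8 / 2 ^ k / 16 : ℕ) : ℤ) ≤ ((n / K / 2 ^ k / 8 / 2 ^ k : ℕ) : ℤ)
    exact_mod_cast Nat.mul_div_le _ 16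
  aa := by
    change ((n / K / 2 ^ k / 8 / 2 ^ k : ℕ) : ℤ) ≤ ((n / K / 2 ^ k / 8 : ℕ) : ℤ)
    exact_mod_cast Nat.div_le_self _ _
  ab := by
    change 8 * ((n / K / 2 ^ k / 8 : ℕ) : ℤ) ≤ ((n / K / 2 ^ k : ℕ) : ℤ)
    exact_mod_cast Nat.mul_div_le _ 8
  bb := by
    change ((n / K / 2 ^ k : ℕ) : ℤ) ≤ ((n / K : ℕ) : ℤ)
    exact_mod_cast Nat.div_le_self _ _
  b := rfl
  sc := h
  lp := Sc.ls_pos hn _

theorem unt_msh (d : ℕ → ℕ) (n l : ℕ) : ((unt d n : ℕ) : ℤ) * msh d l = Sc.ls d n (d l) := rfl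

/-- The radii of the anchors are small. -/
theorem rad_le_ls {C : ℤ} (hC : 0 ≤ C) {d : ℕ → ℕ} {i N : ℕ} (n : ℕ) (hd : ∀ l < i, d N ≤ d l) :
    rad C (unt d n) d i ≤ C * (i + 1) * Sc.ls d n (d N) := by
  have h1 : rad C (unt d n) d i = C * ((unt d n : ℕ) + ∑ l ∈ range i, Sc.ls d n (d l)) := by
    unfold rad
    simp only [← unt_msh]
    rw [← mul_sum]
    ring
  have h2 : ∑ l ∈ range i, Sc.ls d n (d l) ≤ i * Sc.ls d n (d N) := by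
    have := sum_le_card_nsmul (range i) (fun l => Sc.ls d n (d l)) (Sc.ls d n (d N)) fun l hl =>
      Sc.ls_anti n (hd l (mem_range.1 hl))
    rwa [card_range, nsmul_eq_mul] at this
  have h3 : ((unt d n : ℕ) : ℤ) ≤ Sc.ls d n (d N) := Sc.unit_le_ls n _
  rw [h1, mul_assoc]
  refine mul_le_mul_of_nonneg_left ?_ hC
  linarith

/-! ### The stage -/

/-- What is needed at the stage `i` for the needle `q`: the gates at all times, no passages with walls of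
one colour around the base, for both pairs of radii, after the time at the end of the stage, after
the time of the state and after the time `0`. -/
structure StQ (𝔇 : Dat) (d : ℕ → ℕ) (n i N : ℕ) (ω : Cfg) (q : Rule.Ndl) (c₁ : ℤ) (x : RdQ) :
    Prop where
  gate : ∀ t, Nb (cfS (ts 𝔇 d n ω i).V q ω) (Tru.eS (ts 𝔇 d n ω i).V q) t → ∀ (v : ℤ × ℤ) (w : ℤ),
    w ≤ c₁ * Sc.ls d n (d N) → (exS (ts 𝔇 d n ω i).V q).Gate ω t v w →
      Nb2 (ua (pS (ts 𝔇 d n ω i).V q ω t)) v x.δ ∨ Nb2 (ua (Tru.eS (ts 𝔇 d n ω i).V q)) v x.δ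
  wall : ∀ D, (𝔇.cs d (ts 𝔇 d n ω i).x).run = some D → (𝔇.cs d (ts 𝔇 d n ω i).x).ini = false →
    ∀ c : ℤ, c = 0 ∨ c = 1 →
      ¬ (exS (ts 𝔇 d n ω i).V q).OneWall c ω (mvT 𝔇 d n (ts 𝔇 d n ω i) q D false ω)
        (ua (Tru.eS (ts 𝔇 d n ω i).V q)) x.ρa x.Ra ∧
      ¬ (exS (ts 𝔇 d n ω i).V q).OneWall c ω (mvT 𝔇 d n (ts 𝔇 d n ω i) q D false ω)
        (ua (Tru.eS (ts 𝔇 d n ω i).V q)) x.ρb x.Rb
  wallT : ∀ c : ℤ, c = 0 ∨ c = 1 →
      ¬ (exS (ts 𝔇 d n ω i).V q).OneWall c ω (ts 𝔇 d n ω i).t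
        (ua (Tru.eS (ts 𝔇 d n ω i).V q)) x.ρa x.Ra ∧
      ¬ (exS (ts 𝔇 d n ω i).V q).OneWall c ω (ts 𝔇 d n ω i).t
        (ua (Tru.eS (ts 𝔇 d n ω i).V q)) x.ρb x.Rb
  wallO : ∀ c : ℤ, c = 0 ∨ c = 1 →
      ¬ (exS (ts 𝔇 d n ω i).V q).OneWall c ω 0 (ua (Tru.eS (ts 𝔇 d n ω i).V q)) x.ρa x.Ra ∧
      ¬ (exS (ts 𝔇 d n ω i).V q).OneWall c ω 0 (ua (Tru.eS (ts 𝔇 d n ω i).V q)) x.ρb x.Rb

/-- **The probability half of the row `RowStgS`.** -/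
theorem sideQ_of {K kap : ℕ} {G : ℕ → ℕ → ℕ} {Bd : (ℕ → ℕ) → ℕ → ℕ → Set Cfg} (hK : 0 < K)
    (hG : ∀ i x, x + 4 ≤ G i x) {c₀ c₁ : ℤ} (hc₀ : 0 ≤ c₀) (hc₁ : 0 ≤ c₁) (N : ℕ) {ε : ℝ}
    (hε : 0 < ε) : ∃ ℓ₀ : ℕ, ∀ d : ℕ → ℕ, ℓ₀ ≤ d N → (chD (datC K kap) G Bd).Gro N d →
      ∀ᶠ n in atTop, ∃ (x : RdQ) (E : Set Cfg), x.Ok K (5 * c₁ + 2 * c₀ + 40) d n N ∧
        pr (Sn n) E ≤ ε ∧ ∀ ω, ω ∉ E → ∀ i < N,
          (∀ l < i, HkI c₀ K d n l (tst (datC K kap) d n ω l) ω) →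
          ∀ q, (ts (datC K kap) d n ω i).q = some q → StQ (datC K kap) d n i N ω q c₁ x := by
  obtain ⟨k, hk⟩ := TruW.owa_small N (show 0 < ε / 4 by linarith)
  obtain ⟨δ, hδ⟩ : ∃ δ : ℝ, δ = 1 / (K * 2 ^ (2 * k + 8)) := ⟨_, rfl⟩
  have hKR : (0 : ℝ) < K := by exact_mod_cast hK
  have hδ0 : 0 < δ := by rw [hδ]; positivity
  obtain ⟨κ, hκ, n₀, hmain⟩ := NM.near_all (datC K kap).m 2 hδ0 (show 0 < ε / 2 by linarith)
  obtain ⟨M, hM⟩ : ∃ M : ℤ, M = 5 * c₁ + 2 * c₀ + 40 := ⟨_, rfl⟩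
  have hM0 : (0 : ℝ) < M := by
    have : 0 < M := by omega
    exact_mod_cast this
  obtain ⟨J, hJ⟩ : ∃ J : ℕ, (M : ℝ) * (1 / 2) ^ J ≤ min κ δ := by
    obtain ⟨J, hJ⟩ := exists_pow_lt_of_lt_one (div_pos (lt_min hκ hδ0) hM0)
      (show (1 / 2 : ℝ) < 1 by norm_num)
    refine ⟨J, ?_⟩
    rw [lt_div_iff₀ hM0] at hJ
    linarith
  refine ⟨J, fun d hd hGr => ?_⟩
  have hanti : ∀ {i j : ℕ}, i ≤ j → j ≤ N → d j ≤ d i := by
    intro i j hij hj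
    rcases hij.lt_or_eq with h | rfl
    · have := Fin8.gro_anti hG hGr h hj
      omega
    · exact le_rfl
  have hd0 : d N ≤ d 0 := hanti (Nat.zero_le _) le_rfl
  filter_upwards [eventually_ge_atTop n₀, eventually_ge_atTop (2 ^ d 0),
    eventually_ge_atTop (K * 2 ^ (2 * k + 8))] with n hn hn2 hn3
  have hn0 : (0 : ℝ) ≤ n := Nat.cast_nonneg n
  -- the lengths
  have hl1 : 1 ≤ Sc.ls d n (d N) := Sc.ls_pos hn2 _
  have hlR : (M : ℝ) * Sc.ls d n (d N) ≤ min κ δ * n := by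
    have h1 := TruG.ls_le d n hd0
    have h2 : (n : ℝ) / 2 ^ d N ≤ n * (1 / 2) ^ J := by
      rw [div_eq_mul_one_div]
      refine mul_le_mul_of_nonneg_left ?_ hn0
      rw [one_div_pow]
      exact one_div_le_one_div_of_le (by positivity) (pow_le_pow_right₀ (by norm_num) hd)
    calc (M : ℝ) * Sc.ls d n (d N) ≤ M * (n * (1 / 2) ^ J) :=
          mul_le_mul_of_nonneg_left (h1.trans h2) hM0.le
      _ = M * (1 / 2) ^ J * n := by ring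
      _ ≤ _ := mul_le_mul_of_nonneg_right hJ hn0
  obtain ⟨D, hD⟩ : ∃ D : ℕ, D = n / K / 2 ^ k / 8 / 2 ^ k / 16 := ⟨_, rfl⟩
  have hDδ : δ * n ≤ ((D : ℕ) : ℤ) := by
    have e1 : D = n / (K * 2 ^ (2 * k + 7)) := by
      rw [hD, Nat.div_div_eq_div_mul, Nat.div_div_eq_div_mul, Nat.div_div_eq_div_mul,
        Nat.div_div_eq_div_mul]
      congr 1
      rw [show 2 * k + 7 = k + 3 + k + 4 by ring, pow_add, pow_add, pow_add]
      ring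
    have e2 : (0 : ℝ) < K * 2 ^ (2 * k + 7) := by positivity
    have e3 : (n : ℝ) < ((D : ℝ) + 1) * (K * 2 ^ (2 * k + 7)) := by
      have h4 := Nat.lt_div_mul_add (a := n) (show 0 < K * 2 ^ (2 * k + 7) by positivity)
      rw [← e1] at h4
      have h5 : (n : ℝ) < (D : ℝ) * (K * 2 ^ (2 * k + 7)) + K * 2 ^ (2 * k + 7) := by
        exact_mod_cast h4
      linarith
    have e4 : (K : ℝ) * 2 ^ (2 * k + 8) ≤ n := by exact_mod_cast hn3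
    have e5 : (K : ℝ) * 2 ^ (2 * k + 8) = 2 * (K * 2 ^ (2 * k + 7)) := by
      rw [pow_succ]
      ring
    push_cast
    rw [hδ, e5, one_div_mul_eq_div, div_le_iff₀ (by positivity)]
    nlinarith
  have hDM : M * Sc.ls d n (d N) ≤ ((D : ℕ) : ℤ) := by
    have h1 : (M : ℝ) * Sc.ls d n (d N) ≤ ((D : ℕ) : ℤ) :=
      hlR.trans ((mul_le_mul_of_nonneg_right (min_le_right _ _) hn0).trans hDδ)
    exact_mod_cast h1
  have hx := rdQ_ok (K := K) (k := k) (c := M) (d := d) (n := n) (N := N) (by rw [← hD]; exact hDM) hn2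
  obtain ⟨x, hx'⟩ : ∃ x : RdQ, x = rdQ K k n := ⟨_, rfl⟩
  rw [← hx'] at hx
  have hxD : x.δ = ((D : ℕ) : ℤ) := by rw [hx', hD]; rfl
  have hl2 : 40 ≤ M * Sc.ls d n (d N) := by nlinarith [hM]
  have hda := hx.da
  have haa := hx.aa
  have hab := hx.ab
  have hbb := hx.bb
  have hdd := hx.sc
  -- the events
  have p1 : pr (Sn n) (ZQ (datC K kap) d n (c₀ * Sc.ls d n (d N)) (c₁ * Sc.ls d n (d N)) x.δ) ≤
      ε / 2 := by
    have hl0 : (0 : ℝ) ≤ Sc.ls d n (d N) := by exact_mod_cast (by omega : (0 : ℤ) ≤ Sc.ls d n (d N))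
    have hlκ : (M : ℝ) * Sc.ls d n (d N) ≤ κ * n :=
      hlR.trans (mul_le_mul_of_nonneg_right (min_le_left _ _) hn0)
    have hcR : (0 : ℝ) ≤ c₀ := by exact_mod_cast hc₀
    have hcR1 : (0 : ℝ) ≤ c₁ := by exact_mod_cast hc₁
    have hMR : (M : ℝ) = 5 * c₁ + 2 * c₀ + 40 := by rw [hM]; push_cast; ring
    have q1 : (0 : ℝ) ≤ c₀ * Sc.ls d n (d N) := mul_nonneg hcR hl0
    have q2 : (0 : ℝ) ≤ c₁ * Sc.ls d n (d N) := mul_nonneg hcR1 hl0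
    have q3 : (M : ℝ) * Sc.ls d n (d N) = 5 * (c₁ * Sc.ls d n (d N)) + 2 * (c₀ * Sc.ls d n (d N)) +
        40 * Sc.ls d n (d N) := by rw [hMR]; ring
    refine hmain n hn (n / K) (ruleT (datC K kap) d n) (c₀ * Sc.ls d n (d N))
      (c₁ * Sc.ls d n (d N)) x.δ (ruleT_ok (datC K kap) d n)
      (mul_nonneg hc₀ (by omega)) ?_ (mul_nonneg hc₁ (by omega)) ?_ ?_
    · push_cast
      linarith
    · push_cast
      linarith
    · rw [hxD]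
      exact hDδ
  have p2 : pr (Sn n) (TruW.OWa (datC K kap) TruW.bas d n N x.ρa x.Ra) ≤ ε / 4 := by
    refine hk _ _ _ _ _ _ (by omega) ?_
    rw [hx']
    change (2 : ℤ) ^ k * ((n / K / 2 ^ k / 8 / 2 ^ k : ℕ) : ℤ) ≤ ((n / K / 2 ^ k / 8 : ℕ) : ℤ)
    exact_mod_cast Nat.mul_div_le _ _
  have p3 : pr (Sn n) (TruW.OWa (datC K kap) TruW.bas d n N x.ρb x.Rb) ≤ ε / 4 := by
    refine hk _ _ _ _ _ _ (by omega) ?_
    rw [hx']
    change (2 : ℤ) ^ k * ((n / K / 2 ^ k : ℕ) : ℤ) ≤ ((n / K : ℕ) : ℤ)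
    exact_mod_cast Nat.mul_div_le _ _
  refine ⟨x, ZQ (datC K kap) d n (c₀ * Sc.ls d n (d N)) (c₁ * Sc.ls d n (d N)) x.δ ∪
    (TruW.OWa (datC K kap) TruW.bas d n N x.ρa x.Ra ∪
      TruW.OWa (datC K kap) TruW.bas d n N x.ρb x.Rb), ?_, ?_, ?_⟩
  · rw [← hM]
    exact hx
  · have h1 := pr_union_le (Sn n) (TruW.OWa (datC K kap) TruW.bas d n N x.ρa x.Ra)
      (TruW.OWa (datC K kap) TruW.bas d n N x.ρb x.Rb)
    refine (pr_union_le _ _ _).trans ?_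
    linarith
  intro ω hω i hi hI q hq
  have hω1 : ω ∉ ZQ (datC K kap) d n (c₀ * Sc.ls d n (d N)) (c₁ * Sc.ls d n (d N)) x.δ :=
    fun h => hω (Or.inl h)
  have hω2 : ω ∉ TruW.OWa (datC K kap) TruW.bas d n N x.ρa x.Ra := fun h => hω (Or.inr (Or.inl h))
  have hω3 : ω ∉ TruW.OWa (datC K kap) TruW.bas d n N x.ρb x.Rb := fun h => hω (Or.inr (Or.inr h))
  have hu : 0 < unt d n := Nat.div_pos hn2 (by positivity)
  have hls : Sc.ls d n (d (i - 1)) ≤ Sc.ls d n (d N) := Sc.ls_anti n (hanti (by omega) le_rfl)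
  have hu1 : ((unt d n : ℕ) : ℤ) ≤ Sc.ls d n (d N) := Sc.unit_le_ls n _
  have hcl : c₀ * Sc.ls d n (d (i - 1)) ≤ c₀ * Sc.ls d n (d N) :=
    mul_le_mul_of_nonneg_left hls hc₀
  have h6 : M * Sc.ls d n (d N) = 5 * (c₁ * Sc.ls d n (d N)) + 2 * (c₀ * Sc.ls d n (d N)) +
      40 * Sc.ls d n (d N) := by rw [hM]; ring
  refine ⟨fun t hNb v w hw hg => ?_, fun D' hD' hini c hc => ⟨fun h => ?_, fun h => ?_⟩,
    fun c hc => ⟨fun h => ?_, fun h => ?_⟩, fun c hc => ⟨fun h => ?_, fun h => ?_⟩⟩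
  · exact gate_of_notMem' hu hc₀ (fun l hl => hanti (by omega) (by omega)) hI hcl (by omega) hq hω1 hNb
      hw hg
  · exact hω2 (TruW.OWa.mem_ts (by omega) hc hq hD' hini h)
  · exact hω3 (TruW.OWa.mem_ts (by omega) hc hq hD' hini h)
  · exact hω2 (TruW.OWa.mem_ts_t (by omega) hc hq h)
  · exact hω3 (TruW.OWa.mem_ts_t (by omega) hc hq h)
  · exact hω2 (TruW.OWa.mem_ts_zero (by omega) hc hq h)
  · exact hω3 (TruW.OWa.mem_ts_zero (by omega) hc hq h)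

end Pool.Agent.SixB.Cov
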