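import Pool.Agent.Lib.SixB.S8RareS
import Pool.Agent.Lib.SixB.S8RareR
import Pool.Agent.Lib.SixB.S8KeptL
import Pool.Agent.Lib.SixB.S8KeptN
import Pool.Agent.Lib.SixB.S8KeptS
import Pool.Agent.Lib.SixB.S8KeptW
import Pool.Agent.Lib.SixB.S8KeptO
import Pool.Agent.Lib.SixB.S8KeptB
import Pool.Agent.Lib.SixB.S8SideQ

/-!
# Step 8: the disc of a new needle is fresh, the transition event

* `YK1 𝔇`: a needle is placed by the coarse rule in the next stage, and a face within distance `1` of its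
  disc is not fresh; `YN C 𝔇`: the first such stage, without dead stops and without gates; `yk1_sub`;
* `KC`: what is known at the stages `l ≤ m`: the numbers, no bad events, no dead stops, no gates, the discs
  of the earlier needles are fresh; `KC.inv`, `KC.gd`, `KC.stT`, `KC.fresh1`, `KC.plH`;
* `gate_le`, `evO_le`, `evT_le`: outside of the events of the stage `m`, the events of the strands of the
  stages `≤ m`;
* `LefIn`: the anchors of the part which is stored by a move; `KC.stgK`: the facts of one stage;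
  `KC.notMem`: the faces around the next disc are fresh;
* `smY_YN`, `smY_YK`: **the event is rare**, from `LefIn`.
-/

set_option autoImplicit false

namespace Pool.Agent.SixB.Tru

open Filter Finset Topology Pool.Agent.Perc Pool.Agent.PercT Pool.Agent.PercX60 Pool.Agent.PercD
open Pool.Agent.SixB Pool.Agent.SixB.Rule Pool.Agent.SixB.Dct Pool.Agent.SixB.Mv
open Pool.Agent.SixB.NearCut
open Pool.Agent.SixB.TruR (ts)
open Pool.Agent.SixB.Par (Nb2)
open Pool.Agent.SixB.TruY (kt ka kA kb kB kR KNum)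

/-! ### The event -/

/-- **A needle is placed in the next stage, and a face within distance `1` of its disc is not fresh.** -/
def YK1 (𝔇 : Dat) : EvF := fun d n l => {ω | (tst 𝔇 d n ω l).q = none ∧
  (𝔇.cs d (tst 𝔇 d n ω l).x).Plant (𝔇.prm d) (msh d (tst 𝔇 d n ω l).x.length) ∧
  ¬ ∀ f ∈ blow (unt d n : ℤ) (𝔇.disc d (tst 𝔇 d n ω l).x), Dp (FU (tst 𝔇 d n ω l).V) f 1}

theorem yk_sub_yk1 {𝔇 : Dat} {d : ℕ → ℕ} {n m : ℕ} {ω : Cfg} (h : ω ∈ YK 𝔇 d n m) :
    ω ∈ YK1 𝔇 d n m :=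
  ⟨h.1, h.2.1, fun h1 => h.2.2 fun f hf => (h1 f hf).mem zero_le_one⟩

/-- **The first stage in which the disc of a new needle is not fresh**, without dead stops and gates. -/
def YN (C : ℤ) (𝔇 : Dat) : EvF := fun d n m =>
  {ω | (∀ l ≤ m, ω ∉ Dead C 𝔇 d n l) ∧ (∀ l ≤ m, ω ∉ TruG.ZG 𝔇 13 2 d n l) ∧
    (∀ l < m, ω ∉ YK1 𝔇 d n l) ∧ ω ∈ YK1 𝔇 d n m}

/-- The first failure. -/
theorem yk1_sub {C : ℤ} {𝔇 : Dat} {d : ℕ → ℕ} {n m : ℕ} {ω : Cfg} (h : ω ∈ YK1 𝔇 d n m) :
    (∃ l ≤ m, ω ∈ YN C 𝔇 d n l) ∨ (∃ l ≤ m, ω ∈ Dead C 𝔇 d n l) ∨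
      ∃ l ≤ m, ω ∈ TruG.ZG 𝔇 13 2 d n l := by
  classical
  by_cases hd : ∃ l ≤ m, ω ∈ Dead C 𝔇 d n l
  · exact Or.inr (Or.inl hd)
  by_cases hz : ∃ l ≤ m, ω ∈ TruG.ZG 𝔇 13 2 d n l
  · exact Or.inr (Or.inr hz)
  left
  have hex : ∃ l, ω ∈ YK1 𝔇 d n l := ⟨m, h⟩
  have hle : Nat.find hex ≤ m := Nat.find_min' hex h
  exact ⟨Nat.find hex, hle, fun l hl hω => hd ⟨l, hl.trans hle, hω⟩,
    fun l hl hω => hz ⟨l, hl.trans hle, hω⟩, fun l hl => Nat.find_min hex hl, Nat.find_spec hex⟩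

/-! ### What is known -/

/-- **What is known at the stages `l ≤ m`.** -/
structure KC (K kap : ℕ) (C : ℤ) (G : ℕ → ℕ → ℕ) (d : ℕ → ℕ) (n m : ℕ) (ω : Cfg) : Prop where
  num : NumC G N1 d n m
  bd : ∀ l ≤ m, ω ∉ BdI (IC K kap C) (Cov.datC K kap) d n l
  dead : ∀ l ≤ m, ω ∉ Dead C (Cov.datC K kap) d n l
  zg : ∀ l ≤ m, ω ∉ TruG.ZG (Cov.datC K kap) 13 2 d n l
  yk : ∀ l < m, ω ∉ YK1 (Cov.datC K kap) d n l

section KC

variable {K kap a : ℕ} {C : ℤ} {G : ℕ → ℕ → ℕ} {d : ℕ → ℕ} {n m l : ℕ} {ω : Cfg}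

variable (H : KC K kap C G d n m ω)

include H

/-- The invariant. -/
theorem KC.inv (hl : l ≤ m) : IC K kap C d n l (tst (Cov.datC K kap) d n ω l) ω :=
  (notMem_bdI.1 (H.bd l hl)).1

/-- The stored part before the stage. -/
theorem KC.stT (hl : l ≤ m) : StT (Cov.datC K kap) d n (rad C (unt d n) d (l + 1))
    (tst (Cov.datC K kap) d n ω l) ω := (H.inv hl).2.2.2.2.1.1

theorem KC.large' : 2 ^ d 0 ≤ n := by
  refine le_trans ?_ H.num.2
  exact Nat.le_mul_of_pos_right _ (by positivity)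

/-- Everything which is known at the stage `l ≤ m`. -/
theorem KC.gd (hl : l ≤ m) : GdC K kap C G (YK1 (Cov.datC K kap)) (fun _ _ _ => ∅) d n l ω where
  num := ⟨H.num.1.le (by omega), H.num.2⟩
  z := by
    rintro (h | h)
    · exact H.zg l hl h
    · exact h
  y := by
    rintro k hk (h | h)
    · exact H.dead k (by omega) h
    · exact H.yk k (by omega) h
  b := fun k hk => H.bd k (by omega)

theorem KC.nr (hl : l ≤ m + 1) (hq : (ts (Cov.datC K kap) d n ω l).q = none) :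
    ((Cov.datC K kap).cs d (ts (Cov.datC K kap) d n ω l).x).run = none := by
  cases l with
  | zero => rfl
  | succ k => exact (H.stT (l := k) (by omega)).nr hq

theorem KC.sep (hl : l ≤ m + 1) {D : Dom}
    (hD : ((Cov.datC K kap).cs d (ts (Cov.datC K kap) d n ω l).x).run = some D) :
    Mv.Sep ((Cov.datC K kap).cs d (ts (Cov.datC K kap) d n ω l).x).W D.P := by
  cases l with
  | zero => cases hD
  | succ k => exact (H.stT (l := k) (by omega)).inv.sep D hD

/-- The faces around the disc of a needle of an earlier stage are fresh. -/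
theorem KC.fresh1 (hl : l ≤ m) (hq : (ts (Cov.datC K kap) d n ω l).q = none)
    (hp : ((Cov.datC K kap).cs d (ts (Cov.datC K kap) d n ω l).x).Plant ((Cov.datC K kap).prm d)
      (msh d (ts (Cov.datC K kap) d n ω l).x.length)) :
    ∀ f ∈ blow (unt d n : ℤ) ((Cov.datC K kap).disc d (ts (Cov.datC K kap) d n ω l).x),
      Dp (FU (ts (Cov.datC K kap) d n ω l).V) f 1 := by
  cases l with
  | zero => exact absurd hp not_plant_zero
  | succ k =>
    by_contra hn
    exact H.yk k (by omega) ⟨hq, hp, hn⟩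

/-- **The facts of a placing stage.** -/
theorem KC.plH (hC : 256 ≤ C) (hK : 0 < K) (ha : 16 * (9 * C + 6) ≤ 2 ^ a)
    (haK : 512 * K ≤ 2 ^ a) (ha45 : 45 ≤ a) (hG : ∀ i e, e + a ≤ G i e) (hl : l ≤ m)
    (hq : (ts (Cov.datC K kap) d n ω l).q = none)
    (hp : ((Cov.datC K kap).cs d (ts (Cov.datC K kap) d n ω l).x).Plant ((Cov.datC K kap).prm d)
      (msh d (ts (Cov.datC K kap) d n ω l).x.length)) :
    PlH 13 K (Cov.datC K kap) d n l (ts (Cov.datC K kap) d n ω l) := by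
  have hR : NumR a d n l := (H.gd hl).num.numR hG fun d =>
    Nat.le_mul_of_pos_right _ (by positivity)
  have hu : (0 : ℤ) < unt d n := by exact_mod_cast hR.1
  have hf : blow (unt d n : ℤ) ((Cov.datC K kap).disc d (ts (Cov.datC K kap) d n ω l).x) ⊆
      FU (ts (Cov.datC K kap) d n ω l).V := fun f hf => (H.fresh1 hl hq hp f hf).mem zero_le_one
  cases l with
  | zero => exact absurd hp not_plant_zero
  | succ k =>
    have hJ := H.stT (l := k) (by omega)
    have hlen : (tst (Cov.datC K kap) d n ω k).x.length = k + 1 := tst_len _ d n ω k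
    have hdec := hR.dec (by omega)
    have hd0 : d (k + 1) ≤ d 0 := hdec.anti (k + 1) (by omega) 0 (by omega)
    have hda : a ≤ d (k + 1) := by
      have := hR.2 (k + 1) le_rfl
      omega
    have h2a : 2 ^ a ≤ 2 ^ d (k + 1) := Nat.pow_le_pow_right (by norm_num) hda
    have h2a' : 2 ^ a ≤ 2 ^ d 0 := Nat.pow_le_pow_right (by norm_num) (hda.trans hd0)
    have hrs : rad C (unt d n) d (k + 1) ≤ unt d n * msh d (k + 1) :=
      rad_small (by omega) (by omega) (by omega) hR (by omega) (by omega)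
    have hr0 : 0 ≤ rad C (unt d n) d (k + 1) := by
      have h1 := unt_le_rad (d := d) (n := n) (C := C) (by omega) (k + 1)
      omega
    have hm1 : 1 ≤ msh d (k + 1) := msh_pos d (k + 1)
    have hum : (unt d n : ℤ) ≤ unt d n * msh d (k + 1) := by nlinarith
    have hb : 13 * msh d (k + 1) ≤ Hook.ndL K (d 0) := by
      have h1 := msh_ndL (b := 13) (i := k + 1) hK (by omega) hd0
      exact_mod_cast h1
    have hSc := ndl_size (d := d) (n := n) (K := K) H.large' hK (ndL_ge hK (by omega))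
    refine plH_of (s := tst (Cov.datC K kap) d n ω k) hJ hR.1
      (ndL_ge (b := 1) hK (by omega)) hq hp hf hr0 ?_ ?_ ?_
    · rw [hlen]
      have h1 : (unt d n : ℤ) * (13 * msh d (k + 1)) ≤ unt d n * (Hook.ndL K (d 0) : ℤ) :=
        mul_le_mul_of_nonneg_left hb hu.le
      nlinarith
    · exact hSc
    · rw [hlen, Sc.ls_eq_msh]
      nlinarith

end KC

/-! ### The gates and the walls -/

/-- **Outside of the event of the stage `m` the gates of the strands of the stages `≤ m`** are near the tip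
or near the base. -/
theorem gate_le {𝔇 : Dat} {d : ℕ → ℕ} {n m h l K M : ℕ} {ω : Cfg} {q : Rule.Ndl} {b : ℤ}
    (hd : ∀ i j, i ≤ j → j ≤ m → d j ≤ d i) (hN : KNum b 13 1 M d n m h)
    (hI : ∀ l ≤ m, HkI 13 K d n l (tst 𝔇 d n ω l) ω)
    (hZ : ω ∉ TruG.ZGh 𝔇 13 1 2 (4 * h + 1) d n m) (hl : l ≤ m)
    (hq : (tst 𝔇 d n ω l).q = some q) {t : ℕ}
    (hNb : Nb (cfS (tst 𝔇 d n ω l).V q ω) (Tru.eS (tst 𝔇 d n ω l).V q) t) {z : ℤ × ℤ} {w : ℤ}
    (hw : w ≤ gW d n m) (hg : (exS (tst 𝔇 d n ω l).V q).Gate ω t z w) :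
    Nb2 (ua (pS (tst 𝔇 d n ω l).V q ω t)) z (kt d n m h) ∨
      Nb2 (ua (Tru.eS (tst 𝔇 d n ω l).V q)) z (kt d n m h) := by
  have h1 : Sc.ls d n (d l) ≤ Sc.ls d n (d m) := Sc.ls_anti n (hd l m hl le_rfl)
  have hzt := hN.zt
  have hg0 := hN.g0
  have hD : Sc.ls d n (d (m + 1) + (4 * h + 1)) ≤ kt d n m h := by linarith
  have key := Cov.gate_of_notMem (m := l) (K := K) (w := 1 * gW d n m) (c₀ := 13)
    (C := 13 * Sc.ls d n (d m)) (D := Sc.ls d n (d (m + 1) + (4 * h + 1))) hN.u (by norm_num)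
    (fun i hi => hd i l hi hl) (fun i hi => hI i (hi.trans hl)) (by linarith) (by linarith) hq hZ
    hNb (w' := w) (by linarith) hg
  rcases key with h2 | h2
  · exact Or.inl ⟨h2.1.trans hD, h2.2.trans hD⟩
  · exact Or.inr ⟨h2.1.trans hD, h2.2.trans hD⟩

section Ev

variable {𝔇 : Dat} {d : ℕ → ℕ} {n m h l K M : ℕ} {ω : Cfg} {q : Rule.Ndl} {b : ℤ} {D : Dom}

/-- The events of the strand at the beginning of the step. -/
theorem evO_le (hd : ∀ i j, i ≤ j → j ≤ m → d j ≤ d i) (hN : KNum b 13 1 M d n m h)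
    (hI : ∀ l ≤ m, HkI 13 K d n l (tst 𝔇 d n ω l) ω)
    (hZ : ω ∉ TruG.ZGh 𝔇 13 1 2 (4 * h + 1) d n m)
    (hA : ω ∉ TruW.OWa 𝔇 TruW.bas d n m (ka d n m h) (kA d n m h))
    (hB : ω ∉ TruW.OWa 𝔇 TruW.bas d n m (kb d n m h) (kB d n m h)) (hl : l ≤ m)
    (hq : (tst 𝔇 d n ω l).q = some q) :
    EvO (tst 𝔇 d n ω l).V q ω (ua (eS (tst 𝔇 d n ω l).V q)) (gW d n m - 1) (kt d n m h)
      (kt d n m h) (ka d n m h) (kA d n m h) (kb d n m h) (kB d n m h) where
  gate t hNb v hg := gate_le hd hN hI hZ hl hq hNb (by linarith) hg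
  oa hh := hA (TruW.OWa.mem_zero hl (Or.inl rfl) hq hh)
  ob hh := hB (TruW.OWa.mem_zero hl (Or.inl rfl) hq hh)
  rr := by linarith [hN.gt]
  ha := by linarith [hN.ha]
  ha' := hN.aA
  hb := by linarith [hN.hb]
  hb' := hN.bB

/-- The events of the strand after the next stop. -/
theorem evT_le (hd : ∀ i j, i ≤ j → j ≤ m → d j ≤ d i) (hN : KNum b 13 1 M d n m h)
    (hI : ∀ l ≤ m, HkI 13 K d n l (tst 𝔇 d n ω l) ω)
    (hZ : ω ∉ TruG.ZGh 𝔇 13 1 2 (4 * h + 1) d n m)
    (hA : ω ∉ TruW.OWa 𝔇 TruW.bas d n m (ka d n m h) (kA d n m h))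
    (hB : ω ∉ TruW.OWa 𝔇 TruW.bas d n m (kb d n m h) (kB d n m h)) (hl : l ≤ m)
    (hq : (tst 𝔇 d n ω l).q = some q) (hD : (𝔇.cs d (tst 𝔇 d n ω l).x).run = some D)
    (hi : (𝔇.cs d (tst 𝔇 d n ω l).x).ini = false) :
    EvT (tst 𝔇 d n ω l).V q ω (ua (eS (tst 𝔇 d n ω l).V q))
      (mvT 𝔇 d n (tst 𝔇 d n ω l) q D false ω) (gW d n m - 1) (kt d n m h)
      (kt d n m h) (ka d n m h) (kA d n m h) (kb d n m h) (kB d n m h) where
  gate t _ hNb v hg := gate_le hd hN hI hZ hl hq hNb (by linarith) hg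
  oa hh := hA (TruW.OWa.mem_mv hl (Or.inl rfl) hq hD (by rw [hi]; exact hh))
  ob hh := hB (TruW.OWa.mem_mv hl (Or.inl rfl) hq hD (by rw [hi]; exact hh))
  r0 := hN.r0
  rr := by linarith [hN.gt]
  ha := by linarith [hN.ha]
  haa := hN.aA
  hb := by linarith [hN.hb]
  hbb := hN.bB

end Ev

/-! ### The facts of a stage -/

/-- **The anchors of the part which is stored by a move**, official data: the radius is at most
`B * (rad + u * msh)`. -/
def LefIn (K kap : ℕ) (C : ℤ) (G : ℕ → ℕ → ℕ) (B : ℤ) : Prop :=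
  ∀ {d : ℕ → ℕ} {n m k : ℕ} {ω : Cfg} {q : Rule.Ndl} {D : Dom}, KC K kap C G d n m ω → k < m →
    (tst (Cov.datC K kap) d n ω k).q = some q →
    ((Cov.datC K kap).cs d (tst (Cov.datC K kap) d n ω k).x).run = some D →
    ((Cov.datC K kap).cs d (tst (Cov.datC K kap) d n ω k).x).ini = false →
    LefK (Cov.datC K kap) d n (tst (Cov.datC K kap) d n ω k) q D ω
      (B * (rad C (unt d n) d (k + 1) + unt d n * msh d (k + 1)))

theorem LefK.mono {𝔇 : Dat} {d : ℕ → ℕ} {n : ℕ} {s : TS} {q : Rule.Ndl} {D : Dom} {ω : Cfg} {r r' : ℤ}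
    (h : LefK 𝔇 d n s q D ω r) (hr : r ≤ r') : LefK 𝔇 d n s q D ω r' where
  per := h.per
  fin := h.fin
  sub := h.sub
  tip := h.tip
  anc z hz v hv := by
    obtain ⟨y, h1, h2⟩ := h.anc z hz v hv
    exact ⟨y, h1, h2.mono fun a ha => ⟨ha.1.mono hr, ha.2⟩⟩

section Stage

variable {K kap a : ℕ} {C B : ℤ} {G : ℕ → ℕ → ℕ} {d : ℕ → ℕ} {n m l h : ℕ} {ω : Cfg}

/-- The constant of the radii. -/
def bY (C B : ℤ) (m : ℕ) : ℤ := (B + 1) * (C * (m + 2) + 1) + 40

/-- **The facts of one stage `l ≤ m`**, outside of the events. -/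
theorem KC.stgK (H : KC K kap C G d n m ω) (hC : 256 ≤ C) (hK : 0 < K)
    (ha : 16 * (9 * C + 6) ≤ 2 ^ a) (haK : 512 * K ≤ 2 ^ a) (ha45 : 45 ≤ a)
    (hG : ∀ i e, e + a ≤ G i e) (hB : 0 ≤ B) (hL : LefIn K kap C G B)
    (hN : KNum (bY C B m) 13 1 ((Cov.datC K kap).m) d n m h)
    (hZ : ω ∉ TruG.ZGh (Cov.datC K kap) 13 1 2 (4 * h + 1) d n m)
    (hWa : ω ∉ TruW.OWa (Cov.datC K kap) TruW.bas d n m (ka d n m h) (kA d n m h))
    (hWb : ω ∉ TruW.OWa (Cov.datC K kap) TruW.bas d n m (kb d n m h) (kB d n m h))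
    (hl : l ≤ m) :
    StgK (Cov.datC K kap) d n (kR d n m h) (kR d n m h) (ts (Cov.datC K kap) d n ω l) ω := by
  have hR : NumR a d n m := H.num.numR hG fun d => Nat.le_mul_of_pos_right _ (by positivity)
  have hdec := hR.dec (by omega)
  have hd : ∀ i j, i ≤ j → j ≤ m → d j ≤ d i := fun i j hij hj =>
    hdec.anti j (by omega) i hij
  have hI : ∀ l ≤ m, HkI 13 K d n l (tst (Cov.datC K kap) d n ω l) ω := fun l hl =>
    (H.inv hl).2.2.2.1
  have hls1 : 1 ≤ Sc.ls d n (d m) := Sc.ls_pos H.large' _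
  have hlsl : Sc.ls d n (d l) ≤ Sc.ls d n (d m) := Sc.ls_anti n (hd l m hl le_rfl)
  have hm0 : (0 : ℤ) ≤ m := Int.natCast_nonneg m
  have hlm : (l : ℤ) ≤ m := by exact_mod_cast hl
  have hrad : rad C (unt d n) d l ≤ C * (m + 1) * Sc.ls d n (d m) := by
    refine (Cov.rad_le_ls (N := m) (by omega) n fun k hk => hd k m (by omega) le_rfl).trans ?_
    refine mul_le_mul_of_nonneg_right ?_ (by omega)
    exact mul_le_mul_of_nonneg_left (by omega) (by omega)
  have hanc := hN.anc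
  have hb1 : 40 ≤ bY C B m := by
    unfold bY
    have : 0 ≤ (B + 1) * (C * (m + 2) + 1) := by positivity
    omega
  have hC0 : 0 ≤ C * (m + 2) := by positivity
  have e1 : (C * (m + 2) + 1) * Sc.ls d n (d m) ≤ (B + 1) * (C * (m + 2) + 1) * Sc.ls d n (d m) := by
    have h1 : (C * (m + 2) + 1) * 1 ≤ (C * (m + 2) + 1) * (B + 1) :=
      mul_le_mul_of_nonneg_left (by omega) (by omega)
    refine mul_le_mul_of_nonneg_right ?_ (by omega)
    linarith
  have e2 : bY C B m * Sc.ls d n (d m) =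
      (B + 1) * (C * (m + 2) + 1) * Sc.ls d n (d m) + 40 * Sc.ls d n (d m) := by
    unfold bY
    ring
  have e3 : C * (m + 2) * Sc.ls d n (d m) = C * (m + 1) * Sc.ls d n (d m) + C * Sc.ls d n (d m) := by
    ring
  have hCl : 256 * Sc.ls d n (d m) ≤ C * Sc.ls d n (d m) :=
    mul_le_mul_of_nonneg_right hC (by omega)
  have hgt := hN.gt
  have htR := hN.tR
  have hBR := hN.BR
  have hr0 := hN.r0
  have hka := hN.ha
  have hkA := hN.aA
  have hkb := hN.hb
  have hkB := hN.bB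
  have e0 : 0 ≤ (B + 1) * (C * (m + 2) + 1) * Sc.ls d n (d m) := by positivity
  have hda : a ≤ d m := by
    have := hR.2 m le_rfl
    omega
  have hd0 : d m ≤ d 0 := hd 0 m (Nat.zero_le _) le_rfl
  have h2a' : 2 ^ a ≤ 2 ^ d 0 := Nat.pow_le_pow_right (by norm_num) (hda.trans hd0)
  have hPl := fun hq hp => H.plH hC hK ha haK ha45 hG hl hq hp
  refine ⟨H.nr (by omega), fun h1 => ?_, fun D hD => H.sep (by omega) hD, ?_, ?_, ?_⟩
  · rw [← tst_eq_nxS] at h1 ⊢
    exact (H.stT hl).nr h1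
  · -- the needle
    refine ndl_of_plH (c₀ := 13) (K := K) (i := l) (H.nr (by omega)) hPl ?_
    linarith
  · -- the strand of a new needle
    cases l with
    | zero =>
      intro q hq hq' f hf
      obtain ⟨-, hp⟩ := nxS_placed hq rfl hq'
      exact absurd hp not_plant_zero
    | succ k =>
      have hst : StT (Cov.datC K kap) d n (rad C (unt d n) d (k + 1))
          (ts (Cov.datC K kap) d n ω (k + 1)) ω := H.stT (l := k) (by omega)
      refine old_stg (b := fun V q => ua (eS V q)) (c₁ := 0) (r := gW d n m - 1)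
        (ρ' := kt d n m h) (ρ₁ := kt d n m h) (ρa := ka d n m h) (Ra := kA d n m h)
        (ρb := kb d n m h) (Rb := kB d n m h) (D₀ := (C * (m + 1) + 32) * Sc.ls d n (d m)) hst
        (fun q hq hq0 => ?_) hR.1 (ndL_ge hK (by omega)) (fun _ => ?_) ?_ ?_ ?_
        (fun q hq hq0 => ?_) htR (by omega)
      · -- the needle
        have h1 := hq
        rw [tst_eq_nxS] at h1
        obtain ⟨h2, hp⟩ := nxS_placed hq0 (hst.nr hq0) h1
        obtain ⟨hW, ρ₀, hk, hρ⟩ := hPl hq0 hp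
        obtain ⟨D, hD⟩ := run_of_q hq
        have hini : ((Cov.datC K kap).cs d (tst (Cov.datC K kap) d n ω (k + 1)).x).ini = true := by
          rw [tst_eq_nxS, nxS_rest hq0 (hst.nr hq0), plS_x, (Cov.datC K kap).cs_cons,
            CSt.mv_plant_eq (hst.nr hq0) hp]
        refine ⟨D, ρ₀, plc_of hq hD hini, ?_, ?_⟩
        · rw [h2]
          exact hk
        · nlinarith
      · have := hR.2 k (by omega)
        have h3 := hd 0 k (Nat.zero_le _) (by omega)
        omega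
      · rw [← Sc.ls_eq_msh]
        linarith
      · nlinarith
      · linarith
      · have h1 := evO_le hd hN hI hZ hWa hWb hl hq
        have h2 : (tst (Cov.datC K kap) d n ω (k + 1)).V = (ts (Cov.datC K kap) d n ω (k + 1)).V := by
          rw [tst_eq_nxS, nxS_rest hq0 (hst.nr hq0), plS_V]
        rw [h2] at h1
        exact ⟨h1, by unfold Nb2; simp⟩
  · -- the part which is stored
    cases l with
    | zero =>
      intro q D hq
      cases hq
    | succ k =>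
      refine new_tst (i := k) (r := gW d n m - 1) (ρ' := kt d n m h) (ρ₁ := kt d n m h)
        (ρa := ka d n m h) (Ra := kA d n m h) (ρb := kb d n m h) (Rb := kB d n m h)
        (fun q D hq hD hi => ?_) (fun q D hq hD hi => evT_le hd hN hI hZ hWa hWb (by omega) hq hD hi)
        (by omega) (by omega)
      refine (hL H (by omega) hq hD hi).mono ?_
      rw [← Sc.ls_eq_msh]
      have h1 : rad C (unt d n) d (k + 1) + Sc.ls d n (d (k + 1)) ≤
          (C * (m + 2) + 1) * Sc.ls d n (d m) := by linarith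
      have h2 := mul_le_mul_of_nonneg_left h1 hB
      have h3 : (B + 1) * (C * (m + 2) + 1) * Sc.ls d n (d m) =
        B * ((C * (m + 2) + 1) * Sc.ls d n (d m)) + (C * (m + 2) + 1) * Sc.ls d n (d m) := by ring
      have h4 : 0 ≤ (C * (m + 2) + 1) * Sc.ls d n (d m) := by positivity
      linarith

/-- **The faces around the disc of the next needle are fresh**, outside of the events. -/
theorem KC.notMem (H : KC K kap C G d n m ω) (hC : 256 ≤ C) (hK : 0 < K)
    (ha : 16 * (9 * C + 6) ≤ 2 ^ a) (haK : 512 * K ≤ 2 ^ a) (ha45 : 45 ≤ a)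
    (hG : ∀ i e, e + a ≤ G i e) (hB : 0 ≤ B) (hL : LefIn K kap C G B)
    (hN : KNum (bY C B m) 13 1 ((Cov.datC K kap).m) d n m h)
    (hZ : ω ∉ TruG.ZGh (Cov.datC K kap) 13 1 2 (4 * h + 1) d n m)
    (hWa : ω ∉ TruW.OWa (Cov.datC K kap) TruW.bas d n m (ka d n m h) (kA d n m h))
    (hWb : ω ∉ TruW.OWa (Cov.datC K kap) TruW.bas d n m (kb d n m h) (kB d n m h)) :
    ω ∉ YK1 (Cov.datC K kap) d n m := by
  rintro ⟨hq, hp, hn⟩
  have htR := hN.tR
  have hgt := hN.gt
  have hr0 := hN.r0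
  have hfin := hN.fin
  have hR0 : 0 ≤ kR d n m h := by omega
  refine hn fun f hf => ?_
  have hx : (tst (Cov.datC K kap) d n ω m).x.length = m + 1 := tst_len _ d n ω m
  refine kept_disc1 (N := m + 1) (a := 1) (c := kR d n m h) (R := kR d n m h) hN.u hR0 hR0
    (box0_fresh' H.num.2 hR0)
    (fun i hi => H.stgK hC hK ha haK ha45 hG hB hL hN hZ hWa hWb (by omega)) hq ?_ ?_ hf
  · have h1 := hp.2.1
    rw [hx] at h1
    exact h1
  · have h1 : ((Cov.datC K kap).cs d (tst (Cov.datC K kap) d n ω m).x).j <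
        (Cov.datC K kap).m := hp.1
    have h2 : (((Cov.datC K kap).cs d (tst (Cov.datC K kap) d n ω m).x).j : ℤ) + 1 ≤
        (Cov.datC K kap).m := by exact_mod_cast h1
    have h3 := mul_le_mul_of_nonneg_right h2 (show 0 ≤ kR d n m h + 2 by omega)
    rw [add_mul, one_mul] at h3
    rw [← Sc.ls_eq_msh]
    change kR d n m h + (((Cov.datC K kap).cs d (tst (Cov.datC K kap) d n ω m).x).j : ℤ) *
      (kR d n m h + 2) + 1 ≤ _
    linarith

end Stage

/-! ### The event is rare -/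

section Rare

variable {K kap a : ℕ} {C B : ℤ} {G : ℕ → ℕ → ℕ}

/-- **The event of the first failure is rare.** -/
theorem smY_YN (hC : 256 ≤ C) (hK : 0 < K) (ha : 16 * (9 * C + 6) ≤ 2 ^ a)
    (haK : 512 * K ≤ 2 ^ a) (ha45 : 45 ≤ a) (hG : ∀ i e, e + a ≤ G i e) (hB : 0 ≤ B)
    (hL : LefIn K kap C G B) :
    SmY G (BdI (IC K kap C) (Cov.datC K kap)) (YN C (Cov.datC K kap)) := by
  refine TruY.smY_kept (𝔇 := Cov.datC K kap) (N₁ := N1) (c₀ := 13) (c₁ := 1)
    (fun i e => (Nat.le_add_right e a).trans (hG i e)) (by norm_num) le_rfl (Cov.datC K kap).m 2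
    (bY C B) ?_
  intro d n m h hnum hN ω hbd hZ hWa hWb hω
  have H : KC K kap C G d n m ω := ⟨hnum, hbd, hω.1, hω.2.1, hω.2.2.1⟩
  exact H.notMem hC hK ha haK ha45 hG hB hL hN hZ hWa hWb hω.2.2.2

/-- **The disc of a new needle is fresh outside of a rare event.** -/
theorem smY_YK (hC : 256 ≤ C) (hK : 0 < K) (ha : 16 * (9 * C + 6) ≤ 2 ^ a)
    (haK : 512 * K ≤ 2 ^ a) (ha45 : 45 ≤ a) (hG : ∀ i e, e + a ≤ G i e) (hB : 0 ≤ B)
    (hL : LefIn K kap C G B) :
    ∃ G₀ : ℕ → ℕ → ℕ, (∀ i e, G i e ≤ G₀ i e) ∧ ∀ G' : ℕ → ℕ → ℕ, (∀ i e, G₀ i e ≤ G' i e) →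
      SmY G' (BdI (IC K kap C) (Cov.datC K kap)) (YK (Cov.datC K kap)) := by
  have hle : ∀ i e, e ≤ G i e := fun i e => (Nat.le_add_right e a).trans (hG i e)
  have hlt : ∀ i e, e < G i e := fun i e => by
    have := hG i e
    omega
  obtain ⟨G₁, g1, h1⟩ := smY_le hle (smY_YN hC hK ha haK ha45 hG hB hL)
  obtain ⟨G₂, g2, h2⟩ := smY_dead_le (K := K) (kap := kap) hC hlt
  obtain ⟨G₃, g3, h3⟩ := TruG.smZ_le hle
    (TruG.smZ_ZG (Cov.datC K kap) hle (c₀ := 13) (by norm_num) 2)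
  refine ⟨fun i e => max (G₁ i e) (max (G₂ i e) (G₃ i e)), fun i e => (g1 i e).trans
    (le_max_left _ _), fun G' hG' => ?_⟩
  have k1 := h1 G' fun i e => (le_max_left _ _).trans (hG' i e)
  have k2 := h2 G' fun i e => ((le_max_left _ _).trans (le_max_right _ _)).trans (hG' i e)
  have k3 := (h3 G' fun i e =>
    ((le_max_right _ _).trans (le_max_right _ _)).trans (hG' i e)).toY
      (BdI (IC K kap C) (Cov.datC K kap))
  refine (k1.union (k2.union k3)).sub fun d n l ω hω _ => ?_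
  rcases yk1_sub (C := C) (yk_sub_yk1 hω) with h | h | h
  · exact Or.inl h
  · exact Or.inr (Or.inl h)
  · exact Or.inr (Or.inr h)

end Rare

end Pool.Agent.SixB.Tru
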