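import Pool.Agent.Lib.SixB.S8KeptY
import Pool.Agent.Lib.SixB.S8KeptP
import Pool.Agent.Lib.SixB.S8KeptE

/-!
# Step 8: the disc of a new needle is fresh, the moves

* `KC.outE`: at the entrance the face in front of the strand is not a face of the magnified domain;
* `KC.stpW`: the facts of a move;
* `AncL`: the anchors of the part which is stored by a move; `lefIn_of`: the hypothesis `LefIn`;
  `smY_YK_anc`: **the event `YK` is rare**, from `AncL`.
-/

set_option autoImplicit false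

namespace Pool.Agent.SixB.Tru

open Filter Finset Topology Pool.Agent.Perc Pool.Agent.PercT Pool.Agent.PercX60 Pool.Agent.PercD
open Pool.Agent.SixB Pool.Agent.SixB.Rule Pool.Agent.SixB.Dct Pool.Agent.SixB.Mv
open Pool.Agent.SixB.NearCut
open Pool.Agent.SixB.TruR (ts)

section Z

variable {K kap a : ℕ} {C : ℤ} {G : ℕ → ℕ → ℕ} {d : ℕ → ℕ} {n m : ℕ} {ω : Cfg}

/-- **At the entrance the face in front of the strand is not a face of the disc.** -/
theorem KC.outE (H : KC K kap C G d n m ω) (hC : 256 ≤ C) (hK : 0 < K)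
    (ha : 16 * (9 * C + 6) ≤ 2 ^ a) (haK : 512 * K ≤ 2 ^ a) (hG : ∀ i e, e + a ≤ G i e) {i : ℕ}
    (hi : i + 1 ≤ m) {V : Finset (ℤ × ℤ)} {x : List Rec} {q : Rule.Ndl} {D : Dom}
    (E : EntS (Cov.datC K kap) d n ω i V x q D) :
    OutP (Cov.datC K kap) d n (tst (Cov.datC K kap) d n ω (i + 1)) ω := by
  have hSt := stIn_of hC hK ha haK hG (Y := YK1 (Cov.datC K kap)) (Z := fun _ _ _ => ∅)
    fun _ _ _ _ h => yk_sub_yk1 h
  have hp : ((Cov.datC K kap).cs d (ts (Cov.datC K kap) d n ω i).x).Plant ((Cov.datC K kap).prm d)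
      (msh d (ts (Cov.datC K kap) d n ω i).x.length) := by
    refine plant_of_run (D := D) E.q0 (by rw [E.x0]; exact E.run0) ?_
    rw [E.st]
    have h1 := E.co
    change ((Cov.datC K kap).cs d ((∅, 0) :: x)).run = some D
    rw [h1]
  have hf := H.fresh1 (by omega) E.q0 hp
  rw [E.V0, E.x0] at hf
  exact hSt.out (H.gd hi) E hf

/-- **The facts of a move**, at the stages `≤ m`. -/
theorem KC.stpW (H : KC K kap C G d n m ω) (hC : 256 ≤ C) (hK : 0 < K)
    (ha : 16 * (9 * C + 6) ≤ 2 ^ a) (haK : 512 * K ≤ 2 ^ a) (hG : ∀ i e, e + a ≤ G i e) {k : ℕ}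
    (hk : k ≤ m) {q : Rule.Ndl} {D : Dom} (hq : (tst (Cov.datC K kap) d n ω k).q = some q)
    (hD : ((Cov.datC K kap).cs d (tst (Cov.datC K kap) d n ω k).x).run = some D)
    (hi : ((Cov.datC K kap).cs d (tst (Cov.datC K kap) d n ω k).x).ini = false) :
    StpW (Cov.datC K kap) d n (rad C (unt d n) d (k + 1)) (tst (Cov.datC K kap) d n ω k) ω q D :=
  stpW_ic (N := m) (by omega) ha (H.num.numR hG fun d => Nat.le_mul_of_pos_right _ (by positivity))
    (fun k hk => H.inv hk) H.dead (fun k V x q D' hk E => H.outE hC hK ha haK hG hk E) hk hq hD hi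

/-- **The anchors of the part which is stored by a move**: every side of its components sees the colour
`1` at the closing time. -/
def AncL (K kap : ℕ) (C B : ℤ) : Prop :=
  ∀ {d : ℕ → ℕ} {n k : ℕ} {ω : Cfg} {q : Rule.Ndl} {D : Dom},
    NumO d n (k + 1) (rad C (unt d n) d (k + 1)) →
    RunVI C (Cov.datC K kap) d n k (tst (Cov.datC K kap) d n ω k) ω →
    ω ∉ Dead C (Cov.datC K kap) d n k →
    (tst (Cov.datC K kap) d n ω k).q = some q →
    ((Cov.datC K kap).cs d (tst (Cov.datC K kap) d n ω k).x).run = some D →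
    ((Cov.datC K kap).cs d (tst (Cov.datC K kap) d n ω k).x).ini = false →
    ∀ z ∈ D.lef ((Cov.datC K kap).gr d (tst (Cov.datC K kap) d n ω k).x D)
        (mvR (Cov.datC K kap) d n (tst (Cov.datC K kap) d n ω k) q D false ω),
    ∀ v ∈ Par.VB (blow (unt d n : ℤ)
      (Top.compT (D.P \ D.rem ((Cov.datC K kap).gr d (tst (Cov.datC K kap) d n ω k).x D)
        (mvR (Cov.datC K kap) d n (tst (Cov.datC K kap) d n ω k) q D false ω)) z)),
    ∃ y, (exS (tst (Cov.datC K kap) d n ω k).V q).Sid 1 ω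
        (mvT (Cov.datC K kap) d n (tst (Cov.datC K kap) d n ω k) q D false ω) y ∧
      Pth {a | InB v (B * (rad C (unt d n) d (k + 1) + unt d n * msh d (k + 1))) a ∧
        ∀ l ≤ mvT (Cov.datC K kap) d n (tst (Cov.datC K kap) d n ω k) q D false ω,
          pS (tst (Cov.datC K kap) d n ω k).V q ω l ≠ a} v y

/-- **The hypothesis `LefIn`** from the anchors. -/
theorem lefIn_of (hC : 256 ≤ C) (hK : 0 < K) (ha : 16 * (9 * C + 6) ≤ 2 ^ a)
    (haK : 512 * K ≤ 2 ^ a) (hG : ∀ i e, e + a ≤ G i e) {B : ℤ} (anc : AncL K kap C B) :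
    LefIn K kap C G B := by
  intro d n m k ω q D H hk hq hD hi
  have hR : NumR a d n m := H.num.numR hG fun d => Nat.le_mul_of_pos_right _ (by positivity)
  have hN : NumO d n (k + 1) (rad C (unt d n) d (k + 1)) :=
    (hR.le hk.le).numO (by omega) ha le_rfl
  exact LefK.of_stp hq (H.stpW hC hK ha haK hG hk.le hq hD hi)
    (anc hN (H.inv hk.le).1 (H.dead k hk.le) hq hD hi)

/-- **The disc of a new needle is fresh outside of a rare event**, from the anchors. -/
theorem smY_YK_anc (hC : 256 ≤ C) (hK : 0 < K) (ha : 16 * (9 * C + 6) ≤ 2 ^ a)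
    (haK : 512 * K ≤ 2 ^ a) (ha45 : 45 ≤ a) (hG : ∀ i e, e + a ≤ G i e) {B : ℤ} (hB : 0 ≤ B)
    (anc : AncL K kap C B) :
    ∃ G₀ : ℕ → ℕ → ℕ, (∀ i e, G i e ≤ G₀ i e) ∧ ∀ G' : ℕ → ℕ → ℕ, (∀ i e, G₀ i e ≤ G' i e) →
      SmY G' (BdI (IC K kap C) (Cov.datC K kap)) (YK (Cov.datC K kap)) :=
  smY_YK hC hK ha haK ha45 hG hB (lefIn_of hC hK ha haK hG anc)

end Z

end Pool.Agent.SixB.Tru
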