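import Pool.Agent.Lib.SixB.S8LawT

/-!
# Step 8: the estimate for one past from the members of the family

`mvEst_of_fam`: `MvEst` follows from the estimate for `RunRec = (K, r)` for the members `K` of the family
of the attached sets.
-/

set_option autoImplicit false

namespace Pool.Agent.SixB.Tru

open Filter Finset Pool.Agent.Perc Pool.Agent.PercT Pool.Agent.PercX60 Pool.Agent.PercD
open Pool.Agent.SixB Pool.Agent.SixB.Rule Pool.Agent.SixB.Dct Pool.Agent.SixB.Mv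

variable {𝔇 : Dat} {d : ℕ → ℕ} {n : ℕ} {W : Finset (ℤ × ℤ)} {s : TS} {ω : Cfg} {e : ℝ}

/-- **The estimate for one past** from the estimate for the members of the family. -/
theorem mvEst_of_fam (he : 0 ≤ e)
    (h : ∀ D, (𝔇.cs d s.x).run = some D → (𝔇.cs d s.x).ini = false → ¬ D.Void (𝔇.gr d s.x D) →
      (∃ m k, D.RunK (𝔇.gr d s.x D) m k) ∧ ∃ q, s.q = some q ∧
        ∀ K ∈ D.fam (𝔇.gr d s.x D), ∀ r : ℕ,
          |pr W {ξ | RunRec (D.fam (𝔇.gr d s.x D))
              (fun ζ => avT (unt d n) (tmx n) D (𝔇.gr d s.x D) (pS s.V q ω s.t) ζ)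
              (fun ζ => rnT (unt d n) (tmx n) D (𝔇.gr d s.x D) (pS s.V q ω s.t) ζ
                (capR (𝔇.gr d s.x D).M)) (Xi s q ω ξ) = (K, r)} -
            Mob (D.fam (𝔇.gr d s.x D)) (fun K =>
              D.xval (𝔇.gr d s.x D) (unt d n) K (D.rmk (𝔇.gr d s.x D) K r).1 -
              D.xval (𝔇.gr d s.x D) (unt d n) K (D.rmk (𝔇.gr d s.x D) K r).2) K| ≤ e) :
    MvEst 𝔇 d n W s ω e := by
  intro D hD hi hV
  obtain ⟨hR, q, hq, hK⟩ := h D hD hi hV
  refine ⟨hR, q, hq, fun a => ?_⟩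
  by_cases ha : D.kst (𝔇.gr d s.x D) a ∈ D.fam (𝔇.gr d s.x D)
  · unfold Dom.lawq
    rw [if_pos ha]
    exact hK _ ha a.2
  · unfold Dom.lawq
    rw [if_neg ha]
    have hempty : {ξ | RunRec (D.fam (𝔇.gr d s.x D))
              (fun ζ => avT (unt d n) (tmx n) D (𝔇.gr d s.x D) (pS s.V q ω s.t) ζ)
              (fun ζ => rnT (unt d n) (tmx n) D (𝔇.gr d s.x D) (pS s.V q ω s.t) ζ
                (capR (𝔇.gr d s.x D).M)) (Xi s q ω ξ) = (D.kst (𝔇.gr d s.x D) a, a.2)} =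
        (∅ : Set Cfg) := by
      ext ξ
      rw [Set.mem_ofPred_eq]
      refine ⟨fun hξ => ha ?_, fun hξ => absurd hξ (Set.notMem_empty _)⟩
      have := runRec_fst_mem (𝒦 := D.fam (𝔇.gr d s.x D))
        (av := fun ζ => avT (unt d n) (tmx n) D (𝔇.gr d s.x D) (pS s.V q ω s.t) ζ)
        (rn := fun ζ => rnT (unt d n) (tmx n) D (𝔇.gr d s.x D) (pS s.V q ω s.t) ζ
                (capR (𝔇.gr d s.x D).M)) (fun K hK K' hK' => Dom.union_mem K K' hK hK')
        Dom.empty_mem (Xi s q ω ξ)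
      rw [hξ] at this
      exact this
    have h0 : pr W (∅ : Set Cfg) = 0 := by simp [ProbA.pr_eq_sum]
    rw [hempty, h0, sub_zero, abs_zero]
    exact he

end Pool.Agent.SixB.Tru
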