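import Pool.Agent.Lib.SixB.S8KerRec
import Pool.Agent.Lib.SixB.S8TimeB
import Pool.Agent.Lib.SixB.S8LawE

/-!
# Step 8: the record of a stage and the event of the kernel

`hrec_of_val`: the hypothesis `hrec` of `moveIn_est` for the record of a stage of the true chain
(`avT`, `rnT`, `capR`): if the strand stops at a stop side then `all cells of K are unvisited and the run
number is r` is the event `MoveEv` of the kernel.
-/

set_option autoImplicit false

namespace Pool.Agent.SixB.Tru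

open Finset Pool.Agent.Perc Pool.Agent.PercT Pool.Agent.PercX60
open Pool.Agent.MP_6bd702.H23 (Ed ea eb)
open Pool.Agent.PercU (vtx)
open Pool.Agent.SixB Pool.Agent.SixB.Rule Pool.Agent.SixB.Dct Pool.Agent.SixB.Mv
open Pool.Agent.SixB.Blow (subE)

variable {n h u : ℕ} {V : Finset (ℤ × ℤ)} {q : Rule.Ndl} {D : Dom} {g : Grd}

/-- **The record and the event of the kernel** for the strand of the needle `q` in the set `V`. -/
theorem hrec_strand (hval : D.Val g) (hv : ¬ D.Void g) (hu : 0 < u) (hV : V ⊆ Box n)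
    (hq : IsNdl h V q) (hk : ∃ k, NdF V q.1 k ∧ vtx k = q.2) (t : ℕ) (ω : Cfg) (r : ℕ)
    {K : Finset (ℤ × ℤ)} (hK : K ∈ D.fam g)
    (hS : StopE (pS V q ω t) (blow u (D.P \ D.inr g))
      (runE (blow u (D.inr g)) (subE u D.A 0) (u * D.n₁ g) (u * D.n₂ g)) (cfS V q ω)) :
    (∀ c ∈ K, avT u (tmx n) D g (pS V q ω t) (cfS V q ω) c) ∧
        rnT u (tmx n) D g (pS V q ω t) (cfS V q ω) (capR g.M) = r ↔
      cfS V q ω ∈ MoveEv (pS V q ω t) (blow u (D.P \ D.inr g)) (blow u (Mv.fcs g.nm (D.inr g) K))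
        (runE (blow u (D.inr g)) (subE u D.A 0) (u * D.runI g r) (u * D.runI g (r + 1))) := by
  obtain ⟨σ, h1, h2, h3, h4⟩ := hS.exists_lt_tmx hV hq hk
  exact hval.rec_moveEv hv hu h2 h3 h4 h1.le (fun c hc => (Dom.atK_of_mem hK).full c hc)
    (cap := capR g.M) (r := r) (by unfold capR; exact le_rfl)

/-- **`hrec`** for one past: the state `s` with the configuration `ω`. -/
theorem hrec_of_val {s : TS} {ω : Cfg} (hval : D.Val g) (hv : ¬ D.Void g) (hu : 0 < u)
    (hV : s.V ⊆ Box n) (hq : IsNdl h s.V q) (hk : ∃ k, NdF s.V q.1 k ∧ vtx k = q.2)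
    (hsq : s.q = some q) (r : ℕ) (K : Finset (ℤ × ℤ)) (hK : K ∈ D.fam g) (ξ : Cfg)
    (hS : StopE (pS s.V q ω s.t) (blow u (D.P \ D.inr g))
      (runE (blow u (D.inr g)) (subE u D.A 0) (u * D.n₁ g) (u * D.n₂ g)) (Xi s q ω ξ)) :
    (∀ c ∈ K, avT u (tmx n) D g (pS s.V q ω s.t) (Xi s q ω ξ) c) ∧
        rnT u (tmx n) D g (pS s.V q ω s.t) (Xi s q ω ξ) (capR g.M) = r ↔
      Xi s q ω ξ ∈ MoveEv (pS s.V q ω s.t) (blow u (D.P \ D.inr g))
        (blow u (Mv.fcs g.nm (D.inr g) K))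
        (runE (blow u (D.inr g)) (subE u D.A 0) (u * D.runI g r) (u * D.runI g (r + 1))) := by
  have e : pS s.V q (mix (expS s ω) ω ξ) s.t = pS s.V q ω s.t := tipOK s ω q hsq ξ
  have hS' := hS
  rw [← e] at hS' ⊢
  exact hrec_strand hval hv hu hV hq hk s.t (mix (expS s ω) ω ξ) r hK hS'

end Pool.Agent.SixB.Tru
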