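import Pool.Agent.Lib.SixB.S8MoveF

/-!
# Step 8, unit 8H: the kernel, the record is arbitrary off the stop sides

* `StopE`: the strand enters `Zp` for the first time through a side of `Es` (the stop sides);
* `stopE_of`: it does, outside of the bad event of `T₀`;
* `kernel_stop`: `kernel'` where the record has its meaning on `StopE` only;
* `kernel_fam_stop`: `kernel_fam` with this hypothesis.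
-/

set_option autoImplicit false

namespace Pool.Agent.SixB

open Finset Pool.Agent.Perc Pool.Agent.Perc6 Pool.Agent.PercT

/-- The strand enters `Zp` for the first time through a side of `Es`. -/
def StopE (a : UE) (Zp : Set (ℤ × ℤ)) (Es : Set UE) (ω : Cfg) : Prop :=
  ∃ σ, (∀ i < σ, fa (pth ω a i) ∉ Zp) ∧ fa (pth ω a σ) ∈ Zp ∧ pth ω a σ ∈ Es

/-- Outside of the bad event of `T₀` the strand stops at a stop side. -/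
theorem stopE_of {ω : Cfg} {c : ℤ} {R U : Set (ℤ × ℤ)} {a : UE} {T₀ : Finset (ℤ × ℤ)} {m₀ : ℕ}
    {w₀ : ℕ → ℤ × ℤ} {p₁ q₁ q₃ p₃ : ℕ} {Z Zp : Set (ℤ × ℤ)} {Es : Set UE}
    (h₀ : CapDom ω c R U T₀ m₀ w₀ p₁ q₁ q₃ p₃ a)
    (hZ₀ : ∀ x, q₁ ≤ x → x < q₃ → ∀ s g, Joins s (w₀ x) (w₀ (x + 1)) → IsSide g s → g ∉ T₀ →
      g ∈ Z)
    (hEs : ∀ x, q₁ ≤ x → x < q₃ → ∀ s, Joins s (w₀ x) (w₀ (x + 1)) → s ∈ Es)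
    (hZZp : Z ⊆ Zp) (hZpU : Zp ⊆ U) (hZp₀ : ∀ g ∈ Zp, g ∉ T₀)
    (hstop : ∃ n, fa (pth ω a n) ∈ U ∧ fa (pth ω a n) ∉ T₀)
    (hb₀ : ω ∉ CapBad c T₀ m₀ w₀ p₁ q₁ q₃ p₃) : StopE a Zp Es ω := by
  obtain ⟨n, hn1, hn2⟩ := hstop
  obtain ⟨θ, -, hθ⟩ := exists_ent hn1 hn2
  obtain ⟨-, y, hy1, hy2, hyj, -⟩ := h₀.ent hθ hb₀
  refine ⟨θ, fun i hi hZ => ?_, hZZp (hZ₀ y hy1 hy2 _ _ hyj (isSide_fa _) hθ.out),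
    hEs y hy1 hy2 _ hyj⟩
  rcases hθ.bef i hi with h3 | h3
  · exact hZp₀ _ hZ h3
  · exact h3 (hZpU hZ)

/-- **THE KERNEL**, the record has its meaning only if the strand stops at a stop side. -/
theorem kernel_stop : ∃ C α : ℝ, 0 < C ∧ 0 < α ∧ ∀ {ι κt ρt : Type} [DecidableEq ι]
    {𝒦 : Finset (Finset ι)} {cf : Finset ι → Set (ℤ × ℤ)} {av : Cfg → ι → Prop} {rn : Cfg → ρt}
    {Ξ : Cfg → Cfg} {c : ℤ} {R U : Set (ℤ × ℤ)} {a : UE}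
    {T : Finset ι → Finset (ℤ × ℤ)} {m : Finset ι → ℕ} {w : Finset ι → ℕ → ℤ × ℤ}
    {k₁ r₁ r₃ k₃ : Finset ι → ℕ} {P : Finset ι → Finset (ℤ × ℤ)} {m' : Finset ι → ℕ}
    {w' : Finset ι → ℕ → ℤ × ℤ} {l₁ l₃ : Finset ι → ℕ} {κ : Finset ι → ℤ × ℤ → κt}
    {v : ℤ × ℤ} {E ρ : ℤ} {Z Zp : Set (ℤ × ℤ)} {Gd Es : Set UE} {y₁ y₂ : Finset ι → ℕ}
    {W : Finset (ℤ × ℤ)} {r : ρt},
    (∀ K ∈ 𝒦, ∀ K' ∈ 𝒦, K ∪ K' ∈ 𝒦) → ∅ ∈ 𝒦 →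
    (∀ q ∈ 𝒦, MvDom κt Ξ c R U a (T q) (m q) (w q) (k₁ q) (r₁ q) (r₃ q) (k₃ q) (P q) (m' q)
      (w' q) (l₁ q) (l₃ q) (κ q) v E ρ) →
    (∀ q ∈ 𝒦, MvEvt U (T ∅) (w ∅) (r₁ ∅) (r₃ ∅) (T q) (w q) (r₁ q) (r₃ q) (l₁ q) (l₃ q) Z Zp
      (cf q) Gd (y₁ q) (y₂ q)) →
    (∀ x, r₁ ∅ ≤ x → x < r₃ ∅ → ∀ s, Joins s (w ∅ x) (w ∅ (x + 1)) → s ∈ Es) →
    (∀ ξ, ∃ n, fa (pth (Ξ ξ) a n) ∈ U ∧ fa (pth (Ξ ξ) a n) ∉ T ∅) → (∀ q ∈ 𝒦, T q ⊆ W) →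
    (∀ q ∈ 𝒦, ∀ ξ, StopE a Zp Es (Ξ ξ) →
      ((∀ i ∈ q, av (Ξ ξ) i) ∧ rn (Ξ ξ) = r ↔ Ξ ξ ∈ MoveEv a Zp (cf q) Gd)) →
    ∀ K ∈ 𝒦, |pr W {ξ | RunRec 𝒦 av rn (Ξ ξ) = (K, r)} -
      Mob 𝒦 (fun q => Xmk c (P q) (w' q) (l₁ q) (l₃ q) (y₁ q) -
        Xmk c (P q) (w' q) (l₁ q) (l₃ q) (y₂ q)) K| ≤
      2 ^ 𝒦.card * (C * ((E : ℝ) / ρ) ^ α) := by
  obtain ⟨C1, α1, hC1, hα1, h1⟩ := one_move'
  obtain ⟨C2, α2, hC2, hα2, h2⟩ := mvDom_bad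
  refine ⟨C1 + C2, min α1 α2, by positivity, lt_min hα1 hα2, ?_⟩
  intro ι κt ρt _ 𝒦 cf av rn Ξ c R U a T m w k₁ r₁ r₃ k₃ P m' w' l₁ l₃ κ v E ρ Z Zp Gd Es y₁ y₂ W r
    hK h0 hdom hevt hEs hstop hTW hrec K hKm
  have hEρ := (hdom ∅ h0).Eρ
  have hE0 := (hdom ∅ h0).hE
  have hρ0 : (0 : ℝ) < ρ := by exact_mod_cast (lt_of_lt_of_le hE0 hEρ)
  have hE0' : (0 : ℝ) < E := by exact_mod_cast hE0
  have hq1 : (E : ℝ) / ρ ≤ 1 := by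
    rw [div_le_one hρ0]
    exact_mod_cast hEρ
  have hq0 : 0 < (E : ℝ) / ρ := by positivity
  have e1 : ((E : ℝ) / ρ) ^ α1 ≤ ((E : ℝ) / ρ) ^ (min α1 α2) :=
    Real.rpow_le_rpow_of_exponent_ge hq0 hq1 (min_le_left _ _)
  have e2 : ((E : ℝ) / ρ) ^ α2 ≤ ((E : ℝ) / ρ) ^ (min α1 α2) :=
    Real.rpow_le_rpow_of_exponent_ge hq0 hq1 (min_le_right _ _)
  have hu : pr W (Set.univ : Set Cfg) = 1 := by simp [ProbA.pr_eq_sum]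
  have key := abs_runRec_cond (W := W) (E := Set.univ) (r := r) (av := fun ξ i => av (Ξ ξ) i)
    (rn := fun ξ => rn (Ξ ξ)) (x := fun q => Xmk c (P q) (w' q) (l₁ q) (l₃ q) (y₁ q) -
        Xmk c (P q) (w' q) (l₁ q) (l₃ q) (y₂ q)) hK h0
    (η := (C1 + C2) * ((E : ℝ) / ρ) ^ (min α1 α2)) (fun q hq => ?_) hKm
  · rw [hu, one_mul, one_mul, Set.univ_inter] at key
    exact key
  · rw [hu, one_mul, one_mul, Set.univ_inter]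
    have hev := hevt ∅ h0
    -- the events differ on the bad event of `T₀` only
    have hd : |pr W (AvRun (fun ξ i => av (Ξ ξ) i) (fun ξ => rn (Ξ ξ)) r q) -
        pr W {ξ | Ξ ξ ∈ MoveEv a Zp (cf q) Gd}| ≤ C2 * ((E : ℝ) / ρ) ^ α2 := by
      refine (LC.pr_diff_le (Z := CapBad c (T ∅) (m ∅) (w ∅) (k₁ ∅) (r₁ ∅) (r₃ ∅) (k₃ ∅))
        fun ξ hne => ?_).trans (h2 (hdom ∅ h0) W (hTW ∅ h0))
      by_contra hno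
      have hb₀ : Ξ ξ ∉ CapBad c (T ∅) (m ∅) (w ∅) (k₁ ∅) (r₁ ∅) (r₃ ∅) (k₃ ∅) := fun hh =>
        hno ((depOn_capBad c (T ∅) (m ∅) (w ∅) (k₁ ∅) (r₁ ∅) (r₃ ∅) (k₃ ∅) (Ξ ξ) ξ
          ((hdom ∅ h0).agr ξ)).1 hh)
      exact hne (hrec q hq ξ (stopE_of ((hdom ∅ h0).cap ξ) hev.Z₀ hEs hev.ZZp hev.ZpU hev.Zp₀
        (hstop ξ) hb₀))
    have hm := h1 (hdom ∅ h0) (hdom q hq) (hevt q hq) hstop W (hTW ∅ h0) (hTW q hq)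
    have f1 := mul_le_mul_of_nonneg_left e1 hC1.le
    have f2 := mul_le_mul_of_nonneg_left e2 hC2.le
    rw [abs_le] at hd hm ⊢
    constructor <;> nlinarith

namespace Mv

open CloK Pool.Agent.Perc6.C2Aux Pool.Agent.Perc.Tips Pool.Agent.SixB.Top

/-- The sides of the arc are the stop sides. -/
theorem LayBar.arc_runE {U T G : Set (ℤ × ℤ)} {A B : UE × Bool} {N₁ N₂ mU M s t u K : ℕ}
    (h : LayBar U T G A B N₁ N₂ mU M s t u K) {x : ℕ} (h1 : K ≤ x) (h2 : x < K + (N₂ - N₁))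
    {e : UE} (he : Joins e (vert T A x) (vert T A (x + 1))) : e ∈ runE G B N₁ N₂ := by
  refine ⟨N₁ + (x - K), by omega, by omega, ?_⟩
  have hside : side T A x = side G B (N₁ + (x - K)) := by
    have := h.arc (x - K) (by omega)
    rwa [show K + (x - K) = x by omega] at this
  rw [← hside]
  exact Joins.uniq (joins_side x) he

/-- **The kernel for one past**, the record has its meaning only if the strand stops at a stop side. -/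
theorem kernel_fam_stop : ∃ C α : ℝ, 0 < C ∧ 0 < α ∧ ∀ {ι ι' κt ρt : Type} [DecidableEq ι']
    {𝒦 : Finset (Finset ι')} {cf : Finset ι' → Set (ℤ × ℤ)} {av : Cfg → ι' → Prop}
    {rn' : Cfg → ρt} {Ξ : Cfg → Cfg} {c : ℤ} {R U P D : Set (ℤ × ℤ)} {κ : ℤ × ℤ → ι}
    {κ₂ : Finset ι' → ℤ × ℤ → κt} {d a b L : ℤ} {A τ : UE × Bool} {m p q mU : ℕ}
    {n N₁ N₂ y₁ y₂ : Finset ι' → ℕ} {Pf : Finset ι' → Finset (ℤ × ℤ)}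
    {v : ℤ × ℤ} {E ρ : ℤ} {Z Zp : Set (ℤ × ℤ)} {W : Finset (ℤ × ℤ)} {r' : ρt} {r : ℕ},
    (∀ K ∈ 𝒦, ∀ K' ∈ 𝒦, K ∪ K' ∈ 𝒦) → ∅ ∈ 𝒦 → Mvd U P D κ d A m p q → Cyc U τ mU →
    cf ∅ = ∅ → (∀ K ∈ 𝒦, ∀ f ∈ cf K, f ∉ Z) →
    (∀ K ∈ 𝒦, RunS a b L D A p q (Z ∪ cf K) m (n K) (N₁ K) (N₂ K)) → (∀ K ∈ 𝒦, N₂ K < n K) →
    (∀ K ∈ 𝒦, (Pf K : Set (ℤ × ℤ)) = inn D A (Z ∪ cf K)) →
    (∀ K ∈ 𝒦, RMark (inn D A Z) (inn D A (Z ∪ cf K)) A (N₁ K) (N₂ K)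
      (rs a b L (inn D A Z) A (N₁ ∅) (N₂ ∅) r) (rs a b L (inn D A Z) A (N₁ ∅) (N₂ ∅) (r + 1))
      (y₁ K) (y₂ K)) →
    (∀ K ∈ 𝒦, ahead τ ∈ domT U (Z ∪ cf K) (capK U κ (gR D A (Z ∪ cf K) (N₁ K)))
      (capK U κ (gL D A (Z ∪ cf K) (N₂ K))) A) →
    (∀ K ∈ 𝒦, ∀ T M s t u k, TSide U P D κ a b L A τ m p q (Z ∪ cf K) T (n K) (N₁ K) (N₂ K) mU M
      s t u k → MvDom κt Ξ c R U τ.1 T M (vert (T : Set (ℤ × ℤ)) τ) (s + 1) k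
        (k + (N₂ K - N₁ K)) t (Pf K) (n K) (vert (inn D A (Z ∪ cf K)) A) (N₁ K) (N₂ K) (κ₂ K) v E
        ρ) →
    Z ⊆ Zp → Zp ⊆ U →
    (∀ f ∈ Zp, f ∉ domT U Z (capK U κ (gR D A Z (N₁ ∅))) (capK U κ (gL D A Z (N₂ ∅))) A) →
    (∀ ξ, ∃ i, fa (pth (Ξ ξ) τ.1 i) ∈ U ∧ fa (pth (Ξ ξ) τ.1 i) ∉
      domT U Z (capK U κ (gR D A Z (N₁ ∅))) (capK U κ (gL D A Z (N₂ ∅))) A) →
    U ⊆ W →
    (∀ K ∈ 𝒦, ∀ ξ, StopE τ.1 Zp (runE (inn D A Z) A (N₁ ∅) (N₂ ∅)) (Ξ ξ) →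
      ((∀ i ∈ K, av (Ξ ξ) i) ∧ rn' (Ξ ξ) = r' ↔ Ξ ξ ∈ MoveEv τ.1 Zp (cf K)
        (runE (inn D A Z) A (rs a b L (inn D A Z) A (N₁ ∅) (N₂ ∅) r)
          (rs a b L (inn D A Z) A (N₁ ∅) (N₂ ∅) (r + 1))))) →
    ∀ K ∈ 𝒦, |pr W {ξ | RunRec 𝒦 av rn' (Ξ ξ) = (K, r')} -
      Mob 𝒦 (fun K => Xmk c (Pf K) (vert (inn D A (Z ∪ cf K)) A) (N₁ K) (N₂ K) (y₁ K) -
        Xmk c (Pf K) (vert (inn D A (Z ∪ cf K)) A) (N₁ K) (N₂ K) (y₂ K)) K| ≤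
      2 ^ 𝒦.card * (C * ((E : ℝ) / ρ) ^ α) := by
  classical
  obtain ⟨C, α, hC, hα, h⟩ := kernel_stop
  refine ⟨C, α, hC, hα, ?_⟩
  intro ι ι' κt ρt _ 𝒦 cf av rn' Ξ c R U P D κ κ₂ d a b L A τ m p q mU n N₁ N₂ y₁ y₂ Pf v E ρ Z Zp
    W r' r hK h0 H hU hcf0 hdis hrun hlt hPf hmk hτ hdom hZZp hZpU hZp0 hstop hUW hrec
  have hex : ∀ K ∈ 𝒦, ∃ T M s t u k, TSide U P D κ a b L A τ m p q (Z ∪ cf K) T (n K) (N₁ K)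
      (N₂ K) mU M s t u k := fun K hK' =>
    exists_tside H (hrun K hK') (hlt K hK') hU (hτ K hK')
  choose! T M s t u k hS using hex
  have e0 : Z ∪ cf ∅ = Z := by rw [hcf0, Set.union_empty]
  have hS0 : TSide U P D κ a b L A τ m p q Z (T ∅) (n ∅) (N₁ ∅) (N₂ ∅) mU (M ∅) (s ∅) (t ∅) (u ∅)
      (k ∅) := by
    have := hS ∅ h0
    rwa [e0] at this
  have eT0 : ((T ∅ : Finset (ℤ × ℤ)) : Set (ℤ × ℤ)) =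
      domT U Z (capK U κ (gR D A Z (N₁ ∅))) (capK U κ (gL D A Z (N₂ ∅))) A := hS0.eqT
  refine h (T := T) (m := M) (w := fun K => vert ((T K : Finset (ℤ × ℤ)) : Set (ℤ × ℤ)) τ)
    (k₁ := fun K => s K + 1) (r₁ := k) (r₃ := fun K => k K + (N₂ K - N₁ K)) (k₃ := t) (P := Pf)
    (m' := n) (w' := fun K => vert (inn D A (Z ∪ cf K)) A) (l₁ := N₁) (l₃ := N₂) (κ := κ₂)
    (v := v) (E := E) (ρ := ρ) (Z := Z) (Zp := Zp)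
    (Gd := runE (inn D A Z) A (rs a b L (inn D A Z) A (N₁ ∅) (N₂ ∅) r)
        (rs a b L (inn D A Z) A (N₁ ∅) (N₂ ∅) (r + 1)))
    (Es := runE (inn D A Z) A (N₁ ∅) (N₂ ∅)) (y₁ := y₁) (y₂ := y₂) hK h0
    (fun K hK' => hdom K hK' _ _ _ _ _ _ (hS K hK')) (fun K hK' => ?_)
    (fun x hx1 hx2 e he => LayBar.arc_runE hS0.lay.toLayBar hx1 hx2 he) (fun ξ => ?_)
    (fun K hK' f hf => hUW ((hS K hK').TU H (Finset.mem_coe.2 hf))) hrec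
  · have hSK := hS K hK'
    exact mvEvt_of' hS0.run hSK.run rfl (hdis K hK') (H.DP.trans H.app.sub) hS0.lay.toLayBar
      hSK.lay.toLayBar (hS0.notY H) hZZp hZpU
      (fun f hf hfT => hZp0 f hf (eT0 ▸ Finset.mem_coe.2 hfT)) (hSK.notY H) (hmk K hK')
  · obtain ⟨i, hi1, hi2⟩ := hstop ξ
    exact ⟨i, hi1, fun hh => hi2 (eT0 ▸ Finset.mem_coe.2 hh)⟩

end Mv

end Pool.Agent.SixB
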