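import Pool.Agent.Lib.SixB.S8ArcDu
import Pool.Agent.Lib.SixB.TopEsc

/-!
# Step 8: the order lemma

`U` is a hole-free region with a contour `w`, `P ⊆ U` is an inner polygon with a contour `w'`. Every
boundary unit edge of `P` is linked to a boundary unit edge of `U` by a connector inside `U \ P`.
Connectors with disjoint face sets preserve the cyclic order (`Cnx.sep`). Connectors exist inside
every cell which is not contained in `U` (`exists_cnx`).
-/

set_option autoImplicit false

namespace Pool.Agent.SixB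

open Finset Pool.Agent.Perc Pool.Agent.Perc6

/-- A connector from the boundary edge `e` of `P` (with inner face `f`) to the boundary edge `t` of
`U`; `C` is a set of faces of `U` outside `P` and `Γ` the set of unit edges which are crossed. -/
structure Cnx (U P C : Set (ℤ × ℤ)) (e t : UE) (f : ℤ × ℤ) (Γ : Set UE) : Prop where
  subU : C ⊆ U
  subP : ∀ k ∈ C, k ∉ P
  fP : f ∈ P
  par : ∀ k ∈ U, parAt Γ k = ind2 (k = f)
  side : ∀ a ∈ Γ, ∀ k ∈ U, IsSide k a → k ∈ C ∨ k = f
  inP : ∀ a ∈ Γ, IsSide f a → a = e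
  eG : e ∈ Γ
  bd : ∀ a ∈ Γ, BdU U a → a = t
  tG : t ∈ Γ
  const : ∀ Φ : ℤ × ℤ → ZMod 2, (∀ k ∈ C, ∀ a, IsSide k a → Φ (ua a) = Φ (ub a)) →
    Φ (ua e) = Φ (ub e) → Φ (ua t) = Φ (ua e) ∧ Φ (ub t) = Φ (ua e)

variable {U P : Set (ℤ × ℤ)} {m m' : ℕ} {w w' : ℕ → ℤ × ℤ}

theorem Joins.cases' {e : UE} {p q : ℤ × ℤ} (h : Joins e p q) (Φ : ℤ × ℤ → ZMod 2)
    (h1 : Φ (ua e) = Φ (ub e)) : Φ p = Φ (ua e) ∧ Φ q = Φ (ua e) := by
  rcases h with ⟨rfl, rfl⟩ | ⟨rfl, rfl⟩
  · exact ⟨rfl, h1.symm⟩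
  · exact ⟨h1.symm, rfl⟩

theorem Joins.cases2 {e : UE} {p q : ℤ × ℤ} (h : Joins e p q) (Φ : ℤ × ℤ → ZMod 2) (c : ZMod 2)
    (h1 : Φ (ua e) = c) (h2 : Φ (ub e) = c) : Φ p = c ∧ Φ q = c := by
  rcases h with ⟨rfl, rfl⟩ | ⟨rfl, rfl⟩
  · exact ⟨h1, h2⟩
  · exact ⟨h2, h1⟩

theorem sum_two_ind (x y a b : ℕ) (h : a ≠ b) :
    ∑ l ∈ Ico x y, (if l = a ∨ l = b then (1 : ZMod 2) else 0) =
      ind2 (a ∈ Ico x y) + ind2 (b ∈ Ico x y) := by
  classical
  have h1 : ∀ l ∈ Ico x y, (if l = a ∨ l = b then (1 : ZMod 2) else 0) =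
      (if l = a then (1 : ZMod 2) else 0) + (if l = b then (1 : ZMod 2) else 0) := by
    intro l _
    by_cases h1 : l = a
    · subst h1
      simp [h]
    · simp [h1]
  rw [Finset.sum_congr rfl h1, Finset.sum_add_distrib, Finset.sum_ite_eq', Finset.sum_ite_eq']
  by_cases ha : a ∈ Ico x y <;> by_cases hb : b ∈ Ico x y <;>
    simp only [ha, hb, if_true, if_false, ind2_pos, ind2_neg, not_false_eq_true]

/-- **The order lemma.** Four boundary edges `i < k < l < p` of the contour of `P`, linked to the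
boundary edges `si, sk, sl, sp` of `U`. If the connectors of `k` and `p` are disjoint from those of
`i` and `l`, then exactly one of `si`, `sl` lies between `sk` and `sp`. -/
theorem Cnx.sep (hU : Ctr U m w) (hP : Ctr P m' w') (hPU : P ⊆ U)
    (hcon : ∀ f ∈ P, ∀ g ∈ P, Relation.ReflTransGen (StepC Pᶜ) f g)
    {i k l p : ℕ} (hik : i < k) (hkl : k < l) (hlp : l < p) (hpm : p < m')
    {si sk sl sp : ℕ} (hsi : si < m) (hsk : sk < m) (hsl : sl < m) (hsp : sp < m)
    {ei ek el ep ti tk tl tp : UE} {fi fk fl fp : ℤ × ℤ} {Ci Ck Cl Cp : Set (ℤ × ℤ)}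
    {Γi Γk Γl Γp : Set UE}
    (ji : Joins ei (w' i) (w' (i + 1))) (jk : Joins ek (w' k) (w' (k + 1)))
    (jl : Joins el (w' l) (w' (l + 1))) (jp : Joins ep (w' p) (w' (p + 1)))
    (ui : Joins ti (w si) (w (si + 1))) (uk : Joins tk (w sk) (w (sk + 1)))
    (ul : Joins tl (w sl) (w (sl + 1))) (up : Joins tp (w sp) (w (sp + 1)))
    (ci : Cnx U P Ci ei ti fi Γi) (ck : Cnx U P Ck ek tk fk Γk)
    (cl : Cnx U P Cl el tl fl Γl) (cp : Cnx U P Cp ep tp fp Γp)
    (dki : Disjoint Ck Ci) (dkl : Disjoint Ck Cl) (dpi : Disjoint Cp Ci) (dpl : Disjoint Cp Cl)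
    (nki : sk ≠ si) (nkl : sk ≠ sl) (npi : sp ≠ si) (npl : sp ≠ sl) :
    sk ≠ sp ∧ si ≠ sl ∧ (si ∈ Ico (min sk sp) (max sk sp) ↔ sl ∉ Ico (min sk sp) (max sk sp)) := by
  classical
  -- the path inside `P`
  obtain ⟨-, T, hT, hTpar⟩ := chain_toggle (F := Pᶜ) (f := fi) (g := fl)
    (by simpa using ci.fP) (hcon fi ci.fP fl cl.fP)
  have hTin : ∀ a ∈ T, ∀ k, IsSide k a → k ∈ P := by
    intro a ha k hk
    by_contra hkP
    exact hT a ha k hkP hk
  set M : Set UE := symmDiff (symmDiff Γi Γl) T with hM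
  have hMev : ∀ f ∈ U, EvenAt M f := by
    intro f hf
    rw [evenAt_iff, hM, parAt_symmDiff, parAt_symmDiff, hTpar, ci.par f hf, cl.par f hf]
    generalize ind2 (f = fi) = x
    generalize ind2 (f = fl) = y
    revert x y
    decide
  obtain ⟨Φ, hΦ⟩ := hU.pot M hMev
  have hmem : ∀ a, a ∉ T → (a ∈ M ↔ (a ∈ Γi ↔ a ∉ Γl)) := by
    intro a ha
    rw [hM, Set.mem_symmDiff, Set.mem_symmDiff]
    tauto
  -- contour of `P`
  have hPin : ∀ x < m', ∀ a, Joins a (w' x) (w' (x + 1)) →
      (∃ f ∈ P, IsSide f a) ∧ a ∉ T := by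
    intro x hx a ha
    obtain ⟨e, ⟨⟨f, hf, hs⟩, g, hg, hgs⟩, hj⟩ := hP.step x hx
    have he : a = e := Joins.uniq ha hj
    subst he
    exact ⟨⟨f, hf, hs⟩, fun hh => hg (hTin a hh g hgs)⟩
  have hPstep : ∀ x < m', Φ (w' x) + Φ (w' (x + 1)) = if x = i ∨ x = l then 1 else 0 := by
    intro x hx
    obtain ⟨e, -, hj⟩ := hP.step x hx
    obtain ⟨⟨f, hf, hs⟩, hnT⟩ := hPin x hx e hj
    have hGi : e ∈ Γi ↔ x = i := by
      constructor
      · intro he
        rcases ci.side e he f (hPU hf) hs with h1 | h1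
        · exact absurd hf (ci.subP f h1)
        · subst h1
          have h2 := ci.inP e he hs
          subst h2
          exact hP.inj x hx i (by omega) e hj ji
      · intro hxi
        subst hxi
        rw [Joins.uniq hj ji]
        exact ci.eG
    have hGl : e ∈ Γl ↔ x = l := by
      constructor
      · intro he
        rcases cl.side e he f (hPU hf) hs with h1 | h1
        · exact absurd hf (cl.subP f h1)
        · subst h1
          have h2 := cl.inP e he hs
          subst h2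
          exact hP.inj x hx l (by omega) e hj jl
      · intro hxl
        subst hxl
        rw [Joins.uniq hj jl]
        exact cl.eG
    have hiff := hΦ.joins (hPU hf) hs hj
    rw [hmem e hnT, hGi, hGl] at hiff
    by_cases hc : x = i ∨ x = l
    · rw [if_pos hc]
      have hne : Φ (w' x) ≠ Φ (w' (x + 1)) := by
        apply hiff.1
        rcases hc with h1 | h1
        · subst h1
          simp only [true_iff]
          omega
        · subst h1
          constructor
          · intro h2; omega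
          · intro h2; exact absurd rfl h2
      rcases z2_cases (Φ (w' x)) with h3 | h3 <;> rcases z2_cases (Φ (w' (x + 1))) with h4 | h4
      · exact absurd (h3.trans h4.symm) hne
      · rw [h3, h4]; decide
      · rw [h3, h4]; decide
      · exact absurd (h3.trans h4.symm) hne
    · rw [if_neg hc]
      have heq : Φ (w' x) = Φ (w' (x + 1)) := by
        by_contra hne
        have h2 := hiff.2 hne
        apply hc
        by_cases h3 : x = i
        · exact Or.inl h3
        · right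
          by_contra h4
          exact h3 (h2.2 h4)
      rw [heq]; exact z2_add_self _
  -- contour of `U`
  have hUstep : ∀ x < m, Φ (w x) + Φ (w (x + 1)) =
      ind2 (x = si) + ind2 (x = sl) := by
    intro x hx
    obtain ⟨e, hb, hj⟩ := hU.step x hx
    obtain ⟨⟨f, hf, hs⟩, g, hg, hgs⟩ := hb
    have hnT : e ∉ T := fun hh => hg (hPU (hTin e hh g hgs))
    have hGi : e ∈ Γi ↔ x = si := by
      constructor
      · intro he
        have h2 := ci.bd e he ⟨⟨f, hf, hs⟩, g, hg, hgs⟩
        subst h2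
        exact hU.inj x hx si hsi e hj ui
      · intro hxi
        subst hxi
        rw [Joins.uniq hj ui]
        exact ci.tG
    have hGl : e ∈ Γl ↔ x = sl := by
      constructor
      · intro he
        have h2 := cl.bd e he ⟨⟨f, hf, hs⟩, g, hg, hgs⟩
        subst h2
        exact hU.inj x hx sl hsl e hj ul
      · intro hxi
        subst hxi
        rw [Joins.uniq hj ul]
        exact cl.tG
    have hiff := hΦ.joins hf hs hj
    rw [hmem e hnT, hGi, hGl] at hiff
    have hval : Φ (w x) + Φ (w (x + 1)) = ind2 (Φ (w x) ≠ Φ (w (x + 1))) := by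
      rcases z2_cases (Φ (w x)) with h3 | h3 <;> rcases z2_cases (Φ (w (x + 1))) with h4 | h4
      · rw [h3, h4, ind2_neg (by simp)]; decide
      · rw [h3, h4, ind2_pos (by decide)]; decide
      · rw [h3, h4, ind2_pos (by decide)]; decide
      · rw [h3, h4, ind2_neg (by simp)]; decide
    rw [hval, ← ind2_congr hiff]
    by_cases h5 : x = si <;> by_cases h6 : x = sl
    · rw [ind2_pos h5, ind2_pos h6, ind2_neg (by tauto)]; decide
    · rw [ind2_pos h5, ind2_neg h6, ind2_pos (by tauto)]; decide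
    · rw [ind2_neg h5, ind2_pos h6, ind2_pos (by tauto)]; decide
    · rw [ind2_neg h5, ind2_neg h6, ind2_neg (by tauto)]; decide
  -- the connectors of `k` and `p` do not meet `M`
  have hkey : ∀ {x sx : ℕ} {ex tx : UE} {fx : ℤ × ℤ} {Cx : Set (ℤ × ℤ)} {Γx : Set UE},
      x < m' → x ≠ i → x ≠ l → Joins ex (w' x) (w' (x + 1)) → Joins tx (w sx) (w (sx + 1)) →
      Cnx U P Cx ex tx fx Γx → Disjoint Cx Ci → Disjoint Cx Cl → Φ (w sx) = Φ (w' x) := by
    intro x sx ex tx fx Cx Γx hx hxi hxl jx ux cx di dl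
    have hconst : ∀ k ∈ Cx, ∀ a, IsSide k a → Φ (ua a) = Φ (ub a) := by
      intro k hk a ha
      by_contra hne
      have haM : a ∈ M := (hΦ k (cx.subU hk) a ha).2 hne
      have hnT : a ∉ T := fun hh => cx.subP k hk (hTin a hh k ha)
      have hnP := cx.subP k hk
      have hni : a ∉ Γi := by
        intro hh
        rcases ci.side a hh k (cx.subU hk) ha with h1 | h1
        · exact Set.disjoint_left.1 di hk h1
        · exact hnP (h1 ▸ ci.fP)
      have hnl : a ∉ Γl := by
        intro hh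
        rcases cl.side a hh k (cx.subU hk) ha with h1 | h1
        · exact Set.disjoint_left.1 dl hk h1
        · exact hnP (h1 ▸ cl.fP)
      rw [hmem a hnT] at haM
      tauto
    have hst := hPstep x hx
    rw [if_neg (by tauto)] at hst
    have heq : Φ (w' x) = Φ (w' (x + 1)) := by
      rcases z2_cases (Φ (w' x)) with h3 | h3 <;> rcases z2_cases (Φ (w' (x + 1))) with h4 | h4
      · rw [h3, h4]
      · rw [h3, h4] at hst; exact absurd hst (by decide)
      · rw [h3, h4] at hst; exact absurd hst (by decide)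
      · rw [h3, h4]
    have h1 : Φ (ua ex) = Φ (ub ex) := by
      rcases jx with ⟨h1, h2⟩ | ⟨h1, h2⟩
      · rw [← h1, ← h2]; exact heq
      · rw [← h1, ← h2]; exact heq.symm
    obtain ⟨h2, h3⟩ := cx.const Φ hconst h1
    rw [((Joins.cases2 ux) Φ _ h2 h3).1, ((Joins.cases' jx) Φ h1).1]
  have hk1 := hkey (by omega) (by omega) (by omega) jk uk ck dki dkl
  have hp1 := hkey hpm (by omega) (by omega) jp up cp dpi dpl
  -- along `P`
  have hPsum : Φ (w' k) + Φ (w' p) = 1 := by
    rw [← tele2 (fun x => Φ (w' x)) (show k ≤ p by omega)]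
    have : ∑ x ∈ Ico k p, (Φ (w' x) + Φ (w' (x + 1))) =
        ∑ x ∈ Ico k p, (if x = i ∨ x = l then (1 : ZMod 2) else 0) := by
      refine Finset.sum_congr rfl fun x hx => ?_
      rw [Finset.mem_Ico] at hx
      exact hPstep x (by omega)
    rw [this, sum_two_ind k p i l (by omega), ind2_neg, ind2_pos, zero_add]
    · rw [Finset.mem_Ico]; omega
    · rw [Finset.mem_Ico]; omega
  have hUsum : Φ (w sk) + Φ (w sp) = 1 := by rw [hk1, hp1]; exact hPsum
  have hne : sk ≠ sp := by
    intro hh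
    rw [hh, z2_add_self] at hUsum
    exact absurd hUsum (by decide)
  have hmm : ∀ a b : ℕ, a < b → b < m → Φ (w a) + Φ (w b) =
      ind2 (si ∈ Ico a b) + ind2 (sl ∈ Ico a b) := by
    intro a b hab hb
    rw [← tele2 (fun x => Φ (w x)) hab.le]
    have h1 : ∑ x ∈ Ico a b, (Φ (w x) + Φ (w (x + 1))) =
        ∑ x ∈ Ico a b, (ind2 (x = si) + ind2 (x = sl)) := by
      refine Finset.sum_congr rfl fun x hx => ?_
      rw [Finset.mem_Ico] at hx
      exact hUstep x (by omega)
    have h2 : ∀ c : ℕ, ∑ x ∈ Ico a b, ind2 (x = c) = ind2 (c ∈ Ico a b) := by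
      intro c
      have : ∀ x ∈ Ico a b, ind2 (x = c) = if x = c then 1 else 0 := by
        intro x _
        by_cases h : x = c
        · rw [ind2_pos h, if_pos h]
        · rw [ind2_neg h, if_neg h]
      rw [Finset.sum_congr rfl this, Finset.sum_ite_eq']
      by_cases h : c ∈ Ico a b
      · rw [if_pos h, ind2_pos h]
      · rw [if_neg h, ind2_neg h]
    rw [h1, Finset.sum_add_distrib, h2, h2]
  have hfin : ind2 (si ∈ Ico (min sk sp) (max sk sp)) + ind2 (sl ∈ Ico (min sk sp) (max sk sp)) =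
      1 := by
    rcases Nat.lt_or_ge sk sp with h | h
    · rw [min_eq_left h.le, max_eq_right h.le, ← hmm sk sp h hsp]; exact hUsum
    · rw [min_eq_right h, max_eq_left h, ← hmm sp sk (by omega) hsk, add_comm]; exact hUsum
  have hiff : (si ∈ Ico (min sk sp) (max sk sp) ↔ sl ∉ Ico (min sk sp) (max sk sp)) := by
    by_cases h5 : si ∈ Ico (min sk sp) (max sk sp) <;>
      by_cases h6 : sl ∈ Ico (min sk sp) (max sk sp)
    · rw [ind2_pos h5, ind2_pos h6] at hfin; exact absurd hfin (by decide)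
    · simp [h5, h6]
    · simp [h5, h6]
    · rw [ind2_neg h5, ind2_neg h6] at hfin; exact absurd hfin (by decide)
  refine ⟨hne, ?_, hiff⟩
  intro hh
  rw [hh] at hiff
  tauto

/-! ### Existence of connectors -/

/-- The component of `g` in `U ∩ K`. -/
def cmpC (U K : Set (ℤ × ℤ)) (g : ℤ × ℤ) : Set (ℤ × ℤ) :=
  {h | Relation.ReflTransGen (StepC (U ∩ K)ᶜ) g h}

theorem cmpC_sub {U K : Set (ℤ × ℤ)} {g : ℤ × ℤ} (hU : g ∈ U) (hK : g ∈ K) :
    cmpC U K g ⊆ U ∩ K := by
  intro h hh
  have := chain_notMem (F := (U ∩ K)ᶜ) (f := g) (g := h) (by simp [hU, hK]) hh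
  simpa using this

theorem mem_cmpC {U K : Set (ℤ × ℤ)} {g : ℤ × ℤ} : g ∈ cmpC U K g := Relation.ReflTransGen.refl

theorem cmpC_eq {U K : Set (ℤ × ℤ)} {g h : ℤ × ℤ} (hU : g ∈ U) (hK : g ∈ K) (hh : h ∈ cmpC U K g) :
    cmpC U K h = cmpC U K g := by
  ext x
  constructor
  · intro hx
    exact Relation.ReflTransGen.trans hh hx
  · intro hx
    exact Relation.ReflTransGen.trans (chain_reverse (by simp [hU, hK]) hh) hx

/-- The chosen boundary edge of `U` which is a side of a face of `C`. -/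
noncomputable def rootE (U C : Set (ℤ × ℤ)) : UE := by
  classical exact if h : ∃ t, BdU U t ∧ ∃ k ∈ C, IsSide k t then h.choose else (0, 0, false)

theorem rootE_spec {U C : Set (ℤ × ℤ)} (h : ∃ t, BdU U t ∧ ∃ k ∈ C, IsSide k t) :
    BdU U (rootE U C) ∧ ∃ k ∈ C, IsSide k (rootE U C) := by
  unfold rootE
  rw [dif_pos h]
  exact h.choose_spec

/-- A component of `U ∩ K` has a side on the boundary of `U` if `K` is connected and not contained
in `U`. -/
theorem exists_root {U K : Set (ℤ × ℤ)} {g g' : ℤ × ℤ} (hU : g ∈ U) (hK : g ∈ K) (hg' : g' ∉ U)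
    (hch : Relation.ReflTransGen (StepC Kᶜ) g g') :
    ∃ t, BdU U t ∧ ∃ k ∈ cmpC U K g, IsSide k t := by
  have key : ∀ h, Relation.ReflTransGen (StepC Kᶜ) g h →
      (∃ t, BdU U t ∧ ∃ k ∈ cmpC U K g, IsSide k t) ∨ h ∈ cmpC U K g := by
    intro h hh
    induction hh with
    | refl => exact Or.inr mem_cmpC
    | @tail b c hb hs ih =>
      rcases ih with h1 | h1
      · exact Or.inl h1
      · obtain ⟨⟨hbc, a, ha1, ha2⟩, hc⟩ := hs
        have hcK : c ∈ K := by simpa using hc
        by_cases hcU : c ∈ U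
        · right
          exact Relation.ReflTransGen.tail h1 ⟨⟨hbc, a, ha1, ha2⟩, by simp [hcU, hcK]⟩
        · left
          have hbU := (cmpC_sub hU hK h1).1
          exact ⟨a, ⟨⟨b, hbU, ha1⟩, c, hcU, ha2⟩, b, h1, ha1⟩
  rcases key g' hch with h | h
  · exact h
  · exact absurd (cmpC_sub hU hK h).1 hg'

/-- The corners of a face on which no side is crossed. -/
theorem lab_face_const {k : ℤ × ℤ} {Φ : ℤ × ℤ → ZMod 2} (h : ∀ a, IsSide k a → Φ (ua a) = Φ (ub a))
    {a : UE} (ha : IsSide k a) : Φ (ua a) = Φ k ∧ Φ (ub a) = Φ k := by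
  obtain ⟨x, y⟩ := k
  have h1 := h _ (Or.inl rfl)
  have h2 := h _ (Or.inr (Or.inl rfl))
  have h3 := h _ (Or.inr (Or.inr (Or.inl rfl)))
  simp only [bo, le', to', ua, ub, Bool.false_eq_true, if_false, if_true] at h1 h2 h3
  rcases ha with rfl | rfl | rfl | rfl
  · exact ⟨rfl, h1.symm⟩
  · exact ⟨rfl, h2.symm⟩
  · exact ⟨h2.symm, h3.symm.trans h2.symm⟩
  · exact ⟨h1.symm, h3.symm.trans h2.symm⟩

theorem lab_chain_const {U K : Set (ℤ × ℤ)} {g h : ℤ × ℤ} {Φ : ℤ × ℤ → ZMod 2}
    (hc : ∀ k ∈ cmpC U K g, ∀ a, IsSide k a → Φ (ua a) = Φ (ub a)) (hh : h ∈ cmpC U K g) :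
    Φ h = Φ g := by
  have key : ∀ h, Relation.ReflTransGen (StepC (U ∩ K)ᶜ) g h → Φ h = Φ g := by
    intro h hh
    induction hh with
    | refl => rfl
    | @tail b c hb hs ih =>
      obtain ⟨⟨hbc, a, ha1, ha2⟩, hc'⟩ := hs
      have h1 := (lab_face_const (hc b hb) ha1).1
      have h2 := (lab_face_const (hc c (hb.tail ⟨⟨hbc, a, ha1, ha2⟩, hc'⟩)) ha2).1
      rw [← ih, ← h1, ← h2]
  exact key h hh

/-- **Existence of connectors.** -/
theorem exists_cnx {U P K : Set (ℤ × ℤ)} (hPU : P ⊆ U) (hKP : ∀ k ∈ K, k ∉ P) {e : UE}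
    {f g : ℤ × ℤ} (hf : f ∈ P) (hfe : IsSide f e) (hge : IsSide g e) (hgK : g ∈ K) (hgU : g ∈ U)
    (hr : ∃ t, BdU U t ∧ ∃ k ∈ cmpC U K g, IsSide k t) :
    ∃ Γ, Cnx U P (cmpC U K g) e (rootE U (cmpC U K g)) f Γ := by
  classical
  have hfg : f ≠ g := fun h => hKP g hgK (h ▸ hf)
  obtain ⟨⟨hb1, g', hg', hgs'⟩, h, hh, hs⟩ := rootE_spec hr
  set t := rootE U (cmpC U K g) with ht
  have hsub := cmpC_sub hgU hgK
  have hhU : h ∈ U := (hsub hh).1
  have hhg' : h ≠ g' := fun hx => hg' (hx ▸ hhU)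
  -- the path inside the component
  have hpath : ∀ h, Relation.ReflTransGen (StepC (U ∩ K)ᶜ) g h →
      Relation.ReflTransGen (StepC (cmpC U K g)ᶜ) g h := by
    intro h hh
    induction hh with
    | refl => exact Relation.ReflTransGen.refl
    | @tail b c hb hs ih =>
      exact ih.tail ⟨hs.1, fun hx => hx (show c ∈ cmpC U K g from hb.tail hs)⟩
  obtain ⟨-, T, hT, hTpar⟩ := chain_toggle (F := (cmpC U K g)ᶜ) (f := g) (g := h)
    (by simpa using mem_cmpC) (hpath h hh)
  have hTin : ∀ a ∈ T, ∀ k, IsSide k a → k ∈ cmpC U K g := by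
    intro a ha k hk
    by_contra hkC
    exact hT a ha k hkC hk
  have heT : e ∉ T := fun hx => hKP f (hsub (hTin e hx f hfe)).2 hf
  have htT : t ∉ T := fun hx => hg' (hsub (hTin t hx g' hgs')).1
  have het : e ≠ t := by
    intro hx
    rcases side_two hfg hfe hge (hx ▸ hgs' : IsSide g' e) with h1 | h1
    · exact hg' (h1 ▸ hPU hf)
    · exact hg' (h1 ▸ hgU)
  refine ⟨symmDiff (symmDiff T {e}) {t}, ?_⟩
  have hmem : ∀ a, a ∈ symmDiff (symmDiff T {e}) {t} ↔ a ∈ T ∨ a = e ∨ a = t := by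
    intro a
    rw [Set.mem_symmDiff, Set.mem_symmDiff, Set.mem_singleton_iff, Set.mem_singleton_iff]
    constructor
    · tauto
    · rintro (h1 | h1 | h1)
      · have h2 : a ≠ e := fun hx => heT (hx ▸ h1)
        have h3 : a ≠ t := fun hx => htT (hx ▸ h1)
        tauto
      · subst h1
        tauto
      · subst h1
        have h2 : t ≠ e := fun hx => het hx.symm
        tauto
  have htwo : ∀ k, IsSide k t → k = h ∨ k = g' := fun k hk => side_two hhg' hs hgs' hk
  refine
    { subU := fun k hk => (hsub hk).1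
      subP := fun k hk => hKP k (hsub hk).2
      fP := hf
      par := ?_
      side := ?_
      inP := ?_
      eG := (hmem e).2 (Or.inr (Or.inl rfl))
      bd := ?_
      tG := (hmem t).2 (Or.inr (Or.inr rfl))
      const := ?_ }
  · intro k hk
    rw [parAt_symmDiff, parAt_symmDiff, hTpar, parAt_side hfg hfe hge, parAt_side hhg' hs hgs',
      ind2_neg (fun hx : k = g' => hg' (hx ▸ hk))]
    generalize ind2 (k = g) = x
    generalize ind2 (k = h) = y
    generalize ind2 (k = f) = z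
    revert x y z
    decide
  · intro a ha k hk hka
    rcases (hmem a).1 ha with h1 | h1 | h1
    · exact Or.inl (hTin a h1 k hka)
    · subst h1
      rcases side_two hfg hfe hge hka with h2 | h2
      · exact Or.inr h2
      · left; rw [h2]; exact mem_cmpC
    · subst h1
      rcases htwo k hka with h2 | h2
      · left; rw [h2]; exact hh
      · exact absurd (h2 ▸ hk) hg'
  · intro a ha hfa
    rcases (hmem a).1 ha with h1 | h1 | h1
    · exact absurd hf (hKP f (hsub (hTin a h1 f hfa)).2)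
    · exact h1
    · subst h1
      rcases htwo f hfa with h2 | h2
      · exact absurd hf (hKP f (by rw [h2]; exact (hsub hh).2))
      · exact absurd (hPU hf) (h2 ▸ hg')
  · rintro a ha ⟨-, x, hx, hxs⟩
    rcases (hmem a).1 ha with h1 | h1 | h1
    · exact absurd (hsub (hTin a h1 x hxs)).1 hx
    · subst h1
      rcases side_two hfg hfe hge hxs with h2 | h2
      · exact absurd (h2 ▸ hPU hf) hx
      · exact absurd (h2 ▸ hgU) hx
    · exact h1
  · intro Φ hc he
    have h1 := lab_face_const (hc g mem_cmpC) hge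
    have h2 := lab_face_const (hc h hh) hs
    have h3 := lab_chain_const hc hh
    rw [h2.1, h2.2, h1.1, h3]
    exact ⟨rfl, rfl⟩

/-- A boundary edge of `P` on the boundary of `U`. -/
theorem cnx_self {U P : Set (ℤ × ℤ)} (hPU : P ⊆ U) {e : UE} {f g : ℤ × ℤ} (hf : f ∈ P)
    (hfe : IsSide f e) (hge : IsSide g e) (hgU : g ∉ U) : Cnx U P ∅ e e f {e} := by
  have hfg : f ≠ g := fun h => hgU (h ▸ hPU hf)
  refine
    { subU := fun k hk => absurd hk (Set.notMem_empty k)
      subP := fun k hk => absurd hk (Set.notMem_empty k)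
      fP := hf
      par := ?_
      side := ?_
      inP := fun a ha _ => ha
      eG := rfl
      bd := fun a ha _ => ha
      tG := rfl
      const := fun Φ _ he => ⟨rfl, he.symm⟩ }
  · intro k hk
    rw [parAt_side hfg hfe hge, ind2_neg (fun hx : k = g => hgU (hx ▸ hk)), add_zero]
  · intro a ha k hk hka
    rw [Set.mem_singleton_iff] at ha
    subst ha
    rcases side_two hfg hfe hge hka with h2 | h2
    · exact Or.inr h2
    · exact absurd (h2 ▸ hk) hgU

end Pool.Agent.SixB
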