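import Pool.Agent.Lib.SixB.S8LabO

/-!
# Step 8: the labels after a move

* `LabP.block`: the sides `j₁ - 1, …, j₂ + 1` of `P` at the target are consecutive sides of the new
  domain `P'`, which do not contain the new tip side;
* `LabP.newS`: the new state;
* `LabP.stepW`: **the labels of the new state** after a regular move;
* `nxt_hl`: the labels of the common sides of the old and the new fresh region.
-/

set_option autoImplicit false

namespace Pool.Agent.SixB.Mv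

open Pool.Agent.Perc Pool.Agent.Perc6 Pool.Agent.Perc6.C2Aux Pool.Agent.Perc.Tips
open Pool.Agent.SixB.Top Pool.Agent.SixB.CloK

variable {ι ι' : Type*} {U P U' P' E : Set (ℤ × ℤ)} {κ : ℤ × ℤ → ι} {κ' : ℤ × ℤ → ι'} {d d' : ℤ}
  {A A' τ τ' B : UE × Bool} {s s₀ : ℤ} {mP mU kt i₁ j₁ t j₂ i₂ mP' mU' kt' : ℕ}

/-- The next side of a part of `P`. -/
theorem sc_part {C : UE × Bool} (hPP : P' ⊆ P) (hC : ahead C ∈ P')
    (hcl : ∀ f ∈ P', ∀ g ∈ P, IsCor f (rg C) → IsCor g (rg C) → AdjF f g → g ∈ P') :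
    sc P' C = sc P C := by
  have a1 : AdjF (ahead C) (ahead (rtn C)) := by
    have := adjF_ahead (rtn C)
    rwa [ahead_rv_rtn] at this
  have a2 : AdjF (ahead (rtn C)) (ahead (rtn (rtn C))) := by
    have := adjF_ahead (rtn (rtn C))
    rwa [ahead_rv_rtn] at this
  have q0 : IsCor (ahead C) (rg C) := isCor_in_rg _
  have q1 : IsCor (ahead (rtn C)) (rg C) := (isCor_rg_iff _ _).2 (Or.inr (Or.inr (Or.inl rfl)))
  have q2 : IsCor (ahead (rtn (rtn C))) (rg C) := (isCor_rg_iff _ _).2 (Or.inr (Or.inr (Or.inr rfl)))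
  by_cases h1 : ahead (rtn C) ∈ P
  · have h1' := hcl _ hC _ h1 q0 q1 a1
    by_cases h2 : ahead (rtn (rtn C)) ∈ P
    · have h2' := hcl _ h1' _ h2 q1 q2 a2
      rw [sc_right h1 h2, sc_right h1' h2']
    · rw [sc_straight h1 h2, sc_straight h1' fun h => h2 (hPP h)]
  · rw [sc_left h1, sc_left fun h => h1 (hPP h)]

/-- The corner faces of the block are near the target. -/
theorem LabP.corB (X : LabP U P κ A τ B s s₀ mP mU kt i₁ j₁ t j₂ i₂) {i : ℕ} (h1 : j₁ ≤ i + 1)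
    (h2 : i ≤ j₂) {f : ℤ × ℤ} (hf : IsCor f (vert P A (i + 1))) : f ∈ sqF (s₀ + 1) (ahead B) := by
  have h3 := X.jt
  have h4 := X.tj
  obtain ⟨k, hk1, hk2, hk3⟩ : ∃ k, j₁ ≤ k ∧ k ≤ j₂ ∧ IsCor (inF P A k) (vert P A (i + 1)) := by
    rcases Nat.lt_or_ge i j₁ with h | h
    · refine ⟨i + 1, h1, by omega, isCor_in_lf _⟩
    · refine ⟨i, h, h2, ?_⟩
      rw [vert_succ]
      exact isCor_in_rg _
  have h5 := X.nrB k hk1 hk2
  have h6 := near_cor hf hk3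
  unfold sqF at h5 ⊢
  simp only [Set.mem_ofPred_eq, abs_le] at *
  omega

/-- The inner faces of the block are in the new domain. -/
theorem LabP.inF_mem (X : LabP U P κ A τ B s s₀ mP mU kt i₁ j₁ t j₂ i₂) (hB : ahead B ∈ P')
    (hcl : ∀ f ∈ P', ∀ g ∈ P, f ∈ sqF (s₀ + 1) (ahead B) → g ∈ sqF (s₀ + 1) (ahead B) →
      AdjF f g → g ∈ P') {i : ℕ} (h1 : j₁ ≤ i + 1) (h2 : i ≤ j₂ + 1) : inF P A i ∈ P' := by
  have h3 := X.jt
  have h4 := X.tj
  have h5 := X.ij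
  have hstep : ∀ i, j₁ ≤ i + 1 → i ≤ j₂ → (inF P A i ∈ P' ↔ inF P A (i + 1) ∈ P') := by
    intro i hi1 hi2
    refine inF_step (Q := sqF (s₀ + 1) (ahead B)) X.cyc.bd (fun f hf => X.corB hi1 hi2 hf) ?_
    intro f g hf hfQ hg hgQ hfg
    exact hcl f hf g hg hfQ hgQ hfg
  have hall : ∀ k, j₁ - 1 + k ≤ j₂ + 1 → (inF P A (j₁ - 1) ∈ P' ↔ inF P A (j₁ - 1 + k) ∈ P') := by
    intro k
    induction k with
    | zero => exact fun _ => Iff.rfl
    | succ k ih => exact fun hk => (ih (by omega)).trans (hstep _ (by omega) (by omega))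
  have e1 := hall (i - (j₁ - 1)) (by omega)
  have e2 := hall (t - (j₁ - 1)) (by omega)
  rw [show j₁ - 1 + (i - (j₁ - 1)) = i by omega] at e1
  rw [show j₁ - 1 + (t - (j₁ - 1)) = t by omega] at e2
  rw [← e1, e2]
  unfold inF
  rw [X.tgt]
  exact hB

/-- **The block**: the sides `j₁ - 1, …, j₂ + 1` of `P` are consecutive sides of the new domain, and the
new tip side is not one of them. -/
theorem LabP.block (X : LabP U P κ A τ B s s₀ mP mU kt i₁ j₁ t j₂ i₂) (hP' : Cyc P' A' mP')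
    (hPP : P' ⊆ P) (hB : ahead B ∈ P')
    (hcl : ∀ f ∈ P', ∀ g ∈ P, f ∈ sqF (s₀ + 1) (ahead B) → g ∈ sqF (s₀ + 1) (ahead B) →
      AdjF f g → g ∈ P') (hA' : ahead (rv A') ∈ P) :
    ∃ b, 0 < b ∧ b + (j₂ + 2 - j₁) < mP' ∧
      ∀ k ≤ j₂ + 2 - j₁, side P' A' (b + k) = side P A (j₁ - 1 + k) := by
  have h3 := X.jt
  have h4 := X.tj
  have h5 := X.ij
  have hin : ∀ k ≤ j₂ + 2 - j₁, inF P A (j₁ - 1 + k) ∈ P' := fun k hk =>
    X.inF_mem hB hcl (by omega) (by omega)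
  have hout : ∀ k, ahead (rv (side P A k)) ∉ P := fun k => (bd_side X.cyc.bd k).2
  obtain ⟨b, hb, hbs⟩ := hP'.exists_index (B := side P A (j₁ - 1))
    ⟨hin 0 (Nat.zero_le _), fun h => hout _ (hPP h)⟩
  have hall : ∀ k ≤ j₂ + 2 - j₁, side P' A' (b + k) = side P A (j₁ - 1 + k) := by
    intro k
    induction k with
    | zero => exact fun _ => hbs
    | succ k ih =>
      intro hk
      have e1 : side P' A' (b + (k + 1)) = sc P' (side P' A' (b + k)) :=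
        Function.iterate_succ_apply' _ _ _
      have e2 : side P A (j₁ - 1 + (k + 1)) = sc P (side P A (j₁ - 1 + k)) :=
        Function.iterate_succ_apply' _ _ _
      rw [e1, e2, ih (by omega)]
      refine sc_part hPP (hin k (by omega)) ?_
      intro f hf g hg hf' hg' hfg
      rw [← vert_succ] at hf' hg'
      exact hcl f hf g hg (X.corB (by omega) (by omega) hf') (X.corB (by omega) (by omega) hg') hfg
  refine ⟨b, ?_, ?_, hall⟩
  · rcases Nat.eq_zero_or_pos b with h0 | h0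
    · exfalso
      rw [h0] at hbs
      apply hout (j₁ - 1)
      rw [← hbs]
      exact hA'
    · exact h0
  · by_contra hcon
    have h6 := hall (mP' - b) (by omega)
    rw [show b + (mP' - b) = mP' by omega, hP'.per] at h6
    apply hout (j₁ - 1 + (mP' - b))
    rw [← h6]
    exact hA'

/-- **The new state.** -/
theorem LabP.newS (X : LabP U P κ A τ B s s₀ mP mU kt i₁ j₁ t j₂ i₂)
    (hs : κ (outF P A (j₁ - 1)) ≠ κ (outF P A (j₂ + 1))) (h' : App U' P' κ' d') (hF : U'.Finite)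
    (hE' : Top.EConn U') (hesc : Esc U') (hU' : Cyc U' τ' mU') (hP' : Cyc P' A' mP') (cP' : Top.EConn P')
    (hPP : P' ⊆ P) (hB : ahead B ∈ P')
    (hcl : ∀ f ∈ P', ∀ g ∈ P, f ∈ sqF (s₀ + 1) (ahead B) → g ∈ sqF (s₀ + 1) (ahead B) →
      AdjF f g → g ∈ P')
    (hκ : ∀ x, x ∉ P → ∀ y, y ∉ P → (κ' x = κ' y ↔ κ x = κ y))
    (hE : Top.EConn E) (hEU : E ⊆ U') (hEκ : ∀ y ∈ E, ∀ z ∈ E, κ' y = κ' z) (hAE : ahead (rv A') ∈ E)
    (hA' : ahead (rv A') ∈ P) :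
    ∃ b, 0 < b ∧ b + (j₂ + 2 - j₁) < mP' ∧
      (∀ k ≤ j₂ + 2 - j₁, side P' A' (b + k) = side P A (j₁ - 1 + k)) ∧
      NewS U' P' E κ' d' A' τ' B s₀ mP' mU' (b + 1) (b + 1 + (t - j₁)) (b + 1 + (j₂ - j₁)) := by
  obtain ⟨b, b0, b1, hb⟩ := X.block hP' hPP hB hcl hA'
  have h3 := X.jt
  have h4 := X.tj
  have h5 := X.ij
  refine ⟨b, b0, b1, hb, ?_⟩
  exact
    { fin := hF
      ecU := hE'
      esc := hesc
      cyU := hU'
      app := h'
      ecP := cP'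
      cyc := hP'
      hE := hE
      hEU := hEU
      hEP := fun f hf hfP => hP'.bd.2 (h'.sat f _ (hEκ f hf _ hAE) hfP)
      hEκ := hEκ
      hA := hAE
      j1 := by omega
      jt := by omega
      tj := by omega
      jm := by omega
      tgt := by
        rw [show b + 1 + (t - j₁) = b + (t - j₁ + 1) by omega, hb _ (by omega),
          show j₁ - 1 + (t - j₁ + 1) = t by omega, X.tgt]
      sep := by
        have e1 : outF P' A' (b + 1 - 1) = outF P A (j₁ - 1) := by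
          unfold outF
          rw [Nat.add_sub_cancel, show side P' A' b = side P' A' (b + 0) from rfl,
            hb 0 (Nat.zero_le _)]
          rfl
        have e2 : outF P' A' (b + 1 + (j₂ - j₁) + 1) = outF P A (j₂ + 1) := by
          unfold outF
          rw [show b + 1 + (j₂ - j₁) + 1 = b + (j₂ + 2 - j₁) by omega, hb _ le_rfl,
            show j₁ - 1 + (j₂ + 2 - j₁) = j₂ + 1 by omega]
        rw [e1, e2]
        exact fun h => hs ((hκ _ (bd_side X.cyc.bd _).2 _ (bd_side X.cyc.bd _).2).1 h)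
      nrB := by
        intro i hi1 hi2
        have e1 : inF P' A' i = inF P A (j₁ + (i - (b + 1))) := by
          unfold inF
          rw [show i = b + (i - b) by omega, hb _ (by omega)]
          congr 2
          omega
        rw [e1]
        exact X.nrB _ (by omega) (by omega) }

/-- A link whose class part is contained in the new fresh region. -/
theorem linkK_new {C C' : UE × Bool} (hU : U' ⊆ U) (hC' : BD U C') (hC : ahead C ∈ U')
    (hl : LinkK U κ C C')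
    (hc : ahead (rv C) ∈ U → ∀ f ∈ capC U κ (ahead (rv C)), f ∈ U')
    (hκ : ∀ y, κ y = κ (ahead (rv C)) → κ' y = κ' (ahead (rv C))) :
    BD U' C' ∧ LinkK U' κ' C C' := by
  rcases hl with rfl | ⟨h1, h2⟩
  · exact ⟨⟨hC, fun h => hC'.2 (hU h)⟩, Or.inl rfl⟩
  · have h3 := hc h1
    refine ⟨⟨h3 _ h2, fun h => hC'.2 (hU h)⟩, Or.inr ⟨h3 _ self_mem_compT, ?_⟩⟩
    have h4 : ChI (capC U κ (ahead (rv C))) (ahead (rv C)) (ahead C') :=
      compT_chain self_mem_compT h2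
    have h5 : capC U κ (ahead (rv C)) ⊆ {x | κ' x = κ' (ahead (rv C))} ∩ U' := fun z hz =>
      ⟨hκ z (capC_le h1 hz).1, h3 z hz⟩
    exact ChI.mono h5 h4

/-- **The labels after a regular move.** -/
theorem LabP.stepW (X : LabP U P κ A τ B s s₀ mP mU kt i₁ j₁ t j₂ i₂)
    (hs : κ (outF P A (j₁ - 1)) ≠ κ (outF P A (j₂ + 1))) (hU : Cyc U τ mU) (h : App U P κ d)
    (h' : App U' P' κ' d') (hF : U'.Finite) (hE' : Top.EConn U') (hesc : Esc U') (hU' : Cyc U' τ' mU')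
    (hP' : Cyc P' A' mP') (cP' : Top.EConn P') (hPP : P' ⊆ P) (hUU : U' ⊆ U) (k0 : 0 < kt')
    (hB : ahead B ∈ P')
    (hcl : ∀ f ∈ P', ∀ g ∈ P, f ∈ sqF (s₀ + 1) (ahead B) → g ∈ sqF (s₀ + 1) (ahead B) →
      AdjF f g → g ∈ P')
    (hκ : ∀ x, x ∉ P → ∀ y, y ∉ P → (κ' x = κ' y ↔ κ x = κ y))
    (hc1 : ahead (rv (side P A (j₁ - 1))) ∈ U →
      ∀ f ∈ capC U κ (ahead (rv (side P A (j₁ - 1)))), f ∈ U')
    (hc2 : ahead (rv (side P A (j₂ + 1))) ∈ U →
      ∀ f ∈ capC U κ (ahead (rv (side P A (j₂ + 1)))), f ∈ U')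
    (hl : ∀ w < mU, ∀ w' < mU', side U' τ' w' = side U τ w →
      (w < kt → w' < kt') ∧ (kt ≤ w → w' = 0 ∨ kt' ≤ w'))
    (hE : Top.EConn E) (hEU : E ⊆ U') (hEκ : ∀ y ∈ E, ∀ z ∈ E, κ' y = κ' z) (hτ : ahead τ' ∈ E)
    (hAE : ahead (rv A') ∈ E) (hA' : ahead (rv A') ∈ P) :
    (∃ i₁' j₁' t' j₂' i₂', LabP U' P' κ' A' τ' B (d' + 1) s₀ mP' mU' kt' i₁' j₁' t' j₂' i₂' ∧
        κ' (outF P' A' (j₁' - 1)) ≠ κ' (outF P' A' (j₂' + 1))) ∨
      ChI (P' ∩ sqF (s₀ + d' + 3) (ahead B)) (ahead B) (ahead A') := by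
  obtain ⟨b, b0, b1, hb, N⟩ := X.newS hs h' hF hE' hesc hU' hP' cP' hPP hB hcl hκ hE hEU hEκ hAE hA'
  have h3 := X.jt
  have h4 := X.tj
  have h5 := X.ij
  have h6 := X.ji
  have hout : ∀ i, outF P A i ∉ P := fun i => (bd_side X.cyc.bd i).2
  have hκ' : ∀ i, ∀ y, κ y = κ (ahead (rv (side P A i))) → κ' y = κ' (ahead (rv (side P A i))) := by
    intro i y hy
    exact (hκ y (fun hyP => hout i (h.sat y _ hy hyP)) _ (hout i)).2 hy
  have hin : ∀ i, j₁ ≤ i + 1 → i ≤ j₂ + 1 → ahead (side P A i) ∈ U' := fun i h1 h2 =>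
    h'.sub (X.inF_mem hB hcl h1 h2)
  have e1 : side P' A' (b + 1 - 1) = side P A (j₁ - 1) := by
    rw [Nat.add_sub_cancel, show side P' A' b = side P' A' (b + 0) from rfl, hb 0 (Nat.zero_le _)]
    rfl
  have e2 : side P' A' (b + 1 + (j₂ - j₁) + 1) = side P A (j₂ + 1) := by
    rw [show b + 1 + (j₂ - j₁) + 1 = b + (j₂ + 2 - j₁) by omega, hb _ le_rfl,
      show j₁ - 1 + (j₂ + 2 - j₁) = j₂ + 1 by omega]
  -- the anchors
  obtain ⟨w₁, hw₁, l₁⟩ := X.b (j₁ - 1) (by omega) (by omega)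
  obtain ⟨w₂, hw₂, hw₂', l₂⟩ := X.l (j₂ + 1) (by omega) h6
  obtain ⟨c₁, n₁⟩ := linkK_new hUU (bd_side hU.bd w₁) (hin _ (by omega) (by omega)) l₁ hc1
    (hκ' (j₁ - 1))
  obtain ⟨c₂, n₂⟩ := linkK_new hUU (bd_side hU.bd w₂) (hin _ (by omega) (by omega)) l₂ hc2
    (hκ' (j₂ + 1))
  obtain ⟨v₁, hv₁, q₁⟩ := hU'.exists_index c₁
  obtain ⟨v₂, hv₂, q₂⟩ := hU'.exists_index c₂
  have p₁ := (hl w₁ (by omega) v₁ hv₁ q₁).1 hw₁
  have p₂ := (hl w₂ hw₂' v₂ hv₂ q₂).2 hw₂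
  rcases N.labs (kt := kt') k0 hτ ⟨v₁, p₁, by rw [e1, q₁]; exact n₁⟩
    ⟨v₂, hv₂, p₂, by rw [e2, q₂]; exact n₂⟩ with h7 | ⟨i₂', h7⟩
  · exact Or.inr h7
  · exact Or.inl ⟨_, _, _, _, _, h7, N.sep⟩

/-- The labels of the common sides of the old and the new fresh region. -/
theorem nxt_hl {ω : Cfg} {R N : Set (ℤ × ℤ)} {m x m' x' : ℕ} (Nx : Nxt ω R U τ m x N U' τ' m' x')
    (hA : Cyc U τ m) (hx : x < m) : ∀ w < m, ∀ w' < m', side U' τ' w' = side U τ w →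
      (w < x → w' < x') ∧ (x ≤ w → w' = 0 ∨ x' ≤ w') := by
  intro w hw w' hw' he
  rcases eq_or_ne w x with rfl | hne
  · refine ⟨fun h => absurd h (lt_irrefl _), fun _ => Or.inr ?_⟩
    rw [← Nx.tgt] at he
    exact (Nx.st.cyc.inj _ hw' _ Nx.st.lt he).ge
  · obtain ⟨h1, h2⟩ := nxt_label Nx hA hx hw hne hw' he
    refine ⟨h1, fun h => ?_⟩
    rcases h2 (by omega) with h3 | h3
    · exact Or.inl h3
    · exact Or.inr h3.le

end Pool.Agent.SixB.Mv
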