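import Pool.Agent.Lib.SixB.S8Ori
import Pool.Agent.Lib.SixB.S8LabU
import Pool.Agent.Lib.SixB.S8MoveB

/-!
# Step 8: the order of the labels after a move

`NewS`: the new fresh region `U`, the new coarse domain `P` with the tip side `A` (its outer face is in
the entered set `E`) and a block of sides at the target side which contains two anchors (the sides number
`j₁ - 1` and `j₂ + 1`) with different classes.

* `NewS.chord`: the outer faces of two sides are in the same part of a class: then on one of the two arcs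
  between them all outer faces are in this part;
* `NewS.alt`: either the tip and the target are joined in `P` near the target, or the sides with outer
  face in the part of `E` are an arc at the tip without the anchors;
* `NewS.labs`: if the true tip is at `E` and the anchors have labels, then the same alternative or `LabP`.
-/

set_option autoImplicit false

namespace Pool.Agent.SixB.Mv

open Pool.Agent.Perc Pool.Agent.Perc6 Pool.Agent.Perc6.C2Aux Pool.Agent.Perc.Tips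
open Pool.Agent.SixB.Top

theorem sqF_le_of {r r' : ℤ} (h : r ≤ r') {g : ℤ × ℤ} : sqF r g ⊆ sqF r' g := fun _ hf =>
  ⟨hf.1.trans h, hf.2.trans h⟩

end Pool.Agent.SixB.Mv

namespace Pool.Agent.SixB.Top

open Finset Pool.Agent.Perc Pool.Agent.Perc6 Pool.Agent.Perc6.C2Aux Pool.Agent.Perc.Tips
open Pool.Agent.SixB.Mv Pool.Agent.SixB.CloK

variable {ι : Type*} {U P E : Set (ℤ × ℤ)} {κ : ℤ × ℤ → ι} {d : ℤ} {A τ B C : UE × Bool}
  {f g k : ℤ × ℤ}

/-! ### Parts of classes -/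

/-- The part of the class of `g` in `U` which contains `g` (empty for a face outside of `U`). -/
def ptK (U : Set (ℤ × ℤ)) (κ : ℤ × ℤ → ι) (g : ℤ × ℤ) : Set (ℤ × ℤ) := {f | g ∈ U ∧ f ∈ capC U κ g}

theorem ptK_self (h : g ∈ U) : g ∈ ptK U κ g := ⟨h, self_mem_compT⟩

theorem ptK_le (h : f ∈ ptK U κ g) : g ∈ U ∧ f ∈ U ∧ κ f = κ g :=
  ⟨h.1, (capC_le h.1 h.2).2, (capC_le h.1 h.2).1⟩

theorem ptK_eq (h : f ∈ ptK U κ g) : ptK U κ f = ptK U κ g := by
  obtain ⟨h1, h2, h3⟩ := ptK_le h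
  have h4 : capC U κ f = capC U κ g := by
    unfold capC
    rw [h3]
    exact compT_eq ⟨rfl, h1⟩ h.2
  unfold ptK
  rw [h4]
  ext x
  simp only [Set.mem_ofPred_eq]
  tauto

theorem ptK_symm (h : f ∈ ptK U κ g) : g ∈ ptK U κ f := by
  rw [ptK_eq h]
  exact ptK_self h.1

theorem ptK_trans (h : f ∈ ptK U κ g) (h' : k ∈ ptK U κ f) : k ∈ ptK U κ g := ptK_eq h ▸ h'

theorem ptK_meet (h : f ∈ ptK U κ g) (h' : f ∈ ptK U κ k) : k ∈ ptK U κ g := ptK_trans h (ptK_symm h')

theorem ptK_chI (h : f ∈ ptK U κ g) : ChI (ptK U κ g) g f := by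
  have h1 : capC U κ g ⊆ ptK U κ g := fun _ hx => ⟨h.1, hx⟩
  exact ChI.mono h1 (compT_chain self_mem_compT h.2)

theorem ptK_dis (h : g ∉ ptK U κ k) (hf : f ∈ ptK U κ g) : f ∉ ptK U κ k := fun hf' =>
  h (ptK_meet hf' hf)

theorem lkS_of (h : LinkK U κ B C) : LkS (ptK U κ (ahead (rv B))) B C := by
  rcases h with h | ⟨h1, h2⟩
  · exact Or.inl h
  · exact Or.inr ⟨ptK_self h1, ptK_chI ⟨h1, h2⟩⟩

/-- Two sides with outer faces in the same part have the same links. -/
theorem linkK_part {B' : UE × Bool} (hC : BD U C) (h : LinkK U κ B C)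
    (hB : ahead (rv B') ∈ ptK U κ (ahead (rv B))) : LinkK U κ B' C := by
  rcases h with rfl | ⟨h1, h2⟩
  · exact absurd hB.1 hC.2
  · exact Or.inr ⟨(ptK_le hB).2.1, (ptK_trans (ptK_symm hB) (show ahead C ∈ ptK U κ _ from ⟨h1, h2⟩)).2⟩

/-! ### Consecutive inner faces -/

/-- The inner faces of two consecutive sides are joined around the common vertex. -/
theorem chI_sc (_hC : BD P C) : ChI (P ∩ {f | IsCor f (rg C)}) (ahead C) (ahead (sc P C)) := by
  have a1 : AdjF (ahead C) (ahead (rtn C)) := by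
    have := adjF_ahead (rtn C)
    rwa [ahead_rv_rtn] at this
  have a2 : AdjF (ahead (rtn C)) (ahead (rtn (rtn C))) := by
    have := adjF_ahead (rtn (rtn C))
    rwa [ahead_rv_rtn] at this
  have q1 : IsCor (ahead (rtn C)) (rg C) := (isCor_rg_iff _ _).2 (Or.inr (Or.inr (Or.inl rfl)))
  have q2 : IsCor (ahead (rtn (rtn C))) (rg C) := (isCor_rg_iff _ _).2 (Or.inr (Or.inr (Or.inr rfl)))
  by_cases h1 : ahead (rtn C) ∈ P
  · by_cases h2 : ahead (rtn (rtn C)) ∈ P
    · rw [sc_right h1 h2, ahead_rv_rtn]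
      have s1 : ChI (P ∩ {f | IsCor f (rg C)}) (ahead C) (ahead (rtn C)) := ChI.single a1 ⟨h1, q1⟩
      exact s1.trans (ChI.single a2 ⟨h2, q2⟩)
    · rw [sc_straight h1 h2, ahead_rv_rtn]
      exact ChI.single a1 ⟨h1, q1⟩
  · rw [sc_left h1, ahead_rv_rtn]
    exact ChI.refl _

/-- The inner faces along an arc are joined. -/
theorem chI_inF (hA : BD P A) {Q : Set (ℤ × ℤ)} {i j : ℕ} (hij : i ≤ j)
    (hQ : ∀ l, i ≤ l → l < j → ∀ f, IsCor f (vert P A (l + 1)) → f ∈ Q) :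
    ChI (P ∩ Q) (inF P A i) (inF P A j) := by
  obtain ⟨n, rfl⟩ : ∃ n, j = i + n := ⟨j - i, by omega⟩
  clear hij
  induction n with
  | zero => exact ChI.refl _
  | succ n ih =>
    have h1 := ih fun l h1 h2 => hQ l h1 (by omega)
    refine h1.trans ?_
    have h2 := chI_sc (bd_side hA (i + n))
    have e : side P A (i + (n + 1)) = sc P (side P A (i + n)) := Function.iterate_succ_apply' _ _ _
    have h3 : P ∩ {f | IsCor f (rg (side P A (i + n)))} ⊆ P ∩ Q := by
      intro f hf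
      refine ⟨hf.1, hQ (i + n) (by omega) (by omega) f ?_⟩
      rw [vert_succ]
      exact hf.2
    unfold inF
    rw [e]
    exact ChI.mono h3 h2

theorem near_adj (h : AdjF f g) : |f.1 - g.1| ≤ 1 ∧ |f.2 - g.2| ≤ 1 :=
  adj_near_app (adj_iff_adjFL.2 h)

theorem near_cor {v : ℤ × ℤ} (hf : IsCor f v) (hg : IsCor g v) : |f.1 - g.1| ≤ 1 ∧ |f.2 - g.2| ≤ 1 := by
  unfold IsCor at hf hg
  rw [abs_le, abs_le]
  omega

/-- Consecutive inner faces are near each other. -/
theorem inF_succ_near (i : ℕ) : |(inF P A i).1 - (inF P A (i + 1)).1| ≤ 1 ∧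
    |(inF P A i).2 - (inF P A (i + 1)).2| ≤ 1 := by
  refine near_cor (v := vert P A (i + 1)) ?_ ?_
  · rw [vert_succ]
    exact isCor_in_rg _
  · exact isCor_in_lf _

/-! ### The new state -/

/-- The new state after a move: fresh region `U` with tip side `τ`, coarse domain `P` with tip side `A`
at the entered set `E`, and a block of sides at the target side `B`. -/
structure NewS (U P E : Set (ℤ × ℤ)) (κ : ℤ × ℤ → ι) (d : ℤ) (A τ B : UE × Bool) (s₀ : ℤ)
    (mP mU j₁ t j₂ : ℕ) : Prop where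
  fin : U.Finite
  ecU : EConn U
  esc : Esc U
  cyU : Cyc U τ mU
  app : App U P κ d
  ecP : EConn P
  cyc : Cyc P A mP
  hE : EConn E
  hEU : E ⊆ U
  hEP : ∀ f ∈ E, f ∉ P
  hEκ : ∀ y ∈ E, ∀ z ∈ E, κ y = κ z
  hA : ahead (rv A) ∈ E
  j1 : 1 < j₁
  jt : j₁ ≤ t
  tj : t ≤ j₂
  jm : j₂ + 1 < mP
  tgt : side P A t = B
  sep : κ (outF P A (j₁ - 1)) ≠ κ (outF P A (j₂ + 1))
  nrB : ∀ i, j₁ ≤ i → i ≤ j₂ → inF P A i ∈ sqF s₀ (ahead B)

namespace NewS

variable {s₀ : ℤ} {mP mU j₁ t j₂ : ℕ} (N : NewS U P E κ d A τ B s₀ mP mU j₁ t j₂)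
include N

theorem per : Per P mP A := ⟨N.cyc.pos, N.cyc.per, N.cyc.inj⟩

theorem perU : Per U mU τ := ⟨N.cyU.pos, N.cyU.per, N.cyU.inj⟩

theorem bd (i : ℕ) : BD P (side P A i) := bd_side N.cyc.bd i

theorem bdU (i : ℕ) : BD U (side U τ i) := bd_side N.cyU.bd i

/-- The parts behind the sides are outside of `P`. -/
theorem ptK_out (i : ℕ) : ∀ f ∈ ptK U κ (outF P A i), f ∈ U ∧ f ∉ P := fun f hf => by
  obtain ⟨h1, h2, h3⟩ := ptK_le hf
  exact ⟨h2, fun h => (N.bd i).2 (N.app.sat f _ h3 h)⟩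

theorem exists_link (i : ℕ) : ∃ v < mU, LinkK U κ (side P A i) (side U τ v) := by
  obtain ⟨C, hC, hl⟩ := exists_linkU N.app (N.bd i)
  obtain ⟨v, hv, rfl⟩ := N.cyU.exists_index hC
  exact ⟨v, hv, hl⟩

/-- **Chords.** -/
theorem chord {i j k l : ℕ} (hik : i < k) (hkj : k < j) (hj : j < mP) (hl : l < i ∨ j < l)
    (hlm : l < mP) (hij : outF P A j ∈ ptK U κ (outF P A i)) :
    outF P A k ∈ ptK U κ (outF P A i) ∨ outF P A l ∈ ptK U κ (outF P A i) := by
  by_contra hcon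
  push Not at hcon
  obtain ⟨C₃, hC₃, l₃⟩ := exists_linkU N.app (N.bd k)
  obtain ⟨C₄, hC₄, l₄⟩ := exists_linkU N.app (N.bd l)
  exact no_chord N.fin N.ecU N.esc N.app.sub N.ecP N.cyc.bd N.per (S := ptK U κ (outF P A i))
    (S₃ := ptK U κ (outF P A k)) (S₄ := ptK U κ (outF P A l)) (N.ptK_out i) (N.ptK_out k)
    (N.ptK_out l) (fun f hf => ptK_dis hcon.1 hf) (fun f hf => ptK_dis hcon.2 hf) hik hkj hj hl hlm
    (ptK_self hij.1) (ptK_chI hij) hC₃ hC₄ (lkS_of l₃) (lkS_of l₄)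

/-- **The cyclic order of three links.** -/
theorem cyc3 {i₁ i₂ i₃ v₁ v₂ v₃ : ℕ} (hi₁ : i₁ < i₂) (hi₂ : i₂ < i₃) (hi₃ : i₃ < mP)
    (h12 : outF P A i₂ ∉ ptK U κ (outF P A i₁)) (h13 : outF P A i₃ ∉ ptK U κ (outF P A i₁))
    (h23 : outF P A i₃ ∉ ptK U κ (outF P A i₂)) (hv₁ : v₁ < mU) (hv₂ : v₂ < mU) (hv₃ : v₃ < mU)
    (l₁ : LinkK U κ (side P A i₁) (side U τ v₁)) (l₂ : LinkK U κ (side P A i₂) (side U τ v₂))
    (l₃ : LinkK U κ (side P A i₃) (side U τ v₃)) :
    (v₁ < v₂ ∧ v₂ < v₃) ∨ (v₂ < v₃ ∧ v₃ < v₁) ∨ (v₃ < v₁ ∧ v₁ < v₂) :=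
  Top.cyc3 N.fin N.esc N.app.sub N.ecP N.cyc.bd N.per N.cyU.bd N.perU (N.ptK_out i₁) (N.ptK_out i₂)
    (N.ptK_out i₃) (fun _ hf hf' => ptK_dis h12 hf' hf) (fun _ hf hf' => ptK_dis h13 hf' hf)
    (fun _ hf hf' => ptK_dis h23 hf' hf) hi₁ hi₂ hi₃ hv₁ hv₂ hv₃ (lkS_of l₁) (lkS_of l₂) (lkS_of l₃)

/-- The entered set is in the part of the outer face of the tip side. -/
theorem E_ptK : E ⊆ ptK U κ (outF P A 0) := by
  intro f hf
  have h0 : outF P A 0 ∈ E := N.hA
  have h1 : E ⊆ {x | κ x = κ (outF P A 0)} ∩ U := fun z hz => ⟨N.hEκ z hz _ h0, N.hEU hz⟩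
  exact ⟨N.hEU h0, ChI.mono h1 (N.hE _ h0 _ hf)⟩

theorem outF_mP : outF P A mP = outF P A 0 := by
  unfold outF
  rw [N.cyc.per]
  rfl

theorem inF_mP : inF P A mP = ahead A := by
  unfold inF
  rw [N.cyc.per]

/-- Two sides with outer faces in one class. -/
theorem near_of {i j : ℕ} (h : κ (outF P A i) = κ (outF P A j)) :
    |(inF P A i).1 - (inF P A j).1| ≤ d + 1 ∧ |(inF P A i).2 - (inF P A j).2| ≤ d + 1 := by
  obtain ⟨h1, h2⟩ := N.app.diam _ _ h
  obtain ⟨h3, h4⟩ := near_adj (adjF_ahead (side P A i))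
  obtain ⟨h5, h6⟩ := near_adj (adjF_ahead (side P A j))
  unfold outF at h1 h2
  unfold inF
  rw [abs_lt] at h1 h2
  rw [abs_le] at h3 h4 h5 h6
  rw [abs_le, abs_le]
  omega

/-- The face of a side at the part of `E` is near the tip. -/
theorem near_tip {i : ℕ} (h : outF P A i ∈ ptK U κ (outF P A 0)) :
    inF P A i ∈ sqF (d + 1) (ahead A) := by
  have h1 := N.near_of (ptK_le h).2.2
  have e : inF P A 0 = ahead A := rfl
  rw [e] at h1
  exact h1

/-- The block is joined to the target. -/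
theorem block {i : ℕ} (h1 : j₁ ≤ i + 1) (h2 : i ≤ j₂ + 1) :
    inF P A i ∈ sqF (s₀ + 1) (ahead B) := by
  have h3 := N.jt
  have h4 := N.tj
  have h5 := N.j1
  rcases Nat.lt_or_ge i j₁ with h | h
  · have h6 := N.nrB (i + 1) h1 (by omega)
    have h7 := inF_succ_near (P := P) (A := A) i
    unfold sqF at h6 ⊢
    simp only [Set.mem_ofPred_eq, abs_le] at *
    omega
  · rcases Nat.lt_or_ge j₂ i with h' | h'
    · have h6 := N.nrB (i - 1) (by omega) (by omega)
      have h7 := inF_succ_near (P := P) (A := A) (i - 1)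
      rw [show i - 1 + 1 = i by omega] at h7
      unfold sqF at h6 ⊢
      simp only [Set.mem_ofPred_eq, abs_le] at *
      omega
    · exact sqF_le_of (by omega) (N.nrB i h h')

/-- The tip is near the target: first case. -/
theorem nearR (h : ∀ i < j₁, outF P A i ∈ ptK U κ (outF P A 0)) : ChI (P ∩ sqF (s₀ + d + 3) (ahead B)) (ahead B) (ahead A) := by
  have hd := N.app.d_pos
  have h3 := N.jt
  have h4 := N.tj
  have h5 := N.j1
  have hall : ∀ i ≤ t, inF P A i ∈ sqF (s₀ + d + 2) (ahead B) := by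
    intro i hi
    rcases Nat.lt_or_ge i j₁ with h6 | h6
    · have h7 := N.block (i := j₁ - 1) (by omega) (by omega)
      have h8 := N.near_of (i := i) (j := j₁ - 1) ((ptK_le (h i h6)).2.2.trans
        (ptK_le (h (j₁ - 1) (by omega))).2.2.symm)
      unfold sqF at h7 ⊢
      simp only [Set.mem_ofPred_eq, abs_le] at *
      omega
    · exact sqF_le_of (by omega) (N.nrB i h6 (by omega))
  have h6 := chI_inF (P := P) (Q := sqF (s₀ + d + 3) (ahead B)) N.cyc.bd (Nat.zero_le t)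
    fun l _ hl f hf => by
      have h7 := hall l hl.le
      have h8 : |f.1 - (inF P A l).1| ≤ 1 ∧ |f.2 - (inF P A l).2| ≤ 1 := by
        refine near_cor hf ?_
        rw [vert_succ]
        exact isCor_in_rg _
      unfold sqF at h7 ⊢
      simp only [Set.mem_ofPred_eq, abs_le] at *
      omega
  have h7 : inF P A t = ahead B := by
    unfold inF
    rw [N.tgt]
  rw [h7] at h6
  refine ChI.symm ⟨(N.bd 0).1, ?_⟩ h6
  exact sqF_le_of (by omega) (hall 0 (Nat.zero_le t))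

/-- The tip is near the target: second case. -/
theorem nearL (h : ∀ i, j₂ < i → i ≤ mP → outF P A i ∈ ptK U κ (outF P A 0)) :
    ChI (P ∩ sqF (s₀ + d + 3) (ahead B)) (ahead B) (ahead A) := by
  have hd := N.app.d_pos
  have h3 := N.jt
  have h4 := N.tj
  have h5 := N.j1
  have h5' := N.jm
  have hall : ∀ i, t ≤ i → i ≤ mP → inF P A i ∈ sqF (s₀ + d + 2) (ahead B) := by
    intro i hi hi'
    rcases Nat.lt_or_ge j₂ i with h6 | h6
    · have h7 := N.block (i := j₂ + 1) (by omega) (by omega)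
      have h8 := N.near_of (i := i) (j := j₂ + 1) ((ptK_le (h i h6 hi')).2.2.trans
        (ptK_le (h (j₂ + 1) (by omega) (by omega))).2.2.symm)
      unfold sqF at h7 ⊢
      simp only [Set.mem_ofPred_eq, abs_le] at *
      omega
    · exact sqF_le_of (by omega) (N.nrB i (by omega) h6)
  have h6 := chI_inF (P := P) (Q := sqF (s₀ + d + 3) (ahead B)) N.cyc.bd (show t ≤ mP by omega)
    fun l hl hl' f hf => by
      have h7 := hall l hl hl'.le
      have h8 : |f.1 - (inF P A l).1| ≤ 1 ∧ |f.2 - (inF P A l).2| ≤ 1 := by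
        refine near_cor hf ?_
        rw [vert_succ]
        exact isCor_in_rg _
      unfold sqF at h7 ⊢
      simp only [Set.mem_ofPred_eq, abs_le] at *
      omega
  have h7 : inF P A t = ahead B := by
    unfold inF
    rw [N.tgt]
  rw [h7, N.inF_mP] at h6
  exact h6

theorem h00 : outF P A 0 ∈ ptK U κ (outF P A 0) := ptK_self (N.hEU N.hA)

/-- The first anchor is in the part of `E`: so are all sides before it. -/
theorem allR (h1 : outF P A (j₁ - 1) ∈ ptK U κ (outF P A 0)) :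
    ∀ i < j₁, outF P A i ∈ ptK U κ (outF P A 0) := by
  have h3 := N.jt
  have h4 := N.tj
  have h5 := N.j1
  have h6 := N.jm
  intro i hi
  rcases Nat.eq_zero_or_pos i with rfl | hi0
  · exact N.h00
  rcases Nat.lt_or_ge i (j₁ - 1) with h7 | h7
  · rcases N.chord (l := j₂ + 1) hi0 h7 (by omega) (Or.inr (by omega)) h6 h1 with h8 | h8
    · exact h8
    · exact absurd ((ptK_le h1).2.2.trans (ptK_le h8).2.2.symm) N.sep
  · rw [show i = j₁ - 1 by omega]
    exact h1

/-- The second anchor is in the part of `E`: so are all sides behind it. -/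
theorem allL (h1 : outF P A (j₁ - 1) ∉ ptK U κ (outF P A 0))
    (h2 : outF P A (j₂ + 1) ∈ ptK U κ (outF P A 0)) :
    ∀ i, j₂ < i → i ≤ mP → outF P A i ∈ ptK U κ (outF P A 0) := by
  have h3 := N.jt
  have h4 := N.tj
  have h5 := N.j1
  have h6 := N.jm
  intro i hi hi'
  rcases Nat.lt_or_ge i mP with h7 | h7
  · rcases Nat.lt_or_ge (j₂ + 1) i with h8 | h8
    · rcases N.chord (k := j₁ - 1) (l := i) (by omega) (by omega) h6 (Or.inr h8) h7 h2 with h9 | h9
      · exact absurd h9 h1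
      · exact h9
    · rw [show i = j₂ + 1 by omega]
      exact h2
  · rw [show i = mP by omega, N.outF_mP]
    exact N.h00

/-- **The arcs.** The two anchors are not in the part of `E`: then the sides with outer face in the part
of `E` are the arc `e₂, …, mP = 0, …, e₁`. -/
theorem arcs (h1 : outF P A (j₁ - 1) ∉ ptK U κ (outF P A 0))
    (h2 : outF P A (j₂ + 1) ∉ ptK U κ (outF P A 0)) :
    ∃ e₁ e₂, e₁ + 1 < j₁ ∧ j₂ + 1 < e₂ ∧ e₂ ≤ mP ∧
      (∀ i, i ≤ e₁ ∨ (e₂ ≤ i ∧ i ≤ mP) → outF P A i ∈ ptK U κ (outF P A 0)) ∧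
      ∀ i, e₁ < i → i < e₂ → outF P A i ∉ ptK U κ (outF P A 0) := by
  classical
  have h3 := N.jt
  have h4 := N.tj
  have h5 := N.j1
  have h6 := N.jm
  have h00 := N.h00
  -- the first arc
  have hb1 : (Finset.filter (fun i => outF P A i ∈ ptK U κ (outF P A 0)) (range (j₁ - 1))).Nonempty :=
    ⟨0, Finset.mem_filter.2 ⟨Finset.mem_range.2 (by omega), h00⟩⟩
  obtain ⟨e₁, he, hmax⟩ : ∃ e₁ ∈ Finset.filter (fun i => outF P A i ∈ ptK U κ (outF P A 0))
      (range (j₁ - 1)), ∀ i ∈ Finset.filter (fun i => outF P A i ∈ ptK U κ (outF P A 0))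
      (range (j₁ - 1)), i ≤ e₁ := Finset.exists_max_image _ id hb1
  rw [Finset.mem_filter, Finset.mem_range] at he
  -- the second arc
  have hex : ∃ i, j₂ + 1 < i ∧ (i = mP ∨ outF P A i ∈ ptK U κ (outF P A 0)) := ⟨mP, h6, Or.inl rfl⟩
  obtain ⟨e₂, he2⟩ : ∃ e₂, e₂ = Nat.find hex := ⟨_, rfl⟩
  obtain ⟨g1, g2⟩ := Nat.find_spec hex
  have g3 : e₂ ≤ mP := he2 ▸ Nat.find_min' hex ⟨h6, Or.inl rfl⟩
  rw [← he2] at g1 g2
  have g4 : ∀ i, j₂ + 1 < i → i < e₂ → outF P A i ∉ ptK U κ (outF P A 0) := fun i hi hi' hh => by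
    rw [he2] at hi'
    exact Nat.find_min hex hi' ⟨hi, Or.inr hh⟩
  refine ⟨e₁, e₂, by omega, g1, g3, ?_, ?_⟩
  · rintro i (hi | ⟨hi, hi'⟩)
    · rcases Nat.eq_zero_or_pos i with rfl | hi0
      · exact h00
      rcases Nat.lt_or_ge i e₁ with h7 | h7
      · rcases N.chord (l := j₁ - 1) hi0 h7 (by omega) (Or.inr (by omega)) (by omega) he.2 with h8 | h8
        · exact h8
        · exact absurd h8 h1
      · rw [show i = e₁ by omega]
        exact he.2
    · rcases Nat.lt_or_ge i mP with h7 | h7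
      · rcases g2 with g2 | g2
        · omega
        rcases Nat.lt_or_ge e₂ i with h8 | h8
        · rcases N.chord (k := j₁ - 1) (l := i) (by omega) (by omega) (show e₂ < mP by omega)
            (Or.inr h8) h7 g2 with h9 | h9
          · exact absurd h9 h1
          · exact h9
        · rw [show i = e₂ by omega]
          exact g2
      · rw [show i = mP by omega, N.outF_mP]
        exact h00
  · intro i hi hi' hh
    rcases Nat.lt_or_ge i (j₁ - 1) with h7 | h7
    · have := hmax i (Finset.mem_filter.2 ⟨Finset.mem_range.2 h7, hh⟩)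
      omega
    rcases Nat.eq_or_lt_of_le h7 with h8 | h8
    · rw [← h8] at hh
      exact h1 hh
    rcases Nat.lt_or_ge (j₂ + 1) i with h9 | h9
    · exact g4 i h9 hi' hh
    rcases Nat.eq_or_lt_of_le h9 with h10 | h10
    · rw [h10] at hh
      exact h2 hh
    -- inside of the block
    rcases N.chord (i := 0) (j := i) (k := j₁ - 1) (l := j₂ + 1) (by omega) h8 (by omega)
      (Or.inr (by omega)) h6 hh with h11 | h11
    · exact h1 h11
    · exact h2 h11

/-- **The alternative.** Either the tip is near the target, or the two anchors are not in the part of `E`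
and the sides with outer face in the part of `E` are the arc `e₂, …, mP = 0, …, e₁`. -/
theorem alt : ChI (P ∩ sqF (s₀ + d + 3) (ahead B)) (ahead B) (ahead A) ∨
    (outF P A (j₁ - 1) ∉ ptK U κ (outF P A 0) ∧ outF P A (j₂ + 1) ∉ ptK U κ (outF P A 0) ∧
      ∃ e₁ e₂, e₁ + 1 < j₁ ∧ j₂ + 1 < e₂ ∧ e₂ ≤ mP ∧
        (∀ i, i ≤ e₁ ∨ (e₂ ≤ i ∧ i ≤ mP) → outF P A i ∈ ptK U κ (outF P A 0)) ∧
        ∀ i, e₁ < i → i < e₂ → outF P A i ∉ ptK U κ (outF P A 0)) := by
  by_cases h1 : outF P A (j₁ - 1) ∈ ptK U κ (outF P A 0)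
  · exact Or.inl (N.nearR (N.allR h1))
  by_cases h2 : outF P A (j₂ + 1) ∈ ptK U κ (outF P A 0)
  · exact Or.inl (N.nearL (N.allL h1 h2))
  · exact Or.inr ⟨h1, h2, N.arcs h1 h2⟩

/-- A side with outer face in the part of `E` is linked to the true tip side at `E`. -/
theorem link_tip (hτ : ahead τ ∈ E) {i : ℕ} (hi : outF P A i ∈ ptK U κ (outF P A 0)) :
    LinkK U κ (side P A i) (side U τ 0) :=
  Or.inr ⟨(ptK_le hi).2.1, (ptK_trans (ptK_symm hi) (N.E_ptK hτ)).2⟩

/-- The label of the left anchor. -/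
theorem anchorL {kt v : ℕ} (hτ : ahead τ ∈ E) (h2 : outF P A (j₂ + 1) ∉ ptK U κ (outF P A 0))
    (hv : v = 0 ∨ kt ≤ v) (hl : LinkK U κ (side P A (j₂ + 1)) (side U τ v)) : kt ≤ v := by
  rcases hv with rfl | h
  · exfalso
    rcases hl with h | ⟨h, h'⟩
    · have h7 : ahead τ ∈ P := by
        have h8 := (N.bd (j₂ + 1)).1
        rw [h] at h8
        exact h8
      exact N.hEP _ hτ h7
    · exact h2 (ptK_meet (N.E_ptK hτ) ⟨h, h'⟩)
  · exact h

/-- **The labels of the new state**: the true tip is at the entered set and the anchors have labels and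
are not in the part of the entered set. -/
theorem labs' {kt : ℕ} (k0 : 0 < kt) (hτ : ahead τ ∈ E)
    (aR : ∃ v < kt, LinkK U κ (side P A (j₁ - 1)) (side U τ v))
    (aL : ∃ v < mU, (v = 0 ∨ kt ≤ v) ∧ LinkK U κ (side P A (j₂ + 1)) (side U τ v))
    (h1 : outF P A (j₁ - 1) ∉ ptK U κ (outF P A 0))
    (h2 : outF P A (j₂ + 1) ∉ ptK U κ (outF P A 0)) :
    ∃ i₂, LabP U P κ A τ B (d + 1) s₀ mP mU kt 0 j₁ t j₂ i₂ := by
  obtain ⟨e₁, e₂, f1, f2, f3, f4, f5⟩ := N.arcs h1 h2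
  have hd := N.app.d_pos
  have h3 := N.jt
  have h4 := N.tj
  have h5 := N.j1
  have h6 := N.jm
  have hτ0 : ahead τ ∈ ptK U κ (outF P A 0) := N.E_ptK hτ
  -- links to the tip
  have htip : ∀ i, outF P A i ∈ ptK U κ (outF P A 0) → LinkK U κ (side P A i) (side U τ 0) :=
    fun i hi => N.link_tip hτ hi
  obtain ⟨vR, hvR, lR⟩ := aR
  obtain ⟨vL, hvL, hvL', lL⟩ := aL
  have hvL'' : kt ≤ vL := N.anchorL hτ h2 hvL' lL
  have l0 : LinkK U κ (side P A 0) (side U τ 0) := htip 0 (ptK_self (N.hEU N.hA))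
  have h01 : outF P A (j₁ - 1) ∉ ptK U κ (outF P A (j₂ + 1)) := fun h => N.sep (ptK_le h).2.2
  have h02 : outF P A (j₂ + 1) ∉ ptK U κ (outF P A (j₁ - 1)) := fun h => N.sep (ptK_le h).2.2.symm
  refine ⟨e₂, N.cyc, by omega, h3, h4, f2, f3, N.tgt, ?_, ?_, ?_, N.nrB⟩
  · intro i hi hi'
    rcases Nat.lt_or_ge i (j₁ - 1) with h7 | h7
    · by_cases c1 : outF P A i ∈ ptK U κ (outF P A 0)
      · exact ⟨0, k0, htip i c1⟩
      by_cases c2 : outF P A i ∈ ptK U κ (outF P A (j₁ - 1))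
      · exact ⟨vR, hvR, linkK_part (N.bdU vR) lR c2⟩
      by_cases c3 : outF P A i ∈ ptK U κ (outF P A (j₂ + 1))
      · exfalso
        rcases N.chord (i := i) (j := j₂ + 1) (k := j₁ - 1) (l := 0) h7 (by omega) h6 (Or.inl hi)
          (by omega) (ptK_symm c3) with c4 | c4
        · exact h01 (ptK_trans c3 c4)
        · exact c1 (ptK_symm c4)
      obtain ⟨v, hv, hl⟩ := N.exists_link i
      have h8 := N.cyc3 hi h7 (by omega) c1 h1 (fun h => c2 (ptK_symm h)) (by omega) hv (by omega)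
        l0 hl lR
      exact ⟨v, by omega, hl⟩
    · rw [show i = j₁ - 1 by omega]
      exact ⟨vR, hvR, lR⟩
  · intro i hi hi'
    rcases Nat.lt_or_ge (j₂ + 1) i with h7 | h7
    · have c1 : outF P A i ∉ ptK U κ (outF P A 0) := f5 i (by omega) hi'
      by_cases c2 : outF P A i ∈ ptK U κ (outF P A (j₂ + 1))
      · exact ⟨vL, hvL'', hvL, linkK_part (N.bdU vL) lL c2⟩
      by_cases c3 : outF P A i ∈ ptK U κ (outF P A (j₁ - 1))
      · exfalso
        rcases N.chord (i := j₁ - 1) (j := i) (k := j₂ + 1) (l := 0) (by omega) h7 (by omega)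
          (Or.inl (by omega)) (by omega) c3 with c4 | c4
        · exact h02 c4
        · exact h1 (ptK_symm c4)
      obtain ⟨v, hv, hl⟩ := N.exists_link i
      have h8 := N.cyc3 (i₁ := 0) (by omega) h7 (by omega) h2 c1 c2 (by omega) hvL hv l0 lL hl
      exact ⟨v, by omega, hv, hl⟩
    · rw [show i = j₂ + 1 by omega]
      exact ⟨vL, hvL'', hvL, lL⟩
  · rintro i (hi | hi)
    · rw [show i = 0 by omega]
      exact N.near_tip (ptK_self (N.hEU N.hA))
    · exact N.near_tip (f4 i (Or.inr hi))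

/-- **The labels of the new state**: the true tip is at the entered set and the anchors have labels. -/
theorem labs {kt : ℕ} (k0 : 0 < kt) (hτ : ahead τ ∈ E)
    (aR : ∃ v < kt, LinkK U κ (side P A (j₁ - 1)) (side U τ v))
    (aL : ∃ v < mU, (v = 0 ∨ kt ≤ v) ∧ LinkK U κ (side P A (j₂ + 1)) (side U τ v)) :
    ChI (P ∩ sqF (s₀ + d + 3) (ahead B)) (ahead B) (ahead A) ∨
      ∃ i₂, LabP U P κ A τ B (d + 1) s₀ mP mU kt 0 j₁ t j₂ i₂ := by
  rcases N.alt with h0 | ⟨h1, h2, -⟩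
  · exact Or.inl h0
  · exact Or.inr (N.labs' k0 hτ aR aL h1 h2)

end NewS

end Pool.Agent.SixB.Top
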