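import Pool.Agent.Lib.SixB.S8Exit

/-!
# Step 8: the two sides of a strand and the colours of the visited faces

`Φ` is the potential of the strand `MM ω F e` in the region `F`, `e` joins `u` and `v`.

* `pot_free`: `Φ` is constant on the corners of a face which is not visited; `pot_chn`: also along a chain of such
  faces;
* `pot_bond`: if the bond of a visited face has the colour of `u` then `Φ = Φ u` at its ends; `pot_uncut`: and at both
  ends of every side of the face which does not belong to the strand;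
* `pot_ctr_le`, `pot_ctr_gt`: `Φ` on the contour, `e` = the edge `0`, exit edge `x`;
* `lab_free`: the side of an unvisited face next to a visited face is given by the colour of the visited face;
  `lab_chn`, `lab_ctr`: the same along chains and for the sides of the contour.
-/

set_option autoImplicit false

namespace Pool.Agent.SixB.LabP

open Finset Pool.Agent.Perc Pool.Agent.Perc6

variable {F S : Set (ℤ × ℤ)} {Φ : ℤ × ℤ → ZMod 2} {ω : Cfg} {e a : UE} {u v p q f g : ℤ × ℤ}
  {m x i : ℕ} {w : ℕ → ℤ × ℤ}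

/-- a side of a face which is not visited does not belong to the strand -/
theorem notMem_of_free (hf : f ∈ F) (hv : f ∉ SS ω F e) (ha : IsSide f a) : a ∉ MM ω F e :=
  fun h => hv ⟨hf, a, h, ha⟩

theorem pot_side (hP : IsPot F (MM ω F e) Φ) (hf : f ∈ F) (ha : IsSide f a) (hn : a ∉ MM ω F e) :
    Φ (ua a) = Φ (ub a) := by
  by_contra h
  exact hn ((hP f hf a ha).2 h)

/-- the corners of a face -/
theorem cor_cases (h : IsCor f p) :
    p = (f.1, f.2) ∨ p = (f.1 + 1, f.2) ∨ p = (f.1, f.2 + 1) ∨ p = (f.1 + 1, f.2 + 1) := by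
  obtain ⟨p1, p2⟩ := p
  unfold IsCor at h
  simp only [Prod.mk.injEq]
  omega

/-- **the potential is constant on an unvisited face** -/
theorem pot_free (hP : IsPot F (MM ω F e) Φ) (hf : f ∈ F) (hv : f ∉ SS ω F e) (hp : IsCor f p)
    (hq : IsCor f q) : Φ p = Φ q := by
  obtain ⟨f1, f2⟩ := f
  have key : ∀ a, IsSide (f1, f2) a → Φ (ua a) = Φ (ub a) := fun a ha =>
    pot_side hP hf ha (notMem_of_free hf hv ha)
  have h1 : Φ (f1, f2) = Φ (f1 + 1, f2) := key (bo (f1, f2)) (Or.inl rfl)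
  have h2 : Φ (f1, f2) = Φ (f1, f2 + 1) := key (le' (f1, f2)) (Or.inr (Or.inl rfl))
  have h3 : Φ (f1, f2 + 1) = Φ (f1 + 1, f2 + 1) := key (to' (f1, f2)) (Or.inr (Or.inr (Or.inl rfl)))
  have h4 : ∀ r, IsCor (f1, f2) r → Φ r = Φ (f1, f2) := by
    intro r hr
    rcases cor_cases hr with rfl | rfl | rfl | rfl
    · rfl
    · exact h1.symm
    · exact h2.symm
    · exact (h2.trans h3).symm
  rw [h4 p hp, h4 q hq]

/-- a chain of unvisited faces -/
theorem pot_chn (hP : IsPot F (MM ω F e) Φ) (hS : ∀ f ∈ S, f ∈ F ∧ f ∉ SS ω F e) (h : Chn S f g)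
    (hp : IsCor f p) (hq : IsCor g q) : Φ p = Φ q := by
  obtain ⟨hfS, h⟩ := h
  have key : ∀ p q, IsCor f p → IsCor g q → Φ p = Φ q := by
    clear hp hq
    induction h with
    | refl => exact fun p q hp hq => pot_free hP (hS f hfS).1 (hS f hfS).2 hp hq
    | @tail b c hb hbc ih =>
      intro p q hp hq
      obtain ⟨hadj, hc⟩ := hbc
      -- a common corner
      obtain ⟨r, hr1, hr2⟩ : ∃ r, IsCor b r ∧ IsCor c r := by
        obtain ⟨b1, b2⟩ := b
        obtain ⟨c1, c2⟩ := c
        unfold Adj at hadj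
        refine ⟨(max b1 c1, max b2 c2), ?_, ?_⟩ <;> unfold IsCor <;> simp only at hadj ⊢ <;> omega
      rw [ih p r hp hr1]
      exact pot_free hP (hS c hc).1 (hS c hc).2 hr2 hq
  exact key p q hp hq

/-- the ends of a bond of a visited face -/
theorem pot_bond (hP : IsPot F (MM ω F e) Φ) (he : Joins e u v) (hs : ∃ f ∈ F, IsSide f e)
    (hf : f ∈ SS ω F e) (hb : Bond ω {f} p q) (hp : par p = par u) : Φ p = Φ u :=
  (hP.ss_bond he hs hf hb hp).1

/-- every corner of the colour of the face is an end of the bond -/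
theorem exists_bond {c : ℤ} (hc : Solid c ω {f}) (hp : IsCor f p) (hpc : par p = c) :
    ∃ s, Bond ω {f} p s := by
  obtain ⟨f1, f2⟩ := f
  cases hω : ω (f1, f2) with
  | true =>
    have hb1 : Bond ω {(f1, f2)} (f1, f2) (f1 + 1, f2 + 1) :=
      ⟨f1, f2, rfl, Or.inl ⟨hω, Or.inl ⟨rfl, rfl⟩⟩⟩
    have hpar := hc _ rfl _ _ hb1
    rcases cor_cases hp with rfl | rfl | rfl | rfl
    · exact ⟨_, hb1⟩
    · exfalso
      unfold par at hpar hpc
      simp only at hpar hpc
      omega
    · exfalso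
      unfold par at hpar hpc
      simp only at hpar hpc
      omega
    · exact ⟨_, ⟨f1, f2, rfl, Or.inl ⟨hω, Or.inr ⟨rfl, rfl⟩⟩⟩⟩
  | false =>
    have hb1 : Bond ω {(f1, f2)} (f1 + 1, f2) (f1, f2 + 1) :=
      ⟨f1, f2, rfl, Or.inr ⟨hω, Or.inr ⟨rfl, rfl⟩⟩⟩
    have hpar := hc _ rfl _ _ hb1
    rcases cor_cases hp with rfl | rfl | rfl | rfl
    · exfalso
      unfold par at hpar hpc
      simp only at hpar hpc
      omega
    · exact ⟨_, hb1⟩
    · exact ⟨_, ⟨f1, f2, rfl, Or.inr ⟨hω, Or.inl ⟨rfl, rfl⟩⟩⟩⟩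
    · exfalso
      unfold par at hpar hpc
      simp only at hpar hpc
      omega

/-- every face has a colour -/
theorem exists_solid (ω : Cfg) (f : ℤ × ℤ) : Solid 0 ω {f} ∨ Solid 1 ω {f} := by
  obtain ⟨f1, f2⟩ := f
  have key : ∀ c : ℤ, (∀ p q, Bond ω {(f1, f2)} p q → par p = c) → Solid c ω {(f1, f2)} := by
    intro c h g hg
    rw [Set.mem_singleton_iff] at hg
    rw [hg]
    exact h
  have hb : ∀ p q, Bond ω {(f1, f2)} p q → (ω (f1, f2) = true ∧ par p = par (f1, f2)) ∨
      (ω (f1, f2) = false ∧ par p = par (f1 + 1, f2)) := by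
    rintro p q ⟨x, y, hxy, h⟩
    rw [Set.mem_singleton_iff, Prod.mk.injEq] at hxy
    obtain ⟨rfl, rfl⟩ := hxy
    rcases h with ⟨h1, ⟨rfl, -⟩ | ⟨rfl, -⟩⟩ | ⟨h1, ⟨rfl, -⟩ | ⟨rfl, -⟩⟩
    · exact Or.inl ⟨h1, rfl⟩
    · refine Or.inl ⟨h1, ?_⟩
      unfold par
      simp only
      omega
    · refine Or.inr ⟨h1, ?_⟩
      unfold par
      simp only
      omega
    · exact Or.inr ⟨h1, rfl⟩
  cases hω : ω (f1, f2) with
  | true =>
    rcases par_cases (f1, f2) with h | h
    · exact Or.inl (key 0 fun p q hpq => by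
        rcases hb p q hpq with ⟨-, h2⟩ | ⟨h1, -⟩
        · rw [h2, h]
        · rw [hω] at h1; exact absurd h1 (by simp))
    · exact Or.inr (key 1 fun p q hpq => by
        rcases hb p q hpq with ⟨-, h2⟩ | ⟨h1, -⟩
        · rw [h2, h]
        · rw [hω] at h1; exact absurd h1 (by simp))
  | false =>
    rcases par_cases (f1 + 1, f2) with h | h
    · exact Or.inl (key 0 fun p q hpq => by
        rcases hb p q hpq with ⟨h1, -⟩ | ⟨-, h2⟩
        · rw [hω] at h1; exact absurd h1 (by simp)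
        · rw [h2, h])
    · exact Or.inr (key 1 fun p q hpq => by
        rcases hb p q hpq with ⟨h1, -⟩ | ⟨-, h2⟩
        · rw [hω] at h1; exact absurd h1 (by simp)
        · rw [h2, h])

/-- **a visited face**: the corners of its colour are on the side of this colour -/
theorem pot_cor (hP : IsPot F (MM ω F e) Φ) (he : Joins e u v) (hs : ∃ f ∈ F, IsSide f e)
    (hf : f ∈ SS ω F e) (hc : Solid (par u) ω {f}) (hp : IsCor f p) (hpc : par p = par u) :
    Φ p = Φ u := by
  obtain ⟨s, hb⟩ := exists_bond hc hp hpc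
  exact pot_bond hP he hs hf hb hpc

/-- a side of a visited face which is not crossed -/
theorem pot_uncut (hP : IsPot F (MM ω F e) Φ) (he : Joins e u v) (hs : ∃ f ∈ F, IsSide f e)
    (hf : f ∈ SS ω F e) (hc : Solid (par u) ω {f}) (ha : IsSide f a) (hn : a ∉ MM ω F e) :
    Φ (ua a) = Φ u ∧ Φ (ub a) = Φ u := by
  have h1 := pot_side hP hf.1 ha hn
  have hj : Joins a (ua a) (ub a) := Or.inl ⟨rfl, rfl⟩
  have h2 := hj.par_ne
  have h3 := par_cases (ua a)
  have h4 := par_cases (ub a)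
  have h5 := par_cases u
  by_cases h6 : par (ua a) = par u
  · have := pot_cor hP he hs hf hc (ha.cor_left hj) h6
    exact ⟨this, h1 ▸ this⟩
  · have h7 : par (ub a) = par u := by omega
    have := pot_cor hP he hs hf hc (ha.cor_left hj.symm) h7
    exact ⟨h1 ▸ this, this⟩

/-- **an unvisited face next to a visited face** is on the side of the colour of the visited face -/
theorem lab_free (hP : IsPot F (MM ω F e) Φ) (he : Joins e u v) (hs : ∃ f ∈ F, IsSide f e)
    (hf : f ∈ SS ω F e) (hc : Solid (par u) ω {f}) (ha : IsSide f a) (hg : g ∈ F)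
    (hgv : g ∉ SS ω F e) (hga : IsSide g a) (hp : IsCor g p) : Φ p = Φ u := by
  have h1 := (pot_uncut hP he hs hf hc ha (notMem_of_free hg hgv hga)).1
  rw [← h1]
  exact pot_free hP hg hgv hp (hga.cor_left (Or.inl ⟨rfl, rfl⟩ : Joins a (ua a) (ub a)))

/-- the same along a chain of unvisited faces -/
theorem lab_chn (hP : IsPot F (MM ω F e) Φ) (he : Joins e u v) (hs : ∃ f ∈ F, IsSide f e)
    (hf : f ∈ SS ω F e) (hc : Solid (par u) ω {f}) (ha : IsSide f a)
    (hS : ∀ f ∈ S, f ∈ F ∧ f ∉ SS ω F e) {k : ℤ × ℤ} (hgk : Chn S g k) (hga : IsSide g a)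
    (hp : IsCor k p) : Φ p = Φ u := by
  obtain ⟨h1, h2⟩ := hS g hgk.1
  have hcor : IsCor g (ua a) := hga.cor_left (Or.inl ⟨rfl, rfl⟩ : Joins a (ua a) (ub a))
  rw [← pot_chn hP hS hgk hcor hp]
  exact lab_free hP he hs hf hc ha h1 h2 hga hcor

/-! ### The contour -/

/-- **the potential on the contour** -/
theorem pot_ctr (h : Ctr F m w) (hP : IsPot F (MM ω F e) Φ) (he : Joins e (w 0) (w 1))
    (hx : IsExit F m w ω x) :
    (∀ i, 1 ≤ i → i ≤ x → Φ (w i) = Φ (w 1)) ∧ (∀ i, x < i → i ≤ m → Φ (w i) = Φ (w 0)) := by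
  have hm : 0 < m := lt_of_le_of_lt (Nat.zero_le _) hx.lt
  obtain ⟨e0, he0, hj0⟩ := h.step 0 hm
  have e1 : e0 = e := Joins.uniq hj0 he
  subst e1
  obtain ⟨ex, hex, hjx⟩ := h.step x hx.lt
  have hne : ex ≠ e0 := by
    rintro rfl
    have := h.inj x hx.lt 0 hm _ hjx hj0
    have := hx.pos
    omega
  have hexm := hx.mem e0 hj0 ex hjx
  -- an edge of the contour which is not `0`, not `x`
  have key : ∀ i < m, i ≠ 0 → i ≠ x → Φ (w i) = Φ (w (i + 1)) := by
    intro i hi hi0 hix
    obtain ⟨e', he', hj'⟩ := h.step i hi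
    have hn : e' ∉ MM ω F e0 := by
      intro hmem
      have n1 : e' ≠ e0 := by
        rintro rfl
        exact hi0 (h.inj i hi 0 hm _ hj' hj0)
      have := bdU_unique he0 hmem hexm he' hex n1 hne
      subst this
      exact hix (h.inj i hi x hx.lt _ hj' hjx)
    obtain ⟨⟨f, hf, hs⟩, -⟩ := he'
    by_contra hcon
    exact hn ((hP.joins hf hs hj').2 hcon)
  constructor
  · intro i h1 h2
    induction i, h1 using Nat.le_induction with
    | base => rfl
    | succ i hi ih =>
      rw [← key i (by have := hx.lt; omega) (by omega) (by omega)]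
      exact ih (by omega)
  · intro i h1 h2
    have h3 : ∀ j, j ≤ m - i → Φ (w (m - j)) = Φ (w 0) := by
      intro j
      induction j with
      | zero => intro _; rw [Nat.sub_zero, h.close]
      | succ j ih =>
        intro hj
        rw [← ih (by omega), key (m - (j + 1)) (by omega) (by omega) (by omega)]
        congr 2
        omega
    have := h3 (m - i) le_rfl
    rwa [show m - (m - i) = i by omega] at this

/-- the two sides are different -/
theorem pot_two (h : Ctr F m w) (hP : IsPot F (MM ω F e) Φ) (he : Joins e (w 0) (w 1)) (hm : 0 < m) :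
    Φ (w 0) ≠ Φ (w 1) := by
  obtain ⟨e0, ⟨⟨f, hf, hs⟩, -⟩, hj0⟩ := h.step 0 hm
  have e1 : e0 = e := Joins.uniq hj0 he
  subst e1
  exact (hP.joins hf hs hj0).1 mem_MM_self

/-- **Colours and the contour.** An unvisited chain of faces from the visited face `f` of colour `c` to the side `i` of
the contour: if `c` is the colour of `w 1` then `i < x`, if `c` is the colour of `w 0` then `x < i`. -/
theorem lab_ctr (h : Ctr F m w) (hP : IsPot F (MM ω F e) Φ) (he : Joins e (w 0) (w 1))
    (hx : IsExit F m w ω x) (hf : f ∈ SS ω F e) {c : ℤ} (hc : Solid c ω {f}) (ha : IsSide f a)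
    (hS : ∀ f ∈ S, f ∈ F ∧ f ∉ SS ω F e) {k : ℤ × ℤ} (hgk : Chn S g k) (hga : IsSide g a)
    (hi : i < m) (hi0 : i ≠ 0) {b : UE} (hkb : IsSide k b) (hb : Joins b (w i) (w (i + 1))) :
    (c = par (w 1) → i < x) ∧ (c = par (w 0) → x < i) := by
  have hm : 0 < m := by omega
  obtain ⟨e0, ⟨⟨f0, hf0, hs0⟩, -⟩, hj0⟩ := h.step 0 hm
  have e1 : e0 = e := Joins.uniq hj0 he
  subst e1
  obtain ⟨h1, h2⟩ := pot_ctr h hP he hx
  have hne := pot_two h hP he hm
  have hcor : IsCor k (w i) := hkb.cor_left hb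
  have hcor' : IsCor k (w (i + 1)) := hkb.cor_left hb.symm
  constructor
  · rintro rfl
    by_contra hlt
    have h3 := lab_chn hP he.symm ⟨f0, hf0, hs0⟩ hf hc ha hS hgk hga hcor'
    rw [h2 (i + 1) (by omega) (by omega)] at h3
    exact hne h3
  · rintro rfl
    by_contra hlt
    have h3 := lab_chn hP he ⟨f0, hf0, hs0⟩ hf hc ha hS hgk hga hcor
    rw [h1 i (by omega) (by omega)] at h3
    exact hne h3.symm

/-- a visited face with the side `i ≠ 0, x` of the contour -/
theorem lab_bd (h : Ctr F m w) (hP : IsPot F (MM ω F e) Φ) (he : Joins e (w 0) (w 1))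
    (hx : IsExit F m w ω x) (hf : f ∈ SS ω F e) {c : ℤ} (hc : Solid c ω {f}) (hi : i < m)
    (hi0 : i ≠ 0) (hix : i ≠ x) {b : UE} (hkb : IsSide f b) (hb : Joins b (w i) (w (i + 1))) :
    (c = par (w 1) → i < x) ∧ (c = par (w 0) → x < i) := by
  have hm : 0 < m := by omega
  obtain ⟨e0, he0, hj0⟩ := h.step 0 hm
  have hs0 := he0.1
  have e1 : e0 = e := Joins.uniq hj0 he
  subst e1
  obtain ⟨ex, hex, hjx⟩ := h.step x hx.lt
  obtain ⟨h1, h2⟩ := pot_ctr h hP he hx
  have hne := pot_two h hP he hm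
  have hn : b ∉ MM ω F e0 := by
    intro hmem
    obtain ⟨b', hb', hjb⟩ := h.step i hi
    have e2 : b' = b := Joins.uniq hjb hb
    subst e2
    have n1 : b' ≠ e0 := by
      rintro rfl
      exact hi0 (h.inj i hi 0 hm _ hb hj0)
    have n2 : ex ≠ e0 := by
      rintro rfl
      have := h.inj x hx.lt 0 hm _ hjx hj0
      have := hx.pos
      omega
    have := bdU_unique he0 hmem (hx.mem e0 hj0 ex hjx) hb' hex n1 n2
    subst this
    exact hix (h.inj i hi x hx.lt _ hb hjx)
  have hends : ∀ c' : ZMod 2, (Φ (ua b) = c' ∧ Φ (ub b) = c') → Φ (w i) = c' ∧ Φ (w (i + 1)) = c' := by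
    rintro c' ⟨k1, k2⟩
    rcases hb with ⟨e3, e4⟩ | ⟨e3, e4⟩
    · rw [e3, e4]; exact ⟨k1, k2⟩
    · rw [e3, e4]; exact ⟨k2, k1⟩
  constructor
  · rintro rfl
    by_contra hlt
    have h3 := hends _ (pot_uncut hP he.symm hs0 hf hc hkb hn)
    rw [h2 (i + 1) (by omega) (by omega)] at h3
    exact hne h3.2
  · rintro rfl
    by_contra hlt
    have h3 := hends _ (pot_uncut hP he hs0 hf hc hkb hn)
    rw [h1 i (by omega) (by omega)] at h3
    exact hne h3.1.symm

end Pool.Agent.SixB.LabP
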