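import Pool.Agent.Lib.SixB.S8Walls

/-!
# Step 8: the two sides of the true strand in a move

`TipDom` is the data of a move (S8ExitW), `TipOut` adds the exit: the strand leaves `T` at the time `τ` through the
cut side `x`. `N = vs ω a 0 τ` are the visited faces.

* `TipDom.exc_left2`: an excursion which comes back on the left wall joins two consecutive sides `y`, `y + 1` of the left
  wall with `par (w (y + 1)) = c`.
* `TipOut.pair`: every crossed side of the contour except `0` and `x` has a mate.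
* `TipOut.exists_pot`: a potential `Φ` of the whole strand on `T`; `val_right`, `val_left`: `Φ` on the contour;
  `side_right`, `side_left`: at a side which is not crossed; `free`: constant on an unvisited face; `vis_c`, `vis_o`: at
  the corners of the colour of a visited face.
* `TipOut.s1`, `s2`, `s3`: a connected set `A` of unvisited faces of `T` with a side `i`; `s0`: a visited face with an
  uncrossed side `i`.
-/

set_option autoImplicit false

namespace Pool.Agent.SixB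

open Finset Pool.Agent.Perc Pool.Agent.Perc6

variable {ω : Cfg} {c : ℤ} {R U : Set (ℤ × ℤ)} {T : Finset (ℤ × ℤ)} {m : ℕ} {w : ℕ → ℤ × ℤ}
  {k₁ k₃ : ℕ} {a : UE} {τ x : ℕ} {Φ : ℤ × ℤ → ZMod 2}

section Dom

variable (h : TipDom ω c R U T m w k₁ k₃ a)

include h

/-- An excursion which comes back on the left wall is a rotation around a vertex of the colour `c`. -/
theorem TipDom.exc_left2 {s t : ℕ} (hst : s < t) (h0 : fb (pth ω a s) ∈ T)
    (h1 : fa (pth ω a t) ∈ T) (hout : ∀ i, s ≤ i → i < t → fa (pth ω a i) ∉ U)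
    {i₀ i₁ : ℕ} (hi0 : i₀ < m) (hi1 : i₁ < m) (j0 : Joins (pth ω a s) (w i₀) (w (i₀ + 1)))
    (j1 : Joins (pth ω a t) (w i₁) (w (i₁ + 1))) (hl : k₃ ≤ i₁) :
    max i₀ i₁ = min i₀ i₁ + 1 ∧ k₃ ≤ min i₀ i₁ ∧ par (w (max i₀ i₁)) = c := by
  have houtT : ∀ i, s ≤ i → i < t → fa (pth ω a i) ∉ T :=
    fun i h2 h3 h4 => hout i h2 h3 (h.TU (Finset.mem_coe.2 h4))
  have hfbs : ∀ i, s < i → i ≤ t → fb (pth ω a i) ∉ U := by
    intro i hi1 hi2
    have h2 : fb (pth ω a i) = fa (pth ω a (i - 1)) := by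
      rw [← fb_pth_succ, Nat.sub_add_cancel (by omega)]
    rw [h2]
    exact hout _ (by omega) (by omega)
  obtain ⟨Θ, hΘc, hΘ⟩ := exc_pot h.hR h.cT hst h0 h1 houtT
  have hval := h.exc_val hst h0 h1 houtT hΘ hi0 hi1 j0 j1
  have k1 := h.h1
  have k13 := h.h13
  have k3 := h.h3
  -- the side `i₀` is neither the tip nor a cut side
  have hne0 : i₀ ≠ 0 := by
    rintro rfl
    have h2 := Joins.uniq j0 h.tip
    rw [h2] at h0
    exact h.fbU (h.TU (Finset.mem_coe.2 h0))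
  have hncut : i₀ < k₁ ∨ k₃ ≤ i₀ := by
    by_contra hno
    push Not at hno
    exact hout s le_rfl hst (h.cut i₀ hno.1 hno.2 _ _ j0 (isSide_fa _))
  have hne : i₀ ≠ i₁ := by
    rintro rfl
    have h2 := Joins.uniq j0 j1
    exact houtT s le_rfl hst (by rw [h2]; exact h1)
  -- values
  have hlow : ∀ j, j ≤ min i₀ i₁ → Θ (w j) = Θ (w 0) := by
    intro j hj
    refine (const_run (fun i => Θ (w i)) (Nat.zero_le j) fun k _ h3 h4 => ?_).symm
    rcases (hval k (by omega)).1 h4 with h5 | h5 <;> omega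
  have hhigh : ∀ j, min i₀ i₁ < j → j ≤ max i₀ i₁ → Θ (w j) ≠ Θ (w 0) := by
    intro j hj1 hj2
    have e1 : Θ (w (min i₀ i₁ + 1)) = Θ (w j) := by
      refine const_run (fun i => Θ (w i)) (by omega) fun k h3 h4 h5 => ?_
      rcases (hval k (by omega)).1 h5 with h6 | h6 <;> omega
    have e2 := (hval (min i₀ i₁) (by omega)).2 (by omega)
    rw [← e1, ← hlow (min i₀ i₁) le_rfl]
    exact e2.symm
  have e01 : Θ (w 1) = Θ (w 0) := hlow 1 (by omega)
  -- a corner of a face of `U \ T`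
  have hface : ∀ g, g ∈ U → g ∉ T → ∀ p p', IsCor g p → IsCor g p' → Θ p = Θ p' := by
    intro g hgU hgT
    have hs : ∀ y p q, IsSide g y → Joins y p q → Θ p = Θ q := by
      intro y p q hy hj
      by_contra hn
      obtain ⟨i, hi1, hi2, rfl⟩ := (hΘ g (h.UR hgU) y p q hy hj ⟨g, hgT, hy⟩).1 hn
      rcases side_fa_fb hy with h2 | h2
      · rcases Nat.lt_or_ge i t with h3 | h3
        · exact hout i hi1 h3 (by rw [← h2]; exact hgU)
        · have : i = t := by omega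
          subst this
          exact hgT (by rw [h2]; exact h1)
      · rcases Nat.lt_or_ge s i with h3 | h3
        · exact hfbs i h3 hi2 (by rw [← h2]; exact hgU)
        · have : i = s := by omega
          subst this
          exact hgT (by rw [h2]; exact h0)
    obtain ⟨x, y⟩ := g
    have b1 := hs _ _ _ (isSide_bo' _) (joins_bo' x y)
    have b2 := hs _ _ _ (isSide_le' _) (joins_le' x y)
    have b3 := hs _ _ _ (isSide_to' _) (joins_to' x y)
    have hall : ∀ p, IsCor (x, y) p → Θ p = Θ (x, y) := by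
      rintro ⟨p1, p2⟩ hp
      unfold IsCor at hp
      simp only at hp
      rcases hp with ⟨rfl | rfl, rfl | rfl⟩
      · rfl
      · exact b2.symm
      · exact b1.symm
      · rw [← b3, ← b2]
    intro p p' hp hp'
    rw [hall p hp, hall p' hp']
  rcases hncut with hb | hb
  · -- from the right wall to the left wall: around the cut sides
    exfalso
    obtain ⟨i, y, g, g', z, hi1', hi2', hj, hgs, hgT, hch, hz, hconn⟩ := h.q
    have hgU : g ∈ U := h.cut i hi1' hi2' y g hj hgs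
    have hi : Θ (w i) ≠ Θ (w 0) := hhigh i (by omega) (by omega)
    have hgi : IsCor g (w i) := by
      rcases hj with ⟨hj, -⟩ | ⟨hj, -⟩
      · rw [hj]; exact PotB.cor_ua hgs
      · rw [hj]; exact PotB.cor_ub hgs
    have key : g' ∈ U ∧ g' ∉ T ∧ ∀ p, IsCor g' p → Θ p = Θ (w i) := by
      clear hz hconn
      induction hch with
      | refl => exact ⟨hgU, hgT, fun p hp => hface g hgU hgT p _ hp hgi⟩
      | @tail b d _ hs ih =>
        obtain ⟨hbU, hbT, hb'⟩ := ih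
        obtain ⟨⟨-, y', h2, h3⟩, h4⟩ := hs
        rw [Set.mem_compl_iff, not_not] at h4
        have hdT : d ∉ T := fun hh => h4.2 (Finset.mem_coe.2 hh)
        refine ⟨h4.1, hdT, fun p hp => ?_⟩
        rw [hface d h4.1 hdT p (ua y') hp (PotB.cor_ua h3)]
        exact hb' _ (PotB.cor_ua h2)
    have hz0 : Θ z = Θ (w 0) := by
      rcases hconn with h2 | h2
      · rw [← hΘc _ _ h2, e01]
      · exact (hΘc _ _ h2).symm
    exact hi ((key.2.2 z hz).symm.trans hz0)
  · -- both on the left wall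
    have hadj : max i₀ i₁ = min i₀ i₁ + 1 := by
      by_contra hn
      -- the side `min + 1`
      have h2 := hhigh (min i₀ i₁ + 1) (by omega) (by omega)
      have h3 := hhigh (min i₀ i₁ + 2) (by omega) (by omega)
      have p1 := par_ne_succ h.ctr (i := min i₀ i₁ + 1) (by omega)
      have c1 := par_cases (w (min i₀ i₁ + 1))
      have c2 := par_cases (w (min i₀ i₁ + 1 + 1))
      have hcc := h.hc
      by_cases h4 : par (w (min i₀ i₁ + 1)) = c
      · exact h3 (hΘc _ _ (h.wl (min i₀ i₁ + 1) (by omega) (by omega) _ (Or.inr rfl)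
          (by omega))).symm
      · exact h2 (hΘc _ _ (h.wl (min i₀ i₁ + 1) (by omega) (by omega) _ (Or.inl rfl) h4)).symm
    have h2 := hhigh (max i₀ i₁) (by omega) le_rfl
    have hpc : par (w (max i₀ i₁)) = c := by
      by_contra hn
      exact h2 (hΘc _ _ (h.wl (max i₀ i₁) (by omega) (by omega) _ (Or.inl rfl) hn)).symm
    exact ⟨hadj, by omega, hpc⟩

end Dom

/-- A move with its exit: the strand leaves `T` at the time `τ` through the cut side `x`. -/
structure TipOut (ω : Cfg) (c : ℤ) (R U : Set (ℤ × ℤ)) (T : Finset (ℤ × ℤ)) (m : ℕ)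
    (w : ℕ → ℤ × ℤ) (k₁ k₃ : ℕ) (a : UE) (τ x : ℕ) : Prop where
  dom : TipDom ω c R U T m w k₁ k₃ a
  hst : ∀ i < τ, fa (pth ω a i) ∈ T ∨ fa (pth ω a i) ∉ U
  hτ : fb (pth ω a τ) ∈ T
  hx1 : k₁ ≤ x
  hx3 : x < k₃
  hj : Joins (pth ω a τ) (w x) (w (x + 1))

/-- The side `i` of the contour is crossed by the strand. -/
def Crs (ω : Cfg) (w : ℕ → ℤ × ℤ) (a : UE) (τ i : ℕ) : Prop :=
  ∃ j, j ≤ τ ∧ Joins (pth ω a j) (w i) (w (i + 1))

section Out

variable (h : TipOut ω c R U T m w k₁ k₃ a τ x)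

include h

theorem TipOut.lt_m : x < m := lt_of_lt_of_le h.hx3 h.dom.h3

theorem TipOut.one_le : 1 ≤ x := h.dom.h1.trans h.hx1

theorem TipOut.flip : TipOut ω (1 - c) R U T m (flipw m w) (m + 1 - k₃) (m + 1 - k₁) a τ (m - x) := by
  have h1 := h.hx1
  have h2 := h.hx3
  have h3 := h.dom.h3
  have h4 := h.dom.h1
  refine ⟨h.dom.flip, h.hst, h.hτ, by omega, by omega, ?_⟩
  rw [flipw_pos (by omega), flipw_pos (by omega), show m + 1 - (m - x) = x + 1 by omega,
    show m + 1 - (m - x + 1) = x by omega]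
  exact h.hj.symm

theorem TipOut.fa_U : fa (pth ω a τ) ∈ U := h.dom.cut x h.hx1 h.hx3 _ _ h.hj (isSide_fa _)

/-- a unit edge of the contour has not both its faces in `T` -/
theorem TipOut.not_both {e : UE} {i : ℕ} (hi : i < m) (hj : Joins e (w i) (w (i + 1))) :
    (fa e ∈ T ∧ fb e ∉ T) ∨ (fa e ∉ T ∧ fb e ∈ T) := by
  obtain ⟨e', ⟨⟨g, hg, hgs⟩, g', hg', hgs'⟩, hj'⟩ := h.dom.ctr.step i hi
  obtain rfl : e' = e := Joins.uniq hj' hj
  rcases side_fa_fb hgs with h1 | h1 <;> rcases side_fa_fb hgs' with h2 | h2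
  · exact absurd (h1 ▸ hg) (h2 ▸ hg')
  · exact Or.inl ⟨Finset.mem_coe.1 (h1 ▸ hg), fun h3 => (h2 ▸ hg') (Finset.mem_coe.2 h3)⟩
  · exact Or.inr ⟨fun h3 => (h2 ▸ hg') (Finset.mem_coe.2 h3), Finset.mem_coe.1 (h1 ▸ hg)⟩
  · exact absurd (h1 ▸ hg) (h2 ▸ hg')

theorem TipOut.fa_T : fa (pth ω a τ) ∉ T := by
  rcases h.not_both h.lt_m h.hj with h1 | h1
  · exact absurd h.hτ h1.2
  · exact h1.1

theorem TipOut.ne_tip {j : ℕ} (h0 : 0 < j) (hj : j ≤ τ) : pth ω a j ≠ a := by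
  intro he
  have h1 : pth ω a τ = pth ω a (τ - j) := by
    have h2 := pth_add ω a j (τ - j)
    rw [he, Nat.add_sub_cancel' hj] at h2
    exact h2.symm
  rcases h.hst (τ - j) (by omega) with h2 | h2
  · rw [← h1] at h2; exact h.fa_T h2
  · rw [← h1] at h2; exact h2 h.fa_U

/-- an excursion before `τ` -/
theorem TipOut.exc {s t : ℕ} (hst : s < t) (ht : t < τ) (h0 : fb (pth ω a s) ∈ T)
    (h1 : fa (pth ω a t) ∈ T) (hout : ∀ i, s ≤ i → i < t → fa (pth ω a i) ∉ T)
    {i₀ i₁ : ℕ} (hi0 : i₀ < m) (hi1 : i₁ < m) (j0 : Joins (pth ω a s) (w i₀) (w (i₀ + 1)))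
    (j1 : Joins (pth ω a t) (w i₁) (w (i₁ + 1))) :
    max i₀ i₁ = min i₀ i₁ + 1 ∧ ((k₃ ≤ min i₀ i₁ ∧ par (w (max i₀ i₁)) = c) ∨
      (1 ≤ min i₀ i₁ ∧ max i₀ i₁ < k₁ ∧ par (w (max i₀ i₁)) ≠ c)) := by
  have k1 := h.dom.h1
  have k13 := h.dom.h13
  have k3 := h.dom.h3
  have houtU : ∀ i, s ≤ i → i < t → fa (pth ω a i) ∉ U := fun i h2 h3 =>
    (h.hst i (by omega)).resolve_left (hout i h2 h3)
  have hne0 : i₀ ≠ 0 := by
    rintro rfl
    have h2 := Joins.uniq j0 h.dom.tip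
    rw [h2] at h0
    exact h.dom.fbU (h.dom.TU (Finset.mem_coe.2 h0))
  have hne1 : i₁ ≠ 0 := by
    rintro rfl
    exact h.ne_tip (by omega) ht.le (Joins.uniq j1 h.dom.tip)
  have hcut : ¬ (k₁ ≤ i₁ ∧ i₁ < k₃) := by
    rintro ⟨h2, h3⟩
    have h4 := h.dom.cut i₁ h2 h3 _ _ j1 (isSide_fb _)
    have h5 : fb (pth ω a t) = fa (pth ω a (t - 1)) := by
      rw [← fb_pth_succ, Nat.sub_add_cancel (by omega)]
    rw [h5] at h4
    exact houtU (t - 1) (by omega) (by omega) h4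
  by_cases hl : k₃ ≤ i₁
  · obtain ⟨e1, e2, e3⟩ := h.dom.exc_left2 hst h0 h1 houtU hi0 hi1 j0 j1 hl
    exact ⟨e1, Or.inl ⟨e2, e3⟩⟩
  · have h2 : i₁ < k₁ := by
      by_contra hno
      exact hcut ⟨by omega, by omega⟩
    obtain ⟨e1, e2, e3⟩ := h.dom.flip.exc_left2 (i₀ := m - i₀) (i₁ := m - i₁) hst h0 h1 houtU
      (by omega) (by omega)
      (by
        rw [flipw_pos (by omega), flipw_pos (by omega), show m + 1 - (m - i₀) = i₀ + 1 by omega,
          show m + 1 - (m - i₀ + 1) = i₀ by omega]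
        exact j0.symm)
      (by
        rw [flipw_pos (by omega), flipw_pos (by omega), show m + 1 - (m - i₁) = i₁ + 1 by omega,
          show m + 1 - (m - i₁ + 1) = i₁ by omega]
        exact j1.symm) (by omega)
    rw [flipw_pos (by omega), show m + 1 - max (m - i₀) (m - i₁) = max i₀ i₁ by omega] at e3
    have hc := h.dom.hc
    exact ⟨by omega, Or.inr ⟨by omega, by omega, by omega⟩⟩

/-- **Every crossed side of the contour except `0` and `x` has a mate.** -/
theorem TipOut.pair {j : ℕ} (hj0 : 0 < j) (hjτ : j < τ) {y : ℕ} (hy : y < m)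
    (hjy : Joins (pth ω a j) (w y) (w (y + 1))) :
    ∃ y' < m, Crs ω w a τ y' ∧ max y y' = min y y' + 1 ∧
      ((k₃ ≤ min y y' ∧ par (w (max y y')) = c) ∨
      (1 ≤ min y y' ∧ max y y' < k₁ ∧ par (w (max y y')) ≠ c)) := by
  classical
  have hlast : fa (pth ω a (τ - 1)) ∈ T := by
    rw [← fb_pth_succ, Nat.sub_add_cancel (by omega)]
    exact h.hτ
  rcases h.not_both hy hjy with ⟨h1, h2⟩ | ⟨h1, h2⟩
  · -- the end of an excursion
    obtain ⟨r, hr, hrT, hmax⟩ : ∃ r < j, fa (pth ω a r) ∈ T ∧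
        ∀ i, r < i → i < j → fa (pth ω a i) ∉ T := by
      set Q : Finset ℕ := (range j).filter fun r => fa (pth ω a r) ∈ T with hQ
      have hne : Q.Nonempty := ⟨0, Finset.mem_filter.2 ⟨Finset.mem_range.2 hj0, h.dom.faT⟩⟩
      have hm : Q.max' hne < j ∧ fa (pth ω a (Q.max' hne)) ∈ T := by
        have h3 : ∀ r ∈ Q, r < j ∧ fa (pth ω a r) ∈ T := fun r hr => by
          rw [hQ, Finset.mem_filter, Finset.mem_range] at hr
          exact hr
        exact h3 _ (Finset.max'_mem Q hne)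
      refine ⟨Q.max' hne, hm.1, hm.2, fun i hi1 hi2 hiT => ?_⟩
      have hiQ : i ∈ Q := Finset.mem_filter.2 ⟨Finset.mem_range.2 hi2, hiT⟩
      have := Finset.le_max' Q i hiQ
      omega
    have hfbj : fb (pth ω a j) = fa (pth ω a (j - 1)) := by
      rw [← fb_pth_succ, Nat.sub_add_cancel (by omega)]
    have hrj : r + 1 < j := by
      by_contra hno
      have : j - 1 = r := by omega
      rw [hfbj, this] at h2
      exact h2 hrT
    have hfb : fb (pth ω a (r + 1)) ∈ T := by rw [fb_pth_succ]; exact hrT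
    obtain ⟨y', hy', j'⟩ := h.dom.ctr.all (pth ω a (r + 1))
      ⟨⟨_, Finset.mem_coe.2 hfb, isSide_fb _⟩, _, fun hh => hmax (r + 1) (by omega) hrj
        (Finset.mem_coe.1 hh), isSide_fa _⟩
    have h3 := h.exc hrj hjτ hfb h1 (fun i h3 h4 => hmax i (by omega) h4) hy' hy j' hjy
    rw [max_comm y' y, min_comm y' y] at h3
    exact ⟨y', hy', ⟨r + 1, by omega, j'⟩, h3⟩
  · -- the beginning of an excursion
    have hex : ∃ t, j < t ∧ fa (pth ω a t) ∈ T := by
      refine ⟨τ - 1, ?_, hlast⟩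
      by_contra hno
      have : j = τ - 1 := by omega
      rw [this] at h1
      exact h1 hlast
    set t := Nat.find hex with ht
    obtain ⟨ht1, ht2⟩ := Nat.find_spec hex
    have hmin : ∀ i, j < i → i < t → fa (pth ω a i) ∉ T := fun i h3 h4 h5 =>
      Nat.find_min hex h4 ⟨h3, h5⟩
    have htτ : t < τ := by
      have h3 : t ≤ τ - 1 := Nat.find_min' hex ⟨by
        by_contra hno
        have : j = τ - 1 := by omega
        rw [this] at h1
        exact h1 hlast, hlast⟩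
      omega
    have hout : ∀ i, j ≤ i → i < t → fa (pth ω a i) ∉ T := by
      intro i h3 h4
      rcases Nat.eq_or_lt_of_le h3 with h5 | h5
      · rw [← h5]; exact h1
      · exact hmin i h5 h4
    have hfbt : fb (pth ω a t) ∉ T := by
      have h3 : fb (pth ω a t) = fa (pth ω a (t - 1)) := by
        rw [← fb_pth_succ, Nat.sub_add_cancel (by omega)]
      rw [h3]
      exact hout (t - 1) (by omega) (by omega)
    obtain ⟨y', hy', j'⟩ := h.dom.ctr.all (pth ω a t)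
      ⟨⟨_, Finset.mem_coe.2 ht2, isSide_fa _⟩, _, fun hh => hfbt (Finset.mem_coe.1 hh), isSide_fb _⟩
    exact ⟨y', hy', ⟨t, htτ.le, j'⟩, h.exc ht1 htτ h2 ht2 hout hy hy' hjy j'⟩

/-- a crossed side is `0`, `x` or has a mate -/
theorem TipOut.crs {y : ℕ} (hy : y < m) (hc : Crs ω w a τ y) : y = 0 ∨ y = x ∨
    ∃ y' < m, Crs ω w a τ y' ∧ max y y' = min y y' + 1 ∧
      ((k₃ ≤ min y y' ∧ par (w (max y y')) = c) ∨
      (1 ≤ min y y' ∧ max y y' < k₁ ∧ par (w (max y y')) ≠ c)) := by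
  obtain ⟨j, hj, hjy⟩ := hc
  rcases Nat.eq_zero_or_pos j with rfl | h0
  · exact Or.inl (h.dom.ctr.inj y hy 0 h.dom.m_pos _ hjy h.dom.tip)
  rcases Nat.eq_or_lt_of_le hj with rfl | h1
  · exact Or.inr (Or.inl (h.dom.ctr.inj y hy x h.lt_m _ hjy h.hj))
  · exact Or.inr (Or.inr (h.pair h0 h1 hy hjy))

/-- a cut side different from `x` is not crossed -/
theorem TipOut.not_crs_cut {y : ℕ} (h1 : k₁ ≤ y) (h3 : y < k₃) (hx : y ≠ x) : ¬ Crs ω w a τ y := by
  have k1 := h.dom.h1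
  have k3 := h.dom.h3
  intro hc
  rcases h.crs (by omega) hc with h4 | h4 | ⟨y', -, -, h4, h5 | h5⟩ <;> omega

/-- **The potential of the strand.** -/
theorem TipOut.exists_pot : ∃ Φ : ℤ × ℤ → ZMod 2, IsPot (T : Set (ℤ × ℤ)) (seg8 ω a 0 τ) Φ := by
  have h1 : MtInv ω ((T : Set (ℤ × ℤ))ᶜ)ᶜ (seg8 ω a 0 τ) := minv_seg8
    (fun hh => h.dom.fbU (h.dom.TU hh)) (fun hh => h.fa_T (Finset.mem_coe.1 hh))
  rw [compl_compl] at h1
  exact h.dom.ctr.pot _ fun g hg => h1.even hg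

theorem TipOut.minv : MtInv ω (T : Set (ℤ × ℤ)) (seg8 ω a 0 τ) := by
  have h1 : MtInv ω ((T : Set (ℤ × ℤ))ᶜ)ᶜ (seg8 ω a 0 τ) := minv_seg8
    (fun hh => h.dom.fbU (h.dom.TU hh)) (fun hh => h.fa_T (Finset.mem_coe.1 hh))
  rwa [compl_compl] at h1

theorem TipOut.val (hΦ : IsPot (T : Set (ℤ × ℤ)) (seg8 ω a 0 τ) Φ) {i : ℕ} (hi : i < m) :
    Φ (w i) ≠ Φ (w (i + 1)) ↔ Crs ω w a τ i := by
  obtain ⟨e, ⟨⟨g, hg, hgs⟩, -⟩, hj⟩ := h.dom.ctr.step i hi
  rw [← hΦ.joins hg hgs hj]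
  constructor
  · rintro ⟨k, -, hk, rfl⟩
    exact ⟨k, hk, hj⟩
  · rintro ⟨k, hk, hj'⟩
    exact ⟨k, Nat.zero_le _, hk, Joins.uniq hj hj'⟩

theorem TipOut.two (hΦ : IsPot (T : Set (ℤ × ℤ)) (seg8 ω a 0 τ) Φ) : Φ (w 0) ≠ Φ (w 1) :=
  (h.val hΦ h.dom.m_pos).2 ⟨0, Nat.zero_le _, h.dom.tip⟩

/-- the vertices of the colour `c` on the right wall -/
theorem TipOut.val_wall (hΦ : IsPot (T : Set (ℤ × ℤ)) (seg8 ω a 0 τ) Φ) :
    ∀ y, 1 ≤ y → y ≤ k₁ → par (w y) = c → Φ (w y) = Φ (w 1) := by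
  have k1 := h.dom.h1
  have k13 := h.dom.h13
  have k3 := h.dom.h3
  have hxx := h.hx1
  have hc := h.dom.hc
  intro y
  induction y using Nat.strong_induction_on with
  | _ y ih =>
  intro hy1 hy2 hp
  rcases Nat.lt_or_ge y 3 with hy3 | hy3
  · rcases (by omega : y = 1 ∨ y = 2) with rfl | rfl
    · rfl
    · exfalso
      have h1 := par_ne_succ h.dom.ctr (i := 1) (by omega)
      have h2 := h.dom.parc
      exact h1 (h2.trans hp.symm)
  · obtain ⟨z, rfl⟩ : ∃ z, y = z + 2 := ⟨y - 2, by omega⟩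
    have p1 := par_ne_succ h.dom.ctr (i := z) (by omega)
    have p2 := par_ne_succ h.dom.ctr (i := z + 1) (by omega)
    have c0 := par_cases (w z)
    have c1 := par_cases (w (z + 1))
    have c2 := par_cases (w (z + 1 + 1))
    rw [show z + 2 = z + 1 + 1 by omega] at hp ⊢
    have hpz : par (w z) = c := by omega
    have hpz1 : par (w (z + 1)) ≠ c := by omega
    rw [← ih z (by omega) (by omega) (by omega) hpz]
    have key : Crs ω w a τ z ↔ Crs ω w a τ (z + 1) := by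
      constructor
      · intro hcr
        rcases h.crs (by omega) hcr with h4 | h4 | ⟨y', -, hy', h4, h5 | h5⟩
        · omega
        · omega
        · omega
        · rcases (by omega : y' = z + 1 ∨ y' + 1 = z) with h6 | h6
          · rw [← h6]; exact hy'
          · exfalso
            rw [show max z y' = z by omega] at h5
            exact h5.2.2 hpz
      · intro hcr
        rcases h.crs (by omega) hcr with h4 | h4 | ⟨y', -, hy', h4, h5 | h5⟩
        · omega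
        · omega
        · omega
        · rcases (by omega : y' = z + 2 ∨ y' = z) with h6 | h6
          · exfalso
            rw [show max (z + 1) y' = z + 1 + 1 by omega] at h5
            exact h5.2.2 hp
          · rw [← h6]; exact hy'
    rw [← h.val hΦ (by omega), ← h.val hΦ (by omega)] at key
    revert key
    generalize Φ (w z) = s
    generalize Φ (w (z + 1)) = t
    generalize Φ (w (z + 1 + 1)) = u
    revert s t u
    decide

/-- **Values on the right.** -/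
theorem TipOut.val_right (hΦ : IsPot (T : Set (ℤ × ℤ)) (seg8 ω a 0 τ) Φ) {y : ℕ} (hy1 : 1 ≤ y)
    (hyx : y ≤ x) (hy : k₁ ≤ y ∨ par (w y) = c) : Φ (w y) = Φ (w 1) := by
  have k1 := h.dom.h1
  have k13 := h.dom.h13
  have k3 := h.dom.h3
  have hxx := h.hx1
  have hx3 := h.hx3
  have hc := h.dom.hc
  have hbase : Φ (w k₁) = Φ (w 1) := by
    by_cases hp : par (w k₁) = c
    · exact h.val_wall hΦ k₁ k1 le_rfl hp
    · have h2 : 2 ≤ k₁ := by
        by_contra hno
        have : k₁ = 1 := by omega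
        rw [this] at hp
        exact hp h.dom.parc
      obtain ⟨z, rfl⟩ : ∃ z, k₁ = z + 1 := ⟨k₁ - 1, by omega⟩
      have p1 := par_ne_succ h.dom.ctr (i := z) (by omega)
      have c0 := par_cases (w z)
      have c1 := par_cases (w (z + 1))
      have hpz : par (w z) = c := by omega
      rw [← h.val_wall hΦ z (by omega) (by omega) hpz]
      by_contra hne
      have hcr := (h.val hΦ (i := z) (by omega)).1 (Ne.symm hne)
      rcases h.crs (by omega) hcr with h4 | h4 | ⟨y', -, hy', h4, h5 | h5⟩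
      · omega
      · omega
      · omega
      · rw [show max z y' = z by omega] at h5
        exact h5.2.2 hpz
  rcases Nat.lt_or_ge y k₁ with h1 | h1
  · exact h.val_wall hΦ y hy1 h1.le (by omega)
  · clear hy hy1
    induction y, h1 using Nat.le_induction with
    | base => exact hbase
    | succ y hy ih =>
      rw [← ih (by omega)]
      by_contra hne
      exact h.not_crs_cut hy (by omega) (by omega) ((h.val hΦ (i := y) (by omega)).1 (Ne.symm hne))

/-- **Values on the left.** -/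
theorem TipOut.val_left (hΦ : IsPot (T : Set (ℤ × ℤ)) (seg8 ω a 0 τ) Φ) {y : ℕ} (hyx : x < y)
    (hym : y ≤ m) (hy : y ≤ k₃ ∨ par (w y) ≠ c) : Φ (w y) = Φ (w 0) := by
  have k1 := h.dom.h1
  have k3 := h.dom.h3
  have hx3 := h.hx3
  have hc := h.dom.hc
  have h1 := par_cases (w y)
  have h2 := h.flip.val_right hΦ (y := m + 1 - y) (by omega) (by omega) (by
    rw [flipw_pos (by omega), show m + 1 - (m + 1 - y) = y by omega]
    rcases hy with h3 | h3
    · exact Or.inl (by omega)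
    · exact Or.inr (by omega))
  rw [flipw_pos (by omega), flipw_pos (by omega), show m + 1 - (m + 1 - y) = y by omega,
    show m + 1 - 1 = m by omega, h.dom.ctr.close] at h2
  exact h2

/-- **a side on the right which is not crossed** -/
theorem TipOut.side_right (hΦ : IsPot (T : Set (ℤ × ℤ)) (seg8 ω a 0 τ) Φ) {i : ℕ} (hi : 1 ≤ i)
    (hix : i < x) (hn : ¬ Crs ω w a τ i) : Φ (w i) = Φ (w 1) ∧ Φ (w (i + 1)) = Φ (w 1) := by
  have hxm := h.lt_m
  have p1 := par_ne_succ h.dom.ctr (i := i) (by omega)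
  have c0 := par_cases (w i)
  have c1 := par_cases (w (i + 1))
  have hc := h.dom.hc
  rw [← h.val hΦ (by omega), not_not] at hn
  by_cases hp : par (w i) = c
  · have h1 := h.val_right hΦ hi hix.le (Or.inr hp)
    exact ⟨h1, hn ▸ h1⟩
  · have h1 := h.val_right hΦ (y := i + 1) (by omega) hix (Or.inr (by omega))
    exact ⟨hn.trans h1, h1⟩

/-- **a side on the left which is not crossed** -/
theorem TipOut.side_left (hΦ : IsPot (T : Set (ℤ × ℤ)) (seg8 ω a 0 τ) Φ) {i : ℕ} (hix : x < i)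
    (him : i < m) (hn : ¬ Crs ω w a τ i) : Φ (w i) = Φ (w 0) ∧ Φ (w (i + 1)) = Φ (w 0) := by
  have hxm := h.lt_m
  have p1 := par_ne_succ h.dom.ctr (i := i) (by omega)
  have c0 := par_cases (w i)
  have c1 := par_cases (w (i + 1))
  have hc := h.dom.hc
  rw [← h.val hΦ (by omega), not_not] at hn
  by_cases hp : par (w i) = c
  · have h1 := h.val_left hΦ (y := i + 1) (by omega) (by omega) (Or.inr (by omega))
    exact ⟨hn.trans h1, h1⟩
  · have h1 := h.val_left hΦ (y := i) hix him.le (Or.inr hp)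
    exact ⟨h1, hn ▸ h1⟩

/-! ### Faces -/

/-- a side of an unvisited face of `T` is not crossed -/
theorem TipOut.not_mem {f : ℤ × ℤ} (hf : f ∈ T) (hv : f ∉ vs ω a 0 τ) {b : UE} (hb : IsSide f b) :
    b ∉ seg8 ω a 0 τ := by
  rintro ⟨k, -, hk, rfl⟩
  rcases side_fa_fb hb with h1 | h1
  · rcases Nat.eq_or_lt_of_le hk with h2 | h2
    · rw [h1, h2] at hf
      exact h.fa_T hf
    · rw [h1] at hv
      exact hv (fa_mem_vs (Nat.zero_le _) h2)
  · rcases Nat.eq_zero_or_pos k with rfl | h2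
    · rw [h1] at hf
      exact h.dom.fbU (h.dom.TU (Finset.mem_coe.2 hf))
    · have h3 : fb (pth ω a k) = fa (pth ω a (k - 1)) := by
        rw [← fb_pth_succ, Nat.sub_add_cancel (by omega)]
      rw [h1, h3] at hv
      exact hv (fa_mem_vs (Nat.zero_le _) (by omega))

/-- a side of the contour with an unvisited inner face is not crossed -/
theorem TipOut.not_crs {f : ℤ × ℤ} (hf : f ∈ T) (hv : f ∉ vs ω a 0 τ) {b : UE} (hb : IsSide f b)
    {i : ℕ} (hj : Joins b (w i) (w (i + 1))) : ¬ Crs ω w a τ i := by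
  rintro ⟨k, hk, hj'⟩
  exact h.not_mem hf hv hb ⟨k, Nat.zero_le _, hk, Joins.uniq hj hj'⟩

/-- **the potential is constant on an unvisited face** -/
theorem TipOut.free (hΦ : IsPot (T : Set (ℤ × ℤ)) (seg8 ω a 0 τ) Φ) {f p q : ℤ × ℤ} (hf : f ∈ T)
    (hv : f ∉ vs ω a 0 τ) (hp : IsCor f p) (hq : IsCor f q) : Φ p = Φ q := by
  have hs : ∀ y p q, IsSide f y → Joins y p q → Φ p = Φ q := by
    intro y p q hy hj
    by_contra hn
    exact h.not_mem hf hv hy ((hΦ.joins (Finset.mem_coe.2 hf) hy hj).2 hn)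
  obtain ⟨x, y⟩ := f
  have b1 := hs _ _ _ (isSide_bo' _) (joins_bo' x y)
  have b2 := hs _ _ _ (isSide_le' _) (joins_le' x y)
  have b3 := hs _ _ _ (isSide_to' _) (joins_to' x y)
  have hall : ∀ p, IsCor (x, y) p → Φ p = Φ (x, y) := by
    rintro ⟨p1, p2⟩ hp
    unfold IsCor at hp
    simp only at hp
    rcases hp with ⟨rfl | rfl, rfl | rfl⟩
    · rfl
    · exact b2.symm
    · exact b1.symm
    · rw [← b3, ← b2]
  rw [hall p hp, hall q hq]

/-- the potential is constant on a connected set of unvisited faces -/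
theorem TipOut.free_set (hΦ : IsPot (T : Set (ℤ × ℤ)) (seg8 ω a 0 τ) Φ) {A : Set (ℤ × ℤ)}
    (hA : ∀ f ∈ A, f ∈ T ∧ f ∉ vs ω a 0 τ) {f g p q : ℤ × ℤ} (hf : f ∈ A)
    (hfg : Relation.ReflTransGen (fun b d => AdjF b d ∧ d ∈ A) f g)
    (hp : IsCor f p) (hq : IsCor g q) : Φ p = Φ q := by
  have key : ∀ q, IsCor g q → Φ p = Φ q := by
    clear hq
    induction hfg with
    | refl => exact fun q hq => h.free hΦ (hA f hf).1 (hA f hf).2 hp hq
    | @tail b d hb hbd ih =>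
      obtain ⟨⟨-, y, h2, h3⟩, h4⟩ := hbd
      intro q hq
      rw [ih (ua y) (PotB.cor_ua h2)]
      exact h.free hΦ (hA d h4).1 (hA d h4).2 (PotB.cor_ua h3) hq
  exact key q hq

/-- **visited faces of the colour `c`** -/
theorem TipOut.vis_c (hΦ : IsPot (T : Set (ℤ × ℤ)) (seg8 ω a 0 τ) Φ) {f v : ℤ × ℤ} (hf : f ∈ T)
    (hv : f ∈ vs ω a 0 τ) (hω : ω f = !parD c f) (hcor : IsCor f v) (hp : par v = c) :
    Φ v = Φ (w 1) := by
  obtain ⟨i, -, hi, rfl⟩ := mem_vs.1 hv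
  obtain ⟨y, hy1, hy2, hy3, hy4⟩ := h.dom.conn_in h.hst i hi.le hf
  have h1 : Conn ω (T : Set (ℤ × ℤ)) v (en c (pth ω a i)) :=
    solid_face (Finset.mem_coe.2 hf) hω hcor (isCor_en (isSide_fa _) c) hp (par_en h.dom.hc _)
  have h2 := h.minv.conn hΦ h1
  have h3 := h.minv.conn hΦ hy4
  rw [h2, ← h3]
  exact h.val_wall hΦ y hy1 hy2 hy3

/-- **visited faces of the other colour** -/
theorem TipOut.vis_o (hΦ : IsPot (T : Set (ℤ × ℤ)) (seg8 ω a 0 τ) Φ) {f v : ℤ × ℤ} (hf : f ∈ T)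
    (hv : f ∈ vs ω a 0 τ) (hω : ω f = parD c f) (hcor : IsCor f v) (hp : par v ≠ c) :
    Φ v = Φ (w 0) := by
  have hc := h.dom.hc
  have c0 := par_cases v
  have h1 := h.flip.vis_c hΦ hf hv (by rw [hω, not_parD_flip hc]) hcor (by omega)
  rw [flipw_pos le_rfl, show m + 1 - 1 = m by omega, h.dom.ctr.close] at h1
  exact h1

omit h in
/-- a side has an end of the colour `c` and an end of the other colour -/
theorem side_ends (hc : c = 0 ∨ c = 1) {f : ℤ × ℤ} {b : UE} (hb : IsSide f b) :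
    ∃ p q, Joins b p q ∧ IsCor f p ∧ IsCor f q ∧ par p = c ∧ par q ≠ c := by
  have h0 : Joins b (ua b) (ub b) := Or.inl ⟨rfl, rfl⟩
  have h1 := h0.par_ne
  have h2 := par_cases (ua b)
  have h3 := par_cases (ub b)
  by_cases h4 : par (ua b) = c
  · exact ⟨_, _, h0, PotB.cor_ua hb, PotB.cor_ub hb, h4, by omega⟩
  · exact ⟨_, _, h0.symm, PotB.cor_ub hb, PotB.cor_ua hb, by omega, h4⟩

/-- the value at an unvisited face with the side `i`, `x < i` -/
theorem TipOut.free_left (hΦ : IsPot (T : Set (ℤ × ℤ)) (seg8 ω a 0 τ) Φ) {A : Set (ℤ × ℤ)}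
    (hA : ∀ f ∈ A, f ∈ T ∧ f ∉ vs ω a 0 τ) (cA : Top.EConn A) {k : ℤ × ℤ} {b : UE} {i : ℕ}
    (hk : k ∈ A) (hkb : IsSide k b) (hb : Joins b (w i) (w (i + 1))) (hxi : x < i) (him : i < m)
    {g p : ℤ × ℤ} (hg : g ∈ A) (hp : IsCor g p) : Φ p = Φ (w 0) := by
  rw [← (h.side_left hΦ hxi him (h.not_crs (hA k hk).1 (hA k hk).2 hkb hb)).1]
  refine h.free_set hΦ hA hg (cA g hg k hk) hp ?_
  rcases hb with ⟨e1, -⟩ | ⟨e1, -⟩
  · rw [e1]; exact PotB.cor_ua hkb
  · rw [e1]; exact PotB.cor_ub hkb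

/-- the value at an unvisited face with the side `i`, `1 ≤ i < x` -/
theorem TipOut.free_right (hΦ : IsPot (T : Set (ℤ × ℤ)) (seg8 ω a 0 τ) Φ) {A : Set (ℤ × ℤ)}
    (hA : ∀ f ∈ A, f ∈ T ∧ f ∉ vs ω a 0 τ) (cA : Top.EConn A) {k : ℤ × ℤ} {b : UE} {i : ℕ}
    (hk : k ∈ A) (hkb : IsSide k b) (hb : Joins b (w i) (w (i + 1))) (hi1 : 1 ≤ i) (hix : i < x)
    {g p : ℤ × ℤ} (hg : g ∈ A) (hp : IsCor g p) : Φ p = Φ (w 1) := by
  rw [← (h.side_right hΦ hi1 hix (h.not_crs (hA k hk).1 (hA k hk).2 hkb hb)).1]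
  refine h.free_set hΦ hA hg (cA g hg k hk) hp ?_
  rcases hb with ⟨e1, -⟩ | ⟨e1, -⟩
  · rw [e1]; exact PotB.cor_ua hkb
  · rw [e1]; exact PotB.cor_ub hkb

/-- the values of `Φ` at an unvisited face next to a visited face of the colour `c` -/
theorem TipOut.nbr_c (hΦ : IsPot (T : Set (ℤ × ℤ)) (seg8 ω a 0 τ) Φ) {g f p : ℤ × ℤ} {b : UE}
    (hg : g ∈ T) (hgv : g ∉ vs ω a 0 τ) (hgb : IsSide g b) (hf : f ∈ T) (hv : f ∈ vs ω a 0 τ)
    (hω : ω f = !parD c f) (hfb : IsSide f b) (hp : IsCor g p) : Φ p = Φ (w 1) := by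
  obtain ⟨u, v, hj, hu, -, hpu, -⟩ := side_ends h.dom.hc hfb
  rw [← h.vis_c hΦ hf hv hω hu hpu]
  refine h.free hΦ hg hgv hp ?_
  rcases hj with ⟨e1, -⟩ | ⟨e1, -⟩
  · rw [e1]; exact PotB.cor_ua hgb
  · rw [e1]; exact PotB.cor_ub hgb

/-- the values of `Φ` at an unvisited face next to a visited face of the other colour -/
theorem TipOut.nbr_o (hΦ : IsPot (T : Set (ℤ × ℤ)) (seg8 ω a 0 τ) Φ) {g f p : ℤ × ℤ} {b : UE}
    (hg : g ∈ T) (hgv : g ∉ vs ω a 0 τ) (hgb : IsSide g b) (hf : f ∈ T) (hv : f ∈ vs ω a 0 τ)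
    (hω : ω f = parD c f) (hfb : IsSide f b) (hp : IsCor g p) : Φ p = Φ (w 0) := by
  obtain ⟨u, v, hj, -, hv', -, hpv⟩ := side_ends h.dom.hc hfb
  rw [← h.vis_o hΦ hf hv hω hv' hpv]
  refine h.free hΦ hg hgv hp ?_
  rcases hj with ⟨-, e1⟩ | ⟨-, e1⟩
  · rw [e1]; exact PotB.cor_ub hgb
  · rw [e1]; exact PotB.cor_ua hgb

/-! ### The statements -/

/-- **(S1)** A connected set of unvisited faces of `T` with a side `i > x` of the contour is not next to a visited face
of the colour `c`. -/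
theorem TipOut.s1 {A : Set (ℤ × ℤ)} (hA : ∀ f ∈ A, f ∈ T ∧ f ∉ vs ω a 0 τ) (cA : Top.EConn A)
    {k : ℤ × ℤ} {b : UE} {i : ℕ} (hk : k ∈ A) (hkb : IsSide k b)
    (hb : Joins b (w i) (w (i + 1))) (hxi : x < i) (him : i < m) {g f : ℤ × ℤ} {b' : UE}
    (hg : g ∈ A) (hgb : IsSide g b') (hf : f ∈ T) (hv : f ∈ vs ω a 0 τ) (hfb : IsSide f b') :
    ω f = parD c f := by
  by_contra hne
  have hω : ω f = !parD c f := by
    cases h1 : ω f <;> cases h2 : parD c f <;> simp [h1, h2] at hne ⊢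
  obtain ⟨Φ, hΦ⟩ := h.exists_pot
  have hp : IsCor g (ua b') := PotB.cor_ua hgb
  have h1 := h.free_left hΦ hA cA hk hkb hb hxi him hg hp
  have h2 := h.nbr_c hΦ (hA g hg).1 (hA g hg).2 hgb hf hv hω hfb hp
  exact h.two hΦ (h1.symm.trans h2)

/-- **(S2)** A connected set of unvisited faces of `T` with a side `1 ≤ i < x` of the contour is not next to a visited
face of the other colour. -/
theorem TipOut.s2 {A : Set (ℤ × ℤ)} (hA : ∀ f ∈ A, f ∈ T ∧ f ∉ vs ω a 0 τ) (cA : Top.EConn A)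
    {k : ℤ × ℤ} {b : UE} {i : ℕ} (hk : k ∈ A) (hkb : IsSide k b)
    (hb : Joins b (w i) (w (i + 1))) (hi1 : 1 ≤ i) (hix : i < x) {g f : ℤ × ℤ} {b' : UE}
    (hg : g ∈ A) (hgb : IsSide g b') (hf : f ∈ T) (hv : f ∈ vs ω a 0 τ) (hfb : IsSide f b') :
    ω f = !parD c f := by
  by_contra hne
  have hω : ω f = parD c f := by
    cases h1 : ω f <;> cases h2 : parD c f <;> simp [h1, h2] at hne ⊢
  obtain ⟨Φ, hΦ⟩ := h.exists_pot
  have hp : IsCor g (ua b') := PotB.cor_ua hgb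
  have h1 := h.free_right hΦ hA cA hk hkb hb hi1 hix hg hp
  have h2 := h.nbr_o hΦ (hA g hg).1 (hA g hg).2 hgb hf hv hω hfb hp
  exact h.two hΦ (h2.symm.trans h1)

/-- **(S3)** A connected set of unvisited faces of `T` has not both a side `1 ≤ i < x` and a side `i' > x`. -/
theorem TipOut.s3 {A : Set (ℤ × ℤ)} (hA : ∀ f ∈ A, f ∈ T ∧ f ∉ vs ω a 0 τ) (cA : Top.EConn A)
    {k k' : ℤ × ℤ} {b b' : UE} {i i' : ℕ} (hk : k ∈ A) (hkb : IsSide k b)
    (hb : Joins b (w i) (w (i + 1))) (hi1 : 1 ≤ i) (hix : i < x)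
    (hk' : k' ∈ A) (hkb' : IsSide k' b') (hb' : Joins b' (w i') (w (i' + 1))) (hxi : x < i')
    (him : i' < m) : False := by
  obtain ⟨Φ, hΦ⟩ := h.exists_pot
  have hp : IsCor k (ua b) := PotB.cor_ua hkb
  have h1 := h.free_right hΦ hA cA hk hkb hb hi1 hix hk hp
  have h2 := h.free_left hΦ hA cA hk' hkb' hb' hxi him hk hp
  exact h.two hΦ (h2.symm.trans h1)

/-- **(S0)** A visited face of `T` with a side `i > x` of the contour which is not crossed carries the other diagonal. -/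
theorem TipOut.s0_left {f : ℤ × ℤ} {b : UE} {i : ℕ} (hf : f ∈ T) (hv : f ∈ vs ω a 0 τ)
    (hfb : IsSide f b) (hb : Joins b (w i) (w (i + 1))) (hxi : x < i) (him : i < m)
    (hn : ¬ Crs ω w a τ i) : ω f = parD c f := by
  by_contra hne
  have hω : ω f = !parD c f := by
    cases h1 : ω f <;> cases h2 : parD c f <;> simp [h1, h2] at hne ⊢
  obtain ⟨Φ, hΦ⟩ := h.exists_pot
  obtain ⟨h1, h2⟩ := h.side_left hΦ hxi him hn
  have hc := h.dom.hc
  have c0 := par_cases (w i)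
  have c1 := par_cases (w (i + 1))
  have p1 := par_ne_succ h.dom.ctr (i := i) him
  by_cases hp : par (w i) = c
  · exact h.two hΦ (h1.symm.trans (h.vis_c hΦ hf hv hω (hfb.cor_left hb) hp))
  · exact h.two hΦ (h2.symm.trans (h.vis_c hΦ hf hv hω (hfb.cor_left hb.symm) (by omega)))

theorem TipOut.s0_right {f : ℤ × ℤ} {b : UE} {i : ℕ} (hf : f ∈ T) (hv : f ∈ vs ω a 0 τ)
    (hfb : IsSide f b) (hb : Joins b (w i) (w (i + 1))) (hi1 : 1 ≤ i) (hix : i < x)
    (hn : ¬ Crs ω w a τ i) : ω f = !parD c f := by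
  by_contra hne
  have hω : ω f = parD c f := by
    cases h1 : ω f <;> cases h2 : parD c f <;> simp [h1, h2] at hne ⊢
  obtain ⟨Φ, hΦ⟩ := h.exists_pot
  obtain ⟨h1, h2⟩ := h.side_right hΦ hi1 hix hn
  have hc := h.dom.hc
  have hxm := h.lt_m
  have c0 := par_cases (w i)
  have c1 := par_cases (w (i + 1))
  have p1 := par_ne_succ h.dom.ctr (i := i) (by omega)
  by_cases hp : par (w i) = c
  · exact h.two hΦ ((h.vis_o hΦ hf hv hω (hfb.cor_left hb.symm) (by omega)).symm.trans h2)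
  · exact h.two hΦ ((h.vis_o hΦ hf hv hω (hfb.cor_left hb) hp).symm.trans h1)

/-- a visited face with a cut side different from `x` -/
theorem TipOut.s0_cut {f : ℤ × ℤ} {b : UE} {i : ℕ} (hf : f ∈ T) (hv : f ∈ vs ω a 0 τ)
    (hfb : IsSide f b) (hb : Joins b (w i) (w (i + 1))) (hi1 : k₁ ≤ i) (hi3 : i < k₃) (hne : i ≠ x) :
    (x < i → ω f = parD c f) ∧ (i < x → ω f = !parD c f) := by
  have k1 := h.dom.h1
  have k3 := h.dom.h3
  have hn := h.not_crs_cut hi1 hi3 hne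
  exact ⟨fun h1 => h.s0_left hf hv hfb hb h1 (by omega) hn,
    fun h1 => h.s0_right hf hv hfb hb (by omega) h1 hn⟩

/-- a side of a wall whose outer face is not visited is not crossed -/
theorem TipOut.not_crs_of_outer {i : ℕ} (hi0 : i ≠ 0) (hix : i ≠ x) {b : UE} {g : ℤ × ℤ}
    (hb : Joins b (w i) (w (i + 1))) (hgb : IsSide g b) (hgv : g ∉ vs ω a 0 τ) (hi : i < m) :
    ¬ Crs ω w a τ i := by
  rintro ⟨k, hk, hj'⟩
  have e1 : b = pth ω a k := Joins.uniq hb hj'
  rw [e1] at hgb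
  have hkτ : k ≠ τ := by
    rintro rfl
    exact hix (h.dom.ctr.inj i hi x h.lt_m _ hj' h.hj)
  have hk0 : k ≠ 0 := by
    rintro rfl
    exact hi0 (h.dom.ctr.inj i hi 0 h.dom.m_pos _ hj' h.dom.tip)
  rcases side_fa_fb hgb with h1 | h1
  · rw [h1] at hgv
    exact hgv (fa_mem_vs (Nat.zero_le _) (by omega))
  · have h3 : fb (pth ω a k) = fa (pth ω a (k - 1)) := by
      rw [← fb_pth_succ, Nat.sub_add_cancel (by omega)]
    rw [h1, h3] at hgv
    exact hgv (fa_mem_vs (Nat.zero_le _) (by omega))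

end Out

end Pool.Agent.SixB
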