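import Pool.Agent.Lib.SixB.S8LabStep

/-!
# Step 8: the labels of the coarse domain after a void stage

In a void stage a small set `E` at the tip is removed from `P`; the new tip side `A'` of the new set `P'`
is a side with a face of `E` behind it. `U` and the true tip side are not changed.

* `app_void`: `P'` approximates `P` for the classes `vK` (`E` and the face behind the tip side; faces);
* `LabP.voidN`: `LabP` holds for `P'`; `LabP.void`: the form with an alternative as in a regular stage.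
-/

set_option autoImplicit false

namespace Pool.Agent.SixB.Mv

open Finset Pool.Agent.Perc Pool.Agent.Perc6 Pool.Agent.Perc6.C2Aux Pool.Agent.Perc.Tips
open Pool.Agent.SixB.Top

variable {ι ι' : Type*} {U P P' E : Set (ℤ × ℤ)} {κ : ℤ × ℤ → ι} {κ' : ℤ × ℤ → ι'} {d : ℤ}
  {A A' B C τ : UE × Bool} {n mP mU kt : ℕ} {s s' s₀ : ℤ}

/-! ### A void stage -/

open Classical in
/-- The classes for a void stage: the removed set `E` and the face `g` behind the tip side form one
class. -/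
noncomputable def vK (E : Set (ℤ × ℤ)) (g f : ℤ × ℤ) : Option (ℤ × ℤ) :=
  if f ∈ E ∨ f = g then none else some f

theorem vK_pos {g f : ℤ × ℤ} (h : f ∈ E ∨ f = g) : vK E g f = none := if_pos h

theorem vK_neg {g f : ℤ × ℤ} (h : ¬ (f ∈ E ∨ f = g)) : vK E g f = some f := if_neg h

theorem vK_none {g f : ℤ × ℤ} (h : vK E g f = none) : f ∈ E ∨ f = g := by
  by_contra hcon
  rw [vK_neg hcon] at h
  exact absurd h (by simp)

/-- The approximation of `P` by `P'`. -/
theorem app_void (hP'P : P' ⊆ P) (hEP : E ⊆ P) (cE : Top.EConn E) (hPE : ∀ f ∈ P', f ∉ E)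
    (hPc : ∀ f ∈ P', ∀ g ∈ P, AdjF f g → g ∉ E → g ∈ P') (hA : BD P A) (hAE : ahead A ∈ E) {ρ : ℤ}
    (hρ : ∀ x ∈ E, ∀ y ∈ E, |x.1 - y.1| ≤ ρ ∧ |x.2 - y.2| ≤ ρ) :
    App P P' (vK E (ahead (rv A))) (ρ + 2) := by
  have hρ0 : 0 ≤ ρ := (abs_nonneg _).trans (hρ _ hAE _ hAE).1
  have hnP : ∀ x ∈ P', ¬ (x ∈ E ∨ x = ahead (rv A)) := by
    rintro x hx (h1 | h1)
    · exact hPE x hx h1
    · exact hA.2 (h1 ▸ hP'P hx)
  have hcase : ∀ x y, vK E (ahead (rv A)) x = vK E (ahead (rv A)) y → x = y ∨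
      ((x ∈ E ∨ x = ahead (rv A)) ∧ (y ∈ E ∨ y = ahead (rv A))) := by
    intro x y hxy
    by_cases h1 : x ∈ E ∨ x = ahead (rv A)
    · rw [vK_pos h1] at hxy
      exact Or.inr ⟨h1, vK_none hxy.symm⟩
    · by_cases h2 : y ∈ E ∨ y = ahead (rv A)
      · rw [vK_pos h2] at hxy
        exact absurd (vK_none hxy) h1
      · rw [vK_neg h1, vK_neg h2] at hxy
        exact Or.inl (Option.some.inj hxy)
  have hadj : AdjF (ahead A) (ahead (rv A)) := (adjF_ahead A).symm
  refine ⟨hP'P, ?_, ?_, ?_, ?_⟩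
  · intro x y hxy hx
    rcases hcase x y hxy with h1 | ⟨h1, -⟩
    · exact h1 ▸ hx
    · exact absurd h1 (hnP x hx)
  · intro x y hxy
    refine ⟨rfl, ?_⟩
    rcases hcase x y hxy with h1 | ⟨h1, h2⟩
    · rw [h1]
    · -- everything is joined to the face at the tip side
      have hset : {z | vK E (ahead (rv A)) z = vK E (ahead (rv A)) x} =
          {z | z ∈ E ∨ z = ahead (rv A)} := by
        ext z
        constructor
        · intro hz
          have hz' : vK E (ahead (rv A)) z = vK E (ahead (rv A)) x := hz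
          rw [vK_pos h1] at hz'
          exact vK_none hz'
        · intro hz
          show vK E (ahead (rv A)) z = vK E (ahead (rv A)) x
          rw [vK_pos h1, vK_pos hz]
      rw [hset]
      apply rtg_iff.2
      have hES : E ⊆ {z | z ∈ E ∨ z = ahead (rv A)} := fun z hz => Or.inl hz
      have key : ∀ z, (z ∈ E ∨ z = ahead (rv A)) →
          ChI {z | z ∈ E ∨ z = ahead (rv A)} (ahead A) z := by
        rintro z (hz | hz)
        · exact (show ChI E (ahead A) z from cE _ hAE _ hz).mono hES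
        · rw [hz]
          exact ChI.single hadj (Or.inr rfl)
      have h3 : ChI {z | z ∈ E ∨ z = ahead (rv A)} x y :=
        (ChI.symm (show ahead A ∈ {z | z ∈ E ∨ z = ahead (rv A)} from Or.inl hAE)
          (key x h1)).trans (key y h2)
      exact h3.stepC (W := {z | z ∈ E ∨ z = ahead (rv A)}ᶜ) fun f hf => not_not.2 hf
  · intro x y hxy
    have h4 := adj_near_app (adj_iff_adjFL.2 hadj)
    rcases hcase x y hxy with h1 | ⟨h1, h2⟩
    · rw [h1]
      simp only [sub_self, abs_zero]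
      omega
    · have key : ∀ z, (z ∈ E ∨ z = ahead (rv A)) → ∃ z' ∈ E, z' = z ∨
          (z' = ahead A ∧ z = ahead (rv A)) := by
        rintro z (hz | hz)
        · exact ⟨z, hz, Or.inl rfl⟩
        · exact ⟨_, hAE, Or.inr ⟨rfl, hz⟩⟩
      obtain ⟨x', hx', h5⟩ := key x h1
      obtain ⟨y', hy', h6⟩ := key y h2
      have h7 := hρ x' hx' y' hy'
      rw [abs_le, abs_le] at *
      rw [abs_lt, abs_lt]
      rcases h5 with rfl | ⟨rfl, rfl⟩ <;> rcases h6 with rfl | ⟨rfl, rfl⟩ <;> omega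
  · intro f hf g hfg hg
    by_cases hgP : g ∈ P
    · have hgE : g ∈ E := by
        by_contra hgE
        exact hg (hPc f hf g hgP (adj_iff_adjFL.1 hfg) hgE)
      exact ⟨ahead (rv A), by rw [vK_pos (Or.inr rfl), vK_pos (Or.inl hgE)], hA.2⟩
    · exact ⟨g, rfl, hgP⟩

/-- A link for other classes. -/
theorem link_mono (h : App U P κ d) (hC : BD P C)
    (hκ : ∀ x ∉ P, ∀ y ∉ P, κ x = κ y → κ' x = κ' y) {D : UE × Bool} (hl : LinkK U κ C D) :
    LinkK U κ' C D := by
  rcases hl with h1 | ⟨h1, h2⟩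
  · exact Or.inl h1
  · refine Or.inr ⟨h1, ?_⟩
    have h3 : {x | κ x = κ (ahead (rv C))} ∩ U ⊆ {x | κ' x = κ' (ahead (rv C))} ∩ U := by
      rintro x ⟨hx, hxU⟩
      exact ⟨hκ x (fun hxP => hC.2 (h.sat _ _ hx hxP)) _ hC.2 hx, hxU⟩
    exact compT_mono h3 h2

/-- The greatest index with a property before a given index without it. -/
theorem exists_last {Q : ℕ → Prop} {z q : ℕ} (hz : Q z) (hq : ¬ Q q) (hzq : z ≤ q) :
    ∃ y, z ≤ y ∧ y < q ∧ Q y ∧ ∀ i, y < i → i ≤ q → ¬ Q i := by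
  classical
  have h1 := Nat.findGreatest_spec (P := Q) hzq hz
  have h2 := Nat.le_findGreatest (P := Q) hzq hz
  have h3 := Nat.findGreatest_le (P := Q) q
  refine ⟨Nat.findGreatest Q q, h2, ?_, h1, fun i hi hi' => Nat.findGreatest_is_greatest hi hi'⟩
  rcases h3.lt_or_eq with h4 | h4
  · exact h4
  · exact absurd (h4 ▸ h1) hq

/-- **The labels after a void stage.** The set `E` at the tip is removed from `P`; the classes outside
`P` are the old ones. -/
theorem LabP.voidN {i₁ j₁ t j₂ i₂ : ℕ} (X : LabP U P κ A τ B s s₀ mP mU kt i₁ j₁ t j₂ i₂)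
    (hs : κ (outF P A (j₁ - 1)) ≠ κ (outF P A (j₂ + 1))) (h : App U P κ d)
    (hP' : Cyc P' A' n) (cP' : Top.EConn P') (hP'P : P' ⊆ P) (hB : ahead B ∈ P')
    (hcl : ∀ f ∈ P', ∀ g ∈ P, f ∈ sqF (s₀ + 1) (ahead B) → g ∈ sqF (s₀ + 1) (ahead B) →
      AdjF f g → g ∈ P')
    (hκ : ∀ x ∉ P, ∀ y ∉ P, (κ' x = κ' y ↔ κ x = κ y))
    (hEP : E ⊆ P) (cE : Top.EConn E) (hPE : ∀ f ∈ P', f ∉ E)
    (hPc : ∀ f ∈ P', ∀ g ∈ P, AdjF f g → g ∉ E → g ∈ P') (hAE : ahead A ∈ E)
    (hA'E : ahead (rv A') ∈ E) {ρ : ℤ}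
    (hρ : ∀ x ∈ E, ∀ y ∈ E, |x.1 - y.1| ≤ ρ ∧ |x.2 - y.2| ≤ ρ) (hs' : s + ρ + 2 ≤ s') :
    ∃ i₁' j₁' t' j₂' i₂', LabP U P' κ' A' τ B s' s₀ n mU kt i₁' j₁' t' j₂' i₂' ∧
      κ' (outF P' A' (j₁' - 1)) ≠ κ' (outF P' A' (j₂' + 1)) := by
  have g1 := X.ij
  have g2 := X.jt
  have g3 := X.tj
  have g4 := X.ji
  have g5 := X.im
  have hρ0 : 0 ≤ ρ := (abs_nonneg _).trans (hρ _ hAE _ hAE).1
  have hs0 : 0 ≤ s := (abs_nonneg _).trans (X.nrA 0 (Or.inl (Nat.zero_le _))).1
  have hA : BD P A := X.cyc.bd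
  have happ := app_void hP'P hEP cE hPE hPc hA hAE hρ
  -- the target part
  set C := side P A (j₁ - 1) with hC
  have T := X.tgR
  rw [← hC] at T
  obtain ⟨hCb, hkeep⟩ := T.keep hP'P hB hcl
  have T' := T.next hP'P hB hcl
  have hPC : Cyc P' C n := hP'.shift_bd hCb
  have hrn := X.lt hPC fun i hi => (hkeep i hi).1
  set r := j₂ + 2 - j₁ with hr
  have hendP : side P C r = side P A (j₂ + 1) := X.end_eq
  have hend : side P' C r = side P A (j₂ + 1) := by
    rw [(hkeep _ le_rfl).1]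
    exact hendP
  set C₁ := side P' C r with hC₁
  have hP₁ : Cyc P' C₁ n := hPC.shift r
  have hq : ∀ i, side P' C₁ (n - r + i) = side P' C i := by
    intro i
    rw [hC₁, ← side_add, show r + (n - r + i) = n + i by omega, side_add, hPC.per]
  have hq0 : side P' C₁ (n - r) = C := hq 0
  have hqk : ∀ i ≤ r, side P' C₁ (n - r + i) = side P A (j₁ - 1 + i) := by
    intro i hi
    rw [hq, (hkeep i hi).1, hC, side_add]
  have hw : ∀ i, side P' C₁ (n + i) = side P' C₁ i := by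
    intro i
    rw [side_add, hP₁.per]
  have hnr : ∀ i, n - r ≤ i → i ≤ n → inF P' C₁ i ∈ sqF (s₀ + 1) (ahead B) := by
    intro i h1 h2
    have h3 := T'.near' (i := i - (n - r)) (by omega)
    unfold inF at h3 ⊢
    rwa [← hq, show n - r + (i - (n - r)) = i by omega] at h3
  have hBC : ahead B = inF P' C₁ (n - r + (t + 1 - j₁)) := by
    unfold inF
    rw [hq, T'.tgt]
  obtain ⟨z, hz, hzA⟩ := hP₁.exists_index hP'.bd
  have hzF : ahead A' = inF P' C₁ z := by
    unfold inF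
    rw [hzA]
  have c1 : z ≤ n - r := by
    by_contra hcon
    have h5 := hqk (z - (n - r)) (by omega)
    rw [show n - r + (z - (n - r)) = z by omega, hzA] at h5
    have h6 := outF_notMem hA (j₁ - 1 + (z - (n - r)))
    unfold outF at h6
    rw [← h5] at h6
    exact h6 (hEP hA'E)
  -- outer faces in `P` are in `E`
  have hF1 : ∀ i, outF P' C₁ i ∈ P → outF P' C₁ i ∈ E := by
    intro i hi
    by_contra hcon
    exact outF_notMem hP₁.bd i (hPc _ (inF_mem hP₁.bd i) _ hi (adjF_ahead _).symm hcon)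
  have hSm : ∀ i j, outF P' C₁ i ∈ E → outF P' C₁ j ∈ E →
      Sm P P' (vK E (ahead (rv A))) C₁ i j := by
    intro i j hi hj
    have h1 : outF P' C₁ j ∈ capC P (vK E (ahead (rv A))) (outF P' C₁ i) := by
      have h2 : ChI E (outF P' C₁ i) (outF P' C₁ j) := cE _ hi _ hj
      have h3 : E ⊆ {x | vK E (ahead (rv A)) x = vK E (ahead (rv A)) (outF P' C₁ i)} ∩ P := by
        intro f hf
        refine ⟨?_, hEP hf⟩
        show vK E (ahead (rv A)) f = vK E (ahead (rv A)) (outF P' C₁ i)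
        rw [vK_pos (Or.inl hf), vK_pos (Or.inl hi)]
      exact h2.mono h3
    refine ⟨?_, hEP hi, hEP hj⟩
    rcases (capS_or : capS P (vK E (ahead (rv A))) (side P' C₁ i) =
      capS P (vK E (ahead (rv A))) (side P' C₁ j) ∨ _) with h2 | h2
    · exact h2
    · exact absurd (self_mem_capS (hEP hj)) (Set.disjoint_left.1 h2 ⟨hEP hi, h1⟩)
  have hout0 : ∀ v, side P' C₁ 0 = side P A v → outF P' C₁ 0 ∉ P := by
    intro v hv
    unfold outF
    rw [hv]
    exact outF_notMem hA v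
  have h00 : side P' C₁ 0 = side P A (j₂ + 1) := hend
  have c2 : ¬ Sm P P' (vK E (ahead (rv A))) C₁ 0 z := fun hh => hout0 _ h00 hh.2.1
  have hqE : outF P' C₁ (n - r) ∉ P := by
    unfold outF
    rw [hq0, hC]
    exact outF_notMem hA _
  have c3 : ¬ Sm P P' (vK E (ahead (rv A))) C₁ z (n - r) := fun hh => hqE hh.2.2
  have hzE : outF P' C₁ z ∈ E := by
    unfold outF
    rw [hzA]
    exact hA'E
  have hlz : LinkK P (vK E (ahead (rv A))) (side P' C₁ z) (side P A 0) := by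
    refine Or.inr ⟨?_, ?_⟩
    · exact hEP hzE
    · have h2 : ChI E (outF P' C₁ z) (ahead A) := cE _ hzE _ hAE
      have h3 : E ⊆ {x | vK E (ahead (rv A)) x = vK E (ahead (rv A)) (outF P' C₁ z)} ∩ P := by
        intro f hf
        refine ⟨?_, hEP hf⟩
        show vK E (ahead (rv A)) f = vK E (ahead (rv A)) (outF P' C₁ z)
        rw [vK_pos (Or.inl hf), vK_pos (Or.inl hzE)]
      exact h2.mono h3
  obtain ⟨x, hx0, hxq, hL, hR, hz'⟩ := junction (kt := j₁) happ X.cyc hP₁ cP' (q₀ := n - r)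
    (by omega) ⟨j₂ + 1, by omega, by omega, Or.inl h00⟩
    ⟨j₁ - 1, by omega, Or.inl (by rw [hq0])⟩ (fun hh => hout0 _ h00 hh.2.1)
  obtain ⟨k1, k2, k3⟩ := hz' z c1 (hEP hzE) hlz (by omega) c2 c3
  have hF3 : ∀ i v, LinkK P (vK E (ahead (rv A))) (side P' C₁ i) (side P A v) →
      outF P' C₁ i ∈ E ∨ side P' C₁ i = side P A v := by
    rintro i v (h1 | ⟨h1, -⟩)
    · exact Or.inr h1
    · exact Or.inl (hF1 i h1)
  have hnE : ∀ i v, side P' C₁ i = side P A v → outF P' C₁ i ∉ E := by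
    intro i v hv hh
    apply outF_notMem hA v
    have h1 := hEP hh
    unfold outF at h1 ⊢
    rwa [hv] at h1
  set Bad : ℕ → Prop := fun i => outF P' C₁ i ∈ E ∨
    ∃ v < mP, side P' C₁ i = side P A v ∧ (v ≤ i₁ ∨ i₂ ≤ v) with hBad
  have hBz : Bad z := Or.inl hzE
  have hBq : ¬ Bad (n - r) := by
    rintro (h1 | ⟨v, hv, h1, h2⟩)
    · exact hqE (hEP h1)
    · rw [hq0, hC] at h1
      have := X.cyc.inj _ (by omega) _ hv h1
      omega
  have hB0 : ¬ Bad 0 := by
    rintro (h1 | ⟨v, hv, h1, h2⟩)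
    · exact hout0 _ h00 (hEP h1)
    · rw [h00] at h1
      have := X.cyc.inj _ (by omega) _ hv h1
      omega
  -- links of sides which are not bad
  have hlo : ∀ i < x, ¬ Bad i → ∃ v, j₁ ≤ v ∧ v < i₂ ∧ side P' C₁ i = side P A v := by
    intro i hi hb
    obtain ⟨v, hv1, hv2, hl⟩ := hL i hi
    rcases hF3 i v hl with h1 | h1
    · exact absurd (Or.inl h1) hb
    · refine ⟨v, hv1, ?_, h1⟩
      by_contra hcon
      exact hb (Or.inr ⟨v, hv2, h1, Or.inr (by omega)⟩)
  have hhi : ∀ i, x ≤ i → i ≤ n - r → ¬ Bad i → ∃ v, i₁ < v ∧ v < j₁ ∧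
      side P' C₁ i = side P A v := by
    intro i hi1 hi2 hb
    obtain ⟨v, hv1, hl⟩ := hR i hi1 hi2
    rcases hF3 i v hl with h1 | h1
    · exact absurd (Or.inl h1) hb
    · refine ⟨v, ?_, hv1, h1⟩
      by_contra hcon
      exact hb (Or.inr ⟨v, by omega, h1, Or.inl (by omega)⟩)
  have hxz : ∀ i, x ≤ i → i ≤ z → Bad i := fun i h1 h2 =>
    Or.inl (hF1 i (k3 i h1 h2).2.1)
  obtain ⟨y₂, hy1, hy2, hy3, hy4⟩ := exists_last hBz hBq c1
  classical
  have hex : ∃ i, Bad i := ⟨z, hBz⟩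
  have hf1 := Nat.find_spec hex
  have hf2 : ∀ i < Nat.find hex, ¬ Bad i := fun i hi => Nat.find_min hex hi
  have hf3 : Nat.find hex ≤ x := Nat.find_min' hex (hxz x le_rfl k1)
  set y₁ := Nat.find hex with hy₁
  have hy0 : 0 < y₁ := by
    rcases Nat.eq_zero_or_pos y₁ with h1 | h1
    · exact absurd (h1 ▸ hf1) hB0
    · exact h1
  -- between the first and the last bad index all indices are bad
  have hmid1 : ∀ i, y₁ ≤ i → i ≤ z → Bad i := by
    intro i h1 h2
    by_contra hb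
    have h3 : i < x := by
      by_contra hcon
      exact hb (hxz i (by omega) h2)
    have h4 : y₁ < i := by
      rcases h1.eq_or_lt with h5 | h5
      · exact absurd (h5 ▸ hf1) hb
      · exact h5
    obtain ⟨v, hv1, hv2, hv3⟩ := hlo i h3 hb
    rcases hf1 with h5 | ⟨v₁, hv4, hv5, hv6⟩
    · exact sm_pinch happ X.cyc hP₁ cP' h4 (show i < z by omega) (show z < n - r by omega)
        (by omega) (hSm _ _ h5 hzE) (fun hh => hnE i v hv3 (hF1 i hh.2.2))
        (fun hh => hqE hh.2.2)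
    · -- an old side
      have hv7 : j₁ ≤ v₁ := by
        obtain ⟨w, hw1, hw2, hl⟩ := hL y₁ (by omega)
        rcases hF3 y₁ w hl with h6 | h6
        · exact absurd h6 (hnE y₁ v₁ hv5)
        · have := X.cyc.inj _ hv4 _ hw2 (hv5.symm.trans h6)
          omega
      have hkey := (links_alt happ X.cyc hP₁ cP' (i := y₁) (k := i) (l := z) (p := n - r) h4
        (show i < z by omega) (show z < n - r by omega) (by omega) hv4 (show v < mP by omega)
        (show 0 < mP by omega) (show j₁ - 1 < mP by omega) (Or.inl hv5) (Or.inl hv3) hlz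
        (Or.inl (by rw [hq0]))
        (dis_of_not_sm fun hh => hnE i v hv3 (hF1 i hh.2.1))
        (dis_of_not_sm fun hh => hnE i v hv3 (hF1 i hh.2.1))
        (dis_of_not_sm fun hh => hqE hh.2.1) (dis_of_not_sm fun hh => hqE hh.2.1)).2.2
      simp only [Finset.mem_Ico] at hkey
      omega
  have hmid2 : ∀ i, z ≤ i → i ≤ y₂ → Bad i := by
    intro i h1 h2
    by_contra hb
    have h4 : z < i := by
      rcases h1.eq_or_lt with h5 | h5
      · exact absurd (h5 ▸ hBz) hb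
      · exact h5
    have h4' : i < y₂ := by
      rcases h2.lt_or_eq with h5 | h5
      · exact h5
      · exact absurd (h5 ▸ hy3) hb
    obtain ⟨v, hv1, hv2, hv3⟩ := hhi i (by omega) (by omega) hb
    rcases hy3 with h5 | ⟨v₁, hv4, hv5, hv6⟩
    · exact sm_pinch' happ X.cyc hP₁ cP' (show 0 < z by omega) h4 h4' (by omega)
        (hSm _ _ hzE h5) (fun hh => hout0 _ h00 hh.2.2)
        (fun hh => hnE i v hv3 (hF1 i hh.2.2))
    · have hv7 : v₁ < j₁ := by
        obtain ⟨w, hw1, hl⟩ := hR y₂ (by omega) (by omega)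
        rcases hF3 y₂ w hl with h6 | h6
        · exact absurd h6 (hnE y₂ v₁ hv5)
        · have := X.cyc.inj _ hv4 _ (by omega) (hv5.symm.trans h6)
          omega
      have hkey := (links_alt happ X.cyc hP₁ cP' (i := 0) (k := z) (l := i) (p := y₂)
        (by omega) h4 h4' (by omega) (show j₂ + 1 < mP by omega) (show 0 < mP by omega)
        (show v < mP by omega) hv4 (Or.inl h00) hlz (Or.inl hv3) (Or.inl hv5)
        (dis_of_not_sm fun hh => hout0 _ h00 hh.2.2)
        (dis_of_not_sm fun hh => hnE i v hv3 (hF1 i hh.2.2))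
        (dis_of_not_sm fun hh => hout0 _ h00 hh.2.2)
        (dis_of_not_sm fun hh => hnE i v hv3 (hF1 i hh.2.2))).2.2
      simp only [Finset.mem_Ico] at hkey
      omega
  -- bad sides are near the new tip side
  have hnA : ∀ i, Bad i → inF P' C₁ i ∈ sqF s' (ahead A') := by
    intro i hb
    have h5 := hρ _ hAE _ hA'E
    have h6 := adj_near_app (adj_iff_adjFL.2 (adjF_ahead A'))
    rcases hb with h1 | ⟨v, hv, h1, h2⟩
    · have h3 := adj_near_app (adj_iff_adjFL.2 (adjF_ahead (side P' C₁ i)))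
      change |(outF P' C₁ i).1 - (inF P' C₁ i).1| ≤ 1 ∧
        |(outF P' C₁ i).2 - (inF P' C₁ i).2| ≤ 1 at h3
      have h4 := hρ _ h1 _ hA'E
      unfold sqF
      rw [Set.mem_ofPred_eq, abs_le, abs_le] at *
      omega
    · have h3 := X.nrA v (by omega)
      have h4 : inF P' C₁ i = inF P A v := by
        unfold inF
        rw [h1]
      rw [h4]
      unfold sqF at h3 ⊢
      rw [Set.mem_ofPred_eq, abs_le, abs_le] at *
      omega
  have hA₁ : ∀ i, side P' A' i = side P' C₁ (z + i) := by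
    intro i
    rw [side_add, hzA]
  have hκ₁ : ∀ x ∉ P, ∀ y ∉ P, κ x = κ y → κ' x = κ' y := fun x hx y hy => (hκ x hx y hy).2
  refine ⟨y₂ - z, n - r - z + 1, n - r - z + (t + 1 - j₁), n - z - 1, n - z + y₁, ?_, ?_⟩
  · refine ⟨hP', by omega, by omega, by omega, by omega, by omega, ?_, ?_, ?_, ?_, ?_⟩
    · rw [hA₁, show z + (n - r - z + (t + 1 - j₁)) = n - r + (t + 1 - j₁) by omega, hq, T'.tgt]
    · intro i hi1 hi2
      obtain ⟨v, hv1, hv2, hv3⟩ := hhi (z + i) (by omega) (by omega) (hy4 _ (by omega) (by omega))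
      obtain ⟨w, hw1, hl⟩ := X.b v hv1 hv2
      refine ⟨w, hw1, ?_⟩
      rw [hA₁, hv3]
      exact link_mono h (bd_side hA v) hκ₁ hl
    · intro i hi1 hi2
      obtain ⟨v, hv1, hv2, hv3⟩ := hlo (z + i - n) (by omega) (hf2 _ (by omega))
      have hv4 : j₂ < v := by
        by_contra hcon
        have h5 := hqk (v - (j₁ - 1)) (by omega)
        rw [show j₁ - 1 + (v - (j₁ - 1)) = v by omega, ← hv3] at h5
        have := hP₁.inj _ (by omega) _ (by omega) h5
        omega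
      obtain ⟨w, hw1, hw2, hl⟩ := X.l v hv4 hv2
      refine ⟨w, hw1, hw2, ?_⟩
      rw [hA₁, show z + i = n + (z + i - n) by omega, hw, hv3]
      exact link_mono h (bd_side hA v) hκ₁ hl
    · intro i hi
      rcases hi with hi | ⟨hi1, hi2⟩
      · have h4 : inF P' A' i = inF P' C₁ (z + i) := by
          unfold inF
          rw [hA₁]
        rw [h4]
        exact hnA _ (hmid2 _ (by omega) (by omega))
      · have h4 : inF P' A' i = inF P' C₁ (z + i - n) := by
          unfold inF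
          rw [hA₁, show z + i = n + (z + i - n) by omega, hw]
          congr 2
          omega
        rw [h4]
        exact hnA _ (hmid1 _ (by omega) (by omega))
    · intro i hi1 hi2
      have h4 : inF P' A' i = inF P' C (z + i - (n - r)) := by
        unfold inF
        rw [hA₁, show z + i = n - r + (z + i - (n - r)) by omega, hq]
        congr 2
        omega
      rw [h4]
      exact T'.near _ (by omega) (by omega)
  · have e1 : outF P' A' (n - r - z + 1 - 1) = outF P A (j₁ - 1) := by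
      unfold outF
      rw [hA₁, show z + (n - r - z + 1 - 1) = n - r + 0 by omega, hq]
      rfl
    have e2 : outF P' A' (n - z - 1 + 1) = outF P A (j₂ + 1) := by
      unfold outF
      rw [hA₁, show z + (n - z - 1 + 1) = n + 0 by omega, hw, h00]
    rw [e1, e2]
    intro hh
    exact hs ((hκ _ (outF_notMem hA _) _ (outF_notMem hA _)).1 hh)

/-- The same, in the form with the alternative. -/
theorem LabP.void {i₁ j₁ t j₂ i₂ : ℕ} (X : LabP U P κ A τ B s s₀ mP mU kt i₁ j₁ t j₂ i₂)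
    (hs : κ (outF P A (j₁ - 1)) ≠ κ (outF P A (j₂ + 1))) (h : App U P κ d)
    (hP' : Cyc P' A' n) (cP' : Top.EConn P') (hP'P : P' ⊆ P) (hB : ahead B ∈ P')
    (hcl : ∀ f ∈ P', ∀ g ∈ P, f ∈ sqF (s₀ + 1) (ahead B) → g ∈ sqF (s₀ + 1) (ahead B) →
      AdjF f g → g ∈ P')
    (hκ : ∀ x ∉ P, ∀ y ∉ P, (κ' x = κ' y ↔ κ x = κ y))
    (hEP : E ⊆ P) (cE : Top.EConn E) (hPE : ∀ f ∈ P', f ∉ E)
    (hPc : ∀ f ∈ P', ∀ g ∈ P, AdjF f g → g ∉ E → g ∈ P') (hAE : ahead A ∈ E)
    (hA'E : ahead (rv A') ∈ E) {ρ : ℤ}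
    (hρ : ∀ x ∈ E, ∀ y ∈ E, |x.1 - y.1| ≤ ρ ∧ |x.2 - y.2| ≤ ρ) (hs' : s + ρ + 2 ≤ s') :
    (∃ i₁' j₁' t' j₂' i₂', LabP U P' κ' A' τ B s' s₀ n mU kt i₁' j₁' t' j₂' i₂' ∧
      κ' (outF P' A' (j₁' - 1)) ≠ κ' (outF P' A' (j₂' + 1))) ∨
      ChI (P' ∩ sqF (s₀ + 2) (ahead B)) (ahead B) (ahead A') :=
  Or.inl (X.voidN hs h hP' cP' hP'P hB hcl hκ hEP cE hPE hPc hAE hA'E hρ hs')

end Pool.Agent.SixB.Mv
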