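import Pool.Agent.Lib.SixB.S8Pinch

/-!
# Step 8: the last exit of the fresh component is the target side

The strand is a loop of period `N`: it comes back to its first side `e` through the face `fb e`, which
is solid (not in `E.U`). `U` is a connected set of fresh faces of the time `s` which contains the face
ahead of the tip.

* `last_exit`: let `J` be a side with one face in `U` and one face not in `U`, other than the tip, whose
  ends are on the walls (of the time `s`) of their colours (for instance the true target side). Then the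
  strand leaves `U` for the last time through `J`: if `fb (p a) ∈ U` and the strand is outside of `U` in
  the time `[a, N)` then `p a = J`.
* `exists_last_exit`: there is such a time `a`, `s < a < N`.
* `last_exit_two`: the last exit of `U` (time `s`) is the last exit of the component `U₀` of the time
  `0`: after `J` the strand is outside of `U₀`.
* `end_box`: after `J` the strand stays near the base if it has no touch of colour `c` far away and
  there is no passage with walls of one colour.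
-/

set_option autoImplicit false

namespace Pool.Agent.SixB.Side

open Finset Pool.Agent.Perc Pool.Agent.PercT Pool.Agent.Perc6 Pool.Agent.Perc6.C2Aux
open Pool.Agent.SixB.NearCut Pool.Agent.SixB.Near Pool.Agent.SixB.Lk
open Pool.Agent.SixB.Top

variable {E : Ex} {ω : Cfg} {s a N : ℕ} {U U₀ : Set (ℤ × ℤ)} {J : UE} {f g : ℤ × ℤ}

/-- `J` is a side with the face `f` in `U` and the face `g` not in `U`, other than the tip, with both
ends on the walls of the time `s`. -/
structure Tgt (E : Ex) (ω : Cfg) (s : ℕ) (U : Set (ℤ × ℤ)) (J : UE) : Prop where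
  inn : ∃ f, f ∈ U ∧ IsSide f J
  out : ∃ g, g ∉ U ∧ IsSide g J
  ne : J ≠ E.p ω s
  s0 : E.Sid 0 ω s (en 0 J)
  s1 : E.Sid 1 ω s (en 1 J)

/-- The loop: `N` is the period. -/
structure Loop (E : Ex) (ω : Cfg) (N : ℕ) : Prop where
  pos : 0 < N
  per : E.p ω N = E.e ω
  nb : Nb (E.cf ω) (E.e ω) (N - 1)

theorem Loop.add (h : Loop E ω N) (t : ℕ) : E.p ω (N + t) = E.p ω t := by
  have h1 := pth_add (E.cf ω) (E.e ω) N t
  have h2 : pth (E.cf ω) (E.e ω) N = E.e ω := h.per
  rw [h2] at h1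
  exact h1.symm

theorem Loop.inj (h : Loop E ω N) {i j : ℕ} (hi : i < N) (hj : j < N) (hij : E.p ω i = E.p ω j) :
    i = j := h.nb.inj (by omega) (by omega) hij

/-- **The last exit of `U` is the side `J`.** -/
theorem last_exit (hL : Loop E ω N) (he : fb (E.e ω) ∉ U) (hUs : U ⊆ E.Fr ω s)
    (hUc : Top.EConn U) (hs : fa (E.p ω s) ∈ U) (hJ : Tgt E ω s U J) (hsa : s < a) (haN : a < N)
    (h0 : fb (E.p ω a) ∈ U) (hout : ∀ l, a ≤ l → l < N → fa (E.p ω l) ∉ U) : E.p ω a = J := by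
  have hap : ∀ l, pth (E.cf ω) (E.p ω a) l = E.p ω (a + l) := fun l => pth_add _ _ a l
  -- the strand from the time `a` until the time `N + s`
  have hn : Nb (E.cf ω) (E.p ω a) (N + s - a) := by
    intro l hl1 hl2 h
    rw [hap] at h
    rcases Nat.lt_or_ge (a + l) N with h2 | h2
    · have := hL.inj h2 haN h
      omega
    · obtain ⟨j, hj⟩ : ∃ j, a + l = N + j := ⟨a + l - N, by omega⟩
      rw [hj, hL.add] at h
      have := hL.inj (by omega) haN h
      omega
  have e1 : E.p ω (a + (N + s - a)) = E.p ω s := by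
    rw [show a + (N + s - a) = N + s by omega, hL.add]
  obtain ⟨M, Θ, hΘ, hMi, hMs⟩ := Pin.exists_exc_pot (ω := E.cf ω) (e := E.p ω a) (a := 0)
    (b := N + s - a) hUc hn (Nat.zero_le _) h0 (by rw [hap, e1]; exact hs)
  have hmem : ∀ y, y ∈ Gs (E.cf ω) (E.p ω a) 0 (N + s - a + 1) ↔
      ∃ l, a ≤ l ∧ l ≤ N + s ∧ E.p ω l = y := by
    intro y
    constructor
    · rintro ⟨l, -, hl2, hl3⟩
      exact ⟨a + l, by omega, by omega, by rw [← hap]; exact hl3⟩
    · rintro ⟨l, hl1, hl2, hl3⟩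
      refine ⟨l - a, by omega, by omega, ?_⟩
      rw [hap, show a + (l - a) = l by omega]
      exact hl3
  have hFr : (E.Fr ω s)ᶜ ⊆ Uᶜ := Set.compl_subset_compl.2 hUs
  have hj : ∀ y : UE, y ∈ M ↔ Θ (en 0 y) ≠ Θ (en 1 y) := fun y =>
    hΘ.joins (Set.mem_univ (fb y)) (isSide_fb y) (en_joins' (Or.inl rfl) y)
  -- the first side
  have heM : E.e ω ∈ M := by
    rw [hMs _ ⟨_, he, isSide_fb _⟩, hmem]
    exact ⟨N, haN.le, by omega, hL.per⟩
  have hJM : J ∈ M := by
    rw [hj, ← Pin.conn_pot hΘ hMi hFr hJ.s0, ← Pin.conn_pot hΘ hMi hFr hJ.s1, ← hj]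
    exact heM
  rw [hMs _ hJ.out, hmem] at hJM
  obtain ⟨l, hl1, hl2, hl3⟩ := hJM
  obtain ⟨f, hf, hfJ⟩ := hJ.inn
  rw [← hl3] at hfJ
  have hfJ' : f = fa (E.p ω l) ∨ f = fb (E.p ω l) := isSide_iff.1 hfJ
  rcases Nat.lt_or_ge l N with h2 | h2
  · -- in the time `[a, N)`
    rcases Nat.lt_or_eq_of_le hl1 with h3 | rfl
    · exfalso
      rcases hfJ' with h4 | h4
      · exact hout l hl1 h2 (h4 ▸ hf)
      · obtain ⟨l', rfl⟩ : ∃ l', l = l' + 1 := ⟨l - 1, by omega⟩
        have h5 : fb (E.p ω (l' + 1)) = fa (E.p ω l') := fb_pth_succ _ _ _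
        rw [h5] at h4
        exact hout l' (by omega) (by omega) (h4 ▸ hf)
    · exact hl3
  · -- in the time `[0, s]`
    exfalso
    obtain ⟨j, rfl⟩ : ∃ j, l = N + j := ⟨l - N, by omega⟩
    rw [hL.add] at hl3 hfJ'
    rcases hfJ' with h4 | h4
    · rcases Nat.lt_or_ge j s with h5 | h5
      · exact NearCut.fa_not_fr h5 (hUs (h4 ▸ hf))
      · have h6 : j = s := by omega
        subst h6
        exact hJ.ne hl3.symm
    · cases j with
      | zero =>
        have h5 : fb (E.p ω 0) = fb (E.e ω) := rfl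
        rw [h5] at h4
        exact he (h4 ▸ hf)
      | succ j =>
        have h5 : fb (E.p ω (j + 1)) = fa (E.p ω j) := fb_pth_succ _ _ _
        rw [h5] at h4
        exact NearCut.fa_not_fr (s := s) (by omega) (hUs (h4 ▸ hf))

/-- There is a last exit. -/
theorem exists_last (hL : Loop E ω N) (he : fb (E.e ω) ∉ U) (hsN : s < N)
    (hs : fa (E.p ω s) ∈ U) : ∃ a, s < a ∧ a < N ∧ fb (E.p ω a) ∈ U ∧
      ∀ l, a ≤ l → l < N → fa (E.p ω l) ∉ U := by
  classical
  have hex : ∃ n, n < N ∧ fa (E.p ω (N - 1 - n)) ∈ U :=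
    ⟨N - 1 - s, by omega, by rw [show N - 1 - (N - 1 - s) = s by omega]; exact hs⟩
  obtain ⟨h1, h2⟩ := Nat.find_spec hex
  have h3 : Nat.find hex ≤ N - 1 - s := Nat.find_min' hex
    ⟨by omega, by rw [show N - 1 - (N - 1 - s) = s by omega]; exact hs⟩
  have hne : N - 1 - Nat.find hex + 1 ≠ N := by
    intro h
    have h4 : fb (E.p ω (N - 1 - Nat.find hex + 1)) = fa (E.p ω (N - 1 - Nat.find hex)) :=
      fb_pth_succ _ _ _
    rw [h, hL.per] at h4
    exact he (h4 ▸ h2)
  refine ⟨N - 1 - Nat.find hex + 1, by omega, by omega, ?_, ?_⟩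
  · have h4 : fb (E.p ω (N - 1 - Nat.find hex + 1)) = fa (E.p ω (N - 1 - Nat.find hex)) :=
      fb_pth_succ _ _ _
    rw [h4]
    exact h2
  · intro l hl1 hl2 hl3
    exact Nat.find_min hex (m := N - 1 - l) (by omega)
      ⟨by omega, by rw [show N - 1 - (N - 1 - l) = l by omega]; exact hl3⟩

/-- The last exit exists and is the side `J`. -/
theorem exists_last_exit (hL : Loop E ω N) (he : fb (E.e ω) ∉ U) (hUs : U ⊆ E.Fr ω s)
    (hUc : Top.EConn U) (hsN : s < N) (hs : fa (E.p ω s) ∈ U) (hJ : Tgt E ω s U J) :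
    ∃ a, s < a ∧ a < N ∧ E.p ω a = J ∧ fb (E.p ω a) ∈ U ∧
      ∀ l, a ≤ l → l < N → fa (E.p ω l) ∉ U := by
  obtain ⟨a, h1, h2, h3, h4⟩ := exists_last hL he hsN hs
  exact ⟨a, h1, h2, last_exit hL he hUs hUc hs hJ h1 h2 h3 h4, h3, h4⟩

/-- A target side for `U` at the time `s` is one for a larger set `U₀` at an earlier time if its outer
face is not in `U₀`. The walls are those of the earlier time. -/
theorem Tgt.of_zero (hU : U ⊆ U₀) (hJ : Tgt E ω 0 U₀ J)
    (hi : ∃ f, f ∈ U ∧ IsSide f J) (hne : J ≠ E.p ω s) : Tgt E ω s U J where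
  inn := hi
  out := by
    obtain ⟨g, hg, h⟩ := hJ.out
    exact ⟨g, fun h' => hg (hU h'), h⟩
  ne := hne
  s0 := hJ.s0.mono (Nat.zero_le _)
  s1 := hJ.s1.mono (Nat.zero_le _)

/-- **After the last exit of `U` the strand is outside of the component `U₀` of the start.** -/
theorem last_exit_two (hL : Loop E ω N) (he : fb (E.e ω) ∉ U₀) (hU : U ⊆ U₀)
    (hU0 : U₀ ⊆ E.Fr ω 0) (hUc0 : Top.EConn U₀) (h0 : fa (E.e ω) ∈ U₀)
    (hUs : U ⊆ E.Fr ω s) (hUc : Top.EConn U) (hsN : s < N) (hs : fa (E.p ω s) ∈ U)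
    (hJ0 : Tgt E ω 0 U₀ J) (hi : ∃ f, f ∈ U ∧ IsSide f J) (hne : J ≠ E.p ω s) :
    ∃ a, s < a ∧ a < N ∧ E.p ω a = J ∧ fb (E.p ω a) ∈ U ∧
      ∀ l, a ≤ l → l < N → fa (E.p ω l) ∉ U₀ := by
  obtain ⟨a, h1, h2, h3, h4, h5⟩ := exists_last_exit hL (fun h => he (hU h)) hUs hUc hsN hs
    (hJ0.of_zero hU hi hne)
  obtain ⟨b, g1, g2, g3, g4, g5⟩ := exists_last_exit hL he hU0 hUc0 hL.pos h0 hJ0
  have hab : a = b := hL.inj h2 g2 (h3.trans g3.symm)
  subst hab
  exact ⟨a, h1, h2, h3, h4, g5⟩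

/-- **After the last exit the strand stays near the base**: `J = p a` is near `z`, all touches of
colour `c` in the time `[a, N)` are near `z`, and there is no passage with walls of one colour. -/
theorem end_box {c : ℤ} {z : ℤ × ℤ} {ρ R : ℤ} (hz : InB z (ρ - 1) (E.p ω a))
    (hB : ∀ k, a ≤ k → k < N → E.Touch c ω s k → InB z (ρ - 1) (E.p ω (k + 1)))
    (hsa : s ≤ a) (hO : ¬ E.OneWall c ω s z ρ R) {l : ℕ} (hal : a ≤ l) (hlN : l ≤ N) :
    InB z R (E.p ω l) := by
  classical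
  by_contra hno
  apply hO
  -- the last touch before `l`
  by_cases hex : ∃ k, a ≤ k ∧ k < l ∧ E.Touch c ω s k
  · obtain ⟨k, h1, h2, h3, h4⟩ : ∃ k, a ≤ k ∧ k < l ∧ E.Touch c ω s k ∧
        ∀ j, k < j → j < l → ¬ E.Touch c ω s j := by
      have hex' : ∃ n, n < l ∧ a ≤ l - 1 - n ∧ E.Touch c ω s (l - 1 - n) := by
        obtain ⟨k, h1, h2, h3⟩ := hex
        exact ⟨l - 1 - k, by omega, by omega, by rw [show l - 1 - (l - 1 - k) = k by omega]; exact h3⟩
      obtain ⟨h1, h2, h3⟩ := Nat.find_spec hex'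
      refine ⟨l - 1 - Nat.find hex', h2, by omega, h3, fun j hj1 hj2 hj3 => ?_⟩
      exact Nat.find_min hex' (m := l - 1 - j) (by omega)
        ⟨by omega, by omega, by rw [show l - 1 - (l - 1 - j) = j by omega]; exact hj3⟩
    exact ⟨k + 1, l, by omega, by omega, hB k h1 (by omega) h3, hno,
      fun j hj1 hj2 => h4 j (by omega) hj2⟩
  · push Not at hex
    exact ⟨a, l, hsa, hal, hz, hno, fun k h1 h2 => hex k h1 h2⟩

end Pool.Agent.SixB.Side
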