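import Pool.Agent.Lib.SixB.S8Main
import Pool.Agent.Lib.SixB.S8Scales

/-!
# Step 8: the row `law` of a chain of moves, analytic part

* `clip`: `q` may be replaced by a number of `[-1, 1]`;
* `LawEst c W m ℓ`: the conditional laws of the records of the stage `m + 1` are close to convergent
  sequences, with an error `B * (C₁ (x₁ / y₁) ^ α₁ + C₂ (x₂ / y₂) ^ α₂ + C₃ (x₃ / y₃) ^ α₃)` where
  `x_i * 2 ^ j ≤ c₀ * y_i` for the gap `j = (d m - ℓ) / 3 - 1` of the scales;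
* `law_of_est`: the row `law` of `ChnOK`.
-/

set_option autoImplicit false

namespace Pool.Agent.SixB

open Filter Topology Finset Pool.Agent.Perc Pool.Agent.PercD

/-- The nearest number of `[-1, 1]`. -/
noncomputable def clip (x : ℝ) : ℝ := max (-1) (min 1 x)

theorem abs_clip_le (x : ℝ) : |clip x| ≤ 1 := by
  unfold clip
  rw [abs_le]
  exact ⟨le_max_left _ _, max_le (by norm_num) (min_le_left _ _)⟩

theorem abs_sub_clip {p x : ℝ} (h0 : -1 ≤ p) (h1 : p ≤ 1) : |p - clip x| ≤ |p - x| := by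
  unfold clip
  rcases le_total x (-1) with h | h
  · rw [min_eq_right (by linarith), max_eq_left h, abs_of_nonneg (by linarith),
      abs_of_nonneg (by linarith)]
    linarith
  · rcases le_total x 1 with h' | h'
    · rw [min_eq_right h', max_eq_right h]
    · rw [min_eq_left h', max_eq_right (by norm_num), abs_of_nonpos (by linarith),
        abs_of_nonpos (by linarith)]
      linarith

theorem Conv.clip {u : ℕ → ℝ} (h : Conv u) : Conv fun n => clip (u n) := by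
  obtain ⟨l, hl⟩ := h
  exact ⟨SixB.clip l, (continuous_const.max (continuous_const.min continuous_id)).continuousAt.tendsto.comp
    hl⟩

/-- The gap of the scales between the exponents `a` (fine) and `b` (coarse). -/
def gap (a b : ℕ) : ℕ := (a - b) / 3 - 1

theorem gap_spec {a b : ℕ} (h : b + 3 ≤ a) : b + 3 * (gap a b + 1) ≤ a := by
  unfold gap
  omega

theorem le_gap {a b J : ℕ} (h : b + 3 * (J + 1) ≤ a) : J ≤ gap a b := by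
  unfold gap
  omega

/-- The estimate for the laws of the records of the stage `m + 1` at the resolution `ℓ`. -/
def LawEst {A : Type} [DecidableEq A] (c : ChnD A) (W : ℕ → Finset (ℤ × ℤ)) (m ℓ : ℕ) : Prop :=
  ∃ (B C₁ C₂ C₃ α₁ α₂ α₃ c₀ : ℝ) (L₀ : ℕ), 0 < α₁ ∧ 0 < α₂ ∧ 0 < α₃ ∧
    ∀ d : ℕ → ℕ, d (m + 1) = ℓ → L₀ ≤ d m → c.Gro (m + 1) d →
      ∃ q : List A → A → ℕ → ℝ,
        (∀ x ∈ c.hst d m, ∀ a ∈ c.R (m + 1) ℓ, Conv (q x a)) ∧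
        ∀ᶠ n in atTop, ∀ x ∈ c.hst d m, ∀ a ∈ c.R (m + 1) ℓ, ∀ ω,
          histL (c.s d n) m ω = x → (∀ i ≤ m, ω ∉ c.Bd d n i) →
          ∃ x₁ y₁ x₂ y₂ x₃ y₃ : ℝ,
            0 ≤ x₁ ∧ 0 < y₁ ∧ x₁ * 2 ^ gap (d m) ℓ ≤ c₀ * y₁ ∧
            0 ≤ x₂ ∧ 0 < y₂ ∧ x₂ * 2 ^ gap (d m) ℓ ≤ c₀ * y₂ ∧
            0 ≤ x₃ ∧ 0 < y₃ ∧ x₃ * 2 ^ gap (d m) ℓ ≤ c₀ * y₃ ∧
            |pr (W n) {ξ | c.s d n (m + 1) (PercT.mix (c.S d n m ω) ω ξ) = a} - q x a n| ≤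
              B * (C₁ * (x₁ / y₁) ^ α₁ + C₂ * (x₂ / y₂) ^ α₂ + C₃ * (x₃ / y₃) ^ α₃)

/-- **The row `law`** from the estimate. -/
theorem law_of_est {A : Type} [DecidableEq A] {c : ChnD A} {W : ℕ → Finset (ℤ × ℤ)}
    (H : ∀ m ℓ, LawEst c W m ℓ) (m ℓ : ℕ) (η : ℝ) (hη : 0 < η) :
    ∃ L : ℕ, ∀ d : ℕ → ℕ, d (m + 1) = ℓ → L ≤ d m →
      c.Gro (m + 1) d → ∃ q : List A → A → ℕ → ℝ,
        (∀ x ∈ c.hst d m, ∀ a ∈ c.R (m + 1) ℓ, Conv (q x a)) ∧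
        (∀ x ∈ c.hst d m, ∀ a ∈ c.R (m + 1) ℓ, ∀ n, |q x a n| ≤ 1) ∧
        ∀ᶠ n in atTop, ∀ x ∈ c.hst d m, ∀ a ∈ c.R (m + 1) ℓ, ∀ ω,
          histL (c.s d n) m ω = x → (∀ i ≤ m, ω ∉ c.Bd d n i) →
          |pr (W n) {ξ | c.s d n (m + 1) (PercT.mix (c.S d n m ω) ω ξ) = a} - q x a n| ≤ η := by
  obtain ⟨B, C₁, C₂, C₃, α₁, α₂, α₃, c₀, L₀, h1, h2, h3, H⟩ := H m ℓ
  obtain ⟨J, hJ⟩ := Sc.exists_scale3 h1 h2 h3 B C₁ C₂ C₃ c₀ hη
  refine ⟨max L₀ (ℓ + 3 * (J + 1)), fun d hd hL hG => ?_⟩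
  obtain ⟨q, q1, q2⟩ := H d hd ((le_max_left _ _).trans hL) hG
  refine ⟨fun x a n => clip (q x a n), fun x hx a ha => (q1 x hx a ha).clip,
    fun x _ a _ n => abs_clip_le _, ?_⟩
  filter_upwards [q2] with n hn x hx a ha ω hω hb
  obtain ⟨x₁, y₁, x₂, y₂, x₃, y₃, a1, b1, c1, a2, b2, c2, a3, b3, c3, h⟩ := hn x hx a ha ω hω hb
  have hp0 := pr_nonneg (W n) {ξ | c.s d n (m + 1) (PercT.mix (c.S d n m ω) ω ξ) = a}
  have hp1 := pr_le_one (W n) {ξ | c.s d n (m + 1) (PercT.mix (c.S d n m ω) ω ξ) = a}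
  refine (abs_sub_clip (by linarith) hp1).trans (h.trans ?_)
  exact hJ _ (le_gap ((le_max_right _ _).trans hL)) x₁ y₁ x₂ y₂ x₃ y₃ a1 b1 c1 a2 b2 c2 a3 b3 c3

end Pool.Agent.SixB
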