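import Pool.Agent.Lib.SixB.S8LawA

/-!
# Step 8: the row `rare`, the events which are decided by one move

* `pr_past_le`: an event of which the conditional probability given a good past is at most `e` has with
  the good past together the probability at most `e`;
* `CondEst`: the conditional probability of the event `Y d n l` of the move from the stage `l` to the stage
  `l + 1`, given a past without bad events, is at most `B * (C * (x / y) ^ α)` with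
  `x * 2 ^ gap (d l) (d (l + 1)) ≤ c₀ * y`;
* `rareY_of_est`: the hypothesis `hY` of `rare_of_parts` for this event.
-/

set_option autoImplicit false

namespace Pool.Agent.SixB

open Filter Topology Finset Pool.Agent.Perc Pool.Agent.PercD

/-- The conditional bound for one past. -/
theorem pr_past_le {W : Finset (ℤ × ℤ)} {S : Cfg → Set (ℤ × ℤ)}
    (hS : ∀ ω ω' : Cfg, (∀ f ∈ S ω, ω f = ω' f) → S ω' = S ω) {A : Set Cfg}
    (hA : ∀ ω ∈ A, ∀ ω' : Cfg, (∀ f ∈ S ω, ω f = ω' f) → ω' ∈ A) {Y : Set Cfg} {e : ℝ} (he : 0 ≤ e)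
    (h : ∀ ω ∈ A, pr W {ξ | PercT.mix (S ω) ω ξ ∈ Y} ≤ e) : pr W (Y ∩ A) ≤ e := by
  have h1 := PercT.pr_mix_le hS hA (fun ω => {ξ | PercT.mix (S ω) ω ξ ∈ Y}) Y h
    fun ω _ ξ hξ => hξ
  rw [Set.inter_comm]
  exact h1.trans (mul_le_of_le_one_right he (pr_le_one W A))

variable {T : Type} (c : ChnD T) (W : ℕ → Finset (ℤ × ℤ))

/-- The conditional estimate of an event of one move. -/
def CondEst (Y : (ℕ → ℕ) → ℕ → ℕ → Set Cfg) : Prop :=
  ∀ l e : ℕ, ∃ (B C α c₀ : ℝ) (L₀ : ℕ), 0 < α ∧ 0 ≤ B ∧ 0 ≤ C ∧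
    ∀ d : ℕ → ℕ, d (l + 1) = e → L₀ ≤ d l → c.Gro (l + 1) d →
      ∀ᶠ n in atTop, ∀ ω, (∀ i ≤ l, ω ∉ c.Bd d n i) → ∃ x y : ℝ, 0 ≤ x ∧ 0 < y ∧
        x * 2 ^ gap (d l) e ≤ c₀ * y ∧
        pr (W n) {ξ | PercT.mix (c.S d n l ω) ω ξ ∈ Y d n l} ≤ B * (C * (x / y) ^ α)

variable {c W}

/-- **An event of one move is rare** with a good past. -/
theorem rareY_of_est {Y : (ℕ → ℕ) → ℕ → ℕ → Set Cfg} (h : CondEst c W Y)
    (hstop : ∀ d n m ω ω', (∀ f ∈ c.S d n m ω, ω f = ω' f) → c.S d n m ω' = c.S d n m ω)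
    (hbad : ∀ d n m i, i ≤ m → ∀ ω ω', (∀ f ∈ c.S d n m ω, ω f = ω' f) →
      (ω ∈ c.Bd d n i ↔ ω' ∈ c.Bd d n i)) (l e : ℕ) (η : ℝ) (hη : 0 < η) :
    ∃ L : ℕ, ∀ d : ℕ → ℕ, d (l + 1) = e → L ≤ d l → c.Gro (l + 1) d →
      ∀ᶠ n in atTop, pr (W n) (Y d n l ∩ {ω | ∀ i ≤ l, ω ∉ c.Bd d n i}) ≤ η := by
  obtain ⟨B, C, α, c₀, L₀, hα, hB, hC, H⟩ := h l e
  obtain ⟨J, hJ⟩ := Sc.exists_scale hα (B * C) c₀ hη
  refine ⟨max L₀ (e + 3 * (J + 1)), fun d hd hL hG => ?_⟩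
  filter_upwards [H d hd ((le_max_left _ _).trans hL) hG] with n hn
  refine pr_past_le (A := {ω | ∀ i ≤ l, ω ∉ c.Bd d n i}) (hstop d n l) ?_ hη.le fun ω hω => ?_
  · intro ω hω ω' hf i hi
    rw [← hbad d n l i hi ω ω' hf]
    exact hω i hi
  · obtain ⟨x, y, hx, hy, hxy, hp⟩ := hn ω hω
    refine hp.trans ?_
    have key := hJ _ (le_gap ((le_max_right _ _).trans hL)) x y hx hy hxy
    rw [← mul_assoc]
    exact key

end Pool.Agent.SixB
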