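import Pool.Agent.Lib.SixB.S8LawS
import Pool.Agent.Lib.SixB.S8LawT
import Pool.Agent.Lib.SixB.S8MoveIn
import Pool.Agent.Lib.SixB.S8RareD

/-!
# Step 8: the law of one move and the regular stop, for one past

* `PastIn`: the data `MoveIn` of the move which starts in the state `s`;
* `HRec`: the meaning of the record (`avT`, `rnT`) at a stop through a stop side;
* `past_est`: `MvEst` and the bound for the stops which are not regular.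
-/

set_option autoImplicit false

namespace Pool.Agent.SixB.Tru

open Filter Finset Pool.Agent.Perc Pool.Agent.PercT Pool.Agent.PercX60 Pool.Agent.PercD
open Pool.Agent.SixB Pool.Agent.SixB.Rule Pool.Agent.SixB.Dct Pool.Agent.SixB.Mv
open Pool.Agent.SixB.Blow (subE)

/-- The data of the move which starts in the state `s`: true domain `U`, true tip side `τ`, classes
`κ`. -/
def PastIn (𝔇 : Dat) (d : ℕ → ℕ) (n : ℕ) (s : TS) (ω : Cfg) (q : Rule.Ndl) (D : Dom)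
    (U : Set (ℤ × ℤ)) (τ : UE × Bool) (κ : ℤ × ℤ → ℤ × ℤ) (E ρ : ℤ) : Prop :=
  ∃ (κt : Type) (m n' mU : ℕ) (κ₂ : Finset (ℤ × ℤ) → ℤ × ℤ → κt) (r : ℤ) (v : ℤ × ℤ),
    Mv.MoveIn D (𝔇.gr d s.x D) m n' (unt d n) mU (Xi s q ω) Set.univ U κ κ₂ r τ v E ρ (Sn n)

/-- The meaning of the record at a stop through a stop side. -/
def HRec (𝔇 : Dat) (d : ℕ → ℕ) (n : ℕ) (s : TS) (ω : Cfg) (q : Rule.Ndl) (D : Dom) : Prop :=
  ∀ r : ℕ, ∀ K ∈ D.fam (𝔇.gr d s.x D), ∀ ξ,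
    StopE (pS s.V q ω s.t) (blow (unt d n) (D.P \ D.inr (𝔇.gr d s.x D)))
      (runE (blow (unt d n) (D.inr (𝔇.gr d s.x D))) (subE (unt d n) D.A 0)
        (unt d n * D.n₁ (𝔇.gr d s.x D)) (unt d n * D.n₂ (𝔇.gr d s.x D))) (Xi s q ω ξ) →
    ((∀ c ∈ K, avT (unt d n) (tmx n) D (𝔇.gr d s.x D) (pS s.V q ω s.t) (Xi s q ω ξ) c) ∧
      rnT (unt d n) (tmx n) D (𝔇.gr d s.x D) (pS s.V q ω s.t) (Xi s q ω ξ)
        (capR (𝔇.gr d s.x D).M) = r ↔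
      Xi s q ω ξ ∈ MoveEv (pS s.V q ω s.t) (blow (unt d n) (D.P \ D.inr (𝔇.gr d s.x D)))
        (blow (unt d n) (Mv.fcs (𝔇.gr d s.x D).nm (D.inr (𝔇.gr d s.x D)) K))
        (runE (blow (unt d n) (D.inr (𝔇.gr d s.x D))) (subE (unt d n) D.A 0)
          (unt d n * D.runI (𝔇.gr d s.x D) r) (unt d n * D.runI (𝔇.gr d s.x D) (r + 1))))

/-- **The two estimates for one past.** -/
theorem past_est : ∃ C α : ℝ, 0 < C ∧ 0 < α ∧ ∀ {𝔇 : Dat} {d : ℕ → ℕ} {n : ℕ} {s : TS} {ω : Cfg}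
    {E ρ : ℤ}, 0 ≤ E → 0 ≤ ρ →
    ((∀ D, (𝔇.cs d s.x).run = some D → (𝔇.cs d s.x).ini = false → ¬ D.Void (𝔇.gr d s.x D) →
      ∃ q, s.q = some q ∧ HRec 𝔇 d n s ω q D ∧ ∃ U τ κ, τ.1 = pS s.V q ω s.t ∧
        PastIn 𝔇 d n s ω q D U τ κ E ρ) →
      MvEst 𝔇 d n (Sn n) s ω (facB 𝔇.kap (d s.x.length) * (C * ((E : ℝ) / ρ) ^ α))) ∧
    (∀ {q : Rule.Ndl} {D : Dom} {U : Set (ℤ × ℤ)} {τ : UE × Bool} {κ : ℤ × ℤ → ℤ × ℤ},
      PastIn 𝔇 d n s ω q D U τ κ E ρ → τ.1 = pS s.V q ω s.t →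
      pr (Sn n) {ξ | ¬ ∃ σ, D.regS (𝔇.gr d s.x D) (unt d n) U κ (pS s.V q ω s.t)
        (Xi s q ω ξ) σ} ≤ C * ((E : ℝ) / ρ) ^ α) := by
  obtain ⟨C, α, hC, hα, key⟩ := moveIn_est
  refine ⟨C, α, hC, hα, ?_⟩
  intro 𝔇 d n s ω E ρ hE hρ
  refine ⟨fun h D hD hi hV => ?_, ?_⟩
  · obtain ⟨q, hq, hrec, U, τ, κ, hτ, κt, m, n', mU, κ₂, r, v, hM⟩ := h D hD hi hV
    refine ⟨⟨m, n', hM.run⟩, q, hq, fun a => ?_⟩
    have h1 := (key hM).1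
      (av := fun ζ => avT (unt d n) (tmx n) D (𝔇.gr d s.x D) (pS s.V q ω s.t) ζ)
      (rn' := fun ζ => rnT (unt d n) (tmx n) D (𝔇.gr d s.x D) (pS s.V q ω s.t) ζ
        (capR (𝔇.gr d s.x D).M)) (by rw [hτ]; exact hrec) a
    refine h1.trans ?_
    have hR : (0 : ℝ) ≤ (E : ℝ) / ρ := div_nonneg (by exact_mod_cast hE) (by exact_mod_cast hρ)
    refine mul_le_mul_of_nonneg_right ?_ (by positivity)
    exact Dom.two_pow_card_fam D rfl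
  · rintro q D U τ κ ⟨κt, m, n', mU, κ₂, r, v, hM⟩ hτ
    have h2 := (key hM).2
    rwa [hτ] at h2

end Pool.Agent.SixB.Tru
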