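import Pool.Agent.Lib.SixB.S8LawZ

/-!
# Step 8: no gate at the stop arcs

`hno_of`: the vertices of the stop arcs are far from the tip and from the base, so there is no gate at
them (`HNo`) if there is no gate far from the tip and from the base.
-/

set_option autoImplicit false

namespace Pool.Agent.SixB.Tru

open Filter Finset Pool.Agent.Perc Pool.Agent.Perc6 Pool.Agent.PercT Pool.Agent.PercX60
open Pool.Agent.PercD
open Pool.Agent.SixB Pool.Agent.SixB.Rule Pool.Agent.SixB.Dct Pool.Agent.SixB.Mv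
open Pool.Agent.SixB.Near
open Pool.Agent.SixB.Blow (subE)
open Pool.Agent.SixB.Top (lf rg isCor_in_rg isCor_in_lf)
open Pool.Agent.Perc.Tips

variable {𝔇 : Dat} {d : ℕ → ℕ} {n : ℕ} {r E ρ R : ℤ} {s : TS} {ω : Cfg} {q : Rule.Ndl} {D : Dom}
  {κ : ℤ × ℤ → ℤ × ℤ} {m x i₁ j₁ t j₂ i₂ : ℕ}

/-- A face which is near `v` is not in a box around a vertex which is far from `v`. -/
theorem notMem_Bx {v w f : ℤ × ℤ} {R k l : ℤ} (h : l ≤ |w.1 - v.1| ∨ l ≤ |w.2 - v.2|)
    (hf1 : |f.1 - v.1| ≤ k) (hf2 : |f.2 - v.2| ≤ k) (hl : R + k < l) : f ∉ Bx w R := by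
  intro hf
  unfold Bx at hf
  rw [Finset.mem_coe, mem_RF] at hf
  rw [abs_le] at hf1 hf2
  rcases h with h | h
  · have : |w.1 - v.1| ≤ R + k := abs_le.2 ⟨by omega, by omega⟩
    omega
  · have : |w.2 - v.2| ≤ R + k := abs_le.2 ⟨by omega, by omega⟩
    omega

/-- **No gate at the stop arcs.** `hbas`: the base is near the target side. -/
theorem hno_of (h : RunI 𝔇 d n r s ω q D κ m x i₁ j₁ t j₂ i₂) (hu : 0 < unt d n)
    (h16 : 16 ∣ msh d s.x.length) (hv : ¬ D.Void (𝔇.gr d s.x D))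
    (hN : Sc.Num r E ρ R (unt d n) (msh d s.x.length))
    (hbas : LC.InB (lf (subE (unt d n) D.B 0)) r (ua (eS s.V q)))
    (hg : ∀ z, fa (pS s.V q ω s.t) ∉ Bx z R → fa (eS s.V q) ∉ Bx z R →
      ¬ (exS s.V q).Gate ω s.t z (8 * ρ)) :
    HNo 𝔇 d n r ρ s ω q D := by
  intro K hK i h1 h2 hgate
  have e0 := hN.hE
  have e1 := hN.Eρ
  have e2 := hN.r0
  have h0 := h.mvB₀ hu (msh_pos d _) h16 hv hN.rE (by omega) hN.far5 hN.far16
  have hA := (h0.runS hK).far_vert h0.offA' h1 h2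
  have hB := (h0.runS hK).far_vert h0.offB' h1 h2
  have hin : inn (blow (unt d n) (D.dom (𝔇.gr d s.x D))) (subE (unt d n) D.A 0)
      (blow (unt d n) (D.yK (𝔇.gr d s.x D) K)) = blow (unt d n) (D.gK (𝔇.gr d s.x D) K) :=
    h0.runK.blow_inn hu hK
  rw [hin] at hA hB
  refine hg _ (notMem_Bx hA (k := r + 1) ?_ ?_ ?_) (notMem_Bx hB (k := r + 1) ?_ ?_ ?_)
    (hgate.mono hN.width)
  all_goals
    have hR5 := hN.R5
    have hR16 := hN.R16
  · have hfa : fa (pS s.V q ω s.t) = ahead (tS s q ω) := (h.tst ω).fwd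
    have hc : IsCor (ahead (tS s q ω)) (rg (tS s q ω)) := isCor_in_rg _
    have hn := h.near
    rw [hfa, abs_le]
    unfold IsCor at hc
    unfold LC.InB at hn
    omega
  · have hfa : fa (pS s.V q ω s.t) = ahead (tS s q ω) := (h.tst ω).fwd
    have hc : IsCor (ahead (tS s q ω)) (rg (tS s q ω)) := isCor_in_rg _
    have hn := h.near
    rw [hfa, abs_le]
    unfold IsCor at hc
    unfold LC.InB at hn
    omega
  · omega
  · have hc : IsCor (fa (eS s.V q)) (ua (eS s.V q)) := (LC.side_cor (isSide_fa (eS s.V q)) (Or.inl ⟨rfl, rfl⟩)).1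
    rw [abs_le]
    unfold IsCor at hc
    unfold LC.InB at hbas
    omega
  · have hc : IsCor (fa (eS s.V q)) (ua (eS s.V q)) := (LC.side_cor (isSide_fa (eS s.V q)) (Or.inl ⟨rfl, rfl⟩)).1
    rw [abs_le]
    unfold IsCor at hc
    unfold LC.InB at hbas
    omega
  · omega

end Pool.Agent.SixB.Tru
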