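import Pool.Agent.Lib.SixB.S8InvR
import Pool.Agent.Lib.SixB.S8LawT

/-!
# Step 8: the record of a move and the event of the kernel, for the true chain

`hrec_tru`: the hypothesis `hrec` of `move_est`, `moveIn_est` for the functions `avT`, `rnT` of the chain
and for the configurations `Xi s q ω ξ` which are read by the strand after the past `ω`.
-/

set_option autoImplicit false

namespace Pool.Agent.SixB.Tru

open Finset Pool.Agent.Perc Pool.Agent.PercT Pool.Agent.PercX60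
open Pool.Agent.SixB Pool.Agent.SixB.Rule Pool.Agent.SixB.Dct Pool.Agent.SixB.Mv
open Pool.Agent.SixB.Blow (subE)

variable {n : ℕ} {s : TS} {q : Rule.Ndl} {D : Dom} {g : Grd} {ω : Cfg} {u : ℕ}

/-- **A bound for the first time** with the property `P`, for the configurations after the past `ω`. -/
theorem first_lt_Xi (hq : s.q = some q) (hV : s.V ⊆ Box n)
    (hk : ∃ k, NdF s.V q.1 k ∧ PercU.vtx k = q.2) (ξ : Cfg) {σ : ℕ} {P : UE → Prop}
    (h1 : ∀ i < σ, ¬ P (pth (Xi s q ω ξ) (pS s.V q ω s.t) i))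
    (h2 : P (pth (Xi s q ω ξ) (pS s.V q ω s.t) σ)) : σ < tmx n := by
  have e : pS s.V q (mix (expS s ω) ω ξ) s.t = pS s.V q ω s.t := tipOK s ω q hq ξ
  unfold Xi at h1 h2
  rw [← e] at h1 h2
  exact first_lt hV hk h1 h2

/-- **The record and the event of the kernel for the true chain.** -/
theorem hrec_tru (hq : s.q = some q) (hV : s.V ⊆ Box n)
    (hk : ∃ k, NdF s.V q.1 k ∧ PercU.vtx k = q.2) (hu : 0 < u) (hD : D.Val g) (hv : ¬ D.Void g) :
    ∀ r : ℕ, ∀ K ∈ D.fam g, ∀ ξ, StopE (pS s.V q ω s.t) (blow u (D.P \ D.inr g))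
      (runE (blow u (D.inr g)) (subE u D.A 0) (u * D.n₁ g) (u * D.n₂ g)) (Xi s q ω ξ) →
      ((∀ i ∈ K, (fun ζ => avT u (tmx n) D g (pS s.V q ω s.t) ζ) (Xi s q ω ξ) i) ∧
        (fun ζ => rnT u (tmx n) D g (pS s.V q ω s.t) ζ (capR g.M)) (Xi s q ω ξ) = r ↔
        Xi s q ω ξ ∈ MoveEv (pS s.V q ω s.t) (blow u (D.P \ D.inr g))
          (blow u (Mv.fcs g.nm (D.inr g) K))
          (runE (blow u (D.inr g)) (subE u D.A 0) (u * D.runI g r) (u * D.runI g (r + 1)))) := by
  rintro r K hK ξ ⟨σ, h1, h2, h3⟩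
  have h4 : σ ≤ tmx n := (first_lt_Xi hq hV hk ξ
    (P := fun e => fa e ∈ blow u (D.P \ D.inr g)) h1 h2).le
  exact hD.rec_moveEv hv hu h1 h2 h3 h4
    (fun c hc => (Dom.atK_of_mem hK).full c hc) (cap := capR g.M) (r := r) le_rfl

end Pool.Agent.SixB.Tru
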