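import Pool.Agent.Lib.SixB.S8LawS

/-!
# Step 8: the numbers of a move

`Sc.Scl.num`: the inequalities of the data of a move for the radius `r ≤ 3 * C * D` of the state, the side
`u * L` of the cells of the move (`16 ∣ L`), the width `8 * ρ` of the gates and their distance
`(u * L) / 64` from the tip and from the base.
-/

set_option autoImplicit false

namespace Pool.Agent.SixB.Sc

/-- The inequalities of a move. `R`: the distance of the gates from the tip and from the base. -/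
structure Num (r E ρ R : ℤ) (u : ℕ) (L : ℤ) : Prop where
  r0 : 0 ≤ r
  hE : 0 < E
  rE : 2 * r + 2 ≤ E
  r100 : 100 * r + 100 ≤ E
  Eρ : 100 * E ≤ ρ
  far5 : 5 * ρ + 10 * E + 11 < u * (L / 5)
  far16 : 3 * r + 6 ≤ u * (L / 16)
  width : 6 * ρ + 2 * r + 1 ≤ 8 * ρ
  gate5 : 6 * ρ + 3 * r + 3 < u * (L / 5)
  gate16 : 6 * ρ + 3 * r + 3 < u * (L / 16)
  R0 : 0 < R
  R5 : R + 100 * r + 100 < u * (L / 5)
  R16 : R + 100 * r + 100 < u * (L / 16)
  ρR : 100 * ρ ≤ R
  RL : 64 * R = u * L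

/-- The side of the cells of exponent `b + 6`. -/
theorem ls_six {d : ℕ → ℕ} (n : ℕ) {b : ℕ} (h : b + 6 ≤ d 0) :
    64 * ls d n (b + 6) = ls d n b := by
  rw [ls_mul n (show b ≤ b + 6 by omega) h, show b + 6 - b = 6 by omega]
  ring

/-- **The numbers** from the scales. -/
theorem Scl.num {c C D E ρ L r R : ℤ} {u : ℕ} (h : Scl c D E ρ (u * L)) (hC : 1 ≤ C)
    (hc : 10000 * C ≤ c) (hL : 16 ∣ L) (hL0 : 0 < L) (hr0 : 0 ≤ r) (hr : r ≤ 3 * C * D)
    (hR : 64 * R = u * L) : Num r E ρ R u L := by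
  have hc1 : 10000 ≤ c := by nlinarith
  have h1 := h.mono (c' := 10000) (by norm_num) hc1
  have h2 := h.mono (c' := 10000 * C) (by positivity) hc
  have a0 := h1.D0
  have a1 := h2.DE
  have a2 := h1.Eρ
  have a3 := h1.ρL
  have hCD : D ≤ C * D := by nlinarith
  have e1 : 10000 * C * D = 10000 * (C * D) := by ring
  have e2 : 3 * C * D = 3 * (C * D) := by ring
  rw [e1] at a1
  rw [e2] at hr
  have b1 : (u : ℤ) * (L / 16) = (u * L) / 16 := ls_div hL
  have b2 : (u : ℤ) * (L / 16) ≤ u * (L / 5) :=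
    mul_le_mul_of_nonneg_left (by omega) (by positivity)
  constructor <;> omega

end Pool.Agent.SixB.Sc
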