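import Pool.Agent.Lib.SixB.S8LawD
import Pool.Agent.Lib.SixB.S8LawM
import Pool.Agent.Lib.SixB.S8LawN
import Pool.Agent.Lib.SixB.S8LawW
import Pool.Agent.Lib.SixB.S8MoveK
import Pool.Agent.Lib.SixB.S8Bad

/-!
# Step 8: the data of the pasts from the invariant

* `HNo`: no gate at the vertices of the stop arcs;
* `RunI.pastIn`: the data `PastIn` from the invariant `RunI`, the numbers `Num` and `HNo`;
* `pastOK_of`: `PastOK` for bad events which contain the failure of the invariant.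
-/

set_option autoImplicit false

namespace Pool.Agent.SixB.Tru

open Filter Finset Pool.Agent.Perc Pool.Agent.PercT Pool.Agent.PercX60 Pool.Agent.PercD
open Pool.Agent.SixB Pool.Agent.SixB.Rule Pool.Agent.SixB.Dct Pool.Agent.SixB.Mv
open Pool.Agent.SixB.Blow (subE)

variable {𝔇 : Dat} {d : ℕ → ℕ} {n : ℕ} {r E ρ R : ℤ} {s : TS} {ω : Cfg} {q : Rule.Ndl} {D : Dom}
  {κ : ℤ × ℤ → ℤ × ℤ} {m x i₁ j₁ t j₂ i₂ : ℕ}

/-- There is no gate at the vertices of the stop arcs. -/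
def HNo (𝔇 : Dat) (d : ℕ → ℕ) (n : ℕ) (r ρ : ℤ) (s : TS) (ω : Cfg) (q : Rule.Ndl) (D : Dom) :
    Prop :=
  ∀ K ∈ D.fam (𝔇.gr d s.x D), ∀ i, unt d n * D.n1 (𝔇.gr d s.x D) K ≤ i →
    i ≤ unt d n * D.n2 (𝔇.gr d s.x D) K → ¬ (exS s.V q).Gate ω s.t
      (vert (blow (unt d n) (D.gK (𝔇.gr d s.x D) K)) (subE (unt d n) D.A 0) i)
      (6 * ρ + 2 * r + 1)

/-- **The data of the move** from the invariant. -/
theorem RunI.pastIn (h : RunI 𝔇 d n r s ω q D κ m x i₁ j₁ t j₂ i₂) (hu : 0 < unt d n)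
    (h16 : 16 ∣ msh d s.x.length) (hv : ¬ D.Void (𝔇.gr d s.x D))
    (hN : Sc.Num r E ρ R (unt d n) (msh d s.x.length)) (hV : s.V ⊆ Box n)
    (hW : (exS s.V q).Wll ω) (he : fb (eS s.V q) ∉ FU s.V \ QF q.1)
    (hno : HNo 𝔇 d n r ρ s ω q D) :
    PastIn 𝔇 d n s ω q D (uS s q ω) (tS s q ω) κ E ρ := by
  have h0 := hN.hE
  have h1 := hN.Eρ
  have key := h.mvB hu (msh_pos d _) h16 hv hN.rE (by omega) hN.far5 hN.far16 hN.gate5 hW he hno
  exact ⟨_, _, _, _, _, _, _, key.moveIn (uS_sub_Sn hV h.fre)⟩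

/-- **The data of all good pasts.** `hI`: outside of the bad events the invariant holds, the true needle
is running if the coarse domain is, and there is no gate at the stop arcs. -/
theorem pastOK_of {C : ℤ} {G : ℕ → ℕ → ℕ} {Bd : (ℕ → ℕ) → ℕ → ℕ → Set Cfg} (hC : 1 ≤ C)
    (hq : ∀ d n i ω, ω ∉ Bd d n i → ∀ D, (𝔇.cs d (tst 𝔇 d n ω i).x).run = some D →
      ∃ q, (tst 𝔇 d n ω i).q = some q)
    (hI : ∀ d n i ω, ω ∉ Bd d n i →
      RunV 𝔇 d n (rad C (unt d n) d (tst 𝔇 d n ω i).x.length) (tst 𝔇 d n ω i) ω)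
    (hvoid : ∀ {d n r s ω q D κ m x}, RunN 𝔇 d n r s ω q D κ m x → 0 < unt d n →
      16 ∣ msh d s.x.length → 3 * r + 6 ≤ unt d n * (msh d s.x.length / 16) →
      D.Void (𝔇.gr d s.x D))
    (hno : ∀ {d n i ω q D κ m x i₁ j₁ t j₂ i₂ E},
      RunI 𝔇 d n (rad C (unt d n) d (tst 𝔇 d n ω i).x.length) (tst 𝔇 d n ω i) ω q D κ m x
        i₁ j₁ t j₂ i₂ → ω ∉ Bd d n i → 0 < unt d n →
      16 ∣ msh d (tst 𝔇 d n ω i).x.length →
      ¬ D.Void (𝔇.gr d (tst 𝔇 d n ω i).x D) →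
      Sc.Num (rad C (unt d n) d (tst 𝔇 d n ω i).x.length) E
        (Sc.ls d n (Sc.eR (d i) (d (i + 1)))) (gR d n i) (unt d n)
        (msh d (tst 𝔇 d n ω i).x.length) →
      HNo 𝔇 d n (rad C (unt d n) d (tst 𝔇 d n ω i).x.length)
        (Sc.ls d n (Sc.eR (d i) (d (i + 1)))) (tst 𝔇 d n ω i) ω q D) :
    PastOK C 𝔇 G Bd := by
  refine ⟨10000 * C, fun m ℓ d hd hℓ hdec hgro => ?_⟩
  filter_upwards [eventually_ge_atTop (2 ^ d 0)] with n hn hscl ω hω D hD hi hV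
  have h0 : d m ≤ d 0 := hdec.anti m (by omega) 0 (by omega)
  have hu : 0 < unt d n := Nat.div_pos hn (by positivity)
  have hlen : (tst 𝔇 d n ω m).x.length = m + 1 := tst_len 𝔇 d n ω m
  have h16 : (16 : ℤ) ∣ msh d (m + 1) := msh_16 (by omega)
  have hbd := hω m le_rfl
  obtain ⟨q, hqq⟩ := hq d n m ω hbd D hD
  have hLu : Sc.ls d n ℓ = (unt d n : ℤ) * msh d (m + 1) := by
    rw [← hd]
    exact Sc.ls_eq_msh d n (m + 1)
  have hnum : Sc.Num (rad C (unt d n) d (m + 1)) (Sc.ls d n (Sc.eS (d m) ℓ))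
      (Sc.ls d n (Sc.eR (d m) ℓ)) (gR d n m) (unt d n) (msh d (m + 1)) := by
    have hscl' := hscl
    rw [hLu] at hscl'
    refine hscl'.num hC le_rfl h16 (msh_pos d _) ?_ ?_ ?_
    · have hs : (0 : ℤ) ≤ ∑ j ∈ range (m + 1), msh d j :=
        Finset.sum_nonneg fun j _ => (msh_pos d j).le
      unfold rad
      have : (0 : ℤ) ≤ C * (unt d n : ℤ) := by positivity
      exact mul_nonneg this (by linarith)
    · exact hdec.rad_ls (m := m) (by omega) n (by omega)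
    · rw [← hLu]
      unfold gR
      rw [hd]
      exact Sc.ls_six n (by omega)
  have hRV := hI d n m ω hbd q D hqq hD hi
  have hval : D.Val (𝔇.gr d (tst 𝔇 d n ω m).x D) :=
    val_gr hD (msh_pos d _) (by rw [hlen]; exact h16)
  have hrec : HRec 𝔇 d n (tst 𝔇 d n ω m) ω q D := by
    intro r' K hK ξ hS
    exact hrec_tru hqq (tst_V_sub m) (tst_ndF hqq).2 hu hval hV r' K hK ξ hS
  have hfin : ∀ κ m' x i₁ j₁ t j₂ i₂,
      RunI 𝔇 d n (rad C (unt d n) d (tst 𝔇 d n ω m).x.length) (tst 𝔇 d n ω m) ω q D κ m' x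
        i₁ j₁ t j₂ i₂ →
      PastIn 𝔇 d n (tst 𝔇 d n ω m) ω q D (uS (tst 𝔇 d n ω m) q ω) (tS (tst 𝔇 d n ω m) q ω) κ
        (Sc.ls d n (Sc.eS (d m) ℓ)) (Sc.ls d n (Sc.eR (d m) ℓ)) := by
    intro κ m' x i₁ j₁ t j₂ i₂ hR
    have hN := hno hR hbd hu (by rw [hlen]; exact h16) hV (by rw [hlen, hd]; exact hnum)
    rw [hd] at hN
    exact hR.pastIn hu (by rw [hlen]; exact h16) hV (by rw [hlen]; exact hnum) (tst_V_sub m)
      (tst_wll hqq) (tst_fb hqq) hN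
  refine ⟨q, hqq, hrec, ?_, hfin⟩
  rcases hRV with ⟨κ, m', x, i₁, j₁, t, j₂, i₂, h1⟩ | ⟨κ, m', x, h1⟩
  · exact ⟨κ, m', x, i₁, j₁, t, j₂, i₂, h1⟩
  · refine absurd (hvoid h1 hu (by rw [hlen]; exact h16) ?_) hV
    rw [hlen]
    exact hnum.far16

end Pool.Agent.SixB.Tru
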