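import Pool.Agent.Lib.SixB.S8Lay
import Pool.Agent.Lib.SixB.S8Lab
import Pool.Agent.Lib.SixB.S8Leak

/-!
# Step 8: rooms of the fresh domain outside of the coarse polygon

`U` = fresh faces (a disc), `P ⊆ U` = coarse polygon (a disc), classes `κ` of the faces (`Appx`: `P` is
saturated, classes are connected and of diameter `< D`, every class adjacent to `P` contains a face
outside `U`). `Col` = faces of `U \ P` joined inside of `U ∩ class` to a face adjacent to `P`; a room is an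
edge component of `U \ (P ∪ Col)`.

* `mouth`: the faces of `Col` adjacent to one room are within distance `2 * D` of each other.
-/

set_option autoImplicit false

namespace Pool.Agent.SixB.Lk

open Finset Pool.Agent.Perc Pool.Agent.PercT Pool.Agent.Perc6 Pool.Agent.Perc6.C2Aux
open Pool.Agent.SixB.Top
open Pool.Agent.Perc.Tips (ahead rv)

variable {ι : Type*} {U P : Set (ℤ × ℤ)} {κ : ℤ × ℤ → ι} {D : ℤ}

/-- The coarse polygon `P` approximates the domain `U` up to the classes of `κ`. -/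
structure Appx (U P : Set (ℤ × ℤ)) (κ : ℤ × ℤ → ι) (D : ℤ) : Prop where
  sub : P ⊆ U
  sat : ∀ x y, κ x = κ y → x ∈ P → y ∈ P
  chn : ∀ x y, κ x = κ y → ChI {z | κ z = κ x} x y
  diam : ∀ x y, κ x = κ y → |x.1 - y.1| < D ∧ |x.2 - y.2| < D
  out : ∀ f ∈ P, ∀ g, AdjF f g → g ∉ P → ∃ x, κ x = κ g ∧ x ∉ U

/-- The faces of `U \ P` joined inside of `U` and one class to a face adjacent to `P`. -/
def Col (U P : Set (ℤ × ℤ)) (κ : ℤ × ℤ → ι) : Set (ℤ × ℤ) :=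
  {g | ∃ f ∈ P, ∃ g₀, AdjF f g₀ ∧ g₀ ∈ U ∧ g₀ ∉ P ∧ ChI (U ∩ {z | κ z = κ g₀}) g₀ g}

theorem col_sub (h : Appx U P κ D) {g : ℤ × ℤ} (hg : g ∈ Col U P κ) : g ∈ U ∧ g ∉ P := by
  obtain ⟨f, hf, g₀, h1, h2, h3, h4⟩ := hg
  have h5 := ChI.mem (S := U ∩ {z | κ z = κ g₀}) ⟨h2, rfl⟩ h4
  exact ⟨h5.1, fun h6 => h3 (h.sat _ _ h5.2 h6)⟩

/-- Chains as even sets. -/
theorem chain_edges {S : Set (ℤ × ℤ)} {f g : ℤ × ℤ} (hf : f ∈ S) (h : ChI S f g) :
    ∃ M : Set UE, (∀ a ∈ M, ∀ k, IsSide k a → k ∈ S) ∧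
      ∀ k, parAt M k = ind2 (k = f) + ind2 (k = g) := by
  have h1 : Relation.ReflTransGen (StepC Sᶜ) f g := h.stepC (W := Sᶜ) fun f hf hf' => hf' hf
  obtain ⟨-, M, hM, hpar⟩ := chain_toggle (F := Sᶜ) (by simpa using hf) h1
  refine ⟨M, fun a ha k hk => ?_, hpar⟩
  by_contra hk'
  exact hM a ha k hk' hk

theorem compT_chi {W : Set (ℤ × ℤ)} {x a b : ℤ × ℤ} (hx : x ∈ W) (ha : a ∈ compT W x)
    (hb : b ∈ compT W x) : ChI (compT W x) a b :=
  compT_chain ha ((ChI.symm hx ha).trans hb)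

/-- The potential is constant on the boundary of `U`. -/
theorem pot_bd {M : Set UE} {Φ : ℤ × ℤ → ZMod 2} (hUf : U.Finite) (hUc : Top.EConn U) (hU : Esc U)
    (hΦ : IsPot U M Φ) (hM : ∀ a ∈ M, ∀ k, IsSide k a → k ∈ U) :
    ∃ c : ZMod 2, ∀ a, BdU U a → Φ (ua a) = c ∧ Φ (ub a) = c := by
  classical
  by_cases hne : ∃ a, BdU U a
  · obtain ⟨a₀, ha₀⟩ := hne
    obtain ⟨d, hB⟩ := exists_BD ha₀
    have hside : ∀ a, BdU U a → Φ (ua a) = Φ (ub a) := by
      rintro a ⟨⟨f, hf, hfa⟩, g, hg, hga⟩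
      by_contra hne
      exact hg (hM a ((hΦ f hf a hfa).2 hne) g hga)
    have hlr : ∀ A, BD U A → Φ (lf A) = Φ (rg A) := by
      intro A hA
      have h1 := hside A.1 hA.bdU
      rcases joins_lf_rg A with ⟨h2, h3⟩ | ⟨h2, h3⟩
      · rw [h2, h3, h1]
      · rw [h2, h3, h1]
    have hall : ∀ n, Φ (lf ((sc U)^[n] (a₀, d))) = Φ (lf (a₀, d)) := by
      intro n
      induction n with
      | zero => rfl
      | succ n ih =>
        rw [Function.iterate_succ_apply', lf_sc, ← hlr _ (hB.iterate n), ih]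
    refine ⟨Φ (lf (a₀, d)), fun a ha => ?_⟩
    obtain ⟨n, hn⟩ := contour_all hUf hUc hU hB ha
    have h1 := hside a ha
    have h2 : Φ (ua a) = Φ (lf ((sc U)^[n] (a₀, d))) := by
      rcases joins_lf_rg ((sc U)^[n] (a₀, d)) with ⟨h2, h3⟩ | ⟨h2, h3⟩
      · rw [h2, hn]
      · rw [h2, hn, h1]
    rw [← h1, h2, hall]
    exact ⟨rfl, rfl⟩
  · exact ⟨0, fun a ha => absurd ⟨a, ha⟩ hne⟩

/-- The potential on a component of `U ∩ class` which is not crossed and touches a face outside `U`. -/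
theorem pot_class (h : Appx U P κ D) {M : Set UE} {Φ : ℤ × ℤ → ZMod 2} (hΦ : IsPot U M Φ)
    {c : ZMod 2} (hc : ∀ a, BdU U a → Φ (ua a) = c ∧ Φ (ub a) = c) {f o : ℤ × ℤ} (hf : f ∈ P)
    (hfo : AdjF f o) (hoU : o ∈ U) (hoP : o ∉ P)
    (hno : ∀ k, ChI (U ∩ {z | κ z = κ o}) o k → ∀ a, IsSide k a → a ∉ M) {a : UE}
    (ha : IsSide o a) : Φ (ua a) = c ∧ Φ (ub a) = c := by
  obtain ⟨x, hx, hxU⟩ := h.out f hf o hfo hoP
  have hch : Relation.ReflTransGen (StepC {z | κ z = κ o}ᶜ) o x :=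
    (h.chn o x hx.symm).stepC (W := {z | κ z = κ o}ᶜ) fun f hf hf' => hf' hf
  obtain ⟨t, ht, k, hk, hkt⟩ := exists_root (K := {z | κ z = κ o}) hoU rfl hxU hch
  have hconv : ∀ k ∈ cmpC U {z | κ z = κ o} o, ChI (U ∩ {z | κ z = κ o}) o k := by
    intro k hk
    have hk' : Relation.ReflTransGen (StepC (U ∩ {z | κ z = κ o})ᶜ) o k := hk
    have e : StepC (U ∩ {z | κ z = κ o})ᶜ = fun a b => AdjF a b ∧ b ∈ U ∩ {z | κ z = κ o} := by
      funext a b
      simp only [StepC, Set.mem_compl_iff, not_not]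
    rw [e] at hk'
    exact hk'
  have hcst : ∀ k ∈ cmpC U {z | κ z = κ o} o, ∀ a, IsSide k a → Φ (ua a) = Φ (ub a) := by
    intro k hk a ha
    by_contra hne
    exact hno k (hconv k hk) a ha ((hΦ k (cmpC_sub (K := {z | κ z = κ o}) hoU rfl hk).1 a ha).2 hne)
  have h1 := lab_chain_const hcst hk
  have h2 := lab_face_const (hcst k hk) hkt
  have h3 := lab_face_const (hcst o mem_cmpC) ha
  have h4 := (hc t ht).1
  rw [h3.1, h3.2, ← h1, ← h2.1, h4]
  exact ⟨rfl, rfl⟩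

theorem ahead_bd {P : Set (ℤ × ℤ)} {B : UE × Bool} (hB : BD P B) {f g : ℤ × ℤ} (hf : f ∈ P) (hg : g ∉ P)
    (h1 : IsSide f B.1) (h2 : IsSide g B.1) : ahead B = f ∧ ahead (rv B) = g := by
  have hne : f ≠ g := fun h => hg (h ▸ hf)
  have h3 : IsSide (ahead B) B.1 := isSide_ahead B.1 B.2
  have h4 : IsSide (ahead (rv B)) B.1 := isSide_ahead B.1 (!B.2)
  constructor
  · rcases side_two hne h1 h2 h3 with h | h
    · exact h
    · exact absurd (h ▸ hB.1) hg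
  · rcases side_two hne h1 h2 h4 with h | h
    · exact absurd (h ▸ hf) hB.2
    · exact h

theorem out_near (F : Set (ℤ × ℤ)) (A : UE × Bool) :
    |(ahead (rv A)).1 - (ahead (rv (sc F A))).1| ≤ 1 ∧
      |(ahead (rv A)).2 - (ahead (rv (sc F A))).2| ≤ 1 := by
  have h1 := isCor_out_sc F A
  have h2 : IsCor (ahead (rv A)) (rg A) := (isCor_rg_iff A _).2 (Or.inl rfl)
  unfold IsCor at h1 h2
  rw [abs_le, abs_le]
  omega

theorem z2_eight (f2 f1 g1 a' a b g2 b' : ZMod 2) :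
    f2 + f1 + (g1 + a') + (a + b + (g2 + b')) + (f1 + g1 + (f2 + g2) + (a + a' + (b + b'))) = 0 := by
  have h2 : (2 : ZMod 2) = 0 := rfl
  linear_combination (f2 + f1 + g1 + a' + a + b + g2 + b') * h2

theorem sd_or {X Y : Set UE} {s : UE} (h : s ∈ symmDiff X Y) : s ∈ X ∨ s ∈ Y := by
  rcases h with h | h
  · exact Or.inl h.1
  · exact Or.inr h.1

theorem sd_left {X Y : Set UE} {s : UE} (h : s ∈ X) (h' : s ∉ Y) : s ∈ symmDiff X Y := Or.inl ⟨h, h'⟩

theorem sd_right {X Y : Set UE} {s : UE} (h : s ∉ X) (h' : s ∈ Y) : s ∈ symmDiff X Y := Or.inr ⟨h', h⟩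

theorem sd_not {X Y : Set UE} {s : UE} (h : s ∉ X) (h' : s ∉ Y) : s ∉ symmDiff X Y := fun h1 =>
  (sd_or h1).elim h h'

/-- A change of class along the contour. -/
theorem exists_change {q : ℕ → Prop} {lo hi : ℕ} (hlt : lo ≤ hi) (h1 : q lo) (h2 : ¬ q hi) :
    ∃ i, lo ≤ i ∧ i < hi ∧ q i ∧ ¬ q (i + 1) := by
  induction hi, hlt using Nat.le_induction with
  | base => exact absurd h1 h2
  | succ n hn ih =>
    by_cases h : q n
    · exact ⟨n, hn, by omega, h, h2⟩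
    · obtain ⟨i, h3, h4, h5, h6⟩ := ih h
      exact ⟨i, h3, by omega, h5, h6⟩

/-- **Mouth lemma**: the faces of `Col` adjacent to one room are near each other. -/
theorem mouth (hUf : U.Finite) (hUc : Top.EConn U) (hU : Esc U) (hPc : Top.EConn P) (hP : Esc P)
    (h : Appx U P κ D) {x a b a' b' : ℤ × ℤ} (hx : x ∈ U \ (P ∪ Col U P κ))
    (ha : a ∈ compT (U \ (P ∪ Col U P κ)) x) (hb : b ∈ compT (U \ (P ∪ Col U P κ)) x)
    (haa : AdjF a a') (hbb : AdjF b b') (ha' : a' ∈ Col U P κ) (hb' : b' ∈ Col U P κ) :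
    |a'.1 - b'.1| < 2 * D ∧ |a'.2 - b'.2| < 2 * D := by
  classical
  have hPf : P.Finite := hUf.subset h.sub
  obtain ⟨f1, hf1, g1, hfg1, hg1U, hg1P, ch1⟩ := ha'
  obtain ⟨f2, hf2, g2, hfg2, hg2U, hg2P, ch2⟩ := hb'
  have ka : κ a' = κ g1 := (ChI.mem (S := U ∩ {z | κ z = κ g1}) ⟨hg1U, rfl⟩ ch1).2
  have kb : κ b' = κ g2 := (ChI.mem (S := U ∩ {z | κ z = κ g2}) ⟨hg2U, rfl⟩ ch2).2
  -- it is enough to find two faces of the two classes near each other
  have hfin : ∀ h1 h2 : ℤ × ℤ, κ h1 = κ g1 → κ h2 = κ g2 → |h1.1 - h2.1| ≤ 1 → |h1.2 - h2.2| ≤ 1 →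
      |a'.1 - b'.1| < 2 * D ∧ |a'.2 - b'.2| < 2 * D := by
    intro h1 h2 k1 k2 d1 d2
    have e1 := h.diam a' h1 (ka.trans k1.symm)
    have e2 := h.diam b' h2 (kb.trans k2.symm)
    rw [abs_lt, abs_lt] at e1 e2
    rw [abs_le] at d1 d2
    rw [abs_lt, abs_lt]
    omega
  by_cases hk12 : κ g1 = κ g2
  · exact hfin g1 g1 rfl hk12 (by simp) (by simp)
  obtain ⟨hne1, s1, h1f, h1g⟩ := hfg1
  obtain ⟨hne2, s2, h2f, h2g⟩ := hfg2
  obtain ⟨hnea, sa, haf, hag⟩ := haa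
  obtain ⟨hneb, sb, hbf, hbg⟩ := hbb
  have hs12 : s1 ≠ s2 := by
    rintro rfl
    rcases side_two hne1 h1f h1g h2g with e | e
    · exact hg2P (e ▸ hf1)
    · exact hk12 (by rw [e])
  set W : Set (ℤ × ℤ) := U \ (P ∪ Col U P κ) with hW
  set Rm : Set (ℤ × ℤ) := compT W x with hRm
  have hRmW : Rm ⊆ W := compT_sub hx
  set K1 : Set (ℤ × ℤ) := U ∩ {z | κ z = κ g1} with hK1
  set K2 : Set (ℤ × ℤ) := U ∩ {z | κ z = κ g2} with hK2
  have hK1P : ∀ k ∈ K1, k ∉ P := fun k hk hkP => hg1P (h.sat _ _ hk.2 hkP)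
  have hK2P : ∀ k ∈ K2, k ∉ P := fun k hk hkP => hg2P (h.sat _ _ hk.2 hkP)
  have haP : a' ∉ P := hK1P _ (ChI.mem (S := K1) ⟨hg1U, rfl⟩ ch1)
  have hbP : b' ∉ P := hK2P _ (ChI.mem (S := K2) ⟨hg2U, rfl⟩ ch2)
  have haU : a' ∈ K1 := ChI.mem (S := K1) ⟨hg1U, rfl⟩ ch1
  have hbU : b' ∈ K2 := ChI.mem (S := K2) ⟨hg2U, rfl⟩ ch2
  obtain ⟨M1, m1, p1⟩ := chain_edges hf2 (show ChI P f2 f1 from hPc _ hf2 _ hf1)
  obtain ⟨M2, m2, p2⟩ := chain_edges (S := K1) ⟨hg1U, rfl⟩ ch1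
  obtain ⟨M3, m3, p3⟩ := chain_edges ha (compT_chi hx ha hb)
  obtain ⟨M4, m4, p4⟩ := chain_edges (S := K2) ⟨hg2U, rfl⟩ ch2
  set M : Set UE := symmDiff (symmDiff (symmDiff M1 M2) (symmDiff M3 M4))
    (symmDiff (symmDiff {s1} {s2}) (symmDiff {sa} {sb})) with hM
  have hpar : ∀ k, parAt M k = 0 := by
    intro k
    rw [hM]
    simp only [parAt_symmDiff]
    rw [p1, p2, p3, p4, parAt_side hne1 h1f h1g, parAt_side hne2 h2f h2g, parAt_side hnea haf hag,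
      parAt_side hneb hbf hbg]
    exact z2_eight _ _ _ _ _ _ _ _
  have hMs : ∀ s ∈ M, (s ∈ M1 ∨ s ∈ M2) ∨ (s ∈ M3 ∨ s ∈ M4) ∨ (s = s1 ∨ s = s2) ∨ s = sa ∨ s = sb := by
    intro s hs
    rcases sd_or hs with h1 | h1
    · rcases sd_or h1 with h2 | h2
      · exact Or.inl (sd_or h2)
      · exact Or.inr (Or.inl (sd_or h2))
    · rcases sd_or h1 with h2 | h2
      · exact Or.inr (Or.inr (Or.inl (sd_or h2)))
      · exact Or.inr (Or.inr (Or.inr (sd_or h2)))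
  have hMf : ∀ s ∈ M, ∀ k, IsSide k s → k ∈ P ∨ k ∈ K1 ∨ k ∈ Rm ∨ k ∈ K2 := by
    intro s hs k hk
    rcases hMs s hs with (h1 | h1) | (h1 | h1) | (rfl | rfl) | rfl | rfl
    · exact Or.inl (m1 s h1 k hk)
    · exact Or.inr (Or.inl (m2 s h1 k hk))
    · exact Or.inr (Or.inr (Or.inl (m3 s h1 k hk)))
    · exact Or.inr (Or.inr (Or.inr (m4 s h1 k hk)))
    · rcases side_two hne1 h1f h1g hk with rfl | rfl
      · exact Or.inl hf1
      · exact Or.inr (Or.inl ⟨hg1U, rfl⟩)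
    · rcases side_two hne2 h2f h2g hk with rfl | rfl
      · exact Or.inl hf2
      · exact Or.inr (Or.inr (Or.inr ⟨hg2U, rfl⟩))
    · rcases side_two hnea haf hag hk with rfl | rfl
      · exact Or.inr (Or.inr (Or.inl ha))
      · exact Or.inr (Or.inl haU)
    · rcases side_two hneb hbf hbg hk with rfl | rfl
      · exact Or.inr (Or.inr (Or.inl hb))
      · exact Or.inr (Or.inr (Or.inr hbU))
  have hMU : ∀ s ∈ M, ∀ k, IsSide k s → k ∈ U := by
    intro s hs k hk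
    rcases hMf s hs k hk with h1 | h1 | h1 | h1
    · exact h.sub h1
    · exact h1.1
    · exact (hRmW h1).1
    · exact h1.1
  obtain ⟨Φ, hΦ⟩ := (hU.hasPot' hUf) M fun f _ => evenAt_iff.2 (hpar f)
  obtain ⟨c, hc⟩ := pot_bd hUf hUc hU hΦ hMU
  -- the crossed sides of the contour of `P`
  have hcross : ∀ B, BD P B → B.1 ≠ s1 → B.1 ≠ s2 → B.1 ∉ M := by
    intro B hB n1 n2 hBM
    have i1 : IsSide (ahead B) B.1 := isSide_ahead B.1 B.2
    have i2 : IsSide (ahead (rv B)) B.1 := isSide_ahead B.1 (!B.2)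
    rcases hMs _ hBM with (h1 | h1) | (h1 | h1) | (h1 | h1) | h1 | h1
    · exact hB.2 (m1 _ h1 _ i2)
    · exact hK1P _ (m2 _ h1 _ i1) hB.1
    · exact (hRmW (m3 _ h1 _ i1)).2 (Or.inl hB.1)
    · exact hK2P _ (m4 _ h1 _ i1) hB.1
    · exact n1 h1
    · exact n2 h1
    · rw [h1] at i1
      rcases side_two hnea haf hag i1 with e | e
      · exact (hRmW ha).2 (Or.inl (e ▸ hB.1))
      · exact haP (e ▸ hB.1)
    · rw [h1] at i1
      rcases side_two hneb hbf hbg i1 with e | e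
      · exact (hRmW hb).2 (Or.inl (e ▸ hB.1))
      · exact hbP (e ▸ hB.1)
  have hin : ∀ B, BD P B → (B.1 = s1 ∨ B.1 = s2) → B.1 ∈ M := by
    intro B hB h12
    have i1 : IsSide (ahead B) B.1 := isSide_ahead B.1 B.2
    have i2 : IsSide (ahead (rv B)) B.1 := isSide_ahead B.1 (!B.2)
    have n1 : B.1 ∉ M1 := fun h1 => hB.2 (m1 _ h1 _ i2)
    have n2 : B.1 ∉ M2 := fun h1 => hK1P _ (m2 _ h1 _ i1) hB.1
    have n3 : B.1 ∉ M3 := fun h1 => (hRmW (m3 _ h1 _ i1)).2 (Or.inl hB.1)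
    have n4 : B.1 ∉ M4 := fun h1 => hK2P _ (m4 _ h1 _ i1) hB.1
    have n5 : B.1 ≠ sa := by
      intro h1
      rw [h1] at i1
      rcases side_two hnea haf hag i1 with e | e
      · exact (hRmW ha).2 (Or.inl (e ▸ hB.1))
      · exact haP (e ▸ hB.1)
    have n6 : B.1 ≠ sb := by
      intro h1
      rw [h1] at i1
      rcases side_two hneb hbf hbg i1 with e | e
      · exact (hRmW hb).2 (Or.inl (e ▸ hB.1))
      · exact hbP (e ▸ hB.1)
    refine sd_right (sd_not (sd_not n1 n2) (sd_not n3 n4)) (sd_left ?_ (sd_not n5 n6))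
    rcases h12 with h1 | h1
    · exact sd_left h1 (fun h2 => hs12 (h1.symm.trans h2))
    · exact sd_right (fun h2 => hs12 (h2.symm.trans h1)) h1
  -- the classes of the outer faces where the potential is not `c`
  have hcl : ∀ B, BD P B → Φ (lf B) ≠ c → κ (ahead (rv B)) = κ g1 ∨ κ (ahead (rv B)) = κ g2 := by
    intro B hB hne
    by_contra hno
    rw [not_or] at hno
    have hadj : AdjF (ahead B) (ahead (rv B)) := (adjF_ahead B).symm
    have hlr : ∀ q : UE, q = B.1 → (Φ (ua q) = c ∧ Φ (ub q) = c) → False := by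
      rintro q rfl ⟨h1, h2⟩
      rcases joins_lf_rg B with ⟨h3, -⟩ | ⟨h3, -⟩
      · exact hne (by rw [h3, h1])
      · exact hne (by rw [h3, h2])
    by_cases hoU : ahead (rv B) ∈ U
    · refine hlr _ rfl (pot_class h hΦ hc hB.1 hadj hoU hB.2 ?_ (isSide_ahead B.1 (!B.2)))
      intro k hk s hks hsM
      have hk2 := ChI.mem (S := U ∩ {z | κ z = κ (ahead (rv B))}) ⟨hoU, rfl⟩ hk
      have hk3 : κ k = κ (ahead (rv B)) := hk2.2
      rcases hMf s hsM k hks with h1 | h1 | h1 | h1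
      · exact hB.2 (h.sat _ _ hk3 h1)
      · exact hno.1 (hk3.symm.trans h1.2)
      · exact (hRmW h1).2 (Or.inr ⟨_, hB.1, _, hadj, hoU, hB.2, hk⟩)
      · exact hno.2 (hk3.symm.trans h1.2)
    · exact hlr _ rfl (hc B.1 ⟨⟨_, h.sub hB.1, isSide_ahead B.1 B.2⟩, _, hoU, isSide_ahead B.1 (!B.2)⟩)
  -- the contour of `P` from the side `s1`
  obtain ⟨d0, hA⟩ := exists_BD (F := P) (a := s1) ⟨⟨f1, hf1, h1f⟩, g1, hg1P, h1g⟩
  obtain ⟨m, hm, hper, hinj, -⟩ := exists_dctr hPf hPc hP hA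
  obtain ⟨n, hn⟩ := contour_all hPf hPc hP hA (a := s2) ⟨⟨f2, hf2, h2f⟩, g2, hg2P, h2g⟩
  set A : UE × Bool := (s1, d0) with hAdef
  have hS : ∀ i, BD P ((sc P)^[i] A) := fun i => hA.iterate i
  obtain ⟨i2, hi2m, hi2⟩ : ∃ i2 < m, ((sc P)^[i2] A).1 = s2 := by
    refine ⟨n % m, Nat.mod_lt _ hm, ?_⟩
    have hp : Function.IsPeriodicPt (sc P) m A := hper
    rw [← hn, hp.iterate_mod_apply]
  have h0 : ((sc P)^[0] A).1 = s1 := rfl
  have hi20 : i2 ≠ 0 := by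
    rintro rfl
    exact hs12 (h0.symm.trans hi2)
  have hun : ∀ i < m, ∀ j < m, ((sc P)^[i] A).1 = ((sc P)^[j] A).1 → i = j := fun i hi j hj e =>
    hinj i hi j hj ((hS i).eq_of_fst (hS j) e)
  -- the potential along the contour
  have hstep : ∀ i, (((sc P)^[i] A).1 ∈ M ↔ Φ (lf ((sc P)^[i + 1] A)) ≠ Φ (lf ((sc P)^[i] A))) := by
    intro i
    rw [Function.iterate_succ_apply', lf_sc, hΦ _ (h.sub (hS i).1) _ (isSide_ahead _ _)]
    rcases joins_lf_rg ((sc P)^[i] A) with ⟨h3, h4⟩ | ⟨h3, h4⟩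
    · rw [h3, h4]
      exact ⟨fun hh e => hh e.symm, fun hh e => hh e.symm⟩
    · rw [h3, h4]
  have hsame : ∀ i, i < m → i ≠ 0 → i ≠ i2 →
      Φ (lf ((sc P)^[i + 1] A)) = Φ (lf ((sc P)^[i] A)) := by
    intro i hi h1 h2
    by_contra hne
    refine hcross _ (hS i) (fun e => h1 (hun i hi 0 hm (e.trans h0.symm)))
      (fun e => h2 (hun i hi i2 hi2m (e.trans hi2.symm))) ((hstep i).2 hne)
  have hjump0 : Φ (lf ((sc P)^[1] A)) ≠ Φ (lf ((sc P)^[0] A)) := (hstep 0).1 (hin _ (hS 0) (Or.inl h0))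
  have hjump2 : Φ (lf ((sc P)^[i2 + 1] A)) ≠ Φ (lf ((sc P)^[i2] A)) :=
    (hstep i2).1 (hin _ (hS i2) (Or.inr hi2))
  have hfirst : ∀ i, 1 ≤ i → i ≤ i2 → Φ (lf ((sc P)^[i] A)) = Φ (lf ((sc P)^[1] A)) := by
    intro i hi
    induction i, hi using Nat.le_induction with
    | base => intro _; rfl
    | succ i hi ih =>
      intro hle
      rw [hsame i (by omega) (by omega) (by omega), ih (by omega)]
  have hsecond : ∀ i, i2 + 1 ≤ i → i ≤ m → Φ (lf ((sc P)^[i] A)) = Φ (lf ((sc P)^[i2 + 1] A)) := by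
    intro i hi
    induction i, hi using Nat.le_induction with
    | base => intro _; rfl
    | succ i hi ih =>
      intro hle
      rw [hsame i (by omega) (by omega) (by omega), ih (by omega)]
  have z2 : ∀ x y z : ZMod 2, x ≠ y → z ≠ y → z = x := by decide
  -- a change of class along an interval of the contour
  have hwalk : ∀ lo hi : ℕ, lo ≤ hi →
      (∀ i, lo ≤ i → i ≤ hi → κ (ahead (rv ((sc P)^[i] A))) = κ g1 ∨
        κ (ahead (rv ((sc P)^[i] A))) = κ g2) →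
      ((κ (ahead (rv ((sc P)^[lo] A))) = κ g1 ∧ κ (ahead (rv ((sc P)^[hi] A))) = κ g2) ∨
        (κ (ahead (rv ((sc P)^[lo] A))) = κ g2 ∧ κ (ahead (rv ((sc P)^[hi] A))) = κ g1)) →
      |a'.1 - b'.1| < 2 * D ∧ |a'.2 - b'.2| < 2 * D := by
    intro lo hi hle hall hends
    rcases hends with ⟨e1, e2⟩ | ⟨e1, e2⟩
    · obtain ⟨i, j1, j2, j3, j4⟩ := exists_change
        (q := fun i => κ (ahead (rv ((sc P)^[i] A))) = κ g1) hle e1
        (fun hh => hk12 (hh.symm.trans e2))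
      have j5 := (hall (i + 1) (by omega) (by omega)).resolve_left j4
      have j6 := out_near P ((sc P)^[i] A)
      rw [← Function.iterate_succ_apply' (sc P) i A] at j6
      exact hfin _ _ j3 j5 j6.1 j6.2
    · obtain ⟨i, j1, j2, j3, j4⟩ := exists_change
        (q := fun i => κ (ahead (rv ((sc P)^[i] A))) = κ g2) hle e1
        (fun hh => hk12 (e2.symm.trans hh))
      have j5 := (hall (i + 1) (by omega) (by omega)).resolve_right j4
      have j6 := out_near P ((sc P)^[i] A)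
      rw [← Function.iterate_succ_apply' (sc P) i A] at j6
      refine hfin _ _ j5 j3 ?_ ?_
      · rw [abs_sub_comm]
        exact j6.1
      · rw [abs_sub_comm]
        exact j6.2
  have hout0 : ahead (rv ((sc P)^[0] A)) = g1 := (ahead_bd (hS 0) hf1 hg1P h1f h1g).2
  have hout2 : ahead (rv ((sc P)^[i2] A)) = g2 :=
    (ahead_bd (hS i2) hf2 hg2P (by rw [hi2]; exact h2f) (by rw [hi2]; exact h2g)).2
  have houtm : ahead (rv ((sc P)^[m] A)) = g1 := by
    rw [hper]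
    exact hout0
  by_cases hcase : Φ (lf ((sc P)^[1] A)) = c
  · -- the potential is not `c` after `i2`
    refine hwalk i2 m hi2m.le ?_ (Or.inr ⟨by rw [hout2], by rw [houtm]⟩)
    intro i h1 h2
    rcases Nat.eq_or_lt_of_le h1 with rfl | h3
    · right
      rw [hout2]
    · refine hcl _ (hS i) ?_
      rw [hsecond i h3 h2]
      intro e
      apply hjump2
      rw [e, hfirst i2 (by omega) le_rfl, hcase]
  · refine hwalk 0 i2 (Nat.zero_le _) ?_ (Or.inl ⟨by rw [hout0], by rw [hout2]⟩)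
    intro i h1 h2
    rcases Nat.eq_or_lt_of_le h1 with rfl | h3
    · left
      rw [hout0]
    · refine hcl _ (hS i) ?_
      rw [hfirst i h3 h2]
      exact hcase

end Pool.Agent.SixB.Lk
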