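import Pool.Agent.Lib.SixB.S8LeakDet
import Pool.Agent.Lib.SixB.S8Caps
import Pool.Agent.Lib.SixB.S8KerDet

/-!
# Step 8: deep in a room behind a mouth there is a gate

`V` is a component of the fresh faces at the time `s`, `C ⊆ V` a room: the common sides of `C` and `V \ C`
are in a box (the mouth), `C` has faces outside of this box, and the walls of `C` have one colour. At the
time `s` the strand is not in `C`, at the time `t` it is in `C`.

* `leak_core`, `leak_gate`: at the time `t` there is a path in the box from the side of colour `0` to the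
  side of colour `1` which is not crossed up to the time `t` (a gate; the tip is in `C`).
-/

set_option autoImplicit false

namespace Pool.Agent.SixB.Lk

open Finset Pool.Agent.Perc Pool.Agent.PercT Pool.Agent.Perc6 Pool.Agent.Perc6.C2Aux
open Pool.Agent.SixB.NearCut
open Pool.Agent.SixB.Top
open Pool.Agent.Perc.Tips (ahead rv)

variable {V C : Set (ℤ × ℤ)}

/-- A connected part with a connected rest which touches the outside is hole-free. -/
theorem esc_part (hV : Esc V) (hCV : C ⊆ V) (hYc : Top.EConn (V \ C)) {y o : ℤ × ℤ}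
    (hy : y ∈ V \ C) (ho : o ∉ V) (hyo : AdjF y o) : Esc C := by
  have h1 : V \ (V \ C) = C := by
    ext f
    constructor
    · rintro ⟨h2, h3⟩
      by_contra h4
      exact h3 ⟨h2, h4⟩
    · exact fun h2 => ⟨hCV h2, fun h3 => h3.2 h2⟩
  rw [← h1]
  refine hV.diff fun f hf => ⟨o, ho, ?_⟩
  rw [h1]
  have h2 : ChI (V \ C) f y := hYc f hf y hy
  exact (h2.stepC (W := C) fun g hg hg' => hg.2 hg').tail ⟨hyo, fun h => ho (hCV h)⟩

/-- A face of `C` outside of a box gives a boundary side outside of the box. -/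
theorem exists_far_side (hCf : C.Finite) {z f : ℤ × ℤ} {r : ℤ} (hf : f ∈ C)
    (hfar : ¬ InR (z.1 - r) (z.1 + r) (z.2 - r) (z.2 + r) f) : ∃ B, BD C B ∧ ¬ InB z r B.1 := by
  classical
  have hne : hCf.toFinset.Nonempty := ⟨f, hCf.mem_toFinset.2 hf⟩
  unfold InR at hfar
  by_cases h1 : f.1 < z.1 - r
  · obtain ⟨g, hg, hmin⟩ := Finset.exists_min_image hCf.toFinset (fun g => g.1) hne
    rw [hCf.mem_toFinset] at hg
    have h2 := hmin f (hCf.mem_toFinset.2 hf)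
    refine ⟨((g.1, g.2, true), true), ⟨hg, fun h3 => ?_⟩, fun h3 => ?_⟩
    · have h4 := hmin _ (hCf.mem_toFinset.2 h3)
      simp only [rv, ahead, Bool.not_true] at h4
      omega
    · simp only [InB, InR, ua] at h3
      omega
  by_cases h2 : z.1 + r < f.1
  · obtain ⟨g, hg, hmax⟩ := Finset.exists_max_image hCf.toFinset (fun g => g.1) hne
    rw [hCf.mem_toFinset] at hg
    have h3 := hmax f (hCf.mem_toFinset.2 hf)
    refine ⟨((g.1 + 1, g.2, true), false), ⟨by simpa [ahead] using hg, fun h4 => ?_⟩, fun h4 => ?_⟩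
    · have h5 := hmax _ (hCf.mem_toFinset.2 h4)
      simp only [rv, ahead, Bool.not_false] at h5
      omega
    · simp only [InB, InR, ua] at h4
      omega
  by_cases h3 : f.2 < z.2 - r
  · obtain ⟨g, hg, hmin⟩ := Finset.exists_min_image hCf.toFinset (fun g => g.2) hne
    rw [hCf.mem_toFinset] at hg
    have h4 := hmin f (hCf.mem_toFinset.2 hf)
    refine ⟨((g.1, g.2, false), true), ⟨hg, fun h5 => ?_⟩, fun h5 => ?_⟩
    · have h6 := hmin _ (hCf.mem_toFinset.2 h5)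
      simp only [rv, ahead, Bool.not_true] at h6
      omega
    · simp only [InB, InR, ua] at h5
      omega
  · obtain ⟨g, hg, hmax⟩ := Finset.exists_max_image hCf.toFinset (fun g => g.2) hne
    rw [hCf.mem_toFinset] at hg
    have h4 := hmax f (hCf.mem_toFinset.2 hf)
    refine ⟨((g.1, g.2 + 1, false), false), ⟨by simpa [ahead] using hg, fun h5 => ?_⟩, fun h5 => ?_⟩
    · have h6 := hmax _ (hCf.mem_toFinset.2 h5)
      simp only [rv, ahead, Bool.not_false] at h6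
      omega
    · simp only [InB, InR, ua] at h5
      omega

/-- Connections use finitely many faces. -/
theorem conn_fin {ω : Cfg} {F : Set (ℤ × ℤ)} {p q : ℤ × ℤ} (h : Conn ω F p q) :
    ∃ N : ℤ, ∀ N' : ℤ, N ≤ N' → Conn ω ((RF (-N') N' (-N') N' : Set (ℤ × ℤ)) ∩ F) p q := by
  induction h with
  | refl => exact ⟨0, fun _ _ => Relation.ReflTransGen.refl⟩
  | tail _ hb ih =>
    obtain ⟨N, hN⟩ := ih
    obtain ⟨x, y, hf, h'⟩ := hb
    refine ⟨max N (|x| + |y| + 1), fun N' hN' => Relation.ReflTransGen.tail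
      (hN N' ((le_max_left _ _).trans hN')) ⟨x, y, ⟨?_, hf⟩, h'⟩⟩
    have h1 := (le_max_right N (|x| + |y| + 1)).trans hN'
    have h2 := abs_nonneg x
    have h3 := abs_nonneg y
    have h4 := abs_le.1 (le_refl |x|)
    have h5 := abs_le.1 (le_refl |y|)
    rw [mem_RF']
    simp only
    omega

/-- Consecutive sides of the contour are near each other. -/
theorem ua_near {A B : UE × Bool} (h : lf B = rg A) : (ua A.1).1 ≤ (ua B.1).1 + 1 ∧
    (ua B.1).1 ≤ (ua A.1).1 + 1 ∧ (ua A.1).2 ≤ (ua B.1).2 + 1 ∧ (ua B.1).2 ≤ (ua A.1).2 + 1 := by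
  obtain ⟨⟨x, y, _ | _⟩, _ | _⟩ := A <;> obtain ⟨⟨x', y', _ | _⟩, _ | _⟩ := B <;>
    simp only [lf, rg, ua, Prod.mk.injEq] at h ⊢ <;> omega

theorem inB_near {A B : UE × Bool} {z : ℤ × ℤ} {r : ℤ} (h : lf B = rg A) :
    (InB z r A.1 → InB z (r + 1) B.1) ∧ (InB z r B.1 → InB z (r + 1) A.1) := by
  have := ua_near h
  unfold InB InR
  omega

theorem z2_eq_of_ne {x y z : ZMod 2} (h1 : x ≠ y) (h2 : z ≠ y) : x = z := by
  revert h1 h2
  revert x y z
  decide

theorem z2_six (a b x y : ZMod 2) : a + b + (a + y + (x + b) + (x + y)) = 0 := by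
  have h2 : (2 : ZMod 2) = 0 := rfl
  linear_combination (a + b + x + y) * h2

theorem sd_iff {X Y : Set UE} {a : UE} (h : a ∉ Y) : a ∈ symmDiff X Y ↔ a ∈ X :=
  ⟨fun h1 => (sd_or h1).resolve_right h, fun h1 => sd_left h1 h⟩

theorem sd_iff' {X Y : Set UE} {a : UE} : a ∈ symmDiff X Y ↔ (a ∈ X ∧ a ∉ Y) ∨ (a ∉ X ∧ a ∈ Y) := by
  rw [Set.mem_symmDiff]
  tauto

/-- The contour of the room at the mouth: the sides `S 0` and `S K` are walls, the sides `S 1` and
all sides between are in the box. -/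
theorem mouth_path {z : ℤ × ℤ} {r : ℤ} (hVc : Top.EConn V) (hCV : C ⊆ V) (hCf : C.Finite)
    (hCc : Top.EConn C) (hCe : Esc C) {x y : ℤ × ℤ} (hx : x ∈ C) (hy : y ∈ V \ C)
    (hmouth : ∀ a f g, f ∈ C → g ∈ V → g ∉ C → IsSide f a → IsSide g a → InB z r a)
    (hfar : ∃ f ∈ C, ¬ InR (z.1 - r) (z.1 + r) (z.2 - r) (z.2 + r) f) :
    ∃ (S : ℕ → UE × Bool) (K : ℕ), (∀ i, BD C (S i)) ∧ (∀ i, lf (S (i + 1)) = rg (S i)) ∧
      ahead (rv (S 0)) ∉ V ∧ ahead (rv (S 1)) ∈ V ∧ 2 ≤ K ∧ ahead (rv (S K)) ∉ V ∧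
      (∀ i, i ≤ K → InB z (r + 1) (S i).1) ∧ ∀ i, i ≤ K → i ≠ 1 → (S i).1 ≠ (S 1).1 := by
  classical
  obtain ⟨f₀, hf₀, hfar₀⟩ := hfar
  obtain ⟨B₀, hB₀, hB₀r⟩ := exists_far_side hCf hf₀ hfar₀
  have hwallm : ∀ B, BD C B → ahead (rv B) ∈ V → InB z r B.1 := fun B hB h1 =>
    hmouth _ _ _ hB.1 h1 hB.2 (isSide_ahead B.1 B.2) (isSide_ahead B.1 (!B.2))
  have hw₀ : ahead (rv B₀) ∉ V := fun h1 => hB₀r (hwallm B₀ hB₀ h1)
  obtain ⟨B₁, hB₁, hm₁⟩ : ∃ B, BD C B ∧ ahead (rv B) ∈ V := by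
    have h1 : ChI V x y := hVc _ (hCV hx) _ hy.1
    by_contra h2
    push Not at h2
    have h3 : ∀ g, ChI V x g → g ∈ C := by
      intro g hg
      induction hg with
      | refl => exact hx
      | @tail b d hb hs ih =>
        by_contra hd
        obtain ⟨⟨hne, a, ha1, ha2⟩, hdV⟩ := hs
        obtain ⟨d', hd'⟩ := exists_BD (F := C) (a := a) ⟨⟨b, ih, ha1⟩, d, hd, ha2⟩
        refine h2 _ hd' ?_
        rw [(ahead_bd hd' ih hd ha1 ha2).2]
        exact hdV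
    exact hy.2 (h3 _ h1)
  obtain ⟨n₁, hn₁⟩ := contour_all hCf hCc hCe hB₀ hB₁.bdU
  have hn₁' : (sc C)^[n₁] B₀ = B₁ := (hB₀.iterate n₁).eq_of_fst hB₁ hn₁
  obtain ⟨i₀, -, -, hi1, hi2⟩ := exists_change (q := fun i => ahead (rv ((sc C)^[i] B₀)) ∉ V)
    (Nat.zero_le n₁) hw₀ (by rw [hn₁']; exact fun h => h hm₁)
  set A : UE × Bool := (sc C)^[i₀] B₀ with hAdef
  have hA : BD C A := hB₀.iterate i₀
  rw [Function.iterate_succ_apply', not_not] at hi2
  obtain ⟨m, hm, hper, hinj, -⟩ := exists_dctr hCf hCc hCe hA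
  set S : ℕ → UE × Bool := fun i => (sc C)^[i] A with hSdef
  have hS : ∀ i, BD C (S i) := fun i => hA.iterate i
  have hS0 : ahead (rv (S 0)) ∉ V := hi1
  have hS1 : ahead (rv (S 1)) ∈ V := hi2
  have hSm : S m = S 0 := hper
  have hlf : ∀ i, lf (S (i + 1)) = rg (S i) := by
    intro i
    simp only [hSdef, Function.iterate_succ_apply', lf_sc]
  have hex : ∃ K, 1 ≤ K ∧ ahead (rv (S K)) ∉ V := ⟨m, hm, by rw [hSm]; exact hS0⟩
  set K := Nat.find hex with hK
  obtain ⟨hK1, hKw⟩ := Nat.find_spec hex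
  have hKmin : ∀ i, 1 ≤ i → i < K → ahead (rv (S i)) ∈ V := by
    intro i h1 h2
    by_contra h3
    exact Nat.find_min hex h2 ⟨h1, h3⟩
  have hKm : K ≤ m := Nat.find_min' hex ⟨hm, by rw [hSm]; exact hS0⟩
  rw [← hK] at hKw hK1
  have hK2 : 2 ≤ K := by
    rcases Nat.lt_or_ge K 2 with h1 | h1
    · have h2 : K = 1 := by omega
      rw [h2] at hKw
      exact absurd hS1 hKw
    · exact h1
  refine ⟨S, K, hS, hlf, hS0, hS1, hK2, hKw, ?_, ?_⟩
  · intro i hi
    rcases Nat.eq_zero_or_pos i with rfl | h1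
    · exact (inB_near (hlf 0)).2 (hwallm _ (hS 1) hS1)
    · rcases Nat.lt_or_eq_of_le hi with h2 | rfl
      · exact (hwallm _ (hS i) (hKmin i h1 h2)).mono (by omega)
      · obtain ⟨k, hk⟩ : ∃ k, K = k + 1 := ⟨K - 1, by omega⟩
        rw [hk]
        exact (inB_near (hlf k)).1 (hwallm _ (hS k) (hKmin k (by omega) (by omega)))
  · intro i hi h1 h2
    have h3 : S i = S 1 := (hS i).eq_of_fst (hS 1) h2
    rcases Nat.eq_zero_or_pos i with rfl | h4
    · exact hS0 (by rw [h3]; exact hS1)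
    · rcases Nat.lt_or_eq_of_le hi with h5 | rfl
      · exact h1 (hinj i (by omega) 1 (by omega) h3)
      · exact hKw (by rw [h3]; exact hS1)

/-- The potential of the strand piece with the times in `(s, t]` which is closed by a chain in `V`
through the side `B` of the room. -/
theorem exists_close_pot {ω : Cfg} {e : UE} {s t : ℕ} (hVf : V.Finite) (hCV : C ⊆ V)
    (hCc : Top.EConn C) (hYc : Top.EConn (V \ C)) (hn : Nb ω e t) (hst : s ≤ t)
    (hsY : fa (pth ω e s) ∈ V \ C) (htC : fa (pth ω e t) ∈ C) {B : UE × Bool} (hB : BD C B)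
    (hBV : ahead (rv B) ∈ V) {p q : ℤ × ℤ} {v : ℤ × ℤ} (hp : Conn ω Vᶜ v p) (hq : Conn ω Vᶜ v q) :
    ∃ (M : Set UE) (Θ : ℤ × ℤ → ZMod 2), IsPot V M Θ ∧ Θ p = Θ q ∧ ∀ A, BD C A →
      (A.1 ∈ M ↔ (A.1 ∈ Gs ω e (s + 1) (t + 1) ∧ A.1 ≠ B.1) ∨
        (A.1 ∉ Gs ω e (s + 1) (t + 1) ∧ A.1 = B.1)) := by
  classical
  set x₁ := ahead B with hx₁
  set y₁ := ahead (rv B) with hy₁
  have hx₁C : x₁ ∈ C := hB.1
  have hy₁Y : y₁ ∈ V \ C := ⟨hBV, hB.2⟩
  have hxs : IsSide x₁ B.1 := isSide_ahead B.1 B.2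
  have hys : IsSide y₁ B.1 := isSide_ahead B.1 (!B.2)
  have hxy : x₁ ≠ y₁ := fun h => hy₁Y.2 (h ▸ hx₁C)
  obtain ⟨M1, m1, p1⟩ := chain_edges hsY (show ChI (V \ C) _ _ from hYc _ hsY _ hy₁Y)
  obtain ⟨M2, m2, p2⟩ := chain_edges hx₁C (show ChI C _ _ from hCc _ hx₁C _ htC)
  set X : Set UE := Gs ω e (s + 1) (t + 1) with hX
  set M0 : Set UE := symmDiff (symmDiff M1 M2) {B.1} with hM0
  set M : Set UE := symmDiff X M0 with hM
  have hM0V : ∀ a ∈ M0, ∀ k, IsSide k a → k ∈ V := by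
    intro a ha k hk
    rcases sd_or ha with h1 | h1
    · rcases sd_or h1 with h2 | h2
      · exact (m1 a h2 k hk).1
      · exact hCV (m2 a h2 k hk)
    · have h2 : a = B.1 := h1
      subst h2
      rcases side_two hxy hxs hys hk with rfl | rfl
      · exact hCV hx₁C
      · exact hy₁Y.1
  have hpar : ∀ f, parAt M f = 0 := by
    intro f
    rw [hM, hM0]
    simp only [parAt_symmDiff]
    rw [p1, p2, parAt_side hxy hxs hys, hX, parAt_Gs hn (by omega) le_rfl, fb_pth_succ, fb_pth_succ]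
    exact z2_six _ _ _ _
  obtain ⟨N0, hN0⟩ := conn_fin hp
  obtain ⟨NK, hNK⟩ := conn_fin hq
  obtain ⟨x0, x1', y0, y1', hRF⟩ := exists_RF hVf
  set N : ℤ := max (max N0 NK) (max (max |x0| |x1'|) (max |y0| |y1'|)) with hNdef
  have hVR : ∀ f ∈ V, f ∈ (RF (-N) N (-N) N : Set (ℤ × ℤ)) := by
    intro f hf
    have h1 := Finset.mem_coe.2 (hRF f hf)
    rw [mem_RF'] at h1
    rw [mem_RF']
    have h2 : |x0| ≤ N := ((le_max_left _ _).trans (le_max_left _ _)).trans (le_max_right _ _)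
    have h3 : |x1'| ≤ N := ((le_max_right _ _).trans (le_max_left _ _)).trans (le_max_right _ _)
    have h4 : |y0| ≤ N := ((le_max_left _ _).trans (le_max_right _ _)).trans (le_max_right _ _)
    have h5 : |y1'| ≤ N := ((le_max_right _ _).trans (le_max_right _ _)).trans (le_max_right _ _)
    rw [abs_le] at h2 h3 h4 h5
    omega
  have hN0' := hN0 N ((le_max_left _ _).trans (le_max_left _ _))
  have hNK' := hNK N ((le_max_right _ _).trans (le_max_left _ _))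
  obtain ⟨Θ, hΘ⟩ := hasPot_RF (-N) N (-N) N M fun f _ => evenAt_iff.2 (hpar f)
  have hinv : MtInv ω ((RF (-N) N (-N) N : Set (ℤ × ℤ)) ∩ Vᶜ) M := by
    rintro g ⟨-, hgV⟩ a a' hm
    have h1 : a ∉ M0 := fun h => hgV (hM0V a h g hm.left)
    have h2 : a' ∉ M0 := fun h => hgV (hM0V a' h g hm.right)
    have h3 : a ∈ X ↔ a' ∈ X := by
      refine Gs_mt_iff hm (fun h => hgV ?_) fun h => hgV ?_
      · rw [h.1, fb_pth_succ]
        exact hsY.1
      · rw [h.1, fb_pth_succ]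
        exact hCV htC
    exact (sd_iff h1).trans (h3.trans (sd_iff h2).symm)
  have hΘ' : IsPot ((RF (-N) N (-N) N : Set (ℤ × ℤ)) ∩ Vᶜ) M Θ := fun f hf => hΘ f hf.1
  refine ⟨M, Θ, fun f hf => hΘ f (hVR f hf), ?_, ?_⟩
  · rw [← hinv.conn hΘ' hN0', ← hinv.conn hΘ' hNK']
  · intro A hA
    have n1 : A.1 ∉ M1 := fun h => (m1 _ h _ (isSide_ahead A.1 A.2)).2 hA.1
    have n2 : A.1 ∉ M2 := fun h => hA.2 (m2 _ h _ (isSide_ahead A.1 (!A.2)))
    have h2 : A.1 ∈ M0 ↔ A.1 = B.1 := by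
      constructor
      · intro h
        rcases sd_or h with h3 | h3
        · exact absurd h3 (sd_not n1 n2)
        · exact h3
      · intro h
        exact sd_right (sd_not n1 n2) h
    rw [hM, sd_iff', h2]

/-- Labels along a path of unit edges: if the potential shows an odd number of crossings between two
vertices of the same side then there is a gate. -/
theorem gate_of_path {X E : Set UE} {L : ℤ → ℤ × ℤ → Prop} {lam : ℤ} (hlam : lam = 0 ∨ lam = 1)
    {S : ℕ → UE × Bool} (hlf : ∀ i, lf (S (i + 1)) = rg (S i)) {g : ℕ → ZMod 2} {α β : ℕ}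
    (hαβ : α ≤ β) (hX : ∀ i, α ≤ i → i < β → (S i).1 ∈ X → ∀ c : ℤ, (c = 0 ∨ c = 1) →
      L c (en c (S i).1)) (hXE : ∀ i, α ≤ i → i < β → (S i).1 ∉ X → (S i).1 ∈ E)
    (hg : ∀ i, α ≤ i → i < β → ((S i).1 ∈ X ↔ g (i + 1) ≠ g i)) (hne : g β ≠ g α)
    (h0 : L lam (lf (S α))) (h1 : L lam (lf (S β))) : ∃ v w, L 0 v ∧ L 1 w ∧ Pth E v w := by
  by_contra hno
  have hng : ∀ c : ℤ, (c = 0 ∨ c = 1) → ∀ v w, L c v → L (1 - c) w → ¬ Pth E v w := by
    rintro c (rfl | rfl) v w h1 h2 h3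
    · exact hno ⟨v, w, h1, h2, h3⟩
    · exact hno ⟨w, v, h2, h1, h3.symm⟩
  set cc : ℕ → ℤ := fun i => if g i = g α then lam else 1 - lam with hcc
  have hcc01 : ∀ i, cc i = 0 ∨ cc i = 1 := by
    intro i
    simp only [hcc]
    split_ifs
    · exact hlam
    · omega
  have key : ∀ i, α ≤ i → i ≤ β → ∃ v, L (cc i) v ∧ Pth E v (lf (S i)) := by
    intro i hi
    induction i, hi using Nat.le_induction with
    | base =>
      intro _
      refine ⟨lf (S α), ?_, Relation.ReflTransGen.refl⟩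
      simp only [hcc, if_true]
      exact h0
    | succ i hi ih =>
      intro hib
      obtain ⟨v, hv, hp⟩ := ih (by omega)
      by_cases hx : (S i).1 ∈ X
      · have hne := (hg i hi (by omega)).1 hx
        have hccs : cc (i + 1) = 1 - cc i := by
          simp only [hcc]
          by_cases h1 : g i = g α
          · rw [if_pos h1, if_neg fun h2 => hne (h2.trans h1.symm)]
          · rw [if_neg h1, if_pos (z2_eq_of_ne hne (fun h2 => h1 h2.symm))]
            ring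
        have hLl := hX i hi (by omega) hx
        -- the colour of the vertex
        have hpc : par (lf (S i)) = 0 ∨ par (lf (S i)) = 1 := par_cases _
        have he1 : en (par (lf (S i))) (S i).1 = lf (S i) := en_joins (joins_lf_rg _) rfl
        have he2 : en (1 - par (lf (S i))) (S i).1 = rg (S i) := by
          refine en_joins (joins_lf_rg _).symm ?_
          have h1 := par_rg_ne_lf (S i)
          have h2 := par_cases (rg (S i))
          omega
        by_cases h1 : par (lf (S i)) = cc i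
        · refine ⟨rg (S i), ?_, ?_⟩
          · rw [hccs, ← h1, ← he2]
            exact hLl _ (by omega)
          · rw [hlf]
            exact Relation.ReflTransGen.refl
        · exfalso
          have h2 : par (lf (S i)) = 1 - cc i := by
            have := hcc01 i
            omega
          refine hng (cc i) (hcc01 i) v (lf (S i)) hv ?_ hp
          rw [← h2]
          have h3 := hLl (par (lf (S i))) hpc
          rw [he1] at h3
          exact h3
      · have hne : g (i + 1) = g i := by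
          by_contra h1
          exact hx ((hg i hi (by omega)).2 h1)
        refine ⟨v, ?_, ?_⟩
        · have : cc (i + 1) = cc i := by
            simp only [hcc]
            rw [hne]
          rw [this]
          exact hv
        · refine Relation.ReflTransGen.tail hp ⟨(S i).1, hXE i hi (by omega) hx, ?_⟩
          rw [hlf]
          exact joins_lf_rg _
  obtain ⟨v, hv, hp⟩ := key β hαβ le_rfl
  simp only [hcc] at hv
  rw [if_neg hne] at hv
  refine hng (1 - lam) (by omega) v (lf (S β)) hv ?_ hp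
  rw [sub_sub']
  exact h1

/-- The steps of the corrected potential. -/
theorem g_step {P Q : Prop} {a b : ZMod 2} {i : ℕ} (h : Q ↔ a ≠ b)
    (hQ : Q ↔ (P ∧ i ≠ 1) ∨ (¬ P ∧ i = 1)) :
    P ↔ b + (if 2 ≤ i + 1 then 1 else 0) ≠ a + (if 2 ≤ i then 1 else 0) := by
  have key : ∀ a b : ZMod 2, (b + 1 ≠ a ↔ a = b) := by decide
  rw [hQ] at h
  rcases lt_trichotomy i 1 with h4 | rfl | h4
  · have h5 : i = 0 := by omega
    subst h5
    simp only [ne_eq, zero_ne_one, not_false_eq_true, and_true, and_false, or_false] at h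
    simp only [zero_add, Nat.not_ofNat_le_one, if_false, nonpos_iff_eq_zero, OfNat.ofNat_ne_zero,
      add_zero]
    rw [h, eq_comm]
  · simp only [ne_eq, not_true_eq_false, and_false, and_true, false_or] at h
    rw [if_pos (by omega), if_neg (by omega), add_zero, key]
    tauto
  · rw [if_pos (by omega), if_pos (by omega)]
    have h5 : i ≠ 1 := by omega
    simp only [ne_eq, h5, not_false_eq_true, and_true, and_false, or_false] at h
    rw [h]
    exact ⟨fun h6 h7 => h6 (add_right_cancel h7).symm, fun h6 h7 => h6 (by rw [h7])⟩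

/-- **The core**: a strand which is in the room `C` at the time `t` leaves a gate in the mouth. -/
theorem leak_core {ω : Cfg} {e : UE} {s t : ℕ} {lam : ℤ} {L : ℤ → ℤ × ℤ → Prop} {z : ℤ × ℤ} {r : ℤ}
    (hVf : V.Finite) (hVc : Top.EConn V) (hV : Esc V) (hCV : C ⊆ V) (hCc : Top.EConn C)
    (hYc : Top.EConn (V \ C)) (hn : Nb ω e t) (hst : s ≤ t) (hpast : ∀ l < s, fa (pth ω e l) ∉ V)
    (hs : fb (pth ω e s) ∉ V) (he : fb e ∉ V) (hsY : fa (pth ω e s) ∈ V \ C)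
    (htC : fa (pth ω e t) ∈ C) (hlam : lam = 0 ∨ lam = 1)
    (hwall : ∀ a, (∃ f ∈ C, IsSide f a) → (∃ g, g ∉ V ∧ IsSide g a) →
      Conn ω Vᶜ (en lam e) (en lam a) ∧ L lam (en lam a))
    (hL : ∀ l ≤ t, ∀ c : ℤ, (c = 0 ∨ c = 1) → L c (en c (pth ω e l)))
    (hmouth : ∀ a f g, f ∈ C → g ∈ V → g ∉ C → IsSide f a → IsSide g a → InB z r a)
    (hfar : ∃ f ∈ C, ¬ InR (z.1 - r) (z.1 + r) (z.2 - r) (z.2 + r) f) :
    ∃ v w, L 0 v ∧ L 1 w ∧ Pth {a | InB z (r + 1) a ∧ ∀ l ≤ t, pth ω e l ≠ a} v w := by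
  classical
  have hCe : Esc C := by
    refine esc_part hV hCV hYc hsY hs ⟨?_, _, isSide_fa _, isSide_fb _⟩
    intro h
    rw [h] at hsY
    exact hs hsY.1
  -- the sides of `C` are not crossed up to the time `s`
  have hcr : ∀ a f, f ∈ C → IsSide f a → ∀ l ≤ t, pth ω e l = a → s < l := by
    rintro a f hf hfa l hl rfl
    by_contra hls
    push Not at hls
    rcases isSide_iff.1 hfa with rfl | rfl
    · rcases Nat.lt_or_ge l s with h1 | h1
      · exact hpast l h1 (hCV hf)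
      · have : l = s := by omega
        subst this
        exact hsY.2 hf
    · rcases Nat.eq_zero_or_pos l with rfl | h1
      · exact he (hCV hf)
      · obtain ⟨l, rfl⟩ : ∃ k, l = k + 1 := ⟨l - 1, by omega⟩
        rw [fb_pth_succ] at hf
        exact hpast l (by omega) (hCV hf)
  obtain ⟨S, K, hS, hlf, hS0, hS1, hK2, hKw, hin, hdist⟩ := mouth_path hVc hCV (hVf.subset hCV) hCc
    hCe htC hsY hmouth hfar
  -- the ends of the path
  have hends : ∀ i, lf (S i) = en lam (S i).1 ∨ lf (S (i + 1)) = en lam (S i).1 := by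
    intro i
    rw [hlf]
    rcases joins_lf_rg (S i) with ⟨h1, h2⟩ | ⟨h1, h2⟩ <;> rcases en_or lam (S i).1 with h3 | h3 <;>
      rw [h3, h1, h2] <;> simp
  obtain ⟨α, hα, hαe⟩ : ∃ α, α ≤ 1 ∧ lf (S α) = en lam (S 0).1 := by
    rcases hends 0 with h1 | h1
    · exact ⟨0, by omega, h1⟩
    · exact ⟨1, le_rfl, h1⟩
  obtain ⟨β, hβ1, hβ2, hβe⟩ : ∃ β, K ≤ β ∧ β ≤ K + 1 ∧ lf (S β) = en lam (S K).1 := by
    rcases hends K with h1 | h1
    · exact ⟨K, le_rfl, by omega, h1⟩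
    · exact ⟨K + 1, by omega, le_rfl, h1⟩
  have hconn : ∀ B : UE × Bool, BD C B → ahead (rv B) ∉ V → Conn ω Vᶜ (en lam e) (en lam B.1) ∧
      L lam (en lam B.1) := fun B hB h1 =>
    hwall B.1 ⟨_, hB.1, isSide_ahead B.1 B.2⟩ ⟨_, h1, isSide_ahead B.1 (!B.2)⟩
  obtain ⟨c0, l0⟩ := hconn _ (hS 0) hS0
  obtain ⟨cK, lK⟩ := hconn _ (hS K) hKw
  obtain ⟨M, Θ, hΘ, hΘe, hM⟩ := exists_close_pot hVf hCV hCc hYc hn hst hsY htC (hS 1) hS1 c0 cK
  refine gate_of_path (X := Gs ω e (s + 1) (t + 1)) hlam hlf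
    (g := fun i => Θ (lf (S i)) + if 2 ≤ i then 1 else 0) (α := α) (β := β) (by omega) ?_ ?_ ?_ ?_
    (by rw [hαe]; exact l0) (by rw [hβe]; exact lK)
  · rintro i - - ⟨l, hl1, hl2, hl3⟩ c hc
    rw [← hl3]
    exact hL l (by omega) c hc
  · intro i hi1 hi2 hx
    refine ⟨hin i (by omega), fun l hl h1 => hx ?_⟩
    exact ⟨l, hcr _ _ (hS i).1 (isSide_ahead (S i).1 (S i).2) l hl h1, by omega, h1⟩
  · intro i hi1 hi2
    refine g_step (Q := (S i).1 ∈ M) ?_ ?_
    · rw [hlf]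
      exact hΘ.joins (hCV (hS i).1) (isSide_ahead (S i).1 (S i).2) (joins_lf_rg _)
    · rw [hM _ (hS i)]
      have : (S i).1 = (S 1).1 ↔ i = 1 := by
        constructor
        · intro h
          by_contra h'
          exact hdist i (by omega) h' h
        · rintro rfl
          rfl
      rw [ne_eq, this]
  · rw [if_pos (by omega : 2 ≤ β), if_neg (by omega : ¬ 2 ≤ α), hαe, hβe, hΘe]
    generalize Θ (en lam (S K).1) = a
    revert a
    decide

/-! ### In the language of explorations -/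

/-- **Deep in a room there is a gate.** `V` is a component of the fresh faces at the time `s`, `C ⊆ V` a
connected part with a connected rest; the common sides of `C` and `V \ C` are in a box, `C` is not
contained in the box, and the walls of `C` have the colour `lam`. If the strand is in `C` at the time `t`
and not at the time `s` then there is a gate in the box at the time `t`. -/
theorem leak_gate {E : Ex} {ω : Cfg} {s t : ℕ} {lam : ℤ} {z : ℤ × ℤ} {r : ℤ} (hVf : V.Finite)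
    (hVc : Top.EConn V) (hV : Esc V) (hVF : V ⊆ E.Fr ω s) (hCV : C ⊆ V) (hCc : Top.EConn C)
    (hYc : Top.EConn (V \ C)) (he : fb (E.e ω) ∉ E.U ω) (hn : Nb (E.cf ω) (E.e ω) t) (hst : s ≤ t)
    (hsY : fa (E.p ω s) ∈ V \ C) (htC : fa (E.p ω t) ∈ C) (hlam : lam = 0 ∨ lam = 1)
    (hwall : ∀ a, (∃ f ∈ C, IsSide f a) → (∃ g, g ∉ V ∧ IsSide g a) → E.Sid lam ω s (en lam a))
    (hmouth : ∀ a f g, f ∈ C → g ∈ V → g ∉ C → IsSide f a → IsSide g a → InB z r a)
    (hfar : ∃ f ∈ C, ¬ InR (z.1 - r) (z.1 + r) (z.2 - r) (z.2 + r) f) :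
    E.Gate ω t z (r + 1) := by
  have hVU : V ⊆ E.U ω := fun f hf => (hVF hf).1
  refine leak_core (L := fun c v => E.Sid c ω t v) hVf hVc hV hCV hCc hYc hn hst
    (fun l hl hf => fa_not_fr hl (hVF hf)) ?_ (fun h => he (hVU h)) hsY htC hlam ?_
    (fun l hl c hc => Ex.sid_strand hc hl) hmouth hfar
  · rcases Nat.eq_zero_or_pos s with rfl | h1
    · exact fun h => he (hVU h)
    · obtain ⟨s, rfl⟩ : ∃ k, s = k + 1 := ⟨s - 1, by omega⟩
      rw [fb_pth_succ]
      exact fun h => fa_not_fr (Nat.lt_succ_self s) (hVF h)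
  · intro a h1 h2
    have h3 := hwall a h1 h2
    exact ⟨conn_mono (Set.compl_subset_compl.2 hVF) h3, h3.mono hst⟩

/-- If the strand is in frozen faces between the times `a` and `l` then the unit edge at the time `l` is
a gate at the time `a`. -/
theorem exc_gate {E : Ex} {ω : Cfg} {a l : ℕ} (hn : Nb (E.cf ω) (E.e ω) l) (hal : a < l)
    (hout : ∀ k, a ≤ k → k < l → fa (E.p ω k) ∉ E.Fr ω a) {z : ℤ × ℤ} {R : ℤ}
    (hz : InB z R (E.p ω l)) : E.Gate ω a z R := by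
  have key : ∀ c : ℤ, (c = 0 ∨ c = 1) → E.Sid c ω a (en c (E.p ω l)) := by
    intro c hc
    refine Relation.ReflTransGen.trans (Ex.sid_strand hc le_rfl) ?_
    exact conn_pth hc hal.le fun k h1 h2 => Or.inl (hout k h1 h2)
  refine ⟨_, _, key 0 (Or.inl rfl), key 1 (Or.inr rfl), Relation.ReflTransGen.single
    ⟨E.p ω l, ⟨hz, fun k hk h1 => ?_⟩, en_joins' (Or.inl rfl) _⟩⟩
  have := hn.inj (by omega) le_rfl h1
  omega

/-! ### The walls of a room have one colour -/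

theorem pot_face {Φ : ℤ × ℤ → ZMod 2} {Y : Set (ℤ × ℤ)} {g h : ℤ × ℤ} (hg : g ∈ Y)
    (hc : ∀ k ∈ Y, ∀ a, IsSide k a → Φ (ua a) = Φ (ub a)) (hh : ChI Y g h) : Φ h = Φ g := by
  induction hh with
  | refl => rfl
  | @tail b c hb hs ih =>
    obtain ⟨⟨hbc, a, ha1, ha2⟩, hc'⟩ := hs
    have h1 := (lab_face_const (hc b (ChI.mem hg hb)) ha1).1
    have h2 := (lab_face_const (hc c hc') ha2).1
    rw [← ih, ← h1, ← h2]

/-- No alternation on the contour of `X` between a connected part and its connected rest. -/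
theorem no_alt {X C : Set (ℤ × ℤ)} {m : ℕ} {w : ℕ → ℤ × ℤ} (hw : Ctr X m w) (hCX : C ⊆ X)
    (hCc : Top.EConn C) (hYc : Top.EConn (X \ C)) {i₀ i₁ i₂ i₃ : ℕ} (h01 : i₀ < i₁) (h12 : i₁ < i₂)
    (h23 : i₂ < i₃) (h3 : i₃ < m) {y₀ y₁ y₂ y₃ : UE} {f₀ f₁ f₂ f₃ : ℤ × ℤ}
    (j₀ : Joins y₀ (w i₀) (w (i₀ + 1))) (s₀ : IsSide f₀ y₀) (hf₀ : f₀ ∈ X \ C)
    (j₁ : Joins y₁ (w i₁) (w (i₁ + 1))) (s₁ : IsSide f₁ y₁) (hf₁ : f₁ ∈ C)
    (j₂ : Joins y₂ (w i₂) (w (i₂ + 1))) (s₂ : IsSide f₂ y₂) (hf₂ : f₂ ∈ X \ C)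
    (j₃ : Joins y₃ (w i₃) (w (i₃ + 1))) (s₃ : IsSide f₃ y₃) (hf₃ : f₃ ∈ C) : False := by
  -- the outer faces of the two sides of `C`
  have hout : ∀ i < m, ∀ y, Joins y (w i) (w (i + 1)) → ∃ g, g ∉ X ∧ IsSide g y := by
    intro i hi y hj
    obtain ⟨e, ⟨-, g, hg, hgs⟩, hj'⟩ := hw.step i hi
    rw [Joins.uniq hj hj']
    exact ⟨g, hg, hgs⟩
  obtain ⟨g₁, hg₁, hgs₁⟩ := hout i₁ (by omega) y₁ j₁
  obtain ⟨g₃, hg₃, hgs₃⟩ := hout i₃ h3 y₃ j₃
  have n₁ : f₁ ≠ g₁ := fun h => hg₁ (h ▸ hCX hf₁)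
  have n₃ : f₃ ≠ g₃ := fun h => hg₃ (h ▸ hCX hf₃)
  obtain ⟨M1, m1, p1⟩ := chain_edges hf₁ (show ChI C _ _ from hCc _ hf₁ _ hf₃)
  set M : Set UE := symmDiff M1 (symmDiff {y₁} {y₃}) with hM
  have hy13 : y₁ ≠ y₃ := by
    rintro rfl
    have := hw.inj i₁ (by omega) i₃ h3 _ j₁ j₃
    omega
  have hMC : ∀ a ∈ M, ∀ k, IsSide k a → k ∈ C ∨ k ∉ X := by
    intro a ha k hk
    rcases sd_or ha with h1 | h1
    · exact Or.inl (m1 a h1 k hk)
    · rcases sd_or h1 with h2 | h2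
      · have h3 : a = y₁ := h2
        subst h3
        rcases side_two n₁ s₁ hgs₁ hk with rfl | rfl
        · exact Or.inl hf₁
        · exact Or.inr hg₁
      · have h3 : a = y₃ := h2
        subst h3
        rcases side_two n₃ s₃ hgs₃ hk with rfl | rfl
        · exact Or.inl hf₃
        · exact Or.inr hg₃
  obtain ⟨Φ, hΦ⟩ : ∃ Φ : ℤ × ℤ → ZMod 2, IsPot X M Φ := by
    refine hw.pot M fun k hk => evenAt_iff.2 ?_
    rw [hM]
    simp only [parAt_symmDiff]
    rw [p1, parAt_side n₁ s₁ hgs₁, parAt_side n₃ s₃ hgs₃,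
      ind2_neg (fun h => hg₁ (h ▸ hk) : ¬ k = g₁), ind2_neg (fun h => hg₃ (h ▸ hk) : ¬ k = g₃),
      add_zero, add_zero, z2_add_self]
  -- constant on the rest
  have hcst : ∀ k ∈ X \ C, ∀ a, IsSide k a → Φ (ua a) = Φ (ub a) := by
    intro k hk a ha
    by_contra h1
    rcases hMC a ((hΦ k hk.1 a ha).2 h1) k ha with h2 | h2
    · exact hk.2 h2
    · exact h2 hk.1
  have hcor : ∀ {y : UE} {f p q : ℤ × ℤ}, f ∈ X \ C → IsSide f y → Joins y p q →
      Φ p = Φ f ∧ Φ q = Φ f := by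
    intro y f p q hf hs hj
    have h1 := lab_face_const (hcst f hf) hs
    rcases hj with ⟨rfl, rfl⟩ | ⟨rfl, rfl⟩
    · exact h1
    · exact ⟨h1.2, h1.1⟩
  have h02 : Φ (w (i₀ + 1)) = Φ (w i₂) := by
    rw [(hcor hf₀ s₀ j₀).2, (hcor hf₂ s₂ j₂).1]
    exact (pot_face hf₀ hcst (hYc _ hf₀ _ hf₂)).symm
  -- the changes along the contour
  have hch : ∀ i, i < m → (Φ (w i) ≠ Φ (w (i + 1)) ↔ i = i₁ ∨ i = i₃) := by
    intro i hi
    obtain ⟨y, ⟨⟨f, hf, hs⟩, g, hg, hgs⟩, hj⟩ := hw.step i hi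
    rw [← hΦ.joins hf hs hj]
    have n1 : y ∉ M1 := fun h => hg (hCX (m1 y h g hgs))
    have e1 : y = y₁ ↔ i = i₁ := by
      constructor
      · rintro rfl
        exact hw.inj i hi i₁ (by omega) _ hj j₁
      · rintro rfl
        exact Joins.uniq hj j₁
    have e3 : y = y₃ ↔ i = i₃ := by
      constructor
      · rintro rfl
        exact hw.inj i hi i₃ h3 _ hj j₃
      · rintro rfl
        exact Joins.uniq hj j₃
    constructor
    · intro h
      rcases sd_or h with h1 | h1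
      · exact absurd h1 n1
      · rcases sd_or h1 with h2 | h2
        · exact Or.inl (e1.1 h2)
        · exact Or.inr (e3.1 h2)
    · rintro (h | h)
      · have h2 : y = y₁ := e1.2 h
        exact sd_right n1 (sd_left h2 fun h3 => hy13 (h2.symm.trans h3))
      · have h2 : y = y₃ := e3.2 h
        exact sd_right n1 (sd_right (fun h3 => hy13 ((show y = y₁ from h3).symm.trans h2)) h2)
  have r1 : Φ (w (i₀ + 1)) = Φ (w i₁) := by
    refine const_run (fun i => Φ (w i)) (by omega) fun k h3 h4 h5 => ?_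
    rcases (hch k (by omega)).1 h5 with h6 | h6 <;> omega
  have r2 : Φ (w (i₁ + 1)) = Φ (w i₂) := by
    refine const_run (fun i => Φ (w i)) (by omega) fun k h3 h4 h5 => ?_
    rcases (hch k (by omega)).1 h5 with h6 | h6 <;> omega
  exact (hch i₁ (by omega)).2 (Or.inl rfl) (by rw [← r1, h02, ← r2])

/-- The side number `i` of the contour is a side of a face of `C`. -/
def CSd (C : Set (ℤ × ℤ)) (w : ℕ → ℤ × ℤ) (i : ℕ) : Prop :=
  ∃ y f, Joins y (w i) (w (i + 1)) ∧ IsSide f y ∧ f ∈ C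

theorem csd_not {X C : Set (ℤ × ℤ)} {m : ℕ} {w : ℕ → ℤ × ℤ} (hw : Ctr X m w) (hCX : C ⊆ X)
    {i : ℕ} (hi : i < m) (h : CSd C w i) : ¬ CSd (X \ C) w i := by
  rintro ⟨y', f', hj', hs', hf'⟩
  obtain ⟨y, f, hj, hs, hf⟩ := h
  obtain ⟨e, ⟨-, g, hg, hgs⟩, hje⟩ := hw.step i hi
  have e1 := Joins.uniq hj hje
  have e2 := Joins.uniq hj' hje
  subst e1
  subst e2
  rcases side_two (fun h => hg (h ▸ hCX hf) : f ≠ g) hs hgs hs' with h1 | h1
  · exact hf'.2 (h1 ▸ hf)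
  · exact hg (h1 ▸ hf'.1)

/-- The sides of `C` are on one of the two wall arcs `[1, k₁)`, `[k₃, m)` of `X`. -/
theorem one_arc {X C : Set (ℤ × ℤ)} {m : ℕ} {w : ℕ → ℤ × ℤ} (hw : Ctr X m w) (hCX : C ⊆ X)
    (hCc : Top.EConn C) (hYc : Top.EConn (X \ C)) {k₁ k₃ : ℕ} (tip : CSd (X \ C) w 0)
    (mid : ∃ i, k₁ ≤ i + 1 ∧ i ≤ k₃ ∧ i < m ∧ CSd (X \ C) w i) :
    (∀ i < m, CSd C w i → (i < k₁ ∨ k₃ ≤ i) → i < k₁) ∨
      (∀ i < m, CSd C w i → (i < k₁ ∨ k₃ ≤ i) → k₃ ≤ i) := by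
  by_contra hno
  rw [not_or] at hno
  push Not at hno
  obtain ⟨⟨i₃, h1, h2, h3, h4⟩, ⟨i₁, h5, h6, h7, h8⟩⟩ := hno
  obtain ⟨i₂, g1, g2, g3, g4⟩ := mid
  have n0 : i₁ ≠ 0 := by
    rintro rfl
    exact csd_not hw hCX h5 h6 tip
  have n1 : i₁ ≠ i₂ := by
    rintro rfl
    exact csd_not hw hCX h5 h6 g4
  have n3 : i₃ ≠ i₂ := by
    rintro rfl
    exact csd_not hw hCX h1 h2 g4
  obtain ⟨y₀, f₀, j₀, s₀, hf₀⟩ := tip
  obtain ⟨y₁, f₁, j₁, s₁, hf₁⟩ := h6
  obtain ⟨y₂, f₂, j₂, s₂, hf₂⟩ := g4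
  obtain ⟨y₃, f₃, j₃, s₃, hf₃⟩ := h2
  exact no_alt hw hCX hCc hYc (i₀ := 0) (i₁ := i₁) (i₂ := i₂) (i₃ := i₃) (by omega) (by omega)
    (by omega) h1 j₀ s₀ hf₀ j₁ s₁ hf₁ j₂ s₂ hf₂ j₃ s₃ hf₃

/-- **The walls of a room have one colour.** `X` has the wall of colour `c` on the arc `[1, k₁)`, the
wall of colour `1 - c` on the arc `[k₃, m)` and cut sides on `[k₁, k₃)` (their outer faces are in `U`; for
`X = U` take `k₁ = k₃`). The tip side is not a side of `C`, and one of the sides `k₁ - 1, …, k₃` is not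
a side of `C`. -/
theorem walls_one {X C U : Set (ℤ × ℤ)} {m : ℕ} {w : ℕ → ℤ × ℤ} {c : ℤ} {W : ℤ → ℤ × ℤ → Prop}
    (hw : Ctr X m w) (hXU : X ⊆ U) (hCX : C ⊆ X) (hCc : Top.EConn C) (hYc : Top.EConn (X \ C))
    (hc : c = 0 ∨ c = 1) {k₁ k₃ : ℕ} (tip : CSd (X \ C) w 0)
    (mid : ∃ i, k₁ ≤ i + 1 ∧ i ≤ k₃ ∧ i < m ∧ CSd (X \ C) w i)
    (cut : ∀ i, k₁ ≤ i → i < k₃ → ∀ s g, Joins s (w i) (w (i + 1)) → IsSide g s → g ∈ U)
    (wb : ∀ i, 1 ≤ i → i < k₁ → ∀ y, (y = i ∨ y = i + 1) → par (w y) = c → W c (w y))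
    (wl : ∀ i, k₃ ≤ i → i < m → ∀ y, (y = i ∨ y = i + 1) → par (w y) ≠ c → W (1 - c) (w y)) :
    ∃ lam : ℤ, (lam = 0 ∨ lam = 1) ∧ ∀ a, (∃ f ∈ C, IsSide f a) → (∃ g, g ∉ U ∧ IsSide g a) →
      W lam (en lam a) := by
  -- the wall sides of `C`
  have hside : ∀ a, (∃ f ∈ C, IsSide f a) → (∃ g, g ∉ U ∧ IsSide g a) → ∃ i, i < m ∧
      CSd C w i ∧ (i < k₁ ∨ k₃ ≤ i) ∧ i ≠ 0 ∧ Joins a (w i) (w (i + 1)) := by
    rintro a ⟨f, hf, hs⟩ ⟨g, hg, hgs⟩
    obtain ⟨i, hi, hj⟩ := hw.all a ⟨⟨f, hCX hf, hs⟩, g, fun h => hg (hXU h), hgs⟩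
    have h1 : CSd C w i := ⟨a, f, hj, hs, hf⟩
    refine ⟨i, hi, h1, ?_, ?_, hj⟩
    · by_contra h2
      push Not at h2
      exact hg (cut i h2.1 h2.2 a g hj hgs)
    · rintro rfl
      exact csd_not hw hCX hi h1 tip
  rcases one_arc hw hCX hCc hYc tip mid with h | h
  · refine ⟨c, hc, fun a h1 h2 => ?_⟩
    obtain ⟨i, hi, g1, g2, g3, g4⟩ := hside a h1 h2
    have h4 := h i hi g1 g2
    by_cases hp : par (w i) = c
    · rw [en_joins g4 hp]
      exact wb i (by omega) h4 i (Or.inl rfl) hp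
    · have hp' : par (w (i + 1)) = c := by
        have h5 := g4.par_ne
        have h6 := par_cases (w i)
        have h7 := par_cases (w (i + 1))
        omega
      rw [en_joins g4.symm hp']
      exact wb i (by omega) h4 (i + 1) (Or.inr rfl) hp'
  · refine ⟨1 - c, by omega, fun a h1 h2 => ?_⟩
    obtain ⟨i, hi, g1, g2, g3, g4⟩ := hside a h1 h2
    have h4 := h i hi g1 g2
    by_cases hp : par (w i) = c
    · have hp' : par (w (i + 1)) = 1 - c := by
        have h5 := g4.par_ne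
        have h6 := par_cases (w i)
        have h7 := par_cases (w (i + 1))
        omega
      rw [en_joins g4.symm hp']
      exact wl i h4 hi (i + 1) (Or.inr rfl) (by omega)
    · rw [en_joins g4 (by
        have h6 := par_cases (w i)
        omega : par (w i) = 1 - c)]
      exact wl i h4 hi i (Or.inl rfl) hp

/-! ### Rooms of the coarse polygon -/

section Room

variable {ι : Type*} {P : Set (ℤ × ℤ)} {κ : ℤ × ℤ → ι} {D : ℤ} {x : ℤ × ℤ}

/-- The room of `x`. -/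
def Rm (V P : Set (ℤ × ℤ)) (κ : ℤ × ℤ → ι) (x : ℤ × ℤ) : Set (ℤ × ℤ) := compT (V \ (P ∪ Col V P κ)) x

theorem rm_sub (hx : x ∈ V \ (P ∪ Col V P κ)) : Rm V P κ x ⊆ V \ (P ∪ Col V P κ) := compT_sub hx

theorem rm_econn (hx : x ∈ V \ (P ∪ Col V P κ)) : Top.EConn (Rm V P κ x) := econn_compT hx

/-- A neighbour of the room in `V` is in `Col`. -/
theorem rm_col (hx : x ∈ V \ (P ∪ Col V P κ)) {f g : ℤ × ℤ} (hf : f ∈ Rm V P κ x) (hg : g ∈ V)
    (hgC : g ∉ Rm V P κ x) (hfg : AdjF f g) : g ∈ Col V P κ := by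
  have hfW := rm_sub hx hf
  by_contra h1
  by_cases h2 : g ∈ P
  · exact hfW.2 (Or.inr ⟨g, h2, f, hfg.symm, hfW.1, fun h3 => hfW.2 (Or.inl h3), ChI.refl _⟩)
  · exact hgC (compT_step hf hfg ⟨hg, fun h3 => h3.elim h2 h1⟩)

/-- The rest of `V` is connected. -/
theorem rm_rest (hVc : Top.EConn V) (hPc : Top.EConn P) (h : Appx V P κ D) {p : ℤ × ℤ} (hp : p ∈ P)
    (hx : x ∈ V \ (P ∪ Col V P κ)) : Top.EConn (V \ Rm V P κ x) := by
  classical
  have hPY : P ⊆ V \ Rm V P κ x := fun f hf => ⟨h.sub hf, fun h1 => (rm_sub hx h1).2 (Or.inl hf)⟩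
  have hCY : ∀ f ∈ Col V P κ, f ∈ V \ Rm V P κ x := fun f hf =>
    ⟨(col_sub h hf).1, fun h1 => (rm_sub hx h1).2 (Or.inr hf)⟩
  -- from `Col` to `p`
  have key1 : ∀ f ∈ P ∪ Col V P κ, ChI (V \ Rm V P κ x) f p := by
    rintro f (hf | hf)
    · exact ChI.mono hPY (hPc _ hf _ hp)
    · obtain ⟨f₁, h1, g₀, h2, h3, h4, h5⟩ := hf
      have h6 : ChI (V \ Rm V P κ x) g₀ f := by
        have h7 : ∀ g, ChI (V ∩ {z | κ z = κ g₀}) g₀ g → ChI (V \ Rm V P κ x) g₀ g := by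
          intro g hg
          induction hg with
          | refl => exact ChI.refl _
          | @tail b d hb hs ih =>
            refine ih.trans (ChI.single hs.1 (hCY d ⟨f₁, h1, g₀, h2, h3, h4, ?_⟩))
            exact Relation.ReflTransGen.tail hb hs
        exact h7 f h5
      have h8 : g₀ ∈ V \ Rm V P κ x := hCY g₀ ⟨f₁, h1, g₀, h2, h3, h4, ChI.refl _⟩
      exact (ChI.symm h8 h6).trans ((ChI.single h2.symm (hPY h1)).trans
        (ChI.mono hPY (hPc _ h1 _ hp)))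
  have key2 : ∀ f ∈ V \ Rm V P κ x, ChI (V \ Rm V P κ x) f p := by
    intro f hf
    by_cases hfW : f ∈ P ∪ Col V P κ
    · exact key1 f hfW
    · -- the first face of a chain to `p` which is in `P ∪ Col`
      have h1 : ChI V f p := hVc _ hf.1 _ (h.sub hp)
      have h2 : ∀ g, ChI V f g → (∃ k ∈ P ∪ Col V P κ, ChI (V \ Rm V P κ x) f k) ∨
          (ChI (V \ Rm V P κ x) f g ∧ g ∉ P ∪ Col V P κ) := by
        intro g hg
        induction hg with
        | refl => exact Or.inr ⟨ChI.refl _, hfW⟩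
        | @tail b d hb hs ih =>
          rcases ih with ih | ⟨ih1, ih2⟩
          · exact Or.inl ih
          · have hbY : b ∈ V \ Rm V P κ x := ChI.mem hf ih1
            have hdY : d ∈ V \ Rm V P κ x := by
              refine ⟨hs.2, fun h3 => hbY.2 ?_⟩
              exact compT_step h3 hs.1.symm ⟨hbY.1, ih2⟩
            have h4 := ih1.trans (ChI.single hs.1 hdY)
            by_cases h5 : d ∈ P ∪ Col V P κ
            · exact Or.inl ⟨d, h5, h4⟩
            · exact Or.inr ⟨h4, h5⟩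
      rcases h2 p h1 with ⟨k, h3, h4⟩ | ⟨-, h3⟩
      · exact h4.trans (key1 k h3)
      · exact absurd (Or.inl hp) h3
  intro f hf g hg
  exact (key2 f hf).trans (ChI.symm hg (key2 g hg))

/-- The mouth of a room is in a box of radius `2 * D` around any of its faces. -/
theorem rm_mouth (hVf : V.Finite) (hVc : Top.EConn V) (hV : Esc V) (hPc : Top.EConn P) (hP : Esc P)
    (h : Appx V P κ D) (hx : x ∈ V \ (P ∪ Col V P κ)) {f₀ z : ℤ × ℤ} (hf₀ : f₀ ∈ Rm V P κ x)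
    (hz : z ∈ Col V P κ) (hfz : AdjF f₀ z) : ∀ a f g, f ∈ Rm V P κ x → g ∈ V → g ∉ Rm V P κ x →
      IsSide f a → IsSide g a → InB z (2 * D) a := by
  intro a f g hf hg hgC hfa hga
  have hfg : AdjF f g := ⟨fun h1 => hgC (h1 ▸ hf), a, hfa, hga⟩
  have h1 := mouth hVf hVc hV hPc hP h hx hf₀ hf hfz hfg hz (rm_col hx hf hg hgC hfg)
  have h2 := PotB.cor_ua hga
  rw [abs_lt, abs_lt] at h1
  unfold IsCor at h2
  unfold InB InR
  omega

/-- **Deep in a room of the coarse polygon there is a gate.** -/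
theorem room_gate {E : Ex} {ω : Cfg} {s t : ℕ} {lam : ℤ} {p z f₀ : ℤ × ℤ} (hVf : V.Finite)
    (hVc : Top.EConn V) (hV : Esc V) (hVF : V ⊆ E.Fr ω s) (hPc : Top.EConn P) (hP : Esc P)
    (hp : p ∈ P) (h : Appx V P κ D) (hx : x ∈ V \ (P ∪ Col V P κ)) (he : fb (E.e ω) ∉ E.U ω)
    (hn : Nb (E.cf ω) (E.e ω) t) (hst : s ≤ t) (hsY : fa (E.p ω s) ∈ V \ Rm V P κ x)
    (htC : fa (E.p ω t) ∈ Rm V P κ x) (hlam : lam = 0 ∨ lam = 1)
    (hwall : ∀ a, (∃ f ∈ Rm V P κ x, IsSide f a) → (∃ g, g ∉ V ∧ IsSide g a) →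
      E.Sid lam ω s (en lam a)) (hf₀ : f₀ ∈ Rm V P κ x) (hz : z ∈ Col V P κ) (hfz : AdjF f₀ z)
    (hfar : ∃ f ∈ Rm V P κ x, ¬ InR (z.1 - 2 * D) (z.1 + 2 * D) (z.2 - 2 * D) (z.2 + 2 * D) f) :
    E.Gate ω t z (2 * D + 1) :=
  leak_gate hVf hVc hV hVF (fun _ hf => (rm_sub hx hf).1) (rm_econn hx)
    (rm_rest hVc hPc h hp hx) he hn hst hsY htC hlam hwall
    (rm_mouth hVf hVc hV hPc hP h hx hf₀ hz hfz) hfar

end Room

end Pool.Agent.SixB.Lk
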