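import Pool.Agent.Lib.SixB.S8LemCb

/-!
# Lemma C: near and far points, selection of the connectors, one direction of the estimate
-/

set_option autoImplicit false

namespace Pool.Agent.SixB.LC

open Finset Pool.Agent.Perc Pool.Agent.Perc6 Pool.Agent.PercT

variable {U P : Finset (ℤ × ℤ)} {m : ℕ} {w : ℕ → ℤ × ℤ} {k1 k2 k3 m' : ℕ} {w' : ℕ → ℤ × ℤ}
  {l1 l2 l3 : ℕ} {d : ℤ} {σ : ℕ → Set (ℤ × ℤ)}

/-- No box of radius `ρ` contains a path of colour `c` of any configuration from the arc `[a0, a1]` to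
the arc `[b0, b1]` by faces of `U`. -/
def HD (c : ℤ) (U : Finset (ℤ × ℤ)) (w : ℕ → ℤ × ℤ) (a0 a1 b0 b1 : ℕ) (ρ : ℤ) : Prop :=
  ∀ (ω : Cfg) (z : ℤ × ℤ) (a k : ℕ), a0 ≤ a → a ≤ a1 → b0 ≤ k → k ≤ b1 → par (w a) = c →
    ¬ Conn ω ((U : Set (ℤ × ℤ)) ∩ RFb z ρ) (w a) (w k)

/-- The property of `Apr.ext`: the side `l` of `U` is joined to the side `s` of `P`. -/
def Ext (w w' : ℕ → ℤ × ℤ) (σ : ℕ → Set (ℤ × ℤ)) (s l : ℕ) : Prop :=
  ∀ (c : ℤ) (x : ℤ × ℤ) (ω : Cfg), (c = 0 ∨ c = 1) →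
    (x = w' s ∨ x = w' (s + 1) ∨ ∃ f ∈ σ s, IsCor f x) → par x = c →
    (∀ f ∈ σ s, Col ω c f) →
    ∃ a, (a = l ∨ a = l + 1) ∧ par (w a) = c ∧ Conn ω (σ s) x (w a)

theorem Apr.nearP (A : Apr U P m w k1 k2 k3 m' w' l1 l2 l3 d σ) {s i : ℕ} (hs : s < m')
    (his : i = s ∨ i = s + 1) : InB (w' s) 1 (w' i) := by
  rcases his with rfl | rfl
  · unfold InB; omega
  · obtain ⟨e, -, h⟩ := A.ctP.step s hs
    exact joins_near h

theorem Apr.nearC (A : Apr U P m w k1 k2 k3 m' w' l1 l2 l3 d σ) {s i : ℕ} (hs : s < m')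
    (his : i = s ∨ i = s + 1) {f : ℤ × ℤ} (hf : f ∈ σ s) : f ∈ RFb (w' i) (d + 1) := by
  have h1 := A.nearP hs his
  have h2 := A.near s hs f hf
  rw [mem_RFb] at h2 ⊢
  unfold InB at h1
  omega

/-- A linking box: the `c`-path of `P` comes near it, or a configuration has both connections. -/
theorem Apr.near02 (A : Apr U P m w k1 k2 k3 m' w' l1 l2 l3 d σ) {ω : Cfg} {c : ℤ}
    (hc : c = 0 ∨ c = 1) {i s l t ls lt : ℕ} (hs : s < m') (his : i = s ∨ i = s + 1) (ht : t < m')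
    (hlt : l = t ∨ l = t + 1) (hpi : par (w' i) = c) (hcon : Conn ω P (w' i) (w' l))
    (hS : Ext w w' σ s ls) (hT : Ext w w' σ t lt) {z1 : ℤ × ℤ} {R : ℤ} {a1 b1 : ℕ}
    (hodd : par (w a1) = 1 - c)
    (hlink : Conn (allc (1 - c)) ((U : Set (ℤ × ℤ)) ∩ RFb z1 R) (w a1) (w b1)) :
    (∃ x, InB z1 (R + d + 1) x ∧ Conn ω P (w' i) x ∧ Conn ω P x (w' l)) ∨
    (∃ ω' a0 a2, (a0 = ls ∨ a0 = ls + 1) ∧ (a2 = lt ∨ a2 = lt + 1) ∧ par (w a0) = c ∧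
      par (w a2) = c ∧ Conn ω' U (w a0) (w a2) ∧ Conn ω' U (w a1) (w b1)) := by
  have hd := A.d1
  rcases conn_last (RFb z1 R : Set (ℤ × ℤ)) hcon with h1 | ⟨x, ⟨f, hf, -, hfx, -⟩, h2, h3⟩
  · by_cases e1 : ∃ f ∈ σ s, f ∈ RFb z1 R
    · obtain ⟨f, hf, hfz⟩ := e1
      refine Or.inl ⟨w' i, ?_, Relation.ReflTransGen.refl, hcon⟩
      have h4 := A.nearC hs his hf
      rw [mem_RFb] at h4 hfz
      unfold InB
      omega
    by_cases e2 : ∃ f ∈ σ t, f ∈ RFb z1 R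
    · obtain ⟨f, hf, hfz⟩ := e2
      refine Or.inl ⟨w' l, ?_, hcon, Relation.ReflTransGen.refl⟩
      have h4 := A.nearC ht hlt hf
      rw [mem_RFb] at h4 hfz
      unfold InB
      omega
    push Not at e1 e2
    right
    set K : Set (ℤ × ℤ) := σ s ∪ σ t with hK
    have hKR : ∀ f ∈ K, f ∉ RFb z1 R := by
      rintro f (h | h)
      · exact e1 f h
      · exact e2 f h
    have hKU : K ⊆ (U : Set (ℤ × ℤ)) := by
      rintro f (hf | hf)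
      · exact mem_coe.2 (A.out s hs f hf).1
      · exact mem_coe.2 (A.out t ht f hf).1
    have hKP : ∀ f ∈ K, f ∉ P := by
      rintro f (hf | hf)
      · exact (A.out s hs f hf).2
      · exact (A.out t ht f hf).2
    have hPU : (P : Set (ℤ × ℤ)) ⊆ U := coe_subset.2 A.sub
    obtain ⟨a0, a2, g1, g2, g3, g4, g5⟩ := A.path02 (ω' := rep c K (RFb z1 R) ω)
      (F := (P : Set (ℤ × ℤ)) \ RFb z1 R) (G := U) hc his
      hlt hpi hS hT (fun f hf => rep_col (Or.inl hf)) (fun f hf => rep_col (Or.inr hf))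
      (fun f hf => hKU (Or.inl hf)) (fun f hf => hKU (Or.inr hf)) (fun f hf => hPU hf.1)
      (conn_up hpi (fun f hf hfc => ⟨hf, rep_out (fun h => hKP f h hf.1) hf.2 hfc⟩) h1)
    refine ⟨rep c K (RFb z1 R) ω, a0, a2, g1, g2, g3, g4, g5, ?_⟩
    refine conn_up hodd (fun f hf hfc => ⟨hf.1, ?_⟩) hlink
    exact rep_col' (fun h => hKR f h hf.2) hf.2
  · refine Or.inl ⟨x, ?_, h2, conn_mono Set.sdiff_subset h3⟩
    have := inB_of_mem_RFb (mem_coe.1 hf) hfx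
    unfold InB at this ⊢
    omega

/-- The `c`-path of `P` does not stay in a box of radius `ρ - d - 1`. -/
theorem Apr.far02 (A : Apr U P m w k1 k2 k3 m' w' l1 l2 l3 d σ) {ω : Cfg} {c : ℤ}
    (hc : c = 0 ∨ c = 1) {i s l t ls lt : ℕ} (hs : s < m') (his : i = s ∨ i = s + 1) (ht : t < m')
    (hlt : l = t ∨ l = t + 1) (hpi : par (w' i) = c) (hcon : Conn ω P (w' i) (w' l))
    (hS : Ext w w' σ s ls) (hT : Ext w w' σ t lt) (hls : lab k1 k2 k3 ls = 0)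
    (hlt2 : lab k1 k2 k3 lt = 2) {ρ : ℤ} (H : HD c U w 0 k1 k2 k3 ρ) (z1 : ℤ × ℤ) {x : ℤ × ℤ}
    (hx : Conn ω P (w' i) x) : ∃ y, Conn ω P x y ∧ ¬ InO z1 (ρ - d - 1) y := by
  have hd := A.d1
  rcases conn_exit z1 (ρ - d - 1) hcon with ⟨y, h1, -, h3⟩ | ⟨h1, h2, h3⟩
  · exact ⟨y, conn_trans (conn_symm hx) h1, h3⟩
  · exfalso
    set K : Set (ℤ × ℤ) := σ s ∪ σ t with hK
    have hKR : ∀ f ∈ K, f ∈ RFb z1 ρ := by
      rintro f (h | h)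
      · have h4 := A.nearC hs his h
        rw [mem_RFb] at h4 ⊢
        unfold InO at h2
        omega
      · have h4 := A.nearC ht hlt h
        rw [mem_RFb] at h4 ⊢
        unfold InO at h3
        omega
    have hKU : K ⊆ (U : Set (ℤ × ℤ)) := by
      rintro f (hf | hf)
      · exact mem_coe.2 (A.out s hs f hf).1
      · exact mem_coe.2 (A.out t ht f hf).1
    have hKP : ∀ f ∈ K, f ∉ P := by
      rintro f (hf | hf)
      · exact (A.out s hs f hf).2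
      · exact (A.out t ht f hf).2
    have hPU : (P : Set (ℤ × ℤ)) ⊆ U := coe_subset.2 A.sub
    obtain ⟨a0, a2, g1, g2, g3, g4, g5⟩ := A.path02 (ω' := rep c K ∅ ω)
      (F := (P : Set (ℤ × ℤ)) ∩ RFb z1 (ρ - d - 1)) (G := (U : Set (ℤ × ℤ)) ∩ RFb z1 ρ) hc his
      hlt hpi hS hT (fun f hf => rep_col (Or.inl hf)) (fun f hf => rep_col (Or.inr hf))
      (fun f hf => ⟨hKU (Or.inl hf), hKR f (Or.inl hf)⟩)
      (fun f hf => ⟨hKU (Or.inr hf), hKR f (Or.inr hf)⟩)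
      (fun f hf => ⟨hPU hf.1, by
        have h5 := hf.2
        rw [mem_coe, mem_RFb] at h5 ⊢
        omega⟩)
      (conn_up hpi (fun f hf hfc => ⟨hf, rep_out (fun h => hKP f h hf.1)
        (Set.notMem_empty f) hfc⟩) h1)
    exact H _ z1 a0 a2 (Nat.zero_le _) (lab0 hls g1) (lab2 hlt2 g2).1 (lab2 hlt2 g2).2 g3 g5

/-- A path near a connector gives a linking box. -/
theorem Apr.link (A : Apr U P m w k1 k2 k3 m' w' l1 l2 l3 d σ) {ω : Cfg} {c : ℤ}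
    (hc : c = 0 ∨ c = 1) {i s ls b : ℕ} (hs : s < m') (his : i = s ∨ i = s + 1)
    (hS : Ext w w' σ s ls) (hn1 : InB (w' s) d (w ls)) (hn2 : InB (w' s) d (w (ls + 1)))
    {v : ℤ × ℤ} (hv : ∃ f ∈ σ s, IsCor f v) (hpv : par v = 1 - c) {R : ℤ} (hR : d + 1 ≤ R)
    (h : Conn ω ((U : Set (ℤ × ℤ)) ∩ RFb (w' i) R) v (w b)) :
    ∃ a, (a = ls ∨ a = ls + 1) ∧ par (w a) = 1 - c ∧ InB (w' i) R (w a) ∧
      Conn (allc (1 - c)) ((U : Set (ℤ × ℤ)) ∩ RFb (w' i) R) (w a) (w b) := by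
  have hd := A.d1
  obtain ⟨a, h1, h2, h3⟩ := hS (1 - c) v (allc (1 - c)) (by omega) (Or.inr (Or.inr hv)) hpv
    (fun f _ => allc_col _ f)
  refine ⟨a, h1, h2, ?_, conn_trans (conn_symm (conn_mono ?_ h3)) (conn_up hpv
    (fun f hf _ => ⟨hf, allc_col _ f⟩) h)⟩
  · have h4 := A.nearP hs his
    have h5 : InB (w' s) d (w a) := by
      rcases h1 with rfl | rfl
      · exact hn1
      · exact hn2
    unfold InB at h4 h5 ⊢
    omega
  · intro f hf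
    refine ⟨mem_coe.2 (A.out s hs f hf).1, ?_⟩
    have h4 := A.nearC hs his hf
    rw [mem_coe, mem_RFb] at *
    omega

/-- The data of a `c`-path from arc 0 to arc 2 of `P`: `i, s, l, t` with the sides `s`, `t` at the
vertices `i`, `l`. -/
def Sel (P : Finset (ℤ × ℤ)) (m' : ℕ) (w' : ℕ → ℤ × ℤ) (l1 l2 l3 : ℕ) (c : ℤ) (ω : Cfg)
    (q : ℕ × ℕ × ℕ × ℕ) : Prop :=
  q.2.1 < m' ∧ lab l1 l2 l3 q.2.1 = 0 ∧ (q.1 = q.2.1 ∨ q.1 = q.2.1 + 1) ∧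
    q.2.2.2 < m' ∧ lab l1 l2 l3 q.2.2.2 = 2 ∧ (q.2.2.1 = q.2.2.2 ∨ q.2.2.1 = q.2.2.2 + 1) ∧
    par (w' q.1) = c ∧ Conn ω P (w' q.1) (w' q.2.2.1)

theorem Sel.mem {c : ℤ} {ω : Cfg} {q : ℕ × ℕ × ℕ × ℕ} (h : Sel P m' w' l1 l2 l3 c ω q) :
    ω ∈ XA c P w' 0 l1 l2 l3 := by
  obtain ⟨h1, h2, h3, h4, h5, h6, h7, h8⟩ := h
  exact ⟨q.1, q.2.2.1, Nat.zero_le _, lab0 h2 h3, (lab2 h5 h6).1, (lab2 h5 h6).2, h7, h8⟩

theorem Apr.exists_sel (A : Apr U P m w k1 k2 k3 m' w' l1 l2 l3 d σ) {c : ℤ} {ω : Cfg}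
    (h : ω ∈ XA c P w' 0 l1 l2 l3) : ∃ q, Sel P m' w' l1 l2 l3 c ω q := by
  obtain ⟨i, k, -, h1, h2, h3, h4, h5⟩ := h
  obtain ⟨s, s1, s2, s3⟩ := A.side0 h1
  obtain ⟨t, t1, t2, t3⟩ := A.side2 h2 h3
  exact ⟨(i, s, k, t), s1, s2, s3, t1, t2, t3, h4, h5⟩

/-- Complementary crossings in a contour domain. -/
theorem XA_du {F : Finset (ℤ × ℤ)} {n : ℕ} {v : ℕ → ℤ × ℤ} {p1 p2 p3 : ℕ}
    (h : Ctr (F : Set (ℤ × ℤ)) n v) (h12 : p1 ≤ p2) (h23 : p2 ≤ p3) (h3 : p3 ≤ n) {ω : Cfg} {c : ℤ}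
    (hc : c = 0 ∨ c = 1) (hω : ω ∉ XA c F v 0 p1 p2 p3) : ω ∈ XA (1 - c) F v p1 p2 p3 n := by
  obtain ⟨b, b', g1, g2, g3, g4, g5, g6⟩ := arc_du h ω hc (Nat.zero_le p1) h12 h23 h3
    (fun i k _ h2 h3 h4 h5 h6 => hω ⟨i, k, Nat.zero_le _, h2, h3, h4, h5, h6⟩)
  have cb := par_cases (v b)
  rcases g3 with g3 | g3
  · have : b' = 0 := by omega
    subst this
    rw [← h.close] at g6
    exact ⟨b, n, g1, g2, by omega, le_rfl, by omega, g6⟩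
  · exact ⟨b, b', g1, g2, g3, g4, by omega, g6⟩

theorem XA_nc {F : Finset (ℤ × ℤ)} {n : ℕ} {v : ℕ → ℤ × ℤ} {p1 p2 p3 : ℕ}
    (h : Ctr (F : Set (ℤ × ℤ)) n v) {ω : Cfg} {c : ℤ} (hc : c = 0 ∨ c = 1)
    (hω : ω ∈ XA c F v 0 p1 p2 p3) (hω' : ω ∈ XA (1 - c) F v p1 p2 p3 n) : False := by
  obtain ⟨i, k, -, h1, h2, h3, h4, h5⟩ := hω
  obtain ⟨b, b', g1, g2, g3, g4, g5, g6⟩ := hω'
  exact arcs_nc h (c := c) h1 g1 g2 h2 h3 g3 g4 h4 (by rw [g5]; omega) h5 g6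

/-! ### The stopped configuration -/

open Classical in
/-- Colour `1 - c` outside of `S`. -/
noncomputable def fzn (c : ℤ) (S : Set (ℤ × ℤ)) (ω : Cfg) : Cfg :=
  fun f => if f ∈ S then ω f else !parD (1 - c) f

theorem fzn_mem {c : ℤ} {S : Set (ℤ × ℤ)} {ω : Cfg} {f : ℤ × ℤ} (h : f ∈ S) :
    fzn c S ω f = ω f := if_pos h

theorem fzn_col {c : ℤ} (hc : c = 0 ∨ c = 1) {S : Set (ℤ × ℤ)} {ω : Cfg} {f : ℤ × ℤ}
    (h : Col (fzn c S ω) c f) : f ∈ S ∧ Col ω c f := by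
  by_cases hf : f ∈ S
  · refine ⟨hf, ?_⟩
    unfold Col at *
    rwa [fzn_mem hf] at h
  · exfalso
    have h' : Col (fzn c S ω) (1 - c) f := by
      unfold Col fzn
      rw [if_neg hf]
    have := col_uniq hc (by omega) h h'
    omega

theorem fzn_congr {c : ℤ} {S : Set (ℤ × ℤ)} {ω ω' : Cfg} (h : ∀ f ∈ S, ω f = ω' f) :
    fzn c S ω = fzn c S ω' := by
  funext f
  unfold fzn
  by_cases hf : f ∈ S
  · rw [if_pos hf, if_pos hf, h f hf]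
  · rw [if_neg hf, if_neg hf]

/-- The exploration from the arc 3 of `P`. -/
def SX (P : Finset (ℤ × ℤ)) (m' : ℕ) (w' : ℕ → ℤ × ℤ) (l3 : ℕ) (c : ℤ) (ω : Cfg) : Set (ℤ × ℤ) :=
  Wx ω P (Arc3 c w' l3 m')

theorem SX_stop {c : ℤ} (ω ω' : Cfg) (h : ∀ f ∈ SX P m' w' l3 c ω, ω f = ω' f) :
    SX P m' w' l3 c ω' = SX P m' w' l3 c ω := wx_stop ω ω' h

theorem Apr.sel_fzn (A : Apr U P m w k1 k2 k3 m' w' l1 l2 l3 d σ) {c : ℤ} (hc : c = 0 ∨ c = 1)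
    {ω : Cfg} (h : ω ∈ XA c P w' 0 l1 l2 l3) :
    ∃ q, Sel P m' w' l1 l2 l3 c (fzn c (SX P m' w' l3 c ω) ω) q := by
  have hl1 := A.l01; have hl2 := A.l12; have hl3 := A.l23; have hl4 := A.l3m
  apply A.exists_sel
  by_contra hno
  have h1 := XA_du A.ctP (by omega) (by omega) (by omega) hc hno
  refine XA_nc A.ctP hc h ?_
  obtain ⟨b, b', g1, g2, g3, g4, g5, g6⟩ := h1
  refine ⟨b, b', g1, g2, g3, g4, g5, conn_symm ?_⟩
  have hag : ∀ f ∈ SX P m' w' l3 c ω, ω f = fzn c (SX P m' w' l3 c ω) ω f :=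
    fun f hf => (fzn_mem hf).symm
  refine (conn_wx hag ?_).2 (conn_symm g6)
  exact ⟨b', g3, g4, rfl, by rw [← g6.par_eq]; exact g5⟩

theorem sel_of_fzn {c : ℤ} (hc : c = 0 ∨ c = 1) {ω : Cfg} {S : Set (ℤ × ℤ)}
    {q : ℕ × ℕ × ℕ × ℕ} (h : Sel P m' w' l1 l2 l3 c (fzn c S ω) q) :
    Sel P m' w' l1 l2 l3 c ω q := by
  obtain ⟨h1, h2, h3, h4, h5, h6, h7, h8⟩ := h
  exact ⟨h1, h2, h3, h4, h5, h6, h7, conn_up h7 (fun f hf hfc => ⟨hf, (fzn_col hc hfc).2⟩) h8⟩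

open Classical in
/-- The selected data, a function of the stopped configuration. -/
noncomputable def qS (P : Finset (ℤ × ℤ)) (m' : ℕ) (w' : ℕ → ℤ × ℤ) (l1 l2 l3 : ℕ) (c : ℤ)
    (ω : Cfg) : ℕ × ℕ × ℕ × ℕ :=
  if h : ∃ q, Sel P m' w' l1 l2 l3 c (fzn c (SX P m' w' l3 c ω) ω) q then h.choose else (0, 0, 0, 0)

theorem Apr.qS_spec (A : Apr U P m w k1 k2 k3 m' w' l1 l2 l3 d σ) {c : ℤ} (hc : c = 0 ∨ c = 1)
    {ω : Cfg} (h : ω ∈ XA c P w' 0 l1 l2 l3) :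
    Sel P m' w' l1 l2 l3 c ω (qS P m' w' l1 l2 l3 c ω) := by
  have h1 := A.sel_fzn hc h
  unfold qS
  rw [dif_pos h1]
  exact sel_of_fzn hc h1.choose_spec

theorem qS_congr {c : ℤ} {ω ω' : Cfg} (h : ∀ f ∈ SX P m' w' l3 c ω, ω f = ω' f) :
    qS P m' w' l1 l2 l3 c ω' = qS P m' w' l1 l2 l3 c ω := by
  have h1 := SX_stop ω ω' h
  have h2 : fzn c (SX P m' w' l3 c ω') ω' = fzn c (SX P m' w' l3 c ω) ω := by
    rw [h1]
    exact (fzn_congr h).symm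
  unfold qS
  rw [h2]

theorem Apr.XA_stop (A : Apr U P m w k1 k2 k3 m' w' l1 l2 l3 d σ) {c : ℤ} (hc : c = 0 ∨ c = 1)
    {ω ω' : Cfg} (h : ω ∈ XA c P w' 0 l1 l2 l3) (h' : ∀ f ∈ SX P m' w' l3 c ω, ω f = ω' f) :
    ω' ∈ XA c P w' 0 l1 l2 l3 := by
  obtain ⟨q, hq⟩ := A.sel_fzn hc h
  have h1 := SX_stop ω ω' h'
  have h2 : fzn c (SX P m' w' l3 c ω') ω' = fzn c (SX P m' w' l3 c ω) ω := by
    rw [h1]
    exact (fzn_congr h').symm
  rw [← h2] at hq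
  exact (sel_of_fzn hc hq).mem

/-- The linking property of the index `a` in the interval `[x0, x1]` of `U` with the arc 1. -/
def Lk (c : ℤ) (U : Finset (ℤ × ℤ)) (w : ℕ → ℤ × ℤ) (k1 k2 x0 x1 : ℕ) (R : ℤ) (a : ℕ) : Prop :=
  x0 ≤ a ∧ a ≤ x1 ∧ par (w a) = 1 - c ∧ ∃ z b, k1 ≤ b ∧ b ≤ k2 ∧ InB z R (w a) ∧
    Conn (allc (1 - c)) ((U : Set (ℤ × ℤ)) ∩ RFb z R) (w a) (w b)

/-- Arms at the first linking box of arc 0. -/
theorem Apr.arm0 (A : Apr U P m w k1 k2 k3 m' w' l1 l2 l3 d σ) {c : ℤ}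
    (hc : c = 0 ∨ c = 1) {R ρ : ℤ} (H : HD c U w 0 k1 k2 k3 ρ) :
    ∃ z1 : ℤ × ℤ, ∀ (ω : Cfg) (q : ℕ × ℕ × ℕ × ℕ) (a ls : ℕ), Sel P m' w' l1 l2 l3 c ω q →
      lab k1 k2 k3 ls = 0 → Ext w w' σ q.2.1 ls → InB (w' q.2.1) d (w ls) →
      InB (w' q.2.1) d (w (ls + 1)) → (a = ls ∨ a = ls + 1) → Lk c U w k1 k2 0 k1 R a →
      ω ∈ FArm c P z1 (R + d + 1) (ρ - d - 1) := by
  classical
  by_cases hex : ∃ a, Lk c U w k1 k2 0 k1 R a
  · obtain ⟨g1, g2, g3, z1, b1, g4, g5, g6, g7⟩ := Nat.find_spec hex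
    have hmin := fun a (h : Lk c U w k1 k2 0 k1 R a) => Nat.find_min' hex h
    set a1 := Nat.find hex with ha1
    refine ⟨z1, ?_⟩
    intro ω q a ls hq hls hS hn1 hn2 ha hL
    obtain ⟨h1, h2, h3, h4, h5, h6, h7, h8⟩ := hq
    obtain ⟨lt, hlt, hlabt, -, -, hT⟩ := A.ext h4
    rw [h5] at hlabt
    have hk12 := A.k12; have hk23 := A.k23; have hk3m := A.k3m
    have hx : ∃ x, InB z1 (R + d + 1) x ∧ Conn ω P (w' q.1) x ∧ Conn ω P x (w' q.2.2.1) := by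
      rcases A.near02 hc h1 h3 h4 h6 h7 h8 hS hT g3 g7 with h9 | ⟨ω', a0, a2, e1, e2, e3, e4, e5, e6⟩
      · exact h9
      · have hle := hmin a hL
        have hpb : par (w b1) = 1 - c := by rw [← g7.par_eq]; exact g3
        have n1 : a0 ≠ a1 := by rintro rfl; omega
        have n2 : a0 ≠ b1 := by rintro rfl; omega
        have n3 : a2 ≠ b1 := by rintro rfl; omega
        have n4 : a0 ≠ a := by rintro rfl; have := hL.2.2.1; omega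
        have ia0 := lab0 hls e1
        have ia2 := lab2 hlabt e2
        rcases Nat.lt_or_ge a1 a0 with h9 | h9
        · exact (ctr_nc A.ctU ω' (t := a1) (b := a0) (a := b1) (b' := a2) h9 (by omega) (by omega)
            (Or.inr (by omega)) (by omega) (by omega) e6 e5).elim
        · have haa : a1 = a := by omega
          refine ⟨w' q.1, ?_, Relation.ReflTransGen.refl, h8⟩
          have h10 := A.nearP h1 h3
          have h11 : InB (w' q.2.1) d (w a1) := by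
            rw [haa]
            rcases ha with rfl | rfl
            · exact hn1
            · exact hn2
          unfold InB at h10 h11 g6 ⊢
          omega
    obtain ⟨x, hx1, hx2, hx3⟩ := hx
    obtain ⟨y, hy1, hy2⟩ := A.far02 hc h1 h3 h4 h6 h7 h8 hS hT hls hlabt H z1 hx2
    have hpx : par x = c := by rw [← hx2.par_eq]; exact h7
    unfold InB at hx1
    refine ⟨x, y, hx1.1, hx1.2.1, hx1.2.2.1, hx1.2.2.2, ?_, hy2, hy1⟩
    unfold par at hpx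
    omega
  · refine ⟨(0, 0), ?_⟩
    intro ω q a ls _ _ _ _ _ _ hL
    exact absurd ⟨a, hL⟩ hex

/-- Arms at the last linking box of arc 2. -/
theorem Apr.arm2 (A : Apr U P m w k1 k2 k3 m' w' l1 l2 l3 d σ) {c : ℤ}
    (hc : c = 0 ∨ c = 1) {R ρ : ℤ} (H : HD c U w 0 k1 k2 k3 ρ) :
    ∃ z1 : ℤ × ℤ, ∀ (ω : Cfg) (q : ℕ × ℕ × ℕ × ℕ) (a lt : ℕ), Sel P m' w' l1 l2 l3 c ω q →
      lab k1 k2 k3 lt = 2 → Ext w w' σ q.2.2.2 lt → InB (w' q.2.2.2) d (w lt) →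
      InB (w' q.2.2.2) d (w (lt + 1)) → (a = lt ∨ a = lt + 1) → Lk c U w k1 k2 k2 k3 R a →
      ω ∈ FArm c P z1 (R + d + 1) (ρ - d - 1) := by
  classical
  by_cases hex : ∃ a, Lk c U w k1 k2 k2 k3 R a
  · obtain ⟨a1, hL1, hmax⟩ : ∃ a1, Lk c U w k1 k2 k2 k3 R a1 ∧
        ∀ a, Lk c U w k1 k2 k2 k3 R a → a ≤ a1 := by
      set X := (Finset.range (k3 + 1)).filter (fun a => Lk c U w k1 k2 k2 k3 R a) with hX
      have hne : X.Nonempty := by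
        obtain ⟨a, ha⟩ := hex
        exact ⟨a, by rw [hX, Finset.mem_filter, Finset.mem_range]; exact ⟨by have := ha.2.1; omega, ha⟩⟩
      have hm := X.max'_mem hne
      have hle : ∀ a ∈ X, a ≤ X.max' hne := fun a ha => X.le_max' a ha
      set a1 := X.max' hne
      rw [hX, Finset.mem_filter] at hm
      refine ⟨a1, hm.2, fun a ha => hle a ?_⟩
      rw [hX, Finset.mem_filter, Finset.mem_range]
      exact ⟨by have := ha.2.1; omega, ha⟩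
    obtain ⟨g1, g2, g3, z1, b1, g4, g5, g6, g7⟩ := hL1
    refine ⟨z1, ?_⟩
    intro ω q a lt hq hlabt hT hn1 hn2 ha hL
    obtain ⟨h1, h2, h3, h4, h5, h6, h7, h8⟩ := hq
    obtain ⟨ls, hls', hls, -, -, hS⟩ := A.ext h1
    rw [h2] at hls
    have hk12 := A.k12; have hk23 := A.k23; have hk3m := A.k3m
    have hx : ∃ x, InB z1 (R + d + 1) x ∧ Conn ω P (w' q.1) x ∧ Conn ω P x (w' q.2.2.1) := by
      rcases A.near02 hc h1 h3 h4 h6 h7 h8 hS hT g3 g7 with h9 | ⟨ω', a0, a2, e1, e2, e3, e4, e5, e6⟩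
      · exact h9
      · have hle := hmax a hL
        have hpb : par (w b1) = 1 - c := by rw [← g7.par_eq]; exact g3
        have n1 : a2 ≠ a1 := by rintro rfl; omega
        have n2 : a0 ≠ b1 := by rintro rfl; omega
        have n3 : a2 ≠ b1 := by rintro rfl; omega
        have n4 : a2 ≠ a := by rintro rfl; have := hL.2.2.1; omega
        have ia0 := lab0 hls e1
        have ia2 := lab2 hlabt e2
        rcases Nat.lt_or_ge a2 a1 with h9 | h9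
        · exact (ctr_nc A.ctU ω' (t := b1) (b := a2) (a := a1) (b' := a0) (by omega) h9 (by omega)
            (Or.inl (by omega)) (by omega) (by omega) (conn_symm e6) (conn_symm e5)).elim
        · have haa : a1 = a := by omega
          refine ⟨w' q.2.2.1, ?_, h8, Relation.ReflTransGen.refl⟩
          have h10 := A.nearP h4 h6
          have h11 : InB (w' q.2.2.2) d (w a1) := by
            rw [haa]
            rcases ha with rfl | rfl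
            · exact hn1
            · exact hn2
          unfold InB at h10 h11 g6 ⊢
          omega
    obtain ⟨x, hx1, hx2, hx3⟩ := hx
    obtain ⟨y, hy1, hy2⟩ := A.far02 hc h1 h3 h4 h6 h7 h8 hS hT hls hlabt H z1 hx2
    have hpx : par x = c := by rw [← hx2.par_eq]; exact h7
    unfold InB at hx1
    refine ⟨x, y, hx1.1, hx1.2.1, hx1.2.2.1, hx1.2.2.2, ?_, hy2, hy1⟩
    unfold par at hpx
    omega
  · refine ⟨(0, 0), ?_⟩
    intro ω q a ls _ _ _ _ _ _ hL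
    exact absurd ⟨a, hL⟩ hex

/-- A fresh path at a connector is an arm or stays near the connector. -/
theorem Apr.fresh (A : Apr U P m w k1 k2 k3 m' w' l1 l2 l3 d σ) {c : ℤ} {ω : Cfg} {i s : ℕ}
    (hs : s < m') (his : i = s ∨ i = s + 1) {S : Set (ℤ × ℤ)} {v u : ℤ × ℤ}
    (hv : ∃ f ∈ σ s, IsCor f v) (hpv : par v = 1 - c) (R : ℤ)
    (h : Conn ω ((U : Set (ℤ × ℤ)) \ S) v u) :
    ω ∈ FArm (1 - c) ((U : Set (ℤ × ℤ)) \ S) (w' i) (d + 1) R ∨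
      Conn ω ((U : Set (ℤ × ℤ)) ∩ RFb (w' i) R) v u := by
  rcases conn_exit (w' i) R h with ⟨x, h1, -, h3⟩ | ⟨h1, -, -⟩
  · left
    obtain ⟨f, hf, hfv⟩ := hv
    have h4 := inB_of_mem_RFb (A.nearC hs his hf) hfv
    unfold InB at h4
    refine ⟨v, x, h4.1, h4.2.1, h4.2.2.1, h4.2.2.2, ?_, h3, h1⟩
    unfold par at hpv
    omega
  · exact Or.inr (conn_mono (fun f hf => ⟨hf.1.1, hf.2⟩) h1)

end Pool.Agent.SixB.LC
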