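import Pool.Agent.Lib.SixB.A2Final
import Pool.Agent.Lib.SixB.S8Expl

/-!
# Step 8: near touches of straight lines

* `NearLine F i c a b s R`: two strands of the half plane `F` cross the half annulus of radii `s`, `R`
  around some point near the line. `pr_nearLine`: its probability is at most
  `C (b - a + s) s / R ^ 2` (from (A2), sum over the line); `pr_nearLines`: finitely many lines.
* `Strd ω F m e f`: a piece of a strand in the faces of `F`. `Strd.two_le_NF`: a piece of a strand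
  which comes from distance `R`, comes near `v` and goes back to distance `R` crosses the annulus
  twice. `orb_two_le_NF`: the same for orbits of `nx`.
-/

set_option autoImplicit false

namespace Pool.Agent.SixB

open Finset Pool.Agent.Perc Pool.Agent.PercD Pool.Agent.Perc6 Pool.Agent.PercN

variable {ω : Cfg} {F F' : Set (ℤ × ℤ)} {v v' : ℤ × ℤ} {s R c a b : ℤ} {i : Fin 4}

/-! ### The sum over a line -/

/-- The coordinate along the line. -/
def alo (i : Fin 4) (v : ℤ × ℤ) : ℤ :=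
  match i with
  | 0 => v.1
  | 1 => v.1
  | 2 => v.2
  | 3 => v.2

/-- The point of the line at `c` with the coordinate `x`. -/
def lpt (i : Fin 4) (c x : ℤ) : ℤ × ℤ :=
  match i with
  | 0 => (x, c)
  | 1 => (x, c)
  | 2 => (c, x)
  | 3 => (c, x)

/-- Two strands of `F` cross the annulus around a point near the line. -/
def NearLine (F : Set (ℤ × ℤ)) (i : Fin 4) (c a b s R : ℤ) : Set Cfg :=
  {ω | ∃ v, |cw i v - c| ≤ s ∧ a ≤ alo i v ∧ alo i v ≤ b ∧ 2 ≤ NF F v s R ω}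

namespace LineAux

theorem cw_lpt (i : Fin 4) (c x : ℤ) : cw i (lpt i c x) = c := by
  fin_cases i <;> rfl

theorem dist_lpt {d : ℤ} (i : Fin 4) {c x : ℤ} {v : ℤ × ℤ} (h1 : |cw i v - c| ≤ d)
    (h2 : |alo i v - x| ≤ d) : |v.1 - (lpt i c x).1| ≤ d ∧ |v.2 - (lpt i c x).2| ≤ d := by
  fin_cases i
  · exact ⟨h2, h1⟩
  · exact ⟨h2, h1⟩
  · exact ⟨h1, h2⟩
  · exact ⟨h1, h2⟩

theorem net (h : 1 ≤ s) {x : ℤ} (h1 : a ≤ x) (h2 : x ≤ b) : ∃ k ∈ Finset.range ((b - a) / s).toNat.succ,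
    a ≤ a + s * (k : ℤ) ∧ a + s * (k : ℤ) ≤ b ∧ |x - (a + s * (k : ℤ))| ≤ s := by
  have h3 : 0 ≤ (x - a) / s := Int.ediv_nonneg (by omega) (by omega)
  have h4 : (x - a) / s ≤ (b - a) / s := Int.ediv_le_ediv (by omega) (by omega)
  have h5 : s * ((x - a) / s) ≤ x - a := Int.mul_ediv_self_le (by omega)
  have h6 : x - a < s * ((x - a) / s) + s := Int.lt_mul_ediv_self_add (by omega)
  refine ⟨((x - a) / s).toNat, ?_, ?_, ?_, ?_⟩
  · rw [Finset.mem_range]
    omega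
  · rw [Int.toNat_of_nonneg h3]
    nlinarith
  · rw [Int.toNat_of_nonneg h3]
    omega
  · rw [Int.toNat_of_nonneg h3, abs_le]
    constructor <;> omega

end LineAux

/-- **The sum over a line.** -/
theorem pr_nearLine : ∃ C : ℝ, 0 < C ∧ ∀ (F : Set (ℤ × ℤ)) (i : Fin 4) (c a b s R : ℤ)
    (W : Finset (ℤ × ℤ)), 1 ≤ s → 4 * s ≤ R → a ≤ b →
    (∀ x, a ≤ x → x ≤ b → ∀ f ∈ BR (lpt i c x) R, f ∈ F ↔ f ∈ HW i c) →
    (∀ x, a ≤ x → x ≤ b → BR (lpt i c x) R ⊆ W) →
    pr W (NearLine F i c a b s R) ≤ C * (((b : ℝ) - a + s) * s / R ^ 2) := by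
  obtain ⟨C, hC, h⟩ := nf_two_wall
  refine ⟨8 * C, by positivity, fun F i c a b s R W hs hsR hab hF hW => ?_⟩
  have hs1 : (1 : ℝ) ≤ s := by exact_mod_cast hs
  have hR1 : (4 : ℝ) * s ≤ R := by exact_mod_cast hsR
  have hab1 : (a : ℝ) ≤ b := by exact_mod_cast hab
  set I := Finset.range ((b - a) / s).toNat.succ with hI
  set p : ℕ → ℤ × ℤ := fun k => lpt i c (a + s * (k : ℤ)) with hp
  have hI0 : 0 ≤ (b - a) / s := Int.ediv_nonneg (by omega) (by omega)
  have hk : ∀ k ∈ I, a ≤ a + s * (k : ℤ) ∧ a + s * (k : ℤ) ≤ b := by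
    intro k hk
    rw [hI, Finset.mem_range] at hk
    have h1 : (k : ℤ) ≤ (b - a) / s := by omega
    have h2 : s * ((b - a) / s) ≤ b - a := Int.mul_ediv_self_le (by omega)
    have h3 : s * (k : ℤ) ≤ s * ((b - a) / s) := mul_le_mul_of_nonneg_left h1 (by omega)
    have h4 : 0 ≤ s * (k : ℤ) := mul_nonneg (by omega) (by omega)
    omega
  -- one term
  have h1 : ∀ k ∈ I, pr W {ω | 2 ≤ NF F (p k) (2 * s) (R - s) ω} ≤
      8 * C * ((s : ℝ) ^ 2 / R ^ 2) := by
    intro k hkI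
    obtain ⟨k1, k2⟩ := hk k hkI
    have hsub : BR (p k) (R - s) ⊆ BR (p k) R := (Sub.refl' (by omega)).subset
    have hflat : FlatAt F (p k) (2 * s) (R - s) := by
      refine ⟨i, c, ?_, fun f hf => hF _ k1 k2 f (hsub hf)⟩
      rw [hp, LineAux.cw_lpt]
      simp
      omega
    have h2 := h F (p k) (2 * s) (R - s) W (by omega) (by omega) hflat (hsub.trans (hW _ k1 k2))
    refine h2.trans ?_
    have h3 : (((2 * s : ℤ) : ℝ) / ((R - s : ℤ) : ℝ)) ^ 2 ≤ 8 * ((s : ℝ) ^ 2 / R ^ 2) := by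
      push_cast
      rw [div_pow, mul_div_assoc', div_le_div_iff₀ (by nlinarith) (by nlinarith)]
      have h4 : (9 : ℝ) * R ^ 2 ≤ 16 * ((R : ℝ) - s) ^ 2 := by nlinarith
      have h5 : (0 : ℝ) ≤ (s : ℝ) ^ 2 := by positivity
      nlinarith
    calc C * (((2 * s : ℤ) : ℝ) / ((R - s : ℤ) : ℝ)) ^ 2 ≤ C * (8 * ((s : ℝ) ^ 2 / R ^ 2)) :=
          mul_le_mul_of_nonneg_left h3 hC.le
      _ = 8 * C * ((s : ℝ) ^ 2 / R ^ 2) := by ring
  -- the union
  have h2 : pr W (NearLine F i c a b s R) ≤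
      pr W (⋃ k ∈ I, {ω | 2 ≤ NF F (p k) (2 * s) (R - s) ω}) := by
    refine pr_mono _ fun ω hω => ?_
    obtain ⟨v, hv1, hv2, hv3, hv4⟩ := hω
    obtain ⟨k, hkI, -, -, hk3⟩ := LineAux.net hs hv2 hv3
    obtain ⟨e1, e2⟩ := LineAux.dist_lpt i hv1 hk3
    have e1 := abs_le.1 e1
    have e2 := abs_le.1 e2
    rw [Set.mem_iUnion₂]
    refine ⟨k, hkI, hv4.trans ?_⟩
    have s1 : Sub v s (p k) (2 * s) := by
      unfold PercD.Sub
      simp only [hp]
      omega
    have s2 : Sub (p k) (R - s) v R := by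
      unfold PercD.Sub
      simp only [hp]
      omega
    exact NF_annulus F (by omega) (by omega) s1 s2 (by omega) ω
  have h3 : (I.card : ℝ) ≤ ((b : ℝ) - a + s) / s := by
    rw [hI, Finset.card_range, le_div_iff₀ (by linarith)]
    have h4 : ((((b - a) / s).toNat.succ : ℕ) : ℤ) = (b - a) / s + 1 := by
      rw [Nat.succ_eq_add_one]
      push_cast
      rw [Int.toNat_of_nonneg hI0]
    have h5 : (((((b - a) / s).toNat.succ : ℕ) : ℤ) : ℝ) = (((b - a) / s : ℤ) : ℝ) + 1 := by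
      rw [h4]
      push_cast
      rfl
    have h6 : s * ((b - a) / s) ≤ b - a := Int.mul_ediv_self_le (by omega)
    have h7 : (s : ℝ) * (((b - a) / s : ℤ) : ℝ) ≤ b - a := by exact_mod_cast h6
    have h8 : ((((b - a) / s).toNat.succ : ℕ) : ℝ) = (((b - a) / s : ℤ) : ℝ) + 1 := by
      rw [← h5]
      push_cast
      rfl
    rw [h8]
    nlinarith
  calc pr W (NearLine F i c a b s R) ≤ ∑ k ∈ I, pr W {ω | 2 ≤ NF F (p k) (2 * s) (R - s) ω} :=
        h2.trans (PercD.pr_biUnion_le _ _ _)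
    _ ≤ ∑ _k ∈ I, 8 * C * ((s : ℝ) ^ 2 / R ^ 2) := Finset.sum_le_sum h1
    _ = I.card * (8 * C * ((s : ℝ) ^ 2 / R ^ 2)) := by rw [Finset.sum_const, nsmul_eq_mul]
    _ ≤ ((b : ℝ) - a + s) / s * (8 * C * ((s : ℝ) ^ 2 / R ^ 2)) :=
        mul_le_mul_of_nonneg_right h3 (by positivity)
    _ = 8 * C * (((b : ℝ) - a + s) * s / R ^ 2) := by
        field_simp

/-- Finitely many lines. -/
theorem pr_nearLines {ι : Type} (J : Finset ι) (A : ι → Set Cfg) (W : Finset (ℤ × ℤ)) {q : ℝ}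
    (h : ∀ j ∈ J, pr W (A j) ≤ q) : pr W (⋃ j ∈ J, A j) ≤ J.card * q := by
  calc pr W (⋃ j ∈ J, A j) ≤ ∑ j ∈ J, pr W (A j) := PercD.pr_biUnion_le _ _ _
    _ ≤ ∑ _j ∈ J, q := Finset.sum_le_sum h
    _ = J.card * q := by rw [Finset.sum_const, nsmul_eq_mul]

/-! ### Pieces of strands -/

/-- A piece of a strand in the faces of `F`. -/
structure Strd (ω : Cfg) (F : Set (ℤ × ℤ)) (m : ℕ) (e : ℕ → UE) (f : ℕ → ℤ × ℤ) : Prop where
  mem : ∀ k < m, f k ∈ F
  mt : ∀ k < m, Mt ω (f k) (e k) (e (k + 1))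
  ne : ∀ k, k + 1 < m → f k ≠ f (k + 1)

namespace LineAux

theorem faces_two {f g h : ℤ × ℤ} {x : UE} (hf : IsSide f x) (hg : IsSide g x) (hh : IsSide h x)
    (h1 : f ≠ g) (h2 : f ≠ h) : g = h := by
  rw [isSide_iff] at hf hg hh
  rcases hf with rfl | rfl <;> rcases hg with rfl | rfl <;> rcases hh with rfl | rfl <;>
    first | rfl | exact absurd rfl h1 | exact absurd rfl h2

theorem mt_irrefl {f : ℤ × ℤ} {x : UE} (h : Mt ω f x x) : False := by
  rcases fa_of_mt h with ⟨h1, h2⟩ | ⟨h1, h2⟩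
  · exact fa_ne_fb x (h1.symm.trans h2)
  · exact fa_ne_fb x (h2.symm.trans h1)

variable {m : ℕ} {e : ℕ → UE} {f : ℕ → ℤ × ℤ}

/-- A piece of a strand does not turn back. -/
theorem no_fold (h : Strd ω F m e f) : ∀ (n j l : ℕ), l = j + n → j < l → l ≤ m → e j = e l →
    f j ≠ f (l - 1) := by
  intro n
  induction n using Nat.strong_induction_on with
  | _ n ih =>
    intro j l hl hjl hlm he hf
    rcases Nat.lt_or_ge n 3 with h3 | h3
    · have hn : n = 1 ∨ n = 2 := by omega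
      rcases hn with rfl | rfl
      · have := h.mt j (by omega)
        rw [← hl, ← he] at this
        exact mt_irrefl this
      · have e1 : l - 1 = j + 1 := by omega
        rw [e1] at hf
        exact h.ne j (by omega) hf
    · have m1 := h.mt j (by omega)
      have m2 := h.mt (l - 1) (by omega)
      rw [show l - 1 + 1 = l by omega, ← he, ← hf] at m2
      have e2 : e (j + 1) = e (l - 1) := (pn_of_mt m1).trans (pn_of_mt m2.symm).symm
      refine ih (n - 2) (by omega) (j + 1) (l - 1) (by omega) (by omega) (by omega) e2 ?_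
      have n1 := h.ne j (by omega)
      have n2 := h.ne (l - 2) (by omega)
      rw [show l - 2 + 1 = l - 1 by omega, ← hf] at n2
      have s0 : IsSide (f j) (e (j + 1)) := m1.right
      have s1 : IsSide (f (j + 1)) (e (j + 1)) := (h.mt (j + 1) (by omega)).left
      have s2 : IsSide (f (l - 2)) (e (j + 1)) := by
        have := (h.mt (l - 2) (by omega)).right
        rw [show l - 2 + 1 = l - 1 by omega, ← e2] at this
        exact this
      have := faces_two s0 s1 s2 n1 n2.symm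
      rw [this, show l - 1 - 1 = l - 2 by omega]

theorem mm_piece (h : Strd ω F m e f) {G : Set (ℤ × ℤ)} : ∀ (n j : ℕ), j + n ≤ m →
    (∀ k, j ≤ k → k < j + n → f k ∈ G) → e (j + n) ∈ MM ω (F ∩ G) (e j) := by
  intro n
  induction n with
  | zero => exact fun j _ _ => mem_MM_self
  | succ n ih =>
    intro j hj hG
    have h1 := ih j (by omega) fun k h1 h2 => hG k h1 (by omega)
    refine Relation.ReflTransGen.tail h1 ⟨f (j + n), ⟨h.mem _ (by omega), hG _ (by omega) (by omega)⟩,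
      h.mt _ (by omega)⟩

theorem exists_last {P : ℕ → Prop} {i k : ℕ} (h0 : P i) (hik : i ≤ k) (hk : ¬ P k) :
    ∃ l, i ≤ l ∧ l < k ∧ P l ∧ ∀ j, l < j → j ≤ k → ¬ P j := by
  classical
  refine ⟨Nat.findGreatest P k, Nat.le_findGreatest hik h0, ?_, Nat.findGreatest_spec hik h0,
    fun j h1 h2 => Nat.findGreatest_is_greatest h1 h2⟩
  refine lt_of_le_of_ne (Nat.findGreatest_le k) fun h => hk ?_
  have := Nat.findGreatest_spec hik h0
  rwa [h] at this

theorem exists_first {P : ℕ → Prop} {k m : ℕ} (h0 : P m) (hkm : k ≤ m) (hk : ¬ P k) :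
    ∃ l, k < l ∧ l ≤ m ∧ P l ∧ ∀ j, k ≤ j → j < l → ¬ P j := by
  classical
  have hex : ∃ l, k ≤ l ∧ P l := ⟨m, hkm, h0⟩
  refine ⟨Nat.find hex, ?_, Nat.find_min' hex ⟨hkm, h0⟩, (Nat.find_spec hex).2,
    fun j h1 h2 h3 => Nat.find_min hex h2 ⟨h1, h3⟩⟩
  refine lt_of_le_of_ne (Nat.find_spec hex).1 fun h => hk ?_
  have := (Nat.find_spec hex).2
  rwa [← h] at this

theorem inE_pos {x : UE} (h : InE v s x) : 1 ≤ s := by
  unfold InE InR at h
  obtain ⟨p, q, d⟩ := x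
  cases d <;> simp only [ua_mk, ub_false, ub_true] at h <;> omega

theorem not_bd_of_inE {x : UE} (hsR : s < R) (h : InE v s x) : InE v R x ∧ ¬ BdR v R x := by
  unfold InE InR at *
  unfold BdR BdE
  obtain ⟨p, q, d⟩ := x
  cases d <;> simp only [ua_mk, ub_false, ub_true] at h ⊢ <;> simp <;> omega

theorem exists_in_face {x : UE} (hs : 1 ≤ s) (h : BdR v s x) : ∃ g ∈ BR v s, IsSide g x := by
  unfold BdR BdE at h
  obtain ⟨p, q, d⟩ := x
  simp only [mem_BR]
  cases d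
  · simp at h
    by_cases h1 : q < v.2 + s
    · exact ⟨(p, q), by simp only; omega, Or.inl rfl⟩
    · refine ⟨(p, q - 1), by simp only; omega, Or.inr (Or.inr (Or.inl ?_))⟩
      simp [to']
  · simp at h
    by_cases h1 : p < v.1 + s
    · exact ⟨(p, q), by simp only; omega, Or.inr (Or.inl rfl)⟩
    · refine ⟨(p - 1, q), by simp only; omega, Or.inr (Or.inr (Or.inr ?_))⟩
      simp [ri]

end LineAux

/-- **A piece of a strand which comes from distance `R`, comes near `v` and goes back to distance `R`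
crosses the annulus twice.** -/
theorem Strd.two_le_NF {m k : ℕ} {e : ℕ → UE} {f : ℕ → ℤ × ℤ} (h : Strd ω F m e f) (hsR : s < R)
    (hk : k ≤ m) (h0 : ¬ InE v R (e 0) ∨ BdR v R (e 0)) (hm : ¬ InE v R (e m) ∨ BdR v R (e m))
    (hin : InE v s (e k)) : 2 ≤ NF F v s R ω := by
  classical
  have hs := LineAux.inE_pos hin
  set P : ℕ → Prop := fun l => ¬ InE v R (e l) ∨ BdR v R (e l) with hP
  have hnot : ∀ l, InE v s (e l) → ¬ P l := by
    intro l hl hPl
    obtain ⟨h1, h2⟩ := LineAux.not_bd_of_inE hsR hl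
    rcases hPl with h3 | h3
    · exact h3 h1
    · exact h2 h3
  have hbR : ∀ {l : ℕ} {g : ℤ × ℤ}, ¬ P l → IsSide g (e l) → g ∈ (BR v R : Set (ℤ × ℤ)) := by
    intro l g hl hg
    simp only [hP, not_or, not_not] at hl
    by_contra hgn
    exact hl.2 (bd_of_side hl.1 hg hgn)
  -- the first leg
  obtain ⟨i₀, -, hi0k, hPi0, hi0⟩ := LineAux.exists_last (P := P) (i := 0) (k := k) h0 (by omega)
    (hnot k hin)
  have hIi0 : ¬ InE v s (e i₀) := fun h' => hnot _ h' hPi0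
  obtain ⟨j₀, hj0, hj0k, hIj0, hj0m⟩ := LineAux.exists_first (P := fun l => InE v s (e l)) hin
    hi0k.le hIi0
  have fo0 : ∀ l, i₀ ≤ l → l < j₀ → f l ∉ (BR v s : Set (ℤ × ℤ)) := fun l h1 h2 h3 =>
    hj0m l h1 h2 (inE_of_side h3 (h.mt l (by omega)).left)
  have fi0 : ∀ l, i₀ ≤ l → l < j₀ → f l ∈ (BR v R : Set (ℤ × ℤ)) := fun l h1 h2 =>
    hbR (hi0 (l + 1) (by omega) (by omega)) (h.mt l (by omega)).right
  have an0 : ∀ l, i₀ ≤ l → l < i₀ + (j₀ - i₀) → f l ∈ (An v s R : Set (ℤ × ℤ)) := by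
    intro l h1 h2
    rw [mem_coe, mem_An]
    exact ⟨mem_coe.1 (fi0 l h1 (by omega)), fun h3 => fo0 l h1 (by omega) (mem_coe.2 h3)⟩
  have mm0 := LineAux.mm_piece h (j₀ - i₀) i₀ (by omega) an0
  rw [show i₀ + (j₀ - i₀) = j₀ by omega] at mm0
  have bd0 : BdR v s (e j₀) := by
    have h1 := (h.mt (j₀ - 1) (by omega)).right
    rw [show j₀ - 1 + 1 = j₀ by omega] at h1
    exact bd_of_side hIj0 h1 (fo0 (j₀ - 1) (by omega) (by omega))
  have bo0 : BdR v R (e i₀) := by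
    rcases hPi0 with h1 | h1
    · exact absurd (inE_of_side (fi0 i₀ le_rfl hj0) (h.mt i₀ (by omega)).left) h1
    · exact h1
  -- the second leg
  obtain ⟨i₁, hki1, hi1m, hPi1, hi1⟩ := LineAux.exists_first (P := P) (m := m) (k := k) hm hk
    (hnot k hin)
  have hIi1 : ¬ InE v s (e i₁) := fun h' => hnot _ h' hPi1
  obtain ⟨j₁, hkj1, hj1, hIj1, hj1m⟩ := LineAux.exists_last (P := fun l => InE v s (e l)) hin
    hki1.le hIi1
  have fo1 : ∀ l, j₁ ≤ l → l < i₁ → f l ∉ (BR v s : Set (ℤ × ℤ)) := fun l h1 h2 h3 =>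
    hj1m (l + 1) (by omega) (by omega) (inE_of_side h3 (h.mt l (by omega)).right)
  have fi1 : ∀ l, j₁ ≤ l → l < i₁ → f l ∈ (BR v R : Set (ℤ × ℤ)) := fun l h1 h2 =>
    hbR (hi1 l (by omega) (by omega)) (h.mt l (by omega)).left
  have an1 : ∀ l, j₁ ≤ l → l < j₁ + (i₁ - j₁) → f l ∈ (An v s R : Set (ℤ × ℤ)) := by
    intro l h1 h2
    rw [mem_coe, mem_An]
    exact ⟨mem_coe.1 (fi1 l h1 (by omega)), fun h3 => fo1 l h1 (by omega) (mem_coe.2 h3)⟩
  have mm1 := LineAux.mm_piece h (i₁ - j₁) j₁ (by omega) an1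
  rw [show j₁ + (i₁ - j₁) = i₁ by omega] at mm1
  have bd1 : BdR v s (e j₁) :=
    bd_of_side hIj1 (h.mt j₁ (by omega)).left (fo1 j₁ le_rfl hj1)
  have bo1 : BdR v R (e i₁) := by
    rcases hPi1 with h1 | h1
    · have h2 := (h.mt (i₁ - 1) (by omega)).right
      rw [show i₁ - 1 + 1 = i₁ by omega] at h2
      exact absurd (inE_of_side (fi1 (i₁ - 1) (by omega) (by omega)) h2) h1
    · exact h1
  -- they are different
  have hne : e j₀ ≠ e j₁ := by
    intro he
    obtain ⟨g, hg, hgs⟩ := LineAux.exists_in_face hs bd0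
    have hg' : g ∈ (BR v s : Set (ℤ × ℤ)) := mem_coe.2 hg
    have a1 := (h.mt (j₀ - 1) (by omega)).right
    rw [show j₀ - 1 + 1 = j₀ by omega] at a1
    have a2 := h.ne (j₀ - 1) (by omega)
    rw [show j₀ - 1 + 1 = j₀ by omega] at a2
    have a3 : f (j₀ - 1) ≠ g := fun h1 => fo0 (j₀ - 1) (by omega) (by omega) (h1 ▸ hg')
    have a4 : f j₀ = g := LineAux.faces_two a1 (h.mt j₀ (by omega)).left hgs a2 a3
    have b3 : f j₁ ≠ g := fun h1 => fo1 j₁ le_rfl hj1 (h1 ▸ hg')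
    rcases Nat.lt_or_ge j₀ j₁ with hlt | hge
    · have b1 := (h.mt (j₁ - 1) (by omega)).right
      rw [show j₁ - 1 + 1 = j₁ by omega] at b1
      have b2 := h.ne (j₁ - 1) (by omega)
      rw [show j₁ - 1 + 1 = j₁ by omega] at b2
      have b4 : f (j₁ - 1) = g :=
        LineAux.faces_two (h.mt j₁ (by omega)).left b1 (he ▸ hgs) b2.symm b3
      exact LineAux.no_fold h (j₁ - j₀) j₀ j₁ (by omega) hlt (by omega) he (a4.trans b4.symm)
    · have : j₀ = j₁ := by omega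
      rw [← this] at b3
      exact b3 a4
  unfold NF
  refine Finset.one_lt_card.2 ⟨e j₀, ?_, e j₁, ?_, hne⟩
  · rw [mem_filter]
    exact ⟨hIj0.mem_UB, bd0, e i₀, MM_symm mm0, bo0⟩
  · rw [mem_filter]
    exact ⟨hIj1.mem_UB, bd1, e i₁, mm1, bo1⟩

/-- The same for an orbit of `nx`. -/
theorem orb_two_le_NF {m k : ℕ} {x : UE} (hF : ∀ l < m, fa ((nx ω)^[l] x) ∈ F) (hsR : s < R)
    (hk : k ≤ m) (h0 : ¬ InE v R x ∨ BdR v R x)
    (hm : ¬ InE v R ((nx ω)^[m] x) ∨ BdR v R ((nx ω)^[m] x)) (hin : InE v s ((nx ω)^[k] x)) :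
    2 ≤ NF F v s R ω := by
  refine Strd.two_le_NF (m := m) (k := k) (e := fun l => (nx ω)^[l] x)
    (f := fun l => fa ((nx ω)^[l] x)) ⟨hF, fun l _ => ?_, fun l _ => ?_⟩ hsR hk h0 hm hin
  · rw [Function.iterate_succ_apply']
    exact mt_nx ω _
  · rw [Function.iterate_succ_apply', ← fb_nx ω ((nx ω)^[l] x)]
    exact (fa_ne_fb _).symm

end Pool.Agent.SixB
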