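import Pool.Agent.Lib.SixB.A2Geo
import Pool.Agent.Lib.SixB.NFSym

/-!
# Step 8: clusters near a straight line

`two_le_NF_of_cluster`: a cluster of a half box which comes near a point of the line, reaches the
boundary of the box and does not touch the line is separated from the line by two strands which cross
the annulus.
-/

set_option autoImplicit false
set_option linter.unusedVariables false

namespace Pool.Agent.SixB.LineC

open Finset Pool.Agent.Perc Pool.Agent.PercD Pool.Agent.Perc6 Pool.Agent.PercN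
open Pool.Agent.SixB.A2 Pool.Agent.SixB.A2.Geo

variable {ω : Cfg} {v : ℤ × ℤ} {s R c : ℤ}

/-- A component with two edges: both are sides of faces. -/
theorem side_of_MM {F : Set (ℤ × ℤ)} {e t : UE} (h : t ∈ MM ω F e) (hne : t ≠ e) :
    (∃ f ∈ F, IsSide f e) ∧ ∃ f ∈ F, IsSide f t := by
  constructor
  · rcases Relation.ReflTransGen.cases_head h with h1 | ⟨b, ⟨f, hf, hm⟩, -⟩
    · exact absurd h1.symm hne
    · exact ⟨f, hf, hm.left⟩
  · rcases Relation.ReflTransGen.cases_tail h with h1 | ⟨b, -, ⟨f, hf, hm⟩⟩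
    · exact absurd h1 hne
    · exact ⟨f, hf, hm.right⟩

/-- An outer face of a boundary edge of a box. -/
theorem out_face {x : UE} (h : BdR v R x) : ∃ g, g ∉ BR v R ∧ IsSide g x := by
  unfold BdR BdE at h
  obtain ⟨p, q, d⟩ := x
  cases d
  · simp only [true_and, Bool.false_eq_true, false_and, or_false] at h
    by_cases h1 : q < v.2 + R
    · refine ⟨(p, q - 1), ?_, ?_⟩
      · rw [mem_BR]
        simp only
        omega
      · right; right; left
        simp [to']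
    · refine ⟨(p, q), ?_, Or.inl rfl⟩
      rw [mem_BR]
      simp only
      omega
  · simp only [Bool.true_eq_false, false_and, true_and, false_or] at h
    by_cases h1 : p < v.1 + R
    · refine ⟨(p - 1, q), ?_, ?_⟩
      · rw [mem_BR]
        simp only
        omega
      · right; right; right
        simp [ri]
    · refine ⟨(p, q), ?_, Or.inr (Or.inl rfl)⟩
      rw [mem_BR]
      simp only
      omega

/-- An inner face of a boundary edge of a box. -/
theorem in_face {x : UE} (hs : 1 ≤ s) (h : BdR v s x) : ∃ g ∈ BR v s, IsSide g x := by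
  unfold BdR BdE at h
  obtain ⟨p, q, d⟩ := x
  cases d
  · simp only [true_and, Bool.false_eq_true, false_and, or_false] at h
    by_cases h1 : q < v.2 + s
    · refine ⟨(p, q), ?_, Or.inl rfl⟩
      rw [mem_BR]
      simp only
      omega
    · refine ⟨(p, q - 1), ?_, ?_⟩
      · rw [mem_BR]
        simp only
        omega
      · right; right; left
        simp [to']
  · simp only [Bool.true_eq_false, false_and, true_and, false_or] at h
    by_cases h1 : p < v.1 + s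
    · refine ⟨(p, q), ?_, Or.inr (Or.inl rfl)⟩
      rw [mem_BR]
      simp only
      omega
    · refine ⟨(p - 1, q), ?_, ?_⟩
      · rw [mem_BR]
        simp only
        omega
      · right; right; right
        simp [ri]

theorem inter_eq (h : v.2 - R ≤ c) : HW 0 c ∩ (BR v R : Set (ℤ × ℤ)) =
    (RF (v.1 - R) (v.1 + R) c (v.2 + R) : Set (ℤ × ℤ)) := by
  ext f
  simp only [HW, Set.mem_inter_iff, Set.mem_ofPred_eq, mem_coe, mem_BR, mem_RF]
  omega

/-- The strand of a side of the cluster reaches the inner box. -/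
theorem reach (hsR : s < R) (hc1 : v.2 - s ≤ c) (hc2 : c ≤ v.2 + s) {z : ℤ × ℤ}
    (hz : InR (v.1 - s) (v.1 + s) (v.2 - s) (v.2 + s) z) (hzc : c ≤ z.2)
    (hline : ∀ x, Conn ω (RF (v.1 - R) (v.1 + R) c (v.2 + R)) z x → x.2 ≠ c)
    {e : UE} {p q : ℤ × ℤ} (hj : Joins e p q)
    (hp : Conn ω (RF (v.1 - R) (v.1 + R) c (v.2 + R)) z p)
    (hpR : InR (v.1 - R) (v.1 + R) c (v.2 + R) p) (hqR : InR (v.1 - R) (v.1 + R) c (v.2 + R) q)
    (he : ¬ InE v s e) {l m : ℤ} (hl : 0 ≤ l) (hlm : l ≤ m)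
    (hm : m ≤ 2 * (v.2 + R - c) + (v.1 + R - (v.1 - R)))
    (hno : ∀ k, l ≤ k → k ≤ m → ¬ Conn ω (RF (v.1 - R) (v.1 + R) c (v.2 + R)) z
      (av (v.1 - R) (v.1 + R) c (v.2 + R) k))
    (hq : (l = 0 ∧ q = av (v.1 - R) (v.1 + R) c (v.2 + R) m) ∨
      (m = 2 * (v.2 + R - c) + (v.1 + R - (v.1 - R)) ∧
        q = av (v.1 - R) (v.1 + R) c (v.2 + R) l)) :
    ∃ t ∈ MM ω (HW 0 c ∩ (An v s R : Set (ℤ × ℤ))) e, BdR v s t := by
  by_contra hcon
  push Not at hcon
  have hz' := hz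
  unfold InR at hz'
  -- the component does not enter the inner box
  have hM : ∀ a, a ∈ MM ω (RF (v.1 - R) (v.1 + R) c (v.2 + R) : Set (ℤ × ℤ)) e →
      a ∈ MM ω (HW 0 c ∩ (An v s R : Set (ℤ × ℤ))) e ∧ ¬ InE v s a := by
    intro a ha
    induction ha with
    | refl => exact ⟨mem_MM_self, he⟩
    | tail hab hs ih =>
      rename_i b b'
      obtain ⟨f, hf, hm⟩ := hs
      have hf' : f ∈ HW 0 c ∩ (An v s R : Set (ℤ × ℤ)) := by
        rw [← inter_eq (by omega)] at hf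
        refine ⟨hf.1, ?_⟩
        rw [mem_coe, PercN.mem_An]
        exact ⟨mem_coe.1 hf.2, fun h => ih.2 (inE_of_side (mem_coe.2 h) hm.left)⟩
      have h1 := MM_step hf' hm ih.1
      refine ⟨h1, fun h2 => hcon _ h1 (bd_of_side h2 hm.right ?_)⟩
      have := hf'.2
      rw [mem_coe, PercN.mem_An] at this
      exact fun h => this.2 (mem_coe.1 h)
  -- the ends of the colour of the cluster are in the cluster
  have hT : ∀ a, a ∈ MM ω (RF (v.1 - R) (v.1 + R) c (v.2 + R) : Set (ℤ × ℤ)) e →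
      ∀ p' q', Joins a p' q' → Conn ω (RF (v.1 - R) (v.1 + R) c (v.2 + R)) z p' ∨
        Conn ω (RF (v.1 - R) (v.1 + R) c (v.2 + R)) z q' := by
    intro a ha p' q' hj'
    obtain ⟨p1, q1, h1, h2, h3⟩ := MM_conn hj ha
    have h4 : Conn ω (RF (v.1 - R) (v.1 + R) c (v.2 + R)) z p1 :=
      hp.trans (h3.mono fun f hf => hf.1)
    by_cases h5 : par p1 = par p'
    · left
      rw [← (h1.of_par hj' h5).1]
      exact h4
    · right
      have h6 : par p1 = par q' := by
        have := hj'.par_ne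
        have h2 := par_cases p1
        have h3 := par_cases p'
        have h4 := par_cases q'
        omega
      rw [← (h1.of_par hj'.symm h6).1]
      exact h4
  obtain ⟨Φ, hΦ⟩ : ∃ Φ : ℤ × ℤ → ZMod 2, Φ = potR ω (v.1 - R) (v.1 + R) c (v.2 + R) e := ⟨_, rfl⟩
  have hstep : ∀ a p' q', Joins a p' q' → InR (v.1 - R) (v.1 + R) c (v.2 + R) p' →
      InR (v.1 - R) (v.1 + R) c (v.2 + R) q' →
      a ∉ MM ω (RF (v.1 - R) (v.1 + R) c (v.2 + R) : Set (ℤ × ℤ)) e → Φ q' = Φ p' := by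
    intro a p' q' h1 h2 h3 h4
    by_contra h5
    rw [hΦ] at h5
    exact h4 ((potR_joins h1 h2 h3).2 fun h => h5 h.symm)
  -- along the line
  have hln : ∀ x, v.1 - R ≤ x → x ≤ v.1 + R → Φ (x, c) = Φ (v.1 - R, c) := by
    intro x h1 h2
    induction x, h1 using Int.leInduction with
    | base => rfl
    | succ x h1 ih =>
      rw [← ih (by omega)]
      have hj' : Joins (x, c, false) (x, c) (x + 1, c) := Or.inl ⟨rfl, rfl⟩
      refine hstep (x, c, false) (x, c) (x + 1, c) hj' ?_ ?_ ?_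
      · unfold InR; simp only; omega
      · unfold InR; simp only; omega
      · intro h3
        rcases hT _ h3 _ _ hj' with h4 | h4
        · exact hline _ h4 rfl
        · exact hline _ h4 rfl
  -- inside the inner box
  have hver : ∀ y, c ≤ y → y ≤ z.2 → Φ (z.1, y) = Φ (z.1, c) := by
    intro y h1 h2
    induction y, h1 using Int.leInduction with
    | base => rfl
    | succ y h1 ih =>
      rw [← ih (by omega)]
      have hj' : Joins (z.1, y, true) (z.1, y) (z.1, y + 1) := Or.inl ⟨rfl, rfl⟩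
      refine hstep (z.1, y, true) (z.1, y) (z.1, y + 1) hj' ?_ ?_ ?_
      · unfold InR; simp only; omega
      · unfold InR; simp only; omega
      · intro h3
        refine (hM _ h3).2 ?_
        unfold InE InR
        rw [ua_mk, ub_true]
        simp only
        omega
  have hzl : Φ z = Φ (v.1 - R, c) := by
    rw [← hln z.1 (by omega) (by omega), ← hver z.2 hzc le_rfl]
  -- along the arc
  have harc : ∀ k, l ≤ k → k ≤ m → Φ (av (v.1 - R) (v.1 + R) c (v.2 + R) k)
      = Φ (av (v.1 - R) (v.1 + R) c (v.2 + R) l) := by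
    intro k h1 h2
    induction k, h1 using Int.leInduction with
    | base => rfl
    | succ k h1 ih =>
      rw [← ih (by omega)]
      have hj' : Joins (ae (v.1 - R) (v.1 + R) c (v.2 + R) k)
        (av (v.1 - R) (v.1 + R) c (v.2 + R) k) (av (v.1 - R) (v.1 + R) c (v.2 + R) (k + 1)) :=
        joins_ae (by omega)
      refine hstep _ _ _ hj' ?_ ?_ ?_
      · exact (av_onBd (by omega) (by omega) (by omega) (by omega)).2
      · exact (av_onBd (by omega) (by omega) (by omega) (by omega)).2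
      · intro h3
        rcases hT _ h3 _ _ hj' with h4 | h4
        · exact hno k h1 (by omega) h4
        · exact hno (k + 1) (by omega) h2 h4
  have hpz : Φ p = Φ z := by
    rw [hΦ]
    exact (potR_conn hp).symm
  have hqp : Φ p ≠ Φ q := by
    rw [hΦ]
    exact (potR_joins hj hpR hqR).1 mem_MM_self
  apply hqp
  rw [hpz, hzl]
  rcases hq with ⟨rfl, rfl⟩ | ⟨rfl, rfl⟩
  · rw [harc m hlm le_rfl, av_zero (by omega)]
  · rw [← harc _ hlm le_rfl, av_last (by omega) (by omega), hln (v.1 + R) (by omega) le_rfl]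

/-- The vertices of the arc are on three sides. -/
theorem av_three {x₀ x₁ y₀ y₁ k : ℤ} : (av x₀ x₁ y₀ y₁ k).1 = x₀ ∨ (av x₀ x₁ y₀ y₁ k).1 = x₁ ∨
    (av x₀ x₁ y₀ y₁ k).2 = y₁ := by
  unfold av
  split_ifs
  · exact Or.inl rfl
  · exact Or.inr (Or.inr rfl)
  · exact Or.inr (Or.inl rfl)

/-- The sides of the arc are boundary sides of the box. -/
theorem bd_ae (hR : 0 ≤ R) (h1 : v.2 - R ≤ c) (h2 : c ≤ v.2 + R) {k : ℤ} (h3 : 0 ≤ k)
    (h4 : k < 2 * (v.2 + R - c) + (v.1 + R - (v.1 - R))) :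
    BdR v R (ae (v.1 - R) (v.1 + R) c (v.2 + R) k) := by
  unfold BdR BdE
  rcases ae_cases (x₀ := v.1 - R) (x₁ := v.1 + R) (y₀ := c) (y₁ := v.2 + R) (by omega) k with
    ⟨g, e, -, -⟩ | ⟨g, g', e, -, -⟩ | ⟨g, e, -, -⟩
  · rw [e]
    exact Or.inr ⟨rfl, by simp only; omega, by simp only; omega, Or.inl rfl⟩
  · rw [e]
    exact Or.inl ⟨rfl, by simp only; omega, by simp only; omega, Or.inr rfl⟩
  · rw [e]
    exact Or.inr ⟨rfl, by simp only; omega, by simp only; omega, Or.inr rfl⟩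

/-- The upper half plane. -/
theorem two_le_zero (hs : 1 ≤ s) (hsR : s < R) (hc : |c - v.2| ≤ s) {z p : ℤ × ℤ}
    (hz : InR (v.1 - s) (v.1 + s) (v.2 - s) (v.2 + s) z)
    (hp : OnBd (v.1 - R) (v.1 + R) (v.2 - R) (v.2 + R) p)
    (hzp : Conn ω (HW 0 c ∩ (BR v R : Set (ℤ × ℤ))) z p)
    (hline : ∀ x, Conn ω (HW 0 c ∩ (BR v R : Set (ℤ × ℤ))) z x → x.2 ≠ c) :
    2 ≤ NF (HW 0 c) v s R ω := by
  classical
  have hc' := abs_le.1 hc
  have hz' := hz
  unfold InR at hz'
  have hp' := hp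
  unfold OnBd at hp'
  rw [inter_eq (by omega)] at hzp hline
  have hne : z ≠ p := by
    rintro rfl
    omega
  -- `z` and `p` are in the half box
  have hzR : InR (v.1 - R) (v.1 + R) c (v.2 + R) z := by
    rcases Relation.ReflTransGen.cases_head hzp with h1 | ⟨b, h1, -⟩
    · exact absurd h1 hne
    · obtain ⟨g, hg, -, h2, -⟩ := h1.exists_face
      exact h2.inR hg
  have hpR : InR (v.1 - R) (v.1 + R) c (v.2 + R) p := by
    rcases Relation.ReflTransGen.cases_tail hzp with h1 | ⟨b, -, h1⟩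
    · exact absurd h1.symm hne
    · obtain ⟨g, hg, -, -, h2⟩ := h1.exists_face
      exact h2.inR hg
  have hpR' := hpR
  have hzR' := hzR
  unfold InR at hpR' hzR'
  have hpc := hline p hzp
  obtain ⟨k0, hk0, hk0', hk0p⟩ := exists_av (w := p) (x₀ := v.1 - R) (x₁ := v.1 + R) (y₀ := c)
    (y₁ := v.2 + R) (by omega) (by omega) hpR'.1 hpR'.2.1 hpR'.2.2.1 hpR'.2.2.2
  obtain ⟨L, hL⟩ : ∃ L, L = 2 * (v.2 + R - c) + (v.1 + R - (v.1 - R)) := ⟨_, rfl⟩
  obtain ⟨P, hP⟩ : ∃ P : ℤ → Prop, P = fun k => 0 ≤ k ∧ k ≤ L ∧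
    Conn ω (RF (v.1 - R) (v.1 + R) c (v.2 + R)) z (av (v.1 - R) (v.1 + R) c (v.2 + R) k) := ⟨_, rfl⟩
  have hPk0 : P k0 := by
    rw [hP]
    exact ⟨hk0, by omega, by rw [hk0p]; exact hzp⟩
  obtain ⟨k1, hk1, hk1m⟩ := Int.exists_least_of_bdd (P := P) ⟨0, fun k hk => by
    rw [hP] at hk
    exact hk.1⟩ ⟨k0, hPk0⟩
  obtain ⟨k2, hk2, hk2m⟩ := Int.exists_greatest_of_bdd (P := P) ⟨L, fun k hk => by
    rw [hP] at hk
    exact hk.2.1⟩ ⟨k0, hPk0⟩
  have hk12 : k1 ≤ k2 := hk1m k2 hk2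
  rw [hP] at hk1 hk2
  obtain ⟨a1, a2, a3⟩ := hk1
  obtain ⟨b1, b2, b3⟩ := hk2
  have hk1pos : 0 < k1 := by
    rcases a1.eq_or_lt with h | h
    · exfalso
      rw [← h] at a3
      refine hline _ a3 ?_
      rw [av_zero (by omega)]
    · exact h
  have hk2L : k2 < L := by
    rcases b2.eq_or_lt with h | h
    · exfalso
      rw [h, hL] at b3
      refine hline _ b3 ?_
      rw [av_last (by omega) (by omega)]
    · exact h
  have avR : ∀ k, 0 ≤ k → k ≤ L → InR (v.1 - R) (v.1 + R) c (v.2 + R)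
      (av (v.1 - R) (v.1 + R) c (v.2 + R) k) := fun k h1 h2 =>
    (av_onBd (by omega) (by omega) h1 (by omega)).2
  have notIn : ∀ k, ¬ InE v s (ae (v.1 - R) (v.1 + R) c (v.2 + R) k) := by
    intro k h
    have h3 := av_three (x₀ := v.1 - R) (x₁ := v.1 + R) (y₀ := c) (y₁ := v.2 + R) (k := k)
    have hj : Joins (ae (v.1 - R) (v.1 + R) c (v.2 + R) k)
      (av (v.1 - R) (v.1 + R) c (v.2 + R) k) (av (v.1 - R) (v.1 + R) c (v.2 + R) (k + 1)) :=
      joins_ae (by omega)
    have h4 : InR (v.1 - s) (v.1 + s) (v.2 - s) (v.2 + s)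
        (av (v.1 - R) (v.1 + R) c (v.2 + R) k) := by
      rcases hj with ⟨h5, -⟩ | ⟨h5, -⟩
      · rw [h5]; exact h.1
      · rw [h5]; exact h.2
    unfold InR at h4
    omega
  -- the two strands
  have r1 : ∃ t ∈ MM ω (HW 0 c ∩ (An v s R : Set (ℤ × ℤ)))
      (ae (v.1 - R) (v.1 + R) c (v.2 + R) (k1 - 1)), BdR v s t := by
    have hj := joins_ae (x₀ := v.1 - R) (x₁ := v.1 + R) (y₀ := c) (y₁ := v.2 + R) (k := k1 - 1)
      (by omega)
    rw [sub_add_cancel] at hj
    refine reach (l := 0) (m := k1 - 1) hsR (by omega) (by omega) hz hzR'.2.2.1 hline hj.symm a3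
      (avR k1 a1 a2) (avR (k1 - 1) (by omega) (by omega)) (notIn _) le_rfl (by omega) (by omega)
      ?_ (Or.inl ⟨rfl, rfl⟩)
    intro k h1 h2 h3
    have := hk1m k (by
      rw [hP]
      exact ⟨h1, by omega, h3⟩)
    omega
  have r2 : ∃ t ∈ MM ω (HW 0 c ∩ (An v s R : Set (ℤ × ℤ)))
      (ae (v.1 - R) (v.1 + R) c (v.2 + R) k2), BdR v s t := by
    have hj := joins_ae (x₀ := v.1 - R) (x₁ := v.1 + R) (y₀ := c) (y₁ := v.2 + R) (k := k2)
      (by omega)
    refine reach (l := k2 + 1) (m := L) hsR (by omega) (by omega) hz hzR'.2.2.1 hline hj b3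
      (avR k2 b1 b2) (avR (k2 + 1) (by omega) (by omega)) (notIn _) (by omega) (by omega)
      (by omega) ?_ (Or.inr ⟨hL, rfl⟩)
    intro k h1 h2 h3
    have := hk2m k (by
      rw [hP]
      exact ⟨by omega, h2, h3⟩)
    omega
  obtain ⟨t1, ht1, hb1⟩ := r1
  obtain ⟨t2, ht2, hb2⟩ := r2
  have c1 : BdR v R (ae (v.1 - R) (v.1 + R) c (v.2 + R) (k1 - 1)) :=
    bd_ae (by omega) (by omega) (by omega) (by omega) (by omega)
  have c2 : BdR v R (ae (v.1 - R) (v.1 + R) c (v.2 + R) k2) :=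
    bd_ae (by omega) (by omega) (by omega) (by omega) (by omega)
  have i1 : InE v s t1 := hb1.inE (by omega)
  have i2 : InE v s t2 := hb2.inE (by omega)
  have hAn : ∀ g, g ∈ HW 0 c ∩ (An v s R : Set (ℤ × ℤ)) → g ∈ BR v R ∧ g ∉ BR v s := by
    intro g hg
    have := hg.2
    rwa [mem_coe, PercN.mem_An] at this
  have bdo : ∀ {e t : UE}, t ∈ MM ω (HW 0 c ∩ (An v s R : Set (ℤ × ℤ))) e → BdR v R e →
      ¬ InE v s e → BdR v s t → BdU (HW 0 c ∩ (An v s R : Set (ℤ × ℤ))) e ∧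
        BdU (HW 0 c ∩ (An v s R : Set (ℤ × ℤ))) t ∧ t ≠ e := by
    intro e t h1 h2 h3 h4
    have h5 : t ≠ e := by
      rintro rfl
      exact h3 (h4.inE (by omega))
    obtain ⟨f1, f2⟩ := side_of_MM h1 h5
    obtain ⟨g1, g2, g3⟩ := out_face h2
    obtain ⟨g4, g5, g6⟩ := in_face hs h4
    exact ⟨⟨f1, g1, fun h => g2 (hAn _ h).1, g3⟩, ⟨f2, g4, fun h => (hAn _ h).2 g5, g6⟩, h5⟩
  have hne2 : t1 ≠ t2 := by
    rintro rfl
    obtain ⟨u1, u2, u3⟩ := bdo ht1 c1 (notIn _) hb1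
    obtain ⟨w1, w2, w3⟩ := bdo ht2 c2 (notIn _) hb1
    have h1 := bdU_unique u2 (MM_symm ht1) (MM_symm ht2) u1 w1 u3.symm w3.symm
    have h2 := ae_inj' (by omega) h1
    omega
  unfold NF
  refine Finset.one_lt_card.2 ⟨t1, ?_, t2, ?_, hne2⟩
  · rw [mem_filter]
    exact ⟨i1.mem_UB, hb1, _, MM_symm ht1, c1⟩
  · rw [mem_filter]
    exact ⟨i2.mem_UB, hb2, _, MM_symm ht2, c2⟩

/-- Every half plane is the image of an upper half plane. -/
theorem exists_flat_at (i : Fin 4) (v : ℤ × ℤ) (c : ℤ) : ∃ (σ : Sym) (d : ℤ), At σ (0, 0) v ∧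
    σ.f '' (HW 0 d) = HW i c ∧ |d| = |c - cw i v| ∧ ∀ w, cw i (σ.v w) = c ↔ w.2 = d := by
  have hS : ∀ (p : ℤ × ℤ) (g : ℤ × ℤ), (symS p.1 p.2).f g = (g.1 + p.1, g.2 + p.2) :=
    fun p g => rfl
  have a1 : At (symS v.1 v.2) (0, 0) v := by simpa using at_symS (0, 0) v
  have a2 : At symT (0, 0) (0, 0) := at_symT (0, 0)
  have a3 : At (symX 0) (0, 0) (0, 0) := by simpa using at_symX 0 (0, 0)
  fin_cases i
  · refine ⟨symS v.1 v.2, c - v.2, a1, ?_, rfl, ?_⟩
    · ext ⟨x, y⟩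
      simp only [HW, Set.mem_image, Set.mem_ofPred_eq, hS]
      constructor
      · rintro ⟨⟨p, q⟩, h1, h2⟩
        simp only [Prod.mk.injEq] at h2
        simp only at h1
        omega
      · intro h
        exact ⟨(x - v.1, y - v.2), by simp only; omega, by simp⟩
    · intro w
      have e : (symS v.1 v.2).v w = (w.1 + v.1, w.2 + v.2) := rfl
      rw [e]
      simp only [cw]
      omega
  · refine ⟨scomp (symS v.1 v.2) (scomp symT (scomp (symX 0) symT)), v.2 - c,
      a1.comp (a2.comp (a3.comp a2)), ?_, abs_sub_comm _ _, ?_⟩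
    · ext ⟨x, y⟩
      have e : ∀ g : ℤ × ℤ, (scomp (symS v.1 v.2)
          (scomp symT (scomp (symX 0) symT))).f g = (g.1 + v.1, 0 - g.2 - 1 + v.2) :=
        fun g => rfl
      simp only [HW, Set.mem_image, Set.mem_ofPred_eq, e]
      constructor
      · rintro ⟨⟨p, q⟩, h1, h2⟩
        simp only [Prod.mk.injEq] at h2
        simp only at h1
        omega
      · intro h
        refine ⟨(x - v.1, v.2 - y - 1), by simp only; omega, ?_⟩
        simp only [Prod.mk.injEq]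
        omega
    · intro w
      have e : (scomp (symS v.1 v.2) (scomp symT (scomp (symX 0) symT))).v w =
        (w.1 + v.1, 0 - w.2 + v.2) := rfl
      rw [e]
      simp only [cw]
      omega
  · refine ⟨scomp (symS v.1 v.2) symT, c - v.1, a1.comp a2, ?_, rfl, ?_⟩
    · ext ⟨x, y⟩
      have e : ∀ g : ℤ × ℤ, (scomp (symS v.1 v.2) symT).f g = (g.2 + v.1, g.1 + v.2) :=
        fun g => rfl
      simp only [HW, Set.mem_image, Set.mem_ofPred_eq, e]
      constructor
      · rintro ⟨⟨p, q⟩, h1, h2⟩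
        simp only [Prod.mk.injEq] at h2
        simp only at h1
        omega
      · intro h
        refine ⟨(y - v.2, x - v.1), by simp only; omega, ?_⟩
        simp only [Prod.mk.injEq]
        omega
    · intro w
      have e : (scomp (symS v.1 v.2) symT).v w = (w.2 + v.1, w.1 + v.2) := rfl
      rw [e]
      simp only [cw]
      omega
  · refine ⟨scomp (symS v.1 v.2) (scomp (symX 0) symT), v.1 - c, a1.comp (a3.comp a2), ?_,
      abs_sub_comm _ _, ?_⟩
    · ext ⟨x, y⟩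
      have e : ∀ g : ℤ × ℤ, (scomp (symS v.1 v.2) (scomp (symX 0) symT)).f g =
          (0 - g.2 - 1 + v.1, g.1 + v.2) := fun g => rfl
      simp only [HW, Set.mem_image, Set.mem_ofPred_eq, e]
      constructor
      · rintro ⟨⟨p, q⟩, h1, h2⟩
        simp only [Prod.mk.injEq] at h2
        simp only at h1
        omega
      · intro h
        refine ⟨(y - v.2, v.1 - x - 1), by simp only; omega, ?_⟩
        simp only [Prod.mk.injEq]
        omega
    · intro w
      have e : (scomp (symS v.1 v.2) (scomp (symX 0) symT)).v w = (0 - w.2 + v.1, w.1 + v.2) := rfl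
      rw [e]
      simp only [cw]
      omega

end Pool.Agent.SixB.LineC

namespace Pool.Agent.SixB

open Finset Pool.Agent.Perc Pool.Agent.PercD Pool.Agent.Perc6 Pool.Agent.PercN

/-- **A cluster of the half box which comes near a point of the line, reaches the boundary of the box
and does not touch the line is separated from the line by two strands which cross the annulus.** -/
theorem two_le_NF_of_cluster {ω : Cfg} {v : ℤ × ℤ} {s R c : ℤ} {i : Fin 4} (hs : 1 ≤ s)
    (hsR : s < R) (hc : |cw i v - c| ≤ s) {z p : ℤ × ℤ}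
    (hz : InR (v.1 - s) (v.1 + s) (v.2 - s) (v.2 + s) z)
    (hp : OnBd (v.1 - R) (v.1 + R) (v.2 - R) (v.2 + R) p)
    (hzp : Conn ω (HW i c ∩ (BR v R : Set (ℤ × ℤ))) z p)
    (hline : ∀ x, Conn ω (HW i c ∩ (BR v R : Set (ℤ × ℤ))) z x → cw i x ≠ c) :
    2 ≤ NF (HW i c) v s R ω := by
  obtain ⟨σ, d, h1, h2, h3, h4⟩ := LineC.exists_flat_at i v c
  have him : σ.f '' (HW 0 d ∩ (BR (0, 0) R : Set (ℤ × ℤ))) = HW i c ∩ (BR v R : Set (ℤ × ℤ)) := by
    rw [Set.image_inter σ.f.injective, h2, h1.img]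
  obtain ⟨z, rfl⟩ := σ.v.surjective z
  obtain ⟨p, rfl⟩ := σ.v.surjective p
  obtain ⟨ω, rfl⟩ : ∃ ω', ω = σ.act ω' := ⟨σ.inv.act ω, (σ.act_inv ω).symm⟩
  rw [← h2, NF_act h1 (HW 0 d) (by omega)]
  refine LineC.two_le_zero hs hsR (z := z) (p := p) ?_ ?_ ?_ ?_ ?_
  · simp only [sub_zero]
    rw [h3, abs_sub_comm]
    exact hc
  · exact ((h1 s).inR z).1 hz
  · exact ((h1 R).onBd p).1 hp
  · rw [← him, σ.conn_iff] at hzp
    exact hzp
  · intro x hx hxd
    refine hline (σ.v x) ?_ ((h4 x).2 hxd)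
    rw [← him, σ.conn_iff]
    exact hx

/-- The same for a domain which is a half plane in the box. -/
theorem two_le_NF_of_cluster' {ω : Cfg} {F : Set (ℤ × ℤ)} {v : ℤ × ℤ} {s R c : ℤ} {i : Fin 4}
    (hF : ∀ f ∈ BR v R, f ∈ F ↔ f ∈ HW i c) (hs : 1 ≤ s)
    (hsR : s < R) (hc : |cw i v - c| ≤ s) {z p : ℤ × ℤ}
    (hz : InR (v.1 - s) (v.1 + s) (v.2 - s) (v.2 + s) z)
    (hp : OnBd (v.1 - R) (v.1 + R) (v.2 - R) (v.2 + R) p)
    (hzp : Conn ω (F ∩ (BR v R : Set (ℤ × ℤ))) z p)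
    (hline : ∀ x, Conn ω (F ∩ (BR v R : Set (ℤ × ℤ))) z x → cw i x ≠ c) :
    2 ≤ NF F v s R ω := by
  have e : F ∩ (BR v R : Set (ℤ × ℤ)) = HW i c ∩ (BR v R : Set (ℤ × ℤ)) := by
    ext f
    constructor
    · rintro ⟨h1, h2⟩
      exact ⟨(hF f (mem_coe.1 h2)).1 h1, h2⟩
    · rintro ⟨h1, h2⟩
      exact ⟨(hF f (mem_coe.1 h2)).2 h1, h2⟩
  rw [e] at hzp hline
  rw [NF_congr hF]
  exact two_le_NF_of_cluster hs hsR hc hz hp hzp hline

end Pool.Agent.SixB
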