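import Mathlib

/-!
# Menger's theorem for edges, `k = 2`, between two sets of vertices

`inc : E → V × V` gives the two ends of an edge. `Cn inc F u v`: `u` and `v` are joined by edges of
the finite set `F`. `Jn inc F X Y`: some vertex of `X` is joined to some vertex of `Y` by `F`.
`menger_two`: if `F` joins `X` to `Y` and there are no two disjoint subsets of `F` which both join
`X` to `Y`, then some edge of `F` belongs to every subset of `F` which joins `X` to `Y`.
-/

set_option autoImplicit false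

namespace Pool.Agent.SixB.Menger

open Finset Relation

variable {V E : Type*}

/-- The edge `e` joins `u` and `v`. -/
def Joins (inc : E → V × V) (e : E) (u v : V) : Prop := inc e = (u, v) ∨ inc e = (v, u)

theorem Joins.symm {inc : E → V × V} {e : E} {u v : V} (h : Joins inc e u v) :
    Joins inc e v u := Or.symm h

/-- `u` and `v` are joined by edges of `F`. -/
def Cn (inc : E → V × V) (F : Finset E) (u v : V) : Prop :=
  ReflTransGen (fun a b => ∃ e ∈ F, Joins inc e a b) u v

/-- `F` joins `X` to `Y`. -/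
def Jn (inc : E → V × V) (F : Finset E) (X Y : Set V) : Prop :=
  ∃ x ∈ X, ∃ y ∈ Y, Cn inc F x y

theorem Cn.mono {inc : E → V × V} {F G : Finset E} (h : F ⊆ G) {u v : V} (h1 : Cn inc F u v) :
    Cn inc G u v :=
  ReflTransGen.mono (fun _ _ ⟨e, he, hj⟩ => ⟨e, h he, hj⟩) _ _ h1

theorem Jn.mono {inc : E → V × V} {F G : Finset E} (h : F ⊆ G) {X Y : Set V}
    (h1 : Jn inc F X Y) : Jn inc G X Y := by
  obtain ⟨x, hx, y, hy, hc⟩ := h1
  exact ⟨x, hx, y, hy, hc.mono h⟩

/-- One step: an edge of `F`, or a free step inside `X` or inside `Y`. -/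
def Stp (inc : E → V × V) (X Y : Set V) (F : Finset E) (a b : V) : Prop :=
  (∃ e ∈ F, Joins inc e a b) ∨ (a ∈ X ∧ b ∈ X) ∨ (a ∈ Y ∧ b ∈ Y)

/-- Connections with free steps. -/
def Cf (inc : E → V × V) (X Y : Set V) (F : Finset E) (u v : V) : Prop :=
  ReflTransGen (Stp inc X Y F) u v

section Free

variable {inc : E → V × V} {X Y : Set V} {F G : Finset E} {u v w x y : V}

theorem Stp.mono (h : F ⊆ G) (h1 : Stp inc X Y F u v) : Stp inc X Y G u v := by
  rcases h1 with ⟨e, he, hj⟩ | h1
  · exact Or.inl ⟨e, h he, hj⟩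
  · exact Or.inr h1

theorem Cf.mono (h : F ⊆ G) (h1 : Cf inc X Y F u v) : Cf inc X Y G u v :=
  ReflTransGen.mono (fun _ _ h2 => Stp.mono h h2) _ _ h1

theorem Cn.cf (h : Cn inc F u v) : Cf inc X Y F u v :=
  ReflTransGen.mono (fun _ _ h2 => Or.inl h2) _ _ h

theorem Cf.symm (h : Cf inc X Y F u v) : Cf inc X Y F v u := by
  induction h with
  | refl => exact ReflTransGen.refl
  | tail _ h2 ih =>
    refine ReflTransGen.head ?_ ih
    rcases h2 with ⟨e', he', hj'⟩ | ⟨ha, hb⟩ | ⟨ha, hb⟩
    · exact Or.inl ⟨e', he', hj'.symm⟩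
    · exact Or.inr (Or.inl ⟨hb, ha⟩)
    · exact Or.inr (Or.inr ⟨hb, ha⟩)

theorem Cf.jn_aux (hy : y ∈ Y) (h : Cf inc X Y F u y) :
    (∃ y' ∈ Y, Cn inc F u y') ∨ Jn inc F X Y := by
  induction h using ReflTransGen.head_induction_on with
  | refl => exact Or.inl ⟨y, hy, ReflTransGen.refl⟩
  | head h1 _ ih =>
    rcases ih with ⟨y', hy', hc⟩ | hj
    · rcases h1 with he | ⟨ha, hb⟩ | ⟨ha, hb⟩
      · exact Or.inl ⟨y', hy', ReflTransGen.head he hc⟩
      · exact Or.inr ⟨_, hb, y', hy', hc⟩
      · exact Or.inl ⟨_, ha, ReflTransGen.refl⟩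
    · exact Or.inr hj

theorem Cf.jn (hx : x ∈ X) (hy : y ∈ Y) (h : Cf inc X Y F x y) : Jn inc F X Y := by
  rcases Cf.jn_aux hy h with ⟨y', hy', hc⟩ | hj
  · exact ⟨x, hx, y', hy', hc⟩
  · exact hj

theorem Jn.cf (hx : x ∈ X) (hy : y ∈ Y) (h : Jn inc F X Y) : Cf inc X Y F x y := by
  obtain ⟨x', hx', y', hy', hc⟩ := h
  have h1 : Stp inc X Y F x x' := Or.inr (Or.inl ⟨hx, hx'⟩)
  have h2 : Stp inc X Y F y' y := Or.inr (Or.inr ⟨hy', hy⟩)
  exact ReflTransGen.tail (ReflTransGen.head h1 hc.cf) h2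

end Free

section Key

variable [DecidableEq E] {inc : E → V × V} {X Y : Set V} {F : Finset E} {x : V}

/-- Deleting an edge: everything joined to `x` stays joined, or one end of the edge stays joined. -/
theorem erase_or {F1 : Finset E} {e : E} {v w u : V} (he : Joins inc e v w)
    (h : Cf inc X Y F1 x u) :
    Cf inc X Y (F1.erase e) x u ∨ Cf inc X Y (F1.erase e) x v ∨ Cf inc X Y (F1.erase e) x w := by
  induction h with
  | refl => exact Or.inl ReflTransGen.refl
  | @tail b c _ h2 ih =>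
    rcases ih with ih | ih
    · rcases h2 with ⟨e', he', hj⟩ | h2
      · by_cases hee : e' = e
        · subst hee
          right
          rcases he with he | he <;> rcases hj with hj | hj <;> rw [he] at hj <;>
            simp only [Prod.mk.injEq] at hj <;> obtain ⟨h3, h4⟩ := hj <;> subst h3 <;> subst h4
          · exact Or.inl ih
          · exact Or.inr ih
          · exact Or.inr ih
          · exact Or.inl ih
        · exact Or.inl (ReflTransGen.tail ih (Or.inl ⟨e', mem_erase.2 ⟨hee, he'⟩, hj⟩))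
      · exact Or.inl (ReflTransGen.tail ih (Or.inr h2))
    · exact Or.inr ih

open Classical in
/-- The edges of `F1` in the cluster of `x`. -/
noncomputable def trim (inc : E → V × V) (X Y : Set V) (x : V) (F1 : Finset E) : Finset E :=
  F1.filter fun e => Cf inc X Y F1 x (inc e).1 ∧ Cf inc X Y F1 x (inc e).2

omit [DecidableEq E] in
theorem trim_sub {F1 : Finset E} : trim inc X Y x F1 ⊆ F1 := by
  classical
  exact filter_subset _ _

omit [DecidableEq E] in
theorem cf_trim {F1 : Finset E} {v : V} (h : Cf inc X Y F1 x v) :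
    Cf inc X Y (trim inc X Y x F1) x v := by
  classical
  induction h with
  | refl => exact ReflTransGen.refl
  | @tail b c h1 h2 ih =>
    rcases h2 with ⟨e', he', hj⟩ | h2
    · have hc : Cf inc X Y F1 x c := ReflTransGen.tail h1 (Or.inl ⟨e', he', hj⟩)
      have hm : e' ∈ trim inc X Y x F1 := by
        rw [trim, mem_filter]
        refine ⟨he', ?_⟩
        rcases hj with hj | hj <;> rw [hj]
        · exact ⟨h1, hc⟩
        · exact ⟨hc, h1⟩
      exact ReflTransGen.tail ih (Or.inl ⟨e', hm, hj⟩)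
    · exact ReflTransGen.tail ih (Or.inr h2)

omit [DecidableEq E] in
theorem trim_end {F1 : Finset E} {e : E} {u v : V} (h : e ∈ trim inc X Y x F1)
    (hj : Joins inc e u v) : Cf inc X Y F1 x v := by
  classical
  rw [trim, mem_filter] at h
  rcases hj with hj | hj <;> rw [hj] at h
  · exact h.2.2
  · exact h.2.1

/-- Two disjoint sets of edges of `F` join `x` to `v`. -/
def Dbl (inc : E → V × V) (X Y : Set V) (F : Finset E) (x v : V) : Prop :=
  ∃ F1 F2 : Finset E, F1 ⊆ F ∧ F2 ⊆ F ∧ Disjoint F1 F2 ∧ Cf inc X Y F1 x v ∧ Cf inc X Y F2 x v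

/-- The end of a path after its last vertex in the two clusters. -/
theorem last_part {F1 F2 G : Finset E} {w u : V} (h : Cf inc X Y G u w) :
    (∃ P ⊆ G, Disjoint P (trim inc X Y x F1) ∧ Disjoint P (trim inc X Y x F2) ∧
      ∃ z, (Cf inc X Y F1 x z ∨ Cf inc X Y F2 x z) ∧ Cf inc X Y P z w) ∨
    ((¬ Cf inc X Y F1 x u ∧ ¬ Cf inc X Y F2 x u) ∧
      ∃ P ⊆ G, Disjoint P (trim inc X Y x F1) ∧ Disjoint P (trim inc X Y x F2) ∧
        Cf inc X Y P u w) := by
  classical
  induction h using ReflTransGen.head_induction_on with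
  | refl =>
    by_cases hw : Cf inc X Y F1 x w ∨ Cf inc X Y F2 x w
    · exact Or.inl ⟨∅, empty_subset _, disjoint_empty_left _, disjoint_empty_left _, w, hw,
        ReflTransGen.refl⟩
    · rw [not_or] at hw
      exact Or.inr ⟨hw, ∅, empty_subset _, disjoint_empty_left _, disjoint_empty_left _,
        ReflTransGen.refl⟩
  | @head a b h1 _ ih =>
    rcases ih with ih | ⟨hb, P, hP, hd1, hd2, hc⟩
    · exact Or.inl ih
    · have key : ∃ P' ⊆ G, Disjoint P' (trim inc X Y x F1) ∧ Disjoint P' (trim inc X Y x F2) ∧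
          Cf inc X Y P' a w := by
        rcases h1 with ⟨e, he, hj⟩ | h1
        · refine ⟨insert e P, insert_subset he hP, ?_, ?_, ?_⟩
          · rw [disjoint_insert_left]
            exact ⟨fun hm => hb.1 (trim_end hm hj), hd1⟩
          · rw [disjoint_insert_left]
            exact ⟨fun hm => hb.2 (trim_end hm hj), hd2⟩
          · exact ReflTransGen.head (Or.inl ⟨e, mem_insert_self _ _, hj⟩)
              (hc.mono (subset_insert _ _))
        · exact ⟨P, hP, hd1, hd2, ReflTransGen.head (Or.inr h1) hc⟩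
      obtain ⟨P', hP', h1', h2', hc'⟩ := key
      by_cases ha : Cf inc X Y F1 x a ∨ Cf inc X Y F2 x a
      · exact Or.inl ⟨P', hP', h1', h2', a, ha, hc'⟩
      · rw [not_or] at ha
        exact Or.inr ⟨ha, P', hP', h1', h2', hc'⟩

theorem Dbl.step_aux {F1 F2 : Finset E} {e : E} {v w : V} (heF : e ∈ F) (he : Joins inc e v w)
    (h1 : F1 ⊆ F) (h2 : F2 ⊆ F) (hd : Disjoint F1 F2) (hc1 : Cf inc X Y F1 x v)
    (hc2 : Cf inc X Y F2 x v) (he1 : e ∉ F1) (he2 : e ∉ F2)
    (hw : Cf inc X Y (F.erase e) x w) : Dbl inc X Y F x w := by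
  classical
  have hx : Cf inc X Y F1 x x := ReflTransGen.refl
  rcases last_part (x := x) (F1 := F1) (F2 := F2) hw with
    ⟨P, hP, hd1, hd2, z, hz, hc⟩ | ⟨hn, _⟩
  · have hPe : e ∉ P := fun hm => notMem_erase e F (hP hm)
    have hPF : P ⊆ F := hP.trans (erase_subset _ _)
    rcases hz with hz | hz
    · refine ⟨trim inc X Y x F1 ∪ P, insert e (trim inc X Y x F2),
        union_subset (trim_sub.trans h1) hPF, insert_subset heF (trim_sub.trans h2), ?_, ?_, ?_⟩
      · rw [disjoint_union_left, disjoint_insert_right, disjoint_insert_right]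
        exact ⟨⟨fun hm => he1 (trim_sub hm), hd.mono trim_sub trim_sub⟩, hPe, hd2⟩
      · exact ReflTransGen.trans ((cf_trim hz).mono subset_union_left)
          (hc.mono subset_union_right)
      · exact ReflTransGen.tail ((cf_trim hc2).mono (subset_insert _ _))
          (Or.inl ⟨e, mem_insert_self _ _, he⟩)
    · refine ⟨insert e (trim inc X Y x F1), trim inc X Y x F2 ∪ P,
        insert_subset heF (trim_sub.trans h1), union_subset (trim_sub.trans h2) hPF, ?_, ?_, ?_⟩
      · rw [disjoint_insert_left, disjoint_union_right, mem_union, not_or]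
        exact ⟨⟨fun hm => he2 (trim_sub hm), hPe⟩, hd.mono trim_sub trim_sub, hd1.symm⟩
      · exact ReflTransGen.tail ((cf_trim hc1).mono (subset_insert _ _))
          (Or.inl ⟨e, mem_insert_self _ _, he⟩)
      · exact ReflTransGen.trans ((cf_trim hz).mono subset_union_left)
          (hc.mono subset_union_right)
  · exact absurd hx hn.1

theorem Dbl.step_one {F1 F2 : Finset E} {e : E} {v w : V} (heF : e ∈ F) (he : Joins inc e v w)
    (h1 : F1 ⊆ F) (h2 : F2 ⊆ F) (hd : Disjoint F1 F2) (hc1 : Cf inc X Y F1 x v)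
    (hc2 : Cf inc X Y F2 x v) (he2 : e ∉ F2)
    (hw : Cf inc X Y (F.erase e) x w) : Dbl inc X Y F x w := by
  classical
  have hd' : Disjoint (F1.erase e) F2 := hd.mono_left (erase_subset _ _)
  have hs : F1.erase e ⊆ F := (erase_subset _ _).trans h1
  have hv : Cf inc X Y (F1.erase e) x v ∨ Cf inc X Y (F1.erase e) x w := by
    rcases erase_or he hc1 with h | h | h
    · exact Or.inl h
    · exact Or.inl h
    · exact Or.inr h
  rcases hv with hv | hv
  · exact Dbl.step_aux heF he hs h2 hd' hv hc2 (notMem_erase _ _) he2 hw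
  · refine ⟨F1.erase e, insert e F2, hs, insert_subset heF h2, ?_, hv, ?_⟩
    · rw [disjoint_insert_right]
      exact ⟨notMem_erase _ _, hd'⟩
    · exact ReflTransGen.tail (hc2.mono (subset_insert _ _))
        (Or.inl ⟨e, mem_insert_self _ _, he⟩)

theorem Dbl.step {e : E} {v w : V} (heF : e ∈ F) (he : Joins inc e v w)
    (h : Dbl inc X Y F x v) (hw : Cf inc X Y (F.erase e) x w) : Dbl inc X Y F x w := by
  obtain ⟨F1, F2, h1, h2, hd, hc1, hc2⟩ := h
  by_cases he2 : e ∈ F2
  · exact Dbl.step_one heF he h2 h1 hd.symm hc2 hc1 (disjoint_right.1 hd he2) hw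
  · exact Dbl.step_one heF he h1 h2 hd hc1 hc2 he2 hw

omit [DecidableEq E] in
/-- The last exit of a path from the set of doubly joined vertices. -/
theorem last_exit {u y : V} (h : Cf inc X Y F u y) :
    Dbl inc X Y F x y ∨
    (¬ Dbl inc X Y F x u ∧ ReflTransGen (fun a b => Stp inc X Y F a b ∧
      ¬ Dbl inc X Y F x a ∧ ¬ Dbl inc X Y F x b) u y) ∨
    (∃ v w, Dbl inc X Y F x v ∧ ¬ Dbl inc X Y F x w ∧ Stp inc X Y F v w ∧
      ReflTransGen (fun a b => Stp inc X Y F a b ∧
        ¬ Dbl inc X Y F x a ∧ ¬ Dbl inc X Y F x b) w y) := by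
  induction h using ReflTransGen.head_induction_on with
  | refl =>
    by_cases hy : Dbl inc X Y F x y
    · exact Or.inl hy
    · exact Or.inr (Or.inl ⟨hy, ReflTransGen.refl⟩)
  | @head a b h1 _ ih =>
    rcases ih with ih | ⟨hb, hc⟩ | ih
    · exact Or.inl ih
    · by_cases ha : Dbl inc X Y F x a
      · exact Or.inr (Or.inr ⟨a, b, ha, hb, h1, hc⟩)
      · exact Or.inr (Or.inl ⟨ha, ReflTransGen.head ⟨h1, ha, hb⟩ hc⟩)
    · exact Or.inr (Or.inr ih)

theorem dbl_of {y : V} (h : Cf inc X Y F x y)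
    (h1 : ∀ e ∈ F, Cf inc X Y (F.erase e) x y) : Dbl inc X Y F x y := by
  classical
  have hx : Dbl inc X Y F x x :=
    ⟨∅, ∅, empty_subset _, empty_subset _, disjoint_empty_left _, ReflTransGen.refl,
      ReflTransGen.refl⟩
  rcases last_exit (x := x) h with hy | ⟨hn, _⟩ | ⟨v, w, hv, hw, hs, hp⟩
  · exact hy
  · exact absurd hx hn
  · exfalso
    rcases hs with ⟨e, he, hj⟩ | hs
    · -- the rest of the path does not use `e`
      have hrest : Cf inc X Y (F.erase e) w y := by
        refine ReflTransGen.mono ?_ _ _ hp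
        rintro a b ⟨hab, ha, hb⟩
        rcases hab with ⟨e', he', hj'⟩ | hab
        · refine Or.inl ⟨e', mem_erase.2 ⟨?_, he'⟩, hj'⟩
          rintro rfl
          rcases hj with hj | hj <;> rcases hj' with hj' | hj' <;> rw [hj] at hj' <;>
            simp only [Prod.mk.injEq] at hj' <;> obtain ⟨h3, h4⟩ := hj' <;> subst h3 <;> subst h4
          · exact ha hv
          · exact hb hv
          · exact hb hv
          · exact ha hv
        · exact Or.inr hab
      have hsym : Cf inc X Y (F.erase e) y w := hrest.symm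
      exact hw (Dbl.step he hj hv ((h1 e he).trans hsym))
    · obtain ⟨F1, F2, a1, a2, a3, a4, a5⟩ := hv
      exact hw ⟨F1, F2, a1, a2, a3, ReflTransGen.tail a4 (Or.inr hs),
        ReflTransGen.tail a5 (Or.inr hs)⟩

end Key

/-- **Menger's theorem** for edges and `k = 2`. -/
theorem menger_two (inc : E → V × V) (F : Finset E) (X Y : Set V) (h : Jn inc F X Y)
    (h2 : ¬ ∃ F1 F2 : Finset E, F1 ⊆ F ∧ F2 ⊆ F ∧ Disjoint F1 F2 ∧ Jn inc F1 X Y ∧
      Jn inc F2 X Y) :
    ∃ e ∈ F, ∀ F' ⊆ F, Jn inc F' X Y → e ∈ F' := by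
  classical
  by_contra hno
  push Not at hno
  obtain ⟨x, hx, y, hy, hc⟩ := h
  have h1 : ∀ e ∈ F, Cf inc X Y (F.erase e) x y := by
    intro e he
    obtain ⟨F', hF', hj, hn⟩ := hno e he
    exact (hj.mono (subset_erase.2 ⟨hF', hn⟩)).cf hx hy
  obtain ⟨F1, F2, a1, a2, a3, a4, a5⟩ := dbl_of hc.cf h1
  exact h2 ⟨F1, F2, a1, a2, a3, a4.jn hx hy, a5.jn hx hy⟩

end Pool.Agent.SixB.Menger
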