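import Pool.Agent.Lib.SixB.S8MoveT

/-!
# Step 8, unit 8H: the kernel for one past

* `one_move'`, `kernel'`: the theorems of `S8Kernel` where the existence of the stop is only asked for
  `U \ T₀` (the stop set `Zp` may be smaller, for example `P \ D⁻`);
* `RunS.unique`: the contour data of an attached set are determined;
* `kernel_fam`: the kernel for one past, the coarse functions (lengths and marks) are arbitrary functions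
  with the defining properties; for every removed set the true domain is chosen inside the proof.
-/

set_option autoImplicit false

namespace Pool.Agent.SixB

open Finset Pool.Agent.Perc Pool.Agent.Perc6 Pool.Agent.PercT

/-- The event of the move depends on the stop set only through the first entrance, outside of the bad
event of `T₀`. -/
theorem moveEv_iff {ω : Cfg} {c : ℤ} {R U : Set (ℤ × ℤ)} {a : UE} {T₀ : Finset (ℤ × ℤ)} {m₀ : ℕ}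
    {w₀ : ℕ → ℤ × ℤ} {p₁ q₁ q₃ p₃ : ℕ} {Z Zp A : Set (ℤ × ℤ)} {Gd : Set UE}
    (h₀ : CapDom ω c R U T₀ m₀ w₀ p₁ q₁ q₃ p₃ a)
    (hZ₀ : ∀ x, q₁ ≤ x → x < q₃ → ∀ s g, Joins s (w₀ x) (w₀ (x + 1)) → IsSide g s → g ∉ T₀ →
      g ∈ Z)
    (hZZp : Z ⊆ Zp) (hZpU : Zp ⊆ U) (hZp₀ : ∀ g ∈ Zp, g ∉ T₀)
    (hstop : ∃ n, fa (pth ω a n) ∈ U ∧ fa (pth ω a n) ∉ T₀)
    (hb₀ : ω ∉ CapBad c T₀ m₀ w₀ p₁ q₁ q₃ p₃) :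
    ω ∈ MoveEv a Zp A Gd ↔ ω ∈ MoveEv a (U \ T₀) A Gd := by
  obtain ⟨n, hn1, hn2⟩ := hstop
  obtain ⟨θ, -, hθ⟩ := exists_ent hn1 hn2
  obtain ⟨-, y, hy1, hy2, hyj, -⟩ := h₀.ent hθ hb₀
  have hyZ := hZ₀ y hy1 hy2 _ _ hyj (isSide_fa _) hθ.out
  have hbef : ∀ i < θ, fa (pth ω a i) ∉ U \ (T₀ : Set (ℤ × ℤ)) := by
    rintro i hi ⟨h1, h2⟩
    rcases hθ.bef i hi with h3 | h3
    · exact h2 (Finset.mem_coe.2 h3)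
    · exact h3 h1
  constructor
  · rintro ⟨σ, h1, h2, h3, h4⟩
    have e : σ = θ := by
      rcases lt_trichotomy σ θ with h | h | h
      · exact absurd ⟨hZpU h2, fun hh => hZp₀ _ h2 (Finset.mem_coe.1 hh)⟩ (hbef σ h)
      · exact h
      · exact absurd (hZZp hyZ) (h1 θ h)
    subst e
    exact ⟨σ, hbef, ⟨hθ.mem, fun hh => hθ.out (Finset.mem_coe.1 hh)⟩, h3, h4⟩
  · rintro ⟨σ, h1, h2, h3, h4⟩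
    have e : σ = θ := by
      rcases lt_trichotomy σ θ with h | h | h
      · exact absurd h2 (hbef σ h)
      · exact h
      · exact absurd ⟨hθ.mem, fun hh => hθ.out (Finset.mem_coe.1 hh)⟩ (h1 θ h)
    subst e
    exact ⟨σ, fun i hi hZp => hbef i hi ⟨hZpU hZp, fun hh => hZp₀ _ hZp (Finset.mem_coe.1 hh)⟩,
      hZZp hyZ, h3, h4⟩

/-- **One move**, the strand enters `U \ T₀`. -/
theorem one_move' : ∃ C α : ℝ, 0 < C ∧ 0 < α ∧ ∀ {ι₀ ι : Type} {Ξ : Cfg → Cfg} {c : ℤ}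
    {R U : Set (ℤ × ℤ)} {a : UE}
    {T₀ : Finset (ℤ × ℤ)} {m₀ : ℕ} {w₀ : ℕ → ℤ × ℤ} {p₁ q₁ q₃ p₃ : ℕ}
    {P₀ : Finset (ℤ × ℤ)} {m₀' : ℕ} {w₀' : ℕ → ℤ × ℤ} {j₁ j₃ : ℕ} {κ₀ : ℤ × ℤ → ι₀}
    {T : Finset (ℤ × ℤ)} {m : ℕ} {w : ℕ → ℤ × ℤ} {k₁ r₁ r₃ k₃ : ℕ}
    {P : Finset (ℤ × ℤ)} {m' : ℕ} {w' : ℕ → ℤ × ℤ} {l₁ l₃ : ℕ} {κ : ℤ × ℤ → ι}
    {v : ℤ × ℤ} {E ρ : ℤ} {Z Zp A : Set (ℤ × ℤ)} {Gd : Set UE} {y₁ y₂ : ℕ},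
    MvDom ι₀ Ξ c R U a T₀ m₀ w₀ p₁ q₁ q₃ p₃ P₀ m₀' w₀' j₁ j₃ κ₀ v E ρ →
    MvDom ι Ξ c R U a T m w k₁ r₁ r₃ k₃ P m' w' l₁ l₃ κ v E ρ →
    MvEvt U T₀ w₀ q₁ q₃ T w r₁ r₃ l₁ l₃ Z Zp A Gd y₁ y₂ →
    (∀ ξ, ∃ n, fa (pth (Ξ ξ) a n) ∈ U ∧ fa (pth (Ξ ξ) a n) ∉ T₀) →
    ∀ W : Finset (ℤ × ℤ), T₀ ⊆ W → T ⊆ W →
    |pr W {ξ | Ξ ξ ∈ MoveEv a Zp A Gd} - (Xmk c P w' l₁ l₃ y₁ - Xmk c P w' l₁ l₃ y₂)| ≤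
      C * ((E : ℝ) / ρ) ^ α := by
  obtain ⟨C1, α1, hC1, hα1, hbad⟩ := mvDom_bad
  obtain ⟨C2, α2, hC2, hα2, hone⟩ := one_move
  refine ⟨C1 + C2, min α1 α2, by positivity, lt_min hα1 hα2, ?_⟩
  intro ι₀ ι Ξ c R U a T₀ m₀ w₀ p₁ q₁ q₃ p₃ P₀ m₀' w₀' j₁ j₃ κ₀ T m w k₁ r₁ r₃ k₃ P m' w' l₁ l₃ κ
    v E ρ Z Zp A Gd y₁ y₂ h₀ h hv hstop W hT₀W hTW
  have hEρ := h.Eρ
  have hE0 := h.hE
  have hρ0 : (0 : ℝ) < ρ := by exact_mod_cast (lt_of_lt_of_le hE0 hEρ)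
  have hE0' : (0 : ℝ) < E := by exact_mod_cast hE0
  have hq1 : (E : ℝ) / ρ ≤ 1 := by
    rw [div_le_one hρ0]
    exact_mod_cast hEρ
  have hq0 : 0 < (E : ℝ) / ρ := by positivity
  have e1 : ((E : ℝ) / ρ) ^ α1 ≤ ((E : ℝ) / ρ) ^ (min α1 α2) :=
    Real.rpow_le_rpow_of_exponent_ge hq0 hq1 (min_le_left _ _)
  have e2 : ((E : ℝ) / ρ) ^ α2 ≤ ((E : ℝ) / ρ) ^ (min α1 α2) :=
    Real.rpow_le_rpow_of_exponent_ge hq0 hq1 (min_le_right _ _)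
  have b0 := (hbad h₀ W hT₀W).trans (mul_le_mul_of_nonneg_left e1 hC1.le)
  have hv' : MvEvt U T₀ w₀ q₁ q₃ T w r₁ r₃ l₁ l₃ Z (U \ T₀) A Gd y₁ y₂ :=
    { hv with
      ZZp := fun g hg => ⟨hv.ZpU (hv.ZZp hg), fun hh => hv.Zp₀ g (hv.ZZp hg) (Finset.mem_coe.1 hh)⟩
      ZpU := Set.sdiff_subset
      Zp₀ := fun g hg hh => hg.2 (Finset.mem_coe.2 hh) }
  have h1 := (hone h₀ h hv' (fun ξ => by
    obtain ⟨n, hn1, hn2⟩ := hstop ξ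
    exact ⟨n, hn1, fun hh => hn2 (Finset.mem_coe.1 hh)⟩) W hT₀W hTW).trans
    (mul_le_mul_of_nonneg_left e2 hC2.le)
  have h2 : |pr W {ξ | Ξ ξ ∈ MoveEv a Zp A Gd} - pr W {ξ | Ξ ξ ∈ MoveEv a (U \ T₀) A Gd}| ≤
      pr W (CapBad c T₀ m₀ w₀ p₁ q₁ q₃ p₃) := by
    refine LC.pr_diff_le fun ξ hne => ?_
    by_contra hno
    have hb₀ : Ξ ξ ∉ CapBad c T₀ m₀ w₀ p₁ q₁ q₃ p₃ := fun hh =>
      hno ((depOn_capBad c T₀ m₀ w₀ p₁ q₁ q₃ p₃ (Ξ ξ) ξ (h₀.agr ξ)).1 hh)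
    exact hne (moveEv_iff (h₀.cap ξ) hv.Z₀ hv.ZZp hv.ZpU hv.Zp₀ (hstop ξ) hb₀)
  rw [abs_le] at h1 h2 ⊢
  constructor <;> nlinarith

/-- **THE KERNEL**, the strand enters `U \ T₀`. -/
theorem kernel' : ∃ C α : ℝ, 0 < C ∧ 0 < α ∧ ∀ {ι κt ρt : Type} [DecidableEq ι]
    {𝒦 : Finset (Finset ι)} {cf : Finset ι → Set (ℤ × ℤ)} {av : Cfg → ι → Prop} {rn : Cfg → ρt}
    {Ξ : Cfg → Cfg} {c : ℤ} {R U : Set (ℤ × ℤ)} {a : UE}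
    {T : Finset ι → Finset (ℤ × ℤ)} {m : Finset ι → ℕ} {w : Finset ι → ℕ → ℤ × ℤ}
    {k₁ r₁ r₃ k₃ : Finset ι → ℕ} {P : Finset ι → Finset (ℤ × ℤ)} {m' : Finset ι → ℕ}
    {w' : Finset ι → ℕ → ℤ × ℤ} {l₁ l₃ : Finset ι → ℕ} {κ : Finset ι → ℤ × ℤ → κt}
    {v : ℤ × ℤ} {E ρ : ℤ} {Z Zp : Set (ℤ × ℤ)} {Gd : Set UE} {y₁ y₂ : Finset ι → ℕ}
    {W : Finset (ℤ × ℤ)} {r : ρt},
    (∀ K ∈ 𝒦, ∀ K' ∈ 𝒦, K ∪ K' ∈ 𝒦) → ∅ ∈ 𝒦 →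
    (∀ q ∈ 𝒦, MvDom κt Ξ c R U a (T q) (m q) (w q) (k₁ q) (r₁ q) (r₃ q) (k₃ q) (P q) (m' q)
      (w' q) (l₁ q) (l₃ q) (κ q) v E ρ) →
    (∀ q ∈ 𝒦, MvEvt U (T ∅) (w ∅) (r₁ ∅) (r₃ ∅) (T q) (w q) (r₁ q) (r₃ q) (l₁ q) (l₃ q) Z Zp
      (cf q) Gd (y₁ q) (y₂ q)) →
    (∀ ξ, ∃ n, fa (pth (Ξ ξ) a n) ∈ U ∧ fa (pth (Ξ ξ) a n) ∉ T ∅) → (∀ q ∈ 𝒦, T q ⊆ W) →
    (∀ q ∈ 𝒦, ∀ ξ, (∀ i ∈ q, av (Ξ ξ) i) ∧ rn (Ξ ξ) = r ↔ Ξ ξ ∈ MoveEv a Zp (cf q) Gd) →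
    ∀ K ∈ 𝒦, |pr W {ξ | RunRec 𝒦 av rn (Ξ ξ) = (K, r)} -
      Mob 𝒦 (fun q => Xmk c (P q) (w' q) (l₁ q) (l₃ q) (y₁ q) -
        Xmk c (P q) (w' q) (l₁ q) (l₃ q) (y₂ q)) K| ≤
      2 ^ 𝒦.card * (C * ((E : ℝ) / ρ) ^ α) := by
  obtain ⟨C, α, hC, hα, h1⟩ := one_move'
  refine ⟨C, α, hC, hα, ?_⟩
  intro ι κt ρt _ 𝒦 cf av rn Ξ c R U a T m w k₁ r₁ r₃ k₃ P m' w' l₁ l₃ κ v E ρ Z Zp Gd y₁ y₂ W r
    hK h0 hdom hevt hstop hTW hrec K hKm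
  have key := abs_runRec_cond (W := W) (E := Set.univ) (r := r) (av := fun ξ i => av (Ξ ξ) i)
    (rn := fun ξ => rn (Ξ ξ)) (x := fun q => Xmk c (P q) (w' q) (l₁ q) (l₃ q) (y₁ q) -
        Xmk c (P q) (w' q) (l₁ q) (l₃ q) (y₂ q)) hK h0 (η := C * ((E : ℝ) / ρ) ^ α)
    (fun q hq => ?_) hKm
  · have hu : pr W (Set.univ : Set Cfg) = 1 := by simp [ProbA.pr_eq_sum]
    rw [hu, one_mul, one_mul, Set.univ_inter] at key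
    exact key
  · have hu : pr W (Set.univ : Set Cfg) = 1 := by simp [ProbA.pr_eq_sum]
    rw [hu, one_mul, one_mul, Set.univ_inter]
    have e1 : AvRun (fun ξ i => av (Ξ ξ) i) (fun ξ => rn (Ξ ξ)) r q =
        {ξ | Ξ ξ ∈ MoveEv a Zp (cf q) Gd} := by
      ext ξ
      exact hrec q hq ξ
    rw [e1]
    exact h1 (hdom ∅ h0) (hdom q hq) (hevt q hq) hstop W (hTW ∅ h0) (hTW q hq)

namespace Mv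

open CloK Pool.Agent.Perc6.C2Aux Pool.Agent.Perc.Tips Pool.Agent.SixB.Top

/-- The contour data of an attached set are determined. -/
theorem RunS.unique {a b L : ℤ} {D Y : Set (ℤ × ℤ)} {A : UE × Bool} {p q m n n' N₁ N₂ M₁ M₂ : ℕ}
    (h : RunS a b L D A p q Y m n N₁ N₂) (h' : RunS a b L D A p q Y m n' M₁ M₂) :
    n = n' ∧ N₁ = M₁ ∧ N₂ = M₂ := by
  have hn := h.con.cyc.unique h'.con.cyc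
  subst hn
  have k1 := h.con.lt
  have k2 := h.con.le
  have k3 := h'.con.lt
  have k4 := h'.con.le
  have a1 := h'.mem_arc (i := N₁) (by omega) (h.att.sub (h.con.mid N₁ le_rfl k1))
  have a2 := h.mem_arc (i := M₁) (by omega) (h'.att.sub (h'.con.mid M₁ le_rfl k3))
  have a3 := h'.mem_arc (i := N₂ - 1) (by omega)
    (h.att.sub (h.con.mid (N₂ - 1) (by omega) (by omega)))
  have a4 := h.mem_arc (i := M₂ - 1) (by omega)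
    (h'.att.sub (h'.con.mid (M₂ - 1) (by omega) (by omega)))
  refine ⟨rfl, ?_, ?_⟩ <;> omega

/-- The event data of a move for an arbitrary stop set `Zp`. -/
theorem mvEvt_of' {U : Set (ℤ × ℤ)} {A B : UE × Bool} {a b L : ℤ} {D Z Zp Y' C : Set (ℤ × ℤ)}
    {T₀ T : Finset (ℤ × ℤ)}
    {m n n' p q N₁ N₂ M₁ M₂ r mU M₀ s₀ t₀ u₀ K₀ M s t u K x₁ x₂ : ℕ}
    (h : RunS a b L D B p q Z m n N₁ N₂) (h' : RunS a b L D B p q Y' m n' M₁ M₂)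
    (hY' : Y' = Z ∪ C) (hZC : ∀ f ∈ C, f ∉ Z) (hDU : D ⊆ U)
    (l₀ : LayBar U (T₀ : Set (ℤ × ℤ)) (inn D B Z) A B N₁ N₂ mU M₀ s₀ t₀ u₀ K₀)
    (l : LayBar U (T : Set (ℤ × ℤ)) (inn D B Y') A B M₁ M₂ mU M s t u K)
    (hT₀ : ∀ f ∈ T₀, f ∉ Z) (hZp : Z ⊆ Zp) (hZpU : Zp ⊆ U) (hZp₀ : ∀ f ∈ Zp, f ∉ T₀)
    (hT : ∀ f ∈ T, f ∉ Y')
    (hx : RMark (inn D B Z) (inn D B Y') B M₁ M₂ (rs a b L (inn D B Z) B N₁ N₂ r)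
      (rs a b L (inn D B Z) B N₁ N₂ (r + 1)) x₁ x₂) :
    MvEvt U T₀ (vert (T₀ : Set (ℤ × ℤ)) A) K₀ (K₀ + (N₂ - N₁)) T (vert (T : Set (ℤ × ℤ)) A) K
      (K + (M₂ - M₁)) M₁ M₂ Z Zp C
      (runE (inn D B Z) B (rs a b L (inn D B Z) B N₁ N₂ r)
        (rs a b L (inn D B Z) B N₁ N₂ (r + 1))) x₁ x₂ := by
  have h1 := mvEvt_of h h' hY' hZC hDU l₀ l hT₀ (cR := ∅) (cL := ∅) (by simp) (by simp) hT hx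
  exact { h1 with ZZp := hZp, ZpU := hZpU, Zp₀ := hZp₀ }

/-- **The kernel for one past.** `n`, `N₁`, `N₂`, `y₁`, `y₂`, `Pf` are the coarse functions of the removed
set; for every removed set and every choice of the true domain the data `MvDom` are given (`hdom`). -/
theorem kernel_fam : ∃ C α : ℝ, 0 < C ∧ 0 < α ∧ ∀ {ι ι' κt ρt : Type} [DecidableEq ι']
    {𝒦 : Finset (Finset ι')} {cf : Finset ι' → Set (ℤ × ℤ)} {av : Cfg → ι' → Prop}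
    {rn' : Cfg → ρt} {Ξ : Cfg → Cfg} {c : ℤ} {R U P D : Set (ℤ × ℤ)} {κ : ℤ × ℤ → ι}
    {κ₂ : Finset ι' → ℤ × ℤ → κt} {d a b L : ℤ} {A τ : UE × Bool} {m p q mU : ℕ}
    {n N₁ N₂ y₁ y₂ : Finset ι' → ℕ} {Pf : Finset ι' → Finset (ℤ × ℤ)}
    {v : ℤ × ℤ} {E ρ : ℤ} {Z Zp : Set (ℤ × ℤ)} {W : Finset (ℤ × ℤ)} {r' : ρt} {r : ℕ},
    (∀ K ∈ 𝒦, ∀ K' ∈ 𝒦, K ∪ K' ∈ 𝒦) → ∅ ∈ 𝒦 → Mvd U P D κ d A m p q → Cyc U τ mU →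
    cf ∅ = ∅ → (∀ K ∈ 𝒦, ∀ f ∈ cf K, f ∉ Z) →
    (∀ K ∈ 𝒦, RunS a b L D A p q (Z ∪ cf K) m (n K) (N₁ K) (N₂ K)) → (∀ K ∈ 𝒦, N₂ K < n K) →
    (∀ K ∈ 𝒦, (Pf K : Set (ℤ × ℤ)) = inn D A (Z ∪ cf K)) →
    (∀ K ∈ 𝒦, RMark (inn D A Z) (inn D A (Z ∪ cf K)) A (N₁ K) (N₂ K)
      (rs a b L (inn D A Z) A (N₁ ∅) (N₂ ∅) r) (rs a b L (inn D A Z) A (N₁ ∅) (N₂ ∅) (r + 1))
      (y₁ K) (y₂ K)) →
    (∀ K ∈ 𝒦, ahead τ ∈ domT U (Z ∪ cf K) (capK U κ (gR D A (Z ∪ cf K) (N₁ K)))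
      (capK U κ (gL D A (Z ∪ cf K) (N₂ K))) A) →
    (∀ K ∈ 𝒦, ∀ T M s t u k, TSide U P D κ a b L A τ m p q (Z ∪ cf K) T (n K) (N₁ K) (N₂ K) mU M
      s t u k → MvDom κt Ξ c R U τ.1 T M (vert (T : Set (ℤ × ℤ)) τ) (s + 1) k
        (k + (N₂ K - N₁ K)) t (Pf K) (n K) (vert (inn D A (Z ∪ cf K)) A) (N₁ K) (N₂ K) (κ₂ K) v E
        ρ) →
    Z ⊆ Zp → Zp ⊆ U →
    (∀ f ∈ Zp, f ∉ domT U Z (capK U κ (gR D A Z (N₁ ∅))) (capK U κ (gL D A Z (N₂ ∅))) A) →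
    (∀ ξ, ∃ i, fa (pth (Ξ ξ) τ.1 i) ∈ U ∧ fa (pth (Ξ ξ) τ.1 i) ∉
      domT U Z (capK U κ (gR D A Z (N₁ ∅))) (capK U κ (gL D A Z (N₂ ∅))) A) →
    U ⊆ W →
    (∀ K ∈ 𝒦, ∀ ξ, (∀ i ∈ K, av (Ξ ξ) i) ∧ rn' (Ξ ξ) = r' ↔ Ξ ξ ∈ MoveEv τ.1 Zp (cf K)
      (runE (inn D A Z) A (rs a b L (inn D A Z) A (N₁ ∅) (N₂ ∅) r)
        (rs a b L (inn D A Z) A (N₁ ∅) (N₂ ∅) (r + 1)))) →
    ∀ K ∈ 𝒦, |pr W {ξ | RunRec 𝒦 av rn' (Ξ ξ) = (K, r')} -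
      Mob 𝒦 (fun K => Xmk c (Pf K) (vert (inn D A (Z ∪ cf K)) A) (N₁ K) (N₂ K) (y₁ K) -
        Xmk c (Pf K) (vert (inn D A (Z ∪ cf K)) A) (N₁ K) (N₂ K) (y₂ K)) K| ≤
      2 ^ 𝒦.card * (C * ((E : ℝ) / ρ) ^ α) := by
  classical
  obtain ⟨C, α, hC, hα, h⟩ := kernel'
  refine ⟨C, α, hC, hα, ?_⟩
  intro ι ι' κt ρt _ 𝒦 cf av rn' Ξ c R U P D κ κ₂ d a b L A τ m p q mU n N₁ N₂ y₁ y₂ Pf v E ρ Z Zp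
    W r' r hK h0 H hU hcf0 hdis hrun hlt hPf hmk hτ hdom hZZp hZpU hZp0 hstop hUW hrec
  have hex : ∀ K ∈ 𝒦, ∃ T M s t u k, TSide U P D κ a b L A τ m p q (Z ∪ cf K) T (n K) (N₁ K)
      (N₂ K) mU M s t u k := fun K hK' =>
    exists_tside H (hrun K hK') (hlt K hK') hU (hτ K hK')
  choose! T M s t u k hS using hex
  have e0 : Z ∪ cf ∅ = Z := by rw [hcf0, Set.union_empty]
  have hS0 : TSide U P D κ a b L A τ m p q Z (T ∅) (n ∅) (N₁ ∅) (N₂ ∅) mU (M ∅) (s ∅) (t ∅) (u ∅)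
      (k ∅) := by
    have := hS ∅ h0
    rwa [e0] at this
  have eT0 : ((T ∅ : Finset (ℤ × ℤ)) : Set (ℤ × ℤ)) =
      domT U Z (capK U κ (gR D A Z (N₁ ∅))) (capK U κ (gL D A Z (N₂ ∅))) A := hS0.eqT
  refine h (T := T) (m := M) (w := fun K => vert ((T K : Finset (ℤ × ℤ)) : Set (ℤ × ℤ)) τ)
    (k₁ := fun K => s K + 1) (r₁ := k) (r₃ := fun K => k K + (N₂ K - N₁ K)) (k₃ := t) (P := Pf)
    (m' := n) (w' := fun K => vert (inn D A (Z ∪ cf K)) A) (l₁ := N₁) (l₃ := N₂) (κ := κ₂)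
    (v := v) (E := E) (ρ := ρ) (Z := Z) (Zp := Zp)
    (Gd := runE (inn D A Z) A (rs a b L (inn D A Z) A (N₁ ∅) (N₂ ∅) r)
        (rs a b L (inn D A Z) A (N₁ ∅) (N₂ ∅) (r + 1))) (y₁ := y₁) (y₂ := y₂) hK h0
    (fun K hK' => hdom K hK' _ _ _ _ _ _ (hS K hK')) (fun K hK' => ?_) (fun ξ => ?_)
    (fun K hK' f hf => hUW ((hS K hK').TU H (Finset.mem_coe.2 hf))) hrec
  · have hSK := hS K hK'
    exact mvEvt_of' hS0.run hSK.run rfl (hdis K hK') (H.DP.trans H.app.sub) hS0.lay.toLayBar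
      hSK.lay.toLayBar (hS0.notY H) hZZp hZpU
      (fun f hf hfT => hZp0 f hf (eT0 ▸ Finset.mem_coe.2 hfT)) (hSK.notY H) (hmk K hK')
  · obtain ⟨i, hi1, hi2⟩ := hstop ξ
    exact ⟨i, hi1, fun hh => hi2 (eT0 ▸ Finset.mem_coe.2 hh)⟩

end Mv

end Pool.Agent.SixB
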