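import Pool.Agent.Lib.SixB.S8KerStop
import Pool.Agent.Lib.SixB.S8BlowR
import Pool.Agent.Lib.SixB.S8BlowM

/-!
# Step 8: the estimate for one move, coarse half

`kernel_fam_stop` for a coarse domain `s` with the grid `g`, magnified by `u`: the domain
`blow u (s.dom g)`, the barrier `blow u (s.bar g)`, the cells `blow u (fcs … K)`, the stop set
`blow u (s.P \ s.inr g)`, the run `r` (`Dom.runI`), and the coarse law `Dom.lawq`. The true side (the
true domain, its data `MvDom`, the existence of the stop, the meaning of the record) is given.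

* `Dom.RunK.runS_blow`, `blow_inn`, `coe_gK`, `mark_blow`, `runI_blow`: the magnified coarse functions;
* `move_est`: the estimate.
-/

set_option autoImplicit false

namespace Pool.Agent.SixB.Mv

open Finset Pool.Agent.Perc Pool.Agent.Perc6 Pool.Agent.PercT Pool.Agent.Perc6.C2Aux
open Pool.Agent.Perc.Tips Pool.Agent.SixB Pool.Agent.SixB.Top Pool.Agent.SixB.Blow
open Pool.Agent.SixB.CloK

namespace Dom.RunK

variable {s : Dom} {g : Grd} {m n u : ℕ} {K : Finset (ℤ × ℤ)}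

/-- The barrier is not in the inner domain. -/
theorem bar_notMem (h : s.RunK g m n) : ∀ f ∈ s.bar g, f ∉ s.inr g := fun _ hf hi =>
  (inn_sub h.run.tipm hi).2 hf

/-- The cells are in the inner domain, so they are not in the barrier. -/
theorem fcs_notMem : ∀ f ∈ Mv.fcs g.nm (s.inr g) K, f ∈ s.inr g := fun _ hf => hf.1

theorem blow_inn (h : s.RunK g m n) (hu : 0 < u) (hK : K ∈ s.fam g) :
    inn (blow u (s.dom g)) (subE u s.A 0) (blow u (s.yK g K)) = blow u (s.gK g K) :=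
  inn_blow hu (h.runS hK).tipm

theorem blow_inn' (h : s.RunK g m n) (hu : 0 < u) :
    inn (blow u (s.dom g)) (subE u s.A 0) (blow u (s.bar g)) = blow u (s.inr g) :=
  inn_blow hu h.run.tipm

/-- The magnified setting of the runs, for all removed sets. -/
theorem runS_blow (h : s.RunK g m n) (hu : 0 < u) (hc : Top.EConn (s.dom g)) (hK : K ∈ s.fam g) :
    RunS (u * g.a) (u * g.b) (u * g.L) (blow u (s.dom g)) (subE u s.A 0) (u * s.p g)
      (u * (s.q g + 1) - 1) (blow u (s.yK g K)) (u * m) (u * cyl (s.gK g K) s.A)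
      (u * s.n1 g K) (u * s.n2 g K) :=
  runS_blowR hu hc (h.runS hK)

theorem coe_gK (h : s.RunK g m n) (hu : 0 < u) (hK : K ∈ s.fam g) :
    (fsF (blow u (s.gK g K)) : Set (ℤ × ℤ)) = blow u (s.gK g K) :=
  coe_fsF (blow_finite (by exact_mod_cast hu) (h.runS hK).finG)

/-- The magnified marks. -/
theorem mark_blow (h : s.RunK g m n) (hu : 0 < u) (hK : K ∈ s.fam g) (r : ℕ) :
    RMark (blow u (s.inr g)) (blow u (s.gK g K)) (subE u s.A 0) (u * s.n1 g K) (u * s.n2 g K)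
      (u * s.runI g r) (u * s.runI g (r + 1)) (u * (s.rmk g K r).1) (u * (s.rmk g K r).2) :=
  rmark_blow hu h.run.bdG (h.runS hK).bdG (h.mark hK r)

/-- The magnified runs. -/
theorem runI_blow (h : s.RunK g m n) (hu : 0 < u) (r : ℕ) :
    rs (u * g.a) (u * g.b) (u * g.L) (blow u (s.inr g)) (subE u s.A 0) (u * s.n₁ g) (u * s.n₂ g) r =
      u * s.runI g r :=
  rs_blowR hu h.run.bdG r

end Dom.RunK

/-- **The estimate for one move.** -/
theorem move_est : ∃ C α : ℝ, 0 < C ∧ 0 < α ∧ ∀ {ι κt : Type} {s : Dom} {g : Grd} {m n u mU : ℕ}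
    {av : Cfg → ℤ × ℤ → Prop} {rn' : Cfg → ℕ} {Ξ : Cfg → Cfg} {R U : Set (ℤ × ℤ)}
    {κ : ℤ × ℤ → ι} {κ₂ : Finset (ℤ × ℤ) → ℤ × ℤ → κt} {d : ℤ} {τ : UE × Bool} {v : ℤ × ℤ}
    {E ρ : ℤ} {W : Finset (ℤ × ℤ)},
    s.RunK g m n → 0 < u → Top.EConn (s.dom g) →
    Mvd U (blow u s.P) (blow u (s.dom g)) κ d (subE u s.A 0) (u * m) (u * s.p g)
      (u * (s.q g + 1) - 1) →
    Cyc U τ mU →
    (∀ K ∈ s.fam g, ahead τ ∈ domT U (blow u (s.yK g K))
      (capK U κ (gR (blow u (s.dom g)) (subE u s.A 0) (blow u (s.yK g K)) (u * s.n1 g K)))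
      (capK U κ (gL (blow u (s.dom g)) (subE u s.A 0) (blow u (s.yK g K)) (u * s.n2 g K)))
      (subE u s.A 0)) →
    (∀ K ∈ s.fam g, ∀ T M s' t u' k, TSide U (blow u s.P) (blow u (s.dom g)) κ (u * g.a) (u * g.b)
      (u * g.L) (subE u s.A 0) τ (u * m) (u * s.p g) (u * (s.q g + 1) - 1) (blow u (s.yK g K)) T
      (u * cyl (s.gK g K) s.A) (u * s.n1 g K) (u * s.n2 g K) mU M s' t u' k →
      MvDom κt Ξ 0 R U τ.1 T M (vert (T : Set (ℤ × ℤ)) τ) (s' + 1) k
        (k + (u * s.n2 g K - u * s.n1 g K)) t (fsF (blow u (s.gK g K)))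
        (u * cyl (s.gK g K) s.A)
        (vert (inn (blow u (s.dom g)) (subE u s.A 0) (blow u (s.yK g K))) (subE u s.A 0))
        (u * s.n1 g K) (u * s.n2 g K) (κ₂ K) v E ρ) →
    (∀ ξ, ∃ i, fa (pth (Ξ ξ) τ.1 i) ∈ U ∧ fa (pth (Ξ ξ) τ.1 i) ∉
      domT U (blow u (s.bar g))
        (capK U κ (gR (blow u (s.dom g)) (subE u s.A 0) (blow u (s.bar g)) (u * s.n₁ g)))
        (capK U κ (gL (blow u (s.dom g)) (subE u s.A 0) (blow u (s.bar g)) (u * s.n₂ g)))
        (subE u s.A 0)) →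
    U ⊆ W →
    (∀ r : ℕ, ∀ K ∈ s.fam g, ∀ ξ, StopE τ.1 (blow u (s.P \ s.inr g))
      (runE (blow u (s.inr g)) (subE u s.A 0) (u * s.n₁ g) (u * s.n₂ g)) (Ξ ξ) →
      ((∀ i ∈ K, av (Ξ ξ) i) ∧ rn' (Ξ ξ) = r ↔ Ξ ξ ∈ MoveEv τ.1 (blow u (s.P \ s.inr g))
        (blow u (Mv.fcs g.nm (s.inr g) K))
        (runE (blow u (s.inr g)) (subE u s.A 0) (u * s.runI g r) (u * s.runI g (r + 1))))) →
    ∀ a : Rec, |pr W {ξ | RunRec (s.fam g) av rn' (Ξ ξ) = (s.kst g a, a.2)} - s.lawq g u a| ≤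
      2 ^ (s.fam g).card * (C * ((E : ℝ) / ρ) ^ α) := by
  classical
  obtain ⟨C, α, hC, hα, key⟩ := kernel_fam_stop
  refine ⟨C, α, hC, hα, ?_⟩
  intro ι κt s g m n u mU av rn' Ξ R U κ κ₂ d τ v E ρ W h hu hcD H hU htin hdom hstop hUW hrec a
  have h0 : (∅ : Finset (ℤ × ℤ)) ∈ s.fam g := Dom.empty_mem
  have hAD := h.run.tipm
  have hinr := h.blow_inn' hu
  have eN1 : u * s.n1 g ∅ = u * s.n₁ g := by rw [Dom.n1_empty]
  have eN2 : u * s.n2 g ∅ = u * s.n₂ g := by rw [Dom.n2_empty]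
  have hrun0 : RunS (u * g.a) (u * g.b) (u * g.L) (blow u (s.dom g)) (subE u s.A 0) (u * s.p g)
      (u * (s.q g + 1) - 1) (blow u (s.bar g)) (u * m) (u * cyl (s.gK g ∅) s.A)
      (u * s.n₁ g) (u * s.n₂ g) := by
    have := h.runS_blow hu hcD h0
    rwa [Dom.yK_empty, eN1, eN2] at this
  have hlt : ∀ K ∈ s.fam g, u * s.n2 g K < u * cyl (s.gK g K) s.A := fun K hK =>
    Nat.mul_lt_mul_of_pos_left (h.lt_cyl hK) hu
  have hlt0 : u * s.n₂ g < u * cyl (s.gK g ∅) s.A := by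
    have := hlt ∅ h0
    rwa [eN2] at this
  by_cases ha : s.kst g a ∈ s.fam g
  · have e1 : s.lawq g u a = Mob (s.fam g) (fun K =>
        Xmk 0 (fsF (blow u (s.gK g K)))
          (vert (inn (blow u (s.dom g)) (subE u s.A 0)
            (blow u (s.bar g) ∪ blow u (Mv.fcs g.nm (s.inr g) K))) (subE u s.A 0))
          (u * s.n1 g K) (u * s.n2 g K) (u * (s.rmk g K a.2).1) -
        Xmk 0 (fsF (blow u (s.gK g K)))
          (vert (inn (blow u (s.dom g)) (subE u s.A 0)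
            (blow u (s.bar g) ∪ blow u (Mv.fcs g.nm (s.inr g) K))) (subE u s.A 0))
          (u * s.n1 g K) (u * s.n2 g K) (u * (s.rmk g K a.2).2)) (s.kst g a) := by
      unfold Dom.lawq
      rw [if_pos ha]
      refine Mob_congr (fun K hK K' hK' => Dom.union_mem K K' hK hK') (fun K hK => ?_) ha
      have e2 := h.blow_inn hu hK
      unfold Dom.xval
      change _ = Xmk 0 _ (vert (inn (blow u (s.dom g)) (subE u s.A 0) (blow u (s.yK g K))) _) _ _ _ -
        Xmk 0 _ (vert (inn (blow u (s.dom g)) (subE u s.A 0) (blow u (s.yK g K))) _) _ _ _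
      rw [e2]
    rw [e1]
    refine key (cf := fun K => blow u (Mv.fcs g.nm (s.inr g) K)) (c := 0) (R := R) (U := U)
      (P := blow u s.P) (D := blow u (s.dom g)) (κ := κ) (κ₂ := κ₂) (d := d) (a := u * g.a)
      (b := u * g.b) (L := u * g.L) (A := subE u s.A 0) (τ := τ) (m := u * m) (p := u * s.p g)
      (q := u * (s.q g + 1) - 1) (mU := mU) (n := fun K => u * cyl (s.gK g K) s.A)
      (N₁ := fun K => u * s.n1 g K) (N₂ := fun K => u * s.n2 g K)
      (y₁ := fun K => u * (s.rmk g K a.2).1) (y₂ := fun K => u * (s.rmk g K a.2).2)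
      (Pf := fun K => fsF (blow u (s.gK g K))) (v := v) (E := E) (ρ := ρ)
      (Z := blow u (s.bar g)) (Zp := blow u (s.P \ s.inr g)) (W := W) (r' := a.2) (r := a.2)
      (fun K hK K' hK' => Dom.union_mem K K' hK hK') h0 H hU ?_ ?_
      (fun K hK => h.runS_blow hu hcD hK) hlt ?_ ?_ htin hdom ?_ ?_ ?_ ?_ hUW ?_ _ ha
    · rw [Mv.fcs_empty]
      rfl
    · intro K _ f hf hfb
      exact h.bar_notMem _ hfb (Dom.RunK.fcs_notMem (K := K) _ hf)
    · intro K hK
      exact (h.coe_gK hu hK).trans (h.blow_inn hu hK).symm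
    · intro K hK
      have e2 : inn (blow u (s.dom g)) (subE u s.A 0)
          (blow u (s.bar g) ∪ blow u (Mv.fcs g.nm (s.inr g) K)) = blow u (s.gK g K) :=
        h.blow_inn hu hK
      simp only [e2, hinr, eN1, eN2, h.runI_blow hu]
      exact h.mark_blow hu hK a.2
    · intro f hf
      exact ⟨H.DP (show f ∈ blow u (s.dom g) from h.run.att.sub hf), h.bar_notMem _ hf⟩
    · intro f hf
      exact H.app.sub (show f ∈ blow u s.P from hf.1)
    · intro f hf hfT
      rw [eN1, eN2] at hfT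
      have hcl := (H.closure hrun0.att hrun0.tip hrun0.con hlt0).1 f hfT
        (show f ∈ blow u s.P from hf.1)
      rw [hinr] at hcl
      exact hf.2 hcl
    · intro ξ
      rw [eN1, eN2]
      exact hstop ξ
    · intro K hK ξ hst
      rw [eN1, eN2, hinr] at hst
      simp only [hinr, eN1, eN2, h.runI_blow hu]
      exact hrec a.2 K hK ξ hst
  · have e1 : s.lawq g u a = 0 := by
      unfold Dom.lawq
      rw [if_neg ha]
    have e2 : {ξ | RunRec (s.fam g) av rn' (Ξ ξ) = (s.kst g a, a.2)} = ∅ := by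
      ext ξ
      simp only [Set.mem_ofPred_eq, Set.mem_empty_iff_false, iff_false]
      intro hh
      apply ha
      have := runRec_fst_mem (av := av) (rn := rn')
        (fun K hK K' hK' => Dom.union_mem K K' hK hK') h0 (Ξ ξ)
      rw [hh] at this
      exact this
    rw [e1, e2]
    have e3 : pr W (∅ : Set Cfg) = 0 := by simp [ProbA.pr_eq_sum]
    rw [e3, sub_zero, abs_zero]
    obtain ⟨T, M, s', t, u', k, hS⟩ := exists_tside H (h.runS_blow hu hcD h0) (hlt ∅ h0) hU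
      (htin ∅ h0)
    have hM := hdom ∅ h0 T M s' t u' k hS
    have hE := hM.hE
    have hρ : (0 : ℝ) < ρ := by exact_mod_cast (lt_of_lt_of_le hE hM.Eρ)
    have hE' : (0 : ℝ) < E := by exact_mod_cast hE
    positivity

end Pool.Agent.SixB.Mv
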