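import Pool.Agent.Lib.SixB.S8BlowR
import Pool.Agent.Lib.SixB.S8EscUp
import Pool.Agent.Lib.SixB.S8Uoc
import Pool.Agent.Lib.SixB.S8Close
import Pool.Agent.Lib.SixB.S8Expl

/-!
# Step 8: the data of a move from the truth

`CMv P D Z E a b L`: the coarse data of a move: `D` the domain of the move in `P`, `Z` the barrier, `E`
the entered set. Magnified by `u`, together with the faces `N` which are visited in the move, they are
data of a move in the sense of `S8App` (`CMv.reg`, `CMv.void`), with the whole rest `P \ V` as the new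
set and with the not visited faces of `U` as the new fresh set. Hence the rest is an approximation
(`App.rest_reg`, `App.rest_void`) and has no holes (`esc_rest_reg`). `MoveData.restrict`: parts of the
rest. `nP_of_stop`: the visited faces of `P` are in front of the barrier, from the closure lemma.
-/

set_option autoImplicit false

namespace Pool.Agent.SixB.Mv

open Pool.Agent.Perc Pool.Agent.Perc6 Pool.Agent.Perc6.C2Aux Pool.Agent.Perc.Tips
open Pool.Agent.SixB.Top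
open Pool.Agent.SixB.Blow (cl adj_cl exists_cl mem_blow)

variable {a b L d : ℤ} {u : ℕ} {U P D Z E N P' U' : Set (ℤ × ℤ)} {A : UE × Bool}
  {S : Finset (ℤ × ℤ)} {f g : ℤ × ℤ}

theorem chn_of_chI {X : Set (ℤ × ℤ)} (hf : f ∈ X) (h : ChI X f g) : Chn X f g :=
  ⟨hf, rtg_mono (fun _ _ hs => ⟨adj_iff_adjFL.2 hs.1, hs.2⟩) h⟩

/-- The coarse data of a move. -/
structure CMv (P D Z E : Set (ℤ × ℤ)) (a b L : ℤ) : Prop where
  DP : D ⊆ P
  exit : ∀ f ∈ D, ∀ h ∈ P, h ∉ D → AdjF f h → f ∈ Z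
  ZD : Z ⊆ D
  sat : Sat D (gc a b L) Z
  EZ : E ⊆ Z
  Ec : Top.EConn E
  Ed : ∀ x ∈ E, ∀ y ∈ E, |x.1 - y.1| < 2 * L ∧ |x.2 - y.2| < 2 * L

/-- Distances of magnified faces. -/
theorem abs_of_cl (hu : 0 < u) {x y k : ℤ} (h : |x / u - y / u| < k) : |x - y| < u * k := by
  have hu' : (0 : ℤ) < u := by exact_mod_cast hu
  have h1 := Int.mul_ediv_add_emod x u
  have h2 := Int.emod_nonneg x hu'.ne'
  have h3 := Int.emod_lt_of_pos x hu'
  have h4 := Int.mul_ediv_add_emod y u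
  have h5 := Int.emod_nonneg y hu'.ne'
  have h6 := Int.emod_lt_of_pos y hu'
  rw [abs_lt] at h ⊢
  constructor <;> nlinarith

namespace CMv

variable (C : CMv P D Z E a b L)

include C

omit C in
theorem cell_f (hu : 0 < u) (hL : 0 < L) : ∀ x y, gc (u * a) (u * b) (u * L) x =
    gc (u * a) (u * b) (u * L) y →
      Chn {z | gc (u * a) (u * b) (u * L) z = gc (u * a) (u * b) (u * L) x} x y := fun _ _ h =>
  gc_chn (by positivity) h

theorem exit_f (hu : 0 < u) : ∀ f ∈ blow u D, ∀ h ∈ blow u P, h ∉ blow u D → Adj f h →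
    f ∈ blow u Z := by
  intro f hf h hh hhD hfh
  have hu' : (0 : ℤ) < u := by exact_mod_cast hu
  rcases adj_cl hu' (adj_iff_adjFL.1 hfh) with h1 | h1
  · exact absurd (show cl u h ∈ D by rw [← h1]; exact hf) hhD
  · exact C.exit _ hf _ hh hhD h1

theorem sat_f (hu : 0 < u) : ∀ f ∈ blow u Z, ∀ g ∈ blow u D, Adj f g →
    gc (u * a) (u * b) (u * L) f = gc (u * a) (u * b) (u * L) g → g ∈ blow u Z := by
  intro f hf g hg hfg hc
  have hu' : (0 : ℤ) < u := by exact_mod_cast hu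
  rw [Blow.gc_cl hu, Blow.gc_cl hu] at hc
  rcases adj_cl hu' (adj_iff_adjFL.1 hfg) with h1 | h1
  · show cl u g ∈ Z
    rw [← h1]
    exact hf
  · exact C.sat _ hf _ hg h1 hc

theorem Ec_f (hu : 0 < u) : ∀ x ∈ blow u E, ∀ y ∈ blow u E, Chn (blow u E) x y :=
  fun x hx y hy => chn_of_chI hx (Blow.econn_blow (by exact_mod_cast hu) C.Ec x hx y hy)

theorem Ed_f (hu : 0 < u) : ∀ x ∈ blow u E, ∀ y ∈ blow u E,
    |x.1 - y.1| < 2 * (u * L) ∧ |x.2 - y.2| < 2 * (u * L) := by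
  intro x hx y hy
  obtain ⟨h1, h2⟩ := C.Ed _ hx _ hy
  rw [show 2 * ((u : ℤ) * L) = u * (2 * L) by ring]
  exact ⟨abs_of_cl hu h1, abs_of_cl hu h2⟩

/-- **The data of a regular move.** -/
theorem reg (hu : 0 < u) (hL : 0 < L) (hS : ∀ c, Full (gc a b L) (inn D A Z) c → c ∈ S)
    (hA : ahead A ∈ D \ Z) (hPU : blow u P ⊆ U)
    (hNP : ∀ f ∈ N, f ∈ blow u P → f ∈ blow u (inn D A Z))
    (hlast : ∃ y ∈ N, y ∈ blow u (inn D A Z) ∧ ∃ z ∈ blow u E, AdjF z y) :
    MoveData U (blow u P) (blow u D) (blow u Z) (blow u (inn D A Z))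
      (blow u (fcs (gc a b L) (inn D A Z) (kmx (gc a b L) (inn D A Z) Z S (cl u '' N)))) N
      (blow u E)
      (blow u (P \ ((inn D A Z \ fcs (gc a b L) (inn D A Z)
        (kmx (gc a b L) (inn D A Z) Z S (cl u '' N))) ∪ E)))
      (U \ N) (gc (u * a) (u * b) (u * L)) (u * L) := by
  have hu' : (0 : ℤ) < u := by exact_mod_cast hu
  have hGs : inn D A Z ⊆ D \ Z := compT_sub hA
  set K := kmx (gc a b L) (inn D A Z) Z S (cl u '' N) with hK
  have hat : AtK (gc a b L) (inn D A Z) Z K := kmx_atK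
  have hKN : ∀ f ∈ N, cl u f ∉ fcs (gc a b L) (inn D A Z) K := fun f hf hh =>
    fcs_kmx_disj hh ⟨f, hf, rfl⟩
  refine
    { cell := cell_f hu hL
      diam := fun x y h => gc_diam (by positivity) h
      DP := fun _ hf => C.DP hf
      exit := C.exit_f hu
      ZD := fun _ hf => C.ZD hf
      Zsat := C.sat_f hu
      DmD := fun _ hf => (hGs hf).1
      DmZ := fun _ hf hZ => (hGs hf).2 hZ
      DmCl := ?_
      KDm := fun _ hf => hf.1
      Ksat := ?_
      Kmax := ?_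
      KN := fun f hf hN => hKN f hN hf
      ZjZ := fun _ hf => C.EZ hf
      Zjcon := C.Ec_f hu
      Zjdiam := C.Ed_f hu
      Zjlast := ?_
      P'P := fun _ hf => hf.1
      P'V := fun f hf => ⟨fun h => hf.2 (Or.inl h), fun h => hf.2 (Or.inr h)⟩
      P'cl := fun f _ g hg _ h1 h2 => ⟨hg, fun h => h.elim h1 h2⟩
      P'U' := ?_
      U'U := fun _ h => h.1
      U'N := fun _ h => h.2 }
  · intro f hf g hg hgZ hfg
    rcases adj_cl hu' (adj_iff_adjFL.1 hfg) with h1 | h1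
    · show cl u g ∈ inn D A Z
      rw [← h1]
      exact hf
    · exact compT_step hf h1 ⟨hg, hgZ⟩
  · intro f hf g hfg
    rw [Blow.gc_cl hu, Blow.gc_cl hu] at hfg
    refine hat.mem_fcs.2 ?_
    change gc a b L (cl u g) ∈ K
    rw [hfg]
    exact hf.2
  · intro f hf hex
    obtain ⟨g, h, hg, hh, hgh⟩ := hex
    rw [Blow.gc_cl hu, Blow.gc_cl hu] at hg
    have hfull : Full (gc a b L) (inn D A Z) (gc a b L (cl u f)) := by
      intro y hy
      obtain ⟨x, rfl⟩ := exists_cl hu' y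
      exact (hf x (by rw [Blow.gc_cl hu, Blow.gc_cl hu]; exact hy)).1
    have hvis : ∀ y, gc a b L y = gc a b L (cl u f) → y ∉ cl u '' N := by
      rintro _ hy ⟨x, hx, rfl⟩
      exact (hf x (by rw [Blow.gc_cl hu, Blow.gc_cl hu]; exact hy)).2 hx
    have hgG : cl u g ∈ inn D A Z := hfull _ hg
    show cl u f ∈ fcs (gc a b L) (inn D A Z) K
    rcases adj_cl hu' (adj_iff_adjFL.1 hgh) with h1 | h1
    · rcases hh with hh | hh
      · have hh' : cl u h ∈ fcs (gc a b L) (inn D A Z) K := hh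
        refine hat.mem_fcs.2 ?_
        rw [← hg, h1]
        exact hh'.2
      · exact absurd (show cl u g ∈ Z by rw [h1]; exact hh) (hGs hgG).2
    · refine hat.mem_fcs.2 (mem_kmx (hS _ hfull) hfull hvis ?_)
      rcases hh with hh | hh
      · exact Or.inr ⟨_, hh.2, cl u g, cl u h, hg, rfl, h1⟩
      · exact Or.inl ⟨cl u g, cl u h, hh, hg, h1⟩
  · obtain ⟨y, hy, hyG, z, hz, hzy⟩ := hlast
    exact Or.inl ⟨y, hyG, hy, z, hz, adj_iff_adjFL.2 hzy⟩
  · intro f hf
    refine ⟨hPU hf.1, fun hN => hf.2 (Or.inl ⟨hNP f hN hf.1, hKN f hN⟩)⟩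

/-- **The data of a void move.** -/
theorem void (hu : 0 < u) (hL : 0 < L) (hPU : blow u P ⊆ U) (hA : ahead A ∈ E)
    (hAP : ahead (rv A) ∉ P) :
    MoveData U (blow u P) (blow u D) (blow u Z) ∅ ∅ ∅ (blow u E) (blow u (P \ E)) U
      (gc (u * a) (u * b) (u * L)) (u * L) := by
  have hu' : (0 : ℤ) < u := by exact_mod_cast hu
  refine
    { cell := cell_f hu hL
      diam := fun x y h => gc_diam (by positivity) h
      DP := fun _ hf => C.DP hf
      exit := C.exit_f hu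
      ZD := fun _ hf => C.ZD hf
      Zsat := C.sat_f hu
      DmD := fun _ hf => hf.elim
      DmZ := fun _ hf => hf.elim
      DmCl := fun _ hf => hf.elim
      KDm := fun _ hf => hf
      Ksat := fun _ hf => hf.elim
      Kmax := fun f hf _ => (hf f rfl).1.elim
      KN := fun _ hf => hf.elim
      ZjZ := fun _ hf => C.EZ hf
      Zjcon := C.Ec_f hu
      Zjdiam := C.Ed_f hu
      Zjlast := ?_
      P'P := fun _ hf => hf.1
      P'V := fun f hf => ⟨fun h => h.1.elim, fun h => hf.2 h⟩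
      P'cl := fun f _ g hg _ _ h2 => ⟨hg, h2⟩
      P'U' := fun _ hf => hPU hf.1
      U'U := fun _ h => h
      U'N := fun _ _ h => h }
  right
  refine ⟨ahead (rv (Blow.subE u A 0)), ?_, ahead (Blow.subE u A 0), ?_, ?_⟩
  · show ¬ cl u _ ∈ P
    rw [Blow.cl_ahead_rv hu' A le_rfl hu']
    exact hAP
  · show cl u _ ∈ E
    rw [Blow.cl_ahead hu' A le_rfl hu']
    exact hA
  · exact adj_iff_adjFL.2 (adjF_ahead _).symm

end CMv

/-! ### Parts of the rest -/

/-- A union of components of the new set. -/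
theorem MoveData.restrict {γ : Type*} {Dm K E' P'' U'' : Set (ℤ × ℤ)} {c : ℤ × ℤ → γ} {d' : ℤ}
    (M : MoveData U P D Z Dm K N E' P' U' c d') (hP : Uoc P'' P') (hPU : P'' ⊆ U'') (hU : U'' ⊆ U') :
    MoveData U P D Z Dm K N E' P'' U'' c d' :=
  { cell := M.cell
    diam := M.diam
    DP := M.DP
    exit := M.exit
    ZD := M.ZD
    Zsat := M.Zsat
    DmD := M.DmD
    DmZ := M.DmZ
    DmCl := M.DmCl
    KDm := M.KDm
    Ksat := M.Ksat
    Kmax := M.Kmax
    KN := M.KN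
    ZjZ := M.ZjZ
    Zjcon := M.Zjcon
    Zjdiam := M.Zjdiam
    Zjlast := M.Zjlast
    P'P := fun _ hf => M.P'P (hP.sub hf)
    P'V := fun f hf => M.P'V f (hP.sub hf)
    P'cl := fun f hf g hg hfg h1 h2 =>
      hP.clo f hf g (M.P'cl f (hP.sub hf) g hg hfg h1 h2) (adj_iff_adjFL.1 hfg)
    P'U' := hPU
    U'U := fun _ h => M.U'U (hU h)
    U'N := fun f h => M.U'N f (hU h) }

/-- The approximation of a part. -/
theorem _root_.Pool.Agent.SixB.App.part {ι : Type*} {κ : ℤ × ℤ → ι} (h : App U P κ d)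
    (hP : Uoc P' P) (hPU : P' ⊆ U') (hU : U' ⊆ U) : App U' P' κ d := by
  refine ⟨hPU, ?_, h.cell, h.diam, ?_⟩
  · intro x y hxy hx
    have h1 : ChI P x y := by
      refine ChI.mono (fun z hz => ?_) (chn_chI (h.cell x y hxy))
      exact h.sat x z (Eq.symm hz) (hP.sub hx)
    exact hP.mem hx h1
  · intro f hf g hfg hg
    have hgP : g ∉ P := fun hgP => hg (hP.clo f hf g hgP (adj_iff_adjFL.1 hfg))
    obtain ⟨x, hx, hxU⟩ := h.out f (hP.sub hf) g hfg hgP
    exact ⟨x, hx, fun hh => hxU (hU hh)⟩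

/-! ### The visited faces -/

/-- **The visited faces of `P` are in front of the barrier**: the strand stays in `T` or outside `U`. -/
theorem nP_of_stop {T cR cL : Set (ℤ × ℤ)} {k₁ k₃ m : ℕ} (H : Clo U P D T A k₁ k₃ m cR cL)
    (hN : ∀ f ∈ N, f ∈ U → f ∈ T) : ∀ f ∈ N, f ∈ P → f ∈ D := fun f hf hfP =>
  H.inter (hN f hf (H.PU hfP)) hfP

/-- The visited faces are joined to the face behind the first edge. -/
theorem vs_out {ω : Cfg} {e : UE} {σ : ℕ} (h0 : fb e ∉ P) {f : ℤ × ℤ}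
    (hf : f ∈ (vs ω e 0 σ : Set (ℤ × ℤ))) :
    ∃ x, x ∉ P ∧ ChI ((vs ω e 0 σ : Set (ℤ × ℤ)) ∪ Pᶜ) f x := by
  obtain ⟨i, -, hi, rfl⟩ := mem_vs.1 (Finset.mem_coe.1 hf)
  refine ⟨fb e, h0, ?_⟩
  have key : ∀ i, i < σ → ChI ((vs ω e 0 σ : Set (ℤ × ℤ)) ∪ Pᶜ) (fa (pth ω e i)) (fb e) := by
    intro i
    induction i with
    | zero =>
      intro _
      exact ChI.single ⟨fa_ne_fb _, _, isSide_fa _, isSide_fb _⟩ (Or.inr h0)
    | succ i ih =>
      intro hi
      refine (ChI.single ⟨?_, pth ω e (i + 1), isSide_fa _, ?_⟩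
        (Or.inl (Finset.mem_coe.2 (fa_mem_vs (Nat.zero_le _) (by omega))))).trans (ih (by omega))
      · rw [← fb_pth_succ ω e i]
        exact fa_ne_fb _
      · rw [← fb_pth_succ ω e i]
        exact isSide_fb _
  exact key i hi

/-! ### The rest has no holes -/

/-- **The rest after a move has no holes.** -/
theorem esc_rest {γ : Type*} {Dm K E' : Set (ℤ × ℤ)} {X : Set (ℤ × ℤ)} {c : ℤ × ℤ → γ} {d' : ℤ}
    {ω : Cfg} {e : UE} {σ : ℕ} (hu : 0 < u)
    (M : MoveData U (blow u P) D Z Dm K (vs ω e 0 σ : Set (ℤ × ℤ)) E' (blow u X) U' c d')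
    (hP : P.Finite) (he : Esc P) (h0 : fb e ∉ blow u P) : Esc X := by
  have hu' : (0 : ℤ) < u := by exact_mod_cast hu
  exact esc_of_blow hu' (M.esc (Blow.blow_finite hu' hP) (he.blow hu') fun f hf _ => vs_out h0 hf)

/-- The rest after a void move has no holes. -/
theorem esc_rest_void {γ : Type*} {Dm K E' : Set (ℤ × ℤ)} {X : Set (ℤ × ℤ)} {c : ℤ × ℤ → γ} {d' : ℤ}
    (hu : 0 < u) (M : MoveData U (blow u P) D Z Dm K ∅ E' (blow u X) U' c d')
    (hP : P.Finite) (he : Esc P) : Esc X := by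
  have hu' : (0 : ℤ) < u := by exact_mod_cast hu
  exact esc_of_blow hu' (M.esc (Blow.blow_finite hu' hP) (he.blow hu') fun f hf _ => hf.elim)

end Pool.Agent.SixB.Mv
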