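import Pool.Agent.Lib.SixB.S8HDc
import Pool.Agent.Lib.SixB.S8MoveC
import Pool.Agent.Lib.SixB.S8GridPos

/-!
# Step 8: gates and distances of one move

* `no_gate`: at a vertex of the stop arc which is far from the tip and at which there is no gate of the
  strand (`Ex.Gate`), there is no gate between the two arcs of the contour of the domain of the move;
* `TSide.far`, `TSide.far'`, `TSide.ne0`, `TSide.ne3`, `TSide.gate`: the fields of the same names of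
  `MvDom`, from the grid in general position (`OffL`).
-/

set_option autoImplicit false

namespace Pool.Agent.SixB.S8HDc

open Finset Pool.Agent.Perc Pool.Agent.Perc6 Pool.Agent.PercT LC S8HD
open NearCut (SU Pth)

variable {E : Ex} {ω : Cfg} {t m : ℕ} {c : ℤ} {T : Finset (ℤ × ℤ)} {w : ℕ → ℤ × ℤ}

/-- A vertex of the right wall or of the right cap, not at the tip, is joined to the right side of the
strand. -/
theorem right_arc (he : fb (E.e ω) ∉ E.U ω) {k₁ r₁ : ℕ}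
    (hT : Ctr (T : Set (ℤ × ℤ)) m w) (hTF : (T : Set (ℤ × ℤ)) ⊆ E.Fr ω t) (h1 : 1 ≤ k₁)
    (hrm : r₁ ≤ m) (hk : k₁ ≤ m)
    (tip : Joins (E.p ω t) (w 0) (w 1)) (parc : par (w 1) = c)
    (hwb : ∀ y, 1 ≤ y → y ≤ k₁ → par (w y) = c → E.Sid c ω t (w y)) {δ : ℤ}
    (hδ : 0 ≤ δ) (hcR : ∀ i, k₁ ≤ i → i ≤ r₁ → LC.InB (w r₁) δ (w i)) {i : ℕ} (hi : i ≤ r₁)
    (hfi : ¬ LC.InB (w 1) (2 * δ + 3) (w i)) :
    ∃ p ∈ {v | E.Sid c ω t v}, Pth ({e | ∀ l ≤ t, E.p ω l ≠ e} ∩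
      {e | LC.InB (w i) (2 * δ + 1) (ua e) ∧ LC.InB (w i) (2 * δ + 1) (ub e)}) (w i) p := by
  have hi2 : 2 ≤ i := by
    by_contra hlt
    refine hfi ?_
    have h4 := joins_near tip
    rcases (by omega : i = 0 ∨ i = 1) with rfl | rfl
    · unfold LC.InB at *
      omega
    · unfold LC.InB
      omega
  obtain ⟨j, hj1, hj2, hj3, hjb⟩ : ∃ j, 1 ≤ j ∧ j ≤ k₁ ∧ j ≤ i ∧
      ∀ l, j ≤ l → l ≤ i → LC.InB (w i) (2 * δ) (w l) := by
    rcases le_total i k₁ with h | h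
    · refine ⟨i, by omega, h, le_rfl, fun l h4 h5 => ?_⟩
      have : l = i := by omega
      subst this
      unfold LC.InB
      omega
    · refine ⟨k₁, h1, le_rfl, h, fun l h4 h5 => ?_⟩
      have h6 := hcR l h4 (by omega)
      have h7 := hcR i h (by omega)
      unfold LC.InB at *
      omega
  obtain ⟨j', hj4, hj5, hj6, hj7⟩ : ∃ j', 1 ≤ j' ∧ j' ≤ j ∧ j ≤ j' + 1 ∧ par (w j') = c := by
    by_cases hp : par (w j) = c
    · exact ⟨j, hj1, le_rfl, by omega, hp⟩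
    · have hj : 2 ≤ j := by
        by_contra hlt
        have : j = 1 := by omega
        subst this
        exact hp parc
      refine ⟨j - 1, by omega, by omega, by omega, ?_⟩
      have h4 := par_ne_succ hT (i := j - 1) (by omega)
      have h5 := par_cases (w (j - 1))
      have h6 := par_cases (w j)
      have h7 := par_cases (w 1)
      rw [show j - 1 + 1 = j by omega] at h4
      omega
  refine ⟨w j', hwb j' hj4 (by omega) hj7, to_uncrossed he hTF tip (by omega) hfi ?_⟩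
  refine (contour_pth hT (by omega) (by omega) fun l h4 h5 => ?_).symm
  rcases Nat.lt_or_ge l j with h6 | h6
  · have : l = j' := by omega
    subst this
    have h7 := hjb j le_rfl hj3
    obtain ⟨e, -, hje⟩ := hT.step l (by omega)
    have h8 := joins_near hje
    rw [show l + 1 = j by omega] at h8
    unfold LC.InB at *
    omega
  · have h7 := hjb l h6 h5
    unfold LC.InB at *
    omega

/-- A vertex of the left wall or of the left cap, not at the tip, is joined to the left side of the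
strand. -/
theorem left_arc (hc : c = 0 ∨ c = 1) (he : fb (E.e ω) ∉ E.U ω) {r₃ k₃ : ℕ}
    (hT : Ctr (T : Set (ℤ × ℤ)) m w) (hTF : (T : Set (ℤ × ℤ)) ⊆ E.Fr ω t) (hm : 1 ≤ m)
    (h3 : k₃ ≤ m) (tip : Joins (E.p ω t) (w 0) (w 1)) (parc : par (w 1) = c)
    (hwl : ∀ y, k₃ ≤ y → y ≤ m → par (w y) = 1 - c → E.Sid (1 - c) ω t (w y)) {δ : ℤ}
    (hδ : 0 ≤ δ) (hcL : ∀ i, r₃ ≤ i → i ≤ k₃ → LC.InB (w r₃) δ (w i)) {i : ℕ} (hi : r₃ ≤ i)
    (hi' : i ≤ m) (hfi : ¬ LC.InB (w 1) (2 * δ + 3) (w i)) :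
    ∃ q ∈ {v | E.Sid (1 - c) ω t v}, Pth ({e | ∀ l ≤ t, E.p ω l ≠ e} ∩
      {e | LC.InB (w i) (2 * δ + 1) (ua e) ∧ LC.InB (w i) (2 * δ + 1) (ub e)}) (w i) q := by
  obtain ⟨j, hj1, hj2, hj3, hjb⟩ : ∃ j, k₃ ≤ j ∧ j ≤ m ∧ i ≤ j ∧
      ∀ l, i ≤ l → l ≤ j → LC.InB (w i) (2 * δ) (w l) := by
    rcases le_total k₃ i with h | h
    · refine ⟨i, h, by omega, le_rfl, fun l h4 h5 => ?_⟩
      have : l = i := by omega
      subst this
      unfold LC.InB
      omega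
    · refine ⟨k₃, le_rfl, h3, h, fun l h4 h5 => ?_⟩
      have h6 := hcL l (by omega) h5
      have h7 := hcL i hi h
      unfold LC.InB at *
      omega
  obtain ⟨j', hj4, hj5, hj6, hj7⟩ : ∃ j', j ≤ j' ∧ j' ≤ m ∧ j' ≤ j + 1 ∧ par (w j') = 1 - c := by
    by_cases hp : par (w j) = c
    · have hj : j ≠ m := by
        rintro rfl
        rw [hT.close] at hp
        have h4 := par_ne_succ hT (i := 0) (by omega)
        rw [Nat.zero_add, hp, parc] at h4
        exact h4 rfl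
      refine ⟨j + 1, by omega, by omega, le_rfl, ?_⟩
      have h4 := par_ne_succ hT (i := j) (by omega)
      have h5 := par_cases (w (j + 1))
      have h6 := par_cases (w j)
      omega
    · have h6 := par_cases (w j)
      exact ⟨j, le_rfl, hj2, by omega, by omega⟩
  refine ⟨w j', hwl j' (by omega) hj5 hj7, to_uncrossed he hTF tip (by omega) hfi ?_⟩
  refine contour_pth hT (by omega) hj5 fun l h4 h5 => ?_
  rcases Nat.lt_or_ge j l with h6 | h6
  · have : l = j + 1 := by omega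
    subst this
    have h7 := hjb j hj3 le_rfl
    obtain ⟨e, -, hje⟩ := hT.step j (by omega)
    have h8 := joins_near hje
    unfold LC.InB at *
    omega
  · have h7 := hjb l h4 h6
    unfold LC.InB at *
    omega

/-- **No gate of the strand, no gate of the contour**, at the vertex `w l` of the barrier. -/
theorem no_gate (hc : c = 0 ∨ c = 1) (he : fb (E.e ω) ∉ E.U ω) {k₁ r₁ r₃ k₃ : ℕ}
    (hT : Ctr (T : Set (ℤ × ℤ)) m w) (hTF : (T : Set (ℤ × ℤ)) ⊆ E.Fr ω t) (h1 : 1 ≤ k₁)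
    (hr1 : k₁ ≤ r₁) (hr : r₁ ≤ r₃) (hr3 : r₃ ≤ k₃) (h3 : k₃ ≤ m)
    (tip : Joins (E.p ω t) (w 0) (w 1)) (parc : par (w 1) = c)
    (hwb : ∀ y, 1 ≤ y → y ≤ k₁ → par (w y) = c → E.Sid c ω t (w y))
    (hwl : ∀ y, k₃ ≤ y → y ≤ m → par (w y) = 1 - c → E.Sid (1 - c) ω t (w y)) {δ D R : ℤ}
    (hδ : 0 ≤ δ) (hcR : ∀ i, k₁ ≤ i → i ≤ r₁ → LC.InB (w r₁) δ (w i))
    (hcL : ∀ i, r₃ ≤ i → i ≤ k₃ → LC.InB (w r₃) δ (w i)) {l : ℕ}
    (hfar : ¬ LC.InB (w 1) D (w l)) (hD : R + 2 * δ + 3 ≤ D)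
    (hno : ¬ E.Gate ω t (w l) (R + 2 * δ + 1)) :
    ¬ Gate (T : Set (ℤ × ℤ)) (av w 0 r₁) (av w r₃ m) (w l) R := by
  intro hg
  obtain ⟨a, ⟨i, -, hi, rfl⟩, b, ⟨j, hj, hj', rfl⟩, ha, hb, hp⟩ := gate_pth hg
  have hfi : ∀ v, LC.InB (w l) R v → ¬ LC.InB (w 1) (2 * δ + 3) v := by
    intro v h4 h5
    apply hfar
    unfold LC.InB at *
    omega
  obtain ⟨p, hpS, hp1⟩ := right_arc he hT hTF h1 (by omega) (by omega) tip parc hwb hδ hcR hi
    (hfi _ ha)
  obtain ⟨q, hqS, hq1⟩ := left_arc hc he hT hTF (by omega) h3 tip parc hwl hδ hcL hj hj' (hfi _ hb)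
  set Eu : Set UE := {a | SixB.InB (w l) (R + 2 * δ + 1) a ∧ ∀ l ≤ t, E.p ω l ≠ a} with hEu
  have hbox : ∀ v, LC.InB (w l) R v → {e | ∀ l ≤ t, E.p ω l ≠ e} ∩
      {e | LC.InB v (2 * δ + 1) (ua e) ∧ LC.InB v (2 * δ + 1) (ub e)} ⊆ Eu := by
    rintro v hv e ⟨h6, h7, -⟩
    refine ⟨?_, h6⟩
    unfold SixB.InB InR
    unfold LC.InB at hv h7
    omega
  have hmid : SU ((T : Set (ℤ × ℤ)) ∩ RFb (w l) R) ⊆ Eu := by
    rintro e ⟨f, hf, hs⟩
    have h4 := inB_of_side (mem_coe.1 hf.2) hs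
    refine ⟨?_, fun n hn => ?_⟩
    · have h5 := h4.1
      unfold SixB.InB InR
      unfold LC.InB at h5
      omega
    · refine uncrossed he hTF tip ⟨f, hf.1, hs⟩ (fun h6 => hfi _ h4.1 ?_) hn
      unfold LC.InB at h6 ⊢
      omega
  have hall : Pth Eu p q :=
    ((hp1.mono (hbox _ ha)).symm.trans (hp.mono hmid)).trans (hq1.mono (hbox _ hb))
  refine hno ?_
  rcases hc with rfl | rfl
  · exact ⟨p, q, hpS, hqS, hall⟩
  · exact ⟨q, p, hqS, hpS, hall.symm⟩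

end Pool.Agent.SixB.S8HDc

namespace Pool.Agent.SixB.Mv

open Finset Pool.Agent.Perc Pool.Agent.Perc6 Pool.Agent.Perc6.C2Aux Pool.Agent.Perc.Tips
open Pool.Agent.SixB.Top CloK

/-! ### Distances -/

theorem not_inB_of_far {v w : ℤ × ℤ} {r s : ℤ} (h : r ≤ |w.1 - v.1| ∨ r ≤ |w.2 - v.2|)
    (hs : s < r) : ¬ LC.InB v s w := by
  intro hin
  unfold LC.InB at hin
  rcases h with h | h
  · have : |w.1 - v.1| ≤ s := abs_le.2 ⟨by linarith [hin.1], by linarith [hin.2.1]⟩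
    omega
  · have : |w.2 - v.2| ≤ s := abs_le.2 ⟨by linarith [hin.2.2.1], by linarith [hin.2.2.2]⟩
    omega

section Run

variable {a b L : ℤ} {D : Set (ℤ × ℤ)} {A : UE × Bool} {m p q : ℕ} {Y : Set (ℤ × ℤ)}
  {n N₁ N₂ : ℕ}

/-- The vertices of the stop arc are far from the point `v` (in general position). -/
theorem RunS.far_vert (h : RunS a b L D A p q Y m n N₁ N₂) {v : ℤ × ℤ} {r : ℤ}
    (hv : OffL a b L r v) {i : ℕ} (h1 : N₁ ≤ i) (h2 : i ≤ N₂) :
    r ≤ |(vert (inn D A Y) A i).1 - v.1| ∨ r ≤ |(vert (inn D A Y) A i).2 - v.2| := by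
  have hlt := h.con.lt
  rcases Nat.lt_or_ge i N₂ with h3 | h3
  · exact far_stop h.hL hv h.att.sub h.sat h.cyc.bd h.tip (h.con.mid i h1 h3) (Or.inl rfl)
  · have h4 : i = (N₂ - 1) + 1 := by omega
    rw [h4]
    exact far_stop h.hL hv h.att.sub h.sat h.cyc.bd h.tip (h.con.mid (N₂ - 1) (by omega) (by omega))
      (Or.inr rfl)

/-- The field `far'` of `MvDom`. -/
theorem RunS.far' (h : RunS a b L D A p q Y m n N₁ N₂) {v : ℤ × ℤ} {r s : ℤ}
    (hv : OffL a b L r v) (hs : s < r) : ∀ i, N₁ ≤ i → i < N₂ →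
    ∀ e, Joins e (vert (inn D A Y) A i) (vert (inn D A Y) A (i + 1)) → ¬ LC.InB v s (ua e) := by
  intro i h1 h2 e he
  rcases he with ⟨h3, h4⟩ | ⟨h3, h4⟩
  · rw [← h3]
    exact not_inB_of_far (h.far_vert hv h1 h2.le) hs
  · rw [← h4]
    exact not_inB_of_far (h.far_vert hv (by omega) h2) hs

/-- The field `ne0` of `MvDom`. -/
theorem RunS.ne0 (h : RunS a b L D A p q Y m n N₁ N₂) {v : ℤ × ℤ} {r s : ℤ}
    (hv : OffL a b L r v) (hs : s + 1 < r) : ∃ i < N₁, ∀ e,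
    Joins e (vert (inn D A Y) A i) (vert (inn D A Y) A (i + 1)) → ¬ LC.InB v s (ua e) := by
  have hpos := h.con.pos
  have hlt := h.con.lt
  refine ⟨N₁ - 1, by omega, fun e he hin => ?_⟩
  rw [show N₁ - 1 + 1 = N₁ by omega] at he
  have h1 := not_inB_of_far (h.far_vert hv (i := N₁) le_rfl (by omega)) hs
  apply h1
  have h2 := LC.joins_near he
  unfold LC.InB at *
  rcases he with ⟨h3, h4⟩ | ⟨h3, h4⟩
  · rw [← h3] at hin
    omega
  · rw [← h4] at hin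
    omega

/-- The field `ne3` of `MvDom`. -/
theorem RunS.ne3 (h : RunS a b L D A p q Y m n N₁ N₂) (hN : N₂ < n) {v : ℤ × ℤ} {r s : ℤ}
    (hv : OffL a b L r v) (hs : s + 1 < r) : ∃ i, N₂ ≤ i ∧ i < n ∧ ∀ e,
    Joins e (vert (inn D A Y) A i) (vert (inn D A Y) A (i + 1)) → ¬ LC.InB v s (ua e) := by
  have hlt := h.con.lt
  refine ⟨N₂, le_rfl, hN, fun e he hin => ?_⟩
  have h1 := not_inB_of_far (h.far_vert hv (i := N₂) (by omega) le_rfl) hs
  apply h1
  have h2 := LC.joins_near he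
  unfold LC.InB at *
  rcases he with ⟨h3, h4⟩ | ⟨h3, h4⟩
  · rw [← h3] at hin
    omega
  · rw [← h4] at hin
    omega

end Run

namespace TSide

variable {ι : Type*} {U P D : Set (ℤ × ℤ)} {κ : ℤ × ℤ → ι} {d a b L : ℤ}
  {A τ : UE × Bool} {m p q : ℕ} {Y : Set (ℤ × ℤ)} {T : Finset (ℤ × ℤ)}
  {n N₁ N₂ mU M s t u K : ℕ} (S : TSide U P D κ a b L A τ m p q Y T n N₁ N₂ mU M s t u K)

include S

/-- The vertices of the stop arc of the true domain. -/
theorem vert_stop {i : ℕ} (h1 : K ≤ i) (h2 : i ≤ K + (N₂ - N₁)) :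
    vert (T : Set (ℤ × ℤ)) τ i = vert (inn D A Y) A (N₁ + (i - K)) := by
  have := S.lay.vert_arc (i := i - K) (by omega)
  rwa [show K + (i - K) = i by omega] at this

/-- The field `far` of `MvDom`. -/
theorem far {v : ℤ × ℤ} {r R : ℤ} (hv : OffL a b L r v) (hR : R < r) : ∀ i, K ≤ i →
    i ≤ K + (N₂ - N₁) → ¬ LC.InB v R (vert (T : Set (ℤ × ℤ)) τ i) := by
  intro i h1 h2
  have hlt := S.run.con.lt
  rw [S.vert_stop h1 h2]
  exact not_inB_of_far (S.run.far_vert hv (by omega) (by omega)) hR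

variable (H : Mvd U P D κ d A m p q)

include H

/-- **The field `gate` of `MvDom`**: `X` is the exploration, `t₀` the time, `kt` the number of the first
side of the left wall of `U`; the true tip is in the box of radius `σ` around `v`; no gate of the strand
at the vertices of the stop arc. -/
theorem gate {X : Ex} {ω : Cfg} {t₀ kt : ℕ} {c : ℤ} (hc : c = 0 ∨ c = 1)
    (he : fb (X.e ω) ∉ X.U ω) (hUF : U ⊆ X.Fr ω t₀) (tip : X.p ω t₀ = τ.1) (hpc : par (rg τ) = c)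
    (hk1 : s + 1 ≤ kt) (hk3 : kt ≤ u)
    (hwb : ∀ v, 1 ≤ v → v ≤ kt → par (vert U τ v) = c → X.Sid c ω t₀ (vert U τ v))
    (hwl : ∀ v, kt ≤ v → v ≤ mU → par (vert U τ v) = 1 - c → X.Sid (1 - c) ω t₀ (vert U τ v))
    {v : ℤ × ℤ} {r σ δ R : ℤ} (hv : OffL a b L r v) (hvt : LC.InB v σ (rg τ)) (hδ : 0 ≤ δ)
    (hdδ : d ≤ δ) (hr : R + 2 * δ + 3 + σ < r)
    (hno : ∀ i, N₁ ≤ i → i ≤ N₂ → ¬ X.Gate ω t₀ (vert (inn D A Y) A i) (R + 2 * δ + 1)) :
    ∀ i, K ≤ i → i ≤ K + (N₂ - N₁) →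
      ¬ LC.Gate (T : Set (ℤ × ℤ)) (LC.av (vert (T : Set (ℤ × ℤ)) τ) 0 K)
        (LC.av (vert (T : Set (ℤ × ℤ)) τ) (K + (N₂ - N₁)) M) (vert (T : Set (ℤ × ℤ)) τ i) R := by
  intro l hl hl'
  have hlay := S.lay
  have hsK := hlay.sK
  have hKt := hlay.Kt
  have hst := hlay.st
  have hle := hlay.le
  have hlen := hlay.len
  have hN := S.run.con.lt
  have hv1 : vert (T : Set (ℤ × ℤ)) τ 1 = rg τ := by
    rw [show (1 : ℕ) = 0 + 1 from rfl, vert_succ]
    rfl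
  have hTU := S.TU H
  refine S8HDc.no_gate (E := X) (ω := ω) (t := t₀) (c := c) (k₁ := s + 1) (k₃ := t) (δ := δ)
    (D := R + 2 * δ + 3) hc he S.cyc.ctr (hTU.trans hUF) (by omega) (by omega) (by omega) hKt hle
    ?_ ?_ ?_ ?_ hδ (fun i h1 h2 => ?_) (fun i h1 h2 => ?_) ?_ le_rfl ?_
  · rw [tip]
    exact joins_side 0
  · rw [hv1]
    exact hpc
  · intro y h1 h2 hp
    have e : vert (T : Set (ℤ × ℤ)) τ y = vert U τ y := hlay.vert_fst (by omega)
    rw [e] at hp ⊢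
    exact hwb y h1 (by omega) hp
  · intro y h1 h2 hp
    have e : vert (T : Set (ℤ × ℤ)) τ y = vert U τ (u + (y - t)) := by
      have := hlay.vert_lst (j := y - t) (by omega)
      rwa [show t + (y - t) = y by omega] at this
    rw [e] at hp ⊢
    exact hwl _ (by omega) (by omega) hp
  · exact near_capR S H hdδ i h1 h2
  · exact near_capL S H hdδ i h1 h2
  · rw [hv1]
    intro hin
    have h1 := S.far hv (R := R + 2 * δ + 3 + σ) hr l hl hl'
    apply h1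
    unfold LC.InB at hin hvt ⊢
    omega
  · rw [S.vert_stop hl hl']
    exact hno _ (by omega) (by omega)

end TSide

end Pool.Agent.SixB.Mv
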