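import Pool.Agent.Lib.SixB.S8End
import Pool.Agent.Lib.SixB.S8InvSn
import Pool.Agent.Lib.SixB.S8GateS

/-!
# Step 8: the clearance needle of a running stage

* `NdS d n k V q D`: the needle `q` is a clearance needle (`StartA.Ndl`) in the remaining set `V`, its data
  at the base are at most `k`, and the face of the coarse target side is in the component of its target.
  It depends only on `V`, `q` and `D.B`, which are constant in a step;
* `ndS_of_ent`, `ndS_of_app`, `ndS_of_stT`, `StIn.ndS`: it holds when the needle is placed; `ndS_all`: at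
  all the running stages;
* `NdS.near_ini`: the strand before the entrance, `NdS.near_end`: the strand after the last move are near
  the first unit edge, if the event `BaseEv` does not happen.
-/

set_option autoImplicit false

namespace Pool.Agent.SixB.Tru

open Finset Pool.Agent.Perc Pool.Agent.Perc6 Pool.Agent.PercT Pool.Agent.Perc6.C2Aux
open Pool.Agent.Perc.Tips Pool.Agent.PercU Pool.Agent.PercX60
open Pool.Agent.SixB Pool.Agent.SixB.Top Pool.Agent.SixB.Mv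
open Pool.Agent.SixB.Rule Pool.Agent.SixB.Dct
open Pool.Agent.SixB.Blow (subE)

/-- The data of the clearance needle of a running stage. -/
def NdS (d : ℕ → ℕ) (n : ℕ) (k : ℤ) (V : Finset (ℤ × ℤ)) (q : Rule.Ndl) (D : Dom) : Prop :=
  ∃ (P : Set (ℤ × ℤ)) (y a z : ℤ × ℤ) (r l c e : ℤ), StartA.Ndl P (QF q.1) y a z r l c e ∧
    P ⊆ FU V ∧ e < r ∧ 2 * e + c + 2 ≤ k ∧ LC.InB y k (ua (eS V q)) ∧
    ahead (subE (unt d n) D.B 0) ∈ compT (FU V \ QF q.1) z

section basic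

variable {d : ℕ → ℕ} {n : ℕ} {k k' : ℤ} {V : Finset (ℤ × ℤ)} {q : Rule.Ndl} {D D' : Dom}

theorem NdS.mono (h : NdS d n k V q D) (hk : k ≤ k') : NdS d n k' V q D := by
  obtain ⟨P, y, a, z, r, l, c, e, h1, h2, h3, h4, h5, h6⟩ := h
  refine ⟨P, y, a, z, r, l, c, e, h1, h2, h3, h4.trans hk, ?_, h6⟩
  unfold LC.InB at h5 ⊢
  omega

theorem NdS.congr (h : NdS d n k V q D) (hB : D'.B = D.B) : NdS d n k V q D' := by
  unfold NdS at h ⊢
  rw [hB]
  exact h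

/-- **Before the entrance** the strand is near the first unit edge. -/
theorem NdS.near_ini (h : NdS d n k V q D) {ω : Cfg} {ρ R : ℤ}
    (hB : ¬ BaseE.BaseEv (exS V q) ω (ua (eS V q)) ρ R) (hk : 2 * k + 5 ≤ ρ) (hρ : ρ ≤ R) :
    ∀ t ≤ staT n (unt d n) V q D.B ω, InB (ua (eS V q)) R (pS V q ω t) := by
  obtain ⟨P, y, a, z, r, l, c, e, h1, h2, h3, h4, h5, h6⟩ := h
  have hk0 : 0 ≤ k := by
    unfold LC.InB at h5
    omega
  refine Dsp.disp_ini (ρ := ρ - 3) h1 h2 le_rfl h3 h4 h5 hk0 (by omega) (by omega) h6 fun h7 => ?_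
  rw [show ρ - 3 + 4 = ρ + 1 by ring] at h7
  exact hB (Or.inr (Or.inl h7))

/-- A corner of the first sub-edge. -/
private theorem ahead_near_lf (A : UE × Bool) : |(ahead A).1 - (lf A).1| ≤ 1 ∧
    |(ahead A).2 - (lf A).2| ≤ 1 := by
  have h := isCor_in_lf A
  unfold IsCor at h
  rw [abs_le, abs_le]
  omega

end basic

section chain

variable {𝔇 : Dat} {d : ℕ → ℕ} {n i : ℕ} {ω : Cfg} {q : Rule.Ndl} {D : Dom} {k : ℤ}

/-- **After the last move** the strand is near the first unit edge. -/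
theorem NdS.near_end (h : NdS d n k (tst 𝔇 d n ω i).V q D) {C : ℤ}
    (hN : ∀ j ≤ i, NumO d n (j + 1) (rad C (unt d n) d (j + 1)))
    (hR : ∀ j ≤ i, ω ∉ Dead C 𝔇 d n j) (hV : ∀ j ≤ i, InvV C 𝔇 d n j ω)
    (hq : (tst 𝔇 d n ω i).q = some q) (hD : (𝔇.cs d (tst 𝔇 d n ω i).x).run = some D)
    (hi : (𝔇.cs d (tst 𝔇 d n ω i).x).ini = false)
    (hend : (𝔇.cs d (tst 𝔇 d n ω (i + 1)).x).run = none)
    {R₀ : ℤ} (hM : Nbh d n R₀ (tst 𝔇 d n ω i) ω q D) {ρ R k₁ : ℤ}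
    (hBE : ¬ BaseE.BaseEv (exS (tst 𝔇 d n ω i).V q) ω (ua (eS (tst 𝔇 d n ω i).V q)) ρ R)
    (hρR : ρ ≤ R) (hk : 2 * k + 5 ≤ ρ)
    (hbas : LC.InB (lf (subE (unt d n) D.B 0)) k₁ (ua (eS (tst 𝔇 d n ω i).V q)))
    (hk₁ : k₁ + max (rad C (unt d n) d (i + 1)) (max R₀ (2 * (unt d n * msh d (i + 1))) +
      2 * (unt d n * msh d (i + 1))) + 5 ≤ ρ) :
    ∀ t, mvT 𝔇 d n (tst 𝔇 d n ω i) q D false ω ≤ t → t ≤ perS n ω (tst 𝔇 d n ω i).V q →
      InB (ua (eS (tst 𝔇 d n ω i).V q)) R (pS (tst 𝔇 d n ω i).V q ω t) := by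
  obtain ⟨P, y, a, z, r, l, c, e, h1, h2, h3, h4, h5, h6⟩ := h
  have h7 := ahead_near_lf (subE (unt d n) D.B 0)
  refine end_box hN hR hV hq hD hi hend hM hBE hρR h1 h2 le_rfl h3 h4 h5 (by omega) h6
    (k₁ := k₁ + 1) ?_ (by omega)
  unfold LC.InB at hbas
  rw [abs_le, abs_le] at h7 ⊢
  omega

/-- The data are constant in a step. -/
theorem NdS.next {D' : Dom} (h : MovS 𝔇 d n ω i q D D') (hs : NdS d n k (tst 𝔇 d n ω i).V q D) :
    NdS d n k (tst 𝔇 d n ω (i + 1)).V q D' := by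
  have hV : (tst 𝔇 d n ω (i + 1)).V = (tst 𝔇 d n ω i).V := by rw [h.st]
  rw [hV]
  refine hs.congr ?_
  rw [h.dom]
  rfl

/-- **All the running stages**: from the stages in which a needle is placed. -/
theorem ndS_all {N : ℕ} {k : ℕ → ℤ} (hk : Monotone k)
    (hE : ∀ j ≤ N, ∀ V x q D, EntS 𝔇 d n ω j V x q D → NdS d n (k j) V q D) (hi : i ≤ N)
    (hq : (tst 𝔇 d n ω i).q = some q) (hD : (𝔇.cs d (tst 𝔇 d n ω i).x).run = some D) :
    NdS d n (k i) (tst 𝔇 d n ω i).V q D := by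
  cases hb : (𝔇.cs d (tst 𝔇 d n ω i).x).ini with
  | true =>
    have E := ent_of hq hD hb
    have hV : (tst 𝔇 d n ω i).V = (TruR.ts 𝔇 d n ω i).V := by rw [E.st]
    rw [hV]
    exact hE i hi _ _ _ _ E
  | false =>
    revert hi
    refine run_ind (P := fun i q D => i ≤ N → NdS d n (k i) (tst 𝔇 d n ω i).V q D) ?_ ?_ hq hD hb
    · intro j V x q D E hj
      have hV : (tst 𝔇 d n ω (j + 1)).V = V := by rw [E.st']
      rw [hV]
      exact (hE j (by omega) _ _ _ _ E).mono (hk (Nat.le_succ j))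
    · intro j q D D' M ih hj
      exact ((ih (by omega)).next M).mono (hk (Nat.le_succ j))

end chain

end Pool.Agent.SixB.Tru

/-! ### The placing stage -/

namespace Pool.Agent.SixB.StS

open Finset Pool.Agent.Perc Pool.Agent.Perc6 Pool.Agent.PercT Pool.Agent.Perc6.C2Aux
open Pool.Agent.Perc.Tips Pool.Agent.PercU Pool.Agent.PercX60
open Pool.Agent.MP_6bd702.H23 (Ed ea eb)
open Pool.Agent.SixB Pool.Agent.SixB.Top Pool.Agent.SixB.Mv
open Pool.Agent.SixB.Rule Pool.Agent.SixB.Dct Pool.Agent.SixB.Hook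
open Pool.Agent.SixB.Blow (subE)
open Pool.Agent.SixB.Ndle (dlt cen)
open Pool.Agent.SixB.Tru

variable {n L : ℕ} {V : Finset (ℤ × ℤ)} {T₀ : Finset Edg} {w : ℤ} {κ : ℤ × ℤ → ℤ × ℤ}
  {𝔇 : Dat} {d : ℕ → ℕ} {i : ℕ} {ω : Cfg} {x : List Rec} {q : Rule.Ndl} {D : Dom} {k : ℤ}

/-- The first unit edge is near the base of the needle. -/
theorem base_near_hook {u : ℤ} {C : Set (ℤ × ℤ)} {z : ℤ × ℤ} {r : ℕ}
    (H : Pre V (blow u C) (Ndle.ndF u (fin C) z L) (Ndle.ndA u (fin C) z)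
      (Ndle.ndB u (fin C) z) r) :
    LC.InB (Ndle.ndB u (fin C) z) (r + 3) (ua (eS V (hookU u L V C z))) := by
  have h1 := GZ.fa_eS_near H
  have h2 := side_ua_near (isSide_fa (eS V (hookU u L V C z)))
  unfold Ndle.sd at h1
  rw [max_le_iff, abs_le, abs_le] at h1
  unfold LC.InB
  omega

/-- **The data of the needle at the placing stage**, with free numbers. -/
theorem ndS_of_ent (E : EntS 𝔇 d n ω i V x q D)
    (hhk : 𝔇.hook n d V (𝔇.disc d x) (𝔇.tgt d x) =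
      hookU (unt d n) L V (𝔇.disc d x) (𝔇.tgt d x))
    (hnd : (𝔇.prm d).ndl (𝔇.disc d x) (𝔇.tgt d x) = ndC L (𝔇.disc d x) (𝔇.tgt d x))
    (hI : Rule.Inv n T₀ V) (hJ : (𝔇.cs d x).Inv)
    (h3 : 3 * L ≤ dlt (fin (𝔇.disc d x)) (𝔇.tgt d x)) (hu : 0 < unt d n)
    (A : App (FU V) (blow (unt d n) (𝔇.disc d x)) κ w) (huw : (unt d n : ℤ) ≤ w)
    (hfar : 2 * (2 * (4 * w + 6 * unt d n + 8) + 6 * unt d n) ≤ unt d n * ((L : ℤ) - 3))
    (hk : 2 * w + 6 * unt d n + 2 ≤ k) : NdS d n k V q D := by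
  have hdisc := E.disc
  obtain ⟨f1, f2, f3⟩ : (𝔇.disc d x).Finite ∧ Top.EConn (𝔇.disc d x) ∧ Esc (𝔇.disc d x) := by
    rw [hdisc]
    exact CSt.esc_cmp (π := 𝔇.prm d) hJ (msh_pos d i) E.mem
  obtain ⟨k₀, hN, hk₀⟩ := E.ndf
  have hqe : q = hookU (unt d n) L V (𝔇.disc d x) (𝔇.tgt d x) := E.hk.trans hhk
  have hDe := E.dom
  have hok := E.ok
  clear E
  subst hqe hDe
  obtain ⟨C, hC⟩ : ∃ C, C = 𝔇.disc d x := ⟨_, rfl⟩
  obtain ⟨z, hz⟩ : ∃ z, z = 𝔇.tgt d x := ⟨_, rfl⟩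
  rw [← hC, ← hz] at h3 hN hok hnd ⊢
  rw [← hC] at A f1 f2 f3
  obtain ⟨S, m, x', κ', j₁, j₂, i₂, F⟩ := exists_fine (π := 𝔇.prm d) hu f1 f2 f3 h3 hnd hok A huw hI hN
    hfar le_rfl
  have hu' : (0 : ℤ) < unt d n := by exact_mod_cast hu
  have h3' : 3 * (L : ℤ) ≤ (dlt (fin C) z : ℤ) := by exact_mod_cast h3
  have hm : (unt d n : ℤ) * (3 * (L : ℤ)) ≤ unt d n * (dlt (fin C) z : ℤ) :=
    mul_le_mul_of_nonneg_left h3' hu'.le
  have e1 : (unt d n : ℤ) * ((L : ℤ) - 3) = unt d n * L - 3 * unt d n := by ring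
  have e2 : (unt d n : ℤ) * (3 * (L : ℤ)) = 3 * (unt d n * L) := by ring
  have e3 : (unt d n : ℤ) * ((L : ℤ) + 1) - 1 = unt d n * L + unt d n - 1 := by ring
  have e4 : (unt d n : ℤ) * ((dlt (fin C) z : ℤ) - 1) =
      unt d n * (dlt (fin C) z : ℤ) - unt d n := by ring
  rw [e1] at hfar
  rw [e2] at hm
  have h2 : 2 ≤ L := by
    by_contra h
    have h5 : (L : ℤ) ≤ 1 := by exact_mod_cast (by omega : L ≤ 1)
    have h6 : (unt d n : ℤ) * L ≤ unt d n * 1 := mul_le_mul_of_nonneg_left h5 hu'.le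
    omega
  have h1 : 1 ≤ L := by omega
  have hL : L ≤ dlt (fin C) z := by omega
  have hd : 0 < w := by omega
  have H : Pre V (blow (unt d n : ℤ) C) (Ndle.ndF (unt d n) (fin C) z L)
      (Ndle.ndA (unt d n) (fin C) z) (Ndle.ndB (unt d n) (fin C) z) (w - 1).toNat :=
    Hook.pre_of_app f1 hu' hL h1 A subset_rfl fun _ _ _ _ h => h
  have hl : (unt d n : ℤ) * ((L : ℤ) + 1) - 1 ≤ unt d n * ((L : ℤ) + 1) - 1 := le_rfl
  have hdl : w ≤ (unt d n : ℤ) * ((L : ℤ) + 1) - 1 := by rw [e3]; omega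
  have hr : (unt d n : ℤ) * ((L : ℤ) + 1) - 1 + w ≤ unt d n * ((dlt (fin C) z : ℤ) - 1) := by
    rw [e3, e4]; omega
  have N := StartH.ndl_hook f1 hu' h1 hL hd H hl hdl hr
  refine ⟨_, _, _, _, _, _, _, _, N, A.sub, by omega, by omega, ?_, F.memB⟩
  have h7 := base_near_hook H
  have h8 : (((w - 1).toNat : ℕ) : ℤ) = w - 1 := Int.toNat_of_nonneg (by omega)
  rw [h8] at h7
  unfold LC.InB at h7 ⊢
  omega

section Row

open Pool.Agent.SixB.Cov (datC)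

/-- **The data of the needle at the placing stage**, official data. -/
theorem ndS_of_app {C : ℤ} {K kap N : ℕ} (E : EntS (datC K kap) d n ω i V x q D) (hC : 256 ≤ C)
    (hK : 0 < K) (hd : Sc.Dec d N) (hiN : i + 1 ≤ N) (hl : (K : ℤ) * (32 * 13 + 80) ≤ 2 ^ d N)
    (hn : 2 ^ d 0 ≤ n) (hI : Rule.Inv n T₀ V) (hJ : ((datC K kap).cs d x).Inv)
    (A : App (FU V) (blow (unt d n) ((datC K kap).disc d x)) κ (rad 13 (unt d n) d (i + 1))) :
    NdS d n (rad C (unt d n) d (i + 1)) V q D := by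
  have hu : 0 < unt d n := by exact_mod_cast InvN.unt_pos hn
  obtain ⟨g0, g1, -⟩ := num_ent (C := 256) E (C₁ := 13) (by norm_num) (by norm_num) hK hd hiN hl hn
  refine ndS_of_ent (L := Hook.ndL K (d 0)) E rfl (datC_ndl K kap d _ _) hI hJ E.act hu A g0 g1 ?_
  have hu' : (1 : ℤ) ≤ unt d n := by exact_mod_cast hu
  have hS1 : 0 ≤ ∑ j ∈ Finset.range (i + 1), msh d j := by
    have := InvN.sms_nonneg (d := d) (k := i + 1)
    unfold InvN.sms at this
    exact this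
  obtain ⟨X, hX⟩ : ∃ X, X = (unt d n : ℤ) * (1 + ∑ j ∈ Finset.range (i + 1), msh d j) := ⟨_, rfl⟩
  have hrad : ∀ c : ℤ, rad c (unt d n) d (i + 1) = c * X := fun c => by
    rw [hX]
    unfold rad
    ring
  have hX1 : (unt d n : ℤ) ≤ X := by rw [hX]; nlinarith
  rw [hrad, hrad]
  nlinarith

/-- The same from the stored discs and the freshness of the disc of the needle. -/
theorem ndS_of_stT {C : ℤ} {K kap N : ℕ} (E : EntS (datC K kap) d n ω i V x q D) (hC : 256 ≤ C)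
    (hK : 0 < K) (hd : Sc.Dec d N) (hiN : i + 1 ≤ N) (hl : (K : ℤ) * (32 * 13 + 80) ≤ 2 ^ d N)
    (hn : 2 ^ d 0 ≤ n)
    (hst : StT (datC K kap) d n (rad 1 (unt d n) d (i + 1)) (TruR.ts (datC K kap) d n ω i) ω)
    (hfr : blow (unt d n : ℤ) ((datC K kap).disc d x) ⊆ FU V) :
    NdS d n (rad C (unt d n) d (i + 1)) V q D := by
  obtain ⟨h1, κ, h2⟩ := app_ent (C₁ := 1) E (by exact_mod_cast InvN.unt_pos hn) hst hfr
  have h5 := inv_ts (datC K kap) d n ω i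
  rw [E.V0] at h5
  exact ndS_of_app E hC hK hd hiN hl hn h5 h1 h2

variable {C c₀ : ℤ} {K kap a : ℕ} {J : InvP} {G : ℕ → ℕ → ℕ} {N₁ : (ℕ → ℕ) → ℕ} {Y Z : EvF}
  (H : StIn C c₀ K kap a J G N₁ Y Z)
  (h : GdP (InvA C c₀ K J (datC K kap)) (datC K kap) (NumC G N₁) (YA (datC K kap) C Y)
      (ZA (datC K kap) c₀ Z) d n (i + 1) ω)

include H h

/-- **The data of the needle at the placing stage**, from the inputs of START. -/
theorem StIn.ndS (E : EntS (datC K kap) d n ω i V x q D) :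
    NdS d n (rad C (unt d n) d (i + 1)) V q D := by
  obtain ⟨h1, κ, h2⟩ := H.app h E
  have h5 := inv_ts (datC K kap) d n ω i
  rw [E.V0] at h5
  have h6 := H.pow h
  exact ndS_of_app E H.hC H.hK (H.dec h) le_rfl (by norm_num at h6 ⊢; exact h6) (H.big h) h5 h1
    (by norm_num at h2; exact h2)

end Row

end Pool.Agent.SixB.StS
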