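import Pool.Agent.Lib.SixB.S8PlantOk

/-!
# Step 8: a disc minus the needle is connected

`C` is a finite side connected set of cells without corridors of width one at its boundary (`NoCor`), for
instance a union of cells of a grid of mesh at least two. Then `C` minus the first `K` cells of the
clearance needle is side connected (`econn_ndl`). So planting the needle cuts nothing off: the first
domain of the needle is the whole disc minus the needle.
-/

set_option autoImplicit false

namespace Pool.Agent.SixB.Ndle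

open Pool.Agent.Perc Pool.Agent.Perc6 Pool.Agent.Perc6.C2Aux Pool.Agent.Perc.Tips
open Pool.Agent.SixB.Top

/-! ### Removing one cell -/

/-- A side connected set stays connected if one cell `v` is removed and all neighbours of `v` are
joined in the rest. -/
theorem econn_rem {X : Set (ℤ × ℤ)} (hX : Top.EConn X) {v : ℤ × ℤ}
    (hv : ∀ a ∈ X, ∀ b ∈ X, AdjF a v → AdjF v b → a ≠ v → b ≠ v →
      Relation.ReflTransGen (fun p q => AdjF p q ∧ q ∈ X \ {v}) a b) : Top.EConn (X \ {v}) := by
  intro f hf g hg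
  have key : ∀ h, Relation.ReflTransGen (fun p q => AdjF p q ∧ q ∈ X) f h → h ∈ X ∧
      (h ≠ v → Relation.ReflTransGen (fun p q => AdjF p q ∧ q ∈ X \ {v}) f h) ∧
      (h = v → ∃ a ∈ X, a ≠ v ∧ AdjF a v ∧
        Relation.ReflTransGen (fun p q => AdjF p q ∧ q ∈ X \ {v}) f a) := by
    intro h hh
    induction hh with
    | refl => exact ⟨hf.1, fun _ => .refl, fun h => absurd h hf.2⟩
    | @tail b c _ hs ih =>
      obtain ⟨hb, h1, h2⟩ := ih
      refine ⟨hs.2, fun hc => ?_, fun hc => ?_⟩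
      · by_cases hbv : b = v
        · obtain ⟨a, ha, hav, hadj, hp⟩ := h2 hbv
          exact hp.trans (hv a ha c hs.2 hadj (hbv ▸ hs.1) hav hc)
        · exact (h1 hbv).tail ⟨hs.1, hs.2, hc⟩
      · subst hc
        have hbc : b ≠ c := hs.1.1
        exact ⟨b, hb, hbc, hs.1, h1 hbc⟩
  exact (key g (hX f hf.1 g hg.1)).2.1 hg.2

/-- The chain relation in a set is symmetric. -/
theorem chain_symm {X : Set (ℤ × ℤ)} {a b : ℤ × ℤ} (ha : a ∈ X)
    (h : Relation.ReflTransGen (fun p q => AdjF p q ∧ q ∈ X) a b) :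
    Relation.ReflTransGen (fun p q => AdjF p q ∧ q ∈ X) b a := by
  have key : b ∈ X ∧ Relation.ReflTransGen (fun p q => AdjF p q ∧ q ∈ X) b a := by
    induction h with
    | refl => exact ⟨ha, .refl⟩
    | tail _ hs ih => exact ⟨hs.2, (Relation.ReflTransGen.single ⟨hs.1.symm, ih.1⟩).trans ih.2⟩
  exact key.2

/-! ### No corridors -/

/-- **No corridor of width one at the boundary**: if `f - d` is outside and `f`, `f + e` are in `C`
(`d`, `e` orthogonal unit vectors), then `f + e + d` is in `C`. -/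
def NoCor (C : Set (ℤ × ℤ)) : Prop :=
  ∀ f d e : ℤ × ℤ, |d.1| + |d.2| = 1 → |e.1| + |e.2| = 1 → d.1 * e.1 + d.2 * e.2 = 0 →
    f ∈ C → f - d ∉ C → f + e ∈ C → f + e + d ∈ C

theorem num_two {p v z : ℤ} (h3 : |v - p| = 1) (h4 : |v - z| = |p - z| - 1) (h : 4 ≤ |p - z|) :
    |2 * v - p - z| = |p - z| - 2 := by
  rcases abs_cases (v - p) with ⟨a1, b1⟩ | ⟨a1, b1⟩ <;> rcases abs_cases (v - z) with ⟨a2, b2⟩ | ⟨a2, b2⟩ <;>
    rcases abs_cases (p - z) with ⟨a3, b3⟩ | ⟨a3, b3⟩ <;>
    rcases abs_cases (2 * v - p - z) with ⟨a4, b4⟩ | ⟨a4, b4⟩ <;> omega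

theorem abs_add_one_le (a : ℤ) : |a + 1| ≤ |a| + 1 := by
  rcases abs_cases (a + 1) with ⟨a1, b1⟩ | ⟨a1, b1⟩ <;> rcases abs_cases a with ⟨a2, b2⟩ | ⟨a2, b2⟩ <;> omega

theorem abs_sub_one_le (a : ℤ) : |a - 1| ≤ |a| + 1 := by
  rcases abs_cases (a - 1) with ⟨a1, b1⟩ | ⟨a1, b1⟩ <;> rcases abs_cases a with ⟨a2, b2⟩ | ⟨a2, b2⟩ <;> omega

theorem ld_mk (a b : ℤ) (z : ℤ × ℤ) : ld (a, b) z = |a - z.1| + |b - z.2| := rfl

theorem sd_mk (a b : ℤ) (z : ℤ × ℤ) : sd (a, b) z = max |a - z.1| |b - z.2| := rfl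

variable {C : Finset (ℤ × ℤ)} {z : ℤ × ℤ}

/-- Everything before the base cell in the order (distance, `ℓ¹` distance) is in `C`. -/
theorem mem_of_before {w : ℤ × ℤ} (h : sd w z ≤ dlt C z) (h' : ld w z < ld (bse C z) z) : w ∈ C := by
  by_contra hw
  have h1 := dlt_le (z := z) hw
  have h2 := bse_min hw (le_antisymm h h1)
  omega

theorem ndc_ld {i : ℕ} (hi : i ≤ dlt C z) : ld (ndc C z i) z = ld (bse C z) z - i :=
  npt_ld z _ (by rw [sd_bse]; exact_mod_cast hi)

/-- The neighbours of the cell number `k + 1` of the needle. -/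
theorem ndc_nbr {k : ℕ} (hk : k + 4 ≤ dlt C z) (hN : NoCor (C : Set (ℤ × ℤ))) :
    ∃ m : ℤ × ℤ, AdjF (ndc C z (k + 1)) m ∧ m ∈ C ∧ (∀ i, i ≤ k + 1 → m ≠ ndc C z i) ∧
      ∀ a ∈ C, AdjF (ndc C z (k + 1)) a → a ≠ ndc C z k → a = m ∨
        ∃ b, AdjF a b ∧ AdjF b m ∧ b ∈ C ∧ ∀ i, i ≤ k + 1 → b ≠ ndc C z i := by
  have hne : ndc C z k ≠ z := npt_ne (by rw [sd_bse]; exact_mod_cast (by omega : k < dlt C z))
  have hst : ndc C z (k + 1) = stT z (ndc C z k) := npt_succ _ _ _
  have hge : (dlt C z : ℤ) - k ≤ sd (ndc C z k) z := by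
    have := npt_ge z (bse C z) (i := k) (by rw [sd_bse]; exact_mod_cast (by omega : k ≤ dlt C z))
    rwa [sd_bse] at this
  have hle : 2 * sd (ndc C z k) z ≤ 2 * dlt C z - k + 1 := ndc_le (by omega)
  have hld : ld (ndc C z k) z = ld (bse C z) z - k := ndc_ld (by omega)
  have hbs : ndc C z k = bse C z ∨ 1 ≤ k := by
    rcases Nat.eq_zero_or_pos k with h | h
    · left; rw [h]; rfl
    · right; exact h
  have hb2 : ld (bse C z) z ≤ 2 * dlt C z := by
    have h1 := sd_bse (C := C) (z := z)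
    unfold sd at h1
    unfold ld
    have h2 : |(bse C z).1 - z.1| ≤ dlt C z := h1 ▸ le_max_left _ _
    have h3 : |(bse C z).2 - z.2| ≤ dlt C z := h1 ▸ le_max_right _ _
    omega
  have hkz : (k : ℤ) + 4 ≤ dlt C z := by exact_mod_cast hk
  have hmem1 : ndc C z (k + 1) ∈ C := ndc_mem (by omega) (by omega)
  have nin : ∀ w, (ld w z ≤ ld (bse C z) z - k - 1) → w ≠ ndc C z (k + 1) →
      ∀ i, i ≤ k + 1 → w ≠ ndc C z i := by
    intro w hw hw' i hi hcon
    rcases hi.eq_or_lt with rfl | hi'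
    · exact hw' hcon
    · have h1 := ndc_ld (C := C) (z := z) (i := i) (by omega)
      rw [← hcon] at h1
      have : (i : ℤ) < k + 1 := by exact_mod_cast hi'
      omega
  have hbase : k = 0 → ndc C z k ∉ C := fun h => by rw [h]; exact (bse_spec C z).1
  rw [hst] at hmem1 nin ⊢
  generalize hp : ndc C z k = p at *
  have hbse : bse C z ∉ C := (bse_spec C z).1
  obtain ⟨p1, p2⟩ := p
  rcases stT_cases hne with ⟨h1, h2, h3, h4⟩ | ⟨h1, h2, h3, h4⟩
  · -- horizontal step
    generalize hq : stT z (p1, p2) = v at *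
    obtain ⟨v1, v2⟩ := v
    simp only at h1 h2 h3 h4
    subst h2
    have hs : sd (p1, v2) z = |p1 - z.1| := by unfold sd; exact max_eq_left h1
    rw [hs] at hge hle
    have hl : ld (p1, v2) z = |p1 - z.1| + |v2 - z.2| := rfl
    rw [hl] at hld
    have hm1 := num_two h3 h4 (by omega)
    have hmC : ((2 * v1 - p1, v2) : ℤ × ℤ) ∈ C := by
      apply mem_of_before (z := z)
      · rw [sd_mk, hm1]; exact max_le (by omega) (by omega)
      · rw [ld_mk, hm1]; omega
    refine ⟨(2 * v1 - p1, v2), ?_, hmC, ?_, ?_⟩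
    · rw [adjF_iff]
      rcases abs_cases (v1 - p1) with ⟨a1, b1⟩ | ⟨a1, b1⟩
      · left; exact Prod.ext (by simp only; omega) rfl
      · right; left; exact Prod.ext (by simp only; omega) rfl
    · apply nin
      · rw [ld_mk, hm1]; omega
      · intro hcon
        have := congrArg Prod.fst hcon
        simp only at this
        rcases abs_cases (v1 - p1) with ⟨a1, b1⟩ | ⟨a1, b1⟩ <;> omega
    · intro a haC ha hap
      have hside : ∀ t : ℤ, |t| = 1 → ((v1, v2 + t) : ℤ × ℤ) ∈ C →
          ((2 * v1 - p1, v2 + t) : ℤ × ℤ) ∈ C := by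
        intro t ht htC
        rcases hbs with hb | hk1
        · have := hN (v1, v2) (v1 - p1, 0) (0, t) (by simp only [abs_zero, add_zero]; exact h3)
            (by simp only [abs_zero, zero_add]; exact ht) (by simp) (by exact_mod_cast hmem1)
            (by
              have : ((v1, v2) : ℤ × ℤ) - (v1 - p1, 0) = (p1, v2) := by
                ext <;> simp
              rw [this, hb]
              exact_mod_cast hbse)
            (by
              have : ((v1, v2) : ℤ × ℤ) + (0, t) = (v1, v2 + t) := by ext <;> simp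
              rw [this]
              exact_mod_cast htC)
          have h5 : ((v1, v2) : ℤ × ℤ) + (0, t) + (v1 - p1, 0) = (2 * v1 - p1, v2 + t) := by
            ext
            · simp only [Prod.fst_add]; ring
            · simp
          rw [h5] at this
          exact_mod_cast this
        · have ht2 : |v2 + t - z.2| ≤ |v2 - z.2| + 1 := by
            have := abs_add_le (v2 - z.2) t
            rw [ht] at this
            have h6 : v2 - z.2 + t = v2 + t - z.2 := by ring
            rwa [h6] at this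
          have hk1' : (1 : ℤ) ≤ k := by exact_mod_cast hk1
          apply mem_of_before (z := z)
          · rw [sd_mk, hm1]; exact max_le (by omega) (by omega)
          · rw [ld_mk, hm1]; omega
      have hnin : ∀ t : ℤ, |t| = 1 → ∀ i, i ≤ k + 1 → ((2 * v1 - p1, v2 + t) : ℤ × ℤ) ≠ ndc C z i := by
        intro t ht
        have ht2 : |v2 + t - z.2| ≤ |v2 - z.2| + 1 := by
          have := abs_add_le (v2 - z.2) t
          rw [ht] at this
          have h6 : v2 - z.2 + t = v2 + t - z.2 := by ring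
          rwa [h6] at this
        apply nin
        · rw [ld_mk, hm1]; omega
        · intro hcon
          have := congrArg Prod.snd hcon
          simp only at this
          rcases abs_cases t with ⟨a1, b1⟩ | ⟨a1, b1⟩ <;> omega
      have hadj : ∀ t : ℤ, AdjF (v1, v2 + t) (2 * v1 - p1, v2 + t) := by
        intro t
        rw [adjF_iff]
        rcases abs_cases (v1 - p1) with ⟨a1, b1⟩ | ⟨a1, b1⟩
        · left; exact Prod.ext (by simp only; omega) rfl
        · right; left; exact Prod.ext (by simp only; omega) rfl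
      have hadj2 : ∀ t : ℤ, |t| = 1 → AdjF (2 * v1 - p1, v2 + t) (2 * v1 - p1, v2) := by
        intro t ht
        rw [adjF_iff]
        rcases abs_cases t with ⟨a1, b1⟩ | ⟨a1, b1⟩
        · right; right; right; exact Prod.ext rfl (by simp only; omega)
        · right; right; left; exact Prod.ext rfl (by simp only; omega)
      rw [adjF_iff] at ha
      rcases ha with rfl | rfl | rfl | rfl
      · rcases abs_cases (v1 - p1) with ⟨a1, b1⟩ | ⟨a1, b1⟩
        · left; exact Prod.ext (by simp only; omega) rfl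
        · exfalso; exact hap (Prod.ext (by simp only; omega) rfl)
      · rcases abs_cases (v1 - p1) with ⟨a1, b1⟩ | ⟨a1, b1⟩
        · exfalso; exact hap (Prod.ext (by simp only; omega) rfl)
        · left; exact Prod.ext (by simp only; omega) rfl
      · right
        exact ⟨(2 * v1 - p1, v2 + 1), hadj 1, hadj2 1 abs_one, hside 1 abs_one haC, hnin 1 abs_one⟩
      · right
        have e1 : |(-1 : ℤ)| = 1 := by norm_num
        exact ⟨(2 * v1 - p1, v2 + -1), hadj (-1), hadj2 (-1) e1, hside (-1) e1 haC, hnin (-1) e1⟩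
  · -- vertical step
    generalize hq : stT z (p1, p2) = v at *
    obtain ⟨v1, v2⟩ := v
    simp only at h1 h2 h3 h4
    subst h2
    have hs : sd (v1, p2) z = |p2 - z.2| := by unfold sd; exact max_eq_right h1.le
    rw [hs] at hge hle
    have hl : ld (v1, p2) z = |v1 - z.1| + |p2 - z.2| := rfl
    rw [hl] at hld
    have hm1 := num_two h3 h4 (by omega)
    have hmC : ((v1, 2 * v2 - p2) : ℤ × ℤ) ∈ C := by
      apply mem_of_before (z := z)
      · rw [sd_mk, hm1]; exact max_le (by omega) (by omega)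
      · rw [ld_mk, hm1]; omega
    refine ⟨(v1, 2 * v2 - p2), ?_, hmC, ?_, ?_⟩
    · rw [adjF_iff]
      rcases abs_cases (v2 - p2) with ⟨a1, b1⟩ | ⟨a1, b1⟩
      · right; right; left; exact Prod.ext rfl (by simp only; omega)
      · right; right; right; exact Prod.ext rfl (by simp only; omega)
    · apply nin
      · rw [ld_mk, hm1]; omega
      · intro hcon
        have := congrArg Prod.snd hcon
        simp only at this
        rcases abs_cases (v2 - p2) with ⟨a1, b1⟩ | ⟨a1, b1⟩ <;> omega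
    · intro a haC ha hap
      have ht2 : ∀ t : ℤ, |t| = 1 → |v1 + t - z.1| ≤ |v1 - z.1| + 1 := by
        intro t ht
        have := abs_add_le (v1 - z.1) t
        rw [ht] at this
        have h6 : v1 - z.1 + t = v1 + t - z.1 := by ring
        rwa [h6] at this
      have hside : ∀ t : ℤ, |t| = 1 → ((v1 + t, 2 * v2 - p2) : ℤ × ℤ) ∈ C := by
        intro t ht
        have := ht2 t ht
        apply mem_of_before (z := z)
        · rw [sd_mk, hm1]; exact max_le (by omega) (by omega)
        · rw [ld_mk, hm1]; omega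
      have hnin : ∀ t : ℤ, |t| = 1 → ∀ i, i ≤ k + 1 → ((v1 + t, 2 * v2 - p2) : ℤ × ℤ) ≠ ndc C z i := by
        intro t ht
        have := ht2 t ht
        apply nin
        · rw [ld_mk, hm1]; omega
        · intro hcon
          have := congrArg Prod.fst hcon
          simp only at this
          rcases abs_cases t with ⟨a1, b1⟩ | ⟨a1, b1⟩ <;> omega
      have hadj : ∀ t : ℤ, AdjF (v1 + t, v2) (v1 + t, 2 * v2 - p2) := by
        intro t
        rw [adjF_iff]
        rcases abs_cases (v2 - p2) with ⟨a1, b1⟩ | ⟨a1, b1⟩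
        · right; right; left; exact Prod.ext rfl (by simp only; omega)
        · right; right; right; exact Prod.ext rfl (by simp only; omega)
      have hadj2 : ∀ t : ℤ, |t| = 1 → AdjF (v1 + t, 2 * v2 - p2) (v1, 2 * v2 - p2) := by
        intro t ht
        rw [adjF_iff]
        rcases abs_cases t with ⟨a1, b1⟩ | ⟨a1, b1⟩
        · right; left; exact Prod.ext (by simp only; omega) rfl
        · left; exact Prod.ext (by simp only; omega) rfl
      rw [adjF_iff] at ha
      rcases ha with rfl | rfl | rfl | rfl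
      · right
        exact ⟨(v1 + 1, 2 * v2 - p2), hadj 1, hadj2 1 abs_one, hside 1 abs_one, hnin 1 abs_one⟩
      · right
        have e1 : |(-1 : ℤ)| = 1 := by norm_num
        exact ⟨(v1 + -1, 2 * v2 - p2), hadj (-1), hadj2 (-1) e1, hside (-1) e1, hnin (-1) e1⟩
      · rcases abs_cases (v2 - p2) with ⟨a1, b1⟩ | ⟨a1, b1⟩
        · left; exact Prod.ext rfl (by simp only; omega)
        · exfalso; exact hap (Prod.ext rfl (by simp only; omega))
      · rcases abs_cases (v2 - p2) with ⟨a1, b1⟩ | ⟨a1, b1⟩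
        · exfalso; exact hap (Prod.ext rfl (by simp only; omega))
        · left; exact Prod.ext rfl (by simp only; omega)

/-- **The set minus the needle is connected.** -/
theorem econn_ndl (hC : Top.EConn (C : Set (ℤ × ℤ))) (hN : NoCor (C : Set (ℤ × ℤ))) {K : ℕ}
    (hK : K + 3 ≤ dlt C z) :
    Top.EConn ((C : Set (ℤ × ℤ)) \ {f | ∃ i, 1 ≤ i ∧ i ≤ K ∧ f = ndc C z i}) := by
  induction K with
  | zero =>
    have : {f | ∃ i, 1 ≤ i ∧ i ≤ 0 ∧ f = ndc C z i} = (∅ : Set (ℤ × ℤ)) := by
      ext f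
      simp only [Set.mem_ofPred_eq, Set.mem_empty_iff_false, iff_false]
      rintro ⟨i, h1, h2, -⟩
      omega
    rw [this, Set.sdiff_empty]
    exact hC
  | succ k ih =>
    have ih := ih (by omega)
    have hset : (C : Set (ℤ × ℤ)) \ {f | ∃ i, 1 ≤ i ∧ i ≤ k + 1 ∧ f = ndc C z i} =
        ((C : Set (ℤ × ℤ)) \ {f | ∃ i, 1 ≤ i ∧ i ≤ k ∧ f = ndc C z i}) \ {ndc C z (k + 1)} := by
      ext f
      simp only [Set.mem_sdiff, Set.mem_ofPred_eq, Set.mem_singleton_iff]
      constructor
      · rintro ⟨h1, h2⟩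
        exact ⟨⟨h1, fun ⟨i, a1, a2, a3⟩ => h2 ⟨i, a1, by omega, a3⟩⟩,
          fun h => h2 ⟨k + 1, by omega, le_rfl, h⟩⟩
      · rintro ⟨⟨h1, h2⟩, h3⟩
        refine ⟨h1, ?_⟩
        rintro ⟨i, a1, a2, a3⟩
        rcases a2.eq_or_lt with rfl | h4
        · exact h3 a3
        · exact h2 ⟨i, a1, by omega, a3⟩
    obtain ⟨m, hm1, hm2, hm3, hm4⟩ := ndc_nbr (k := k) (C := C) (z := z) (by omega) hN
    have inX : ∀ w ∈ C, (∀ i, i ≤ k + 1 → w ≠ ndc C z i) →
        w ∈ (C : Set (ℤ × ℤ)) \ {f | ∃ i, 1 ≤ i ∧ i ≤ k + 1 ∧ f = ndc C z i} := by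
      intro w hw hw'
      exact ⟨by exact_mod_cast hw, fun ⟨i, a1, a2, a3⟩ => hw' i a2 a3⟩
    have hmX := inX m hm2 hm3
    have join : ∀ a ∈ (C : Set (ℤ × ℤ)) \ {f | ∃ i, 1 ≤ i ∧ i ≤ k ∧ f = ndc C z i},
        AdjF (ndc C z (k + 1)) a → Relation.ReflTransGen (fun p q => AdjF p q ∧
          q ∈ (C : Set (ℤ × ℤ)) \ {f | ∃ i, 1 ≤ i ∧ i ≤ k + 1 ∧ f = ndc C z i}) a m := by
      intro a ha hadj
      have hap : a ≠ ndc C z k := by
        intro h
        rcases Nat.eq_zero_or_pos k with h0 | h0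
        · rw [h, h0] at ha
          exact (bse_spec C z).1 (by exact_mod_cast ha.1)
        · exact ha.2 ⟨k, h0, le_rfl, h⟩
      rcases hm4 a (by exact_mod_cast ha.1) hadj hap with rfl | ⟨b, hb1, hb2, hb3, hb4⟩
      · exact .refl
      · exact (Relation.ReflTransGen.single ⟨hb1, inX b hb3 hb4⟩).tail ⟨hb2, hmX⟩
    rw [hset] at join ⊢
    apply econn_rem ih
    intro a ha b hb hav hvb hav' hbv'
    exact (join a ha hav.symm).trans (chain_symm ⟨hb, hbv'⟩ (join b hb hvb))

/-! ### Unions of cells of a grid -/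

/-- One step over a line, then no line. -/
theorem ediv_dir {L t s : ℤ} (hL : 2 ≤ L) (hs : |s| = 1) (h : (t - s) / L ≠ t / L) :
    (t + s) / L = t / L := by
  have hL0 : 0 < L := by omega
  have hs' : s = 1 ∨ s = -1 := by
    rcases abs_cases s with ⟨h1, h2⟩ | ⟨h1, h2⟩ <;> omega
  rcases hs' with rfl | rfl
  · have h1 : L ∣ t := by
      by_contra hd
      exact h ((Mv.ediv_pred hL0).2 hd)
    have h2 : ¬ L ∣ t + 1 := fun h3 => by
      have h4 : L ∣ 1 := (Int.dvd_add_right h1).1 h3
      have := Int.le_of_dvd (by norm_num) h4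
      omega
    have h3 := (Mv.ediv_pred (t := t + 1) hL0).2 h2
    rw [add_sub_cancel_right] at h3
    exact h3.symm
  · have h1 : L ∣ t + 1 := by
      by_contra hd
      have h3 := (Mv.ediv_pred (t := t + 1) hL0).2 hd
      rw [add_sub_cancel_right] at h3
      exact h (by rw [sub_neg_eq_add]; exact h3.symm)
    have h2 : ¬ L ∣ t := fun h3 => by
      have h4 : L ∣ 1 := (Int.dvd_add_right h3).1 h1
      have := Int.le_of_dvd (by norm_num) h4
      omega
    exact (Mv.ediv_pred hL0).2 h2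

/-- **Unions of cells of mesh at least two have no corridors of width one.** -/
theorem noCor_sat {X : Set (ℤ × ℤ)} {a b L : ℤ} (hL : 2 ≤ L)
    (hX : ∀ x y, Mv.gc a b L x = Mv.gc a b L y → x ∈ X → y ∈ X) : NoCor X := by
  rintro ⟨f1, f2⟩ ⟨d1, d2⟩ ⟨e1, e2⟩ hd he hde hf hfd hfe
  simp only at hd he hde
  refine hX _ _ ?_ hfe
  have hne : Mv.gc a b L ((f1, f2) - (d1, d2)) ≠ Mv.gc a b L (f1, f2) :=
    fun h => hfd (hX _ _ h.symm hf)
  unfold Mv.gc at hne ⊢
  simp only [Prod.fst_sub, Prod.snd_sub, Prod.fst_add, Prod.snd_add, ne_eq, Prod.mk.injEq] at hne ⊢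
  by_cases hd1 : d1 = 0
  · subst hd1
    have hd2 : |d2| = 1 := by rw [abs_zero, zero_add] at hd; exact hd
    have he2 : e2 = 0 := by
      rcases abs_cases d2 with ⟨h1, h2⟩ | ⟨h1, h2⟩
      · have : d2 = 1 := by omega
        subst this; omega
      · have : d2 = -1 := by omega
        subst this; omega
    subst he2
    refine ⟨by rw [add_zero], ?_⟩
    have h3 : (f2 + b - d2) / L ≠ (f2 + b) / L := by
      intro h
      apply hne
      refine ⟨by rw [sub_zero], ?_⟩
      rw [← h]; congr 1; ring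
    have h4 := ediv_dir hL hd2 h3
    rw [add_zero, ← h4]
    congr 1; ring
  · have hd2 : d2 = 0 := by
      have h1 : 1 ≤ |d1| := Int.one_le_abs hd1
      have h2 := abs_nonneg d2
      exact abs_eq_zero.1 (by omega)
    subst hd2
    have hd1' : |d1| = 1 := by rw [abs_zero, add_zero] at hd; exact hd
    have he1 : e1 = 0 := by
      rcases abs_cases d1 with ⟨h1, h2⟩ | ⟨h1, h2⟩
      · have : d1 = 1 := by omega
        subst this; omega
      · have : d1 = -1 := by omega
        subst this; omega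
    subst he1
    refine ⟨?_, by rw [add_zero]⟩
    have h3 : (f1 + a - d1) / L ≠ (f1 + a) / L := by
      intro h
      apply hne
      refine ⟨?_, by rw [sub_zero]⟩
      rw [← h]; congr 1; ring
    have h4 := ediv_dir hL hd1' h3
    rw [add_zero, ← h4]
    congr 1; ring

/-- **The set minus the needle is connected**, for sets and the function `toF`. -/
theorem econn_ndl_toF {W : Set (ℤ × ℤ)} (hW : W.Finite) (hC : Top.EConn W) (hN : NoCor W) {z : ℤ × ℤ}
    {K : ℕ} (hK : K + 3 ≤ dlt (Mv.toF W) z) :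
    Top.EConn (W \ {f | ∃ i, 1 ≤ i ∧ i ≤ K ∧ f = ndc (Mv.toF W) z i}) := by
  have hc : ((Mv.toF W : Finset (ℤ × ℤ)) : Set (ℤ × ℤ)) = W := by
    ext f
    rw [Finset.mem_coe]
    exact Mv.mem_toF hW
  have := econn_ndl (C := Mv.toF W) (z := z) (K := K) (by rw [hc]; exact hC) (by rw [hc]; exact hN) hK
  rw [hc] at this
  exact this

end Pool.Agent.SixB.Ndle
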