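import Pool.Agent.Lib.SixB.S8NearRed
import Pool.Agent.Lib.SixB.S8Line

/-!
# Step 8, near miss: visits and clusters

`K` disjoint visits of the strand to a region `D` without holes: the `2 K` ends of the unit edges at the
times `H k` (one for each visit) are in at least `K + 1` different clusters of `D` (`visits_clusters`).
The reason: the loop of the visit `k` has a potential which is constant on the clusters and separates
only the two ends of its own unit edge.

`hk_clusters`: the visits `hk E ω z ρ R N k` of the near miss lemma: `K + 1` vertices in the deep part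
which are joined to the boundary of the box and pairwise not joined in the box.
-/

set_option autoImplicit false

namespace Pool.Agent.SixB.Near

open Finset Pool.Agent.Perc Pool.Agent.PercT Pool.Agent.Perc6 Pool.Agent.SixB Pool.Agent.SixB.NearCut

/-- Vectors which separate `K` edges: at least `K + 1` of them. -/
theorem card_vectors {K : ℕ} (hK : 0 < K) (T : Finset (Fin K → ZMod 2))
    (h : ∀ k : Fin K, ∃ u ∈ T, ∃ v ∈ T, u + v = Pi.single k 1) : K + 1 ≤ T.card := by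
  classical
  obtain ⟨t0, ht0, -⟩ := h ⟨0, hK⟩
  have e0 : ∀ x : Fin K → ZMod 2, x + x = 0 := fun x => by
    funext i
    exact two_eq (x i)
  obtain ⟨S, hS⟩ : ∃ S : Finset (Fin K → ZMod 2), S = (T.erase t0).image (fun t => t + t0) := ⟨_, rfl⟩
  have hmem : ∀ u ∈ T, u + t0 ∈ Submodule.span (ZMod 2) (S : Set (Fin K → ZMod 2)) := by
    intro u hu
    by_cases hut : u = t0
    · rw [hut, e0]
      exact Submodule.zero_mem _
    · refine Submodule.subset_span ?_
      rw [hS, Finset.mem_coe, Finset.mem_image]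
      exact ⟨u, Finset.mem_erase.2 ⟨hut, hu⟩, rfl⟩
  have htop : Submodule.span (ZMod 2) (S : Set (Fin K → ZMod 2)) = ⊤ := by
    rw [eq_top_iff]
    rintro x -
    have hx : x = ∑ k, x k • (Pi.single k (1 : ZMod 2) : Fin K → ZMod 2) := by
      funext i
      rw [Finset.sum_apply, Finset.sum_eq_single i]
      · rw [Pi.smul_apply, Pi.single_eq_same, smul_eq_mul, mul_one]
      · intro j _ hj
        rw [Pi.smul_apply, Pi.single_eq_of_ne hj.symm, smul_zero]
      · intro hi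
        exact absurd (Finset.mem_univ i) hi
    rw [hx]
    refine Submodule.sum_mem _ fun k _ => Submodule.smul_mem _ _ ?_
    obtain ⟨u, hu, v, hv, huv⟩ := h k
    have h1 := Submodule.add_mem _ (hmem u hu) (hmem v hv)
    have h2 : u + t0 + (v + t0) = Pi.single k 1 := by
      rw [add_add_add_comm, huv, e0, add_zero]
    rwa [h2] at h1
  have h1 : Module.finrank (ZMod 2) (Submodule.span (ZMod 2) (S : Set (Fin K → ZMod 2))) ≤ S.card :=
    finrank_span_finset_le_card S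
  rw [htop, finrank_top, Module.finrank_fintype_fun_eq_card, Fintype.card_fin] at h1
  have h2 : S.card ≤ (T.erase t0).card := by
    rw [hS]
    exact Finset.card_image_le
  have h3 := Finset.card_erase_add_one ht0
  omega

/-- **Visits and clusters.** -/
theorem visits_clusters {w : Cfg} {e : UE} {D : Set (ℤ × ℤ)} {n K : ℕ} (hD : HasPot D)
    (hn : Nb w e n) {a b H : ℕ → ℕ} (hK : 0 < K) (hab : ∀ k < K, a k ≤ H k ∧ H k ≤ b k ∧ b k ≤ n)
    (hdis : ∀ j k, j < k → k < K → b j < a k) (ha : ∀ k < K, fb (pth w e (a k)) ∉ D)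
    (hb : ∀ k < K, fa (pth w e (b k)) ∉ D) (hS : ∀ k < K, pth w e (H k) ∈ SU D) :
    ∃ S : Finset (ℤ × ℤ), K + 1 ≤ S.card ∧
      (∀ v ∈ S, ∃ c : ℤ, (c = 0 ∨ c = 1) ∧ ∃ k < K, v = en c (pth w e (H k))) ∧
      ∀ v ∈ S, ∀ v' ∈ S, v ≠ v' → ¬ Conn w D v v' := by
  classical
  have hpot : ∀ k : Fin K, ∃ Φ : ℤ × ℤ → ZMod 2, IsPot D (Gs w e (a k) (b k + 1)) Φ := by
    intro k
    obtain ⟨h1, h2, h3⟩ := hab k k.2
    refine hD _ fun f hf => ?_
    have g1 : ¬ f = fb (pth w e (a k)) := fun h4 => ha k k.2 (by rw [← h4]; exact hf)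
    have g2 : ¬ f = fb (pth w e (b k + 1)) := fun h4 => hb k k.2 (by
      rw [← fb_pth_succ, ← h4]; exact hf)
    rw [evenAt_iff, parAt_Gs hn (by omega) (by omega), ind2_neg g1, ind2_neg g2, add_zero]
  choose Φ hΦ using hpot
  obtain ⟨X, hX⟩ : ∃ X : Fin K → Bool → ℤ × ℤ,
      ∀ k c, X k c = en (if c then 1 else 0) (pth w e (H k)) := ⟨fun k c => _, fun _ _ => rfl⟩
  obtain ⟨vec, hvec⟩ : ∃ vec : ℤ × ℤ → Fin K → ZMod 2, ∀ v k, vec v k = Φ k v :=
    ⟨fun v k => Φ k v, fun _ _ => rfl⟩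
  have hconn : ∀ v v', Conn w D v v' → vec v = vec v' := by
    intro v v' h
    funext k
    rw [hvec, hvec]
    induction h with
    | refl => rfl
    | tail _ hb' ih =>
      rw [ih]
      refine box_bond (hΦ k) (ha k k.2) ?_ hb'
      rw [fb_pth_succ]
      exact hb k k.2
  have hsep : ∀ k : Fin K, vec (X k false) + vec (X k true) = Pi.single k 1 := by
    intro k
    funext j
    rw [Pi.add_apply, hvec, hvec, hX, hX]
    have h1 := pot_end (hΦ j) (hS k k.2) (c := 0) (Or.inl rfl)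
    simp only [Bool.false_eq_true, if_false, if_true]
    rw [show (1 : ℤ) - 0 = 1 by norm_num] at h1
    rw [h1]
    obtain ⟨a1, a2, a3⟩ := hab k k.2
    obtain ⟨b1, b2, b3⟩ := hab j j.2
    by_cases hjk : j = k
    · subst hjk
      rw [Pi.single_eq_same, ind2_pos ⟨H j, a1, by omega, rfl⟩]
    · rw [Pi.single_eq_of_ne hjk, ind2_neg]
      rw [mem_Gs hn (by omega) (by omega)]
      rintro ⟨c1, c2⟩
      rcases lt_or_gt_of_ne (fun h => hjk (Fin.ext h) : (j : ℕ) ≠ k) with h2 | h2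
      · have := hdis j k h2 k.2
        omega
      · have := hdis k j h2 j.2
        omega
  obtain ⟨T, hT⟩ : ∃ T : Finset (Fin K → ZMod 2),
      T = Finset.univ.image fun p : Fin K × Bool => vec (X p.1 p.2) := ⟨_, rfl⟩
  have hTc := card_vectors hK T fun k => ⟨vec (X k false), by
    rw [hT, Finset.mem_image]
    exact ⟨(k, false), Finset.mem_univ _, rfl⟩, vec (X k true), by
    rw [hT, Finset.mem_image]
    exact ⟨(k, true), Finset.mem_univ _, rfl⟩, hsep k⟩
  have hch : ∀ t : Fin K → ZMod 2, ∃ v : ℤ × ℤ, t ∈ T → ∃ p : Fin K × Bool, v = X p.1 p.2 ∧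
      vec v = t := by
    intro t
    by_cases ht : t ∈ T
    · rw [hT, Finset.mem_image] at ht
      obtain ⟨p, -, hp⟩ := ht
      exact ⟨X p.1 p.2, fun _ => ⟨p, rfl, hp⟩⟩
    · exact ⟨(0, 0), fun h => absurd h ht⟩
  choose g hg using hch
  refine ⟨T.image g, ?_, ?_, ?_⟩
  · rw [Finset.card_image_of_injOn]
    · exact hTc
    · intro t ht t' ht' htt
      obtain ⟨-, -, h1⟩ := hg t ht
      obtain ⟨-, -, h2⟩ := hg t' ht'
      rw [← h1, ← h2, htt]
  · intro v hv
    obtain ⟨t, ht, rfl⟩ := Finset.mem_image.1 hv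
    obtain ⟨p, h1, -⟩ := hg t ht
    rw [h1, hX]
    refine ⟨if p.2 then 1 else 0, ?_, p.1, p.1.2, rfl⟩
    cases p.2
    · exact Or.inl (by simp)
    · exact Or.inr (by simp)
  · intro v hv v' hv' hne hc
    obtain ⟨t, ht, rfl⟩ := Finset.mem_image.1 hv
    obtain ⟨t', ht', rfl⟩ := Finset.mem_image.1 hv'
    obtain ⟨-, -, h1⟩ := hg t ht
    obtain ⟨-, -, h2⟩ := hg t' ht'
    apply hne
    have := hconn _ _ hc
    rw [h1, h2] at this
    rw [this]

/-- A unit edge between a face of the box and a face outside of it. -/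
theorem onBd_of_sides {z : ℤ × ℤ} {R : ℤ} {f g v : ℤ × ℤ} {x : UE} (hf : IsSide f x)
    (hg : IsSide g x) (hfD : f ∈ Bx z R) (hgD : g ∉ Bx z R) (hv : AtE v x) :
    OnBd (z.1 - R) (z.1 + R) (z.2 - R) (z.2 + R) v := by
  unfold Bx at hfD hgD
  rw [Finset.mem_coe, memRF] at hfD hgD
  obtain ⟨f1, f2⟩ := f
  obtain ⟨g1, g2⟩ := g
  obtain ⟨v1, v2⟩ := v
  unfold OnBd
  unfold AtE at hv
  rcases hf with rfl | rfl | rfl | rfl <;> rcases hg with h | h | h | h <;>
    simp only [bo, le', to', ri, ua, ub, Prod.mk.injEq, Bool.false_eq_true, reduceCtorEq, and_false,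
      if_true, if_false, and_true] at h hfD hgD hv ⊢ <;> omega

/-- **The visits of the near miss lemma and the crossing clusters.** If the strand makes `K` complete
visits to the deep part of the box then there are `K + 1` vertices near the deep part, ends of unit
edges of the strand, which are joined to the boundary of the box in the box and pairwise not joined in
the box. -/
theorem hk_clusters_p {E : Ex} {ω : Cfg} {z : ℤ × ℤ} {ρ R : ℤ} {N K : ℕ} (hρ : ρ + 1 ≤ R)
    (hK : 0 < K) (hn : Nb (E.cf ω) (E.e ω) (hk E ω z ρ R N K)) (h0 : fa (E.e ω) ∉ Bx z R)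
    (hN : hk E ω z ρ R N K < N) :
    ∃ S : Finset (ℤ × ℤ), K + 1 ≤ S.card ∧
      (∀ v ∈ S, (∃ c : ℤ, (c = 0 ∨ c = 1) ∧ ∃ t, v = en c (E.p ω t)) ∧
        InR (z.1 - (ρ + 1)) (z.1 + (ρ + 1)) (z.2 - (ρ + 1)) (z.2 + (ρ + 1)) v ∧
        ∃ u, OnBd (z.1 - R) (z.1 + R) (z.2 - R) (z.2 + R) u ∧ Conn (E.cf ω) (Bx z R) v u) ∧
      ∀ v ∈ S, ∀ v' ∈ S, v ≠ v' → ¬ Conn (E.cf ω) (Bx z R) v v' := by
  obtain ⟨H, hH⟩ : ∃ H : ℕ → ℕ, H = hk E ω z ρ R N := ⟨_, rfl⟩
  have hmono : ∀ {i k : ℕ}, i ≤ k → H i ≤ H k := fun h => by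
    rw [hH]
    exact hk_mono h
  have hlt : ∀ k ≤ K, H k < N := fun k hk' => (hmono hk').trans_lt (by rw [hH]; exact hN)
  have hdeep : ∀ k ≤ K, InB z ρ (E.p ω (H k)) := by
    intro k hk'
    have h1 := hlt k hk'
    cases k with
    | zero =>
      rcases hit_spec N (fun t => InB z ρ (E.p ω t)) with h | h
      · rw [hH] at h1
        exact absurd h (ne_of_lt h1)
      · rw [hH]
        exact h
    | succ k =>
      rcases hit_spec N (fun t => (∃ b ≤ t, hk E ω z ρ R N k ≤ b ∧ fa (E.p ω b) ∉ Bx z R) ∧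
        InB z ρ (E.p ω t)) with h | h
      · rw [hH] at h1
        exact absurd h (ne_of_lt h1)
      · rw [hH]
        exact h.2
  have hin : ∀ k ≤ K, fa (E.p ω (H k)) ∈ Bx z R := fun k hk' => not_bx ((hdeep k hk').mono (by omega))
  have hex : ∀ k : ℕ, ∃ b, k < K → H k < b ∧ b < H (k + 1) ∧ fa (E.p ω b) ∉ Bx z R ∧
      ∀ j, H k ≤ j → j < b → fa (E.p ω j) ∈ Bx z R := by
    intro k
    by_cases hk' : k < K
    · have h1 := hlt (k + 1) hk'
      rcases hit_spec N (fun t => (∃ b ≤ t, hk E ω z ρ R N k ≤ b ∧ fa (E.p ω b) ∉ Bx z R) ∧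
        InB z ρ (E.p ω t)) with h | h
      · rw [hH] at h1
        exact absurd h (ne_of_lt h1)
      · obtain ⟨⟨b, hb1, hb2, hb3⟩, -⟩ := h
        have hb1' : b ≤ H (k + 1) := by
          rw [hH]
          exact hb1
        have hb2' : H k ≤ b := by
          rw [hH]
          exact hb2
        obtain ⟨l, g1, g2, g3, g4⟩ := LineAux.exists_first (P := fun l => fa (E.p ω l) ∉ Bx z R)
          (k := H k) hb3 hb2' (fun h' => h' (hin k hk'.le))
        refine ⟨l, fun _ => ⟨g1, ?_, g3, fun j g5 g6 => ?_⟩⟩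
        · refine lt_of_le_of_ne (g2.trans hb1') fun h' => ?_
          rw [h'] at g3
          exact g3 (hin (k + 1) hk')
        · by_contra g7
          exact g4 j g5 g6 g7
    · exact ⟨0, fun h => absurd h hk'⟩
  choose b hb using hex
  obtain ⟨a, ha0, ha1⟩ : ∃ a : ℕ → ℕ, a 0 = 1 ∧ ∀ k, a (k + 1) = b k + 1 :=
    ⟨fun k => Nat.casesOn k 1 fun k => b k + 1, rfl, fun _ => rfl⟩
  have hH0 : 1 ≤ H 0 := by
    by_contra h
    have h1 : H 0 = 0 := by omega
    have h2 := hin 0 (Nat.zero_le _)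
    rw [h1] at h2
    exact h0 h2
  have hab : ∀ k < K, a k ≤ H k ∧ H k ≤ b k ∧ b k ≤ hk E ω z ρ R N K := by
    intro k hk'
    obtain ⟨b1, b2, b3, b4⟩ := hb k hk'
    refine ⟨?_, b1.le, ?_⟩
    · cases k with
      | zero =>
        rw [ha0]
        exact hH0
      | succ k =>
        rw [ha1]
        exact (hb k (by omega)).2.1
    · have h1 : H (k + 1) ≤ H K := hmono hk'
      rw [← hH]
      omega
  have hdis : ∀ j k, j < k → k < K → b j < a k := by
    intro j k hjk hk'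
    obtain ⟨m, rfl⟩ : ∃ m, k = m + 1 := ⟨k - 1, by omega⟩
    rw [ha1]
    rcases Nat.lt_or_ge j m with h | h
    · have h1 := (hb j (by omega)).2.1
      have h2 : H (j + 1) ≤ H m := hmono h
      have h3 := (hb m (by omega)).1
      omega
    · have : j = m := by omega
      subst this
      omega
  have ha' : ∀ k < K, fb (pth (E.cf ω) (E.e ω) (a k)) ∉ Bx z R := by
    intro k hk'
    cases k with
    | zero =>
      rw [ha0]
      have e1 : fb (pth (E.cf ω) (E.e ω) (0 + 1)) = fa (pth (E.cf ω) (E.e ω) 0) := fb_pth_succ _ _ _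
      rw [Nat.zero_add] at e1
      rw [e1]
      exact h0
    | succ k =>
      rw [ha1, fb_pth_succ]
      exact (hb k (by omega)).2.2.1
  have hb' : ∀ k < K, fa (pth (E.cf ω) (E.e ω) (b k)) ∉ Bx z R := by
    intro k hk'
    exact (hb k hk').2.2.1
  have hS' : ∀ k < K, pth (E.cf ω) (E.e ω) (H k) ∈ SU (Bx z R) := by
    intro k hk'
    exact SU_of_fa (hin k hk'.le)
  obtain ⟨S, g1, g2, g3⟩ := visits_clusters (D := Bx z R) (w := E.cf ω) (e := E.e ω)
    (hasPot_RF _ _ _ _) hn (a := a) (b := b) (H := H) hK hab hdis ha' hb' hS'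
  refine ⟨S, g1, ?_, g3⟩
  intro v hv
  obtain ⟨c, hc, k, hk', rfl⟩ := g2 v hv
  obtain ⟨b1, b2, b3, b4⟩ := hb k hk'
  refine ⟨⟨c, hc, H k, rfl⟩, inR_end (atE_en c _) (hdeep k hk'.le), en c (E.p ω (b k)), ?_, ?_⟩
  · obtain ⟨m, hm⟩ : ∃ m, b k = m + 1 := ⟨b k - 1, by omega⟩
    refine onBd_of_sides (f := fb (E.p ω (b k))) (isSide_fb _) (isSide_fa _) ?_ b3 (atE_en c _)
    rw [hm]
    have e1 : fb (E.p ω (m + 1)) = fa (E.p ω m) := fb_pth_succ _ _ _
    rw [e1]
    exact b4 m (by omega) (by omega)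
  · exact conn_box hc b1.le b4

/-- The visits of the near miss lemma and the crossing clusters. -/
theorem hk_clusters {E : Ex} {ω : Cfg} {z : ℤ × ℤ} {ρ R : ℤ} {N K : ℕ} (hρ : ρ + 1 ≤ R) (hK : 0 < K)
    (hn : Nb (E.cf ω) (E.e ω) (hk E ω z ρ R N K)) (h0 : fa (E.e ω) ∉ Bx z R)
    (hN : hk E ω z ρ R N K < N) :
    ∃ S : Finset (ℤ × ℤ), K + 1 ≤ S.card ∧
      (∀ v ∈ S, InR (z.1 - (ρ + 1)) (z.1 + (ρ + 1)) (z.2 - (ρ + 1)) (z.2 + (ρ + 1)) v ∧
        ∃ u, OnBd (z.1 - R) (z.1 + R) (z.2 - R) (z.2 + R) u ∧ Conn (E.cf ω) (Bx z R) v u) ∧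
      ∀ v ∈ S, ∀ v' ∈ S, v ≠ v' → ¬ Conn (E.cf ω) (Bx z R) v v' := by
  obtain ⟨S, h1, h2, h3⟩ := hk_clusters_p hρ hK hn h0 hN
  exact ⟨S, h1, fun v hv => (h2 v hv).2, h3⟩

end Pool.Agent.SixB.Near
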