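import Pool.Agent.Lib.SixB.S8NearCut

/-!
# Step 8, near miss: the deterministic core in frozen form

`Z` is a set of frozen faces. The only hypothesis on the walls is `Wall`: the corners of colour `c` of the
faces of `Z` of colour `c` are joined by bonds in `Z` to the end `en c e` of the first unit edge of the
strand, for both colours `c`. The strand may pass between two walls, the walls may have slits and may
touch each other.

A touch of a wall of colour `c` is closed along the bonds of the wall (`exists_close`): the closing set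
`Y` of unit edges rotates around the vertices of the wall; it is even in all faces except at its two
ends and contains both or none of two sides of a face with the same end of colour `c`, except in the faces
of `Z` of colour `c`. `loopP`: the loop in the full plane; `loopQ`: the loop in the box `D`.

`near_frozen`: the contradiction which proves the near miss lemma.
-/

set_option autoImplicit false

namespace Pool.Agent.SixB.NearCut

open Finset Pool.Agent.Perc Pool.Agent.Perc6 Pool.Agent.SixB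

/-! ### Potentials in the full plane -/

/-- The vertices between `a` and `b`, in any order. -/
private noncomputable def iv (a b : ℤ) : Finset ℤ := Ico a b ∪ Ico b a

private theorem sum_iv_succ (a b : ℤ) (g : ℤ → ZMod 2) :
    ∑ i ∈ iv a (b + 1), g i = ∑ i ∈ iv a b, g i + g b := by
  unfold iv
  rcases le_or_gt a b with h | h
  · have e1 : Ico a (b + 1) ∪ Ico (b + 1) a = insert b (Ico a b ∪ Ico b a) := by
      ext i
      simp only [mem_union, mem_Ico, mem_insert]
      omega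
    rw [e1, sum_insert (by simp only [mem_union, mem_Ico]; omega), add_comm]
  · have e1 : Ico a b ∪ Ico b a = insert b (Ico a (b + 1) ∪ Ico (b + 1) a) := by
      ext i
      simp only [mem_union, mem_Ico, mem_insert]
      omega
    rw [e1, sum_insert (by simp only [mem_union, mem_Ico]; omega)]
    generalize ∑ i ∈ Ico a (b + 1) ∪ Ico (b + 1) a, g i = x
    generalize g b = y
    revert x y
    decide

private noncomputable def pu (M : Set UE) (w : ℤ × ℤ) : ZMod 2 :=
  (∑ i ∈ iv 0 w.1, ind2 (((i, 0, false) : UE) ∈ M)) +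
    ∑ j ∈ iv 0 w.2, ind2 (((w.1, j, true) : UE) ∈ M)

private theorem pu_ver (M : Set UE) (x y : ℤ) :
    pu M (x, y + 1) = pu M (x, y) + ind2 (((x, y, true) : UE) ∈ M) := by
  unfold pu
  simp only
  rw [sum_iv_succ, add_assoc]

private theorem pu_hor {M : Set UE} (hM : ∀ f, EvenAt M f) (x y : ℤ) :
    pu M (x + 1, y) = pu M (x, y) + ind2 (((x, y, false) : UE) ∈ M) := by
  have step : ∀ y : ℤ, (pu M (x + 1, y) = pu M (x, y) + ind2 (((x, y, false) : UE) ∈ M) ↔
      pu M (x + 1, y + 1) = pu M (x, y + 1) + ind2 (((x, y + 1, false) : UE) ∈ M)) := by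
    intro y
    rw [pu_ver, pu_ver]
    have h := hM (x, y)
    unfold EvenAt bo ri to' le' at h
    simp only at h
    generalize ind2 (((x, y, false) : UE) ∈ M) = p1 at h ⊢
    generalize ind2 (((x + 1, y, true) : UE) ∈ M) = p2 at h ⊢
    generalize ind2 (((x, y + 1, false) : UE) ∈ M) = p3 at h ⊢
    generalize ind2 (((x, y, true) : UE) ∈ M) = p4 at h ⊢
    generalize pu M (x, y) = p5
    generalize pu M (x + 1, y) = p6
    revert p1 p2 p3 p4 p5 p6
    decide
  induction y using Int.induction_on with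
  | zero =>
    unfold pu
    simp only
    rw [sum_iv_succ]
    have e : iv 0 0 = ∅ := by
      unfold iv
      simp
    rw [e, sum_empty, sum_empty, add_zero, add_zero]
  | succ y ih => exact (step _).1 ih
  | pred y ih =>
    refine (step _).2 ?_
    rw [sub_add_cancel]
    exact ih

/-- **Every set of unit edges which is even in all faces has a potential.** -/
theorem exists_potU {M : Set UE} (hM : ∀ f, EvenAt M f) :
    ∃ Φ : ℤ × ℤ → ZMod 2, IsPot Set.univ M Φ := by
  refine ⟨pu M, fun f _ a _ => ?_⟩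
  obtain ⟨x, y, b⟩ := a
  cases b
  · rw [ua_mk, ub_false, pu_hor hM, ne_add_ind2]
  · rw [ua_mk, ub_true, pu_ver, ne_add_ind2]

/-! ### Rotation around a vertex -/

/-- `v` is an end of the unit edge `a`. -/
def At (v : ℤ × ℤ) (a : UE) : Prop := v = ua a ∨ v = ub a

theorem en_at {c : ℤ} {v : ℤ × ℤ} {a : UE} (hv : par v = c) (h : At v a) : en c a = v := en_eq hv h

theorem at_en (c : ℤ) (a : UE) : At (en c a) a := en_or c a

theorem three_sides {f v : ℤ × ℤ} {a b d : UE} (ha : IsSide f a) (hb : IsSide f b)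
    (hd : IsSide f d) (va : At v a) (vb : At v b) (vd : At v d) : a = b ∨ a = d ∨ b = d := by
  obtain ⟨x, y⟩ := f
  obtain ⟨v1, v2⟩ := v
  unfold At at va vb vd
  rcases ha with rfl | rfl | rfl | rfl <;> rcases hb with rfl | rfl | rfl | rfl <;>
    rcases hd with rfl | rfl | rfl | rfl <;>
    first
    | exact Or.inl rfl
    | exact Or.inr (Or.inl rfl)
    | exact Or.inr (Or.inr rfl)
    | (exfalso
       simp [ua, ub, bo, le', to', ri] at va vb vd
       omega)

theorem isCor_iff {f v : ℤ × ℤ} : IsCor f v ↔ f = (v.1, v.2) ∨ f = (v.1 - 1, v.2) ∨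
    f = (v.1 - 1, v.2 - 1) ∨ f = (v.1, v.2 - 1) := by
  obtain ⟨f1, f2⟩ := f
  obtain ⟨x, y⟩ := v
  unfold IsCor
  simp only [Prod.mk.injEq]
  omega

theorem around {f g v : ℤ × ℤ} (hf : IsCor f v) (hg : IsCor g v) :
    f = g ∨ (f ≠ g ∧ ∃ a, At v a ∧ IsSide f a ∧ IsSide g a) ∨
      (f ≠ g ∧ ∃ h a b, f ≠ h ∧ h ≠ g ∧ At v a ∧ At v b ∧ a ≠ b ∧ IsSide f a ∧ IsSide h a ∧
        IsSide h b ∧ IsSide g b) := by
  obtain ⟨x, y⟩ := v
  have a1 : At (x, y) (x, y, false) := by simp [At, ua, ub]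
  have a2 : At (x, y) (x, y, true) := by simp [At, ua, ub]
  have a3 : At (x, y) (x - 1, y, false) := by simp [At, ua, ub]
  have a4 : At (x, y) (x, y - 1, true) := by simp [At, ua, ub]
  have s11 : IsSide (x, y) (x, y, false) := by simp [IsSide, bo, le', to', ri]
  have s12 : IsSide (x, y) (x, y, true) := by simp [IsSide, bo, le', to', ri]
  have s22 : IsSide (x - 1, y) (x, y, true) := by simp [IsSide, bo, le', to', ri]
  have s23 : IsSide (x - 1, y) (x - 1, y, false) := by simp [IsSide, bo, le', to', ri]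
  have s33 : IsSide (x - 1, y - 1) (x - 1, y, false) := by simp [IsSide, bo, le', to', ri]
  have s34 : IsSide (x - 1, y - 1) (x, y - 1, true) := by simp [IsSide, bo, le', to', ri]
  have s44 : IsSide (x, y - 1) (x, y - 1, true) := by simp [IsSide, bo, le', to', ri]
  have s41 : IsSide (x, y - 1) (x, y, false) := by simp [IsSide, bo, le', to', ri]
  rw [isCor_iff] at hf hg
  simp only at hf hg
  have n1 : ((x, y) : ℤ × ℤ) ≠ (x - 1, y) := by rw [Ne, Prod.mk.injEq]; omega
  have n2 : ((x, y) : ℤ × ℤ) ≠ (x - 1, y - 1) := by rw [Ne, Prod.mk.injEq]; omega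
  have n3 : ((x, y) : ℤ × ℤ) ≠ (x, y - 1) := by rw [Ne, Prod.mk.injEq]; omega
  have n4 : ((x - 1, y) : ℤ × ℤ) ≠ (x - 1, y - 1) := by rw [Ne, Prod.mk.injEq]; omega
  have n5 : ((x - 1, y) : ℤ × ℤ) ≠ (x, y - 1) := by rw [Ne, Prod.mk.injEq]; omega
  have n6 : ((x - 1, y - 1) : ℤ × ℤ) ≠ (x, y - 1) := by rw [Ne, Prod.mk.injEq]; omega
  rcases hf with rfl | rfl | rfl | rfl <;> rcases hg with rfl | rfl | rfl | rfl
  · exact Or.inl rfl
  · exact Or.inr (Or.inl ⟨n1, _, a2, s12, s22⟩)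
  · exact Or.inr (Or.inr ⟨n2, (x - 1, y), _, _, n1, n4, a2, a3, by simp, s12, s22, s23, s33⟩)
  · exact Or.inr (Or.inl ⟨n3, _, a1, s11, s41⟩)
  · exact Or.inr (Or.inl ⟨n1.symm, _, a2, s22, s12⟩)
  · exact Or.inl rfl
  · exact Or.inr (Or.inl ⟨n4, _, a3, s23, s33⟩)
  · exact Or.inr (Or.inr ⟨n5, (x, y), _, _, n1.symm, n3, a2, a1, by simp, s22, s12, s11, s41⟩)
  · exact Or.inr (Or.inr ⟨n2.symm, (x - 1, y), _, _, n4.symm, n1.symm, a3, a2, by simp, s33, s23,
      s22, s12⟩)
  · exact Or.inr (Or.inl ⟨n4.symm, _, a3, s33, s23⟩)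
  · exact Or.inl rfl
  · exact Or.inr (Or.inl ⟨n6, _, a4, s34, s44⟩)
  · exact Or.inr (Or.inl ⟨n3.symm, _, a1, s41, s11⟩)
  · exact Or.inr (Or.inr ⟨n5.symm, (x, y), _, _, n3.symm, n1, a1, a2, by simp, s41, s11, s12, s22⟩)
  · exact Or.inr (Or.inl ⟨n6.symm, _, a4, s44, s34⟩)
  · exact Or.inl rfl

/-- The set `Y` closes a loop from the face `f` to the face `g`: parity. -/
def Bdy (Y : Set UE) (f g : ℤ × ℤ) : Prop := ∀ h, parAt Y h = ind2 (h = f) + ind2 (h = g)

theorem bdy_empty (f : ℤ × ℤ) : Bdy ∅ f f := by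
  intro h
  rw [z2_add_self]
  unfold parAt
  rw [ind2_neg (Set.notMem_empty _), ind2_neg (Set.notMem_empty _),
    ind2_neg (Set.notMem_empty _), ind2_neg (Set.notMem_empty _)]
  decide

theorem Bdy.trans {Y Y' : Set UE} {f g k : ℤ × ℤ} (h : Bdy Y f g) (h' : Bdy Y' g k) :
    Bdy (symmDiff Y Y') f k := by
  intro x
  rw [parAt_symmDiff, h, h']
  generalize ind2 (x = f) = p1
  generalize ind2 (x = g) = p2
  generalize ind2 (x = k) = p3
  revert p1 p2 p3
  decide

theorem mem_symmDiff_congr {Y Y' : Set UE} {a b : UE} (h : a ∈ Y ↔ b ∈ Y)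
    (h' : a ∈ Y' ↔ b ∈ Y') : a ∈ symmDiff Y Y' ↔ b ∈ symmDiff Y Y' := by
  rw [Set.mem_symmDiff, Set.mem_symmDiff]
  tauto

/-- **Rotation** around the vertex `v` from the face `f` to the face `g`. -/
theorem exists_rot {f g v : ℤ × ℤ} (hf : IsCor f v) (hg : IsCor g v) :
    ∃ Y : Set UE, Bdy Y f g ∧ (∀ a ∈ Y, At v a) ∧
      ∀ h, h ≠ f → h ≠ g → ∀ a b, IsSide h a → IsSide h b → At v a → At v b → (a ∈ Y ↔ b ∈ Y) := by
  have one : ∀ {f g : ℤ × ℤ} {a : UE}, f ≠ g → IsSide f a → IsSide g a → ∀ h, h ≠ f → h ≠ g →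
      ∀ b, IsSide h b → b ∉ ({a} : Set UE) := by
    intro f g a hne h1 h2 h h3 h4 b hb hba
    rw [Set.mem_singleton_iff] at hba
    rw [hba] at hb
    rcases side_two hne h1 h2 hb with h5 | h5
    · exact h3 h5
    · exact h4 h5
  rcases around hf hg with rfl | ⟨hne, a, ha, h1, h2⟩ | ⟨hne, k, a, b, hk1, hk2, ha, hb, hab, h1,
    h2, h3, h4⟩
  · exact ⟨∅, bdy_empty f, fun a ha => absurd ha (Set.notMem_empty a),
      fun _ _ _ a b _ _ _ _ => Iff.rfl⟩
  · refine ⟨{a}, fun h => parAt_side hne h1 h2 h, ?_, ?_⟩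
    · intro b hb
      rw [Set.mem_singleton_iff] at hb
      rw [hb]
      exact ha
    · intro h g1 g2 c d hc hd _ _
      exact ⟨fun h5 => absurd h5 (one hne h1 h2 h g1 g2 c hc),
        fun h5 => absurd h5 (one hne h1 h2 h g1 g2 d hd)⟩
  · refine ⟨symmDiff {a} {b}, Bdy.trans (fun h => parAt_side hk1 h1 h2 h)
      (fun h => parAt_side hk2 h3 h4 h), ?_, ?_⟩
    · intro d hd
      rw [Set.mem_symmDiff, Set.mem_singleton_iff, Set.mem_singleton_iff] at hd
      rcases hd with ⟨rfl, -⟩ | ⟨rfl, -⟩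
      · exact ha
      · exact hb
    · intro h g1 g2 c d hc hd vc vd
      by_cases hhk : h = k
      · subst hhk
        have key : ∀ c, IsSide h c → At v c → c ∈ symmDiff ({a} : Set UE) {b} := by
          intro c hc vc
          rw [Set.mem_symmDiff, Set.mem_singleton_iff, Set.mem_singleton_iff]
          rcases three_sides h2 h3 hc ha hb vc with h5 | h5 | h5
          · exact absurd h5 hab
          · exact Or.inl ⟨h5.symm, fun h6 => hab (by rw [h5, h6])⟩
          · exact Or.inr ⟨h5.symm, fun h6 => hab (by rw [h5, h6])⟩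
        exact ⟨fun _ => key d hd vd, fun _ => key c hc vc⟩
      · have key : ∀ c, IsSide h c → c ∉ symmDiff ({a} : Set UE) {b} := by
          intro c hc hc'
          rw [Set.mem_symmDiff] at hc'
          rcases hc' with ⟨h5, -⟩ | ⟨h5, -⟩
          · exact one hk1 h1 h2 h g1 hhk c hc h5
          · exact one hk2 h3 h4 h hhk g2 c hc h5
        exact ⟨fun h5 => absurd h5 (key c hc), fun h5 => absurd h5 (key d hd)⟩

/-- The face of a bond. -/
theorem bond_face {ω : Cfg} {k p q : ℤ × ℤ} (hb : Bond ω {k} p q) :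
    IsCor k p ∧ IsCor k q ∧ Cl ω (par p) k := by
  obtain ⟨x, y, hk, hb'⟩ := hb
  rw [Set.mem_singleton_iff] at hk
  subst hk
  unfold Cl parD IsCor par
  rcases hb' with ⟨h0, ⟨rfl, rfl⟩ | ⟨rfl, rfl⟩⟩ | ⟨h0, ⟨rfl, rfl⟩ | ⟨rfl, rfl⟩⟩ <;>
    simp only [h0] <;> refine ⟨by simp, by simp, ?_⟩ <;>
    first
    | (symm; rw [Bool.not_eq_true', decide_eq_false_iff_not]; omega)
    | (symm; rw [Bool.not_eq_false', decide_eq_true_iff]; omega)

/-- **Closing along bonds** of colour `c` in faces of `F` from the vertex `v` to the vertex `v'`. -/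
theorem exists_close {ω : Cfg} {F : Set (ℤ × ℤ)} {c : ℤ} {v v' : ℤ × ℤ}
    (h : Conn ω F v v') (hv : par v = c) {f : ℤ × ℤ} (hf : IsCor f v) :
    ∀ g, IsCor g v' → ∃ Y : Set UE, Bdy Y f g ∧ (∀ a ∈ Y, Conn ω F v (en c a)) ∧
      ∀ h, h ≠ f → (h ∈ F → ¬ Cl ω c h) → ∀ a b, IsSide h a → IsSide h b → en c a = en c b →
        (h = g → en c a ≠ v') → (a ∈ Y ↔ b ∈ Y) := by
  -- the part of one rotation
  have rot : ∀ {u f g : ℤ × ℤ}, par u = c → IsCor f u → IsCor g u → ∃ Y : Set UE, Bdy Y f g ∧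
      (∀ a ∈ Y, en c a = u) ∧ ∀ h, h ≠ f → ∀ a b, IsSide h a → IsSide h b → en c a = en c b →
        (h = g → en c a ≠ u) → (a ∈ Y ↔ b ∈ Y) := by
    intro u f g hu hf hg
    obtain ⟨Y, h1, h2, h3⟩ := exists_rot hf hg
    refine ⟨Y, h1, fun a ha => en_at hu (h2 a ha), ?_⟩
    intro h h4 a b ha hb hab hg'
    by_cases hau : en c a = u
    · have hbu : en c b = u := hab ▸ hau
      exact h3 h h4 (fun h5 => hg' h5 hau) a b ha hb (hau ▸ at_en c a) (hbu ▸ at_en c b)
    · exact ⟨fun h5 => absurd (en_at hu (h2 a h5)) hau,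
        fun h5 => absurd (hab.trans (en_at hu (h2 b h5))) hau⟩
  induction h with
  | refl =>
    intro g hg
    obtain ⟨Y, h1, h2, h3⟩ := rot hv hf hg
    exact ⟨Y, h1, fun a ha => by rw [h2 a ha]; exact Relation.ReflTransGen.refl,
      fun h h4 _ a b ha hb hab h5 => h3 h h4 a b ha hb hab h5⟩
  | @tail p q hvp hb ih =>
    intro g hg
    obtain ⟨k, hkF, hbk, -, -⟩ := hb.exists_face
    have hpp : par p = c := by rw [← hv]; exact (Conn.par_eq hvp).symm
    have hpq : par q = c := by rw [← hbk.par_eq]; exact hpp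
    have hck : IsCor k p ∧ IsCor k q ∧ Cl ω c k := by
      have := bond_face hbk
      rwa [hpp] at this
    obtain ⟨Y₁, g1, g2, g3⟩ := ih k hck.1
    obtain ⟨Y₂, k1, k2, k3⟩ := rot hpq hck.2.1 hg
    refine ⟨symmDiff Y₁ Y₂, g1.trans k1, ?_, ?_⟩
    · intro a ha
      rw [Set.mem_symmDiff] at ha
      rcases ha with ⟨ha, -⟩ | ⟨ha, -⟩
      · exact g2 a ha
      · rw [k2 a ha]
        exact Relation.ReflTransGen.tail hvp hb
    · intro h h4 h5 a b ha hb' hab h6
      have hhk : h ≠ k := by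
        rintro rfl
        exact h5 hkF hck.2.2
      exact mem_symmDiff_congr (g3 h h4 h5 a b ha hb' hab fun h7 => absurd h7 hhk)
        (k3 h hhk a b ha hb' hab h6)

/-! ### Bonds and matched sides -/

section Loops

variable {ω : Cfg} {e : UE} {U Z D : Set (ℤ × ℤ)} {M : Set UE} {Φ Ψ : ℤ × ℤ → ZMod 2}
  {n i j s t : ℕ} {c κ : ℤ} {p q v x y k : ℤ × ℤ} {a b : UE}

/-- The two pairs of matched sides of a bond. -/
theorem bond_sides_ne {f : ℤ × ℤ} (hb : Bond ω {f} p q) (u : ℤ × ℤ) :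
    ∃ a b w, w ≠ u ∧ Mt ω f a b ∧ Joins a p w ∧ Joins b q w := by
  have key : ∃ a b a' b' w w', w ≠ w' ∧ Mt ω f a b ∧ Mt ω f a' b' ∧ Joins a p w ∧ Joins b q w ∧
      Joins a' p w' ∧ Joins b' q w' := by
    obtain ⟨x, y, hf, hb⟩ := hb
    rw [Set.mem_singleton_iff] at hf
    subst hf
    have n1 : ((x + 1, y) : ℤ × ℤ) ≠ (x, y + 1) := by rw [Ne, Prod.mk.injEq]; omega
    have n2 : ((x, y) : ℤ × ℤ) ≠ (x + 1, y + 1) := by rw [Ne, Prod.mk.injEq]; omega
    rcases hb with ⟨h0, ⟨rfl, rfl⟩ | ⟨rfl, rfl⟩⟩ | ⟨h0, ⟨rfl, rfl⟩ | ⟨rfl, rfl⟩⟩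
    · exact ⟨bo (x, y), ri (x, y), le' (x, y), to' (x, y), (x + 1, y), (x, y + 1), n1,
        by simp [Mt, h0], by simp [Mt, h0], by simp [Joins, bo, ua, ub],
        by simp [Joins, ri, ua, ub], by simp [Joins, le', ua, ub], by simp [Joins, to', ua, ub]⟩
    · exact ⟨ri (x, y), bo (x, y), to' (x, y), le' (x, y), (x + 1, y), (x, y + 1), n1,
        by simp [Mt, h0], by simp [Mt, h0], by simp [Joins, ri, ua, ub],
        by simp [Joins, bo, ua, ub], by simp [Joins, to', ua, ub], by simp [Joins, le', ua, ub]⟩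
    · exact ⟨le' (x, y), bo (x, y), to' (x, y), ri (x, y), (x, y), (x + 1, y + 1), n2,
        by simp [Mt, h0], by simp [Mt, h0], by simp [Joins, le', ua, ub],
        by simp [Joins, bo, ua, ub], by simp [Joins, to', ua, ub], by simp [Joins, ri, ua, ub]⟩
    · exact ⟨bo (x, y), le' (x, y), ri (x, y), to' (x, y), (x, y), (x + 1, y + 1), n2,
        by simp [Mt, h0], by simp [Mt, h0], by simp [Joins, bo, ua, ub],
        by simp [Joins, le', ua, ub], by simp [Joins, ri, ua, ub], by simp [Joins, to', ua, ub]⟩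
  obtain ⟨a, b, a', b', w, w', hw, h1, h2, h3, h4, h5, h6⟩ := key
  by_cases hu : w = u
  · exact ⟨a', b', w', fun h => hw (hu.trans h.symm), h2, h5, h6⟩
  · exact ⟨a, b, w, hu, h1, h3, h4⟩

theorem bond_pot {w : ℤ × ℤ} (hP : IsPot U M Φ) (hk : k ∈ U) (hm : Mt ω k a b) (ja : Joins a p w)
    (jb : Joins b q w) (hab : a ∈ M ↔ b ∈ M) : Φ p = Φ q := by
  have h1 := pot_ind hP ⟨k, hk, hm.left⟩ ja
  have h2 := pot_ind hP ⟨k, hk, hm.right⟩ jb
  rw [ind2_congr hab, ← h2] at h1
  revert h1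
  generalize Φ p = x
  generalize Φ q = y
  generalize Φ w = z
  revert x y z
  decide

theorem joins_en {w : ℤ × ℤ} (ja : Joins a p w) (hp : par p = 1 - c) :
    en c a = w := by
  refine en_joins ja.symm ?_
  have h1 := ja.par_ne
  rcases par_cases p with h2 | h2 <;> rcases par_cases w with h3 | h3 <;> omega

/-- The corners of colour `c` of the frozen faces of colour `c`. -/
def WV (ω : Cfg) (Z : Set (ℤ × ℤ)) (c : ℤ) (v : ℤ × ℤ) : Prop := ∃ f ∈ Z, Cl ω c f ∧ IsCor f v

/-- **The hypothesis on the walls**: each wall is joined to the first unit edge of the strand. -/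
def Wall (ω : Cfg) (e : UE) (Z : Set (ℤ × ℤ)) : Prop :=
  ∀ c : ℤ, (c = 0 ∨ c = 1) → ∀ v, par v = c → WV ω Z c v → Conn ω Z v (en c e)

theorem WV.conn (h : WV ω Z c v) (hv : par v = c) (hc : Conn ω Z v x) : WV ω Z c x := by
  induction hc with
  | refl => exact h
  | tail hvp hb _ =>
    obtain ⟨k, hk, hbk, -, -⟩ := hb.exists_face
    have h1 := bond_face hbk
    have h2 : par _ = par _ := Conn.par_eq hvp
    rw [← h2, hv] at h1
    exact ⟨k, hk, h1.2.2, h1.2.1⟩

theorem cor_en {f : ℤ × ℤ} (h : IsSide f a) : IsCor f (en c a) := by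
  obtain ⟨x, y⟩ := f
  rcases en_or c a with h1 | h1 <;> rw [h1] <;> rcases h with rfl | rfl | rfl | rfl <;>
    simp [IsCor, ua, ub, bo, le', to', ri]

theorem bdy_eq {Y : Set UE} {f g h : ℤ × ℤ} (hn : Nb ω e n) (hij : i ≤ j) (hj : j ≤ n + 1)
    (hY : Bdy Y f g) (hf : fb (pth ω e j) = f) :
    parAt (symmDiff (Gs ω e i j) Y) h = ind2 (h = fb (pth ω e i)) + ind2 (h = g) := by
  rw [parAt_symmDiff, parAt_Gs hn hij hj, hY, hf]
  generalize ind2 (h = fb (pth ω e i)) = p1
  generalize ind2 (h = f) = p2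
  generalize ind2 (h = g) = p3
  revert p1 p2 p3
  decide

/-- **The loop of a touch of colour `κ` in the full plane.** -/
theorem loopP (hκ : κ = 0 ∨ κ = 1) (hn : Nb ω e n) (hW : Wall ω e Z) (hst : s ≤ t) (htn : t < n)
    (hct : Cl ω κ (fa (pth ω e t)))
    (ht : fa (pth ω e t) ∈ Z ∨ ∃ l' < s, fa (pth ω e l') = fa (pth ω e t)) :
    ∃ i ≤ s, ∃ (M : Set UE) (Φ : ℤ × ℤ → ZMod 2), IsPot Set.univ M Φ ∧
      (∀ a, ¬ WV ω Z κ (en κ a) → (a ∈ M ↔ a ∈ Gs ω e i (t + 1))) ∧
      ∀ p q, Conn ω Set.univ p q → par p = 1 - κ → Φ p = Φ q := by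
  have hκ' := zc hκ
  have e1 := fb_pth_succ ω e t
  rcases ht with ht | ⟨l', h1, h2⟩
  · -- a wall
    have hwv : WV ω Z κ (en κ (pth ω e t)) := ⟨_, ht, hct, cor_en (isSide_fa _)⟩
    have hcon := hW κ hκ _ (par_en hκ _) hwv
    obtain ⟨Y, g1, g2, g3⟩ := exists_close hcon (par_en hκ _) (cor_en (isSide_fa _)) (fb e)
      (cor_en (isSide_fb e))
    obtain ⟨Φ, hP⟩ := exists_potU (M := symmDiff (Gs ω e 0 (t + 1)) Y) (by
      intro h
      rw [evenAt_iff, bdy_eq hn (Nat.zero_le _) (by omega) g1 e1, pth_zero, z2_add_self])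
    refine ⟨0, Nat.zero_le _, _, Φ, hP, ?_, ?_⟩
    · intro a ha
      rw [Set.mem_symmDiff]
      have : a ∉ Y := fun h => ha (hwv.conn (par_en hκ _) (g2 a h))
      tauto
    · intro p q hpq hp
      induction hpq with
      | refl => rfl
      | tail hvp hb ih =>
        rw [ih]
        obtain ⟨k, -, hbk, -, -⟩ := hb.exists_face
        have h3 := bond_face hbk
        have h4 := Conn.par_eq hvp
        rw [← h4, hp] at h3
        obtain ⟨a, b, w, hw, hm, ja, jb⟩ := bond_sides_ne hbk (en κ e)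
        have ea : en κ a = w := joins_en ja (by rw [← h4]; exact hp)
        have eb : en κ b = w := joins_en jb (by rw [← hbk.par_eq, ← h4]; exact hp)
        refine bond_pot hP (Set.mem_univ k) hm ja jb (mem_symmDiff_congr (Gs_mt_iff hm ?_ ?_) ?_)
        · rintro ⟨-, h5 | h5⟩
          · exact hw (by rw [← ea, h5, pth_zero])
          · exact hw (by rw [← eb, h5, pth_zero])
        · rintro ⟨h5, -⟩
          rw [e1] at h5
          rw [h5] at h3
          exact cl_not hκ hct h3.2.2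
        · refine g3 k ?_ (fun _ h5 => cl_not hκ h5 h3.2.2) a b hm.left hm.right (ea.trans eb.symm) ?_
          · rintro rfl
            exact cl_not hκ hct h3.2.2
          · intro _ h5
            exact hw (by rw [← ea, h5])
  · -- a revisit
    have e2 := fb_pth_succ ω e l'
    obtain ⟨Φ, hP⟩ := exists_potU (M := Gs ω e (l' + 1) (t + 1)) (by
      intro h
      rw [evenAt_iff, parAt_Gs hn (by omega) (by omega), e1, e2, h2, z2_add_self])
    refine ⟨l' + 1, h1, _, Φ, hP, fun _ _ => Iff.rfl, ?_⟩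
    intro p q hpq hp
    induction hpq with
    | refl => rfl
    | tail hvp hb ih =>
      rw [ih]
      obtain ⟨k, -, hbk, -, -⟩ := hb.exists_face
      have h3 := bond_face hbk
      have h4 := Conn.par_eq hvp
      rw [← h4, hp] at h3
      obtain ⟨a, b, w, hm, ja, jb⟩ := bond_sides hbk
      refine bond_pot hP (Set.mem_univ k) hm ja jb (Gs_mt_iff hm ?_ ?_)
      · rintro ⟨h5, -⟩
        rw [e2, h2] at h5
        rw [h5] at h3
        exact cl_not hκ hct h3.2.2
      · rintro ⟨h5, -⟩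
        rw [e1] at h5
        rw [h5] at h3
        exact cl_not hκ hct h3.2.2

/-- A path of bonds in `Z` leaves the box `D` or stays in it. -/
theorem exit_conn (D : Set (ℤ × ℤ)) (h : Conn ω Z v k) :
    (∃ p g, Conn ω (Z ∩ D) v p ∧ g ∈ Z ∧ g ∉ D ∧ IsCor g p) ∨ Conn ω (Z ∩ D) v k := by
  induction h with
  | refl => exact Or.inr Relation.ReflTransGen.refl
  | tail _ hb ih =>
    rcases ih with ih | ih
    · exact Or.inl ih
    · obtain ⟨g, hg, hbg, h1, -⟩ := hb.exists_face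
      by_cases hgD : g ∈ D
      · exact Or.inr (Relation.ReflTransGen.tail ih (bond_of_single ⟨hg, hgD⟩ hbg))
      · exact Or.inl ⟨_, g, ih, hg, hgD, h1⟩

theorem conn_last (h : Conn ω D v k) : v = k ∨ ∃ f ∈ D, IsCor f k := by
  rcases Relation.ReflTransGen.cases_tail h with h1 | ⟨p, -, hb⟩
  · exact Or.inl h1.symm
  · obtain ⟨g, hg, -, -, h2⟩ := hb.exists_face
    exact Or.inr ⟨g, hg, h2⟩

/-- A bond of colour `c` in the face crossed at the time `t` is joined to the strand. -/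
theorem bond_touch (hc : c = 0 ∨ c = 1) (hin : fa (pth ω e t) ∈ D) (hb : Bond ω {fa (pth ω e t)} p q)
    (hp : par p = c) : Conn ω D p (en c (pth ω e t)) := by
  have h1 := (bond_face hb).2.2
  rw [hp] at h1
  have hmt := mt_nx ω (pth ω e t)
  rcases mt_cl hc hmt with ⟨-, -, h2⟩ | ⟨h2, -⟩
  · exact Conn.mono (Set.singleton_subset_iff.2 hin) (bond_unique hb h2)
  · exact absurd h2 (cl_not hc h1)

/-- **The loop of a touch of colour `κ` in the box `D`.** The strand enters the box at the time `a`; the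
walls leave the box. -/
theorem loopQ (hκ : κ = 0 ∨ κ = 1) (hn : Nb ω e n) (hW : Wall ω e Z) (hD : HasPot D)
    (hst0 : ∀ f ∈ D, ¬ IsCor f (en κ e)) {a : ℕ} (has : a ≤ s) (ha : fb (pth ω e a) ∉ D)
    (hst : s ≤ t) (htn : t < n) (hin : fa (pth ω e t) ∈ D) (hct : Cl ω κ (fa (pth ω e t)))
    (ht : fa (pth ω e t) ∈ Z ∨ ∃ l' < s, fa (pth ω e l') = fa (pth ω e t)) :
    ∃ i ≤ s, ∃ (Y : Set UE) (Φ : ℤ × ℤ → ZMod 2), IsPot D (symmDiff (Gs ω e i (t + 1)) Y) Φ ∧
      (∀ b ∈ Y, WV ω Z κ (en κ b) ∧ Conn ω D (en κ (pth ω e t)) (en κ b)) ∧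
      (∀ h, h ∉ Z → ∀ a b, IsSide h a → IsSide h b → en κ a = en κ b → (a ∈ Y ↔ b ∈ Y)) ∧
      (∀ p q, Conn ω D p q → par p = 1 - κ → Φ p = Φ q) ∧
      ∀ p q, Conn ω D p q → par p = κ → ¬ Conn ω D p (en κ (pth ω e t)) → Φ p = Φ q := by
  have e1 := fb_pth_succ ω e t
  -- the common part: a start which is not in the box or the position of the touch
  have main : ∀ (i : ℕ) (Y : Set UE) (Φ : ℤ × ℤ → ZMod 2),
      (fb (pth ω e i) ∉ D ∨ fb (pth ω e i) = fa (pth ω e t)) →
      IsPot D (symmDiff (Gs ω e i (t + 1)) Y) Φ →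
      (∀ b ∈ Y, WV ω Z κ (en κ b) ∧ Conn ω D (en κ (pth ω e t)) (en κ b)) →
      (∀ h ∈ D, ¬ Cl ω κ h → ∀ a b, IsSide h a → IsSide h b → en κ a = en κ b →
        (a ∈ Y ↔ b ∈ Y)) →
      (∀ p q, Conn ω D p q → par p = 1 - κ → Φ p = Φ q) ∧
      ∀ p q, Conn ω D p q → par p = κ → ¬ Conn ω D p (en κ (pth ω e t)) → Φ p = Φ q := by
    intro i Y Φ hi hP hY1 hY2
    constructor
    · intro p q hpq hp
      induction hpq with
      | refl => rfl
      | tail hvp hb ih =>
        rw [ih]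
        obtain ⟨k, hkD, hbk, -, -⟩ := hb.exists_face
        have h3 := bond_face hbk
        have h4 := Conn.par_eq hvp
        rw [← h4, hp] at h3
        have h5 : ¬ Cl ω κ k := fun h6 => cl_not hκ h6 h3.2.2
        obtain ⟨a, b, w, hm, ja, jb⟩ := bond_sides hbk
        have ea : en κ a = w := joins_en ja (by rw [← h4]; exact hp)
        have eb : en κ b = w := joins_en jb (by rw [← hbk.par_eq, ← h4]; exact hp)
        refine bond_pot hP hkD hm ja jb (mem_symmDiff_congr (Gs_mt_iff hm ?_ ?_)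
          (hY2 k hkD h5 a b hm.left hm.right (ea.trans eb.symm)))
        · rintro ⟨h6, -⟩
          rcases hi with hi | hi
          · exact hi (by rw [← h6]; exact hkD)
          · exact h5 (by rw [h6, hi]; exact hct)
        · rintro ⟨h6, -⟩
          rw [e1] at h6
          exact h5 (by rw [h6]; exact hct)
    · intro p q hpq hp hno
      induction hpq with
      | refl => rfl
      | @tail p' q' hvp hb ih =>
        rw [ih]
        obtain ⟨k, hkD, hbk, -, -⟩ := hb.exists_face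
        have h4 := Conn.par_eq hvp
        have hp' : par p' = κ := by rw [← h4, hp]
        have hkt : k ≠ fa (pth ω e t) := by
          rintro rfl
          exact hno (Relation.ReflTransGen.trans hvp (bond_touch hκ hin hbk hp'))
        obtain ⟨a, b, w, hm, ja, jb⟩ := bond_sides hbk
        have ea : en κ a = p' := en_joins ja hp'
        have eb : en κ b = q' := en_joins jb (by rw [← hbk.par_eq]; exact hp')
        have na : a ∉ Y := fun h => hno (Relation.ReflTransGen.trans hvp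
          (conn_symm' (by rw [← ea]; exact (hY1 a h).2)))
        have nb : b ∉ Y := fun h => hno (Relation.ReflTransGen.trans
          (Relation.ReflTransGen.tail hvp hb) (conn_symm' (by rw [← eb]; exact (hY1 b h).2)))
        refine bond_pot hP hkD hm ja jb (mem_symmDiff_congr (Gs_mt_iff hm ?_ ?_)
          ⟨fun h => absurd h na, fun h => absurd h nb⟩)
        · rintro ⟨h6, -⟩
          rcases hi with hi | hi
          · exact hi (by rw [← h6]; exact hkD)
          · exact hkt (h6.trans hi)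
        · rintro ⟨h6, -⟩
          rw [e1] at h6
          exact hkt h6
  rcases ht with ht | ⟨l', h1, h2⟩
  · -- a wall
    have hwv : WV ω Z κ (en κ (pth ω e t)) := ⟨_, ht, hct, cor_en (isSide_fa _)⟩
    have hcon := hW κ hκ _ (par_en hκ _) hwv
    obtain ⟨p, g, g1, g2, g3, g4⟩ : ∃ p g, Conn ω (Z ∩ D) (en κ (pth ω e t)) p ∧ g ∈ Z ∧ g ∉ D ∧
        IsCor g p := by
      rcases exit_conn D hcon with h | h
      · exact h
      · rcases conn_last h with h3 | ⟨f, h3, h4⟩
        · exact absurd (h3 ▸ cor_en (isSide_fa _)) (hst0 _ hin)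
        · exact absurd h4 (hst0 f h3.2)
    obtain ⟨Y, k1, k2, k3⟩ := exists_close g1 (par_en hκ _) (cor_en (isSide_fa _)) g g4
    obtain ⟨Φ, hP⟩ := hD (symmDiff (Gs ω e a (t + 1)) Y) (by
      intro h hh
      rw [evenAt_iff, bdy_eq hn (by omega) (by omega) k1 e1, ind2_neg, ind2_neg, add_zero]
      · rintro rfl
        exact g3 hh
      · rintro rfl
        exact ha hh)
    have hY1 : ∀ b ∈ Y, WV ω Z κ (en κ b) ∧ Conn ω D (en κ (pth ω e t)) (en κ b) := by
      intro b hb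
      exact ⟨hwv.conn (par_en hκ _) (Conn.mono Set.inter_subset_left (k2 b hb)),
        Conn.mono Set.inter_subset_right (k2 b hb)⟩
    refine ⟨a, has, Y, Φ, hP, hY1, ?_, main a Y Φ (Or.inl ha) hP hY1 ?_⟩
    · intro h hh a b ha hb hab
      refine k3 h (fun h5 => hh (by rw [h5]; exact ht)) (fun h5 => absurd h5.1 hh) a b ha hb hab ?_
      intro h5
      exact absurd (by rw [h5]; exact g2) hh
    · intro h hh hcl a b ha hb hab
      refine k3 h (fun h5 => hcl (by rw [h5]; exact hct)) (fun _ => hcl) a b ha hb hab ?_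
      intro h5
      exact absurd (by rw [← h5]; exact hh) g3
  · -- a revisit
    have e2 := fb_pth_succ ω e l'
    obtain ⟨Φ, hP⟩ := hD (symmDiff (Gs ω e (l' + 1) (t + 1)) ∅) (by
      intro h hh
      rw [evenAt_iff, bdy_eq hn (by omega) (by omega) (bdy_empty _) e1, e2, h2, z2_add_self])
    refine ⟨l' + 1, h1, ∅, Φ, hP, fun b hb => absurd hb (Set.notMem_empty b),
      fun _ _ a b _ _ _ => Iff.rfl, main (l' + 1) ∅ Φ (Or.inr (by rw [e2, h2])) hP
      (fun b hb => absurd hb (Set.notMem_empty b)) fun _ _ _ a b _ _ _ => Iff.rfl⟩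

theorem pot_mono {U D : Set (ℤ × ℤ)} {M : Set UE} {Φ : ℤ × ℤ → ZMod 2} (h : IsPot U M Φ)
    (hD : D ⊆ U) : IsPot D M Φ := fun f hf => h f (hD hf)

theorem mem_sd {S Y : Set UE} (h : a ∉ Y) : a ∈ symmDiff S Y ↔ a ∈ S := by
  rw [Set.mem_symmDiff]
  exact ⟨fun h1 => h1.elim (fun h2 => h2.1) fun h2 => absurd h2.1 h, fun h1 => Or.inl ⟨h1, h⟩⟩

theorem ind2_sd (S Y : Set UE) (a : UE) :
    ind2 (a ∈ symmDiff S Y) = ind2 (a ∈ S) + ind2 (a ∈ Y) := by
  by_cases h1 : a ∈ S <;> by_cases h2 : a ∈ Y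
  · rw [ind2_pos h1, ind2_pos h2, ind2_neg (by rw [Set.mem_symmDiff]; tauto)]
    decide
  · rw [ind2_pos h1, ind2_neg h2, ind2_pos (by rw [Set.mem_symmDiff]; tauto)]
    decide
  · rw [ind2_neg h1, ind2_pos h2, ind2_pos (by rw [Set.mem_symmDiff]; tauto)]
    decide
  · rw [ind2_neg h1, ind2_neg h2, ind2_neg (by rw [Set.mem_symmDiff]; tauto)]
    decide

theorem ind2_two {S Y : Set UE} (hp : a ∈ S) (h : a ∈ Y ↔ b ∈ Y) :
    ind2 (a ∈ symmDiff S Y) + ind2 (b ∈ symmDiff S Y) = 1 + ind2 (b ∈ S) := by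
  rw [ind2_sd, ind2_sd, ind2_pos hp, ind2_congr h]
  generalize ind2 (b ∈ S) = x
  generalize ind2 (b ∈ Y) = y
  revert x y
  decide

/-- **The deterministic core of the near miss lemma, frozen form.** The strand is inside of the box `D`
between the times `a` and `b` (one visit). At the time `s` there is a crosscut `z0, E` from the end
`en (1 - κ) (pth ω e s)` of the tip to a vertex `y` of colour `1 - κ`; `z0` is a side of the next face, which
is not frozen; the crosscut is not met between the times `kk` and `t`; `t' ≤ t` are the times of touches of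
the colours `1 - κ` and `κ` (frozen faces or faces crossed before the time `s`). Then there is no gate `E'`
inside of the box from an end `en κ (pth ω e s')`, `s ≤ s'`, of the same visit to a vertex `x` which is
joined to `y` inside of the box, which is not crossed up to the time `b`. -/
theorem near_frozen (hD : HasPot D) (hκ : κ = 0 ∨ κ = 1) (hn : Nb ω e n) (hW : Wall ω e Z)
    (hst0 : ∀ f ∈ D, ¬ IsCor f (en 0 e) ∧ ¬ IsCor f (en 1 e)) {a b s' kk t' : ℕ} (hbn : b ≤ n)
    (ha : fb (pth ω e a) ∉ D) (hb : fb (pth ω e b) ∉ D)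
    (hin : ∀ l, a ≤ l → l + 1 < b → fa (pth ω e l) ∈ D) (has : a ≤ s) (hsk : s ≤ kk)
    (hkt' : kk ≤ t') (ht't : t' ≤ t) (htb : t + 1 < b)
    (hct' : Cl ω (1 - κ) (fa (pth ω e t')))
    (ht' : fa (pth ω e t') ∈ Z ∨ ∃ l' < s, fa (pth ω e l') = fa (pth ω e t'))
    (hct : Cl ω κ (fa (pth ω e t)))
    (ht : fa (pth ω e t) ∈ Z ∨ ∃ l' < s, fa (pth ω e l') = fa (pth ω e t))
    (hf : fa (pth ω e s) ∉ Z) {z0 : UE} (hz0 : IsSide (fa (pth ω e s)) z0)
    (hz0e : en (1 - κ) z0 = en (1 - κ) (pth ω e s)) {E : Set UE} (hE : E ⊆ SU D)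
    (hE1 : ∀ l < s, pth ω e l ∉ E ∧ pth ω e l ≠ z0)
    (hE2 : ∀ l, kk < l → l ≤ t → pth ω e l ∉ E ∧ pth ω e l ≠ z0)
    (hEκ : ∀ a ∈ E, ¬ WV ω Z κ (en κ a)) (hzκ : ¬ WV ω Z κ (en κ z0))
    (hEκ' : ∀ a ∈ E, en (1 - κ) a = y ∨ ¬ WV ω Z (1 - κ) (en (1 - κ) a))
    (hz : Pth E (en κ z0) y) (hss : s ≤ s') (hs'b : s' < b) {E' : Set UE} (hE' : E' ⊆ SU D)
    (hEl : ∀ l < b, pth ω e l ∉ E') (hX : ¬ WV ω Z κ (en κ (pth ω e s')))
    (hE'κ : ∀ a ∈ E', ¬ WV ω Z κ (en κ a))
    (hE'κ' : ∀ a ∈ E', en (1 - κ) a = x ∨ ¬ WV ω Z (1 - κ) (en (1 - κ) a))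
    (hg : Pth E' (en κ (pth ω e s')) x) (hyx : Conn ω D y x)
    (hx : Conn ω Set.univ x (en (1 - κ) e)) : False := by
  have hκ' := zc hκ
  have hc0 : ∀ c : ℤ, (c = 0 ∨ c = 1) → ∀ f ∈ D, ¬ IsCor f (en c e) := by
    intro c hc f hf'
    rcases hc with rfl | rfl
    · exact (hst0 f hf').1
    · exact (hst0 f hf').2
  have hpx : par x = 1 - κ := by
    rw [Conn.par_eq hx]
    exact par_en hκ' e
  have hpy : par y = 1 - κ := by
    rw [Conn.par_eq hyx]
    exact hpx
  have hstr : ∀ l, Conn ω Set.univ (en (1 - κ) (pth ω e l)) (en (1 - κ) e) := by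
    intro l
    refine conn_symm' ?_
    have := conn_box (ω := ω) (e := e) (D := Set.univ) hκ' (Nat.zero_le l)
      fun m _ _ => Set.mem_univ _
    rwa [pth_zero] at this
  have hS' : pth ω e s' ∈ SU D := by
    rcases Nat.lt_or_ge (s' + 1) b with h | h
    · exact SU_of_fa (hin s' (by omega) h)
    · obtain ⟨m, rfl⟩ : ∃ m, s' = m + 1 := ⟨s' - 1, by omega⟩
      exact SU_succ (hin m (by omega) (by omega))
  -- the leg is not joined to the touch of its colour if the gate is born after the touch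
  have hno : ∀ t₀, a ≤ t₀ → t₀ ≤ s' → ¬ Conn ω D x (en (1 - κ) (pth ω e t₀)) := by
    intro t₀ h1 h2 hc
    refine visit hD hκ hn hbn ha hb (s := s') (by omega) hs'b hS' hE' hEl hg ?_
    refine Relation.ReflTransGen.trans hc ?_
    exact conn_box hκ' h2 fun l h3 h4 => hin l (by omega) (by omega)
  -- the loop of the touch of colour `κ`
  obtain ⟨i, hi, M, Φ, hP, hM, hΦ⟩ := loopP hκ hn hW (by omega : s ≤ t) (by omega : t < n) hct ht
  rcases Nat.lt_or_ge t s' with h0 | h0
  swap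
  · -- the gate is born before the touch of colour `κ`
    have g1 : Φ (en κ (pth ω e s')) + Φ (en (1 - κ) (pth ω e s')) = 1 := by
      rw [pot_end hP (by obtain ⟨f, -, h⟩ := hS'; exact ⟨f, Set.mem_univ f, h⟩) hκ,
        ind2_pos ((hM _ hX).2 ⟨s', by omega, by omega, rfl⟩)]
    have g2 : Φ (en κ (pth ω e s')) = Φ x := by
      refine hg.pot_eq hP (fun a _ => by
        obtain ⟨f, -, h⟩ := hE' ‹_›; exact ⟨f, Set.mem_univ f, h⟩) ?_
      intro a ha' haM
      obtain ⟨l, -, h2, h3⟩ := (hM a (hE'κ a ha')).1 haM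
      exact hEl l (by omega) (by rw [h3]; exact ha')
    have g3 : Φ x = Φ (en (1 - κ) (pth ω e s')) :=
      hΦ _ _ (Relation.ReflTransGen.trans hx (conn_symm' (hstr s'))) hpx
    rw [g2, g3, z2_add_self] at g1
    exact absurd g1 (by decide)
  -- the loop of the touch of colour `1 - κ` in the box
  obtain ⟨i', hi', Y, Ψ, hQ, hY1, hY2, hΨ1, hΨ2⟩ := loopQ hκ' hn hW hD (hc0 _ hκ') has ha
    (by omega : s ≤ t') (by omega : t' < n) (hin t' (by omega) (by omega)) hct' ht'
  have hnx := hno t' (by omega) (by omega)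
  have hny : ¬ Conn ω D y (en (1 - κ) (pth ω e t')) := fun h =>
    hnx (Relation.ReflTransGen.trans (conn_symm' hyx) h)
  have hPD : IsPot D M Φ := pot_mono hP (Set.subset_univ D)
  -- the crossings of the crosscut
  have cross : ∀ z : UE, (∀ l < s, pth ω e l ≠ z) → (∀ l, kk < l → l ≤ t → pth ω e l ≠ z) →
      (z ∈ Gs ω e i (t + 1) ↔ z ∈ Gs ω e i' (t' + 1)) := by
    intro z h1 h2
    constructor
    · rintro ⟨l, g1, g2, rfl⟩
      have g3 : s ≤ l := by
        by_contra h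
        exact h1 l (by omega) rfl
      have g4 : l ≤ kk := by
        by_contra h
        exact h2 l (by omega) (by omega) rfl
      exact ⟨l, by omega, by omega, rfl⟩
    · rintro ⟨l, g1, g2, rfl⟩
      have g3 : s ≤ l := by
        by_contra h
        exact h1 l (by omega) rfl
      have g4 : l ≤ kk := by
        by_contra h
        exact h2 l (by omega) (by omega) rfl
      exact ⟨l, by omega, by omega, rfl⟩
  have hzM : z0 ∈ Gs ω e i (t + 1) ↔ z0 ∈ Gs ω e i' (t' + 1) :=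
    cross z0 (fun l h => (hE1 l h).2) fun l h h' => (hE2 l h h').2
  have hsD : fa (pth ω e s) ∈ D := hin s has (by omega)
  have hzD : z0 ∈ SU D := ⟨_, hsD, hz0⟩
  -- along the crosscut
  have h1 : Φ (en κ z0) + Φ y = Ψ (en κ z0) + Ψ y := by
    refine hz.pot_add hPD hQ hE fun a ha' => ?_
    have hna : a ∉ Y := by
      intro haY
      rcases hEκ' a ha' with h2 | h2
      · exact hny (conn_symm' (by rw [← h2]; exact (hY1 a haY).2))
      · exact h2 (hY1 a haY).1
    exact (hM a (hEκ a ha')).trans ((cross a (fun l h h' => (hE1 l h).1 (by rw [h']; exact ha'))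
      (fun l h h' h'' => (hE2 l h h').1 (by rw [h'']; exact ha'))).trans (mem_sd hna).symm)
  -- the first loop
  have h2 : Φ (en κ z0) + Φ y = ind2 (z0 ∈ Gs ω e i' (t' + 1)) := by
    have g1 : Φ y = Φ (en (1 - κ) z0) := by
      rw [hz0e]
      refine hΦ _ _ (Relation.ReflTransGen.trans (Conn.mono (Set.subset_univ D) hyx)
        (Relation.ReflTransGen.trans hx (conn_symm' (hstr s)))) hpy
    rw [g1, pot_end hPD hzD hκ, ind2_congr ((hM z0 hzκ).trans hzM)]
  -- the second loop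
  have h3 : Ψ y = Ψ x := hΨ2 _ _ hyx hpy hny
  have h4 : Ψ (en κ (pth ω e s')) = Ψ x := by
    refine hg.pot_eq hQ hE' ?_
    intro a ha' haM
    rcases haM with ⟨⟨l, -, h5, h6⟩, -⟩ | ⟨haY, -⟩
    · exact hEl l (by omega) (by rw [h6]; exact ha')
    · rcases hE'κ' a ha' with h5 | h5
      · exact hnx (conn_symm' (by rw [← h5]; exact (hY1 a haY).2))
      · exact h5 (hY1 a haY).1
  have h5 : Ψ (en κ (pth ω e s)) = Ψ (en κ (pth ω e s')) := by
    refine hΨ1 _ _ (conn_box hκ hss fun l g1 g2 => hin l (by omega) (by omega)) ?_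
    rw [sub_sub']
    exact par_en hκ _
  have h6 : Ψ (en κ (pth ω e s)) + Ψ (en (1 - κ) (pth ω e s)) =
      ind2 (pth ω e s ∈ symmDiff (Gs ω e i' (t' + 1)) Y) := pot_end hQ (SU_of_fa hsD) hκ
  have h7 : Ψ (en κ z0) + Ψ (en (1 - κ) z0) = ind2 (z0 ∈ symmDiff (Gs ω e i' (t' + 1)) Y) :=
    pot_end hQ hzD hκ
  have h8 : pth ω e s ∈ Gs ω e i' (t' + 1) := ⟨s, hi', by omega, rfl⟩
  have h9 : pth ω e s ∈ Y ↔ z0 ∈ Y := hY2 _ hf _ _ (isSide_fa _) hz0 hz0e.symm
  rw [h2, h3, ← h4, ← h5] at h1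
  rw [hz0e] at h7
  have h10 := ind2_two h8 h9
  rw [← h6, ← h7] at h10
  revert h1 h10
  generalize Ψ (en κ (pth ω e s)) = x1
  generalize Ψ (en (1 - κ) (pth ω e s)) = x2
  generalize Ψ (en κ z0) = x3
  generalize ind2 (z0 ∈ Gs ω e i' (t' + 1)) = x4
  revert x1 x2 x3 x4
  decide

end Loops

end Pool.Agent.SixB.NearCut
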