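import Pool.Agent.Lib.SixB.S8Fresh

/-!
# Step 8, near miss: one trial

A step of an exploration with walls is either a crossing of a face or a pivot: a reflection on a wall
of colour `1 - c` pivots around a vertex of colour `c`. If a passage of the exploration from the box of
radius `r` around `z` to distance `R` meets only walls of one colour `1 - c`, then the ends of colour
`c` of its unit edges are joined by bonds in the crossed faces (`psg_conn`, `psg_fArm`). If the faces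
are fresh (outside of a stopping set) this has conditional probability at most `θ ^ n` for
`R = 4 ^ n (r + 1)` (`pr_psg_stop`), and at most `C (r / R) ^ α` (`pr_psg_pow`).
-/

set_option autoImplicit false

namespace Pool.Agent.SixB

open Finset Pool.Agent.Perc Pool.Agent.PercT

variable {ω : Cfg} {D D' : Set (ℤ × ℤ)} {c : ℤ} {e a a' b : UE}

/-- A pivot around a vertex of parity `c`: two unit edges with a common end of parity `c`. -/
def Piv (c : ℤ) (a a' : UE) : Prop :=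
  ∃ v, par v = c ∧ (v = ua a ∨ v = ub a) ∧ (v = ua a' ∨ v = ub a')

/-- A step: a crossing of a face of `D`, or a pivot around a vertex of parity `c`. -/
def PStp (ω : Cfg) (D : Set (ℤ × ℤ)) (c : ℤ) (a a' : UE) : Prop :=
  (∃ f ∈ D, Mt ω f a a') ∨ Piv c a a'

/-- A passage: a sequence of steps. -/
def Psg (ω : Cfg) (D : Set (ℤ × ℤ)) (c : ℤ) (e a : UE) : Prop :=
  Relation.ReflTransGen (PStp ω D c) e a

/-- The end of parity `c` of a unit edge. -/
noncomputable def en (c : ℤ) (a : UE) : ℤ × ℤ := by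
  classical exact if par (ua a) = c then ua a else ub a

theorem en_or (c : ℤ) (a : UE) : en c a = ua a ∨ en c a = ub a := by
  unfold en
  split_ifs
  · exact Or.inl rfl
  · exact Or.inr rfl

theorem par_en (hc : c = 0 ∨ c = 1) (a : UE) : par (en c a) = c := by
  unfold en
  split_ifs with h
  · exact h
  · have h1 := par_ub a
    rcases par_cases (ua a) with h2 | h2 <;> rcases par_cases (ub a) with h3 | h3 <;> omega

theorem en_eq {v : ℤ × ℤ} (hv : par v = c) (h : v = ua a ∨ v = ub a) :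
    en c a = v := by
  have h1 := par_ub a
  unfold en
  rcases h with rfl | rfl
  · rw [if_pos hv]
  · rw [if_neg (by rw [← hv]; exact fun h => h1 h.symm)]

theorem en_joins {p q : ℤ × ℤ} (h : Joins a p q) (hp : par p = c) :
    en c a = p := by
  refine en_eq hp ?_
  rcases h with ⟨h, -⟩ | ⟨h, -⟩
  · exact Or.inl h
  · exact Or.inr h

theorem Piv.symm (h : Piv c a a') : Piv c a' a := by
  obtain ⟨v, h1, h2, h3⟩ := h
  exact ⟨v, h1, h3, h2⟩

theorem PStp.mono (hD : D ⊆ D') (h : PStp ω D c a a') : PStp ω D' c a a' := by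
  rcases h with ⟨f, hf, hm⟩ | h
  · exact Or.inl ⟨f, hD hf, hm⟩
  · exact Or.inr h

theorem Psg.mono (hD : D ⊆ D') (h : Psg ω D c e a) : Psg ω D' c e a := by
  induction h with
  | refl => exact Relation.ReflTransGen.refl
  | tail _ hs ih => exact Relation.ReflTransGen.tail ih (hs.mono hD)

theorem Psg.trans (h : Psg ω D c e a) (h' : Psg ω D c a b) : Psg ω D c e b :=
  Relation.ReflTransGen.trans h h'

theorem psg_of_MM (h : a ∈ MM ω D e) : Psg ω D c e a := by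
  induction h with
  | refl => exact Relation.ReflTransGen.refl
  | tail _ hs ih => exact Relation.ReflTransGen.tail ih (Or.inl hs)

/-- The ends of parity `c` are joined by bonds in the crossed faces. -/
theorem psg_conn (hc : c = 0 ∨ c = 1) (h : Psg ω D c e a) : Conn ω D (en c e) (en c a) := by
  induction h with
  | refl => exact Relation.ReflTransGen.refl
  | tail _ hs ih =>
    rename_i a₁ a₂ _
    rcases hs with ⟨f, hf, hm⟩ | ⟨v, hv, h1, h2⟩
    · obtain ⟨p, q, p', hj, hj', hb⟩ := hm.ends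
      by_cases hp : par p = c
      · have e1 : en c a₁ = p := en_joins hj hp
        have e2 : en c a₂ = p' := en_joins hj' (by rw [← hb.par_eq]; exact hp)
        rw [e1] at ih
        rw [e2]
        exact Relation.ReflTransGen.tail ih (hb.of_single hf)
      · have hq : par q = c := by
          have h3 := hj.par_ne
          rcases par_cases p with h4 | h4 <;> rcases par_cases q with h5 | h5 <;> omega
        have e1 : en c a₁ = q := en_joins hj.symm hq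
        have e2 : en c a₂ = q := en_joins hj'.symm hq
        rw [e1] at ih
        rwa [e2]
    · have e1 : en c a₁ = v := en_eq hv h1
      have e2 : en c a₂ = v := en_eq hv h2
      rw [e1] at ih
      rwa [e2]

/-- A passage from the box of radius `r` around `z` to a unit edge outside of the box of radius `R`
is an arm of parity `c` in the crossed faces. -/
theorem psg_fArm {z : ℤ × ℤ} {r R : ℤ} (hc : c = 0 ∨ c = 1) (h : Psg ω D c e a)
    (he : InR (z.1 - r) (z.1 + r) (z.2 - r) (z.2 + r) (ua e))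
    (ha : ¬ InR (z.1 - R) (z.1 + R) (z.2 - R) (z.2 + R) (ua a)) :
    ω ∈ FArm c D z (r + 1) R := by
  have h1 := par_en hc e
  have h2 := psg_conn hc h
  have h3 : (ub e).1 ≤ (ua e).1 + 1 ∧ (ua e).1 ≤ (ub e).1 ∧ (ub e).2 ≤ (ua e).2 + 1 ∧
      (ua e).2 ≤ (ub e).2 := by
    obtain ⟨x, y, d⟩ := e
    cases d
    · rw [ub_false, ua_mk]; dsimp only; omega
    · rw [ub_true, ua_mk]; dsimp only; omega
  have h4 : (ub a).1 ≤ (ua a).1 + 1 ∧ (ua a).1 ≤ (ub a).1 ∧ (ub a).2 ≤ (ua a).2 + 1 ∧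
      (ua a).2 ≤ (ub a).2 := by
    obtain ⟨x, y, d⟩ := a
    cases d
    · rw [ub_false, ua_mk]; dsimp only; omega
    · rw [ub_true, ua_mk]; dsimp only; omega
  unfold InR at he ha
  refine ⟨en c e, en c a, ?_, ?_, ?_, ?_, ?_, ?_, h2⟩
  · rcases en_or c e with h5 | h5 <;> rw [h5] <;> omega
  · rcases en_or c e with h5 | h5 <;> rw [h5] <;> omega
  · rcases en_or c e with h5 | h5 <;> rw [h5] <;> omega
  · rcases en_or c e with h5 | h5 <;> rw [h5] <;> omega
  · unfold par at h1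
    omega
  · rcases en_or c a with h5 | h5 <;> rw [h5] <;> omega

/-- The event of one trial: a passage by faces of `D` which meets walls of one colour only. -/
def Pass (c : ℤ) (D : Set (ℤ × ℤ)) (z : ℤ × ℤ) (r R : ℤ) : Set Cfg :=
  {ω | ∃ e a, InR (z.1 - r) (z.1 + r) (z.2 - r) (z.2 + r) (ua e) ∧
    ¬ InR (z.1 - R) (z.1 + R) (z.2 - R) (z.2 + R) (ua a) ∧ Psg ω D c e a}

theorem pass_subset {z : ℤ × ℤ} {r R : ℤ} (hc : c = 0 ∨ c = 1) :
    Pass c D z r R ⊆ FArm c D z (r + 1) R := by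
  rintro ω ⟨e, a, he, ha, h⟩
  exact psg_fArm hc h he ha

theorem pass_mono {z : ℤ × ℤ} {r R r' R' : ℤ} (hD : D ⊆ D') (hr : r ≤ r') (hR : R' ≤ R) :
    Pass c D z r R ⊆ Pass c D' z r' R' := by
  rintro ω ⟨e, a, he, ha, h⟩
  refine ⟨e, a, ?_, ?_, h.mono hD⟩
  · unfold InR at he ⊢
    omega
  · unfold InR at ha ⊢
    omega

/-- **One trial.** -/
theorem pr_pass_stop : ∃ θ : ℝ, 0 < θ ∧ θ < 1 ∧ ∀ (W : Finset (ℤ × ℤ)) (S : Cfg → Set (ℤ × ℤ)),
    (∀ ω ω' : Cfg, (∀ f ∈ S ω, ω f = ω' f) → S ω' = S ω) → ∀ A : Set Cfg,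
    (∀ ω ∈ A, ∀ ω' : Cfg, (∀ f ∈ S ω, ω f = ω' f) → ω' ∈ A) →
    ∀ (c r : Cfg → ℤ) (z : Cfg → ℤ × ℤ) (n : ℕ), (∀ ω ∈ A, 0 ≤ r ω) →
    (∀ ω ∈ A, c ω = 0 ∨ c ω = 1) →
    (∀ ω ∈ A, ∀ ω' : Cfg, (∀ f ∈ S ω, ω f = ω' f) → c ω' = c ω ∧ r ω' = r ω ∧ z ω' = z ω) →
    pr W (A ∩ {ω | ω ∈ Pass (c ω) ((W : Set (ℤ × ℤ)) \ S ω) (z ω) (r ω) (4 ^ n * (r ω + 1))}) ≤
      θ ^ n * pr W A := by
  obtain ⟨θ, h0, h1, h⟩ := pr_fArm_stop
  refine ⟨θ, h0, h1, ?_⟩
  intro W S hS A hA c r z n hr hc hz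
  refine le_trans (pr_mono _ ?_) (h W S hS A hA c (fun ω => r ω + 1) z n
    (fun ω hω => by have := hr ω hω; omega) fun ω hω ω' hω' => ?_)
  · rintro ω ⟨hω, hp⟩
    exact ⟨hω, pass_subset (hc ω hω) hp⟩
  · obtain ⟨e1, e2, e3⟩ := hz ω hω ω' hω'
    exact ⟨e1, by rw [e2], e3⟩

/-- From `θ ^ n` to a power. -/
theorem exists_pow_of_theta {θ : ℝ} (h0 : 0 < θ) (h1 : θ < 1) : ∃ C α : ℝ, 0 < C ∧ 0 < α ∧
    ∀ r R : ℤ, 0 < r → 0 < R → ∃ n : ℕ, (4 ^ n * r ≤ R ∨ n = 0) ∧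
      θ ^ n ≤ C * ((r : ℝ) / R) ^ α ∧ 1 ≤ C * ((r : ℝ) / R) ^ α + (if r ≤ R then 1 else 0) := by
  have hl4 : 0 < Real.log 4 := Real.log_pos (by norm_num)
  have hlθ : Real.log θ < 0 := Real.log_neg h0 h1
  set α := -Real.log θ / Real.log 4 with hα
  have hα0 : 0 < α := div_pos (by linarith) hl4
  have h4α : (4 : ℝ) ^ α = θ⁻¹ := by
    rw [Real.rpow_def_of_pos (by norm_num), hα]
    rw [mul_div_cancel₀ _ hl4.ne', Real.exp_neg, Real.exp_log h0]
  have hθ1 : 1 < θ⁻¹ := (one_lt_inv₀ h0).2 h1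
  refine ⟨θ⁻¹, α, by positivity, hα0, ?_⟩
  intro r R hr hR
  have hrR : (0 : ℝ) < r := by exact_mod_cast hr
  have hRR : (0 : ℝ) < R := by exact_mod_cast hR
  by_cases hle : r ≤ R
  · -- the largest n
    obtain ⟨n, hn1, hn2⟩ : ∃ n : ℕ, 4 ^ n * r ≤ R ∧ R < 4 ^ (n + 1) * r := by
      have hex : ∃ n : ℕ, R < 4 ^ (n + 1) * r := by
        refine ⟨R.toNat, ?_⟩
        have h5 : (R.toNat : ℤ) = R := Int.toNat_of_nonneg hR.le
        have h6 : R.toNat + 1 < 4 ^ (R.toNat + 1) := Nat.lt_pow_self (by norm_num)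
        have h7 : ((R.toNat + 1 : ℕ) : ℤ) < ((4 ^ (R.toNat + 1) : ℕ) : ℤ) := by exact_mod_cast h6
        push_cast at h7
        rw [h5] at h7
        nlinarith
      classical
      refine ⟨Nat.find hex, ?_, Nat.find_spec hex⟩
      rcases Nat.eq_zero_or_pos (Nat.find hex) with h5 | h5
      · rw [h5, pow_zero, one_mul]
        exact hle
      · have h6 := Nat.find_min hex (m := Nat.find hex - 1) (by omega)
        rw [not_lt, show Nat.find hex - 1 + 1 = Nat.find hex by omega] at h6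
        exact h6
    refine ⟨n, Or.inl hn1, ?_, ?_⟩
    · have h5 : (R : ℝ) / r ≤ 4 ^ (n + 1) := by
        rw [div_le_iff₀ hrR]
        exact_mod_cast hn2.le
      have h6 : ((R : ℝ) / r) ^ α ≤ (θ⁻¹) ^ (n + 1) := by
        calc ((R : ℝ) / r) ^ α ≤ ((4 : ℝ) ^ (n + 1)) ^ α :=
              Real.rpow_le_rpow (by positivity) h5 hα0.le
          _ = ((4 : ℝ) ^ α) ^ (n + 1) := by
              rw [← Real.rpow_natCast, ← Real.rpow_mul (by norm_num), mul_comm,
                Real.rpow_mul (by norm_num), Real.rpow_natCast]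
          _ = (θ⁻¹) ^ (n + 1) := by rw [h4α]
      have h7 : ((r : ℝ) / R) ^ α = (((R : ℝ) / r) ^ α)⁻¹ := by
        rw [← Real.inv_rpow (by positivity), inv_div]
      rw [h7]
      have h8 : (0 : ℝ) < ((R : ℝ) / r) ^ α := by positivity
      rw [← div_eq_mul_inv, le_div_iff₀ h8]
      calc θ ^ n * ((R : ℝ) / r) ^ α ≤ θ ^ n * (θ⁻¹) ^ (n + 1) :=
            mul_le_mul_of_nonneg_left h6 (by positivity)
        _ = θ⁻¹ := by
            rw [pow_succ, ← mul_assoc, ← mul_pow, mul_inv_cancel₀ h0.ne', one_pow, one_mul]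
    · rw [if_pos hle]
      have : (0 : ℝ) ≤ θ⁻¹ * ((r : ℝ) / R) ^ α := by positivity
      linarith
  · have h5 : (1 : ℝ) ≤ ((r : ℝ) / R) ^ α := by
      refine Real.one_le_rpow ?_ hα0.le
      rw [one_le_div hRR]
      exact_mod_cast (not_le.1 hle).le
    have h6 : 1 ≤ θ⁻¹ * ((r : ℝ) / R) ^ α := by nlinarith
    refine ⟨0, Or.inr rfl, by rw [pow_zero]; exact h6, ?_⟩
    rw [if_neg hle]
    linarith

/-- **One trial, power form**: constant radii, any colour. -/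
theorem pr_pass_pow : ∃ C α : ℝ, 0 < C ∧ 0 < α ∧ ∀ (W : Finset (ℤ × ℤ)) (S : Cfg → Set (ℤ × ℤ)),
    (∀ ω ω' : Cfg, (∀ f ∈ S ω, ω f = ω' f) → S ω' = S ω) → ∀ A : Set Cfg,
    (∀ ω ∈ A, ∀ ω' : Cfg, (∀ f ∈ S ω, ω f = ω' f) → ω' ∈ A) →
    ∀ (z : Cfg → ℤ × ℤ) (r R : ℤ), 1 ≤ r → 0 < R →
    (∀ ω ∈ A, ∀ ω' : Cfg, (∀ f ∈ S ω, ω f = ω' f) → z ω' = z ω) →
    pr W (A ∩ {ω | ω ∈ Pass 0 ((W : Set (ℤ × ℤ)) \ S ω) (z ω) r R ∨
      ω ∈ Pass 1 ((W : Set (ℤ × ℤ)) \ S ω) (z ω) r R}) ≤ C * ((r : ℝ) / R) ^ α * pr W A := by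
  obtain ⟨θ, h0, h1, h⟩ := pr_pass_stop
  obtain ⟨C, α, hC, hα, hp⟩ := exists_pow_of_theta h0 h1
  refine ⟨2 * (C * 2 ^ α), α, by positivity, hα, ?_⟩
  intro W S hS A hA z r R hr hR hz
  have hrR : (0 : ℝ) < r := by exact_mod_cast (by omega : (0 : ℤ) < r)
  have hRR : (0 : ℝ) < R := by exact_mod_cast hR
  obtain ⟨n, hn, hn2, -⟩ := hp (r + 1) R (by omega) hR
  have hbase : C * (((r + 1 : ℤ) : ℝ) / R) ^ α ≤ C * 2 ^ α * ((r : ℝ) / R) ^ α := by
    rw [mul_assoc, ← Real.mul_rpow (by norm_num) (by positivity)]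
    refine mul_le_mul_of_nonneg_left (Real.rpow_le_rpow ?_ ?_ hα.le) hC.le
    · positivity
    · rw [← mul_div_assoc]
      refine div_le_div_of_nonneg_right ?_ hRR.le
      push_cast
      have : (1 : ℝ) ≤ r := by exact_mod_cast hr
      linarith
  have one : ∀ c : ℤ, c = 0 ∨ c = 1 →
      pr W (A ∩ {ω | ω ∈ Pass c ((W : Set (ℤ × ℤ)) \ S ω) (z ω) r R}) ≤
        C * 2 ^ α * ((r : ℝ) / R) ^ α * pr W A := by
    intro c hc
    rcases hn with hn | hn
    · have h5 := h W S hS A hA (fun _ => c) (fun _ => r) z n (fun _ _ => by omega)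
        (fun _ _ => hc) (fun ω hω ω' hω' => ⟨rfl, rfl, hz ω hω ω' hω'⟩)
      refine le_trans (pr_mono _ ?_) (h5.trans ?_)
      · rintro ω ⟨hω, hp'⟩
        exact ⟨hω, pass_mono (subset_refl _) le_rfl hn hp'⟩
      · exact mul_le_mul_of_nonneg_right (hn2.trans hbase) (pr_nonneg _ _)
    · subst hn
      rw [pow_zero] at hn2
      have h5 : pr W (A ∩ {ω | ω ∈ Pass c ((W : Set (ℤ × ℤ)) \ S ω) (z ω) r R}) ≤ pr W A :=
        pr_mono _ fun ω hω => hω.1
      have h6 := hn2.trans hbase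
      have h7 := pr_nonneg W A
      nlinarith
  have e0 := one 0 (Or.inl rfl)
  have e1 := one 1 (Or.inr rfl)
  have hu : A ∩ {ω | ω ∈ Pass 0 ((W : Set (ℤ × ℤ)) \ S ω) (z ω) r R ∨
      ω ∈ Pass 1 ((W : Set (ℤ × ℤ)) \ S ω) (z ω) r R} ⊆
      (A ∩ {ω | ω ∈ Pass 0 ((W : Set (ℤ × ℤ)) \ S ω) (z ω) r R}) ∪
      (A ∩ {ω | ω ∈ Pass 1 ((W : Set (ℤ × ℤ)) \ S ω) (z ω) r R}) := by
    rintro ω ⟨hω, h5 | h5⟩
    · exact Or.inl ⟨hω, h5⟩
    · exact Or.inr ⟨hω, h5⟩
  refine le_trans (pr_mono _ hu) (le_trans (pr_union_le _ _ _) ?_)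
  linarith

end Pool.Agent.SixB
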