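import Pool.Agent.Lib.SixB.S8OutRow
import Pool.Agent.Lib.SixB.S8BadD
import Pool.Agent.Lib.SixB.S8NMAll
import Pool.Agent.Lib.SixB.S8CountP
import Pool.Agent.Lib.SixB.S8Grow

/-!
# Step 8: the strand stays near the tips, top

`GoodB`: the primitive events (base of a needle, gates, transition events) do not happen; `goodB_row`: it
holds off an event of probability at most `ε`. `GoodB.base_S`, `GoodB.gate_S`: what it gives for the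
state of a stage. `rowEv_tran`: the transition events.
-/

set_option autoImplicit false

namespace Pool.Agent.SixB.Tru

open Finset Filter Topology Pool.Agent.Perc Pool.Agent.PercT Pool.Agent.PercX60
open Pool.Agent.SixB Pool.Agent.SixB.Rule Pool.Agent.SixB.Dct Pool.Agent.SixB.Mv
open Pool.Agent.SixB.Tps Pool.Agent.SixB.Out Pool.Agent.SixB.NM Pool.Agent.SixB.Near
open Pool.Agent.SixB.NearCut (Nb)

section rows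

variable {𝔇 : Dat} {G : ℕ → ℕ → ℕ} {Bd : (ℕ → ℕ) → ℕ → ℕ → Set Cfg}

/-- The sizes are small: a condition which holds if the resolutions are fine and `n` is large. -/
theorem RowEv.sizes {P : (ℕ → ℕ) → ℕ → ℕ → Cfg → Prop} {S : (ℕ → ℕ) → ℕ → ℕ → Prop} {ε : ℝ}
    (hP : RowEv 𝔇 G Bd ε P)
    (hS : ∀ N : ℕ, ∃ ℓ₀ : ℕ, ∀ d : ℕ → ℕ, ℓ₀ ≤ d N → (chD 𝔇 G Bd).Gro N d → ∀ᶠ n in atTop,
      S d n N) :
    RowEv 𝔇 G Bd ε fun d n N ω => S d n N ∧ P d n N ω := by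
  intro N
  obtain ⟨ℓ₁, h1⟩ := hP N
  obtain ⟨ℓ₂, h2⟩ := hS N
  refine ⟨max ℓ₁ ℓ₂, fun d hd hG => ?_⟩
  filter_upwards [h1 d (by omega) hG, h2 d (by omega) hG] with n g1 g2
  obtain ⟨E, hE, hE'⟩ := g1
  exact ⟨E, hE, fun ω hω hg hm => ⟨g2, hE' ω hω hg hm⟩⟩

/-- **The transition events** do not happen, off a rare event. -/
theorem rowEv_tran (Y : (ℕ → ℕ) → ℕ → ℕ → ℕ → Set Cfg) (LY : ℕ → ℕ → ℝ → ℕ)
    (hY : ∀ (l e : ℕ) (η : ℝ), 0 < η → ∀ d : ℕ → ℕ, d (l + 1) = e → LY l e η ≤ d l →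
      (chD 𝔇 G Bd).Gro (l + 1) d → ∀ N, l < N → (chD 𝔇 G Bd).Gro N d →
      ∀ᶠ n in atTop, pr (Sn n) (Y d n l N ∩ {ω | ∀ i ≤ l, ω ∉ Bd d n i}) ≤ η)
    (hG1 : ∀ l e, e ≤ G l e) (hG3 : ∀ l e, LY l e (epsR e) ≤ G l e) {ε : ℝ} (hε : 0 < ε) :
    RowEv 𝔇 G Bd ε fun d n N ω => ∀ l < N, ω ∉ Y d n l N := by
  intro N
  obtain ⟨ℓ₀, h⟩ := exc_small (chD 𝔇 G Bd) Sn Y LY hY hG1 hG3 N hε
  refine ⟨ℓ₀, fun d hd hG => ?_⟩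
  filter_upwards [h d hd hG] with n hn
  exact ⟨_, hn, fun ω hω hg _ l hl hl' => hω ⟨l, hl, hl', fun i hi => hg i (by omega)⟩⟩

/-! ### The number of the needle -/

/-- A running needle has a number below `m`. -/
theorem cs_j_le_m {d : ℕ → ℕ} {x : List Rec} {D : Dom} (h : (𝔇.cs d x).run = some D) :
    (𝔇.cs d x).j ≤ 𝔇.m := by
  induction x generalizing D with
  | nil => cases h
  | cons ρ x ih =>
    rcases hr : (𝔇.cs d x).run with _ | D'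
    · rw [𝔇.cs_j_none d hr ρ]
      by_contra hc
      have h1 : (𝔇.cs d (ρ :: x)).run = none := by
        rw [𝔇.cs_cons]
        unfold CSt.mv
        rw [hr]
        simp only
        rw [if_neg]
        rintro ⟨h2, -⟩
        have h3 : (𝔇.cs d x).j < 𝔇.m := h2
        omega
      rw [h1] at h
      cases h
    · rw [𝔇.cs_j_run d hr ρ]
      exact ih hr

end rows

/-! ### The primitive events -/

section Good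

variable (Bs : Ex → Cfg → ℤ → ℤ → Prop)

/-- The primitive events do not happen. `Bs`: the event at the base; `C`, `N₀`: the size of the pieces and
their number for the needles; `wd`, `D₁`: width of the gates, distance from the tip and the base; `ρ`, `R`:
radii at the base; `Tr i`: the transition event of the stage `i`. -/
structure GoodB (𝔇 : Dat) (d : ℕ → ℕ) (n N N₀ : ℕ) (C wd D₁ ρ R : ℤ) (Tr : ℕ → Set Cfg)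
    (ω : Cfg) : Prop where
  base : ∀ j < 𝔇.m, Nds n (TruR.ruleT 𝔇 d n) C N₀ j ω → ¬ Bs (exR n (TruR.ruleT 𝔇 d n) j) ω ρ R
  gate : ∀ j < 𝔇.m, Nds n (TruR.ruleT 𝔇 d n) C N₀ j ω → ∀ T z,
    ¬ NM.NewG (exR n (TruR.ruleT 𝔇 d n) j) ω T z wd D₁
  tran : ∀ i < N, ω ∉ Tr i

variable {Bs}

/-- The event at the base depends only on the data of the exploration. -/
def BsExt (Bs : Ex → Cfg → ℤ → ℤ → Prop) : Prop := ∀ (E E' : Ex) (ω : Cfg) (ρ R : ℤ),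
  E'.U ω = E.U ω → E'.cf ω = E.cf ω → E'.e ω = E.e ω → (Bs E' ω ρ R ↔ Bs E ω ρ R)

variable {𝔇 : Dat} {d : ℕ → ℕ} {n N N₀ i j t : ℕ} {C wd D₁ ρ R : ℤ} {Tr : ℕ → Set Cfg} {ω : Cfg}
  {x : Rule.Ndl} {z : ℤ × ℤ}

/-- The data of the exploration of the rule and of the state. -/
theorem run_exS (hx : (tst 𝔇 d n ω i).q = some x)
    (hj : TruR.cnt 𝔇 d (tst 𝔇 d n ω i) = j + 1) :
    (exR n (TruR.ruleT 𝔇 d n) j).U ω = (exS (tst 𝔇 d n ω i).V x).U ω ∧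
      (exR n (TruR.ruleT 𝔇 d n) j).cf ω = (exS (tst 𝔇 d n ω i).V x).cf ω ∧
      (exR n (TruR.ruleT 𝔇 d n) j).e ω = (exS (tst 𝔇 d n ω i).V x).e ω := by
  refine ⟨?_, TruR.run_cf hx hj, TruR.run_e hx hj⟩
  show FU (rem n (TruR.ruleT 𝔇 d n) j ω) \ QF (ndE n (TruR.ruleT 𝔇 d n) j ω) =
    FU (tst 𝔇 d n ω i).V \ QF x.1
  rw [TruR.run_ndE hx hj, TruR.run_V hx hj]

/-- The walls of the exploration of a state. -/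
theorem exS_wll (hx : (tst 𝔇 d n ω i).q = some x) : (exS (tst 𝔇 d n ω i).V x).Wll ω := by
  obtain ⟨j, hj, -, -⟩ := TruR.run_of 𝔇 d n hx
  obtain ⟨h1, h2, h3⟩ := run_exS hx hj
  refine (Ex.wll_ext h1 h2 h3).1 (CountP.exR_wll (TruR.ruleT_ok 𝔇 d n) ?_)
  rw [TruR.run_ndE hx hj, TruR.run_ndB hx hj, ← TruR.run_V hx hj]
  exact ((TruR.stOK_tst 𝔇 d n ω i).nd x hx).2

/-- The number of the running needle. -/
theorem exists_num (hx : (tst 𝔇 d n ω i).q = some x) :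
    ∃ j < 𝔇.m, TruR.cnt 𝔇 d (tst 𝔇 d n ω i) = j + 1 := by
  obtain ⟨j, hj, -, -⟩ := TruR.run_of 𝔇 d n hx
  obtain ⟨D, hD⟩ := (TruR.stOK_tst 𝔇 d n ω i).run x hx
  have h1 := cs_j_le_m hD
  have h2 : (𝔇.cs d (tst 𝔇 d n ω i).x).j = j + 1 := hj
  exact ⟨j, by omega, hj⟩

theorem GoodB.base_S (H : GoodB Bs 𝔇 d n N N₀ C wd D₁ ρ R Tr ω) (hB : BsExt Bs)
    (hx : (tst 𝔇 d n ω i).q = some x) (hj : TruR.cnt 𝔇 d (tst 𝔇 d n ω i) = j + 1) (hjm : j < 𝔇.m)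
    (hN : Nds n (TruR.ruleT 𝔇 d n) C N₀ j ω) : ¬ Bs (exS (tst 𝔇 d n ω i).V x) ω ρ R := by
  obtain ⟨h1, h2, h3⟩ := run_exS hx hj
  rw [← hB _ _ ω ρ R h1 h2 h3]
  exact H.base j hjm hN

theorem GoodB.gate_S (H : GoodB Bs 𝔇 d n N N₀ C wd D₁ ρ R Tr ω)
    (hx : (tst 𝔇 d n ω i).q = some x) (hj : TruR.cnt 𝔇 d (tst 𝔇 d n ω i) = j + 1) (hjm : j < 𝔇.m)
    (hN : Nds n (TruR.ruleT 𝔇 d n) C N₀ j ω)
    (hn : Nb (cfS (tst 𝔇 d n ω i).V x ω) (Tru.eS (tst 𝔇 d n ω i).V x) t)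
    (h1 : fa (Tru.eS (tst 𝔇 d n ω i).V x) ∉ Bx z D₁)
    (h2 : fa (pS (tst 𝔇 d n ω i).V x ω t) ∉ Bx z D₁)
    (h0 : ¬ (exS (tst 𝔇 d n ω i).V x).Gate ω 0 z wd) :
    ¬ (exS (tst 𝔇 d n ω i).V x).Gate ω t z wd := by
  obtain ⟨g1, g2, g3⟩ := run_exS hx hj
  intro hg
  refine H.gate j hjm hN t z ⟨(Ex.wll_ext g1 g2 g3).2 (exS_wll hx), t, le_rfl, ?_, ?_, ?_, ?_, ?_⟩
  · rw [g2, g3]; exact hn
  · exact (Ex.gate_ext g1 g2 g3).2 hg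
  · exact fun h => h0 ((Ex.gate_ext g1 g2 g3).1 h)
  · rw [g3]; exact h1
  · rw [Ex.p_ext g2 g3]; exact h2

/-! ### The probability -/

/-- The statement about the event at the base (all needles, all rules). -/
def BaseAll (Bs : Ex → Cfg → ℤ → ℤ → Prop) : Prop := ∀ (J N₀ : ℕ) {δ η : ℝ}, 0 < δ → 0 < η →
  ∃ κ : ℝ, 0 < κ ∧ ∃ n₀ : ℕ, ∀ n ≥ n₀, ∀ (h : ℕ) (Ru : Rul) (C ρ R : ℤ), RulOK n h Ru → 0 ≤ C →
    (C : ℝ) ≤ κ * n → 0 ≤ ρ → (ρ : ℝ) ≤ κ * n → δ * n ≤ R →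
    pr (Sn n) {ω | ∃ j < J, Nds n Ru C N₀ j ω ∧ Bs (exR n Ru j) ω ρ R} ≤ η

/-- A length which depends on the resolutions, the size and the number of stages is small compared
with `n` if the resolutions are fine. -/
def SmallW (𝔇 : Dat) (G : ℕ → ℕ → ℕ) (Bd : (ℕ → ℕ) → ℕ → ℕ → Set Cfg)
    (w : (ℕ → ℕ) → ℕ → ℕ → ℤ) : Prop := ∀ κ : ℝ, 0 < κ → ∀ N : ℕ, ∃ ℓ₀ : ℕ, ∀ d : ℕ → ℕ,
  ℓ₀ ≤ d N → (chD 𝔇 G Bd).Gro N d → ∀ᶠ n in atTop, 0 ≤ w d n N ∧ (w d n N : ℝ) ≤ κ * n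

/-- **The primitive events are rare.** `m`, `N₀`, `δ`, `ε` are given, then the radius `κ n` at the base is
chosen, then the data of the chain. -/
theorem goodB_row (hBs : BaseAll Bs) (m N₀ : ℕ) {δ ε : ℝ} (hδ : 0 < δ) (hε : 0 < ε) :
    ∃ κ₀ : ℝ, 0 < κ₀ ∧ ∀ κ : ℝ, 0 < κ → κ ≤ κ₀ → ∀ (𝔇 : Dat) (G : ℕ → ℕ → ℕ)
      (Bd : (ℕ → ℕ) → ℕ → ℕ → Set Cfg) (C wd : (ℕ → ℕ) → ℕ → ℕ → ℤ)
      (Tr : (ℕ → ℕ) → ℕ → ℕ → ℕ → Set Cfg), 𝔇.m = m → SmallW 𝔇 G Bd C → SmallW 𝔇 G Bd wd →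
      (∀ η : ℝ, 0 < η → RowEv 𝔇 G Bd η fun d n N ω => ∀ l < N, ω ∉ Tr d n l N) →
      RowEv 𝔇 G Bd ε fun d n N ω =>
        GoodB Bs 𝔇 d n N N₀ (C d n N) (wd d n N) ⌈κ / 4 * n⌉ ⌊κ * n⌋ ⌈δ * n⌉ (fun l => Tr d n l N) ω := by
  obtain ⟨κ₀, hκ₀, n₀, hb⟩ := hBs m N₀ hδ (show 0 < ε / 3 by positivity)
  refine ⟨κ₀, hκ₀, fun κ hκ hκ' 𝔇 G Bd C wd Tr hm hC hwd hTr => ?_⟩
  obtain ⟨κ₁, hκ₁, n₁, hg⟩ := NM.near_all m N₀ (δ := κ / 4) (η := ε / 3) (by positivity)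
    (by positivity)
  intro N
  obtain ⟨ℓ₁, h1⟩ := hTr (ε / 3) (by positivity) N
  obtain ⟨ℓ₂, h2⟩ := hC (min κ₀ κ₁) (lt_min hκ₀ hκ₁) N
  obtain ⟨ℓ₃, h3⟩ := hwd κ₁ hκ₁ N
  refine ⟨max ℓ₁ (max ℓ₂ ℓ₃), fun d hd hG => ?_⟩
  filter_upwards [h1 d (by omega) hG, h2 d (by omega) hG, h3 d (by omega) hG,
    eventually_ge_atTop n₀, eventually_ge_atTop n₁] with n g1 g2 g3 g4 g5
  obtain ⟨E, hE, hE'⟩ := g1
  have hn : (0 : ℝ) ≤ n := Nat.cast_nonneg n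
  have c0 : (C d n N : ℝ) ≤ κ₀ * n :=
    g2.2.trans (mul_le_mul_of_nonneg_right (min_le_left _ _) hn)
  have c1 : (C d n N : ℝ) ≤ κ₁ * n :=
    g2.2.trans (mul_le_mul_of_nonneg_right (min_le_right _ _) hn)
  have hρ0 : 0 ≤ ⌊κ * n⌋ := Int.floor_nonneg.2 (by positivity)
  have hρ : ((⌊κ * n⌋ : ℤ) : ℝ) ≤ κ₀ * n :=
    (Int.floor_le _).trans (mul_le_mul_of_nonneg_right hκ' hn)
  have p1 := hb n g4 (n / 𝔇.K) (TruR.ruleT 𝔇 d n) (C d n N) ⌊κ * n⌋ ⌈δ * n⌉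
    (TruR.ruleT_ok 𝔇 d n) g2.1 c0 hρ0 hρ (Int.le_ceil _)
  have p2 := hg n g5 (n / 𝔇.K) (TruR.ruleT 𝔇 d n) (C d n N) (wd d n N) ⌈κ / 4 * n⌉
    (TruR.ruleT_ok 𝔇 d n) g2.1 c1 g3.1 g3.2 (Int.le_ceil _)
  refine ⟨({ω | ∃ j < m, Nds n (TruR.ruleT 𝔇 d n) (C d n N) N₀ j ω ∧
      Bs (exR n (TruR.ruleT 𝔇 d n) j) ω ⌊κ * n⌋ ⌈δ * n⌉} ∪
    {ω | ∃ j < m, Nds n (TruR.ruleT 𝔇 d n) (C d n N) N₀ j ω ∧ ∃ T, ∃ z₁ : ℤ × ℤ,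
      NewG (exR n (TruR.ruleT 𝔇 d n) j) ω T z₁ (wd d n N) ⌈κ / 4 * n⌉}) ∪ E,
    (pr_union_le _ _ _).trans ?_, fun ω hω hgd hfin => ?_⟩
  · have := pr_union_le (Sn n) {ω | ∃ j < m, Nds n (TruR.ruleT 𝔇 d n) (C d n N) N₀ j ω ∧
      Bs (exR n (TruR.ruleT 𝔇 d n) j) ω ⌊κ * n⌋ ⌈δ * n⌉}
      {ω | ∃ j < m, Nds n (TruR.ruleT 𝔇 d n) (C d n N) N₀ j ω ∧ ∃ T, ∃ z₁ : ℤ × ℤ,
      NewG (exR n (TruR.ruleT 𝔇 d n) j) ω T z₁ (wd d n N) ⌈κ / 4 * n⌉}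
    linarith
  · rw [Set.mem_union, Set.mem_union, not_or, not_or] at hω
    obtain ⟨⟨h4, h5⟩, h6⟩ := hω
    refine ⟨fun j hj hN hB => h4 ⟨j, hm ▸ hj, hN, hB⟩, fun j hj hN T z hz =>
      h5 ⟨j, hm ▸ hj, hN, T, z, hz⟩, hE' ω h6 hgd hfin⟩

/-! ### The pieces -/

/-- What is known in a stage with a running needle `x`: nothing happens at the base and there are no new
gates. -/
structure EnvS (Bs : Ex → Cfg → ℤ → ℤ → Prop) (s : TS) (x : Rule.Ndl) (wd D₁ ρ R : ℤ)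
    (ω : Cfg) : Prop where
  wll : (exS s.V x).Wll ω
  base : ¬ Bs (exS s.V x) ω ρ R
  gate : ∀ t z, Nb (cfS s.V x ω) (Tru.eS s.V x) t → fa (Tru.eS s.V x) ∉ Bx z D₁ →
    fa (pS s.V x ω t) ∉ Bx z D₁ → (exS s.V x).Gate ω t z wd → (exS s.V x).Gate ω 0 z wd

theorem GoodB.env (H : GoodB Bs 𝔇 d n N N₀ C wd D₁ ρ R Tr ω) (hB : BsExt Bs)
    (hx : (tst 𝔇 d n ω i).q = some x)
    (hN : ∀ j < TruR.cnt 𝔇 d (tst 𝔇 d n ω i), Nds n (TruR.ruleT 𝔇 d n) C N₀ j ω) :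
    EnvS Bs (tst 𝔇 d n ω i) x wd D₁ ρ R ω := by
  obtain ⟨j, hjm, hj⟩ := exists_num hx
  have hN' := hN j (by omega)
  refine ⟨exS_wll hx, H.base_S hB hx hj hjm hN', fun t z h1 h2 h3 h4 => ?_⟩
  by_contra h0
  exact H.gate_S hx hj hjm hN' h1 h2 h3 h0 h4

/-- **The strand stays near the tips**, from the pieces: entrance stage, void stage, move, last stage. -/
theorem nearT_pieces {r : ℝ} (H : GoodB Bs 𝔇 d n N N₀ C wd D₁ ρ R Tr ω) (hB : BsExt Bs)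
    (hN : ∀ i, i + 1 < N → ∀ j < TruR.cnt 𝔇 d (tst 𝔇 d n ω i),
      Nds n (TruR.ruleT 𝔇 d n) C N₀ j ω)
    (hini : ∀ i, i + 1 < N → ∀ D q, (𝔇.cs d (tst 𝔇 d n ω i).x).run = some D →
      (𝔇.cs d (tst 𝔇 d n ω i).x).ini = true → (tst 𝔇 d n ω i).q = some q →
        EnvS Bs (tst 𝔇 d n ω i) q wd D₁ ρ R ω →
          (tst 𝔇 d n ω i).t = 0 → ∀ t ≤ staT n (unt d n) (tst 𝔇 d n ω i).V q D.B ω,
            NearR d n ω r (tst 𝔇 d n ω i).V q D.tip t)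
    (htip : ∀ i, i + 1 < N → ∀ D q, (𝔇.cs d (tst 𝔇 d n ω i).x).run = some D →
      (𝔇.cs d (tst 𝔇 d n ω i).x).ini = false → (tst 𝔇 d n ω i).q = some q →
        D.Void (𝔇.gr d (tst 𝔇 d n ω i).x D) →
          NearR d n ω r (tst 𝔇 d n ω i).V q D.tip (tst 𝔇 d n ω i).t)
    (hmov : ∀ i, i + 1 < N → ∀ D q, (𝔇.cs d (tst 𝔇 d n ω i).x).run = some D →
      (𝔇.cs d (tst 𝔇 d n ω i).x).ini = false → (tst 𝔇 d n ω i).q = some q →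
        EnvS Bs (tst 𝔇 d n ω i) q wd D₁ ρ R ω → ω ∉ Tr i →
        ¬ D.Void (𝔇.gr d (tst 𝔇 d n ω i).x D) →
          (𝔇.cs d (tst 𝔇 d n ω (i + 1)).x).run.isSome = true →
            ∀ t, (tst 𝔇 d n ω i).t ≤ t →
              t ≤ stopT n (unt d n) (tst 𝔇 d n ω i) q D (𝔇.gr d (tst 𝔇 d n ω i).x D) ω →
                NearR d n ω r (tst 𝔇 d n ω i).V q D.tip t)
    (hlast : ∀ i, i + 1 < N → ∀ D q, (𝔇.cs d (tst 𝔇 d n ω i).x).run = some D →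
      (𝔇.cs d (tst 𝔇 d n ω i).x).ini = false → (tst 𝔇 d n ω i).q = some q →
        EnvS Bs (tst 𝔇 d n ω i) q wd D₁ ρ R ω → ω ∉ Tr i →
        (𝔇.cs d (tst 𝔇 d n ω (i + 1)).x).run = none →
          (tst 𝔇 d n ω i).t ≤ perS n ω (tst 𝔇 d n ω i).V q ∧
          ∀ t, (tst 𝔇 d n ω i).t ≤ t → t ≤ perS n ω (tst 𝔇 d n ω i).V q →
            NearR d n ω r (tst 𝔇 d n ω i).V q D.tip t) :
    NearT 𝔇 d n N r ω := by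
  refine nearT_of (fun i hi D q h1 h2 h3 => hini i hi D q h1 h2 h3 (H.env hB h3 (hN i hi)))
    htip (fun i hi D q h1 h2 h3 => hmov i hi D q h1 h2 h3 (H.env hB h3 (hN i hi))
      (H.tran i (by omega))) fun i hi D q h1 h2 h3 => hlast i hi D q h1 h2 h3
        (H.env hB h3 (hN i hi)) (H.tran i (by omega))

/-- **The row `near`**: the constants are chosen in the order `m`, `N₀`, `δ`, `ε`, `κ`, data. -/
theorem nearT_row (hBs : BaseAll Bs) (m N₀ : ℕ) {δ ε : ℝ} (hδ : 0 < δ) (hε : 0 < ε) :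
    ∃ κ₀ : ℝ, 0 < κ₀ ∧ ∀ κ : ℝ, 0 < κ → κ ≤ κ₀ → ∀ (𝔇 : Dat) (G : ℕ → ℕ → ℕ)
      (Bd : (ℕ → ℕ) → ℕ → ℕ → Set Cfg) (C wd : (ℕ → ℕ) → ℕ → ℕ → ℤ)
      (Tr : (ℕ → ℕ) → ℕ → ℕ → ℕ → Set Cfg) (S : (ℕ → ℕ) → ℕ → ℕ → Prop), 𝔇.m = m →
      SmallW 𝔇 G Bd C → SmallW 𝔇 G Bd wd →
      (∀ η : ℝ, 0 < η → RowEv 𝔇 G Bd η fun d n N ω => ∀ l < N, ω ∉ Tr d n l N) →
      (∀ N : ℕ, ∃ ℓ₀ : ℕ, ∀ d : ℕ → ℕ, ℓ₀ ≤ d N → (chD 𝔇 G Bd).Gro N d → ∀ᶠ n in atTop,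
        S d n N) →
      (∀ d n N ω, Gd Bd N d n ω → 𝔇.m ≤ nfin 𝔇 d n ω N → S d n N →
        GoodB Bs 𝔇 d n N N₀ (C d n N) (wd d n N) ⌈κ / 4 * n⌉ ⌊κ * n⌋ ⌈δ / 8 * n⌉
          (fun l => Tr d n l N) ω → NearT 𝔇 d n N (δ / 2 * n) ω) →
      RowEv 𝔇 G Bd ε fun d n N ω => NearT 𝔇 d n N (δ / 2 * n) ω := by
  obtain ⟨κ₀, hκ₀, h⟩ := goodB_row hBs m N₀ (δ := δ / 8) (by positivity) hε
  refine ⟨κ₀, hκ₀, fun κ hκ hκ' 𝔇 G Bd C wd Tr S hm hC hwd hTr hS hdet => ?_⟩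
  refine ((h κ hκ hκ' 𝔇 G Bd C wd Tr hm hC hwd hTr).sizes hS).mono le_rfl ?_
  rintro d n N ω hg hf ⟨h1, h2⟩
  exact hdet d n N ω hg hf h1 h2

end Good

end Pool.Agent.SixB.Tru
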