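import Pool.Agent.Lib.SixB.S8CloseB
import Pool.Agent.Lib.SixB.S8Sub

/-!
# Step 8: disjoint links preserve the cyclic order

`U` is a disc of faces, `P ⊆ U` an edge connected set. A link of the side `B` of `P` to the side `C`
of `U` by faces of `S ⊆ U \ P` is `LkS S B C`: `B = C`, or a chain in `S` from the outer face of `B` to
the inner face of `C`.

* `exists_chord`: two links and a chain in `P` give a potential on `U` which changes on the contour of
  `P` exactly at the two sides of `P`, on the contour of `U` exactly at the two sides of `U`;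
* `cyc3`: **three disjoint links preserve the cyclic order** (with the orientation);
* `link_sep`: if two sides of `P` separate two others on the contour of `P` then the linked sides of `U`
  separate each other (only links of different pairs are supposed to be disjoint);
* `no_chord`: a chain outside `P` between the outer faces of two sides of `P` does not separate two
  anchored sides of `P`.
-/

set_option autoImplicit false

namespace Pool.Agent.SixB.Top

open Finset Pool.Agent.Perc Pool.Agent.Perc6 Pool.Agent.Perc6.C2Aux Pool.Agent.Perc.Tips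

/-! ### Simple chains -/

/-- **Simple chains.** -/
theorem exists_simple {S : Set (ℤ × ℤ)} {f g : ℤ × ℤ} (h : ChI S f g) :
    ∃ (n : ℕ) (c : ℕ → ℤ × ℤ), c 0 = f ∧ c n = g ∧ (∀ i < n, AdjF (c i) (c (i + 1)) ∧ c (i + 1) ∈ S) ∧
      ∀ i ≤ n, ∀ j ≤ n, c i = c j → i = j := by
  classical
  have hex : ∃ n, ∃ c : ℕ → ℤ × ℤ, c 0 = f ∧ c n = g ∧
      ∀ i < n, AdjF (c i) (c (i + 1)) ∧ c (i + 1) ∈ S := by
    induction h with
    | refl => exact ⟨0, fun _ => f, rfl, rfl, fun i hi => absurd hi (Nat.not_lt_zero i)⟩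
    | @tail b c' _ hs ih =>
      obtain ⟨n, c, h0, hn, hc⟩ := ih
      refine ⟨n + 1, fun i => if i ≤ n then c i else c', ?_, ?_, ?_⟩
      · simp only [Nat.zero_le, if_true]; exact h0
      · simp only [Nat.lt_irrefl, Nat.not_succ_le_self, if_false]
      · intro i hi
        rcases Nat.lt_or_ge i n with h1 | h1
        · have e1 : i ≤ n := h1.le
          have e2 : i + 1 ≤ n := h1
          simp only [e1, e2, if_true]
          exact hc i h1
        · have e1 : i = n := by omega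
          subst e1
          simp only [le_refl, if_true, Nat.not_succ_le_self, if_false]
          rw [hn]
          exact hs
  obtain ⟨c, h0, hn, hc⟩ := Nat.find_spec hex
  have hmin := fun {m : ℕ} => Nat.find_min hex (m := m)
  set n := Nat.find hex with hnd
  have key : ∀ i j, i < j → j ≤ n → c i ≠ c j := by
    intro i j hij hj he
    apply hmin (m := n - (j - i)) (by omega)
    refine ⟨fun k => if k ≤ i then c k else c (k + (j - i)), ?_, ?_, ?_⟩
    · simp only [Nat.zero_le, if_true]; exact h0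
    · by_cases h1 : n - (j - i) ≤ i
      · simp only [h1, if_true]
        have : j = n := by omega
        subst this
        rw [show n - (n - i) = i by omega, he, hn]
      · simp only [h1, if_false]
        rw [show n - (j - i) + (j - i) = n by omega, hn]
    · intro k hk
      rcases lt_trichotomy k i with h1 | h1 | h1
      · have e1 : k ≤ i := h1.le
        have e2 : k + 1 ≤ i := h1
        simp only [e1, e2, if_true]
        exact hc k (by omega)
      · subst h1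
        simp only [le_refl, if_true, Nat.not_succ_le_self, if_false]
        rw [he, show k + 1 + (j - k) = j + 1 by omega]
        exact hc j (by omega)
      · have e1 : ¬ k ≤ i := by omega
        have e2 : ¬ k + 1 ≤ i := by omega
        simp only [e1, e2, if_false]
        rw [show k + 1 + (j - i) = k + (j - i) + 1 by omega]
        exact hc _ (by omega)
  refine ⟨n, c, h0, hn, hc, fun i hi j hj he => ?_⟩
  rcases lt_trichotomy i j with h1 | h1 | h1
  · exact absurd he (key i j h1 hj)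
  · exact h1
  · exact absurd he.symm (key j i h1 hi)

/-! ### Left and right in a face -/

theorem side_faces {A : UE × Bool} {k : ℤ × ℤ} (hk : IsSide k A.1) :
    k = ahead (rv A) ∨ k = ahead A :=
  side_two (adjF_ahead A).1 (isSide_ahead A.1 (!A.2)) (isSide_ahead A.1 A.2) hk

theorem dir_cases {X : UE × Bool} {f : ℤ × ℤ} (h : ahead X = f) :
    X = (bo f, true) ∨ X = (ri f, false) ∨ X = (to' f, false) ∨ X = (le' f, true) := by
  subst h
  obtain ⟨⟨x, y, _ | _⟩, _ | _⟩ := X <;> simp [ahead, bo, ri, to', le']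

/-- In a face the potential is constant from the right end of `Y` to the left end of `X`, if no other
side is in `M`. -/
theorem face_lr {U : Set (ℤ × ℤ)} {M : Set UE} {Φ : ℤ × ℤ → ZMod 2} (hP : IsPot U M Φ)
    {X Y : UE × Bool} {f : ℤ × ℤ} (hX : ahead X = f) (hY : ahead Y = f) (hf : f ∈ U)
    (hne : X.1 ≠ Y.1) (h : ∀ a, IsSide f a → a ∈ M → a = X.1 ∨ a = Y.1) : Φ (lf X) = Φ (rg Y) := by
  have e0 : bo f ∈ M ↔ Φ (lf (bo f, true)) ≠ Φ (rg (bo f, true)) :=
    pot_side hP (B := (bo f, true)) (by simpa [ahead, bo] using hf)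
  have e1 : ri f ∈ M ↔ Φ (lf (ri f, false)) ≠ Φ (rg (ri f, false)) :=
    pot_side hP (B := (ri f, false)) (by simpa [ahead, ri] using hf)
  have e2 : to' f ∈ M ↔ Φ (lf (to' f, false)) ≠ Φ (rg (to' f, false)) :=
    pot_side hP (B := (to' f, false)) (by simpa [ahead, to'] using hf)
  have e3 : le' f ∈ M ↔ Φ (lf (le' f, true)) ≠ Φ (rg (le' f, true)) :=
    pot_side hP (B := (le' f, true)) (by simpa [ahead, le'] using hf)
  have h0 := h (bo f) (Or.inl rfl)
  have h1 := h (ri f) (Or.inr (Or.inr (Or.inr rfl)))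
  have h2 := h (to' f) (Or.inr (Or.inr (Or.inl rfl)))
  have h3 := h (le' f) (Or.inr (Or.inl rfl))
  have l0 : rg (bo f, true) = lf (ri f, false) := by simp [lf, rg, bo, ri]
  have l1 : rg (ri f, false) = lf (to' f, false) := by simp [lf, rg, to', ri]
  have l2 : rg (to' f, false) = lf (le' f, true) := by simp [lf, rg, to', le']
  have l3 : rg (le' f, true) = lf (bo f, true) := by simp [lf, rg, bo, le']
  have n01 : bo f ≠ ri f := by simp [bo, ri]
  have n02 : bo f ≠ to' f := by simp [bo, to']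
  have n03 : bo f ≠ le' f := by simp [bo, le']
  have n12 : ri f ≠ to' f := by simp [ri, to']
  have n13 : ri f ≠ le' f := by simp [ri, le']
  have n23 : to' f ≠ le' f := by simp [to', le']
  rw [l0] at e0
  rw [l1] at e1
  rw [l2] at e2
  rw [l3] at e3
  rcases dir_cases hX with rfl | rfl | rfl | rfl <;> rcases dir_cases hY with rfl | rfl | rfl | rfl
  · exact absurd rfl hne
  · -- X = bo, Y = ri
    rw [l1]
    have g2 : to' f ∉ M := fun hm => (h2 hm).elim (fun h => n02 h.symm) fun h => n12 h.symm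
    have g3 : le' f ∉ M := fun hm => (h3 hm).elim (fun h => n03 h.symm) fun h => n13 h.symm
    rw [e2, not_not] at g2
    rw [e3, not_not] at g3
    rw [g2, g3]
  · rw [l2]
    have g3 : le' f ∉ M := fun hm => (h3 hm).elim (fun h => n03 h.symm) fun h => n23 h.symm
    rw [e3, not_not] at g3
    rw [g3]
  · rw [l3]
  · rw [l0]
  · exact absurd rfl hne
  · rw [l2]
    have g3 : le' f ∉ M := fun hm => (h3 hm).elim (fun h => n13 h.symm) fun h => n23 h.symm
    have g0 : bo f ∉ M := fun hm => (h0 hm).elim (fun h => n01 h) fun h => n02 h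
    rw [e3, not_not] at g3
    rw [e0, not_not] at g0
    rw [g3, g0]
  · rw [l3]
    have g0 : bo f ∉ M := fun hm => (h0 hm).elim (fun h => n01 h) fun h => n03 h
    rw [e0, not_not] at g0
    rw [g0]
  · rw [l0]
    have g1 : ri f ∉ M := fun hm => (h1 hm).elim (fun h => n12 h) fun h => n01 h.symm
    rw [e1, not_not] at g1
    rw [g1]
  · rw [l1]
  · exact absurd rfl hne
  · rw [l3]
    have g0 : bo f ∉ M := fun hm => (h0 hm).elim (fun h => n02 h) fun h => n03 h
    have g1 : ri f ∉ M := fun hm => (h1 hm).elim (fun h => n12 h) fun h => n13 h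
    rw [e0, not_not] at g0
    rw [e1, not_not] at g1
    rw [g0, g1]
  · rw [l0]
    have g1 : ri f ∉ M := fun hm => (h1 hm).elim (fun h => n13 h) fun h => n01 h.symm
    have g2 : to' f ∉ M := fun hm => (h2 hm).elim (fun h => n23 h) fun h => n02 h.symm
    rw [e1, not_not] at g1
    rw [e2, not_not] at g2
    rw [g1, g2]
  · rw [l1]
    have g2 : to' f ∉ M := fun hm => (h2 hm).elim (fun h => n23 h) fun h => n12 h.symm
    rw [e2, not_not] at g2
    rw [g2]
  · rw [l2]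
  · exact absurd rfl hne

/-! ### Simple walks -/

/-- The faces `e 0, ..., e N` are different, `D i` goes from `e (i + 1)` to `e i`. -/
structure Walk (e : ℕ → ℤ × ℤ) (D : ℕ → UE × Bool) (N : ℕ) : Prop where
  inj : ∀ i ≤ N, ∀ j ≤ N, e i = e j → i = j
  hd : ∀ i < N, ahead (D i) = e i
  tl : ∀ i < N, ahead (rv (D i)) = e (i + 1)

/-- The sides crossed by the walk. -/
def wkM (D : ℕ → UE × Bool) (N : ℕ) : Set UE := {a | ∃ i < N, a = (D i).1}

namespace Walk

variable {e : ℕ → ℤ × ℤ} {D : ℕ → UE × Bool} {N : ℕ}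

theorem side (w : Walk e D N) {i : ℕ} (hi : i < N) {k : ℤ × ℤ} (hk : IsSide k (D i).1) :
    k = e i ∨ k = e (i + 1) := by
  rcases side_faces hk with h | h
  · exact Or.inr (h.trans (w.tl i hi))
  · exact Or.inl (h.trans (w.hd i hi))

theorem side_hd (w : Walk e D N) {i : ℕ} (hi : i < N) : IsSide (e i) (D i).1 := by
  rw [← w.hd i hi]; exact isSide_ahead (D i).1 (D i).2

theorem side_tl (w : Walk e D N) {i : ℕ} (hi : i < N) : IsSide (e (i + 1)) (D i).1 := by
  rw [← w.tl i hi]; exact isSide_ahead (D i).1 (!(D i).2)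

theorem ne (w : Walk e D N) {i j : ℕ} (hi : i < N) (hj : j < N) (h : (D i).1 = (D j).1) : i = j := by
  have h1 := w.side_hd hi
  have h2 := w.side_tl hi
  rw [h] at h1 h2
  have a1 : i = j ∨ i = j + 1 := (w.side hj h1).imp (w.inj i (by omega) j (by omega))
    (w.inj i (by omega) (j + 1) (by omega))
  have a2 : i + 1 = j ∨ i + 1 = j + 1 := (w.side hj h2).imp (w.inj (i + 1) (by omega) j (by omega))
    (w.inj (i + 1) (by omega) (j + 1) (by omega))
  omega

theorem par (w : Walk e D N) (k : ℤ × ℤ) : parAt (wkM D N) k = ind2 (k = e 0) + ind2 (k = e N) := by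
  have key : ∀ n ≤ N, parAt (wkM D n) k = ind2 (k = e 0) + ind2 (k = e n) := by
    intro n
    induction n with
    | zero =>
      intro _
      rw [z2_add_self]
      have : ∀ a, a ∉ wkM D 0 := by
        rintro a ⟨i, hi, -⟩
        exact Nat.not_lt_zero i hi
      unfold parAt
      rw [ind2_neg (this _), ind2_neg (this _), ind2_neg (this _), ind2_neg (this _)]
      decide
    | succ n ih =>
      intro hn
      have e1 : wkM D (n + 1) = symmDiff (wkM D n) {(D n).1} := by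
        ext a
        simp only [wkM, Set.mem_symmDiff, Set.mem_setOf_eq, Set.mem_singleton_iff]
        constructor
        · rintro ⟨i, hi, rfl⟩
          rcases Nat.lt_or_ge i n with h | h
          · exact Or.inl ⟨⟨i, h, rfl⟩, fun h' => by have := w.ne (by omega) (by omega) h'; omega⟩
          · have : i = n := by omega
            subst this
            refine Or.inr ⟨rfl, ?_⟩
            rintro ⟨j, hj, h'⟩
            have := w.ne (by omega) (by omega) h'
            omega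
        · rintro (⟨⟨i, hi, rfl⟩, -⟩ | ⟨rfl, -⟩)
          · exact ⟨i, by omega, rfl⟩
          · exact ⟨n, by omega, rfl⟩
      have e2 : e n ≠ e (n + 1) := fun h => by
        have := w.inj n (by omega) (n + 1) hn h
        omega
      rw [e1, parAt_symmDiff, ih (by omega), parAt_side e2 (w.side_hd (by omega)) (w.side_tl (by omega))]
      generalize ind2 (k = e 0) = p1
      generalize ind2 (k = e n) = p2
      generalize ind2 (k = e (n + 1)) = p3
      revert p1 p2 p3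
      decide
  exact key N le_rfl

/-- **Left stays left.** -/
theorem lr (w : Walk e D (N + 1)) {U : Set (ℤ × ℤ)} {M : Set UE} {Φ : ℤ × ℤ → ZMod 2}
    (hP : IsPot U M Φ) (hU : ∀ i, 0 < i → i ≤ N → e i ∈ U)
    (hM : ∀ i, 0 < i → i ≤ N → ∀ a, IsSide (e i) a → a ∈ M → a ∈ wkM D (N + 1)) :
    Φ (rg (D N)) = Φ (rg (D 0)) := by
  have key : ∀ n ≤ N, Φ (rg (D n)) = Φ (rg (D 0)) := by
    intro n
    induction n with
    | zero => intro _; rfl
    | succ n ih =>
      intro hn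
      rw [← ih (by omega), ← lf_rv (D n)]
      refine (face_lr hP (f := e (n + 1)) (w.tl n (by omega)) (w.hd (n + 1) (by omega))
        (hU (n + 1) (by omega) hn) ?_ ?_).symm
      · intro h
        have := w.ne (i := n) (j := n + 1) (by omega) (by omega) h
        omega
      · intro a ha haM
        obtain ⟨j, hj, rfl⟩ := hM (n + 1) (by omega) hn a ha haM
        rcases w.side hj ha with h | h
        · have := w.inj (n + 1) (by omega) j (by omega) h
          exact Or.inr (by rw [this])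
        · have := w.inj (n + 1) (by omega) (j + 1) (by omega) h
          exact Or.inl (by rw [show n = j by omega]; rfl)
  exact key N le_rfl

end Walk

/-! ### Rays -/

/-- The side `C` of `U` is linked to the side `B` of `P` by faces of `S`. -/
def LkS (S : Set (ℤ × ℤ)) (B C : UE × Bool) : Prop :=
  B = C ∨ (ahead (rv B) ∈ S ∧ ChI S (ahead (rv B)) (ahead C))

/-- The sides crossed by a link. -/
structure Ray (U P S : Set (ℤ × ℤ)) (B C : UE × Bool) (M : Set UE) : Prop where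
  par : ∀ k ∈ U, parAt M k = ind2 (k = ahead B)
  fac : ∀ a ∈ M, ∀ k ∈ U, IsSide k a → k ∈ P ∨ k ∈ S
  bdP : ∀ B', BD P B' → (B'.1 ∈ M ↔ B' = B)
  bdU : ∀ C', BD U C' → (C'.1 ∈ M ↔ C' = C)
  ori : ∀ (M' : Set UE) (Φ : ℤ × ℤ → ZMod 2), IsPot U M' Φ →
    (∀ k ∈ S, ∀ a, IsSide k a → a ∈ M' → a ∈ M) → Φ (rg C) = Φ (rg B)

theorem exists_ray {U P S : Set (ℤ × ℤ)} {B C : UE × Bool} (hPU : P ⊆ U) (hB : BD P B)
    (hC : BD U C) (hSU : S ⊆ U) (hSP : ∀ f ∈ S, f ∉ P) (h : LkS S B C) : ∃ M, Ray U P S B C M := by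
  rcases h with rfl | ⟨hB0, hch⟩
  · refine ⟨{B.1}, ?_, ?_, ?_, ?_, fun _ _ _ _ => rfl⟩
    · intro k hk
      rw [parAt_side (adjF_ahead B).1 (isSide_ahead B.1 (!B.2)) (isSide_ahead B.1 B.2),
        ind2_neg (P := k = ahead (rv B)) (fun h => hC.2 (h ▸ hk)), zero_add]
    · intro a ha k hk hs
      rw [Set.mem_singleton_iff] at ha
      subst ha
      rcases side_faces hs with h | h
      · exact absurd (h ▸ hk) hC.2
      · exact Or.inl (h ▸ hB.1)
    · intro B' hB'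
      rw [Set.mem_singleton_iff]
      exact ⟨fun h => hB'.eq_of_fst hB h, fun h => by rw [h]⟩
    · intro C' hC'
      rw [Set.mem_singleton_iff]
      exact ⟨fun h => hC'.eq_of_fst hC h, fun h => by rw [h]⟩
  · obtain ⟨n, c, h0, hn, hc, hinj⟩ := exists_simple hch
    have hcS : ∀ i ≤ n, c i ∈ S := by
      intro i hi
      rcases Nat.eq_zero_or_pos i with rfl | hi0
      · rw [h0]; exact hB0
      · have := (hc (i - 1) (by omega)).2
        rwa [show i - 1 + 1 = i by omega] at this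
    have hdir : ∀ i, ∃ X : UE × Bool, i < n → ahead X = c i ∧ ahead (rv X) = c (i + 1) := by
      intro i
      by_cases hi : i < n
      · obtain ⟨X, h1, h2⟩ := adjF_dir (hc i hi).1
        exact ⟨X, fun _ => ⟨h1, h2⟩⟩
      · exact ⟨B, fun h => absurd h hi⟩
    choose X hX using hdir
    set e : ℕ → ℤ × ℤ := fun i => if i = 0 then ahead B else if i = n + 2 then ahead (rv C)
      else c (i - 1) with he
    set D : ℕ → UE × Bool := fun i => if i = 0 then B else if i = n + 1 then C else X (i - 1) with hD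
    have e0 : e 0 = ahead B := by simp [he]
    have e2 : e (n + 2) = ahead (rv C) := by simp [he]
    have e1 : ∀ i ≤ n, e (i + 1) = c i := by
      intro i hi
      simp only [he]
      rw [if_neg (by omega), if_neg (by omega), Nat.add_sub_cancel]
    have D0 : D 0 = B := by simp [hD]
    have D2 : D (n + 1) = C := by simp [hD]
    have D1 : ∀ i < n, D (i + 1) = X i := by
      intro i hi
      simp only [hD]
      rw [if_neg (by omega), if_neg (by omega), Nat.add_sub_cancel]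
    have hw : Walk e D (n + 2) := by
      constructor
      · have c0 : ∀ i ≤ n, ahead B ≠ c i := fun i hi h => hSP _ (hcS i hi) (h ▸ hB.1)
        have c2 : ∀ i ≤ n, ahead (rv C) ≠ c i := fun i hi h => hC.2 (h ▸ hSU (hcS i hi))
        have c02 : ahead B ≠ ahead (rv C) := fun h => hC.2 (h ▸ hPU hB.1)
        have val : ∀ i ≤ n + 2, (i = 0 ∧ e i = ahead B) ∨ (i = n + 2 ∧ e i = ahead (rv C)) ∨
            (0 < i ∧ i ≤ n + 1 ∧ e i = c (i - 1)) := by
          intro i hi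
          rcases Nat.eq_zero_or_pos i with rfl | hi0
          · exact Or.inl ⟨rfl, e0⟩
          · rcases Nat.lt_or_ge i (n + 2) with h | h
            · have := e1 (i - 1) (by omega)
              rw [show i - 1 + 1 = i by omega] at this
              exact Or.inr (Or.inr ⟨hi0, by omega, this⟩)
            · have : i = n + 2 := by omega
              subst this
              exact Or.inr (Or.inl ⟨rfl, e2⟩)
        intro i hi j hj hij
        rcases val i hi with ⟨a1, a2⟩ | ⟨a1, a2⟩ | ⟨a1, a2, a3⟩ <;>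
          rcases val j hj with ⟨b1, b2⟩ | ⟨b1, b2⟩ | ⟨b1, b2, b3⟩
        · omega
        · exact absurd (a2.symm.trans (hij.trans b2)) c02
        · exact absurd (a2.symm.trans (hij.trans b3)) (c0 _ (by omega))
        · exact absurd (b2.symm.trans (hij.symm.trans a2)) c02
        · omega
        · exact absurd (a2.symm.trans (hij.trans b3)) (c2 _ (by omega))
        · exact absurd (b2.symm.trans (hij.symm.trans a3)) (c0 _ (by omega))
        · exact absurd (b2.symm.trans (hij.symm.trans a3)) (c2 _ (by omega))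
        · have := hinj (i - 1) (by omega) (j - 1) (by omega) (a3.symm.trans (hij.trans b3))
          omega
      · intro i hi
        rcases Nat.eq_zero_or_pos i with rfl | hi0
        · rw [D0, e0]
        · obtain ⟨j, rfl⟩ : ∃ j, i = j + 1 := ⟨i - 1, by omega⟩
          rcases Nat.lt_or_ge j n with h | h
          · rw [D1 j h, (hX j h).1, e1 j h.le]
          · have : j = n := by omega
            subst this
            rw [D2, e1 j le_rfl, hn]
      · intro i hi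
        rcases Nat.eq_zero_or_pos i with rfl | hi0
        · rw [D0, e1 0 (Nat.zero_le _), h0]
        · obtain ⟨j, rfl⟩ : ∃ j, i = j + 1 := ⟨i - 1, by omega⟩
          rcases Nat.lt_or_ge j n with h | h
          · rw [D1 j h, (hX j h).2, e1 (j + 1) h]
          · have : j = n := by omega
            subst this
            rw [D2, e2]
    have eS : ∀ i, 0 < i → i ≤ n + 1 → e i ∈ S := by
      intro i h1 h2
      have := e1 (i - 1) (by omega)
      rw [show i - 1 + 1 = i by omega] at this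
      rw [this]
      exact hcS _ (by omega)
    refine ⟨wkM D (n + 2), ?_, ?_, ?_, ?_, ?_⟩
    · intro k hk
      rw [hw.par k, e0, e2, ind2_neg (P := k = ahead (rv C)) (fun h => hC.2 (h ▸ hk)), add_zero]
    · rintro a ⟨i, hi, rfl⟩ k hk hs
      have aux : ∀ j ≤ n + 2, k = e j → k ∈ P ∨ k ∈ S := by
        intro j hj hkj
        rcases Nat.eq_zero_or_pos j with rfl | hj0
        · rw [hkj, e0]; exact Or.inl hB.1
        · rcases Nat.lt_or_ge j (n + 2) with h | h
          · rw [hkj]; exact Or.inr (eS j hj0 (by omega))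
          · have : j = n + 2 := by omega
            subst this
            rw [e2] at hkj
            exact absurd (hkj ▸ hk) hC.2
      rcases hw.side hi hs with h | h
      · exact aux i (by omega) h
      · exact aux (i + 1) (by omega) h
    · intro B' hB'
      constructor
      · rintro ⟨i, hi, h⟩
        have hs : IsSide (ahead B') (D i).1 := by rw [← h]; exact isSide_ahead B'.1 B'.2
        have aux : ∀ j ≤ n + 2, ahead B' = e j → j = 0 := by
          intro j hj hkj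
          rcases Nat.eq_zero_or_pos j with rfl | hj0
          · rfl
          · exfalso
            rcases Nat.lt_or_ge j (n + 2) with h | h
            · exact hSP _ (eS j hj0 (by omega)) (hkj ▸ hB'.1)
            · have : j = n + 2 := by omega
              subst this
              rw [e2] at hkj
              exact hC.2 (hkj ▸ hPU hB'.1)
        have hi0 : i = 0 := by
          rcases hw.side hi hs with h | h
          · exact aux i (by omega) h
          · have := aux (i + 1) (by omega) h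
            omega
        subst hi0
        rw [D0] at h
        exact hB'.eq_of_fst hB h
      · rintro rfl
        exact ⟨0, by omega, by rw [D0]⟩
    · intro C' hC'
      constructor
      · rintro ⟨i, hi, h⟩
        have hs : IsSide (ahead (rv C')) (D i).1 := by rw [← h]; exact isSide_ahead C'.1 (!C'.2)
        have aux : ∀ j ≤ n + 2, ahead (rv C') = e j → j = n + 2 := by
          intro j hj hkj
          rcases Nat.lt_or_ge j (n + 2) with h | h
          · exfalso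
            rcases Nat.eq_zero_or_pos j with rfl | hj0
            · rw [e0] at hkj
              exact hC'.2 (hkj ▸ hPU hB.1)
            · exact hC'.2 (hkj ▸ hSU (eS j hj0 (by omega)))
          · omega
        have hi0 : i = n + 1 := by
          rcases hw.side hi hs with h | h
          · have := aux i (by omega) h
            omega
          · have := aux (i + 1) (by omega) h
            omega
        subst hi0
        rw [D2] at h
        exact hC'.eq_of_fst hC h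
      · rintro rfl
        exact ⟨n + 1, by omega, by rw [D2]⟩
    · intro M' Φ hΦ hM'
      have := hw.lr hΦ (fun i h1 h2 => hSU (eS i h1 h2)) fun i h1 h2 a ha haM => hM' _ (eS i h1 h2) a ha haM
      rwa [D2, D0] at this

/-! ### Chords -/

/-- **Chords.** Two links and a chain in `P`. -/
theorem exists_chord {U P S₁ S₂ : Set (ℤ × ℤ)} {B₁ B₂ C₁ C₂ : UE × Bool} (hUf : U.Finite)
    (hUe : Esc U) (hPU : P ⊆ U) (hPc : EConn P) (hB₁ : BD P B₁) (hB₂ : BD P B₂) (hC₁ : BD U C₁)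
    (hC₂ : BD U C₂) (hS₁ : ∀ f ∈ S₁, f ∈ U ∧ f ∉ P) (hS₂ : ∀ f ∈ S₂, f ∈ U ∧ f ∉ P)
    (h₁ : LkS S₁ B₁ C₁) (h₂ : LkS S₂ B₂ C₂) :
    ∃ (M : Set UE) (Φ : ℤ × ℤ → ZMod 2), IsPot U M Φ ∧
      (∀ a ∈ M, ∀ k ∈ U, IsSide k a → k ∈ P ∨ k ∈ S₁ ∨ k ∈ S₂) ∧
      (∀ B, BD P B → (B.1 ∈ M ↔ ((B = B₁ ∧ B ≠ B₂) ∨ (B = B₂ ∧ B ≠ B₁)))) ∧
      (∀ C, BD U C → (C.1 ∈ M ↔ (C = C₁ ∧ C ≠ C₂) ∨ (C = C₂ ∧ C ≠ C₁))) ∧
      ((∀ f ∈ S₁, f ∉ S₂) → Φ (rg C₁) = Φ (rg B₁) ∧ Φ (rg C₂) = Φ (rg B₂)) := by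
  obtain ⟨M₁, r₁⟩ := exists_ray hPU hB₁ hC₁ (fun f hf => (hS₁ f hf).1) (fun f hf => (hS₁ f hf).2) h₁
  obtain ⟨M₂, r₂⟩ := exists_ray hPU hB₂ hC₂ (fun f hf => (hS₂ f hf).1) (fun f hf => (hS₂ f hf).2) h₂
  obtain ⟨-, M₃, hM3, hp3⟩ := chain_toggle (F := Pᶜ) (f := ahead B₁) (g := ahead B₂)
    (not_not.2 hB₁.1) ((show ChI P (ahead B₁) (ahead B₂) from
      hPc _ hB₁.1 _ hB₂.1).stepC fun f hf => not_not.2 hf)
  set M : Set UE := symmDiff (symmDiff M₁ M₂) M₃ with hM
  have hmem : ∀ a, a ∈ M → a ∈ M₁ ∨ a ∈ M₂ ∨ a ∈ M₃ := by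
    intro a ha
    simp only [hM, Set.mem_symmDiff] at ha
    tauto
  have heven : ∀ f ∈ U, EvenAt M f := by
    intro f hf
    rw [evenAt_iff, hM, parAt_symmDiff, parAt_symmDiff, r₁.par f hf, r₂.par f hf, hp3]
    generalize ind2 (f = ahead B₁) = p1
    generalize ind2 (f = ahead B₂) = p2
    revert p1 p2
    decide
  obtain ⟨Φ, hΦ⟩ := hUe.hasPot' hUf M heven
  have h3P : ∀ a ∈ M₃, ∀ k, IsSide k a → k ∈ P := by
    intro a ha k hk
    by_contra hn
    exact hM3 a ha k hn hk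
  refine ⟨M, Φ, hΦ, ?_, ?_, ?_, ?_⟩
  · intro a ha k hk hs
    rcases hmem a ha with h | h | h
    · rcases r₁.fac a h k hk hs with h | h
      · exact Or.inl h
      · exact Or.inr (Or.inl h)
    · rcases r₂.fac a h k hk hs with h | h
      · exact Or.inl h
      · exact Or.inr (Or.inr h)
    · exact Or.inl (h3P a h k hs)
  · intro B hB
    have n3 : B.1 ∉ M₃ := fun h => hB.2 (h3P _ h _ (isSide_ahead B.1 (!B.2)))
    have m1 := r₁.bdP B hB
    have m2 := r₂.bdP B hB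
    simp only [hM, Set.mem_symmDiff, n3, m1, m2]
    tauto
  · intro C hC
    have n3 : C.1 ∉ M₃ := fun h => hC.2 (hPU (h3P _ h _ (isSide_ahead C.1 (!C.2))))
    have m1 := r₁.bdU C hC
    have m2 := r₂.bdU C hC
    simp only [hM, Set.mem_symmDiff, n3, m1, m2]
    tauto
  · intro hdis
    constructor
    · refine r₁.ori M Φ hΦ fun k hk a ha haM => ?_
      rcases hmem a haM with h | h | h
      · exact h
      · exfalso
        rcases r₂.fac a h k (hS₁ k hk).1 ha with h' | h'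
        · exact (hS₁ k hk).2 h'
        · exact hdis k hk h'
      · exact absurd (h3P a h k ha) (hS₁ k hk).2
    · refine r₂.ori M Φ hΦ fun k hk a ha haM => ?_
      rcases hmem a haM with h | h | h
      · exfalso
        rcases r₁.fac a h k (hS₂ k hk).1 ha with h' | h'
        · exact (hS₂ k hk).2 h'
        · exact hdis k h' hk
      · exact h
      · exact absurd (h3P a h k ha) (hS₂ k hk).2

/-! ### Potentials along contours and links -/

section Pot

variable {U F S : Set (ℤ × ℤ)} {M : Set UE} {Φ : ℤ × ℤ → ZMod 2}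

/-- The potential on a contour with exactly two sides in `M`. -/
theorem pot_two (hP : IsPot U M Φ) (hFU : F ⊆ U) {A : UE × Bool} (hA : BD F A) {m x y : ℕ}
    (hM : ∀ i < m, (((sc F)^[i] A).1 ∈ M ↔ i = x ∨ i = y)) (hxy : x < y) (hy : y < m) :
    ∀ j ≤ m, Φ (lf ((sc F)^[j] A)) = Φ (lf A) + ind2 (x < j ∧ j ≤ y) := by
  intro j
  induction j with
  | zero =>
    intro _
    rw [ind2_neg (by omega), add_zero]
    rfl
  | succ j ih =>
    intro hj
    have ih' := ih (by omega)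
    have h5 := pot_side hP (hFU (hA.iterate j).1)
    rw [hM j (by omega)] at h5
    rw [Function.iterate_succ_apply', lf_sc]
    by_cases hjx : j = x ∨ j = y
    · have h6 := h5.1 hjx
      have h7 : Φ (rg ((sc F)^[j] A)) = Φ (lf ((sc F)^[j] A)) + 1 := (z2_ne _ _).1 h6.symm
      rw [h7, ih']
      rcases hjx with rfl | rfl
      · rw [ind2_neg (by omega), ind2_pos (by omega), add_zero]
      · rw [ind2_pos (by omega), ind2_neg (by omega), add_assoc, z2_add_self]
    · have h6 : Φ (lf ((sc F)^[j] A)) = Φ (rg ((sc F)^[j] A)) := by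
        by_contra hne
        exact hjx (h5.2 hne)
      rw [← h6, ih']
      congr 1
      exact ind2_congr (by omega)

/-- A potential is constant along a chain of faces without sides in `M`. -/
theorem pot_chain (hP : IsPot U M Φ) (hSU : S ⊆ U) (hS : ∀ g ∈ S, ∀ a, IsSide g a → a ∉ M)
    {g g' : ℤ × ℤ} (hg : g ∈ S) (hch : ChI S g g') {v v' : ℤ × ℤ} (hv : IsCor g v)
    (hv' : IsCor g' v') : Φ v' = Φ v := by
  induction hch generalizing v' with
  | refl => exact pot_face hP (hSU hg) (hS g hg) hv' hv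
  | @tail b c hb hs ih =>
    obtain ⟨C, hC1, hC2⟩ := adjF_dir hs.1
    have h1 : Φ (lf C) = Φ v := ih (v' := lf C) (by rw [← hC1]; exact isCor_in_lf C)
    rw [← h1]
    exact pot_face hP (hSU hs.2) (hS c hs.2) hv' (by rw [← hC2]; exact isCor_out_lf C)

/-- A potential is constant along a link whose faces have no sides in `M`. -/
theorem pot_lnk (hP : IsPot U M Φ) (hSU : S ⊆ U) (hS : ∀ g ∈ S, ∀ a, IsSide g a → a ∉ M)
    {B C : UE × Bool} (h : LkS S B C) : Φ (lf C) = Φ (lf B) := by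
  rcases h with rfl | ⟨h1, h2⟩
  · rfl
  · exact pot_chain hP hSU hS h1 h2 (isCor_out_lf B) (isCor_in_lf C)

end Pot

/-! ### The order -/

section Order

variable {U P : Set (ℤ × ℤ)} {A A' : UE × Bool} {m n : ℕ}

/-- The potential of a chord on the contours. -/
theorem chord_ctr (hUf : U.Finite) (hUe : Esc U) (hPU : P ⊆ U) (hPc : EConn P) (hA : BD P A)
    (hm : Per P m A) (hA' : BD U A') (hn : Per U n A') {S₁ S₂ : Set (ℤ × ℤ)}
    (hS₁ : ∀ f ∈ S₁, f ∈ U ∧ f ∉ P) (hS₂ : ∀ f ∈ S₂, f ∈ U ∧ f ∉ P) {i₁ i₂ v₁ v₂ : ℕ}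
    (hi : i₁ < i₂) (hi₂ : i₂ < m) (hv₁ : v₁ < n) (hv₂ : v₂ < n)
    (h₁ : LkS S₁ ((sc P)^[i₁] A) ((sc U)^[v₁] A')) (h₂ : LkS S₂ ((sc P)^[i₂] A) ((sc U)^[v₂] A')) :
    ∃ (M : Set UE) (Φ : ℤ × ℤ → ZMod 2), IsPot U M Φ ∧
      (∀ a ∈ M, ∀ k ∈ U, IsSide k a → k ∈ P ∨ k ∈ S₁ ∨ k ∈ S₂) ∧
      (∀ j ≤ m, Φ (lf ((sc P)^[j] A)) = Φ (lf A) + ind2 (i₁ < j ∧ j ≤ i₂)) ∧
      (∀ v < n, (((sc U)^[v] A').1 ∈ M ↔ (v = v₁ ∧ v ≠ v₂) ∨ (v = v₂ ∧ v ≠ v₁))) ∧
      (∀ v ≤ n, Φ (lf ((sc U)^[v] A')) = Φ (lf A') + ind2 (min v₁ v₂ < v ∧ v ≤ max v₁ v₂)) ∧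
      ((∀ f ∈ S₁, f ∉ S₂) → Φ (rg ((sc U)^[v₁] A')) = Φ (rg ((sc P)^[i₁] A)) ∧
        Φ (rg ((sc U)^[v₂] A')) = Φ (rg ((sc P)^[i₂] A))) := by
  obtain ⟨M, Φ, hΦ, hf, hbP, hbU, hor⟩ := exists_chord hUf hUe hPU hPc (hA.iterate i₁)
    (hA.iterate i₂) (hA'.iterate v₁) (hA'.iterate v₂) hS₁ hS₂ h₁ h₂
  have hU' : ∀ v < n, (((sc U)^[v] A').1 ∈ M ↔ (v = v₁ ∧ v ≠ v₂) ∨ (v = v₂ ∧ v ≠ v₁)) := by
    intro v hv
    rw [hbU _ (hA'.iterate v)]
    have e1 : (sc U)^[v] A' = (sc U)^[v₁] A' ↔ v = v₁ :=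
      ⟨fun h => hn.inj v hv v₁ hv₁ h, fun h => by rw [h]⟩
    have e2 : (sc U)^[v] A' = (sc U)^[v₂] A' ↔ v = v₂ :=
      ⟨fun h => hn.inj v hv v₂ hv₂ h, fun h => by rw [h]⟩
    rw [ne_eq, ne_eq, e1, e2]
  refine ⟨M, Φ, hΦ, hf, ?_, hU', ?_, hor⟩
  · refine pot_two hΦ hPU hA (fun i hi' => ?_) hi hi₂
    rw [hbP _ (hA.iterate i)]
    have e1 : (sc P)^[i] A = (sc P)^[i₁] A ↔ i = i₁ :=
      ⟨fun h => hm.inj i hi' i₁ (by omega) h, fun h => by rw [h]⟩
    have e2 : (sc P)^[i] A = (sc P)^[i₂] A ↔ i = i₂ :=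
      ⟨fun h => hm.inj i hi' i₂ hi₂ h, fun h => by rw [h]⟩
    rw [ne_eq, ne_eq, e1, e2]
    omega
  · rcases Nat.lt_trichotomy v₁ v₂ with h | h | h
    · rw [min_eq_left h.le, max_eq_right h.le]
      refine pot_two hΦ (Set.Subset.refl U) hA' (fun i hi' => ?_) h hv₂
      rw [hU' i hi']
      omega
    · subst h
      intro v hv
      rw [ind2_neg (by omega), add_zero]
      -- no side in `M`
      induction v with
      | zero => rfl
      | succ v ih =>
        have h5 := pot_side hΦ (hA'.iterate v).1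
        rw [hU' v (by omega)] at h5
        rw [Function.iterate_succ_apply', lf_sc]
        rw [← ih (by omega)]
        by_contra hne
        have := h5.2 (Ne.symm hne)
        omega
    · rw [min_eq_right h.le, max_eq_left h.le]
      refine pot_two hΦ (Set.Subset.refl U) hA' (fun i hi' => ?_) h hv₁
      rw [hU' i hi']
      omega

/-- A link which avoids the chord. -/
theorem lks_out {S₁ S₂ S₃ : Set (ℤ × ℤ)} {M : Set UE} {Φ : ℤ × ℤ → ZMod 2} (hΦ : IsPot U M Φ)
    (hf : ∀ a ∈ M, ∀ k ∈ U, IsSide k a → k ∈ P ∨ k ∈ S₁ ∨ k ∈ S₂)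
    (hS₃ : ∀ f ∈ S₃, f ∈ U ∧ f ∉ P) (h13 : ∀ f ∈ S₃, f ∉ S₁) (h23 : ∀ f ∈ S₃, f ∉ S₂)
    {B C : UE × Bool} (h : LkS S₃ B C) : Φ (lf C) = Φ (lf B) := by
  refine pot_lnk hΦ (fun f hf' => (hS₃ f hf').1) ?_ h
  intro g hg a ha haM
  rcases hf a haM g (hS₃ g hg).1 ha with h | h | h
  · exact (hS₃ g hg).2 h
  · exact h13 g hg h
  · exact h23 g hg h

/-- The side of `U` of a link which avoids the chord is not a side of the chord. -/
theorem lks_ne {S₁ S₂ S₃ : Set (ℤ × ℤ)} {M : Set UE} (hPU : P ⊆ U)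
    (hf : ∀ a ∈ M, ∀ k ∈ U, IsSide k a → k ∈ P ∨ k ∈ S₁ ∨ k ∈ S₂)
    (hS₃ : ∀ f ∈ S₃, f ∈ U ∧ f ∉ P) (h13 : ∀ f ∈ S₃, f ∉ S₁) (h23 : ∀ f ∈ S₃, f ∉ S₂)
    {B C : UE × Bool} (hC : BD U C) (h : LkS S₃ B C) (hB : B.1 ∉ M) : C.1 ∉ M := by
  rcases h with rfl | ⟨h1, h2⟩
  · exact hB
  · intro haM
    have hg : ahead C ∈ S₃ := ChI.mem h1 h2
    rcases hf _ haM _ hC.1 (isSide_ahead C.1 C.2) with h | h | h
    · exact (hS₃ _ hg).2 h
    · exact h13 _ hg h
    · exact h23 _ hg h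

/-- **Three disjoint links preserve the cyclic order.** -/
theorem cyc3 (hUf : U.Finite) (hUe : Esc U) (hPU : P ⊆ U) (hPc : EConn P) (hA : BD P A)
    (hm : Per P m A) (hA' : BD U A') (hn : Per U n A') {S₁ S₂ S₃ : Set (ℤ × ℤ)}
    (hS₁ : ∀ f ∈ S₁, f ∈ U ∧ f ∉ P) (hS₂ : ∀ f ∈ S₂, f ∈ U ∧ f ∉ P)
    (hS₃ : ∀ f ∈ S₃, f ∈ U ∧ f ∉ P) (h12 : ∀ f ∈ S₁, f ∉ S₂) (h13 : ∀ f ∈ S₁, f ∉ S₃)
    (h23 : ∀ f ∈ S₂, f ∉ S₃) {i₁ i₂ i₃ v₁ v₂ v₃ : ℕ} (hi₁ : i₁ < i₂) (hi₂ : i₂ < i₃) (hi₃ : i₃ < m)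
    (hv₁ : v₁ < n) (hv₂ : v₂ < n) (hv₃ : v₃ < n)
    (l₁ : LkS S₁ ((sc P)^[i₁] A) ((sc U)^[v₁] A')) (l₂ : LkS S₂ ((sc P)^[i₂] A) ((sc U)^[v₂] A'))
    (l₃ : LkS S₃ ((sc P)^[i₃] A) ((sc U)^[v₃] A')) :
    (v₁ < v₂ ∧ v₂ < v₃) ∨ (v₂ < v₃ ∧ v₃ < v₁) ∨ (v₃ < v₁ ∧ v₁ < v₂) := by
  obtain ⟨M, Φ, hΦ, hf, hP', hU', hU, hor⟩ := chord_ctr hUf hUe hPU hPc hA hm hA' hn hS₁ hS₃
    (hi₁.trans hi₂) hi₃ hv₁ hv₃ l₁ l₃
  obtain ⟨o1, -⟩ := hor h13
  have hB : ∀ j < m, j ≠ i₁ → j ≠ i₃ → ((sc P)^[j] A).1 ∉ M := by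
    intro j hj n1 n3 hM
    have e := (pot_side hΦ (hPU (hA.iterate j).1)).1 hM
    rw [← lf_sc P, ← Function.iterate_succ_apply' (sc P), hP' j hj.le, hP' (j + 1) hj] at e
    exact e (by congr 1; exact ind2_congr (by omega))
  have e2 := lks_out hΦ hf hS₂ (fun f hf h => h12 f h hf) h23 l₂
  have n2 := lks_ne hPU hf hS₂ (fun f hf h => h12 f h hf) h23 (hA'.iterate v₂) l₂
    (hB i₂ (by omega) (by omega) (by omega))
  rw [hU' v₂ hv₂] at n2
  -- different sides
  rw [← lf_sc U, ← lf_sc P, ← Function.iterate_succ_apply' (sc U),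
    ← Function.iterate_succ_apply' (sc P), hU (v₁ + 1) hv₁, hP' (i₁ + 1) (by omega)] at o1
  rw [hU v₂ hv₂.le, hP' i₂ (by omega)] at e2
  rw [ind2_pos (P := i₁ < i₁ + 1 ∧ i₁ + 1 ≤ i₃) (by omega)] at o1
  rw [ind2_pos (P := i₁ < i₂ ∧ i₂ ≤ i₃) (by omega)] at e2
  have e3 : ind2 (min v₁ v₃ < v₂ ∧ v₂ ≤ max v₁ v₃) = ind2 (min v₁ v₃ < v₁ + 1 ∧ v₁ + 1 ≤ max v₁ v₃) := by
    have := e2.trans o1.symm
    exact add_left_cancel this
  have e4 : (min v₁ v₃ < v₂ ∧ v₂ ≤ max v₁ v₃) ↔ (min v₁ v₃ < v₁ + 1 ∧ v₁ + 1 ≤ max v₁ v₃) := by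
    rw [← ind2_eq_one (P := min v₁ v₃ < v₂ ∧ v₂ ≤ max v₁ v₃), e3, ind2_eq_one]
  have hne : v₁ ≠ v₃ := by
    rintro rfl
    -- the chord does not meet the contour of `U`
    have hcl := hf
    rcases l₁ with l₁ | ⟨l₁, l₁'⟩ <;> rcases l₃ with l₃ | ⟨l₃, l₃'⟩
    · have := hm.inj i₁ (by omega) i₃ hi₃ (l₁.trans l₃.symm)
      omega
    · have h1 := ChI.mem l₃ l₃'
      rw [← l₁] at h1
      exact (hS₃ _ h1).2 (hA.iterate i₁).1
    · have h1 := ChI.mem l₁ l₁'
      rw [← l₃] at h1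
      exact (hS₁ _ h1).2 (hA.iterate i₃).1
    · exact h13 _ (ChI.mem l₁ l₁') (ChI.mem l₃ l₃')
  have n2' : v₂ ≠ v₁ ∧ v₂ ≠ v₃ := by
    omega
  omega

/-- **Separation.** Only links of different pairs are supposed to be disjoint. -/
theorem link_sep (hUf : U.Finite) (hUe : Esc U) (hPU : P ⊆ U) (hPc : EConn P) (hA : BD P A)
    (hm : Per P m A) (hA' : BD U A') (hn : Per U n A') {S₁ S₂ S₃ S₄ : Set (ℤ × ℤ)}
    (hS₁ : ∀ f ∈ S₁, f ∈ U ∧ f ∉ P) (hS₂ : ∀ f ∈ S₂, f ∈ U ∧ f ∉ P)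
    (hS₃ : ∀ f ∈ S₃, f ∈ U ∧ f ∉ P) (hS₄ : ∀ f ∈ S₄, f ∈ U ∧ f ∉ P)
    (h12 : ∀ f ∈ S₂, f ∉ S₁) (h14 : ∀ f ∈ S₄, f ∉ S₁) (h32 : ∀ f ∈ S₂, f ∉ S₃)
    (h34 : ∀ f ∈ S₄, f ∉ S₃) {i₁ i₂ i₃ i₄ v₁ v₂ v₃ v₄ : ℕ} (hi₁ : i₁ < i₂) (hi₂ : i₂ < i₃)
    (hi₃ : i₃ < m) (hi₄ : i₄ < i₁ ∨ i₃ < i₄) (hi₄' : i₄ < m)
    (hv₁ : v₁ < n) (hv₂ : v₂ < n) (hv₃ : v₃ < n) (hv₄ : v₄ < n)
    (l₁ : LkS S₁ ((sc P)^[i₁] A) ((sc U)^[v₁] A')) (l₂ : LkS S₂ ((sc P)^[i₂] A) ((sc U)^[v₂] A'))
    (l₃ : LkS S₃ ((sc P)^[i₃] A) ((sc U)^[v₃] A')) (l₄ : LkS S₄ ((sc P)^[i₄] A) ((sc U)^[v₄] A')) :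
    (min v₁ v₃ < v₂ ∧ v₂ < max v₁ v₃ ∧ (v₄ < min v₁ v₃ ∨ max v₁ v₃ < v₄)) ∨
      (min v₁ v₃ < v₄ ∧ v₄ < max v₁ v₃ ∧ (v₂ < min v₁ v₃ ∨ max v₁ v₃ < v₂)) := by
  obtain ⟨M, Φ, hΦ, hf, hP', hU', hU, -⟩ := chord_ctr hUf hUe hPU hPc hA hm hA' hn hS₁ hS₃
    (hi₁.trans hi₂) hi₃ hv₁ hv₃ l₁ l₃
  have hB : ∀ j < m, j ≠ i₁ → j ≠ i₃ → ((sc P)^[j] A).1 ∉ M := by
    intro j hj n1 n3 hM
    have e := (pot_side hΦ (hPU (hA.iterate j).1)).1 hM
    rw [← lf_sc P, ← Function.iterate_succ_apply' (sc P), hP' j hj.le, hP' (j + 1) hj] at e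
    exact e (by congr 1; exact ind2_congr (by omega))
  have e2 := lks_out hΦ hf hS₂ h12 h32 l₂
  have n2 := lks_ne hPU hf hS₂ h12 h32 (hA'.iterate v₂) l₂ (hB i₂ (by omega) (by omega) (by omega))
  have e4 := lks_out hΦ hf hS₄ h14 h34 l₄
  have n4 := lks_ne hPU hf hS₄ h14 h34 (hA'.iterate v₄) l₄ (hB i₄ hi₄' (by omega) (by omega))
  rw [hU' v₂ hv₂] at n2
  rw [hU' v₄ hv₄] at n4
  rw [hU v₂ hv₂.le, hP' i₂ (by omega), ind2_pos (P := i₁ < i₂ ∧ i₂ ≤ i₃) (by omega)] at e2
  rw [hU v₄ hv₄.le, hP' i₄ hi₄'.le, ind2_neg (P := i₁ < i₄ ∧ i₄ ≤ i₃) (by omega)] at e4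
  have hx : ¬ ((min v₁ v₃ < v₂ ∧ v₂ ≤ max v₁ v₃) ↔ (min v₁ v₃ < v₄ ∧ v₄ ≤ max v₁ v₃)) := by
    intro h
    rw [ind2_congr h, e4] at e2
    revert e2
    generalize Φ (lf A) = p
    revert p
    decide
  have hne : v₁ ≠ v₃ := by
    rintro rfl
    apply hx
    omega
  omega

/-- **No chord outside.** A chain outside `P` between the outer faces of two sides of `P` does not
separate two anchored sides of `P`. -/
theorem no_chord (hUf : U.Finite) (hUc : EConn U) (hUe : Esc U) (hPU : P ⊆ U) (hPc : EConn P)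
    (hA : BD P A) (hm : Per P m A) {S S₃ S₄ : Set (ℤ × ℤ)} (hS : ∀ f ∈ S, f ∈ U ∧ f ∉ P)
    (hS₃ : ∀ f ∈ S₃, f ∈ U ∧ f ∉ P) (hS₄ : ∀ f ∈ S₄, f ∈ U ∧ f ∉ P)
    (h3 : ∀ f ∈ S₃, f ∉ S) (h4 : ∀ f ∈ S₄, f ∉ S) {i j k l : ℕ} (hik : i < k) (hkj : k < j)
    (hj : j < m) (hl : l < i ∨ j < l) (hlm : l < m) (hi : ahead (rv ((sc P)^[i] A)) ∈ S)
    (hch : ChI S (ahead (rv ((sc P)^[i] A))) (ahead (rv ((sc P)^[j] A)))) {C₃ C₄ : UE × Bool}
    (hC₃ : BD U C₃) (hC₄ : BD U C₄) (l₃ : LkS S₃ ((sc P)^[k] A) C₃) (l₄ : LkS S₄ ((sc P)^[l] A) C₄) :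
    False := by
  obtain ⟨M, Φ, hΦ, hfaces, hM⟩ := exists_cross hUf hUe hPc hA hm.inj (fun f hf => (hS f hf).2)
    (hik.trans hkj) hj hi hch
  have hbd : ∀ B, BD U B → B.1 ∉ M := by
    intro B hB h
    rcases hfaces _ h _ (isSide_ahead B.1 (!B.2)) with h1 | h1
    · exact hB.2 (hS _ h1).1
    · exact hB.2 (hPU h1)
  have e3 : Φ (lf C₃) = Φ (lf ((sc P)^[k] A)) := by
    refine pot_lnk hΦ (fun f hf' => (hS₃ f hf').1) ?_ l₃
    intro g hg a ha haM
    rcases hfaces a haM g ha with h | h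
    · exact h3 g hg h
    · exact (hS₃ g hg).2 h
  have e4 : Φ (lf C₄) = Φ (lf ((sc P)^[l] A)) := by
    refine pot_lnk hΦ (fun f hf' => (hS₄ f hf').1) ?_ l₄
    intro g hg a ha haM
    rcases hfaces a haM g ha with h | h
    · exact h4 g hg h
    · exact (hS₄ g hg).2 h
  have e5 := (pot_bd hUf hUc hUe hΦ hbd hC₄ hC₃).1
  have hpt := pot_two hΦ hPU hA hM (hik.trans hkj) hj
  rw [e3, e4, hpt k (by omega), hpt l hlm.le, ind2_pos (P := i < k ∧ k ≤ j) (by omega),
    ind2_neg (P := i < l ∧ l ≤ j) (by omega)] at e5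
  revert e5
  generalize Φ (lf A) = p
  revert p
  decide

end Order

end Pool.Agent.SixB.Top
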