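import Pool.Agent.Lib.SixB.S8RecSkel
import Pool.Agent.Lib.SixB.S8ChainA

/-!
# Step 8: the row of the output

`RowEv ε P`: the property `P` holds off an event of probability `ε`. `RowQ`: the true needle is placed if the coarse
chain places it. `NearT`: the strand stays near the tips, in the stages before `N`; `nearT_of`: the
kinds of stages. `stepOut_row`: the row of the output from `RowQ` and `RowEv NearT`.
-/

set_option autoImplicit false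

namespace Pool.Agent.SixB.Tru

open Finset Filter Topology Pool.Agent.Perc Pool.Agent.PercT Pool.Agent.PercX60
open Pool.Agent.SixB Pool.Agent.SixB.Rule Pool.Agent.SixB.Dct Pool.Agent.SixB.Mv
open Pool.Agent.SixB.Tps Pool.Agent.SixB.Out

section rows

variable (𝔇 : Dat) (G : ℕ → ℕ → ℕ) (Bd : (ℕ → ℕ) → ℕ → ℕ → Set Cfg)

/-- The property `P` (of the resolutions, the size, the number of stages and the configuration) holds on
the good configurations, off an event of probability at most `ε`. -/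
def RowEv (ε : ℝ) (P : (ℕ → ℕ) → ℕ → ℕ → Cfg → Prop) : Prop := ∀ N : ℕ, ∃ ℓ₀ : ℕ,
  ∀ d : ℕ → ℕ, ℓ₀ ≤ d N → (chD 𝔇 G Bd).Gro N d → ∀ᶠ n in atTop, ∃ E : Set Cfg, pr (Sn n) E ≤ ε ∧
    ∀ ω, ω ∉ E → Gd Bd N d n ω → 𝔇.m ≤ nfin 𝔇 d n ω N → P d n N ω

/-- The tips of the needle `j`. -/
noncomputable def tipsT (d : ℕ → ℕ) (x : List Rec) (j : ℕ) : Option (ℂ × List ℂ) :=
  tipsX (𝔇.prm d) d (𝔇.W₀ (d 0)) x j

/-- row `ndl`: the true needle is placed if the coarse chain is running -/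
def RowQ : Prop := ∀ d n i ω, ω ∉ Bd d n i →
  (𝔇.cs d (tst 𝔇 d n ω i).x).run.isSome = true → (tst 𝔇 d n ω i).q.isSome = true

/-- The point `w` of the coarse lattice is at distance at most `ρ` from the strand at the time `t`. -/
def NearR (d : ℕ → ℕ) (n : ℕ) (ω : Cfg) (ρ : ℝ) (V : Finset (ℤ × ℤ)) (q : Rule.Ndl)
    (w : ℤ × ℤ) (t : ℕ) : Prop :=
  (|(ua (pS V q ω t)).1 - (unt d n : ℤ) * w.1| : ℤ) ≤ ρ ∧
    (|(ua (pS V q ω t)).2 - (unt d n : ℤ) * w.2| : ℤ) ≤ ρ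

/-- The strand is near the tips in the stages before `N`. -/
structure NearT (d : ℕ → ℕ) (n N : ℕ) (ρ : ℝ) (ω : Cfg) : Prop where
  /-- a stage after which the coarse chain is still running -/
  near : ∀ i, i + 1 < N → ∀ D q, (𝔇.cs d (tst 𝔇 d n ω i).x).run = some D →
    (𝔇.cs d (tst 𝔇 d n ω (i + 1)).x).run.isSome = true → (tst 𝔇 d n ω i).q = some q →
      ∀ t, (tst 𝔇 d n ω i).t ≤ t → t ≤ (tst 𝔇 d n ω (i + 1)).t →
        NearR d n ω ρ (tst 𝔇 d n ω i).V q D.tip t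
  /-- the last stage and the rest of the step -/
  last : ∀ i, i + 1 < N → ∀ D q, (𝔇.cs d (tst 𝔇 d n ω i).x).run = some D →
    (𝔇.cs d (tst 𝔇 d n ω (i + 1)).x).run = none → (tst 𝔇 d n ω i).q = some q →
      (tst 𝔇 d n ω i).t ≤ perS n ω (tst 𝔇 d n ω i).V q ∧
      ∀ t, (tst 𝔇 d n ω i).t ≤ t → t ≤ perS n ω (tst 𝔇 d n ω i).V q →
        NearR d n ω ρ (tst 𝔇 d n ω i).V q D.tip t

variable {𝔇 G Bd}

/-! ### Rare events -/

variable {ε ε' : ℝ}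

theorem RowEv.and {P Q : (ℕ → ℕ) → ℕ → ℕ → Cfg → Prop} (hP : RowEv 𝔇 G Bd ε P)
    (hQ : RowEv 𝔇 G Bd ε' Q) : RowEv 𝔇 G Bd (ε + ε') fun d n N ω => P d n N ω ∧ Q d n N ω := by
  intro N
  obtain ⟨ℓ₁, h1⟩ := hP N
  obtain ⟨ℓ₂, h2⟩ := hQ N
  refine ⟨max ℓ₁ ℓ₂, fun d hd hG => ?_⟩
  filter_upwards [h1 d (by omega) hG, h2 d (by omega) hG] with n g1 g2
  obtain ⟨E, hE, hE'⟩ := g1
  obtain ⟨F, hF, hF'⟩ := g2
  refine ⟨E ∪ F, (pr_union_le _ _ _).trans (by linarith), fun ω hω hg hm => ?_⟩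
  rw [Set.mem_union, not_or] at hω
  exact ⟨hE' ω hω.1 hg hm, hF' ω hω.2 hg hm⟩

theorem RowEv.mono {P Q : (ℕ → ℕ) → ℕ → ℕ → Cfg → Prop} (hP : RowEv 𝔇 G Bd ε P) (hε : ε ≤ ε')
    (h : ∀ d n N ω, Gd Bd N d n ω → 𝔇.m ≤ nfin 𝔇 d n ω N → P d n N ω → Q d n N ω) :
    RowEv 𝔇 G Bd ε' Q := by
  intro N
  obtain ⟨ℓ₁, h1⟩ := hP N
  refine ⟨ℓ₁, fun d hd hG => ?_⟩
  filter_upwards [h1 d hd hG] with n g1
  obtain ⟨E, hE, hE'⟩ := g1
  exact ⟨E, hE.trans hε, fun ω hω hg hm => h d n N ω hg hm (hE' ω hω hg hm)⟩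

/-- A property which holds on all good configurations. -/
theorem RowEv.of_gd {P : (ℕ → ℕ) → ℕ → ℕ → Cfg → Prop} (hε : 0 ≤ ε)
    (h : ∀ d n N ω, Gd Bd N d n ω → 𝔇.m ≤ nfin 𝔇 d n ω N → P d n N ω) : RowEv 𝔇 G Bd ε P := by
  intro N
  refine ⟨0, fun d _ _ => Eventually.of_forall fun n => ⟨∅, ?_, fun ω _ => h d n N ω⟩⟩
  rw [pr_none]
  exact hε

/-- A property of one size which holds if the size is large, used under a property `P`. -/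
theorem RowEv.ev {P Q : (ℕ → ℕ) → ℕ → ℕ → Cfg → Prop} (hP : RowEv 𝔇 G Bd ε P)
    (h : ∀ N d, ∀ᶠ n in atTop, ∀ ω, Gd Bd N d n ω → 𝔇.m ≤ nfin 𝔇 d n ω N → P d n N ω →
      Q d n N ω) : RowEv 𝔇 G Bd ε Q := by
  intro N
  obtain ⟨ℓ₁, h1⟩ := hP N
  refine ⟨ℓ₁, fun d hd hG => ?_⟩
  filter_upwards [h1 d hd hG, h N d] with n g1 g2
  obtain ⟨E, hE, hE'⟩ := g1
  exact ⟨E, hE, fun ω hω hg hm => g2 ω hg hm (hE' ω hω hg hm)⟩

/-! ### The output -/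

theorem nearW_of {d : ℕ → ℕ} {n : ℕ} {ω : Cfg} {ρ : ℝ} {V : Finset (ℤ × ℤ)} {q : Rule.Ndl}
    {w : ℤ × ℤ} {t : ℕ} (h : NearR d n ω ρ V q w t) : NearW d n ω ⌊ρ⌋ V q w t :=
  ⟨Int.le_floor.2 h.1, Int.le_floor.2 h.2⟩

theorem goodO_of {d : ℕ → ℕ} {n N : ℕ} {ω : Cfg} {ρ : ℝ} (hq : RowQ 𝔇 Bd) (hG : Gd Bd N d n ω)
    (h : NearT 𝔇 d n N ρ ω) : GoodO 𝔇 d n N ⌊ρ⌋ ω where
  ndl i hi _ h2 := hq d n i ω (hG i (by omega)) h2
  near i hi D q h1 h2 h3 t h4 h5 := nearW_of (h.near i hi D q h1 h2 h3 t h4 h5)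
  last i hi D q h1 h2 h3 := by
    obtain ⟨h4, h5⟩ := h.last i hi D q h1 (run_none h2) h3
    exact ⟨h4, fun t h6 h7 => nearW_of (h5 t h6 h7)⟩

/-- **The row of the output.** -/
theorem stepOut_row {δ : ℝ} (hδ : 0 < δ) (hq : RowQ 𝔇 Bd)
    (hnear : RowEv 𝔇 G Bd ε fun d n N ω => NearT 𝔇 d n N (δ / 2 * n) ω) :
    RowEv 𝔇 G Bd ε fun d n N ω => ∀ j < 𝔇.m, Out.StepOut n (TruR.ruleT 𝔇 d n) (cfgE n ω) j δ
      (tipsT 𝔇 d (hx 𝔇 d n N ω) j) := by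
  intro N
  obtain ⟨ℓ₀, h0⟩ := hnear N
  refine ⟨ℓ₀, fun d hd hgro => ?_⟩
  obtain ⟨B, hB0, hB⟩ := exists_bound (π := 𝔇.prm d) (d := d) (W₀ := 𝔇.W₀ (d 0))
    ((chD 𝔇 G Bd).hst d N) (N + 1)
  have hev : ∀ᶠ n : ℕ in atTop, ((1 : ℝ) + 2 * B) / n ≤ δ / 2 := by
    obtain ⟨M, hM⟩ := exists_nat_ge (2 * (1 + 2 * (B : ℝ)) / δ)
    filter_upwards [eventually_ge_atTop M, eventually_gt_atTop 0] with n hn hn0
    have hn0' : (0 : ℝ) < n := by exact_mod_cast hn0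
    have h1 : 2 * (1 + 2 * (B : ℝ)) / δ ≤ n := hM.trans (by exact_mod_cast hn)
    rw [div_le_iff₀ hδ] at h1
    rw [div_le_iff₀ hn0']
    linarith
  filter_upwards [h0 d hd hgro, hev, eventually_gt_atTop 0] with n hH hn1 hn0
  obtain ⟨E, hE, hgood⟩ := hH
  refine ⟨E, hE, fun ω hω hG hm j hj => ?_⟩
  have hmemx : histL (fun i => recS 𝔇 d n i) N ω ∈ (chD 𝔇 G Bd).hst d N :=
    histL_mem fun i _ => recS_mem ω i
  have hn0' : (0 : ℝ) < n := by exact_mod_cast hn0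
  refine stepOut_inst hn0 (ts := TruR.ts 𝔇 d n) ⟨fun _ => rfl, fun _ _ => rfl⟩
    (TruR.trcOK 𝔇 d n) (goodO_of hq hG (hgood ω hω hG hm)) (lt_of_lt_of_le hj hm) (B := B)
    (fun i hi => ?_) ?_
  · have := hB _ hmemx i (by omega)
    rwa [sta_eq_stc (by omega)] at this
  · have h5 : ((⌊δ / 2 * n⌋ : ℤ) : ℝ) / n ≤ δ / 2 := by
      rw [div_le_iff₀ hn0']
      exact Int.floor_le _
    have h6 : (((⌊δ / 2 * n⌋ : ℤ) : ℝ) + 1 + 2 * B) / n =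
        ((⌊δ / 2 * n⌋ : ℤ) : ℝ) / n + ((1 : ℝ) + 2 * B) / n := by ring
    rw [h6]
    linarith

/-! ### The kinds of stages -/

variable {d : ℕ → ℕ} {n N : ℕ} {ω : Cfg}

/-- In the entrance stage the time is zero. -/
theorem t_ini {i : ℕ} (h : (𝔇.cs d (tst 𝔇 d n ω i).x).ini = true) : (tst 𝔇 d n ω i).t = 0 := by
  refine t_start fun h1 => ?_
  have h2 : (𝔇.cs d (tst 𝔇 d n ω i).x).ini = false := stc_ini h1
  rw [h] at h2
  cases h2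

/-- The entrance stage is not the last stage. -/
theorem run_ini {i : ℕ} {D : Dom} (hD : (𝔇.cs d (tst 𝔇 d n ω i).x).run = some D)
    (h : (𝔇.cs d (tst 𝔇 d n ω i).x).ini = true) :
    (𝔇.cs d (tst 𝔇 d n ω (i + 1)).x).run = some D := by
  rw [tst_x_succ, 𝔇.cs_cons, mv_enter hD h]

/-- The time after a stage, if the coarse state is still running. -/
theorem t_succ {i : ℕ} {D : Dom} {q : Rule.Ndl} (hD : (𝔇.cs d (tst 𝔇 d n ω i).x).run = some D)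
    (hq : (tst 𝔇 d n ω i).q = some q)
    (hr : (𝔇.cs d (tst 𝔇 d n ω (i + 1)).x).run.isSome = true) :
    (tst 𝔇 d n ω (i + 1)).t =
      mvT 𝔇 d n (tst 𝔇 d n ω i) q D (𝔇.cs d (tst 𝔇 d n ω i).x).ini ω :=
  (nxS_q_run (n := n) (ω := ω) (𝔇 := 𝔇) (d := d) (s := tst 𝔇 d n ω i) hD hq hr).2.2

/-- **The kinds of stages.** -/
theorem nearT_of {ρ : ℝ}
    (hini : ∀ i, i + 1 < N → ∀ D q, (𝔇.cs d (tst 𝔇 d n ω i).x).run = some D →
      (𝔇.cs d (tst 𝔇 d n ω i).x).ini = true → (tst 𝔇 d n ω i).q = some q →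
        (tst 𝔇 d n ω i).t = 0 → ∀ t ≤ staT n (unt d n) (tst 𝔇 d n ω i).V q D.B ω,
          NearR d n ω ρ (tst 𝔇 d n ω i).V q D.tip t)
    (htip : ∀ i, i + 1 < N → ∀ D q, (𝔇.cs d (tst 𝔇 d n ω i).x).run = some D →
      (𝔇.cs d (tst 𝔇 d n ω i).x).ini = false → (tst 𝔇 d n ω i).q = some q →
        D.Void (𝔇.gr d (tst 𝔇 d n ω i).x D) →
          NearR d n ω ρ (tst 𝔇 d n ω i).V q D.tip (tst 𝔇 d n ω i).t)
    (hmov : ∀ i, i + 1 < N → ∀ D q, (𝔇.cs d (tst 𝔇 d n ω i).x).run = some D →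
      (𝔇.cs d (tst 𝔇 d n ω i).x).ini = false → (tst 𝔇 d n ω i).q = some q →
        ¬ D.Void (𝔇.gr d (tst 𝔇 d n ω i).x D) →
          (𝔇.cs d (tst 𝔇 d n ω (i + 1)).x).run.isSome = true →
            ∀ t, (tst 𝔇 d n ω i).t ≤ t →
              t ≤ stopT n (unt d n) (tst 𝔇 d n ω i) q D (𝔇.gr d (tst 𝔇 d n ω i).x D) ω →
                NearR d n ω ρ (tst 𝔇 d n ω i).V q D.tip t)
    (hlast : ∀ i, i + 1 < N → ∀ D q, (𝔇.cs d (tst 𝔇 d n ω i).x).run = some D →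
      (𝔇.cs d (tst 𝔇 d n ω i).x).ini = false → (tst 𝔇 d n ω i).q = some q →
        (𝔇.cs d (tst 𝔇 d n ω (i + 1)).x).run = none →
          (tst 𝔇 d n ω i).t ≤ perS n ω (tst 𝔇 d n ω i).V q ∧
          ∀ t, (tst 𝔇 d n ω i).t ≤ t → t ≤ perS n ω (tst 𝔇 d n ω i).V q →
            NearR d n ω ρ (tst 𝔇 d n ω i).V q D.tip t) :
    NearT 𝔇 d n N ρ ω where
  near i hi D q h1 h2 h3 t h4 h5 := by
    rw [t_succ h1 h3 h2] at h5
    cases h6 : (𝔇.cs d (tst 𝔇 d n ω i).x).ini with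
    | true =>
      rw [h6] at h5
      unfold mvT at h5
      rw [if_pos rfl] at h5
      exact hini i hi D q h1 h6 h3 (t_ini h6) t h5
    | false =>
      rw [h6] at h5
      unfold mvT at h5
      rw [if_neg (by simp)] at h5
      by_cases hV : D.Void (𝔇.gr d (tst 𝔇 d n ω i).x D)
      · rw [if_pos hV] at h5
        rw [show t = (tst 𝔇 d n ω i).t from le_antisymm h5 h4]
        exact htip i hi D q h1 h6 h3 hV
      · rw [if_neg hV] at h5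
        exact hmov i hi D q h1 h6 h3 hV h2 t h4 h5
  last i hi D q h1 h2 h3 := by
    refine hlast i hi D q h1 ?_ h3 h2
    by_contra h6
    rw [Bool.not_eq_false] at h6
    rw [run_ini h1 h6] at h2
    cases h2

end rows

end Pool.Agent.SixB.Tru
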