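import Pool.Agent.Lib.SixB.S8Par
import Pool.Agent.Lib.SixB.S8EndApp
import Pool.Agent.Lib.SixB.S8AppLink

/-!
# Step 8: parity along a contour, approximations and arcs

* `frozen_sd`: a face which is not fresh has a corner on the sides of the strand.
* `anc_of_app`, `anc_of_comp`: the vertices of the contour of an inner approximation are anchored.
* `gate_of_app`: the strand is in a stored polygon: there is a gate near its contour.
* `par_idx`: `par_poly` with numbers of the indices.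
* `par_arc`: an arc `[p, q)` of the contour is not crossed, the other vertices are anchored and without
  gates: the strand is in `P` if and only if the numbers of the ends of the arc are different.
* `sg_eq`: the number of a vertex without gate is the colour of any near vertex of the sides plus the
  number of crossings on the way.
-/

set_option autoImplicit false

namespace Pool.Agent.SixB.Par

open Finset Pool.Agent.Perc Pool.Agent.PercT Pool.Agent.Perc6 Pool.Agent.SixB
  Pool.Agent.SixB.NearCut Pool.Agent.SixB.Mv Pool.Agent.SixB.Top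
open Pool.Agent.Perc.Tips (ahead rv)

variable {ι : Type*} {E : Ex} {ω : Cfg} {U P : Set (ℤ × ℤ)} {κ : ℤ × ℤ → ι} {A B : UE × Bool}
  {d r : ℤ} {m n s t p q : ℕ} {a : UE} {v w x y : ℤ × ℤ} {τ : ZMod 2}

/-- A side of a face has its ends at the corners. -/
theorem en_cor {c : ℤ} (h : IsSide x a) : x.1 ≤ (en c a).1 ∧ (en c a).1 ≤ x.1 + 1 ∧
    x.2 ≤ (en c a).2 ∧ (en c a).2 ≤ x.2 + 1 := by
  rcases en_or c a with e | e <;> rw [e] <;> rcases h with rfl | rfl | rfl | rfl <;>
    simp [ua, ub, bo, ri, to', le']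

theorem isSide_bo (x : ℤ × ℤ) : IsSide x (bo x) := Or.inl rfl

theorem exists_mt (ω : Cfg) (x : ℤ × ℤ) : ∃ b, Mt ω x (bo x) b := by
  cases h : ω x
  · exact ⟨le' x, Or.inr ⟨h, Or.inl ⟨rfl, rfl⟩⟩⟩
  · exact ⟨ri x, Or.inl ⟨h, Or.inl ⟨rfl, rfl⟩⟩⟩

/-- A face which is not fresh has a corner on the sides. -/
theorem frozen_sd (hW : E.Wll ω) (h : x ∉ E.Fr ω s) : ∃ y, Sd E ω s y ∧
    x.1 ≤ y.1 ∧ y.1 ≤ x.1 + 1 ∧ x.2 ≤ y.2 ∧ y.2 ≤ x.2 + 1 := by
  rcases not_fr_iff h with hU | ⟨l, hl, hx⟩
  · obtain ⟨b, hb⟩ := exists_mt (E.cf ω) x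
    have key : ∀ c : ℤ, (c = 0 ∨ c = 1) → NearCut.Cl (E.cf ω) c x → ∃ y, Sd E ω s y ∧
        x.1 ≤ y.1 ∧ y.1 ≤ x.1 + 1 ∧ x.2 ≤ y.2 ∧ y.2 ≤ x.2 + 1 := by
      intro c hc hcl
      rcases mt_cl hc hb with ⟨-, -, h1⟩ | ⟨h1, -⟩
      · refine ⟨en c (bo x), ⟨c, hc, ?_⟩, en_cor (isSide_bo x)⟩
        have h2 := hW c hc x hU _ _ h1 (par_en hc _)
        exact conn_mono (Set.compl_subset_compl.2 fr_sub) h2
      · exact absurd h1 (cl_not hc hcl)
    rcases cl_or (ω := E.cf ω) (f := x) (Or.inl rfl : (0 : ℤ) = 0 ∨ (0 : ℤ) = 1) with h1 | h1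
    · exact key 0 (Or.inl rfl) h1
    · exact key (1 - 0) (Or.inr rfl) h1
  · have hs : IsSide x (E.p ω l) := hx ▸ isSide_fa _
    exact ⟨en 0 (E.p ω l), ⟨0, Or.inl rfl, Ex.sid_strand (Or.inl rfl) hl.le⟩, en_cor hs⟩

/-- The left end of a boundary side is a corner of the outer face. -/
theorem lf_cor (B : UE × Bool) : (ahead (rv B)).1 ≤ (lf B).1 ∧ (lf B).1 ≤ (ahead (rv B)).1 + 1 ∧
    (ahead (rv B)).2 ≤ (lf B).2 ∧ (lf B).2 ≤ (ahead (rv B)).2 + 1 := by
  obtain ⟨⟨x, y, _ | _⟩, _ | _⟩ := B <;> simp [rv, ahead, lf]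

/-- A near face which is not fresh gives an anchor. -/
theorem anc_of_near (hW : E.Wll ω) (hx : x ∉ E.Fr ω t)
    (h : |x.1 - (ahead (rv B)).1| < d ∧ |x.2 - (ahead (rv B)).2| < d) : Anc E ω t d (lf B) := by
  obtain ⟨y, h1, h2⟩ := frozen_sd hW hx
  have h3 := lf_cor B
  have h4 := abs_lt.1 h.1
  have h5 := abs_lt.1 h.2
  refine ⟨y, h1, ?_, ?_⟩ <;> rw [abs_le] <;> omega

/-- **Anchors of an approximation**, all faces which are fresh at the time `t` are in `U`. -/
theorem anc_of_app (hW : E.Wll ω) (h : App U P κ d) (hU : E.Fr ω t ⊆ U) (hB : BD P B) :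
    Anc E ω t d (lf B) := by
  obtain ⟨x, hx, hxU⟩ := h.out _ hB.1 _ (adj_iff_adjFL.2 (adjF_ahead B).symm) hB.2
  have h1 := h.diam _ _ hx
  exact anc_of_near hW (fun hh => hxU (hU hh)) h1

/-- **Anchors of an approximation** of a component `U` of the fresh faces of the time `s`. -/
theorem anc_of_comp (hW : E.Wll ω) (h : App U P κ d)
    (hU : ∀ f ∈ U, ∀ g, Adj f g → g ∉ U → g ∉ E.Fr ω s) (hst : s ≤ t) (hB : BD P B) :
    Anc E ω t d (lf B) := by
  have hadj : Adj (ahead B) (ahead (rv B)) := adj_iff_adjFL.2 (adjF_ahead B).symm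
  obtain ⟨x, hx, hxU⟩ := h.out _ hB.1 _ hadj hB.2
  have hlate : ∀ z, z ∉ E.Fr ω s → z ∉ E.Fr ω t := fun z h1 h2 => h1 (Ex.fr_anti hst h2)
  by_cases hg : ahead (rv B) ∈ U
  · -- the first face outside of `U` on a chain of the class
    obtain ⟨-, hch⟩ := h.cell _ _ hx.symm
    obtain ⟨f, k, h1, h2, h3, h4, h5⟩ := EndApp.CC.exit (P := U) hch hg hxU
    exact anc_of_near hW (hlate _ (hU f h2 k h3 h5)) (h.diam _ _ h4)
  · exact anc_of_near hW (hlate _ (hU _ (h.sub hB.1) _ hadj hg)) (h.diam _ _ rfl)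

/-- **The strand is in a stored polygon.** -/
theorem gate_of_app (hW : E.Wll ω) (h : App U P κ d) (hU : E.Fr ω t ⊆ U) (hP : P.Finite)
    (hPc : Top.EConn P) (hPe : Esc P) (hn : Nb (E.cf ω) (E.e ω) t) (hb : fb (E.e ω) ∉ P)
    (ht : fa (E.p ω t) ∈ P) : ∃ B, BD P B ∧ E.Gate ω t (lf B) (d + 1) :=
  gate_of_mem hP hPc hPe hn hb (fun _ hB => anc_of_app hW h hU hB) ht

/-- The same for a component of the fresh faces of an earlier time. -/
theorem gate_of_comp (hW : E.Wll ω) (h : App U P κ d)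
    (hU : ∀ f ∈ U, ∀ g, Adj f g → g ∉ U → g ∉ E.Fr ω s) (hst : s ≤ t) (hP : P.Finite)
    (hPc : Top.EConn P) (hPe : Esc P) (hn : Nb (E.cf ω) (E.e ω) t) (hb : fb (E.e ω) ∉ P)
    (ht : fa (E.p ω t) ∈ P) : ∃ B, BD P B ∧ E.Gate ω t (lf B) (d + 1) :=
  gate_of_mem hP hPc hPe hn hb (fun _ hB => anc_of_comp hW h hU hst hB) ht

/-! ### Numbers of indices, arcs -/

/-- `par_poly` with numbers of the indices. -/
theorem par_idx (hP : P.Finite) (hPc : Top.EConn P) (hPe : Esc P) (hC : Cyc P A m)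
    (hn : Nb (E.cf ω) (E.e ω) t) (σ : ℕ → ZMod 2) (ε : ℕ → ZMod 2) (h0 : σ m = σ 0)
    (h : ∀ j < m, cr E ω t (side P A j).1 = σ j + σ (j + 1) + ε j) :
    ind2 (fa (E.p ω t) ∈ P) = ind2 (fb (E.e ω) ∈ P) + ∑ j ∈ range m, ε j := by
  have h1 := sum_cr (E := E) (ω := ω) hP hPc hPe hC hn
  rw [Finset.sum_congr rfl fun j hj => h j (Finset.mem_range.1 hj), Finset.sum_add_distrib] at h1
  have h2 : ∀ k : ℕ, ∑ j ∈ range k, (σ j + σ (j + 1)) = σ 0 + σ k := by
    intro k
    induction k with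
    | zero => rw [Finset.sum_range_zero, z2_add_self]
    | succ k ih =>
      rw [Finset.sum_range_succ, ih]
      generalize σ 0 = x1
      generalize σ k = x2
      generalize σ (k + 1) = x3
      revert x1 x2 x3
      decide
  rw [h2, h0, z2_add_self, zero_add] at h1
  rw [h1]
  generalize ind2 (fb (E.e ω) ∈ P) = x1
  generalize ind2 (fa (E.p ω t) ∈ P) = x2
  revert x1 x2
  decide

/-- **The number of a vertex.** -/
theorem sg_eq (hg : ¬ E.Gate ω t v d) (hy : Sd E ω t y)
    (h : Wk {a | InB v d a} (cr E ω t) v y τ) : sg E ω t d v = τ + cl y := by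
  classical
  have hex : ∃ y τ, Sd E ω t y ∧ Wk {a | InB v d a} (cr E ω t) v y τ := ⟨y, τ, hy, h⟩
  have h1 : sg E ω t d v = hex.choose_spec.choose + cl hex.choose := by
    unfold sg
    rw [dif_pos hex]
  obtain ⟨h2, h3⟩ := hex.choose_spec.choose_spec
  rw [h1]
  have h4 := par_path hg (h.symm.trans h3) hy h2
  revert h4
  generalize hex.choose_spec.choose = x0
  generalize cl hex.choose = x1
  generalize cl y = x2
  revert x0 x1 x2
  clear h
  revert τ
  decide

/-- The numbers do not depend on the size of the box. -/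
theorem sg_mono {d' : ℤ} (hd : d ≤ d') (hg : ¬ E.Gate ω t v d') (h : Anc E ω t d v) :
    sg E ω t d' v = sg E ω t d v := by
  obtain ⟨y, τ, h1, h2, h3⟩ := sg_spec h
  rw [h3]
  exact sg_eq hg h1 (h2.mono fun a ha => ha.mono hd)

/-- **An arc which is not crossed.** The sides `p, …, q - 1` of the contour are not crossed up to the
time `t`; all the vertices `0, …, p` and `q, …, m` are anchored, without gates. -/
theorem par_arc (hP : P.Finite) (hPc : Top.EConn P) (hPe : Esc P) (hC : Cyc P A m)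
    (hn : Nb (E.cf ω) (E.e ω) t) (hpq : p ≤ q) (hqm : q ≤ m)
    (ha : ∀ j, (j ≤ p ∨ (q ≤ j ∧ j ≤ m)) → Anc E ω t d (vert P A j))
    (hg : ∀ j, (j < p ∨ (q ≤ j ∧ j < m)) → ¬ E.Gate ω t (vert P A j) (d + 1))
    (hz : ∀ j, p ≤ j → j < q → cr E ω t (side P A j).1 = 0) :
    ind2 (fa (E.p ω t) ∈ P) = ind2 (fb (E.e ω) ∈ P) +
      (sg E ω t d (vert P A p) + sg E ω t d (vert P A q)) := by
  classical
  have hper : vert P A m = vert P A 0 := by
    unfold vert
    rw [hC.per]
    rfl
  -- the numbers: constant on the arc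
  set σ : ℕ → ZMod 2 := fun j => if p ≤ j ∧ j < q then sg E ω t d (vert P A p)
    else sg E ω t d (vert P A j) with hσ
  rcases Nat.lt_or_ge p q with hlt | hge
  · have hq1 : ∃ q₁, q = q₁ + 1 := ⟨q - 1, by omega⟩
    obtain ⟨q₁, rfl⟩ := hq1
    have h := par_idx (E := E) (ω := ω) hP hPc hPe hC hn σ
      (fun j => if j = q₁ then sg E ω t d (vert P A p) + sg E ω t d (vert P A (q₁ + 1)) else 0)
      ?_ ?_
    · rw [h, Finset.sum_ite_eq' (range m) q₁, if_pos (Finset.mem_range.2 (by omega))]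
    · rcases Nat.eq_zero_or_pos p with h0 | h0
      · subst h0
        simp only [hσ]
        rw [if_neg (by omega), if_pos (by omega), hper]
      · simp only [hσ]
        rw [if_neg (by omega), if_neg (by omega), hper]
    · intro j hj
      rcases Nat.lt_or_ge j p with h1 | h1
      · have e1 : σ j = sg E ω t d (vert P A j) := if_neg (by omega)
        have e2 : σ (j + 1) = sg E ω t d (vert P A (j + 1)) := by
          rcases Nat.lt_or_ge (j + 1) p with h2 | h2
          · exact if_neg (by omega)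
          · have : j + 1 = p := by omega
            rw [this]
            exact if_pos ⟨le_rfl, hlt⟩
        rw [e1, e2, if_neg (by omega), add_zero]
        exact cr_eq (joins_side j) (ha j (by omega)) (ha (j + 1) (by omega)) (hg j (by omega))
      · rcases Nat.lt_or_ge j (q₁ + 1) with h2 | h2
        · have e1 : σ j = sg E ω t d (vert P A p) := if_pos ⟨h1, h2⟩
          rw [hz j h1 h2, e1]
          by_cases h3 : j = q₁
          · have e2 : σ (j + 1) = sg E ω t d (vert P A (j + 1)) := if_neg (by omega)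
            rw [e2, if_pos h3, h3]
            generalize sg E ω t d (vert P A p) = x1
            generalize sg E ω t d (vert P A (q₁ + 1)) = x2
            revert x1 x2
            decide
          · have e2 : σ (j + 1) = sg E ω t d (vert P A p) := if_pos ⟨by omega, by omega⟩
            rw [e2, if_neg h3, add_zero, z2_add_self]
        · have e1 : σ j = sg E ω t d (vert P A j) := if_neg (by omega)
          have e2 : σ (j + 1) = sg E ω t d (vert P A (j + 1)) := if_neg (by omega)
          rw [e1, e2, if_neg (by omega), add_zero]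
          exact cr_eq (joins_side j) (ha j (by omega)) (ha (j + 1) (by omega)) (hg j (by omega))
  · have hpq' : p = q := le_antisymm hpq hge
    subst hpq'
    have h := par_idx (E := E) (ω := ω) hP hPc hPe hC hn (fun j => sg E ω t d (vert P A j))
      (fun _ => 0) (by rw [hper]) (fun j hj => by
        rw [add_zero]
        exact cr_eq (joins_side j) (ha j (by omega)) (ha (j + 1) (by omega)) (hg j (by omega)))
    rw [h, Finset.sum_const_zero, z2_add_self]

end Pool.Agent.SixB.Par
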