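import Pool.Agent.Lib.SixB.S8Coarse

/-!
# Step 8: the choice of the largest cluster among the coarse output

If the algorithm returns a finite list of curves which contains, up to `ε`, the outer perimeters of
all the largest clusters, and every curve of the list is `ε`-close to the outer perimeter of some
cluster, then (no near ties) the curve of largest diameter of the list is a coarse output.
-/

set_option autoImplicit false

namespace Pool.Agent.SixB

open Set Filter Topology MeasureTheory TopologicalSpace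
open Pool.Agent.Perc Pool.Agent.PercD
open scoped NNReal

/-! ### Diameters -/

/-- The outer boundary has the same diameter as the cluster. -/
theorem diam_frontier_outU (T : Finset Edg) (u : ℤ × ℤ) :
    Metric.diam (frontier (outU T u)) = Metric.diam (clS T u) := by
  have hK := Perc.PercD.isCompact_clS T u
  apply le_antisymm
  · exact Metric.diam_mono (Perc.PercD.frontier_outU_sub T u) hK.isBounded
  have hne : (clS T u).Nonempty := ⟨_, Perc.PercD.toC_mem_clS (BoxAux.mem_clV_self T u)⟩
  obtain ⟨⟨p, q⟩, hpq, hmax⟩ := (hK.prod hK).exists_isMaxOn (hne.prod hne)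
    (f := fun x : ℂ × ℂ => dist x.1 x.2) (by fun_prop)
  have hp : p ∈ clS T u := hpq.1
  have hq : q ∈ clS T u := hpq.2
  have hmax' : ∀ z ∈ clS T u, ∀ w ∈ clS T u, dist z w ≤ dist p q :=
    fun z hz w hw => hmax (show (z, w) ∈ clS T u ×ˢ clS T u from ⟨hz, hw⟩)
  have hdiam : Metric.diam (clS T u) ≤ dist p q :=
    Metric.diam_le_of_forall_dist_le dist_nonneg hmax'
  rcases eq_or_ne p q with h0 | h0
  · rw [h0, dist_self] at hdiam
    exact hdiam.trans Metric.diam_nonneg
  -- an extreme point is on the boundary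
  have key : ∀ p q : ℂ, p ∈ clS T u → q ∈ clS T u → p ≠ q →
      (∀ z ∈ clS T u, dist z q ≤ dist p q) → p ∈ frontier (outU T u) := by
    intro p q hp hq h0 hm
    have hd : 0 < dist p q := dist_pos.2 h0
    set f : ℝ → ℂ := fun t => p + (t : ℂ) * (p - q) with hf
    have hfc : Continuous f := by fun_prop
    have hdist : ∀ t : ℝ, 0 ≤ t → dist (f t) q = (1 + t) * dist p q := by
      intro t ht
      rw [dist_eq_norm, dist_eq_norm, hf]
      have : p + (t : ℂ) * (p - q) - q = ((1 + t : ℝ) : ℂ) * (p - q) := by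
        push_cast; ring
      simp only [this]
      rw [norm_mul, Complex.norm_real, Real.norm_eq_abs, abs_of_nonneg (by linarith)]
    have hsub : f '' Ioi 0 ⊆ (clS T u)ᶜ := by
      rintro _ ⟨t, ht, rfl⟩ hcon
      have h1 := hm _ hcon
      rw [hdist t (le_of_lt ht)] at h1
      have h2 : 0 < t * dist p q := mul_pos ht hd
      linarith
    have hcon : IsPreconnected (f '' Ioi 0) := isPreconnected_Ioi.image _ hfc.continuousOn
    have hU : f '' Ioi 0 ⊆ outU T u := by
      rintro z hz hb
      have h1 : f '' Ioi 0 ⊆ connectedComponentIn (clS T u)ᶜ z :=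
        hcon.subset_connectedComponentIn hz hsub
      obtain ⟨R, hR⟩ := (hb.subset h1).subset_closedBall q
      have hpos : 0 < (|R| + 1) / dist p q := by positivity
      have h2 := hR ⟨(|R| + 1) / dist p q, hpos, rfl⟩
      rw [Metric.mem_closedBall, hdist _ hpos.le, add_mul, div_mul_cancel₀ _ hd.ne'] at h2
      have := le_abs_self R
      linarith
    have hcl : p ∈ closure (outU T u) := by
      refine closure_mono hU ?_
      have h1 : (0 : ℝ) ∈ closure (Ioi (0 : ℝ)) := by
        rw [closure_Ioi]; exact self_mem_Ici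
      have h2 := image_closure_subset_closure_image hfc ⟨0, h1, rfl⟩
      simpa [hf] using h2
    refine ⟨hcl, fun hint => ?_⟩
    exact Perc.PercD.not_mem_outU hp (interior_subset hint)
  have hp' := key p q hp hq h0 fun z hz => hmax' z hz q hq
  have hq' := key q p hq hp h0.symm fun z hz => by
    rw [dist_comm q p]; exact hmax' z hz p hp
  refine hdiam.trans (Metric.dist_le_diam_of_mem ?_ hp' hq')
  exact (Perc.PercD.isCompact_frontier_outU T u).isBounded

/-- The diameter of the trace of a curve. -/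
noncomputable def cdiam (c : Curve) : ℝ := Metric.diam (c.trace : Set ℂ)

theorem cdiam_le_add (c c' : Curve) : cdiam c ≤ cdiam c' + 2 * dist c c' := by
  obtain ⟨γ, rfl⟩ := SeparationQuotient.surjective_mk c
  obtain ⟨γ', rfl⟩ := SeparationQuotient.surjective_mk c'
  rw [SeparationQuotient.dist_mk]
  have h0 : 0 ≤ cdiam (SeparationQuotient.mk γ') := Metric.diam_nonneg
  refine le_of_forall_pos_le_add fun ε hε => ?_
  obtain ⟨r, hr⟩ := Loop.exists_rep (show dist γ γ' < dist γ γ' + ε / 2 by linarith)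
  have hd : 0 ≤ dist γ γ' := dist_nonneg
  refine Metric.diam_le_of_forall_dist_le (by linarith) ?_
  rintro _ ⟨s, rfl⟩ _ ⟨t, rfl⟩
  have h1 : dist (γ'.f (r.φ s)) (γ'.f (r.φ t)) ≤ cdiam (SeparationQuotient.mk γ') :=
    Metric.dist_le_diam_of_mem γ'.isCompact_range.isBounded ⟨_, rfl⟩ ⟨_, rfl⟩
  have h2 := hr s
  have h3 := hr t
  have h4 := dist_triangle4 (γ.f s) (γ'.f (r.φ s)) (γ'.f (r.φ t)) (γ.f t)
  rw [dist_comm (γ'.f (r.φ t)) (γ.f t)] at h4
  linarith

theorem cdiam_outerCurve {n : ℕ} (hn : 0 < n) {T : Finset Edg} (hT : T ⊆ boxE n) (u : ℤ × ℤ) :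
    cdiam (outerCurve n T u) * n = Metric.diam (clS T u) := by
  have hn0 : (0 : ℝ) < n := by exact_mod_cast hn
  have h1 : ((outerCurve n T u).trace : Set ℂ) = (fun z : ℂ => z / n) '' frontier (outU T u) := by
    have h2 : (outerCurve n T u).trace = perK n T u := trace_outerLoop hT
    rw [h2]
    rfl
  have hd : ∀ z w : ℂ, dist (z / (n : ℂ)) (w / n) = dist z w / n := by
    intro z w
    rw [dist_eq_norm, dist_eq_norm, ← sub_div, norm_div, Complex.norm_natCast]
  rw [← diam_frontier_outU]
  unfold cdiam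
  rw [h1]
  have hb := (Perc.PercD.isCompact_frontier_outU T u).isBounded
  have hb' := ((Perc.PercD.isCompact_frontier_outU T u).image
    (f := fun z : ℂ => z / n) (by fun_prop)).isBounded
  apply le_antisymm
  · rw [← le_div_iff₀ hn0]
    refine Metric.diam_le_of_forall_dist_le (by positivity) ?_
    rintro _ ⟨z, hz, rfl⟩ _ ⟨w, hw, rfl⟩
    simp only [hd]
    exact div_le_div_of_nonneg_right (Metric.dist_le_diam_of_mem hb hz hw) hn0.le
  · refine Metric.diam_le_of_forall_dist_le (by positivity) ?_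
    intro z hz w hw
    rw [← div_le_iff₀ hn0, ← hd]
    exact Metric.dist_le_diam_of_mem hb' ⟨z, hz, rfl⟩ ⟨w, hw, rfl⟩

/-! ### The curve of a cluster -/

theorem adjT_symm {T : Finset Edg} {u v : ℤ × ℤ} (h : AdjT T u v) : AdjT T v u := by
  obtain ⟨e, he, h | h⟩ := h
  · exact ⟨e, he, Or.inr h⟩
  · exact ⟨e, he, Or.inl h⟩

theorem clV_eq_of_mem {T : Finset Edg} {u v : ℤ × ℤ} (h : v ∈ clV T u) : clV T v = clV T u := by
  have hs : ∀ a b, Relation.ReflTransGen (AdjT T) a b → Relation.ReflTransGen (AdjT T) b a := by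
    intro a b hab
    induction hab with
    | refl => exact .refl
    | tail _ h2 ih => exact .head (adjT_symm h2) ih
  ext w
  exact ⟨fun hw => Relation.ReflTransGen.trans h hw, fun hw => (hs _ _ h).trans hw⟩

theorem clS_eq_of_mem {T : Finset Edg} {u v : ℤ × ℤ} (h : v ∈ clV T u) : clS T v = clS T u := by
  unfold clS
  rw [clV_eq_of_mem h]

theorem outerCurve_eq_of_mem {n : ℕ} {T : Finset Edg} {u v : ℤ × ℤ} (h : v ∈ clV T u) :
    outerCurve n T v = outerCurve n T u := by
  unfold outerCurve outerLoop Outer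
  rw [clV_eq_of_mem h, clS_eq_of_mem h]

/-! ### The choice -/

/-- No near ties. -/
def NoNearTies : Prop := ∀ ε : ℝ, 0 < ε → ∃ η : ℝ, 0 < η ∧ ∃ N : ℕ, ∀ n : ℕ, N ≤ n →
    prB n {T | ∃ u ∈ Box n, ∃ v ∈ Box n, v ∉ clV T u ∧
      (∀ w ∈ Box n, Metric.diam (clS T w) ≤ Metric.diam (clS T u) + η * n) ∧
      (∀ w ∈ Box n, Metric.diam (clS T w) ≤ Metric.diam (clS T v) + η * n)} ≤ ε

/-- Coarse lists with convergent laws. With high probability the list contains a curve close to the
outer perimeter of every largest cluster, and every curve of the list is close to the outer perimeter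
of some cluster. -/
def CoarseList : Prop := ∀ ε : ℝ, 0 < ε → ∃ (S : Type) (_ : Fintype S) (F : S → Finset Curve)
  (s : ℕ → Finset Edg → S),
  (∀ a : S, ∃ p : ℝ, Tendsto (fun n => prB n {T | s n T = a}) atTop (𝓝 p)) ∧
  ∀ᶠ n : ℕ in atTop,
    prB n {T | ¬ ((∀ v, IsTop n T v → ∃ c ∈ F (s n T), dist (outerCurve n T v) c ≤ ε) ∧
      ∀ c ∈ F (s n T), ∃ v ∈ Box n, dist (outerCurve n T v) c ≤ ε)} ≤ ε

theorem coarseOut_of_list (hN : NoNearTies) (h : CoarseList) : CoarseOut := by
  intro ε hε
  obtain ⟨η, hη, N, hN⟩ := hN (ε / 2) (by positivity)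
  set δ : ℝ := min (ε / 2) (η / 4) with hδ
  have hδ0 : 0 < δ := lt_min (by positivity) (by positivity)
  have hδ1 : δ ≤ ε / 2 := min_le_left _ _
  have hδ2 : δ ≤ η / 4 := min_le_right _ _
  obtain ⟨S, hS, F, s, h1, h2⟩ := h δ hδ0
  have hF : ∀ a : S, ∃ c : Curve, (F a).Nonempty → c ∈ F a ∧ ∀ c' ∈ F a, cdiam c' ≤ cdiam c := by
    intro a
    by_cases hne : (F a).Nonempty
    · obtain ⟨c, hc, hmax⟩ := Finset.exists_max_image (F a) cdiam hne
      exact ⟨c, fun _ => ⟨hc, hmax⟩⟩
    · exact ⟨outerCurve 0 ∅ (0, 0), fun h => absurd h hne⟩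
  choose G hG using hF
  refine ⟨S, hS, G, s, h1, ?_⟩
  filter_upwards [h2, eventually_ge_atTop N, eventually_gt_atTop 0] with n hn hnN hn0
  have hn0' : (0 : ℝ) < n := by exact_mod_cast hn0
  refine (Perc.PercD.prB_union _ _ _ ?_).trans ((add_le_add hn (hN n hnN)).trans (by linarith))
  rintro T hT ⟨v, hv, hfar⟩
  by_contra hcon
  rw [not_or] at hcon
  obtain ⟨hgood, hties⟩ := hcon
  rw [mem_ofPred_eq, not_not] at hgood
  obtain ⟨g1, g2⟩ := hgood
  obtain ⟨c, hc, hvc⟩ := g1 v hv
  obtain ⟨hGm, hGmax⟩ := hG (s n T) ⟨c, hc⟩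
  obtain ⟨v', hv', hvc'⟩ := g2 _ hGm
  have e1 : cdiam (outerCurve n T v) ≤ cdiam c + 2 * δ := by
    have := cdiam_le_add (outerCurve n T v) c
    linarith
  have e2 : cdiam (G (s n T)) ≤ cdiam (outerCurve n T v') + 2 * δ := by
    have := cdiam_le_add (G (s n T)) (outerCurve n T v')
    rw [dist_comm] at this
    linarith
  have e3 := hGmax c hc
  have e4 : cdiam (outerCurve n T v) ≤ cdiam (outerCurve n T v') + η := by linarith
  have e5 : Metric.diam (clS T v) ≤ Metric.diam (clS T v') + η * n := by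
    rw [← cdiam_outerCurve hn0 hT, ← cdiam_outerCurve hn0 hT, ← add_mul]
    exact mul_le_mul_of_nonneg_right e4 hn0'.le
  have hηn : 0 ≤ η * n := by positivity
  by_cases hmem : v' ∈ clV T v
  · rw [← outerCurve_eq_of_mem hmem] at hfar
    linarith
  · refine hties ⟨v, hv.1, v', hv', hmem, fun w hw => ?_, fun w hw => ?_⟩
    · exact (hv.2 w hw).trans (by linarith)
    · exact (hv.2 w hw).trans e5

/-- The scaling limit from coarse lists and no near ties. -/
theorem limit_of_coarseList (hE : TargetExist) (hN : NoNearTies) (h : CoarseList) :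
    ∃ μ : ProbabilityMeasure Curve, ∀ sel : ℕ → Finset Edg → ℤ × ℤ, (∀ n, IsSel n (sel n)) →
      Tendsto (fun n => lawP n (sel n)) atTop (𝓝 μ) :=
  limit_of_coarseOut hE (coarseOut_of_list hN h)

end Pool.Agent.SixB
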