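import Pool.Agent.Lib.SixB.S8LeakGate
import Pool.Agent.Lib.SixB.S8NearFroz
import Pool.Agent.Lib.SixB.S8NoRetB

/-!
# Step 8: excursions outside of the fresh component

`U` is a component of the fresh faces at the time `s`, with contour `w` and labels in the form of walls:
the tip is the side `0`, the sides `1, …, k - 1` belong to the wall of colour `c`, the sides
`k, …, m - 1` to the wall of colour `1 - c`. After the time `s` the strand leaves `U` at the time `a` and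
comes back at the time `b`. Outside of `U` it may cross old faces and fresh faces of other components
(it can pass through a vertex where two components touch each other).

* `exc_nbr`: the sides `p a`, `p b` are neighbours on the contour, they have a common end `v` of colour
  `1 - c'` and their other ends are on the wall of colour `c'` of the time `s`.
* `pinch_gate`: the unit edge `p b` is a gate at all times `t` in `[a, b)`.
* `pinch_ret`: near the base of the needle: a return to a connected set of faces of `U` around `v`.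
-/

set_option autoImplicit false

namespace Pool.Agent.SixB.Pin

open Finset Pool.Agent.Perc Pool.Agent.PercT Pool.Agent.Perc6 Pool.Agent.Perc6.C2Aux
open Pool.Agent.SixB.NearCut Pool.Agent.SixB.Near Pool.Agent.SixB.Lk
open Pool.Agent.SixB.Top
open Pool.Agent.Perc.Tips (ahead rv)

variable {U : Set (ℤ × ℤ)} {ω : Cfg} {e : UE} {a b : ℕ}

/-- The potential of an excursion outside of `U`, closed by a chain in `U`. -/
theorem exists_exc_pot (hUc : Top.EConn U) (hn : Nb ω e b) (hab : a ≤ b)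
    (h0 : fb (pth ω e a) ∈ U) (h1 : fa (pth ω e b) ∈ U) :
    ∃ (M : Set UE) (Θ : ℤ × ℤ → ZMod 2), IsPot Set.univ M Θ ∧ MtInv ω Uᶜ M ∧
      ∀ y, (∃ g, g ∉ U ∧ IsSide g y) → (y ∈ M ↔ y ∈ Gs ω e a (b + 1)) := by
  obtain ⟨M1, m1, p1⟩ := chain_edges h0 (show ChI U _ _ from hUc _ h0 _ h1)
  set M : Set UE := symmDiff (Gs ω e a (b + 1)) M1 with hM
  have hpar : ∀ f, EvenAt M f := by
    intro f
    rw [evenAt_iff, hM, parAt_symmDiff, p1, parAt_Gs hn (by omega) (by omega), fb_pth_succ]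
    exact z2_add_self _
  obtain ⟨Θ, hΘ⟩ := exists_potU hpar
  refine ⟨M, Θ, hΘ, ?_, ?_⟩
  · intro g hg y y' hm
    have e1 : y ∉ M1 := fun h => hg (m1 y h g hm.left)
    have e2 : y' ∉ M1 := fun h => hg (m1 y' h g hm.right)
    rw [hM, sd_iff e1, sd_iff e2]
    refine Gs_mt_iff hm (fun h => hg ?_) fun h => hg ?_
    · rw [h.1]
      exact h0
    · rw [h.1, fb_pth_succ]
      exact h1
  · rintro y ⟨g, hg, hgs⟩
    rw [hM, sd_iff fun h => hg (m1 y h g hgs)]

/-- The labels of the contour of `U` at the time `s`. -/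
structure Lab (E : Ex) (ω : Cfg) (s : ℕ) (U : Set (ℤ × ℤ)) (m : ℕ) (w : ℕ → ℤ × ℤ) (k : ℕ)
    (c : ℤ) : Prop where
  sub : U ⊆ E.Fr ω s
  ec : Top.EConn U
  ctr : Ctr U m w
  hm : 0 < m
  h1 : 1 ≤ k
  h2 : k ≤ m
  c01 : c = 0 ∨ c = 1
  tip : Joins (E.p ω s) (w 0) (w 1)
  wb : ∀ i, 1 ≤ i → i < k → ∀ y, (y = i ∨ y = i + 1) → par (w y) = c → E.Sid c ω s (w y)
  wl : ∀ i, k ≤ i → i < m → ∀ y, (y = i ∨ y = i + 1) → par (w y) ≠ c → E.Sid (1 - c) ω s (w y)

variable {E : Ex} {s t k m : ℕ} {w : ℕ → ℤ × ℤ} {c : ℤ}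

theorem conn_pot {M : Set UE} {Θ : ℤ × ℤ → ZMod 2} (hΘ : IsPot Set.univ M Θ) (hM : MtInv ω Uᶜ M)
    {F : Set (ℤ × ℤ)} (hF : F ⊆ Uᶜ) {v v' : ℤ × ℤ} (h : Conn ω F v v') : Θ v = Θ v' := by
  have h1 : MtInv ω F M := fun g hg y y' hm => hM g (hF hg) y y' hm
  exact h1.conn (fun f _ => hΘ f (Set.mem_univ f)) h

/-- **An excursion outside of `U` turns around a vertex of the contour.** -/
theorem exc_nbr (L : Lab E ω s U m w k c) (hn : Nb (E.cf ω) (E.e ω) b) (hsa : s < a) (hab : a < b)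
    (h0 : fb (E.p ω a) ∈ U) (hout : ∀ l, a ≤ l → l < b → fa (E.p ω l) ∉ U)
    (h1 : fa (E.p ω b) ∈ U) :
    ∃ c' : ℤ, (c' = 0 ∨ c' = 1) ∧ en (1 - c') (E.p ω a) = en (1 - c') (E.p ω b) ∧
      E.Sid c' ω s (en c' (E.p ω a)) ∧ E.Sid c' ω s (en c' (E.p ω b)) ∧
      ∃ j, j + 1 < m ∧ ((Joins (E.p ω a) (w j) (w (j + 1)) ∧
          Joins (E.p ω b) (w (j + 1)) (w (j + 1 + 1))) ∨
        (Joins (E.p ω b) (w j) (w (j + 1)) ∧ Joins (E.p ω a) (w (j + 1)) (w (j + 1 + 1)))) := by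
  obtain ⟨M, Θ, hΘ, hMi, hMs⟩ := exists_exc_pot L.ec hn hab.le h0 h1
  have hFr : (E.Fr ω s)ᶜ ⊆ Uᶜ := Set.compl_subset_compl.2 L.sub
  have hfbl : ∀ l, a < l → l ≤ b → fb (E.p ω l) ∉ U := by
    intro l hl1 hl2
    obtain ⟨l, rfl⟩ : ∃ l', l = l' + 1 := ⟨l - 1, by omega⟩
    have : fb (E.p ω (l + 1)) = fa (E.p ω l) := fb_pth_succ _ _ _
    rw [this]
    exact hout l (by omega) (by omega)
  have hba : BdU U (E.p ω a) := ⟨⟨_, h0, isSide_fb _⟩, _, hout a le_rfl hab, isSide_fa _⟩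
  have hbb : BdU U (E.p ω b) := ⟨⟨_, h1, isSide_fa _⟩, _, hfbl b hab le_rfl, isSide_fb _⟩
  obtain ⟨i₀, hi0, j0⟩ := L.ctr.all _ hba
  obtain ⟨i₁, hi1, j1⟩ := L.ctr.all _ hbb
  have hinj : ∀ {l l' : ℕ}, l ≤ b → l' ≤ b → E.p ω l = E.p ω l' → l = l' := fun hl hl' h =>
    hn.inj hl hl' h
  have hne : i₀ ≠ i₁ := by
    rintro rfl
    have := hinj hab.le le_rfl (Joins.uniq j0 j1)
    omega
  have hi00 : i₀ ≠ 0 := by
    rintro rfl
    have := hinj hab.le (by omega) (Joins.uniq j0 L.tip)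
    omega
  have hi10 : i₁ ≠ 0 := by
    rintro rfl
    have := hinj le_rfl (by omega) (Joins.uniq j1 L.tip)
    omega
  -- the changes along the contour
  have hch : ∀ i, i < m → (Θ (w i) ≠ Θ (w (i + 1)) ↔ i = i₀ ∨ i = i₁) := by
    intro i hi
    obtain ⟨y, ⟨⟨f, hf, hs⟩, g, hg, hgs⟩, hj⟩ := L.ctr.step i hi
    rw [← hΘ.joins (Set.mem_univ f) hs hj, hMs y ⟨g, hg, hgs⟩]
    constructor
    · rintro ⟨l, hl1, hl2, rfl⟩
      have hfl : f = fa (E.p ω l) ∨ f = fb (E.p ω l) := isSide_iff.1 hs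
      rcases hfl with h2 | h2
      · have hlb : l = b := by
          by_contra h3
          exact hout l hl1 (by omega) (h2 ▸ hf)
        subst hlb
        exact Or.inr (L.ctr.inj i hi i₁ hi1 _ hj j1)
      · have hla : l = a := by
          by_contra h3
          exact hfbl l (by omega) (by omega) (h2 ▸ hf)
        subst hla
        exact Or.inl (L.ctr.inj i hi i₀ hi0 _ hj j0)
    · rintro (rfl | rfl)
      · exact ⟨a, le_rfl, by omega, Joins.uniq j0 hj⟩
      · exact ⟨b, hab.le, by omega, Joins.uniq j1 hj⟩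
  have hlow : ∀ j, j ≤ min i₀ i₁ → Θ (w j) = Θ (w 0) := by
    intro j hj
    refine (const_run (fun i => Θ (w i)) (Nat.zero_le j) fun k _ h3 h4 => ?_).symm
    rcases (hch k (by omega)).1 h4 with h5 | h5 <;> omega
  have hhigh : ∀ j, min i₀ i₁ < j → j ≤ max i₀ i₁ → Θ (w j) ≠ Θ (w 0) := by
    intro j hj1 hj2
    have e1 : Θ (w (min i₀ i₁ + 1)) = Θ (w j) := by
      refine const_run (fun i => Θ (w i)) (by omega) fun k h3 h4 h5 => ?_
      rcases (hch k (by omega)).1 h5 with h6 | h6 <;> omega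
    have e2 := (hch (min i₀ i₁) (by omega)).2 (by omega)
    rw [← e1, ← hlow (min i₀ i₁) le_rfl]
    exact e2.symm
  -- the walls
  have hside : ∀ c' : ℤ, (c' = 0 ∨ c' = 1) → ∀ v, E.Sid c' ω s v → Θ v = Θ (w 0) := by
    have hw01 : Θ (w 1) = Θ (w 0) := hlow 1 (by omega)
    intro c' hc' v hv
    have h2 : Θ (en c' (E.p ω s)) = Θ (w 0) := by
      rcases par_cases (w 0) with h3 | h3
      all_goals
        have h4 := L.tip.par_ne
        have h5 := par_cases (w 1)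
        rcases hc' with rfl | rfl
      · rw [en_joins L.tip h3]
      · rw [en_joins L.tip.symm (by omega), hw01]
      · rw [en_joins L.tip.symm (by omega), hw01]
      · rw [en_joins L.tip h3]
    rw [← h2, ← conn_pot hΘ hMi hFr hv, ← conn_pot hΘ hMi hFr (Ex.sid_strand hc' le_rfl)]
  have hcc := L.c01
  have hW1 : ∀ y, 1 ≤ y → y ≤ k → 2 ≤ k → par (w y) = c → Θ (w y) = Θ (w 0) := by
    intro y hy1 hy2 hk hp
    rcases Nat.lt_or_ge y k with h2 | h2
    · exact hside c hcc _ (L.wb y hy1 h2 y (Or.inl rfl) hp)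
    · obtain ⟨y', rfl⟩ : ∃ y', y = y' + 1 := ⟨y - 1, by omega⟩
      exact hside c hcc _ (L.wb y' (by omega) (by omega) (y' + 1) (Or.inr rfl) hp)
  have hW2 : ∀ y, k ≤ y → y < m → par (w y) ≠ c → Θ (w y) = Θ (w 0) := by
    intro y hy1 hy2 hp
    exact hside (1 - c) (by omega) _ (L.wl y hy1 hy2 y (Or.inl rfl) hp)
  have hmax : max i₀ i₁ < m := max_lt hi0 hi1
  have hpne : ∀ i, i < m → par (w i) ≠ par (w (i + 1)) := by
    intro i hi
    obtain ⟨y, -, hj⟩ := L.ctr.step i hi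
    exact hj.par_ne
  have hadj : max i₀ i₁ = min i₀ i₁ + 1 := by
    by_contra hno
    have h2 := hhigh (min i₀ i₁ + 1) (by omega) (by omega)
    have h3 := hhigh (min i₀ i₁ + 2) (by omega) (by omega)
    have p1 := hpne (min i₀ i₁ + 1) (by omega)
    have c1 := par_cases (w (min i₀ i₁ + 1))
    have c2 := par_cases (w (min i₀ i₁ + 1 + 1))
    rcases Nat.lt_or_ge (min i₀ i₁ + 1) k with h4 | h4
    · by_cases h5 : par (w (min i₀ i₁ + 1)) = c
      · exact h2 (hW1 _ (by omega) h4.le (by omega) h5)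
      · exact h3 (hW1 (min i₀ i₁ + 1 + 1) (by omega) (by omega) (by omega) (by omega))
    · by_cases h5 : par (w (min i₀ i₁ + 1)) = c
      · exact h3 (hW2 (min i₀ i₁ + 1 + 1) (by omega) (by omega) (by omega))
      · exact h2 (hW2 _ h4 (by omega) h5)
  obtain ⟨j, hj⟩ : ∃ j, j = min i₀ i₁ := ⟨_, rfl⟩
  rw [← hj] at hadj
  have hv := hhigh (j + 1) (by omega) (by omega)
  have hjm : j + 1 < m := by omega
  have hj1 : 1 ≤ j := by omega
  have cv := par_cases (w (j + 1))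
  -- the colour
  obtain ⟨c', hc', hpv, hSj, hSj2⟩ : ∃ c' : ℤ, (c' = 0 ∨ c' = 1) ∧ par (w (j + 1)) = 1 - c' ∧
      E.Sid c' ω s (w j) ∧ E.Sid c' ω s (w (j + 1 + 1)) := by
    have p1 := hpne j (by omega)
    have p2 := hpne (j + 1) hjm
    have c1 := par_cases (w j)
    have c2 := par_cases (w (j + 1 + 1))
    rcases Nat.lt_or_ge (j + 1) k with h4 | h4
    · have h5 : par (w (j + 1)) ≠ c := fun h5 => hv (hW1 _ (by omega) h4.le (by omega) h5)
      exact ⟨c, hcc, by omega, L.wb j hj1 (by omega) j (Or.inl rfl) (by omega),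
        L.wb (j + 1) (by omega) h4 _ (Or.inr rfl) (by omega)⟩
    · have h5 : par (w (j + 1)) = c := by
        by_contra h5
        exact hv (hW2 _ h4 hjm h5)
      have hjk : k ≤ j := by
        by_contra h6
        have h7 : j + 1 = k := by omega
        exact hv (hW1 _ (by omega) (by omega) (by omega) h5)
      exact ⟨1 - c, by omega, by omega, L.wl j hjk (by omega) j (Or.inl rfl) (by omega),
        L.wl (j + 1) (by omega) hjm _ (Or.inr rfl) (by omega)⟩
  have p1 := hpne j (by omega)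
  have p2 := hpne (j + 1) hjm
  have c1 := par_cases (w j)
  have c2 := par_cases (w (j + 1 + 1))
  refine ⟨c', hc', ?_⟩
  rcases lt_or_gt_of_ne hne with h2 | h2
  · have e0 : i₀ = j := by omega
    have e1 : i₁ = j + 1 := by omega
    subst e0
    subst e1
    refine ⟨?_, ?_, ?_, i₀, hjm, Or.inl ⟨j0, j1⟩⟩
    · rw [en_joins j0.symm hpv, en_joins j1 hpv]
    · rw [en_joins j0 (by omega : par (w i₀) = c')]
      exact hSj
    · rw [en_joins j1.symm (by omega : par (w (i₀ + 1 + 1)) = c')]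
      exact hSj2
  · have e0 : i₁ = j := by omega
    have e1 : i₀ = j + 1 := by omega
    subst e0
    subst e1
    refine ⟨?_, ?_, ?_, i₁, hjm, Or.inr ⟨j1, j0⟩⟩
    · rw [en_joins j0 hpv, en_joins j1.symm hpv]
    · rw [en_joins j0.symm (by omega : par (w (i₁ + 1 + 1)) = c')]
      exact hSj2
    · rw [en_joins j1 (by omega : par (w i₁) = c')]
      exact hSj

/-- **Gate at a pinch.** During an excursion outside of `U` the unit edge of the return is a gate. -/
theorem pinch_gate (L : Lab E ω s U m w k c) (hn : Nb (E.cf ω) (E.e ω) b) (hsa : s < a)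
    (h0 : fb (E.p ω a) ∈ U) (hout : ∀ l, a ≤ l → l < b → fa (E.p ω l) ∉ U)
    (h1 : fa (E.p ω b) ∈ U) (hat : a ≤ t) (htb : t < b) {z : ℤ × ℤ} {R : ℤ}
    (hz : InB z R (E.p ω a)) : E.Gate ω t z (R + 1) := by
  obtain ⟨c', hc', he, -, hS, -⟩ := exc_nbr L hn hsa (by omega) h0 hout h1
  have hc1 : 1 - c' = 0 ∨ 1 - c' = 1 := by omega
  have hv : E.Sid (1 - c') ω t (en (1 - c') (E.p ω b)) := by
    rw [← he]
    exact Ex.sid_strand hc1 hat
  have hu : E.Sid c' ω t (en c' (E.p ω b)) := hS.mono (by omega)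
  have hb : InB z (R + 1) (E.p ω b) := inB_common (v := en (1 - c') (E.p ω b))
    (by rw [← he]; exact atE_en _ _) (atE_en _ _) hz
  have hp : ∀ {x y : ℤ × ℤ}, Joins (E.p ω b) x y →
      Pth {y | InB z (R + 1) y ∧ ∀ l ≤ t, E.p ω l ≠ y} x y := by
    intro x y hj
    refine Relation.ReflTransGen.single ⟨E.p ω b, ⟨hb, fun l hl h => ?_⟩, hj⟩
    have := hn.inj (by omega) le_rfl h
    omega
  rcases hc' with rfl | rfl
  · exact ⟨_, _, hu, hv, hp (en_joins' (Or.inl rfl) _)⟩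
  · exact ⟨_, _, hv, hu, hp (en_joins' (Or.inl rfl) _)⟩

/-! ### Near the base -/

theorem isCor_in (A : UE × Bool) : IsCor (ahead A) (rg A) := (isCor_rg_iff _ _).2 (Or.inr (Or.inl rfl))

/-- The inner faces of consecutive sides of a contour are joined around their common vertex. -/
theorem local_chain (A : UE × Bool) :
    ChI {f | f ∈ U ∧ IsCor f (rg A)} (ahead A) (ahead (sc U A)) := by
  by_cases h1 : ahead (rtn A) ∈ U
  · have c1 : IsCor (ahead (rtn A)) (rg A) := by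
      rw [← rg_rtn A]
      exact isCor_in _
    have s1 : AdjF (ahead A) (ahead (rtn A)) := by
      have := adjF_ahead (rtn A)
      rwa [ahead_rv_rtn] at this
    by_cases h2 : ahead (rtn (rtn A)) ∈ U
    · have c2 : IsCor (ahead (rtn (rtn A))) (rg A) := by
        rw [← rg_rtn A, ← rg_rtn (rtn A)]
        exact isCor_in _
      have s2 : AdjF (ahead (rtn A)) (ahead (rtn (rtn A))) := by
        have := adjF_ahead (rtn (rtn A))
        rwa [ahead_rv_rtn] at this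
      rw [sc_right h1 h2, ahead_rv_rtn]
      have g1 : ChI {f | f ∈ U ∧ IsCor f (rg A)} (ahead A) (ahead (rtn A)) :=
        ChI.single s1 ⟨h1, c1⟩
      have g2 : ChI {f | f ∈ U ∧ IsCor f (rg A)} (ahead (rtn A)) (ahead (rtn (rtn A))) :=
        ChI.single s2 ⟨h2, c2⟩
      exact g1.trans g2
    · rw [sc_straight h1 h2, ahead_rv_rtn]
      exact ChI.single s1 ⟨h1, c1⟩
  · rw [sc_left h1, ahead_rv_rtn]
    exact ChI.refl _

/-- The first visit of a set of fresh faces. -/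
theorem first_visit {μ : Set (ℤ × ℤ)} {l : ℕ} (hμ : μ ⊆ E.Fr ω s) (hsl : s ≤ l)
    (hl : fa (E.p ω l) ∈ μ) : ∃ σ, s ≤ σ ∧ σ ≤ l ∧ fa (E.p ω σ) ∈ μ ∧ μ ⊆ E.Fr ω σ := by
  classical
  have hex : ∃ σ, s ≤ σ ∧ fa (E.p ω σ) ∈ μ := ⟨l, hsl, hl⟩
  obtain ⟨h1, h2⟩ := Nat.find_spec hex
  refine ⟨Nat.find hex, h1, Nat.find_min' hex ⟨hsl, hl⟩, h2, fun f hf => ?_⟩
  obtain ⟨g1, g2⟩ := hμ hf
  refine ⟨g1, fun g3 => ?_⟩
  obtain ⟨j, -, j2, j3⟩ := mem_vs.1 (Finset.mem_coe.1 g3.2)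
  have j3' : f = fa (E.p ω j) := j3
  rcases Nat.lt_or_ge j s with j4 | j4
  · exact g2 ⟨g1, Finset.mem_coe.2 (mem_vs.2 ⟨j, Nat.zero_le _, j4, j3⟩)⟩
  · exact Nat.find_min hex j2 ⟨j4, j3' ▸ hf⟩

/-- The sides of a face with a corner in common with a unit edge. -/
theorem inB_corner {z v f : ℤ × ℤ} {r : ℤ} {a y : UE} (hz : InB z r a) (hv : AtE v a)
    (hf : IsCor f v) (hy : IsSide f y) : InB z (r + 2) y := by
  have h1 := ua_ub a
  have h2 := Ex.side_coord hy
  rw [inB_iff] at hz ⊢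
  unfold IsCor at hf
  rcases hv with rfl | rfl <;> omega

/-- **The base.** An excursion outside of `U` which begins near the base and goes far away is a return
to a connected set of fresh faces near the base. -/
theorem pinch_ret {A : UE × Bool} (hA : BD U A)
    (L : Lab E ω s U m (fun i => lf ((sc U)^[i] A)) k c) (hW : E.Wll ω)
    (he : fb (E.e ω) ∉ E.U ω) (hn : Nb (E.cf ω) (E.e ω) b) (hsa : s < a)
    (h0 : fb (E.p ω a) ∈ U) (hout : ∀ l, a ≤ l → l < b → fa (E.p ω l) ∉ U)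
    (h1 : fa (E.p ω b) ∈ U) (hat : a ≤ t) (htb : t < b) {z : ℤ × ℤ} {ρ R : ℤ} {N K : ℕ}
    (hz : InB z ρ (E.p ω a)) (hK : a ≤ hk E ω z (ρ + 2) R N K) (hR : ¬ InB z R (E.p ω t)) :
    BaseRet E N z (ρ + 2) R K ω := by
  obtain ⟨c', hc', hev, -, -, j, hjm, hj⟩ := exc_nbr L hn hsa (by omega) h0 hout h1
  set S : ℕ → UE × Bool := fun i => (sc U)^[i] A with hS
  have hBD : ∀ i, BD U (S i) := fun i => hA.iterate i
  have hlf : ∀ i, lf (S (i + 1)) = rg (S i) := by
    intro i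
    simp only [hS, Function.iterate_succ_apply', lf_sc]
  have hsuc : S (j + 1) = sc U (S j) := by
    simp only [hS, Function.iterate_succ_apply']
  have hj' : (Joins (E.p ω a) (lf (S j)) (lf (S (j + 1))) ∧
      Joins (E.p ω b) (lf (S (j + 1))) (lf (S (j + 1 + 1)))) ∨
      (Joins (E.p ω b) (lf (S j)) (lf (S (j + 1))) ∧
        Joins (E.p ω a) (lf (S (j + 1))) (lf (S (j + 1 + 1)))) := hj
  set v := rg (S j) with hv
  have hedge : ∀ {y : UE} {i : ℕ}, Joins y (lf (S i)) (lf (S (i + 1))) → y = (S i).1 := by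
    intro y i h
    rw [hlf] at h
    exact Joins.uniq h (joins_lf_rg _)
  have hinner : ∀ {y : UE} {i : ℕ} {f : ℤ × ℤ}, y = (S i).1 → IsSide f y → f ∈ U →
      f = ahead (S i) := by
    rintro y i f rfl hf hfU
    exact ((ahead_bd (hBD i) hfU (hBD i).2 hf (isSide_ahead (S i).1 (!(S i).2))).1).symm
  -- the local component
  set W : Set (ℤ × ℤ) := {f | f ∈ U ∧ IsCor f v} with hWdef
  have hx : ahead (S j) ∈ W := ⟨(hBD j).1, isCor_in _⟩
  have hx' : ahead (S (j + 1)) ∈ compT W (ahead (S j)) := by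
    have := local_chain (U := U) (S j)
    rw [← hsuc] at this
    exact this
  set μ : Set (ℤ × ℤ) := compT W (ahead (S j)) with hμ
  have hμW : μ ⊆ W := compT_sub hx
  have hxμ : ahead (S j) ∈ μ := ChI.refl _
  have hva : AtE v (E.p ω a) := by
    rcases hj' with ⟨g1, -⟩ | ⟨-, g2⟩
    · rw [hlf j] at g1
      exact (atE_of_joins g1).2
    · rw [hlf j] at g2
      exact (atE_of_joins g2).1
  obtain ⟨ha, hb⟩ : fb (E.p ω a) ∈ μ ∧ fa (E.p ω b) ∈ μ := by
    rcases hj' with ⟨g1, g2⟩ | ⟨g1, g2⟩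
    · rw [hinner (hedge g1) (isSide_fb _) h0, hinner (hedge g2) (isSide_fa _) h1]
      exact ⟨hxμ, hx'⟩
    · rw [hinner (hedge g1) (isSide_fa _) h1, hinner (hedge g2) (isSide_fb _) h0]
      exact ⟨hx', hxμ⟩
  obtain ⟨a', rfl⟩ : ∃ a', a = a' + 1 := ⟨a - 1, by omega⟩
  have hfb : fb (E.p ω (a' + 1)) = fa (E.p ω a') := fb_pth_succ _ _ _
  rw [hfb] at ha
  obtain ⟨σ, g1, g2, g3, g4⟩ := first_visit (fun f hf => L.sub (hμW hf).1) (by omega) ha
  refine ⟨hW, he, μ, σ, t, b, g4, econn_compT hx, fun f hf y hy => ?_, g3, by omega, htb.le, hn,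
    by omega, hR, _, hb, isSide_fa _⟩
  exact inB_corner hz hva (hμW hf).2 hy

end Pool.Agent.SixB.Pin
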