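import Pool.Agent.Lib.SixB.TopCtr
import Pool.Agent.Lib.SixB.S8Exit

/-!
# Step 8, unit 8B: the arcs of the domain of a move

`D` is a finite edge connected region without holes, `A` a boundary side (the tip side), `X` a set of
faces outside `D` (the outer faces of the stop sides). The contour of `D` starts at `A`; `p` and `q`
are the first and the last index of a side whose outer face is in `X`. The sides before `p` form the
wall on one side of the tip, the sides after `q` the wall on the other side, the sides `p, …, q` the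
outer arc, at which the exploration stops.
-/

set_option autoImplicit false

namespace Pool.Agent.SixB.Mv

open Pool.Agent.Perc Pool.Agent.Perc6 Pool.Agent.Perc.Tips Pool.Agent.SixB.Top

/-- The side with index `i` of the contour of `D` which starts at `A`. -/
noncomputable def side (D : Set (ℤ × ℤ)) (A : UE × Bool) (i : ℕ) : UE × Bool := (sc D)^[i] A

/-- The face on the other side of the side with index `i`. -/
noncomputable def outF (D : Set (ℤ × ℤ)) (A : UE × Bool) (i : ℕ) : ℤ × ℤ := ahead (rv (side D A i))

/-- The vertices of the contour. -/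
noncomputable def vert (D : Set (ℤ × ℤ)) (A : UE × Bool) (i : ℕ) : ℤ × ℤ := lf (side D A i)

/-- The contour of `D` from `A` has `m` sides; `p` and `q` are the first and the last index of a side
with outer face in `X`. -/
structure Arcs (D : Set (ℤ × ℤ)) (A : UE × Bool) (X : Set (ℤ × ℤ)) (m p q : ℕ) : Prop where
  bd : BD D A
  pos : 0 < m
  per : side D A m = A
  inj : ∀ i < m, ∀ j < m, side D A i = side D A j → i = j
  ctr : Ctr D m (vert D A)
  le : p ≤ q
  lt : q < m
  memp : outF D A p ∈ X
  memq : outF D A q ∈ X
  first : ∀ i < p, outF D A i ∉ X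
  last : ∀ i, q < i → i < m → outF D A i ∉ X

variable {D X : Set (ℤ × ℤ)} {A : UE × Bool} {m p q : ℕ}

theorem side_succ (i : ℕ) : side D A (i + 1) = sc D (side D A i) :=
  Function.iterate_succ_apply' _ _ _

theorem side_add (i j : ℕ) : side D A (i + j) = side D (side D A i) j := by
  unfold side
  rw [Nat.add_comm, Function.iterate_add_apply]

theorem vert_succ (i : ℕ) : vert D A (i + 1) = rg (side D A i) := by
  unfold vert
  rw [side_succ, lf_sc]

theorem bd_side (h : BD D A) (i : ℕ) : BD D (side D A i) := h.iterate i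

theorem joins_side (i : ℕ) : Joins (side D A i).1 (vert D A i) (vert D A (i + 1)) := by
  rw [vert_succ]
  exact joins_lf_rg _

theorem outF_notMem (h : BD D A) (i : ℕ) : outF D A i ∉ D := (bd_side h i).2

/-- Existence of the arcs. -/
theorem exists_arcs (hF : D.Finite) (hc : EConn D) (he : Esc D) (hA : BD D A)
    (hX : ∃ B, BD D B ∧ ahead (rv B) ∈ X) : ∃ m p q, Arcs D A X m p q := by
  classical
  obtain ⟨m, hm, hper, hinj, hctr⟩ := exists_dctr hF hc he hA
  obtain ⟨B, hB, hBX⟩ := hX
  have hex : ∃ i, i < m ∧ outF D A i ∈ X := by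
    obtain ⟨i, hi, hj⟩ := hctr.all _ hB.bdU
    refine ⟨i, hi, ?_⟩
    have h1 : (side D A i).1 = B.1 := Joins.uniq (joins_side i) (by
      have := hj
      exact this)
    have h2 : side D A i = B := (bd_side hA i).eq_of_fst hB h1
    unfold outF
    rw [h2]
    exact hBX
  have hex' : ∃ i, outF D A i ∈ X := by
    obtain ⟨i, _, hi⟩ := hex
    exact ⟨i, hi⟩
  have hmin : ∀ i, outF D A i ∈ X → Nat.find hex' ≤ i := fun i hi => Nat.find_min' hex' hi
  set S := (Finset.range m).filter fun i => outF D A i ∈ X with hS
  have hSne : S.Nonempty := by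
    obtain ⟨i, hi, hiX⟩ := hex
    exact ⟨i, Finset.mem_filter.2 ⟨Finset.mem_range.2 hi, hiX⟩⟩
  have hq := Finset.max'_mem S hSne
  obtain ⟨hq1, hq2⟩ := Finset.mem_filter.1 hq
  refine ⟨m, Nat.find hex', S.max' hSne, hA, hm, hper, hinj, hctr, hmin _ hq2,
    Finset.mem_range.1 hq1, Nat.find_spec hex', hq2, fun i hi => Nat.find_min hex' hi, ?_⟩
  intro i hi him hiX
  exact absurd (Finset.le_max' S i (Finset.mem_filter.2 ⟨Finset.mem_range.2 him, hiX⟩)) (by omega)

namespace Arcs

/-- The indices are determined. -/
theorem unique {m' p' q' : ℕ} (h : Arcs D A X m p q) (h' : Arcs D A X m' p' q') :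
    m = m' ∧ p = p' ∧ q = q' := by
  have hm : m = m' := by
    rcases lt_trichotomy m m' with h1 | h1 | h1
    · have := h'.inj m h1 0 (by have := h'.pos; omega) (h.per.trans rfl)
      have := h.pos; omega
    · exact h1
    · have := h.inj m' h1 0 (by have := h.pos; omega) (h'.per.trans rfl)
      have := h'.pos; omega
  subst hm
  refine ⟨rfl, ?_, ?_⟩
  · rcases lt_trichotomy p p' with h1 | h1 | h1
    · exact absurd h.memp (h'.first p h1)
    · exact h1
    · exact absurd h'.memp (h.first p' h1)
  · rcases lt_trichotomy q q' with h1 | h1 | h1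
    · exact absurd h'.memq (h.last q' h1 h'.lt)
    · exact h1
    · exact absurd h.memq (h'.last q h1 h.lt)

theorem vert_m (h : Arcs D A X m p q) : vert D A m = vert D A 0 := h.ctr.close

theorem par_vert (h : Arcs D A X m p q) {i : ℕ} (hi : i < m) :
    par (vert D A i) ≠ par (vert D A (i + 1)) := by
  obtain ⟨e, _, he⟩ := h.ctr.step i hi
  exact he.par_ne

end Arcs

end Pool.Agent.SixB.Mv
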