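import Pool.Agent.Lib.SixB.S8State
import Pool.Agent.Lib.SixB.S8NeedleF

/-!
# Step 8: the clearance needles as parameters of the state

`prmC kp m zt Lu`: the needle with target `z` in the set `W` of unit cells is active if the box of radius
`3 Lu - 1` around `z` is in `W`; it consists of the cells `1, …, Lu` of the path from the complement of
`W` towards `z`.
-/

set_option autoImplicit false

namespace Pool.Agent.SixB.Mv

open Pool.Agent.Perc Pool.Agent.Perc6 Pool.Agent.SixB.Top Pool.Agent.SixB.Ndle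

open Classical in
/-- A finite set as a `Finset`. -/
noncomputable def toF (W : Set (ℤ × ℤ)) : Finset (ℤ × ℤ) := if h : W.Finite then h.toFinset else ∅

theorem mem_toF {W : Set (ℤ × ℤ)} (hW : W.Finite) {f : ℤ × ℤ} : f ∈ toF W ↔ f ∈ W := by
  unfold toF
  rw [dif_pos hW, Set.Finite.mem_toFinset]

theorem toF_sub {W : Set (ℤ × ℤ)} {f : ℤ × ℤ} (h : f ∈ toF W) : f ∈ W := by
  by_cases hW : W.Finite
  · exact (mem_toF hW).1 h
  · unfold toF at h
    rw [dif_neg hW] at h
    exact absurd h (Finset.notMem_empty f)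

/-- The parameters of the scan with clearance needles. -/
noncomputable def prmC (kp m : ℕ) (zt : ℕ → ℤ × ℤ) (Lu : ℕ) : Prm where
  kap := kp
  m := m
  zt := zt
  act W z := 3 * Lu ≤ dlt (toF W) z
  ndl W z := {f | ∃ i, 1 ≤ i ∧ i ≤ Lu ∧ f = ndc (toF W) z i}

variable {kp m : ℕ} {zt : ℕ → ℤ × ℤ} {Lu : ℕ} {W : Set (ℤ × ℤ)} {z : ℤ × ℤ}

theorem prmC_act : (prmC kp m zt Lu).act W z ↔ 3 * Lu ≤ dlt (toF W) z := Iff.rfl

theorem mem_ndl {f : ℤ × ℤ} : f ∈ (prmC kp m zt Lu).ndl W z ↔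
    ∃ i, 1 ≤ i ∧ i ≤ Lu ∧ f = ndc (toF W) z i := Iff.rfl

theorem ndl_finite : ((prmC kp m zt Lu).ndl W z).Finite := by
  refine ((Set.finite_Icc 1 Lu).image fun i => ndc (toF W) z i).subset ?_
  rintro f ⟨i, h1, h2, rfl⟩
  exact ⟨i, ⟨h1, h2⟩, rfl⟩

theorem ndl_sub (h : (prmC kp m zt Lu).act W z) : (prmC kp m zt Lu).ndl W z ⊆ W := by
  rintro f ⟨i, h1, h2, rfl⟩
  exact toF_sub (ndc_mem h1 (by have := prmC_act.1 h; omega))

/-- The cells of the needle are far from the target. -/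
theorem ndl_far (h : (prmC kp m zt Lu).act W z) {f : ℤ × ℤ} (hf : f ∈ (prmC kp m zt Lu).ndl W z) :
    (2 * Lu : ℤ) ≤ sd f z := by
  obtain ⟨i, h1, h2, rfl⟩ := hf
  have h3 := prmC_act.1 h
  have h4 := npt_ge z (bse (toF W) z) (i := i) (by rw [sd_bse]; exact_mod_cast (by omega))
  rw [sd_bse] at h4
  have h5 : (3 * Lu : ℤ) ≤ dlt (toF W) z := by exact_mod_cast h3
  have h6 : (i : ℤ) ≤ Lu := by exact_mod_cast h2
  change (2 * Lu : ℤ) ≤ sd (npt z (bse (toF W) z) i) z
  linarith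

theorem target_notMem (hLu : 1 ≤ Lu) (h : (prmC kp m zt Lu).act W z) :
    z ∉ (prmC kp m zt Lu).ndl W z := by
  intro hz
  have h1 := ndl_far h hz
  rw [Ndle.sd_self] at h1
  omega

/-- The target is in the set. -/
theorem target_mem (hLu : 1 ≤ Lu) (h : (prmC kp m zt Lu).act W z) : z ∈ W := by
  have h1 := prmC_act.1 h
  refine toF_sub (mem_of_lt (z := z) ?_)
  rw [Ndle.sd_self]
  exact_mod_cast (by omega : 0 < dlt (toF W) z)

/-- The box around the target is in the set. -/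
theorem box_sub_W {f : ℤ × ℤ} (h : sd f z < dlt (toF W) z) : f ∈ W := toF_sub (mem_of_lt h)

/-- The base cell is outside of the set (if it is finite). -/
theorem bse_notMem (hW : W.Finite) : bse (toF W) z ∉ W := fun h =>
  (bse_spec (toF W) z).1 ((mem_toF hW).2 h)

/-- Cells at `ℓ¹` distance one have a common side. -/
theorem adjF_of_ld {f g : ℤ × ℤ} (h : ld g f = 1) : AdjF f g := by
  rw [adjF_iff]
  obtain ⟨a, b⟩ := f
  obtain ⟨c, d⟩ := g
  rcases adj_cases h with ⟨h1, h2⟩ | ⟨h1, h2⟩ | ⟨h1, h2⟩ | ⟨h1, h2⟩ <;> simp only at h1 h2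
  · left; rw [h1, h2]
  · right; left; rw [h1, h2]
  · right; right; left; rw [h1, h2]
  · right; right; right; rw [h1, h2]

/-- The cells of the needle are side connected. -/
theorem ndl_conn (h : (prmC kp m zt Lu).act W z) {f g : ℤ × ℤ} (hf : f ∈ (prmC kp m zt Lu).ndl W z)
    (hg : g ∈ (prmC kp m zt Lu).ndl W z) : ChI ((prmC kp m zt Lu).ndl W z) f g := by
  have h0 := prmC_act.1 h
  have key : ∀ i, 1 ≤ i → i ≤ Lu →
      ChI ((prmC kp m zt Lu).ndl W z) (ndc (toF W) z 1) (ndc (toF W) z i) := by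
    intro i h1 h2
    induction i, h1 using Nat.le_induction with
    | base => exact ChI.refl _
    | succ i h1 ih =>
      refine (ih (by omega)).trans (ChI.single (adjF_of_ld (ndc_adj (by omega))) ?_)
      exact ⟨i + 1, by omega, h2, rfl⟩
  obtain ⟨i, h1, h2, rfl⟩ := hf
  obtain ⟨j, h3, h4, rfl⟩ := hg
  exact (ChI.symm (S := (prmC kp m zt Lu).ndl W z) ⟨1, le_rfl, by omega, rfl⟩ (key i h1 h2)).trans
    (key j h3 h4)

/-- The first cell of the needle is at the side of the base cell. -/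
theorem ndl_start (hLu : 1 ≤ Lu) (h : (prmC kp m zt Lu).act W z) :
    ndc (toF W) z 1 ∈ (prmC kp m zt Lu).ndl W z ∧ AdjF (ndc (toF W) z 1) (bse (toF W) z) := by
  have h0 := prmC_act.1 h
  exact ⟨⟨1, le_rfl, hLu, rfl⟩, (adjF_of_ld (ndc_adj (C := toF W) (z := z) (i := 0) (by omega))).symm⟩

end Pool.Agent.SixB.Mv
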