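import Pool.Agent.Lib.SixB.S8Main

/-!
# Step 8: the row `rare`, abstract part

The bad event of the stage `m` is contained in the union of a static event `Z d n m` and of events
`Y d n l m`, `l < m`, of which the conditional probability given a good past of the stage `l` is small
if the resolution `d l` is fine compared with `d (l + 1)`. If the resolutions grow fast enough then the
row `rare` of `ChnOK` holds (`rare_of_parts`).
-/

set_option autoImplicit false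

namespace Pool.Agent.SixB

open Filter Topology Finset Pool.Agent.Perc

/-- The errors which are allowed at the stage `l` if `d (l + 1) = e`. -/
noncomputable def epsR (e : ℕ) : ℝ := (1 / 2 : ℝ) ^ e

theorem epsR_pos (e : ℕ) : 0 < epsR e := by unfold epsR; positivity

theorem epsR_anti {e e' : ℕ} (h : e ≤ e') : epsR e' ≤ epsR e := by
  unfold epsR
  exact pow_le_pow_of_le_one (by norm_num) (by norm_num) h

theorem pr_false (W : Finset (ℤ × ℤ)) : pr W (∅ : Set Cfg) = 0 := by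
  rw [ProbA.pr_eq_sum]
  simp

/-- The union bound with conditional parts. -/
theorem pr_parts (W : Finset (ℤ × ℤ)) (m : ℕ) (B Z : Set Cfg) (Bd Y : ℕ → Set Cfg) {a b δ : ℝ}
    (hB : B ⊆ Z ∪ {ω | ∃ l < m, ω ∈ Y l}) (hZ : pr W Z ≤ a)
    (hY : ∀ l < m, pr W (Y l ∩ {ω | ∀ i ≤ l, ω ∉ Bd i}) ≤ δ) (hBd : ∀ l < m, pr W (Bd l) ≤ b) :
    pr W B ≤ a + m * (δ + b) := by
  have h1 : B ⊆ Z ∪ {ω | ∃ l < m, ω ∈ (Y l ∩ {ω | ∀ i ≤ l, ω ∉ Bd i}) ∪ Bd l} := by
    intro ω hω
    rcases hB hω with h | ⟨l, hl, h⟩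
    · exact Or.inl h
    · refine Or.inr ?_
      by_cases hg : ∀ i ≤ l, ω ∉ Bd i
      · exact ⟨l, hl, Or.inl ⟨h, hg⟩⟩
      · push Not at hg
        obtain ⟨i, hi, h2⟩ := hg
        exact ⟨i, by omega, Or.inr h2⟩
  refine (pr_mono W h1).trans ((pr_union_le W _ _).trans ?_)
  have h2 := pr_biUnion_le W (fun l => (Y l ∩ {ω | ∀ i ≤ l, ω ∉ Bd i}) ∪ Bd l) (fun _ => δ + b) m
    fun l hl => (pr_union_le W _ _).trans (add_le_add (hY l hl) (hBd l hl))
  rw [sum_const, card_range, nsmul_eq_mul] at h2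
  linarith

/-- **The row `rare` from its parts.** -/
theorem rare_of_parts {A : Type} (c : ChnD A) (W : ℕ → Finset (ℤ × ℤ))
    (Z : (ℕ → ℕ) → ℕ → ℕ → Set Cfg) (Y : (ℕ → ℕ) → ℕ → ℕ → ℕ → Set Cfg)
    (LZ LY : ℕ → ℕ → ℝ → ℕ)
    (hBd : ∀ d n m, c.Bd d n m ⊆ Z d n m ∪ {ω | ∃ l < m, ω ∈ Y d n l m})
    (hZ : ∀ (m e : ℕ) (η : ℝ), 0 < η → ∀ d : ℕ → ℕ, d (m + 1) = e → LZ m e η ≤ d m →
      c.Gro (m + 1) d → ∀ᶠ n in atTop, pr (W n) (Z d n m) ≤ η)
    (hY : ∀ (l e : ℕ) (η : ℝ), 0 < η → ∀ d : ℕ → ℕ, d (l + 1) = e → LY l e η ≤ d l →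
      c.Gro (l + 1) d → ∀ m, l < m → c.Gro (m + 1) d →
      ∀ᶠ n in atTop, pr (W n) (Y d n l m ∩ {ω | ∀ i ≤ l, ω ∉ c.Bd d n i}) ≤ η)
    (hG1 : ∀ l e, e ≤ c.G l e) (hG2 : ∀ l e, LZ l e (epsR e) ≤ c.G l e)
    (hG3 : ∀ l e, LY l e (epsR e) ≤ c.G l e) :
    ∀ (m ℓ : ℕ) (η : ℝ), 0 < η → ∃ L : ℕ, ∀ d : ℕ → ℕ, d (m + 1) = ℓ → L ≤ d m →
      c.Gro (m + 1) d → ∀ᶠ n in atTop, pr (W n) (c.Bd d n m) ≤ η := by
  -- the resolutions decrease
  have hdec : ∀ (d : ℕ → ℕ) (m : ℕ), c.Gro m d → ∀ i ≤ m, d m ≤ d (m - i) := by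
    intro d m hg i
    induction i with
    | zero => intro _; simp
    | succ i ih =>
      intro hi
      have h1 := ih (by omega)
      have h2 := hg (m - (i + 1)) (by omega)
      have h3 : m - (i + 1) + 1 = m - i := by omega
      rw [h3] at h2
      exact h1.trans ((hG1 _ _).trans h2)
  have hdec' : ∀ (d : ℕ → ℕ) (m i : ℕ), c.Gro m d → i ≤ m → d m ≤ d i := by
    intro d m i hg hi
    have h1 := hdec d m hg (m - i) (by omega)
    have h2 : m - (m - i) = i := by omega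
    rwa [h2] at h1
  -- the stages before `m`
  have hind : ∀ (m : ℕ) (d : ℕ → ℕ), c.Gro m d → ∀ l < m,
      ∀ᶠ n in atTop, pr (W n) (c.Bd d n l) ≤ (2 * (m : ℝ) + 2) ^ (l + 1) * epsR (d m) := by
    intro m d hg l
    induction l using Nat.strong_induction_on with
    | _ l ih =>
      intro hl
      have hgl : c.Gro (l + 1) d := fun i hi => hg i (by omega)
      have hml : d m ≤ d (l + 1) := hdec' d m (l + 1) hg (by omega)
      have e1 : ∀ᶠ n in atTop, pr (W n) (Z d n l) ≤ epsR (d m) := by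
        have h1 := hZ l (d (l + 1)) (epsR (d (l + 1))) (epsR_pos _) d rfl
          ((hG2 _ _).trans (hg l hl)) hgl
        filter_upwards [h1] with n hn
        exact hn.trans (epsR_anti hml)
      have e2 : ∀ᶠ n in atTop, ∀ i ∈ range l, pr (W n) (Y d n i l ∩ {ω | ∀ i' ≤ i,
          ω ∉ c.Bd d n i'}) ≤ epsR (d m) := by
        rw [eventually_all_finset]
        intro i hi
        rw [mem_range] at hi
        have h1 := hY i (d (i + 1)) (epsR (d (i + 1))) (epsR_pos _) d rfl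
          ((hG3 _ _).trans (hg i (by omega))) (fun i' hi' => hg i' (by omega)) l hi hgl
        filter_upwards [h1] with n hn
        exact hn.trans (epsR_anti (hdec' d m (i + 1) hg (by omega)))
      have e3 : ∀ᶠ n in atTop, ∀ i ∈ range l, pr (W n) (c.Bd d n i) ≤
          (2 * (m : ℝ) + 2) ^ l * epsR (d m) := by
        rw [eventually_all_finset]
        intro i hi
        rw [mem_range] at hi
        filter_upwards [ih i hi (by omega)] with n hn
        refine hn.trans (mul_le_mul_of_nonneg_right ?_ (epsR_pos _).le)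
        exact pow_le_pow_right₀ (by linarith [(Nat.cast_nonneg m : (0 : ℝ) ≤ m)]) (by omega)
      filter_upwards [e1, e2, e3] with n h1 h2 h3
      have h4 := pr_parts (W n) l (c.Bd d n l) (Z d n l) (c.Bd d n) (fun i => Y d n i l)
        (hBd d n l) h1 (fun i hi => h2 i (mem_range.2 hi)) (fun i hi => h3 i (mem_range.2 hi))
      refine h4.trans ?_
      have hp := epsR_pos (d m)
      have hlm : (l : ℝ) ≤ m := by exact_mod_cast hl.le
      have hm0 : (0 : ℝ) ≤ m := Nat.cast_nonneg m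
      have hl0 : (0 : ℝ) ≤ l := Nat.cast_nonneg l
      have h5 : (1 : ℝ) ≤ (2 * (m : ℝ) + 2) ^ l := one_le_pow₀ (by linarith)
      have h6 : epsR (d m) ≤ (2 * (m : ℝ) + 2) ^ l * epsR (d m) := le_mul_of_one_le_left hp.le h5
      have h7 : epsR (d m) + (l : ℝ) * (epsR (d m) + (2 * (m : ℝ) + 2) ^ l * epsR (d m)) ≤
          (2 * (m : ℝ) + 2) ^ l * epsR (d m) + (m : ℝ) * ((2 * (m : ℝ) + 2) ^ l * epsR (d m) +
            (2 * (m : ℝ) + 2) ^ l * epsR (d m)) := by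
        refine add_le_add h6 (mul_le_mul hlm (add_le_add_left h6 _) (by positivity) hm0)
      refine h7.trans ?_
      have h8 : (2 * (m : ℝ) + 2) ^ l * epsR (d m) + (m : ℝ) * ((2 * (m : ℝ) + 2) ^ l * epsR (d m) +
            (2 * (m : ℝ) + 2) ^ l * epsR (d m)) =
          (2 * (m : ℝ) + 1) * ((2 * (m : ℝ) + 2) ^ l * epsR (d m)) := by ring
      rw [h8, pow_succ, mul_comm ((2 * (m : ℝ) + 2) ^ l) (2 * (m : ℝ) + 2), mul_assoc]
      exact mul_le_mul_of_nonneg_right (by linarith) (by positivity)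
  intro m ℓ η hη
  -- the constants
  obtain ⟨k₀, hk₀⟩ : ∃ k₀ : ℕ, (m : ℝ) * (epsR k₀ + (2 * (m : ℝ) + 2) ^ m * epsR k₀) ≤ η / 2 := by
    obtain ⟨k₀, hk₀⟩ := exists_pow_lt_of_lt_one
      (show (0 : ℝ) < η / 2 / ((m + 1) * (1 + (2 * (m : ℝ) + 2) ^ m)) by positivity)
      (show (1 / 2 : ℝ) < 1 by norm_num)
    refine ⟨k₀, ?_⟩
    rw [lt_div_iff₀ (by positivity)] at hk₀
    have h1 : (0 : ℝ) ≤ (1 / 2 : ℝ) ^ k₀ := by positivity
    have h2 : (0 : ℝ) ≤ (2 * (m : ℝ) + 2) ^ m := by positivity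
    have h3 : (m : ℝ) * (epsR k₀ + (2 * (m : ℝ) + 2) ^ m * epsR k₀) ≤
        epsR k₀ * ((m + 1) * (1 + (2 * (m : ℝ) + 2) ^ m)) := by
      unfold epsR
      have : (m : ℝ) * ((1 / 2 : ℝ) ^ k₀ + (2 * (m : ℝ) + 2) ^ m * (1 / 2 : ℝ) ^ k₀) =
        (1 / 2 : ℝ) ^ k₀ * (m * (1 + (2 * (m : ℝ) + 2) ^ m)) := by ring
      rw [this]
      refine mul_le_mul_of_nonneg_left (mul_le_mul_of_nonneg_right (by linarith) (by positivity)) h1
    exact h3.trans hk₀.le
  refine ⟨max (LZ m ℓ (η / 2)) k₀, fun d hdl hdm hg => ?_⟩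
  have hgm : c.Gro m d := fun i hi => hg i (by omega)
  have e1 := hZ m ℓ (η / 2) (by positivity) d hdl ((le_max_left _ _).trans hdm) hg
  have hk : k₀ ≤ d m := (le_max_right _ _).trans hdm
  have e2 : ∀ᶠ n in atTop, ∀ i ∈ range m, pr (W n) (Y d n i m ∩ {ω | ∀ i' ≤ i,
      ω ∉ c.Bd d n i'}) ≤ epsR k₀ := by
    rw [eventually_all_finset]
    intro i hi
    rw [mem_range] at hi
    have h1 := hY i (d (i + 1)) (epsR (d (i + 1))) (epsR_pos _) d rfl
      ((hG3 _ _).trans (hg i (by omega))) (fun i' hi' => hg i' (by omega)) m hi hg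
    filter_upwards [h1] with n hn
    exact hn.trans (epsR_anti (hk.trans (hdec' d m (i + 1) hgm (by omega))))
  have e3 : ∀ᶠ n in atTop, ∀ i ∈ range m, pr (W n) (c.Bd d n i) ≤
      (2 * (m : ℝ) + 2) ^ m * epsR k₀ := by
    rw [eventually_all_finset]
    intro i hi
    rw [mem_range] at hi
    filter_upwards [hind m d hgm i hi] with n hn
    refine hn.trans (mul_le_mul ?_ (epsR_anti hk) (epsR_pos _).le (by positivity))
    exact pow_le_pow_right₀ (by linarith [(Nat.cast_nonneg m : (0 : ℝ) ≤ m)]) (by omega)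
  filter_upwards [e1, e2, e3] with n h1 h2 h3
  have h4 := pr_parts (W n) m (c.Bd d n m) (Z d n m) (c.Bd d n) (fun i => Y d n i m)
    (hBd d n m) h1 (fun i hi => h2 i (mem_range.2 hi)) (fun i hi => h3 i (mem_range.2 hi))
  linarith

end Pool.Agent.SixB
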