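import Pool.Agent.Lib.SixB.S8RareE
import Pool.Agent.Lib.SixB.S8RareG2
import Pool.Agent.Lib.SixB.S8RareI
import Pool.Agent.Lib.SixB.S8NearTop

/-!
# Step 8: the rare events at the bases, in the names of the chain

* `base_gen`: `base_all` for any decided centres;
* `BsE E ω ρ R`: the event `BaseEv` at the first unit edge; `bsE_ext`, `bsE_all`: it depends only on the data
  of the exploration, it is rare (`Tru.BsExt`, `Tru.BaseAll`);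
* `ZB 𝔇 c₀ c₁ N₀ h d n m`: the event in one of the steps, radii `c₁ * gW d n m` and
  `ls d n (d (m + 1) + h)`; `smZ_ZB`: it is rare; `mem_ZB`, `not_bsE_of`: the states;
* `pr_one_all`, `one_scales`: passages with walls of one colour of the time `0`, explicit bound, and for the
  radii `c * ls d n (e + 3 * h)`, `ls d n (e + 2 * h)` with `h` large.
-/

set_option autoImplicit false

namespace Pool.Agent.SixB.BaseE

open Filter Topology Finset Pool.Agent.Perc Pool.Agent.PercT Pool.Agent.SixB Pool.Agent.SixB.NearCut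
  Pool.Agent.SixB.Top
open Pool.Agent.SixB.Near (Bx BaseRet)
open Pool.Agent.SixB.Rule Pool.Agent.SixB.Dct Pool.Agent.SixB.NM
open Pool.Agent.SixB.StkC (Alt)
open Pool.Agent.PercX60 (Sn eE)
open Pool.Agent.MP_6bd702.H23 (Ed ea eb)
open Pool.Agent.SixB.Tru Pool.Agent.SixB.TruR

variable {E E' : Ex} {ω ω' : Cfg} {b : ℤ × ℤ} {ρ ρ' R R' : ℤ}

/-! ### The data of the exploration -/

theorem oneWall_ext {c : ℤ} {s : ℕ} {z : ℤ × ℤ} {r : ℤ} (hU : E'.U ω' = E.U ω)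
    (hc : E'.cf ω' = E.cf ω) (he : E'.e ω' = E.e ω) :
    E'.OneWall c ω' s z r R ↔ E.OneWall c ω s z r R := by
  unfold Ex.OneWall Ex.Touch
  simp only [Ex.fr_ext hU hc he, Ex.p_ext hc he, hc]

theorem ret_ext (hU : E'.U ω' = E.U ω) (hc : E'.cf ω' = E.cf ω) (he : E'.e ω' = E.e ω) :
    Ret E' ω' b ρ R ↔ Ret E ω b ρ R := by
  unfold Ret
  simp only [Ex.wll_ext hU hc he, Ex.fr_ext hU hc he, Ex.p_ext hc he, hc, he, hU]

theorem baseEv_ext (hU : E'.U ω' = E.U ω) (hc : E'.cf ω' = E.cf ω) (he : E'.e ω' = E.e ω) :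
    BaseEv E' ω' b ρ R ↔ BaseEv E ω b ρ R := by
  unfold BaseEv
  rw [ret_ext hU hc he, oneWall_ext hU hc he, oneWall_ext hU hc he]

theorem BaseEv.mono (hρ : ρ ≤ ρ') (hR : R' ≤ R) (h : BaseEv E ω b ρ R) : BaseEv E ω b ρ' R' :=
  h.shift (s := 0) (by simp) (by simp) (by omega) (by omega)

/-- The rare event at the first unit edge. -/
def BsE (E : Ex) (ω : Cfg) (ρ R : ℤ) : Prop := BaseEv E ω (ua (E.e ω)) ρ R

theorem BsE.mono (hρ : ρ ≤ ρ') (hR : R' ≤ R) (h : BsE E ω ρ R) : BsE E ω ρ' R' :=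
  BaseEv.mono hρ hR h

theorem bsE_iff (hU : E'.U ω' = E.U ω) (hc : E'.cf ω' = E.cf ω) (he : E'.e ω' = E.e ω) :
    BsE E' ω' ρ R ↔ BsE E ω ρ R := by
  unfold BsE
  rw [he, baseEv_ext hU hc he]

theorem bsE_ext : BsExt BsE := fun _ _ _ _ _ hU hc he => bsE_iff hU hc he

/-! ### The event is rare -/

/-- The place of the centre of a return. -/
theorem sd_ret {n : ℕ} {V : Finset (ℤ × ℤ)} (hV : V ⊆ Box n) (hU : E.U ω ⊆ FU V)
    (h : Ret E ω b ρ R) : CountP.sd b 0 ≤ 2 * n + 2 + ρ := by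
  obtain ⟨-, -, μ, σ, -, -, h1, -, h2, h3, -⟩ := h
  have h4 : fa (E.p ω σ) ∈ FU V := hU (h1 h3).1
  have h5 := h2 _ h3 _ (isSide_fa _)
  have h6 : CountP.sd (phiV (ea (eE (fa (E.p ω σ))))) 0 ≤ 2 * n := sd_phiV_le (hV h4.1)
  have h7 : Sq (phiV (ea (eE (fa (E.p ω σ))))) (fa (E.p ω σ)) := sq_phiV.2 (Or.inl rfl)
  have h8 := (GZ.sq_of_side (isSide_fa (E.p ω σ))).1
  rw [CountP.inB_iff, CountP.sd_le_iff] at h5
  rw [CountP.sd_le_iff] at h6 ⊢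
  unfold Sq at h7 h8
  simp only [Prod.fst_zero, Prod.snd_zero] at h6 ⊢
  omega

/-- **The rare events at decided centres** in the steps `j < J` of the scan, uniformly in the rule. -/
theorem base_gen (J N₀ : ℕ) {δ η : ℝ} (hδ : 0 < δ) (hη : 0 < η) :
    ∃ κ : ℝ, 0 < κ ∧ ∃ n₀ : ℕ, ∀ n ≥ n₀, ∀ (h : ℕ) (Ru : Rul) (Cn ρ R : ℤ)
      (b : ℕ → Cfg → ℤ × ℤ), RulOK n h Ru → (∀ j, Adp (expl n Ru j) (b j)) →
      0 ≤ Cn → (Cn : ℝ) ≤ κ * n → 0 ≤ ρ → (ρ : ℝ) ≤ κ * n → δ * n ≤ R →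
      pr (Sn n) {ω | ∃ j < J, Nds n Ru Cn N₀ j ω ∧ BaseEv (exR n Ru j) ω (b j ω) ρ R} ≤ η := by
  obtain ⟨κ₁, hκ₁, T, hT⟩ := CountP.alt_all J N₀ (δ := δ / 2) (η := η / 2) (by positivity)
    (by positivity) 3
  obtain ⟨C₁, α₁, hC₁, hα₁, h1⟩ := pr_ret
  obtain ⟨C₂, α₂, hC₂, hα₂, h2⟩ := pr_one
  obtain ⟨τ, hτ⟩ : ∃ τ : ℝ, τ = η / (4 * (J + 1)) := ⟨_, rfl⟩
  have hτ0 : 0 < τ := by rw [hτ]; positivity
  obtain ⟨x₁, hx1, hx1'⟩ := exists_small (B := ((T + 1 : ℕ) : ℝ) * C₁) (by positivity) hα₁ hτ0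
  obtain ⟨x₂, hx2, hx2'⟩ := exists_small (B := C₂) hC₂.le hα₂ hτ0
  obtain ⟨κ, hκ⟩ : ∃ κ : ℝ, κ = min κ₁ (min (1 / 4) (min (δ / 8) (min (δ * x₁ / 8) (δ * x₂ / 8)))) :=
    ⟨_, rfl⟩
  have hκ0 : 0 < κ := by rw [hκ]; positivity
  have k1 : κ ≤ κ₁ := by rw [hκ]; exact min_le_left _ _
  have k2 : κ ≤ 1 / 4 := by rw [hκ]; exact (min_le_right _ _).trans (min_le_left _ _)
  have k3 : κ ≤ δ / 8 := by
    rw [hκ]; exact (min_le_right _ _).trans ((min_le_right _ _).trans (min_le_left _ _))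
  have k4 : κ ≤ δ * x₁ / 8 := by
    rw [hκ]
    exact (min_le_right _ _).trans ((min_le_right _ _).trans ((min_le_right _ _).trans
      (min_le_left _ _)))
  have k5 : κ ≤ δ * x₂ / 8 := by
    rw [hκ]
    exact (min_le_right _ _).trans ((min_le_right _ _).trans ((min_le_right _ _).trans
      (min_le_right _ _)))
  have e1 : ∀ᶠ n : ℕ in Filter.atTop, 1 ≤ κ * (n : ℝ) :=
    (tendsto_natCast_atTop_atTop.const_mul_atTop hκ0).eventually_ge_atTop 1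
  have e2 : ∀ᶠ n : ℕ in Filter.atTop, 8 ≤ δ * (n : ℝ) :=
    (tendsto_natCast_atTop_atTop.const_mul_atTop hδ).eventually_ge_atTop _
  obtain ⟨n₀, hn₀⟩ := Filter.eventually_atTop.1 (hT.and (e1.and (e2.and
    (Filter.eventually_ge_atTop 8))))
  refine ⟨κ, hκ0, n₀, ?_⟩
  intro n hn h Ru Cn ρ R b hRu hb hCn hCn' hρ hρ' hR
  obtain ⟨hTn, f1, f2, f3⟩ := hn₀ n hn
  have hn0 : (0 : ℝ) ≤ n := by positivity
  have hn8 : (8 : ℝ) ≤ n := by exact_mod_cast f3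
  have g1 : κ * n ≤ κ₁ * n := mul_le_mul_of_nonneg_right k1 hn0
  have g2 : κ * n ≤ 1 / 4 * n := mul_le_mul_of_nonneg_right k2 hn0
  have g3 : κ * n ≤ δ / 8 * n := mul_le_mul_of_nonneg_right k3 hn0
  have g4 : κ * n ≤ δ * x₁ / 8 * n := mul_le_mul_of_nonneg_right k4 hn0
  have g5 : κ * n ≤ δ * x₂ / 8 * n := mul_le_mul_of_nonneg_right k5 hn0
  have hρR : (ρ : ℝ) + δ / 2 * n ≤ R - 1 := by nlinarith
  have hρR' : ρ + 1 ≤ R := by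
    have : (ρ : ℝ) + 1 ≤ R := by nlinarith
    exact_mod_cast this
  have hρ0 : (0 : ℝ) ≤ ρ := by exact_mod_cast hρ
  have hden : δ / 2 * n ≤ R - ρ := by linarith
  have hden0 : (0 : ℝ) < δ / 2 * n := by linarith
  have hRp : (0 : ℝ) < R := by nlinarith
  -- the returns
  have t1 : ((T + 1 : ℕ) : ℝ) * (C₁ * ((2 * (ρ : ℝ) + 1) / (R - ρ)) ^ α₁) ≤ τ := by
    have q1 : (2 * (ρ : ℝ) + 1) / (R - ρ) ≤ x₁ := by
      rw [div_le_iff₀ (by linarith)]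
      have q2 : x₁ * (δ / 2 * n) ≤ x₁ * (R - ρ) := mul_le_mul_of_nonneg_left hden hx1.le
      nlinarith
    have q3 := hx1' _ (div_nonneg (by linarith) (by linarith)) q1
    calc _ = ((T + 1 : ℕ) : ℝ) * C₁ * ((2 * (ρ : ℝ) + 1) / (R - ρ)) ^ α₁ := by ring
      _ ≤ τ := q3
  have t2 : C₂ * ((((ρ + 1 : ℤ) : ℝ)) / R) ^ α₂ ≤ τ := by
    have q1 : (((ρ + 1 : ℤ) : ℝ)) / R ≤ x₂ := by
      rw [div_le_iff₀ hRp]
      push_cast
      have q2 : x₂ * (δ * n) ≤ x₂ * R := mul_le_mul_of_nonneg_left hR hx2.le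
      nlinarith
    exact hx2' _ (div_nonneg (by push_cast; linarith) hRp.le) q1
  have hone : ∀ j ∈ range J, pr (Sn n) {ω | (∃ N, BaseRet (exR n Ru j) N (b j ω) ρ R (T + 1) ω) ∨
      ((exR n Ru j).OneWall 0 ω 0 (b j ω) (ρ + 1) R ∨
        (exR n Ru j).OneWall 1 ω 0 (b j ω) (ρ + 1) R)} ≤ 2 * τ := by
    intro j _
    have a1 := h1 (Sn n) (exR n Ru j) (expl n Ru j) Set.univ (exR_ok hRu j)
      (fun _ _ _ _ => Set.mem_univ _) (fun ω _ => exR_sub hRu j ω)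
      (fun ω _ => exR_disj n Ru j ω) (b j) (hb j) ρ R (T + 1) hρ (by omega)
    have a2 := h2 (Sn n) (exR n Ru j) (expl n Ru j) Set.univ (exR_ok hRu j)
      (fun _ _ _ _ => Set.mem_univ _) (fun ω _ => exR_sub hRu j ω)
      (fun ω _ => exR_disj n Ru j ω) (b j) (hb j) (ρ + 1) R (by omega) (by omega)
    rw [PercT.TubeP.pr_univ, mul_one, Set.univ_inter] at a1 a2
    refine (pr_union_le (Sn n) {ω | ∃ N, BaseRet (exR n Ru j) N (b j ω) ρ R (T + 1) ω}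
      {ω | (exR n Ru j).OneWall 0 ω 0 (b j ω) (ρ + 1) R ∨
        (exR n Ru j).OneWall 1 ω 0 (b j ω) (ρ + 1) R}).trans ?_
    refine (add_le_add (a1.trans t1) (a2.trans t2)).trans (by linarith)
  -- the union
  have hsub : {ω | ∃ j < J, Nds n Ru Cn N₀ j ω ∧ BaseEv (exR n Ru j) ω (b j ω) ρ R} ⊆
      {ω | ∃ j < J, Nds n Ru Cn N₀ j ω ∧ (exR n Ru j).Wll ω ∧
        ∃ (y : ℤ × ℤ) (a b : ℤ) (N : ℕ), (a : ℝ) + δ / 2 * n ≤ b ∧
        (CountP.sd y 0 : ℝ) + a ≤ 3 * n ∧ Nb ((exR n Ru j).cf ω) ((exR n Ru j).e ω) N ∧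
        Alt (fun t => InB y a ((exR n Ru j).p ω t)) (fun t => ¬ InB y b ((exR n Ru j).p ω t)) N T} ∪
      {ω | ∃ j ∈ range J, ω ∈ {ω | (∃ N, BaseRet (exR n Ru j) N (b j ω) ρ R (T + 1) ω) ∨
        ((exR n Ru j).OneWall 0 ω 0 (b j ω) (ρ + 1) R ∨
          (exR n Ru j).OneWall 1 ω 0 (b j ω) (ρ + 1) R)}} := by
    rintro ω ⟨j, hj, hN, hB⟩
    rcases hB with hB | hB
    · have hsd : CountP.sd (b j ω) 0 ≤ 2 * n + 2 + ρ :=
        sd_ret (rem_sub hRu j ω) (show (exR n Ru j).U ω ⊆ FU (rem n Ru j ω) from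
          fun f hf => hf.1) hB
      obtain ⟨N, h3 | ⟨h3, h4, h5⟩⟩ := ret_or hρR' hB T
      · exact Or.inr ⟨j, Finset.mem_range.2 hj, Or.inl ⟨N, h3⟩⟩
      · refine Or.inl ⟨j, hj, hN, h3, b j ω, ρ, R - 1, N, ?_, ?_, h4, h5⟩
        · push_cast
          exact hρR
        · have h6 : ((CountP.sd (b j ω) 0 : ℤ) : ℝ) ≤ 2 * n + 2 + ρ := by exact_mod_cast hsd
          linarith
    · exact Or.inr ⟨j, Finset.mem_range.2 hj, Or.inr hB⟩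
  refine (pr_mono _ hsub).trans ((pr_union_le _ _ _).trans ?_)
  have s1 := hTn h Ru Cn hRu hCn (hCn'.trans g1)
  have s2 := (PercL.pr_biUnion_le (W := Sn n) (range J) (fun j => {ω |
        (∃ N, BaseRet (exR n Ru j) N (b j ω) ρ R (T + 1) ω) ∨
        ((exR n Ru j).OneWall 0 ω 0 (b j ω) (ρ + 1) R ∨
          (exR n Ru j).OneWall 1 ω 0 (b j ω) (ρ + 1) R)})).trans
    (Finset.sum_le_sum hone)
  rw [Finset.sum_const, card_range, nsmul_eq_mul] at s2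
  have s3 : (J : ℝ) * (2 * τ) ≤ η / 2 := by
    have : (2 * (J + 1 : ℝ)) * τ = η / 2 := by rw [hτ]; field_simp; ring
    nlinarith
  linarith

/-- **The event at the first unit edge is rare.** -/
theorem bsE_all : BaseAll BsE := by
  intro J N₀ δ η hδ hη
  obtain ⟨κ, hκ, n₀, h⟩ := base_gen J N₀ hδ hη
  refine ⟨κ, hκ, n₀, fun n hn k Ru C ρ R hRu h1 h2 h3 h4 h5 => ?_⟩
  exact h n hn k Ru C ρ R (fun j ω => ua ((exR n Ru j).e ω)) hRu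
    (fun j => (exR_ok hRu j).e.map ua) h1 h2 h3 h4 h5

/-! ### The event of the stage -/

/-- The event at the base in one of the steps, at the scales of the stage `m`. -/
def ZB (𝔇 : Dat) (c₀ c₁ : ℤ) (N₀ h : ℕ) (d : ℕ → ℕ) (n m : ℕ) : Set Cfg :=
  {ω | ∃ j < 𝔇.m, Nds n (ruleT 𝔇 d n) (c₀ * Sc.ls d n (d m)) N₀ j ω ∧
    BsE (exR n (ruleT 𝔇 d n) j) ω (c₁ * gW d n m) (Sc.ls d n (d (m + 1) + h))}

/-- **The event at the base is rare.** -/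
theorem zB_small (𝔇 : Dat) {c₀ c₁ : ℤ} (hc₀ : 0 ≤ c₀) (hc₁ : 0 ≤ c₁) (N₀ h m e : ℕ) {η : ℝ}
    (hη : 0 < η) : ∃ L : ℕ, ∀ d : ℕ → ℕ, d (m + 1) = e → L ≤ d m → d m ≤ d 0 →
      ∀ᶠ n in atTop, pr (Sn n) (ZB 𝔇 c₀ c₁ N₀ h d n m) ≤ η := by
  obtain ⟨κ, hκ, n₀, hmain⟩ := bsE_all 𝔇.m N₀ (δ := 1 / 2 ^ (e + h + 1)) (by positivity) hη
  have hcR : (0 : ℝ) ≤ c₀ := by exact_mod_cast hc₀
  have hcR1 : (0 : ℝ) ≤ c₁ := by exact_mod_cast hc₁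
  obtain ⟨J, hJ⟩ : ∃ J : ℕ, (8 * (c₁ : ℝ) + c₀) * (1 / 2) ^ J ≤ κ := by
    obtain ⟨J, hJ⟩ := exists_pow_lt_of_lt_one
      (div_pos hκ (show (0 : ℝ) < 8 * c₁ + c₀ + 1 by linarith)) (show (1 / 2 : ℝ) < 1 by norm_num)
    refine ⟨J, ?_⟩
    rw [lt_div_iff₀ (by linarith)] at hJ
    have : (0 : ℝ) < (1 / 2) ^ J := by positivity
    nlinarith
  refine ⟨3 * J + 3 + (e + h), fun d hd hL hd0 => ?_⟩
  filter_upwards [eventually_ge_atTop n₀, eventually_ge_atTop (2 ^ (d 0 + 1))] with n hn hn2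
  have hn0 : (0 : ℝ) ≤ n := Nat.cast_nonneg n
  have hl0 : ∀ a, (0 : ℝ) ≤ Sc.ls d n a := fun a => by exact_mod_cast Sc.ls_nonneg d n a
  have key : ∀ a, J ≤ a → a ≤ d 0 → (8 * (c₁ : ℝ) + c₀) * Sc.ls d n a ≤ κ * n := by
    intro a ha ha0
    have h1 := TruG.ls_le d n ha0
    have h2 : (n : ℝ) / 2 ^ a ≤ n * (1 / 2) ^ J := by
      rw [div_eq_mul_one_div]
      refine mul_le_mul_of_nonneg_left ?_ hn0
      rw [one_div_pow]
      exact one_div_le_one_div_of_le (by positivity) (pow_le_pow_right₀ (by norm_num) ha)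
    calc (8 * (c₁ : ℝ) + c₀) * Sc.ls d n a ≤ (8 * (c₁ : ℝ) + c₀) * (n * (1 / 2) ^ J) :=
          mul_le_mul_of_nonneg_left (h1.trans h2) (by linarith)
      _ = (8 * (c₁ : ℝ) + c₀) * (1 / 2) ^ J * n := by ring
      _ ≤ κ * n := mul_le_mul_of_nonneg_right hJ hn0
  refine hmain n hn (n / 𝔇.K) (ruleT 𝔇 d n) (c₀ * Sc.ls d n (d m)) (c₁ * gW d n m)
    (Sc.ls d n (d (m + 1) + h)) (ruleT_ok 𝔇 d n) (mul_nonneg hc₀ (Sc.ls_nonneg d n _)) ?_ ?_ ?_ ?_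
  · have h1 := key (d m) (by omega) hd0
    push_cast
    have h2 : (0 : ℝ) ≤ 8 * c₁ * Sc.ls d n (d m) := mul_nonneg (by linarith) (hl0 _)
    linarith
  · exact mul_nonneg hc₁ (mul_nonneg (by norm_num) (Sc.ls_nonneg d n _))
  · have h1 := key (Sc.eR (d m) (d (m + 1))) (by unfold Sc.eR; omega) (by unfold Sc.eR; omega)
    unfold gW
    push_cast
    have h2 : (0 : ℝ) ≤ c₀ * Sc.ls d n (Sc.eR (d m) (d (m + 1))) := mul_nonneg hcR (hl0 _)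
    linarith
  · have h1 := TruG.ls_ge d (e := d (m + 1) + h) (by omega) hn2
    rw [hd] at h1 ⊢
    calc 1 / 2 ^ (e + h + 1) * (n : ℝ) = n / 2 ^ (e + h + 1) := by ring
      _ ≤ _ := h1

/-- **The event at the base is rare**, in the form of the row `rare`. -/
theorem smZ_ZB (𝔇 : Dat) {G : ℕ → ℕ → ℕ} (hG : ∀ i e, e ≤ G i e) {c₀ c₁ : ℤ} (hc₀ : 0 ≤ c₀)
    (hc₁ : 0 ≤ c₁) (N₀ h : ℕ) : SmZ G (ZB 𝔇 c₀ c₁ N₀ h) := by
  intro m e η hη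
  obtain ⟨L, hL⟩ := zB_small 𝔇 hc₀ hc₁ N₀ h m e hη
  exact ⟨L, fun d h1 h2 h3 => hL d h1 h2 (TruG.groF_le hG h3 m (by omega))⟩

/-- The union over the stages `l ≤ m`. -/
theorem smZ_ZB_le (𝔇 : Dat) {G : ℕ → ℕ → ℕ} (hG : ∀ i e, e ≤ G i e) {c₀ c₁ : ℤ} (hc₀ : 0 ≤ c₀)
    (hc₁ : 0 ≤ c₁) (N₀ h : ℕ) :
    ∃ G₀ : ℕ → ℕ → ℕ, (∀ i e, G i e ≤ G₀ i e) ∧ ∀ G' : ℕ → ℕ → ℕ, (∀ i e, G₀ i e ≤ G' i e) →
      SmZ G' fun d n m => {ω | ∃ l ≤ m, ω ∈ ZB 𝔇 c₀ c₁ N₀ h d n l} :=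
  TruG.smZ_le hG (smZ_ZB 𝔇 hG hc₀ hc₁ N₀ h)

/-! ### The states -/

section States

variable {𝔇 : Dat} {d : ℕ → ℕ} {n m K : ℕ} {q : Rule.Ndl} {c₀ c₁ : ℤ} {N₀ h : ℕ}

/-- The event at the base of the running strand, at the scales of the stage `l`. -/
theorem mem_ZB {l : ℕ} (hq : (tst 𝔇 d n ω m).q = some q) (hρ : ρ ≤ c₁ * gW d n l)
    (hR : Sc.ls d n (d (l + 1) + h) ≤ R)
    (hNds : ∀ j, cnt 𝔇 d (tst 𝔇 d n ω m) = j + 1 →
      NM.Nds n (ruleT 𝔇 d n) (c₀ * Sc.ls d n (d l)) N₀ j ω)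
    (hB : BsE (exS (tst 𝔇 d n ω m).V q) ω ρ R) : ω ∈ ZB 𝔇 c₀ c₁ N₀ h d n l := by
  obtain ⟨j, hj, hj'⟩ := exists_num hq
  obtain ⟨h1, h2, h3⟩ := run_exS hq hj'
  exact ⟨j, hj, hNds j hj', (bsE_iff h1 h2 h3).2 (hB.mono hρ hR)⟩

/-- **Nothing happens at the base of the running strand**, outside of the event. -/
theorem not_bsE_of (hu : 0 < unt d n) (hc : 0 ≤ c₀) (hd : ∀ i ≤ m, d m ≤ d i)
    (hI : ∀ i ≤ m, HkI c₀ K d n i (tst 𝔇 d n ω i) ω) (hq : (tst 𝔇 d n ω m).q = some q)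
    (hρ : ρ ≤ c₁ * gW d n m) (hR : Sc.ls d n (d (m + 1) + h) ≤ R)
    (hZ : ω ∉ ZB 𝔇 c₀ c₁ 2 h d n m) : ¬ BsE (exS (tst 𝔇 d n ω m).V q) ω ρ R := by
  intro hB
  refine hZ (mem_ZB hq hρ hR (fun j hj => ?_) hB)
  refine nds_of hc hd (fun i hi => (hI i hi).ndI hu) ?_
  have hj' : (𝔇.cs d (tst 𝔇 d n ω m).x).j = j + 1 := hj
  omega

end States

/-! ### The walls of the time `0`, explicit bounds -/

/-- Passages with walls of one colour of the time `0` around decided centres, in the steps `j < J`. -/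
theorem pr_one_all : ∃ C α : ℝ, 0 < C ∧ 0 < α ∧ ∀ (n h : ℕ) (Ru : Rul), RulOK n h Ru →
    ∀ (J : ℕ) (b : ℕ → Cfg → ℤ × ℤ), (∀ j, Adp (expl n Ru j) (b j)) → ∀ r R : ℤ, 0 < r → 0 < R →
    pr (Sn n) {ω | ∃ j < J, (exR n Ru j).OneWall 0 ω 0 (b j ω) r R ∨
      (exR n Ru j).OneWall 1 ω 0 (b j ω) r R} ≤ J * (C * ((r : ℝ) / R) ^ α) := by
  obtain ⟨C, α, hC, hα, h⟩ := pr_one
  refine ⟨C, α, hC, hα, fun n k Ru hRu J b hb r R hr hR => ?_⟩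
  have h1 : ∀ j ∈ range J, pr (Sn n) {ω | (exR n Ru j).OneWall 0 ω 0 (b j ω) r R ∨
      (exR n Ru j).OneWall 1 ω 0 (b j ω) r R} ≤ C * ((r : ℝ) / R) ^ α := by
    intro j _
    have h2 := h (Sn n) (exR n Ru j) (expl n Ru j) Set.univ (exR_ok hRu j)
      (fun _ _ _ _ => Set.mem_univ _) (fun ω _ => exR_sub hRu j ω)
      (fun ω _ => exR_disj n Ru j ω) (b j) (hb j) r R hr hR
    rwa [PercT.TubeP.pr_univ, mul_one, Set.univ_inter] at h2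
  have h2 := (PercL.pr_biUnion_le (W := Sn n) (range J) (fun j => {ω |
    (exR n Ru j).OneWall 0 ω 0 (b j ω) r R ∨ (exR n Ru j).OneWall 1 ω 0 (b j ω) r R})).trans
    (Finset.sum_le_sum h1)
  rw [Finset.sum_const, card_range, nsmul_eq_mul] at h2
  refine (pr_mono _ ?_).trans h2
  rintro ω ⟨j, hj, hω⟩
  exact ⟨j, Finset.mem_range.2 hj, hω⟩

/-- **The walls of the time `0`**: radii `c * ls d n (e + 3 * h)` and `ls d n (e + 2 * h)`, `h` large. -/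
theorem one_scales (J : ℕ) {c : ℤ} (hc : 0 < c) {η : ℝ} (hη : 0 < η) :
    ∃ h₀ : ℕ, ∀ h ≥ h₀, ∀ (n k : ℕ) (Ru : Rul), RulOK n k Ru → ∀ b : ℕ → Cfg → ℤ × ℤ,
      (∀ j, Adp (expl n Ru j) (b j)) → ∀ (d : ℕ → ℕ) (e : ℕ), e + 3 * h ≤ d 0 → 2 ^ d 0 ≤ n →
      pr (Sn n) {ω | ∃ j < J,
        (exR n Ru j).OneWall 0 ω 0 (b j ω) (c * Sc.ls d n (e + 3 * h)) (Sc.ls d n (e + 2 * h)) ∨
        (exR n Ru j).OneWall 1 ω 0 (b j ω) (c * Sc.ls d n (e + 3 * h)) (Sc.ls d n (e + 2 * h))} ≤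
          η := by
  obtain ⟨C, α, hC, hα, h1⟩ := pr_one_all
  obtain ⟨x, hx, hx'⟩ := exists_small (B := (J : ℝ) * C) (by positivity) hα hη
  have hcR : (0 : ℝ) < c := by exact_mod_cast hc
  obtain ⟨h₀, hh₀⟩ := exists_pow_lt_of_lt_one (div_pos hx hcR) (show (1 / 2 : ℝ) < 1 by norm_num)
  refine ⟨h₀, fun h hh n k Ru hRu b hb d e hd hn => ?_⟩
  have hp := Sc.ls_pos hn (e + 3 * h)
  have hp' := Sc.ls_pos hn (e + 2 * h)
  have h2 := h1 n k Ru hRu J b hb (c * Sc.ls d n (e + 3 * h)) (Sc.ls d n (e + 2 * h))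
    (mul_pos hc hp) hp'
  refine h2.trans ?_
  have hpR : (0 : ℝ) < Sc.ls d n (e + 2 * h) := by exact_mod_cast hp'
  have hpR3 : (0 : ℝ) < Sc.ls d n (e + 3 * h) := by exact_mod_cast hp
  have hq : Sc.ls d n (e + 3 * h) * 2 ^ h ≤ Sc.ls d n (e + 2 * h) :=
    Sc.ls_quot n (by omega) hd
  have hqR : (Sc.ls d n (e + 3 * h) : ℝ) * 2 ^ h ≤ Sc.ls d n (e + 2 * h) := by exact_mod_cast hq
  have h3 : (((c * Sc.ls d n (e + 3 * h) : ℤ) : ℝ)) / Sc.ls d n (e + 2 * h) ≤ x := by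
    rw [div_le_iff₀ hpR]
    push_cast
    have h4 : (1 / 2 : ℝ) ^ h ≤ (1 / 2) ^ h₀ := pow_le_pow_of_le_one (by norm_num) (by norm_num) hh
    have h5 : (c : ℝ) * (1 / 2) ^ h ≤ x := by
      rw [lt_div_iff₀ hcR] at hh₀
      nlinarith
    have h6 : (Sc.ls d n (e + 3 * h) : ℝ) = (1 / 2) ^ h * (Sc.ls d n (e + 3 * h) * 2 ^ h) := by
      rw [one_div, inv_pow]
      field_simp
    calc (c : ℝ) * Sc.ls d n (e + 3 * h) = c * (1 / 2) ^ h * (Sc.ls d n (e + 3 * h) * 2 ^ h) := by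
          rw [mul_assoc, ← h6]
      _ ≤ x * Sc.ls d n (e + 2 * h) := mul_le_mul h5 hqR (by positivity) hx.le
  have h4 := hx' _ (div_nonneg (by push_cast; positivity) hpR.le) h3
  calc _ = (J : ℝ) * C * ((((c * Sc.ls d n (e + 3 * h) : ℤ) : ℝ)) / Sc.ls d n (e + 2 * h)) ^ α := by
        ring
    _ ≤ η := h4

end Pool.Agent.SixB.BaseE
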