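import Pool.Agent.Lib.SixB.S8InvM

/-!
# Step 8: the row `rare`, without the moves

* `NumC.unt_pos`: the unit is positive;
* `RareP`: the inputs of the row `rare` without `void` and `mov`, which are theorems; `RareP.rareIn`.
-/

set_option autoImplicit false

namespace Pool.Agent.SixB.Tru

open Filter Finset Topology Pool.Agent.Perc Pool.Agent.PercT Pool.Agent.PercX60 Pool.Agent.PercD
open Pool.Agent.SixB Pool.Agent.SixB.Rule Pool.Agent.SixB.Dct Pool.Agent.SixB.Mv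
open Pool.Agent.SixB.TruR (ts)

variable {C c₀ : ℤ} {K a : ℕ} {J I : InvP} {𝔇 : Dat} {G : ℕ → ℕ → ℕ} {N₁ : (ℕ → ℕ) → ℕ} {Y Z : EvF}
  {d : ℕ → ℕ} {n i m : ℕ} {ω : Cfg}

/-- The unit is positive. -/
theorem NumC.unt_pos (h : NumC G N₁ d n m) (hN : ∀ d, 2 ^ d 0 ≤ N₁ d) : 0 < unt d n :=
  Nat.div_pos ((hN d).trans h.2) (by positivity)

/-- **The remaining inputs of the row `rare`.** -/
structure RareP (C c₀ : ℤ) (K : ℕ) (J : InvP) (𝔇 : Dat) (G : ℕ → ℕ → ℕ) (N₁ : (ℕ → ℕ) → ℕ)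
    (Y Z : EvF) : Prop where
  C9 : 9 ≤ C
  c0 : 0 ≤ c₀
  grow : ∃ k : ℕ, 5 * 8 + 2 * c₀.toNat + 8 + 16 ≤ 2 ^ k ∧ ∀ i e, e + 6 + 3 * (k + 6) ≤ G i e
  grow' : ∃ a : ℕ, 16 * (9 * C + 6) ≤ 2 ^ a ∧ ∀ i e, e + a ≤ G i e
  large : ∀ d, 2 ^ d 0 ≤ N₁ d
  decJ : InvDec J
  smZ : SmZ G Z
  smY : SmY G (BdI (InvA C c₀ K J 𝔇) 𝔇) Y
  /-- a new needle is admissible if the coarse rule places one -/
  plant : ∀ {d n i ω D},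
    GdP (InvA C c₀ K J 𝔇) 𝔇 (NumC G N₁) (YA 𝔇 C Y) (ZA 𝔇 c₀ Z) d n i ω →
    (ts 𝔇 d n ω i).q = none → (𝔇.cs d (ts 𝔇 d n ω i).x).run = none →
    (𝔇.cs d (tst 𝔇 d n ω i).x).run = some D →
    (∃ q, (tst 𝔇 d n ω i).q = some q) ∧ ∀ q, (tst 𝔇 d n ω i).q = some q →
      ∃ (X : Set (ℤ × ℤ)) (z : ℤ × ℤ) (r : ℕ),
        HkOK (unt d n) (Hook.ndL K (d 0)) (tst 𝔇 d n ω i).V q X z r ∧
          (r : ℤ) + 1 ≤ c₀ * Sc.ls d n (d i)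
  /-- the entrance of the strand -/
  ent : ∀ {d n i ω V x q D},
    GdP (InvA C c₀ K J 𝔇) 𝔇 (NumC G N₁) (YA 𝔇 C Y) (ZA 𝔇 c₀ Z) d n (i + 1) ω →
    EntS 𝔇 d n ω i V x q D →
    RunVI C 𝔇 d n (i + 1) (tst 𝔇 d n ω (i + 1)) ω ∧ BasI C 𝔇 d n (i + 1) (tst 𝔇 d n ω (i + 1)) ω
  /-- the further invariant -/
  stJ : ∀ {d n i ω}, GdP (InvA C c₀ K J 𝔇) 𝔇 (NumC G N₁) (YA 𝔇 C Y) (ZA 𝔇 c₀ Z) d n i ω →
    J d n i (tst 𝔇 d n ω i) ω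

theorem RareP.rareIn (H : RareP C c₀ K J 𝔇 G N₁ Y Z) : RareIn C c₀ K J 𝔇 G N₁ Y Z where
  C1 := by
    have := H.C9
    omega
  c0 := H.c0
  grow := H.grow
  large := H.large
  void := voidN 𝔇
  decJ := H.decJ
  smZ := H.smZ
  smY := H.smY
  plant := H.plant
  ent := H.ent
  mov h hM := by
    obtain ⟨a, ha, hg⟩ := H.grow'
    exact h.mov H.C9 ha hg H.large hM
  stJ := H.stJ

end Pool.Agent.SixB.Tru
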