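import Pool.Agent.Lib.SixB.S8ChainA
import Pool.Agent.Lib.SixB.S8Hook
import Pool.Agent.Lib.SixB.S8Uoc

/-!
# Step 8: the next needle is admissible

At a stage without needle and without running domain the coarse rule takes the stored set `W`, erodes the
component of the target `z` (`CSt.erW`) and places a needle in the component `disc` of `z`. If the
component of `z` in `W` is an approximation (`App`) of a set `F₀` of faces which contains the fresh faces,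
and if the magnified set `disc` is fresh, then the true needle is placed as well (`plS_app`).

* `compT_erW`: `disc` is a component of the erosion;
* `pl_spec`: the coarse rule;
* `app_disc`: `App (FU V) (blow u disc)`;
* `ScN`: the relations between the unit, the number of cells of the needle and the error of `App`;
  `scN_of`: they follow from the relations between the exponents.
-/

set_option autoImplicit false

namespace Pool.Agent.SixB.Tru

open Pool.Agent.Perc Pool.Agent.PercU Pool.Agent.PercT Pool.Agent.PercX60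
open Pool.Agent.SixB Pool.Agent.SixB.Rule Pool.Agent.SixB.Dct Pool.Agent.SixB.Mv
open Pool.Agent.SixB.Top Pool.Agent.SixB.EndApp
open Pool.Agent.SixB.Ndle (ndF ndA ndB)

/-! ### The eroded component -/

section Erode

variable {W : Set (ℤ × ℤ)} {L : ℤ} {z : ℤ × ℤ}

theorem mem_of_erW (h : z ∈ CSt.erW W L z) : z ∈ er3 (gc 0 0 L) (compT W z) ∧ z ∈ W := by
  rcases h with ⟨-, h⟩ | h
  · exact absurd (ChI.refl z) h
  · exact h

/-- **The component of the target in the eroded set.** -/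
theorem compT_erW (h : z ∈ CSt.erW W L z) :
    compT (CSt.erW W L z) z = compT (er3 (gc 0 0 L) (compT W z)) z := by
  obtain ⟨h1, h2⟩ := mem_of_erW h
  have h3 : compT W z ⊆ W := compT_sub h2
  have h4 : er3 (gc 0 0 L) (compT W z) ∩ W = er3 (gc 0 0 L) (compT W z) :=
    Set.inter_eq_left.2 (er3_subset.trans h3)
  have h5 : Sep (W \ compT W z) (er3 (gc 0 0 L) (compT W z)) :=
    ((uoc_compT h2).sep.symm).mono Set.Subset.rfl er3_subset
  unfold CSt.erW
  rw [h4]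
  exact h5.compT_right h1

/-- The coarse rule for the next needle. -/
theorem pl_spec {σ : CSt} {π : Prm} {M : ℤ} {ρ : Rec} (h : σ.run = none)
    (h' : (σ.mv π L M ρ).run.isSome = true) :
    (σ.j < π.m ∧ π.zt σ.j ∈ CSt.erW σ.W L (π.zt σ.j) ∧
      π.act (compT (CSt.erW σ.W L (π.zt σ.j)) (π.zt σ.j)) (π.zt σ.j) ∧
      (CSt.dom₀ π (compT (CSt.erW σ.W L (π.zt σ.j)) (π.zt σ.j)) (π.zt σ.j)).Ok) ∧
    σ.mv π L M ρ = ⟨CSt.erW σ.W L (π.zt σ.j) \
        (π.ndl (compT (CSt.erW σ.W L (π.zt σ.j)) (π.zt σ.j)) (π.zt σ.j) ∪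
          (CSt.dom₀ π (compT (CSt.erW σ.W L (π.zt σ.j)) (π.zt σ.j)) (π.zt σ.j)).P),
      some (CSt.dom₀ π (compT (CSt.erW σ.W L (π.zt σ.j)) (π.zt σ.j)) (π.zt σ.j)),
      σ.j + 1, true⟩ := by
  classical
  unfold CSt.mv at h' ⊢
  simp only [h] at h' ⊢
  split_ifs at h' with h1
  · exact ⟨h1, by rw [if_pos h1]⟩
  · cases h'

end Erode

/-! ### The approximation after the erosion -/

section AppD

variable {ι : Type*} {F₀ F W : Set (ℤ × ℤ)} {κ : ℤ × ℤ → ι} {d₀ L : ℤ} {u : ℕ} {z : ℤ × ℤ}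

/-- **The eroded disc is an approximation of the fresh faces.** -/
theorem app_disc (hu : 0 < u) (hL : 0 < L) (hA : App F₀ (blow u (compT W z)) κ d₀) (hF : F ⊆ F₀)
    (hz : z ∈ CSt.erW W L z) (hfr : blow u (compT (CSt.erW W L z) z) ⊆ F) :
    ∃ κ' : ℤ × ℤ → Set (ℤ × ℤ),
      App F (blow u (compT (CSt.erW W L z) z)) κ' (d₀ + 6 * (u * L) + 6) := by
  have hu' : (0 : ℤ) < u := by exact_mod_cast hu
  have huL : (0 : ℤ) < u * L := by positivity
  obtain ⟨h1, h2⟩ := mem_of_erW hz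
  rw [compT_erW hz] at hfr ⊢
  have e1 : er3 (gc (u * 0) (u * 0) (u * L)) (blow u (compT W z)) =
      blow u (er3 (gc 0 0 L) (compT W z)) := er3_blow hu hL
  refine App.erodeC (c := gc (u * 0) (u * 0) (u * L)) (D := u * L) hA
    (fun x y h => gc_chn huL h) (fun x y h => gc_diam huL h) hF ?_ hfr ?_ ?_
  · rw [e1]
    exact Blow.blow_subset (compT_sub h1)
  · intro x y hxy hx
    have h3 : gc 0 0 L (Blow.cl u x) = gc 0 0 L (Blow.cl u y) := by
      rw [← Blow.gc_cl hu, ← Blow.gc_cl hu]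
      exact hxy
    exact compT_er3_sat hL h1 _ _ h3 hx
  · intro f hf g hg hfg
    rw [e1] at hg
    exact ((uoc_compT h1).blow hu').clo f hf g hg (adj_iff_adjFL.1 hfg)

end AppD

/-! ### Scales -/

/-- The relations between the unit `u`, the number `l` of the cells of the needle, the size `h` of the
needles of the scan and the error `D` of the approximation. -/
structure ScN (u l h : ℕ) (D : ℤ) : Prop where
  u_pos : 0 < u
  l_pos : 1 ≤ l
  err : D ≤ u * (l + 1)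
  size : 2 * (u * ((l : ℤ) + 1)) + 1 ≤ 3 * h

/-- The size of the true needles: `u = n / 2 ^ e` and `l = 2 ^ e / K`. -/
theorem scN_of {n e K : ℕ} {D : ℤ} (hn : 2 ^ e ≤ n) (hK : 0 < K) (hl : 4 ≤ Hook.ndL K e)
    (hD : D ≤ (n / 2 ^ e : ℕ) * ((Hook.ndL K e : ℤ) + 1)) :
    ScN (n / 2 ^ e) (Hook.ndL K e) (n / K) D := by
  have hu : 0 < n / 2 ^ e := Nat.div_pos hn (by positivity)
  refine ⟨hu, by omega, hD, ?_⟩
  have h1 : n / 2 ^ e * Hook.ndL K e ≤ n / K := by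
    rw [Nat.le_div_iff_mul_le hK]
    have h2 : Hook.ndL K e * K ≤ 2 ^ e := Nat.div_mul_le_self _ _
    calc n / 2 ^ e * Hook.ndL K e * K = n / 2 ^ e * (Hook.ndL K e * K) := by ring
      _ ≤ n / 2 ^ e * 2 ^ e := Nat.mul_le_mul_left _ h2
      _ ≤ n := Nat.div_mul_le_self _ _
  generalize hw : n / 2 ^ e = w at *
  generalize hv : Hook.ndL K e = l at *
  generalize hx : n / K = h at *
  have h3 : (w : ℤ) * l ≤ h := by exact_mod_cast h1
  have h4 : (4 : ℤ) ≤ l := by exact_mod_cast hl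
  have h5 : (1 : ℤ) ≤ w := by exact_mod_cast hu
  nlinarith

/-! ### The needle is placed -/

section Place

variable {𝔇 : Dat} {d : ℕ → ℕ} {n : ℕ} {s : TS} {ι : Type*} {F₀ : Set (ℤ × ℤ)} {κ : ℤ × ℤ → ι}
  {d₀ : ℤ}

/-- The needles of the data are the true needles of `S8Hook`. -/
structure Dat.HkD (𝔇 : Dat) : Prop where
  act : 𝔇.act = fun e => Hook.act (Hook.ndL 𝔇.K e)
  hook : 𝔇.hook = fun n d V C z => Hook.hookU (unt d n) (Hook.ndL 𝔇.K (d 0)) V C z

/-- What is true at the stage at which the coarse rule places a needle. -/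
structure Plc (𝔇 : Dat) (d : ℕ → ℕ) (n : ℕ) (V : Finset (ℤ × ℤ)) (C : Set (ℤ × ℤ)) (z : ℤ × ℤ)
    (D : ℤ) : Prop where
  fin : C.Finite
  len : 3 * Hook.ndL 𝔇.K (d 0) ≤ Ndle.dlt (Hook.fin C) z
  app : ∃ κ' : ℤ × ℤ → Set (ℤ × ℤ), App (FU V) (blow (unt d n) C) κ' D
  pre : Hook.Pre V (blow (unt d n) C) (ndF (unt d n) (Hook.fin C) z (Hook.ndL 𝔇.K (d 0)))
    (ndA (unt d n) (Hook.fin C) z) (ndB (unt d n) (Hook.fin C) z) (D - 1).toNat
  ndl : IsNdl (n / 𝔇.K) V (Hook.hookU (unt d n) (Hook.ndL 𝔇.K (d 0)) V C z)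
  ndF : ∃ k, NdF V (Hook.hookU (unt d n) (Hook.ndL 𝔇.K (d 0)) V C z).1 k ∧
    vtx k = (Hook.hookU (unt d n) (Hook.ndL 𝔇.K (d 0)) V C z).2 ∧
    phiE (qryb k) = Hook.hkE (FU V) (blow (unt d n) C) (ndB (unt d n) (Hook.fin C) z)

/-- The needle in a disc which is an approximation of the fresh faces. -/
theorem plcN_of {C : Set (ℤ × ℤ)} {z : ℤ × ℤ} {V : Finset (ℤ × ℤ)} {D : ℤ}
    (hS : ScN (unt d n) (Hook.ndL 𝔇.K (d 0)) (n / 𝔇.K) D)
    (hA : Hook.act (Hook.ndL 𝔇.K (d 0)) C z)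
    (hP : ∃ κ' : ℤ × ℤ → Set (ℤ × ℤ), App (FU V) (blow (unt d n) C) κ' D) :
    Plc 𝔇 d n V C z D := by
  obtain ⟨hC, h3⟩ := hA
  obtain ⟨κ', hApp⟩ := hP
  have hu' : (0 : ℤ) < unt d n := by exact_mod_cast hS.u_pos
  have hL : Hook.ndL 𝔇.K (d 0) ≤ Ndle.dlt (Hook.fin C) z := by omega
  have hpre := Hook.pre_of_app (V := V) (z := z) hC hu' hL hS.l_pos hApp Set.Subset.rfl
    (fun _ _ _ _ h => h)
  have hD : 0 < D := hApp.d_pos
  have hok := Hook.hookU_ok (h := n / 𝔇.K) hu' hL hpre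
    (by have := hS.err; rw [Int.toNat_of_nonneg (by omega)]; omega)
    (by have := hS.size; push_cast at this ⊢; exact this)
  exact ⟨hC, h3, ⟨κ', hApp⟩, hpre, hok.1, hok.2⟩

/-- **If the coarse rule places a needle, the true needle is placed.** -/
theorem plS_app (hd : 𝔇.HkD) (hr : (𝔇.cs d s.x).run = none)
    (hr' : (𝔇.cs d ((∅, 0) :: s.x)).run.isSome = true)
    (hA : App F₀ (blow (unt d n) (compT (𝔇.cs d s.x).W (𝔇.zt (d 0) (𝔇.cs d s.x).j))) κ d₀)
    (hF : FU s.V ⊆ F₀) (hfr : blow (unt d n) (𝔇.disc d s.x) ⊆ FU s.V)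
    (hS : ScN (unt d n) (Hook.ndL 𝔇.K (d 0)) (n / 𝔇.K)
      (d₀ + 6 * (unt d n * msh d s.x.length) + 6)) :
    (plS 𝔇 d n s).q = some (nxQ 𝔇 d n s) ∧
      nxQ 𝔇 d n s = Hook.hookU (unt d n) (Hook.ndL 𝔇.K (d 0)) s.V (𝔇.disc d s.x)
        (𝔇.zt (d 0) (𝔇.cs d s.x).j) ∧
      Plc 𝔇 d n s.V (𝔇.disc d s.x) (𝔇.zt (d 0) (𝔇.cs d s.x).j)
        (d₀ + 6 * (unt d n * msh d s.x.length) + 6) := by
  classical
  have h1 := (pl_spec (σ := 𝔇.cs d s.x) (π := 𝔇.prm d) (L := msh d s.x.length)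
    (M := msz 𝔇.kap d s.x.length) (ρ := (∅, 0)) hr (by rw [← 𝔇.cs_cons]; exact hr')).1
  obtain ⟨-, hz, hact, -⟩ := h1
  have hz' : 𝔇.zt (d 0) (𝔇.cs d s.x).j ∈
      CSt.erW (𝔇.cs d s.x).W (msh d s.x.length) (𝔇.zt (d 0) (𝔇.cs d s.x).j) := hz
  have hact' : Hook.act (Hook.ndL 𝔇.K (d 0)) (𝔇.disc d s.x) (𝔇.zt (d 0) (𝔇.cs d s.x).j) := by
    have h2 : 𝔇.act (d 0) (𝔇.disc d s.x) (𝔇.zt (d 0) (𝔇.cs d s.x).j) := hact
    rw [hd.act] at h2
    exact h2
  have happ := app_disc (u := unt d n) hS.u_pos (msh_pos d s.x.length) hA hF hz' hfr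
  have hP := plcN_of (𝔇 := 𝔇) (d := d) (n := n) (V := s.V) (C := 𝔇.disc d s.x) hS hact' happ
  have hq : nxQ 𝔇 d n s = Hook.hookU (unt d n) (Hook.ndL 𝔇.K (d 0)) s.V (𝔇.disc d s.x)
      (𝔇.zt (d 0) (𝔇.cs d s.x).j) := by
    unfold nxQ
    rw [hd.hook]
  refine ⟨?_, hq, hP⟩
  unfold plS
  simp only
  rw [if_pos]
  refine ⟨hr', ?_, ?_⟩
  · rw [hq]
    exact hP.ndl
  · rw [hq]
    obtain ⟨k, h3, h4, -⟩ := hP.ndF
    exact ⟨k, h3, h4⟩

end Place

end Pool.Agent.SixB.Tru
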