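import Pool.Agent.Lib.SixB.S8RareO

/-!
# Step 8: the row `rare`, final form

Official data `datC K kap`, official invariant `IC K kap C`, official numbers `N1`.

* `YK 𝔇`: a needle is placed by the coarse rule in the next stage, and its disc is not fresh;
* `kept_of`: outside of `YK` the disc is fresh;
* `EntIn`: the entrance of the strand (START);
* `rowRare_datC`: **the row `rare`** from `SmY` for `YK` and `EntIn`.
-/

set_option autoImplicit false

namespace Pool.Agent.SixB.Tru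

open Filter Finset Topology Pool.Agent.Perc Pool.Agent.PercT Pool.Agent.PercX60 Pool.Agent.PercD
open Pool.Agent.SixB Pool.Agent.SixB.Rule Pool.Agent.SixB.Dct Pool.Agent.SixB.Mv
open Pool.Agent.SixB.TruR (ts)

/-- **The invariant of the chain**, official data. -/
def IC (K kap : ℕ) (C : ℤ) : InvP := InvA C 13 K (JI C (Cov.datC K kap)) (Cov.datC K kap)

/-- The numbers `n`. -/
def N1 (d : ℕ → ℕ) : ℕ := 2 ^ d 0 * (2 * 2 ^ d 0 + 3)

/-- **The coarse rule places a needle in the next stage, and its disc is not fresh.** -/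
def YK (𝔇 : Dat) : EvF := fun d n l => {ω | (tst 𝔇 d n ω l).q = none ∧
  (𝔇.cs d (tst 𝔇 d n ω l).x).Plant (𝔇.prm d) (msh d (tst 𝔇 d n ω l).x.length) ∧
  ¬ blow (unt d n : ℤ) (𝔇.disc d (tst 𝔇 d n ω l).x) ⊆ FU (tst 𝔇 d n ω l).V}

variable {K kap : ℕ} {C : ℤ} {G : ℕ → ℕ → ℕ} {Y Z : EvF} {d : ℕ → ℕ} {n i : ℕ} {ω : Cfg}

theorem iC_dec : InvDec (IC K kap C) := invA_dec (jI_dec C _)

/-- Everything which is known at the stage `i`. -/
abbrev GdC (K kap : ℕ) (C : ℤ) (G : ℕ → ℕ → ℕ) (Y Z : EvF) (d : ℕ → ℕ) (n i : ℕ) (ω : Cfg) : Prop :=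
  GdP (IC K kap C) (Cov.datC K kap) (NumC G N1) (YA (Cov.datC K kap) C Y)
    (ZA (Cov.datC K kap) 13 Z) d n i ω

/-- **The disc of a new needle is fresh** outside of `YK`. -/
theorem kept_of (hY : ∀ d n l ω, ω ∈ YK (Cov.datC K kap) d n l → ω ∈ Y d n l)
    (h : GdC K kap C G Y Z d n i ω) (hq : (ts (Cov.datC K kap) d n ω i).q = none)
    (hp : ((Cov.datC K kap).cs d (ts (Cov.datC K kap) d n ω i).x).Plant ((Cov.datC K kap).prm d)
      (msh d (ts (Cov.datC K kap) d n ω i).x.length)) :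
    blow (unt d n : ℤ) ((Cov.datC K kap).disc d (ts (Cov.datC K kap) d n ω i).x) ⊆
      FU (ts (Cov.datC K kap) d n ω i).V := by
  cases i with
  | zero => exact absurd hp not_plant_zero
  | succ k =>
    by_contra hn
    exact h.y k (Nat.lt_succ_self k) (Or.inr (hY _ _ _ _ ⟨hq, hp, hn⟩))

/-- The same at an entrance stage. -/
theorem kept_ent {V : Finset (ℤ × ℤ)} {x : List Rec} {q : Rule.Ndl} {D : Dom}
    (hY : ∀ d n l ω, ω ∈ YK (Cov.datC K kap) d n l → ω ∈ Y d n l)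
    (h : GdC K kap C G Y Z d n (i + 1) ω) (hE : EntS (Cov.datC K kap) d n ω i V x q D) :
    blow (unt d n : ℤ) ((Cov.datC K kap).disc d x) ⊆ FU V := by
  have hp : ((Cov.datC K kap).cs d (ts (Cov.datC K kap) d n ω i).x).Plant ((Cov.datC K kap).prm d)
      (msh d (ts (Cov.datC K kap) d n ω i).x.length) := by
    refine plant_of_run (D := D) hE.q0 (by rw [hE.x0]; exact hE.run0) ?_
    rw [hE.st]
    have h1 := hE.co
    change ((Cov.datC K kap).cs d ((∅, 0) :: x)).run = some D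
    rw [h1]
  rw [← hE.V0, ← hE.x0]
  cases i with
  | zero => exact absurd hp not_plant_zero
  | succ k =>
    by_contra hn
    exact h.y k (by omega) (Or.inr (hY _ _ _ _ ⟨hE.q0, hp, hn⟩))

/-- **The entrance of the strand** (START). -/
def EntIn (K kap : ℕ) (C : ℤ) (G : ℕ → ℕ → ℕ) (Y Z : EvF) : Prop :=
  ∀ {d n i ω V x q D}, GdC K kap C G Y Z d n (i + 1) ω →
    blow (unt d n : ℤ) ((Cov.datC K kap).disc d x) ⊆ FU V →
    EntS (Cov.datC K kap) d n ω i V x q D →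
    RunVI C (Cov.datC K kap) d n (i + 1) (tst (Cov.datC K kap) d n ω (i + 1)) ω ∧
      BasI C (Cov.datC K kap) d n (i + 1) (tst (Cov.datC K kap) d n ω (i + 1)) ω ∧
      NbI C (Cov.datC K kap) d n (i + 1) (tst (Cov.datC K kap) d n ω (i + 1)) ω

/-- The inputs of the row `rare`. -/
theorem rareQ_of (hC : 256 ≤ C) (hK : 0 < K) {a : ℕ} (ha : 16 * (9 * C + 6) ≤ 2 ^ a)
    (haK : 512 * K ≤ 2 ^ a) (ha45 : 45 ≤ a) (hG : ∀ i e, e + a ≤ G i e)
    (hYK : ∀ d n l ω, ω ∈ YK (Cov.datC K kap) d n l → ω ∈ Y d n l)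
    (hZ : SmZ G Z) (hY : SmY G (BdI (IC K kap C) (Cov.datC K kap)) Y)
    (hE : EntIn K kap C G Y Z) : RareQ K kap C G N1 Y Z where
  C256 := hC
  K0 := hK
  grow := ⟨a, ha, haK, ha45, hG⟩
  large _ := le_rfl
  smZ := hZ
  smY := hY
  kept h hq hp := kept_of hYK h hq hp
  ent h hE' := hE h (kept_ent hYK h hE') hE'

/-- **The row `rare`.** -/
theorem rowRare_datC (hC : 256 ≤ C) (hK : 0 < K) {a : ℕ} (ha : 16 * (9 * C + 6) ≤ 2 ^ a)
    (haK : 512 * K ≤ 2 ^ a) (ha45 : 45 ≤ a) (hG : ∀ i e, e + a ≤ G i e)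
    (hYK : ∀ d n l ω, ω ∈ YK (Cov.datC K kap) d n l → ω ∈ Y d n l)
    (hZ : SmZ G Z) (hY : SmY G (BdI (IC K kap C) (Cov.datC K kap)) Y)
    (hE : EntIn K kap C G Y Z) : ∃ G' : ℕ → ℕ → ℕ, (∀ i e, G i e ≤ G' i e) ∧
      ∀ G'' : ℕ → ℕ → ℕ, (∀ i e, G' i e ≤ G'' i e) →
        RowRare (Cov.datC K kap) G'' (BdI (IC K kap C) (Cov.datC K kap)) :=
  (rareQ_of hC hK ha haK ha45 hG hYK hZ hY hE).rareP.rareIn.rowRare

/-- The inputs of the row `law`. -/
theorem lawInv_datC (hC : 256 ≤ C) : LawInv C (Cov.datC K kap) (IC K kap C) :=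
  lawInv_of (by omega) (voidN _)

/-- The row `est`. -/
theorem rowEst_datC (hC : 256 ≤ C) (hG : ∀ i e, e < G i e) :
    RowEst (Cov.datC K kap) G (BdI (IC K kap C) (Cov.datC K kap)) :=
  (lawInv_datC hC).rowEst hG

end Pool.Agent.SixB.Tru
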