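import Pool.Agent.Lib.SixB.S8RareP
import Pool.Agent.Lib.SixB.S8RareG2

/-!
# Step 8: the row `rare`, unions of transition events over the stages

* `smY_le`: if the transition event `Y` is rare then the union of the events `Y d n l`, `l ≤ m`, is rare
  for a larger growth function;
* `smY_dead_le`: the dead stops of all the stages `≤ m`.
-/

set_option autoImplicit false

namespace Pool.Agent.SixB.Tru

open Filter Finset Topology Pool.Agent.Perc Pool.Agent.PercT Pool.Agent.PercX60 Pool.Agent.PercD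
open Pool.Agent.SixB Pool.Agent.SixB.Rule Pool.Agent.SixB.Dct Pool.Agent.SixB.Mv
open Pool.Agent.SixB.TruG (groF_anti)

/-- **The union of a rare transition event over the stages `l ≤ m`.** -/
theorem smY_le {G : ℕ → ℕ → ℕ} {Bd Y : EvF} (hG : ∀ i e, e ≤ G i e) (h : SmY G Bd Y) :
    ∃ G₀ : ℕ → ℕ → ℕ, (∀ i e, G i e ≤ G₀ i e) ∧ ∀ G' : ℕ → ℕ → ℕ, (∀ i e, G₀ i e ≤ G' i e) →
      SmY G' Bd fun d n m => {ω | ∃ l ≤ m, ω ∈ Y d n l} := by
  classical
  choose L hL using h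
  refine ⟨fun i e => max (G i e) (L i e (epsR e) (epsR_pos e)), fun i e => le_max_left _ _, ?_⟩
  intro G' hG' m e η hη
  have g0 : ∀ i e, G i e ≤ G' i e := fun i e => (le_max_left _ _).trans (hG' i e)
  have g1 : ∀ i e, L i e (epsR e) (epsR_pos e) ≤ G' i e :=
    fun i e => (le_max_right _ _).trans (hG' i e)
  obtain ⟨k₀, hk₀⟩ : ∃ k₀ : ℕ, (m : ℝ) * epsR k₀ ≤ η / 2 := by
    obtain ⟨k₀, hk₀⟩ := exists_pow_lt_of_lt_one (show (0 : ℝ) < η / 2 / (m + 1) by positivity)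
      (show (1 / 2 : ℝ) < 1 by norm_num)
    refine ⟨k₀, ?_⟩
    rw [lt_div_iff₀ (by positivity)] at hk₀
    have h1 := epsR_pos k₀
    unfold epsR at h1 ⊢
    nlinarith
  refine ⟨max (L m e (η / 2) (by positivity)) k₀, fun d hd hdm hg => ?_⟩
  have e1 := hL m e (η / 2) (by positivity) d hd ((le_max_left _ _).trans hdm) (hg.mono g0)
  have hk : k₀ ≤ d m := (le_max_right _ _).trans hdm
  have e2 : ∀ᶠ n in atTop, ∀ l ∈ range m,
      pr (Sn n) (Y d n l ∩ {ω | ∀ i ≤ l, ω ∉ Bd d n i}) ≤ epsR k₀ := by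
    rw [eventually_all_finset]
    intro l hl
    rw [mem_range] at hl
    have h1 := hL l (d (l + 1)) (epsR (d (l + 1))) (epsR_pos _) d rfl
      ((g1 _ _).trans (hg l (by omega))) ((hg.mono g0).le (by omega))
    filter_upwards [h1] with n hn
    exact hn.trans (epsR_anti (hk.trans (groF_anti hG (hg.mono g0) (by omega) (by omega))))
  filter_upwards [e1, e2] with n h1 h2
  have h3 : {ω | ∃ l ≤ m, ω ∈ Y d n l} ∩ {ω | ∀ i ≤ m, ω ∉ Bd d n i} ⊆
      (Y d n m ∩ {ω | ∀ i ≤ m, ω ∉ Bd d n i}) ∪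
        {ω | ∃ l < m, ω ∈ Y d n l ∩ {ω | ∀ i ≤ l, ω ∉ Bd d n i}} := by
    rintro ω ⟨⟨l, hl, hω⟩, hb⟩
    rcases hl.lt_or_eq with h4 | rfl
    · exact Or.inr ⟨l, h4, hω, fun i hi => hb i (by omega)⟩
    · exact Or.inl ⟨hω, hb⟩
  have h4 := pr_biUnion_le (Sn n) (fun l => Y d n l ∩ {ω | ∀ i ≤ l, ω ∉ Bd d n i})
    (fun _ => epsR k₀) m fun l hl => h2 l (mem_range.2 hl)
  rw [sum_const, card_range, nsmul_eq_mul] at h4
  refine ((pr_mono _ h3).trans (pr_union_le _ _ _)).trans ?_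
  linarith

/-- A larger growth function, larger bad events do not matter: monotonicity in the event. -/
theorem smY_mono_ev {G : ℕ → ℕ → ℕ} {Bd Y Y' : EvF} (h : SmY G Bd Y)
    (hs : ∀ d n l, Y' d n l ⊆ Y d n l) : SmY G Bd Y' := h.sub fun d n l _ hω _ => hs d n l hω

/-- **The dead stops of the stages `≤ m` are rare.** -/
theorem smY_dead_le {K kap : ℕ} {C : ℤ} {G : ℕ → ℕ → ℕ} (hC : 256 ≤ C)
    (hG : ∀ i e, e < G i e) :
    ∃ G₀ : ℕ → ℕ → ℕ, (∀ i e, G i e ≤ G₀ i e) ∧ ∀ G' : ℕ → ℕ → ℕ, (∀ i e, G₀ i e ≤ G' i e) →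
      SmY G' (BdI (IC K kap C) (Cov.datC K kap))
        fun d n m => {ω | ∃ l ≤ m, ω ∈ Dead C (Cov.datC K kap) d n l} :=
  smY_le (fun i e => (hG i e).le)
    ((lawInv_datC hC).smY_dead iC_dec hG (rowTst _) (rowGrow _))

end Pool.Agent.SixB.Tru
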