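import Pool.Agent.Lib.SixB.S8RareW

/-!
# Step 8: the wall half of the transition event of `kept`

* `owa_pow`: if `2 ^ h * r ≤ 4 * R` then the probability of `OWa 𝔇 b d n m r R` is at most
  `C (m + 1) (1 / 2) ^ (α h)`, with constants which do not depend on anything;
* `OY 𝔇 b h`: two nested pairs of radii, `ls (e + 3 h)` and `ls (e + 2 h + 2)`, resp. `ls (e + 2 h)` and
  `ls (e + h)`, where `e = d (m + 1)`; `oy_bound`: the hypothesis `hO` of `TruY.smY_of_h`.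
-/

set_option autoImplicit false

namespace Pool.Agent.SixB.TruW

open Filter Topology Finset Pool.Agent.Perc Pool.Agent.PercT Pool.Agent.PercX60
open Pool.Agent.SixB Pool.Agent.SixB.Rule Pool.Agent.SixB.Dct Pool.Agent.SixB.Mv
open Pool.Agent.SixB.Tru

/-- The bound with explicit powers. -/
theorem owa_pow : ∃ C α : ℝ, 1 ≤ C ∧ 0 < α ∧ (4 : ℝ) ^ α ≤ C ∧ ∀ (𝔇 : Dat)
    (b : TS → Rule.Ndl → ℤ × ℤ) (d : ℕ → ℕ) (n m h : ℕ) (r R : ℤ), 0 < r → 2 ^ h * r ≤ 4 * R →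
    pr (Sn n) (OWa 𝔇 b d n m r R) ≤ C * (m + 1) * (1 / 2 : ℝ) ^ (α * h) := by
  obtain ⟨C, α, hC, hα, hmain⟩ := pr_ows
  have h4 : (1 : ℝ) ≤ 4 ^ α := Real.one_le_rpow (by norm_num) hα.le
  refine ⟨2 * C * 4 ^ α, α, by nlinarith, hα, by nlinarith, fun 𝔇 b d n m h r R hr hR => ?_⟩
  have hp : (0 : ℤ) < 2 ^ h := by positivity
  have hR0 : 0 < R := by
    have := mul_pos hp hr
    omega
  have hr' : (0 : ℝ) < r := by exact_mod_cast hr
  have hR' : (0 : ℝ) < R := by exact_mod_cast hR0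
  have hp' : (0 : ℝ) < 2 ^ h := by positivity
  have h1 : (r : ℝ) / R ≤ 4 * (1 / 2) ^ h := by
    have h2 : (2 : ℝ) ^ h * r ≤ 4 * R := by exact_mod_cast hR
    rw [div_le_iff₀ hR', one_div_pow, mul_one_div, div_mul_eq_mul_div, le_div_iff₀ hp']
    linarith
  have h2 : ((r : ℝ) / R) ^ α ≤ 4 ^ α * (1 / 2 : ℝ) ^ (α * h) := by
    refine (Real.rpow_le_rpow (by positivity) h1 hα.le).trans ?_
    rw [Real.mul_rpow (by norm_num) (by positivity), ← Real.rpow_natCast, ← Real.rpow_mul (by norm_num),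
      mul_comm (h : ℝ) α]
  have h3 := pr_biUnion_le (Sn n) (fun i => OWs 𝔇 b d n i r R ∪ OWm 𝔇 b d n i r R)
    (fun _ => 2 * C * ((r : ℝ) / R) ^ α) (m + 1) fun i _ => by
      have h3 := hmain 𝔇 b d n i r R hr hR0
      have h4 := pr_union_le (Sn n) (OWs 𝔇 b d n i r R) (OWm 𝔇 b d n i r R)
      linarith [h3.1, h3.2]
  rw [sum_const, card_range, nsmul_eq_mul] at h3
  refine h3.trans ?_
  push_cast
  have h5 : (0 : ℝ) ≤ ((m : ℝ) + 1) * (2 * C) := by positivity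
  calc ((m : ℝ) + 1) * (2 * C * ((r : ℝ) / R) ^ α)
      = ((m : ℝ) + 1) * (2 * C) * ((r : ℝ) / R) ^ α := by ring
    _ ≤ ((m : ℝ) + 1) * (2 * C) * (4 ^ α * (1 / 2 : ℝ) ^ (α * h)) :=
        mul_le_mul_of_nonneg_left h2 h5
    _ = 2 * C * 4 ^ α * (m + 1) * (1 / 2 : ℝ) ^ (α * h) := by ring

/-- The two nested pairs of radii, after the times of the stages `≤ m`. -/
def OY (𝔇 : Dat) (b : TS → Rule.Ndl → ℤ × ℤ) (h : ℕ) : EvF := fun d n m =>
  OWa 𝔇 b d n m (Sc.ls d n (d (m + 1) + 3 * h)) (Sc.ls d n (d (m + 1) + 2 * h + 2)) ∪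
    OWa 𝔇 b d n m (Sc.ls d n (d (m + 1) + 2 * h)) (Sc.ls d n (d (m + 1) + h))

theorem le_zero_of_groF {G : ℕ → ℕ → ℕ} (hG : ∀ i e, e ≤ G i e) {m : ℕ} {d : ℕ → ℕ}
    (h : GroF G (m + 1) d) : d m ≤ d 0 := by
  have h6 : ∀ i ≤ m, d i ≤ d 0 := by
    intro i
    induction i with
    | zero => intro _; exact le_rfl
    | succ i ih =>
      intro hi
      exact ((hG i _).trans (h i (by omega))).trans (ih (by omega))
  exact h6 m le_rfl

/-- **The hypothesis `hO` of `smY_of_h`.** -/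
theorem oy_bound (𝔇 : Dat) (b : TS → Rule.Ndl → ℤ × ℤ) {G : ℕ → ℕ → ℕ} (hG : ∀ i e, e ≤ G i e) :
    ∃ C α : ℝ, 0 < α ∧ ∀ h m e : ℕ, ∃ L : ℕ, ∀ d : ℕ → ℕ, d (m + 1) = e → L ≤ d m →
      GroF G (m + 1) d → ∀ᶠ n in atTop, pr (Sn n) (OY 𝔇 b h d n m) ≤
        C * (m + 1) * (1 / 2 : ℝ) ^ (α * h) := by
  obtain ⟨C, α, hC, hα, hCα, hmain⟩ := owa_pow
  refine ⟨2 * C, α, hα, fun h m e => ⟨e + 3 * h, fun d hd hL hGr => ?_⟩⟩
  have hd0 : d m ≤ d 0 := le_zero_of_groF hG hGr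
  filter_upwards [eventually_ge_atTop (2 ^ d 0)] with n hn
  have key : ∀ a c : ℕ, a + h ≤ c + 2 → c ≤ e + 3 * h →
      pr (Sn n) (OWa 𝔇 b d n m (Sc.ls d n c) (Sc.ls d n a)) ≤
        C * (m + 1) * (1 / 2 : ℝ) ^ (α * h) := by
    intro a c h1 h2
    rcases lt_or_ge h 2 with h4 | h4
    · refine (pr_le_one _ _).trans ?_
      have h5 : (1 / 2 : ℝ) ^ (α * 2) ≤ (1 / 2 : ℝ) ^ (α * h) := by
        refine Real.rpow_le_rpow_of_exponent_ge (by norm_num) (by norm_num) ?_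
        have : (h : ℝ) ≤ 2 := by exact_mod_cast h4.le
        nlinarith
      have h6 : (4 : ℝ) ^ α * (1 / 2 : ℝ) ^ (α * 2) = 1 := by
        rw [mul_comm α 2, Real.rpow_mul (by norm_num), ← Real.mul_rpow (by norm_num) (by positivity)]
        norm_num
      have h7 : (0 : ℝ) < (1 / 2 : ℝ) ^ (α * 2) := by positivity
      have h8 : (0 : ℝ) ≤ m := Nat.cast_nonneg m
      calc (1 : ℝ) = 4 ^ α * (1 / 2 : ℝ) ^ (α * 2) := h6.symm
        _ ≤ C * (1 / 2 : ℝ) ^ (α * h) := mul_le_mul hCα h5 h7.le (by linarith)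
        _ ≤ C * (m + 1) * (1 / 2 : ℝ) ^ (α * h) := by
          refine mul_le_mul_of_nonneg_right ?_ (by positivity)
          nlinarith
    · refine hmain 𝔇 b d n m h _ _ (Sc.ls_pos hn _) ?_
      have h5 : Sc.ls d n c * 2 ^ (h - 2) ≤ Sc.ls d n a := Sc.ls_quot n (by omega) (by omega)
      obtain ⟨j, rfl⟩ := Nat.exists_eq_add_of_le h4
      rw [show 2 + j - 2 = j by omega] at h5
      calc (2 : ℤ) ^ (2 + j) * Sc.ls d n c = 4 * (Sc.ls d n c * 2 ^ j) := by rw [pow_add]; ring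
        _ ≤ 4 * Sc.ls d n a := by linarith
  rw [← hd] at key
  refine (pr_union_le _ _ _).trans ?_
  have h1 := key (d (m + 1) + 2 * h + 2) (d (m + 1) + 3 * h) (by omega) (by omega)
  have h2 := key (d (m + 1) + h) (d (m + 1) + 2 * h) (by omega) (by omega)
  linarith

end Pool.Agent.SixB.TruW
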