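import Pool.Agent.Lib.SixB.S8ScanR
import Pool.Agent.Lib.SixB.S8Asm
import Pool.Agent.Lib.SixB.S8Back2

/-!
# Step 8: `RecordScan` from the laws of the histories on the face grid

The output of the chain is a history, a list of data, decided by the faces of the box. If the laws of
the histories are close to a fixed family of numbers and the curves read from the history are close to
the curves of the macroscopic steps of the scan, with high probability, then `RecordScan` holds.
-/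

set_option autoImplicit false

namespace Pool.Agent.SixB

open Set Filter Topology Pool.Agent.Perc Pool.Agent.PercD Pool.Agent.PercX60
open Pool.Agent.MP_6bd702.H23 (Ed)

/-- The law of a function on configurations of the box, from the face grid. -/
theorem prB_out {K : Type} {n : ℕ} {out : Cfg → K} (h : BoxOut n out) (k : K) :
    prB n {T : Finset Edg | out (Pool.Agent.PercX60.gT (T : Set Ed)) = k} =
      pr (Sn n) {ω | out ω = k} := by
  rw [← pr_Sn]
  congr 1
  ext ω
  simp only [mem_ofPred_eq]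
  rw [h _ ω fun f hf => gT_cfgE hf]

namespace Rule

/-- The curves read from the output `F k` are right for the steps of the rule `R`. -/
def RecGood (n K m : ℕ) (R : Rul) (r ε : ℝ) (F : ℕ → Option Curve) (T : Finset Edg) : Prop :=
  FinR (8 * r * n) n K m R T ∧ ∀ j < m,
    (MacR (2 * r * n) n R T j → ∃ c, F j = some c) ∧
    ∀ c, F j = some c → MacR (r * n) n R T j ∧ dist c (crvR n R T j) ≤ ε

/-- **`RecordScan` from outputs on the face grid.** -/
theorem recordScan_of_faces (h : ∀ r ε : ℝ, 0 < r → 0 < ε → ∃ K₀ : ℕ, ∀ K, K₀ ≤ K →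
    ∃ (m : ℕ) (S : Type) (_ : Fintype S) (F : S → ℕ → Option Curve) (out : ℕ → Cfg → S)
      (a : S → ℝ), ∀ᶠ n in atTop, BoxOut n (out n) ∧
        (∑ k, |pr (Sn n) {ω | out n ω = k} - a k| ≤ ε) ∧
        ∃ R : Rul, RulOK n (n / K) R ∧
          pr (Sn n) {ω | ¬ RecGood n K m R r ε (F (out n ω)) (cfgE n ω)} ≤ ε) : RecordScan := by
  intro r ε hr hε
  obtain ⟨K₀, hK₀⟩ := h r ε hr hε
  refine ⟨K₀, fun K hK => ?_⟩
  obtain ⟨m, S, hS, F, out, a, hN⟩ := hK₀ K hK
  obtain ⟨N, hN⟩ := eventually_atTop.1 hN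
  refine ⟨m, S, hS, F, fun n T => out n (Pool.Agent.PercX60.gT (T : Set Ed)), a, N, fun n hn => ?_⟩
  obtain ⟨h1, h2, R, hR, h3⟩ := hN n hn
  refine ⟨?_, R, hR, ?_⟩
  · refine le_trans (le_of_eq (Finset.sum_congr rfl fun k _ => ?_)) h2
    rw [← prB_out h1]
  · rw [← pr_Sn]
    refine le_trans (le_of_eq ?_) h3
    congr 1
    ext ω
    simp only [mem_ofPred_eq]
    rw [h1 _ ω fun f hf => gT_cfgE hf]
    rfl

/-- **`RecordScan` from histories**, outputs of `back_chain_stop`. -/
theorem recordScan_of_hist (h : ∀ r ε : ℝ, 0 < r → 0 < ε → ∃ K₀ : ℕ, ∀ K, K₀ ≤ K →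
    ∃ (m : ℕ) (A : Type) (_ : DecidableEq A) (RR : Finset (List A)) (hist : ℕ → Cfg → List A)
      (F : List A → ℕ → Option Curve) (α : List A → ℝ), ∀ᶠ n in atTop, BoxOut n (hist n) ∧
        (∀ ω, hist n ω ∈ RR) ∧
        (∑ x ∈ RR, |pr (Sn n) {ω | hist n ω = x} - α x| ≤ ε) ∧
        ∃ R : Rul, RulOK n (n / K) R ∧
          pr (Sn n) {ω | ¬ RecGood n K m R r ε (F (hist n ω)) (cfgE n ω)} ≤ ε) :
    RecordScan := by
  classical
  refine recordScan_of_faces fun r ε hr hε => ?_
  obtain ⟨K₀, hK₀⟩ := h r ε hr hε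
  refine ⟨K₀, fun K hK => ?_⟩
  obtain ⟨m, A, hA, RR, hist, F, α, hN⟩ := hK₀ K hK
  obtain ⟨N, hN'⟩ := eventually_atTop.1 hN
  obtain ⟨x₀, hx₀⟩ : RR.Nonempty := ⟨_, (hN' N le_rfl).2.1 (fun _ => true)⟩
  let out : ℕ → Cfg → {x // x ∈ RR} := fun n ω =>
    if hx : hist n ω ∈ RR then ⟨hist n ω, hx⟩ else ⟨x₀, hx₀⟩
  refine ⟨m, {x // x ∈ RR}, inferInstance, fun x => F x.1, out, fun x => α x.1, ?_⟩
  filter_upwards [hN] with n hn
  obtain ⟨h1, h2, h3, R, hR, h4⟩ := hn
  have hout : ∀ ω, ((out n ω : {x // x ∈ RR}) : List A) = hist n ω := by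
    intro ω
    simp only [out]
    rw [dif_pos (h2 ω)]
  have hout' : ∀ ω (k : {x // x ∈ RR}), out n ω = k ↔ hist n ω = k.1 := by
    intro ω k
    rw [← hout ω]
    exact Subtype.ext_iff
  refine ⟨fun ω ω' hω => ?_, ?_, R, hR, ?_⟩
  · apply Subtype.ext
    rw [hout, hout]
    exact h1 ω ω' hω
  · rw [← Finset.sum_attach, ← Finset.univ_eq_attach] at h3
    refine le_trans (le_of_eq (Finset.sum_congr rfl fun k _ => ?_)) h3
    simp only [hout']
  · simpa only [hout] using h4

end Rule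

end Pool.Agent.SixB
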