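import Pool.Agent.Lib.SixB.S8NearTop
import Pool.Agent.Lib.SixB.S8Rare

/-!
# Step 8: rare events of the stages in the rows of the output

* `rowEv_smY`: the rare transition events `Y` (`SmY`) do not happen in the stages before `N`, off an event
  of probability at most `ε`, if the resolutions grow fast;
* `rowEv_smZ`: the same for the static events `Z` (`SmZ`);
* `rowEv_num`: a condition on the numbers which holds for large `n`.
-/

set_option autoImplicit false

namespace Pool.Agent.SixB.Tru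

open Finset Filter Topology Pool.Agent.Perc Pool.Agent.PercT Pool.Agent.PercX60
open Pool.Agent.SixB Pool.Agent.SixB.Rule Pool.Agent.SixB.Dct Pool.Agent.SixB.Mv

variable {𝔇 : Dat} {G₀ : ℕ → ℕ → ℕ} {Bd Y Z : EvF}

/-- **The transition events do not happen** before the stage `N`, off a rare event. -/
theorem rowEv_smY (hY : SmY G₀ Bd Y) : ∃ G : ℕ → ℕ → ℕ, (∀ i e, G₀ i e ≤ G i e) ∧
    ∀ G' : ℕ → ℕ → ℕ, (∀ i e, G i e ≤ G' i e) → ∀ ε : ℝ, 0 < ε →
      RowEv 𝔇 G' Bd ε fun d n N ω => ∀ l < N, ω ∉ Y d n l := by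
  classical
  choose LY hLY using hY
  refine ⟨fun l e => max (max (G₀ l e) e) (LY l e (epsR e) (epsR_pos e)),
    fun i e => (le_max_left _ _).trans (le_max_left _ _), fun G' hG' ε hε => ?_⟩
  have g0 : ∀ i e, G₀ i e ≤ G' i e := fun i e =>
    ((le_max_left _ _).trans (le_max_left _ _)).trans (hG' i e)
  have g1 : ∀ i e, e ≤ G' i e := fun i e =>
    ((le_max_right _ _).trans (le_max_left _ _)).trans (hG' i e)
  have g3 : ∀ i e, LY i e (epsR e) (epsR_pos e) ≤ G' i e := fun i e =>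
    (le_max_right _ _).trans (hG' i e)
  refine rowEv_tran (fun d n l _ => Y d n l)
    (fun l e η => if h : 0 < η then LY l e η h else 0) ?_ g1
    (fun l e => by rw [dif_pos (epsR_pos e)]; exact g3 l e) hε
  intro l e η hη d hd hL hG N hl hN
  rw [dif_pos hη] at hL
  exact hLY l e η hη d hd hL (GroF.mono hG g0)

/-- **The static events do not happen** before the stage `N`, off a rare event. -/
theorem rowEv_smZ (hZ : SmZ G₀ Z) : ∃ G : ℕ → ℕ → ℕ, (∀ i e, G₀ i e ≤ G i e) ∧
    ∀ G' : ℕ → ℕ → ℕ, (∀ i e, G i e ≤ G' i e) → ∀ ε : ℝ, 0 < ε →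
      RowEv 𝔇 G' Bd ε fun d n N ω => ∀ l < N, ω ∉ Z d n l :=
  rowEv_smY (hZ.toY Bd)

/-- A condition on the numbers which holds for large `n`. -/
theorem rowEv_num {C : (ℕ → ℕ) → ℕ → ℕ → Prop} {G : ℕ → ℕ → ℕ} {ε : ℝ} (hε : 0 ≤ ε)
    (hC : ∀ m d, GroF G (m + 1) d → ∀ᶠ n in atTop, C d n m) :
    RowEv 𝔇 G Bd ε fun d n N _ => ∀ m < N, C d n m := by
  intro N
  refine ⟨0, fun d _ hd => ?_⟩
  have h1 : ∀ᶠ n in atTop, ∀ m ∈ range N, C d n m := by
    rw [eventually_all_finset]
    intro m hm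
    rw [mem_range] at hm
    exact hC m d fun i hi => hd i (by omega)
  filter_upwards [h1] with n hn
  refine ⟨∅, ?_, fun ω _ _ _ m hm => hn m (mem_range.2 hm)⟩
  rw [pr_none]
  exact hε

end Pool.Agent.SixB.Tru
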