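import Pool.Agent.Lib.SixB.S8SideQ
import Pool.Agent.Lib.SixB.S8RareP
import Pool.Agent.Lib.SixB.S8StepTr

/-!
# Step 8: the row `RowStgS` from the statement about one stage

* `ev_smY`: rare transition events do not happen in the stages before `N` (without the condition on the number
  of the finished needles);
* `StX`: everything which is known about the stages before `N`, one configuration;
* `SideXD`: the statement about one stage (deterministic);
* `rowStgS_of`: **the second input of the row `RowFin`**.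
-/

set_option autoImplicit false

namespace Pool.Agent.SixB.Fin8

open Filter Finset Pool.Agent.Perc Pool.Agent.Perc6 Pool.Agent.PercT Pool.Agent.PercX60
open Pool.Agent.SixB Pool.Agent.SixB.Rule Pool.Agent.SixB.Dct Pool.Agent.SixB.Mv
open Pool.Agent.SixB.Tru Pool.Agent.SixB.Cov
open Pool.Agent.SixB.TruR (ts ruleT)
open Pool.Agent.SixB.Hook (ndL)

/-- The rare transition events do not happen in the stages before `N`. -/
theorem ev_smY {𝔇 : Dat} {G₀ : ℕ → ℕ → ℕ} {Bd Y : EvF} (hY : SmY G₀ Bd Y) :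
    ∃ G : ℕ → ℕ → ℕ, (∀ i e, G₀ i e ≤ G i e) ∧
      ∀ G' : ℕ → ℕ → ℕ, (∀ i e, G i e ≤ G' i e) → ∀ ε : ℝ, 0 < ε → ∀ N : ℕ, ∃ ℓ₀ : ℕ,
        ∀ d : ℕ → ℕ, ℓ₀ ≤ d N → (chD 𝔇 G' Bd).Gro N d → ∀ᶠ n in atTop, ∃ E : Set Cfg,
          pr (Sn n) E ≤ ε ∧ ∀ ω, ω ∉ E → Gd Bd N d n ω → ∀ l < N, ω ∉ Y d n l := by
  classical
  choose LY hLY using hY
  refine ⟨fun l e => max (max (G₀ l e) e) (LY l e (epsR e) (epsR_pos e)),
    fun i e => (le_max_left _ _).trans (le_max_left _ _), fun G' hG' ε hε N => ?_⟩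
  have g0 : ∀ i e, G₀ i e ≤ G' i e := fun i e =>
    ((le_max_left _ _).trans (le_max_left _ _)).trans (hG' i e)
  have g1 : ∀ i e, e ≤ G' i e := fun i e =>
    ((le_max_right _ _).trans (le_max_left _ _)).trans (hG' i e)
  have g3 : ∀ i e, LY i e (epsR e) (epsR_pos e) ≤ G' i e := fun i e =>
    (le_max_right _ _).trans (hG' i e)
  obtain ⟨ℓ₀, h⟩ := exc_small (chD 𝔇 G' Bd) Sn (fun d n l _ => Y d n l)
    (fun l e η => if h : 0 < η then LY l e η h else 0) (by
      intro l e η hη d hd hL hG N hl hN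
      rw [dif_pos hη] at hL
      exact hLY l e η hη d hd hL (GroF.mono hG g0)) g1
    (fun l e => by rw [dif_pos (epsR_pos e)]; exact g3 l e) N hε
  refine ⟨ℓ₀, fun d hd hG => ?_⟩
  filter_upwards [h d hd hG] with n hn
  exact ⟨_, hn, fun ω hω hg l hl hl' => hω ⟨l, hl, hl', fun i hi => hg i (by omega)⟩⟩

/-- **Everything which is known about the stages before `N`**, one configuration. -/
structure StX (K kap a k₀ : ℕ) (C c₁ : ℤ) (d : ℕ → ℕ) (n N : ℕ) (ω : Cfg) (x : RdQ) : Prop where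
  /-- the resolutions -/
  gro : ∀ l < N, d (l + 1) + a ≤ d l
  /-- the resolutions are large -/
  big : k₀ ≤ d N
  /-- the unit -/
  unt : 2 ≤ unt d n ∧ n = 2 ^ d 0 * unt d n + n % 2 ^ d 0 ∧ 2 * (n % 2 ^ d 0) + 1 < unt d n
  /-- the radii -/
  rad : x.Ok K (5 * c₁ + 2 * 13 + 40) d n N
  /-- the invariant of the chain -/
  inv : ∀ l < N, IC K kap C d n l (tst (datC K kap) d n ω l) ω
  /-- no gates at the scales of the stages -/
  gat : ∀ l < N, ¬ GateS d n l (tst (datC K kap) d n ω l) ω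
  /-- no dead stops -/
  dead : ∀ l < N, ω ∉ Dead C (datC K kap) d n l
  /-- the gates and the walls -/
  st : ∀ i < N, ∀ q, (ts (datC K kap) d n ω i).q = some q → StQ (datC K kap) d n i N ω q c₁ x

/-- **The statement about one stage.** `c₁`, `k₀` may depend on the number `N` of the stages. -/
def SideXD (K kap a : ℕ) (C : ℤ) : Prop := ∀ N : ℕ, ∃ (c₁ : ℤ) (k₀ : ℕ), 0 ≤ c₁ ∧
  ∀ (d : ℕ → ℕ) (n : ℕ) (ω : Cfg) (x : RdQ), StX K kap a k₀ C c₁ d n N ω x →
    ∀ i < N, ∀ b b' : ℕ, b < K + 2 → b' < K + 2 → ∀ q D, (ts (datC K kap) d n ω i).q = some q →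
      (sgm (datC K kap) d n ω i).run = some D → (sgm (datC K kap) d n ω i).ini = false →
        SideX (datC K kap) d n (ts (datC K kap) d n ω i) q D (recS (datC K kap) d n i ω) ω
          (3 * ndL K (d 0)) (4 * ((n / K : ℕ) : ℤ) - 2 * (unt d n : ℤ) - 1) (xg d n K b b')

/-- **The second input of the row `RowFin`.** -/
theorem rowStgS_of {K kap a : ℕ} {C : ℤ} {G : ℕ → ℕ → ℕ} (hK : 0 < K) (hC : 256 ≤ C) (ha : 4 ≤ a)
    (hG : ∀ i e, e + a ≤ G i e) (hX : SideXD K kap a C) :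
    ∃ G' : ℕ → ℕ → ℕ, (∀ i e, G i e ≤ G' i e) ∧
      ∀ G'' : ℕ → ℕ → ℕ, (∀ i e, G' i e ≤ G'' i e) → ∀ ε : ℝ, 0 < ε →
        RowStgS K kap G'' (BdI (IC K kap C) (datC K kap)) ε := by
  have hD : SmY G (BdI (IC K kap C) (datC K kap)) (Dead C (datC K kap)) :=
    (lawInv_datC hC).smY_dead iC_dec (fun i e => by have := hG i e; omega)
      (rowTst (datC K kap)) (rowGrow (datC K kap))
  obtain ⟨G', h1, h2⟩ := ev_smY (𝔇 := datC K kap) hD
  refine ⟨G', h1, fun G'' hG'' ε hε N => ?_⟩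
  have hGa : ∀ i e, e + a ≤ G'' i e := fun i e => (hG i e).trans ((h1 i e).trans (hG'' i e))
  obtain ⟨c₁, k₀, hc₁, hX⟩ := hX N
  obtain ⟨ℓ₁, h3⟩ := h2 G'' hG'' (ε / 2) (by linarith) N
  obtain ⟨ℓ₂, h4⟩ := sideQ_of (K := K) (kap := kap) (G := G'') (Bd := BdI (IC K kap C) (datC K kap)) hK
    (fun i e => by have := hGa i e; omega) (c₀ := 13) (c₁ := c₁) (by norm_num) hc₁ N
    (show 0 < ε / 2 by linarith)
  refine ⟨max (max ℓ₁ ℓ₂) k₀, fun d hd hGr => ?_⟩
  filter_upwards [h3 d (((le_max_left _ _).trans (le_max_left _ _)).trans hd) hGr,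
    h4 d (((le_max_right _ _).trans (le_max_left _ _)).trans hd) hGr, Box0.eventually_unt (d 0)]
    with n ⟨E₁, hE₁, hA⟩ ⟨x, E₂, hx, hE₂, hS⟩ hu
  refine ⟨E₁ ∪ E₂, (pr_union_le _ _ _).trans (by linarith), fun ω hω hg i hi b b' hb hb' q D hq hr hini => ?_⟩
  have hI : ∀ l < N, IC K kap C d n l (tst (datC K kap) d n ω l) ω := fun l hl =>
    (notMem_bdI.1 (hg l hl)).1
  exact hX d n ω x ⟨fun l hl => (hGa l _).trans (hGr l hl), (le_max_right _ _).trans hd, hu, hx, hI,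
    fun l hl => (notMem_bdI.1 (hg l hl)).2, hA ω (fun h => hω (Or.inl h)) hg,
    fun i hi q hq => hS ω (fun h => hω (Or.inr h)) i hi (fun l hl => (hI l (by omega)).2.2.2.1) q hq⟩
    i hi b b' hb hb' q D hq hr hini

end Pool.Agent.SixB.Fin8
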