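import Pool.Agent.Lib.SixB.S8StartBs
import Pool.Agent.Lib.SixB.S8InvSn
import Pool.Agent.Lib.SixB.S8RareR

/-!
# Step 8, START: the base of the running needle is near the coarse target side

* `bas_fine`, `bas_of_ent`, `basI_of_ent`, `StIn.basI`: `BasI` at the entrance stage of a needle;
* `basIn_of`, `rowRare_of_yk`: the input `BasIn` of the row `rare`.
-/

set_option autoImplicit false

namespace Pool.Agent.SixB.StS

open Finset Pool.Agent.Perc Pool.Agent.Perc6 Pool.Agent.PercT Pool.Agent.Perc6.C2Aux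
open Pool.Agent.Perc.Tips Pool.Agent.PercU Pool.Agent.PercX60
open Pool.Agent.MP_6bd702.H23 (Ed ea eb)
open Pool.Agent.SixB Pool.Agent.SixB.Top Pool.Agent.SixB.Mv
open Pool.Agent.SixB.Rule Pool.Agent.SixB.Dct Pool.Agent.SixB.Hook
open Pool.Agent.SixB.Blow (subE)
open Pool.Agent.SixB.Ndle (dlt cen)
open Pool.Agent.SixB.Tru

section Fine

variable {u L : ℕ} {V : Finset (ℤ × ℤ)} {C : Set (ℤ × ℤ)} {z : ℤ × ℤ} {w R : ℤ}
  {π : Prm} {κ : ℤ × ℤ → ℤ × ℤ}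

/-- **The base of the true needle is near the coarse target side**, with free numbers. -/
theorem bas_fine (hu : 0 < u) (hC : C.Finite) (cC : Top.EConn C) (eC : Esc C)
    (h3 : 3 * L ≤ dlt (fin C) z) (hπ : π.ndl C z = ndC L C z)
    (A : App (FU V) (blow u C) κ w) (huw : (u : ℤ) ≤ w)
    (hfar : 2 * (2 * (4 * w + 6 * u + 8) + 6 * u) ≤ u * ((L : ℤ) - 3))
    (hR : 5 * w + 6 * u + 6 ≤ R) :
    LC.InB (lf (subE u (CSt.dom₀ π C z).B 0)) R (ua (Tru.eS V (hookU u L V C z))) := by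
  have hu' : (0 : ℤ) < u := by exact_mod_cast hu
  have h3' : 3 * (L : ℤ) ≤ (dlt (fin C) z : ℤ) := by exact_mod_cast h3
  have hm : (u : ℤ) * (3 * (L : ℤ)) ≤ u * (dlt (fin C) z : ℤ) := mul_le_mul_of_nonneg_left h3' hu'.le
  have e1 : (u : ℤ) * ((L : ℤ) - 3) = u * L - 3 * u := by ring
  have e2 : (u : ℤ) * (3 * (L : ℤ)) = 3 * (u * L) := by ring
  have e3 : (u : ℤ) * ((L : ℤ) + 1) - 1 = u * L + u - 1 := by ring
  have e4 : (u : ℤ) * ((dlt (fin C) z : ℤ) - 1) = u * (dlt (fin C) z : ℤ) - u := by ring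
  rw [e1] at hfar
  rw [e2] at hm
  have h2 : 2 ≤ L := by
    by_contra h
    have h5 : (L : ℤ) ≤ 1 := by exact_mod_cast (by omega : L ≤ 1)
    have h6 : (u : ℤ) * L ≤ u * 1 := mul_le_mul_of_nonneg_left h5 hu'.le
    omega
  have h1 : 1 ≤ L := by omega
  have hL : L ≤ dlt (fin C) z := by omega
  have hd : 0 < w := by omega
  have H : Pre V (blow u C) (Ndle.ndF u (fin C) z L) (Ndle.ndA u (fin C) z)
      (Ndle.ndB u (fin C) z) (w - 1).toNat :=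
    Hook.pre_of_app hC hu' hL h1 A subset_rfl fun _ _ _ _ h => h
  have hl : (u : ℤ) * ((L : ℤ) + 1) - 1 ≤ u * ((L : ℤ) + 1) - 1 := le_rfl
  have hdl : w ≤ (u : ℤ) * ((L : ℤ) + 1) - 1 := by rw [e3]; omega
  have hr : (u : ℤ) * ((L : ℤ) + 1) - 1 + w ≤ u * ((dlt (fin C) z : ℤ) - 1) := by rw [e3, e4]; omega
  have N := StartH.ndl_hook hC hu' h1 hL hd H hl hdl hr
  have hB := (StartB.near_AB (π := π) hu hC cC eC h2 h3 hπ H N huw).2
  have hb := (base_near H).1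
  have hlf := isCor_in_lf (subE u (CSt.dom₀ π C z).B 0)
  have hr0 : ((w - 1).toNat : ℤ) = w - 1 := Int.toNat_of_nonneg (by omega)
  rw [hr0] at hb
  change LC.InB (lf (subE u (CSt.dom₀ π C z).B 0)) R
    (ua (Tru.eS V (ndT (FU V) (blow u C) (Ndle.ndF u (fin C) z L) (Ndle.ndA u (fin C) z)
      (Ndle.ndB u (fin C) z))))
  unfold LC.InB at *
  unfold IsCor at hlf
  omega

end Fine

variable {n L : ℕ} {V : Finset (ℤ × ℤ)} {T₀ : Finset Edg} {w : ℤ} {κ : ℤ × ℤ → ℤ × ℤ}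
  {𝔇 : Dat} {d : ℕ → ℕ} {i : ℕ} {ω : Cfg} {x : List Rec} {q : Rule.Ndl} {D : Dom} {r : ℤ}

/-- **The base at the entrance stage**, with free numbers. -/
theorem bas_of_ent (E : EntS 𝔇 d n ω i V x q D)
    (hhk : 𝔇.hook n d V (𝔇.disc d x) (𝔇.tgt d x) =
      hookU (unt d n) L V (𝔇.disc d x) (𝔇.tgt d x))
    (hnd : (𝔇.prm d).ndl (𝔇.disc d x) (𝔇.tgt d x) = ndC L (𝔇.disc d x) (𝔇.tgt d x))
    (hJ : (𝔇.cs d x).Inv)
    (h3 : 3 * L ≤ dlt (fin (𝔇.disc d x)) (𝔇.tgt d x)) (hu : 0 < unt d n)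
    (A : App (FU V) (blow (unt d n) (𝔇.disc d x)) κ w) (huw : (unt d n : ℤ) ≤ w)
    (hfar : 2 * (2 * (4 * w + 6 * unt d n + 8) + 6 * unt d n) ≤ unt d n * ((L : ℤ) - 3))
    (hR : 16 * w + 38 * unt d n + 11 ≤ r) :
    LC.InB (lf (subE (unt d n) D.B 0)) r (ua (eS (tst 𝔇 d n ω (i + 1)).V q)) := by
  have hu' : (0 : ℤ) < unt d n := by exact_mod_cast hu
  have hdisc := E.disc
  obtain ⟨f1, f2, f3⟩ : (𝔇.disc d x).Finite ∧ Top.EConn (𝔇.disc d x) ∧ Esc (𝔇.disc d x) := by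
    rw [hdisc]
    exact CSt.esc_cmp (π := 𝔇.prm d) hJ (msh_pos d i) E.mem
  have hqe : q = hookU (unt d n) L V (𝔇.disc d x) (𝔇.tgt d x) := E.hk.trans hhk
  have hDe := E.dom
  have hV : (tst 𝔇 d n ω (i + 1)).V = V := by rw [E.st']
  clear E
  subst hqe hDe
  rw [hV]
  exact bas_fine (π := 𝔇.prm d) hu f1 f2 f3 h3 hnd A huw hfar (by omega)

section Row

open Pool.Agent.SixB.Cov (datC)

/-- **`BasI` at the entrance stage.** -/
theorem basI_of_ent {C C₁ : ℤ} {K kap N : ℕ} (E : EntS (datC K kap) d n ω i V x q D)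
    (hC₁ : 1 ≤ C₁) (hC : 16 * C₁ + 48 ≤ C) (hK : 0 < K) (hd : Sc.Dec d N) (hiN : i + 1 ≤ N)
    (hl : (K : ℤ) * (32 * C₁ + 80) ≤ 2 ^ d N) (hn : 2 ^ d 0 ≤ n)
    (hJ : ((datC K kap).cs d x).Inv)
    (A : App (FU V) (blow (unt d n) ((datC K kap).disc d x)) κ (rad C₁ (unt d n) d (i + 1))) :
    BasI C (datC K kap) d n (i + 1) (tst (datC K kap) d n ω (i + 1)) ω := by
  have hu : 0 < unt d n := by exact_mod_cast InvN.unt_pos hn
  obtain ⟨h0, h1, h2⟩ := num_ent E hC₁ hC hK hd hiN hl hn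
  have hb := bas_of_ent (L := Hook.ndL K (d 0)) E rfl (datC_ndl K kap d _ _) hJ E.act hu A h0 h1 h2
  intro q' D' hq' hD' _
  have e1 := E.st'
  have e2 := congrArg CSt.run E.co'
  have hxl : (tst (datC K kap) d n ω (i + 1)).x.length = i + 2 := by
    rw [e1]
    simp [E.len]
  have hq1 : q' = q := by
    rw [e1] at hq'
    exact (Option.some.inj hq').symm
  have hD1 : D' = D := by
    rw [e1] at hD'
    exact Option.some.inj (hD'.symm.trans e2)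
  subst hq1 hD1
  rw [hxl]
  exact hb

variable {C c₀ : ℤ} {K kap a : ℕ} {J : InvP} {G : ℕ → ℕ → ℕ} {N₁ : (ℕ → ℕ) → ℕ} {Y Z : EvF}

/-- **The entrance of the strand**: the base. -/
theorem StIn.basI (H : StIn C c₀ K kap a J G N₁ Y Z)
    (h : GdP (InvA C c₀ K J (datC K kap)) (datC K kap) (NumC G N₁) (YA (datC K kap) C Y)
      (ZA (datC K kap) c₀ Z) d n (i + 1) ω) (E : EntS (datC K kap) d n ω i V x q D) :
    BasI C (datC K kap) d n (i + 1) (tst (datC K kap) d n ω (i + 1)) ω := by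
  obtain ⟨h1, κ, h2⟩ := H.app h E
  have h4 := H.hC
  exact basI_of_ent E (C₁ := 1 + 12) (by norm_num) (by omega) H.hK (H.dec h) le_rfl (H.pow h) (H.big h)
    h1 h2

end Row

end Pool.Agent.SixB.StS

namespace Pool.Agent.SixB.Tru

open Pool.Agent.Perc Pool.Agent.PercT
open Pool.Agent.SixB Pool.Agent.SixB.Rule Pool.Agent.SixB.Dct Pool.Agent.SixB.Mv

variable {K kap a : ℕ} {C : ℤ} {G : ℕ → ℕ → ℕ} {Y Z : EvF}

/-- **The input `BasIn` of the row `rare`.** -/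
theorem basIn_of (hC : 256 ≤ C) (hK : 0 < K) (ha : 16 * (9 * C + 6) ≤ 2 ^ a)
    (haK : 512 * K ≤ 2 ^ a) (hG : ∀ i e, e + a ≤ G i e)
    (hYK : ∀ d n l ω, ω ∈ YK (Cov.datC K kap) d n l → ω ∈ Y d n l) : BasIn K kap C G Y Z :=
  fun h _ hE => (stIn_of hC hK ha haK hG hYK).basI h hE

/-- **The row `rare`** from `SmY` for the event `YK`. -/
theorem rowRare_of_yk (hC : 256 ≤ C) (hK : 0 < K) (ha : 16 * (9 * C + 6) ≤ 2 ^ a)
    (haK : 512 * K ≤ 2 ^ a) (ha45 : 45 ≤ a) (hG : ∀ i e, e + a ≤ G i e)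
    (hY : SmY G (BdI (IC K kap C) (Cov.datC K kap)) (YK (Cov.datC K kap))) :
    ∃ G' : ℕ → ℕ → ℕ, (∀ i e, G i e ≤ G' i e) ∧
      ∀ G'' : ℕ → ℕ → ℕ, (∀ i e, G' i e ≤ G'' i e) →
        RowRare (Cov.datC K kap) G'' (BdI (IC K kap C) (Cov.datC K kap)) :=
  rowRare_of_kept hC hK ha haK ha45 hG (basIn_of hC hK ha haK hG fun _ _ _ _ h => h) hY

end Pool.Agent.SixB.Tru
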