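import Pool.Agent.Lib.SixB.S8NearTop
import Pool.Agent.Lib.SixB.S8OutCv
import Pool.Agent.Lib.SixB.S8InvA
import Pool.Agent.Lib.SixB.S8RareH

/-!
# Step 8: the sizes of the stages

* `ls_small`: multiples of the cells of all the stages are small compared with `n`, if the resolutions
  are fine;
* `smallW_ls`: the same in the form `SmallW`; `wdN`: a width which contains all the radii and the width
  of the gates; `smallW_wdN`, `rad_le_wdN`, `gW_le_wdN`;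
* `StepNum`: the sizes of the blocks, of the radii, of the hooks and of the gates;
  `stepNum_ev`: they hold for `64 / κ ≤ 2 ^ kap`, if the resolutions are fine and `n` is large;
  `StepNum.fl`, `.ce`, `.far_fl`, `.far_ce`: against the radius at the base and the distance of the gates;
* `StepNum.not_gate`: no gates of the width `wdN` at the beginning of the step;
  `StepNum.mov_nums`: the numbers of `mov_chain`;
* `Siz`: all the sizes of the row `step`; `siz_ev`: they hold for fine resolutions and large `n`.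
-/

set_option autoImplicit false

namespace Pool.Agent.SixB.StepN

open Filter Finset Topology Pool.Agent.Perc Pool.Agent.PercT
open Pool.Agent.SixB Pool.Agent.SixB.Rule Pool.Agent.SixB.Dct Pool.Agent.SixB.Mv Pool.Agent.SixB.Tru

variable {𝔇 : Dat} {G : ℕ → ℕ → ℕ} {Bd : (ℕ → ℕ) → ℕ → ℕ → Set Cfg} {d : ℕ → ℕ} {n N i kap : ℕ}
  {C c₀ : ℤ} {κ : ℝ}

/-- The cells of a stage. -/
theorem ls_le_real (h : d i ≤ d 0) : ((Sc.ls d n (d i) : ℤ) : ℝ) ≤ n / 2 ^ d i := by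
  rw [le_div_iff₀ (by positivity)]
  exact_mod_cast Sc.ls_le n h

/-- **Multiples of the cells are small.** -/
theorem ls_small {A : ℤ} (hA : 0 ≤ A) (hG : ∀ i e, e < G i e) {η : ℝ} (hη : 0 < η) (N : ℕ) :
    ∃ ℓ₀ : ℕ, ∀ d : ℕ → ℕ, ℓ₀ ≤ d N → (chD 𝔇 G Bd).Gro N d → ∀ᶠ n : ℕ in atTop,
      ∀ i ≤ N, ((A * Sc.ls d n (d i) + A : ℤ) : ℝ) ≤ η * n := by
  have hA' : (0 : ℝ) ≤ A := by exact_mod_cast hA
  obtain ⟨ℓ₀, hℓ⟩ : ∃ ℓ₀ : ℕ, (A : ℝ) * (1 / 2) ^ ℓ₀ ≤ η / 2 := by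
    have h1 : Tendsto (fun k : ℕ => (A : ℝ) * (1 / 2) ^ k) atTop (𝓝 (A * 0)) :=
      (tendsto_pow_atTop_nhds_zero_of_lt_one (by norm_num) (by norm_num)).const_mul _
    rw [mul_zero] at h1
    exact (h1.eventually_le_const (show (0 : ℝ) < η / 2 by positivity)).exists
  refine ⟨ℓ₀, fun d hd hgr => ?_⟩
  have hdec : Sc.Dec d N := ChnD.Gro.dec hG hgr
  filter_upwards [eventually_ge_atTop ⌈2 * A / η⌉₊] with n hn i hi
  have hn' : 2 * A / η ≤ (n : ℝ) := (Nat.le_ceil _).trans (by exact_mod_cast hn)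
  have h0 : d i ≤ d 0 := hdec.anti i hi 0 (by omega)
  have h1 : ℓ₀ ≤ d i := hd.trans (hdec.anti N le_rfl i hi)
  have h2 : ((Sc.ls d n (d i) : ℤ) : ℝ) ≤ n * (1 / 2) ^ ℓ₀ := by
    refine (ls_le_real h0).trans ?_
    rw [div_eq_mul_one_div, one_div_pow]
    exact mul_le_mul_of_nonneg_left (one_div_le_one_div_of_le (by positivity)
      (pow_le_pow_right₀ (by norm_num) h1)) (Nat.cast_nonneg n)
  have h3 : (A : ℝ) * (Sc.ls d n (d i) : ℤ) ≤ η / 2 * n := by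
    calc (A : ℝ) * (Sc.ls d n (d i) : ℤ) ≤ A * (n * (1 / 2) ^ ℓ₀) :=
          mul_le_mul_of_nonneg_left h2 hA'
      _ = A * (1 / 2) ^ ℓ₀ * n := by ring
      _ ≤ η / 2 * n := mul_le_mul_of_nonneg_right hℓ (Nat.cast_nonneg n)
  have h4 : (A : ℝ) ≤ η / 2 * n := by
    rw [div_le_iff₀ hη] at hn'
    linarith
  push_cast
  linarith

/-- **Multiples of the cells are small**, in the form of the rows. -/
theorem smallW_ls {A : ℤ} (hA : 0 ≤ A) (hG : ∀ i e, e < G i e) :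
    SmallW 𝔇 G Bd fun d n N => A * Sc.ls d n (d N) := by
  intro κ hκ N
  obtain ⟨ℓ₀, h⟩ := ls_small (𝔇 := 𝔇) (Bd := Bd) hA hG hκ N
  refine ⟨ℓ₀, fun d hd hgr => ?_⟩
  filter_upwards [h d hd hgr] with n hn
  refine ⟨mul_nonneg hA (Sc.ls_nonneg _ _ _), ?_⟩
  refine le_trans ?_ (hn N le_rfl)
  exact_mod_cast (by linarith : A * Sc.ls d n (d N) ≤ A * Sc.ls d n (d N) + A)

/-- A length which is at most a multiple of the cells of the last stage. -/
theorem smallW_of_le {A : ℤ} (hA : 0 ≤ A) (hG : ∀ i e, e < G i e) {w : (ℕ → ℕ) → ℕ → ℕ → ℤ}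
    (h0 : ∀ d n N, 0 ≤ w d n N)
    (hw : ∀ d n N, 0 < unt d n → Sc.Dec d N → w d n N ≤ A * Sc.ls d n (d N)) :
    SmallW 𝔇 G Bd w := by
  intro κ hκ N
  obtain ⟨ℓ₀, h⟩ := smallW_ls (𝔇 := 𝔇) (Bd := Bd) hA hG κ hκ N
  refine ⟨ℓ₀, fun d hd hgr => ?_⟩
  filter_upwards [h d hd hgr, eventually_ge_atTop (2 ^ d 0)] with n hn h2
  refine ⟨h0 d n N, le_trans ?_ hn.2⟩
  exact_mod_cast hw d n N (Nat.div_pos h2 (by positivity)) (ChnD.Gro.dec hG hgr)

/-! ### The width of the gates -/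

/-- A width which contains all the radii and the widths of the gates. -/
def wdN (C : ℤ) (d : ℕ → ℕ) (n N : ℕ) : ℤ := (3 * C + 9) * Sc.ls d n (d N)

theorem smallW_wdN (hC : 0 ≤ C) (hG : ∀ i e, e < G i e) : SmallW 𝔇 G Bd (wdN C) :=
  smallW_ls (by linarith) hG

theorem wdN_nonneg (hC : 0 ≤ C) : 0 ≤ wdN C d n N :=
  mul_nonneg (by linarith) (Sc.ls_nonneg _ _ _)

theorem rad_le_ls (hC : 0 ≤ C) (hd : Sc.Dec d N) (hi : i ≤ N) :
    Tru.rad C (unt d n) d (i + 1) ≤ 3 * C * Sc.ls d n (d i) := hd.rad_ls hi n hC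

theorem rad_nonneg (hC : 0 ≤ C) : 0 ≤ Tru.rad C (unt d n) d i := by
  unfold Tru.rad
  have : ∀ j ∈ range i, (0 : ℤ) ≤ msh d j := fun j _ => (msh_pos d j).le
  have := Finset.sum_nonneg this
  positivity

theorem rad_le_wdN (hC : 0 ≤ C) (hu : 0 < unt d n) (hd : Sc.Dec d N) (hi : i ≤ N) :
    Tru.rad C (unt d n) d (i + 1) + 9 ≤ wdN C d n N := by
  have h1 := rad_le_ls (n := n) hC hd hi
  have h2 := Sc.ls_anti (d := d) n (hd.anti N le_rfl i hi)
  have h3 := Sc.unit_le_ls (d := d) n (d N)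
  have h4 : (1 : ℤ) ≤ ((n / 2 ^ d 0 : ℕ) : ℤ) := by
    have : 0 < n / 2 ^ d 0 := hu
    exact_mod_cast this
  have h5 : 3 * C * Sc.ls d n (d i) ≤ 3 * C * Sc.ls d n (d N) :=
    mul_le_mul_of_nonneg_left h2 (by linarith)
  unfold wdN
  linarith

theorem gW_le_ls (hd : d (i + 1) ≤ d i) : gW d n i ≤ 8 * Sc.ls d n (d (i + 1)) := by
  unfold gW
  have := Sc.ls_anti (d := d) n (Sc.le_eR hd).1
  omega

theorem gW_le_wdN (hC : 0 ≤ C) (hd : Sc.Dec d N) (hi : i + 1 ≤ N) : gW d n i ≤ wdN C d n N := by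
  have h1 := gW_le_ls (n := n) (hd i (by omega)).le
  have h2 := Sc.ls_anti (d := d) n (hd.anti N le_rfl (i + 1) hi)
  have h3 : 0 ≤ C * Sc.ls d n (d N) := mul_nonneg hC (Sc.ls_nonneg _ _ _)
  have h4 := Sc.ls_nonneg d n (d N)
  unfold wdN
  linarith

/-! ### The sizes of the stages -/

/-- The sizes of the stages up to `N` are small compared with `κ n`. -/
structure StepNum (κ : ℝ) (C c₀ : ℤ) (kap : ℕ) (d : ℕ → ℕ) (n N : ℕ) : Prop where
  un : 0 < unt d n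
  dec : Sc.Dec d N
  /-- the block, the radius, the hook and the gates of a stage -/
  sum : ∀ i, i + 1 ≤ N → ((unt d n * ((msz kap d (i + 1) + 1) * msh d (i + 1)) +
    Tru.rad C (unt d n) d (i + 1) + c₀ * Sc.ls d n (d i) + gW d n i + 16 : ℤ) : ℝ) ≤ κ / 16 * n
  /-- the widths of the gates and the hooks against the distances -/
  far : ∀ i ≤ N, ((5 * wdN C d n N + 2 * (c₀ * Sc.ls d n (d i)) + 8 * unt d n + 16 : ℤ) : ℝ) ≤
    κ / 16 * n

/-- **The sizes of the stages are small**, if `kap` is large, the resolutions are fine and `n` is large. -/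
theorem stepNum_ev (hκ : 0 < κ) (hkap : 64 / κ ≤ 2 ^ kap) (hC : 0 ≤ C) (hc : 0 ≤ c₀)
    (hG : ∀ i e, e < G i e) (N : ℕ) : ∃ ℓ₀ : ℕ, ∀ d : ℕ → ℕ, ℓ₀ ≤ d N →
      (chD 𝔇 G Bd).Gro N d → ∀ᶠ n in atTop, StepNum κ C c₀ kap d n N := by
  obtain ⟨ℓ₀, h⟩ := ls_small (𝔇 := 𝔇) (Bd := Bd) (A := 20 * C + 2 * c₀ + 80) (by linarith) hG
    (show (0 : ℝ) < κ / 32 by positivity) N
  refine ⟨ℓ₀, fun d hd hgr => ?_⟩
  have hdec : Sc.Dec d N := ChnD.Gro.dec hG hgr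
  filter_upwards [h d hd hgr, eventually_ge_atTop (2 ^ d 0)] with n hn h2
  have hu : 0 < unt d n := Nat.div_pos h2 (by positivity)
  have hn0 : (0 : ℝ) ≤ n := Nat.cast_nonneg n
  -- all the cells are at most the cells of the last stage
  have hmax : ∀ i ≤ N, Sc.ls d n (d i) ≤ Sc.ls d n (d N) := fun i hi =>
    Sc.ls_anti n (hdec.anti N le_rfl i hi)
  have hN := hn N le_rfl
  set A := Sc.ls d n (d N) with hAdef
  have hA0 : 0 ≤ A := Sc.ls_nonneg _ _ _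
  have hCA : 0 ≤ C * A := mul_nonneg hC hA0
  have hcA : 0 ≤ c₀ * A := mul_nonneg hc hA0
  have hun : (unt d n : ℤ) ≤ A := Sc.unit_le_ls n (d N)
  refine ⟨hu, hdec, fun i hi => ?_, fun i hi => ?_⟩
  · have e1 : (unt d n : ℤ) * ((msz kap d (i + 1) + 1) * msh d (i + 1)) =
        unt d n * ((msz kap d (i + 1)) * msh d (i + 1)) + Sc.ls d n (d (i + 1)) := by
      rw [Sc.ls_eq_msh]
      ring
    have hblk : ((unt d n * ((msz kap d (i + 1)) * msh d (i + 1)) : ℤ) : ℝ) ≤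
        κ / 64 * n + ((Sc.ls d n (d (i + 1)) : ℤ) : ℝ) := by
      have h0 : d (i + 1) ≤ d 0 := hdec.anti (i + 1) hi 0 (by omega)
      have hkn : (n : ℝ) / 2 ^ kap ≤ κ / 64 * n := by
        have h64 : (0 : ℝ) < 64 / κ := by positivity
        calc (n : ℝ) / 2 ^ kap ≤ n / (64 / κ) := div_le_div_of_nonneg_left hn0 h64 hkap
          _ = κ / 64 * n := by
            rw [div_div_eq_mul_div]
            ring
      have hls : (0 : ℝ) ≤ ((Sc.ls d n (d (i + 1)) : ℤ) : ℝ) := by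
        exact_mod_cast Sc.ls_nonneg d n (d (i + 1))
      rcases le_total kap (d (i + 1)) with hk | hk
      · have hu' : (unt d n : ℝ) ≤ n / 2 ^ d 0 := by
          rw [le_div_iff₀ (by positivity)]
          have := Nat.div_mul_le_self n (2 ^ d 0)
          exact_mod_cast this
        have : ((unt d n * ((msz kap d (i + 1)) * msh d (i + 1)) : ℤ) : ℝ) ≤ n / 2 ^ kap := by
          unfold msz msh
          push_cast
          calc (unt d n : ℝ) * ((2 : ℝ) ^ (d (i + 1) - kap) * (2 : ℝ) ^ (d 0 - d (i + 1))) ≤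
                n / 2 ^ d 0 * ((2 : ℝ) ^ (d (i + 1) - kap) * (2 : ℝ) ^ (d 0 - d (i + 1))) :=
                mul_le_mul_of_nonneg_right hu' (by positivity)
            _ = n / 2 ^ kap := by
                rw [div_mul_eq_mul_div, div_eq_div_iff (by positivity) (by positivity), mul_assoc,
                  ← pow_add, ← pow_add]
                congr 2
                omega
        linarith
      · have : (unt d n : ℤ) * ((msz kap d (i + 1)) * msh d (i + 1)) = Sc.ls d n (d (i + 1)) := by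
          unfold msz
          rw [Nat.sub_eq_zero_of_le hk, pow_zero, one_mul, Sc.ls_eq_msh]
        rw [this]
        have : (0 : ℝ) ≤ κ / 64 * n := by positivity
        linarith
    have hrad := rad_le_ls (n := n) hC hdec (i := i) (by omega)
    have hg := gW_le_ls (n := n) (hdec i (by omega)).le
    have m1 := hmax i (by omega)
    have m2 := hmax (i + 1) hi
    have m3 : 3 * C * Sc.ls d n (d i) ≤ 3 * C * A := mul_le_mul_of_nonneg_left m1 (by linarith)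
    have m4 : c₀ * Sc.ls d n (d i) ≤ c₀ * A := mul_le_mul_of_nonneg_left m1 hc
    have key : (Sc.ls d n (d (i + 1)) + Sc.ls d n (d (i + 1)) + Tru.rad C (unt d n) d (i + 1) +
        c₀ * Sc.ls d n (d i) + gW d n i + 16 : ℤ) ≤
        (20 * C + 2 * c₀ + 80) * A + (20 * C + 2 * c₀ + 80) := by
      linarith
    have key' : ((Sc.ls d n (d (i + 1)) + Sc.ls d n (d (i + 1)) + Tru.rad C (unt d n) d (i + 1) +
        c₀ * Sc.ls d n (d i) + gW d n i + 16 : ℤ) : ℝ) ≤ κ / 32 * n :=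
      le_trans (by exact_mod_cast key) hN
    have h5 : (0 : ℝ) ≤ κ / 64 * n := by positivity
    rw [e1]
    push_cast at key' hblk ⊢
    linarith
  · have m1 := hmax i hi
    have m4 : c₀ * Sc.ls d n (d i) ≤ c₀ * A := mul_le_mul_of_nonneg_left m1 hc
    have key : (5 * wdN C d n N + 2 * (c₀ * Sc.ls d n (d i)) + 8 * unt d n + 16 : ℤ) ≤
        (20 * C + 2 * c₀ + 80) * A + (20 * C + 2 * c₀ + 80) := by
      unfold wdN
      rw [← hAdef]
      linarith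
    have h5 : (0 : ℝ) ≤ κ / 32 * n := by positivity
    have h6 : ((5 * wdN C d n N + 2 * (c₀ * Sc.ls d n (d i)) + 8 * unt d n + 16 : ℤ) : ℝ) ≤
        κ / 32 * n := le_trans (by exact_mod_cast key) hN
    linarith

/-- The block of the stage after the stage `i` of the chain. -/
theorem StepNum.gr (h : StepNum κ C c₀ 𝔇.kap d n N) (hi : i + 1 ≤ N) (ω : Cfg) (D : Dom) :
    ((unt d n * (((𝔇.gr d (tst 𝔇 d n ω i).x D).M + 1) * (𝔇.gr d (tst 𝔇 d n ω i).x D).L) +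
      Tru.rad C (unt d n) d (i + 1) + c₀ * Sc.ls d n (d i) + gW d n i + 16 : ℤ) : ℝ) ≤
      κ / 16 * n := by
  have h1 := h.sum i hi
  have h2 : (unt d n * ((msz 𝔇.kap d (tst 𝔇 d n ω i).x.length + 1) *
      msh d (tst 𝔇 d n ω i).x.length) : ℤ) =
      unt d n * ((msz 𝔇.kap d (i + 1) + 1) * msh d (i + 1)) := by
    rw [tst_len]
  have h3 : (unt d n * (((𝔇.gr d (tst 𝔇 d n ω i).x D).M + 1) * (𝔇.gr d (tst 𝔇 d n ω i).x D).L) : ℤ) =
      unt d n * ((msz 𝔇.kap d (i + 1) + 1) * msh d (i + 1)) := h2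
  rw [h3]
  exact h1

/-- The same with the factors in the other order. -/
theorem StepNum.gr' (h : StepNum κ C c₀ 𝔇.kap d n N) (hi : i + 1 ≤ N) (ω : Cfg) (D : Dom) :
    ((unt d n * ((𝔇.gr d (tst 𝔇 d n ω i).x D).L * ((𝔇.gr d (tst 𝔇 d n ω i).x D).M + 1)) +
      Tru.rad C (unt d n) d (i + 1) + c₀ * Sc.ls d n (d i) + gW d n i + 16 : ℤ) : ℝ) ≤
      κ / 16 * n := by
  rw [mul_comm (𝔇.gr d (tst 𝔇 d n ω i).x D).L]
  exact h.gr hi ω D

theorem fl_of {x : ℤ} (h : (x : ℝ) ≤ κ / 16 * n) : 16 * x ≤ ⌊κ * n⌋ := by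
  rw [Int.le_floor]
  push_cast
  linarith

theorem ce_of {x : ℤ} (h : (x : ℝ) ≤ κ / 16 * n) : 4 * x ≤ ⌈κ / 4 * n⌉ := by
  have h1 : ((4 * x : ℤ) : ℝ) ≤ (⌈κ / 4 * n⌉ : ℤ) := by
    refine le_trans ?_ (Int.le_ceil _)
    push_cast
    linarith
  exact_mod_cast h1

/-- The block, the radius, the hook and the gates against the radius at the base. -/
theorem StepNum.fl (h : StepNum κ C c₀ 𝔇.kap d n N) (hi : i + 1 ≤ N) (ω : Cfg) (D : Dom) :
    16 * (unt d n * ((𝔇.gr d (tst 𝔇 d n ω i).x D).L * ((𝔇.gr d (tst 𝔇 d n ω i).x D).M + 1)) +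
      Tru.rad C (unt d n) d (i + 1) + c₀ * Sc.ls d n (d i) + gW d n i + 16) ≤ ⌊κ * n⌋ :=
  fl_of (h.gr' hi ω D)

/-- The block, the radius, the hook and the gates against the distance of the gates. -/
theorem StepNum.ce (h : StepNum κ C c₀ 𝔇.kap d n N) (hi : i + 1 ≤ N) (ω : Cfg) (D : Dom) :
    4 * (unt d n * ((𝔇.gr d (tst 𝔇 d n ω i).x D).L * ((𝔇.gr d (tst 𝔇 d n ω i).x D).M + 1)) +
      Tru.rad C (unt d n) d (i + 1) + c₀ * Sc.ls d n (d i) + gW d n i + 16) ≤ ⌈κ / 4 * n⌉ :=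
  ce_of (h.gr' hi ω D)

/-- The widths of the gates against the distance of the gates. -/
theorem StepNum.far_ce (h : StepNum κ C c₀ kap d n N) (hi : i ≤ N) :
    4 * (5 * wdN C d n N + 2 * (c₀ * Sc.ls d n (d i)) + 8 * unt d n + 16) ≤ ⌈κ / 4 * n⌉ :=
  ce_of (h.far i hi)

/-- The widths of the gates against the radius at the base. -/
theorem StepNum.far_fl (h : StepNum κ C c₀ kap d n N) (hi : i ≤ N) :
    16 * (5 * wdN C d n N + 2 * (c₀ * Sc.ls d n (d i)) + 8 * unt d n + 16) ≤ ⌊κ * n⌋ :=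
  fl_of (h.far i hi)

/-- The parts are nonnegative. -/
theorem StepNum.nonneg (h : StepNum κ C c₀ 𝔇.kap d n N) (hC : 0 ≤ C) (hc : 0 ≤ c₀) (ω : Cfg)
    (D : Dom) : 0 ≤ (unt d n : ℤ) * ((𝔇.gr d (tst 𝔇 d n ω i).x D).L *
        ((𝔇.gr d (tst 𝔇 d n ω i).x D).M + 1)) ∧ 0 ≤ Tru.rad C (unt d n) d (i + 1) ∧
      0 ≤ c₀ * Sc.ls d n (d i) ∧ 0 ≤ gW d n i ∧ 0 < unt d n := by
  refine ⟨?_, rad_nonneg hC, mul_nonneg hc (Sc.ls_nonneg _ _ _), ?_, h.un⟩
  · have h1 : (0 : ℤ) ≤ (𝔇.gr d (tst 𝔇 d n ω i).x D).L := (msh_pos _ _).le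
    have h2 : (0 : ℤ) ≤ (𝔇.gr d (tst 𝔇 d n ω i).x D).M := by
      show (0 : ℤ) ≤ msz 𝔇.kap d (tst 𝔇 d n ω i).x.length
      unfold msz
      positivity
    exact mul_nonneg (Int.natCast_nonneg _) (mul_nonneg h1 (by linarith))
  · unfold gW
    have := Sc.ls_nonneg d n (Sc.eR (d i) (d (i + 1)))
    linarith

/-- **No gates at the beginning of the step**, of the width `wdN`. -/
theorem StepNum.not_gate (h : StepNum κ C c₀ kap d n N) (hi : i ≤ N) {K : ℕ} {s : TS} {ω : Cfg}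
    {q : Rule.Ndl} (hk : HkI c₀ K d n i s ω) (hq : s.q = some q) {z : ℤ × ℤ}
    (hC : 0 ≤ C) (hc : 0 ≤ c₀) (hz : fa (eS s.V q) ∉ Near.Bx z ⌈κ / 4 * n⌉) :
    ¬ (exS s.V q).Gate ω 0 z (wdN C d n N) := by
  refine hk.not_gate h.un hq (R := ⌈κ / 4 * n⌉) ?_ hz
  have h1 := h.far_ce hi
  have h2 : 0 ≤ wdN C d n N := wdN_nonneg hC
  have h3 : 0 ≤ c₀ * Sc.ls d n (d i) := mul_nonneg hc (Sc.ls_nonneg _ _ _)
  have h4 : (0 : ℤ) ≤ unt d n := Int.natCast_nonneg _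
  linarith

/-- **The numbers of `mov_chain`**: the size `B` of the block and the distance `T` from the base. -/
theorem StepNum.mov_nums (h : StepNum κ C c₀ 𝔇.kap d n N) (hi : i + 1 ≤ N) (hC : 0 ≤ C)
    (hc : 0 ≤ c₀) {δ : ℝ} (hδ : 16 * κ ≤ δ) (ω : Cfg) (D : Dom) : ∃ B T : ℤ,
      Tru.rad C (unt d n) d (tst 𝔇 d n ω i).x.length ≤ B ∧
      unt d n * ((𝔇.gr d (tst 𝔇 d n ω i).x D).L * ((𝔇.gr d (tst 𝔇 d n ω i).x D).M + 1)) ≤ B ∧
      5 * wdN C d n N + 2 * (c₀ * Sc.ls d n (d i)) + 8 * unt d n + 16 ≤ ⌈κ / 4 * n⌉ ∧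
      T + B + 1 ≤ ⌊κ * n⌋ ∧ ⌈κ / 4 * n⌉ + B + 2 ≤ T ∧ 0 ≤ ⌈κ / 4 * n⌉ ∧
      ((⌈δ / 8 * n⌉ + T : ℤ) : ℝ) ≤ δ / 2 * n ∧ ((⌈κ / 4 * n⌉ + B + 2 : ℤ) : ℝ) ≤ δ / 2 * n := by
  obtain ⟨a1, a2, a3, a4, a5⟩ := h.nonneg (i := i) hC hc ω D
  have hg := h.gr' hi ω D
  have hf := h.far_ce (i := i) (by omega)
  have hw : 0 ≤ wdN C d n N := wdN_nonneg hC
  set X := unt d n * ((𝔇.gr d (tst 𝔇 d n ω i).x D).L * ((𝔇.gr d (tst 𝔇 d n ω i).x D).M + 1)) with hX
  have a5' : (0 : ℤ) ≤ unt d n := Int.natCast_nonneg _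
  have hB : ((X + Tru.rad C (unt d n) d (i + 1) + 16 : ℤ) : ℝ) ≤ κ / 16 * n := by
    refine le_trans ?_ hg
    exact_mod_cast (by linarith : X + Tru.rad C (unt d n) d (i + 1) + 16 ≤
      X + Tru.rad C (unt d n) d (i + 1) + c₀ * Sc.ls d n (d i) + gW d n i + 16)
  have h16 : (16 : ℝ) ≤ κ / 16 * n := by
    refine le_trans ?_ hB
    exact_mod_cast (by linarith : (16 : ℤ) ≤ X + Tru.rad C (unt d n) d (i + 1) + 16)
  have hn : (0 : ℝ) ≤ n := Nat.cast_nonneg n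
  have hδn : 16 * (κ * n) ≤ δ * n := by
    have := mul_le_mul_of_nonneg_right hδ hn
    linarith
  have c1 : ((⌈κ / 4 * n⌉ : ℤ) : ℝ) < κ / 4 * n + 1 := Int.ceil_lt_add_one _
  have c2 : ((⌈δ / 8 * n⌉ : ℤ) : ℝ) < δ / 8 * n + 1 := Int.ceil_lt_add_one _
  push_cast at hB
  refine ⟨X + Tru.rad C (unt d n) d (i + 1), ⌈κ / 4 * n⌉ + (X + Tru.rad C (unt d n) d (i + 1)) + 2,
    ?_, by linarith, by linarith, ?_, le_rfl, by linarith, ?_, ?_⟩
  · rw [tst_len]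
    linarith
  · rw [Int.le_floor]
    push_cast
    linarith
  · push_cast
    linarith
  · push_cast
    linarith

/-! ### All the sizes -/

/-- The magnified block. -/
theorem blk_real (h : d i ≤ d 0) :
    ((unt d n * (msh d i * (msz kap d i + 1)) : ℤ) : ℝ) ≤
      n / 2 ^ kap + 2 * ((Sc.ls d n (d i) : ℤ) : ℝ) := by
  have hu' : (unt d n : ℝ) ≤ n / 2 ^ d 0 := by
    rw [le_div_iff₀ (by positivity)]
    have := Nat.div_mul_le_self n (2 ^ d 0)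
    exact_mod_cast this
  have hls : (0 : ℝ) ≤ ((Sc.ls d n (d i) : ℤ) : ℝ) := by
    exact_mod_cast Sc.ls_nonneg d n (d i)
  have e1 : (unt d n : ℤ) * (msh d i * (msz kap d i + 1)) =
      unt d n * (msz kap d i * msh d i) + Sc.ls d n (d i) := by
    rw [Sc.ls_eq_msh]
    ring
  rw [e1, Int.cast_add]
  rcases le_total kap (d i) with hk | hk
  · have : ((unt d n * (msz kap d i * msh d i) : ℤ) : ℝ) ≤ n / 2 ^ kap := by
      unfold msz msh
      push_cast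
      calc (unt d n : ℝ) * ((2 : ℝ) ^ (d i - kap) * (2 : ℝ) ^ (d 0 - d i)) ≤
            n / 2 ^ d 0 * ((2 : ℝ) ^ (d i - kap) * (2 : ℝ) ^ (d 0 - d i)) :=
            mul_le_mul_of_nonneg_right hu' (by positivity)
        _ = n / 2 ^ kap := by
            rw [div_mul_eq_mul_div, div_eq_div_iff (by positivity) (by positivity), mul_assoc,
              ← pow_add, ← pow_add]
            congr 2
            omega
    linarith
  · have : (unt d n : ℤ) * (msz kap d i * msh d i) = Sc.ls d n (d i) := by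
      unfold msz
      rw [Nat.sub_eq_zero_of_le hk, pow_zero, one_mul, Sc.ls_eq_msh]
    rw [this]
    have : (0 : ℝ) ≤ n / 2 ^ kap := by positivity
    linarith

/-- **All the sizes of the stages up to `N`.** `κ n`: the radius at the base, `κ n / 4`: the distance of
the gates, `κ n / 2`: the distance of the tip and the base, `κ n / 16`: the size of the blocks and of the
radii. -/
structure Siz (κ δ : ℝ) (C c₀ : ℤ) (kap : ℕ) (d : ℕ → ℕ) (n N : ℕ) : Prop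
    extends StepNum κ C c₀ kap d n N where
  anti : ∀ i j, i ≤ j → j ≤ N → d j ≤ d i
  numO : ∀ i < N, NumO d n (i + 1) (Tru.rad C (unt d n) d (i + 1))
  wd : ∀ i ≤ N, Tru.rad C (unt d n) d i + 1 ≤ wdN C d n N
  radB : ∀ i ≤ N, Tru.rad C (unt d n) d i ≤ ⌊κ / 16 * n⌋
  blkB : ∀ i ≤ N, unt d n * (msh d i * (msz kap d i + 1)) ≤ ⌊κ / 16 * n⌋
  D1 : ∀ i ≤ N, 5 * wdN C d n N + 2 * (c₀ * Sc.ls d n (d i)) + 8 * unt d n + 16 ≤ ⌈κ / 4 * n⌉
  radR : ∀ i ≤ N, ((Tru.rad C (unt d n) d i + 1 : ℤ) : ℝ) ≤ δ / 2 * n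
  hT : ⌊κ / 2 * n⌋ + ⌊κ / 16 * n⌋ + 1 ≤ ⌊κ * n⌋
  hDT : ⌈κ / 4 * n⌉ + ⌊κ / 16 * n⌋ + 2 ≤ ⌊κ / 2 * n⌋
  D0 : 0 ≤ ⌈κ / 4 * n⌉
  hr1 : ((⌈δ / 8 * n⌉ + ⌊κ / 2 * n⌋ : ℤ) : ℝ) ≤ δ / 2 * n
  hr2 : ((⌈κ / 4 * n⌉ + ⌊κ / 16 * n⌋ + 2 : ℤ) : ℝ) ≤ δ / 2 * n

/-- **All the sizes**, for `kap` large, fine resolutions and large `n`. -/
theorem siz_ev {δ : ℝ} (hκ : 0 < κ) (hδ : 16 * κ ≤ δ) (hkap : 64 / κ ≤ 2 ^ kap) (hC : 0 ≤ C)
    (hc : 0 ≤ c₀) {a : ℕ} (ha : 16 * (9 * C + 6) ≤ 2 ^ a) (hG : ∀ i e, e + a ≤ G i e) (N : ℕ) :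
    ∃ ℓ₀ : ℕ, ∀ d : ℕ → ℕ, ℓ₀ ≤ d N → (chD 𝔇 G Bd).Gro N d → ∀ᶠ n in atTop,
      Siz κ δ C c₀ kap d n N := by
  have ha0 : 0 < a := by
    by_contra hcon
    obtain rfl : a = 0 := by omega
    rw [pow_zero] at ha
    linarith
  have hG' : ∀ i e, e < G i e := fun i e => by
    have := hG i e
    omega
  obtain ⟨ℓ₁, h1⟩ := stepNum_ev (𝔇 := 𝔇) (Bd := Bd) hκ hkap hC hc hG' N
  obtain ⟨ℓ₂, h2⟩ := ls_small (𝔇 := 𝔇) (Bd := Bd) (A := 3 * C + 3) (by linarith) hG'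
    (show (0 : ℝ) < κ / 64 by positivity) N
  refine ⟨max ℓ₁ ℓ₂, fun d hd hgr => ?_⟩
  have hdec : Sc.Dec d N := ChnD.Gro.dec hG' hgr
  filter_upwards [h1 d (by omega) hgr, h2 d (by omega) hgr] with n g1 g2
  have hn : (0 : ℝ) ≤ n := Nat.cast_nonneg n
  have hκn : (0 : ℝ) ≤ κ * n := by positivity
  have hδn : 16 * (κ * n) ≤ δ * n := by
    have := mul_le_mul_of_nonneg_right hδ hn
    linarith
  have h256 : (256 : ℝ) ≤ κ * n := by
    have k1 := g1.far N le_rfl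
    have k2 : 0 ≤ wdN C d n N := wdN_nonneg hC
    have k3 : 0 ≤ c₀ * Sc.ls d n (d N) := mul_nonneg hc (Sc.ls_nonneg _ _ _)
    have k4 : (0 : ℤ) ≤ unt d n := Int.natCast_nonneg _
    have k5 : (16 : ℝ) ≤ κ / 16 * n := by
      refine le_trans ?_ k1
      exact_mod_cast (by linarith : (16 : ℤ) ≤
        5 * wdN C d n N + 2 * (c₀ * Sc.ls d n (d N)) + 8 * unt d n + 16)
    linarith
  have hrad : ∀ i ≤ N, ((Tru.rad C (unt d n) d i + 1 : ℤ) : ℝ) ≤ κ / 64 * n := by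
    intro i hi
    have k1 : Tru.rad C (unt d n) d i ≤ Tru.rad C (unt d n) d (i + 1) :=
      rad_mono hC _ _ (Nat.le_succ i)
    have k2 := rad_le_ls (n := n) hC hdec hi
    have k3 : (0 : ℤ) ≤ Sc.ls d n (d i) := Sc.ls_nonneg _ _ _
    refine le_trans ?_ (g2 i hi)
    exact_mod_cast (by linarith : Tru.rad C (unt d n) d i + 1 ≤
      (3 * C + 3) * Sc.ls d n (d i) + (3 * C + 3))
  have c1 : ((⌈κ / 4 * n⌉ : ℤ) : ℝ) < κ / 4 * n + 1 := Int.ceil_lt_add_one _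
  have c2 : ((⌈δ / 8 * n⌉ : ℤ) : ℝ) < δ / 8 * n + 1 := Int.ceil_lt_add_one _
  have c3 : ((⌊κ / 16 * n⌋ : ℤ) : ℝ) ≤ κ / 16 * n := Int.floor_le _
  have c4 : ((⌊κ / 2 * n⌋ : ℤ) : ℝ) ≤ κ / 2 * n := Int.floor_le _
  refine { g1 with
    anti := fun i j hij hj => hdec.anti j hj i hij
    numO := fun i hi => ?_
    wd := fun i hi => ?_
    radB := fun i hi => ?_
    blkB := fun i hi => ?_
    D1 := fun i hi => ?_
    radR := fun i hi => ?_
    hT := ?_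
    hDT := ?_
    D0 := ?_
    hr1 := ?_
    hr2 := ?_ }
  · have hR : NumR a d n (N - 1) := ⟨g1.un, fun j hj => (hG j _).trans (hgr j (by omega))⟩
    exact hR.numO hC ha (by omega)
  · have k1 : Tru.rad C (unt d n) d i ≤ Tru.rad C (unt d n) d (i + 1) :=
      rad_mono hC _ _ (Nat.le_succ i)
    have k2 := rad_le_wdN hC g1.un hdec hi
    linarith
  · rw [Int.le_floor]
    have k1 := hrad i hi
    push_cast at k1
    linarith
  · rw [Int.le_floor]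
    have k0 : d i ≤ d 0 := hdec.anti i hi 0 (by omega)
    have k1 := blk_real (n := n) (kap := kap) k0
    have k2 := g2 i hi
    have hkn : (n : ℝ) / 2 ^ kap ≤ κ / 64 * n := by
      have h64 : (0 : ℝ) < 64 / κ := by positivity
      calc (n : ℝ) / 2 ^ kap ≤ n / (64 / κ) := div_le_div_of_nonneg_left hn h64 hkap
        _ = κ / 64 * n := by
          rw [div_div_eq_mul_div]
          ring
    have k3 : 2 * ((Sc.ls d n (d i) : ℤ) : ℝ) ≤ κ / 64 * n := by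
      refine le_trans ?_ k2
      have k4 : (0 : ℤ) ≤ Sc.ls d n (d i) := Sc.ls_nonneg _ _ _
      have k5 : (0 : ℤ) ≤ C * Sc.ls d n (d i) := mul_nonneg hC k4
      exact_mod_cast (by linarith : 2 * Sc.ls d n (d i) ≤ (3 * C + 3) * Sc.ls d n (d i) + (3 * C + 3))
    linarith
  · have k1 := g1.far_ce hi
    have k2 : 0 ≤ wdN C d n N := wdN_nonneg hC
    have k3 : 0 ≤ c₀ * Sc.ls d n (d i) := mul_nonneg hc (Sc.ls_nonneg _ _ _)
    have k4 : (0 : ℤ) ≤ unt d n := Int.natCast_nonneg _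
    linarith
  · have k1 := hrad i hi
    linarith
  · rw [Int.le_floor]
    push_cast
    linarith
  · rw [Int.le_floor]
    push_cast
    linarith
  · exact Int.ceil_nonneg (by positivity)
  · push_cast
    linarith
  · push_cast
    linarith

end Pool.Agent.SixB.StepN
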