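import Pool.Agent.Lib.SixB.S8NearBs
import Pool.Agent.Lib.SixB.S8RareK
import Pool.Agent.Lib.SixB.S8OutPer
import Pool.Agent.Lib.SixB.S8DispMov
import Pool.Agent.Lib.SixB.S8StepNum
import Pool.Agent.Lib.SixB.S8StepTr

/-!
# Step 8: the row `step`, composition

* `RowEv.mono_G`, `SmallW.mono_G`: growth functions;
* `EnvS.no_gate`: no gates in a stage, from the hooks (`HkI`) and no new gates (`EnvS`);
* `StH`: what is known in a stage; `StPc`: the pieces: entrance stage, moves, last stage;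
* `rowStep_core`: **the row `step`** from the pieces;
* `StH.mov`: the piece `mov` from `mov_chain`.
-/

set_option autoImplicit false

namespace Pool.Agent.SixB.Tru

open Finset Filter Topology Pool.Agent.Perc Pool.Agent.PercT Pool.Agent.PercX60
open Pool.Agent.SixB Pool.Agent.SixB.Rule Pool.Agent.SixB.Dct Pool.Agent.SixB.Mv
open Pool.Agent.SixB.Tps Pool.Agent.SixB.Out Pool.Agent.SixB.NM Pool.Agent.SixB.Near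
open Pool.Agent.SixB.NearCut (Nb)
open Pool.Agent.SixB.Blow (subE)
open Pool.Agent.Perc6.C2Aux

/-! ### Growth functions -/

theorem RowEv.mono_G {𝔇 : Dat} {G G' : ℕ → ℕ → ℕ} {Bd : (ℕ → ℕ) → ℕ → ℕ → Set Cfg} {ε : ℝ}
    {P : (ℕ → ℕ) → ℕ → ℕ → Cfg → Prop} (h : ∀ l e, G l e ≤ G' l e) (H : RowEv 𝔇 G Bd ε P) :
    RowEv 𝔇 G' Bd ε P := by
  intro N
  obtain ⟨ℓ₀, hℓ⟩ := H N
  exact ⟨ℓ₀, fun d k1 k2 => hℓ d k1 (gro_mono h k2)⟩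

theorem SmallW.mono_G {𝔇 : Dat} {G G' : ℕ → ℕ → ℕ} {Bd : (ℕ → ℕ) → ℕ → ℕ → Set Cfg}
    {w : (ℕ → ℕ) → ℕ → ℕ → ℤ} (h : ∀ l e, G l e ≤ G' l e) (H : SmallW 𝔇 G Bd w) :
    SmallW 𝔇 G' Bd w := by
  intro κ hκ N
  obtain ⟨ℓ₀, hℓ⟩ := H κ hκ N
  exact ⟨ℓ₀, fun d k1 k2 => hℓ d k1 (gro_mono h k2)⟩

/-! ### The gates -/

/-- **No gates in a stage.** -/
theorem EnvS.no_gate {Bs : Ex → Cfg → ℤ → ℤ → Prop} {d : ℕ → ℕ} {n i K t : ℕ} {c₀ : ℤ} {s : TS}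
    {x : Rule.Ndl} {wd D₁ ρ R : ℤ} {ω : Cfg} {z : ℤ × ℤ} (h : EnvS Bs s x wd D₁ ρ R ω)
    (hu : 0 < unt d n) (hk : HkI c₀ K d n i s ω) (hx : s.q = some x)
    (hD : 5 * wd + 2 * (c₀ * Sc.ls d n (d i)) + 8 * unt d n + 16 ≤ D₁)
    (hn : Nb (cfS s.V x ω) (Tru.eS s.V x) t) (h1 : fa (Tru.eS s.V x) ∉ Bx z D₁)
    (h2 : fa (pS s.V x ω t) ∉ Bx z D₁) : ¬ (exS s.V x).Gate ω t z wd := fun hg =>
  hk.not_gate hu hx hD h1 (h.gate t z hn h1 h2 hg)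

/-! ### The pieces -/

/-- What is known in a stage `i` with a running domain `D` and a running needle `q`: the sizes `S`, the
good events up to the stage `N`, no transition event `Tr`, the environment of the strand. -/
structure StH (Bs : Ex → Cfg → ℤ → ℤ → Prop) (I : InvP) (𝔇 : Dat)
    (wd : (ℕ → ℕ) → ℕ → ℕ → ℤ) (Tr : EvF) (S : (ℕ → ℕ) → ℕ → ℕ → Prop) (κ δ : ℝ) (d : ℕ → ℕ)
    (n N i : ℕ) (ω : Cfg) (D : Dom) (q : Rule.Ndl) : Prop where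
  sz : S d n N
  gd : Gd (BdI I 𝔇) N d n ω
  tr : ∀ l < N, ω ∉ Tr d n l
  lt : i + 1 < N
  run : (𝔇.cs d (tst 𝔇 d n ω i).x).run = some D
  hq : (tst 𝔇 d n ω i).q = some q
  env : EnvS Bs (tst 𝔇 d n ω i) q (wd d n N) ⌈κ / 4 * n⌉ ⌊κ * n⌋ ⌈δ / 8 * n⌉ ω

/-- **The pieces of the row `step`**: the entrance stage, a move which is not the last one, the last
stage. `S`: the sizes, `wd`: the width of the gates, `Tr`: the transition events. -/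
structure StPc (Bs : Ex → Cfg → ℤ → ℤ → Prop) (I : InvP) (𝔇 : Dat)
    (wd : (ℕ → ℕ) → ℕ → ℕ → ℤ) (Tr : EvF) (S : (ℕ → ℕ) → ℕ → ℕ → Prop) (κ δ : ℝ) : Prop where
  ini : ∀ {d n N i ω D q}, StH Bs I 𝔇 wd Tr S κ δ d n N i ω D q →
    (𝔇.cs d (tst 𝔇 d n ω i).x).ini = true → (tst 𝔇 d n ω i).t = 0 →
      ∀ t ≤ staT n (unt d n) (tst 𝔇 d n ω i).V q D.B ω,
        NearR d n ω (δ / 2 * n) (tst 𝔇 d n ω i).V q D.tip t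
  mov : ∀ {d n N i ω D q}, StH Bs I 𝔇 wd Tr S κ δ d n N i ω D q →
    (𝔇.cs d (tst 𝔇 d n ω i).x).ini = false → ¬ D.Void (𝔇.gr d (tst 𝔇 d n ω i).x D) →
      (𝔇.cs d (tst 𝔇 d n ω (i + 1)).x).run.isSome = true →
        ∀ t, (tst 𝔇 d n ω i).t ≤ t →
          t ≤ stopT n (unt d n) (tst 𝔇 d n ω i) q D (𝔇.gr d (tst 𝔇 d n ω i).x D) ω →
            NearR d n ω (δ / 2 * n) (tst 𝔇 d n ω i).V q D.tip t
  last : ∀ {d n N i ω D q}, StH Bs I 𝔇 wd Tr S κ δ d n N i ω D q →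
    (𝔇.cs d (tst 𝔇 d n ω i).x).ini = false → (𝔇.cs d (tst 𝔇 d n ω (i + 1)).x).run = none →
      (tst 𝔇 d n ω i).t ≤ perS n ω (tst 𝔇 d n ω i).V q ∧
      ∀ t, (tst 𝔇 d n ω i).t ≤ t → t ≤ perS n ω (tst 𝔇 d n ω i).V q →
        NearR d n ω (δ / 2 * n) (tst 𝔇 d n ω i).V q D.tip t

/-- The sizes which the composition needs. -/
structure SzB (C : ℤ) (δ : ℝ) (d : ℕ → ℕ) (n N : ℕ) : Prop where
  unt : 0 < unt d n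
  anti : ∀ i j, i ≤ j → j ≤ N → d j ≤ d i
  rad : ∀ i ≤ N, ((rad C (Tru.unt d n) d i + 1 : ℤ) : ℝ) ≤ δ / 2 * n

section core

variable {Bs : Ex → Cfg → ℤ → ℤ → Prop} {C c₀ : ℤ} {K : ℕ} {J : InvP} {𝔇 : Dat} {G : ℕ → ℕ → ℕ}
  {Tr : EvF} {S : (ℕ → ℕ) → ℕ → ℕ → Prop} {wd : (ℕ → ℕ) → ℕ → ℕ → ℤ} {κ δ ε : ℝ} {d : ℕ → ℕ}
  {n N i j : ℕ} {ω : Cfg}

/-- The true needle is there. -/
theorem rowQ_invA : RowQ 𝔇 (BdI (InvA C c₀ K J 𝔇) 𝔇) := by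
  intro d n i ω hω hr
  obtain ⟨D, hD⟩ := Option.isSome_iff_exists.1 hr
  obtain ⟨q, hq⟩ := (notMem_bdI.1 hω).1.2.1 D hD
  rw [hq]
  rfl

/-- All the needles up to a good stage have few pieces. -/
theorem nds_invA (hc : 0 ≤ c₀) (hu : 0 < unt d n) (hd : ∀ i j, i ≤ j → j ≤ N → d j ≤ d i)
    (hg : Gd (BdI (InvA C c₀ K J 𝔇) 𝔇) N d n ω) (hi : i < N)
    (hj : j < TruR.cnt 𝔇 d (tst 𝔇 d n ω i)) :
    Nds n (TruR.ruleT 𝔇 d n) (c₀ * Sc.ls d n (d N)) 2 j ω := by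
  have h1 := nds_of (𝔇 := 𝔇) (d := d) (n := n) (ω := ω) (m := i) (j := j) hc
    (fun l hl => hd l i hl hi.le)
    (fun l hl => ((notMem_bdI.1 (hg l (by omega))).1.2.2.2.1).ndI hu) hj
  intro l hl q hq
  exact NdC.NdOK.mono (h1 l hl q hq) (mul_ls_mono hc (hd i N hi.le le_rfl)) le_rfl

/-- The strand stays near the tips, one configuration. -/
theorem nearT_of_pc (hB : BsExt Bs) (hc : 0 ≤ c₀) (hz : SzB C δ d n N) (hS : S d n N)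
    (P : StPc Bs (InvA C c₀ K J 𝔇) 𝔇 wd Tr S κ δ)
    (hg : Gd (BdI (InvA C c₀ K J 𝔇) 𝔇) N d n ω)
    (H : GoodB Bs 𝔇 d n N 2 (c₀ * Sc.ls d n (d N)) (wd d n N) ⌈κ / 4 * n⌉ ⌊κ * n⌋ ⌈δ / 8 * n⌉
      (fun l => Tr d n l) ω) : NearT 𝔇 d n N (δ / 2 * n) ω := by
  refine nearT_pieces H hB (fun i hi j hj => nds_invA hc hz.unt hz.anti hg (by omega) hj)
    (fun i hi D q h1 h2 h3 h4 h5 => P.ini ⟨hS, hg, H.tran, hi, h1, h3, h4⟩ h2 h5)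
    (fun i hi D q h1 h2 h3 _ => ?_)
    (fun i hi D q h1 h2 h3 h4 _ h6 h7 => P.mov ⟨hS, hg, H.tran, hi, h1, h3, h4⟩ h2 h6 h7)
    fun i hi D q h1 h2 h3 h4 _ h6 => P.last ⟨hS, hg, H.tran, hi, h1, h3, h4⟩ h2 h6
  have h4 : RunVI C 𝔇 d n i (tst 𝔇 d n ω i) ω := (notMem_bdI.1 (hg i (by omega))).1.1
  refine nearR_runV h4 h3 h1 h2 ?_
  rw [tst_len]
  exact hz.rad (i + 1) (by omega)

/-- **The row `step`** from the pieces. The constants are chosen in the order `m`, `δ`, `ε`, `κ`,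
data. -/
theorem rowStep_core (hBs : BaseAll Bs) (hB : BsExt Bs) (m : ℕ) {δ ε : ℝ} (hδ : 0 < δ) (hε : 0 < ε) :
    ∃ κ₀ : ℝ, 0 < κ₀ ∧ ∀ κ : ℝ, 0 < κ → κ ≤ κ₀ → ∀ (𝔇 : Dat) (G : ℕ → ℕ → ℕ) (C c₀ : ℤ) (K : ℕ)
      (J : InvP) (wd : (ℕ → ℕ) → ℕ → ℕ → ℤ) (Tr : EvF) (S : (ℕ → ℕ) → ℕ → ℕ → Prop), 𝔇.m = m →
      0 ≤ c₀ → SmallW 𝔇 G (BdI (InvA C c₀ K J 𝔇) 𝔇) (fun d n N => c₀ * Sc.ls d n (d N)) →
      SmallW 𝔇 G (BdI (InvA C c₀ K J 𝔇) 𝔇) wd →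
      (∀ η : ℝ, 0 < η → RowEv 𝔇 G (BdI (InvA C c₀ K J 𝔇) 𝔇) η fun d n N ω => ∀ l < N,
        ω ∉ Tr d n l) →
      (∀ N : ℕ, ∃ ℓ₀ : ℕ, ∀ d : ℕ → ℕ, ℓ₀ ≤ d N → (chD 𝔇 G (BdI (InvA C c₀ K J 𝔇) 𝔇)).Gro N d →
        ∀ᶠ n in atTop, S d n N ∧ SzB C δ d n N) →
      StPc Bs (InvA C c₀ K J 𝔇) 𝔇 wd Tr S κ δ →
      RowStep 𝔇 G (BdI (InvA C c₀ K J 𝔇) 𝔇) (fun d n => TruR.ruleT 𝔇 d n) (tipsT 𝔇) δ ε := by
  obtain ⟨κ₀, hκ₀, h⟩ := nearT_row hBs m 2 hδ hε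
  refine ⟨κ₀, hκ₀, fun κ hκ hκ' 𝔇 G C c₀ K J wd Tr S hm hc hC hwd hTr hS P => ?_⟩
  refine stepOut_row hδ rowQ_invA (h κ hκ hκ' 𝔇 G _ (fun d n N => c₀ * Sc.ls d n (d N)) wd
    (fun d n l _ => Tr d n l) (fun d n N => S d n N ∧ SzB C δ d n N) hm hC hwd hTr hS ?_)
  rintro d n N ω hg - ⟨h1, h2⟩ h3
  exact nearT_of_pc hB hc h2 h1 P hg h3

end core

/-! ### The sizes -/

section sz

variable {C c₀ : ℤ} {K kap : ℕ} {J : InvP} {𝔇 : Dat} {Tr : EvF} {κ δ : ℝ} {d : ℕ → ℕ}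
  {n N i : ℕ} {ω : Cfg} {D : Dom} {q : Rule.Ndl}

theorem szB_of (h : StepN.Siz κ δ C c₀ kap d n N) : SzB C δ d n N := ⟨h.un, h.anti, h.radR⟩

/-! ### The moves -/

/-- **The piece `mov`.** `haway`: the strand is next to the inner part of the domain as long as there are
no gates at its contour. -/
theorem StH.mov (hJ : ∀ s, J d n i s ω → NbI C 𝔇 d n i s ω)
    (hTr : ∀ l, ω ∉ Tr d n l → ω ∉ Dead C 𝔇 d n l)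
    (H : StH Tru.Bs (InvA C c₀ K J 𝔇) 𝔇 (StepN.wdN C) Tr (StepN.Siz κ δ C c₀ 𝔇.kap) κ δ d n N i
      ω D q)
    (hi : (𝔇.cs d (tst 𝔇 d n ω i).x).ini = false) (hv : ¬ D.Void (𝔇.gr d (tst 𝔇 d n ω i).x D))
    (haway : ∀ κ m x i₁ j₁ t₀ j₂ i₂ σ,
      RunI 𝔇 d n (rad C (unt d n) d (tst 𝔇 d n ω i).x.length) (tst 𝔇 d n ω i) ω q D κ m x
        i₁ j₁ t₀ j₂ i₂ →
      D.regS (𝔇.gr d (tst 𝔇 d n ω i).x D) (unt d n) (uS (tst 𝔇 d n ω i) q ω) κ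
        (pS (tst 𝔇 d n ω i).V q ω (tst 𝔇 d n ω i).t) (cfS (tst 𝔇 d n ω i).V q ω) σ →
      ∀ t, (tst 𝔇 d n ω i).t ≤ t → t < (tst 𝔇 d n ω i).t + σ →
      Nb (cfS (tst 𝔇 d n ω i).V q ω) (Tru.eS (tst 𝔇 d n ω i).V q) t →
      (∀ j, ¬ (exS (tst 𝔇 d n ω i).V q).Gate ω t (vert (blow (unt d n : ℤ)
        (D.inr (𝔇.gr d (tst 𝔇 d n ω i).x D))) (subE (unt d n) D.A 0) j) (StepN.wdN C d n N)) →
      ∃ f ∈ blow (unt d n : ℤ) (D.inr (𝔇.gr d (tst 𝔇 d n ω i).x D)),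
        Ndle.sd (ua (pS (tst 𝔇 d n ω i).V q ω t)) f ≤ 2) :
    ∀ t, (tst 𝔇 d n ω i).t ≤ t →
      t ≤ stopT n (unt d n) (tst 𝔇 d n ω i) q D (𝔇.gr d (tst 𝔇 d n ω i).x D) ω →
        NearR d n ω (δ / 2 * n) (tst 𝔇 d n ω i).V q D.tip t := by
  have hlt := H.lt
  have hI := (notMem_bdI.1 (H.gd i (by omega))).1
  have hb : (unt d n : ℤ) * ((𝔇.gr d (tst 𝔇 d n ω i).x D).L *
      ((𝔇.gr d (tst 𝔇 d n ω i).x D).M + 1)) = unt d n * (msh d (tst 𝔇 d n ω i).x.length *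
        (msz 𝔇.kap d (tst 𝔇 d n ω i).x.length + 1)) := rfl
  refine mov_chain (C := C) (c₀ := c₀) (K := K) (B := ⌊κ / 16 * n⌋) (T := ⌊κ / 2 * n⌋) H.hq H.run
    hi hv (hTr i (H.tr i (by omega))) (hJ _ hI.2.2.2.2) hI.2.2.2.1 ?_ H.env haway ?_ ?_
    (H.sz.D1 i (by omega)) H.sz.hT H.sz.hDT H.sz.D0 H.sz.hr1 H.sz.hr2
  · rw [tst_len]
    exact H.sz.numO i (by omega)
  · rw [tst_len]
    exact H.sz.radB (i + 1) (by omega)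
  · rw [hb, tst_len]
    exact H.sz.blkB (i + 1) (by omega)

end sz

end Pool.Agent.SixB.Tru
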