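import Pool.Agent.Lib.SixB.S8LawT
import Pool.Agent.Lib.SixB.S8ChainA
import Pool.Agent.Lib.SixB.S8ChainRow
import Pool.Agent.Lib.SixB.S8Grow
import Pool.Agent.Lib.SixB.S8RareR
import Pool.Agent.Lib.SixB.S8StartBt
import Pool.Agent.Lib.SixB.S8KeptU
import Pool.Agent.Lib.SixB.S8CountRowD
import Pool.Agent.Lib.SixB.S8FinW
import Pool.Agent.Lib.SixB.S8StepFin
import Pool.Agent.Lib.SixB.S8SideR2

/-!
# Step 8: the instance of `Deliv`

Order of the choices: `r`, `ε`, then `δ = min (r / 8) (ε / 8)`, then `K`, then `kap` (large for `RowStep`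
and the side, `8 K ≤ 2 ^ kap`), then `C = 256`, `a = 512 K + 45`, then the growth function `G`, the maximum
over all the rows.

* `GrC`: the growth functions which are admitted;
* `RowIn`: **the open inputs**;
* `deliv_of`: all the rows for the official data `datC K kap` and the official invariant `IC K kap C`;
* `claim1_of_rowIn`: **claim 1** from `CAOut` (block CA) and `RowIn`.
-/

set_option autoImplicit false

namespace Pool.Agent.SixB.Tru

open Filter Finset Topology Pool.Agent.Perc Pool.Agent.PercT Pool.Agent.PercX60 Pool.Agent.PercD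
open Pool.Agent.SixB Pool.Agent.SixB.Rule Pool.Agent.SixB.Dct Pool.Agent.SixB.Mv
open Pool.Agent.SixB.Cov (datC)

/-- **The admitted growth functions**: the numbers `C`, `K` are small compared with `2 ^ a`, and the
resolutions grow by at least `a`. -/
structure GrC (C : ℤ) (K a : ℕ) (G : ℕ → ℕ → ℕ) : Prop where
  hC : 256 ≤ C
  hK : 0 < K
  ha : 16 * (9 * C + 6) ≤ 2 ^ a
  haK : 512 * K ≤ 2 ^ a
  ha45 : 45 ≤ a
  hG : ∀ i e, e + a ≤ G i e

theorem GrC.mono {C : ℤ} {K a : ℕ} {G G' : ℕ → ℕ → ℕ} (h : GrC C K a G)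
    (hG : ∀ i e, G i e ≤ G' i e) : GrC C K a G' :=
  ⟨h.hC, h.hK, h.ha, h.haK, h.ha45, fun i e => (h.hG i e).trans (hG i e)⟩

/-- The bad events, official data. -/
abbrev BdC (K kap : ℕ) (C : ℤ) : (ℕ → ℕ) → ℕ → ℕ → Set Cfg := BdI (IC K kap C) (datC K kap)

/-- `P G''` for all growth functions `G''` from some `G' ≥ G` on. -/
def EvG (G : ℕ → ℕ → ℕ) (P : (ℕ → ℕ → ℕ) → Prop) : Prop :=
  ∃ G' : ℕ → ℕ → ℕ, (∀ i e, G i e ≤ G' i e) ∧
    ∀ G'' : ℕ → ℕ → ℕ, (∀ i e, G' i e ≤ G'' i e) → P G''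

theorem EvG.and {G : ℕ → ℕ → ℕ} {P Q : (ℕ → ℕ → ℕ) → Prop} (hP : EvG G P) (hQ : EvG G Q) :
    EvG G fun G' => P G' ∧ Q G' := by
  obtain ⟨G₁, h1, h2⟩ := hP
  obtain ⟨G₂, h3, h4⟩ := hQ
  exact ⟨gmx G₁ G₂, fun i e => (h1 i e).trans (left_gmx i e), fun G'' h5 =>
    ⟨h2 _ fun i e => (left_gmx i e).trans (h5 i e), h4 _ fun i e => (right_gmx i e).trans (h5 i e)⟩⟩

/-- **The open inputs of the instance**, for one `K`, `δ`, `ε`. -/
structure RowIn (K : ℕ) (δ ε : ℝ) : Prop where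
  /-- the row `step` (`S8StepEnd`, helper68) -/
  step : ∃ kap₀ : ℕ, ∀ {kap a : ℕ} {C : ℤ} {G : ℕ → ℕ → ℕ}, kap₀ ≤ kap → GrC C K a G →
    SmY G (BdC K kap C) (YK (datC K kap)) → EvG G fun G' => RowStep (datC K kap) G' (BdC K kap C)
      (fun d n => TruR.ruleT (datC K kap) d n) (tipsT (datC K kap)) δ (ε / 8)
  /-- the statement about one side (`S8SideI`, `S8SideJ`, helper17, helper53) -/
  side : ∃ kap₀ : ℕ, ∀ {kap a : ℕ} {C : ℤ} {G : ℕ → ℕ → ℕ}, kap₀ ≤ kap → GrC C K a G →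
    Fin8.SideXD K kap a C

/-- The invariant of the chain contains what the row `fin` needs. -/
theorem finInv_IC {K kap : ℕ} {C : ℤ} (hC : 256 ≤ C) :
    Fin8.FinInv C (datC K kap) (IC K kap C) where
  C1 := by omega
  run h := h.1
  q h := h.2.1
  bas h := h.2.2.1
  w h := h.2.2.2.2.1

/-- **All the rows**, official data. -/
theorem deliv_of {K : ℕ} {r ε : ℝ} (hε : 0 < ε) (hK : 0 < K)
    (H : RowIn K (min (r / 8) (ε / 8)) ε) : Nonempty (Deliv K r ε) := by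
  obtain ⟨k₁, hstep⟩ := H.step
  obtain ⟨k₂, hside⟩ := H.side
  obtain ⟨kap, hkap⟩ : ∃ kap : ℕ, kap = max (max k₁ k₂) (8 * K) := ⟨_, rfl⟩
  have hk1 : k₁ ≤ kap := by omega
  have hk2 : k₂ ≤ kap := by omega
  have hk3 : 8 * K ≤ 2 ^ kap := le_trans (by omega) Nat.lt_two_pow_self.le
  obtain ⟨a, ha⟩ : ∃ a : ℕ, a = 512 * K + 45 := ⟨_, rfl⟩
  have hg₀ : GrC 256 K a fun _ e => e + a := by
    refine ⟨le_rfl, hK, ?_, ?_, by omega, fun _ _ => le_rfl⟩
    · have h1 : (2 : ℤ) ^ 45 ≤ 2 ^ a := pow_le_pow_right₀ (by norm_num) (by omega)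
      exact le_trans (by norm_num) h1
    · exact le_trans (by omega) Nat.lt_two_pow_self.le
  obtain ⟨G₁, g1, h2⟩ : EvG _ fun G' => SmY G' (BdC K kap 256) (YK (datC K kap)) :=
    smY_yk hg₀.hC hg₀.hK hg₀.ha hg₀.haK hg₀.ha45 hg₀.hG
  have hg₁ := hg₀.mono g1
  have hY := h2 _ fun _ _ => le_rfl
  -- the growth function: every row from some `G` on
  have e1 : EvG G₁ fun G' => RowRare (datC K kap) G' (BdC K kap 256) :=
    rowRare_of_yk hg₁.hC hg₁.hK hg₁.ha hg₁.haK hg₁.ha45 hg₁.hG hY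
  have e2 : EvG G₁ fun G' => RowCnt (datC K kap) G' (BdC K kap 256) :=
    CntZ.rowCnt_datC hg₁.hC hg₁.ha hg₁.hG
  have e3 := hstep hk1 hg₁ hY
  have e4 : EvG G₁ fun G' => ∀ ε : ℝ, 0 < ε → Fin8.RowStgS K kap G' (BdC K kap 256) ε :=
    Fin8.rowStgS_of hK hg₁.hC (by have := hg₁.ha45; omega) hg₁.hG (hside hk2 hg₁)
  obtain ⟨G, g2, h3⟩ := (e1.and e2).and (e3.and e4)
  obtain ⟨⟨hrare, hcnt⟩, hst, hsg⟩ := h3 G fun _ _ => le_rfl
  have hg := hg₁.mono g2
  have hG4 : ∀ i x, x + 4 ≤ G i x := fun i x => by have := hg.hG i x; have := hg.ha45; omega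
  have hε' : 0 < ε / 16 := by positivity
  have hfin : RowFin (datC K kap) G (BdC K kap 256) (fun d n => TruR.ruleT (datC K kap) d n) r
      (ε / 8) := by
    have h := Fin8.rowFin_of hK hG4 (Fin8.rowStgA_of (finInv_IC (kap := kap) (K := K) hg.hC) hK hk3 hG4
      hε') (hsg _ hε') r
    have e : ε / 16 + ε / 16 = ε / 8 := by ring
    rwa [e] at h
  exact ⟨{
    D := datC K kap
    hK := rfl
    G := G
    Bd := BdC K kap 256
    tips := tipsT (datC K kap)
    δ := min (r / 8) (ε / 8)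
    hδ := min_le_left _ _
    hδε := by have := min_le_right (r / 8) (ε / 8); linarith
    mem := fun d n i ω => recS_mem ω i
    tst := rowTst _
    stop := rowStop _
    grow := rowGrow _
    bad := rowBad iC_dec (rowTst _)
    init := fun d n ω => recS_zero ω
    loc := rowLoc _
    tip := fun d n m ω => tipOK _ ω
    rare := hrare
    est := rowEst_datC hg.hC fun i e => by have := hg.hG i e; have := hg.ha45; omega
    cnt := hcnt
    step := hst
    fin := hfin }⟩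

/-- **Claim 1** from block CA and the open inputs. -/
theorem claim1_of_rowIn (hCA : CAOut)
    (H : ∀ δ ε : ℝ, 0 < δ → 0 < ε → ∃ K₀ : ℕ, ∀ K, K₀ ≤ K → RowIn K δ ε) : Claim1 := by
  refine claim1_of_rows hCA fun r ε hr hε => ?_
  obtain ⟨K₀, hK₀⟩ := H (min (r / 8) (ε / 8)) ε (lt_min (by positivity) (by positivity)) hε
  exact ⟨max K₀ 1, fun K hK => deliv_of hε (by omega) (hK₀ K (by omega))⟩

end Pool.Agent.SixB.Tru
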