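import Pool.Agent.Lib.SixB.S8Main
import Pool.Agent.Lib.SixB.S8Out
import Pool.Agent.Lib.SixB.S8ScanEx

/-!
# Step 8: the output row of the chain

`chnOut_of`: the output row `ChnOut` of the chain of moves from a deterministic statement about one
configuration outside of the bad events: the grid points are finished, and in every step of the scan the
corner walk around the cluster of the needle follows the tips which are read off from the history.

`fol_of_stages`: the tips of a step as the tips of consecutive stages of the chain.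
`stepOut_of_strand`: the same from the strand of the exploration `exR n R j` in the face grid.
-/

set_option autoImplicit false

namespace Pool.Agent.SixB.Out

open Filter Topology Pool.Agent.Perc Pool.Agent.PercD Pool.Agent.SixB.Rule
open Pool.Agent.PercU (Cor vtx fce nxt nxtE qry)
open Pool.Agent.MP_6bd702.H23 (Ed)
open PercX60 (Sn gV)

/-- The step `j` of the scan in the configuration `T`, seen from the history: either there is no
needle and no output, or the corner walk around the cluster of the needle follows the tips `L`. -/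
def StepOut (n : ℕ) (R : Rul) (T : Finset Edg) (j : ℕ) (δ : ℝ) : Option (ℂ × List ℂ) → Prop
  | none => R j T = none
  | some p => ∃ (q : Ndl) (k : Cor) (t : ℕ → ℕ), R j T = some q ∧
      Fol n (cfQ T (stR n R T j) q) q.2 k p.1 p.2 t δ

/-- The output of a step. -/
theorem stepOut_rule {n h : ℕ} (hn : 0 < n) {R : Rul} (hR : RulOK n h R) {T : Finset Edg}
    (hT : T ⊆ boxE n) {j : ℕ} {δ r ε : ℝ} (hr : 0 < r) (hδ : δ ≤ r / 8)
    (hε : 4 * δ + 2 / n ≤ ε) {o : Option (ℂ × List ℂ)} (h : StepOut n R T j δ o) :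
    (MacR (2 * r * n) n R T j → ∃ u, o.bind (fun p => outF r p.1 p.2) = some u) ∧
      ∀ u, o.bind (fun p => outF r p.1 p.2) = some u →
        MacR (r * n) n R T j ∧ dist u (crvR n R T j) ≤ ε := by
  cases o with
  | none =>
    have h' : R j T = none := h
    refine ⟨?_, fun u hu => ?_⟩
    · rintro ⟨q, hq, -⟩
      rw [h'] at hq
      cases hq
    · rw [Option.bind_none] at hu
      cases hu
  | some p =>
    obtain ⟨q, k, t, hq, hf⟩ := h
    have h1 := outF_rule hn hR hT hq hf hδ hr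
    rw [Option.bind_some]
    exact ⟨h1.1, fun u hu => ⟨(h1.2 u hu).1, (h1.2 u hu).2.trans hε⟩⟩

/-- **The output row of the chain**, from a deterministic statement outside of the bad events. -/
theorem chnOut_of {A : Type} {c : ChnD A} {K m N : ℕ} {r ε : ℝ} (hr : 0 < r) (hε : 0 < ε)
    (tips : (ℕ → ℕ) → List A → ℕ → Option (ℂ × List ℂ)) (ℓ : ℕ) {δ : ℝ} (hδ : δ ≤ r / 8)
    (hδε : 8 * δ ≤ ε)
    (H : ∀ d : ℕ → ℕ, d N = ℓ → c.Gro N d → ∀ᶠ n in atTop, ∃ R : Rul, RulOK n (n / K) R ∧
      ∃ B : Set Cfg, pr (Sn n) B ≤ ε / 2 ∧ ∀ ω : Cfg, ω ∉ B → (∀ i < N, ω ∉ c.Bd d n i) →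
        FinR (8 * r * n) n K m R (cfgE n ω) ∧
        ∀ j < m, StepOut n R (cfgE n ω) j δ (tips d (histL (c.s d n) N ω) j)) :
    ChnOut c K m N r ε := by
  refine ⟨ℓ, ε / (2 * (N + 1)), by positivity, fun d hdN hgro hBd => ?_⟩
  refine ⟨fun x j => (tips d x j).bind fun p => outF r p.1 p.2, ?_⟩
  have hev : ∀ᶠ n in atTop, ∀ i ∈ Finset.range N, pr (Sn n) (c.Bd d n i) ≤ ε / (2 * (N + 1)) :=
    (Filter.eventually_all_finset _).2 fun i hi => hBd i (Finset.mem_range.1 hi)
  have hn2 : ∀ᶠ n : ℕ in atTop, (2 : ℝ) / n ≤ ε / 2 := by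
    obtain ⟨M, hM⟩ := exists_nat_ge (4 / ε)
    filter_upwards [eventually_ge_atTop M, eventually_gt_atTop 0] with n hn hn0
    have hn0' : (0 : ℝ) < n := by exact_mod_cast hn0
    have h1 : 4 / ε ≤ n := hM.trans (by exact_mod_cast hn)
    rw [div_le_iff₀ hε] at h1
    rw [div_le_iff₀ hn0']
    linarith
  filter_upwards [H d hdN hgro, hev, hn2, eventually_gt_atTop 0] with n hH hb hn2 hn0
  obtain ⟨R, hR, B, hB, hgood⟩ := hH
  refine ⟨R, hR, ?_⟩
  have hsub : ∀ ω : Cfg, ω ∈ {ω : Cfg | ¬ (FinR (8 * r * n) n K m R (cfgE n ω) ∧ ∀ j < m,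
        (MacR (2 * r * n) n R (cfgE n ω) j →
          ∃ u, (tips d (histL (c.s d n) N ω) j).bind (fun p => outF r p.1 p.2) = some u) ∧
        ∀ u, (tips d (histL (c.s d n) N ω) j).bind (fun p => outF r p.1 p.2) = some u →
          MacR (r * n) n R (cfgE n ω) j ∧ dist u (crvR n R (cfgE n ω) j) ≤ ε)} →
      ω ∈ B ∪ {ω | ∃ i, i < N ∧ ω ∈ c.Bd d n i} := by
    intro ω hω
    by_contra hc
    rw [Set.mem_union, not_or] at hc
    obtain ⟨c1, c2⟩ := hc
    have c3 : ∀ i < N, ω ∉ c.Bd d n i := fun i hi hi' => c2 ⟨i, hi, hi'⟩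
    obtain ⟨g1, g2⟩ := hgood ω c1 c3
    refine hω ⟨g1, fun j hj => ?_⟩
    exact stepOut_rule hn0 hR (Finset.filter_subset _ _) hr hδ (by linarith) (g2 j hj)
  refine (pr_mono _ hsub).trans ((pr_union_le _ _ _).trans ?_)
  have h3 : pr (Sn n) {ω | ∃ i, i < N ∧ ω ∈ c.Bd d n i} ≤ ε / 2 := by
    refine (pr_biUnion_le (Sn n) (fun i => c.Bd d n i) (fun _ => ε / (2 * (N + 1))) N
      (fun i hi => hb i (Finset.mem_range.2 hi))).trans ?_
    rw [Finset.sum_const, Finset.card_range, nsmul_eq_mul]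
    have hN : (0 : ℝ) ≤ N := Nat.cast_nonneg N
    rw [mul_div_assoc', div_le_div_iff₀ (by positivity) (by norm_num)]
    nlinarith
  linarith

/-! ### The tips of a step from the stages of the chain -/

/-- The numbers below `N` in an interval. -/
theorem filter_range_eq {p : ℕ → Bool} {N a b : ℕ} (hab : a ≤ b) (hb : b < N)
    (h : ∀ i < N, p i = true ↔ a ≤ i ∧ i ≤ b) :
    (List.range N).filter p = List.range' a (b + 1 - a) := by
  have e1 : List.range N = List.range' 0 a ++ (List.range' a (b + 1 - a) ++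
      List.range' (b + 1) (N - (b + 1))) := by
    have e2 : List.range' a (b + 1 - a) ++ List.range' (b + 1) (N - (b + 1)) =
        List.range' a (N - a) := by
      have h2 := List.range'_append (s := a) (m := b + 1 - a) (n := N - (b + 1)) (step := 1)
      have h3 : a + 1 * (b + 1 - a) = b + 1 := by omega
      have h4 : b + 1 - a + (N - (b + 1)) = N - a := by omega
      rw [h3, h4] at h2
      exact h2
    have e3 : List.range' 0 a ++ List.range' a (N - a) = List.range' 0 N := by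
      have h2 := List.range'_append (s := 0) (m := a) (n := N - a) (step := 1)
      have h3 : 0 + 1 * a = a := by omega
      have h4 : a + (N - a) = N := by omega
      rw [h3, h4] at h2
      exact h2
    rw [e2, e3, List.range_eq_range']
  rw [e1, List.filter_append, List.filter_append]
  have f1 : (List.range' 0 a).filter p = [] := by
    rw [List.filter_eq_nil_iff]
    intro i hi
    have h1 := List.mem_range'_1.1 hi
    intro hp
    have := (h i (by omega)).1 hp
    omega
  have f2 : (List.range' a (b + 1 - a)).filter p = List.range' a (b + 1 - a) := by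
    rw [List.filter_eq_self]
    intro i hi
    have h1 := List.mem_range'_1.1 hi
    exact (h i (by omega)).2 (by omega)
  have f3 : (List.range' (b + 1) (N - (b + 1))).filter p = [] := by
    rw [List.filter_eq_nil_iff]
    intro i hi
    have h1 := List.mem_range'_1.1 hi
    intro hp
    have := (h i (by omega)).1 hp
    omega
  rw [f1, f2, f3, List.nil_append, List.append_nil]

/-- The walk follows the tips of the stages `a, …, b`: the strand is at time `τ i` at the beginning of
the move of the stage `i`, it stays near the tip of the stage `i` during this move, and the rest after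
the stage `b` stays near the last tip. -/
theorem fol_of_stages {n : ℕ} {T : Finset Edg} {v : ℤ × ℤ} {k : Cor} {z : ℂ} {tip : ℕ → ℂ}
    {τ : ℕ → ℕ} {a b : ℕ} {δ : ℝ} (hab : a ≤ b) (hmem : vtx k ∈ clV T v)
    (hout : Outer T v (fce k)) (h0 : τ a = 0) (hmono : ∀ i, a ≤ i → i < b → τ i ≤ τ (i + 1))
    (hlast : τ b ≤ Function.minimalPeriod (nxtE (T : Set Ed)) k)
    (hnear : ∀ i, a ≤ i → i < b → ∀ j, τ i ≤ j → j ≤ τ (i + 1) →
      dist (toC (vtx ((nxt (T : Set Ed))^[j] k)) / n) (tip i) ≤ δ)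
    (hend : ∀ j, τ b ≤ j → j ≤ Function.minimalPeriod (nxtE (T : Set Ed)) k →
      dist (toC (vtx ((nxt (T : Set Ed))^[j] k)) / n) (tip b) ≤ δ)
    (hbase : dist (toC v / n) z ≤ δ) :
    Fol n T v k z ((List.range' a (b + 1 - a)).map tip)
      (fun i => if i ≤ b - a then τ (a + i) else Function.minimalPeriod (nxtE (T : Set Ed)) k)
      δ := by
  have hlen : ((List.range' a (b + 1 - a)).map tip).length = b + 1 - a := by
    rw [List.length_map, List.length_range']
  have hget : ∀ i, i < b + 1 - a → ((List.range' a (b + 1 - a)).map tip).getD i 0 = tip (a + i) := by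
    intro i hi
    rw [List.getD_eq_getElem?_getD, List.getElem?_eq_getElem (by rw [hlen]; exact hi),
      Option.getD_some, List.getElem_map, List.getElem_range', Nat.one_mul]
  refine ⟨hmem, hout, by rw [hlen]; omega, ?_, ?_, ?_, ?_, hbase⟩
  · simp only [Nat.zero_le, if_true, Nat.add_zero, h0]
  · intro i hi
    rw [hlen] at hi
    by_cases h1 : i + 1 ≤ b - a
    · simp only [h1, if_true, show i ≤ b - a by omega]
      exact hmono (a + i) (by omega) (by omega)
    · simp only [h1, if_false, show i ≤ b - a by omega, if_true]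
      rw [show a + i = b by omega]
      exact hlast
  · rw [hlen]
    simp only [show ¬ (b + 1 - a ≤ b - a) by omega, if_false]
  · intro i hi j h1 h2
    rw [hlen] at hi
    rw [hget i hi]
    simp only [show i ≤ b - a by omega, if_true] at h1
    by_cases h3 : i + 1 ≤ b - a
    · simp only [h3, if_true] at h2
      exact hnear (a + i) (by omega) (by omega) j h1 h2
    · simp only [h3, if_false] at h2
      rw [show a + i = b by omega] at h1 ⊢
      exact hend j h1 h2

/-! ### The strand of the exploration -/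

open Pool.Agent.SixB.Dct in
/-- A unit edge of the strand near a coarse point: the vertex of the corner is near a fixed point. -/
theorem near_kU {n K : ℕ} (hn : 0 < n) (hK : 0 < K) {k : Cor} {w : ℤ × ℤ} {ρ B : ℤ}
    (h1 : |(ua (kU k)).1 - ((n / K : ℕ) : ℤ) * w.1| ≤ ρ)
    (h2 : |(ua (kU k)).2 - ((n / K : ℕ) : ℤ) * w.2| ≤ ρ) (hw1 : |w.1| ≤ B) (hw2 : |w.2| ≤ B) :
    dist (toC (vtx k) / n) (ptK K w) ≤ (ρ + 1 + 2 * B) / n := by
  have hn0 : (0 : ℝ) < n := by exact_mod_cast hn
  have key : |(phiV (vtx k)).1 - ((n / K : ℕ) : ℤ) * w.1| ≤ ρ + 1 ∧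
      |(phiV (vtx k)).2 - ((n / K : ℕ) : ℤ) * w.2| ≤ ρ + 1 := by
    have h3 : gV k = phiV (vtx k) := rfl
    rcases joins_kU k with ⟨h4, -⟩ | ⟨h4, -⟩
    · rw [← h3, h4]
      omega
    · rw [← h3, h4]
      unfold ub
      unfold ua at h1 h2
      split_ifs
      · simp only at h1 h2 ⊢
        constructor
        · omega
        · rw [abs_le] at h2 ⊢
          omega
      · simp only at h1 h2 ⊢
        constructor
        · rw [abs_le] at h1 ⊢
          omega
        · omega
  have h5 : |((phiV (vtx k)).1 : ℝ) - (n / K : ℕ) * w.1| ≤ ρ + 1 := by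
    have := key.1
    have h6 : ((|(phiV (vtx k)).1 - ((n / K : ℕ) : ℤ) * w.1| : ℤ) : ℝ) ≤ ((ρ + 1 : ℤ) : ℝ) :=
      Int.cast_le.2 this
    push_cast at h6
    exact h6
  have h7 : |((phiV (vtx k)).2 : ℝ) - (n / K : ℕ) * w.2| ≤ ρ + 1 := by
    have := key.2
    have h6 : ((|(phiV (vtx k)).2 - ((n / K : ℕ) : ℤ) * w.2| : ℤ) : ℝ) ≤ ((ρ + 1 : ℤ) : ℝ) :=
      Int.cast_le.2 this
    push_cast at h6
    exact h6
  refine (near_grid hn hK h5 h7).trans ?_
  rw [← add_div]
  refine div_le_div_of_nonneg_right ?_ hn0.le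
  have h8 : |(w.1 : ℝ)| ≤ B := by exact_mod_cast hw1
  have h9 : |(w.2 : ℝ)| ≤ B := by exact_mod_cast hw2
  linarith

open Pool.Agent.SixB.Dct in
/-- **The output of a step from the strand.** The strand of the exploration of the step `j` is at the
time `τ i` at the beginning of the stage `i`, `a ≤ i ≤ b`; during the stage it is at distance at most
`ρ` from the coarse point `w i`; `z` is the coarse base. -/
theorem stepOut_of_strand {n h K : ℕ} (hn : 0 < n) (hK : 0 < K) {R : Rul} (hR : RulOK n h R)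
    {ω : Cfg} {j : ℕ} {q : Ndl} (hq : R j (cfgE n ω) = some q)
    (hN : ∃ k, NdF (rem n R j ω) q.1 k ∧ vtx k = q.2) {w : ℕ → ℤ × ℤ} {z : ℤ × ℤ} {τ : ℕ → ℕ}
    {a b P : ℕ} {ρ B : ℤ} {δ : ℝ} (hab : a ≤ b)
    (hP : P = Function.minimalPeriod (nxtE ((cfQ (cfgE n ω) (rem n R j ω) q : Finset Edg) :
      Set Ed)) (bc (rem n R j ω) q.1 q.2))
    (h0 : τ a = 0) (hmono : ∀ i, a ≤ i → i < b → τ i ≤ τ (i + 1)) (hlast : τ b ≤ P)
    (hnear : ∀ i, a ≤ i → i < b → ∀ t, τ i ≤ t → t ≤ τ (i + 1) →
      |(ua ((exR n R j).p ω t)).1 - ((n / K : ℕ) : ℤ) * (w i).1| ≤ ρ ∧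
      |(ua ((exR n R j).p ω t)).2 - ((n / K : ℕ) : ℤ) * (w i).2| ≤ ρ)
    (hend : ∀ t, τ b ≤ t → t ≤ P →
      |(ua ((exR n R j).p ω t)).1 - ((n / K : ℕ) : ℤ) * (w b).1| ≤ ρ ∧
      |(ua ((exR n R j).p ω t)).2 - ((n / K : ℕ) : ℤ) * (w b).2| ≤ ρ)
    (hbase : |(ua ((exR n R j).p ω 0)).1 - ((n / K : ℕ) : ℤ) * z.1| ≤ ρ ∧
      |(ua ((exR n R j).p ω 0)).2 - ((n / K : ℕ) : ℤ) * z.2| ≤ ρ)
    (hw : ∀ i, |(w i).1| ≤ B ∧ |(w i).2| ≤ B) (hz : |z.1| ≤ B ∧ |z.2| ≤ B)
    (hδ : ((ρ : ℝ) + 1 + 2 * B) / n ≤ δ) :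
    StepOut n R (cfgE n ω) j δ
      (some (ptK K z, (List.range' a (b + 1 - a)).map fun i => ptK K (w i))) := by
  obtain ⟨hN1, hN2⟩ := bc_spec hN
  have hT : cfgE n ω ⊆ boxE n := Finset.filter_subset _ _
  have hI := inv_stR hR hT j
  have hp := fun t => exR_p hR ω hq t
  have hbv : dist (toC q.2 / n) (ptK K z) ≤ δ := by
    have h1 := hbase
    rw [hp 0, Function.iterate_zero, id_eq] at h1
    have h2 := near_kU hn hK h1.1 h1.2 hz.1 hz.2
    rw [hN2] at h2
    exact h2.trans hδ
  refine ⟨q, bc (rem n R j ω) q.1 q.2, _, hq, fol_of_stages (tip := fun i => ptK K (w i)) hab ?_ ?_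
    h0 hmono (hP ▸ hlast) (fun i hi hib t h1 h2 => ?_) (fun t h1 h2 => ?_) hbv⟩
  · rw [hN2]
    exact Relation.ReflTransGen.refl
  · have h1 := hN1.outer hT hI
    rw [hN2] at h1
    exact h1
  · have h3 := hnear i hi hib t h1 h2
    rw [hp t] at h3
    exact (near_kU hn hK h3.1 h3.2 (hw i).1 (hw i).2).trans hδ
  · have h3 := hend t h1 (hP ▸ h2)
    rw [hp t] at h3
    exact (near_kU hn hK h3.1 h3.2 (hw b).1 (hw b).2).trans hδ

end Pool.Agent.SixB.Out
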