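import Pool.Agent.Lib.SixB.S8StepEnd
import Pool.Agent.Lib.SixB.S8RecInst

/-!
# Step 8: the input `step` of the instance

* `rowIn_step`: the field `step` of `RowIn`;
* `rowIn_of`: `RowIn` from the statement about one side;
* `claim1_of_side`: **claim 1** from `CAOut` (block CA) and the statement about one side.
-/

set_option autoImplicit false

namespace Pool.Agent.SixB.Tru

open Filter Finset Topology Pool.Agent.Perc Pool.Agent.PercT Pool.Agent.PercX60 Pool.Agent.PercD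
open Pool.Agent.SixB Pool.Agent.SixB.Rule Pool.Agent.SixB.Dct Pool.Agent.SixB.Mv
open Pool.Agent.SixB.Cov (datC)

/-- **The input `step`.** -/
theorem rowIn_step {K : ℕ} (hK : 0 < K) {δ ε : ℝ} (hδ : 0 < δ) (hε : 0 < ε) :
    ∃ kap₀ : ℕ, ∀ {kap a : ℕ} {C : ℤ} {G : ℕ → ℕ → ℕ}, kap₀ ≤ kap → GrC C K a G →
      SmY G (BdC K kap C) (YK (datC K kap)) → EvG G fun G' => RowStep (datC K kap) G' (BdC K kap C)
        (fun d n => TruR.ruleT (datC K kap) d n) (tipsT (datC K kap)) δ (ε / 8) := by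
  obtain ⟨kap₀, h⟩ := rowStep_datC hK hδ (show 0 < ε / 8 by positivity)
  exact ⟨kap₀, fun hk hg hY => h _ hk _ _ _ hg.hC hg.ha hg.haK hg.ha45 hg.hG hY⟩

/-- **The inputs** from the statement about one side. -/
theorem rowIn_of {K : ℕ} (hK : 0 < K) {δ ε : ℝ} (hδ : 0 < δ) (hε : 0 < ε)
    (hside : ∃ kap₀ : ℕ, ∀ {kap a : ℕ} {C : ℤ} {G : ℕ → ℕ → ℕ}, kap₀ ≤ kap → GrC C K a G →
      Fin8.SideXD K kap a C) : RowIn K δ ε := ⟨rowIn_step hK hδ hε, hside⟩

/-- **Claim 1** from block CA and the statement about one side. -/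
theorem claim1_of_side (hCA : CAOut)
    (hside : ∃ K₀ : ℕ, ∀ K, K₀ ≤ K → ∃ kap₀ : ℕ, ∀ {kap a : ℕ} {C : ℤ} {G : ℕ → ℕ → ℕ},
      kap₀ ≤ kap → GrC C K a G → Fin8.SideXD K kap a C) : Claim1 := by
  obtain ⟨K₀, hK₀⟩ := hside
  refine claim1_of_rowIn hCA fun δ ε hδ hε => ⟨max K₀ 1, fun K hK => ?_⟩
  exact rowIn_of (by omega) hδ hε (hK₀ K (by omega))

end Pool.Agent.SixB.Tru
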