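import Pool.Agent.Lib.SixB.S8Thick

/-!
# Step 8, unit 8H: the runs of the stop arc

The cells of the new grid (mesh `L`, offset `(a, b)`) are the values of `gc`. The sides of the inner
domain `inn D A Y` with a face of the barrier `Y` behind them are on grid lines. The pair of cells
(inner cell, outer cell) of two consecutive such sides changes exactly if the vertex between them is a
grid vertex; otherwise the contour goes straight on and the outer faces are in the same piece. So the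
number `rn` of grid vertices passed determines the pair of cells and the piece behind the side, and it
takes few values.
-/

set_option autoImplicit false

namespace Pool.Agent.SixB.Mv

open Pool.Agent.Perc Pool.Agent.Perc6 Pool.Agent.Perc6.C2Aux Pool.Agent.Perc.Tips
open Pool.Agent.SixB.Top

/-- The cell of a face in the grid of mesh `L` with the offset `(a, b)`. -/
def gc (a b L : ℤ) (f : ℤ × ℤ) : ℤ × ℤ := ((f.1 + a) / L, (f.2 + b) / L)

/-- The vertices of the grid. -/
def gridV (a b L : ℤ) : Set (ℤ × ℤ) := {v | L ∣ v.1 + a ∧ L ∣ v.2 + b}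

/-- The unit edge is on a line of the grid. -/
def OnL (a b L : ℤ) : UE → Prop
  | (x, _, true) => L ∣ x + a
  | (_, y, false) => L ∣ y + b

variable {a b L : ℤ} {D G Y : Set (ℤ × ℤ)} {A B : UE × Bool} {m p q : ℕ}

/-! ### One step -/

theorem ediv_pred {t : ℤ} (hL : 0 < L) : (t - 1) / L = t / L ↔ ¬ L ∣ t := by
  constructor
  · rintro h ⟨k, rfl⟩
    rw [Int.mul_ediv_cancel_left _ hL.ne'] at h
    have h1 : (L * k - 1) / L < k := Int.ediv_lt_of_lt_mul hL (by linarith [mul_comm L k])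
    omega
  · intro h
    have h1 := Int.emod_nonneg t hL.ne'
    have h2 := Int.emod_lt_of_pos t hL
    have h3 := Int.emod_add_mul_ediv t L
    have h4 : t % L ≠ 0 := fun h0 => h (Int.dvd_of_emod_eq_zero h0)
    exact ((Int.ediv_emod_unique (r := t % L - 1) hL).2 ⟨by linarith, by omega, by omega⟩).1

/-- The two faces of a unit edge are in different cells iff the edge is on a grid line. -/
theorem gc_ne_iff (hL : 0 < L) (B : UE × Bool) :
    gc a b L (ahead B) ≠ gc a b L (ahead (rv B)) ↔ OnL a b L B.1 := by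
  have h1 : ∀ x : ℤ, (x - 1 + a) / L = (x + a) / L ↔ ¬ L ∣ x + a := fun x => by
    rw [← ediv_pred hL]
    ring_nf
  have h2 : ∀ y : ℤ, (y - 1 + b) / L = (y + b) / L ↔ ¬ L ∣ y + b := fun y => by
    rw [← ediv_pred hL]
    ring_nf
  obtain ⟨⟨x, y, _ | _⟩, _ | _⟩ := B
  · have := h2 y
    simp only [gc, ahead, rv, OnL, Bool.not_false, ne_eq, Prod.mk.injEq, true_and]
    tauto
  · have := h2 y
    simp only [gc, ahead, rv, OnL, Bool.not_true, ne_eq, Prod.mk.injEq, true_and]
    rw [eq_comm]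
    tauto
  · have := h1 x
    simp only [gc, ahead, rv, OnL, Bool.not_false, ne_eq, Prod.mk.injEq, and_true]
    tauto
  · have := h1 x
    simp only [gc, ahead, rv, OnL, Bool.not_true, ne_eq, Prod.mk.injEq, and_true]
    rw [eq_comm]
    tauto

theorem onL_rv : OnL a b L (rv B).1 ↔ OnL a b L B.1 := Iff.rfl

/-- The straight continuation is on the same line. -/
theorem onL_rtn_two (B : UE × Bool) : OnL a b L (rtn (rtn B)).1 ↔ OnL a b L B.1 := by
  obtain ⟨⟨x, y, _ | _⟩, _ | _⟩ := B <;> simp [rtn, OnL]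

/-- The right end is a grid vertex iff the edge and the perpendicular edge are on grid lines. -/
theorem rg_gridV (B : UE × Bool) :
    rg B ∈ gridV a b L ↔ OnL a b L B.1 ∧ OnL a b L (rtn B).1 := by
  obtain ⟨⟨x, y, _ | _⟩, _ | _⟩ := B <;> simp [rtn, OnL, rg, gridV, and_comm]

theorem lf_gridV_left (h : lf B ∈ gridV a b L) : OnL a b L B.1 := by
  obtain ⟨⟨x, y, _ | _⟩, _ | _⟩ := B <;>
    simp only [OnL, lf, gridV, Set.mem_ofPred_eq] at h ⊢ <;> tauto

theorem rg_gridV_left (h : rg B ∈ gridV a b L) : OnL a b L B.1 := ((rg_gridV B).1 h).1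

/-- Opposite faces at a vertex. -/
theorem gc_diag (hL : 0 < L) (h : OnL a b L B.1) :
    gc a b L (ahead (rv B)) ≠ gc a b L (ahead (rtn B)) := by
  have h1 : ∀ x : ℤ, (x - 1 + a) / L = (x + a) / L ↔ ¬ L ∣ x + a := fun x => by
    rw [← ediv_pred hL]
    ring_nf
  have h2 : ∀ y : ℤ, (y - 1 + b) / L = (y + b) / L ↔ ¬ L ∣ y + b := fun y => by
    rw [← ediv_pred hL]
    ring_nf
  obtain ⟨⟨x, y, _ | _⟩, _ | _⟩ := B
  · have := h2 y
    simp only [gc, ahead, rv, rtn, OnL, Bool.not_false, ne_eq, Prod.mk.injEq] at h ⊢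
    intro hh
    have := hh.2
    tauto
  · have := h2 y
    simp only [gc, ahead, rv, rtn, OnL, Bool.not_true, ne_eq, Prod.mk.injEq] at h ⊢
    intro hh
    have := hh.2
    tauto
  · have := h1 x
    simp only [gc, ahead, rv, rtn, OnL, Bool.not_false, ne_eq, Prod.mk.injEq] at h ⊢
    intro hh
    have := hh.1
    tauto
  · have := h1 x
    simp only [gc, ahead, rv, rtn, OnL, Bool.not_true, ne_eq, Prod.mk.injEq] at h ⊢
    intro hh
    have := hh.1
    tauto

/-- The other pair of opposite faces. -/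
theorem gc_diag' (hL : 0 < L) (h : OnL a b L (rtn B).1) :
    gc a b L (ahead B) ≠ gc a b L (ahead (rtn (rtn B))) := by
  have := gc_diag (B := rtn B) hL h
  rwa [ahead_rv_rtn] at this

theorem gc_rtn (hL : 0 < L) :
    gc a b L (ahead B) = gc a b L (ahead (rtn B)) ↔ ¬ OnL a b L (rtn B).1 := by
  rw [← gc_ne_iff hL (rtn B), ahead_rv_rtn, not_not, eq_comm]

theorem gc_rtn' (hL : 0 < L) :
    gc a b L (ahead (rv B)) = gc a b L (ahead (rtn (rtn B))) ↔ ¬ OnL a b L (rtn B).1 := by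
  have h := gc_ne_iff (a := a) (b := b) hL (rtn (rtn (rtn B)))
  rw [ahead_rv_rtn, ahead_rtn_three, onL_rtn_two (rtn B)] at h
  rw [← h, not_not]

/-- **(R1)** The pair of cells of two consecutive sides on grid lines changes iff the vertex between
them is a grid vertex. -/
theorem pair_step (hL : 0 < L) (h1 : OnL a b L B.1) (h2 : OnL a b L (sc G B).1) :
    (gc a b L (ahead B) = gc a b L (ahead (sc G B)) ∧
      gc a b L (ahead (rv B)) = gc a b L (ahead (rv (sc G B)))) ↔ rg B ∉ gridV a b L := by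
  rw [rg_gridV]
  by_cases c2 : ahead (rtn B) ∈ G
  · by_cases c3 : ahead (rtn (rtn B)) ∈ G
    · rw [sc_right c2 c3] at h2 ⊢
      rw [onL_rv, onL_rtn_two (rtn B)] at h2
      rw [rv_rv, ahead_rv_rtn, ahead_rtn_three]
      have := gc_diag' hL h2
      tauto
    · rw [sc_straight c2 c3]
      rw [rv_rv, ahead_rv_rtn, gc_rtn hL, gc_rtn' hL]
      tauto
  · rw [sc_left c2] at h2 ⊢
    rw [onL_rv] at h2
    rw [rv_rv, ahead_rv_rtn]
    have := gc_diag hL h1
    tauto

/-- **(R2)** Away from the grid vertices the contour goes straight on. -/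
theorem straight_step (h1 : OnL a b L B.1) (h2 : OnL a b L (sc G B).1)
    (hv : rg B ∉ gridV a b L) :
    sc G B = rv (rtn (rtn B)) ∧ ahead (rtn B) ∈ G ∧ ahead (rtn (rtn B)) ∉ G ∧
      AdjF (ahead B) (ahead (sc G B)) ∧ AdjF (ahead (rv B)) (ahead (rv (sc G B))) := by
  rw [rg_gridV] at hv
  by_cases c2 : ahead (rtn B) ∈ G
  · by_cases c3 : ahead (rtn (rtn B)) ∈ G
    · rw [sc_right c2 c3, onL_rv, onL_rtn_two (rtn B)] at h2
      exact absurd ⟨h1, h2⟩ hv
    · have e := sc_straight c2 c3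
      refine ⟨e, c2, c3, ?_, ?_⟩
      · rw [e, ahead_rv_rtn]
        exact adjF_rtn B
      · rw [e, rv_rv]
        exact (adjF_rtn_two B).symm
  · rw [sc_left c2, onL_rv] at h2
    exact absurd ⟨h1, h2⟩ hv

/-! ### Distance from the centre of a cell -/

/-- **(R4)** A unit edge on a grid line is at distance at least `h` from the centres of the cells,
if the mesh is `2 h`. -/
theorem far_of_onL {h : ℤ} {c : ℤ × ℤ} (hc1 : 2 * h ∣ c.1 + a + h) (hc2 : 2 * h ∣ c.2 + b + h)
    (hB : OnL a b (2 * h) B.1) :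
    (h ≤ |(lf B).1 - c.1| ∧ h ≤ |(rg B).1 - c.1|) ∨
      (h ≤ |(lf B).2 - c.2| ∧ h ≤ |(rg B).2 - c.2|) := by
  have key : ∀ s t k : ℤ, 2 * h ∣ s + k → 2 * h ∣ t + k + h → h ≤ |s - t| := by
    rintro s t k ⟨i, hi⟩ ⟨j, hj⟩
    have h1 : s - t = h * (2 * (i - j) + 1) := by linarith
    rw [h1, abs_mul]
    have h2 : (1 : ℤ) ≤ |2 * (i - j) + 1| := Int.one_le_abs (by omega)
    calc h ≤ |h| := le_abs_self h
      _ = |h| * 1 := (mul_one _).symm
      _ ≤ |h| * |2 * (i - j) + 1| := mul_le_mul_of_nonneg_left h2 (abs_nonneg h)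
  obtain ⟨⟨x, y, _ | _⟩, _ | _⟩ := B <;> simp only [OnL, lf, rg] at hB ⊢
  · exact Or.inr ⟨key _ _ _ hB hc2, key _ _ _ hB hc2⟩
  · exact Or.inr ⟨key _ _ _ hB hc2, key _ _ _ hB hc2⟩
  · exact Or.inl ⟨key _ _ _ hB hc1, key _ _ _ hB hc1⟩
  · exact Or.inl ⟨key _ _ _ hB hc1, key _ _ _ hB hc1⟩

/-- A side between two cells is far from the centres of the cells. -/
theorem far_of_gc {h : ℤ} (hh : 0 < h) {c : ℤ × ℤ} (hc1 : 2 * h ∣ c.1 + a + h)
    (hc2 : 2 * h ∣ c.2 + b + h) (hB : gc a b (2 * h) (ahead B) ≠ gc a b (2 * h) (ahead (rv B))) :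
    (h ≤ |(lf B).1 - c.1| ∧ h ≤ |(rg B).1 - c.1|) ∨
      (h ≤ |(lf B).2 - c.2| ∧ h ≤ |(rg B).2 - c.2|) :=
  far_of_onL hc1 hc2 ((gc_ne_iff (by omega) B).1 hB)

/-- A face with the corner `c` is in the cell with the centre `c`. -/
theorem gc_of_cor {h : ℤ} (hh : 0 < h) {c f : ℤ × ℤ} (hf : IsCor f c)
    (hc1 : 2 * h ∣ c.1 + a + h) (hc2 : 2 * h ∣ c.2 + b + h) :
    2 * h * (gc a b (2 * h) f).1 + h = c.1 + a ∧ 2 * h * (gc a b (2 * h) f).2 + h = c.2 + b := by
  have key : ∀ s t k : ℤ, 2 * h ∣ t + k + h → (t = s ∨ t = s + 1) →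
      2 * h * ((s + k) / (2 * h)) + h = t + k := by
    rintro s t k ⟨j, hj⟩ hs
    have h1 : (s + k) / (2 * h) = j - 1 := by
      refine ((Int.ediv_emod_unique (a := s + k) (b := 2 * h) (q := j - 1)
        (r := s + k - 2 * h * (j - 1)) (by omega)).2 ⟨by ring, ?_, ?_⟩).1
      · rcases hs with rfl | rfl <;> nlinarith
      · rcases hs with rfl | rfl <;> nlinarith
    rw [h1]
    linarith
  exact ⟨key _ _ _ hc1 hf.1, key _ _ _ hc2 hf.2⟩

/-! ### The runs of the stop arc of the inner domain -/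

/-- The sides between the inner domain and `Y` are on grid lines. -/
theorem onL_side (hL : 0 < L) (hD : BD D A) (hA : ahead A ∉ Y) (hY : Sat D (gc a b L) Y) {i : ℕ}
    (hi : outF (inn D A Y) A i ∈ Y) : OnL a b L (side (inn D A Y) A i).1 :=
  (gc_ne_iff hL _).1 (line_of_sat hY ⟨hD.1, hA⟩ (bd_side (bd_inn hD hA) i) hi)

/-- **(R1)** for the contour of the inner domain. -/
theorem pair_eq_iff (hL : 0 < L) (hD : BD D A) (hA : ahead A ∉ Y) (hY : Sat D (gc a b L) Y)
    {i : ℕ} (h1 : outF (inn D A Y) A i ∈ Y) (h2 : outF (inn D A Y) A (i + 1) ∈ Y) :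
    (gc a b L (inF (inn D A Y) A i) = gc a b L (inF (inn D A Y) A (i + 1)) ∧
      gc a b L (outF (inn D A Y) A i) = gc a b L (outF (inn D A Y) A (i + 1))) ↔
      vert (inn D A Y) A (i + 1) ∉ gridV a b L := by
  have k1 := onL_side hL hD hA hY h1
  have k2 := onL_side hL hD hA hY h2
  unfold inF outF
  rw [vert_succ, side_succ] at *
  exact pair_step hL k1 k2

/-- **(R2)** for the contour of the inner domain. -/
theorem run_step (hL : 0 < L) (hD : BD D A) (hA : ahead A ∉ Y) (hYD : Y ⊆ D)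
    (hY : Sat D (gc a b L) Y) {i : ℕ} (h1 : outF (inn D A Y) A i ∈ Y)
    (h2 : outF (inn D A Y) A (i + 1) ∈ Y) (hv : vert (inn D A Y) A (i + 1) ∉ gridV a b L) :
    side (inn D A Y) A (i + 1) = rv (rtn (rtn (side (inn D A Y) A i))) ∧
      AdjF (inF (inn D A Y) A i) (inF (inn D A Y) A (i + 1)) ∧
      AdjF (outF (inn D A Y) A i) (outF (inn D A Y) A (i + 1)) ∧
      gc a b L (inF (inn D A Y) A i) = gc a b L (inF (inn D A Y) A (i + 1)) ∧
      gc a b L (outF (inn D A Y) A i) = gc a b L (outF (inn D A Y) A (i + 1)) ∧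
      pc D (gc a b L) (inF (inn D A Y) A i) = pc D (gc a b L) (inF (inn D A Y) A (i + 1)) ∧
      pc D (gc a b L) (outF (inn D A Y) A i) = pc D (gc a b L) (outF (inn D A Y) A (i + 1)) := by
  have k1 := onL_side hL hD hA hY h1
  have k2 := onL_side hL hD hA hY h2
  have hp := (pair_eq_iff hL hD hA hY h1 h2).2 hv
  have hs : sc (inn D A Y) (side (inn D A Y) A i) = rv (rtn (rtn (side (inn D A Y) A i))) ∧
      AdjF (inF (inn D A Y) A i) (inF (inn D A Y) A (i + 1)) ∧
      AdjF (outF (inn D A Y) A i) (outF (inn D A Y) A (i + 1)) := by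
    unfold inF outF
    rw [vert_succ] at hv
    rw [side_succ] at k2 ⊢
    obtain ⟨e, -, -, e1, e2⟩ := straight_step (G := inn D A Y) k1 k2 hv
    exact ⟨e, e1, e2⟩
  have hb := bd_inn hD hA (Y := Y)
  have m1 : ∀ j, inF (inn D A Y) A j ∈ D := fun j =>
    (inn_sub ⟨hD.1, hA⟩ (bd_side hb j).1).1
  refine ⟨by rw [side_succ]; exact hs.1, hs.2.1, hs.2.2, hp.1, hp.2, ?_, ?_⟩
  · exact pc_adj (m1 _) (m1 _) hs.2.1 hp.1
  · exact pc_adj (hYD h1) (hYD h2) hs.2.2 hp.2

open Classical in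
/-- The number of grid vertices on the contour after the index `N` up to the index `i`. -/
noncomputable def rn (a b L : ℤ) (G : Set (ℤ × ℤ)) (A : UE × Bool) (N i : ℕ) : ℕ :=
  ((Finset.Ioc N i).filter fun k => vert G A k ∈ gridV a b L).card

theorem rn_self {N : ℕ} : rn a b L G A N N = 0 := by simp [rn]

theorem rn_mono {N i j : ℕ} (h : i ≤ j) : rn a b L G A N i ≤ rn a b L G A N j := by
  classical
  exact Finset.card_le_card (Finset.filter_subset_filter _ (Finset.Ioc_subset_Ioc_right h))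

theorem rn_succ_of_mem {N i : ℕ} (hN : N ≤ i) (h : vert G A (i + 1) ∈ gridV a b L) :
    rn a b L G A N (i + 1) = rn a b L G A N i + 1 := by
  classical
  unfold rn
  rw [← Finset.insert_Ioc_right_eq_Ioc_add_one hN, Finset.filter_insert, if_pos h,
    Finset.card_insert_of_notMem (by simp)]

theorem rn_succ_of_notMem {N i : ℕ} (hN : N ≤ i) (h : vert G A (i + 1) ∉ gridV a b L) :
    rn a b L G A N (i + 1) = rn a b L G A N i := by
  classical
  unfold rn
  rw [← Finset.insert_Ioc_right_eq_Ioc_add_one hN, Finset.filter_insert, if_neg h]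

theorem rn_succ_iff {N i : ℕ} (hN : N ≤ i) :
    rn a b L G A N (i + 1) = rn a b L G A N i ↔ vert G A (i + 1) ∉ gridV a b L := by
  by_cases h : vert G A (i + 1) ∈ gridV a b L
  · rw [rn_succ_of_mem hN h]
    simp [h]
  · rw [rn_succ_of_notMem hN h]
    simp [h]

/-- Inside a run there is no grid vertex. -/
theorem notMem_of_rn_eq {N i j k : ℕ} (hN : N ≤ i) (hik : i < k) (hkj : k ≤ j)
    (h : rn a b L G A N i = rn a b L G A N j) : vert G A k ∉ gridV a b L := by
  obtain ⟨k, rfl⟩ : ∃ k', k = k' + 1 := ⟨k - 1, by omega⟩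
  have h1 : rn a b L G A N i ≤ rn a b L G A N k := rn_mono (by omega)
  have h2 : rn a b L G A N k ≤ rn a b L G A N (k + 1) := rn_mono (by omega)
  have h3 : rn a b L G A N (k + 1) ≤ rn a b L G A N j := rn_mono hkj
  exact (rn_succ_iff (N := N) (by omega)).1 (by omega)

/-- **(R3)** The sides of a run: same pair of cells, same pieces, a straight segment. -/
theorem run_const (hL : 0 < L) (hD : BD D A) (hA : ahead A ∉ Y) (hYD : Y ⊆ D)
    (hY : Sat D (gc a b L) Y) {N₁ N₂ : ℕ}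
    (hmid : ∀ i, N₁ ≤ i → i < N₂ → outF (inn D A Y) A i ∈ Y) {i j : ℕ} (hi : N₁ ≤ i) (hij : i ≤ j)
    (hj : j < N₂) (h : rn a b L (inn D A Y) A N₁ i = rn a b L (inn D A Y) A N₁ j) :
    gc a b L (inF (inn D A Y) A i) = gc a b L (inF (inn D A Y) A j) ∧
      gc a b L (outF (inn D A Y) A i) = gc a b L (outF (inn D A Y) A j) ∧
      pc D (gc a b L) (inF (inn D A Y) A i) = pc D (gc a b L) (inF (inn D A Y) A j) ∧
      pc D (gc a b L) (outF (inn D A Y) A i) = pc D (gc a b L) (outF (inn D A Y) A j) ∧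
      ∀ k, i ≤ k → k < j →
        side (inn D A Y) A (k + 1) = rv (rtn (rtn (side (inn D A Y) A k))) := by
  induction j, hij using Nat.le_induction with
  | base => exact ⟨rfl, rfl, rfl, rfl, fun k h1 h2 => by omega⟩
  | succ j hj' ih =>
    have h1 : rn a b L (inn D A Y) A N₁ i ≤ rn a b L (inn D A Y) A N₁ j := rn_mono hj'
    have h2 : rn a b L (inn D A Y) A N₁ j ≤ rn a b L (inn D A Y) A N₁ (j + 1) :=
      rn_mono (by omega)
    have hv : vert (inn D A Y) A (j + 1) ∉ gridV a b L :=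
      (rn_succ_iff (N := N₁) (by omega)).1 (by omega)
    obtain ⟨a1, a2, a3, a4, a5⟩ := ih (by omega) (by omega)
    obtain ⟨b1, -, -, b4, b5, b6, b7⟩ := run_step hL hD hA hYD hY (hmid j (by omega) (by omega))
      (hmid (j + 1) (by omega) hj) hv
    refine ⟨a1.trans b4, a2.trans b5, a3.trans b6, a4.trans b7, fun k k1 k2 => ?_⟩
    rcases Nat.lt_or_ge k j with hk | hk
    · exact a5 k k1 hk
    · obtain rfl : k = j := by omega
      exact b1

/-- **(R3)** with the order of the two sides free. -/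
theorem run_const' (hL : 0 < L) (hD : BD D A) (hA : ahead A ∉ Y) (hYD : Y ⊆ D)
    (hY : Sat D (gc a b L) Y) {N₁ N₂ : ℕ}
    (hmid : ∀ i, N₁ ≤ i → i < N₂ → outF (inn D A Y) A i ∈ Y) {i j : ℕ} (hi : N₁ ≤ i) (hi' : i < N₂)
    (hj : N₁ ≤ j) (hj' : j < N₂)
    (h : rn a b L (inn D A Y) A N₁ i = rn a b L (inn D A Y) A N₁ j) :
    gc a b L (inF (inn D A Y) A i) = gc a b L (inF (inn D A Y) A j) ∧
      gc a b L (outF (inn D A Y) A i) = gc a b L (outF (inn D A Y) A j) ∧
      pc D (gc a b L) (inF (inn D A Y) A i) = pc D (gc a b L) (inF (inn D A Y) A j) ∧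
      pc D (gc a b L) (outF (inn D A Y) A i) = pc D (gc a b L) (outF (inn D A Y) A j) := by
  rcases le_total i j with hij | hij
  · obtain ⟨h1, h2, h3, h4, -⟩ := run_const hL hD hA hYD hY hmid hi hij hj' h
    exact ⟨h1, h2, h3, h4⟩
  · obtain ⟨h1, h2, h3, h4, -⟩ := run_const hL hD hA hYD hY hmid hj hij hi' h.symm
    exact ⟨h1.symm, h2.symm, h3.symm, h4.symm⟩

/-- The run number changes exactly where the pair of cells changes. -/
theorem rn_succ_iff_pair (hL : 0 < L) (hD : BD D A) (hA : ahead A ∉ Y)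
    (hY : Sat D (gc a b L) Y) {N i : ℕ} (hN : N ≤ i) (h1 : outF (inn D A Y) A i ∈ Y)
    (h2 : outF (inn D A Y) A (i + 1) ∈ Y) :
    rn a b L (inn D A Y) A N (i + 1) = rn a b L (inn D A Y) A N i ↔
    (gc a b L (inF (inn D A Y) A i) = gc a b L (inF (inn D A Y) A (i + 1)) ∧
      gc a b L (outF (inn D A Y) A i) = gc a b L (outF (inn D A Y) A (i + 1))) := by
  rw [rn_succ_iff hN, pair_eq_iff hL hD hA hY h1 h2]

/-! ### The number of runs -/

/-- The vertices of the contour are different. -/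
theorem vert_inj (hF : G.Finite) (hc : EConn G) (he : Esc G) (hG : Cyc G A m) {i j : ℕ}
    (hi : i < m) (hj : j < m) (h : vert G A i = vert G A j) : i = j :=
  hG.inj i hi j hj (lf_inj hF hc he (bd_side hG.bd i) (bd_side hG.bd j) h)

/-- The run numbers are bounded by the number of grid vertices on the contour. -/
theorem rn_le_card (hF : G.Finite) (hc : EConn G) (he : Esc G) (hG : Cyc G A m)
    (S : Finset (ℤ × ℤ)) (hS : ∀ k < m, vert G A k ∈ gridV a b L → vert G A k ∈ S) {N i : ℕ}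
    (hi : i < m) : rn a b L G A N i ≤ S.card := by
  classical
  unfold rn
  refine Finset.card_le_card_of_injOn (fun k => vert G A k) ?_ ?_
  · intro k hk
    obtain ⟨h1, h2⟩ := Finset.mem_filter.1 hk
    have h3 := Finset.mem_Ioc.1 h1
    exact hS k (by omega) h2
  · intro k hk l hl hkl
    have h1 := Finset.mem_Ioc.1 (Finset.mem_filter.1 hk).1
    have h2 := Finset.mem_Ioc.1 (Finset.mem_filter.1 hl).1
    exact vert_inj hF hc he hG (by omega) (by omega) hkl

/-- The contour vertices are corners of faces of `G`. -/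
theorem vert_cor (hG : BD G A) (i : ℕ) : ∃ f ∈ G, IsCor f (vert G A i) := by
  refine ⟨ahead (side G A i), (bd_side hG i).1, ?_⟩
  unfold vert
  generalize side G A i = B
  obtain ⟨⟨x, y, _ | _⟩, _ | _⟩ := B <;> simp [lf, ahead, IsCor]

/-- **(R3)** The number of runs of the stop arc of a domain in a box. -/
theorem rn_le_box (hL : 0 < L) (hF : G.Finite) (hc : EConn G) (he : Esc G) (hG : Cyc G A m)
    {x₀ x₁ y₀ y₁ : ℤ} (hbox : ∀ f ∈ G, x₀ ≤ f.1 ∧ f.1 < x₁ ∧ y₀ ≤ f.2 ∧ f.2 < y₁) {N i : ℕ}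
    (hi : i < m) : (rn a b L G A N i : ℤ) ≤ ((x₁ - x₀) / L + 1) * ((y₁ - y₀) / L + 1) := by
  classical
  have hx : x₀ < x₁ := by
    have := hbox _ hG.bd.1
    omega
  have hy : y₀ < y₁ := by
    have := hbox _ hG.bd.1
    omega
  -- the multiples of `L` in an interval
  have key : ∀ s t k v : ℤ, s ≤ v → v ≤ t → L ∣ v + k →
      (v + k) / L ∈ Finset.Icc (-((-(s + k)) / L)) (-((-(s + k)) / L) + (t - s) / L) := by
    rintro s t k v h1 h2 ⟨j, hj⟩
    rw [hj, Int.mul_ediv_cancel_left _ hL.ne', Finset.mem_Icc]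
    constructor
    · have : -j ≤ -(s + k) / L := by
        rw [Int.le_ediv_iff_mul_le hL]
        nlinarith
      omega
    · have h3 : -(s + k) / L * L ≤ -(s + k) := Int.ediv_mul_le _ hL.ne'
      have h4 : j + -(s + k) / L ≤ (t - s) / L := by
        rw [Int.le_ediv_iff_mul_le hL]
        nlinarith
      omega
  set Ix := Finset.Icc (-((-(x₀ + a)) / L)) (-((-(x₀ + a)) / L) + (x₁ - x₀) / L) with hIx
  set Iy := Finset.Icc (-((-(y₀ + b)) / L)) (-((-(y₀ + b)) / L) + (y₁ - y₀) / L) with hIy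
  have h1 : rn a b L G A N i ≤
      ((Ix ×ˢ Iy).image fun c : ℤ × ℤ => (L * c.1 - a, L * c.2 - b)).card := by
    refine rn_le_card hF hc he hG _ ?_ hi
    intro k hk hv
    obtain ⟨f, hf, hcor⟩ := vert_cor hG.bd k
    have hb := hbox f hf
    have c1 := hcor.1
    have c2 := hcor.2
    rw [Finset.mem_image]
    refine ⟨(((vert G A k).1 + a) / L, ((vert G A k).2 + b) / L), ?_, ?_⟩
    · rw [Finset.mem_product]
      exact ⟨key x₀ x₁ a _ (by omega) (by omega) hv.1, key y₀ y₁ b _ (by omega) (by omega) hv.2⟩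
    · simp only
      rw [Int.mul_ediv_cancel' hv.1, Int.mul_ediv_cancel' hv.2]
      simp
  have h2 := h1.trans Finset.card_image_le
  rw [Finset.card_product] at h2
  have hdx : 0 ≤ (x₁ - x₀) / L := Int.ediv_nonneg (by omega) hL.le
  have hdy : 0 ≤ (y₁ - y₀) / L := Int.ediv_nonneg (by omega) hL.le
  have e1 : (Ix.card : ℤ) = (x₁ - x₀) / L + 1 := by
    rw [hIx, Int.card_Icc]
    rw [Int.toNat_of_nonneg (by omega)]
    ring
  have e2 : (Iy.card : ℤ) = (y₁ - y₀) / L + 1 := by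
    rw [hIy, Int.card_Icc]
    rw [Int.toNat_of_nonneg (by omega)]
    ring
  calc (rn a b L G A N i : ℤ) ≤ ((Ix.card * Iy.card : ℕ) : ℤ) := by exact_mod_cast h2
    _ = _ := by rw [Nat.cast_mul, e1, e2]

end Pool.Agent.SixB.Mv
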