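import Pool.Agent.Lib.SixB.S8ScanR
import Pool.Agent.Lib.SixB.S8ScanB

/-!
# Step 8, SCAN: the deterministic part of N3 for an arbitrary needle

`same_corners`: if the cluster of the needle reaches distance `ρ`, and the two clusters event and the
dual arm do not occur, then outside of the ball of radius `ρ` around the base of the needle the outer
corners of the cluster of the needle are those of one real cluster.
-/

set_option autoImplicit false

namespace Pool.Agent.SixB.Rule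

open Set Filter Topology MeasureTheory TopologicalSpace
open Pool.Agent.Perc Pool.Agent.PercD
open Pool.Agent.PercU (Cor vtx fce nxt nxtE qry)
open Pool.Agent.MP_6bd702.H23 Pool.Agent.MP_6bd702.H60

variable {n h : ℕ} {T : Finset Edg} {U : Finset (ℤ × ℤ)} {q : Ndl} {R : Rul}

namespace ScanC

theorem rst_eq (hT : T ⊆ boxE n) : rst T U = Scan.frzF (Hc n U) ∅ T := by
  apply Finset.coe_injective
  rw [coe_rst hT, Scan.coe_frzF, Finset.coe_empty]

theorem cfQ_eq (hT : T ⊆ boxE n) : cfQ T U q = Scan.frzF (Hc n U) q.1 T := by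
  apply Finset.coe_injective
  unfold cfQ
  rw [Finset.coe_union, coe_rst hT, Scan.coe_frzF]
  ext e
  unfold Scan.frz
  rw [mem_union, mem_ofPred_eq, mem_ofPred_eq]
  constructor
  · rintro ((h | h) | h)
    · exact absurd h (notMem_empty _)
    · exact Or.inr h
    · exact Or.inl h
  · rintro (h | h)
    · exact Or.inr h
    · exact Or.inl (Or.inr h)

theorem mem_Vs {x : ℤ × ℤ} : x ∈ Scan.Vs (q.1 : Set Ed) ↔ x ∈ qV q.1 := by
  unfold Scan.Vs qV
  rw [mem_ofPred_eq, Finset.mem_union, Finset.mem_image, Finset.mem_image]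
  constructor
  · rintro ⟨e, he, h | h⟩
    · exact Or.inl ⟨e, he, h⟩
    · exact Or.inr ⟨e, he, h⟩
  · rintro (⟨e, he, h⟩ | ⟨e, he, h⟩)
    · exact ⟨e, he, Or.inl h⟩
    · exact ⟨e, he, Or.inr h⟩

theorem dist_vtx_ctr (k : Cor) : dist (toC (vtx k)) (ctr (fce k)) ≤ 1 := by
  obtain ⟨x, y, s, t⟩ := k
  have key : ∀ a b : ℝ, |a| ≤ 1 / 2 → |b| ≤ 1 / 2 → ‖(⟨a, b⟩ : ℂ)‖ ≤ 1 := by
    intro a b ha hb
    have := Complex.norm_le_abs_re_add_abs_im (⟨a, b⟩ : ℂ)
    simp only at this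
    linarith
  rw [dist_eq_norm]
  have h1 : toC (vtx ((x, y, s, t) : Cor)) - ctr (fce ((x, y, s, t) : Cor)) =
      (⟨if s then -(1 / 2) else 1 / 2, if t then -(1 / 2) else 1 / 2⟩ : ℂ) := by
    apply Complex.ext
    · cases s <;> cases t <;> simp [ctr, toC, fce, vtx] <;> ring
    · cases s <;> cases t <;> simp [ctr, toC, fce, vtx] <;> ring
  rw [h1]
  refine key _ _ ?_ ?_
  · cases s <;> simp
  · cases t <;> simp

end ScanC

open ScanC

/-- **The deterministic part of N3.** -/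
theorem same_corners (hT : T ⊆ boxE n) (hI : Inv n T U) (hq : IsNdl h U q) {ρ : ℝ}
    (hρ : 3 * (h : ℝ) + 2 ≤ ρ) (hM : Mac ρ T U q) (h2 : ¬ TwoArms ρ T U q)
    (hD : ¬ DualArm ρ n T U q) :
    ∃ u ∈ U, u ∈ clV (cfQ T U q) q.2 ∧
      ∀ k : Cor, ρ < dist (toC (vtx k)) (toC q.2) →
        ((vtx k ∈ clV (rst T U) u ∧ Outer (rst T U) u (fce k)) ↔
          (vtx k ∈ clV (cfQ T U q) u ∧ Outer (cfQ T U q) u (fce k))) := by
  obtain ⟨hU, hC, hH⟩ := (inv_iff hT).1 hI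
  have hnH : ∀ {w : ℤ × ℤ}, w ∈ U → w ∉ Hc n U := fun hw hc => hc.2 hw
  have hends : ∀ e ∈ q.1, ea e ∈ U ∧ eb e ∈ U := fun e he => hq.ends e he
  have hQ : q.1 ⊆ boxE n := fun e he =>
    PercO.mem_boxE'.2 ⟨hU (hends e he).1, hU (hends e he).2⟩
  have hQH : ∀ e ∈ q.1, ea e ∉ Hc n U ∧ eb e ∉ Hc n U := fun e he =>
    ⟨hnH (hends e he).1, hnH (hends e he).2⟩
  have hb : q.2 ∈ Scan.Vs (q.1 : Set Ed) := mem_Vs.2 hq.base
  have hqVU : ∀ x ∈ qV q.1, x ∈ U := by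
    intro x hx
    obtain ⟨e, he, h3 | h3⟩ := mem_Vs.2 hx
    · rw [← h3]; exact (hends e he).1
    · rw [← h3]; exact (hends e he).2
  have hbU : q.2 ∈ U := hqVU _ hq.base
  obtain ⟨u, hu, hur⟩ := hM
  have hKc : ∀ x, clV (cfQ T U q) x =
      PercO.Kc (Scan.frz (Hc n U) (q.1 : Set Ed) (T : Set Ed)) x := by
    intro x
    rw [PercO.clV_eq, cfQ_eq hT, Scan.coe_frzF]
  have hcfU : ∀ x ∈ clV (cfQ T U q) q.2, x ∈ U := by
    intro x hx
    by_contra hc
    have h3 : x ∉ Hc n U := by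
      rw [hKc] at hx
      exact Scan.kc_avoid hQH (hnH hbU) hx
    rw [hKc] at hx
    rcases Scan.touch hb hx with h4 | ⟨y, hy, h4⟩
    · exact hc (hqVU x (mem_Vs.1 h4))
    · have h5 : x ∈ clV T y := by
        rw [PercO.clV_eq]; exact h4
      exact hc (clV_sub_of_inv hI (hqVU y (mem_Vs.1 hy)) h5)
  have huU : u ∈ U := hcfU u hu
  set V : Set (ℤ × ℤ) := {x | dist (toC x) (toC q.2) ≤ ρ} with hV
  have hVn : ∀ {x : ℤ × ℤ}, x ∉ V ↔ ρ < dist (toC x) (toC q.2) := by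
    intro x
    rw [hV, mem_ofPred_eq, not_le]
  have hVs : Scan.Vs (q.1 : Set Ed) ⊆ V := by
    intro x hx
    have := hq.diam x (mem_Vs.1 hx)
    rw [hV, mem_ofPred_eq]
    linarith
  have hqc : ∀ x ∈ clV (cfQ T U q) q.2, ∃ y ∈ qV q.1, x ∈ clV T y := by
    intro x hx
    rw [hKc] at hx
    rcases Scan.touch hb hx with h3 | ⟨y, hy, h3⟩
    · exact ⟨x, mem_Vs.1 h3, BoxAux.mem_clV_self _ _⟩
    · refine ⟨y, mem_Vs.1 hy, ?_⟩
      rw [PercO.clV_eq]; exact h3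
  refine ⟨u, huU, hu, fun k hk => ?_⟩
  obtain ⟨v, hv, w, hw, hvw1, hvw2⟩ := hq.att
  rw [cfQ_eq hT, rst_eq hT]
  refine Scan.same_outer hQ hT hC hH hQH hb (fun x hx => ?_) (mem_Vs.2 hv)
    (w := w) ((hc_or_ext hU).2 hw) ?_ hVs ?_ ?_
    (by rw [← cfQ_eq hT]; exact hu) (hVn.2 hur) (hVn.2 hk)
  · have h3 := hq.conn x (mem_Vs.1 hx)
    rw [PercO.clV_eq] at h3
    exact h3
  · unfold PercO.sd
    exact max_le hvw1 hvw2
  · intro x hx hxV y hy hyV
    rw [← cfQ_eq hT] at hx hy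
    obtain ⟨p, hp1, hp2⟩ := hqc x hx
    obtain ⟨p', hp1', hp2'⟩ := hqc y hy
    have h3 : p' ∈ clV T p := by
      by_contra hcon
      refine h2 ⟨p, hp1, p', hp1', ?_, ⟨x, ?_, hVn.1 hxV⟩, ⟨y, ?_, hVn.1 hyV⟩⟩
      · rw [clV_rst hI (hqVU p hp1)]; exact hcon
      · rw [clV_rst hI (hqVU p hp1)]; exact hp2
      · rw [clV_rst hI (hqVU p' hp1')]; exact hp2'
    rw [PercO.clV_eq] at hp2 hp2' h3 ⊢
    exact (Conn.symm hp2).trans (Conn.trans h3 hp2')
  · intro k₁ k₂ hk₁ hk₂ hp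
    refine hD ?_
    have hs1 : ∀ e : Ed, side e true = f2 e := fun e => rfl
    have hs2 : ∀ e : Ed, side e false = f1 e := by
      rintro ⟨x, y, s⟩
      cases s <;> simp [side, f1]
    have hstep : ∀ f g, Scan.DSt n (Hc n U) (q.1 : Set Ed) (T : Set Ed) f g →
        DStep n T U q g f := by
      rintro f g ⟨e, h3, h4, h5, h6, h7, h8⟩
      have h9 : ea e ∈ Box n ∧ eb e ∈ Box n := by
        have := (mem_EW.1 h3)
        rw [mem_Box_iff, mem_Box_iff]
        exact this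
      have h3' : e ∈ boxE n := PercO.mem_boxE'.2 h9
      have h6' : ea e ∈ U := by
        by_contra hc; exact h6 ⟨h9.1, hc⟩
      have h7' : eb e ∈ U := by
        by_contra hc; exact h7 ⟨h9.2, hc⟩
      refine ⟨e, h3', h6', h7', h4, h5, ?_⟩
      rw [hs1, hs2]
      rcases h8 with ⟨h8, h9⟩ | ⟨h8, h9⟩
      · exact Or.inl ⟨h9, h8⟩
      · exact Or.inr ⟨h9, h8⟩
    have hrev : ∀ f g, Relation.ReflTransGen (Scan.DSt n (Hc n U) (q.1 : Set Ed) (T : Set Ed))
        f g → Relation.ReflTransGen (DStep n T U q) g f := by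
      intro f g hfg
      induction hfg with
      | refl => exact .refl
      | tail _ h3 ih => exact .head (hstep _ _ h3) ih
    refine ⟨qry k₂, hk₂, ?_⟩
    have hb : ∃ b : Bool, side (qry k₂) b = fce k₂ := by
      rcases PercU.faces_qry k₂ with ⟨h3, -⟩ | ⟨-, h3⟩
      · exact ⟨false, by rw [hs2, h3]⟩
      · exact ⟨true, by rw [hs1, h3]⟩
    obtain ⟨b, hb⟩ := hb
    refine ⟨b, fce k₁, ?_, ?_⟩
    · rw [hb]
      exact hrev _ _ hp
    · have h3 := hVn.1 hk₁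
      have h4 := dist_vtx_ctr k₁
      have h5 := dist_triangle (toC (vtx k₁)) (ctr (fce k₁)) (toC q.2)
      linarith

end Pool.Agent.SixB.Rule
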