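import Pool.Agent.Lib.SixB.S8Walls
import Pool.Agent.Lib.SixB.S8NearTouch
import Pool.Agent.Lib.SixB.S8Lay
import Pool.Agent.Lib.SixB.S8Caps

/-!
# Step 8: a straight ray of faces away from a box

* `Out z r v`: the point `v` is outside of the box of radius `r` around `z`;
* `ray`: from a face `f` outside of the box a straight ray away from the box leaves the finite set `V`;
* `ray_sid`: for a component of the fresh faces the ray ends at a corner of the wall of colour `c`.
-/

set_option autoImplicit false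

namespace Pool.Agent.SixB.Side

open Finset Pool.Agent.Perc Pool.Agent.PercT Pool.Agent.Perc6
open Pool.Agent.SixB.Top

/-- The point `v` is outside of the box of radius `r` around `z`. -/
def Out (z : ℤ × ℤ) (r : ℤ) (v : ℤ × ℤ) : Prop := r < |v.1 - z.1| ∨ r < |v.2 - z.2|

variable {V : Set (ℤ × ℤ)} {f z : ℤ × ℤ} {r : ℤ}

theorem out_mono {r' : ℤ} {v : ℤ × ℤ} (h : Out z r v) (hr : r' ≤ r) : Out z r' v :=
  h.imp (fun h => hr.trans_lt h) fun h => hr.trans_lt h

/-- From a face outside of the box there is a direction away from the box. -/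
theorem exists_dir (hz : Out z r f) : ∃ δ : ℤ × ℤ, (∀ h : ℤ × ℤ, AdjF h (h.1 + δ.1, h.2 + δ.2)) ∧
    (δ.1 ≠ 0 ∨ δ.2 ≠ 0) ∧ ∀ k : ℤ, 0 ≤ k → Out z r (f.1 + k * δ.1, f.2 + k * δ.2) := by
  rcases hz with h | h
  · rcases le_total 0 (f.1 - z.1) with h1 | h1
    · refine ⟨(1, 0), fun h => ?_, Or.inl (by simp), fun k hk => Or.inl ?_⟩
      · simpa using adjF_right h.1 h.2
      · have h2 := abs_of_nonneg h1
        change r < |f.1 + k * 1 - z.1|
        rw [abs_of_nonneg (by omega)]
        omega
    · refine ⟨(-1, 0), fun h => ?_, Or.inl (by simp), fun k hk => Or.inl ?_⟩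
      · simpa [sub_eq_add_neg] using adjF_left h.1 h.2
      · have h2 := abs_of_nonpos h1
        change r < |f.1 + k * (-1) - z.1|
        rw [abs_of_nonpos (by omega)]
        omega
  · rcases le_total 0 (f.2 - z.2) with h1 | h1
    · refine ⟨(0, 1), fun h => ?_, Or.inr (by simp), fun k hk => Or.inr ?_⟩
      · simpa using adjF_up h.1 h.2
      · have h2 := abs_of_nonneg h1
        change r < |f.2 + k * 1 - z.2|
        rw [abs_of_nonneg (by omega)]
        omega
    · refine ⟨(0, -1), fun h => ?_, Or.inr (by simp), fun k hk => Or.inr ?_⟩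
      · simpa [sub_eq_add_neg] using adjF_down h.1 h.2
      · have h2 := abs_of_nonpos h1
        change r < |f.2 + k * (-1) - z.2|
        rw [abs_of_nonpos (by omega)]
        omega

/-- **The ray.** -/
theorem ray (hV : V.Finite) (hf : f ∈ V) (hz : Out z r f) :
    ∃ g g', ChI {h | h ∈ V ∧ Out z r h} f g ∧ g ∈ V ∧ Out z r g ∧ AdjF g g' ∧ g' ∉ V ∧
      Out z r g' := by
  classical
  obtain ⟨δ, hadj, hne, hout⟩ := exists_dir hz
  set P : ℕ → ℤ × ℤ := fun k => (f.1 + (k : ℤ) * δ.1, f.2 + (k : ℤ) * δ.2) with hP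
  have hinj : Function.Injective P := by
    intro i j h
    simp only [hP, Prod.mk.injEq, add_right_inj] at h
    rcases hne with h1 | h1
    · exact_mod_cast mul_right_cancel₀ h1 h.1
    · exact_mod_cast mul_right_cancel₀ h1 h.2
  have hex : ∃ k, P k ∉ V := by
    by_contra hno
    push Not at hno
    exact Set.not_infinite.2 hV ((Set.infinite_range_of_injective hinj).mono
      (Set.range_subset_iff.2 hno))
  have h0 : P 0 = f := by simp [hP]
  have hk0 : Nat.find hex ≠ 0 := by
    intro h
    have := Nat.find_spec hex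
    rw [h, h0] at this
    exact this hf
  obtain ⟨K, hK⟩ := Nat.exists_eq_succ_of_ne_zero hk0
  have hin : ∀ k ≤ K, P k ∈ V := by
    intro k hk
    by_contra h
    exact Nat.find_min hex (by omega) h
  have hO : ∀ k, Out z r (P k) := fun k => hout k (Int.natCast_nonneg k)
  have hstep : ∀ k, AdjF (P k) (P (k + 1)) := by
    intro k
    have e : P (k + 1) = ((P k).1 + δ.1, (P k).2 + δ.2) := by
      simp only [hP, Prod.mk.injEq]
      constructor <;> push_cast <;> ring
    rw [e]
    exact hadj (P k)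
  have hch : ∀ k ≤ K, ChI {h | h ∈ V ∧ Out z r h} f (P k) := by
    intro k
    induction k with
    | zero => intro _; rw [h0]; exact ChI.refl _
    | succ k ih =>
      intro hk
      exact (ih (by omega)).trans (ChI.single (hstep k) ⟨hin _ hk, hO _⟩)
  refine ⟨P K, P (K + 1), hch K le_rfl, hin K le_rfl, hO K, hstep K, ?_, hO _⟩
  rw [← Nat.succ_eq_add_one, ← hK]
  exact Nat.find_spec hex

/-- **The ray in a component of the fresh faces** ends at a corner of the wall of colour `c`, if all
walls of the component outside of the box have the colour `c`. -/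
theorem ray_sid {E : Ex} {ω : Cfg} {s : ℕ} {c : ℤ} (hc : c = 0 ∨ c = 1) (hf : f ∈ E.Fr ω s)
    (hfin : (compT (E.Fr ω s) f).Finite) (hz : Out z r f)
    (hcol : ∀ g g', g ∈ compT (E.Fr ω s) f → Out z r g → AdjF g g' → g' ∉ E.Fr ω s →
      ∀ v, IsCor g v → IsCor g' v → par v = c → E.Sid c ω s v) :
    ∃ g v, ChI {h | h ∈ compT (E.Fr ω s) f ∧ Out z r h} f g ∧ g ∈ compT (E.Fr ω s) f ∧
      Out z r g ∧ IsCor g v ∧ E.Sid c ω s v := by
  have _ := hf
  obtain ⟨g, g', h1, h2, h3, h4, h5, -⟩ := ray hfin self_mem_compT hz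
  have h6 : g' ∉ E.Fr ω s := fun h => h5 (compT_step h2 h4 h)
  obtain ⟨-, a, ha, ha'⟩ := h4
  refine ⟨g, en c a, h1, h2, h3, isCor_en ha c, ?_⟩
  exact hcol g g' h2 h3 ⟨fun h => h5 (h ▸ h2), a, ha, ha'⟩ h6 _ (isCor_en ha c) (isCor_en ha' c)
    (par_en hc a)

end Pool.Agent.SixB.Side
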