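import Pool.Agent.Lib.SixB.S8Caps
import Pool.Agent.Lib.SixB.S8Par

/-!
# Step 8: paths which stay uncrossed

`Ex.fix_pth`: at the time `s` there is no gate in the box of radius `R` around `v`, and the strand
after `s` makes no passage from the box of radius `r - 1` to distance `R` without touch of a wall of
colour `1 - c`. Then a path in the small box, which starts at a vertex of the side of colour `c` and is
not crossed up to the time `s`, is not crossed up to the end.
-/

set_option autoImplicit false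

namespace Pool.Agent.SixB.Side

open Finset Pool.Agent.Perc Pool.Agent.PercT Pool.Agent.Perc6 Pool.Agent.SixB
  Pool.Agent.SixB.NearCut Pool.Agent.SixB.Mv Pool.Agent.SixB.Top Pool.Agent.SixB.Par

variable {E : Ex} {ω : Cfg} {c : ℤ} {s T : ℕ} {v x y : ℤ × ℤ} {r R : ℤ}

/-- **One contour vertex is enough**: an uncrossed path from the side of colour `c` stays uncrossed. -/
theorem fix_pth (hc : c = 0 ∨ c = 1) (hn : Nb (E.cf ω) (E.e ω) T) (hW : E.Wll ω)
    (hy : E.Sid c ω s y) (hg : ¬ E.Gate ω s v R) (hO : ¬ E.OneWall (1 - c) ω s v r R)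
    (hT : ¬ InB v R (E.p ω T)) (hr : r - 1 ≤ R)
    (hP : Pth {a | InB v (r - 1) a ∧ ∀ l ≤ s, E.p ω l ≠ a} y x) :
    Pth {a | InB v (r - 1) a ∧ ∀ l ≤ T, E.p ω l ≠ a} y x := by
  have hc' : 1 - c = 0 ∨ 1 - c = 1 := by omega
  -- one edge
  have key : ∀ z z' a, Pth {a | InB v (r - 1) a ∧ ∀ l ≤ s, E.p ω l ≠ a} y z →
      InB v (r - 1) a → (∀ l ≤ s, E.p ω l ≠ a) → Joins a z z' → ∀ l ≤ T, E.p ω l ≠ a := by
    intro z z' a hyz ha has hj l hl hla
    have hsl : s < l := by
      by_contra hcon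
      exact has l (by omega) hla
    -- the first time outside of the large box
    have hex : ∃ j, l ≤ j ∧ ¬ InB v R (E.p ω j) := ⟨T, hl, hT⟩
    classical
    obtain ⟨hj1, hj2⟩ := Nat.find_spec hex
    set j := Nat.find hex with hjd
    have hjT : j ≤ T := Nat.find_min' hex ⟨hl, hT⟩
    have hin : ∀ m, l ≤ m → m < j → InB v R (E.p ω m) := by
      intro m h1 h2
      by_contra h3
      exact Nat.find_min hex h2 ⟨h1, h3⟩
    -- a touch
    obtain ⟨k, hk1, hk2, hk3⟩ : ∃ k, l ≤ k ∧ k < j ∧ E.Touch (1 - c) ω s k := by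
      by_contra hno
      push Not at hno
      exact hO ⟨l, j, hsl.le, hj1, hla ▸ ha, hj2, fun k h1 h2 h3 => hno k h1 h2 h3⟩
    have hsid := Ex.sid_touch hW hc' hk3
    -- the path
    have h1 : Pth {a | InB v R a ∧ ∀ l ≤ s, E.p ω l ≠ a} y z :=
      hyz.mono fun b hb => ⟨hb.1.mono hr, hb.2⟩
    have hz : z = ua (E.p ω l) ∨ z = ub (E.p ω l) := by
      rw [hla]
      rcases hj with ⟨h2, -⟩ | ⟨h2, -⟩
      · exact Or.inl h2
      · exact Or.inr h2
    have h2 : Pth {a | InB v R a ∧ ∀ l ≤ s, E.p ω l ≠ a} z (en (1 - c) (E.p ω k)) := by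
      refine (Ex.pth_strand hk1 hz (en_or _ _)).mono ?_
      rintro b ⟨m, m1, m2, rfl⟩
      refine ⟨hin m m1 (by omega), fun l' hl' h3 => ?_⟩
      have := hn.inj (by omega) (by omega) h3
      omega
    have h3 : Pth {a | InB v R a ∧ ∀ l ≤ s, E.p ω l ≠ a} y (en (1 - c) (E.p ω k)) :=
      Relation.ReflTransGen.trans h1 h2
    rcases hc with rfl | rfl
    · exact hg ⟨_, _, hy, by simpa using hsid, by simpa using h3⟩
    · exact hg ⟨_, _, by simpa using hsid, hy, by simpa using Pth.symm h3⟩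
  -- induction
  clear hO hT
  induction hP with
  | refl => exact Relation.ReflTransGen.refl
  | tail h1 h2 ih =>
    obtain ⟨a, ⟨ha, has⟩, hj⟩ := h2
    exact Relation.ReflTransGen.tail ih ⟨a, ⟨ha, key _ _ a h1 ha has hj⟩, hj⟩

end Pool.Agent.SixB.Side
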