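import Pool.Agent.Lib.SixB.S8ParBase
import Pool.Agent.Lib.SixB.S8SideF
import Pool.Agent.Lib.SixB.S8Close

/-!
# Step 8: the side of a deep face, the exit vertices

`C` is a fresh set of faces at the time `s` with anchors of colour `lam`, `Ero C D b₀ Rb` is the set of
the faces at distance more than `D` from the complement of `C` and off the base box. `exv S f i` is the
exit vertex of the ray from `f` in the direction `i`.

* `exists_exit`: one of the four exit vertices is far from three given points.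
* `side_walk`: if `S = Ero C D b₀ Rb` is not visited up to `T` and at one exit vertex there is no gate at the
  time `s` and no passage without touch of the other colour, then the corners of `f` are joined to a
  vertex of the wall of colour `lam` by a walk which is not crossed up to `T`.
-/

set_option autoImplicit false

namespace Pool.Agent.SixB.SideV

open Finset Pool.Agent.Perc Pool.Agent.PercT Pool.Agent.Perc6 Pool.Agent.SixB
  Pool.Agent.SixB.NearCut Pool.Agent.SixB.Mv Pool.Agent.SixB.Top Pool.Agent.SixB.Par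
open Pool.Agent.Perc.Tips (ahead rv)

/-! ### Walks along the sides of faces -/

section Faces

variable {Z : Set (ℤ × ℤ)} {g g' h k v w x c : ℤ × ℤ} {D : ℤ}

/-- A corner of a face is joined to the lower left corner. -/
theorem pth_cor (hx : IsCor k x) : Pth {a | IsSide k a} k x := by
  obtain ⟨k1, k2⟩ := k
  obtain ⟨x1, x2⟩ := x
  have e1 : Joins (bo (k1, k2)) (k1, k2) (k1 + 1, k2) := Or.inl ⟨by simp [bo, ua], by simp [bo, ub]⟩
  have e2 : Joins (le' (k1, k2)) (k1, k2) (k1, k2 + 1) :=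
    Or.inl ⟨by simp [le', ua], by simp [le', ub]⟩
  have e3 : Joins (ri (k1, k2)) (k1 + 1, k2) (k1 + 1, k2 + 1) :=
    Or.inl ⟨by simp [ri, ua], by simp [ri, ub]⟩
  obtain ⟨h1 | h1, h2 | h2⟩ := hx <;> simp only at h1 h2 <;> rw [h1, h2]
  · exact Relation.ReflTransGen.refl
  · exact Relation.ReflTransGen.single ⟨_, Or.inr (Or.inl rfl), e2⟩
  · exact Relation.ReflTransGen.single ⟨_, Or.inl rfl, e1⟩
  · exact Relation.ReflTransGen.tail (Relation.ReflTransGen.single ⟨_, Or.inl rfl, e1⟩)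
      ⟨_, Or.inr (Or.inr (Or.inr rfl)), e3⟩

/-- Two corners of a face. -/
theorem pth_face (hx : IsCor k x) (hw : IsCor k w) : Pth {a | IsSide k a} x w :=
  (Pth.symm (pth_cor hx)).trans (pth_cor hw)

/-- The common corner of two adjacent faces. -/
def ccor (g g' : ℤ × ℤ) : ℤ × ℤ := (max g.1 g'.1, max g.2 g'.2)

theorem ccor_spec (h : Adj g g') : IsCor g (ccor g g') ∧ IsCor g' (ccor g g') := by
  obtain ⟨g1, g2⟩ := g
  obtain ⟨g1', g2'⟩ := g'
  unfold Adj at h
  unfold IsCor ccor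
  simp only at h ⊢
  omega

/-- Corners of the faces of a chain. -/
theorem pth_chn (hc : EndApp.CC Adj Z g h) (hg : g ∈ Z) (hx : IsCor g x) (hw : IsCor h w) :
    Pth {a | ∃ k ∈ Z, IsSide k a} x w := by
  have key : h ∈ Z ∧ ∀ w, IsCor h w → Pth {a | ∃ k ∈ Z, IsSide k a} x w := by
    clear hw
    induction hc with
    | refl => exact ⟨hg, fun w hw => (pth_face hx hw).mono fun a ha => ⟨_, hg, ha⟩⟩
    | @tail b c _ hs ih =>
      refine ⟨hs.2, fun w hw => ?_⟩
      have h1 := ccor_spec hs.1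
      exact (ih.2 _ h1.1).trans ((pth_face h1.2 hw).mono fun a ha => ⟨_, hs.2, ha⟩)
  exact key.2 w hw

/-- Chains in a box. -/
theorem box_chn (hx : Nb2 c g D) (hy : Nb2 c h D) : EndApp.CC Adj {z | Nb2 c z D} g h := by
  have key1 : ∀ n : ℕ, ∀ u v : ℤ × ℤ, v.1 = u.1 + n → v.2 = u.2 → Nb2 c u D → Nb2 c v D →
      EndApp.CC Adj {z | Nb2 c z D} u v ∧ EndApp.CC Adj {z | Nb2 c z D} v u := by
    intro n
    induction n with
    | zero =>
      intro u v h1 h2 _ _
      have : v = u := by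
        refine Prod.ext ?_ h2
        simpa using h1
      subst this
      exact ⟨Relation.ReflTransGen.refl, Relation.ReflTransGen.refl⟩
    | succ n ih =>
      intro u v h1 h2 h3 h4
      push_cast at h1
      have h3' := h3
      have h4' := h4
      unfold Nb2 at h3 h4
      rw [abs_le, abs_le] at h3 h4
      have hu : Nb2 c (u.1 + 1, u.2) D := by
        unfold Nb2
        rw [abs_le, abs_le]
        simp only
        omega
      obtain ⟨i1, i2⟩ := ih (u.1 + 1, u.2) v (by simp only; omega) h2 hu h4'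
      have a1 : Adj u (u.1 + 1, u.2) := by
        unfold Adj
        simp
      have a2 : Adj (u.1 + 1, u.2) u := by
        unfold Adj
        simp
      exact ⟨Relation.ReflTransGen.head ⟨a1, hu⟩ i1, Relation.ReflTransGen.tail i2 ⟨a2, h3'⟩⟩
  have key2 : ∀ n : ℕ, ∀ u v : ℤ × ℤ, v.2 = u.2 + n → v.1 = u.1 → Nb2 c u D → Nb2 c v D →
      EndApp.CC Adj {z | Nb2 c z D} u v ∧ EndApp.CC Adj {z | Nb2 c z D} v u := by
    intro n
    induction n with
    | zero =>
      intro u v h1 h2 _ _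
      have : v = u := by
        refine Prod.ext h2 ?_
        simpa using h1
      subst this
      exact ⟨Relation.ReflTransGen.refl, Relation.ReflTransGen.refl⟩
    | succ n ih =>
      intro u v h1 h2 h3 h4
      push_cast at h1
      have h3' := h3
      have h4' := h4
      unfold Nb2 at h3 h4
      rw [abs_le, abs_le] at h3 h4
      have hu : Nb2 c (u.1, u.2 + 1) D := by
        unfold Nb2
        rw [abs_le, abs_le]
        simp only
        omega
      obtain ⟨i1, i2⟩ := ih (u.1, u.2 + 1) v (by simp only; omega) h2 hu h4'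
      have a1 : Adj u (u.1, u.2 + 1) := by
        unfold Adj
        simp
      have a2 : Adj (u.1, u.2 + 1) u := by
        unfold Adj
        simp
      exact ⟨Relation.ReflTransGen.head ⟨a1, hu⟩ i1, Relation.ReflTransGen.tail i2 ⟨a2, h3'⟩⟩
  have hm : Nb2 c (h.1, g.2) D := ⟨hy.1, hx.2⟩
  have h1 : EndApp.CC Adj {z | Nb2 c z D} g (h.1, g.2) := by
    rcases le_total g.1 h.1 with hh | hh
    · exact (key1 (h.1 - g.1).toNat g (h.1, g.2) (by simp only; omega) rfl hx hm).1
    · exact (key1 (g.1 - h.1).toNat (h.1, g.2) g (by simp only; omega) rfl hm hx).2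
  have h2 : EndApp.CC Adj {z | Nb2 c z D} (h.1, g.2) h := by
    rcases le_total g.2 h.2 with hh | hh
    · exact (key2 (h.2 - g.2).toNat (h.1, g.2) h (by simp only; omega) rfl hm hy).1
    · exact (key2 (g.2 - h.2).toNat h (h.1, g.2) (by simp only; omega) rfl hy hm).2
  exact Relation.ReflTransGen.trans h1 h2

theorem lf_cor' (B : UE × Bool) : IsCor (ahead B) (lf B) := by
  obtain ⟨⟨x, y, _ | _⟩, _ | _⟩ := B <;> simp [ahead, lf, IsCor]

end Faces

/-! ### Rays -/

/-- The four directions. -/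
def ofs (i : Fin 4) : ℤ × ℤ := ![(1, 0), (0, 1), (-1, 0), (0, -1)] i

/-- The face number `n` of the ray from `f` in the direction `i`. -/
def rayF (f : ℤ × ℤ) (i : Fin 4) (n : ℕ) : ℤ × ℤ := (f.1 + n * (ofs i).1, f.2 + n * (ofs i).2)

/-- The number of the last face of the first part of the ray in `S`. -/
noncomputable def exn (S : Set (ℤ × ℤ)) (f : ℤ × ℤ) (i : Fin 4) : ℕ :=
  sInf {n | rayF f i (n + 1) ∉ S}

/-- The exit vertex. -/
noncomputable def exv (S : Set (ℤ × ℤ)) (f : ℤ × ℤ) (i : Fin 4) : ℤ × ℤ :=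
  ccor (rayF f i (exn S f i)) (rayF f i (exn S f i + 1))

section Rays

variable {S : Set (ℤ × ℤ)} {f : ℤ × ℤ} {i : Fin 4} {n : ℕ} {ρ₀ R : ℤ}

theorem ray_adj (f : ℤ × ℤ) (i : Fin 4) (n : ℕ) : Adj (rayF f i n) (rayF f i (n + 1)) := by
  unfold Adj rayF ofs
  fin_cases i <;> simp <;> omega

theorem ray_zero : rayF f i 0 = f := by
  unfold rayF
  simp

theorem ray_exit (hS : S.Finite) : ∃ n, rayF f i (n + 1) ∉ S := by
  by_contra hno
  push Not at hno
  have hinj : Function.Injective fun n : ℕ => rayF f i (n + 1) := by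
    intro a b hab
    unfold rayF ofs at hab
    fin_cases i <;> simp at hab <;> omega
  exact Set.infinite_of_injective_forall_mem hinj hno hS

theorem exn_spec (hS : S.Finite) : rayF f i (exn S f i + 1) ∉ S := by
  have h : exn S f i ∈ {n | rayF f i (n + 1) ∉ S} := Nat.sInf_mem (ray_exit hS)
  exact h

theorem exn_lt (hn : n < exn S f i) : rayF f i (n + 1) ∈ S := by
  by_contra h
  exact Nat.notMem_of_lt_sInf hn h

theorem ray_mem (hf : f ∈ S) (hn : n ≤ exn S f i) : rayF f i n ∈ S := by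
  rcases Nat.eq_zero_or_pos n with rfl | h
  · rwa [ray_zero]
  · obtain ⟨m, rfl⟩ : ∃ m, n = m + 1 := ⟨n - 1, by omega⟩
    exact exn_lt (by omega)

/-- The chain along the ray. -/
theorem ray_chn (hf : f ∈ S) (hn : n ≤ exn S f i) : EndApp.CC Adj S f (rayF f i n) := by
  induction n with
  | zero =>
    rw [ray_zero]
    exact Relation.ReflTransGen.refl
  | succ n ih =>
    exact Relation.ReflTransGen.tail (ih (by omega)) ⟨ray_adj f i n, ray_mem hf hn⟩

/-- The ray is at least as long as the box. -/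
theorem exn_ge (hS : S.Finite) (hbox : ∀ g : ℤ × ℤ, Nb2 f g ρ₀ → g ∈ S) : ρ₀ ≤ exn S f i := by
  by_contra hlt
  push Not at hlt
  refine exn_spec (i := i) (f := f) hS (hbox _ ?_)
  generalize exn S f i = m at hlt
  unfold Nb2 rayF ofs
  rw [abs_le, abs_le]
  fin_cases i <;> simp <;> omega

/-- **One of the four exit vertices is far from three given points.** -/
theorem exists_exit (hS : S.Finite) (hbox : ∀ g : ℤ × ℤ, Nb2 f g ρ₀ → g ∈ S)
    (hR : 2 * R + 4 ≤ ρ₀) (q : Fin 3 → ℤ × ℤ) : ∃ i : Fin 4, ∀ j, ¬ Nb2 (q j) (exv S f i) R := by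
  by_contra hno
  push Not at hno
  choose j hj using hno
  -- two directions with the same point
  obtain ⟨a, b, hab, hjab⟩ := Fintype.exists_ne_map_eq_of_card_lt j (by simp)
  have h1 := hj a
  have h2 := hj b
  rw [hjab] at h1
  have e1 := exn_ge (i := a) hS hbox
  have e2 := exn_ge (i := b) hS hbox
  generalize q (j b) = z at h1 h2
  unfold Nb2 exv at h1 h2
  generalize exn S f a = m at h1 e1
  generalize exn S f b = n at h2 e2
  rw [abs_le, abs_le] at h1 h2
  unfold ccor rayF ofs at h1 h2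
  fin_cases a <;> fin_cases b <;> simp at h1 h2 hab <;> omega

end Rays

/-! ### The deep faces -/

/-- The faces at distance more than `D` from the complement of `C`, off the base box. -/
def Ero (C : Set (ℤ × ℤ)) (D : ℤ) (b₀ : ℤ × ℤ) (Rb : ℤ) : Set (ℤ × ℤ) :=
  {g | (∀ h : ℤ × ℤ, Nb2 g h D → h ∈ C) ∧ ¬ Nb2 b₀ g Rb}

section Side

variable {E : Ex} {ω : Cfg} {C S : Set (ℤ × ℤ)} {lam : ℤ} {s T t : ℕ} {D r r₁ R Rb : ℤ}
  {b₀ f g v x : ℤ × ℤ} {i : Fin 4} {a : UE}

theorem ero_sub (hD : 0 ≤ D) : Ero C D b₀ Rb ⊆ C := fun g hg => hg.1 g ⟨by simpa using hD, by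
  simpa using hD⟩

/-- A vertex of the boundary of the deep faces off the base box is near a side of `C`: a walk along the
sides of faces of `C`. -/
theorem exit_walk (hD : 0 ≤ D) {g' : ℤ × ℤ} (hg : g ∈ Ero C D b₀ Rb) (hadj : Adj g g')
    (hg' : g' ∉ Ero C D b₀ Rb) (hb : ¬ Nb2 b₀ g' Rb) (hv : IsCor g v) (hv' : IsCor g' v) :
    ∃ B, BD C B ∧ Nb2 v (lf B) (D + 2) ∧
      Pth {a | InB v (D + 2) a ∧ ∃ k ∈ C, IsSide k a} v (lf B) := by
  have hgC : g ∈ C := ero_sub hD hg
  -- a near face outside of `C`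
  obtain ⟨h, hh, hhC⟩ : ∃ h, Nb2 g' h D ∧ h ∉ C := by
    by_contra hno
    push Not at hno
    exact hg' ⟨hno, hb⟩
  have hgg : Nb2 g' g (D + 1) := by
    have := hadj
    unfold Adj at this
    unfold Nb2
    rw [abs_le, abs_le]
    omega
  have hh' : Nb2 g' h (D + 1) := by
    obtain ⟨h1, h2⟩ := hh
    exact ⟨h1.trans (by omega), h2.trans (by omega)⟩
  have hch := box_chn hgg hh'
  obtain ⟨p, k, h1, h2, h3, h4, h5⟩ := hch.exit hgC hhC
  obtain ⟨B, hB1, hB2⟩ := adjF_dir (adj_iff_adjFL.1 h3)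
  have hBD : BD C B := ⟨by rw [hB1]; exact h2, by rw [hB2]; exact h5⟩
  have hpth := pth_chn h1 ⟨hgg, hgC⟩ hv (by rw [← hB1]; exact lf_cor' B)
  -- positions
  have hpos : ∀ z : ℤ × ℤ, Nb2 g' z (D + 1) → ∀ y, IsCor z y → Nb2 v y (D + 2) := by
    intro z hz y hy
    have hz1 := abs_le.1 hz.1
    have hz2 := abs_le.1 hz.2
    unfold IsCor at hy hv'
    unfold Nb2
    rw [abs_le, abs_le]
    omega
  have hp2 : p ∈ {z | Nb2 g' z (D + 1)} := by
    have : p ∈ {z | Nb2 g' z (D + 1)} ∩ C := by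
      rcases Relation.ReflTransGen.cases_tail h1 with h | ⟨b, -, hb⟩
      · rw [h]
        exact ⟨hgg, hgC⟩
      · exact hb.2
    exact this.1
  refine ⟨B, hBD, hpos p hp2 _ (by rw [← hB1]; exact lf_cor' B), hpth.mono ?_⟩
  rintro b ⟨k', ⟨hk1, hk2⟩, hb⟩
  refine ⟨?_, k', hk2, hb⟩
  have hcor : IsCor k' (ua b) := by
    rcases hb with rfl | rfl | rfl | rfl <;> simp [IsCor, bo, le', to', ri, ua]
  have h6 := hpos k' hk1 _ hcor
  have h7 := abs_le.1 h6.1
  have h8 := abs_le.1 h6.2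
  unfold InB InR
  omega

/-- The sides of fresh faces, except the tip side, are not crossed. -/
theorem uncr_C (hb : fb (E.e ω) ∉ E.U ω) (hCF : C ⊆ E.Fr ω s) {k : ℤ × ℤ} (hk : k ∈ C)
    (ha : IsSide k a) (hne : E.p ω s ≠ a) : ∀ l ≤ s, E.p ω l ≠ a := by
  intro l hl h
  rcases Nat.lt_or_ge l s with h1 | h1
  · exact NearCut.not_crossed hb h1 ⟨k, hCF hk, h ▸ ha⟩
  · have : l = s := le_antisymm hl h1
    subst this
    exact hne h

/-- The sides of unvisited fresh faces are not crossed. -/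
theorem uncr_S (hb : fb (E.e ω) ∉ E.U ω) (hSF : S ⊆ E.Fr ω s)
    (hns : ∀ t, s ≤ t → t ≤ T → fa (E.p ω t) ∉ S) {k : ℤ × ℤ} (hk : k ∈ S)
    (ha : IsSide k a) : ∀ l ≤ T, E.p ω l ≠ a := by
  have hno : ∀ l ≤ T, fa (E.p ω l) ≠ k := by
    intro l hl h
    rcases Nat.lt_or_ge l s with h1 | h1
    · exact NearCut.fa_not_fr h1 (h ▸ hSF hk)
    · exact hns l h1 hl (h ▸ hk)
  intro l hl h
  rw [← h] at ha
  rcases isSide_iff.1 ha with h3 | h3
  · exact hno l hl h3.symm
  · cases l with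
    | zero => exact hb (h3 ▸ (hSF hk).1)
    | succ l =>
      have h4 : fb (E.p ω (l + 1)) = fa (E.p ω l) := fb_pth_succ _ _ _
      exact hno l (by omega) (h4 ▸ h3.symm)

/-- A walk of uncrossed unit edges. -/
theorem wk_of_pth {y : ℤ × ℤ} (h : Pth {a | ∀ l ≤ T, E.p ω l ≠ a} y x) :
    Wk Set.univ (cr E ω T) y x 0 := by
  induction h with
  | refl => exact Wk.nil _
  | tail _ hs ih =>
    obtain ⟨a, ha, hj⟩ := hs
    have h1 := ih.trans (Wk.single (Set.mem_univ a) hj)
    rwa [cr_uncr ha, add_zero] at h1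

/-- **The side of a deep face.** -/
theorem side_walk (hW : E.Wll ω) (hb : fb (E.e ω) ∉ E.U ω) (hn : Nb (E.cf ω) (E.e ω) T)
    (hlam : lam = 0 ∨ lam = 1) (hCF : C ⊆ E.Fr ω s) (hC : C.Finite) (hD : 0 ≤ D)
    (hf : f ∈ Ero C D b₀ Rb) (hvb : ¬ Nb2 b₀ (exv (Ero C D b₀ Rb) f i) (Rb + 2))
    (hvs : ¬ InB (exv (Ero C D b₀ Rb) f i) R (E.p ω s))
    (hvT : ¬ InB (exv (Ero C D b₀ Rb) f i) R (E.p ω T))
    (anc : ∀ B, BD C B → Nb2 (exv (Ero C D b₀ Rb) f i) (lf B) (D + 2) → ∃ y, E.Sid lam ω s y ∧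
      Pth {a | InB (lf B) r a ∧ ∀ l ≤ s, E.p ω l ≠ a} (lf B) y)
    (hr0 : 0 ≤ r) (hr : D + r + 6 ≤ r₁) (hrR : r₁ ≤ R + 1)
    (hg : ¬ E.Gate ω s (exv (Ero C D b₀ Rb) f i) R)
    (hO : ¬ E.OneWall (1 - lam) ω s (exv (Ero C D b₀ Rb) f i) r₁ R)
    (hns : ∀ t, s ≤ t → t ≤ T → fa (E.p ω t) ∉ Ero C D b₀ Rb) :
    ∃ y, E.Sid lam ω s y ∧ ∀ x, IsCor f x → Wk Set.univ (cr E ω T) y x 0 := by
  set S := Ero C D b₀ Rb with hS
  have hSC : S ⊆ C := ero_sub hD
  have hSf : S.Finite := hC.subset hSC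
  set v := exv S f i with hv
  have hadj : Adj (rayF f i (exn S f i)) (rayF f i (exn S f i + 1)) := ray_adj f i _
  have hcc := ccor_spec hadj
  change IsCor _ v ∧ IsCor _ v at hcc
  -- the exit is not at the base box
  have hb' : ¬ Nb2 b₀ (rayF f i (exn S f i + 1)) Rb := by
    intro h
    refine hvb ?_
    have h1 := abs_le.1 h.1
    have h2 := abs_le.1 h.2
    have h3 := hcc.2
    unfold IsCor at h3
    unfold Nb2
    rw [abs_le, abs_le]
    omega
  obtain ⟨B, hB, hBv, hBp⟩ := exit_walk hD (ray_mem hf le_rfl) hadj (exn_spec hSf) hb' hcc.1 hcc.2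
  obtain ⟨y, hy, hyp⟩ := anc B hB hBv
  -- the hop from `v`
  have hhop : Pth {a | InB v (r₁ - 1) a ∧ ∀ l ≤ s, E.p ω l ≠ a} v y := by
    refine Relation.ReflTransGen.trans (hBp.mono ?_) (hyp.mono ?_)
    · rintro a ⟨h1, k, hk, hka⟩
      refine ⟨h1.mono (by omega), uncr_C hb hCF hk hka fun h => hvs ?_⟩
      rw [h]
      exact h1.mono (by omega)
    · rintro a ⟨h1, h2⟩
      refine ⟨?_, h2⟩
      have h3 := abs_le.1 hBv.1
      have h4 := abs_le.1 hBv.2
      unfold InB InR at h1 ⊢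
      omega
  have hfix := Side.fix_pth hlam hn hW hy hg hO hvT (by omega) (Pth.symm hhop)
  refine ⟨y, hy, fun x hx => wk_of_pth ?_⟩
  refine Relation.ReflTransGen.trans (hfix.mono fun a ha => ha.2) ?_
  have h1 := pth_chn (ray_chn (i := i) hf le_rfl) hf hx hcc.1
  refine (Pth.symm h1).mono ?_
  rintro a ⟨k, hk, hka⟩
  exact uncr_S hb (hSC.trans hCF) hns hk hka

end Side

end Pool.Agent.SixB.SideV
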