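import Pool.Agent.Lib.SixB.S8Hook
import Pool.Agent.Lib.SixB.S8Chain
import Pool.Agent.Lib.SixB.S8LemCa

/-!
# Step 8: the base of the needle is near the start of the hook

* `base_near`: for the needle `ndT (FU V) P G a y` with a hook of radius `r` the first unit edge of the strand and
  the face in front of it are within `r + 4` of `y`.
-/

set_option autoImplicit false

namespace Pool.Agent.SixB.Hook

open Pool.Agent.Perc Pool.Agent.PercU Pool.Agent.PercT Pool.Agent.PercX60
open Pool.Agent.MP_6bd702.H23 (Ed ea eb ea_mk eb_true eb_false)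
open Pool.Agent.SixB Pool.Agent.SixB.Rule Pool.Agent.SixB.Dct Pool.Agent.SixB.Top
open Pool.Agent.SixB.Ndle (sd ndF ndA ndB)

variable {V : Finset (ℤ × ℤ)} {P : Set (ℤ × ℤ)} {G : Finset (ℤ × ℤ)} {a y : ℤ × ℤ} {r : ℕ}

/-- The unit edge of a corner is near its vertex. -/
theorem near_kU (k : Cor) : Sq (phiV (vtx k)) (fa (kU k)) ∧ LC.InB (phiV (vtx k)) 1 (ua (kU k)) := by
  rw [fa_kU]
  obtain ⟨x, y, _ | _, _ | _⟩ := k <;> constructor <;>
    simp only [Sq, LC.InB, phiV, vtx, phiE, qry, kU, ua] <;> simp <;> omega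

theorem Pre.bc_vtx (H : Pre V P G a y r) :
    vtx (bc V (ndT (FU V) P G a y).1 (ndT (FU V) P G a y).2) = hkB (FU V) P a y := by
  obtain ⟨k, h1, h2, -⟩ := H.ndF
  have h3 := bc_spec ⟨k, h1, h2⟩
  rw [h3.2]
  rfl

/-- **The base is near the start of the hook.** -/
theorem base_near (H : Pre V P G a y r) :
    LC.InB y (r + 4) (ua (Tru.eS V (ndT (FU V) P G a y))) ∧
      ∀ w, sd (fa (Tru.pS V (ndT (FU V) P G a y) w 0)) y ≤ r + 4 := by
  have h1 := near_kU (bc V (ndT (FU V) P G a y).1 (ndT (FU V) P G a y).2)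
  rw [H.bc_vtx] at h1
  have h2 := H.base_spec.2
  have h3 : sd (hkE (FU V) P y) y ≤ r := hk_box H.hook le_rfl
  unfold sd at h3
  have h4 := (le_max_left _ _).trans h3
  have h5 := (le_max_right _ _).trans h3
  rw [abs_le] at h4 h5
  obtain ⟨h6, h7⟩ := h1
  unfold Sq at h6 h2
  unfold LC.InB at h7
  constructor
  · unfold LC.InB Tru.eS
    omega
  · intro w
    have e : Tru.pS V (ndT (FU V) P G a y) w 0 = kU (bc V (ndT (FU V) P G a y).1 (ndT (FU V) P G a y).2) := rfl
    rw [e]
    unfold sd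
    refine max_le ?_ ?_ <;> rw [abs_le] <;> omega

end Pool.Agent.SixB.Hook
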