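import Pool.Agent.Lib.SixB.S8Start
import Pool.Agent.Lib.SixB.S8Thick

/-!
# Step 8: the tip side and the target side at the start of a needle step

`R` is a component of `P` without the cells of the needle. The contour of `R`, started at the tip side
`tipS P R` (a side of `P`), consists of sides with a face of `VQ` behind them, and, from the target side
`tgtS P R` on, of sides of `P`.
-/

set_option autoImplicit false

namespace Pool.Agent.SixB.StartA

open Pool.Agent.Perc Pool.Agent.Perc6 Pool.Agent.Perc6.C2Aux Pool.Agent.Perc.Tips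
open Pool.Agent.SixB.Top Pool.Agent.SixB.LC Pool.Agent.SixB.Mv

variable {P Q R : Set (ℤ × ℤ)} {γ : ℤ × ℤ → ℤ × ℤ} {f₀ q₀ g₀ : ℤ × ℤ}

/-- A directed side with given faces. -/
theorem exists_dir {f g : ℤ × ℤ} (h : AdjF f g) : ∃ B : UE × Bool, ahead B = f ∧ ahead (rv B) = g := by
  obtain ⟨hne, a, hf, hg⟩ := h
  have h1 := ahead_ne (a, true)
  have h2 : IsSide (ahead (a, true)) a := sideA (a, true)
  have h3 : IsSide (ahead (rv (a, true))) a := sideB (a, true)
  rcases side_two h1 h2 h3 hf with rfl | rfl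
  · rcases side_two h1 h2 h3 hg with rfl | rfl
    · exact absurd rfl hne
    · exact ⟨(a, true), rfl, rfl⟩
  · rcases side_two h1 h2 h3 hg with rfl | rfl
    · exact ⟨(a, false), rfl, rfl⟩
    · exact absurd rfl hne

/-- `A` is a common side of `P` and `R`, the next side of `R` is not a side of `P`. -/
def IsTip (P R : Set (ℤ × ℤ)) (A : UE × Bool) : Prop := BD P A ∧ BD R A ∧ ¬ BD P (sc R A)

open Classical in
/-- The tip side. -/
noncomputable def tipS (P R : Set (ℤ × ℤ)) : UE × Bool :=
  if h : ∃ A, IsTip P R A then h.choose else ((0, 0, false), false)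

open Classical in
/-- The index of the target side. -/
noncomputable def tgtN (P R : Set (ℤ × ℤ)) : ℕ :=
  if h : ∃ n, 0 < n ∧ BD P (side R (tipS P R) n) then Nat.find h else 0

/-- The target side. -/
noncomputable def tgtS (P R : Set (ℤ × ℤ)) : UE × Bool := side R (tipS P R) (tgtN P R)

theorem tipS_spec (h : ∃ A, IsTip P R A) : IsTip P R (tipS P R) := by
  unfold tipS
  rw [dif_pos h]
  exact h.choose_spec

/-- The state at the start: `P`, `R`, the period `m` of the contour of `R`. -/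
structure StartD (P V R : Set (ℤ × ℤ)) (m : ℕ) : Prop where
  cyc : Cyc R (tipS P R) m
  bd : BD P (tipS P R)
  one : 1 < tgtN P R
  le : tgtN P R ≤ m
  mid : ∀ i, 0 < i → i < tgtN P R → outF R (tipS P R) i ∈ V
  lst : ∀ i, tgtN P R ≤ i → i ≤ m → BD P (side R (tipS P R) i)
  uniq : ∀ A, IsTip P R A → A = tipS P R

theorem StartD.bdB {V : Set (ℤ × ℤ)} {m : ℕ} (h : StartD P V R m) : BD P (tgtS P R) :=
  h.lst _ le_rfl h.le

theorem StartD.bdRB {V : Set (ℤ × ℤ)} {m : ℕ} (h : StartD P V R m) : BD R (tgtS P R) :=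
  bd_side h.cyc.bd _

/-- **The tip and the target at the start.** -/
theorem start_dom (hPf : P.Finite) (hPc : Top.EConn P) (hPe : Esc P)
    (hγP : ∀ x y, γ x = γ y → x ∈ P → y ∈ P) (hγ : ∀ x y, γ x = γ y → Chn {z | γ z = γ x} x y)
    (hQ : ∀ q ∈ Q, q ∈ P → JoinIn (Q ∩ P) q q₀) (hq₀ : q₀ ∈ Q) (hq₀P : q₀ ∈ P) (hg₀ : g₀ ∉ P)
    (hqg : AdjF q₀ g₀) (hf₀ : f₀ ∈ P \ VQ P Q γ)
    (hcom : ∃ A, BD P A ∧ BD (compT (P \ VQ P Q γ) f₀) A) :
    ∃ m, StartD P (VQ P Q γ) (compT (P \ VQ P Q γ) f₀) m := by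
  classical
  set R := compT (P \ VQ P Q γ) f₀ with hR
  obtain ⟨A₀, hA, hAR⟩ := hcom
  have hVR : ∀ f ∈ VQ P Q γ, f ∉ R := fun f hf h => (compT_sub hf₀ h).2 hf
  obtain ⟨hRc, hRe⟩ := comp_start hPf hPe hγP hγ hQ hg₀ hqg hf₀
  have hRf : R.Finite := hPf.subset (comp_sub_P hf₀)
  obtain ⟨mP, hmP⟩ := exists_cyc hPf hPc hPe hA
  obtain ⟨mR, hmR⟩ := exists_cyc hRf hRc hRe hAR
  obtain ⟨B₀, hB1, hB2⟩ := exists_dir hqg
  have hB₀ : BD P B₀ := ⟨by rw [hB1]; exact hq₀P, by rw [hB2]; exact hg₀⟩
  obtain ⟨p, hp, hpB⟩ := hmP.exists_index hB₀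
  obtain ⟨s, t, u, h1, h2, h3, h4, h5, h6, h7, h8⟩ := contig_start hPf hPc hPe hγP hγ hQ hq₀ hf₀ hA hAR
    ⟨hmP.pos, hmP.per, hmP.inj⟩ ⟨hmR.pos, hmR.per, hmR.inj⟩ hp (by
      have : (sc P)^[p] A₀ = B₀ := hpB
      rw [this, hB1])
  -- the tip side
  have hs : side R A₀ s = side P A₀ s := h6 s le_rfl
  have hnext : ∀ i, s < i → i < t → ¬ BD P (side R A₀ i) := fun i hi1 hi2 hb => hb.2 (h7 i hi1 hi2).1
  have hlast : ∀ i, t ≤ i → i ≤ mR → BD P (side R A₀ i) := by
    intro i hi1 hi2
    have h9 := h8 (i - t) (by omega)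
    rw [show t + (i - t) = i by omega] at h9
    show BD P ((sc R)^[i] A₀)
    rw [h9]
    exact hA.iterate _
  have hfirst : ∀ i ≤ s, BD P (side R A₀ i) := by
    intro i hi
    show BD P ((sc R)^[i] A₀)
    rw [h6 i hi]
    exact hA.iterate _
  have htip : IsTip P R (side R A₀ s) := by
    refine ⟨hfirst s le_rfl, bd_side hAR s, ?_⟩
    rw [← side_succ]
    exact hnext (s + 1) (by omega) (by omega)
  have huniq : ∀ A, IsTip P R A → A = side R A₀ s := by
    intro A hAt
    obtain ⟨c, hc, hcA⟩ := hmR.exists_index hAt.2.1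
    have h9 : ¬ BD P (side R A₀ (c + 1)) := by rw [side_succ, hcA]; exact hAt.2.2
    have h10 : BD P (side R A₀ c) := by rw [hcA]; exact hAt.1
    have h11 : c = s := by
      by_contra hne
      rcases Nat.lt_or_ge c s with h | h
      · exact h9 (hfirst (c + 1) (by omega))
      · have hct : t ≤ c := by
          by_contra h'
          exact hnext c (by omega) (by omega) h10
        exact h9 (hlast (c + 1) (by omega) (by omega))
    rw [← hcA, h11]
  have hT : tipS P R = side R A₀ s := huniq _ (tipS_spec ⟨_, htip⟩)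
  have hper : ∀ i, side R A₀ (mR + i) = side R A₀ i := by
    intro i
    rw [side_add, hmR.per]
  have hsh : ∀ i, side R (tipS P R) i = side R A₀ (s + i) := by
    intro i
    rw [hT, ← side_add]
  have hex : ∃ n, 0 < n ∧ BD P (side R (tipS P R) n) := by
    refine ⟨t - s, by omega, ?_⟩
    rw [hsh, show s + (t - s) = t by omega]
    exact hlast t le_rfl h2
  have hN : tgtN P R = t - s := by
    unfold tgtN
    rw [dif_pos hex, Nat.find_eq_iff]
    refine ⟨⟨by omega, ?_⟩, ?_⟩
    · rw [hsh, show s + (t - s) = t by omega]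
      exact hlast t le_rfl h2
    · rintro n hn ⟨hn0, hb⟩
      rw [hsh] at hb
      exact hnext (s + n) (by omega) (by omega) hb
  obtain ⟨m', hm'⟩ := exists_cyc hRf hRc hRe (show BD R (tipS P R) by rw [hT]; exact bd_side hAR s)
  have hmm : m' = mR := by
    -- both are the number of sides of the orbit
    have e1 : side R (tipS P R) mR = tipS P R := by
      rw [hsh, show s + mR = mR + s by ring, hper, hT]
    have e2 : side R A₀ m' = A₀ := by
      have h9 : side R (tipS P R) m' = tipS P R := hm'.per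
      have h10 : side R A₀ (s + m') = side R A₀ (s + 0) := by rw [← hsh, h9, ← hsh]; rfl
      have h11 := congrArg (fun B => side R B (mR - s)) h10
      simp only [← side_add] at h11
      rw [show s + m' + (mR - s) = mR + m' by omega, show s + 0 + (mR - s) = mR + 0 by omega,
        hper, hper] at h11
      exact h11
    have key : ∀ {A : UE × Bool} {m n : ℕ}, Cyc R A m → 0 < n → side R A n = A → m ≤ n := by
      intro A m n hc hn hA
      by_contra hlt
      push Not at hlt
      have := hc.inj n (by omega) 0 hc.pos (by rw [hA]; rfl)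
      omega
    exact le_antisymm (key hm' hmR.pos e1) (key hmR hm'.pos e2)
  subst hmm
  refine ⟨m', hm', ?_, ?_, ?_, ?_, ?_, ?_⟩
  · rw [hT]; exact hfirst s le_rfl
  · rw [hN]; omega
  · rw [hN]; omega
  · intro i hi1 hi2
    rw [hN] at hi2
    unfold outF
    rw [hsh]
    exact h7 (s + i) (by omega) (by omega)
  · intro i hi1 hi2
    rw [hN] at hi1
    rw [hsh]
    by_cases h9 : s + i ≤ m'
    · exact hlast _ (by omega) h9
    · rw [show s + i = m' + (s + i - m') by omega, hper]
      exact hfirst _ (by omega)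
  · intro A hAt
    rw [huniq A hAt, hT]

end Pool.Agent.SixB.StartA
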