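import Pool.Agent.Lib.SixB.S8StartU
import Pool.Agent.Lib.SixB.S8Box

/-!
# Step 8: the frozen configuration at the start of a step

`F` is the fresh region, `Q` the needle, `G` a component of `F \ Q` (all finite, edge connected, without
holes). The configuration is even on `Q` and odd off `F`.

* `StartT`, `exists_startT`: the contour of `G` from the tip side `S`, with `k` the first side behind
  the needle; corners of the tip side and of the target side.
* `StartT.frz`, `StartT.ends`: the strand from the tip side ends at the target side.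
* `StartT.tip_unique`, `StartT.tgt_unique`: the tip side is the only side with an even end at the needle
  and an odd end at the old faces which is crossed inwards; the same for the target side.
* `wall_start`: the walls are joined to the ends of the tip side.
* `Cnr`, `Cnr.step`, `Cnr.run`: the strand outside of `F \ Q` has its even end at the needle and its odd
  end at the old faces; `Cnr.enter`: it enters every component through the tip side.
-/

set_option autoImplicit false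

namespace Pool.Agent.SixB.StU

open Finset Pool.Agent.Perc Pool.Agent.PercT Pool.Agent.Perc6 Pool.Agent.SixB Pool.Agent.SixB.Top
open Pool.Agent.Perc6.C2Aux (isSide_ahead eq_ahead)
open Pool.Agent.Perc.Tips (ahead rv rv_rv)

variable {F Q G V : Set (ℤ × ℤ)} {A B S : UE × Bool} {f₀ q g : ℤ × ℤ} {ω : Cfg} {m k : ℕ} {e : UE}

/-- Even on `Q`, odd elsewhere. -/
noncomputable def stz (Q : Set (ℤ × ℤ)) : Cfg := by
  classical exact fun g => if g ∈ Q then !parD 0 g else parD 0 g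

theorem stz_mem (h : g ∈ Q) : stz Q g = !parD 0 g := by
  unfold stz
  rw [if_pos h]

theorem stz_notMem (h : g ∉ Q) : stz Q g = parD 0 g := by
  unfold stz
  rw [if_neg h]

theorem cor_out_rg (A : UE × Bool) : IsCor (ahead (rv A)) (rg A) := (isCor_rg_iff _ _).2 (Or.inl rfl)

theorem cor_in_rg (A : UE × Bool) : IsCor (ahead A) (rg A) :=
  (isCor_rg_iff _ _).2 (Or.inr (Or.inl rfl))

/-! ### The start of a step -/

/-- The contour of the region `G` from the tip side `S`: `m` sides, the sides `1, …, k - 1` at the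
needle `Q`, the sides `k, …, m - 1` are sides of `F`. -/
structure StartT (F Q G : Set (ℤ × ℤ)) (S : UE × Bool) (m k : ℕ) : Prop where
  fin : G.Finite
  cG : Top.EConn G
  eG : Esc G
  bd : BD G S
  per : Per G m S
  tp : par (rg S) = 0
  le : 1 ≤ k
  lm : k ≤ m
  lb : ∀ i, 0 < i → i < k → ahead (rv ((sc G)^[i] S)) ∈ Q
  ll : ∀ i, k ≤ i → i < m → ahead (rv ((sc G)^[i] S)) ∉ F
  cb : ∃ g ∈ Q, IsCor g (rg S)
  cl : ∃ g, g ∉ F ∧ IsCor g (lf S)
  tb : ∃ g ∈ Q, IsCor g (lf ((sc G)^[jt k] S))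
  tl : ∃ g, g ∉ F ∧ IsCor g (rg ((sc G)^[jt k] S))
  sd : ahead (rv S) ∈ Q ∨ ahead (rv S) ∉ F

/-- **The start of a step.** -/
theorem exists_startT (hFf : F.Finite) (cF : Top.EConn F) (hF : Esc F) (hQF : Q ⊆ F) (hQ : Top.EConn Q)
    (hQe : Esc Q) (hq : q ∈ Q) (hg : g ∉ F) (ha : AdjF q g) (hf₀ : f₀ ∈ F \ Q) :
    ∃ S m k, StartT F Q (compT (F \ Q) f₀) S m k := by
  obtain ⟨hGf, cG, eG, hGF⟩ := start_disc hFf hF hQ hq hg ha hf₀
  obtain ⟨A, m, k, hA, hP, hk0, hkm, h1, h2, -⟩ := exists_start hFf cF hF hQF hQ hq hg ha hf₀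
    (exists_old hFf hQe hf₀)
  generalize compT (F \ Q) f₀ = G at *
  have hlast : ∀ i, i + 1 = m → (sc G)^[i + 1] A = A := fun i hi => by rw [hi, hP.per]
  -- the vertex between the needle and the old sides
  have hTa : (∃ g ∈ Q, IsCor g (lf ((sc G)^[k - 1] A))) ∧
      ∃ g, g ∉ F ∧ IsCor g (rg ((sc G)^[k - 1] A)) := by
    refine ⟨⟨_, h1 (k - 1) (by omega), isCor_out_lf _⟩, _, h2 k le_rfl hkm, ?_⟩
    have h3 := isCor_out_lf ((sc G)^[k] A)
    have h4 : (sc G)^[k] A = sc G ((sc G)^[k - 1] A) := by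
      conv_lhs => rw [show k = (k - 1) + 1 by omega]
      rw [Function.iterate_succ_apply']
    rwa [show lf ((sc G)^[k] A) = rg ((sc G)^[k - 1] A) by rw [h4, lf_sc]] at h3
  have hTb : (∃ g ∈ Q, IsCor g (lf ((sc G)^[k] A))) ∧
      ∃ g, g ∉ F ∧ IsCor g (rg ((sc G)^[k] A)) := by
    refine ⟨⟨_, h1 (k - 1) (by omega), ?_⟩, _, h2 k le_rfl hkm, cor_out_rg _⟩
    have h4 : (sc G)^[k] A = sc G ((sc G)^[k - 1] A) := by
      conv_lhs => rw [show k = (k - 1) + 1 by omega]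
      rw [Function.iterate_succ_apply']
    rw [h4, lf_sc]
    exact cor_out_rg _
  obtain ⟨l, hl⟩ : ∃ l, m = l + 1 := ⟨m - 1, by omega⟩
  rcases par_cases (rg A) with hp | hp
  · refine ⟨A, m, k, hGf, cG, eG, hA, hP, hp, hk0, hkm.le, fun i _ hi => h1 i hi, h2,
      ⟨_, h1 0 hk0, cor_out_rg _⟩, ⟨_, h2 l (by omega) (by omega), ?_⟩, ?_, ?_, Or.inl (h1 0 hk0)⟩
    · have h3 := cor_out_rg ((sc G)^[l] A)
      rwa [← lf_sc G, ← Function.iterate_succ_apply' (sc G), hlast l hl.symm] at h3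
    · unfold jt
      split_ifs
      · exact hTb.1
      · exact hTa.1
    · unfold jt
      split_ifs
      · exact hTb.2
      · exact hTa.2
  · -- the last old side
    have hS : ∀ i, (sc G)^[i + 1] ((sc G)^[l] A) = (sc G)^[i] A := fun i => by
      rw [← Function.iterate_add_apply, show i + 1 + l = i + m by omega,
        Function.iterate_add_apply, hP.per]
    have hS1 : sc G ((sc G)^[l] A) = A := by
      have := hS 0
      simpa using this
    have hlfA : rg ((sc G)^[l] A) = lf A := by rw [← lf_sc G, hS1]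
    have hjt : jt (k + 1) = k ∨ jt (k + 1) = k + 1 := by
      unfold jt
      split_ifs
      · exact Or.inr rfl
      · exact Or.inl rfl
    have hT : (∃ g ∈ Q, IsCor g (lf ((sc G)^[jt (k + 1)] ((sc G)^[l] A)))) ∧
        ∃ g, g ∉ F ∧ IsCor g (rg ((sc G)^[jt (k + 1)] ((sc G)^[l] A))) := by
      rcases hjt with h | h
      · rw [h, show k = (k - 1) + 1 by omega, hS]
        exact hTa
      · rw [h, hS]
        exact hTb
    refine ⟨(sc G)^[l] A, m, k + 1, hGf, cG, eG, hA.iterate l, hP.shift hA l, ?_, by omega, by omega,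
      ?_, ?_, ⟨_, h1 0 hk0, ?_⟩, ⟨_, h2 l (by omega) (by omega), isCor_out_lf _⟩, hT.1, hT.2,
      Or.inr (h2 l (by omega) (by omega))⟩
    · rw [hlfA, par_lf, hp]
      rfl
    · intro i hi1 hi2
      obtain ⟨j, rfl⟩ : ∃ j, i = j + 1 := ⟨i - 1, by omega⟩
      rw [hS]
      exact h1 j (by omega)
    · intro i hi1 hi2
      obtain ⟨j, rfl⟩ : ∃ j, i = j + 1 := ⟨i - 1, by omega⟩
      rw [hS]
      exact h2 j (by omega) (by omega)
    · rw [hlfA]
      exact isCor_out_lf A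

/-- Some face outside `F` touches the face `f` of `F`. -/
def TouchF (F : Set (ℤ × ℤ)) (f : ℤ × ℤ) : Prop := ∃ v, IsCor f v ∧ ∃ g ∈ F, IsCor g v

section Start

variable (h : StartT F Q G S m k)

include h

/-- The two walls of `G`. -/
theorem StartT.frz (hFf : F.Finite) (cF : Top.EConn F) (hF : Esc F) (hQf : Q.Finite) (hQ : Top.EConn Q)
    (hQe : Esc Q) (hGF : G ⊆ F \ Q) (h0 : ∀ f ∈ Q, ω f = !parD 0 f)
    (h1 : ∀ f, f ∉ F → TouchF F f → ω f = parD 0 f) : Frz ω G S m k where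
  fin := h.fin
  cG := h.cG
  eG := h.eG
  bd := h.bd
  per := h.per
  tp := h.tp
  le := h.le
  lm := h.lm
  ev := fun j hj1 hj2 f hf hc => h0 f (fan_needle hQf hQ hQe h.fin h.cG h.eG
    (fun f hf => (hGF hf).2) (h.bd.iterate j) (h.lb j hj1 (by omega)) (by
      rw [← Function.iterate_succ_apply' (sc G)]
      exact h.lb (j + 1) (by omega) hj2) hf hc)
  od := fun j hj1 hj2 f hf hc => h1 f (fan_old hFf cF hF (fun f hf => (hGF hf).1) (h.bd.iterate j)
    (h.ll j hj1 (by omega)) (by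
      rw [← Function.iterate_succ_apply' (sc G)]
      exact h.ll (j + 1) (by omega) hj2) hf hc)
    ⟨_, hc, _, (hGF (h.bd.iterate j).1).1, cor_in_rg _⟩

/-- A face at a wall is a face of the needle or outside `F`. -/
theorem StartT.wf (hFf : F.Finite) (cF : Top.EConn F) (hF : Esc F) (hQf : Q.Finite) (hQ : Top.EConn Q)
    (hQe : Esc Q) (hGF : G ⊆ F \ Q) {f : ℤ × ℤ} (hf : Wf G S m k f) : f ∈ Q ∨ f ∉ F := by
  obtain ⟨hfG, j, hj, hc⟩ := hf
  rcases hj with ⟨hj1, hj2⟩ | ⟨hj1, hj2⟩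
  · left
    exact fan_needle hQf hQ hQe h.fin h.cG h.eG (fun f hf => (hGF hf).2) (h.bd.iterate j)
      (h.lb j hj1 (by omega)) (by
        rw [← Function.iterate_succ_apply' (sc G)]
        exact h.lb (j + 1) (by omega) hj2) hfG hc
  · right
    exact fan_old hFf cF hF (fun f hf => (hGF hf).1) (h.bd.iterate j) (h.ll j hj1 (by omega)) (by
      rw [← Function.iterate_succ_apply' (sc G)]
      exact h.ll (j + 1) (by omega) hj2) hfG hc

/-- **The strand from the tip side ends at the target side.** -/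
theorem StartT.ends (hFf : F.Finite) (cF : Top.EConn F) (hF : Esc F) (hQf : Q.Finite) (hQ : Top.EConn Q)
    (hQe : Esc Q) (hGF : G ⊆ F \ Q) (h0 : ∀ f ∈ Q, ω f = !parD 0 f)
    (h1 : ∀ f, f ∉ F → TouchF F f → ω f = parD 0 f) :
    ∃ τ, 0 < τ ∧ pth ω S.1 τ = ((sc G)^[jt k] S).1 ∧ fb (pth ω S.1 τ) ∈ G ∧
      fa (pth ω S.1 τ) ∉ G ∧ (∀ i < τ, fa (pth ω S.1 i) ∈ G ∨ fa (pth ω S.1 i) ∈ Q ∨
        fa (pth ω S.1 i) ∉ F) ∧
      ∀ i ≤ τ, ∀ j ≤ τ, pth ω S.1 i = pth ω S.1 j → i = j := by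
  obtain ⟨τ, k1, k2, k3, k4, k5, k6⟩ := (h.frz hFf cF hF hQf hQ hQe hGF h0 h1).ends
  exact ⟨τ, k1, k2, k3, k4, fun i hi => (k5 i hi).imp id fun hw =>
    h.wf hFf cF hF hQf hQ hQe hGF hw, k6⟩

/-- Every side of `G` has a number. -/
theorem StartT.exists_num (hB : BD G B) : ∃ j < m, (sc G)^[j] S = B := by
  obtain ⟨n, hn⟩ := contour_all h.fin h.cG h.eG h.bd hB.bdU
  have hn1 : (sc G)^[n] S = B := (h.bd.iterate n).eq_of_fst hB hn
  exact ⟨n % m, Nat.mod_lt _ h.per.pos, by rw [h.per.mod, hn1]⟩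

/-- The number of a side which is crossed inwards is even. -/
theorem StartT.even_num {j : ℕ} (hp : par (rg ((sc G)^[j] S)) = 0) : j % 2 = 0 := by
  rw [par_side h.tp] at hp
  omega

theorem StartT.m_even : m % 2 = 0 := h.even_num (j := m) (by rw [h.per.per]; exact h.tp)

/-- **The tip side is unique.** -/
theorem StartT.tip_unique (hFf : F.Finite) (cF : Top.EConn F) (hF : Esc F) (hQf : Q.Finite)
    (hQ : Top.EConn Q) (hQe : Esc Q) (hQF : Q ⊆ F) (hGF : G ⊆ F \ Q) (hB : BD G B) (hp : par (rg B) = 0)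
    (hb : ∃ g ∈ Q, IsCor g (rg B)) (hl : ∃ g, g ∉ F ∧ IsCor g (lf B)) : B = S := by
  obtain ⟨j, hjm, rfl⟩ := h.exists_num hB
  have hje := h.even_num hp
  rcases Nat.eq_zero_or_pos j with rfl | hj0
  · rfl
  exfalso
  obtain ⟨i, rfl⟩ : ∃ i, j = i + 1 := ⟨j - 1, by omega⟩
  have hme := h.m_even
  rcases Nat.lt_or_ge (i + 1) k with hjk | hjk
  · -- the preceding side is at the needle
    obtain ⟨g, hgF, hgc⟩ := hl
    have hgG : g ∉ G := fun hh => hgF (hGF hh).1
    rw [Function.iterate_succ_apply', lf_sc] at hgc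
    have h2 := fan_needle hQf hQ hQe h.fin h.cG h.eG (fun f hf => (hGF hf).2) (h.bd.iterate i)
      (h.lb i (by omega) (by omega)) (by
        rw [← Function.iterate_succ_apply' (sc G)]
        exact h.lb (i + 1) (by omega) hjk) hgG hgc
    exact hgF (hQF h2)
  · -- the next side is old
    obtain ⟨g, hgQ, hgc⟩ := hb
    have hgG : g ∉ G := fun hh => (hGF hh).2 hgQ
    have h2 := fan_old hFf cF hF (fun f hf => (hGF hf).1) (h.bd.iterate (i + 1))
      (h.ll (i + 1) hjk hjm) (by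
        rw [← Function.iterate_succ_apply' (sc G)]
        exact h.ll (i + 1 + 1) (by omega) (by omega)) hgG hgc
    exact h2 (hQF hgQ)

/-- **The target side is unique.** -/
theorem StartT.tgt_unique (hFf : F.Finite) (cF : Top.EConn F) (hF : Esc F) (hQf : Q.Finite)
    (hQ : Top.EConn Q) (hQe : Esc Q) (hQF : Q ⊆ F) (hGF : G ⊆ F \ Q) (hB : BD G B) (hp : par (rg B) = 1)
    (hb : ∃ g ∈ Q, IsCor g (lf B)) (hl : ∃ g, g ∉ F ∧ IsCor g (rg B)) :
    B = (sc G)^[jt k] S := by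
  obtain ⟨j, hjm, rfl⟩ := h.exists_num hB
  have hjo : j % 2 = 1 := by
    rw [par_side h.tp] at hp
    omega
  have hle := h.le
  have hme := h.m_even
  rcases Nat.lt_or_ge j k with hjk | hjk
  · rcases Nat.lt_or_ge (j + 1) k with hjk1 | hjk1
    · exfalso
      obtain ⟨g, hgF, hgc⟩ := hl
      have hgG : g ∉ G := fun hh => hgF (hGF hh).1
      have h2 := fan_needle hQf hQ hQe h.fin h.cG h.eG (fun f hf => (hGF hf).2) (h.bd.iterate j)
        (h.lb j (by omega) hjk) (by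
          rw [← Function.iterate_succ_apply' (sc G)]
          exact h.lb (j + 1) (by omega) hjk1) hgG hgc
      exact hgF (hQF h2)
    · have e : jt k = j := by
        unfold jt
        rw [if_neg (by omega)]
        omega
      rw [e]
  · rcases Nat.lt_or_ge k j with hkj | hkj
    · exfalso
      obtain ⟨i, rfl⟩ : ∃ i, j = i + 1 := ⟨j - 1, by omega⟩
      obtain ⟨g, hgQ, hgc⟩ := hb
      have hgG : g ∉ G := fun hh => (hGF hh).2 hgQ
      rw [Function.iterate_succ_apply', lf_sc] at hgc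
      have h2 := fan_old hFf cF hF (fun f hf => (hGF hf).1) (h.bd.iterate i)
        (h.ll i (by omega) (by omega)) (by
          rw [← Function.iterate_succ_apply' (sc G)]
          exact h.ll (i + 1) (by omega) hjm) hgG hgc
      exact h2 (hQF hgQ)
    · have e : jt k = j := by
        unfold jt
        rw [if_pos (by omega)]
        omega
      rw [e]

end Start

/-! ### The walls -/

/-- A bond of a face with the diagonal of colour `c` has its ends in the corners of colour `c`. -/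
theorem bond_parD {c : ℤ} (hc : c = 0 ∨ c = 1) {g u v : ℤ × ℤ} (hb : Bond ω {g} u v)
    (hω : ω g = !parD c g) : par u = c ∧ IsCor g u := by
  obtain ⟨x, y, hf, hb⟩ := hb
  rw [Set.mem_singleton_iff] at hf
  subst hf
  have h1 : par (x, y) = (x + y) % 2 := rfl
  have h2 : par (x + 1, y + 1) = (x + 1 + (y + 1)) % 2 := rfl
  have h3 : par (x, y + 1) = (x + (y + 1)) % 2 := rfl
  have h4 : par (x + 1, y) = (x + 1 + y) % 2 := rfl
  rcases hb with ⟨h0, (⟨rfl, rfl⟩ | ⟨rfl, rfl⟩)⟩ | ⟨h0, (⟨rfl, rfl⟩ | ⟨rfl, rfl⟩)⟩ <;>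
    rw [h0] at hω <;> unfold parD at hω <;>
    simp only [Bool.true_eq, Bool.false_eq, Bool.not_eq_true', Bool.not_eq_false',
      decide_eq_true_eq, decide_eq_false_iff_not, not_not] at hω
  · exact ⟨by rw [h1]; omega, Or.inl rfl, Or.inl rfl⟩
  · exact ⟨by rw [h2]; omega, Or.inr rfl, Or.inr rfl⟩
  · exact ⟨by rw [h3]; omega, Or.inl rfl, Or.inr rfl⟩
  · exact ⟨by rw [h4]; omega, Or.inr rfl, Or.inl rfl⟩

/-- The odd set: the complement of `V ∪ Q` is edge connected if `V` is a union of components of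
`F \ Q`. -/
theorem econn_odd (hFf : F.Finite) (hF : Esc F) (hQe : Esc Q) (hQF : Q ⊆ F) (hVF : V ⊆ F \ Q)
    (hV : ∀ f ∈ V, ∀ g ∈ F \ Q, AdjF f g → g ∈ V) : Top.EConn (V ∪ Q)ᶜ := by
  have hsub : Fᶜ ⊆ (V ∪ Q)ᶜ := fun f hf h => h.elim (fun h => hf (hVF h).1) fun h => hf (hQF h)
  -- every face of the set is joined to a face outside `F`
  have key : ∀ f ∈ (V ∪ Q)ᶜ, ∃ g, g ∉ F ∧ ChI (V ∪ Q)ᶜ f g := by
    intro f hf
    by_cases hfF : f ∈ F
    · have hf₀ : f ∈ F \ Q := ⟨hfF, fun h => hf (Or.inr h)⟩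
      obtain ⟨B, hB, hBF⟩ := exists_old hFf hQe hf₀
      have hcomp : ∀ x ∈ compT (F \ Q) f, x ∉ V := by
        intro x hx hxV
        have h1 : ChI (F \ Q) x f := ChI.symm hf₀ hx
        have h2 : ∀ y, ChI (F \ Q) x y → y ∈ V := by
          intro y hy
          induction hy with
          | refl => exact hxV
          | tail _ hs ih => exact hV _ ih _ hs.2 hs.1
        exact hf (Or.inl (h2 f h1))
      have h1 : ChI (compT (F \ Q) f) f (ahead B) := econn_compT hf₀ _ self_mem_compT _ hB.1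
      have h2 : compT (F \ Q) f ⊆ (V ∪ Q)ᶜ := fun x hx h => h.elim (hcomp x hx)
        fun h => (compT_sub hf₀ hx).2 h
      refine ⟨ahead (rv B), hBF, (h1.mono h2).trans (ChI.single (adjF_ahead B).symm (hsub hBF))⟩
    · exact ⟨f, hfF, ChI.refl f⟩
  intro f hf g hg
  obtain ⟨f', hf', c1⟩ := key f hf
  obtain ⟨g', hg', c2⟩ := key g hg
  have c3 : ChI Fᶜ f' g' := compl_chain hFf hF hf' hg'
  exact (c1.trans (c3.mono hsub)).trans (c2.symm hg)

/-- **The walls.** `V` is a union of components of `F \ Q` (for example `F \ Q` or `G`); the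
configuration is even on `Q` and odd off `V ∪ Q`. -/
theorem wall_start (hFf : F.Finite) (hF : Esc F) (hQe : Esc Q) (hQF : Q ⊆ F) (hQ : Top.EConn Q)
    (hVF : V ⊆ F \ Q) (hV : ∀ f ∈ V, ∀ g ∈ F \ Q, AdjF f g → g ∈ V)
    (h0 : ∀ f ∈ Q, ω f = !parD 0 f) (h1 : ∀ f, f ∉ V → f ∉ Q → ω f = parD 0 f)
    (hb : ∃ g ∈ Q, IsCor g (en 0 e)) (hl : ∃ g, g ∉ F ∧ IsCor g (en 1 e)) :
    ∀ c : ℤ, (c = 0 ∨ c = 1) → ∀ g ∈ Vᶜ, ∀ u v, Bond ω {g} u v → par u = c →
      Conn ω Vᶜ (en c e) u := by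
  intro c hc g hg u v hbd hu
  have hQV : Q ⊆ Vᶜ := fun f hf h => (hVF h).2 hf
  have hOV : (V ∪ Q)ᶜ ⊆ Vᶜ := fun f hf h => hf (Or.inl h)
  by_cases hgQ : g ∈ Q
  · obtain ⟨hp, hcor⟩ := bond_parD (Or.inl rfl) hbd (h0 g hgQ)
    obtain rfl : c = 0 := by rw [← hu, hp]
    obtain ⟨g', hg', hc'⟩ := hb
    exact (solid_econn (Or.inl rfl) hQ h0 _ ⟨par_en (Or.inl rfl) e, g', hg', hc'⟩ _
      ⟨hp, g, hgQ, hcor⟩).mono hQV
  · have hω : ∀ f ∈ (V ∪ Q)ᶜ, ω f = !parD 1 f := by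
      intro f hf
      rw [h1 f (fun h => hf (Or.inl h)) (fun h => hf (Or.inr h)), not_parD_flip (Or.inl rfl)]
      rfl
    have hgO : g ∈ (V ∪ Q)ᶜ := fun h => h.elim hg hgQ
    obtain ⟨hp, hcor⟩ := bond_parD (Or.inr rfl) hbd (hω g hgO)
    obtain rfl : c = 1 := by rw [← hu, hp]
    obtain ⟨g', hg', hc'⟩ := hl
    have hg'O : g' ∈ (V ∪ Q)ᶜ := fun h => h.elim (fun h => hg' (hVF h).1) fun h => hg' (hQF h)
    exact (solid_econn (Or.inr rfl) (econn_odd hFf hF hQe hQF hVF hV) hω _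
      ⟨par_en (Or.inr rfl) e, g', hg'O, hc'⟩ _ ⟨hp, g, hgO, hcor⟩).mono hOV

/-! ### The strand at the corner of the needle -/

/-- The even end of the unit edge is at the needle, the odd end at a face outside `F`. -/
def Cnr (F Q : Set (ℤ × ℤ)) (a : UE) : Prop :=
  (∃ g ∈ Q, IsCor g (en 0 a)) ∧ ∃ g, g ∉ F ∧ IsCor g (en 1 a)

theorem en_can (h : par (rg A) = 0) : en 0 A.1 = rg A ∧ en 1 A.1 = lf A := by
  have h1 : par (lf A) = 1 := by rw [par_lf, h]; rfl
  exact ⟨en_joins (joins_lf_rg A).symm h, en_joins (joins_lf_rg A) h1⟩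

theorem en_can' (h : par (rg A) = 1) : en 0 A.1 = lf A ∧ en 1 A.1 = rg A := by
  have h1 : par (lf A) = 0 := by rw [par_lf, h]; rfl
  exact ⟨en_joins (joins_lf_rg A) h1, en_joins (joins_lf_rg A).symm h⟩

theorem StartT.cnr_tip (h : StartT F Q G S m k) : Cnr F Q S.1 := by
  unfold Cnr
  rw [(en_can h.tp).1, (en_can h.tp).2]
  exact ⟨h.cb, h.cl⟩

theorem StartT.cnr_tgt (h : StartT F Q G S m k) : Cnr F Q ((sc G)^[jt k] S).1 := by
  have h1 : par (rg ((sc G)^[jt k] S)) = 1 := by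
    rw [par_side h.tp]
    have := jt_odd h.le
    omega
  unfold Cnr
  rw [(en_can' h1).1, (en_can' h1).2]
  exact ⟨h.tb, h.tl⟩

/-- In a frozen face the strand stays at the corner of the needle. -/
theorem Cnr.step {a : UE} (h : Cnr F Q a) (hf : fa a ∈ Q ∧ ω (fa a) = (!parD 0 (fa a)) ∨
    fa a ∉ F ∧ ω (fa a) = parD 0 (fa a)) : Cnr F Q (nx ω a) := by
  have hs : IsSide (fa a) (nx ω a) := (mt_nx ω a).right
  rcases hf with ⟨h1, h2⟩ | ⟨h1, h2⟩
  · refine ⟨⟨_, h1, isCor_en hs 0⟩, ?_⟩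
    rcases mt_ends (Or.inl rfl) (mt_nx ω a) with ⟨-, h3, -⟩ | ⟨h3, -, -⟩
    · obtain ⟨g, hg, hc⟩ := h.2
      rw [show (1 : ℤ) = 1 - 0 by ring, ← h3]
      exact ⟨g, hg, hc⟩
    · rw [h3] at h2
      cases hh : parD 0 (fa a) <;> rw [hh] at h2 <;> simp at h2
  · refine ⟨?_, ⟨_, h1, isCor_en hs 1⟩⟩
    rcases mt_ends (Or.inl rfl) (mt_nx ω a) with ⟨h3, -, -⟩ | ⟨-, h3, -⟩
    · rw [h3] at h2
      cases hh : parD 0 (fa a) <;> rw [hh] at h2 <;> simp at h2
    · obtain ⟨g, hg, hc⟩ := h.1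
      rw [← h3]
      exact ⟨g, hg, hc⟩

/-- The run of the strand through frozen faces. -/
theorem Cnr.run {s t : ℕ} (h : Cnr F Q (pth ω e s)) (hst : s ≤ t)
    (h0 : ∀ f ∈ Q, ω f = !parD 0 f) (h1 : ∀ f, f ∉ F → ω f = parD 0 f)
    (hf : ∀ i, s ≤ i → i < t → fa (pth ω e i) ∉ F \ Q) : Cnr F Q (pth ω e t) := by
  induction t, hst using Nat.le_induction with
  | base => exact h
  | succ t hst ih =>
    have h2 := ih fun i h3 h4 => hf i h3 (by omega)
    rw [pth_succ]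
    have h3 := hf t hst (by omega)
    by_cases hF : fa (pth ω e t) ∈ F
    · have hQ : fa (pth ω e t) ∈ Q := by
        by_contra hQ
        exact h3 ⟨hF, hQ⟩
      exact h2.step (Or.inl ⟨hQ, h0 _ hQ⟩)
    · exact h2.step (Or.inr ⟨hF, h1 _ hF⟩)

/-- **The strand enters a component of `F \ Q` through the tip side.** -/
theorem Cnr.enter {t : ℕ} (h : Cnr F Q (pth ω e t)) (hT : StartT F Q G S m k) (hFf : F.Finite)
    (cF : Top.EConn F) (hF : Esc F) (hQf : Q.Finite) (hQ : Top.EConn Q) (hQe : Esc Q) (hQF : Q ⊆ F)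
    (hGF : G ⊆ F \ Q) (h1 : fb (pth ω e t) ∉ G) (h2 : fa (pth ω e t) ∈ G) : pth ω e t = S.1 := by
  obtain ⟨d, hB⟩ := exists_BD (F := G) (a := pth ω e t) ⟨⟨_, h2, isSide_fa _⟩, _, h1, isSide_fb _⟩
  have hp : par (rg (pth ω e t, d)) = 0 := by
    rcases par_cases (rg (pth ω e t, d)) with hp | hp
    · exact hp
    · exfalso
      have h3 := fa_out hp
      have h4 : fa (pth ω e t) = ahead (rv (pth ω e t, d)) := h3
      rw [h4] at h2
      exact hB.2 h2
  have h3 := hT.tip_unique hFf cF hF hQf hQ hQe hQF hGF hB hp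
    (by rw [← (en_can hp).1]; exact h.1) (by rw [← (en_can hp).2]; exact h.2)
  rw [← h3]

/-- **The strand leaves the component through the target side** and is again at the corner of the
needle; in between it is in `G`, in `Q` or outside `F`. -/
theorem Cnr.pass {t : ℕ} (h : Cnr F Q (pth ω e t)) (hT : StartT F Q G S m k) (hFf : F.Finite)
    (cF : Top.EConn F) (hF : Esc F) (hQf : Q.Finite) (hQ : Top.EConn Q) (hQe : Esc Q) (hQF : Q ⊆ F)
    (hGF : G ⊆ F \ Q) (h0 : ∀ f ∈ Q, ω f = !parD 0 f) (h1 : ∀ f, f ∉ F → ω f = parD 0 f)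
    (hfb : fb (pth ω e t) ∉ G) (hfa : fa (pth ω e t) ∈ G) :
    ∃ τ, t < τ ∧ pth ω e τ = ((sc G)^[jt k] S).1 ∧ Cnr F Q (pth ω e τ) ∧ fb (pth ω e τ) ∈ G ∧
      fa (pth ω e τ) ∉ F \ Q ∧ ∀ i, t ≤ i → i < τ → fa (pth ω e i) ∈ G ∨
        fa (pth ω e i) ∉ F \ Q := by
  have h2 := h.enter hT hFf cF hF hQf hQ hQe hQF hGF hfb hfa
  obtain ⟨τ, k1, k2, k3, k4, k5, -⟩ := hT.ends hFf cF hF hQf hQ hQe hGF h0 fun f hf _ => h1 f hf
  rw [← h2] at k2 k3 k4 k5
  simp only [pth_add] at k2 k3 k4 k5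
  have hpj : par (rg ((sc G)^[jt k] S)) = 1 := by
    rw [par_side hT.tp]
    have := jt_odd hT.le
    omega
  have hout : fa (pth ω e (t + τ)) ∉ F \ Q := by
    rw [k2, fa_out hpj]
    have hjt : jt k < m := (hT.frz hFf cF hF hQf hQ hQe hGF h0 fun f hf _ => h1 f hf).jt_lt
    have hj := jt_odd hT.le
    rcases Nat.lt_or_ge (jt k) k with hlt | hge
    · exact fun hh => hh.2 (hT.lb _ (by omega) hlt)
    · exact fun hh => hT.ll _ hge hjt hh.1
  refine ⟨t + τ, by omega, k2, by rw [k2]; exact hT.cnr_tgt, k3, hout, fun i hi1 hi2 => ?_⟩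
  obtain ⟨l, rfl⟩ := Nat.exists_eq_add_of_le hi1
  rcases k5 l (by omega) with h3 | h3 | h3
  · exact Or.inl h3
  · exact Or.inr fun hh => hh.2 h3
  · exact Or.inr fun hh => h3 hh.1

/-! ### Explorations -/

/-- The exploration of the region `U` with the needle `Q` from the unit edge `e`. -/
noncomputable def exS (U Q : Cfg → Set (ℤ × ℤ)) (e : Cfg → UE) : Ex where
  U := U
  ζ := fun ω => stz (Q ω)
  e := e

theorem exS_ok {T U Q : Cfg → Set (ℤ × ℤ)} {e : Cfg → UE} (hT : StopS T) (hU : Adp T U)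
    (hQ : Adp T Q) (he : Adp T e) : (exS U Q e).Ok T := ⟨hT, hU, hQ.map stz, he⟩

theorem exS_cf {U Q : Cfg → Set (ℤ × ℤ)} {e : Cfg → UE} (hUQ : ∀ ω, ∀ f ∈ U ω, f ∉ Q ω) (ω : Cfg) :
    (∀ f ∈ Q ω, (exS U Q e).cf ω f = !parD 0 f) ∧
      (∀ f, f ∉ U ω → f ∉ Q ω → (exS U Q e).cf ω f = parD 0 f) ∧
      ∀ f ∈ U ω, (exS U Q e).cf ω f = ω f := by
  refine ⟨fun f hf => ?_, fun f hf hfQ => ?_, fun f hf => ?_⟩
  · unfold Ex.cf exS
    simp only
    rw [mix_of_notMem fun h => hUQ ω f h hf, stz_mem hf]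
  · unfold Ex.cf exS
    simp only
    rw [mix_of_notMem hf, stz_notMem hfQ]
  · unfold Ex.cf exS
    simp only
    rw [mix_of_mem hf]

end Pool.Agent.SixB.StU
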