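import Pool.Agent.Lib.SixB.S8Hook
import Pool.Agent.Lib.SixB.S8StartI
import Pool.Agent.Lib.SixB.S8StartW

/-!
# Step 8: the true needle `hookU` at the start of a step

`C`: the cells (finite), `P = blow u C`, `V`: the remaining vertices, `Q = QF (hookU u L V C z).1`: the
faces of the true needle; `H : Pre V P (ndF ..) (ndA ..) (ndB ..) (d - 1).toNat` (`pre_of`,
`pre_of_app`), `y = ndB u (fin C) z`.
* `ndl_hook`: the clearance needle `Ndl P Q y (ndA ..) (cen u z) (u (dlt - 1)) l (6 u) d`;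
* `qF_sub`, `qF_econn`, `qF_end`, `qF_base`, `qF_out`: `Q` is fresh, edge connected, next to a face
  which is not fresh; `y` is in `Q` or not fresh; the part of `Q` outside `P` is joined to `y`;
* `cen_mem`, `cen_comp`: the centre of `z` is fresh, off the needle and in the component of `Q`;
* `exists_old`: the component of `FU V \ Q` at the centre of `z` has an old side;
* `start_hook`: the contour at the start (`StW.Start`); `start_hook_scan`: with the strand
  (`StW.start_scan`).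
-/

set_option autoImplicit false

namespace Pool.Agent.SixB.StartH

open Pool.Agent.Perc Pool.Agent.Perc6 Pool.Agent.Perc6.C2Aux Pool.Agent.Perc.Tips
open Pool.Agent.PercU Pool.Agent.PercT Pool.Agent.PercX60
open Pool.Agent.MP_6bd702.H23 (Ed ea eb)
open Pool.Agent.SixB Pool.Agent.SixB.Top Pool.Agent.SixB.LC Pool.Agent.SixB.Mv
open Pool.Agent.SixB.Rule Pool.Agent.SixB.Dct Pool.Agent.SixB.Hook Pool.Agent.SixB.StU
open Pool.Agent.SixB.Ndle (sd ndF ndA ndB dlt cen)

variable {V : Finset (ℤ × ℤ)} {C : Set (ℤ × ℤ)} {z : ℤ × ℤ} {u d l : ℤ} {L : ℕ}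

theorem coe_fin (hC : C.Finite) : (fin C : Set (ℤ × ℤ)) = C := by
  ext c
  rw [Finset.mem_coe, mem_fin hC]

theorem mem_qF {f : ℤ × ℤ} : f ∈ QF (hookU u L V C z).1 ↔
    f ∈ ndS (FU V) (blow u C) (ndF u (fin C) z L) (ndB u (fin C) z) := by
  unfold hookU
  rw [qF_ndT, Finset.mem_coe]

/-- A chain which starts in a set and ends outside of it has a first step out of it. -/
theorem exists_exit {S U : Set (ℤ × ℤ)} {f x : ℤ × ℤ} (hf : f ∈ U) (hx : x ∉ U) (h : ChI S f x) :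
    ∃ a b, a ∈ U ∧ b ∉ U ∧ AdjF a b ∧ ChI (S ∩ U) f a ∧ b ∈ S := by
  have key : ∀ g, ChI S f g → (g ∈ U ∧ ChI (S ∩ U) f g) ∨
      ∃ a b, a ∈ U ∧ b ∉ U ∧ AdjF a b ∧ ChI (S ∩ U) f a ∧ b ∈ S := by
    intro g hg
    induction hg with
    | refl => exact Or.inl ⟨hf, ChI.refl f⟩
    | @tail b c _ hs ih =>
      rcases ih with ⟨h1, h2⟩ | h
      · by_cases hc : c ∈ U
        · exact Or.inl ⟨hc, Relation.ReflTransGen.tail h2 ⟨hs.1, hs.2, hc⟩⟩
        · exact Or.inr ⟨b, c, h1, hc, hs.1, h2, hs.2⟩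
      · exact Or.inr h
  rcases key x h with ⟨h1, -⟩ | h1
  · exact absurd h1 hx
  · exact h1

/-- The cells of side `u` have diameter less than `d`, if `u ≤ d`. -/
theorem cl_diam (hu : 0 < u) (hud : u ≤ d) :
    ∀ x y, Blow.cl u x = Blow.cl u y → |x.1 - y.1| < d ∧ |x.2 - y.2| < d := by
  intro x y hxy
  have h2 := Ndle.sd_face_le hu (f := x) (g := y)
  have h3 : sd (Ndle.cel u x) (Ndle.cel u y) = 0 := by
    have h4 : Ndle.cel u x = Ndle.cel u y := hxy
    rw [h4]
    unfold sd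
    simp
  rw [h3] at h2
  have h5 : sd x y < d := by linarith
  exact ⟨(le_max_left _ _).trans_lt h5, (le_max_right _ _).trans_lt h5⟩

/-! ### The needle -/

section Pre

variable {r : ℕ}
  (H : Pre V (blow u C) (ndF u (fin C) z L) (ndA u (fin C) z) (ndB u (fin C) z) r)

include H

/-- The needle is fresh. -/
theorem qF_sub : QF (hookU u L V C z).1 ⊆ FU V := fun _ hf => H.ndS_sub (mem_qF.1 hf)

theorem ndA_mem_qF : ndA u (fin C) z ∈ QF (hookU u L V C z).1 :=
  mem_qF.2 (Finset.mem_union_left _ H.mem)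

/-- The needle is edge connected. -/
theorem qF_econn : Top.EConn (QF (hookU u L V C z).1) := by
  have key : ∀ f ∈ QF (hookU u L V C z).1,
      ChI (QF (hookU u L V C z).1) (ndA u (fin C) z) f := fun f hf =>
    (H.con_a (mem_qF.1 hf)).mono fun g hg => mem_qF.2 (Finset.mem_coe.1 hg)
  intro f hf g hg
  exact ((key f hf).symm (ndA_mem_qF H)).trans (key g hg)

/-- The needle is next to a face which is not fresh. -/
theorem qF_end : ∃ q₀ ∈ QF (hookU u L V C z).1, ∃ g₀, g₀ ∉ FU V ∧ AdjF q₀ g₀ :=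
  ⟨_, mem_qF.2 H.last_mem, _, H.hkE_notMem, H.adj_last⟩

/-- The base is in the needle or it is not fresh. -/
theorem qF_base : ndB u (fin C) z ∈ QF (hookU u L V C z).1 ∨ ndB u (fin C) z ∉ FU V := by
  rcases Nat.eq_zero_or_pos (hk (FU V) (blow u C) (ndB u (fin C) z)).2 with h | h
  · right
    have h1 := (hk_spec H.hook).last
    rwa [h, (hk_spec H.hook).zero] at h1
  · left
    exact mem_qF.2 (Finset.mem_union_right _ (mem_hkS.2 ⟨0, h, (hk_spec H.hook).zero⟩))

/-- The part of the needle outside of `P` is joined to the base. -/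
theorem qF_out : ∀ f ∈ QF (hookU u L V C z).1, f ∉ blow u C →
    JoinIn (QF (hookU u L V C z).1 \ blow u C) (ndB u (fin C) z) f := by
  intro f hf hfP
  rcases Finset.mem_union.1 (mem_qF.1 hf) with h | h
  · exact absurd (H.sub f h) hfP
  · have h2 := (H.hkS_con h).2
    have hsub : (hkS (FU V) (blow u C) (ndB u (fin C) z) : Set (ℤ × ℤ)) ⊆
        QF (hookU u L V C z).1 \ blow u C := fun g hg =>
      ⟨mem_qF.2 (Finset.mem_union_right _ (Finset.mem_coe.1 hg)),
        (H.hkS_sub (Finset.mem_coe.1 hg)).2.1⟩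
    have h3 : ChI (QF (hookU u L V C z).1 \ blow u C) (ndB u (fin C) z) f := h2.mono hsub
    exact h3

end Pre

section Ndl

variable (hC : C.Finite) (hu : 0 < u) (h1 : 1 ≤ L) (hL : L ≤ dlt (fin C) z) (hd : 0 < d)
  (H : Pre V (blow u C) (ndF u (fin C) z L) (ndA u (fin C) z) (ndB u (fin C) z) (d - 1).toNat)
  (hl : u * (L + 1) - 1 ≤ l) (hdl : d ≤ l) (hr : l + d ≤ u * (dlt (fin C) z - 1))

include hC hu h1 hL hd H hl hdl hr

/-- **The true needle is a clearance needle.** -/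
theorem ndl_hook : StartA.Ndl (blow u C) (QF (hookU u L V C z).1) (ndB u (fin C) z)
    (ndA u (fin C) z) (cen u z) (u * (dlt (fin C) z - 1)) l (6 * u) d := by
  rw [qF_hookU]
  have hHC : ∀ f ∈ (hkS (FU V) (blow u C) (ndB u (fin C) z) : Set (ℤ × ℤ)),
      Ndle.cel u f ∉ fin C := fun f hf hc =>
    (H.hkS_sub (Finset.mem_coe.1 hf)).2.1 (show Ndle.cel u f ∈ C from fin_sub hc)
  have hHn : ∀ f ∈ (hkS (FU V) (blow u C) (ndB u (fin C) z) : Set (ℤ × ℤ)),
      InB (ndB u (fin C) z) d f := fun f hf => by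
    rw [StartA.inB_iff_sd]
    have h2 := (H.hkS_sub (Finset.mem_coe.1 hf)).2.2
    omega
  have key := StartA.ndl_of hu h1 hL hd hHC hHn hl hdl hr
  rwa [coe_fin hC] at key

variable (hud : u ≤ d)

include hud

/-- The centre of `z` is in `P` and off the cells of the needle. -/
theorem cen_mem_P : cen u z ∈
    blow u C \ StartA.VQ (blow u C) (QF (hookU u L V C z).1) (Blow.cl u) :=
  (ndl_hook hC hu h1 hL hd H hl hdl hr).z_mem (cl_diam hu hud)

/-- The centre of `z` is fresh and off the needle. -/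
theorem cen_mem : cen u z ∈ FU V \ QF (hookU u L V C z).1 := by
  have h2 := cen_mem_P hC hu h1 hL hd H hl hdl hr hud
  exact ⟨H.fresh h2.1, fun h => h2.2 (StartA.mem_VQ_of_Q h2.1 h)⟩

/-- The centre of `z` is in the component of the needle. -/
theorem cen_comp (hPc : Top.EConn (blow u C)) {q : ℤ × ℤ} (hq : q ∈ QF (hookU u L V C z).1) :
    cen u z ∈ compT (FU V) q := by
  have h2 := cen_mem_P hC hu h1 hL hd H hl hdl hr hud
  have h3 : ChI (QF (hookU u L V C z).1) q (ndA u (fin C) z) :=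
    qF_econn H q hq _ (ndA_mem_qF H)
  have h4 : ChI (blow u C) (ndA u (fin C) z) (cen u z) := hPc _ (H.sub _ H.mem) _ h2.1
  exact (h3.mono (qF_sub H)).trans (h4.mono H.fresh)

/-- **The new region has an old side.** -/
theorem exists_old {ι : Type*} {U : Set (ℤ × ℤ)} {κ : ℤ × ℤ → ι} (A : App U (blow u C) κ d)
    (hUf : U.Finite) (hU : U ⊆ FU V) (hcl : ∀ a ∈ U, ∀ b, AdjF a b → b ∈ FU V → b ∈ U) :
    ∃ B, BD (compT (FU V \ QF (hookU u L V C z).1) (cen u z)) B ∧ ahead (rv B) ∉ FU V := by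
  have N := ndl_hook hC hu h1 hL hd H hl hdl hr
  obtain ⟨D, hD, hD', hfar, x, hxU, -, hch⟩ := N.exists_D (hUf.subset A.sub) A (cl_diam hu hud)
  have hcen := cen_mem hC hu h1 hL hd H hl hdl hr hud
  set Q := QF (hookU u L V C z).1 with hQ
  have hsub : blow u C \ StartA.VQ (blow u C) Q (Blow.cl u) ⊆ FU V \ Q := fun f hf =>
    ⟨H.fresh hf.1, fun h => hf.2 (StartA.mem_VQ_of_Q hf.1 h)⟩
  have hDT : ahead D ∈ compT (FU V \ Q) (cen u z) := compT_mono hsub hD'.1
  have hyQ : ahead (rv D) ∉ Q := by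
    intro hh
    have h3 := N.hook _ hh hD.2
    have h4 := N.l0
    have h5 := N.len
    apply hfar
    unfold LC.InB at *
    omega
  by_cases hyU : ahead (rv D) ∈ U
  · obtain ⟨a, b, ha, hb, hab, hc, -⟩ := exists_exit hyU hxU hch
    have hc' : ChI (FU V \ Q) (ahead (rv D)) a := by
      refine hc.mono ?_
      rintro g ⟨⟨-, hg, -⟩, hgU⟩
      exact ⟨hU hgU, hg⟩
    have haT : a ∈ compT (FU V \ Q) (cen u z) :=
      ChI.trans (compT_step hDT (adjF_ahead D).symm ⟨hU hyU, hyQ⟩) hc'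
    have hbF : b ∉ FU V := fun h => hb (hcl a ha b hab h)
    obtain ⟨B, hB, -, hB'⟩ := Tube.exists_bd haT (fun h => hbF (compT_sub hcen h).1) hab
    exact ⟨B, hB, by rw [hB']; exact hbF⟩
  · have hyF : ahead (rv D) ∉ FU V := fun h =>
      hyU (hcl _ (A.sub hD.1) _ (adjF_ahead D).symm h)
    exact ⟨D, ⟨hDT, fun h => hyF (compT_sub hcen h).1⟩, hyF⟩

/-- **The contour at the start.** -/
theorem start_hook {ι : Type*} {U : Set (ℤ × ℤ)} {κ : ℤ × ℤ → ι} (A : App U (blow u C) κ d)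
    (hVf : (FU V).Finite) (hVe : Esc (FU V)) (hPc : Top.EConn (blow u C)) (hU : U ⊆ FU V)
    (hcl : ∀ a ∈ U, ∀ b, AdjF a b → b ∈ FU V → b ∈ U) :
    ∃ S m k x, StW.Start (FU V) (QF (hookU u L V C z).1)
      (compT (FU V \ QF (hookU u L V C z).1) (cen u z)) S m k x := by
  obtain ⟨q₀, hq, g₀, hg, ha⟩ := qF_end H
  exact StW.start_data hVf hVe (qF_sub H) (qF_econn H) hq hg ha
    (cen_mem hC hu h1 hL hd H hl hdl hr hud)
    (cen_comp hC hu h1 hL hd H hl hdl hr hud hPc hq)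
    (exists_old hC hu h1 hL hd H hl hdl hr hud A (hVf.subset hU) hU hcl)

/-- **The start of a step of the scan with the true needle.** -/
theorem start_hook_scan {n : ℕ} {T : Finset Edg} {ι : Type*} {U : Set (ℤ × ℤ)}
    {κ : ℤ × ℤ → ι} (A : App U (blow u C) κ d) (hI : Rule.Inv n T V)
    (hPc : Top.EConn (blow u C)) (hU : U ⊆ FU V)
    (hcl : ∀ a ∈ U, ∀ b, AdjF a b → b ∈ FU V → b ∈ U) {Q : Finset Edg}
    (hQ : Q = (hookU u L V C z).1) {k₀ : Cor} (hN : NdF V Q k₀) :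
    ∃ S m k x, StW.Start (FU V) (QF Q) (compT (FU V \ QF Q) (cen u z)) S m k x ∧
      TrueD (fun ξ => mix (FU V \ QF Q) ξ (gT (Q : Set Ed))) 0 Set.univ
        (compT (FU V \ QF Q) (cen u z)) S m x x ∧
      ∀ ω, TSt (mix (FU V \ QF Q) ω (gT (Q : Set Ed))) Set.univ
          (compT (FU V \ QF Q) (cen u z)) S m x ∧
        ∃ N s t, 0 < N ∧ pth (mix (FU V \ QF Q) ω (gT (Q : Set Ed))) (kU k₀) N = kU k₀ ∧ s < t ∧
          t < N ∧ pth (mix (FU V \ QF Q) ω (gT (Q : Set Ed))) (kU k₀) s = S.1 ∧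
          (∀ i < s, fa (pth (mix (FU V \ QF Q) ω (gT (Q : Set Ed))) (kU k₀) i) ∉
            compT (FU V \ QF Q) (cen u z)) ∧
          pth (mix (FU V \ QF Q) ω (gT (Q : Set Ed))) (kU k₀) t =
            (side (compT (FU V \ QF Q) (cen u z)) S x).1 ∧
          ∀ i, t ≤ i → i < N → fa (pth (mix (FU V \ QF Q) ω (gT (Q : Set Ed))) (kU k₀) i) ∉
            compT (FU V \ QF Q) (cen u z) := by
  subst hQ
  exact StW.start_scan hI hN (qF_econn H) (cen_mem hC hu h1 hL hd H hl hdl hr hud) (ndA_mem_qF H)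
    (cen_comp hC hu h1 hL hd H hl hdl hr hud hPc (ndA_mem_qF H))
    (exists_old hC hu h1 hL hd H hl hdl hr hud A ((finite_FU hI.sub).subset hU) hU hcl)

end Ndl

end Pool.Agent.SixB.StartH
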