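import Pool.Agent.Lib.SixB.S8StartLH
import Pool.Agent.Lib.SixB.S8StartH
import Pool.Agent.Lib.SixB.S8StartBoth

/-!
# Step 8: the target and the neighbourhood of the tip at the start of a needle step

`start_tgt`: the instance of `start_both` for the magnified first domain after a needle: the true target
face is joined to the face at the coarse target side in a small square, and the same for the tip.
-/

set_option autoImplicit false

namespace Pool.Agent.SixB.StartB

open Pool.Agent.Perc Pool.Agent.Perc6 Pool.Agent.Perc6.C2Aux Pool.Agent.Perc.Tips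
open Pool.Agent.SixB Pool.Agent.SixB.Top Pool.Agent.SixB.Mv Pool.Agent.SixB.Blow
open Pool.Agent.SixB.StartA Pool.Agent.SixB.LC Pool.Agent.SixB.Dct

variable {ι : Type*} {V : Finset (ℤ × ℤ)} {C : Set (ℤ × ℤ)} {z : ℤ × ℤ} {u L : ℕ} {π : Prm}
  {κ : ℤ × ℤ → ι} {r l d ρ : ℤ} {r' m k x : ℕ} {S : UE × Bool}

/-- An approximation of a part of the region. -/
theorem app_part {F F' P : Set (ℤ × ℤ)} (h : App F P κ d) (h1 : P ⊆ F') (h2 : F' ⊆ F) :
    App F' P κ d :=
  ⟨h1, h.sat, h.cell, h.diam, fun f hf g hfg hg => by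
    obtain ⟨y, hy1, hy2⟩ := h.out f hf g hfg hg
    exact ⟨y, hy1, fun hy => hy2 (h2 hy)⟩⟩

/-- The cases for the start of the needle: with or without a hook. -/
theorem hook_cases {U : Set (ℤ × ℤ)}
    (HP : Hook.Pre V (blow u C) (Ndle.ndF u (Hook.fin C) z L) (Ndle.ndA u (Hook.fin C) z)
      (Ndle.ndB u (Hook.fin C) z) r') (hUV : U ⊆ FU V) (hQU : QF (Hook.hookU u L V C z).1 ⊆ U) :
    (Ndle.ndB u (Hook.fin C) z ∈ QF (Hook.hookU u L V C z).1 ∧
      (∀ q ∈ QF (Hook.hookU u L V C z).1, q ∉ blow u C →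
        JoinIn (QF (Hook.hookU u L V C z).1 \ blow u C) (Ndle.ndB u (Hook.fin C) z) q) ∧
      ∃ βU, BD U βU ∧ ahead βU ∈ QF (Hook.hookU u L V C z).1 ∧ ahead βU ∉ blow u C) ∨
    (QF (Hook.hookU u L V C z).1 ⊆ blow u C ∧ Ndle.ndB u (Hook.fin C) z ∉ U) := by
  rcases Nat.eq_zero_or_pos (Hook.hk (FU V) (blow u C) (Ndle.ndB u (Hook.fin C) z)).2 with h | h
  · right
    have h1 := (Hook.hk_spec HP.hook).last
    rw [h, (Hook.hk_spec HP.hook).zero] at h1
    refine ⟨?_, fun h2 => h1 (hUV h2)⟩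
    intro f hf
    rw [Hook.qF_hookU] at hf
    rcases hf with hf | hf
    · exact HP.sub f hf
    · obtain ⟨i, hi, -⟩ := Hook.mem_hkS.1 (Finset.mem_coe.1 hf)
      omega
  · left
    have hy : Ndle.ndB u (Hook.fin C) z ∈ QF (Hook.hookU u L V C z).1 :=
      StartH.mem_qF.2 (Finset.mem_union_right _ (Hook.mem_hkS.2 ⟨0, h,
        (Hook.hk_spec HP.hook).zero⟩))
    refine ⟨hy, StartH.qF_out HP, ?_⟩
    obtain ⟨B, hB1, hB2⟩ := exists_dir HP.adj_last
    have h3 : Hook.hkL (FU V) (blow u C) (Ndle.ndA u (Hook.fin C) z) (Ndle.ndB u (Hook.fin C) z) ∈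
        Hook.hkS (FU V) (blow u C) (Ndle.ndB u (Hook.fin C) z) := by
      unfold Hook.hkL
      rw [if_neg (by omega)]
      exact Hook.mem_hkS.2 ⟨_, by omega, rfl⟩
    have h4 : ahead B ∈ QF (Hook.hookU u L V C z).1 := by
      rw [hB1]
      exact StartH.mem_qF.2 HP.last_mem
    refine ⟨B, ⟨hQU h4, ?_⟩, h4, ?_⟩
    · rw [hB2]
      exact fun hh => HP.hkE_notMem (hUV hh)
    · rw [hB1]
      exact (HP.hkS_sub h3).2.1

/-- **The target and the neighbourhood of the tip at the start of a needle step.** -/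
theorem start_tgt (hu : 0 < u) (hC : C.Finite) (cC : Top.EConn C) (eC : Esc C) (h2 : 2 ≤ L)
    (h3 : 3 * L ≤ Ndle.dlt (Hook.fin C) z) (hπ : π.ndl C z = Hook.ndC L C z)
    (HP : Hook.Pre V (blow u C) (Ndle.ndF u (Hook.fin C) z L) (Ndle.ndA u (Hook.fin C) z)
      (Ndle.ndB u (Hook.fin C) z) r')
    (N : Ndl (blow u C) (QF (Hook.hookU u L V C z).1) (Ndle.ndB u (Hook.fin C) z)
      (Ndle.ndA u (Hook.fin C) z) (Ndle.cen u z) r l (6 * u) d)
    (happ : App (FU V) (blow u C) κ d) (hud : (u : ℤ) ≤ d) (hVf : (FU V).Finite)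
    (hVe : Esc (FU V))
    (st : StW.Start (FU V) (QF (Hook.hookU u L V C z).1)
      (compT (FU V \ QF (Hook.hookU u L V C z).1) (Ndle.cen u z)) S m k x)
    (hr : 4 * d + 6 * u < r) {rr : ℤ} (hrr : 2 * (8 * d + 19 * u + 5) ≤ rr) :
    TgG (compT (FU V \ QF (Hook.hookU u L V C z).1) (Ndle.cen u z))
        (Mv.sqF rr (ahead (subE u (CSt.dom₀ π C z).B 0))) (ahead (subE u (CSt.dom₀ π C z).B 0))
        (inF (compT (FU V \ QF (Hook.hookU u L V C z).1) (Ndle.cen u z)) S x) ∧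
      InB (lf (subE u (CSt.dom₀ π C z).A 0)) rr (rg S) ∧
      ahead S ∈ compT (FU V \ QF (Hook.hookU u L V C z).1) (Ndle.cen u z) ∩
        Mv.sqF rr (ahead (subE u (CSt.dom₀ π C z).A 0)) ∧
      ChI (compT (FU V \ QF (Hook.hookU u L V C z).1) (Ndle.cen u z) ∩
        Mv.sqF rr (ahead (subE u (CSt.dom₀ π C z).A 0))) (ahead S)
        (ahead (subE u (CSt.dom₀ π C z).A 0)) := by
  have hu' : (0 : ℤ) < u := by exact_mod_cast hu
  have hL : L ≤ Ndle.dlt (Hook.fin C) z := by omega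
  have hdγ : ∀ x y : ℤ × ℤ, cl u x = cl u y → |x.1 - y.1| < d ∧ |x.2 - y.2| < d := by
    intro x y hxy
    have := sqCell_diam hu' hxy
    exact ⟨this.1.trans_le hud, this.2.trans_le hud⟩
  have hγP : ∀ x y : ℤ × ℤ, cl u x = cl u y → x ∈ blow u C → y ∈ blow u C := by
    intro x y hxy hx
    rw [mem_blow] at hx ⊢
    rwa [← hxy]
  have hγ : ∀ x y : ℤ × ℤ, cl u x = cl u y → Chn {z | cl u z = cl u x} x y := fun x y hxy =>
    sqCell_chn hu' hxy
  have cP : Top.EConn (blow u C) := econn_blow hu' cC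
  have eP : Esc (blow u C) := Esc.blow hu' eC
  have hzP := N.z_mem hdγ
  have hzV : Ndle.cen u z ∈ FU V := happ.sub hzP.1
  set U := compT (FU V) (Ndle.cen u z) with hU
  have hUV : U ⊆ FU V := compT_sub hzV
  have hPU : blow u C ⊆ U := fun f hf => ChI.mono happ.sub (cP _ hzP.1 f hf)
  have hQU : QF (Hook.hookU u L V C z).1 ⊆ U := by
    intro q hq
    have h4 : ChI (QF (Hook.hookU u L V C z).1) (Ndle.ndA u (Hook.fin C) z) q :=
      StartH.qF_econn HP _ (StartH.ndA_mem_qF HP) q hq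
    have h5 : Ndle.ndA u (Hook.fin C) z ∈ U := hPU (HP.sub _ HP.mem)
    exact ChI.trans h5 (h4.mono (StartH.qF_sub HP))
  have hT : compT (U \ QF (Hook.hookU u L V C z).1) (Ndle.cen u z) =
      compT (FU V \ QF (Hook.hookU u L V C z).1) (Ndle.cen u z) :=
    StW.compT_diff_eq hzV self_mem_compT
  obtain ⟨mc, hs⟩ := startD_coarse hC cC eC h2 h3
  have hD := dom0_eq (π := π) cC h2 h3 hπ
  have hR := rest_blow (V := V) hu cC h2 h3 hπ HP
  have hcl : ∀ (A : UE × Bool) (i : ℤ), 0 ≤ i → i < u → cl u (ahead (subE u A i)) = ahead A :=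
    fun A i h0 h1 => cl_ahead hu' A h0 h1
  have h6 := start_both (γ := cl u) N (app_part happ hPU hUV) (hVf.subset hUV)
    (econn_compT hzV) (esc_compT hVf hVe hzV) cP eP hQU hγP hγ hdγ hr
    (hook_cases HP hUV hQU) (W := FU V) (S := S) (m := m) (k := k) (x := x) (by rw [hT]; exact st)
    hUV (A₀ := subE u (CSt.dom₀ π C z).A 0) (b := ahead (subE u (CSt.dom₀ π C z).B 0))
    (by
      rw [hR, hD]
      show cl u (ahead (subE u (tipS C (compT (C \ Hook.ndC L C z) z)) 0)) =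
        cl u (ahead (tipS (blow u C) (blow u (compT (C \ Hook.ndC L C z) z))))
      rw [tipS_blow hu hs, hcl _ _ le_rfl hu', hcl _ _ (by omega) (by omega)])
    (by
      rw [hR, hD]
      show cl u (ahead (subE u (tgtS C (compT (C \ Hook.ndC L C z) z)) 0)) =
        cl u (ahead (tgtS (blow u C) (blow u (compT (C \ Hook.ndC L C z) z))))
      rw [tgtS_blow hu hs])
    (c' := (u : ℤ)) (by omega)
    (fun x z hxz => by
      have := sqCell_diam hu' (x := x) (y := z) hxz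
      unfold InB
      rw [abs_lt, abs_lt] at this
      omega) (rr := rr) (by omega)
  rw [hT] at h6
  exact h6

end Pool.Agent.SixB.StartB
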