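import Pool.Agent.Lib.SixB.S8Geo
import Pool.Agent.Lib.SixB.S8RunN
import Pool.Agent.Lib.SixB.S8GridPos
import Pool.Agent.Lib.SixB.S8StartD
import Pool.Agent.Lib.SixB.S8EndApp
import Pool.Agent.Lib.SixB.S8BarV

/-!
# Step 8, unit 8H: the coarse state

Everything on the unit lattice of the finest stage. `Dom`: a set `P` of unit cells with a tip side `A`
(number `0` of the contour; the sides `1, 2, …` before the target side are the even wall) and a target
side `B`. `Grd`: the grid of a move (`gc a b L`), `M` = half number of cells of the block.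

* `Dom.dom`: the domain `D` of the move, `Dom.ex`: exit indices, `Dom.bar`: the barrier `Z`,
  `Dom.inr`: the part `Dm` in front of the barrier, `Dom.stI`: the indices of the stop sides,
  `Dom.rno`: run numbers, `Dom.zj`: the entered piece;
* `Dom.fam`: the attached sets of full cells, `Dom.kmx`: the largest unvisited one;
* a record is a pair (cell names, run number); `Dom.ent`: the entered set, `Dom.rem`: the removed set
  `V`, `Dom.nxP`, `Dom.nxA`: the new set and the new tip side (next to the entered set), `Dom.lef`: the
  part which is stored;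
* `Dom.Ok`: the set is a disc and the tip side, the target side are two sides of its contour; every
  running domain of the scan has this property;
* `Prm`: the parameters of the scan (needles, targets);
* `CSt`: the state of the scan, `CSt.mv`: the update by one record;
* `cst`: the state as a function of the history.
-/

set_option autoImplicit false

namespace Pool.Agent.SixB.Mv

open Pool.Agent.Perc Pool.Agent.Perc6 Pool.Agent.Perc.Tips Pool.Agent.SixB.Top

/-- The grid of a move: the cells `gc a b L`, and the half number `M` of cells of the block. -/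
structure Grd where
  a : ℤ
  b : ℤ
  L : ℤ
  M : ℤ

/-- The name of the cell of a face. -/
def Grd.nm (g : Grd) : ℤ × ℤ → ℤ × ℤ := gc g.a g.b g.L

/-- The square of radius `r` with centre `g`. -/
def sqr (r : ℤ) (g : ℤ × ℤ) : Set (ℤ × ℤ) := {f | |f.1 - g.1| ≤ r ∧ |f.2 - g.2| ≤ r}

/-- The number of sides of the contour of `D`, from the side `A`. -/
noncomputable def cyl (D : Set (ℤ × ℤ)) (A : UE × Bool) : ℕ := Function.minimalPeriod (sc D) A

/-! ### A coarse domain and the geometry of a move -/

/-- A coarse domain: the faces, the tip side, the target side. -/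
structure Dom where
  P : Set (ℤ × ℤ)
  A : UE × Bool
  B : UE × Bool

/-- A record: the names of the unvisited attached cells (relative to the name of the cell of the tip),
and the run number of the stop side. -/
abbrev Rec := Finset (ℤ × ℤ) × ℕ

namespace Dom

variable (s : Dom) (g : Grd)

/-- The place of the tip. -/
def tip : ℤ × ℤ := lf s.A

/-- The block. -/
def blk : Set (ℤ × ℤ) := Mv.blk g.a g.b g.L g.M s.tip

/-- The domain `D` of the move. -/
def dom : Set (ℤ × ℤ) := domD s.P (s.blk g) s.A

/-- The indices of the exit sides. -/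
def ex : Set ℕ := {i | i < cyl (s.dom g) s.A ∧ IsEx s.P s.B (side (s.dom g) s.A i)}

/-- The first exit side. -/
noncomputable def p : ℕ := sInf (s.ex g)

/-- The last exit side. -/
noncomputable def q : ℕ := sSup (s.ex g)

/-- The barrier `Z`. -/
noncomputable def bar : Set (ℤ × ℤ) := BarV (s.dom g) s.A (s.p g) (s.q g) g.nm

/-- The void move: the face at the tip side is in the barrier. -/
def Void : Prop := ahead s.A ∈ s.bar g

/-- The part `Dm` of the domain in front of the barrier. -/
noncomputable def inr : Set (ℤ × ℤ) := inn (s.dom g) s.A (s.bar g)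

/-- The indices of the stop sides. -/
noncomputable def stI : Set ℕ := {i | i < cyl (s.inr g) s.A ∧ outF (s.inr g) s.A i ∈ s.bar g}

/-- The first stop side. -/
noncomputable def n₁ : ℕ := sInf (s.stI g)

/-- The last stop side, plus one. -/
noncomputable def n₂ : ℕ := sSup (s.stI g) + 1

/-- The run number of the side number `i`. -/
noncomputable def rno (i : ℕ) : ℕ := rn g.a g.b g.L (s.inr g) s.A (s.n₁ g) i

/-- The first stop side of the run number `r`. -/
noncomputable def runI (r : ℕ) : ℕ := rs g.a g.b g.L (s.inr g) s.A (s.n₁ g) (s.n₂ g) r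

/-- The piece of the barrier behind the run number `r`. -/
noncomputable def zj (r : ℕ) : Set (ℤ × ℤ) :=
  RunS.Zr g.a g.b g.L (s.dom g) s.A (s.bar g) (s.n₁ g) (s.n₂ g) r

/-! ### Attached sets of cells -/

/-- The cell `c` is contained in `Dm`. -/
def Full (c : ℤ × ℤ) : Prop := ∀ f, g.nm f = c → f ∈ s.inr g

/-- The cell `c` has a common side with the barrier. -/
def CTch (c : ℤ × ℤ) : Prop := ∃ f, ∃ z ∈ s.bar g, g.nm f = c ∧ AdjF f z

/-- `K` is a set of full cells, and each of them is joined to the barrier by cells of `K`. -/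
structure AtK (K : Finset (ℤ × ℤ)) : Prop where
  full : ∀ c ∈ K, s.Full g c
  ch : ∀ c ∈ K, ∃ c' ∈ K,
    Relation.ReflTransGen (fun a b => (∃ f h, g.nm f = a ∧ g.nm h = b ∧ AdjF f h) ∧ b ∈ K) c c' ∧
      s.CTch g c'

open Classical in
/-- The family of the attached sets. -/
noncomputable def fam : Finset (Finset (ℤ × ℤ)) :=
  (blkN g.a g.b g.L g.M s.tip).powerset.filter fun K => s.AtK g K

open Classical in
/-- The largest attached set of unvisited cells; `N` = the visited faces. -/
noncomputable def kmx (N : Set (ℤ × ℤ)) : Finset (ℤ × ℤ) :=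
  ((s.fam g).filter fun K => ∀ c ∈ K, ∀ f, g.nm f = c → f ∉ N).sup id

/-- The name of a cell relative to the cell of the tip, and back. -/
def rel (c : ℤ × ℤ) : ℤ × ℤ := c - g.nm s.tip

/-- The record: `N` = the visited faces, `i` = the number of the stop side, `c` = the largest run
number which is recorded. -/
noncomputable def rcd (c : ℕ) (N : Set (ℤ × ℤ)) (i : ℕ) : Rec :=
  ((s.kmx g N).image (s.rel g), min (s.rno g i) c)

/-- The cells of a record. -/
def kst (ρ : Rec) : Finset (ℤ × ℤ) := ρ.1.image fun c => c + g.nm s.tip

/-- The faces of the cells of a record. -/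
def fcs (ρ : Rec) : Set (ℤ × ℤ) := {f | f ∈ s.inr g ∧ g.nm f ∈ s.kst g ρ}

/-! ### The update -/

open Classical in
/-- The face which is entered (`Void`: the face at the tip side). -/
noncomputable def stp (ρ : Rec) : ℤ × ℤ :=
  if s.Void g then ahead s.A else outF (s.inr g) s.A (s.runI g ρ.2)

/-- The entered set: the piece of this face and, if it has no side on the stop arc, a neighbouring piece
which has one. -/
noncomputable def ent (ρ : Rec) : Set (ℤ × ℤ) :=
  entV (s.dom g) s.A (s.p g) (s.q g) g.nm (s.stp g ρ)

open Classical in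
/-- The removed faces `V`. -/
noncomputable def rem (ρ : Rec) : Set (ℤ × ℤ) :=
  if s.Void g then s.ent g ρ else (s.inr g \ s.fcs g ρ) ∪ s.ent g ρ

/-- The end of the step: the entered set contains the face at the target side. -/
def End (ρ : Rec) : Prop := ahead s.B ∈ s.ent g ρ

/-- The new set. -/
noncomputable def nxP (ρ : Rec) : Set (ℤ × ℤ) := compT (s.P \ s.rem g ρ) (ahead s.B)

/-- The new tip side: a side of the new set at the entered set. -/
noncomputable def nxA (ρ : Rec) : UE × Bool :=
  Classical.epsilon fun x => BD (s.nxP g ρ) x ∧ ahead (rv x) ∈ s.ent g ρ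

/-- The new domain. -/
noncomputable def nx (ρ : Rec) : Dom := ⟨s.nxP g ρ, s.nxA g ρ, s.B⟩

/-- The old label of a side of `P`, the even wall: it is after the tip side and before the target
side. -/
def old (x : UE × Bool) : Prop :=
  ∃ i j, 0 < i ∧ i < j ∧ j < cyl s.P s.A ∧ side s.P s.A i = x ∧ side s.P s.A j = s.B

/-- The part of `P \ V` on the left of the strand: the components with a side of `P` which has not the
old label of the even wall and is not at a recorded cell, without the component of the target. -/
def lef (ρ : Rec) : Set (ℤ × ℤ) :=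
  {f | f ∈ s.P \ s.rem g ρ ∧ ahead s.B ∉ compT (s.P \ s.rem g ρ) f ∧
    ∃ x, BD s.P x ∧ ahead x ∈ compT (s.P \ s.rem g ρ) f ∧ ahead x ∉ s.fcs g ρ ∧ ¬ s.old x}

/-- `P` is a disc, the tip side and the target side are two sides of its contour. -/
structure Ok : Prop where
  fin : s.P.Finite
  con : Top.EConn s.P
  esc : Esc s.P
  bdA : BD s.P s.A
  bdB : BD s.P s.B
  ne : s.A ≠ s.B

end Dom

/-! ### The state of the scan -/

/-- The parameters of the scan: the exponent `kap` of the size of the blocks (half side `n / 2 ^ kap`),
the number of needles, the targets of the needles, the condition for a needle (in a set, with a target)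
and the cells of the needle. -/
structure Prm where
  kap : ℕ
  m : ℕ
  zt : ℕ → ℤ × ℤ
  act : Set (ℤ × ℤ) → ℤ × ℤ → Prop
  ndl : Set (ℤ × ℤ) → ℤ × ℤ → Set (ℤ × ℤ)

/-- The grid of a move with cells of side `L`: in general position with respect to the target. -/
def Dom.grd (s : Dom) (L M : ℤ) : Grd :=
  ⟨offL 0 1 L (lf s.A).1 (lf s.B).1 (rg s.B).1, offL 0 1 L (lf s.A).2 (lf s.B).2 (rg s.B).2, L, M⟩

/-- The state of the scan: the stored cells `W` (the recorded discs are the components), the running
domain, the number of the next needle; `ini`: the needle was placed in the last stage. -/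
structure CSt where
  W : Set (ℤ × ℤ)
  run : Option Dom
  j : ℕ
  ini : Bool

namespace CSt

/-- The first domain after the needle with target `z` is placed in the set `W`. -/
noncomputable def dom₀ (π : Prm) (W : Set (ℤ × ℤ)) (z : ℤ × ℤ) : Dom :=
  ⟨compT (W \ π.ndl W z) z, StartA.tipS (compT W z) (compT (W \ π.ndl W z) z),
    StartA.tgtS (compT W z) (compT (W \ π.ndl W z) z)⟩

/-- The stored set with its component of `z` eroded. -/
def erW (W : Set (ℤ × ℤ)) (L : ℤ) (z : ℤ × ℤ) : Set (ℤ × ℤ) :=
  (W \ compT W z) ∪ (er3 (gc 0 0 L) (compT W z) ∩ W)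

open Classical in
/-- The next state. `L`: side of the cells, `M`: half number of cells of the block, `ρ`: the record. The
first stage after a needle is placed has no record (the strand enters the component of the target). -/
noncomputable def mv (σ : CSt) (π : Prm) (L M : ℤ) (ρ : Rec) : CSt :=
  match σ.run with
  | some s =>
    if σ.ini then ⟨σ.W, some s, σ.j, false⟩
    else ⟨σ.W ∪ s.lef (s.grd L M) ρ,
      if s.End (s.grd L M) ρ ∨ ¬ (s.nx (s.grd L M) ρ).Ok then none
      else some (s.nx (s.grd L M) ρ), σ.j, false⟩
  | none =>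
    if σ.j < π.m ∧ π.zt σ.j ∈ erW σ.W L (π.zt σ.j) ∧
        π.act (compT (erW σ.W L (π.zt σ.j)) (π.zt σ.j)) (π.zt σ.j) ∧
        (dom₀ π (compT (erW σ.W L (π.zt σ.j)) (π.zt σ.j)) (π.zt σ.j)).Ok then
      ⟨erW σ.W L (π.zt σ.j) \
          (π.ndl (compT (erW σ.W L (π.zt σ.j)) (π.zt σ.j)) (π.zt σ.j) ∪
            (dom₀ π (compT (erW σ.W L (π.zt σ.j)) (π.zt σ.j)) (π.zt σ.j)).P),
        some (dom₀ π (compT (erW σ.W L (π.zt σ.j)) (π.zt σ.j)) (π.zt σ.j)), σ.j + 1, true⟩
    else ⟨σ.W, none, σ.j + 1, false⟩

end CSt

/-! ### The state as a function of the history -/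

/-- The half number of cells of the block of the stage `i`. -/
def msz (κ : ℕ) (d : ℕ → ℕ) (i : ℕ) : ℤ := 2 ^ (d i - κ)

/-- The state as a function of the history (the last record first). -/
noncomputable def cst (π : Prm) (d : ℕ → ℕ) (W₀ : Set (ℤ × ℤ)) : List Rec → CSt
  | [] => ⟨W₀, none, 0, false⟩
  | ρ :: x => (cst π d W₀ x).mv π (msh d x.length) (msz π.kap d x.length) ρ

/-- Every running domain has the property `Ok`. -/
theorem CSt.mv_ok {σ : CSt} {π : Prm} {L M : ℤ} {ρ : Rec} (h : ∀ s, σ.run = some s → s.Ok) {s : Dom}
    (hs : (σ.mv π L M ρ).run = some s) : s.Ok := by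
  unfold CSt.mv at hs
  split at hs
  · rename_i s₀ h₀
    split_ifs at hs with h1 h2
    · cases hs; exact h _ h₀
    · cases hs
      exact not_not.1 fun h3 => h2 (Or.inr h3)
  · split_ifs at hs with h1
    cases hs; exact h1.2.2.2

theorem cst_ok {π : Prm} {d : ℕ → ℕ} {W₀ : Set (ℤ × ℤ)} {x : List Rec} {s : Dom}
    (hs : (cst π d W₀ x).run = some s) : s.Ok := by
  induction x generalizing s with
  | nil => cases hs
  | cons ρ x ih => exact CSt.mv_ok (fun s h => ih h) hs

end Pool.Agent.SixB.Mv
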