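import Pool.Agent.Lib.SixB.S8StepIni

/-!
# Step 8: the row `step`

`rowStep_datC`: **the row `step`** for the official data: for all large `kap`.
-/

set_option autoImplicit false

namespace Pool.Agent.SixB.Tru

open Finset Filter Topology Pool.Agent.Perc Pool.Agent.PercT Pool.Agent.PercX60
open Pool.Agent.SixB Pool.Agent.SixB.Rule Pool.Agent.SixB.Dct Pool.Agent.SixB.Mv
open Pool.Agent.SixB.Tps Pool.Agent.SixB.Out Pool.Agent.SixB.NM Pool.Agent.SixB.Near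

/-- **The row `step`**, official data. -/
theorem rowStep_datC {K : ℕ} (hK : 0 < K) {δ ε : ℝ} (hδ : 0 < δ) (hε : 0 < ε) :
    ∃ kap₀ : ℕ, ∀ kap, kap₀ ≤ kap → ∀ (C : ℤ) (a : ℕ) (G : ℕ → ℕ → ℕ), 256 ≤ C →
      16 * (9 * C + 6) ≤ 2 ^ a → 512 * K ≤ 2 ^ a → 45 ≤ a → (∀ i e, e + a ≤ G i e) →
      SmY G (BdI (IC K kap C) (Cov.datC K kap)) (YK (Cov.datC K kap)) →
      ∃ G' : ℕ → ℕ → ℕ, (∀ i e, G i e ≤ G' i e) ∧ ∀ G'' : ℕ → ℕ → ℕ,
        (∀ i e, G' i e ≤ G'' i e) → RowStep (Cov.datC K kap) G''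
          (BdI (IC K kap C) (Cov.datC K kap)) (fun d n => TruR.ruleT (Cov.datC K kap) d n)
          (tipsT (Cov.datC K kap)) δ ε := by
  obtain ⟨κ, hκ, hκδ, h⟩ := rowStep_of_pc K hδ hε
  obtain ⟨kap₀, hkap₀⟩ := pow_unbounded_of_one_lt (64 / κ) (show (1 : ℝ) < 2 by norm_num)
  refine ⟨kap₀, fun kap hkap C a G hC ha haK ha45 hG hY => ?_⟩
  refine h κ hκ le_rfl kap (hkap₀.le.trans (pow_le_pow_right₀ (by norm_num) hkap)) C a G hC ha hG
    hY ⟨fun H h1 h2 => ?_, fun H h1 h2 _ => ?_, fun H h1 h2 => ?_⟩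
  · exact StF.ini hC hK ha hκ hκδ H h1
  · exact StF.mov hC ha H h1 h2
  · exact StF.last hC hK ha hκ hκδ H h1 h2

end Pool.Agent.SixB.Tru
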