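import Pool.Agent.Lib.SixB.S8StepNd
import Pool.Agent.Lib.SixB.S8DispS
import Pool.Agent.Lib.SixB.S8StartBs

/-!
# Step 8: the entrance stage in the row `step`

* `tip_fine`, `tip_of_ent`, `tip_of_app`, `tip_of_stT`: the base of the strand is near the coarse tip at the
  stage which places a needle;
* `StF.ini`: **the piece `ini`** of the row `step`.
-/

set_option autoImplicit false

namespace Pool.Agent.SixB.StS

open Finset Pool.Agent.Perc Pool.Agent.Perc6 Pool.Agent.PercT Pool.Agent.Perc6.C2Aux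
open Pool.Agent.Perc.Tips Pool.Agent.PercU Pool.Agent.PercX60
open Pool.Agent.MP_6bd702.H23 (Ed ea eb)
open Pool.Agent.SixB Pool.Agent.SixB.Top Pool.Agent.SixB.Mv
open Pool.Agent.SixB.Rule Pool.Agent.SixB.Dct Pool.Agent.SixB.Hook
open Pool.Agent.SixB.Blow (subE)
open Pool.Agent.SixB.Ndle (dlt cen)
open Pool.Agent.SixB.Tru

section Fine

variable {u L : ℕ} {V : Finset (ℤ × ℤ)} {C : Set (ℤ × ℤ)} {z : ℤ × ℤ} {w R : ℤ}
  {π : Prm} {κ : ℤ × ℤ → ℤ × ℤ}

/-- **The base of the true needle is near the coarse tip side**, with free numbers. -/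
theorem tip_fine (hu : 0 < u) (hC : C.Finite) (cC : Top.EConn C) (eC : Esc C)
    (h3 : 3 * L ≤ dlt (fin C) z) (hπ : π.ndl C z = ndC L C z)
    (A : App (FU V) (blow u C) κ w) (huw : (u : ℤ) ≤ w)
    (hfar : 2 * (2 * (4 * w + 6 * u + 8) + 6 * u) ≤ u * ((L : ℤ) - 3))
    (hR : 5 * w + 6 * u + 6 ≤ R) :
    LC.InB (lf (subE u (CSt.dom₀ π C z).A 0)) R (ua (Tru.eS V (hookU u L V C z))) := by
  have hu' : (0 : ℤ) < u := by exact_mod_cast hu
  have h3' : 3 * (L : ℤ) ≤ (dlt (fin C) z : ℤ) := by exact_mod_cast h3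
  have hm : (u : ℤ) * (3 * (L : ℤ)) ≤ u * (dlt (fin C) z : ℤ) := mul_le_mul_of_nonneg_left h3' hu'.le
  have e1 : (u : ℤ) * ((L : ℤ) - 3) = u * L - 3 * u := by ring
  have e2 : (u : ℤ) * (3 * (L : ℤ)) = 3 * (u * L) := by ring
  have e3 : (u : ℤ) * ((L : ℤ) + 1) - 1 = u * L + u - 1 := by ring
  have e4 : (u : ℤ) * ((dlt (fin C) z : ℤ) - 1) = u * (dlt (fin C) z : ℤ) - u := by ring
  rw [e1] at hfar
  rw [e2] at hm
  have h2 : 2 ≤ L := by
    by_contra h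
    have h5 : (L : ℤ) ≤ 1 := by exact_mod_cast (by omega : L ≤ 1)
    have h6 : (u : ℤ) * L ≤ u * 1 := mul_le_mul_of_nonneg_left h5 hu'.le
    omega
  have h1 : 1 ≤ L := by omega
  have hL : L ≤ dlt (fin C) z := by omega
  have hd : 0 < w := by omega
  have H : Pre V (blow u C) (Ndle.ndF u (fin C) z L) (Ndle.ndA u (fin C) z)
      (Ndle.ndB u (fin C) z) (w - 1).toNat :=
    Hook.pre_of_app hC hu' hL h1 A subset_rfl fun _ _ _ _ h => h
  have hl : (u : ℤ) * ((L : ℤ) + 1) - 1 ≤ u * ((L : ℤ) + 1) - 1 := le_rfl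
  have hdl : w ≤ (u : ℤ) * ((L : ℤ) + 1) - 1 := by rw [e3]; omega
  have hr : (u : ℤ) * ((L : ℤ) + 1) - 1 + w ≤ u * ((dlt (fin C) z : ℤ) - 1) := by rw [e3, e4]; omega
  have N := StartH.ndl_hook hC hu' h1 hL hd H hl hdl hr
  have hA := (StartB.near_AB (π := π) hu hC cC eC h2 h3 hπ H N huw).1
  have hb := (base_near H).1
  have hlf := isCor_in_lf (subE u (CSt.dom₀ π C z).A 0)
  have hr0 : ((w - 1).toNat : ℤ) = w - 1 := Int.toNat_of_nonneg (by omega)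
  rw [hr0] at hb
  change LC.InB (lf (subE u (CSt.dom₀ π C z).A 0)) R
    (ua (Tru.eS V (ndT (FU V) (blow u C) (Ndle.ndF u (fin C) z L) (Ndle.ndA u (fin C) z)
      (Ndle.ndB u (fin C) z))))
  unfold LC.InB at *
  unfold IsCor at hlf
  omega

end Fine

variable {n L : ℕ} {V : Finset (ℤ × ℤ)} {w : ℤ} {κ : ℤ × ℤ → ℤ × ℤ}
  {𝔇 : Dat} {d : ℕ → ℕ} {i : ℕ} {ω : Cfg} {x : List Rec} {q : Rule.Ndl} {D : Dom} {r : ℤ}

/-- **The base at the stage which places a needle**, with free numbers. -/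
theorem tip_of_ent (E : EntS 𝔇 d n ω i V x q D)
    (hhk : 𝔇.hook n d V (𝔇.disc d x) (𝔇.tgt d x) =
      hookU (unt d n) L V (𝔇.disc d x) (𝔇.tgt d x))
    (hnd : (𝔇.prm d).ndl (𝔇.disc d x) (𝔇.tgt d x) = ndC L (𝔇.disc d x) (𝔇.tgt d x))
    (hJ : (𝔇.cs d x).Inv)
    (h3 : 3 * L ≤ dlt (fin (𝔇.disc d x)) (𝔇.tgt d x)) (hu : 0 < unt d n)
    (A : App (FU V) (blow (unt d n) (𝔇.disc d x)) κ w) (huw : (unt d n : ℤ) ≤ w)
    (hfar : 2 * (2 * (4 * w + 6 * unt d n + 8) + 6 * unt d n) ≤ unt d n * ((L : ℤ) - 3))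
    (hR : 5 * w + 6 * unt d n + 6 ≤ r) :
    LC.InB (lf (subE (unt d n) D.A 0)) r (ua (eS V q)) := by
  obtain ⟨f1, f2, f3⟩ : (𝔇.disc d x).Finite ∧ Top.EConn (𝔇.disc d x) ∧ Esc (𝔇.disc d x) := by
    rw [E.disc]
    exact CSt.esc_cmp (π := 𝔇.prm d) hJ (msh_pos d i) E.mem
  have hqe : q = hookU (unt d n) L V (𝔇.disc d x) (𝔇.tgt d x) := E.hk.trans hhk
  have hDe := E.dom
  clear E
  subst hqe hDe
  exact tip_fine (π := 𝔇.prm d) hu f1 f2 f3 h3 hnd A huw hfar hR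

open Pool.Agent.SixB.Cov (datC)

/-- The same for the official data. -/
theorem tip_of_app {C : ℤ} {K kap N : ℕ} (E : EntS (datC K kap) d n ω i V x q D) (hC : 256 ≤ C)
    (hK : 0 < K) (hd : Sc.Dec d N) (hiN : i + 1 ≤ N) (hl : (K : ℤ) * (32 * 13 + 80) ≤ 2 ^ d N)
    (hn : 2 ^ d 0 ≤ n) (hJ : ((datC K kap).cs d x).Inv)
    (A : App (FU V) (blow (unt d n) ((datC K kap).disc d x)) κ (rad 13 (unt d n) d (i + 1))) :
    LC.InB (lf (subE (unt d n) D.A 0)) (rad C (unt d n) d (i + 1)) (ua (eS V q)) := by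
  have hu : 0 < unt d n := by exact_mod_cast InvN.unt_pos hn
  obtain ⟨g0, g1, -⟩ := num_ent (C := 256) E (C₁ := 13) (by norm_num) (by norm_num) hK hd hiN hl hn
  refine tip_of_ent (L := Hook.ndL K (d 0)) E rfl (datC_ndl K kap d _ _) hJ E.act hu A g0 g1 ?_
  have hu' : (1 : ℤ) ≤ unt d n := by exact_mod_cast hu
  have hS1 : 0 ≤ ∑ j ∈ Finset.range (i + 1), msh d j := by
    have := InvN.sms_nonneg (d := d) (k := i + 1)
    unfold InvN.sms at this
    exact this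
  obtain ⟨X, hX⟩ : ∃ X, X = (unt d n : ℤ) * (1 + ∑ j ∈ Finset.range (i + 1), msh d j) := ⟨_, rfl⟩
  have hrad : ∀ c : ℤ, rad c (unt d n) d (i + 1) = c * X := fun c => by
    rw [hX]
    unfold rad
    ring
  have hX1 : (unt d n : ℤ) ≤ X := by rw [hX]; nlinarith
  rw [hrad, hrad]
  nlinarith

/-- The same from the stored discs and the freshness of the disc of the needle. -/
theorem tip_of_stT {C : ℤ} {K kap N : ℕ} (E : EntS (datC K kap) d n ω i V x q D) (hC : 256 ≤ C)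
    (hK : 0 < K) (hd : Sc.Dec d N) (hiN : i + 1 ≤ N) (hl : (K : ℤ) * (32 * 13 + 80) ≤ 2 ^ d N)
    (hn : 2 ^ d 0 ≤ n)
    (hst : StT (datC K kap) d n (rad 1 (unt d n) d (i + 1)) (TruR.ts (datC K kap) d n ω i) ω)
    (hfr : blow (unt d n : ℤ) ((datC K kap).disc d x) ⊆ FU V) :
    LC.InB (lf (subE (unt d n) D.A 0)) (rad C (unt d n) d (i + 1)) (ua (eS V q)) := by
  obtain ⟨h1, κ, h2⟩ := app_ent (C₁ := 1) E (by exact_mod_cast InvN.unt_pos hn) hst hfr
  exact tip_of_app E hC hK hd hiN hl hn h1 h2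

end Pool.Agent.SixB.StS

namespace Pool.Agent.SixB.Tru

open Finset Filter Topology Pool.Agent.Perc Pool.Agent.PercT Pool.Agent.PercX60
open Pool.Agent.SixB Pool.Agent.SixB.Rule Pool.Agent.SixB.Dct Pool.Agent.SixB.Mv
open Pool.Agent.SixB.Tps Pool.Agent.SixB.Out Pool.Agent.SixB.NM Pool.Agent.SixB.Near
open Pool.Agent.SixB.Blow (subE lf_subE_zero)
open Pool.Agent.Perc6.C2Aux
open Pool.Agent.SixB.Top (lf rg)
open Pool.Agent.SixB.TruR (ts)

variable {C : ℤ} {κ δ : ℝ} {kap a K : ℕ} {d : ℕ → ℕ} {n N i j : ℕ} {ω : Cfg} {D : Dom}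
  {q : Rule.Ndl} {V : Finset (ℤ × ℤ)} {x : List Rec}

/-- **The base is near the coarse tip at the placing stage**, official data. -/
theorem tip_gd (hC : 256 ≤ C) (hK : 0 < K) (ha : 16 * (9 * C + 6) ≤ 2 ^ a) (hS : NumR a d n j)
    (hn : 2 ^ d 0 ≤ n) (hk : 1024 * K ≤ 2 ^ d (j + 1))
    (hI : ∀ k, j = k + 1 → IC K kap C d n k (tst (Cov.datC K kap) d n ω k) ω)
    (hY : ∀ k, j = k + 1 → ω ∉ YK (Cov.datC K kap) d n k)
    (E : EntS (Cov.datC K kap) d n ω j V x q D) :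
    LC.InB (lf (subE (unt d n) D.A 0)) (rad C (unt d n) d (j + 1)) (ua (eS V q)) := by
  have hp : ((Cov.datC K kap).cs d (ts (Cov.datC K kap) d n ω j).x).Plant ((Cov.datC K kap).prm d)
      (msh d (ts (Cov.datC K kap) d n ω j).x.length) := by
    refine plant_of_run (D := D) E.q0 (by rw [E.x0]; exact E.run0) ?_
    rw [E.st]
    have h1 := E.co
    change ((Cov.datC K kap).cs d ((∅, 0) :: x)).run = some D
    rw [h1]
  have h1a : 1 ≤ a := by
    by_contra hcon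
    obtain rfl : a = 0 := by omega
    rw [pow_zero] at ha
    omega
  cases j with
  | zero => exact absurd hp not_plant_zero
  | succ k =>
    have hfr : blow (unt d n : ℤ) ((Cov.datC K kap).disc d x) ⊆ FU V := by
      by_contra hno
      rw [← E.V0, ← E.x0] at hno
      exact hY k rfl ⟨E.q0, hp, hno⟩
    have hst := (hI k rfl).2.2.2.2.1.1
    refine StS.tip_of_stT (N := k + 1 + 1) E hC hK (fun l hl => ?_) le_rfl ?_ hn
      (hst.mono (StS.rad_le_one (a := a) (by omega) (by omega) (by omega) (fun l hl => hS.2 l hl) h1a))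
      hfr
    · have := hS.2 l (by omega)
      omega
    · have h1 : ((1024 * K : ℕ) : ℤ) ≤ ((2 ^ d (k + 1 + 1) : ℕ) : ℤ) := by exact_mod_cast hk
      push_cast at h1
      linarith

/-- **The piece `ini`**, official data. -/
theorem StF.ini (hC : 256 ≤ C) (hK : 0 < K) (ha : 16 * (9 * C + 6) ≤ 2 ^ a) (hκ : 0 < κ)
    (hδ : κ ≤ δ / 16) (H : StF K kap a C κ δ d n N i ω D q)
    (hi : ((Cov.datC K kap).cs d (tst (Cov.datC K kap) d n ω i).x).ini = true) :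
    ∀ t ≤ staT n (unt d n) (tst (Cov.datC K kap) d n ω i).V q D.B ω,
      NearR d n ω (δ / 2 * n) (tst (Cov.datC K kap) d n ω i).V q D.tip t := by
  have hlt := H.lt
  have E := ent_of H.hq H.run hi
  have hV : (tst (Cov.datC K kap) d n ω i).V = (ts (Cov.datC K kap) d n ω i).V := by rw [E.st]
  have htip := tip_gd hC hK ha (H.sz.numR i (by omega)) H.sz.hn (H.sz.kd (i + 1) (by omega))
    (fun k hk => (notMem_bdI.1 (H.gd k (by omega))).1) (fun k hk h => H.tr k (by omega) (Or.inr h)) E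
  rw [← hV] at htip
  have hfl := H.sz.fl (𝔇 := Cov.datC K kap) (i := i) (by omega) ω D
  have hrB := H.sz.radB (i + 1) (by omega)
  obtain ⟨p1, p2, p3, p4, p5⟩ := H.sz.nonneg (𝔇 := Cov.datC K kap) (i := i) (by omega)
    (by norm_num) ω D
  obtain ⟨P, y₀, a₀, zt, r₀, l₀, c₁, d₀, n1, n2, n3, n4, n5, n6⟩ := H.clrN hC hK ha
  have hκδ : ⌊κ * n⌋ ≤ ⌈δ / 8 * n⌉ := by
    have h1 : ((⌊κ * n⌋ : ℤ) : ℝ) ≤ (⌈δ / 8 * n⌉ : ℤ) :=
      (Int.floor_le _).trans ((mul_le_mul_of_nonneg_right (by linarith)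
        (Nat.cast_nonneg n)).trans (Int.le_ceil _))
    exact_mod_cast h1
  intro t ht
  have key := Dsp.disp_ini (s := d₀) (t := 2 * d₀ + c₁ + 2) (k := rad C (unt d n) d (i + 1))
    (ρ := ⌊κ * n⌋ - 3) (R := ⌈δ / 8 * n⌉) (n := n) (u := unt d n) (B := D.B) (ω := ω)
    n1 n2 le_rfl n4 le_rfl n5 p2 (by omega) (by omega) n6 (fun h => H.env.base (Or.inr (Or.inl ?_)))
    t ht
  · rw [Near.inB_iff] at key
    rw [lf_subE_zero] at htip
    have e : D.tip = lf D.A := rfl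
    have hr : ((⌈δ / 8 * n⌉ + rad C (unt d n) d (i + 1) : ℤ) : ℝ) ≤ δ / 2 * n := by
      refine le_trans ?_ H.sz.hr1
      have h1 : ⌊κ / 16 * n⌋ ≤ ⌊κ / 2 * n⌋ := Int.floor_le_floor (by
        have : (0 : ℝ) ≤ κ * n := by positivity
        linarith)
      exact_mod_cast (by omega : ⌈δ / 8 * n⌉ + rad C (unt d n) d (i + 1) ≤
        ⌈δ / 8 * n⌉ + ⌊κ / 2 * n⌋)
    unfold LC.InB at htip
    unfold NearR
    rw [e]
    constructor
    · refine le_trans ?_ hr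
      exact_mod_cast abs_le.2 ⟨by omega, by omega⟩
    · refine le_trans ?_ hr
      exact_mod_cast abs_le.2 ⟨by omega, by omega⟩
  · have e1 : ⌊κ * n⌋ - 3 + 4 = ⌊κ * n⌋ + 1 := by ring
    rw [e1] at h
    exact h

end Pool.Agent.SixB.Tru
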