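import Pool.Agent.Lib.SixB.S8EndTop
import Pool.Agent.Lib.SixB.S8StepFin
import Pool.Agent.Lib.SixB.S8DispR

/-!
# Step 8: the last stage of a needle, in the form of the row `step`

* `StepL.six_le`: the resolutions before a stage, from the numbers of the stage;
* `StH.last`: the field `last` of `StPc` for the invariant `InvA` and the sizes `Siz`, from `last_chain`
  and `away_chain`. The clearance needle is a hypothesis (`StepL.ClrN`).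
-/

set_option autoImplicit false

namespace Pool.Agent.SixB.Tru

open Finset Filter Topology Pool.Agent.Perc Pool.Agent.PercT Pool.Agent.PercX60
open Pool.Agent.SixB Pool.Agent.SixB.Rule Pool.Agent.SixB.Dct Pool.Agent.SixB.Mv
open Pool.Agent.SixB.Tps Pool.Agent.SixB.Out Pool.Agent.SixB.NM Pool.Agent.SixB.Near
open Pool.Agent.SixB.NearCut (Nb)
open Pool.Agent.SixB.Blow (subE)
open Pool.Agent.SixB.Top (compT lf rg)
open Pool.Agent.Perc6.C2Aux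
open Pool.Agent.Perc.Tips

/-- The needle `q` is a clearance needle, the base and the hook have size at most `k`, and the coarse
target side is in the component of the target. -/
def StepL.ClrN (d : ℕ → ℕ) (n : ℕ) (k : ℤ) (s : TS) (q : Rule.Ndl) (D : Dom) : Prop :=
  ∃ (P : Set (ℤ × ℤ)) (y₀ a₀ zt : ℤ × ℤ) (r₀ l₀ c₁ d₀ : ℤ),
    StartA.Ndl P (QF q.1) y₀ a₀ zt r₀ l₀ c₁ d₀ ∧ P ⊆ FU s.V ∧ 2 * d₀ + c₁ + 2 ≤ k ∧ d₀ < r₀ ∧
      LC.InB y₀ k (ua (Tru.eS s.V q)) ∧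
      ahead (subE (unt d n) D.B 0) ∈ compT (FU s.V \ QF q.1) zt

/-- The resolutions before a stage. -/
theorem StepL.six_le {C : ℤ} {d : ℕ → ℕ} {n i : ℕ} (hC : 9 ≤ C)
    (h : NumO d n (i + 1) (rad C (unt d n) d (i + 1))) : d (i + 1) + 6 ≤ d 0 := by
  by_contra hcon
  have hu : (0 : ℤ) < unt d n := by exact_mod_cast h.hu
  have h1 : msh d (i + 1) ≤ 32 := by
    unfold msh
    have : d 0 - d (i + 1) ≤ 5 := by omega
    calc (2 : ℤ) ^ (d 0 - d (i + 1)) ≤ 2 ^ 5 := pow_le_pow_right₀ (by norm_num) this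
      _ = 32 := by norm_num
  have h2 : C * unt d n ≤ rad C (unt d n) d (i + 1) := by
    unfold rad
    have h3 : (0 : ℤ) ≤ ∑ j ∈ range (i + 1), msh d j := sum_nonneg fun j _ => (msh_pos d j).le
    have h4 : 0 ≤ C * unt d n := mul_nonneg (by omega) hu.le
    nlinarith
  have h3 := h.farB
  have h4 : msh d (i + 1) / 16 ≤ 2 := by omega
  have h5 : (unt d n : ℤ) * (msh d (i + 1) / 16) ≤ unt d n * 2 :=
    mul_le_mul_of_nonneg_left h4 hu.le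
  nlinarith

section last

variable {C c₀ : ℤ} {K : ℕ} {J : InvP} {𝔇 : Dat} {Tr : EvF} {κ δ : ℝ} {d : ℕ → ℕ} {n N i : ℕ}
  {ω : Cfg} {D : Dom} {q : Rule.Ndl} {k : ℤ}

/-- **The piece `last`.** -/
theorem StH.last (hκ : 0 < κ) (hδ : κ ≤ δ / 8) (hC : 9 ≤ C) (hc : 0 ≤ c₀)
    (hJ : ∀ s, J d n i s ω → NbI C 𝔇 d n i s ω)
    (hTr : ∀ l, ω ∉ Tr d n l → ω ∉ Dead C 𝔇 d n l)
    (H : StH Tru.Bs (InvA C c₀ K J 𝔇) 𝔇 (StepN.wdN C) Tr (StepN.Siz κ δ C c₀ 𝔇.kap) κ δ d n N i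
      ω D q)
    (hNd : StepL.ClrN d n k (tst 𝔇 d n ω i) q D) (hk : 2 * k + 5 ≤ ⌊κ * n⌋)
    (hi : (𝔇.cs d (tst 𝔇 d n ω i).x).ini = false)
    (hend : (𝔇.cs d (tst 𝔇 d n ω (i + 1)).x).run = none) :
    (tst 𝔇 d n ω i).t ≤ perS n ω (tst 𝔇 d n ω i).V q ∧
      ∀ t, (tst 𝔇 d n ω i).t ≤ t → t ≤ perS n ω (tst 𝔇 d n ω i).V q →
        NearR d n ω (δ / 2 * n) (tst 𝔇 d n ω i).V q D.tip t := by
  have hlt := H.lt
  obtain ⟨hI, hG⟩ := notMem_bdI.1 (H.gd i (by omega))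
  obtain ⟨p1, p2, p3, p4, p5⟩ := H.sz.nonneg (𝔇 := 𝔇) (i := i) (by omega) hc ω D
  have hfl := H.sz.fl (𝔇 := 𝔇) (i := i) (by omega) ω D
  have hce := H.sz.ce (𝔇 := 𝔇) (i := i) (by omega) ω D
  obtain ⟨P, y₀, a₀, zt, r₀, l₀, c₁, d₀, n1, n2, n3, n4, n5, n6⟩ := hNd
  have hLp : 0 ≤ (unt d n : ℤ) * msh d (i + 1) := mul_nonneg (by positivity) (msh_pos _ _).le
  have hL : (unt d n : ℤ) * msh d (i + 1) ≤ unt d n * ((𝔇.gr d (tst 𝔇 d n ω i).x D).L *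
      ((𝔇.gr d (tst 𝔇 d n ω i).x D).M + 1)) := by
    have h1 : (𝔇.gr d (tst 𝔇 d n ω i).x D).L = msh d (i + 1) := by
      show msh d (tst 𝔇 d n ω i).x.length = _
      rw [tst_len]
    have h2 : (0 : ℤ) ≤ (𝔇.gr d (tst 𝔇 d n ω i).x D).M := by
      show (0 : ℤ) ≤ msz 𝔇.kap d (tst 𝔇 d n ω i).x.length
      unfold msz
      positivity
    rw [h1]
    refine mul_le_mul_of_nonneg_left ?_ (by positivity)
    have h3 := msh_pos d (i + 1)
    nlinarith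
  have hb : (unt d n : ℤ) * ((𝔇.gr d (tst 𝔇 d n ω i).x D).L *
      ((𝔇.gr d (tst 𝔇 d n ω i).x D).M + 1)) = unt d n * (msh d (tst 𝔇 d n ω i).x.length *
        (msz 𝔇.kap d (tst 𝔇 d n ω i).x.length + 1)) := rfl
  have hNO := H.sz.numO i (by omega)
  have hT := H.sz.hT
  have hD := H.sz.hDT
  have hD0 := H.sz.D0
  refine last_chain (C := C) (c₀ := c₀) (K := K) (B := ⌊κ / 16 * n⌋) (T := ⌊κ / 2 * n⌋)
    (s₀ := d₀) (t₀ := 2 * d₀ + c₁ + 2) (k₀ := k) (k₁ := rad C (unt d n) d (i + 1))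
    (fun j hj => H.sz.numO j (by omega)) (fun j hj => hTr j (H.tr j (by omega)))
    (fun j hj => (notMem_bdI.1 (H.gd j (by omega))).1.1) H.hq H.run hi hend
    (hJ _ hI.2.2.2.2) hI.2.2.2.1 H.env (fun hv => Dsp.away_chain hv (by
      rw [tst_len]
      exact hNO) hI.2.2.1 hG (StepL.six_le hC hNO) (by
      rw [tst_len]
      exact H.sz.wd (i + 1) (by omega))) ?_ ?_ (H.sz.D1 i (by omega)) hT hD hD0 ?_
    H.sz.hr1 H.sz.hr2 n1 n2 le_rfl n4 le_rfl n5 (by omega) n6 ?_ ?_ ?_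
  · rw [tst_len]
    exact H.sz.radB (i + 1) (by omega)
  · rw [hb, tst_len]
    exact H.sz.blkB (i + 1) (by omega)
  · have h1 : ((⌊κ * n⌋ : ℤ) : ℝ) ≤ (⌈δ / 8 * n⌉ : ℤ) :=
      (Int.floor_le _).trans ((mul_le_mul_of_nonneg_right hδ (Nat.cast_nonneg n)).trans
        (Int.le_ceil _))
    exact_mod_cast h1
  · have h1 := hI.2.2.1 q D H.hq H.run hi
    rw [tst_len] at h1
    exact h1
  · omega
  · refine le_trans ?_ H.sz.hr1
    have h1 : ⌈δ / 8 * n⌉ + rad C (unt d n) d (i + 1) + ⌊κ / 16 * n⌋ ≤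
        ⌈δ / 8 * n⌉ + ⌊κ / 2 * n⌋ := by omega
    exact_mod_cast h1

end last

end Pool.Agent.SixB.Tru
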