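import Pool.Agent.Lib.SixB.S8StepRow
import Pool.Agent.Lib.SixB.S8StepLast
import Pool.Agent.Lib.SixB.S8NdS

/-!
# Step 8: the clearance needle and the last stage in the row `step`, official data

* `ndS_gd`: the data `NdS` at an entrance stage from the invariant at the stage before and `YK`;
* `StF.ndS`, `StF.clrN`: the data at every running stage;
* `StF.last`: **the piece `last`** of the row `step`.
-/

set_option autoImplicit false

namespace Pool.Agent.SixB.Tru

open Finset Filter Topology Pool.Agent.Perc Pool.Agent.PercT Pool.Agent.PercX60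
open Pool.Agent.SixB Pool.Agent.SixB.Rule Pool.Agent.SixB.Dct Pool.Agent.SixB.Mv
open Pool.Agent.SixB.Tps Pool.Agent.SixB.Out Pool.Agent.SixB.NM Pool.Agent.SixB.Near
open Pool.Agent.SixB.Blow (subE)
open Pool.Agent.Perc6.C2Aux
open Pool.Agent.SixB.TruR (ts)

variable {C : ℤ} {κ δ : ℝ} {kap a K : ℕ} {d : ℕ → ℕ} {n N i j : ℕ} {ω : Cfg} {D : Dom}
  {q : Rule.Ndl} {V : Finset (ℤ × ℤ)} {x : List Rec}

/-- **The data of the needle at the placing stage**, official data. -/
theorem ndS_gd (hC : 256 ≤ C) (hK : 0 < K) (ha : 16 * (9 * C + 6) ≤ 2 ^ a) (hS : NumR a d n j)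
    (hn : 2 ^ d 0 ≤ n) (hk : 1024 * K ≤ 2 ^ d (j + 1))
    (hI : ∀ k, j = k + 1 → IC K kap C d n k (tst (Cov.datC K kap) d n ω k) ω)
    (hY : ∀ k, j = k + 1 → ω ∉ YK (Cov.datC K kap) d n k)
    (E : EntS (Cov.datC K kap) d n ω j V x q D) : NdS d n (rad C (unt d n) d (j + 1)) V q D := by
  have hp : ((Cov.datC K kap).cs d (ts (Cov.datC K kap) d n ω j).x).Plant ((Cov.datC K kap).prm d)
      (msh d (ts (Cov.datC K kap) d n ω j).x.length) := by
    refine plant_of_run (D := D) E.q0 (by rw [E.x0]; exact E.run0) ?_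
    rw [E.st]
    have h1 := E.co
    change ((Cov.datC K kap).cs d ((∅, 0) :: x)).run = some D
    rw [h1]
  have h1a : 1 ≤ a := by
    by_contra hcon
    obtain rfl : a = 0 := by omega
    rw [pow_zero] at ha
    omega
  cases j with
  | zero => exact absurd hp not_plant_zero
  | succ k =>
    have hfr : blow (unt d n : ℤ) ((Cov.datC K kap).disc d x) ⊆ FU V := by
      by_contra hno
      rw [← E.V0, ← E.x0] at hno
      exact hY k rfl ⟨E.q0, hp, hno⟩
    have hst := (hI k rfl).2.2.2.2.1.1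
    refine StS.ndS_of_stT (N := k + 1 + 1) E hC hK (fun l hl => ?_) le_rfl ?_ hn
      (hst.mono (StS.rad_le_one (a := a) (by omega) (by omega) (by omega) (fun l hl => hS.2 l hl) h1a))
      hfr
    · have := hS.2 l (by omega)
      omega
    · have h1 : ((1024 * K : ℕ) : ℤ) ≤ ((2 ^ d (k + 1 + 1) : ℕ) : ℤ) := by exact_mod_cast hk
      push_cast at h1
      linarith

/-- **The data of the needle at a running stage.** -/
theorem StF.ndS (hC : 256 ≤ C) (hK : 0 < K) (ha : 16 * (9 * C + 6) ≤ 2 ^ a)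
    (H : StF K kap a C κ δ d n N i ω D q) :
    NdS d n (rad C (unt d n) d (i + 1)) (tst (Cov.datC K kap) d n ω i).V q D := by
  have hlt := H.lt
  refine ndS_all (N := i) (k := fun j => rad C (unt d n) d (j + 1))
    (fun j j' h => rad_mono (by omega) _ _ (by omega)) (fun j hj V x q D E => ?_) le_rfl H.hq H.run
  refine ndS_gd hC hK ha (H.sz.numR j (by omega)) H.sz.hn (H.sz.kd (j + 1) (by omega))
    (fun k hk => (notMem_bdI.1 (H.gd k (by omega))).1) (fun k hk h => H.tr k (by omega) (Or.inr h)) E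

/-- The same in the form of `StH.last`. -/
theorem StF.clrN (hC : 256 ≤ C) (hK : 0 < K) (ha : 16 * (9 * C + 6) ≤ 2 ^ a)
    (H : StF K kap a C κ δ d n N i ω D q) :
    StepL.ClrN d n (rad C (unt d n) d (i + 1)) (tst (Cov.datC K kap) d n ω i) q D := by
  obtain ⟨P, y, b, z, r, l, c, e, h1, h2, h3, h4, h5, h6⟩ := H.ndS hC hK ha
  exact ⟨P, y, b, z, r, l, c, e, h1, h2, h4, h3, h5, h6⟩

/-- **The piece `last`**, official data. -/
theorem StF.last (hC : 256 ≤ C) (hK : 0 < K) (ha : 16 * (9 * C + 6) ≤ 2 ^ a) (hκ : 0 < κ)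
    (hδ : κ ≤ δ / 16) (H : StF K kap a C κ δ d n N i ω D q)
    (hi : ((Cov.datC K kap).cs d (tst (Cov.datC K kap) d n ω i).x).ini = false)
    (hend : ((Cov.datC K kap).cs d (tst (Cov.datC K kap) d n ω (i + 1)).x).run = none) :
    (tst (Cov.datC K kap) d n ω i).t ≤ perS n ω (tst (Cov.datC K kap) d n ω i).V q ∧
      ∀ t, (tst (Cov.datC K kap) d n ω i).t ≤ t →
        t ≤ perS n ω (tst (Cov.datC K kap) d n ω i).V q →
        NearR d n ω (δ / 2 * n) (tst (Cov.datC K kap) d n ω i).V q D.tip t := by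
  have hlt := H.lt
  have H' := H.mono (S' := StepN.Siz κ δ C 13 (Cov.datC K kap).kap) (fun h => h.toSiz)
    (Tr' := TrF C (Cov.datC K kap)) fun _ h => h
  refine H'.last hκ (by linarith) (by omega) (by norm_num) (fun _ h => h.2)
    (fun _ h h' => h (Or.inl h')) (H.clrN hC hK ha) ?_ hi hend
  obtain ⟨p1, p2, p3, p4, p5⟩ := H'.sz.nonneg (𝔇 := Cov.datC K kap) (i := i) (by omega)
    (by norm_num) ω D
  have hfl := H'.sz.fl (𝔇 := Cov.datC K kap) (i := i) (by omega) ω D
  omega

end Pool.Agent.SixB.Tru
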