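import Pool.Agent.Lib.SixB.S8StepFin
import Pool.Agent.Lib.SixB.S8RareP
import Pool.Agent.Lib.SixB.S8DispR

/-!
# Step 8: the row `step`, official data

* `SzF`: all the sizes; `szF_ev`: they hold if the resolutions are fine and `n` is large;
* `TrF`: the transition events (`Dead`, `YK`); `StH.mono`;
* `rowStep_of_pc`: **the row `step`** from the pieces;
* `StF`: what is known in a stage; `StF.away`, `StF.mov`: the piece `mov`.
-/

set_option autoImplicit false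

namespace Pool.Agent.SixB.Tru

open Finset Filter Topology Pool.Agent.Perc Pool.Agent.PercT Pool.Agent.PercX60
open Pool.Agent.SixB Pool.Agent.SixB.Rule Pool.Agent.SixB.Dct Pool.Agent.SixB.Mv
open Pool.Agent.SixB.Tps Pool.Agent.SixB.Out Pool.Agent.SixB.NM Pool.Agent.SixB.Near
open Pool.Agent.SixB.NearCut (Nb)
open Pool.Agent.SixB.Blow (subE)
open Pool.Agent.Perc6.C2Aux

/-- All the sizes. -/
structure SzF (κ δ : ℝ) (C c₀ : ℤ) (kap a K : ℕ) (d : ℕ → ℕ) (n N : ℕ) : Prop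
    extends StepN.Siz κ δ C c₀ kap d n N where
  numR : ∀ m, m + 1 ≤ N → NumR a d n m
  kd : ∀ i ≤ N, 1024 * K ≤ 2 ^ d i
  hn : 2 ^ d 0 ≤ n

variable {𝔇 : Dat} {G : ℕ → ℕ → ℕ} {Bd : (ℕ → ℕ) → ℕ → ℕ → Set Cfg} {C c₀ : ℤ} {κ δ ε : ℝ}
  {kap a K : ℕ}

/-- **All the sizes hold** if `kap` is large, the resolutions are fine and `n` is large. -/
theorem szF_ev (hκ : 0 < κ) (hδ : 16 * κ ≤ δ) (hkap : 64 / κ ≤ 2 ^ kap) (hC : 0 ≤ C)
    (hc : 0 ≤ c₀) (ha : 16 * (9 * C + 6) ≤ 2 ^ a) (hG : ∀ i e, e + a ≤ G i e) (N : ℕ) :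
    ∃ ℓ₀ : ℕ, ∀ d : ℕ → ℕ, ℓ₀ ≤ d N → (chD 𝔇 G Bd).Gro N d → ∀ᶠ n in atTop,
      SzF κ δ C c₀ kap a K d n N := by
  obtain ⟨ℓ₀, h⟩ := StepN.siz_ev (𝔇 := 𝔇) (Bd := Bd) hκ hδ hkap hC hc ha hG N
  refine ⟨max ℓ₀ (1024 * K), fun d hd hgr => ?_⟩
  filter_upwards [h d ((le_max_left _ _).trans hd) hgr, eventually_ge_atTop (2 ^ d 0)] with n h1 h2
  refine ⟨h1, fun m hm => ⟨Nat.div_pos h2 (by positivity), fun i hi =>
    (hG i _).trans (hgr i (by omega))⟩, fun i hi => ?_, h2⟩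
  have h3 : 1024 * K ≤ d i := ((le_max_right _ _).trans hd).trans (h1.anti i N hi le_rfl)
  exact h3.trans Nat.lt_two_pow_self.le

/-- The transition events. -/
def TrF (C : ℤ) (𝔇 : Dat) : EvF := fun d n l => Dead C 𝔇 d n l ∪ YK 𝔇 d n l

section mono

variable {Bs : Ex → Cfg → ℤ → ℤ → Prop} {I : InvP} {wd : (ℕ → ℕ) → ℕ → ℕ → ℤ} {Tr Tr' : EvF}
  {S S' : (ℕ → ℕ) → ℕ → ℕ → Prop} {d : ℕ → ℕ} {n N i : ℕ} {ω : Cfg} {D : Dom} {q : Rule.Ndl}

/-- The sizes and the transition events can be weakened. -/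
theorem StH.mono (H : StH Bs I 𝔇 wd Tr S κ δ d n N i ω D q) (hS : S d n N → S' d n N)
    (hT : ∀ l, ω ∉ Tr d n l → ω ∉ Tr' d n l) : StH Bs I 𝔇 wd Tr' S' κ δ d n N i ω D q :=
  ⟨hS H.sz, H.gd, fun l hl => hT l (H.tr l hl), H.lt, H.run, H.hq, H.env⟩

end mono

/-- **The row `step`** from the pieces, official data. `κ`: the radius at the base is `κ n`; it is chosen
before the data of the chain. -/
theorem rowStep_of_pc (K : ℕ) {δ ε : ℝ} (hδ : 0 < δ) (hε : 0 < ε) : ∃ κ₀ : ℝ, 0 < κ₀ ∧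
    κ₀ ≤ δ / 16 ∧ ∀ κ : ℝ, 0 < κ → κ ≤ κ₀ → ∀ kap : ℕ, 64 / κ ≤ 2 ^ kap → ∀ (C : ℤ) (a : ℕ)
      (G : ℕ → ℕ → ℕ), 256 ≤ C → 16 * (9 * C + 6) ≤ 2 ^ a → (∀ i e, e + a ≤ G i e) →
      SmY G (BdI (IC K kap C) (Cov.datC K kap)) (YK (Cov.datC K kap)) →
      StPc Tru.Bs (IC K kap C) (Cov.datC K kap) (StepN.wdN C) (TrF C (Cov.datC K kap))
        (SzF κ δ C 13 kap a K) κ δ →
      ∃ G' : ℕ → ℕ → ℕ, (∀ i e, G i e ≤ G' i e) ∧ ∀ G'' : ℕ → ℕ → ℕ,
        (∀ i e, G' i e ≤ G'' i e) → RowStep (Cov.datC K kap) G''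
          (BdI (IC K kap C) (Cov.datC K kap)) (fun d n => TruR.ruleT (Cov.datC K kap) d n)
          (tipsT (Cov.datC K kap)) δ ε := by
  obtain ⟨κ₀, hκ₀, h⟩ := rowStep_core baseAll_bs bsExt_bs (Cov.numN K) hδ hε
  refine ⟨min κ₀ (δ / 16), lt_min hκ₀ (by positivity), min_le_right _ _,
    fun κ hκ hκ' kap hkap C a G hC ha hG hY P => ?_⟩
  have hC0 : 0 ≤ C := by omega
  have ha0 : 0 < a := by
    by_contra hcon
    obtain rfl : a = 0 := by omega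
    rw [pow_zero] at ha
    omega
  have hκδ : 16 * κ ≤ δ := by
    have := hκ'.trans (min_le_right _ _)
    linarith
  have hlt : ∀ {G' : ℕ → ℕ → ℕ}, (∀ i e, G i e ≤ G' i e) → ∀ i e, e < G' i e := fun h i e => by
    have h1 := hG i e
    have h2 := h i e
    omega
  have hTr : SmY G (BdI (IC K kap C) (Cov.datC K kap)) (TrF C (Cov.datC K kap)) :=
    ((lawInv_datC hC).smY_dead iC_dec (hlt fun _ _ => le_rfl) (rowTst _) (rowGrow _)).union hY
  obtain ⟨G', hG', hR⟩ := rowEv_smY (𝔇 := Cov.datC K kap) hTr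
  refine ⟨G', hG', fun G'' hG'' => ?_⟩
  have hGG : ∀ i e, G i e ≤ G'' i e := fun i e => (hG' i e).trans (hG'' i e)
  refine h κ hκ (hκ'.trans (min_le_left _ _)) (Cov.datC K kap) G'' C 13 K
    (JI C (Cov.datC K kap)) (StepN.wdN C) (TrF C (Cov.datC K kap)) (SzF κ δ C 13 kap a K) rfl
    (by norm_num) (StepN.smallW_ls (by norm_num) (hlt hGG)) (StepN.smallW_wdN hC0 (hlt hGG))
    (hR G'' hG'') (fun N => ?_) P
  obtain ⟨ℓ₀, hℓ⟩ := szF_ev (𝔇 := Cov.datC K kap)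
    (Bd := BdI (InvA C 13 K (JI C (Cov.datC K kap)) (Cov.datC K kap)) (Cov.datC K kap)) (K := K)
    hκ hκδ hkap hC0 (show (0 : ℤ) ≤ 13 by norm_num) ha (fun i e => (hG i e).trans (hGG i e)) N
  refine ⟨ℓ₀, fun d hd hgr => ?_⟩
  filter_upwards [hℓ d hd hgr] with n hn
  exact ⟨hn, szB_of hn.toSiz⟩

/-- What is known in a stage, official data. -/
abbrev StF (K kap a : ℕ) (C : ℤ) (κ δ : ℝ) (d : ℕ → ℕ) (n N i : ℕ) (ω : Cfg) (D : Dom)
    (q : Rule.Ndl) : Prop :=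
  StH Tru.Bs (IC K kap C) (Cov.datC K kap) (StepN.wdN C) (TrF C (Cov.datC K kap))
    (SzF κ δ C 13 kap a K) κ δ d n N i ω D q

section pc

variable {d : ℕ → ℕ} {n N i : ℕ} {ω : Cfg} {D : Dom} {q : Rule.Ndl}

theorem six_le (hC : 256 ≤ C) (ha : 16 * (9 * C + 6) ≤ 2 ^ a) : 6 ≤ a := by
  by_contra hcon
  have h1 : (2 : ℤ) ^ a ≤ 2 ^ 5 := pow_le_pow_right₀ (by norm_num) (by omega)
  omega

/-- The strand is next to the inner part of the domain as long as there are no gates at its contour. -/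
theorem StF.away (hC : 256 ≤ C) (ha : 16 * (9 * C + 6) ≤ 2 ^ a)
    (H : StF K kap a C κ δ d n N i ω D q)
    (hv : ¬ D.Void ((Cov.datC K kap).gr d (tst (Cov.datC K kap) d n ω i).x D)) :
    ∀ κ m x i₁ j₁ t₀ j₂ i₂ σ,
      RunI (Cov.datC K kap) d n (rad C (unt d n) d (tst (Cov.datC K kap) d n ω i).x.length)
        (tst (Cov.datC K kap) d n ω i) ω q D κ m x i₁ j₁ t₀ j₂ i₂ →
      D.regS ((Cov.datC K kap).gr d (tst (Cov.datC K kap) d n ω i).x D) (unt d n)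
        (uS (tst (Cov.datC K kap) d n ω i) q ω) κ
        (pS (tst (Cov.datC K kap) d n ω i).V q ω (tst (Cov.datC K kap) d n ω i).t)
        (cfS (tst (Cov.datC K kap) d n ω i).V q ω) σ →
      ∀ t, (tst (Cov.datC K kap) d n ω i).t ≤ t →
      t < (tst (Cov.datC K kap) d n ω i).t + σ →
      Nb (cfS (tst (Cov.datC K kap) d n ω i).V q ω)
        (Tru.eS (tst (Cov.datC K kap) d n ω i).V q) t →
      (∀ j, ¬ (exS (tst (Cov.datC K kap) d n ω i).V q).Gate ω t (vert (blow (unt d n : ℤ)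
        (D.inr ((Cov.datC K kap).gr d (tst (Cov.datC K kap) d n ω i).x D)))
          (subE (unt d n) D.A 0) j) (StepN.wdN C d n N)) →
      ∃ f ∈ blow (unt d n : ℤ)
          (D.inr ((Cov.datC K kap).gr d (tst (Cov.datC K kap) d n ω i).x D)),
        Ndle.sd (ua (pS (tst (Cov.datC K kap) d n ω i).V q ω t)) f ≤ 2 := by
  have hlt := H.lt
  obtain ⟨hI, hG⟩ := notMem_bdI.1 (H.gd i (by omega))
  have h6 := six_le hC ha
  refine Dsp.away_chain hv ?_ hI.2.2.1 hG ?_ ?_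
  · rw [tst_len]
    exact H.sz.numO i (by omega)
  · have h1 := (H.sz.numR i (by omega)).2 i le_rfl
    have h2 := H.sz.anti 0 i (Nat.zero_le i) (by omega)
    omega
  · rw [tst_len]
    exact H.sz.wd (i + 1) (by omega)

/-- **The piece `mov`**, official data. -/
theorem StF.mov (hC : 256 ≤ C) (ha : 16 * (9 * C + 6) ≤ 2 ^ a)
    (H : StF K kap a C κ δ d n N i ω D q)
    (hi : ((Cov.datC K kap).cs d (tst (Cov.datC K kap) d n ω i).x).ini = false)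
    (hv : ¬ D.Void ((Cov.datC K kap).gr d (tst (Cov.datC K kap) d n ω i).x D)) :
    ∀ t, (tst (Cov.datC K kap) d n ω i).t ≤ t →
      t ≤ stopT n (unt d n) (tst (Cov.datC K kap) d n ω i) q D
        ((Cov.datC K kap).gr d (tst (Cov.datC K kap) d n ω i).x D) ω →
      NearR d n ω (δ / 2 * n) (tst (Cov.datC K kap) d n ω i).V q D.tip t :=
  (H.mono (S' := StepN.Siz κ δ C 13 (Cov.datC K kap).kap) (fun h => h.toSiz)
    fun _ h => h).mov (fun _ h => h.2) (fun _ h h' => h (Or.inl h')) hi hv (H.away hC ha hv)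

end pc

end Pool.Agent.SixB.Tru
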