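import Pool.Agent.Lib.SixB.S8KerPr

/-!
# Step 8: the strand stops

* `pth_periodic`: if the configuration is solid outside of a finite set then every strand is closed.
* `cut_chain`: a connected set of faces of `U` which meets `T` and contains a face `gx` outside `T` gives a
  cut side of `T` and a chain in `U \ T` from its outer face to `gx`.
* `tgt_of_side`, `tgt_of_labels`: the target is a side of a face of `U \ T` whose ends are joined to the two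
  walls outside `T`.
* `exists_stop_solid`, `hstop_solid`: the strand enters `U \ T` (the hypothesis `hstop` of `pr_move`).
-/

set_option autoImplicit false

namespace Pool.Agent.SixB

open Finset Pool.Agent.Perc Pool.Agent.Perc6

variable {ω : Cfg} {c : ℤ} {R U : Set (ℤ × ℤ)} {T : Finset (ℤ × ℤ)} {m : ℕ} {w : ℕ → ℤ × ℤ}
  {k₁ k₃ : ℕ} {a : UE}

/-! ### Every strand is closed -/

theorem pth_periodic {d : ℤ} (hd : d = 0 ∨ d = 1) {F : Finset (ℤ × ℤ)}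
    (h : ∀ g, g ∉ F → ω g = parD d g) (e : UE) : ∃ N, 0 < N ∧ pth ω e N = e := by
  classical
  by_contra hno
  push Not at hno
  have hinj : Function.Injective (pth ω e) := by
    intro i j hij
    by_contra hne
    rcases Nat.lt_or_gt_of_ne hne with h1 | h1
    · exact hno (j - i) (by omega) (pth_inj hij h1.le)
    · exact hno (i - j) (by omega) (pth_inj hij.symm h1.le)
  set S : Finset UE := F.biUnion fun f => {bo f, le' f, to' f, ri f} with hS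
  have hfin : {t | fa (pth ω e t) ∈ F}.Finite := by
    refine Set.Finite.subset (S.finite_toSet.preimage hinj.injOn) ?_
    intro t ht
    rw [Set.mem_preimage, Finset.mem_coe, hS, Finset.mem_biUnion]
    refine ⟨_, ht, ?_⟩
    have := isSide_fa (pth ω e t)
    simp only [Finset.mem_insert, Finset.mem_singleton]
    exact this
  obtain ⟨t0, ht0⟩ : ∃ t0, ∀ t, t0 ≤ t → fa (pth ω e t) ∉ F := by
    obtain ⟨b, hb⟩ := hfin.bddAbove
    refine ⟨b + 1, fun t ht hF => ?_⟩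
    have := hb hF
    omega
  set z := en d (pth ω e t0) with hz
  have hz' : ∀ i, en d (pth ω e (t0 + i)) = z := by
    intro i
    induction i with
    | zero => rfl
    | succ i ih =>
      have h1 := mt_ends hd (mt_nx ω (pth ω e (t0 + i)))
      have h2 := h _ (ht0 (t0 + i) (by omega))
      rcases h1 with ⟨h3, -, -⟩ | ⟨-, h3, -⟩
      · rw [h2] at h3
        simp at h3
      · rw [← Nat.add_assoc, pth_succ, ← h3, ih]
  set F4 : Finset (ℤ × ℤ) := {(z.1, z.2), (z.1 - 1, z.2), (z.1, z.2 - 1), (z.1 - 1, z.2 - 1)} with hF4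
  rcases exit_or_period F4 ω (pth ω e t0) with ⟨t, -, h1⟩ | ⟨t, h1, -, h2, -⟩
  · apply h1
    rw [pth_add]
    have h2 := isCor_en (isSide_fa (pth ω e (t0 + t))) d
    rw [hz' t] at h2
    obtain ⟨⟨x, y⟩, hxy⟩ : ∃ g, g = fa (pth ω e (t0 + t)) := ⟨_, rfl⟩
    rw [← hxy] at h2 ⊢
    rw [hF4]
    simp only [Finset.mem_insert, Finset.mem_singleton, Prod.mk.injEq]
    unfold IsCor at h2
    simp only at h2
    omega
  · rw [pth_add] at h2
    refine hno t h1 ?_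
    have h3 := pth_inj (i := t0) (j := t0 + t) h2.symm (by omega)
    rwa [Nat.add_sub_cancel_left] at h3

/-! ### The target -/

/-- A connected set of faces of `U` which meets `T` and contains the face `gx ∉ T` crosses a cut side. -/
theorem cut_chain (ctr : Ctr (T : Set (ℤ × ℤ)) m w)
    (wall : ∀ i, i < m → (i < k₁ ∨ k₃ ≤ i) → ∀ s g, Joins s (w i) (w (i + 1)) → IsSide g s →
      g ∉ T → g ∉ U) {P : Set (ℤ × ℤ)} (cP : Top.EConn P) (PU : P ⊆ U) {f gx : ℤ × ℤ} (hf : f ∈ P)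
    (hfT : f ∈ T) (hx : gx ∈ P) (hxT : gx ∉ T) :
    ∃ i s g, k₁ ≤ i ∧ i < k₃ ∧ Joins s (w i) (w (i + 1)) ∧ IsSide g s ∧ g ∉ T ∧
      Relation.ReflTransGen (StepC (U \ T)ᶜ) g gx := by
  have hch := cP f hf gx hx
  clear hx
  -- last passage out of `T`
  have key : ∀ {b : ℤ × ℤ}, Relation.ReflTransGen (fun a b => AdjF a b ∧ b ∈ P) f b → b ∉ T →
      ∃ u v, u ∈ T ∧ v ∉ T ∧ v ∈ P ∧ AdjF u v ∧ Relation.ReflTransGen (StepC (U \ T)ᶜ) v b := by
    intro b hb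
    induction hb with
    | refl => exact fun h => absurd hfT h
    | @tail b d hb' hs ih =>
      intro hd
      by_cases hbT : b ∈ T
      · exact ⟨b, d, hbT, hd, hs.2, hs.1, Relation.ReflTransGen.refl⟩
      · obtain ⟨u, v, h1, h2, h3, h4, h5⟩ := ih hbT
        refine ⟨u, v, h1, h2, h3, h4, Relation.ReflTransGen.tail h5 ⟨hs.1, ?_⟩⟩
        rw [Set.mem_compl_iff, not_not]
        exact ⟨PU hs.2, fun hh => hd (Finset.mem_coe.1 hh)⟩
  obtain ⟨u, v, hu, hv, hvP, ⟨-, s, hus, hvs⟩, hch'⟩ := key hch hxT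
  have hbd : BdU (T : Set (ℤ × ℤ)) s :=
    ⟨⟨u, Finset.mem_coe.2 hu, hus⟩, v, fun hh => hv (Finset.mem_coe.1 hh), hvs⟩
  obtain ⟨i, hi, hj⟩ := ctr.all s hbd
  have hcut : k₁ ≤ i ∧ i < k₃ := by
    by_contra hno
    exact wall i hi (by omega) s v hj hvs hv (PU hvP)
  exact ⟨i, s, v, hcut.1, hcut.2, hj, hvs, hv, hch'⟩

/-- The target side `x`: a side of a face of `U \ T` with its ends joined to the two walls. -/
theorem tgt_of_side (ctr : Ctr (T : Set (ℤ × ℤ)) m w)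
    (wall : ∀ i, i < m → (i < k₁ ∨ k₃ ≤ i) → ∀ s g, Joins s (w i) (w (i + 1)) → IsSide g s →
      g ∉ T → g ∉ U) {P : Set (ℤ × ℤ)} (cP : Top.EConn P) (PU : P ⊆ U) {f gx : ℤ × ℤ} (hf : f ∈ P)
    (hfT : f ∈ T) (hx : gx ∈ P) (hxT : gx ∉ T) {x : UE} (hxs : IsSide gx x)
    (h1 : Conn ω (R \ T) (w 1) (en c x)) (h0 : Conn ω (R \ T) (w 0) (en (1 - c) x)) :
    Tgt ω R U T w k₁ k₃ := by
  obtain ⟨i, s, g, hi1, hi2, hj, hgs, hgT, hch⟩ := cut_chain ctr wall cP PU hf hfT hx hxT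
  exact ⟨i, s, g, gx, en c x, gx, en (1 - c) x, hi1, hi2, hj, hgs, hgT, hch, isCor_en hxs c, h1, hch,
    isCor_en hxs (1 - c), h0⟩

/-- The field `q` of `TipDom`. -/
theorem Tgt.q (h : Tgt ω R U T w k₁ k₃) :
    ∃ i s g g' z, k₁ ≤ i ∧ i < k₃ ∧ Joins s (w i) (w (i + 1)) ∧ IsSide g s ∧ g ∉ T ∧
      Relation.ReflTransGen (StepC (U \ T)ᶜ) g g' ∧ IsCor g' z ∧
      (Conn ω (R \ T) (w 1) z ∨ Conn ω (R \ T) (w 0) z) := by
  obtain ⟨i, s, g, g', z, g'', z', h1, h2, h3, h4, h5, h6, h7, h8, -⟩ := h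
  exact ⟨i, s, g, g', z, h1, h2, h3, h4, h5, h6, h7, Or.inl h8⟩

/-- The target with labels, in the language of `tipDom_of_labels`: the end of colour `c` of the target side
is a corner of an old face with the diagonal of the colour `c`, the other end a corner of an old face with
the other diagonal. -/
theorem tgt_of_labels (hc : c = 0 ∨ c = 1) {Be Bo : Set (ℤ × ℤ)} {e : UE} {t : ℕ}
    (ctr : Ctr (T : Set (ℤ × ℤ)) m w)
    (wall : ∀ i, i < m → (i < k₁ ∨ k₃ ≤ i) → ∀ s g, Joins s (w i) (w (i + 1)) → IsSide g s →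
      g ∉ T → g ∉ U) {P : Set (ℤ × ℤ)} (cP : Top.EConn P) (PU : P ⊆ U) {f gx : ℤ × ℤ} (hf : f ∈ P)
    (hfT : f ∈ T) (hx : gx ∈ P) (hxT : gx ∉ T) {x : UE} (hxs : IsSide gx x)
    (tip : Joins (pth ω e t) (w 0) (w 1)) (parc : par (w 1) = c)
    (hvR : ∀ g ∈ vs ω e 0 t, g ∈ R ∧ g ∉ T) (hBe : Be ⊆ R \ T) (hBo : Bo ⊆ R \ T)
    (cBe : ∀ v ∈ CorC c Be, Conn ω Be v (en c e))
    (cBo : ∀ v ∈ CorC (1 - c) Bo, Conn ω Bo v (en (1 - c) e))
    (l1 : ∃ g, IsCor g (en c x) ∧ (g ∈ Be ∨ (g ∈ vs ω e 0 t ∧ ω g = !parD c g)))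
    (l0 : ∃ g, IsCor g (en (1 - c) x) ∧ (g ∈ Bo ∨ (g ∈ vs ω e 0 t ∧ ω g = parD c g))) :
    Tgt ω R U T w k₁ k₃ := by
  have hvs : (vs ω e 0 t : Set (ℤ × ℤ)) ⊆ R \ T := fun g hg =>
    ⟨(hvR g (Finset.mem_coe.1 hg)).1, fun h => (hvR g (Finset.mem_coe.1 hg)).2 (Finset.mem_coe.1 h)⟩
  have e1 : en c (pth ω e t) = w 1 := en_joins tip.symm parc
  have p0 : par (w 0) = 1 - c := by
    have h2 := tip.par_ne
    have h4 := par_cases (w 0)
    omega
  have e0 : en (1 - c) (pth ω e t) = w 0 := en_joins tip p0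
  have hc' : (1 - c) = 0 ∨ (1 - c) = 1 := by omega
  have hs1 : Conn ω (R \ T) (en c e) (w 1) := by
    rw [← e1]
    exact (conn_pth_vs (e := e) hc (Nat.zero_le t)).mono hvs
  have hs0 : Conn ω (R \ T) (en (1 - c) e) (w 0) := by
    rw [← e0]
    exact (conn_pth_vs (e := e) hc' (Nat.zero_le t)).mono hvs
  have px : par (en c x) = c := par_en hc x
  have px' : par (en (1 - c) x) = 1 - c := par_en hc' x
  refine tgt_of_side (c := c) ctr wall cP PU hf hfT hx hxT hxs ?_ ?_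
  · obtain ⟨g, hg, hgo⟩ := l1
    rcases hgo with hgo | ⟨hgo, hgω⟩
    · exact conn_trans (conn_symm hs1) (conn_symm ((cBe _ ⟨px, g, hgo, hg⟩).mono hBe))
    · rw [← e1]
      exact conn_symm ((vs_corner hc hgo hgω hg px).mono hvs)
  · obtain ⟨g, hg, hgo⟩ := l0
    rcases hgo with hgo | ⟨hgo, hgω⟩
    · exact conn_trans (conn_symm hs0) (conn_symm ((cBo _ ⟨px', g, hgo, hg⟩).mono hBo))
    · rw [← e0]
      exact conn_symm ((vs_corner' hc hgo hgω hg (by omega)).mono hvs)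

/-! ### The stop -/

/-- The strand enters `U \ T`. -/
theorem TipDom.exists_stop_solid (h : TipDom ω c R U T m w k₁ k₃ a) (ht : Tgt ω R U T w k₁ k₃) {d : ℤ}
    (hd : d = 0 ∨ d = 1) {F : Finset (ℤ × ℤ)} (hω : ∀ g, g ∉ F → ω g = parD d g) :
    ∃ t, Ent ω U T a t := h.exists_stop ht (pth_periodic hd hω a)

/-- The hypothesis `hstop` of `pr_move`. -/
theorem hstop_solid {Ξ : Cfg → Cfg} (h : ∀ ξ, TipDom (Ξ ξ) c R U T m w k₁ k₃ a)
    (ht : ∀ ξ, Tgt (Ξ ξ) R U T w k₁ k₃) {d : ℤ} (hd : d = 0 ∨ d = 1) {F : Finset (ℤ × ℤ)}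
    (hω : ∀ ξ g, g ∉ F → Ξ ξ g = parD d g) : ∀ ξ, ∃ n, fa (pth (Ξ ξ) a n) ∈ U \ (T : Set (ℤ × ℤ)) := by
  intro ξ
  obtain ⟨t, ht'⟩ := (h ξ).exists_stop_solid (ht ξ) hd (hω ξ)
  exact ⟨t, ht'.mem, fun hh => ht'.out (Finset.mem_coe.1 hh)⟩

/-- The time of the stop is unique and it is the first time in `U \ T`. -/
theorem Ent.first {t : ℕ} (h : Ent ω U T a t) {i : ℕ} (hi : i < t) :
    fa (pth ω a i) ∉ U \ (T : Set (ℤ × ℤ)) := by
  rintro ⟨h1, h2⟩
  rcases h.bef i hi with h3 | h3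
  · exact h2 (Finset.mem_coe.2 h3)
  · exact h3 h1

/-- Outside of the bad event the stop is regular: it crosses a side of the outer arc. -/
theorem CapDom.exists_regular {r₁ r₃ : ℕ} (h : CapDom ω c R U T m w k₁ r₁ r₃ k₃ a)
    (ht : Tgt ω R U T w k₁ k₃) {d : ℤ} (hd : d = 0 ∨ d = 1) {F : Finset (ℤ × ℤ)}
    (hω : ∀ g, g ∉ F → ω g = parD d g) :
    ∃ t, Ent ω U T a t ∧ (ω ∉ CapBad c T m w k₁ r₁ r₃ k₃ →
      fb (pth ω a t) ∈ T ∧ ∃ x, r₁ ≤ x ∧ x < r₃ ∧ Joins (pth ω a t) (w x) (w (x + 1)) ∧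
        ∀ k₂, k₂ ≤ x ↔ ω ∈ LC.XA c (T : Set (ℤ × ℤ)) w 0 r₁ k₂ r₃) := by
  obtain ⟨t, ht'⟩ := h.toTipDom.exists_stop_solid ht hd hω
  exact ⟨t, ht', fun hb => h.ent ht' hb⟩

end Pool.Agent.SixB
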