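import Pool.Agent.Lib.SixB.S8State
import Pool.Agent.Lib.SixB.S8RecOut

/-!
# Step 8: the stages of a needle and the tips which are read off from the history

* `Cnt r c`: a counter `c` of the needles and the running stages `r`. `fin r c i`: the number of
  finished needles before the stage `i`. `Cnt.exists_stages`: the running stages of a finished needle
  are an interval.
* `sta π d W₀ x i`: the coarse state before the stage `i`, as a function of the history `x`.
* `tipsX`: the base and the tips of the stages of the needle `j`, as points of the plane.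
-/

set_option autoImplicit false

namespace Pool.Agent.SixB.Tps

open Pool.Agent.Perc Pool.Agent.SixB.Mv Pool.Agent.SixB.Out

/-! ### Counters -/

/-- A counter of the needles: `r i`: the stage `i` is running; it is raised at the idle stages. -/
structure Cnt (r : ℕ → Prop) (c : ℕ → ℕ) : Prop where
  r0 : ¬ r 0
  c0 : c 0 = 0
  idle : ∀ i, ¬ r i → c (i + 1) = c i + 1
  run : ∀ i, r i → c (i + 1) = c i

open Classical in
/-- The number of finished needles before the stage `i`. -/
noncomputable def fin (r : ℕ → Prop) (c : ℕ → ℕ) (i : ℕ) : ℕ := if r i then c i - 1 else c i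

namespace Cnt

variable {r : ℕ → Prop} {c : ℕ → ℕ} (h : Cnt r c)

include h

theorem pos {i : ℕ} (hi : r i) : 1 ≤ c i := by
  induction i with
  | zero => exact absurd hi h.r0
  | succ i ih =>
    by_cases h1 : r i
    · rw [h.run i h1]; exact ih h1
    · rw [h.idle i h1]; omega

theorem fin_succ (i : ℕ) : fin r c i ≤ fin r c (i + 1) ∧ fin r c (i + 1) ≤ fin r c i + 1 := by
  unfold fin
  by_cases h1 : r i <;> by_cases h2 : r (i + 1)
  · rw [if_pos h1, if_pos h2, h.run i h1]; omega
  · rw [if_pos h1, if_neg h2, h.run i h1]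
    have := h.pos h1
    omega
  · rw [if_neg h1, if_pos h2, h.idle i h1]; omega
  · rw [if_neg h1, if_neg h2, h.idle i h1]; omega

theorem fin_mono {i k : ℕ} (hik : i ≤ k) : fin r c i ≤ fin r c k := by
  induction k, hik using Nat.le_induction with
  | base => exact le_rfl
  | succ k _ ih => exact ih.trans (h.fin_succ k).1

theorem fin_zero : fin r c 0 = 0 := by
  unfold fin
  rw [if_neg h.r0, h.c0]

/-- At the stage where a needle is finished the counter says so. -/
theorem of_lt {i : ℕ} (hi : fin r c i < fin r c (i + 1)) :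
    ¬ r (i + 1) ∧ c (i + 1) = fin r c i + 1 := by
  have h0 := (h.fin_succ i).2
  unfold fin at hi h0 ⊢
  by_cases h1 : r i <;> by_cases h2 : r (i + 1)
  · rw [if_pos h1, if_pos h2, h.run i h1] at hi; omega
  · rw [if_pos h1, if_neg h2, h.run i h1] at hi
    rw [if_pos h1, h.run i h1]
    exact ⟨h2, by omega⟩
  · rw [if_neg h1, if_pos h2, h.idle i h1] at hi; omega
  · rw [if_neg h1, h.idle i h1]
    exact ⟨h2, rfl⟩

/-- **The stages of a finished needle.** -/
theorem exists_stages {j M : ℕ} (hj : j < fin r c M) : ∃ a b, a ≤ b ∧ b < M ∧ ¬ r a ∧ c a = j ∧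
    ¬ r (b + 1) ∧ c (b + 1) = j + 1 ∧ (∀ i, (r i ∧ c i = j + 1) ↔ (a < i ∧ i ≤ b)) ∧
    ∀ i, (c i = j ∧ c (i + 1) = j + 1) ↔ i = a := by
  classical
  -- the last stage
  have hex : ∃ b, j < fin r c (b + 1) := by
    rcases Nat.eq_zero_or_pos M with h0 | h0
    · rw [h0, h.fin_zero] at hj; omega
    · exact ⟨M - 1, by rw [Nat.sub_add_cancel h0]; exact hj⟩
  set b := Nat.find hex with hb
  have hb1 : j < fin r c (b + 1) := Nat.find_spec hex
  have hb2 : fin r c b ≤ j := by
    by_contra hc
    rw [not_le] at hc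
    rcases Nat.eq_zero_or_pos b with h0 | h0
    · rw [h0, h.fin_zero] at hc; omega
    · have := Nat.find_min hex (m := b - 1) (by omega)
      rw [Nat.sub_add_cancel h0] at this
      exact this hc
  have hb3 : fin r c b = j ∧ fin r c (b + 1) = j + 1 := by
    have := (h.fin_succ b).2
    omega
  have hbM : b < M := by
    by_contra hc
    have := h.fin_mono (Nat.le_of_not_lt hc)
    omega
  obtain ⟨hb4, hb5⟩ := h.of_lt (i := b) (by omega)
  rw [hb3.1] at hb5
  -- the first stage
  have hex' : ∃ a, fin r c a = j := ⟨b, hb3.1⟩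
  set a := Nat.find hex' with ha
  have ha1 : fin r c a = j := Nat.find_spec hex'
  have hab : a ≤ b := Nat.find_min' hex' hb3.1
  have ha2 : ¬ r a ∧ c a = j := by
    rcases Nat.eq_zero_or_pos a with h0 | h0
    · rw [h0, h.fin_zero] at ha1
      rw [h0]
      exact ⟨h.r0, by rw [h.c0]; exact ha1⟩
    · have h1 : fin r c (a - 1) ≠ j := Nat.find_min hex' (by omega)
      have h2 := h.fin_succ (a - 1)
      rw [Nat.sub_add_cancel h0, ha1] at h2
      obtain ⟨h3, h4⟩ := h.of_lt (i := a - 1) (by rw [Nat.sub_add_cancel h0]; omega)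
      rw [Nat.sub_add_cancel h0] at h3 h4
      exact ⟨h3, by omega⟩
  have hfin : ∀ i, a ≤ i → i ≤ b → fin r c i = j := by
    intro i h1 h2
    have g1 := h.fin_mono h1
    have g2 := h.fin_mono h2
    omega
  have hrun : ∀ i, a < i → i ≤ b → r i ∧ c i = j + 1 := by
    intro i h1 h2
    have g1 := hfin i h1.le h2
    have g2 := hfin (i - 1) (by omega) (by omega)
    have g3 : c i = j + 1 := by
      by_cases h3 : r (i - 1)
      · have g4 := h.run _ h3
        have g5 := h.pos h3
        rw [Nat.sub_add_cancel (by omega)] at g4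
        unfold fin at g2
        rw [if_pos h3] at g2
        omega
      · have g4 := h.idle _ h3
        rw [Nat.sub_add_cancel (by omega)] at g4
        unfold fin at g2
        rw [if_neg h3] at g2
        omega
    refine ⟨?_, g3⟩
    by_contra h3
    unfold fin at g1
    rw [if_neg h3] at g1
    omega
  have hiff : ∀ i, (r i ∧ c i = j + 1) ↔ (a < i ∧ i ≤ b) := by
    intro i
    refine ⟨fun ⟨h1, h2⟩ => ?_, fun ⟨h1, h2⟩ => hrun i h1 h2⟩
    have g1 : fin r c i = j := by
      unfold fin
      rw [if_pos h1, h2]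
      omega
    refine ⟨?_, ?_⟩
    · by_contra hc
      rcases lt_or_eq_of_le (Nat.le_of_not_lt hc) with hlt | heq
      · exact Nat.find_min hex' hlt g1
      · exact ha2.1 (heq ▸ h1)
    · by_contra hc
      have := h.fin_mono (show b + 1 ≤ i by omega)
      omega
  refine ⟨a, b, hab, hbM, ha2.1, ha2.2, hb4, hb5, hiff, fun i => ⟨fun ⟨h1, h2⟩ => ?_, ?_⟩⟩
  · have hri : ¬ r i := fun hr => by
      have := h.run i hr
      omega
    have g1 : fin r c i = j := by
      unfold fin
      rw [if_neg hri]
      exact h1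
    by_contra hne
    have g2 : a ≤ i := Nat.find_min' hex' g1
    have g3 : i ≤ b := by
      by_contra hc
      have := h.fin_mono (show b + 1 ≤ i by omega)
      omega
    exact hri (hrun i (by omega) g3).1
  · rintro rfl
    exact ⟨ha2.2, by rw [h.idle _ ha2.1, ha2.2]⟩

end Cnt

/-! ### The states before the stages -/

section States

variable (π : Prm) (d : ℕ → ℕ) (W₀ : Set (ℤ × ℤ))

/-- The coarse state before the stage `i`, for the history `x` (the last record first). -/
noncomputable def sta (x : List Rec) (i : ℕ) : CSt := cst π d W₀ (x.drop (x.length - i))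

/-- The state is running. -/
def IsRn (σ : CSt) : Prop := σ.run.isSome = true

theorem mv_j (σ : CSt) (L M : ℤ) (ρ : Rec) :
    (¬ IsRn σ → (σ.mv π L M ρ).j = σ.j + 1) ∧ (IsRn σ → (σ.mv π L M ρ).j = σ.j) := by
  unfold IsRn CSt.mv
  cases h : σ.run with
  | none =>
    simp only [Option.isSome_none, Bool.false_eq_true, not_false_eq_true, forall_const,
      false_imp_iff, and_true]
    split_ifs <;> rfl
  | some s =>
    simp only [Option.isSome_some, not_true_eq_false, false_imp_iff, forall_const, true_and]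
    split_ifs <;> rfl

variable {π d W₀}

/-- The counter along a sequence of states. -/
theorem cnt_of_mv {σ : ℕ → CSt} (h0 : ¬ IsRn (σ 0)) (hj : (σ 0).j = 0)
    (h : ∀ i, ∃ L M ρ, σ (i + 1) = (σ i).mv π L M ρ) :
    Cnt (fun i => IsRn (σ i)) fun i => (σ i).j := by
  refine ⟨h0, hj, fun i hi => ?_, fun i hi => ?_⟩
  · obtain ⟨L, M, ρ, h1⟩ := h i
    rw [h1]
    exact (mv_j π (σ i) L M ρ).1 hi
  · obtain ⟨L, M, ρ, h1⟩ := h i
    rw [h1]
    exact (mv_j π (σ i) L M ρ).2 hi

variable (π d W₀)

theorem sta_zero (x : List Rec) : sta π d W₀ x 0 = cst π d W₀ [] := by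
  unfold sta
  rw [Nat.sub_zero, List.drop_length]

theorem sta_succ {x : List Rec} {i : ℕ} (hi : i < x.length) :
    sta π d W₀ x (i + 1) = (sta π d W₀ x i).mv π (msh d i) (msz π.kap d i)
      (x[x.length - (i + 1)]'(by omega)) := by
  unfold sta
  have h1 : x.drop (x.length - (i + 1)) =
      (x[x.length - (i + 1)]'(by omega)) :: x.drop (x.length - i) := by
    rw [List.drop_eq_getElem_cons (by omega)]
    congr 2
    omega
  rw [h1, cst]
  have h2 : (x.drop (x.length - i)).length = i := by
    rw [List.length_drop]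
    omega
  rw [h2]

/-- The history before the stage `i + 1`. -/
theorem drop_histL {Ω A : Type*} (s : ℕ → Ω → A) (ω : Ω) {N i : ℕ} (hi : i ≤ N) :
    (histL s N ω).drop (N - i) = histL s i ω := by
  induction N, hi using Nat.le_induction with
  | base => simp
  | succ N hN ih =>
    rw [show N + 1 - i = (N - i) + 1 by omega]
    show (s (N + 1) ω :: histL s N ω).drop (N - i + 1) = _
    rw [List.drop_succ_cons, ih]

theorem length_histL {Ω A : Type*} (s : ℕ → Ω → A) (ω : Ω) (N : ℕ) :
    (histL s N ω).length = N + 1 := by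
  induction N with
  | zero => rfl
  | succ N ih =>
    show (s (N + 1) ω :: histL s N ω).length = _
    rw [List.length_cons, ih]

theorem sta_histL {Ω : Type*} (s : ℕ → Ω → Rec) (ω : Ω) {N i : ℕ} (hi : i ≤ N) :
    sta π d W₀ (histL s N ω) (i + 1) = cst π d W₀ (histL s i ω) := by
  unfold sta
  rw [length_histL, show N + 1 - (i + 1) = N - i by omega, drop_histL s ω hi]

/-- The place of the tip of a running state. -/
def tipZ (σ : CSt) : ℤ × ℤ := σ.run.elim (0, 0) Dom.tip

open Classical in
/-- The tips of the running stages of the needle `j`. -/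
noncomputable def tipsL (x : List Rec) (j : ℕ) : List (ℤ × ℤ) :=
  ((List.range x.length).filter fun i =>
    decide (IsRn (sta π d W₀ x i) ∧ (sta π d W₀ x i).j = j + 1)).map fun i =>
      tipZ (sta π d W₀ x i)

/-- The base and the tips of the needle `j`, as points of the plane. -/
noncomputable def tipsX (x : List Rec) (j : ℕ) : Option (ℂ × List ℂ) :=
  match tipsL π d W₀ x j with
  | [] => none
  | w :: l => some (ptK (2 ^ d 0) w, (w :: l).map (ptK (2 ^ d 0)))

variable {π d W₀}

/-- The tips of the stages `a < i ≤ b`. -/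
theorem tipsL_eq {x : List Rec} {j a b : ℕ} (hab : a ≤ b) (hb : b < x.length)
    (h : ∀ i < x.length, (IsRn (sta π d W₀ x i) ∧ (sta π d W₀ x i).j = j + 1) ↔
      (a < i ∧ i ≤ b)) :
    tipsL π d W₀ x j = (List.range' (a + 1) (b - a)).map fun i => tipZ (sta π d W₀ x i) := by
  classical
  unfold tipsL
  rcases Nat.eq_or_lt_of_le hab with rfl | hlt
  · rw [Nat.sub_self, List.range'_zero, List.map_nil]
    have h1 : (List.range x.length).filter (fun i =>
        decide (IsRn (sta π d W₀ x i) ∧ (sta π d W₀ x i).j = j + 1)) = [] := by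
      rw [List.filter_eq_nil_iff]
      intro i hi hp
      have h2 := (h i (List.mem_range.1 hi)).1 (of_decide_eq_true hp)
      omega
    rw [h1, List.map_nil]
  · rw [filter_range_eq (a := a + 1) (b := b) (by omega) hb fun i hi => by
      rw [decide_eq_true_iff, h i hi]
      omega]
    rw [show b + 1 - (a + 1) = b - a by omega]

theorem tipsX_none {x : List Rec} {j a : ℕ} (hb : a < x.length)
    (h : ∀ i < x.length, (IsRn (sta π d W₀ x i) ∧ (sta π d W₀ x i).j = j + 1) ↔
      (a < i ∧ i ≤ a)) : tipsX π d W₀ x j = none := by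
  have h1 := tipsL_eq le_rfl hb h
  rw [Nat.sub_self, List.range'_zero, List.map_nil] at h1
  unfold tipsX
  rw [h1]

theorem tipsX_some {x : List Rec} {j a b : ℕ} (hab : a < b) (hb : b < x.length)
    (h : ∀ i < x.length, (IsRn (sta π d W₀ x i) ∧ (sta π d W₀ x i).j = j + 1) ↔
      (a < i ∧ i ≤ b)) :
    tipsX π d W₀ x j = some (ptK (2 ^ d 0) (tipZ (sta π d W₀ x (a + 1))),
      (List.range' (a + 1) (b + 1 - (a + 1))).map fun i =>
        ptK (2 ^ d 0) (tipZ (sta π d W₀ x i))) := by
  have h1 := tipsL_eq hab.le hb h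
  obtain ⟨k, hk⟩ : ∃ k, b - a = k + 1 := ⟨b - a - 1, by omega⟩
  rw [hk, List.range'_succ, List.map_cons] at h1
  unfold tipsX
  rw [h1, show b + 1 - (a + 1) = k + 1 by omega, List.range'_succ, List.map_cons]
  simp only [List.map_cons, List.map_map]
  rfl

/-- The tips of finitely many histories are bounded. -/
theorem exists_bound (S : Finset (List Rec)) (N : ℕ) : ∃ B : ℤ, 0 ≤ B ∧ ∀ x ∈ S, ∀ i ≤ N,
    |(tipZ (sta π d W₀ x i)).1| ≤ B ∧ |(tipZ (sta π d W₀ x i)).2| ≤ B := by
  classical
  refine ⟨∑ x ∈ S, ∑ i ∈ Finset.range (N + 1), (|(tipZ (sta π d W₀ x i)).1| +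
    |(tipZ (sta π d W₀ x i)).2|), by positivity, fun x hx i hi => ?_⟩
  have h1 : |(tipZ (sta π d W₀ x i)).1| + |(tipZ (sta π d W₀ x i)).2| ≤
      ∑ i ∈ Finset.range (N + 1), (|(tipZ (sta π d W₀ x i)).1| +
        |(tipZ (sta π d W₀ x i)).2|) :=
    Finset.single_le_sum (f := fun i => |(tipZ (sta π d W₀ x i)).1| +
      |(tipZ (sta π d W₀ x i)).2|) (fun _ _ => by positivity) (Finset.mem_range.2 (by omega))
  have h2 : ∑ i ∈ Finset.range (N + 1), (|(tipZ (sta π d W₀ x i)).1| +
        |(tipZ (sta π d W₀ x i)).2|) ≤ ∑ x ∈ S, ∑ i ∈ Finset.range (N + 1),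
        (|(tipZ (sta π d W₀ x i)).1| + |(tipZ (sta π d W₀ x i)).2|) :=
    Finset.single_le_sum (f := fun x => ∑ i ∈ Finset.range (N + 1),
      (|(tipZ (sta π d W₀ x i)).1| + |(tipZ (sta π d W₀ x i)).2|))
      (fun _ _ => Finset.sum_nonneg fun _ _ => by positivity) hx
  have h3 := abs_nonneg (tipZ (sta π d W₀ x i)).1
  have h4 := abs_nonneg (tipZ (sta π d W₀ x i)).2
  constructor <;> omega

end States

end Pool.Agent.SixB.Tps
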