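import Pool.Agent.Lib.SixB.S8NearCut
import Pool.Agent.Lib.SixB.S8NearTouch

/-!
# Step 8, near miss: the TOUCH LEMMA

The exploration `E` runs in the hole-free region `U` between the wall of colour `0` and the wall of
colour `1` (`Reg`). `O` is a set of unit edges which joins the two sides (`Arc`), for example the
interval from the first to the last exit of the contour of a component of fresh faces in a block. If at
a stopping time the tip is joined to `O` by a path of sides of fresh faces in the box of radius `r`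
around the tip, then the conditional probability that the strand reaches distance `R` from there before
it crosses `O` is at most `C (r / R) ^ α` (`pr_touch`). `pr_touch_hit` is the same for the first time at
which this happens (after a given stopping time `τ`; `O` is decided at the time `τ`): whenever the
strand is near `O` at a time `t ≥ τ` it crosses `O` before it reaches distance `2 R`.
-/

set_option autoImplicit false

namespace Pool.Agent.SixB.NearCut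

open Finset Pool.Agent.Perc Pool.Agent.PercT Pool.Agent.Perc6 Pool.Agent.SixB

/-- The exploration is regular up to the time `n`: hole-free region, start at its boundary, solid
walls. -/
structure Reg (E : Ex) (ω : Cfg) (n : ℕ) : Prop where
  pot : HasPot (E.U ω)
  front : fa (E.e ω) ∈ E.U ω
  back : fb (E.e ω) ∉ E.U ω
  nb : Nb (E.cf ω) (E.e ω) n
  sol : Sol (E.cf ω) (E.e ω) (E.U ω) n

/-- The set `O` of unit edges joins the two sides of the strand. -/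
structure Arc (E : Ex) (ω : Cfg) (n : ℕ) (O : Set UE) : Prop where
  sub : O ⊆ SU (E.U ω)
  sides : ∃ v0 v1 : ℤ × ℤ, Sd (E.cf ω) (E.e ω) (E.U ω) n 0 v0 ∧
    Sd (E.cf ω) (E.e ω) (E.U ω) n 1 v1 ∧
    ∀ y, (∃ a ∈ O, y = ua a ∨ y = ub a) → Pth O y v0 ∧ Pth O y v1

/-- The unit edges at time `t` which may be used by crosscuts of size `g`. -/
def Fre (E : Ex) (ω : Cfg) (t : ℕ) (g : ℤ) : Set UE :=
  {a | a ∈ SU (E.Fr ω t) ∧ InB (ua (E.p ω t)) (g - 1) a}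

/-- At the time `t` there is a crosscut of size `g` from the tip to `O`. -/
def NearO (E : Ex) (O : Cfg → Set UE) (g : ℤ) (ω : Cfg) (t : ℕ) : Prop :=
  E.p ω t ∈ SU (E.U ω) ∧ ∃ κ : ℤ, (κ = 0 ∨ κ = 1) ∧
    ∃ y, (∃ a ∈ O ω, y = ua a ∨ y = ub a) ∧ Pth (Fre E ω t g) (en κ (E.p ω t)) y

variable {E : Ex} {S : Cfg → Set (ℤ × ℤ)} {ω ω' : Cfg} {s t k l n m : ℕ} {c κ : ℤ}
  {z v : ℤ × ℤ} {r R g : ℤ}

theorem Reg.mono (h : Reg E ω n) (hm : m ≤ n) : Reg E ω m :=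
  ⟨h.pot, h.front, h.back, h.nb.mono hm, fun l hl => h.sol l (by omega)⟩

theorem Sd.mono {e : UE} {U : Set (ℤ × ℤ)} (h : Sd ω e U m c v) (hm : m ≤ n) : Sd ω e U n c v := by
  rcases h with ⟨l, h1, h2⟩ | h
  · exact Or.inl ⟨l, h1.trans hm, h2⟩
  · exact Or.inr h

theorem Arc.mono {O : Set UE} (h : Arc E ω m O) (hm : m ≤ n) : Arc E ω n O := by
  obtain ⟨h1, v0, v1, h2, h3, h4⟩ := h
  exact ⟨h1, v0, v1, h2.mono hm, h3.mono hm, h4⟩

theorem SU_mono {U U' : Set (ℤ × ℤ)} (h : U ⊆ U') : SU U ⊆ SU U' := fun _ ⟨f, hf, hs⟩ =>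
  ⟨f, h hf, hs⟩

theorem fr_sub : E.Fr ω t ⊆ E.U ω := fun _ h => h.1

theorem not_fr_iff {f : ℤ × ℤ} (h : f ∉ E.Fr ω s) :
    f ∉ E.U ω ∨ ∃ l < s, fa (pth (E.cf ω) (E.e ω) l) = f := by
  by_cases hf : f ∈ E.U ω
  · right
    have h1 : f ∈ E.x ω s := by
      by_contra h2
      exact h ⟨hf, h2⟩
    obtain ⟨l, -, h3, h4⟩ := mem_vs.1 (Finset.mem_coe.1 h1.2)
    exact ⟨l, h3, h4.symm⟩
  · exact Or.inl hf

theorem fa_not_fr (h : l < s) : fa (E.p ω l) ∉ E.Fr ω s := by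
  rintro ⟨h1, h2⟩
  exact h2 ⟨h1, Finset.mem_coe.2 (fa_mem_vs (Nat.zero_le _) h)⟩

/-- The sides of the fresh faces have not been crossed. -/
theorem not_crossed (hb : fb (E.e ω) ∉ E.U ω) (h : l < s) : E.p ω l ∉ SU (E.Fr ω s) := by
  rintro ⟨f, hf, hs⟩
  rcases isSide_iff.1 hs with rfl | rfl
  · exact fa_not_fr h hf
  · cases l with
    | zero => exact hb hf.1
    | succ l =>
      have e1 : fb (E.p ω (l + 1)) = fa (E.p ω l) := fb_pth_succ _ _ _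
      rw [e1] at hf
      exact fa_not_fr (by omega) hf

/-- A touch gives a loop. -/
theorem touch_lp (hr : Reg E ω n) (h : E.Touch κ ω s t) (hst : s ≤ t) (htn : t < n) :
    ∃ i ≤ s, Lp (E.cf ω) (E.e ω) (E.U ω) n κ i (t + 1) :=
  exists_lp hr.back htn hst h.2 (not_fr_iff h.1)

/-- The crosscut at the time `s` and the arc which is not crossed up to the time `l`. -/
def CutO (E : Ex) (κ : ℤ) (ω : Cfg) (s l : ℕ) (r : ℤ) : Prop :=
  E.p ω s ∈ SU (E.U ω) ∧ ∃ (Ec O : Set UE) (y v v' : ℤ × ℤ), Ec ⊆ SU (E.U ω) ∧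
    (∀ k < s, E.p ω k ∉ Ec) ∧ (∀ a ∈ Ec, InB (ua (E.p ω s)) (r - 1) a) ∧
    Pth Ec (en κ (E.p ω s)) y ∧ O ⊆ SU (E.U ω) ∧ (∀ k < l, E.p ω k ∉ O) ∧ Pth O y v ∧ Pth O y v' ∧
    Sd (E.cf ω) (E.e ω) (E.U ω) l (1 - κ) v ∧ Sd (E.cf ω) (E.e ω) (E.U ω) l κ v'

/-- Deterministic part. -/
theorem not_passages (hκ : κ = 0 ∨ κ = 1) (hr : Reg E ω l) (h : CutO E κ ω s l r) :
    ¬ Ex.Passages E ω s l (ua (E.p ω s)) r := by
  rintro ⟨i, j, h1, h2, h3, h4, h5, -⟩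
  obtain ⟨hS, Ec, O, y, v, v', g1, g2, g3, g4, g5, g6, g7, g8, g9, g10⟩ := h
  obtain ⟨k1, a1, a2, a3⟩ := h5 κ hκ
  obtain ⟨k2, b1, b2, b3⟩ := h5 (1 - κ) (zc hκ)
  obtain ⟨i1, c1, c2⟩ := touch_lp hr a3 (by omega) (by omega)
  obtain ⟨i2, d1, d2⟩ := touch_lp hr b3 (by omega) (by omega)
  have hm1 : max (k1 + 1) (k2 + 1) ≤ l := max_le (by omega) (by omega)
  refine touch_core (k := i) hr.pot hκ hr.nb hr.sol hr.front c2 d2 c1 d1 h1 (by omega) (by omega)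
    hS g1 g2 ?_ g4 g5 ?_ g7 g8 g9 g10
  · intro m m1 m2 m3
    exact h4 m m1 (by omega) (g3 _ m3)
  · intro m m1
    exact g6 m (by omega)

/-- **TOUCH LEMMA** at a stopping time. -/
theorem pr_touch : ∃ C α : ℝ, 0 < C ∧ 0 < α ∧ ∀ (W : Finset (ℤ × ℤ)) (E : Ex)
    (S : Cfg → Set (ℤ × ℤ)) (τ : Cfg → ℕ) (A : Set Cfg), E.Ok S → E.Time S τ →
    DetS (fun ω => S ω ∪ E.x ω (τ ω)) A → (∀ ω ∈ A, E.U ω ⊆ W) →
    (∀ ω ∈ A, Disjoint (E.U ω) (S ω)) → ∀ r R : ℤ, 0 < r → 0 < R →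
    pr W (A ∩ {ω | ∃ l, τ ω ≤ l ∧ ¬ InB (ua (E.p ω (τ ω))) R (E.p ω l) ∧ Reg E ω l ∧
      ∃ κ : ℤ, (κ = 0 ∨ κ = 1) ∧ CutO E κ ω (τ ω) l r}) ≤ C * ((r : ℝ) / R) ^ α * pr W A := by
  obtain ⟨C, α, hC, hα, h⟩ := Ex.pr_passages
  refine ⟨C, α, hC, hα, ?_⟩
  intro W E S τ A hE hτ hA hU hd r R hr hR
  refine le_trans (pr_mono W ?_) (h W E S τ A hE hτ hA hU hd r R hr hR)
  rintro ω ⟨hω, l, h1, h2, h3, κ, hκ, h4⟩
  exact ⟨hω, l, h1, h2, not_passages hκ h3 h4⟩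

/-- Crosscuts of fresh edges to an arc. -/
theorem cutO_of_near {O : Cfg → Set UE} (hr : Reg E ω l) (h : NearO E O g ω t)
    (hO : Arc E ω l (O ω)) (hl : ∀ k < l, E.p ω k ∉ O ω) :
    ∃ κ : ℤ, (κ = 0 ∨ κ = 1) ∧ CutO E κ ω t l g := by
  obtain ⟨h1, κ, hκ, y, hy, hp⟩ := h
  obtain ⟨hs, v0, v1, g0, g1, g2⟩ := hO
  obtain ⟨g3, g4⟩ := g2 y hy
  have hsub : Fre E ω t g ⊆ SU (E.U ω) := fun a ha => SU_mono fr_sub ha.1
  have hnc : ∀ k < t, E.p ω k ∉ Fre E ω t g := fun k hk ha => not_crossed hr.back hk ha.1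
  have hin : ∀ a ∈ Fre E ω t g, InB (ua (E.p ω t)) (g - 1) a := fun a ha => ha.2
  refine ⟨κ, hκ, h1, Fre E ω t g, O ω, y, ?_⟩
  rcases hκ with rfl | rfl
  · exact ⟨v1, v0, hsub, hnc, hin, hp, hs, hl, g4, g3, g1, g0⟩
  · exact ⟨v0, v1, hsub, hnc, hin, hp, hs, hl, g3, g4, g0, g1⟩

/-- Being near `O` is decided. -/
theorem dec_near (hE : E.Ok S) {τ : Cfg → ℕ} (hτ : E.Time S τ) {O : Cfg → Set UE}
    (hO : Adp (fun ω => S ω ∪ E.x ω (τ ω)) O) (g : ℤ) :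
    E.Dec S (fun ω t => τ ω ≤ t ∧ NearO E O g ω t) := by
  have key : ∀ ω ω' t, E.Ag S ω ω' t → (τ ω ≤ t ∧ NearO E O g ω t) →
      τ ω' ≤ t ∧ NearO E O g ω' t := by
    rintro ω ω' t h ⟨h1, h2⟩
    refine ⟨by rw [hτ ω ω' (h.mono h1)]; exact h1, ?_⟩
    have e1 : O ω' = O ω := hO ω ω' (h.mono h1)
    have e2 : E.p ω' t = E.p ω t := h.p hE le_rfl
    have e3 : E.U ω' = E.U ω := h.U hE
    have e4 : E.Fr ω' t = E.Fr ω t := by
      unfold Ex.Fr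
      rw [e3, h.x hE le_rfl]
    unfold NearO Fre at h2 ⊢
    rw [e1, e2, e3, e4]
    exact h2
  intro ω ω' t h
  exact ⟨key ω ω' t h, key ω' ω t (h.symm hE)⟩

/-- **TOUCH LEMMA**: after the time `τ` the strand does not come near `O` at some time `t` and go to
distance `2 R` from there without crossing `O`. -/
theorem pr_touch_hit : ∃ C α : ℝ, 0 < C ∧ 0 < α ∧ ∀ (W : Finset (ℤ × ℤ)) (E : Ex)
    (S : Cfg → Set (ℤ × ℤ)) (τ : Cfg → ℕ) (A : Set Cfg) (O : Cfg → Set UE), E.Ok S → E.Time S τ →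
    DetS (fun ω => S ω ∪ E.x ω (τ ω)) A → Adp (fun ω => S ω ∪ E.x ω (τ ω)) O →
    (∀ ω ∈ A, E.U ω ⊆ W) → (∀ ω ∈ A, Disjoint (E.U ω) (S ω)) → ∀ (g R : ℤ) (N : ℕ), 0 < g → 0 < R →
    pr W (A ∩ {ω | ∃ t l, τ ω ≤ t ∧ t ≤ l ∧ t ≤ N ∧ NearO E O g ω t ∧
      ¬ InB (ua (E.p ω t)) (2 * R) (E.p ω l) ∧ (∀ k < l, E.p ω k ∉ O ω) ∧ Reg E ω l ∧
      Arc E ω (τ ω) (O ω)}) ≤ C * ((g : ℝ) / R) ^ α * pr W A := by
  obtain ⟨C, α, hC, hα, h⟩ := pr_touch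
  refine ⟨C, α, hC, hα, ?_⟩
  intro W E S τ A O hE hτ hA hO hU hd g R N hg hR
  set T : Cfg → ℕ := fun ω => hit N (fun t => τ ω ≤ t ∧ NearO E O g ω t) with hT
  have hTt : E.Time S T := (dec_near hE hτ hO g).time N
  set A' : Set Cfg := {ω | ω ∈ A ∧ τ ω ≤ T ω} with hA'
  have hdet : DetS (fun ω => S ω ∪ E.x ω (T ω)) A' := by
    rintro ω ⟨h1, h2⟩ ω' h3
    have h4 : E.Ag S ω ω' (T ω) := h3
    refine ⟨hA ω h1 ω' (h4.mono h2), ?_⟩
    rw [hTt ω ω' h4, hτ ω ω' (h4.mono h2)]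
    exact h2
  have h5 := h W E S T A' hE hTt hdet (fun ω hω => hU ω hω.1) (fun ω hω => hd ω hω.1) g R hg hR
  refine le_trans (pr_mono W ?_) (h5.trans (mul_le_mul_of_nonneg_left
    (pr_mono W fun ω hω => hω.1) (by positivity)))
  rintro ω ⟨hω, t, l, h6, h7, h8, h9, h10, h11, h12, h13⟩
  have hTle : T ω ≤ t := hit_le_of ⟨h6, h9⟩
  have hTs : τ ω ≤ T ω ∧ NearO E O g ω (T ω) := by
    rcases hit_spec N (fun t => τ ω ≤ t ∧ NearO E O g ω t) with h14 | h14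
    · have h15 : T ω = N := h14
      have h16 : T ω = t := by omega
      rw [h16]
      exact ⟨h6, h9⟩
    · exact h14
  refine ⟨⟨hω, hTs.1⟩, ?_⟩
  by_cases h14 : InB (ua (E.p ω (T ω))) R (E.p ω t)
  · by_cases h15 : InB (ua (E.p ω (T ω))) R (E.p ω l)
    · exfalso
      apply h10
      unfold InB InR at h14 h15 ⊢
      omega
    · exact ⟨l, hTle.trans h7, h15, h12, cutO_of_near h12 hTs.2 (h13.mono (h6.trans h7)) h11⟩
  · exact ⟨t, hTle, h14, h12.mono h7, cutO_of_near (h12.mono h7) hTs.2 (h13.mono h6)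
      fun k hk => h11 k (hk.trans_le h7)⟩

end Pool.Agent.SixB.NearCut
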