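import Pool.Agent.Lib.SixB.TopEsc

/-!
# The contour of a region without holes

`BD F A`: the directed unit edge `A` enters `F` across a boundary side (`F` on the left when one
walks from `lf A` to `rg A`). `sc F` is the successor on the contour: it turns around the right end
`rg A` staying with the faces of `F`. THEOREM `contour_all`: if `F` is finite, edge connected and has
no holes (`Esc F`), then all boundary sides are on one orbit of `sc F`. `exists_contour`: the contour
as a periodic sequence.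
-/

set_option autoImplicit false

namespace Pool.Agent.SixB.Top

open Finset Pool.Agent.Perc Pool.Agent.Perc6 Pool.Agent.Perc6.C2Aux Pool.Agent.Perc.Tips

/-! ### Directed unit edges -/

/-- The left end of a directed unit edge (seen in the direction of the crossing). -/
def lf : UE × Bool → ℤ × ℤ
  | ((x, y, false), true) => (x, y)
  | ((x, y, true), true) => (x, y + 1)
  | ((x, y, false), false) => (x + 1, y)
  | ((x, y, true), false) => (x, y)

/-- The right end. -/
def rg : UE × Bool → ℤ × ℤ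
  | ((x, y, false), true) => (x + 1, y)
  | ((x, y, true), true) => (x, y)
  | ((x, y, false), false) => (x, y)
  | ((x, y, true), false) => (x, y + 1)

/-- Quarter turn to the right, around the right end. -/
def rtn : UE × Bool → UE × Bool
  | ((x, y, false), true) => ((x + 1, y, true), true)
  | ((x, y, true), true) => ((x, y, false), false)
  | ((x, y, false), false) => ((x, y - 1, true), false)
  | ((x, y, true), false) => ((x - 1, y + 1, false), true)

theorem joins_lf_rg (A : UE × Bool) : Joins A.1 (lf A) (rg A) := by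
  obtain ⟨⟨x, y, _ | _⟩, _ | _⟩ := A <;> simp [lf, rg, Joins, ua, ub]

theorem rg_rtn (A : UE × Bool) : rg (rtn A) = rg A := by
  obtain ⟨⟨x, y, _ | _⟩, _ | _⟩ := A <;> simp [rg, rtn]

theorem lf_rv (A : UE × Bool) : lf (rv A) = rg A := by
  obtain ⟨⟨x, y, _ | _⟩, _ | _⟩ := A <;> simp [rg, lf, rv]

theorem rg_rv (A : UE × Bool) : rg (rv A) = lf A := by
  obtain ⟨⟨x, y, _ | _⟩, _ | _⟩ := A <;> simp [rg, lf, rv]

theorem rtn_four (A : UE × Bool) : rtn (rtn (rtn (rtn A))) = A := by
  obtain ⟨⟨x, y, _ | _⟩, _ | _⟩ := A <;> simp [rtn]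

theorem ahead_rv_rtn (A : UE × Bool) : ahead (rv (rtn A)) = ahead A := by
  obtain ⟨⟨x, y, _ | _⟩, _ | _⟩ := A <;> simp [rtn, rv, ahead]

theorem rtn_inj {A B : UE × Bool} (h : rtn A = rtn B) : A = B := by
  rw [← rtn_four A, ← rtn_four B, h]

theorem rv_inj {A B : UE × Bool} (h : rv A = rv B) : A = B := by
  rw [← rv_rv A, ← rv_rv B, h]

/-- The left class is preserved along the strands. -/
theorem par_lf_nx (ω : Cfg) (A : UE × Bool) : par (lf (nx ω A)) = par (lf A) := by
  obtain ⟨⟨x, y, _ | _⟩, _ | _⟩ := A <;> simp only [nx] <;> split_ifs <;> simp only [lf, par] <;>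
    omega

theorem par_rg_ne_lf (A : UE × Bool) : par (lf A) ≠ par (rg A) := (joins_lf_rg A).par_ne

/-! ### The successor -/

/-- `A` enters `F` across a boundary side. -/
def BD (F : Set (ℤ × ℤ)) (A : UE × Bool) : Prop := ahead A ∈ F ∧ ahead (rv A) ∉ F

open Classical in
/-- The successor on the contour. -/
noncomputable def sc (F : Set (ℤ × ℤ)) (A : UE × Bool) : UE × Bool :=
  if ahead (rtn A) ∈ F then
    (if ahead (rtn (rtn A)) ∈ F then rv (rtn (rtn (rtn A))) else rv (rtn (rtn A)))
  else rv (rtn A)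

theorem sc_left {F : Set (ℤ × ℤ)} {A : UE × Bool} (h : ahead (rtn A) ∉ F) :
    sc F A = rv (rtn A) := by
  unfold sc
  rw [if_neg h]

theorem sc_straight {F : Set (ℤ × ℤ)} {A : UE × Bool} (h : ahead (rtn A) ∈ F)
    (h' : ahead (rtn (rtn A)) ∉ F) : sc F A = rv (rtn (rtn A)) := by
  unfold sc
  rw [if_pos h, if_neg h']

theorem sc_right {F : Set (ℤ × ℤ)} {A : UE × Bool} (h : ahead (rtn A) ∈ F)
    (h' : ahead (rtn (rtn A)) ∈ F) : sc F A = rv (rtn (rtn (rtn A))) := by
  unfold sc
  rw [if_pos h, if_pos h']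

theorem ahead_rtn_three (A : UE × Bool) : ahead (rtn (rtn (rtn A))) = ahead (rv A) := by
  obtain ⟨⟨x, y, _ | _⟩, _ | _⟩ := A <;> simp [rtn, rv, ahead]

theorem BD.step {F : Set (ℤ × ℤ)} {A : UE × Bool} (h : BD F A) : BD F (sc F A) := by
  by_cases h1 : ahead (rtn A) ∈ F
  · by_cases h2 : ahead (rtn (rtn A)) ∈ F
    · rw [sc_right h1 h2]
      refine ⟨by rw [ahead_rv_rtn]; exact h2, ?_⟩
      rw [rv_rv, ahead_rtn_three]
      exact h.2
    · rw [sc_straight h1 h2]
      exact ⟨by rw [ahead_rv_rtn]; exact h1, by rw [rv_rv]; exact h2⟩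
  · rw [sc_left h1]
    exact ⟨by rw [ahead_rv_rtn]; exact h.1, by rw [rv_rv]; exact h1⟩

theorem lf_sc (F : Set (ℤ × ℤ)) (A : UE × Bool) : lf (sc F A) = rg A := by
  by_cases h1 : ahead (rtn A) ∈ F
  · by_cases h2 : ahead (rtn (rtn A)) ∈ F
    · rw [sc_right h1 h2, lf_rv, rg_rtn, rg_rtn, rg_rtn]
    · rw [sc_straight h1 h2, lf_rv, rg_rtn, rg_rtn]
  · rw [sc_left h1, lf_rv, rg_rtn]

theorem BD.bdU {F : Set (ℤ × ℤ)} {A : UE × Bool} (h : BD F A) : BdU F A.1 := by
  obtain ⟨a, d⟩ := A
  refine ⟨⟨_, h.1, isSide_ahead a d⟩, _, h.2, isSide_ahead a (!d)⟩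

theorem exists_BD {F : Set (ℤ × ℤ)} {a : UE} (h : BdU F a) : ∃ d, BD F (a, d) := by
  obtain ⟨d, h1, h2⟩ := bdU_dir h
  refine ⟨!d, h2, ?_⟩
  unfold rv
  simpa using h1

theorem BD.unique {F : Set (ℤ × ℤ)} {a : UE} {d d' : Bool} (h : BD F (a, d)) (h' : BD F (a, d')) :
    d = d' := by
  by_contra hne
  have : d' = !d := by cases d <;> cases d' <;> simp_all
  subst this
  exact h.2 h'.1

theorem sc_inj {F : Set (ℤ × ℤ)} {A B : UE × Bool} (hA : BD F A) (hB : BD F B)
    (h : sc F A = sc F B) : A = B := by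
  -- if one successor is `j` turns, the other `j + i` turns, then `rtn` `i` times of the second is the first
  have k1 : ∀ {A B : UE × Bool}, BD F A → BD F B → rtn A ≠ B := by
    rintro A B hA hB rfl
    apply hB.2
    rw [ahead_rv_rtn]
    exact hA.1
  have k2 : ∀ {A B : UE × Bool}, BD F B → ahead (rtn A) ∈ F → rtn (rtn A) ≠ B := by
    rintro A B hB h rfl
    apply hB.2
    rw [ahead_rv_rtn]
    exact h
  by_cases a1 : ahead (rtn A) ∈ F
  · by_cases a2 : ahead (rtn (rtn A)) ∈ F
    · rw [sc_right a1 a2] at h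
      by_cases b1 : ahead (rtn B) ∈ F
      · by_cases b2 : ahead (rtn (rtn B)) ∈ F
        · rw [sc_right b1 b2] at h
          exact rtn_inj (rtn_inj (rtn_inj (rv_inj h)))
        · rw [sc_straight b1 b2] at h
          exact absurd (rtn_inj (rtn_inj (rv_inj h))) (k1 hA hB)
      · rw [sc_left b1] at h
        exact absurd (rtn_inj (rv_inj h)) (k2 hB a1)
    · rw [sc_straight a1 a2] at h
      by_cases b1 : ahead (rtn B) ∈ F
      · by_cases b2 : ahead (rtn (rtn B)) ∈ F
        · rw [sc_right b1 b2] at h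
          exact absurd (rtn_inj (rtn_inj (rv_inj h))).symm (k1 hB hA)
        · rw [sc_straight b1 b2] at h
          exact rtn_inj (rtn_inj (rv_inj h))
      · rw [sc_left b1] at h
        exact absurd (rtn_inj (rv_inj h)) (k1 hA hB)
  · rw [sc_left a1] at h
    by_cases b1 : ahead (rtn B) ∈ F
    · by_cases b2 : ahead (rtn (rtn B)) ∈ F
      · rw [sc_right b1 b2] at h
        exact absurd (rtn_inj (rv_inj h)).symm (k2 hA b1)
      · rw [sc_straight b1 b2] at h
        exact absurd (rtn_inj (rv_inj h)).symm (k1 hB hA)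
    · rw [sc_left b1] at h
      exact rtn_inj (rv_inj h)

/-! ### Closed sets of unit edges are boundaries -/

/-- The number of unit edges of `O` at the vertex `(x, y)` is even. -/
def EvenV (O : Set UE) (w : ℤ × ℤ) : Prop :=
  ind2 ((w.1, w.2, false) ∈ O) + ind2 ((w.1 - 1, w.2, false) ∈ O) +
    (ind2 ((w.1, w.2, true) ∈ O) + ind2 ((w.1, w.2 - 1, true) ∈ O)) = 0

/-- The number (mod 2) of horizontal unit edges of `O` below the face. -/
noncomputable def chi (y₀ : ℤ) (O : Set UE) (f : ℤ × ℤ) : ZMod 2 :=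
  ∑ j ∈ Ico y₀ (f.2 + 1), ind2 ((f.1, j, false) ∈ O)

theorem chi_up {y₀ : ℤ} {O : Set UE} (hlow : ∀ a ∈ O, y₀ < a.2.1) (x y : ℤ) :
    chi y₀ O (x, y + 1) = chi y₀ O (x, y) + ind2 ((x, y + 1, false) ∈ O) := by
  unfold chi
  simp only
  rcases le_or_gt y₀ (y + 1) with h | h
  · exact sum_Ico_succ' h _
  · rw [Finset.Ico_eq_empty (by omega), Finset.Ico_eq_empty (by omega), Finset.sum_empty,
      ind2_neg, add_zero]
    intro hh
    have := hlow _ hh
    simp only at this
    omega

theorem chi_right {y₀ : ℤ} {O : Set UE} (hlow : ∀ a ∈ O, y₀ < a.2.1) (hO : ∀ w, EvenV O w) (x y : ℤ) :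
    chi y₀ O (x + 1, y) = chi y₀ O (x, y) + ind2 ((x + 1, y, true) ∈ O) := by
  rcases le_or_gt y₀ y with h | h
  · induction y, h using Int.leInduction with
    | base =>
      have e1 : chi y₀ O (x + 1, y₀) = 0 := by
        unfold chi
        apply Finset.sum_eq_zero
        intro j hj
        rw [Finset.mem_Ico] at hj
        apply ind2_neg
        intro hh
        have := hlow _ hh
        simp only at this hj
        omega
      have e2 : chi y₀ O (x, y₀) = 0 := by
        unfold chi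
        apply Finset.sum_eq_zero
        intro j hj
        rw [Finset.mem_Ico] at hj
        apply ind2_neg
        intro hh
        have := hlow _ hh
        simp only at this hj
        omega
      rw [e1, e2, ind2_neg, add_zero]
      intro hh
      have := hlow _ hh
      simp only at this
      omega
    | succ y hy ih =>
      rw [chi_up hlow, chi_up hlow, ih]
      have h := hO (x + 1, y + 1)
      unfold EvenV at h
      simp only [add_sub_cancel_right] at h
      generalize ind2 ((x + 1, y + 1, false) ∈ O) = p1 at h ⊢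
      generalize ind2 ((x, y + 1, false) ∈ O) = p2 at h ⊢
      generalize ind2 ((x + 1, y + 1, true) ∈ O) = p3 at h ⊢
      generalize ind2 ((x + 1, y, true) ∈ O) = p4 at h ⊢
      generalize chi y₀ O (x, y) = p5
      revert p1 p2 p3 p4 p5
      decide
  · have e1 : chi y₀ O (x + 1, y) = 0 := by
      unfold chi
      rw [Finset.Ico_eq_empty (by simp only; omega), Finset.sum_empty]
    have e2 : chi y₀ O (x, y) = 0 := by
      unfold chi
      rw [Finset.Ico_eq_empty (by simp only; omega), Finset.sum_empty]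
    rw [e1, e2, ind2_neg, add_zero]
    intro hh
    have := hlow _ hh
    simp only at this
    omega

/-- The function changes exactly across the unit edges of `O`. -/
theorem chi_iff {y₀ : ℤ} {O : Set UE} (hlow : ∀ a ∈ O, y₀ < a.2.1) (hO : ∀ w, EvenV O w)
    (A : UE × Bool) : A.1 ∈ O ↔ chi y₀ O (ahead A) ≠ chi y₀ O (ahead (rv A)) := by
  obtain ⟨⟨x, y, _ | _⟩, _ | _⟩ := A
  · simp only [rv, ahead, Bool.not_false]
    have := chi_up hlow (O := O) x (y - 1)
    rw [sub_add_cancel] at this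
    rw [this, ne_add_ind2]
  · simp only [rv, ahead, Bool.not_true]
    have := chi_up hlow (O := O) x (y - 1)
    rw [sub_add_cancel] at this
    rw [this, ne_comm, ne_add_ind2]
  · simp only [rv, ahead, Bool.not_false]
    have := chi_right hlow hO (x - 1) y
    rw [sub_add_cancel] at this
    rw [this, ne_add_ind2]
  · simp only [rv, ahead, Bool.not_true]
    have := chi_right hlow hO (x - 1) y
    rw [sub_add_cancel] at this
    rw [this, ne_comm, ne_add_ind2]

theorem chi_side {y₀ : ℤ} {O : Set UE} (hlow : ∀ a ∈ O, y₀ < a.2.1) (hO : ∀ w, EvenV O w)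
    {a : UE} {f g : ℤ × ℤ} (hf : IsSide f a) (hg : IsSide g a) (hne : f ≠ g) :
    a ∈ O ↔ chi y₀ O f ≠ chi y₀ O g := by
  have h := chi_iff hlow hO (a, true)
  have h' := chi_iff hlow hO (a, false)
  unfold rv at h h'
  simp only [Bool.not_true, Bool.not_false] at h h'
  rcases eq_ahead hf with rfl | rfl <;> rcases eq_ahead hg with rfl | rfl
  · exact absurd rfl hne
  · exact h
  · exact h'
  · exact absurd rfl hne

/-- Far away the function vanishes. -/
theorem chi_far {y₀ N : ℤ} {O : Set UE} (hlow : ∀ a ∈ O, y₀ < a.2.1) (hO : ∀ w, EvenV O w)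
    (hN : ∀ a ∈ O, |a.1| < N ∧ |a.2.1| < N) (hy : -N ≤ y₀) {g : ℤ × ℤ} (hg : N < |g.1| ∨ N < |g.2|) :
    chi y₀ O g = 0 := by
  obtain ⟨x, y⟩ := g
  -- columns far away
  have hcol : ∀ x y : ℤ, N ≤ |x| → chi y₀ O (x, y) = 0 := by
    intro x y hx
    unfold chi
    apply Finset.sum_eq_zero
    intro j _
    apply ind2_neg
    intro hh
    have := (hN _ hh).1
    simp only at this hx
    omega
  rcases hg with hg | hg
  · exact hcol x y hg.le
  · simp only at hg
    rcases lt_abs.mp hg with h | h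
    · -- above everything: constant in `x`
      have hN0 : 0 ≤ N ∨ N < 0 := le_or_gt 0 N
      have hrow : ∀ n : ℕ, chi y₀ O (x + n, y) = chi y₀ O (x, y) := by
        intro n
        induction n with
        | zero => simp
        | succ n ih =>
          have := chi_right hlow hO (x + n) y
          rw [show x + ((n + 1 : ℕ) : ℤ) = x + n + 1 by push_cast; ring, this, ih, ind2_neg,
            add_zero]
          intro hh
          have := (hN _ hh).2
          simp only at this
          have h2 := le_abs_self y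
          omega
      have := hrow (|N| + |x|).toNat
      rw [← this, Int.toNat_of_nonneg (by positivity)]
      apply hcol
      have h1 := le_abs_self (x + (|N| + |x|))
      have h2 := neg_abs_le x
      have h3 := le_abs_self N
      omega
    · unfold chi
      rw [Finset.Ico_eq_empty (by simp only; omega), Finset.sum_empty]

/-! ### One orbit -/

/-- Edge connected region. -/
def EConn (F : Set (ℤ × ℤ)) : Prop :=
  ∀ f ∈ F, ∀ g ∈ F, Relation.ReflTransGen (fun a b => AdjF a b ∧ b ∈ F) f g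

theorem four_cases {c1 c2 c3 c4 E W N S : Prop} (nE : (c1 ↔ c4) → ¬ E) (nW : (c2 ↔ c3) → ¬ W)
    (nN : (c1 ↔ c2) → ¬ N) (nS : (c4 ↔ c3) → ¬ S)
    (hW : c2 → ¬ c3 → (¬ c1 → (W ↔ N)) ∧ (c1 → ¬ c4 → (W ↔ E)) ∧ (c1 → c4 → (W ↔ S)))
    (hN : c1 → ¬ c2 → (¬ c4 → (N ↔ E)) ∧ (c4 → ¬ c3 → (N ↔ S)) ∧ (c4 → c3 → (N ↔ W)))
    (hE : c4 → ¬ c1 → (¬ c3 → (E ↔ S)) ∧ (c3 → ¬ c2 → (E ↔ W)) ∧ (c3 → c2 → (E ↔ N)))
    (hS : c3 → ¬ c4 → (¬ c2 → (S ↔ W)) ∧ (c2 → ¬ c1 → (S ↔ N)) ∧ (c2 → c1 → (S ↔ E))) :
    ((E ↔ W) ∧ (N ↔ S)) ∨ ((E ↔ N) ∧ (W ↔ S)) ∨ ((E ↔ S) ∧ (W ↔ N)) := by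
  by_cases h1 : c1 <;> by_cases h2 : c2 <;> by_cases h3 : c3 <;> by_cases h4 : c4 <;>
    simp only [h1, h2, h3, h4, iff_true, iff_false, not_true_eq_false, not_false_eq_true,
      forall_const, IsEmpty.forall_iff, true_and, and_true] at nE nW nN nS hW hN hE hS <;> tauto

/-- A set of boundary sides which is stable under the successor has even degree everywhere. -/
theorem evenV_of_stable {F : Set (ℤ × ℤ)} {O : Set UE} (hb : ∀ a ∈ O, BdU F a)
    (hs : ∀ A, BD F A → (A.1 ∈ O ↔ (sc F A).1 ∈ O)) (w : ℤ × ℤ) : EvenV O w := by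
  obtain ⟨x, y⟩ := w
  unfold EvenV
  simp only
  -- the four faces at `w`
  have nO : ∀ {a : UE} {f g : ℤ × ℤ}, IsSide f a → IsSide g a → f ≠ g →
      (f ∈ F ↔ g ∈ F) → a ∉ O := by
    intro a f g hf hg hne hfg ha
    obtain ⟨⟨k, hk, hks⟩, l, hl, hls⟩ := hb a ha
    rcases side_two hne hf hg hks with rfl | rfl <;> rcases side_two hne hf hg hls with rfl | rfl
    · exact hl hk
    · exact hl (hfg.1 hk)
    · exact hl (hfg.2 hk)
    · exact hl hk
  have nE := nO (a := (x, y, false)) (f := (x, y)) (g := (x, y - 1)) (Or.inl rfl)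
    (by right; right; left; simp [to']) (by simp only [ne_eq, Prod.mk.injEq]; omega)
  have nW := nO (a := (x - 1, y, false)) (f := (x - 1, y)) (g := (x - 1, y - 1)) (Or.inl rfl)
    (by right; right; left; simp [to']) (by simp only [ne_eq, Prod.mk.injEq]; omega)
  have nN := nO (a := (x, y, true)) (f := (x, y)) (g := (x - 1, y)) (by right; left; rfl)
    (by right; right; right; simp [ri]) (by simp only [ne_eq, Prod.mk.injEq]; omega)
  have nS := nO (a := (x, y - 1, true)) (f := (x, y - 1)) (g := (x - 1, y - 1))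
    (by right; left; rfl) (by right; right; right; simp [ri])
    (by simp only [ne_eq, Prod.mk.injEq]; omega)
  -- incoming sides
  have rW : rtn ((x - 1, y, false), true) = ((x, y, true), true) := by simp [rtn]
  have rN : rtn ((x, y, true), true) = ((x, y, false), false) := by simp [rtn]
  have rE : rtn ((x, y, false), false) = ((x, y - 1, true), false) := by simp [rtn]
  have rS : rtn ((x, y - 1, true), false) = ((x - 1, y, false), true) := by simp [rtn]
  have aW : ahead ((x - 1, y, false), true) = (x - 1, y) := rfl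
  have aN : ahead ((x, y, true), true) = (x, y) := rfl
  have aE : ahead ((x, y, false), false) = (x, y - 1) := rfl
  have aS : ahead ((x, y - 1, true), false) = (x - 1, y - 1) := rfl
  have bW : ahead (rv ((x - 1, y, false), true)) = (x - 1, y - 1) := rfl
  have bN : ahead (rv ((x, y, true), true)) = (x - 1, y) := rfl
  have bE : ahead (rv ((x, y, false), false)) = (x, y) := rfl
  have bS : ahead (rv ((x, y - 1, true), false)) = (x, y - 1) := rfl
  have gen : ∀ {A : UE × Bool}, ahead A ∈ F → ahead (rv A) ∉ F →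
      (ahead (rtn A) ∉ F → (A.1 ∈ O ↔ (rtn A).1 ∈ O)) ∧
      (ahead (rtn A) ∈ F → ahead (rtn (rtn A)) ∉ F → (A.1 ∈ O ↔ (rtn (rtn A)).1 ∈ O)) ∧
      (ahead (rtn A) ∈ F → ahead (rtn (rtn A)) ∈ F → (A.1 ∈ O ↔ (rtn (rtn (rtn A))).1 ∈ O)) := by
    intro A h1 h2
    have h := hs A ⟨h1, h2⟩
    refine ⟨fun k1 => ?_, fun k1 k2 => ?_, fun k1 k2 => ?_⟩
    · rw [sc_left k1] at h; exact h
    · rw [sc_straight k1 k2] at h; exact h
    · rw [sc_right k1 k2] at h; exact h
  have fin4 : ∀ {P Q R S : Prop}, ((P ↔ Q) ∧ (R ↔ S)) ∨ ((P ↔ R) ∧ (Q ↔ S)) ∨ ((P ↔ S) ∧ (Q ↔ R)) →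
      ind2 P + ind2 Q + (ind2 R + ind2 S) = 0 := by
    intro P Q R S h
    rcases h with ⟨h1, h2⟩ | ⟨h1, h2⟩ | ⟨h1, h2⟩
    · rw [ind2_congr h1, ind2_congr h2, z2_add_self, z2_add_self, add_zero]
    · rw [ind2_congr h1, ind2_congr h2]
      exact z2_add_self _
    · rw [ind2_congr h1, ind2_congr h2, add_comm (ind2 R) (ind2 S)]
      exact z2_add_self _
  apply fin4
  have hW : (x - 1, y) ∈ F → (x - 1, y - 1) ∉ F → _ := fun h1 h2 =>
    gen (A := ((x - 1, y, false), true)) (by rw [aW]; exact h1) (by rw [bW]; exact h2)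
  have hN : (x, y) ∈ F → (x - 1, y) ∉ F → _ := fun h1 h2 =>
    gen (A := ((x, y, true), true)) (by rw [aN]; exact h1) (by rw [bN]; exact h2)
  have hE : (x, y - 1) ∈ F → (x, y) ∉ F → _ := fun h1 h2 =>
    gen (A := ((x, y, false), false)) (by rw [aE]; exact h1) (by rw [bE]; exact h2)
  have hS : (x - 1, y - 1) ∈ F → (x, y - 1) ∉ F → _ := fun h1 h2 =>
    gen (A := ((x, y - 1, true), false)) (by rw [aS]; exact h1) (by rw [bS]; exact h2)
  rw [rW, rN, rE, aN, aE] at hW
  rw [rN, rE, rS, aE, aS] at hN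
  rw [rE, rS, rW, aS, aW] at hE
  rw [rS, rW, rN, aW, aN] at hS
  exact four_cases nE nW nN nS hW hN hE hS

end Pool.Agent.SixB.Top
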