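import Pool.Agent.Lib.MP_6bd702_zc.Y007

/-!
# Potentials in all simply connected finite regions

`hasPot_of_escape`: let `F` be a set of faces of the rectangle `RF x₀ x₁ y₀ y₁`, such that every face
of the rectangle which is not in `F` is joined to a face outside the rectangle by a chain of adjacent
faces (common side) which are not in `F`. Then every set of unit edges which is even in the faces of
`F` has a potential on the corners of the faces of `F` (`HasPot F`, that is `H^1(F, Z/2) = 0`).
Proof: an odd face outside `F` is repaired by toggling the unit edges crossed by its chain; they are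
not sides of faces of `F`. So the set extends to an even set in the rectangle, `hasPot_RF`.
-/

set_option autoImplicit false

namespace Pool.Agent.SixB

open Finset Pool.Agent.Perc Pool.Agent.Perc6

/-- Faces with a common side. -/
def AdjF (f g : ℤ × ℤ) : Prop := f ≠ g ∧ ∃ a, IsSide f a ∧ IsSide g a

/-- One step of a chain of adjacent faces outside `F`. -/
def StepC (F : Set (ℤ × ℤ)) (f g : ℤ × ℤ) : Prop := AdjF f g ∧ g ∉ F

/-- Every face of the rectangle outside `F` is joined to a face outside the rectangle by a chain of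
adjacent faces outside `F`. -/
def Escape (F : Set (ℤ × ℤ)) (x₀ x₁ y₀ y₁ : ℤ) : Prop :=
  ∀ f ∈ RF x₀ x₁ y₀ y₁, f ∉ F → ∃ g ∉ RF x₀ x₁ y₀ y₁, Relation.ReflTransGen (StepC F) f g

theorem AdjF.symm {f g : ℤ × ℤ} (h : AdjF f g) : AdjF g f := by
  obtain ⟨h1, a, h2, h3⟩ := h
  exact ⟨h1.symm, a, h3, h2⟩

/-- The parity of the number of sides of `f` in `M`. -/
noncomputable def parAt (M : Set UE) (f : ℤ × ℤ) : ZMod 2 :=
  ind2 (bo f ∈ M) + ind2 (ri f ∈ M) + (ind2 (to' f ∈ M) + ind2 (le' f ∈ M))

theorem evenAt_iff {M : Set UE} {f : ℤ × ℤ} : EvenAt M f ↔ parAt M f = 0 := Iff.rfl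

theorem ind2_symmDiff (M P : Set UE) (a : UE) :
    ind2 (a ∈ symmDiff M P) = ind2 (a ∈ M) + ind2 (a ∈ P) := by
  by_cases h1 : a ∈ M
  · by_cases h2 : a ∈ P
    · rw [ind2_pos h1, ind2_pos h2, ind2_neg]
      · decide
      · rw [Set.mem_symmDiff]
        tauto
    · rw [ind2_pos h1, ind2_neg h2, ind2_pos]
      · decide
      · rw [Set.mem_symmDiff]
        tauto
  · by_cases h2 : a ∈ P
    · rw [ind2_neg h1, ind2_pos h2, ind2_pos]
      · decide
      · rw [Set.mem_symmDiff]
        tauto
    · rw [ind2_neg h1, ind2_neg h2, ind2_neg]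
      · decide
      · rw [Set.mem_symmDiff]
        tauto

theorem parAt_symmDiff (M P : Set UE) (f : ℤ × ℤ) :
    parAt (symmDiff M P) f = parAt M f + parAt P f := by
  unfold parAt
  simp only [ind2_symmDiff]
  ring

theorem parAt_congr {M P : Set UE} {f : ℤ × ℤ} (h : ∀ a, IsSide f a → (a ∈ M ↔ a ∈ P)) :
    parAt M f = parAt P f := by
  unfold parAt
  rw [ind2_congr (h _ (Or.inl rfl)), ind2_congr (h _ (Or.inr (Or.inl rfl))),
    ind2_congr (h _ (Or.inr (Or.inr (Or.inl rfl)))),
    ind2_congr (h _ (Or.inr (Or.inr (Or.inr rfl))))]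

theorem parAt_singleton (a : UE) (f : ℤ × ℤ) : parAt {a} f = ind2 (IsSide f a) := by
  obtain ⟨x, y, b⟩ := a
  obtain ⟨u, v⟩ := f
  unfold parAt bo ri to' le' IsSide bo ri to' le'
  simp only [Set.mem_singleton_iff, Prod.mk.injEq]
  cases b
  · by_cases h1 : u = x
    · by_cases h2 : v = y
      · rw [ind2_pos (by simp [h1, h2]), ind2_neg (by simp), ind2_neg (by simp; omega),
          ind2_neg (by simp), ind2_pos (by simp [h1, h2])]
        decide
      · by_cases h3 : v + 1 = y
        · rw [ind2_neg (by simp [h2]), ind2_neg (by simp), ind2_pos (by simp [h1, h3]),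
            ind2_neg (by simp), ind2_pos (by simp [h1, h3])]
          decide
        · rw [ind2_neg (by simp [h2]), ind2_neg (by simp), ind2_neg (by simp [h3]),
            ind2_neg (by simp), ind2_neg (by simp; omega)]
          decide
    · rw [ind2_neg (by simp [h1]), ind2_neg (by simp), ind2_neg (by simp [h1]),
        ind2_neg (by simp), ind2_neg (by simp; omega)]
      decide
  · by_cases h1 : v = y
    · by_cases h2 : u = x
      · rw [ind2_neg (by simp), ind2_neg (by simp; omega), ind2_neg (by simp),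
          ind2_pos (by simp [h1, h2]), ind2_pos (by simp [h1, h2])]
        decide
      · by_cases h3 : u + 1 = x
        · rw [ind2_neg (by simp), ind2_pos (by simp [h1, h3]), ind2_neg (by simp),
            ind2_neg (by simp [h2]), ind2_pos (by simp [h1, h3])]
          decide
        · rw [ind2_neg (by simp), ind2_neg (by simp [h3]), ind2_neg (by simp),
            ind2_neg (by simp [h2]), ind2_neg (by simp; omega)]
          decide
    · rw [ind2_neg (by simp), ind2_neg (by simp [h1]), ind2_neg (by simp),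
        ind2_neg (by simp [h1]), ind2_neg (by simp; omega)]
      decide

/-- A unit edge is a side of exactly two faces. -/
theorem side_two {f g h : ℤ × ℤ} {a : UE} (hfg : f ≠ g) (hf : IsSide f a) (hg : IsSide g a)
    (hh : IsSide h a) : h = f ∨ h = g := by
  obtain ⟨x, y, b⟩ := a
  obtain ⟨f1, f2⟩ := f
  obtain ⟨g1, g2⟩ := g
  obtain ⟨h1, h2⟩ := h
  unfold IsSide bo ri to' le' at hf hg hh
  simp only [Prod.mk.injEq, ne_eq] at *
  cases b <;> simp at hf hg hh <;> omega

theorem parAt_side {f g : ℤ × ℤ} {a : UE} (hfg : f ≠ g) (hf : IsSide f a) (hg : IsSide g a)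
    (h : ℤ × ℤ) : parAt {a} h = ind2 (h = f) + ind2 (h = g) := by
  rw [parAt_singleton]
  by_cases h1 : h = f
  · subst h1
    rw [ind2_pos hf, ind2_pos rfl, ind2_neg hfg]
    decide
  · by_cases h2 : h = g
    · subst h2
      rw [ind2_pos hg, ind2_pos rfl, ind2_neg h1]
      decide
    · rw [ind2_neg, ind2_neg h1, ind2_neg h2]
      · decide
      · intro hh
        rcases side_two hfg hf hg hh with h | h
        · exact h1 h
        · exact h2 h

/-- Toggling along a chain. -/
theorem chain_toggle {F : Set (ℤ × ℤ)} {f g : ℤ × ℤ} (hf : f ∉ F)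
    (h : Relation.ReflTransGen (StepC F) f g) :
    g ∉ F ∧ ∃ P : Set UE, (∀ a ∈ P, ∀ k ∈ F, ¬ IsSide k a) ∧
      ∀ k, parAt P k = ind2 (k = f) + ind2 (k = g) := by
  induction h with
  | refl =>
    refine ⟨hf, ∅, fun a ha => absurd ha (Set.notMem_empty a), fun k => ?_⟩
    have : parAt (∅ : Set UE) k = 0 := by
      unfold parAt
      rw [ind2_neg (Set.notMem_empty _), ind2_neg (Set.notMem_empty _),
        ind2_neg (Set.notMem_empty _), ind2_neg (Set.notMem_empty _)]
      decide
    rw [this, z2_add_self]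
  | @tail b c _ hs ih =>
    obtain ⟨hb, P, hP, hpar⟩ := ih
    obtain ⟨⟨hbc, a, ha1, ha2⟩, hc⟩ := hs
    refine ⟨hc, symmDiff P {a}, ?_, ?_⟩
    · intro a' ha' k hk hs
      rw [Set.mem_symmDiff] at ha'
      rcases ha' with ⟨h1, _⟩ | ⟨h1, _⟩
      · exact hP a' h1 k hk hs
      · rw [Set.mem_singleton_iff] at h1
        subst h1
        rcases side_two hbc ha1 ha2 hs with h | h
        · exact hb (h ▸ hk)
        · exact hc (h ▸ hk)
    · intro k
      rw [parAt_symmDiff, hpar, parAt_side hbc ha1 ha2]
      generalize ind2 (k = f) = p1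
      generalize ind2 (k = b) = p2
      generalize ind2 (k = c) = p3
      revert p1 p2 p3
      decide

/-- **Potentials exist in every region whose complement escapes.** -/
theorem hasPot_of_escape {F : Set (ℤ × ℤ)} {x₀ x₁ y₀ y₁ : ℤ}
    (hF : ∀ f ∈ F, f ∈ RF x₀ x₁ y₀ y₁) (h : Escape F x₀ x₁ y₀ y₁) : HasPot F := by
  classical
  intro M hM
  -- induction on the number of odd faces
  have key : ∀ (n : ℕ) (M : Set UE), (∀ f ∈ F, EvenAt M f) →
      ((RF x₀ x₁ y₀ y₁).filter (fun f => ¬ EvenAt M f)).card ≤ n →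
      ∃ Φ : ℤ × ℤ → ZMod 2, IsPot F M Φ := by
    intro n
    induction n with
    | zero =>
      intro M hM hn
      have he : ∀ f ∈ (RF x₀ x₁ y₀ y₁ : Set (ℤ × ℤ)), EvenAt M f := by
        intro f hf
        by_contra hne
        have : f ∈ (RF x₀ x₁ y₀ y₁).filter (fun f => ¬ EvenAt M f) :=
          Finset.mem_filter.mpr ⟨Finset.mem_coe.mp hf, hne⟩
        rw [Finset.card_eq_zero.mp (Nat.le_zero.mp hn)] at this
        exact absurd this (Finset.notMem_empty f)
      obtain ⟨Φ, hΦ⟩ := hasPot_RF x₀ x₁ y₀ y₁ M he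
      exact ⟨Φ, fun f hf a ha => hΦ f (Finset.mem_coe.mpr (hF f hf)) a ha⟩
    | succ n ih =>
      intro M hM hn
      by_cases hz : ((RF x₀ x₁ y₀ y₁).filter (fun f => ¬ EvenAt M f)).card ≤ n
      · exact ih M hM hz
      have hpos : 0 < ((RF x₀ x₁ y₀ y₁).filter (fun f => ¬ EvenAt M f)).card := by omega
      obtain ⟨f, hf⟩ := Finset.card_pos.mp hpos
      have hf' := Finset.mem_filter.mp hf
      have hfF : f ∉ F := fun hh => hf'.2 (hM f hh)
      obtain ⟨g, hg, hchain⟩ := h f hf'.1 hfF
      obtain ⟨_, P, hP, hpar⟩ := chain_toggle hfF hchain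
      have hM' : ∀ k ∈ F, EvenAt (symmDiff M P) k := by
        intro k hk
        rw [evenAt_iff, parAt_symmDiff, evenAt_iff.mp (hM k hk), zero_add]
        rw [parAt_congr (P := ∅) ?_]
        · unfold parAt
          rw [ind2_neg (Set.notMem_empty _), ind2_neg (Set.notMem_empty _),
            ind2_neg (Set.notMem_empty _), ind2_neg (Set.notMem_empty _)]
          decide
        · intro a ha
          exact ⟨fun hh => absurd ha (hP a hh k hk), fun hh => absurd hh (Set.notMem_empty a)⟩
      have hsub : (RF x₀ x₁ y₀ y₁).filter (fun k => ¬ EvenAt (symmDiff M P) k) ⊆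
          ((RF x₀ x₁ y₀ y₁).filter (fun k => ¬ EvenAt M k)).erase f := by
        intro k hk
        rw [Finset.mem_filter] at hk
        obtain ⟨hk1, hk2⟩ := hk
        have hkg : k ≠ g := fun hh => hg (hh ▸ hk1)
        rw [evenAt_iff, parAt_symmDiff, hpar, ind2_neg hkg, add_zero] at hk2
        rw [Finset.mem_erase, Finset.mem_filter]
        by_cases hkf : k = f
        · exfalso
          apply hk2
          subst hkf
          rw [ind2_pos rfl]
          have : parAt M k = 1 := by
            rcases z2_cases (parAt M k) with h0 | h0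
            · exact absurd h0 hf'.2
            · exact h0
          rw [this]
          decide
        · rw [ind2_neg hkf, add_zero] at hk2
          exact ⟨hkf, hk1, hk2⟩
      have hcard := Finset.card_le_card hsub
      rw [Finset.card_erase_of_mem hf] at hcard
      obtain ⟨Φ, hΦ⟩ := ih (symmDiff M P) hM' (by omega)
      refine ⟨Φ, fun k hk a ha => ?_⟩
      rw [← hΦ k hk a ha, Set.mem_symmDiff]
      have hnP : a ∉ P := fun hh => hP a hh k hk ha
      tauto
  exact key _ M hM le_rfl

end Pool.Agent.SixB
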